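import Mathlib

/-!
MP_816dec_an: entire functions of the size `exp (X Y / β)`, their primitives and the limits of the
primitives in the two valleys (left: `Im > 0`, right: `Im < 0`).
-/

set_option autoImplicit false

open Complex Set Filter Topology MeasureTheory

namespace Sok

/-- entire functions of size `exp (X Y / β)`, locally uniformly in `Y` -/
structure Kr (β : ℝ) (h : ℂ → ℂ) : Prop where
  diff : Differentiable ℂ h
  bd : ∀ a b : ℝ, ∃ M : ℝ, 0 ≤ M ∧ ∀ X Y : ℝ, a ≤ Y → Y ≤ b →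
    ‖h (X + Y * I)‖ ≤ M * Real.exp (X * Y / β)

/-- the limits of the primitive `P` in the two valleys -/
structure Lim (P : ℂ → ℂ) (lL lR : ℂ) : Prop where
  left : ∀ Y : ℝ, 0 < Y → Tendsto (fun X : ℝ => P (X + Y * I)) atBot (𝓝 lL)
  right : ∀ Y : ℝ, Y < 0 → Tendsto (fun X : ℝ => P (X + Y * I)) atTop (𝓝 lR)

theorem exists_prim {h : ℂ → ℂ} (hh : Differentiable ℂ h) : ∃ P : ℂ → ℂ, ∀ x, HasDerivAt P (h x) x := by
  obtain ⟨P, hP⟩ := hh.isExactOn_univ
  exact ⟨P, fun x => hP x (mem_univ x)⟩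

theorem prim_hor {h P : ℂ → ℂ} (hh : Differentiable ℂ h) (hP : ∀ x, HasDerivAt P (h x) x) (a b Y : ℝ) :
    ∫ X in a..b, h (X + Y * I) = P (b + Y * I) - P (a + Y * I) := by
  have h1 : ∀ X ∈ uIcc a b, HasDerivAt (fun X : ℝ => P (X + Y * I)) (h (X + Y * I)) X := by
    intro X _
    have h2 : HasDerivAt (fun X : ℝ => (X : ℂ) + Y * I) 1 X := by
      have := (Complex.ofRealCLM.hasDerivAt (x := X)).add_const ((Y : ℂ) * I)
      simpa using this
    have h3 := HasDerivAt.comp X (hP ((X : ℂ) + Y * I)) h2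
    rw [mul_one] at h3
    exact h3
  have h4 : IntervalIntegrable (fun X : ℝ => h (X + Y * I)) volume a b := by
    apply Continuous.intervalIntegrable
    have := hh.continuous
    fun_prop
  exact intervalIntegral.integral_eq_sub_of_hasDerivAt h1 h4

theorem prim_ver {h P : ℂ → ℂ} (hh : Differentiable ℂ h) (hP : ∀ x, HasDerivAt P (h x) x) (a b X : ℝ) :
    I * ∫ Y in a..b, h (X + Y * I) = P (X + b * I) - P (X + a * I) := by
  have h1 : ∀ Y ∈ uIcc a b, HasDerivAt (fun Y : ℝ => P (X + Y * I)) (I * h (X + Y * I)) Y := by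
    intro Y _
    have h2 : HasDerivAt (fun Y : ℝ => (X : ℂ) + Y * I) I Y := by
      have := ((Complex.ofRealCLM.hasDerivAt (x := Y)).mul_const I).const_add (X : ℂ)
      simpa using this
    have h3 := HasDerivAt.comp Y (hP ((X : ℂ) + Y * I)) h2
    rw [mul_comm] at h3
    exact h3
  have h4 : IntervalIntegrable (fun Y : ℝ => I * h (X + Y * I)) volume a b := by
    apply Continuous.intervalIntegrable
    have := hh.continuous
    fun_prop
  have h5 := intervalIntegral.integral_eq_sub_of_hasDerivAt h1 h4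
  rw [← h5, intervalIntegral.integral_const_mul]

theorem Kr.neg {β : ℝ} {h : ℂ → ℂ} (hh : Kr β h) : Kr β fun x => h (-x) := by
  refine ⟨hh.diff.comp differentiable_neg, fun a b => ?_⟩
  obtain ⟨M, hM, hb⟩ := hh.bd (-b) (-a)
  refine ⟨M, hM, fun X Y h1 h2 => ?_⟩
  have h3 := hb (-X) (-Y) (by linarith) (by linarith)
  have e1 : ((-X : ℝ) : ℂ) + ((-Y : ℝ) : ℂ) * I = -(X + Y * I) := by push_cast; ring
  rw [e1] at h3
  have e2 : -X * -Y / β = X * Y / β := by ring
  rwa [e2] at h3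

private theorem exp_int {c : ℝ} (hc : 0 < c) (b : ℝ) : IntegrableOn (fun X : ℝ => Real.exp (X * c)) (Iic b) := by
  have h := integrableOn_exp_mul_Iic hc b
  refine h.congr_fun (fun X _ => ?_) measurableSet_Iic
  rw [mul_comm]

theorem Kr.int_left {β : ℝ} (hβ : 0 < β) {h : ℂ → ℂ} (hh : Kr β h) {Y : ℝ} (hY : 0 < Y) (b : ℝ) :
    IntegrableOn (fun X : ℝ => h (X + Y * I)) (Iic b) := by
  obtain ⟨M, hM, hb⟩ := hh.bd Y Y
  have h1 : IntegrableOn (fun X : ℝ => M * Real.exp (X * (Y / β))) (Iic b) :=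
    (exp_int (div_pos hY hβ) b).const_mul M
  refine h1.mono' ?_ ?_
  · have := hh.diff.continuous
    exact (by fun_prop : Continuous fun X : ℝ => h (X + Y * I)).aestronglyMeasurable
  · refine Filter.Eventually.of_forall fun X => ?_
    have := hb X Y le_rfl le_rfl
    rwa [mul_div_assoc] at this

theorem Kr.lim_left {β : ℝ} (hβ : 0 < β) {h P : ℂ → ℂ} (hh : Kr β h)
    (hP : ∀ x, HasDerivAt P (h x) x) : ∃ l : ℂ, ∀ Y : ℝ, 0 < Y →
    Tendsto (fun X : ℝ => P (X + Y * I)) atBot (𝓝 l) := by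
  have h1 : ∀ Y : ℝ, 0 < Y → ∃ l : ℂ, Tendsto (fun X : ℝ => P (X + Y * I)) atBot (𝓝 l) := by
    intro Y hY
    refine ⟨P (0 + Y * I) - ∫ X in Iic (0 : ℝ), h (X + Y * I), ?_⟩
    have h2 := intervalIntegral_tendsto_integral_Iic (0 : ℝ) (hh.int_left hβ hY 0) tendsto_id
    have h3 := (tendsto_const_nhds (x := P (0 + Y * I))).sub h2
    refine h3.congr fun X => ?_
    rw [prim_hor hh.diff hP]
    simp
  obtain ⟨l, hl⟩ := h1 1 one_pos
  refine ⟨l, fun Y hY => ?_⟩
  -- the difference tends to zero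
  have h2 : Tendsto (fun X : ℝ => P (X + Y * I) - P (X + (1 : ℝ) * I)) atBot (𝓝 0) := by
    obtain ⟨M, hM, hb⟩ := hh.bd (min Y 1) (max Y 1)
    have hm : 0 < min Y 1 := lt_min hY one_pos
    have h3 : Tendsto (fun X : ℝ => (M * Real.exp (X * (min Y 1 / β))) * |Y - 1|) atBot (𝓝 0) := by
      have h4 : Tendsto (fun X : ℝ => X * (min Y 1 / β)) atBot atBot :=
        tendsto_id.atBot_mul_const (div_pos hm hβ)
      have h5 := Real.tendsto_exp_atBot.comp h4
      have h6 := (h5.const_mul M).mul_const |Y - 1|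
      simpa using h6
    refine squeeze_zero_norm' ?_ h3
    filter_upwards [eventually_le_atBot (0 : ℝ)] with X hX
    rw [← prim_ver hh.diff hP, norm_mul, Complex.norm_I, one_mul]
    have h7 := intervalIntegral.norm_integral_le_of_norm_le_const (a := (1 : ℝ)) (b := Y)
      (f := fun Y : ℝ => h (X + Y * I)) (C := M * Real.exp (X * (min Y 1 / β))) ?_
    · exact h7
    · intro y hy
      rw [uIoc_comm, uIoc] at hy
      have h8 := hb X y hy.1.le hy.2
      refine h8.trans ?_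
      have h9 : X * y / β ≤ X * (min Y 1 / β) := by
        rw [mul_div_assoc]
        apply mul_le_mul_of_nonpos_left _ hX
        exact div_le_div_of_nonneg_right hy.1.le hβ.le
      gcongr
  have h3 := h2.add (by simpa using hl : Tendsto (fun X : ℝ => P (X + (1 : ℝ) * I)) atBot (𝓝 l))
  simpa using h3

theorem Kr.lim {β : ℝ} (hβ : 0 < β) {h P : ℂ → ℂ} (hh : Kr β h)
    (hP : ∀ x, HasDerivAt P (h x) x) : ∃ lL lR : ℂ, Lim P lL lR := by
  obtain ⟨lL, hL⟩ := hh.lim_left hβ hP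
  have hP' : ∀ x, HasDerivAt (fun x => -P (-x)) (h (-x)) x := by
    intro x
    have h1 := ((hP (-x)).comp x (hasDerivAt_neg x)).neg
    rw [mul_neg_one, neg_neg] at h1
    exact h1
  obtain ⟨l, hl⟩ := hh.neg.lim_left hβ hP'
  refine ⟨lL, -l, hL, fun Y hY => ?_⟩
  have h2 := (hl (-Y) (by linarith)).neg
  have h3 := h2.comp tendsto_neg_atTop_atBot
  refine h3.congr fun X => ?_
  simp only [Function.comp, neg_neg]
  congr 1
  push_cast
  ring

/-- the step contour -/
theorem Lim.step {β : ℝ} (hβ : 0 < β) {h P : ℂ → ℂ} (hh : Kr β h) (hP : ∀ x, HasDerivAt P (h x) x)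
    {lL lR : ℂ} (hl : Lim P lL lR) {X₁ X₂ y₁ y₀ y₂ : ℝ} (h1 : 0 < y₁) (h2 : y₂ < 0) :
    lR - lL = (∫ X in Iic X₁, h (X + y₁ * I)) + I * (∫ Y in y₁..y₀, h (X₁ + Y * I)) +
      (∫ X in X₁..X₂, h (X + y₀ * I)) + I * (∫ Y in y₀..y₂, h (X₂ + Y * I)) +
      ∫ X in Ioi X₂, h (X + y₂ * I) := by
  have e1 : (∫ X in Iic X₁, h (X + y₁ * I)) = P (X₁ + y₁ * I) - lL := by
    have h3 := intervalIntegral_tendsto_integral_Iic X₁ (hh.int_left hβ h1 X₁) tendsto_id
    have h4 : Tendsto (fun X : ℝ => ∫ x in X..X₁, h (x + y₁ * I)) atBot (𝓝 (P (X₁ + y₁ * I) - lL)) := by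
      refine ((tendsto_const_nhds (x := P (X₁ + y₁ * I))).sub (hl.left y₁ h1)).congr fun X => ?_
      rw [prim_hor hh.diff hP]
    exact tendsto_nhds_unique h3 h4
  have hint : IntegrableOn (fun X : ℝ => h (X + y₂ * I)) (Ioi X₂) := by
    have h5 := hh.neg.int_left hβ (Y := -y₂) (by linarith) (-X₂)
    have h6 := h5.comp_neg_Ici
    refine (integrableOn_Ici_iff_integrableOn_Ioi (μ := volume)).1 ?_
    refine (h6).congr_fun (fun X _ => ?_) measurableSet_Ici
    simp only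
    congr 1
    push_cast
    ring
  have e2 : (∫ X in Ioi X₂, h (X + y₂ * I)) = lR - P (X₂ + y₂ * I) := by
    have h3 := intervalIntegral_tendsto_integral_Ioi X₂ hint tendsto_id
    have h4 : Tendsto (fun X : ℝ => ∫ x in X₂..X, h (x + y₂ * I)) atTop (𝓝 (lR - P (X₂ + y₂ * I))) := by
      refine ((hl.right y₂ h2).sub (tendsto_const_nhds (x := P (X₂ + y₂ * I)))).congr fun X => ?_
      rw [prim_hor hh.diff hP]
    exact tendsto_nhds_unique h3 h4
  rw [e1, e2, prim_ver hh.diff hP, prim_ver hh.diff hP, prim_hor hh.diff hP]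
  ring

end Sok
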