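import Mathlib

/-!
MP_816dec_an (Sokal's function), basic facts: definition, derivative, continuity, conjugation, bounds.
-/

open Complex Set Filter Topology

namespace Sok

/-- Sokal's function -/
noncomputable def F (q z : ℂ) : ℂ := ∑' k : ℕ, q ^ (k * (k - 1) / 2) * z ^ k / (k.factorial : ℂ)

/-- k-th term -/
noncomputable def tm (q z : ℂ) (k : ℕ) : ℂ := q ^ (k * (k - 1) / 2) * z ^ k / (k.factorial : ℂ)

theorem F_eq (q z : ℂ) : F q z = ∑' k, tm q z k := rfl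

theorem norm_tm_le {q : ℂ} (hq : ‖q‖ ≤ 1) (z : ℂ) (k : ℕ) :
    ‖tm q z k‖ ≤ ‖z‖ ^ k / (k.factorial : ℝ) := by
  unfold tm
  rw [norm_div, norm_mul, norm_pow, norm_pow, Complex.norm_natCast]
  have h : ‖q‖ ^ (k * (k - 1) / 2) ≤ 1 := pow_le_one₀ (norm_nonneg q) hq
  have h2 : 0 ≤ ‖z‖ ^ k := pow_nonneg (norm_nonneg z) k
  gcongr
  nlinarith

theorem summable_pow_div (R : ℝ) : Summable (fun k : ℕ => R ^ k / (k.factorial : ℝ)) :=
  Real.summable_pow_div_factorial R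

theorem summable_tm {q : ℂ} (hq : ‖q‖ ≤ 1) (z : ℂ) : Summable (tm q z) :=
  Summable.of_norm_bounded (summable_pow_div ‖z‖) (norm_tm_le hq z)

theorem summable_norm_tm {q : ℂ} (hq : ‖q‖ ≤ 1) (z : ℂ) : Summable (fun k => ‖tm q z k‖) :=
  Summable.of_nonneg_of_le (fun _ => norm_nonneg _) (norm_tm_le hq z) (summable_pow_div ‖z‖)

theorem norm_F_le {q : ℂ} (hq : ‖q‖ ≤ 1) (z : ℂ) : ‖F q z‖ ≤ Real.exp ‖z‖ := by
  rw [F_eq]
  have h1 : Real.exp ‖z‖ = ∑' k : ℕ, ‖z‖ ^ k / (k.factorial : ℝ) := by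
    rw [Real.exp_eq_exp_ℝ, NormedSpace.exp_eq_tsum_div]
  rw [h1]
  exact tsum_of_norm_bounded (summable_pow_div ‖z‖).hasSum (norm_tm_le hq z)

theorem F_zero (q : ℂ) : F q 0 = 1 := by
  rw [F_eq, tsum_eq_single 0]
  · simp [tm]
  · intro k hk
    simp [tm, hk]

theorem hasDerivAt_F {q : ℂ} (hq : ‖q‖ ≤ 1) (z : ℂ) : HasDerivAt (F q) (F q (q * z)) z := by
  obtain ⟨R, hR⟩ : ∃ R : ℝ, R = ‖z‖ + 1 := ⟨_, rfl⟩
  have hR0 : 0 < R := by rw [hR]; positivity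
  obtain ⟨g', hg'⟩ : ∃ g' : ℕ → ℂ → ℂ, g' = fun (k : ℕ) (y : ℂ) =>
      q ^ (k * (k - 1) / 2) * ((k : ℂ) * y ^ (k - 1)) / (k.factorial : ℂ) := ⟨_, rfl⟩
  have hg's : ∀ k y, g' (k + 1) y = tm q (q * y) k := by
    intro k y
    rw [hg']
    unfold tm
    simp only
    rw [Nat.triangle_succ, Nat.factorial_succ, pow_add, mul_pow]
    have h1 : ((k + 1 : ℕ) : ℂ) ≠ 0 := Nat.cast_ne_zero.2 (Nat.succ_ne_zero k)
    have h2 : (k.factorial : ℂ) ≠ 0 := Nat.cast_ne_zero.2 (Nat.factorial_ne_zero k)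
    push_cast at h1 ⊢
    field_simp
  have hg'0 : ∀ y, g' 0 y = 0 := by intro y; rw [hg']; simp
  obtain ⟨u, hu⟩ : ∃ u : ℕ → ℝ, u = fun k => if k = 0 then 0 else R ^ (k - 1) / ((k - 1).factorial : ℝ) :=
    ⟨_, rfl⟩
  have husum : Summable u := by
    rw [← summable_nat_add_iff 1, hu]
    simpa using summable_pow_div R
  have h := hasDerivAt_tsum_of_isPreconnected (𝕜 := ℂ) (g := fun k y => tm q y k) (g' := g') (u := u)
    (t := Metric.ball (0:ℂ) R) (y₀ := 0) (y := z) husum Metric.isOpen_ball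
    (convex_ball (0:ℂ) R).isPreconnected ?_ ?_ ?_ ?_ ?_
  · have e1 : (fun y => ∑' k, tm q y k) = F q := by funext y; rfl
    rw [e1] at h
    have hs : Summable (fun k => g' k z) := by
      rw [← summable_nat_add_iff 1]
      simp only [hg's]
      exact summable_tm hq _
    have e2 : ∑' k, g' k z = F q (q * z) := by
      rw [hs.tsum_eq_zero_add, hg'0, zero_add, F_eq]
      simp only [hg's]
    rw [e2] at h
    exact h
  · intro k y _
    rw [hg']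
    unfold tm
    simp only
    exact ((hasDerivAt_pow k y).const_mul _).div_const _
  · intro k y hy
    rw [Metric.mem_ball, dist_zero_right] at hy
    rw [hu]
    rcases k with _ | k
    · simp [hg'0]
    · simp only [hg's, Nat.add_eq_zero_iff, one_ne_zero, and_false, if_false, Nat.add_sub_cancel]
      refine le_trans (norm_tm_le hq _ k) ?_
      gcongr
      rw [norm_mul]
      have := norm_nonneg y
      nlinarith
  · simp [hR0]
  · exact summable_tm hq 0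
  · rw [Metric.mem_ball, dist_zero_right, hR]; linarith

theorem differentiable_F {q : ℂ} (hq : ‖q‖ ≤ 1) : Differentiable ℂ (F q) :=
  fun z => (hasDerivAt_F hq z).differentiableAt

theorem deriv_F {q : ℂ} (hq : ‖q‖ ≤ 1) (z : ℂ) : deriv (F q) z = F q (q * z) := (hasDerivAt_F hq z).deriv

theorem continuous_tm (k : ℕ) : Continuous (fun p : ℂ × ℂ => tm p.1 p.2 k) := by
  unfold tm
  exact ((continuous_fst.pow _).mul (continuous_snd.pow _)).div_const _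

/-- joint continuity on |q| ≤ 1, bounded z -/
theorem continuousOn_F_aux (R : ℝ) :
    ContinuousOn (fun p : ℂ × ℂ => ∑' k, tm p.1 p.2 k) {p : ℂ × ℂ | ‖p.1‖ ≤ 1 ∧ ‖p.2‖ ≤ R} := by
  apply continuousOn_tsum (u := fun k => R ^ k / (k.factorial : ℝ))
  · intro k
    exact (continuous_tm k).continuousOn
  · exact summable_pow_div R
  · intro k p hp
    obtain ⟨hp1, hp2⟩ := hp
    have h := norm_tm_le hp1 p.2 k
    have h2 : ‖p.2‖ ^ k ≤ R ^ k := pow_le_pow_left₀ (norm_nonneg _) hp2 k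
    have h3 : ‖p.2‖ ^ k / (k.factorial : ℝ) ≤ R ^ k / (k.factorial : ℝ) := by gcongr
    exact h.trans h3

/-- joint continuity on |q| ≤ 1 -/
theorem continuousOn_F : ContinuousOn (fun p : ℂ × ℂ => F p.1 p.2) {p : ℂ × ℂ | ‖p.1‖ ≤ 1} := by
  show ContinuousOn (fun p : ℂ × ℂ => ∑' k, tm p.1 p.2 k) {p : ℂ × ℂ | ‖p.1‖ ≤ 1}
  intro p hp
  have hp' : ‖p.1‖ ≤ 1 := hp
  obtain ⟨R, hR⟩ : ∃ R : ℝ, R = ‖p.2‖ + 1 := ⟨_, rfl⟩
  have hpR : ‖p.2‖ < R := by rw [hR]; linarith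
  have hmem : p ∈ {p : ℂ × ℂ | ‖p.1‖ ≤ 1 ∧ ‖p.2‖ ≤ R} := ⟨hp', hpR.le⟩
  have h1 := continuousOn_F_aux R p hmem
  have h3 : {p' : ℂ × ℂ | ‖p'.2‖ < R} ∈ 𝓝 p :=
    IsOpen.mem_nhds (isOpen_lt continuous_snd.norm continuous_const) hpR
  refine h1.mono_of_mem_nhdsWithin ?_
  have h4 : {p' : ℂ × ℂ | ‖p'.2‖ < R} ∈ 𝓝[{p : ℂ × ℂ | ‖p.1‖ ≤ 1}] p := mem_nhdsWithin_of_mem_nhds h3
  have h5 : {p : ℂ × ℂ | ‖p.1‖ ≤ 1} ∈ 𝓝[{p : ℂ × ℂ | ‖p.1‖ ≤ 1}] p := self_mem_nhdsWithin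
  refine Filter.mem_of_superset (Filter.inter_mem h4 h5) ?_
  rintro p' ⟨hp1, hp2⟩
  exact ⟨hp2, le_of_lt hp1⟩

theorem F_conj (q z : ℂ) : F (starRingEnd ℂ q) (starRingEnd ℂ z) = starRingEnd ℂ (F q z) := by
  rw [F_eq, F_eq, Complex.conj_tsum]
  congr 1
  funext k
  unfold tm
  simp

end Sok
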