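import Mathlib
import Pool.Agent.Lib.MP_816dec_an.Basic
import Pool.Agent.Lib.MP_816dec_an.A0Prim

/-!
MP_816dec_an: Sokal's function as an integral of an entire function between the two valleys.
-/

set_option autoImplicit false

open Complex Set Filter Topology MeasureTheory

namespace Sok

/-- the Fresnel exponential with a frequency -/
noncomputable def hk (β : ℝ) (k : ℕ) (x : ℂ) : ℂ := cexp (-(I * x ^ 2 / (2 * β)) + I * k * x)

/-- the integrand -/
noncomputable def GG (β : ℝ) (z x : ℂ) : ℂ :=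
  cexp (-(I * x ^ 2 / (2 * β))) * cexp (z * cexp (-(I * β / 2)) * cexp (I * x))

theorem norm_fresnel {β : ℝ} (X Y : ℝ) :
    ‖cexp (-(I * ((X : ℂ) + Y * I) ^ 2 / (2 * β)))‖ = Real.exp (X * Y / β) := by
  rw [Complex.norm_exp]
  congr 1
  have e1 : -(I * ((X : ℂ) + Y * I) ^ 2 / (2 * β)) =
      ((X * Y / β : ℝ) : ℂ) + ((-(X ^ 2 - Y ^ 2) / (2 * β) : ℝ) : ℂ) * I := by
    push_cast
    rcases eq_or_ne (β : ℂ) 0 with h | h
    · rw [h]; simp
    · field_simp
      have := Complex.I_sq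
      linear_combination (-2 * (X : ℂ) * Y - I * Y ^ 2) * this
  rw [e1, Complex.add_re, Complex.ofReal_re, Complex.re_ofReal_mul]
  simp

theorem norm_hk {β : ℝ} (k : ℕ) (X Y : ℝ) :
    ‖hk β k (X + Y * I)‖ = Real.exp (X * Y / β) * Real.exp (-(k * Y)) := by
  rw [hk, Complex.exp_add, norm_mul, norm_fresnel, Complex.norm_exp]
  congr 2
  simp

theorem norm_GG {β : ℝ} (z : ℂ) (X Y : ℝ) :
    ‖GG β z (X + Y * I)‖ = Real.exp (X * Y / β +
      (z * cexp (-(I * β / 2)) * cexp (I * X)).re * Real.exp (-Y)) := by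
  rw [GG, norm_mul, norm_fresnel, Complex.norm_exp, Real.exp_add]
  congr 2
  have e1 : z * cexp (-(I * β / 2)) * cexp (I * ((X : ℂ) + Y * I)) =
      z * cexp (-(I * β / 2)) * cexp (I * X) * ((Real.exp (-Y) : ℝ) : ℂ) := by
    have e2 : cexp (I * ((X : ℂ) + Y * I)) = cexp (I * X) * ((Real.exp (-Y) : ℝ) : ℂ) := by
      rw [Complex.ofReal_exp, ← Complex.exp_add]
      congr 1
      push_cast
      linear_combination (Y : ℂ) * Complex.I_sq
    rw [e2]
    ring
  rw [e1, Complex.re_mul_ofReal]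

theorem norm_zq {β : ℝ} (z : ℂ) (X : ℝ) : ‖z * cexp (-(I * β / 2)) * cexp (I * X)‖ = ‖z‖ := by
  rw [norm_mul, norm_mul, Complex.norm_exp, Complex.norm_exp]
  have e1 : (-(I * (β : ℂ) / 2)).re = 0 := by simp
  have e2 : (I * (X : ℂ)).re = 0 := by simp
  rw [e1, e2]
  simp

theorem kr_hk {β : ℝ} (k : ℕ) : Kr β (hk β k) := by
  refine ⟨by unfold hk; fun_prop, fun a b => ⟨Real.exp (-(k * a)), (Real.exp_pos _).le, ?_⟩⟩
  intro X Y h1 h2
  rw [norm_hk, mul_comm]
  gcongr

theorem kr_GG {β : ℝ} (z : ℂ) : Kr β (GG β z) := by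
  refine ⟨by unfold GG; fun_prop, fun a b => ⟨Real.exp (‖z‖ * Real.exp (-a)), (Real.exp_pos _).le, ?_⟩⟩
  intro X Y h1 h2
  rw [norm_GG, ← Real.exp_add]
  apply Real.exp_le_exp.2
  have h3 : (z * cexp (-(I * β / 2)) * cexp (I * X)).re ≤ ‖z‖ := by
    rw [← norm_zq (β := β) z X]
    exact Complex.re_le_norm _
  have h4 : Real.exp (-Y) ≤ Real.exp (-a) := Real.exp_le_exp.2 (by linarith)
  have h5 : (z * cexp (-(I * β / 2)) * cexp (I * X)).re * Real.exp (-Y) ≤ ‖z‖ * Real.exp (-Y) :=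
    mul_le_mul_of_nonneg_right h3 (Real.exp_pos _).le
  have h6 : ‖z‖ * Real.exp (-Y) ≤ ‖z‖ * Real.exp (-a) := mul_le_mul_of_nonneg_left h4 (norm_nonneg _)
  linarith

/-- the Fresnel integral -/
theorem lim_fresnel {β : ℝ} (hβ : 0 < β) {P : ℂ → ℂ} (hP : ∀ x, HasDerivAt P (hk β 0 x) x)
    {lL lR : ℂ} (hl : Lim P lL lR) : lR - lL = (1 - I) * (Real.sqrt (Real.pi * β) : ℝ) := by
  have hd : Differentiable ℂ (hk β 0) := (kr_hk 0).diff
  -- along the diagonal
  have hdiag : ∀ T : ℝ, P ((1 - I) * T) - P 0 = (1 - I) * ∫ t in (0 : ℝ)..T, cexp (-(1 / β : ℝ) * t ^ 2) := by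
    intro T
    have h1 : ∀ t ∈ uIcc 0 T, HasDerivAt (fun t : ℝ => P ((1 - I) * t))
        ((1 - I) * cexp (-(1 / β : ℝ) * t ^ 2)) t := by
      intro t _
      have h2 : HasDerivAt (fun t : ℝ => (1 - I) * (t : ℂ)) (1 - I) t := by
        have := (Complex.ofRealCLM.hasDerivAt (x := t)).const_mul (1 - I)
        simpa using this
      have h3 := HasDerivAt.comp t (hP ((1 - I) * (t : ℂ))) h2
      have e1 : hk β 0 ((1 - I) * (t : ℂ)) = cexp (-(1 / β : ℝ) * t ^ 2) := by
        rw [hk]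
        congr 1
        have hb : (β : ℂ) ≠ 0 := by exact_mod_cast hβ.ne'
        push_cast
        field_simp
        have := Complex.I_sq
        linear_combination (2 * (t : ℂ) ^ 2 - I * (t : ℂ) ^ 2) * this
      rw [e1, mul_comm] at h3
      exact h3
    have h4 : IntervalIntegrable (fun t : ℝ => (1 - I) * cexp (-(1 / β : ℝ) * t ^ 2)) volume 0 T := by
      apply Continuous.intervalIntegrable
      fun_prop
    have h5 := intervalIntegral.integral_eq_sub_of_hasDerivAt h1 h4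
    rw [intervalIntegral.integral_const_mul] at h5
    rw [h5]
    simp
  -- the half of the Gaussian integral
  have hc : 0 < 1 / β := by positivity
  have hhalf : Tendsto (fun T : ℝ => ∫ t in (0 : ℝ)..T, cexp (-(1 / β : ℝ) * t ^ 2)) atTop
      (𝓝 ((Real.sqrt (Real.pi * β) / 2 : ℝ) : ℂ)) := by
    have h1 : IntegrableOn (fun t : ℝ => cexp (-(1 / β : ℝ) * t ^ 2)) (Ioi 0) := by
      have := integrable_cexp_neg_mul_sq (b := ((1 / β : ℝ) : ℂ)) (by simpa using hc)
      exact this.integrableOn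
    have h2 := intervalIntegral_tendsto_integral_Ioi (0 : ℝ) h1 tendsto_id
    have h3 : ∫ t in Ioi (0 : ℝ), cexp (-(1 / β : ℝ) * t ^ 2) = ((Real.sqrt (Real.pi * β) / 2 : ℝ) : ℂ) := by
      have h4 := integral_gaussian_Ioi (1 / β)
      rw [div_div_eq_mul_div, div_one] at h4
      rw [← h4, ← integral_complex_ofReal]
      refine integral_congr_ae (Filter.Eventually.of_forall fun t => ?_)
      simp
    rw [h3] at h2
    exact h2
  -- the right limit
  have hP0 : ∀ T : ℝ, P (-((1 - I) * T)) - P 0 = -(P ((1 - I) * T) - P 0) := by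
    intro T
    have h1 : ∀ x : ℂ, HasDerivAt (fun x => P (-x) + P x) 0 x := by
      intro x
      have h2 := ((hP (-x)).comp x (hasDerivAt_neg x)).add (hP x)
      have e1 : hk β 0 (-x) * -1 + hk β 0 x = 0 := by
        simp [hk]
      rw [e1] at h2
      exact h2
    have h3 := is_const_of_deriv_eq_zero (f := fun x => P (-x) + P x)
      (fun x => (h1 x).differentiableAt) (fun x => (h1 x).deriv) ((1 - I) * T) 0
    simp only [neg_zero] at h3
    linear_combination h3
  have hver : ∀ T : ℝ, 1 ≤ T → ‖P (T + (-1 : ℝ) * I) - P ((1 - I) * T)‖ ≤ β / T := by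
    intro T hT
    have e1 : ((1 - I) * T : ℂ) = (T : ℂ) + ((-T : ℝ) : ℂ) * I := by push_cast; ring
    rw [e1, ← prim_ver hd hP, norm_mul, Complex.norm_I, one_mul]
    have h1 : ‖∫ Y in (-T)..(-1 : ℝ), hk β 0 (T + Y * I)‖ ≤ ∫ Y in (-T)..(-1 : ℝ), Real.exp (Y * (T / β)) := by
      apply intervalIntegral.norm_integral_le_of_norm_le (by linarith)
      · refine Filter.Eventually.of_forall fun Y _ => ?_
        rw [norm_hk]
        simp
        apply le_of_eq
        ring
      · apply Continuous.intervalIntegrable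
        fun_prop
    refine h1.trans ?_
    have hTb : 0 < T / β := by positivity
    have h2 : ∫ Y in (-T)..(-1 : ℝ), Real.exp (Y * (T / β)) =
        (Real.exp (-1 * (T / β)) - Real.exp (-T * (T / β))) / (T / β) := by
      rw [intervalIntegral.integral_comp_mul_right (fun x => Real.exp x) hTb.ne', integral_exp]
      rw [smul_eq_mul, inv_mul_eq_div]
    rw [h2, div_le_div_iff₀ hTb (by linarith)]
    have h3 : Real.exp (-1 * (T / β)) ≤ 1 := Real.exp_le_one_iff.2 (by linarith)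
    have h4 := Real.exp_pos (-T * (T / β))
    have h5 : β * (T / β) = T := by field_simp
    rw [h5]
    nlinarith
  have hR : Tendsto (fun T : ℝ => P ((1 - I) * T)) atTop (𝓝 lR) := by
    have h1 : Tendsto (fun T : ℝ => P (T + (-1 : ℝ) * I) - P ((1 - I) * T)) atTop (𝓝 0) := by
      have h2 : Tendsto (fun T : ℝ => β / T) atTop (𝓝 0) := tendsto_const_nhds.div_atTop tendsto_id
      refine squeeze_zero_norm' ?_ h2
      filter_upwards [eventually_ge_atTop (1 : ℝ)] with T hT
      exact hver T hT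
    have h3 := (hl.right (-1) (by norm_num)).sub h1
    rw [sub_zero] at h3
    refine h3.congr fun T => ?_
    ring
  have hver' : ∀ T : ℝ, 1 ≤ T → ‖P (((-T : ℝ) : ℂ) + (1 : ℝ) * I) - P (-((1 - I) * T))‖ ≤ β / T := by
    intro T hT
    have h1 : ∀ x : ℂ, HasDerivAt (fun x => P (-x) + P x) 0 x := by
      intro x
      have h2 := ((hP (-x)).comp x (hasDerivAt_neg x)).add (hP x)
      have e1 : hk β 0 (-x) * -1 + hk β 0 x = 0 := by
        simp [hk]
      rw [e1] at h2
      exact h2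
    have h3 := is_const_of_deriv_eq_zero (f := fun x => P (-x) + P x)
      (fun x => (h1 x).differentiableAt) (fun x => (h1 x).deriv) ((1 - I) * T) (T + (-1 : ℝ) * I)
    have e2 : (((-T : ℝ) : ℂ) + (1 : ℝ) * I) = -(T + (-1 : ℝ) * I) := by push_cast; ring
    rw [e2]
    have e3 : P (-((T : ℂ) + (-1 : ℝ) * I)) - P (-((1 - I) * T)) =
        -(P (T + (-1 : ℝ) * I) - P ((1 - I) * T)) := by
      linear_combination -h3
    rw [e3, norm_neg]
    exact hver T hT
  have hL : Tendsto (fun T : ℝ => P (-((1 - I) * T))) atTop (𝓝 lL) := by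
    have h1 : Tendsto (fun T : ℝ => P (((-T : ℝ) : ℂ) + (1 : ℝ) * I) - P (-((1 - I) * T))) atTop (𝓝 0) := by
      have h2 : Tendsto (fun T : ℝ => β / T) atTop (𝓝 0) := tendsto_const_nhds.div_atTop tendsto_id
      refine squeeze_zero_norm' ?_ h2
      filter_upwards [eventually_ge_atTop (1 : ℝ)] with T hT
      exact hver' T hT
    have h3 := ((hl.left 1 one_pos).comp tendsto_neg_atTop_atBot).sub h1
    rw [sub_zero] at h3
    refine h3.congr fun T => ?_
    simp only [Function.comp]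
    ring
  have h1 : Tendsto (fun T : ℝ => P ((1 - I) * T) - P (-((1 - I) * T))) atTop
      (𝓝 ((1 - I) * (Real.sqrt (Real.pi * β) : ℝ))) := by
    have h2 := (hhalf.const_mul (1 - I)).const_mul 2
    have e1 : 2 * ((1 - I) * ((Real.sqrt (Real.pi * β) / 2 : ℝ) : ℂ)) = (1 - I) * (Real.sqrt (Real.pi * β) : ℝ) := by
      push_cast; ring
    rw [e1] at h2
    refine h2.congr fun T => ?_
    rw [← hdiag]
    linear_combination (hP0 T)
  exact tendsto_nhds_unique (hR.sub hL) h1

/-- the Fresnel integral with a frequency -/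
theorem lim_hk {β : ℝ} (hβ : 0 < β) (k : ℕ) {P : ℂ → ℂ} (hP : ∀ x, HasDerivAt P (hk β k x) x)
    {lL lR : ℂ} (hl : Lim P lL lR) :
    lR - lL = cexp (I * β * k ^ 2 / 2) * ((1 - I) * (Real.sqrt (Real.pi * β) : ℝ)) := by
  have hb : (β : ℂ) ≠ 0 := by exact_mod_cast hβ.ne'
  have he : cexp (I * β * k ^ 2 / 2) ≠ 0 := Complex.exp_ne_zero _
  have h1 : ∀ x, HasDerivAt (fun x => (cexp (I * β * k ^ 2 / 2))⁻¹ * P (x + β * k)) (hk β 0 x) x := by
    intro x
    have h2 : HasDerivAt (fun x : ℂ => x + β * k) 1 x := (hasDerivAt_id x).add_const _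
    have h3 := (HasDerivAt.comp x (hP (x + β * k)) h2).const_mul (cexp (I * β * k ^ 2 / 2))⁻¹
    have e1 : (cexp (I * β * k ^ 2 / 2))⁻¹ * (hk β k (x + β * k) * 1) = hk β 0 x := by
      rw [mul_one, hk, hk, ← Complex.exp_neg, ← Complex.exp_add]
      congr 1
      field_simp
      push_cast
      ring
    rw [e1] at h3
    exact h3
  have h4 : Lim (fun x => (cexp (I * β * k ^ 2 / 2))⁻¹ * P (x + β * k))
      ((cexp (I * β * k ^ 2 / 2))⁻¹ * lL) ((cexp (I * β * k ^ 2 / 2))⁻¹ * lR) := by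
    constructor
    · intro Y hY
      have h5 : Tendsto (fun X : ℝ => X + β * k) atBot atBot := tendsto_atBot_add_const_right _ _ tendsto_id
      have h6 := ((hl.left Y hY).comp h5).const_mul (cexp (I * β * k ^ 2 / 2))⁻¹
      refine h6.congr fun X => ?_
      simp only [Function.comp]
      congr 2
      push_cast
      ring
    · intro Y hY
      have h5 : Tendsto (fun X : ℝ => X + β * k) atTop atTop := tendsto_atTop_add_const_right _ _ tendsto_id
      have h6 := ((hl.right Y hY).comp h5).const_mul (cexp (I * β * k ^ 2 / 2))⁻¹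
      refine h6.congr fun X => ?_
      simp only [Function.comp]
      congr 2
      push_cast
      ring
  have h5 := lim_fresnel hβ h1 h4
  rw [← mul_sub, inv_mul_eq_iff_eq_mul₀ he] at h5
  exact h5

private theorem stepI {β : ℝ} (hβ : 0 < β) {h P : ℂ → ℂ} (hh : Kr β h) (hP : ∀ x, HasDerivAt P (h x) x)
    {lL lR : ℂ} (hl : Lim P lL lR) :
    lR - lL = (∫ X in Iic (0 : ℝ), h (X + (1 : ℝ) * I)) + I * (∫ Y in (1 : ℝ)..(-1), h (Y * I)) +
      ∫ X in Ioi (0 : ℝ), h (X + (-1 : ℝ) * I) := by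
  have h1 := hl.step hβ hh hP (X₁ := 0) (X₂ := 0) (y₁ := 1) (y₀ := -1) (y₂ := -1) one_pos (by norm_num)
  rw [h1]
  simp

/-- coefficients -/
private noncomputable def ak (β : ℝ) (z : ℂ) (k : ℕ) : ℂ := (z * cexp (-(I * β / 2))) ^ k / (k.factorial : ℂ)

private theorem norm_ak {β : ℝ} (z : ℂ) (k : ℕ) : ‖ak β z k‖ = ‖z‖ ^ k / (k.factorial : ℝ) := by
  rw [ak, norm_div, norm_pow, norm_mul, Complex.norm_exp, Complex.norm_natCast]
  have e1 : (-(I * (β : ℂ) / 2)).re = 0 := by simp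
  rw [e1, Real.exp_zero, mul_one]

private theorem hasSum_GG {β : ℝ} (z x : ℂ) : HasSum (fun k => ak β z k * hk β k x) (GG β z x) := by
  have h1 := (NormedSpace.expSeries_div_hasSum_exp (𝔸 := ℂ) (z * cexp (-(I * β / 2)) * cexp (I * x))).mul_left
    (cexp (-(I * x ^ 2 / (2 * β))))
  rw [← Complex.exp_eq_exp_ℂ] at h1
  refine h1.congr_fun fun k => ?_
  have e1 : I * (k : ℂ) * x = k * (I * x) := by ring
  rw [ak, hk, Complex.exp_add, e1, Complex.exp_nat_mul]
  ring

private theorem sumInt {μ : Measure ℝ} {f : ℕ → ℝ → ℂ} {g : ℝ → ℂ} {c : ℕ → ℝ} {E : ℝ → ℝ}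
    (hf : ∀ k, AEStronglyMeasurable (f k) μ) (hb : ∀ k, ∀ᵐ X ∂μ, ‖f k X‖ ≤ c k * E X)
    (hc : Summable c) (hE : Integrable E μ) (hg : ∀ X, HasSum (fun k => f k X) (g X)) :
    HasSum (fun k => ∫ X, f k X ∂μ) (∫ X, g X ∂μ) := by
  refine hasSum_integral_of_dominated_convergence (fun k X => c k * E X) hf hb ?_ ?_ ?_
  · exact Filter.Eventually.of_forall fun X => hc.mul_right _
  · simp only [tsum_mul_right]
    exact hE.const_mul _
  · exact Filter.Eventually.of_forall hg

/-- **Sokal's function as an integral between the two valleys** -/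
theorem F_eq_lim {β : ℝ} (hβ : 0 < β) (z : ℂ) {P : ℂ → ℂ} (hP : ∀ x, HasDerivAt P (GG β z x) x)
    {lL lR : ℂ} (hl : Lim P lL lR) :
    lR - lL = (1 - I) * (Real.sqrt (Real.pi * β) : ℝ) * F (cexp (I * β)) z := by
  rw [stepI hβ (kr_GG z) hP hl]
  have hk1 : ∀ k, (∫ X in Iic (0 : ℝ), hk β k (X + (1 : ℝ) * I)) + I * (∫ Y in (1 : ℝ)..(-1), hk β k (Y * I)) +
      ∫ X in Ioi (0 : ℝ), hk β k (X + (-1 : ℝ) * I) =
        cexp (I * β * k ^ 2 / 2) * ((1 - I) * (Real.sqrt (Real.pi * β) : ℝ)) := by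
    intro k
    obtain ⟨Q, hQ⟩ := exists_prim (kr_hk (β := β) k).diff
    obtain ⟨mL, mR, hm⟩ := (kr_hk k).lim hβ hQ
    rw [← stepI hβ (kr_hk k) hQ hm, lim_hk hβ k hQ hm]
  have hs : Summable fun k : ℕ => ‖z‖ ^ k / (k.factorial : ℝ) * Real.exp k := by
    have h1 := Real.summable_pow_div_factorial (‖z‖ * Real.exp 1)
    refine h1.congr fun k => ?_
    rw [mul_pow, ← Real.exp_nat_mul, mul_one]
    ring
  have hexpL : IntegrableOn (fun X : ℝ => Real.exp (X * (1 / β))) (Iic 0) := by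
    have h := integrableOn_exp_mul_Iic (show 0 < 1 / β by positivity) 0
    refine h.congr_fun (fun X _ => ?_) measurableSet_Iic
    rw [mul_comm]
  have hexpR : IntegrableOn (fun X : ℝ => Real.exp (-(X * (1 / β)))) (Ioi 0) := by
    have h := exp_neg_integrableOn_Ioi 0 (show 0 < 1 / β by positivity)
    refine h.congr_fun (fun X _ => ?_) measurableSet_Ioi
    show Real.exp (-(1 / β) * X) = Real.exp (-(X * (1 / β)))
    congr 1
    ring
  -- piece 1
  have p1 : HasSum (fun k => ∫ X in Iic (0 : ℝ), ak β z k * hk β k (X + (1 : ℝ) * I))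
      (∫ X in Iic (0 : ℝ), GG β z (X + (1 : ℝ) * I)) := by
    refine sumInt (c := fun k => ‖z‖ ^ k / (k.factorial : ℝ) * Real.exp k) ?_ ?_ hs hexpL
      (fun X => hasSum_GG z _)
    · intro k
      exact (((kr_hk k).int_left hβ one_pos 0).const_mul _).aestronglyMeasurable
    · intro k
      refine Filter.Eventually.of_forall fun X => ?_
      rw [norm_mul, norm_ak, norm_hk, mul_assoc]
      apply mul_le_mul_of_nonneg_left _ (by positivity)
      rw [← Real.exp_add, ← Real.exp_add]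
      apply Real.exp_le_exp.2
      have : (0 : ℝ) ≤ k := Nat.cast_nonneg k
      have e1 : X * 1 / β = X * (1 / β) := by ring
      linarith
  -- piece 3
  have p3 : HasSum (fun k => ∫ X in Ioi (0 : ℝ), ak β z k * hk β k (X + (-1 : ℝ) * I))
      (∫ X in Ioi (0 : ℝ), GG β z (X + (-1 : ℝ) * I)) := by
    refine sumInt (c := fun k => ‖z‖ ^ k / (k.factorial : ℝ) * Real.exp k) ?_ ?_ hs hexpR
      (fun X => hasSum_GG z _)
    · intro k
      have := (kr_hk (β := β) k).diff.continuous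
      exact (by fun_prop : Continuous fun X : ℝ => ak β z k * hk β k (X + (-1 : ℝ) * I)).aestronglyMeasurable
    · intro k
      refine Filter.Eventually.of_forall fun X => ?_
      rw [norm_mul, norm_ak, norm_hk, mul_assoc]
      apply mul_le_mul_of_nonneg_left _ (by positivity)
      rw [← Real.exp_add, ← Real.exp_add]
      apply Real.exp_le_exp.2
      have e1 : X * -1 / β = -(X * (1 / β)) := by ring
      linarith
  -- piece 2
  have p2 : HasSum (fun k => ∫ Y in Ioc (-1 : ℝ) 1, ak β z k * hk β k (Y * I))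
      (∫ Y in Ioc (-1 : ℝ) 1, GG β z (Y * I)) := by
    refine sumInt (E := fun _ => 1) (c := fun k => ‖z‖ ^ k / (k.factorial : ℝ) * Real.exp k) ?_ ?_ hs ?_
      (fun X => hasSum_GG z _)
    · intro k
      have := (kr_hk (β := β) k).diff.continuous
      exact (by fun_prop : Continuous fun Y : ℝ => ak β z k * hk β k (Y * I)).aestronglyMeasurable
    · intro k
      refine (ae_restrict_iff' measurableSet_Ioc).2 (Filter.Eventually.of_forall fun Y hY => ?_)
      have h1 := norm_hk (β := β) k 0 Y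
      rw [Complex.ofReal_zero, zero_add] at h1
      rw [norm_mul, norm_ak, h1, mul_one]
      apply mul_le_mul_of_nonneg_left _ (by positivity)
      rw [← Real.exp_add]
      apply Real.exp_le_exp.2
      have : (0 : ℝ) ≤ k := Nat.cast_nonneg k
      have h2 := hY.1
      have e1 : 0 * Y / β = 0 := by ring
      nlinarith
    · exact integrableOn_const (by simp) (by simp)
  have p2' : HasSum (fun k => I * ∫ Y in (1 : ℝ)..(-1), ak β z k * hk β k (Y * I))
      (I * ∫ Y in (1 : ℝ)..(-1), GG β z (Y * I)) := by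
    have h1 := (p2.neg).mul_left I
    rw [intervalIntegral.integral_symm, intervalIntegral.integral_of_le (by norm_num)]
    refine h1.congr_fun fun k => ?_
    rw [intervalIntegral.integral_symm, intervalIntegral.integral_of_le (by norm_num)]
  have hsum := (p1.add p2').add p3
  have hR : HasSum (fun k => (1 - I) * (Real.sqrt (Real.pi * β) : ℝ) * tm (cexp (I * β)) z k)
      ((1 - I) * (Real.sqrt (Real.pi * β) : ℝ) * F (cexp (I * β)) z) := by
    apply HasSum.mul_left
    have hq : ‖cexp (I * (β : ℂ))‖ ≤ 1 := by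
      rw [Complex.norm_exp]
      simp
    exact (summable_tm hq z).hasSum
  refine hsum.unique (hR.congr_fun fun k => ?_)
  have e1 : (∫ X in Iic (0 : ℝ), ak β z k * hk β k (X + (1 : ℝ) * I)) +
      I * (∫ Y in (1 : ℝ)..(-1), ak β z k * hk β k (Y * I)) +
      (∫ X in Ioi (0 : ℝ), ak β z k * hk β k (X + (-1 : ℝ) * I)) =
      ak β z k * (cexp (I * β * k ^ 2 / 2) * ((1 - I) * (Real.sqrt (Real.pi * β) : ℝ))) := by
    rw [← hk1 k, intervalIntegral.integral_const_mul, integral_const_mul, integral_const_mul]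
    ring
  rw [e1]
  have e2 : ak β z k * cexp (I * β * k ^ 2 / 2) = tm (cexp (I * β)) z k := by
    rw [ak, tm, mul_pow, ← Complex.exp_nat_mul, ← Complex.exp_nat_mul]
    have h2 : ((k * (k - 1) / 2 : ℕ) : ℂ) = (k : ℂ) * (k - 1) / 2 := by
      rw [← Nat.choose_two_right, Nat.cast_choose_two]
    rw [h2]
    have e3 : (k : ℂ) * (k - 1) / 2 * (I * β) = k * -(I * β / 2) + I * β * k ^ 2 / 2 := by ring
    rw [e3, Complex.exp_add]
    ring
  rw [← e2]
  ring

/-- existence form: the primitive and its limits -/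
theorem exists_F_lim {β : ℝ} (hβ : 0 < β) (z : ℂ) : ∃ (P : ℂ → ℂ) (lL lR : ℂ),
    (∀ x, HasDerivAt P (GG β z x) x) ∧ Lim P lL lR ∧
    lR - lL = (1 - I) * (Real.sqrt (Real.pi * β) : ℝ) * F (cexp (I * β)) z := by
  obtain ⟨P, hP⟩ := exists_prim (kr_GG (β := β) z).diff
  obtain ⟨lL, lR, hl⟩ := (kr_GG z).lim hβ hP
  exact ⟨P, lL, lR, hP, hl, F_eq_lim hβ z hP hl⟩

/-- **the step contour** -/
theorem F_step {β : ℝ} (hβ : 0 < β) (z : ℂ) (X₁ X₂ y₁ y₀ y₂ : ℝ) (h1 : 0 < y₁) (h2 : y₂ < 0) :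
    (1 - I) * (Real.sqrt (Real.pi * β) : ℝ) * F (cexp (I * β)) z =
      (∫ X in Iic X₁, GG β z (X + y₁ * I)) + I * (∫ Y in y₁..y₀, GG β z (X₁ + Y * I)) +
      (∫ X in X₁..X₂, GG β z (X + y₀ * I)) + I * (∫ Y in y₀..y₂, GG β z (X₂ + Y * I)) +
      ∫ X in Ioi X₂, GG β z (X + y₂ * I) := by
  obtain ⟨P, lL, lR, hP, hl, hF⟩ := exists_F_lim hβ z
  rw [← hF]
  exact hl.step hβ (kr_GG z) hP h1 h2

end Sok
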