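import Mathlib
import Pool.Agent.Lib.MP_816dec_an.Basic
import Pool.Agent.Lib.MP_816dec_an.A0Prim
import Pool.Agent.Lib.MP_816dec_an.A0F

/-!
MP_816dec_an: the limits of the primitive in the valleys at `Im s → -∞` (`cos (Re s) < 0`) and the
splitting of Sokal's function. Here `z = r e^{i (t + β/2)}` and the contour variable is `s = x + t`.
-/

set_option autoImplicit false

open Complex Set Filter Topology MeasureTheory

namespace Sok

/-- the integrand in the variable `s = x + t`, `z = r e^{i (t + β/2)}` -/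
noncomputable def gs (β r t : ℝ) (s : ℂ) : ℂ :=
  cexp (-(I * (s - t) ^ 2 / (2 * β))) * cexp (r * cexp (I * s))

theorem gs_eq_GG (β r t : ℝ) (s : ℂ) :
    gs β r t s = GG β (r * cexp (I * (t + β / 2))) (s - t) := by
  have e1 : (r : ℂ) * cexp (I * (t + β / 2)) * cexp (-(I * β / 2)) * cexp (I * (s - t)) =
      r * cexp (I * s) := by
    rw [mul_assoc, mul_assoc, ← Complex.exp_add, ← Complex.exp_add]
    congr 2
    ring
  rw [gs, GG, e1]

theorem gs_diff (β r t : ℝ) : Differentiable ℂ (gs β r t) := by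
  unfold gs; fun_prop

theorem norm_gs (β r t S Y : ℝ) :
    ‖gs β r t (S + Y * I)‖ = Real.exp ((S - t) * Y / β + r * Real.cos S * Real.exp (-Y)) := by
  have e0 : ((S : ℂ) + Y * I) - t = ((S - t : ℝ) : ℂ) + Y * I := by push_cast; ring
  rw [gs_eq_GG, e0, norm_GG]
  congr 2
  have e1 : (r : ℂ) * cexp (I * (t + β / 2)) * cexp (-(I * β / 2)) * cexp (I * ((S - t : ℝ) : ℂ)) =
      r * cexp (S * I) := by
    rw [mul_assoc, mul_assoc, ← Complex.exp_add, ← Complex.exp_add]
    congr 2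
    push_cast
    ring
  rw [e1, Complex.re_ofReal_mul, Complex.exp_ofReal_mul_I_re]

theorem gs_shift (β r t : ℝ) (j : ℤ) (s : ℂ) :
    gs β r t (s + 2 * Real.pi * j) = gs β r (t - 2 * Real.pi * j) s := by
  have e1 : cexp (I * (s + 2 * Real.pi * j)) = cexp (I * s) := by
    have : I * (s + 2 * Real.pi * j) = I * s + j * (2 * Real.pi * I) := by ring
    rw [this, Complex.exp_periodic.int_mul j]
  rw [gs, gs, e1]
  congr 3
  push_cast
  ring

/-- the interval `[S₁, S₂]` lies in a valley -/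
def Vl (β r t S₁ S₂ : ℝ) : Prop := ∃ K ε : ℝ, 0 < ε ∧ ∀ S ∈ Icc S₁ S₂, ∀ Y : ℝ, Y ≤ 0 →
  (S - t) * Y / β + r * Real.cos S * Real.exp (-Y) ≤ K + ε * Y

theorem Vl.of_pos {β r t S₁ S₂ : ℝ} (hβ : 0 < β) (hr : 0 ≤ r) (ht : t < S₁)
    (h : ∀ S ∈ Icc S₁ S₂, Real.cos S ≤ 0) : Vl β r t S₁ S₂ := by
  refine ⟨0, (S₁ - t) / β, div_pos (by linarith) hβ, fun S hS Y hY => ?_⟩
  have h1 : (S - t) * Y / β ≤ (S₁ - t) / β * Y := by
    have h2 : (S₁ - t) / β ≤ (S - t) / β := by
      apply div_le_div_of_nonneg_right _ hβ.le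
      linarith [hS.1]
    have h3 := mul_le_mul_of_nonpos_left h2 hY
    have e1 : (S - t) * Y / β = Y * ((S - t) / β) := by ring
    rw [e1, mul_comm ((S₁ - t) / β)]
    exact h3
  have h2 : r * Real.cos S * Real.exp (-Y) ≤ 0 :=
    mul_nonpos_of_nonpos_of_nonneg (mul_nonpos_of_nonneg_of_nonpos hr (h S hS)) (Real.exp_pos _).le
  linarith

theorem Vl.of_neg {β r t S₁ S₂ : ℝ} (hr : 0 < r)
    (h : ∀ S ∈ Icc S₁ S₂, Real.cos S < 0) : Vl β r t S₁ S₂ := by
  rcases (Icc S₁ S₂).eq_empty_or_nonempty with he | hne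
  · refine ⟨0, 1, one_pos, fun S hS => ?_⟩
    rw [he] at hS
    exact absurd hS (notMem_empty S)
  obtain ⟨S₀, hS₀, hmax⟩ := isCompact_Icc.exists_isMaxOn hne Real.continuous_cos.continuousOn
  obtain ⟨m, hm⟩ : ∃ m : ℝ, m = -(r * Real.cos S₀) := ⟨_, rfl⟩
  have hm0 : 0 < m := by rw [hm]; have := h S₀ hS₀; nlinarith
  obtain ⟨M, hM⟩ : ∃ M : ℝ, M = |(S₁ - t) / β| + |(S₂ - t) / β| + 1 := ⟨_, rfl⟩
  have hM0 : 0 < M := by rw [hM]; positivity
  refine ⟨M ^ 2 / (2 * m), 1, one_pos, fun S hS Y hY => ?_⟩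
  have hcos : r * Real.cos S ≤ -m := by
    have := hmax hS
    simp only [mem_ofPred_eq] at this
    rw [hm, neg_neg]
    exact mul_le_mul_of_nonneg_left this hr.le
  have h1 : Y ^ 2 / 2 ≤ Real.exp (-Y) := by
    have := Real.quadratic_le_exp_of_nonneg (x := -Y) (by linarith)
    nlinarith
  have h2 : r * Real.cos S * Real.exp (-Y) ≤ -m * (Y ^ 2 / 2) := by
    have h3 : r * Real.cos S * Real.exp (-Y) ≤ -m * Real.exp (-Y) :=
      mul_le_mul_of_nonneg_right hcos (Real.exp_pos _).le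
    have h4 : -m * Real.exp (-Y) ≤ -m * (Y ^ 2 / 2) := by nlinarith
    linarith
  have h5 : |(S - t) / β| ≤ |(S₁ - t) / β| + |(S₂ - t) / β| := by
    rcases lt_trichotomy β 0 with hb | hb | hb
    · have a1 : (S - t) / β ≤ (S₁ - t) / β := (div_le_div_right_of_neg hb).2 (by linarith [hS.1])
      have a2 : (S₂ - t) / β ≤ (S - t) / β := (div_le_div_right_of_neg hb).2 (by linarith [hS.2])
      rw [abs_le]
      constructor
      · have := neg_abs_le ((S₂ - t) / β); have := abs_nonneg ((S₁ - t) / β); linarith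
      · have := le_abs_self ((S₁ - t) / β); have := abs_nonneg ((S₂ - t) / β); linarith
    · rw [hb]; simp
    · have a1 : (S₁ - t) / β ≤ (S - t) / β := div_le_div_of_nonneg_right (by linarith [hS.1]) hb.le
      have a2 : (S - t) / β ≤ (S₂ - t) / β := div_le_div_of_nonneg_right (by linarith [hS.2]) hb.le
      rw [abs_le]
      constructor
      · have := neg_abs_le ((S₁ - t) / β); have := abs_nonneg ((S₂ - t) / β); linarith
      · have := le_abs_self ((S₂ - t) / β); have := abs_nonneg ((S₁ - t) / β); linarith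
  have h6 : (S - t) * Y / β - Y ≤ M * (-Y) := by
    have e1 : (S - t) * Y / β - Y = ((S - t) / β - 1) * Y := by ring
    rw [e1]
    have := neg_abs_le ((S - t) / β)
    have h7 : -M ≤ (S - t) / β - 1 := by rw [hM]; linarith
    nlinarith
  have h8 : M * (-Y) - m * (Y ^ 2 / 2) ≤ M ^ 2 / (2 * m) := by
    rw [le_div_iff₀ (by positivity)]
    nlinarith [sq_nonneg (M + m * Y)]
  linarith

private theorem exp_Iic {ε : ℝ} (hε : 0 < ε) (K b : ℝ) :
    IntegrableOn (fun Y : ℝ => Real.exp (K + ε * Y)) (Iic b) := by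
  have h : IntegrableOn (fun Y : ℝ => Real.exp K * Real.exp (ε * Y)) (Iic b) :=
    (integrableOn_exp_mul_Iic hε b).const_mul (Real.exp K)
  refine h.congr_fun (fun Y _ => ?_) measurableSet_Iic
  simp only
  rw [← Real.exp_add]

theorem Vl.int {β r t S₁ S₂ : ℝ} (h : Vl β r t S₁ S₂) {S : ℝ} (hS : S ∈ Icc S₁ S₂) (b : ℝ) :
    IntegrableOn (fun Y : ℝ => gs β r t (S + Y * I)) (Iic b) := by
  have hc : Continuous fun Y : ℝ => gs β r t (S + Y * I) := by
    have := (gs_diff β r t).continuous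
    fun_prop
  have h0 : IntegrableOn (fun Y : ℝ => gs β r t (S + Y * I)) (Iic 0) := by
    obtain ⟨K, ε, hε, hb⟩ := h
    refine (exp_Iic hε K 0).mono' hc.aestronglyMeasurable ?_
    refine (ae_restrict_iff' measurableSet_Iic).2 (Filter.Eventually.of_forall fun Y hY => ?_)
    rw [norm_gs]
    exact Real.exp_le_exp.2 (hb S hS Y hY)
  have h1 : IntegrableOn (fun Y : ℝ => gs β r t (S + Y * I)) (Icc 0 b) :=
    hc.continuousOn.integrableOn_Icc
  refine (h0.union h1).mono_set fun Y hY => ?_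
  rcases le_or_gt Y 0 with h2 | h2
  · exact Or.inl h2
  · exact Or.inr ⟨h2.le, hY⟩

theorem Vl.lim {β r t S₁ S₂ : ℝ} (h : Vl β r t S₁ S₂) (h12 : S₁ ≤ S₂) {P : ℂ → ℂ}
    (hP : ∀ x, HasDerivAt P (gs β r t x) x) : ∃ V : ℂ, ∀ S ∈ Icc S₁ S₂,
      Tendsto (fun Y : ℝ => P (S + Y * I)) atBot (𝓝 V) := by
  have h1 : ∀ S ∈ Icc S₁ S₂, ∃ V : ℂ, Tendsto (fun Y : ℝ => P (S + Y * I)) atBot (𝓝 V) := by
    intro S hS
    refine ⟨P (S + (0 : ℝ) * I) - I * ∫ Y in Iic (0 : ℝ), gs β r t (S + Y * I), ?_⟩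
    have h2 := intervalIntegral_tendsto_integral_Iic (0 : ℝ) (h.int hS 0) tendsto_id
    have h3 := (tendsto_const_nhds (x := P (S + (0 : ℝ) * I))).sub (h2.const_mul I)
    refine h3.congr fun Y => ?_
    rw [id, prim_ver (gs_diff β r t) hP]
    ring
  obtain ⟨V, hV⟩ := h1 S₁ ⟨le_rfl, h12⟩
  refine ⟨V, fun S hS => ?_⟩
  obtain ⟨K, ε, hε, hb⟩ := h
  have h2 : Tendsto (fun Y : ℝ => P (S + Y * I) - P (S₁ + Y * I)) atBot (𝓝 0) := by
    have h3 : Tendsto (fun Y : ℝ => Real.exp (K + ε * Y) * |S - S₁|) atBot (𝓝 0) := by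
      have h4 : Tendsto (fun Y : ℝ => K + ε * Y) atBot atBot :=
        tendsto_atBot_add_const_left _ _ (tendsto_id.const_mul_atBot hε)
      have h5 := (Real.tendsto_exp_atBot.comp h4).mul_const |S - S₁|
      simpa using h5
    refine squeeze_zero_norm' ?_ h3
    filter_upwards [eventually_le_atBot (0 : ℝ)] with Y hY
    rw [← prim_hor (gs_diff β r t) hP]
    apply intervalIntegral.norm_integral_le_of_norm_le_const
    intro X hX
    rw [uIoc_of_le hS.1] at hX
    rw [norm_gs]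
    exact Real.exp_le_exp.2 (hb X ⟨hX.1.le, hX.2.trans hS.2⟩ Y hY)
  have h3 := h2.add hV
  simpa using h3

/-- all limits of the primitive `P` of `gs β r t` -/
structure Vals (β r t : ℝ) (P : ℂ → ℂ) (V : ℤ → ℂ) (lL lR : ℂ) : Prop where
  left : ∀ Y : ℝ, 0 < Y → Tendsto (fun X : ℝ => P (X + Y * I)) atBot (𝓝 lL)
  right : ∀ Y : ℝ, Y < 0 → Tendsto (fun X : ℝ => P (X + Y * I)) atTop (𝓝 lR)
  val : ∀ (j : ℤ) (S : ℝ), |S - (2 * j + 1) * Real.pi| ≤ Real.pi / 2 →
    (|S - (2 * j + 1) * Real.pi| < Real.pi / 2 ∨ t < S) →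
    Tendsto (fun Y : ℝ => P (S + Y * I)) atBot (𝓝 (V j))

theorem cos_val_nonpos {j : ℤ} {S : ℝ} (h : |S - (2 * j + 1) * Real.pi| ≤ Real.pi / 2) :
    Real.cos S ≤ 0 := by
  have e1 : S = (S - (2 * j + 1) * Real.pi) + Real.pi + j * (2 * Real.pi) := by ring
  rw [e1, Real.cos_add_int_mul_two_pi, Real.cos_add_pi]
  rw [abs_le] at h
  have := Real.cos_nonneg_of_neg_pi_div_two_le_of_le h.1 h.2
  linarith

theorem cos_val_neg {j : ℤ} {S : ℝ} (h : |S - (2 * j + 1) * Real.pi| < Real.pi / 2) :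
    Real.cos S < 0 := by
  have e1 : S = (S - (2 * j + 1) * Real.pi) + Real.pi + j * (2 * Real.pi) := by ring
  rw [e1, Real.cos_add_int_mul_two_pi, Real.cos_add_pi]
  rw [abs_lt] at h
  have := Real.cos_pos_of_mem_Ioo h
  linarith

theorem lim_shift {β r t : ℝ} (hβ : 0 < β) {P : ℂ → ℂ} (hP : ∀ x, HasDerivAt P (gs β r t x) x) :
    ∃ lL lR : ℂ, (∀ Y : ℝ, 0 < Y → Tendsto (fun X : ℝ => P (X + Y * I)) atBot (𝓝 lL)) ∧
      (∀ Y : ℝ, Y < 0 → Tendsto (fun X : ℝ => P (X + Y * I)) atTop (𝓝 lR)) ∧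
      lR - lL = (1 - I) * (Real.sqrt (Real.pi * β) : ℝ) *
        F (cexp (I * β)) (r * cexp (I * (t + β / 2))) := by
  obtain ⟨z, hz⟩ : ∃ z : ℂ, z = r * cexp (I * (t + β / 2)) := ⟨_, rfl⟩
  have hQ : ∀ x, HasDerivAt (fun x => P (x + t)) (GG β z x) x := by
    intro x
    have h1 : HasDerivAt (fun x : ℂ => x + t) 1 x := (hasDerivAt_id x).add_const _
    have h2 := HasDerivAt.comp x (hP (x + t)) h1
    rw [mul_one, gs_eq_GG, add_sub_cancel_right, ← hz] at h2
    exact h2
  obtain ⟨lL, lR, hl⟩ := (kr_GG z).lim hβ hQ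
  refine ⟨lL, lR, fun Y hY => ?_, fun Y hY => ?_, ?_⟩
  · have h1 : Tendsto (fun X : ℝ => X - t) atBot atBot := tendsto_atBot_add_const_right _ _ tendsto_id
    refine ((hl.left Y hY).comp h1).congr fun X => ?_
    simp only [Function.comp]
    congr 1
    push_cast
    ring
  · have h1 : Tendsto (fun X : ℝ => X - t) atTop atTop := tendsto_atTop_add_const_right _ _ tendsto_id
    refine ((hl.right Y hY).comp h1).congr fun X => ?_
    simp only [Function.comp]
    congr 1
    push_cast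
    ring
  · rw [← hz]
    exact F_eq_lim hβ z hQ hl

theorem exists_vals {β r t : ℝ} (hβ : 0 < β) (hr : 0 < r) {P : ℂ → ℂ}
    (hP : ∀ x, HasDerivAt P (gs β r t x) x) : ∃ (V : ℤ → ℂ) (lL lR : ℂ), Vals β r t P V lL lR ∧
      lR - lL = (1 - I) * (Real.sqrt (Real.pi * β) : ℝ) *
        F (cexp (I * β)) (r * cexp (I * (t + β / 2))) := by
  obtain ⟨lL, lR, hL, hR, hF⟩ := lim_shift hβ hP
  have hpi := Real.pi_pos
  have h1 : ∀ j : ℤ, ∃ v : ℂ, ∀ S : ℝ, |S - (2 * j + 1) * Real.pi| < Real.pi / 2 →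
      Tendsto (fun Y : ℝ => P (S + Y * I)) atBot (𝓝 v) := by
    intro j
    obtain ⟨c, hc⟩ : ∃ c : ℝ, c = (2 * j + 1) * Real.pi := ⟨_, rfl⟩
    have h2 : ∀ S, |S - c| < Real.pi / 2 → Vl β r t (min S c) (max S c) := by
      intro S hS
      refine Vl.of_neg hr fun x hx => ?_
      apply cos_val_neg (j := j)
      rw [← hc]
      rw [abs_lt] at hS ⊢
      rcases le_total S c with h | h
      · rw [min_eq_left h, max_eq_right h] at hx
        exact ⟨by linarith [hx.1], by linarith [hx.2]⟩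
      · rw [min_eq_right h, max_eq_left h] at hx
        exact ⟨by linarith [hx.1], by linarith [hx.2]⟩
    obtain ⟨v, hv⟩ := (h2 c (by simpa using by positivity)).lim (min_le_max) hP
    have hv' := hv c ⟨min_le_right _ _, le_max_right _ _⟩
    refine ⟨v, fun S hS => ?_⟩
    rw [← hc] at hS
    obtain ⟨v', hv''⟩ := (h2 S hS).lim (min_le_max) hP
    have e1 := tendsto_nhds_unique hv' (hv'' c ⟨min_le_right _ _, le_max_right _ _⟩)
    rw [e1]
    exact hv'' S ⟨min_le_left _ _, le_max_left _ _⟩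
  choose V hV using h1
  refine ⟨V, lL, lR, ⟨hL, hR, fun j S hS hS' => ?_⟩, hF⟩
  rcases lt_or_eq_of_le hS with h2 | h2
  · exact hV j S h2
  have ht : t < S := by
    rcases hS' with h3 | h3
    · exact absurd h2 h3.ne
    · exact h3
  obtain ⟨c, hc⟩ : ∃ c : ℝ, c = (2 * j + 1) * Real.pi := ⟨_, rfl⟩
  rw [← hc] at h2 hS
  -- a point of the open valley near `S`, to the right of `t`
  obtain ⟨S', hS1, hS2, hS3⟩ : ∃ S' : ℝ, t < S' ∧ |S' - c| < Real.pi / 2 ∧
      ∀ x ∈ Icc (min S' S) (max S' S), t < x ∧ |x - c| ≤ Real.pi / 2 := by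
    rcases (abs_eq (by positivity)).1 h2 with h3 | h3
    · -- right end
      refine ⟨max ((t + S) / 2) c, ?_, ?_, ?_⟩
      · exact lt_of_lt_of_le (by linarith) (le_max_left _ _)
      · rw [abs_lt]
        constructor
        · have := le_max_right ((t + S) / 2) c
          linarith
        · rw [sub_lt_iff_lt_add, max_lt_iff]
          constructor <;> linarith
      · intro x hx
        have h4 : max ((t + S) / 2) c ≤ S := max_le (by linarith) (by linarith)
        rw [min_eq_left h4, max_eq_right h4] at hx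
        have h5 := le_max_left ((t + S) / 2) c
        have h6 := le_max_right ((t + S) / 2) c
        refine ⟨by linarith [hx.1], ?_⟩
        rw [abs_le]
        exact ⟨by linarith [hx.1], by linarith [hx.2]⟩
    · -- left end
      refine ⟨c, by linarith, by simpa using by positivity, ?_⟩
      intro x hx
      have h4 : S ≤ c := by linarith
      rw [min_eq_right h4, max_eq_left h4] at hx
      refine ⟨by linarith [hx.1], ?_⟩
      rw [abs_le]
      exact ⟨by linarith [hx.1], by linarith [hx.2]⟩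
  have h4 : Vl β r t (min S' S) (max S' S) := by
    refine Vl.of_pos hβ hr.le (lt_min hS1 ht) fun x hx => ?_
    apply cos_val_nonpos (j := j)
    rw [← hc]
    exact (hS3 x hx).2
  obtain ⟨v, hv⟩ := h4.lim min_le_max hP
  have h5 := hV j S' (by rw [← hc]; exact hS2)
  have e1 := tendsto_nhds_unique h5 (hv S' ⟨min_le_left _ _, le_max_left _ _⟩)
  rw [e1]
  exact hv S ⟨min_le_right _ _, le_max_right _ _⟩

/-- vertical lines to the left of `t`, upwards -/
theorem lim_up {β r t : ℝ} (hβ : 0 < β) (hr : 0 ≤ r) {P : ℂ → ℂ} (hP : ∀ x, HasDerivAt P (gs β r t x) x)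
    {lL : ℂ} (hL : ∀ Y : ℝ, 0 < Y → Tendsto (fun X : ℝ => P (X + Y * I)) atBot (𝓝 lL)) {S : ℝ}
    (hS : S < t) : Tendsto (fun Y : ℝ => P (S + Y * I)) atTop (𝓝 lL) := by
  have h1 : ∀ Y : ℝ, 1 ≤ Y → ‖P (S + Y * I) - lL‖ ≤ Real.exp r * β * Real.exp (-((t - S) / β) * Y) := by
    intro Y hY
    have hY0 : 0 < Y := by linarith
    have h2 : Tendsto (fun X : ℝ => ‖P (S + Y * I) - P (X + Y * I)‖) atBot (𝓝 ‖P (S + Y * I) - lL‖) :=
      ((tendsto_const_nhds (x := P (S + Y * I))).sub (hL Y hY0)).norm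
    refine le_of_tendsto h2 ?_
    filter_upwards [eventually_le_atBot S] with X hX
    rw [← prim_hor (gs_diff β r t) hP]
    have h3 : ‖∫ x in X..S, gs β r t (x + Y * I)‖ ≤ ∫ x in X..S, Real.exp r * Real.exp ((x - t) * (Y / β)) := by
      apply intervalIntegral.norm_integral_le_of_norm_le hX
      · refine Filter.Eventually.of_forall fun x _ => ?_
        rw [norm_gs, ← Real.exp_add]
        apply Real.exp_le_exp.2
        have h4 : r * Real.cos x * Real.exp (-Y) ≤ r := by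
          have h5 : Real.exp (-Y) ≤ 1 := Real.exp_le_one_iff.2 (by linarith)
          have h6 : r * Real.cos x ≤ r := by nlinarith [Real.cos_le_one x]
          have h7 := Real.exp_pos (-Y)
          nlinarith
        have e1 : (x - t) * Y / β = (x - t) * (Y / β) := by ring
        linarith
      · apply Continuous.intervalIntegrable
        fun_prop
    refine h3.trans ?_
    rw [intervalIntegral.integral_const_mul]
    have h4 : ∫ x in X..S, Real.exp ((x - t) * (Y / β)) =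
        (β / Y) * (Real.exp ((S - t) * (Y / β)) - Real.exp ((X - t) * (Y / β))) := by
      have hc : Y / β ≠ 0 := (div_pos hY0 hβ).ne'
      have h5 : ∀ x ∈ uIcc X S, HasDerivAt (fun x : ℝ => (β / Y) * Real.exp ((x - t) * (Y / β)))
          (Real.exp ((x - t) * (Y / β))) x := by
        intro x _
        have h6 : HasDerivAt (fun x : ℝ => (x - t) * (Y / β)) (Y / β) x := by
          have := ((hasDerivAt_id x).sub_const t).mul_const (Y / β)
          simpa using this
        have h7 := h6.exp.const_mul (β / Y)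
        have e1 : β / Y * (Real.exp ((x - t) * (Y / β)) * (Y / β)) = Real.exp ((x - t) * (Y / β)) := by
          field_simp
        rw [e1] at h7
        exact h7
      rw [intervalIntegral.integral_eq_sub_of_hasDerivAt h5]
      · ring
      · apply Continuous.intervalIntegrable
        fun_prop
    rw [h4]
    have h8 : β / Y ≤ β := div_le_self hβ.le hY
    have h9 := Real.exp_pos ((X - t) * (Y / β))
    have h10 : Real.exp ((S - t) * (Y / β)) = Real.exp (-((t - S) / β) * Y) := by congr 1; ring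
    have h11 : 0 < β / Y := div_pos hβ hY0
    have h12 := Real.exp_pos (-((t - S) / β) * Y)
    have h13 := Real.exp_pos r
    have h14 : β / Y * (Real.exp ((S - t) * (Y / β)) - Real.exp ((X - t) * (Y / β))) ≤
        β * Real.exp (-((t - S) / β) * Y) := by
      rw [h10]
      nlinarith
    nlinarith
  have h2 : Tendsto (fun Y : ℝ => Real.exp r * β * Real.exp (-((t - S) / β) * Y)) atTop (𝓝 0) := by
    have hc : 0 < (t - S) / β := div_pos (by linarith) hβ
    have h3 : Tendsto (fun Y : ℝ => -((t - S) / β) * Y) atTop atBot :=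
      tendsto_id.const_mul_atTop_of_neg (by linarith)
    have h4 := (Real.tendsto_exp_atBot.comp h3).const_mul (Real.exp r * β)
    simpa using h4
  have h3 : Tendsto (fun Y : ℝ => P (S + Y * I) - lL) atTop (𝓝 0) := by
    refine squeeze_zero_norm' ?_ h2
    filter_upwards [eventually_ge_atTop (1 : ℝ)] with Y hY
    exact h1 Y hY
  have h4 := h3.add_const lL
  simpa using h4

/-- integrability on the upper half of a vertical line -/
theorem int_up {β r t S : ℝ} (hβ : 0 < β) (hr : 0 ≤ r) (hS : S < t) (b : ℝ) :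
    IntegrableOn (fun Y : ℝ => gs β r t (S + Y * I)) (Ioi b) := by
  have hc : Continuous fun Y : ℝ => gs β r t (S + Y * I) := by
    have := (gs_diff β r t).continuous
    fun_prop
  have h1 : IntegrableOn (fun Y : ℝ => Real.exp (r * Real.exp (-b)) * Real.exp (-((t - S) / β) * Y)) (Ioi b) :=
    (exp_neg_integrableOn_Ioi b (div_pos (by linarith) hβ)).const_mul _
  refine h1.mono' hc.aestronglyMeasurable ?_
  refine (ae_restrict_iff' measurableSet_Ioi).2 (Filter.Eventually.of_forall fun Y hY => ?_)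
  rw [norm_gs, ← Real.exp_add]
  apply Real.exp_le_exp.2
  have h2 : r * Real.cos S * Real.exp (-Y) ≤ r * Real.exp (-b) := by
    have h3 : Real.exp (-Y) ≤ Real.exp (-b) := Real.exp_le_exp.2 (by linarith [mem_Ioi.1 hY])
    have h4 : r * Real.cos S ≤ r := by nlinarith [Real.cos_le_one S]
    have h5 := Real.exp_pos (-Y)
    calc r * Real.cos S * Real.exp (-Y) ≤ r * Real.exp (-Y) := mul_le_mul_of_nonneg_right h4 h5.le
      _ ≤ r * Real.exp (-b) := mul_le_mul_of_nonneg_left h3 hr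
  have e1 : (S - t) * Y / β = -((t - S) / β) * Y := by ring
  linarith

/-- `S` lies in the valley number `j` -/
def InV (t : ℝ) (j : ℤ) (S : ℝ) : Prop :=
  |S - (2 * j + 1) * Real.pi| ≤ Real.pi / 2 ∧ (|S - (2 * j + 1) * Real.pi| < Real.pi / 2 ∨ t < S)

theorem inV_center (t : ℝ) (j : ℤ) : InV t j ((2 * j + 1) * Real.pi) := by
  have hpi := Real.pi_pos
  refine ⟨by simpa using by positivity, Or.inl (by simpa using by positivity)⟩

theorem InV.vl {β r t : ℝ} {j : ℤ} {S : ℝ} (hβ : 0 < β) (hr : 0 < r) (h : InV t j S) : Vl β r t S S := by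
  rcases h with ⟨h1, h2 | h2⟩
  · refine Vl.of_neg hr fun x hx => ?_
    have : x = S := le_antisymm hx.2 hx.1
    rw [this]
    exact cos_val_neg h2
  · refine Vl.of_pos hβ hr.le h2 fun x hx => ?_
    have : x = S := le_antisymm hx.2 hx.1
    rw [this]
    exact cos_val_nonpos h1

theorem InV.int {β r t : ℝ} {j : ℤ} {S : ℝ} (hβ : 0 < β) (hr : 0 < r) (h : InV t j S) (b : ℝ) :
    IntegrableOn (fun Y : ℝ => gs β r t (S + Y * I)) (Iic b) :=
  (h.vl hβ hr).int ⟨le_rfl, le_rfl⟩ b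

/-- the leg to the valley -/
theorem Vals.leg {β r t : ℝ} (hβ : 0 < β) (hr : 0 < r) {P : ℂ → ℂ} (hP : ∀ x, HasDerivAt P (gs β r t x) x)
    {V : ℤ → ℂ} {lL lR : ℂ} (h : Vals β r t P V lL lR) {j : ℤ} {S : ℝ} (hS : InV t j S) (b : ℝ) :
    I * ∫ Y in Iic b, gs β r t (S + Y * I) = P (S + b * I) - V j := by
  have h2 := (intervalIntegral_tendsto_integral_Iic b (hS.int hβ hr b) tendsto_id).const_mul I
  have h3 := (tendsto_const_nhds (x := P (S + b * I))).sub (h.val j S hS.1 hS.2)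
  refine tendsto_nhds_unique h2 (h3.congr fun Y => ?_)
  rw [id, prim_ver (gs_diff β r t) hP]

theorem Vals.legup {β r t : ℝ} (hβ : 0 < β) (hr : 0 ≤ r) {P : ℂ → ℂ} (hP : ∀ x, HasDerivAt P (gs β r t x) x)
    {V : ℤ → ℂ} {lL lR : ℂ} (h : Vals β r t P V lL lR) {S : ℝ} (hS : S < t) (b : ℝ) :
    I * ∫ Y in Ioi b, gs β r t (S + Y * I) = lL - P (S + b * I) := by
  have h2 := (intervalIntegral_tendsto_integral_Ioi b (int_up hβ hr hS b) tendsto_id).const_mul I
  have h3 := (lim_up hβ hr hP h.left hS).sub_const (P (S + b * I))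
  refine tendsto_nhds_unique h2 (h3.congr fun Y => ?_)
  rw [id, prim_ver (gs_diff β r t) hP]

/-- the constant in front of `F` -/
noncomputable def cF (β : ℝ) : ℂ := (1 - I) * (Real.sqrt (Real.pi * β) : ℝ)

theorem cF_ne {β : ℝ} (hβ : 0 < β) : cF β ≠ 0 := by
  unfold cF
  apply mul_ne_zero
  · intro h
    have := congrArg Complex.re h
    simp at this
  · have : 0 < Real.sqrt (Real.pi * β) := Real.sqrt_pos.2 (mul_pos Real.pi_pos hβ)
    exact_mod_cast this.ne'

theorem norm_cF (β : ℝ) : ‖cF β‖ = Real.sqrt (2 * Real.pi * β) := by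
  unfold cF
  rw [norm_mul, Complex.norm_real, Real.norm_of_nonneg (Real.sqrt_nonneg _)]
  have h1 : ‖(1 - I : ℂ)‖ = Real.sqrt 2 := by
    rw [Complex.norm_def, Complex.normSq_apply]
    norm_num
  rw [h1, ← Real.sqrt_mul (by norm_num)]
  congr 1
  ring

/-- the valley function: contour from the valley at `-π` to the valley at `π` -/
noncomputable def AA (β r t : ℝ) : ℂ := (cF β)⁻¹ *
  ((I * ∫ Y in Iic (0 : ℝ), gs β r t ((-Real.pi : ℝ) + Y * I)) + (∫ S in (-Real.pi)..Real.pi, gs β r t S) -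
    I * ∫ Y in Iic (0 : ℝ), gs β r t ((Real.pi : ℝ) + Y * I))

/-- the left function: contour from the left end to the valley at `π` -/
noncomputable def CC (β r t : ℝ) : ℂ := (cF β)⁻¹ *
  ((∫ X in Iic (0 : ℝ), gs β r t (X + (1 : ℝ) * I)) + I * (∫ Y in (1 : ℝ)..0, gs β r t ((0 : ℝ) + Y * I)) +
    (∫ S in (0 : ℝ)..Real.pi, gs β r t S) - I * ∫ Y in Iic (0 : ℝ), gs β r t ((Real.pi : ℝ) + Y * I))

/-- Sokal's function on the circle, `t = θ - β/2` -/
noncomputable def Ft (β r t : ℝ) : ℂ := F (cexp (I * β)) (r * cexp (I * (t + β / 2)))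

theorem gs_int_left {β r t : ℝ} (hβ : 0 < β) (hr : 0 ≤ r) {Y : ℝ} (hY : 0 < Y) (b : ℝ) :
    IntegrableOn (fun X : ℝ => gs β r t (X + Y * I)) (Iic b) := by
  have hc : Continuous fun X : ℝ => gs β r t (X + Y * I) := by
    have := (gs_diff β r t).continuous
    fun_prop
  have h1 : IntegrableOn (fun X : ℝ => Real.exp (-(t * Y / β) + r) * Real.exp (Y / β * X)) (Iic b) :=
    (integrableOn_exp_mul_Iic (div_pos hY hβ) b).const_mul _
  refine h1.mono' hc.aestronglyMeasurable ?_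
  refine Filter.Eventually.of_forall fun X => ?_
  rw [norm_gs, ← Real.exp_add]
  apply Real.exp_le_exp.2
  have h2 : r * Real.cos X * Real.exp (-Y) ≤ r := by
    have h3 : Real.exp (-Y) ≤ 1 := Real.exp_le_one_iff.2 (by linarith)
    have h4 : r * Real.cos X ≤ r := by nlinarith [Real.cos_le_one X]
    have h5 := Real.exp_pos (-Y)
    calc r * Real.cos X * Real.exp (-Y) ≤ r * Real.exp (-Y) := mul_le_mul_of_nonneg_right h4 h5.le
      _ ≤ r * 1 := mul_le_mul_of_nonneg_left h3 hr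
      _ = r := mul_one r
  have e1 : (X - t) * Y / β = Y / β * X - t * Y / β := by ring
  linarith

theorem gs_int_right {β r t : ℝ} (hβ : 0 < β) (hr : 0 ≤ r) {Y : ℝ} (hY : Y < 0) (b : ℝ) :
    IntegrableOn (fun X : ℝ => gs β r t (X + Y * I)) (Ioi b) := by
  have hc : Continuous fun X : ℝ => gs β r t (X + Y * I) := by
    have := (gs_diff β r t).continuous
    fun_prop
  have h1 : IntegrableOn (fun X : ℝ => Real.exp (-(t * Y / β) + r * Real.exp (-Y)) *
      Real.exp (-(-Y / β) * X)) (Ioi b) :=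
    (exp_neg_integrableOn_Ioi b (div_pos (by linarith) hβ)).const_mul _
  refine h1.mono' hc.aestronglyMeasurable ?_
  refine Filter.Eventually.of_forall fun X => ?_
  rw [norm_gs, ← Real.exp_add]
  apply Real.exp_le_exp.2
  have h2 : r * Real.cos X * Real.exp (-Y) ≤ r * Real.exp (-Y) := by
    have h4 : r * Real.cos X ≤ r := by nlinarith [Real.cos_le_one X]
    exact mul_le_mul_of_nonneg_right h4 (Real.exp_pos _).le
  have e1 : (X - t) * Y / β = -(-Y / β) * X - t * Y / β := by ring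
  linarith

theorem Vals.linel {β r t : ℝ} (hβ : 0 < β) (hr : 0 ≤ r) {P : ℂ → ℂ} (hP : ∀ x, HasDerivAt P (gs β r t x) x)
    {V : ℤ → ℂ} {lL lR : ℂ} (h : Vals β r t P V lL lR) {Y : ℝ} (hY : 0 < Y) (b : ℝ) :
    (∫ X in Iic b, gs β r t (X + Y * I)) = P (b + Y * I) - lL := by
  have h2 := intervalIntegral_tendsto_integral_Iic b (gs_int_left (t := t) hβ hr hY b) tendsto_id
  have h3 := (tendsto_const_nhds (x := P (b + Y * I))).sub (h.left Y hY)
  refine tendsto_nhds_unique h2 (h3.congr fun X => ?_)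
  rw [id, prim_hor (gs_diff β r t) hP]

theorem Vals.liner {β r t : ℝ} (hβ : 0 < β) (hr : 0 ≤ r) {P : ℂ → ℂ} (hP : ∀ x, HasDerivAt P (gs β r t x) x)
    {V : ℤ → ℂ} {lL lR : ℂ} (h : Vals β r t P V lL lR) {Y : ℝ} (hY : Y < 0) (b : ℝ) :
    (∫ X in Ioi b, gs β r t (X + Y * I)) = lR - P (b + Y * I) := by
  have h2 := intervalIntegral_tendsto_integral_Ioi b (gs_int_right (t := t) hβ hr hY b) tendsto_id
  have h3 := (h.right Y hY).sub_const (P (b + Y * I))
  refine tendsto_nhds_unique h2 (h3.congr fun X => ?_)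
  rw [id, prim_hor (gs_diff β r t) hP]

/-- shift of the primitive by `2πj` -/
theorem Vals.shift {β r t : ℝ} {P : ℂ → ℂ} {V : ℤ → ℂ} {lL lR : ℂ}
    (h : Vals β r t P V lL lR) (j : ℤ) :
    Vals β r (t - 2 * Real.pi * j) (fun s => P (s + 2 * Real.pi * j)) (fun k => V (k + j)) lL lR := by
  refine ⟨fun Y hY => ?_, fun Y hY => ?_, fun k S hS hS' => ?_⟩
  · have h1 : Tendsto (fun X : ℝ => X + 2 * Real.pi * j) atBot atBot :=
      tendsto_atBot_add_const_right _ _ tendsto_id
    refine ((h.left Y hY).comp h1).congr fun X => ?_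
    simp only [Function.comp]
    congr 1
    push_cast
    ring
  · have h1 : Tendsto (fun X : ℝ => X + 2 * Real.pi * j) atTop atTop :=
      tendsto_atTop_add_const_right _ _ tendsto_id
    refine ((h.right Y hY).comp h1).congr fun X => ?_
    simp only [Function.comp]
    congr 1
    push_cast
    ring
  · have e1 : S + 2 * Real.pi * j - (2 * ((k + j : ℤ) : ℝ) + 1) * Real.pi = S - (2 * k + 1) * Real.pi := by
      push_cast; ring
    have h1 := h.val (k + j) (S + 2 * Real.pi * j) (by rw [e1]; exact hS) (by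
      rw [e1]
      rcases hS' with h2 | h2
      · exact Or.inl h2
      · exact Or.inr (by linarith))
    refine h1.congr fun Y => ?_
    congr 1
    push_cast
    ring

theorem prim_shift {β r t : ℝ} {P : ℂ → ℂ} (hP : ∀ x, HasDerivAt P (gs β r t x) x) (j : ℤ) (x : ℂ) :
    HasDerivAt (fun s => P (s + 2 * Real.pi * j)) (gs β r (t - 2 * Real.pi * j) x) x := by
  have h1 : HasDerivAt (fun x : ℂ => x + 2 * Real.pi * j) 1 x := (hasDerivAt_id x).add_const _
  have h2 := HasDerivAt.comp x (hP (x + 2 * Real.pi * j)) h1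
  rw [mul_one, gs_shift] at h2
  exact h2

private theorem inV0 (t : ℝ) : InV t 0 Real.pi := by
  have := inV_center t 0
  simpa using this

private theorem inVm (t : ℝ) : InV t (-1) (-Real.pi) := by
  have := inV_center t (-1)
  have e1 : (2 * ((-1 : ℤ) : ℝ) + 1) * Real.pi = -Real.pi := by push_cast; ring
  rwa [e1] at this

theorem Vals.AA0 {β r t : ℝ} (hβ : 0 < β) (hr : 0 < r) {P : ℂ → ℂ} (hP : ∀ x, HasDerivAt P (gs β r t x) x)
    {V : ℤ → ℂ} {lL lR : ℂ} (h : Vals β r t P V lL lR) : V 0 - V (-1) = cF β * AA β r t := by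
  rw [AA, mul_inv_cancel_left₀ (cF_ne hβ), h.leg hβ hr hP (inV0 t), h.leg hβ hr hP (inVm t)]
  have h1 := prim_hor (gs_diff β r t) hP (-Real.pi) Real.pi 0
  simp only [Complex.ofReal_zero, zero_mul, add_zero] at h1 ⊢
  rw [h1]
  ring

theorem Vals.CC0 {β r t : ℝ} (hβ : 0 < β) (hr : 0 < r) {P : ℂ → ℂ} (hP : ∀ x, HasDerivAt P (gs β r t x) x)
    {V : ℤ → ℂ} {lL lR : ℂ} (h : Vals β r t P V lL lR) : V 0 - lL = cF β * CC β r t := by
  rw [CC, mul_inv_cancel_left₀ (cF_ne hβ), h.leg hβ hr hP (inV0 t), h.linel hβ hr.le hP one_pos,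
    prim_ver (gs_diff β r t) hP]
  have h1 := prim_hor (gs_diff β r t) hP 0 Real.pi 0
  simp only [Complex.ofReal_zero, zero_mul, add_zero] at h1 ⊢
  rw [h1]
  ring

theorem Vals.AAj {β r t : ℝ} (hβ : 0 < β) (hr : 0 < r) {P : ℂ → ℂ} (hP : ∀ x, HasDerivAt P (gs β r t x) x)
    {V : ℤ → ℂ} {lL lR : ℂ} (h : Vals β r t P V lL lR) (j : ℤ) :
    V j - V (j - 1) = cF β * AA β r (t - 2 * Real.pi * j) := by
  have h1 := (h.shift j).AA0 hβ hr (prim_shift hP j)
  rw [← h1]
  simp only [zero_add]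
  congr 2
  ring

theorem Vals.CCj {β r t : ℝ} (hβ : 0 < β) (hr : 0 < r) {P : ℂ → ℂ} (hP : ∀ x, HasDerivAt P (gs β r t x) x)
    {V : ℤ → ℂ} {lL lR : ℂ} (h : Vals β r t P V lL lR) (j : ℤ) :
    V j - lL = cF β * CC β r (t - 2 * Real.pi * j) := by
  have h1 := (h.shift j).CC0 hβ hr (prim_shift hP j)
  rw [← h1]
  simp only [zero_add]

/-- `C(w) = C(w + 2πi) + A(w)` -/
theorem CC_step {β r : ℝ} (hβ : 0 < β) (hr : 0 < r) (t : ℝ) :
    CC β r t = CC β r (t + 2 * Real.pi) + AA β r t := by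
  obtain ⟨P, hP⟩ := exists_prim (gs_diff β r t)
  obtain ⟨V, lL, lR, hV, -⟩ := exists_vals hβ hr hP
  have h1 := hV.CC0 hβ hr hP
  have h2 := hV.CCj hβ hr hP (-1)
  have h3 := hV.AA0 hβ hr hP
  have e1 : t - 2 * Real.pi * ((-1 : ℤ) : ℝ) = t + 2 * Real.pi := by push_cast; ring
  rw [e1] at h2
  have hc := cF_ne hβ
  apply mul_left_cancel₀ hc
  rw [mul_add, ← h1, ← h2, ← h3]
  ring

end Sok
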