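import Pool.Agent.Lib.MP_816dec_an.A0Val

/-!
MP_816dec_an, b = 1: the derivatives of `AA`, `CC` in `t` (the functional equation `f' = e^w f(w + iβ)`).
-/

set_option autoImplicit false

open Complex Set Filter Topology MeasureTheory

namespace Sok

theorem hasDerivAt_gs_t (β r t : ℝ) (s : ℂ) :
    HasDerivAt (fun t : ℝ => gs β r t s) (I * (s - t) / β * gs β r t s) t := by
  have h0 : HasDerivAt (fun t : ℝ => (s - (t : ℂ))) (-1) t := by
    have := (Complex.ofRealCLM.hasDerivAt (x := t)).const_sub s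
    simpa using this
  have h1 : HasDerivAt (fun t : ℝ => -(I * (s - (t : ℂ)) ^ 2 / (2 * β))) (I * (s - t) / β) t := by
    refine (((h0.pow 2).const_mul I).div_const (2 * (β : ℂ))).neg.congr_deriv ?_
    rcases eq_or_ne (β : ℂ) 0 with hb | hb
    · simp [hb]
    · field_simp
      push_cast
      ring
  have h2 := (h1.cexp).mul_const (cexp (r * cexp (I * s)))
  refine h2.congr_deriv ?_
  unfold gs
  ring

theorem hasDerivAt_gs_s (β r t : ℝ) (s : ℂ) :
    HasDerivAt (gs β r t) ((-(I * (s - t) / β) + I * (r * cexp (I * s))) * gs β r t s) s := by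
  have h0 : HasDerivAt (fun s : ℂ => (s - (t : ℂ))) 1 s := (hasDerivAt_id s).sub_const _
  have h1 : HasDerivAt (fun s : ℂ => -(I * (s - (t : ℂ)) ^ 2 / (2 * β))) (-(I * (s - t) / β)) s := by
    refine (((h0.pow 2).const_mul I).div_const (2 * (β : ℂ))).neg.congr_deriv ?_
    rcases eq_or_ne (β : ℂ) 0 with hb | hb
    · simp [hb]
    · field_simp
      push_cast
      ring
  have h2 : HasDerivAt (fun s : ℂ => (r : ℂ) * cexp (I * s)) (r * (cexp (I * s) * I)) s := by
    have := ((hasDerivAt_id s).const_mul I).cexp.const_mul (r : ℂ)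
    simpa using this
  have h3 := h1.cexp.mul h2.cexp
  refine h3.congr_deriv ?_
  unfold gs
  ring

theorem exp_mul_gs {β : ℝ} (hβ : β ≠ 0) (r t : ℝ) (s : ℂ) :
    cexp (I * s) * gs β r t s = cexp (I * (t + β / 2)) * gs β r (t + β) s := by
  have hb : (β : ℂ) ≠ 0 := by exact_mod_cast hβ
  unfold gs
  have e : I * s + -(I * (s - t) ^ 2 / (2 * β)) =
      I * (t + β / 2) + -(I * (s - ((t + β : ℝ) : ℂ)) ^ 2 / (2 * β)) := by
    push_cast
    field_simp
    ring
  rw [← mul_assoc, ← mul_assoc, ← Complex.exp_add (I * s), ← Complex.exp_add (I * (t + β / 2)), e]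

theorem gs_key {β : ℝ} (hβ : β ≠ 0) (r t : ℝ) (s : ℂ) :
    I * (s - t) / β * gs β r t s = -((-(I * (s - t) / β) + I * (r * cexp (I * s))) * gs β r t s) +
      I * (r * cexp (I * (t + β / 2))) * gs β r (t + β) s := by
  have h := exp_mul_gs hβ r t s
  linear_combination (I * r) * h

private theorem cont_gs2 (β r : ℝ) : Continuous (fun p : ℝ × ℂ => gs β r p.1 p.2) := by
  unfold gs
  fun_prop

private theorem piece {β r t : ℝ} {μ : Measure ℝ} {p d : ℂ}
    (hint : Integrable (fun x : ℝ => gs β r t (p + x * d)) μ)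
    {B : ℝ → ℝ} (hB : Integrable B μ)
    (hb : ∀ᵐ x : ℝ ∂μ, ∀ t' ∈ Metric.ball t 1, ‖I * ((p + x * d) - t') / β * gs β r t' (p + x * d)‖ ≤ B x) :
    Integrable (fun x : ℝ => I * ((p + x * d) - t) / β * gs β r t (p + x * d)) μ ∧
      HasDerivAt (fun t : ℝ => ∫ x : ℝ, gs β r t (p + x * d) ∂μ)
        (∫ x : ℝ, I * ((p + x * d) - t) / β * gs β r t (p + x * d) ∂μ) t := by
  have hc : ∀ t' : ℝ, Continuous (fun x : ℝ => gs β r t' (p + x * d)) := by
    intro t'
    have := (gs_diff β r t').continuous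
    fun_prop
  refine hasDerivAt_integral_of_dominated_loc_of_deriv_le
    (F := fun (t' : ℝ) (x : ℝ) => gs β r t' (p + x * d))
    (F' := fun (t' : ℝ) (x : ℝ) => I * ((p + x * d) - t') / β * gs β r t' (p + x * d))
    (Metric.ball_mem_nhds t one_pos) ?_ hint ?_ hb hB ?_
  · exact Filter.Eventually.of_forall fun t' => (hc t').aestronglyMeasurable
  · have h1 : Continuous (fun x : ℝ => I * ((p + x * d) - t) / β * gs β r t (p + x * d)) := by
      have := hc t
      fun_prop
    exact h1.aestronglyMeasurable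
  · exact Filter.Eventually.of_forall fun x t' _ => hasDerivAt_gs_t β r t' _

/-- a piece of the contour: derivative in `t` = boundary terms + shifted piece -/
private theorem piece2 {β r t : ℝ} (hβ : β ≠ 0) {μ : Measure ℝ} {p d Δ : ℂ}
    (hint : Integrable (fun x : ℝ => gs β r t (p + x * d)) μ)
    (hint2 : Integrable (fun x : ℝ => gs β r (t + β) (p + x * d)) μ)
    {B : ℝ → ℝ} (hB : Integrable B μ)
    (hb : ∀ᵐ x : ℝ ∂μ, ∀ t' ∈ Metric.ball t 1, ‖I * ((p + x * d) - t') / β * gs β r t' (p + x * d)‖ ≤ B x)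
    (hΔ : Integrable (fun x : ℝ => ((-(I * ((p + x * d) - t) / β) + I * (r * cexp (I * (p + x * d)))) * gs β r t (p + x * d)) * d) μ →
      ∫ x : ℝ, ((-(I * ((p + x * d) - t) / β) + I * (r * cexp (I * (p + x * d)))) * gs β r t (p + x * d)) * d ∂μ = Δ) :
    HasDerivAt (fun t : ℝ => d * ∫ x : ℝ, gs β r t (p + x * d) ∂μ)
      (-Δ + I * (r * cexp (I * (t + β / 2))) * (d * ∫ x : ℝ, gs β r (t + β) (p + x * d) ∂μ)) t := by
  obtain ⟨hi, hd⟩ := piece hint hB hb
  refine (hd.const_mul d).congr_deriv ?_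
  have e1 : ∀ x : ℝ, ((-(I * ((p + x * d) - t) / β) + I * (r * cexp (I * (p + x * d)))) * gs β r t (p + x * d)) * d =
      -(I * ((p + x * d) - t) / β * gs β r t (p + x * d) * d) +
        I * (r * cexp (I * (t + β / 2))) * d * gs β r (t + β) (p + x * d) := by
    intro x
    have := gs_key hβ r t (p + x * d)
    linear_combination d * this
  have i1 : Integrable (fun x : ℝ => -(I * ((p + x * d) - t) / β * gs β r t (p + x * d) * d)) μ :=
    (hi.mul_const d).neg
  have i2 : Integrable (fun x : ℝ => I * (r * cexp (I * (t + β / 2))) * d * gs β r (t + β) (p + x * d)) μ :=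
    hint2.const_mul _
  have hi2 : Integrable (fun x : ℝ => ((-(I * ((p + x * d) - t) / β) + I * (r * cexp (I * (p + x * d)))) *
      gs β r t (p + x * d)) * d) μ := by
    simp only [e1]
    exact i1.add i2
  have h := hΔ hi2
  simp only [e1] at h
  rw [integral_add i1 i2, integral_neg, integral_mul_const, integral_const_mul] at h
  rw [← h]
  ring

/-- legs -/
private theorem leg_deriv {β r t S : ℝ} (hβ : 0 < β) (hr : 0 < r) (hS : Real.cos S < 0) :
    HasDerivAt (fun t : ℝ => I * ∫ Y in Iic (0 : ℝ), gs β r t (S + Y * I))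
      (-gs β r t (S + (0 : ℝ) * I) + I * (r * cexp (I * (t + β / 2))) *
        (I * ∫ Y in Iic (0 : ℝ), gs β r (t + β) (S + Y * I))) t := by
  have hvl : ∀ t' : ℝ, Vl β r t' S S := by
    intro t'
    refine Vl.of_neg hr fun x hx => ?_
    have : x = S := le_antisymm hx.2 hx.1
    rw [this]
    exact hS
  have hint : ∀ t' : ℝ, IntegrableOn (fun Y : ℝ => gs β r t' (S + Y * I)) (Iic 0) :=
    fun t' => (hvl t').int ⟨le_rfl, le_rfl⟩ 0
  obtain ⟨m, hm⟩ : ∃ m : ℝ, m = -(r * Real.cos S) := ⟨_, rfl⟩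
  have hm0 : 0 < m := by rw [hm]; have := mul_neg_of_pos_of_neg hr hS; linarith
  obtain ⟨M, hM⟩ : ∃ M : ℝ, M = (|S| + |t| + 1) / β := ⟨_, rfl⟩
  have hM0 : 0 < M := by rw [hM]; positivity
  obtain ⟨K, hK⟩ : ∃ K : ℝ, K = (M + 2) ^ 2 / (2 * m) := ⟨_, rfl⟩
  -- the bound
  have hbd : ∀ Y : ℝ, Y ≤ 0 → ∀ t' ∈ Metric.ball t 1,
      ‖I * (((S : ℂ) + Y * I) - t') / β * gs β r t' (S + Y * I)‖ ≤ (M + 1 / β) * Real.exp K * Real.exp Y := by
    intro Y hY t' ht'
    rw [Metric.mem_ball, Real.dist_eq] at ht'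
    obtain ⟨y, hy⟩ : ∃ y : ℝ, y = -Y := ⟨_, rfl⟩
    have hy0 : 0 ≤ y := by rw [hy]; linarith
    have ht1 : |t'| ≤ |t| + 1 := by
      have := abs_sub_abs_le_abs_sub t' t
      linarith
    have h1 : ‖I * (((S : ℂ) + Y * I) - t') / β‖ ≤ M + y / β := by
      rw [norm_div, norm_mul, Complex.norm_I, one_mul, Complex.norm_real, Real.norm_of_nonneg hβ.le, hM, ← add_div]
      apply div_le_div_of_nonneg_right _ hβ.le
      have e1 : ((S : ℂ) + Y * I) - t' = ((S - t' : ℝ) : ℂ) + ((Y : ℝ) : ℂ) * I := by push_cast; ring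
      rw [e1]
      refine (norm_add_le _ _).trans ?_
      rw [norm_mul, Complex.norm_I, mul_one, Complex.norm_real, Complex.norm_real, Real.norm_eq_abs,
        Real.norm_eq_abs, abs_of_nonpos hY, ← hy]
      have := abs_sub S t'
      linarith
    have h2 : ‖gs β r t' (S + Y * I)‖ ≤ Real.exp (M * y - m * Real.exp y) := by
      rw [norm_gs]
      apply Real.exp_le_exp.2
      have h3 : (S - t') * Y / β ≤ M * y := by
        have e1 : (S - t') * Y / β = (-(S - t')) * y / β := by rw [hy]; ring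
        rw [e1, hM, div_mul_eq_mul_div]
        apply div_le_div_of_nonneg_right _ hβ.le
        apply mul_le_mul_of_nonneg_right _ hy0
        have := neg_abs_le S
        have := le_abs_self t'
        linarith
      have h4 : r * Real.cos S * Real.exp (-Y) = -(m * Real.exp y) := by rw [hm, hy]; ring
      linarith
    have h5 : M + y / β ≤ (M + 1 / β) * Real.exp y := by
      have h6 : 1 ≤ Real.exp y := Real.one_le_exp hy0
      have h7 : y ≤ Real.exp y := by have := Real.add_one_le_exp y; linarith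
      have h8 : y / β ≤ 1 / β * Real.exp y := by
        rw [one_div, inv_mul_eq_div]
        exact div_le_div_of_nonneg_right h7 hβ.le
      have h9 : M ≤ M * Real.exp y := le_mul_of_one_le_right hM0.le h6
      rw [add_mul]
      linarith
    have h10 : (M + 1) * y - m * Real.exp y ≤ K - y := by
      have h11 : y ^ 2 / 2 ≤ Real.exp y := by
        have := Real.quadratic_le_exp_of_nonneg hy0
        linarith
      have h12 : m * (y ^ 2 / 2) ≤ m * Real.exp y := by gcongr
      have h13 : (M + 2) * y - m * (y ^ 2 / 2) ≤ K := by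
        rw [hK, le_div_iff₀ (by positivity)]
        nlinarith [sq_nonneg (M + 2 - m * y)]
      linarith
    rw [norm_mul]
    calc ‖I * (((S : ℂ) + Y * I) - t') / β‖ * ‖gs β r t' (S + Y * I)‖
        ≤ ((M + 1 / β) * Real.exp y) * Real.exp (M * y - m * Real.exp y) :=
          mul_le_mul (h1.trans h5) h2 (norm_nonneg _) (by positivity)
      _ = (M + 1 / β) * Real.exp ((M + 1) * y - m * Real.exp y) := by
          rw [mul_assoc, ← Real.exp_add]; congr 2; ring
      _ ≤ (M + 1 / β) * Real.exp (K - y) := by gcongr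
      _ = (M + 1 / β) * Real.exp K * Real.exp Y := by
          rw [mul_assoc, ← Real.exp_add]; congr 2; rw [hy]; ring
  refine piece2 hβ.ne' (μ := volume.restrict (Iic (0:ℝ))) (p := S) (d := I) (hint t) (hint (t + β))
    (B := fun Y => (M + 1 / β) * Real.exp K * Real.exp Y) ?_ ?_ ?_
  · exact (integrableOn_exp_Iic 0).const_mul _
  · refine (ae_restrict_iff' measurableSet_Iic).2 (Filter.Eventually.of_forall fun Y hY => hbd Y hY)
  · intro hi
    have hder : ∀ Y ∈ Iic (0:ℝ), HasDerivAt (fun Y : ℝ => gs β r t (S + Y * I))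
        (((-(I * (((S:ℂ) + Y * I) - t) / β) + I * (r * cexp (I * (S + Y * I)))) * gs β r t (S + Y * I)) * I) Y := by
      intro Y _
      have h1 : HasDerivAt (fun Y : ℝ => (S : ℂ) + Y * I) I Y := by
        have := ((Complex.ofRealCLM.hasDerivAt (x := Y)).mul_const I).const_add (S : ℂ)
        simpa using this
      exact (hasDerivAt_gs_s β r t _).comp Y h1
    have htend : Tendsto (fun Y : ℝ => gs β r t (S + Y * I)) atBot (𝓝 0) := by
      obtain ⟨K', ε, hε, hb⟩ := hvl t
      have h3 : Tendsto (fun Y : ℝ => Real.exp (K' + ε * Y)) atBot (𝓝 0) := by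
        have h4 : Tendsto (fun Y : ℝ => K' + ε * Y) atBot atBot :=
          tendsto_atBot_add_const_left _ _ (tendsto_id.const_mul_atBot hε)
        exact Real.tendsto_exp_atBot.comp h4
      refine squeeze_zero_norm' ?_ h3
      filter_upwards [eventually_le_atBot (0 : ℝ)] with Y hY
      rw [norm_gs]
      exact Real.exp_le_exp.2 (hb S ⟨le_rfl, le_rfl⟩ Y hY)
    have := integral_Iic_of_hasDerivAt_of_tendsto' hder hi htend
    rw [this, sub_zero]

/-- the left horizontal line at height 1 -/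
private theorem line_deriv {β r t : ℝ} (hβ : 0 < β) (hr : 0 < r) :
    HasDerivAt (fun t : ℝ => ∫ X in Iic (0 : ℝ), gs β r t (X + (1 : ℝ) * I))
      (-gs β r t ((0 : ℝ) + (1 : ℝ) * I) + I * (r * cexp (I * (t + β / 2))) *
        (∫ X in Iic (0 : ℝ), gs β r (t + β) (X + (1 : ℝ) * I))) t := by
  have hint : ∀ t' : ℝ, IntegrableOn (fun X : ℝ => gs β r t' (X + (1 : ℝ) * I)) (Iic 0) :=
    fun t' => gs_int_left hβ hr.le one_pos 0
  have ecomm : ∀ X : ℝ, (X : ℂ) + (1 : ℝ) * I = I + X * 1 := by intro X; push_cast; ring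
  obtain ⟨c, hc⟩ : ∃ c : ℝ, c = |t| + 2 := ⟨_, rfl⟩
  have hc0 : 0 < c := by rw [hc]; positivity
  have hbd : ∀ X : ℝ, X ≤ 0 → ∀ t' ∈ Metric.ball t 1,
      ‖I * ((I + (X : ℂ) * 1) - t') / β * gs β r t' (I + X * 1)‖ ≤
        (2 + c / β) * Real.exp ((|t| + 1) / β + r) * Real.exp (1 / (2 * β) * X) := by
    intro X hX t' ht'
    rw [Metric.mem_ball, Real.dist_eq] at ht'
    have ht1 : |t'| ≤ |t| + 1 := by
      have := abs_sub_abs_le_abs_sub t' t
      linarith
    have h1 : ‖I * ((I + (X : ℂ) * 1) - t') / β‖ ≤ (-X + c) / β := by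
      rw [norm_div, norm_mul, Complex.norm_I, one_mul, Complex.norm_real, Real.norm_of_nonneg hβ.le]
      apply div_le_div_of_nonneg_right _ hβ.le
      have e1 : (I + (X : ℂ) * 1) - t' = I + ((X - t' : ℝ) : ℂ) := by push_cast; ring
      rw [e1]
      refine (norm_add_le _ _).trans ?_
      rw [Complex.norm_I, Complex.norm_real, Real.norm_eq_abs]
      have h2 := abs_sub X t'
      rw [abs_of_nonpos hX] at h2
      rw [hc]
      linarith
    have h2 : ‖gs β r t' (I + X * 1)‖ ≤ Real.exp ((|t| + 1) / β + r) * Real.exp (1 / β * X) := by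
      rw [← ecomm, norm_gs, ← Real.exp_add]
      apply Real.exp_le_exp.2
      have h3 : r * Real.cos X * Real.exp (-1) ≤ r := by
        have h4 : Real.exp (-1) ≤ 1 := Real.exp_le_one_iff.2 (by norm_num)
        have h5 : r * Real.cos X ≤ r := by nlinarith [Real.cos_le_one X]
        calc r * Real.cos X * Real.exp (-1) ≤ r * Real.exp (-1) := by gcongr
          _ ≤ r * 1 := by gcongr
          _ = r := mul_one r
      have h6 : (X - t') * 1 / β ≤ (|t| + 1) / β + 1 / β * X := by
        have e2 : (|t| + 1) / β + 1 / β * X = (X + (|t| + 1)) / β := by ring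
        rw [e2]
        apply div_le_div_of_nonneg_right _ hβ.le
        have := neg_abs_le t'
        linarith
      linarith
    have h7 : (-X + c) / β ≤ (2 + c / β) * Real.exp (-(1 / (2 * β) * X)) := by
      obtain ⟨y, hy⟩ : ∃ y : ℝ, y = -(1 / (2 * β) * X) := ⟨_, rfl⟩
      have hy0 : 0 ≤ y := by
        rw [hy]
        have : 1 / (2 * β) * X ≤ 0 := mul_nonpos_of_nonneg_of_nonpos (by positivity) hX
        linarith
      have e3 : (-X + c) / β = 2 * y + c / β := by rw [hy]; field_simp
      rw [e3, ← hy]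
      have h8 : y ≤ Real.exp y := by have := Real.add_one_le_exp y; linarith
      have h9 : 1 ≤ Real.exp y := Real.one_le_exp hy0
      have h10 : c / β ≤ c / β * Real.exp y := le_mul_of_one_le_right (by positivity) h9
      rw [add_mul]
      linarith
    rw [norm_mul]
    calc ‖I * ((I + (X : ℂ) * 1) - t') / β‖ * ‖gs β r t' (I + X * 1)‖
        ≤ ((2 + c / β) * Real.exp (-(1 / (2 * β) * X))) * (Real.exp ((|t| + 1) / β + r) * Real.exp (1 / β * X)) :=
          mul_le_mul (h1.trans h7) h2 (norm_nonneg _) (by positivity)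
      _ = (2 + c / β) * Real.exp ((|t| + 1) / β + r) * (Real.exp (-(1 / (2 * β) * X)) * Real.exp (1 / β * X)) := by ring
      _ = (2 + c / β) * Real.exp ((|t| + 1) / β + r) * Real.exp (1 / (2 * β) * X) := by
          rw [← Real.exp_add]; congr 2; ring
  have hmain := piece2 (t := t) (Δ := gs β r t (I + (0:ℝ) * 1)) hβ.ne' (μ := volume.restrict (Iic (0:ℝ))) (p := I) (d := 1)
    (by have := hint t; simp only [ecomm] at this; exact this)
    (by have := hint (t + β); simp only [ecomm] at this; exact this)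
    (B := fun X => (2 + c / β) * Real.exp ((|t| + 1) / β + r) * Real.exp (1 / (2 * β) * X)) ?_ ?_ ?_
  · simp only [one_mul] at hmain
    simp only [ecomm]
    exact hmain
  · exact (integrableOn_exp_mul_Iic (by positivity) 0).const_mul _
  · refine (ae_restrict_iff' measurableSet_Iic).2 (Filter.Eventually.of_forall fun X hX => hbd X hX)
  · intro hi
    have hder : ∀ X ∈ Iic (0:ℝ), HasDerivAt (fun X : ℝ => gs β r t (I + X * 1))
        (((-(I * ((I + (X:ℂ) * 1) - t) / β) + I * (r * cexp (I * (I + X * 1)))) * gs β r t (I + X * 1)) * 1) X := by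
      intro X _
      have h1 : HasDerivAt (fun X : ℝ => I + (X : ℂ) * 1) 1 X := by
        have := ((Complex.ofRealCLM.hasDerivAt (x := X)).mul_const 1).const_add I
        simpa using this
      exact (hasDerivAt_gs_s β r t _).comp X h1
    have htend : Tendsto (fun X : ℝ => gs β r t (I + X * 1)) atBot (𝓝 0) := by
      have h3 : Tendsto (fun X : ℝ => Real.exp ((-t / β + r) + 1 / β * X)) atBot (𝓝 0) := by
        have h4 : Tendsto (fun X : ℝ => (-t / β + r) + 1 / β * X) atBot atBot :=
          tendsto_atBot_add_const_left _ _ (tendsto_id.const_mul_atBot (by positivity))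
        exact Real.tendsto_exp_atBot.comp h4
      refine squeeze_zero_norm' ?_ h3
      refine Filter.Eventually.of_forall fun X => ?_
      rw [← ecomm, norm_gs]
      apply Real.exp_le_exp.2
      have h3 : r * Real.cos X * Real.exp (-1) ≤ r := by
        have h4 : Real.exp (-1) ≤ 1 := Real.exp_le_one_iff.2 (by norm_num)
        have h5 : r * Real.cos X ≤ r := by nlinarith [Real.cos_le_one X]
        calc r * Real.cos X * Real.exp (-1) ≤ r * Real.exp (-1) := by gcongr
          _ ≤ r * 1 := by gcongr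
          _ = r := mul_one r
      have e2 : (X - t) * 1 / β = -t / β + 1 / β * X := by ring
      linarith
    have := integral_Iic_of_hasDerivAt_of_tendsto' hder hi htend
    rw [this, sub_zero]

/-- finite segments -/
private theorem seg_deriv {β r t a b : ℝ} (hβ : β ≠ 0) (hab : a ≤ b) (p d : ℂ) :
    HasDerivAt (fun t : ℝ => d * ∫ x in a..b, gs β r t (p + x * d))
      (-(gs β r t (p + b * d) - gs β r t (p + a * d)) + I * (r * cexp (I * (t + β / 2))) *
        (d * ∫ x in a..b, gs β r (t + β) (p + x * d))) t := by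
  have hc : ∀ t' : ℝ, Continuous (fun x : ℝ => gs β r t' (p + x * d)) := by
    intro t'
    have := (gs_diff β r t').continuous
    fun_prop
  have hint : ∀ t' : ℝ, IntegrableOn (fun x : ℝ => gs β r t' (p + x * d)) (Ioc a b) :=
    fun t' => ((hc t').continuousOn.integrableOn_Icc (a := a) (b := b)).mono_set Ioc_subset_Icc_self
  have hcont : Continuous (fun q : ℝ × ℝ => I * ((p + q.1 * d) - q.2) / β * gs β r q.2 (p + q.1 * d)) := by
    have h1 := cont_gs2 β r
    have h2 : Continuous (fun q : ℝ × ℝ => (q.2, p + (q.1 : ℂ) * d)) := by fun_prop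
    have h3 := h1.comp h2
    have h4 : Continuous (fun q : ℝ × ℝ => I * ((p + q.1 * d) - q.2) / β) := by fun_prop
    exact h4.mul h3
  obtain ⟨C, hC⟩ := ((isCompact_Icc (a := a) (b := b)).prod (isCompact_closedBall t 1)).exists_bound_of_continuousOn
    hcont.continuousOn
  simp only [intervalIntegral.integral_of_le hab]
  refine piece2 hβ (μ := volume.restrict (Ioc a b)) (hint t) (hint (t + β)) (B := fun _ => C) ?_ ?_ ?_
  · exact integrable_const C
  · refine (ae_restrict_iff' measurableSet_Ioc).2 (Filter.Eventually.of_forall fun x hx t' ht' => ?_)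
    exact hC (x, t') ⟨Ioc_subset_Icc_self hx, Metric.ball_subset_closedBall ht'⟩
  · intro hi
    have hder : ∀ x ∈ uIcc a b, HasDerivAt (fun x : ℝ => gs β r t (p + x * d))
        (((-(I * ((p + (x:ℂ) * d) - t) / β) + I * (r * cexp (I * (p + x * d)))) * gs β r t (p + x * d)) * d) x := by
      intro x _
      have h1 : HasDerivAt (fun x : ℝ => p + (x : ℂ) * d) d x := by
        have := ((Complex.ofRealCLM.hasDerivAt (x := x)).mul_const d).const_add p
        simpa using this
      exact (hasDerivAt_gs_s β r t _).comp x h1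
    rw [← intervalIntegral.integral_of_le hab]
    apply intervalIntegral.integral_eq_sub_of_hasDerivAt hder
    rw [intervalIntegrable_iff_integrableOn_Ioc_of_le hab]
    exact hi

/-- **the derivative of the valley function** -/
theorem hasDerivAt_AA {β r : ℝ} (hβ : 0 < β) (hr : 0 < r) (t : ℝ) :
    HasDerivAt (AA β r) (I * (r * cexp (I * (t + β / 2))) * AA β r (t + β)) t := by
  have hpi := Real.pi_pos
  have h1 := leg_deriv (t := t) (S := -Real.pi) hβ hr (by rw [Real.cos_neg, Real.cos_pi]; norm_num)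
  have h2 := seg_deriv (r := r) (t := t) (a := -Real.pi) (b := Real.pi) hβ.ne' (by linarith) 0 1
  have h3 := leg_deriv (t := t) (S := Real.pi) hβ hr (by rw [Real.cos_pi]; norm_num)
  have h4 := ((h1.add h2).sub h3).const_mul (cF β)⁻¹
  simp only [zero_add, mul_one, one_mul] at h4
  refine h4.congr_deriv ?_
  unfold AA
  simp only [Complex.ofReal_zero, zero_mul, add_zero]
  push_cast
  ring

/-- **the derivative of the left function** -/
theorem hasDerivAt_CC {β r : ℝ} (hβ : 0 < β) (hr : 0 < r) (t : ℝ) :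
    HasDerivAt (CC β r) (I * (r * cexp (I * (t + β / 2))) * CC β r (t + β)) t := by
  have hpi := Real.pi_pos
  have h1 := line_deriv (t := t) hβ hr
  have h2 := seg_deriv (r := r) (t := t) (a := 0) (b := 1) hβ.ne' zero_le_one 0 I
  have h3 := seg_deriv (r := r) (t := t) (a := 0) (b := Real.pi) hβ.ne' hpi.le 0 1
  have h4 := leg_deriv (t := t) (S := Real.pi) hβ hr (by rw [Real.cos_pi]; norm_num)
  have h5 := (((h1.sub h2).add h3).sub h4).const_mul (cF β)⁻¹
  simp only [zero_add, mul_one, one_mul] at h5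
  have hCC : ∀ t : ℝ, CC β r t = (cF β)⁻¹ *
      ((∫ X in Iic (0 : ℝ), gs β r t (X + (1 : ℝ) * I)) - I * (∫ Y in (0 : ℝ)..1, gs β r t (Y * I)) +
        (∫ S in (0 : ℝ)..Real.pi, gs β r t S) - I * ∫ Y in Iic (0 : ℝ), gs β r t ((Real.pi : ℝ) + Y * I)) := by
    intro t
    unfold CC
    rw [intervalIntegral.integral_symm]
    simp only [Complex.ofReal_zero, zero_add]
    ring
  have e : CC β r = fun t : ℝ => (cF β)⁻¹ *
      ((∫ X in Iic (0 : ℝ), gs β r t (X + (1 : ℝ) * I)) - I * (∫ Y in (0 : ℝ)..1, gs β r t (Y * I)) +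
        (∫ S in (0 : ℝ)..Real.pi, gs β r t S) - I * ∫ Y in Iic (0 : ℝ), gs β r t ((Real.pi : ℝ) + Y * I)) := by
    funext t; exact hCC t
  rw [hCC (t + β), e]
  refine h5.congr_deriv ?_
  simp only [Complex.ofReal_zero, zero_mul, add_zero, Complex.ofReal_one, one_mul, zero_add]
  ring

/-- the derivative of `Ft` -/
theorem hasDerivAt_Ft (β r t : ℝ) :
    HasDerivAt (Ft β r) (I * (r * cexp (I * (t + β / 2))) * Ft β r (t + β)) t := by
  have hq : ‖cexp (I * β)‖ ≤ 1 := by rw [mul_comm, Complex.norm_exp_ofReal_mul_I]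
  have h1 : HasDerivAt (fun t : ℝ => (r : ℂ) * cexp (I * (t + β / 2))) (r * (cexp (I * (t + β / 2)) * I)) t := by
    have h2 : HasDerivAt (fun t : ℝ => I * ((t : ℂ) + β / 2)) I t := by
      have := ((Complex.ofRealCLM.hasDerivAt (x := t)).add_const ((β : ℂ) / 2)).const_mul I
      simpa using this
    exact h2.cexp.const_mul _
  have h3 := (hasDerivAt_F hq ((r : ℂ) * cexp (I * (t + β / 2)))).comp t h1
  refine h3.congr_deriv ?_
  unfold Ft
  have e1 : cexp (I * β) * (r * cexp (I * (t + β / 2))) = r * cexp (I * (((t + β : ℝ) : ℂ) + β / 2)) := by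
    rw [mul_left_comm, ← Complex.exp_add]
    congr 2
    push_cast
    ring
  rw [e1]
  ring

end Sok
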