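import Mathlib
import Pool.Agent.Lib.MP_816dec_an.A0Val
import Pool.Agent.Lib.MP_816dec_an.Deriv

/-!
MP_816dec_an: the valley functions as entire functions of `w = log r + i θ`.
-/

set_option autoImplicit false

open Complex Set Filter Topology MeasureTheory

namespace Sok

/-- integrand with complex `t` and `r = 1` -/
noncomputable def gc (β : ℝ) (t s : ℂ) : ℂ := cexp (-(I * (s - t) ^ 2 / (2 * β))) * cexp (cexp (I * s))

theorem gc_eq_gs {β r : ℝ} (hr : 0 < r) (t : ℝ) (s : ℂ) :
    gc β (t - I * Real.log r) s = gs β r t (s + I * Real.log r) := by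
  unfold gc gs
  have e1 : (s - ((t : ℂ) - I * Real.log r)) = s + I * Real.log r - t := by ring
  have e2 : (r : ℂ) * cexp (I * (s + I * Real.log r)) = cexp (I * s) := by
    have h1 : I * (s + I * (Real.log r : ℂ)) = I * s - Real.log r := by
      linear_combination (Real.log r : ℂ) * Complex.I_sq
    rw [h1, Complex.exp_sub, ← Complex.ofReal_exp, Real.exp_log hr]
    have : (r : ℂ) ≠ 0 := by exact_mod_cast hr.ne'
    field_simp
  rw [e1, e2]

theorem norm_gc (β a b S Y : ℝ) :
    ‖gc β (a + b * I) (S + Y * I)‖ = Real.exp ((S - a) * (Y - b) / β + Real.cos S * Real.exp (-Y)) := by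
  unfold gc
  have e0 : ((S : ℂ) + Y * I) - (a + b * I) = ((S - a : ℝ) : ℂ) + ((Y - b : ℝ) : ℂ) * I := by push_cast; ring
  rw [norm_mul, e0, norm_fresnel, Real.exp_add, Complex.norm_exp]
  congr 2
  have e1 : I * ((S : ℂ) + Y * I) = ((-Y : ℝ) : ℂ) + (S : ℂ) * I := by
    push_cast; linear_combination (Y : ℂ) * Complex.I_sq
  rw [e1, Complex.exp_add, ← Complex.ofReal_exp, Complex.re_ofReal_mul, Complex.exp_ofReal_mul_I_re]
  ring

private theorem hasDerivAt_gc (β : ℝ) (t s : ℂ) :
    HasDerivAt (fun t : ℂ => gc β t s) (I * (s - t) / β * gc β t s) t := by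
  have h0 : HasDerivAt (fun t : ℂ => (s - t)) (-1) t := by
    have := (hasDerivAt_id t).const_sub s
    simpa using this
  have h1 : HasDerivAt (fun t : ℂ => -(I * (s - t) ^ 2 / (2 * β))) (I * (s - t) / β) t := by
    refine (((h0.pow 2).const_mul I).div_const (2 * (β : ℂ))).neg.congr_deriv ?_
    rcases eq_or_ne (β : ℂ) 0 with hb | hb
    · simp [hb]
    · field_simp
      push_cast
      ring
  have h2 := (h1.cexp).mul_const (cexp (cexp (I * s)))
  refine h2.congr_deriv ?_
  unfold gc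
  ring

private theorem cont_gc (β : ℝ) : Continuous fun p : ℂ × ℂ => gc β p.1 p.2 := by
  unfold gc; fun_prop

attribute [local irreducible] gc

theorem gc_piece {β : ℝ} {t : ℂ} {μ : Measure ℝ} {p d : ℂ} {B : ℝ → ℝ}
    (hint : Integrable (fun x : ℝ => gc β t (p + x * d)) μ) (hB : Integrable B μ)
    (hb : ∀ᵐ x : ℝ ∂μ, ∀ t' ∈ Metric.ball t 1, ‖I * ((p + x * d) - t') / β * gc β t' (p + x * d)‖ ≤ B x) :
    DifferentiableAt ℂ (fun t : ℂ => ∫ x : ℝ, gc β t (p + x * d) ∂μ) t := by
  obtain ⟨F, hF⟩ : ∃ F : ℂ → ℝ → ℂ, F = fun (t' : ℂ) (x : ℝ) => gc β t' (p + x * d) := ⟨_, rfl⟩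
  obtain ⟨F', hF'⟩ : ∃ F' : ℂ → ℝ → ℂ, F' = fun (t' : ℂ) (x : ℝ) => I * ((p + x * d) - t') / β * gc β t' (p + x * d) := ⟨_, rfl⟩
  have hc : ∀ t' : ℂ, Continuous (F t') := by
    intro t'
    rw [hF]
    exact (cont_gc β).comp (by fun_prop : Continuous fun x : ℝ => (t', p + x * d))
  have hc' : Continuous (F' t) := by
    have h1 := hc t
    rw [hF] at h1
    rw [hF']
    fun_prop
  have hd : ∀ x : ℝ, ∀ t' : ℂ, HasDerivAt (fun t' => F t' x) (F' t' x) t' := by
    intro x t'
    rw [hF, hF']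
    exact hasDerivAt_gc β t' _
  have hint' : Integrable (F t) μ := by rw [hF]; exact hint
  have hb' : ∀ᵐ x : ℝ ∂μ, ∀ t' ∈ Metric.ball t 1, ‖F' t' x‖ ≤ B x := by rw [hF']; exact hb
  have h : Integrable (F' t) μ ∧ HasDerivAt (fun t' => ∫ x, F t' x ∂μ) (∫ x, F' t x ∂μ) t :=
    hasDerivAt_integral_of_dominated_loc_of_deriv_le (Metric.ball_mem_nhds t one_pos)
      (Filter.Eventually.of_forall fun t' => (hc t').aestronglyMeasurable) hint'
      hc'.aestronglyMeasurable hb' hB
      (Filter.Eventually.of_forall fun x t' _ => hd x t')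
  have h2 := h.2.differentiableAt
  rw [hF] at h2
  exact h2

/-- compact pieces -/
theorem gc_seg {β : ℝ} (t p d : ℂ) (a b : ℝ) :
    DifferentiableAt ℂ (fun t : ℂ => ∫ x in a..b, gc β t (p + x * d)) t := by
  have hcomp : IsCompact ((Metric.closedBall t 1) ×ˢ (uIcc a b)) :=
    (isCompact_closedBall t 1).prod isCompact_uIcc
  have hcont : Continuous fun q : ℂ × ℝ => I * ((p + q.2 * d) - q.1) / β * gc β q.1 (p + q.2 * d) := by
    have h0 : Continuous fun q : ℂ × ℝ => (q.1, p + (q.2 : ℂ) * d) := by fun_prop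
    have h1 : Continuous fun q : ℂ × ℝ => gc β q.1 (p + q.2 * d) := (cont_gc β).comp h0
    have h2 : Continuous fun q : ℂ × ℝ => I * ((p + (q.2 : ℂ) * d) - q.1) / β := by fun_prop
    exact h2.mul h1
  obtain ⟨M, hM⟩ := hcomp.exists_bound_of_continuousOn hcont.continuousOn
  have hcc : Continuous (fun x : ℝ => gc β t (p + x * d)) :=
    (cont_gc β).comp (by fun_prop : Continuous fun x : ℝ => (t, p + x * d))
  have key : ∀ s : Set ℝ, MeasurableSet s → volume s ≠ ⊤ → s ⊆ uIcc a b →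
      DifferentiableAt ℂ (fun t : ℂ => ∫ x in s, gc β t (p + x * d)) t := by
    intro s hs hv hsub
    have i1 : IntegrableOn (fun x : ℝ => gc β t (p + x * d)) s :=
      (hcc.continuousOn.integrableOn_compact isCompact_uIcc).mono_set hsub
    have i2 : IntegrableOn (fun _ : ℝ => M) s := integrableOn_const hv enorm_ne_top
    have i3 : ∀ᵐ x : ℝ ∂(volume.restrict s), ∀ t' ∈ Metric.ball t 1,
        ‖I * ((p + x * d) - t') / β * gc β t' (p + x * d)‖ ≤ (fun _ : ℝ => M) x := by
      refine (ae_restrict_iff' hs).2 (Filter.Eventually.of_forall fun x hx t' ht' => ?_)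
      exact hM (t', x) ⟨Metric.ball_subset_closedBall ht', hsub hx⟩
    exact gc_piece (p := p) (d := d) (B := fun _ => M) i1 i2 i3
  have k1 := key _ measurableSet_Ioc (by simp) (Ioc_subset_Icc_self.trans Icc_subset_uIcc : Ioc a b ⊆ uIcc a b)
  have k2 := key _ measurableSet_Ioc (by simp) (Ioc_subset_Icc_self.trans Icc_subset_uIcc' : Ioc b a ⊆ uIcc a b)
  exact k1.sub k2

private theorem gauss_le {u M L : ℝ} (hu : 0 ≤ u) : (M + 2) * u + M * L - Real.exp u ≤ (M + 2) ^ 2 / 2 + M * L := by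
  have h := Real.quadratic_le_exp_of_nonneg hu
  nlinarith [sq_nonneg (M + 2 - u)]

/-- legs -/
theorem gc_leg {β : ℝ} (hβ : 0 < β) (t : ℂ) {S : ℝ} (hS : Real.cos S = -1) :
    DifferentiableAt ℂ (fun t : ℂ => ∫ Y in Iic (0 : ℝ), gc β t (S + Y * I)) t := by
  obtain ⟨T, hT⟩ : ∃ T : ℝ, T = ‖t‖ + 1 := ⟨_, rfl⟩
  have hT0 : 0 < T := by rw [hT]; positivity
  obtain ⟨M, hM⟩ : ∃ M : ℝ, M = (|S| + T) / β := ⟨_, rfl⟩
  have hM0 : 0 ≤ M := by rw [hM]; positivity
  obtain ⟨C, hC⟩ : ∃ C : ℝ, C = (|S| + T + 1) / β * Real.exp ((M + 2) ^ 2 / 2 + M * T) := ⟨_, rfl⟩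
  have hC0 : 0 ≤ C := by rw [hC]; positivity
  -- the basic bound
  have hbound : ∀ t' : ℂ, ‖t'‖ ≤ T → ∀ Y : ℝ, Y ≤ 0 →
      ‖gc β t' (S + Y * I)‖ ≤ Real.exp (M * (-Y) + M * T - Real.exp (-Y)) := by
    intro t' ht' Y hY
    have e1 : t' = (t'.re : ℂ) + (t'.im : ℂ) * I := (Complex.re_add_im t').symm
    rw [e1, norm_gc, hS]
    apply Real.exp_le_exp.2
    have h1 : |t'.re| ≤ T := (Complex.abs_re_le_norm t').trans ht'
    have h2 : |t'.im| ≤ T := (Complex.abs_im_le_norm t').trans ht'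
    have h3 : (S - t'.re) * (Y - t'.im) ≤ (|S| + T) * (-Y + T) := by
      have a1 : |S - t'.re| ≤ |S| + T := (abs_sub _ _).trans (by linarith)
      have a2 : |Y - t'.im| ≤ -Y + T := (abs_sub _ _).trans (by rw [abs_of_nonpos hY]; linarith)
      calc (S - t'.re) * (Y - t'.im) ≤ |(S - t'.re) * (Y - t'.im)| := le_abs_self _
        _ = |S - t'.re| * |Y - t'.im| := abs_mul _ _
        _ ≤ (|S| + T) * (-Y + T) := mul_le_mul a1 a2 (abs_nonneg _) (by positivity)
    have h4 : (S - t'.re) * (Y - t'.im) / β ≤ M * (-Y) + M * T := by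
      rw [div_le_iff₀ hβ]
      have : (M * (-Y) + M * T) * β = (|S| + T) * (-Y + T) := by
        rw [hM]; field_simp
      rw [this]
      exact h3
    linarith
  refine gc_piece (p := (S : ℂ)) (d := I) (B := fun Y : ℝ => C * Real.exp Y) ?_ ?_ ?_
  · have hcc : Continuous (fun Y : ℝ => gc β t (S + Y * I)) :=
      (cont_gc β).comp (by fun_prop : Continuous fun Y : ℝ => (t, (S : ℂ) + Y * I))
    have h1 : IntegrableOn (fun Y : ℝ => Real.exp ((M + 2) ^ 2 / 2 + M * T) * Real.exp Y) (Iic 0) :=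
      (integrableOn_exp_Iic 0).const_mul _
    refine h1.mono' hcc.aestronglyMeasurable ?_
    refine (ae_restrict_iff' measurableSet_Iic).2 (Filter.Eventually.of_forall fun Y hY => ?_)
    refine (hbound t (by rw [hT]; linarith) Y hY).trans ?_
    rw [← Real.exp_add]
    apply Real.exp_le_exp.2
    have hY0 : Y ≤ 0 := hY
    have h2 := gauss_le (M := M) (L := T) (u := -Y) (by linarith)
    nlinarith
  · exact (integrableOn_exp_Iic 0).const_mul _
  · refine (ae_restrict_iff' measurableSet_Iic).2 (Filter.Eventually.of_forall fun Y hY t' ht' => ?_)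
    have hY0 : Y ≤ 0 := hY
    have ht'' : ‖t'‖ ≤ T := by
      have h1 : ‖t' - t‖ < 1 := by rwa [← dist_eq_norm, ← Metric.mem_ball]
      have h2 := norm_add_le (t' - t) t
      rw [sub_add_cancel] at h2
      rw [hT]; linarith
    have h1 := hbound t' ht'' Y hY0
    have h2 : ‖I * (((S : ℂ) + Y * I) - t') / β‖ ≤ (|S| + T + 1) / β * Real.exp (-Y) := by
      rw [norm_div, norm_mul, Complex.norm_I, one_mul, Complex.norm_real, Real.norm_of_nonneg hβ.le,
        div_mul_eq_mul_div]
      apply div_le_div_of_nonneg_right _ hβ.le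
      have h3 : ‖((S : ℂ) + Y * I) - t'‖ ≤ |S| + (-Y) + T := by
        refine (norm_sub_le _ _).trans ?_
        have h4 : ‖(S : ℂ) + Y * I‖ ≤ |S| + -Y := by
          refine (norm_add_le _ _).trans ?_
          rw [norm_mul, Complex.norm_I, mul_one, Complex.norm_real, Complex.norm_real, Real.norm_eq_abs,
            Real.norm_eq_abs, abs_of_nonpos hY0]
        linarith
      have h5 : 1 ≤ Real.exp (-Y) := Real.one_le_exp (by linarith)
      have h6 : -Y ≤ Real.exp (-Y) := by linarith [Real.add_one_le_exp (-Y)]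
      have h7 : (|S| + T) * 1 ≤ (|S| + T) * Real.exp (-Y) := mul_le_mul_of_nonneg_left h5 (by positivity)
      linarith
    rw [norm_mul]
    calc ‖I * (((S : ℂ) + Y * I) - t') / β‖ * ‖gc β t' (S + Y * I)‖
        ≤ ((|S| + T + 1) / β * Real.exp (-Y)) * Real.exp (M * (-Y) + M * T - Real.exp (-Y)) :=
          mul_le_mul h2 h1 (norm_nonneg _) (by positivity)
      _ = (|S| + T + 1) / β * Real.exp (-Y + (M * (-Y) + M * T - Real.exp (-Y))) := by
          rw [Real.exp_add (-Y)]; ring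
      _ ≤ (|S| + T + 1) / β * Real.exp ((M + 2) ^ 2 / 2 + M * T + Y) := by
          apply mul_le_mul_of_nonneg_left _ (by positivity)
          apply Real.exp_le_exp.2
          have h8 := gauss_le (M := M) (L := T) (u := -Y) (by linarith)
          nlinarith
      _ = C * Real.exp Y := by rw [hC, Real.exp_add]; ring

/-- the left line at height `h > Im t + 1` -/
theorem gc_lin {β : ℝ} (hβ : 0 < β) (t : ℂ) {h : ℝ} (hh : t.im + 2 ≤ h) :
    DifferentiableAt ℂ (fun t : ℂ => ∫ X in Iic (0 : ℝ), gc β t (h * I + X * 1)) t := by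
  obtain ⟨T, hT⟩ : ∃ T : ℝ, T = ‖t‖ + 1 := ⟨_, rfl⟩
  have hT0 : 0 < T := by rw [hT]; positivity
  obtain ⟨K, hK⟩ : ∃ K : ℝ, K = T * (|h| + T) / β + Real.exp (-h) := ⟨_, rfl⟩
  have hnear : ∀ t' ∈ Metric.ball t 1, ‖t'‖ ≤ T ∧ t'.im + 1 ≤ h := by
    intro t' ht'
    have h1 : ‖t' - t‖ < 1 := by rwa [← dist_eq_norm, ← Metric.mem_ball]
    have h2 := norm_add_le (t' - t) t
    rw [sub_add_cancel] at h2
    have h3 := Complex.abs_im_le_norm (t' - t)
    rw [Complex.sub_im, abs_le] at h3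
    exact ⟨by rw [hT]; linarith, by linarith [h3.2]⟩
  have hbound : ∀ t' : ℂ, ‖t'‖ ≤ T → t'.im + 1 ≤ h → ∀ X : ℝ, X ≤ 0 →
      ‖gc β t' (h * I + X * 1)‖ ≤ Real.exp (X / β + K) := by
    intro t' ht' hi X hX
    have e1 : t' = (t'.re : ℂ) + (t'.im : ℂ) * I := (Complex.re_add_im t').symm
    have e2 : (h : ℂ) * I + X * 1 = X + h * I := by ring
    rw [e1, e2, norm_gc]
    apply Real.exp_le_exp.2
    have h1 : |t'.re| ≤ T := (Complex.abs_re_le_norm t').trans ht'
    have h2 : |t'.im| ≤ T := (Complex.abs_im_le_norm t').trans ht'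
    have h3 : Real.cos X * Real.exp (-h) ≤ Real.exp (-h) := by
      nlinarith [Real.cos_le_one X, Real.exp_pos (-h)]
    have h4 : (X - t'.re) * (h - t'.im) ≤ X + T * (|h| + T) := by
      have a1 : X * (h - t'.im) ≤ X := by nlinarith
      have a2 : -t'.re * (h - t'.im) ≤ T * (|h| + T) := by
        calc -t'.re * (h - t'.im) ≤ |-t'.re * (h - t'.im)| := le_abs_self _
          _ = |t'.re| * |h - t'.im| := by rw [abs_mul, abs_neg]
          _ ≤ T * (|h| + T) := mul_le_mul h1 ((abs_sub _ _).trans (by linarith)) (abs_nonneg _) hT0.le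
      linarith
    have h5 : (X - t'.re) * (h - t'.im) / β ≤ (X + T * (|h| + T)) / β := div_le_div_of_nonneg_right h4 hβ.le
    rw [add_div] at h5
    rw [hK]
    linarith
  refine gc_piece (p := (h : ℂ) * I) (d := 1) (B := fun X : ℝ => (((|h| + T + 2 * β) / β) * Real.exp K) *
    Real.exp ((1 / (2 * β)) * X)) ?_ ?_ ?_
  · have hcc : Continuous (fun X : ℝ => gc β t (h * I + X * 1)) :=
      (cont_gc β).comp (by fun_prop : Continuous fun X : ℝ => (t, (h : ℂ) * I + X * 1))
    have h1 : IntegrableOn (fun X : ℝ => Real.exp K * Real.exp ((1 / β) * X)) (Iic 0) :=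
      (integrableOn_exp_mul_Iic (by positivity) 0).const_mul _
    refine h1.mono' hcc.aestronglyMeasurable ?_
    refine (ae_restrict_iff' measurableSet_Iic).2 (Filter.Eventually.of_forall fun X hX => ?_)
    refine (hbound t (by rw [hT]; linarith) (by linarith) X hX).trans (le_of_eq ?_)
    rw [← Real.exp_add]
    congr 1
    ring
  · exact (integrableOn_exp_mul_Iic (by positivity) 0).const_mul _
  · refine (ae_restrict_iff' measurableSet_Iic).2 (Filter.Eventually.of_forall fun X hX t' ht' => ?_)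
    have hX0 : X ≤ 0 := hX
    obtain ⟨h1, h2⟩ := hnear t' ht'
    have h3 := hbound t' h1 h2 X hX0
    have h4 : ‖I * (((h : ℂ) * I + X * 1) - t') / β‖ ≤ (|h| + T + 2 * β) / β * Real.exp (-X / (2 * β)) := by
      rw [norm_div, norm_mul, Complex.norm_I, one_mul, Complex.norm_real, Real.norm_of_nonneg hβ.le,
        div_mul_eq_mul_div]
      apply div_le_div_of_nonneg_right _ hβ.le
      have h5 : ‖((h : ℂ) * I + X * 1) - t'‖ ≤ |h| + (-X) + T := by
        refine (norm_sub_le _ _).trans ?_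
        have h6 : ‖(h : ℂ) * I + X * 1‖ ≤ |h| + -X := by
          refine (norm_add_le _ _).trans ?_
          rw [norm_mul, Complex.norm_I, mul_one, mul_one, Complex.norm_real, Complex.norm_real,
            Real.norm_eq_abs, Real.norm_eq_abs, abs_of_nonpos hX0]
        linarith
      have h7 : 1 ≤ Real.exp (-X / (2 * β)) := Real.one_le_exp (div_nonneg (by linarith) (by positivity))
      have h8 : -X ≤ 2 * β * Real.exp (-X / (2 * β)) := by
        have := Real.add_one_le_exp (-X / (2 * β))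
        have h9 : -X / (2 * β) ≤ Real.exp (-X / (2 * β)) := by linarith
        rw [div_le_iff₀ (by positivity)] at h9
        linarith
      have h10 : (|h| + T) * 1 ≤ (|h| + T) * Real.exp (-X / (2 * β)) :=
        mul_le_mul_of_nonneg_left h7 (by positivity)
      linarith
    rw [norm_mul]
    calc ‖I * (((h : ℂ) * I + X * 1) - t') / β‖ * ‖gc β t' (h * I + X * 1)‖
        ≤ ((|h| + T + 2 * β) / β * Real.exp (-X / (2 * β))) * Real.exp (X / β + K) :=
          mul_le_mul h4 h3 (norm_nonneg _) (by positivity)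
      _ = (|h| + T + 2 * β) / β * (Real.exp (-X / (2 * β)) * Real.exp (X / β + K)) := by ring
      _ = (|h| + T + 2 * β) / β * (Real.exp K * Real.exp ((1 / (2 * β)) * X)) := by
          rw [← Real.exp_add, ← Real.exp_add]
          congr 2
          field_simp
          ring
      _ = _ := by ring


end Sok
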