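import Mathlib
import Pool.Agent.Lib.MP_816dec_an.A0Gc
import Pool.Agent.Lib.MP_816dec_an.Deriv

/-!
MP_816dec_an: the valley functions as entire functions of `w = log r + i θ`.
-/

set_option autoImplicit false

open Complex Set Filter Topology MeasureTheory

namespace Sok

attribute [local irreducible] gc gs

/-- the valley functions on the logarithmic plane -/
noncomputable def Aw (β : ℝ) (w : ℂ) : ℂ := AA β (Real.exp w.re) (w.im - β / 2)

/-- the left function on the logarithmic plane -/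
noncomputable def Cw (β : ℝ) (w : ℂ) : ℂ := CC β (Real.exp w.re) (w.im - β / 2)

/-- the complex parameter -/
private noncomputable def tc (β : ℝ) (w : ℂ) : ℂ := -(I * w) - β / 2

private theorem tc_eq (β : ℝ) (w : ℂ) :
    tc β w = ((w.im - β / 2 : ℝ) : ℂ) - I * Real.log (Real.exp w.re) := by
  rw [tc, Real.log_exp]
  have e1 : w = (w.re : ℂ) + (w.im : ℂ) * I := (Complex.re_add_im w).symm
  have e2 : I * w = I * w.re - w.im := by
    conv_lhs => rw [e1]
    linear_combination (w.im : ℂ) * Complex.I_sq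
  rw [e2]
  push_cast
  ring

private theorem gc_line {β : ℝ} (w s : ℂ) : gc β (tc β w) s =
    gs β (Real.exp w.re) (w.im - β / 2) (s + I * w.re) := by
  rw [tc_eq, gc_eq_gs (Real.exp_pos _), Real.log_exp]

private theorem inV0 (t : ℝ) : InV t 0 Real.pi := by
  have := inV_center t 0
  simpa using this

private theorem inVm (t : ℝ) : InV t (-1) (-Real.pi) := by
  have := inV_center t (-1)
  have e1 : (2 * ((-1 : ℤ) : ℝ) + 1) * Real.pi = -Real.pi := by push_cast; ring
  rwa [e1] at this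

private theorem Iic_shift (f : ℝ → ℂ) (c : ℝ) : ∫ Y in Iic (0 : ℝ), f (Y + c) = ∫ Y in Iic c, f Y := by
  have h := (measurePreserving_add_right (volume : Measure ℝ) c).setIntegral_preimage_emb
    (measurableEmbedding_addRight c) f (Iic c)
  have e1 : (fun x : ℝ => x + c) ⁻¹' (Iic c) = Iic 0 := by
    ext x; simp
  rw [e1] at h
  exact h

private theorem leg_val {β : ℝ} (hβ : 0 < β) (w : ℂ) {P : ℂ → ℂ}
    (hP : ∀ x, HasDerivAt P (gs β (Real.exp w.re) (w.im - β / 2) x) x)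
    {V : ℤ → ℂ} {lL lR : ℂ} (h : Vals β (Real.exp w.re) (w.im - β / 2) P V lL lR) {j : ℤ} {S : ℝ}
    (hS : InV (w.im - β / 2) j S) :
    I * ∫ Y in Iic (0 : ℝ), gc β (tc β w) (S + Y * I) = P (S + w.re * I) - V j := by
  have e1 : ∀ Y : ℝ, gc β (tc β w) (S + Y * I) =
      (fun Y : ℝ => gs β (Real.exp w.re) (w.im - β / 2) (S + Y * I)) (Y + w.re) := by
    intro Y
    rw [gc_line]
    have e2 : (S : ℂ) + Y * I + I * w.re = S + ((Y + w.re : ℝ) : ℂ) * I := by push_cast; ring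
    rw [e2]
  have e3 := Iic_shift (fun Y : ℝ => gs β (Real.exp w.re) (w.im - β / 2) (S + Y * I)) w.re
  rw [← h.leg hβ (Real.exp_pos _) hP hS, ← e3]
  congr 1
  exact integral_congr_ae (Filter.Eventually.of_forall e1)

private theorem hor_val {β : ℝ} (w : ℂ) {P : ℂ → ℂ}
    (hP : ∀ x, HasDerivAt P (gs β (Real.exp w.re) (w.im - β / 2) x) x) (a b : ℝ) :
    ∫ x in a..b, gc β (tc β w) (0 + x * 1) = P (b + w.re * I) - P (a + w.re * I) := by
  rw [← prim_hor (gs_diff _ _ _) hP]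
  congr 1
  funext x
  rw [gc_line]
  congr 1
  ring

/-- the contour of `Aw` -/
private theorem Aw_eq {β : ℝ} (hβ : 0 < β) (w : ℂ) : cF β * Aw β w =
    (I * ∫ Y in Iic (0 : ℝ), gc β (tc β w) (((-Real.pi : ℝ) : ℂ) + Y * I)) +
      (∫ x in (-Real.pi)..Real.pi, gc β (tc β w) (0 + x * 1)) -
      I * ∫ Y in Iic (0 : ℝ), gc β (tc β w) ((Real.pi : ℂ) + Y * I) := by
  obtain ⟨P, hP⟩ := exists_prim (gs_diff β (Real.exp w.re) (w.im - β / 2))
  obtain ⟨V, lL, lR, hV, -⟩ := exists_vals hβ (Real.exp_pos w.re) hP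
  rw [Aw, ← hV.AA0 hβ (Real.exp_pos _) hP, leg_val hβ w hP hV (inVm _), leg_val hβ w hP hV (inV0 _),
    hor_val w hP]
  ring

/-- the contour of `Cw` -/
private theorem Cw_eq {β : ℝ} (hβ : 0 < β) (w : ℂ) {h : ℝ} (hh : 0 < h + w.re) : cF β * Cw β w =
    (∫ X in Iic (0 : ℝ), gc β (tc β w) (h * I + X * 1)) +
      (I * ∫ x in h..0, gc β (tc β w) (0 + x * I)) +
      (∫ x in (0 : ℝ)..Real.pi, gc β (tc β w) (0 + x * 1)) -
      I * ∫ Y in Iic (0 : ℝ), gc β (tc β w) ((Real.pi : ℂ) + Y * I) := by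
  obtain ⟨P, hP⟩ := exists_prim (gs_diff β (Real.exp w.re) (w.im - β / 2))
  obtain ⟨V, lL, lR, hV, -⟩ := exists_vals hβ (Real.exp_pos w.re) hP
  rw [Cw, ← hV.CC0 hβ (Real.exp_pos _) hP, leg_val hβ w hP hV (inV0 _), hor_val w hP]
  have h1 : ∫ X in Iic (0 : ℝ), gc β (tc β w) (h * I + X * 1) = P ((0 : ℝ) + ((h + w.re : ℝ) : ℂ) * I) - lL := by
    rw [← hV.linel hβ (Real.exp_pos _).le hP hh]
    congr 1
    funext X
    rw [gc_line]
    congr 1
    push_cast
    ring
  have h2 : I * ∫ x in h..0, gc β (tc β w) (0 + x * I) =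
      P ((0 : ℝ) + ((0 + w.re : ℝ) : ℂ) * I) - P ((0 : ℝ) + ((h + w.re : ℝ) : ℂ) * I) := by
    rw [← prim_ver (gs_diff _ _ _) hP, ← intervalIntegral.integral_comp_add_right (fun Y : ℝ =>
      gs β (Real.exp w.re) (w.im - β / 2) (((0 : ℝ) : ℂ) + Y * I))]
    congr 2
    funext x
    rw [gc_line]
    congr 1
    push_cast
    ring
  rw [h1, h2]
  push_cast
  ring_nf

private theorem tc_diff (β : ℝ) : Differentiable ℂ (tc β) := by unfold tc; fun_prop

private theorem leg_w {β : ℝ} (hβ : 0 < β) (w : ℂ) {S : ℝ} (hS : Real.cos S = -1) :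
    DifferentiableAt ℂ (fun w : ℂ => ∫ Y in Iic (0 : ℝ), gc β (tc β w) (S + Y * I)) w :=
  DifferentiableAt.comp w (g := fun t : ℂ => ∫ Y in Iic (0 : ℝ), gc β t (S + Y * I))
    (gc_leg hβ (tc β w) hS) (tc_diff β w)

private theorem seg_w {β : ℝ} (w p d : ℂ) (a b : ℝ) :
    DifferentiableAt ℂ (fun w : ℂ => ∫ x in a..b, gc β (tc β w) (p + x * d)) w :=
  DifferentiableAt.comp w (g := fun t : ℂ => ∫ x in a..b, gc β t (p + x * d))
    (gc_seg (tc β w) p d a b) (tc_diff β w)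

private theorem lin_w {β : ℝ} (hβ : 0 < β) (w : ℂ) {h : ℝ} (hh : (tc β w).im + 2 ≤ h) :
    DifferentiableAt ℂ (fun w : ℂ => ∫ X in Iic (0 : ℝ), gc β (tc β w) (h * I + X * 1)) w :=
  DifferentiableAt.comp w (g := fun t : ℂ => ∫ X in Iic (0 : ℝ), gc β t (h * I + X * 1))
    (gc_lin hβ (tc β w) hh) (tc_diff β w)

theorem differentiable_Aw {β : ℝ} (hβ : 0 < β) : Differentiable ℂ (Aw β) := by
  intro w
  have h1 := ((((leg_w hβ w (S := -Real.pi) (by simp)).const_mul I).add (seg_w (β := β) w 0 1 (-Real.pi) Real.pi)).sub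
    ((leg_w hβ w (S := Real.pi) (by simp)).const_mul I)).const_mul (cF β)⁻¹
  refine h1.congr_of_eventuallyEq (Filter.Eventually.of_forall fun v => ?_)
  simp only
  have h2 := Aw_eq hβ v
  rw [eq_inv_mul_iff_mul_eq₀ (cF_ne hβ), h2]
  rfl

theorem differentiable_Cw {β : ℝ} (hβ : 0 < β) : Differentiable ℂ (Cw β) := by
  intro w
  obtain ⟨h, hh⟩ : ∃ h : ℝ, h = |w.re| + 2 := ⟨_, rfl⟩
  have him : (tc β w).im = -w.re := by
    unfold tc
    simp
  have h1 := (((((lin_w hβ w (h := h) (by rw [him, hh]; linarith [neg_abs_le w.re])).add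
    ((seg_w (β := β) w 0 I h 0).const_mul I)).add (seg_w (β := β) w 0 1 0 Real.pi)).sub
    ((leg_w hβ w (S := Real.pi) (by simp)).const_mul I))).const_mul (cF β)⁻¹
  refine h1.congr_of_eventuallyEq ?_
  filter_upwards [Metric.ball_mem_nhds w one_pos] with v hv
  have h3 : ‖v - w‖ < 1 := by rwa [← dist_eq_norm, ← Metric.mem_ball]
  have h4 := Complex.abs_re_le_norm (v - w)
  rw [Complex.sub_re, abs_le] at h4
  have h2 := Cw_eq hβ v (h := h) (by rw [hh]; linarith [h4.1, neg_abs_le w.re])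
  rw [eq_inv_mul_iff_mul_eq₀ (cF_ne hβ), h2]
  rfl

/-- the derivative along the vertical direction determines the complex derivative -/
private theorem deriv_of_vert {f : ℂ → ℂ} {w D : ℂ} (hf : DifferentiableAt ℂ f w)
    (hv : HasDerivAt (fun t : ℝ => f (w.re + (t : ℂ) * I)) (I * D) w.im) : HasDerivAt f D w := by
  have e0 : (w.re : ℂ) + (w.im : ℂ) * I = w := Complex.re_add_im w
  have h1 : HasDerivAt (fun t : ℝ => (w.re : ℂ) + (t : ℂ) * I) I w.im := by
    have := ((Complex.ofRealCLM.hasDerivAt (x := w.im)).mul_const I).const_add (w.re : ℂ)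
    simpa using this
  have h2 : HasDerivAt f (deriv f w) ((w.re : ℂ) + (w.im : ℂ) * I) := by rw [e0]; exact hf.hasDerivAt
  have h3 := HasDerivAt.comp w.im h2 h1
  have h4 := h3.unique hv
  have h5 : deriv f w = D := by
    have hI : (I : ℂ) ≠ 0 := Complex.I_ne_zero
    apply mul_left_cancel₀ hI
    rw [← h4]
    ring
  rw [← h5]
  exact hf.hasDerivAt

private theorem vert_line (w : ℂ) (t : ℝ) :
    ((w.re : ℂ) + (t : ℂ) * I).re = w.re ∧ ((w.re : ℂ) + (t : ℂ) * I).im = t := by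
  constructor <;> simp

theorem hasDerivAt_Aw {β : ℝ} (hβ : 0 < β) (w : ℂ) :
    HasDerivAt (Aw β) (cexp w * Aw β (w + β * I)) w := by
  apply deriv_of_vert (differentiable_Aw hβ w)
  have h1 := hasDerivAt_AA hβ (Real.exp_pos w.re) (w.im - β / 2)
  have h2 : HasDerivAt (fun t : ℝ => t - β / 2) 1 w.im := (hasDerivAt_id w.im).sub_const _
  have h3 := HasDerivAt.scomp w.im h1 h2
  have e1 : (fun t : ℝ => Aw β ((w.re : ℂ) + (t : ℂ) * I)) = AA β (Real.exp w.re) ∘ fun t : ℝ => t - β / 2 := by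
    funext t
    simp only [Aw, Function.comp, (vert_line w t).1, (vert_line w t).2]
  rw [e1]
  refine h3.congr_deriv ?_
  have e2 : (w + β * I).re = w.re := by simp
  have e3 : (w + β * I).im = w.im + β := by simp
  have e4 : cexp w = (Real.exp w.re : ℝ) * cexp (I * (((w.im - β / 2 : ℝ) : ℂ) + β / 2)) := by
    conv_lhs => rw [← Complex.re_add_im w]
    rw [Complex.exp_add, Complex.ofReal_exp]
    congr 2
    push_cast
    ring
  rw [one_smul, Aw, e2, e3, e4]
  have e5 : w.im + β - β / 2 = w.im - β / 2 + β := by ring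
  rw [e5]
  ring

theorem hasDerivAt_Cw {β : ℝ} (hβ : 0 < β) (w : ℂ) :
    HasDerivAt (Cw β) (cexp w * Cw β (w + β * I)) w := by
  apply deriv_of_vert (differentiable_Cw hβ w)
  have h1 := hasDerivAt_CC hβ (Real.exp_pos w.re) (w.im - β / 2)
  have h2 : HasDerivAt (fun t : ℝ => t - β / 2) 1 w.im := (hasDerivAt_id w.im).sub_const _
  have h3 := HasDerivAt.scomp w.im h1 h2
  have e1 : (fun t : ℝ => Cw β ((w.re : ℂ) + (t : ℂ) * I)) = CC β (Real.exp w.re) ∘ fun t : ℝ => t - β / 2 := by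
    funext t
    simp only [Cw, Function.comp, (vert_line w t).1, (vert_line w t).2]
  rw [e1]
  refine h3.congr_deriv ?_
  have e2 : (w + β * I).re = w.re := by simp
  have e3 : (w + β * I).im = w.im + β := by simp
  have e4 : cexp w = (Real.exp w.re : ℝ) * cexp (I * (((w.im - β / 2 : ℝ) : ℂ) + β / 2)) := by
    conv_lhs => rw [← Complex.re_add_im w]
    rw [Complex.exp_add, Complex.ofReal_exp]
    congr 2
    push_cast
    ring
  rw [one_smul, Cw, e2, e3, e4]
  have e5 : w.im + β - β / 2 = w.im - β / 2 + β := by ring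
  rw [e5]
  ring

end Sok
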