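import Mathlib

/-!
MP_816dec_an (A3, row L2): two dominant terms on a circle, Lipschitz form.
Equation `1 + g + ∑ B_k(w) g^k = 0` with `g = d X₁(w)/X₀(w)`, `|d| = 1`.
-/

set_option autoImplicit false

open Complex Set Filter Topology Metric

namespace Sok

theorem norm_pow_sub_pow_le' {x y : ℂ} {a : ℝ} (ha : 0 ≤ a) (hx : ‖x‖ ≤ a) (hy : ‖y‖ ≤ a) (n : ℕ) :
    ‖x ^ n - y ^ n‖ ≤ n * a ^ (n - 1) * ‖x - y‖ := by
  induction n with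
  | zero => simp
  | succ n ih =>
    have e1 : x ^ (n + 1) - y ^ (n + 1) = x * (x ^ n - y ^ n) + (x - y) * y ^ n := by ring
    rw [e1, Nat.add_sub_cancel]
    have h1 : ‖x * (x ^ n - y ^ n)‖ ≤ n * a ^ n * ‖x - y‖ := by
      rw [norm_mul]
      rcases n with _ | n
      · simp
      · rw [Nat.add_sub_cancel] at ih
        calc ‖x‖ * ‖x ^ (n + 1) - y ^ (n + 1)‖ ≤ a * (((n + 1 : ℕ) : ℝ) * a ^ n * ‖x - y‖) :=
              mul_le_mul hx ih (norm_nonneg _) ha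
          _ = _ := by ring
    have h2 : ‖(x - y) * y ^ n‖ ≤ a ^ n * ‖x - y‖ := by
      rw [norm_mul, norm_pow, mul_comm]
      gcongr
    calc ‖x * (x ^ n - y ^ n) + (x - y) * y ^ n‖ ≤ n * a ^ n * ‖x - y‖ + a ^ n * ‖x - y‖ :=
          (norm_add_le _ _).trans (add_le_add h1 h2)
      _ = ((n + 1 : ℕ) : ℝ) * a ^ n * ‖x - y‖ := by push_cast; ring

theorem norm_zpow_le' {x : ℂ} {a : ℝ} (ha : 1 ≤ a) (hx : ‖x‖ ≤ a) (hx' : a⁻¹ ≤ ‖x‖) (k : ℤ) :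
    ‖x ^ k‖ ≤ a ^ k.natAbs := by
  have ha0 : 0 < a := by linarith
  have hx0 : 0 < ‖x‖ := lt_of_lt_of_le (inv_pos.2 ha0) hx'
  rcases Int.natAbs_eq k with h | h
  · conv_lhs => rw [h]
    rw [zpow_natCast, norm_pow]
    exact pow_le_pow_left₀ (norm_nonneg _) hx _
  · conv_lhs => rw [h]
    rw [zpow_neg, zpow_natCast, norm_inv, norm_pow, ← inv_pow]
    apply pow_le_pow_left₀ (by positivity)
    rw [inv_le_comm₀ hx0 ha0]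
    exact hx'

theorem norm_zpow_sub_zpow_le {x y : ℂ} {a : ℝ} (ha : 1 ≤ a) (hx : ‖x‖ ≤ a) (hx' : a⁻¹ ≤ ‖x‖)
    (hy : ‖y‖ ≤ a) (hy' : a⁻¹ ≤ ‖y‖) (k : ℤ) :
    ‖x ^ k - y ^ k‖ ≤ (k.natAbs : ℝ) * a ^ (k.natAbs + 1) * ‖x - y‖ := by
  have ha0 : 0 < a := by linarith
  have hx0 : 0 < ‖x‖ := lt_of_lt_of_le (inv_pos.2 ha0) hx'
  have hy0 : 0 < ‖y‖ := lt_of_lt_of_le (inv_pos.2 ha0) hy'
  have hxn : x ≠ 0 := norm_pos_iff.1 hx0
  have hyn : y ≠ 0 := norm_pos_iff.1 hy0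
  have hpow : ∀ n : ℕ, a ^ (n - 1) ≤ a ^ (n + 1) := fun n => pow_le_pow_right₀ ha (by omega)
  rcases Int.natAbs_eq k with h | h
  · conv_lhs => rw [h]
    rw [zpow_natCast, zpow_natCast]
    refine (norm_pow_sub_pow_le' ha0.le hx hy _).trans ?_
    have := hpow k.natAbs
    gcongr
  · conv_lhs => rw [h]
    rw [zpow_neg, zpow_neg, zpow_natCast, zpow_natCast, ← inv_pow, ← inv_pow]
    have hxi : ‖x⁻¹‖ ≤ a := by rw [norm_inv, inv_le_comm₀ hx0 ha0]; exact hx'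
    have hyi : ‖y⁻¹‖ ≤ a := by rw [norm_inv, inv_le_comm₀ hy0 ha0]; exact hy'
    refine (norm_pow_sub_pow_le' ha0.le hxi hyi _).trans ?_
    have e1 : x⁻¹ - y⁻¹ = -(x⁻¹ * y⁻¹ * (x - y)) := by field_simp; ring
    have h1 : ‖x⁻¹ - y⁻¹‖ ≤ a ^ 2 * ‖x - y‖ := by
      rw [e1, norm_neg, norm_mul, norm_mul, sq]
      gcongr
    rcases Nat.eq_zero_or_pos k.natAbs with h0 | h0
    · rw [h0]; simp
    calc (k.natAbs : ℝ) * a ^ (k.natAbs - 1) * ‖x⁻¹ - y⁻¹‖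
        ≤ (k.natAbs : ℝ) * a ^ (k.natAbs - 1) * (a ^ 2 * ‖x - y‖) := by gcongr
      _ = (k.natAbs : ℝ) * a ^ (k.natAbs - 1 + 2) * ‖x - y‖ := by rw [pow_add]; ring
      _ = _ := by congr 3; omega

/-- the residual function -/
noncomputable def resid (s : Finset ℤ) (B : ℤ → ℂ) (g : ℂ) : ℂ := 1 + g + ∑ k ∈ s, B k * g ^ k

theorem two_point {s : Finset ℤ} {B1 B2 : ℤ → ℂ} {M N : ℤ → ℝ} {g1 g2 : ℂ} {a d : ℝ} (ha : 1 ≤ a)
    (h1 : ‖g1‖ ≤ a) (h1' : a⁻¹ ≤ ‖g1‖) (h2 : ‖g2‖ ≤ a) (h2' : a⁻¹ ≤ ‖g2‖)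
    (hM : ∀ k ∈ s, ‖B1 k‖ ≤ M k) (hN : ∀ k ∈ s, ‖B1 k - B2 k‖ ≤ N k * d) :
    ‖g1 - g2‖ * (1 - ∑ k ∈ s, (k.natAbs : ℝ) * M k * a ^ (k.natAbs + 1)) ≤
      d * (∑ k ∈ s, N k * a ^ k.natAbs) + ‖resid s B1 g1‖ + ‖resid s B2 g2‖ := by
  have ha0 : 0 < a := by linarith
  have e1 : g1 - g2 = resid s B1 g1 - resid s B2 g2 -
      ∑ k ∈ s, (B1 k * (g1 ^ k - g2 ^ k) + (B1 k - B2 k) * g2 ^ k) := by
    unfold resid
    have : ∑ k ∈ s, (B1 k * (g1 ^ k - g2 ^ k) + (B1 k - B2 k) * g2 ^ k) =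
        ∑ k ∈ s, B1 k * g1 ^ k - ∑ k ∈ s, B2 k * g2 ^ k := by
      rw [← Finset.sum_sub_distrib]
      apply Finset.sum_congr rfl
      intro k _; ring
    rw [this]; ring
  have e2 : ‖∑ k ∈ s, (B1 k * (g1 ^ k - g2 ^ k) + (B1 k - B2 k) * g2 ^ k)‖ ≤
      ‖g1 - g2‖ * (∑ k ∈ s, (k.natAbs : ℝ) * M k * a ^ (k.natAbs + 1)) + d * (∑ k ∈ s, N k * a ^ k.natAbs) := by
    rw [Finset.mul_sum, Finset.mul_sum, ← Finset.sum_add_distrib]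
    apply norm_sum_le_of_le
    intro k hk
    refine (norm_add_le _ _).trans ?_
    rw [norm_mul, norm_mul]
    have hM0 : 0 ≤ M k := (norm_nonneg _).trans (hM k hk)
    apply add_le_add
    · calc ‖B1 k‖ * ‖g1 ^ k - g2 ^ k‖ ≤ M k * ((k.natAbs : ℝ) * a ^ (k.natAbs + 1) * ‖g1 - g2‖) :=
            mul_le_mul (hM k hk) (norm_zpow_sub_zpow_le ha h1 h1' h2 h2' k) (norm_nonneg _) hM0
        _ = _ := by ring
    · calc ‖B1 k - B2 k‖ * ‖g2 ^ k‖ ≤ (N k * d) * a ^ k.natAbs :=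
            mul_le_mul (hN k hk) (norm_zpow_le' ha h2 h2' k) (norm_nonneg _) ((norm_nonneg _).trans (hN k hk))
        _ = _ := by ring
  have e3 : ‖g1 - g2‖ ≤ ‖resid s B1 g1‖ + ‖resid s B2 g2‖ +
      (‖g1 - g2‖ * (∑ k ∈ s, (k.natAbs : ℝ) * M k * a ^ (k.natAbs + 1)) + d * (∑ k ∈ s, N k * a ^ k.natAbs)) := by
    conv_lhs => rw [e1]
    refine (norm_sub_le _ _).trans ?_
    exact add_le_add (norm_sub_le _ _) e2
  linarith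

theorem log_norm_lip {g1 g2 : ℂ} {a : ℝ} (ha : 0 < a) (h1' : a⁻¹ ≤ ‖g1‖) (h2' : a⁻¹ ≤ ‖g2‖) :
    |Real.log ‖g1‖ - Real.log ‖g2‖| ≤ a * ‖g1 - g2‖ := by
  have key : ∀ x y : ℂ, a⁻¹ ≤ ‖x‖ → a⁻¹ ≤ ‖y‖ → Real.log ‖x‖ - Real.log ‖y‖ ≤ a * ‖x - y‖ := by
    intro x y hx hy
    have hx0 : 0 < ‖x‖ := lt_of_lt_of_le (inv_pos.2 ha) hx
    have hy0 : 0 < ‖y‖ := lt_of_lt_of_le (inv_pos.2 ha) hy
    rw [← Real.log_div hx0.ne' hy0.ne']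
    refine (Real.log_le_sub_one_of_pos (div_pos hx0 hy0)).trans ?_
    have e : ‖x‖ / ‖y‖ - 1 = (‖x‖ - ‖y‖) / ‖y‖ := by field_simp
    rw [e, div_le_iff₀ hy0]
    have h3 : ‖x‖ - ‖y‖ ≤ ‖x - y‖ := norm_sub_norm_le x y
    have h4 : 1 ≤ a * ‖y‖ := by
      calc 1 = a * a⁻¹ := by field_simp
        _ ≤ a * ‖y‖ := by gcongr
    nlinarith [norm_nonneg (x - y)]
  rw [abs_le]
  constructor
  · have := key g2 g1 h2' h1'
    rw [norm_sub_rev] at this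
    linarith
  · exact key g1 g2 h1' h2'

/-- the vertical segment -/
def vseg (x u v : ℝ) : Set ℂ := {w | w.re = x ∧ u ≤ w.im ∧ w.im ≤ v}

theorem convex_vseg (x u v : ℝ) : Convex ℝ (vseg x u v) := by
  intro w hw w' hw' α β hα hβ hab
  obtain ⟨h1, h2, h3⟩ := hw
  obtain ⟨h1', h2', h3'⟩ := hw'
  refine ⟨?_, ?_, ?_⟩
  · simp only [Complex.add_re, Complex.smul_re, smul_eq_mul, h1, h1']
    rw [← add_mul, hab, one_mul]
  · simp only [Complex.add_im, Complex.smul_im, smul_eq_mul]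
    calc u = α * u + β * u := by rw [← add_mul, hab, one_mul]
      _ ≤ α * w.im + β * w'.im := by gcongr
  · simp only [Complex.add_im, Complex.smul_im, smul_eq_mul]
    calc α * w.im + β * w'.im ≤ α * v + β * v := by gcongr
      _ = v := by rw [← add_mul, hab, one_mul]

/-- Lipschitz constant from a bound on discs -/
theorem lip_of_disc {f : ℂ → ℂ} {x u v ρ C : ℝ} (hρ : 0 < ρ)
    (hd : ∀ w ∈ vseg x u v, ∀ w' ∈ closedBall w ρ, DifferentiableAt ℂ f w')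
    (hC : ∀ w ∈ vseg x u v, ∀ w' ∈ closedBall w ρ, ‖f w'‖ ≤ C) {w1 w2 : ℂ}
    (h1 : w1 ∈ vseg x u v) (h2 : w2 ∈ vseg x u v) : ‖f w1 - f w2‖ ≤ C / ρ * ‖w1 - w2‖ := by
  apply Convex.norm_image_sub_le_of_norm_deriv_le (s := vseg x u v) (f := f) _ _ (convex_vseg x u v) h2 h1
  · intro w hw
    exact hd w hw w (mem_closedBall_self hρ.le)
  · intro w hw
    apply Complex.norm_deriv_le_of_forall_mem_sphere_norm_le hρ
    · apply DifferentiableOn.diffContOnCl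
      intro w' hw'
      rw [closure_ball w hρ.ne'] at hw'
      exact (hd w hw w' hw').differentiableWithinAt
    · intro w' hw'
      exact hC w hw w' (sphere_subset_closedBall hw')

/-- the invariant ratio -/
noncomputable def BB (X : ℤ → ℂ → ℂ) (ε : ℤ → ℂ) (w : ℂ) (k : ℤ) : ℂ :=
  ε k * (X k w * X 0 w ^ (k - 1) * X 1 w ^ (-k))

/-- hypotheses of the two-term theorem on a vertical segment -/
structure TwoTerm (X : ℤ → ℂ → ℂ) (s : Finset ℤ) (x u v ρ a m : ℝ) (M : ℤ → ℝ) : Prop where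
  diff : ∀ k, Differentiable ℂ (X k)
  one_lt : 1 < a
  rho : 0 < ρ
  nz0 : ∀ w ∈ vseg x u v, ∀ w' ∈ closedBall w ρ, X 0 w' ≠ 0
  nz1 : ∀ w ∈ vseg x u v, ∀ w' ∈ closedBall w ρ, X 1 w' ≠ 0
  bound : ∀ w ∈ vseg x u v, ∀ w' ∈ closedBall w ρ, ∀ k ∈ s, ‖X k w'‖ * ‖X 0 w'‖ ^ (k - 1) * ‖X 1 w'‖ ^ (-k) ≤ M k
  slope : ∀ w ∈ vseg x u v, m ≤ (deriv (X 1) w / X 1 w - deriv (X 0) w / X 0 w).im
  small1 : ∑ k ∈ s, (k.natAbs : ℝ) * M k * a ^ (k.natAbs + 1) < 1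
  small2 : a * (∑ k ∈ s, M k / ρ * a ^ k.natAbs) < m * (1 - ∑ k ∈ s, (k.natAbs : ℝ) * M k * a ^ (k.natAbs + 1))

theorem TwoTerm.BB_norm {X : ℤ → ℂ → ℂ} {s : Finset ℤ} {x u v ρ a m : ℝ} {M : ℤ → ℝ}
    (H : TwoTerm X s x u v ρ a m M) {ε : ℤ → ℂ} (hε : ∀ k, ‖ε k‖ = 1) {w w' : ℂ} (hw : w ∈ vseg x u v)
    (hw' : w' ∈ closedBall w ρ) {k : ℤ} (hk : k ∈ s) : ‖BB X ε w' k‖ ≤ M k := by
  unfold BB
  rw [norm_mul, hε, one_mul, norm_mul, norm_mul, norm_zpow, norm_zpow]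
  exact H.bound w hw w' hw' k hk

theorem TwoTerm.BB_diff {X : ℤ → ℂ → ℂ} {s : Finset ℤ} {x u v ρ a m : ℝ} {M : ℤ → ℝ}
    (H : TwoTerm X s x u v ρ a m M) (ε : ℤ → ℂ) {w w' : ℂ} (hw : w ∈ vseg x u v)
    (hw' : w' ∈ closedBall w ρ) (k : ℤ) : DifferentiableAt ℂ (fun w => BB X ε w k) w' := by
  unfold BB
  have h0 := H.nz0 w hw w' hw'
  have h1 := H.nz1 w hw w' hw'
  exact (((H.diff k w').mul ((H.diff 0 w').zpow (Or.inl h0))).mul ((H.diff 1 w').zpow (Or.inl h1))).const_mul _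

/-- log of the quotient decreases -/
theorem TwoTerm.mono {X : ℤ → ℂ → ℂ} {s : Finset ℤ} {x u v ρ a m : ℝ} {M : ℤ → ℝ}
    (H : TwoTerm X s x u v ρ a m M) {w1 w2 : ℂ} (h1 : w1 ∈ vseg x u v) (h2 : w2 ∈ vseg x u v)
    (h12 : w1.im ≤ w2.im) :
    m * (w2.im - w1.im) ≤ Real.log ‖X 1 w1 / X 0 w1‖ - Real.log ‖X 1 w2 / X 0 w2‖ := by
  -- f θ = log ‖X1/X0‖ (x + iθ)
  have hmem : ∀ θ ∈ Icc u v, ((x : ℂ) + (θ : ℂ) * I) ∈ vseg x u v := by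
    intro θ hθ
    refine ⟨by simp, by simpa using hθ.1, by simpa using hθ.2⟩
  have hder : ∀ θ ∈ Icc u v, HasDerivAt (fun θ : ℝ => Real.log ‖X 1 ((x : ℂ) + (θ : ℂ) * I) / X 0 ((x : ℂ) + (θ : ℂ) * I)‖)
      (-(deriv (X 1) ((x : ℂ) + (θ : ℂ) * I) / X 1 ((x : ℂ) + (θ : ℂ) * I) -
        deriv (X 0) ((x : ℂ) + (θ : ℂ) * I) / X 0 ((x : ℂ) + (θ : ℂ) * I)).im) θ := by
    intro θ hθ
    obtain ⟨w, hw⟩ : ∃ w : ℂ, w = (x : ℂ) + (θ : ℂ) * I := ⟨_, rfl⟩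
    have hws : w ∈ vseg x u v := by rw [hw]; exact hmem θ hθ
    have hn0 := H.nz0 w hws w (mem_closedBall_self H.rho.le)
    have hn1 := H.nz1 w hws w (mem_closedBall_self H.rho.le)
    have hd1 : HasDerivAt (X 1) (deriv (X 1) w) w := (H.diff 1 w).hasDerivAt
    have hd0 : HasDerivAt (X 0) (deriv (X 0) w) w := (H.diff 0 w).hasDerivAt
    have hq : HasDerivAt (fun w => X 1 w / X 0 w)
        ((deriv (X 1) w * X 0 w - X 1 w * deriv (X 0) w) / X 0 w ^ 2) w := hd1.div hd0 hn0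
    have hl : HasDerivAt (fun θ : ℝ => (x : ℂ) + (θ : ℂ) * I) I θ := by
      have := ((hasDerivAt_id (θ : ℂ)).mul_const I).const_add (x : ℂ)
      simpa using this.comp_ofReal
    have hc : HasDerivAt (fun θ : ℝ => X 1 ((x : ℂ) + (θ : ℂ) * I) / X 0 ((x : ℂ) + (θ : ℂ) * I))
        ((deriv (X 1) w * X 0 w - X 1 w * deriv (X 0) w) / X 0 w ^ 2 * I) θ := by
      have := HasDerivAt.comp (h := fun θ : ℝ => (x : ℂ) + (θ : ℂ) * I) (h₂ := fun w => X 1 w / X 0 w) θ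
        (by rw [← hw]; exact hq) hl
      exact this
    -- log norm = (1/2) log normSq
    obtain ⟨Q, hQ⟩ : ∃ Q : ℝ → ℂ, Q = fun θ : ℝ => X 1 ((x : ℂ) + (θ : ℂ) * I) / X 0 ((x : ℂ) + (θ : ℂ) * I) := ⟨_, rfl⟩
    have hQ0 : Q θ ≠ 0 := by rw [hQ]; simp only; rw [← hw]; exact div_ne_zero hn1 hn0
    have hQw : Q θ = X 1 w / X 0 w := by rw [hQ, hw]
    rw [← hQ] at hc
    have hns : HasDerivAt (fun θ => Complex.normSq (Q θ))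
        (2 * ((Q θ).re * ((deriv (X 1) w * X 0 w - X 1 w * deriv (X 0) w) / X 0 w ^ 2 * I).re +
          (Q θ).im * ((deriv (X 1) w * X 0 w - X 1 w * deriv (X 0) w) / X 0 w ^ 2 * I).im)) θ := by
      have hre : HasDerivAt (fun θ => (Q θ).re) (((deriv (X 1) w * X 0 w - X 1 w * deriv (X 0) w) / X 0 w ^ 2 * I).re) θ :=
        Complex.reCLM.hasFDerivAt.comp_hasDerivAt θ hc
      have him : HasDerivAt (fun θ => (Q θ).im) (((deriv (X 1) w * X 0 w - X 1 w * deriv (X 0) w) / X 0 w ^ 2 * I).im) θ :=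
        Complex.imCLM.hasFDerivAt.comp_hasDerivAt θ hc
      have := (hre.mul hre).add (him.mul him)
      refine (this.congr_of_eventuallyEq ?_).congr_deriv ?_
      · filter_upwards with t
        rw [Complex.normSq_apply]; rfl
      · ring
    have hlog := (hns.log (by rw [Ne, Complex.normSq_eq_zero]; exact hQ0)).const_mul (1 / 2 : ℝ)
    have e1 : (fun θ : ℝ => Real.log ‖X 1 ((x : ℂ) + (θ : ℂ) * I) / X 0 ((x : ℂ) + (θ : ℂ) * I)‖) =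
        fun θ => 1 / 2 * Real.log (Complex.normSq (Q θ)) := by
      funext t
      rw [hQ]
      simp only
      rw [Complex.normSq_eq_norm_sq, Real.log_pow]
      push_cast; ring
    rw [e1]
    refine hlog.congr_deriv ?_
    rw [← hw]
    -- Re(conj Q * Q') / |Q|^2 = Re(Q'/Q)
    obtain ⟨D, hD⟩ : ∃ D : ℂ, D = deriv (X 1) w / X 1 w - deriv (X 0) w / X 0 w := ⟨_, rfl⟩
    have e2 : (deriv (X 1) w * X 0 w - X 1 w * deriv (X 0) w) / X 0 w ^ 2 * I = Q θ * (D * I) := by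
      rw [hQw, hD]; field_simp
    rw [e2, ← hD]
    have hnq : Complex.normSq (Q θ) ≠ 0 := by rw [Ne, Complex.normSq_eq_zero]; exact hQ0
    have e3 : 2 * ((Q θ).re * (Q θ * (D * I)).re + (Q θ).im * (Q θ * (D * I)).im) =
        (2 * (-D.im)) * Complex.normSq (Q θ) := by
      rw [Complex.normSq_apply]
      simp only [Complex.mul_re, Complex.mul_im, Complex.I_re, Complex.I_im]
      ring
    rw [e3, mul_div_assoc, div_self hnq]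
    ring
  -- mean value
  have key := Convex.mul_sub_le_image_sub_of_le_deriv (D := Icc u v)
    (f := fun θ : ℝ => -Real.log ‖X 1 ((x : ℂ) + (θ : ℂ) * I) / X 0 ((x : ℂ) + (θ : ℂ) * I)‖) (C := m)
    (convex_Icc u v) ?_ ?_ ?_ w1.im ⟨h1.2.1, h1.2.2⟩ w2.im ⟨h2.2.1, h2.2.2⟩ h12
  · have e1 : (x : ℂ) + (w1.im : ℂ) * I = w1 := by
      rw [← h1.1]; exact Complex.re_add_im w1
    have e2 : (x : ℂ) + (w2.im : ℂ) * I = w2 := by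
      rw [← h2.1]; exact Complex.re_add_im w2
    rw [e1, e2] at key
    linarith
  · intro θ hθ
    exact (hder θ hθ).neg.continuousAt.continuousWithinAt
  · intro θ hθ
    rw [interior_Icc] at hθ
    exact (hder θ (Ioo_subset_Icc_self hθ)).neg.differentiableAt.differentiableWithinAt
  · intro θ hθ
    rw [interior_Icc] at hθ
    have hn : HasDerivAt (fun θ : ℝ => -Real.log ‖X 1 ((x : ℂ) + (θ : ℂ) * I) / X 0 ((x : ℂ) + (θ : ℂ) * I)‖) _ θ :=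
      (hder θ (Ioo_subset_Icc_self hθ)).neg
    rw [hn.deriv, neg_neg]
    exact H.slope _ (hmem θ (Ioo_subset_Icc_self hθ))


theorem TwoTerm.M_nonneg {X : ℤ → ℂ → ℂ} {s : Finset ℤ} {x u v ρ a m : ℝ} {M : ℤ → ℝ}
    (H : TwoTerm X s x u v ρ a m M) {w : ℂ} (hw : w ∈ vseg x u v) {k : ℤ} (hk : k ∈ s) : 0 ≤ M k := by
  refine le_trans ?_ (H.bound w hw w (mem_closedBall_self H.rho.le) k hk)
  positivity

theorem TwoTerm.core1 {X : ℤ → ℂ → ℂ} {s : Finset ℤ} {x u v ρ a m : ℝ} {M : ℤ → ℝ}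
    (H : TwoTerm X s x u v ρ a m M) {ε : ℤ → ℂ} (hε : ∀ k, ‖ε k‖ = 1) {w1 w2 g1 g2 : ℂ}
    (h1 : w1 ∈ vseg x u v) (h2 : w2 ∈ vseg x u v)
    (a1 : ‖g1‖ ≤ a) (a1' : a⁻¹ ≤ ‖g1‖) (a2 : ‖g2‖ ≤ a) (a2' : a⁻¹ ≤ ‖g2‖) :
    ‖g1 - g2‖ * (1 - ∑ k ∈ s, (k.natAbs : ℝ) * M k * a ^ (k.natAbs + 1)) ≤
      ‖w1 - w2‖ * (∑ k ∈ s, M k / ρ * a ^ k.natAbs) + ‖resid s (BB X ε w1) g1‖ + ‖resid s (BB X ε w2) g2‖ := by
  apply two_point H.one_lt.le a1 a1' a2 a2'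
  · intro k hk
    exact H.BB_norm hε h1 (mem_closedBall_self H.rho.le) hk
  · intro k hk
    exact lip_of_disc (f := fun w => BB X ε w k) H.rho (fun w hw w' hw' => H.BB_diff ε hw hw' k)
      (fun w hw w' hw' => H.BB_norm hε hw hw' hk) h1 h2

theorem vseg_norm_sub {x u v : ℝ} {w1 w2 : ℂ} (h1 : w1 ∈ vseg x u v) (h2 : w2 ∈ vseg x u v) :
    ‖w1 - w2‖ = |w1.im - w2.im| := by
  have e : w1 - w2 = ((w1.im - w2.im : ℝ) : ℂ) * I := by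
    apply Complex.ext
    · simp [h1.1, h2.1]
    · simp
  rw [e, norm_mul, Complex.norm_I, mul_one, Complex.norm_real, Real.norm_eq_abs]

theorem TwoTerm.core2 {X : ℤ → ℂ → ℂ} {s : Finset ℤ} {x u v ρ a m : ℝ} {M : ℤ → ℝ}
    (H : TwoTerm X s x u v ρ a m M) {w1 w2 d1 d2 : ℂ} (hd1 : ‖d1‖ = 1) (hd2 : ‖d2‖ = 1)
    (h1 : w1 ∈ vseg x u v) (h2 : w2 ∈ vseg x u v)
    (a1' : a⁻¹ ≤ ‖d1 * (X 1 w1 / X 0 w1)‖) (a2' : a⁻¹ ≤ ‖d2 * (X 1 w2 / X 0 w2)‖) :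
    m * ‖w1 - w2‖ ≤ a * ‖d1 * (X 1 w1 / X 0 w1) - d2 * (X 1 w2 / X 0 w2)‖ := by
  have ha0 : 0 < a := by linarith [H.one_lt]
  refine le_trans ?_ (log_norm_lip ha0 a1' a2')
  rw [norm_mul, norm_mul, hd1, hd2, one_mul, one_mul, vseg_norm_sub h1 h2]
  rcases le_total w1.im w2.im with h | h
  · have := H.mono h1 h2 h
    rw [abs_sub_comm, abs_of_nonneg (by linarith : 0 ≤ w2.im - w1.im)]
    exact this.trans (le_abs_self _)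
  · have := H.mono h2 h1 h
    rw [abs_sub_comm (Real.log _), abs_of_nonneg (by linarith : 0 ≤ w1.im - w2.im)]
    exact this.trans (le_abs_self _)

/-- the main inequality: the residual grows linearly -/
theorem TwoTerm.core {X : ℤ → ℂ → ℂ} {s : Finset ℤ} {x u v ρ a m : ℝ} {M : ℤ → ℝ}
    (H : TwoTerm X s x u v ρ a m M) : ∃ c₀ : ℝ, 0 < c₀ ∧ ∀ {ε : ℤ → ℂ}, (∀ k, ‖ε k‖ = 1) →
    ∀ {w1 w2 d1 d2 : ℂ}, ‖d1‖ = 1 → ‖d2‖ = 1 → w1 ∈ vseg x u v → w2 ∈ vseg x u v →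
    ‖d1 * (X 1 w1 / X 0 w1)‖ ≤ a → a⁻¹ ≤ ‖d1 * (X 1 w1 / X 0 w1)‖ →
    ‖d2 * (X 1 w2 / X 0 w2)‖ ≤ a → a⁻¹ ≤ ‖d2 * (X 1 w2 / X 0 w2)‖ →
    c₀ * ‖w1 - w2‖ ≤ ‖resid s (BB X ε w1) (d1 * (X 1 w1 / X 0 w1))‖ +
      ‖resid s (BB X ε w2) (d2 * (X 1 w2 / X 0 w2))‖ := by
  obtain ⟨lam, hlam⟩ : ∃ lam : ℝ, lam = ∑ k ∈ s, (k.natAbs : ℝ) * M k * a ^ (k.natAbs + 1) := ⟨_, rfl⟩
  obtain ⟨mu, hmu⟩ : ∃ mu : ℝ, mu = ∑ k ∈ s, M k / ρ * a ^ k.natAbs := ⟨_, rfl⟩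
  have ha0 : 0 < a := by linarith [H.one_lt]
  have hs1 := H.small1
  have hs2 := H.small2
  rw [← hlam] at hs1
  rw [← hlam, ← hmu] at hs2
  refine ⟨(m * (1 - lam) - a * mu) / a, div_pos (by linarith) ha0, ?_⟩
  intro ε hε w1 w2 d1 d2 hd1 hd2 h1 h2 a1 a1' a2 a2'
  have k1 := H.core1 hε h1 h2 a1 a1' a2 a2'
  have k2 := H.core2 hd1 hd2 h1 h2 a1' a2'
  rw [← hlam, ← hmu] at k1
  rw [div_mul_eq_mul_div, div_le_iff₀ ha0]
  have k3 := mul_le_mul_of_nonneg_right k2 (show 0 ≤ 1 - lam by linarith)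
  have k4 := mul_le_mul_of_nonneg_left k1 ha0.le
  nlinarith

end Sok
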