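import Pool.Agent.Lib.MP_816dec_an.Decomp
import Pool.Agent.Lib.MP_816dec_an.TwoTerm

/-!
MP_816dec_an (A3, rows L1 + L2): simplicity and uniqueness on a circle from two-term dominance.
-/

set_option autoImplicit false

open Complex Set Filter Topology Metric

namespace Sok

/-- the invariant phase -/
noncomputable def epsk (p p' : ℤ) (b : ℕ) (k : ℤ) : ℂ := ee (-(p * p' * p' * ((k : ℝ) * (k - 1))) / (2 * b))

theorem norm_epsk (p p' : ℤ) (b : ℕ) (k : ℤ) : ‖epsk p p' b k‖ = 1 := norm_ee _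

theorem term_eq (p p' : ℤ) (b : ℕ) (j k : ℤ) {X0 X1 Xk : ℂ} (h0 : X0 ≠ 0) (h1 : X1 ≠ 0) :
    gam p p' b (j + k) * Xk = gam p p' b j * X0 * (epsk p p' b k * (Xk * X0 ^ (k - 1) * X1 ^ (-k)) *
      (gam p p' b (j + 1) / gam p p' b j * (X1 / X0)) ^ k) := by
  have hg0 := gam_ne_zero p p' b j
  have hg1 := gam_ne_zero p p' b (j + 1)
  unfold epsk
  rw [← gam_rel p p' b j k]
  rw [mul_zpow, div_zpow, div_zpow, zpow_sub₀ h0, zpow_sub₀ hg0, zpow_neg, zpow_neg, zpow_one, zpow_one]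
  have z1 : X0 ^ k ≠ 0 := zpow_ne_zero _ h0
  have z2 : X1 ^ k ≠ 0 := zpow_ne_zero _ h1
  have z3 : gam p p' b j ^ k ≠ 0 := zpow_ne_zero _ hg0
  have z4 : gam p p' b (j + 1) ^ k ≠ 0 := zpow_ne_zero _ hg1
  field_simp

/-- the total of a valley -/
noncomputable def tot (p p' : ℤ) (b : ℕ) (X : ℤ → ℂ → ℂ) (s : Finset ℤ) (w : ℂ) (j : ℤ) : ℂ :=
  gam p p' b j * X 0 w + gam p p' b (j + 1) * X 1 w + ∑ k ∈ s, gam p p' b (j + k) * X k w

theorem tot_eq {p p' : ℤ} {b : ℕ} {X : ℤ → ℂ → ℂ} {s : Finset ℤ} {w : ℂ} (j : ℤ)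
    (h0 : X 0 w ≠ 0) (h1 : X 1 w ≠ 0) :
    tot p p' b X s w j = gam p p' b j * X 0 w * resid s (BB X (epsk p p' b) w)
      (gam p p' b (j + 1) / gam p p' b j * (X 1 w / X 0 w)) := by
  have hg0 := gam_ne_zero p p' b j
  unfold tot resid BB
  rw [mul_add, mul_add, mul_one, Finset.mul_sum]
  congr 1
  · congr 1
    field_simp
  · apply Finset.sum_congr rfl
    intro k _
    exact term_eq p p' b j k h0 h1

/-- every point of the circle lies in a window of length `2π/b` of some valley -/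
theorem exists_pt (p : ℤ) {b : ℕ} (hb : 0 < b) (x θ0 : ℝ) {z : ℂ} (hz : ‖z‖ = Real.exp x) :
    ∃ (j : ℤ) (w : ℂ), w ∈ vseg x θ0 (θ0 + 2 * Real.pi / b) ∧ z = pt p b w j := by
  have hb' : (b : ℝ) ≠ 0 := by positivity
  obtain ⟨h, hh⟩ : ∃ h : ℝ, h = 2 * Real.pi / b := ⟨_, rfl⟩
  have hh0 : 0 < h := by rw [hh]; positivity
  obtain ⟨φ, hφ⟩ : ∃ φ : ℝ, φ = z.arg := ⟨_, rfl⟩
  obtain ⟨j, hj⟩ : ∃ j : ℤ, j = ⌈(θ0 - φ) / h - eps p b⌉ := ⟨_, rfl⟩
  obtain ⟨θ, hθ⟩ : ∃ θ : ℝ, θ = φ + h * (j + eps p b) := ⟨_, rfl⟩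
  have hj1 : (θ0 - φ) / h - eps p b ≤ j := by rw [hj]; exact Int.le_ceil _
  have hj2 : (j : ℝ) < (θ0 - φ) / h - eps p b + 1 := by rw [hj]; exact Int.ceil_lt_add_one _
  refine ⟨j, (x : ℂ) + (θ : ℂ) * I, ⟨by simp, ?_, ?_⟩, ?_⟩
  · simp only [Complex.add_im, Complex.ofReal_im, Complex.mul_im, Complex.ofReal_re, Complex.I_im, Complex.I_re]
    have : (θ0 - φ) / h ≤ j + eps p b := by linarith
    rw [div_le_iff₀ hh0] at this
    rw [hθ]; nlinarith
  · simp only [Complex.add_im, Complex.ofReal_im, Complex.mul_im, Complex.ofReal_re, Complex.I_im, Complex.I_re]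
    have : (j : ℝ) + eps p b - 1 < (θ0 - φ) / h := by linarith
    rw [lt_div_iff₀ hh0] at this
    rw [hθ, ← hh]; nlinarith
  · unfold pt ee
    rw [← Complex.exp_add]
    have e1 : z = Complex.exp ((x : ℂ) + (φ : ℂ) * I) := by
      rw [Complex.exp_add, ← Complex.ofReal_exp, ← hz, hφ, Complex.norm_mul_exp_arg_mul_I]
    rw [e1]
    congr 1
    rw [hθ, hh]
    have hbc : (b : ℂ) ≠ 0 := by exact_mod_cast hb.ne'
    push_cast
    field_simp
    ring

theorem hasDerivAt_pt (p : ℤ) (b : ℕ) (j : ℤ) (w : ℂ) : HasDerivAt (fun w => pt p b w j) (pt p b w j) w := by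
  unfold pt
  exact (Complex.hasDerivAt_exp w).mul_const _

/-- MAIN: two-term dominance implies simplicity and distinct moduli on the circle `|z| = e^x`. -/
theorem valley_unique {p p' : ℤ} {b : ℕ} (hb : 0 < b) (hp : (b : ℤ) ∣ p * p' - 1) {q c : ℂ} (hq : ‖q‖ ≤ 1)
    (hc : c ≠ 0) {X : ℤ → ℂ → ℂ} {s : Finset ℤ}
    (hF : ∀ w j, F q (pt p b w j) = c * tot p p' b X s w j)
    {x θ0 u v ρ a m η : ℝ} {M : ℤ → ℝ} (huv : u < v) (H : TwoTerm X s x u v ρ a m M)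
    (hη : 1 < a * (1 - η))
    (hdom : ∀ w ∈ vseg x θ0 (θ0 + 2 * Real.pi / b), (X 0 w ≠ 0 ∨ X 1 w ≠ 0) ∧
      ∑ k ∈ s, ‖X k w‖ ≤ η * max ‖X 0 w‖ ‖X 1 w‖)
    (hloc : ∀ w ∈ vseg x θ0 (θ0 + 2 * Real.pi / b), X 0 w ≠ 0 → X 1 w ≠ 0 → ‖X 1 w / X 0 w‖ ≤ a →
      a⁻¹ ≤ ‖X 1 w / X 0 w‖ → w ∈ vseg x u v) :
    (∀ z, ‖z‖ = Real.exp x → F q z = 0 → deriv (F q) z ≠ 0) ∧
    (∀ z z', ‖z‖ = Real.exp x → ‖z'‖ = Real.exp x → F q z = 0 → F q z' = 0 → z = z') := by
  have ha0 : 0 < a := by linarith [H.one_lt]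
  -- a zero gives a point of the inner segment with the ratio strictly inside the annulus
  have hzero : ∀ w ∈ vseg x θ0 (θ0 + 2 * Real.pi / b), ∀ j, tot p p' b X s w j = 0 →
      w ∈ vseg x u v ∧ X 0 w ≠ 0 ∧ X 1 w ≠ 0 ∧ ‖X 1 w / X 0 w‖ < a ∧ a⁻¹ < ‖X 1 w / X 0 w‖ := by
    intro w hw j hj
    obtain ⟨hne, hsum⟩ := hdom w hw
    have hg : ∀ k, ‖gam p p' b k‖ = 1 := norm_gam p p' b
    have h3 : ‖∑ k ∈ s, gam p p' b (j + k) * X k w‖ ≤ η * max ‖X 0 w‖ ‖X 1 w‖ := by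
      refine le_trans (norm_sum_le _ _) (le_trans (le_of_eq ?_) hsum)
      apply Finset.sum_congr rfl
      intro k _
      rw [norm_mul, hg, one_mul]
    have h4 : ‖X 0 w‖ ≤ ‖X 1 w‖ + η * max ‖X 0 w‖ ‖X 1 w‖ := by
      have e : gam p p' b j * X 0 w = -(gam p p' b (j + 1) * X 1 w + ∑ k ∈ s, gam p p' b (j + k) * X k w) := by
        unfold tot at hj
        linear_combination hj
      have := congrArg norm e
      rw [norm_mul, hg, one_mul, norm_neg] at this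
      have h4a := norm_add_le (gam p p' b (j + 1) * X 1 w) (∑ k ∈ s, gam p p' b (j + k) * X k w)
      rw [norm_mul, hg, one_mul] at h4a
      linarith
    have h5 : ‖X 1 w‖ ≤ ‖X 0 w‖ + η * max ‖X 0 w‖ ‖X 1 w‖ := by
      have e : gam p p' b (j + 1) * X 1 w = -(gam p p' b j * X 0 w + ∑ k ∈ s, gam p p' b (j + k) * X k w) := by
        unfold tot at hj
        linear_combination hj
      have := congrArg norm e
      rw [norm_mul, hg, one_mul, norm_neg] at this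
      have h4a := norm_add_le (gam p p' b j * X 0 w) (∑ k ∈ s, gam p p' b (j + k) * X k w)
      rw [norm_mul, hg, one_mul] at h4a
      linarith
    have hmax : 0 < max ‖X 0 w‖ ‖X 1 w‖ := by
      rcases hne with h | h
      · exact lt_of_lt_of_le (norm_pos_iff.2 h) (le_max_left _ _)
      · exact lt_of_lt_of_le (norm_pos_iff.2 h) (le_max_right _ _)
    -- (1 - η) max ≤ min
    have h6 : (1 - η) * max ‖X 0 w‖ ‖X 1 w‖ ≤ ‖X 0 w‖ ∧ (1 - η) * max ‖X 0 w‖ ‖X 1 w‖ ≤ ‖X 1 w‖ := by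
      rcases le_total ‖X 0 w‖ ‖X 1 w‖ with h | h
      · rw [max_eq_right h] at h5 h4 ⊢
        constructor
        · linarith
        · nlinarith [norm_nonneg (X 1 w), norm_nonneg (X 0 w)]
      · rw [max_eq_left h] at h5 h4 ⊢
        constructor
        · nlinarith [norm_nonneg (X 1 w), norm_nonneg (X 0 w)]
        · linarith
    have h1η : 0 < 1 - η := by
      by_contra hcon
      push Not at hcon
      nlinarith
    have hX0 : 0 < ‖X 0 w‖ := lt_of_lt_of_le (mul_pos h1η hmax) h6.1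
    have hX1 : 0 < ‖X 1 w‖ := lt_of_lt_of_le (mul_pos h1η hmax) h6.2
    have hlt1 : ‖X 1 w / X 0 w‖ < a := by
      rw [norm_div, div_lt_iff₀ hX0]
      have := le_max_right ‖X 0 w‖ ‖X 1 w‖
      have h7 : a * ((1 - η) * max ‖X 0 w‖ ‖X 1 w‖) ≤ a * ‖X 0 w‖ := by gcongr; exact h6.1
      nlinarith
    have hlt2 : a⁻¹ < ‖X 1 w / X 0 w‖ := by
      rw [norm_div, lt_div_iff₀ hX0, inv_mul_lt_iff₀ ha0]
      have := le_max_left ‖X 0 w‖ ‖X 1 w‖
      have h7 : a * ((1 - η) * max ‖X 0 w‖ ‖X 1 w‖) ≤ a * ‖X 1 w‖ := by gcongr; exact h6.2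
      nlinarith
    exact ⟨hloc w hw (norm_pos_iff.1 hX0) (norm_pos_iff.1 hX1) hlt1.le hlt2.le, norm_pos_iff.1 hX0,
      norm_pos_iff.1 hX1, hlt1, hlt2⟩
  obtain ⟨c₀, hc₀, hcore⟩ := H.core
  have hd : ∀ j, ‖gam p p' b (j + 1) / gam p p' b j‖ = 1 := by
    intro j; rw [norm_div, norm_gam, norm_gam, div_one]
  have hnd : ∀ j w, ‖gam p p' b (j + 1) / gam p p' b j * (X 1 w / X 0 w)‖ = ‖X 1 w / X 0 w‖ := by
    intro j w; rw [norm_mul, hd, one_mul]
  constructor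
  · intro z hz hz0 hder
    obtain ⟨j, w, hw, rfl⟩ := exists_pt p hb x θ0 hz
    have htot : tot p p' b X s w j = 0 := by
      rw [hF] at hz0
      exact (mul_eq_zero.1 hz0).resolve_left hc
    obtain ⟨hwin, hX0, hX1, hlt1, hlt2⟩ := hzero w hw j htot
    have hR : resid s (BB X (epsk p p' b) w) (gam p p' b (j + 1) / gam p p' b j * (X 1 w / X 0 w)) = 0 := by
      rw [tot_eq j hX0 hX1] at htot
      exact (mul_eq_zero.1 htot).resolve_left (mul_ne_zero (gam_ne_zero _ _ _ _) hX0)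
    -- derivative zero
    have hfd : HasDerivAt (fun w => F q (pt p b w j)) 0 w := by
      have h1 := (hasDerivAt_F hq (pt p b w j)).comp w (hasDerivAt_pt p b j w)
      rw [deriv_F hq] at hder
      rw [hder, zero_mul] at h1
      exact h1
    have hlo := hfd.isLittleO
    obtain ⟨K, hK⟩ : ∃ K : ℝ, K = ‖c‖ * (‖X 0 w‖ / 2) * c₀ := ⟨_, rfl⟩
    have hK0 : 0 < K := by rw [hK]; have := norm_pos_iff.2 hc; have := norm_pos_iff.2 hX0; positivity
    have e1 : ∀ᶠ w' in 𝓝 w, ‖F q (pt p b w' j)‖ ≤ K / 2 * ‖w' - w‖ := by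
      have := hlo.def (half_pos hK0)
      filter_upwards [this] with w' hw'
      rw [hz0, smul_zero, sub_zero, sub_zero] at hw'
      exact hw'
    have e2 : ∀ᶠ w' in 𝓝 w, ‖X 0 w‖ / 2 < ‖X 0 w'‖ := by
      have : ContinuousAt (fun w' => ‖X 0 w'‖) w := (H.diff 0 w).continuousAt.norm
      exact this.eventually (lt_mem_nhds (by have := norm_pos_iff.2 hX0; show ‖X 0 w‖ / 2 < ‖X 0 w‖; linarith))
    have e3 : ContinuousAt (fun w' => ‖X 1 w' / X 0 w'‖) w :=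
      ((H.diff 1 w).continuousAt.div (H.diff 0 w).continuousAt hX0).norm
    have e4 : ∀ᶠ w' in 𝓝 w, ‖X 1 w' / X 0 w'‖ < a := e3.eventually (gt_mem_nhds hlt1)
    have e5 : ∀ᶠ w' in 𝓝 w, a⁻¹ < ‖X 1 w' / X 0 w'‖ := e3.eventually (lt_mem_nhds hlt2)
    obtain ⟨δ, hδ, hball⟩ := Metric.eventually_nhds_iff.1 (e1.and (e2.and (e4.and e5)))
    -- choose a neighbour
    obtain ⟨t, ht0, htδ, htmem⟩ : ∃ t : ℝ, t ≠ 0 ∧ |t| < δ ∧ u ≤ w.im + t ∧ w.im + t ≤ v := by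
      obtain ⟨τ, hτ⟩ : ∃ τ : ℝ, τ = min (δ / 2) ((v - u) / 2) := ⟨_, rfl⟩
      have hτ0 : 0 < τ := by rw [hτ]; exact lt_min (by linarith) (by linarith)
      have hτ1 : τ ≤ δ / 2 := by rw [hτ]; exact min_le_left _ _
      have hτ2 : τ ≤ (v - u) / 2 := by rw [hτ]; exact min_le_right _ _
      rcases le_total (w.im) ((u + v) / 2) with h | h
      · exact ⟨τ, hτ0.ne', by rw [abs_of_pos hτ0]; linarith, by linarith [hwin.2.1], by linarith⟩
      · exact ⟨-τ, neg_ne_zero.2 hτ0.ne',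
          by rw [abs_neg, abs_of_pos hτ0]; linarith, by linarith, by linarith [hwin.2.2]⟩
    obtain ⟨w', hw'⟩ : ∃ w' : ℂ, w' = w + (t : ℂ) * I := ⟨_, rfl⟩
    have hw'im : w'.im = w.im + t := by rw [hw']; simp
    have hw'mem : w' ∈ vseg x u v := by
      refine ⟨?_, ?_, ?_⟩
      · rw [hw']; simp [hwin.1]
      · rw [hw'im]; exact htmem.1
      · rw [hw'im]; exact htmem.2
    have hnorm : ‖w' - w‖ = |t| := by
      rw [hw']; simp
    have hdist : dist w' w < δ := by rw [dist_eq_norm, hnorm]; exact htδ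
    obtain ⟨f1, f2, f4, f5⟩ := hball hdist
    have hX0' : X 0 w' ≠ 0 := by
      intro h0
      rw [h0, norm_zero] at f2
      linarith [norm_nonneg (X 0 w)]
    have hX1' : X 1 w' ≠ 0 := by
      intro h0
      rw [h0, zero_div, norm_zero] at f5
      linarith [inv_pos.2 ha0]
    have k1 := hcore (norm_epsk p p' b) (hd j) (hd j) hwin hw'mem (by rw [hnd]; exact hlt1.le)
      (by rw [hnd]; exact hlt2.le) (by rw [hnd]; exact f4.le) (by rw [hnd]; exact f5.le)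
    rw [hR, norm_zero, zero_add, norm_sub_rev] at k1
    have k2 : ‖F q (pt p b w' j)‖ = ‖c‖ * (‖X 0 w'‖ * ‖resid s (BB X (epsk p p' b) w')
        (gam p p' b (j + 1) / gam p p' b j * (X 1 w' / X 0 w'))‖) := by
      rw [hF, tot_eq j hX0' hX1', norm_mul, norm_mul, norm_mul, norm_gam, one_mul]
    have k3 : K * ‖w' - w‖ ≤ ‖F q (pt p b w' j)‖ := by
      rw [k2, hK]
      calc ‖c‖ * (‖X 0 w‖ / 2) * c₀ * ‖w' - w‖ = ‖c‖ * ((‖X 0 w‖ / 2) * (c₀ * ‖w' - w‖)) := by ring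
        _ ≤ _ := by gcongr
    have k4 : 0 < ‖w' - w‖ := by rw [hnorm]; exact abs_pos.2 ht0
    nlinarith
  · intro z z' hz hz' hz0 hz0'
    obtain ⟨j, w, hw, rfl⟩ := exists_pt p hb x θ0 hz
    obtain ⟨j', w', hw', rfl⟩ := exists_pt p hb x θ0 hz'
    have htot : tot p p' b X s w j = 0 := by
      rw [hF] at hz0
      exact (mul_eq_zero.1 hz0).resolve_left hc
    have htot' : tot p p' b X s w' j' = 0 := by
      rw [hF] at hz0'
      exact (mul_eq_zero.1 hz0').resolve_left hc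
    obtain ⟨hwin, hX0, hX1, hlt1, hlt2⟩ := hzero w hw j htot
    obtain ⟨hwin', hX0', hX1', hlt1', hlt2'⟩ := hzero w' hw' j' htot'
    have hR : resid s (BB X (epsk p p' b) w) (gam p p' b (j + 1) / gam p p' b j * (X 1 w / X 0 w)) = 0 := by
      rw [tot_eq j hX0 hX1] at htot
      exact (mul_eq_zero.1 htot).resolve_left (mul_ne_zero (gam_ne_zero _ _ _ _) hX0)
    have hR' : resid s (BB X (epsk p p' b) w') (gam p p' b (j' + 1) / gam p p' b j' * (X 1 w' / X 0 w')) = 0 := by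
      rw [tot_eq j' hX0' hX1'] at htot'
      exact (mul_eq_zero.1 htot').resolve_left (mul_ne_zero (gam_ne_zero _ _ _ _) hX0')
    have k1 := hcore (norm_epsk p p' b) (hd j) (hd j') hwin hwin' (by rw [hnd]; exact hlt1.le)
      (by rw [hnd]; exact hlt2.le) (by rw [hnd]; exact hlt1'.le) (by rw [hnd]; exact hlt2'.le)
    rw [hR, hR', norm_zero, add_zero] at k1
    have hww : w = w' := by
      have h1 : ‖w - w'‖ ≤ 0 := by
        by_contra hcon
        push Not at hcon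
        nlinarith [mul_pos hc₀ hcon]
      exact sub_eq_zero.1 (norm_le_zero_iff.1 h1)
    subst hww
    -- equality of the ratios
    have k2 := H.core1 (norm_epsk p p' b) hwin hwin
      (g1 := gam p p' b (j + 1) / gam p p' b j * (X 1 w / X 0 w))
      (g2 := gam p p' b (j' + 1) / gam p p' b j' * (X 1 w / X 0 w))
      (by rw [hnd]; exact hlt1.le)
      (by rw [hnd]; exact hlt2.le) (by rw [hnd]; exact hlt1'.le) (by rw [hnd]; exact hlt2'.le)
    rw [hR, hR', norm_zero, add_zero, add_zero, sub_self, norm_zero, zero_mul] at k2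
    have hs1 := H.small1
    have k3 : ‖gam p p' b (j + 1) / gam p p' b j * (X 1 w / X 0 w) -
        gam p p' b (j' + 1) / gam p p' b j' * (X 1 w / X 0 w)‖ ≤ 0 := by
      by_contra hcon
      push Not at hcon
      nlinarith [mul_pos hcon (show 0 < 1 - ∑ k ∈ s, (k.natAbs : ℝ) * M k * a ^ (k.natAbs + 1) by linarith)]
    have k4 := sub_eq_zero.1 (norm_le_zero_iff.1 k3)
    have k5 := mul_right_cancel₀ (div_ne_zero hX1 hX0) k4
    exact pt_eq hb w (gam_ratio_inj hb hp k5)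

end Sok
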