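import Mathlib
import Pool.Agent.Lib.MP_816dec_an.A0Hol
import Pool.Agent.Lib.MP_816dec_an.Valley

/-!
MP_816dec_an: window decomposition.  `Rw` = everything to the right of the valley at `-π`,
`Aw` = one window, `Cw` = everything to the left of the valley at `π`.
-/

set_option autoImplicit false

open Complex Set Filter Topology MeasureTheory

namespace Sok

/-- everything to the right of the valley at `-π` -/
noncomputable def Rw (β : ℝ) (w : ℂ) : ℂ := GW β w - Cw β (w + 2 * Real.pi * I)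

theorem GW_split (β : ℝ) (w : ℂ) : GW β w = Rw β w + Cw β (w + 2 * Real.pi * I) := by
  unfold Rw; ring

theorem Cw_step {β : ℝ} (hβ : 0 < β) (w : ℂ) : Cw β w = Cw β (w + 2 * Real.pi * I) + Aw β w := by
  unfold Cw Aw
  have e1 : (w + 2 * Real.pi * I).re = w.re := by simp
  have e2 : (w + 2 * Real.pi * I).im = w.im + 2 * Real.pi := by simp
  have e3 : w.im + 2 * Real.pi - β / 2 = w.im - β / 2 + 2 * Real.pi := by ring
  rw [e1, e2, e3]
  exact CC_step hβ (Real.exp_pos _) _

theorem Rw_step {β : ℝ} (hβ : 0 < β) (w : ℂ) : Rw β w = Aw β w + Rw β (w - 2 * Real.pi * I) := by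
  unfold Rw
  have e1 : w - 2 * Real.pi * I + 2 * Real.pi * I = w := by ring
  have e2 : GW β (w - 2 * Real.pi * I) = GW β w := by
    have := GW_period β w (-1)
    have e3 : w + 2 * Real.pi * ((-1 : ℤ) : ℂ) * I = w - 2 * Real.pi * I := by push_cast; ring
    rwa [e3] at this
  rw [e1, e2, Cw_step hβ w]
  ring

theorem hasDerivAt_Rw {β : ℝ} (hβ : 0 < β) (w : ℂ) :
    HasDerivAt (Rw β) (cexp w * Rw β (w + β * I)) w := by
  have h1 := hasDerivAt_GW β w
  have h2 : HasDerivAt (fun w : ℂ => w + 2 * Real.pi * I) 1 w := (hasDerivAt_id w).add_const _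
  have h3 := (hasDerivAt_Cw hβ (w + 2 * Real.pi * I)).comp w h2
  have h4 := h1.sub h3
  have e1 : cexp (w + 2 * Real.pi * I) = cexp w := by rw [Complex.exp_add, Complex.exp_two_pi_mul_I, mul_one]
  have e2 : w + 2 * Real.pi * I + β * I = w + β * I + 2 * Real.pi * I := by ring
  refine h4.congr_deriv ?_
  unfold Rw
  rw [e1, e2]
  ring

theorem differentiable_Rw {β : ℝ} (hβ : 0 < β) : Differentiable ℂ (Rw β) :=
  fun w => (hasDerivAt_Rw hβ w).differentiableAt

theorem gam_period {p p' : ℤ} {b : ℕ} (hb : 0 < b) (hp : (b : ℤ) ∣ p * p' - 1) (j : ℤ) :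
    gam p p' b (j + b) = gam p p' b j := by
  have h1 := cc_period (p := p) hb j 1
  rw [mul_one] at h1
  have h0 := cc_zero_ne hb hp
  rw [cc_eq_gam hb hp, cc_eq_gam hb hp j] at h1
  exact mul_left_cancel₀ h0 h1

private theorem sum_shift_window {g : ℤ → ℂ} {b : ℕ} (hg : ∀ n, g (n + b) = g n) (f : ℤ → ℂ) (a : ℤ) :
    ∑ k ∈ Finset.Ico a (a + b), g k * f (k + b) = ∑ k ∈ Finset.Ico (a + b) (a + b + b), g k * f k := by
  apply Finset.sum_bij (fun (n : ℤ) _ => n + b)
  · intro n hn
    rw [Finset.mem_Ico] at hn ⊢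
    constructor <;> omega
  · intro n _ m _ h
    have h' : n + (b : ℤ) = m + b := h
    omega
  · intro m hm
    rw [Finset.mem_Ico] at hm
    exact ⟨m - b, by rw [Finset.mem_Ico]; constructor <;> omega, by ring⟩
  · intro n _
    rw [hg]

/-- the telescoping identity: from one full period of `GW` to `n + 1` periods of windows -/
theorem window_sum {β : ℝ} (hβ : 0 < β) {b : ℕ} (hb : 0 < b) {g : ℤ → ℂ} (hg : ∀ n, g (n + b) = g n)
    (w : ℂ) (a : ℤ) {n : ℕ} (hn : 1 ≤ n) :
    ∑ k ∈ Finset.Ico a (a + b), g k * GW β (w + 2 * Real.pi * k / b * I) =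
      ∑ k ∈ Finset.Ico a (a + b), g k * Rw β (w + 2 * Real.pi * k / b * I) +
      ∑ k ∈ Finset.Ico (a + b) (a + n * b), g k * Aw β (w + 2 * Real.pi * k / b * I) +
      ∑ k ∈ Finset.Ico (a + n * b) (a + n * b + b), g k * Cw β (w + 2 * Real.pi * k / b * I) := by
  have hbc : (b : ℂ) ≠ 0 := by exact_mod_cast hb.ne'
  obtain ⟨W, hW⟩ : ∃ W : ℤ → ℂ, ∀ k, W k = w + 2 * Real.pi * k / b * I := ⟨_, fun k => rfl⟩
  have hWb : ∀ k, W (k + b) = W k + 2 * Real.pi * I := by
    intro k
    rw [hW, hW]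
    push_cast
    field_simp
    ring
  simp only [← hW]
  induction n, hn using Nat.le_induction with
  | base =>
    have e1 : ∑ k ∈ Finset.Ico a (a + b), g k * GW β (W k) =
        ∑ k ∈ Finset.Ico a (a + b), g k * Rw β (W k) +
        ∑ k ∈ Finset.Ico a (a + b), g k * (fun k => Cw β (W k)) (k + b) := by
      rw [← Finset.sum_add_distrib]
      apply Finset.sum_congr rfl
      intro k _
      show _ = g k * Rw β (W k) + g k * Cw β (W (k + b))
      rw [GW_split, hWb]
      ring
    have e5 := sum_shift_window hg (fun k => Cw β (W k)) a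
    rw [e1, e5]
    simp
  | succ n hn ih =>
    rw [ih]
    have e1 : ∑ k ∈ Finset.Ico (a + n * b) (a + n * b + b), g k * Cw β (W k) =
        ∑ k ∈ Finset.Ico (a + n * b) (a + n * b + b), g k * Aw β (W k) +
        ∑ k ∈ Finset.Ico (a + n * b) (a + n * b + b), g k * (fun k => Cw β (W k)) (k + b) := by
      rw [← Finset.sum_add_distrib]
      apply Finset.sum_congr rfl
      intro k _
      show _ = g k * Aw β (W k) + g k * Cw β (W (k + b))
      rw [Cw_step hβ, hWb]
      ring
    have e2 : Finset.Ico (a + b) (a + ((n + 1 : ℕ) : ℤ) * b) =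
        Finset.Ico (a + b) (a + n * b) ∪ Finset.Ico (a + n * b) (a + n * b + b) := by
      rw [Finset.Ico_union_Ico_eq_Ico]
      · congr 1
        push_cast
        ring
      · have h1 : (1 : ℤ) ≤ n := by exact_mod_cast hn
        have h2 : (0 : ℤ) < b := by exact_mod_cast hb
        nlinarith
      · have h2 : (0 : ℤ) < b := by exact_mod_cast hb
        omega
    have e3 : Disjoint (Finset.Ico (a + b) (a + (n : ℤ) * b)) (Finset.Ico (a + n * b) (a + n * b + b)) :=
      Finset.Ico_disjoint_Ico_consecutive _ _ _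
    have e4 : a + ((n + 1 : ℕ) : ℤ) * b = a + n * b + b := by push_cast; ring
    have e5 := sum_shift_window hg (fun k => Cw β (W k)) (a + n * b)
    rw [e2, Finset.sum_union e3, e1, e5, e4]
    ring

/-- the windows: `Rw` on `[a, a+b)`, `Aw` on `[a+b, c)`, `Cw` from `c` on -/
noncomputable def XW (β : ℝ) (b : ℕ) (a c : ℤ) (k : ℤ) (w : ℂ) : ℂ :=
  if k < a + b then Rw β (w + 2 * Real.pi * k / b * I)
  else if k < c then Aw β (w + 2 * Real.pi * k / b * I)
  else Cw β (w + 2 * Real.pi * k / b * I)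

theorem XW_R {β : ℝ} {b : ℕ} {a c k : ℤ} (h : k < a + b) (w : ℂ) :
    XW β b a c k w = Rw β (w + 2 * Real.pi * k / b * I) := by rw [XW, if_pos h]

theorem XW_A {β : ℝ} {b : ℕ} {a c k : ℤ} (h : a + b ≤ k) (h' : k < c) (w : ℂ) :
    XW β b a c k w = Aw β (w + 2 * Real.pi * k / b * I) := by rw [XW, if_neg (not_lt.2 h), if_pos h']

theorem XW_C {β : ℝ} {b : ℕ} {a c k : ℤ} (h : a + b ≤ k) (h' : c ≤ k) (w : ℂ) :
    XW β b a c k w = Cw β (w + 2 * Real.pi * k / b * I) := by
  rw [XW, if_neg (not_lt.2 h), if_neg (not_lt.2 h')]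

theorem hasDerivAt_XW {β : ℝ} (hβ : 0 < β) (b : ℕ) (a c k : ℤ) (w : ℂ) :
    HasDerivAt (XW β b a c k) (cexp (w + 2 * Real.pi * k / b * I) * XW β b a c k (w + β * I)) w := by
  have h2 : HasDerivAt (fun w : ℂ => w + 2 * Real.pi * k / b * I) 1 w := (hasDerivAt_id w).add_const _
  have e2 : w + β * I + 2 * Real.pi * k / b * I = w + 2 * Real.pi * k / b * I + β * I := by ring
  rcases lt_or_ge k (a + b) with h | h
  · have e1 : XW β b a c k = Rw β ∘ fun w : ℂ => w + 2 * Real.pi * k / b * I := by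
      funext w; exact XW_R h w
    have h3 := (hasDerivAt_Rw hβ (w + 2 * Real.pi * k / b * I)).comp w h2
    rw [← e1] at h3
    rw [XW_R h, e2]
    exact h3.congr_deriv (by ring)
  · rcases lt_or_ge k c with h' | h'
    · have e1 : XW β b a c k = Aw β ∘ fun w : ℂ => w + 2 * Real.pi * k / b * I := by
        funext w; exact XW_A h h' w
      have h3 := (hasDerivAt_Aw hβ (w + 2 * Real.pi * k / b * I)).comp w h2
      rw [← e1] at h3
      rw [XW_A h h', e2]
      exact h3.congr_deriv (by ring)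
    · have e1 : XW β b a c k = Cw β ∘ fun w : ℂ => w + 2 * Real.pi * k / b * I := by
        funext w; exact XW_C h h' w
      have h3 := (hasDerivAt_Cw hβ (w + 2 * Real.pi * k / b * I)).comp w h2
      rw [← e1] at h3
      rw [XW_C h h', e2]
      exact h3.congr_deriv (by ring)

theorem differentiable_XW {β : ℝ} (hβ : 0 < β) (b : ℕ) (a c k : ℤ) : Differentiable ℂ (XW β b a c k) :=
  fun w => (hasDerivAt_XW hβ b a c k w).differentiableAt

/-- the form needed by `valley_unique` -/
theorem F_windows {p p' : ℤ} {b : ℕ} (hb : 0 < b) (hp : (b : ℤ) ∣ p * p' - 1) {β : ℝ} (hβ : 0 < β)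
    {a : ℤ} {n : ℕ} (hn : 1 ≤ n) (ha : a ≤ 0) (ha1 : 1 < a + n * b + b) (w : ℂ) (j : ℤ) :
    F (ee (p / b) * Complex.exp (β * I)) (pt p b w j) =
      cc p b 0 * tot p p' b (XW β b a (a + n * b))
        (((Finset.Ico a (a + n * b + b)).erase 0).erase 1) w j := by
  have hbz : (0 : ℤ) < b := by exact_mod_cast hb
  have hnz : (1 : ℤ) ≤ n := by exact_mod_cast hn
  have hnb : (b : ℤ) ≤ n * b := by nlinarith
  rw [F_valley hb hp β w j a]
  congr 1
  have hper : ∀ k : ℤ, (fun k => gam p p' b (j + k)) (k + b) = (fun k => gam p p' b (j + k)) k := by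
    intro k
    show gam p p' b (j + (k + b)) = gam p p' b (j + k)
    rw [← add_assoc, gam_period hb hp]
  have h1 := window_sum hβ hb (g := fun k => gam p p' b (j + k)) hper w a hn
  rw [h1]
  have hmem0 : (0 : ℤ) ∈ Finset.Ico a (a + n * b + b) := by
    rw [Finset.mem_Ico]; constructor <;> omega
  have hmem1 : (1 : ℤ) ∈ (Finset.Ico a (a + n * b + b)).erase 0 := by
    rw [Finset.mem_erase, Finset.mem_Ico]; refine ⟨by norm_num, ?_, ?_⟩ <;> omega
  unfold tot
  have h2 := Finset.add_sum_erase _ (fun k => gam p p' b (j + k) * XW β b a (a + n * b) k w) hmem0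
  have h3 := Finset.add_sum_erase _ (fun k => gam p p' b (j + k) * XW β b a (a + n * b) k w) hmem1
  simp only [add_zero] at h2
  have e0 : ∀ x y z : ℂ, x + y + z = x + (y + z) := fun x y z => add_assoc x y z
  rw [e0 (gam p p' b j * XW β b a (a + n * b) 0 w), h3, h2]
  have e1 : Finset.Ico a (a + n * b + b) = (Finset.Ico a (a + b) ∪ Finset.Ico (a + b) (a + n * b)) ∪
      Finset.Ico (a + n * b) (a + n * b + b) := by
    rw [Finset.Ico_union_Ico_eq_Ico (by omega) (by omega), Finset.Ico_union_Ico_eq_Ico (by omega) (by omega)]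
  have d1 : Disjoint (Finset.Ico a (a + (b : ℤ)) ∪ Finset.Ico (a + b) (a + n * b))
      (Finset.Ico (a + n * b) (a + n * b + b)) := by
    rw [Finset.Ico_union_Ico_eq_Ico (by omega) (by omega)]
    exact Finset.Ico_disjoint_Ico_consecutive _ _ _
  have d2 : Disjoint (Finset.Ico a (a + (b : ℤ))) (Finset.Ico (a + b) (a + n * b)) :=
    Finset.Ico_disjoint_Ico_consecutive _ _ _
  rw [e1, Finset.sum_union d1, Finset.sum_union d2]
  congr 1
  · congr 1
    · apply Finset.sum_congr rfl
      intro k hk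
      rw [Finset.mem_Ico] at hk
      rw [XW_R hk.2]
    · apply Finset.sum_congr rfl
      intro k hk
      rw [Finset.mem_Ico] at hk
      rw [XW_A hk.1 hk.2]
  · apply Finset.sum_congr rfl
    intro k hk
    rw [Finset.mem_Ico] at hk
    rw [XW_C (by omega) hk.1]

end Sok
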