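import Mathlib
import Pool.Agent.Lib.MP_816dec_an.A0Win

/-!
MP_816dec_an: modulus bounds of the window functions along L-shaped paths
(legs in the valleys, one horizontal line at height `v`).
-/

set_option autoImplicit false

open Complex Set Filter Topology MeasureTheory

namespace Sok

attribute [local irreducible] gs

/-- modulus of the integrand -/
noncomputable def mg (β r t S Y : ℝ) : ℝ := Real.exp ((S - t) * Y / β + r * Real.cos S * Real.exp (-Y))

theorem mg_pos (β r t S Y : ℝ) : 0 < mg β r t S Y := Real.exp_pos _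

theorem norm_gs_mg (β r t S Y : ℝ) : ‖gs β r t (S + Y * I)‖ = mg β r t S Y := norm_gs β r t S Y

theorem continuous_mg_X (β r t Y : ℝ) : Continuous fun X : ℝ => mg β r t X Y := by unfold mg; fun_prop

theorem continuous_mg_Y (β r t X : ℝ) : Continuous fun Y : ℝ => mg β r t X Y := by unfold mg; fun_prop

/-- the leg at `S` from height `v` downwards -/
noncomputable def Leg (β r t S v : ℝ) : ℝ := ∫ Y in Iic v, mg β r t S Y

/-- the horizontal piece at height `v` -/
noncomputable def Hor (β r t a b v : ℝ) : ℝ := ∫ X in a..b, mg β r t X v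

/-- the left ray at height `v` -/
noncomputable def HorL (β r t b v : ℝ) : ℝ := ∫ X in Iic b, mg β r t X v

/-- the right ray at height `v` -/
noncomputable def HorR (β r t a v : ℝ) : ℝ := ∫ X in Ioi a, mg β r t X v

theorem Leg_nonneg (β r t S v : ℝ) : 0 ≤ Leg β r t S v :=
  setIntegral_nonneg measurableSet_Iic fun _ _ => (mg_pos _ _ _ _ _).le

theorem Hor_nonneg (β r t v : ℝ) {a b : ℝ} (hab : a ≤ b) : 0 ≤ Hor β r t a b v :=
  intervalIntegral.integral_nonneg hab fun _ _ => (mg_pos _ _ _ _ _).le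

theorem HorL_nonneg (β r t b v : ℝ) : 0 ≤ HorL β r t b v :=
  setIntegral_nonneg measurableSet_Iic fun _ _ => (mg_pos _ _ _ _ _).le

theorem HorR_nonneg (β r t a v : ℝ) : 0 ≤ HorR β r t a v :=
  setIntegral_nonneg measurableSet_Ioi fun _ _ => (mg_pos _ _ _ _ _).le

theorem leg_norm_le (β r t S v : ℝ) : ‖∫ Y in Iic v, gs β r t (S + Y * I)‖ ≤ Leg β r t S v := by
  refine (norm_integral_le_integral_norm _).trans (le_of_eq ?_)
  simp only [norm_gs_mg, Leg]

theorem horL_norm_le (β r t b v : ℝ) : ‖∫ X in Iic b, gs β r t (X + v * I)‖ ≤ HorL β r t b v := by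
  refine (norm_integral_le_integral_norm _).trans (le_of_eq ?_)
  simp only [norm_gs_mg, HorL]

theorem horR_norm_le (β r t a v : ℝ) : ‖∫ X in Ioi a, gs β r t (X + v * I)‖ ≤ HorR β r t a v := by
  refine (norm_integral_le_integral_norm _).trans (le_of_eq ?_)
  simp only [norm_gs_mg, HorR]

theorem hor_norm_le (β r t v : ℝ) {a b : ℝ} (hab : a ≤ b) :
    ‖∫ X in a..b, gs β r t (X + v * I)‖ ≤ Hor β r t a b v := by
  refine (intervalIntegral.norm_integral_le_integral_norm hab).trans (le_of_eq ?_)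
  simp only [norm_gs_mg, Hor]

/-- PATH BOUND for a window -/
theorem norm_AA_path {β r t : ℝ} (hβ : 0 < β) (hr : 0 < r) {S₀ S₁ : ℝ} (h0 : InV t (-1) S₀) (h1 : InV t 0 S₁)
    (h01 : S₀ ≤ S₁) (v : ℝ) :
    ‖AA β r t‖ ≤ (Real.sqrt (2 * Real.pi * β))⁻¹ * (Leg β r t S₀ v + Hor β r t S₀ S₁ v + Leg β r t S₁ v) := by
  obtain ⟨P, hP⟩ := exists_prim (gs_diff β r t)
  obtain ⟨V, lL, lR, hV, -⟩ := exists_vals hβ hr hP
  have e1 := hV.AA0 hβ hr hP
  have e2 := hV.leg hβ hr hP h0 v
  have e3 := hV.leg hβ hr hP h1 v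
  have e4 := prim_hor (gs_diff β r t) hP S₀ S₁ v
  have e5 : AA β r t = (cF β)⁻¹ * (I * (∫ Y in Iic v, gs β r t (S₀ + Y * I)) +
      (∫ X in S₀..S₁, gs β r t (X + v * I)) - I * ∫ Y in Iic v, gs β r t (S₁ + Y * I)) := by
    rw [e2, e3, e4, eq_inv_mul_iff_mul_eq₀ (cF_ne hβ), ← e1]
    ring
  have hc : 0 ≤ (Real.sqrt (2 * Real.pi * β))⁻¹ := by positivity
  rw [e5, norm_mul, norm_inv, norm_cF]
  apply mul_le_mul_of_nonneg_left _ hc
  refine (norm_sub_le _ _).trans (add_le_add ((norm_add_le _ _).trans (add_le_add ?_ ?_)) ?_)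
  · rw [norm_mul, Complex.norm_I, one_mul]; exact leg_norm_le _ _ _ _ _
  · exact hor_norm_le _ _ _ _ h01
  · rw [norm_mul, Complex.norm_I, one_mul]; exact leg_norm_le _ _ _ _ _

/-- PATH BOUND for the left function -/
theorem norm_CC_path {β r t : ℝ} (hβ : 0 < β) (hr : 0 < r) {S : ℝ} (hS : InV t 0 S) {v : ℝ} (hv : 0 < v) :
    ‖CC β r t‖ ≤ (Real.sqrt (2 * Real.pi * β))⁻¹ * (HorL β r t S v + Leg β r t S v) := by
  obtain ⟨P, hP⟩ := exists_prim (gs_diff β r t)
  obtain ⟨V, lL, lR, hV, -⟩ := exists_vals hβ hr hP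
  have e1 := hV.CC0 hβ hr hP
  have e2 := hV.leg hβ hr hP hS v
  have e3 := hV.linel hβ hr.le hP hv S
  have e5 : CC β r t = (cF β)⁻¹ * ((∫ X in Iic S, gs β r t (X + v * I)) - I * ∫ Y in Iic v, gs β r t (S + Y * I)) := by
    rw [e2, e3, eq_inv_mul_iff_mul_eq₀ (cF_ne hβ), ← e1]
    ring
  have hc : 0 ≤ (Real.sqrt (2 * Real.pi * β))⁻¹ := by positivity
  rw [e5, norm_mul, norm_inv, norm_cF]
  apply mul_le_mul_of_nonneg_left _ hc
  refine (norm_sub_le _ _).trans (add_le_add (horL_norm_le _ _ _ _ _) ?_)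
  rw [norm_mul, Complex.norm_I, one_mul]; exact leg_norm_le _ _ _ _ _

/-- PATH BOUND for the right function -/
theorem norm_RR_path {β r t : ℝ} (hβ : 0 < β) (hr : 0 < r) {S : ℝ} (hS : InV t (-1) S) {v : ℝ} (hv : v < 0) :
    ‖Ft β r t - CC β r (t + 2 * Real.pi)‖ ≤
      (Real.sqrt (2 * Real.pi * β))⁻¹ * (Leg β r t S v + HorR β r t S v) := by
  obtain ⟨P, hP⟩ := exists_prim (gs_diff β r t)
  obtain ⟨V, lL, lR, hV, hF⟩ := exists_vals hβ hr hP
  have e1 := hV.CCj hβ hr hP (-1)
  have e2 := hV.leg hβ hr hP hS v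
  have e3 := hV.liner hβ hr.le hP hv S
  have e4 : t - 2 * Real.pi * ((-1 : ℤ) : ℝ) = t + 2 * Real.pi := by push_cast; ring
  rw [e4] at e1
  have e5 : Ft β r t - CC β r (t + 2 * Real.pi) = (cF β)⁻¹ * (I * (∫ Y in Iic v, gs β r t (S + Y * I)) +
      ∫ X in Ioi S, gs β r t (X + v * I)) := by
    have hF' : lR - lL = cF β * Ft β r t := hF
    rw [e2, e3, eq_inv_mul_iff_mul_eq₀ (cF_ne hβ), mul_sub, ← e1, ← hF']
    ring
  have hc : 0 ≤ (Real.sqrt (2 * Real.pi * β))⁻¹ := by positivity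
  rw [e5, norm_mul, norm_inv, norm_cF]
  apply mul_le_mul_of_nonneg_left _ hc
  refine (norm_add_le _ _).trans (add_le_add ?_ (horR_norm_le _ _ _ _ _))
  rw [norm_mul, Complex.norm_I, one_mul]; exact leg_norm_le _ _ _ _ _

theorem Rw_eq (β : ℝ) (w : ℂ) : Rw β w = Ft β (Real.exp w.re) (w.im - β / 2) -
    CC β (Real.exp w.re) (w.im - β / 2 + 2 * Real.pi) := by
  unfold Rw Cw GW Ft
  have e1 : (w + 2 * Real.pi * I).re = w.re := by simp
  have e2 : (w + 2 * Real.pi * I).im = w.im + 2 * Real.pi := by simp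
  have e3 : w.im + 2 * Real.pi - β / 2 = w.im - β / 2 + 2 * Real.pi := by ring
  rw [e1, e2, e3]
  congr 2
  · rw [mul_comm]
  · conv_lhs => rw [← Complex.re_add_im w]
    rw [Complex.exp_add, Complex.ofReal_exp]
    congr 2
    push_cast
    ring


/-! ### legs -/

private theorem expint_Iic {δ : ℝ} (hδ : 0 < δ) (c v : ℝ) :
    IntegrableOn (fun Y : ℝ => Real.exp (c + δ * Y)) (Iic v) ∧
      ∫ Y in Iic v, Real.exp (c + δ * Y) = Real.exp (c + δ * v) / δ := by
  have h1 : IntegrableOn (fun Y : ℝ => Real.exp c * Real.exp (δ * Y)) (Iic v) :=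
    (integrableOn_exp_mul_Iic hδ v).const_mul _
  have e1 : (fun Y : ℝ => Real.exp (c + δ * Y)) = fun Y => Real.exp c * Real.exp (δ * Y) := by
    funext Y; rw [Real.exp_add]
  rw [e1]
  refine ⟨h1, ?_⟩
  have h2 : Tendsto (fun a : ℝ => ∫ Y in a..v, Real.exp c * Real.exp (δ * Y)) atBot
      (𝓝 (∫ Y in Iic v, Real.exp c * Real.exp (δ * Y))) :=
    intervalIntegral_tendsto_integral_Iic v h1 tendsto_id
  have h3 : ∀ a : ℝ, ∫ Y in a..v, Real.exp c * Real.exp (δ * Y) =
      Real.exp (c + δ * v) / δ - Real.exp (c + δ * a) / δ := by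
    intro a
    have h4 : ∀ Y ∈ uIcc a v, HasDerivAt (fun Y : ℝ => Real.exp (c + δ * Y) / δ)
        (Real.exp c * Real.exp (δ * Y)) Y := by
      intro Y _
      have h5 : HasDerivAt (fun Y : ℝ => c + δ * Y) δ Y := by
        have := ((hasDerivAt_id Y).const_mul δ).const_add c
        simpa using this
      refine (h5.exp.div_const δ).congr_deriv ?_
      rw [Real.exp_add]
      field_simp
    rw [intervalIntegral.integral_eq_sub_of_hasDerivAt h4
      ((by fun_prop : Continuous fun Y : ℝ => Real.exp c * Real.exp (δ * Y)).intervalIntegrable _ _)]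
  simp only [h3] at h2
  have h6 : Tendsto (fun a : ℝ => Real.exp (c + δ * v) / δ - Real.exp (c + δ * a) / δ) atBot
      (𝓝 (Real.exp (c + δ * v) / δ - 0)) := by
    refine tendsto_const_nhds.sub ?_
    have h7 : Tendsto (fun a : ℝ => Real.exp (c + δ * a)) atBot (𝓝 0) := by
      refine Real.tendsto_exp_atBot.comp ?_
      exact tendsto_atBot_add_const_left _ _ ((tendsto_const_mul_atBot_of_pos hδ).2 tendsto_id)
    simpa using h7.div_const δ
  rw [sub_zero] at h6
  exact tendsto_nhds_unique h2 h6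

/-- tangent bound of the exponent on a leg -/
theorem mg_tangent {β r t S : ℝ} (hr : 0 ≤ r) (hc : Real.cos S ≤ 0) (y Y : ℝ) :
    mg β r t S Y ≤ mg β r t S y * Real.exp (((S - t) / β - r * Real.cos S * Real.exp (-y)) * (Y - y)) := by
  unfold mg
  rw [← Real.exp_add]
  apply Real.exp_le_exp.2
  have h1 : Real.exp (-y) * (1 - (Y - y)) ≤ Real.exp (-Y) := by
    have h2 := Real.add_one_le_exp (-(Y - y))
    have h3 : Real.exp (-Y) = Real.exp (-y) * Real.exp (-(Y - y)) := by rw [← Real.exp_add]; congr 1; ring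
    rw [h3]
    exact mul_le_mul_of_nonneg_left (by linarith) (Real.exp_pos _).le
  have h4 : r * Real.cos S * Real.exp (-Y) ≤ r * Real.cos S * (Real.exp (-y) * (1 - (Y - y))) :=
    mul_le_mul_of_nonpos_left h1 (mul_nonpos_of_nonneg_of_nonpos hr hc)
  have e1 : (S - t) * Y / β = (S - t) * y / β + (S - t) / β * (Y - y) := by ring
  rw [e1]
  nlinarith

theorem Leg_int {β r t S : ℝ} (hr : 0 ≤ r) (hc : Real.cos S ≤ 0) {y : ℝ}
    (hδ : 0 < (S - t) / β - r * Real.cos S * Real.exp (-y)) (v : ℝ) :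
    IntegrableOn (fun Y : ℝ => mg β r t S Y) (Iic v) := by
  obtain ⟨δ, hδd⟩ : ∃ δ : ℝ, δ = (S - t) / β - r * Real.cos S * Real.exp (-y) := ⟨_, rfl⟩
  rw [← hδd] at hδ
  have h1 := ((expint_Iic hδ (-(δ * y)) v).1).const_mul (mg β r t S y)
  refine Integrable.mono' h1 (continuous_mg_Y β r t S).aestronglyMeasurable
    (Filter.Eventually.of_forall fun Y => ?_)
  rw [Real.norm_of_nonneg (mg_pos _ _ _ _ _).le]
  refine (mg_tangent hr hc y Y).trans (le_of_eq ?_)
  rw [← hδd]
  congr 2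
  ring

/-- leg bound from the tangent at height `y` -/
theorem Leg_le_base {β r t S : ℝ} (hr : 0 ≤ r) (hc : Real.cos S ≤ 0) (y : ℝ)
    (hδ : 0 < (S - t) / β - r * Real.cos S * Real.exp (-y)) (v : ℝ) :
    Leg β r t S v ≤ mg β r t S y * Real.exp (((S - t) / β - r * Real.cos S * Real.exp (-y)) * (v - y)) /
      ((S - t) / β - r * Real.cos S * Real.exp (-y)) := by
  obtain ⟨δ, hδd⟩ : ∃ δ : ℝ, δ = (S - t) / β - r * Real.cos S * Real.exp (-y) := ⟨_, rfl⟩
  rw [← hδd] at hδ ⊢
  obtain ⟨h1, h2⟩ := expint_Iic hδ (-(δ * y)) v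
  have h3 : Leg β r t S v ≤ ∫ Y in Iic v, mg β r t S y * Real.exp (-(δ * y) + δ * Y) := by
    unfold Leg
    refine setIntegral_mono_on (Leg_int hr hc (y := y) (by rw [← hδd]; exact hδ) v) (h1.const_mul _)
      measurableSet_Iic (fun Y _ => ?_)
    refine (mg_tangent hr hc y Y).trans (le_of_eq ?_)
    rw [← hδd]
    congr 2
    ring
  refine h3.trans (le_of_eq ?_)
  rw [integral_const_mul, h2, mul_div_assoc]
  congr 3
  ring

/-- leg bound, tangent at the top -/
theorem Leg_le {β r t S v : ℝ} (hr : 0 ≤ r) (hc : Real.cos S ≤ 0)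
    (hδ : 0 < (S - t) / β - r * Real.cos S * Real.exp (-v)) :
    Leg β r t S v ≤ mg β r t S v / ((S - t) / β - r * Real.cos S * Real.exp (-v)) := by
  have h := Leg_le_base hr hc v hδ v
  simpa using h

/-- cutting a leg at height `y` -/
theorem Leg_split {β r t S : ℝ} {y v M : ℝ} (hyv : y ≤ v)
    (hi : IntegrableOn (fun Y : ℝ => mg β r t S Y) (Iic v)) (hM : ∀ Y, y ≤ Y → Y ≤ v → mg β r t S Y ≤ M) :
    Leg β r t S v ≤ Leg β r t S y + M * (v - y) := by
  have h1 : Leg β r t S v = Leg β r t S y + ∫ Y in y..v, mg β r t S Y := by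
    unfold Leg
    have h2 := intervalIntegral.integral_Iic_sub_Iic (hi.mono_set (Iic_subset_Iic.2 hyv)) hi
    linarith
  rw [h1]
  have h3 : ∫ Y in y..v, mg β r t S Y ≤ ∫ _Y in y..v, M := by
    refine intervalIntegral.integral_mono_on hyv ((continuous_mg_Y _ _ _ _).intervalIntegrable _ _) (by simp)
      (fun Y hY => hM Y hY.1 hY.2)
  rw [intervalIntegral.integral_const, smul_eq_mul] at h3
  linarith

/-- the maximum of the exponent on a leg with `cos S = -1` -/
theorem mg_le_max {β r t S : ℝ} (hβ : 0 < β) (hr : 0 < r) (hc : Real.cos S = -1) (ht : S < t) (Y : ℝ) :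
    mg β r t S Y ≤ Real.exp ((t - S) / β * (Real.log ((t - S) / (β * r)) - 1)) := by
  obtain ⟨y, hy⟩ : ∃ y : ℝ, y = -Real.log ((t - S) / (β * r)) := ⟨_, rfl⟩
  have hm : 0 < (t - S) / (β * r) := div_pos (by linarith) (by positivity)
  have e1 : Real.exp (-y) = (t - S) / (β * r) := by rw [hy, neg_neg, Real.exp_log hm]
  have h := mg_tangent (β := β) (t := t) hr.le (by rw [hc]; norm_num : Real.cos S ≤ 0) y Y
  have e2 : (S - t) / β - r * Real.cos S * Real.exp (-y) = 0 := by
    rw [hc, e1]; field_simp; ring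
  rw [e2, zero_mul, Real.exp_zero, mul_one] at h
  refine h.trans (le_of_eq ?_)
  unfold mg
  rw [hc, e1, hy]
  congr 1
  field_simp
  ring

/-! ### horizontal lines -/

/-- the line integral over one period -/
noncomputable def Hm (β r v : ℝ) : ℝ := ∫ X in (-Real.pi)..Real.pi, Real.exp (X * v / β + r * Real.cos X * Real.exp (-v))

theorem Hor_full (β r t v : ℝ) : Hor β r t (-Real.pi) Real.pi v = Real.exp (-(t * v / β)) * Hm β r v := by
  unfold Hor Hm
  rw [← intervalIntegral.integral_const_mul]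
  congr 1
  funext X
  unfold mg
  rw [← Real.exp_add]
  congr 1
  ring

private theorem mg_shift (β r t X v : ℝ) :
    mg β r t (X - 2 * Real.pi) v = Real.exp (-(2 * Real.pi * v / β)) * mg β r t X v := by
  unfold mg
  rw [Real.cos_sub_two_pi, ← Real.exp_add]
  congr 1
  ring

private theorem mg_int_left {β r t v : ℝ} (hβ : 0 < β) (hr : 0 ≤ r) (hv : 0 < v) (b : ℝ) :
    IntegrableOn (fun X : ℝ => mg β r t X v) (Iic b) := by
  have h := (gs_int_left (t := t) hβ hr hv b).norm
  simp only [norm_gs_mg] at h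
  exact h

private theorem mg_int_right {β r t v : ℝ} (hβ : 0 < β) (hr : 0 ≤ r) (hv : v < 0) (b : ℝ) :
    IntegrableOn (fun X : ℝ => mg β r t X v) (Ioi b) := by
  have h := (gs_int_right (t := t) hβ hr hv b).norm
  simp only [norm_gs_mg] at h
  exact h

theorem HorL_full {β r v : ℝ} (hβ : 0 < β) (hr : 0 ≤ r) (hv : 0 < v) (t : ℝ) :
    HorL β r t Real.pi v = Real.exp (-(t * v / β)) * Hm β r v / (1 - Real.exp (-(2 * Real.pi * v / β))) := by
  have hpi := Real.pi_pos
  have h1 : HorL β r t Real.pi v = HorL β r t (-Real.pi) v + Hor β r t (-Real.pi) Real.pi v := by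
    unfold HorL Hor
    have h2 := intervalIntegral.integral_Iic_sub_Iic (mg_int_left (t := t) hβ hr hv (-Real.pi))
      (mg_int_left (t := t) hβ hr hv Real.pi)
    linarith
  have h3 : HorL β r t (-Real.pi) v = Real.exp (-(2 * Real.pi * v / β)) * HorL β r t Real.pi v := by
    unfold HorL
    rw [← integral_const_mul]
    have h4 := (measurePreserving_sub_right (volume : Measure ℝ) (2 * Real.pi)).setIntegral_preimage_emb
      (measurableEmbedding_subRight (2 * Real.pi)) (fun X => mg β r t X v) (Iic (-Real.pi))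
    have e1 : (fun x : ℝ => x - 2 * Real.pi) ⁻¹' (Iic (-Real.pi)) = Iic Real.pi := by
      ext x
      simp only [mem_preimage, mem_Iic]
      constructor <;> intro h <;> linarith
    rw [e1] at h4
    rw [← h4]
    simp only [mg_shift]
  have h5 : Real.exp (-(2 * Real.pi * v / β)) < 1 := Real.exp_lt_one_iff.2 (by
    have : 0 < 2 * Real.pi * v / β := by positivity
    linarith)
  rw [eq_div_iff (by linarith)]
  rw [Hor_full] at h1
  nlinarith

theorem HorR_full {β r v : ℝ} (hβ : 0 < β) (hr : 0 ≤ r) (hv : v < 0) (t : ℝ) :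
    HorR β r t (-Real.pi) v = Real.exp (-(t * v / β)) * Hm β r v / (1 - Real.exp (2 * Real.pi * v / β)) := by
  have hpi := Real.pi_pos
  have h1 : HorR β r t (-Real.pi) v = HorR β r t Real.pi v + Hor β r t (-Real.pi) Real.pi v := by
    unfold HorR Hor
    have h2 := intervalIntegral.integral_Ioi_sub_Ioi (mg_int_right (t := t) hβ hr hv (-Real.pi))
      (by linarith : -Real.pi ≤ Real.pi)
    linarith
  have h3 : HorR β r t Real.pi v = Real.exp (2 * Real.pi * v / β) * HorR β r t (-Real.pi) v := by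
    unfold HorR
    rw [← integral_const_mul]
    have h4 := (measurePreserving_sub_right (volume : Measure ℝ) (2 * Real.pi)).setIntegral_preimage_emb
      (measurableEmbedding_subRight (2 * Real.pi)) (fun X => Real.exp (2 * Real.pi * v / β) * mg β r t X v)
      (Ioi (-Real.pi))
    have e1 : (fun x : ℝ => x - 2 * Real.pi) ⁻¹' (Ioi (-Real.pi)) = Ioi Real.pi := by
      ext x
      simp only [mem_preimage, mem_Ioi]
      constructor <;> intro h <;> linarith
    rw [e1] at h4
    rw [← h4]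
    refine integral_congr_ae (Filter.Eventually.of_forall fun X => ?_)
    show mg β r t X v = Real.exp (2 * Real.pi * v / β) * mg β r t (X - 2 * Real.pi) v
    rw [mg_shift, ← mul_assoc, ← Real.exp_add]
    have e2 : 2 * Real.pi * v / β + -(2 * Real.pi * v / β) = 0 := by ring
    rw [e2, Real.exp_zero, one_mul]
  have h5 : Real.exp (2 * Real.pi * v / β) < 1 := Real.exp_lt_one_iff.2 (by
    have h6 : 2 * Real.pi * v < 0 := mul_neg_of_pos_of_neg (by positivity) hv
    exact div_neg_of_neg_of_pos h6 hβ)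
  rw [eq_div_iff (by linarith)]
  rw [Hor_full] at h1
  nlinarith

end Sok
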