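import Mathlib
import Pool.Agent.Lib.MP_816dec_an.Basic
import Pool.Agent.Lib.MP_816dec_an.A0Prim
import Pool.Agent.Lib.MP_816dec_an.A0F
import Pool.Agent.Lib.MP_816dec_an.A0Val

/-!
MP_816dec_an: the valley function in Bromwich form (inverse Laplace transform in `r`).
-/

set_option autoImplicit false

open Complex Set Filter Topology MeasureTheory

namespace Sok

/-- the Bromwich integrand `l ^ (t/β - 1) exp (i log² l / (2β))` -/
noncomputable def EE (β t : ℝ) (l : ℂ) : ℂ :=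
  cexp (((t / β - 1 : ℝ) : ℂ) * Complex.log l + I / (2 * β) * (Complex.log l) ^ 2)

theorem gs_log {β : ℝ} (hβ : 0 < β) (r t : ℝ) {l : ℂ} (hl : l ≠ 0) :
    gs β r t (-I * Complex.log l) * l⁻¹ =
      cexp (-(I * t ^ 2 / (2 * β))) * (EE β t l * cexp (r * l)) := by
  have h1 : cexp (I * (-I * Complex.log l)) = l := by
    have e1 : I * (-I * Complex.log l) = Complex.log l := by
      rw [← mul_assoc, mul_neg, Complex.I_mul_I, neg_neg, one_mul]
    rw [e1, Complex.exp_log hl]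
  have h2 : l⁻¹ = cexp (-Complex.log l) := by
    rw [Complex.exp_neg, Complex.exp_log hl]
  have hb : (β : ℂ) ≠ 0 := by exact_mod_cast hβ.ne'
  rw [gs, h1, h2, EE]
  obtain ⟨L, hL⟩ : ∃ L : ℂ, L = Complex.log l := ⟨_, rfl⟩
  rw [← hL]
  have e1 : cexp (-(I * (-I * L - t) ^ 2 / (2 * β))) * cexp (r * l) * cexp (-L) =
      cexp (-(I * (-I * L - t) ^ 2 / (2 * β)) + -L) * cexp (r * l) := by
    rw [Complex.exp_add]; ring
  have e2 : cexp (-(I * t ^ 2 / (2 * β))) * (cexp (((t / β - 1 : ℝ) : ℂ) * L + I / (2 * β) * L ^ 2) *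
      cexp (r * l)) = cexp (-(I * t ^ 2 / (2 * β)) + (((t / β - 1 : ℝ) : ℂ) * L + I / (2 * β) * L ^ 2)) *
      cexp (r * l) := by
    rw [Complex.exp_add (-(I * t ^ 2 / (2 * β)))]; ring
  rw [e1, e2]
  congr 2
  push_cast
  field_simp
  have := Complex.I_sq
  linear_combination (-L ^ 2 * I - 2 * L * t) * this

theorem norm_EE (β t : ℝ) (l : ℂ) :
    ‖EE β t l‖ = Real.exp ((t / β - 1 - l.arg / β) * Real.log ‖l‖) := by
  rw [EE, Complex.norm_exp]
  congr 1
  have e1 : Complex.log l = (Real.log ‖l‖ : ℝ) + (l.arg : ℝ) * I := by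
    rw [Complex.log]
  obtain ⟨a, ha⟩ : ∃ a : ℝ, a = Real.log ‖l‖ := ⟨_, rfl⟩
  obtain ⟨b, hb⟩ : ∃ b : ℝ, b = l.arg := ⟨_, rfl⟩
  rw [e1, ← ha, ← hb]
  have e2 : ((t / β - 1 : ℝ) : ℂ) * ((a : ℂ) + b * I) + I / (2 * β) * ((a : ℂ) + b * I) ^ 2 =
      (((t / β - 1) * a - a * b / β : ℝ) : ℂ) + (((t / β - 1) * b + (a ^ 2 - b ^ 2) / (2 * β) : ℝ) : ℂ) * I := by
    push_cast
    rcases eq_or_ne (β : ℂ) 0 with h | h
    · rw [h]; simp
      ring
    · field_simp
      have := Complex.I_sq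
      linear_combination (2 * (a : ℂ) * b + I * b ^ 2) * this
  rw [e2, Complex.add_re, Complex.ofReal_re, Complex.re_ofReal_mul]
  simp
  ring

/-- the decay exponent -/
noncomputable def dl (β t : ℝ) : ℝ := -(t + Real.pi / 2) / β

theorem dl_pos {β t : ℝ} (hβ : 0 < β) (ht : t < -(Real.pi / 2)) : 0 < dl β t := by
  unfold dl
  exact div_pos (by linarith) hβ

private theorem arg_le {c : ℝ} (hc : 0 < c) (y : ℝ) : |((c : ℂ) + y * I).arg| < Real.pi / 2 := by
  rw [Complex.abs_arg_lt_pi_div_two_iff]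
  left
  simpa using hc

private theorem norm_line_sq (c y : ℝ) : ‖(c : ℂ) + y * I‖ ^ 2 = c ^ 2 + y ^ 2 := by
  rw [← Complex.normSq_eq_norm_sq, Complex.normSq_add_mul_I]

private theorem norm_line_pos {c : ℝ} (hc : 0 < c) (y : ℝ) : 0 < ‖(c : ℂ) + y * I‖ := by
  have h := norm_line_sq c y
  by_contra h0
  have h1 : ‖(c : ℂ) + y * I‖ = 0 := le_antisymm (not_lt.1 h0) (norm_nonneg _)
  rw [h1] at h
  nlinarith [sq_nonneg y]

/-- bound when `1 ≤ ‖l‖` -/
theorem EE_big {β t c : ℝ} (hβ : 0 < β) (ht : t < -(Real.pi / 2)) (hc : 0 < c) {y : ℝ}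
    (h1 : 1 ≤ ‖(c : ℂ) + y * I‖) :
    ‖EE β t ((c : ℂ) + y * I)‖ ≤ (c ^ 2 + y ^ 2) ^ (-(1 + dl β t) / 2) := by
  have hd := dl_pos hβ ht
  have hn := norm_line_pos hc y
  have h2 := arg_le hc y
  rw [norm_EE, ← norm_line_sq, ← Real.rpow_natCast, ← Real.rpow_mul hn.le]
  rw [Real.rpow_def_of_pos hn, mul_comm (Real.log _)]
  apply Real.exp_le_exp.2
  apply mul_le_mul_of_nonneg_right _ (Real.log_nonneg h1)
  rw [abs_lt] at h2
  have h3 : -(((c : ℂ) + y * I).arg / β) ≤ Real.pi / 2 / β := by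
    rw [← neg_div]
    exact div_le_div_of_nonneg_right (by linarith [h2.1]) hβ.le
  have e1 : ((2 : ℕ) : ℝ) * (-(1 + dl β t) / 2) = t / β - 1 + Real.pi / 2 / β := by
    unfold dl
    push_cast
    field_simp
    ring
  rw [e1]
  linarith

/-- bound on every vertical line -/
theorem EE_bound {β t c : ℝ} (hβ : 0 < β) (ht : t < -(Real.pi / 2)) (hc : 0 < c) :
    ∃ M : ℝ, 0 ≤ M ∧ ∀ y : ℝ, ‖EE β t ((c : ℂ) + y * I)‖ ≤ M * (1 + ‖y‖ ^ 2) ^ (-(1 + dl β t) / 2) := by
  have hd := dl_pos hβ ht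
  obtain ⟨m, hm⟩ : ∃ m : ℝ, m = min (c ^ 2) 1 := ⟨_, rfl⟩
  have hm0 : 0 < m := by rw [hm]; exact lt_min (by positivity) one_pos
  obtain ⟨K, hK⟩ : ∃ K : ℝ, K = (-(t - Real.pi / 2) / β + 1) * |Real.log c| := ⟨_, rfl⟩
  refine ⟨max (m ^ (-(1 + dl β t) / 2)) (Real.exp K * 2 ^ ((1 + dl β t) / 2)),
    le_max_of_le_left (by positivity), fun y => ?_⟩
  have hn := norm_line_pos hc y
  have hsq := norm_line_sq c y
  have hy2 : ‖y‖ ^ 2 = y ^ 2 := by rw [Real.norm_eq_abs, sq_abs]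
  rw [hy2]
  rcases le_or_gt 1 ‖(c : ℂ) + y * I‖ with h1 | h1
  · refine (EE_big hβ ht hc h1).trans ?_
    have h2 : m * (1 + y ^ 2) ≤ c ^ 2 + y ^ 2 := by
      have a1 : m ≤ c ^ 2 := by rw [hm]; exact min_le_left _ _
      have a2 : m ≤ 1 := by rw [hm]; exact min_le_right _ _
      nlinarith [sq_nonneg y]
    have h3 : (c ^ 2 + y ^ 2) ^ (-(1 + dl β t) / 2) ≤ (m * (1 + y ^ 2)) ^ (-(1 + dl β t) / 2) :=
      Real.rpow_le_rpow_of_nonpos (by positivity) h2 (by linarith)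
    rw [Real.mul_rpow hm0.le (by positivity)] at h3
    refine h3.trans ?_
    apply mul_le_mul_of_nonneg_right (le_max_left _ _) (by positivity)
  · have hcn : c ≤ ‖(c : ℂ) + y * I‖ := by
      have := Complex.abs_re_le_norm ((c : ℂ) + y * I)
      simp at this
      exact (le_abs_self c).trans this
    have hy1 : y ^ 2 ≤ 1 := by nlinarith [sq_nonneg c]
    have h2 := arg_le hc y
    rw [abs_lt] at h2
    have h3 : ‖EE β t ((c : ℂ) + y * I)‖ ≤ Real.exp K := by
      rw [norm_EE, hK]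
      apply Real.exp_le_exp.2
      have hlog : Real.log ‖(c : ℂ) + y * I‖ ≤ 0 := Real.log_nonpos hn.le h1.le
      have hlog2 : Real.log c ≤ Real.log ‖(c : ℂ) + y * I‖ := Real.log_le_log hc hcn
      have habs : |Real.log c| = -Real.log c := abs_of_nonpos (by linarith)
      have h4 : ((c : ℂ) + y * I).arg / β ≤ Real.pi / 2 / β :=
        div_le_div_of_nonneg_right (by linarith [h2.2]) hβ.le
      have h5 : -(-(t - Real.pi / 2) / β + 1) ≤ t / β - 1 - ((c : ℂ) + y * I).arg / β := by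
        have e1 : -(-(t - Real.pi / 2) / β + 1) = t / β - 1 - Real.pi / 2 / β := by ring
        rw [e1]
        linarith
      have h6 : 0 ≤ -(t - Real.pi / 2) / β + 1 := by
        have : 0 ≤ -(t - Real.pi / 2) / β := div_nonneg (by linarith [Real.pi_pos]) hβ.le
        linarith
      rw [habs]
      nlinarith
    have h7 : (2 : ℝ) ^ (-(1 + dl β t) / 2) ≤ (1 + y ^ 2) ^ (-(1 + dl β t) / 2) :=
      Real.rpow_le_rpow_of_nonpos (by positivity) (by linarith) (by linarith)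
    have h8 : (1 : ℝ) = 2 ^ ((1 + dl β t) / 2) * 2 ^ (-(1 + dl β t) / 2) := by
      rw [← Real.rpow_add two_pos]
      have : (1 + dl β t) / 2 + -(1 + dl β t) / 2 = 0 := by ring
      rw [this, Real.rpow_zero]
    calc ‖EE β t ((c : ℂ) + y * I)‖ ≤ Real.exp K := h3
      _ = Real.exp K * (2 ^ ((1 + dl β t) / 2) * 2 ^ (-(1 + dl β t) / 2)) := by rw [← h8, mul_one]
      _ ≤ Real.exp K * (2 ^ ((1 + dl β t) / 2) * (1 + y ^ 2) ^ (-(1 + dl β t) / 2)) := by gcongr
      _ = (Real.exp K * 2 ^ ((1 + dl β t) / 2)) * (1 + y ^ 2) ^ (-(1 + dl β t) / 2) := by ring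
      _ ≤ _ := by
        apply mul_le_mul_of_nonneg_right (le_max_right _ _) (by positivity)

theorem EE_bound_one {β t c : ℝ} (hβ : 0 < β) (ht : t < -(Real.pi / 2)) (hc : 1 ≤ c) (y : ℝ) :
    ‖EE β t ((c : ℂ) + y * I)‖ ≤ (1 + ‖y‖ ^ 2) ^ (-(1 + dl β t) / 2) := by
  have hd := dl_pos hβ ht
  have hy2 : ‖y‖ ^ 2 = y ^ 2 := by rw [Real.norm_eq_abs, sq_abs]
  have h1 : 1 ≤ ‖(c : ℂ) + y * I‖ := by
    have := norm_line_sq c y
    nlinarith [norm_nonneg ((c : ℂ) + y * I), sq_nonneg y]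
  rw [hy2]
  refine (EE_big hβ ht (by linarith) h1).trans ?_
  exact Real.rpow_le_rpow_of_nonpos (by positivity) (by nlinarith) (by linarith)

private theorem int_dom {β t : ℝ} (hβ : 0 < β) (ht : t < -(Real.pi / 2)) :
    Integrable (fun y : ℝ => (1 + ‖y‖ ^ 2) ^ (-(1 + dl β t) / 2)) := by
  have hd := dl_pos hβ ht
  exact integrable_rpow_neg_one_add_norm_sq (by simpa using hd)

theorem EE_cont {β t c : ℝ} (hc : 0 < c) : Continuous fun y : ℝ => EE β t ((c : ℂ) + y * I) := by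
  have h1 : Continuous fun y : ℝ => Complex.log ((c : ℂ) + y * I) := by
    apply Continuous.clog (by fun_prop)
    intro y
    left
    simpa using hc
  unfold EE
  fun_prop

theorem EE_int {β t c : ℝ} (hβ : 0 < β) (ht : t < -(Real.pi / 2)) (hc : 0 < c) :
    Integrable fun y : ℝ => EE β t ((c : ℂ) + y * I) := by
  obtain ⟨M, hM, hb⟩ := EE_bound hβ ht hc
  exact ((int_dom hβ ht).const_mul M).mono' (EE_cont hc).aestronglyMeasurable
    (Filter.Eventually.of_forall hb)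

theorem norm_exp_line (r c y : ℝ) : ‖cexp (r * ((c : ℂ) + y * I))‖ = Real.exp (r * c) := by
  rw [Complex.norm_exp]
  congr 1
  simp

theorem EEr_int {β t c : ℝ} (hβ : 0 < β) (ht : t < -(Real.pi / 2)) (hc : 0 < c) (r : ℝ) :
    Integrable fun y : ℝ => EE β t ((c : ℂ) + y * I) * cexp (r * ((c : ℂ) + y * I)) := by
  refine ((EE_int hβ ht hc).mul_bdd (c := Real.exp (r * c)) ?_ ?_)
  · exact (by fun_prop : Continuous fun y : ℝ => cexp (r * ((c : ℂ) + y * I))).aestronglyMeasurable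
  · exact Filter.Eventually.of_forall fun y => (norm_exp_line r c y).le

/-- the Bromwich integral -/
noncomputable def Br (β t c r : ℝ) : ℂ := ∫ y : ℝ, EE β t ((c : ℂ) + y * I) * cexp (r * ((c : ℂ) + y * I))

theorem norm_Br_le (β t c r : ℝ) :
    ‖Br β t c r‖ ≤ (∫ y : ℝ, ‖EE β t ((c : ℂ) + y * I)‖) * Real.exp (r * c) := by
  refine (norm_integral_le_integral_norm _).trans (le_of_eq ?_)
  rw [← integral_mul_const]
  congr 1
  funext y
  rw [norm_mul, norm_exp_line]

theorem norm_Br_le_one {β t c : ℝ} (hβ : 0 < β) (ht : t < -(Real.pi / 2)) (hc : 1 ≤ c) (r : ℝ) :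
    ‖Br β t c r‖ ≤ (∫ y : ℝ, (1 + ‖y‖ ^ 2) ^ (-(1 + dl β t) / 2)) * Real.exp (r * c) := by
  refine (norm_Br_le β t c r).trans ?_
  apply mul_le_mul_of_nonneg_right _ (Real.exp_pos _).le
  exact integral_mono (EE_int hβ ht (by linarith)).norm (int_dom hβ ht) (EE_bound_one hβ ht hc)

/-- horizontal differences -/
private theorem hor_le {β r t : ℝ} (hβ : 0 < β) {P : ℂ → ℂ} (hP : ∀ x, HasDerivAt P (gs β r t x) x)
    {S₁ S₂ Y K : ℝ} (h12 : S₁ ≤ S₂) (hY : Y ≤ 0)
    (hK : ∀ S ∈ Icc S₁ S₂, r * Real.cos S * Real.exp (-Y) ≤ K) :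
    ‖P (S₂ + Y * I) - P (S₁ + Y * I)‖ ≤ Real.exp ((S₁ - t) * Y / β + K) * (S₂ - S₁) := by
  rw [← prim_hor (gs_diff β r t) hP]
  have h1 := intervalIntegral.norm_integral_le_of_norm_le_const (a := S₁) (b := S₂)
    (f := fun X : ℝ => gs β r t (X + Y * I)) (C := Real.exp ((S₁ - t) * Y / β + K)) ?_
  · rwa [abs_of_nonneg (by linarith)] at h1
  · intro X hX
    rw [uIoc_of_le h12] at hX
    rw [norm_gs]
    apply Real.exp_le_exp.2
    have h2 := hK X ⟨hX.1.le, hX.2⟩
    have h3 : (X - t) * Y / β ≤ (S₁ - t) * Y / β := by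
      apply div_le_div_of_nonneg_right _ hβ.le
      nlinarith [hX.1]
    linarith

/-- the curve -/
private noncomputable def cu (c y : ℝ) : ℂ := -I * Complex.log ((c : ℂ) + y * I)

private theorem cu_eq (c y : ℝ) : cu c y = ((((c : ℂ) + y * I).arg : ℝ) : ℂ) +
    ((-Real.log ‖(c : ℂ) + y * I‖ : ℝ) : ℂ) * I := by
  rw [cu, Complex.log]
  push_cast
  linear_combination (-((((c : ℂ) + y * I).arg : ℝ) : ℂ)) * Complex.I_sq

private theorem curve_int {β r t c : ℝ} (hβ : 0 < β) (hc : 0 < c) {P : ℂ → ℂ}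
    (hP : ∀ x, HasDerivAt P (gs β r t x) x) (a b : ℝ) :
    cexp (-(I * t ^ 2 / (2 * β))) * ∫ y in a..b, EE β t ((c : ℂ) + y * I) * cexp (r * ((c : ℂ) + y * I)) =
      P (cu c b) - P (cu c a) := by
  rw [← intervalIntegral.integral_const_mul]
  have hne : ∀ y : ℝ, (c : ℂ) + y * I ≠ 0 := by
    intro y h
    have := norm_line_pos hc y
    rw [h] at this
    simp at this
  have hder : ∀ y ∈ uIcc a b, HasDerivAt (fun y : ℝ => P (cu c y))
      (cexp (-(I * t ^ 2 / (2 * β))) * (EE β t ((c : ℂ) + y * I) * cexp (r * ((c : ℂ) + y * I)))) y := by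
    intro y _
    have h1 : HasDerivAt (fun y : ℝ => (c : ℂ) + y * I) I y := by
      have := ((Complex.ofRealCLM.hasDerivAt (x := y)).mul_const I).const_add (c : ℂ)
      simpa using this
    have h2 : HasDerivAt (fun y : ℝ => cu c y) (-I * (I / ((c : ℂ) + y * I))) y := by
      unfold cu
      apply HasDerivAt.const_mul
      exact h1.clog_real (Or.inl (by simpa using hc))
    have h3 := HasDerivAt.comp y (hP (cu c y)) h2
    rw [← gs_log hβ r t (hne y)]
    have e0 : ∀ w : ℂ, -I * (I / w) = w⁻¹ := by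
      intro w
      rw [← mul_div_assoc, neg_mul, Complex.I_mul_I, neg_neg, one_div]
    rw [e0] at h3
    exact h3
  have hcont : IntervalIntegrable (fun y : ℝ => cexp (-(I * t ^ 2 / (2 * β))) *
      (EE β t ((c : ℂ) + y * I) * cexp (r * ((c : ℂ) + y * I)))) volume a b := by
    apply Continuous.intervalIntegrable
    have := EE_cont (β := β) (t := t) hc
    fun_prop
  exact intervalIntegral.integral_eq_sub_of_hasDerivAt hder hcont

private theorem norm_line_atTop (c : ℝ) : Tendsto (fun y : ℝ => ‖(c : ℂ) + y * I‖) atTop atTop := by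
  refine tendsto_atTop_mono (fun y => ?_) tendsto_id
  have := Complex.abs_im_le_norm ((c : ℂ) + y * I)
  simp at this
  exact (le_abs_self y).trans this

private theorem norm_line_atBot (c : ℝ) : Tendsto (fun y : ℝ => ‖(c : ℂ) + y * I‖) atBot atTop := by
  refine tendsto_atTop_mono (fun y => ?_) tendsto_neg_atBot_atTop
  have := Complex.abs_im_le_norm ((c : ℂ) + y * I)
  simp at this
  exact (neg_le_abs y).trans this

/-- the horizontal bound `r cos S e^{-Y} ≤ |r| c` between `arg` and the vertical -/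
private theorem hK_right {r c y : ℝ} (hc : 0 < c) (hy : 0 ≤ y) : ∀ S ∈ Icc ((c : ℂ) + y * I).arg (Real.pi / 2),
    r * Real.cos S * Real.exp (-(-Real.log ‖(c : ℂ) + y * I‖)) ≤ |r| * c := by
  intro S hS
  have hn := norm_line_pos hc y
  rw [neg_neg, Real.exp_log hn]
  have h0 : 0 ≤ ((c : ℂ) + y * I).arg := Complex.arg_nonneg_iff.2 (by simpa using hy)
  have h1 : Real.cos S ≤ Real.cos ((c : ℂ) + y * I).arg :=
    Real.cos_le_cos_of_nonneg_of_le_pi h0 (by linarith [hS.2, Real.pi_pos]) hS.1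
  have h2 : 0 ≤ Real.cos S := Real.cos_nonneg_of_neg_pi_div_two_le_of_le
    (by linarith [hS.1, Real.pi_pos]) hS.2
  have hne : (c : ℂ) + y * I ≠ 0 := by
    intro h
    rw [h] at hn
    simp at hn
  have h3 : Real.cos ((c : ℂ) + y * I).arg * ‖(c : ℂ) + y * I‖ = c := by
    rw [Complex.cos_arg hne, div_mul_cancel₀ _ hn.ne']
    simp
  have h4 : r * Real.cos S ≤ |r| * Real.cos ((c : ℂ) + y * I).arg := by
    calc r * Real.cos S ≤ |r| * Real.cos S := mul_le_mul_of_nonneg_right (le_abs_self r) h2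
      _ ≤ _ := mul_le_mul_of_nonneg_left h1 (abs_nonneg r)
  calc r * Real.cos S * ‖(c : ℂ) + y * I‖ ≤ |r| * Real.cos ((c : ℂ) + y * I).arg * ‖(c : ℂ) + y * I‖ :=
        mul_le_mul_of_nonneg_right h4 hn.le
    _ = |r| * c := by rw [mul_assoc, h3]

private theorem hK_left {r c y : ℝ} (hc : 0 < c) (hy : y ≤ 0) : ∀ S ∈ Icc (-(Real.pi / 2)) ((c : ℂ) + y * I).arg,
    r * Real.cos S * Real.exp (-(-Real.log ‖(c : ℂ) + y * I‖)) ≤ |r| * c := by
  intro S hS
  have hn := norm_line_pos hc y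
  rw [neg_neg, Real.exp_log hn]
  have h0 : ((c : ℂ) + y * I).arg ≤ 0 := by
    rcases eq_or_lt_of_le hy with h | h
    · rw [h]
      have : ((c : ℂ) + ((0 : ℝ) : ℂ) * I).arg = 0 := by
        rw [Complex.ofReal_zero, zero_mul, add_zero]
        exact Complex.arg_ofReal_of_nonneg hc.le
      rw [this]
    · exact (Complex.arg_neg_iff.2 (by simpa using h)).le
  have h1 : Real.cos S ≤ Real.cos ((c : ℂ) + y * I).arg := by
    rw [← Real.cos_neg S, ← Real.cos_neg (((c : ℂ) + y * I).arg)]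
    exact Real.cos_le_cos_of_nonneg_of_le_pi (by linarith) (by linarith [hS.1, Real.pi_pos]) (by linarith [hS.2])
  have h2 : 0 ≤ Real.cos S := Real.cos_nonneg_of_neg_pi_div_two_le_of_le hS.1
    (by linarith [hS.2, Real.pi_pos])
  have hne : (c : ℂ) + y * I ≠ 0 := by
    intro h
    rw [h] at hn
    simp at hn
  have h3 : Real.cos ((c : ℂ) + y * I).arg * ‖(c : ℂ) + y * I‖ = c := by
    rw [Complex.cos_arg hne, div_mul_cancel₀ _ hn.ne']
    simp
  have h4 : r * Real.cos S ≤ |r| * Real.cos ((c : ℂ) + y * I).arg := by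
    calc r * Real.cos S ≤ |r| * Real.cos S := mul_le_mul_of_nonneg_right (le_abs_self r) h2
      _ ≤ _ := mul_le_mul_of_nonneg_left h1 (abs_nonneg r)
  calc r * Real.cos S * ‖(c : ℂ) + y * I‖ ≤ |r| * Real.cos ((c : ℂ) + y * I).arg * ‖(c : ℂ) + y * I‖ :=
        mul_le_mul_of_nonneg_right h4 hn.le
    _ = |r| * c := by rw [mul_assoc, h3]

/-- right end of the curve against the vertical line at `π/2` -/
private theorem end_right {β r t c : ℝ} (hβ : 0 < β) (ht : t < -(Real.pi / 2)) (hc : 0 < c) {P : ℂ → ℂ}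
    (hP : ∀ x, HasDerivAt P (gs β r t x) x) :
    Tendsto (fun y : ℝ => P (((Real.pi / 2 : ℝ) : ℂ) + ((-Real.log ‖(c : ℂ) + y * I‖ : ℝ) : ℂ) * I) - P (cu c y))
      atTop (𝓝 0) := by
  have hpi := Real.pi_pos
  have h2 : Tendsto (fun y : ℝ => Real.exp ((-t / β) * (-Real.log ‖(c : ℂ) + y * I‖) + |r| * c) * (Real.pi / 2))
      atTop (𝓝 0) := by
    have h3 : Tendsto (fun y : ℝ => -Real.log ‖(c : ℂ) + y * I‖) atTop atBot :=
      tendsto_neg_atTop_atBot.comp (Real.tendsto_log_atTop.comp (norm_line_atTop c))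
    have h4 : Tendsto (fun y : ℝ => (-t / β) * (-Real.log ‖(c : ℂ) + y * I‖) + |r| * c) atTop atBot :=
      tendsto_atBot_add_const_right _ _ (h3.const_mul_atBot (div_pos (by linarith) hβ))
    have h5 := (Real.tendsto_exp_atBot.comp h4).mul_const (Real.pi / 2)
    simpa using h5
  refine squeeze_zero_norm' ?_ h2
  filter_upwards [(norm_line_atTop c).eventually_ge_atTop 1, eventually_ge_atTop (0 : ℝ)] with y h1 hy
  have h3 := arg_le hc y
  rw [abs_lt] at h3
  have h0 : 0 ≤ ((c : ℂ) + y * I).arg := Complex.arg_nonneg_iff.2 (by simpa using hy)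
  have hlog := Real.log_nonneg h1
  have h4 := hor_le hβ hP (Y := -Real.log ‖(c : ℂ) + y * I‖) h3.2.le (by linarith) (hK_right (r := r) hc hy)
  rw [cu_eq]
  refine h4.trans ?_
  apply mul_le_mul _ (by linarith) (by linarith) (Real.exp_pos _).le
  apply Real.exp_le_exp.2
  have e1 : (((c : ℂ) + y * I).arg - t) * -Real.log ‖(c : ℂ) + y * I‖ / β =
      (-t / β) * (-Real.log ‖(c : ℂ) + y * I‖) - ((c : ℂ) + y * I).arg * Real.log ‖(c : ℂ) + y * I‖ / β := by ring
  have h5 : 0 ≤ ((c : ℂ) + y * I).arg * Real.log ‖(c : ℂ) + y * I‖ / β :=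
    div_nonneg (mul_nonneg h0 hlog) hβ.le
  linarith

private theorem end_left {β r t c : ℝ} (hβ : 0 < β) (ht : t < -(Real.pi / 2)) (hc : 0 < c) {P : ℂ → ℂ}
    (hP : ∀ x, HasDerivAt P (gs β r t x) x) :
    Tendsto (fun y : ℝ => P (cu c y) - P (((-(Real.pi / 2) : ℝ) : ℂ) +
      ((-Real.log ‖(c : ℂ) + y * I‖ : ℝ) : ℂ) * I)) atBot (𝓝 0) := by
  have hpi := Real.pi_pos
  have h2 : Tendsto (fun y : ℝ => Real.exp (((-(Real.pi / 2) - t) / β) * (-Real.log ‖(c : ℂ) + y * I‖) + |r| * c)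
      * (Real.pi / 2)) atBot (𝓝 0) := by
    have h3 : Tendsto (fun y : ℝ => -Real.log ‖(c : ℂ) + y * I‖) atBot atBot :=
      tendsto_neg_atTop_atBot.comp (Real.tendsto_log_atTop.comp (norm_line_atBot c))
    have h4 : Tendsto (fun y : ℝ => ((-(Real.pi / 2) - t) / β) * (-Real.log ‖(c : ℂ) + y * I‖) + |r| * c)
        atBot atBot :=
      tendsto_atBot_add_const_right _ _ (h3.const_mul_atBot (div_pos (by linarith) hβ))
    have h5 := (Real.tendsto_exp_atBot.comp h4).mul_const (Real.pi / 2)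
    simpa using h5
  refine squeeze_zero_norm' ?_ h2
  filter_upwards [(norm_line_atBot c).eventually_ge_atTop 1, eventually_le_atBot (0 : ℝ)] with y h1 hy
  have h3 := arg_le hc y
  rw [abs_lt] at h3
  have h0 : ((c : ℂ) + y * I).arg ≤ 0 := by
    rcases eq_or_lt_of_le hy with h | h
    · rw [h]
      have : ((c : ℂ) + ((0 : ℝ) : ℂ) * I).arg = 0 := by
        rw [Complex.ofReal_zero, zero_mul, add_zero]
        exact Complex.arg_ofReal_of_nonneg hc.le
      rw [this]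
    · exact (Complex.arg_neg_iff.2 (by simpa using h)).le
  have hlog := Real.log_nonneg h1
  have h4 := hor_le hβ hP (Y := -Real.log ‖(c : ℂ) + y * I‖) h3.1.le (by linarith) (hK_left (r := r) hc hy)
  rw [cu_eq]
  refine h4.trans ?_
  apply mul_le_mul _ (by linarith) (by linarith) (Real.exp_pos _).le
  apply Real.exp_le_exp.2
  apply le_of_eq
  ring

/-- **Bromwich form of the valley function** -/
theorem AA_eq_Br {β r t c : ℝ} (hβ : 0 < β) (hr : 0 < r) (ht : t < -(Real.pi / 2)) (hc : 0 < c) :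
    cF β * AA β r t = cexp (-(I * t ^ 2 / (2 * β))) * Br β t c r := by
  have hpi := Real.pi_pos
  obtain ⟨P, hP⟩ := exists_prim (gs_diff β r t)
  obtain ⟨V, lL, lR, hV, -⟩ := exists_vals hβ hr hP
  rw [← hV.AA0 hβ hr hP]
  have h1 : Tendsto (fun R : ℝ => ∫ y in (-R)..R, EE β t ((c : ℂ) + y * I) * cexp (r * ((c : ℂ) + y * I)))
      atTop (𝓝 (Br β t c r)) :=
    intervalIntegral_tendsto_integral (EEr_int hβ ht hc r) tendsto_neg_atTop_atBot tendsto_id
  have h2 := h1.const_mul (cexp (-(I * t ^ 2 / (2 * β))))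
  have hR : Tendsto (fun y : ℝ => P (cu c y)) atTop (𝓝 (V 0)) := by
    have h3 : Tendsto (fun y : ℝ => -Real.log ‖(c : ℂ) + y * I‖) atTop atBot :=
      tendsto_neg_atTop_atBot.comp (Real.tendsto_log_atTop.comp (norm_line_atTop c))
    have h4 := (hV.val 0 (Real.pi / 2) (by
      rw [Int.cast_zero, mul_zero, zero_add, one_mul, abs_le]
      constructor <;> linarith) (Or.inr (by linarith))).comp h3
    have h5 := h4.sub (end_right hβ ht hc hP)
    rw [sub_zero] at h5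
    refine h5.congr fun y => ?_
    simp only [Function.comp]
    ring
  have hL : Tendsto (fun y : ℝ => P (cu c y)) atBot (𝓝 (V (-1))) := by
    have h3 : Tendsto (fun y : ℝ => -Real.log ‖(c : ℂ) + y * I‖) atBot atBot :=
      tendsto_neg_atTop_atBot.comp (Real.tendsto_log_atTop.comp (norm_line_atBot c))
    have h4 := (hV.val (-1) (-(Real.pi / 2)) (by
      push_cast
      rw [abs_le]
      constructor <;> linarith) (Or.inr ht)).comp h3
    have h5 := (end_left hβ ht hc hP).add h4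
    rw [zero_add] at h5
    refine h5.congr fun y => ?_
    simp only [Function.comp]
    ring
  have h6 := hR.sub (hL.comp tendsto_neg_atTop_atBot)
  refine tendsto_nhds_unique h6 (h2.congr fun R => ?_)
  rw [curve_int hβ hc hP]
  rfl

/-- the Bromwich integral vanishes for `r < 0` -/
theorem Br_neg {β r t c : ℝ} (hβ : 0 < β) (hr : r < 0) (ht : t < -(Real.pi / 2)) (hc : 0 < c) :
    Br β t c r = 0 := by
  have hpi := Real.pi_pos
  obtain ⟨P, hP⟩ := exists_prim (gs_diff β r t)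
  have h1 : Tendsto (fun R : ℝ => ∫ y in (-R)..R, EE β t ((c : ℂ) + y * I) * cexp (r * ((c : ℂ) + y * I)))
      atTop (𝓝 (Br β t c r)) :=
    intervalIntegral_tendsto_integral (EEr_int hβ ht hc r) tendsto_neg_atTop_atBot tendsto_id
  have h2 := h1.const_mul (cexp (-(I * t ^ 2 / (2 * β))))
  have hsymm : ∀ R : ℝ, ‖(c : ℂ) + ((-R : ℝ) : ℂ) * I‖ = ‖(c : ℂ) + R * I‖ := by
    intro R
    have a1 := norm_line_sq c (-R)
    have a2 := norm_line_sq c R
    rw [neg_sq, ← a2] at a1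
    exact (sq_eq_sq₀ (norm_nonneg _) (norm_nonneg _)).1 a1
  have hmid : Tendsto (fun R : ℝ => P (((Real.pi / 2 : ℝ) : ℂ) + ((-Real.log ‖(c : ℂ) + R * I‖ : ℝ) : ℂ) * I) -
      P (((-(Real.pi / 2) : ℝ) : ℂ) + ((-Real.log ‖(c : ℂ) + R * I‖ : ℝ) : ℂ) * I)) atTop (𝓝 0) := by
    have h3 : Tendsto (fun R : ℝ => Real.exp (((-(Real.pi / 2) - t) / β) * (-Real.log ‖(c : ℂ) + R * I‖) + 0)
      * Real.pi) atTop (𝓝 0) := by
      have h3 : Tendsto (fun y : ℝ => -Real.log ‖(c : ℂ) + y * I‖) atTop atBot :=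
        tendsto_neg_atTop_atBot.comp (Real.tendsto_log_atTop.comp (norm_line_atTop c))
      have h4 : Tendsto (fun y : ℝ => ((-(Real.pi / 2) - t) / β) * (-Real.log ‖(c : ℂ) + y * I‖) + 0)
          atTop atBot :=
        tendsto_atBot_add_const_right _ _ (h3.const_mul_atBot (div_pos (by linarith) hβ))
      have h5 := (Real.tendsto_exp_atBot.comp h4).mul_const Real.pi
      simpa using h5
    refine squeeze_zero_norm' ?_ h3
    filter_upwards [(norm_line_atTop c).eventually_ge_atTop 1] with R hR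
    have hlog := Real.log_nonneg hR
    have h4 := hor_le hβ hP (S₁ := -(Real.pi / 2)) (S₂ := Real.pi / 2) (K := 0)
      (Y := -Real.log ‖(c : ℂ) + R * I‖) (by linarith) (by linarith) (by
        intro S hS
        have h5 := Real.cos_nonneg_of_neg_pi_div_two_le_of_le hS.1 hS.2
        exact mul_nonpos_of_nonpos_of_nonneg (mul_nonpos_of_nonpos_of_nonneg hr.le h5) (Real.exp_pos _).le)
    refine h4.trans (le_of_eq ?_)
    have e1 : Real.pi / 2 - -(Real.pi / 2) = Real.pi := by ring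
    rw [e1]
    congr 2
    ring
  have h5 := (hmid.sub (end_right hβ ht hc hP)).sub ((end_left hβ ht hc hP).comp tendsto_neg_atTop_atBot)
  rw [sub_zero, sub_zero] at h5
  have h6 : cexp (-(I * t ^ 2 / (2 * β))) * Br β t c r = 0 := by
    refine tendsto_nhds_unique (h2.congr fun R => ?_) h5
    rw [curve_int hβ hc hP]
    simp only [Function.comp]
    rw [hsymm]
    ring
  rcases mul_eq_zero.1 h6 with h | h
  · exact absurd h (Complex.exp_ne_zero _)
  · exact h

end Sok
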