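import Pool.Agent.Lib.MP_816dec_an.Far

/-!
MP_816dec_an: closed upper bounds for `F_β` far from the main crossing (helper63's (H), (U1), (H')).
-/

set_option autoImplicit false

open Complex Set Filter Topology MeasureTheory

namespace Sok

/-! ## Real inequalities -/

private theorem k_nonneg {e : ℝ} (h0 : 0 ≤ e) (h1 : e ≤ Real.pi) :
    0 ≤ (1 - Real.cos e - e ^ 2 / 3) * Real.sin e - (e - Real.sin e) * Real.cos e := by
  have hder : ∀ x : ℝ, HasDerivAt (fun x => (1 - Real.cos x - x ^ 2 / 3) * Real.sin x - (x - Real.sin x) * Real.cos x)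
      (x / 3 * (Real.sin x - x * Real.cos x)) x := by
    intro x
    have hc := Real.hasDerivAt_cos x
    have hs := Real.hasDerivAt_sin x
    have h2 : HasDerivAt (fun x : ℝ => x ^ 2 / 3) (2 * x / 3) x := by
      have := (hasDerivAt_pow 2 x).div_const 3
      simpa using this
    have h3 := (((hc.const_sub 1).sub h2).mul hs).sub (((hasDerivAt_id x).sub hs).mul hc)
    refine h3.congr_deriv ?_
    simp
    ring
  have hmono : MonotoneOn (fun x => (1 - Real.cos x - x ^ 2 / 3) * Real.sin x - (x - Real.sin x) * Real.cos x)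
      (Icc 0 Real.pi) := by
    apply monotoneOn_of_deriv_nonneg (convex_Icc _ _)
    · exact fun x _ => (hder x).continuousAt.continuousWithinAt
    · exact fun x _ => (hder x).differentiableAt.differentiableWithinAt
    · intro x hx
      rw [interior_Icc] at hx
      rw [(hder x).deriv]
      have hx0 : 0 < x := hx.1
      have h4 : x * Real.cos x ≤ Real.sin x := by
        rcases lt_or_ge x (Real.pi / 2) with h | h
        · have h5 := Real.lt_tan hx0 h
          have h6 : 0 < Real.cos x := Real.cos_pos_of_mem_Ioo ⟨by linarith, h⟩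
          rw [Real.tan_eq_sin_div_cos, lt_div_iff₀ h6] at h5
          exact h5.le
        · have h5 : Real.cos x ≤ 0 := Real.cos_nonpos_of_pi_div_two_le_of_le h (by linarith [hx.2, Real.pi_pos])
          have h6 : 0 ≤ Real.sin x := Real.sin_nonneg_of_nonneg_of_le_pi hx0.le hx.2.le
          nlinarith
      have : 0 ≤ Real.sin x - x * Real.cos x := by linarith
      positivity
  have h := hmono (left_mem_Icc.2 Real.pi_pos.le) (mem_Icc.2 ⟨h0, h1⟩) h0
  simpa using h

private theorem cos_par_pos {s w : ℝ} (hw : -(Real.pi / 2) ≤ w) (hs : s ≤ Real.pi / 2) (hws : w ≤ s) :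
    Real.cos s ≤ Real.cos w - (s - w) * Real.sin w - Real.cos w * (s - w) ^ 2 / 3 := by
  obtain ⟨d, hd⟩ : ∃ d, d = s - w := ⟨_, rfl⟩
  have hd0 : 0 ≤ d := by linarith
  have hdpi : d ≤ Real.pi := by linarith
  have hsw : s = w + d := by linarith
  have hcos : Real.cos s = Real.cos w * Real.cos d - Real.sin w * Real.sin d := by
    rw [hsw, Real.cos_add]
  rw [← hd, hcos]
  obtain ⟨A, hA⟩ : ∃ A, A = 1 - Real.cos d - d ^ 2 / 3 := ⟨_, rfl⟩
  obtain ⟨B, hB⟩ : ∃ B, B = d - Real.sin d := ⟨_, rfl⟩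
  have hB0 : 0 ≤ B := by rw [hB]; linarith [Real.sin_le hd0]
  have hk := k_nonneg hd0 hdpi
  rw [← hA, ← hB] at hk
  -- psi w = A cos w - B sin w
  suffices hpsi : 0 ≤ A * Real.cos w - B * Real.sin w by
    rw [hA, hB] at hpsi
    nlinarith
  rcases eq_or_lt_of_le hd0 with h0 | h0
  · rw [hA, hB, ← h0]; simp
  rcases eq_or_lt_of_le hdpi with h1 | h1
  · have hw' : w = -(Real.pi / 2) := by linarith
    rw [hw', Real.cos_neg, Real.sin_neg, Real.cos_pi_div_two, Real.sin_pi_div_two]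
    linarith
  have hsin : 0 < Real.sin d := Real.sin_pos_of_pos_of_lt_pi h0 h1
  -- psi(w) sin d = B * sin (pi/2 - d - w) + k * sin (w + pi/2)
  have hid : (A * Real.cos w - B * Real.sin w) * Real.sin d =
      B * Real.sin (Real.pi / 2 - d - w) + (A * Real.sin d - B * Real.cos d) * Real.sin (w + Real.pi / 2) := by
    have e1 : Real.sin (Real.pi / 2 - d - w) = Real.cos d * Real.cos w - Real.sin d * Real.sin w := by
      have : Real.pi / 2 - d - w = Real.pi / 2 - (d + w) := by ring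
      rw [this, Real.sin_pi_div_two_sub, Real.cos_add]
    rw [e1, Real.sin_add_pi_div_two]
    ring
  have h2 : 0 ≤ Real.sin (Real.pi / 2 - d - w) :=
    Real.sin_nonneg_of_nonneg_of_le_pi (by linarith) (by linarith)
  have h3 : 0 ≤ Real.sin (w + Real.pi / 2) :=
    Real.sin_nonneg_of_nonneg_of_le_pi (by linarith) (by linarith)
  have h4 : 0 ≤ (A * Real.cos w - B * Real.sin w) * Real.sin d := by
    rw [hid]; positivity
  exact nonneg_of_mul_nonneg_left h4 hsin

/-- the parabola above the cosine on `[-π/2, π/2]` -/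
theorem cos_par {s w : ℝ} (hw : -(Real.pi / 2) ≤ w) (hw' : w ≤ Real.pi / 2)
    (hs : -(Real.pi / 2) ≤ s) (hs' : s ≤ Real.pi / 2) :
    Real.cos s ≤ Real.cos w - (s - w) * Real.sin w - Real.cos w * (s - w) ^ 2 / 3 := by
  rcases le_total w s with h | h
  · exact cos_par_pos hw hs' h
  · have h1 := cos_par_pos (s := -s) (w := -w) (by linarith) (by linarith) (by linarith)
    rw [Real.cos_neg, Real.cos_neg, Real.sin_neg] at h1
    have h2 : Real.cos w - (-s - -w) * -Real.sin w - Real.cos w * (-s - -w) ^ 2 / 3 =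
        Real.cos w - (s - w) * Real.sin w - Real.cos w * (s - w) ^ 2 / 3 := by ring
    rwa [h2] at h1

section

variable {β r t : ℝ}

/-- the main bump on a horizontal line -/
theorem int_bump (hβ : 0 < β) (hr : 0 < r) {v w : ℝ} (hw : -(Real.pi / 2) < w) (hw' : w < Real.pi / 2)
    (hvw : β * r * Real.sin w = v * Real.exp v) :
    ∫ X in (-(Real.pi / 2) - t)..(Real.pi / 2 - t), EF β r t X v ≤
      Real.sqrt (3 * Real.pi / (r * (Real.exp (-v) * Real.cos w))) *
        Real.exp (r * (Real.exp (-v) * Real.cos w + v * (w - t) / (β * r))) := by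
  have hcw : 0 < Real.cos w := Real.cos_pos_of_mem_Ioo ⟨hw, hw'⟩
  obtain ⟨b, hb⟩ : ∃ b, b = r * (Real.exp (-v) * Real.cos w) / 3 := ⟨_, rfl⟩
  have hbpos : 0 < b := by rw [hb]; positivity
  obtain ⟨E, hE⟩ : ∃ E, E = r * (Real.exp (-v) * Real.cos w + v * (w - t) / (β * r)) := ⟨_, rfl⟩
  have hv : v / β = r * Real.exp (-v) * Real.sin w := by
    rw [div_eq_iff hβ.ne']
    have h1 : Real.exp (-v) * Real.exp v = 1 := by rw [← Real.exp_add]; simp
    calc v = v * (Real.exp (-v) * Real.exp v) := by rw [h1, mul_one]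
      _ = (v * Real.exp v) * Real.exp (-v) := by ring
      _ = r * Real.exp (-v) * Real.sin w * β := by rw [← hvw]; ring
  have hpt : ∀ X ∈ Icc (-(Real.pi / 2) - t) (Real.pi / 2 - t), EF β r t X v ≤
      Real.exp E * Real.exp (-b * (X + (t - w)) ^ 2) := by
    intro X hX
    rw [EF, ← Real.exp_add]
    apply Real.exp_le_exp.2
    have h1 := cos_par (s := X + t) hw.le hw'.le (by linarith [hX.1]) (by linarith [hX.2])
    have h2 : r * Real.exp (-v) * Real.cos (X + t) ≤ r * Real.exp (-v) *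
        (Real.cos w - (X + t - w) * Real.sin w - Real.cos w * (X + t - w) ^ 2 / 3) :=
      mul_le_mul_of_nonneg_left h1 (by positivity)
    have h3 : X * v / β = X * (r * Real.exp (-v) * Real.sin w) := by rw [← hv]; ring
    have h4 : E = r * (Real.exp (-v) * Real.cos w) + (w - t) * (r * Real.exp (-v) * Real.sin w) := by
      rw [hE, ← hv]
      field_simp
    rw [h3, h4, hb]
    nlinarith [h2]
  have hle : -(Real.pi / 2) - t ≤ Real.pi / 2 - t := by linarith [Real.pi_pos]
  have hgi : Integrable (fun X : ℝ => Real.exp (-b * (X + (t - w)) ^ 2)) :=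
    (integrable_exp_neg_mul_sq hbpos).comp_add_right (t - w)
  have h1 : ∫ X in (-(Real.pi / 2) - t)..(Real.pi / 2 - t), EF β r t X v ≤
      ∫ X in (-(Real.pi / 2) - t)..(Real.pi / 2 - t), Real.exp E * Real.exp (-b * (X + (t - w)) ^ 2) :=
    intervalIntegral.integral_mono_on hle ((continuous_EF_X _ _ _ _).intervalIntegrable _ _)
      ((by fun_prop : Continuous fun X : ℝ => Real.exp E * Real.exp (-b * (X + (t - w)) ^ 2)).intervalIntegrable _ _)
      hpt
  refine h1.trans ?_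
  rw [intervalIntegral.integral_const_mul, intervalIntegral.integral_of_le hle]
  have h2 : ∫ X in Ioc (-(Real.pi / 2) - t) (Real.pi / 2 - t), Real.exp (-b * (X + (t - w)) ^ 2) ≤
      ∫ X : ℝ, Real.exp (-b * (X + (t - w)) ^ 2) :=
    setIntegral_le_integral hgi (Filter.Eventually.of_forall fun X => (Real.exp_pos _).le)
  have h3 : ∫ X : ℝ, Real.exp (-b * (X + (t - w)) ^ 2) = Real.sqrt (Real.pi / b) := by
    rw [MeasureTheory.integral_add_right_eq_self (fun X : ℝ => Real.exp (-b * X ^ 2)), integral_gaussian]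
  have h4 : Real.pi / b = 3 * Real.pi / (r * (Real.exp (-v) * Real.cos w)) := by
    rw [hb]; field_simp
  rw [h3, h4] at h2
  rw [← hE, mul_comm (Real.sqrt _)]
  exact mul_le_mul_of_nonneg_left h2 (Real.exp_pos _).le

/-- vertical leg, `X > 0`, non-positive cosine -/
theorem int_leg (hβ : 0 < β) (hr : 0 ≤ r) {X a b : ℝ} (hX : 0 < X) (hab : a ≤ b)
    (hc : Real.cos (X + t) ≤ 0) :
    ∫ Y in a..b, EF β r t X Y ≤ β / X * Real.exp (X * b / β) := by
  have h0 : 0 < X / β := div_pos hX hβ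
  have h1 : ∫ Y in a..b, EF β r t X Y ≤ ∫ Y in a..b, Real.exp (Y * (X / β)) := by
    refine intervalIntegral.integral_mono_on hab ((continuous_EF_Y _ _ _ _).intervalIntegrable _ _)
      ((by fun_prop : Continuous fun Y : ℝ => Real.exp (Y * (X / β))).intervalIntegrable _ _) (fun Y _ => ?_)
    rw [EF]
    apply Real.exp_le_exp.2
    have h2 : r * Real.exp (-Y) * Real.cos (X + t) ≤ 0 :=
      mul_nonpos_of_nonneg_of_nonpos (by positivity) hc
    have h3 : X * Y / β = Y * (X / β) := by ring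
    linarith
  refine h1.trans ?_
  rw [intervalIntegral.integral_comp_mul_right _ h0.ne', integral_exp, smul_eq_mul, inv_div]
  apply mul_le_mul_of_nonneg_left _ (by positivity)
  have h2 : b * (X / β) = X * b / β := by ring
  rw [h2]
  have := Real.exp_pos (a * (X / β))
  linarith

/-- short vertical leg below the real axis, `X ≥ 0`, non-positive cosine: trivial bound -/
theorem int_leg_one (hβ : 0 < β) (hr : 0 ≤ r) {X a : ℝ} (hX : 0 ≤ X) (ha : a ≤ 0)
    (hc : Real.cos (X + t) ≤ 0) : ∫ Y in a..0, EF β r t X Y ≤ -a := by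
  have h1 : ∫ Y in a..0, EF β r t X Y ≤ ∫ _Y in a..0, (1 : ℝ) := by
    refine intervalIntegral.integral_mono_on ha ((continuous_EF_Y _ _ _ _).intervalIntegrable _ _)
      (by simp) (fun Y hY => ?_)
    rw [EF]
    apply Real.exp_le_one_iff.2
    have h2 : r * Real.exp (-Y) * Real.cos (X + t) ≤ 0 :=
      mul_nonpos_of_nonneg_of_nonpos (by positivity) hc
    have h3 : X * Y / β ≤ 0 := div_nonpos_of_nonpos_of_nonneg
      (mul_nonpos_of_nonneg_of_nonpos hX hY.2) hβ.le
    linarith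
  refine h1.trans (le_of_eq ?_)
  simp

/-- vertical leg `X = 0` below the real axis -/
theorem int_leg_zero (hr : 0 < r) {a : ℝ} (ha : a ≤ 0) (hc : Real.cos t < 0) :
    ∫ Y in a..0, EF β r t 0 Y ≤ Real.exp (-(r * |Real.cos t|)) / (r * |Real.cos t|) := by
  obtain ⟨c, hcd⟩ : ∃ c, c = r * |Real.cos t| := ⟨_, rfl⟩
  have hcpos : 0 < c := by rw [hcd]; exact mul_pos hr (abs_pos.2 hc.ne)
  have hct : r * Real.cos t = -c := by rw [hcd, abs_of_neg hc]; ring
  have h1 : ∫ Y in a..0, EF β r t 0 Y ≤ ∫ Y in a..0, Real.exp (-c) * Real.exp (Y * c) := by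
    refine intervalIntegral.integral_mono_on ha ((continuous_EF_Y _ _ _ _).intervalIntegrable _ _)
      ((by fun_prop : Continuous fun Y : ℝ => Real.exp (-c) * Real.exp (Y * c)).intervalIntegrable _ _)
      (fun Y _ => ?_)
    rw [EF, ← Real.exp_add]
    apply Real.exp_le_exp.2
    rw [zero_mul, zero_div, zero_add, zero_add]
    have h2 : r * Real.exp (-Y) * Real.cos t = -c * Real.exp (-Y) := by rw [← hct]; ring
    rw [h2]
    have h3 : 1 - Y ≤ Real.exp (-Y) := by have := Real.add_one_le_exp (-Y); linarith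
    nlinarith
  refine h1.trans ?_
  rw [intervalIntegral.integral_const_mul, intervalIntegral.integral_comp_mul_right _ hcpos.ne',
    integral_exp, smul_eq_mul, ← hcd, div_eq_mul_inv]
  apply mul_le_mul_of_nonneg_left _ (Real.exp_pos _).le
  rw [zero_mul, Real.exp_zero]
  have h4 : c⁻¹ * (1 - Real.exp (a * c)) ≤ c⁻¹ * 1 := by
    apply mul_le_mul_of_nonneg_left _ (by positivity)
    have := Real.exp_pos (a * c)
    linarith
  linarith

/-- horizontal piece at height `-1`, non-positive cosine -/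
theorem int_hneg (hβ : 0 < β) (hr : 0 ≤ r) {a b : ℝ} (hab : a ≤ b)
    (hc : ∀ X ∈ Icc a b, Real.cos (X + t) ≤ 0) :
    ∫ X in a..b, EF β r t X (-1) ≤ β * Real.exp (-(a / β)) := by
  have h0 : -(1 / β) ≠ 0 := by
    have : 0 < 1 / β := by positivity
    linarith
  have h1 : ∫ X in a..b, EF β r t X (-1) ≤ ∫ X in a..b, Real.exp (X * (-(1 / β))) := by
    refine intervalIntegral.integral_mono_on hab ((continuous_EF_X _ _ _ _).intervalIntegrable _ _)
      ((by fun_prop : Continuous fun X : ℝ => Real.exp (X * (-(1 / β)))).intervalIntegrable _ _) (fun X hX => ?_)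
    simp only [EF, neg_neg]
    apply Real.exp_le_exp.2
    have h2 : r * Real.exp 1 * Real.cos (X + t) ≤ 0 :=
      mul_nonpos_of_nonneg_of_nonpos (by positivity) (hc X hX)
    have h3 : X * (-1) / β = X * (-(1 / β)) := by ring
    rw [h3]
    linarith
  refine h1.trans ?_
  rw [intervalIntegral.integral_comp_mul_right _ h0, integral_exp, smul_eq_mul]
  have e1 : (-(1 / β))⁻¹ = -β := by rw [inv_neg, one_div, inv_inv]
  have e2 : a * -(1 / β) = -(a / β) := by ring
  rw [e1, e2]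
  have := Real.exp_pos (b * -(1 / β))
  nlinarith

/-- the humps to the right of `3 π / 2`, at height `-1` -/
noncomputable def HUMP (β r t : ℝ) : ℝ :=
  (1 + β) * Real.exp (-((3 * Real.pi / 2 - t - max 0 (Real.exp 1 * (β * r) - 1)) / β))

theorem int_hump (hβ : 0 < β) (hr : 0 ≤ r) :
    ∫ X in Ioi (3 * Real.pi / 2 - t), EF β r t X (-1) ≤ HUMP β r t := by
  obtain ⟨a, ha⟩ : ∃ a, a = 3 * Real.pi / 2 - t := ⟨_, rfl⟩
  obtain ⟨m, hm⟩ : ∃ m, m = max 0 (Real.exp 1 * (β * r) - 1) := ⟨_, rfl⟩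
  have hm0 : 0 ≤ m := by rw [hm]; exact le_max_left _ _
  have hm1 : Real.exp 1 * (β * r) - 1 ≤ m := by rw [hm]; exact le_max_right _ _
  have hint : IntegrableOn (fun X : ℝ => EF β r t X (-1)) (Ioi a) := int_EF_X hβ hr t (by norm_num) a
  rw [HUMP, ← ha, ← hm]
  have hsplit : ∫ X in Ioi a, EF β r t X (-1) =
      (∫ X in Ioc a (a + 1), EF β r t X (-1)) + ∫ X in Ioi (a + 1), EF β r t X (-1) := by
    rw [← Ioc_union_Ioi_eq_Ioi (by linarith : a ≤ a + 1)]
    exact setIntegral_union (Set.Ioc_disjoint_Ioi le_rfl) measurableSet_Ioi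
      (hint.mono_set Ioc_subset_Ioi_self) (hint.mono_set (Ioi_subset_Ioi (by linarith)))
  have hfirst : ∫ X in Ioc a (a + 1), EF β r t X (-1) ≤ Real.exp (-((a - m) / β)) := by
    rw [← intervalIntegral.integral_of_le (by linarith : a ≤ a + 1)]
    have h1 : ∫ X in a..(a + 1), EF β r t X (-1) ≤ ∫ _X in a..(a + 1), Real.exp (-((a - m) / β)) := by
      refine intervalIntegral.integral_mono_on (by linarith) ((continuous_EF_X _ _ _ _).intervalIntegrable _ _)
        (by simp) (fun X hX => ?_)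
      simp only [EF, neg_neg]
      apply Real.exp_le_exp.2
      obtain ⟨s, hs⟩ : ∃ s, s = X - a := ⟨_, rfl⟩
      have hs0 : 0 ≤ s := by linarith [hX.1]
      have hs1 : s ≤ 1 := by linarith [hX.2]
      have hcos : Real.cos (X + t) ≤ s := by
        have e1 : X + t = s - Real.pi / 2 + 2 * Real.pi := by rw [hs, ha]; ring
        rw [e1, Real.cos_add_two_pi, Real.cos_sub_pi_div_two]
        exact Real.sin_le hs0
      have h2 : r * Real.exp 1 * Real.cos (X + t) ≤ r * Real.exp 1 * s :=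
        mul_le_mul_of_nonneg_left hcos (by positivity)
      have h3 : X * (-1) / β + r * Real.exp 1 * s =
          -(a / β) + s * ((Real.exp 1 * (β * r) - 1) / β) := by
        have hX' : X = s + a := by linarith
        rw [hX']
        field_simp
        ring
      have h4 : s * ((Real.exp 1 * (β * r) - 1) / β) ≤ m / β := by
        calc s * ((Real.exp 1 * (β * r) - 1) / β) ≤ s * (m / β) :=
              mul_le_mul_of_nonneg_left (div_le_div_of_nonneg_right hm1 hβ.le) hs0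
          _ ≤ 1 * (m / β) := mul_le_mul_of_nonneg_right hs1 (by positivity)
          _ = m / β := one_mul _
      have h5 : -((a - m) / β) = -(a / β) + m / β := by ring
      rw [h5]
      linarith
    refine h1.trans (le_of_eq ?_)
    simp
  have hsecond : ∫ X in Ioi (a + 1), EF β r t X (-1) ≤ β * Real.exp (-((a - m) / β)) := by
    have h0 : -(1 / β) < 0 := by
      have : 0 < 1 / β := by positivity
      linarith
    have h1 : ∫ X in Ioi (a + 1), EF β r t X (-1) ≤
        ∫ X in Ioi (a + 1), Real.exp (r * Real.exp 1) * Real.exp (-(1 / β) * X) := by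
      refine setIntegral_mono_on (hint.mono_set (Ioi_subset_Ioi (by linarith)))
        ((integrableOn_exp_mul_Ioi h0 _).const_mul _) measurableSet_Ioi (fun X _ => ?_)
      have h2 := EF_le hr β t X (-1)
      rw [neg_neg] at h2
      have h3 : X * (-1) / β = -(1 / β) * X := by ring
      rwa [h3] at h2
    refine h1.trans ?_
    rw [integral_const_mul, integral_exp_mul_Ioi h0]
    have h2 : -Real.exp (-(1 / β) * (a + 1)) / -(1 / β) = β * Real.exp (-(1 / β) * (a + 1)) := by
      field_simp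
    rw [h2]
    have h3 : Real.exp (r * Real.exp 1) * (β * Real.exp (-(1 / β) * (a + 1))) =
        β * Real.exp (r * Real.exp 1 + -(1 / β) * (a + 1)) := by
      rw [Real.exp_add]; ring
    rw [h3]
    apply mul_le_mul_of_nonneg_left _ hβ.le
    apply Real.exp_le_exp.2
    have h4 : r * Real.exp 1 + -(1 / β) * (a + 1) = -(a / β) + (Real.exp 1 * (β * r) - 1) / β := by
      field_simp
      ring
    rw [h4]
    have h5 : -((a - m) / β) = -(a / β) + m / β := by ring
    rw [h5]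
    have := div_le_div_of_nonneg_right hm1 hβ.le
    linarith
  rw [hsplit]
  linarith

/-- the real axis, `π/2 ≤ u ≤ π`: quarter bound -/
private theorem int_quarter (hr : 0 < r) {f : ℝ → ℝ} {L : ℝ} (hL : 0 ≤ L) (hf : Continuous f)
    (h : ∀ s ∈ Icc 0 L, f s ≤ -(2 / Real.pi) * s) :
    ∫ s in (0:ℝ)..L, Real.exp (r * f s) ≤ Real.pi / (2 * r) := by
  have hpi := Real.pi_pos
  have hc : -(2 * r / Real.pi) ≠ 0 := by
    have : 0 < 2 * r / Real.pi := by positivity
    linarith
  have h1 : ∫ s in (0:ℝ)..L, Real.exp (r * f s) ≤ ∫ s in (0:ℝ)..L, Real.exp (s * (-(2 * r / Real.pi))) := by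
    refine intervalIntegral.integral_mono_on hL ((by fun_prop : Continuous fun s : ℝ => Real.exp (r * f s)).intervalIntegrable _ _)
      ((by fun_prop : Continuous fun s : ℝ => Real.exp (s * (-(2 * r / Real.pi)))).intervalIntegrable _ _) (fun s hs => ?_)
    apply Real.exp_le_exp.2
    have h2 := mul_le_mul_of_nonneg_left (h s hs) hr.le
    have h3 : r * (-(2 / Real.pi) * s) = s * (-(2 * r / Real.pi)) := by ring
    linarith
  refine h1.trans ?_
  rw [intervalIntegral.integral_comp_mul_right _ hc, integral_exp, smul_eq_mul]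
  have e1 : (-(2 * r / Real.pi))⁻¹ = -(Real.pi / (2 * r)) := by rw [inv_neg, inv_div]
  rw [e1, zero_mul, Real.exp_zero]
  have h4 := Real.exp_pos (L * -(2 * r / Real.pi))
  have h5 : 0 < Real.pi / (2 * r) := by positivity
  nlinarith

/-- the real axis, at most a quarter period, `c = π/2` or `-3π/2` -/
theorem int_axis_q (hr : 0 < r) {c L : ℝ} (hL : 0 ≤ L) (hL' : L ≤ Real.pi / 2)
    (hc : ∀ s, Real.cos (c + s) = -Real.sin s) :
    ∫ X in (c - t)..(c + L - t), EF β r t X 0 ≤ Real.pi / (2 * r) := by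
  have h1 : ∫ X in (c - t)..(c + L - t), EF β r t X 0 =
      ∫ s in (0:ℝ)..L, Real.exp (r * (fun s => -Real.sin s) s) := by
    have h2 := intervalIntegral.integral_comp_add_right (a := 0) (b := L) (fun X => EF β r t X 0) (c - t)
    have e1 : (0:ℝ) + (c - t) = c - t := by ring
    have e2 : L + (c - t) = c + L - t := by ring
    rw [e1, e2] at h2
    rw [← h2]
    refine intervalIntegral.integral_congr fun s _ => ?_
    simp only [EF, mul_zero, zero_div, zero_add, neg_zero, Real.exp_zero, mul_one]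
    have e3 : s + (c - t) + t = c + s := by ring
    rw [e3, hc]
  rw [h1]
  refine int_quarter hr hL (by fun_prop) (fun s hs => ?_)
  have := Real.mul_le_sin hs.1 (hs.2.trans hL')
  linarith

/-- the real axis, at most half a period -/
theorem int_axis_h (hr : 0 < r) {c L : ℝ} (hL : 0 ≤ L) (hL' : L ≤ Real.pi)
    (hc : ∀ s, Real.cos (c + s) = -Real.sin s) :
    ∫ X in (c - t)..(c + L - t), EF β r t X 0 ≤ Real.pi / r := by
  have hpi := Real.pi_pos
  have hq : Real.pi / (2 * r) + Real.pi / (2 * r) = Real.pi / r := by field_simp; ring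
  rcases le_total L (Real.pi / 2) with h | h
  · have h1 := int_axis_q (β := β) (t := t) hr hL h hc
    have h2 : 0 < Real.pi / (2 * r) := by positivity
    linarith
  · have h1 := int_axis_q (β := β) (t := t) hr (L := Real.pi / 2) (by positivity) le_rfl hc
    have h2 : ∫ X in (c + Real.pi / 2 - t)..(c + L - t), EF β r t X 0 ≤ Real.pi / (2 * r) := by
      have h3 : ∫ X in (c + Real.pi / 2 - t)..(c + L - t), EF β r t X 0 =
          ∫ s in (Real.pi - L)..(Real.pi / 2), Real.exp (r * -Real.sin s) := by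
        have h4 := intervalIntegral.integral_comp_sub_left (a := Real.pi - L) (b := Real.pi / 2)
          (fun X => EF β r t X 0) (c + Real.pi - t)
        have e1 : c + Real.pi - t - Real.pi / 2 = c + Real.pi / 2 - t := by ring
        have e2 : c + Real.pi - t - (Real.pi - L) = c + L - t := by ring
        rw [e1, e2] at h4
        rw [← h4]
        refine intervalIntegral.integral_congr fun s _ => ?_
        simp only [EF, mul_zero, zero_div, zero_add, neg_zero, Real.exp_zero, mul_one]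
        have e3 : c + Real.pi - t - s + t = c + (Real.pi - s) := by ring
        rw [e3, hc, Real.sin_pi_sub]
      rw [h3]
      have h5 : ∫ s in (Real.pi - L)..(Real.pi / 2), Real.exp (r * -Real.sin s) ≤
          ∫ s in (0:ℝ)..(Real.pi / 2), Real.exp (r * -Real.sin s) := by
        have hcont : Continuous fun s : ℝ => Real.exp (r * -Real.sin s) := by fun_prop
        have h6 := intervalIntegral.integral_add_adjacent_intervals
          (hcont.intervalIntegrable (μ := volume) 0 (Real.pi - L)) (hcont.intervalIntegrable (Real.pi - L) (Real.pi / 2))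
        have h7 : 0 ≤ ∫ s in (0:ℝ)..(Real.pi - L), Real.exp (r * -Real.sin s) :=
          intervalIntegral.integral_nonneg (by linarith) (fun s _ => (Real.exp_pos _).le)
        linarith
      refine h5.trans ?_
      refine int_quarter (f := fun s => -Real.sin s) hr (by positivity) (by fun_prop) (fun s hs => ?_)
      have := Real.mul_le_sin hs.1 hs.2
      linarith
    have h8 := intervalIntegral.integral_add_adjacent_intervals
      ((continuous_EF_X β r t 0).intervalIntegrable (μ := volume) (c - t) (c + Real.pi / 2 - t))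
      ((continuous_EF_X β r t 0).intervalIntegrable (c + Real.pi / 2 - t) (c + L - t))
    linarith

/-! ## The closed bounds -/

/-- `(2 π β)^(-1/2)` -/
noncomputable def C0 (β : ℝ) : ℝ := 1 / Real.sqrt (2 * Real.pi * β)

theorem C0_pos (hβ : 0 < β) : 0 < C0 β := by
  have := Real.pi_pos
  unfold C0; positivity

theorem norm_F_eq_C0 (hβ : 0 < β) {z lL lR : ℂ}
    (hF : lR - lL = (1 - I) * (Real.sqrt (Real.pi * β) : ℝ) * F (cexp (I * β)) z) :
    ‖F (cexp (I * β)) z‖ = C0 β * ‖lR - lL‖ := by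
  have hpi := Real.pi_pos
  have h1 : ‖(1 - I : ℂ)‖ = Real.sqrt 2 := by
    rw [Complex.norm_def, Complex.normSq_apply]
    simp
    norm_num
  have hs : 0 < Real.sqrt (2 * Real.pi * β) := Real.sqrt_pos.2 (by positivity)
  have h2 : Real.sqrt 2 * Real.sqrt (Real.pi * β) = Real.sqrt (2 * Real.pi * β) := by
    rw [← Real.sqrt_mul (by norm_num)]; congr 1; ring
  rw [hF, norm_mul, norm_mul, h1, Complex.norm_real, Real.norm_of_nonneg (Real.sqrt_nonneg _), h2, C0]
  field_simp

private theorem C0_bump (hβ : 0 < β) (hr : 0 < r) {n0 : ℝ} (hn : 0 < n0) :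
    C0 β * Real.sqrt (3 * Real.pi / (r * n0)) = Real.sqrt (3 / (2 * (β * r) * n0)) := by
  have hpi := Real.pi_pos
  rw [C0, one_div, ← Real.sqrt_inv, ← Real.sqrt_mul (by positivity)]
  congr 1
  field_simp

/-- **(H)**: right half plane -/
theorem far_H (hβ : 0 < β) (hr : 0 < r) (ht : -(Real.pi / 2) < t) (ht' : t < Real.pi / 2)
    {v w : ℝ} (hv : -1 ≤ v) (hw : -(Real.pi / 2) < w) (hw' : w < Real.pi / 2)
    (hvw : β * r * Real.sin w = v * Real.exp v) :
    ‖F (cexp (I * β)) (r * cexp (I * ((t + β / 2 : ℝ) : ℂ)))‖ ≤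
      Real.sqrt (3 / (2 * (β * r) * (Real.exp (-v) * Real.cos w))) *
        Real.exp (r * (Real.exp (-v) * Real.cos w + v * (w - t) / (β * r))) +
      C0 β * (β / (Real.pi / 2 + t) * Real.exp (-(v * (Real.pi / 2 + t) / β)) +
        β / (Real.pi / 2 - t) * Real.exp (v * (Real.pi / 2 - t) / β) +
        β * Real.exp (-((Real.pi / 2 - t) / β)) + HUMP β r t) := by
  have hpi := Real.pi_pos
  obtain ⟨P, lL, lR, hP, hl, hF⟩ := exists_F_lim hβ ((r : ℂ) * cexp (I * ((t + β / 2 : ℝ) : ℂ)))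
  have et : t + β / 2 - β / 2 = t := by ring
  rw [norm_F_eq_C0 hβ hF]
  obtain ⟨X1, hX1⟩ : ∃ X1, X1 = -(Real.pi / 2) - t := ⟨_, rfl⟩
  obtain ⟨X2, hX2⟩ : ∃ X2, X2 = Real.pi / 2 - t := ⟨_, rfl⟩
  obtain ⟨X4, hX4⟩ : ∃ X4, X4 = 3 * Real.pi / 2 - t := ⟨_, rfl⟩
  have hX1n : X1 < 0 := by linarith
  have hX2p : 0 < X2 := by linarith
  have hc1 : Real.cos (X1 + t) ≤ 0 := by
    have : X1 + t = -(Real.pi / 2) := by rw [hX1]; ring
    rw [this, Real.cos_neg, Real.cos_pi_div_two]
  have hc2 : Real.cos (X2 + t) ≤ 0 := by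
    have : X2 + t = Real.pi / 2 := by rw [hX2]; ring
    rw [this, Real.cos_pi_div_two]
  have b1 : ‖P (X1 + v * I) - lL‖ ≤ β / (-X1) * Real.exp (X1 * v / β) := by
    have h1 := bd_LT hβ hr.le hP hl hX1n v
    rw [et] at h1
    exact h1.trans (int_LT_neg hβ hr.le hX1n hc1 v)
  have b2 : ‖P (X2 + v * I) - P (X1 + v * I)‖ ≤
      Real.sqrt (3 * Real.pi / (r * (Real.exp (-v) * Real.cos w))) *
        Real.exp (r * (Real.exp (-v) * Real.cos w + v * (w - t) / (β * r))) := by
    have h1 := bd_hor hP (by linarith : X1 ≤ X2) v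
    rw [et] at h1
    refine h1.trans ?_
    rw [hX1, hX2]
    exact int_bump hβ hr hw hw' hvw
  have b3 : ‖P (X2 + v * I) - P (X2 + (-1 : ℝ) * I)‖ ≤ β / X2 * Real.exp (X2 * v / β) := by
    have h1 := bd_ver hP hv X2
    rw [et] at h1
    exact h1.trans (int_leg hβ hr.le hX2p hv hc2)
  have b4 : ‖P (X4 + (-1 : ℝ) * I) - P (X2 + (-1 : ℝ) * I)‖ ≤ β * Real.exp (-(X2 / β)) := by
    have h1 := bd_hor hP (by linarith : X2 ≤ X4) (-1)
    rw [et] at h1
    refine h1.trans (int_hneg hβ hr.le (by linarith) (fun X hX => ?_))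
    exact Real.cos_nonpos_of_pi_div_two_le_of_le (by linarith [hX.1]) (by linarith [hX.2])
  have b5 : ‖lR - P (X4 + (-1 : ℝ) * I)‖ ≤ HUMP β r t := by
    have h1 := bd_RT hβ hr.le hP hl X4 (Y := -1) (by norm_num)
    rw [et] at h1
    refine h1.trans ?_
    rw [hX4]
    exact int_hump hβ hr.le
  have hsum : ‖lR - lL‖ ≤ ‖lR - P (X4 + (-1 : ℝ) * I)‖ + ‖P (X4 + (-1 : ℝ) * I) - P (X2 + (-1 : ℝ) * I)‖ +
      ‖P (X2 + v * I) - P (X2 + (-1 : ℝ) * I)‖ + ‖P (X2 + v * I) - P (X1 + v * I)‖ +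
      ‖P (X1 + v * I) - lL‖ := by
    have e1 : lR - lL = (lR - P (X4 + (-1 : ℝ) * I)) + (P (X4 + (-1 : ℝ) * I) - P (X2 + (-1 : ℝ) * I)) +
      -(P (X2 + v * I) - P (X2 + (-1 : ℝ) * I)) + (P (X2 + v * I) - P (X1 + v * I)) +
      (P (X1 + v * I) - lL) := by ring
    rw [e1]
    refine (norm_add_le _ _).trans ?_
    refine add_le_add_left ((norm_add_le _ _).trans ?_) _
    refine add_le_add_left ((norm_add_le _ _).trans ?_) _
    rw [norm_neg]
    exact add_le_add_left (norm_add_le _ _) _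
  have hn0 : 0 < Real.exp (-v) * Real.cos w :=
    mul_pos (Real.exp_pos _) (Real.cos_pos_of_mem_Ioo ⟨hw, hw'⟩)
  have hC := C0_pos hβ
  have e1 : β / (Real.pi / 2 + t) * Real.exp (-(v * (Real.pi / 2 + t) / β)) =
      β / (-X1) * Real.exp (X1 * v / β) := by
    rw [hX1]; congr 2 <;> ring
  have e2 : β / (Real.pi / 2 - t) * Real.exp (v * (Real.pi / 2 - t) / β) =
      β / X2 * Real.exp (X2 * v / β) := by
    rw [hX2]; congr 2; ring
  rw [e1, e2, ← C0_bump hβ hr hn0, ← hX2]
  have hfin := mul_le_mul_of_nonneg_left (hsum.trans (add_le_add (add_le_add (add_le_add (add_le_add b5 b4) b3) b2) b1)) hC.le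
  refine hfin.trans (le_of_eq ?_)
  ring

/-- **(U1)**: left half plane -/
theorem far_U1 (hβ : 0 < β) (hr : 0 < r) (ht : Real.pi / 2 < t) (ht' : t < 3 * Real.pi / 2) :
    ‖F (cexp (I * β)) (r * cexp (I * ((t + β / 2 : ℝ) : ℂ)))‖ ≤
      C0 β * (β / (t - Real.pi / 2) + (if t ≤ Real.pi then Real.pi / (2 * r) else Real.pi / r) +
        min 1 (Real.exp (-(r * |Real.cos t|)) / (r * |Real.cos t|)) + β + HUMP β r t) := by
  have hpi := Real.pi_pos
  obtain ⟨P, lL, lR, hP, hl, hF⟩ := exists_F_lim hβ ((r : ℂ) * cexp (I * ((t + β / 2 : ℝ) : ℂ)))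
  have et : t + β / 2 - β / 2 = t := by ring
  rw [norm_F_eq_C0 hβ hF]
  obtain ⟨X1, hX1⟩ : ∃ X1, X1 = Real.pi / 2 - t := ⟨_, rfl⟩
  obtain ⟨X4, hX4⟩ : ∃ X4, X4 = 3 * Real.pi / 2 - t := ⟨_, rfl⟩
  have hX1n : X1 < 0 := by linarith
  have hX4p : 0 < X4 := by linarith
  have hct : Real.cos t < 0 := Real.cos_neg_of_pi_div_two_lt_of_lt ht (by linarith)
  have hc1 : Real.cos (X1 + t) ≤ 0 := by
    have : X1 + t = Real.pi / 2 := by rw [hX1]; ring
    rw [this, Real.cos_pi_div_two]
  have b1 : ‖P (X1 + (0:ℝ) * I) - lL‖ ≤ β / (t - Real.pi / 2) := by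
    have h1 := bd_LT hβ hr.le hP hl hX1n 0
    rw [et] at h1
    refine h1.trans ((int_LT_neg hβ hr.le hX1n hc1 0).trans (le_of_eq ?_))
    rw [mul_zero, zero_div, Real.exp_zero, mul_one, hX1]
    congr 1; ring
  have hcs : ∀ s, Real.cos (Real.pi / 2 + s) = -Real.sin s := fun s => by
    rw [add_comm, Real.cos_add_pi_div_two]
  have b2 : ‖P ((0:ℝ) + (0:ℝ) * I) - P (X1 + (0:ℝ) * I)‖ ≤
      (if t ≤ Real.pi then Real.pi / (2 * r) else Real.pi / r) := by
    have h1 := bd_hor hP hX1n.le 0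
    rw [et] at h1
    refine h1.trans ?_
    have e0 : (0:ℝ) = Real.pi / 2 + (t - Real.pi / 2) - t := by ring
    have h2 : ∫ X in X1..0, EF β r t X 0 =
        ∫ X in (Real.pi / 2 - t)..(Real.pi / 2 + (t - Real.pi / 2) - t), EF β r t X 0 := by
      rw [← hX1, ← e0]
    rw [h2]
    split_ifs with hpt
    · exact int_axis_q hr (by linarith) (by linarith) hcs
    · exact int_axis_h hr (by linarith) (by linarith) hcs
  have b3 : ‖P ((0:ℝ) + (0:ℝ) * I) - P ((0:ℝ) + (-1 : ℝ) * I)‖ ≤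
      min 1 (Real.exp (-(r * |Real.cos t|)) / (r * |Real.cos t|)) := by
    have h1 := bd_ver hP (by norm_num : (-1:ℝ) ≤ 0) 0
    rw [et] at h1
    refine h1.trans (le_min ?_ (int_leg_zero hr (by norm_num) hct))
    have := int_leg_one (β := β) (r := r) (t := t) hβ hr.le (X := 0) (a := -1) le_rfl (by norm_num)
      (by rw [zero_add]; exact hct.le)
    linarith
  have b4 : ‖P (X4 + (-1 : ℝ) * I) - P ((0:ℝ) + (-1 : ℝ) * I)‖ ≤ β := by
    have h1 := bd_hor hP hX4p.le (-1)
    rw [et] at h1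
    refine h1.trans ((int_hneg hβ hr.le hX4p.le (fun X hX => ?_)).trans (le_of_eq ?_))
    · exact Real.cos_nonpos_of_pi_div_two_le_of_le (by linarith [hX.1]) (by linarith [hX.2])
    · rw [zero_div, neg_zero, Real.exp_zero, mul_one]
  have b5 : ‖lR - P (X4 + (-1 : ℝ) * I)‖ ≤ HUMP β r t := by
    have h1 := bd_RT hβ hr.le hP hl X4 (Y := -1) (by norm_num)
    rw [et] at h1
    refine h1.trans ?_
    rw [hX4]
    exact int_hump hβ hr.le
  have hsum : ‖lR - lL‖ ≤ ‖lR - P (X4 + (-1 : ℝ) * I)‖ + ‖P (X4 + (-1 : ℝ) * I) - P ((0:ℝ) + (-1 : ℝ) * I)‖ +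
      ‖P ((0:ℝ) + (0:ℝ) * I) - P ((0:ℝ) + (-1 : ℝ) * I)‖ + ‖P ((0:ℝ) + (0:ℝ) * I) - P (X1 + (0:ℝ) * I)‖ +
      ‖P (X1 + (0:ℝ) * I) - lL‖ := by
    have e1 : lR - lL = (lR - P (X4 + (-1 : ℝ) * I)) + (P (X4 + (-1 : ℝ) * I) - P ((0:ℝ) + (-1 : ℝ) * I)) +
      -(P ((0:ℝ) + (0:ℝ) * I) - P ((0:ℝ) + (-1 : ℝ) * I)) + (P ((0:ℝ) + (0:ℝ) * I) - P (X1 + (0:ℝ) * I)) +
      (P (X1 + (0:ℝ) * I) - lL) := by
      ring
    rw [e1]
    refine (norm_add_le _ _).trans ?_
    refine add_le_add_left ((norm_add_le _ _).trans ?_) _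
    refine add_le_add_left ((norm_add_le _ _).trans ?_) _
    rw [norm_neg]
    exact add_le_add_left (norm_add_le _ _) _
  have hC := C0_pos hβ
  have hfin := mul_le_mul_of_nonneg_left (hsum.trans (add_le_add (add_le_add (add_le_add (add_le_add b5 b4) b3) b2) b1)) hC.le
  refine hfin.trans (le_of_eq ?_)
  ring

/-- **(H')**: main bump to the right, `-3π/2 < t ≤ -π/2` -/
theorem far_H' (hβ : 0 < β) (hr : 0 < r) (ht : -(3 * Real.pi / 2) < t) (ht' : t ≤ -(Real.pi / 2))
    {v w : ℝ} (hv : -1 ≤ v) (hv' : v ≤ 0) (hw : -(Real.pi / 2) < w) (hw' : w < Real.pi / 2)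
    (hvw : β * r * Real.sin w = v * Real.exp v) {L : ℝ}
    (hL : 1 ≤ L ∨ t < -(Real.pi / 2) ∧ β / (-(Real.pi / 2) - t) ≤ L) :
    ‖F (cexp (I * β)) (r * cexp (I * ((t + β / 2 : ℝ) : ℂ)))‖ ≤
      Real.sqrt (3 / (2 * (β * r) * (Real.exp (-v) * Real.cos w))) *
        Real.exp (r * (Real.exp (-v) * Real.cos w + v * (w - t) / (β * r))) +
      C0 β * (β / (3 * Real.pi / 2 + t) + Real.pi / r + L +
        β / (Real.pi / 2 - t) * Real.exp (v * (Real.pi / 2 - t) / β) +
        β * Real.exp (-((Real.pi / 2 - t) / β)) + HUMP β r t) := by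
  have hpi := Real.pi_pos
  obtain ⟨P, lL, lR, hP, hl, hF⟩ := exists_F_lim hβ ((r : ℂ) * cexp (I * ((t + β / 2 : ℝ) : ℂ)))
  have et : t + β / 2 - β / 2 = t := by ring
  rw [norm_F_eq_C0 hβ hF]
  obtain ⟨X1, hX1⟩ : ∃ X1, X1 = -(3 * Real.pi / 2) - t := ⟨_, rfl⟩
  obtain ⟨X2, hX2⟩ : ∃ X2, X2 = -(Real.pi / 2) - t := ⟨_, rfl⟩
  obtain ⟨X3, hX3⟩ : ∃ X3, X3 = Real.pi / 2 - t := ⟨_, rfl⟩
  obtain ⟨X4, hX4⟩ : ∃ X4, X4 = 3 * Real.pi / 2 - t := ⟨_, rfl⟩
  have hX1n : X1 < 0 := by linarith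
  have hX2p : 0 ≤ X2 := by linarith
  have hX3p : 0 < X3 := by linarith
  have hcs : ∀ s, Real.cos (-(3 * Real.pi / 2) + s) = -Real.sin s := fun s => by
    have : -(3 * Real.pi / 2) + s = s + Real.pi / 2 - 2 * Real.pi := by ring
    rw [this, Real.cos_sub_two_pi, Real.cos_add_pi_div_two]
  have hc1 : Real.cos (X1 + t) ≤ 0 := by
    have : X1 + t = -(3 * Real.pi / 2) + 0 := by rw [hX1]; ring
    rw [this, hcs, Real.sin_zero, neg_zero]
  have hc2 : Real.cos (X2 + t) ≤ 0 := by
    have : X2 + t = -(Real.pi / 2) := by rw [hX2]; ring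
    rw [this, Real.cos_neg, Real.cos_pi_div_two]
  have hc3 : Real.cos (X3 + t) ≤ 0 := by
    have : X3 + t = Real.pi / 2 := by rw [hX3]; ring
    rw [this, Real.cos_pi_div_two]
  have b1 : ‖P (X1 + (0:ℝ) * I) - lL‖ ≤ β / (3 * Real.pi / 2 + t) := by
    have h1 := bd_LT hβ hr.le hP hl hX1n 0
    rw [et] at h1
    refine h1.trans ((int_LT_neg hβ hr.le hX1n hc1 0).trans (le_of_eq ?_))
    rw [mul_zero, zero_div, Real.exp_zero, mul_one, hX1]
    congr 1; ring
  have b2 : ‖P (X2 + (0:ℝ) * I) - P (X1 + (0:ℝ) * I)‖ ≤ Real.pi / r := by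
    have h1 := bd_hor hP (by linarith : X1 ≤ X2) 0
    rw [et] at h1
    refine h1.trans ?_
    have h2 : ∫ X in X1..X2, EF β r t X 0 =
        ∫ X in (-(3 * Real.pi / 2) - t)..(-(3 * Real.pi / 2) + Real.pi - t), EF β r t X 0 := by
      rw [hX1, hX2]; congr 1; ring
    rw [h2]
    exact int_axis_h hr hpi.le le_rfl hcs
  have b3 : ‖P (X2 + (0:ℝ) * I) - P (X2 + v * I)‖ ≤ L := by
    have h1 := bd_ver hP hv' X2
    rw [et] at h1
    refine h1.trans ?_
    rcases hL with h | ⟨h, h'⟩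
    · have := int_leg_one (β := β) (r := r) (t := t) hβ hr.le hX2p hv' hc2
      linarith
    · have h3 := int_leg (β := β) (r := r) (t := t) hβ hr.le (by linarith : 0 < X2) hv' hc2
      rw [mul_zero, zero_div, Real.exp_zero, mul_one] at h3
      rw [← hX2] at h'
      exact h3.trans h'
  have b4 : ‖P (X3 + v * I) - P (X2 + v * I)‖ ≤
      Real.sqrt (3 * Real.pi / (r * (Real.exp (-v) * Real.cos w))) *
        Real.exp (r * (Real.exp (-v) * Real.cos w + v * (w - t) / (β * r))) := by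
    have h1 := bd_hor hP (by linarith : X2 ≤ X3) v
    rw [et] at h1
    refine h1.trans ?_
    rw [hX2, hX3]
    exact int_bump hβ hr hw hw' hvw
  have b5 : ‖P (X3 + v * I) - P (X3 + (-1 : ℝ) * I)‖ ≤ β / X3 * Real.exp (X3 * v / β) := by
    have h1 := bd_ver hP hv X3
    rw [et] at h1
    exact h1.trans (int_leg hβ hr.le hX3p hv hc3)
  have b6 : ‖P (X4 + (-1 : ℝ) * I) - P (X3 + (-1 : ℝ) * I)‖ ≤ β * Real.exp (-(X3 / β)) := by
    have h1 := bd_hor hP (by linarith : X3 ≤ X4) (-1)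
    rw [et] at h1
    refine h1.trans (int_hneg hβ hr.le (by linarith) (fun X hX => ?_))
    exact Real.cos_nonpos_of_pi_div_two_le_of_le (by linarith [hX.1]) (by linarith [hX.2])
  have b7 : ‖lR - P (X4 + (-1 : ℝ) * I)‖ ≤ HUMP β r t := by
    have h1 := bd_RT hβ hr.le hP hl X4 (Y := -1) (by norm_num)
    rw [et] at h1
    refine h1.trans ?_
    rw [hX4]
    exact int_hump hβ hr.le
  have hsum : ‖lR - lL‖ ≤ ‖lR - P (X4 + (-1 : ℝ) * I)‖ + ‖P (X4 + (-1 : ℝ) * I) - P (X3 + (-1 : ℝ) * I)‖ +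
      ‖P (X3 + v * I) - P (X3 + (-1 : ℝ) * I)‖ + ‖P (X3 + v * I) - P (X2 + v * I)‖ +
      ‖P (X2 + (0:ℝ) * I) - P (X2 + v * I)‖ + ‖P (X2 + (0:ℝ) * I) - P (X1 + (0:ℝ) * I)‖ +
      ‖P (X1 + (0:ℝ) * I) - lL‖ := by
    have e1 : lR - lL = (lR - P (X4 + (-1 : ℝ) * I)) + (P (X4 + (-1 : ℝ) * I) - P (X3 + (-1 : ℝ) * I)) +
      -(P (X3 + v * I) - P (X3 + (-1 : ℝ) * I)) + (P (X3 + v * I) - P (X2 + v * I)) +
      -(P (X2 + (0:ℝ) * I) - P (X2 + v * I)) + (P (X2 + (0:ℝ) * I) - P (X1 + (0:ℝ) * I)) +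
      (P (X1 + (0:ℝ) * I) - lL) := by ring
    rw [e1]
    refine (norm_add_le _ _).trans (add_le_add_left ?_ _)
    refine (norm_add_le _ _).trans (add_le_add_left ?_ _)
    refine (norm_add_le _ _).trans (add_le_add ?_ (norm_neg _).le)
    refine (norm_add_le _ _).trans (add_le_add_left ?_ _)
    refine (norm_add_le _ _).trans (add_le_add ?_ (norm_neg _).le)
    exact norm_add_le _ _
  have hn0 : 0 < Real.exp (-v) * Real.cos w :=
    mul_pos (Real.exp_pos _) (Real.cos_pos_of_mem_Ioo ⟨hw, hw'⟩)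
  have hC := C0_pos hβ
  have e2 : β / (Real.pi / 2 - t) * Real.exp (v * (Real.pi / 2 - t) / β) =
      β / X3 * Real.exp (X3 * v / β) := by
    rw [hX3]; congr 2; ring
  rw [e2, ← C0_bump hβ hr hn0, ← hX3]
  have hfin := mul_le_mul_of_nonneg_left (hsum.trans (add_le_add (add_le_add (add_le_add (add_le_add
    (add_le_add (add_le_add b7 b6) b5) b4) b3) b2) b1)) hC.le
  refine hfin.trans (le_of_eq ?_)
  ring

end

end Sok
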