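import Mathlib
import Pool.Agent.Lib.MP_816dec_an.A0Bnd
import Pool.Agent.Lib.MP_816dec_an.Far2

/-!
MP_816dec_an: closed upper bounds of the window functions (row F of R2).
-/

set_option autoImplicit false

open Complex Set Filter Topology MeasureTheory

namespace Sok

/-- the outer part `π/2 ≤ |X| ≤ π` of a horizontal line -/
noncomputable def outB (β r v : ℝ) : ℝ := Real.pi / 2 *
  (max (Real.exp (|v| * Real.pi / (2 * β))) (Real.exp (|v| * Real.pi / β - r * Real.exp (-v))) +
    Real.exp (-(|v| * Real.pi / (2 * β))))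

/-- the middle part of a horizontal line -/
noncomputable def midB (β r v w : ℝ) : ℝ := Real.sqrt (3 * Real.pi / (r * (Real.exp (-v) * Real.cos w))) *
  Real.exp (r * (Real.exp (-v) * Real.cos w + v * w / (β * r)))

theorem outB_nonneg (β r v : ℝ) : 0 ≤ outB β r v := by
  have := Real.pi_pos
  unfold outB
  have h1 := Real.exp_pos (-(|v| * Real.pi / (2 * β)))
  have h2 := (Real.exp_pos (|v| * Real.pi / (2 * β))).trans_le
    (le_max_left _ (Real.exp (|v| * Real.pi / β - r * Real.exp (-v))))
  positivity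

theorem midB_nonneg (β r v w : ℝ) : 0 ≤ midB β r v w := by unfold midB; positivity

/-- on the far side with the growing factor -/
private theorem out_grow {β r v X : ℝ} (hβ : 0 < β) (hr : 0 ≤ r) (h1 : Real.pi / 2 ≤ X) (h2 : X ≤ Real.pi) :
    Real.exp (X * |v| / β + r * Real.cos X * Real.exp (-v)) ≤
      max (Real.exp (|v| * Real.pi / (2 * β))) (Real.exp (|v| * Real.pi / β - r * Real.exp (-v))) := by
  have hpi := Real.pi_pos
  obtain ⟨s, hs⟩ : ∃ s : ℝ, s = 2 / Real.pi * (X - Real.pi / 2) := ⟨_, rfl⟩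
  have hs0 : 0 ≤ s := by rw [hs]; exact mul_nonneg (by positivity) (by linarith)
  have hs1 : s ≤ 1 := by
    rw [hs, div_mul_eq_mul_div, div_le_one hpi]; linarith
  have hX : X = (1 - s) * (Real.pi / 2) + s * Real.pi := by rw [hs]; field_simp; ring
  have hcos : Real.cos X ≤ -s := by
    have h3 := Real.mul_le_sin (x := X - Real.pi / 2) (by linarith) (by linarith)
    rw [Real.sin_sub_pi_div_two] at h3
    rw [hs]; linarith
  have hE : 0 < r * Real.exp (-v) ∨ r * Real.exp (-v) = 0 := by
    rcases eq_or_lt_of_le hr with h | h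
    · right; rw [← h]; simp
    · left; positivity
  have hE0 : 0 ≤ r * Real.exp (-v) := by positivity
  have h4 : X * |v| / β + r * Real.cos X * Real.exp (-v) ≤
      (1 - s) * (|v| * Real.pi / (2 * β)) + s * (|v| * Real.pi / β - r * Real.exp (-v)) := by
    have h5 : r * Real.cos X * Real.exp (-v) ≤ -(s * (r * Real.exp (-v))) := by
      have : r * Real.cos X * Real.exp (-v) = Real.cos X * (r * Real.exp (-v)) := by ring
      rw [this]; nlinarith
    have h6 : X * |v| / β = (1 - s) * (|v| * Real.pi / (2 * β)) + s * (|v| * Real.pi / β) := by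
      conv_lhs => rw [hX]
      field_simp
    linarith
  rcases le_total (|v| * Real.pi / (2 * β)) (|v| * Real.pi / β - r * Real.exp (-v)) with h | h
  · refine le_trans ?_ (le_max_right _ _)
    apply Real.exp_le_exp.2
    nlinarith
  · refine le_trans ?_ (le_max_left _ _)
    apply Real.exp_le_exp.2
    nlinarith

private theorem out_decay {β r v X : ℝ} (hβ : 0 < β) (hr : 0 ≤ r) (h1 : Real.pi / 2 ≤ X) (h2 : X ≤ Real.pi) :
    Real.exp (-(X * |v| / β) + r * Real.cos X * Real.exp (-v)) ≤ Real.exp (-(|v| * Real.pi / (2 * β))) := by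
  have hpi := Real.pi_pos
  apply Real.exp_le_exp.2
  have hcos : Real.cos X ≤ 0 := Real.cos_nonpos_of_pi_div_two_le_of_le h1 (by linarith)
  have h3 : r * Real.cos X * Real.exp (-v) ≤ 0 :=
    mul_nonpos_of_nonpos_of_nonneg (mul_nonpos_of_nonneg_of_nonpos hr hcos) (Real.exp_pos _).le
  have h4 : |v| * Real.pi / (2 * β) ≤ X * |v| / β := by
    rw [div_le_div_iff₀ (by positivity) hβ]
    have h5 : 0 ≤ |v| := abs_nonneg v
    have h6 : |v| * Real.pi ≤ |v| * (2 * X) := mul_le_mul_of_nonneg_left (by linarith) h5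
    nlinarith
  linarith

/-- the outer part of the line integral -/
theorem out_int {β r v : ℝ} (hβ : 0 < β) (hr : 0 ≤ r) :
    (∫ X in (-Real.pi)..(-(Real.pi / 2)), Real.exp (X * v / β + r * Real.cos X * Real.exp (-v))) +
      (∫ X in (Real.pi / 2)..Real.pi, Real.exp (X * v / β + r * Real.cos X * Real.exp (-v))) ≤ outB β r v := by
  have hpi := Real.pi_pos
  have hflip : (∫ X in (-Real.pi)..(-(Real.pi / 2)), Real.exp (X * v / β + r * Real.cos X * Real.exp (-v))) =
      ∫ X in (Real.pi / 2)..Real.pi, Real.exp (-(X * v / β) + r * Real.cos X * Real.exp (-v)) := by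
    have h := intervalIntegral.integral_comp_neg (a := Real.pi / 2) (b := Real.pi)
      (fun X : ℝ => Real.exp (X * v / β + r * Real.cos X * Real.exp (-v)))
    rw [← h]
    congr 1
    funext X
    rw [Real.cos_neg]
    congr 2
    ring
  have hconst : ∀ c : ℝ, ∫ _X in (Real.pi / 2)..Real.pi, c = Real.pi / 2 * c := by
    intro c
    rw [intervalIntegral.integral_const, smul_eq_mul]
    ring
  have hA : ∫ X in (Real.pi / 2)..Real.pi, Real.exp (X * |v| / β + r * Real.cos X * Real.exp (-v)) ≤
      Real.pi / 2 * max (Real.exp (|v| * Real.pi / (2 * β))) (Real.exp (|v| * Real.pi / β - r * Real.exp (-v))) := by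
    rw [← hconst]
    refine intervalIntegral.integral_mono_on (by linarith)
      ((by fun_prop : Continuous fun X : ℝ =>
        Real.exp (X * |v| / β + r * Real.cos X * Real.exp (-v))).intervalIntegrable _ _) (by simp) ?_
    intro X hX
    exact out_grow hβ hr hX.1 hX.2
  have hB : ∫ X in (Real.pi / 2)..Real.pi, Real.exp (-(X * |v| / β) + r * Real.cos X * Real.exp (-v)) ≤
      Real.pi / 2 * Real.exp (-(|v| * Real.pi / (2 * β))) := by
    rw [← hconst]
    refine intervalIntegral.integral_mono_on (by linarith)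
      ((by fun_prop : Continuous fun X : ℝ =>
        Real.exp (-(X * |v| / β) + r * Real.cos X * Real.exp (-v))).intervalIntegrable _ _) (by simp) ?_
    intro X hX
    exact out_decay hβ hr hX.1 hX.2
  rw [hflip]
  unfold outB
  rcases le_total 0 v with h | h
  · rw [abs_of_nonneg h] at hA hB ⊢
    linarith
  · rw [abs_of_nonpos h] at hA hB ⊢
    have e1 : ∀ X : ℝ, X * -v / β = -(X * v / β) := fun X => by ring
    have e2 : ∀ X : ℝ, -(X * -v / β) = X * v / β := fun X => by ring
    simp only [e1] at hA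
    simp only [e2] at hB
    linarith

/-- CLOSED FORM of the line integral over one period -/
theorem Hm_le {β r v w : ℝ} (hβ : 0 < β) (hr : 0 < r) (hw : -(Real.pi / 2) < w) (hw' : w < Real.pi / 2)
    (hvw : β * r * Real.sin w = v * Real.exp v) : Hm β r v ≤ midB β r v w + outB β r v := by
  have hpi := Real.pi_pos
  have h1 := int_bump (t := 0) hβ hr hw hw' hvw
  have e1 : ∀ X : ℝ, EF β r 0 X v = Real.exp (X * v / β + r * Real.cos X * Real.exp (-v)) := by
    intro X
    unfold EF
    rw [add_zero]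
    congr 2
    ring
  simp only [e1, sub_zero] at h1
  have h2 := out_int (v := v) hβ hr.le
  have hc : Continuous fun X : ℝ => Real.exp (X * v / β + r * Real.cos X * Real.exp (-v)) := by fun_prop
  have h3 : Hm β r v = (∫ X in (-Real.pi)..(-(Real.pi / 2)), Real.exp (X * v / β + r * Real.cos X * Real.exp (-v))) +
      (∫ X in (-(Real.pi / 2))..(Real.pi / 2), Real.exp (X * v / β + r * Real.cos X * Real.exp (-v))) +
      (∫ X in (Real.pi / 2)..Real.pi, Real.exp (X * v / β + r * Real.cos X * Real.exp (-v))) := by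
    unfold Hm
    rw [intervalIntegral.integral_add_adjacent_intervals (hc.intervalIntegrable _ _) (hc.intervalIntegrable _ _),
      intervalIntegral.integral_add_adjacent_intervals (hc.intervalIntegrable _ _) (hc.intervalIntegrable _ _)]
  rw [h3]
  unfold midB
  linarith

/-- leg above the valley when `S < t ≤ S + e κ` -/
theorem Leg_le_mid {β r t S v : ℝ} (hβ : 0 < β) (hr : 0 < r) (hc : Real.cos S = -1) (ht : S < t)
    (ht' : t - S ≤ Real.exp 1 * (β * r)) (hv : -(4 / 3) ≤ v) :
    Leg β r t S v ≤ (1 / r + (v + 4 / 3)) * Real.exp ((t - S) / β * (Real.log ((t - S) / (β * r)) - 1)) := by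
  obtain ⟨M, hM⟩ : ∃ M : ℝ, M = Real.exp ((t - S) / β * (Real.log ((t - S) / (β * r)) - 1)) := ⟨_, rfl⟩
  have hM0 : 0 < M := by rw [hM]; exact Real.exp_pos _
  have hmax : ∀ Y : ℝ, mg β r t S Y ≤ M := by
    intro Y; rw [hM]; exact mg_le_max hβ hr hc ht Y
  rw [← hM]
  have hc0 : Real.cos S ≤ 0 := by rw [hc]; norm_num
  have he : Real.exp 1 + 1 ≤ Real.exp (-(-(4 / 3))) := by
    have h1 : Real.exp 1 < 2.7182818286 := Real.exp_one_lt_d9
    have h2 : 3.79 ≤ Real.exp (-(-(4 / 3))) := by
      have h3 := Real.sum_le_exp_of_nonneg (x := 4 / 3) (by norm_num) 9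
      have h4 : (-(-(4 / 3)) : ℝ) = 4 / 3 := by norm_num
      rw [h4]
      refine le_trans ?_ h3
      norm_num [Finset.sum_range_succ, Nat.factorial]
    linarith
  have hδ : r ≤ (S - t) / β - r * Real.cos S * Real.exp (-(-(4 / 3))) := by
    rw [hc]
    have h1 : (S - t) / β = -((t - S) / β) := by ring
    have h2 : (t - S) / β ≤ Real.exp 1 * r := by
      rw [div_le_iff₀ hβ]; linarith
    rw [h1]
    nlinarith
  have hδ0 : 0 < (S - t) / β - r * Real.cos S * Real.exp (-(-(4 / 3))) := lt_of_lt_of_le hr hδ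
  have h1 : Leg β r t S (-(4 / 3)) ≤ M / r := by
    refine (Leg_le hr.le hc0 hδ0).trans ?_
    exact div_le_div₀ hM0.le (hmax _) hr hδ
  have h2 := Leg_split (M := M) hv (Leg_int hr.le hc0 hδ0 v) (fun Y _ _ => hmax Y)
  have e1 : (1 / r + (v + 4 / 3)) * M = M / r + M * (v - -(4 / 3)) := by ring
  rw [e1]
  linarith

private theorem inV0 (t : ℝ) : InV t 0 Real.pi := by
  have := inV_center t 0
  simpa using this

private theorem inVm (t : ℝ) : InV t (-1) (-Real.pi) := by
  have := inV_center t (-1)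
  have e1 : (2 * ((-1 : ℤ) : ℝ) + 1) * Real.pi = -Real.pi := by push_cast; ring
  rwa [e1] at this

/-- `|C|` on a line at height `v > 0`, leg left as an integral -/
theorem norm_CC_far {β r t v w : ℝ} (hβ : 0 < β) (hr : 0 < r) (hv : 0 < v) (hw : -(Real.pi / 2) < w)
    (hw' : w < Real.pi / 2) (hvw : β * r * Real.sin w = v * Real.exp v) :
    ‖CC β r t‖ ≤ (Real.sqrt (2 * Real.pi * β))⁻¹ *
      (Real.exp (-(t * v / β)) * ((midB β r v w + outB β r v) / (1 - Real.exp (-(2 * Real.pi * v / β)))) +
        Leg β r t Real.pi v) := by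
  refine (norm_CC_path hβ hr (inV0 t) hv).trans ?_
  apply mul_le_mul_of_nonneg_left _ (by positivity)
  rw [HorL_full hβ hr.le hv, mul_div_assoc]
  have h5 : Real.exp (-(2 * Real.pi * v / β)) < 1 := Real.exp_lt_one_iff.2 (by
    have := Real.pi_pos
    have : 0 < 2 * Real.pi * v / β := by positivity
    linarith)
  have h6 : Hm β r v / (1 - Real.exp (-(2 * Real.pi * v / β))) ≤
      (midB β r v w + outB β r v) / (1 - Real.exp (-(2 * Real.pi * v / β))) :=
    div_le_div_of_nonneg_right (Hm_le hβ hr hw hw' hvw) (by linarith)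
  have h7 := mul_le_mul_of_nonneg_left h6 (Real.exp_pos (-(t * v / β))).le
  linarith

/-- `|R|` on a line at height `v < 0`, leg left as an integral -/
theorem norm_RR_far {β r t v w : ℝ} (hβ : 0 < β) (hr : 0 < r) (hv : v < 0) (hw : -(Real.pi / 2) < w)
    (hw' : w < Real.pi / 2) (hvw : β * r * Real.sin w = v * Real.exp v) :
    ‖Ft β r t - CC β r (t + 2 * Real.pi)‖ ≤ (Real.sqrt (2 * Real.pi * β))⁻¹ *
      (Real.exp (-(t * v / β)) * ((midB β r v w + outB β r v) / (1 - Real.exp (2 * Real.pi * v / β))) +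
        Leg β r t (-Real.pi) v) := by
  refine (norm_RR_path hβ hr (inVm t) hv).trans ?_
  apply mul_le_mul_of_nonneg_left _ (by positivity)
  rw [HorR_full hβ hr.le hv, mul_div_assoc]
  have h5 : Real.exp (2 * Real.pi * v / β) < 1 := Real.exp_lt_one_iff.2 (by
    have := Real.pi_pos
    exact div_neg_of_neg_of_pos (mul_neg_of_pos_of_neg (by positivity) hv) hβ)
  have h6 : Hm β r v / (1 - Real.exp (2 * Real.pi * v / β)) ≤
      (midB β r v w + outB β r v) / (1 - Real.exp (2 * Real.pi * v / β)) :=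
    div_le_div_of_nonneg_right (Hm_le hβ hr hw hw' hvw) (by linarith)
  have h7 := mul_le_mul_of_nonneg_left h6 (Real.exp_pos (-(t * v / β))).le
  linarith

/-- `|A|` on a line at any height `v`, legs left as integrals -/
theorem norm_AA_far {β r t v w : ℝ} (hβ : 0 < β) (hr : 0 < r) (hw : -(Real.pi / 2) < w)
    (hw' : w < Real.pi / 2) (hvw : β * r * Real.sin w = v * Real.exp v) :
    ‖AA β r t‖ ≤ (Real.sqrt (2 * Real.pi * β))⁻¹ *
      (Real.exp (-(t * v / β)) * (midB β r v w + outB β r v) +
        Leg β r t (-Real.pi) v + Leg β r t Real.pi v) := by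
  have hpi := Real.pi_pos
  refine (norm_AA_path hβ hr (inVm t) (inV0 t) (by linarith) v).trans ?_
  apply mul_le_mul_of_nonneg_left _ (by positivity)
  rw [Hor_full]
  have h7 := mul_le_mul_of_nonneg_left (Hm_le hβ hr hw hw' hvw) (Real.exp_pos (-(t * v / β))).le
  linarith

/-- leg at `π`, with the same dependence on `t` as the line -/
theorem Leg_pi_le {β r t v : ℝ} (hr : 0 ≤ r) (hδ : 0 < (Real.pi - t) / β + r * Real.exp (-v)) :
    Leg β r t Real.pi v ≤ Real.exp (-(t * v / β)) *
      (Real.exp (Real.pi * v / β - r * Real.exp (-v)) / ((Real.pi - t) / β + r * Real.exp (-v))) := by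
  have h := Leg_le (β := β) (r := r) (t := t) (S := Real.pi) (v := v) hr (by rw [Real.cos_pi]; norm_num)
    (by rw [Real.cos_pi]; linarith)
  rw [Real.cos_pi] at h
  have e1 : (Real.pi - t) / β - r * -1 * Real.exp (-v) = (Real.pi - t) / β + r * Real.exp (-v) := by ring
  rw [e1] at h
  refine h.trans (le_of_eq ?_)
  rw [← mul_div_assoc, ← Real.exp_add]
  unfold mg
  rw [Real.cos_pi]
  congr 2
  ring

/-- leg at `-π`, with the same dependence on `t` as the line -/
theorem Leg_neg_pi_le {β r t v : ℝ} (hr : 0 ≤ r) (hδ : 0 < (-Real.pi - t) / β + r * Real.exp (-v)) :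
    Leg β r t (-Real.pi) v ≤ Real.exp (-(t * v / β)) *
      (Real.exp (-(Real.pi * v / β) - r * Real.exp (-v)) / ((-Real.pi - t) / β + r * Real.exp (-v))) := by
  have h := Leg_le (β := β) (r := r) (t := t) (S := -Real.pi) (v := v) hr
    (by rw [Real.cos_neg, Real.cos_pi]; norm_num) (by rw [Real.cos_neg, Real.cos_pi]; linarith)
  rw [Real.cos_neg, Real.cos_pi] at h
  have e1 : (-Real.pi - t) / β - r * -1 * Real.exp (-v) = (-Real.pi - t) / β + r * Real.exp (-v) := by ring
  rw [e1] at h
  refine h.trans (le_of_eq ?_)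
  rw [← mul_div_assoc, ← Real.exp_add]
  unfold mg
  rw [Real.cos_neg, Real.cos_pi]
  congr 2
  ring

end Sok
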