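import Mathlib
import Pool.Agent.Lib.MP_816dec_an.A0Brom

/-!
MP_816dec_an: Fourier inversion and Parseval for the Bromwich form of the valley function.
-/

set_option autoImplicit false

open Complex Set Filter Topology MeasureTheory
open scoped FourierTransform RealInnerProductSpace

namespace Sok

/-- Fourier integral without `2π` -/
noncomputable def fo (f : ℝ → ℂ) (r : ℝ) : ℂ := ∫ y : ℝ, f y * cexp (I * r * y)

private theorem norm_exp_I (r y : ℝ) : ‖cexp (I * r * y)‖ = 1 := by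
  have e1 : I * (r : ℂ) * y = ((r * y : ℝ) : ℂ) * I := by push_cast; ring
  rw [e1, Complex.norm_exp_ofReal_mul_I]

theorem fo_int {f : ℝ → ℂ} (hf : Integrable f) (r : ℝ) : Integrable fun y : ℝ => f y * cexp (I * r * y) := by
  refine hf.mul_bdd (c := 1) ?_ ?_
  · exact (by fun_prop : Continuous fun y : ℝ => cexp (I * r * y)).aestronglyMeasurable
  · exact Filter.Eventually.of_forall fun y => (norm_exp_I r y).le

theorem fo_cont {f : ℝ → ℂ} (hf : Integrable f) : Continuous (fo f) := by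
  unfold fo
  refine continuous_of_dominated (bound := fun y => ‖f y‖) (fun r => (fo_int hf r).aestronglyMeasurable) ?_
    hf.norm ?_
  · intro r
    refine Filter.Eventually.of_forall fun y => ?_
    rw [norm_mul, norm_exp_I, mul_one]
  · refine Filter.Eventually.of_forall fun y => ?_
    fun_prop

private theorem fourierInv_fo (f : ℝ → ℂ) (v : ℝ) : 𝓕⁻ f v = fo f (2 * Real.pi * v) := by
  rw [Real.fourierInv_eq', fo]
  congr 1
  funext y
  rw [smul_eq_mul, mul_comm]
  congr 2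
  simp
  ring

/-- Fourier inversion -/
theorem fo_inv {f : ℝ → ℂ} (hc : Continuous f) (hf : Integrable f) (hg : Integrable (fo f)) (y₀ : ℝ) :
    ∫ r : ℝ, fo f r * cexp (-(I * r * y₀)) = 2 * Real.pi * f y₀ := by
  have hpi := Real.pi_pos
  have h1 : Integrable (𝓕⁻ f) := by
    have h2 := hg.comp_mul_left' (R := 2 * Real.pi) (by positivity)
    refine h2.congr (Filter.Eventually.of_forall fun v => ?_)
    exact (fourierInv_fo f v).symm
  have h2 : Integrable (𝓕 f) := by
    refine h1.comp_neg.congr (Filter.Eventually.of_forall fun v => ?_)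
    simp only
    rw [Real.fourierInv_eq_fourier_neg, neg_neg]
  have h3 := congrFun (hc.fourier_fourierInv_eq hf h2) y₀
  rw [Real.fourier_real_eq_integral_exp_smul] at h3
  have h4 : (fun v : ℝ => cexp (((-2 * Real.pi * v * y₀ : ℝ) : ℂ) * I) • 𝓕⁻ f v) =
      fun v : ℝ => (fun r : ℝ => fo f r * cexp (-(I * r * y₀))) (2 * Real.pi * v) := by
    funext v
    simp only
    rw [fourierInv_fo, smul_eq_mul, mul_comm]
    congr 2
    push_cast
    ring
  rw [h4, Measure.integral_comp_mul_left (fun r : ℝ => fo f r * cexp (-(I * r * y₀))) (2 * Real.pi)] at h3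
  have h5 : |(2 * Real.pi)⁻¹| = (2 * Real.pi)⁻¹ := abs_of_pos (by positivity)
  rw [h5] at h3
  have h6 : (2 * (Real.pi : ℂ)) * (((2 * Real.pi)⁻¹ : ℝ) : ℂ) = 1 := by
    have : (Real.pi : ℂ) ≠ 0 := by exact_mod_cast hpi.ne'
    push_cast
    field_simp
  rw [← h3, Complex.real_smul, ← mul_assoc, h6, one_mul]

/-- Parseval -/
theorem fo_parseval {f₁ f₂ : ℝ → ℂ} (hc₁ : Continuous f₁) (hf₁ : Integrable f₁) (hg₁ : Integrable (fo f₁))
    (hf₂ : Integrable f₂) :
    ∫ r : ℝ, fo f₁ r * (starRingEnd ℂ) (fo f₂ r) = 2 * Real.pi * ∫ y : ℝ, f₁ y * (starRingEnd ℂ) (f₂ y) := by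
  have h1 : ∀ r : ℝ, (starRingEnd ℂ) (fo f₂ r) = ∫ y : ℝ, (starRingEnd ℂ) (f₂ y) * cexp (-(I * r * y)) := by
    intro r
    rw [fo, ← integral_conj]
    congr 1
    funext y
    rw [map_mul, ← Complex.exp_conj]
    congr 2
    simp
  have h2 : Integrable (fun p : ℝ × ℝ => fo f₁ p.1 * ((starRingEnd ℂ) (f₂ p.2) * cexp (-(I * p.1 * p.2))))
      (volume.prod volume) := by
    have h3 : Integrable (fun p : ℝ × ℝ => fo f₁ p.1 * (starRingEnd ℂ) (f₂ p.2)) (volume.prod volume) := by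
      have h5 : Integrable (fun y : ℝ => (starRingEnd ℂ) (f₂ y)) :=
        (LinearIsometryEquiv.integrable_comp_iff (Complex.conjLIE)).2 hf₂
      exact Integrable.mul_prod hg₁ h5
    have h4 := h3.mul_bdd (c := 1) (g := fun p : ℝ × ℝ => cexp (-(I * p.1 * p.2))) ?_ ?_
    · refine h4.congr (Filter.Eventually.of_forall fun p => ?_)
      simp only
      ring
    · exact (by fun_prop : Continuous fun p : ℝ × ℝ => cexp (-(I * p.1 * p.2))).aestronglyMeasurable
    · refine Filter.Eventually.of_forall fun p => ?_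
      have e1 : -(I * (p.1 : ℂ) * p.2) = I * ((-p.1 : ℝ) : ℂ) * p.2 := by push_cast; ring
      rw [e1, norm_exp_I]
  calc ∫ r : ℝ, fo f₁ r * (starRingEnd ℂ) (fo f₂ r)
      = ∫ r : ℝ, ∫ y : ℝ, fo f₁ r * ((starRingEnd ℂ) (f₂ y) * cexp (-(I * r * y))) := by
        congr 1
        funext r
        rw [h1, integral_const_mul]
    _ = ∫ y : ℝ, ∫ r : ℝ, fo f₁ r * ((starRingEnd ℂ) (f₂ y) * cexp (-(I * r * y))) :=
        integral_integral_swap h2
    _ = ∫ y : ℝ, 2 * Real.pi * (f₁ y * (starRingEnd ℂ) (f₂ y)) := by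
        congr 1
        funext y
        have h5 : (fun r : ℝ => fo f₁ r * ((starRingEnd ℂ) (f₂ y) * cexp (-(I * r * y)))) =
            fun r : ℝ => (starRingEnd ℂ) (f₂ y) * (fo f₁ r * cexp (-(I * r * y))) := by
          funext r; ring
        rw [h5, integral_const_mul, fo_inv hc₁ hf₁ hg₁]
        ring
    _ = _ := integral_const_mul _ _

/-- the Bromwich integrand on the line -/
noncomputable def El (β t c y : ℝ) : ℂ := EE β t ((c : ℂ) + y * I)

theorem Br_eq_fo (β t c r : ℝ) : Br β t c r = Real.exp (r * c) * fo (El β t c) r := by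
  rw [Br, fo, ← integral_const_mul]
  congr 1
  funext y
  rw [El]
  have e1 : cexp (r * ((c : ℂ) + y * I)) = ((Real.exp (r * c) : ℝ) : ℂ) * cexp (I * r * y) := by
    rw [Complex.ofReal_exp, ← Complex.exp_add]
    congr 1
    push_cast
    ring
  rw [e1]
  ring

theorem fo_eq_Br (β t c r : ℝ) : fo (El β t c) r = Real.exp (-(r * c)) * Br β t c r := by
  rw [Br_eq_fo, ← mul_assoc, ← Complex.ofReal_mul, ← Real.exp_add]
  simp

theorem Br_indep {β t c c' r : ℝ} (hβ : 0 < β) (ht : t < -(Real.pi / 2)) (hc : 0 < c) (hc' : 0 < c')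
    (hr : r ≠ 0) : Br β t c r = Br β t c' r := by
  rcases lt_or_gt_of_ne hr with h | h
  · rw [Br_neg hβ h ht hc, Br_neg hβ h ht hc']
  · have h1 := AA_eq_Br hβ h ht hc
    rw [AA_eq_Br hβ h ht hc'] at h1
    exact (mul_left_cancel₀ (Complex.exp_ne_zero _) h1).symm

theorem El_cont {β t c : ℝ} (hc : 0 < c) : Continuous (El β t c) := EE_cont hc

theorem El_int {β t c : ℝ} (hβ : 0 < β) (ht : t < -(Real.pi / 2)) (hc : 0 < c) : Integrable (El β t c) :=
  EE_int hβ ht hc

/-- the Fourier integral is integrable -/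
theorem fo_El_int {β t c : ℝ} (hβ : 0 < β) (ht : t < -(Real.pi / 2)) (hc : 0 < c) :
    Integrable (fo (El β t c)) := by
  have h1 : IntegrableOn (fo (El β t c)) (Ioi 0) := by
    have h2 : IntegrableOn (fun r : ℝ => (∫ y : ℝ, ‖EE β t (((c / 2 : ℝ) : ℂ) + y * I)‖) *
        Real.exp (-(c / 2) * r)) (Ioi 0) :=
      (exp_neg_integrableOn_Ioi 0 (by positivity)).const_mul _
    refine h2.mono' (fo_cont (El_int hβ ht hc)).aestronglyMeasurable ?_
    refine (ae_restrict_iff' measurableSet_Ioi).2 (Filter.Eventually.of_forall fun r hr => ?_)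
    rw [fo_eq_Br, Br_indep hβ ht hc (half_pos hc) (ne_of_gt (mem_Ioi.1 hr)), norm_mul, Complex.norm_real,
      Real.norm_of_nonneg (Real.exp_pos _).le]
    have h3 := norm_Br_le β t (c / 2) r
    calc Real.exp (-(r * c)) * ‖Br β t (c / 2) r‖ ≤ Real.exp (-(r * c)) *
          ((∫ y : ℝ, ‖EE β t (((c / 2 : ℝ) : ℂ) + y * I)‖) * Real.exp (r * (c / 2))) :=
          mul_le_mul_of_nonneg_left h3 (Real.exp_pos _).le
      _ = (∫ y : ℝ, ‖EE β t (((c / 2 : ℝ) : ℂ) + y * I)‖) * (Real.exp (-(r * c)) * Real.exp (r * (c / 2))) := by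
          ring
      _ = _ := by
          rw [← Real.exp_add]
          congr 2
          ring
  have h2 : IntegrableOn (fo (El β t c)) (Iio 0) := by
    have h3 : IntegrableOn (fun _ : ℝ => (0 : ℂ)) (Iio 0) := integrableOn_zero
    refine h3.congr_fun (fun r hr => ?_) measurableSet_Iio
    rw [fo_eq_Br, Br_neg hβ hr ht hc, mul_zero]
  have h3 : IntegrableOn (fo (El β t c)) (Iic 0) := (integrableOn_Iic_iff_integrableOn_Iio).2 h2
  rw [← integrableOn_univ, ← Iic_union_Ioi (a := (0 : ℝ))]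
  exact h3.union h1

/-- **Laplace transform of a product of valley functions** -/
theorem lap_prod {β t₁ t₂ c : ℝ} (hβ : 0 < β) (ht₁ : t₁ < -(Real.pi / 2)) (ht₂ : t₂ < -(Real.pi / 2))
    (hc : 0 < c) :
    IntegrableOn (fun r : ℝ => cexp (-((2 * c : ℝ) * r)) * (Br β t₁ 1 r * (starRingEnd ℂ) (Br β t₂ 1 r))) (Ioi 0) ∧
    ∫ r in Ioi (0 : ℝ), cexp (-((2 * c : ℝ) * r)) * (Br β t₁ 1 r * (starRingEnd ℂ) (Br β t₂ 1 r)) =
      2 * Real.pi * ∫ y : ℝ, El β t₁ c y * (starRingEnd ℂ) (El β t₂ c y) := by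
  have e1 : ∀ r ∈ Ioi (0 : ℝ), fo (El β t₁ c) r * (starRingEnd ℂ) (fo (El β t₂ c) r) =
      cexp (-((2 * c : ℝ) * r)) * (Br β t₁ 1 r * (starRingEnd ℂ) (Br β t₂ 1 r)) := by
    intro r hr
    have hr0 : r ≠ 0 := ne_of_gt (mem_Ioi.1 hr)
    rw [fo_eq_Br, fo_eq_Br, Br_indep hβ ht₁ hc one_pos hr0, Br_indep hβ ht₂ hc one_pos hr0, map_mul,
      Complex.conj_ofReal]
    have e2 : cexp (-((2 * c : ℝ) * r)) = ((Real.exp (-(r * c)) : ℝ) : ℂ) * ((Real.exp (-(r * c)) : ℝ) : ℂ) := by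
      rw [Complex.ofReal_exp, ← Complex.exp_add]
      congr 1
      push_cast
      ring
    rw [e2]
    ring
  have hbd : ∀ r, ‖fo (El β t₂ c) r‖ ≤ ∫ y : ℝ, ‖El β t₂ c y‖ := by
    intro r
    refine (norm_integral_le_integral_norm _).trans (le_of_eq ?_)
    congr 1
    funext y
    rw [norm_mul, norm_exp_I, mul_one]
  have h1 : Integrable (fun r : ℝ => fo (El β t₁ c) r * (starRingEnd ℂ) (fo (El β t₂ c) r)) := by
    refine (fo_El_int hβ ht₁ hc).mul_bdd (c := ∫ y : ℝ, ‖El β t₂ c y‖) ?_ ?_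
    · exact (Complex.continuous_conj.comp (fo_cont (El_int hβ ht₂ hc))).aestronglyMeasurable
    · refine Filter.Eventually.of_forall fun r => ?_
      rw [RCLike.norm_conj]
      exact hbd r
  refine ⟨h1.integrableOn.congr_fun e1 measurableSet_Ioi, ?_⟩
  rw [← setIntegral_congr_fun measurableSet_Ioi e1, ← fo_parseval (El_cont hc) (El_int hβ ht₁ hc)
    (fo_El_int hβ ht₁ hc) (El_int hβ ht₂ hc)]
  rw [← intervalIntegral.integral_Iic_add_Ioi h1.integrableOn h1.integrableOn (b := (0 : ℝ))]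
  have h2 : ∫ r in Iic (0 : ℝ), fo (El β t₁ c) r * (starRingEnd ℂ) (fo (El β t₂ c) r) = 0 := by
    rw [integral_Iic_eq_integral_Iio]
    rw [setIntegral_congr_fun (g := fun _ => (0 : ℂ)) measurableSet_Iio]
    · simp
    · intro r hr
      simp only
      rw [fo_eq_Br, Br_neg hβ hr ht₁ hc, mul_zero, zero_mul]
  rw [h2, zero_add]

theorem Br_cont {β t c : ℝ} (hβ : 0 < β) (ht : t < -(Real.pi / 2)) (hc : 0 < c) : Continuous (Br β t c) := by
  have h1 : Br β t c = fun r : ℝ => ((Real.exp (r * c) : ℝ) : ℂ) * fo (El β t c) r := by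
    funext r
    exact Br_eq_fo β t c r
  rw [h1]
  have := fo_cont (El_int hβ ht hc)
  fun_prop

end Sok
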