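import Mathlib
import Pool.Agent.Lib.MP_816dec_an.A0Lap

/-!
MP_816dec_an: the substitution `l = c (1 + i tan u)` in the product of two Bromwich integrands.
-/

set_option autoImplicit false

open Complex Set Filter Topology MeasureTheory

namespace Sok

/-- the frequency -/
noncomputable def nn (β t u : ℝ) : ℝ := 2 * (u - t) / β

theorem nn_pos {β t u : ℝ} (hβ : 0 < β) (h : t < u) : 0 < nn β t u := by
  unfold nn
  exact div_pos (by linarith) hβ

private theorem log_line {c u : ℝ} (hc : 0 < c) (hu : u ∈ Ioo (-(Real.pi / 2)) (Real.pi / 2)) :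
    Complex.log ((c : ℂ) + ((c * Real.tan u : ℝ) : ℂ) * I) = ((Real.log (c / Real.cos u) : ℝ) : ℂ) + u * I := by
  have hcos : 0 < Real.cos u := Real.cos_pos_of_mem_Ioo hu
  have e1 : (c : ℂ) + ((c * Real.tan u : ℝ) : ℂ) * I = ((c / Real.cos u : ℝ) : ℂ) * cexp (u * I) := by
    rw [Complex.exp_mul_I, ← Complex.ofReal_cos, ← Complex.ofReal_sin, Real.tan_eq_sin_div_cos]
    have : ((Real.cos u : ℝ) : ℂ) ≠ 0 := by exact_mod_cast hcos.ne'
    push_cast at this ⊢
    field_simp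
  rw [e1, Complex.log_ofReal_mul (div_pos hc hcos) (Complex.exp_ne_zero _), Complex.log_exp]
  · simp; linarith [hu.1, Real.pi_pos]
  · simp; linarith [hu.2, Real.pi_pos]

private theorem prod_exp {β t₁ t₂ l u : ℝ} (hβ : 0 < β) :
    cexp (((t₁ / β - 1 : ℝ) : ℂ) * ((l : ℂ) + u * I) + I / (2 * β) * ((l : ℂ) + u * I) ^ 2) *
      (starRingEnd ℂ) (cexp (((t₂ / β - 1 : ℝ) : ℂ) * ((l : ℂ) + u * I) + I / (2 * β) * ((l : ℂ) + u * I) ^ 2)) =
    cexp (I * u * ((t₁ - t₂) / β : ℝ)) * ((Real.exp (-(nn β ((t₁ + t₂) / 2) u + 2) * l) : ℝ) : ℂ) := by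
  have hb : (β : ℂ) ≠ 0 := by exact_mod_cast hβ.ne'
  rw [← Complex.exp_conj, Complex.ofReal_exp, ← Complex.exp_add, ← Complex.exp_add]
  congr 1
  simp only [map_add, map_mul, map_div₀, map_pow, Complex.conj_ofReal, Complex.conj_I, map_ofNat]
  unfold nn
  push_cast
  field_simp
  have := Complex.I_sq
  linear_combination (4 * (u : ℂ) * l) * this

/-- **the substitution** -/
theorem subst_El {β t₁ t₂ c : ℝ} (hβ : 0 < β) (hc : 0 < c) :
    ∫ y : ℝ, El β t₁ c y * (starRingEnd ℂ) (El β t₂ c y) =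
      ∫ u in (-(Real.pi / 2))..(Real.pi / 2), cexp (I * u * ((t₁ - t₂) / β : ℝ)) *
        ((Real.cos u ^ nn β ((t₁ + t₂) / 2) u * c ^ (-nn β ((t₁ + t₂) / 2) u - 1) : ℝ) : ℂ) := by
  have hpi := Real.pi_pos
  obtain ⟨s, hs⟩ : ∃ s : Set ℝ, s = Ioo (-(Real.pi / 2)) (Real.pi / 2) := ⟨_, rfl⟩
  have himg : (fun u : ℝ => c * Real.tan u) '' s = univ := by
    rw [eq_univ_iff_forall]
    intro y
    refine ⟨Real.arctan (y / c), ?_, ?_⟩
    · rw [hs]
      exact ⟨by linarith [Real.neg_pi_div_two_lt_arctan (y / c)], Real.arctan_lt_pi_div_two _⟩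
    · simp only
      rw [Real.tan_arctan]
      field_simp
  have hder : ∀ u ∈ s, HasDerivWithinAt (fun u : ℝ => c * Real.tan u) (c * (1 / Real.cos u ^ 2)) s u := by
    intro u hu
    rw [hs] at hu
    exact ((Real.hasDerivAt_tan_of_mem_Ioo hu).const_mul c).hasDerivWithinAt
  have hinj : InjOn (fun u : ℝ => c * Real.tan u) s := by
    intro a ha b hb hab
    rw [hs] at ha hb
    exact Real.tan_inj_of_lt_of_lt_pi_div_two ha.1 ha.2 hb.1 hb.2 (mul_left_cancel₀ hc.ne' hab)
  have hms : MeasurableSet s := by rw [hs]; exact measurableSet_Ioo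
  have h1 := integral_image_eq_integral_abs_deriv_smul hms hder hinj
    (fun y : ℝ => El β t₁ c y * (starRingEnd ℂ) (El β t₂ c y))
  rw [himg, setIntegral_univ] at h1
  rw [h1, intervalIntegral.integral_of_le (by linarith), integral_Ioc_eq_integral_Ioo, ← hs]
  refine setIntegral_congr_fun hms fun u hu => ?_
  rw [hs] at hu
  have hcos : 0 < Real.cos u := Real.cos_pos_of_mem_Ioo hu
  rw [El, El, EE, EE, log_line hc hu, prod_exp hβ, Complex.real_smul]
  have e1 : |c * (1 / Real.cos u ^ 2)| * Real.exp (-(nn β ((t₁ + t₂) / 2) u + 2) * Real.log (c / Real.cos u)) =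
      Real.cos u ^ nn β ((t₁ + t₂) / 2) u * c ^ (-nn β ((t₁ + t₂) / 2) u - 1) := by
    rw [abs_of_pos (by positivity), Real.rpow_def_of_pos hcos, Real.rpow_def_of_pos hc]
    have e2 : c * (1 / Real.cos u ^ 2) = Real.exp (Real.log c - 2 * Real.log (Real.cos u)) := by
      rw [Real.exp_sub, Real.exp_log hc]
      have : Real.exp (2 * Real.log (Real.cos u)) = Real.cos u ^ 2 := by
        rw [two_mul, Real.exp_add, Real.exp_log hcos]; ring
      rw [this]
      ring
    rw [e2, ← Real.exp_add, ← Real.exp_add, Real.log_div hc.ne' hcos.ne']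
    congr 1
    ring
  rw [← e1]
  push_cast
  ring

end Sok
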