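import Mathlib
import Pool.Agent.Lib.MP_816dec_an.A0Sub

/-!
MP_816dec_an: the right side of the kernel formula, its continuity and its Laplace transform in `r`.
-/

set_option autoImplicit false

open Complex Set Filter Topology MeasureTheory

namespace Sok

/-- the right side of the kernel formula -/
noncomputable def gK (β t0 d r : ℝ) : ℂ := ∫ u in (-(Real.pi/2))..(Real.pi/2),
  Complex.exp (I * u * d) * (((2 * r * Real.cos u) ^ (nn β t0 u) / Real.Gamma (1 + nn β t0 u) : ℝ) : ℂ)

private theorem gamma_cont {X : Type*} [TopologicalSpace X] {f : X → ℝ} (hf : Continuous f) (h : ∀ x, 0 < f x) :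
    Continuous fun x => Real.Gamma (f x) := by
  rw [continuous_iff_continuousAt]
  intro x
  have h1 : ContinuousAt Real.Gamma (f x) := by
    apply (Real.differentiableAt_Gamma fun m => ?_).continuousAt
    have h2 := h x
    have h3 : (0 : ℝ) ≤ m := Nat.cast_nonneg m
    intro h4
    linarith
  exact ContinuousAt.comp (f := f) h1 hf.continuousAt

/-- positive continuous frequency -/
private noncomputable def mm (β t0 u : ℝ) : ℝ := max (nn β t0 u) (nn β t0 (-(Real.pi / 2)))

private theorem mm_cont (β t0 : ℝ) : Continuous (mm β t0) := by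
  unfold mm nn; fun_prop

private theorem mm_pos {β t0 : ℝ} (hβ : 0 < β) (ht : t0 < -(Real.pi / 2)) (u : ℝ) : 0 < mm β t0 u :=
  lt_max_of_lt_right (nn_pos hβ ht)

private theorem mm_eq {β t0 u : ℝ} (hβ : 0 < β) (hu : -(Real.pi / 2) ≤ u) : mm β t0 u = nn β t0 u := by
  unfold mm nn
  apply max_eq_left
  apply div_le_div_of_nonneg_right _ hβ.le
  linarith

/-- the continuous version of the integrand -/
private noncomputable def kc (β t0 r u : ℝ) : ℝ :=
  (2 * |r| * |Real.cos u|) ^ (mm β t0 u) / Real.Gamma (1 + mm β t0 u)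

private theorem kc_cont {β t0 : ℝ} (hβ : 0 < β) (ht : t0 < -(Real.pi / 2)) :
    Continuous fun p : ℝ × ℝ => kc β t0 p.1 p.2 := by
  unfold kc
  have hm : Continuous fun p : ℝ × ℝ => mm β t0 p.2 := (mm_cont β t0).comp continuous_snd
  apply Continuous.div
  · apply Continuous.rpow (by fun_prop) hm
    intro p
    exact Or.inr (mm_pos hβ ht _)
  · exact gamma_cont (by fun_prop) fun p => by linarith [mm_pos hβ ht p.2]
  · intro p
    exact (Real.Gamma_pos_of_pos (by linarith [mm_pos hβ ht p.2])).ne'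

private theorem kc_eq {β t0 r u : ℝ} (hβ : 0 < β) (hr : 0 ≤ r) (hu : u ∈ Icc (-(Real.pi / 2)) (Real.pi / 2)) :
    kc β t0 r u = (2 * r * Real.cos u) ^ (nn β t0 u) / Real.Gamma (1 + nn β t0 u) := by
  have hcos : 0 ≤ Real.cos u := Real.cos_nonneg_of_neg_pi_div_two_le_of_le hu.1 hu.2
  rw [kc, mm_eq hβ hu.1, abs_of_nonneg hr, abs_of_nonneg hcos]

private theorem gK_eq {β t0 : ℝ} (hβ : 0 < β) (d : ℝ) {r : ℝ} (hr : 0 ≤ r) :
    gK β t0 d r = ∫ u in (-(Real.pi/2))..(Real.pi/2), cexp (I * u * d) * ((kc β t0 r u : ℝ) : ℂ) := by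
  rw [gK]
  apply intervalIntegral.integral_congr
  intro u hu
  rw [uIcc_of_le (by linarith [Real.pi_pos])] at hu
  simp only
  rw [kc_eq hβ hr hu]

theorem gK_continuousOn {β t0 : ℝ} (hβ : 0 < β) (ht : t0 < -(Real.pi / 2)) (d : ℝ) :
    ContinuousOn (gK β t0 d) (Ioi 0) := by
  have h1 : Continuous fun r : ℝ => ∫ u in (-(Real.pi/2))..(Real.pi/2), cexp (I * u * d) * ((kc β t0 r u : ℝ) : ℂ) := by
    apply intervalIntegral.continuous_parametric_intervalIntegral_of_continuous'
    have h2 := kc_cont hβ ht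
    have h3 : Continuous fun p : ℝ × ℝ => ((kc β t0 p.1 p.2 : ℝ) : ℂ) := Complex.continuous_ofReal.comp h2
    exact (by fun_prop : Continuous fun p : ℝ × ℝ => cexp (I * p.2 * d)).mul h3
  refine h1.continuousOn.congr fun r hr => ?_
  exact gK_eq hβ d (le_of_lt hr)

private theorem gam_int {β t0 c u : ℝ} (hβ : 0 < β) (ht : t0 < -(Real.pi / 2)) (hc : 0 < c)
    (hu : u ∈ Icc (-(Real.pi / 2)) (Real.pi / 2)) :
    IntegrableOn (fun r : ℝ => Real.exp (-(c * r)) * kc β t0 r u) (Ioi 0) ∧
    ∫ r in Ioi (0 : ℝ), Real.exp (-(c * r)) * kc β t0 r u =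
      (2 * Real.cos u) ^ (nn β t0 u) * c ^ (-(nn β t0 u) - 1) := by
  have hcos : 0 ≤ Real.cos u := Real.cos_nonneg_of_neg_pi_div_two_le_of_le hu.1 hu.2
  have hn : 0 < nn β t0 u := nn_pos hβ (lt_of_lt_of_le ht hu.1)
  have hG : 0 < Real.Gamma (nn β t0 u + 1) := Real.Gamma_pos_of_pos (by linarith)
  obtain ⟨K, hK⟩ : ∃ K : ℝ, K = (2 * Real.cos u) ^ (nn β t0 u) / Real.Gamma (nn β t0 u + 1) := ⟨_, rfl⟩
  have h1 : ∀ r ∈ Ioi (0 : ℝ), Real.exp (-(c * r)) * kc β t0 r u =
      K * (r ^ (nn β t0 u + 1 - 1) * Real.exp (-(c * r))) := by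
    intro r hr
    have hr0 : (0 : ℝ) < r := hr
    rw [kc_eq hβ hr0.le hu, hK, add_sub_cancel_right, add_comm 1]
    have e1 : 2 * r * Real.cos u = (2 * Real.cos u) * r := by ring
    rw [e1, Real.mul_rpow (by positivity) hr0.le]
    ring
  have h2 : ∫ r in Ioi (0 : ℝ), r ^ (nn β t0 u + 1 - 1) * Real.exp (-(c * r)) =
      (1 / c) ^ (nn β t0 u + 1) * Real.Gamma (nn β t0 u + 1) :=
    Real.integral_rpow_mul_exp_neg_mul_Ioi (by linarith) hc
  have h3 : IntegrableOn (fun r : ℝ => r ^ (nn β t0 u + 1 - 1) * Real.exp (-(c * r))) (Ioi 0) := by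
    have h4 : (∫ r in Ioi (0 : ℝ), r ^ (nn β t0 u + 1 - 1) * Real.exp (-(c * r))) ≠ 0 := by
      rw [h2]
      positivity
    by_contra h5
    exact h4 (integral_undef h5)
  have h6 : IntegrableOn (fun r : ℝ => K * (r ^ (nn β t0 u + 1 - 1) * Real.exp (-(c * r)))) (Ioi 0) :=
    h3.const_mul K
  refine ⟨h6.congr_fun (fun r hr => (h1 r hr).symm) measurableSet_Ioi, ?_⟩
  rw [setIntegral_congr_fun measurableSet_Ioi h1, integral_const_mul, h2, hK]
  have e2 : (1 / c) ^ (nn β t0 u + 1) = c ^ (-(nn β t0 u) - 1) := by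
    rw [one_div, Real.inv_rpow hc.le, ← Real.rpow_neg hc.le]
    congr 1
    ring
  rw [e2]
  field_simp

private theorem kc_nonneg {β t0 r u : ℝ} (hβ : 0 < β) (ht : t0 < -(Real.pi / 2)) : 0 ≤ kc β t0 r u := by
  unfold kc
  exact div_nonneg (Real.rpow_nonneg (by positivity) _)
    (Real.Gamma_pos_of_pos (by linarith [mm_pos hβ ht u])).le

theorem gK_laplace {β t0 : ℝ} (hβ : 0 < β) (ht : t0 < -(Real.pi / 2)) (d : ℝ) {c : ℝ} (hc : 0 < c) :
    IntegrableOn (fun r : ℝ => Complex.exp (-(c * r)) * gK β t0 d r) (Ioi 0) ∧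
    ∫ r in Ioi (0 : ℝ), Complex.exp (-(c * r)) * gK β t0 d r = ∫ u in (-(Real.pi/2))..(Real.pi/2),
      Complex.exp (I * u * d) * (((2 * Real.cos u) ^ (nn β t0 u) * c ^ (-(nn β t0 u) - 1) : ℝ) : ℂ) := by
  have hpi := Real.pi_pos
  obtain ⟨J, hJ⟩ : ∃ J : Set ℝ, J = Ioc (-(Real.pi / 2)) (Real.pi / 2) := ⟨_, rfl⟩
  have hJm : MeasurableSet J := by rw [hJ]; exact measurableSet_Ioc
  have hJI : ∀ u ∈ J, u ∈ Icc (-(Real.pi / 2)) (Real.pi / 2) := by
    intro u hu; rw [hJ] at hu; exact Ioc_subset_Icc_self hu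
  obtain ⟨f, hf⟩ : ∃ f : ℝ × ℝ → ℂ, f = fun p : ℝ × ℝ => cexp (-(c * p.1)) * (cexp (I * p.2 * d) *
    ((kc β t0 p.1 p.2 : ℝ) : ℂ)) := ⟨_, rfl⟩
  have hfc : Continuous f := by
    rw [hf]
    have h3 : Continuous fun p : ℝ × ℝ => ((kc β t0 p.1 p.2 : ℝ) : ℂ) :=
      Complex.continuous_ofReal.comp (kc_cont hβ ht)
    fun_prop
  have hexp : ∀ r : ℝ, ‖cexp (-((c : ℂ) * r))‖ = Real.exp (-(c * r)) := by
    intro r
    rw [Complex.norm_exp]
    congr 1
    simp
  have hosc : ∀ u : ℝ, ‖cexp (I * (u : ℂ) * d)‖ = 1 := by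
    intro u
    have : I * (u : ℂ) * d = ((u * d : ℝ) : ℂ) * I := by push_cast; ring
    rw [this, Complex.norm_exp_ofReal_mul_I]
  have hnorm : ∀ r u : ℝ, ‖f (r, u)‖ = Real.exp (-(c * r)) * kc β t0 r u := by
    intro r u
    rw [hf]
    simp only
    rw [norm_mul, norm_mul, hexp, hosc, one_mul, Complex.norm_real, Real.norm_of_nonneg (kc_nonneg hβ ht)]
  have hsec : ∀ u ∈ J, Integrable (fun r : ℝ => f (r, u)) (volume.restrict (Ioi 0)) := by
    intro u hu
    have h1 := (gam_int hβ ht hc (hJI u hu)).1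
    refine (integrable_norm_iff ?_).1 ?_
    · exact (hfc.comp (by fun_prop : Continuous fun r : ℝ => (r, u))).aestronglyMeasurable
    · refine h1.congr (Filter.Eventually.of_forall fun r => ?_)
      exact (hnorm r u).symm
  have hint : Integrable f ((volume.restrict (Ioi 0)).prod (volume.restrict J)) := by
    rw [integrable_prod_iff' hfc.aestronglyMeasurable]
    constructor
    · exact (ae_restrict_iff' hJm).2 (Filter.Eventually.of_forall fun u hu => hsec u hu)
    · have h2 : IntegrableOn (fun u : ℝ => (2 * |Real.cos u|) ^ (mm β t0 u) * c ^ (-(mm β t0 u) - 1)) J := by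
        have h3 : Continuous fun u : ℝ => (2 * |Real.cos u|) ^ (mm β t0 u) * c ^ (-(mm β t0 u) - 1) := by
          have hm := mm_cont β t0
          apply Continuous.mul
          · apply Continuous.rpow (by fun_prop) hm
            intro u
            exact Or.inr (mm_pos hβ ht _)
          · apply Continuous.rpow continuous_const (by fun_prop)
            intro u
            exact Or.inl hc.ne'
        rw [hJ]
        exact (h3.continuousOn.integrableOn_Icc).mono_set Ioc_subset_Icc_self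
      refine h2.congr_fun (fun u hu => ?_) hJm
      simp only [hnorm]
      rw [(gam_int hβ ht hc (hJI u hu)).2, mm_eq hβ (hJI u hu).1, abs_of_nonneg
        (Real.cos_nonneg_of_neg_pi_div_two_le_of_le (hJI u hu).1 (hJI u hu).2)]
  have hinner : ∀ r ∈ Ioi (0 : ℝ), (∫ u in J, f (r, u)) = cexp (-(c * r)) * gK β t0 d r := by
    intro r hr
    rw [gK_eq hβ d (le_of_lt hr), intervalIntegral.integral_of_le (by linarith), ← hJ, ← integral_const_mul, hf]
  constructor
  · have h1 : IntegrableOn (fun r : ℝ => ∫ u in J, f (r, u)) (Ioi 0) := hint.integral_prod_left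
    exact h1.congr_fun hinner measurableSet_Ioi
  · rw [← setIntegral_congr_fun measurableSet_Ioi hinner, integral_integral_swap (f := fun r u => f (r, u)) hint,
      intervalIntegral.integral_of_le (by linarith), ← hJ]
    refine setIntegral_congr_fun hJm fun u hu => ?_
    rw [← (gam_int hβ ht hc (hJI u hu)).2, ← integral_complex_ofReal, ← integral_const_mul]
    congr 1
    funext r
    rw [hf]
    simp only
    push_cast
    ring

/-- continuity at the axis -/
theorem gK_axis {β r : ℝ} (hβ : 0 < β) (hr : 0 < r) :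
    Tendsto (fun t0 : ℝ => gK β t0 0 r) (𝓝[<] (-(Real.pi / 2))) (𝓝 (gK β (-(Real.pi / 2)) 0 r)) := by
  have hpi := Real.pi_pos
  unfold gK
  simp only [intervalIntegral.integral_of_le (by linarith : -(Real.pi / 2) ≤ Real.pi / 2),
    integral_Ioc_eq_integral_Ioo]
  -- bound of `1/Γ(1+n)` for `0 ≤ n ≤ N`
  obtain ⟨N, hN⟩ : ∃ N : ℝ, N = 2 * (Real.pi + 1) / β := ⟨_, rfl⟩
  obtain ⟨B, hB⟩ : ∃ B : ℝ, ∀ n ∈ Icc (0 : ℝ) N, (Real.Gamma (1 + n))⁻¹ ≤ B := by
    have hc : ContinuousOn (fun n : ℝ => (Real.Gamma (1 + n))⁻¹) (Icc 0 N) := by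
      apply ContinuousOn.inv₀
      · intro n hn
        have h1 : ContinuousAt Real.Gamma (1 + n) := by
          apply (Real.differentiableAt_Gamma fun m => ?_).continuousAt
          have h2 := hn.1
          have h3 : (0 : ℝ) ≤ m := Nat.cast_nonneg m
          intro h4
          linarith
        exact (ContinuousAt.comp (f := fun n : ℝ => 1 + n) h1 (by fun_prop)).continuousWithinAt
      · intro n hn
        exact (Real.Gamma_pos_of_pos (by linarith [hn.1])).ne'
    obtain ⟨B, hB⟩ := isCompact_Icc.bddAbove_image hc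
    exact ⟨B, fun n hn => hB ⟨n, hn, rfl⟩⟩
  apply tendsto_integral_filter_of_dominated_convergence (bound := fun _ => (max 1 (2 * r)) ^ N * B)
  · -- measurability
    filter_upwards [self_mem_nhdsWithin] with t ht
    have ht' : t < -(Real.pi / 2) := ht
    have h1 : Continuous fun u : ℝ => cexp (I * u * (0 : ℝ)) * ((kc β t r u : ℝ) : ℂ) := by
      have h2 := (kc_cont hβ ht').comp (by fun_prop : Continuous fun u : ℝ => (r, u))
      have h3 : Continuous fun u : ℝ => ((kc β t r u : ℝ) : ℂ) := Complex.continuous_ofReal.comp h2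
      fun_prop
    refine (h1.aestronglyMeasurable (μ := volume.restrict (Ioo (-(Real.pi / 2)) (Real.pi / 2)))).congr ?_
    refine (ae_restrict_iff' measurableSet_Ioo).2 (Filter.Eventually.of_forall fun u hu => ?_)
    simp only
    rw [kc_eq hβ hr.le (Ioo_subset_Icc_self hu)]
  · have hev : ∀ᶠ t in 𝓝[<] (-(Real.pi / 2)), -(Real.pi / 2) - 1 < t :=
      mem_nhdsWithin_of_mem_nhds (Ioi_mem_nhds (by linarith))
    filter_upwards [self_mem_nhdsWithin, hev] with t ht ht1
    have ht' : t < -(Real.pi / 2) := ht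
    refine (ae_restrict_iff' measurableSet_Ioo).2 (Filter.Eventually.of_forall fun u hu => ?_)
    have hcos : 0 < Real.cos u := Real.cos_pos_of_mem_Ioo hu
    have hn : 0 < nn β t u := nn_pos hβ (ht'.trans hu.1)
    have hnN : nn β t u ≤ N := by
      unfold nn
      rw [hN]
      apply div_le_div_of_nonneg_right _ hβ.le
      linarith [hu.2]
    have hGp : 0 < Real.Gamma (1 + nn β t u) := Real.Gamma_pos_of_pos (by linarith)
    rw [norm_mul, Complex.norm_real, Real.norm_of_nonneg (div_nonneg (Real.rpow_nonneg (by positivity) _) hGp.le)]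
    have e1 : ‖cexp (I * (u : ℂ) * ((0 : ℝ) : ℂ))‖ = 1 := by simp
    rw [e1, one_mul, div_eq_mul_inv]
    have h1 : (2 * r * Real.cos u) ^ (nn β t u) ≤ (max 1 (2 * r)) ^ N := by
      calc (2 * r * Real.cos u) ^ (nn β t u) ≤ (max 1 (2 * r)) ^ (nn β t u) := by
            apply Real.rpow_le_rpow (by positivity) _ hn.le
            refine le_trans ?_ (le_max_right _ _)
            nlinarith [Real.cos_le_one u]
        _ ≤ (max 1 (2 * r)) ^ N := Real.rpow_le_rpow_of_exponent_le (le_max_left _ _) hnN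
    exact mul_le_mul h1 (hB _ ⟨hn.le, hnN⟩) (inv_pos.2 hGp).le (by positivity)
  · exact integrableOn_const (by simp) enorm_ne_top
  · refine (ae_restrict_iff' measurableSet_Ioo).2 (Filter.Eventually.of_forall fun u hu => ?_)
    have hcos : 0 < Real.cos u := Real.cos_pos_of_mem_Ioo hu
    have hn : 0 < nn β (-(Real.pi / 2)) u := nn_pos hβ hu.1
    have hnc : ContinuousAt (fun t : ℝ => nn β t u) (-(Real.pi / 2)) := by
      unfold nn
      fun_prop
    have h1 : ContinuousAt (fun t : ℝ => (2 * r * Real.cos u) ^ (nn β t u) / Real.Gamma (1 + nn β t u))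
        (-(Real.pi / 2)) := by
      apply ContinuousAt.div
      · exact ContinuousAt.rpow continuousAt_const hnc (Or.inl (by positivity))
      · have h2 : ContinuousAt Real.Gamma (1 + nn β (-(Real.pi / 2)) u) := by
          apply (Real.differentiableAt_Gamma fun m => ?_).continuousAt
          have h3 : (0 : ℝ) ≤ m := Nat.cast_nonneg m
          intro h4
          linarith
        exact ContinuousAt.comp (f := fun t : ℝ => 1 + nn β t u) h2 (continuousAt_const.add hnc)
      · exact (Real.Gamma_pos_of_pos (by linarith)).ne'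
    have h2 : ContinuousAt (fun t : ℝ => cexp (I * u * (0 : ℝ)) * (((2 * r * Real.cos u) ^ (nn β t u) /
        Real.Gamma (1 + nn β t u) : ℝ) : ℂ)) (-(Real.pi / 2)) :=
      continuousAt_const.mul (Complex.continuous_ofReal.continuousAt.comp h1)
    exact h2.tendsto.mono_left nhdsWithin_le_nhds

end Sok
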