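import Mathlib

/-!
MP_816dec_an, row K7: uniqueness of the Laplace transform on `(0,∞)`, for a continuous function.
-/

set_option autoImplicit false

open Set Filter Topology MeasureTheory

namespace Sok

/-- moments with polynomial weights vanish -/
private theorem lu_poly {ψ : ℝ → ℂ} (hψ : IntegrableOn ψ (Ioi 0))
    (h : ∀ n : ℕ, ∫ r in Ioi (0:ℝ), ((Real.exp (-r) ^ n : ℝ) : ℂ) * ψ r = 0) (p : Polynomial ℝ) :
    ∫ r in Ioi (0:ℝ), ((p.eval (Real.exp (-r)) : ℝ) : ℂ) * ψ r = 0 := by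
  have hi : ∀ n : ℕ, IntegrableOn (fun r : ℝ => ((Real.exp (-r) ^ n : ℝ) : ℂ) * ψ r) (Ioi 0) := by
    intro n
    refine Integrable.bdd_mul hψ (c := 1) ?_ ?_
    · apply Continuous.aestronglyMeasurable
      fun_prop
    · refine (ae_restrict_iff' measurableSet_Ioi).2 (Filter.Eventually.of_forall fun r hr => ?_)
      rw [Complex.norm_real, Real.norm_of_nonneg (by positivity)]
      exact pow_le_one₀ (Real.exp_pos _).le (Real.exp_le_one_iff.2 (by linarith [mem_Ioi.1 hr]))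
  have e : ∀ r : ℝ, ((p.eval (Real.exp (-r)) : ℝ) : ℂ) * ψ r =
      ∑ n ∈ Finset.range (p.natDegree + 1), (p.coeff n : ℂ) * (((Real.exp (-r) ^ n : ℝ) : ℂ) * ψ r) := by
    intro r
    rw [Polynomial.eval_eq_sum_range]
    push_cast
    rw [Finset.sum_mul]
    refine Finset.sum_congr rfl fun n _ => ?_
    ring
  simp only [e]
  rw [integral_finsetSum _ (fun n _ => (hi n).const_mul _)]
  refine Finset.sum_eq_zero fun n _ => ?_
  rw [integral_const_mul, h n, mul_zero]

private theorem lu_cont {ψ : ℝ → ℂ} (hψ : IntegrableOn ψ (Ioi 0))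
    (h : ∀ n : ℕ, ∫ r in Ioi (0:ℝ), ((Real.exp (-r) ^ n : ℝ) : ℂ) * ψ r = 0) {φ : ℝ → ℝ}
    (hφ : ContinuousOn φ (Icc 0 1)) :
    ∫ r in Ioi (0:ℝ), ((φ (Real.exp (-r)) : ℝ) : ℂ) * ψ r = 0 := by
  have hmem : ∀ r ∈ Ioi (0:ℝ), Real.exp (-r) ∈ Icc (0:ℝ) 1 := fun r hr =>
    ⟨(Real.exp_pos _).le, Real.exp_le_one_iff.2 (by linarith [mem_Ioi.1 hr])⟩
  have hcomp : ContinuousOn (fun r : ℝ => ((φ (Real.exp (-r)) : ℝ) : ℂ)) (Ioi 0) := by
    apply Complex.continuous_ofReal.comp_continuousOn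
    exact hφ.comp (by fun_prop) hmem
  obtain ⟨C, hC⟩ := isCompact_Icc.exists_bound_of_continuousOn hφ
  have hφi : IntegrableOn (fun r : ℝ => ((φ (Real.exp (-r)) : ℝ) : ℂ) * ψ r) (Ioi 0) := by
    refine Integrable.bdd_mul hψ (c := C) (hcomp.aestronglyMeasurable measurableSet_Ioi) ?_
    refine (ae_restrict_iff' measurableSet_Ioi).2 (Filter.Eventually.of_forall fun r hr => ?_)
    rw [Complex.norm_real]
    exact hC _ (hmem r hr)
  obtain ⟨N, hN⟩ : ∃ N : ℝ, N = ∫ r in Ioi (0:ℝ), ‖ψ r‖ := ⟨_, rfl⟩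
  have hN0 : 0 ≤ N := by rw [hN]; exact integral_nonneg fun _ => norm_nonneg _
  have key : ∀ ε : ℝ, 0 < ε → ‖∫ r in Ioi (0:ℝ), ((φ (Real.exp (-r)) : ℝ) : ℂ) * ψ r‖ ≤ ε * N := by
    intro ε hε
    obtain ⟨p, hp⟩ := exists_polynomial_near_of_continuousOn 0 1 φ hφ ε hε
    have hpi : IntegrableOn (fun r : ℝ => ((p.eval (Real.exp (-r)) : ℝ) : ℂ) * ψ r) (Ioi 0) := by
      obtain ⟨C', hC'⟩ := isCompact_Icc.exists_bound_of_continuousOn (s := Icc (0:ℝ) 1) p.continuous.continuousOn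
      refine Integrable.bdd_mul hψ (c := C') ?_ ?_
      · apply Continuous.aestronglyMeasurable
        have := p.continuous
        fun_prop
      · refine (ae_restrict_iff' measurableSet_Ioi).2 (Filter.Eventually.of_forall fun r hr => ?_)
        rw [Complex.norm_real]
        exact hC' _ (hmem r hr)
    have h1 : ∫ r in Ioi (0:ℝ), ((φ (Real.exp (-r)) : ℝ) : ℂ) * ψ r =
        ∫ r in Ioi (0:ℝ), (((φ (Real.exp (-r)) : ℝ) : ℂ) * ψ r - ((p.eval (Real.exp (-r)) : ℝ) : ℂ) * ψ r) := by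
      rw [integral_sub hφi hpi, lu_poly hψ h p, sub_zero]
    rw [h1]
    have h2 : ‖∫ r in Ioi (0:ℝ), (((φ (Real.exp (-r)) : ℝ) : ℂ) * ψ r - ((p.eval (Real.exp (-r)) : ℝ) : ℂ) * ψ r)‖ ≤
        ∫ r in Ioi (0:ℝ), ε * ‖ψ r‖ := by
      apply norm_integral_le_of_norm_le (hψ.norm.const_mul ε)
      refine (ae_restrict_iff' measurableSet_Ioi).2 (Filter.Eventually.of_forall fun r hr => ?_)
      rw [← sub_mul, norm_mul, ← Complex.ofReal_sub, Complex.norm_real, Real.norm_eq_abs, abs_sub_comm]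
      gcongr
      exact (hp _ (hmem r hr)).le
    rw [integral_const_mul, ← hN] at h2
    exact h2
  have h0 : ‖∫ r in Ioi (0:ℝ), ((φ (Real.exp (-r)) : ℝ) : ℂ) * ψ r‖ ≤ 0 := by
    refine le_of_forall_pos_le_add fun ε hε => ?_
    rw [zero_add]
    have h1 := key (ε / (N + 1)) (by positivity)
    refine h1.trans ?_
    rw [div_mul_eq_mul_div, div_le_iff₀ (by positivity)]
    nlinarith
  exact norm_le_zero_iff.1 h0

/-- uniqueness of the Laplace transform -/
theorem laplace_unique {h : ℝ → ℂ} (hc : ContinuousOn h (Set.Ioi 0))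
    (hi : ∀ c : ℝ, 0 < c → MeasureTheory.IntegrableOn (fun r : ℝ => Complex.exp (-(c * r)) * h r) (Set.Ioi 0))
    (h0 : ∀ c : ℝ, 0 < c → ∫ r in Set.Ioi (0:ℝ), Complex.exp (-(c * r)) * h r = 0) :
    ∀ r : ℝ, 0 < r → h r = 0 := by
  obtain ⟨ψ, hψdef⟩ : ∃ ψ : ℝ → ℂ, ψ = fun r : ℝ => Complex.exp (-((1:ℝ) * r)) * h r := ⟨_, rfl⟩
  have hψ : IntegrableOn ψ (Ioi 0) := by rw [hψdef]; exact hi 1 one_pos
  have hψc : ContinuousOn ψ (Ioi 0) := by
    rw [hψdef]
    exact ContinuousOn.mul (by fun_prop) hc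
  have hmom : ∀ n : ℕ, ∫ r in Ioi (0:ℝ), ((Real.exp (-r) ^ n : ℝ) : ℂ) * ψ r = 0 := by
    intro n
    have h1 := h0 ((n : ℝ) + 1) (by positivity)
    rw [← h1]
    apply integral_congr_ae
    refine Filter.Eventually.of_forall fun r => ?_
    simp only [hψdef]
    rw [← mul_assoc]
    congr 1
    push_cast
    rw [← Complex.exp_nat_mul, ← Complex.exp_add]
    congr 1
    ring
  have hae : ∀ᵐ r : ℝ, r ∈ Ioi (0:ℝ) → ψ r = 0 := by
    apply isOpen_Ioi.ae_eq_zero_of_integral_contDiff_smul_eq_zero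
    · exact hψ.locallyIntegrableOn
    · intro g hg hgs hgt
      -- `g(r) = φ(e^{-r})`
      obtain ⟨φ, hφdef⟩ : ∃ φ : ℝ → ℝ, φ = fun x : ℝ => g (-Real.log x) := ⟨_, rfl⟩
      have hg0 : ∀ r, r ≤ 0 → g r = 0 := by
        intro r hr
        by_contra hne
        have h1 : r ∈ tsupport g := subset_tsupport g hne
        exact absurd (mem_Ioi.1 (hgt h1)) (not_lt.2 hr)
      obtain ⟨R, hR⟩ : ∃ R : ℝ, ∀ r, R < r → g r = 0 := by
        obtain ⟨R, hR⟩ := hgs.isBounded.bddAbove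
        refine ⟨R, fun r hr => ?_⟩
        by_contra hne
        have h1 : r ∈ tsupport g := subset_tsupport g hne
        exact absurd (hR h1) (not_le.2 hr)
      have hφc : ContinuousOn φ (Icc 0 1) := by
        intro x hx
        rcases eq_or_lt_of_le hx.1 with h1 | h1
        · -- at zero
          rw [← h1]
          have hz : φ 0 = 0 := by
            rw [hφdef]
            simp only [Real.log_zero, neg_zero]
            exact hg0 0 le_rfl
          have hev : φ =ᶠ[𝓝[Icc (0:ℝ) 1] 0] fun _ => (0:ℝ) := by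
            have h2 : Iio (Real.exp (-R)) ∈ 𝓝 (0:ℝ) := Iio_mem_nhds (Real.exp_pos _)
            filter_upwards [mem_nhdsWithin_of_mem_nhds h2, self_mem_nhdsWithin] with y hy1 hy2
            rcases eq_or_lt_of_le hy2.1 with h3 | h3
            · rw [← h3, hz]
            · rw [hφdef]
              simp only
              apply hR
              have h4 := Real.log_lt_log h3 hy1
              rw [Real.log_exp] at h4
              linarith
          have h5 : ContinuousWithinAt (fun _ : ℝ => (0:ℝ)) (Icc (0:ℝ) 1) 0 := continuousWithinAt_const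
          exact h5.congr_of_eventuallyEq hev hz
        · apply ContinuousAt.continuousWithinAt
          rw [hφdef]
          exact hg.continuous.continuousAt.comp (Real.continuousAt_log h1.ne').neg
      have h1 := lu_cont hψ hmom hφc
      have h2 : ∫ r : ℝ, g r • ψ r = ∫ r in Ioi (0:ℝ), g r • ψ r := by
        symm
        apply setIntegral_eq_integral_of_forall_compl_eq_zero
        intro r hr
        rw [hg0 r (not_lt.1 hr), zero_smul]
      rw [h2, ← h1]
      apply integral_congr_ae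
      refine Filter.Eventually.of_forall fun r => ?_
      simp only [hφdef, Real.log_exp, neg_neg, Complex.real_smul]
  have hae2 : ψ =ᵐ[volume.restrict (Ioi (0:ℝ))] fun _ => (0:ℂ) := (ae_restrict_iff' measurableSet_Ioi).2 hae
  have heq := Measure.eqOn_open_of_ae_eq hae2 isOpen_Ioi hψc continuousOn_const
  intro r hr
  have h1 := heq (mem_Ioi.2 hr)
  rw [hψdef] at h1
  simp only at h1
  rcases mul_eq_zero.1 h1 with h2 | h2
  · exact absurd h2 (Complex.exp_ne_zero _)
  · exact h2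

end Sok
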