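import Mathlib
import Pool.Agent.Lib.MP_816dec_an.A0Sub
import Pool.Agent.Lib.MP_816dec_an.KerRhs
import Pool.Agent.Lib.MP_816dec_an.LapUniq
import Pool.Agent.Lib.MP_816dec_an.Deriv

/-!
MP_816dec_an: the kernel formula for the valley function and its consequences.
-/

set_option autoImplicit false

open Complex Set Filter Topology MeasureTheory

namespace Sok


private theorem rhs_eq {β t0 d c : ℝ} (hc : 0 < c) :
    4 * Real.pi * ∫ u in (-(Real.pi/2))..(Real.pi/2), Complex.exp (I * u * d) *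
      (((2 * Real.cos u) ^ (nn β t0 u) * (2 * c) ^ (-(nn β t0 u) - 1) : ℝ) : ℂ) =
    2 * Real.pi * ∫ u in (-(Real.pi/2))..(Real.pi/2), Complex.exp (I * u * d) *
      ((Real.cos u ^ nn β t0 u * c ^ (-nn β t0 u - 1) : ℝ) : ℂ) := by
  have hpi := Real.pi_pos
  rw [← intervalIntegral.integral_const_mul, ← intervalIntegral.integral_const_mul]
  apply intervalIntegral.integral_congr
  intro u hu
  rw [uIcc_of_le (by linarith)] at hu
  have hcos : 0 ≤ Real.cos u := Real.cos_nonneg_of_neg_pi_div_two_le_of_le hu.1 hu.2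
  have e1 : (2 * Real.cos u) ^ (nn β t0 u) * (2 * c) ^ (-(nn β t0 u) - 1) =
      (1 / 2) * (Real.cos u ^ nn β t0 u * c ^ (-nn β t0 u - 1)) := by
    rw [Real.mul_rpow (by norm_num) hcos, Real.mul_rpow (by norm_num) hc.le]
    have e2 : (2 : ℝ) ^ (nn β t0 u) * 2 ^ (-(nn β t0 u) - 1) = 1 / 2 := by
      rw [← Real.rpow_add two_pos]
      have : nn β t0 u + (-(nn β t0 u) - 1) = -1 := by ring
      rw [this, Real.rpow_neg_one]
      norm_num
    calc (2 : ℝ) ^ nn β t0 u * Real.cos u ^ nn β t0 u * (2 ^ (-nn β t0 u - 1) * c ^ (-nn β t0 u - 1))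
        = ((2 : ℝ) ^ (nn β t0 u) * 2 ^ (-(nn β t0 u) - 1)) * (Real.cos u ^ nn β t0 u * c ^ (-nn β t0 u - 1)) := by
          ring
      _ = _ := by rw [e2]
  simp only
  rw [e1]
  push_cast
  ring

/-- kernel formula, Bromwich form -/
theorem Br_kernel {β r t₁ t₂ : ℝ} (hβ : 0 < β) (hr : 0 < r) (ht₁ : t₁ < -(Real.pi / 2))
    (ht₂ : t₂ < -(Real.pi / 2)) :
    Br β t₁ 1 r * (starRingEnd ℂ) (Br β t₂ 1 r) = 4 * Real.pi * gK β ((t₁ + t₂) / 2) ((t₁ - t₂) / β) r := by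
  have ht0 : (t₁ + t₂) / 2 < -(Real.pi / 2) := by linarith
  have key := laplace_unique (h := fun r => Br β t₁ 1 r * (starRingEnd ℂ) (Br β t₂ 1 r) -
    4 * Real.pi * gK β ((t₁ + t₂) / 2) ((t₁ - t₂) / β) r) ?_ ?_ ?_ r hr
  · exact sub_eq_zero.1 key
  · have h1 := (Br_cont (β := β) (t := t₁) hβ ht₁ one_pos).continuousOn (s := Ioi (0 : ℝ))
    have h2 := ((Complex.continuous_conj.comp (Br_cont (β := β) (t := t₂) hβ ht₂ one_pos))).continuousOn
      (s := Ioi (0 : ℝ))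
    exact (h1.mul h2).sub (continuousOn_const.mul (gK_continuousOn hβ ht0 _))
  · intro c hc
    have h1 := (lap_prod hβ ht₁ ht₂ (half_pos hc)).1
    have h2 := (gK_laplace hβ ht0 ((t₁ - t₂) / β) hc).1
    have e1 : (2 * (c / 2) : ℝ) = c := by ring
    rw [e1] at h1
    refine (h1.sub (h2.const_mul (4 * Real.pi))).congr_fun (fun r _ => ?_) measurableSet_Ioi
    simp only [Pi.sub_apply]
    ring
  · intro c hc
    have h1 := lap_prod hβ ht₁ ht₂ (half_pos hc)
    have h2 := gK_laplace hβ ht0 ((t₁ - t₂) / β) hc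
    have e1 : (2 * (c / 2) : ℝ) = c := by ring
    rw [e1] at h1
    have h3 : ∫ r in Ioi (0 : ℝ), cexp (-(c * r)) * (Br β t₁ 1 r * (starRingEnd ℂ) (Br β t₂ 1 r) -
        4 * Real.pi * gK β ((t₁ + t₂) / 2) ((t₁ - t₂) / β) r) =
        (∫ r in Ioi (0 : ℝ), cexp (-(c * r)) * (Br β t₁ 1 r * (starRingEnd ℂ) (Br β t₂ 1 r))) -
        4 * Real.pi * ∫ r in Ioi (0 : ℝ), cexp (-(c * r)) * gK β ((t₁ + t₂) / 2) ((t₁ - t₂) / β) r := by
      rw [← integral_const_mul, ← integral_sub h1.1 (h2.1.const_mul _)]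
      congr 1
      funext r
      ring
    rw [h3, h1.2, h2.2, subst_El hβ (half_pos hc)]
    have h4 := rhs_eq (β := β) (t0 := (t₁ + t₂) / 2) (d := (t₁ - t₂) / β) (half_pos hc)
    rw [e1] at h4
    rw [h4, sub_self]

/-- **the kernel formula** -/
theorem AA_kernel {β r t₁ t₂ : ℝ} (hβ : 0 < β) (hr : 0 < r) (ht₁ : t₁ < -(Real.pi / 2))
    (ht₂ : t₂ < -(Real.pi / 2)) :
    AA β r t₁ * (starRingEnd ℂ) (AA β r t₂) = cexp (-(I * ((t₁ ^ 2 - t₂ ^ 2) / (2 * β)))) *
      ((2 / β : ℝ) * gK β ((t₁ + t₂) / 2) ((t₁ - t₂) / β) r) := by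
  have hpi := Real.pi_pos
  have h1 := AA_eq_Br hβ hr ht₁ one_pos
  have h2 := congrArg (starRingEnd ℂ) (AA_eq_Br hβ hr ht₂ one_pos)
  rw [map_mul, map_mul, ← Complex.exp_conj] at h2
  have h3 := Br_kernel hβ hr ht₁ ht₂
  have hcc : cF β * (starRingEnd ℂ) (cF β) = ((2 * Real.pi * β : ℝ) : ℂ) := by
    rw [Complex.mul_conj, Complex.normSq_eq_norm_sq, norm_cF, Real.sq_sqrt (by positivity)]
  have hne : ((2 * Real.pi * β : ℝ) : ℂ) ≠ 0 := by
    have : (0 : ℝ) < 2 * Real.pi * β := by positivity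
    exact_mod_cast this.ne'
  apply mul_left_cancel₀ hne
  have e1 : (starRingEnd ℂ) (-(I * (t₂ : ℂ) ^ 2 / (2 * β))) = I * t₂ ^ 2 / (2 * β) := by
    simp only [map_neg, map_div₀, map_mul, Complex.conj_I, map_pow, Complex.conj_ofReal, map_ofNat]
    ring
  rw [e1] at h2
  calc ((2 * Real.pi * β : ℝ) : ℂ) * (AA β r t₁ * (starRingEnd ℂ) (AA β r t₂))
      = (cF β * AA β r t₁) * ((starRingEnd ℂ) (cF β) * (starRingEnd ℂ) (AA β r t₂)) := by
        rw [← hcc]; ring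
    _ = (cexp (-(I * t₁ ^ 2 / (2 * β))) * cexp (I * t₂ ^ 2 / (2 * β))) *
        (Br β t₁ 1 r * (starRingEnd ℂ) (Br β t₂ 1 r)) := by rw [h1, h2]; ring
    _ = cexp (-(I * ((t₁ ^ 2 - t₂ ^ 2) / (2 * β)))) *
        (4 * Real.pi * gK β ((t₁ + t₂) / 2) ((t₁ - t₂) / β) r) := by
        rw [h3, ← Complex.exp_add]
        congr 2
        ring
    _ = _ := by
        have hb : (β : ℂ) ≠ 0 := by exact_mod_cast hβ.ne'
        push_cast
        field_simp
        ring

/-- the kernel on the diagonal -/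
noncomputable def wK (β t0 r : ℝ) : ℝ := ∫ u in (-(Real.pi/2))..(Real.pi/2),
  (2 * r * Real.cos u) ^ (nn β t0 u) / Real.Gamma (1 + nn β t0 u)

theorem gK_zero (β t0 r : ℝ) : gK β t0 0 r = ((wK β t0 r : ℝ) : ℂ) := by
  rw [gK, wK, ← intervalIntegral.integral_ofReal]
  apply intervalIntegral.integral_congr
  intro u _
  simp

/-- `|A|²` -/
theorem AA_normSq {β r t : ℝ} (hβ : 0 < β) (hr : 0 < r) (ht : t < -(Real.pi / 2)) :
    ‖AA β r t‖ ^ 2 = 2 / β * wK β t r := by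
  have h1 := AA_kernel hβ hr ht ht
  have e1 : (t + t) / 2 = t := by ring
  rw [Complex.mul_conj, Complex.normSq_eq_norm_sq, sub_self, zero_div, mul_zero, neg_zero, Complex.exp_zero,
    one_mul, sub_self, zero_div, e1, gK_zero] at h1
  exact_mod_cast h1

private theorem wfun_nonneg {β t0 r u : ℝ} (hβ : 0 < β) (hr : 0 < r) (ht : t0 ≤ -(Real.pi / 2))
    (hu : u ∈ Icc (-(Real.pi / 2)) (Real.pi / 2)) :
    0 ≤ (2 * r * Real.cos u) ^ (nn β t0 u) / Real.Gamma (1 + nn β t0 u) := by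
  have hcos : 0 ≤ Real.cos u := Real.cos_nonneg_of_neg_pi_div_two_le_of_le hu.1 hu.2
  have hn : 0 ≤ nn β t0 u := by
    unfold nn
    exact div_nonneg (by linarith [hu.1]) hβ.le
  apply div_nonneg (Real.rpow_nonneg (by positivity) _)
  exact (Real.Gamma_pos_of_pos (by linarith)).le

/-- **the mean inequality** -/
theorem AA_mean {β r t₁ t₂ : ℝ} (hβ : 0 < β) (hr : 0 < r) (ht₁ : t₁ < -(Real.pi / 2))
    (ht₂ : t₂ < -(Real.pi / 2)) :
    ‖AA β r t₁‖ * ‖AA β r t₂‖ ≤ ‖AA β r ((t₁ + t₂) / 2)‖ ^ 2 := by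
  have hpi := Real.pi_pos
  have ht0 : (t₁ + t₂) / 2 < -(Real.pi / 2) := by linarith
  rw [AA_normSq hβ hr ht0]
  have h1 := congrArg norm (AA_kernel hβ hr ht₁ ht₂)
  rw [norm_mul, RCLike.norm_conj, norm_mul, norm_mul, Complex.norm_real,
    Real.norm_of_nonneg (by positivity : (0 : ℝ) ≤ 2 / β)] at h1
  have e1 : ‖cexp (-(I * (((t₁ : ℂ) ^ 2 - t₂ ^ 2) / (2 * β))))‖ = 1 := by
    have : -(I * (((t₁ : ℂ) ^ 2 - t₂ ^ 2) / (2 * β))) = ((-((t₁ ^ 2 - t₂ ^ 2) / (2 * β)) : ℝ) : ℂ) * I := by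
      push_cast; ring
    rw [this, Complex.norm_exp_ofReal_mul_I]
  rw [e1, one_mul] at h1
  rw [h1]
  apply mul_le_mul_of_nonneg_left _ (by positivity)
  rw [gK, wK]
  refine (intervalIntegral.norm_integral_le_integral_norm (by linarith)).trans (le_of_eq ?_)
  apply intervalIntegral.integral_congr
  intro u hu
  rw [uIcc_of_le (by linarith)] at hu
  simp only
  rw [norm_mul, Complex.norm_real, Real.norm_of_nonneg (wfun_nonneg hβ hr ht0.le hu)]
  have e2 : ‖cexp (I * u * ((((t₁ - t₂) / β : ℝ)) : ℂ))‖ = 1 := by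
    have : I * u * ((((t₁ - t₂) / β : ℝ)) : ℂ) = ((u * ((t₁ - t₂) / β) : ℝ) : ℂ) * I := by
      push_cast; ring
    rw [this, Complex.norm_exp_ofReal_mul_I]
  rw [e2, one_mul]

/-- midpoint concave and continuous implies concave -/
theorem concave_of_midpoint {s : Set ℝ} {f : ℝ → ℝ} (hs : Convex ℝ s) (hf : ContinuousOn f s)
    (hm : ∀ x ∈ s, ∀ y ∈ s, f x + f y ≤ 2 * f ((x + y) / 2)) : ConcaveOn ℝ s f := by
  refine ⟨hs, fun x hx y hy a b ha hb hab => ?_⟩
  simp only [smul_eq_mul]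
  obtain ⟨φ, hφ⟩ : ∃ φ : ℝ → ℝ, φ = fun l => f ((1 - l) * x + l * y) - ((1 - l) * f x + l * f y) := ⟨_, rfl⟩
  have hmem : ∀ l ∈ Icc (0 : ℝ) 1, (1 - l) * x + l * y ∈ s := by
    intro l hl
    have := hs hx hy (by linarith [hl.2] : 0 ≤ 1 - l) hl.1 (by ring)
    simpa using this
  have hcont : ContinuousOn φ (Icc 0 1) := by
    rw [hφ]
    refine ContinuousOn.sub (hf.comp (by fun_prop) hmem) (by fun_prop)
  have hmid : ∀ l ∈ Icc (0 : ℝ) 1, ∀ k ∈ Icc (0 : ℝ) 1, φ l + φ k ≤ 2 * φ ((l + k) / 2) := by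
    intro l hl k hk
    have h1 := hm _ (hmem l hl) _ (hmem k hk)
    have e1 : (((1 - l) * x + l * y) + ((1 - k) * x + k * y)) / 2 =
        (1 - (l + k) / 2) * x + (l + k) / 2 * y := by ring
    rw [e1] at h1
    rw [hφ]
    simp only
    linarith
  have h0 : φ 0 = 0 := by rw [hφ]; simp
  have h1 : φ 1 = 0 := by rw [hφ]; simp
  obtain ⟨l₀, hl₀, hmin⟩ := isCompact_Icc.exists_isMinOn ⟨0, left_mem_Icc.2 zero_le_one⟩ hcont
  have hge : 0 ≤ φ l₀ := by
    by_contra hneg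
    push Not at hneg
    -- the least minimum point
    have hclosed : IsClosed (Icc (0 : ℝ) 1 ∩ φ ⁻¹' (Iic (φ l₀))) :=
      hcont.preimage_isClosed_of_isClosed isClosed_Icc isClosed_Iic
    have hcomp : IsCompact (Icc (0 : ℝ) 1 ∩ φ ⁻¹' (Iic (φ l₀))) :=
      isCompact_Icc.of_isClosed_subset hclosed inter_subset_left
    obtain ⟨m, ⟨hmI, hmv⟩, hleast⟩ := hcomp.exists_isLeast ⟨l₀, hl₀, mem_preimage.2 (mem_Iic.2 le_rfl)⟩
    have hmv' : φ m = φ l₀ := le_antisymm hmv (hmin hmI)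
    have hm0 : 0 < m := by
      rcases eq_or_lt_of_le hmI.1 with h | h
      · rw [← h, h0] at hmv'
        linarith
      · exact h
    have hm1 : m < 1 := by
      rcases eq_or_lt_of_le hmI.2 with h | h
      · rw [h, h1] at hmv'
        linarith
      · exact h
    obtain ⟨e, he⟩ : ∃ e : ℝ, e = min m (1 - m) := ⟨_, rfl⟩
    have he0 : 0 < e := by rw [he]; exact lt_min hm0 (by linarith)
    have he1 : e ≤ m := by rw [he]; exact min_le_left _ _
    have he2 : e ≤ 1 - m := by rw [he]; exact min_le_right _ _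
    have hA : m - e ∈ Icc (0 : ℝ) 1 := ⟨by linarith, by linarith⟩
    have hB : m + e ∈ Icc (0 : ℝ) 1 := ⟨by linarith, by linarith⟩
    have h3 := hmid _ hA _ hB
    have e2 : (m - e + (m + e)) / 2 = m := by ring
    rw [e2, hmv'] at h3
    have h4 : φ l₀ ≤ φ (m + e) := hmin hB
    have h5 : φ l₀ < φ (m - e) := by
      by_contra h6
      push Not at h6
      have := hleast ⟨hA, h6⟩
      linarith
    linarith
  have hb' : b ∈ Icc (0 : ℝ) 1 := ⟨hb, by linarith⟩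
  have h2 : φ l₀ ≤ φ b := hmin hb'
  have h3 : φ b = f ((1 - b) * x + b * y) - ((1 - b) * f x + b * f y) := by rw [hφ]
  have e1 : a = 1 - b := by linarith
  rw [e1]
  linarith

private theorem wfun_pos {β t0 r u : ℝ} (hβ : 0 < β) (hr : 0 < r) (ht : t0 ≤ -(Real.pi / 2))
    (hu : u ∈ Ioo (-(Real.pi / 2)) (Real.pi / 2)) :
    0 < (2 * r * Real.cos u) ^ (nn β t0 u) / Real.Gamma (1 + nn β t0 u) := by
  have hcos : 0 < Real.cos u := Real.cos_pos_of_mem_Ioo hu
  have hn : 0 ≤ nn β t0 u := by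
    unfold nn
    exact div_nonneg (by linarith [hu.1]) hβ.le
  exact div_pos (Real.rpow_pos_of_pos (by positivity) _) (Real.Gamma_pos_of_pos (by linarith))

private theorem wfun_contOn {β t0 r : ℝ} (hβ : 0 < β) (hr : 0 < r) (ht : t0 ≤ -(Real.pi / 2)) :
    ContinuousOn (fun u : ℝ => (2 * r * Real.cos u) ^ (nn β t0 u) / Real.Gamma (1 + nn β t0 u))
      (Ioo (-(Real.pi / 2)) (Real.pi / 2)) := by
  have hn : ∀ u ∈ Ioo (-(Real.pi / 2)) (Real.pi / 2), 0 ≤ nn β t0 u := by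
    intro u hu
    unfold nn
    exact div_nonneg (by linarith [hu.1]) hβ.le
  have hnc : Continuous (nn β t0) := by unfold nn; fun_prop
  apply ContinuousOn.div
  · apply ContinuousOn.rpow (by fun_prop) hnc.continuousOn
    intro u hu
    left
    have hcos : 0 < Real.cos u := Real.cos_pos_of_mem_Ioo hu
    positivity
  · intro u hu
    have h1 : ContinuousAt Real.Gamma (1 + nn β t0 u) := by
      apply (Real.differentiableAt_Gamma fun m => ?_).continuousAt
      have h2 := hn u hu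
      have h3 : (0 : ℝ) ≤ m := Nat.cast_nonneg m
      intro h4
      linarith
    have h2 : ContinuousAt (fun u : ℝ => 1 + nn β t0 u) u := (continuous_const.add hnc).continuousAt
    exact (ContinuousAt.comp (f := fun u : ℝ => 1 + nn β t0 u) h1 h2).continuousWithinAt
  · intro u hu
    exact (Real.Gamma_pos_of_pos (by linarith [hn u hu])).ne'

private theorem wfun_int {β t0 r : ℝ} (hβ : 0 < β) (hr : 0 < r) (ht : t0 ≤ -(Real.pi / 2)) :
    IntervalIntegrable (fun u : ℝ => (2 * r * Real.cos u) ^ (nn β t0 u) / Real.Gamma (1 + nn β t0 u))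
      volume (-(Real.pi / 2)) (Real.pi / 2) := by
  have hpi := Real.pi_pos
  rw [intervalIntegrable_iff_integrableOn_Ioo_of_le (by linarith)]
  have hnc : Continuous (nn β t0) := by unfold nn; fun_prop
  -- a bound for `1 / Γ(1 + n)` on the compact range
  obtain ⟨B, hB⟩ : ∃ B : ℝ, ∀ u ∈ Icc (-(Real.pi / 2)) (Real.pi / 2), (Real.Gamma (1 + nn β t0 u))⁻¹ ≤ B := by
    have hc : ContinuousOn (fun u : ℝ => (Real.Gamma (1 + nn β t0 u))⁻¹) (Icc (-(Real.pi / 2)) (Real.pi / 2)) := by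
      have hn : ∀ u ∈ Icc (-(Real.pi / 2)) (Real.pi / 2), 0 ≤ nn β t0 u := by
        intro u hu
        unfold nn
        exact div_nonneg (by linarith [hu.1]) hβ.le
      apply ContinuousOn.inv₀
      · intro u hu
        have h1 : ContinuousAt Real.Gamma (1 + nn β t0 u) := by
          apply (Real.differentiableAt_Gamma fun m => ?_).continuousAt
          have h2 := hn u hu
          have h3 : (0 : ℝ) ≤ m := Nat.cast_nonneg m
          intro h4
          linarith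
        have h2 : ContinuousAt (fun u : ℝ => 1 + nn β t0 u) u := (continuous_const.add hnc).continuousAt
        exact (ContinuousAt.comp (f := fun u : ℝ => 1 + nn β t0 u) h1 h2).continuousWithinAt
      · intro u hu
        exact (Real.Gamma_pos_of_pos (by linarith [hn u hu])).ne'
    obtain ⟨B, hB⟩ := isCompact_Icc.bddAbove_image hc
    exact ⟨B, fun u hu => hB ⟨u, hu, rfl⟩⟩
  obtain ⟨N, hN⟩ : ∃ N : ℝ, ∀ u ∈ Icc (-(Real.pi / 2)) (Real.pi / 2), nn β t0 u ≤ N := by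
    obtain ⟨B, hB⟩ := isCompact_Icc.bddAbove_image (hnc.continuousOn (s := Icc (-(Real.pi / 2)) (Real.pi / 2)))
    exact ⟨B, fun u hu => hB ⟨u, hu, rfl⟩⟩
  have hint : IntegrableOn (fun _ : ℝ => (max 1 (2 * r)) ^ N * B) (Ioo (-(Real.pi / 2)) (Real.pi / 2)) :=
    integrableOn_const (by simp) enorm_ne_top
  refine hint.mono' ((wfun_contOn hβ hr ht).aestronglyMeasurable measurableSet_Ioo) ?_
  refine (ae_restrict_iff' measurableSet_Ioo).2 (Filter.Eventually.of_forall fun u hu => ?_)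
  have hu' : u ∈ Icc (-(Real.pi / 2)) (Real.pi / 2) := Ioo_subset_Icc_self hu
  have hcos : 0 < Real.cos u := Real.cos_pos_of_mem_Ioo hu
  have hn : 0 ≤ nn β t0 u := by
    unfold nn
    exact div_nonneg (by linarith [hu.1]) hβ.le
  rw [Real.norm_of_nonneg (wfun_pos hβ hr ht hu).le, div_eq_mul_inv]
  have h1 : (2 * r * Real.cos u) ^ (nn β t0 u) ≤ (max 1 (2 * r)) ^ N := by
    calc (2 * r * Real.cos u) ^ (nn β t0 u) ≤ (max 1 (2 * r)) ^ (nn β t0 u) := by
          apply Real.rpow_le_rpow (by positivity) _ hn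
          refine le_trans ?_ (le_max_right _ _)
          nlinarith [Real.cos_le_one u]
      _ ≤ (max 1 (2 * r)) ^ N := Real.rpow_le_rpow_of_exponent_le (le_max_left _ _) (hN u hu')
  have h2 : 0 < (Real.Gamma (1 + nn β t0 u))⁻¹ := inv_pos.2 (Real.Gamma_pos_of_pos (by linarith))
  exact mul_le_mul h1 (hB u hu') h2.le (by positivity)

theorem wK_pos {β t0 r : ℝ} (hβ : 0 < β) (hr : 0 < r) (ht : t0 ≤ -(Real.pi / 2)) : 0 < wK β t0 r := by
  have hpi := Real.pi_pos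
  unfold wK
  exact intervalIntegral.intervalIntegral_pos_of_pos_on (wfun_int hβ hr ht)
    (fun u hu => wfun_pos hβ hr ht hu) (by linarith)

theorem AA_continuous {β r : ℝ} (hβ : 0 < β) (hr : 0 < r) : Continuous (AA β r) :=
  continuous_iff_continuousAt.2 fun t => (hasDerivAt_AA hβ hr t).continuousAt

/-- `|A|²` up to the axis -/
theorem AA_normSq_le {β r t : ℝ} (hβ : 0 < β) (hr : 0 < r) (ht : t ≤ -(Real.pi / 2)) :
    ‖AA β r t‖ ^ 2 = 2 / β * wK β t r := by
  rcases lt_or_eq_of_le ht with h | h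
  · exact AA_normSq hβ hr h
  · rw [h]
    have h1 : Tendsto (fun t : ℝ => ((‖AA β r t‖ ^ 2 : ℝ) : ℂ)) (𝓝[<] (-(Real.pi / 2)))
        (𝓝 ((‖AA β r (-(Real.pi / 2))‖ ^ 2 : ℝ) : ℂ)) := by
      have h2 : Continuous fun t : ℝ => ((‖AA β r t‖ ^ 2 : ℝ) : ℂ) := by
        have := AA_continuous hβ hr
        fun_prop
      exact (h2.tendsto _).mono_left nhdsWithin_le_nhds
    have h2 := (gK_axis hβ hr).const_mul ((2 / β : ℝ) : ℂ)
    have h3 := tendsto_nhds_unique h1 (h2.congr' ?_)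
    · rw [gK_zero] at h3
      exact_mod_cast h3
    · filter_upwards [self_mem_nhdsWithin] with t ht
      rw [AA_normSq hβ hr ht, gK_zero]
      push_cast
      ring

theorem AA_ne_zero {β r t : ℝ} (hβ : 0 < β) (hr : 0 < r) (ht : t ≤ -(Real.pi / 2)) : AA β r t ≠ 0 := by
  intro h
  have h1 := AA_normSq_le hβ hr ht
  have h2 := wK_pos hβ hr ht
  have h3 : 0 < 2 / β * wK β t r := by positivity
  rw [h] at h1
  simp at h1
  rcases h1 with h4 | h4
  · exact hβ.ne' h4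
  · exact h2.ne' h4

/-- `|A|²` at the axis in the form of the frequency integral -/
theorem AA_axis {β r : ℝ} (hβ : 0 < β) (hr : 0 < r) :
    ‖AA β r (-(Real.pi / 2))‖ ^ 2 =
      ∫ n in (0 : ℝ)..(2 * Real.pi / β), (2 * r * Real.sin (n * β / 2)) ^ n / Real.Gamma (1 + n) := by
  rw [AA_normSq_le hβ hr le_rfl, wK]
  have hc : (2 / β : ℝ) ≠ 0 := (by positivity : (0 : ℝ) < 2 / β).ne'
  have h1 := intervalIntegral.integral_comp_mul_add (a := -(Real.pi / 2)) (b := Real.pi / 2)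
    (fun n : ℝ => (2 * r * Real.sin (n * β / 2)) ^ n / Real.Gamma (1 + n)) hc (Real.pi / β)
  have e1 : 2 / β * -(Real.pi / 2) + Real.pi / β = 0 := by ring
  have e2 : 2 / β * (Real.pi / 2) + Real.pi / β = 2 * Real.pi / β := by ring
  rw [e1, e2] at h1
  have h2 : ∀ u : ℝ, (2 * r * Real.sin ((2 / β * u + Real.pi / β) * β / 2)) ^ (2 / β * u + Real.pi / β) /
      Real.Gamma (1 + (2 / β * u + Real.pi / β)) =
      (2 * r * Real.cos u) ^ (nn β (-(Real.pi / 2)) u) / Real.Gamma (1 + nn β (-(Real.pi / 2)) u) := by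
    intro u
    have e3 : (2 / β * u + Real.pi / β) * β / 2 = u + Real.pi / 2 := by
      field_simp
    have e4 : 2 / β * u + Real.pi / β = nn β (-(Real.pi / 2)) u := by
      unfold nn
      ring
    rw [e3, Real.sin_add_pi_div_two, e4]
  simp only [h2] at h1
  rw [h1, smul_eq_mul, ← mul_assoc, mul_inv_cancel₀ hc, one_mul]

/-- the mean inequality up to the axis -/
theorem AA_mean_le {β r t₁ t₂ : ℝ} (hβ : 0 < β) (hr : 0 < r) (ht₁ : t₁ ≤ -(Real.pi / 2))
    (ht₂ : t₂ ≤ -(Real.pi / 2)) :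
    ‖AA β r t₁‖ * ‖AA β r t₂‖ ≤ ‖AA β r ((t₁ + t₂) / 2)‖ ^ 2 := by
  have hA := AA_continuous hβ hr
  have h1 : Tendsto (fun e : ℝ => ‖AA β r (t₁ - e)‖ * ‖AA β r (t₂ - e)‖) (𝓝[>] 0)
      (𝓝 (‖AA β r (t₁ - 0)‖ * ‖AA β r (t₂ - 0)‖)) := by
    have h2 : Continuous fun e : ℝ => ‖AA β r (t₁ - e)‖ * ‖AA β r (t₂ - e)‖ := by fun_prop
    exact (h2.tendsto 0).mono_left nhdsWithin_le_nhds
  have h3 : Tendsto (fun e : ℝ => ‖AA β r ((t₁ - e + (t₂ - e)) / 2)‖ ^ 2) (𝓝[>] 0)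
      (𝓝 (‖AA β r ((t₁ - 0 + (t₂ - 0)) / 2)‖ ^ 2)) := by
    have h2 : Continuous fun e : ℝ => ‖AA β r ((t₁ - e + (t₂ - e)) / 2)‖ ^ 2 := by fun_prop
    exact (h2.tendsto 0).mono_left nhdsWithin_le_nhds
  simp only [sub_zero] at h1 h3
  refine le_of_tendsto_of_tendsto h1 h3 ?_
  filter_upwards [self_mem_nhdsWithin] with e he
  exact AA_mean hβ hr (by linarith [mem_Ioi.1 he]) (by linarith [mem_Ioi.1 he])

/-- **log-concavity of the valley function** -/
theorem AA_concave {β r : ℝ} (hβ : 0 < β) (hr : 0 < r) :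
    ConcaveOn ℝ (Iic (-(Real.pi / 2))) (fun t : ℝ => Real.log ‖AA β r t‖) := by
  apply concave_of_midpoint (convex_Iic _)
  · intro t ht
    have h1 : ContinuousAt (fun t : ℝ => ‖AA β r t‖) t := (AA_continuous hβ hr).norm.continuousAt
    exact (h1.log (norm_ne_zero_iff.2 (AA_ne_zero hβ hr ht))).continuousWithinAt
  · intro x hx y hy
    have h1 := AA_mean_le hβ hr hx hy
    have px := norm_pos_iff.2 (AA_ne_zero hβ hr hx)
    have py := norm_pos_iff.2 (AA_ne_zero hβ hr hy)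
    have h2 := Real.log_le_log (mul_pos px py) h1
    rw [Real.log_mul px.ne' py.ne', Real.log_pow] at h2
    exact_mod_cast h2

/-- logarithmic derivative in `t` -/
theorem AA_log_deriv {β r t : ℝ} (hβ : 0 < β) (hr : 0 < r) (ht : t ≤ -(Real.pi / 2)) :
    HasDerivAt (fun t : ℝ => Real.log ‖AA β r t‖)
      ((I * (r * cexp (I * (t + β/2))) * AA β r (t + β)) / AA β r t).re t := by
  have h0 := AA_ne_zero hβ hr ht
  obtain ⟨a', ha'⟩ : ∃ a' : ℂ, a' = I * (r * cexp (I * (t + β/2))) * AA β r (t + β) := ⟨_, rfl⟩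
  have h1 : HasDerivAt (AA β r) a' t := by rw [ha']; exact hasDerivAt_AA hβ hr t
  have h2 := h1.norm_sq
  have hn : ‖AA β r t‖ ^ 2 ≠ 0 := pow_ne_zero 2 (norm_ne_zero_iff.2 h0)
  have h3 := (h2.log hn).div_const 2
  rw [← ha']
  have e1 : (fun t : ℝ => Real.log ‖AA β r t‖) = fun t : ℝ => Real.log (‖AA β r t‖ ^ 2) / 2 := by
    funext x
    rw [Real.log_pow]
    push_cast
    ring
  rw [e1]
  refine h3.congr_deriv ?_
  rw [Complex.inner, Complex.div_re, ← Complex.normSq_eq_norm_sq]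
  simp only [Complex.mul_re, Complex.conj_re, Complex.conj_im]
  have hN : Complex.normSq (AA β r t) ≠ 0 := by rw [Complex.normSq_eq_norm_sq]; exact hn
  field_simp
  ring

/-- **tangent inequality** -/
theorem AA_tangent {β r t : ℝ} (hβ : 0 < β) (hr : 0 < r) (ht : t ≤ -(Real.pi / 2)) :
    Real.log ‖AA β r (-(Real.pi / 2))‖ ≤ Real.log ‖AA β r t‖ +
      (-(Real.pi / 2) - t) * ((I * (r * cexp (I * (t + β/2))) * AA β r (t + β)) / AA β r t).re := by
  rcases eq_or_lt_of_le ht with h | h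
  · rw [h]; simp
  · have h1 := (AA_concave hβ hr).slope_le_of_hasDerivAt (x := t) (y := -(Real.pi / 2)) ht
      (mem_Iic.2 le_rfl) h (AA_log_deriv hβ hr ht)
    rw [slope_def_field, div_le_iff₀ (by linarith)] at h1
    linarith

end Sok
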