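import Mathlib
import Pool.Agent.Lib.MP_816dec_an.A0Far

/-!
MP_816dec_an: first moments of the window functions, centred at an arbitrary complex number `L`.
-/

set_option autoImplicit false

open Complex Set Filter Topology MeasureTheory

namespace Sok

/-- the centred first-moment integrand -/
noncomputable def hm (β r t : ℝ) (L s : ℂ) : ℂ := (s - t - L) / β * gs β r t s

theorem hm_diff (β r t : ℝ) (L : ℂ) : Differentiable ℂ (hm β r t L) := by
  have := gs_diff β r t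
  unfold hm
  fun_prop

theorem norm_hm {β : ℝ} (hβ : 0 < β) (r t : ℝ) (L : ℂ) (X Y : ℝ) :
    ‖hm β r t L (X + Y * I)‖ = ‖((X : ℂ) + Y * I - t - L)‖ / β * mg β r t X Y := by
  unfold hm
  rw [norm_mul, norm_div, norm_gs_mg, Complex.norm_real, Real.norm_of_nonneg hβ.le]

/-- distance to the centre -/
theorem dist_center (t : ℝ) (L : ℂ) (w₀ v X Y : ℝ) :
    ‖((X : ℂ) + Y * I - t - L)‖ ≤ |X - w₀| + |Y - v| + (|w₀ - t - L.re| + |v - L.im|) := by
  have e1 : ((X : ℂ) + Y * I - t - L) = ((X - t - L.re : ℝ) : ℂ) + ((Y - L.im : ℝ) : ℂ) * I := by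
    conv_lhs => rw [← Complex.re_add_im L]
    push_cast
    ring
  rw [e1]
  refine (norm_add_le _ _).trans ?_
  rw [norm_mul, Complex.norm_I, mul_one, Complex.norm_real, Complex.norm_real, Real.norm_eq_abs,
    Real.norm_eq_abs]
  have h1 : |X - t - L.re| ≤ |X - w₀| + |w₀ - t - L.re| := by
    have := abs_add_le (X - w₀) (w₀ - t - L.re)
    have e2 : X - w₀ + (w₀ - t - L.re) = X - t - L.re := by ring
    rwa [e2] at this
  have h2 : |Y - L.im| ≤ |Y - v| + |v - L.im| := by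
    have := abs_add_le (Y - v) (v - L.im)
    have e2 : Y - v + (v - L.im) = Y - L.im := by ring
    rwa [e2] at this
  linarith

/-- primitive of `hm` with its limits -/
structure MV (β r t : ℝ) (L : ℂ) (H : ℂ → ℂ) (W : ℤ → ℂ) (mL mR : ℂ) : Prop where
  prim : ∀ s, HasDerivAt H (hm β r t L s) s
  left : ∀ Y : ℝ, 0 < Y → Tendsto (fun X : ℝ => H (X + Y * I)) atBot (𝓝 mL)
  right : ∀ Y : ℝ, Y < 0 → Tendsto (fun X : ℝ => H (X + Y * I)) atTop (𝓝 mR)
  val0 : Tendsto (fun Y : ℝ => H ((Real.pi : ℝ) + Y * I)) atBot (𝓝 (W 0))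
  val1 : Tendsto (fun Y : ℝ => H ((-Real.pi : ℝ) + Y * I)) atBot (𝓝 (W (-1)))

private theorem inV0 (t : ℝ) : InV t 0 Real.pi := by
  have := inV_center t 0
  simpa using this

private theorem inVm (t : ℝ) : InV t (-1) (-Real.pi) := by
  have := inV_center t (-1)
  have e1 : (2 * ((-1 : ℤ) : ℝ) + 1) * Real.pi = -Real.pi := by push_cast; ring
  rwa [e1] at this

private theorem gs_leg_zero {β r t : ℝ} {j : ℤ} {S : ℝ} (hβ : 0 < β) (hr : 0 < r) (h : InV t j S) :
    Tendsto (fun Y : ℝ => gs β r t (S + Y * I)) atBot (𝓝 0) := by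
  obtain ⟨K, ε, hε, hK⟩ := h.vl hβ hr
  have h1 : Tendsto (fun Y : ℝ => Real.exp (K + ε * Y)) atBot (𝓝 0) := by
    refine Real.tendsto_exp_atBot.comp ?_
    exact tendsto_atBot_add_const_left _ _ ((tendsto_const_mul_atBot_of_pos hε).2 tendsto_id)
  refine squeeze_zero_norm' ?_ h1
  filter_upwards [eventually_le_atBot (0 : ℝ)] with Y hY
  rw [norm_gs]
  exact Real.exp_le_exp.2 (hK S ⟨le_rfl, le_rfl⟩ Y hY)

private theorem gs_left_zero {β r t Y : ℝ} (hβ : 0 < β) (hr : 0 ≤ r) (hY : 0 < Y) :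
    Tendsto (fun X : ℝ => gs β r t (X + Y * I)) atBot (𝓝 0) := by
  have h1 : Tendsto (fun X : ℝ => Real.exp (r * Real.exp (-Y) - t * Y / β + Y / β * X)) atBot (𝓝 0) := by
    refine Real.tendsto_exp_atBot.comp ?_
    exact tendsto_atBot_add_const_left _ _ ((tendsto_const_mul_atBot_of_pos (div_pos hY hβ)).2 tendsto_id)
  refine squeeze_zero_norm (fun X => ?_) h1
  rw [norm_gs]
  apply Real.exp_le_exp.2
  have h2 : r * Real.cos X * Real.exp (-Y) ≤ r * Real.exp (-Y) := by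
    have h4 : r * Real.cos X ≤ r := by nlinarith [Real.cos_le_one X]
    exact mul_le_mul_of_nonneg_right h4 (Real.exp_pos _).le
  have e1 : (X - t) * Y / β = Y / β * X - t * Y / β := by ring
  linarith

private theorem gs_right_zero {β r t Y : ℝ} (hβ : 0 < β) (hr : 0 ≤ r) (hY : Y < 0) :
    Tendsto (fun X : ℝ => gs β r t (X + Y * I)) atTop (𝓝 0) := by
  have h1 : Tendsto (fun X : ℝ => Real.exp (r * Real.exp (-Y) - t * Y / β + Y / β * X)) atTop (𝓝 0) := by
    refine Real.tendsto_exp_atBot.comp ?_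
    exact tendsto_atBot_add_const_left _ _
      ((tendsto_const_mul_atBot_of_neg (div_neg_of_neg_of_pos hY hβ)).2 tendsto_id)
  refine squeeze_zero_norm (fun X => ?_) h1
  rw [norm_gs]
  apply Real.exp_le_exp.2
  have h2 : r * Real.cos X * Real.exp (-Y) ≤ r * Real.exp (-Y) := by
    have h4 : r * Real.cos X ≤ r := by nlinarith [Real.cos_le_one X]
    exact mul_le_mul_of_nonneg_right h4 (Real.exp_pos _).le
  have e1 : (X - t) * Y / β = Y / β * X - t * Y / β := by ring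
  linarith

/-- `e^w` -/
noncomputable def ew (β r t : ℝ) : ℂ := r * cexp (I * (t + β / 2))

/-- the right function -/
noncomputable def RR (β r t : ℝ) : ℂ := Ft β r t - CC β r (t + 2 * Real.pi)

theorem exists_MV {β r : ℝ} (hβ : 0 < β) (hr : 0 < r) (t : ℝ) (L : ℂ) :
    ∃ (H : ℂ → ℂ) (W : ℤ → ℂ) (mL mR : ℂ), MV β r t L H W mL mR ∧
      W 0 - W (-1) = cF β * (ew β r t * AA β r (t + β) - L / β * AA β r t) ∧
      W 0 - mL = cF β * (ew β r t * CC β r (t + β) - L / β * CC β r t) ∧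
      mR - W (-1) = cF β * (ew β r t * RR β r (t + β) - L / β * RR β r t) := by
  obtain ⟨P, hP⟩ := exists_prim (gs_diff β r t)
  obtain ⟨V, lL, lR, hV, hF⟩ := exists_vals hβ hr hP
  obtain ⟨P', hP'⟩ := exists_prim (gs_diff β r (t + β))
  obtain ⟨V', lL', lR', hV', hF'⟩ := exists_vals hβ hr hP'
  have hβ' : (β : ℂ) ≠ 0 := Complex.ofReal_ne_zero.2 hβ.ne'
  refine ⟨fun s => ew β r t * P' s + I * gs β r t s - L / β * P s,
    fun j => ew β r t * V' j - L / β * V j, ew β r t * lL' - L / β * lL, ew β r t * lR' - L / β * lR,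
    ⟨fun s => ?_, fun Y hY => ?_, fun Y hY => ?_, ?_, ?_⟩, ?_, ?_, ?_⟩
  · have h1 := (((hP' s).const_mul (ew β r t)).add ((hasDerivAt_gs_s β r t s).const_mul I)).sub
      ((hP s).const_mul (L / β))
    refine h1.congr_deriv ?_
    have h2 := exp_mul_gs hβ.ne' r t s
    unfold hm ew
    have h3 : I * ((-(I * (s - t) / β) + I * (r * cexp (I * s))) * gs β r t s) =
        ((s - t) / β - r * cexp (I * s)) * gs β r t s := by
      have : (I : ℂ) * I = -1 := Complex.I_mul_I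
      linear_combination ((-(s - t) / β + r * cexp (I * s)) * gs β r t s) * this
    rw [h3]
    linear_combination (-(r : ℂ)) * h2
  · have h1 := (((hV'.left Y hY).const_mul (ew β r t)).add
      ((gs_left_zero (t := t) hβ hr.le hY).const_mul I)).sub ((hV.left Y hY).const_mul (L / β))
    simpa using h1
  · have h1 := (((hV'.right Y hY).const_mul (ew β r t)).add
      ((gs_right_zero (t := t) hβ hr.le hY).const_mul I)).sub ((hV.right Y hY).const_mul (L / β))
    simpa using h1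
  · have w1 := hV'.val 0 Real.pi (inV0 (t + β)).1 (inV0 (t + β)).2
    have w2 := hV.val 0 Real.pi (inV0 t).1 (inV0 t).2
    have h1 := ((w1.const_mul (ew β r t)).add ((gs_leg_zero hβ hr (inV0 t)).const_mul I)).sub
      (w2.const_mul (L / β))
    simpa using h1
  · have w1 := hV'.val (-1) (-Real.pi) (inVm (t + β)).1 (inVm (t + β)).2
    have w2 := hV.val (-1) (-Real.pi) (inVm t).1 (inVm t).2
    have h1 := ((w1.const_mul (ew β r t)).add ((gs_leg_zero hβ hr (inVm t)).const_mul I)).sub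
      (w2.const_mul (L / β))
    simpa using h1
  · have e1 := hV.AA0 hβ hr hP
    have e2 := hV'.AA0 hβ hr hP'
    show (ew β r t * V' 0 - L / β * V 0) - (ew β r t * V' (-1) - L / β * V (-1)) = _
    linear_combination (ew β r t) * e2 - (L / β) * e1
  · have e1 := hV.CC0 hβ hr hP
    have e2 := hV'.CC0 hβ hr hP'
    show (ew β r t * V' 0 - L / β * V 0) - (ew β r t * lL' - L / β * lL) = _
    linear_combination (ew β r t) * e2 - (L / β) * e1
  · have e1 := hV.CCj hβ hr hP (-1)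
    have e2 := hV'.CCj hβ hr hP' (-1)
    have e4 : t - 2 * Real.pi * ((-1 : ℤ) : ℝ) = t + 2 * Real.pi := by push_cast; ring
    have e5 : t + β - 2 * Real.pi * ((-1 : ℤ) : ℝ) = t + β + 2 * Real.pi := by push_cast; ring
    rw [e4] at e1
    rw [e5] at e2
    have f1 : lR - lL = cF β * Ft β r t := hF
    have f2 : lR' - lL' = cF β * Ft β r (t + β) := hF'
    show (ew β r t * lR' - L / β * lR) - (ew β r t * V' (-1) - L / β * V (-1)) = _
    unfold RR
    linear_combination (ew β r t) * (f2 - e2) - (L / β) * (f1 - e1)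


/-! ### weighted path bounds -/

/-- weighted horizontal integral -/
noncomputable def HorW (β r t a b v w₀ d : ℝ) : ℝ := ∫ X in a..b, (|X - w₀| + d) * mg β r t X v

/-- weighted leg integral -/
noncomputable def LegW (β r t S y v A : ℝ) : ℝ := ∫ Y in y..v, (A + (v - Y)) * mg β r t S Y

private theorem hor_step {β r t : ℝ} {L : ℂ} {H : ℂ → ℂ} (hβ : 0 < β) (hH : ∀ s, HasDerivAt H (hm β r t L s) s)
    {a b v w₀ d : ℝ} (hab : a ≤ b) (hd : |w₀ - t - L.re| + |v - L.im| ≤ d) :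
    ‖H (b + v * I) - H (a + v * I)‖ ≤ β⁻¹ * HorW β r t a b v w₀ d := by
  rw [← prim_hor (hm_diff β r t L) hH]
  refine (intervalIntegral.norm_integral_le_integral_norm hab).trans ?_
  unfold HorW
  rw [← intervalIntegral.integral_const_mul]
  have hc1 : Continuous fun X : ℝ => ‖hm β r t L (X + v * I)‖ := by
    have := (hm_diff β r t L).continuous
    fun_prop
  have hc2 : Continuous fun X : ℝ => β⁻¹ * ((|X - w₀| + d) * mg β r t X v) := by
    have := continuous_mg_X β r t v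
    fun_prop
  refine intervalIntegral.integral_mono_on hab (hc1.intervalIntegrable _ _) (hc2.intervalIntegrable _ _) ?_
  intro X _
  rw [norm_hm hβ]
  have h1 := dist_center t L w₀ v X v
  rw [sub_self, abs_zero, add_zero] at h1
  have h2 : ‖((X : ℂ) + v * I - t - L)‖ ≤ |X - w₀| + d := by linarith
  have h3 := mul_le_mul_of_nonneg_right h2 (mg_pos β r t X v).le
  have h4 : 0 ≤ β⁻¹ := inv_nonneg.2 hβ.le
  calc ‖((X : ℂ) + v * I - t - L)‖ / β * mg β r t X v = β⁻¹ * (‖((X : ℂ) + v * I - t - L)‖ * mg β r t X v) := by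
        field_simp
    _ ≤ _ := mul_le_mul_of_nonneg_left h3 h4

private theorem leg_step {β r t : ℝ} {L : ℂ} {H : ℂ → ℂ} (hβ : 0 < β) (hH : ∀ s, HasDerivAt H (hm β r t L s) s)
    {S y v w₀ A : ℝ} (hyv : y ≤ v) (hA : |S - w₀| + (|w₀ - t - L.re| + |v - L.im|) ≤ A) :
    ‖H (S + v * I) - H (S + y * I)‖ ≤ β⁻¹ * LegW β r t S y v A := by
  rw [← prim_ver (hm_diff β r t L) hH, norm_mul, Complex.norm_I, one_mul]
  refine (intervalIntegral.norm_integral_le_integral_norm hyv).trans ?_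
  unfold LegW
  rw [← intervalIntegral.integral_const_mul]
  have hc1 : Continuous fun Y : ℝ => ‖hm β r t L (S + Y * I)‖ := by
    have := (hm_diff β r t L).continuous
    fun_prop
  have hc2 : Continuous fun Y : ℝ => β⁻¹ * ((A + (v - Y)) * mg β r t S Y) := by
    have := continuous_mg_Y β r t S
    fun_prop
  refine intervalIntegral.integral_mono_on hyv (hc1.intervalIntegrable _ _) (hc2.intervalIntegrable _ _) ?_
  intro Y hY
  rw [norm_hm hβ]
  have h1 := dist_center t L w₀ v S Y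
  have h5 : |Y - v| = v - Y := by rw [abs_sub_comm]; exact abs_of_nonneg (by linarith [hY.2])
  have h2 : ‖((S : ℂ) + Y * I - t - L)‖ ≤ A + (v - Y) := by linarith
  have h3 := mul_le_mul_of_nonneg_right h2 (mg_pos β r t S Y).le
  have h4 : 0 ≤ β⁻¹ := inv_nonneg.2 hβ.le
  calc ‖((S : ℂ) + Y * I - t - L)‖ / β * mg β r t S Y = β⁻¹ * (‖((S : ℂ) + Y * I - t - L)‖ * mg β r t S Y) := by
        field_simp
    _ ≤ _ := mul_le_mul_of_nonneg_left h3 h4

private theorem lim_bd {f : ℝ → ℂ} {l : ℂ} {F : Filter ℝ} [F.NeBot] (hl : Tendsto f F (𝓝 l)) {z : ℂ} {B : ℝ}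
    (hb : ∀ᶠ Y in F, ‖z - f Y‖ ≤ B) : ‖z - l‖ ≤ B :=
  le_of_tendsto (tendsto_const_nhds.sub hl).norm hb

/-- MOMENT BOUND for a window -/
theorem norm_AA_mom {β r t : ℝ} (hβ : 0 < β) (hr : 0 < r) (L : ℂ) (v w₀ : ℝ) {d B₀ B₁ : ℝ}
    (hd : |w₀ - t - L.re| + |v - L.im| ≤ d)
    (h0 : ∀ y ≤ v, LegW β r t Real.pi y v (|Real.pi - w₀| + d) ≤ B₀)
    (h1 : ∀ y ≤ v, LegW β r t (-Real.pi) y v (|-Real.pi - w₀| + d) ≤ B₁) :
    ‖ew β r t * AA β r (t + β) - L / β * AA β r t‖ ≤ (Real.sqrt (2 * Real.pi * β))⁻¹ *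
      (β⁻¹ * (HorW β r t (-Real.pi) Real.pi v w₀ d + B₀ + B₁)) := by
  have hpi := Real.pi_pos
  obtain ⟨H, W, mL, mR, hH, e1, -, -⟩ := exists_MV hβ hr t L
  have hb : 0 ≤ β⁻¹ := inv_nonneg.2 hβ.le
  have e2 : ew β r t * AA β r (t + β) - L / β * AA β r t = (cF β)⁻¹ * (W 0 - W (-1)) := by
    rw [e1, inv_mul_cancel_left₀ (cF_ne hβ)]
  have l0 : ‖H ((Real.pi : ℝ) + v * I) - W 0‖ ≤ β⁻¹ * B₀ :=
    lim_bd hH.val0 (by
      filter_upwards [eventually_le_atBot v] with Y hY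
      refine (leg_step hβ hH.prim hY (by linarith)).trans (mul_le_mul_of_nonneg_left (h0 Y hY) hb))
  have l1 : ‖H ((-Real.pi : ℝ) + v * I) - W (-1)‖ ≤ β⁻¹ * B₁ :=
    lim_bd hH.val1 (by
      filter_upwards [eventually_le_atBot v] with Y hY
      refine (leg_step hβ hH.prim hY (by linarith)).trans (mul_le_mul_of_nonneg_left (h1 Y hY) hb))
  have l2 := hor_step (a := -Real.pi) (b := Real.pi) hβ hH.prim (by linarith) hd
  have e3 : W 0 - W (-1) = -(H ((Real.pi : ℝ) + v * I) - W 0) +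
      (H ((Real.pi : ℝ) + v * I) - H ((-Real.pi : ℝ) + v * I)) + (H ((-Real.pi : ℝ) + v * I) - W (-1)) := by ring
  rw [e2, norm_mul, norm_inv, norm_cF, e3]
  apply mul_le_mul_of_nonneg_left _ (by positivity)
  refine (norm_add_le _ _).trans ?_
  have l3 := norm_add_le (-(H ((Real.pi : ℝ) + v * I) - W 0))
    (H ((Real.pi : ℝ) + v * I) - H ((-Real.pi : ℝ) + v * I))
  rw [norm_neg] at l3
  linarith

/-- MOMENT BOUND for the left function -/
theorem norm_CC_mom {β r t : ℝ} (hβ : 0 < β) (hr : 0 < r) (L : ℂ) {v : ℝ} (hv : 0 < v) (w₀ : ℝ) {d B₀ BL : ℝ}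
    (hd : |w₀ - t - L.re| + |v - L.im| ≤ d)
    (h0 : ∀ y ≤ v, LegW β r t Real.pi y v (|Real.pi - w₀| + d) ≤ B₀)
    (hL : ∀ a ≤ Real.pi, HorW β r t a Real.pi v w₀ d ≤ BL) :
    ‖ew β r t * CC β r (t + β) - L / β * CC β r t‖ ≤ (Real.sqrt (2 * Real.pi * β))⁻¹ * (β⁻¹ * (BL + B₀)) := by
  have hpi := Real.pi_pos
  obtain ⟨H, W, mL, mR, hH, -, e1, -⟩ := exists_MV hβ hr t L
  have hb : 0 ≤ β⁻¹ := inv_nonneg.2 hβ.le
  have e2 : ew β r t * CC β r (t + β) - L / β * CC β r t = (cF β)⁻¹ * (W 0 - mL) := by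
    rw [e1, inv_mul_cancel_left₀ (cF_ne hβ)]
  have l0 : ‖H ((Real.pi : ℝ) + v * I) - W 0‖ ≤ β⁻¹ * B₀ :=
    lim_bd hH.val0 (by
      filter_upwards [eventually_le_atBot v] with Y hY
      refine (leg_step hβ hH.prim hY (by linarith)).trans (mul_le_mul_of_nonneg_left (h0 Y hY) hb))
  have l1 : ‖H ((Real.pi : ℝ) + v * I) - mL‖ ≤ β⁻¹ * BL :=
    lim_bd (hH.left v hv) (by
      filter_upwards [eventually_le_atBot Real.pi] with X hX
      refine (hor_step hβ hH.prim hX hd).trans (mul_le_mul_of_nonneg_left (hL X hX) hb))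
  have e3 : W 0 - mL = -(H ((Real.pi : ℝ) + v * I) - W 0) + (H ((Real.pi : ℝ) + v * I) - mL) := by ring
  rw [e2, norm_mul, norm_inv, norm_cF, e3]
  apply mul_le_mul_of_nonneg_left _ (by positivity)
  refine (norm_add_le _ _).trans ?_
  rw [norm_neg]
  linarith

/-- MOMENT BOUND for the right function -/
theorem norm_RR_mom {β r t : ℝ} (hβ : 0 < β) (hr : 0 < r) (L : ℂ) {v : ℝ} (hv : v < 0) (w₀ : ℝ) {d B₁ BR : ℝ}
    (hd : |w₀ - t - L.re| + |v - L.im| ≤ d)
    (h1 : ∀ y ≤ v, LegW β r t (-Real.pi) y v (|-Real.pi - w₀| + d) ≤ B₁)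
    (hR : ∀ b, -Real.pi ≤ b → HorW β r t (-Real.pi) b v w₀ d ≤ BR) :
    ‖ew β r t * RR β r (t + β) - L / β * RR β r t‖ ≤ (Real.sqrt (2 * Real.pi * β))⁻¹ * (β⁻¹ * (BR + B₁)) := by
  have hpi := Real.pi_pos
  obtain ⟨H, W, mL, mR, hH, -, -, e1⟩ := exists_MV hβ hr t L
  have hb : 0 ≤ β⁻¹ := inv_nonneg.2 hβ.le
  have e2 : ew β r t * RR β r (t + β) - L / β * RR β r t = (cF β)⁻¹ * (mR - W (-1)) := by
    rw [e1, inv_mul_cancel_left₀ (cF_ne hβ)]
  have l0 : ‖H ((-Real.pi : ℝ) + v * I) - W (-1)‖ ≤ β⁻¹ * B₁ :=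
    lim_bd hH.val1 (by
      filter_upwards [eventually_le_atBot v] with Y hY
      refine (leg_step hβ hH.prim hY (by linarith)).trans (mul_le_mul_of_nonneg_left (h1 Y hY) hb))
  have l1 : ‖H ((-Real.pi : ℝ) + v * I) - mR‖ ≤ β⁻¹ * BR :=
    lim_bd (hH.right v hv) (by
      filter_upwards [eventually_ge_atTop (-Real.pi)] with X hX
      rw [norm_sub_rev]
      refine (hor_step hβ hH.prim hX hd).trans (mul_le_mul_of_nonneg_left (hR X hX) hb))
  have e3 : mR - W (-1) = -(H ((-Real.pi : ℝ) + v * I) - mR) + (H ((-Real.pi : ℝ) + v * I) - W (-1)) := by ring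
  rw [e2, norm_mul, norm_inv, norm_cF, e3]
  apply mul_le_mul_of_nonneg_left _ (by positivity)
  refine (norm_add_le _ _).trans ?_
  rw [norm_neg]
  linarith

end Sok
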