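import Mathlib

/-!
MP_816dec_an: a quantitative Laplace lemma on a segment (any direction of the contour).
-/

set_option autoImplicit false

open Complex Set Filter Topology MeasureTheory

namespace Sok

/-- Taylor remainder of the exponential, with `max 1 (exp (re w))` -/
theorem norm_exp_sub_sum_le (w : ℂ) (n : ℕ) {M : ℝ} (hM1 : 1 ≤ M) (hM : Real.exp w.re ≤ M) :
    ∀ s ∈ Icc (0:ℝ) 1, ‖cexp ((s : ℂ) * w) - ∑ k ∈ Finset.range n, ((s : ℂ) * w) ^ k / (k.factorial : ℂ)‖ ≤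
      M * ((s * ‖w‖) ^ n / (n.factorial : ℝ)) := by
  induction n with
  | zero =>
    intro s hs
    simp only [Finset.range_zero, Finset.sum_empty, sub_zero, pow_zero, Nat.factorial_zero, Nat.cast_one, div_one, mul_one]
    rw [Complex.norm_exp, Complex.re_ofReal_mul]
    rcases le_total 0 w.re with h | h
    · exact le_trans (Real.exp_le_exp.2 (by nlinarith [hs.1, hs.2])) hM
    · exact le_trans (Real.exp_le_one_iff.2 (mul_nonpos_of_nonneg_of_nonpos hs.1 h)) hM1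
  | succ n ih =>
    intro s hs
    have hder : ∀ t : ℝ, HasDerivAt (fun t : ℝ => cexp ((t : ℂ) * w) -
        ∑ k ∈ Finset.range (n + 1), ((t : ℂ) * w) ^ k / (k.factorial : ℂ))
        (w * (cexp ((t : ℂ) * w) - ∑ k ∈ Finset.range n, ((t : ℂ) * w) ^ k / (k.factorial : ℂ))) t := by
      intro t
      have h1 : HasDerivAt (fun t : ℝ => (t : ℂ) * w) (1 * w) t := (Complex.ofRealCLM.hasDerivAt (x := t)).mul_const w
      have h2 := h1.cexp
      have h3 : HasDerivAt (fun t : ℝ => ∑ k ∈ Finset.range (n + 1), ((t : ℂ) * w) ^ k / (k.factorial : ℂ))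
          (∑ k ∈ Finset.range (n + 1), ((k : ℂ) * ((t : ℂ) * w) ^ (k - 1) * (1 * w)) / (k.factorial : ℂ)) t := by
        refine HasDerivAt.fun_sum (fun k _ => ?_)
        exact (h1.pow k).div_const _
      refine (h2.sub h3).congr_deriv ?_
      rw [Finset.sum_range_succ', mul_sub, Finset.mul_sum]
      simp only [Nat.cast_zero, zero_mul, zero_div, add_zero, one_mul]
      congr 1
      · ring
      · refine Finset.sum_congr rfl (fun k _ => ?_)
        rw [Nat.add_sub_cancel, Nat.factorial_succ, Nat.cast_mul]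
        have h4 : ((k + 1 : ℕ) : ℂ) ≠ 0 := Nat.cast_ne_zero.2 (Nat.succ_ne_zero k)
        have h5 : (k.factorial : ℂ) ≠ 0 := Nat.cast_ne_zero.2 (Nat.factorial_ne_zero k)
        field_simp
    have hB : ∀ t : ℝ, HasDerivAt (fun t : ℝ => M * ((t * ‖w‖) ^ (n + 1) / ((n + 1).factorial : ℝ)))
        (‖w‖ * (M * ((t * ‖w‖) ^ n / (n.factorial : ℝ)))) t := by
      intro t
      have h1 : HasDerivAt (fun t : ℝ => t * ‖w‖) (1 * ‖w‖) t := (hasDerivAt_id t).mul_const _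
      refine (((h1.pow (n + 1)).div_const ((n + 1).factorial : ℝ)).const_mul M).congr_deriv ?_
      rw [Nat.add_sub_cancel, Nat.factorial_succ, Nat.cast_mul]
      have h4 : ((n + 1 : ℕ) : ℝ) ≠ 0 := Nat.cast_ne_zero.2 (Nat.succ_ne_zero n)
      have h5 : (n.factorial : ℝ) ≠ 0 := Nat.cast_ne_zero.2 (Nat.factorial_ne_zero n)
      field_simp
    have h := image_norm_le_of_norm_deriv_right_le_deriv_boundary (a := 0) (b := 1)
      (f := fun t : ℝ => cexp ((t : ℂ) * w) - ∑ k ∈ Finset.range (n + 1), ((t : ℂ) * w) ^ k / (k.factorial : ℂ))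
      (B := fun t : ℝ => M * ((t * ‖w‖) ^ (n + 1) / ((n + 1).factorial : ℝ)))
      (fun t _ => (hder t).continuousAt.continuousWithinAt) (fun t _ => (hder t).hasDerivWithinAt)
      (by
        simp only [Complex.ofReal_zero, zero_mul, Complex.exp_zero]
        rw [Finset.sum_range_succ']
        simp)
      hB
      (by
        intro t ht
        rw [norm_mul]
        exact mul_le_mul_of_nonneg_left (ih t ⟨ht.1, ht.2.le⟩) (norm_nonneg _))
    exact h hs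

/-- `|e^w - 1 - w| ≤ (|w|²/2) M` whenever `1 ≤ M` and `exp (re w) ≤ M` -/
theorem norm_exp_sub_one_sub_le (w : ℂ) {M : ℝ} (hM1 : 1 ≤ M) (hM : Real.exp w.re ≤ M) :
    ‖cexp w - 1 - w‖ ≤ M * (‖w‖ ^ 2 / 2) := by
  have h := norm_exp_sub_sum_le w 2 hM1 hM 1 (right_mem_Icc.2 zero_le_one)
  simp only [Complex.ofReal_one, one_mul, Finset.sum_range_succ, Finset.sum_range_zero, Nat.factorial] at h
  norm_num at h
  rw [sub_sub]
  exact h

/-- `|e^w - 1 - w - w²/2| ≤ (|w|³/6) M` -/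
theorem norm_exp_sub_three_le (w : ℂ) {M : ℝ} (hM1 : 1 ≤ M) (hM : Real.exp w.re ≤ M) :
    ‖cexp w - 1 - w - w ^ 2 / 2‖ ≤ M * (‖w‖ ^ 3 / 6) := by
  have h := norm_exp_sub_sum_le w 3 hM1 hM 1 (right_mem_Icc.2 zero_le_one)
  simp only [Complex.ofReal_one, one_mul, Finset.sum_range_succ, Finset.sum_range_zero, Nat.factorial] at h
  norm_num at h
  rw [sub_sub, sub_sub, ← add_assoc]
  exact h

/-- `|e^w - 1 - w - w²/2 - w³/6| ≤ (|w|⁴/24) M` -/
theorem norm_exp_sub_four_le (w : ℂ) {M : ℝ} (hM1 : 1 ≤ M) (hM : Real.exp w.re ≤ M) :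
    ‖cexp w - 1 - w - w ^ 2 / 2 - w ^ 3 / 6‖ ≤ M * (‖w‖ ^ 4 / 24) := by
  have h := norm_exp_sub_sum_le w 4 hM1 hM 1 (right_mem_Icc.2 zero_le_one)
  simp only [Complex.ofReal_one, one_mul, Finset.sum_range_succ, Finset.sum_range_zero, Nat.factorial] at h
  norm_num at h
  rw [sub_sub, sub_sub, sub_sub, ← add_assoc, ← add_assoc]
  exact h

/-! Gaussian moments -/

theorem integral_sq_gauss {p : ℕ} {b : ℝ} (hb : 0 < b) :
    ∫ t : ℝ, |t| ^ p * Real.exp (-b * t ^ 2) = b ^ (-((p : ℝ) + 1) / 2) * Real.Gamma (((p : ℝ) + 1) / 2) := by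
  have h1 := integral_comp_abs (f := fun t : ℝ => t ^ p * Real.exp (-b * t ^ 2))
  simp only [sq_abs] at h1
  rw [h1]
  have h2 := _root_.integral_rpow_mul_exp_neg_mul_rpow (p := 2) (q := (p : ℝ)) (b := b) (by norm_num)
    (by have : (0:ℝ) ≤ p := Nat.cast_nonneg p
        linarith) hb
  have h3 : ∫ t in Ioi (0:ℝ), t ^ p * Real.exp (-b * t ^ 2) = ∫ t in Ioi (0:ℝ), t ^ (p : ℝ) * Real.exp (-b * t ^ (2:ℝ)) := by
    refine setIntegral_congr_fun measurableSet_Ioi (fun t _ => ?_)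
    simp only [Real.rpow_natCast]
    norm_num
  rw [h3, h2]
  ring

theorem integrable_abs_pow_gauss (p : ℕ) {b : ℝ} (hb : 0 < b) :
    Integrable (fun t : ℝ => |t| ^ p * Real.exp (-b * t ^ 2)) := by
  have h1 := integrable_rpow_mul_exp_neg_mul_sq hb (s := (p : ℝ)) (by
    have : (0:ℝ) ≤ p := Nat.cast_nonneg p
    linarith)
  have h2 := h1.norm
  refine h2.congr (Filter.Eventually.of_forall (fun t => ?_))
  simp only [Real.rpow_natCast, norm_mul, norm_pow, Real.norm_eq_abs, Real.abs_exp]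

theorem gamma_five_half : Real.Gamma (5 / 2) = 3 * Real.sqrt Real.pi / 4 := by
  have h1 : Real.Gamma (5 / 2) = (3 / 2) * Real.Gamma (3 / 2) := by
    rw [show (5 / 2 : ℝ) = 3 / 2 + 1 by norm_num, Real.Gamma_add_one (by norm_num)]
  have h2 : Real.Gamma (3 / 2) = (1 / 2) * Real.Gamma (1 / 2) := by
    rw [show (3 / 2 : ℝ) = 1 / 2 + 1 by norm_num, Real.Gamma_add_one (by norm_num)]
  rw [h1, h2, Real.Gamma_one_half_eq]
  ring

theorem gamma_seven_half : Real.Gamma (7 / 2) = 15 * Real.sqrt Real.pi / 8 := by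
  rw [show (7 / 2 : ℝ) = 5 / 2 + 1 by norm_num, Real.Gamma_add_one (by norm_num), gamma_five_half]
  ring

theorem gauss_four {a : ℝ} (ha : 0 < a) :
    ∫ t : ℝ, |t| ^ 4 * Real.exp (-(a / 2) * t ^ 2) = 3 * Real.sqrt (2 * Real.pi) / (a ^ 2 * Real.sqrt a) := by
  have ha2 : 0 < a / 2 := by positivity
  rw [integral_sq_gauss ha2]
  have h0 : ((4 : ℕ) : ℝ) + 1 = 5 := by norm_num
  rw [h0, gamma_five_half]
  have h1 : (a / 2) ^ (-(5:ℝ) / 2) = 1 / ((a / 2) ^ 2 * Real.sqrt (a / 2)) := by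
    rw [show (-(5:ℝ) / 2) = -(2 + 1 / 2) by norm_num, Real.rpow_neg ha2.le, Real.rpow_add ha2, ← Real.sqrt_eq_rpow,
      one_div, Real.rpow_two]
  rw [h1, Real.sqrt_div ha.le, Real.sqrt_mul (by norm_num)]
  have h2 : Real.sqrt 2 * Real.sqrt 2 = 2 := Real.mul_self_sqrt (by norm_num)
  have h3 : Real.sqrt 2 ≠ 0 := by positivity
  have h4 : Real.sqrt a ≠ 0 := by positivity
  field_simp
  nlinarith [h2]

theorem gauss_six {a : ℝ} (ha : 0 < a) :
    ∫ t : ℝ, |t| ^ 6 * Real.exp (-(a / 2) * t ^ 2) = 15 * Real.sqrt (2 * Real.pi) / (a ^ 3 * Real.sqrt a) := by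
  have ha2 : 0 < a / 2 := by positivity
  rw [integral_sq_gauss ha2]
  have h0 : ((6 : ℕ) : ℝ) + 1 = 7 := by norm_num
  rw [h0, gamma_seven_half]
  have h1 : (a / 2) ^ (-(7:ℝ) / 2) = 1 / ((a / 2) ^ 3 * Real.sqrt (a / 2)) := by
    rw [show (-(7:ℝ) / 2) = -(((3:ℕ):ℝ) + 1 / 2) by norm_num, Real.rpow_neg ha2.le, Real.rpow_add ha2, ← Real.sqrt_eq_rpow,
      one_div, Real.rpow_natCast]
  rw [h1, Real.sqrt_div ha.le, Real.sqrt_mul (by norm_num)]
  have h2 : Real.sqrt 2 * Real.sqrt 2 = 2 := Real.mul_self_sqrt (by norm_num)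
  have h3 : Real.sqrt 2 ≠ 0 := by positivity
  have h4 : Real.sqrt a ≠ 0 := by positivity
  field_simp
  nlinarith [h2]

/-- Gaussian tail -/
theorem gauss_tail {a T : ℝ} (ha : 0 < a) (hT : 0 < T) :
    ∫ t in Ioi T, Real.exp (-(a / 2) * t ^ 2) ≤ Real.exp (-(a / 2) * T ^ 2) / (a * T) := by
  have hder : ∀ t ∈ Ici T, HasDerivAt (fun t : ℝ => -(Real.exp (-(a / 2) * t ^ 2) / (a * T)))
      (t / T * Real.exp (-(a / 2) * t ^ 2)) t := by
    intro t _
    have h1 : HasDerivAt (fun t : ℝ => -(a / 2) * t ^ 2) (-(a / 2) * (2 * t)) t := by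
      simpa using (hasDerivAt_pow 2 t).const_mul (-(a / 2))
    refine ((h1.exp.div_const (a * T)).neg).congr_deriv ?_
    field_simp
  have hlim : Tendsto (fun t : ℝ => -(Real.exp (-(a / 2) * t ^ 2) / (a * T))) atTop (𝓝 0) := by
    have h1 : Tendsto (fun t : ℝ => (a / 2) * t ^ 2) atTop atTop :=
      (tendsto_pow_atTop two_ne_zero).const_mul_atTop (by positivity)
    have h2 := (Real.tendsto_exp_neg_atTop_nhds_zero.comp h1).div_const (a * T)
    have h3 := h2.neg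
    simp only [zero_div, neg_zero] at h3
    refine h3.congr (fun t => ?_)
    simp only [Function.comp_apply, neg_mul]
  have hnn : ∀ t ∈ Ioi T, 0 ≤ t / T * Real.exp (-(a / 2) * t ^ 2) := by
    intro t ht
    have : 0 < t := lt_trans hT ht
    positivity
  have hint : IntegrableOn (fun t : ℝ => t / T * Real.exp (-(a / 2) * t ^ 2)) (Ioi T) :=
    integrableOn_Ioi_deriv_of_nonneg' hder hnn hlim
  have hval := integral_Ioi_of_hasDerivAt_of_tendsto' hder hint hlim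
  have hle : ∫ t in Ioi T, Real.exp (-(a / 2) * t ^ 2) ≤ ∫ t in Ioi T, t / T * Real.exp (-(a / 2) * t ^ 2) := by
    refine setIntegral_mono_on ?_ hint measurableSet_Ioi ?_
    · exact (integrable_exp_neg_mul_sq (by positivity : 0 < a / 2)).integrableOn
    · intro t ht
      have h1 : 1 ≤ t / T := (one_le_div hT).2 (le_of_lt ht)
      have := Real.exp_pos (-(a / 2) * t ^ 2)
      nlinarith
  rw [hval] at hle
  linarith

private theorem norm_g (Λ : ℂ) (t : ℝ) : ‖cexp (-(Λ / 2) * (t : ℂ) ^ 2)‖ = Real.exp (-(Λ.re / 2) * t ^ 2) := by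
  rw [Complex.norm_exp]
  congr 1
  rw [← Complex.ofReal_pow, Complex.re_mul_ofReal]
  simp

private theorem seg_le {p : ℕ} {f : ℝ → ℂ} {T M b : ℝ} (hT : 0 < T) (hM : 0 ≤ M) (hb : 0 < b) (hf : Continuous f)
    (h : ∀ t, |t| ≤ T → ‖f t‖ ≤ M * (|t| ^ p * Real.exp (-b * t ^ 2))) :
    ‖∫ t in (-T)..T, f t‖ ≤ M * ∫ t : ℝ, |t| ^ p * Real.exp (-b * t ^ 2) := by
  have hTT : -T ≤ T := by linarith
  refine (intervalIntegral.norm_integral_le_integral_norm hTT).trans ?_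
  have hI := (integrable_abs_pow_gauss p hb).const_mul M
  have h1 : ∫ t in (-T)..T, ‖f t‖ ≤ ∫ t in (-T)..T, M * (|t| ^ p * Real.exp (-b * t ^ 2)) := by
    refine intervalIntegral.integral_mono_on hTT (hf.norm.intervalIntegrable _ _) hI.intervalIntegrable ?_
    intro t ht
    exact h t (abs_le.2 ht)
  refine h1.trans ?_
  rw [intervalIntegral.integral_of_le hTT, ← integral_const_mul]
  refine setIntegral_le_integral hI (Filter.Eventually.of_forall (fun t => ?_))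
  positivity

/-- the Gaussian integral over a segment -/
theorem gauss_segment {Λ : ℂ} {T : ℝ} (ha : 0 < Λ.re) (hT : 0 < T) :
    ‖(∫ t in (-T)..T, cexp (-(Λ / 2) * (t : ℂ) ^ 2)) - (2 * Real.pi / Λ) ^ (1 / 2 : ℂ)‖ ≤
      2 * (Real.exp (-(Λ.re / 2) * T ^ 2) / (Λ.re * T)) := by
  have hb : 0 < (Λ / 2).re := by
    have : (Λ / 2).re = Λ.re / 2 := by simp
    rw [this]; positivity
  have hI := integrable_cexp_neg_mul_sq hb
  have h0 := integral_gaussian_complex hb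
  have h1 : (Real.pi / (Λ / 2) : ℂ) = 2 * Real.pi / Λ := by
    have : Λ ≠ 0 := by rintro rfl; simp at ha
    field_simp
  rw [h1] at h0
  rw [← h0]
  have h2 := intervalIntegral.integral_Iic_add_Ioi (b := T) hI.integrableOn hI.integrableOn
  have h3 := intervalIntegral.integral_Iic_sub_Iic (a := -T) (b := T) hI.integrableOn hI.integrableOn
  have h4 : ∫ t in Iic (-T), cexp (-(Λ / 2) * (t : ℂ) ^ 2) = ∫ t in Ioi T, cexp (-(Λ / 2) * (t : ℂ) ^ 2) := by
    rw [← integral_comp_neg_Ioi T (fun t : ℝ => cexp (-(Λ / 2) * (t : ℂ) ^ 2))]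
    simp
  have h5 : (∫ t in (-T)..T, cexp (-(Λ / 2) * (t : ℂ) ^ 2)) - ∫ t : ℝ, cexp (-(Λ / 2) * (t : ℂ) ^ 2) =
      -(2 * ∫ t in Ioi T, cexp (-(Λ / 2) * (t : ℂ) ^ 2)) := by
    rw [← h2, ← h3, h4]; ring
  rw [h5, norm_neg, norm_mul]
  have h6 : ‖(2:ℂ)‖ = 2 := by simp
  rw [h6]
  refine mul_le_mul_of_nonneg_left ?_ (by norm_num)
  refine (norm_integral_le_integral_norm _).trans ?_
  simp only [norm_g]
  exact gauss_tail ha hT

/-- **Laplace lemma on a segment.** -/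
theorem laplace_segment {Λ K : ℂ} {c M3 M4 T : ℝ} {R : ℝ → ℂ} (ha : 0 < Λ.re) (hc : 0 < c) (hc1 : c ≤ 1)
    (hT : 0 < T) (hM4 : 0 ≤ M4) (hR : Continuous R)
    (h4 : ∀ t : ℝ, |t| ≤ T → ‖R t - K * (t : ℂ) ^ 3‖ ≤ M4 * |t| ^ 4)
    (h3 : ∀ t : ℝ, |t| ≤ T → ‖R t‖ ≤ M3 * |t| ^ 3)
    (hre : ∀ t : ℝ, |t| ≤ T → (R t).re ≤ (1 - c) * Λ.re * t ^ 2 / 2) :
    ‖(∫ t in (-T)..T, cexp (-(Λ / 2) * (t : ℂ) ^ 2 + R t)) - (2 * Real.pi / Λ) ^ (1 / 2 : ℂ)‖ ≤
      3 * Real.sqrt (2 * Real.pi) * M4 / (Λ.re ^ 2 * Real.sqrt Λ.re) +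
      15 / 2 * Real.sqrt (2 * Real.pi) * M3 ^ 2 / ((c * Λ.re) ^ 3 * Real.sqrt (c * Λ.re)) +
      2 * (Real.exp (-(Λ.re / 2) * T ^ 2) / (Λ.re * T)) := by
  obtain ⟨g, hg⟩ : ∃ g : ℝ → ℂ, g = fun t : ℝ => cexp (-(Λ / 2) * (t : ℂ) ^ 2) := ⟨_, rfl⟩
  have hgc : Continuous g := by rw [hg]; fun_prop
  have hgn : ∀ t, ‖g t‖ = Real.exp (-(Λ.re / 2) * t ^ 2) := by intro t; rw [hg]; exact norm_g Λ t
  have hsplit : ∀ t : ℝ, cexp (-(Λ / 2) * (t : ℂ) ^ 2 + R t) =
      g t + g t * (K * (t : ℂ) ^ 3) + g t * (R t - K * (t : ℂ) ^ 3) + g t * (cexp (R t) - 1 - R t) := by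
    intro t
    rw [Complex.exp_add, hg]
    ring
  have i1 : IntervalIntegrable g volume (-T) T := hgc.intervalIntegrable _ _
  have c2 : Continuous (fun t : ℝ => g t * (K * (t : ℂ) ^ 3)) := by fun_prop
  have c3 : Continuous (fun t : ℝ => g t * (R t - K * (t : ℂ) ^ 3)) := by fun_prop
  have c4 : Continuous (fun t : ℝ => g t * (cexp (R t) - 1 - R t)) := by fun_prop
  have e1 : (∫ t in (-T)..T, cexp (-(Λ / 2) * (t : ℂ) ^ 2 + R t)) =
      (∫ t in (-T)..T, g t) + (∫ t in (-T)..T, g t * (K * (t : ℂ) ^ 3)) +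
      (∫ t in (-T)..T, g t * (R t - K * (t : ℂ) ^ 3)) + ∫ t in (-T)..T, g t * (cexp (R t) - 1 - R t) := by
    rw [← intervalIntegral.integral_add i1 (c2.intervalIntegrable _ _),
      ← intervalIntegral.integral_add (i1.add (c2.intervalIntegrable _ _)) (c3.intervalIntegrable _ _),
      ← intervalIntegral.integral_add ((i1.add (c2.intervalIntegrable _ _)).add (c3.intervalIntegrable _ _))
        (c4.intervalIntegrable _ _)]
    refine intervalIntegral.integral_congr (fun t _ => ?_)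
    exact hsplit t
  have hodd : (∫ t in (-T)..T, g t * (K * (t : ℂ) ^ 3)) = 0 := by
    have h := intervalIntegral.integral_comp_neg (a := -T) (b := T) (fun t : ℝ => g t * (K * (t : ℂ) ^ 3))
    rw [neg_neg] at h
    have h' : (∫ t in (-T)..T, g (-t) * (K * ((-t : ℝ) : ℂ) ^ 3)) = -(∫ t in (-T)..T, g t * (K * (t : ℂ) ^ 3)) := by
      rw [← intervalIntegral.integral_neg]
      refine intervalIntegral.integral_congr (fun t _ => ?_)
      simp only [hg]
      push_cast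
      rw [neg_sq]
      ring
    rw [h'] at h
    have h2 : (2:ℂ) * (∫ t in (-T)..T, g t * (K * (t : ℂ) ^ 3)) = 0 := by
      linear_combination -h
    exact (mul_eq_zero.1 h2).resolve_left two_ne_zero
  have b3 : ‖∫ t in (-T)..T, g t * (R t - K * (t : ℂ) ^ 3)‖ ≤
      M4 * ∫ t : ℝ, |t| ^ 4 * Real.exp (-(Λ.re / 2) * t ^ 2) := by
    refine seg_le hT hM4 (by positivity) c3 (fun t ht => ?_)
    rw [norm_mul, hgn]
    have := h4 t ht
    have h5 := Real.exp_pos (-(Λ.re / 2) * t ^ 2)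
    calc _ ≤ Real.exp (-(Λ.re / 2) * t ^ 2) * (M4 * |t| ^ 4) := mul_le_mul_of_nonneg_left this h5.le
      _ = _ := by ring
  have b4 : ‖∫ t in (-T)..T, g t * (cexp (R t) - 1 - R t)‖ ≤
      (M3 ^ 2 / 2) * ∫ t : ℝ, |t| ^ 6 * Real.exp (-(c * Λ.re / 2) * t ^ 2) := by
    refine seg_le hT (by positivity) (by positivity) c4 (fun t ht => ?_)
    rw [norm_mul, hgn]
    have h5 := norm_exp_sub_one_sub_le (R t) (M := Real.exp ((1 - c) * Λ.re * t ^ 2 / 2))
      (Real.one_le_exp (by have : 0 ≤ 1 - c := by linarith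
                           positivity)) (Real.exp_le_exp.2 (hre t ht))
    have h6 : ‖R t‖ ^ 2 ≤ (M3 * |t| ^ 3) ^ 2 := pow_le_pow_left₀ (norm_nonneg _) (h3 t ht) 2
    have h7 : Real.exp (-(Λ.re / 2) * t ^ 2) * Real.exp ((1 - c) * Λ.re * t ^ 2 / 2) =
        Real.exp (-(c * Λ.re / 2) * t ^ 2) := by
      rw [← Real.exp_add]; congr 1; ring
    have h8 := Real.exp_pos (-(Λ.re / 2) * t ^ 2)
    have h9 := Real.exp_pos ((1 - c) * Λ.re * t ^ 2 / 2)
    calc Real.exp (-(Λ.re / 2) * t ^ 2) * ‖cexp (R t) - 1 - R t‖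
        ≤ Real.exp (-(Λ.re / 2) * t ^ 2) * (Real.exp ((1 - c) * Λ.re * t ^ 2 / 2) * (‖R t‖ ^ 2 / 2)) :=
          mul_le_mul_of_nonneg_left h5 h8.le
      _ = (Real.exp (-(Λ.re / 2) * t ^ 2) * Real.exp ((1 - c) * Λ.re * t ^ 2 / 2)) * (‖R t‖ ^ 2 / 2) := by ring
      _ ≤ (Real.exp (-(Λ.re / 2) * t ^ 2) * Real.exp ((1 - c) * Λ.re * t ^ 2 / 2)) * ((M3 * |t| ^ 3) ^ 2 / 2) := by
          gcongr
      _ = _ := by rw [h7]; ring
  rw [gauss_four ha] at b3
  rw [gauss_six (by positivity : 0 < c * Λ.re)] at b4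
  have b1 := gauss_segment ha hT
  rw [e1, hodd, add_zero]
  have e2 : (∫ t in (-T)..T, g t) + (∫ t in (-T)..T, g t * (R t - K * (t : ℂ) ^ 3)) +
      (∫ t in (-T)..T, g t * (cexp (R t) - 1 - R t)) - (2 * Real.pi / Λ) ^ (1 / 2 : ℂ) =
      (∫ t in (-T)..T, g t * (R t - K * (t : ℂ) ^ 3)) + (∫ t in (-T)..T, g t * (cexp (R t) - 1 - R t)) +
      ((∫ t in (-T)..T, cexp (-(Λ / 2) * (t : ℂ) ^ 2)) - (2 * Real.pi / Λ) ^ (1 / 2 : ℂ)) := by
    rw [hg]; ring
  rw [e2]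
  refine (norm_add₃_le).trans ?_
  refine add_le_add (add_le_add ?_ ?_) b1
  · refine b3.trans (le_of_eq ?_)
    ring
  · refine b4.trans (le_of_eq ?_)
    ring

/-! ### first moment -/

theorem gauss_five {a : ℝ} (ha : 0 < a) :
    ∫ t : ℝ, |t| ^ 5 * Real.exp (-(a / 2) * t ^ 2) = 16 / a ^ 3 := by
  have ha2 : 0 < a / 2 := by positivity
  rw [integral_sq_gauss ha2]
  have h0 : (((5 : ℕ) : ℝ) + 1) / 2 = ((2 : ℕ) : ℝ) + 1 := by norm_num
  rw [h0, Real.Gamma_nat_eq_factorial]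
  have h1 : (a / 2) ^ (-(((5 : ℕ) : ℝ) + 1) / 2) = 1 / (a / 2) ^ 3 := by
    rw [show (-(((5 : ℕ) : ℝ) + 1) / 2) = -((3:ℕ):ℝ) by norm_num, Real.rpow_neg ha2.le, Real.rpow_natCast, one_div]
  rw [h1]
  simp only [Nat.factorial]
  field_simp
  norm_num

theorem gauss_seven {a : ℝ} (ha : 0 < a) :
    ∫ t : ℝ, |t| ^ 7 * Real.exp (-(a / 2) * t ^ 2) = 96 / a ^ 4 := by
  have ha2 : 0 < a / 2 := by positivity
  rw [integral_sq_gauss ha2]
  have h0 : (((7 : ℕ) : ℝ) + 1) / 2 = ((3 : ℕ) : ℝ) + 1 := by norm_num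
  rw [h0, Real.Gamma_nat_eq_factorial]
  have h1 : (a / 2) ^ (-(((7 : ℕ) : ℝ) + 1) / 2) = 1 / (a / 2) ^ 4 := by
    rw [show (-(((7 : ℕ) : ℝ) + 1) / 2) = -((4:ℕ):ℝ) by norm_num, Real.rpow_neg ha2.le, Real.rpow_natCast, one_div]
  rw [h1]
  simp only [Nat.factorial]
  field_simp
  norm_num

/-- **first moment on a segment**: the leading term is bounded by `3 √(2π) |K| a^(-5/2)`. -/
theorem laplace_segment_one {Λ K : ℂ} {c M3 M4 T : ℝ} {R : ℝ → ℂ} (ha : 0 < Λ.re) (hc : 0 < c) (hc1 : c ≤ 1)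
    (hT : 0 < T) (hM4 : 0 ≤ M4) (hR : Continuous R)
    (h4 : ∀ t : ℝ, |t| ≤ T → ‖R t - K * (t : ℂ) ^ 3‖ ≤ M4 * |t| ^ 4)
    (h3 : ∀ t : ℝ, |t| ≤ T → ‖R t‖ ≤ M3 * |t| ^ 3)
    (hre : ∀ t : ℝ, |t| ≤ T → (R t).re ≤ (1 - c) * Λ.re * t ^ 2 / 2) :
    ‖∫ t in (-T)..T, (t : ℂ) * cexp (-(Λ / 2) * (t : ℂ) ^ 2 + R t)‖ ≤
      3 * Real.sqrt (2 * Real.pi) * ‖K‖ / (Λ.re ^ 2 * Real.sqrt Λ.re) + 16 * M4 / Λ.re ^ 3 +
      48 * M3 ^ 2 / (c * Λ.re) ^ 4 := by
  obtain ⟨g, hg⟩ : ∃ g : ℝ → ℂ, g = fun t : ℝ => cexp (-(Λ / 2) * (t : ℂ) ^ 2) := ⟨_, rfl⟩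
  have hgc : Continuous g := by rw [hg]; fun_prop
  have hgn : ∀ t, ‖g t‖ = Real.exp (-(Λ.re / 2) * t ^ 2) := by intro t; rw [hg]; exact norm_g Λ t
  have hsplit : ∀ t : ℝ, (t : ℂ) * cexp (-(Λ / 2) * (t : ℂ) ^ 2 + R t) =
      (t : ℂ) * g t + g t * (K * (t : ℂ) ^ 4) + g t * ((t : ℂ) * (R t - K * (t : ℂ) ^ 3)) +
        g t * ((t : ℂ) * (cexp (R t) - 1 - R t)) := by
    intro t
    rw [Complex.exp_add, hg]
    ring
  have c1 : Continuous (fun t : ℝ => (t : ℂ) * g t) := by fun_prop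
  have c2 : Continuous (fun t : ℝ => g t * (K * (t : ℂ) ^ 4)) := by fun_prop
  have c3 : Continuous (fun t : ℝ => g t * ((t : ℂ) * (R t - K * (t : ℂ) ^ 3))) := by fun_prop
  have c4 : Continuous (fun t : ℝ => g t * ((t : ℂ) * (cexp (R t) - 1 - R t))) := by fun_prop
  have i1 : IntervalIntegrable (fun t : ℝ => (t : ℂ) * g t) volume (-T) T := c1.intervalIntegrable _ _
  have e1 : (∫ t in (-T)..T, (t : ℂ) * cexp (-(Λ / 2) * (t : ℂ) ^ 2 + R t)) =
      (∫ t in (-T)..T, (t : ℂ) * g t) + (∫ t in (-T)..T, g t * (K * (t : ℂ) ^ 4)) +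
      (∫ t in (-T)..T, g t * ((t : ℂ) * (R t - K * (t : ℂ) ^ 3))) +
        ∫ t in (-T)..T, g t * ((t : ℂ) * (cexp (R t) - 1 - R t)) := by
    rw [← intervalIntegral.integral_add i1 (c2.intervalIntegrable _ _),
      ← intervalIntegral.integral_add (i1.add (c2.intervalIntegrable _ _)) (c3.intervalIntegrable _ _),
      ← intervalIntegral.integral_add ((i1.add (c2.intervalIntegrable _ _)).add (c3.intervalIntegrable _ _))
        (c4.intervalIntegrable _ _)]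
    refine intervalIntegral.integral_congr (fun t _ => ?_)
    exact hsplit t
  have hodd : (∫ t in (-T)..T, (t : ℂ) * g t) = 0 := by
    have h := intervalIntegral.integral_comp_neg (a := -T) (b := T) (fun t : ℝ => (t : ℂ) * g t)
    rw [neg_neg] at h
    have h' : (∫ t in (-T)..T, ((-t : ℝ) : ℂ) * g (-t)) = -(∫ t in (-T)..T, (t : ℂ) * g t) := by
      rw [← intervalIntegral.integral_neg]
      refine intervalIntegral.integral_congr (fun t _ => ?_)
      simp only [hg]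
      push_cast
      rw [neg_sq]
      ring
    rw [h'] at h
    have h2 : (2:ℂ) * (∫ t in (-T)..T, (t : ℂ) * g t) = 0 := by
      linear_combination -h
    exact (mul_eq_zero.1 h2).resolve_left two_ne_zero
  have b2 : ‖∫ t in (-T)..T, g t * (K * (t : ℂ) ^ 4)‖ ≤
      ‖K‖ * ∫ t : ℝ, |t| ^ 4 * Real.exp (-(Λ.re / 2) * t ^ 2) := by
    refine seg_le hT (norm_nonneg _) (by positivity) c2 (fun t ht => ?_)
    rw [norm_mul, hgn, norm_mul, norm_pow, Complex.norm_real, Real.norm_eq_abs]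
    exact le_of_eq (by ring)
  have b3 : ‖∫ t in (-T)..T, g t * ((t : ℂ) * (R t - K * (t : ℂ) ^ 3))‖ ≤
      M4 * ∫ t : ℝ, |t| ^ 5 * Real.exp (-(Λ.re / 2) * t ^ 2) := by
    refine seg_le hT hM4 (by positivity) c3 (fun t ht => ?_)
    rw [norm_mul, hgn, norm_mul, Complex.norm_real, Real.norm_eq_abs]
    have := h4 t ht
    have h5 := Real.exp_pos (-(Λ.re / 2) * t ^ 2)
    calc _ ≤ Real.exp (-(Λ.re / 2) * t ^ 2) * (|t| * (M4 * |t| ^ 4)) :=
          mul_le_mul_of_nonneg_left (mul_le_mul_of_nonneg_left this (abs_nonneg t)) h5.le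
      _ = _ := by ring
  have b4 : ‖∫ t in (-T)..T, g t * ((t : ℂ) * (cexp (R t) - 1 - R t))‖ ≤
      (M3 ^ 2 / 2) * ∫ t : ℝ, |t| ^ 7 * Real.exp (-(c * Λ.re / 2) * t ^ 2) := by
    refine seg_le hT (by positivity) (by positivity) c4 (fun t ht => ?_)
    rw [norm_mul, hgn, norm_mul, Complex.norm_real, Real.norm_eq_abs]
    have h5 := norm_exp_sub_one_sub_le (R t) (M := Real.exp ((1 - c) * Λ.re * t ^ 2 / 2))
      (Real.one_le_exp (by have : 0 ≤ 1 - c := by linarith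
                           positivity)) (Real.exp_le_exp.2 (hre t ht))
    have h6 : ‖R t‖ ^ 2 ≤ (M3 * |t| ^ 3) ^ 2 := pow_le_pow_left₀ (norm_nonneg _) (h3 t ht) 2
    have h7 : Real.exp (-(Λ.re / 2) * t ^ 2) * Real.exp ((1 - c) * Λ.re * t ^ 2 / 2) =
        Real.exp (-(c * Λ.re / 2) * t ^ 2) := by
      rw [← Real.exp_add]; congr 1; ring
    have h8 := Real.exp_pos (-(Λ.re / 2) * t ^ 2)
    have h9 := Real.exp_pos ((1 - c) * Λ.re * t ^ 2 / 2)
    calc Real.exp (-(Λ.re / 2) * t ^ 2) * (|t| * ‖cexp (R t) - 1 - R t‖)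
        ≤ Real.exp (-(Λ.re / 2) * t ^ 2) * (|t| * (Real.exp ((1 - c) * Λ.re * t ^ 2 / 2) * (‖R t‖ ^ 2 / 2))) :=
          mul_le_mul_of_nonneg_left (mul_le_mul_of_nonneg_left h5 (abs_nonneg t)) h8.le
      _ = (Real.exp (-(Λ.re / 2) * t ^ 2) * Real.exp ((1 - c) * Λ.re * t ^ 2 / 2)) * (|t| * (‖R t‖ ^ 2 / 2)) := by ring
      _ ≤ (Real.exp (-(Λ.re / 2) * t ^ 2) * Real.exp ((1 - c) * Λ.re * t ^ 2 / 2)) *
          (|t| * ((M3 * |t| ^ 3) ^ 2 / 2)) := by
          gcongr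
      _ = _ := by rw [h7]; ring
  rw [gauss_four ha] at b2
  rw [gauss_five ha] at b3
  rw [gauss_seven (by positivity : 0 < c * Λ.re)] at b4
  rw [e1, hodd, zero_add]
  refine (norm_add₃_le).trans ?_
  refine add_le_add (add_le_add ?_ ?_) ?_
  · refine b2.trans (le_of_eq ?_)
    ring
  · refine b3.trans (le_of_eq ?_)
    ring
  · refine b4.trans (le_of_eq ?_)
    ring

/-- sharper Taylor remainder: `X^n |e^w - Σ_{k<n} w^k/k!| ≤ |w|^n (e^X - Σ_{k<n} X^k/k!)` for `re w ≤ X` -/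
theorem norm_exp_sub_sum_mul_le (w : ℂ) (n : ℕ) {X : ℝ} (hX0 : 0 ≤ X) (hX : w.re ≤ X) :
    ∀ s ∈ Icc (0:ℝ) 1, X ^ n * ‖cexp ((s : ℂ) * w) - ∑ k ∈ Finset.range n, ((s : ℂ) * w) ^ k / (k.factorial : ℂ)‖ ≤
      ‖w‖ ^ n * (Real.exp (s * X) - ∑ k ∈ Finset.range n, (s * X) ^ k / (k.factorial : ℝ)) := by
  induction n with
  | zero =>
    intro s hs
    simp only [Finset.range_zero, Finset.sum_empty, sub_zero, pow_zero, one_mul]
    rw [Complex.norm_exp, Complex.re_ofReal_mul]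
    exact Real.exp_le_exp.2 (mul_le_mul_of_nonneg_left hX hs.1)
  | succ n ih =>
    intro s hs
    have hder : ∀ t : ℝ, HasDerivAt (fun t : ℝ => (X : ℂ) ^ (n + 1) * (cexp ((t : ℂ) * w) -
        ∑ k ∈ Finset.range (n + 1), ((t : ℂ) * w) ^ k / (k.factorial : ℂ)))
        ((X : ℂ) ^ (n + 1) * (w * (cexp ((t : ℂ) * w) - ∑ k ∈ Finset.range n, ((t : ℂ) * w) ^ k / (k.factorial : ℂ)))) t := by
      intro t
      have h1 : HasDerivAt (fun t : ℝ => (t : ℂ) * w) (1 * w) t := (Complex.ofRealCLM.hasDerivAt (x := t)).mul_const w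
      have h2 := h1.cexp
      have h3 : HasDerivAt (fun t : ℝ => ∑ k ∈ Finset.range (n + 1), ((t : ℂ) * w) ^ k / (k.factorial : ℂ))
          (∑ k ∈ Finset.range (n + 1), ((k : ℂ) * ((t : ℂ) * w) ^ (k - 1) * (1 * w)) / (k.factorial : ℂ)) t := by
        refine HasDerivAt.fun_sum (fun k _ => ?_)
        exact (h1.pow k).div_const _
      refine ((h2.sub h3).const_mul ((X : ℂ) ^ (n + 1))).congr_deriv ?_
      congr 1
      rw [Finset.sum_range_succ', mul_sub, Finset.mul_sum]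
      simp only [Nat.cast_zero, zero_mul, zero_div, add_zero, one_mul]
      congr 1
      · ring
      · refine Finset.sum_congr rfl (fun k _ => ?_)
        rw [Nat.add_sub_cancel, Nat.factorial_succ, Nat.cast_mul]
        have h4 : ((k + 1 : ℕ) : ℂ) ≠ 0 := Nat.cast_ne_zero.2 (Nat.succ_ne_zero k)
        have h5 : (k.factorial : ℂ) ≠ 0 := Nat.cast_ne_zero.2 (Nat.factorial_ne_zero k)
        field_simp
    have hB : ∀ t : ℝ, HasDerivAt (fun t : ℝ => ‖w‖ ^ (n + 1) * (Real.exp (t * X) -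
        ∑ k ∈ Finset.range (n + 1), (t * X) ^ k / (k.factorial : ℝ)))
        (‖w‖ ^ (n + 1) * (X * (Real.exp (t * X) - ∑ k ∈ Finset.range n, (t * X) ^ k / (k.factorial : ℝ)))) t := by
      intro t
      have h1 : HasDerivAt (fun t : ℝ => t * X) (1 * X) t := (hasDerivAt_id t).mul_const _
      have h2 := h1.exp
      have h3 : HasDerivAt (fun t : ℝ => ∑ k ∈ Finset.range (n + 1), (t * X) ^ k / (k.factorial : ℝ))
          (∑ k ∈ Finset.range (n + 1), ((k : ℝ) * (t * X) ^ (k - 1) * (1 * X)) / (k.factorial : ℝ)) t := by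
        refine HasDerivAt.fun_sum (fun k _ => ?_)
        exact (h1.pow k).div_const _
      refine ((h2.sub h3).const_mul (‖w‖ ^ (n + 1))).congr_deriv ?_
      congr 1
      rw [Finset.sum_range_succ', mul_sub, Finset.mul_sum]
      simp only [Nat.cast_zero, zero_mul, zero_div, add_zero, one_mul]
      congr 1
      · ring
      · refine Finset.sum_congr rfl (fun k _ => ?_)
        rw [Nat.add_sub_cancel, Nat.factorial_succ, Nat.cast_mul]
        have h4 : ((k + 1 : ℕ) : ℝ) ≠ 0 := Nat.cast_ne_zero.2 (Nat.succ_ne_zero k)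
        have h5 : (k.factorial : ℝ) ≠ 0 := Nat.cast_ne_zero.2 (Nat.factorial_ne_zero k)
        field_simp
    have h := image_norm_le_of_norm_deriv_right_le_deriv_boundary (a := 0) (b := 1)
      (f := fun t : ℝ => (X : ℂ) ^ (n + 1) * (cexp ((t : ℂ) * w) - ∑ k ∈ Finset.range (n + 1), ((t : ℂ) * w) ^ k / (k.factorial : ℂ)))
      (B := fun t : ℝ => ‖w‖ ^ (n + 1) * (Real.exp (t * X) - ∑ k ∈ Finset.range (n + 1), (t * X) ^ k / (k.factorial : ℝ)))
      (fun t _ => (hder t).continuousAt.continuousWithinAt) (fun t _ => (hder t).hasDerivWithinAt)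
      (by
        simp only [Complex.ofReal_zero, zero_mul, Complex.exp_zero, Real.exp_zero]
        rw [Finset.sum_range_succ', Finset.sum_range_succ']
        simp)
      hB
      (by
        intro t ht
        rw [norm_mul, norm_mul, norm_pow, Complex.norm_real, Real.norm_eq_abs, abs_of_nonneg hX0]
        have h := ih t ⟨ht.1, ht.2.le⟩
        have h1 : 0 ≤ ‖w‖ * X := by positivity
        calc X ^ (n + 1) * (‖w‖ * ‖cexp ((t : ℂ) * w) - ∑ k ∈ Finset.range n, ((t : ℂ) * w) ^ k / (k.factorial : ℂ)‖)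
            = (‖w‖ * X) * (X ^ n * ‖cexp ((t : ℂ) * w) - ∑ k ∈ Finset.range n, ((t : ℂ) * w) ^ k / (k.factorial : ℂ)‖) := by ring
          _ ≤ (‖w‖ * X) * (‖w‖ ^ n * (Real.exp (t * X) - ∑ k ∈ Finset.range n, (t * X) ^ k / (k.factorial : ℝ))) :=
              mul_le_mul_of_nonneg_left h h1
          _ = _ := by ring)
    have h' := h hs
    rw [norm_mul, norm_pow, Complex.norm_real, Real.norm_eq_abs, abs_of_nonneg hX0] at h'
    exact h'

end Sok
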