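import Mathlib
import Pool.Agent.Lib.MP_816dec_an.A0Mom
import Pool.Agent.Lib.MP_816dec_an.Laplace

/-!
MP_816dec_an: closed forms of the weighted leg and line integrals.
-/

set_option autoImplicit false

open Complex Set Filter Topology MeasureTheory

namespace Sok

/-! ### legs -/

private theorem expw_int {δ A v : ℝ} (hδ : 0 < δ) (hA : 0 ≤ A) {y : ℝ} (hy : y ≤ v) :
    ∫ Y in y..v, (A + (v - Y)) * Real.exp (δ * (Y - v)) ≤ A / δ + 1 / δ ^ 2 := by
  have h1 : ∀ Y ∈ uIcc y v, HasDerivAt (fun Y : ℝ => Real.exp (δ * (Y - v)) * ((A + (v - Y)) / δ + 1 / δ ^ 2))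
      ((A + (v - Y)) * Real.exp (δ * (Y - v))) Y := by
    intro Y _
    have h2 : HasDerivAt (fun Y : ℝ => δ * (Y - v)) δ Y := by
      have := ((hasDerivAt_id Y).sub_const v).const_mul δ
      simpa using this
    have h3 : HasDerivAt (fun Y : ℝ => (A + (v - Y)) / δ + 1 / δ ^ 2) (-1 / δ) Y := by
      have := ((((hasDerivAt_id Y).const_sub v).const_add A).div_const δ).add_const (1 / δ ^ 2)
      simpa using this
    refine (h2.exp.mul h3).congr_deriv ?_
    field_simp
    ring
  rw [intervalIntegral.integral_eq_sub_of_hasDerivAt h1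
    ((by fun_prop : Continuous fun Y : ℝ => (A + (v - Y)) * Real.exp (δ * (Y - v))).intervalIntegrable _ _)]
  have h4 : 0 ≤ Real.exp (δ * (y - v)) * ((A + (v - y)) / δ + 1 / δ ^ 2) := by
    have : 0 ≤ v - y := by linarith
    positivity
  have e1 : Real.exp (δ * (v - v)) * ((A + (v - v)) / δ + 1 / δ ^ 2) = A / δ + 1 / δ ^ 2 := by
    simp
  linarith

/-- weighted leg, tangent at the top -/
theorem LegW_le_top {β r t S v A : ℝ} (hr : 0 ≤ r) (hc : Real.cos S ≤ 0) (hA : 0 ≤ A)
    (hδ : 0 < (S - t) / β - r * Real.cos S * Real.exp (-v)) {y : ℝ} (hy : y ≤ v) :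
    LegW β r t S y v A ≤ mg β r t S v * (A / ((S - t) / β - r * Real.cos S * Real.exp (-v)) +
      1 / ((S - t) / β - r * Real.cos S * Real.exp (-v)) ^ 2) := by
  obtain ⟨δ, hδd⟩ : ∃ δ : ℝ, δ = (S - t) / β - r * Real.cos S * Real.exp (-v) := ⟨_, rfl⟩
  rw [← hδd] at hδ ⊢
  have h1 : LegW β r t S y v A ≤ ∫ Y in y..v, mg β r t S v * ((A + (v - Y)) * Real.exp (δ * (Y - v))) := by
    unfold LegW
    refine intervalIntegral.integral_mono_on hy ?_ ?_ ?_
    · have := continuous_mg_Y β r t S
      exact (by fun_prop : Continuous fun Y : ℝ => (A + (v - Y)) * mg β r t S Y).intervalIntegrable _ _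
    · exact (by fun_prop : Continuous fun Y : ℝ => mg β r t S v * ((A + (v - Y)) *
        Real.exp (δ * (Y - v)))).intervalIntegrable _ _
    · intro Y hY
      have h2 := mg_tangent (β := β) (t := t) hr hc v Y
      rw [← hδd] at h2
      have h3 : 0 ≤ A + (v - Y) := by linarith [hY.2]
      calc (A + (v - Y)) * mg β r t S Y ≤ (A + (v - Y)) * (mg β r t S v * Real.exp (δ * (Y - v))) :=
            mul_le_mul_of_nonneg_left h2 h3
        _ = _ := by ring
  rw [intervalIntegral.integral_const_mul] at h1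
  exact h1.trans (mul_le_mul_of_nonneg_left (expw_int hδ hA hy) (mg_pos _ _ _ _ _).le)

/-- weighted leg when `S < t ≤ S + e κ` -/
theorem LegW_le_mid {β r t S v A : ℝ} (hβ : 0 < β) (hr : 0 < r) (hc : Real.cos S = -1) (ht : S < t)
    (ht' : t - S ≤ Real.exp 1 * (β * r)) (hv : -(4 / 3) ≤ v) (hA : 0 ≤ A) {y : ℝ} (hy : y ≤ v) :
    LegW β r t S y v A ≤ ((A + (v + 4 / 3)) / r + 1 / r ^ 2 + (A + (v + 4 / 3)) * (v + 4 / 3)) *
      Real.exp ((t - S) / β * (Real.log ((t - S) / (β * r)) - 1)) := by
  obtain ⟨M, hM⟩ : ∃ M : ℝ, M = Real.exp ((t - S) / β * (Real.log ((t - S) / (β * r)) - 1)) := ⟨_, rfl⟩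
  have hM0 : 0 < M := by rw [hM]; exact Real.exp_pos _
  have hmax : ∀ Y : ℝ, mg β r t S Y ≤ M := by
    intro Y; rw [hM]; exact mg_le_max hβ hr hc ht Y
  rw [← hM]
  have hc0 : Real.cos S ≤ 0 := by rw [hc]; norm_num
  have hcont : Continuous fun Y : ℝ => (A + (v - Y)) * mg β r t S Y := by
    have := continuous_mg_Y β r t S
    fun_prop
  have hv' : 0 ≤ v + 4 / 3 := by linarith
  -- the upper part
  have hup : ∀ z, -(4 / 3) ≤ z → z ≤ v → ∫ Y in z..v, (A + (v - Y)) * mg β r t S Y ≤
      (A + (v + 4 / 3)) * (v + 4 / 3) * M := by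
    intro z hz hzv
    have h1 : ∫ Y in z..v, (A + (v - Y)) * mg β r t S Y ≤ ∫ _Y in z..v, (A + (v + 4 / 3)) * M := by
      refine intervalIntegral.integral_mono_on hzv (hcont.intervalIntegrable _ _) (by simp) ?_
      intro Y hY
      exact mul_le_mul (by linarith [hY.1]) (hmax Y) (mg_pos _ _ _ _ _).le (by linarith)
    rw [intervalIntegral.integral_const, smul_eq_mul] at h1
    refine h1.trans ?_
    have h2 : 0 ≤ (A + (v + 4 / 3)) * M := by positivity
    nlinarith
  have he : Real.exp 1 + 1 ≤ Real.exp (-(-(4 / 3))) := by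
    have h1 : Real.exp 1 < 2.7182818286 := Real.exp_one_lt_d9
    have h2 : 3.79 ≤ Real.exp (-(-(4 / 3))) := by
      have h3 := Real.sum_le_exp_of_nonneg (x := 4 / 3) (by norm_num) 9
      have h4 : (-(-(4 / 3)) : ℝ) = 4 / 3 := by norm_num
      rw [h4]
      refine le_trans ?_ h3
      norm_num [Finset.sum_range_succ, Nat.factorial]
    linarith
  have hδ : r ≤ (S - t) / β - r * Real.cos S * Real.exp (-(-(4 / 3))) := by
    rw [hc]
    have h1 : (S - t) / β = -((t - S) / β) := by ring
    have h2 : (t - S) / β ≤ Real.exp 1 * r := by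
      rw [div_le_iff₀ hβ]; linarith
    rw [h1]
    nlinarith
  have hlow : ∀ z ≤ -(4 / 3 : ℝ), ∫ Y in z..(-(4 / 3)), (A + (v - Y)) * mg β r t S Y ≤
      ((A + (v + 4 / 3)) / r + 1 / r ^ 2) * M := by
    intro z hz
    have h1 := LegW_le_top (β := β) (t := t) (A := A + (v + 4 / 3)) (v := -(4 / 3)) hr.le hc0 (by linarith)
      (lt_of_lt_of_le hr hδ) hz
    unfold LegW at h1
    have e1 : ∀ Y : ℝ, (A + (v + 4 / 3) + (-(4 / 3) - Y)) = A + (v - Y) := fun Y => by ring
    simp only [e1] at h1
    refine h1.trans ?_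
    have h2 : (A + (v + 4 / 3)) / ((S - t) / β - r * Real.cos S * Real.exp (-(-(4 / 3)))) +
        1 / ((S - t) / β - r * Real.cos S * Real.exp (-(-(4 / 3)))) ^ 2 ≤
        (A + (v + 4 / 3)) / r + 1 / r ^ 2 := by
      have h3 : (A + (v + 4 / 3)) / ((S - t) / β - r * Real.cos S * Real.exp (-(-(4 / 3)))) ≤
          (A + (v + 4 / 3)) / r := div_le_div_of_nonneg_left (by linarith) hr hδ
      have h4 : 1 / ((S - t) / β - r * Real.cos S * Real.exp (-(-(4 / 3)))) ^ 2 ≤ 1 / r ^ 2 :=
        div_le_div_of_nonneg_left zero_le_one (by positivity) (pow_le_pow_left₀ hr.le hδ 2)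
      linarith
    rw [mul_comm _ M]
    refine mul_le_mul (hmax _) h2 ?_ hM0.le
    have h5 : 0 < (S - t) / β - r * Real.cos S * Real.exp (-(-(4 / 3))) := lt_of_lt_of_le hr hδ
    have h6 : 0 ≤ A + (v + 4 / 3) := by linarith
    positivity
  unfold LegW
  rcases le_total y (-(4 / 3)) with h | h
  · rw [← intervalIntegral.integral_add_adjacent_intervals (hcont.intervalIntegrable y (-(4 / 3)))
      (hcont.intervalIntegrable (-(4 / 3)) v)]
    have h1 := hlow y h
    have h2 := hup (-(4 / 3)) le_rfl hv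
    nlinarith
  · have h2 := hup y h hy
    refine h2.trans ?_
    have h3 : 0 ≤ ((A + (v + 4 / 3)) / r + 1 / r ^ 2) * M := by positivity
    nlinarith

/-! ### lines -/

private theorem bump_pt {β r v w X : ℝ} (hβ : 0 < β) (hr : 0 < r) (hw : -(Real.pi / 2) < w)
    (hw' : w < Real.pi / 2) (hvw : β * r * Real.sin w = v * Real.exp v) (h1 : -(Real.pi / 2) ≤ X)
    (h2 : X ≤ Real.pi / 2) : Real.exp (X * v / β + r * Real.cos X * Real.exp (-v)) ≤
      Real.exp (r * (Real.exp (-v) * Real.cos w + v * w / (β * r))) *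
        Real.exp (-(r * (Real.exp (-v) * Real.cos w) / 3) * (X - w) ^ 2) := by
  have hv : v / β = r * Real.exp (-v) * Real.sin w := by
    rw [div_eq_iff hβ.ne']
    have h1 : Real.exp (-v) * Real.exp v = 1 := by rw [← Real.exp_add]; simp
    calc v = v * (Real.exp (-v) * Real.exp v) := by rw [h1, mul_one]
      _ = (v * Real.exp v) * Real.exp (-v) := by ring
      _ = r * Real.exp (-v) * Real.sin w * β := by rw [← hvw]; ring
  rw [← Real.exp_add]
  apply Real.exp_le_exp.2
  have h3 := cos_par (s := X) hw.le hw'.le h1 h2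
  have h4 : r * Real.exp (-v) * Real.cos X ≤ r * Real.exp (-v) *
      (Real.cos w - (X - w) * Real.sin w - Real.cos w * (X - w) ^ 2 / 3) :=
    mul_le_mul_of_nonneg_left h3 (by positivity)
  have h5 : X * v / β = X * (r * Real.exp (-v) * Real.sin w) := by rw [← hv]; ring
  have h6 : r * (Real.exp (-v) * Real.cos w + v * w / (β * r)) =
      r * (Real.exp (-v) * Real.cos w) + w * (r * Real.exp (-v) * Real.sin w) := by
    rw [← hv]
    field_simp
  rw [h5, h6]
  nlinarith [h4]

/-- first moment of the middle part -/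
noncomputable def mid1 (β r v w : ℝ) : ℝ := 3 / (r * (Real.exp (-v) * Real.cos w)) *
  Real.exp (r * (Real.exp (-v) * Real.cos w + v * w / (β * r)))

theorem mid1_nonneg {β r v w : ℝ} (hr : 0 < r) (hw : -(Real.pi / 2) < w) (hw' : w < Real.pi / 2) :
    0 ≤ mid1 β r v w := by
  have hcw : 0 < Real.cos w := Real.cos_pos_of_mem_Ioo ⟨hw, hw'⟩
  unfold mid1
  positivity

private theorem mid1_int {β r v w : ℝ} (hβ : 0 < β) (hr : 0 < r) (hw : -(Real.pi / 2) < w) (hw' : w < Real.pi / 2)
    (hvw : β * r * Real.sin w = v * Real.exp v) :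
    ∫ X in (-(Real.pi / 2))..(Real.pi / 2), |X - w| * Real.exp (X * v / β + r * Real.cos X * Real.exp (-v)) ≤
      mid1 β r v w := by
  have hpi := Real.pi_pos
  have hcw : 0 < Real.cos w := Real.cos_pos_of_mem_Ioo ⟨hw, hw'⟩
  obtain ⟨b, hb⟩ : ∃ b : ℝ, b = r * (Real.exp (-v) * Real.cos w) / 3 := ⟨_, rfl⟩
  have hbpos : 0 < b := by rw [hb]; positivity
  obtain ⟨E, hE⟩ : ∃ E : ℝ, E = Real.exp (r * (Real.exp (-v) * Real.cos w + v * w / (β * r))) := ⟨_, rfl⟩
  have hE0 : 0 < E := by rw [hE]; exact Real.exp_pos _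
  have hi : Integrable (fun u : ℝ => |u| ^ 1 * Real.exp (-b * u ^ 2)) := integrable_abs_pow_gauss 1 hbpos
  have hval : ∫ u : ℝ, |u| ^ 1 * Real.exp (-b * u ^ 2) = 1 / b := by
    rw [integral_sq_gauss hbpos]
    have e1 : (((1 : ℕ) : ℝ) + 1) / 2 = 1 := by norm_num
    have e2 : -(((1 : ℕ) : ℝ) + 1) / 2 = -1 := by norm_num
    rw [e1, e2, Real.Gamma_one, Real.rpow_neg_one, mul_one, one_div]
  have hi' : Integrable (fun X : ℝ => |X - w| ^ 1 * Real.exp (-b * (X - w) ^ 2)) := hi.comp_sub_right w
  have h1 : ∫ X in (-(Real.pi / 2))..(Real.pi / 2), |X - w| * Real.exp (X * v / β + r * Real.cos X * Real.exp (-v)) ≤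
      ∫ X in (-(Real.pi / 2))..(Real.pi / 2), E * (|X - w| ^ 1 * Real.exp (-b * (X - w) ^ 2)) := by
    refine intervalIntegral.integral_mono_on (by linarith) ?_ (hi'.const_mul E).intervalIntegrable ?_
    · exact (by fun_prop : Continuous fun X : ℝ =>
        |X - w| * Real.exp (X * v / β + r * Real.cos X * Real.exp (-v))).intervalIntegrable _ _
    · intro X hX
      have h2 := bump_pt hβ hr hw hw' hvw hX.1 hX.2
      rw [← hE, ← hb] at h2
      rw [pow_one]
      calc |X - w| * Real.exp (X * v / β + r * Real.cos X * Real.exp (-v))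
          ≤ |X - w| * (E * Real.exp (-b * (X - w) ^ 2)) := mul_le_mul_of_nonneg_left h2 (abs_nonneg _)
        _ = _ := by ring
  refine h1.trans ?_
  rw [intervalIntegral.integral_const_mul, intervalIntegral.integral_of_le (by linarith)]
  have h3 : ∫ X in Ioc (-(Real.pi / 2)) (Real.pi / 2), |X - w| ^ 1 * Real.exp (-b * (X - w) ^ 2) ≤
      ∫ X : ℝ, |X - w| ^ 1 * Real.exp (-b * (X - w) ^ 2) :=
    setIntegral_le_integral hi' (Filter.Eventually.of_forall fun X => by positivity)
  have h5 : ∫ X : ℝ, |X - w| ^ 1 * Real.exp (-b * (X - w) ^ 2) = 1 / b := by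
    rw [← hval]
    exact integral_sub_right_eq_self (fun u : ℝ => |u| ^ 1 * Real.exp (-b * u ^ 2)) w
  rw [h5] at h3
  refine (mul_le_mul_of_nonneg_left h3 hE0.le).trans (le_of_eq ?_)
  unfold mid1
  rw [hE, hb]
  field_simp

/-- the weighted line integral over one period, `t = 0` -/
noncomputable def Hw (β r v w d : ℝ) : ℝ := ∫ X in (-Real.pi)..Real.pi,
  (|X - w| + d) * Real.exp (X * v / β + r * Real.cos X * Real.exp (-v))

/-- the closed form of the weighted line integral -/
noncomputable def HwB (β r v w d : ℝ) : ℝ :=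
  mid1 β r v w + d * midB β r v w + (Real.pi + |w| + d) * outB β r v

theorem Hw_le {β r v w d : ℝ} (hβ : 0 < β) (hr : 0 < r) (hw : -(Real.pi / 2) < w) (hw' : w < Real.pi / 2)
    (hvw : β * r * Real.sin w = v * Real.exp v) (hd : 0 ≤ d) : Hw β r v w d ≤ HwB β r v w d := by
  have hpi := Real.pi_pos
  obtain ⟨g, hg⟩ : ∃ g : ℝ → ℝ, g = fun X => Real.exp (X * v / β + r * Real.cos X * Real.exp (-v)) := ⟨_, rfl⟩
  have hgc : Continuous g := by rw [hg]; fun_prop
  have hg0 : ∀ X, 0 ≤ g X := fun X => by rw [hg]; exact (Real.exp_pos _).le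
  have hG : Continuous fun X : ℝ => (|X - w| + d) * g X := by fun_prop
  have hsplit : Hw β r v w d = (∫ X in (-Real.pi)..(-(Real.pi / 2)), (|X - w| + d) * g X) +
      (∫ X in (-(Real.pi / 2))..(Real.pi / 2), (|X - w| + d) * g X) +
      (∫ X in (Real.pi / 2)..Real.pi, (|X - w| + d) * g X) := by
    rw [intervalIntegral.integral_add_adjacent_intervals (hG.intervalIntegrable _ _) (hG.intervalIntegrable _ _),
      intervalIntegral.integral_add_adjacent_intervals (hG.intervalIntegrable _ _) (hG.intervalIntegrable _ _)]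
    rw [hg]
    rfl
  have hmid : ∫ X in (-(Real.pi / 2))..(Real.pi / 2), (|X - w| + d) * g X ≤
      mid1 β r v w + d * midB β r v w := by
    have h1 := mid1_int hβ hr hw hw' hvw
    have h2 := int_bump (t := 0) hβ hr hw hw' hvw
    have e1 : ∀ X : ℝ, EF β r 0 X v = g X := by
      intro X
      rw [hg]
      unfold EF
      rw [add_zero]
      congr 2
      ring
    simp only [e1, sub_zero] at h2
    have e2 : ∫ X in (-(Real.pi / 2))..(Real.pi / 2), (|X - w| + d) * g X =
        (∫ X in (-(Real.pi / 2))..(Real.pi / 2), |X - w| * g X) +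
        d * ∫ X in (-(Real.pi / 2))..(Real.pi / 2), g X := by
      rw [← intervalIntegral.integral_const_mul, ← intervalIntegral.integral_add]
      · congr 1
        funext X
        ring
      · exact (by fun_prop : Continuous fun X : ℝ => |X - w| * g X).intervalIntegrable _ _
      · exact (by fun_prop : Continuous fun X : ℝ => d * g X).intervalIntegrable _ _
    rw [e2]
    have h3 : d * ∫ X in (-(Real.pi / 2))..(Real.pi / 2), g X ≤ d * midB β r v w :=
      mul_le_mul_of_nonneg_left h2 hd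
    rw [hg] at h3 ⊢
    linarith
  have hout : (∫ X in (-Real.pi)..(-(Real.pi / 2)), (|X - w| + d) * g X) +
      (∫ X in (Real.pi / 2)..Real.pi, (|X - w| + d) * g X) ≤ (Real.pi + |w| + d) * outB β r v := by
    have h0 := out_int (v := v) hβ hr.le
    have hk : 0 ≤ Real.pi + |w| + d := by positivity
    have hpt : ∀ X : ℝ, |X| ≤ Real.pi → (|X - w| + d) * g X ≤ (Real.pi + |w| + d) * g X := by
      intro X hX
      apply mul_le_mul_of_nonneg_right _ (hg0 X)
      have := abs_sub X w
      linarith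
    have h1 : ∫ X in (-Real.pi)..(-(Real.pi / 2)), (|X - w| + d) * g X ≤
        (Real.pi + |w| + d) * ∫ X in (-Real.pi)..(-(Real.pi / 2)), g X := by
      rw [← intervalIntegral.integral_const_mul]
      refine intervalIntegral.integral_mono_on (by linarith) (hG.intervalIntegrable _ _)
        ((by fun_prop : Continuous fun X : ℝ => (Real.pi + |w| + d) * g X).intervalIntegrable _ _) ?_
      intro X hX
      exact hpt X (abs_le.2 ⟨hX.1, by linarith [hX.2]⟩)
    have h2 : ∫ X in (Real.pi / 2)..Real.pi, (|X - w| + d) * g X ≤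
        (Real.pi + |w| + d) * ∫ X in (Real.pi / 2)..Real.pi, g X := by
      rw [← intervalIntegral.integral_const_mul]
      refine intervalIntegral.integral_mono_on (by linarith) (hG.intervalIntegrable _ _)
        ((by fun_prop : Continuous fun X : ℝ => (Real.pi + |w| + d) * g X).intervalIntegrable _ _) ?_
      intro X hX
      exact hpt X (abs_le.2 ⟨by linarith [hX.1], hX.2⟩)
    have h3 : (∫ X in (-Real.pi)..(-(Real.pi / 2)), g X) + (∫ X in (Real.pi / 2)..Real.pi, g X) ≤ outB β r v := by
      rw [hg]; exact h0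
    nlinarith
  rw [hsplit]
  unfold HwB
  linarith

theorem HwB_nonneg {β r v w d : ℝ} (hr : 0 < r) (hw : -(Real.pi / 2) < w) (hw' : w < Real.pi / 2)
    (hd : 0 ≤ d) : 0 ≤ HwB β r v w d := by
  have h1 := mid1_nonneg (β := β) (v := v) hr hw hw'
  have h2 := midB_nonneg β r v w
  have h3 := outB_nonneg β r v
  have hpi := Real.pi_pos
  unfold HwB
  positivity

theorem HorW_full (β r t v w d : ℝ) :
    HorW β r t (-Real.pi) Real.pi v w d = Real.exp (-(t * v / β)) * Hw β r v w d := by
  unfold HorW Hw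
  rw [← intervalIntegral.integral_const_mul]
  congr 1
  funext X
  unfold mg
  rw [mul_left_comm, ← Real.exp_add]
  congr 2
  ring

private theorem mg_shift' (β r t X v : ℝ) :
    mg β r t (X - 2 * Real.pi) v = Real.exp (-(2 * Real.pi * v / β)) * mg β r t X v := by
  unfold mg
  rw [Real.cos_sub_two_pi, ← Real.exp_add]
  congr 1
  ring

private theorem mg_shift'' (β r t X v : ℝ) :
    mg β r t (X + 2 * Real.pi) v = Real.exp (2 * Real.pi * v / β) * mg β r t X v := by
  unfold mg
  rw [Real.cos_add_two_pi, ← Real.exp_add]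
  congr 1
  ring

private theorem HorW_cont (β r t v w d : ℝ) : Continuous fun X : ℝ => (|X - w| + d) * mg β r t X v := by
  have := continuous_mg_X β r t v
  fun_prop

private theorem Hor_le_HorL {β r t v : ℝ} (hβ : 0 < β) (hr : 0 ≤ r) (hv : 0 < v) {a : ℝ} (ha : a ≤ Real.pi) :
    Hor β r t a Real.pi v ≤ HorL β r t Real.pi v := by
  have h := (gs_int_left (t := t) hβ hr hv Real.pi).norm
  simp only [norm_gs_mg] at h
  have hi : IntegrableOn (fun X : ℝ => mg β r t X v) (Iic Real.pi) := h
  have h2 := intervalIntegral.integral_Iic_sub_Iic (hi.mono_set (Iic_subset_Iic.2 ha)) hi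
  have h3 := HorL_nonneg β r t a v
  unfold Hor HorL at *
  linarith

private theorem Hor_le_HorR {β r t v : ℝ} (hβ : 0 < β) (hr : 0 ≤ r) (hv : v < 0) {b : ℝ} (hb : -Real.pi ≤ b) :
    Hor β r t (-Real.pi) b v ≤ HorR β r t (-Real.pi) v := by
  have h := (gs_int_right (t := t) hβ hr hv (-Real.pi)).norm
  simp only [norm_gs_mg] at h
  have hi : IntegrableOn (fun X : ℝ => mg β r t X v) (Ioi (-Real.pi)) := h
  have h2 := intervalIntegral.integral_Ioi_sub_Ioi hi hb
  have h3 := HorR_nonneg β r t b v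
  unfold Hor HorR at *
  linarith

/-- weighted left ray -/
theorem HorW_left_le {β r t v w d : ℝ} (hβ : 0 < β) (hr : 0 < r) (hv : 0 < v) (hw : -(Real.pi / 2) < w)
    (hw' : w < Real.pi / 2) (hvw : β * r * Real.sin w = v * Real.exp v) (hd : 0 ≤ d) (a : ℝ) :
    HorW β r t a Real.pi v w d ≤ Real.exp (-(t * v / β)) *
      (HwB β r v w d / (1 - Real.exp (-(2 * Real.pi * v / β))) +
        2 * Real.pi * Real.exp (-(2 * Real.pi * v / β)) * (midB β r v w + outB β r v) /
          (1 - Real.exp (-(2 * Real.pi * v / β))) ^ 2) := by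
  have hpi := Real.pi_pos
  obtain ⟨q, hq⟩ : ∃ q : ℝ, q = Real.exp (-(2 * Real.pi * v / β)) := ⟨_, rfl⟩
  have hq0 : 0 < q := by rw [hq]; exact Real.exp_pos _
  have hq1 : q < 1 := by
    rw [hq]
    refine Real.exp_lt_one_iff.2 ?_
    have : 0 < 2 * Real.pi * v / β := by positivity
    linarith
  obtain ⟨e, he⟩ : ∃ e : ℝ, e = Real.exp (-(t * v / β)) := ⟨_, rfl⟩
  have he0 : 0 < e := by rw [he]; exact Real.exp_pos _
  obtain ⟨G, hG⟩ : ∃ G : ℝ, G = e * (midB β r v w + outB β r v) / (1 - q) := ⟨_, rfl⟩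
  have hGb : ∀ a ≤ Real.pi, Hor β r t a Real.pi v ≤ G := by
    intro a ha
    refine (Hor_le_HorL hβ hr.le hv ha).trans ?_
    rw [HorL_full hβ hr.le hv, hG, ← hq, ← he]
    apply div_le_div_of_nonneg_right _ (by linarith)
    exact mul_le_mul_of_nonneg_left (Hm_le hβ hr hw hw' hvw) he0.le
  obtain ⟨J, hJ⟩ : ∃ J : ℝ, J = (e * HwB β r v w d + 2 * Real.pi * q * G) / (1 - q) := ⟨_, rfl⟩
  have hHB := HwB_nonneg (β := β) (v := v) hr hw hw' hd
  have hG0 : 0 ≤ G := by
    have := hGb Real.pi le_rfl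
    unfold Hor at this
    rw [intervalIntegral.integral_same] at this
    exact this
  have hJ0 : 0 ≤ J := by
    rw [hJ]
    apply div_nonneg _ (by linarith)
    positivity
  have hJe : J = e * HwB β r v w d + q * (J + 2 * Real.pi * G) := by
    rw [hJ]
    have : 1 - q ≠ 0 := by linarith
    field_simp
    ring
  have hind : ∀ n : ℕ, HorW β r t (Real.pi - 2 * Real.pi * n) Real.pi v w d ≤ J := by
    intro n
    induction n with
    | zero =>
      unfold HorW
      simpa using hJ0
    | succ n ih =>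
      have hc := HorW_cont β r t v w d
      have e1 : HorW β r t (Real.pi - 2 * Real.pi * ((n + 1 : ℕ) : ℝ)) Real.pi v w d =
          HorW β r t (Real.pi - 2 * Real.pi * ((n + 1 : ℕ) : ℝ)) (-Real.pi) v w d +
          HorW β r t (-Real.pi) Real.pi v w d := by
        unfold HorW
        rw [intervalIntegral.integral_add_adjacent_intervals (hc.intervalIntegrable _ _) (hc.intervalIntegrable _ _)]
      have hle : Real.pi - 2 * Real.pi * n ≤ Real.pi := by
        have : (0 : ℝ) ≤ n := Nat.cast_nonneg n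
        nlinarith
      have e2 : HorW β r t (Real.pi - 2 * Real.pi * ((n + 1 : ℕ) : ℝ)) (-Real.pi) v w d ≤
          q * (HorW β r t (Real.pi - 2 * Real.pi * n) Real.pi v w d +
            2 * Real.pi * Hor β r t (Real.pi - 2 * Real.pi * n) Real.pi v) := by
        have f1 : HorW β r t (Real.pi - 2 * Real.pi * ((n + 1 : ℕ) : ℝ)) (-Real.pi) v w d =
            ∫ X in (Real.pi - 2 * Real.pi * n)..Real.pi,
              (|X - 2 * Real.pi - w| + d) * mg β r t (X - 2 * Real.pi) v := by
          unfold HorW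
          rw [intervalIntegral.integral_comp_sub_right (fun X : ℝ => (|X - w| + d) * mg β r t X v)]
          congr 1
          · push_cast; ring
          · ring
        have f2 : q * (HorW β r t (Real.pi - 2 * Real.pi * n) Real.pi v w d +
            2 * Real.pi * Hor β r t (Real.pi - 2 * Real.pi * n) Real.pi v) =
            ∫ X in (Real.pi - 2 * Real.pi * n)..Real.pi, q * ((|X - w| + d + 2 * Real.pi) * mg β r t X v) := by
          unfold HorW Hor
          rw [← intervalIntegral.integral_const_mul (2 * Real.pi), ← intervalIntegral.integral_add,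
            ← intervalIntegral.integral_const_mul q]
          · congr 1
            funext X
            ring
          · exact hc.intervalIntegrable _ _
          · have := continuous_mg_X β r t v
            exact (by fun_prop : Continuous fun X : ℝ => 2 * Real.pi * mg β r t X v).intervalIntegrable _ _
        rw [f1, f2]
        have hm := continuous_mg_X β r t v
        refine intervalIntegral.integral_mono_on hle ?_ ?_ ?_
        · exact (by fun_prop : Continuous fun X : ℝ =>
            (|X - 2 * Real.pi - w| + d) * mg β r t (X - 2 * Real.pi) v).intervalIntegrable _ _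
        · exact (by fun_prop : Continuous fun X : ℝ =>
            q * ((|X - w| + d + 2 * Real.pi) * mg β r t X v)).intervalIntegrable _ _
        · intro X _
          rw [mg_shift', ← hq]
          have h1 : |X - 2 * Real.pi - w| ≤ |X - w| + 2 * Real.pi := by
            have h2 := abs_sub (X - w) (2 * Real.pi)
            rw [abs_of_pos (by positivity : (0:ℝ) < 2 * Real.pi)] at h2
            have h3 : X - w - 2 * Real.pi = X - 2 * Real.pi - w := by ring
            rwa [h3] at h2
          have h4 : 0 ≤ q * mg β r t X v := mul_nonneg hq0.le (mg_pos _ _ _ _ _).le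
          nlinarith
      have e3 : HorW β r t (-Real.pi) Real.pi v w d ≤ e * HwB β r v w d := by
        rw [HorW_full, ← he]
        exact mul_le_mul_of_nonneg_left (Hw_le hβ hr hw hw' hvw hd) he0.le
      have e4 := hGb _ hle
      rw [e1]
      rw [hJe]
      have e5 : q * (HorW β r t (Real.pi - 2 * Real.pi * n) Real.pi v w d +
            2 * Real.pi * Hor β r t (Real.pi - 2 * Real.pi * n) Real.pi v) ≤ q * (J + 2 * Real.pi * G) := by
        apply mul_le_mul_of_nonneg_left _ hq0.le
        have : 2 * Real.pi * Hor β r t (Real.pi - 2 * Real.pi * n) Real.pi v ≤ 2 * Real.pi * G :=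
          mul_le_mul_of_nonneg_left e4 (by positivity)
        linarith
      linarith
  obtain ⟨n, hn⟩ := exists_nat_ge ((Real.pi - a) / (2 * Real.pi))
  have hna : Real.pi - 2 * Real.pi * n ≤ a := by
    rw [div_le_iff₀ (by positivity)] at hn
    linarith
  have hmono : HorW β r t a Real.pi v w d ≤ HorW β r t (Real.pi - 2 * Real.pi * n) Real.pi v w d := by
    have hc := HorW_cont β r t v w d
    have e1 : HorW β r t (Real.pi - 2 * Real.pi * n) Real.pi v w d =
        HorW β r t (Real.pi - 2 * Real.pi * n) a v w d + HorW β r t a Real.pi v w d := by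
      unfold HorW
      rw [intervalIntegral.integral_add_adjacent_intervals (hc.intervalIntegrable _ _) (hc.intervalIntegrable _ _)]
    have e2 : 0 ≤ HorW β r t (Real.pi - 2 * Real.pi * n) a v w d := by
      unfold HorW
      refine intervalIntegral.integral_nonneg hna (fun X _ => ?_)
      have := (mg_pos β r t X v).le
      positivity
    linarith
  refine (hmono.trans (hind n)).trans (le_of_eq ?_)
  rw [hJ, hG, ← hq, ← he]
  have : 1 - q ≠ 0 := by linarith
  field_simp

/-- weighted right ray -/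
theorem HorW_right_le {β r t v w d : ℝ} (hβ : 0 < β) (hr : 0 < r) (hv : v < 0) (hw : -(Real.pi / 2) < w)
    (hw' : w < Real.pi / 2) (hvw : β * r * Real.sin w = v * Real.exp v) (hd : 0 ≤ d) (b : ℝ) :
    HorW β r t (-Real.pi) b v w d ≤ Real.exp (-(t * v / β)) *
      (HwB β r v w d / (1 - Real.exp (2 * Real.pi * v / β)) +
        2 * Real.pi * Real.exp (2 * Real.pi * v / β) * (midB β r v w + outB β r v) /
          (1 - Real.exp (2 * Real.pi * v / β)) ^ 2) := by
  have hpi := Real.pi_pos
  obtain ⟨q, hq⟩ : ∃ q : ℝ, q = Real.exp (2 * Real.pi * v / β) := ⟨_, rfl⟩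
  have hq0 : 0 < q := by rw [hq]; exact Real.exp_pos _
  have hq1 : q < 1 := by
    rw [hq]
    refine Real.exp_lt_one_iff.2 ?_
    exact div_neg_of_neg_of_pos (mul_neg_of_pos_of_neg (by positivity) hv) hβ
  obtain ⟨e, he⟩ : ∃ e : ℝ, e = Real.exp (-(t * v / β)) := ⟨_, rfl⟩
  have he0 : 0 < e := by rw [he]; exact Real.exp_pos _
  obtain ⟨G, hG⟩ : ∃ G : ℝ, G = e * (midB β r v w + outB β r v) / (1 - q) := ⟨_, rfl⟩
  have hGb : ∀ b, -Real.pi ≤ b → Hor β r t (-Real.pi) b v ≤ G := by
    intro b hb
    refine (Hor_le_HorR hβ hr.le hv hb).trans ?_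
    rw [HorR_full hβ hr.le hv, hG, ← hq, ← he]
    apply div_le_div_of_nonneg_right _ (by linarith)
    exact mul_le_mul_of_nonneg_left (Hm_le hβ hr hw hw' hvw) he0.le
  obtain ⟨J, hJ⟩ : ∃ J : ℝ, J = (e * HwB β r v w d + 2 * Real.pi * q * G) / (1 - q) := ⟨_, rfl⟩
  have hHB := HwB_nonneg (β := β) (v := v) hr hw hw' hd
  have hG0 : 0 ≤ G := by
    have := hGb (-Real.pi) le_rfl
    unfold Hor at this
    rw [intervalIntegral.integral_same] at this
    exact this
  have hJ0 : 0 ≤ J := by
    rw [hJ]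
    apply div_nonneg _ (by linarith)
    positivity
  have hJe : J = e * HwB β r v w d + q * (J + 2 * Real.pi * G) := by
    rw [hJ]
    have : 1 - q ≠ 0 := by linarith
    field_simp
    ring
  have hind : ∀ n : ℕ, HorW β r t (-Real.pi) (-Real.pi + 2 * Real.pi * n) v w d ≤ J := by
    intro n
    induction n with
    | zero =>
      unfold HorW
      simpa using hJ0
    | succ n ih =>
      have hc := HorW_cont β r t v w d
      have e1 : HorW β r t (-Real.pi) (-Real.pi + 2 * Real.pi * ((n + 1 : ℕ) : ℝ)) v w d =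
          HorW β r t (-Real.pi) Real.pi v w d +
          HorW β r t Real.pi (-Real.pi + 2 * Real.pi * ((n + 1 : ℕ) : ℝ)) v w d := by
        unfold HorW
        rw [intervalIntegral.integral_add_adjacent_intervals (hc.intervalIntegrable _ _) (hc.intervalIntegrable _ _)]
      have hle : -Real.pi ≤ -Real.pi + 2 * Real.pi * n := by
        have : (0 : ℝ) ≤ n := Nat.cast_nonneg n
        nlinarith
      have e2 : HorW β r t Real.pi (-Real.pi + 2 * Real.pi * ((n + 1 : ℕ) : ℝ)) v w d ≤
          q * (HorW β r t (-Real.pi) (-Real.pi + 2 * Real.pi * n) v w d +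
            2 * Real.pi * Hor β r t (-Real.pi) (-Real.pi + 2 * Real.pi * n) v) := by
        have f1 : HorW β r t Real.pi (-Real.pi + 2 * Real.pi * ((n + 1 : ℕ) : ℝ)) v w d =
            ∫ X in (-Real.pi)..(-Real.pi + 2 * Real.pi * n),
              (|X + 2 * Real.pi - w| + d) * mg β r t (X + 2 * Real.pi) v := by
          unfold HorW
          rw [intervalIntegral.integral_comp_add_right (fun X : ℝ => (|X - w| + d) * mg β r t X v)]
          congr 1
          · ring
          · push_cast; ring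
        have f2 : q * (HorW β r t (-Real.pi) (-Real.pi + 2 * Real.pi * n) v w d +
            2 * Real.pi * Hor β r t (-Real.pi) (-Real.pi + 2 * Real.pi * n) v) =
            ∫ X in (-Real.pi)..(-Real.pi + 2 * Real.pi * n), q * ((|X - w| + d + 2 * Real.pi) * mg β r t X v) := by
          unfold HorW Hor
          rw [← intervalIntegral.integral_const_mul (2 * Real.pi), ← intervalIntegral.integral_add,
            ← intervalIntegral.integral_const_mul q]
          · congr 1
            funext X
            ring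
          · exact hc.intervalIntegrable _ _
          · have := continuous_mg_X β r t v
            exact (by fun_prop : Continuous fun X : ℝ => 2 * Real.pi * mg β r t X v).intervalIntegrable _ _
        rw [f1, f2]
        have hm := continuous_mg_X β r t v
        refine intervalIntegral.integral_mono_on hle ?_ ?_ ?_
        · exact (by fun_prop : Continuous fun X : ℝ =>
            (|X + 2 * Real.pi - w| + d) * mg β r t (X + 2 * Real.pi) v).intervalIntegrable _ _
        · exact (by fun_prop : Continuous fun X : ℝ =>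
            q * ((|X - w| + d + 2 * Real.pi) * mg β r t X v)).intervalIntegrable _ _
        · intro X _
          rw [mg_shift'', ← hq]
          have h1 : |X + 2 * Real.pi - w| ≤ |X - w| + 2 * Real.pi := by
            have h2 := abs_add_le (X - w) (2 * Real.pi)
            rw [abs_of_pos (by positivity : (0:ℝ) < 2 * Real.pi)] at h2
            have h3 : X - w + 2 * Real.pi = X + 2 * Real.pi - w := by ring
            rwa [h3] at h2
          have h4 : 0 ≤ q * mg β r t X v := mul_nonneg hq0.le (mg_pos _ _ _ _ _).le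
          nlinarith
      have e3 : HorW β r t (-Real.pi) Real.pi v w d ≤ e * HwB β r v w d := by
        rw [HorW_full, ← he]
        exact mul_le_mul_of_nonneg_left (Hw_le hβ hr hw hw' hvw hd) he0.le
      have e4 := hGb _ hle
      rw [e1]
      rw [hJe]
      have e5 : q * (HorW β r t (-Real.pi) (-Real.pi + 2 * Real.pi * n) v w d +
            2 * Real.pi * Hor β r t (-Real.pi) (-Real.pi + 2 * Real.pi * n) v) ≤ q * (J + 2 * Real.pi * G) := by
        apply mul_le_mul_of_nonneg_left _ hq0.le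
        have : 2 * Real.pi * Hor β r t (-Real.pi) (-Real.pi + 2 * Real.pi * n) v ≤ 2 * Real.pi * G :=
          mul_le_mul_of_nonneg_left e4 (by positivity)
        linarith
      linarith
  obtain ⟨n, hn⟩ := exists_nat_ge ((b + Real.pi) / (2 * Real.pi))
  have hna : b ≤ -Real.pi + 2 * Real.pi * n := by
    rw [div_le_iff₀ (by positivity)] at hn
    linarith
  have hmono : HorW β r t (-Real.pi) b v w d ≤ HorW β r t (-Real.pi) (-Real.pi + 2 * Real.pi * n) v w d := by
    have hc := HorW_cont β r t v w d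
    have e1 : HorW β r t (-Real.pi) (-Real.pi + 2 * Real.pi * n) v w d =
        HorW β r t (-Real.pi) b v w d + HorW β r t b (-Real.pi + 2 * Real.pi * n) v w d := by
      unfold HorW
      rw [intervalIntegral.integral_add_adjacent_intervals (hc.intervalIntegrable _ _) (hc.intervalIntegrable _ _)]
    have e2 : 0 ≤ HorW β r t b (-Real.pi + 2 * Real.pi * n) v w d := by
      unfold HorW
      refine intervalIntegral.integral_nonneg hna (fun X _ => ?_)
      have := (mg_pos β r t X v).le
      positivity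
    linarith
  refine (hmono.trans (hind n)).trans (le_of_eq ?_)
  rw [hJ, hG, ← hq, ← he]
  have : 1 - q ≠ 0 := by linarith
  field_simp


/-! ### final forms, legs still as hypotheses -/

/-- first moment of `A`, any height -/
theorem norm_AA_momB {β r t : ℝ} (hβ : 0 < β) (hr : 0 < r) (L : ℂ) {v w d B₀ B₁ : ℝ} (hw : -(Real.pi / 2) < w)
    (hw' : w < Real.pi / 2) (hvw : β * r * Real.sin w = v * Real.exp v)
    (hd : |w - t - L.re| + |v - L.im| ≤ d)
    (h0 : ∀ y ≤ v, LegW β r t Real.pi y v (|Real.pi - w| + d) ≤ B₀)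
    (h1 : ∀ y ≤ v, LegW β r t (-Real.pi) y v (|-Real.pi - w| + d) ≤ B₁) :
    ‖ew β r t * AA β r (t + β) - L / β * AA β r t‖ ≤ (Real.sqrt (2 * Real.pi * β))⁻¹ *
      (β⁻¹ * (Real.exp (-(t * v / β)) * HwB β r v w d + B₀ + B₁)) := by
  have hd0 : 0 ≤ d := le_trans (by positivity) hd
  refine (norm_AA_mom hβ hr L v w hd h0 h1).trans ?_
  have h2 : HorW β r t (-Real.pi) Real.pi v w d ≤ Real.exp (-(t * v / β)) * HwB β r v w d := by
    rw [HorW_full]
    exact mul_le_mul_of_nonneg_left (Hw_le hβ hr hw hw' hvw hd0) (Real.exp_pos _).le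
  have h3 : 0 ≤ β⁻¹ := inv_nonneg.2 hβ.le
  apply mul_le_mul_of_nonneg_left _ (by positivity)
  apply mul_le_mul_of_nonneg_left _ h3
  linarith

/-- first moment of `C`, height `v > 0` -/
theorem norm_CC_momB {β r t : ℝ} (hβ : 0 < β) (hr : 0 < r) (L : ℂ) {v w d B₀ : ℝ} (hv : 0 < v)
    (hw : -(Real.pi / 2) < w) (hw' : w < Real.pi / 2) (hvw : β * r * Real.sin w = v * Real.exp v)
    (hd : |w - t - L.re| + |v - L.im| ≤ d)
    (h0 : ∀ y ≤ v, LegW β r t Real.pi y v (|Real.pi - w| + d) ≤ B₀) :
    ‖ew β r t * CC β r (t + β) - L / β * CC β r t‖ ≤ (Real.sqrt (2 * Real.pi * β))⁻¹ *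
      (β⁻¹ * (Real.exp (-(t * v / β)) * (HwB β r v w d / (1 - Real.exp (-(2 * Real.pi * v / β))) +
        2 * Real.pi * Real.exp (-(2 * Real.pi * v / β)) * (midB β r v w + outB β r v) /
          (1 - Real.exp (-(2 * Real.pi * v / β))) ^ 2) + B₀)) := by
  have hd0 : 0 ≤ d := le_trans (by positivity) hd
  exact norm_CC_mom hβ hr L hv w hd h0 (fun a _ => HorW_left_le hβ hr hv hw hw' hvw hd0 a)

/-- first moment of `R`, height `v < 0` -/
theorem norm_RR_momB {β r t : ℝ} (hβ : 0 < β) (hr : 0 < r) (L : ℂ) {v w d B₁ : ℝ} (hv : v < 0)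
    (hw : -(Real.pi / 2) < w) (hw' : w < Real.pi / 2) (hvw : β * r * Real.sin w = v * Real.exp v)
    (hd : |w - t - L.re| + |v - L.im| ≤ d)
    (h1 : ∀ y ≤ v, LegW β r t (-Real.pi) y v (|-Real.pi - w| + d) ≤ B₁) :
    ‖ew β r t * RR β r (t + β) - L / β * RR β r t‖ ≤ (Real.sqrt (2 * Real.pi * β))⁻¹ *
      (β⁻¹ * (Real.exp (-(t * v / β)) * (HwB β r v w d / (1 - Real.exp (2 * Real.pi * v / β)) +
        2 * Real.pi * Real.exp (2 * Real.pi * v / β) * (midB β r v w + outB β r v) /
          (1 - Real.exp (2 * Real.pi * v / β)) ^ 2) + B₁)) := by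
  have hd0 : 0 ≤ d := le_trans (by positivity) hd
  exact norm_RR_mom hβ hr L hv w hd h1 (fun b _ => HorW_right_le hβ hr hv hw hw' hvw hd0 b)

/-- weighted leg at `π`, with the same dependence on `t` as the line -/
theorem LegW_pi_le {β r t v A : ℝ} (hr : 0 ≤ r) (hA : 0 ≤ A)
    (hδ : 0 < (Real.pi - t) / β + r * Real.exp (-v)) {y : ℝ} (hy : y ≤ v) :
    LegW β r t Real.pi y v A ≤ Real.exp (-(t * v / β)) * (Real.exp (Real.pi * v / β - r * Real.exp (-v)) *
      (A / ((Real.pi - t) / β + r * Real.exp (-v)) + 1 / ((Real.pi - t) / β + r * Real.exp (-v)) ^ 2)) := by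
  have h := LegW_le_top (β := β) (r := r) (t := t) (S := Real.pi) (v := v) (A := A) hr
    (by rw [Real.cos_pi]; norm_num) hA (by rw [Real.cos_pi]; linarith) hy
  rw [Real.cos_pi] at h
  have e1 : (Real.pi - t) / β - r * -1 * Real.exp (-v) = (Real.pi - t) / β + r * Real.exp (-v) := by ring
  rw [e1] at h
  refine h.trans (le_of_eq ?_)
  rw [← mul_assoc, ← Real.exp_add]
  unfold mg
  rw [Real.cos_pi]
  congr 2
  ring

/-- weighted leg at `-π`, with the same dependence on `t` as the line -/
theorem LegW_neg_pi_le {β r t v A : ℝ} (hr : 0 ≤ r) (hA : 0 ≤ A)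
    (hδ : 0 < (-Real.pi - t) / β + r * Real.exp (-v)) {y : ℝ} (hy : y ≤ v) :
    LegW β r t (-Real.pi) y v A ≤ Real.exp (-(t * v / β)) *
      (Real.exp (-(Real.pi * v / β) - r * Real.exp (-v)) *
      (A / ((-Real.pi - t) / β + r * Real.exp (-v)) + 1 / ((-Real.pi - t) / β + r * Real.exp (-v)) ^ 2)) := by
  have h := LegW_le_top (β := β) (r := r) (t := t) (S := -Real.pi) (v := v) (A := A) hr
    (by rw [Real.cos_neg, Real.cos_pi]; norm_num) hA (by rw [Real.cos_neg, Real.cos_pi]; linarith) hy
  rw [Real.cos_neg, Real.cos_pi] at h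
  have e1 : (-Real.pi - t) / β - r * -1 * Real.exp (-v) = (-Real.pi - t) / β + r * Real.exp (-v) := by ring
  rw [e1] at h
  refine h.trans (le_of_eq ?_)
  rw [← mul_assoc, ← Real.exp_add]
  unfold mg
  rw [Real.cos_neg, Real.cos_pi]
  congr 2
  ring

/-- `RR` is `Rw` -/
theorem Rw_eq_RR (β : ℝ) (w : ℂ) : Rw β w = RR β (Real.exp w.re) (w.im - β / 2) := Rw_eq β w

/-- `ew` is `e^w` -/
theorem ew_eq (β : ℝ) (w : ℂ) : ew β (Real.exp w.re) (w.im - β / 2) = cexp w := by
  unfold ew
  conv_rhs => rw [← Complex.re_add_im w]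
  rw [Complex.exp_add, Complex.ofReal_exp]
  congr 2
  push_cast
  ring

end Sok
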