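import Mathlib
import Pool.Agent.Lib.MP_816dec_an.A0MomB

/-!
MP_816dec_an (R2, N2): the slope of a window at its saddle from the exact second-moment identity
`(1 - iσ) (A' - (σ/β) A) = (σ/β) ∫ (e^{iu} - 1 - iu) g`, `u = s - t - σ`.
-/

set_option autoImplicit false

open Complex Set Filter Topology MeasureTheory

namespace Sok

/-- the second-order weight -/
noncomputable def mqA (u : ℂ) : ℂ := cexp (I * u) - 1 - I * u

/-- the second-order integrand -/
noncomputable def hqA (β r t : ℝ) (σ s : ℂ) : ℂ := mqA (s - t - σ) * gs β r t s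

theorem hqA_diff (β r t : ℝ) (σ : ℂ) : Differentiable ℂ (hqA β r t σ) := by
  have := gs_diff β r t
  unfold hqA mqA
  fun_prop

private theorem inV0 (t : ℝ) : InV t 0 Real.pi := by
  have := inV_center t 0
  simpa using this

private theorem inVm (t : ℝ) : InV t (-1) (-Real.pi) := by
  have := inV_center t (-1)
  have e1 : (2 * ((-1 : ℤ) : ℝ) + 1) * Real.pi = -Real.pi := by push_cast; ring
  rwa [e1] at this

/-- primitive of the second-order integrand and the identity -/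
theorem exists_QV {β r : ℝ} (hβ : 0 < β) (hr : 0 < r) (t : ℝ) {σ : ℂ}
    (hs : σ = β * (r * cexp (I * (t + σ)))) :
    ∃ (Q : ℂ → ℂ) (W₀ W₁ : ℂ), (∀ s, HasDerivAt Q (hqA β r t σ s) s) ∧
      Tendsto (fun Y : ℝ => Q ((Real.pi : ℝ) + Y * I)) atBot (𝓝 W₀) ∧
      Tendsto (fun Y : ℝ => Q ((-Real.pi : ℝ) + Y * I)) atBot (𝓝 W₁) ∧
      W₀ - W₁ = cF β * ((1 - I * σ) * (β / σ) * (ew β r t * AA β r (t + β) - σ / β * AA β r t)) := by
  have hβ' : (β : ℂ) ≠ 0 := Complex.ofReal_ne_zero.2 hβ.ne'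
  have hr' : (r : ℂ) ≠ 0 := Complex.ofReal_ne_zero.2 hr.ne'
  have hσ : σ ≠ 0 := by
    rw [hs]
    exact mul_ne_zero hβ' (mul_ne_zero hr' (Complex.exp_ne_zero _))
  obtain ⟨P, hP⟩ := exists_prim (gs_diff β r t)
  obtain ⟨V, lL, lR, hV, -⟩ := exists_vals hβ hr hP
  obtain ⟨P', hP'⟩ := exists_prim (gs_diff β r (t + β))
  obtain ⟨V', lL', lR', hV', -⟩ := exists_vals hβ hr hP'
  obtain ⟨H, W, mL, mR, hH, eH, -, -⟩ := exists_MV hβ hr t σ
  have hexp : cexp (-(I * (t + σ))) = β * r / σ := by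
    rw [eq_div_iff hσ]
    conv_lhs => rw [hs]
    rw [Complex.exp_neg]
    have hne := Complex.exp_ne_zero (I * (t + σ))
    have e1 : cexp (I * (t + β * (r * cexp (I * (t + σ))))) = cexp (I * (t + σ)) := by rw [← hs]
    rw [e1]
    field_simp
  refine ⟨fun s => β * r / σ * cexp (I * (t + β / 2)) * P' s - P s - I * β * H s,
    β * r / σ * cexp (I * (t + β / 2)) * V' 0 - V 0 - I * β * W 0,
    β * r / σ * cexp (I * (t + β / 2)) * V' (-1) - V (-1) - I * β * W (-1), fun s => ?_, ?_, ?_, ?_⟩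
  · have h1 := (((hP' s).const_mul (β * r / σ * cexp (I * (t + β / 2)))).sub (hP s)).sub
      ((hH.prim s).const_mul (I * β))
    refine h1.congr_deriv ?_
    have h2 := exp_mul_gs hβ.ne' r t s
    have e1 : cexp (I * (s - t - σ)) = cexp (I * s) * (β * r / σ) := by
      rw [← hexp, ← Complex.exp_add]
      congr 1
      ring
    unfold hqA mqA hm
    rw [e1]
    have e3 : I * (β : ℂ) * ((s - t - σ) / β * gs β r t s) = I * (s - t - σ) * gs β r t s := by
      field_simp
    rw [e3]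
    linear_combination (-(β * r / σ)) * h2
  · have w1 := hV'.val 0 Real.pi (inV0 (t + β)).1 (inV0 (t + β)).2
    have w2 := hV.val 0 Real.pi (inV0 t).1 (inV0 t).2
    exact ((w1.const_mul _).sub w2).sub (hH.val0.const_mul _)
  · have w1 := hV'.val (-1) (-Real.pi) (inVm (t + β)).1 (inVm (t + β)).2
    have w2 := hV.val (-1) (-Real.pi) (inVm t).1 (inVm t).2
    exact ((w1.const_mul _).sub w2).sub (hH.val1.const_mul _)
  · have e1 := hV.AA0 hβ hr hP
    have e2 := hV'.AA0 hβ hr hP'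
    have e3 : β * r / σ * cexp (I * (t + β / 2)) = β / σ * ew β r t := by
      unfold ew
      ring
    rw [e3]
    have e4 : (β / σ * ew β r t * V' 0 - V 0 - I * β * W 0) - (β / σ * ew β r t * V' (-1) - V (-1) - I * β * W (-1)) =
        β / σ * ew β r t * (V' 0 - V' (-1)) - (V 0 - V (-1)) - I * β * (W 0 - W (-1)) := by ring
    rw [e4, eH, e1, e2]
    field_simp

/-- the weight on the line through the saddle -/
theorem norm_mqA_real (u : ℝ) : ‖mqA u‖ ≤ u ^ 2 / 2 := by
  have h := norm_exp_sub_one_sub_le (I * (u : ℂ)) (M := 1) le_rfl (by simp)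
  have e1 : ‖I * (u : ℂ)‖ = |u| := by rw [norm_mul, Complex.norm_I, one_mul, Complex.norm_real, Real.norm_eq_abs]
  rw [e1, one_mul, sq_abs] at h
  exact h

/-- the weight below the line -/
theorem norm_mqA_down (a v : ℝ) (hv : 0 ≤ v) : ‖mqA ((a : ℂ) - v * I)‖ ≤ (2 + |a|) * Real.exp v := by
  have e0 : I * ((a : ℂ) - v * I) = (v : ℂ) + (a : ℂ) * I := by
    linear_combination (-(v : ℂ)) * Complex.I_sq
  have h1 : ‖cexp (I * ((a : ℂ) - v * I))‖ = Real.exp v := by
    rw [e0, Complex.norm_exp]; simp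
  have h2 : ‖I * ((a : ℂ) - v * I)‖ ≤ |a| + v := by
    rw [e0]
    refine (norm_add_le _ _).trans ?_
    rw [norm_mul, Complex.norm_I, mul_one, Complex.norm_real, Complex.norm_real, Real.norm_eq_abs, Real.norm_eq_abs,
      abs_of_nonneg hv]
    linarith
  unfold mqA
  have h3 := norm_sub_le (cexp (I * ((a : ℂ) - v * I)) - 1) (I * ((a : ℂ) - v * I))
  have h4 := norm_sub_le (cexp (I * ((a : ℂ) - v * I))) 1
  rw [h1, norm_one] at h4
  have h5 : 1 + v ≤ Real.exp v := by linarith [Real.add_one_le_exp v]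
  have h6 : |a| ≤ |a| * Real.exp v := by
    have : 1 ≤ Real.exp v := Real.one_le_exp hv
    nlinarith [abs_nonneg a]
  linarith

theorem norm_hqA (β r t : ℝ) (σ : ℂ) (X Y : ℝ) :
    ‖hqA β r t σ (X + Y * I)‖ = ‖mqA ((X : ℂ) + Y * I - t - σ)‖ * mg β r t X Y := by
  unfold hqA
  rw [norm_mul, norm_gs_mg]

/-- the second moment of the line -/
noncomputable def HorS (β r t y w : ℝ) : ℝ := ∫ X in (-Real.pi)..Real.pi, (X - w) ^ 2 / 2 * mg β r t X y

private theorem lim_bd {f : ℝ → ℂ} {l : ℂ} {F : Filter ℝ} [F.NeBot] (hl : Tendsto f F (𝓝 l)) {z : ℂ} {B : ℝ}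
    (hb : ∀ᶠ Y in F, ‖z - f Y‖ ≤ B) : ‖z - l‖ ≤ B :=
  le_of_tendsto (tendsto_const_nhds.sub hl).norm hb

private theorem leg_step {β r t : ℝ} (hβ : 0 < β) {σ : ℂ} {Q : ℂ → ℂ} (hQ : ∀ s, HasDerivAt Q (hqA β r t σ s) s)
    {S z : ℝ} (hz : z ≤ σ.im) :
    ‖Q (S + σ.im * I) - Q (S + z * I)‖ ≤
      (2 + |S - (t + σ.re)|) * Real.exp σ.im * LegW β r (t + β) S z σ.im 1 := by
  rw [← prim_ver (hqA_diff β r t σ) hQ, norm_mul, Complex.norm_I, one_mul]
  refine (intervalIntegral.norm_integral_le_integral_norm hz).trans ?_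
  unfold LegW
  rw [← intervalIntegral.integral_const_mul]
  have hc1 : Continuous fun Y : ℝ => ‖hqA β r t σ (S + Y * I)‖ := by
    have := (hqA_diff β r t σ).continuous
    fun_prop
  have hc2 : Continuous fun Y : ℝ => (2 + |S - (t + σ.re)|) * Real.exp σ.im *
      ((1 + (σ.im - Y)) * mg β r (t + β) S Y) := by
    have := continuous_mg_Y β r (t + β) S
    fun_prop
  refine intervalIntegral.integral_mono_on hz (hc1.intervalIntegrable _ _) (hc2.intervalIntegrable _ _) ?_
  intro Y hY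
  rw [norm_hqA]
  have hv : 0 ≤ σ.im - Y := by linarith [hY.2]
  have e1 : (S : ℂ) + Y * I - t - σ = ((S - (t + σ.re) : ℝ) : ℂ) - ((σ.im - Y : ℝ) : ℂ) * I := by
    have eσ := Complex.re_add_im σ
    push_cast
    linear_combination eσ
  have h1 := norm_mqA_down (S - (t + σ.re)) (σ.im - Y) hv
  rw [← e1] at h1
  have e2 : mg β r (t + β) S Y = Real.exp (-Y) * mg β r t S Y := by
    unfold mg
    rw [← Real.exp_add]
    congr 1
    have hb := hβ.ne'
    field_simp
    ring
  have e3 : Real.exp (σ.im - Y) = Real.exp σ.im * Real.exp (-Y) := by rw [← Real.exp_add]; congr 1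
  have hm := mg_pos β r t S Y
  have hE := Real.exp_pos σ.im
  have hE' := Real.exp_pos (-Y)
  have ha : 0 ≤ 2 + |S - (t + σ.re)| := by positivity
  calc ‖mqA ((S : ℂ) + Y * I - t - σ)‖ * mg β r t S Y
      ≤ ((2 + |S - (t + σ.re)|) * Real.exp (σ.im - Y)) * mg β r t S Y := mul_le_mul_of_nonneg_right h1 hm.le
    _ = (2 + |S - (t + σ.re)|) * Real.exp σ.im * (1 * (Real.exp (-Y) * mg β r t S Y)) := by rw [e3]; ring
    _ ≤ (2 + |S - (t + σ.re)|) * Real.exp σ.im * ((1 + (σ.im - Y)) * (Real.exp (-Y) * mg β r t S Y)) := by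
        apply mul_le_mul_of_nonneg_left _ (by positivity)
        apply mul_le_mul_of_nonneg_right _ (by positivity)
        linarith
    _ = _ := by rw [e2]

private theorem hor_step {β r t : ℝ} {σ : ℂ} {Q : ℂ → ℂ} (hQ : ∀ s, HasDerivAt Q (hqA β r t σ s) s) :
    ‖Q ((Real.pi : ℝ) + σ.im * I) - Q ((-Real.pi : ℝ) + σ.im * I)‖ ≤ HorS β r t σ.im (t + σ.re) := by
  have hpi := Real.pi_pos
  rw [← prim_hor (hqA_diff β r t σ) hQ]
  refine (intervalIntegral.norm_integral_le_integral_norm (by linarith)).trans ?_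
  unfold HorS
  have hc1 : Continuous fun X : ℝ => ‖hqA β r t σ (X + σ.im * I)‖ := by
    have := (hqA_diff β r t σ).continuous
    fun_prop
  have hc2 : Continuous fun X : ℝ => (X - (t + σ.re)) ^ 2 / 2 * mg β r t X σ.im := by
    have := continuous_mg_X β r t σ.im
    fun_prop
  refine intervalIntegral.integral_mono_on (by linarith) (hc1.intervalIntegrable _ _) (hc2.intervalIntegrable _ _) ?_
  intro X _
  rw [norm_hqA]
  have e1 : (X : ℂ) + σ.im * I - t - σ = ((X - (t + σ.re) : ℝ) : ℂ) := by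
    have eσ := Complex.re_add_im σ
    push_cast
    linear_combination eσ
  rw [e1]
  exact mul_le_mul_of_nonneg_right (norm_mqA_real _) (mg_pos _ _ _ _ _).le

/-- SECOND-MOMENT BOUND for a window at its saddle -/
theorem norm_AA_sec {β r t : ℝ} (hβ : 0 < β) (hr : 0 < r) {σ : ℂ} (hs : σ = β * (r * cexp (I * (t + σ))))
    {B₀ B₁ : ℝ} (h0 : ∀ z ≤ σ.im, LegW β r (t + β) Real.pi z σ.im 1 ≤ B₀)
    (h1 : ∀ z ≤ σ.im, LegW β r (t + β) (-Real.pi) z σ.im 1 ≤ B₁) :
    ‖ew β r t * AA β r (t + β) - σ / β * AA β r t‖ * (β * ‖1 - I * σ‖) ≤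
      ‖σ‖ * ((Real.sqrt (2 * Real.pi * β))⁻¹ * (HorS β r t σ.im (t + σ.re) +
        (2 + |Real.pi - (t + σ.re)|) * Real.exp σ.im * B₀ + (2 + |-Real.pi - (t + σ.re)|) * Real.exp σ.im * B₁)) := by
  have hpi := Real.pi_pos
  have hβ' : (β : ℂ) ≠ 0 := Complex.ofReal_ne_zero.2 hβ.ne'
  have hr' : (r : ℂ) ≠ 0 := Complex.ofReal_ne_zero.2 hr.ne'
  have hσ : σ ≠ 0 := by
    rw [hs]
    exact mul_ne_zero hβ' (mul_ne_zero hr' (Complex.exp_ne_zero _))
  obtain ⟨Q, W₀, W₁, hQ, hW0, hW1, e1⟩ := exists_QV hβ hr t hs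
  have k0 : 0 ≤ (2 + |Real.pi - (t + σ.re)|) * Real.exp σ.im := by positivity
  have k1 : 0 ≤ (2 + |-Real.pi - (t + σ.re)|) * Real.exp σ.im := by positivity
  have l0 : ‖Q ((Real.pi : ℝ) + σ.im * I) - W₀‖ ≤ (2 + |Real.pi - (t + σ.re)|) * Real.exp σ.im * B₀ :=
    lim_bd hW0 (by
      filter_upwards [eventually_le_atBot σ.im] with Y hY
      exact (leg_step (r := r) (t := t) hβ hQ hY).trans (mul_le_mul_of_nonneg_left (h0 Y hY) k0))
  have l1 : ‖Q ((-Real.pi : ℝ) + σ.im * I) - W₁‖ ≤ (2 + |-Real.pi - (t + σ.re)|) * Real.exp σ.im * B₁ :=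
    lim_bd hW1 (by
      filter_upwards [eventually_le_atBot σ.im] with Y hY
      exact (leg_step (r := r) (t := t) hβ hQ hY).trans (mul_le_mul_of_nonneg_left (h1 Y hY) k1))
  have l2 := hor_step (β := β) (r := r) (t := t) hQ
  have e3 : W₀ - W₁ = -(Q ((Real.pi : ℝ) + σ.im * I) - W₀) +
      (Q ((Real.pi : ℝ) + σ.im * I) - Q ((-Real.pi : ℝ) + σ.im * I)) + (Q ((-Real.pi : ℝ) + σ.im * I) - W₁) := by ring
  have l4 : ‖W₀ - W₁‖ ≤ HorS β r t σ.im (t + σ.re) +
        (2 + |Real.pi - (t + σ.re)|) * Real.exp σ.im * B₀ + (2 + |-Real.pi - (t + σ.re)|) * Real.exp σ.im * B₁ := by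
    rw [e3]
    refine (norm_add_le _ _).trans ?_
    have l3 := norm_add_le (-(Q ((Real.pi : ℝ) + σ.im * I) - W₀))
      (Q ((Real.pi : ℝ) + σ.im * I) - Q ((-Real.pi : ℝ) + σ.im * I))
    rw [norm_neg] at l3
    linarith
  have e5 : (ew β r t * AA β r (t + β) - σ / β * AA β r t) * (β * (1 - I * σ)) =
      σ * ((cF β)⁻¹ * (W₀ - W₁)) * 1 := by
    rw [e1, inv_mul_cancel_left₀ (cF_ne hβ)]
    field_simp
  have e6 := congrArg norm e5
  rw [norm_mul, norm_mul, norm_mul, norm_mul, norm_mul, norm_one, mul_one, Complex.norm_real, Real.norm_of_nonneg hβ.le,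
    norm_inv, norm_cF] at e6
  rw [e6]
  apply mul_le_mul_of_nonneg_left _ (norm_nonneg _)
  exact mul_le_mul_of_nonneg_left l4 (by positivity)

/-- second moment of the middle part -/
noncomputable def mid2 (β r v w : ℝ) : ℝ := Real.sqrt Real.pi / 4 *
  (Real.sqrt (3 / (r * (Real.exp (-v) * Real.cos w)))) ^ 3 *
  Real.exp (r * (Real.exp (-v) * Real.cos w + v * w / (β * r)))

theorem mid2_nonneg (β r v w : ℝ) : 0 ≤ mid2 β r v w := by unfold mid2; positivity

theorem HorS_full (β r t v w : ℝ) :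
    HorS β r t v w = Real.exp (-(t * v / β)) * ∫ X in (-Real.pi)..Real.pi,
      (X - w) ^ 2 / 2 * Real.exp (X * v / β + r * Real.cos X * Real.exp (-v)) := by
  unfold HorS
  rw [← intervalIntegral.integral_const_mul]
  congr 1
  funext X
  unfold mg
  rw [mul_left_comm, ← Real.exp_add]
  congr 2
  ring

private theorem bump_pt {β r v w X : ℝ} (hβ : 0 < β) (hr : 0 < r) (hw : -(Real.pi / 2) < w)
    (hw' : w < Real.pi / 2) (hvw : β * r * Real.sin w = v * Real.exp v) (h1 : -(Real.pi / 2) ≤ X)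
    (h2 : X ≤ Real.pi / 2) : Real.exp (X * v / β + r * Real.cos X * Real.exp (-v)) ≤
      Real.exp (r * (Real.exp (-v) * Real.cos w + v * w / (β * r))) *
        Real.exp (-(r * (Real.exp (-v) * Real.cos w) / 3) * (X - w) ^ 2) := by
  have hv : v / β = r * Real.exp (-v) * Real.sin w := by
    rw [div_eq_iff hβ.ne']
    have h1 : Real.exp (-v) * Real.exp v = 1 := by rw [← Real.exp_add]; simp
    calc v = v * (Real.exp (-v) * Real.exp v) := by rw [h1, mul_one]
      _ = (v * Real.exp v) * Real.exp (-v) := by ring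
      _ = r * Real.exp (-v) * Real.sin w * β := by rw [← hvw]; ring
  rw [← Real.exp_add]
  apply Real.exp_le_exp.2
  have h3 := cos_par (s := X) hw.le hw'.le h1 h2
  have h4 : r * Real.exp (-v) * Real.cos X ≤ r * Real.exp (-v) *
      (Real.cos w - (X - w) * Real.sin w - Real.cos w * (X - w) ^ 2 / 3) :=
    mul_le_mul_of_nonneg_left h3 (by positivity)
  have h5 : X * v / β = X * (r * Real.exp (-v) * Real.sin w) := by rw [← hv]; ring
  have h6 : r * (Real.exp (-v) * Real.cos w + v * w / (β * r)) =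
      r * (Real.exp (-v) * Real.cos w) + w * (r * Real.exp (-v) * Real.sin w) := by
    rw [← hv]
    field_simp
  rw [h5, h6]
  nlinarith [h4]

private theorem mid2_int {β r v w : ℝ} (hβ : 0 < β) (hr : 0 < r) (hw : -(Real.pi / 2) < w) (hw' : w < Real.pi / 2)
    (hvw : β * r * Real.sin w = v * Real.exp v) :
    ∫ X in (-(Real.pi / 2))..(Real.pi / 2),
      (X - w) ^ 2 / 2 * Real.exp (X * v / β + r * Real.cos X * Real.exp (-v)) ≤ mid2 β r v w := by
  have hpi := Real.pi_pos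
  have hcw : 0 < Real.cos w := Real.cos_pos_of_mem_Ioo ⟨hw, hw'⟩
  obtain ⟨b, hb⟩ : ∃ b : ℝ, b = r * (Real.exp (-v) * Real.cos w) / 3 := ⟨_, rfl⟩
  have hbpos : 0 < b := by rw [hb]; positivity
  obtain ⟨E, hE⟩ : ∃ E : ℝ, E = Real.exp (r * (Real.exp (-v) * Real.cos w + v * w / (β * r))) := ⟨_, rfl⟩
  have hE0 : 0 < E := by rw [hE]; exact Real.exp_pos _
  have hi : Integrable (fun u : ℝ => |u| ^ 2 * Real.exp (-b * u ^ 2)) := integrable_abs_pow_gauss 2 hbpos
  have hval : ∫ u : ℝ, |u| ^ 2 * Real.exp (-b * u ^ 2) = Real.sqrt Real.pi / 2 * (Real.sqrt (1 / b)) ^ 3 := by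
    rw [integral_sq_gauss hbpos]
    have e1 : (((2 : ℕ) : ℝ) + 1) / 2 = 1 / 2 + 1 := by norm_num
    have e2 : -(((2 : ℕ) : ℝ) + 1) / 2 = -(1 + 1 / 2) := by norm_num
    rw [e1, e2, Real.Gamma_add_one (by norm_num), Real.Gamma_one_half_eq, Real.rpow_neg hbpos.le, Real.rpow_add hbpos,
      Real.rpow_one, ← Real.sqrt_eq_rpow]
    have e3 : Real.sqrt (1 / b) = (Real.sqrt b)⁻¹ := by rw [one_div, Real.sqrt_inv]
    rw [e3]
    have h3 := Real.sq_sqrt hbpos.le
    have h4 : 0 < Real.sqrt b := Real.sqrt_pos.2 hbpos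
    have h5 : (Real.sqrt b)⁻¹ ^ 3 = (b * Real.sqrt b)⁻¹ := by
      rw [inv_pow]
      congr 1
      nlinarith
    rw [h5]
    ring
  have hi' : Integrable (fun X : ℝ => |X - w| ^ 2 * Real.exp (-b * (X - w) ^ 2)) := hi.comp_sub_right w
  have h1 : ∫ X in (-(Real.pi / 2))..(Real.pi / 2),
      (X - w) ^ 2 / 2 * Real.exp (X * v / β + r * Real.cos X * Real.exp (-v)) ≤
      ∫ X in (-(Real.pi / 2))..(Real.pi / 2), E / 2 * (|X - w| ^ 2 * Real.exp (-b * (X - w) ^ 2)) := by
    refine intervalIntegral.integral_mono_on (by linarith) ?_ (hi'.const_mul (E / 2)).intervalIntegrable ?_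
    · exact (by fun_prop : Continuous fun X : ℝ =>
        (X - w) ^ 2 / 2 * Real.exp (X * v / β + r * Real.cos X * Real.exp (-v))).intervalIntegrable _ _
    · intro X hX
      have h2 := bump_pt hβ hr hw hw' hvw hX.1 hX.2
      rw [← hE, ← hb] at h2
      rw [sq_abs]
      calc (X - w) ^ 2 / 2 * Real.exp (X * v / β + r * Real.cos X * Real.exp (-v))
          ≤ (X - w) ^ 2 / 2 * (E * Real.exp (-b * (X - w) ^ 2)) := mul_le_mul_of_nonneg_left h2 (by positivity)
        _ = _ := by ring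
  refine h1.trans ?_
  rw [intervalIntegral.integral_const_mul, intervalIntegral.integral_of_le (by linarith)]
  have h3 : ∫ X in Ioc (-(Real.pi / 2)) (Real.pi / 2), |X - w| ^ 2 * Real.exp (-b * (X - w) ^ 2) ≤
      ∫ X : ℝ, |X - w| ^ 2 * Real.exp (-b * (X - w) ^ 2) :=
    setIntegral_le_integral hi' (Filter.Eventually.of_forall fun X => by positivity)
  have h5 : ∫ X : ℝ, |X - w| ^ 2 * Real.exp (-b * (X - w) ^ 2) = Real.sqrt Real.pi / 2 * (Real.sqrt (1 / b)) ^ 3 := by
    rw [← hval]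
    exact integral_sub_right_eq_self (fun u : ℝ => |u| ^ 2 * Real.exp (-b * u ^ 2)) w
  rw [h5] at h3
  refine (mul_le_mul_of_nonneg_left h3 (by positivity)).trans (le_of_eq ?_)
  unfold mid2
  have e1 : 1 / b = 3 / (r * (Real.exp (-v) * Real.cos w)) := by rw [hb]; field_simp
  rw [hE, e1]
  ring

/-- the second moment of the line in closed form -/
theorem HorS_le {β r t v w : ℝ} (hβ : 0 < β) (hr : 0 < r) (hw : -(Real.pi / 2) < w) (hw' : w < Real.pi / 2)
    (hvw : β * r * Real.sin w = v * Real.exp v) :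
    HorS β r t v w ≤ Real.exp (-(t * v / β)) * (mid2 β r v w + (Real.pi + |w|) ^ 2 / 2 * outB β r v) := by
  have hpi := Real.pi_pos
  rw [HorS_full]
  apply mul_le_mul_of_nonneg_left _ (Real.exp_pos _).le
  obtain ⟨g, hg⟩ : ∃ g : ℝ → ℝ, g = fun X => Real.exp (X * v / β + r * Real.cos X * Real.exp (-v)) := ⟨_, rfl⟩
  have hgc : Continuous g := by rw [hg]; fun_prop
  have hg0 : ∀ X, 0 ≤ g X := fun X => by rw [hg]; exact (Real.exp_pos _).le
  have hG : Continuous fun X : ℝ => (X - w) ^ 2 / 2 * g X := by fun_prop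
  have hsplit : ∫ X in (-Real.pi)..Real.pi, (X - w) ^ 2 / 2 * Real.exp (X * v / β + r * Real.cos X * Real.exp (-v)) =
      (∫ X in (-Real.pi)..(-(Real.pi / 2)), (X - w) ^ 2 / 2 * g X) +
      (∫ X in (-(Real.pi / 2))..(Real.pi / 2), (X - w) ^ 2 / 2 * g X) +
      (∫ X in (Real.pi / 2)..Real.pi, (X - w) ^ 2 / 2 * g X) := by
    rw [intervalIntegral.integral_add_adjacent_intervals (hG.intervalIntegrable _ _) (hG.intervalIntegrable _ _),
      intervalIntegral.integral_add_adjacent_intervals (hG.intervalIntegrable _ _) (hG.intervalIntegrable _ _), hg]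
  have hmid : ∫ X in (-(Real.pi / 2))..(Real.pi / 2), (X - w) ^ 2 / 2 * g X ≤ mid2 β r v w := by
    rw [hg]
    exact mid2_int hβ hr hw hw' hvw
  have hout : (∫ X in (-Real.pi)..(-(Real.pi / 2)), (X - w) ^ 2 / 2 * g X) +
      (∫ X in (Real.pi / 2)..Real.pi, (X - w) ^ 2 / 2 * g X) ≤ (Real.pi + |w|) ^ 2 / 2 * outB β r v := by
    have h0 := out_int (v := v) hβ hr.le
    have hk : 0 ≤ (Real.pi + |w|) ^ 2 / 2 := by positivity
    have hpt : ∀ X : ℝ, |X| ≤ Real.pi → (X - w) ^ 2 / 2 * g X ≤ (Real.pi + |w|) ^ 2 / 2 * g X := by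
      intro X hX
      apply mul_le_mul_of_nonneg_right _ (hg0 X)
      have h1 := abs_sub X w
      have h2 : |X - w| ^ 2 ≤ (Real.pi + |w|) ^ 2 := pow_le_pow_left₀ (abs_nonneg _) (by linarith) 2
      rw [sq_abs] at h2
      linarith
    have h1 : ∫ X in (-Real.pi)..(-(Real.pi / 2)), (X - w) ^ 2 / 2 * g X ≤
        (Real.pi + |w|) ^ 2 / 2 * ∫ X in (-Real.pi)..(-(Real.pi / 2)), g X := by
      rw [← intervalIntegral.integral_const_mul]
      refine intervalIntegral.integral_mono_on (by linarith) (hG.intervalIntegrable _ _)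
        ((by fun_prop : Continuous fun X : ℝ => (Real.pi + |w|) ^ 2 / 2 * g X).intervalIntegrable _ _) ?_
      intro X hX
      exact hpt X (abs_le.2 ⟨hX.1, by linarith [hX.2]⟩)
    have h2 : ∫ X in (Real.pi / 2)..Real.pi, (X - w) ^ 2 / 2 * g X ≤
        (Real.pi + |w|) ^ 2 / 2 * ∫ X in (Real.pi / 2)..Real.pi, g X := by
      rw [← intervalIntegral.integral_const_mul]
      refine intervalIntegral.integral_mono_on (by linarith) (hG.intervalIntegrable _ _)
        ((by fun_prop : Continuous fun X : ℝ => (Real.pi + |w|) ^ 2 / 2 * g X).intervalIntegrable _ _) ?_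
      intro X hX
      exact hpt X (abs_le.2 ⟨by linarith [hX.1], hX.2⟩)
    have h3 : (∫ X in (-Real.pi)..(-(Real.pi / 2)), g X) + (∫ X in (Real.pi / 2)..Real.pi, g X) ≤ outB β r v := by
      rw [hg]; exact h0
    nlinarith
  rw [hsplit]
  linarith

/-- weighted exponential tail -/
noncomputable def qtl (u ν : ℝ) : ℝ := u ^ 2 / 2 / ν + u / ν ^ 2 + 1 / ν ^ 3

private theorem qtl_int {u ν l : ℝ} (hν : 0 < ν) (hu : 0 ≤ u) (hl : 0 ≤ l) :
    ∫ s in (0:ℝ)..l, (u + s) ^ 2 / 2 * Real.exp (-(ν * s)) ≤ qtl u ν := by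
  have h1 : ∀ s ∈ uIcc 0 l, HasDerivAt (fun s : ℝ => -(Real.exp (-(ν * s)) *
      ((u + s) ^ 2 / 2 / ν + (u + s) / ν ^ 2 + 1 / ν ^ 3))) ((u + s) ^ 2 / 2 * Real.exp (-(ν * s))) s := by
    intro s _
    have h2 : HasDerivAt (fun s : ℝ => -(ν * s)) (-ν) s := by
      have := ((hasDerivAt_id s).const_mul ν).fun_neg
      rwa [mul_one] at this
    have h3 : HasDerivAt (fun s : ℝ => u + s) 1 s := (hasDerivAt_id s).const_add u
    have h4 := (((h3.pow 2).div_const 2).div_const ν).add ((h3.div_const (ν ^ 2)).add_const (1 / ν ^ 3))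
    have h5 := (h2.exp.mul h4).neg
    have e : (fun s : ℝ => -(Real.exp (-(ν * s)) * ((u + s) ^ 2 / 2 / ν + (u + s) / ν ^ 2 + 1 / ν ^ 3))) =
        fun s : ℝ => -(Real.exp (-(ν * s)) * ((u + s) ^ 2 / 2 / ν + ((u + s) / ν ^ 2 + 1 / ν ^ 3))) := by
      funext s; ring
    rw [e]
    refine h5.congr_deriv ?_
    simp only [Pi.add_apply, Pi.pow_apply]
    field_simp
    ring
  rw [intervalIntegral.integral_eq_sub_of_hasDerivAt h1
    ((by fun_prop : Continuous fun s : ℝ => (u + s) ^ 2 / 2 * Real.exp (-(ν * s))).intervalIntegrable _ _)]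
  have h4 : 0 ≤ Real.exp (-(ν * l)) * ((u + l) ^ 2 / 2 / ν + (u + l) / ν ^ 2 + 1 / ν ^ 3) := by positivity
  unfold qtl
  simp only [mul_zero, neg_zero, Real.exp_zero, add_zero, one_mul]
  linarith

/-- right outer part of the second moment -/
theorem out2_right {β r v w : ℝ} (hr : 0 ≤ r) (hw' : w < Real.pi / 2)
    (hν : 0 < 2 / Real.pi * (r * Real.exp (-v)) - v / β) :
    ∫ X in (Real.pi / 2)..Real.pi, (X - w) ^ 2 / 2 * Real.exp (X * v / β + r * Real.cos X * Real.exp (-v)) ≤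
      Real.exp (v * Real.pi / (2 * β)) * qtl (Real.pi / 2 - w) (2 / Real.pi * (r * Real.exp (-v)) - v / β) := by
  have hpi := Real.pi_pos
  obtain ⟨ν, hνd⟩ : ∃ ν : ℝ, ν = 2 / Real.pi * (r * Real.exp (-v)) - v / β := ⟨_, rfl⟩
  rw [← hνd] at hν ⊢
  have h1 : ∫ X in (Real.pi / 2)..Real.pi, (X - w) ^ 2 / 2 * Real.exp (X * v / β + r * Real.cos X * Real.exp (-v)) ≤
      ∫ X in (Real.pi / 2)..Real.pi, Real.exp (v * Real.pi / (2 * β)) *
        ((fun s : ℝ => (Real.pi / 2 - w + s) ^ 2 / 2 * Real.exp (-(ν * s))) (X - Real.pi / 2)) := by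
    refine intervalIntegral.integral_mono_on (by linarith) ?_ ?_ ?_
    · exact (by fun_prop : Continuous fun X : ℝ =>
        (X - w) ^ 2 / 2 * Real.exp (X * v / β + r * Real.cos X * Real.exp (-v))).intervalIntegrable _ _
    · exact (by fun_prop : Continuous fun X : ℝ => Real.exp (v * Real.pi / (2 * β)) *
        ((fun s : ℝ => (Real.pi / 2 - w + s) ^ 2 / 2 * Real.exp (-(ν * s))) (X - Real.pi / 2))).intervalIntegrable _ _
    · intro X hX
      have h2 : Real.cos X ≤ -(2 / Real.pi * (X - Real.pi / 2)) := by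
        have h3 := Real.mul_le_sin (x := X - Real.pi / 2) (by linarith [hX.1]) (by linarith [hX.2])
        rw [Real.sin_sub_pi_div_two] at h3
        linarith
      have h4 : Real.exp (X * v / β + r * Real.cos X * Real.exp (-v)) ≤
          Real.exp (v * Real.pi / (2 * β)) * Real.exp (-(ν * (X - Real.pi / 2))) := by
        rw [← Real.exp_add]
        apply Real.exp_le_exp.2
        have h5 : r * Real.cos X * Real.exp (-v) ≤ r * (-(2 / Real.pi * (X - Real.pi / 2))) * Real.exp (-v) :=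
          mul_le_mul_of_nonneg_right (mul_le_mul_of_nonneg_left h2 hr) (Real.exp_pos _).le
        have h6 : X * v / β = v * Real.pi / (2 * β) + v / β * (X - Real.pi / 2) := by
          rcases eq_or_ne β 0 with hb | hb
          · simp [hb]
          · field_simp; ring
        rw [h6, hνd]
        nlinarith [h5]
      simp only
      have e1 : Real.pi / 2 - w + (X - Real.pi / 2) = X - w := by ring
      rw [e1]
      calc (X - w) ^ 2 / 2 * Real.exp (X * v / β + r * Real.cos X * Real.exp (-v))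
          ≤ (X - w) ^ 2 / 2 * (Real.exp (v * Real.pi / (2 * β)) * Real.exp (-(ν * (X - Real.pi / 2)))) :=
            mul_le_mul_of_nonneg_left h4 (by positivity)
        _ = _ := by ring
  refine h1.trans ?_
  rw [intervalIntegral.integral_const_mul, intervalIntegral.integral_comp_sub_right
    (fun s : ℝ => (Real.pi / 2 - w + s) ^ 2 / 2 * Real.exp (-(ν * s)))]
  have e2 : Real.pi / 2 - Real.pi / 2 = 0 := by ring
  rw [e2]
  exact mul_le_mul_of_nonneg_left (qtl_int hν (by linarith) (by linarith)) (Real.exp_pos _).le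

/-- left outer part of the second moment -/
theorem out2_left {β r v w : ℝ} (hr : 0 ≤ r) (hw : -(Real.pi / 2) < w)
    (hν : 0 < 2 / Real.pi * (r * Real.exp (-v)) + v / β) :
    ∫ X in (-Real.pi)..(-(Real.pi / 2)), (X - w) ^ 2 / 2 * Real.exp (X * v / β + r * Real.cos X * Real.exp (-v)) ≤
      Real.exp (-(v * Real.pi / (2 * β))) * qtl (Real.pi / 2 + w) (2 / Real.pi * (r * Real.exp (-v)) + v / β) := by
  have hpi := Real.pi_pos
  obtain ⟨ν, hνd⟩ : ∃ ν : ℝ, ν = 2 / Real.pi * (r * Real.exp (-v)) + v / β := ⟨_, rfl⟩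
  rw [← hνd] at hν ⊢
  have h0 : ∫ X in (-Real.pi)..(-(Real.pi / 2)), (X - w) ^ 2 / 2 * Real.exp (X * v / β + r * Real.cos X * Real.exp (-v)) =
      ∫ X in (Real.pi / 2)..Real.pi, (X + w) ^ 2 / 2 * Real.exp (-(X * v / β) + r * Real.cos X * Real.exp (-v)) := by
    rw [← intervalIntegral.integral_comp_neg]
    congr 1
    funext X
    rw [Real.cos_neg]
    congr 1
    · ring
    · congr 1
      ring
  rw [h0]
  have h1 : ∫ X in (Real.pi / 2)..Real.pi, (X + w) ^ 2 / 2 * Real.exp (-(X * v / β) + r * Real.cos X * Real.exp (-v)) ≤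
      ∫ X in (Real.pi / 2)..Real.pi, Real.exp (-(v * Real.pi / (2 * β))) *
        ((fun s : ℝ => (Real.pi / 2 + w + s) ^ 2 / 2 * Real.exp (-(ν * s))) (X - Real.pi / 2)) := by
    refine intervalIntegral.integral_mono_on (by linarith) ?_ ?_ ?_
    · exact (by fun_prop : Continuous fun X : ℝ =>
        (X + w) ^ 2 / 2 * Real.exp (-(X * v / β) + r * Real.cos X * Real.exp (-v))).intervalIntegrable _ _
    · exact (by fun_prop : Continuous fun X : ℝ => Real.exp (-(v * Real.pi / (2 * β))) *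
        ((fun s : ℝ => (Real.pi / 2 + w + s) ^ 2 / 2 * Real.exp (-(ν * s))) (X - Real.pi / 2))).intervalIntegrable _ _
    · intro X hX
      have h2 : Real.cos X ≤ -(2 / Real.pi * (X - Real.pi / 2)) := by
        have h3 := Real.mul_le_sin (x := X - Real.pi / 2) (by linarith [hX.1]) (by linarith [hX.2])
        rw [Real.sin_sub_pi_div_two] at h3
        linarith
      have h4 : Real.exp (-(X * v / β) + r * Real.cos X * Real.exp (-v)) ≤
          Real.exp (-(v * Real.pi / (2 * β))) * Real.exp (-(ν * (X - Real.pi / 2))) := by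
        rw [← Real.exp_add]
        apply Real.exp_le_exp.2
        have h5 : r * Real.cos X * Real.exp (-v) ≤ r * (-(2 / Real.pi * (X - Real.pi / 2))) * Real.exp (-v) :=
          mul_le_mul_of_nonneg_right (mul_le_mul_of_nonneg_left h2 hr) (Real.exp_pos _).le
        have h6 : X * v / β = v * Real.pi / (2 * β) + v / β * (X - Real.pi / 2) := by
          rcases eq_or_ne β 0 with hb | hb
          · simp [hb]
          · field_simp; ring
        rw [h6, hνd]
        nlinarith [h5]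
      simp only
      have e1 : Real.pi / 2 + w + (X - Real.pi / 2) = X + w := by ring
      rw [e1]
      calc (X + w) ^ 2 / 2 * Real.exp (-(X * v / β) + r * Real.cos X * Real.exp (-v))
          ≤ (X + w) ^ 2 / 2 * (Real.exp (-(v * Real.pi / (2 * β))) * Real.exp (-(ν * (X - Real.pi / 2)))) :=
            mul_le_mul_of_nonneg_left h4 (by positivity)
        _ = _ := by ring
  refine h1.trans ?_
  rw [intervalIntegral.integral_const_mul, intervalIntegral.integral_comp_sub_right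
    (fun s : ℝ => (Real.pi / 2 + w + s) ^ 2 / 2 * Real.exp (-(ν * s)))]
  have e2 : Real.pi / 2 - Real.pi / 2 = 0 := by ring
  rw [e2]
  exact mul_le_mul_of_nonneg_left (qtl_int hν (by linarith) (by linarith)) (Real.exp_pos _).le

/-- the second moment of the line in closed form, sharper outer part -/
theorem HorS_le2 {β r t v w : ℝ} (hβ : 0 < β) (hr : 0 < r) (hw : -(Real.pi / 2) < w) (hw' : w < Real.pi / 2)
    (hvw : β * r * Real.sin w = v * Real.exp v) (hν : 0 < 2 / Real.pi * (r * Real.exp (-v)) - v / β)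
    (hν' : 0 < 2 / Real.pi * (r * Real.exp (-v)) + v / β) :
    HorS β r t v w ≤ Real.exp (-(t * v / β)) * (mid2 β r v w +
      Real.exp (v * Real.pi / (2 * β)) * qtl (Real.pi / 2 - w) (2 / Real.pi * (r * Real.exp (-v)) - v / β) +
      Real.exp (-(v * Real.pi / (2 * β))) * qtl (Real.pi / 2 + w) (2 / Real.pi * (r * Real.exp (-v)) + v / β)) := by
  have hpi := Real.pi_pos
  rw [HorS_full]
  apply mul_le_mul_of_nonneg_left _ (Real.exp_pos _).le
  have hG : Continuous fun X : ℝ => (X - w) ^ 2 / 2 * Real.exp (X * v / β + r * Real.cos X * Real.exp (-v)) := by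
    fun_prop
  rw [← intervalIntegral.integral_add_adjacent_intervals (hG.intervalIntegrable (-Real.pi) (Real.pi / 2))
      (hG.intervalIntegrable (Real.pi / 2) Real.pi),
    ← intervalIntegral.integral_add_adjacent_intervals (hG.intervalIntegrable (-Real.pi) (-(Real.pi / 2)))
      (hG.intervalIntegrable (-(Real.pi / 2)) (Real.pi / 2))]
  have h1 := mid2_int hβ hr hw hw' hvw
  have h2 := out2_right (β := β) (r := r) (v := v) hr.le hw' hν
  have h3 := out2_left (β := β) (r := r) (v := v) hr.le hw hν'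
  linarith

end Sok
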