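import Mathlib
import Pool.Agent.Lib.MP_816dec_an.Laplace

/-!
MP_816dec_an: the Laplace lemma on a segment with different constants on the two halves.
-/

set_option autoImplicit false

open Complex Set Filter Topology MeasureTheory

namespace Sok

private theorem norm_g' (Λ : ℂ) (t : ℝ) : ‖cexp (-(Λ / 2) * (t : ℂ) ^ 2)‖ = Real.exp (-(Λ.re / 2) * t ^ 2) := by
  rw [Complex.norm_exp]
  congr 1
  rw [← Complex.ofReal_pow, Complex.re_mul_ofReal]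
  simp

theorem half_le {p : ℕ} {f : ℝ → ℂ} {T M b : ℝ} (hT : 0 < T) (hM : 0 ≤ M) (hb : 0 < b) (hf : Continuous f)
    (h : ∀ t, 0 ≤ t → t ≤ T → ‖f t‖ ≤ M * (|t| ^ p * Real.exp (-b * t ^ 2))) :
    ‖∫ t in (0:ℝ)..T, f t‖ ≤ M * ((1 / 2) * ∫ t : ℝ, |t| ^ p * Real.exp (-b * t ^ 2)) := by
  refine (intervalIntegral.norm_integral_le_integral_norm hT.le).trans ?_
  have hI := (integrable_abs_pow_gauss p hb).const_mul M
  have h1 : ∫ t in (0:ℝ)..T, ‖f t‖ ≤ ∫ t in (0:ℝ)..T, M * (|t| ^ p * Real.exp (-b * t ^ 2)) := by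
    refine intervalIntegral.integral_mono_on hT.le (hf.norm.intervalIntegrable _ _) hI.intervalIntegrable ?_
    intro t ht
    exact h t ht.1 ht.2
  refine h1.trans ?_
  have h2 : ∫ t in (0:ℝ)..T, M * (|t| ^ p * Real.exp (-b * t ^ 2)) ≤
      ∫ t in Ioi (0:ℝ), M * (|t| ^ p * Real.exp (-b * t ^ 2)) := by
    rw [intervalIntegral.integral_of_le hT.le]
    refine setIntegral_mono_set hI.integrableOn ?_ ?_
    · exact Filter.Eventually.of_forall (fun t => by positivity)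
    · exact Filter.Eventually.of_forall (fun t ht => ht.1)
  refine h2.trans (le_of_eq ?_)
  rw [integral_const_mul]
  congr 1
  have h3 := integral_comp_abs (f := fun t : ℝ => t ^ p * Real.exp (-b * t ^ 2))
  simp only [sq_abs] at h3
  rw [h3]
  have h4 : ∫ t in Ioi (0:ℝ), |t| ^ p * Real.exp (-b * t ^ 2) = ∫ t in Ioi (0:ℝ), t ^ p * Real.exp (-b * t ^ 2) := by
    refine setIntegral_congr_fun measurableSet_Ioi (fun t ht => ?_)
    rw [abs_of_pos ht]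
  rw [h4]
  ring

theorem half_le_neg {p : ℕ} {f : ℝ → ℂ} {T M b : ℝ} (hT : 0 < T) (hM : 0 ≤ M) (hb : 0 < b) (hf : Continuous f)
    (h : ∀ t, 0 ≤ t → t ≤ T → ‖f (-t)‖ ≤ M * (|t| ^ p * Real.exp (-b * t ^ 2))) :
    ‖∫ t in (-T)..(0:ℝ), f t‖ ≤ M * ((1 / 2) * ∫ t : ℝ, |t| ^ p * Real.exp (-b * t ^ 2)) := by
  have e1 : ∫ t in (-T)..(0:ℝ), f t = ∫ t in (0:ℝ)..T, f (-t) := by
    rw [intervalIntegral.integral_comp_neg, neg_zero]
  rw [e1]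
  exact half_le hT hM hb (hf.comp continuous_neg) h

/-- **Laplace lemma on a segment**, two-sided constants -/
theorem laplace_segment2 {Λ K : ℂ} {cL cR M3L M3R M4L M4R T : ℝ} {R : ℝ → ℂ} (ha : 0 < Λ.re)
    (hcL : 0 < cL) (hcL1 : cL ≤ 1) (hcR : 0 < cR) (hcR1 : cR ≤ 1)
    (hT : 0 < T) (hM4L : 0 ≤ M4L) (hM4R : 0 ≤ M4R) (hR : Continuous R)
    (h4L : ∀ t : ℝ, 0 ≤ t → t ≤ T → ‖R (-t) - K * ((-t : ℝ) : ℂ) ^ 3‖ ≤ M4L * t ^ 4)
    (h4R : ∀ t : ℝ, 0 ≤ t → t ≤ T → ‖R t - K * (t : ℂ) ^ 3‖ ≤ M4R * t ^ 4)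
    (h3L : ∀ t : ℝ, 0 ≤ t → t ≤ T → ‖R (-t)‖ ≤ M3L * t ^ 3)
    (h3R : ∀ t : ℝ, 0 ≤ t → t ≤ T → ‖R t‖ ≤ M3R * t ^ 3)
    (hreL : ∀ t : ℝ, 0 ≤ t → t ≤ T → (R (-t)).re ≤ (1 - cL) * Λ.re * t ^ 2 / 2)
    (hreR : ∀ t : ℝ, 0 ≤ t → t ≤ T → (R t).re ≤ (1 - cR) * Λ.re * t ^ 2 / 2) :
    ‖(∫ t in (-T)..T, cexp (-(Λ / 2) * (t : ℂ) ^ 2 + R t)) - (2 * Real.pi / Λ) ^ (1 / 2 : ℂ)‖ ≤
      3 / 2 * Real.sqrt (2 * Real.pi) * (M4L + M4R) / (Λ.re ^ 2 * Real.sqrt Λ.re) +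
      (15 / 4 * Real.sqrt (2 * Real.pi) * M3L ^ 2 / ((cL * Λ.re) ^ 3 * Real.sqrt (cL * Λ.re)) +
      15 / 4 * Real.sqrt (2 * Real.pi) * M3R ^ 2 / ((cR * Λ.re) ^ 3 * Real.sqrt (cR * Λ.re))) +
      2 * (Real.exp (-(Λ.re / 2) * T ^ 2) / (Λ.re * T)) := by
  obtain ⟨g, hg⟩ : ∃ g : ℝ → ℂ, g = fun t : ℝ => cexp (-(Λ / 2) * (t : ℂ) ^ 2) := ⟨_, rfl⟩
  have hgc : Continuous g := by rw [hg]; fun_prop
  have hgn : ∀ t, ‖g t‖ = Real.exp (-(Λ.re / 2) * t ^ 2) := by intro t; rw [hg]; exact norm_g' Λ t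
  have hsplit : ∀ t : ℝ, cexp (-(Λ / 2) * (t : ℂ) ^ 2 + R t) =
      g t + g t * (K * (t : ℂ) ^ 3) + g t * (R t - K * (t : ℂ) ^ 3) + g t * (cexp (R t) - 1 - R t) := by
    intro t
    rw [Complex.exp_add, hg]
    ring
  have i1 : IntervalIntegrable g volume (-T) T := hgc.intervalIntegrable _ _
  have c2 : Continuous (fun t : ℝ => g t * (K * (t : ℂ) ^ 3)) := by fun_prop
  have c3 : Continuous (fun t : ℝ => g t * (R t - K * (t : ℂ) ^ 3)) := by fun_prop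
  have c4 : Continuous (fun t : ℝ => g t * (cexp (R t) - 1 - R t)) := by fun_prop
  have e1 : (∫ t in (-T)..T, cexp (-(Λ / 2) * (t : ℂ) ^ 2 + R t)) =
      (∫ t in (-T)..T, g t) + (∫ t in (-T)..T, g t * (K * (t : ℂ) ^ 3)) +
      (∫ t in (-T)..T, g t * (R t - K * (t : ℂ) ^ 3)) + ∫ t in (-T)..T, g t * (cexp (R t) - 1 - R t) := by
    rw [← intervalIntegral.integral_add i1 (c2.intervalIntegrable _ _),
      ← intervalIntegral.integral_add (i1.add (c2.intervalIntegrable _ _)) (c3.intervalIntegrable _ _),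
      ← intervalIntegral.integral_add ((i1.add (c2.intervalIntegrable _ _)).add (c3.intervalIntegrable _ _))
        (c4.intervalIntegrable _ _)]
    refine intervalIntegral.integral_congr (fun t _ => ?_)
    exact hsplit t
  have hodd : (∫ t in (-T)..T, g t * (K * (t : ℂ) ^ 3)) = 0 := by
    have h := intervalIntegral.integral_comp_neg (a := -T) (b := T) (fun t : ℝ => g t * (K * (t : ℂ) ^ 3))
    rw [neg_neg] at h
    have h' : (∫ t in (-T)..T, g (-t) * (K * ((-t : ℝ) : ℂ) ^ 3)) = -(∫ t in (-T)..T, g t * (K * (t : ℂ) ^ 3)) := by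
      rw [← intervalIntegral.integral_neg]
      refine intervalIntegral.integral_congr (fun t _ => ?_)
      simp only [hg]
      push_cast
      rw [neg_sq]
      ring
    rw [h'] at h
    have h2 : (2:ℂ) * (∫ t in (-T)..T, g t * (K * (t : ℂ) ^ 3)) = 0 := by
      linear_combination -h
    exact (mul_eq_zero.1 h2).resolve_left two_ne_zero
  have hsp : ∀ {f : ℝ → ℂ}, Continuous f → (∫ t in (-T)..T, f t) = (∫ t in (-T)..(0:ℝ), f t) + ∫ t in (0:ℝ)..T, f t :=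
    fun hf => (intervalIntegral.integral_add_adjacent_intervals (hf.intervalIntegrable _ _) (hf.intervalIntegrable _ _)).symm
  have hb0 : 0 < Λ.re / 2 := by positivity
  have b3R : ‖∫ t in (0:ℝ)..T, g t * (R t - K * (t : ℂ) ^ 3)‖ ≤
      M4R * ((1 / 2) * ∫ t : ℝ, |t| ^ 4 * Real.exp (-(Λ.re / 2) * t ^ 2)) := by
    refine half_le hT hM4R hb0 c3 (fun t h0 ht => ?_)
    rw [norm_mul, hgn, abs_of_nonneg h0]
    have := h4R t h0 ht
    have h5 := Real.exp_pos (-(Λ.re / 2) * t ^ 2)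
    calc _ ≤ Real.exp (-(Λ.re / 2) * t ^ 2) * (M4R * t ^ 4) := mul_le_mul_of_nonneg_left this h5.le
      _ = _ := by ring
  have b3L : ‖∫ t in (-T)..(0:ℝ), g t * (R t - K * (t : ℂ) ^ 3)‖ ≤
      M4L * ((1 / 2) * ∫ t : ℝ, |t| ^ 4 * Real.exp (-(Λ.re / 2) * t ^ 2)) := by
    refine half_le_neg hT hM4L hb0 c3 (fun t h0 ht => ?_)
    rw [norm_mul, hgn, abs_of_nonneg h0, neg_sq]
    have := h4L t h0 ht
    have h5 := Real.exp_pos (-(Λ.re / 2) * t ^ 2)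
    calc _ ≤ Real.exp (-(Λ.re / 2) * t ^ 2) * (M4L * t ^ 4) := mul_le_mul_of_nonneg_left this h5.le
      _ = _ := by ring
  have key : ∀ (r : ℂ) (c M3 t : ℝ), 0 ≤ t → 0 < c → c ≤ 1 → ‖r‖ ≤ M3 * t ^ 3 → r.re ≤ (1 - c) * Λ.re * t ^ 2 / 2 →
      Real.exp (-(Λ.re / 2) * t ^ 2) * ‖cexp r - 1 - r‖ ≤ (M3 ^ 2 / 2) * (t ^ 6 * Real.exp (-(c * Λ.re / 2) * t ^ 2)) := by
    intro r c M3 t h0 hc hc1 h3 hre
    have h5 := norm_exp_sub_one_sub_le r (M := Real.exp ((1 - c) * Λ.re * t ^ 2 / 2))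
      (Real.one_le_exp (by have : 0 ≤ 1 - c := by linarith
                           positivity)) (Real.exp_le_exp.2 hre)
    have h6 : ‖r‖ ^ 2 ≤ (M3 * t ^ 3) ^ 2 := pow_le_pow_left₀ (norm_nonneg _) h3 2
    have h7 : Real.exp (-(Λ.re / 2) * t ^ 2) * Real.exp ((1 - c) * Λ.re * t ^ 2 / 2) =
        Real.exp (-(c * Λ.re / 2) * t ^ 2) := by
      rw [← Real.exp_add]; congr 1; ring
    have h8 := Real.exp_pos (-(Λ.re / 2) * t ^ 2)
    have h9 := Real.exp_pos ((1 - c) * Λ.re * t ^ 2 / 2)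
    calc Real.exp (-(Λ.re / 2) * t ^ 2) * ‖cexp r - 1 - r‖
        ≤ Real.exp (-(Λ.re / 2) * t ^ 2) * (Real.exp ((1 - c) * Λ.re * t ^ 2 / 2) * (‖r‖ ^ 2 / 2)) :=
          mul_le_mul_of_nonneg_left h5 h8.le
      _ = (Real.exp (-(Λ.re / 2) * t ^ 2) * Real.exp ((1 - c) * Λ.re * t ^ 2 / 2)) * (‖r‖ ^ 2 / 2) := by ring
      _ ≤ (Real.exp (-(Λ.re / 2) * t ^ 2) * Real.exp ((1 - c) * Λ.re * t ^ 2 / 2)) * ((M3 * t ^ 3) ^ 2 / 2) := by
          gcongr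
      _ = _ := by rw [h7]; ring
  have b4R : ‖∫ t in (0:ℝ)..T, g t * (cexp (R t) - 1 - R t)‖ ≤
      (M3R ^ 2 / 2) * ((1 / 2) * ∫ t : ℝ, |t| ^ 6 * Real.exp (-(cR * Λ.re / 2) * t ^ 2)) := by
    refine half_le hT (by positivity) (by positivity) c4 (fun t h0 ht => ?_)
    rw [norm_mul, hgn, abs_of_nonneg h0]
    exact key _ cR M3R t h0 hcR hcR1 (h3R t h0 ht) (hreR t h0 ht)
  have b4L : ‖∫ t in (-T)..(0:ℝ), g t * (cexp (R t) - 1 - R t)‖ ≤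
      (M3L ^ 2 / 2) * ((1 / 2) * ∫ t : ℝ, |t| ^ 6 * Real.exp (-(cL * Λ.re / 2) * t ^ 2)) := by
    refine half_le_neg hT (by positivity) (by positivity) c4 (fun t h0 ht => ?_)
    rw [norm_mul, hgn, abs_of_nonneg h0, neg_sq]
    exact key _ cL M3L t h0 hcL hcL1 (h3L t h0 ht) (hreL t h0 ht)
  rw [gauss_four ha] at b3R b3L
  rw [gauss_six (by positivity : 0 < cR * Λ.re)] at b4R
  rw [gauss_six (by positivity : 0 < cL * Λ.re)] at b4L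
  have b1 := gauss_segment ha hT
  rw [e1, hodd, add_zero, hsp c3, hsp c4]
  have e2 : (∫ t in (-T)..T, g t) + ((∫ t in (-T)..(0:ℝ), g t * (R t - K * (t : ℂ) ^ 3)) +
      ∫ t in (0:ℝ)..T, g t * (R t - K * (t : ℂ) ^ 3)) +
      ((∫ t in (-T)..(0:ℝ), g t * (cexp (R t) - 1 - R t)) + ∫ t in (0:ℝ)..T, g t * (cexp (R t) - 1 - R t)) -
        (2 * Real.pi / Λ) ^ (1 / 2 : ℂ) =
      ((∫ t in (-T)..(0:ℝ), g t * (R t - K * (t : ℂ) ^ 3)) + ∫ t in (0:ℝ)..T, g t * (R t - K * (t : ℂ) ^ 3)) +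
      ((∫ t in (-T)..(0:ℝ), g t * (cexp (R t) - 1 - R t)) + ∫ t in (0:ℝ)..T, g t * (cexp (R t) - 1 - R t)) +
      ((∫ t in (-T)..T, cexp (-(Λ / 2) * (t : ℂ) ^ 2)) - (2 * Real.pi / Λ) ^ (1 / 2 : ℂ)) := by
    rw [hg]; ring
  rw [e2]
  refine (norm_add₃_le).trans ?_
  refine add_le_add (add_le_add ?_ ?_) b1
  · refine ((norm_add_le _ _).trans (add_le_add b3L b3R)).trans (le_of_eq ?_)
    ring
  · refine ((norm_add_le _ _).trans (add_le_add b4L b4R)).trans (le_of_eq ?_)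
    ring

end Sok
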