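import Pool.Agent.Lib.MP_816dec_an.SadSeg
import Pool.Agent.Lib.MP_816dec_an.Deriv

/-!
MP_816dec_an, `b = 1`, `0.6 ≤ κ ≤ 1.3`: the saddles of `gs β r t`. Definitions and basic facts.
-/

set_option autoImplicit false

open Complex Set Filter Topology MeasureTheory Sok.W

namespace Sok.Mid

/-- `a + y i` is a saddle of `gs β r t` -/
structure Sad (β r t a y : ℝ) : Prop where
  hβ : 0 < β
  hr : 0 < r
  hc : β * r * Real.exp (-y) * Real.cos a = a - t
  hs : β * r * Real.exp (-y) * Real.sin a = y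

/-- the saddle relative to `t` -/
noncomputable def Lx (t a y : ℝ) : ℂ := ((a - t : ℝ) : ℂ) + y * I

/-- `D = 1 - i L` -/
noncomputable def Dx (t a y : ℝ) : ℂ := 1 - I * Lx t a y

/-- the weight `e^{iu} - 1 - iu` -/
noncomputable def mw (u : ℂ) : ℂ := cexp (I * u) - 1 - I * u

/-- `β` times the relative exponent at the point `p + q i` from the saddle, `R = a - t` -/
noncomputable def NN (R y p q : ℝ) : ℝ :=
  R * q + p * y + p * q + Real.exp (-q) * (R * Real.cos p - y * Real.sin p) - R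

theorem Lx_re (t a y : ℝ) : (Lx t a y).re = a - t := by simp [Lx]

theorem Lx_im (t a y : ℝ) : (Lx t a y).im = y := by simp [Lx]

theorem norm_Lx {β r t a y : ℝ} (h : Sad β r t a y) : ‖Lx t a y‖ = β * r * Real.exp (-y) := by
  have h0 : 0 < β * r * Real.exp (-y) := mul_pos (mul_pos h.hβ h.hr) (Real.exp_pos _)
  have h1 : (a - t) ^ 2 + y ^ 2 = (β * r * Real.exp (-y)) ^ 2 := by
    have h2 := h.hc
    have h3 := h.hs
    generalize β * r * Real.exp (-y) = ρ at h2 h3
    have := Real.sin_sq_add_cos_sq a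
    rw [← h2, ← h3]
    linear_combination (ρ ^ 2) * this
  rw [Complex.norm_def, Complex.normSq_apply, Lx_re, Lx_im]
  have e : (a - t) * (a - t) + y * y = (β * r * Real.exp (-y)) ^ 2 := by rw [← h1]; ring
  rw [e, Real.sqrt_sq h0.le]

theorem Sad.eq {β r t a y : ℝ} (h : Sad β r t a y) :
    Lx t a y = β * (r * cexp (I * (t + β / 2)) * cexp (-(I * β / 2)) * cexp (I * Lx t a y)) := by
  have e1 : (β : ℂ) * (r * cexp (I * (t + β / 2)) * cexp (-(I * β / 2)) * cexp (I * Lx t a y)) =
      ((β * r * Real.exp (-y) : ℝ) : ℂ) * cexp (a * I) := by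
    have e2 : (r : ℂ) * cexp (I * (t + β / 2)) * cexp (-(I * β / 2)) * cexp (I * Lx t a y) =
        r * (cexp ((-y : ℝ)) * cexp (a * I)) := by
      rw [mul_assoc, mul_assoc, ← Complex.exp_add, ← Complex.exp_add, ← Complex.exp_add]
      congr 2
      unfold Lx
      push_cast
      linear_combination (y : ℂ) * Complex.I_sq
    rw [e2]
    push_cast
    ring
  rw [e1, Complex.exp_mul_I]
  apply Complex.ext
  · rw [Lx_re, ← h.hc]
    rw [Complex.re_ofReal_mul]
    simp [Complex.cos_ofReal_re]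
  · rw [Lx_im, Complex.im_ofReal_mul]
    simp only [Complex.add_im, Complex.mul_im, Complex.I_re, Complex.I_im, mul_one, mul_zero]
    rw [← Complex.ofReal_cos, ← Complex.ofReal_sin, Complex.ofReal_im, Complex.ofReal_re]
    rw [zero_add, add_zero, h.hs]

theorem Sad.gs_add {β r t a y : ℝ} (h : Sad β r t a y) (u : ℂ) :
    gs β r t ((a : ℂ) + y * I + u) = gs β r t (a + y * I) * cexp (Psi (Lx t a y) u / β) := by
  rw [gs_eq_GG, gs_eq_GG]
  have e1 : (a : ℂ) + y * I + u - t = Lx t a y + u := by unfold Lx; push_cast; ring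
  have e2 : (a : ℂ) + y * I - t = Lx t a y := by unfold Lx; push_cast; ring
  rw [e1, e2]
  exact GG_saddle h.hβ.ne' h.eq u

theorem Sad.norm_gs {β r t a y : ℝ} (h : Sad β r t a y) :
    ‖gs β r t (a + y * I)‖ = Real.exp ((a - t) * (1 + y) / β) := by
  rw [Sok.norm_gs]
  congr 1
  have h1 : r * Real.cos a * Real.exp (-y) = (a - t) / β := by
    rw [← h.hc]
    have := h.hβ.ne'
    field_simp
  rw [h1]
  ring

theorem Sad.norm_gs_add {β r t a y : ℝ} (h : Sad β r t a y) (p q : ℝ) :
    ‖gs β r t ((a : ℂ) + y * I + (p + q * I))‖ =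
      ‖gs β r t (a + y * I)‖ * Real.exp (NN (a - t) y p q / β) := by
  have e1 : (a : ℂ) + y * I + (p + q * I) = ((a + p : ℝ) : ℂ) + ((y + q : ℝ) : ℂ) * I := by push_cast; ring
  rw [e1, Sok.norm_gs, Sok.norm_gs, ← Real.exp_add]
  congr 1
  have hb := h.hβ.ne'
  have k1 : (a - t) / β = r * Real.exp (-y) * Real.cos a := by
    rw [← h.hc]; field_simp
  have k2 : y / β = r * Real.exp (-y) * Real.sin a := by
    have := h.hs
    rw [div_eq_iff hb]
    linarith
  have h1 : r * Real.cos (a + p) * Real.exp (-(y + q)) =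
      Real.exp (-q) * ((a - t) / β * Real.cos p - y / β * Real.sin p) := by
    have e2 : Real.exp (-(y + q)) = Real.exp (-y) * Real.exp (-q) := by rw [← Real.exp_add]; congr 1; ring
    rw [Real.cos_add, e2, k1, k2]
    ring
  have h2 : r * Real.cos a * Real.exp (-y) = (a - t) / β := by
    rw [k1]; ring
  rw [h1, h2]
  unfold NN
  field_simp
  ring

theorem psi_re (t a y p q : ℝ) : (Psi (Lx t a y) (p + q * I)).re = NN (a - t) y p q := by
  unfold Psi Lx NN
  have e1 : cexp (I * ((p : ℂ) + q * I)) = ((Real.exp (-q) : ℝ) : ℂ) * (((Real.cos p : ℝ) : ℂ) + ((Real.sin p : ℝ) : ℂ) * I) := by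
    have : I * ((p : ℂ) + q * I) = ((-q : ℝ) : ℂ) + p * I := by
      push_cast
      linear_combination (q : ℂ) * Complex.I_sq
    rw [this, Complex.exp_add, Complex.exp_mul_I, Complex.ofReal_exp, Complex.ofReal_cos, Complex.ofReal_sin]
  rw [e1]
  generalize Real.exp (-q) = E
  generalize Real.cos p = c
  generalize Real.sin p = s
  simp [pow_two]
  ring

end Sok.Mid
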