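import Mathlib

/-!
MP_816dec_an, `b = 1`, middle range: bounds along straight pieces of a contour by a primitive, and five
elementary integrals.
-/

set_option autoImplicit false

open Complex Set Filter Topology MeasureTheory

namespace Sok.Mid

/-- the primitive along a line -/
theorem prim_line {g P : ℂ → ℂ} (hg : Differentiable ℂ g) (hP : ∀ x, HasDerivAt P (g x) x) (p d : ℂ)
    (a b : ℝ) : d * ∫ x in a..b, g (p + x * d) = P (p + b * d) - P (p + a * d) := by
  have h1 : ∀ x : ℝ, HasDerivAt (fun x : ℝ => P (p + x * d)) (d * g (p + x * d)) x := by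
    intro x
    have h2 : HasDerivAt (fun x : ℝ => p + (x : ℂ) * d) d x := by
      have h3 := ((Complex.ofRealCLM.hasDerivAt (x := x)).mul_const d).const_add p
      simpa using h3
    have h4 := (hP (p + x * d)).comp x h2
    rw [mul_comm] at h4
    exact h4
  rw [← intervalIntegral.integral_const_mul]
  refine intervalIntegral.integral_eq_sub_of_hasDerivAt (fun x _ => h1 x) ?_
  have h5 := hg.continuous
  have : Continuous fun x : ℝ => d * g (p + x * d) := by fun_prop
  exact this.intervalIntegrable _ _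

/-- a finite piece -/
theorem seg_bd {g P : ℂ → ℂ} (hg : Differentiable ℂ g) (hP : ∀ x, HasDerivAt P (g x) x) {p d : ℂ}
    (hd : ‖d‖ = 1) {m : ℝ → ℝ} (hm : Continuous m) {T : ℝ} (hT : 0 ≤ T)
    (hb : ∀ x ∈ Icc 0 T, ‖g (p + x * d)‖ ≤ m x) :
    ‖P (p + T * d) - P p‖ ≤ ∫ x in (0:ℝ)..T, m x := by
  have h1 := prim_line hg hP p d 0 T
  have e1 : p + ((0 : ℝ) : ℂ) * d = p := by simp
  rw [e1] at h1
  rw [← h1, norm_mul, hd, one_mul]
  refine intervalIntegral.norm_integral_le_of_norm_le hT (Filter.Eventually.of_forall fun x hx => ?_)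
    (hm.intervalIntegrable _ _)
  exact hb x ⟨hx.1.le, hx.2⟩

/-- an infinite piece -/
theorem tail_bd {g P : ℂ → ℂ} (hg : Differentiable ℂ g) (hP : ∀ x, HasDerivAt P (g x) x) {p d l : ℂ}
    (hd : ‖d‖ = 1) {m : ℝ → ℝ} (hm : Continuous m) {A : ℝ}
    (hl : Tendsto (fun x : ℝ => P (p + x * d)) atTop (𝓝 l))
    (hb : ∀ x : ℝ, 0 ≤ x → ‖g (p + x * d)‖ ≤ m x) (hA : ∀ T : ℝ, 0 ≤ T → ∫ x in (0:ℝ)..T, m x ≤ A) :
    ‖l - P p‖ ≤ A := by
  have h1 : Tendsto (fun x : ℝ => ‖P (p + x * d) - P p‖) atTop (𝓝 ‖l - P p‖) := (hl.sub_const _).norm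
  refine le_of_tendsto h1 ?_
  filter_upwards [eventually_ge_atTop (0 : ℝ)] with T hT
  exact (seg_bd hg hP hd hm hT fun x hx => hb x hx.1).trans (hA T hT)

private theorem mt_lin (c x : ℝ) : HasDerivAt (fun x : ℝ => -(c * x)) (-c) x := by
  have h := ((hasDerivAt_id x).const_mul c).neg
  rw [mul_one] at h
  exact h

private theorem mt_sq (k x : ℝ) : HasDerivAt (fun x : ℝ => -(k * x ^ 2)) (-(k * (2 * x))) x := by
  have h := ((hasDerivAt_pow 2 x).const_mul k).neg
  refine h.congr_deriv ?_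
  simp

theorem int_exp_le {K c T : ℝ} (hK : 0 ≤ K) (hc : 0 < c) (hT : 0 ≤ T) :
    ∫ x in (0:ℝ)..T, K * Real.exp (-(c * x)) ≤ K / c := by
  have h1 : ∀ x : ℝ, HasDerivAt (fun x : ℝ => -(K / c) * Real.exp (-(c * x))) (K * Real.exp (-(c * x))) x := by
    intro x
    have h2 := ((mt_lin c x).exp).const_mul (-(K / c))
    refine h2.congr_deriv ?_
    field_simp
  have h3 := intervalIntegral.integral_eq_sub_of_hasDerivAt (a := 0) (b := T) (fun x _ => h1 x)
    ((by fun_prop : Continuous fun x : ℝ => K * Real.exp (-(c * x))).intervalIntegrable _ _)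
  rw [h3, mul_zero, neg_zero, Real.exp_zero]
  have h4 : 0 ≤ K / c * Real.exp (-(c * T)) := by positivity
  linarith

theorem int_lin_exp_le {K c T : ℝ} (hK : 0 ≤ K) (hc : 0 < c) (hT : 0 ≤ T) :
    ∫ x in (0:ℝ)..T, (K + x) * Real.exp (-(c * x)) ≤ K / c + 1 / c ^ 2 := by
  have h1 : ∀ x : ℝ, HasDerivAt (fun x : ℝ => -((K + x) / c + 1 / c ^ 2) * Real.exp (-(c * x)))
      ((K + x) * Real.exp (-(c * x))) x := by
    intro x
    have h0 : HasDerivAt (fun x : ℝ => -((K + x) / c + 1 / c ^ 2)) (-(1 / c)) x :=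
      ((((hasDerivAt_id x).const_add K).div_const c).add_const (1 / c ^ 2)).neg
    have h2 := h0.mul (mt_lin c x).exp
    refine h2.congr_deriv ?_
    field_simp
    ring
  have h3 := intervalIntegral.integral_eq_sub_of_hasDerivAt (a := 0) (b := T) (fun x _ => h1 x)
    ((by fun_prop : Continuous fun x : ℝ => (K + x) * Real.exp (-(c * x))).intervalIntegrable _ _)
  rw [h3, mul_zero, neg_zero, Real.exp_zero, add_zero]
  have h4 : 0 ≤ ((K + T) / c + 1 / c ^ 2) * Real.exp (-(c * T)) := by positivity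
  linarith

theorem int_gauss_tail_le {k a b : ℝ} (hk : 0 < k) (ha : 0 < a) (hab : a ≤ b) :
    ∫ x in a..b, Real.exp (-(k * x ^ 2)) ≤ Real.exp (-(k * a ^ 2)) / (2 * k * a) := by
  have h1 : ∀ x : ℝ, HasDerivAt (fun x : ℝ => -(1 / (2 * k * a)) * Real.exp (-(k * x ^ 2)))
      (x / a * Real.exp (-(k * x ^ 2))) x := by
    intro x
    have h2 := ((mt_sq k x).exp).const_mul (-(1 / (2 * k * a)))
    refine h2.congr_deriv ?_
    field_simp
  have h3 := intervalIntegral.integral_eq_sub_of_hasDerivAt (a := a) (b := b) (fun x _ => h1 x)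
    ((by fun_prop : Continuous fun x : ℝ => x / a * Real.exp (-(k * x ^ 2))).intervalIntegrable _ _)
  have h4 : ∫ x in a..b, Real.exp (-(k * x ^ 2)) ≤ ∫ x in a..b, x / a * Real.exp (-(k * x ^ 2)) := by
    refine intervalIntegral.integral_mono_on hab
      ((by fun_prop : Continuous fun x : ℝ => Real.exp (-(k * x ^ 2))).intervalIntegrable _ _)
      ((by fun_prop : Continuous fun x : ℝ => x / a * Real.exp (-(k * x ^ 2))).intervalIntegrable _ _) ?_
    intro x hx
    have h5 : 1 ≤ x / a := by rw [le_div_iff₀ ha]; linarith [hx.1]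
    have h6 := Real.exp_pos (-(k * x ^ 2))
    nlinarith
  refine h4.trans ?_
  rw [h3]
  have h5 : 0 ≤ 1 / (2 * k * a) * Real.exp (-(k * b ^ 2)) := by positivity
  have h6 : Real.exp (-(k * a ^ 2)) / (2 * k * a) = 1 / (2 * k * a) * Real.exp (-(k * a ^ 2)) := by ring
  rw [h6]
  linarith

theorem int_half_gauss_le {k b : ℝ} (hk : 0 < k) (hb : 0 ≤ b) :
    ∫ x in (0:ℝ)..b, Real.exp (-(k * x ^ 2)) ≤ Real.sqrt (Real.pi / k) / 2 := by
  have e : (fun x : ℝ => Real.exp (-(k * x ^ 2))) = fun x : ℝ => Real.exp (-k * x ^ 2) := by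
    funext x; congr 1; ring
  rw [e, ← integral_gaussian_Ioi k, intervalIntegral.integral_of_le hb]
  refine setIntegral_mono_set (integrable_exp_neg_mul_sq hk).integrableOn
    (Filter.Eventually.of_forall fun x => (Real.exp_pos _).le) ?_
  exact (Ioc_subset_Ioi_self).eventuallyLE

theorem int_sq_gauss_le {k b : ℝ} (hk : 0 < k) (hb : 0 ≤ b) :
    ∫ x in (0:ℝ)..b, x ^ 2 * Real.exp (-(k * x ^ 2)) ≤ Real.sqrt Real.pi / (4 * (k * Real.sqrt k)) := by
  have h1 : ∀ x : ℝ, HasDerivAt (fun x : ℝ => -(x / (2 * k)) * Real.exp (-(k * x ^ 2)))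
      (x ^ 2 * Real.exp (-(k * x ^ 2)) - 1 / (2 * k) * Real.exp (-(k * x ^ 2))) x := by
    intro x
    have h0 : HasDerivAt (fun x : ℝ => -(x / (2 * k))) (-(1 / (2 * k))) x := ((hasDerivAt_id x).div_const (2 * k)).neg
    have h2 := h0.mul (mt_sq k x).exp
    refine h2.congr_deriv ?_
    field_simp
    ring
  have i1 : IntervalIntegrable (fun x : ℝ => x ^ 2 * Real.exp (-(k * x ^ 2))) volume 0 b :=
    (by fun_prop : Continuous fun x : ℝ => x ^ 2 * Real.exp (-(k * x ^ 2))).intervalIntegrable _ _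
  have i2 : IntervalIntegrable (fun x : ℝ => 1 / (2 * k) * Real.exp (-(k * x ^ 2))) volume 0 b :=
    (by fun_prop : Continuous fun x : ℝ => 1 / (2 * k) * Real.exp (-(k * x ^ 2))).intervalIntegrable _ _
  have h3 := intervalIntegral.integral_eq_sub_of_hasDerivAt (a := 0) (b := b) (fun x _ => h1 x) (i1.sub i2)
  rw [intervalIntegral.integral_sub i1 i2, intervalIntegral.integral_const_mul] at h3
  have h4 := int_half_gauss_le hk hb
  have h5 : 0 ≤ b / (2 * k) * Real.exp (-(k * b ^ 2)) := by positivity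
  have h6 : 1 / (2 * k) * ∫ x in (0:ℝ)..b, Real.exp (-(k * x ^ 2)) ≤ 1 / (2 * k) * (Real.sqrt (Real.pi / k) / 2) := by
    gcongr
  have h7 : 1 / (2 * k) * (Real.sqrt (Real.pi / k) / 2) = Real.sqrt Real.pi / (4 * (k * Real.sqrt k)) := by
    rw [Real.sqrt_div Real.pi_pos.le]
    have : 0 < Real.sqrt k := Real.sqrt_pos.2 hk
    field_simp
    norm_num
  rw [← h7]
  simp only [zero_div, neg_zero, zero_mul, sub_zero] at h3
  linarith

/-- `√x e^{-kx}` is decreasing for `x ≥ 1/(2k)` -/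
theorem sqrt_mul_exp_le {k x y : ℝ} (hk : 0 < k) (hx : 0 < x) (hkx : 1 ≤ 2 * k * x) (hxy : x ≤ y) :
    Real.sqrt y * Real.exp (-(k * y)) ≤ Real.sqrt x * Real.exp (-(k * x)) := by
  have _ := hk
  have e1 : ∀ w : ℝ, 0 < w → Real.sqrt w * Real.exp (-(k * w)) = Real.sqrt (w * Real.exp (-(2 * k * w))) := by
    intro w hw
    have e2 : Real.exp (-(2 * k * w)) = Real.exp (-(k * w)) ^ 2 := by
      rw [← Real.exp_nat_mul]; congr 1; push_cast; ring
    rw [e2, Real.sqrt_mul hw.le, Real.sqrt_sq (Real.exp_pos _).le]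
  rw [e1 y (by linarith), e1 x hx]
  apply Real.sqrt_le_sqrt
  have h1 : y ≤ x * Real.exp (2 * k * (y - x)) := by
    have h2 := Real.add_one_le_exp (2 * k * (y - x))
    have h3 : x * (2 * k * (y - x) + 1) ≤ x * Real.exp (2 * k * (y - x)) := mul_le_mul_of_nonneg_left h2 hx.le
    have h4 : 0 ≤ (2 * k * x - 1) * (y - x) := mul_nonneg (by linarith) (by linarith)
    nlinarith
  have h5 : Real.exp (-(2 * k * x)) = Real.exp (2 * k * (y - x)) * Real.exp (-(2 * k * y)) := by
    rw [← Real.exp_add]; congr 1; ring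
  rw [h5, ← mul_assoc]
  exact mul_le_mul_of_nonneg_right h1 (Real.exp_pos _).le

end Sok.Mid
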