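import Mathlib
import Pool.Agent.Lib.MP_816dec_an.MDefs
import Pool.Agent.Lib.MP_816dec_an.MTail
import Pool.Agent.Lib.MP_816dec_an.Laplace2
import Pool.Agent.Lib.MP_816dec_an.A0Bnd

/-!
MP_816dec_an, row N1: value of the window function at its saddle. Part A: the central segment
in the direction `c - s i`, `c^2 + s^2 = 1`, `s ≥ 0`.
-/

set_option autoImplicit false

open Complex Set Filter Topology MeasureTheory

namespace Sok.N1

/-- the direction -/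
noncomputable def om (c s : ℝ) : ℂ := (c : ℂ) - s * I
/-- `i` times the direction -/
noncomputable def kw (c s : ℝ) : ℂ := (s : ℂ) + c * I

theorem I_mul_om (c s : ℝ) : I * om c s = kw c s := by
  rw [om, kw]
  linear_combination (-(s : ℂ)) * Complex.I_sq

theorem norm_kw {c s : ℝ} (h : c ^ 2 + s ^ 2 = 1) : ‖kw c s‖ = 1 := by
  have h1 : ‖kw c s‖ ^ 2 = 1 := by
    rw [← Complex.normSq_eq_norm_sq, kw, Complex.normSq_apply]
    simp
    nlinarith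
  have h0 : 0 ≤ ‖kw c s‖ := norm_nonneg _
  nlinarith

theorem norm_om {c s : ℝ} (h : c ^ 2 + s ^ 2 = 1) : ‖om c s‖ = 1 := by
  have h1 : ‖I * om c s‖ = 1 := by rw [I_mul_om]; exact norm_kw h
  simpa using h1

theorem re_kw_mul (c s t : ℝ) : (kw c s * (t : ℂ)).re = s * t := by
  rw [kw, Complex.re_mul_ofReal]
  simp

theorem norm_kw_mul {c s : ℝ} (h : c ^ 2 + s ^ 2 = 1) (t : ℝ) : ‖kw c s * (t : ℂ)‖ = |t| := by
  rw [norm_mul, norm_kw h, one_mul, Complex.norm_real, Real.norm_eq_abs]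

/-- the quadratic coefficient -/
noncomputable def Lam (β c s : ℝ) (σ : ℂ) : ℂ := om c s ^ 2 * (I + σ) / β
/-- the remainder -/
noncomputable def Rem (β c s : ℝ) (σ : ℂ) (t : ℝ) : ℂ :=
  (σ / β) * (cexp (kw c s * t) - 1 - kw c s * t - (kw c s * t) ^ 2 / 2)

/-- `Re Λ · β` -/
noncomputable def aq (c s x y : ℝ) : ℝ := (c ^ 2 - s ^ 2) * x + 2 * c * s * (1 + y)
/-- `Re (σ (i ω)^3)` -/
noncomputable def k3 (c s x y : ℝ) : ℝ := (s ^ 3 - 3 * s * c ^ 2) * x - (3 * s ^ 2 * c - c ^ 3) * y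

theorem Psi_line {β : ℝ} (hβ : 0 < β) (c s : ℝ) (σ : ℂ) (t : ℝ) :
    W.Psi σ (om c s * t) / β = -(Lam β c s σ / 2) * (t : ℂ) ^ 2 + Rem β c s σ t := by
  have hβ' : (β : ℂ) ≠ 0 := Complex.ofReal_ne_zero.2 hβ.ne'
  have e0 : I * (om c s * (t : ℂ)) = kw c s * t := by rw [← mul_assoc, I_mul_om]
  have e1 : om c s ^ 2 = -kw c s ^ 2 := by
    rw [← I_mul_om]
    linear_combination (om c s ^ 2) * Complex.I_sq
  rw [W.Psi, e0, Lam, Rem]
  have e2 : -(I * (om c s * (t : ℂ)) ^ 2 / 2) = -(om c s ^ 2 * I / 2) * (t : ℂ) ^ 2 := by ring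
  rw [e2, e1]
  field_simp
  ring

theorem re_Lam (β c s x y : ℝ) : (Lam β c s (x + y * I)).re = aq c s x y / β := by
  rw [Lam, Complex.div_ofReal_re, om, aq]
  congr 1
  simp [pow_two]
  ring

theorem norm_Lam {β c s : ℝ} (hβ : 0 < β) (h : c ^ 2 + s ^ 2 = 1) (σ : ℂ) : ‖Lam β c s σ‖ = ‖I + σ‖ / β := by
  rw [Lam, norm_div, norm_mul, norm_pow, norm_om h, one_pow, one_mul, Complex.norm_real, Real.norm_eq_abs,
    abs_of_pos hβ]

theorem continuous_Rem (β c s : ℝ) (σ : ℂ) : Continuous (Rem β c s σ) := by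
  unfold Rem
  fun_prop

/-- Taylor remainders on the right half of the segment -/
def PhB (c s T φ3 φ4 : ℝ) : Prop := ∀ t : ℝ, 0 ≤ t → t ≤ T →
  ‖cexp (kw c s * t) - 1 - kw c s * t - (kw c s * t) ^ 2 / 2‖ ≤ φ3 * t ^ 3 ∧
  ‖cexp (kw c s * t) - 1 - kw c s * t - (kw c s * t) ^ 2 / 2 - (kw c s * t) ^ 3 / 6‖ ≤ φ4 * t ^ 4

theorem phB_of {c s T X φ3 φ4 : ℝ} (hcs : c ^ 2 + s ^ 2 = 1) (hs : 0 ≤ s) (hX : 0 < X) (hT : s * T ≤ X)
    (h3 : Real.exp X - 1 - X - X ^ 2 / 2 ≤ φ3 * X ^ 3)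
    (h4 : Real.exp X - 1 - X - X ^ 2 / 2 - X ^ 3 / 6 ≤ φ4 * X ^ 4) : PhB c s T φ3 φ4 := by
  intro t ht0 ht
  have hre : (kw c s * (t : ℂ)).re ≤ X := by
    rw [re_kw_mul]
    exact (mul_le_mul_of_nonneg_left ht hs).trans hT
  have a3 := norm_exp_sub_sum_mul_le (kw c s * (t : ℂ)) 3 hX.le hre 1 (right_mem_Icc.2 zero_le_one)
  have a4 := norm_exp_sub_sum_mul_le (kw c s * (t : ℂ)) 4 hX.le hre 1 (right_mem_Icc.2 zero_le_one)
  rw [norm_kw_mul hcs, abs_of_nonneg ht0] at a3 a4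
  simp only [Complex.ofReal_one, one_mul, Finset.sum_range_succ, Finset.sum_range_zero, Nat.factorial, pow_zero,
    pow_one, zero_add, Nat.cast_one, div_one, mul_one, Nat.succ_eq_add_one] at a3 a4
  constructor
  · have e : cexp (kw c s * t) - 1 - kw c s * t - (kw c s * t) ^ 2 / 2 =
        cexp (kw c s * t) - (1 + kw c s * t + (kw c s * t) ^ 2 / ((1 + 1 : ℕ) : ℂ)) := by
      push_cast
      ring
    rw [e]
    have hX3 : 0 < X ^ 3 := by positivity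
    refine le_of_mul_le_mul_left ?_ hX3
    refine a3.trans ?_
    have : 0 ≤ t ^ 3 := by positivity
    push_cast
    nlinarith
  · have e : cexp (kw c s * t) - 1 - kw c s * t - (kw c s * t) ^ 2 / 2 - (kw c s * t) ^ 3 / 6 =
        cexp (kw c s * t) - (1 + kw c s * t + (kw c s * t) ^ 2 / ((1 + 1 : ℕ) : ℂ) +
          (kw c s * t) ^ 3 / (((2 + 1) * ((1 + 1) : ℕ) : ℕ) : ℂ)) := by
      push_cast
      ring
    rw [e]
    have hX3 : 0 < X ^ 4 := by positivity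
    refine le_of_mul_le_mul_left ?_ hX3
    refine le_trans ?_ (le_trans a4 ?_)
    · push_cast
      exact le_refl _
    · have : 0 ≤ t ^ 4 := by positivity
      push_cast
      nlinarith

theorem phB_hor (T : ℝ) : PhB 1 0 T (1 / 6) (1 / 24) := by
  intro t ht0 _
  have hre : Real.exp (kw 1 0 * (t : ℂ)).re ≤ 1 := by
    rw [re_kw_mul]; simp
  have a3 := norm_exp_sub_three_le (kw 1 0 * (t : ℂ)) le_rfl hre
  have a4 := norm_exp_sub_four_le (kw 1 0 * (t : ℂ)) le_rfl hre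
  rw [norm_kw_mul (by norm_num), abs_of_nonneg ht0] at a3 a4
  exact ⟨a3.trans (le_of_eq (by ring)), a4.trans (le_of_eq (by ring))⟩

private theorem nb3 {c s : ℝ} (hcs : c ^ 2 + s ^ 2 = 1) (hs : 0 ≤ s) (t : ℝ) (h0 : 0 ≤ t) :
    ‖cexp (kw c s * ((-t : ℝ) : ℂ)) - 1 - kw c s * ((-t : ℝ) : ℂ) - (kw c s * ((-t : ℝ) : ℂ)) ^ 2 / 2‖ ≤ t ^ 3 / 6 := by
  have h2 := norm_exp_sub_three_le (kw c s * ((-t : ℝ) : ℂ)) (M := 1) le_rfl
    (Real.exp_le_one_iff.2 (by rw [re_kw_mul]; nlinarith))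
  rw [norm_kw_mul hcs, abs_neg, abs_of_nonneg h0, one_mul] at h2
  exact h2

private theorem nb4 {c s : ℝ} (hcs : c ^ 2 + s ^ 2 = 1) (hs : 0 ≤ s) (t : ℝ) (h0 : 0 ≤ t) :
    ‖cexp (kw c s * ((-t : ℝ) : ℂ)) - 1 - kw c s * ((-t : ℝ) : ℂ) - (kw c s * ((-t : ℝ) : ℂ)) ^ 2 / 2 -
      (kw c s * ((-t : ℝ) : ℂ)) ^ 3 / 6‖ ≤ t ^ 4 / 24 := by
  have h2 := norm_exp_sub_four_le (kw c s * ((-t : ℝ) : ℂ)) (M := 1) le_rfl
    (Real.exp_le_one_iff.2 (by rw [re_kw_mul]; nlinarith))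
  rw [norm_kw_mul hcs, abs_neg, abs_of_nonneg h0, one_mul] at h2
  exact h2

theorem re_cube {β : ℝ} (c s x y t : ℝ) :
    ((x + y * I : ℂ) * kw c s ^ 3 / (6 * β) * (t : ℂ) ^ 3).re = k3 c s x y * (t ^ 3 / (6 * β)) := by
  have e1 : ((x + y * I : ℂ) * kw c s ^ 3 / (6 * β) * (t : ℂ) ^ 3) =
      ((x + y * I : ℂ) * kw c s ^ 3) * ((t ^ 3 / (6 * β) : ℝ) : ℂ) := by push_cast; ring
  rw [e1, Complex.re_mul_ofReal]
  congr 1
  rw [kw, k3]
  have e2 : ((s : ℂ) + c * I) ^ 3 = ((s ^ 3 - 3 * s * c ^ 2 : ℝ) : ℂ) + ((3 * s ^ 2 * c - c ^ 3 : ℝ) : ℂ) * I := by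
    push_cast
    linear_combination (3 * (s : ℂ) * c ^ 2 + (c : ℂ) ^ 3 * I) * Complex.I_sq
  rw [e2]
  generalize s ^ 3 - 3 * s * c ^ 2 = A
  generalize 3 * s ^ 2 * c - c ^ 3 = B
  simp
  ring

/-- the central piece -/
theorem central {β c s x y T φ3 φ4 cL cR : ℝ} (hβ : 0 < β) (hcs : c ^ 2 + s ^ 2 = 1) (hs : 0 ≤ s)
    (hT : 0 < T) (ha : 0 < aq c s x y) (hφ : PhB c s T φ3 φ4) (hφ4 : 0 ≤ φ4)
    (hcL : 0 < cL) (hcL1 : cL ≤ 1) (hcR : 0 < cR) (hcR1 : cR ≤ 1)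
    (hL : -(k3 c s x y) * T / 3 + ‖(x + y * I : ℂ)‖ * T ^ 2 / 12 ≤ (1 - cL) * aq c s x y)
    (hR : k3 c s x y * T / 3 + 2 * φ4 * ‖(x + y * I : ℂ)‖ * T ^ 2 ≤ (1 - cR) * aq c s x y) :
    ‖(∫ t in (-T)..T, cexp (W.Psi (x + y * I) (om c s * t) / β)) - (2 * Real.pi / Lam β c s (x + y * I)) ^ (1 / 2 : ℂ)‖ ≤
      3 / 2 * Real.sqrt (2 * Real.pi) * (‖(x + y * I : ℂ)‖ / β / 24 + ‖(x + y * I : ℂ)‖ / β * φ4) /
        ((aq c s x y / β) ^ 2 * Real.sqrt (aq c s x y / β)) +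
      (15 / 4 * Real.sqrt (2 * Real.pi) * (‖(x + y * I : ℂ)‖ / β / 6) ^ 2 /
          ((cL * (aq c s x y / β)) ^ 3 * Real.sqrt (cL * (aq c s x y / β))) +
      15 / 4 * Real.sqrt (2 * Real.pi) * (‖(x + y * I : ℂ)‖ / β * φ3) ^ 2 /
          ((cR * (aq c s x y / β)) ^ 3 * Real.sqrt (cR * (aq c s x y / β)))) +
      2 * (Real.exp (-((aq c s x y / β) / 2) * T ^ 2) / ((aq c s x y / β) * T)) := by
  have hLre : (Lam β c s (x + y * I)).re = aq c s x y / β := re_Lam β c s x y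
  have hApos : 0 < aq c s x y / β := by positivity
  have hLpos : 0 < (Lam β c s (x + y * I)).re := by rw [hLre]; exact hApos
  have hn : ‖(x + y * I : ℂ) / (β : ℂ)‖ = ‖(x + y * I : ℂ)‖ / β := by
    rw [norm_div, Complex.norm_real, Real.norm_eq_abs, abs_of_pos hβ]
  have hβ' : (β : ℂ) ≠ 0 := Complex.ofReal_ne_zero.2 hβ.ne'
  have hcong : (∫ t in (-T)..T, cexp (W.Psi (x + y * I) (om c s * t) / β)) =
      ∫ t in (-T)..T, cexp (-(Lam β c s (x + y * I) / 2) * (t : ℂ) ^ 2 + Rem β c s (x + y * I) t) := by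
    refine intervalIntegral.integral_congr (fun t _ => ?_)
    rw [Psi_line hβ]
  have hN0 : 0 ≤ ‖(x + y * I : ℂ)‖ / β := by positivity
  have e4 : ∀ t : ℝ, Rem β c s (x + y * I) t - ((x + y * I : ℂ) * kw c s ^ 3 / (6 * β)) * (t : ℂ) ^ 3 =
      ((x + y * I : ℂ) / β) * (cexp (kw c s * t) - 1 - kw c s * t - (kw c s * t) ^ 2 / 2 - (kw c s * t) ^ 3 / 6) := by
    intro t
    rw [Rem]
    field_simp
  have b4L : ∀ t : ℝ, 0 ≤ t → t ≤ T →
      ‖Rem β c s (x + y * I) (-t) - ((x + y * I : ℂ) * kw c s ^ 3 / (6 * β)) * ((-t : ℝ) : ℂ) ^ 3‖ ≤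
        (‖(x + y * I : ℂ)‖ / β / 24) * t ^ 4 := by
    intro t h0 _
    rw [e4, norm_mul, hn]
    calc _ ≤ ‖(x + y * I : ℂ)‖ / β * (t ^ 4 / 24) := mul_le_mul_of_nonneg_left (nb4 hcs hs t h0) hN0
      _ = _ := by ring
  have b4R : ∀ t : ℝ, 0 ≤ t → t ≤ T →
      ‖Rem β c s (x + y * I) t - ((x + y * I : ℂ) * kw c s ^ 3 / (6 * β)) * (t : ℂ) ^ 3‖ ≤
        (‖(x + y * I : ℂ)‖ / β * φ4) * t ^ 4 := by
    intro t h0 ht
    rw [e4, norm_mul, hn]
    calc _ ≤ ‖(x + y * I : ℂ)‖ / β * (φ4 * t ^ 4) := mul_le_mul_of_nonneg_left (hφ t h0 ht).2 hN0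
      _ = _ := by ring
  rw [hcong]
  have h := laplace_segment2 (Λ := Lam β c s (x + y * I)) (K := (x + y * I : ℂ) * kw c s ^ 3 / (6 * β))
    (cL := cL) (cR := cR) (M3L := ‖(x + y * I : ℂ)‖ / β / 6)
    (M3R := ‖(x + y * I : ℂ)‖ / β * φ3) (M4L := ‖(x + y * I : ℂ)‖ / β / 24)
    (M4R := ‖(x + y * I : ℂ)‖ / β * φ4) (T := T) (R := Rem β c s (x + y * I)) hLpos
    hcL hcL1 hcR hcR1 hT (by positivity) (by positivity)
    (continuous_Rem _ _ _ _) b4L b4R ?_ ?_ ?_ ?_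
  · rw [hLre] at h
    exact h
  · intro t h0 _
    rw [Rem, norm_mul, hn]
    calc _ ≤ ‖(x + y * I : ℂ)‖ / β * (t ^ 3 / 6) := mul_le_mul_of_nonneg_left (nb3 hcs hs t h0) hN0
      _ = _ := by ring
  · intro t h0 ht
    rw [Rem, norm_mul, hn]
    calc _ ≤ ‖(x + y * I : ℂ)‖ / β * (φ3 * t ^ 3) := mul_le_mul_of_nonneg_left (hφ t h0 ht).1 hN0
      _ = _ := by ring
  · intro t h0 ht
    rw [hLre]
    have h4 := (Complex.re_le_norm _).trans (b4L t h0 ht)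
    rw [Complex.sub_re, re_cube] at h4
    have e5 : (-t) ^ 3 = -t ^ 3 := by ring
    rw [e5] at h4
    have h5 : -(k3 c s x y) * t / 3 + ‖(x + y * I : ℂ)‖ * t ^ 2 / 12 ≤ (1 - cL) * aq c s x y := by
      rcases le_or_gt 0 (-(k3 c s x y)) with h6 | h6
      · have h7 : -(k3 c s x y) * t ≤ -(k3 c s x y) * T := mul_le_mul_of_nonneg_left ht h6
        have h8 : t ^ 2 ≤ T ^ 2 := pow_le_pow_left₀ h0 ht 2
        have h9 := mul_le_mul_of_nonneg_left h8 (norm_nonneg (x + y * I : ℂ))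
        linarith
      · have h10 : -(k3 c s x y) * t / 3 + ‖(x + y * I : ℂ)‖ * t ^ 2 / 12 ≤
            (t / T) * (-(k3 c s x y) * T / 3 + ‖(x + y * I : ℂ)‖ * T ^ 2 / 12) := by
          have e6 : (t / T) * (-(k3 c s x y) * T / 3 + ‖(x + y * I : ℂ)‖ * T ^ 2 / 12) =
              -(k3 c s x y) * t / 3 + ‖(x + y * I : ℂ)‖ * (t * T) / 12 := by field_simp
          rw [e6]
          have h8 : t ^ 2 ≤ t * T := by nlinarith
          have h9 := mul_le_mul_of_nonneg_left h8 (norm_nonneg (x + y * I : ℂ))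
          linarith
        have h11 : 0 ≤ t / T := by positivity
        have h12 : t / T ≤ 1 := (div_le_one hT).2 ht
        have h13 : 0 ≤ (1 - cL) * aq c s x y := mul_nonneg (by linarith) ha.le
        nlinarith [mul_le_mul_of_nonneg_left hL h11]
    have h6 : (Rem β c s (x + y * I) (-t)).re ≤
        (-(k3 c s x y) * t / 3 + ‖(x + y * I : ℂ)‖ * t ^ 2 / 12) * (t ^ 2 / (2 * β)) := by
      have e7 : (-(k3 c s x y) * t / 3 + ‖(x + y * I : ℂ)‖ * t ^ 2 / 12) * (t ^ 2 / (2 * β)) =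
          ‖(x + y * I : ℂ)‖ / β / 24 * t ^ 4 + k3 c s x y * (-t ^ 3 / (6 * β)) := by
        field_simp
        ring
      rw [e7]
      linarith
    refine h6.trans ?_
    have h7 : 0 ≤ t ^ 2 / (2 * β) := by positivity
    refine (mul_le_mul_of_nonneg_right h5 h7).trans (le_of_eq ?_)
    field_simp
  · intro t h0 ht
    rw [hLre]
    have h4 := (Complex.re_le_norm _).trans (b4R t h0 ht)
    rw [Complex.sub_re, re_cube] at h4
    have h5 : k3 c s x y * t / 3 + 2 * φ4 * ‖(x + y * I : ℂ)‖ * t ^ 2 ≤ (1 - cR) * aq c s x y := by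
      rcases le_or_gt 0 (k3 c s x y) with h6 | h6
      · have h7 : k3 c s x y * t ≤ k3 c s x y * T := mul_le_mul_of_nonneg_left ht h6
        have h8 : t ^ 2 ≤ T ^ 2 := pow_le_pow_left₀ h0 ht 2
        have h9 := mul_le_mul_of_nonneg_left h8 (mul_nonneg (mul_nonneg zero_le_two hφ4) (norm_nonneg (x + y * I : ℂ)))
        linarith
      · have h10 : k3 c s x y * t / 3 + 2 * φ4 * ‖(x + y * I : ℂ)‖ * t ^ 2 ≤
            (t / T) * (k3 c s x y * T / 3 + 2 * φ4 * ‖(x + y * I : ℂ)‖ * T ^ 2) := by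
          have e6 : (t / T) * (k3 c s x y * T / 3 + 2 * φ4 * ‖(x + y * I : ℂ)‖ * T ^ 2) =
              k3 c s x y * t / 3 + 2 * φ4 * ‖(x + y * I : ℂ)‖ * (t * T) := by field_simp
          rw [e6]
          have h8 : t ^ 2 ≤ t * T := by nlinarith
          have h9 := mul_le_mul_of_nonneg_left h8 (mul_nonneg (mul_nonneg zero_le_two hφ4) (norm_nonneg (x + y * I : ℂ)))
          linarith
        have h11 : 0 ≤ t / T := by positivity
        have h12 : t / T ≤ 1 := (div_le_one hT).2 ht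
        have h13 : 0 ≤ (1 - cR) * aq c s x y := mul_nonneg (by linarith) ha.le
        nlinarith [mul_le_mul_of_nonneg_left hR h11]
    have h6 : (Rem β c s (x + y * I) t).re ≤
        (k3 c s x y * t / 3 + 2 * φ4 * ‖(x + y * I : ℂ)‖ * t ^ 2) * (t ^ 2 / (2 * β)) := by
      have e7 : (k3 c s x y * t / 3 + 2 * φ4 * ‖(x + y * I : ℂ)‖ * t ^ 2) * (t ^ 2 / (2 * β)) =
          ‖(x + y * I : ℂ)‖ / β * φ4 * t ^ 4 + k3 c s x y * (t ^ 3 / (6 * β)) := by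
        field_simp
        ring
      rw [e7]
      linarith
    refine h6.trans ?_
    have h7 : 0 ≤ t ^ 2 / (2 * β) := by positivity
    refine (mul_le_mul_of_nonneg_right h5 h7).trans (le_of_eq ?_)
    field_simp

end Sok.N1
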