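import Mathlib
import Pool.Agent.Lib.MP_816dec_an.N1A

/-!
MP_816dec_an, row N1, part B: the path through the saddle and the modulus of the window function.
-/

set_option autoImplicit false

open Complex Set Filter Topology MeasureTheory

namespace Sok.N1

open Sok.Mid

theorem inVp (t : ℝ) : InV t 0 Real.pi := by
  have := inV_center t 0
  simpa using this

theorem inVn (t : ℝ) : InV t (-1) (-Real.pi) := by
  have := inV_center t (-1)
  have e1 : (2 * ((-1 : ℤ) : ℝ) + 1) * Real.pi = -Real.pi := by push_cast; ring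
  rwa [e1] at this

/-- the remainder of the path -/
noncomputable def Tail (β r t a y c s T : ℝ) : ℝ :=
  Leg β r t (-Real.pi) (y + s * T) + Hor β r t (-Real.pi) (a - c * T) (y + s * T) +
    Hor β r t (a + c * T) Real.pi (y - s * T) + Leg β r t Real.pi (y - s * T)

theorem path {β r t a y c s T : ℝ} (h : Sad β r t a y) (hL : -Real.pi ≤ a - c * T) (hR : a + c * T ≤ Real.pi) :
    ‖cF β * AA β r t - om c s * (gs β r t (a + y * I) *
      ∫ x in (-T)..T, cexp (W.Psi (Lx t a y) (om c s * x) / β))‖ ≤ Tail β r t a y c s T := by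
  have hβ := h.hβ
  have hr := h.hr
  obtain ⟨P, hP⟩ := exists_prim (gs_diff β r t)
  obtain ⟨V, lL, lR, hV, -⟩ := exists_vals hβ hr hP
  have e1 := hV.AA0 hβ hr hP
  have e2 := hV.leg hβ hr hP (inVn t) (y + s * T)
  have e3 := hV.leg hβ hr hP (inVp t) (y - s * T)
  have e4 := prim_hor (gs_diff β r t) hP (-Real.pi) (a - c * T) (y + s * T)
  have e5 := prim_hor (gs_diff β r t) hP (a + c * T) Real.pi (y - s * T)
  have e6 := prim_line (gs_diff β r t) hP ((a : ℂ) + y * I) (om c s) (-T) T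
  have e7 : ∀ x : ℝ, gs β r t ((a : ℂ) + y * I + x * om c s) =
      gs β r t (a + y * I) * cexp (W.Psi (Lx t a y) (om c s * x) / β) := by
    intro x
    rw [h.gs_add, mul_comm (x : ℂ)]
  simp only [e7] at e6
  rw [intervalIntegral.integral_const_mul] at e6
  have f1 : (a : ℂ) + y * I + ((T : ℝ) : ℂ) * om c s = ((a + c * T : ℝ) : ℂ) + ((y - s * T : ℝ) : ℂ) * I := by
    unfold om; push_cast; ring
  have f2 : (a : ℂ) + y * I + ((-T : ℝ) : ℂ) * om c s = ((a - c * T : ℝ) : ℂ) + ((y + s * T : ℝ) : ℂ) * I := by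
    unfold om; push_cast; ring
  rw [f1, f2] at e6
  have e8 : cF β * AA β r t - om c s * (gs β r t (a + y * I) *
      ∫ x in (-T)..T, cexp (W.Psi (Lx t a y) (om c s * x) / β)) =
      I * (∫ Y in Iic (y + s * T), gs β r t ((-Real.pi : ℝ) + Y * I)) +
      (∫ X in (-Real.pi)..(a - c * T), gs β r t (X + ((y + s * T : ℝ) : ℂ) * I)) +
      (∫ X in (a + c * T)..Real.pi, gs β r t (X + ((y - s * T : ℝ) : ℂ) * I)) -
      I * ∫ Y in Iic (y - s * T), gs β r t ((Real.pi : ℝ) + Y * I) := by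
    rw [← e1, e6, e2, e3, e4, e5]
    ring
  rw [e8]
  unfold Tail
  refine (norm_sub_le _ _).trans (add_le_add ((norm_add₃_le).trans (add_le_add (add_le_add ?_ ?_) ?_)) ?_)
  · rw [norm_mul, Complex.norm_I, one_mul]; exact leg_norm_le _ _ _ _ _
  · exact hor_norm_le _ _ _ _ hL
  · exact hor_norm_le _ _ _ _ hR
  · rw [norm_mul, Complex.norm_I, one_mul]; exact leg_norm_le _ _ _ _ _

theorem norm_half (a : ℂ) : ‖a ^ (1 / 2 : ℂ)‖ = Real.sqrt ‖a‖ := by
  have h0 : (a ^ (1 / 2 : ℂ)) ^ 2 = a := by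
    rw [← Complex.cpow_nat_mul]
    norm_num
  have h := congrArg norm h0
  rw [norm_pow] at h
  rw [← h, Real.sqrt_sq (norm_nonneg _)]

/-- `|D|` -/
noncomputable def nD (x y : ℝ) : ℝ := Real.sqrt (x ^ 2 + (1 + y) ^ 2)
/-- `|σ|` -/
noncomputable def nS (x y : ℝ) : ℝ := Real.sqrt (x ^ 2 + y ^ 2)

theorem norm_Dx (x y : ℝ) : ‖I + (x + y * I : ℂ)‖ = nD x y := by
  rw [Complex.norm_def, Complex.normSq_apply, nD]
  congr 1
  simp
  ring

theorem norm_xy (x y : ℝ) : ‖(x + y * I : ℂ)‖ = nS x y := by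
  rw [Complex.norm_def, Complex.normSq_apply, nS]
  congr 1
  simp
  ring

theorem nD_pos {x y : ℝ} (hy : -1 < y) : 0 < nD x y := by
  unfold nD
  apply Real.sqrt_pos.2
  have : 0 < (1 + y) ^ 2 := by
    have : 0 < 1 + y := by linarith
    positivity
  positivity

/-- the error of the central piece, times `sqrt (|D| / (2 π β))` -/
noncomputable def epsC (β c s x y T φ3 φ4 cL cR : ℝ) : ℝ :=
  Real.sqrt (nD x y / aq c s x y) *
    ((3 / 2 * (nS x y / aq c s x y) * (1 / 24 + φ4) +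
      15 / 4 * (nS x y / aq c s x y) ^ 2 * ((1 / 6) ^ 2 / (cL ^ 3 * Real.sqrt cL) + φ3 ^ 2 / (cR ^ 3 * Real.sqrt cR))) /
        (aq c s x y / β) +
      2 * Real.exp (-((aq c s x y / β) / 2) * T ^ 2) / (Real.sqrt (2 * Real.pi * (aq c s x y / β)) * T))

private theorem alg {S A n φ3 φ4 cL cR T E q sL sR : ℝ} (hq : 0 < q) (hqA : q ^ 2 = A) (hcL : 0 < cL) (hcR : 0 < cR)
    (hsL : 0 < sL) (hsR : 0 < sR) (hS : 0 < S) (hT : 0 < T) :
    q / S * (3 / 2 * S * (n / 24 + n * φ4) / (A ^ 2 * q) +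
      (15 / 4 * S * (n / 6) ^ 2 / ((cL * A) ^ 3 * (sL * q)) + 15 / 4 * S * (n * φ3) ^ 2 / ((cR * A) ^ 3 * (sR * q))) +
      2 * (E / (A * T))) =
    (3 / 2 * (n / A) * (1 / 24 + φ4) + 15 / 4 * (n / A) ^ 2 * ((1 / 6) ^ 2 / (cL ^ 3 * sL) + φ3 ^ 2 / (cR ^ 3 * sR))) / A +
      2 * E / (S * q * T) := by
  rw [← hqA]
  field_simp

theorem value {β r t a y c s T φ3 φ4 cL cR : ℝ} (h : Sad β r t a y) (hcs : c ^ 2 + s ^ 2 = 1) (hs : 0 ≤ s)
    (hy : -1 < y) (hpL : -Real.pi ≤ a - c * T) (hpR : a + c * T ≤ Real.pi)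
    (hT : 0 < T) (ha : 0 < aq c s (a - t) y) (hφ : PhB c s T φ3 φ4) (hφ4 : 0 ≤ φ4)
    (hcL : 0 < cL) (hcL1 : cL ≤ 1) (hcR : 0 < cR) (hcR1 : cR ≤ 1)
    (hL : -(k3 c s (a - t) y) * T / 3 + nS (a - t) y * T ^ 2 / 12 ≤ (1 - cL) * aq c s (a - t) y)
    (hR : k3 c s (a - t) y * T / 3 + 2 * φ4 * nS (a - t) y * T ^ 2 ≤ (1 - cR) * aq c s (a - t) y) :
    |‖AA β r t‖ * Real.sqrt (nD (a - t) y) * Real.exp (-((a - t) * (1 + y) / β)) - 1| ≤
      epsC β c s (a - t) y T φ3 φ4 cL cR +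
        Real.sqrt (nD (a - t) y / (2 * Real.pi * β)) * Real.exp (-((a - t) * (1 + y) / β)) * Tail β r t a y c s T := by
  have hβ := h.hβ
  have hpi := Real.pi_pos
  obtain ⟨x, hx⟩ : ∃ x : ℝ, x = a - t := ⟨_, rfl⟩
  rw [← hx] at ha hL hR ⊢
  have hLx : Lx t a y = (x + y * I : ℂ) := by rw [hx]; rfl
  have hcen := central (β := β) hβ hcs hs hT ha hφ hφ4 hcL hcL1 hcR hcR1 (by rw [norm_xy]; exact hL)
    (by rw [norm_xy]; exact hR)
  rw [norm_xy] at hcen
  have hpath := path (c := c) (s := s) (T := T) h hpL hpR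
  rw [hLx] at hpath
  obtain ⟨J, hJ⟩ : ∃ J : ℂ, J = ∫ x' in (-T)..T, cexp (W.Psi (x + y * I) (om c s * x') / β) := ⟨_, rfl⟩
  rw [← hJ] at hpath hcen
  have hD := nD_pos (x := x) hy
  have hA : 0 < aq c s x y / β := by positivity
  -- the main term
  have hLam : Lam β c s (x + y * I) ≠ 0 := by
    intro h0
    have := re_Lam β c s x y
    rw [h0] at this
    simp at this
    rw [← this] at hA
    exact lt_irrefl _ hA
  have hM0 : (2 * (Real.pi : ℂ) / Lam β c s (x + y * I)) ≠ 0 := by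
    apply div_ne_zero _ hLam
    have : (Real.pi : ℂ) ≠ 0 := Complex.ofReal_ne_zero.2 hpi.ne'
    simp [this]
  have hM : ‖(2 * (Real.pi : ℂ) / Lam β c s (x + y * I)) ^ (1 / 2 : ℂ)‖ = Real.sqrt (2 * Real.pi * β / nD x y) := by
    rw [norm_half, norm_div, norm_Lam hβ hcs, norm_Dx]
    have e : ‖(2 * (Real.pi : ℂ))‖ = 2 * Real.pi := by
      rw [norm_mul, Complex.norm_real, Real.norm_eq_abs, abs_of_pos hpi]
      simp
    rw [e]
    congr 1
    field_simp
  obtain ⟨M, hMd⟩ : ∃ M : ℂ, M = (2 * (Real.pi : ℂ) / Lam β c s (x + y * I)) ^ (1 / 2 : ℂ) := ⟨_, rfl⟩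
  rw [← hMd] at hM hcen
  obtain ⟨E1, hE1⟩ : ∃ E1 : ℝ, E1 = 3 / 2 * Real.sqrt (2 * Real.pi) * (nS x y / β / 24 + nS x y / β * φ4) /
        ((aq c s x y / β) ^ 2 * Real.sqrt (aq c s x y / β)) +
      (15 / 4 * Real.sqrt (2 * Real.pi) * (nS x y / β / 6) ^ 2 /
          ((cL * (aq c s x y / β)) ^ 3 * Real.sqrt (cL * (aq c s x y / β))) +
      15 / 4 * Real.sqrt (2 * Real.pi) * (nS x y / β * φ3) ^ 2 /
          ((cR * (aq c s x y / β)) ^ 3 * Real.sqrt (cR * (aq c s x y / β)))) +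
      2 * (Real.exp (-((aq c s x y / β) / 2) * T ^ 2) / ((aq c s x y / β) * T)) := ⟨_, rfl⟩
  rw [← hE1] at hcen
  have hg : ‖gs β r t (a + y * I)‖ = Real.exp (x * (1 + y) / β) := by rw [h.norm_gs, hx]
  obtain ⟨G, hG⟩ : ∃ G : ℂ, G = gs β r t (a + y * I) := ⟨_, rfl⟩
  rw [← hG] at hg hpath
  have hom := norm_om hcs
  have h1 : |‖J‖ - ‖M‖| ≤ E1 := (abs_norm_sub_norm_le J M).trans hcen
  have h2 : |‖cF β * AA β r t‖ - ‖om c s * (G * J)‖| ≤ Tail β r t a y c s T :=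
    (abs_norm_sub_norm_le _ _).trans hpath
  rw [norm_mul, norm_mul, hom, one_mul, norm_mul, hg, norm_cF] at h2
  have hgp := Real.exp_pos (x * (1 + y) / β)
  have h3 : |Real.sqrt (2 * Real.pi * β) * ‖AA β r t‖ - Real.exp (x * (1 + y) / β) * Real.sqrt (2 * Real.pi * β / nD x y)| ≤
      Tail β r t a y c s T + Real.exp (x * (1 + y) / β) * E1 := by
    have e1 : Real.sqrt (2 * Real.pi * β) * ‖AA β r t‖ - Real.exp (x * (1 + y) / β) * Real.sqrt (2 * Real.pi * β / nD x y) =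
        (Real.sqrt (2 * Real.pi * β) * ‖AA β r t‖ - Real.exp (x * (1 + y) / β) * ‖J‖) +
          Real.exp (x * (1 + y) / β) * (‖J‖ - ‖M‖) := by rw [← hM]; ring
    rw [e1]
    refine (abs_add_le _ _).trans (add_le_add h2 ?_)
    rw [abs_mul, abs_of_pos hgp]
    exact mul_le_mul_of_nonneg_left h1 hgp.le
  -- multiply by the inverse of the main term
  obtain ⟨K, hK⟩ : ∃ K : ℝ, K = Real.sqrt (nD x y / (2 * Real.pi * β)) * Real.exp (-(x * (1 + y) / β)) := ⟨_, rfl⟩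
  have hK0 : 0 < K := by rw [hK]; positivity
  have h2pb : 0 < 2 * Real.pi * β := by positivity
  have e2 : Real.sqrt (nD x y / (2 * Real.pi * β)) * Real.sqrt (2 * Real.pi * β) = Real.sqrt (nD x y) := by
    rw [← Real.sqrt_mul (by positivity)]
    congr 1
    field_simp
  have e3 : Real.sqrt (nD x y / (2 * Real.pi * β)) * Real.sqrt (2 * Real.pi * β / nD x y) = 1 := by
    rw [← Real.sqrt_mul (by positivity)]
    have : nD x y / (2 * Real.pi * β) * (2 * Real.pi * β / nD x y) = 1 := by field_simp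
    rw [this, Real.sqrt_one]
  have e4 : Real.exp (-(x * (1 + y) / β)) * Real.exp (x * (1 + y) / β) = 1 := by
    rw [← Real.exp_add, neg_add_cancel, Real.exp_zero]
  have e5 : ‖AA β r t‖ * Real.sqrt (nD x y) * Real.exp (-(x * (1 + y) / β)) - 1 =
      K * (Real.sqrt (2 * Real.pi * β) * ‖AA β r t‖ - Real.exp (x * (1 + y) / β) * Real.sqrt (2 * Real.pi * β / nD x y)) := by
    rw [hK, mul_sub]
    congr 1
    · rw [← e2]; ring
    · calc (1 : ℝ) = (Real.sqrt (nD x y / (2 * Real.pi * β)) * Real.sqrt (2 * Real.pi * β / nD x y)) *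
          (Real.exp (-(x * (1 + y) / β)) * Real.exp (x * (1 + y) / β)) := by rw [e3, e4, one_mul]
        _ = _ := by ring
  rw [e5, abs_mul, abs_of_pos hK0]
  refine (mul_le_mul_of_nonneg_left h3 hK0.le).trans (le_of_eq ?_)
  rw [mul_add, add_comm]
  have e9 : K * Tail β r t a y c s T = Real.sqrt (nD x y / (2 * Real.pi * β)) * Real.exp (-(x * (1 + y) / β)) *
      Tail β r t a y c s T := by rw [hK]
  rw [e9]
  congr 1
  -- the central error
  have e6 : K * (Real.exp (x * (1 + y) / β) * E1) = Real.sqrt (nD x y / (2 * Real.pi * β)) * E1 := by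
    rw [hK]
    calc _ = Real.sqrt (nD x y / (2 * Real.pi * β)) * E1 *
        (Real.exp (-(x * (1 + y) / β)) * Real.exp (x * (1 + y) / β)) := by ring
      _ = _ := by rw [e4, mul_one]
  rw [e6]
  have e7 : Real.sqrt (nD x y / (2 * Real.pi * β)) = Real.sqrt (nD x y / aq c s x y) *
      (Real.sqrt (aq c s x y / β) / Real.sqrt (2 * Real.pi)) := by
    rw [← Real.sqrt_div (by positivity), ← Real.sqrt_mul (by positivity)]
    congr 1
    field_simp
  have hn : nS x y / β = nS x y / aq c s x y * (aq c s x y / β) := by field_simp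
  rw [e7, mul_assoc, epsC]
  congr 1
  rw [hE1, Real.sqrt_mul hcL.le, Real.sqrt_mul hcR.le, Real.sqrt_mul (by positivity : (0:ℝ) ≤ 2 * Real.pi)]
  have hq : 0 < Real.sqrt (aq c s x y / β) := Real.sqrt_pos.2 hA
  have := alg (S := Real.sqrt (2 * Real.pi)) (A := aq c s x y / β) (n := nS x y / β) (φ3 := φ3) (φ4 := φ4) (cL := cL)
    (cR := cR) (T := T) (E := Real.exp (-((aq c s x y / β) / 2) * T ^ 2)) (q := Real.sqrt (aq c s x y / β))
    (sL := Real.sqrt cL) (sR := Real.sqrt cR) hq (Real.sq_sqrt hA.le) hcL hcR (Real.sqrt_pos.2 hcL)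
    (Real.sqrt_pos.2 hcR) (Real.sqrt_pos.2 (by positivity)) hT
  rw [this]
  have e8 : nS x y / β / (aq c s x y / β) = nS x y / aq c s x y := by field_simp
  rw [e8]

end Sok.N1
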