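import Mathlib
import Pool.Agent.Lib.MP_816dec_an.N1B

/-!
MP_816dec_an, row N1, part C: tails of the path.
-/

set_option autoImplicit false

open Complex Set Filter Topology MeasureTheory

namespace Sok.N1

open Sok.Mid

private theorem cos_tangent {u v : ℝ} (hu : 0 ≤ u) (huv : u ≤ v) (hv : v ≤ Real.pi / 2) :
    Real.cos v ≤ Real.cos u - Real.sin u * (v - u) := by
  have hpi := Real.pi_pos
  have h1 : ∀ z ∈ Icc u v, HasDerivWithinAt (fun z => Real.cos u - Real.sin u * (z - u) - Real.cos z)
      (Real.sin z - Real.sin u) (Icc u v) z := by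
    intro z _
    have h2 : HasDerivAt (fun z : ℝ => Real.sin u * (z - u)) (Real.sin u) z := by
      have := ((hasDerivAt_id z).sub_const u).const_mul (Real.sin u)
      simpa using this
    have h3 := ((h2.const_sub (Real.cos u)).sub (Real.hasDerivAt_cos z))
    refine (h3.congr_deriv ?_).hasDerivWithinAt
    ring
  have h4 : MonotoneOn (fun z => Real.cos u - Real.sin u * (z - u) - Real.cos z) (Icc u v) := by
    refine monotoneOn_of_hasDerivWithinAt_nonneg (convex_Icc u v) (fun z hz => (h1 z hz).continuousWithinAt)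
      (f' := fun z => Real.sin z - Real.sin u) (fun z hz => ?_) (fun z hz => ?_)
    · rw [interior_Icc] at hz ⊢
      exact (h1 z ⟨hz.1.le, hz.2.le⟩).mono Ioo_subset_Icc_self
    · rw [interior_Icc] at hz
      have := Real.sin_le_sin_of_le_of_le_pi_div_two (x := u) (y := z) (by linarith) (by linarith [hz.2]) hz.1.le
      linarith
  have h5 := h4 (left_mem_Icc.2 huv) (right_mem_Icc.2 huv) huv
  simp only [sub_self, mul_zero, sub_zero] at h5
  linarith

private theorem cos_chord {u v m : ℝ} (hu : Real.pi / 2 ≤ u) (huv : u ≤ v) (hv : v ≤ Real.pi)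
    (hm : m * (Real.pi - u) ≤ 1 + Real.cos u) : Real.cos v ≤ Real.cos u - m * (v - u) := by
  have hpi := Real.pi_pos
  rcases eq_or_lt_of_le (huv.trans hv) with h | h
  · have e1 : v = u := le_antisymm (by rw [h]; exact hv) huv
    rw [e1]; simp
  obtain ⟨ψ, hψ⟩ : ∃ ψ : ℝ, ψ = Real.pi - v := ⟨_, rfl⟩
  obtain ⟨ψ0, hψ0⟩ : ∃ ψ0 : ℝ, ψ0 = Real.pi - u := ⟨_, rfl⟩
  have hp0 : 0 < ψ0 := by rw [hψ0]; linarith
  have hp : 0 ≤ ψ := by rw [hψ]; linarith
  have hpp : ψ ≤ ψ0 := by rw [hψ, hψ0]; linarith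
  have e2 : Real.cos v = -Real.cos ψ := by rw [hψ, Real.cos_pi_sub, neg_neg]
  have e3 : Real.cos u = -Real.cos ψ0 := by rw [hψ0, Real.cos_pi_sub, neg_neg]
  have hc := strictConcaveOn_cos_Icc.concaveOn
  have hm0 : (0:ℝ) ∈ Icc (-(Real.pi / 2)) (Real.pi / 2) := ⟨by linarith, by linarith⟩
  have hm1 : ψ0 ∈ Icc (-(Real.pi / 2)) (Real.pi / 2) := ⟨by linarith, by rw [hψ0]; linarith⟩
  have ha0 : (0:ℝ) ≤ 1 - ψ / ψ0 := by rw [sub_nonneg, div_le_one hp0]; exact hpp
  have hb0 : (0:ℝ) ≤ ψ / ψ0 := by positivity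
  have h1 := hc.2 hm0 hm1 ha0 hb0 (by ring)
  simp only [smul_eq_mul, mul_zero, zero_add, Real.cos_zero, mul_one] at h1
  have e4 : ψ / ψ0 * ψ0 = ψ := by field_simp
  rw [e4] at h1
  rw [← hψ0, e3] at hm
  rw [e2, e3]
  have h2 : m * (v - u) ≤ (1 - ψ / ψ0) * (1 - Real.cos ψ0) := by
    have h3 : v - u = (1 - ψ / ψ0) * ψ0 := by field_simp; rw [hψ, hψ0]; ring
    rw [h3]
    have h4 : 0 ≤ 1 - ψ / ψ0 := by rw [sub_nonneg, div_le_one hp0]; exact hpp
    nlinarith [mul_le_mul_of_nonneg_left hm h4]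
  nlinarith

/-- line above `cos` on `[u, π]` -/
theorem cos_le_line {u v m : ℝ} (hu : 0 ≤ u) (huv : u ≤ v) (hv : v ≤ Real.pi) (hms : m ≤ Real.sin u)
    (hm : m * (Real.pi - u) ≤ 1 + Real.cos u) : Real.cos v ≤ Real.cos u - m * (v - u) := by
  have hpi := Real.pi_pos
  rcases le_total (Real.pi / 2) u with h1 | h1
  · exact cos_chord h1 huv hv hm
  rcases le_total v (Real.pi / 2) with h2 | h2
  · have h3 := cos_tangent hu huv h2
    have h4 : m * (v - u) ≤ Real.sin u * (v - u) := mul_le_mul_of_nonneg_right hms (by linarith)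
    linarith
  have h3 := cos_tangent hu h1 le_rfl
  rw [Real.cos_pi_div_two] at h3
  have h4 := cos_chord (u := Real.pi / 2) (v := v) (m := 2 / Real.pi) le_rfl h2 hv (by
    rw [Real.cos_pi_div_two]
    apply le_of_eq
    field_simp
    ring)
  rw [Real.cos_pi_div_two, zero_sub] at h4
  have h5 : m * (Real.pi / 2 - u) ≤ Real.cos u := by
    have : m * (Real.pi / 2 - u) ≤ Real.sin u * (Real.pi / 2 - u) := mul_le_mul_of_nonneg_right hms (by linarith)
    linarith
  -- interpolate
  obtain ⟨τ, hτ⟩ : ∃ τ : ℝ, τ = 2 / Real.pi * (v - Real.pi / 2) := ⟨_, rfl⟩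
  have h6 : 0 ≤ τ := by rw [hτ]; exact mul_nonneg (by positivity) (by linarith)
  have h7 : τ ≤ 1 := by
    rw [hτ, div_mul_eq_mul_div, div_le_one hpi]; linarith
  have e1 : m * (v - u) = (1 - τ) * (m * (Real.pi / 2 - u)) + τ * (m * (Real.pi - u)) := by
    rw [hτ]; field_simp; ring
  rw [← hτ] at h4
  rw [e1]
  nlinarith [mul_le_mul_of_nonneg_left h5 (by linarith : 0 ≤ 1 - τ), mul_le_mul_of_nonneg_left hm h6]

private theorem int_exp_decay {K S L : ℝ} (hS : 0 < S) :
    ∫ p in (0:ℝ)..L, K * Real.exp (-(S * p)) = K / S - K / S * Real.exp (-(S * L)) := by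
  have h1 : ∀ x : ℝ, HasDerivAt (fun x : ℝ => -(K / S) * Real.exp (-(S * x))) (K * Real.exp (-(S * x))) x := by
    intro x
    have h0 : HasDerivAt (fun x : ℝ => -(S * x)) (-S) x := by
      have h := ((hasDerivAt_id x).const_mul S).neg
      rw [mul_one] at h
      exact h
    have h2 := (h0.exp).const_mul (-(K / S))
    refine h2.congr_deriv ?_
    field_simp
  have h3 := intervalIntegral.integral_eq_sub_of_hasDerivAt (a := 0) (b := L) (fun x _ => h1 x)
    ((by fun_prop : Continuous fun x : ℝ => K * Real.exp (-(S * x))).intervalIntegrable _ _)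
  rw [h3, mul_zero, neg_zero, Real.exp_zero]
  ring

/-- the right horizontal line together with the leg at `π` -/
theorem right_tail {β r t X v m S : ℝ} (hβ : 0 < β) (hr : 0 < r) (hX : 0 ≤ X) (hX' : X ≤ Real.pi)
    (hms : m ≤ Real.sin X) (hm : m * (Real.pi - X) ≤ 1 + Real.cos X) (hS : 0 < S)
    (hS1 : S ≤ β * r * Real.exp (-v) * m - v) (hS2 : S ≤ Real.pi - t + β * r * Real.exp (-v)) :
    Hor β r t X Real.pi v + Leg β r t Real.pi v ≤ mg β r t X v * (β / S) := by
  have hpi := Real.pi_pos
  have hE := Real.exp_pos (-v)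
  have hk : ∀ z ∈ Icc X Real.pi, mg β r t z v ≤ mg β r t X v * Real.exp (-(S / β * (z - X))) := by
    intro z hz
    unfold mg
    rw [← Real.exp_add]
    apply Real.exp_le_exp.2
    have h1 := cos_le_line hX hz.1 hz.2 hms hm
    have h2 : r * Real.cos z * Real.exp (-v) ≤ r * (Real.cos X - m * (z - X)) * Real.exp (-v) := by
      have h3 : r * Real.cos z ≤ r * (Real.cos X - m * (z - X)) := mul_le_mul_of_nonneg_left h1 hr.le
      exact mul_le_mul_of_nonneg_right h3 hE.le
    have h4 : S / β * (z - X) ≤ (β * r * Real.exp (-v) * m - v) / β * (z - X) :=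
      mul_le_mul_of_nonneg_right (div_le_div_of_nonneg_right hS1 hβ.le) (by linarith [hz.1])
    have e1 : (z - t) * v / β + r * (Real.cos X - m * (z - X)) * Real.exp (-v) =
        (X - t) * v / β + r * Real.cos X * Real.exp (-v) -
          (β * r * Real.exp (-v) * m - v) / β * (z - X) := by
      field_simp
      ring
    linarith
  have hSb : 0 < S / β := by positivity
  have h1 : Hor β r t X Real.pi v ≤ mg β r t X v / (S / β) -
      mg β r t X v / (S / β) * Real.exp (-(S / β * (Real.pi - X))) := by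
    unfold Hor
    have h2 : (∫ z in X..Real.pi, mg β r t z v) ≤ ∫ z in X..Real.pi, mg β r t X v * Real.exp (-(S / β * (z - X))) := by
      refine intervalIntegral.integral_mono_on hX' ((continuous_mg_X _ _ _ _).intervalIntegrable _ _)
        ((by fun_prop : Continuous fun z : ℝ => mg β r t X v * Real.exp (-(S / β * (z - X)))).intervalIntegrable _ _) hk
    refine h2.trans (le_of_eq ?_)
    have h3 := intervalIntegral.integral_comp_sub_right (a := X) (b := Real.pi)
      (fun p : ℝ => mg β r t X v * Real.exp (-(S / β * p))) X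
    rw [h3, sub_self, int_exp_decay hSb]
  have hδ : S / β ≤ (Real.pi - t) / β - r * Real.cos Real.pi * Real.exp (-v) := by
    rw [Real.cos_pi]
    have e : (Real.pi - t) / β - r * (-1) * Real.exp (-v) = (Real.pi - t + β * r * Real.exp (-v)) / β := by
      field_simp
      ring
    rw [e]
    exact div_le_div_of_nonneg_right hS2 hβ.le
  have h4 : Leg β r t Real.pi v ≤ mg β r t X v / (S / β) * Real.exp (-(S / β * (Real.pi - X))) := by
    refine (Leg_le hr.le (by rw [Real.cos_pi]; norm_num) (hSb.trans_le hδ)).trans ?_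
    have h5 := hk Real.pi ⟨hX', le_rfl⟩
    have h6 := mg_pos β r t X v
    calc mg β r t Real.pi v / ((Real.pi - t) / β - r * Real.cos Real.pi * Real.exp (-v))
        ≤ (mg β r t X v * Real.exp (-(S / β * (Real.pi - X)))) / (S / β) :=
          div_le_div₀ (by positivity) h5 hSb hδ
      _ = _ := by ring
  have e2 : mg β r t X v * (β / S) = mg β r t X v / (S / β) := by field_simp
  rw [e2]
  linarith

/-- the left horizontal line -/
theorem left_tail {β r t X v m S : ℝ} (hβ : 0 < β) (hr : 0 < r) (hX : X ≤ 0) (hX' : -Real.pi ≤ X)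
    (hms : m ≤ Real.sin (-X)) (hm : m * (Real.pi + X) ≤ 1 + Real.cos X) (hS : 0 < S)
    (hS1 : S ≤ β * r * Real.exp (-v) * m + v) :
    Hor β r t (-Real.pi) X v ≤ mg β r t X v * (β / S) := by
  have hpi := Real.pi_pos
  have hE := Real.exp_pos (-v)
  have hk : ∀ z ∈ Icc (-Real.pi) X, mg β r t z v ≤ mg β r t X v * Real.exp (-(S / β * (X - z))) := by
    intro z hz
    unfold mg
    rw [← Real.exp_add]
    apply Real.exp_le_exp.2
    have h1 := cos_le_line (u := -X) (v := -z) (m := m) (by linarith) (by linarith [hz.2]) (by linarith [hz.1]) hms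
      (by rw [Real.cos_neg]; have e : Real.pi - -X = Real.pi + X := by ring
          rw [e]; exact hm)
    rw [Real.cos_neg, Real.cos_neg] at h1
    have h2 : r * Real.cos z * Real.exp (-v) ≤ r * (Real.cos X - m * (-z - -X)) * Real.exp (-v) := by
      have h3 : r * Real.cos z ≤ r * (Real.cos X - m * (-z - -X)) := mul_le_mul_of_nonneg_left h1 hr.le
      exact mul_le_mul_of_nonneg_right h3 hE.le
    have h4 : S / β * (X - z) ≤ (β * r * Real.exp (-v) * m + v) / β * (X - z) :=
      mul_le_mul_of_nonneg_right (div_le_div_of_nonneg_right hS1 hβ.le) (by linarith [hz.2])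
    have e1 : (z - t) * v / β + r * (Real.cos X - m * (-z - -X)) * Real.exp (-v) =
        (X - t) * v / β + r * Real.cos X * Real.exp (-v) -
          (β * r * Real.exp (-v) * m + v) / β * (X - z) := by
      field_simp
      ring
    linarith
  have hSb : 0 < S / β := by positivity
  unfold Hor
  have h2 : (∫ z in (-Real.pi)..X, mg β r t z v) ≤ ∫ z in (-Real.pi)..X, mg β r t X v * Real.exp (-(S / β * (X - z))) := by
    refine intervalIntegral.integral_mono_on hX' ((continuous_mg_X _ _ _ _).intervalIntegrable _ _)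
      ((by fun_prop : Continuous fun z : ℝ => mg β r t X v * Real.exp (-(S / β * (X - z)))).intervalIntegrable _ _) hk
  refine h2.trans ?_
  have h3 := intervalIntegral.integral_comp_sub_left (a := -Real.pi) (b := X)
    (fun p : ℝ => mg β r t X v * Real.exp (-(S / β * p))) X
  rw [h3, sub_self, int_exp_decay hSb]
  have e2 : mg β r t X v * (β / S) = mg β r t X v / (S / β) := by field_simp
  rw [e2]
  have h6 := mg_pos β r t X v
  have h7 : 0 ≤ mg β r t X v / (S / β) * Real.exp (-(S / β * (X - -Real.pi))) := by positivity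
  linarith

/-- modulus relative to the saddle -/
theorem mg_rel {β r t a y : ℝ} (h : Sad β r t a y) (p q : ℝ) :
    mg β r t (a + p) (y + q) = Real.exp ((a - t) * (1 + y) / β) * Real.exp (NN (a - t) y p q / β) := by
  rw [← h.norm_gs, ← h.norm_gs_add, ← norm_gs_mg]
  congr 2
  push_cast
  ring

end Sok.N1
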