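import Mathlib
import Pool.Agent.Lib.MP_816dec_an.N1C

/-!
MP_816dec_an, row N1: the value of the window function at a saddle with `y ≤ 0`, horizontal line:
relative error `≤ 0.68 / r` for `κ = β r ≥ 1.39`, `r ≥ 10`.
-/

set_option autoImplicit false

open Complex Set Filter Topology MeasureTheory

namespace Sok.N1

open Sok.Mid

theorem exp_neg_le_of {x c : ℝ} (n : ℕ) (hx : 0 ≤ x) (hc : 0 < c)
    (h : 1 ≤ c * ∑ k ∈ Finset.range n, x ^ k / (k.factorial : ℝ)) : Real.exp (-x) ≤ c := by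
  have h1 := Real.sum_le_exp_of_nonneg hx n
  have h2 : Real.exp (-x) * Real.exp x = 1 := by rw [← Real.exp_add, neg_add_cancel, Real.exp_zero]
  have h3 := Real.exp_pos x
  have h4 : 1 ≤ c * Real.exp x := h.trans (mul_le_mul_of_nonneg_left h1 hc.le)
  have h5 : Real.exp (-x) * Real.exp x ≤ c * Real.exp x := by rw [h2]; exact h4
  exact le_of_mul_le_mul_right h5 h3

/-- geometry of a saddle with `-1 < y ≤ 0` -/
theorem geo_neg {β r t a y : ℝ} (h : Sad β r t a y) (hκ : 1.39 ≤ β * r) (hy : -1 < y) (hy0 : y ≤ 0)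
    (ha : -(Real.pi / 2) < a) (ha0 : a ≤ 0) :
    β * r ≤ a - t ∧ -y ≤ 0.2746 * (a - t) ∧ -0.2746 ≤ a ∧ β * r * Real.exp (-y) = nS (a - t) y ∧
      nS (a - t) y ≤ 1.0371 * (a - t) := by
  have hpi := Real.pi_pos
  have hβ := h.hβ
  have hr := h.hr
  obtain ⟨κ, hκd⟩ : ∃ κ : ℝ, κ = β * r := ⟨_, rfl⟩
  have hκ0 : 0 < κ := by rw [hκd]; positivity
  have hcs := h.hc
  have hsn := h.hs
  rw [← hκd] at hκ hcs hsn ⊢
  obtain ⟨x, hx⟩ : ∃ x : ℝ, x = a - t := ⟨_, rfl⟩
  rw [← hx] at hcs ⊢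
  obtain ⟨w, hw⟩ : ∃ w : ℝ, w = κ * Real.exp (-y) := ⟨_, rfl⟩
  have hw0 : 0 < w := by rw [hw]; positivity
  rw [← hw] at hcs hsn ⊢
  have hca : 0 < Real.cos a := Real.cos_pos_of_mem_Ioo ⟨ha, by linarith⟩
  have hx0 : 0 < x := by rw [← hcs]; positivity
  have hsq : x ^ 2 + y ^ 2 = w ^ 2 := by
    rw [← hcs, ← hsn]
    have := Real.sin_sq_add_cos_sq a
    linear_combination (w ^ 2) * this
  have hnS : w = nS x y := by rw [nS, hsq, Real.sqrt_sq hw0.le]
  -- e^s ≥ e s
  have he1 : 2.7182 < Real.exp 1 := by have := Real.exp_one_gt_d9; linarith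
  have hes : Real.exp 1 * (-y) ≤ Real.exp (-y) := by
    have h1 := Real.add_one_le_exp (-y - 1)
    have h2 : Real.exp (-y) = Real.exp 1 * Real.exp (-y - 1) := by rw [← Real.exp_add]; congr 1; ring
    rw [h2]
    exact mul_le_mul_of_nonneg_left (by linarith) (Real.exp_pos 1).le
  have hwy : 3.778 * (-y) ≤ w := by
    rw [hw]
    have h1 : 2.7182 * (-y) ≤ Real.exp (-y) := by nlinarith
    have h2 : 0 ≤ -y := by linarith
    have h3 := Real.exp_pos (-y)
    nlinarith
  have hyx : -y ≤ 0.2746 * x := by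
    have h2 : (3.778 * (-y)) ^ 2 ≤ w ^ 2 := pow_le_pow_left₀ (by nlinarith) hwy 2
    have h3 : (-y) ^ 2 ≤ (0.2746 * x) ^ 2 := by nlinarith
    exact le_of_sq_le_sq h3 (by positivity)
  have hxk : κ ≤ x := by
    have h1 : 1 + (-(2 * y)) ≤ Real.exp (-y) ^ 2 := by
      have h2 := Real.add_one_le_exp (-(2 * y))
      have h3 : Real.exp (-(2 * y)) = Real.exp (-y) ^ 2 := by rw [← Real.exp_nat_mul]; congr 1; push_cast; ring
      rw [← h3]; linarith
    have h4 : κ ^ 2 ≤ x ^ 2 := by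
      have h5 : κ ^ 2 * (1 + (-(2 * y))) ≤ w ^ 2 := by
        rw [hw, mul_pow]
        exact mul_le_mul_of_nonneg_left h1 (sq_nonneg κ)
      have h6 : y ^ 2 ≤ κ ^ 2 * (-(2 * y)) := by
        have h7 : 1 ≤ κ ^ 2 := by nlinarith
        have h8 : y ^ 2 ≤ -y := by nlinarith
        nlinarith
      nlinarith
    exact le_of_sq_le_sq h4 hx0.le
  refine ⟨hxk, hyx, ?_, hnS, ?_⟩
  · -- the angle
    have h1 : -a ≤ Real.tan (-a) := Real.le_tan (by linarith) (by linarith)
    have h2 : Real.tan (-a) = -y / x := by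
      rw [Real.tan_eq_sin_div_cos, Real.sin_neg, Real.cos_neg, ← hcs, ← hsn]
      field_simp
    rw [h2] at h1
    have h3 : -y / x ≤ 0.2746 := by rw [div_le_iff₀ hx0]; exact hyx
    linarith
  · rw [← hnS]
    have h3 : w ^ 2 ≤ (1.0371 * x) ^ 2 := by
      rw [← hsq]
      have h4 : (-y) ^ 2 ≤ (0.2746 * x) ^ 2 := pow_le_pow_left₀ (by linarith) hyx 2
      nlinarith
    exact le_of_sq_le_sq h3 (by positivity)

private theorem dbl {x l u l' u' : ℝ} (hl : l ≤ Real.cos x) (hu : Real.cos x ≤ u) (hl0 : 0 ≤ l)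
    (h1 : l' ≤ 2 * l ^ 2 - 1) (h2 : 2 * u ^ 2 - 1 ≤ u') : l' ≤ Real.cos (2 * x) ∧ Real.cos (2 * x) ≤ u' := by
  rw [Real.cos_two_mul]
  constructor <;> nlinarith

theorem cos_one_bds : 0.54 ≤ Real.cos 1 ∧ Real.cos 1 ≤ 0.5404 := by
  have h := Real.cos_bound (x := 1 / 32) (by rw [abs_of_pos] <;> norm_num)
  rw [abs_le, abs_of_pos (by norm_num : (0:ℝ) < 1 / 32)] at h
  have a0 : (0.9995116 : ℝ) ≤ Real.cos (1 / 32) := by norm_num at h ⊢; linarith [h.1]
  have b0 : Real.cos (1 / 32) ≤ 0.99951178 := by norm_num at h ⊢; linarith [h.2]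
  obtain ⟨a1, b1⟩ := dbl (l' := 0.9980466) (u' := 0.9980477) a0 b0 (by norm_num) (by norm_num) (by norm_num)
  obtain ⟨a2, b2⟩ := dbl (l' := 0.992194) (u' := 0.9921986) a1 b1 (by norm_num) (by norm_num) (by norm_num)
  obtain ⟨a3, b3⟩ := dbl (l' := 0.968897) (u' := 0.9689162) a2 b2 (by norm_num) (by norm_num) (by norm_num)
  obtain ⟨a4, b4⟩ := dbl (l' := 0.877522) (u' := 0.8775975) a3 b3 (by norm_num) (by norm_num) (by norm_num)
  obtain ⟨a5, b5⟩ := dbl (l' := 0.54) (u' := 0.5404) a4 b4 (by norm_num) (by norm_num) (by norm_num)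
  have e : (2 : ℝ) * (2 * (2 * (2 * (2 * (1 / 32))))) = 1 := by norm_num
  rw [e] at a5 b5
  exact ⟨by linarith, b5⟩


theorem aq_hor (x y : ℝ) : aq 1 0 x y = x := by unfold aq; ring

theorem k3_hor (x y : ℝ) : k3 1 0 x y = y := by unfold k3; ring

/-- `√A e^{-kA} ≤ c / ...` -/
theorem sqrt_exp_ten {A k c : ℝ} (hA : 10 ≤ A) (hk : 0.05 ≤ k) (hc : Real.exp (-(k * 10)) ≤ c) :
    Real.sqrt A * Real.exp (-(k * A)) ≤ 3.1623 * c := by
  have h := sqrt_mul_exp_le (k := k) (x := 10) (y := A) (by linarith) (by norm_num) (by linarith) hA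
  have h2 : Real.sqrt 10 ≤ 3.1623 := by
    rw [Real.sqrt_le_left (by norm_num)]; norm_num
  refine h.trans ?_
  exact mul_le_mul h2 hc (Real.exp_pos _).le (by norm_num)

theorem sqrt_two_pi : 2.5066 ≤ Real.sqrt (2 * Real.pi) := by
  apply Real.le_sqrt_of_sq_le
  have := Real.pi_gt_d6
  norm_num at this ⊢
  linarith

theorem central_num0 {β x y : ℝ} (hx : 0 < x) (hA : 10 ≤ x / β)
    (hn : nS x y ≤ 1.0371 * x) (hd : nD x y ≤ 1.232 * x) :
    epsC β 1 0 x y 1 (1 / 6) (1 / 24) 0.822 0.9135 ≤ 0.5808 / (x / β) := by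
  obtain ⟨A, hAd⟩ : ∃ A : ℝ, A = x / β := ⟨_, rfl⟩
  unfold epsC
  rw [aq_hor, ← hAd]
  rw [← hAd] at hA
  have hA0 : 0 < A := by linarith
  have hρ : nS x y / x ≤ 1.0371 := by rw [div_le_iff₀ hx]; exact hn
  have hρ0 : 0 ≤ nS x y / x := by unfold nS; positivity
  have hD1 : Real.sqrt (nD x y / x) ≤ 1.11 := by
    rw [Real.sqrt_le_left (by norm_num)]
    rw [div_le_iff₀ hx]
    have : (1.11 : ℝ) ^ 2 = 1.2321 := by norm_num
    rw [this]; linarith
  have hL : (1 / 6 : ℝ) ^ 2 / (0.822 ^ 3 * Real.sqrt 0.822) ≤ 0.05517 := by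
    have h1 : (0.9066 : ℝ) ≤ Real.sqrt 0.822 := by
      apply Real.le_sqrt_of_sq_le; norm_num
    rw [div_le_iff₀ (by positivity)]
    nlinarith
  have hR : (1 / 6 : ℝ) ^ 2 / (0.9135 ^ 3 * Real.sqrt 0.9135) ≤ 0.03813 := by
    have h1 : (0.9557 : ℝ) ≤ Real.sqrt 0.9135 := by
      apply Real.le_sqrt_of_sq_le; norm_num
    rw [div_le_iff₀ (by positivity)]
    nlinarith
  have hL0 : 0 ≤ (1 / 6 : ℝ) ^ 2 / (0.822 ^ 3 * Real.sqrt 0.822) := by positivity
  have hR0 : 0 ≤ (1 / 6 : ℝ) ^ 2 / (0.9135 ^ 3 * Real.sqrt 0.9135) := by positivity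
  have hsum : 3 / 2 * (nS x y / x) * (1 / 24 + 1 / 24) + 15 / 4 * (nS x y / x) ^ 2 *
      ((1 / 6) ^ 2 / (0.822 ^ 3 * Real.sqrt 0.822) + (1 / 6) ^ 2 / (0.9135 ^ 3 * Real.sqrt 0.9135)) ≤ 0.506 := by
    have h1 : (nS x y / x) ^ 2 ≤ 1.0371 ^ 2 := pow_le_pow_left₀ hρ0 hρ 2
    have h2 : (nS x y / x) ^ 2 *
      ((1 / 6) ^ 2 / (0.822 ^ 3 * Real.sqrt 0.822) + (1 / 6) ^ 2 / (0.9135 ^ 3 * Real.sqrt 0.9135)) ≤
        1.0371 ^ 2 * (0.05517 + 0.03813) := mul_le_mul h1 (add_le_add hL hR) (by positivity) (by norm_num)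
    nlinarith
  have hG : 2 * Real.exp (-(A / 2) * 1 ^ 2) / (Real.sqrt (2 * Real.pi * A) * 1) ≤ 0.0171 / A := by
    rw [Real.sqrt_mul (by positivity), mul_one, div_le_div_iff₀ (by positivity) hA0]
    have h1 := sqrt_exp_ten (A := A) (k := 1 / 2) (c := 0.00674) hA (by norm_num)
      (exp_neg_le_of 20 (by norm_num) (by norm_num) (by norm_num [Finset.sum_range_succ, Nat.factorial]))
    have e1 : -(A / 2) * 1 ^ 2 = -(1 / 2 * A) := by ring
    rw [e1]
    have h2 := sqrt_two_pi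
    have h3 : 0 < Real.sqrt A := Real.sqrt_pos.2 hA0
    have h4 : Real.sqrt A * Real.sqrt A = A := Real.mul_self_sqrt hA0.le
    calc 2 * Real.exp (-(1 / 2 * A)) * A = 2 * Real.exp (-(1 / 2 * A)) * (Real.sqrt A * Real.sqrt A) := by rw [h4]
      _ = 2 * (Real.sqrt A * Real.exp (-(1 / 2 * A))) * Real.sqrt A := by ring
      _ ≤ 2 * (3.1623 * 0.00674) * Real.sqrt A := by gcongr
      _ ≤ 0.0171 * (2.5066 * Real.sqrt A) := by nlinarith
      _ ≤ 0.0171 * (Real.sqrt (2 * Real.pi) * Real.sqrt A) := by gcongr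
  have hT : (3 / 2 * (nS x y / x) * (1 / 24 + 1 / 24) + 15 / 4 * (nS x y / x) ^ 2 *
      ((1 / 6) ^ 2 / (0.822 ^ 3 * Real.sqrt 0.822) + (1 / 6) ^ 2 / (0.9135 ^ 3 * Real.sqrt 0.9135))) / A ≤ 0.506 / A :=
    div_le_div_of_nonneg_right hsum hA0.le
  have hG0 : 0 ≤ 2 * Real.exp (-(A / 2) * 1 ^ 2) / (Real.sqrt (2 * Real.pi * A) * 1) := by positivity
  have hT0 : 0 ≤ (3 / 2 * (nS x y / x) * (1 / 24 + 1 / 24) + 15 / 4 * (nS x y / x) ^ 2 *
      ((1 / 6) ^ 2 / (0.822 ^ 3 * Real.sqrt 0.822) + (1 / 6) ^ 2 / (0.9135 ^ 3 * Real.sqrt 0.9135))) / A := by positivity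
  refine (mul_le_mul hD1 (add_le_add hT hG) (by positivity) (by norm_num)).trans (le_of_eq_of_le ?_ (div_le_div_of_nonneg_right (by norm_num : (1.11 * (0.506 + 0.0171) : ℝ) ≤ 0.5808) hA0.le))
  ring

/-- the tails of the horizontal path, `y ≤ 0` -/
theorem tail_num0 {β r t a y : ℝ} (h : Sad β r t a y) (hκ : 1.39 ≤ β * r) (hy0 : y ≤ 0)
    (ha1 : -0.2746 ≤ a) (ha0 : a ≤ 0) (hxk : β * r ≤ a - t) (hyx : -y ≤ 0.2746 * (a - t))
    (hw : β * r * Real.exp (-y) = nS (a - t) y) (hn : (a - t) ≤ nS (a - t) y) :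
    Tail β r t a y 1 0 1 ≤ Real.exp ((a - t) * (1 + y) / β) * ((β / (a - t)) *
      (1.5625 * Real.exp (-(0.4596 * ((a - t) / β))) + 3.0741 * Real.exp (-(0.416 * ((a - t) / β))) +
        2.58 * Real.exp (-(0.961 * ((a - t) / β))))) := by
  have hβ := h.hβ
  have hr := h.hr
  have hpi := Real.pi_pos
  have hpi3 := Real.pi_gt_d2
  have hpi4 := Real.pi_lt_d2
  obtain ⟨x, hx⟩ : ∃ x : ℝ, x = a - t := ⟨_, rfl⟩
  have hx1 : 1.39 ≤ x := by rw [hx]; linarith
  rw [← hx] at hxk hyx hw hn ⊢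
  obtain ⟨w, hwd⟩ : ∃ w : ℝ, w = nS x y := ⟨_, rfl⟩
  rw [← hwd] at hw hn
  obtain ⟨hc1, hc2⟩ := cos_one_bds
  have hs1 : 0.8414 ≤ Real.sin 1 := by
    have h1 := Real.sin_sq_add_cos_sq 1
    have h2 : 0 < Real.sin 1 := Real.sin_pos_of_pos_of_lt_pi one_pos (by linarith)
    nlinarith
  have hs1' : Real.sin 1 ≤ 1 := Real.sin_le_one 1
  unfold Tail
  have e0 : y + 0 * 1 = y := by ring
  have e1 : y - 0 * 1 = y := by ring
  have e2 : a - 1 * 1 = a + (-1) := by ring
  have e3 : a + 1 * 1 = a + 1 := by ring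
  rw [e0, e1, e2, e3]
  -- right
  have hR := right_tail (β := β) (r := r) (t := t) (X := a + 1) (v := y) (m := 0.64) (S := 0.64 * x) hβ hr
    (by linarith) (by linarith)
    (by
      have h1 : Real.sin 0.7254 ≤ Real.sin (a + 1) :=
        Real.sin_le_sin_of_le_of_le_pi_div_two (by linarith) (by linarith) (by linarith)
      have h2 := Real.sin_bound (x := 0.7254) (by rw [abs_of_pos] <;> norm_num)
      rw [abs_le, abs_of_pos (by norm_num : (0:ℝ) < 0.7254)] at h2
      norm_num at h2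
      norm_num at h1 ⊢
      linarith [h2.1])
    (by
      have h1 := Real.one_sub_sq_div_two_le_cos (x := a + 1)
      nlinarith)
    (by positivity)
    (by rw [hw]; nlinarith)
    (by rw [hw]; nlinarith)
  -- left
  have hL := left_tail (β := β) (r := r) (t := t) (X := a + (-1)) (v := y) (m := 0.6) (S := 0.3254 * x) hβ hr
    (by linarith) (by linarith)
    (by
      have e : -(a + -1) = 1 - a := by ring
      rw [e]
      have h1 : Real.sin 1 ≤ Real.sin (1 - a) :=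
        Real.sin_le_sin_of_le_of_le_pi_div_two (by linarith) (by linarith) (by linarith)
      linarith)
    (by
      have h1 := Real.one_sub_sq_div_two_le_cos (x := a + (-1))
      nlinarith)
    (by positivity)
    (by rw [hw]; nlinarith)
  -- the leg at -π
  have hδ : 0.388 * x ≤ -Real.pi - t + w * Real.exp (1 / 2) := by
    have h1 : 1.6487 ≤ Real.exp (1 / 2) := by
      have h3 := Real.sum_le_exp_of_nonneg (x := 1 / 2) (by norm_num) 8
      refine le_trans ?_ h3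
      norm_num [Finset.sum_range_succ, Nat.factorial]
    have h2 : t = a - x := by rw [hx]; ring
    rw [h2]
    have h5 : x * 1.6487 ≤ w * Real.exp (1 / 2) := mul_le_mul hn h1 (by norm_num) (by linarith)
    have h6 := Real.pi_lt_d4
    linarith
  have e4 : Real.exp (-(y - 1 / 2)) = Real.exp (-y) * Real.exp (1 / 2) := by rw [← Real.exp_add]; congr 1; ring
  have hdel : (-Real.pi - t) / β - r * Real.cos (-Real.pi) * Real.exp (-(y - 1 / 2)) =
      (-Real.pi - t + w * Real.exp (1 / 2)) / β := by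
    rw [Real.cos_neg, Real.cos_pi, e4, ← hw]
    field_simp
    ring
  have hLeg := Leg_le_base (β := β) (r := r) (t := t) (S := -Real.pi) hr.le (by rw [Real.cos_neg, Real.cos_pi]; norm_num)
    (y - 1 / 2) (by rw [hdel]; apply div_pos _ hβ; linarith) y
  rw [hdel] at hLeg
  have hLeg2 : Leg β r t (-Real.pi) y ≤ Real.exp (x * (1 + y) / β) * Real.exp (-(0.961 * (x / β))) * (β / (0.388 * x)) := by
    refine hLeg.trans ?_
    have hden : 0.388 * x / β ≤ (-Real.pi - t + w * Real.exp (1 / 2)) / β := div_le_div_of_nonneg_right hδ hβ.le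
    have hden0 : 0 < 0.388 * x / β := by positivity
    have hnum : mg β r t (-Real.pi) (y - 1 / 2) * Real.exp ((-Real.pi - t + w * Real.exp (1 / 2)) / β * (y - (y - 1 / 2))) ≤
        Real.exp (x * (1 + y) / β) * Real.exp (-(0.961 * (x / β))) := by
      unfold mg
      rw [← Real.exp_add, ← Real.exp_add]
      apply Real.exp_le_exp.2
      rw [Real.cos_neg, Real.cos_pi, e4]
      have e5 : (-Real.pi - t) * (y - 1 / 2) / β + r * -1 * (Real.exp (-y) * Real.exp (1 / 2)) +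
          (-Real.pi - t + w * Real.exp (1 / 2)) / β * (y - (y - 1 / 2)) =
          ((-Real.pi - t) * y - w * Real.exp (1 / 2) / 2) / β := by
        rw [← hw]
        field_simp
        ring
      have e6 : x * (1 + y) / β + -(0.961 * (x / β)) = (x * (1 + y) - 0.961 * x) / β := by ring
      rw [e5, e6]
      apply div_le_div_of_nonneg_right _ hβ.le
      have h1 : 1.6487 ≤ Real.exp (1 / 2) := by
        have h3 := Real.sum_le_exp_of_nonneg (x := 1 / 2) (by norm_num) 8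
        refine le_trans ?_ h3
        norm_num [Finset.sum_range_succ, Nat.factorial]
      have h2 : t = a - x := by rw [hx]; ring
      rw [h2]
      have h3 : (Real.pi + a) * (-y) ≤ 3.1416 * (0.2746 * x) := by
        have h5 := Real.pi_lt_d4
        apply mul_le_mul (by linarith) hyx (by linarith) (by norm_num)
      have h6 : x * 1.6487 ≤ w * Real.exp (1 / 2) := mul_le_mul hn h1 (by norm_num) (by linarith)
      nlinarith
    have hm0 : 0 ≤ mg β r t (-Real.pi) (y - 1 / 2) * Real.exp ((-Real.pi - t + w * Real.exp (1 / 2)) / β * (y - (y - 1 / 2))) :=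
      mul_nonneg (mg_pos _ _ _ _ _).le (Real.exp_pos _).le
    calc _ ≤ (Real.exp (x * (1 + y) / β) * Real.exp (-(0.961 * (x / β)))) / (0.388 * x / β) :=
          div_le_div₀ (by positivity) hnum hden0 hden
      _ = _ := by field_simp
  -- the values at the ends
  have hmR : mg β r t (a + 1) y ≤ Real.exp (x * (1 + y) / β) * Real.exp (-(0.4596 * (x / β))) := by
    have h1 := mg_rel h 1 0
    rw [add_zero, ← hx] at h1
    rw [h1]
    apply mul_le_mul_of_nonneg_left _ (Real.exp_pos _).le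
    apply Real.exp_le_exp.2
    have e7 : -(0.4596 * (x / β)) = -(0.4596 * x) / β := by ring
    rw [e7]
    apply div_le_div_of_nonneg_right _ hβ.le
    unfold NN
    rw [neg_zero, Real.exp_zero]
    have h2 : x * Real.cos 1 ≤ x * 0.5404 := mul_le_mul_of_nonneg_left hc2 (by linarith)
    have h3 : -y * Real.sin 1 ≤ -y * 1 := mul_le_mul_of_nonneg_left hs1' (by linarith)
    linarith
  have hmL : mg β r t (a + (-1)) y ≤ Real.exp (x * (1 + y) / β) * Real.exp (-(0.416 * (x / β))) := by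
    have h1 := mg_rel h (-1) 0
    rw [add_zero, ← hx] at h1
    rw [h1]
    apply mul_le_mul_of_nonneg_left _ (Real.exp_pos _).le
    apply Real.exp_le_exp.2
    have e7 : -(0.416 * (x / β)) = -(0.416 * x) / β := by ring
    rw [e7]
    apply div_le_div_of_nonneg_right _ hβ.le
    unfold NN
    rw [neg_zero, Real.exp_zero, Real.cos_neg, Real.sin_neg]
    have h2 : x * Real.cos 1 ≤ x * 0.5404 := mul_le_mul_of_nonneg_left hc2 (by linarith)
    have h3 : -y * 0.8414 ≤ -y * Real.sin 1 := mul_le_mul_of_nonneg_left hs1 (by linarith)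
    linarith
  have hG := Real.exp_pos (x * (1 + y) / β)
  have hE1 := Real.exp_pos (-(0.4596 * (x / β)))
  have hE2 := Real.exp_pos (-(0.416 * (x / β)))
  have hE3 := Real.exp_pos (-(0.961 * (x / β)))
  have hx0 : 0 < x := by linarith
  have g1 : mg β r t (a + 1) y * (β / (0.64 * x)) ≤
      (Real.exp (x * (1 + y) / β) * Real.exp (-(0.4596 * (x / β)))) * (β / (0.64 * x)) :=
    mul_le_mul_of_nonneg_right hmR (by positivity)
  have g2 : mg β r t (a + (-1)) y * (β / (0.3254 * x)) ≤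
      (Real.exp (x * (1 + y) / β) * Real.exp (-(0.416 * (x / β)))) * (β / (0.3254 * x)) :=
    mul_le_mul_of_nonneg_right hmL (by positivity)
  have k1 : β / (0.64 * x) = 1.5625 * (β / x) := by field_simp; norm_num
  have k2 : β / (0.3254 * x) ≤ 3.0741 * (β / x) := by
    have : β / (0.3254 * x) = (1 / 0.3254) * (β / x) := by field_simp
    rw [this]
    apply mul_le_mul_of_nonneg_right _ (by positivity)
    norm_num
  have k3 : β / (0.388 * x) ≤ 2.58 * (β / x) := by
    have : β / (0.388 * x) = (1 / 0.388) * (β / x) := by field_simp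
    rw [this]
    apply mul_le_mul_of_nonneg_right _ (by positivity)
    norm_num
  rw [k1] at g1
  have g2' := g2.trans (mul_le_mul_of_nonneg_left k2 (by positivity))
  have g3' := hLeg2.trans (mul_le_mul_of_nonneg_left k3 (by positivity))
  rw [k1] at hR
  have g2'' := hL.trans g2'
  obtain ⟨G, hGd⟩ : ∃ G : ℝ, G = Real.exp (x * (1 + y) / β) := ⟨_, rfl⟩
  rw [← hGd] at g1 g2'' g3' ⊢
  have e9 : G * (β / x * (1.5625 * Real.exp (-(0.4596 * (x / β))) + 3.0741 * Real.exp (-(0.416 * (x / β))) +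
      2.58 * Real.exp (-(0.961 * (x / β))))) = G * Real.exp (-(0.4596 * (x / β))) * (1.5625 * (β / x)) +
      G * Real.exp (-(0.416 * (x / β))) * (3.0741 * (β / x)) + G * Real.exp (-(0.961 * (x / β))) * (2.58 * (β / x)) := by
    ring
  rw [e9]
  linarith

/-- **Value for `y ≤ 0`**, in terms of `x = a - t`. -/
theorem val0x {β r t a y : ℝ} (h : Sad β r t a y) (hκ : 1.39 ≤ β * r) (hr10 : 10 ≤ r) (hy : -1 < y) (hy0 : y ≤ 0)
    (ha : -(Real.pi / 2) < a) (ha0 : a ≤ 0) :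
    |‖AA β r t‖ * Real.sqrt (nD (a - t) y) * Real.exp (-((a - t) * (1 + y) / β)) - 1| ≤ 0.671 * (β / (a - t)) := by
  have hβ := h.hβ
  have hr := h.hr
  have hpi := Real.pi_pos
  have hpi3 := Real.pi_gt_d2
  obtain ⟨g1, g2, g3, g4, g5⟩ := geo_neg h hκ hy hy0 ha ha0
  have hx1 : 1.39 ≤ a - t := by linarith
  have hx0 : 0 < a - t := by linarith
  have hn : (a - t) ≤ nS (a - t) y := by
    unfold nS
    apply Real.le_sqrt_of_sq_le
    nlinarith [sq_nonneg y]
  have hd : nD (a - t) y ≤ 1.232 * (a - t) := by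
    unfold nD
    rw [Real.sqrt_le_left (by positivity)]
    nlinarith
  have hA : r ≤ (a - t) / β := by rw [le_div_iff₀ hβ]; linarith
  have hA10 : 10 ≤ (a - t) / β := by linarith
  have hval := value (c := 1) (s := 0) (T := 1) (φ3 := 1 / 6) (φ4 := 1 / 24) (cL := 0.822) (cR := 0.9135) h
    (by norm_num) le_rfl hy (by linarith) (by linarith) one_pos (by rw [aq_hor]; exact hx0) (phB_hor 1)
    (by norm_num) (by norm_num) (by norm_num) (by norm_num) (by norm_num)
    (by rw [aq_hor, k3_hor]; nlinarith) (by rw [aq_hor, k3_hor]; nlinarith)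
  refine hval.trans ?_
  have hcen := central_num0 (y := y) hx0 hA10 g5 hd
  have htail := tail_num0 h hκ hy0 g3 ha0 g1 g2 g4 hn
  obtain ⟨A, hAd⟩ : ∃ A : ℝ, A = (a - t) / β := ⟨_, rfl⟩
  rw [← hAd] at hcen htail hA hA10
  have hA0 : 0 < A := by linarith
  obtain ⟨x, hx⟩ : ∃ x : ℝ, x = a - t := ⟨_, rfl⟩
  rw [← hx] at hcen htail hd hx0 hAd ⊢
  have hbx : β / x = 1 / A := by rw [hAd]; field_simp
  rw [hbx] at htail
  have e1 : Real.sqrt (nD x y / (2 * Real.pi * β)) = Real.sqrt (nD x y / x) * (Real.sqrt A / Real.sqrt (2 * Real.pi)) := by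
    rw [← Real.sqrt_div hA0.le, ← Real.sqrt_mul (by unfold nD; positivity)]
    congr 1
    rw [hAd]
    field_simp
  have hD1 : Real.sqrt (nD x y / x) ≤ 1.11 := by
    rw [Real.sqrt_le_left (by norm_num), div_le_iff₀ hx0]
    have : (1.11 : ℝ) ^ 2 = 1.2321 := by norm_num
    rw [this]; linarith
  have hsA : 0 < Real.sqrt A := Real.sqrt_pos.2 hA0
  have h2p := sqrt_two_pi
  have hK : Real.sqrt (nD x y / (2 * Real.pi * β)) ≤ 0.44284 * Real.sqrt A := by
    rw [e1]
    have h1 : Real.sqrt A / Real.sqrt (2 * Real.pi) ≤ Real.sqrt A / 2.5066 :=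
      div_le_div_of_nonneg_left hsA.le (by norm_num) h2p
    refine (mul_le_mul hD1 h1 (by positivity) (by norm_num)).trans ?_
    rw [← mul_div_assoc, div_le_iff₀ (by norm_num)]
    nlinarith
  have hE := Real.exp_pos (x * (1 + y) / β)
  have hEE : Real.exp (-(x * (1 + y) / β)) * Real.exp (x * (1 + y) / β) = 1 := by
    rw [← Real.exp_add, neg_add_cancel, Real.exp_zero]
  have b1 := sqrt_exp_ten (A := A) (k := 0.4596) (c := 0.010102) hA10 (by norm_num)
    (exp_neg_le_of 22 (by norm_num) (by norm_num) (by norm_num [Finset.sum_range_succ, Nat.factorial]))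
  have b2 := sqrt_exp_ten (A := A) (k := 0.416) (c := 0.015612) hA10 (by norm_num)
    (exp_neg_le_of 22 (by norm_num) (by norm_num) (by norm_num [Finset.sum_range_succ, Nat.factorial]))
  have b3 := sqrt_exp_ten (A := A) (k := 0.961) (c := 0.0001) hA10 (by norm_num)
    (exp_neg_le_of 30 (by norm_num) (by norm_num) (by norm_num [Finset.sum_range_succ, Nat.factorial]))
  have hfin : Real.sqrt (nD x y / (2 * Real.pi * β)) * Real.exp (-(x * (1 + y) / β)) * Tail β r t a y 1 0 1 ≤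
      0.09 / A := by
    have h1 : Real.sqrt (nD x y / (2 * Real.pi * β)) * Real.exp (-(x * (1 + y) / β)) * Tail β r t a y 1 0 1 ≤
        (0.44284 * Real.sqrt A) * Real.exp (-(x * (1 + y) / β)) * (Real.exp (x * (1 + y) / β) * (1 / A *
          (1.5625 * Real.exp (-(0.4596 * A)) + 3.0741 * Real.exp (-(0.416 * A)) + 2.58 * Real.exp (-(0.961 * A))))) := by
      have h3 := Real.exp_pos (-(x * (1 + y) / β))
      have hT0 : 0 ≤ Tail β r t a y 1 0 1 := by
        unfold Tail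
        have := Leg_nonneg β r t (-Real.pi) (y + 0 * 1)
        have := Leg_nonneg β r t Real.pi (y - 0 * 1)
        have := Hor_nonneg β r t (y + 0 * 1) (a := -Real.pi) (b := a - 1 * 1) (by linarith)
        have := Hor_nonneg β r t (y - 0 * 1) (a := a + 1 * 1) (b := Real.pi) (by linarith)
        positivity
      exact mul_le_mul (mul_le_mul_of_nonneg_right hK h3.le) htail hT0 (by positivity)
    refine h1.trans ?_
    have e2 : (0.44284 * Real.sqrt A) * Real.exp (-(x * (1 + y) / β)) * (Real.exp (x * (1 + y) / β) * (1 / A *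
          (1.5625 * Real.exp (-(0.4596 * A)) + 3.0741 * Real.exp (-(0.416 * A)) + 2.58 * Real.exp (-(0.961 * A))))) =
        (0.44284 * (1.5625 * (Real.sqrt A * Real.exp (-(0.4596 * A))) + 3.0741 * (Real.sqrt A * Real.exp (-(0.416 * A))) +
          2.58 * (Real.sqrt A * Real.exp (-(0.961 * A))))) * (Real.exp (-(x * (1 + y) / β)) * Real.exp (x * (1 + y) / β)) / A := by
      ring
    rw [e2, hEE, mul_one]
    apply div_le_div_of_nonneg_right _ hA0.le
    nlinarith
  have hfinal : 0.5808 / A + 0.09 / A ≤ 0.671 * (β / x) := by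
    rw [← add_div, hbx, div_le_iff₀ hA0]
    have : 0.671 * (1 / A) * A = 0.671 := by field_simp
    rw [this]
    norm_num
  linarith

/-- **Value for `y ≤ 0`.** -/
theorem val0 {β r t a y : ℝ} (h : Sad β r t a y) (hκ : 1.39 ≤ β * r) (hr10 : 10 ≤ r) (hy : -1 < y) (hy0 : y ≤ 0)
    (ha : -(Real.pi / 2) < a) (ha0 : a ≤ 0) :
    |‖AA β r t‖ * Real.sqrt (nD (a - t) y) * Real.exp (-((a - t) * (1 + y) / β)) - 1| ≤ 0.68 / r := by
  refine (val0x h hκ hr10 hy hy0 ha ha0).trans ?_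
  obtain ⟨g1, -, -, -, -⟩ := geo_neg h hκ hy hy0 ha ha0
  have hβ := h.hβ
  have hr := h.hr
  have hx0 : 0 < a - t := by linarith
  have h1 : β / (a - t) ≤ 1 / r := by
    rw [div_le_div_iff₀ hx0 hr]; linarith
  have h2 : (0.68 : ℝ) / r = 0.68 * (1 / r) := by ring
  rw [h2]
  have h3 : 0 ≤ 1 / r := by positivity
  linarith

end Sok.N1
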