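import Pool.Agent.Lib.MP_816dec_an.A0Sec
import Pool.Agent.Lib.MP_816dec_an.N1X0

/-!
MP_816dec_an (R2, N2): the slope of a window at its saddle, general end points of the line; closed forms relative to
the saddle.
-/

set_option autoImplicit false

open Complex Set Filter Topology MeasureTheory

namespace Sok

private theorem gs_leg_zero {β r t : ℝ} {j : ℤ} {S : ℝ} (hβ : 0 < β) (hr : 0 < r) (h : InV t j S) :
    Tendsto (fun Y : ℝ => gs β r t (S + Y * I)) atBot (𝓝 0) := by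
  obtain ⟨K, ε, hε, hK⟩ := h.vl hβ hr
  have h1 : Tendsto (fun Y : ℝ => Real.exp (K + ε * Y)) atBot (𝓝 0) := by
    refine Real.tendsto_exp_atBot.comp ?_
    exact tendsto_atBot_add_const_left _ _ ((tendsto_const_mul_atBot_of_pos hε).2 tendsto_id)
  refine squeeze_zero_norm' ?_ h1
  filter_upwards [eventually_le_atBot (0 : ℝ)] with Y hY
  rw [norm_gs]
  exact Real.exp_le_exp.2 (hK S ⟨le_rfl, le_rfl⟩ Y hY)

/-- primitive of the second-order integrand and the identity, general valley points -/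
theorem exists_QVS {β r : ℝ} (hβ : 0 < β) (hr : 0 < r) (t : ℝ) {σ : ℂ}
    (hs : σ = β * (r * cexp (I * (t + σ)))) {S₀ S₁ : ℝ} (h0 : InV t 0 S₀) (h0' : InV (t + β) 0 S₀)
    (h1 : InV t (-1) S₁) (h1' : InV (t + β) (-1) S₁) :
    ∃ (Q : ℂ → ℂ) (W₀ W₁ : ℂ), (∀ s, HasDerivAt Q (hqA β r t σ s) s) ∧
      Tendsto (fun Y : ℝ => Q (S₀ + Y * I)) atBot (𝓝 W₀) ∧
      Tendsto (fun Y : ℝ => Q (S₁ + Y * I)) atBot (𝓝 W₁) ∧
      W₀ - W₁ = cF β * ((1 - I * σ) * (β / σ) * (ew β r t * AA β r (t + β) - σ / β * AA β r t)) := by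
  have hβ' : (β : ℂ) ≠ 0 := Complex.ofReal_ne_zero.2 hβ.ne'
  have hr' : (r : ℂ) ≠ 0 := Complex.ofReal_ne_zero.2 hr.ne'
  have hσ : σ ≠ 0 := by
    rw [hs]
    exact mul_ne_zero hβ' (mul_ne_zero hr' (Complex.exp_ne_zero _))
  obtain ⟨P, hP⟩ := exists_prim (gs_diff β r t)
  obtain ⟨V, lL, lR, hV, -⟩ := exists_vals hβ hr hP
  obtain ⟨P', hP'⟩ := exists_prim (gs_diff β r (t + β))
  obtain ⟨V', lL', lR', hV', -⟩ := exists_vals hβ hr hP'
  have hexp : cexp (-(I * (t + σ))) = β * r / σ := by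
    rw [eq_div_iff hσ]
    conv_lhs => rw [hs]
    rw [Complex.exp_neg]
    have hne := Complex.exp_ne_zero (I * (t + σ))
    have e1 : cexp (I * (t + β * (r * cexp (I * (t + σ))))) = cexp (I * (t + σ)) := by rw [← hs]
    rw [e1]
    field_simp
  refine ⟨fun s => β * r / σ * cexp (I * (t + β / 2)) * P' s - P s -
      I * β * (ew β r t * P' s + I * gs β r t s - σ / β * P s),
    β * r / σ * cexp (I * (t + β / 2)) * V' 0 - V 0 - I * β * (ew β r t * V' 0 + I * 0 - σ / β * V 0),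
    β * r / σ * cexp (I * (t + β / 2)) * V' (-1) - V (-1) - I * β * (ew β r t * V' (-1) + I * 0 - σ / β * V (-1)),
    fun s => ?_, ?_, ?_, ?_⟩
  · have h3 := (((hP' s).const_mul (ew β r t)).add ((hasDerivAt_gs_s β r t s).const_mul I)).sub
      ((hP s).const_mul (σ / β))
    have h4 := (((hP' s).const_mul (β * r / σ * cexp (I * (t + β / 2)))).sub (hP s)).sub
      (h3.const_mul (I * β))
    refine h4.congr_deriv ?_
    have h2 := exp_mul_gs hβ.ne' r t s
    have e1 : cexp (I * (s - t - σ)) = cexp (I * s) * (β * r / σ) := by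
      rw [← hexp, ← Complex.exp_add]
      congr 1
      ring
    unfold hqA mqA ew
    rw [e1]
    have h5 : I * ((-(I * (s - t) / β) + I * (r * cexp (I * s))) * gs β r t s) =
        ((s - t) / β - r * cexp (I * s)) * gs β r t s := by
      have : (I : ℂ) * I = -1 := Complex.I_mul_I
      linear_combination ((-(s - t) / β + r * cexp (I * s)) * gs β r t s) * this
    rw [h5]
    have e3 : r * cexp (I * (t + β / 2)) * gs β r (t + β) s + ((s - t) / β - r * cexp (I * s)) * gs β r t s -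
        σ / β * gs β r t s = (s - t - σ) / β * gs β r t s := by
      have e4 : (s - t - σ) / β * gs β r t s = (s - t) / β * gs β r t s - σ / β * gs β r t s := by ring
      rw [e4]
      linear_combination (-(r : ℂ)) * h2
    rw [e3]
    have e5 : I * (β : ℂ) * ((s - t - σ) / β * gs β r t s) = I * (s - t - σ) * gs β r t s := by
      field_simp
    rw [e5]
    linear_combination (-(β * r / σ)) * h2
  · have w1 := hV'.val 0 S₀ h0'.1 h0'.2
    have w2 := hV.val 0 S₀ h0.1 h0.2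
    exact ((w1.const_mul _).sub w2).sub ((((w1.const_mul _).add ((gs_leg_zero hβ hr h0).const_mul I)).sub
      (w2.const_mul _)).const_mul _)
  · have w1 := hV'.val (-1) S₁ h1'.1 h1'.2
    have w2 := hV.val (-1) S₁ h1.1 h1.2
    exact ((w1.const_mul _).sub w2).sub ((((w1.const_mul _).add ((gs_leg_zero hβ hr h1).const_mul I)).sub
      (w2.const_mul _)).const_mul _)
  · have e1 := hV.AA0 hβ hr hP
    have e2 := hV'.AA0 hβ hr hP'
    have e3 : β * r / σ * cexp (I * (t + β / 2)) = β / σ * ew β r t := by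
      unfold ew
      ring
    rw [e3]
    have e4 : (β / σ * ew β r t * V' 0 - V 0 - I * β * (ew β r t * V' 0 + I * 0 - σ / β * V 0)) -
        (β / σ * ew β r t * V' (-1) - V (-1) - I * β * (ew β r t * V' (-1) + I * 0 - σ / β * V (-1))) =
        (β / σ - I * β) * ew β r t * (V' 0 - V' (-1)) - (1 - I * β * (σ / β)) * (V 0 - V (-1)) := by ring
    rw [e4, e1, e2]
    field_simp

/-- second moment of the line between `S₁` and `S₀` -/
noncomputable def HorT (β r t y w S₁ S₀ : ℝ) : ℝ := ∫ X in S₁..S₀, (X - w) ^ 2 / 2 * mg β r t X y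

private theorem lim_bd {f : ℝ → ℂ} {l : ℂ} {F : Filter ℝ} [F.NeBot] (hl : Tendsto f F (𝓝 l)) {z : ℂ} {B : ℝ}
    (hb : ∀ᶠ Y in F, ‖z - f Y‖ ≤ B) : ‖z - l‖ ≤ B :=
  le_of_tendsto (tendsto_const_nhds.sub hl).norm hb

private theorem leg_step {β r t : ℝ} (hβ : 0 < β) {σ : ℂ} {Q : ℂ → ℂ} (hQ : ∀ s, HasDerivAt Q (hqA β r t σ s) s)
    {S z : ℝ} (hz : z ≤ σ.im) :
    ‖Q (S + σ.im * I) - Q (S + z * I)‖ ≤
      (2 + |S - (t + σ.re)|) * Real.exp σ.im * LegW β r (t + β) S z σ.im 1 := by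
  rw [← prim_ver (hqA_diff β r t σ) hQ, norm_mul, Complex.norm_I, one_mul]
  refine (intervalIntegral.norm_integral_le_integral_norm hz).trans ?_
  unfold LegW
  rw [← intervalIntegral.integral_const_mul]
  have hc1 : Continuous fun Y : ℝ => ‖hqA β r t σ (S + Y * I)‖ := by
    have := (hqA_diff β r t σ).continuous
    fun_prop
  have hc2 : Continuous fun Y : ℝ => (2 + |S - (t + σ.re)|) * Real.exp σ.im *
      ((1 + (σ.im - Y)) * mg β r (t + β) S Y) := by
    have := continuous_mg_Y β r (t + β) S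
    fun_prop
  refine intervalIntegral.integral_mono_on hz (hc1.intervalIntegrable _ _) (hc2.intervalIntegrable _ _) ?_
  intro Y hY
  rw [norm_hqA]
  have hv : 0 ≤ σ.im - Y := by linarith [hY.2]
  have e1 : (S : ℂ) + Y * I - t - σ = ((S - (t + σ.re) : ℝ) : ℂ) - ((σ.im - Y : ℝ) : ℂ) * I := by
    have eσ := Complex.re_add_im σ
    push_cast
    linear_combination eσ
  have h1 := norm_mqA_down (S - (t + σ.re)) (σ.im - Y) hv
  rw [← e1] at h1
  have e2 : mg β r (t + β) S Y = Real.exp (-Y) * mg β r t S Y := by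
    unfold mg
    rw [← Real.exp_add]
    congr 1
    have hb := hβ.ne'
    field_simp
    ring
  have e3 : Real.exp (σ.im - Y) = Real.exp σ.im * Real.exp (-Y) := by rw [← Real.exp_add]; congr 1
  have hm := mg_pos β r t S Y
  have hE := Real.exp_pos σ.im
  have hE' := Real.exp_pos (-Y)
  have ha : 0 ≤ 2 + |S - (t + σ.re)| := by positivity
  calc ‖mqA ((S : ℂ) + Y * I - t - σ)‖ * mg β r t S Y
      ≤ ((2 + |S - (t + σ.re)|) * Real.exp (σ.im - Y)) * mg β r t S Y := mul_le_mul_of_nonneg_right h1 hm.le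
    _ = (2 + |S - (t + σ.re)|) * Real.exp σ.im * (1 * (Real.exp (-Y) * mg β r t S Y)) := by rw [e3]; ring
    _ ≤ (2 + |S - (t + σ.re)|) * Real.exp σ.im * ((1 + (σ.im - Y)) * (Real.exp (-Y) * mg β r t S Y)) := by
        apply mul_le_mul_of_nonneg_left _ (by positivity)
        apply mul_le_mul_of_nonneg_right _ (by positivity)
        linarith
    _ = _ := by rw [e2]

private theorem hor_step {β r t : ℝ} {σ : ℂ} {Q : ℂ → ℂ} (hQ : ∀ s, HasDerivAt Q (hqA β r t σ s) s) {S₁ S₀ : ℝ}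
    (h : S₁ ≤ S₀) :
    ‖Q (S₀ + σ.im * I) - Q (S₁ + σ.im * I)‖ ≤ HorT β r t σ.im (t + σ.re) S₁ S₀ := by
  rw [← prim_hor (hqA_diff β r t σ) hQ]
  refine (intervalIntegral.norm_integral_le_integral_norm h).trans ?_
  unfold HorT
  have hc1 : Continuous fun X : ℝ => ‖hqA β r t σ (X + σ.im * I)‖ := by
    have := (hqA_diff β r t σ).continuous
    fun_prop
  have hc2 : Continuous fun X : ℝ => (X - (t + σ.re)) ^ 2 / 2 * mg β r t X σ.im := by
    have := continuous_mg_X β r t σ.im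
    fun_prop
  refine intervalIntegral.integral_mono_on h (hc1.intervalIntegrable _ _) (hc2.intervalIntegrable _ _) ?_
  intro X _
  rw [norm_hqA]
  have e1 : (X : ℂ) + σ.im * I - t - σ = ((X - (t + σ.re) : ℝ) : ℂ) := by
    have eσ := Complex.re_add_im σ
    push_cast
    linear_combination eσ
  rw [e1]
  exact mul_le_mul_of_nonneg_right (norm_mqA_real _) (mg_pos _ _ _ _ _).le

/-- SECOND-MOMENT BOUND for a window at its saddle, line between the valley points `S₁`, `S₀` -/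
theorem norm_AA_secS {β r t : ℝ} (hβ : 0 < β) (hr : 0 < r) {σ : ℂ} (hs : σ = β * (r * cexp (I * (t + σ))))
    {S₀ S₁ : ℝ} (g0 : InV t 0 S₀) (g0' : InV (t + β) 0 S₀) (g1 : InV t (-1) S₁) (g1' : InV (t + β) (-1) S₁)
    (h10 : S₁ ≤ S₀) {B₀ B₁ : ℝ} (h0 : ∀ z ≤ σ.im, LegW β r (t + β) S₀ z σ.im 1 ≤ B₀)
    (h1 : ∀ z ≤ σ.im, LegW β r (t + β) S₁ z σ.im 1 ≤ B₁) :
    ‖ew β r t * AA β r (t + β) - σ / β * AA β r t‖ * (β * ‖1 - I * σ‖) ≤
      ‖σ‖ * ((Real.sqrt (2 * Real.pi * β))⁻¹ * (HorT β r t σ.im (t + σ.re) S₁ S₀ +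
        (2 + |S₀ - (t + σ.re)|) * Real.exp σ.im * B₀ + (2 + |S₁ - (t + σ.re)|) * Real.exp σ.im * B₁)) := by
  have hpi := Real.pi_pos
  have hβ' : (β : ℂ) ≠ 0 := Complex.ofReal_ne_zero.2 hβ.ne'
  have hr' : (r : ℂ) ≠ 0 := Complex.ofReal_ne_zero.2 hr.ne'
  have hσ : σ ≠ 0 := by
    rw [hs]
    exact mul_ne_zero hβ' (mul_ne_zero hr' (Complex.exp_ne_zero _))
  obtain ⟨Q, W₀, W₁, hQ, hW0, hW1, e1⟩ := exists_QVS hβ hr t hs g0 g0' g1 g1'
  have k0 : 0 ≤ (2 + |S₀ - (t + σ.re)|) * Real.exp σ.im := by positivity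
  have k1 : 0 ≤ (2 + |S₁ - (t + σ.re)|) * Real.exp σ.im := by positivity
  have l0 : ‖Q (S₀ + σ.im * I) - W₀‖ ≤ (2 + |S₀ - (t + σ.re)|) * Real.exp σ.im * B₀ :=
    lim_bd hW0 (by
      filter_upwards [eventually_le_atBot σ.im] with Y hY
      exact (leg_step (r := r) (t := t) hβ hQ hY).trans (mul_le_mul_of_nonneg_left (h0 Y hY) k0))
  have l1 : ‖Q (S₁ + σ.im * I) - W₁‖ ≤ (2 + |S₁ - (t + σ.re)|) * Real.exp σ.im * B₁ :=
    lim_bd hW1 (by
      filter_upwards [eventually_le_atBot σ.im] with Y hY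
      exact (leg_step (r := r) (t := t) hβ hQ hY).trans (mul_le_mul_of_nonneg_left (h1 Y hY) k1))
  have l2 := hor_step (β := β) (r := r) (t := t) hQ h10
  have e3 : W₀ - W₁ = -(Q (S₀ + σ.im * I) - W₀) +
      (Q (S₀ + σ.im * I) - Q (S₁ + σ.im * I)) + (Q (S₁ + σ.im * I) - W₁) := by ring
  have l4 : ‖W₀ - W₁‖ ≤ HorT β r t σ.im (t + σ.re) S₁ S₀ +
        (2 + |S₀ - (t + σ.re)|) * Real.exp σ.im * B₀ + (2 + |S₁ - (t + σ.re)|) * Real.exp σ.im * B₁ := by
    rw [e3]
    refine (norm_add_le _ _).trans ?_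
    have l3 := norm_add_le (-(Q (S₀ + σ.im * I) - W₀)) (Q (S₀ + σ.im * I) - Q (S₁ + σ.im * I))
    rw [norm_neg] at l3
    linarith
  have e5 : (ew β r t * AA β r (t + β) - σ / β * AA β r t) * (β * (1 - I * σ)) =
      σ * ((cF β)⁻¹ * (W₀ - W₁)) * 1 := by
    rw [e1, inv_mul_cancel_left₀ (cF_ne hβ)]
    field_simp
  have e6 := congrArg norm e5
  rw [norm_mul, norm_mul, norm_mul, norm_mul, norm_mul, norm_one, mul_one, Complex.norm_real, Real.norm_of_nonneg hβ.le,
    norm_inv, norm_cF] at e6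
  rw [e6]
  apply mul_le_mul_of_nonneg_left _ (norm_nonneg _)
  exact mul_le_mul_of_nonneg_left l4 (by positivity)

/-! ### pointwise bounds of the relative exponent -/

/-- `β` times the relative exponent on the line -/
noncomputable def Gx (x y u : ℝ) : ℝ := x * (Real.cos u - 1) + y * (u - Real.sin u)

theorem Gx_neg (x y u : ℝ) : Gx x y (-u) = Gx x (-y) u := by
  unfold Gx
  rw [Real.cos_neg, Real.sin_neg]
  ring

theorem continuous_Gx (x y : ℝ) : Continuous (Gx x y) := by unfold Gx; fun_prop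

theorem mg_Gx {β r t a y : ℝ} (h : Mid.Sad β r t a y) (u : ℝ) :
    mg β r t (a + u) y = Real.exp ((a - t) * (1 + y) / β) * Real.exp (Gx (a - t) y u / β) := by
  have hb := h.hβ.ne'
  unfold mg
  rw [← Real.exp_add]
  congr 1
  have k1 : (a - t) / β = r * Real.exp (-y) * Real.cos a := by
    rw [← h.hc]; field_simp
  have k2 : y / β = r * Real.exp (-y) * Real.sin a := by
    have := h.hs
    rw [div_eq_iff hb]
    linarith
  have h1 : r * Real.cos (a + u) * Real.exp (-y) = (a - t) / β * Real.cos u - y / β * Real.sin u := by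
    rw [Real.cos_add, k1, k2]
    ring
  rw [h1]
  unfold Gx
  field_simp
  ring

private theorem sub_sin_le {u : ℝ} (hu : 0 ≤ u) : u - Real.sin u ≤ u ^ 3 / 6 := by
  rcases hu.eq_or_lt with h | h
  · rw [← h]; simp
  · have := Real.sin_gt_sub_cube h
    linarith

private theorem cos_quart {u : ℝ} (hu : 0 ≤ u) (hu1 : u ≤ 1) : Real.cos u ≤ 1 - u ^ 2 / 2 + u ^ 4 / 24 := by
  obtain ⟨v, hv⟩ : ∃ v : ℝ, v = u / 2 := ⟨_, rfl⟩
  have hv0 : 0 ≤ v := by rw [hv]; linarith
  have hv1 : v ≤ 1 / 2 := by rw [hv]; linarith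
  have e1 : u = 2 * v := by rw [hv]; ring
  rw [e1, Real.cos_two_mul, Real.cos_sq']
  have h1 := sub_sin_le hv0
  have h2 : 0 ≤ v - v ^ 3 / 6 := by nlinarith [pow_le_pow_of_le_one hv0 (by linarith : v ≤ 1) (by norm_num : 1 ≤ 3)]
  have h3 : (v - v ^ 3 / 6) ^ 2 ≤ Real.sin v ^ 2 := pow_le_pow_left₀ h2 (by linarith) 2
  nlinarith [pow_nonneg hv0 6]

private theorem cos_half : (1:ℝ) / 2 ≤ Real.cos 1 := by
  have := Real.one_sub_sq_div_two_le_cos (x := 1)
  linarith

private theorem cos_one_up : Real.cos 1 ≤ 13 / 24 := by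
  have := cos_quart (u := 1) (by norm_num) le_rfl
  linarith

private theorem sin_one_lo : (5:ℝ) / 6 ≤ Real.sin 1 := by
  have := sub_sin_le (u := 1) (by norm_num)
  linarith

/-- central part, hard side -/
theorem Gx_hard_cen {x y u : ℝ} (hx : 0 ≤ x) (hy : 0 ≤ y) (hu : 0 ≤ u) (hu1 : u ≤ 1) :
    Gx x y u ≤ -((11 / 12 * x - y / 3) * u ^ 2 / 2) := by
  unfold Gx
  have h1 := mul_le_mul_of_nonneg_left (cos_quart hu hu1) hx
  have h2 := mul_le_mul_of_nonneg_left (sub_sin_le hu) hy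
  have h3 : u ^ 4 ≤ u ^ 2 := pow_le_pow_of_le_one hu hu1 (by norm_num)
  have h4 : u ^ 3 ≤ u ^ 2 := pow_le_pow_of_le_one hu hu1 (by norm_num)
  nlinarith [mul_le_mul_of_nonneg_left h3 hx, mul_le_mul_of_nonneg_left h4 hy]

/-- central part, easy side -/
theorem Gx_easy_cen {x y u : ℝ} (hx : 0 ≤ x) (hy : 0 ≤ y) (hu : 0 ≤ u) (hu1 : u ≤ 1) :
    Gx x (-y) u ≤ -(11 / 12 * x * u ^ 2 / 2) := by
  unfold Gx
  have h1 := mul_le_mul_of_nonneg_left (cos_quart hu hu1) hx
  have h2 : 0 ≤ u - Real.sin u := by linarith [Real.sin_le hu]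
  have h3 : u ^ 4 ≤ u ^ 2 := pow_le_pow_of_le_one hu hu1 (by norm_num)
  nlinarith [mul_le_mul_of_nonneg_left h3 hx, mul_nonneg hy h2]

private theorem cos_line {u : ℝ} (hu : 1 ≤ u) (hu' : u ≤ Real.pi) : Real.cos u ≤ 13 / 24 - 0.7 * (u - 1) := by
  have hpi := Real.pi_lt_d4
  have h := N1.cos_le_line (u := 1) (v := u) (m := 0.7) (by norm_num) hu hu' (by linarith [sin_one_lo])
    (by nlinarith [cos_half])
  linarith [cos_one_up]

/-- tail, easy side, up to `π + α`, `tan α = y / x` -/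
theorem Gx_easy_tail {x y u α : ℝ} (hx : 0 ≤ x) (hy : 0 ≤ y) (hα1 : α ≤ Real.pi / 2) (hxy : x * α ≤ y)
    (hu : 1 ≤ u) (hu' : u ≤ Real.pi + α) : Gx x (-y) u ≤ -(11 / 24 * x) - 7 / 10 * x * (u - 1) := by
  have hpi := Real.pi_gt_three
  have hpi4 := Real.pi_lt_d4
  unfold Gx
  rcases le_total u Real.pi with h | h
  · have h1 := mul_le_mul_of_nonneg_left (cos_line hu h) hx
    have h2 : 0 ≤ u - Real.sin u := by linarith [Real.sin_le (by linarith : 0 ≤ u)]
    nlinarith [mul_nonneg hy h2]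
  · obtain ⟨θ, hθ⟩ : ∃ θ : ℝ, θ = u - Real.pi := ⟨_, rfl⟩
    have hu2 : u = θ + Real.pi := by rw [hθ]; ring
    have hθ0 : 0 ≤ θ := by rw [hθ]; linarith
    have hθα : θ ≤ α := by rw [hθ]; linarith
    rw [hu2, Real.cos_add_pi, Real.sin_add_pi]
    have h1 := Real.one_sub_sq_div_two_le_cos (x := θ)
    have h2 : 0 ≤ Real.sin θ := Real.sin_nonneg_of_nonneg_of_le_pi hθ0 (by linarith)
    have h3 : x * θ ≤ y := (mul_le_mul_of_nonneg_left hθα hx).trans hxy
    have h4 : 3 * y ≤ y * (θ + Real.pi + Real.sin θ) := by nlinarith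
    have h5 : x * (θ ^ 2 / 2) ≤ x * (0.8 * θ) := by
      apply mul_le_mul_of_nonneg_left _ hx
      nlinarith
    have h6 : x * (1 - θ ^ 2 / 2) ≤ x * Real.cos θ := mul_le_mul_of_nonneg_left h1 hx
    have h7 : x * (7 / 10 * Real.pi) ≤ x * 2.2 := mul_le_mul_of_nonneg_left (by linarith) hx
    nlinarith [mul_nonneg hx hθ0]

private theorem sin_line {u : ℝ} (hu : 1 ≤ u) (hu' : u ≤ Real.pi) : u - Real.sin u ≤ 1 / 6 + 7 / 5 * (u - 1) := by
  have hpi := Real.pi_gt_three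
  have hpi5 := Real.pi_gt_d2
  have hc := strictConcaveOn_sin_Icc.concaveOn
  have hm0 : (1:ℝ) ∈ Icc 0 Real.pi := ⟨by norm_num, by linarith⟩
  have hm1 : Real.pi ∈ Icc 0 Real.pi := ⟨by linarith, le_rfl⟩
  have hp1 : 0 < Real.pi - 1 := by linarith
  obtain ⟨s, hs⟩ : ∃ s : ℝ, s = (u - 1) / (Real.pi - 1) := ⟨_, rfl⟩
  have hs0 : 0 ≤ s := by rw [hs]; exact div_nonneg (by linarith) hp1.le
  have hs1 : s ≤ 1 := by rw [hs, div_le_one hp1]; linarith
  have h1 := hc.2 hm0 hm1 (by linarith : 0 ≤ 1 - s) hs0 (by ring)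
  simp only [smul_eq_mul, mul_one, Real.sin_pi, mul_zero, add_zero] at h1
  have e1 : 1 - s + s * Real.pi = u := by rw [hs]; field_simp; ring
  rw [e1] at h1
  have e2 : u - 1 = s * (Real.pi - 1) := by rw [hs]; field_simp
  have h2 : (1 - s) * (5 / 6) ≤ (1 - s) * Real.sin 1 := mul_le_mul_of_nonneg_left sin_one_lo (by linarith)
  rw [e2]
  nlinarith

/-- tail, hard side, up to `π` -/
theorem Gx_hard_tail {x y u : ℝ} (hx : 0 ≤ x) (hy : 0 ≤ y) (hu : 1 ≤ u) (hu' : u ≤ Real.pi) :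
    Gx x y u ≤ -(11 / 24 * x - y / 6) - (7 / 10 * x - 7 / 5 * y) * (u - 1) := by
  unfold Gx
  have h1 := mul_le_mul_of_nonneg_left (cos_line hu hu') hx
  have h2 := mul_le_mul_of_nonneg_left (sin_line hu hu') hy
  linarith

/-- tail, hard side, up to `π / 2 - α` -/
theorem Gx_hard_tan {x y u α ρ : ℝ} (hy : 0 ≤ y) (hx : 0 ≤ x) (hα : 0 ≤ α) (hρ : 0 ≤ ρ) (hxα : x = ρ * Real.cos α)
    (hyα : y = ρ * Real.sin α) (hu : 1 ≤ u) (hu' : α + u ≤ Real.pi / 2) :
    Gx x y u ≤ -(11 / 24 * x - y / 6) - (5 / 6 * x - y / 2) * (u - 1) := by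
  have hpi := Real.pi_gt_three
  have h1 : Real.cos (α + u) ≤ Real.cos (α + 1) - Real.sin (α + 1) * (u - 1) := by
    have h2 : ∀ z ∈ Icc (1:ℝ) u, HasDerivWithinAt (fun z => Real.cos (α + 1) - Real.sin (α + 1) * (z - 1) -
        Real.cos (α + z)) (Real.sin (α + z) - Real.sin (α + 1)) (Icc 1 u) z := by
      intro z _
      have h3 : HasDerivAt (fun z : ℝ => Real.sin (α + 1) * (z - 1)) (Real.sin (α + 1)) z := by
        have := ((hasDerivAt_id z).sub_const 1).const_mul (Real.sin (α + 1))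
        simpa using this
      have h4 : HasDerivAt (fun z : ℝ => Real.cos (α + z)) (-Real.sin (α + z)) z := by
        have := ((hasDerivAt_id z).const_add α).cos
        simpa using this
      have h5 := (h3.const_sub (Real.cos (α + 1))).sub h4
      refine (h5.congr_deriv ?_).hasDerivWithinAt
      ring
    have h6 : MonotoneOn (fun z => Real.cos (α + 1) - Real.sin (α + 1) * (z - 1) - Real.cos (α + z)) (Icc 1 u) := by
      refine monotoneOn_of_hasDerivWithinAt_nonneg (convex_Icc 1 u) (fun z hz => (h2 z hz).continuousWithinAt)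
        (f' := fun z => Real.sin (α + z) - Real.sin (α + 1)) (fun z hz => ?_) (fun z hz => ?_)
      · rw [interior_Icc] at hz ⊢
        exact (h2 z ⟨hz.1.le, hz.2.le⟩).mono Ioo_subset_Icc_self
      · rw [interior_Icc] at hz
        have := Real.sin_le_sin_of_le_of_le_pi_div_two (x := α + 1) (y := α + z) (by linarith) (by linarith [hz.2])
          (by linarith [hz.1])
        linarith
    have h7 := h6 (left_mem_Icc.2 hu) (right_mem_Icc.2 hu) hu
    simp only [sub_self, mul_zero, sub_zero] at h7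
    linarith
  have h2 := mul_le_mul_of_nonneg_left h1 hρ
  rw [Real.cos_add, Real.cos_add, Real.sin_add] at h2
  have e1 : ρ * (Real.cos α * Real.cos u - Real.sin α * Real.sin u) = x * Real.cos u - y * Real.sin u := by
    rw [hxα, hyα]; ring
  have e2 : ρ * (Real.cos α * Real.cos 1 - Real.sin α * Real.sin 1 - (Real.sin α * Real.cos 1 + Real.cos α * Real.sin 1) *
      (u - 1)) = x * Real.cos 1 - y * Real.sin 1 - (y * Real.cos 1 + x * Real.sin 1) * (u - 1) := by
    rw [hxα, hyα]; ring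
  rw [e1, e2] at h2
  unfold Gx
  have c1 := mul_le_mul_of_nonneg_left cos_one_up hx
  have c2 := mul_le_mul_of_nonneg_left sin_one_lo hy
  have c3 := mul_le_mul_of_nonneg_left sin_one_lo hx
  have c4 := mul_le_mul_of_nonneg_left cos_half hy
  have hu1 : 0 ≤ u - 1 := by linarith
  nlinarith [mul_le_mul_of_nonneg_right c3 hu1, mul_le_mul_of_nonneg_right c4 hu1]

end Sok
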