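import Pool.Agent.Lib.MP_816dec_an.A0Sec2

/-!
MP_816dec_an (R2, N2): closed forms of the second-moment bound at a saddle.
-/

set_option autoImplicit false

open Complex Set Filter Topology MeasureTheory

namespace Sok

open Sok.Mid Sok.N1

private theorem qtl_int {u ν l : ℝ} (hν : 0 < ν) (hu : 0 ≤ u) (hl : 0 ≤ l) :
    ∫ s in (0:ℝ)..l, (u + s) ^ 2 / 2 * Real.exp (-(ν * s)) ≤ qtl u ν := by
  have h1 : ∀ s ∈ uIcc 0 l, HasDerivAt (fun s : ℝ => -(Real.exp (-(ν * s)) *
      ((u + s) ^ 2 / 2 / ν + (u + s) / ν ^ 2 + 1 / ν ^ 3))) ((u + s) ^ 2 / 2 * Real.exp (-(ν * s))) s := by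
    intro s _
    have h2 : HasDerivAt (fun s : ℝ => -(ν * s)) (-ν) s := by
      have := ((hasDerivAt_id s).const_mul ν).fun_neg
      rwa [mul_one] at this
    have h3 : HasDerivAt (fun s : ℝ => u + s) 1 s := (hasDerivAt_id s).const_add u
    have h4 := (((h3.pow 2).div_const 2).div_const ν).add ((h3.div_const (ν ^ 2)).add_const (1 / ν ^ 3))
    have h5 := (h2.exp.mul h4).neg
    have e : (fun s : ℝ => -(Real.exp (-(ν * s)) * ((u + s) ^ 2 / 2 / ν + (u + s) / ν ^ 2 + 1 / ν ^ 3))) =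
        fun s : ℝ => -(Real.exp (-(ν * s)) * ((u + s) ^ 2 / 2 / ν + ((u + s) / ν ^ 2 + 1 / ν ^ 3))) := by
      funext s; ring
    rw [e]
    refine h5.congr_deriv ?_
    simp only [Pi.add_apply, Pi.pow_apply]
    field_simp
    ring
  rw [intervalIntegral.integral_eq_sub_of_hasDerivAt h1
    ((by fun_prop : Continuous fun s : ℝ => (u + s) ^ 2 / 2 * Real.exp (-(ν * s))).intervalIntegrable _ _)]
  have h4 : 0 ≤ Real.exp (-(ν * l)) * ((u + l) ^ 2 / 2 / ν + (u + l) / ν ^ 2 + 1 / ν ^ 3) := by positivity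
  unfold qtl
  simp only [mul_zero, neg_zero, Real.exp_zero, add_zero, one_mul]
  linarith

/-- closed form of half a line: central Gaussian and tail -/
noncomputable def hB (β c g ν : ℝ) : ℝ := Real.sqrt (2 * Real.pi) / 4 / ((c / β) * Real.sqrt (c / β)) +
  Real.exp (-(g / β)) * qtl 1 (ν / β)

theorem gauss_half {b : ℝ} (hb : 0 < b) {L : ℝ} (hL : 0 ≤ L) :
    ∫ u in (0:ℝ)..L, u ^ 2 / 2 * Real.exp (-(b * u ^ 2 / 2)) ≤ Real.sqrt (2 * Real.pi) / 4 / (b * Real.sqrt b) := by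
  have hb2 : 0 < b / 2 := by positivity
  have hi : Integrable (fun u : ℝ => |u| ^ 2 * Real.exp (-(b / 2) * u ^ 2)) := integrable_abs_pow_gauss 2 hb2
  have hval : ∫ u : ℝ, |u| ^ 2 * Real.exp (-(b / 2) * u ^ 2) = Real.sqrt (2 * Real.pi) / (b * Real.sqrt b) := by
    rw [integral_sq_gauss hb2]
    have e1 : (((2 : ℕ) : ℝ) + 1) / 2 = 1 / 2 + 1 := by norm_num
    have e2 : -(((2 : ℕ) : ℝ) + 1) / 2 = -(1 + 1 / 2) := by norm_num
    rw [e1, e2, Real.Gamma_add_one (by norm_num), Real.Gamma_one_half_eq, Real.rpow_neg hb2.le, Real.rpow_add hb2,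
      Real.rpow_one, ← Real.sqrt_eq_rpow, Real.sqrt_div hb.le, Real.sqrt_mul (by norm_num)]
    have h2 : Real.sqrt 2 * Real.sqrt 2 = 2 := Real.mul_self_sqrt (by norm_num)
    have h3 : Real.sqrt 2 ≠ 0 := by positivity
    have h4 : Real.sqrt b ≠ 0 := by positivity
    field_simp
  have hhalf : ∫ u in Ioi (0:ℝ), u ^ 2 * Real.exp (-(b / 2) * u ^ 2) =
      Real.sqrt (2 * Real.pi) / (b * Real.sqrt b) / 2 := by
    have h1 := integral_comp_abs (f := fun t : ℝ => t ^ 2 * Real.exp (-(b / 2) * t ^ 2))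
    simp only [sq_abs] at h1
    simp only [sq_abs] at hval
    rw [hval] at h1
    linarith
  have h1 : ∫ u in (0:ℝ)..L, u ^ 2 / 2 * Real.exp (-(b * u ^ 2 / 2)) =
      1 / 2 * ∫ u in (0:ℝ)..L, u ^ 2 * Real.exp (-(b / 2) * u ^ 2) := by
    rw [← intervalIntegral.integral_const_mul]
    congr 1
    funext u
    have e : -(b * u ^ 2 / 2) = -(b / 2) * u ^ 2 := by ring
    rw [e]
    ring
  rw [h1, intervalIntegral.integral_of_le hL]
  have hi2 : IntegrableOn (fun u : ℝ => u ^ 2 * Real.exp (-(b / 2) * u ^ 2)) (Ioi 0) := by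
    have := hi.integrableOn (s := Ioi 0)
    simpa only [sq_abs] using this
  have h2 : ∫ u in Ioc 0 L, u ^ 2 * Real.exp (-(b / 2) * u ^ 2) ≤ ∫ u in Ioi (0:ℝ), u ^ 2 * Real.exp (-(b / 2) * u ^ 2) :=
    setIntegral_mono_set hi2 (Filter.Eventually.of_forall fun u => by positivity) (Ioc_subset_Ioi_self.eventuallyLE)
  rw [hhalf] at h2
  refine (mul_le_mul_of_nonneg_left h2 (by norm_num)).trans (le_of_eq ?_)
  ring

theorem half_int {f : ℝ → ℝ} {β c g ν L : ℝ} (hβ : 0 < β) (hc : 0 < c) (hν : 0 < ν) (hL : 0 ≤ L) (hf : Continuous f)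
    (h1 : ∀ u, 0 ≤ u → u ≤ 1 → u ≤ L → f u ≤ -(c * u ^ 2 / 2))
    (h2 : ∀ u, 1 ≤ u → u ≤ L → f u ≤ -g - ν * (u - 1)) :
    ∫ u in (0:ℝ)..L, u ^ 2 / 2 * Real.exp (f u / β) ≤ hB β c g ν := by
  have hcβ : 0 < c / β := by positivity
  have hνβ : 0 < ν / β := by positivity
  have hq : 0 ≤ Real.exp (-(g / β)) * qtl 1 (ν / β) := by unfold qtl; positivity
  have hcont : Continuous fun u : ℝ => u ^ 2 / 2 * Real.exp (f u / β) := by fun_prop
  have hcen : ∀ L', 0 ≤ L' → L' ≤ 1 → L' ≤ L → ∫ u in (0:ℝ)..L', u ^ 2 / 2 * Real.exp (f u / β) ≤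
      Real.sqrt (2 * Real.pi) / 4 / ((c / β) * Real.sqrt (c / β)) := by
    intro L' h0 h1' h1''
    refine le_trans ?_ (gauss_half hcβ h0)
    refine intervalIntegral.integral_mono_on h0 (hcont.intervalIntegrable _ _)
      ((by fun_prop : Continuous fun u : ℝ => u ^ 2 / 2 * Real.exp (-(c / β * u ^ 2 / 2))).intervalIntegrable _ _) ?_
    intro u hu
    apply mul_le_mul_of_nonneg_left _ (by positivity)
    apply Real.exp_le_exp.2
    have h3 := h1 u hu.1 (hu.2.trans h1') (hu.2.trans h1'')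
    have h4 : f u / β ≤ -(c * u ^ 2 / 2) / β := div_le_div_of_nonneg_right h3 hβ.le
    refine h4.trans (le_of_eq ?_)
    ring
  unfold hB
  rcases le_total L 1 with hL1 | hL1
  · have := hcen L hL hL1 le_rfl
    linarith
  · have h3 := hcen 1 zero_le_one le_rfl hL1
    have h4 : ∫ u in (1:ℝ)..L, u ^ 2 / 2 * Real.exp (f u / β) ≤ Real.exp (-(g / β)) * qtl 1 (ν / β) := by
      have h5 : ∫ u in (1:ℝ)..L, u ^ 2 / 2 * Real.exp (f u / β) ≤
          ∫ u in (1:ℝ)..L, Real.exp (-(g / β)) *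
            ((fun s : ℝ => (1 + s) ^ 2 / 2 * Real.exp (-(ν / β * s))) (u - 1)) := by
        refine intervalIntegral.integral_mono_on hL1 (hcont.intervalIntegrable _ _)
          ((by fun_prop : Continuous fun u : ℝ => Real.exp (-(g / β)) *
            ((fun s : ℝ => (1 + s) ^ 2 / 2 * Real.exp (-(ν / β * s))) (u - 1))).intervalIntegrable _ _) ?_
        intro u hu
        simp only
        have e1 : (1 + (u - 1)) ^ 2 / 2 = u ^ 2 / 2 := by ring
        rw [e1, mul_left_comm, ← Real.exp_add]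
        apply mul_le_mul_of_nonneg_left _ (by positivity)
        apply Real.exp_le_exp.2
        have h6 := h2 u hu.1 hu.2
        have h7 : f u / β ≤ (-g - ν * (u - 1)) / β := div_le_div_of_nonneg_right h6 hβ.le
        refine h7.trans (le_of_eq ?_)
        ring
      refine h5.trans ?_
      rw [intervalIntegral.integral_const_mul, intervalIntegral.integral_comp_sub_right
        (fun s : ℝ => (1 + s) ^ 2 / 2 * Real.exp (-(ν / β * s)))]
      apply mul_le_mul_of_nonneg_left _ (Real.exp_pos _).le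
      rw [sub_self]
      exact qtl_int hνβ (by norm_num) (by linarith)
    rw [← intervalIntegral.integral_add_adjacent_intervals (hcont.intervalIntegrable 0 1) (hcont.intervalIntegrable 1 L)]
    linarith

/-- the line in terms of the relative exponent -/
theorem HorT_split {β r t a y : ℝ} (h : Sad β r t a y) (S₁ S₀ : ℝ) :
    HorT β r t y a S₁ S₀ = Real.exp ((a - t) * (1 + y) / β) *
      ((∫ u in (0:ℝ)..(a - S₁), u ^ 2 / 2 * Real.exp (Gx (a - t) (-y) u / β)) +
        ∫ u in (0:ℝ)..(S₀ - a), u ^ 2 / 2 * Real.exp (Gx (a - t) y u / β)) := by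
  have hc : ∀ y' : ℝ, Continuous fun u : ℝ => u ^ 2 / 2 * Real.exp (Gx (a - t) y' u / β) := by
    intro y'
    have := continuous_Gx (a - t) y'
    fun_prop
  have e1 : HorT β r t y a S₁ S₀ = ∫ X in S₁..S₀, (fun u : ℝ => Real.exp ((a - t) * (1 + y) / β) *
      (u ^ 2 / 2 * Real.exp (Gx (a - t) y u / β))) (X - a) := by
    unfold HorT
    congr 1
    funext X
    simp only
    have e2 : mg β r t X y = mg β r t (a + (X - a)) y := by congr 1; ring
    rw [e2, mg_Gx h]
    ring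
  rw [e1, intervalIntegral.integral_comp_sub_right (fun u : ℝ => Real.exp ((a - t) * (1 + y) / β) *
      (u ^ 2 / 2 * Real.exp (Gx (a - t) y u / β))), intervalIntegral.integral_const_mul,
    ← intervalIntegral.integral_add_adjacent_intervals ((hc y).intervalIntegrable (S₁ - a) 0)
      ((hc y).intervalIntegrable 0 (S₀ - a))]
  congr 2
  have e3 : ∫ u in (0:ℝ)..(a - S₁), u ^ 2 / 2 * Real.exp (Gx (a - t) (-y) u / β) =
      ∫ u in (0:ℝ)..(a - S₁), (fun u : ℝ => u ^ 2 / 2 * Real.exp (Gx (a - t) y u / β)) (-u) := by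
    congr 1
    funext u
    simp only
    rw [Gx_neg, neg_sq]
  rw [e3, intervalIntegral.integral_comp_neg (fun u : ℝ => u ^ 2 / 2 * Real.exp (Gx (a - t) y u / β))]
  congr 1 <;> ring

theorem norm_one_sub {t a y : ℝ} : ‖1 - I * Lx t a y‖ = nD (a - t) y := by
  rw [← norm_Dx]
  have e1 : I + ((a - t : ℝ) + y * I : ℂ) = I * (1 - I * Lx t a y) := by
    unfold Lx
    linear_combination (((a - t : ℝ) : ℂ) + y * I) * Complex.I_sq
  rw [e1, norm_mul, Complex.norm_I, one_mul]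

theorem norm_Lx_nS (t a y : ℝ) : ‖Lx t a y‖ = nS (a - t) y := by
  unfold Lx
  rw [norm_xy]

theorem Sad.hs' {β r t a y : ℝ} (h : Sad β r t a y) : Lx t a y = β * (r * cexp (I * (t + Lx t a y))) := by
  have h1 := h.eq
  have e2 : (r : ℂ) * cexp (I * (t + β / 2)) * cexp (-(I * β / 2)) * cexp (I * Lx t a y) =
      r * cexp (I * (t + Lx t a y)) := by
    rw [mul_assoc, mul_assoc, ← Complex.exp_add, ← Complex.exp_add]
    congr 2
    ring
  rw [e2] at h1
  exact h1

/-- the exact form of both slopes -/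
theorem slope_gen {β r t a y : ℝ} (h : Sad β r t a y) {S₀ S₁ : ℝ} (g0 : InV t 0 S₀) (g0' : InV (t + β) 0 S₀)
    (g1 : InV t (-1) S₁) (g1' : InV (t + β) (-1) S₁) (h1a : S₁ ≤ a) (h0a : a ≤ S₀) {B₀ B₁ H₀ H₁ : ℝ}
    (h0 : ∀ z ≤ y, LegW β r (t + β) S₀ z y 1 ≤ B₀) (h1 : ∀ z ≤ y, LegW β r (t + β) S₁ z y 1 ≤ B₁)
    (k1 : ∫ u in (0:ℝ)..(a - S₁), u ^ 2 / 2 * Real.exp (Gx (a - t) (-y) u / β) ≤ H₁)
    (k0 : ∫ u in (0:ℝ)..(S₀ - a), u ^ 2 / 2 * Real.exp (Gx (a - t) y u / β) ≤ H₀) :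
    ‖ew β r t * AA β r (t + β) - Lx t a y / β * AA β r t‖ * (β * nD (a - t) y) ≤
      nS (a - t) y * ((Real.sqrt (2 * Real.pi * β))⁻¹ * (Real.exp ((a - t) * (1 + y) / β) * (H₁ + H₀) +
        (2 + (S₀ - a)) * Real.exp y * B₀ + (2 + (a - S₁)) * Real.exp y * B₁)) := by
  have e1 : (Lx t a y).im = y := Lx_im t a y
  have e2 : t + (Lx t a y).re = a := by rw [Lx_re]; ring
  have hm := norm_AA_secS h.hβ h.hr (Sad.hs' h) g0 g0' g1 g1' (h1a.trans h0a) (B₀ := B₀) (B₁ := B₁)
    (by rw [e1]; exact h0) (by rw [e1]; exact h1)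
  rw [e1, e2, norm_one_sub, norm_Lx_nS, HorT_split h, abs_of_nonneg (by linarith : 0 ≤ S₀ - a),
    abs_of_nonpos (by linarith : S₁ - a ≤ 0)] at hm
  refine hm.trans ?_
  apply mul_le_mul_of_nonneg_left _ (by unfold nS; positivity)
  apply mul_le_mul_of_nonneg_left _ (by positivity)
  have h3 := Real.exp_pos ((a - t) * (1 + y) / β)
  have h4 : 2 + -(S₁ - a) = 2 + (a - S₁) := by ring
  rw [h4]
  have h5 : Real.exp ((a - t) * (1 + y) / β) * ((∫ u in (0:ℝ)..(a - S₁), u ^ 2 / 2 * Real.exp (Gx (a - t) (-y) u / β)) +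
        ∫ u in (0:ℝ)..(S₀ - a), u ^ 2 / 2 * Real.exp (Gx (a - t) y u / β)) ≤
      Real.exp ((a - t) * (1 + y) / β) * (H₁ + H₀) := mul_le_mul_of_nonneg_left (add_le_add k1 k0) h3.le
  linarith

private theorem inV0 (t : ℝ) : InV t 0 Real.pi := by
  have := inV_center t 0
  simpa using this

private theorem inVm (t : ℝ) : InV t (-1) (-Real.pi) := by
  have := inV_center t (-1)
  have e1 : (2 * ((-1 : ℤ) : ℝ) + 1) * Real.pi = -Real.pi := by push_cast; ring
  rwa [e1] at this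

private theorem inVh {t : ℝ} (ht : t < Real.pi / 2) : InV t 0 (Real.pi / 2) := by
  have hpi := Real.pi_pos
  refine ⟨?_, Or.inr ht⟩
  have e1 : Real.pi / 2 - (2 * ((0 : ℤ) : ℝ) + 1) * Real.pi = -(Real.pi / 2) := by push_cast; ring
  rw [e1, abs_neg, abs_of_pos (by positivity)]

/-- `x tan⁻¹(y/x) ≤ y` for a saddle with `0 ≤ a < π/2` -/
theorem Sad.xa_le {β r t a y : ℝ} (h : Sad β r t a y) (ha0 : 0 ≤ a) (ha : a < Real.pi / 2) : (a - t) * a ≤ y := by
  have hca : 0 < Real.cos a := Real.cos_pos_of_mem_Ioo ⟨by linarith, ha⟩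
  have h1 : a ≤ Real.tan a := Real.le_tan ha0 ha
  have hρ : 0 < β * r * Real.exp (-y) := mul_pos (mul_pos h.hβ h.hr) (Real.exp_pos _)
  have k1 := h.hc
  have k2 := h.hs
  generalize β * r * Real.exp (-y) = ρ at hρ k1 k2
  rw [← k1, ← k2]
  have h2 : a * Real.cos a ≤ Real.sin a := by
    have h3 := mul_le_mul_of_nonneg_right h1 hca.le
    rwa [Real.tan_mul_cos hca.ne'] at h3
  nlinarith

/-- SLOPE, saddle with `y ≥ 0` (window `X_1`), closed form; line from `-π` to `π/2` -/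
theorem slopeR {β r t a y : ℝ} (h : Sad β r t a y) (hy0 : 0 ≤ y) (ha0 : 0 ≤ a) (ha : a < Real.pi / 2)
    (hν : 3 * y < 5 * (a - t)) (htβ : t + β < Real.pi / 2) {B₁ : ℝ}
    (h1 : ∀ z ≤ y, LegW β r (t + β) (-Real.pi) z y 1 ≤ B₁) :
    ‖ew β r t * AA β r (t + β) - Lx t a y / β * AA β r t‖ * (β * nD (a - t) y) ≤
      nS (a - t) y * ((Real.sqrt (2 * Real.pi * β))⁻¹ * (Real.exp ((a - t) * (1 + y) / β) *
        (hB β (11 / 12 * (a - t)) (11 / 24 * (a - t)) (7 / 10 * (a - t)) +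
          hB β (11 / 12 * (a - t) - y / 3) (11 / 24 * (a - t) - y / 6) (5 / 6 * (a - t) - y / 2)) +
        (2 + (Real.pi / 2 - a)) * (Real.exp ((Real.pi / 2 - t) * y / β) *
          (1 / ((Real.pi / 2 - t - β) / β) + 1 / ((Real.pi / 2 - t - β) / β) ^ 2)) +
        (2 + (a + Real.pi)) * Real.exp y * B₁)) := by
  have hpi := Real.pi_pos
  have hβ := h.hβ
  have hr := h.hr
  have hx : 0 < a - t := by linarith
  have hδ : 0 < (Real.pi / 2 - t - β) / β := by apply div_pos _ hβ; linarith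
  have e1 : a - -Real.pi = a + Real.pi := by ring
  have hgen := slope_gen h (S₀ := Real.pi / 2) (S₁ := -Real.pi) (inVh (by linarith)) (inVh htβ) (inVm t) (inVm (t + β))
    (by linarith) ha.le
    (B₀ := Real.exp (-y) * (Real.exp ((Real.pi / 2 - t) * y / β) *
      (1 / ((Real.pi / 2 - t - β) / β) + 1 / ((Real.pi / 2 - t - β) / β) ^ 2))) (B₁ := B₁)
    (H₁ := hB β (11 / 12 * (a - t)) (11 / 24 * (a - t)) (7 / 10 * (a - t)))
    (H₀ := hB β (11 / 12 * (a - t) - y / 3) (11 / 24 * (a - t) - y / 6) (5 / 6 * (a - t) - y / 2)) ?_ h1 ?_ ?_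
  · rw [e1] at hgen
    refine hgen.trans (le_of_eq ?_)
    have e2 : Real.exp y * Real.exp (-y) = 1 := by rw [← Real.exp_add, add_neg_cancel, Real.exp_zero]
    congr 3
    congr 1
    calc _ = (2 + (Real.pi / 2 - a)) * (Real.exp ((Real.pi / 2 - t) * y / β) *
          (1 / ((Real.pi / 2 - t - β) / β) + 1 / ((Real.pi / 2 - t - β) / β) ^ 2)) * (Real.exp y * Real.exp (-y)) := by
          ring
      _ = _ := by rw [e2, mul_one]
  · intro z hz
    have hl := LegW_le_top (β := β) (r := r) (t := t + β) (S := Real.pi / 2) (v := y) (A := 1) hr.le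
      (by rw [Real.cos_pi_div_two]) zero_le_one (by
        rw [Real.cos_pi_div_two, mul_zero, zero_mul, sub_zero]
        have : (Real.pi / 2 - (t + β)) / β = (Real.pi / 2 - t - β) / β := by ring
        rw [this]; exact hδ) hz
    rw [Real.cos_pi_div_two, mul_zero, zero_mul, sub_zero] at hl
    refine hl.trans (le_of_eq ?_)
    have e3 : (Real.pi / 2 - (t + β)) / β = (Real.pi / 2 - t - β) / β := by ring
    rw [e3, ← mul_assoc, ← Real.exp_add]
    congr 1
    unfold mg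
    congr 1
    rw [Real.cos_pi_div_two, mul_zero, zero_mul, add_zero]
    have := hβ.ne'
    field_simp
    ring
  · rw [e1]
    refine half_int hβ (by positivity) (by positivity) (by linarith) (continuous_Gx _ _) ?_ ?_
    · intro u hu hu1 _
      refine (Gx_easy_cen hx.le hy0 hu hu1).trans (le_of_eq ?_)
      ring
    · intro u hu hu'
      exact Gx_easy_tail hx.le hy0 ha.le (Sad.xa_le h ha0 ha) hu (by linarith)
  · refine half_int hβ (by linarith) (by linarith) (by linarith) (continuous_Gx _ _) ?_ ?_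
    · intro u hu hu1 _
      refine (Gx_hard_cen hx.le hy0 hu hu1).trans (le_of_eq ?_)
      ring
    · intro u hu hu'
      have hρ : 0 ≤ β * r * Real.exp (-y) := (mul_pos (mul_pos hβ hr) (Real.exp_pos _)).le
      exact Gx_hard_tan hy0 hx.le ha0 hρ h.hc.symm h.hs.symm hu (by linarith)

/-- SLOPE, saddle with `y ≤ 0` (window `X_0`), closed form; line from `-π` to `π` -/
theorem slopeL {β r t a y : ℝ} (h : Sad β r t a y) (hy0 : y ≤ 0) (ha0 : a ≤ 0) (ha : -(Real.pi / 2) < a)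
    (hν : 2 * (-y) < a - t) {B₀ B₁ : ℝ} (h0 : ∀ z ≤ y, LegW β r (t + β) Real.pi z y 1 ≤ B₀)
    (h1 : ∀ z ≤ y, LegW β r (t + β) (-Real.pi) z y 1 ≤ B₁) :
    ‖ew β r t * AA β r (t + β) - Lx t a y / β * AA β r t‖ * (β * nD (a - t) y) ≤
      nS (a - t) y * ((Real.sqrt (2 * Real.pi * β))⁻¹ * (Real.exp ((a - t) * (1 + y) / β) *
        (hB β (11 / 12 * (a - t) + y / 3) (11 / 24 * (a - t) + y / 6) (7 / 10 * (a - t) + 7 / 5 * y) +
          hB β (11 / 12 * (a - t)) (11 / 24 * (a - t)) (7 / 10 * (a - t))) +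
        (2 + (Real.pi - a)) * Real.exp y * B₀ + (2 + (a + Real.pi)) * Real.exp y * B₁)) := by
  have hpi := Real.pi_pos
  have hβ := h.hβ
  have hr := h.hr
  have hx : 0 < a - t := by linarith
  have e1 : a - -Real.pi = a + Real.pi := by ring
  -- `|y| ≥ x |a|`
  have hxa : (a - t) * (-a) ≤ -y := by
    have hca : 0 < Real.cos a := Real.cos_pos_of_mem_Ioo ⟨ha, by linarith⟩
    have h1 : -a ≤ Real.tan (-a) := Real.le_tan (by linarith) (by linarith)
    have hρ : 0 < β * r * Real.exp (-y) := mul_pos (mul_pos h.hβ h.hr) (Real.exp_pos _)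
    have k1 := h.hc
    have k2 := h.hs
    generalize β * r * Real.exp (-y) = ρ at hρ k1 k2
    have h2 : -(a * Real.cos a) ≤ -Real.sin a := by
      have h3 := mul_le_mul_of_nonneg_right h1 hca.le
      have h4 := Real.tan_mul_cos hca.ne'
      rw [Real.tan_neg] at h3
      nlinarith
    have h5 := mul_le_mul_of_nonneg_left h2 hρ.le
    have h6 : (a - t) * (-a) = ρ * -(a * Real.cos a) := by rw [← k1]; ring
    have h7 : -y = ρ * -Real.sin a := by rw [← k2]; ring
    rw [h6, h7]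
    exact h5
  have hgen := slope_gen h (S₀ := Real.pi) (S₁ := -Real.pi) (inV0 t) (inV0 (t + β)) (inVm t) (inVm (t + β))
    (by linarith) (by linarith) (B₀ := B₀) (B₁ := B₁)
    (H₁ := hB β (11 / 12 * (a - t) + y / 3) (11 / 24 * (a - t) + y / 6) (7 / 10 * (a - t) + 7 / 5 * y))
    (H₀ := hB β (11 / 12 * (a - t)) (11 / 24 * (a - t)) (7 / 10 * (a - t))) h0 h1 ?_ ?_
  · rw [e1] at hgen
    exact hgen
  · rw [e1]
    refine half_int hβ (by linarith) (by linarith) (by linarith) (continuous_Gx _ _) ?_ ?_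
    · intro u hu hu1 _
      refine (Gx_hard_cen hx.le (by linarith : 0 ≤ -y) hu hu1).trans (le_of_eq ?_)
      ring
    · intro u hu hu'
      refine (Gx_hard_tail hx.le (by linarith : 0 ≤ -y) hu (by linarith)).trans (le_of_eq ?_)
      ring
  · refine half_int hβ (by positivity) (by positivity) (by linarith) (continuous_Gx _ _) ?_ ?_
    · intro u hu hu1 _
      have := Gx_easy_cen hx.le (by linarith : 0 ≤ -y) hu hu1
      rw [neg_neg] at this
      refine this.trans (le_of_eq ?_)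
      ring
    · intro u hu hu'
      have := Gx_easy_tail (α := -a) hx.le (by linarith : 0 ≤ -y) (by linarith) hxa hu (by linarith)
      rwa [neg_neg] at this

end Sok
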