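import Pool.Agent.Lib.MP_816dec_an.A0Sec3

/-!
MP_816dec_an (R2, N2): the slope bounds with numerical parameters.
-/

set_option autoImplicit false

open Complex Set Filter Topology MeasureTheory

namespace Sok

open Sok.Mid Sok.N1

/-- the scale of the slope bound -/
noncomputable def scl (β x : ℝ) : ℝ := x * Real.sqrt x / β * (Real.sqrt (2 * Real.pi * β))⁻¹

theorem scl_pos {β x : ℝ} (hβ : 0 < β) (hx : 0 < x) : 0 < scl β x := by
  have hpi := Real.pi_pos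
  unfold scl
  have h1 : 0 < Real.sqrt x := Real.sqrt_pos.2 hx
  have h2 : 0 < Real.sqrt (2 * Real.pi * β) := Real.sqrt_pos.2 (by positivity)
  positivity

theorem scl_eq {β x l : ℝ} (hβ : 0 < β) (hl : 0 < l) (hx : x = l * β) :
    scl β x = l * Real.sqrt l / Real.sqrt (2 * Real.pi) := by
  have hpi := Real.pi_pos
  unfold scl
  rw [hx, Real.sqrt_mul hl.le, Real.sqrt_mul (by positivity : (0:ℝ) ≤ 2 * Real.pi)]
  have h1 : 0 < Real.sqrt β := Real.sqrt_pos.2 hβ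
  have h2 : 0 < Real.sqrt (2 * Real.pi) := Real.sqrt_pos.2 (by positivity)
  field_simp

/-- the tail constant -/
noncomputable def qc (ν l : ℝ) : ℝ := 1 / (2 * ν) + 1 / (ν ^ 2 * l) + 1 / (ν ^ 3 * l ^ 2)

theorem hB_scale {β x c g ν γ₁ g₁ ν₁ l₁ s e G : ℝ} (hβ : 0 < β) (hx : 0 < x) (hγ₁ : 0 < γ₁) (hg₁ : 0 < g₁)
    (hν₁ : 0 < ν₁) (hc : γ₁ * x ≤ c) (hg : g₁ * x ≤ g) (hν : ν₁ * x ≤ ν) (hl₁ : 0 < l₁) (hl : l₁ * β ≤ x)
    (hgl : 1 ≤ 2 * g₁ * l₁) (hs : Real.sqrt l₁ ≤ s) (he : Real.exp (-(g₁ * l₁)) ≤ e)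
    (hG : 1 ≤ 4 * G * (γ₁ * Real.sqrt γ₁)) :
    scl β x * hB β c g ν ≤ G + s * e * qc ν₁ l₁ / 2.5066 := by
  have hpi := Real.pi_pos
  obtain ⟨l, hld⟩ : ∃ l : ℝ, l = x / β := ⟨_, rfl⟩
  have hl0 : 0 < l := by rw [hld]; positivity
  have hxl : x = l * β := by rw [hld]; field_simp
  have hll : l₁ ≤ l := by rw [hld, le_div_iff₀ hβ]; exact hl
  rw [scl_eq hβ hl0 hxl]
  have h2p := sqrt_two_pi
  have h2p0 : 0 < Real.sqrt (2 * Real.pi) := by linarith
  have hsl : 0 < Real.sqrt l := Real.sqrt_pos.2 hl0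
  have hsγ : 0 < Real.sqrt γ₁ := Real.sqrt_pos.2 hγ₁
  have hcβ : γ₁ * l ≤ c / β := by
    rw [le_div_iff₀ hβ]
    calc γ₁ * l * β = γ₁ * x := by rw [hxl]; ring
      _ ≤ c := hc
  have hgβ : g₁ * l ≤ g / β := by
    rw [le_div_iff₀ hβ]
    calc g₁ * l * β = g₁ * x := by rw [hxl]; ring
      _ ≤ g := hg
  have hνβ : ν₁ * l ≤ ν / β := by
    rw [le_div_iff₀ hβ]
    calc ν₁ * l * β = ν₁ * x := by rw [hxl]; ring
      _ ≤ ν := hν
  have hG0 : 0 < G := by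
    by_contra hG0
    have : G ≤ 0 := not_lt.1 hG0
    have h3 : 0 < γ₁ * Real.sqrt γ₁ := by positivity
    nlinarith
  unfold hB
  rw [mul_add]
  apply add_le_add
  · -- the Gaussian part
    have h3 : γ₁ * l * Real.sqrt (γ₁ * l) ≤ c / β * Real.sqrt (c / β) :=
      mul_le_mul hcβ (Real.sqrt_le_sqrt hcβ) (Real.sqrt_nonneg _) ((by positivity : 0 ≤ γ₁ * l).trans hcβ)
    have h4 : Real.sqrt (2 * Real.pi) / 4 / (c / β * Real.sqrt (c / β)) ≤
        Real.sqrt (2 * Real.pi) / 4 / (γ₁ * l * Real.sqrt (γ₁ * l)) :=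
      div_le_div_of_nonneg_left (by positivity) (by positivity) h3
    have h5 : l * Real.sqrt l / Real.sqrt (2 * Real.pi) * (Real.sqrt (2 * Real.pi) / 4 / (γ₁ * l * Real.sqrt (γ₁ * l))) =
        1 / (4 * (γ₁ * Real.sqrt γ₁)) := by
      rw [Real.sqrt_mul hγ₁.le]
      field_simp
    refine (mul_le_mul_of_nonneg_left h4 (by positivity)).trans ?_
    rw [h5, div_le_iff₀ (by positivity)]
    linarith
  · -- the tail
    have h3 : Real.exp (-(g / β)) ≤ Real.exp (-(g₁ * l)) := Real.exp_le_exp.2 (by linarith)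
    have hνl : 0 < ν₁ * l := by positivity
    have h4 : qtl 1 (ν / β) ≤ qtl 1 (ν₁ * l) := by
      unfold qtl
      have a1 : 1 ^ 2 / 2 / (ν / β) ≤ 1 ^ 2 / 2 / (ν₁ * l) := div_le_div_of_nonneg_left (by norm_num) hνl hνβ
      have a2 : 1 / (ν / β) ^ 2 ≤ 1 / (ν₁ * l) ^ 2 :=
        div_le_div_of_nonneg_left zero_le_one (by positivity) (pow_le_pow_left₀ hνl.le hνβ 2)
      have a3 : 1 / (ν / β) ^ 3 ≤ 1 / (ν₁ * l) ^ 3 :=
        div_le_div_of_nonneg_left zero_le_one (by positivity) (pow_le_pow_left₀ hνl.le hνβ 3)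
      linarith
    have h5 : 0 ≤ qtl 1 (ν / β) := by
      have : 0 < ν / β := lt_of_lt_of_le hνl hνβ
      unfold qtl; positivity
    have h6 : Real.exp (-(g / β)) * qtl 1 (ν / β) ≤ Real.exp (-(g₁ * l)) * qtl 1 (ν₁ * l) :=
      mul_le_mul h3 h4 h5 (Real.exp_pos _).le
    have h7 : l * Real.sqrt l / Real.sqrt (2 * Real.pi) * (Real.exp (-(g₁ * l)) * qtl 1 (ν₁ * l)) =
        (Real.sqrt l * Real.exp (-(g₁ * l))) * qc ν₁ l / Real.sqrt (2 * Real.pi) := by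
      unfold qtl qc
      field_simp
    have h8 := sqrt_mul_exp_le (k := g₁) hg₁ hl₁ hgl hll
    have h9 : Real.sqrt l₁ * Real.exp (-(g₁ * l₁)) ≤ s * e :=
      mul_le_mul hs he (Real.exp_pos _).le ((Real.sqrt_nonneg _).trans hs)
    have h10 : qc ν₁ l ≤ qc ν₁ l₁ := by
      unfold qc
      have a2 : 1 / (ν₁ ^ 2 * l) ≤ 1 / (ν₁ ^ 2 * l₁) :=
        div_le_div_of_nonneg_left zero_le_one (by positivity) (mul_le_mul_of_nonneg_left hll (by positivity))
      have a3 : 1 / (ν₁ ^ 3 * l ^ 2) ≤ 1 / (ν₁ ^ 3 * l₁ ^ 2) :=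
        div_le_div_of_nonneg_left zero_le_one (by positivity)
          (mul_le_mul_of_nonneg_left (pow_le_pow_left₀ hl₁.le hll 2) (by positivity))
      linarith
    have h11 : 0 ≤ qc ν₁ l := by unfold qc; positivity
    have hse : 0 ≤ s * e := (by positivity : 0 ≤ Real.sqrt l₁ * Real.exp (-(g₁ * l₁))).trans h9
    refine (mul_le_mul_of_nonneg_left h6 (by positivity)).trans ?_
    rw [h7]
    have h12 : (Real.sqrt l * Real.exp (-(g₁ * l))) * qc ν₁ l ≤ s * e * qc ν₁ l₁ :=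
      mul_le_mul (h8.trans h9) h10 h11 hse
    have hq1 : 0 ≤ s * e * qc ν₁ l₁ := (mul_nonneg (by positivity) h11).trans h12
    calc Real.sqrt l * Real.exp (-(g₁ * l)) * qc ν₁ l / Real.sqrt (2 * Real.pi)
        ≤ s * e * qc ν₁ l₁ / Real.sqrt (2 * Real.pi) := div_le_div_of_nonneg_right h12 h2p0.le
      _ ≤ s * e * qc ν₁ l₁ / 2.5066 := div_le_div_of_nonneg_left hq1 (by norm_num) h2p

/-- the leg at `π/2` -/
theorem legP_scale {β t a y g₂ q₀ l₁ s e : ℝ} (hβ : 0 < β) (ha0 : 0 ≤ a) (ha : a < Real.pi / 2) (hx : 0 < a - t)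
    (hg₂ : 0 < g₂) (hg : (Real.pi / 2 - a) * y ≤ (1 - g₂) * (a - t)) (hq : a - t ≤ q₀ * (Real.pi / 2 - t - β))
    (hδ : 0 < Real.pi / 2 - t - β) (hl₁ : 0 < l₁) (hl : l₁ * β ≤ a - t) (hgl : 1 ≤ 2 * g₂ * l₁)
    (hs : Real.sqrt l₁ ≤ s) (he : Real.exp (-(g₂ * l₁)) ≤ e) :
    scl β (a - t) * (Real.exp (-((a - t) * (1 + y) / β)) * ((2 + (Real.pi / 2 - a)) *
      (Real.exp ((Real.pi / 2 - t) * y / β) *
          (1 / ((Real.pi / 2 - t - β) / β) + 1 / ((Real.pi / 2 - t - β) / β) ^ 2)))) ≤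
      s * e * (3.5708 * (q₀ + q₀ ^ 2 / l₁)) / 2.5066 := by
  have hpi := Real.pi_pos
  have hpi4 := Real.pi_lt_d4
  obtain ⟨x, hxd⟩ : ∃ x : ℝ, x = a - t := ⟨_, rfl⟩
  obtain ⟨l, hld⟩ : ∃ l : ℝ, l = x / β := ⟨_, rfl⟩
  rw [← hxd] at hx hg hq hl ⊢
  have hl0 : 0 < l := by rw [hld]; positivity
  have hxl : x = l * β := by rw [hld]; field_simp
  have hll : l₁ ≤ l := by rw [hld, le_div_iff₀ hβ]; exact hl
  rw [scl_eq hβ hl0 hxl]
  have h2p := sqrt_two_pi
  have h2p0 : 0 < Real.sqrt (2 * Real.pi) := by linarith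
  have hsl : 0 < Real.sqrt l := Real.sqrt_pos.2 hl0
  obtain ⟨d, hd⟩ : ∃ d : ℝ, d = (Real.pi / 2 - t - β) / β := ⟨_, rfl⟩
  have hd0 : 0 < d := by rw [hd]; positivity
  have hq0 : 0 < q₀ := by
    by_contra h
    have : q₀ ≤ 0 := not_lt.1 h
    nlinarith
  have hld2 : l ≤ q₀ * d := by
    rw [hld, hd, div_le_iff₀ hβ]
    have : q₀ * ((Real.pi / 2 - t - β) / β) * β = q₀ * (Real.pi / 2 - t - β) := by field_simp
    rw [this]; exact hq
  rw [← hd]
  have e1 : Real.exp (-(x * (1 + y) / β)) * ((2 + (Real.pi / 2 - a)) * (Real.exp ((Real.pi / 2 - t) * y / β) *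
      (1 / d + 1 / d ^ 2))) = (2 + (Real.pi / 2 - a)) * (Real.exp (((Real.pi / 2 - a) * y - x) / β) * (1 / d + 1 / d ^ 2)) := by
    have : Real.exp (((Real.pi / 2 - a) * y - x) / β) = Real.exp (-(x * (1 + y) / β)) *
        Real.exp ((Real.pi / 2 - t) * y / β) := by
      rw [← Real.exp_add]
      congr 1
      rw [hxd]
      field_simp
      ring
    rw [this]; ring
  rw [e1]
  have h3 : Real.exp (((Real.pi / 2 - a) * y - x) / β) ≤ Real.exp (-(g₂ * l)) := by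
    apply Real.exp_le_exp.2
    rw [div_le_iff₀ hβ]
    have : -(g₂ * l) * β = -(g₂ * x) := by rw [hxl]; ring
    rw [this]; linarith
  have h4 : 1 / d ≤ q₀ / l := by
    rw [div_le_div_iff₀ hd0 hl0]; linarith
  have h5 : 1 / d ^ 2 ≤ q₀ ^ 2 / l ^ 2 := by
    rw [← one_div_pow, ← div_pow]
    exact pow_le_pow_left₀ (by positivity) h4 2
  have h6 : 2 + (Real.pi / 2 - a) ≤ 3.5708 := by linarith
  have h7 : 0 ≤ 2 + (Real.pi / 2 - a) := by linarith
  have h8 : (2 + (Real.pi / 2 - a)) * (Real.exp (((Real.pi / 2 - a) * y - x) / β) * (1 / d + 1 / d ^ 2)) ≤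
      3.5708 * (Real.exp (-(g₂ * l)) * (q₀ / l + q₀ ^ 2 / l ^ 2)) :=
    mul_le_mul h6 (mul_le_mul h3 (add_le_add h4 h5) (by positivity) (Real.exp_pos _).le) (by positivity) (by norm_num)
  refine (mul_le_mul_of_nonneg_left h8 (by positivity)).trans ?_
  have h9 : l * Real.sqrt l / Real.sqrt (2 * Real.pi) * (3.5708 * (Real.exp (-(g₂ * l)) * (q₀ / l + q₀ ^ 2 / l ^ 2))) =
      (Real.sqrt l * Real.exp (-(g₂ * l))) * (3.5708 * (q₀ + q₀ ^ 2 / l)) / Real.sqrt (2 * Real.pi) := by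
    field_simp
  rw [h9]
  have h10 := (sqrt_mul_exp_le (k := g₂) hg₂ hl₁ hgl hll).trans
    (mul_le_mul hs he (Real.exp_pos _).le ((Real.sqrt_nonneg _).trans hs))
  have h11 : 3.5708 * (q₀ + q₀ ^ 2 / l) ≤ 3.5708 * (q₀ + q₀ ^ 2 / l₁) := by
    apply mul_le_mul_of_nonneg_left _ (by norm_num)
    have := div_le_div_of_nonneg_left (sq_nonneg q₀) hl₁ hll
    linarith
  have hse : 0 ≤ s * e := (by positivity : 0 ≤ Real.sqrt l * Real.exp (-(g₂ * l))).trans h10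
  have h12 := mul_le_mul h10 h11 (by positivity) hse
  have h13 : 0 ≤ s * e * (3.5708 * (q₀ + q₀ ^ 2 / l₁)) := (by positivity : 0 ≤ (Real.sqrt l * Real.exp (-(g₂ * l))) *
    (3.5708 * (q₀ + q₀ ^ 2 / l))).trans h12
  calc _ ≤ s * e * (3.5708 * (q₀ + q₀ ^ 2 / l₁)) / Real.sqrt (2 * Real.pi) := div_le_div_of_nonneg_right h12 h2p0.le
    _ ≤ _ := div_le_div_of_nonneg_left h13 (by norm_num) h2p

/-- from the closed form to the slope -/
theorem slope_quot {β r t a y A P Q C ε m : ℝ} (hβ : 0 < β) (hx : 0 < a - t) (hy : -1 < y)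
    (h : ‖ew β r t * AA β r (t + β) - Lx t a y / β * AA β r t‖ * (β * nD (a - t) y) ≤
      nS (a - t) y * ((Real.sqrt (2 * Real.pi * β))⁻¹ * (Real.exp ((a - t) * (1 + y) / β) * A + P + Q)))
    (hC : scl β (a - t) * (A + Real.exp (-((a - t) * (1 + y) / β)) * P + Real.exp (-((a - t) * (1 + y) / β)) * Q) ≤ C)
    (hC0 : 0 ≤ C) (hε : ε < 1) (hval : 1 - ε ≤ ‖AA β r t‖ * Real.sqrt (nD (a - t) y) * Real.exp (-((a - t) * (1 + y) / β)))
    (hm : nS (a - t) y ≤ m * (Real.sqrt (nD (a - t) y) * ((a - t) * Real.sqrt (a - t)))) :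
    ‖ew β r t * AA β r (t + β) / AA β r t - Lx t a y / β‖ ≤ m * C / (1 - ε) := by
  have hpi := Real.pi_pos
  obtain ⟨x, hxd⟩ : ∃ x : ℝ, x = a - t := ⟨_, rfl⟩
  rw [← hxd] at hx h hC hval hm
  have hD := nD_pos (x := x) hy
  have hsD : 0 < Real.sqrt (nD x y) := Real.sqrt_pos.2 hD
  have hDD : Real.sqrt (nD x y) * Real.sqrt (nD x y) = nD x y := Real.mul_self_sqrt hD.le
  obtain ⟨E, hE⟩ : ∃ E : ℝ, E = Real.exp (x * (1 + y) / β) := ⟨_, rfl⟩
  have hE0 : 0 < E := by rw [hE]; exact Real.exp_pos _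
  have hEi : Real.exp (-(x * (1 + y) / β)) = E⁻¹ := by rw [hE, Real.exp_neg]
  rw [hEi] at hC hval
  rw [← hE] at h
  have hε' : 0 < 1 - ε := by linarith
  have hA0 : 0 < ‖AA β r t‖ := by
    by_contra h0
    have h1 : ‖AA β r t‖ = 0 := le_antisymm (not_lt.1 h0) (norm_nonneg _)
    rw [h1, zero_mul, zero_mul] at hval
    linarith
  have hAne : AA β r t ≠ 0 := norm_pos_iff.1 hA0
  have e1 : ew β r t * AA β r (t + β) / AA β r t - Lx t a y / β =
      (ew β r t * AA β r (t + β) - Lx t a y / β * AA β r t) / AA β r t := by field_simp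
  rw [e1, norm_div, div_le_div_iff₀ hA0 hε']
  obtain ⟨N, hN⟩ : ∃ N : ℝ, N = ‖ew β r t * AA β r (t + β) - Lx t a y / β * AA β r t‖ := ⟨_, rfl⟩
  rw [← hN] at h ⊢
  have hN0 : 0 ≤ N := by rw [hN]; exact norm_nonneg _
  obtain ⟨K, hK⟩ : ∃ K : ℝ, K = (Real.sqrt (2 * Real.pi * β))⁻¹ := ⟨_, rfl⟩
  have hK0 : 0 < K := by rw [hK]; exact inv_pos.2 (Real.sqrt_pos.2 (by positivity))
  unfold scl at hC
  rw [← hK] at h hC
  have hsx : 0 < Real.sqrt x := Real.sqrt_pos.2 hx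
  -- N * β * D ≤ nS * K * E * (A + P/E + Q/E)
  obtain ⟨U, hU⟩ : ∃ U : ℝ, U = A + E⁻¹ * P + E⁻¹ * Q := ⟨_, rfl⟩
  rw [← hU] at hC
  have h2 : N * (β * nD x y) ≤ nS x y * (K * (E * U)) := by
    refine h.trans (le_of_eq ?_)
    rw [hU]
    field_simp
  have hnS : 0 ≤ nS x y := by unfold nS; positivity
  have hU0 : 0 ≤ nS x y * U := by
    have h3 : 0 ≤ nS x y * (K * (E * U)) := (by positivity : 0 ≤ N * (β * nD x y)).trans h2
    have h4 : nS x y * (K * (E * U)) = (K * E) * (nS x y * U) := by ring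
    rw [h4] at h3
    exact nonneg_of_mul_nonneg_right h3 (by positivity)
  -- x√x/β K U ≤ C
  have h3 : x * Real.sqrt x * (K * U) ≤ C * β := by
    have : x * Real.sqrt x / β * K * U * β = x * Real.sqrt x * (K * U) := by field_simp
    rw [← this]
    exact mul_le_mul_of_nonneg_right hC hβ.le
  -- N * sqrt D ≤ m * C * E
  have h4 : N * Real.sqrt (nD x y) ≤ m * C * E := by
    have h5 : N * (β * nD x y) ≤ (m * C * E) * (β * Real.sqrt (nD x y)) := by
      rcases le_or_gt U 0 with hU' | hU'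
      · have h6 : nS x y * U ≤ 0 := mul_nonpos_of_nonneg_of_nonpos hnS hU'
        have h7 : nS x y * U = 0 := le_antisymm h6 hU0
        have h8 : nS x y * (K * (E * U)) = 0 := by
          have : nS x y * (K * (E * U)) = (K * E) * (nS x y * U) := by ring
          rw [this, h7, mul_zero]
        rw [h8] at h2
        refine h2.trans ?_
        have hm0 : 0 ≤ m * (Real.sqrt (nD x y) * (x * Real.sqrt x)) := hnS.trans hm
        have hm1 : 0 ≤ m := nonneg_of_mul_nonneg_left hm0 (by positivity)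
        positivity
      · calc N * (β * nD x y) ≤ nS x y * (K * (E * U)) := h2
          _ ≤ (m * (Real.sqrt (nD x y) * (x * Real.sqrt x))) * (K * (E * U)) :=
            mul_le_mul_of_nonneg_right hm (by positivity)
          _ = m * Real.sqrt (nD x y) * E * (x * Real.sqrt x * (K * U)) := by ring
          _ ≤ m * Real.sqrt (nD x y) * E * (C * β) := by
            apply mul_le_mul_of_nonneg_left h3
            have hm0 : 0 ≤ m * (Real.sqrt (nD x y) * (x * Real.sqrt x)) := hnS.trans hm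
            have hm1 : 0 ≤ m := nonneg_of_mul_nonneg_left hm0 (by positivity)
            positivity
          _ = _ := by ring
    have h6 : N * (β * nD x y) = (N * Real.sqrt (nD x y)) * (β * Real.sqrt (nD x y)) := by
      linear_combination (-(N * β)) * hDD
    rw [h6] at h5
    exact le_of_mul_le_mul_right h5 (by positivity)
  have h7 : N * (1 - ε) ≤ N * (‖AA β r t‖ * Real.sqrt (nD x y) * E⁻¹) := mul_le_mul_of_nonneg_left hval hN0
  refine h7.trans ?_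
  calc N * (‖AA β r t‖ * Real.sqrt (nD x y) * E⁻¹) = (N * Real.sqrt (nD x y)) * (‖AA β r t‖ * E⁻¹) := by ring
    _ ≤ (m * C * E) * (‖AA β r t‖ * E⁻¹) := mul_le_mul_of_nonneg_right h4 (by positivity)
    _ = m * C * ‖AA β r t‖ := by field_simp

end Sok
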