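import Pool.Agent.Lib.MP_816dec_an.A0Sec4

/-!
MP_816dec_an (R2, N2): geometry of the right saddle, the legs at `-π`, and the numerical slope bounds.
-/

set_option autoImplicit false

open Complex Set Filter Topology MeasureTheory

namespace Sok

open Sok.Mid Sok.N1

private theorem le_of_sq_le_sq' {a b : ℝ} (h : a ^ 2 ≤ b ^ 2) (hb : 0 ≤ b) : a ≤ b := by
  by_contra hc
  have hc' := not_le.1 hc
  have : b ^ 2 < a ^ 2 := pow_lt_pow_left₀ hc' hb (by norm_num)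
  linarith

/-- `η - η³/3 ≤ arctan η` in the form: `tan a = η` -/
theorem arctan_lower {u : ℝ} (hu : 0 ≤ u) : u - u ^ 3 / 3 ≤ Real.arctan u := by
  have h1 : ∀ z ∈ Icc (0:ℝ) u, HasDerivWithinAt (fun z => Real.arctan z - (z - z ^ 3 / 3))
      (1 / (1 + z ^ 2) - (1 - z ^ 2)) (Icc 0 u) z := by
    intro z _
    have h2 := (Real.hasDerivAt_arctan z).sub ((hasDerivAt_id z).sub (((hasDerivAt_id z).pow 3).div_const 3))
    refine (h2.congr_deriv ?_).hasDerivWithinAt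
    simp only [id]
    push_cast
    ring
  have h4 : MonotoneOn (fun z => Real.arctan z - (z - z ^ 3 / 3)) (Icc 0 u) := by
    refine monotoneOn_of_hasDerivWithinAt_nonneg (convex_Icc 0 u) (fun z hz => (h1 z hz).continuousWithinAt)
      (f' := fun z => 1 / (1 + z ^ 2) - (1 - z ^ 2)) (fun z hz => ?_) (fun z hz => ?_)
    · rw [interior_Icc] at hz ⊢
      exact (h1 z ⟨hz.1.le, hz.2.le⟩).mono Ioo_subset_Icc_self
    · have h5 : 0 < 1 + z ^ 2 := by positivity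
      have h6 : 1 / (1 + z ^ 2) - (1 - z ^ 2) = z ^ 4 / (1 + z ^ 2) := by field_simp; ring
      rw [h6]
      positivity
  have h5 := h4 (left_mem_Icc.2 hu) (right_mem_Icc.2 hu) hu
  simp at h5
  linarith

/-- geometry of the right saddle: `tan a ≤ η₁`, `x ≥ X₁`, `x (1 + y) ≥ X₁ (1 + X₁ η₁)` -/
theorem geoR {β r t a y κ₁ τ η₁ A C₁ C₂ X₁ : ℝ} (h : Sad β r t a y) (ha0 : 0 ≤ a) (ha : a < Real.pi / 2)
    (hκ : κ₁ ≤ β * r) (ht : t ≤ -(β * r) + τ) (hη : 0 < η₁) (hA : A ≤ Real.arctan η₁) (hAτ : A ≤ τ)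
    (hκA : 0 < κ₁ - τ + A) (hC₁ : 0 ≤ C₁) (hC₁' : C₁ ^ 2 ≤ 1 + η₁ ^ 2) (hC₂ : 1 + η₁ ^ 2 ≤ C₂ ^ 2) (hC₂0 : 0 < C₂)
    (hκ₁ : 0 < κ₁) (hX₁ : 0 < X₁)
    (n1 : κ₁ * Real.exp (-((κ₁ - τ + A) * η₁)) ≤ (κ₁ - τ + A) * C₁)
    (n2 : X₁ * C₂ ≤ κ₁ * Real.exp (-(X₁ * η₁))) :
    y ≤ η₁ * (a - t) ∧ X₁ ≤ a - t ∧ X₁ * (1 + X₁ * η₁) ≤ (a - t) * (1 + y) := by
  have hpi := Real.pi_pos
  obtain ⟨κ, hκd⟩ : ∃ κ : ℝ, κ = β * r := ⟨_, rfl⟩
  obtain ⟨x, hx⟩ : ∃ x : ℝ, x = a - t := ⟨_, rfl⟩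
  have hca : 0 < Real.cos a := Real.cos_pos_of_mem_Ioo ⟨by linarith, ha⟩
  have hsa : 0 ≤ Real.sin a := Real.sin_nonneg_of_nonneg_of_le_pi ha0 (by linarith)
  have hcs := h.hc
  have hsn := h.hs
  rw [← hκd] at hκ ht hcs hsn
  rw [← hx] at hcs ⊢
  have hκ0 : 0 < κ := by linarith
  obtain ⟨w, hw⟩ : ∃ w : ℝ, w = κ * Real.exp (-y) := ⟨_, rfl⟩
  have hw0 : 0 < w := by rw [hw]; positivity
  rw [← hw] at hcs hsn
  have hx0 : 0 < x := by rw [← hcs]; positivity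
  have hy0 : 0 ≤ y := by rw [← hsn]; positivity
  have hsq : x ^ 2 + y ^ 2 = w ^ 2 := by
    rw [← hcs, ← hsn]
    have := Real.sin_sq_add_cos_sq a
    linear_combination (w ^ 2) * this
  have hytan : y = x * Real.tan a := by
    rw [Real.tan_eq_sin_div_cos, ← hcs, ← hsn]
    field_simp
  -- first claim
  have hyη : y ≤ η₁ * x := by
    by_contra hcon
    have hcon' := not_le.1 hcon
    have h1 : η₁ < Real.tan a := by
      rw [hytan, mul_comm] at hcon'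
      exact lt_of_mul_lt_mul_left hcon' hx0.le
    have h2 : Real.arctan η₁ < a := by
      have := Real.arctan_strictMono h1
      rwa [Real.arctan_tan (by linarith) ha] at this
    have h3 : κ - τ + A < x := by rw [hx]; linarith
    have hpos : 0 < κ - τ + A := by linarith
    have h4 : (κ - τ + A) * η₁ < y := by
      refine lt_trans ?_ hcon'
      rw [mul_comm]
      exact mul_lt_mul_of_pos_left h3 hη
    -- w > (κ - τ + A) C₁
    have h5 : (κ - τ + A) * C₁ < w := by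
      have h6 : ((κ - τ + A) * C₁) ^ 2 < w ^ 2 := by
        have h7 : (κ - τ + A) ^ 2 < x ^ 2 := pow_lt_pow_left₀ h3 hpos.le (by norm_num)
        have h8 : (η₁ * x) ^ 2 < y ^ 2 := pow_lt_pow_left₀ hcon' (by positivity) (by norm_num)
        have h9 : ((κ - τ + A) * C₁) ^ 2 ≤ (κ - τ + A) ^ 2 * (1 + η₁ ^ 2) := by
          rw [mul_pow]
          exact mul_le_mul_of_nonneg_left hC₁' (sq_nonneg _)
        have h10 : (κ - τ + A) ^ 2 * (1 + η₁ ^ 2) ≤ x ^ 2 * (1 + η₁ ^ 2) :=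
          mul_le_mul_of_nonneg_right h7.le (by positivity)
        nlinarith
      exact lt_of_pow_lt_pow_left₀ 2 hw0.le h6
    -- w < κ exp(-(κ - τ + A) η₁) ≤ (κ - τ + A) C₁
    have h6 : w < κ * Real.exp (-((κ - τ + A) * η₁)) := by
      rw [hw]
      exact mul_lt_mul_of_pos_left (Real.exp_lt_exp.2 (by linarith)) hκ0
    have h7 : κ * Real.exp (-((κ - τ + A) * η₁)) ≤ (κ - τ + A) * C₁ := by
      have h8 : Real.exp (-((κ - τ + A) * η₁)) ≤ Real.exp (-((κ₁ - τ + A) * η₁)) := by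
        apply Real.exp_le_exp.2
        have h12 : (κ₁ - τ + A) * η₁ ≤ (κ - τ + A) * η₁ := mul_le_mul_of_nonneg_right (by linarith) hη.le
        linarith
      have h9 : κ₁ * (κ * Real.exp (-((κ - τ + A) * η₁))) ≤ κ * ((κ₁ - τ + A) * C₁) := by
        calc κ₁ * (κ * Real.exp (-((κ - τ + A) * η₁))) = κ * (κ₁ * Real.exp (-((κ - τ + A) * η₁))) := by ring
          _ ≤ κ * (κ₁ * Real.exp (-((κ₁ - τ + A) * η₁))) :=
            mul_le_mul_of_nonneg_left (mul_le_mul_of_nonneg_left h8 hκ₁.le) hκ0.le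
          _ ≤ _ := mul_le_mul_of_nonneg_left n1 hκ0.le
      have h10 : κ * ((κ₁ - τ + A) * C₁) ≤ κ₁ * ((κ - τ + A) * C₁) := by
        have h11 : κ * (κ₁ - τ + A) ≤ κ₁ * (κ - τ + A) := by
          have h12 : 0 ≤ (κ - κ₁) * (τ - A) := mul_nonneg (by linarith) (by linarith)
          linarith [h12, (by ring : (κ - κ₁) * (τ - A) = κ₁ * (κ - τ + A) - κ * (κ₁ - τ + A))]
        have h13 := mul_le_mul_of_nonneg_right h11 hC₁
        calc κ * ((κ₁ - τ + A) * C₁) = κ * (κ₁ - τ + A) * C₁ := by ring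
          _ ≤ κ₁ * (κ - τ + A) * C₁ := h13
          _ = _ := by ring
      exact le_of_mul_le_mul_left (h9.trans h10) hκ₁
    linarith
  -- second claim
  have hwC : w ≤ x * C₂ := by
    have h1 : w ^ 2 ≤ (x * C₂) ^ 2 := by
      rw [← hsq, mul_pow]
      have h2 : y ^ 2 ≤ (η₁ * x) ^ 2 := pow_le_pow_left₀ hy0 hyη 2
      nlinarith [mul_le_mul_of_nonneg_left hC₂ (sq_nonneg x)]
    exact le_of_sq_le_sq' h1 (by positivity)
  have hX : X₁ ≤ x := by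
    by_contra hcon
    have hcon' := not_le.1 hcon
    have h1 : y ≤ X₁ * η₁ := by nlinarith
    have h2 : κ₁ * Real.exp (-(X₁ * η₁)) ≤ w := by
      rw [hw]
      exact mul_le_mul hκ (Real.exp_le_exp.2 (by linarith)) (Real.exp_pos _).le hκ0.le
    have h3 : x * C₂ < X₁ * C₂ := mul_lt_mul_of_pos_right hcon' hC₂0
    linarith
  refine ⟨hyη, hX, ?_⟩
  -- third claim: `X₁ e^{X₁ η₁} ≤ x e^y`
  have h1 : X₁ * Real.exp (X₁ * η₁) ≤ x * Real.exp y := by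
    have h2 : κ₁ ≤ x * C₂ * Real.exp y := by
      have h3 : κ = w * Real.exp y := by
        rw [hw, mul_assoc, ← Real.exp_add, neg_add_cancel, Real.exp_zero, mul_one]
      have h4 : w * Real.exp y ≤ x * C₂ * Real.exp y := mul_le_mul_of_nonneg_right hwC (Real.exp_pos _).le
      linarith
    have h5 : X₁ * C₂ * Real.exp (X₁ * η₁) ≤ κ₁ := by
      have h6 := mul_le_mul_of_nonneg_right n2 (Real.exp_pos (X₁ * η₁)).le
      have h7 : κ₁ * Real.exp (-(X₁ * η₁)) * Real.exp (X₁ * η₁) = κ₁ := by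
        rw [mul_assoc, ← Real.exp_add, neg_add_cancel, Real.exp_zero, mul_one]
      rwa [h7] at h6
    have h8 : C₂ * (X₁ * Real.exp (X₁ * η₁)) ≤ C₂ * (x * Real.exp y) := by
      calc C₂ * (X₁ * Real.exp (X₁ * η₁)) = X₁ * C₂ * Real.exp (X₁ * η₁) := by ring
        _ ≤ κ₁ := h5
        _ ≤ x * C₂ * Real.exp y := h2
        _ = _ := by ring
    exact le_of_mul_le_mul_left h8 hC₂0
  rcases le_total (X₁ * η₁) y with h2 | h2
  · exact mul_le_mul hX (by linarith) (by positivity) hx0.le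
  · -- x ≥ X₁ e^{Y₁ - y} ≥ X₁ (1 + Y₁ - y)
    have h3 : X₁ * (1 + (X₁ * η₁ - y)) ≤ x := by
      have h4 := Real.add_one_le_exp (X₁ * η₁ - y)
      have h5 : X₁ * Real.exp (X₁ * η₁ - y) ≤ x := by
        have h6 : Real.exp (X₁ * η₁ - y) = Real.exp (X₁ * η₁) * Real.exp (-y) := by rw [← Real.exp_add]; congr 1
        rw [h6, ← mul_assoc]
        have h7 := mul_le_mul_of_nonneg_right h1 (Real.exp_pos (-y)).le
        have h8 : x * Real.exp y * Real.exp (-y) = x := by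
          rw [mul_assoc, ← Real.exp_add, add_neg_cancel, Real.exp_zero, mul_one]
        rwa [h8] at h7
      have h9 := mul_le_mul_of_nonneg_left h4 hX₁.le
      have h10 : X₁ * (1 + (X₁ * η₁ - y)) = X₁ * (X₁ * η₁ - y + 1) := by ring
      rw [h10]
      exact h9.trans h5
    have h4 : X₁ * (1 + X₁ * η₁) ≤ X₁ * (1 + (X₁ * η₁ - y)) * (1 + y) := by
      have h5 : 1 + X₁ * η₁ ≤ (1 + (X₁ * η₁ - y)) * (1 + y) := by
        have h6 : 0 ≤ (X₁ * η₁ - y) * y := mul_nonneg (by linarith) hy0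
        have h7 : (1 + (X₁ * η₁ - y)) * (1 + y) = 1 + X₁ * η₁ + (X₁ * η₁ - y) * y := by ring
        linarith
      calc X₁ * (1 + X₁ * η₁) ≤ X₁ * ((1 + (X₁ * η₁ - y)) * (1 + y)) := mul_le_mul_of_nonneg_left h5 hX₁.le
        _ = _ := by ring
    exact h4.trans (mul_le_mul_of_nonneg_right h3 (by linarith))

/-- the amplitude factor -/
theorem amp_le {x y η₁ X₁ E₁ R₁ m : ℝ} (hx : 0 < x) (hy : -1 < y) (hη : |y| ≤ η₁ * x) (hX₁ : 0 ≤ X₁)
    (hX : X₁ ≤ x) (hE₁ : 0 ≤ E₁) (hE : E₁ ≤ x * (1 + y)) (hR : R₁ ^ 2 ≤ X₁ ^ 4 + E₁ ^ 2)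
    (hm0 : 0 ≤ m) (hm : 1 + η₁ ^ 2 ≤ m ^ 2 * R₁) :
    nS x y ≤ m * (Real.sqrt (nD x y) * (x * Real.sqrt x)) := by
  have hD := nD_pos (x := x) hy
  have h1 : R₁ ≤ x * nD x y := by
    have h2 : R₁ ^ 2 ≤ (x * nD x y) ^ 2 := by
      have h3 : (x * nD x y) ^ 2 = x ^ 4 + (x * (1 + y)) ^ 2 := by
        rw [mul_pow, nD, Real.sq_sqrt (by positivity)]
        ring
      rw [h3]
      have h4 : X₁ ^ 4 ≤ x ^ 4 := pow_le_pow_left₀ hX₁ hX 4
      have h5 : E₁ ^ 2 ≤ (x * (1 + y)) ^ 2 := pow_le_pow_left₀ hE₁ hE 2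
      linarith
    exact le_of_sq_le_sq' h2 (by positivity)
  unfold nS
  apply Real.sqrt_le_iff.2
  refine ⟨by positivity, ?_⟩
  rw [mul_pow, mul_pow, mul_pow, Real.sq_sqrt hD.le, Real.sq_sqrt hx.le]
  have h2 : y ^ 2 ≤ (η₁ * x) ^ 2 := by
    rw [← sq_abs y]
    exact pow_le_pow_left₀ (abs_nonneg y) hη 2
  have h3 : x ^ 2 + y ^ 2 ≤ x ^ 2 * (1 + η₁ ^ 2) := by nlinarith
  have h4 : x ^ 2 * (1 + η₁ ^ 2) ≤ x ^ 2 * (m ^ 2 * R₁) := mul_le_mul_of_nonneg_left hm (sq_nonneg x)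
  have h5 : x ^ 2 * (m ^ 2 * R₁) ≤ x ^ 2 * (m ^ 2 * (x * nD x y)) :=
    mul_le_mul_of_nonneg_left (mul_le_mul_of_nonneg_left h1 (sq_nonneg m)) (sq_nonneg x)
  calc x ^ 2 + y ^ 2 ≤ x ^ 2 * (m ^ 2 * (x * nD x y)) := h3.trans (h4.trans h5)
    _ = m ^ 2 * (nD x y * (x ^ 2 * x)) := by ring

end Sok
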