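import Pool.Agent.Lib.MP_816dec_an.A0Sec5

/-!
MP_816dec_an (R2, N2): the legs at `±π` are negligible.
-/

set_option autoImplicit false

open Complex Set Filter Topology MeasureTheory

namespace Sok

open Sok.Mid Sok.N1

/-- `r √r e^{-g r} ≤ 31.63 e^{-10 g}` for `r ≥ 10`, `g ≥ 0.15` -/
theorem pow_exp_ten {r g : ℝ} (hr : 10 ≤ r) (hg : 0.15 ≤ g) :
    r * Real.sqrt r * Real.exp (-(g * r)) ≤ 31.63 * Real.exp (-(10 * g)) := by
  have h1 : Real.sqrt 10 ≤ 3.1623 := by
    rw [Real.sqrt_le_left (by norm_num)]; norm_num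
  have h2 := sqrt_mul_exp_le (k := g - 0.1) (x := 10) (y := r) (by linarith) (by norm_num) (by linarith) hr
  have h3 : r ≤ 10 * Real.exp (0.1 * (r - 10)) := by
    have := Real.add_one_le_exp (0.1 * (r - 10))
    linarith
  have h4 : Real.exp (-(g * r)) = Real.exp (-(0.1 * r)) * Real.exp (-((g - 0.1) * r)) := by
    rw [← Real.exp_add]; congr 1; ring
  have h5 : r * Real.exp (-(0.1 * r)) ≤ 10 * Real.exp (-1) := by
    have h6 := mul_le_mul_of_nonneg_right h3 (Real.exp_pos (-(0.1 * r))).le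
    rw [mul_assoc, ← Real.exp_add] at h6
    have h7 : 0.1 * (r - 10) + -(0.1 * r) = -1 := by ring
    rwa [h7] at h6
  calc r * Real.sqrt r * Real.exp (-(g * r)) = (r * Real.exp (-(0.1 * r))) * (Real.sqrt r * Real.exp (-((g - 0.1) * r))) := by
        rw [h4]; ring
    _ ≤ (10 * Real.exp (-1)) * (Real.sqrt 10 * Real.exp (-((g - 0.1) * 10))) :=
        mul_le_mul h5 h2 (by positivity) (by positivity)
    _ = (10 * Real.sqrt 10) * (Real.exp (-1) * Real.exp (-((g - 0.1) * 10))) := by ring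
    _ = (10 * Real.sqrt 10) * Real.exp (-(10 * g)) := by
        rw [← Real.exp_add]; congr 2; ring
    _ ≤ 31.63 * Real.exp (-(10 * g)) := mul_le_mul_of_nonneg_right (by linarith) (Real.exp_pos _).le

/-- `u (log u - 1)`, bound by the tangent of `log` -/
theorem psi_le {u u₀ L : ℝ} (hu : 0 < u) (hu₀ : 0 < u₀) (hL : Real.log u₀ ≤ L) :
    u * (Real.log u - 1) ≤ u * (u / u₀ + L - 2) := by
  apply mul_le_mul_of_nonneg_left _ hu.le
  have h1 := Real.log_le_sub_one_of_pos (x := u / u₀) (by positivity)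
  rw [Real.log_div hu.ne' hu₀.ne'] at h1
  linarith

/-- the left leg, middle form, at a saddle -/
theorem legM_mid {β r t a y p e Y₂ : ℝ} (h : Sad β r t a y) (hr : 10 ≤ r) (hy : -(4 / 3) ≤ y) (hyY : y ≤ Y₂)
    (hτ : 0 < t + β + Real.pi) (hτ' : t + β + Real.pi ≤ 2.7 * (β * r)) (ha : a ≤ 0.65) (haπ : -Real.pi ≤ a)
    (hp : (t + β + Real.pi) * (Real.log ((t + β + Real.pi) / (β * r)) - 1) ≤ -(p * (β * r)))
    (hE : e * (β * r) ≤ (a - t) * (1 + y)) (hx0 : 0 < a - t) {c : ℝ} (hx : a - t ≤ c * (β * r))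
    (hc0 : 0 ≤ c) {c' : ℝ} (hc : c * Real.sqrt c ≤ c') (hpe : 0.15 ≤ e + p) :
    ∃ B₁ : ℝ, (∀ z ≤ y, LegW β r (t + β) (-Real.pi) z y 1 ≤ B₁) ∧
      scl β (a - t) * (Real.exp (-((a - t) * (1 + y) / β)) * ((2 + (a + Real.pi)) * Real.exp y * B₁)) ≤
        73.1 * c' * (Real.exp Y₂ * ((Y₂ + 7 / 3) * (0.1 + (Y₂ + 4 / 3)) + 0.01)) * Real.exp (-(10 * (e + p))) := by
  have hpi := Real.pi_pos
  have hpi4 := Real.pi_lt_d4
  have hβ := h.hβ
  have hr0 := h.hr
  have hbr : 0 < β * r := by positivity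
  have hlg : Real.exp 1 > 2.7 := by have := Real.exp_one_gt_d9; linarith
  obtain ⟨M, hM⟩ : ∃ M : ℝ, M = Real.exp ((t + β - -Real.pi) / β * (Real.log ((t + β - -Real.pi) / (β * r)) - 1)) :=
    ⟨_, rfl⟩
  obtain ⟨P, hP⟩ : ∃ P : ℝ, P = (1 + (y + 4 / 3)) / r + 1 / r ^ 2 + (1 + (y + 4 / 3)) * (y + 4 / 3) := ⟨_, rfl⟩
  refine ⟨P * M, fun z hz => ?_, ?_⟩
  · rw [hP, hM]
    exact LegW_le_mid hβ hr0 (by rw [Real.cos_neg, Real.cos_pi]) (by linarith) (by nlinarith) hy zero_le_one hz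
  · have e1 : t + β - -Real.pi = t + β + Real.pi := by ring
    rw [e1] at hM
    have hM1 : M ≤ Real.exp (-(p * r)) := by
      rw [hM]
      apply Real.exp_le_exp.2
      rw [div_mul_eq_mul_div, div_le_iff₀ hβ]
      calc _ ≤ -(p * (β * r)) := hp
        _ = _ := by ring
    have hM0 : 0 ≤ M := by rw [hM]; exact (Real.exp_pos _).le
    have hP0 : 0 ≤ P := by
      rw [hP]
      have : 0 ≤ y + 4 / 3 := by linarith
      positivity
    have hY2 : 0 ≤ Y₂ + 4 / 3 := by linarith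
    have hP1 : P ≤ (Y₂ + 7 / 3) * (0.1 + (Y₂ + 4 / 3)) + 0.01 := by
      rw [hP]
      have i1 : 1 / r ≤ 0.1 := by rw [div_le_iff₀ hr0]; linarith
      have i0 : 0 ≤ 1 / r := by positivity
      have i2 : 1 / r ^ 2 ≤ 0.01 := by rw [div_le_iff₀ (by positivity)]; nlinarith
      have i3 : (1 + (y + 4 / 3)) / r = (y + 7 / 3) * (1 / r) := by ring
      rw [i3]
      have i4 : (y + 7 / 3) * (1 / r) ≤ (Y₂ + 7 / 3) * 0.1 :=
        mul_le_mul (by linarith) i1 i0 (by linarith)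
      have i5 : (1 + (y + 4 / 3)) * (y + 4 / 3) ≤ (Y₂ + 7 / 3) * (Y₂ + 4 / 3) :=
        mul_le_mul (by linarith) (by linarith) (by linarith) (by linarith)
      linarith
    -- the scale
    obtain ⟨l, hld⟩ : ∃ l : ℝ, l = (a - t) / β := ⟨_, rfl⟩
    have hl0 : 0 < l := by rw [hld]; positivity
    have hlr : l ≤ c * r := by
      rw [hld, div_le_iff₀ hβ]
      calc a - t ≤ c * (β * r) := hx
        _ = _ := by ring
    have hscl : scl β (a - t) ≤ c' * (r * Real.sqrt r) / 2.5066 := by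
      rw [scl_eq hβ hl0 (by rw [hld]; field_simp)]
      have h2p := sqrt_two_pi
      have s1 : l * Real.sqrt l ≤ (c * r) * Real.sqrt (c * r) :=
        mul_le_mul hlr (Real.sqrt_le_sqrt hlr) (Real.sqrt_nonneg _) (hl0.le.trans hlr)
      have s2 : (c * r) * Real.sqrt (c * r) = (c * Real.sqrt c) * (r * Real.sqrt r) := by
        rw [Real.sqrt_mul hc0]; ring
      have s3 : (c * Real.sqrt c) * (r * Real.sqrt r) ≤ c' * (r * Real.sqrt r) :=
        mul_le_mul_of_nonneg_right hc (by positivity)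
      have s4 : l * Real.sqrt l ≤ c' * (r * Real.sqrt r) := s1.trans (s2.le.trans s3)
      calc l * Real.sqrt l / Real.sqrt (2 * Real.pi) ≤ c' * (r * Real.sqrt r) / Real.sqrt (2 * Real.pi) :=
            div_le_div_of_nonneg_right s4 (Real.sqrt_nonneg _)
        _ ≤ _ := div_le_div_of_nonneg_left ((by positivity : 0 ≤ l * Real.sqrt l).trans s4) (by norm_num) h2p
    have hE1 : Real.exp (-((a - t) * (1 + y) / β)) ≤ Real.exp (-(e * r)) := by
      apply Real.exp_le_exp.2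
      rw [neg_le_neg_iff, le_div_iff₀ hβ]
      calc e * r * β = e * (β * r) := by ring
        _ ≤ _ := hE
    have hc'0 : 0 ≤ c' := (mul_nonneg hc0 (Real.sqrt_nonneg _)).trans hc
    have hex : Real.exp y ≤ Real.exp Y₂ := Real.exp_le_exp.2 hyY
    have h2a : 2 + (a + Real.pi) ≤ 5.7916 := by linarith
    have h2a0 : 0 ≤ 2 + (a + Real.pi) := by linarith
    have hV : (2 + (a + Real.pi)) * Real.exp y * (P * M) ≤
        5.7916 * Real.exp Y₂ * (((Y₂ + 7 / 3) * (0.1 + (Y₂ + 4 / 3)) + 0.01) * Real.exp (-(p * r))) :=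
      mul_le_mul (mul_le_mul h2a hex (Real.exp_pos _).le (by norm_num)) (mul_le_mul hP1 hM1 hM0 (hP0.trans hP1))
        (by positivity) (by positivity)
    have hV0 : 0 ≤ (2 + (a + Real.pi)) * Real.exp y * (P * M) := by positivity
    have hW := mul_le_mul hE1 hV hV0 (Real.exp_pos _).le
    have hZ := mul_le_mul hscl hW (by positivity) (by positivity)
    refine hZ.trans ?_
    have h10 := pow_exp_ten (r := r) (g := e + p) hr hpe
    have hQ0 : 0 ≤ (Y₂ + 7 / 3) * (0.1 + (Y₂ + 4 / 3)) + 0.01 := hP0.trans hP1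
    have e5 : c' * (r * Real.sqrt r) / 2.5066 * (Real.exp (-(e * r)) * (5.7916 * Real.exp Y₂ *
        (((Y₂ + 7 / 3) * (0.1 + (Y₂ + 4 / 3)) + 0.01) * Real.exp (-(p * r))))) =
        (5.7916 / 2.5066 * c' * (Real.exp Y₂ * ((Y₂ + 7 / 3) * (0.1 + (Y₂ + 4 / 3)) + 0.01))) *
          (r * Real.sqrt r * Real.exp (-((e + p) * r))) := by
      have : Real.exp (-((e + p) * r)) = Real.exp (-(e * r)) * Real.exp (-(p * r)) := by
        rw [← Real.exp_add]; congr 1; ring
      rw [this]; ring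
    rw [e5]
    calc _ ≤ (5.7916 / 2.5066 * c' * (Real.exp Y₂ * ((Y₂ + 7 / 3) * (0.1 + (Y₂ + 4 / 3)) + 0.01))) *
          (31.63 * Real.exp (-(10 * (e + p)))) := mul_le_mul_of_nonneg_left h10 (by positivity)
      _ = (5.7916 / 2.5066 * 31.63) * (c' * (Real.exp Y₂ * ((Y₂ + 7 / 3) * (0.1 + (Y₂ + 4 / 3)) + 0.01)) *
          Real.exp (-(10 * (e + p)))) := by ring
      _ ≤ 73.1 * (c' * (Real.exp Y₂ * ((Y₂ + 7 / 3) * (0.1 + (Y₂ + 4 / 3)) + 0.01)) *
          Real.exp (-(10 * (e + p)))) := mul_le_mul_of_nonneg_right (by norm_num) (by positivity)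
      _ = _ := by ring

/-- the left leg, outer form, at a saddle -/
theorem legM_out {β r t a y g : ℝ} (h : Sad β r t a y) (hr : 10 ≤ r) (ha : a ≤ 0.65) (haπ : -Real.pi ≤ a)
    (hδ : 1 ≤ (-Real.pi - (t + β)) / β + r * Real.exp (-y))
    (hg : g * (β * r) ≤ (Real.pi + a) * y + β * r * Real.exp (-y) + (a - t)) (hx0 : 0 < a - t) {c : ℝ}
    (hx : a - t ≤ c * (β * r)) (hc0 : 0 ≤ c) {c' : ℝ} (hc : c * Real.sqrt c ≤ c') (hg0 : 0.15 ≤ g) :
    ∃ B₁ : ℝ, (∀ z ≤ y, LegW β r (t + β) (-Real.pi) z y 1 ≤ B₁) ∧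
      scl β (a - t) * (Real.exp (-((a - t) * (1 + y) / β)) * ((2 + (a + Real.pi)) * Real.exp y * B₁)) ≤
        147 * c' * Real.exp (-(10 * g)) := by
  have hpi := Real.pi_pos
  have hpi4 := Real.pi_lt_d4
  have hβ := h.hβ
  have hr0 := h.hr
  have hbr : 0 < β * r := by positivity
  obtain ⟨d, hd⟩ : ∃ d : ℝ, d = (-Real.pi - (t + β)) / β + r * Real.exp (-y) := ⟨_, rfl⟩
  have hd1 : 1 ≤ d := by rw [hd]; exact hδ
  have hd0 : 0 < d := by linarith
  refine ⟨Real.exp (-((t + β) * y / β)) * (Real.exp (-(Real.pi * y / β) - r * Real.exp (-y)) * (1 / d + 1 / d ^ 2)),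
    fun z hz => ?_, ?_⟩
  · rw [hd]
    exact LegW_neg_pi_le hr0.le zero_le_one (by rw [← hd]; exact hd0) hz
  · obtain ⟨l, hld⟩ : ∃ l : ℝ, l = (a - t) / β := ⟨_, rfl⟩
    have hl0 : 0 < l := by rw [hld]; positivity
    have hlr : l ≤ c * r := by
      rw [hld, div_le_iff₀ hβ]
      calc a - t ≤ c * (β * r) := hx
        _ = _ := by ring
    have hscl : scl β (a - t) ≤ c' * (r * Real.sqrt r) / 2.5066 := by
      rw [scl_eq hβ hl0 (by rw [hld]; field_simp)]
      have h2p := sqrt_two_pi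
      have s1 : l * Real.sqrt l ≤ (c * r) * Real.sqrt (c * r) :=
        mul_le_mul hlr (Real.sqrt_le_sqrt hlr) (Real.sqrt_nonneg _) (hl0.le.trans hlr)
      have s2 : (c * r) * Real.sqrt (c * r) = (c * Real.sqrt c) * (r * Real.sqrt r) := by
        rw [Real.sqrt_mul hc0]; ring
      have s3 : (c * Real.sqrt c) * (r * Real.sqrt r) ≤ c' * (r * Real.sqrt r) :=
        mul_le_mul_of_nonneg_right hc (by positivity)
      have s4 : l * Real.sqrt l ≤ c' * (r * Real.sqrt r) := s1.trans (s2.le.trans s3)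
      calc l * Real.sqrt l / Real.sqrt (2 * Real.pi) ≤ c' * (r * Real.sqrt r) / Real.sqrt (2 * Real.pi) :=
            div_le_div_of_nonneg_right s4 (Real.sqrt_nonneg _)
        _ ≤ _ := div_le_div_of_nonneg_left ((by positivity : 0 ≤ l * Real.sqrt l).trans s4) (by norm_num) h2p
    have hc'0 : 0 ≤ c' := (mul_nonneg hc0 (Real.sqrt_nonneg _)).trans hc
    have e1 : Real.exp (-((a - t) * (1 + y) / β)) * ((2 + (a + Real.pi)) * Real.exp y *
        (Real.exp (-((t + β) * y / β)) * (Real.exp (-(Real.pi * y / β) - r * Real.exp (-y)) * (1 / d + 1 / d ^ 2)))) =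
        (2 + (a + Real.pi)) * (Real.exp (-(((Real.pi + a) * y + β * r * Real.exp (-y) + (a - t)) / β)) *
          (1 / d + 1 / d ^ 2)) := by
      have e2 : Real.exp (-(((Real.pi + a) * y + β * r * Real.exp (-y) + (a - t)) / β)) =
          Real.exp (-((a - t) * (1 + y) / β)) * Real.exp y * Real.exp (-((t + β) * y / β)) *
            Real.exp (-(Real.pi * y / β) - r * Real.exp (-y)) := by
        rw [← Real.exp_add, ← Real.exp_add, ← Real.exp_add]
        congr 1
        have := hβ.ne'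
        field_simp
        ring
      rw [e2]; ring
    rw [e1]
    have h3 : Real.exp (-(((Real.pi + a) * y + β * r * Real.exp (-y) + (a - t)) / β)) ≤ Real.exp (-(g * r)) := by
      apply Real.exp_le_exp.2
      rw [neg_le_neg_iff, le_div_iff₀ hβ]
      calc g * r * β = g * (β * r) := by ring
        _ ≤ _ := hg
    have h4 : 1 / d + 1 / d ^ 2 ≤ 2 := by
      have i1 : 1 / d ≤ 1 := by rw [div_le_iff₀ hd0]; linarith
      have i2 : 1 / d ^ 2 ≤ 1 := by rw [div_le_iff₀ (by positivity)]; nlinarith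
      linarith
    have h2a : 2 + (a + Real.pi) ≤ 5.7916 := by linarith
    have h2a0 : 0 ≤ 2 + (a + Real.pi) := by linarith
    have hW : (2 + (a + Real.pi)) * (Real.exp (-(((Real.pi + a) * y + β * r * Real.exp (-y) + (a - t)) / β)) *
          (1 / d + 1 / d ^ 2)) ≤ 5.7916 * (Real.exp (-(g * r)) * 2) :=
      mul_le_mul h2a (mul_le_mul h3 h4 (by positivity) (Real.exp_pos _).le) (by positivity) (by norm_num)
    refine (mul_le_mul hscl hW (by positivity) (by positivity)).trans ?_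
    have h10 := pow_exp_ten (r := r) (g := g) hr hg0
    calc c' * (r * Real.sqrt r) / 2.5066 * (5.7916 * (Real.exp (-(g * r)) * 2)) =
          (2 * 5.7916 / 2.5066 * c') * (r * Real.sqrt r * Real.exp (-(g * r))) := by ring
      _ ≤ (2 * 5.7916 / 2.5066 * c') * (31.63 * Real.exp (-(10 * g))) := mul_le_mul_of_nonneg_left h10 (by positivity)
      _ = (2 * 5.7916 / 2.5066 * 31.63) * (c' * Real.exp (-(10 * g))) := by ring
      _ ≤ 147 * (c' * Real.exp (-(10 * g))) := mul_le_mul_of_nonneg_right (by norm_num) (by positivity)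
      _ = _ := by ring

end Sok
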