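import Pool.Agent.Lib.MP_816dec_an.A0Sec6

/-!
MP_816dec_an (R2, N2): slope of the right window (`X_1`), theorem with numerical data.
-/

set_option autoImplicit false

open Complex Set Filter Topology MeasureTheory

namespace Sok

open Sok.Mid Sok.N1

/-- `η - η³/3 + η⁵/5 - η⁷/7 ≤ arctan η` -/
theorem arctan_lower7 {u : ℝ} (hu : 0 ≤ u) : u - u ^ 3 / 3 + u ^ 5 / 5 - u ^ 7 / 7 ≤ Real.arctan u := by
  have h1 : ∀ z ∈ Icc (0:ℝ) u, HasDerivWithinAt (fun z => Real.arctan z - (z - z ^ 3 / 3 + z ^ 5 / 5 - z ^ 7 / 7))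
      (1 / (1 + z ^ 2) - (1 - z ^ 2 + z ^ 4 - z ^ 6)) (Icc 0 u) z := by
    intro z _
    have h2 := (Real.hasDerivAt_arctan z).sub ((((hasDerivAt_id z).sub (((hasDerivAt_id z).pow 3).div_const 3)).add
      (((hasDerivAt_id z).pow 5).div_const 5)).sub (((hasDerivAt_id z).pow 7).div_const 7))
    refine (h2.congr_deriv ?_).hasDerivWithinAt
    simp only [id]
    push_cast
    ring
  have h4 : MonotoneOn (fun z => Real.arctan z - (z - z ^ 3 / 3 + z ^ 5 / 5 - z ^ 7 / 7)) (Icc 0 u) := by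
    refine monotoneOn_of_hasDerivWithinAt_nonneg (convex_Icc 0 u) (fun z hz => (h1 z hz).continuousWithinAt)
      (f' := fun z => 1 / (1 + z ^ 2) - (1 - z ^ 2 + z ^ 4 - z ^ 6)) (fun z hz => ?_) (fun z hz => ?_)
    · rw [interior_Icc] at hz ⊢
      exact (h1 z ⟨hz.1.le, hz.2.le⟩).mono Ioo_subset_Icc_self
    · have h5 : 0 < 1 + z ^ 2 := by positivity
      have h6 : 1 / (1 + z ^ 2) - (1 - z ^ 2 + z ^ 4 - z ^ 6) = z ^ 8 / (1 + z ^ 2) := by field_simp; ring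
      rw [h6]
      positivity
  have h5 := h4 (left_mem_Icc.2 hu) (right_mem_Icc.2 hu) hu
  simp at h5
  linarith

/-- numerical data of a sub-class, right window -/
structure NR where
  (κ₁ κ₂ τ τm η A C₁ C₂ X E ρ u₁ u₂ : ℝ)
  (l s e₀ e₁ e₂ sγ G g₂ q : ℝ)
  (K Y ua ub v L e p g W₁ W₂ ℓ : ℝ)
  (R m C : ℝ)

/-- the numerical conditions -/
structure NR.Ok (N : NR) : Prop where
  η0 : 0 < N.η ∧ N.η ≤ 0.7
  hA : N.A ≤ N.η - N.η ^ 3 / 3 + N.η ^ 5 / 5 - N.η ^ 7 / 7 ∧ N.A ≤ N.τ ∧ 0 < N.κ₁ - N.τ + N.A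
  hC : 0 ≤ N.C₁ ∧ N.C₁ ^ 2 ≤ 1 + N.η ^ 2 ∧ 1 + N.η ^ 2 ≤ N.C₂ ^ 2 ∧ 0 < N.C₂
  hκ : 1 ≤ N.κ₁ ∧ 0 < N.X ∧ 0 ≤ N.τ
  n1 : Real.exp (-((N.κ₁ - N.τ + N.A) * N.η)) ≤ N.u₁ ∧ N.κ₁ * N.u₁ ≤ (N.κ₁ - N.τ + N.A) * N.C₁
  n2 : N.u₂ ≤ Real.exp (-(N.X * N.η)) ∧ N.X * N.C₂ ≤ N.κ₁ * N.u₂
  hE : 0 ≤ N.E ∧ N.E ≤ N.X * (1 + N.X * N.η)
  hρ : 0 < N.ρ
  hl : 0 < N.l ∧ N.l ≤ N.X * N.ρ ∧ 12 ≤ 11 * N.l
  hs : 0 ≤ N.s ∧ N.l ≤ N.s ^ 2
  he₀ : Real.exp (-(11 / 24 * N.l)) ≤ N.e₀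
  he₁ : Real.exp (-((11 / 24 - N.η / 6) * N.l)) ≤ N.e₁ ∧ 1 ≤ 2 * (11 / 24 - N.η / 6) * N.l
  hG : 0 ≤ N.sγ ∧ N.sγ ^ 2 ≤ 11 / 12 - N.η / 3 ∧ 1 ≤ 4 * N.G * ((11 / 12 - N.η / 3) * N.sγ)
  hg₂ : 0 < N.g₂ ∧ (1.5708 - N.η + N.η ^ 3 / 3) * N.η ≤ 1 - N.g₂
  he₂ : Real.exp (-(N.g₂ * N.l)) ≤ N.e₂ ∧ 1 ≤ 2 * N.g₂ * N.l
  hq : 0 < N.q ∧ N.q ≤ 1 ∧ 1 / N.ρ ≤ 1.5707 - N.η ∧
    (N.κ₂ - N.τm + N.η) * (1 - N.q) ≤ N.q * (1.5707 - N.η - 1 / N.ρ) ∧ 1 / N.ρ < 1.5707 - N.η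
  hK : N.κ₂ ≤ N.K ∨ 1.5708 + N.τ + 1 / N.ρ ≤ N.K
  hY : N.K ≤ N.X * Real.exp N.Y ∧ 0 ≤ N.Y ∧ 0 < N.K
  hua : 0 < N.ua ∧ N.ua * N.K ≤ 1.5707
  hub : (3.1416 + N.τ + 1 / N.ρ) ≤ (1 + N.ub) * N.κ₁ ∧ N.ub ≤ 2.6
  hv : 0 < N.v ∧ Real.log N.v ≤ N.L
  hp : N.ua * (N.ua / N.v + N.L - 2) ≤ -N.p ∧ N.ub * (N.ub / N.v + N.L - 2) ≤ -N.p
  hee : N.e * N.K ≤ N.E ∧ 0 ≤ N.e ∧ 0.15 ≤ N.e + N.p
  hW₁ : Real.exp (-(10 * (N.e + N.p))) ≤ N.W₁ ∧
    73.1 * (N.K / N.X * ((N.Y + 7 / 3) * (0.1 + (N.Y + 4 / 3)) + 0.01)) * N.W₁ ≤ N.ℓ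
  hg : N.g * (N.X + N.τ) ≤ 2 * N.X ∨
    (∃ G : ℝ, 0 ≤ G ∧ G ^ 2 ≤ 25.132 * N.E ∧ N.g * N.κ₂ ≤ G - 3.1416)
  hg0 : 0.15 ≤ N.g
  hW₂ : Real.exp (-(10 * N.g)) ≤ N.W₂ ∧ 147 * N.W₂ ≤ N.ℓ
  hR : N.R ^ 2 ≤ N.X ^ 4 + N.E ^ 2 ∧ 0 ≤ N.m ∧ 1 + N.η ^ 2 ≤ N.m ^ 2 * N.R
  hCC : 0.2849 + N.s * N.e₀ * qc (7 / 10) N.l / 2.5066 + (N.G + N.s * N.e₁ * qc (5 / 6 - N.η / 2) N.l / 2.5066) +
    N.s * N.e₂ * (3.5708 * (N.q + N.q ^ 2 / N.l)) / 2.5066 + N.ℓ ≤ N.C

/-- `arctan 0.7 ≤ 0.65` -/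
private theorem arctan_seven : Real.arctan 0.7 ≤ 0.65 := by
  have h1 : ∀ z ∈ Icc (0:ℝ) 0.7, HasDerivWithinAt (fun z => (z - z ^ 3 / 3 + z ^ 5 / 5) - Real.arctan z)
      ((1 - z ^ 2 + z ^ 4) - 1 / (1 + z ^ 2)) (Icc 0 0.7) z := by
    intro z _
    have h2 := (((hasDerivAt_id z).sub (((hasDerivAt_id z).pow 3).div_const 3)).add
      (((hasDerivAt_id z).pow 5).div_const 5)).sub (Real.hasDerivAt_arctan z)
    refine (h2.congr_deriv ?_).hasDerivWithinAt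
    simp only [id]
    push_cast
    ring
  have h4 : MonotoneOn (fun z => (z - z ^ 3 / 3 + z ^ 5 / 5) - Real.arctan z) (Icc 0 0.7) := by
    refine monotoneOn_of_hasDerivWithinAt_nonneg (convex_Icc 0 0.7) (fun z hz => (h1 z hz).continuousWithinAt)
      (f' := fun z => (1 - z ^ 2 + z ^ 4) - 1 / (1 + z ^ 2)) (fun z hz => ?_) (fun z hz => ?_)
    · rw [interior_Icc] at hz ⊢
      exact (h1 z ⟨hz.1.le, hz.2.le⟩).mono Ioo_subset_Icc_self
    · have h5 : 0 < 1 + z ^ 2 := by positivity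
      have h6 : (1 - z ^ 2 + z ^ 4) - 1 / (1 + z ^ 2) = z ^ 6 / (1 + z ^ 2) := by field_simp; ring
      rw [h6]
      positivity
  have h5 := h4 (left_mem_Icc.2 (by norm_num)) (right_mem_Icc.2 (by norm_num)) (by norm_num)
  norm_num at h5
  linarith

private theorem quad_neg {u ua ub c d p : ℝ} (hc : 0 ≤ c) (h1 : ua ≤ u) (h2 : u ≤ ub)
    (k1 : ua * (ua * c + d) ≤ -p) (k2 : ub * (ub * c + d) ≤ -p) : u * (u * c + d) ≤ -p := by
  rcases eq_or_lt_of_le (h1.trans h2) with h | h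
  · have : u = ua := le_antisymm (by linarith) h1
    rw [this]; exact k1
  · have h3 : 0 ≤ c * ((u - ua) * (ub - u)) := mul_nonneg hc (mul_nonneg (by linarith) (by linarith))
    have h4 : (ub - ua) * (u * (u * c + d)) = (ub - u) * (ua * (ua * c + d)) + (u - ua) * (ub * (ub * c + d)) -
        (ub - ua) * (c * ((u - ua) * (ub - u))) := by ring
    have h5 := mul_le_mul_of_nonneg_left k1 (by linarith : 0 ≤ ub - u)
    have h6 := mul_le_mul_of_nonneg_left k2 (by linarith : 0 ≤ u - ua)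
    have h7 : 0 ≤ (ub - ua) * (c * ((u - ua) * (ub - u))) := mul_nonneg (by linarith) h3
    have h8 : (ub - ua) * (u * (u * c + d)) ≤ (ub - ua) * (-p) := by
      have h9 : (ub - ua) * (-p) = (ub - u) * (-p) + (u - ua) * (-p) := by ring
      linarith
    exact le_of_mul_le_mul_left h8 (by linarith)

private theorem le_of_sq_le_sq'' {a b : ℝ} (h : a ^ 2 ≤ b ^ 2) (hb : 0 ≤ b) : a ≤ b := by
  by_contra hc
  have hc' := not_le.1 hc
  have : b ^ 2 < a ^ 2 := pow_lt_pow_left₀ hc' hb (by norm_num)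
  linarith

/-- the width of the tangent leg -/
private theorem gg_le {β r t a y η g₂ : ℝ} (h : Sad β r t a y) (hy0 : 0 ≤ y) (hx0 : 0 < a - t)
    (ha : a < Real.pi / 2) (ha' : -(Real.pi / 2) < a) (hca : 0 < Real.cos a) (g1 : y ≤ η * (a - t)) (η1 : η ≤ 0.7)
    (g21 : (1.5708 - η + η ^ 3 / 3) * η ≤ 1 - g₂) :
    (Real.pi / 2 - a) * y ≤ (1 - g₂) * (a - t) := by
  have hpi' := Real.pi_lt_d4
  obtain ⟨w, hw⟩ : ∃ w : ℝ, w = y / (a - t) := ⟨_, rfl⟩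
  have hyw : y = w * (a - t) := by rw [hw]; field_simp
  have hw0 : 0 ≤ w := by rw [hw]; positivity
  have hwη : w ≤ η := by rw [hw, div_le_iff₀ hx0]; exact g1
  have haw : w - w ^ 3 / 3 ≤ a := by
    have h1 := arctan_lower hw0
    have h2 : Real.arctan w = a := by
      have h3 : w = Real.tan a := by
        rw [hw, Real.tan_eq_sin_div_cos]
        have k1 := h.hc
        have k2 := h.hs
        generalize β * r * Real.exp (-y) = z at k1 k2
        have hz : z ≠ 0 := by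
          rintro rfl
          rw [zero_mul] at k1
          linarith
        rw [← k1, ← k2]
        field_simp
      rw [h3, Real.arctan_tan ha' ha]
    rw [← h2]; exact h1
  have h2 : (Real.pi / 2 - a) * w ≤ (1.5708 - w + w ^ 3 / 3) * w := mul_le_mul_of_nonneg_right (by linarith) hw0
  have h3 : (1.5708 - w + w ^ 3 / 3) * w ≤ (1.5708 - η + η ^ 3 / 3) * η := by
    have h4 : (1.5708 - η + η ^ 3 / 3) * η - (1.5708 - w + w ^ 3 / 3) * w =
        (η - w) * (1.5708 - (η + w) + (η ^ 3 + η ^ 2 * w + η * w ^ 2 + w ^ 3) / 3) := by ring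
    have h5 : 0 ≤ (η - w) * (1.5708 - (η + w) + (η ^ 3 + η ^ 2 * w + η * w ^ 2 + w ^ 3) / 3) := by
      apply mul_nonneg (by linarith)
      have hη0 : 0 ≤ η := hw0.trans hwη
      have : 0 ≤ (η ^ 3 + η ^ 2 * w + η * w ^ 2 + w ^ 3) / 3 := by positivity
      linarith
    linarith
  calc (Real.pi / 2 - a) * y = (Real.pi / 2 - a) * w * (a - t) := by rw [hyw]; ring
    _ ≤ (1 - g₂) * (a - t) := mul_le_mul_of_nonneg_right (h2.trans (h3.trans g21)) hx0.le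

/-- the outer form of the leg at `-π` -/
private theorem legM1_outer {β r t a y : ℝ} (N : NR) (hN : N.Ok) (h : Sad β r t a y) (hy0 : 0 ≤ y) (ha0 : 0 ≤ a)
    (ha65 : a ≤ 0.65) (hx0 : 0 < a - t) (hκpos : 0 < β * r) (hκ1 : N.κ₁ ≤ β * r) (hκ2 : β * r ≤ N.κ₂)
    (ht : t ≤ -(β * r) + N.τ) (hr : 10 ≤ r) (hX : N.X ≤ a - t) (hE : N.E ≤ (a - t) * (1 + y))
    (hwx : a - t ≤ β * r * Real.exp (-y)) (hxκ : a - t ≤ β * r)
    (hcase : 1 ≤ (-Real.pi - (t + β)) / β + r * Real.exp (-y)) :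
    ∃ B₁ : ℝ, (∀ z ≤ y, LegW β r (t + β) (-Real.pi) z y 1 ≤ B₁) ∧
      scl β (a - t) * (Real.exp (-((a - t) * (1 + y) / β)) * ((2 + (a + Real.pi)) * Real.exp y * B₁)) ≤ N.ℓ := by
  have hpi := Real.pi_gt_d4
  have hpi' := Real.pi_lt_d4
  have X0 := hN.hκ.2.1
  have τ0 := hN.hκ.2.2
  have hg : N.g * (β * r) ≤ (Real.pi + a) * y + β * r * Real.exp (-y) + (a - t) := by
    have h1 : Real.pi * y + 2 * (a - t) ≤ (Real.pi + a) * y + β * r * Real.exp (-y) + (a - t) := by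
      have k1 : (Real.pi + a) * y = Real.pi * y + a * y := by ring
      have k2 : 0 ≤ a * y := mul_nonneg ha0 hy0
      linarith
    refine le_trans ?_ h1
    have hpy : 0 ≤ Real.pi * y := mul_nonneg (by linarith) hy0
    rcases hN.hg with h2 | ⟨G', G'0, G'1, G'2⟩
    · -- `x ≥ κ X / (X + τ)`
      have h3 : N.X * (β * r) ≤ (N.X + N.τ) * (a - t) := by
        have h4 : β * r ≤ (a - t) + N.τ := by linarith
        have k2 : N.X * (β * r) ≤ N.X * ((a - t) + N.τ) := mul_le_mul_of_nonneg_left h4 X0.le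
        have k3 : N.X * N.τ ≤ (a - t) * N.τ := mul_le_mul_of_nonneg_right hX τ0
        have k4 : N.X * ((a - t) + N.τ) = N.X * (a - t) + N.X * N.τ := by ring
        have k5 : (N.X + N.τ) * (a - t) = N.X * (a - t) + (a - t) * N.τ := by ring
        linarith
      have h5 : (N.X + N.τ) * (N.g * (β * r)) ≤ (N.X + N.τ) * (2 * (a - t)) := by
        calc (N.X + N.τ) * (N.g * (β * r)) = N.g * (N.X + N.τ) * (β * r) := by ring
          _ ≤ 2 * N.X * (β * r) := mul_le_mul_of_nonneg_right h2 hκpos.le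
          _ = 2 * (N.X * (β * r)) := by ring
          _ ≤ 2 * ((N.X + N.τ) * (a - t)) := by linarith
          _ = _ := by ring
      have h6 := le_of_mul_le_mul_left h5 (by linarith : 0 < N.X + N.τ)
      linarith
    · have h3 : G' ≤ Real.pi * (1 + y) + 2 * (a - t) := by
        have h5 : 25.132 * N.E ≤ 8 * Real.pi * ((a - t) * (1 + y)) := by
          have h6 : 25.132 * N.E ≤ (8 * Real.pi) * N.E := mul_le_mul_of_nonneg_right (by linarith) hN.hE.1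
          have h7 : (8 * Real.pi) * N.E ≤ (8 * Real.pi) * ((a - t) * (1 + y)) :=
            mul_le_mul_of_nonneg_left hE (by linarith)
          linarith
        have h4 : G' ^ 2 ≤ (Real.pi * (1 + y) + 2 * (a - t)) ^ 2 := by
          have k1 := sq_nonneg (Real.pi * (1 + y) - 2 * (a - t))
          have k2 : (Real.pi * (1 + y) + 2 * (a - t)) ^ 2 = (Real.pi * (1 + y) - 2 * (a - t)) ^ 2 +
              8 * Real.pi * ((a - t) * (1 + y)) := by ring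
          linarith
        have h8 : 0 ≤ Real.pi * (1 + y) + 2 * (a - t) := by
          have : 0 ≤ Real.pi * (1 + y) := mul_nonneg (by linarith) (by linarith)
          linarith
        exact le_of_sq_le_sq'' h4 h8
      have h4 : N.g * (β * r) ≤ N.g * N.κ₂ := mul_le_mul_of_nonneg_left hκ2 (by linarith [hN.hg0])
      have h5 : Real.pi * (1 + y) = Real.pi + Real.pi * y := by ring
      linarith
  obtain ⟨B, hB1, hB2⟩ := legM_out h hr ha65 (by linarith) hcase hg hx0 (c := 1) (by rw [one_mul]; exact hxκ)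
    zero_le_one (c' := 1) (by rw [Real.sqrt_one, one_mul]) hN.hg0
  refine ⟨B, hB1, hB2.trans ?_⟩
  have h1 : 147 * 1 * Real.exp (-(10 * N.g)) ≤ 147 * N.W₂ := by
    rw [mul_one]; exact mul_le_mul_of_nonneg_left hN.hW₂.1 (by norm_num)
  exact h1.trans hN.hW₂.2

/-- the middle form of the leg at `-π` -/
private theorem legM1_mid {β r t a y : ℝ} (N : NR) (hN : N.Ok) (h : Sad β r t a y) (hy0 : 0 ≤ y) (ha0 : 0 ≤ a)
    (ha65 : a ≤ 0.65) (hx0 : 0 < a - t) (hκpos : 0 < β * r) (hκ1 : N.κ₁ ≤ β * r) (hκ2 : β * r ≤ N.κ₂)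
    (ht : t ≤ -(β * r) + N.τ) (hr : 10 ≤ r) (g2 : N.X ≤ a - t) (hE : N.E ≤ (a - t) * (1 + y))
    (hβρ' : β ≤ 1 / N.ρ) (hwx : a - t ≤ β * r * Real.exp (-y)) (hxκ : a - t ≤ β * r)
    (hcase : ¬ 1 ≤ (-Real.pi - (t + β)) / β + r * Real.exp (-y)) :
    ∃ B₁ : ℝ, (∀ z ≤ y, LegW β r (t + β) (-Real.pi) z y 1 ≤ B₁) ∧
      scl β (a - t) * (Real.exp (-((a - t) * (1 + y) / β)) * ((2 + (a + Real.pi)) * Real.exp y * B₁)) ≤ N.ℓ := by
  have hpi := Real.pi_gt_d4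
  have hpi' := Real.pi_lt_d4
  have hβ := h.hβ
  have X0 := hN.hκ.2.1
  have hρ0 := hN.hρ
  have κ0 := hN.hκ.1
  obtain ⟨Y0, Y1, K0⟩ := hN.hY
  have hcase' := not_le.1 hcase
  have hc2 : β * r * Real.exp (-y) < t + 2 * β + Real.pi := by
    have h1 : β * ((-Real.pi - (t + β)) / β + r * Real.exp (-y)) < β * 1 := mul_lt_mul_of_pos_left hcase' hβ
    have h2 : β * ((-Real.pi - (t + β)) / β + r * Real.exp (-y)) = (-Real.pi - (t + β)) + β * r * Real.exp (-y) := by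
      field_simp
    linarith
  have hth : Real.pi / 2 < t + β + Real.pi := by linarith
  have hκK : β * r ≤ N.K := by
    rcases hN.hK with h1 | h1
    · linarith
    · linarith
  have hubκ : t + β + Real.pi ≤ N.ub * (β * r) := by
    have h1 : (1 + N.ub) * N.κ₁ ≤ (1 + N.ub) * (β * r) := by
      apply mul_le_mul_of_nonneg_left hκ1
      by_contra hcon
      have h2 : 1 + N.ub < 0 := not_le.1 hcon
      have h3 : 0 < 1 / N.ρ := by positivity
      have h4 := hN.hub.1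
      have h5 := hN.hκ.2.2
      have h6 : (1 + N.ub) * N.κ₁ < 0 := mul_neg_of_neg_of_pos h2 (by linarith)
      linarith
    linarith [hN.hub.1]
  have huaκ : N.ua * (β * r) ≤ t + β + Real.pi := by
    have h1 : N.ua * (β * r) ≤ N.ua * N.K := mul_le_mul_of_nonneg_left hκK hN.hua.1.le
    linarith [hN.hua.2]
  obtain ⟨u, hu⟩ : ∃ u : ℝ, u = (t + β + Real.pi) / (β * r) := ⟨_, rfl⟩
  have hu0 : 0 < u := by rw [hu]; apply div_pos _ hκpos; linarith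
  have hu1 : N.ua ≤ u := by rw [hu, le_div_iff₀ hκpos]; exact huaκ
  have hu2 : u ≤ N.ub := by rw [hu, div_le_iff₀ hκpos]; exact hubκ
  obtain ⟨v0, v1⟩ := hN.hv
  have hψ : u * (Real.log u - 1) ≤ -N.p := by
    refine (psi_le hu0 v0 v1).trans ?_
    have h1 := quad_neg (u := u) (ua := N.ua) (ub := N.ub) (c := 1 / N.v) (d := N.L - 2) (p := N.p) (by positivity)
      hu1 hu2 (by
        have := hN.hp.1
        calc N.ua * (N.ua * (1 / N.v) + (N.L - 2)) = N.ua * (N.ua / N.v + N.L - 2) := by ring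
          _ ≤ _ := this) (by
        have := hN.hp.2
        calc N.ub * (N.ub * (1 / N.v) + (N.L - 2)) = N.ub * (N.ub / N.v + N.L - 2) := by ring
          _ ≤ _ := this)
    calc u * (u / N.v + N.L - 2) = u * (u * (1 / N.v) + (N.L - 2)) := by ring
      _ ≤ _ := h1
  have hp' : (t + β + Real.pi) * (Real.log ((t + β + Real.pi) / (β * r)) - 1) ≤ -(N.p * (β * r)) := by
    rw [← hu]
    have h1 : t + β + Real.pi = u * (β * r) := by rw [hu]; field_simp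
    rw [h1]
    calc u * (β * r) * (Real.log u - 1) = (β * r) * (u * (Real.log u - 1)) := by ring
      _ ≤ (β * r) * (-N.p) := mul_le_mul_of_nonneg_left hψ hκpos.le
      _ = _ := by ring
  -- height
  have hey : Real.exp y ≤ N.K / N.X := by
    rw [le_div_iff₀ X0]
    have h1 : N.X ≤ N.K * Real.exp (-y) := by
      have h2 : β * r * Real.exp (-y) ≤ N.K * Real.exp (-y) := mul_le_mul_of_nonneg_right hκK (Real.exp_pos _).le
      linarith
    have h2 := mul_le_mul_of_nonneg_left h1 (Real.exp_pos y).le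
    have h3 : Real.exp y * (N.K * Real.exp (-y)) = N.K := by
      have : Real.exp y * Real.exp (-y) = 1 := by rw [← Real.exp_add, add_neg_cancel, Real.exp_zero]
      calc Real.exp y * (N.K * Real.exp (-y)) = N.K * (Real.exp y * Real.exp (-y)) := by ring
        _ = N.K := by rw [this, mul_one]
    linarith
  have hKX : 0 < N.K / N.X := by positivity
  have hyY : y ≤ Real.log (N.K / N.X) := by
    rw [Real.le_log_iff_exp_le hKX]; exact hey
  have hYY : Real.log (N.K / N.X) ≤ N.Y := by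
    rw [Real.log_le_iff_le_exp hKX, div_le_iff₀ X0]
    linarith
  obtain ⟨ee1, ee2, ee3⟩ := hN.hee
  obtain ⟨B, hB1, hB2⟩ := legM_mid h hr (by linarith) hyY (by linarith) (by
      have := mul_le_mul_of_nonneg_right hN.hub.2 hκpos.le
      linarith) ha65 (by linarith) hp' (e := N.e) (by
      have h1 : N.e * (β * r) ≤ N.e * N.K := mul_le_mul_of_nonneg_left hκK ee2
      linarith) hx0 (c := 1) (by rw [one_mul]; exact hxκ)
    zero_le_one (c' := 1) (by rw [Real.sqrt_one, one_mul]) ee3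
  refine ⟨B, hB1, hB2.trans ?_⟩
  rw [Real.exp_log hKX]
  obtain ⟨w1, w2⟩ := hN.hW₁
  refine le_trans ?_ w2
  have h0 : 0 ≤ Real.log (N.K / N.X) := hy0.trans hyY
  have h1 : (Real.log (N.K / N.X) + 7 / 3) * (0.1 + (Real.log (N.K / N.X) + 4 / 3)) + 0.01 ≤
      (N.Y + 7 / 3) * (0.1 + (N.Y + 4 / 3)) + 0.01 := by
    have := mul_le_mul (by linarith : Real.log (N.K / N.X) + 7 / 3 ≤ N.Y + 7 / 3)
      (by linarith : 0.1 + (Real.log (N.K / N.X) + 4 / 3) ≤ 0.1 + (N.Y + 4 / 3)) (by linarith) (by linarith)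
    linarith
  have h2 : 0 ≤ (Real.log (N.K / N.X) + 7 / 3) * (0.1 + (Real.log (N.K / N.X) + 4 / 3)) + 0.01 := by positivity
  have h3 : N.K / N.X * ((Real.log (N.K / N.X) + 7 / 3) * (0.1 + (Real.log (N.K / N.X) + 4 / 3)) + 0.01) ≤
      N.K / N.X * ((N.Y + 7 / 3) * (0.1 + (N.Y + 4 / 3)) + 0.01) := mul_le_mul_of_nonneg_left h1 hKX.le
  calc 73.1 * 1 * (N.K / N.X * ((Real.log (N.K / N.X) + 7 / 3) * (0.1 + (Real.log (N.K / N.X) + 4 / 3)) + 0.01)) *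
        Real.exp (-(10 * (N.e + N.p)))
      ≤ 73.1 * 1 * (N.K / N.X * ((N.Y + 7 / 3) * (0.1 + (N.Y + 4 / 3)) + 0.01)) * N.W₁ :=
        mul_le_mul (mul_le_mul_of_nonneg_left h3 (by norm_num)) w1 (Real.exp_pos _).le
          (mul_nonneg (by norm_num) ((mul_nonneg hKX.le h2).trans h3))
    _ = _ := by ring

/-- the leg at `-π` -/
private theorem legM1_num {β r t a y : ℝ} (N : NR) (hN : N.Ok) (h : Sad β r t a y) (hy0 : 0 ≤ y) (ha0 : 0 ≤ a)
    (ha65 : a ≤ 0.65) (hx0 : 0 < a - t) (hκpos : 0 < β * r) (hκ1 : N.κ₁ ≤ β * r) (hκ2 : β * r ≤ N.κ₂)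
    (ht : t ≤ -(β * r) + N.τ) (hr : 10 ≤ r) (g2 : N.X ≤ a - t) (hE : N.E ≤ (a - t) * (1 + y))
    (hβρ' : β ≤ 1 / N.ρ) (hwx : a - t ≤ β * r * Real.exp (-y)) (hxκ : a - t ≤ β * r) :
    ∃ B₁ : ℝ, (∀ z ≤ y, LegW β r (t + β) (-Real.pi) z y 1 ≤ B₁) ∧
      scl β (a - t) * (Real.exp (-((a - t) * (1 + y) / β)) * ((2 + (a + Real.pi)) * Real.exp y * B₁)) ≤ N.ℓ := by
  by_cases hcase : 1 ≤ (-Real.pi - (t + β)) / β + r * Real.exp (-y)
  · exact legM1_outer N hN h hy0 ha0 ha65 hx0 hκpos hκ1 hκ2 ht hr g2 hE hwx hxκ hcase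
  · exact legM1_mid N hN h hy0 ha0 ha65 hx0 hκpos hκ1 hκ2 ht hr g2 hE hβρ' hwx hxκ hcase

/-- SLOPE of the right window with numerical data -/
theorem slope1_num {β r t a y ε : ℝ} (N : NR) (hN : N.Ok) (h : Sad β r t a y) (ha0 : 0 ≤ a) (ha : a < Real.pi / 2)
    (hκ1 : N.κ₁ ≤ β * r) (hκ2 : β * r ≤ N.κ₂) (ht : t ≤ -(β * r) + N.τ) (ht' : -(β * r) + N.τm ≤ t) (hr : 10 ≤ r)
    (hρr : N.ρ * (β * r) ≤ r) (hε : ε < 1)
    (hval : 1 - ε ≤ ‖AA β r t‖ * Real.sqrt (nD (a - t) y) * Real.exp (-((a - t) * (1 + y) / β))) :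
    ‖ew β r t * AA β r (t + β) / AA β r t - Lx t a y / β‖ ≤ N.m * N.C / (1 - ε) := by
  have hpi := Real.pi_gt_d4
  have hpi' := Real.pi_lt_d4
  have hβ := h.hβ
  have hr0 := h.hr
  obtain ⟨η0, η1⟩ := hN.η0
  obtain ⟨A0, A1, A2⟩ := hN.hA
  obtain ⟨C0, C1, C2, C3⟩ := hN.hC
  obtain ⟨κ0, X0, τ0⟩ := hN.hκ
  obtain ⟨n1, n1'⟩ := hN.n1
  obtain ⟨n2, n2'⟩ := hN.n2
  have hκpos : 0 < β * r := by positivity
  -- geometry
  obtain ⟨g1, g2, g3⟩ := geoR h ha0 ha hκ1 ht η0 (A0.trans (arctan_lower7 η0.le)) A1 A2 C0 C1 C2 C3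
    (by linarith) X0 ((mul_le_mul_of_nonneg_left n1 (by linarith)).trans n1')
    (n2'.trans (mul_le_mul_of_nonneg_left n2 (by linarith)))
  have hx0 : 0 < a - t := by linarith
  have hca : 0 < Real.cos a := Real.cos_pos_of_mem_Ioo ⟨by linarith, ha⟩
  have hsa : 0 ≤ Real.sin a := Real.sin_nonneg_of_nonneg_of_le_pi ha0 (by linarith)
  have hρw : 0 < β * r * Real.exp (-y) := by positivity
  have hy0 : 0 ≤ y := by rw [← h.hs]; positivity
  have hE : N.E ≤ (a - t) * (1 + y) := hN.hE.2.trans g3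
  -- `a ≤ y / x ≤ η`
  have haη : a ≤ N.η := by
    have h1 := Sad.xa_le h ha0 ha
    have h2 : (a - t) * a ≤ (a - t) * N.η := by linarith
    exact le_of_mul_le_mul_left h2 hx0
  have ha65 : a ≤ 0.65 := by
    have h1 : a ≤ Real.arctan 0.7 := by
      have h2 : Real.tan a ≤ 0.7 := by
        have h3 : y = (a - t) * Real.tan a := by
          rw [Real.tan_eq_sin_div_cos]
          have k1 := h.hc
          have k2 := h.hs
          generalize β * r * Real.exp (-y) = w at k1 k2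
          rw [← k1, ← k2]
          field_simp
        have h4 : (a - t) * Real.tan a ≤ (a - t) * 0.7 := by
          rw [← h3]
          have h5 : N.η * (a - t) ≤ 0.7 * (a - t) := mul_le_mul_of_nonneg_right η1 hx0.le
          linarith
        exact le_of_mul_le_mul_left h4 hx0
      have h5 := Real.arctan_mono h2
      rwa [Real.arctan_tan (by linarith) ha] at h5
    exact h1.trans arctan_seven
  -- `β ρ ≤ 1`
  have hβρ : β * N.ρ ≤ 1 := by
    have h1 : (β * N.ρ) * r ≤ 1 * r := by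
      calc (β * N.ρ) * r = N.ρ * (β * r) := by ring
        _ ≤ r := hρr
        _ = 1 * r := by ring
    exact le_of_mul_le_mul_right h1 hr0
  have hρ0 := hN.hρ
  have hβρ' : β ≤ 1 / N.ρ := by rw [le_div_iff₀ hρ0]; exact hβρ
  -- `l β ≤ x`
  obtain ⟨l0, l1, l2⟩ := hN.hl
  have hlβ : N.l * β ≤ a - t := by
    have h1 : N.l * β ≤ N.X * N.ρ * β := mul_le_mul_of_nonneg_right l1 hβ.le
    have h2 : N.X * N.ρ * β = N.X * (β * N.ρ) := by ring
    have h3 : N.X * (β * N.ρ) ≤ N.X * 1 := mul_le_mul_of_nonneg_left hβρ X0.le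
    linarith
  -- `x ≤ κ`
  have hwx : a - t ≤ β * r * Real.exp (-y) := by
    have h1 := h.hc
    have h2 : β * r * Real.exp (-y) * Real.cos a ≤ β * r * Real.exp (-y) * 1 :=
      mul_le_mul_of_nonneg_left (Real.cos_le_one a) hρw.le
    linarith
  have hwκ : β * r * Real.exp (-y) ≤ β * r := by
    have h1 : Real.exp (-y) ≤ 1 := by rw [Real.exp_le_one_iff]; linarith
    exact mul_le_of_le_one_right hκpos.le h1
  have hxκ : a - t ≤ β * r := hwx.trans hwκ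
  -- upper bounds of the pieces
  obtain ⟨s0, s1⟩ := hN.hs
  have hsl : Real.sqrt N.l ≤ N.s := Real.sqrt_le_iff.2 ⟨s0, s1⟩
  obtain ⟨e1, e1'⟩ := hN.he₁
  obtain ⟨G0, G1, G2⟩ := hN.hG
  have hγ0 : 0 < 11 / 12 - N.η / 3 := by linarith
  have hGpos : 0 < N.G := by
    by_contra hc
    have h1 : N.G ≤ 0 := not_lt.1 hc
    have h2 : 0 ≤ (11 / 12 - N.η / 3) * N.sγ := mul_nonneg hγ0.le G0
    have h3 := mul_nonpos_of_nonpos_of_nonneg h1 h2
    linarith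
  have b1 := hB_scale (β := β) (x := a - t) (c := 11 / 12 * (a - t)) (g := 11 / 24 * (a - t)) (ν := 7 / 10 * (a - t))
    (γ₁ := 11 / 12) (g₁ := 11 / 24) (ν₁ := 7 / 10) (l₁ := N.l) (s := N.s) (e := N.e₀) (G := 0.2849) hβ hx0
    (by norm_num) (by norm_num) (by norm_num) le_rfl le_rfl le_rfl l0 hlβ (by linarith) hsl hN.he₀ (by
      have h1 : (0.9574 : ℝ) ≤ Real.sqrt (11 / 12) := by
        apply Real.le_sqrt_of_sq_le; norm_num
      linarith)
  have b2 := hB_scale (β := β) (x := a - t) (c := 11 / 12 * (a - t) - y / 3) (g := 11 / 24 * (a - t) - y / 6)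
    (ν := 5 / 6 * (a - t) - y / 2)
    (γ₁ := 11 / 12 - N.η / 3) (g₁ := 11 / 24 - N.η / 6) (ν₁ := 5 / 6 - N.η / 2) (l₁ := N.l) (s := N.s) (e := N.e₁)
    (G := N.G) hβ hx0 hγ0 (by linarith) (by linarith) (by linarith) (by linarith) (by linarith) l0 hlβ e1' hsl
    e1 (by
      have h1 : N.sγ ≤ Real.sqrt (11 / 12 - N.η / 3) := Real.le_sqrt_of_sq_le G1
      refine G2.trans ?_
      apply mul_le_mul_of_nonneg_left _ (by positivity)
      exact mul_le_mul_of_nonneg_left h1 hγ0.le)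
  -- the leg at `π/2`
  obtain ⟨q0, q1, q2, q3, q4⟩ := hN.hq
  have hδ : 0 < Real.pi / 2 - t - β := by linarith
  obtain ⟨g20, g21⟩ := hN.hg₂
  obtain ⟨e2, e2'⟩ := hN.he₂
  have hgg := gg_le h hy0 hx0 ha (by linarith) hca g1 η1 g21
  have hqx : a - t ≤ N.q * (Real.pi / 2 - t - β) := by
    have h1 : (a - t) * (1 - N.q) ≤ (N.κ₂ - N.τm + N.η) * (1 - N.q) :=
      mul_le_mul_of_nonneg_right (by linarith) (by linarith)
    have h2 : N.q * (1.5707 - N.η - 1 / N.ρ) ≤ N.q * (Real.pi / 2 - a - β) :=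
      mul_le_mul_of_nonneg_left (by linarith) q0.le
    have h3 : (a - t) * (1 - N.q) ≤ N.q * (Real.pi / 2 - a - β) := h1.trans (q3.trans h2)
    linarith
  have b3 := legP_scale (β := β) (t := t) (a := a) (y := y) (g₂ := N.g₂) (q₀ := N.q) (l₁ := N.l) (s := N.s) (e := N.e₂)
    hβ ha0 ha hx0 g20 hgg hqx hδ l0 hlβ e2' hsl e2
  -- the leg at `-π`
  have hlegM := legM1_num N hN h hy0 ha0 ha65 hx0 hκpos hκ1 hκ2 ht hr g2 hE hβρ' hwx hxκ
  obtain ⟨B₁, hB1, hB2⟩ := hlegM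
  have hmain := slopeR h hy0 ha0 ha (by
    have := mul_le_mul_of_nonneg_right η1 hx0.le
    linarith) (by linarith) hB1
  have hC0 : 0 ≤ N.C := by
    have hs2 := (scl_pos hβ hx0).le
    refine le_trans ?_ hN.hCC
    have k1 : 0 ≤ N.e₀ := (Real.exp_pos _).le.trans hN.he₀
    have k2 : 0 ≤ N.e₁ := (Real.exp_pos _).le.trans e1
    have k3 : 0 ≤ N.e₂ := (Real.exp_pos _).le.trans e2
    have k4 : 0 ≤ N.ℓ := by
      refine le_trans ?_ hN.hW₂.2
      have := (Real.exp_pos _).le.trans hN.hW₂.1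
      positivity
    have k5 : 0 ≤ qc (7 / 10) N.l := by unfold qc; positivity
    have k6 : 0 ≤ qc (5 / 6 - N.η / 2) N.l := by
      have : 0 < 5 / 6 - N.η / 2 := by linarith
      unfold qc; positivity
    have k7 : 0 ≤ N.G := hGpos.le
    positivity
  have hfin := slope_quot (m := N.m) (C := N.C) hβ hx0 (by linarith : -1 < y) hmain (by
      have e1 : scl β (a - t) * (hB β (11 / 12 * (a - t)) (11 / 24 * (a - t)) (7 / 10 * (a - t)) +
          hB β (11 / 12 * (a - t) - y / 3) (11 / 24 * (a - t) - y / 6) (5 / 6 * (a - t) - y / 2) +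
          Real.exp (-((a - t) * (1 + y) / β)) * ((2 + (Real.pi / 2 - a)) * (Real.exp ((Real.pi / 2 - t) * y / β) *
          (1 / ((Real.pi / 2 - t - β) / β) + 1 / ((Real.pi / 2 - t - β) / β) ^ 2))) +
          Real.exp (-((a - t) * (1 + y) / β)) * ((2 + (a + Real.pi)) * Real.exp y * B₁)) =
          scl β (a - t) * hB β (11 / 12 * (a - t)) (11 / 24 * (a - t)) (7 / 10 * (a - t)) +
          scl β (a - t) * hB β (11 / 12 * (a - t) - y / 3) (11 / 24 * (a - t) - y / 6) (5 / 6 * (a - t) - y / 2) +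
          scl β (a - t) * (Real.exp (-((a - t) * (1 + y) / β)) * ((2 + (Real.pi / 2 - a)) *
            (Real.exp ((Real.pi / 2 - t) * y / β) *
          (1 / ((Real.pi / 2 - t - β) / β) + 1 / ((Real.pi / 2 - t - β) / β) ^ 2)))) +
          scl β (a - t) * (Real.exp (-((a - t) * (1 + y) / β)) * ((2 + (a + Real.pi)) * Real.exp y * B₁)) := by ring
      rw [e1]
      have := hN.hCC
      linarith) hC0 hε hval (by
      have hR := hN.hR
      exact amp_le hx0 (by linarith) (by rw [abs_of_nonneg hy0]; exact g1) X0.le g2 hN.hE.1 hE hR.1 hR.2.1 hR.2.2)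
  exact hfin

end Sok
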