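import Pool.Agent.Lib.MP_816dec_an.A0Sec7
import Pool.Agent.Lib.MP_816dec_an.N1X0

/-!
MP_816dec_an (R2, N2): slope of the left window (`X_0`), theorem with numerical data.
-/

set_option autoImplicit false

open Complex Set Filter Topology MeasureTheory

namespace Sok

open Sok.Mid Sok.N1

/-- the right leg at the left saddle -/
theorem legPi_out {β r t a y : ℝ} (h : Sad β r t a y) (hr : 10 ≤ r) (hy0 : y ≤ 0) (ha : -0.2746 ≤ a)
    (ha0 : a ≤ 0) (hκx : β * r ≤ a - t) (htβ : t + β ≤ Real.pi) {c : ℝ}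
    (hx : a - t ≤ c * (β * r)) (hc0 : 0 ≤ c) {c' : ℝ} (hc : c * Real.sqrt c ≤ c') :
    ∃ B₀ : ℝ, (∀ z ≤ y, LegW β r (t + β) Real.pi z y 1 ≤ B₀) ∧
      scl β (a - t) * (Real.exp (-((a - t) * (1 + y) / β)) * ((2 + (Real.pi - a)) * Real.exp y * B₀)) ≤
        8 * c' * Real.exp (-(10 * 2)) := by
  have hpi := Real.pi_gt_d4
  have hpi4 := Real.pi_lt_d4
  have hβ := h.hβ
  have hr0 := h.hr
  have hbr : 0 < β * r := by positivity
  have hx0 : 0 < a - t := by linarith
  have hey1 : 1 ≤ Real.exp (-y) := Real.one_le_exp (by linarith)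
  obtain ⟨d, hd⟩ : ∃ d : ℝ, d = (Real.pi - (t + β)) / β + r * Real.exp (-y) := ⟨_, rfl⟩
  have hd10 : 10 ≤ d := by
    have h1 : 0 ≤ (Real.pi - (t + β)) / β := div_nonneg (by linarith) hβ.le
    have h2 : r * 1 ≤ r * Real.exp (-y) := mul_le_mul_of_nonneg_left hey1 hr0.le
    rw [hd]; linarith
  have hd0 : 0 < d := by linarith
  refine ⟨Real.exp (-((t + β) * y / β)) * (Real.exp (Real.pi * y / β - r * Real.exp (-y)) * (1 / d + 1 / d ^ 2)),
    fun z hz => ?_, ?_⟩
  · rw [hd]
    exact LegW_pi_le hr0.le zero_le_one (by rw [← hd]; exact hd0) hz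
  · obtain ⟨l, hld⟩ : ∃ l : ℝ, l = (a - t) / β := ⟨_, rfl⟩
    have hl0 : 0 < l := by rw [hld]; positivity
    have hlr : l ≤ c * r := by
      rw [hld, div_le_iff₀ hβ]
      calc a - t ≤ c * (β * r) := hx
        _ = _ := by ring
    have hscl : scl β (a - t) ≤ c' * (r * Real.sqrt r) / 2.5066 := by
      rw [scl_eq hβ hl0 (by rw [hld]; field_simp)]
      have h2p := sqrt_two_pi
      have s1 : l * Real.sqrt l ≤ (c * r) * Real.sqrt (c * r) :=
        mul_le_mul hlr (Real.sqrt_le_sqrt hlr) (Real.sqrt_nonneg _) (hl0.le.trans hlr)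
      have s2 : (c * r) * Real.sqrt (c * r) = (c * Real.sqrt c) * (r * Real.sqrt r) := by
        rw [Real.sqrt_mul hc0]; ring
      have s3 : (c * Real.sqrt c) * (r * Real.sqrt r) ≤ c' * (r * Real.sqrt r) :=
        mul_le_mul_of_nonneg_right hc (by positivity)
      have s4 : l * Real.sqrt l ≤ c' * (r * Real.sqrt r) := s1.trans (s2.le.trans s3)
      calc l * Real.sqrt l / Real.sqrt (2 * Real.pi) ≤ c' * (r * Real.sqrt r) / Real.sqrt (2 * Real.pi) :=
            div_le_div_of_nonneg_right s4 (Real.sqrt_nonneg _)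
        _ ≤ _ := div_le_div_of_nonneg_left ((by positivity : 0 ≤ l * Real.sqrt l).trans s4) (by norm_num) h2p
    have hc'0 : 0 ≤ c' := (mul_nonneg hc0 (Real.sqrt_nonneg _)).trans hc
    have e1 : Real.exp (-((a - t) * (1 + y) / β)) * ((2 + (Real.pi - a)) * Real.exp y *
        (Real.exp (-((t + β) * y / β)) * (Real.exp (Real.pi * y / β - r * Real.exp (-y)) * (1 / d + 1 / d ^ 2)))) =
        (2 + (Real.pi - a)) * (Real.exp (-(((Real.pi - a) * (-y) + β * r * Real.exp (-y) + (a - t)) / β)) *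
          (1 / d + 1 / d ^ 2)) := by
      have e2 : Real.exp (-(((Real.pi - a) * (-y) + β * r * Real.exp (-y) + (a - t)) / β)) =
          Real.exp (-((a - t) * (1 + y) / β)) * Real.exp y * Real.exp (-((t + β) * y / β)) *
            Real.exp (Real.pi * y / β - r * Real.exp (-y)) := by
        rw [← Real.exp_add, ← Real.exp_add, ← Real.exp_add]
        congr 1
        have := hβ.ne'
        field_simp
        ring
      rw [e2]; ring
    rw [e1]
    have h3 : Real.exp (-(((Real.pi - a) * (-y) + β * r * Real.exp (-y) + (a - t)) / β)) ≤ Real.exp (-(2 * r)) := by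
      apply Real.exp_le_exp.2
      rw [neg_le_neg_iff, le_div_iff₀ hβ]
      have k1 : 0 ≤ (Real.pi - a) * (-y) := mul_nonneg (by linarith) (by linarith)
      have k2 : β * r * 1 ≤ β * r * Real.exp (-y) := mul_le_mul_of_nonneg_left hey1 hbr.le
      have k3 : 2 * r * β = 2 * (β * r) := by ring
      linarith
    have h4 : 1 / d + 1 / d ^ 2 ≤ 0.11 := by
      have i1 : 1 / d ≤ 0.1 := by rw [div_le_iff₀ hd0]; linarith
      have i2 : 1 / d ^ 2 ≤ 0.01 := by rw [div_le_iff₀ (by positivity)]; nlinarith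
      linarith
    have h2a : 2 + (Real.pi - a) ≤ 5.4163 := by linarith
    have h2a0 : 0 ≤ 2 + (Real.pi - a) := by linarith
    have hW : (2 + (Real.pi - a)) * (Real.exp (-(((Real.pi - a) * (-y) + β * r * Real.exp (-y) + (a - t)) / β)) *
          (1 / d + 1 / d ^ 2)) ≤ 5.4163 * (Real.exp (-(2 * r)) * 0.11) :=
      mul_le_mul h2a (mul_le_mul h3 h4 (by positivity) (Real.exp_pos _).le) (by positivity) (by norm_num)
    refine (mul_le_mul hscl hW (by positivity) (by positivity)).trans ?_
    have h10 := pow_exp_ten (r := r) (g := 2) hr (by norm_num)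
    calc c' * (r * Real.sqrt r) / 2.5066 * (5.4163 * (Real.exp (-(2 * r)) * 0.11)) =
          (5.4163 * 0.11 / 2.5066 * c') * (r * Real.sqrt r * Real.exp (-(2 * r))) := by ring
      _ ≤ (5.4163 * 0.11 / 2.5066 * c') * (31.63 * Real.exp (-(10 * 2))) := mul_le_mul_of_nonneg_left h10 (by positivity)
      _ = (5.4163 * 0.11 / 2.5066 * 31.63) * (c' * Real.exp (-(10 * 2))) := by ring
      _ ≤ 8 * (c' * Real.exp (-(10 * 2))) := mul_le_mul_of_nonneg_right (by norm_num) (by positivity)
      _ = _ := by ring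

/-- the left leg at the left saddle -/
theorem legM0_num {β r t a y : ℝ} (h : Sad β r t a y) (hκ : 1.39 ≤ β * r) (hr : 10 ≤ r) (hy : -1 < y) (hy0 : y ≤ 0)
    (ha : -0.2746 ≤ a) (ha0 : a ≤ 0) (hκx : β * r ≤ a - t) (hη : -y ≤ 0.2746 * (a - t)) (hxw : a - t ≤ β * r * Real.exp (-y)) :
    ∃ B₁ : ℝ, (∀ z ≤ y, LegW β r (t + β) (-Real.pi) z y 1 ≤ B₁) ∧
      scl β (a - t) * (Real.exp (-((a - t) * (1 + y) / β)) * ((2 + (a + Real.pi)) * Real.exp y * B₁)) ≤ 0.0079 := by
  have hpi := Real.pi_gt_d4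
  have hpi' := Real.pi_lt_d4
  have hβ := h.hβ
  have hr0 := h.hr
  have hκpos : 0 < β * r := by positivity
  have hx0 : 0 < a - t := by linarith
  have hey1 : 1 ≤ Real.exp (-y) := Real.one_le_exp (by linarith)
  have hwκ : β * r ≤ β * r * Real.exp (-y) := le_mul_of_one_le_right hκpos.le hey1
  by_cases hcase : 1 ≤ (-Real.pi - (t + β)) / β + r * Real.exp (-y)
  · have he : Real.exp (-y) ≤ 2.7183 := by
      have h1 : Real.exp (-y) ≤ Real.exp 1 := Real.exp_le_exp.2 (by linarith)
      have := Real.exp_one_lt_d9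
      linarith
    have hg : 1.137 * (β * r) ≤ (Real.pi + a) * y + β * r * Real.exp (-y) + (a - t) := by
      have k1 : Real.pi * (-y) ≤ Real.pi * (0.2746 * (a - t)) := mul_le_mul_of_nonneg_left hη (by linarith)
      have k2 : Real.pi * (0.2746 * (a - t)) ≤ 3.1416 * (0.2746 * (a - t)) :=
        mul_le_mul_of_nonneg_right hpi'.le (by positivity)
      have k3 : 0 ≤ a * y := mul_nonneg_of_nonpos_of_nonpos ha0 hy0
      have k4 : (Real.pi + a) * y = -(Real.pi * (-y)) + a * y := by ring
      linarith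
    obtain ⟨B, hB1, hB2⟩ := legM_out h hr (by linarith) (by linarith) hcase hg hx0 (c := 2.7183) (by
        have := mul_le_mul_of_nonneg_left he hκpos.le
        linarith)
      (by norm_num) (c' := 4.4822) (by
        have : Real.sqrt 2.7183 ≤ 1.64887 := by
          rw [Real.sqrt_le_left (by norm_num)]; norm_num
        linarith) (by norm_num)
    refine ⟨B, hB1, hB2.trans ?_⟩
    have h1 : Real.exp (-(10 * 1.137)) ≤ 0.0000117 :=
      exp_neg_le_of 36 (by norm_num) (by norm_num) (by norm_num [Finset.sum_range_succ, Nat.factorial])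
    linarith
  · have hcase' := not_le.1 hcase
    have hc2 : β * r * Real.exp (-y) < t + 2 * β + Real.pi := by
      have h1 : β * ((-Real.pi - (t + β)) / β + r * Real.exp (-y)) < β * 1 := mul_lt_mul_of_pos_left hcase' hβ
      have h2 : β * ((-Real.pi - (t + β)) / β + r * Real.exp (-y)) = (-Real.pi - (t + β)) + β * r * Real.exp (-y) := by
        field_simp
      linarith
    have hβκ : 10 * β ≤ β * r := by
      have := mul_le_mul_of_nonneg_left hr hβ.le
      linarith
    have hx1 : 1.8 * (a - t) ≤ 3.1416 := by linarith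
    have hx2 : a - t ≤ 1.7454 := by linarith
    have hth : 0.9 * (β * r) ≤ t + β + Real.pi := by linarith
    have hth2 : t + β + Real.pi ≤ 1.361 * (β * r) := by linarith
    obtain ⟨u, hu⟩ : ∃ u : ℝ, u = (t + β + Real.pi) / (β * r) := ⟨_, rfl⟩
    have hu1 : 0.9 ≤ u := by rw [hu, le_div_iff₀ hκpos]; exact hth
    have hu2 : u ≤ 1.361 := by rw [hu, div_le_iff₀ hκpos]; exact hth2
    have hu0 : 0 < u := by linarith
    have hψ : u * (Real.log u - 1) ≤ -0.86 := by
      refine (psi_le hu0 one_pos (le_of_eq Real.log_one)).trans ?_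
      nlinarith
    have hp' : (t + β + Real.pi) * (Real.log ((t + β + Real.pi) / (β * r)) - 1) ≤ -(0.86 * (β * r)) := by
      rw [← hu]
      have h1 : t + β + Real.pi = u * (β * r) := by rw [hu]; field_simp
      rw [h1]
      calc u * (β * r) * (Real.log u - 1) = (β * r) * (u * (Real.log u - 1)) := by ring
        _ ≤ (β * r) * (-0.86) := mul_le_mul_of_nonneg_left hψ hκpos.le
        _ = _ := by ring
    have hyx : -0.4793 ≤ y := by linarith
    have hE : 0.52 * (β * r) ≤ (a - t) * (1 + y) := by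
      have h1 : (a - t) * 0.52 ≤ (a - t) * (1 + y) := mul_le_mul_of_nonneg_left (by linarith) hx0.le
      linarith
    obtain ⟨B, hB1, hB2⟩ := legM_mid h hr (by linarith) hy0 (by linarith) (by linarith) (by linarith) (by linarith) hp'
      hE hx0 (c := 1.2557) (by linarith) (by norm_num) (c' := 1.408) (by
        have : Real.sqrt 1.2557 ≤ 1.1206 := by
          rw [Real.sqrt_le_left (by norm_num)]; norm_num
        linarith) (by norm_num)
    refine ⟨B, hB1, hB2.trans ?_⟩
    have h1 : Real.exp (-(10 * (0.52 + 0.86))) ≤ 0.000002 := by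
      have h2 : -(10 * (0.52 + 0.86)) = -(13.8 : ℝ) := by norm_num
      rw [h2]
      exact exp_neg_le_of 40 (by norm_num) (by norm_num) (by norm_num [Finset.sum_range_succ, Nat.factorial])
    rw [Real.exp_zero]
    nlinarith

/-- SLOPE of the left window -/
theorem slope0_num {β r t a y m : ℝ} (h : Sad β r t a y) (hκ : 1.39 ≤ β * r) (hr : 10 ≤ r) (hy : -1 < y)
    (hy0 : y ≤ 0) (ha : -(Real.pi / 2) < a) (ha0 : a ≤ 0) (hm : 1.0371 ≤ m * (a - t)) :
    ‖ew β r t * AA β r (t + β) / AA β r t - Lx t a y / β‖ ≤ 0.7504 * m := by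
  have hpi := Real.pi_gt_d4
  have hpi' := Real.pi_lt_d4
  have hβ := h.hβ
  have hr0 := h.hr
  have hκpos : 0 < β * r := by positivity
  obtain ⟨g1, g2, g3, g4, g5⟩ := geo_neg h hκ hy hy0 ha ha0
  have hx0 : 0 < a - t := by linarith
  have hn : (a - t) ≤ nS (a - t) y := by
    unfold nS
    apply Real.le_sqrt_of_sq_le
    nlinarith [sq_nonneg y]
  have hβκ : 10 * β ≤ β * r := by
    have := mul_le_mul_of_nonneg_left hr hβ.le
    linarith
  obtain ⟨B₀, p1, p2⟩ := legPi_out h hr hy0 g3 ha0 g1 (by linarith) (c := 2.7183) (by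
      have he : Real.exp (-y) ≤ 2.7183 := by
        have h1 : Real.exp (-y) ≤ Real.exp 1 := Real.exp_le_exp.2 (by linarith)
        have := Real.exp_one_lt_d9
        linarith
      have := mul_le_mul_of_nonneg_left he hκpos.le
      linarith) (by norm_num) (c' := 4.4822) (by
        have : Real.sqrt 2.7183 ≤ 1.64887 := by
          rw [Real.sqrt_le_left (by norm_num)]; norm_num
        linarith)
  obtain ⟨B₁, q1, q2⟩ := legM0_num h hκ hr hy hy0 g3 ha0 g1 g2 (by linarith)
  have hmain := slopeL h hy0 ha0 ha (by linarith) p1 q1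
  have hs : Real.sqrt 10 ≤ 3.1623 := by
    rw [Real.sqrt_le_left (by norm_num)]; norm_num
  have b1 := hB_scale (β := β) (x := a - t) (c := 11 / 12 * (a - t)) (g := 11 / 24 * (a - t)) (ν := 7 / 10 * (a - t))
    (γ₁ := 11 / 12) (g₁ := 11 / 24) (ν₁ := 7 / 10) (l₁ := 10) (s := 3.1623) (e := 0.01023) (G := 0.2849) hβ hx0
    (by norm_num) (by norm_num) (by norm_num) le_rfl le_rfl le_rfl (by norm_num) (by linarith) (by norm_num) hs
    (by
      have h2 : -(11 / 24 * 10 : ℝ) = -(55 / 12) := by norm_num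
      rw [h2]
      exact exp_neg_le_of 22 (by norm_num) (by norm_num) (by norm_num [Finset.sum_range_succ, Nat.factorial])) (by
      have h1 : (0.9574 : ℝ) ≤ Real.sqrt (11 / 12) := by
        apply Real.le_sqrt_of_sq_le; norm_num
      linarith)
  have b2 := hB_scale (β := β) (x := a - t) (c := 11 / 12 * (a - t) + y / 3) (g := 11 / 24 * (a - t) + y / 6)
    (ν := 7 / 10 * (a - t) + 7 / 5 * y)
    (γ₁ := 0.8251) (g₁ := 0.4125) (ν₁ := 0.3155) (l₁ := 10) (s := 3.1623) (e := 0.01617)
    (G := 0.3337) hβ hx0 (by norm_num) (by norm_num) (by norm_num) (by linarith) (by linarith) (by linarith)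
    (by norm_num) (by linarith) (by norm_num) hs
    (by
      have h2 : -(0.4125 * 10 : ℝ) = -4.125 := by norm_num
      rw [h2]
      exact exp_neg_le_of 22 (by norm_num) (by norm_num) (by norm_num [Finset.sum_range_succ, Nat.factorial])) (by
      have h1 : (0.9083 : ℝ) ≤ Real.sqrt 0.8251 := by
        apply Real.le_sqrt_of_sq_le; norm_num
      linarith)
  have hq1 : qc (7 / 10) 10 ≤ 0.9476 := by unfold qc; norm_num
  have hq2 : qc 0.3155 10 ≤ 2.91 := by unfold qc; norm_num
  have hval := val0x h hκ hr hy hy0 ha ha0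
  have hε : 0.671 * (β / (a - t)) ≤ 0.0671 := by
    have h1 : β / (a - t) ≤ 0.1 := by rw [div_le_iff₀ hx0]; linarith
    linarith
  have he20 : Real.exp (-(10 * 2)) ≤ 0.0000001 := by
    have h2 : -(10 * 2 : ℝ) = -20 := by norm_num
    rw [h2]
    exact exp_neg_le_of 50 (by norm_num) (by norm_num) (by norm_num [Finset.sum_range_succ, Nat.factorial])
  have hm0 : 0 < m := by
    by_contra hc
    have := mul_nonpos_of_nonpos_of_nonneg (not_lt.1 hc) hx0.le
    linarith
  have hfin := slope_quot (m := m) (C := 0.7) (ε := 0.0671) hβ hx0 hy hmain (by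
      have e1 : scl β (a - t) * (hB β (11 / 12 * (a - t) + y / 3) (11 / 24 * (a - t) + y / 6) (7 / 10 * (a - t) + 7 / 5 * y) +
          hB β (11 / 12 * (a - t)) (11 / 24 * (a - t)) (7 / 10 * (a - t)) +
          Real.exp (-((a - t) * (1 + y) / β)) * ((2 + (Real.pi - a)) * Real.exp y * B₀) +
          Real.exp (-((a - t) * (1 + y) / β)) * ((2 + (a + Real.pi)) * Real.exp y * B₁)) =
          scl β (a - t) * hB β (11 / 12 * (a - t) + y / 3) (11 / 24 * (a - t) + y / 6) (7 / 10 * (a - t) + 7 / 5 * y) +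
          scl β (a - t) * hB β (11 / 12 * (a - t)) (11 / 24 * (a - t)) (7 / 10 * (a - t)) +
          scl β (a - t) * (Real.exp (-((a - t) * (1 + y) / β)) * ((2 + (Real.pi - a)) * Real.exp y * B₀)) +
          scl β (a - t) * (Real.exp (-((a - t) * (1 + y) / β)) * ((2 + (a + Real.pi)) * Real.exp y * B₁)) := by ring
      rw [e1]
      have k1 := add_le_add (add_le_add (add_le_add b2 b1) p2) q2
      refine k1.trans ?_
      norm_num1
      linarith) (by norm_num) (by norm_num) (by
        have := (abs_le.1 hval).1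
        linarith) (by
      have hD : a - t ≤ nD (a - t) y := by
        unfold nD
        apply Real.le_sqrt_of_sq_le
        nlinarith [sq_nonneg (1 + y)]
      have hsx : 0 < Real.sqrt (a - t) := Real.sqrt_pos.2 hx0
      have h1 : Real.sqrt (a - t) ≤ Real.sqrt (nD (a - t) y) := Real.sqrt_le_sqrt hD
      have h2 : (a - t) * (a - t) ≤ Real.sqrt (nD (a - t) y) * ((a - t) * Real.sqrt (a - t)) := by
        calc (a - t) * (a - t) = Real.sqrt (a - t) * ((a - t) * Real.sqrt (a - t)) := by
              have := Real.mul_self_sqrt hx0.le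
              linear_combination (a - t) * (-this)
          _ ≤ _ := mul_le_mul_of_nonneg_right h1 (by positivity)
      have h3 : 1.0371 * (a - t) ≤ m * (a - t) * (a - t) := mul_le_mul_of_nonneg_right hm hx0.le
      calc nS (a - t) y ≤ 1.0371 * (a - t) := g5
        _ ≤ m * (a - t) * (a - t) := h3
        _ = m * ((a - t) * (a - t)) := by ring
        _ ≤ _ := mul_le_mul_of_nonneg_left h2 hm0.le)
  refine hfin.trans ?_
  rw [div_le_iff₀ (by norm_num)]
  linarith

end Sok
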