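import Mathlib
import Pool.Agent.Lib.MP_816dec_an.Basic
import Pool.Agent.Lib.MP_816dec_an.A0Prim
import Pool.Agent.Lib.MP_816dec_an.A0F
import Pool.Agent.Lib.MP_816dec_an.A0Val

/-!
MP_816dec_an: the splitting `F = C + ∑ A`, tail bounds, and the derivatives in `t` of the valley functions.
-/

set_option autoImplicit false

open Complex Set Filter Topology MeasureTheory

namespace Sok

/-- finite splitting -/
theorem Vals.split {β r t : ℝ} (hβ : 0 < β) (hr : 0 < r) {P : ℂ → ℂ} (hP : ∀ x, HasDerivAt P (gs β r t x) x)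
    {V : ℤ → ℂ} {lL lR : ℂ} (h : Vals β r t P V lL lR) (M : ℕ) :
    V M - lL = cF β * (CC β r t + ∑ m ∈ Finset.range M, AA β r (t - 2 * Real.pi * (m + 1))) := by
  induction M with
  | zero => simpa using h.CC0 hβ hr hP
  | succ M ih =>
    rw [Finset.sum_range_succ, ← add_assoc, mul_add, ← ih]
    have h1 := h.AAj hβ hr hP ((M : ℤ) + 1)
    have e1 : (t - 2 * Real.pi * (((M : ℤ) + 1 : ℤ) : ℝ)) = t - 2 * Real.pi * ((M : ℝ) + 1) := by push_cast; ring
    rw [e1] at h1
    rw [← h1]
    push_cast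
    rw [add_sub_cancel_right]
    ring

/-- bound of the tail, `y > 0` arbitrary -/
theorem Vals.tail {β r t : ℝ} (hβ : 0 < β) (hr : 0 < r) {P : ℂ → ℂ} (hP : ∀ x, HasDerivAt P (gs β r t x) x)
    {V : ℤ → ℂ} {lL lR : ℂ} (h : Vals β r t P V lL lR) (j : ℤ) {y : ℝ} (hy : 0 < y)
    (hj : t < (2 * j + 1) * Real.pi) :
    ‖lR - V j‖ ≤ (β / y * Real.exp (r * Real.exp y) + β / ((2 * j + 1) * Real.pi - t)) *
      Real.exp (-(((2 * j + 1) * Real.pi - t) * y / β)) := by
  obtain ⟨S, hS⟩ : ∃ S : ℝ, S = (2 * j + 1) * Real.pi := ⟨_, rfl⟩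
  rw [← hS] at hj ⊢
  have h1 := h.liner hβ hr.le hP (Y := -y) (by linarith) S
  have h2 := h.leg hβ hr hP (hS ▸ inV_center t j) (-y)
  have e1 : lR - V j = (∫ X in Ioi S, gs β r t (X + (-y : ℝ) * I)) +
      I * ∫ Y in Iic (-y), gs β r t (S + Y * I) := by
    rw [h1, h2]; ring
  have hSt : 0 < S - t := by linarith
  have b1 : ‖∫ X in Ioi S, gs β r t (X + (-y : ℝ) * I)‖ ≤
      β / y * Real.exp (r * Real.exp y) * Real.exp (-((S - t) * y / β)) := by
    have h3 : ∀ X ∈ Ioi S, ‖gs β r t (X + (-y : ℝ) * I)‖ ≤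
        Real.exp (r * Real.exp y + t * y / β) * Real.exp (-(y / β) * X) := by
      intro X _
      rw [norm_gs, ← Real.exp_add]
      apply Real.exp_le_exp.2
      have h4 : r * Real.cos X * Real.exp (- -y) ≤ r * Real.exp y := by
        rw [neg_neg]
        have h5 : r * Real.cos X ≤ r := by nlinarith [Real.cos_le_one X]
        exact mul_le_mul_of_nonneg_right h5 (Real.exp_pos _).le
      have e2 : (X - t) * -y / β = -(y / β) * X + t * y / β := by ring
      linarith
    have h4 : IntegrableOn (fun X : ℝ => Real.exp (r * Real.exp y + t * y / β) * Real.exp (-(y / β) * X)) (Ioi S) :=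
      (exp_neg_integrableOn_Ioi S (div_pos hy hβ)).const_mul _
    have h5 := norm_integral_le_of_norm_le h4 ((ae_restrict_iff' measurableSet_Ioi).2
      (Filter.Eventually.of_forall h3))
    refine h5.trans (le_of_eq ?_)
    rw [integral_const_mul]
    have h6 : ∫ X in Ioi S, Real.exp (-(y / β) * X) = β / y * Real.exp (-(y / β) * S) := by
      rw [integral_exp_mul_Ioi (by have := div_pos hy hβ; linarith)]
      field_simp
    rw [h6, Real.exp_add]
    have e3 : Real.exp (-((S - t) * y / β)) = Real.exp (t * y / β) * Real.exp (-(y / β) * S) := by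
      rw [← Real.exp_add]; congr 1; ring
    rw [e3]
    ring
  have b2 : ‖I * ∫ Y in Iic (-y), gs β r t (S + Y * I)‖ ≤ β / (S - t) * Real.exp (-((S - t) * y / β)) := by
    rw [norm_mul, Complex.norm_I, one_mul]
    have h3 : ∀ Y ∈ Iic (-y), ‖gs β r t (S + Y * I)‖ ≤ Real.exp (((S - t) / β) * Y) := by
      intro Y _
      rw [norm_gs]
      apply Real.exp_le_exp.2
      have h4 : r * Real.cos S * Real.exp (-Y) ≤ 0 := by
        have h5 : Real.cos S < 0 := by
          apply cos_val_neg (j := j)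
          rw [hS]
          simpa using by positivity
        have h6 := Real.exp_pos (-Y)
        have h7 : r * Real.cos S < 0 := by nlinarith
        nlinarith
      have e2 : (S - t) * Y / β = ((S - t) / β) * Y := by ring
      linarith
    have h4 : IntegrableOn (fun Y : ℝ => Real.exp (((S - t) / β) * Y)) (Iic (-y)) :=
      integrableOn_exp_mul_Iic (div_pos hSt hβ) _
    have h5 := norm_integral_le_of_norm_le h4 ((ae_restrict_iff' measurableSet_Iic).2
      (Filter.Eventually.of_forall h3))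
    refine h5.trans (le_of_eq ?_)
    rw [integral_exp_mul_Iic (div_pos hSt hβ)]
    rw [div_div_eq_mul_div]
    have e3 : (S - t) / β * -y = -((S - t) * y / β) := by ring
    rw [e3]
    ring
  rw [e1]
  refine (norm_add_le _ _).trans ?_
  rw [add_mul]
  exact add_le_add b1 b2

/-- the tail of the splitting -/
theorem norm_Ft_sub_le {β r t : ℝ} (hβ : 0 < β) (hr : 0 < r) (M : ℕ) {y : ℝ} (hy : 0 < y)
    (hM : t < (2 * M + 1) * Real.pi) :
    ‖Ft β r t - CC β r t - ∑ m ∈ Finset.range M, AA β r (t - 2 * Real.pi * (m + 1))‖ ≤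
      (Real.sqrt (2 * Real.pi * β))⁻¹ *
      ((β / y * Real.exp (r * Real.exp y) + β / ((2 * M + 1) * Real.pi - t)) *
      Real.exp (-(((2 * M + 1) * Real.pi - t) * y / β))) := by
  obtain ⟨P, hP⟩ := exists_prim (gs_diff β r t)
  obtain ⟨V, lL, lR, hV, hF⟩ := exists_vals hβ hr hP
  have h1 := hV.split hβ hr hP M
  have h2 := hV.tail hβ hr hP (M : ℤ) hy (by push_cast; exact hM)
  have hc := cF_ne hβ
  have e1 : Ft β r t - CC β r t - ∑ m ∈ Finset.range M, AA β r (t - 2 * Real.pi * (m + 1)) =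
      (cF β)⁻¹ * (lR - V M) := by
    have h3 : Ft β r t = (cF β)⁻¹ * (lR - lL) := by
      rw [hF, ← cF, inv_mul_cancel_left₀ hc]
      rfl
    have h4 : CC β r t + ∑ m ∈ Finset.range M, AA β r (t - 2 * Real.pi * (m + 1)) =
        (cF β)⁻¹ * (V M - lL) := by
      rw [h1, inv_mul_cancel_left₀ hc]
    rw [sub_sub, h4, h3]
    ring
  rw [e1, norm_mul, norm_inv, norm_cF]
  push_cast at h2
  exact mul_le_mul_of_nonneg_left h2 (by positivity)

/-- **the splitting** -/
theorem hasSum_split {β r : ℝ} (hβ : 0 < β) (hr : 0 < r) (t : ℝ) :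
    Tendsto (fun M : ℕ => CC β r t + ∑ m ∈ Finset.range M, AA β r (t - 2 * Real.pi * (m + 1))) atTop
      (𝓝 (Ft β r t)) := by
  obtain ⟨P, hP⟩ := exists_prim (gs_diff β r t)
  obtain ⟨V, lL, lR, hV, hF⟩ := exists_vals hβ hr hP
  have hc := cF_ne hβ
  have hpi := Real.pi_pos
  have h0 : Tendsto (fun M : ℕ => (2 * (M : ℝ) + 1) * Real.pi - t) atTop atTop := by
    have h1 : Tendsto (fun M : ℕ => (M : ℝ) * (2 * Real.pi)) atTop atTop :=
      tendsto_natCast_atTop_atTop.atTop_mul_const (by positivity)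
    refine (tendsto_atTop_add_const_right _ (Real.pi - t) h1).congr fun M => ?_
    ring
  have h1 : Tendsto (fun M : ℕ => lR - V M) atTop (𝓝 0) := by
    have h2 : Tendsto (fun M : ℕ => (β / 1 * Real.exp (r * Real.exp 1) + β / ((2 * (M : ℝ) + 1) * Real.pi - t)) *
      Real.exp (-(((2 * (M : ℝ) + 1) * Real.pi - t) * 1 / β))) atTop (𝓝 0) := by
      have h3 : Tendsto (fun x : ℝ => (β / 1 * Real.exp (r * Real.exp 1) + β / x) *
          Real.exp (-(x * 1 / β))) atTop (𝓝 ((β / 1 * Real.exp (r * Real.exp 1) + 0) * 0)) := by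
        apply Tendsto.mul
        · exact tendsto_const_nhds.add (tendsto_const_nhds.div_atTop tendsto_id)
        · apply Real.tendsto_exp_neg_atTop_nhds_zero.comp
          have : Tendsto (fun x : ℝ => x * β⁻¹) atTop atTop :=
            tendsto_id.atTop_mul_const (by positivity)
          refine this.congr fun x => ?_
          rw [mul_one, div_eq_mul_inv]
      rw [mul_zero] at h3
      exact h3.comp h0
    refine squeeze_zero_norm' ?_ h2
    filter_upwards [h0.eventually_gt_atTop 0] with M hM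
    have h3 := hV.tail hβ hr hP (M : ℤ) one_pos (by push_cast; linarith)
    push_cast at h3
    exact h3
  have h2 : Tendsto (fun M : ℕ => (cF β)⁻¹ * (lR - lL) - (cF β)⁻¹ * (lR - V M)) atTop
      (𝓝 ((cF β)⁻¹ * (lR - lL) - (cF β)⁻¹ * 0)) := tendsto_const_nhds.sub (h1.const_mul _)
  have e1 : (cF β)⁻¹ * (lR - lL) - (cF β)⁻¹ * 0 = Ft β r t := by
    rw [hF, ← cF, inv_mul_cancel_left₀ hc, mul_zero, sub_zero]
    rfl
  rw [e1] at h2
  refine h2.congr fun M => ?_
  have h3 := hV.split hβ hr hP M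
  have h4 : CC β r t + ∑ m ∈ Finset.range M, AA β r (t - 2 * Real.pi * (m + 1)) =
        (cF β)⁻¹ * (V M - lL) := by
      rw [h3, inv_mul_cancel_left₀ hc]
  rw [h4]
  ring

/-- `F = C(w + 2πi) + A(w) + rest` -/
theorem norm_Ft_sub_two_le {β r t : ℝ} (hβ : 0 < β) (hr : 0 < r) {y : ℝ} (hy : 0 < y)
    (ht : t < Real.pi) :
    ‖Ft β r t - CC β r (t + 2 * Real.pi) - AA β r t‖ ≤
      (Real.sqrt (2 * Real.pi * β))⁻¹ *
      ((β / y * Real.exp (r * Real.exp y) + β / (Real.pi - t)) *
      Real.exp (-((Real.pi - t) * y / β))) := by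
  have h1 := norm_Ft_sub_le hβ hr 0 hy (t := t) (by simpa using ht)
  have h2 := CC_step hβ hr t
  simp only [Finset.range_zero, Finset.sum_empty, sub_zero, Nat.cast_zero, mul_zero, zero_add, one_mul] at h1
  rw [h2, ← sub_sub] at h1
  exact h1

end Sok
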