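import Mathlib

/-!
MP_816dec_an, case b = 2, kappa ≤ 1: the two real inequalities (I1), (I2).
-/

set_option autoImplicit false

open Real Set Filter Topology

namespace Sok

/-- terms of the odd series -/
noncomputable def tO (r β θ : ℝ) (j : ℕ) : ℝ :=
  (2 * r * sin (θ + j * β)) ^ (2 * j + 1) / ((2 * j + 1).factorial : ℝ)

/-- terms of the derivative series -/
noncomputable def tD (r β θ : ℝ) (j : ℕ) : ℝ :=
  cos (θ + j * β) * (2 * r * sin (θ + j * β)) ^ (2 * j) / ((2 * j).factorial : ℝ)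

theorem summable_tO {r : ℝ} (hr : 0 ≤ r) (β θ : ℝ) : Summable (tO r β θ) := by
  have h1 : Summable (fun j : ℕ => (2 * r) ^ (2 * j + 1) / ((2 * j + 1).factorial : ℝ)) :=
    (Real.summable_pow_div_factorial (2 * r)).comp_injective (i := fun j : ℕ => 2 * j + 1)
      (fun a b h => by simpa using h)
  refine Summable.of_norm_bounded h1 (fun j => ?_)
  unfold tO
  rw [norm_div, norm_pow, norm_mul, Real.norm_natCast]
  refine div_le_div_of_nonneg_right ?_ (by positivity)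
  refine pow_le_pow_left₀ (by positivity) ?_ _
  rw [Real.norm_of_nonneg (by positivity : (0:ℝ) ≤ 2 * r), Real.norm_eq_abs]
  calc 2 * r * |sin (θ + j * β)| ≤ 2 * r * 1 := by
        gcongr; exact abs_sin_le_one _
    _ = 2 * r := mul_one _

theorem summable_tD {r : ℝ} (hr : 0 ≤ r) (β θ : ℝ) : Summable (tD r β θ) := by
  have h1 : Summable (fun j : ℕ => (2 * r) ^ (2 * j) / ((2 * j).factorial : ℝ)) :=
    (Real.summable_pow_div_factorial (2 * r)).comp_injective (i := fun j : ℕ => 2 * j)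
      (fun a b h => by simpa using h)
  refine Summable.of_norm_bounded h1 (fun j => ?_)
  unfold tD
  rw [norm_div, norm_mul, norm_pow, norm_mul, Real.norm_natCast]
  refine div_le_div_of_nonneg_right ?_ (by positivity)
  have h2 : ‖2 * r‖ * ‖sin (θ + j * β)‖ ≤ 2 * r := by
    rw [Real.norm_of_nonneg (by positivity : (0:ℝ) ≤ 2 * r), Real.norm_eq_abs]
    calc 2 * r * |sin (θ + j * β)| ≤ 2 * r * 1 := by
          gcongr; exact abs_sin_le_one _
      _ = 2 * r := mul_one _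
  calc ‖cos (θ + j * β)‖ * (‖2 * r‖ * ‖sin (θ + j * β)‖) ^ (2 * j)
      ≤ 1 * (2 * r) ^ (2 * j) := by
        refine mul_le_mul (by rw [Real.norm_eq_abs]; exact abs_cos_le_one _)
          (pow_le_pow_left₀ (by positivity) h2 _) (by positivity) zero_le_one
    _ = (2 * r) ^ (2 * j) := one_mul _

/-- cos x ≤ 1 - x^2/2 + x^4/24 -/
theorem cos_le_quartic {x : ℝ} (hx : 0 ≤ x) : cos x ≤ 1 - x ^ 2 / 2 + x ^ 4 / 24 := by
  have hm : MonotoneOn (fun x : ℝ => 1 - x ^ 2 / 2 + x ^ 4 / 24 - cos x) (Ici 0) := by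
    refine monotoneOn_of_deriv_nonneg (convex_Ici 0) (by fun_prop) (by fun_prop) ?_
    intro y hy
    rw [interior_Ici, mem_Ioi] at hy
    have hd : HasDerivAt (fun x : ℝ => 1 - x ^ 2 / 2 + x ^ 4 / 24 - cos x)
        (0 - (2 * y ^ 1) / 2 + (4 * y ^ 3) / 24 - (- sin y)) y :=
      ((((hasDerivAt_const y (1:ℝ)).sub ((hasDerivAt_pow 2 y).div_const 2))).add
        ((hasDerivAt_pow 4 y).div_const 24)).sub (hasDerivAt_cos y)
    rw [hd.deriv]
    have := sin_gt_sub_cube hy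
    linarith
  have h := hm (mem_Ici.2 le_rfl) (mem_Ici.2 hx) hx
  simp only [cos_zero] at h
  linarith

/-- |sin u| ≤ 0.342 (π/2 + u) -/
theorem abs_sin_le_lin {u : ℝ} (hu : 0 ≤ u) : |sin u| ≤ 0.342 * (π / 2 + u) := by
  have hpi := Real.pi_gt_d4
  have hpi2 := Real.pi_lt_d4
  rcases le_or_gt 1.36 u with h | h
  · refine (abs_sin_le_one u).trans ?_
    linarith
  · have hs : 0 ≤ sin u := sin_nonneg_of_nonneg_of_le_pi hu (by linarith)
    rw [abs_of_nonneg hs]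
    have h1 : sin u = cos (π / 2 - u) := (cos_pi_div_two_sub u).symm
    have h2 := cos_le_quartic (x := π / 2 - u) (by linarith)
    rw [h1]
    set x := π / 2 - u with hx
    have hx1 : x ≤ 1.5708 := by linarith
    have hx0 : 0.2 ≤ x := by linarith
    have hxu : π / 2 + u = π - x := by rw [hx]; ring
    rw [hxu]
    have h3 : x ^ 4 ≤ 2.4675 * x ^ 2 := by
      have : x ^ 2 ≤ 2.4675 := by nlinarith
      nlinarith [sq_nonneg x]
    nlinarith [sq_nonneg (x - 0.43)]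

theorem pow_div_factorial_le {X : ℝ} (hX : 0 ≤ X) {n : ℕ} (hn : n ≠ 0) :
    X ^ n / (n.factorial : ℝ) ≤ (exp 1 * X / n) ^ n := by
  have h1 := Real.pow_div_factorial_le_exp (n : ℝ) (Nat.cast_nonneg n) n
  have hn' : (0:ℝ) < n := by positivity
  have h2 : X ^ n / (n.factorial : ℝ) = (X / n) ^ n * ((n:ℝ) ^ n / (n.factorial : ℝ)) := by
    rw [div_pow]; field_simp
  have h3 : (exp 1 * X / n) ^ n = (X / n) ^ n * exp n := by
    rw [← Real.exp_one_pow]
    rw [← mul_pow]; congr 1; ring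
  rw [h2, h3]
  gcongr

theorem exp_one_mul_lt : exp 1 * 0.342 ≤ 0.93 := by
  have := Real.exp_one_lt_d9
  linarith


/-- a term of the odd series is ≥ - κ³ 0.93^n, and nonnegative for j < 16 -/
theorem tO_lower {r β θ : ℝ} (hr : 10 ≤ r) (hβ : 0 < β) (hκ : β * r ≤ 1) (h0 : 0 ≤ θ)
    (h1 : θ ≤ π / 2) (j : ℕ) (hneg : tO r β θ j < 0) :
    16 ≤ j ∧ - ((β * r) ^ 3 * 0.93 ^ (2 * j + 1)) ≤ tO r β θ j := by
  have hr0 : 0 < r := by linarith
  have hpi := Real.pi_gt_d4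
  have hv0 : 0 ≤ θ + j * β := by positivity
  have hfac : (0:ℝ) < ((2 * j + 1).factorial : ℝ) := by positivity
  have hs : sin (θ + j * β) < 0 := by
    by_contra h
    push Not at h
    have : 0 ≤ tO r β θ j := by unfold tO; positivity
    linarith
  have hvpi : π < θ + j * β := by
    by_contra h
    push Not at h
    have := sin_nonneg_of_nonneg_of_le_pi hv0 h
    linarith
  set u := θ + j * β - π with hu
  have hu0 : 0 < u := by linarith
  have hjb : π / 2 + u ≤ j * β := by linarith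
  have hβ1 : β ≤ 0.1 := by
    have : β * 10 ≤ β * r := by gcongr
    linarith
  have hκ0 : 0 < β * r := by positivity
  -- j ≥ 16
  have hj : (15:ℝ) < j := by
    by_contra h
    push Not at h
    have h2 : (j:ℝ) * β ≤ 15 * 0.1 := by gcongr
    linarith
  have hj' : 16 ≤ j := by
    have : 15 < j := by exact_mod_cast hj
    omega
  refine ⟨hj', ?_⟩
  have hsu : |sin (θ + j * β)| ≤ 0.342 * (π / 2 + u) := by
    have h3 : θ + j * β = u + π := by rw [hu]; ring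
    rw [h3, sin_add_pi, abs_neg]
    exact abs_sin_le_lin hu0.le
  have hn0 : (0:ℝ) < ((2 * j + 1 : ℕ) : ℝ) := by positivity
  -- bound of the base
  have hbase : exp 1 * |2 * r * sin (θ + j * β)| / ((2 * j + 1 : ℕ) : ℝ) ≤ 0.93 * (β * r) := by
    rw [div_le_iff₀ hn0, abs_mul, abs_of_pos (by positivity : (0:ℝ) < 2 * r)]
    have h4 : exp 1 * (2 * r * |sin (θ + j * β)|) ≤ exp 1 * (2 * r * (0.342 * (π / 2 + u))) := by
      gcongr
    refine h4.trans ?_
    have h5 : exp 1 * (2 * r * (0.342 * (π / 2 + u))) ≤ 0.93 * (2 * r * (j * β)) := by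
      calc exp 1 * (2 * r * (0.342 * (π / 2 + u))) = (exp 1 * 0.342) * (2 * r * (π / 2 + u)) := by ring
        _ ≤ 0.93 * (2 * r * (j * β)) := by
            refine mul_le_mul exp_one_mul_lt (by gcongr) (by positivity) (by norm_num)
    refine h5.trans ?_
    push_cast
    nlinarith
  have habs : |tO r β θ j| ≤ (β * r) ^ 3 * 0.93 ^ (2 * j + 1) := by
    have e1 : |tO r β θ j| = |2 * r * sin (θ + j * β)| ^ (2 * j + 1) / ((2 * j + 1).factorial : ℝ) := by
      unfold tO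
      rw [abs_div, abs_pow, abs_of_pos hfac]
    rw [e1]
    refine (pow_div_factorial_le (abs_nonneg _) (by omega)).trans ?_
    refine (pow_le_pow_left₀ (by positivity) hbase _).trans ?_
    rw [mul_pow, mul_comm]
    refine mul_le_mul_of_nonneg_right ?_ (by positivity)
    exact pow_le_pow_of_le_one hκ0.le hκ (by omega)
  have := neg_abs_le (tO r β θ j)
  linarith

/-- (I2) -/
theorem I2 {r β θ : ℝ} (hr : 10 ≤ r) (hβ : 0 < β) (hκ : β * r ≤ 1) (h0 : 0 ≤ θ)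
    (h1 : θ ≤ π / 2) : 0 < ∑' j : ℕ, tO r β θ j := by
  have hr0 : 0 < r := by linarith
  have hpi := Real.pi_gt_d4
  have hκ0 : 0 < β * r := by positivity
  have hβ1 : β ≤ 0.1 := by
    have : β * 10 ≤ β * r := by gcongr
    linarith
  have hsum := summable_tO hr0.le β θ
  have hnn : ∀ j, j < 16 → 0 ≤ tO r β θ j := by
    intro j hj
    by_contra h
    push Not at h
    have := (tO_lower hr hβ hκ h0 h1 j h).1
    omega
  have hlow : ∀ j, - ((β * r) ^ 3 * 0.93 ^ (2 * j + 1)) ≤ tO r β θ j := by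
    intro j
    by_cases h : tO r β θ j < 0
    · exact (tO_lower hr hβ hκ h0 h1 j h).2
    · push Not at h
      refine le_trans ?_ h
      rw [neg_nonpos]; positivity
  rw [← hsum.sum_add_tsum_nat_add 16]
  have hfin : tO r β θ 1 ≤ ∑ i ∈ Finset.range 16, tO r β θ i :=
    Finset.single_le_sum (f := fun i => tO r β θ i) (fun i hi => hnn i (Finset.mem_range.1 hi))
      (Finset.mem_range.2 (by norm_num))
  have ht1 : 1.32 * (β * r) ^ 3 ≤ tO r β θ 1 := by
    unfold tO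
    have hsb : 0.998 * β ≤ sin (θ + (1:ℕ) * β) := by
      have h2 : sin β ≤ sin (θ + (1:ℕ) * β) := by
        rw [Nat.cast_one, one_mul]
        rcases le_total (θ + β) (π / 2) with h3 | h3
        · exact sin_le_sin_of_le_of_le_pi_div_two (by linarith) h3 (by linarith)
        · rw [← sin_pi_sub (θ + β)]
          exact sin_le_sin_of_le_of_le_pi_div_two (by linarith) (by linarith) (by linarith)
      have h3 := (sin_gt_sub_cube hβ).le
      have h4 : β ^ 3 / 6 ≤ 0.002 * β := by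
        have : β ^ 2 ≤ 0.01 := by nlinarith
        nlinarith
      have h5 : 0.998 * β ≤ β - β ^ 3 / 6 := by linarith
      exact h5.trans (h3.trans h2)
    have h5 : (2 * 1 + 1).factorial = 6 := by decide
    rw [h5]
    have h6 : 2 * r * (0.998 * β) ≤ 2 * r * sin (θ + (1:ℕ) * β) := by gcongr
    have h7 := pow_le_pow_left₀ (by positivity) h6 3
    have h8 : (2 * r * (0.998 * β)) ^ 3 = 7.952095936 * (β * r) ^ 3 := by ring
    rw [h8] at h7
    rw [le_div_iff₀ (by norm_num)]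
    push_cast at h7 ⊢
    norm_num at h7 ⊢
    nlinarith [pow_pos hκ0 3]
  have hs2 : Summable (fun j : ℕ => - ((β * r) ^ 3 * (0.93:ℝ) ^ (2 * (j + 16) + 1))) := by
    have : (fun j : ℕ => - ((β * r) ^ 3 * (0.93:ℝ) ^ (2 * (j + 16) + 1))) =
        fun j : ℕ => (- ((β * r) ^ 3 * (0.93:ℝ) ^ 33)) * ((0.93:ℝ) ^ 2) ^ j := by
      funext j; rw [← pow_mul]; ring
    rw [this]
    exact (summable_geometric_of_lt_one (by norm_num) (by norm_num)).mul_left _
  have htail : ∑' j : ℕ, (- ((β * r) ^ 3 * (0.93:ℝ) ^ (2 * (j + 16) + 1))) ≤ ∑' j : ℕ, tO r β θ (j + 16) :=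
    hs2.tsum_le_tsum (fun j => hlow (j + 16)) ((summable_nat_add_iff 16).2 hsum)
  have hval : ∑' j : ℕ, (- ((β * r) ^ 3 * (0.93:ℝ) ^ (2 * (j + 16) + 1))) =
      - ((β * r) ^ 3 * ((0.93:ℝ) ^ 33 / (1 - 0.93 ^ 2))) := by
    have : (fun j : ℕ => - ((β * r) ^ 3 * (0.93:ℝ) ^ (2 * (j + 16) + 1))) =
        fun j : ℕ => (- ((β * r) ^ 3 * (0.93:ℝ) ^ 33)) * ((0.93:ℝ) ^ 2) ^ j := by
      funext j; rw [← pow_mul]; ring
    rw [this, tsum_mul_left, tsum_geometric_of_lt_one (by norm_num) (by norm_num)]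
    ring
  rw [hval] at htail
  have hnum : (0.93:ℝ) ^ 33 / (1 - 0.93 ^ 2) ≤ 0.7 := by norm_num
  have hκ3 : 0 < (β * r) ^ 3 := by positivity
  have : (β * r) ^ 3 * ((0.93:ℝ) ^ 33 / (1 - 0.93 ^ 2)) ≤ (β * r) ^ 3 * 0.7 := by gcongr
  linarith

/-- ratio bound for the Poisson weights beyond N = 2 j0 -/
theorem weight_tail {r : ℝ} (hr : 0 < r) {j0 : ℕ} (hj : π * r ≤ 2 * j0) (i : ℕ) :
    (2 * r) ^ (2 * (i + j0)) / ((2 * (i + j0)).factorial : ℝ) ≤
      (2 * r) ^ (2 * j0) / ((2 * j0).factorial : ℝ) * 0.4054 ^ i := by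
  have hpi := Real.pi_gt_d4
  induction i with
  | zero => simp
  | succ i ih =>
    have e1 : 2 * (i + 1 + j0) = 2 * (i + j0) + 1 + 1 := by ring
    have e2 : (2 * r) ^ (2 * (i + 1 + j0)) / ((2 * (i + 1 + j0)).factorial : ℝ) =
        (2 * r) ^ (2 * (i + j0)) / ((2 * (i + j0)).factorial : ℝ) *
          ((2 * r) ^ 2 / ((2 * (i + j0) + 1 + 1) * (2 * (i + j0) + 1))) := by
      rw [e1, Nat.factorial_succ, Nat.factorial_succ]
      rw [pow_succ, pow_succ]
      push_cast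
      have : ((2 * (i + j0)).factorial : ℝ) ≠ 0 := by positivity
      field_simp
    have h3 : (2 * r) ^ 2 / ((2 * ((i:ℝ) + j0) + 1 + 1) * (2 * (i + j0) + 1)) ≤ 0.4054 := by
      rw [div_le_iff₀ (by positivity)]
      have h4 : (π * r) ^ 2 ≤ (2 * (j0:ℝ)) ^ 2 := pow_le_pow_left₀ (by positivity) hj 2
      have h5 : (2 * (j0:ℝ)) ^ 2 ≤ (2 * ((i:ℝ) + j0) + 1 + 1) * (2 * (i + j0) + 1) := by
        have : (0:ℝ) ≤ i := Nat.cast_nonneg i
        have : (0:ℝ) ≤ j0 := Nat.cast_nonneg j0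
        nlinarith [mul_nonneg (Nat.cast_nonneg (α := ℝ) i) (Nat.cast_nonneg (α := ℝ) j0)]
      have h6 : (2 * r) ^ 2 ≤ 0.4054 * (π * r) ^ 2 := by
        have : (4:ℝ) ≤ 0.4054 * π ^ 2 := by nlinarith
        nlinarith [sq_nonneg r]
      nlinarith
    rw [e2, pow_succ]
    calc _ ≤ ((2 * r) ^ (2 * j0) / ((2 * j0).factorial : ℝ) * 0.4054 ^ i) * 0.4054 := by
          refine mul_le_mul ih h3 (by positivity) (by positivity)
      _ = _ := by ring

theorem poly_ineq {s β Y : ℝ} (hs1 : 1 ≤ s) (hs2 : s ≤ 2) (hβ : 0 < β) (hβ1 : β ≤ 0.1)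
    (hY : 1.5707 - s * β ≤ Y) (hY2 : Y ≤ 3.1416) :
    2.6 - 0.64 * s ≤ (1 - s ^ 2 * β * Y / 2) * Y ^ 2 := by
  have hY0 : 1.37 ≤ Y := by nlinarith
  have hYy : 1.5707 - 0.1 * s ≤ Y := by nlinarith
  have hss : s ^ 2 ≤ 4 := by nlinarith
  have hss0 : 0 ≤ s ^ 2 := sq_nonneg s
  obtain ⟨y, hy⟩ : ∃ y, y = 1.5707 - 0.1 * s := ⟨_, rfl⟩
  have h1 : (1 - 0.05 * s ^ 2 * Y) * Y ^ 2 ≤ (1 - s ^ 2 * β * Y / 2) * Y ^ 2 := by
    refine mul_le_mul_of_nonneg_right ?_ (sq_nonneg Y)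
    have : s ^ 2 * β * Y ≤ s ^ 2 * 0.1 * Y := by gcongr
    linarith
  have h2 : (1 - 0.05 * s ^ 2 * y) * y ^ 2 ≤ (1 - 0.05 * s ^ 2 * Y) * Y ^ 2 := by
    have h3 : (1 - 0.05 * s ^ 2 * Y) * Y ^ 2 - (1 - 0.05 * s ^ 2 * y) * y ^ 2 =
        (Y - y) * ((Y + y) - 0.05 * s ^ 2 * (Y ^ 2 + Y * y + y ^ 2)) := by ring
    have hyb : y ≤ 1.48 := by rw [hy]; linarith
    have hya : 1.37 ≤ y := by rw [hy]; linarith
    have h4 : 0.05 * s ^ 2 * (Y ^ 2 + Y * y + y ^ 2) ≤ Y + y := by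
      have h5 : 0.05 * s ^ 2 * (Y ^ 2 + Y * y + y ^ 2) ≤ 0.2 * (Y ^ 2 + Y * y + y ^ 2) := by
        refine mul_le_mul_of_nonneg_right (by linarith) (by positivity)
      have h6 : Y ^ 2 + Y * y + y ^ 2 ≤ (Y + y) ^ 2 := by nlinarith
      have h7 : (Y + y) ^ 2 ≤ 5 * (Y + y) := by nlinarith
      linarith
    have h8 : 0 ≤ (Y - y) * ((Y + y) - 0.05 * s ^ 2 * (Y ^ 2 + Y * y + y ^ 2)) :=
      mul_nonneg (by rw [hy]; linarith) (by linarith)
    linarith
  have h9 : 2.6 - 0.64 * s ≤ (1 - 0.05 * s ^ 2 * y) * y ^ 2 := by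
    rw [hy]
    have e : (1 - 0.05 * s ^ 2 * (1.5707 - 0.1 * s)) * (1.5707 - 0.1 * s) ^ 2 - (2.6 - 0.64 * s) =
      (1.5707 - 0.1 * s) ^ 2 - (2.6 - 0.64 * s) - 0.05 * (s ^ 2 * (1.5707 - 0.1 * s) ^ 3) := by ring
    have h10 : s ^ 2 * (1.5707 - 0.1 * s) ^ 3 ≤ s ^ 2 * (3.81 - 0.61 * s) := by
      have : (1.5707 - 0.1 * s) ^ 3 ≤ 3.81 - 0.61 * s := by
        nlinarith [mul_nonneg (sub_nonneg.2 hs1) (sub_nonneg.2 hs2),
          mul_nonneg (mul_nonneg (sub_nonneg.2 hs1) (sub_nonneg.2 hs2)) (sub_nonneg.2 hs2),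
          mul_nonneg (mul_nonneg (sub_nonneg.2 hs1) (sub_nonneg.2 hs2)) (sub_nonneg.2 hs1)]
      exact mul_le_mul_of_nonneg_left this hss0
    nlinarith [mul_nonneg (sub_nonneg.2 hs1) (sub_nonneg.2 hs2),
          mul_nonneg (mul_nonneg (sub_nonneg.2 hs1) (sub_nonneg.2 hs2)) (sub_nonneg.2 hs2),
          mul_nonneg (mul_nonneg (sub_nonneg.2 hs1) (sub_nonneg.2 hs2)) (sub_nonneg.2 hs1)]
  linarith

theorem poly_ineq2 {s : ℝ} (hs1 : 1 ≤ s) (hs2 : s ≤ 2) :
    1.69 * (2 - s) + 1.15 < 0.993 * s * (2.6 - 0.64 * s) ^ 2 := by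
  nlinarith [mul_nonneg (sub_nonneg.2 hs1) (sub_nonneg.2 hs2),
    mul_nonneg (mul_nonneg (sub_nonneg.2 hs1) (sub_nonneg.2 hs2)) (sub_nonneg.2 hs2),
    mul_nonneg (mul_nonneg (sub_nonneg.2 hs1) (sub_nonneg.2 hs2)) (sub_nonneg.2 hs1)]

/-- (I1) -/
theorem I1 {r β θ : ℝ} (hr : 10 ≤ r) (hβ : 0 < β) (hκ : β * r ≤ 1) (h0 : -(π / 2) ≤ θ)
    (h1 : θ ≤ 0) : 0 < ∑' j : ℕ, tD r β θ j := by
  have hr0 : 0 < r := by linarith
  have hpi := Real.pi_gt_d4
  have hpi2 := Real.pi_lt_d4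
  have hκ0 : 0 < β * r := by positivity
  have hβ1 : β ≤ 0.1 := by
    have : β * 10 ≤ β * r := by gcongr
    linarith
  have hsum := summable_tD hr0.le β θ
  -- the index j0
  obtain ⟨j0, hj1, hj2⟩ : ∃ j0 : ℕ, π / 2 ≤ θ + j0 * β ∧ θ + j0 * β < π / 2 + β := by
    refine ⟨⌈(π / 2 - θ) / β⌉₊, ?_, ?_⟩
    · have := Nat.le_ceil ((π / 2 - θ) / β)
      rw [div_le_iff₀ hβ] at this
      linarith
    · have := Nat.ceil_lt_add_one (show 0 ≤ (π / 2 - θ) / β by
        apply div_nonneg _ hβ.le; linarith)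
      have h2 : (⌈(π / 2 - θ) / β⌉₊ : ℝ) * β < ((π / 2 - θ) / β + 1) * β := by gcongr
      have h3 : ((π / 2 - θ) / β + 1) * β = π / 2 - θ + β := by field_simp
      linarith
  have hj16 : (15:ℝ) < j0 := by
    by_contra h
    push Not at h
    have h2 : (j0:ℝ) * β ≤ 15 * 0.1 := by gcongr
    linarith
  obtain ⟨m, hm⟩ : ∃ m, j0 = m + 2 := by
    have : 15 < j0 := by exact_mod_cast hj16
    exact ⟨j0 - 2, by omega⟩
  have hm' : (j0:ℝ) = m + 2 := by rw [hm]; push_cast; ring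
  have hjr : π * r ≤ 2 * j0 := by
    have h2 : π ≤ 2 * (j0 * β) := by linarith
    have h3 : π * r ≤ (2 * (j0 * β)) * r := by gcongr
    have h4 : (2 * (j0 * β)) * r = 2 * j0 * (β * r) := by ring
    rw [h4] at h3
    have h5 : 2 * (j0:ℝ) * (β * r) ≤ 2 * j0 * 1 := by gcongr
    linarith
  obtain ⟨a, ha⟩ : ∃ a, a = θ + j0 * β - π / 2 := ⟨_, rfl⟩
  have ha0 : 0 ≤ a := by linarith
  have ha1 : a < β := by linarith
  obtain ⟨G, hG⟩ : ∃ G, G = (2 * r) ^ (2 * j0) / ((2 * j0).factorial : ℝ) := ⟨_, rfl⟩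
  have hG0 : 0 < G := by rw [hG]; positivity
  -- nonnegative terms
  have hnn : ∀ j, j < j0 → 0 ≤ tD r β θ j := by
    intro j hj
    unfold tD
    have hjb : (j:ℝ) * β ≤ (j0 - 1) * β := by
      have : (j:ℝ) + 1 ≤ j0 := by exact_mod_cast hj
      gcongr; linarith
    have hjb0 : 0 ≤ (j:ℝ) * β := by positivity
    have hc : 0 ≤ cos (θ + j * β) := by
      apply cos_nonneg_of_neg_pi_div_two_le_of_le
      · linarith
      · linarith
    have hp : 0 ≤ (2 * r * sin (θ + j * β)) ^ (2 * j) := by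
      rw [pow_mul]; positivity
    positivity
  -- tail terms
  have htl : ∀ i, -((a + i * β) * (G * 0.4054 ^ i)) ≤ tD r β θ (i + j0) := by
    intro i
    have hw := weight_tail hr0 hjr i
    rw [← hG] at hw
    have hv : θ + ((i + j0 : ℕ) : ℝ) * β = π / 2 + (a + i * β) := by
      rw [ha]; push_cast; ring
    have hc : |cos (θ + ((i + j0 : ℕ) : ℝ) * β)| ≤ a + i * β := by
      rw [hv, add_comm (π / 2), cos_add_pi_div_two, abs_neg]
      have h0' : 0 ≤ a + i * β := by positivity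
      exact (abs_sin_le_abs).trans (abs_of_nonneg h0').le
    have hab : |tD r β θ (i + j0)| ≤ (a + i * β) * (G * 0.4054 ^ i) := by
      unfold tD
      rw [abs_div, abs_mul, abs_pow, abs_of_pos (by positivity : (0:ℝ) < ((2 * (i + j0)).factorial : ℝ)),
        mul_div_assoc]
      refine mul_le_mul hc ?_ (by positivity) (by positivity)
      refine le_trans ?_ hw
      refine div_le_div_of_nonneg_right ?_ (by positivity)
      refine pow_le_pow_left₀ (abs_nonneg _) ?_ _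
      rw [abs_mul, abs_of_pos (by positivity : (0:ℝ) < 2 * r)]
      calc 2 * r * |sin (θ + ((i + j0 : ℕ) : ℝ) * β)| ≤ 2 * r * 1 := by
            gcongr; exact abs_sin_le_one _
        _ = 2 * r := mul_one _
    have := neg_abs_le (tD r β θ (i + j0))
    linarith
  have hgeo : HasSum (fun i : ℕ => -((a + i * β) * (G * (0.4054:ℝ) ^ i)))
      (-(G * (a * (1 - 0.4054)⁻¹ + β * (0.4054 / (1 - 0.4054) ^ 2)))) := by
    have s1 := (hasSum_geometric_of_lt_one (r := (0.4054:ℝ)) (by norm_num) (by norm_num)).mul_left (-(G * a))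
    have s2 := (hasSum_coe_mul_geometric_of_norm_lt_one (r := (0.4054:ℝ)) (by
      rw [Real.norm_of_nonneg (by norm_num)]; norm_num)).mul_left (-(G * β))
    have s3 := s1.add s2
    have e1 : (fun i : ℕ => -((a + i * β) * (G * (0.4054:ℝ) ^ i))) =
        fun i : ℕ => -(G * a) * 0.4054 ^ i + -(G * β) * ((i:ℝ) * 0.4054 ^ i) := by
      funext i; ring
    have e2 : (-(G * (a * (1 - 0.4054)⁻¹ + β * (0.4054 / (1 - 0.4054) ^ 2))) : ℝ) =
        -(G * a) * (1 - 0.4054)⁻¹ + -(G * β) * (0.4054 / (1 - 0.4054) ^ 2) := by ring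
    rw [e1, e2]
    exact s3
  -- the positive term
  have hpos : G * β * (1.69 * (1 * a / β) + 1.15) < tD r β θ m := by
    obtain ⟨s, hs⟩ : ∃ s, s = 2 - a / β := ⟨_, rfl⟩
    have hab0 : 0 ≤ a / β := by positivity
    have hab1 : a / β ≤ 1 := (div_le_one hβ).2 ha1.le
    have hs1 : 1 ≤ s := by linarith
    have hs2 : s ≤ 2 := by linarith
    have hsb : s * β = 2 * β - a := by rw [hs]; field_simp
    have hvm : θ + m * β = π / 2 - s * β := by
      rw [hsb]; rw [hm'] at ha; linarith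
    have hsin : sin (θ + m * β) = cos (s * β) := by rw [hvm, sin_pi_div_two_sub]
    have hcos : cos (θ + m * β) = sin (s * β) := by rw [hvm, cos_pi_div_two_sub]
    have hsb0 : 0 < s * β := by positivity
    have hsb2 : s * β ≤ 0.2 := by
      calc s * β ≤ 2 * 0.1 := by gcongr
        _ = 0.2 := by norm_num
    have hsbsq : (s * β) ^ 2 ≤ 0.04 := by
      calc (s * β) ^ 2 ≤ 0.2 ^ 2 := pow_le_pow_left₀ hsb0.le hsb2 2
        _ = 0.04 := by norm_num
    -- sin (sβ) ≥ 0.993 s β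
    have hsin1 : 0.993 * (s * β) ≤ sin (s * β) := by
      have h2 := (sin_gt_sub_cube hsb0).le
      have h3 : (s * β) ^ 3 / 6 ≤ 0.007 * (s * β) := by
        have e : (s * β) ^ 3 = (s * β) ^ 2 * (s * β) := by ring
        have : (s * β) ^ 2 * (s * β) ≤ 0.04 * (s * β) := by gcongr
        rw [e]; linarith
      have h4 : 0.993 * (s * β) ≤ s * β - (s * β) ^ 3 / 6 := by linarith
      exact h4.trans h2
    obtain ⟨Y, hY⟩ : ∃ Y, Y = m * β := ⟨_, rfl⟩
    have hYlow : 1.5707 - s * β ≤ Y := by rw [hY]; linarith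
    have hYup : Y ≤ 3.1416 := by rw [hY]; linarith
    have hpoly := poly_ineq hs1 hs2 hβ hβ1 hYlow hYup
    have hpoly2 := poly_ineq2 hs1 hs2
    have hE0 : 0 < 2.6 - 0.64 * s := by linarith
    have hY0 : 0 < Y := by linarith
    -- cos^(2m)
    have hcosm : (1 - s ^ 2 * β * Y / 2) ^ 2 ≤ cos (s * β) ^ (2 * m) := by
      have h2 : 1 + (m:ℝ) * (-((s * β) ^ 2 / 2)) ≤ (1 + (-((s * β) ^ 2 / 2))) ^ m := by
        apply one_add_mul_le_pow
        linarith
      have h3 : 1 + (-((s * β) ^ 2 / 2)) ≤ cos (s * β) := by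
        have := one_sub_sq_div_two_le_cos (x := s * β)
        linarith
      have h4 : 0 ≤ 1 + (-((s * β) ^ 2 / 2)) := by
        linarith
      have h5 : 1 + (m:ℝ) * (-((s * β) ^ 2 / 2)) = 1 - s ^ 2 * β * Y / 2 := by rw [hY]; ring
      rw [h5] at h2
      have h6 : 0 ≤ 1 - s ^ 2 * β * Y / 2 := by
        by_contra h
        push Not at h
        have h7 : (1 - s ^ 2 * β * Y / 2) * Y ^ 2 ≤ 0 :=
          mul_nonpos_of_nonpos_of_nonneg h.le (sq_nonneg Y)
        linarith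
      rw [mul_comm 2 m, pow_mul]
      exact pow_le_pow_left₀ h6 (h2.trans (pow_le_pow_left₀ h4 h3 _)) 2
    -- the weight
    have hP : G * Y ^ 4 ≤ (2 * r) ^ (2 * m) / ((2 * m).factorial : ℝ) := by
      have e1 : G * (2 * (m:ℝ) + 4) * (2 * m + 3) * (2 * m + 2) * (2 * m + 1) =
          (2 * r) ^ (2 * m) / ((2 * m).factorial : ℝ) * (2 * r) ^ 4 := by
        rw [hG, hm]
        have e2 : 2 * (m + 2) = 2 * m + 3 + 1 := by ring
        rw [e2, Nat.factorial_succ, Nat.factorial_succ, Nat.factorial_succ, Nat.factorial_succ]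
        push_cast
        have : ((2 * m).factorial : ℝ) ≠ 0 := by positivity
        field_simp
        ring
      have hm0 : (0:ℝ) ≤ m := Nat.cast_nonneg m
      have e3 : (2 * (m:ℝ)) ^ 4 ≤ (2 * (m:ℝ) + 4) * (2 * m + 3) * (2 * m + 2) * (2 * m + 1) := by
        have : (2 * (m:ℝ)) ^ 4 = (2 * (m:ℝ)) * (2 * m) * (2 * m) * (2 * m) := by ring
        rw [this]
        gcongr <;> linarith
      have e4 : G * Y ^ 4 * (2 * r) ^ 4 ≤ G * (2 * (m:ℝ)) ^ 4 := by
        have : G * Y ^ 4 * (2 * r) ^ 4 = G * ((2 * m) ^ 4 * (β * r) ^ 4) := by rw [hY]; ring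
        rw [this]
        have h7 : (β * r) ^ 4 ≤ 1 := pow_le_one₀ hκ0.le hκ
        have h8 : (2 * (m:ℝ)) ^ 4 * (β * r) ^ 4 ≤ (2 * (m:ℝ)) ^ 4 * 1 := by gcongr
        calc G * ((2 * (m:ℝ)) ^ 4 * (β * r) ^ 4) ≤ G * ((2 * (m:ℝ)) ^ 4 * 1) := by gcongr
          _ = _ := by ring
      have e5 : G * (2 * (m:ℝ)) ^ 4 ≤ G * ((2 * (m:ℝ) + 4) * (2 * m + 3) * (2 * m + 2) * (2 * m + 1)) := by
        gcongr
      have e6 : G * Y ^ 4 * (2 * r) ^ 4 ≤ (2 * r) ^ (2 * m) / ((2 * m).factorial : ℝ) * (2 * r) ^ 4 := by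
        rw [← e1]
        calc _ ≤ _ := e4
          _ ≤ _ := e5
          _ = _ := by ring
      exact le_of_mul_le_mul_right e6 (by positivity)
    -- assemble
    have hE : (2.6 - 0.64 * s) ^ 2 ≤ (1 - s ^ 2 * β * Y / 2) ^ 2 * Y ^ 4 := by
      have : (1 - s ^ 2 * β * Y / 2) ^ 2 * Y ^ 4 = ((1 - s ^ 2 * β * Y / 2) * Y ^ 2) ^ 2 := by ring
      rw [this]
      exact pow_le_pow_left₀ hE0.le hpoly 2
    have hfin : tD r β θ m = sin (s * β) * (cos (s * β) ^ (2 * m) *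
        ((2 * r) ^ (2 * m) / ((2 * m).factorial : ℝ))) := by
      unfold tD
      rw [hsin, hcos, mul_pow]; ring
    rw [hfin]
    have hlow1 : (1 - s ^ 2 * β * Y / 2) ^ 2 * (G * Y ^ 4) ≤
        cos (s * β) ^ (2 * m) * ((2 * r) ^ (2 * m) / ((2 * m).factorial : ℝ)) :=
      mul_le_mul hcosm hP (by positivity) (by rw [pow_mul]; positivity)
    have hlow2 : G * (2.6 - 0.64 * s) ^ 2 ≤ (1 - s ^ 2 * β * Y / 2) ^ 2 * (G * Y ^ 4) := by
      calc G * (2.6 - 0.64 * s) ^ 2 ≤ G * ((1 - s ^ 2 * β * Y / 2) ^ 2 * Y ^ 4) := by gcongr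
        _ = _ := by ring
    have hlow3 : 0.993 * (s * β) * (G * (2.6 - 0.64 * s) ^ 2) ≤ sin (s * β) * (cos (s * β) ^ (2 * m) *
        ((2 * r) ^ (2 * m) / ((2 * m).factorial : ℝ))) :=
      mul_le_mul hsin1 (hlow2.trans hlow1) (by positivity) (le_trans (by positivity) hsin1)
    refine lt_of_lt_of_le ?_ hlow3
    have e7 : 1 * a / β = 2 - s := by rw [hs]; ring
    rw [e7]
    have e8 : 0.993 * (s * β) * (G * (2.6 - 0.64 * s) ^ 2) = G * β * (0.993 * s * (2.6 - 0.64 * s) ^ 2) := by ring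
    rw [e8]
    exact mul_lt_mul_of_pos_left hpoly2 (by positivity)
  -- total
  rw [← hsum.sum_add_tsum_nat_add j0]
  have hfin : tD r β θ m ≤ ∑ i ∈ Finset.range j0, tD r β θ i :=
    Finset.single_le_sum (f := fun i => tD r β θ i) (fun i hi => hnn i (Finset.mem_range.1 hi))
      (Finset.mem_range.2 (by omega))
  have htail : -(G * (a * (1 - 0.4054)⁻¹ + β * (0.4054 / (1 - 0.4054) ^ 2))) ≤
      ∑' i : ℕ, tD r β θ (i + j0) := by
    rw [← hgeo.tsum_eq]
    exact hgeo.summable.tsum_le_tsum htl ((summable_nat_add_iff j0).2 hsum)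
  have hcmp : G * (a * (1 - 0.4054)⁻¹ + β * (0.4054 / (1 - 0.4054) ^ 2)) ≤
      G * β * (1.69 * (1 * a / β) + 1.15) := by
    have e9 : G * β * (1.69 * (1 * a / β) + 1.15) = G * (a * 1.69 + β * 1.15) := by field_simp
    rw [e9]
    have h10 : ((1:ℝ) - 0.4054)⁻¹ ≤ 1.69 := by norm_num
    have h11 : (0.4054:ℝ) / (1 - 0.4054) ^ 2 ≤ 1.15 := by norm_num
    gcongr
  linarith

end Sok
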