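import Pool.Agent.Lib.MP_816dec_an.A2Circle
import Pool.Agent.Lib.MP_816dec_an.A2real

/-!
MP_816dec_an, task A2: for `q = -e^{iβ}` with `|β| r ≤ 1`, `r ≥ 10`, Sokal's function has at most one zero
on `|z| = r`, and it is simple.
-/

set_option autoImplicit false

open Complex Set Filter Topology

namespace Sok

private theorem Os_zero_pos {r θ : ℝ} (hr : 0 < r) (h0 : 0 < θ) (h1 : θ ≤ Real.pi / 2) : 0 < Os r 0 θ := by
  have hs : 0 < Real.sin θ := Real.sin_pos_of_pos_of_lt_pi h0 (by linarith [Real.pi_pos])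
  have h : Os r 0 θ = Real.sinh (2 * r * Real.sin θ) := by
    rw [Real.sinh_eq_tsum]
    unfold Os
    congr 1
    funext j
    rw [mul_zero, add_zero]
  rw [h]
  exact Real.sinh_pos_iff.2 (by positivity)

private theorem Ds_zero_pos {r θ : ℝ} (h0 : -(Real.pi / 2) < θ) (h1 : θ ≤ 0) : 0 < Ds r 0 θ := by
  have hc : 0 < Real.cos θ := Real.cos_pos_of_mem_Ioo ⟨h0, by linarith [Real.pi_pos]⟩
  have h : Ds r 0 θ = Real.cos θ * Real.cosh (2 * r * Real.sin θ) := by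
    rw [Real.cosh_eq_tsum]
    unfold Ds
    rw [← tsum_mul_left]
    congr 1
    funext j
    rw [mul_zero, add_zero, mul_div_assoc]
  rw [h]
  exact mul_pos hc (Real.cosh_pos _)

private theorem A2_nonneg {r β : ℝ} (hr : 10 ≤ r) (hβ : 0 ≤ β) (hκ : β * r ≤ 1) {q : ℂ} (hq : q = -Complex.exp (β * I))
    {z₁ z₂ : ℂ} (hz₁ : ‖z₁‖ = r) (hz₂ : ‖z₂‖ = r) (hF₁ : F q z₁ = 0) (hF₂ : F q z₂ = 0) :
    z₁ = z₂ ∧ F q (q * z₁) ≠ 0 := by
  have hr0 : 0 < r := by linarith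
  rcases eq_or_lt_of_le hβ with h0 | h0
  · subst h0
    exact circle_of_real hr0 (fun θ ha hb => Os_zero_pos hr0 ha hb) (fun θ ha hb => Ds_zero_pos ha hb) hq hz₁ hz₂ hF₁ hF₂
  · exact circle_of_real hr0 (fun θ ha hb => I2 hr h0 hκ ha.le hb) (fun θ ha hb => I1 hr h0 hκ ha.le hb) hq hz₁ hz₂ hF₁ hF₂

/-- **A2.** For `q = -e^{iβ}`, `|β| r ≤ 1`, `r ≥ 10`: at most one zero on `|z| = r`, and it is simple. -/
theorem A2 {r β : ℝ} (hr : 10 ≤ r) (hκ : |β| * r ≤ 1) {q : ℂ} (hq : q = -Complex.exp (β * I))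
    {z₁ z₂ : ℂ} (hz₁ : ‖z₁‖ = r) (hz₂ : ‖z₂‖ = r) (hF₁ : F q z₁ = 0) (hF₂ : F q z₂ = 0) :
    z₁ = z₂ ∧ F q (q * z₁) ≠ 0 := by
  rcases le_total 0 β with h0 | h0
  · rw [abs_of_nonneg h0] at hκ
    exact A2_nonneg hr h0 hκ hq hz₁ hz₂ hF₁ hF₂
  · rw [abs_of_nonpos h0] at hκ
    have hq' : (starRingEnd ℂ) q = -Complex.exp (((-β : ℝ) : ℂ) * I) := by
      rw [hq, map_neg, ← Complex.exp_conj]
      congr 2
      simp
    have h := A2_nonneg hr (by linarith : 0 ≤ -β) hκ hq' (z₁ := (starRingEnd ℂ) z₁) (z₂ := (starRingEnd ℂ) z₂)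
      (by rw [Complex.norm_conj, hz₁]) (by rw [Complex.norm_conj, hz₂]) (by rw [F_conj, hF₁, map_zero])
      (by rw [F_conj, hF₂, map_zero])
    refine ⟨(starRingEnd ℂ).injective h.1, ?_⟩
    intro hcon
    apply h.2
    rw [← map_mul, F_conj, hcon, map_zero]

end Sok
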