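import Pool.Agent.Lib.MP_816dec_an.A2Kernel

/-!
MP_816dec_an, task A2: from two inequalities for the real series `Os`, `Ds` to
at most one zero of `F(.; -e^{iβ})` on `|z| = r`, and it is simple.
-/

set_option autoImplicit false

open Complex Set Filter Topology

namespace Sok

private theorem exists_omega (β : ℝ) : ∃ ω : ℂ, ‖ω‖ = 1 ∧ ω ^ 2 = -Complex.exp (β * I) := by
  refine ⟨Complex.exp ((((Real.pi + β) / 2 : ℝ) : ℂ) * I), Complex.norm_exp_ofReal_mul_I _, ?_⟩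
  rw [← Complex.exp_nat_mul]
  have : ((2 : ℕ) : ℂ) * ((((Real.pi + β) / 2 : ℝ) : ℂ) * I) = β * I + Real.pi * I := by
    push_cast; ring
  rw [this, Complex.exp_add_pi_mul_I]

/-- the real series is `Im F(z) conj F(-z)` -/
theorem im_mul_conj (r β θ : ℝ) :
    (F (-Complex.exp (β * I)) (r * Complex.exp (θ * I)) *
      (starRingEnd ℂ) (F (-Complex.exp (β * I)) (-(r * Complex.exp (θ * I))))).im = Os r β θ := by
  obtain ⟨ω, hω, hω2⟩ := exists_omega β
  obtain ⟨z, hz⟩ : ∃ z : ℂ, z = r * Complex.exp (θ * I) := ⟨_, rfl⟩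
  rw [← hz, ← hω2]
  have h := kernel_hasSum hω z (-z)
  have h' := (Complex.hasSum_iff _ _).1 h
  have him := h'.2
  have hterm : ∀ n : ℕ, ω ^ ((n : ℤ) - 1) * z + ω ^ (1 - (n : ℤ)) * (starRingEnd ℂ) (-z) =
      ((2 * (ω ^ ((n : ℤ) - 1) * z).im : ℝ) : ℂ) * I := by
    intro n
    rw [map_neg, mul_neg, conj_zpow hω, ← sub_eq_add_neg, Complex.sub_conj]
  have heven : HasSum (fun j : ℕ => (((ω ^ (((2 * j : ℕ) : ℤ) - 1) * z + ω ^ (1 - ((2 * j : ℕ) : ℤ)) *
      (starRingEnd ℂ) (-z)) ^ (2 * j) / ((2 * j).factorial : ℂ))).im) 0 := by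
    convert hasSum_zero using 1
    funext j
    rw [hterm, mul_pow, pow_mul I, Complex.I_sq, ← Complex.ofReal_pow]
    have e : ((-1 : ℂ)) ^ j = (((-1 : ℝ) ^ j : ℝ) : ℂ) := by push_cast; ring
    have e2 : (((2 * j).factorial : ℕ) : ℂ) = ((((2 * j).factorial : ℕ) : ℝ) : ℂ) := by push_cast; ring
    rw [e, e2, ← Complex.ofReal_mul, ← Complex.ofReal_div, Complex.ofReal_im]
  have hodd : ∀ j : ℕ, (((ω ^ (((2 * j + 1 : ℕ) : ℤ) - 1) * z + ω ^ (1 - ((2 * j + 1 : ℕ) : ℤ)) *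
      (starRingEnd ℂ) (-z)) ^ (2 * j + 1) / ((2 * j + 1).factorial : ℂ))).im =
      (2 * r * Real.sin (θ + j * β)) ^ (2 * j + 1) / ((2 * j + 1).factorial : ℝ) := by
    intro j
    have hw : (ω ^ (((2 * j + 1 : ℕ) : ℤ) - 1) * z) = (((-1) ^ j * r : ℝ) : ℂ) * Complex.exp (((θ + j * β : ℝ) : ℂ) * I) := by
      have e1 : (((2 * j + 1 : ℕ) : ℤ) - 1) = ((2 * j : ℕ) : ℤ) := by push_cast; ring
      rw [e1, zpow_natCast, pow_mul, hω2, hz, neg_pow, ← Complex.exp_nat_mul]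
      have e3 : ((θ + j * β : ℝ) : ℂ) * I = (j : ℂ) * (β * I) + θ * I := by push_cast; ring
      rw [e3, Complex.exp_add]
      push_cast
      ring
    have him : (ω ^ (((2 * j + 1 : ℕ) : ℤ) - 1) * z).im = (-1) ^ j * r * Real.sin (θ + j * β) := by
      rw [hw, Complex.im_ofReal_mul, Complex.exp_ofReal_mul_I_im]
    rw [hterm, him, mul_pow, pow_succ I, pow_mul I, Complex.I_sq, ← Complex.ofReal_pow]
    have e : ((-1 : ℂ)) ^ j = (((-1 : ℝ) ^ j : ℝ) : ℂ) := by push_cast; ring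
    have e2 : (((2 * j + 1).factorial : ℕ) : ℂ) = ((((2 * j + 1).factorial : ℕ) : ℝ) : ℂ) := by push_cast; ring
    rw [e, e2, ← mul_assoc, ← Complex.ofReal_mul, mul_comm, mul_div_assoc, mul_comm I, ← Complex.ofReal_div,
      Complex.im_ofReal_mul, Complex.I_im, mul_one]
    congr 1
    rw [show 2 * ((-1) ^ j * r * Real.sin (θ + j * β)) = (-1) ^ j * (2 * r * Real.sin (θ + j * β)) by ring, mul_pow,
      ← pow_mul]
    have e4 : ((-1 : ℝ)) ^ (j * (2 * j + 1)) = (-1) ^ j := by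
      rw [show j * (2 * j + 1) = 2 * (j * j) + j by ring, pow_add, pow_mul]
      norm_num
    rw [e4]
    have e5 : ((-1 : ℝ)) ^ j * (-1) ^ j = 1 := by rw [← mul_pow]; norm_num
    linear_combination ((2 * r * Real.sin (θ + j * β)) ^ (2 * j + 1)) * e5
  have hsodd : Summable (fun j : ℕ => (((ω ^ (((2 * j + 1 : ℕ) : ℤ) - 1) * z + ω ^ (1 - ((2 * j + 1 : ℕ) : ℤ)) *
      (starRingEnd ℂ) (-z)) ^ (2 * j + 1) / ((2 * j + 1).factorial : ℂ))).im) :=
    him.summable.comp_injective (i := fun j : ℕ => 2 * j + 1) (fun a b h => by simpa using h)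
  have h1 := HasSum.even_add_odd (f := fun n : ℕ => ((ω ^ ((n : ℤ) - 1) * z + ω ^ (1 - (n : ℤ)) *
      (starRingEnd ℂ) (-z)) ^ n / (n.factorial : ℂ)).im) heven hsodd.hasSum
  have h2 := him.unique h1
  rw [h2, zero_add]
  unfold Os
  exact tsum_congr hodd

/-- derivative along the circle -/
theorem Ds_eq (r β θ : ℝ) {z q : ℂ} (hz : z = r * Complex.exp (θ * I)) (hq : q = -Complex.exp (β * I)) :
    (F q (q * z) * (I * z) * (starRingEnd ℂ) (F q (-z)) +
      F q z * (starRingEnd ℂ) (F q (q * -z) * (-(I * z)))).im = 2 * r * Ds r β θ := by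
  have hq1 : ‖q‖ ≤ 1 := by rw [hq, norm_neg]; exact (Complex.norm_exp_ofReal_mul_I β).le
  have hexp : HasDerivAt (fun t : ℝ => (r : ℂ) * Complex.exp (t * I)) (I * z) θ := by
    have h1 : HasDerivAt (fun t : ℝ => ((t : ℂ) * I)) (1 * I) θ := (Complex.ofRealCLM.hasDerivAt (x := θ)).mul_const I
    have h2 := (h1.cexp).const_mul (r : ℂ)
    refine h2.congr_deriv ?_
    rw [hz]; ring
  have hA : HasDerivAt (fun t : ℝ => F q ((r : ℂ) * Complex.exp (t * I))) (F q (q * z) * (I * z)) θ := by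
    have h := hasDerivAt_F hq1 z
    rw [hz] at h
    have h2 := h.comp θ hexp
    rw [← hz] at h2
    exact h2
  have hB : HasDerivAt (fun t : ℝ => F q (-((r : ℂ) * Complex.exp (t * I)))) (F q (q * -z) * (-(I * z))) θ := by
    have h := hasDerivAt_F hq1 (-z)
    rw [hz] at h
    have h2 := h.comp θ hexp.neg
    rw [← hz] at h2
    exact h2
  have hC := hA.mul hB.star
  have hD : HasDerivAt (fun t : ℝ => (F q ((r : ℂ) * Complex.exp (t * I)) *
      (starRingEnd ℂ) (F q (-((r : ℂ) * Complex.exp (t * I))))).im)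
      ((F q (q * z) * (I * z) * (starRingEnd ℂ) (F q (-z)) +
      F q z * (starRingEnd ℂ) (F q (q * -z) * (-(I * z)))).im) θ := by
    have h := (Complex.imCLM.hasFDerivAt (x := F q ((r : ℂ) * Complex.exp (θ * I)) *
      (starRingEnd ℂ) (F q (-((r : ℂ) * Complex.exp (θ * I)))))).comp_hasDerivAt θ hC
    refine h.congr_deriv ?_
    rw [hz]
    rfl
  have hE := hasDerivAt_Os r β θ
  have hfun : (fun t : ℝ => (F q ((r : ℂ) * Complex.exp (t * I)) *
      (starRingEnd ℂ) (F q (-((r : ℂ) * Complex.exp (t * I))))).im) = Os r β := by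
    funext t
    rw [hq]
    exact im_mul_conj r β t
  rw [hfun] at hD
  exact hD.unique hE

/-- the conclusion on a circle -/
theorem circle_of_real {r β : ℝ} (hr : 0 < r)
    (h2 : ∀ θ : ℝ, 0 < θ → θ ≤ Real.pi / 2 → 0 < Os r β θ)
    (h1 : ∀ θ : ℝ, -(Real.pi / 2) < θ → θ ≤ 0 → 0 < Ds r β θ) {q : ℂ} (hq : q = -Complex.exp (β * I))
    {z₁ z₂ : ℂ} (hz₁ : ‖z₁‖ = r) (hz₂ : ‖z₂‖ = r) (hF₁ : F q z₁ = 0) (hF₂ : F q z₂ = 0) :
    z₁ = z₂ ∧ F q (q * z₁) ≠ 0 := by
  have hpi := Real.pi_pos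
  -- monotonicity of Os on [-π/2, 0]
  have hmono : StrictMonoOn (Os r β) (Icc (-(Real.pi / 2)) 0) := by
    refine strictMonoOn_of_deriv_pos (convex_Icc _ _) (fun t _ => (hasDerivAt_Os r β t).continuousAt.continuousWithinAt) ?_
    intro t ht
    rw [interior_Icc] at ht
    rw [(hasDerivAt_Os r β t).deriv]
    have := h1 t ht.1 ht.2.le
    positivity
  -- every zero z on the circle comes from a zero of Os in (-π/2, 0]
  have key : ∀ z : ℂ, ‖z‖ = r → F q z = 0 → ∃ θ : ℝ, -(Real.pi / 2) < θ ∧ θ ≤ 0 ∧ Os r β θ = 0 ∧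
      (z = r * Complex.exp (θ * I) ∨ z = -(r * Complex.exp (θ * I))) ∧ F q (q * z) ≠ 0 := by
    intro z hz hF
    obtain ⟨a, ha⟩ : ∃ a : ℝ, a = Complex.arg z := ⟨_, rfl⟩
    have hza : z = r * Complex.exp (a * I) := by
      rw [ha, ← hz]; exact (Complex.norm_mul_exp_arg_mul_I z).symm
    have hO : Os r β a = 0 := by
      have h := im_mul_conj r β a
      rw [← hza, ← hq, hF] at h
      simpa using h.symm
    -- reduce the angle
    obtain ⟨k, θ, hθ1, hθ2, haθ⟩ : ∃ (k : ℤ) (θ : ℝ), -(Real.pi / 2) < θ ∧ θ ≤ Real.pi / 2 ∧ a = θ + k * Real.pi := by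
      obtain ⟨k, hk⟩ : ∃ k : ℤ, k = ⌈(a - Real.pi / 2) / Real.pi⌉ := ⟨_, rfl⟩
      refine ⟨k, a - k * Real.pi, ?_, ?_, by ring⟩
      · have h := Int.ceil_lt_add_one ((a - Real.pi / 2) / Real.pi)
        rw [← hk] at h
        have h3 : (k : ℝ) * Real.pi < ((a - Real.pi / 2) / Real.pi + 1) * Real.pi := mul_lt_mul_of_pos_right h hpi
        have h4 : ((a - Real.pi / 2) / Real.pi + 1) * Real.pi = a + Real.pi / 2 := by field_simp; ring
        linarith
      · have h := Int.le_ceil ((a - Real.pi / 2) / Real.pi)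
        rw [← hk, div_le_iff₀ hpi] at h
        linarith
    have hpow : ((-1 : ℝ)) ^ k ≠ 0 := zpow_ne_zero _ (by norm_num)
    have hOθ : Os r β θ = 0 := by
      rw [haθ, Os_add_int_mul_pi] at hO
      exact (mul_eq_zero.1 hO).resolve_left hpow
    have hθ0 : θ ≤ 0 := by
      by_contra hcon
      have := h2 θ (not_le.1 hcon) hθ2
      linarith
    refine ⟨θ, hθ1, hθ0, hOθ, ?_, ?_⟩
    · have he : Complex.exp (a * I) = (-1) ^ k * Complex.exp (θ * I) := by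
        rw [haθ]
        have e1 : (((θ + k * Real.pi : ℝ) : ℂ)) * I = k * (Real.pi * I) + θ * I := by push_cast; ring
        rw [e1, Complex.exp_add, Complex.exp_int_mul, Complex.exp_pi_mul_I]
      rcases Int.even_or_odd k with hk | hk
      · left
        rw [hza, he, hk.neg_one_zpow, one_mul]
      · right
        rw [hza, he, hk.neg_one_zpow]
        ring
    · intro hF'
      have h := Ds_eq r β a hza hq
      rw [hF, hF'] at h
      have h3 : 2 * r * Ds r β a = 0 := by rw [← h]; simp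
      have h4 : Ds r β a = 0 := (mul_eq_zero.1 h3).resolve_left (by positivity)
      rw [haθ, Ds_add_int_mul_pi] at h4
      have h5 := (mul_eq_zero.1 h4).resolve_left hpow
      have h6 := h1 θ hθ1 hθ0
      linarith
  obtain ⟨θ₁, a1, b1, c1, d1, e1⟩ := key z₁ hz₁ hF₁
  obtain ⟨θ₂, a2, b2, c2, d2, e2⟩ := key z₂ hz₂ hF₂
  have hθ : θ₁ = θ₂ := hmono.injOn ⟨a1.le, b1⟩ ⟨a2.le, b2⟩ (c1.trans c2.symm)
  subst hθ
  refine ⟨?_, e1⟩
  obtain ⟨ω, hω, hω2⟩ := exists_omega β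
  have hnn : ¬(F q (r * Complex.exp (θ₁ * I)) = 0 ∧ F q (-(r * Complex.exp (θ₁ * I))) = 0) := by
    rintro ⟨ha, hb⟩
    have h := two_le_normSq_add hω (r * Complex.exp (θ₁ * I))
    rw [hω2, ← hq, ha, hb, map_zero] at h
    norm_num at h
  rcases d1 with d1 | d1 <;> rcases d2 with d2 | d2
  · rw [d1, d2]
  · exact absurd ⟨d1 ▸ hF₁, d2 ▸ hF₂⟩ hnn
  · exact absurd ⟨d2 ▸ hF₂, d1 ▸ hF₁⟩ hnn
  · rw [d1, d2]

end Sok
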