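import Pool.Agent.Lib.MP_816dec_an.Basic

/-!
MP_816dec_an, task A2 (neighbourhood of q = -1 on the unit circle), algebraic part:
the kernel identity for `F(z) conj F(y)` on `|q| = 1`, and the reduction of the statement
at most one zero on `|z| = r`, and it is simple to two inequalities for a real series.
-/

set_option autoImplicit false

open Complex Set Filter Topology

namespace Sok

private theorem pow_tri (ω : ℂ) (j : ℕ) : (ω ^ 2) ^ (j * (j - 1) / 2) = ω ^ ((j : ℤ) * ((j : ℤ) - 1)) := by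
  rw [← pow_mul, Nat.mul_div_cancel' (Nat.even_mul_pred_self j).two_dvd]
  rcases j with _ | j
  · simp
  · rw [← zpow_natCast]
    congr 1
    push_cast
    ring

private theorem kernel_term {ω : ℂ} (h0 : ω ≠ 0) (z y : ℂ) (n : ℕ) :
    ∑ p ∈ Finset.HasAntidiagonal.antidiagonal n, tm (ω ^ 2) z p.1 * tm ((ω⁻¹) ^ 2) y p.2 =
    (ω ^ ((n : ℤ) - 1) * z + ω ^ (1 - (n : ℤ)) * y) ^ n / (n.factorial : ℂ) := by
  rw [(Commute.all (ω ^ ((n : ℤ) - 1) * z) _).add_pow', Finset.sum_div]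
  refine Finset.sum_congr rfl ?_
  rintro ⟨j, k⟩ hp
  rw [Finset.HasAntidiagonal.mem_antidiagonal] at hp
  simp only [tm] at hp ⊢
  have hj : (j.factorial : ℂ) ≠ 0 := by exact_mod_cast Nat.factorial_ne_zero j
  have hk : (k.factorial : ℂ) ≠ 0 := by exact_mod_cast Nat.factorial_ne_zero k
  have hn : (n.factorial : ℂ) ≠ 0 := by exact_mod_cast Nat.factorial_ne_zero n
  have hc : (n.choose j : ℂ) * ((j.factorial : ℂ) * (k.factorial : ℂ)) = (n.factorial : ℂ) := by
    have h := Nat.add_choose_mul_factorial_mul_factorial k j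
    rw [add_comm k j, hp] at h
    rw [mul_comm (j.factorial : ℂ), ← mul_assoc]
    exact_mod_cast h
  rw [pow_tri, pow_tri, nsmul_eq_mul, mul_pow, mul_pow, ← zpow_natCast (ω ^ ((n : ℤ) - 1)) j, ← zpow_mul,
    ← zpow_natCast (ω ^ (1 - (n : ℤ))) k, ← zpow_mul, inv_zpow', div_mul_div_comm, div_eq_div_iff (mul_ne_zero hj hk) hn,
    ← hc]
  have he : ω ^ ((j : ℤ) * ((j : ℤ) - 1)) * ω ^ (-((k : ℤ) * ((k : ℤ) - 1))) =
      ω ^ (((n : ℤ) - 1) * (j : ℤ)) * ω ^ ((1 - (n : ℤ)) * (k : ℤ)) := by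
    rw [← zpow_add₀ h0, ← zpow_add₀ h0]
    congr 1
    rw [← hp]
    push_cast
    ring
  linear_combination (z ^ j * y ^ k * ((n.choose j : ℂ) * ((j.factorial : ℂ) * (k.factorial : ℂ)))) * he

private theorem conj_eq_inv {ω : ℂ} (hω : ‖ω‖ = 1) : (starRingEnd ℂ) ω = ω⁻¹ := by
  rw [Complex.inv_def, Complex.normSq_eq_norm_sq, hω]
  simp

theorem kernel_hasSum {ω : ℂ} (hω : ‖ω‖ = 1) (z y : ℂ) :
    HasSum (fun n : ℕ => (ω ^ ((n : ℤ) - 1) * z + ω ^ (1 - (n : ℤ)) * (starRingEnd ℂ) y) ^ n / (n.factorial : ℂ))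
      (F (ω ^ 2) z * (starRingEnd ℂ) (F (ω ^ 2) y)) := by
  have h0 : ω ≠ 0 := by
    intro h; rw [h] at hω; simp at hω
  have hq : ‖ω ^ 2‖ ≤ 1 := by rw [norm_pow, hω]; norm_num
  have hq' : ‖(ω⁻¹) ^ 2‖ ≤ 1 := by rw [norm_pow, norm_inv, hω]; norm_num
  have e1 : (starRingEnd ℂ) (F (ω ^ 2) y) = F ((ω⁻¹) ^ 2) ((starRingEnd ℂ) y) := by
    rw [← F_conj, map_pow, conj_eq_inv hω]
  have h1 := tsum_mul_tsum_eq_tsum_sum_antidiagonal_of_summable_norm (summable_norm_tm hq z) (summable_norm_tm hq' ((starRingEnd ℂ) y))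
  have h2 := (summable_norm_sum_mul_antidiagonal_of_summable_norm (summable_norm_tm hq z) (summable_norm_tm hq' ((starRingEnd ℂ) y))).of_norm
  rw [e1]
  simp only [kernel_term h0] at h1 h2
  have h3 := h2.hasSum
  rw [← h1] at h3
  exact h3

/-- kernel identity: on `|q| = 1`, `q = ω²`, `F(z) conj F(y) = Σ_n (ω^(n-1) z + ω^(1-n) conj y)^n / n!`. -/
theorem kernel {ω : ℂ} (hω : ‖ω‖ = 1) (z y : ℂ) :
    F (ω ^ 2) z * (starRingEnd ℂ) (F (ω ^ 2) y) =
      ∑' n : ℕ, (ω ^ ((n : ℤ) - 1) * z + ω ^ (1 - (n : ℤ)) * (starRingEnd ℂ) y) ^ n / (n.factorial : ℂ) :=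
  (kernel_hasSum hω z y).tsum_eq.symm

theorem conj_zpow {ω : ℂ} (hω : ‖ω‖ = 1) (z : ℂ) (n : ℕ) :
    ω ^ (1 - (n : ℤ)) * (starRingEnd ℂ) z = (starRingEnd ℂ) (ω ^ ((n : ℤ) - 1) * z) := by
  rw [map_mul, map_zpow₀, conj_eq_inv hω, inv_zpow']
  congr 2
  ring

/-- `z` and `-z` are never both zeros on `|q| = 1`: `|F(z)|² + |F(-z)|² ≥ 2`. -/
theorem two_le_normSq_add {ω : ℂ} (hω : ‖ω‖ = 1) (z : ℂ) :
    2 ≤ Complex.normSq (F (ω ^ 2) z) + Complex.normSq (F (ω ^ 2) (-z)) := by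
  obtain ⟨w, hw⟩ : ∃ w : ℕ → ℝ, w = fun n : ℕ => 2 * (ω ^ ((n : ℤ) - 1) * z).re := ⟨_, rfl⟩
  have h1 : HasSum (fun n : ℕ => ((w n) ^ n / (n.factorial : ℝ))) (Complex.normSq (F (ω ^ 2) z)) := by
    have h := kernel_hasSum hω z z
    rw [Complex.mul_conj] at h
    rw [← Complex.hasSum_ofReal]
    convert h using 1
    funext n
    rw [conj_zpow hω, Complex.add_conj, hw]
    push_cast
    ring
  have h2 : HasSum (fun n : ℕ => ((-(w n)) ^ n / (n.factorial : ℝ))) (Complex.normSq (F (ω ^ 2) (-z))) := by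
    have h := kernel_hasSum hω (-z) (-z)
    rw [Complex.mul_conj] at h
    rw [← Complex.hasSum_ofReal]
    convert h using 1
    funext n
    rw [conj_zpow hω, Complex.add_conj, hw, mul_neg, Complex.neg_re]
    push_cast
    ring
  have h3 := h1.add h2
  have h4 : ∀ n : ℕ, 0 ≤ (w n) ^ n / (n.factorial : ℝ) + (-(w n)) ^ n / (n.factorial : ℝ) := by
    intro n
    rcases Nat.even_or_odd n with he | ho
    · rw [he.neg_pow]
      have : 0 ≤ (w n) ^ n := he.pow_nonneg _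
      positivity
    · rw [ho.neg_pow]
      have : (w n) ^ n / (n.factorial : ℝ) + -(w n) ^ n / (n.factorial : ℝ) = 0 := by ring
      rw [this]
  have h5 := le_hasSum h3 0 (fun j _ => h4 j)
  simpa using (by simpa using h5 : (1 : ℝ) + 1 ≤ _).trans_eq' (by norm_num)

/-- the real series -/
noncomputable def Os (r β θ : ℝ) : ℝ :=
  ∑' j : ℕ, (2 * r * Real.sin (θ + j * β)) ^ (2 * j + 1) / ((2 * j + 1).factorial : ℝ)

/-- the series of the derivative -/
noncomputable def Ds (r β θ : ℝ) : ℝ :=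
  ∑' j : ℕ, Real.cos (θ + j * β) * (2 * r * Real.sin (θ + j * β)) ^ (2 * j) / ((2 * j).factorial : ℝ)

private theorem base_pow (r x : ℝ) (n : ℕ) : |2 * r * Real.sin x| ^ n ≤ |2 * r| ^ n := by
  refine pow_le_pow_left₀ (abs_nonneg _) ?_ n
  rw [abs_mul]
  exact mul_le_of_le_one_right (abs_nonneg _) (Real.abs_sin_le_one x)

private theorem summable_bound (r : ℝ) : Summable (fun j : ℕ => |2 * r| * (|2 * r| ^ (2 * j) / ((2 * j).factorial : ℝ))) := by
  refine Summable.mul_left _ ?_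
  have h := Real.summable_pow_div_factorial |2 * r|
  exact h.comp_injective (i := fun j : ℕ => 2 * j) (fun a b h => by simpa using h)

theorem hasDerivAt_Os (r β θ : ℝ) : HasDerivAt (Os r β) (2 * r * Ds r β θ) θ := by
  have h := hasDerivAt_tsum (𝕜 := ℝ) (F := ℝ)
    (g := fun (j : ℕ) (θ : ℝ) => (2 * r * Real.sin (θ + j * β)) ^ (2 * j + 1) / ((2 * j + 1).factorial : ℝ))
    (g' := fun (j : ℕ) (θ : ℝ) => 2 * r * (Real.cos (θ + j * β) * (2 * r * Real.sin (θ + j * β)) ^ (2 * j) / ((2 * j).factorial : ℝ)))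
    (u := fun j : ℕ => |2 * r| * (|2 * r| ^ (2 * j) / ((2 * j).factorial : ℝ))) (y₀ := θ)
    (summable_bound r) ?_ ?_ ?_ θ
  · rw [tsum_mul_left] at h
    exact h
  · intro j y
    have h1 : HasDerivAt (fun y : ℝ => 2 * r * Real.sin (y + j * β)) (2 * r * Real.cos (y + j * β)) y := by
      have := ((Real.hasDerivAt_sin (y + j * β)).comp y ((hasDerivAt_id y).add_const (j * β))).const_mul (2 * r)
      simpa using this
    have h2 := (h1.pow (2 * j + 1)).div_const ((2 * j + 1).factorial : ℝ)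
    refine h2.congr_deriv ?_
    rw [Nat.factorial_succ, Nat.add_sub_cancel]
    have h3 : ((2 * j).factorial : ℝ) ≠ 0 := by exact_mod_cast Nat.factorial_ne_zero _
    have h4 : ((2 * j + 1 : ℕ) : ℝ) ≠ 0 := by positivity
    push_cast at h4 ⊢
    field_simp
  · intro j y
    rw [Real.norm_eq_abs, abs_mul, abs_div, abs_mul (Real.cos _), abs_pow, Nat.abs_cast]
    refine mul_le_mul_of_nonneg_left ?_ (abs_nonneg _)
    refine div_le_div_of_nonneg_right ?_ (by positivity)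
    calc |Real.cos (y + j * β)| * |2 * r * Real.sin (y + j * β)| ^ (2 * j) ≤ 1 * |2 * r| ^ (2 * j) :=
          mul_le_mul (Real.abs_cos_le_one _) (base_pow _ _ _) (by positivity) zero_le_one
      _ = _ := one_mul _
  · refine Summable.of_norm_bounded (g := fun j : ℕ => |2 * r| ^ (2 * j + 1) / ((2 * j + 1).factorial : ℝ)) ?_ ?_
    · have h := Real.summable_pow_div_factorial |2 * r|
      exact h.comp_injective (i := fun j : ℕ => 2 * j + 1) (fun a b h => by simpa using h)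
    · intro j
      rw [norm_div, norm_pow, Real.norm_eq_abs, Real.norm_eq_abs, Nat.abs_cast]
      exact div_le_div_of_nonneg_right (base_pow _ _ _) (by positivity)

theorem Os_add_pi (r β θ : ℝ) : Os r β (θ + Real.pi) = -Os r β θ := by
  unfold Os
  rw [← tsum_neg]
  congr 1
  funext j
  rw [show θ + Real.pi + j * β = (θ + j * β) + Real.pi by ring, Real.sin_add_pi, mul_neg,
    Odd.neg_pow (by exact ⟨j, rfl⟩)]
  ring

theorem Ds_add_pi (r β θ : ℝ) : Ds r β (θ + Real.pi) = -Ds r β θ := by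
  unfold Ds
  rw [← tsum_neg]
  congr 1
  funext j
  rw [show θ + Real.pi + j * β = (θ + j * β) + Real.pi by ring, Real.sin_add_pi, Real.cos_add_pi, mul_neg,
    Even.neg_pow (by exact even_two_mul j)]
  ring

theorem Os_add_int_mul_pi (r β θ : ℝ) (k : ℤ) : Os r β (θ + k * Real.pi) = (-1) ^ k * Os r β θ := by
  induction k using Int.induction_on with
  | zero => simp
  | succ k ih =>
    rw [show θ + ((k : ℤ) + 1 : ℤ) * Real.pi = (θ + (k : ℤ) * Real.pi) + Real.pi by push_cast; ring, Os_add_pi, ih,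
      zpow_add₀ (by norm_num)]
    simp
  | pred k ih =>
    have h := Os_add_pi r β (θ + ((-(k : ℤ) - 1 : ℤ) : ℝ) * Real.pi)
    rw [show θ + ((-(k : ℤ) - 1 : ℤ) : ℝ) * Real.pi + Real.pi = θ + ((-(k : ℤ) : ℤ) : ℝ) * Real.pi by push_cast; ring, ih] at h
    rw [zpow_sub₀ (by norm_num), zpow_one]
    linarith

theorem Ds_add_int_mul_pi (r β θ : ℝ) (k : ℤ) : Ds r β (θ + k * Real.pi) = (-1) ^ k * Ds r β θ := by
  induction k using Int.induction_on with
  | zero => simp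
  | succ k ih =>
    rw [show θ + ((k : ℤ) + 1 : ℤ) * Real.pi = (θ + (k : ℤ) * Real.pi) + Real.pi by push_cast; ring, Ds_add_pi, ih,
      zpow_add₀ (by norm_num)]
    simp
  | pred k ih =>
    have h := Ds_add_pi r β (θ + ((-(k : ℤ) - 1 : ℤ) : ℝ) * Real.pi)
    rw [show θ + ((-(k : ℤ) - 1 : ℤ) : ℝ) * Real.pi + Real.pi = θ + ((-(k : ℤ) : ℤ) : ℝ) * Real.pi by push_cast; ring, ih] at h
    rw [zpow_sub₀ (by norm_num), zpow_one]
    linarith

end Sok
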