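import Pool.Agent.Lib.MP_816dec_an.Disc

/-!
MP_816dec_an, finite part: continuation of the zeros along an interval of the parameter.

`Piece f R0 a b N c s S`: on `[a, b]` there are `N` zeros in the discs with centres `c i α` and radii `s i`
(at most one in the open disc of radius `S i`), with increasing moduli, the last one of modulus at
least `R0`.
`St f R0 α N ζ`: `ζ 0, ..., ζ (N-1)` are simple zeros of `f α` with increasing moduli, the last one has
modulus at least `R0`, and there are no other zeros of modulus at most `‖ζ (N-1)‖`.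
-/

set_option autoImplicit false

open Complex Set Filter Topology Metric

namespace Sok

structure Piece (f : ℝ → ℂ → ℂ) (R0 a b : ℝ) (N : ℕ) (c : ℕ → ℝ → ℂ) (s S : ℕ → ℝ) : Prop where
  hab : a ≤ b
  pos : 0 < N
  cont : ∀ i, Continuous (c i)
  lt : ∀ i < N, s i < S i
  ex : ∀ α ∈ Icc a b, ∀ i < N, ∃ z ∈ closedBall (c i α) (s i), f α z = 0
  uniq : ∀ α ∈ Icc a b, ∀ i < N, ∀ z ∈ ball (c i α) (S i), ∀ w ∈ ball (c i α) (S i),
    f α z = 0 → f α w = 0 → z = w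
  simple : ∀ α ∈ Icc a b, ∀ i < N, ∀ z ∈ ball (c i α) (S i), f α z = 0 → deriv (f α) z ≠ 0
  ord : ∀ α ∈ Icc a b, ∀ i, i + 1 < N → ‖c i α‖ + s i < ‖c (i + 1) α‖ - s (i + 1)
  out : ∀ α ∈ Icc a b, R0 ≤ ‖c (N - 1) α‖ - s (N - 1)

structure St (f : ℝ → ℂ → ℂ) (R0 α : ℝ) (N : ℕ) (ζ : ℕ → ℂ) : Prop where
  pos : 0 < N
  zero : ∀ i < N, f α (ζ i) = 0
  simple : ∀ i < N, deriv (f α) (ζ i) ≠ 0
  ord : ∀ i, i + 1 < N → ‖ζ i‖ < ‖ζ (i + 1)‖
  all : ∀ z, f α z = 0 → ‖z‖ ≤ ‖ζ (N - 1)‖ → ∃ i < N, z = ζ i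
  out : R0 ≤ ‖ζ (N - 1)‖

/-- the statement for one parameter value, for zeros of modulus at least `R0` -/
def GoodOut (f : ℝ → ℂ → ℂ) (R0 α : ℝ) : Prop :=
  (∀ z, f α z = 0 → R0 ≤ ‖z‖ → deriv (f α) z ≠ 0) ∧
    ∀ z w, f α z = 0 → f α w = 0 → ‖z‖ = ‖w‖ → R0 ≤ ‖z‖ → z = w

/-- the statement for one parameter value -/
def Good (f : ℝ → ℂ → ℂ) (α : ℝ) : Prop :=
  (∀ z, f α z = 0 → deriv (f α) z ≠ 0) ∧ ∀ z w, f α z = 0 → f α w = 0 → ‖z‖ = ‖w‖ → z = w

theorem St.mono {f : ℝ → ℂ → ℂ} {R0 α : ℝ} {N : ℕ} {ζ : ℕ → ℂ} (h : St f R0 α N ζ) :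
    ∀ i j, i < j → j < N → ‖ζ i‖ < ‖ζ j‖ := by
  intro i j hij hj
  induction j with
  | zero => omega
  | succ j ih =>
    rcases Nat.lt_succ_iff_lt_or_eq.1 hij with h1 | h1
    · exact (ih h1 (by omega)).trans (h.ord j hj)
    · rw [h1]; exact h.ord j hj

theorem St.good {f : ℝ → ℂ → ℂ} {R0 α : ℝ} {N : ℕ} {ζ : ℕ → ℂ} (h : St f R0 α N ζ)
    (hA : GoodOut f R0 α) : Good f α := by
  refine ⟨fun z hz => ?_, fun z w hz hw hzw => ?_⟩
  · rcases le_or_gt R0 ‖z‖ with h1 | h1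
    · exact hA.1 z hz h1
    · obtain ⟨i, hi, rfl⟩ := h.all z hz (h1.le.trans h.out)
      exact h.simple i hi
  · rcases le_or_gt R0 ‖z‖ with h1 | h1
    · exact hA.2 z w hz hw hzw h1
    · obtain ⟨i, hi, rfl⟩ := h.all z hz (h1.le.trans h.out)
      obtain ⟨j, hj, rfl⟩ := h.all w hw (by rw [← hzw]; exact h1.le.trans h.out)
      rcases lt_trichotomy i j with h2 | h2 | h2
      · exact absurd hzw (h.mono i j h2 hj).ne
      · rw [h2]
      · exact absurd hzw.symm (h.mono j i h2 hi).ne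

/-- fewer zeros -/
theorem St.drop {f : ℝ → ℂ → ℂ} {R0 α : ℝ} {N N' : ℕ} {ζ : ℕ → ℂ} (h : St f R0 α N' ζ) (hN : N ≤ N')
    (hpos : 0 < N) (hout : R0 ≤ ‖ζ (N - 1)‖) : St f R0 α N ζ where
  pos := hpos
  zero i hi := h.zero i (by omega)
  simple i hi := h.simple i (by omega)
  ord i hi := h.ord i (by omega)
  all z hz hz2 := by
    have h1 : ‖z‖ ≤ ‖ζ (N' - 1)‖ := by
      rcases Nat.lt_or_ge (N - 1) (N' - 1) with h2 | h2
      · exact hz2.trans (h.mono _ _ h2 (by omega)).le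
      · have : N - 1 = N' - 1 := by omega
        rw [← this]; exact hz2
    obtain ⟨i, hi, rfl⟩ := h.all z hz h1
    refine ⟨i, ?_, rfl⟩
    by_contra hc
    have := h.mono (N - 1) i (by omega) hi
    linarith
  out := hout

variable {f : ℝ → ℂ → ℂ} {R0 a b : ℝ} {N : ℕ} {c : ℕ → ℝ → ℂ} {s S : ℕ → ℝ}

/-- the zero in the disc -/
noncomputable def Piece.ze (_ : Piece f R0 a b N c s S) (i : ℕ) (α : ℝ) : ℂ :=
  open Classical in if h : ∃ z ∈ closedBall (c i α) (s i), f α z = 0 then h.choose else 0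

theorem Piece.ze_spec (P : Piece f R0 a b N c s S) {i : ℕ} (hi : i < N) {α : ℝ} (hα : α ∈ Icc a b) :
    P.ze i α ∈ closedBall (c i α) (s i) ∧ f α (P.ze i α) = 0 := by
  unfold Piece.ze
  rw [dif_pos (P.ex α hα i hi)]
  exact (P.ex α hα i hi).choose_spec

theorem Piece.ze_ball (P : Piece f R0 a b N c s S) {i : ℕ} (hi : i < N) {α : ℝ} (hα : α ∈ Icc a b) :
    P.ze i α ∈ ball (c i α) (S i) :=
  lt_of_le_of_lt (mem_closedBall.1 (P.ze_spec hi hα).1) (P.lt i hi)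

theorem Piece.ze_uniq (P : Piece f R0 a b N c s S) {i : ℕ} (hi : i < N) {α : ℝ} (hα : α ∈ Icc a b)
    {z : ℂ} (hz : z ∈ ball (c i α) (S i)) (hz0 : f α z = 0) : z = P.ze i α :=
  P.uniq α hα i hi z hz _ (P.ze_ball hi hα) hz0 (P.ze_spec hi hα).2

theorem Piece.ze_ord (P : Piece f R0 a b N c s S) {i : ℕ} (hi : i + 1 < N) {α : ℝ} (hα : α ∈ Icc a b) :
    ‖P.ze i α‖ < ‖P.ze (i + 1) α‖ := by
  have h1 := (P.ze_spec (i := i) (by omega) hα).1
  have h2 := (P.ze_spec hi hα).1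
  have h3 := P.ord α hα i hi
  rw [mem_closedBall, dist_eq_norm] at h1 h2
  have h4 : ‖P.ze i α‖ ≤ ‖c i α‖ + ‖P.ze i α - c i α‖ := by
    have := norm_add_le (c i α) (P.ze i α - c i α)
    rwa [add_sub_cancel] at this
  have h5 : ‖c (i + 1) α‖ ≤ ‖P.ze (i + 1) α‖ + ‖P.ze (i + 1) α - c (i + 1) α‖ := by
    have := norm_sub_le (P.ze (i + 1) α) (P.ze (i + 1) α - c (i + 1) α)
    rwa [sub_sub_cancel] at this
  linarith

theorem Piece.ze_out (P : Piece f R0 a b N c s S) {α : ℝ} (hα : α ∈ Icc a b) :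
    R0 ≤ ‖P.ze (N - 1) α‖ := by
  have hN := P.pos
  have h1 := (P.ze_spec (i := N - 1) (by omega) hα).1
  have h3 := P.out α hα
  rw [mem_closedBall, dist_eq_norm] at h1
  have h5 : ‖c (N - 1) α‖ ≤ ‖P.ze (N - 1) α‖ + ‖P.ze (N - 1) α - c (N - 1) α‖ := by
    have := norm_sub_le (P.ze (N - 1) α) (P.ze (N - 1) α - c (N - 1) α)
    rwa [sub_sub_cancel] at this
  linarith

/-- the zeros are continuous, in terms of ultrafilters -/
theorem Piece.ze_tendsto (hf : Continuous (fun p : ℝ × ℂ => f p.1 p.2)) (P : Piece f R0 a b N c s S)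
    {i : ℕ} (hi : i < N) {α₀ : ℝ} (hα₀ : α₀ ∈ Icc a b) :
    Tendsto (P.ze i) (𝓝[Icc a b] α₀) (𝓝 (P.ze i α₀)) := by
  rw [tendsto_iff_ultrafilter]
  intro U hU
  have hU1 : (U : Filter ℝ) ≤ 𝓝 α₀ := hU.trans nhdsWithin_le_nhds
  have hU2 : ∀ᶠ α in (U : Filter ℝ), α ∈ Icc a b := hU self_mem_nhdsWithin
  have hc : Tendsto (c i) (U : Filter ℝ) (𝓝 (c i α₀)) := ((P.cont i).tendsto α₀).mono_left hU1
  -- the zeros stay in a compact set
  have hbd : ∀ᶠ α in (U : Filter ℝ), P.ze i α ∈ closedBall (c i α₀) (s i + 1) := by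
    have h1 : ∀ᶠ α in (U : Filter ℝ), dist (c i α) (c i α₀) < 1 := hc.eventually (ball_mem_nhds _ one_pos)
    filter_upwards [h1, hU2] with α h1 h2
    rw [mem_closedBall]
    have h3 := mem_closedBall.1 (P.ze_spec hi h2).1
    have h4 := dist_triangle (P.ze i α) (c i α) (c i α₀)
    linarith
  have hcomp : IsCompact (closedBall (c i α₀) (s i + 1)) := isCompact_closedBall _ _
  obtain ⟨z, hz, hlim⟩ := hcomp.ultrafilter_le_nhds (U.map (P.ze i)) (le_principal_iff.2 hbd)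
  have hlim' : Tendsto (P.ze i) (U : Filter ℝ) (𝓝 z) := hlim
  have hz0 : f α₀ z = 0 := by
    have h1 : Tendsto (fun α => f α (P.ze i α)) (U : Filter ℝ) (𝓝 (f α₀ z)) := by
      have h2 : Tendsto (fun α => ((α, P.ze i α) : ℝ × ℂ)) (U : Filter ℝ) (𝓝 (α₀, z)) := by
        rw [nhds_prod_eq]
        exact (show Tendsto id (U : Filter ℝ) (𝓝 α₀) from hU1).prodMk hlim'
      exact (hf.tendsto (α₀, z)).comp h2
    have h3 : Tendsto (fun α => f α (P.ze i α)) (U : Filter ℝ) (𝓝 0) := by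
      refine tendsto_const_nhds.congr' ?_
      filter_upwards [hU2] with α h2
      exact (P.ze_spec hi h2).2.symm
    exact tendsto_nhds_unique h1 h3
  have hz1 : z ∈ closedBall (c i α₀) (s i) := by
    rw [mem_closedBall]
    have h1 : Tendsto (fun α => dist (P.ze i α) (c i α)) (U : Filter ℝ) (𝓝 (dist z (c i α₀))) := hlim'.dist hc
    refine le_of_tendsto h1 ?_
    filter_upwards [hU2] with α h2
    exact mem_closedBall.1 (P.ze_spec hi h2).1
  have hz2 : z = P.ze i α₀ := P.ze_uniq hi hα₀ (lt_of_le_of_lt (mem_closedBall.1 hz1) (P.lt i hi)) hz0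
  rw [← hz2]
  exact hlim'

/-- **Continuation.** -/
theorem Piece.continuation (hf : Continuous (fun p : ℝ × ℂ => f p.1 p.2))
    (hd : ∀ α, Differentiable ℂ (f α)) (hne : ∀ α, ∃ w, f α w ≠ 0) (P : Piece f R0 a b N c s S)
    (hA : ∀ α ∈ Icc a b, GoodOut f R0 α)
    (hb : ∀ z, f b z = 0 → ‖z‖ ≤ ‖P.ze (N - 1) b‖ → ∃ i < N, z = P.ze i b) :
    ∀ α ∈ Icc a b, St f R0 α N (fun i => P.ze i α) := by
  have hN := P.pos
  suffices H : ∀ α ∈ Icc a b, ∀ z, f α z = 0 → ‖z‖ ≤ ‖P.ze (N - 1) α‖ → ∃ i < N, z = P.ze i α by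
    intro α hα
    exact
      { pos := P.pos
        zero := fun i hi => (P.ze_spec hi hα).2
        simple := fun i hi => P.simple α hα i hi _ (P.ze_ball hi hα) (P.ze_spec hi hα).2
        ord := fun i hi => P.ze_ord hi hα
        all := H α hα
        out := P.ze_out hα }
  let T : Set (Icc a b) := {α | ∀ z, f α z = 0 → ‖z‖ ≤ ‖P.ze (N - 1) α‖ → ∃ i < N, z = P.ze i α}
  have hten : ∀ i < N, ∀ α₀ : Icc a b, Tendsto (fun α : Icc a b => P.ze i α) (𝓝 α₀) (𝓝 (P.ze i α₀)) := by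
    intro i hi α₀
    have h1 := P.ze_tendsto hf hi α₀.2
    have h2 : Tendsto (fun α : Icc a b => (α : ℝ)) (𝓝 α₀) (𝓝[Icc a b] (α₀ : ℝ)) := by
      rw [tendsto_nhdsWithin_iff]
      exact ⟨continuous_subtype_val.tendsto α₀, Eventually.of_forall fun α => α.2⟩
    exact h1.comp h2
  -- the complement is open
  have hopen : IsOpen Tᶜ := by
    rw [isOpen_iff_mem_nhds]
    intro α₀ hα₀
    have hα₀' : ¬ ∀ z, f α₀ z = 0 → ‖z‖ ≤ ‖P.ze (N - 1) α₀‖ → ∃ i < N, z = P.ze i α₀ := hα₀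
    push Not at hα₀'
    obtain ⟨z₀, hz₀, hz₁, hz₂⟩ := hα₀'
    have hlt : ‖z₀‖ < ‖P.ze (N - 1) α₀‖ := by
      refine lt_of_le_of_ne hz₁ fun heq => ?_
      refine hz₂ (N - 1) (by omega) ?_
      refine (hA α₀ α₀.2).2 _ _ hz₀ (P.ze_spec (by omega) α₀.2).2 heq ?_
      rw [heq]; exact P.ze_out α₀.2
    -- the radius
    obtain ⟨ε, hε, hε1, hε2⟩ : ∃ ε > 0, (∀ i < N, 3 * ε ≤ dist z₀ (P.ze i α₀)) ∧
        ‖z₀‖ + 3 * ε ≤ ‖P.ze (N - 1) α₀‖ := by
      have h1 : ∀ i < N, 0 < dist z₀ (P.ze i α₀) := fun i hi => dist_pos.2 (hz₂ i hi)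
      obtain ⟨δ, hδ, hδ1⟩ : ∃ δ > 0, ∀ i < N, δ ≤ dist z₀ (P.ze i α₀) := by
        have h2 : (Finset.range N).Nonempty := Finset.nonempty_range_iff.2 (by omega)
        refine ⟨(Finset.range N).inf' h2 (fun i => dist z₀ (P.ze i α₀)), ?_, ?_⟩
        · rw [gt_iff_lt, Finset.lt_inf'_iff]
          exact fun i hi => h1 i (Finset.mem_range.1 hi)
        · exact fun i hi => Finset.inf'_le _ (Finset.mem_range.2 hi)
      refine ⟨min (δ / 3) ((‖P.ze (N - 1) α₀‖ - ‖z₀‖) / 3), lt_min (by positivity) (by linarith), ?_, ?_⟩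
      · intro i hi
        have := min_le_left (δ / 3) ((‖P.ze (N - 1) α₀‖ - ‖z₀‖) / 3)
        have := hδ1 i hi
        linarith
      · have := min_le_right (δ / 3) ((‖P.ze (N - 1) α₀‖ - ‖z₀‖) / 3)
        linarith
    have hpers : ∀ᶠ α : Icc a b in 𝓝 α₀, ∃ z ∈ ball z₀ ε, f α z = 0 :=
      (continuous_subtype_val.tendsto α₀).eventually (zero_persists hf hd hz₀ (hne _) hε)
    have hclose : ∀ᶠ α : Icc a b in 𝓝 α₀, ∀ i ∈ Finset.range N, dist (P.ze i α) (P.ze i α₀) < ε := by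
      rw [Finset.eventually_all]
      intro i hi
      exact (hten i (Finset.mem_range.1 hi) α₀).eventually (ball_mem_nhds _ hε)
    filter_upwards [hpers, hclose] with α h1 h2
    obtain ⟨z, hz, hz0⟩ := h1
    intro hT
    have hzn : ‖z‖ ≤ ‖P.ze (N - 1) α‖ := by
      have h3 := h2 (N - 1) (Finset.mem_range.2 (by omega))
      rw [mem_ball, dist_eq_norm] at hz
      rw [dist_eq_norm] at h3
      have h4 : ‖z‖ ≤ ‖z₀‖ + ‖z - z₀‖ := by
        have := norm_add_le z₀ (z - z₀)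
        rwa [add_sub_cancel] at this
      have h5 : ‖P.ze (N - 1) α₀‖ ≤ ‖P.ze (N - 1) α‖ + ‖P.ze (N - 1) α - P.ze (N - 1) α₀‖ := by
        have := norm_sub_le (P.ze (N - 1) α) (P.ze (N - 1) α - P.ze (N - 1) α₀)
        rwa [sub_sub_cancel] at this
      linarith
    obtain ⟨i, hi, hzi⟩ := hT z hz0 hzn
    have h3 := h2 i (Finset.mem_range.2 hi)
    have h4 := hε1 i hi
    rw [mem_ball] at hz
    have h5 := dist_triangle z₀ z (P.ze i α₀)
    rw [dist_comm z₀ z, hzi] at h5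
    rw [hzi] at hz
    linarith
  -- the complement is closed
  have hclosed : IsClosed Tᶜ := by
    rw [isClosed_iff_ultrafilter]
    intro α₀ U hU hUT
    have hex : ∀ α : Icc a b, ∃ z, α ∈ Tᶜ → f α z = 0 ∧ ‖z‖ ≤ ‖P.ze (N - 1) α‖ ∧ ∀ i < N, z ≠ P.ze i α := by
      intro α
      by_cases hα : α ∈ Tᶜ
      · have hα' : ¬ ∀ z, f α z = 0 → ‖z‖ ≤ ‖P.ze (N - 1) α‖ → ∃ i < N, z = P.ze i α := hα
        push Not at hα'
        obtain ⟨z, h1, h2, h3⟩ := hα'
        exact ⟨z, fun _ => ⟨h1, h2, h3⟩⟩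
      · exact ⟨0, fun h => absurd h hα⟩
    choose z hz using hex
    have hev : ∀ᶠ α in (U : Filter (Icc a b)), α ∈ Tᶜ := hUT
    have hzl : ∀ i < N, Tendsto (fun α : Icc a b => P.ze i α) (U : Filter (Icc a b)) (𝓝 (P.ze i α₀)) :=
      fun i hi => (hten i hi α₀).mono_left hU
    have hbd : ∀ᶠ α in (U : Filter (Icc a b)), z α ∈ closedBall (0 : ℂ) (‖P.ze (N - 1) α₀‖ + 1) := by
      have h1 : ∀ᶠ α : Icc a b in (U : Filter (Icc a b)), ‖P.ze (N - 1) α‖ < ‖P.ze (N - 1) α₀‖ + 1 :=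
        (hzl (N - 1) (by omega)).norm.eventually_lt_const (by linarith)
      filter_upwards [h1, hev] with α h1 h2
      rw [mem_closedBall_zero_iff]
      exact (hz α h2).2.1.trans h1.le
    obtain ⟨w, hw, hlim⟩ := (isCompact_closedBall (0 : ℂ) (‖P.ze (N - 1) α₀‖ + 1)).ultrafilter_le_nhds
      (U.map z) (le_principal_iff.2 hbd)
    have hlim' : Tendsto z (U : Filter (Icc a b)) (𝓝 w) := hlim
    have hval : Tendsto (fun α : Icc a b => (α : ℝ)) (U : Filter (Icc a b)) (𝓝 (α₀ : ℝ)) :=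
      (continuous_subtype_val.tendsto α₀).mono_left hU
    have hw0 : f α₀ w = 0 := by
      have h1 : Tendsto (fun α : Icc a b => f α (z α)) (U : Filter (Icc a b)) (𝓝 (f α₀ w)) := by
        have h2 : Tendsto (fun α : Icc a b => (((α : ℝ), z α) : ℝ × ℂ)) (U : Filter (Icc a b))
            (𝓝 ((α₀ : ℝ), w)) := by
          rw [nhds_prod_eq]
          exact hval.prodMk hlim'
        exact (hf.tendsto ((α₀ : ℝ), w)).comp h2
      have h3 : Tendsto (fun α : Icc a b => f α (z α)) (U : Filter (Icc a b)) (𝓝 0) := by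
        refine tendsto_const_nhds.congr' ?_
        filter_upwards [hev] with α h2
        exact (hz α h2).1.symm
      exact tendsto_nhds_unique h1 h3
    have hw1 : ‖w‖ ≤ ‖P.ze (N - 1) α₀‖ := by
      refine le_of_tendsto_of_tendsto hlim'.norm (hzl (N - 1) (by omega)).norm ?_
      filter_upwards [hev] with α h2
      exact (hz α h2).2.1
    intro hT
    obtain ⟨i, hi, hwi⟩ := hT w hw0 hw1
    -- then z α is in the ball for α near α₀
    have h1 : ∀ᶠ α : Icc a b in (U : Filter (Icc a b)), z α ∈ ball (c i α) (S i) := by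
      have h2 : Tendsto (fun α : Icc a b => dist (z α) (c i α)) (U : Filter (Icc a b))
          (𝓝 (dist w (c i α₀))) := hlim'.dist (((P.cont i).tendsto _).comp hval)
      have h3 : dist w (c i α₀) < S i := by
        rw [hwi]; exact P.ze_ball hi α₀.2
      filter_upwards [h2.eventually_lt_const h3] with α h4
      exact h4
    obtain ⟨α, h2, h3⟩ := (h1.and hev).exists
    exact (hz α h3).2.2 i hi (P.ze_uniq hi α.2 h2 (hz α h3).1)
  -- connectedness
  have hconn : PreconnectedSpace (Icc a b) := Subtype.preconnectedSpace isPreconnected_Icc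
  have hclopen : IsClopen T := ⟨by rw [← compl_compl T]; exact hopen.isClosed_compl,
    by rw [← compl_compl T]; exact hclosed.isOpen_compl⟩
  have huniv : T = univ := hclopen.eq_univ ⟨⟨b, right_mem_Icc.2 P.hab⟩, hb⟩
  intro α hα
  have : (⟨α, hα⟩ : Icc a b) ∈ T := by rw [huniv]; exact mem_univ _
  exact this

/-- **One step.** From a state at `b` (with at least `N` zeros) to all of `[a, b]`. -/
theorem Piece.step (hf : Continuous (fun p : ℝ × ℂ => f p.1 p.2))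
    (hd : ∀ α, Differentiable ℂ (f α)) (hne : ∀ α, ∃ w, f α w ≠ 0) (P : Piece f R0 a b N c s S)
    (hA : ∀ α ∈ Icc a b, GoodOut f R0 α) {N' : ℕ} {ζ : ℕ → ℂ} (hS : St f R0 b N' ζ) (hN : N ≤ N')
    (hζ : ∀ i < N, ζ i ∈ ball (c i b) (S i)) :
    ∀ α ∈ Icc a b, ∃ ζ' : ℕ → ℂ, St f R0 α N ζ' ∧ ∀ i < N, ζ' i ∈ closedBall (c i α) (s i) := by
  have hbb : b ∈ Icc a b := right_mem_Icc.2 P.hab
  have hNp := P.pos
  have heq : ∀ i < N, ζ i = P.ze i b := fun i hi => P.ze_uniq hi hbb (hζ i hi) (hS.zero i (by omega))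
  have hS' : St f R0 b N ζ := hS.drop hN P.pos (by
    rw [heq (N - 1) (by omega)]; exact P.ze_out hbb)
  have h1 := P.continuation hf hd hne hA (by
    intro z hz hz2
    rw [← heq (N - 1) (by omega)] at hz2
    obtain ⟨i, hi, rfl⟩ := hS'.all z hz hz2
    exact ⟨i, hi, heq i hi⟩)
  intro α hα
  exact ⟨fun i => P.ze i α, h1 α hα, fun i hi => (P.ze_spec hi hα).1⟩

end Sok
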