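import Pool.Agent.Lib.MP_816dec_an.ZeroFree
import Pool.Agent.Lib.MP_816dec_an.Cont

/-!
MP_816dec_an, finite part: the unit circle `q = exp (i α)`. Start at `α = π`, one step, the end near
`α = 0`, and the passage to all `q` on the unit circle.
-/

set_option autoImplicit false

open Complex Set Filter Topology Metric

namespace Sok

/-- Sokal's function for `q = exp (i α)` -/
noncomputable def Fa (α : ℝ) (z : ℂ) : ℂ := F (Complex.exp (α * I)) z

theorem norm_ea (α : ℝ) : ‖Complex.exp (α * I)‖ = 1 := Complex.norm_exp_ofReal_mul_I α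

theorem continuous_Fa : Continuous (fun p : ℝ × ℂ => Fa p.1 p.2) := by
  have h1 : Continuous (fun p : ℝ × ℂ => ((Complex.exp (p.1 * I), p.2) : ℂ × ℂ)) := by fun_prop
  exact continuousOn_F.comp_continuous h1 (fun p => (norm_ea p.1).le)

theorem differentiable_Fa (α : ℝ) : Differentiable ℂ (Fa α) := differentiable_F (norm_ea α).le

theorem hasDerivAt_Fa (α : ℝ) (z : ℂ) : HasDerivAt (Fa α) (Fa α (Complex.exp (α * I) * z)) z :=
  hasDerivAt_F (norm_ea α).le z

theorem deriv_Fa (α : ℝ) (z : ℂ) : deriv (Fa α) z = Fa α (Complex.exp (α * I) * z) :=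
  (hasDerivAt_Fa α z).deriv

theorem Fa_ne (α : ℝ) : ∃ w, Fa α w ≠ 0 := ⟨0, by unfold Fa; rw [F_zero]; exact one_ne_zero⟩

/-- the function at `q = -1` -/
theorem F_neg_one (z : ℂ) : F (-1) z = Complex.cos z + Complex.sin z := by
  have hq : ‖(-1 : ℂ)‖ ≤ 1 := by simp
  have h1 : ∀ z : ℂ, HasDerivAt (F (-1)) (F (-1) (-z)) z := by
    intro z
    have := hasDerivAt_F hq z
    rwa [neg_one_mul] at this
  have h2 : ∀ z : ℂ, HasDerivAt (fun w => F (-1) (-w)) (-(F (-1) z)) z := by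
    intro z
    have h := (h1 (-z)).comp z (hasDerivAt_neg z)
    rw [neg_neg, mul_neg_one] at h
    exact h
  let u : ℂ → ℂ := fun z => F (-1) z * (Complex.cos z - Complex.sin z) +
    F (-1) (-z) * (-(Complex.cos z + Complex.sin z))
  let v : ℂ → ℂ := fun z => F (-1) z * (Complex.cos z + Complex.sin z) +
    F (-1) (-z) * (Complex.cos z - Complex.sin z)
  have hu : ∀ z, HasDerivAt u 0 z := by
    intro z
    have a := ((h1 z).mul ((Complex.hasDerivAt_cos z).sub (Complex.hasDerivAt_sin z))).add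
      ((h2 z).mul ((Complex.hasDerivAt_cos z).add (Complex.hasDerivAt_sin z)).neg)
    refine a.congr_deriv ?_
    simp only [Pi.add_apply, Pi.sub_apply, Pi.neg_apply]
    ring
  have hv : ∀ z, HasDerivAt v 0 z := by
    intro z
    have a := ((h1 z).mul ((Complex.hasDerivAt_cos z).add (Complex.hasDerivAt_sin z))).add
      ((h2 z).mul ((Complex.hasDerivAt_cos z).sub (Complex.hasDerivAt_sin z)))
    refine a.congr_deriv ?_
    simp only [Pi.add_apply, Pi.sub_apply]
    ring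
  have hu' : u z = u 0 :=
    is_const_of_deriv_eq_zero (fun z => (hu z).differentiableAt) (fun z => (hu z).deriv) z 0
  have hv' : v z = v 0 :=
    is_const_of_deriv_eq_zero (fun z => (hv z).differentiableAt) (fun z => (hv z).deriv) z 0
  simp only [u, v, neg_zero, F_zero, Complex.cos_zero, Complex.sin_zero] at hu' hv'
  have hcs := Complex.sin_sq_add_cos_sq z
  linear_combination (1 / 2) * (Complex.cos z - Complex.sin z) * hu' +
    (1 / 2) * (Complex.cos z + Complex.sin z) * hv' - (F (-1) z) * hcs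

theorem Fa_pi (z : ℂ) : Fa Real.pi z = Complex.cos z + Complex.sin z := by
  unfold Fa
  rw [Complex.exp_pi_mul_I]
  exact F_neg_one z

/-- the zeros at `α = π` -/
noncomputable def z0 (i : ℕ) : ℂ := (((-1 : ℝ) ^ (i + 1) * ((2 * i + 1) * Real.pi / 4) : ℝ) : ℂ)

theorem norm_z0 (i : ℕ) : ‖z0 i‖ = (2 * i + 1) * Real.pi / 4 := by
  unfold z0
  rw [Complex.norm_real, Real.norm_eq_abs, abs_mul, abs_pow, abs_neg, abs_one, one_pow, one_mul,
    abs_of_nonneg]
  have := Real.pi_pos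
  positivity

theorem cos_add_sin (z : ℂ) :
    Complex.cos z + Complex.sin z = (Real.sqrt 2 : ℂ) * Complex.sin (z + ((Real.pi / 4 : ℝ) : ℂ)) := by
  rw [Complex.sin_add, ← Complex.ofReal_cos, ← Complex.ofReal_sin, Real.cos_pi_div_four,
    Real.sin_pi_div_four]
  have h : (Real.sqrt 2 : ℂ) * ((Real.sqrt 2 : ℂ)) = 2 := by
    rw [← Complex.ofReal_mul, Real.mul_self_sqrt (by norm_num)]; norm_num
  push_cast
  linear_combination (-(Complex.cos z + Complex.sin z) / 2) * h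

theorem Fa_pi_zero_iff (z : ℂ) : Fa Real.pi z = 0 ↔ ∃ i, z = z0 i := by
  have hs : (Real.sqrt 2 : ℂ) ≠ 0 := by
    rw [Complex.ofReal_ne_zero]; positivity
  rw [Fa_pi, cos_add_sin, mul_eq_zero, or_iff_right hs, Complex.sin_eq_zero_iff]
  constructor
  · rintro ⟨k, hk⟩
    have hz : z = ((k * Real.pi - Real.pi / 4 : ℝ) : ℂ) := by
      push_cast at hk ⊢
      linear_combination hk
    rcases le_or_gt k 0 with h | h
    · refine ⟨(-2 * k).toNat, ?_⟩
      rw [hz]
      unfold z0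
      have h1 : (((-2 * k).toNat : ℕ) : ℤ) = -2 * k := Int.toNat_of_nonneg (by omega)
      have h2 : (((-2 * k).toNat : ℕ) : ℝ) = -2 * k := by exact_mod_cast h1
      have h3 : (-1 : ℝ) ^ ((-2 * k).toNat + 1) = -1 := by
        refine Odd.neg_one_pow ?_
        rw [Nat.odd_iff]
        omega
      rw [h3, h2]
      congr 1
      ring
    · refine ⟨(2 * k - 1).toNat, ?_⟩
      rw [hz]
      unfold z0
      have h1 : (((2 * k - 1).toNat : ℕ) : ℤ) = 2 * k - 1 := Int.toNat_of_nonneg (by omega)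
      have h2 : (((2 * k - 1).toNat : ℕ) : ℝ) = 2 * k - 1 := by exact_mod_cast h1
      have h3 : (-1 : ℝ) ^ ((2 * k - 1).toNat + 1) = 1 := by
        refine Even.neg_one_pow ?_
        rw [Nat.even_iff]
        omega
      rw [h3, h2]
      congr 1
      ring
  · rintro ⟨i, rfl⟩
    unfold z0
    rcases Nat.even_or_odd i with h | h
    · obtain ⟨m, hm⟩ := h
      refine ⟨-m, ?_⟩
      have h3 : (-1 : ℝ) ^ (i + 1) = -1 := Odd.neg_one_pow (by rw [Nat.odd_iff]; omega)
      rw [h3, hm]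
      push_cast
      ring
    · obtain ⟨m, hm⟩ := h
      refine ⟨m + 1, ?_⟩
      have h3 : (-1 : ℝ) ^ (i + 1) = 1 := Even.neg_one_pow (by rw [Nat.even_iff]; omega)
      rw [h3, hm]
      push_cast
      ring

theorem deriv_Fa_pi_ne {z : ℂ} (hz : Fa Real.pi z = 0) : deriv (Fa Real.pi) z ≠ 0 := by
  rw [deriv_Fa, Complex.exp_pi_mul_I, neg_one_mul, Fa_pi, Complex.cos_neg, Complex.sin_neg]
  rw [Fa_pi] at hz
  intro h
  have h1 : Complex.cos z = 0 := by linear_combination (1 / 2) * hz + (1 / 2) * h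
  have h2 : Complex.sin z = 0 := by linear_combination (1 / 2) * hz - (1 / 2) * h
  have h3 := Complex.sin_sq_add_cos_sq z
  rw [h1, h2] at h3
  norm_num at h3

/-- the state at `α = π` -/
theorem start {R0 : ℝ} {N : ℕ} (hN : 0 < N) (hR : R0 ≤ (2 * N - 1) * Real.pi / 4) :
    St Fa R0 Real.pi N z0 where
  pos := hN
  zero i _ := (Fa_pi_zero_iff _).2 ⟨i, rfl⟩
  simple i _ := deriv_Fa_pi_ne ((Fa_pi_zero_iff _).2 ⟨i, rfl⟩)
  ord i _ := by
    rw [norm_z0, norm_z0]
    push_cast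
    have := Real.pi_pos
    linarith
  all z hz hz2 := by
    obtain ⟨i, rfl⟩ := (Fa_pi_zero_iff _).1 hz
    refine ⟨i, ?_, rfl⟩
    rw [norm_z0, norm_z0] at hz2
    have hp := Real.pi_pos
    have h1 : (2 * (i : ℝ) + 1) ≤ 2 * ((N - 1 : ℕ) : ℝ) + 1 := by
      by_contra hc
      push Not at hc
      have := mul_lt_mul_of_pos_right hc (show 0 < Real.pi / 4 by positivity)
      linarith
    have h2 : (i : ℝ) ≤ ((N - 1 : ℕ) : ℝ) := by linarith
    have h3 : i ≤ N - 1 := by exact_mod_cast h2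
    omega
  out := by
    rw [norm_z0]
    have h1 : ((N - 1 : ℕ) : ℝ) = N - 1 := by
      rw [Nat.cast_sub (by omega)]; simp
    rw [h1]
    linarith

/-- the statement is known on `[a, π]`, and at `a` the first `N` zeros are in the given discs -/
def Reach (R0 a : ℝ) (N : ℕ) (c : ℕ → ℂ) (s : ℕ → ℝ) : Prop :=
  (∀ α ∈ Icc a Real.pi, Good Fa α) ∧ ∃ ζ, St Fa R0 a N ζ ∧ ∀ i < N, ζ i ∈ closedBall (c i) (s i)

theorem reach_pi {R0 : ℝ} {N : ℕ} (hN : 0 < N) (hR : R0 ≤ (2 * N - 1) * Real.pi / 4)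
    (hA : GoodOut Fa R0 Real.pi) : Reach R0 Real.pi N z0 (fun _ => 0) := by
  refine ⟨fun α hα => ?_, z0, start hN hR, fun i _ => mem_closedBall_self le_rfl⟩
  have : α = Real.pi := le_antisymm hα.2 hα.1
  rw [this]
  exact (start hN hR).good hA

/-- one step of the continuation -/
theorem Reach.step {R0 a b : ℝ} {N N' : ℕ} {c : ℕ → ℝ → ℂ} {s S : ℕ → ℝ} {c' : ℕ → ℂ} {s' : ℕ → ℝ}
    (h : Reach R0 b N' c' s') (P : Piece Fa R0 a b N c s S) (hN : N ≤ N')
    (hadj : ∀ i < N, dist (c' i) (c i b) + s' i < S i) (hA : ∀ α ∈ Icc a b, GoodOut Fa R0 α) :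
    Reach R0 a N (fun i => c i a) s := by
  obtain ⟨h1, ζ, h2, h3⟩ := h
  have h4 := P.step continuous_Fa differentiable_Fa Fa_ne hA h2 hN (by
    intro i hi
    rw [mem_ball]
    have h5 := mem_closedBall.1 (h3 i (by omega))
    have h6 := dist_triangle (ζ i) (c' i) (c i b)
    have h7 := hadj i hi
    linarith)
  refine ⟨fun α hα => ?_, ?_⟩
  · rcases le_or_gt α b with h5 | h5
    · obtain ⟨ζ', h6, -⟩ := h4 α ⟨hα.1, h5⟩
      exact h6.good (hA α ⟨hα.1, h5⟩)
    · exact h1 α ⟨h5.le, hα.2⟩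
  · exact h4 a (left_mem_Icc.2 P.hab)

/-- a piece from derivative bounds -/
theorem piece_of_bounds {R0 a b : ℝ} {N : ℕ} {c M : ℕ → ℝ → ℂ} {s S η : ℕ → ℝ} (hab : a ≤ b)
    (hN : 0 < N) (hc : ∀ i, Continuous (c i)) (hs : ∀ i < N, 0 ≤ s i) (hsS : ∀ i < N, s i < S i)
    (hη0 : ∀ i < N, 0 ≤ η i) (hη : ∀ i < N, η i < 1) (hM : ∀ α ∈ Icc a b, ∀ i < N, M i α ≠ 0)
    (h0 : ∀ α ∈ Icc a b, ∀ i < N, ‖Fa α (c i α)‖ ≤ (1 - η i) * ‖M i α‖ * s i)
    (h1 : ∀ α ∈ Icc a b, ∀ i < N, ∀ z ∈ ball (c i α) (S i),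
      ‖Fa α (Complex.exp (α * I) * z) - M i α‖ ≤ η i * ‖M i α‖)
    (hord : ∀ α ∈ Icc a b, ∀ i, i + 1 < N → ‖c i α‖ + s i < ‖c (i + 1) α‖ - s (i + 1))
    (hout : ∀ α ∈ Icc a b, R0 ≤ ‖c (N - 1) α‖ - s (N - 1)) : Piece Fa R0 a b N c s S where
  hab := hab
  pos := hN
  cont := hc
  lt := hsS
  ex α hα i hi := disc_exists (hM α hα i hi) (hη0 i hi) (hη i hi) (hs i hi) (hsS i hi)
    (fun z _ => hasDerivAt_Fa α z) (h1 α hα i hi) (h0 α hα i hi)
  uniq α hα i hi z hz w hw hz0 hw0 := disc_uniq (hM α hα i hi) (hη i hi)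
    (fun z _ => hasDerivAt_Fa α z) (h1 α hα i hi) hz hw hz0 hw0
  simple α hα i hi z hz _ := by
    rw [deriv_Fa]
    exact disc_simple (f' := fun z => Fa α (Complex.exp (α * I) * z)) (hM α hα i hi) (hη i hi)
      (h1 α hα i hi) hz
  ord := hord
  out := hout

theorem norm_one_sub_ea (α : ℝ) : ‖1 - Complex.exp (α * I)‖ ≤ |α| := by
  rw [norm_sub_rev, mul_comm]
  exact Real.norm_exp_I_mul_ofReal_sub_one_le

/-- the end: no zeros of modulus at most `R0` near `α = 0` -/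
theorem good_of_small {R0 α : ℝ} (hα : R0 * |α| < Real.exp (-1)) (hA : GoodOut Fa R0 α) : Good Fa α := by
  have h1 : ∀ z, Fa α z = 0 → R0 ≤ ‖z‖ := by
    intro z hz
    by_contra hc
    push Not at hc
    refine zero_free (norm_ea α).le ?_ hz
    calc ‖z‖ * ‖1 - Complex.exp (α * I)‖ ≤ ‖z‖ * |α| :=
          mul_le_mul_of_nonneg_left (norm_one_sub_ea α) (norm_nonneg z)
      _ ≤ R0 * |α| := mul_le_mul_of_nonneg_right hc.le (abs_nonneg α)
      _ < _ := hα
  exact ⟨fun z hz => hA.1 z hz (h1 z hz), fun z w hz hw hzw => hA.2 z w hz hw hzw (h1 z hz)⟩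

/-- the whole arc -/
theorem good_arc {R0 a : ℝ} {N : ℕ} {c : ℕ → ℂ} {s : ℕ → ℝ} (hR0 : 0 ≤ R0) (ha : R0 * a < Real.exp (-1))
    (h : Reach R0 a N c s) (hA : ∀ α ∈ Ioc 0 Real.pi, GoodOut Fa R0 α) :
    ∀ α ∈ Ioc 0 Real.pi, Good Fa α := by
  intro α hα
  rcases le_or_gt a α with h1 | h1
  · exact h.1 α ⟨h1, hα.2⟩
  · refine good_of_small ?_ (hA α hα)
    rw [abs_of_pos hα.1]
    exact lt_of_le_of_lt (mul_le_mul_of_nonneg_left h1.le hR0) ha

theorem F_one (z : ℂ) : F 1 z = Complex.exp z := by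
  rw [Complex.exp_eq_exp_ℂ, NormedSpace.exp_eq_tsum_div, F]
  congr 1
  funext k
  rw [one_pow, one_mul]

/-- from the arc to the whole unit circle -/
theorem unit_circle (h : ∀ α ∈ Ioc 0 Real.pi, Good Fa α) {q : ℂ} (hq : ‖q‖ = 1) :
    (∀ z, F q z = 0 → deriv (F q) z ≠ 0) ∧ ∀ z w, F q z = 0 → F q w = 0 → ‖z‖ = ‖w‖ → z = w := by
  have key : ∀ q : ℂ, ‖q‖ = 1 → 0 < Complex.arg q →
      (∀ z, F q z = 0 → deriv (F q) z ≠ 0) ∧ ∀ z w, F q z = 0 → F q w = 0 → ‖z‖ = ‖w‖ → z = w := by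
    intro q hq harg
    have h1 : Complex.exp (Complex.arg q * I) = q := by
      have := Complex.norm_mul_exp_arg_mul_I q
      rwa [hq, Complex.ofReal_one, one_mul] at this
    have h2 : Fa (Complex.arg q) = F q := by
      funext z
      unfold Fa
      rw [h1]
    have h3 := h (Complex.arg q) ⟨harg, Complex.arg_le_pi q⟩
    unfold Good at h3
    rw [h2] at h3
    exact h3
  rcases lt_trichotomy (Complex.arg q) 0 with h0 | h0 | h0
  · -- conjugate
    have hq' : ‖(starRingEnd ℂ) q‖ = 1 := by rw [Complex.norm_conj]; exact hq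
    have harg : 0 < Complex.arg ((starRingEnd ℂ) q) := by
      rw [Complex.arg_conj, if_neg]
      · linarith
      · intro h1
        have := Real.pi_pos
        linarith
    obtain ⟨k1, k2⟩ := key _ hq' harg
    have e : ∀ z, F ((starRingEnd ℂ) q) ((starRingEnd ℂ) z) = (starRingEnd ℂ) (F q z) := F_conj q
    refine ⟨fun z hz => ?_, fun z w hz hw hzw => ?_⟩
    · rw [deriv_F hq.le]
      have h1 : F ((starRingEnd ℂ) q) ((starRingEnd ℂ) z) = 0 := by rw [e, hz, map_zero]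
      have h2 := k1 _ h1
      rw [deriv_F hq'.le, ← map_mul, e] at h2
      intro h3
      rw [h3, map_zero] at h2
      exact h2 rfl
    · have h1 : F ((starRingEnd ℂ) q) ((starRingEnd ℂ) z) = 0 := by rw [e, hz, map_zero]
      have h2 : F ((starRingEnd ℂ) q) ((starRingEnd ℂ) w) = 0 := by rw [e, hw, map_zero]
      have h3 := k2 _ _ h1 h2 (by rw [Complex.norm_conj, Complex.norm_conj]; exact hzw)
      have := congrArg (starRingEnd ℂ) h3
      rwa [Complex.conj_conj, Complex.conj_conj] at this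
  · have h1 : q = 1 := by
      have := Complex.norm_mul_exp_arg_mul_I q
      rw [hq, h0] at this
      simpa using this.symm
    rw [h1]
    refine ⟨fun z hz => ?_, fun z w hz hw hzw => ?_⟩
    · rw [F_one] at hz
      exact absurd hz (Complex.exp_ne_zero z)
    · rw [F_one] at hz
      exact absurd hz (Complex.exp_ne_zero z)
  · exact key q hq h0

end Sok
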