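import Mathlib

/-!
MP_816dec_an, b = 1, `D(axis) > 0`: the two real inequalities (note 2462 of helper23).
`v = (4β²/3)^{1/6}`, `v² ≤ 1/3`, `exp(v²/2 - 1) ≤ βr`.
-/

set_option autoImplicit false

open Real Set Filter Topology MeasureTheory

namespace Sok

/-! ### a Stirling bound for the real Gamma function -/

private theorem ax_log_factorial (n : ℕ) (hn : 1 ≤ n) :
    Real.log (n.factorial : ℝ) ≤ 1 + 1 / 2 * Real.log n + n * Real.log n - n := by
  obtain ⟨m, rfl⟩ : ∃ m, n = m + 1 := ⟨n - 1, by omega⟩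
  have h := Stirling.log_stirlingSeq'_antitone (Nat.zero_le m)
  simp only [Function.comp_apply, Nat.succ_eq_add_one, zero_add] at h
  rw [Stirling.log_stirlingSeq_formula, Stirling.stirlingSeq_one] at h
  have hn0 : (0 : ℝ) < ((m + 1 : ℕ) : ℝ) := by positivity
  rw [Real.log_div (Real.exp_pos 1).ne' (by positivity), Real.log_exp, Real.log_sqrt (by norm_num),
    Real.log_mul (by norm_num) hn0.ne', Real.log_div hn0.ne' (Real.exp_pos 1).ne', Real.log_exp] at h
  linarith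

private theorem ax_aux {n s : ℝ} (hn : 1 ≤ n) (hs0 : 0 ≤ s) (hs1 : s ≤ 1) :
    s * Real.log (n + 1) + 1 / 2 * Real.log n + n * Real.log n - n ≤
      1 / 16 + 1 / 2 * Real.log (n + s) + (n + s) * Real.log (n + s) - (n + s) := by
  have hn0 : 0 < n := by linarith
  have hns : 0 < n + s := by linarith
  -- log(1+s/n)
  have h1 : 2 * (s / n) / (s / n + 2) ≤ Real.log (1 + s / n) := Real.le_log_one_add_of_nonneg (by positivity)
  have e1 : 1 + s / n = (n + s) / n := by field_simp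
  rw [e1, Real.log_div hns.ne' hn0.ne'] at h1
  have e2 : 2 * (s / n) / (s / n + 2) = 2 * s / (2 * n + s) := by
    have : s / n + 2 = (2 * n + s) / n := by field_simp; ring
    rw [this]; field_simp
  rw [e2] at h1
  -- log((n+1)/(n+s))
  have h2 : Real.log ((n + 1) / (n + s)) ≤ 1 / 2 * ((n + 1) / (n + s) - (n + s) / (n + 1)) := by
    have hy : 1 ≤ (n + 1) / (n + s) := by rw [one_le_div hns]; linarith
    have h3 := Real.self_le_sinh_iff.2 (Real.log_nonneg hy)
    rw [Real.sinh_log (by positivity), inv_div] at h3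
    linarith
  rw [Real.log_div (by linarith) hns.ne'] at h2
  have h4 : s * (Real.log (n + 1) - Real.log (n + s)) ≤ s * (1 / 2 * ((n + 1) / (n + s) - (n + s) / (n + 1))) :=
    mul_le_mul_of_nonneg_left h2 hs0
  have h5 : (n + 1 / 2) * (2 * s / (2 * n + s)) ≤ (n + 1 / 2) * (Real.log (n + s) - Real.log n) :=
    mul_le_mul_of_nonneg_left h1 (by linarith)
  have h6 : s * (1 / 2 * ((n + 1) / (n + s) - (n + s) / (n + 1))) + s - (n + 1 / 2) * (2 * s / (2 * n + s)) ≤ 1 / 16 := by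
    have e3 : s * (1 / 2 * ((n + 1) / (n + s) - (n + s) / (n + 1))) + s - (n + 1 / 2) * (2 * s / (2 * n + s)) =
        s * (1 - s) * (1 / (2 * (n + 1)) - s / (2 * (n + s) * (2 * n + s))) := by
      field_simp
      ring
    rw [e3]
    have h7 : 0 ≤ s / (2 * (n + s) * (2 * n + s)) := by positivity
    have h8 : 1 / (2 * (n + 1)) ≤ 1 / 4 := by
      rw [div_le_div_iff₀ (by positivity) (by norm_num)]; linarith
    have h9 : s * (1 - s) ≤ 1 / 4 := by nlinarith [sq_nonneg (s - 1 / 2)]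
    have h10 : 0 ≤ s * (1 - s) := mul_nonneg hs0 (by linarith)
    have h11 : s * (1 - s) * (1 / (2 * (n + 1)) - s / (2 * (n + s) * (2 * n + s))) ≤ s * (1 - s) * (1 / 4) :=
      mul_le_mul_of_nonneg_left (by linarith) h10
    linarith
  nlinarith

/-- `log Γ(1+x) ≤ 17/16 + (1/2) log x + x log x - x` for real `x ≥ 1` -/
theorem log_Gamma_one_add_le {x : ℝ} (hx : 1 ≤ x) :
    Real.log (Real.Gamma (1 + x)) ≤ 17 / 16 + 1 / 2 * Real.log x + x * Real.log x - x := by
  obtain ⟨n, hn⟩ : ∃ n : ℕ, n = ⌊x⌋₊ := ⟨_, rfl⟩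
  have hn1 : 1 ≤ n := by rw [hn]; exact Nat.le_floor (by exact_mod_cast hx)
  have hnx : (n : ℝ) ≤ x := by rw [hn]; exact Nat.floor_le (by linarith)
  have hxn : x < n + 1 := by rw [hn]; exact Nat.lt_floor_add_one x
  obtain ⟨s, hs⟩ : ∃ s : ℝ, s = x - n := ⟨_, rfl⟩
  have hs0 : 0 ≤ s := by rw [hs]; linarith
  have hs1 : s ≤ 1 := by rw [hs]; linarith
  have hn1' : (1 : ℝ) ≤ n := by exact_mod_cast hn1
  have hm1 : (n : ℝ) + 1 ∈ Ioi (0 : ℝ) := by simp only [mem_Ioi]; linarith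
  have hm2 : (n : ℝ) + 2 ∈ Ioi (0 : ℝ) := by simp only [mem_Ioi]; linarith
  have hsa : 0 ≤ 1 - s := by linarith
  have hsb : (1 - s) + s = 1 := by ring
  have hconv := Real.convexOn_log_Gamma.2 hm1 hm2 hsa hs0 hsb
  simp only [Function.comp_apply, smul_eq_mul] at hconv
  have e1 : (1 - s) * ((n : ℝ) + 1) + s * ((n : ℝ) + 2) = 1 + x := by rw [hs]; ring
  rw [e1] at hconv
  have e2 : Real.Gamma ((n : ℝ) + 1) = (n.factorial : ℝ) := Real.Gamma_nat_eq_factorial n
  have e3 : Real.Gamma ((n : ℝ) + 2) = ((n : ℝ) + 1) * (n.factorial : ℝ) := by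
    have : (n : ℝ) + 2 = ((n : ℝ) + 1) + 1 := by ring
    rw [this, Real.Gamma_add_one (by positivity), e2]
  have hf : (0 : ℝ) < (n.factorial : ℝ) := by positivity
  rw [e2, e3, Real.log_mul (by positivity) hf.ne'] at hconv
  have h1 := ax_log_factorial n hn1
  have h2 := ax_aux hn1' hs0 hs1
  have e4 : (n : ℝ) + s = x := by rw [hs]; ring
  rw [e4] at h2
  nlinarith

/-! ### the upper bound for `|C|²` at the axis -/

private theorem ax_sin_lower {v : ℝ} (hv0 : 0 < v) : v * (1 - v ^ 2 / 6) < Real.sin v := by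
  have := Real.sin_gt_sub_cube hv0
  nlinarith

private theorem ax_exp1 : Real.exp (689 / 500) ≤ 65 / 100 * (2 * Real.pi) := by
  have h1 : Real.exp (689 / 500) = Real.exp 1 * (Real.exp (63 / 1000)) ^ 6 := by
    rw [← Real.exp_nat_mul, ← Real.exp_add]; congr 1; norm_num
  have h2 : Real.exp (63 / 1000) ≤ 1.0673 := by
    have h3 := Real.add_one_le_exp (-(63 / 1000 : ℝ))
    have h4 : Real.exp (63 / 1000 : ℝ) * Real.exp (-(63 / 1000 : ℝ)) = 1 := by rw [← Real.exp_add]; simp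
    have h5 := Real.exp_pos (63 / 1000 : ℝ)
    have h6 : Real.exp (63 / 1000 : ℝ) * (937 / 1000) ≤ 1 := by nlinarith
    norm_num at h6 ⊢
    linarith
  have h3 : (Real.exp (63 / 1000)) ^ 6 ≤ 1.0673 ^ 6 := pow_le_pow_left₀ (Real.exp_pos _).le h2 6
  have h4 := Real.exp_one_lt_d9
  have h5 := Real.pi_gt_d6
  rw [h1]
  have h6 : Real.exp 1 * (Real.exp (63 / 1000)) ^ 6 ≤ 2.7182818286 * 1.0673 ^ 6 :=
    mul_le_mul h4.le h3 (by positivity) (by norm_num)
  refine h6.trans ?_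
  norm_num at h5 ⊢
  linarith

/-- C-side: with `x = v/β`, `(2πβ)^{-1} (Γ(x) (r sin v)^{-x})² ≤ 0.65/v` -/
theorem axis_C_upper {β r v : ℝ} (hv0 : 0 < v) (hv1 : v ^ 2 ≤ 1 / 3) (hβ0 : 0 < β) (hβ : β ^ 2 = 3 / 4 * v ^ 6)
    (hκ : Real.exp (v ^ 2 / 2 - 1) ≤ β * r) :
    1 / (2 * Real.pi * β) * (Real.Gamma (v / β) * (r * Real.sin v) ^ (-(v / β))) ^ 2 ≤ 65 / 100 / v := by
  have hr : 0 < r := by
    have h := (Real.exp_pos (v ^ 2 / 2 - 1)).trans_le hκ
    by_contra hc
    have := mul_nonpos_of_nonneg_of_nonpos hβ0.le (not_lt.1 hc)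
    linarith
  have hpi := Real.pi_pos
  have hu : v ^ 2 / 6 ≤ 1 / 18 := by linarith
  have hsl := ax_sin_lower hv0
  have hsin : 0 < Real.sin v := lt_of_le_of_lt (mul_nonneg hv0.le (by linarith)) hsl
  obtain ⟨x, hx⟩ : ∃ x : ℝ, x = v / β := ⟨_, rfl⟩
  have hx0 : 0 < x := by rw [hx]; positivity
  have hxβ : β * x = v := by rw [hx]; field_simp
  obtain ⟨K, hK⟩ : ∃ K : ℝ, K = x * v ^ 2 := ⟨_, rfl⟩
  have hK0 : 0 < K := by rw [hK]; positivity
  have hK2 : K ^ 2 = 4 / 3 := by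
    have : β ^ 2 * K ^ 2 = v ^ 6 := by
      rw [hK]
      calc β ^ 2 * (x * v ^ 2) ^ 2 = (β * x) ^ 2 * v ^ 4 := by ring
        _ = v ^ 6 := by rw [hxβ]; ring
    rw [hβ] at this
    have hv6 : 0 < v ^ 6 := by positivity
    have h2 : v ^ 6 * (3 / 4 * K ^ 2 - 1) = 0 := by linarith
    rcases mul_eq_zero.1 h2 with h3 | h3
    · exact absurd h3 hv6.ne'
    · linarith
  have hKl : 1.1547 ≤ K := by
    by_contra hc
    push Not at hc
    have : K ^ 2 < 1.1547 ^ 2 := pow_lt_pow_left₀ hc hK0.le (by norm_num)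
    rw [hK2] at this
    norm_num at this
  have hx1 : 1 ≤ x := by
    have h1 : x * v ^ 2 ≤ x * (1 / 3) := by gcongr
    rw [← hK] at h1
    norm_num at hKl
    linarith
  -- the logarithm
  have hG := log_Gamma_one_add_le hx1
  have hGpos : 0 < Real.Gamma x := Real.Gamma_pos_of_pos hx0
  have hG2 : Real.log (Real.Gamma (1 + x)) = Real.log x + Real.log (Real.Gamma x) := by
    rw [add_comm, Real.Gamma_add_one hx0.ne', Real.log_mul hx0.ne' hGpos.ne']
  rw [hG2] at hG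
  have hrs : 0 < r * Real.sin v := by positivity
  rw [← hx]
  have hpos : 0 < 1 / (2 * Real.pi * β) * (Real.Gamma x * (r * Real.sin v) ^ (-x)) ^ 2 := by positivity
  have hlogκ : v ^ 2 / 2 - 1 ≤ Real.log β + Real.log r := by
    rw [← Real.log_mul hβ0.ne' hr.ne']
    exact (Real.le_log_iff_exp_le (by positivity)).2 hκ
  have hlogs : Real.log v - 3 / 17 * v ^ 2 ≤ Real.log (Real.sin v) := by
    have h1 : Real.log (v * (1 - v ^ 2 / 6)) ≤ Real.log (Real.sin v) :=
      Real.log_le_log (mul_pos hv0 (by linarith)) hsl.le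
    rw [Real.log_mul hv0.ne' (by linarith)] at h1
    have h2 := Real.one_sub_inv_le_log_of_pos (show 0 < 1 - v ^ 2 / 6 by linarith)
    have h3 : -(3 / 17 * v ^ 2) ≤ 1 - (1 - v ^ 2 / 6)⁻¹ := by
      have h4 : (1 - v ^ 2 / 6)⁻¹ ≤ 1 + 3 / 17 * v ^ 2 := by
        rw [inv_le_iff_one_le_mul₀ (by linarith)]
        nlinarith [sq_nonneg v]
      linarith
    linarith
  have hlogβ : Real.log β + Real.log x = Real.log v := by
    rw [← Real.log_mul hβ0.ne' hx0.ne', hxβ]
  have hL : Real.log (1 / (2 * Real.pi * β) * (Real.Gamma x * (r * Real.sin v) ^ (-x)) ^ 2) ≤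
      689 / 500 - Real.log (2 * Real.pi) - Real.log v := by
    rw [Real.log_mul (by positivity) (by positivity), Real.log_pow, Real.log_mul hGpos.ne' (by positivity),
      Real.log_rpow hrs, Real.log_mul hr.ne' hsin.ne', one_div, Real.log_inv, Real.log_mul (by positivity) hβ0.ne']
    push_cast
    have h1 : x * (v ^ 2 / 2 - 1) ≤ x * (Real.log β + Real.log r) := by gcongr
    have h2 : x * (Real.log v - 3 / 17 * v ^ 2) ≤ x * Real.log (Real.sin v) := by gcongr
    have h3 : x * (Real.log β + Real.log x) = x * Real.log v := by rw [hlogβ]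
    have h4 : x * (v ^ 2 / 2 - 1) = K / 2 - x := by rw [hK]; ring
    have h5 : x * (Real.log v - 3 / 17 * v ^ 2) = x * Real.log v - 3 / 17 * K := by rw [hK]; ring
    rw [h4] at h1
    rw [h5] at h2
    norm_num at hKl
    nlinarith
  have h6 : Real.log (65 / 100 / v) = Real.log (65 / 100) - Real.log v := Real.log_div (by norm_num) hv0.ne'
  have h7 : 689 / 500 ≤ Real.log (65 / 100) + Real.log (2 * Real.pi) := by
    rw [← Real.log_mul (by norm_num) (by positivity)]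
    exact (Real.le_log_iff_exp_le (by positivity)).2 ax_exp1
  rw [← Real.log_le_log_iff hpos (by positivity), h6]
  linarith

/-! ### the lower bound for `|A|²` at the axis -/

private theorem ax_integrable {β r : ℝ} (hβ0 : 0 < β) (hr : 0 < r) :
    IntervalIntegrable (fun n : ℝ => (2 * r * Real.sin (n * β / 2)) ^ n / Real.Gamma (1 + n)) volume 0 (2 * Real.pi / β) := by
  have hb : 0 ≤ 2 * Real.pi / β := by positivity
  rw [intervalIntegrable_iff_integrableOn_Ioc_of_le hb]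
  have hsinm : ∀ n ∈ Ioc (0:ℝ) (2 * Real.pi / β), 0 ≤ Real.sin (n * β / 2) := by
    intro n hn
    apply Real.sin_nonneg_of_nonneg_of_le_pi
    · have := hn.1; positivity
    · have h := hn.2
      rw [le_div_iff₀ hβ0] at h
      linarith
  have hcont1 : ContinuousOn (fun n : ℝ => (2 * r * Real.sin (n * β / 2)) ^ n) (Ioc 0 (2 * Real.pi / β)) := by
    apply ContinuousOn.rpow
    · fun_prop
    · fun_prop
    · intro n hn; right; exact hn.1
  have hG : ContinuousOn (fun n : ℝ => (Real.Gamma (1 + n))⁻¹) (Icc 0 (2 * Real.pi / β)) := by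
    apply ContinuousOn.inv₀
    · intro n hn
      apply ContinuousAt.continuousWithinAt
      have h1 : ContinuousAt Real.Gamma (1 + n) := by
        apply (Real.differentiableAt_Gamma _).continuousAt
        intro m hm
        have := hn.1
        have : (0:ℝ) ≤ m := Nat.cast_nonneg m
        linarith
      exact ContinuousAt.comp (f := fun n : ℝ => 1 + n) h1 (by fun_prop)
    · intro n hn
      exact (Real.Gamma_pos_of_pos (by linarith [hn.1])).ne'
  have hint1 : IntegrableOn (fun n : ℝ => (2 * r * Real.sin (n * β / 2)) ^ n) (Ioc 0 (2 * Real.pi / β)) := by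
    refine Integrable.of_bound (hcont1.aestronglyMeasurable measurableSet_Ioc) ((1 + 2 * r) ^ (2 * Real.pi / β)) ?_
    · refine (ae_restrict_iff' measurableSet_Ioc).2 (Filter.Eventually.of_forall ?_)
      intro n hn
      have h0 := hsinm n hn
      have h1 : 0 ≤ 2 * r * Real.sin (n * β / 2) := by positivity
      rw [Real.norm_eq_abs, abs_of_nonneg (Real.rpow_nonneg h1 n)]
      calc (2 * r * Real.sin (n * β / 2)) ^ n ≤ (1 + 2 * r) ^ n := by
            apply Real.rpow_le_rpow h1 _ hn.1.le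
            have := Real.sin_le_one (n * β / 2)
            nlinarith
        _ ≤ (1 + 2 * r) ^ (2 * Real.pi / β) := Real.rpow_le_rpow_of_exponent_le (by linarith) hn.2
  obtain ⟨M, hM⟩ := isCompact_Icc.exists_bound_of_continuousOn hG
  have h2 : IntegrableOn (fun n : ℝ => (Real.Gamma (1 + n))⁻¹ * (2 * r * Real.sin (n * β / 2)) ^ n)
      (Ioc 0 (2 * Real.pi / β)) := by
    apply Integrable.bdd_mul hint1 (c := M)
    · exact (hG.mono Ioc_subset_Icc_self).aestronglyMeasurable measurableSet_Ioc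
    · refine (ae_restrict_iff' measurableSet_Ioc).2 (Filter.Eventually.of_forall ?_)
      intro n hn
      exact hM n (Ioc_subset_Icc_self hn)
  refine h2.congr ?_
  refine Filter.Eventually.of_forall ?_
  intro n
  exact (div_eq_inv_mul _ _).symm

/-- A-side: `0.93/v ≤ ∫_0^{2π/β} (2r sin(nβ/2))^n/Γ(1+n) dn` -/
theorem axis_A_lower {β r v : ℝ} (hv0 : 0 < v) (hv1 : v ^ 2 ≤ 1 / 3) (hβ0 : 0 < β) (hβ : β ^ 2 = 3 / 4 * v ^ 6)
    (hκ : Real.exp (v ^ 2 / 2 - 1) ≤ β * r) :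
    93 / 100 / v ≤ ∫ n in (0:ℝ)..(2 * Real.pi / β), (2 * r * Real.sin (n * β / 2)) ^ n / Real.Gamma (1 + n) := by
  have hr : 0 < r := by
    have h := (Real.exp_pos (v ^ 2 / 2 - 1)).trans_le hκ
    by_contra hc
    have := mul_nonpos_of_nonneg_of_nonpos hβ0.le (not_lt.1 hc)
    linarith
  have hpi := Real.pi_gt_three
  have hv2 : 0 < v ^ 2 := by positivity
  obtain ⟨N, hN⟩ : ∃ N : ℝ, N = 19 / 5 / v ^ 2 := ⟨_, rfl⟩
  have hβv : β ≤ v ^ 2 / 2 := by
    apply le_of_pow_le_pow_left₀ (two_ne_zero) (by positivity)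
    rw [hβ]
    have e : 3 / 4 * v ^ 6 = (v ^ 2 / 2) ^ 2 * (3 * v ^ 2) := by ring
    rw [e]
    have : (v ^ 2 / 2) ^ 2 * (3 * v ^ 2) ≤ (v ^ 2 / 2) ^ 2 * 1 := by gcongr; linarith
    linarith
  have hN1 : 1 ≤ N := by
    rw [hN, le_div_iff₀ hv2]; linarith
  have hNv : N * v ^ 2 = 19 / 5 := by rw [hN]; field_simp
  have hNπ : N ≤ 2 * Real.pi / β := by
    rw [le_div_iff₀ hβ0]
    have h1 : N * β ≤ N * (v ^ 2 / 2) := by gcongr
    linarith
  have hint := ax_integrable hβ0 hr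
  -- pointwise bound
  have hpt : ∀ n ∈ Icc (1:ℝ) N, Real.exp (-(17 / 16)) * n ^ (-(1 / 2) : ℝ) ≤
      (2 * r * Real.sin (n * β / 2)) ^ n / Real.Gamma (1 + n) := by
    intro n hn
    have hn0 : 0 < n := by linarith [hn.1]
    obtain ⟨y, hy⟩ : ∃ y : ℝ, y = n * β / 2 := ⟨_, rfl⟩
    have hy0 : 0 < y := by rw [hy]; positivity
    have hy2 : y ^ 2 ≤ 2.7075 * v ^ 2 := by
      have h1 : y ≤ N * β / 2 := by rw [hy]; gcongr; exact hn.2
      have h2 : y ^ 2 ≤ (N * β / 2) ^ 2 := pow_le_pow_left₀ hy0.le h1 2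
      have h3 : (N * β / 2) ^ 2 = (N * v ^ 2) ^ 2 * v ^ 2 * (3 / 16) := by
        have : (N * β / 2) ^ 2 = N ^ 2 * β ^ 2 / 4 := by ring
        rw [this, hβ]; ring
      rw [h3, hNv] at h2
      norm_num at h2 ⊢
      linarith
    have hsl : y * (1 - y ^ 2 / 6) < Real.sin y := by
      have := Real.sin_gt_sub_cube hy0
      nlinarith
    have hw : Real.exp (-(v ^ 2 / 2)) ≤ 1 - y ^ 2 / 6 := by
      have h1 := Real.quadratic_le_exp_of_nonneg (show 0 ≤ v ^ 2 / 2 by positivity)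
      have h2 : Real.exp (v ^ 2 / 2) * Real.exp (-(v ^ 2 / 2)) = 1 := by rw [← Real.exp_add]; simp
      have h3 : 1 ≤ (1 + v ^ 2 / 2 + (v ^ 2 / 2) ^ 2 / 2) * (1 - y ^ 2 / 6) := by
        have h4 : 1 - 0.45125 * v ^ 2 ≤ 1 - y ^ 2 / 6 := by norm_num at hy2 ⊢; linarith
        have h5 : 1 ≤ (1 + v ^ 2 / 2 + (v ^ 2 / 2) ^ 2 / 2) * (1 - 0.45125 * v ^ 2) := by
          obtain ⟨w, hw⟩ : ∃ w : ℝ, w = v ^ 2 := ⟨_, rfl⟩
          rw [← hw] at hv1 hv2 ⊢
          have e : (1 + w / 2 + (w / 2) ^ 2 / 2) * (1 - 0.45125 * w) =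
              1 + w * (0.04875 - 0.100625 * w - 0.05640625 * w ^ 2) := by ring
          rw [e]
          have h6 : w ^ 2 ≤ 1 / 9 := by nlinarith
          have h7 : 0 ≤ 0.04875 - 0.100625 * w - 0.05640625 * w ^ 2 := by norm_num; linarith
          have := mul_nonneg hv2.le h7
          linarith
        refine h5.trans ?_
        gcongr
      have h6 : 0 < Real.exp (-(v ^ 2 / 2)) := Real.exp_pos _
      have h7 : 0 < 1 - y ^ 2 / 6 := by
        norm_num at hy2
        linarith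
      calc Real.exp (-(v ^ 2 / 2)) ≤ Real.exp (-(v ^ 2 / 2)) * ((1 + v ^ 2 / 2 + (v ^ 2 / 2) ^ 2 / 2) * (1 - y ^ 2 / 6)) := by
            nlinarith
        _ ≤ Real.exp (-(v ^ 2 / 2)) * (Real.exp (v ^ 2 / 2) * (1 - y ^ 2 / 6)) := by gcongr
        _ = 1 - y ^ 2 / 6 := by
          rw [← mul_assoc, mul_comm (Real.exp (-(v ^ 2 / 2))), h2, one_mul]
    have hbase : n * Real.exp (-1) ≤ 2 * r * Real.sin y := by
      have h1 : 2 * r * (y * Real.exp (-(v ^ 2 / 2))) ≤ 2 * r * Real.sin y := by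
        have : y * Real.exp (-(v ^ 2 / 2)) ≤ y * (1 - y ^ 2 / 6) := by gcongr
        have : y * Real.exp (-(v ^ 2 / 2)) ≤ Real.sin y := by linarith
        gcongr
      have h2 : 2 * r * (y * Real.exp (-(v ^ 2 / 2))) = n * ((β * r) * Real.exp (-(v ^ 2 / 2))) := by rw [hy]; ring
      have h3 : Real.exp (v ^ 2 / 2 - 1) * Real.exp (-(v ^ 2 / 2)) ≤ (β * r) * Real.exp (-(v ^ 2 / 2)) := by gcongr
      have h4 : Real.exp (v ^ 2 / 2 - 1) * Real.exp (-(v ^ 2 / 2)) = Real.exp (-1) := by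
        rw [← Real.exp_add]; congr 1; ring
      rw [h4] at h3
      calc n * Real.exp (-1) ≤ n * ((β * r) * Real.exp (-(v ^ 2 / 2))) := by gcongr
        _ ≤ _ := by rw [← h2]; exact h1
    have hbase0 : 0 < 2 * r * Real.sin y := lt_of_lt_of_le (by positivity) hbase
    have hGpos : 0 < Real.Gamma (1 + n) := Real.Gamma_pos_of_pos (by linarith)
    have hG := log_Gamma_one_add_le hn.1
    rw [← hy, ← Real.log_le_log_iff (by positivity) (by positivity), Real.log_mul (by positivity) (by positivity),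
      Real.log_exp, Real.log_rpow hn0, Real.log_div (by positivity) hGpos.ne', Real.log_rpow hbase0]
    have hlb : Real.log n - 1 ≤ Real.log (2 * r * Real.sin y) := by
      have h1 := Real.log_le_log (by positivity) hbase
      rw [Real.log_mul hn0.ne' (Real.exp_pos _).ne', Real.log_exp] at h1
      linarith
    have h2 : n * (Real.log n - 1) ≤ n * Real.log (2 * r * Real.sin y) := by gcongr
    linarith
  have hnonneg : ∀ n ∈ Ioc (0:ℝ) (2 * Real.pi / β), 0 ≤ (2 * r * Real.sin (n * β / 2)) ^ n / Real.Gamma (1 + n) := by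
    intro n hn
    have h1 : 0 ≤ Real.sin (n * β / 2) := by
      apply Real.sin_nonneg_of_nonneg_of_le_pi
      · have := hn.1; positivity
      · have h := hn.2
        rw [le_div_iff₀ hβ0] at h
        linarith
    have h2 : 0 < Real.Gamma (1 + n) := Real.Gamma_pos_of_pos (by linarith [hn.1])
    positivity
  -- restrict to [1,N]
  have hsub : ∫ n in (1:ℝ)..N, (2 * r * Real.sin (n * β / 2)) ^ n / Real.Gamma (1 + n) ≤
      ∫ n in (0:ℝ)..(2 * Real.pi / β), (2 * r * Real.sin (n * β / 2)) ^ n / Real.Gamma (1 + n) := by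
    apply intervalIntegral.integral_mono_interval (by norm_num) hN1 hNπ
    · refine (ae_restrict_iff' measurableSet_Ioc).2 (Filter.Eventually.of_forall ?_)
      intro n hn
      exact hnonneg n hn
    · exact hint
  have hlow : ∫ n in (1:ℝ)..N, Real.exp (-(17 / 16)) * n ^ (-(1 / 2) : ℝ) ≤
      ∫ n in (1:ℝ)..N, (2 * r * Real.sin (n * β / 2)) ^ n / Real.Gamma (1 + n) := by
    apply intervalIntegral.integral_mono_on hN1
    · apply ContinuousOn.intervalIntegrable
      apply ContinuousOn.mul continuousOn_const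
      apply ContinuousOn.rpow_const continuousOn_id
      intro n hn
      left
      rw [uIcc_of_le hN1] at hn
      simp only [id]
      linarith [hn.1]
    · apply hint.mono_set
      rw [uIcc_of_le hN1, uIcc_of_le (by positivity)]
      exact Icc_subset_Icc (by norm_num) hNπ
    · exact hpt
  have hval : ∫ n in (1:ℝ)..N, Real.exp (-(17 / 16)) * n ^ (-(1 / 2) : ℝ) =
      Real.exp (-(17 / 16)) * (2 * (Real.sqrt N - 1)) := by
    rw [intervalIntegral.integral_const_mul, integral_rpow (Or.inl (by norm_num))]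
    congr 1
    have e1 : (-(1 / 2) : ℝ) + 1 = 1 / 2 := by norm_num
    rw [e1, Real.one_rpow, ← Real.sqrt_eq_rpow]
    ring
  have hsq : 1.9493 / v ≤ Real.sqrt N := by
    apply Real.le_sqrt_of_sq_le
    rw [hN, div_pow]
    gcongr
    norm_num
  have hv3 : v ≤ 0.5774 := by
    by_contra hc
    push Not at hc
    have : (0.5774:ℝ) ^ 2 < v ^ 2 := pow_lt_pow_left₀ hc (by norm_num) (by norm_num)
    norm_num at this
    linarith
  have hexp : (0.3448 : ℝ) ≤ Real.exp (-(17 / 16)) := by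
    have h1 : Real.exp (-(17 / 16)) * (Real.exp 1 * Real.exp (1 / 16)) = 1 := by
      rw [← Real.exp_add, ← Real.exp_add]; norm_num
    have h2 : Real.exp (1 / 16 : ℝ) ≤ 16 / 15 := by
      have h3 := Real.add_one_le_exp (-(1 / 16 : ℝ))
      have h4 : Real.exp (1 / 16 : ℝ) * Real.exp (-(1 / 16 : ℝ)) = 1 := by rw [← Real.exp_add]; simp
      have h5 := Real.exp_pos (1 / 16 : ℝ)
      have h6 : Real.exp (1 / 16 : ℝ) * (15 / 16) ≤ 1 := by nlinarith
      linarith
    have h3 := Real.exp_one_lt_d9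
    have h4 : Real.exp 1 * Real.exp (1 / 16) ≤ 2.7182818286 * (16 / 15) :=
      mul_le_mul h3.le h2 (Real.exp_pos _).le (by norm_num)
    have h5 := Real.exp_pos (-(17 / 16) : ℝ)
    have h6 : 1 ≤ Real.exp (-(17 / 16)) * (2.7182818286 * (16 / 15)) := by
      rw [← h1]; gcongr
    norm_num at h6 ⊢
    linarith
  rw [hval] at hlow
  have hfin : 93 / 100 / v ≤ Real.exp (-(17 / 16)) * (2 * (Real.sqrt N - 1)) := by
    have h1 : 1 ≤ 0.5774 / v := by rw [le_div_iff₀ hv0]; linarith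
    have h2 : 1.3719 / v ≤ Real.sqrt N - 1 := by
      have : 1.9493 / v - 0.5774 / v = 1.3719 / v := by rw [← sub_div]; norm_num
      linarith
    have h3 : 0.3448 * (2 * (1.3719 / v)) ≤ Real.exp (-(17 / 16)) * (2 * (Real.sqrt N - 1)) := by
      apply mul_le_mul hexp (by linarith) (by positivity) (Real.exp_pos _).le
    refine le_trans ?_ h3
    have : 0.3448 * (2 * (1.3719 / v)) = 0.3448 * 2 * 1.3719 / v := by ring
    rw [this]
    gcongr
    norm_num
  linarith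

/-- the two sides together: the ratio is at least `1.43` -/
theorem axis_ratio {β r v : ℝ} (hv0 : 0 < v) (hv1 : v ^ 2 ≤ 1 / 3) (hβ0 : 0 < β) (hβ : β ^ 2 = 3 / 4 * v ^ 6)
    (hκ : Real.exp (v ^ 2 / 2 - 1) ≤ β * r) :
    143 / 100 * (1 / (2 * Real.pi * β) * (Real.Gamma (v / β) * (r * Real.sin v) ^ (-(v / β))) ^ 2) ≤
      ∫ n in (0:ℝ)..(2 * Real.pi / β), (2 * r * Real.sin (n * β / 2)) ^ n / Real.Gamma (1 + n) := by
  have h1 := axis_C_upper hv0 hv1 hβ0 hβ hκ
  have h2 := axis_A_lower hv0 hv1 hβ0 hβ hκ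
  have h3 : 143 / 100 * (65 / 100 / v) ≤ 93 / 100 / v := by
    have : 143 / 100 * (65 / 100 / v) = (143 / 100 * (65 / 100)) / v := by ring
    rw [this]
    gcongr
    norm_num
  linarith

/-- existence of the parameter `v` -/
theorem exists_axis_param {β : ℝ} (hβ0 : 0 < β) (hβ1 : β ≤ 1 / 6) :
    ∃ v : ℝ, 0 < v ∧ v ^ 2 ≤ 1 / 3 ∧ β ^ 2 = 3 / 4 * v ^ 6 ∧ (v ^ 2 / 2) ^ 3 = β ^ 2 / 6 := by
  refine ⟨(4 / 3 * β ^ 2) ^ (1 / 6 : ℝ), by positivity, ?_, ?_, ?_⟩
  · have e : ((4 / 3 * β ^ 2) ^ (1 / 6 : ℝ)) ^ 2 = (4 / 3 * β ^ 2) ^ (1 / 3 : ℝ) := by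
      rw [← Real.rpow_natCast, ← Real.rpow_mul (by positivity)]; norm_num
    rw [e]
    have h1 : 4 / 3 * β ^ 2 ≤ (1 / 3) ^ 3 := by
      have : β ^ 2 ≤ (1 / 6) ^ 2 := pow_le_pow_left₀ hβ0.le hβ1 2
      linarith
    calc (4 / 3 * β ^ 2) ^ (1 / 3 : ℝ) ≤ ((1 / 3 : ℝ) ^ 3) ^ (1 / 3 : ℝ) :=
          Real.rpow_le_rpow (by positivity) h1 (by norm_num)
      _ = 1 / 3 := by
        rw [← Real.rpow_natCast, ← Real.rpow_mul (by positivity)]; norm_num
  · have e : ((4 / 3 * β ^ 2) ^ (1 / 6 : ℝ)) ^ 6 = 4 / 3 * β ^ 2 := by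
      rw [← Real.rpow_natCast, ← Real.rpow_mul (by positivity)]; norm_num
    rw [e]; ring
  · have e : ((4 / 3 * β ^ 2) ^ (1 / 6 : ℝ)) ^ 6 = 4 / 3 * β ^ 2 := by
      rw [← Real.rpow_natCast, ← Real.rpow_mul (by positivity)]; norm_num
    have e2 : (((4 / 3 * β ^ 2) ^ (1 / 6 : ℝ)) ^ 2 / 2) ^ 3 = ((4 / 3 * β ^ 2) ^ (1 / 6 : ℝ)) ^ 6 / 8 := by ring
    rw [e2, e]; ring

end Sok
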