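import Pool.Agent.Lib.MP_816dec_an.A2Kernel

/-!
MP_816dec_an, task A4 (first half): on `|q| = 1`, `q = e^{iβ}`, `0 < β ≤ 1/16`, the function `F(.;q)` has no
zero in `β|z| ≤ e^{δ-1}`, whenever `δ^3 ≤ β^2/6`. On the circle `|z| = r` one has
`F(re^{i(θ₀+v)}) conj F(re^{i(θ₀-v)}) = Σ b_n e^{inv}`, `b_n = (2r sin(nβ/2))^n/n!`, and the `b_n` decrease
(Eneström-Kakeya).
-/

set_option autoImplicit false

open Complex Set Filter Topology

namespace Sok

/-! ### real lemmas -/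

private theorem zf_cos_le_sin {x : ℝ} (h0 : 0 ≤ x) (hπ : x ≤ Real.pi) : x * Real.cos x ≤ Real.sin x := by
  have hd : ∀ y : ℝ, HasDerivAt (fun x : ℝ => Real.sin x - x * Real.cos x) (y * Real.sin y) y := by
    intro y
    refine ((Real.hasDerivAt_sin y).sub ((hasDerivAt_id y).mul (Real.hasDerivAt_cos y))).congr_deriv ?_
    simp only [id]
    ring
  have hmono : MonotoneOn (fun x : ℝ => Real.sin x - x * Real.cos x) (Set.Icc 0 Real.pi) := by
    apply monotoneOn_of_deriv_nonneg (convex_Icc _ _)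
    · exact fun y _ => (hd y).continuousAt.continuousWithinAt
    · exact fun y _ => (hd y).differentiableAt.differentiableWithinAt
    · intro y hy
      rw [interior_Icc] at hy
      rw [(hd y).deriv]
      exact mul_nonneg hy.1.le (Real.sin_nonneg_of_nonneg_of_le_pi hy.1.le hy.2.le)
  have h := hmono ⟨le_refl 0, Real.pi_pos.le⟩ ⟨h0, hπ⟩ h0
  simp only [Real.sin_zero, zero_mul, sub_zero] at h
  linarith

/-- `x cot x ≤ 1 - x²/3` -/
private theorem zf_cot {x : ℝ} (h0 : 0 ≤ x) (hπ : x ≤ Real.pi) :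
    x * Real.cos x ≤ (1 - x ^ 2 / 3) * Real.sin x := by
  have hd : ∀ y : ℝ, HasDerivAt (fun x : ℝ => (1 - x ^ 2 / 3) * Real.sin x - x * Real.cos x)
      (y / 3 * (Real.sin y - y * Real.cos y)) y := by
    intro y
    have h1 : HasDerivAt (fun x : ℝ => 1 - x ^ 2 / 3) (-(2 * y / 3)) y := by
      have := ((hasDerivAt_pow 2 y).div_const 3).const_sub 1
      refine this.congr_deriv ?_
      simp
    refine ((h1.mul (Real.hasDerivAt_sin y)).sub ((hasDerivAt_id y).mul (Real.hasDerivAt_cos y))).congr_deriv ?_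
    simp only [id]
    ring
  have hmono : MonotoneOn (fun x : ℝ => (1 - x ^ 2 / 3) * Real.sin x - x * Real.cos x) (Set.Icc 0 Real.pi) := by
    apply monotoneOn_of_deriv_nonneg (convex_Icc _ _)
    · exact fun y _ => (hd y).continuousAt.continuousWithinAt
    · exact fun y _ => (hd y).differentiableAt.differentiableWithinAt
    · intro y hy
      rw [interior_Icc] at hy
      rw [(hd y).deriv]
      have := zf_cos_le_sin hy.1.le hy.2.le
      exact mul_nonneg (by linarith [hy.1]) (by linarith)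
  have h := hmono ⟨le_refl 0, Real.pi_pos.le⟩ ⟨h0, hπ⟩ h0
  simp only [Real.sin_zero, mul_zero, zero_mul, sub_zero] at h
  linarith

/-- `sin x ≤ x exp(-x²/6)` -/
private theorem zf_sin {x : ℝ} (h0 : 0 < x) (hπ : x ≤ Real.pi) :
    Real.sin x ≤ x * Real.exp (-(x ^ 2 / 6)) := by
  have hd : ∀ y : ℝ, y ≠ 0 → HasDerivAt (fun x : ℝ => Real.sin x * Real.exp (x ^ 2 / 6) / x)
      (-(Real.exp (y ^ 2 / 6) * ((1 - y ^ 2 / 3) * Real.sin y - y * Real.cos y) / y ^ 2)) y := by
    intro y hy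
    have h1 : HasDerivAt (fun x : ℝ => x ^ 2 / 6) (y / 3) y := by
      have := (hasDerivAt_pow 2 y).div_const 6
      refine this.congr_deriv ?_
      simp
      ring
    refine (((Real.hasDerivAt_sin y).mul h1.exp).div (hasDerivAt_id y) hy).congr_deriv ?_
    simp only [id, Pi.mul_apply]
    field_simp
    ring
  have hanti : AntitoneOn (fun x : ℝ => Real.sin x * Real.exp (x ^ 2 / 6) / x) (Set.Ioc 0 Real.pi) := by
    apply antitoneOn_of_deriv_nonpos (convex_Ioc _ _)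
    · exact fun y hy => (hd y hy.1.ne').continuousAt.continuousWithinAt
    · intro y hy
      rw [interior_Ioc] at hy
      exact (hd y hy.1.ne').differentiableAt.differentiableWithinAt
    · intro y hy
      rw [interior_Ioc] at hy
      rw [(hd y hy.1.ne').deriv]
      have := zf_cot hy.1.le hy.2.le
      have h2 : 0 ≤ Real.exp (y ^ 2 / 6) * ((1 - y ^ 2 / 3) * Real.sin y - y * Real.cos y) / y ^ 2 := by
        apply div_nonneg (mul_nonneg (Real.exp_pos _).le (by linarith)) (by positivity)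
      linarith
  have hlim : Tendsto (fun ε : ℝ => Real.exp (ε ^ 2 / 6)) (𝓝[>] 0) (𝓝 1) := by
    have hc : ContinuousAt (fun ε : ℝ => Real.exp (ε ^ 2 / 6)) 0 := by fun_prop
    have := hc.tendsto
    simp only [ne_eq, OfNat.ofNat_ne_zero, not_false_eq_true, zero_pow, zero_div, Real.exp_zero] at this
    exact this.mono_left nhdsWithin_le_nhds
  have hle : Real.sin x * Real.exp (x ^ 2 / 6) / x ≤ 1 := by
    refine ge_of_tendsto hlim ?_
    have : Set.Ioo (0:ℝ) x ∈ 𝓝[>] (0:ℝ) := Ioo_mem_nhdsGT h0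
    filter_upwards [this] with ε hε
    have h1 := hanti ⟨hε.1, hε.2.le.trans hπ⟩ ⟨h0, hπ⟩ hε.2.le
    simp only at h1
    refine h1.trans ?_
    rw [div_le_iff₀ hε.1]
    have := Real.sin_le hε.1.le
    have := Real.exp_pos (ε ^ 2 / 6)
    nlinarith
  rw [div_le_iff₀ h0, one_mul] at hle
  rw [Real.exp_neg, ← div_eq_mul_inv, le_div_iff₀ (Real.exp_pos _)]
  exact hle

/-- `log(1+y) ≤ y - y²/2 + y³/3`, in exponential form -/
private theorem zf_log {y : ℝ} (hy : -1 < y) : 1 + y ≤ Real.exp (y - y ^ 2 / 2 + y ^ 3 / 3) := by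
  have hd : ∀ u : ℝ, -1 < u → HasDerivAt (fun u : ℝ => (u - u ^ 2 / 2 + u ^ 3 / 3) - Real.log (1 + u))
      (u ^ 3 / (1 + u)) u := by
    intro u hu
    have h0 : (1 : ℝ) + u ≠ 0 := by linarith
    have h1 : HasDerivAt (fun u : ℝ => u - u ^ 2 / 2 + u ^ 3 / 3) (1 - u + u ^ 2) u := by
      have := ((hasDerivAt_id u).sub ((hasDerivAt_pow 2 u).div_const 2)).add ((hasDerivAt_pow 3 u).div_const 3)
      refine this.congr_deriv ?_
      simp
    have h2 : HasDerivAt (fun u : ℝ => Real.log (1 + u)) (1 / (1 + u)) u :=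
      ((hasDerivAt_id u).const_add 1).log h0
    refine (h1.sub h2).congr_deriv ?_
    field_simp
    ring
  have key : 0 ≤ (y - y ^ 2 / 2 + y ^ 3 / 3) - Real.log (1 + y) := by
    rcases le_or_gt 0 y with h0 | h0
    · have hmono : MonotoneOn (fun u : ℝ => (u - u ^ 2 / 2 + u ^ 3 / 3) - Real.log (1 + u)) (Set.Ici 0) := by
        apply monotoneOn_of_deriv_nonneg (convex_Ici _)
        · exact fun u hu => (hd u (by simp only [Set.mem_Ici] at hu; linarith)).continuousAt.continuousWithinAt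
        · intro u hu
          rw [interior_Ici] at hu
          exact (hd u (by simp only [Set.mem_Ioi] at hu; linarith)).differentiableAt.differentiableWithinAt
        · intro u hu
          rw [interior_Ici] at hu
          simp only [Set.mem_Ioi] at hu
          rw [(hd u (by linarith)).deriv]
          positivity
      have h := hmono (by simp : (0:ℝ) ∈ Set.Ici 0) (by simpa using h0 : y ∈ Set.Ici 0) h0
      simpa using h
    · have hanti : AntitoneOn (fun u : ℝ => (u - u ^ 2 / 2 + u ^ 3 / 3) - Real.log (1 + u)) (Set.Ioc (-1) 0) := by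
        apply antitoneOn_of_deriv_nonpos (convex_Ioc _ _)
        · exact fun u hu => (hd u hu.1).continuousAt.continuousWithinAt
        · intro u hu
          rw [interior_Ioc] at hu
          exact (hd u hu.1).differentiableAt.differentiableWithinAt
        · intro u hu
          rw [interior_Ioc] at hu
          rw [(hd u hu.1).deriv]
          have h1 : u ^ 3 ≤ 0 := by
            have : u ^ 3 = u * u ^ 2 := by ring
            rw [this]
            exact mul_nonpos_of_nonpos_of_nonneg hu.2.le (sq_nonneg _)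
          exact div_nonpos_of_nonpos_of_nonneg h1 (by linarith [hu.1])
      have h := hanti ⟨hy, h0.le⟩ ⟨by norm_num, le_refl 0⟩ h0.le
      simpa using h
  calc 1 + y = Real.exp (Real.log (1 + y)) := (Real.exp_log (by linarith)).symm
    _ ≤ _ := Real.exp_le_exp.2 (by linarith)

/-- the coefficients `b_n = (2r sin(nh))^n/n!` -/
private noncomputable def zb (r h : ℝ) (n : ℕ) : ℝ := (2 * r * Real.sin (n * h)) ^ n / (n.factorial : ℝ)

private theorem zf_delta {h δ : ℝ} (hh0 : 0 < h) (hh1 : h ≤ 1 / 32) (hδ : δ ^ 3 ≤ (2 * h) ^ 2 / 6) :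
    δ ≤ 868 / 10000 := by
  by_contra hc
  push Not at hc
  have h1 : (868 / 10000 : ℝ) ^ 3 < δ ^ 3 := pow_lt_pow_left₀ hc (by norm_num) (by norm_num)
  have h2 : h ^ 2 ≤ (1 / 32) ^ 2 := pow_le_pow_left₀ hh0.le hh1 2
  norm_num at h1 h2
  nlinarith

/-- the exponent is nonpositive -/
private theorem zf_expo {h δ N : ℝ} (hh0 : 0 < h) (hh1 : h ≤ 1 / 32) (hδ : δ ^ 3 ≤ (2 * h) ^ 2 / 6)
    (hN : N = 1 ∨ N = 2 ∨ N = 3 ∨ N = 4 ∨ N = 5 ∨ 6 ≤ N) :
    δ ≤ N ^ 2 * h ^ 2 / 2 + 1 / (2 * N) - 1 / (3 * N ^ 2) := by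
  have hd := zf_delta hh0 hh1 hδ
  have hh2 : 0 < h ^ 2 := by positivity
  rcases hN with rfl | rfl | rfl | rfl | rfl | hN
  · norm_num; linarith
  · norm_num; linarith
  · norm_num; linarith
  · norm_num; linarith
  · rcases le_or_gt δ (13 / 150) with hc | hc
    · norm_num; linarith
    · have h1 : (13 / 150 : ℝ) ^ 3 < δ ^ 3 := pow_lt_pow_left₀ hc (by norm_num) (by norm_num)
      norm_num at h1 ⊢
      nlinarith
  · have hN0 : 0 < N := by linarith
    obtain ⟨a, ha⟩ : ∃ a : ℝ, a = 2 / (9 * N) := ⟨_, rfl⟩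
    obtain ⟨c, hc⟩ : ∃ c : ℝ, c = N ^ 2 * h ^ 2 / 2 := ⟨_, rfl⟩
    have ha0 : 0 < a := by rw [ha]; positivity
    have hc0 : 0 < c := by rw [hc]; positivity
    have hac : 27 * a ^ 2 * c = (2 * h) ^ 2 / 6 := by
      rw [ha, hc]; field_simp; norm_num
    have h3 : δ ^ 3 ≤ (2 * a + c) ^ 3 := by
      have : (2 * a + c) ^ 3 = 27 * a ^ 2 * c + (a - c) ^ 2 * (8 * a + c) := by ring
      rw [this, hac]
      have : 0 ≤ (a - c) ^ 2 * (8 * a + c) := by positivity
      linarith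
    have h4 : δ ≤ 2 * a + c := le_of_pow_le_pow_left₀ (by norm_num) (by positivity) h3
    have h5 : 2 * a ≤ 1 / (2 * N) - 1 / (3 * N ^ 2) := by
      rw [ha, le_sub_iff_add_le, ← sub_nonneg]
      have : 1 / (2 * N) - (2 * (2 / (9 * N)) + 1 / (3 * N ^ 2)) = (N - 6) / (18 * N ^ 2) := by
        field_simp
        ring
      rw [this]
      apply div_nonneg (by linarith) (by positivity)
    rw [hc] at h4
    linarith

private theorem zf_next {h N : ℝ} (hh0 : 0 < h) (hh1 : h ≤ 1 / 32) (hN : 1 ≤ N) (hNπ : (N + 1) * h ≤ Real.pi) :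
    Real.sin ((N + 1) * h) ≤ (1 + (1 / N - N * h ^ 2 / 3)) * Real.sin (N * h) := by
  have hN0 : 0 < N := by linarith
  have hx0 : 0 < N * h := by positivity
  have hxπ : N * h ≤ Real.pi := by nlinarith
  have hs := Real.sin_nonneg_of_nonneg_of_le_pi hx0.le hxπ
  have hc := zf_cot hx0.le hxπ
  have h1 : Real.cos (N * h) ≤ (1 / (N * h) - N * h / 3) * Real.sin (N * h) := by
    have e : Real.cos (N * h) = (N * h * Real.cos (N * h)) / (N * h) := by field_simp
    rw [e, div_le_iff₀ hx0]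
    have e2 : (1 / (N * h) - N * h / 3) * Real.sin (N * h) * (N * h) = (1 - (N * h) ^ 2 / 3) * Real.sin (N * h) := by
      field_simp
    rw [e2]
    exact hc
  have hpi := Real.pi_le_four
  have hsh0 : 0 ≤ Real.sin h := Real.sin_nonneg_of_nonneg_of_le_pi hh0.le (by linarith [Real.pi_gt_three])
  have hsh1 : Real.sin h ≤ h := Real.sin_le hh0.le
  have hsh2 : h - h ^ 3 / 6 < Real.sin h := Real.sin_gt_sub_cube hh0
  have hch2 : Real.cos h ≤ 1 - h ^ 2 / 8 := by
    have h2 : h / 2 - (h / 2) ^ 3 / 6 < Real.sin (h / 2) := Real.sin_gt_sub_cube (by positivity)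
    have h3 : Real.cos h = 1 - 2 * Real.sin (h / 2) ^ 2 := by
      have e : h = 2 * (h / 2) := by ring
      have h4 := Real.cos_two_mul' (h / 2)
      rw [← e] at h4
      have h5 := Real.sin_sq_add_cos_sq (h / 2)
      linarith
    have h6 : h / 4 ≤ Real.sin (h / 2) := by
      have h7 : (h / 2) ^ 3 ≤ h * (1 / 32) ^ 2 := by
        have e : (h / 2) ^ 3 = h * h ^ 2 / 8 := by ring
        have h8 : h ^ 2 ≤ (1 / 32) ^ 2 := pow_le_pow_left₀ hh0.le hh1 2
        rw [e]; nlinarith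
      nlinarith
    have h9 : (h / 4) ^ 2 ≤ Real.sin (h / 2) ^ 2 := pow_le_pow_left₀ (by positivity) h6 2
    rw [h3]; nlinarith
  have e : (N + 1) * h = N * h + h := by ring
  rw [e, Real.sin_add]
  obtain ⟨c, hcdef⟩ : ∃ c : ℝ, c = 1 / (N * h) - N * h / 3 := ⟨_, rfl⟩
  rw [← hcdef] at h1
  have hy : 1 / N - N * h ^ 2 / 3 = h * c := by
    rw [hcdef]; field_simp
  rw [hy]
  have hcl : -(4 / 3) ≤ c := by
    rw [hcdef]
    have : 0 < 1 / (N * h) := by positivity
    linarith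
  have h2 : Real.sin h * Real.cos (N * h) ≤ Real.sin h * (c * Real.sin (N * h)) := by gcongr
  have h3 : 0 ≤ (1 - Real.cos h) + (h - Real.sin h) * c := by
    have h4 : (h - Real.sin h) * (-(4 / 3)) ≤ (h - Real.sin h) * c := by
      apply mul_le_mul_of_nonneg_left hcl (by linarith)
    have h5 : h ^ 3 ≤ h ^ 2 * (1 / 32) := by
      have : h ^ 3 = h ^ 2 * h := by ring
      rw [this]; gcongr
    nlinarith [sq_nonneg h]
  nlinarith

private theorem zf_ratio {r h δ : ℝ} (hr : 0 ≤ r) (hh0 : 0 < h) (hh1 : h ≤ 1 / 32)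
    (hδ : δ ^ 3 ≤ (2 * h) ^ 2 / 6) (hκ : 2 * h * r ≤ Real.exp (δ - 1)) {n : ℕ} (hn : 1 ≤ n)
    (hnπ : ((n : ℝ) + 1) * h ≤ Real.pi) : zb r h (n + 1) ≤ zb r h n := by
  obtain ⟨N, hN⟩ : ∃ N : ℝ, N = n := ⟨_, rfl⟩
  rw [← hN] at hnπ
  have hN1 : 1 ≤ N := by rw [hN]; exact_mod_cast hn
  have hN0 : 0 < N := by linarith
  have hcases : N = 1 ∨ N = 2 ∨ N = 3 ∨ N = 4 ∨ N = 5 ∨ 6 ≤ N := by
    rw [hN]
    have : n = 1 ∨ n = 2 ∨ n = 3 ∨ n = 4 ∨ n = 5 ∨ 6 ≤ n := by omega
    rcases this with rfl | rfl | rfl | rfl | rfl | h6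
    · left; norm_num
    · right; left; norm_num
    · right; right; left; norm_num
    · right; right; right; left; norm_num
    · right; right; right; right; left; norm_num
    · right; right; right; right; right; exact_mod_cast h6
  have hexpo := zf_expo hh0 hh1 hδ hcases
  have hnext := zf_next hh0 hh1 hN1 hnπ
  have hs1 : 0 ≤ Real.sin ((N + 1) * h) := Real.sin_nonneg_of_nonneg_of_le_pi (by positivity) hnπ
  have hs0 : 0 ≤ Real.sin (N * h) := Real.sin_nonneg_of_nonneg_of_le_pi (by positivity) (by nlinarith)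
  have hsx := zf_sin (x := (N + 1) * h) (by positivity) hnπ
  obtain ⟨y, hy⟩ : ∃ y : ℝ, y = 1 / N - N * h ^ 2 / 3 := ⟨_, rfl⟩
  rw [← hy] at hnext
  have hpi := Real.pi_le_four
  have hy1 : -1 < y := by
    rw [hy]
    have h1 : 0 < 1 / N := by positivity
    have h2 : N * h ^ 2 / 3 < 1 := by nlinarith
    linarith
  have hlog := zf_log hy1
  -- first factor
  have hf1 : 2 * r * Real.sin ((N + 1) * h) / (N + 1) ≤ Real.exp (δ - 1 - ((N + 1) * h) ^ 2 / 6) := by
    rw [div_le_iff₀ (by linarith)]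
    have h1 : 2 * r * Real.sin ((N + 1) * h) ≤ 2 * r * ((N + 1) * h * Real.exp (-(((N + 1) * h) ^ 2 / 6))) := by
      gcongr
    have h2 : 2 * r * ((N + 1) * h * Real.exp (-(((N + 1) * h) ^ 2 / 6))) =
        (2 * h * r) * Real.exp (-(((N + 1) * h) ^ 2 / 6)) * (N + 1) := by ring
    have h3 : Real.exp (δ - 1 - ((N + 1) * h) ^ 2 / 6) = Real.exp (δ - 1) * Real.exp (-(((N + 1) * h) ^ 2 / 6)) := by
      rw [← Real.exp_add]; congr 1
    rw [h3]
    refine h1.trans (h2.le.trans ?_)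
    gcongr
  -- second factor
  have hf2 : (1 + y) ^ n ≤ Real.exp (N * (y - y ^ 2 / 2 + y ^ 3 / 3)) := by
    have h1 : (1 + y) ^ n ≤ (Real.exp (y - y ^ 2 / 2 + y ^ 3 / 3)) ^ n := by
      apply pow_le_pow_left₀ (by linarith) hlog
    rw [← Real.exp_nat_mul] at h1
    rw [hN]
    exact h1
  have hE : (δ - 1 - ((N + 1) * h) ^ 2 / 6) + N * (y - y ^ 2 / 2 + y ^ 3 / 3) ≤ 0 := by
    have h1 : y ≤ 1 / N := by
      rw [hy]
      have : 0 ≤ N * h ^ 2 / 3 := by positivity
      linarith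
    have h2 : y ^ 3 ≤ (1 / N) ^ 3 := by
      rcases le_or_gt 0 y with h0 | h0
      · exact pow_le_pow_left₀ h0 h1 3
      · have e3 : y ^ 3 = y * y ^ 2 := by ring
        have h3 : y ^ 3 ≤ 0 := by
          rw [e3]; exact mul_nonpos_of_nonpos_of_nonneg h0.le (sq_nonneg _)
        exact h3.trans (by positivity)
    have h4 : N * (y ^ 3 / 3) ≤ 1 / (3 * N ^ 2) := by
      have e4 : 1 / (3 * N ^ 2) = N * ((1 / N) ^ 3 / 3) := by field_simp
      rw [e4]; gcongr
    have h5 : N * (y - y ^ 2 / 2) = 1 - N ^ 2 * h ^ 2 / 3 - 1 / (2 * N) + N * h ^ 2 / 3 - N ^ 3 * h ^ 4 / 18 := by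
      rw [hy]; field_simp; ring
    have h6 : 0 ≤ N ^ 3 * h ^ 4 / 18 := by positivity
    have h7 : 0 < h ^ 2 := by positivity
    nlinarith
  have hprod : 2 * r * Real.sin ((N + 1) * h) / (N + 1) * (1 + y) ^ n ≤ 1 := by
    have h1 : 2 * r * Real.sin ((N + 1) * h) / (N + 1) * (1 + y) ^ n ≤
        Real.exp (δ - 1 - ((N + 1) * h) ^ 2 / 6) * Real.exp (N * (y - y ^ 2 / 2 + y ^ 3 / 3)) := by
      apply mul_le_mul hf1 hf2 (by apply pow_nonneg; linarith) (Real.exp_pos _).le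
    rw [← Real.exp_add] at h1
    refine h1.trans ?_
    exact (Real.exp_le_exp.2 hE).trans (le_of_eq Real.exp_zero)
  unfold zb
  have e1 : ((n + 1 : ℕ) : ℝ) = N + 1 := by rw [hN]; push_cast; ring
  rw [e1, ← hN, Nat.factorial_succ, pow_succ]
  push_cast
  rw [← hN]
  have hfac : (0 : ℝ) < (n.factorial : ℝ) := by positivity
  have h1 : (2 * r * Real.sin ((N + 1) * h)) ^ n ≤ (1 + y) ^ n * (2 * r * Real.sin (N * h)) ^ n := by
    rw [← mul_pow]
    apply pow_le_pow_left₀ (by positivity)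
    calc 2 * r * Real.sin ((N + 1) * h) ≤ 2 * r * ((1 + y) * Real.sin (N * h)) := by gcongr
      _ = _ := by ring
  have hpos : 0 ≤ 2 * r * Real.sin ((N + 1) * h) / (N + 1) := by positivity
  have hpos2 : 0 ≤ (2 * r * Real.sin (N * h)) ^ n / (n.factorial : ℝ) := by positivity
  calc (2 * r * Real.sin ((N + 1) * h)) ^ n * (2 * r * Real.sin ((N + 1) * h)) / ((N + 1) * (n.factorial : ℝ))
      = (2 * r * Real.sin ((N + 1) * h) / (N + 1)) * ((2 * r * Real.sin ((N + 1) * h)) ^ n / (n.factorial : ℝ)) := by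
        field_simp
    _ ≤ (2 * r * Real.sin ((N + 1) * h) / (N + 1)) * (((1 + y) ^ n * (2 * r * Real.sin (N * h)) ^ n) / (n.factorial : ℝ)) := by
        gcongr
    _ = (2 * r * Real.sin ((N + 1) * h) / (N + 1) * (1 + y) ^ n) * ((2 * r * Real.sin (N * h)) ^ n / (n.factorial : ℝ)) := by
        ring
    _ ≤ 1 * ((2 * r * Real.sin (N * h)) ^ n / (n.factorial : ℝ)) := by gcongr
    _ = _ := by ring

private theorem zf_expd {δ : ℝ} (hδ : δ ≤ 868 / 10000) : Real.exp δ ≤ 1.0951 := by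
  have h1 := Real.add_one_le_exp (-(868 / 10000 : ℝ))
  have h2 : Real.exp (868 / 10000 : ℝ) * Real.exp (-(868 / 10000 : ℝ)) = 1 := by
    rw [← Real.exp_add]; simp
  have h3 : Real.exp δ ≤ Real.exp (868 / 10000 : ℝ) := Real.exp_le_exp.2 hδ
  have h4 := Real.exp_pos (868 / 10000 : ℝ)
  have h5 : Real.exp (868 / 10000 : ℝ) * (9132 / 10000) ≤ 1 := by nlinarith
  norm_num at h5 ⊢
  linarith

private theorem zf_one {r h δ : ℝ} (hr : 0 ≤ r) (hh0 : 0 < h) (hh1 : h ≤ 1 / 32)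
    (hδ : δ ^ 3 ≤ (2 * h) ^ 2 / 6) (hκ : 2 * h * r ≤ Real.exp (δ - 1)) : zb r h 1 ≤ 1 / 2 := by
  have hd := zf_expd (zf_delta hh0 hh1 hδ)
  unfold zb
  simp only [Nat.cast_one, one_mul, pow_one, Nat.factorial_one, div_one]
  have h1 : 2 * r * Real.sin h ≤ 2 * r * h := by
    have := Real.sin_le hh0.le
    gcongr
  have h2 : Real.exp (δ - 1) * Real.exp 1 = Real.exp δ := by rw [← Real.exp_add]; congr 1; ring
  have h3 := Real.exp_one_gt_d9
  have h4 := Real.exp_pos (δ - 1)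
  nlinarith

private theorem zf_tail {r h δ : ℝ} (hr : 0 ≤ r) (hh0 : 0 < h) (hh1 : h ≤ 1 / 32)
    (hδ : δ ^ 3 ≤ (2 * h) ^ 2 / 6) (hκ : 2 * h * r ≤ Real.exp (δ - 1)) {n : ℕ}
    (hnπ : Real.pi < (n : ℝ) * h) : |zb r h n| ≤ (35 / 100) ^ n := by
  have hd := zf_expd (zf_delta hh0 hh1 hδ)
  have hpi := Real.pi_gt_d6
  have hn0 : 0 < (n : ℝ) := by
    by_contra hc
    have : (n : ℝ) * h ≤ 0 := mul_nonpos_of_nonpos_of_nonneg (not_lt.1 hc) hh0.le
    linarith
  have hfac : (0 : ℝ) < (n.factorial : ℝ) := by positivity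
  have h1 : |zb r h n| ≤ (2 * r) ^ n / (n.factorial : ℝ) := by
    unfold zb
    rw [abs_div, abs_pow, abs_mul, abs_of_nonneg (show 0 ≤ 2 * r by positivity), abs_of_pos hfac]
    have h0 := Real.abs_sin_le_one (n * h)
    have h00 : 2 * r * |Real.sin (n * h)| ≤ 2 * r := by nlinarith
    gcongr
  have h2 : (n : ℝ) ^ n / (n.factorial : ℝ) ≤ Real.exp n := Real.pow_div_factorial_le_exp (n : ℝ) hn0.le n
  have h3 : (2 * r) ^ n / (n.factorial : ℝ) = (2 * r / n) ^ n * ((n : ℝ) ^ n / (n.factorial : ℝ)) := by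
    rw [div_pow]; field_simp
  have h4 : Real.exp n = (Real.exp 1) ^ n := by rw [← Real.exp_nat_mul]; simp
  have h5 : 2 * r / n * Real.exp 1 ≤ 35 / 100 := by
    have h6 : 2 * r / n * Real.exp 1 = (2 * h * r) * Real.exp 1 / (n * h) := by field_simp
    rw [h6, div_le_iff₀ (by positivity)]
    have h7 : (2 * h * r) * Real.exp 1 ≤ Real.exp (δ - 1) * Real.exp 1 := by gcongr
    have h8 : Real.exp (δ - 1) * Real.exp 1 = Real.exp δ := by rw [← Real.exp_add]; congr 1; ring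
    rw [h8] at h7
    norm_num at hd hpi ⊢
    linarith
  calc |zb r h n| ≤ (2 * r) ^ n / (n.factorial : ℝ) := h1
    _ = (2 * r / n) ^ n * ((n : ℝ) ^ n / (n.factorial : ℝ)) := h3
    _ ≤ (2 * r / n) ^ n * (Real.exp 1) ^ n := by rw [← h4]; gcongr
    _ = (2 * r / n * Real.exp 1) ^ n := (mul_pow _ _ _).symm
    _ ≤ (35 / 100) ^ n := by apply pow_le_pow_left₀ (by positivity) h5

/-! ### Eneström-Kakeya for an almost monotone sequence -/

private theorem zf_num (m : ℕ) (hm : 51 ≤ m) : 16 * (m : ℝ) ^ 2 * (7 / 10) ^ m ≤ 1 := by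
  induction m, hm using Nat.le_induction with
  | base => norm_num
  | succ k hk ih =>
    have hk' : (51 : ℝ) ≤ k := by exact_mod_cast hk
    have h1 : ((k + 1 : ℕ) : ℝ) ^ 2 * (7 / 10) ≤ (k : ℝ) ^ 2 := by push_cast; nlinarith
    have h2 : (0 : ℝ) < (7 / 10) ^ k := by positivity
    rw [pow_succ (7 / 10 : ℝ) k]
    nlinarith

private theorem zf_cosn (n : ℕ) (v : ℝ) : 1 - Real.cos (n * v) ≤ (n : ℝ) ^ 2 * (1 - Real.cos v) := by
  have h1 : ∀ n : ℕ, |Real.sin (n * (v / 2))| ≤ n * |Real.sin (v / 2)| := by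
    intro n
    induction n with
    | zero => simp
    | succ k ih =>
      push_cast
      rw [add_mul, one_mul, Real.sin_add]
      have h2 := Real.abs_cos_le_one (v / 2)
      have h3 := Real.abs_cos_le_one (k * (v / 2))
      have h4 := abs_add_le (Real.sin (k * (v / 2)) * Real.cos (v / 2)) (Real.cos (k * (v / 2)) * Real.sin (v / 2))
      rw [abs_mul, abs_mul] at h4
      have h5 := abs_nonneg (Real.sin (k * (v / 2)))
      have h6 := abs_nonneg (Real.sin (v / 2))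
      nlinarith
  have h2 : ∀ x : ℝ, 1 - Real.cos x = 2 * Real.sin (x / 2) ^ 2 := by
    intro x
    have e : x = 2 * (x / 2) := by ring
    have h4 := Real.cos_two_mul' (x / 2)
    rw [← e] at h4
    have h5 := Real.sin_sq_add_cos_sq (x / 2)
    linarith
  rw [h2, h2]
  have e : (n : ℝ) * v / 2 = n * (v / 2) := by ring
  rw [e]
  have h3 : Real.sin (n * (v / 2)) ^ 2 ≤ ((n : ℝ) * |Real.sin (v / 2)|) ^ 2 := by
    rw [← sq_abs (Real.sin (n * (v / 2)))]
    exact pow_le_pow_left₀ (abs_nonneg _) (h1 n) 2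
  rw [mul_pow, sq_abs] at h3
  linarith

private theorem zf_core {b : ℕ → ℝ} {N : ℕ} (hN : 50 ≤ N) (hb0 : b 0 = 1) (hb1 : b 1 ≤ 1 / 2)
    (hmono : ∀ n, 1 ≤ n → n + 1 ≤ N → b (n + 1) ≤ b n) (hpos : ∀ n ≤ N, 0 ≤ b n)
    (htail : ∀ n, N < n → |b n| ≤ (35 / 100) ^ n) (v : ℝ) :
    ∑' n : ℕ, (b n : ℂ) * Complex.exp (((n : ℝ) * v : ℝ) * I) ≠ 0 := by
  have hbs : Summable b := by
    rw [← summable_nat_add_iff (N + 1)]
    refine Summable.of_norm_bounded (g := fun n : ℕ => ((35 : ℝ) / 100) ^ (n + (N + 1))) ?_ ?_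
    · rw [summable_nat_add_iff (f := fun n : ℕ => ((35 : ℝ) / 100) ^ n) (N + 1)]
      exact summable_geometric_of_lt_one (by norm_num) (by norm_num)
    · intro n
      rw [Real.norm_eq_abs]
      exact htail _ (by omega)
  have hbsn : Summable (fun n => |b n|) := hbs.abs
  have hnorm : ∀ n : ℕ, ‖(b n : ℂ) * Complex.exp (((n : ℝ) * v : ℝ) * I)‖ = |b n| := by
    intro n
    rw [norm_mul, Complex.norm_exp_ofReal_mul_I, mul_one, Complex.norm_real, Real.norm_eq_abs]
  have hSs : Summable (fun n : ℕ => (b n : ℂ) * Complex.exp (((n : ℝ) * v : ℝ) * I)) := by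
    apply Summable.of_norm
    simp only [hnorm]
    exact hbsn
  -- lower bound for the terms of the Abel sum
  have hd : ∀ n : ℕ, 1 ≤ n →
      -(1 / 4 * (1 / 2) ^ (n + 1) * (1 - Real.cos v)) ≤ (b n - b (n + 1)) * (1 - Real.cos ((n + 1 : ℕ) * v)) := by
    intro n hn
    have hcv : 0 ≤ 1 - Real.cos v := by linarith [Real.cos_le_one v]
    have hcn : 0 ≤ 1 - Real.cos ((n + 1 : ℕ) * v) := by linarith [Real.cos_le_one ((n + 1 : ℕ) * v)]
    rcases Nat.lt_or_ge N (n + 1) with h | h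
    · have h1 : -(4 * (35 / 100 : ℝ) ^ (n + 1)) ≤ b n - b (n + 1) := by
        have h2 := htail (n + 1) h
        have h3 := (abs_le.1 h2).2
        have h5 : (0 : ℝ) < (35 / 100) ^ n := by positivity
        have h6 : (35 / 100 : ℝ) ^ (n + 1) = (35 / 100) ^ n * (35 / 100) := pow_succ _ _
        rcases Nat.lt_or_ge N n with h' | h'
        · have h4 := (abs_le.1 (htail n h')).1
          rw [h6] at h3 ⊢
          linarith
        · have h4 := hpos n h'
          have h7 : (0 : ℝ) < (35 / 100) ^ (n + 1) := by positivity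
          linarith
      have h2 := zf_cosn (n + 1) v
      have h3 := zf_num (n + 1) (by omega)
      have h4 : (35 / 100 : ℝ) ^ (n + 1) = (7 / 10) ^ (n + 1) * (1 / 2) ^ (n + 1) := by
        rw [← mul_pow]; norm_num
      have h5 : (4 * (35 / 100 : ℝ) ^ (n + 1)) * (1 - Real.cos ((n + 1 : ℕ) * v)) ≤
          (4 * (35 / 100 : ℝ) ^ (n + 1)) * (((n + 1 : ℕ) : ℝ) ^ 2 * (1 - Real.cos v)) := by gcongr
      have h6 : (4 * (35 / 100 : ℝ) ^ (n + 1)) * (((n + 1 : ℕ) : ℝ) ^ 2 * (1 - Real.cos v)) =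
          (16 * ((n + 1 : ℕ) : ℝ) ^ 2 * (7 / 10) ^ (n + 1)) * (1 / 4 * (1 / 2) ^ (n + 1) * (1 - Real.cos v)) := by
        rw [h4]; ring
      have h7 : (16 * ((n + 1 : ℕ) : ℝ) ^ 2 * (7 / 10) ^ (n + 1)) * (1 / 4 * (1 / 2) ^ (n + 1) * (1 - Real.cos v)) ≤
          1 * (1 / 4 * (1 / 2) ^ (n + 1) * (1 - Real.cos v)) := by gcongr
      have h8 : -(4 * (35 / 100 : ℝ) ^ (n + 1)) * (1 - Real.cos ((n + 1 : ℕ) * v)) ≤
          (b n - b (n + 1)) * (1 - Real.cos ((n + 1 : ℕ) * v)) := by gcongr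
      linarith
    · have h1 := hmono n hn h
      have h2 : 0 ≤ (b n - b (n + 1)) * (1 - Real.cos ((n + 1 : ℕ) * v)) := mul_nonneg (by linarith) hcn
      have h3 : 0 ≤ 1 / 4 * (1 / 2) ^ (n + 1) * (1 - Real.cos v) := by positivity
      linarith
  intro hS
  rcases eq_or_lt_of_le (Real.cos_le_one v) with hv | hv
  · -- e^{iv} = 1
    have hsin : Real.sin v = 0 := by
      have h := Real.sin_sq_add_cos_sq v
      rw [hv] at h
      have : Real.sin v ^ 2 = 0 := by linarith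
      exact pow_eq_zero_iff (two_ne_zero) |>.1 this
    have hev : Complex.exp ((v : ℝ) * I) = 1 := by
      rw [Complex.exp_mul_I, ← Complex.ofReal_cos, ← Complex.ofReal_sin, hv, hsin]
      simp
    have hterm : ∀ n : ℕ, (b n : ℂ) * Complex.exp (((n : ℝ) * v : ℝ) * I) = ((b n : ℝ) : ℂ) := by
      intro n
      have : (((n : ℝ) * v : ℝ) : ℂ) * I = (n : ℂ) * ((v : ℝ) * I) := by push_cast; ring
      rw [this, Complex.exp_nat_mul, hev, one_pow, mul_one]
    simp only [hterm] at hS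
    rw [← Complex.ofReal_tsum] at hS
    have hS' : ∑' n, b n = 0 := by exact_mod_cast hS
    have h1 := hbs.tsum_eq_zero_add
    rw [hS', hb0] at h1
    have hbs1 : Summable (fun n => b (n + 1)) := (summable_nat_add_iff 1).2 hbs
    have hgs : Summable (fun n : ℕ => -((35 / 100 : ℝ) ^ (n + 1))) := by
      apply Summable.neg
      rw [summable_nat_add_iff (f := fun n : ℕ => ((35 : ℝ) / 100) ^ n) 1]
      exact summable_geometric_of_lt_one (by norm_num) (by norm_num)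
    have h2 : ∑' n : ℕ, -((35 / 100 : ℝ) ^ (n + 1)) ≤ ∑' n, b (n + 1) := by
      apply hgs.tsum_le_tsum _ hbs1
      intro n
      rcases Nat.lt_or_ge N (n + 1) with h | h
      · exact (abs_le.1 (htail (n + 1) h)).1
      · have := hpos (n + 1) h
        have h7 : (0 : ℝ) < (35 / 100) ^ (n + 1) := by positivity
        linarith
    have h3 : ∑' n : ℕ, -((35 / 100 : ℝ) ^ (n + 1)) = -(35 / 65) := by
      rw [tsum_neg]
      simp only [pow_succ]
      rw [tsum_mul_right, tsum_geometric_of_lt_one (by norm_num) (by norm_num)]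
      norm_num
    rw [h3] at h2
    norm_num at h2
    linarith
  · have hcv : 0 < 1 - Real.cos v := by linarith
    -- Abel summation
    obtain ⟨e, he⟩ : ∃ e : ℂ, e = Complex.exp ((v : ℝ) * I) := ⟨_, rfl⟩
    have hpow : ∀ n : ℕ, Complex.exp (((n : ℝ) * v : ℝ) * I) = e ^ n := by
      intro n
      rw [he, ← Complex.exp_nat_mul]
      congr 1
      push_cast
      ring
    simp only [hpow] at hS hSs
    have hbsC : Summable (fun n => ((b n : ℝ) : ℂ)) := Complex.ofRealCLM.summable hbs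
    have hb1s : Summable (fun n => ((b (n + 1) : ℝ) : ℂ)) :=
      (summable_nat_add_iff (f := fun n => ((b n : ℝ) : ℂ)) 1).2 hbsC
    have hS1s : Summable (fun n => (b (n + 1) : ℂ) * e ^ (n + 1)) :=
      (summable_nat_add_iff (f := fun n => (b n : ℂ) * e ^ n) 1).2 hSs
    have hSe : Summable (fun n => (b n : ℂ) * e ^ (n + 1)) := by
      have := hSs.mul_right e
      refine this.congr ?_
      intro n; ring
    have hzero : ∑' n : ℕ, ((b n : ℂ) - (b (n + 1) : ℂ)) * (1 - e ^ (n + 1)) = 0 := by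
      have h1 : ∀ n : ℕ, ((b n : ℂ) - (b (n + 1) : ℂ)) * (1 - e ^ (n + 1)) =
          ((b n : ℂ) - (b (n + 1) : ℂ)) - ((b n : ℂ) * e ^ (n + 1) - (b (n + 1) : ℂ) * e ^ (n + 1)) := by
        intro n; ring
      simp only [h1]
      rw [(hbsC.sub hb1s).tsum_sub (hSe.sub hS1s), hbsC.tsum_sub hb1s, hSe.tsum_sub hS1s, hbsC.tsum_eq_zero_add]
      have h2 : ∑' n : ℕ, (b n : ℂ) * e ^ (n + 1) = 0 := by
        have h3 : ∑' n : ℕ, (b n : ℂ) * e ^ (n + 1) = (∑' n : ℕ, (b n : ℂ) * e ^ n) * e := by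
          rw [← tsum_mul_right]
          apply tsum_congr
          intro n; ring
        rw [h3, hS, zero_mul]
      have h4 := hSs.tsum_eq_zero_add
      rw [hS] at h4
      rw [h2]
      simp only [pow_zero, mul_one] at h4
      linear_combination (-1 : ℂ) * h4
    have hTs : Summable (fun n : ℕ => ((b n : ℂ) - (b (n + 1) : ℂ)) * (1 - e ^ (n + 1))) := by
      have h1 := (hbsC.sub hb1s).sub (hSe.sub hS1s)
      refine h1.congr ?_
      intro n; ring
    have hre : ∀ n : ℕ, (((b n : ℂ) - (b (n + 1) : ℂ)) * (1 - e ^ (n + 1))).re =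
        (b n - b (n + 1)) * (1 - Real.cos ((n + 1 : ℕ) * v)) := by
      intro n
      have h1 : ((b n : ℂ) - (b (n + 1) : ℂ)) = ((b n - b (n + 1) : ℝ) : ℂ) := by push_cast; ring
      rw [h1, Complex.re_ofReal_mul, ← hpow, Complex.sub_re, Complex.one_re, Complex.exp_ofReal_mul_I_re]
    have hT2 := Complex.hasSum_re hTs.hasSum
    simp only [hre] at hT2
    rw [hzero, Complex.zero_re] at hT2
    have hT2s := hT2.summable
    have h5 := hT2s.tsum_eq_zero_add
    rw [hT2.tsum_eq] at h5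
    have hgs : Summable (fun n : ℕ => -(1 / 4 * (1 / 2) ^ (n + 1 + 1) * (1 - Real.cos v))) := by
      apply Summable.neg
      apply Summable.mul_right
      apply Summable.mul_left
      have := summable_geometric_of_lt_one (r := (1 / 2 : ℝ)) (by norm_num) (by norm_num)
      exact (summable_nat_add_iff (f := fun n : ℕ => ((1 : ℝ) / 2) ^ n) 2).2 this
    have h6 : ∑' n : ℕ, -(1 / 4 * (1 / 2) ^ (n + 1 + 1) * (1 - Real.cos v)) ≤
        ∑' n : ℕ, (b (n + 1) - b (n + 1 + 1)) * (1 - Real.cos ((n + 1 + 1 : ℕ) * v)) := by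
      apply hgs.tsum_le_tsum _ ((summable_nat_add_iff (f := fun n : ℕ => (b n - b (n + 1)) * (1 - Real.cos ((n + 1 : ℕ) * v))) 1).2 hT2s)
      intro n
      exact hd (n + 1) (by omega)
    have h7 : ∑' n : ℕ, -(1 / 4 * (1 / 2) ^ (n + 1 + 1) * (1 - Real.cos v)) = -(1 / 8 * (1 - Real.cos v)) := by
      rw [tsum_neg, tsum_mul_right, tsum_mul_left]
      simp only [pow_succ]
      rw [tsum_mul_right, tsum_mul_right, tsum_geometric_of_lt_one (by norm_num) (by norm_num)]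
      norm_num
    rw [h7] at h6
    simp only [zero_add, Nat.cast_one, one_mul] at h5
    rw [hb0] at h5
    nlinarith

/-! ### the theorem -/

/-- `F(re^{i(θ₀+v)}) conj F(re^{i(θ₀-v)}) = Σ b_n e^{inv}`, `θ₀ = -π/2 + β/2` -/
private theorem zf_axis (r β v : ℝ) :
    F (Complex.exp (β * I)) (r * Complex.exp ((-(Real.pi / 2) + β / 2 + v : ℝ) * I)) *
      (starRingEnd ℂ) (F (Complex.exp (β * I)) (r * Complex.exp ((-(Real.pi / 2) + β / 2 - v : ℝ) * I))) =
    ∑' n : ℕ, ((zb r (β / 2) n : ℝ) : ℂ) * Complex.exp (((n : ℝ) * v : ℝ) * I) := by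
  obtain ⟨ω, hω⟩ : ∃ ω : ℂ, ω = Complex.exp ((β / 2 : ℝ) * I) := ⟨_, rfl⟩
  have hn : ‖ω‖ = 1 := by rw [hω]; exact Complex.norm_exp_ofReal_mul_I _
  have h2 : ω ^ 2 = Complex.exp (β * I) := by
    rw [hω, ← Complex.exp_nat_mul]
    congr 1
    push_cast
    ring
  have h := kernel_hasSum hn (r * Complex.exp ((-(Real.pi / 2) + β / 2 + v : ℝ) * I))
    (r * Complex.exp ((-(Real.pi / 2) + β / 2 - v : ℝ) * I))
  rw [h2] at h
  rw [← h.tsum_eq]
  apply tsum_congr
  intro n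
  have e1 : ω ^ ((n : ℤ) - 1) * (r * Complex.exp ((-(Real.pi / 2) + β / 2 + v : ℝ) * I)) =
      r * Complex.exp (v * I) * Complex.exp (((n * (β / 2) - Real.pi / 2 : ℝ) : ℂ) * I) := by
    rw [hω, ← Complex.exp_int_mul]
    have : Complex.exp (((n : ℤ) - 1 : ℤ) * ((β / 2 : ℝ) * I)) * (r * Complex.exp ((-(Real.pi / 2) + β / 2 + v : ℝ) * I)) =
        r * (Complex.exp (((n : ℤ) - 1 : ℤ) * ((β / 2 : ℝ) * I)) * Complex.exp ((-(Real.pi / 2) + β / 2 + v : ℝ) * I)) := by
      ring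
    rw [this, mul_assoc, ← Complex.exp_add, ← Complex.exp_add]
    congr 2
    push_cast
    ring
  have e2 : ω ^ (1 - (n : ℤ)) * (starRingEnd ℂ) (r * Complex.exp ((-(Real.pi / 2) + β / 2 - v : ℝ) * I)) =
      r * Complex.exp (v * I) * Complex.exp (-(((n * (β / 2) - Real.pi / 2 : ℝ) : ℂ) * I)) := by
    rw [hω, ← Complex.exp_int_mul, map_mul, Complex.conj_ofReal, ← Complex.exp_conj, map_mul, Complex.conj_ofReal,
      Complex.conj_I]
    have : Complex.exp ((1 - (n : ℤ) : ℤ) * ((β / 2 : ℝ) * I)) * (r * Complex.exp ((-(Real.pi / 2) + β / 2 - v : ℝ) * -I)) =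
        r * (Complex.exp ((1 - (n : ℤ) : ℤ) * ((β / 2 : ℝ) * I)) * Complex.exp ((-(Real.pi / 2) + β / 2 - v : ℝ) * -I)) := by
      ring
    rw [this, mul_assoc, ← Complex.exp_add, ← Complex.exp_add]
    congr 2
    push_cast
    ring
  rw [e1, e2, ← mul_add]
  have e3 : Complex.exp (((n * (β / 2) - Real.pi / 2 : ℝ) : ℂ) * I) +
      Complex.exp (-(((n * (β / 2) - Real.pi / 2 : ℝ) : ℂ) * I)) = ((2 * Real.sin (n * (β / 2)) : ℝ) : ℂ) := by
    have h5 : Real.sin (n * (β / 2)) = Real.cos (n * (β / 2) - Real.pi / 2) := (Real.cos_sub_pi_div_two _).symm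
    rw [h5]
    push_cast
    rw [Complex.cos]
    ring_nf
  rw [e3, mul_pow, mul_pow, ← Complex.exp_nat_mul]
  unfold zb
  push_cast
  have e4 : Complex.exp ((n : ℂ) * (v * I)) = Complex.exp ((n : ℂ) * v * I) := by congr 1; ring
  rw [e4]
  ring

/-- **Zero-free disc beyond `1/e`.** For `q = e^{iβ}`, `0 < β ≤ 1/16`, `δ³ ≤ β²/6`, the function `F(.;q)` has no
zero in the disc `β|z| ≤ e^{δ-1}`. -/
theorem F_ne_zero_airy {β δ : ℝ} (hβ0 : 0 < β) (hβ1 : β ≤ 1 / 16) (hδ : δ ^ 3 ≤ β ^ 2 / 6) {z : ℂ}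
    (hz : β * ‖z‖ ≤ Real.exp (δ - 1)) : F (Complex.exp (β * I)) z ≠ 0 := by
  obtain ⟨r, hr⟩ : ∃ r : ℝ, r = ‖z‖ := ⟨_, rfl⟩
  obtain ⟨h, hh⟩ : ∃ h : ℝ, h = β / 2 := ⟨_, rfl⟩
  have hr0 : 0 ≤ r := by rw [hr]; exact norm_nonneg z
  have hh0 : 0 < h := by rw [hh]; positivity
  have hh1 : h ≤ 1 / 32 := by rw [hh]; linarith
  have hδ' : δ ^ 3 ≤ (2 * h) ^ 2 / 6 := by rw [hh]; convert hδ using 3; ring
  have hκ : 2 * h * r ≤ Real.exp (δ - 1) := by rw [hh, hr]; convert hz using 2; ring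
  obtain ⟨v, hv⟩ : ∃ v : ℝ, v = Complex.arg z + Real.pi / 2 - β / 2 := ⟨_, rfl⟩
  have hz' : z = r * Complex.exp ((-(Real.pi / 2) + β / 2 + v : ℝ) * I) := by
    have e : (-(Real.pi / 2) + β / 2 + v : ℝ) = Complex.arg z := by rw [hv]; ring
    rw [e, hr]
    exact (Complex.norm_mul_exp_arg_mul_I z).symm
  have hax := zf_axis r β v
  rw [← hz', ← hh] at hax
  have hpi := Real.pi_gt_three
  have hcore := zf_core (b := zb r h) (N := ⌊Real.pi / h⌋₊) ?_ ?_ (zf_one hr0 hh0 hh1 hδ' hκ) ?_ ?_ ?_ v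
  · intro hF
    rw [hF, zero_mul] at hax
    exact hcore hax.symm
  · apply Nat.le_floor
    rw [le_div_iff₀ hh0]
    push_cast
    nlinarith
  · simp [zb]
  · intro n hn hnN
    apply zf_ratio hr0 hh0 hh1 hδ' hκ hn
    have h1 : ((n + 1 : ℕ) : ℝ) ≤ Real.pi / h := (Nat.le_floor_iff (by positivity)).1 hnN
    rw [le_div_iff₀ hh0] at h1
    exact_mod_cast h1
  · intro n hn
    have h1 : (n : ℝ) ≤ Real.pi / h := (Nat.le_floor_iff (by positivity)).1 hn
    rw [le_div_iff₀ hh0] at h1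
    have h2 : 0 ≤ Real.sin (n * h) := Real.sin_nonneg_of_nonneg_of_le_pi (by positivity) h1
    unfold zb
    positivity
  · intro n hn
    apply zf_tail hr0 hh0 hh1 hδ' hκ
    have h1 : Real.pi / h < n := (Nat.floor_lt (by positivity)).1 hn
    rwa [div_lt_iff₀ hh0] at h1

end Sok
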