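import Pool.Agent.Lib.MP_816dec_an.A0Val
import Pool.Agent.Lib.MP_816dec_an.Axis
import Pool.Agent.Lib.MP_816dec_an.ZF

/-!
MP_816dec_an, b = 1, `D(axis) > 0`: the vertical line bound for `CC` and the connection with the real
inequalities of `Axis`.
-/

set_option autoImplicit false

open Complex Set Filter Topology MeasureTheory

namespace Sok

/-- `∫_ℝ exp(-xY - a e^{-Y}) dY = Γ(x) a^{-x}` -/
theorem integral_exp_neg_exp {x a : ℝ} (hx : 0 < x) (ha : 0 < a) :
    ∫ Y : ℝ, Real.exp (-(x * Y) - a * Real.exp (-Y)) = Real.Gamma x * a ^ (-x) := by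
  have himg : (fun Y : ℝ => Real.exp (-Y)) '' univ = Ioi 0 := by
    ext y
    simp only [image_univ, mem_range, mem_Ioi]
    constructor
    · rintro ⟨Y, rfl⟩; exact Real.exp_pos _
    · intro hy
      exact ⟨-Real.log y, by rw [neg_neg, Real.exp_log hy]⟩
  have hderiv : ∀ Y ∈ (univ : Set ℝ), HasDerivWithinAt (fun Y : ℝ => Real.exp (-Y)) (-Real.exp (-Y)) univ Y := by
    intro Y _
    have h := (hasDerivAt_neg Y).exp
    have e : Real.exp (-Y) * -1 = -Real.exp (-Y) := by ring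
    rw [e] at h
    exact h.hasDerivWithinAt
  have hinj : InjOn (fun Y : ℝ => Real.exp (-Y)) univ := by
    intro a _ b _ hab
    have := Real.exp_injective hab
    linarith
  have h := MeasureTheory.integral_image_eq_integral_abs_deriv_smul MeasurableSet.univ hderiv hinj
    (fun t : ℝ => t ^ (x - 1) * Real.exp (-(a * t)))
  rw [himg, Real.integral_rpow_mul_exp_neg_mul_Ioi hx ha] at h
  rw [Measure.restrict_univ] at h
  have e1 : ∀ Y : ℝ, |(-Real.exp (-Y))| • (Real.exp (-Y) ^ (x - 1) * Real.exp (-(a * Real.exp (-Y)))) =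
      Real.exp (-(x * Y) - a * Real.exp (-Y)) := by
    intro Y
    rw [abs_neg, abs_of_pos (Real.exp_pos _), smul_eq_mul, ← Real.exp_mul, ← mul_assoc, ← Real.exp_add,
      ← Real.exp_add]
    congr 1
    ring
  simp only [e1] at h
  rw [← h, one_div, Real.inv_rpow ha.le, Real.rpow_neg ha.le, mul_comm]

/-- the vertical line bound for `CC` -/
theorem norm_CC_le {β r t S : ℝ} (hβ : 0 < β) (hr : 0 < r) (hS1 : Real.pi / 2 < S) (hS2 : S < 3 * Real.pi / 2)
    (hSt : S < t) :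
    ‖CC β r t‖ ≤ (Real.sqrt (2 * Real.pi * β))⁻¹ *
      (Real.Gamma ((t - S) / β) * (r * -Real.cos S) ^ (-((t - S) / β))) := by
  have hpi := Real.pi_pos
  obtain ⟨P, hP⟩ := exists_prim (gs_diff β r t)
  obtain ⟨V, lL, lR, hV, -⟩ := exists_vals hβ hr hP
  have hInV : InV t 0 S := by
    have : |S - (2 * ((0 : ℤ) : ℝ) + 1) * Real.pi| < Real.pi / 2 := by
      push_cast
      rw [abs_lt]
      constructor <;> linarith
    exact ⟨this.le, Or.inl this⟩
  have h1 := hV.CC0 hβ hr hP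
  have h2 := hV.leg hβ hr hP hInV 0
  have h3 := hV.legup hβ hr.le hP hSt 0
  have h4 : cF β * CC β r t = -(I * ((∫ Y in Iic (0 : ℝ), gs β r t (S + Y * I)) +
      ∫ Y in Ioi (0 : ℝ), gs β r t (S + Y * I))) := by
    rw [mul_add, h2, h3, ← h1]; ring
  have hi1 := hInV.int hβ hr (0 : ℝ)
  have hi2 := int_up hβ hr.le hSt (0 : ℝ)
  have hnorm : ∀ Y : ℝ, ‖gs β r t (S + Y * I)‖ = Real.exp (-((t - S) / β * Y) - (r * -Real.cos S) * Real.exp (-Y)) := by
    intro Y
    rw [norm_gs]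
    congr 1
    ring
  have h5 : ‖cF β‖ * ‖CC β r t‖ ≤ ∫ Y : ℝ, ‖gs β r t (S + Y * I)‖ := by
    rw [← norm_mul, h4, norm_neg, norm_mul, Complex.norm_I, one_mul]
    refine (norm_add_le _ _).trans ?_
    have h6 := norm_integral_le_integral_norm (μ := volume.restrict (Iic (0 : ℝ))) (fun Y : ℝ => gs β r t (S + Y * I))
    have h7 := norm_integral_le_integral_norm (μ := volume.restrict (Ioi (0 : ℝ))) (fun Y : ℝ => gs β r t (S + Y * I))
    have h8 : (∫ Y in Iic (0 : ℝ), ‖gs β r t (S + Y * I)‖) + (∫ Y in Ioi (0 : ℝ), ‖gs β r t (S + Y * I)‖) =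
        ∫ Y : ℝ, ‖gs β r t (S + Y * I)‖ := by
      have hi : Integrable (fun Y : ℝ => ‖gs β r t (S + Y * I)‖) := by
        rw [← integrableOn_univ, ← Iic_union_Ioi (a := (0:ℝ))]
        exact IntegrableOn.union hi1.norm hi2.norm
      have := integral_add_compl (measurableSet_Iic (a := (0:ℝ))) hi
      rwa [compl_Iic] at this
    linarith
  simp only [hnorm] at h5
  have hcos : Real.cos S < 0 := Real.cos_neg_of_pi_div_two_lt_of_lt hS1 (by linarith)
  rw [integral_exp_neg_exp (div_pos (by linarith) hβ) (mul_pos hr (by linarith)), norm_cF] at h5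
  have hs : 0 < Real.sqrt (2 * Real.pi * β) := Real.sqrt_pos.2 (by positivity)
  rw [inv_mul_eq_div, le_div_iff₀ hs, mul_comm]
  exact h5

/-- at the axis `t = 3π/2`, on the line `Re s = 3π/2 - v` -/
theorem norm_CC_axis_sq_le {β r v : ℝ} (hβ : 0 < β) (hr : 0 < r) (hv0 : 0 < v) (hv1 : v < Real.pi) :
    ‖CC β r (3 * Real.pi / 2)‖ ^ 2 ≤
      1 / (2 * Real.pi * β) * (Real.Gamma (v / β) * (r * Real.sin v) ^ (-(v / β))) ^ 2 := by
  have hpi := Real.pi_pos
  have h := norm_CC_le (t := 3 * Real.pi / 2) (S := 3 * Real.pi / 2 - v) hβ hr (by linarith) (by linarith) (by linarith)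
  have e1 : 3 * Real.pi / 2 - (3 * Real.pi / 2 - v) = v := by ring
  have e2 : -Real.cos (3 * Real.pi / 2 - v) = Real.sin v := by
    have : 3 * Real.pi / 2 - v = (Real.pi / 2 - v) + Real.pi := by ring
    rw [this, Real.cos_add_pi, Real.cos_pi_div_two_sub, neg_neg]
  rw [e1, e2] at h
  have h2 := pow_le_pow_left₀ (norm_nonneg _) h 2
  rw [mul_pow, inv_pow, Real.sq_sqrt (by positivity), ← one_div] at h2
  exact h2

/-- `D(axis) > 0`, given the kernel formula for `|A|²` at the axis -/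
theorem axis_CC_AA {β r v : ℝ} (hv0 : 0 < v) (hv1 : v ^ 2 ≤ 1 / 3) (hβ0 : 0 < β) (hβ : β ^ 2 = 3 / 4 * v ^ 6)
    (hκ : Real.exp (v ^ 2 / 2 - 1) ≤ β * r)
    (hA : ‖AA β r (-(Real.pi / 2))‖ ^ 2 =
      ∫ n in (0:ℝ)..(2 * Real.pi / β), (2 * r * Real.sin (n * β / 2)) ^ n / Real.Gamma (1 + n)) :
    143 / 100 * ‖CC β r (3 * Real.pi / 2)‖ ^ 2 ≤ ‖AA β r (-(Real.pi / 2))‖ ^ 2 := by
  have hr : 0 < r := by
    have h := (Real.exp_pos (v ^ 2 / 2 - 1)).trans_le hκ
    by_contra hc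
    have := mul_nonpos_of_nonneg_of_nonpos hβ0.le (not_lt.1 hc)
    linarith
  have hvπ : v < Real.pi := by
    have := Real.pi_gt_three
    nlinarith
  have h1 := norm_CC_axis_sq_le hβ0 hr hv0 hvπ
  have h2 := axis_ratio hv0 hv1 hβ0 hβ hκ
  rw [hA]
  linarith

/-- the dichotomy of the corner: either `F` has no zero on the circle `|z| = r`, or `D(axis) > 0` -/
theorem axis_dichotomy {β r : ℝ} (hβ0 : 0 < β) (hβ1 : β ≤ 1 / 16)
    (hA : ‖AA β r (-(Real.pi / 2))‖ ^ 2 =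
      ∫ n in (0:ℝ)..(2 * Real.pi / β), (2 * r * Real.sin (n * β / 2)) ^ n / Real.Gamma (1 + n)) :
    (∀ z : ℂ, ‖z‖ ≤ r → F (cexp (β * I)) z ≠ 0) ∨
      143 / 100 * ‖CC β r (3 * Real.pi / 2)‖ ^ 2 ≤ ‖AA β r (-(Real.pi / 2))‖ ^ 2 := by
  obtain ⟨v, hv0, hv1, hβ, hδ⟩ := exists_axis_param hβ0 (by linarith)
  rcases le_total (Real.exp (v ^ 2 / 2 - 1)) (β * r) with h | h
  · right
    exact axis_CC_AA hv0 hv1 hβ0 hβ h hA
  · left
    intro z hz
    apply F_ne_zero_airy hβ0 hβ1 hδ.le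
    refine le_trans ?_ h
    gcongr

end Sok
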