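import Pool.Agent.Lib.MP_816dec_an.Arc

/-!
MP_816dec_an, task A5: the covering lemma (reduction theory of `SL(2, ℤ)` applied to the point
`α / (2π) + i / (2πr)`), conjugation and periodicity in `α`, and the assembly of (A) from the
local statements at the roots of unity.
-/

set_option autoImplicit false

open Complex Set Modular
open scoped MatrixGroups UpperHalfPlane

namespace Sok

/-- the circle `|z| = r` carries at most one zero of `F (·, e^{iα})`, and that zero is simple -/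
def Circ (α r : ℝ) : Prop :=
  (∀ z, Fa α z = 0 → ‖z‖ = r → deriv (Fa α) z ≠ 0) ∧
    ∀ z w, Fa α z = 0 → Fa α w = 0 → ‖z‖ = r → ‖w‖ = r → z = w

theorem goodOut_of_circ {R0 α : ℝ} (h : ∀ r, R0 ≤ r → Circ α r) : GoodOut Fa R0 α :=
  ⟨fun z hz hr => (h ‖z‖ hr).1 z hz rfl,
    fun z w hz hw hzw hr => (h ‖z‖ hr).2 z w hz hw rfl hzw.symm⟩

/-- a circle without zeros -/
theorem circ_of_ne {α r : ℝ} (h : ∀ z, ‖z‖ = r → Fa α z ≠ 0) : Circ α r :=
  ⟨fun z hz hr => absurd hz (h z hr), fun z _ hz _ hr _ => absurd hz (h z hr)⟩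

theorem ea_neg (α : ℝ) :
    Complex.exp (((-α : ℝ) : ℂ) * I) = (starRingEnd ℂ) (Complex.exp ((α : ℂ) * I)) := by
  rw [← Complex.exp_conj, map_mul, Complex.conj_ofReal, Complex.conj_I]
  congr 1
  push_cast
  ring

theorem Fa_neg (α : ℝ) (z : ℂ) :
    Fa (-α) ((starRingEnd ℂ) z) = (starRingEnd ℂ) (Fa α z) := by
  unfold Fa
  rw [ea_neg, F_conj]

theorem deriv_Fa_neg (α : ℝ) (z : ℂ) :
    deriv (Fa (-α)) ((starRingEnd ℂ) z) = (starRingEnd ℂ) (deriv (Fa α) z) := by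
  rw [deriv_Fa, deriv_Fa, ea_neg, ← map_mul, Fa_neg]

/-- complex conjugation -/
theorem Circ.neg {α r : ℝ} (h : Circ α r) : Circ (-α) r := by
  have key : ∀ z, Fa (-α) z = 0 → Fa α ((starRingEnd ℂ) z) = 0 := by
    intro z hz
    have := Fa_neg α ((starRingEnd ℂ) z)
    rw [Complex.conj_conj, hz] at this
    exact (map_eq_zero _).mp this.symm
  refine ⟨fun z hz hr h0 => ?_, fun z w hz hw hzr hwr => ?_⟩
  · have h1 := deriv_Fa_neg α ((starRingEnd ℂ) z)
    rw [Complex.conj_conj, h0] at h1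
    exact h.1 _ (key z hz) (by rw [Complex.norm_conj, hr]) ((map_eq_zero _).mp h1.symm)
  · have h1 := h.2 _ _ (key z hz) (key w hw) (by rw [Complex.norm_conj, hzr])
      (by rw [Complex.norm_conj, hwr])
    exact (starRingEnd ℂ).injective h1

theorem Fa_add_two_pi (α : ℝ) (n : ℤ) : Fa (α + 2 * Real.pi * n) = Fa α := by
  funext z
  unfold Fa
  congr 1
  have : ((α + 2 * Real.pi * n : ℝ) : ℂ) * I = (α : ℂ) * I + n * (2 * Real.pi * I) := by
    push_cast; ring
  rw [this, Complex.exp_add, Complex.exp_int_mul_two_pi_mul_I, mul_one]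

/-- periodicity -/
theorem Circ.add_two_pi {α r : ℝ} (h : Circ α r) (n : ℤ) : Circ (α + 2 * Real.pi * n) r := by
  unfold Circ at h ⊢
  rw [Fa_add_two_pi]
  exact h

/-- no zeros inside `|z| |1 - q| < 1/e` -/
theorem circ_of_small {α r : ℝ} (h : |α| * r < Real.exp (-1)) : Circ α r := by
  refine circ_of_ne fun z hz => zero_free (norm_ea α).le ?_
  refine lt_of_le_of_lt ?_ h
  rw [mul_comm, hz]
  have hr : 0 ≤ r := by rw [← hz]; exact norm_nonneg z
  exact mul_le_mul_of_nonneg_right (norm_one_sub_ea α) hr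

/-- **Covering lemma.** For every angle `α` and radius `r ≥ 1` there is a reduced fraction `p / b`
with `2 π r / (b ^ 2 (1 + κ ^ 2)) ≥ √3 / 2`, where `β = α - 2 π p / b` and `κ = β r`. -/
theorem cover (α : ℝ) {r : ℝ} (hr : 1 ≤ r) : ∃ (b : ℕ) (p : ℤ), 0 < b ∧ IsCoprime (b : ℤ) p ∧
    Real.sqrt 3 / 2 * ((b : ℝ) ^ 2 * (1 + ((α - 2 * Real.pi * p / b) * r) ^ 2)) ≤
      2 * Real.pi * r := by
  have hpi := Real.pi_gt_three
  have hr0 : 0 < r := by linarith
  have him : 0 < (1 / (2 * Real.pi * r) : ℝ) := by positivity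
  obtain ⟨g, hg⟩ := ModularGroup.exists_smul_mem_fd
    (⟨⟨α / (2 * Real.pi), 1 / (2 * Real.pi * r)⟩, him⟩ : ℍ)
  have h3 := ModularGroup.three_le_four_mul_im_sq_of_mem_fd hg
  have him2 := ModularGroup.im_smul_eq_div_normSq g
    (⟨⟨α / (2 * Real.pi), 1 / (2 * Real.pi * r)⟩, him⟩ : ℍ)
  have hpos := UpperHalfPlane.im_pos (g • (⟨⟨α / (2 * Real.pi), 1 / (2 * Real.pi * r)⟩, him⟩ : ℍ))
  rw [him2] at h3 hpos
  rw [ModularGroup.denom_apply] at h3 hpos
  have hcop := ModularGroup.bottom_row_coprime g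
  generalize g 1 0 = c at *
  generalize g 1 1 = d at *
  have hN : Complex.normSq ((c : ℂ) * ((⟨⟨α / (2 * Real.pi), 1 / (2 * Real.pi * r)⟩, him⟩ : ℍ) : ℂ)
      + d) = (c * (α / (2 * Real.pi)) + d) ^ 2 + (c * (1 / (2 * Real.pi * r))) ^ 2 := by
    rw [Complex.normSq_apply]
    simp
    ring
  rw [hN] at h3 hpos
  have him3 : (⟨⟨α / (2 * Real.pi), 1 / (2 * Real.pi * r)⟩, him⟩ : ℍ).im =
    1 / (2 * Real.pi * r) := rfl
  rw [him3] at h3 hpos
  obtain ⟨N, hNdef⟩ : ∃ N : ℝ, N = ((c : ℝ) * (α / (2 * Real.pi)) + d) ^ 2 +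
    (c * (1 / (2 * Real.pi * r))) ^ 2 := ⟨_, rfl⟩
  rw [← hNdef] at h3 hpos
  have hNpos : 0 < N := by
    have := (div_pos_iff_of_pos_left him).mp hpos
    exact this
  have hs3 : Real.sqrt 3 ^ 2 = 3 := Real.sq_sqrt (by norm_num)
  have hs0 : 0 < Real.sqrt 3 := Real.sqrt_pos.mpr (by norm_num)
  have hy : Real.sqrt 3 / 2 ≤ 1 / (2 * Real.pi * r) / N := by
    nlinarith
  have hyN : Real.sqrt 3 / 2 * N ≤ 1 / (2 * Real.pi * r) := by
    rwa [le_div_iff₀ hNpos] at hy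
  have hs1 : 1.7 < Real.sqrt 3 := by
    rw [Real.lt_sqrt (by norm_num)]; norm_num
  have hc : c ≠ 0 := by
    rintro rfl
    have hd : d = 1 ∨ d = -1 := by
      have := isCoprime_zero_left.mp hcop
      exact Int.isUnit_iff.mp this
    have hd2 : ((d : ℤ) : ℝ) ^ 2 = 1 := by
      rcases hd with rfl | rfl <;> norm_num
    have hN1 : N = 1 := by
      rw [hNdef]
      simp [hd2]
    rw [hN1, mul_one, le_div_iff₀ (by positivity)] at hyN
    have h3r : 3 ≤ Real.pi * r := by nlinarith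
    have h5 : 1.7 * 3 ≤ Real.sqrt 3 * (Real.pi * r) :=
      mul_le_mul hs1.le h3r (by norm_num) hs0.le
    nlinarith
  have hcR : (c : ℝ) ≠ 0 := by exact_mod_cast hc
  refine ⟨c.natAbs, -(d * c.sign), Int.natAbs_pos.mpr hc, ?_, ?_⟩
  · rw [IsCoprime.neg_right_iff]
    have h1 : IsCoprime c d := hcop
    have h2 : IsCoprime ((c.natAbs : ℕ) : ℤ) d := by
      rcases Int.natAbs_eq c with h | h
      · rwa [h] at h1
      · rw [h] at h1
        exact (IsCoprime.neg_left_iff _ _).mp h1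
    refine IsCoprime.mul_right h2 ?_
    rcases lt_or_gt_of_ne hc with h | h
    · rw [Int.sign_eq_neg_one_of_neg h]
      exact isCoprime_one_right.neg_right
    · rw [Int.sign_eq_one_of_pos h]
      exact isCoprime_one_right
  · have hb2 : ((c.natAbs : ℕ) : ℝ) ^ 2 = (c : ℝ) ^ 2 := by
      rw [Nat.cast_natAbs, Int.cast_abs, sq_abs]
    have hfrac : 2 * Real.pi * ((-(d * c.sign) : ℤ) : ℝ) / ((c.natAbs : ℕ) : ℝ) =
        -(2 * Real.pi * d / c) := by
      rw [Nat.cast_natAbs]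
      rcases lt_or_gt_of_ne hc with h | h
      · rw [Int.sign_eq_neg_one_of_neg h, abs_of_neg h]
        push_cast
        field_simp
      · rw [Int.sign_eq_one_of_pos h, abs_of_pos h]
        push_cast
        field_simp
    rw [hb2, hfrac]
    have hN2 : N = (c : ℝ) ^ 2 * (1 + ((α - -(2 * Real.pi * d / c)) * r) ^ 2) /
        (2 * Real.pi * r) ^ 2 := by
      rw [hNdef]
      field_simp
      ring
    rw [hN2, ← mul_div_assoc, div_le_div_iff₀ (by positivity) (by positivity)] at hyN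
    have h2 : 0 < 2 * Real.pi * r := by positivity
    nlinarith

/-- Covering lemma up to conjugation: the offset `β` is nonnegative. -/
theorem cover_nonneg (α : ℝ) {r : ℝ} (hr : 1 ≤ r) : ∃ (b : ℕ) (p : ℤ) (β : ℝ), 0 < b ∧
    IsCoprime (b : ℤ) p ∧ 0 ≤ β ∧
    Real.sqrt 3 / 2 * ((b : ℝ) ^ 2 * (1 + (β * r) ^ 2)) ≤ 2 * Real.pi * r ∧
    (α = 2 * Real.pi * p / b + β ∨ -α = 2 * Real.pi * p / b + β) := by
  obtain ⟨b, p, hb, hp, h⟩ := cover α hr
  rcases le_total 0 (α - 2 * Real.pi * p / b) with h0 | h0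
  · exact ⟨b, p, α - 2 * Real.pi * p / b, hb, hp, h0, h, Or.inl (by ring)⟩
  · refine ⟨b, -p, -(α - 2 * Real.pi * p / b), hb, hp.neg_right, by linarith, ?_, Or.inr ?_⟩
    · rw [neg_mul, neg_sq]; exact h
    · push_cast; ring

/-- Assembly: statement (A) from the local statements near the roots of unity. -/
theorem circ_of_pieces {r : ℝ} (hr : 1 ≤ r)
    (h : ∀ (b : ℕ) (p : ℤ) (β : ℝ), 0 < b → IsCoprime (b : ℤ) p → 0 ≤ β →
      Real.sqrt 3 / 2 * ((b : ℝ) ^ 2 * (1 + (β * r) ^ 2)) ≤ 2 * Real.pi * r →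
      Circ (2 * Real.pi * p / b + β) r) (α : ℝ) : Circ α r := by
  obtain ⟨b, p, β, hb, hp, hβ, hle, hα | hα⟩ := cover_nonneg α hr
  · rw [hα]; exact h b p β hb hp hβ hle
  · have := (h b p β hb hp hβ hle).neg
    rw [← hα, neg_neg] at this
    exact this

/-- Assembly: (A) for all angles from the three families `b = 1` (`κ ≥ 1/e` only), `b = 2`,
`b ≥ 3`. Here `y = 2 π r / (b ^ 2 (1 + κ ^ 2)) ≥ √3 / 2`, `κ = β r`. -/
theorem goodOut_of_pieces {R0 : ℝ} (hR0 : 1 ≤ R0)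
    (h1 : ∀ β r : ℝ, R0 ≤ r → 0 < β → Real.exp (-1) ≤ β * r →
      Real.sqrt 3 / 2 * (1 + (β * r) ^ 2) ≤ 2 * Real.pi * r → Circ β r)
    (h2 : ∀ β r : ℝ, R0 ≤ r → 0 ≤ β →
      Real.sqrt 3 / 2 * (4 * (1 + (β * r) ^ 2)) ≤ 2 * Real.pi * r → Circ (Real.pi + β) r)
    (h3 : ∀ (b : ℕ) (p : ℤ) (β r : ℝ), 3 ≤ b → IsCoprime (b : ℤ) p → R0 ≤ r → 0 ≤ β →
      Real.sqrt 3 / 2 * ((b : ℝ) ^ 2 * (1 + (β * r) ^ 2)) ≤ 2 * Real.pi * r →
      Circ (2 * Real.pi * p / b + β) r) (α : ℝ) : GoodOut Fa R0 α := by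
  refine goodOut_of_circ fun r hr => circ_of_pieces (le_trans hR0 hr) ?_ α
  intro b p β hb hp hβ hle
  have hr0 : 0 < r := by linarith
  rcases Nat.lt_or_ge b 3 with hb3 | hb3
  · have hb12 : b = 1 ∨ b = 2 := by omega
    rcases hb12 with rfl | rfl
    · have e1 : 2 * Real.pi * (p : ℝ) / ((1 : ℕ) : ℝ) + β = β + 2 * Real.pi * p := by
        push_cast; ring
      rw [e1]
      refine Circ.add_two_pi ?_ p
      rcases lt_or_ge (β * r) (Real.exp (-1)) with h | h
      · exact circ_of_small (by rwa [abs_of_nonneg hβ])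
      · have hβ0 : 0 < β := by
          rcases hβ.eq_or_lt with h0 | h0
          · rw [← h0, zero_mul] at h
            exact absurd h (not_le.mpr (Real.exp_pos _))
          · exact h0
        exact h1 β r hr hβ0 h (by simpa using hle)
    · have hodd : ∃ k : ℤ, p = 2 * k + 1 := by
        have hc : IsCoprime (2 : ℤ) p := by simpa using hp
        have h2 : ¬ (2 : ℤ) ∣ p := by
          intro hd
          have := (hc.of_isCoprime_of_dvd_right hd)
          exact absurd (isCoprime_self.mp this) (by decide)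
        exact ⟨p / 2, by omega⟩
      obtain ⟨k, rfl⟩ := hodd
      have e1 : 2 * Real.pi * ((2 * k + 1 : ℤ) : ℝ) / ((2 : ℕ) : ℝ) + β =
          (Real.pi + β) + 2 * Real.pi * k := by
        push_cast; ring
      rw [e1]
      refine Circ.add_two_pi (h2 β r hr hβ ?_) k
      norm_num at hle
      exact hle
  · exact h3 b p β r hb3 hp hr hβ hle

end Sok
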