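import Pool.Agent.Lib.MP_816dec_an.B2Defs
import Pool.Agent.Lib.MP_816dec_an.Valley
import Pool.Agent.Lib.MP_816dec_an.Cover

/-!
MP_816dec_an, b = 2: the two-term conclusion for `F_β` itself (no other windows): slope on a segment, domination outside.
-/

set_option autoImplicit false

open Complex Set Filter Topology MeasureTheory

namespace Sok.B2

open Sok Sok.W

private theorem cW_ne {β : ℝ} (hβ : 0 < β) : (1 - I) * (Real.sqrt (Real.pi * β) : ℝ) ≠ 0 := by
  refine mul_ne_zero ?_ ?_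
  · intro h
    have := congrArg Complex.re h
    simp at this
  · have : 0 < Real.sqrt (Real.pi * β) := Real.sqrt_pos.2 (by have := Real.pi_pos; positivity)
    exact_mod_cast this.ne'

private theorem Z0_eq {β r : ℝ} (hβ : 0 < β) (hr : 0 < r) (t : ℝ) :
    Z0 β r t = (1 - I) * (Real.sqrt (Real.pi * β) : ℝ) * GW β ((Real.log r : ℝ) + ((t + β / 2 : ℝ) : ℂ) * I) := by
  unfold Z0
  rw [XL_add_YR hβ hr]
  congr 1
  unfold GW
  rw [Complex.exp_add, ← Complex.ofReal_exp, Real.exp_log hr, mul_comm (β : ℂ) I]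

private theorem Z1_eq {β r : ℝ} (hβ : 0 < β) (hr : 0 < r) (t : ℝ) :
    I / β * Z1 β r t = (1 - I) * (Real.sqrt (Real.pi * β) : ℝ) *
      (deriv (GW β) ((Real.log r : ℝ) + ((t + β / 2 : ℝ) : ℂ) * I) * I) := by
  have h1 : HasDerivAt (fun t : ℝ => Z0 β r t) (I / β * Z1 β r t) t := by
    have := (hasDerivAt_XL hβ hr t).add (hasDerivAt_YR hβ hr t)
    refine this.congr_deriv ?_
    unfold Z1
    ring
  have hw : HasDerivAt (fun t : ℝ => ((Real.log r : ℝ) : ℂ) + ((t + β / 2 : ℝ) : ℂ) * I) I t := by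
    have h3 : HasDerivAt (fun t : ℝ => ((t + β / 2 : ℝ) : ℂ)) 1 t := by
      have := (Complex.ofRealCLM.hasDerivAt (x := t)).add_const ((β / 2 : ℝ) : ℂ)
      simpa using this
    have h4 := (h3.mul_const I).const_add ((Real.log r : ℝ) : ℂ)
    simpa using h4
  have h2 : HasDerivAt (fun t : ℝ => (1 - I) * (Real.sqrt (Real.pi * β) : ℝ) *
      GW β ((Real.log r : ℝ) + ((t + β / 2 : ℝ) : ℂ) * I))
      ((1 - I) * (Real.sqrt (Real.pi * β) : ℝ) *
      (deriv (GW β) ((Real.log r : ℝ) + ((t + β / 2 : ℝ) : ℂ) * I) * I)) t := by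
    have h5 := ((differentiable_GW β ((Real.log r : ℝ) + ((t + β / 2 : ℝ) : ℂ) * I)).hasDerivAt).comp t hw
    exact h5.const_mul _
  have h3 : (fun t : ℝ => Z0 β r t) = fun t : ℝ => (1 - I) * (Real.sqrt (Real.pi * β) : ℝ) *
      GW β ((Real.log r : ℝ) + ((t + β / 2 : ℝ) : ℂ) * I) := by
    funext t
    exact Z0_eq hβ hr t
  rw [h3] at h1
  exact h1.unique h2

private theorem ratio_eq {β r : ℝ} (hβ : 0 < β) (hr : 0 < r) (t : ℝ) (h0 : Z0 β r t ≠ 0) :
    deriv (GW β) ((Real.log r : ℝ) + ((t + β / 2 : ℝ) : ℂ) * I) / GW β ((Real.log r : ℝ) + ((t + β / 2 : ℝ) : ℂ) * I) =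
      (1 / β : ℝ) * (Z1 β r t / Z0 β r t) := by
  have hβ' : (β : ℂ) ≠ 0 := by exact_mod_cast hβ.ne'
  have e0 := Z0_eq hβ hr t
  have e1 := Z1_eq hβ hr t
  have hc := cW_ne hβ
  have hG : GW β ((Real.log r : ℝ) + ((t + β / 2 : ℝ) : ℂ) * I) ≠ 0 := by
    intro h
    rw [h, mul_zero] at e0
    exact h0 e0
  generalize deriv (GW β) ((Real.log r : ℝ) + ((t + β / 2 : ℝ) : ℂ) * I) = d at *
  generalize GW β ((Real.log r : ℝ) + ((t + β / 2 : ℝ) : ℂ) * I) = g at *
  generalize (1 - I) * (Real.sqrt (Real.pi * β) : ℝ) = c at *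
  have e2 : Z1 β r t = β * (c * d) := by
    have : I * (Z1 β r t) = I * (β * (c * d)) := by
      have h3 : I * Z1 β r t = β * (I / β * Z1 β r t) := by field_simp
      rw [h3, e1]; ring
    exact mul_left_cancel₀ Complex.I_ne_zero this
  rw [e2, e0]
  push_cast
  field_simp

/-- **b = 2, conclusion.** -/
theorem circ_two {β r a c m ω : ℝ} (hβ : 0 < β) (hr : 0 < r) (hac : a < c) (hm : 0 < m) (hω0 : 0 < ω) (hω : ω < 1)
    (hS : ∀ t : ℝ, a ≤ t → t ≤ c → Z0 β r t ≠ 0 ∧ Z0 β r (t - Real.pi) ≠ 0 ∧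
      m ≤ (Z1 β r t / Z0 β r t).im - (Z1 β r (t - Real.pi) / Z0 β r (t - Real.pi)).im)
    (hO : ∀ t : ℝ, c < t → t ≤ a + Real.pi → ‖Z0 β r t‖ < ω * ‖Z0 β r (t - Real.pi)‖) :
    Circ (Real.pi + β) r := by
  have hpi := Real.pi_pos
  have hcW := cW_ne hβ
  obtain ⟨x, hx⟩ : ∃ x : ℝ, x = Real.log r := ⟨_, rfl⟩
  have hxr : Real.exp x = r := by rw [hx, Real.exp_log hr]
  -- X
  obtain ⟨X, hX⟩ : ∃ X : ℤ → ℂ → ℂ, X = fun (k : ℤ) (w : ℂ) => GW β (w + 2 * Real.pi * (k : ℂ) / (2 : ℕ) * I) := ⟨_, rfl⟩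
  obtain ⟨q, hq⟩ : ∃ q : ℂ, q = Complex.exp (((Real.pi + β : ℝ) : ℂ) * I) := ⟨_, rfl⟩
  have hq1 : ‖q‖ ≤ 1 := by rw [hq, Complex.norm_exp_ofReal_mul_I]
  have hqe : q = ee ((1 : ℤ) / (2 : ℕ)) * Complex.exp (β * I) := by
    rw [hq, ee, ← Complex.exp_add]
    congr 1
    push_cast
    ring
  have hp : ((2 : ℕ) : ℤ) ∣ 1 * 1 - 1 := by norm_num
  have hF : ∀ (w : ℂ) (j : ℤ), F q (pt 1 2 w j) = cc 1 2 0 * tot 1 1 2 X ∅ w j := by
    intro w j
    have h := F_valley (p := 1) (p' := 1) (b := 2) two_pos hp β w j 0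
    rw [hqe]
    push_cast at h ⊢
    rw [h]
    congr 1
    have hI : Finset.Ico (0 : ℤ) 2 = {0, 1} := by decide
    rw [hI, Finset.sum_insert (by decide), Finset.sum_singleton]
    unfold tot
    rw [Finset.sum_empty, add_zero, hX]
    simp
  have hcc : cc 1 2 0 ≠ 0 := by
    intro h0
    have h1 : F q (pt 1 2 0 0) = 0 := by rw [hF, h0, zero_mul]
    have h2 : ∀ w j, F q (pt 1 2 w j) = 0 := fun w j => by rw [hF, h0, zero_mul]
    obtain ⟨w0, hw0⟩ := Fa_ne (Real.pi + β)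
    have h3 : ∀ z : ℂ, z ≠ 0 → F q z = 0 := by
      intro z hz
      obtain ⟨j, w, _, hw⟩ := exists_pt 1 (b := 2) two_pos (Real.log ‖z‖) 0 (z := z)
        (by rw [Real.exp_log (norm_pos_iff.2 hz)])
      rw [hw]; exact h2 w j
    have h4 : Continuous (F q) := by
      have : Differentiable ℂ (F q) := fun z => (hasDerivAt_F hq1 z).differentiableAt
      exact this.continuous
    have h5 : F q 0 = 0 := by
      have h6 : Tendsto (fun n : ℕ => F q ((1 / ((n : ℝ) + 1) : ℝ) : ℂ)) atTop (𝓝 (F q 0)) := by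
        have h7 : Tendsto (fun n : ℕ => (((1 / ((n : ℝ) + 1) : ℝ)) : ℂ)) atTop (𝓝 0) := by
          have := (Complex.continuous_ofReal.tendsto 0).comp (tendsto_one_div_add_atTop_nhds_zero_nat (𝕜 := ℝ))
          rw [Complex.ofReal_zero] at this
          exact this
        exact (h4.tendsto 0).comp h7
      refine tendsto_nhds_unique h6 ?_
      refine tendsto_const_nhds.congr fun n => ?_
      symm
      apply h3
      have : (1 / ((n : ℝ) + 1) : ℝ) ≠ 0 := by positivity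
      exact_mod_cast this
    have h8 := F_zero q
    rw [h5] at h8
    exact zero_ne_one h8
  -- values on the circle
  have hX1 : ∀ t : ℝ, X 1 ((x : ℂ) + ((t - Real.pi + β / 2 : ℝ) : ℂ) * I) =
      GW β ((Real.log r : ℝ) + ((t + β / 2 : ℝ) : ℂ) * I) := by
    intro t
    rw [hX, hx]
    simp only
    congr 1
    push_cast
    ring
  have hX0 : ∀ t : ℝ, X 0 ((x : ℂ) + ((t - Real.pi + β / 2 : ℝ) : ℂ) * I) =
      GW β ((Real.log r : ℝ) + ((t - Real.pi + β / 2 : ℝ) : ℂ) * I) := by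
    intro t
    rw [hX, hx]
    simp
  have hdX : ∀ k, Differentiable ℂ (X k) := by
    intro k
    rw [hX]
    exact (differentiable_GW β).comp (by fun_prop)
  have hderX : ∀ k w, deriv (X k) w = deriv (GW β) (w + 2 * Real.pi * k / (2 : ℕ) * I) := by
    intro k w
    rw [hX]
    simp only
    rw [deriv_comp_add_const (f := GW β)]
  obtain ⟨u, hu⟩ : ∃ u : ℝ, u = a - Real.pi + β / 2 := ⟨_, rfl⟩
  obtain ⟨v, hv⟩ : ∃ v : ℝ, v = c - Real.pi + β / 2 := ⟨_, rfl⟩
  have hmemt : ∀ w ∈ vseg x u (u + 2 * Real.pi / (2 : ℕ)), ∃ t : ℝ, a ≤ t ∧ t ≤ a + Real.pi ∧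
      w = (x : ℂ) + ((t - Real.pi + β / 2 : ℝ) : ℂ) * I := by
    intro w hw
    obtain ⟨h1, h2, h3⟩ := hw
    refine ⟨w.im + Real.pi - β / 2, by linarith, ?_, ?_⟩
    · have : 2 * Real.pi / ((2 : ℕ) : ℝ) = Real.pi := by push_cast; ring
      rw [this] at h3
      linarith
    · apply Complex.ext
      · simp [h1]
      · simp only [Complex.add_im, Complex.ofReal_im, Complex.mul_im, Complex.ofReal_re, Complex.I_im, Complex.I_re]
        ring
  have hsegt : ∀ w ∈ vseg x u v, ∃ t : ℝ, a ≤ t ∧ t ≤ c ∧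
      w = (x : ℂ) + ((t - Real.pi + β / 2 : ℝ) : ℂ) * I := by
    intro w hw
    obtain ⟨h1, h2, h3⟩ := hw
    refine ⟨w.im + Real.pi - β / 2, by linarith, by linarith, ?_⟩
    apply Complex.ext
    · simp [h1]
    · simp only [Complex.add_im, Complex.ofReal_im, Complex.mul_im, Complex.ofReal_re, Complex.I_im, Complex.I_re]
      ring
  have hne0 : ∀ t : ℝ, Z0 β r (t - Real.pi) ≠ 0 → X 0 ((x : ℂ) + ((t - Real.pi + β / 2 : ℝ) : ℂ) * I) ≠ 0 := by
    intro t h h0
    rw [hX0] at h0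
    apply h
    rw [Z0_eq hβ hr, h0, mul_zero]
  have hne1 : ∀ t : ℝ, Z0 β r t ≠ 0 → X 1 ((x : ℂ) + ((t - Real.pi + β / 2 : ℝ) : ℂ) * I) ≠ 0 := by
    intro t h h0
    rw [hX1] at h0
    apply h
    rw [Z0_eq hβ hr, h0, mul_zero]
  have hnorm : ∀ t : ℝ, ‖X 1 ((x : ℂ) + ((t - Real.pi + β / 2 : ℝ) : ℂ) * I) /
      X 0 ((x : ℂ) + ((t - Real.pi + β / 2 : ℝ) : ℂ) * I)‖ = ‖Z0 β r t‖ / ‖Z0 β r (t - Real.pi)‖ := by
    intro t
    have hcW' := hcW
    rw [hX1, hX0, norm_div, Z0_eq hβ hr, Z0_eq hβ hr]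
    generalize (1 - I) * (Real.sqrt (Real.pi * β) : ℝ) = cW at hcW' ⊢
    rw [norm_mul, norm_mul, mul_div_mul_left _ _ (norm_ne_zero_iff.2 hcW')]
  -- radius
  obtain ⟨ρ, hρ, hb0, hb1⟩ : ∃ ρ : ℝ, 0 < ρ ∧ (∀ w ∈ vseg x u v, ∀ w' ∈ Metric.closedBall w ρ, X 0 w' ≠ 0) ∧
      (∀ w ∈ vseg x u v, ∀ w' ∈ Metric.closedBall w ρ, X 1 w' ≠ 0) := by
    have hK : IsCompact (vseg x u v) := by
      have : vseg x u v = (fun t : ℝ => (x : ℂ) + (t : ℂ) * I) '' Icc u v := by
        ext w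
        constructor
        · rintro ⟨h1, h2, h3⟩
          refine ⟨w.im, ⟨h2, h3⟩, ?_⟩
          apply Complex.ext
          · simp [h1]
          · simp
        · rintro ⟨t, ⟨h2, h3⟩, rfl⟩
          refine ⟨by simp, by simpa using h2, by simpa using h3⟩
      rw [this]
      exact isCompact_Icc.image (by fun_prop)
    have hU : IsOpen {w : ℂ | X 0 w ≠ 0 ∧ X 1 w ≠ 0} := by
      have o0 : IsOpen {w : ℂ | X 0 w ≠ 0} := isOpen_ne_fun (hdX 0).continuous continuous_const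
      have o1 : IsOpen {w : ℂ | X 1 w ≠ 0} := isOpen_ne_fun (hdX 1).continuous continuous_const
      exact o0.inter o1
    have hKU : vseg x u v ⊆ {w : ℂ | X 0 w ≠ 0 ∧ X 1 w ≠ 0} := by
      intro w hw
      obtain ⟨t, h1, h2, rfl⟩ := hsegt w hw
      obtain ⟨g1, g2, _⟩ := hS t h1 h2
      exact ⟨hne0 t g2, hne1 t g1⟩
    obtain ⟨δ, hδ, hsub⟩ := hK.exists_cthickening_subset_open hU hKU
    refine ⟨δ, hδ, fun w hw w' hw' => ?_, fun w hw w' hw' => ?_⟩
    · exact (hsub (Metric.closedBall_subset_cthickening hw δ hw')).1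
    · exact (hsub (Metric.closedBall_subset_cthickening hw δ hw')).2
  have hω1 : 1 < ω⁻¹ := (one_lt_inv₀ hω0).2 hω
  have H : TwoTerm X ∅ x u v ρ ω⁻¹ (m / β) (fun _ => 0) := by
    refine ⟨hdX, hω1, hρ, hb0, hb1, ?_, ?_, ?_, ?_⟩
    · intro w _ w' _ k hk
      simp at hk
    · intro w hw
      obtain ⟨t, h1, h2, rfl⟩ := hsegt w hw
      obtain ⟨g1, g2, g3⟩ := hS t h1 h2
      have r1 := ratio_eq hβ hr t g1
      have r0 := ratio_eq hβ hr (t - Real.pi) g2
      have d1 : deriv (X 1) ((x : ℂ) + ((t - Real.pi + β / 2 : ℝ) : ℂ) * I) =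
          deriv (GW β) ((Real.log r : ℝ) + ((t + β / 2 : ℝ) : ℂ) * I) := by
        rw [hderX, hx]
        congr 1
        push_cast
        ring
      have d0 : deriv (X 0) ((x : ℂ) + ((t - Real.pi + β / 2 : ℝ) : ℂ) * I) =
          deriv (GW β) ((Real.log r : ℝ) + ((t - Real.pi + β / 2 : ℝ) : ℂ) * I) := by
        rw [hderX, hx]
        congr 1
        push_cast
        ring
      rw [d1, d0, hX1, hX0, r1, r0, Complex.sub_im, Complex.im_ofReal_mul, Complex.im_ofReal_mul, ← mul_sub,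
        div_eq_inv_mul, one_div]
      exact mul_le_mul_of_nonneg_left g3 (by positivity)
    · simp
    · simp only [Finset.sum_empty, mul_zero, sub_zero, mul_one]
      positivity
  have hmain := valley_unique (p := 1) (p' := 1) (b := 2) two_pos hp hq1 hcc hF (x := x) (θ0 := u) (u := u) (v := v)
    (η := 0) (by rw [hu, hv]; linarith) H (by simpa using hω1) ?_ ?_
  · rw [hxr] at hmain
    constructor
    · intro z hz hzr
      have := hmain.1 z hzr (by rw [hq]; exact hz)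
      rw [hq] at this
      exact this
    · intro z w hz hw hzr hwr
      exact hmain.2 z w hzr hwr (by rw [hq]; exact hz) (by rw [hq]; exact hw)
  · intro w hw
    obtain ⟨t, h1, h2, rfl⟩ := hmemt w hw
    refine ⟨?_, by simp⟩
    rcases le_or_gt t c with h3 | h3
    · exact Or.inl (hne0 t (hS t h1 h3).2.1)
    · left
      apply hne0
      intro h0
      have := hO t h3 h2
      rw [h0, norm_zero, mul_zero] at this
      exact absurd this (not_lt.2 (norm_nonneg _))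
  · intro w hw g0 g1 _ hlow
    obtain ⟨t, h1, h2, rfl⟩ := hmemt w hw
    rw [hnorm, inv_inv] at hlow
    rcases le_or_gt t c with h3 | h3
    · refine ⟨by simp, ?_, ?_⟩
      · simp only [Complex.add_im, Complex.ofReal_im, Complex.mul_im, Complex.ofReal_re, Complex.I_im, Complex.I_re]
        rw [hu]; linarith
      · simp only [Complex.add_im, Complex.ofReal_im, Complex.mul_im, Complex.ofReal_re, Complex.I_im, Complex.I_re]
        rw [hv]; linarith
    · exfalso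
      have h4 := hO t h3 h2
      have h5 : 0 < ‖Z0 β r (t - Real.pi)‖ := by
        by_contra hcon
        push Not at hcon
        have : ‖Z0 β r (t - Real.pi)‖ = 0 := le_antisymm hcon (norm_nonneg _)
        rw [this, mul_zero] at h4
        exact absurd h4 (not_lt.2 (norm_nonneg _))
      rw [le_div_iff₀ h5] at hlow
      linarith

end Sok.B2
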