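import Pool.Agent.Lib.MP_816dec_an.B2JR

/-!
MP_816dec_an, b = 2, row B2-CU: `CUstat`.
-/

set_option autoImplicit false

open Complex Set Filter Topology MeasureTheory

namespace Sok.B2

open Sok Sok.W

/-- change of the angle -/
theorem norm_KK_shift {β : ℝ} (r θ δ X Y : ℝ) :
    ‖KK β r (θ + δ) (X + Y * I)‖ = ‖KK β r θ (X + Y * I)‖ * Real.exp (-(Y * δ) / β) := by
  rw [norm_KK, norm_KK, ← Real.exp_add]
  congr 1
  ring

/-- the bound at the points of height at least `y - d` -/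
theorem cu_pt {β r θ x y δ d : ℝ} (hβ : 0 < β) (hs : Sad β r θ x y) (hδ : 0 ≤ δ) {X Y : ℝ} (hY : -d ≤ Y) :
    ‖KK β r (θ + δ) (pt θ x y X Y)‖ ≤
      Ex β x y * Real.exp (-(y - d) * δ / β) * Real.exp (gre x y X Y / β) := by
  have h := norm_KK_pt hβ hs X Y
  unfold pt at h ⊢
  rw [norm_KK_shift, h]
  have h1 : Real.exp (-((y + Y) * δ) / β) ≤ Real.exp (-(y - d) * δ / β) := by
    apply Real.exp_le_exp.2
    apply div_le_div_of_nonneg_right _ hβ.le
    nlinarith
  have hE := Ex_pos β x y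
  calc Ex β x y * Real.exp (gre x y X Y / β) * Real.exp (-((y + Y) * δ) / β)
      ≤ Ex β x y * Real.exp (gre x y X Y / β) * Real.exp (-(y - d) * δ / β) :=
        mul_le_mul_of_nonneg_left h1 (by positivity)
    _ = _ := by ring

theorem cu_leg {β r θ x y δ d : ℝ} {P : ℂ → ℂ} {lL V lR : ℂ} (hp : Pack (KK β r (θ + δ)) P lL V lR) (hβ : 0 < β)
    (hs : Sad β r θ x y) (hδ : 0 ≤ δ) {X Y dx dy l g k : ℝ} (hd : dx ^ 2 + dy ^ 2 = 1)
    (hl : 0 ≤ l) (hk : 0 < k) (hY : ∀ t : ℝ, 0 ≤ t → t ≤ l → -d ≤ Y + t * dy)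
    (hg : ∀ t : ℝ, 0 ≤ t → t ≤ l → gre x y (X + t * dx) (Y + t * dy) ≤ -g - k * t) :
    ‖P (pt θ x y (X + l * dx) (Y + l * dy)) - P (pt θ x y X Y)‖ ≤
      Ex β x y * Real.exp (-(y - d) * δ / β) * legV β g k := by
  have hE := Ex_pos β x y
  have he : ‖(dx : ℂ) + dy * I‖ = 1 := by
    rw [Complex.norm_add_mul_I, hd, Real.sqrt_one]
  have h1 := hp.seg_exp (pt θ x y X Y) ((dx : ℂ) + dy * I) he (l := l) (k := k / β)
    (A := Ex β x y * Real.exp (-(y - d) * δ / β) * Real.exp (-g / β)) (B := 0)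
    hl (by positivity) (by positivity) le_rfl (fun t h0 h1 => by
      rw [← pt_line, zero_mul, add_zero]
      refine (cu_pt hβ hs hδ (hY t h0 h1)).trans ?_
      rw [mul_assoc (Ex β x y * Real.exp (-(y - d) * δ / β))]
      apply mul_le_mul_of_nonneg_left _ (by positivity)
      rw [← Real.exp_add]
      apply Real.exp_le_exp.2
      have : -g / β + -(k / β * t) = (-g - k * t) / β := by ring
      rw [this]
      exact div_le_div_of_nonneg_right (hg t h0 h1) hβ.le)
  rw [pt_line]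
  refine h1.trans (le_of_eq ?_)
  unfold legV
  field_simp
  ring

/-- the valley leg and the real axis -/
theorem cu_valley {β r θ' : ℝ} {P : ℂ → ℂ} {lL V lR : ℂ} (hp : Pack (KK β r θ') P lL V lR) (hβ : 0 < β)
    (hβ3 : β ≤ 0.3) (hκ : 1 ≤ β * r) (hθ : θ' ≤ Real.pi + 1.3) : ‖P ((Real.pi : ℝ) + (0 : ℝ) * I) - V‖ ≤ 0.2 := by
  rw [← hp.valley 0, norm_mul, Complex.norm_I, one_mul]
  refine (norm_integral_le_integral_norm _).trans ?_
  have hk : 0 < 0.3 / β := by positivity
  have i1 : IntegrableOn (fun s : ℝ => Real.exp (-0.8 / β) * Real.exp (0.3 / β * s)) (Iic (0 : ℝ)) :=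
    (integrableOn_exp_mul_Iic hk _).const_mul _
  have h1 : ∫ s in Iic (0 : ℝ), ‖KK β r θ' ((Real.pi : ℝ) + s * I)‖ ≤
      ∫ s in Iic (0 : ℝ), Real.exp (-0.8 / β) * Real.exp (0.3 / β * s) := by
    refine setIntegral_mono_on (hp.valley_int 0).norm i1 measurableSet_Iic ?_
    intro s hs
    have hs' : s ≤ 0 := hs
    rw [norm_KK, Real.cos_pi, ← Real.exp_add]
    apply Real.exp_le_exp.2
    have e1 : (Real.pi - θ') * s / β + r * Real.exp (-s) * -1 = ((Real.pi - θ') * s - β * r * Real.exp (-s)) / β := by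
      field_simp
      ring
    have e2 : -0.8 / β + 0.3 / β * s = (-0.8 + 0.3 * s) / β := by ring
    rw [e1, e2]
    apply div_le_div_of_nonneg_right _ hβ.le
    have h2 : Real.exp (-s) ≤ β * r * Real.exp (-s) := le_mul_of_one_le_left (Real.exp_pos _).le hκ
    have h3 : 1.6 * (-s) + 0.8 ≤ Real.exp (-s) := by
      -- tangent at `log 1.6 < 0.5`
      have h4 := Real.add_one_le_exp (-s - 0.5)
      have h5 : Real.exp (-s) = Real.exp 0.5 * Real.exp (-s - 0.5) := by rw [← Real.exp_add]; congr 1; ring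
      have h6 : 1.6 ≤ Real.exp 0.5 := by
        have := Real.quadratic_le_exp_of_nonneg (x := 0.5) (by norm_num)
        norm_num at this ⊢
        linarith
      have h7 : Real.exp 0.5 ≤ 1.65 := by
        have h := Real.exp_bound' (x := 0.5) (n := 6) (by norm_num) (by norm_num) (by norm_num)
        simp only [Finset.sum_range_succ, Finset.sum_range_zero, Nat.factorial] at h
        norm_num at h ⊢
        linarith
      rcases le_or_gt (-s) 0.5 with h8 | h8
      · have h9 : (1 : ℝ) + (-s) + (-s) ^ 2 / 2 ≤ Real.exp (-s) := Real.quadratic_le_exp_of_nonneg (by linarith)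
        nlinarith [sq_nonneg (-s - 0.6)]
      · rw [h5]
        nlinarith
    nlinarith
  refine h1.trans ?_
  rw [integral_const_mul, integral_exp_mul_Iic hk]
  have h10 : Real.exp (-0.8 / β) ≤ 0.1 := by
    have h11 : Real.exp (-0.8 / β) ≤ Real.exp (-2.6) := by
      apply Real.exp_le_exp.2
      rw [div_le_iff₀ hβ]
      nlinarith
    refine h11.trans ?_
    rw [Real.exp_neg, inv_le_comm₀ (Real.exp_pos _) (by norm_num)]
    have := Real.sum_le_exp_of_nonneg (x := 2.6) (by norm_num) 5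
    simp only [Finset.sum_range_succ, Finset.sum_range_zero, Nat.factorial] at this
    norm_num at this ⊢
    linarith
  rw [mul_zero, Real.exp_zero]
  have h12 : 1 / (0.3 / β) ≤ 1 := by
    rw [div_le_one hk, le_div_iff₀ hβ]
    linarith
  have h13 : 0 < 1 / (0.3 / β) := by positivity
  have h14 := Real.exp_pos (-0.8 / β)
  nlinarith

/-- the central part -/
theorem cu_center {β r θ x y δ : ℝ} {P : ℂ → ℂ} {lL V lR : ℂ} (hp : Pack (KK β r (θ + δ)) P lL V lR) (hβ : 0 < β)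
    (hs : Sad β r θ x y) (hδ : 0 ≤ δ) (hx : 0 < x) (hy : 0 ≤ y) :
    ‖P (pt θ x y 0.768 (-0.224)) - P (pt θ x y (-0.768) 0.224)‖ ≤
      Ex β x y * Real.exp (-(y - 0.224) * δ / β) * Real.sqrt (2 * Real.pi / (cR x y * (aR x y / β))) := by
  obtain ⟨ha, hc0, hc1, hP0⟩ := const_pos hx hy
  have hE := Ex_pos β x y
  obtain ⟨b, hb⟩ : ∃ b : ℝ, b = cR x y * (aR x y / β) / 2 := ⟨_, rfl⟩
  have hb0 : 0 < b := by rw [hb]; positivity
  have en1 : (θ : ℂ) + sgc x y + ((4 / 5 : ℝ) : ℂ) * cexp (gam * I) = pt θ x y 0.768 (-0.224) := by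
    rw [pt_eq, exp_gam]; push_cast; ring
  have en2 : (θ : ℂ) + sgc x y + ((-(4 / 5) : ℝ) : ℂ) * cexp (gam * I) = pt θ x y (-0.768) 0.224 := by
    rw [pt_eq, exp_gam]; push_cast; ring
  have hne : ‖cexp (gam * I)‖ = 1 := Complex.norm_exp_ofReal_mul_I _
  have hc0' := hp.segment (θ + sgc x y) (cexp (gam * I)) (-(4 / 5)) (4 / 5)
  rw [en1, en2] at hc0'
  rw [← hc0', norm_mul, hne, one_mul]
  have hptw : ∀ t : ℝ, |t| ≤ 4 / 5 → ‖KK β r (θ + δ) (θ + sgc x y + t * cexp (gam * I))‖ ≤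
      Ex β x y * Real.exp (-(y - 0.224) * δ / β) * Real.exp (-b * t ^ 2) := by
    intro t ht
    have e1 : (θ : ℂ) + sgc x y + t * cexp (gam * I) = pt θ x y (24 / 25 * t) (-(7 / 25) * t) := by
      rw [pt_eq, exp_gam]; push_cast; ring
    have h1 : -0.224 ≤ -(7 / 25) * t := by
      have := (abs_le.1 ht).2
      linarith
    have h2 := cu_pt hβ hs hδ (X := 24 / 25 * t) h1
    rw [← e1] at h2
    refine h2.trans ?_
    apply mul_le_mul_of_nonneg_left _ (by positivity)
    -- the exponent on the line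
    have h3 := norm_KK_pt hβ hs (24 / 25 * t) (-(7 / 25) * t)
    rw [← e1, KK_saddle hβ hs, norm_mul, norm_KK_center hβ hs, Complex.norm_exp] at h3
    have h4 := mul_left_cancel₀ hE.ne' h3
    rw [← h4]
    apply Real.exp_le_exp.2
    rw [Psi_line (sgc x y) hβ.ne' gam t, Complex.add_re]
    obtain ⟨Λ, hΛ⟩ : ∃ Λ : ℂ, Λ = (I + sgc x y) / β * cexp (2 * gam * I) := ⟨_, rfl⟩
    have hΛre := Lam_eq hΛ
    rw [← hΛ]
    have h5 : (-(Λ / 2) * (t : ℂ) ^ 2).re = -(aR x y / β / 2 * t ^ 2) := by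
      have : -(Λ / 2) * (t : ℂ) ^ 2 = ((-(t ^ 2) / 2 : ℝ) : ℂ) * Λ := by push_cast; ring
      rw [this, Complex.re_ofReal_mul, hΛre]
      ring
    rw [h5]
    have h6 := hre_gam hβ hx hy t ht
    rw [hb]
    have e2 : -(cR x y * (aR x y / β) / 2) * t ^ 2 = -(aR x y / β / 2 * t ^ 2) + (1 - cR x y) * (aR x y / β) * t ^ 2 / 2 := by
      ring
    rw [e2]
    linarith
  have hcont : Continuous (fun t : ℝ => Ex β x y * Real.exp (-(y - 0.224) * δ / β) * Real.exp (-b * t ^ 2)) := by fun_prop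
  have h1 : ‖∫ t in (-(4 / 5) : ℝ)..(4 / 5), KK β r (θ + δ) (θ + sgc x y + t * cexp (gam * I))‖ ≤
      ∫ t in (-(4 / 5) : ℝ)..(4 / 5), Ex β x y * Real.exp (-(y - 0.224) * δ / β) * Real.exp (-b * t ^ 2) := by
    refine intervalIntegral.norm_integral_le_of_norm_le (by norm_num) ?_ (hcont.intervalIntegrable _ _)
    exact Filter.Eventually.of_forall (fun t ht => hptw t (abs_le.2 ⟨ht.1.le, ht.2⟩))
  refine h1.trans ?_
  rw [intervalIntegral.integral_const_mul]
  apply mul_le_mul_of_nonneg_left _ (by positivity)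
  have h2 : ∫ t in (-(4 / 5) : ℝ)..(4 / 5), Real.exp (-b * t ^ 2) ≤ ∫ t : ℝ, Real.exp (-b * t ^ 2) := by
    rw [intervalIntegral.integral_of_le (by norm_num)]
    exact setIntegral_le_integral (integrable_exp_neg_mul_sq hb0) (Filter.Eventually.of_forall fun t => (Real.exp_pos _).le)
  rw [integral_gaussian] at h2
  refine h2.trans (le_of_eq ?_)
  congr 1
  rw [hb]
  field_simp

/-- **the outer bound** -/
theorem CU : CUstat := by
  intro β r θ x y δ hβ hr hs hx hx3 hy2 hy7 hP hk1 hδ hκ hθ1 hθ2 hθδ hβ3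
  have hy : 0 ≤ y := by linarith
  have hE := Ex_pos β x y
  have hpi := Real.pi_gt_d6
  have hpi' := Real.pi_lt_d6
  obtain ⟨P, hP'⟩ := exists_prim (differentiable_KK β r (θ + δ))
  obtain ⟨lL, V, lR, hp, tL, tR⟩ := exists_pack hβ hr zero_le_one (differentiable_KK β r (θ + δ))
    (bd_KK β r (θ + δ)) hP'
  rw [hp.XL_eq]
  obtain ⟨F, hF⟩ : ∃ F : ℝ, F = Real.exp (-(y - 0.224) * δ / β) := ⟨_, rfl⟩
  have hF0 : 0 < F := by rw [hF]; exact Real.exp_pos _
  -- left legs
  have l1 := cu_leg hp hβ hs hδ (d := 0.224) (X := -0.768) (Y := 0.224) (dx := -1) (dy := 0) (l := Real.pi - 0.768)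
    (g := 0.172 + 0.201 * x + 0.2127 * y) (k := 0.224 + 0.5515 * x) (by norm_num) (by linarith)
    (by positivity) (fun t h0 _ => by norm_num)
    (fun t h0 h1 => by
      have := gre_L1 (x := x) (y := y) (t := 0.768 + t) hx.le hy (by linarith) (by linarith)
      rw [show (-0.768 : ℝ) + t * -1 = -(0.768 + t) by ring, show (0.224 : ℝ) + t * 0 = 0.224 by ring]
      refine this.trans (le_of_eq (by ring)))
  rw [show (-0.768 : ℝ) + (Real.pi - 0.768) * -1 = -Real.pi by ring,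
    show (0.224 : ℝ) + (Real.pi - 0.768) * 0 = 0.224 by ring, norm_sub_rev, ← hF] at l1
  have l2 : ‖P (pt θ x y (-Real.pi) 0.224) - P (pt θ x y (-Real.pi) 1)‖ ≤
      Ex β x y * F * (0.776 * Real.exp (-(0.7 + 0.8 * x + 3.14 * y) / β)) := by
    have h1 := norm_ver_le hp.diff hp.prim (a := y + 1) (b := y + 0.224) (X := θ + x + -Real.pi)
      (C := Ex β x y * F * Real.exp (-(0.7 + 0.8 * x + 3.14 * y) / β)) (fun Y' hY' => by
        rw [uIoc_of_ge (by linarith), mem_Ioc] at hY'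
        obtain ⟨Y, hY⟩ : ∃ Y : ℝ, Y = Y' - y := ⟨_, rfl⟩
        have hY1 : 0.224 ≤ Y := by linarith [hY'.1]
        have hY2 : Y ≤ 1 := by linarith [hY'.2]
        have e : Y' = y + Y := by linarith
        rw [e, hF]
        refine (cu_pt hβ hs hδ (X := -Real.pi) (Y := Y) (d := 0.224) (by linarith)).trans ?_
        apply mul_le_mul_of_nonneg_left _ (by positivity)
        exact Real.exp_le_exp.2 (div_le_div_of_nonneg_right (gre_L2 hx.le hx3 hy hY1 hY2) hβ.le))
    unfold pt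
    refine h1.trans (le_of_eq ?_)
    have e : |y + 0.224 - (y + 1)| = 0.776 := by
      rw [show y + 0.224 - (y + 1) = -0.776 by ring]
      norm_num
    rw [e]
    ring
  have l3 : ‖P (pt θ x y (-Real.pi) 1) - lL‖ ≤ Ex β x y * F * legV β 3 0.3 := by
    have h1 := left_hor_exp hp (Y := y + 1) (by linarith) (θ + x + -Real.pi) (k := 0.3 / β)
      (A := Ex β x y * F * Real.exp (-3 / β)) (B := 0) (by positivity) (by positivity) le_rfl (fun t h0 => by
        rw [zero_mul, add_zero, hF]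
        have h3 := cu_pt hβ hs hδ (X := -Real.pi - t) (Y := 1) (d := 0.224) (by norm_num)
        have e : pt θ x y (-Real.pi - t) 1 = ((θ + x + -Real.pi - t : ℝ) : ℂ) + ((y + 1 : ℝ) : ℂ) * I := by
          unfold pt; push_cast; ring
        rw [e] at h3
        refine h3.trans ?_
        rw [mul_assoc (Ex β x y * Real.exp (-(y - 0.224) * δ / β))]
        apply mul_le_mul_of_nonneg_left _ (by positivity)
        rw [← Real.exp_add]
        apply Real.exp_le_exp.2
        have : -3 / β + -(0.3 / β * t) = (-3 - 0.3 * t) / β := by ring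
        rw [this]
        exact div_le_div_of_nonneg_right (gre_L3 hx.le hy hP h0) hβ.le)
    unfold pt
    refine h1.trans (le_of_eq ?_)
    unfold legV
    field_simp
    ring
  have c0 := cu_center hp hβ hs hδ hx hy
  rw [← hF] at c0
  have r1 := cu_leg hp hβ hs hδ (d := 0.224) (X := 0.768) (Y := -0.224) (dx := 1) (dy := 0) (l := Real.pi / 2 - 0.768)
    (g := 0.172 + 0.324 * x + 0.1011 * y) (k := 0.224 + 0.8691 * x - 0.5243 * y) (by norm_num)
    (by linarith) hk1 (fun t h0 _ => by norm_num)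
    (fun t h0 h1 => by
      have := gre_R1 (x := x) (y := y) (X := 0.768 + t) hx.le hy (by linarith) (by linarith)
      rw [show (0.768 : ℝ) + t * 1 = 0.768 + t by ring, show (-0.224 : ℝ) + t * 0 = -0.224 by ring]
      refine this.trans (le_of_eq (by ring)))
  rw [show (0.768 : ℝ) + (Real.pi / 2 - 0.768) * 1 = Real.pi / 2 by ring,
    show (-0.224 : ℝ) + (Real.pi / 2 - 0.768) * 0 = -0.224 by ring, ← hF] at r1
  have r2 := cu_leg hp hβ hs hδ (d := y) (X := Real.pi / 2) (Y := -0.224) (dx := 0) (dy := -1) (l := y - 0.224)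
    (g := 0.3518 + 1.224 * x - 0.3198 * y) (k := 1.57) (by norm_num)
    (by linarith) (by norm_num) (fun t h0 h1 => by linarith)
    (fun t h0 h1 => by
      have := gre_R2 (x := x) (y := y) (V := 0.224 + t) hx.le hy (by linarith)
      rw [show Real.pi / 2 + t * 0 = Real.pi / 2 by ring, show (-0.224 : ℝ) + t * -1 = -(0.224 + t) by ring]
      refine this.trans (le_of_eq (by ring)))
  rw [show Real.pi / 2 + (y - 0.224) * 0 = Real.pi / 2 by ring,
    show (-0.224 : ℝ) + (y - 0.224) * -1 = -y by ring, sub_self, neg_zero, zero_mul, zero_div, Real.exp_zero, mul_one] at r2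
  -- the real axis
  have epr : pt θ x y (Real.pi / 2) (-y) = ((θ + x + Real.pi / 2 : ℝ) : ℂ) + ((0 : ℝ) : ℂ) * I := by
    unfold pt; rw [add_neg_cancel]
  have a1 : ‖P ((Real.pi : ℝ) + (0 : ℝ) * I) - P (pt θ x y (Real.pi / 2) (-y))‖ ≤ 1.5 := by
    rw [epr]
    have h1 := norm_hor_le hp.diff hp.prim (a := θ + x + Real.pi / 2) (b := Real.pi) (Y := 0) (C := 1) (fun X hX => by
      rw [uIoc_of_le (by linarith), mem_Ioc] at hX
      rw [norm_KK]
      apply Real.exp_le_one_iff.2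
      have h2 : Real.cos X ≤ 0 := Real.cos_nonpos_of_pi_div_two_le_of_le (by linarith [hX.1]) (by linarith [hX.2])
      have h3 : r * Real.exp (-0) * Real.cos X ≤ 0 := mul_nonpos_of_nonneg_of_nonpos (by positivity) h2
      rw [mul_zero, zero_div, zero_add]
      exact h3)
    refine h1.trans ?_
    rw [one_mul, abs_of_nonneg (by linarith)]
    linarith
  have v1 := cu_valley hp hβ hβ3 hκ hθδ
  have e : V - lL = -(P ((Real.pi : ℝ) + (0 : ℝ) * I) - V) + (P ((Real.pi : ℝ) + (0 : ℝ) * I) - P (pt θ x y (Real.pi / 2) (-y))) +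
      (P (pt θ x y (Real.pi / 2) (-y)) - P (pt θ x y (Real.pi / 2) (-0.224))) +
      (P (pt θ x y (Real.pi / 2) (-0.224)) - P (pt θ x y 0.768 (-0.224))) +
      (P (pt θ x y 0.768 (-0.224)) - P (pt θ x y (-0.768) 0.224)) +
      (P (pt θ x y (-0.768) 0.224) - P (pt θ x y (-Real.pi) 0.224)) +
      (P (pt θ x y (-Real.pi) 0.224) - P (pt θ x y (-Real.pi) 1)) +
      (P (pt θ x y (-Real.pi) 1) - lL) := by ring
  rw [e]
  have v2 : ‖-(P ((Real.pi : ℝ) + (0 : ℝ) * I) - V)‖ ≤ 0.2 := by rw [norm_neg]; exact v1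
  refine (norm_add_le_of_le (norm_add_le_of_le (norm_add_le_of_le (norm_add_le_of_le (norm_add_le_of_le
    (norm_add_le_of_le (norm_add_le_of_le v2 a1) r2) r1) c0) l1) l2) l3).trans ?_
  rw [← hF]
  unfold absR tR1
  nlinarith

end Sok.B2
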