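import Pool.Agent.Lib.MP_816dec_an.XY

/-!
MP_816dec_an, b = 1: `(1-i) √(πβ) F = X + Y` (split at the valley `Re y = π`), derivatives along the circle, and
the conclusion: if `Im (X'/X) ...` is monotone on a window then the circle carries at most one zero, simple.
-/

set_option autoImplicit false

open Complex Set Filter Topology MeasureTheory

namespace Sok.W

/-- left part -/
noncomputable def XL (h : ℂ → ℂ) : ℂ :=
  (∫ X in Iic Real.pi, h (X + (1 : ℝ) * I)) - I * ∫ s in Iic (1 : ℝ), h ((Real.pi : ℝ) + s * I)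

/-- right part -/
noncomputable def YR (h : ℂ → ℂ) : ℂ :=
  I * (∫ s in Iic (-1 : ℝ), h ((Real.pi : ℝ) + s * I)) + ∫ X in Ioi Real.pi, h (X + (-1 : ℝ) * I)

/-- the first moment integrand -/
noncomputable def K1 (β r θ : ℝ) (y : ℂ) : ℂ := (y - θ) * KK β r θ y

theorem differentiable_KK (β r θ : ℝ) : Differentiable ℂ (KK β r θ) := by unfold KK; fun_prop

theorem differentiable_K1 (β r θ : ℝ) : Differentiable ℂ (K1 β r θ) := by
  unfold K1 KK; fun_prop

theorem bd_KK (β r θ : ℝ) (X Y : ℝ) :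
    ‖KK β r θ (X + Y * I)‖ ≤ (|X| + |Y| + 1) * ‖KK β r θ (X + Y * I)‖ := by
  have h1 := norm_nonneg (KK β r θ (X + Y * I))
  have h2 := abs_nonneg X
  have h3 := abs_nonneg Y
  nlinarith

theorem bd_K1 (β r θ : ℝ) (X Y : ℝ) :
    ‖K1 β r θ (X + Y * I)‖ ≤ (|X| + |Y| + |θ|) * ‖KK β r θ (X + Y * I)‖ := by
  unfold K1
  rw [norm_mul]
  refine mul_le_mul_of_nonneg_right ?_ (norm_nonneg _)
  refine (norm_sub_le _ _).trans ?_
  refine add_le_add ((norm_add_le _ _).trans ?_) ?_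
  · rw [norm_mul, Complex.norm_I, mul_one, Complex.norm_real, Complex.norm_real, Real.norm_eq_abs, Real.norm_eq_abs]
  · rw [Complex.norm_real, Real.norm_eq_abs]

/-- the primitive package of an integrand -/
structure Pack (h P : ℂ → ℂ) (lL V lR : ℂ) : Prop where
  prim : ∀ x, HasDerivAt P (h x) x
  diff : Differentiable ℂ h
  left : ∀ Y : ℝ, 0 < Y → ∀ a : ℝ, ∫ X in Iic a, h (X + Y * I) = P (a + Y * I) - lL
  left_int : ∀ Y : ℝ, 0 < Y → ∀ a : ℝ, IntegrableOn (fun X : ℝ => h (X + Y * I)) (Iic a)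
  right : ∀ Y : ℝ, Y < 0 → ∀ a : ℝ, ∫ X in Ioi a, h (X + Y * I) = lR - P (a + Y * I)
  right_int : ∀ Y : ℝ, Y < 0 → ∀ a : ℝ, IntegrableOn (fun X : ℝ => h (X + Y * I)) (Ioi a)
  valley : ∀ b : ℝ, I * ∫ s in Iic b, h ((Real.pi : ℝ) + s * I) = P ((Real.pi : ℝ) + b * I) - V
  valley_int : ∀ b : ℝ, IntegrableOn (fun s : ℝ => h ((Real.pi : ℝ) + s * I)) (Iic b)
  XL_eq : XL h = V - lL
  YR_eq : YR h = lR - V

theorem exists_pack {β r θ : ℝ} (hβ : 0 < β) (hr : 0 < r) {h : ℂ → ℂ} {A : ℝ} (hA : 0 ≤ A) (hd : Differentiable ℂ h)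
    (hh : ∀ X Y : ℝ, ‖h (X + Y * I)‖ ≤ (|X| + |Y| + A) * ‖KK β r θ (X + Y * I)‖)
    {P : ℂ → ℂ} (hP : ∀ x, HasDerivAt P (h x) x) :
    ∃ (lL V lR : ℂ), Pack h P lL V lR ∧ (∀ Y : ℝ, 0 < Y → Tendsto (fun X : ℝ => P (X + Y * I)) atBot (𝓝 lL)) ∧
      (∀ Y : ℝ, Y < 0 → Tendsto (fun X : ℝ => P (X + Y * I)) atTop (𝓝 lR)) := by
  have dL := decL_of_KK hβ hA hh
  have dR := decR_of_KK hβ hA hh
  have dV := decV_of_KK hβ hr hA hh
  obtain ⟨lL, hL⟩ := dL.lim hd hP
  obtain ⟨lR, hR⟩ := dR.lim hd hP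
  obtain ⟨V, hV⟩ := dV.lim hd hP
  refine ⟨lL, V, lR, ⟨hP, hd, fun Y hY a => (hL Y hY).2 a, fun Y hY a => dL.int hd.continuous hY a,
    fun Y hY a => (hR Y hY).2 a, fun Y hY a => dR.int hd.continuous hY a, hV, fun b => dV.int hd.continuous b, ?_, ?_⟩,
    fun Y hY => (hL Y hY).1, fun Y hY => (hR Y hY).1⟩
  · unfold XL
    rw [(hL 1 one_pos).2 Real.pi, hV 1]
    ring
  · unfold YR
    rw [(hR (-1) (by norm_num)).2 Real.pi, hV (-1)]
    ring

/-- `(1-i) √(πβ) F = X + Y` -/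
theorem XL_add_YR {β r : ℝ} (hβ : 0 < β) (hr : 0 < r) (θ : ℝ) :
    XL (KK β r θ) + YR (KK β r θ) =
      (1 - I) * (Real.sqrt (Real.pi * β) : ℝ) * F (cexp (I * β)) (r * cexp (((θ + β / 2 : ℝ) : ℂ) * I)) := by
  obtain ⟨P, lL, lR, hP, hl, hF⟩ := exists_F_lim hβ (r * cexp (((θ + β / 2 : ℝ) : ℂ) * I))
  have hP' : ∀ x, HasDerivAt (fun y : ℂ => P (y - θ)) (KK β r θ x) x := by
    intro x
    have h1 : HasDerivAt (fun y : ℂ => y - θ) 1 x := (hasDerivAt_id x).sub_const _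
    have h2 := HasDerivAt.comp x (hP (x - θ)) h1
    rw [mul_one, GG_eq_KK, sub_add_cancel] at h2
    exact h2
  obtain ⟨mL, V, mR, hpk, tL, tR⟩ := exists_pack hβ hr zero_le_one (differentiable_KK β r θ) (bd_KK β r θ) hP'
  have e1 : mL = lL := by
    have h1 := tL 1 one_pos
    have h2 : Tendsto (fun X : ℝ => P ((X - θ : ℝ) + (1 : ℝ) * I)) atBot (𝓝 lL) :=
      (hl.left 1 one_pos).comp (tendsto_atBot_add_const_right _ _ tendsto_id)
    refine tendsto_nhds_unique h1 (h2.congr fun X => ?_)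
    congr 1
    push_cast
    ring
  have e2 : mR = lR := by
    have h1 := tR (-1) (by norm_num)
    have h2 : Tendsto (fun X : ℝ => P ((X - θ : ℝ) + (-1 : ℝ) * I)) atTop (𝓝 lR) :=
      (hl.right (-1) (by norm_num)).comp (tendsto_atTop_add_const_right _ _ tendsto_id)
    refine tendsto_nhds_unique h1 (h2.congr fun X => ?_)
    congr 1
    push_cast
    ring
  rw [hpk.XL_eq, hpk.YR_eq, ← hF, e1, e2]
  ring

private theorem hasDerivAt_top {β r : ℝ} (hβ : 0 < β) (θ₀ : ℝ) :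
    HasDerivAt (fun θ : ℝ => ∫ X in Iic Real.pi, KK β r θ (X + (1 : ℝ) * I))
      (I / β * ∫ X in Iic Real.pi, K1 β r θ₀ (X + (1 : ℝ) * I)) θ₀ := by
  have hc : 0 < 1 / β := by positivity
  obtain ⟨C, hC, hl⟩ := lin_exp hc (1 + |θ₀| + 1) Real.pi (by positivity)
  have hi : IntegrableOn (fun u : ℝ => KK β r θ₀ (u + (1 : ℝ) * I)) (Iic Real.pi) :=
    (decL_of_KK hβ zero_le_one (bd_KK β r θ₀)).int (continuous_KK β r θ₀) one_pos _
  refine hasDerivAt_leg hβ (γ := fun u : ℝ => (u : ℂ) + (1 : ℝ) * I) (by fun_prop) θ₀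
    (g := fun u => (C * Real.exp ((|θ₀| + 1) / β + |r|)) * Real.exp (1 / β / 2 * u)) ?_ ?_ hi measurableSet_Iic
  · exact (integrableOn_exp_mul_Iic (by positivity) _).const_mul _
  · intro u hu θ hθ
    have hθ' : |θ| ≤ |θ₀| + 1 := by
      have := abs_sub_abs_le_abs_sub θ θ₀
      linarith
    have h1 : ‖(u : ℂ) + (1 : ℝ) * I - θ‖ ≤ |u| + (1 + |θ₀| + 1) := by
      refine (norm_sub_le _ _).trans ?_
      have h2 : ‖(u : ℂ) + (1 : ℝ) * I‖ ≤ |u| + 1 := by
        refine (norm_add_le _ _).trans ?_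
        rw [norm_mul, Complex.norm_I, mul_one, Complex.norm_real, Complex.norm_real, Real.norm_eq_abs]
        simp
      rw [Complex.norm_real, Real.norm_eq_abs]
      linarith
    have h3 : ‖KK β r θ (u + (1 : ℝ) * I)‖ ≤ Real.exp (1 / β * u) * Real.exp ((|θ₀| + 1) / β + |r|) := by
      rw [norm_KK, ← Real.exp_add]
      apply Real.exp_le_exp.2
      have h4 : (u - θ) * 1 / β ≤ 1 / β * u + (|θ₀| + 1) / β := by
        have e1 : (u - θ) * 1 / β = 1 / β * u + (-θ) / β := by ring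
        have e2 : (-θ) / β ≤ (|θ₀| + 1) / β := by
          apply div_le_div_of_nonneg_right _ hβ.le
          have := neg_le_abs θ
          linarith
        linarith
      have h5 : r * Real.exp (-1) * Real.cos u ≤ |r| := by
        refine (le_abs_self _).trans ?_
        rw [abs_mul, abs_mul, Real.abs_exp]
        have h6 : Real.exp (-1) ≤ 1 := Real.exp_le_one_iff.2 (by norm_num)
        calc |r| * Real.exp (-1) * |Real.cos u| ≤ |r| * 1 * 1 := by
              apply mul_le_mul (mul_le_mul_of_nonneg_left h6 (abs_nonneg r)) (Real.abs_cos_le_one u) (abs_nonneg _)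
                (by positivity)
          _ = |r| := by ring
      linarith
    calc ‖(u : ℂ) + (1 : ℝ) * I - θ‖ * ‖KK β r θ (u + (1 : ℝ) * I)‖
        ≤ (|u| + (1 + |θ₀| + 1)) * (Real.exp (1 / β * u) * Real.exp ((|θ₀| + 1) / β + |r|)) :=
          mul_le_mul h1 h3 (norm_nonneg _) (by positivity)
      _ = ((|u| + (1 + |θ₀| + 1)) * Real.exp (1 / β * u)) * Real.exp ((|θ₀| + 1) / β + |r|) := by ring
      _ ≤ (C * Real.exp (1 / β / 2 * u)) * Real.exp ((|θ₀| + 1) / β + |r|) :=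
          mul_le_mul_of_nonneg_right (hl u hu) (Real.exp_pos _).le
      _ = _ := by ring

private theorem hasDerivAt_bot {β r : ℝ} (hβ : 0 < β) (θ₀ : ℝ) :
    HasDerivAt (fun θ : ℝ => ∫ X in Ioi Real.pi, KK β r θ (X + (-1 : ℝ) * I))
      (I / β * ∫ X in Ioi Real.pi, K1 β r θ₀ (X + (-1 : ℝ) * I)) θ₀ := by
  have hc : 0 < 1 / β := by positivity
  obtain ⟨C, hC, hl⟩ := lin_exp hc (1 + |θ₀| + 1) 0 (by positivity)
  have hi : IntegrableOn (fun u : ℝ => KK β r θ₀ (u + (-1 : ℝ) * I)) (Ioi Real.pi) :=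
    (decR_of_KK hβ zero_le_one (bd_KK β r θ₀)).int (continuous_KK β r θ₀) (by norm_num) _
  refine hasDerivAt_leg hβ (γ := fun u : ℝ => (u : ℂ) + (-1 : ℝ) * I) (by fun_prop) θ₀
    (g := fun u => (C * Real.exp ((|θ₀| + 1) / β + |r| * Real.exp 1)) * Real.exp (-(1 / β / 2) * u)) ?_ ?_ hi
    measurableSet_Ioi
  · exact (exp_neg_integrableOn_Ioi _ (by positivity)).const_mul _
  · intro u hu θ hθ
    have hu0 : 0 < u := Real.pi_pos.trans hu
    have hθ' : |θ| ≤ |θ₀| + 1 := by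
      have := abs_sub_abs_le_abs_sub θ θ₀
      linarith
    have h1 : ‖(u : ℂ) + (-1 : ℝ) * I - θ‖ ≤ |-u| + (1 + |θ₀| + 1) := by
      rw [abs_neg]
      refine (norm_sub_le _ _).trans ?_
      have h2 : ‖(u : ℂ) + (-1 : ℝ) * I‖ ≤ |u| + 1 := by
        refine (norm_add_le _ _).trans ?_
        rw [norm_mul, Complex.norm_I, mul_one, Complex.norm_real, Complex.norm_real, Real.norm_eq_abs]
        simp
      rw [Complex.norm_real, Real.norm_eq_abs]
      linarith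
    have h3 : ‖KK β r θ (u + (-1 : ℝ) * I)‖ ≤ Real.exp (1 / β * (-u)) * Real.exp ((|θ₀| + 1) / β + |r| * Real.exp 1) := by
      rw [norm_KK, ← Real.exp_add]
      apply Real.exp_le_exp.2
      have h4 : (u - θ) * (-1) / β ≤ 1 / β * (-u) + (|θ₀| + 1) / β := by
        have e1 : (u - θ) * (-1) / β = 1 / β * (-u) + θ / β := by ring
        have e2 : θ / β ≤ (|θ₀| + 1) / β := by
          apply div_le_div_of_nonneg_right _ hβ.le
          have := le_abs_self θ
          linarith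
        linarith
      have h5 : r * Real.exp (-(-1)) * Real.cos u ≤ |r| * Real.exp 1 := by
        refine (le_abs_self _).trans ?_
        rw [abs_mul, abs_mul, Real.abs_exp, neg_neg]
        calc |r| * Real.exp 1 * |Real.cos u| ≤ |r| * Real.exp 1 * 1 := by
              apply mul_le_mul_of_nonneg_left (Real.abs_cos_le_one u) (by positivity)
          _ = |r| * Real.exp 1 := by ring
      exact (add_le_add h4 h5).trans (le_of_eq (by ring))
    have hl' := hl (-u) (by linarith)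
    calc ‖(u : ℂ) + (-1 : ℝ) * I - θ‖ * ‖KK β r θ (u + (-1 : ℝ) * I)‖
        ≤ (|-u| + (1 + |θ₀| + 1)) * (Real.exp (1 / β * (-u)) * Real.exp ((|θ₀| + 1) / β + |r| * Real.exp 1)) :=
          mul_le_mul h1 h3 (norm_nonneg _) (by positivity)
      _ = ((|-u| + (1 + |θ₀| + 1)) * Real.exp (1 / β * (-u))) * Real.exp ((|θ₀| + 1) / β + |r| * Real.exp 1) := by ring
      _ ≤ (C * Real.exp (1 / β / 2 * (-u))) * Real.exp ((|θ₀| + 1) / β + |r| * Real.exp 1) :=
          mul_le_mul_of_nonneg_right hl' (Real.exp_pos _).le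
      _ = _ := by
          have : 1 / β / 2 * (-u) = -(1 / β / 2) * u := by ring
          rw [this]; ring

private theorem hasDerivAt_val {β r : ℝ} (hβ : 0 < β) (hr : 0 < r) (θ₀ b : ℝ) :
    HasDerivAt (fun θ : ℝ => ∫ s in Iic b, KK β r θ ((Real.pi : ℝ) + s * I))
      (I / β * ∫ s in Iic b, K1 β r θ₀ ((Real.pi : ℝ) + s * I)) θ₀ := by
  obtain ⟨M, hM, hb⟩ := KK_valley (β := β) (r := r) hβ hr (|θ₀| + 1) b
  obtain ⟨C, hC, hl⟩ := lin_exp (c := 2) two_pos (Real.pi + |θ₀| + 1) b (by have := Real.pi_pos; positivity)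
  have hi : IntegrableOn (fun s : ℝ => KK β r θ₀ ((Real.pi : ℝ) + s * I)) (Iic b) :=
    (decV_of_KK hβ hr zero_le_one (bd_KK β r θ₀)).int (continuous_KK β r θ₀) _
  refine hasDerivAt_leg hβ (γ := fun s : ℝ => ((Real.pi : ℝ) : ℂ) + s * I) (by fun_prop) θ₀
    (g := fun s => (C * M) * Real.exp (1 * s)) ?_ ?_ hi measurableSet_Iic
  · exact (integrableOn_exp_mul_Iic one_pos _).const_mul _
  · intro s hs θ hθ
    have hθ' : |θ| ≤ |θ₀| + 1 := by
      have := abs_sub_abs_le_abs_sub θ θ₀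
      linarith
    have hpi := Real.pi_pos
    have h1 : ‖((Real.pi : ℝ) : ℂ) + s * I - θ‖ ≤ |s| + (Real.pi + |θ₀| + 1) := by
      refine (norm_sub_le _ _).trans ?_
      have h2 : ‖((Real.pi : ℝ) : ℂ) + s * I‖ ≤ Real.pi + |s| := by
        refine (norm_add_le _ _).trans ?_
        rw [norm_mul, Complex.norm_I, mul_one, Complex.norm_real, Complex.norm_real, Real.norm_eq_abs, Real.norm_eq_abs,
          abs_of_pos hpi]
      rw [Complex.norm_real, Real.norm_eq_abs]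
      linarith
    have h3 := hb θ s hθ' hs
    have h4 := hl s hs
    rw [show (2:ℝ) / 2 * s = 1 * s by ring] at h4
    calc ‖((Real.pi : ℝ) : ℂ) + s * I - θ‖ * ‖KK β r θ (((Real.pi : ℝ) : ℂ) + s * I)‖
        ≤ (|s| + (Real.pi + |θ₀| + 1)) * (M * Real.exp (2 * s)) := mul_le_mul h1 h3 (norm_nonneg _) (by positivity)
      _ = M * ((|s| + (Real.pi + |θ₀| + 1)) * Real.exp (2 * s)) := by ring
      _ ≤ M * (C * Real.exp (1 * s)) := mul_le_mul_of_nonneg_left h4 hM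
      _ = _ := by ring

theorem hasDerivAt_XL {β r : ℝ} (hβ : 0 < β) (hr : 0 < r) (θ : ℝ) :
    HasDerivAt (fun θ : ℝ => XL (KK β r θ)) (I / β * XL (K1 β r θ)) θ := by
  refine ((hasDerivAt_top hβ θ).sub ((hasDerivAt_val hβ hr θ 1).const_mul I)).congr_deriv ?_
  unfold XL
  ring

theorem hasDerivAt_YR {β r : ℝ} (hβ : 0 < β) (hr : 0 < r) (θ : ℝ) :
    HasDerivAt (fun θ : ℝ => YR (KK β r θ)) (I / β * YR (K1 β r θ)) θ := by
  refine (((hasDerivAt_val hβ hr θ (-1)).const_mul I).add (hasDerivAt_bot hβ θ)).congr_deriv ?_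
  unfold YR
  ring

/-- the logarithmic derivative of the modulus -/
theorem hasDerivAt_log_normSq {f : ℝ → ℂ} {f' : ℂ} {t : ℝ} (hf : HasDerivAt f f' t) (h0 : f t ≠ 0) :
    HasDerivAt (fun t => Real.log (Complex.normSq (f t))) (2 * (f' / f t).re) t := by
  have hre : HasDerivAt (fun t => (f t).re) f'.re t :=
    (Complex.reCLM.hasFDerivAt (x := f t)).comp_hasDerivAt t hf
  have him : HasDerivAt (fun t => (f t).im) f'.im t :=
    (Complex.imCLM.hasFDerivAt (x := f t)).comp_hasDerivAt t hf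
  have hn : HasDerivAt (fun t => Complex.normSq (f t)) (2 * (f'.re * (f t).re + f'.im * (f t).im)) t := by
    have h1 := (hre.mul hre).add (him.mul him)
    refine h1.congr_deriv ?_
    ring
  have hpos : Complex.normSq (f t) ≠ 0 := (Complex.normSq_pos.2 h0).ne'
  refine (hn.log hpos).congr_deriv ?_
  rw [Complex.div_re]
  field_simp

/-- choose the angle in a given window -/
theorem exists_angle {z : ℂ} {r : ℝ} (hz : ‖z‖ = r) (a s : ℝ) :
    ∃ θ : ℝ, a ≤ θ ∧ θ < a + 2 * Real.pi ∧ z = r * cexp (((θ + s : ℝ) : ℂ) * I) := by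
  obtain ⟨k, hk⟩ : ∃ k : ℤ, k = ⌊(Complex.arg z - s - a) / (2 * Real.pi)⌋ := ⟨_, rfl⟩
  have hpi := Real.pi_pos
  refine ⟨Complex.arg z - s - k * (2 * Real.pi), ?_, ?_, ?_⟩
  · have h := Int.floor_le ((Complex.arg z - s - a) / (2 * Real.pi))
    rw [← hk, le_div_iff₀ (by positivity)] at h
    linarith
  · have h := Int.lt_floor_add_one ((Complex.arg z - s - a) / (2 * Real.pi))
    rw [← hk, div_lt_iff₀ (by positivity)] at h
    nlinarith
  · rw [← hz]
    have h1 := Complex.norm_mul_exp_arg_mul_I z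
    have h2 : cexp (((Complex.arg z - s - k * (2 * Real.pi) + s : ℝ) : ℂ) * I) = cexp (Complex.arg z * I) := by
      rw [Complex.exp_eq_exp_iff_exists_int]
      refine ⟨-k, ?_⟩
      push_cast
      ring
    rw [h2, h1]

/-- **b = 1, conclusion.** `[a, c]`: the two parts do not vanish and `Im E_Y < Im E_X`; `(c, a + 2π)`: no zero. -/
theorem circ_of_XY {β r a c : ℝ} (hβ : 0 < β) (hr : 0 < r)
    (h0 : ∀ θ : ℝ, a ≤ θ → θ ≤ c → XL (KK β r θ) ≠ 0 ∧ YR (KK β r θ) ≠ 0 ∧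
      (YR (K1 β r θ) / YR (KK β r θ)).im < (XL (K1 β r θ) / XL (KK β r θ)).im)
    (h1 : ∀ θ : ℝ, c < θ → θ < a + 2 * Real.pi → XL (KK β r θ) + YR (KK β r θ) ≠ 0) : Circ β r := by
  have hβ' : (β : ℂ) ≠ 0 := by exact_mod_cast hβ.ne'
  have hcF : (1 - I) * (Real.sqrt (Real.pi * β) : ℝ) ≠ 0 := by
    refine mul_ne_zero ?_ ?_
    · intro h
      have := congrArg Complex.re h
      simp at this
    · have : 0 < Real.sqrt (Real.pi * β) := Real.sqrt_pos.2 (by have := Real.pi_pos; positivity)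
      exact_mod_cast this.ne'
  have hFa : ∀ z, Fa β z = F (cexp (I * β)) z := by
    intro z; unfold Fa; rw [mul_comm]
  -- location of the zeros
  have key : ∀ z, Fa β z = 0 → ‖z‖ = r → ∃ θ : ℝ, a ≤ θ ∧ θ ≤ c ∧ z = r * cexp (((θ + β / 2 : ℝ) : ℂ) * I) ∧
      XL (KK β r θ) + YR (KK β r θ) = 0 := by
    intro z hz hzr
    obtain ⟨θ, ha, hb, hzθ⟩ := exists_angle hzr a (β / 2)
    have h2 : XL (KK β r θ) + YR (KK β r θ) = 0 := by
      rw [XL_add_YR hβ hr, ← hzθ, ← hFa, hz, mul_zero]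
    refine ⟨θ, ha, ?_, hzθ, h2⟩
    by_contra hcon
    exact h1 θ (not_le.1 hcon) hb h2
  have hmono : StrictMonoOn (fun θ : ℝ => Real.log (Complex.normSq (YR (KK β r θ))) -
      Real.log (Complex.normSq (XL (KK β r θ)))) (Icc a c) := by
    have hder : ∀ θ ∈ Icc a c, HasDerivAt (fun θ : ℝ => Real.log (Complex.normSq (YR (KK β r θ))) -
        Real.log (Complex.normSq (XL (KK β r θ))))
        (2 * (I / β * YR (K1 β r θ) / YR (KK β r θ)).re - 2 * (I / β * XL (K1 β r θ) / XL (KK β r θ)).re) θ := by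
      intro θ hθ
      obtain ⟨hX, hY, _⟩ := h0 θ hθ.1 hθ.2
      exact (hasDerivAt_log_normSq (hasDerivAt_YR hβ hr θ) hY).sub (hasDerivAt_log_normSq (hasDerivAt_XL hβ hr θ) hX)
    refine strictMonoOn_of_deriv_pos (convex_Icc _ _) (fun θ hθ => (hder θ hθ).continuousAt.continuousWithinAt) ?_
    intro θ hθ
    rw [interior_Icc] at hθ
    have hθ' : θ ∈ Icc a c := ⟨hθ.1.le, hθ.2.le⟩
    obtain ⟨_, _, hlt⟩ := h0 θ hθ'.1 hθ'.2
    rw [(hder θ hθ').deriv]
    have e : ∀ w v : ℂ, (I / β * w / v).re = -(w / v).im / β := by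
      intro w v
      have : I / β * w / v = ((1 / β : ℝ) : ℂ) * (I * (w / v)) := by push_cast; ring
      rw [this, Complex.re_ofReal_mul, Complex.I_mul_re]
      ring
    rw [e, e]
    have h2 : 0 < 1 / β := by positivity
    have h3 : 2 * (-(YR (K1 β r θ) / YR (KK β r θ)).im / β) - 2 * (-(XL (K1 β r θ) / XL (KK β r θ)).im / β) =
        2 * (1 / β) * ((XL (K1 β r θ) / XL (KK β r θ)).im - (YR (K1 β r θ) / YR (KK β r θ)).im) := by ring
    rw [h3]
    have h4 : 0 < (XL (K1 β r θ) / XL (KK β r θ)).im - (YR (K1 β r θ) / YR (KK β r θ)).im := by linarith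
    positivity
  have hL : ∀ θ : ℝ, XL (KK β r θ) + YR (KK β r θ) = 0 → Real.log (Complex.normSq (YR (KK β r θ))) -
      Real.log (Complex.normSq (XL (KK β r θ))) = 0 := by
    intro θ h
    have : YR (KK β r θ) = -XL (KK β r θ) := by linear_combination h
    rw [this, Complex.normSq_neg, sub_self]
  constructor
  · intro z hz hzr hder
    obtain ⟨θ, ha, hc, hzθ, hsum⟩ := key z hz hzr
    obtain ⟨hX, hY, hlt⟩ := h0 θ ha hc
    -- differentiate along the circle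
    have hA : HasDerivAt (fun t : ℝ => (r : ℂ) * cexp (((t + β / 2 : ℝ) : ℂ) * I)) (I * z) θ := by
      have h2 : HasDerivAt (fun t : ℝ => (((t + β / 2 : ℝ) : ℂ) * I)) (1 * I) θ := by
        have h3 : HasDerivAt (fun t : ℝ => ((t + β / 2 : ℝ) : ℂ)) 1 θ := by
          have := (Complex.ofRealCLM.hasDerivAt (x := θ)).add_const ((β / 2 : ℝ) : ℂ)
          simpa using this
        exact h3.mul_const I
      have h4 := (h2.cexp).const_mul (r : ℂ)
      refine h4.congr_deriv ?_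
      rw [hzθ]; ring
    have hB : HasDerivAt (fun t : ℝ => Fa β ((r : ℂ) * cexp (((t + β / 2 : ℝ) : ℂ) * I)))
        (deriv (Fa β) z * (I * z)) θ := by
      have h2 : HasDerivAt (Fa β) (deriv (Fa β) z) ((r : ℂ) * cexp (((θ + β / 2 : ℝ) : ℂ) * I)) := by
        rw [← hzθ]
        have hd : Differentiable ℂ (Fa β) := fun w => (hasDerivAt_Fa β w).differentiableAt
        exact (hd z).hasDerivAt
      exact h2.comp θ hA
    rw [hder, zero_mul] at hB
    have hC := (hasDerivAt_XL hβ hr θ).add (hasDerivAt_YR hβ hr θ)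
    have hD : (fun t : ℝ => XL (KK β r t) + YR (KK β r t)) =
        fun t : ℝ => (1 - I) * (Real.sqrt (Real.pi * β) : ℝ) * Fa β ((r : ℂ) * cexp (((t + β / 2 : ℝ) : ℂ) * I)) := by
      funext t
      rw [XL_add_YR hβ hr, hFa]
    have hC' : HasDerivAt (fun t : ℝ => XL (KK β r t) + YR (KK β r t))
        (I / β * XL (K1 β r θ) + I / β * YR (K1 β r θ)) θ := hC
    rw [hD] at hC'
    have hE := hC'.unique (hB.const_mul ((1 - I) * (Real.sqrt (Real.pi * β) : ℝ)))
    rw [mul_zero, ← mul_add] at hE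
    have hF : XL (K1 β r θ) + YR (K1 β r θ) = 0 :=
      (mul_eq_zero.1 hE).resolve_left (div_ne_zero Complex.I_ne_zero hβ')
    have e1 : YR (KK β r θ) = -XL (KK β r θ) := by linear_combination hsum
    have e2 : YR (K1 β r θ) = -XL (K1 β r θ) := by linear_combination hF
    rw [e1, e2, neg_div_neg_eq] at hlt
    exact lt_irrefl _ hlt
  · intro z w hz hw hzr hwr
    obtain ⟨θ₁, a1, c1, e1, s1⟩ := key z hz hzr
    obtain ⟨θ₂, a2, c2, e2, s2⟩ := key w hw hwr
    have h2 : θ₁ = θ₂ := hmono.injOn ⟨a1, c1⟩ ⟨a2, c2⟩ ((hL θ₁ s1).trans (hL θ₂ s2).symm)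
    rw [e1, e2, h2]

end Sok.W
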