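import Pool.Agent.Lib.MP_816dec_an.SadSeg
import Pool.Agent.Lib.MP_816dec_an.XYmain

/-!
MP_816dec_an, b = 2, `1 ≤ κ ≤ 3`: definitions for the two saddle lemmas of `F_β` (value + first moment).
-/

set_option autoImplicit false

open Complex Set Filter Topology MeasureTheory

namespace Sok.B2

open Sok Sok.W

/-- `(1-i) √(πβ) F_β` -/
noncomputable def Z0 (β r θ : ℝ) : ℂ := XL (KK β r θ) + YR (KK β r θ)
/-- the first moment; `d/dθ Z0 = (i/β) Z1` -/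
noncomputable def Z1 (β r θ : ℝ) : ℂ := XL (K1 β r θ) + YR (K1 β r θ)

/-- `σ = x + iy` is the saddle: `θ + σ` is the critical point of `KK β r θ` -/
structure Sad (β r θ x y : ℝ) : Prop where
  hx : x = β * r * Real.exp (-y) * Real.cos (θ + x)
  hy : y = β * r * Real.exp (-y) * Real.sin (θ + x)

/-- the exponent (times `β`) relative to the saddle: `‖KK (θ+σ+X+iY)‖ = exp(x(1+y)/β) exp(gre x y X Y/β)` -/
noncomputable def gre (x y X Y : ℝ) : ℝ :=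
  X * Y + Real.exp (-Y) * (x * Real.cos X - y * Real.sin X) - x + x * Y + y * X

/-- `‖KK‖` at the saddle -/
noncomputable def Ex (β x y : ℝ) : ℝ := Real.exp (x * (1 + y) / β)
/-- the main term divided by `Ex` -/
noncomputable def A0 (β x y : ℝ) : ℝ := Real.sqrt (2 * Real.pi * β / Real.sqrt ((1 + y) ^ 2 + x ^ 2))
/-- `|σ|` -/
noncomputable def PP (x y : ℝ) : ℝ := Real.sqrt (x ^ 2 + y ^ 2)

/-- central value error, `a = Re Λ`, `s = |σ|/β`, `T = 4/5` -/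
noncomputable def cenE (a s c φ3 φ4 : ℝ) : ℝ :=
  3 * Real.sqrt (2 * Real.pi) * (s * φ4) / (a ^ 2 * Real.sqrt a) +
    15 / 2 * Real.sqrt (2 * Real.pi) * (s * φ3) ^ 2 / ((c * a) ^ 3 * Real.sqrt (c * a)) +
    2 * (Real.exp (-(a / 2) * (4 / 5) ^ 2) / (a * (4 / 5)))
/-- central first moment -/
noncomputable def cenF (a s c φ3 φ4 : ℝ) : ℝ :=
  3 * Real.sqrt (2 * Real.pi) * (s / 6) / (a ^ 2 * Real.sqrt a) + 16 * (s * φ4) / a ^ 3 +
    48 * (s * φ3) ^ 2 / (c * a) ^ 4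

/-! ### right side: direction `(24-7i)/25` -/

noncomputable def aR (x y : ℝ) : ℝ := 0.8432 * x + 0.5376 * (1 + y)
noncomputable def cR (x y : ℝ) : ℝ := 1 - 0.257 * PP x y / aR x y
/-- the value bound of one exponential leg: start bound `e^{-g/β}`, rate `k/β` -/
noncomputable def legV (β g k : ℝ) : ℝ := Real.exp (-g / β) * (β / k)
/-- the moment bound of one exponential leg, `|ζ| ≤ z + (t - t0)` -/
noncomputable def legM (β g k z : ℝ) : ℝ := Real.exp (-g / β) * (z * (β / k) + (β / k) ^ 2)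

/-- tails that stay in the upper half plane -/
noncomputable def tR1 (β x y : ℝ) : ℝ :=
  legV β (0.172 + 0.201 * x + 0.2127 * y) (0.224 + 0.5515 * x) +
  0.776 * Real.exp (-(0.7 + 0.8 * x + 3.14 * y) / β) +
  legV β 3 0.3 +
  legV β (0.172 + 0.324 * x + 0.1011 * y) (0.224 + 0.8691 * x - 0.5243 * y)
/-- the remaining tails -/
noncomputable def tR2 (β x y : ℝ) : ℝ :=
  legV β (0.3518 + 1.224 * x - 0.3198 * y) 1.57 +
  legV β (1.256 + 1.8 * x) 0.8 +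
  legV β (2.513 + x * (1.8 + y) - y * Real.exp (y + 0.8)) 0.8 +
  legV β (3.7696 + x * (1.8 + y) - y * Real.exp (y + 0.8) - 0.7 * max (Real.exp (y + 0.8) * x - 0.8) 0.5)
    (max (Real.exp (y + 0.8) * x - 0.8) 0.5) +
  legV β (4.3296 + x * (1.8 + y) - Real.exp (y + 0.8) * PP x y) 0.8
noncomputable def ER (β x y : ℝ) : ℝ :=
  cenE (aR x y / β) (PP x y / β) (cR x y) 0.1765 0.0437 + tR1 β x y + tR2 β x y
noncomputable def FR (β x y : ℝ) : ℝ :=
  cenF (aR x y / β) (PP x y / β) (cR x y) 0.1765 0.0437 +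
  legM β (0.172 + 0.201 * x + 0.2127 * y) (0.224 + 0.5515 * x) 0.8 +
  2.561 * Real.exp (-(0.7 + 0.8 * x + 3.14 * y) / β) +
  legM β 3 0.3 3.3 +
  legM β (0.172 + 0.324 * x + 0.1011 * y) (0.224 + 0.8691 * x - 0.5243 * y) 0.8 +
  legM β (0.3518 + 1.224 * x - 0.3198 * y) 1.57 1.587 +
  legM β (1.256 + 1.8 * x) 0.8 2.18 +
  legM β (2.513 + x * (1.8 + y) - y * Real.exp (y + 0.8)) 0.8 3.49 +
  5.62 * legV β (3.7696 + x * (1.8 + y) - y * Real.exp (y + 0.8) - 0.7 * max (Real.exp (y + 0.8) * x - 0.8) 0.5)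
    (max (Real.exp (y + 0.8) * x - 0.8) 0.5) +
  legM β (4.3296 + x * (1.8 + y) - Real.exp (y + 0.8) * PP x y) 0.8 5.62

/-! ### left side (`y = -w ≤ 0`): horizontal direction -/

noncomputable def cL (x w : ℝ) : ℝ := 1 - (4 / 75 + 4 / 15 * (w / x))
noncomputable def tL (β x w : ℝ) : ℝ :=
  legV β (0.3032 * x - 0.0827 * w) (0.7 * x - 1.3064 * w) +
  (1 + w) * (Real.exp (-(1.7357 * x - Real.pi * w) / β) + Real.exp (-(Real.pi + 0.3678 * x - 1.3679 * x * w) / β)) +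
  1.5708 * Real.exp (-(Real.pi + Real.exp (-1 - w) * x - x * w) / β) +
  legV β (4.7123 - Real.exp (-1 - w) * PP x w - x * w) 1 +
  legV β (0.3032 * x + 0.0826 * w) (0.7 * x) +
  legV β (2 * x) Real.pi +
  legV β (Real.pi + 2 * x) 1 +
  legV β (4.7123 * (1 + w) - 2.7183 * PP x w + 2 * x) 1
noncomputable def EL (β x w : ℝ) : ℝ := cenE (x / β) (PP x w / β) (cL x w) (1 / 6) (1 / 24) + tL β x w
noncomputable def FL (β x w : ℝ) : ℝ :=
  cenF (x / β) (PP x w / β) (cL x w) (1 / 6) (1 / 24) +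
  legM β (0.3032 * x - 0.0827 * w) (0.7 * x - 1.3064 * w) 0.8 +
  3.72 * (1 + w) * (Real.exp (-(1.7357 * x - Real.pi * w) / β) + Real.exp (-(Real.pi + 0.3678 * x - 1.3679 * x * w) / β)) +
  8.03 * Real.exp (-(Real.pi + Real.exp (-1 - w) * x - x * w) / β) +
  legM β (4.7123 - Real.exp (-1 - w) * PP x w - x * w) 1 5.12 +
  legM β (0.3032 * x + 0.0826 * w) (0.7 * x) 0.8 +
  3.3 * legV β (2 * x) Real.pi +
  legM β (Real.pi + 2 * x) 1 3.3 +
  legM β (4.7123 * (1 + w) - 2.7183 * PP x w + 2 * x) 1 4.82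

/-! ### the outer bounds -/

/-- bound of the absolute integral for the part left of the valley `π`, contour of the right lemma -/
noncomputable def absR (β x y : ℝ) : ℝ := Real.sqrt (2 * Real.pi / (cR x y * (aR x y / β))) + tR1 β x y
/-- bound of the absolute integral for the part right of the valley `-π`, contour of the left lemma -/
noncomputable def absL (β x w : ℝ) : ℝ := Real.sqrt (2 * Real.pi / (cL x w * (x / β))) +
  legV β (0.3032 * x - 0.0827 * w) (0.7 * x - 1.3064 * w) + legV β (0.3032 * x + 0.0826 * w) (0.7 * x) +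
  legV β (2 * x) Real.pi + legV β (Real.pi + 2 * x) 1 + legV β (4.7123 * (1 + w) - 2.7183 * PP x w + 2 * x) 1 +
  legV β (2 * x - Real.pi * w) (2 * x - Real.pi)

/-- STATEMENT of row B2-JR -/
def JRstat : Prop := ∀ β r θ x y : ℝ, 0 < β → 0 < r → Sad β r θ x y → 0 < x → x ≤ 3 → 0 ≤ y → y ≤ 0.7 →
  x ^ 2 + y ^ 2 ≤ 9 → 0 < 0.224 + 0.8691 * x - 0.5243 * y →
  Ex β x y * (A0 β x y - ER β x y) ≤ ‖Z0 β r θ‖ ∧
  ‖Z1 β r θ - ((x : ℂ) + y * I) * Z0 β r θ‖ ≤ Ex β x y * FR β x y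

/-- STATEMENT of row B2-JL (`y = -w`) -/
def JLstat : Prop := ∀ β r θ x w : ℝ, 0 < β → 0 < r → Sad β r θ x (-w) → 0.5 ≤ x → 0 ≤ w → w ≤ 0.98 →
  0 < 0.7 * x - 1.3064 * w → Real.exp (-1 - w) * (0.6367 * x + w) ≤ 1 → 
  Ex β x (-w) * (A0 β x (-w) - EL β x w) ≤ ‖Z0 β r θ‖ ∧
  ‖Z1 β r θ - ((x : ℂ) + (-w : ℝ) * I) * Z0 β r θ‖ ≤ Ex β x (-w) * FL β x w

/-- STATEMENT of row B2-CU: part left of the valley `π`, angle `θ + δ` -/
def CUstat : Prop := ∀ β r θ x y δ : ℝ, 0 < β → 0 < r → Sad β r θ x y → 0 < x → x ≤ 3 → 0.224 ≤ y → y ≤ 0.7 →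
  x ^ 2 + y ^ 2 ≤ 9 → 0 < 0.224 + 0.8691 * x - 0.5243 * y → 0 ≤ δ → 1 ≤ β * r → 1 / 3 ≤ θ + x → θ + x ≤ Real.pi / 2 →
  θ + δ ≤ Real.pi + 1.3 → β ≤ 0.3 →
  ‖XL (KK β r (θ + δ))‖ ≤ Ex β x y * (Real.exp (-(y - 0.224) * δ / β) * absR β x y +
    legV β (0.3518 + 1.224 * x - 0.3198 * y) 1.57) + 2

/-- STATEMENT of row B2-YU: part right of the valley `-π`, angle `θ - δ` -/
def YUstat : Prop := ∀ β r θ x w δ : ℝ, 0 < β → 0 < r → Sad β r θ x (-w) → 1.6 ≤ x → 0 ≤ w → w ≤ 0.98 →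
  0 < 0.7 * x - 1.3064 * w → 0 ≤ δ → -(Real.pi / 2) < θ + x → θ + x ≤ 0 →
  ‖YR (KK β r (θ - δ + 2 * Real.pi))‖ ≤ Ex β x (-w) * Real.exp (-w * δ / β) * absL β x w

end Sok.B2
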