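import Pool.Agent.Lib.MP_816dec_an.B2FinP

/-!
MP_816dec_an, b = 2: the row `K2`.
-/

set_option autoImplicit false

open Complex Set Filter Topology

namespace Sok.B2

open Sok Sok.W

private theorem q1 {κ A B C : ℝ} (hκ : 0 < κ) (h : A * κ - B ≤ C) : A * κ ^ 2 - B * κ ≤ κ * C := by
  have := mul_le_mul_of_nonneg_left h hκ.le
  linarith

theorem expu {w E : ℝ} (hw : 0 ≤ w) (hw1 : w ≤ 1)
    (h : 1 + w + w ^ 2 / 2 + w ^ 3 / 6 + w ^ 4 / 24 + w ^ 5 / 120 + w ^ 6 * 7 / 4320 ≤ E) : Real.exp w ≤ E := eu hw hw1 h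

/-- `1 ≤ κ ≤ 1.6`, right saddle -/
theorem outI_R {β r t : ℝ} (hβ : 0 < β) (hr : 10 ≤ r) (h1 : 1 ≤ β * r) (h2 : β * r ≤ 1.6)
    (ha : Real.pi ≤ t + β * r) (hb : t + β * r ≤ 1.3 + Real.pi) : ‖Z0 β r t‖ < 0.98 * ‖Z0 β r (t - Real.pi)‖ := by
  have hpi := Real.pi_gt_d4
  have hpi' := Real.pi_lt_d4
  have hκ : 0 < β * r := by linarith
  have hk := hbk hβ hr
  obtain ⟨xb, yb, ub, Rb, hyb, hyb5, hyb6, hX⟩ := xu hβ hr h1 (by linarith) (by linarith) hb
  obtain ⟨xc, wc, vc, Lc, hwc, hY⟩ := yu hβ hr h1 (by linarith) hb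
  obtain ⟨xp, yp, up, Rp, hyp, hZ⟩ := zR (θ := t - Real.pi) hβ hr h1 (by linarith) (by linarith) (by linarith)
  have hyb' := hyb5 h2
  have nb := bI Rb hβ hk h1 h2 hyb'
  have nc := cI Lc hβ hk h1 h2
  have hxp : 0.8472 * (β * r) - 0.5591 ≤ xp := by
    have := Rp.x_ge_of_y (p := 0.8472) (q := -0.5591) (E := 0.59452 - 0.000001) hyp
      (eln (by norm_num) (by norm_num) (by norm_num) (by norm_num)) (by norm_num) (by nlinarith)
    linarith
  have np := numOI Rp hβ hk h1 h2 hxp Rp.y0 hyp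
  have hhb := hb_up Rb
  have hhp := q1 hκ (hp_right Rp (by linarith) (by linarith) hyp)
  have hhc := hc_up (ω := 0.85) (El := 2.3396) (Eu := 2.3397) (C := 0.1576) Lc h1 (by linarith) (by norm_num)
    (ep (by norm_num) (by norm_num)) (eu (by norm_num) (by norm_num) (by norm_num)) (by norm_num) (by norm_num)
  have hm : 0.3288 ≤ (yb - 0.224) * (t + β * r - 1.95) := by nlinarith
  have hm' := mul_le_mul_of_nonneg_left hm hκ.le
  have hmc : 0 ≤ wc * (1.3 + Real.pi - (t + β * r)) := by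
    have := Lc.w0
    exact mul_nonneg this (by linarith)
  have hmc' := mul_nonneg hκ.le hmc
  have hkk := mul_nonneg (sub_nonneg.2 h1) (sub_nonneg.2 h2)
  refine lt_of_le_of_lt (norm_add_le _ _) ?_
  refine fin_ineq (hp := xp * (1 + yp)) (c1 := 0.4233) (c12 := 0.0371) (c3 := 0.0126) (c45 := 0.3073) hβ hκ (by norm_num)
    hX hY hZ np.1 np.2.2.2.1 nb.1 nb.2 nc (by norm_num) (by norm_num) (by norm_num) ?_ ?_ ?_ ?_ (by norm_num)
    (by norm_num)
  · exact er (G := 0.86) hβ hk (by norm_num) (div_k hκ (by nlinarith)) (en (by norm_num) (by norm_num))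
  · exact er (G := 3.3) hβ hk (by norm_num) (div_k hκ (by nlinarith)) (en (by norm_num) (by norm_num))
  · exact exp2 (G := 4.38) hβ hκ hk (by norm_num) (div_k hκ (by nlinarith)) (en (by norm_num) (by norm_num))
  · exact er (G := 1.18) hβ hk (by norm_num) (div_k hκ (by nlinarith)) (en (by norm_num) (by norm_num))

/-- `1.6 ≤ κ ≤ 2.2`, right saddle -/
theorem outII_R {β r t : ℝ} (hβ : 0 < β) (hr : 10 ≤ r) (h1 : 1.6 ≤ β * r) (h2 : β * r ≤ 2.2)
    (ha : Real.pi ≤ t + β * r) (hb : t + β * r ≤ 1.3 + Real.pi) : ‖Z0 β r t‖ < 0.98 * ‖Z0 β r (t - Real.pi)‖ := by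
  have hpi := Real.pi_gt_d4
  have hpi' := Real.pi_lt_d4
  have hκ : 0 < β * r := by linarith
  have h0 : 1 ≤ β * r := by linarith
  have hk := hbk hβ hr
  obtain ⟨xb, yb, ub, Rb, hyb, hyb5, hyb6, hX⟩ := xu hβ hr h0 (by linarith) (by linarith) hb
  obtain ⟨xc, wc, vc, Lc, hwc, hY⟩ := yu hβ hr h0 (by linarith) hb
  obtain ⟨xp, yp, up, Rp, hyp, hZ⟩ := zR (θ := t - Real.pi) hβ hr h0 (by linarith) (by linarith) (by linarith)
  have hyb' := hyb6 h1
  have nb := bII Rb hβ hk h1 h2 hyb'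
  have nc := cII Lc hβ hk h1 h2
  have hxp : 0.6726 * (β * r) - 0.2797 ≤ xp := by
    have := Rp.x_ge_of_y (p := 0.6726) (q := -0.2797) (E := 0.59452 - 0.000001) hyp
      (eln (by norm_num) (by norm_num) (by norm_num) (by norm_num)) (by norm_num) (by nlinarith)
    linarith
  have np := numOII Rp hβ hk h1 h2 hxp Rp.y0 hyp
  have hhb := hb_up Rb
  have hhp := q1 hκ (hp_right Rp (by linarith) (by linarith) hyp)
  have hhc := hc_up (ω := 0.66) (El := 1.9347) (Eu := 1.9348) (C := 0.1149) Lc h0 (by linarith) (by norm_num)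
    (ep (by norm_num) (by norm_num)) (eu (by norm_num) (by norm_num) (by norm_num)) (by norm_num) (by norm_num)
  have hm : 0.448 ≤ (yb - 0.224) * (t + β * r - 1.95) := by nlinarith
  have hm' := mul_le_mul_of_nonneg_left hm hκ.le
  have hmc : 0 ≤ wc * (1.3 + Real.pi - (t + β * r)) := by
    have := Lc.w0
    exact mul_nonneg this (by linarith)
  have hmc' := mul_nonneg hκ.le hmc
  have hkk := mul_nonneg (sub_nonneg.2 h1) (sub_nonneg.2 h2)
  refine lt_of_le_of_lt (norm_add_le _ _) ?_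
  refine fin_ineq (hp := xp * (1 + yp)) (c1 := 0.3263) (c12 := 0.0429) (c3 := 0.0012) (c45 := 0.5489) hβ hκ (by norm_num)
    hX hY hZ np.1 np.2.2.2.1 nb.1 nb.2 nc (by norm_num) (by norm_num) (by norm_num) ?_ ?_ ?_ ?_ (by norm_num)
    (by norm_num)
  · exact er (G := 1.12) hβ hk (by norm_num) (div_k hκ (by nlinarith)) (en (by norm_num) (by norm_num))
  · exact er (G := 3.15) hβ hk (by norm_num) (div_k hκ (by nlinarith)) (en (by norm_num) (by norm_num))
  · exact exp2 (G := 6.9) hβ hκ hk (by norm_num) (div_k hκ (by nlinarith)) (en (by norm_num) (by norm_num))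
  · exact er (G := 0.6) hβ hk (by norm_num) (div_k hκ (by nlinarith)) (en (by norm_num) (by norm_num))

/-- `2.2 ≤ κ ≤ 3`, right saddle -/
theorem outIII_R {β r t : ℝ} (hβ : 0 < β) (hr : 10 ≤ r) (h1 : 2.2 ≤ β * r) (h2 : β * r ≤ 3)
    (ha : Real.pi ≤ t + β * r) (hb : t + β * r ≤ 1.3 + Real.pi) : ‖Z0 β r t‖ < 0.98 * ‖Z0 β r (t - Real.pi)‖ := by
  have hpi := Real.pi_gt_d4
  have hpi' := Real.pi_lt_d4
  have hκ : 0 < β * r := by linarith
  have h0 : 1 ≤ β * r := by linarith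
  have hk := hbk hβ hr
  obtain ⟨xb, yb, ub, Rb, hyb, hyb5, hyb6, hX⟩ := xu hβ hr h0 (by linarith) (by linarith) hb
  obtain ⟨xc, wc, vc, Lc, hwc, hY⟩ := yu hβ hr h0 (by linarith) hb
  obtain ⟨xp, yp, up, Rp, hyp, hZ⟩ := zR (θ := t - Real.pi) hβ hr h0 (by linarith) (by linarith) (by linarith)
  have hyb' := hyb6 (by linarith)
  have nb := bIII Rb hβ hk h1 h2 hyb'
  have nc := cIII Lc hβ hk h1 h2
  have hxp : 0.6324 * (β * r) - 0.1912 ≤ xp := by
    have := Rp.x_ge_of_y (p := 0.6324) (q := -0.1912) (E := 0.59452 - 0.000001) hyp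
      (eln (by norm_num) (by norm_num) (by norm_num) (by norm_num)) (by norm_num) (by nlinarith)
    linarith
  have np := numOIII Rp hβ hk h1 h2 hxp Rp.y0 hyp
  have hhb := hb_up Rb
  have hhp := q1 hκ (hp_right Rp (by linarith) (by linarith) hyp)
  have hhc := hc_up (ω := 0.48) (El := 1.616) (Eu := 1.6161) (C := 0.0728) Lc h0 (by linarith) (by norm_num)
    (ep (by norm_num) (by norm_num)) (eu (by norm_num) (by norm_num) (by norm_num)) (by norm_num) (by norm_num)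
  have hkk := mul_nonneg (sub_nonneg.2 h1) (sub_nonneg.2 h2)
  refine lt_of_le_of_lt (norm_add_le _ _) ?_
  rcases le_total (Real.pi + 0.65) (t + β * r) with hd | hd
  · have hm : 0.6924 ≤ (yb - 0.224) * (t + β * r - 1.95) := by nlinarith
    have hm' := mul_le_mul_of_nonneg_left hm hκ.le
    have hmc : 0 ≤ wc * (1.3 + Real.pi - (t + β * r)) := by
      have := Lc.w0
      exact mul_nonneg this (by linarith)
    have hmc' := mul_nonneg hκ.le hmc
    refine fin_ineq (hp := xp * (1 + yp)) (c1 := 0.4148) (c12 := 0.0412) (c3 := 0.0005) (c45 := 0.6771) hβ hκ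
      (by norm_num) hX hY hZ np.1 np.2.2.2.1 nb.1 nb.2 nc (by norm_num) (by norm_num) (by norm_num) ?_ ?_ ?_ ?_
      (by norm_num) (by norm_num)
    · exact er (G := 0.88) hβ hk (by norm_num) (div_k hκ (by nlinarith)) (en (by norm_num) (by norm_num))
    · exact er (G := 3.19) hβ hk (by norm_num) (div_k hκ (by nlinarith)) (en (by norm_num) (by norm_num))
    · exact exp2 (G := 8) hβ hκ hk (by norm_num) (div_k hκ (by nlinarith)) (en (by norm_num) (by norm_num))
    · exact er (G := 0.39) hβ hk (by norm_num) (div_k hκ (by nlinarith)) (en (by norm_num) (by norm_num))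
  · have hm : 0.448 ≤ (yb - 0.224) * (t + β * r - 1.95) := by nlinarith
    have hm' := mul_le_mul_of_nonneg_left hm hκ.le
    have hmc : 0.2925 ≤ wc * (1.3 + Real.pi - (t + β * r)) := by nlinarith
    have hmc' := mul_le_mul_of_nonneg_left hmc hκ.le
    refine fin_ineq (hp := xp * (1 + yp)) (c1 := 0.4148) (c12 := 0.1003) (c3 := 0.0005) (c45 := 0.2593) hβ hκ
      (by norm_num) hX hY hZ np.1 np.2.2.2.1 nb.1 nb.2 nc (by norm_num) (by norm_num) (by norm_num) ?_ ?_ ?_ ?_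
      (by norm_num) (by norm_num)
    · exact er (G := 0.88) hβ hk (by norm_num) (div_k hκ (by nlinarith)) (en (by norm_num) (by norm_num))
    · exact er (G := 2.3) hβ hk (by norm_num) (div_k hκ (by nlinarith)) (en (by norm_num) (by norm_num))
    · exact exp2 (G := 8) hβ hκ hk (by norm_num) (div_k hκ (by nlinarith)) (en (by norm_num) (by norm_num))
    · exact er (G := 1.35) hβ hk (by norm_num) (div_k hκ (by nlinarith)) (en (by norm_num) (by norm_num))

/-- `1 ≤ κ ≤ 1.6`, left saddle -/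
theorem outI_L {β r t : ℝ} (hβ : 0 < β) (hr : 10 ≤ r) (h1 : 1 ≤ β * r) (h2 : β * r ≤ 1.6)
    (ha : 1.95 ≤ t + β * r) (hb : t + β * r ≤ Real.pi) : ‖Z0 β r t‖ < 0.98 * ‖Z0 β r (t - Real.pi)‖ := by
  have hpi := Real.pi_gt_d4
  have hpi' := Real.pi_lt_d4
  have hκ : 0 < β * r := by linarith
  have hk := hbk hβ hr
  obtain ⟨xb, yb, ub, Rb, hyb, hyb5, hyb6, hX⟩ := xu hβ hr h1 (by linarith) ha (by linarith)
  obtain ⟨xc, wc, vc, Lc, hwc, hY⟩ := yu (t := t) hβ hr h1 (by linarith) (by linarith)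
  obtain ⟨xp, wp, vp, Lp, hwp, hZ⟩ := zL (θ := t - Real.pi) hβ hr h1 (by linarith) (by linarith) (by linarith)
  have hyb' := hyb5 h2
  have nb := bI Rb hβ hk h1 h2 hyb'
  have nc := cI Lc hβ hk h1 h2
  have np := numLOI Lp hβ hk h1 h2 (by linarith) Lp.w0
  have hhb := hb_up Rb
  have hhp := q1 hκ (hp_left1 Lp h1 h2 (by linarith) hwp)
  have hhc := Lc.h_mono Lp h1 (by linarith)
  have hhc' := mul_le_mul_of_nonneg_left hhc hκ.le
  have hm : 0 ≤ (yb - 0.224) * (t + β * r - 1.95) := mul_nonneg (by linarith) (by linarith)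
  have hm' := mul_nonneg hκ.le hm
  have hmc : 0.585 ≤ wc * (1.3 + Real.pi - (t + β * r)) := by nlinarith
  have hkk := mul_nonneg (sub_nonneg.2 h1) (sub_nonneg.2 h2)
  refine lt_of_le_of_lt (norm_add_le _ _) ?_
  refine fin_ineq (hp := xp * (1 - wp)) (c1 := 0.1496) (c12 := 0.1496) (c3 := 0.005) (c45 := 0.0261) hβ hκ (by norm_num)
    hX hY hZ np.1 np.2.2.2.1 nb.1 nb.2 nc (by norm_num) (by norm_num) (by norm_num) ?_ ?_ ?_ ?_ (by norm_num)
    (by norm_num)
  · exact er (G := 1.9) hβ hk (by norm_num) (div_k hκ (by nlinarith)) (en (by norm_num) (by norm_num))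
  · exact er (G := 1.9) hβ hk (by norm_num) (div_k hκ (by nlinarith)) (en (by norm_num) (by norm_num))
  · exact exp2 (G := 5.4) hβ hκ hk (by norm_num) (div_k hκ (by nlinarith)) (en (by norm_num) (by norm_num))
  · exact er (G := 3.65) hβ hk (by norm_num) (by linarith) (en (by norm_num) (by norm_num))

/-- `1.6 ≤ κ ≤ 2.2`, left saddle -/
theorem outII_L {β r t : ℝ} (hβ : 0 < β) (hr : 10 ≤ r) (h1 : 1.6 ≤ β * r) (h2 : β * r ≤ 2.2)
    (ha : 1.95 ≤ t + β * r) (hb : t + β * r ≤ Real.pi) : ‖Z0 β r t‖ < 0.98 * ‖Z0 β r (t - Real.pi)‖ := by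
  have hpi := Real.pi_gt_d4
  have hpi' := Real.pi_lt_d4
  have hκ : 0 < β * r := by linarith
  have h0 : 1 ≤ β * r := by linarith
  have hk := hbk hβ hr
  obtain ⟨xb, yb, ub, Rb, hyb, hyb5, hyb6, hX⟩ := xu hβ hr h0 (by linarith) ha (by linarith)
  obtain ⟨xc, wc, vc, Lc, hwc, hY⟩ := yu (t := t) hβ hr h0 (by linarith) (by linarith)
  obtain ⟨xp, wp, vp, Lp, hwp, hZ⟩ := zL (θ := t - Real.pi) hβ hr h0 (by linarith) (by linarith) (by linarith)
  have hyb' := hyb6 h1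
  have nb := bII Rb hβ hk h1 h2 hyb'
  have nc := cII Lc hβ hk h1 h2
  have np := numLOII Lp hβ hk h1 h2 (by linarith) Lp.w0
  have hhb := hb_up Rb
  have hhp := q1 hκ (hp_left2 Lp h1 h2 (by linarith) hwp)
  have hhc := Lc.h_mono Lp h0 (by linarith)
  have hhc' := mul_le_mul_of_nonneg_left hhc hκ.le
  have hm : 0 ≤ (yb - 0.224) * (t + β * r - 1.95) := mul_nonneg (by linarith) (by linarith)
  have hm' := mul_nonneg hκ.le hm
  have hmc : 0.585 ≤ wc * (1.3 + Real.pi - (t + β * r)) := by nlinarith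
  have hkk := mul_nonneg (sub_nonneg.2 h1) (sub_nonneg.2 h2)
  refine lt_of_le_of_lt (norm_add_le _ _) ?_
  refine fin_ineq (hp := xp * (1 - wp)) (c1 := 0.1847) (c12 := 0.1847) (c3 := 0.0012) (c45 := 0.0707) hβ hκ (by norm_num)
    hX hY hZ np.1 np.2.2.2.1 nb.1 nb.2 nc (by norm_num) (by norm_num) (by norm_num) ?_ ?_ ?_ ?_ (by norm_num)
    (by norm_num)
  · exact er (G := 1.69) hβ hk (by norm_num) (div_k hκ (by nlinarith)) (en (by norm_num) (by norm_num))
  · exact er (G := 1.69) hβ hk (by norm_num) (div_k hκ (by nlinarith)) (en (by norm_num) (by norm_num))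
  · exact exp2 (G := 7) hβ hκ hk (by norm_num) (div_k hκ (by nlinarith)) (en (by norm_num) (by norm_num))
  · exact er (G := 2.65) hβ hk (by norm_num) (by linarith) (en (by norm_num) (by norm_num))

/-- `2.2 ≤ κ ≤ 3`, left saddle -/
theorem outIII_L {β r t : ℝ} (hβ : 0 < β) (hr : 10 ≤ r) (h1 : 2.2 ≤ β * r) (h2 : β * r ≤ 3)
    (ha : 1.95 ≤ t + β * r) (hb : t + β * r ≤ Real.pi) : ‖Z0 β r t‖ < 0.98 * ‖Z0 β r (t - Real.pi)‖ := by
  have hpi := Real.pi_gt_d4
  have hpi' := Real.pi_lt_d4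
  have hκ : 0 < β * r := by linarith
  have h0 : 1 ≤ β * r := by linarith
  have hk := hbk hβ hr
  obtain ⟨xb, yb, ub, Rb, hyb, hyb5, hyb6, hX⟩ := xu hβ hr h0 (by linarith) ha (by linarith)
  obtain ⟨xc, wc, vc, Lc, hwc, hY⟩ := yu (t := t) hβ hr h0 (by linarith) (by linarith)
  obtain ⟨xp, wp, vp, Lp, hwp, hZ⟩ := zL (θ := t - Real.pi) hβ hr h0 (by linarith) (by linarith) (by linarith)
  have hyb' := hyb6 (by linarith)
  have nb := bIII Rb hβ hk h1 h2 hyb'
  have nc := cIII Lc hβ hk h1 h2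
  have np := numLOIII Lp hβ hk h1 h2 (by linarith) Lp.w0
  have hhb := hb_up Rb
  have hhp := q1 hκ (hp_left3 Lp h1 h2 (by linarith) hwp)
  have hhc := Lc.h_mono Lp h0 (by linarith)
  have hhc' := mul_le_mul_of_nonneg_left hhc hκ.le
  have hm : 0 ≤ (yb - 0.224) * (t + β * r - 1.95) := mul_nonneg (by linarith) (by linarith)
  have hm' := mul_nonneg hκ.le hm
  have hmc : 0.585 ≤ wc * (1.3 + Real.pi - (t + β * r)) := by nlinarith
  have hkk := mul_nonneg (sub_nonneg.2 h1) (sub_nonneg.2 h2)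
  refine lt_of_le_of_lt (norm_add_le _ _) ?_
  refine fin_ineq (hp := xp * (1 - wp)) (c1 := 0.2809) (c12 := 0.2809) (c3 := 0.0005) (c45 := 0.1423) hβ hκ (by norm_num)
    hX hY hZ np.1 np.2.2.2.1 nb.1 nb.2 nc (by norm_num) (by norm_num) (by norm_num) ?_ ?_ ?_ ?_ (by norm_num)
    (by norm_num)
  · exact er (G := 1.27) hβ hk (by norm_num) (div_k hκ (by nlinarith)) (en (by norm_num) (by norm_num))
  · exact er (G := 1.27) hβ hk (by norm_num) (div_k hκ (by nlinarith)) (en (by norm_num) (by norm_num))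
  · exact exp2 (G := 8) hβ hκ hk (by norm_num) (div_k hκ (by nlinarith)) (en (by norm_num) (by norm_num))
  · exact er (G := 1.95) hβ hk (by norm_num) (by linarith) (en (by norm_num) (by norm_num))

/-- outside the window -/
theorem outer {β r t : ℝ} (hβ : 0 < β) (hr : 10 ≤ r) (h1 : 1 ≤ β * r) (h2 : β * r ≤ 3)
    (ha : 1.95 ≤ t + β * r) (hb : t + β * r ≤ 1.3 + Real.pi) : ‖Z0 β r t‖ < 0.98 * ‖Z0 β r (t - Real.pi)‖ := by
  rcases le_total Real.pi (t + β * r) with hp | hp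
  · rcases le_total (β * r) 1.6 with hc | hc
    · exact outI_R hβ hr h1 hc hp hb
    · rcases le_total (β * r) 2.2 with hd | hd
      · exact outII_R hβ hr hc hd hp hb
      · exact outIII_R hβ hr hd h2 hp hb
  · rcases le_total (β * r) 1.6 with hc | hc
    · exact outI_L hβ hr h1 hc ha hp
    · rcases le_total (β * r) 2.2 with hd | hd
      · exact outII_L hβ hr hc hd ha hp
      · exact outIII_L hβ hr hd h2 ha hp

/-- inside the window -/
theorem inner {β r t : ℝ} (hβ : 0 < β) (hr : 10 ≤ r) (h1 : 1 ≤ β * r) (h2 : β * r ≤ 3)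
    (ha : 1.3 ≤ t + β * r) (hb : t + β * r ≤ 1.95) : Z0 β r t ≠ 0 ∧ Z0 β r (t - Real.pi) ≠ 0 ∧
      0.05 ≤ (Z1 β r t / Z0 β r t).im - (Z1 β r (t - Real.pi) / Z0 β r (t - Real.pi)).im := by
  have hpi := Real.pi_gt_d4
  have hpi' := Real.pi_lt_d4
  rcases le_total (β * r) 2.2 with hd | hd
  · have e1 := slopeR1 hβ hr h1 hd ha hb
    have e2 := slopeL1 (θ := t - Real.pi) hβ hr h1 hd (by linarith) (by linarith)
    exact ⟨e1.1, e2.1, by linarith [e1.2, e2.2]⟩
  · have e1 := slopeR2 hβ hr hd h2 ha hb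
    have e2 := slopeL2 (θ := t - Real.pi) hβ hr hd h2 (by linarith) (by linarith)
    exact ⟨e1.1, e2.1, by linarith [e1.2, e2.2]⟩

/-- THE ROW K2 -/
theorem circ_K2 {β r : ℝ} (hβ : 0 < β) (hr : 10 ≤ r) (h1 : 1 ≤ β * r) (h2 : β * r ≤ 3) :
    Circ (Real.pi + β) r := by
  refine circ_two (a := 1.3 - β * r) (c := 1.95 - β * r) (m := 0.05) (ω := 0.98) hβ (by linarith) (by linarith)
    (by norm_num) (by norm_num) (by norm_num) ?_ ?_
  · intro t ht1 ht2
    exact inner hβ hr h1 h2 (by linarith) (by linarith)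
  · intro t ht1 ht2
    exact outer hβ hr h1 h2 (by linarith) (by linarith)

/-- the hypothesis `K2` of `SokC.top` -/
theorem K2row : ∀ β r : ℝ, 10 ≤ r → 0 < β → 1 ≤ β * r → β * r ≤ 3 → Circ (Real.pi + β) r :=
  fun _ _ hr hβ h1 h2 => circ_K2 hβ hr h1 h2

end Sok.B2
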