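import Pool.Agent.Lib.MP_816dec_an.B2JRb
import Pool.Agent.Lib.MP_816dec_an.A0Prim

/-!
MP_816dec_an, b = 2, row B2-JR: `JRstat`.
-/

set_option autoImplicit false

open Complex Set Filter Topology MeasureTheory

namespace Sok.B2

open Sok Sok.W

/-- the direction -/
noncomputable def gam : ℝ := -Real.arcsin (7 / 25)

theorem sin_gam : Real.sin gam = -(7 / 25) := by
  unfold gam
  rw [Real.sin_neg, Real.sin_arcsin (by norm_num) (by norm_num)]

theorem cos_gam : Real.cos gam = 24 / 25 := by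
  unfold gam
  rw [Real.cos_neg, Real.cos_arcsin]
  rw [show (1 : ℝ) - (7 / 25) ^ 2 = (24 / 25) ^ 2 by norm_num, Real.sqrt_sq (by norm_num)]

theorem exp_gam : cexp (gam * I) = (24 - 7 * I) / 25 := by
  rw [Complex.exp_mul_I, ← Complex.ofReal_cos, ← Complex.ofReal_sin, sin_gam, cos_gam]
  push_cast
  ring

theorem exp_two_gam : cexp (2 * gam * I) = (527 - 336 * I) / 625 := by
  have : cexp (2 * gam * I) = cexp (gam * I) ^ 2 := by
    rw [← Complex.exp_nat_mul]; congr 1; push_cast; ring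
  rw [this, exp_gam]
  linear_combination (49 / 625 : ℂ) * Complex.I_sq

theorem segBd_gam : SegBd gam (4 / 5) 0.1765 0.0437 := by
  refine segBd_of (X := 0.224) (by norm_num) ?_ ?_ ?_
  · rw [sin_gam]; norm_num
  · have h := Real.exp_bound' (x := 0.224) (n := 9) (by norm_num) (by norm_num) (by norm_num)
    simp only [Finset.sum_range_succ, Finset.sum_range_zero, Nat.factorial] at h
    norm_num at h ⊢
    linarith
  · have h := Real.exp_bound' (x := 0.224) (n := 9) (by norm_num) (by norm_num) (by norm_num)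
    simp only [Finset.sum_range_succ, Finset.sum_range_zero, Nat.factorial] at h
    norm_num at h ⊢
    linarith

/-- the saddle as a complex number -/
noncomputable def sgc (x y : ℝ) : ℂ := (x : ℂ) + y * I

theorem norm_sg (x y : ℝ) : ‖sgc x y‖ = PP x y := by
  unfold sgc PP; rw [Complex.norm_add_mul_I]

theorem KK_saddle {β r θ x y : ℝ} (hβ : 0 < β) (hs : Sad β r θ x y) (u : ℂ) :
    KK β r θ (θ + sgc x y + u) = KK β r θ (θ + sgc x y) * cexp (Psi (sgc x y) u / β) := by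
  have h0 : sgc x y = β * ((r * cexp (((θ + β / 2 : ℝ) : ℂ) * I)) * cexp (-(I * β / 2)) * cexp (I * sgc x y)) := by
    have e1 : (β : ℂ) * ((r * cexp (((θ + β / 2 : ℝ) : ℂ) * I)) * cexp (-(I * β / 2)) * cexp (I * sgc x y)) =
        ((β * r * Real.exp (-y) : ℝ) : ℂ) * cexp (((θ + x : ℝ) : ℂ) * I) := by
      have e2 : (r : ℂ) * cexp (((θ + β / 2 : ℝ) : ℂ) * I) * cexp (-(I * β / 2)) * cexp (I * sgc x y) =
          r * (cexp ((-y : ℝ)) * cexp (((θ + x : ℝ) : ℂ) * I)) := by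
        rw [mul_assoc, mul_assoc, ← Complex.exp_add, ← Complex.exp_add, ← Complex.exp_add]
        congr 2
        unfold sgc
        push_cast
        linear_combination (y : ℂ) * Complex.I_sq
      rw [e2]
      push_cast
      ring
    rw [e1, Complex.exp_mul_I]
    have h1 := hs.hx
    have h2 := hs.hy
    unfold sgc
    apply Complex.ext
    · rw [Complex.re_ofReal_mul]
      simp only [Complex.add_re, Complex.mul_re, Complex.I_re, Complex.I_im, mul_zero, mul_one, Complex.ofReal_re,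
        Complex.ofReal_im, sub_zero, add_zero]
      rw [← Complex.ofReal_cos, ← Complex.ofReal_sin, Complex.ofReal_re, Complex.ofReal_im]
      linarith
    · rw [Complex.im_ofReal_mul]
      simp only [Complex.add_im, Complex.mul_im, Complex.I_re, Complex.I_im, mul_one, mul_zero, Complex.ofReal_re,
        Complex.ofReal_im, add_zero, zero_add]
      rw [← Complex.ofReal_cos, ← Complex.ofReal_sin, Complex.ofReal_re, Complex.ofReal_im, zero_add]
      exact h2
  have h := GG_saddle hβ.ne' h0 u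
  rw [GG_eq_KK, GG_eq_KK] at h
  rw [show (θ : ℂ) + sgc x y + u = sgc x y + u + θ by ring, show (θ : ℂ) + sgc x y = sgc x y + θ by ring]
  exact h

theorem pt_eq (θ x y X Y : ℝ) : pt θ x y X Y = θ + sgc x y + ((X : ℂ) + Y * I) := by
  unfold pt sgc; push_cast; ring

theorem norm_KK_center {β r θ x y : ℝ} (hβ : 0 < β) (hs : Sad β r θ x y) :
    ‖KK β r θ (θ + sgc x y)‖ = Ex β x y := by
  have h := norm_KK_pt hβ hs 0 0
  rw [pt_eq] at h
  have e : gre x y 0 0 = 0 := by unfold gre; simp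
  rw [e, zero_div, Real.exp_zero, mul_one] at h
  simpa using h

/-- the constants -/
theorem const_pos {x y : ℝ} (hx : 0 < x) (hy : 0 ≤ y) : 0 < aR x y ∧ 0 < cR x y ∧ cR x y ≤ 1 ∧ 0 ≤ PP x y := by
  have ha : 0 < aR x y := by unfold aR; positivity
  have hP0 : 0 ≤ PP x y := Real.sqrt_nonneg _
  have hP : PP x y ≤ x + y := by
    unfold PP
    refine Real.sqrt_le_iff.2 ⟨by linarith, ?_⟩
    nlinarith
  refine ⟨ha, ?_, ?_, hP0⟩
  · unfold cR
    rw [sub_pos, div_lt_one ha]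
    unfold aR
    linarith
  · unfold cR
    have : 0 ≤ 0.257 * PP x y / aR x y := by positivity
    linarith

theorem Lam_eq {β x y : ℝ} {Λ : ℂ} (hΛ : Λ = (I + sgc x y) / β * cexp (2 * gam * I)) :
    Λ.re = aR x y / β := by
  rw [hΛ, exp_two_gam]
  have e : (I + sgc x y) / (β : ℂ) * ((527 - 336 * I) / 625) =
      ((1 / β : ℝ) : ℂ) * ((((0.8432 * x + 0.5376 * (1 + y) : ℝ)) : ℂ) + ((0.8432 * (1 + y) - 0.5376 * x : ℝ) : ℂ) * I) := by
    unfold sgc
    push_cast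
    linear_combination (-(0.5376 : ℂ) * (1 + y) / β) * Complex.I_sq
  rw [e, Complex.re_ofReal_mul]
  simp only [Complex.add_re, Complex.ofReal_re, Complex.mul_re, Complex.I_re, Complex.I_im, Complex.ofReal_im, mul_zero,
    mul_one, sub_zero, add_zero]
  unfold aR
  ring

theorem Lam_norm {β x y : ℝ} {Λ : ℂ} (hβ : 0 < β) (hΛ : Λ = (I + sgc x y) / β * cexp (2 * gam * I)) :
    ‖Λ‖ = Real.sqrt ((1 + y) ^ 2 + x ^ 2) / β := by
  have e1 : cexp (2 * gam * I) = cexp (((2 * gam : ℝ) : ℂ) * I) := by push_cast; ring_nf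
  rw [hΛ, norm_mul, norm_div, e1, Complex.norm_exp_ofReal_mul_I, mul_one, Complex.norm_real, Real.norm_of_nonneg hβ.le]
  congr 1
  have e2 : I + sgc x y = (x : ℂ) + ((1 + y : ℝ) : ℂ) * I := by unfold sgc; push_cast; ring
  rw [e2, Complex.norm_add_mul_I]
  congr 1
  ring

/-- the real part of the remainder -/
theorem hre_gam {β x y : ℝ} (hβ : 0 < β) (hx : 0 < x) (hy : 0 ≤ y) (t : ℝ) (ht : |t| ≤ 4 / 5) :
    (Rm (sgc x y) β (t * cexp (gam * I))).re ≤ (1 - cR x y) * (aR x y / β) * t ^ 2 / 2 := by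
  obtain ⟨ha, hc0, hc1, hP0⟩ := const_pos hx hy
  have hR : (1 - cR x y) * (aR x y / β) * t ^ 2 / 2 = 0.257 * PP x y / β * t ^ 2 / 2 := by
    unfold cR
    field_simp
    ring
  rw [hR]
  -- split off the cubic term
  have hseg := (segBd_gam t ht).2
  obtain ⟨v, hv⟩ : ∃ v : ℂ, v = (t : ℂ) * cexp (gam * I) := ⟨_, rfl⟩
  rw [← hv] at hseg ⊢
  obtain ⟨w, hw⟩ : ∃ w : ℂ, w = cexp (I * v) - 1 - I * v + v ^ 2 / 2 + I * v ^ 3 / 6 := ⟨_, rfl⟩
  rw [← hw] at hseg
  have e1 : Rm (sgc x y) β v = ((1 / β : ℝ) : ℂ) * (sgc x y * w) + ((t ^ 3 / (6 * β) : ℝ) : ℂ) *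
      (sgc x y * ((-11753 - 10296 * I) / 15625)) := by
    have h3 : v ^ 3 = (t : ℂ) ^ 3 * ((24 - 7 * I) / 25) ^ 3 := by rw [hv, exp_gam]; ring
    have h4 : I * v ^ 3 = -((t : ℂ) ^ 3) * ((-11753 - 10296 * I) / 15625) := by
      rw [h3]
      have h5 : I ^ 3 = -I := by rw [pow_succ, Complex.I_sq]; ring
      have h6 : I ^ 4 = 1 := by rw [show (4:ℕ) = 2 * 2 by norm_num, pow_mul, Complex.I_sq]; norm_num
      have e : I * ((t : ℂ) ^ 3 * ((24 - 7 * I) / 25) ^ 3) =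
        (t : ℂ) ^ 3 * ((13824 * I - 12096 * I ^ 2 + 3528 * I ^ 3 - 343 * I ^ 4) / 15625) := by ring
      rw [e, h5, h6, Complex.I_sq]
      ring
    have h7 : cexp (I * v) - 1 - I * v + v ^ 2 / 2 = w - I * v ^ 3 / 6 := by rw [hw]; ring
    unfold Rm
    rw [h7, h4]
    push_cast
    have hβ' : (β : ℂ) ≠ 0 := by exact_mod_cast hβ.ne'
    field_simp
    ring
  rw [e1, Complex.add_re, Complex.re_ofReal_mul, Complex.re_ofReal_mul]
  have h1 : (sgc x y * w).re ≤ PP x y * (0.0437 * |t| ^ 4) := by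
    refine (Complex.re_le_norm _).trans ?_
    rw [norm_mul, norm_sg]
    exact mul_le_mul_of_nonneg_left hseg hP0
  have h2 : |(sgc x y * ((-11753 - 10296 * I) / 15625)).re| ≤ 0.7522 * PP x y := by
    have e2 : sgc x y * ((-11753 - 10296 * I) / 15625) = (((-11753 * x + 10296 * y) / 15625 : ℝ) : ℂ) +
        (((-10296 * x - 11753 * y) / 15625 : ℝ) : ℂ) * I := by
      unfold sgc
      push_cast
      linear_combination (-(10296 : ℂ) * y / 15625) * Complex.I_sq
    rw [e2]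
    simp only [Complex.add_re, Complex.ofReal_re, Complex.mul_re, Complex.I_re, Complex.I_im, Complex.ofReal_im, mul_zero,
      mul_one, sub_zero, add_zero]
    have hx1 : x ≤ PP x y := by unfold PP; apply Real.le_sqrt_of_sq_le; nlinarith
    have hy1 : y ≤ PP x y := by unfold PP; apply Real.le_sqrt_of_sq_le; nlinarith
    rw [abs_le]
    constructor <;> linarith
  have h3 : t ^ 3 / (6 * β) * (sgc x y * ((-11753 - 10296 * I) / 15625)).re ≤ |t| ^ 3 / (6 * β) * (0.7522 * PP x y) := by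
    refine (le_abs_self _).trans ?_
    rw [abs_mul, abs_div, abs_pow, abs_of_pos (by positivity : 0 < 6 * β)]
    exact mul_le_mul_of_nonneg_left h2 (by positivity)
  have h4 : 1 / β * (sgc x y * w).re ≤ 1 / β * (PP x y * (0.0437 * |t| ^ 4)) :=
    mul_le_mul_of_nonneg_left h1 (by positivity)
  have hb0 := abs_nonneg t
  have h5 : |t| ^ 4 ≤ 0.64 * t ^ 2 := by
    have : |t| ^ 4 = t ^ 2 * t ^ 2 := by
      rw [show (4:ℕ) = 2 * 2 by norm_num, pow_mul, sq_abs]; ring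
    rw [this]
    have h6 : t ^ 2 ≤ 0.64 := by
      rw [← sq_abs]; nlinarith
    nlinarith [sq_nonneg t]
  have h6 : |t| ^ 3 ≤ 0.8 * t ^ 2 := by
    have : |t| ^ 3 = |t| * t ^ 2 := by rw [pow_succ, sq_abs]; ring
    rw [this]
    have : |t| ≤ 0.8 := by linarith
    exact mul_le_mul_of_nonneg_right this (sq_nonneg t)
  have h7 : 1 / β * (PP x y * (0.0437 * |t| ^ 4)) ≤ 1 / β * (PP x y * (0.0437 * (0.64 * t ^ 2))) := by
    apply mul_le_mul_of_nonneg_left _ (by positivity)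
    apply mul_le_mul_of_nonneg_left _ hP0
    linarith
  have h8 : |t| ^ 3 / (6 * β) * (0.7522 * PP x y) ≤ 0.8 * t ^ 2 / (6 * β) * (0.7522 * PP x y) := by
    apply mul_le_mul_of_nonneg_right _ (by positivity)
    exact div_le_div_of_nonneg_right h6 (by positivity)
  have h9 : 1 / β * (PP x y * (0.0437 * (0.64 * t ^ 2))) + 0.8 * t ^ 2 / (6 * β) * (0.7522 * PP x y) ≤
      0.257 * PP x y / β * t ^ 2 / 2 := by
    have e3 : 1 / β * (PP x y * (0.0437 * (0.64 * t ^ 2))) + 0.8 * t ^ 2 / (6 * β) * (0.7522 * PP x y) =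
      (0.0437 * 0.64 + 0.8 * 0.7522 / 6) * (PP x y / β * t ^ 2) := by
      field_simp
    have e4 : 0.257 * PP x y / β * t ^ 2 / 2 = (0.257 / 2) * (PP x y / β * t ^ 2) := by ring
    rw [e3, e4]
    apply mul_le_mul_of_nonneg_right _ (by positivity)
    norm_num
  linarith

/-- **the right saddle lemma** -/
theorem JR : JRstat := by
  intro β r θ x y hβ hr hs hx hx3 hy hy7 hP hk1
  obtain ⟨ha, hc0, hc1, hP0⟩ := const_pos hx hy
  have hE := Ex_pos β x y
  obtain ⟨Λ, hΛ⟩ : ∃ Λ : ℂ, Λ = (I + sgc x y) / β * cexp (2 * gam * I) := ⟨_, rfl⟩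
  have hΛre := Lam_eq hΛ
  have hΛn := Lam_norm hβ hΛ
  have hre0 : 0 < Λ.re := by rw [hΛre]; positivity
  have hval := sad_value hβ hΛ hre0 hc0 hc1 (by norm_num : (0:ℝ) < 4 / 5) (by norm_num) segBd_gam
    (fun t ht => by rw [hΛre]; exact hre_gam hβ hx hy t ht)
  have hfir := sad_first hβ hΛ hre0 hc0 hc1 (by norm_num : (0:ℝ) < 4 / 5) (by norm_num) segBd_gam
    (fun t ht => by rw [hΛre]; exact hre_gam hβ hx hy t ht)
  rw [hΛre, norm_sg] at hval hfir
  -- the primitives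
  obtain ⟨P0, hP0'⟩ := exists_prim (differentiable_KK β r θ)
  obtain ⟨P1, hP1'⟩ := exists_prim (differentiable_K1 β r θ)
  obtain ⟨l0, V0, r0, hp0, tL0, tR0⟩ := exists_pack hβ hr zero_le_one (differentiable_KK β r θ) (bd_KK β r θ) hP0'
  obtain ⟨l1, V1, r1, hp1, tL1, tR1'⟩ := exists_pack hβ hr (abs_nonneg θ) (differentiable_K1 β r θ) (bd_K1 β r θ) hP1'
  obtain ⟨h2, hh2⟩ : ∃ h2 : ℂ → ℂ, h2 = fun w => (w - (θ + sgc x y)) * KK β r θ w := ⟨_, rfl⟩
  have hd2 : Differentiable ℂ h2 := by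
    rw [hh2]
    have := differentiable_KK β r θ
    fun_prop
  have hP2' : ∀ w, HasDerivAt (fun w => P1 w - sgc x y * P0 w) (h2 w) w := by
    intro w
    refine ((hP1' w).sub ((hP0' w).const_mul (sgc x y))).congr_deriv ?_
    rw [hh2]
    unfold K1
    ring
  have hb2 : ∀ X Y : ℝ, ‖h2 (X + Y * I)‖ ≤ (|X| + |Y| + ‖(θ : ℂ) + sgc x y‖) * ‖KK β r θ (X + Y * I)‖ := by
    intro X Y
    rw [hh2]
    simp only
    rw [norm_mul]
    refine mul_le_mul_of_nonneg_right ?_ (norm_nonneg _)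
    refine (norm_sub_le _ _).trans ?_
    refine add_le_add ((norm_add_le _ _).trans ?_) le_rfl
    rw [norm_mul, Complex.norm_I, mul_one, Complex.norm_real, Complex.norm_real, Real.norm_eq_abs, Real.norm_eq_abs]
  obtain ⟨l2, V2, r2, hp2, tL2, tR2'⟩ := exists_pack hβ hr (norm_nonneg _) hd2 hb2 hP2'
  have el : l2 = l1 - sgc x y * l0 :=
    tendsto_nhds_unique (tL2 1 one_pos) ((tL1 1 one_pos).sub ((tL0 1 one_pos).const_mul _))
  have er : r2 = r1 - sgc x y * r0 :=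
    tendsto_nhds_unique (tR2' (-1) (by norm_num)) ((tR1' (-1) (by norm_num)).sub ((tR0 (-1) (by norm_num)).const_mul _))
  have hZ0 : Z0 β r θ = r0 - l0 := by
    unfold Z0; rw [hp0.XL_eq, hp0.YR_eq]; ring
  have hZ1 : Z1 β r θ - ((x : ℂ) + y * I) * Z0 β r θ = r2 - l2 := by
    have : (x : ℂ) + y * I = sgc x y := rfl
    rw [hZ0, this, el, er]
    unfold Z1
    rw [hp1.XL_eq, hp1.YR_eq]
    ring
  -- the relative bounds
  have hrel0 : RelBd β θ x y 1 0 (KK β r θ) := by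
    intro X Y
    rw [norm_KK_pt hβ hs, zero_mul, add_zero, mul_one]
  have hrel2 : RelBd β θ x y 0 1 h2 := by
    intro X Y
    rw [hh2]
    simp only
    rw [norm_mul, norm_KK_pt hβ hs, zero_add, one_mul]
    have e : pt θ x y X Y - (θ + sgc x y) = (X : ℂ) + Y * I := by rw [pt_eq]; ring
    rw [e, Complex.norm_add_mul_I]
    exact le_of_eq (by ring)
  have ht0 := tails_le hp0 hβ hrel0 zero_le_one le_rfl hx hx3 hy hy7 hP hk1
  have ht2 := tails_le hp2 hβ hrel2 le_rfl zero_le_one hx hx3 hy hy7 hP hk1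
  rw [zero_mul, add_zero, one_mul] at ht0
  rw [zero_mul, zero_add, one_mul] at ht2
  -- the central parts
  have en1 : (θ : ℂ) + sgc x y + ((4 / 5 : ℝ) : ℂ) * cexp (gam * I) = pt θ x y 0.768 (-0.224) := by
    rw [pt_eq, exp_gam]; push_cast; ring
  have en2 : (θ : ℂ) + sgc x y + ((-(4 / 5) : ℝ) : ℂ) * cexp (gam * I) = pt θ x y (-0.768) 0.224 := by
    rw [pt_eq, exp_gam]; push_cast; ring
  have hne : ‖cexp (gam * I)‖ = 1 := Complex.norm_exp_ofReal_mul_I _
  have hc0' := hp0.segment (θ + sgc x y) (cexp (gam * I)) (-(4 / 5)) (4 / 5)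
  have hc2' := hp2.segment (θ + sgc x y) (cexp (gam * I)) (-(4 / 5)) (4 / 5)
  rw [en1, en2] at hc0' hc2'
  have hi0 : ∫ t in (-(4 / 5) : ℝ)..(4 / 5), KK β r θ (θ + sgc x y + t * cexp (gam * I)) =
      KK β r θ (θ + sgc x y) * ∫ t in (-(4 / 5) : ℝ)..(4 / 5), cexp (Psi (sgc x y) (t * cexp (gam * I)) / β) := by
    rw [← intervalIntegral.integral_const_mul]
    refine intervalIntegral.integral_congr (fun t _ => ?_)
    exact KK_saddle hβ hs _
  have hi2 : ∫ t in (-(4 / 5) : ℝ)..(4 / 5), h2 (θ + sgc x y + t * cexp (gam * I)) =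
      cexp (gam * I) * KK β r θ (θ + sgc x y) * ∫ t in (-(4 / 5) : ℝ)..(4 / 5), (t : ℂ) * cexp (Psi (sgc x y) (t * cexp (gam * I)) / β) := by
    rw [← intervalIntegral.integral_const_mul]
    refine intervalIntegral.integral_congr (fun t _ => ?_)
    show h2 _ = _
    rw [hh2]
    simp only
    rw [KK_saddle hβ hs]
    ring
  have hn0 : ‖P0 (pt θ x y 0.768 (-0.224)) - P0 (pt θ x y (-0.768) 0.224)‖ =
      Ex β x y * ‖∫ t in (-(4 / 5) : ℝ)..(4 / 5), cexp (Psi (sgc x y) (t * cexp (gam * I)) / β)‖ := by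
    rw [← hc0', hi0, norm_mul, hne, one_mul, norm_mul, norm_KK_center hβ hs]
  have hn2 : ‖(P1 (pt θ x y 0.768 (-0.224)) - sgc x y * P0 (pt θ x y 0.768 (-0.224))) -
      (P1 (pt θ x y (-0.768) 0.224) - sgc x y * P0 (pt θ x y (-0.768) 0.224))‖ =
      Ex β x y * ‖∫ t in (-(4 / 5) : ℝ)..(4 / 5), (t : ℂ) * cexp (Psi (sgc x y) (t * cexp (gam * I)) / β)‖ := by
    rw [← hc2', hi2, norm_mul, hne, one_mul, norm_mul, norm_mul, hne, one_mul, norm_KK_center hβ hs]
  have hA0 : ‖(2 * (Real.pi : ℂ) / Λ) ^ (1 / 2 : ℂ)‖ = A0 β x y := by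
    have e1 : (1 / 2 : ℂ) = ((1 / 2 : ℝ) : ℂ) := by push_cast; ring
    have e2 : ‖(2 * (Real.pi : ℂ) / Λ)‖ = 2 * Real.pi * β / Real.sqrt ((1 + y) ^ 2 + x ^ 2) := by
      rw [norm_div, norm_mul, Complex.norm_real, Real.norm_of_nonneg Real.pi_pos.le, hΛn]
      have : (0:ℝ) < Real.sqrt ((1 + y) ^ 2 + x ^ 2) := Real.sqrt_pos.2 (by positivity)
      simp only [Complex.norm_ofNat]
      field_simp
    rw [e1, Complex.norm_cpow_real, e2, ← Real.sqrt_eq_rpow]
    rfl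
  constructor
  · rw [hZ0]
    obtain ⟨J, hJ⟩ : ∃ J : ℂ, J = ∫ t in (-(4 / 5) : ℝ)..(4 / 5), cexp (Psi (sgc x y) (t * cexp (gam * I)) / β) := ⟨_, rfl⟩
    rw [← hJ] at hval hn0
    have h3 : A0 β x y - cenE (aR x y / β) (PP x y / β) (cR x y) 0.1765 0.0437 ≤ ‖J‖ := by
      have h4 := norm_sub_norm_le ((2 * (Real.pi : ℂ) / Λ) ^ (1 / 2 : ℂ)) J
      rw [hA0, norm_sub_rev] at h4
      have h5 : ‖J - (2 * (Real.pi : ℂ) / Λ) ^ (1 / 2 : ℂ)‖ ≤ cenE (aR x y / β) (PP x y / β) (cR x y) 0.1765 0.0437 := by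
        unfold cenE; exact hval
      linarith
    have h6 := norm_sub_norm_le (P0 (pt θ x y 0.768 (-0.224)) - P0 (pt θ x y (-0.768) 0.224)) (r0 - l0)
    rw [norm_sub_rev (P0 (pt θ x y 0.768 (-0.224)) - P0 (pt θ x y (-0.768) 0.224)) (r0 - l0), hn0] at h6
    have h7 := mul_le_mul_of_nonneg_left h3 hE.le
    unfold ER
    have e : Ex β x y * (A0 β x y - (cenE (aR x y / β) (PP x y / β) (cR x y) 0.1765 0.0437 + tR1 β x y + tR2 β x y)) =
      Ex β x y * (A0 β x y - cenE (aR x y / β) (PP x y / β) (cR x y) 0.1765 0.0437) -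
        Ex β x y * (tR1 β x y + tR2 β x y) := by ring
    rw [e]
    linarith
  · rw [hZ1]
    have h3 := norm_add_le ((r2 - l2) - ((P1 (pt θ x y 0.768 (-0.224)) - sgc x y * P0 (pt θ x y 0.768 (-0.224))) -
      (P1 (pt θ x y (-0.768) 0.224) - sgc x y * P0 (pt θ x y (-0.768) 0.224))))
      ((P1 (pt θ x y 0.768 (-0.224)) - sgc x y * P0 (pt θ x y 0.768 (-0.224))) -
      (P1 (pt θ x y (-0.768) 0.224) - sgc x y * P0 (pt θ x y (-0.768) 0.224)))
    rw [sub_add_cancel, hn2] at h3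
    have h4 : ‖∫ t in (-(4 / 5) : ℝ)..(4 / 5), (t : ℂ) * cexp (Psi (sgc x y) (t * cexp (gam * I)) / β)‖ ≤
        cenF (aR x y / β) (PP x y / β) (cR x y) 0.1765 0.0437 := by
      unfold cenF; exact hfir
    have h5 := mul_le_mul_of_nonneg_left h4 hE.le
    have e : Ex β x y * FR β x y = Ex β x y * (FR β x y - cenF (aR x y / β) (PP x y / β) (cR x y) 0.1765 0.0437) +
      Ex β x y * cenF (aR x y / β) (PP x y / β) (cR x y) 0.1765 0.0437 := by ring
    rw [e]
    refine h3.trans (add_le_add ht2 h5)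

end Sok.B2
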