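import Pool.Agent.Lib.MP_816dec_an.B2NumR
import Pool.Agent.Lib.MP_816dec_an.B2JR

/-!
MP_816dec_an, b = 2: the slope at the right saddle.
-/

set_option autoImplicit false

open Complex Set Filter Topology

namespace Sok.B2

open Sok Sok.W

/-- from the value and the moment bound to the slope -/
theorem im_bound {β x y E F ER FR : ℝ} {z0 z1 : ℂ} (hA : 0 < A0 β x y)
    (h1 : Ex β x y * (A0 β x y - ER) ≤ ‖z0‖) (h2 : ‖z1 - ((x : ℂ) + y * I) * z0‖ ≤ Ex β x y * FR)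
    (hE : ER ≤ E * A0 β x y) (hF : FR ≤ F * A0 β x y) (hE1 : E < 1) :
    z0 ≠ 0 ∧ |(z1 / z0).im - y| ≤ F / (1 - E) := by
  have hEx : 0 < Ex β x y := Real.exp_pos _
  have hE' : 0 < 1 - E := by linarith
  have e1 : Ex β x y * (A0 β x y * (1 - E)) ≤ ‖z0‖ := by
    refine le_trans (mul_le_mul_of_nonneg_left ?_ hEx.le) h1
    linarith
  have e2 : 0 < Ex β x y * (A0 β x y * (1 - E)) := by positivity
  have e3 : 0 < ‖z0‖ := lt_of_lt_of_le e2 e1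
  have hz : z0 ≠ 0 := norm_pos_iff.1 e3
  refine ⟨hz, ?_⟩
  have e4 : (z1 / z0).im - y = ((z1 - ((x : ℂ) + y * I) * z0) / z0).im := by
    rw [sub_div, mul_div_assoc, div_self hz, mul_one]
    simp
  rw [e4]
  refine (Complex.abs_im_le_norm _).trans ?_
  rw [norm_div, div_le_div_iff₀ e3 hE']
  have e5 : ‖z1 - ((x : ℂ) + y * I) * z0‖ * (1 - E) ≤ Ex β x y * (F * A0 β x y) * (1 - E) :=
    mul_le_mul_of_nonneg_right (h2.trans (mul_le_mul_of_nonneg_left hF hEx.le)) hE'.le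
  have hF0 : 0 ≤ F := by
    have : 0 ≤ Ex β x y * FR := (norm_nonneg _).trans h2
    have : 0 ≤ FR := by
      by_contra hcon
      push Not at hcon
      have := mul_neg_of_pos_of_neg hEx hcon
      linarith
    by_contra hcon
    push Not at hcon
    have := mul_neg_of_neg_of_pos hcon hA
    linarith
  calc _ ≤ Ex β x y * (F * A0 β x y) * (1 - E) := e5
    _ = F * (Ex β x y * (A0 β x y * (1 - E))) := by ring
    _ ≤ F * ‖z0‖ := mul_le_mul_of_nonneg_left e1 hF0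

theorem hbk {β r : ℝ} (hβ : 0 < β) (hr : 10 ≤ r) : 10 * β ≤ β * r := by nlinarith

theorem RS.y_ge45' {κ τ x y u : ℝ} (h : RS κ τ x y u) (h1 : 1.3 ≤ κ) (h2 : κ ≤ 1.6) (hτ : 1.3 ≤ τ) : 0.45 ≤ y := by
  refine h.y_ge (k1 := 1.3) (m := 0.7058) (E0 := 0.6376) (u0 := 0.58) (c := 1.0595) (τ0 := 1.3) h1 ?_ ?_ (by norm_num)
    (by norm_num) (by norm_num) (by norm_num) (by norm_num) (by norm_num) hτ (by nlinarith)
  · have := eu (G := 0.45) (b := 1.5684) (by norm_num) (by norm_num) (by norm_num)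
    linarith
  · exact eln (by norm_num) (by norm_num) (by norm_num) (by norm_num)

theorem RS.le_k {κ τ x y u : ℝ} (h : RS κ τ x y u) : x ^ 2 + y ^ 2 ≤ κ ^ 2 := by
  rw [h.normsq]
  have e1 : Real.exp (-y) ≤ 1 := Real.exp_le_one_iff.2 (by linarith [h.y0])
  have e2 := Real.exp_pos (-y)
  have e3 : Real.exp (-y) ^ 2 ≤ 1 := by nlinarith
  nlinarith [sq_nonneg κ]

/-- the hypotheses of `JR` -/
theorem RS.jr {κ τ x y u : ℝ} (h : RS κ τ x y u) (h2 : κ ≤ 3) (hy : y ≤ 0.68) (hx : 0.155 ≤ x) :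
    x ≤ 3 ∧ y ≤ 0.7 ∧ x ^ 2 + y ^ 2 ≤ 9 ∧ 0 < 0.224 + 0.8691 * x - 0.5243 * y := by
  have e1 := h.le_k
  have hκ := h.kpos
  have e2 : κ ^ 2 ≤ 9 := by nlinarith
  have hy0 := h.y0
  refine ⟨?_, by linarith, by linarith, by linarith⟩
  nlinarith [sq_nonneg y, h.x0]

theorem xIIge {κ τ x y u : ℝ} (h : RS κ τ x y u) (h1 : 1.6 ≤ κ) (h2 : κ ≤ 2.2) (hy : y ≤ 0.68) :
    0.7365 * κ - 0.7373 ≤ x := by
  have := h.x_ge_of_y (p := 0.7365) (q := -0.7373) (E := 0.5066) hy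
    (eln (by norm_num) (by norm_num) (by norm_num) (by norm_num)) (by norm_num) (by nlinarith)
  linarith

theorem xIIIhige {κ τ x y u : ℝ} (h : RS κ τ x y u) (h1 : 2.2 ≤ κ) (h2 : κ ≤ 3) (hy : y ≤ 0.68) :
    0.5951 * κ - 0.4262 ≤ x := by
  have := h.x_ge_of_y (p := 0.5951) (q := -0.4262) (E := 0.5066) hy
    (eln (by norm_num) (by norm_num) (by norm_num) (by norm_num)) (by norm_num) (by nlinarith)
  linarith

theorem xIIIloge {κ τ x y u : ℝ} (h : RS κ τ x y u) (h1 : 2.2 ≤ κ) (h2 : κ ≤ 3) (hy : y ≤ 0.6) :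
    0.6068 * κ - 0.2873 ≤ x := by
  have := h.x_ge_of_y (p := 0.6068) (q := -0.2873) (E := 0.54881) hy
    (eln (by norm_num) (by norm_num) (by norm_num) (by norm_num)) (by norm_num) (by nlinarith)
  linarith

/-- slope at the right saddle, `κ ≤ 2.2` -/
theorem slopeR1 {β r θ : ℝ} (hβ : 0 < β) (hr : 10 ≤ r) (h1 : 1 ≤ β * r) (h2 : β * r ≤ 2.2)
    (ha : 1.3 ≤ θ + β * r) (hb : θ + β * r ≤ 1.95) :
    Z0 β r θ ≠ 0 ∧ -0.13 ≤ (Z1 β r θ / Z0 β r θ).im := by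
  obtain ⟨x, y, ex, ey, hx, hy, hu0, hu1⟩ := exR h1 (by linarith) hb
  have hS : Sad β r θ x y := ⟨ex, ey⟩
  have h := RS.of_sad hS hx hy hu0 hu1
  have hk := hbk hβ hr
  have hr0 : 0 < r := by linarith
  rcases le_total (β * r) 1.6 with hc | hc
  · have hx1 := h.x_geI h1 hc hb
    have hy2 := h.y_leI h1 hc hb
    obtain ⟨j1, j2, j3, j4⟩ := h.jr (by linarith) (h.y_le68 hb) (by linarith)
    have hJ := JR β r θ x y hβ hr0 hS hx j1 hy j2 j3 j4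
    rcases le_total (β * r) 1.3 with hd | hd
    · have hy1 := h.y_ge42 h1 hc ha
      have hn := numRIa h hβ hk h1 hd hx1 hy1 hy2
      obtain ⟨z, hi⟩ := im_bound hn.2.2.1 hJ.1 hJ.2 hn.1 hn.2.1 (by norm_num)
      refine ⟨z, ?_⟩
      have := (abs_le.1 hi).1
      norm_num at this ⊢
      linarith
    · have hy1 := h.y_ge45' hd hc ha
      have hn := numRIb h hβ hk hd hc hx1 hy1 hy2
      obtain ⟨z, hi⟩ := im_bound hn.2.2.1 hJ.1 hJ.2 hn.1 hn.2.1 (by norm_num)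
      refine ⟨z, ?_⟩
      have := (abs_le.1 hi).1
      norm_num at this ⊢
      linarith
  · have hy2 := h.y_le68 hb
    have hx1 := xIIge h hc h2 hy2
    obtain ⟨j1, j2, j3, j4⟩ := h.jr (by linarith) (h.y_le68 hb) (by linarith)
    have hJ := JR β r θ x y hβ hr0 hS hx j1 hy j2 j3 j4
    have hy1 := h.y_ge45 hc h2 ha
    have hn := numRII h hβ hk hc h2 hx1 hy1 hy2
    obtain ⟨z, hi⟩ := im_bound hn.2.2.1 hJ.1 hJ.2 hn.1 hn.2.1 (by norm_num)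
    refine ⟨z, ?_⟩
    have := (abs_le.1 hi).1
    norm_num at this ⊢
    linarith

/-- slope at the right saddle, `2.2 ≤ κ ≤ 3` -/
theorem slopeR2 {β r θ : ℝ} (hβ : 0 < β) (hr : 10 ≤ r) (h1 : 2.2 ≤ β * r) (h2 : β * r ≤ 3)
    (ha : 1.3 ≤ θ + β * r) (hb : θ + β * r ≤ 1.95) :
    Z0 β r θ ≠ 0 ∧ -0.085 ≤ (Z1 β r θ / Z0 β r θ).im := by
  obtain ⟨x, y, ex, ey, hx, hy, hu0, hu1⟩ := exR (by linarith : 1 ≤ β * r) (by linarith) hb
  have hS : Sad β r θ x y := ⟨ex, ey⟩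
  have h := RS.of_sad hS hx hy hu0 hu1
  have hk := hbk hβ hr
  have hr0 : 0 < r := by linarith
  have hy2 := h.y_le68 hb
  have hx1 := xIIIhige h h1 h2 hy2
  obtain ⟨j1, j2, j3, j4⟩ := h.jr h2 (h.y_le68 hb) (by linarith)
  have hJ := JR β r θ x y hβ hr0 hS hx j1 hy j2 j3 j4
  rcases le_total 1.6 (θ + β * r) with hc | hc
  · have hy1 := h.y_ge51 h1 h2 hc
    have hn := numRIIIhi h hβ hk h1 h2 hx1 hy1 hy2
    obtain ⟨z, hi⟩ := im_bound hn.2.2.1 hJ.1 hJ.2 hn.1 hn.2.1 (by norm_num)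
    refine ⟨z, ?_⟩
    have := (abs_le.1 hi).1
    norm_num at this ⊢
    linarith
  · have hy3 := h.y_le60 hc
    have hx3 := xIIIloge h h1 h2 hy3
    have hy1 := h.y_ge40 (by linarith) h2 ha
    have hn := numRIIIlo h hβ hk h1 h2 hx3 hy1 hy3
    obtain ⟨z, hi⟩ := im_bound hn.2.2.1 hJ.1 hJ.2 hn.1 hn.2.1 (by norm_num)
    refine ⟨z, ?_⟩
    have := (abs_le.1 hi).1
    norm_num at this ⊢
    linarith

end Sok.B2
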