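import Pool.Agent.Lib.MP_816dec_an.XYmain

/-!
MP_816dec_an, b = 1: further legs for a `Pack`: the slanted ray into the left valley and the vertical legs at
`Re y = S`, `π/2 ≤ S ≤ 3π/2`.
-/

set_option autoImplicit false

open Complex Set Filter Topology MeasureTheory

namespace Sok.W

/-- the growth condition of the integrands -/
def BdKK (β r θ : ℝ) (h : ℂ → ℂ) (A : ℝ) : Prop :=
  ∀ X Y : ℝ, ‖h (X + Y * I)‖ ≤ (|X| + |Y| + A) * ‖KK β r θ (X + Y * I)‖

/-- the primitive on a horizontal move, in norm -/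
theorem norm_hor_le {h P : ℂ → ℂ} (hd : Differentiable ℂ h) (hP : ∀ x, HasDerivAt P (h x) x) {a b Y C : ℝ}
    (hC : ∀ X ∈ uIoc a b, ‖h (X + Y * I)‖ ≤ C) : ‖P (b + Y * I) - P (a + Y * I)‖ ≤ C * |b - a| := by
  rw [← prim_hor hd hP]
  exact intervalIntegral.norm_integral_le_of_norm_le_const hC

theorem norm_ver_le {h P : ℂ → ℂ} (hd : Differentiable ℂ h) (hP : ∀ x, HasDerivAt P (h x) x) {a b X C : ℝ}
    (hC : ∀ Y ∈ uIoc a b, ‖h (X + Y * I)‖ ≤ C) : ‖P (X + b * I) - P (X + a * I)‖ ≤ C * |b - a| := by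
  rw [← prim_ver hd hP, norm_mul, Complex.norm_I, one_mul]
  exact intervalIntegral.norm_integral_le_of_norm_le_const hC

/-- `V` is also the limit along the vertical line `Re y = S` -/
theorem Pack.tendsto_valley {β r θ A : ℝ} (hβ : 0 < β) (hr : 0 < r) {h P : ℂ → ℂ} {lL V lR : ℂ}
    (hp : Pack h P lL V lR) (hb : BdKK β r θ h A) (hA : 0 ≤ A) {S : ℝ} (hS1 : Real.pi / 2 ≤ S) (hS2 : S ≤ 3 * Real.pi / 2)
    (hθ : θ < min S Real.pi) : Tendsto (fun s : ℝ => P (S + s * I)) atBot (𝓝 V) := by
  obtain ⟨m, hm⟩ : ∃ m : ℝ, m = (min S Real.pi - θ) / β := ⟨_, rfl⟩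
  have hm0 : 0 < m := by rw [hm]; have := sub_pos.2 hθ; positivity
  -- limit at π
  have hπ : Tendsto (fun s : ℝ => P ((Real.pi : ℝ) + s * I)) atBot (𝓝 V) := by
    have hb2 := intervalIntegral_tendsto_integral_Iic (0 : ℝ) (hp.valley_int 0) tendsto_id
    have h1 : Tendsto (fun s : ℝ => P ((Real.pi : ℝ) + (0 : ℝ) * I) - I * ∫ u in s..(0:ℝ), h ((Real.pi : ℝ) + u * I)) atBot
        (𝓝 (P ((Real.pi : ℝ) + (0 : ℝ) * I) - I * ∫ u in Iic (0:ℝ), h ((Real.pi : ℝ) + u * I))) :=
      tendsto_const_nhds.sub (hb2.const_mul I)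
    rw [hp.valley 0] at h1
    have h2 : P ((Real.pi : ℝ) + (0 : ℝ) * I) - (P ((Real.pi : ℝ) + (0 : ℝ) * I) - V) = V := by ring
    rw [h2] at h1
    refine h1.congr fun s => ?_
    rw [prim_ver hp.diff hp.prim]
    ring
  have hdiff : Tendsto (fun s : ℝ => P (S + s * I) - P ((Real.pi : ℝ) + s * I)) atBot (𝓝 0) := by
    have hlim : Tendsto (fun s : ℝ => ((2 * Real.pi + |s| + A) * Real.exp (m * s)) * |S - Real.pi|) atBot (𝓝 0) := by
      have h1 : Tendsto (fun s : ℝ => Real.exp (m * s)) atBot (𝓝 0) :=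
        Real.tendsto_exp_atBot.comp (tendsto_id.const_mul_atBot hm0)
      have h2 : Tendsto (fun s : ℝ => |s| * Real.exp (m * s)) atBot (𝓝 0) := by
        have h3 : Tendsto (fun x : ℝ => x * Real.exp (-x)) atTop (𝓝 0) := by
          have := Real.tendsto_pow_mul_exp_neg_atTop_nhds_zero 1
          simpa using this
        have h4 : Tendsto (fun s : ℝ => -(m * s)) atBot atTop :=
          tendsto_neg_atBot_atTop.comp (tendsto_id.const_mul_atBot hm0)
        have h5 := (h3.comp h4).div_const m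
        rw [zero_div] at h5
        refine h5.congr' ?_
        filter_upwards [eventually_le_atBot (0:ℝ)] with s hs
        simp only [Function.comp, neg_neg]
        rw [abs_of_nonpos hs]
        field_simp
      have h6 := (((h1.const_mul (2 * Real.pi + A)).add h2).mul_const |S - Real.pi|)
      simp only [mul_zero, zero_add, zero_mul] at h6
      refine h6.congr fun s => ?_
      ring
    refine squeeze_zero_norm' ?_ hlim
    filter_upwards [eventually_le_atBot (0:ℝ)] with s hs
    have hpi := Real.pi_pos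
    refine norm_hor_le hp.diff hp.prim (fun X hX => ?_)
    have hX1 : min S Real.pi ≤ X := by
      rw [uIoc, mem_Ioc] at hX
      rw [min_comm]; exact hX.1.le
    have hX2 : X ≤ max S Real.pi := by
      rw [uIoc, mem_Ioc] at hX
      rw [max_comm]; exact hX.2
    have hX3 : Real.pi / 2 ≤ X := le_trans (le_min hS1 (by linarith)) hX1
    have hX4 : X ≤ 3 * Real.pi / 2 := le_trans hX2 (max_le hS2 (by linarith))
    refine (hb X s).trans ?_
    refine mul_le_mul ?_ ?_ (norm_nonneg _) (by positivity)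
    · rw [abs_of_pos (by linarith : 0 < X)]; linarith
    · rw [norm_KK]
      apply Real.exp_le_exp.2
      have h1 : (X - θ) * s / β ≤ m * s := by
        rw [hm, div_mul_eq_mul_div]
        apply div_le_div_of_nonneg_right _ hβ.le
        nlinarith
      have h2 : Real.cos X ≤ 0 := Real.cos_nonpos_of_pi_div_two_le_of_le hX3 (by linarith)
      have h3 : r * Real.exp (-s) * Real.cos X ≤ 0 :=
        mul_nonpos_of_nonneg_of_nonpos (by positivity) h2
      linarith
  refine (hdiff.add hπ).congr' ?_ |>.trans (by rw [zero_add])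
  exact Filter.Eventually.of_forall fun s => by simp

/-- the vertical leg at `Re y = S` -/
theorem Pack.leg {β r θ A : ℝ} (hβ : 0 < β) (hr : 0 < r) {h P : ℂ → ℂ} {lL V lR : ℂ}
    (hp : Pack h P lL V lR) (hb : BdKK β r θ h A) (hA : 0 ≤ A) {S : ℝ} (hS1 : Real.pi / 2 ≤ S) (hS2 : S ≤ 3 * Real.pi / 2)
    (hθ : θ < min S Real.pi) (b : ℝ) :
    IntegrableOn (fun s : ℝ => h (S + s * I)) (Iic b) ∧ I * ∫ s in Iic b, h (S + s * I) = P (S + b * I) - V := by
  obtain ⟨m, hm⟩ : ∃ m : ℝ, m = (S - θ) / β := ⟨_, rfl⟩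
  have hm0 : 0 < m := by
    rw [hm]
    have := sub_pos.2 (hθ.trans_le (min_le_left _ _))
    positivity
  have hcont : Continuous (fun s : ℝ => h (S + s * I)) := by
    have := hp.diff.continuous
    fun_prop
  have hS0 : 0 < S := lt_of_lt_of_le (by have := Real.pi_pos; positivity) hS1
  obtain ⟨C, hC, hl⟩ := lin_exp hm0 (S + A) b (by positivity)
  have hint : IntegrableOn (fun s : ℝ => h (S + s * I)) (Iic b) := by
    have h2 : IntegrableOn (fun s : ℝ => C * Real.exp (m / 2 * s)) (Iic b) :=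
      (integrableOn_exp_mul_Iic (by positivity) b).const_mul C
    refine h2.mono' hcont.aestronglyMeasurable ?_
    refine (ae_restrict_iff' measurableSet_Iic).2 (Filter.Eventually.of_forall fun s hs => ?_)
    refine (hb S s).trans (le_trans ?_ (hl s hs))
    rw [abs_of_pos hS0]
    refine mul_le_mul (by linarith) ?_ (norm_nonneg _) (by positivity)
    rw [norm_KK]
    apply Real.exp_le_exp.2
    have h2 : Real.cos S ≤ 0 := Real.cos_nonpos_of_pi_div_two_le_of_le hS1 (by linarith)
    have h3 : r * Real.exp (-s) * Real.cos S ≤ 0 := mul_nonpos_of_nonneg_of_nonpos (by positivity) h2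
    have h4 : (S - θ) * s / β = m * s := by rw [hm]; ring
    linarith
  refine ⟨hint, ?_⟩
  have h1 := intervalIntegral_tendsto_integral_Iic b hint tendsto_id
  have h2 := h1.const_mul I
  have h3 := (tendsto_const_nhds (x := P (S + b * I))).sub (hp.tendsto_valley hβ hr hb hA hS1 hS2 hθ)
  refine tendsto_nhds_unique h2 (h3.congr fun s => ?_)
  rw [prim_ver hp.diff hp.prim]
  simp

/-- `lL` is also the limit along the slanted ray -/
theorem Pack.tendsto_left {β r θ A : ℝ} (hβ : 0 < β) {h P : ℂ → ℂ} {lL V lR : ℂ}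
    (hp : Pack h P lL V lR) (hb : BdKK β r θ h A) (hA : 0 ≤ A) (y0 : ℂ) {γ : ℝ} (hc : 0 < Real.cos γ) (hs : Real.sin γ < 0) :
    Tendsto (fun t : ℝ => P (y0 + t * cexp (γ * I))) atBot (𝓝 lL) := by
  -- limit on the line Im = 1
  have hline : Tendsto (fun X : ℝ => P (X + (1 : ℝ) * I)) atBot (𝓝 lL) := by
    have h1 := intervalIntegral_tendsto_integral_Iic (0 : ℝ) (hp.left_int 1 one_pos 0) tendsto_id
    have h2 := (tendsto_const_nhds (x := P ((0:ℝ) + (1:ℝ) * I))).sub h1
    rw [hp.left 1 one_pos 0] at h2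
    have e : P ((0:ℝ) + (1:ℝ) * I) - (P ((0:ℝ) + (1:ℝ) * I) - lL) = lL := by ring
    rw [e] at h2
    refine h2.congr fun X => ?_
    rw [prim_hor hp.diff hp.prim]
    simp
  obtain ⟨X, hX⟩ : ∃ X : ℝ → ℝ, X = fun t => y0.re + t * Real.cos γ := ⟨_, rfl⟩
  obtain ⟨Y, hY⟩ : ∃ Y : ℝ → ℝ, Y = fun t => y0.im + t * Real.sin γ := ⟨_, rfl⟩
  have hpt : ∀ t : ℝ, y0 + t * cexp (γ * I) = X t + Y t * I := by
    intro t
    rw [Complex.exp_mul_I, ← Complex.ofReal_cos, ← Complex.ofReal_sin, hX, hY]
    apply Complex.ext <;> simp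
  have hXb : Tendsto X atBot atBot := by
    rw [hX]; exact tendsto_atBot_add_const_left _ _ (tendsto_id.atBot_mul_const hc)
  have hYt : Tendsto Y atBot atTop := by
    rw [hY]; exact tendsto_atTop_add_const_left _ _ (tendsto_id.atBot_mul_const_of_neg hs)
  have hdiff : Tendsto (fun t : ℝ => P (X t + Y t * I) - P (X t + (1 : ℝ) * I)) atBot (𝓝 0) := by
    obtain ⟨k, hk⟩ : ∃ k : ℝ, k = Real.cos γ / β / 2 := ⟨_, rfl⟩
    have hk0 : 0 < k := by rw [hk]; positivity
    -- a crude bound: C (1 + |t|)² exp (k t)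
    obtain ⟨B, hB⟩ : ∃ B : ℝ, B = |y0.re| + |y0.im| + A + 2 := ⟨_, rfl⟩
    have hB0 : 2 ≤ B := by rw [hB]; have := abs_nonneg y0.re; have := abs_nonneg y0.im; linarith
    obtain ⟨E, hE⟩ : ∃ E : ℝ, E = Real.exp ((|y0.re| + |θ|) / β + |r|) := ⟨_, rfl⟩
    have hlim : Tendsto (fun t : ℝ => (2 * B + 2 * |t|) * (E * Real.exp (Real.cos γ / β * t)) * (B + |t|)) atBot (𝓝 0) := by
      have h1 : ∀ n : ℕ, Tendsto (fun t : ℝ => |t| ^ n * Real.exp (Real.cos γ / β * t)) atBot (𝓝 0) := by
        intro n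
        have hc' : 0 < Real.cos γ / β := by positivity
        have h3 := Real.tendsto_pow_mul_exp_neg_atTop_nhds_zero n
        have h4 : Tendsto (fun s : ℝ => -(Real.cos γ / β * s)) atBot atTop :=
          tendsto_neg_atBot_atTop.comp (tendsto_id.const_mul_atBot hc')
        have h5 := (h3.comp h4).div_const ((Real.cos γ / β) ^ n)
        rw [zero_div] at h5
        refine h5.congr' ?_
        filter_upwards [eventually_le_atBot (0:ℝ)] with s hs'
        simp only [Function.comp, neg_neg]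
        rw [abs_of_nonpos hs', ← mul_neg, mul_pow]
        field_simp
      have h2 := (((h1 0).const_mul (2 * B * E * B)).add ((h1 1).const_mul (4 * B * E))).add ((h1 2).const_mul (2 * E))
      simp only [mul_zero, add_zero] at h2
      refine h2.congr fun t => ?_
      ring
    refine squeeze_zero_norm' ?_ hlim
    filter_upwards [eventually_le_atBot (0:ℝ), hYt.eventually_ge_atTop 1, hXb.eventually_le_atBot (-(|θ|))] with t ht hY1 hX1
    have hYabs : |Y t| ≤ B + |t| := by
      rw [hY]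
      refine (abs_add_le _ _).trans ?_
      rw [abs_mul]
      have := Real.abs_sin_le_one γ
      have h1 := abs_nonneg t
      have h2 : |t| * |Real.sin γ| ≤ |t| := mul_le_of_le_one_right h1 this
      have := abs_nonneg y0.re
      rw [hB]; linarith
    have hXabs : |X t| ≤ B + |t| := by
      rw [hX]
      refine (abs_add_le _ _).trans ?_
      rw [abs_mul]
      have := Real.abs_cos_le_one γ
      have h1 := abs_nonneg t
      have h2 : |t| * |Real.cos γ| ≤ |t| := mul_le_of_le_one_right h1 this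
      have := abs_nonneg y0.im
      rw [hB]; linarith
    refine (norm_ver_le hp.diff hp.prim (C := (2 * B + 2 * |t|) * (E * Real.exp (Real.cos γ / β * t))) (fun s hs' => ?_)).trans ?_
    · rw [uIoc_of_le hY1, mem_Ioc] at hs'
      refine (hb (X t) s).trans ?_
      have hs0 : 0 < s := by linarith [hs'.1]
      have hsY : s ≤ |Y t| := hs'.2.trans (le_abs_self _)
      refine mul_le_mul ?_ ?_ (norm_nonneg _) (by have := abs_nonneg t; positivity)
      · rw [abs_of_pos hs0]
        have hAB : A ≤ B - 2 := by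
          rw [hB]; have := abs_nonneg y0.re; have := abs_nonneg y0.im; linarith
        -- |X| + s + A ≤ 2B + 2|t|
        have h1 : |X t| ≤ |y0.re| + |t| := by
          rw [hX]
          refine (abs_add_le _ _).trans ?_
          rw [abs_mul]
          have := mul_le_of_le_one_right (abs_nonneg t) (Real.abs_cos_le_one γ)
          linarith
        have h2 : |Y t| ≤ |y0.im| + |t| := by
          rw [hY]
          refine (abs_add_le _ _).trans ?_
          rw [abs_mul]
          have := mul_le_of_le_one_right (abs_nonneg t) (Real.abs_sin_le_one γ)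
          linarith
        have h3 : |y0.re| + |y0.im| + A + 2 = B := hB.symm
        have h4 : 0 ≤ B := by linarith
        linarith
      · rw [norm_KK, hE, ← Real.exp_add]
        apply Real.exp_le_exp.2
        have h1 : (X t - θ) * s / β ≤ (X t - θ) / β := by
          apply div_le_div_of_nonneg_right _ hβ.le
          have h2 : X t - θ ≤ 0 := by have := neg_abs_le θ; linarith
          nlinarith [hs'.1]
        have h2 : (X t - θ) / β ≤ (|y0.re| + |θ|) / β + Real.cos γ / β * t := by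
          rw [hX, div_mul_eq_mul_div, ← add_div]
          apply div_le_div_of_nonneg_right _ hβ.le
          have := le_abs_self y0.re
          have := neg_abs_le θ
          simp only
          nlinarith
        have h3 : r * Real.exp (-s) * Real.cos (X t) ≤ |r| := by
          refine (le_abs_self _).trans ?_
          rw [abs_mul, abs_mul, Real.abs_exp]
          have h4 : Real.exp (-s) ≤ 1 := Real.exp_le_one_iff.2 (by linarith)
          calc |r| * Real.exp (-s) * |Real.cos (X t)| ≤ |r| * 1 * 1 := by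
                apply mul_le_mul (mul_le_mul_of_nonneg_left h4 (abs_nonneg r)) (Real.abs_cos_le_one _) (abs_nonneg _)
                  (by positivity)
            _ = |r| := by ring
        linarith
    · apply mul_le_mul_of_nonneg_left _ (by have := abs_nonneg t; have : 0 ≤ E := by rw [hE]; positivity
                                            positivity)
      rw [abs_of_nonneg (by linarith)]
      have := le_abs_self (Y t)
      linarith
  have h1 := hdiff.add (hline.comp hXb)
  rw [zero_add] at h1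
  refine h1.congr fun t => ?_
  rw [hpt]
  simp

/-- the slanted ray into the left valley -/
theorem Pack.ray_left {β r θ A : ℝ} (hβ : 0 < β) {h P : ℂ → ℂ} {lL V lR : ℂ}
    (hp : Pack h P lL V lR) (hb : BdKK β r θ h A) (hA : 0 ≤ A) (y0 : ℂ) {γ : ℝ} (hc : 0 < Real.cos γ) (hs : Real.sin γ < 0)
    (hint : IntegrableOn (fun t : ℝ => h (y0 + t * cexp (γ * I))) (Iic 0)) :
    cexp (γ * I) * ∫ t in Iic (0:ℝ), h (y0 + t * cexp (γ * I)) = P y0 - lL := by
  have hlimit := hp.tendsto_left hβ hb hA y0 hc hs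
  have hI := intervalIntegral_tendsto_integral_Iic (0:ℝ) hint tendsto_id
  have h2 := hI.const_mul (cexp (γ * I))
  have h3 := (tendsto_const_nhds (x := P y0)).sub hlimit
  refine tendsto_nhds_unique h2 (h3.congr fun s => ?_)
  have hder : ∀ t ∈ uIcc s 0, HasDerivAt (fun t : ℝ => P (y0 + t * cexp (γ * I)))
      (cexp (γ * I) * h (y0 + t * cexp (γ * I))) t := by
    intro t _
    have h4 : HasDerivAt (fun t : ℝ => y0 + (t : ℂ) * cexp (γ * I)) (1 * cexp (γ * I)) t :=
      ((Complex.ofRealCLM.hasDerivAt (x := t)).mul_const _).const_add _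
    have h5 := HasDerivAt.comp t (hp.prim (y0 + (t : ℂ) * cexp (γ * I))) h4
    refine h5.congr_deriv ?_
    ring
  have h6 : IntervalIntegrable (fun t : ℝ => cexp (γ * I) * h (y0 + t * cexp (γ * I))) volume s 0 := by
    apply Continuous.intervalIntegrable
    have := hp.diff.continuous
    fun_prop
  have h7 := intervalIntegral.integral_eq_sub_of_hasDerivAt hder h6
  rw [intervalIntegral.integral_const_mul] at h7
  simp only [id]
  rw [h7]
  simp

/-- a segment in any direction -/
theorem Pack.segment {h P : ℂ → ℂ} {lL V lR : ℂ} (hp : Pack h P lL V lR) (y0 e : ℂ) (a b : ℝ) :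
    e * ∫ t in a..b, h (y0 + t * e) = P (y0 + b * e) - P (y0 + a * e) := by
  have hder : ∀ t ∈ uIcc a b, HasDerivAt (fun t : ℝ => P (y0 + t * e)) (e * h (y0 + t * e)) t := by
    intro t _
    have h4 : HasDerivAt (fun t : ℝ => y0 + (t : ℂ) * e) (1 * e) t :=
      ((Complex.ofRealCLM.hasDerivAt (x := t)).mul_const _).const_add _
    have h5 := HasDerivAt.comp t (hp.prim (y0 + (t : ℂ) * e)) h4
    refine h5.congr_deriv ?_
    ring
  have h6 : IntervalIntegrable (fun t : ℝ => e * h (y0 + t * e)) volume a b := by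
    apply Continuous.intervalIntegrable
    have := hp.diff.continuous
    fun_prop
  have h7 := intervalIntegral.integral_eq_sub_of_hasDerivAt hder h6
  rw [intervalIntegral.integral_const_mul] at h7
  exact h7



/-- a segment with an exponential bound -/
theorem Pack.seg_exp {h P : ℂ → ℂ} {lL V lR : ℂ} (hp : Pack h P lL V lR) (q e : ℂ) (he : ‖e‖ = 1) {l A B k : ℝ}
    (hl : 0 ≤ l) (hk : 0 < k) (hA : 0 ≤ A) (hB : 0 ≤ B)
    (hb : ∀ t : ℝ, 0 ≤ t → t ≤ l → ‖h (q + t * e)‖ ≤ (A + B * t) * Real.exp (-(k * t))) :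
    ‖P (q + l * e) - P q‖ ≤ A / k + B / k ^ 2 := by
  have h1 := hp.segment q e 0 l
  rw [Complex.ofReal_zero, zero_mul, add_zero] at h1
  rw [← h1, norm_mul, he, one_mul]
  have hder : ∀ t ∈ uIcc (0:ℝ) l, HasDerivAt (fun t : ℝ => -(A / k + B / k ^ 2 + B / k * t) * Real.exp (-(k * t)))
      ((A + B * t) * Real.exp (-(k * t))) t := by
    intro t _
    have h2 : HasDerivAt (fun t : ℝ => -(k * t)) (-(k * 1)) t := ((hasDerivAt_id t).const_mul k).fun_neg
    have h3 : HasDerivAt (fun t : ℝ => -(A / k + B / k ^ 2 + B / k * t)) (-(B / k * 1)) t :=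
      (((hasDerivAt_id t).const_mul (B / k)).const_add (A / k + B / k ^ 2)).fun_neg
    refine (h3.mul h2.exp).congr_deriv ?_
    field_simp
    ring
  have hcont : Continuous (fun t : ℝ => (A + B * t) * Real.exp (-(k * t))) := by fun_prop
  have h4 := intervalIntegral.integral_eq_sub_of_hasDerivAt hder (hcont.intervalIntegrable _ _)
  have h5 : ‖∫ t in (0:ℝ)..l, h (q + t * e)‖ ≤ ∫ t in (0:ℝ)..l, (A + B * t) * Real.exp (-(k * t)) := by
    refine intervalIntegral.norm_integral_le_of_norm_le hl ?_ (hcont.intervalIntegrable _ _)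
    exact Filter.Eventually.of_forall (fun t ht => hb t ht.1.le ht.2)
  refine h5.trans ?_
  rw [h4]
  have h6 : 0 ≤ (A / k + B / k ^ 2 + B / k * l) * Real.exp (-(k * l)) := by positivity
  rw [mul_zero, mul_zero, neg_zero, Real.exp_zero, mul_one, add_zero]
  linarith

/-- the left slanted ray with an exponential bound -/
theorem Pack.left_exp {β r θ A' : ℝ} (hβ : 0 < β) {h P : ℂ → ℂ} {lL V lR : ℂ}
    (hp : Pack h P lL V lR) (hbd : BdKK β r θ h A') (hA' : 0 ≤ A') (y0 : ℂ) {γ : ℝ} (hc : 0 < Real.cos γ)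
    (hs : Real.sin γ < 0) {A B k : ℝ} (hk : 0 < k) (hA : 0 ≤ A) (hB : 0 ≤ B)
    (hb : ∀ t : ℝ, 0 ≤ t → ‖h (y0 - t * cexp (γ * I))‖ ≤ (A + B * t) * Real.exp (-(k * t))) :
    ‖P y0 - lL‖ ≤ A / k + B / k ^ 2 := by
  have h1 := ((tendsto_const_nhds (x := P y0)).sub (hp.tendsto_left hβ hbd hA' y0 hc hs)).norm
  refine le_of_tendsto h1 ?_
  filter_upwards [eventually_le_atBot (0:ℝ)] with t ht
  have he : ‖-cexp (γ * I)‖ = 1 := by rw [norm_neg, Complex.norm_exp_ofReal_mul_I]
  have h2 := hp.seg_exp y0 (-cexp (γ * I)) he (l := -t) (by linarith) hk hA hB (fun s hs0 _ => by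
    have := hb s hs0
    rwa [show y0 + (s : ℂ) * -cexp (γ * I) = y0 - s * cexp (γ * I) by ring])
  rw [norm_sub_rev]
  rwa [show y0 + ((-t : ℝ) : ℂ) * -cexp (γ * I) = y0 + t * cexp (γ * I) by push_cast; ring] at h2

/-- the vertical leg into the valley with an exponential bound -/
theorem Pack.valley_exp {β r θ A' : ℝ} (hβ : 0 < β) (hr : 0 < r) {h P : ℂ → ℂ} {lL V lR : ℂ}
    (hp : Pack h P lL V lR) (hbd : BdKK β r θ h A') (hA' : 0 ≤ A') {S : ℝ} (hS1 : Real.pi / 2 ≤ S)
    (hS2 : S ≤ 3 * Real.pi / 2) (hθ : θ < min S Real.pi) (b : ℝ) {A B k : ℝ} (hk : 0 < k) (hA : 0 ≤ A) (hB : 0 ≤ B)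
    (hb : ∀ t : ℝ, 0 ≤ t → ‖h (S + (b - t : ℝ) * I)‖ ≤ (A + B * t) * Real.exp (-(k * t))) :
    ‖P (S + b * I) - V‖ ≤ A / k + B / k ^ 2 := by
  have h1 := ((tendsto_const_nhds (x := P (S + b * I))).sub (hp.tendsto_valley hβ hr hbd hA' hS1 hS2 hθ)).norm
  refine le_of_tendsto h1 ?_
  filter_upwards [eventually_le_atBot b] with t ht
  have he : ‖-I‖ = 1 := by rw [norm_neg, Complex.norm_I]
  have h2 := hp.seg_exp (S + b * I) (-I) he (l := b - t) (by linarith) hk hA hB (fun s hs0 _ => by
    have := hb s hs0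
    rwa [show (S : ℂ) + b * I + (s : ℂ) * -I = S + (b - s : ℝ) * I by push_cast; ring])
  rw [norm_sub_rev]
  rwa [show (S : ℂ) + b * I + ((b - t : ℝ) : ℂ) * -I = S + t * I by push_cast; ring] at h2

/-- the right horizontal ray (below the real axis) with an exponential bound -/
theorem Pack.right_exp {h P : ℂ → ℂ} {lL V lR : ℂ}
    (hp : Pack h P lL V lR) {Y : ℝ} (hY : Y < 0) (a : ℝ) {A B k : ℝ} (hk : 0 < k) (hA : 0 ≤ A) (hB : 0 ≤ B)
    (hb : ∀ t : ℝ, 0 ≤ t → ‖h ((a + t : ℝ) + Y * I)‖ ≤ (A + B * t) * Real.exp (-(k * t))) :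
    ‖lR - P (a + Y * I)‖ ≤ A / k + B / k ^ 2 := by
  have h0 : Tendsto (fun X : ℝ => P (X + Y * I)) atTop (𝓝 lR) := by
    have h1 := intervalIntegral_tendsto_integral_Ioi a (hp.right_int Y hY a) tendsto_id
    have h2 := (tendsto_const_nhds (x := P (a + Y * I))).add h1
    rw [hp.right Y hY a] at h2
    have e : P (a + Y * I) + (lR - P (a + Y * I)) = lR := by ring
    rw [e] at h2
    refine h2.congr fun X => ?_
    rw [prim_hor hp.diff hp.prim]
    simp
  have h1 := (h0.sub (tendsto_const_nhds (x := P (a + Y * I)))).norm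
  refine le_of_tendsto h1 ?_
  filter_upwards [eventually_ge_atTop a] with t ht
  have h2 := hp.seg_exp (a + Y * I) 1 norm_one (l := t - a) (by linarith) hk hA hB (fun s hs0 _ => by
    have := hb s hs0
    rwa [show (a : ℂ) + Y * I + (s : ℂ) * 1 = (a + s : ℝ) + Y * I by push_cast; ring])
  rwa [show (a : ℂ) + Y * I + ((t - a : ℝ) : ℂ) * 1 = t + Y * I by push_cast; ring] at h2

end Sok.W
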