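import Pool.Agent.Lib.MP_816dec_an.B2Defs
import Pool.Agent.Lib.MP_816dec_an.Legs

/-!
MP_816dec_an, b = 2, row B2-JL: the left saddle lemma.
-/

set_option autoImplicit false

open Complex Set Filter Topology MeasureTheory

namespace Sok.B2

open Sok Sok.W

/-! ### Taylor bounds -/

private theorem nonneg_of_deriv {f f' : ℝ → ℝ} {a x : ℝ} (hax : a ≤ x) (h : ∀ t, HasDerivAt f (f' t) t)
    (h0 : 0 ≤ f a) (h1 : ∀ t, a ≤ t → t ≤ x → 0 ≤ f' t) : 0 ≤ f x := by
  have hm : MonotoneOn f (Icc a x) := by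
    refine monotoneOn_of_deriv_nonneg (convex_Icc a x) (fun t _ => (h t).continuousAt.continuousWithinAt)
      (fun t _ => (h t).differentiableAt.differentiableWithinAt) fun t ht => ?_
    rw [interior_Icc] at ht
    rw [(h t).deriv]
    exact h1 t ht.1.le ht.2.le
  exact h0.trans (hm ⟨le_rfl, hax⟩ ⟨hax, le_rfl⟩ hax)

private theorem sin3 {x : ℝ} (hx : 0 ≤ x) : x - x ^ 3 / 6 ≤ Real.sin x := by
  rcases hx.eq_or_lt with h | h
  · rw [← h]; simp
  · exact (Real.sin_gt_sub_cube h).le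

private theorem cos4 {x : ℝ} (hx : 0 ≤ x) : Real.cos x ≤ 1 - x ^ 2 / 2 + x ^ 4 / 24 := by
  have h := nonneg_of_deriv (f := fun t => 1 - t ^ 2 / 2 + t ^ 4 / 24 - Real.cos t)
    (f' := fun t => -t + t ^ 3 / 6 + Real.sin t) hx ?_ (by simp) ?_
  · linarith
  · intro t
    have h1 := ((((hasDerivAt_pow 2 t).div_const 2).const_sub 1).add ((hasDerivAt_pow 4 t).div_const 24)).sub
      (Real.hasDerivAt_cos t)
    refine h1.congr_deriv ?_
    push_cast; ring
  · intro t ht _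
    have := sin3 ht
    linarith

private theorem sin5 {x : ℝ} (hx : 0 ≤ x) : Real.sin x ≤ x - x ^ 3 / 6 + x ^ 5 / 120 := by
  have h := nonneg_of_deriv (f := fun t => t - t ^ 3 / 6 + t ^ 5 / 120 - Real.sin t)
    (f' := fun t => 1 - t ^ 2 / 2 + t ^ 4 / 24 - Real.cos t) hx ?_ (by simp) ?_
  · linarith
  · intro t
    have h1 := (((hasDerivAt_id t).sub ((hasDerivAt_pow 3 t).div_const 6)).add ((hasDerivAt_pow 5 t).div_const 120)).sub
      (Real.hasDerivAt_sin t)
    refine h1.congr_deriv ?_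
    push_cast; ring
  · intro t ht _
    have := cos4 ht
    linarith

private theorem cos6 {x : ℝ} (hx : 0 ≤ x) : 1 - x ^ 2 / 2 + x ^ 4 / 24 - x ^ 6 / 720 ≤ Real.cos x := by
  have h := nonneg_of_deriv (f := fun t => Real.cos t - (1 - t ^ 2 / 2 + t ^ 4 / 24 - t ^ 6 / 720))
    (f' := fun t => t - t ^ 3 / 6 + t ^ 5 / 120 - Real.sin t) hx ?_ (by simp) ?_
  · linarith
  · intro t
    have h1 := (Real.hasDerivAt_cos t).sub (((((hasDerivAt_pow 2 t).div_const 2).const_sub 1).add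
      ((hasDerivAt_pow 4 t).div_const 24)).sub ((hasDerivAt_pow 6 t).div_const 720))
    refine h1.congr_deriv ?_
    push_cast; ring
  · intro t ht _
    have := sin5 ht
    linarith

private theorem sin7 {x : ℝ} (hx : 0 ≤ x) : x - x ^ 3 / 6 + x ^ 5 / 120 - x ^ 7 / 5040 ≤ Real.sin x := by
  have h := nonneg_of_deriv (f := fun t => Real.sin t - (t - t ^ 3 / 6 + t ^ 5 / 120 - t ^ 7 / 5040))
    (f' := fun t => Real.cos t - (1 - t ^ 2 / 2 + t ^ 4 / 24 - t ^ 6 / 720)) hx ?_ (by simp) ?_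
  · linarith
  · intro t
    have h1 := (Real.hasDerivAt_sin t).sub ((((hasDerivAt_id t).sub ((hasDerivAt_pow 3 t).div_const 6)).add
      ((hasDerivAt_pow 5 t).div_const 120)).sub ((hasDerivAt_pow 7 t).div_const 5040))
    refine h1.congr_deriv ?_
    push_cast; ring
  · intro t ht _
    have := cos6 ht
    linarith

private theorem cos8 {x : ℝ} (hx : 0 ≤ x) :
    Real.cos x ≤ 1 - x ^ 2 / 2 + x ^ 4 / 24 - x ^ 6 / 720 + x ^ 8 / 40320 := by
  have h := nonneg_of_deriv (f := fun t => 1 - t ^ 2 / 2 + t ^ 4 / 24 - t ^ 6 / 720 + t ^ 8 / 40320 - Real.cos t)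
    (f' := fun t => Real.sin t - (t - t ^ 3 / 6 + t ^ 5 / 120 - t ^ 7 / 5040)) hx ?_ (by simp) ?_
  · linarith
  · intro t
    have h1 := (((((hasDerivAt_pow 2 t).div_const 2).const_sub 1).add
      ((hasDerivAt_pow 4 t).div_const 24)).sub ((hasDerivAt_pow 6 t).div_const 720)).add
      ((hasDerivAt_pow 8 t).div_const 40320) |>.sub (Real.hasDerivAt_cos t)
    refine h1.congr_deriv ?_
    push_cast; ring
  · intro t ht _
    have := sin7 ht
    linarith

private theorem sin08a : (0.7173 : ℝ) ≤ Real.sin 0.8 := by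
  have h := sin7 (x := 0.8) (by norm_num)
  norm_num at h ⊢
  linarith

private theorem sin08b : Real.sin 0.8 ≤ (0.7174 : ℝ) := by
  have h := sin5 (x := 0.8) (by norm_num)
  norm_num at h ⊢
  linarith

private theorem cos08 : Real.cos 0.8 ≤ (0.6968 : ℝ) := by
  have h := cos8 (x := 0.8) (by norm_num)
  norm_num at h ⊢
  linarith

/-! ### real inequalities for the exponent -/

private theorem one_sub_cos {t : ℝ} (h1 : 0.8 ≤ t) (h2 : t ≤ Real.pi) :
    0.3032 + 0.7 * (t - 0.8) ≤ 1 - Real.cos t := by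
  have hpi := Real.pi_gt_d4
  have hpi' := Real.pi_lt_d4
  rcases le_total t (Real.pi - 0.8) with h | h
  · have h3 := nonneg_of_deriv (f := fun t => 1 - Real.cos t - (0.3032 + 0.7 * (t - 0.8)))
      (f' := fun t => Real.sin t - 0.7) h1 ?_ ?_ ?_
    · linarith
    · intro s
      have h4 := ((Real.hasDerivAt_cos s).const_sub 1).sub
        ((((hasDerivAt_id s).sub_const 0.8).const_mul 0.7).const_add 0.3032)
      refine h4.congr_deriv ?_
      ring
    · have := cos08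
      linarith
    · intro s hs1 hs2
      have hs3 := sin08a
      rcases le_total s (Real.pi / 2) with h5 | h5
      · have := Real.sin_le_sin_of_le_of_le_pi_div_two (x := 0.8) (y := s) (by linarith) h5 hs1
        linarith
      · have h6 : Real.sin 0.8 ≤ Real.sin (Real.pi - s) :=
          Real.sin_le_sin_of_le_of_le_pi_div_two (by linarith) (by linarith) (by linarith)
        rw [Real.sin_pi_sub] at h6
        linarith
  · have h3 : 1 - (Real.pi - t) ^ 2 / 2 ≤ Real.cos (Real.pi - t) := Real.one_sub_sq_div_two_le_cos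
    rw [Real.cos_pi_sub] at h3
    obtain ⟨u, hu⟩ : ∃ u, u = Real.pi - t := ⟨_, rfl⟩
    rw [← hu] at h3
    have hu0 : 0 ≤ u := by rw [hu]; linarith
    have hu1 : u ≤ 0.8 := by rw [hu]; linarith
    have ht : t = Real.pi - u := by rw [hu]; ring
    rw [ht] at h3 ⊢
    nlinarith

private theorem sin_ge_line {t : ℝ} (h1 : 0.8 ≤ t) (h2 : t ≤ Real.pi) :
    t - Real.sin t ≤ 0.0827 + 1.3064 * (t - 0.8) := by
  have hpi := Real.pi_gt_d4
  have hpi' := Real.pi_lt_d4
  have hpos : 0 < Real.pi - 0.8 := by linarith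
  have m1 : (0.8 : ℝ) ∈ Icc 0 Real.pi := ⟨by norm_num, by linarith⟩
  have m2 : Real.pi ∈ Icc 0 Real.pi := ⟨by linarith, le_rfl⟩
  have n1 : 0 ≤ (Real.pi - t) / (Real.pi - 0.8) := by apply div_nonneg <;> linarith
  have n2 : 0 ≤ (t - 0.8) / (Real.pi - 0.8) := by apply div_nonneg <;> linarith
  have n3 : (Real.pi - t) / (Real.pi - 0.8) + (t - 0.8) / (Real.pi - 0.8) = 1 := by
    rw [← add_div, div_eq_one_iff_eq hpos.ne']; ring
  have hc := (strictConcaveOn_sin_Icc.concaveOn).2 m1 m2 n1 n2 n3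
  simp only [smul_eq_mul, Real.sin_pi, mul_zero, add_zero] at hc
  have e : (Real.pi - t) / (Real.pi - 0.8) * 0.8 + (t - 0.8) / (Real.pi - 0.8) * Real.pi = t := by
    field_simp; ring
  rw [e] at hc
  have h3 : (Real.pi - t) / (Real.pi - 0.8) * 0.7173 ≤ Real.sin t :=
    (mul_le_mul_of_nonneg_left sin08a (by apply div_nonneg <;> linarith)).trans hc
  rw [div_mul_eq_mul_div, div_le_iff₀ hpos] at h3
  by_contra hcon
  push Not at hcon
  have h4 : Real.sin t < t - (0.0827 + 1.3064 * (t - 0.8)) := by linarith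
  have h5 : Real.sin t * (Real.pi - 0.8) < (t - (0.0827 + 1.3064 * (t - 0.8))) * (Real.pi - 0.8) :=
    mul_lt_mul_of_pos_right h4 hpos
  nlinarith

private theorem sub_sin_ge {t : ℝ} (h1 : 0.8 ≤ t) : 0.0826 ≤ t - Real.sin t := by
  have h3 := nonneg_of_deriv (f := fun t => t - Real.sin t - 0.0826)
      (f' := fun t => 1 - Real.cos t) h1 ?_ ?_ ?_
  · linarith
  · intro s
    have h4 := ((hasDerivAt_id s).sub (Real.hasDerivAt_sin s)).sub_const 0.0826
    refine h4.congr_deriv ?_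
    ring
  · have := sin08b
    linarith
  · intro s _ _
    have := Real.cos_le_one s
    linarith

private theorem gL1 {x w t : ℝ} (hx : 0 ≤ x) (hw : 0 ≤ w) (h1 : 0.8 ≤ t) (h2 : t ≤ Real.pi) :
    gre x (-w) (-t) 0 ≤ -((0.3032 * x - 0.0827 * w) + (0.7 * x - 1.3064 * w) * (t - 0.8)) := by
  have a1 := one_sub_cos h1 h2
  have a2 := sin_ge_line h1 h2
  have e : gre x (-w) (-t) 0 = -(x * (1 - Real.cos t)) + w * (t - Real.sin t) := by
    unfold gre
    rw [Real.cos_neg, Real.sin_neg, neg_zero, Real.exp_zero]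
    ring
  rw [e]
  have b1 := mul_le_mul_of_nonneg_left a1 hx
  have b2 := mul_le_mul_of_nonneg_left a2 hw
  nlinarith

private theorem gR1 {x w t : ℝ} (hx : 0 ≤ x) (hw : 0 ≤ w) (h1 : 0.8 ≤ t) (h2 : t ≤ Real.pi) :
    gre x (-w) t 0 ≤ -((0.3032 * x + 0.0826 * w) + (0.7 * x) * (t - 0.8)) := by
  have a1 := one_sub_cos h1 h2
  have a2 := sub_sin_ge h1
  have e : gre x (-w) t 0 = -(x * (1 - Real.cos t)) - w * (t - Real.sin t) := by
    unfold gre
    rw [neg_zero, Real.exp_zero]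
    ring
  rw [e]
  have b1 := mul_le_mul_of_nonneg_left a1 hx
  have b2 := mul_le_mul_of_nonneg_left a2 hw
  nlinarith

private theorem exp_neg_one_bds : (0.36787 : ℝ) ≤ Real.exp (-1) ∧ Real.exp (-1) ≤ 0.3679 := by
  have h1 := Real.exp_one_gt_d9
  have h2 := Real.exp_one_lt_d9
  have h3 : Real.exp (-1) * Real.exp 1 = 1 := by rw [← Real.exp_add]; norm_num
  have h4 := Real.exp_pos (-1)
  constructor <;> nlinarith

private theorem gL2 {x w Y : ℝ} (hx : 0 ≤ x) (hY : 0 ≤ Y) :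
    gre x (-w) (-Real.pi) Y ≤ -(1.7357 * x) + Real.pi * w + (1.3679 * x - Real.pi) * Y := by
  have e : gre x (-w) (-Real.pi) Y = -(Real.pi * Y) - x * Real.exp (-Y) - x + x * Y + w * Real.pi := by
    unfold gre
    rw [Real.cos_neg, Real.sin_neg, Real.cos_pi, Real.sin_pi]
    ring
  rw [e]
  obtain ⟨h1, h2⟩ := exp_neg_one_bds
  have h3 : Real.exp (-1) * (2 - Y) ≤ Real.exp (-Y) := by
    have h4 : Real.exp (-Y) = Real.exp (-1) * Real.exp (1 - Y) := by rw [← Real.exp_add]; congr 1; ring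
    rw [h4]
    have h5 := Real.add_one_le_exp (1 - Y)
    exact mul_le_mul_of_nonneg_left (by linarith) (Real.exp_pos _).le
  have h6 : 0.7357 - 0.3679 * Y ≤ Real.exp (-Y) := by
    have h7 : Real.exp (-1) * Y ≤ 0.3679 * Y := mul_le_mul_of_nonneg_right h2 hY
    nlinarith
  have h8 := mul_le_mul_of_nonneg_left h6 hx
  nlinarith

private theorem gL3a {x w s : ℝ} (hx : 0 ≤ x) (hw : 0 ≤ w) (h0 : 0 ≤ s) (h1 : s ≤ Real.pi / 2)
    (hy : Real.exp (-1 - w) * (0.6367 * x + w) ≤ 1) :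
    gre x (-w) (-Real.pi - s) (1 + w) ≤ -(Real.pi + Real.exp (-1 - w) * x - x * w) := by
  have hpi := Real.pi_gt_d4
  have e : gre x (-w) (-Real.pi - s) (1 + w) =
      -(Real.pi + Real.exp (-1 - w) * x - x * w) +
        (Real.exp (-1 - w) * (x * (1 - Real.cos s) + w * Real.sin s) - s) := by
    unfold gre
    have c1 : Real.cos (-Real.pi - s) = -Real.cos s := by
      rw [show -Real.pi - s = -(s + Real.pi) by ring, Real.cos_neg, Real.cos_add_pi]
    have c2 : Real.sin (-Real.pi - s) = Real.sin s := by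
      rw [show -Real.pi - s = -(s + Real.pi) by ring, Real.sin_neg, Real.sin_add_pi, neg_neg]
    rw [c1, c2, show -(1 + w) = -1 - w by ring]
    ring
  rw [e]
  have h2 : 1 - Real.cos s ≤ 0.6367 * s := by
    have h3 := Real.one_sub_mul_le_cos h0 h1
    have h4 : 2 / Real.pi * s ≤ 0.6367 * s := by
      apply mul_le_mul_of_nonneg_right _ h0
      rw [div_le_iff₀ (by linarith)]
      linarith
    linarith
  have h3 : Real.sin s ≤ s := Real.sin_le h0
  have h4 : x * (1 - Real.cos s) + w * Real.sin s ≤ (0.6367 * x + w) * s := by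
    have := mul_le_mul_of_nonneg_left h2 hx
    have := mul_le_mul_of_nonneg_left h3 hw
    linarith
  have h5 := mul_le_mul_of_nonneg_left h4 (Real.exp_pos (-1 - w)).le
  have h6 := mul_le_mul_of_nonneg_right hy h0
  linarith

private theorem lin_trig (x w t : ℝ) : x * Real.cos t + w * Real.sin t ≤ PP x w := by
  unfold PP
  apply Real.le_sqrt_of_sq_le
  have h := Real.sin_sq_add_cos_sq t
  nlinarith [sq_nonneg (x * Real.sin t - w * Real.cos t)]

private theorem gL3b {x w t : ℝ} :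
    gre x (-w) (-t) (1 + w) ≤ -(t - Real.exp (-1 - w) * PP x w - x * w) := by
  have e : gre x (-w) (-t) (1 + w) = -t + x * w + Real.exp (-1 - w) * (x * Real.cos (-t) + w * Real.sin (-t)) := by
    unfold gre
    rw [show -(1 + w) = -1 - w by ring]
    ring
  rw [e]
  have h1 := mul_le_mul_of_nonneg_left (lin_trig x w (-t)) (Real.exp_pos (-1 - w)).le
  linarith

private theorem gR2 {x w V : ℝ} (hx : 0 ≤ x) (hw : 0 ≤ w) (hV : 0 ≤ V) :
    gre x (-w) Real.pi (-V) ≤ -(2 * x + Real.pi * V) := by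
  have hpi := Real.pi_pos
  have e : gre x (-w) Real.pi (-V) = -(Real.pi * V) - x * Real.exp V - x - x * V - w * Real.pi := by
    unfold gre
    rw [Real.cos_pi, Real.sin_pi, neg_neg]
    ring
  rw [e]
  have h1 := Real.add_one_le_exp V
  have h2 : x * 1 ≤ x * Real.exp V := mul_le_mul_of_nonneg_left (by linarith) hx
  have h3 : 0 ≤ x * V := by positivity
  have h4 : 0 ≤ w * Real.pi := by positivity
  linarith

private theorem gR3a {x w X : ℝ} (hx : 0 ≤ x) (hw : 0 ≤ w) (h1 : Real.pi ≤ X) (h2 : X ≤ 3 * Real.pi / 2) :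
    gre x (-w) X (-1) ≤ -(X + 2 * x) := by
  have hpi := Real.pi_pos
  have e : gre x (-w) X (-1) = -(X + 2 * x) - w * X + Real.exp 1 * (x * Real.cos X + w * Real.sin X) := by
    unfold gre
    rw [neg_neg]
    ring
  rw [e]
  have c1 : Real.cos X ≤ 0 := Real.cos_nonpos_of_pi_div_two_le_of_le (by linarith) (by linarith)
  have c2 : Real.sin X ≤ 0 := by
    have h3 : 0 ≤ Real.sin (X - Real.pi) := Real.sin_nonneg_of_nonneg_of_le_pi (by linarith) (by linarith)
    rw [Real.sin_sub_pi] at h3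
    linarith
  have h3 : x * Real.cos X + w * Real.sin X ≤ 0 := by
    have := mul_nonpos_of_nonneg_of_nonpos hx c1
    have := mul_nonpos_of_nonneg_of_nonpos hw c2
    linarith
  have h4 := mul_nonpos_of_nonneg_of_nonpos (Real.exp_pos 1).le h3
  have h5 : 0 ≤ w * X := mul_nonneg hw (by linarith)
  linarith

private theorem gR3b {x w X : ℝ} :
    gre x (-w) X (-1) ≤ -(X * (1 + w) - 2.7183 * PP x w + 2 * x) := by
  have e : gre x (-w) X (-1) = -(X * (1 + w) + 2 * x) + Real.exp 1 * (x * Real.cos X + w * Real.sin X) := by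
    unfold gre
    rw [neg_neg]
    ring
  rw [e]
  have h1 := mul_le_mul_of_nonneg_left (lin_trig x w X) (Real.exp_pos 1).le
  have h2 : Real.exp 1 * PP x w ≤ 2.7183 * PP x w :=
    mul_le_mul_of_nonneg_right (by have := Real.exp_one_lt_d9; linarith) (Real.sqrt_nonneg _)
  linarith

/-! ### the saddle -/

/-- points relative to the saddle -/
private noncomputable def pt (a b X Y : ℝ) : ℂ := ((a + X : ℝ) : ℂ) + ((b + Y : ℝ) : ℂ) * I

private theorem norm_KK_pt {β r θ x y : ℝ} (hβ : 0 < β) (h : Sad β r θ x y) (X Y : ℝ) :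
    ‖KK β r θ (pt (θ + x) y X Y)‖ = Ex β x y * Real.exp (gre x y X Y / β) := by
  unfold pt Ex
  rw [norm_KK, ← Real.exp_add]
  congr 1
  have h1 := h.hx
  have h2 := h.hy
  have e : β * (r * Real.exp (-(y + Y)) * Real.cos (θ + x + X)) =
      Real.exp (-Y) * (x * Real.cos X - y * Real.sin X) := by
    rw [Real.cos_add (θ + x) X, show -(y + Y) = -y + -Y by ring, Real.exp_add]
    obtain ⟨c, hc⟩ : ∃ c, c = Real.cos (θ + x) := ⟨_, rfl⟩
    obtain ⟨s, hs⟩ : ∃ s, s = Real.sin (θ + x) := ⟨_, rfl⟩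
    rw [← hc] at h1 ⊢
    rw [← hs] at h2 ⊢
    linear_combination (-Real.exp (-Y) * Real.cos X) * h1 + Real.exp (-Y) * Real.sin X * h2
  have e2 : r * Real.exp (-(y + Y)) * Real.cos (θ + x + X) =
      Real.exp (-Y) * (x * Real.cos X - y * Real.sin X) / β := by
    rw [eq_div_iff hβ.ne', ← e]; ring
  rw [e2, ← add_div, ← add_div]
  congr 1
  unfold gre
  ring

private theorem sad_eq {β r θ x y : ℝ} (h : Sad β r θ x y) :
    (x : ℂ) + y * I = β * (r * cexp (((θ + β / 2 : ℝ) : ℂ) * I) * cexp (-(I * β / 2)) *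
      cexp (I * ((x : ℂ) + y * I))) := by
  have e1 : (r : ℂ) * cexp (((θ + β / 2 : ℝ) : ℂ) * I) * cexp (-(I * β / 2)) * cexp (I * ((x : ℂ) + y * I)) =
      ((r * Real.exp (-y) : ℝ) : ℂ) * cexp (((θ + x : ℝ) : ℂ) * I) := by
    rw [mul_assoc, mul_assoc, ← Complex.exp_add, ← Complex.exp_add, Complex.ofReal_mul, Complex.ofReal_exp,
      mul_assoc, ← Complex.exp_add]
    congr 2
    push_cast
    linear_combination (y : ℂ) * Complex.I_sq
  rw [e1, Complex.exp_mul_I, ← Complex.ofReal_cos, ← Complex.ofReal_sin]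
  have h1 := h.hx
  have h2 := h.hy
  obtain ⟨c, hc⟩ : ∃ c, c = Real.cos (θ + x) := ⟨_, rfl⟩
  obtain ⟨s, hs⟩ : ∃ s, s = Real.sin (θ + x) := ⟨_, rfl⟩
  rw [← hc] at h1 ⊢
  rw [← hs] at h2 ⊢
  have h1' : (x : ℂ) = β * r * Real.exp (-y) * c := by exact_mod_cast h1
  have h2' : (y : ℂ) = β * r * Real.exp (-y) * s := by exact_mod_cast h2
  rw [Complex.ofReal_mul]
  linear_combination h1' + I * h2'

private theorem KK_sad {β r θ x y : ℝ} (hβ : 0 < β) (h : Sad β r θ x y) (t : ℝ) :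
    KK β r θ (pt (θ + x) y 0 0 + t * 1) =
      KK β r θ (pt (θ + x) y 0 0) * cexp (Psi ((x : ℂ) + y * I) (t * cexp ((0 : ℝ) * I)) / β) := by
  have h1 := GG_saddle hβ.ne' (sad_eq h) (t * cexp ((0 : ℝ) * I))
  rw [GG_eq_KK, GG_eq_KK] at h1
  have e1 : (x : ℂ) + y * I + t * cexp ((0 : ℝ) * I) + θ = pt (θ + x) y 0 0 + t * 1 := by
    unfold pt
    rw [Complex.ofReal_zero, zero_mul, Complex.exp_zero]
    push_cast
    ring
  have e2 : (x : ℂ) + y * I + θ = pt (θ + x) y 0 0 := by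
    unfold pt
    push_cast
    ring
  rw [e1, e2] at h1
  exact h1

private theorem norm_sq2 (a : ℂ) : ‖a ^ (1 / 2 : ℂ)‖ = Real.sqrt ‖a‖ := by
  have : (1 / 2 : ℂ) = ((1 / 2 : ℝ) : ℂ) := by push_cast; ring
  rw [this, Complex.norm_cpow_real, Real.sqrt_eq_rpow]

/-- central part: value and first moment -/
private theorem central {β x w : ℝ} (hβ : 0 < β) (hx : 0 < x) (hw0 : 0 ≤ w) (hk : 0 < 0.7 * x - 1.3064 * w) :
    A0 β x (-w) - cenE (x / β) (PP x w / β) (cL x w) (1 / 6) (1 / 24) ≤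
      ‖∫ t in (-(4 / 5 : ℝ))..(4 / 5), cexp (Psi ((x : ℂ) + (-w : ℝ) * I) (t * cexp ((0 : ℝ) * I)) / β)‖ ∧
    ‖∫ t in (-(4 / 5 : ℝ))..(4 / 5), (t : ℂ) * cexp (Psi ((x : ℂ) + (-w : ℝ) * I) (t * cexp ((0 : ℝ) * I)) / β)‖ ≤
      cenF (x / β) (PP x w / β) (cL x w) (1 / 6) (1 / 24) := by
  obtain ⟨Λ, hΛ⟩ : ∃ Λ : ℂ, Λ = (I + ((x : ℂ) + (-w : ℝ) * I)) / β * cexp (2 * ((0 : ℝ) : ℂ) * I) := ⟨_, rfl⟩
  have hΛ' : Λ = (((x / β : ℝ)) : ℂ) + (((1 - w) / β : ℝ) : ℂ) * I := by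
    rw [hΛ, Complex.ofReal_zero, mul_zero, zero_mul, Complex.exp_zero]
    push_cast
    ring
  have hre' : Λ.re = x / β := by rw [hΛ']; simp
  have ha : 0 < Λ.re := by rw [hre']; positivity
  have hwx : w / x ≤ 0.536 := by
    rw [div_le_iff₀ hx]
    linarith
  have hwx0 : 0 ≤ w / x := by positivity
  have hc : 0 < cL x w := by unfold cL; linarith
  have hc1 : cL x w ≤ 1 := by unfold cL; linarith
  have hnorm : ‖(x : ℂ) + (-w : ℝ) * I‖ = PP x w := by
    rw [Complex.norm_add_mul_I]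
    unfold PP
    congr 1
    ring
  have hRe : ∀ t : ℝ, |t| ≤ 4 / 5 → (Rm ((x : ℂ) + (-w : ℝ) * I) β (t * cexp ((0 : ℝ) * I))).re ≤
      (1 - cL x w) * Λ.re * t ^ 2 / 2 := by
    intro t ht
    rw [hre']
    have e1 : Rm ((x : ℂ) + (-w : ℝ) * I) β (t * cexp ((0 : ℝ) * I)) =
        (((x * (Real.cos t - 1 + t ^ 2 / 2) + w * (Real.sin t - t)) / β : ℝ) : ℂ) +
        (((x * (Real.sin t - t) - w * (Real.cos t - 1 + t ^ 2 / 2)) / β : ℝ) : ℂ) * I := by
      unfold Rm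
      rw [Complex.ofReal_zero, zero_mul, Complex.exp_zero, mul_one, mul_comm I (t : ℂ), Complex.exp_mul_I]
      push_cast
      linear_combination (-(w : ℂ) / β * (Complex.sin t - t)) * Complex.I_sq
    rw [e1, Complex.add_re, Complex.ofReal_re, Complex.re_ofReal_mul, Complex.I_re, mul_zero, add_zero]
    have hcos : Real.cos t - 1 + t ^ 2 / 2 ≤ t ^ 4 / 24 := by
      have h1 := cos4 (abs_nonneg t)
      rw [Real.cos_abs, sq_abs] at h1
      have h2 : |t| ^ 4 = t ^ 4 := by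
        rw [show (4 : ℕ) = 2 * 2 by norm_num, pow_mul, pow_mul, sq_abs]
      rw [h2] at h1
      linarith
    have hsin : Real.sin t - t ≤ |t| ^ 3 / 6 := by
      rcases le_total 0 t with h | h
      · have h1 := Real.sin_le h
        have : 0 ≤ |t| ^ 3 := by positivity
        linarith
      · have h1 := sin3 (x := -t) (by linarith)
        rw [Real.sin_neg] at h1
        rw [abs_of_nonpos h]
        linarith
    have ht2 : t ^ 4 ≤ 16 / 25 * t ^ 2 := by
      have h1 : t ^ 2 ≤ (4 / 5) ^ 2 := sq_le_sq' (by linarith [neg_abs_le t]) (by linarith [le_abs_self t])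
      nlinarith [sq_nonneg t]
    have ht3 : |t| ^ 3 ≤ 4 / 5 * t ^ 2 := by
      have h1 : |t| ^ 3 = |t| * t ^ 2 := by rw [pow_succ, sq_abs]; ring
      rw [h1]
      exact mul_le_mul_of_nonneg_right ht (sq_nonneg t)
    have h3 : x * (Real.cos t - 1 + t ^ 2 / 2) + w * (Real.sin t - t) ≤ (4 / 75 * x + 4 / 15 * w) * t ^ 2 / 2 := by
      have h4 := mul_le_mul_of_nonneg_left (hcos.trans (div_le_div_of_nonneg_right ht2 (by norm_num))) hx.le
      have h5 := mul_le_mul_of_nonneg_left (hsin.trans (div_le_div_of_nonneg_right ht3 (by norm_num))) hw0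
      linarith
    have h6 : (1 - cL x w) * (x / β) * t ^ 2 / 2 = ((4 / 75 * x + 4 / 15 * w) * t ^ 2 / 2) / β := by
      unfold cL
      field_simp
      ring
    rw [h6]
    exact div_le_div_of_nonneg_right h3 hβ.le
  constructor
  · have h := sad_value (x0 := (x : ℂ) + (-w : ℝ) * I) (γ := 0) (T := 4 / 5) (φ3 := 1 / 6) (φ4 := 1 / 24)
      (c := cL x w) hβ hΛ ha hc hc1 (by norm_num) (by norm_num) (segBd_horizontal _) hRe
    rw [hnorm, hre'] at h
    have h2 : ‖(2 * Real.pi / Λ) ^ (1 / 2 : ℂ)‖ = A0 β x (-w) := by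
      rw [norm_sq2]
      unfold A0
      congr 1
      have h3 : ‖Λ‖ = Real.sqrt ((1 + -w) ^ 2 + x ^ 2) / β := by
        rw [hΛ', Complex.norm_add_mul_I]
        have h4 : (x / β) ^ 2 + ((1 - w) / β) ^ 2 = ((1 + -w) ^ 2 + x ^ 2) / β ^ 2 := by
          field_simp; ring
        rw [h4, Real.sqrt_div' _ (sq_nonneg β), Real.sqrt_sq hβ.le]
      rw [norm_div, h3, norm_mul, Complex.norm_real, Real.norm_eq_abs, abs_of_pos Real.pi_pos]
      rw [Complex.norm_ofNat, div_div_eq_mul_div]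
    rw [← h2]
    unfold cenE
    have h5 := norm_sub_norm_le ((2 * Real.pi / Λ) ^ (1 / 2 : ℂ))
      (∫ t in (-(4 / 5 : ℝ))..(4 / 5), cexp (Psi ((x : ℂ) + (-w : ℝ) * I) (t * cexp ((0 : ℝ) * I)) / β))
    rw [norm_sub_rev] at h5
    linarith
  · have h := sad_first (x0 := (x : ℂ) + (-w : ℝ) * I) (γ := 0) (T := 4 / 5) (φ3 := 1 / 6) (φ4 := 1 / 24)
      (c := cL x w) hβ hΛ ha hc hc1 (by norm_num) (by norm_num) (segBd_horizontal _) hRe
    rw [hnorm, hre'] at h
    unfold cenF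
    exact h

/-! ### generic legs -/

private noncomputable def lg (β g k z B : ℝ) : ℝ := Real.exp (-g / β) * (z * (β / k) + B * (β / k) ^ 2)

private theorem seg_leg {h P : ℂ → ℂ} {lL V lR : ℂ} (hp : Pack h P lL V lR) {β E g k z B l : ℝ} (q e : ℂ)
    (he : ‖e‖ = 1) (hβ : 0 < β) (hE : 0 ≤ E) (hk : 0 < k) (hz : 0 ≤ z) (hB : 0 ≤ B) (hl : 0 ≤ l)
    (hb : ∀ t : ℝ, 0 ≤ t → t ≤ l → ‖h (q + t * e)‖ ≤ (z + B * t) * (E * Real.exp (-(g + k * t) / β))) :
    ‖P (q + l * e) - P q‖ ≤ E * lg β g k z B := by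
  have h1 := hp.seg_exp q e he (l := l) (A := z * (E * Real.exp (-g / β))) (B := B * (E * Real.exp (-g / β)))
    (k := k / β) hl (by positivity) (by positivity) (by positivity) ?_
  · refine h1.trans (le_of_eq ?_)
    unfold lg
    field_simp
  · intro t h0 ht
    refine (hb t h0 ht).trans (le_of_eq ?_)
    rw [show -(g + k * t) / β = -g / β + -(k / β * t) by field_simp; ring, Real.exp_add]
    ring

private theorem seg_const {h P : ℂ → ℂ} {lL V lR : ℂ} (hp : Pack h P lL V lR) {l C : ℝ} (q e : ℂ)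
    (he : ‖e‖ = 1) (hl : 0 ≤ l) (hb : ∀ t : ℝ, 0 ≤ t → t ≤ l → ‖h (q + t * e)‖ ≤ C) :
    ‖P (q + l * e) - P q‖ ≤ C * l := by
  have h1 := hp.segment q e 0 l
  rw [Complex.ofReal_zero, zero_mul, add_zero] at h1
  rw [← h1, norm_mul, he, one_mul]
  have h2 := intervalIntegral.norm_integral_le_of_norm_le_const (a := 0) (b := l)
    (f := fun t : ℝ => h (q + t * e)) (C := C) (fun t ht => by
      rw [uIoc_of_le hl] at ht
      exact hb t ht.1.le ht.2)
  rwa [sub_zero, abs_of_nonneg hl] at h2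

private theorem right_leg {h P : ℂ → ℂ} {lL V lR : ℂ} (hp : Pack h P lL V lR) {β E g k z B a Y : ℝ} (hY : Y < 0)
    (hβ : 0 < β) (hE : 0 ≤ E) (hk : 0 < k) (hz : 0 ≤ z) (hB : 0 ≤ B)
    (hb : ∀ t : ℝ, 0 ≤ t → ‖h ((a + t : ℝ) + Y * I)‖ ≤ (z + B * t) * (E * Real.exp (-(g + k * t) / β))) :
    ‖lR - P (a + Y * I)‖ ≤ E * lg β g k z B := by
  have h1 := hp.right_exp hY a (A := z * (E * Real.exp (-g / β))) (B := B * (E * Real.exp (-g / β)))
    (k := k / β) (by positivity) (by positivity) (by positivity) ?_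
  · refine h1.trans (le_of_eq ?_)
    unfold lg
    field_simp
  · intro t h0
    refine (hb t h0).trans (le_of_eq ?_)
    rw [show -(g + k * t) / β = -g / β + -(k / β * t) by field_simp; ring, Real.exp_add]
    ring

private theorem left_hor {h P : ℂ → ℂ} {lL V lR : ℂ} (hp : Pack h P lL V lR) {Y : ℝ} (hY : 0 < Y) (a : ℝ)
    {A B k : ℝ} (hk : 0 < k) (hA : 0 ≤ A) (hB : 0 ≤ B)
    (hb : ∀ t : ℝ, 0 ≤ t → ‖h ((a - t : ℝ) + Y * I)‖ ≤ (A + B * t) * Real.exp (-(k * t))) :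
    ‖P (a + Y * I) - lL‖ ≤ A / k + B / k ^ 2 := by
  have h0 : Tendsto (fun X : ℝ => P (X + Y * I)) atBot (𝓝 lL) := by
    have h1 := intervalIntegral_tendsto_integral_Iic a (hp.left_int Y hY a) tendsto_id
    have h2 := (tendsto_const_nhds (x := P (a + Y * I))).sub h1
    rw [hp.left Y hY a] at h2
    have e : P (a + Y * I) - (P (a + Y * I) - lL) = lL := by ring
    rw [e] at h2
    refine h2.congr fun X => ?_
    rw [prim_hor hp.diff hp.prim]
    simp
  have h1 := ((tendsto_const_nhds (x := P (a + Y * I))).sub h0).norm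
  refine le_of_tendsto h1 ?_
  filter_upwards [eventually_le_atBot a] with t ht
  have h2 := hp.seg_exp (a + Y * I) (-1) (by simp) (l := a - t) (by linarith) hk hA hB (fun s hs0 _ => by
    have := hb s hs0
    rwa [show (a : ℂ) + Y * I + (s : ℂ) * -1 = (a - s : ℝ) + Y * I by push_cast; ring])
  rw [norm_sub_rev]
  rwa [show (a : ℂ) + Y * I + ((a - t : ℝ) : ℂ) * -1 = t + Y * I by push_cast; ring] at h2

private theorem left_leg {h P : ℂ → ℂ} {lL V lR : ℂ} (hp : Pack h P lL V lR) {β E g k z B a Y : ℝ} (hY : 0 < Y)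
    (hβ : 0 < β) (hE : 0 ≤ E) (hk : 0 < k) (hz : 0 ≤ z) (hB : 0 ≤ B)
    (hb : ∀ t : ℝ, 0 ≤ t → ‖h ((a - t : ℝ) + Y * I)‖ ≤ (z + B * t) * (E * Real.exp (-(g + k * t) / β))) :
    ‖P (a + Y * I) - lL‖ ≤ E * lg β g k z B := by
  have h1 := left_hor hp hY a (A := z * (E * Real.exp (-g / β))) (B := B * (E * Real.exp (-g / β)))
    (k := k / β) (by positivity) (by positivity) (by positivity) ?_
  · refine h1.trans (le_of_eq ?_)
    unfold lg
    field_simp
  · intro t h0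
    refine (hb t h0).trans (le_of_eq ?_)
    rw [show -(g + k * t) / β = -g / β + -(k / β * t) by field_simp; ring, Real.exp_add]
    ring

private theorem bd {β E G v M C : ℝ} (hβ : 0 < β) (hE : 0 ≤ E) (hG : G ≤ -v) (hM0 : 0 ≤ M) (hM : M ≤ C) :
    M * (E * Real.exp (G / β)) ≤ C * (E * Real.exp (-v / β)) := by
  refine mul_le_mul hM (mul_le_mul_of_nonneg_left ?_ hE) (by positivity) (hM0.trans hM)
  exact Real.exp_le_exp.2 (div_le_div_of_nonneg_right hG hβ.le)

private theorem legs {β r θ x w : ℝ} (hβ : 0 < β) (hs : Sad β r θ x (-w)) (hx : 0 < x) (hw0 : 0 ≤ w)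
    (hk : 0 < 0.7 * x - 1.3064 * w) (hy : Real.exp (-1 - w) * (0.6367 * x + w) ≤ 1)
    {h P : ℂ → ℂ} {lL V lR : ℂ} (hp : Pack h P lL V lR) {m : ℝ → ℝ → ℝ}
    (hm : ∀ X Y : ℝ, ‖h (pt (θ + x) (-w) X Y)‖ ≤ m X Y * ‖KK β r θ (pt (θ + x) (-w) X Y)‖)
    (hm0 : ∀ X Y, 0 ≤ m X Y) {B z z2 z3 z4 z5 z6 z7 : ℝ} (hB : 0 ≤ B)
    (hz : 0 ≤ z) (hz2 : 0 ≤ z2) (hz3 : 0 ≤ z3) (hz4 : 0 ≤ z4) (hz5 : 0 ≤ z5) (hz6 : 0 ≤ z6) (hz7 : 0 ≤ z7)
    (m1 : ∀ t, 0 ≤ t → m (-0.8 - t) 0 ≤ z + B * t)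
    (m2 : ∀ Y, 0 ≤ Y → Y ≤ 1 + w → m (-Real.pi) Y ≤ z2)
    (m3 : ∀ s, 0 ≤ s → s ≤ Real.pi / 2 → m (-Real.pi - s) (1 + w) ≤ z3)
    (m4 : ∀ t, 0 ≤ t → m (-(3 * Real.pi / 2) - t) (1 + w) ≤ z4 + B * t)
    (m1' : ∀ t, 0 ≤ t → m (0.8 + t) 0 ≤ z + B * t)
    (m5 : ∀ V, 0 ≤ V → V ≤ 1 → m Real.pi (-V) ≤ z5)
    (m6 : ∀ t, 0 ≤ t → m (Real.pi + t) (-1) ≤ z6 + B * t)
    (m7 : ∀ t, 0 ≤ t → m (3 * Real.pi / 2 + t) (-1) ≤ z7 + B * t) :
    ‖(lR - lL) - (P (pt (θ + x) (-w) 0.8 0) - P (pt (θ + x) (-w) (-0.8) 0))‖ ≤ Ex β x (-w) * (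
      lg β (0.3032 * x - 0.0827 * w) (0.7 * x - 1.3064 * w) z B +
      z2 * ((1 + w) * (Real.exp (-(1.7357 * x - Real.pi * w) / β) +
        Real.exp (-(Real.pi + 0.3678 * x - 1.3679 * x * w) / β))) +
      z3 * (1.5708 * Real.exp (-(Real.pi + Real.exp (-1 - w) * x - x * w) / β)) +
      lg β (4.7123 - Real.exp (-1 - w) * PP x w - x * w) 1 z4 B +
      lg β (0.3032 * x + 0.0826 * w) (0.7 * x) z B +
      lg β (2 * x) Real.pi z5 0 +
      lg β (Real.pi + 2 * x) 1 z6 B +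
      lg β (4.7123 * (1 + w) - 2.7183 * PP x w + 2 * x) 1 z7 B) := by
  have hpi := Real.pi_gt_d6
  have hpi' := Real.pi_lt_d6
  obtain ⟨a, ha⟩ : ∃ a, a = θ + x := ⟨_, rfl⟩
  have hE : 0 ≤ Ex β x (-w) := by unfold Ex; positivity
  have hK : ∀ X Y : ℝ, ‖h (pt a (-w) X Y)‖ ≤ m X Y * (Ex β x (-w) * Real.exp (gre x (-w) X Y / β)) := by
    intro X Y
    rw [ha, ← norm_KK_pt hβ hs]
    exact hm X Y
  rw [← ha]
  -- L1
  have l1 := seg_leg hp (g := 0.3032 * x - 0.0827 * w) (k := 0.7 * x - 1.3064 * w) (z := z) (B := B)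
    (l := Real.pi - 0.8) (pt a (-w) (-0.8) 0) (-1) (by simp) hβ hE hk hz hB (by linarith) (fun t h0 h1 => by
      have e : pt a (-w) (-0.8) 0 + t * -1 = pt a (-w) (-0.8 - t) 0 := by unfold pt; push_cast; ring
      rw [e]
      refine (hK _ _).trans (bd hβ hE ?_ (hm0 _ _) (m1 t h0))
      have h2 := gL1 (x := x) (w := w) (t := 0.8 + t) hx.le hw0 (by linarith) (by linarith)
      rw [show -0.8 - t = -(0.8 + t) by ring]
      refine h2.trans (le_of_eq (by ring)))
  -- L2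
  have l2 := seg_const hp (l := 1 + w)
    (C := z2 * (Ex β x (-w) * (Real.exp (-(1.7357 * x - Real.pi * w) / β) +
        Real.exp (-(Real.pi + 0.3678 * x - 1.3679 * x * w) / β)))) (pt a (-w) (-Real.pi) 0) I Complex.norm_I
    (by linarith) (fun t h0 h1 => by
      have e : pt a (-w) (-Real.pi) 0 + t * I = pt a (-w) (-Real.pi) t := by unfold pt; push_cast; ring
      rw [e]
      refine (hK _ _).trans (mul_le_mul (m2 t h0 h1) (mul_le_mul_of_nonneg_left ?_ hE) (by positivity) hz2)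
      have h2 := gL2 (x := x) (w := w) (Y := t) hx.le h0
      have h3 : gre x (-w) (-Real.pi) t ≤ -(1.7357 * x - Real.pi * w) ∨
          gre x (-w) (-Real.pi) t ≤ -(Real.pi + 0.3678 * x - 1.3679 * x * w) := by
        rcases le_total (1.3679 * x) Real.pi with h | h
        · left
          have : (1.3679 * x - Real.pi) * t ≤ 0 := mul_nonpos_of_nonpos_of_nonneg (by linarith) h0
          linarith
        · right
          have : (1.3679 * x - Real.pi) * t ≤ (1.3679 * x - Real.pi) * (1 + w) :=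
            mul_le_mul_of_nonneg_left h1 (by linarith)
          linarith
      rcases h3 with h3 | h3
      · have h4 : Real.exp (gre x (-w) (-Real.pi) t / β) ≤ Real.exp (-(1.7357 * x - Real.pi * w) / β) :=
          Real.exp_le_exp.2 (div_le_div_of_nonneg_right h3 hβ.le)
        have := Real.exp_pos (-(Real.pi + 0.3678 * x - 1.3679 * x * w) / β)
        linarith
      · have h4 : Real.exp (gre x (-w) (-Real.pi) t / β) ≤
            Real.exp (-(Real.pi + 0.3678 * x - 1.3679 * x * w) / β) :=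
          Real.exp_le_exp.2 (div_le_div_of_nonneg_right h3 hβ.le)
        have := Real.exp_pos (-(1.7357 * x - Real.pi * w) / β)
        linarith)
  -- L3a
  have l3 := seg_const hp (l := Real.pi / 2)
    (C := z3 * (Ex β x (-w) * Real.exp (-(Real.pi + Real.exp (-1 - w) * x - x * w) / β)))
    (pt a (-w) (-Real.pi) (1 + w)) (-1) (by simp) (by linarith) (fun t h0 h1 => by
      have e : pt a (-w) (-Real.pi) (1 + w) + t * -1 = pt a (-w) (-Real.pi - t) (1 + w) := by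
        unfold pt; push_cast; ring
      rw [e]
      exact (hK _ _).trans (bd hβ hE (gL3a hx.le hw0 h0 h1 hy) (hm0 _ _) (m3 t h0 h1)))
  -- L3b
  have l4 := left_leg hp (g := 4.7123 - Real.exp (-1 - w) * PP x w - x * w) (k := 1) (z := z4) (B := B)
    (a := a - 3 * Real.pi / 2) (Y := 1) one_pos hβ hE one_pos hz4 hB (fun t h0 => by
      have e : ((a - 3 * Real.pi / 2 - t : ℝ) : ℂ) + (1 : ℝ) * I = pt a (-w) (-(3 * Real.pi / 2) - t) (1 + w) := by
        unfold pt; push_cast; ring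
      rw [e]
      refine (hK _ _).trans (bd hβ hE ?_ (hm0 _ _) (m4 t h0))
      have h2 := gL3b (x := x) (w := w) (t := 3 * Real.pi / 2 + t)
      rw [show -(3 * Real.pi / 2 + t) = -(3 * Real.pi / 2) - t by ring] at h2
      refine h2.trans ?_
      linarith)
  -- R1
  have l5 := seg_leg hp (g := 0.3032 * x + 0.0826 * w) (k := 0.7 * x) (z := z) (B := B)
    (l := Real.pi - 0.8) (pt a (-w) 0.8 0) 1 (by simp) hβ hE (by positivity) hz hB (by linarith) (fun t h0 h1 => by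
      have e : pt a (-w) 0.8 0 + t * 1 = pt a (-w) (0.8 + t) 0 := by unfold pt; push_cast; ring
      rw [e]
      refine (hK _ _).trans (bd hβ hE ?_ (hm0 _ _) (m1' t h0))
      have h2 := gR1 (x := x) (w := w) (t := 0.8 + t) hx.le hw0 (by linarith) (by linarith)
      refine h2.trans (le_of_eq (by ring)))
  -- R2
  have l6 := seg_leg hp (g := 2 * x) (k := Real.pi) (z := z5) (B := 0)
    (l := 1) (pt a (-w) Real.pi 0) (-I) (by rw [norm_neg, Complex.norm_I]) hβ hE Real.pi_pos hz5 le_rfl zero_le_one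
    (fun t h0 h1 => by
      have e : pt a (-w) Real.pi 0 + t * -I = pt a (-w) Real.pi (-t) := by unfold pt; push_cast; ring
      rw [e]
      refine (hK _ _).trans (bd hβ hE (gR2 hx.le hw0 h0) (hm0 _ _) ?_)
      rw [zero_mul, add_zero]
      exact m5 t h0 h1)
  -- R3a
  have l7 := seg_leg hp (g := Real.pi + 2 * x) (k := 1) (z := z6) (B := B)
    (l := Real.pi / 2) (pt a (-w) Real.pi (-1)) 1 (by simp) hβ hE one_pos hz6 hB (by linarith) (fun t h0 h1 => by
      have e : pt a (-w) Real.pi (-1) + t * 1 = pt a (-w) (Real.pi + t) (-1) := by unfold pt; push_cast; ring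
      rw [e]
      refine (hK _ _).trans (bd hβ hE ?_ (hm0 _ _) (m6 t h0))
      have h2 := gR3a (x := x) (w := w) (X := Real.pi + t) hx.le hw0 (by linarith) (by linarith)
      refine h2.trans (le_of_eq (by ring)))
  -- R3b
  have l8 := right_leg hp (g := 4.7123 * (1 + w) - 2.7183 * PP x w + 2 * x) (k := 1) (z := z7) (B := B)
    (a := a + 3 * Real.pi / 2) (Y := -w - 1) (by linarith) hβ hE one_pos hz7 hB (fun t h0 => by
      have e : ((a + 3 * Real.pi / 2 + t : ℝ) : ℂ) + (-w - 1 : ℝ) * I = pt a (-w) (3 * Real.pi / 2 + t) (-1) := by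
        unfold pt; push_cast; ring
      rw [e]
      refine (hK _ _).trans (bd hβ hE ?_ (hm0 _ _) (m7 t h0))
      have h2 := gR3b (x := x) (w := w) (X := 3 * Real.pi / 2 + t)
      refine h2.trans ?_
      have h3 : 0 ≤ w * t := mul_nonneg hw0 h0
      have h4 : 4.7123 * (1 + w) ≤ 3 * Real.pi / 2 * (1 + w) :=
        mul_le_mul_of_nonneg_right (by linarith) (by linarith)
      linarith)
  -- the points
  have p1 : pt a (-w) (-0.8) 0 + ((Real.pi - 0.8 : ℝ) : ℂ) * -1 = pt a (-w) (-Real.pi) 0 := by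
    unfold pt; push_cast; ring
  have p2 : pt a (-w) (-Real.pi) 0 + ((1 + w : ℝ) : ℂ) * I = pt a (-w) (-Real.pi) (1 + w) := by
    unfold pt; push_cast; ring
  have p3 : pt a (-w) (-Real.pi) (1 + w) + ((Real.pi / 2 : ℝ) : ℂ) * -1 =
      ((a - 3 * Real.pi / 2 : ℝ) : ℂ) + (1 : ℝ) * I := by
    unfold pt; push_cast; ring
  have p5 : pt a (-w) 0.8 0 + ((Real.pi - 0.8 : ℝ) : ℂ) * 1 = pt a (-w) Real.pi 0 := by
    unfold pt; push_cast; ring
  have p6 : pt a (-w) Real.pi 0 + ((1 : ℝ) : ℂ) * -I = pt a (-w) Real.pi (-1) := by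
    unfold pt; push_cast; ring
  have p7 : pt a (-w) Real.pi (-1) + ((Real.pi / 2 : ℝ) : ℂ) * 1 =
      ((a + 3 * Real.pi / 2 : ℝ) : ℂ) + (-w - 1 : ℝ) * I := by
    unfold pt; push_cast; ring
  rw [p1] at l1
  rw [p2] at l2
  rw [p3] at l3
  rw [p5] at l5
  rw [p6] at l6
  rw [p7] at l7
  have key : (lR - lL) - (P (pt a (-w) 0.8 0) - P (pt a (-w) (-0.8) 0)) =
      -(P (pt a (-w) (-Real.pi) 0) - P (pt a (-w) (-0.8) 0)) +
      -(P (pt a (-w) (-Real.pi) (1 + w)) - P (pt a (-w) (-Real.pi) 0)) +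
      -(P (((a - 3 * Real.pi / 2 : ℝ) : ℂ) + (1 : ℝ) * I) - P (pt a (-w) (-Real.pi) (1 + w))) +
      (P (((a - 3 * Real.pi / 2 : ℝ) : ℂ) + (1 : ℝ) * I) - lL) +
      (P (pt a (-w) Real.pi 0) - P (pt a (-w) 0.8 0)) +
      (P (pt a (-w) Real.pi (-1)) - P (pt a (-w) Real.pi 0)) +
      (P (((a + 3 * Real.pi / 2 : ℝ) : ℂ) + (-w - 1 : ℝ) * I) - P (pt a (-w) Real.pi (-1))) +
      (lR - P (((a + 3 * Real.pi / 2 : ℝ) : ℂ) + (-w - 1 : ℝ) * I)) := by ring
  rw [key]
  refine (norm_add_le _ _).trans ((add_le_add ((norm_add_le _ _).trans (add_le_add ((norm_add_le _ _).trans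
    (add_le_add ((norm_add_le _ _).trans (add_le_add ((norm_add_le _ _).trans (add_le_add ((norm_add_le _ _).trans
    (add_le_add ((norm_add_le _ _).trans (add_le_add (le_of_eq (norm_neg _)) (le_of_eq (norm_neg _))))
    (le_of_eq (norm_neg _)))) le_rfl)) le_rfl)) le_rfl)) le_rfl)) le_rfl).trans ?_)
  have l3' : z3 * (Ex β x (-w) * Real.exp (-(Real.pi + Real.exp (-1 - w) * x - x * w) / β)) * (Real.pi / 2) ≤
      Ex β x (-w) * (z3 * (1.5708 * Real.exp (-(Real.pi + Real.exp (-1 - w) * x - x * w) / β))) := by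
    have h1 : Real.pi / 2 ≤ 1.5708 := by linarith
    have h2 : 0 ≤ z3 * (Ex β x (-w) * Real.exp (-(Real.pi + Real.exp (-1 - w) * x - x * w) / β)) := by positivity
    refine (mul_le_mul_of_nonneg_left h1 h2).trans (le_of_eq (by ring))
  linarith

/-- **row B2-JL** -/
theorem JL : JLstat := by
  intro β r θ x w hβ hr hs hx05 hw0 hw1 hk hy
  have hx : 0 < x := by linarith
  have hpi := Real.pi_gt_d6
  have hpi' := Real.pi_lt_d6
  have hE : 0 ≤ Ex β x (-w) := by unfold Ex; positivity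
  have hnorm0 : ‖KK β r θ (pt (θ + x) (-w) 0 0)‖ = Ex β x (-w) := by
    rw [norm_KK_pt hβ hs]
    have : gre x (-w) 0 0 = 0 := by
      unfold gre; simp
    rw [this, zero_div, Real.exp_zero, mul_one]
  obtain ⟨hc0, hc1⟩ := central hβ hx hw0 hk
  constructor
  · -- value
    obtain ⟨P, hP⟩ := exists_prim (differentiable_KK β r θ)
    obtain ⟨lL, V, lR, hp, -, -⟩ := exists_pack hβ hr zero_le_one (differentiable_KK β r θ) (bd_KK β r θ) hP
    have hZ : Z0 β r θ = lR - lL := by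
      unfold Z0
      rw [hp.XL_eq, hp.YR_eq]
      ring
    have h1 := legs hβ hs hx hw0 hk hy hp (m := fun _ _ => 1) (fun X Y => by rw [one_mul])
      (fun _ _ => zero_le_one) (B := 0) (z := 1) (z2 := 1) (z3 := 1) (z4 := 1) (z5 := 1) (z6 := 1) (z7 := 1)
      le_rfl zero_le_one zero_le_one zero_le_one zero_le_one zero_le_one zero_le_one zero_le_one
      (fun t _ => by simp) (fun t _ _ => le_rfl) (fun t _ _ => le_rfl) (fun t _ => by simp) (fun t _ => by simp)
      (fun t _ _ => le_rfl) (fun t _ => by simp) (fun t _ => by simp)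
    have h2 : P (pt (θ + x) (-w) 0.8 0) - P (pt (θ + x) (-w) (-0.8) 0) = KK β r θ (pt (θ + x) (-w) 0 0) *
        ∫ t in (-(4 / 5 : ℝ))..(4 / 5), cexp (Psi ((x : ℂ) + (-w : ℝ) * I) (t * cexp ((0 : ℝ) * I)) / β) := by
      have h3 := hp.segment (pt (θ + x) (-w) 0 0) 1 (-(4 / 5)) (4 / 5)
      rw [one_mul] at h3
      have e1 : pt (θ + x) (-w) 0 0 + ((4 / 5 : ℝ) : ℂ) * 1 = pt (θ + x) (-w) 0.8 0 := by
        unfold pt; push_cast; ring
      have e2 : pt (θ + x) (-w) 0 0 + ((-(4 / 5) : ℝ) : ℂ) * 1 = pt (θ + x) (-w) (-0.8) 0 := by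
        unfold pt; push_cast; ring
      rw [e1, e2] at h3
      rw [← h3, ← intervalIntegral.integral_const_mul]
      exact intervalIntegral.integral_congr fun t _ => KK_sad hβ hs t
    rw [h2] at h1
    rw [hZ]
    have h4 : Ex β x (-w) * (A0 β x (-w) - cenE (x / β) (PP x w / β) (cL x w) (1 / 6) (1 / 24)) ≤
        ‖KK β r θ (pt (θ + x) (-w) 0 0) *
        ∫ t in (-(4 / 5 : ℝ))..(4 / 5), cexp (Psi ((x : ℂ) + (-w : ℝ) * I) (t * cexp ((0 : ℝ) * I)) / β)‖ := by
      rw [norm_mul, hnorm0]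
      exact mul_le_mul_of_nonneg_left hc0 hE
    have h5 := norm_sub_le (lR - lL) ((lR - lL) - KK β r θ (pt (θ + x) (-w) 0 0) *
        ∫ t in (-(4 / 5 : ℝ))..(4 / 5), cexp (Psi ((x : ℂ) + (-w : ℝ) * I) (t * cexp ((0 : ℝ) * I)) / β))
    rw [sub_sub_cancel] at h5
    have hS : lg β (0.3032 * x - 0.0827 * w) (0.7 * x - 1.3064 * w) 1 0 +
      1 * ((1 + w) * (Real.exp (-(1.7357 * x - Real.pi * w) / β) +
        Real.exp (-(Real.pi + 0.3678 * x - 1.3679 * x * w) / β))) +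
      1 * (1.5708 * Real.exp (-(Real.pi + Real.exp (-1 - w) * x - x * w) / β)) +
      lg β (4.7123 - Real.exp (-1 - w) * PP x w - x * w) 1 1 0 +
      lg β (0.3032 * x + 0.0826 * w) (0.7 * x) 1 0 +
      lg β (2 * x) Real.pi 1 0 +
      lg β (Real.pi + 2 * x) 1 1 0 +
      lg β (4.7123 * (1 + w) - 2.7183 * PP x w + 2 * x) 1 1 0 = tL β x w := by
      unfold tL legV lg
      ring
    rw [hS] at h1
    have h6 : Ex β x (-w) * (A0 β x (-w) - EL β x w) =
        Ex β x (-w) * (A0 β x (-w) - cenE (x / β) (PP x w / β) (cL x w) (1 / 6) (1 / 24)) -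
        Ex β x (-w) * tL β x w := by
      unfold EL
      ring
    rw [h6]
    linarith
  · -- first moment
    obtain ⟨σ, hσ⟩ : ∃ σ : ℂ, σ = (x : ℂ) + (-w : ℝ) * I := ⟨_, rfl⟩
    obtain ⟨P0, hP0⟩ := exists_prim (differentiable_KK β r θ)
    obtain ⟨P1, hP1⟩ := exists_prim (differentiable_K1 β r θ)
    obtain ⟨lL0, V0, lR0, hp0, tL0, tR0⟩ :=
      exists_pack hβ hr zero_le_one (differentiable_KK β r θ) (bd_KK β r θ) hP0
    obtain ⟨lL1, V1, lR1, hp1, tL1, tR1⟩ :=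
      exists_pack hβ hr (abs_nonneg θ) (differentiable_K1 β r θ) (bd_K1 β r θ) hP1
    obtain ⟨H, hH⟩ : ∃ H : ℂ → ℂ, H = fun v => K1 β r θ v - σ * KK β r θ v := ⟨_, rfl⟩
    have hHd : Differentiable ℂ H := by
      rw [hH]
      exact (differentiable_K1 β r θ).sub ((differentiable_KK β r θ).const_mul σ)
    have hPH : ∀ v, HasDerivAt (fun v => P1 v - σ * P0 v) (H v) v := by
      intro v
      rw [hH]
      exact (hP1 v).sub ((hP0 v).const_mul σ)
    have hHb : ∀ X Y : ℝ, ‖H (X + Y * I)‖ ≤ (|X| + |Y| + (|θ| + ‖σ‖)) * ‖KK β r θ (X + Y * I)‖ := by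
      intro X Y
      rw [hH]
      refine (norm_sub_le _ _).trans ?_
      rw [norm_mul]
      have := bd_K1 β r θ X Y
      linarith
    obtain ⟨lL, V, lR, hp, tL', tR'⟩ := exists_pack hβ hr (by positivity) hHd hHb hPH
    have eL : lL = lL1 - σ * lL0 :=
      tendsto_nhds_unique (tL' 1 one_pos) ((tL1 1 one_pos).sub ((tL0 1 one_pos).const_mul σ))
    have eR : lR = lR1 - σ * lR0 :=
      tendsto_nhds_unique (tR' (-1) (by norm_num)) ((tR1 (-1) (by norm_num)).sub ((tR0 (-1) (by norm_num)).const_mul σ))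
    have hZ : Z1 β r θ - ((x : ℂ) + (-w : ℝ) * I) * Z0 β r θ = lR - lL := by
      unfold Z1 Z0
      rw [hp1.XL_eq, hp1.YR_eq, hp0.XL_eq, hp0.YR_eq, eL, eR, hσ]
      ring
    have hHpt : ∀ X Y : ℝ, H (pt (θ + x) (-w) X Y) = ((X : ℂ) + Y * I) * KK β r θ (pt (θ + x) (-w) X Y) := by
      intro X Y
      rw [hH]
      have e : pt (θ + x) (-w) X Y - θ - σ = (X : ℂ) + Y * I := by
        unfold pt; rw [hσ]; push_cast; ring
      show K1 β r θ (pt (θ + x) (-w) X Y) - σ * KK β r θ (pt (θ + x) (-w) X Y) = _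
      rw [← e]
      unfold K1
      ring
    have hsq : ∀ {X Y z : ℝ}, 0 ≤ z → X ^ 2 + Y ^ 2 ≤ z ^ 2 → Real.sqrt (X ^ 2 + Y ^ 2) ≤ z := by
      intro X Y z hz h
      exact (Real.sqrt_le_sqrt h).trans (le_of_eq (Real.sqrt_sq hz))
    have hsq2 : ∀ {p q z : ℝ}, 0 ≤ p → p ≤ z → p ^ 2 + q ^ 2 ≤ z ^ 2 → ∀ {t : ℝ}, 0 ≤ t →
        (p + t) ^ 2 + q ^ 2 ≤ (z + 1 * t) ^ 2 := by
      intro p q z hp0 hpz h t ht
      nlinarith [mul_nonneg ht (sub_nonneg.2 hpz)]
    have h1 := legs hβ hs hx hw0 hk hy hp (m := fun X Y => Real.sqrt (X ^ 2 + Y ^ 2))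
      (fun X Y => by rw [hHpt, norm_mul, Complex.norm_add_mul_I])
      (fun _ _ => Real.sqrt_nonneg _) (B := 1) (z := 0.8) (z2 := 3.72) (z3 := 5.112) (z4 := 5.12) (z5 := 3.3)
      (z6 := 3.3) (z7 := 4.82)
      zero_le_one (by norm_num) (by norm_num) (by norm_num) (by norm_num) (by norm_num) (by norm_num) (by norm_num)
      (fun t h0 => hsq (by linarith) (le_of_eq (by ring)))
      (fun t h0 h1 => hsq (by norm_num) (by
        have : t ^ 2 ≤ 1.98 ^ 2 := pow_le_pow_left₀ h0 (by linarith) 2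
        nlinarith))
      (fun t h0 h1 => hsq (by norm_num) (by
        have h2 : (1 + w) ^ 2 ≤ 1.98 ^ 2 := pow_le_pow_left₀ (by linarith) (by linarith) 2
        have h3 : (Real.pi + t) ^ 2 ≤ 4.7124 ^ 2 := pow_le_pow_left₀ (by linarith) (by linarith) 2
        have h4 : (-Real.pi - t) ^ 2 = (Real.pi + t) ^ 2 := by ring
        rw [h4]
        norm_num at h2 h3 ⊢
        linarith))
      (fun t h0 => hsq (by linarith) (by
        have h2 : (1 + w) ^ 2 ≤ 1.98 ^ 2 := pow_le_pow_left₀ (by linarith) (by linarith) 2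
        have h3 : (3 * Real.pi / 2) ^ 2 ≤ 4.7124 ^ 2 := pow_le_pow_left₀ (by linarith) (by linarith) 2
        have h4 : (-(3 * Real.pi / 2) - t) ^ 2 = (3 * Real.pi / 2 + t) ^ 2 := by ring
        rw [h4]
        refine hsq2 (by linarith) (by linarith) ?_ h0
        norm_num at h2 h3 ⊢
        linarith))
      (fun t h0 => hsq (by linarith) (le_of_eq (by ring)))
      (fun t h0 h1 => hsq (by norm_num) (by
        have h2 : (-t) ^ 2 ≤ 1 := by nlinarith
        have h3 : Real.pi ^ 2 ≤ 3.1416 ^ 2 := pow_le_pow_left₀ (by linarith) (by linarith) 2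
        norm_num at h3 ⊢
        linarith))
      (fun t h0 => hsq (by linarith) (hsq2 (by linarith) (by linarith) (by
        have h3 : Real.pi ^ 2 ≤ 3.1416 ^ 2 := pow_le_pow_left₀ (by linarith) (by linarith) 2
        norm_num at h3 ⊢
        linarith) h0))
      (fun t h0 => hsq (by linarith) (hsq2 (by linarith) (by linarith) (by
        have h3 : (3 * Real.pi / 2) ^ 2 ≤ 4.7124 ^ 2 := pow_le_pow_left₀ (by linarith) (by linarith) 2
        norm_num at h3 ⊢
        linarith) h0))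
    have h2 : (fun v => P1 v - σ * P0 v) (pt (θ + x) (-w) 0.8 0) - (fun v => P1 v - σ * P0 v) (pt (θ + x) (-w) (-0.8) 0) =
        KK β r θ (pt (θ + x) (-w) 0 0) *
        ∫ t in (-(4 / 5 : ℝ))..(4 / 5), (t : ℂ) * cexp (Psi ((x : ℂ) + (-w : ℝ) * I) (t * cexp ((0 : ℝ) * I)) / β) := by
      have h3 := hp.segment (pt (θ + x) (-w) 0 0) 1 (-(4 / 5)) (4 / 5)
      rw [one_mul] at h3
      have e1 : pt (θ + x) (-w) 0 0 + ((4 / 5 : ℝ) : ℂ) * 1 = pt (θ + x) (-w) 0.8 0 := by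
        unfold pt; push_cast; ring
      have e2 : pt (θ + x) (-w) 0 0 + ((-(4 / 5) : ℝ) : ℂ) * 1 = pt (θ + x) (-w) (-0.8) 0 := by
        unfold pt; push_cast; ring
      rw [e1, e2] at h3
      rw [← h3, ← intervalIntegral.integral_const_mul]
      refine intervalIntegral.integral_congr fun t _ => ?_
      have e3 : pt (θ + x) (-w) 0 0 + (t : ℂ) * 1 = pt (θ + x) (-w) t 0 := by
        unfold pt; push_cast; ring
      have h4 := KK_sad hβ hs t
      show H (pt (θ + x) (-w) 0 0 + (t : ℂ) * 1) = _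
      rw [e3] at h4 ⊢
      rw [hHpt, h4]
      push_cast
      ring
    rw [h2] at h1
    rw [hZ]
    have h4 : ‖KK β r θ (pt (θ + x) (-w) 0 0) *
        ∫ t in (-(4 / 5 : ℝ))..(4 / 5), (t : ℂ) * cexp (Psi ((x : ℂ) + (-w : ℝ) * I) (t * cexp ((0 : ℝ) * I)) / β)‖ ≤
        Ex β x (-w) * cenF (x / β) (PP x w / β) (cL x w) (1 / 6) (1 / 24) := by
      rw [norm_mul, hnorm0]
      exact mul_le_mul_of_nonneg_left hc1 hE
    have h5 := norm_sub_norm_le (lR - lL) (KK β r θ (pt (θ + x) (-w) 0 0) *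
        ∫ t in (-(4 / 5 : ℝ))..(4 / 5), (t : ℂ) * cexp (Psi ((x : ℂ) + (-w : ℝ) * I) (t * cexp ((0 : ℝ) * I)) / β))
    have hS : cenF (x / β) (PP x w / β) (cL x w) (1 / 6) (1 / 24) +
      (lg β (0.3032 * x - 0.0827 * w) (0.7 * x - 1.3064 * w) 0.8 1 +
      3.72 * ((1 + w) * (Real.exp (-(1.7357 * x - Real.pi * w) / β) +
        Real.exp (-(Real.pi + 0.3678 * x - 1.3679 * x * w) / β))) +
      5.112 * (1.5708 * Real.exp (-(Real.pi + Real.exp (-1 - w) * x - x * w) / β)) +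
      lg β (4.7123 - Real.exp (-1 - w) * PP x w - x * w) 1 5.12 1 +
      lg β (0.3032 * x + 0.0826 * w) (0.7 * x) 0.8 1 +
      lg β (2 * x) Real.pi 3.3 0 +
      lg β (Real.pi + 2 * x) 1 3.3 1 +
      lg β (4.7123 * (1 + w) - 2.7183 * PP x w + 2 * x) 1 4.82 1) ≤ FL β x w := by
      have h6 : 5.112 * (1.5708 * Real.exp (-(Real.pi + Real.exp (-1 - w) * x - x * w) / β)) ≤
          8.03 * Real.exp (-(Real.pi + Real.exp (-1 - w) * x - x * w) / β) := by
        have := Real.exp_pos (-(Real.pi + Real.exp (-1 - w) * x - x * w) / β)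
        nlinarith
      unfold FL legV legM
      unfold lg
      linarith
    have h7 := mul_le_mul_of_nonneg_left hS hE
    linarith

end Sok.B2
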