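import Pool.Agent.Lib.MP_816dec_an.B2NumL
import Pool.Agent.Lib.MP_816dec_an.B2JL
import Pool.Agent.Lib.MP_816dec_an.B2FinR

/-!
MP_816dec_an, b = 2: the slope at the left saddle.
-/

set_option autoImplicit false

open Complex Set Filter Topology

namespace Sok.B2

open Sok Sok.W

theorem LS.x_ge {κ s x w v : ℝ} (h : LS κ s x w v) (hκ : 1 ≤ κ) : 0.9287 * (κ * (1 + w)) ≤ x := by
  have e1 := h.cos_ge hκ
  have e2 := Real.add_one_le_exp w
  have e3 := h.w0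
  rw [h.ex]
  calc 0.9287 * (κ * (1 + w)) = κ * (1 + w) * 0.9287 := by ring
    _ ≤ κ * Real.exp w * Real.cos v := by
        have : 1 + w ≤ Real.exp w := by linarith
        gcongr

theorem LS.x_le {κ s x w v : ℝ} (h : LS κ s x w v) (hκ : 1 ≤ κ) : x ≤ κ * Real.exp w := by
  rw [h.ex]
  have e2 := Real.exp_pos w
  have : 0 ≤ κ * Real.exp w := by positivity
  exact mul_le_of_le_one_right this (Real.cos_le_one v)

/-- the hypotheses of `JL` -/
theorem LS.jl {κ s x w v : ℝ} (h : LS κ s x w v) (h1 : 1 ≤ κ) (h2 : κ ≤ 3) :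
    0.5 ≤ x ∧ 0 < 0.7 * x - 1.3064 * w ∧ Real.exp (-1 - w) * (0.6367 * x + w) ≤ 1 := by
  have e1 := h.x_ge h1
  have e2 := h.x_le h1
  have hw0 := h.w0
  have hw1 := h.w1
  have e3 : 1 + w ≤ κ * (1 + w) := by nlinarith
  refine ⟨by linarith, by nlinarith, ?_⟩
  have e4 : Real.exp (-1 - w) = Real.exp (-1) * Real.exp (-w) := by rw [← Real.exp_add]; congr 1
  have e5 : Real.exp (-1) ≤ 0.3679 := en (by norm_num) (by norm_num)
  have e6 := mul_exp_neg_le w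
  have e7 : Real.exp w * Real.exp (-w) = 1 := by rw [← Real.exp_add]; simp
  have e8 := Real.exp_pos (-w)
  have e9 : x * Real.exp (-w) ≤ 3 := by
    calc x * Real.exp (-w) ≤ (κ * Real.exp w) * Real.exp (-w) := by gcongr
      _ = κ * (Real.exp w * Real.exp (-w)) := by ring
      _ = κ := by rw [e7, mul_one]
      _ ≤ 3 := h2
  rw [e4]
  have e10 : Real.exp (-w) * (0.6367 * x + w) ≤ 2.3 := by
    calc Real.exp (-w) * (0.6367 * x + w) = 0.6367 * (x * Real.exp (-w)) + w * Real.exp (-w) := by ring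
      _ ≤ 2.3 := by linarith
  have e11 : 0 ≤ Real.exp (-w) * (0.6367 * x + w) := by
    have : 0 ≤ x := by linarith
    positivity
  calc Real.exp (-1) * Real.exp (-w) * (0.6367 * x + w) = Real.exp (-1) * (Real.exp (-w) * (0.6367 * x + w)) := by ring
    _ ≤ 0.3679 * 2.3 := by gcongr
    _ ≤ 1 := by norm_num

/-- slope at the left saddle, `κ ≤ 2.2` -/
theorem slopeL1 {β r θ : ℝ} (hβ : 0 < β) (hr : 10 ≤ r) (h1 : 1 ≤ β * r) (h2 : β * r ≤ 2.2)
    (ha : 1.1915 ≤ -(θ + β * r)) (hb : -(θ + β * r) ≤ 1.8416) :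
    Z0 β r θ ≠ 0 ∧ (Z1 β r θ / Z0 β r θ).im ≤ -0.25 := by
  obtain ⟨x, w, ex, ew, hw0, hw1, hu0, hu1⟩ := exL h1 (by linarith) hb
  have hS : Sad β r θ x (-w) := ⟨by rw [neg_neg]; exact ex, by rw [neg_neg]; exact ew⟩
  have h := LS.of_sad hS hw0 hw1 hu0 hu1
  have hk := hbk hβ hr
  have hr0 : 0 < r := by linarith
  obtain ⟨j1, j2, j3⟩ := h.jl h1 (by linarith)
  have hJ := JL β r θ x w hβ hr0 hS j1 hw0 hw1 j2 j3
  rcases le_total (β * r) 1.6 with hc | hc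
  · have hy1 := h.w_ge48 h1 hc ha
    have hn := numLI h hβ hk h1 hc hb hy1
    obtain ⟨z, hi⟩ := im_bound hn.2.2.1 hJ.1 hJ.2 hn.1 hn.2.1 (by norm_num)
    refine ⟨z, ?_⟩
    have := (abs_le.1 hi).2
    norm_num at this ⊢
    linarith
  · have hy1 := h.w_ge39 h1 h2 ha
    have hn := numLII h hβ hk hc h2 hb hy1
    obtain ⟨z, hi⟩ := im_bound hn.2.2.1 hJ.1 hJ.2 hn.1 hn.2.1 (by norm_num)
    refine ⟨z, ?_⟩
    have := (abs_le.1 hi).2
    norm_num at this ⊢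
    linarith

/-- slope at the left saddle, `2.2 ≤ κ` -/
theorem slopeL2 {β r θ : ℝ} (hβ : 0 < β) (hr : 10 ≤ r) (h1 : 2.2 ≤ β * r) (h2 : β * r ≤ 3)
    (ha : 1.1915 ≤ -(θ + β * r)) (hb : -(θ + β * r) ≤ 1.8416) :
    Z0 β r θ ≠ 0 ∧ (Z1 β r θ / Z0 β r θ).im ≤ -0.14 := by
  obtain ⟨x, w, ex, ew, hw0, hw1, hu0, hu1⟩ := exL (by linarith : 1 ≤ β * r) (by linarith) hb
  have hS : Sad β r θ x (-w) := ⟨by rw [neg_neg]; exact ex, by rw [neg_neg]; exact ew⟩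
  have h := LS.of_sad hS hw0 hw1 hu0 hu1
  have hk := hbk hβ hr
  have hr0 : 0 < r := by linarith
  obtain ⟨j1, j2, j3⟩ := h.jl (by linarith) h2
  have hJ := JL β r θ x w hβ hr0 hS j1 hw0 hw1 j2 j3
  have hy1 := h.w_ge30 (by linarith) h2 ha
  have hn := numLIII h hβ hk h1 h2 hb hy1
  obtain ⟨z, hi⟩ := im_bound hn.2.2.1 hJ.1 hJ.2 hn.1 hn.2.1 (by norm_num)
  refine ⟨z, ?_⟩
  have := (abs_le.1 hi).2
  norm_num at this ⊢
  linarith

end Sok.B2
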