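import Pool.Agent.Lib.MP_816dec_an.B2Defs
import Pool.Agent.Lib.MP_816dec_an.Legs

/-!
MP_816dec_an, b = 2, row B2-YU: the outer bound for the part right of the valley `-π`.
-/

set_option autoImplicit false

open Complex Set Filter Topology MeasureTheory

namespace Sok.B2

open Sok Sok.W

/-! ### Taylor bounds -/

private theorem nonneg_of_deriv {f f' : ℝ → ℝ} {a x : ℝ} (hax : a ≤ x) (h : ∀ t, HasDerivAt f (f' t) t)
    (h0 : 0 ≤ f a) (h1 : ∀ t, a ≤ t → t ≤ x → 0 ≤ f' t) : 0 ≤ f x := by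
  have hm : MonotoneOn f (Icc a x) := by
    refine monotoneOn_of_deriv_nonneg (convex_Icc a x) (fun t _ => (h t).continuousAt.continuousWithinAt)
      (fun t _ => (h t).differentiableAt.differentiableWithinAt) fun t ht => ?_
    rw [interior_Icc] at ht
    rw [(h t).deriv]
    exact h1 t ht.1.le ht.2.le
  exact h0.trans (hm ⟨le_rfl, hax⟩ ⟨hax, le_rfl⟩ hax)

private theorem sin3 {x : ℝ} (hx : 0 ≤ x) : x - x ^ 3 / 6 ≤ Real.sin x := by
  rcases hx.eq_or_lt with h | h
  · rw [← h]; simp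
  · exact (Real.sin_gt_sub_cube h).le

private theorem cos4 {x : ℝ} (hx : 0 ≤ x) : Real.cos x ≤ 1 - x ^ 2 / 2 + x ^ 4 / 24 := by
  have h := nonneg_of_deriv (f := fun t => 1 - t ^ 2 / 2 + t ^ 4 / 24 - Real.cos t)
    (f' := fun t => -t + t ^ 3 / 6 + Real.sin t) hx ?_ (by simp) ?_
  · linarith
  · intro t
    have h1 := ((((hasDerivAt_pow 2 t).div_const 2).const_sub 1).add ((hasDerivAt_pow 4 t).div_const 24)).sub
      (Real.hasDerivAt_cos t)
    refine h1.congr_deriv ?_
    push_cast; ring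
  · intro t ht _
    have := sin3 ht
    linarith

private theorem sin5 {x : ℝ} (hx : 0 ≤ x) : Real.sin x ≤ x - x ^ 3 / 6 + x ^ 5 / 120 := by
  have h := nonneg_of_deriv (f := fun t => t - t ^ 3 / 6 + t ^ 5 / 120 - Real.sin t)
    (f' := fun t => 1 - t ^ 2 / 2 + t ^ 4 / 24 - Real.cos t) hx ?_ (by simp) ?_
  · linarith
  · intro t
    have h1 := (((hasDerivAt_id t).sub ((hasDerivAt_pow 3 t).div_const 6)).add ((hasDerivAt_pow 5 t).div_const 120)).sub
      (Real.hasDerivAt_sin t)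
    refine h1.congr_deriv ?_
    push_cast; ring
  · intro t ht _
    have := cos4 ht
    linarith

private theorem cos6 {x : ℝ} (hx : 0 ≤ x) : 1 - x ^ 2 / 2 + x ^ 4 / 24 - x ^ 6 / 720 ≤ Real.cos x := by
  have h := nonneg_of_deriv (f := fun t => Real.cos t - (1 - t ^ 2 / 2 + t ^ 4 / 24 - t ^ 6 / 720))
    (f' := fun t => t - t ^ 3 / 6 + t ^ 5 / 120 - Real.sin t) hx ?_ (by simp) ?_
  · linarith
  · intro t
    have h1 := (Real.hasDerivAt_cos t).sub (((((hasDerivAt_pow 2 t).div_const 2).const_sub 1).add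
      ((hasDerivAt_pow 4 t).div_const 24)).sub ((hasDerivAt_pow 6 t).div_const 720))
    refine h1.congr_deriv ?_
    push_cast; ring
  · intro t ht _
    have := sin5 ht
    linarith

private theorem sin7 {x : ℝ} (hx : 0 ≤ x) : x - x ^ 3 / 6 + x ^ 5 / 120 - x ^ 7 / 5040 ≤ Real.sin x := by
  have h := nonneg_of_deriv (f := fun t => Real.sin t - (t - t ^ 3 / 6 + t ^ 5 / 120 - t ^ 7 / 5040))
    (f' := fun t => Real.cos t - (1 - t ^ 2 / 2 + t ^ 4 / 24 - t ^ 6 / 720)) hx ?_ (by simp) ?_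
  · linarith
  · intro t
    have h1 := (Real.hasDerivAt_sin t).sub ((((hasDerivAt_id t).sub ((hasDerivAt_pow 3 t).div_const 6)).add
      ((hasDerivAt_pow 5 t).div_const 120)).sub ((hasDerivAt_pow 7 t).div_const 5040))
    refine h1.congr_deriv ?_
    push_cast; ring
  · intro t ht _
    have := cos6 ht
    linarith

private theorem cos8 {x : ℝ} (hx : 0 ≤ x) :
    Real.cos x ≤ 1 - x ^ 2 / 2 + x ^ 4 / 24 - x ^ 6 / 720 + x ^ 8 / 40320 := by
  have h := nonneg_of_deriv (f := fun t => 1 - t ^ 2 / 2 + t ^ 4 / 24 - t ^ 6 / 720 + t ^ 8 / 40320 - Real.cos t)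
    (f' := fun t => Real.sin t - (t - t ^ 3 / 6 + t ^ 5 / 120 - t ^ 7 / 5040)) hx ?_ (by simp) ?_
  · linarith
  · intro t
    have h1 := (((((hasDerivAt_pow 2 t).div_const 2).const_sub 1).add
      ((hasDerivAt_pow 4 t).div_const 24)).sub ((hasDerivAt_pow 6 t).div_const 720)).add
      ((hasDerivAt_pow 8 t).div_const 40320) |>.sub (Real.hasDerivAt_cos t)
    refine h1.congr_deriv ?_
    push_cast; ring
  · intro t ht _
    have := sin7 ht
    linarith

private theorem sin08a : (0.7173 : ℝ) ≤ Real.sin 0.8 := by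
  have h := sin7 (x := 0.8) (by norm_num)
  norm_num at h ⊢
  linarith

private theorem sin08b : Real.sin 0.8 ≤ (0.7174 : ℝ) := by
  have h := sin5 (x := 0.8) (by norm_num)
  norm_num at h ⊢
  linarith

private theorem cos08 : Real.cos 0.8 ≤ (0.6968 : ℝ) := by
  have h := cos8 (x := 0.8) (by norm_num)
  norm_num at h ⊢
  linarith

/-! ### real inequalities for the exponent -/

private theorem one_sub_cos {t : ℝ} (h1 : 0.8 ≤ t) (h2 : t ≤ Real.pi) :
    0.3032 + 0.7 * (t - 0.8) ≤ 1 - Real.cos t := by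
  have hpi := Real.pi_gt_d4
  have hpi' := Real.pi_lt_d4
  rcases le_total t (Real.pi - 0.8) with h | h
  · have h3 := nonneg_of_deriv (f := fun t => 1 - Real.cos t - (0.3032 + 0.7 * (t - 0.8)))
      (f' := fun t => Real.sin t - 0.7) h1 ?_ ?_ ?_
    · linarith
    · intro s
      have h4 := ((Real.hasDerivAt_cos s).const_sub 1).sub
        ((((hasDerivAt_id s).sub_const 0.8).const_mul 0.7).const_add 0.3032)
      refine h4.congr_deriv ?_
      ring
    · have := cos08
      linarith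
    · intro s hs1 hs2
      have hs3 := sin08a
      rcases le_total s (Real.pi / 2) with h5 | h5
      · have := Real.sin_le_sin_of_le_of_le_pi_div_two (x := 0.8) (y := s) (by linarith) h5 hs1
        linarith
      · have h6 : Real.sin 0.8 ≤ Real.sin (Real.pi - s) :=
          Real.sin_le_sin_of_le_of_le_pi_div_two (by linarith) (by linarith) (by linarith)
        rw [Real.sin_pi_sub] at h6
        linarith
  · have h3 : 1 - (Real.pi - t) ^ 2 / 2 ≤ Real.cos (Real.pi - t) := Real.one_sub_sq_div_two_le_cos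
    rw [Real.cos_pi_sub] at h3
    obtain ⟨u, hu⟩ : ∃ u, u = Real.pi - t := ⟨_, rfl⟩
    rw [← hu] at h3
    have hu0 : 0 ≤ u := by rw [hu]; linarith
    have hu1 : u ≤ 0.8 := by rw [hu]; linarith
    have ht : t = Real.pi - u := by rw [hu]; ring
    rw [ht] at h3 ⊢
    nlinarith

private theorem sin_ge_line {t : ℝ} (h1 : 0.8 ≤ t) (h2 : t ≤ Real.pi) :
    t - Real.sin t ≤ 0.0827 + 1.3064 * (t - 0.8) := by
  have hpi := Real.pi_gt_d4
  have hpi' := Real.pi_lt_d4
  have hpos : 0 < Real.pi - 0.8 := by linarith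
  have m1 : (0.8 : ℝ) ∈ Icc 0 Real.pi := ⟨by norm_num, by linarith⟩
  have m2 : Real.pi ∈ Icc 0 Real.pi := ⟨by linarith, le_rfl⟩
  have n1 : 0 ≤ (Real.pi - t) / (Real.pi - 0.8) := by apply div_nonneg <;> linarith
  have n2 : 0 ≤ (t - 0.8) / (Real.pi - 0.8) := by apply div_nonneg <;> linarith
  have n3 : (Real.pi - t) / (Real.pi - 0.8) + (t - 0.8) / (Real.pi - 0.8) = 1 := by
    rw [← add_div, div_eq_one_iff_eq hpos.ne']; ring
  have hc := (strictConcaveOn_sin_Icc.concaveOn).2 m1 m2 n1 n2 n3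
  simp only [smul_eq_mul, Real.sin_pi, mul_zero, add_zero] at hc
  have e : (Real.pi - t) / (Real.pi - 0.8) * 0.8 + (t - 0.8) / (Real.pi - 0.8) * Real.pi = t := by
    field_simp; ring
  rw [e] at hc
  have h3 : (Real.pi - t) / (Real.pi - 0.8) * 0.7173 ≤ Real.sin t :=
    (mul_le_mul_of_nonneg_left sin08a (by apply div_nonneg <;> linarith)).trans hc
  rw [div_mul_eq_mul_div, div_le_iff₀ hpos] at h3
  by_contra hcon
  push Not at hcon
  have h4 : Real.sin t < t - (0.0827 + 1.3064 * (t - 0.8)) := by linarith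
  have h5 : Real.sin t * (Real.pi - 0.8) < (t - (0.0827 + 1.3064 * (t - 0.8))) * (Real.pi - 0.8) :=
    mul_lt_mul_of_pos_right h4 hpos
  nlinarith

private theorem sub_sin_ge {t : ℝ} (h1 : 0.8 ≤ t) : 0.0826 ≤ t - Real.sin t := by
  have h3 := nonneg_of_deriv (f := fun t => t - Real.sin t - 0.0826)
      (f' := fun t => 1 - Real.cos t) h1 ?_ ?_ ?_
  · linarith
  · intro s
    have h4 := ((hasDerivAt_id s).sub (Real.hasDerivAt_sin s)).sub_const 0.0826
    refine h4.congr_deriv ?_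
    ring
  · have := sin08b
    linarith
  · intro s _ _
    have := Real.cos_le_one s
    linarith

private theorem gL1 {x w t : ℝ} (hx : 0 ≤ x) (hw : 0 ≤ w) (h1 : 0.8 ≤ t) (h2 : t ≤ Real.pi) :
    gre x (-w) (-t) 0 ≤ -((0.3032 * x - 0.0827 * w) + (0.7 * x - 1.3064 * w) * (t - 0.8)) := by
  have a1 := one_sub_cos h1 h2
  have a2 := sin_ge_line h1 h2
  have e : gre x (-w) (-t) 0 = -(x * (1 - Real.cos t)) + w * (t - Real.sin t) := by
    unfold gre
    rw [Real.cos_neg, Real.sin_neg, neg_zero, Real.exp_zero]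
    ring
  rw [e]
  have b1 := mul_le_mul_of_nonneg_left a1 hx
  have b2 := mul_le_mul_of_nonneg_left a2 hw
  nlinarith

private theorem gR1 {x w t : ℝ} (hx : 0 ≤ x) (hw : 0 ≤ w) (h1 : 0.8 ≤ t) (h2 : t ≤ Real.pi) :
    gre x (-w) t 0 ≤ -((0.3032 * x + 0.0826 * w) + (0.7 * x) * (t - 0.8)) := by
  have a1 := one_sub_cos h1 h2
  have a2 := sub_sin_ge h1
  have e : gre x (-w) t 0 = -(x * (1 - Real.cos t)) - w * (t - Real.sin t) := by
    unfold gre
    rw [neg_zero, Real.exp_zero]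
    ring
  rw [e]
  have b1 := mul_le_mul_of_nonneg_left a1 hx
  have b2 := mul_le_mul_of_nonneg_left a2 hw
  nlinarith

private theorem lin_trig (x w t : ℝ) : x * Real.cos t + w * Real.sin t ≤ PP x w := by
  unfold PP
  apply Real.le_sqrt_of_sq_le
  have h := Real.sin_sq_add_cos_sq t
  nlinarith [sq_nonneg (x * Real.sin t - w * Real.cos t)]

private theorem gR2 {x w V : ℝ} (hx : 0 ≤ x) (hw : 0 ≤ w) (hV : 0 ≤ V) :
    gre x (-w) Real.pi (-V) ≤ -(2 * x + Real.pi * V) := by
  have hpi := Real.pi_pos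
  have e : gre x (-w) Real.pi (-V) = -(Real.pi * V) - x * Real.exp V - x - x * V - w * Real.pi := by
    unfold gre
    rw [Real.cos_pi, Real.sin_pi, neg_neg]
    ring
  rw [e]
  have h1 := Real.add_one_le_exp V
  have h2 : x * 1 ≤ x * Real.exp V := mul_le_mul_of_nonneg_left (by linarith) hx
  have h3 : 0 ≤ x * V := by positivity
  have h4 : 0 ≤ w * Real.pi := by positivity
  linarith

private theorem gR3a {x w X : ℝ} (hx : 0 ≤ x) (hw : 0 ≤ w) (h1 : Real.pi ≤ X) (h2 : X ≤ 3 * Real.pi / 2) :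
    gre x (-w) X (-1) ≤ -(X + 2 * x) := by
  have hpi := Real.pi_pos
  have e : gre x (-w) X (-1) = -(X + 2 * x) - w * X + Real.exp 1 * (x * Real.cos X + w * Real.sin X) := by
    unfold gre
    rw [neg_neg]
    ring
  rw [e]
  have c1 : Real.cos X ≤ 0 := Real.cos_nonpos_of_pi_div_two_le_of_le (by linarith) (by linarith)
  have c2 : Real.sin X ≤ 0 := by
    have h3 : 0 ≤ Real.sin (X - Real.pi) := Real.sin_nonneg_of_nonneg_of_le_pi (by linarith) (by linarith)
    rw [Real.sin_sub_pi] at h3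
    linarith
  have h3 : x * Real.cos X + w * Real.sin X ≤ 0 := by
    have := mul_nonpos_of_nonneg_of_nonpos hx c1
    have := mul_nonpos_of_nonneg_of_nonpos hw c2
    linarith
  have h4 := mul_nonpos_of_nonneg_of_nonpos (Real.exp_pos 1).le h3
  have h5 : 0 ≤ w * X := mul_nonneg hw (by linarith)
  linarith

private theorem gR3b {x w X : ℝ} :
    gre x (-w) X (-1) ≤ -(X * (1 + w) - 2.7183 * PP x w + 2 * x) := by
  have e : gre x (-w) X (-1) = -(X * (1 + w) + 2 * x) + Real.exp 1 * (x * Real.cos X + w * Real.sin X) := by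
    unfold gre
    rw [neg_neg]
    ring
  rw [e]
  have h1 := mul_le_mul_of_nonneg_left (lin_trig x w X) (Real.exp_pos 1).le
  have h2 : Real.exp 1 * PP x w ≤ 2.7183 * PP x w :=
    mul_le_mul_of_nonneg_right (by have := Real.exp_one_lt_d9; linarith) (Real.sqrt_nonneg _)
  linarith

/-- points relative to the saddle -/
private noncomputable def pt (a b X Y : ℝ) : ℂ := ((a + X : ℝ) : ℂ) + ((b + Y : ℝ) : ℂ) * I

/-! ### generic legs -/

private noncomputable def lg (β g k z B : ℝ) : ℝ := Real.exp (-g / β) * (z * (β / k) + B * (β / k) ^ 2)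

private theorem seg_leg {h P : ℂ → ℂ} {lL V lR : ℂ} (hp : Pack h P lL V lR) {β E g k z B l : ℝ} (q e : ℂ)
    (he : ‖e‖ = 1) (hβ : 0 < β) (hE : 0 ≤ E) (hk : 0 < k) (hz : 0 ≤ z) (hB : 0 ≤ B) (hl : 0 ≤ l)
    (hb : ∀ t : ℝ, 0 ≤ t → t ≤ l → ‖h (q + t * e)‖ ≤ (z + B * t) * (E * Real.exp (-(g + k * t) / β))) :
    ‖P (q + l * e) - P q‖ ≤ E * lg β g k z B := by
  have h1 := hp.seg_exp q e he (l := l) (A := z * (E * Real.exp (-g / β))) (B := B * (E * Real.exp (-g / β)))
    (k := k / β) hl (by positivity) (by positivity) (by positivity) ?_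
  · refine h1.trans (le_of_eq ?_)
    unfold lg
    field_simp
  · intro t h0 ht
    refine (hb t h0 ht).trans (le_of_eq ?_)
    rw [show -(g + k * t) / β = -g / β + -(k / β * t) by field_simp; ring, Real.exp_add]
    ring

private theorem seg_const {h P : ℂ → ℂ} {lL V lR : ℂ} (hp : Pack h P lL V lR) {l C : ℝ} (q e : ℂ)
    (he : ‖e‖ = 1) (hl : 0 ≤ l) (hb : ∀ t : ℝ, 0 ≤ t → t ≤ l → ‖h (q + t * e)‖ ≤ C) :
    ‖P (q + l * e) - P q‖ ≤ C * l := by
  have h1 := hp.segment q e 0 l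
  rw [Complex.ofReal_zero, zero_mul, add_zero] at h1
  rw [← h1, norm_mul, he, one_mul]
  have h2 := intervalIntegral.norm_integral_le_of_norm_le_const (a := 0) (b := l)
    (f := fun t : ℝ => h (q + t * e)) (C := C) (fun t ht => by
      rw [uIoc_of_le hl] at ht
      exact hb t ht.1.le ht.2)
  rwa [sub_zero, abs_of_nonneg hl] at h2

private theorem right_leg {h P : ℂ → ℂ} {lL V lR : ℂ} (hp : Pack h P lL V lR) {β E g k z B a Y : ℝ} (hY : Y < 0)
    (hβ : 0 < β) (hE : 0 ≤ E) (hk : 0 < k) (hz : 0 ≤ z) (hB : 0 ≤ B)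
    (hb : ∀ t : ℝ, 0 ≤ t → ‖h ((a + t : ℝ) + Y * I)‖ ≤ (z + B * t) * (E * Real.exp (-(g + k * t) / β))) :
    ‖lR - P (a + Y * I)‖ ≤ E * lg β g k z B := by
  have h1 := hp.right_exp hY a (A := z * (E * Real.exp (-g / β))) (B := B * (E * Real.exp (-g / β)))
    (k := k / β) (by positivity) (by positivity) (by positivity) ?_
  · refine h1.trans (le_of_eq ?_)
    unfold lg
    field_simp
  · intro t h0
    refine (hb t h0).trans (le_of_eq ?_)
    rw [show -(g + k * t) / β = -g / β + -(k / β * t) by field_simp; ring, Real.exp_add]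
    ring

private theorem bd {β E G v M C : ℝ} (hβ : 0 < β) (hE : 0 ≤ E) (hG : G ≤ -v) (hM0 : 0 ≤ M) (hM : M ≤ C) :
    M * (E * Real.exp (G / β)) ≤ C * (E * Real.exp (-v / β)) := by
  refine mul_le_mul hM (mul_le_mul_of_nonneg_left ?_ hE) (by positivity) (hM0.trans hM)
  exact Real.exp_le_exp.2 (div_le_div_of_nonneg_right hG hβ.le)

private theorem gV {x w V : ℝ} (hx : 0 ≤ x) :
    gre x (-w) (-Real.pi) (-V) ≤ -((2 * x - Real.pi * w) + (2 * x - Real.pi) * V) := by
  have e : gre x (-w) (-Real.pi) (-V) = Real.pi * V - x * Real.exp V - x - x * V + w * Real.pi := by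
    unfold gre
    rw [Real.cos_neg, Real.sin_neg, Real.cos_pi, Real.sin_pi, neg_neg]
    ring
  rw [e]
  have h1 := Real.add_one_le_exp V
  have h2 := mul_le_mul_of_nonneg_left h1 hx
  linarith

private theorem gC {x w t : ℝ} (hx : 0 < x) (hw0 : 0 ≤ w) (ht : |t| ≤ 4 / 5) :
    gre x (-w) t 0 ≤ -(cL x w * x * t ^ 2 / 2) := by
  have hcos : Real.cos t - 1 + t ^ 2 / 2 ≤ t ^ 4 / 24 := by
    have h1 := cos4 (abs_nonneg t)
    rw [Real.cos_abs, sq_abs] at h1
    have h2 : |t| ^ 4 = t ^ 4 := by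
      rw [show (4 : ℕ) = 2 * 2 by norm_num, pow_mul, pow_mul, sq_abs]
    rw [h2] at h1
    linarith
  have hsin : Real.sin t - t ≤ |t| ^ 3 / 6 := by
    rcases le_total 0 t with h | h
    · have h1 := Real.sin_le h
      have : 0 ≤ |t| ^ 3 := by positivity
      linarith
    · have h1 := sin3 (x := -t) (by linarith)
      rw [Real.sin_neg] at h1
      rw [abs_of_nonpos h]
      linarith
  have ht2 : t ^ 4 ≤ 16 / 25 * t ^ 2 := by
    have h1 : t ^ 2 ≤ (4 / 5) ^ 2 := sq_le_sq' (by linarith [neg_abs_le t]) (by linarith [le_abs_self t])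
    nlinarith [sq_nonneg t]
  have ht3 : |t| ^ 3 ≤ 4 / 5 * t ^ 2 := by
    have h1 : |t| ^ 3 = |t| * t ^ 2 := by rw [pow_succ, sq_abs]; ring
    rw [h1]
    exact mul_le_mul_of_nonneg_right ht (sq_nonneg t)
  have e : gre x (-w) t 0 = x * (Real.cos t - 1) + w * (Real.sin t - t) := by
    unfold gre
    rw [neg_zero, Real.exp_zero]
    ring
  rw [e]
  have h4 := mul_le_mul_of_nonneg_left (hcos.trans (div_le_div_of_nonneg_right ht2 (by norm_num))) hx.le
  have h5 := mul_le_mul_of_nonneg_left (hsin.trans (div_le_div_of_nonneg_right ht3 (by norm_num))) hw0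
  have h6 : cL x w * x = x - (4 / 75 * x + 4 / 15 * w) := by
    unfold cL
    field_simp
  rw [h6]
  linarith

/-- the integrand at the shifted angle -/
private theorem norm_KK_sh {β r θ x y δ : ℝ} (hβ : 0 < β) (h : Sad β r θ x y) (X Y : ℝ) :
    ‖KK β r (θ - δ + 2 * Real.pi) (pt (θ + x + 2 * Real.pi) y X Y)‖ =
      Ex β x y * Real.exp (gre x y X Y / β) * Real.exp (δ * (y + Y) / β) := by
  unfold pt Ex
  rw [norm_KK, ← Real.exp_add, ← Real.exp_add]
  congr 1
  have h1 := h.hx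
  have h2 := h.hy
  have e : β * (r * Real.exp (-(y + Y)) * Real.cos (θ + x + 2 * Real.pi + X)) =
      Real.exp (-Y) * (x * Real.cos X - y * Real.sin X) := by
    rw [show θ + x + 2 * Real.pi + X = (θ + x) + X + 2 * Real.pi by ring, Real.cos_add_two_pi,
      Real.cos_add (θ + x) X, show -(y + Y) = -y + -Y by ring, Real.exp_add]
    obtain ⟨c, hc⟩ : ∃ c, c = Real.cos (θ + x) := ⟨_, rfl⟩
    obtain ⟨s, hs⟩ : ∃ s, s = Real.sin (θ + x) := ⟨_, rfl⟩
    rw [← hc] at h1 ⊢
    rw [← hs] at h2 ⊢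
    linear_combination (-Real.exp (-Y) * Real.cos X) * h1 + Real.exp (-Y) * Real.sin X * h2
  have e2 : r * Real.exp (-(y + Y)) * Real.cos (θ + x + 2 * Real.pi + X) =
      Real.exp (-Y) * (x * Real.cos X - y * Real.sin X) / β := by
    rw [eq_div_iff hβ.ne', ← e]; ring
  rw [e2, ← add_div, ← add_div, ← add_div]
  congr 1
  unfold gre
  ring

/-- `V` is the limit along every vertical line `π/2 < Re ≤ π` -/
private theorem tendsto_valley2 {β r θ A : ℝ} (hβ : 0 < β) (hr : 0 < r) {h P : ℂ → ℂ} {lL V lR : ℂ}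
    (hp : Pack h P lL V lR) (hb : BdKK β r θ h A) (hA : 0 ≤ A) {S : ℝ} (hS1 : Real.pi / 2 < S) (hS2 : S ≤ Real.pi) :
    Tendsto (fun s : ℝ => P (S + s * I)) atBot (𝓝 V) := by
  have hpi := Real.pi_pos
  -- limit at π
  have hπ : Tendsto (fun s : ℝ => P ((Real.pi : ℝ) + s * I)) atBot (𝓝 V) := by
    have hb2 := intervalIntegral_tendsto_integral_Iic (0 : ℝ) (hp.valley_int 0) tendsto_id
    have h1 : Tendsto (fun s : ℝ => P ((Real.pi : ℝ) + (0 : ℝ) * I) - I * ∫ u in s..(0:ℝ), h ((Real.pi : ℝ) + u * I)) atBot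
        (𝓝 (P ((Real.pi : ℝ) + (0 : ℝ) * I) - I * ∫ u in Iic (0:ℝ), h ((Real.pi : ℝ) + u * I))) :=
      tendsto_const_nhds.sub (hb2.const_mul I)
    rw [hp.valley 0] at h1
    have h2 : P ((Real.pi : ℝ) + (0 : ℝ) * I) - (P ((Real.pi : ℝ) + (0 : ℝ) * I) - V) = V := by ring
    rw [h2] at h1
    refine h1.congr fun s => ?_
    rw [prim_ver hp.diff hp.prim]
    ring
  obtain ⟨c, hc⟩ : ∃ c : ℝ, c = -Real.cos S := ⟨_, rfl⟩
  have hc0 : 0 < c := by
    rw [hc]
    have := Real.cos_neg_of_pi_div_two_lt_of_lt hS1 (by linarith)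
    linarith
  obtain ⟨K, hK⟩ : ∃ K : ℝ, K = (Real.pi + |θ|) / β := ⟨_, rfl⟩
  have hK0 : 0 ≤ K := by rw [hK]; positivity
  obtain ⟨D, hD⟩ : ∃ D : ℝ, D = (K + 1) / (r * c / 2) := ⟨_, rfl⟩
  have hdiff : Tendsto (fun s : ℝ => P (S + s * I) - P ((Real.pi : ℝ) + s * I)) atBot (𝓝 0) := by
    have hlim : Tendsto (fun s : ℝ => ((2 * Real.pi + |s| + A) * Real.exp s) * |S - Real.pi|) atBot (𝓝 0) := by
      have h1 : Tendsto (fun s : ℝ => Real.exp s) atBot (𝓝 0) := Real.tendsto_exp_atBot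
      have h2 : Tendsto (fun s : ℝ => |s| * Real.exp s) atBot (𝓝 0) := by
        have h3 : Tendsto (fun x : ℝ => x * Real.exp (-x)) atTop (𝓝 0) := by
          have := Real.tendsto_pow_mul_exp_neg_atTop_nhds_zero 1
          simpa using this
        have h5 := h3.comp tendsto_neg_atBot_atTop
        refine h5.congr' ?_
        filter_upwards [eventually_le_atBot (0:ℝ)] with s hs
        simp only [Function.comp, neg_neg]
        rw [abs_of_nonpos hs]
      have h6 := (((h1.const_mul (2 * Real.pi + A)).add h2).mul_const |S - Real.pi|)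
      simp only [mul_zero, zero_add, zero_mul] at h6
      refine h6.congr fun s => ?_
      ring
    refine squeeze_zero_norm' ?_ hlim
    filter_upwards [eventually_le_atBot (0:ℝ), eventually_le_atBot (-D)] with s hs hsD
    refine norm_hor_le hp.diff hp.prim (fun X hX => ?_)
    have hX1 : S ≤ X := by
      rw [uIoc, mem_Ioc, min_eq_right hS2] at hX
      exact hX.1.le
    have hX2 : X ≤ Real.pi := by
      rw [uIoc, mem_Ioc, max_eq_left hS2] at hX
      exact hX.2
    refine (hb X s).trans ?_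
    refine mul_le_mul ?_ ?_ (norm_nonneg _) (by positivity)
    · rw [abs_of_pos (by linarith : 0 < X)]; linarith
    · rw [norm_KK]
      apply Real.exp_le_exp.2
      have h1 : (X - θ) * s / β ≤ K * (-s) := by
        rw [hK, div_mul_eq_mul_div]
        apply div_le_div_of_nonneg_right _ hβ.le
        have h2 := le_abs_self θ
        have h3 : (X - θ) * s = (θ - X) * (-s) := by ring
        rw [h3]
        apply mul_le_mul_of_nonneg_right _ (by linarith)
        linarith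
      have h2 : Real.cos X ≤ -c := by
        rw [hc, neg_neg]
        exact Real.cos_le_cos_of_nonneg_of_le_pi (by linarith) hX2 hX1
      have h3 : s ^ 2 / 2 ≤ Real.exp (-s) := by
        have h4 := Real.quadratic_le_exp_of_nonneg (x := -s) (by linarith)
        nlinarith
      have h5 : r * Real.exp (-s) * Real.cos X ≤ r * (s ^ 2 / 2) * (-c) := by
        have h6 : r * Real.exp (-s) * Real.cos X ≤ r * Real.exp (-s) * (-c) :=
          mul_le_mul_of_nonneg_left h2 (by positivity)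
        have h7 : r * (s ^ 2 / 2) * c ≤ r * Real.exp (-s) * c :=
          mul_le_mul_of_nonneg_right (mul_le_mul_of_nonneg_left h3 hr.le) hc0.le
        linarith
      have h8 : K + 1 ≤ r * c / 2 * (-s) := by
        have h9 : D ≤ -s := by linarith
        rw [hD, div_le_iff₀ (by positivity)] at h9
        linarith
      have h10 : (K + 1) * (-s) ≤ r * c / 2 * (-s) * (-s) := mul_le_mul_of_nonneg_right h8 (by linarith)
      nlinarith
  refine (hdiff.add hπ).congr' ?_ |>.trans (by rw [zero_add])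
  exact Filter.Eventually.of_forall fun s => by simp

private theorem valley_leg {β r θ A' : ℝ} (hβ : 0 < β) (hr : 0 < r) {h P : ℂ → ℂ} {lL V lR : ℂ}
    (hp : Pack h P lL V lR) (hbd : BdKK β r θ h A') (hA' : 0 ≤ A') {S : ℝ} (hS1 : Real.pi / 2 < S)
    (hS2 : S ≤ Real.pi) (b : ℝ) {E g k z B : ℝ} (hE : 0 ≤ E) (hk : 0 < k) (hz : 0 ≤ z) (hB : 0 ≤ B)
    (hb : ∀ t : ℝ, 0 ≤ t → ‖h (S + (b - t : ℝ) * I)‖ ≤ (z + B * t) * (E * Real.exp (-(g + k * t) / β))) :
    ‖P (S + b * I) - V‖ ≤ E * lg β g k z B := by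
  have h1 := ((tendsto_const_nhds (x := P (S + b * I))).sub (tendsto_valley2 hβ hr hp hbd hA' hS1 hS2)).norm
  refine le_of_tendsto h1 ?_
  filter_upwards [eventually_le_atBot b] with t ht
  have h2 := seg_leg hp (S + b * I) (-I) (by rw [norm_neg, Complex.norm_I]) hβ hE hk hz hB (l := b - t)
    (g := g) (by linarith) (fun s hs0 _ => by
      have := hb s hs0
      rwa [show (S : ℂ) + b * I + (s : ℂ) * -I = S + (b - s : ℝ) * I by push_cast; ring])
  rw [norm_sub_rev]
  rwa [show (S : ℂ) + b * I + ((b - t : ℝ) : ℂ) * -I = S + t * I by push_cast; ring] at h2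

/-- **row B2-YU** -/
theorem YU : YUstat := by
  intro β r θ x w δ hβ hr hs hx16 hw0 hw1 hk hδ hθ1 hθ2
  have hx : 0 < x := by linarith
  have hpi := Real.pi_gt_d6
  have hpi' := Real.pi_lt_d6
  obtain ⟨a, ha⟩ : ∃ a, a = θ + x + 2 * Real.pi := ⟨_, rfl⟩
  obtain ⟨E, hEdef⟩ : ∃ E, E = Ex β x (-w) * Real.exp (-w * δ / β) := ⟨_, rfl⟩
  have hE : 0 ≤ E := by rw [hEdef]; unfold Ex; positivity
  obtain ⟨h, hh⟩ : ∃ h : ℂ → ℂ, h = KK β r (θ - δ + 2 * Real.pi) := ⟨_, rfl⟩
  obtain ⟨P, hP⟩ := exists_prim (differentiable_KK β r (θ - δ + 2 * Real.pi))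
  obtain ⟨lL, V, lR, hp, -, -⟩ := exists_pack hβ hr zero_le_one (differentiable_KK β r (θ - δ + 2 * Real.pi))
    (bd_KK β r (θ - δ + 2 * Real.pi)) hP
  rw [hp.YR_eq]
  have hK : ∀ X Y : ℝ, Y ≤ 0 → ‖KK β r (θ - δ + 2 * Real.pi) (pt a (-w) X Y)‖ ≤
      E * Real.exp (gre x (-w) X Y / β) := by
    intro X Y hY
    rw [ha, norm_KK_sh hβ hs, hEdef]
    have h1 : Real.exp (δ * (-w + Y) / β) ≤ Real.exp (-w * δ / β) := by
      apply Real.exp_le_exp.2
      apply div_le_div_of_nonneg_right _ hβ.le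
      nlinarith [mul_nonneg hδ (neg_nonneg.2 hY)]
    have h2 : 0 ≤ Ex β x (-w) * Real.exp (gre x (-w) X Y / β) := by unfold Ex; positivity
    calc _ ≤ Ex β x (-w) * Real.exp (gre x (-w) X Y / β) * Real.exp (-w * δ / β) := mul_le_mul_of_nonneg_left h1 h2
      _ = _ := by ring
  have hb1 : ∀ {X Y g k t : ℝ}, Y ≤ 0 → gre x (-w) X Y ≤ -(g + k * t) →
      ‖KK β r (θ - δ + 2 * Real.pi) (pt a (-w) X Y)‖ ≤ (1 + 0 * t) * (E * Real.exp (-(g + k * t) / β)) := by
    intro X Y g k t hY hg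
    rw [zero_mul, add_zero, one_mul]
    refine (hK X Y hY).trans (mul_le_mul_of_nonneg_left ?_ hE)
    exact Real.exp_le_exp.2 (div_le_div_of_nonneg_right hg hβ.le)
  -- V
  have l0 := valley_leg hβ hr hp (bd_KK β r (θ - δ + 2 * Real.pi)) zero_le_one (S := θ + x + Real.pi) (by linarith)
    (by linarith) (-w) (E := E) (g := 2 * x - Real.pi * w) (k := 2 * x - Real.pi) (z := 1) (B := 0) hE (by linarith)
    zero_le_one le_rfl (fun t h0 => by
      have e : ((θ + x + Real.pi : ℝ) : ℂ) + (-w - t : ℝ) * I = pt a (-w) (-Real.pi) (-t) := by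
        rw [ha]; unfold pt; push_cast; ring
      rw [e]
      exact hb1 (by linarith) (gV hx.le))
  -- L1
  have l1 := seg_leg hp (g := 0.3032 * x - 0.0827 * w) (k := 0.7 * x - 1.3064 * w) (z := 1) (B := 0) (E := E)
    (l := Real.pi - 0.8) (pt a (-w) (-0.8) 0) (-1) (by simp) hβ hE hk zero_le_one le_rfl (by linarith)
    (fun t h0 h1 => by
      have e : pt a (-w) (-0.8) 0 + t * -1 = pt a (-w) (-0.8 - t) 0 := by unfold pt; push_cast; ring
      rw [e]
      refine hb1 le_rfl ?_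
      have h2 := gL1 (x := x) (w := w) (t := 0.8 + t) hx.le hw0 (by linarith) (by linarith)
      rw [show -0.8 - t = -(0.8 + t) by ring]
      refine h2.trans (le_of_eq (by ring)))
  -- R1
  have l5 := seg_leg hp (g := 0.3032 * x + 0.0826 * w) (k := 0.7 * x) (z := 1) (B := 0) (E := E)
    (l := Real.pi - 0.8) (pt a (-w) 0.8 0) 1 (by simp) hβ hE (by positivity) zero_le_one le_rfl (by linarith)
    (fun t h0 h1 => by
      have e : pt a (-w) 0.8 0 + t * 1 = pt a (-w) (0.8 + t) 0 := by unfold pt; push_cast; ring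
      rw [e]
      refine hb1 le_rfl ?_
      have h2 := gR1 (x := x) (w := w) (t := 0.8 + t) hx.le hw0 (by linarith) (by linarith)
      refine h2.trans (le_of_eq (by ring)))
  -- R2
  have l6 := seg_leg hp (g := 2 * x) (k := Real.pi) (z := 1) (B := 0) (E := E)
    (l := 1) (pt a (-w) Real.pi 0) (-I) (by rw [norm_neg, Complex.norm_I]) hβ hE Real.pi_pos zero_le_one le_rfl
    zero_le_one (fun t h0 h1 => by
      have e : pt a (-w) Real.pi 0 + t * -I = pt a (-w) Real.pi (-t) := by unfold pt; push_cast; ring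
      rw [e]
      exact hb1 (by linarith) (gR2 hx.le hw0 h0))
  -- R3a
  have l7 := seg_leg hp (g := Real.pi + 2 * x) (k := 1) (z := 1) (B := 0) (E := E)
    (l := Real.pi / 2) (pt a (-w) Real.pi (-1)) 1 (by simp) hβ hE one_pos zero_le_one le_rfl (by linarith)
    (fun t h0 h1 => by
      have e : pt a (-w) Real.pi (-1) + t * 1 = pt a (-w) (Real.pi + t) (-1) := by unfold pt; push_cast; ring
      rw [e]
      refine hb1 (by norm_num) ?_
      have h2 := gR3a (x := x) (w := w) (X := Real.pi + t) hx.le hw0 (by linarith) (by linarith)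
      refine h2.trans (le_of_eq (by ring)))
  -- R3b
  have l8 := right_leg hp (g := 4.7123 * (1 + w) - 2.7183 * PP x w + 2 * x) (k := 1) (z := 1) (B := 0) (E := E)
    (a := a + 3 * Real.pi / 2) (Y := -w - 1) (by linarith) hβ hE one_pos zero_le_one le_rfl (fun t h0 => by
      have e : ((a + 3 * Real.pi / 2 + t : ℝ) : ℂ) + (-w - 1 : ℝ) * I = pt a (-w) (3 * Real.pi / 2 + t) (-1) := by
        unfold pt; push_cast; ring
      rw [e]
      refine hb1 (by norm_num) ?_
      have h2 := gR3b (x := x) (w := w) (X := 3 * Real.pi / 2 + t)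
      refine h2.trans ?_
      have h3 : 0 ≤ w * t := mul_nonneg hw0 h0
      have h4 : 4.7123 * (1 + w) ≤ 3 * Real.pi / 2 * (1 + w) :=
        mul_le_mul_of_nonneg_right (by linarith) (by linarith)
      linarith)
  -- centre
  have lc : ‖P (pt a (-w) 0.8 0) - P (pt a (-w) (-0.8) 0)‖ ≤ E * Real.sqrt (2 * Real.pi / (cL x w * (x / β))) := by
    have hwx : w / x ≤ 0.536 := by
      rw [div_le_iff₀ hx]
      linarith
    have hc : 0 < cL x w := by unfold cL; linarith
    obtain ⟨b, hb⟩ : ∃ b : ℝ, b = cL x w * x / (2 * β) := ⟨_, rfl⟩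
    have hb0 : 0 < b := by rw [hb]; positivity
    have h3 := hp.segment (pt a (-w) 0 0) 1 (-(4 / 5)) (4 / 5)
    rw [one_mul] at h3
    have e1 : pt a (-w) 0 0 + ((4 / 5 : ℝ) : ℂ) * 1 = pt a (-w) 0.8 0 := by
      unfold pt; push_cast; ring
    have e2 : pt a (-w) 0 0 + ((-(4 / 5) : ℝ) : ℂ) * 1 = pt a (-w) (-0.8) 0 := by
      unfold pt; push_cast; ring
    rw [e1, e2] at h3
    rw [← h3]
    have h4 : ‖∫ t in (-(4 / 5 : ℝ))..(4 / 5), KK β r (θ - δ + 2 * Real.pi) (pt a (-w) 0 0 + (t : ℂ) * 1)‖ ≤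
        ∫ t in (-(4 / 5 : ℝ))..(4 / 5), E * Real.exp (-b * t ^ 2) := by
      refine intervalIntegral.norm_integral_le_of_norm_le (by norm_num) ?_ ?_
      · refine Filter.Eventually.of_forall fun t ht => ?_
        have e3 : pt a (-w) 0 0 + (t : ℂ) * 1 = pt a (-w) t 0 := by
          unfold pt; push_cast; ring
        rw [e3]
        refine (hK t 0 le_rfl).trans (mul_le_mul_of_nonneg_left ?_ hE)
        apply Real.exp_le_exp.2
        have h5 := gC (x := x) (w := w) (t := t) hx hw0 (abs_le.2 ⟨ht.1.le, ht.2⟩)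
        refine (div_le_div_of_nonneg_right h5 hβ.le).trans (le_of_eq ?_)
        rw [hb]
        field_simp
      · exact (by fun_prop : Continuous fun t : ℝ => E * Real.exp (-b * t ^ 2)).intervalIntegrable _ _
    refine h4.trans ?_
    rw [intervalIntegral.integral_const_mul]
    apply mul_le_mul_of_nonneg_left _ hE
    have h6 : Real.sqrt (2 * Real.pi / (cL x w * (x / β))) = ∫ t : ℝ, Real.exp (-b * t ^ 2) := by
      rw [integral_gaussian]
      congr 1
      rw [hb]
      field_simp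
    rw [h6, intervalIntegral.integral_of_le (by norm_num)]
    exact setIntegral_le_integral (integrable_exp_neg_mul_sq hb0) (Filter.Eventually.of_forall fun t => (Real.exp_pos _).le)
  -- the points
  have p0 : ((θ + x + Real.pi : ℝ) : ℂ) + ((-w : ℝ) : ℂ) * I = pt a (-w) (-Real.pi) 0 := by
    rw [ha]; unfold pt; push_cast; ring
  have p1 : pt a (-w) (-0.8) 0 + ((Real.pi - 0.8 : ℝ) : ℂ) * -1 = pt a (-w) (-Real.pi) 0 := by
    unfold pt; push_cast; ring
  have p5 : pt a (-w) 0.8 0 + ((Real.pi - 0.8 : ℝ) : ℂ) * 1 = pt a (-w) Real.pi 0 := by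
    unfold pt; push_cast; ring
  have p6 : pt a (-w) Real.pi 0 + ((1 : ℝ) : ℂ) * -I = pt a (-w) Real.pi (-1) := by
    unfold pt; push_cast; ring
  have p7 : pt a (-w) Real.pi (-1) + ((Real.pi / 2 : ℝ) : ℂ) * 1 =
      ((a + 3 * Real.pi / 2 : ℝ) : ℂ) + (-w - 1 : ℝ) * I := by
    unfold pt; push_cast; ring
  rw [p0] at l0
  rw [p1] at l1
  rw [p5] at l5
  rw [p6] at l6
  rw [p7] at l7
  have key : lR - V =
      (P (pt a (-w) (-Real.pi) 0) - V) +
      -(P (pt a (-w) (-Real.pi) 0) - P (pt a (-w) (-0.8) 0)) +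
      (P (pt a (-w) 0.8 0) - P (pt a (-w) (-0.8) 0)) +
      (P (pt a (-w) Real.pi 0) - P (pt a (-w) 0.8 0)) +
      (P (pt a (-w) Real.pi (-1)) - P (pt a (-w) Real.pi 0)) +
      (P (((a + 3 * Real.pi / 2 : ℝ) : ℂ) + (-w - 1 : ℝ) * I) - P (pt a (-w) Real.pi (-1))) +
      (lR - P (((a + 3 * Real.pi / 2 : ℝ) : ℂ) + (-w - 1 : ℝ) * I)) := by ring
  rw [key]
  refine (norm_add_le _ _).trans ((add_le_add ((norm_add_le _ _).trans (add_le_add ((norm_add_le _ _).trans
    (add_le_add ((norm_add_le _ _).trans (add_le_add ((norm_add_le _ _).trans (add_le_add ((norm_add_le _ _).trans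
    (add_le_add le_rfl (le_of_eq (norm_neg _)))) le_rfl)) le_rfl)) le_rfl)) le_rfl)) le_rfl).trans ?_)
  have hS : lg β (2 * x - Real.pi * w) (2 * x - Real.pi) 1 0 +
      lg β (0.3032 * x - 0.0827 * w) (0.7 * x - 1.3064 * w) 1 0 +
      Real.sqrt (2 * Real.pi / (cL x w * (x / β))) +
      lg β (0.3032 * x + 0.0826 * w) (0.7 * x) 1 0 + lg β (2 * x) Real.pi 1 0 + lg β (Real.pi + 2 * x) 1 1 0 +
      lg β (4.7123 * (1 + w) - 2.7183 * PP x w + 2 * x) 1 1 0 = absL β x w := by
    unfold absL legV lg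
    ring
  rw [← hEdef, ← hS]
  linarith

end Sok.B2
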