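import Pool.Agent.Lib.MP_816dec_an.B2FinL
import Pool.Agent.Lib.MP_816dec_an.B2CU
import Pool.Agent.Lib.MP_816dec_an.B2YU
import Pool.Agent.Lib.MP_816dec_an.B2Asm

/-!
MP_816dec_an, b = 2: outside the window one value dominates; the final theorem of the row.
-/

set_option autoImplicit false

open Complex Set Filter Topology

namespace Sok.B2

open Sok Sok.W

/-- ratio of two exponentials -/
theorem er {β κ a b G c : ℝ} (hβ : 0 < β) (hβκ : 10 * β ≤ κ) (hG0 : 0 ≤ G) (hG : G * κ ≤ 10 * (b - a))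
    (hc : Real.exp (-G) ≤ c) : Real.exp (a / β) ≤ Real.exp (b / β) * c := by
  have h1 := exp3 hβ hβκ hG0 hG hc
  calc Real.exp (a / β) = Real.exp (b / β) * Real.exp (-(b - a) / β) := by rw [← Real.exp_add]; congr 1; ring
    _ ≤ _ := by gcongr

/-- the final combination -/
theorem fin_ineq {β κ hp hb hc X Y Z' A' E' al v5 alc leg absb absc m mc q e c1 c12 c3 c45 : ℝ}
    (hβ : 0 < β) (hκ : 0 < κ) (hq : 0 < q)
    (hX : X ≤ Real.exp (hb / β) * (Real.exp (-m / β) * absb + leg) + 2)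
    (hY : Y ≤ Real.exp (hc / β) * Real.exp (-mc / β) * absc)
    (hZ : Real.exp (hp / β) * (A' - E') ≤ Z')
    (hE : E' ≤ e * A') (hA : sg β κ ≤ A' * q)
    (hab : absb ≤ sg β κ * al) (hleg : leg ≤ sg β κ * v5) (hac : absc ≤ sg β κ * alc)
    (hal : 0 ≤ al) (hv5 : 0 ≤ v5) (halc : 0 ≤ alc)
    (h1 : Real.exp (hb / β) ≤ Real.exp (hp / β) * c1)
    (h12 : Real.exp ((hb - m) / β) ≤ Real.exp (hp / β) * c12)
    (h3 : Real.exp (-hp / β) ≤ sg β κ * c3)
    (h45 : Real.exp ((hc - mc) / β) ≤ Real.exp (hp / β) * c45)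
    (hfin : q * (c12 * al + c1 * v5 + 2 * c3 + c45 * alc) < 0.98 * (1 - e)) (he : e < 1) : X + Y < 0.98 * Z' := by
  obtain ⟨P, hP⟩ : ∃ P : ℝ, P = Real.exp (hp / β) := ⟨_, rfl⟩
  have hP0 : 0 < P := by rw [hP]; exact Real.exp_pos _
  have hs := sg_pos hβ hκ
  obtain ⟨σ, hσ⟩ : ∃ σ : ℝ, σ = sg β κ := ⟨_, rfl⟩
  rw [← hσ] at hs hA hab hleg hac h3
  rw [← hP] at hZ h1 h12 h45
  have hm : Real.exp (hb / β) * Real.exp (-m / β) = Real.exp ((hb - m) / β) := by
    rw [← Real.exp_add]; congr 1; ring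
  have hmc : Real.exp (hc / β) * Real.exp (-mc / β) = Real.exp ((hc - mc) / β) := by
    rw [← Real.exp_add]; congr 1; ring
  have hPP : P * Real.exp (-hp / β) = 1 := by
    rw [hP, ← Real.exp_add]
    rw [show hp / β + -hp / β = 0 by ring, Real.exp_zero]
  have g1 : Real.exp ((hb - m) / β) * absb ≤ P * c12 * (σ * al) :=
    (mul_le_mul_of_nonneg_left hab (Real.exp_pos _).le).trans
      (mul_le_mul_of_nonneg_right h12 (by positivity))
  have g2 : Real.exp (hb / β) * leg ≤ P * c1 * (σ * v5) :=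
    (mul_le_mul_of_nonneg_left hleg (Real.exp_pos _).le).trans
      (mul_le_mul_of_nonneg_right h1 (by positivity))
  have g3 : 1 ≤ P * (σ * c3) := by
    calc (1 : ℝ) = P * Real.exp (-hp / β) := hPP.symm
      _ ≤ _ := mul_le_mul_of_nonneg_left h3 hP0.le
  have g4 : Real.exp ((hc - mc) / β) * absc ≤ P * c45 * (σ * alc) :=
    (mul_le_mul_of_nonneg_left hac (Real.exp_pos _).le).trans
      (mul_le_mul_of_nonneg_right h45 (by positivity))
  have g5 : X + Y ≤ P * σ * (c12 * al + c1 * v5 + 2 * c3 + c45 * alc) := by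
    rw [hmc] at hY
    have : Real.exp (hb / β) * (Real.exp (-m / β) * absb + leg) =
        Real.exp ((hb - m) / β) * absb + Real.exp (hb / β) * leg := by rw [← hm]; ring
    rw [this] at hX
    calc X + Y ≤ P * c12 * (σ * al) + P * c1 * (σ * v5) + 2 * (P * (σ * c3)) + P * c45 * (σ * alc) := by linarith
      _ = _ := by ring
  have hA0 : 0 < A' := by
    by_contra hcon
    push Not at hcon
    have := mul_nonpos_of_nonpos_of_nonneg hcon hq.le
    linarith
  obtain ⟨S, hS⟩ : ∃ S : ℝ, S = c12 * al + c1 * v5 + 2 * c3 + c45 * alc := ⟨_, rfl⟩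
  rw [← hS] at g5 hfin
  have g6 : P * (A' * (1 - e)) ≤ Z' := by
    refine le_trans (mul_le_mul_of_nonneg_left ?_ hP0.le) hZ
    linarith
  have g7 : σ * S ≤ max (σ * S) 0 := le_max_left _ _
  rcases le_total S 0 with hS0 | hS0
  · have e1 : P * σ * S ≤ 0 := mul_nonpos_of_nonneg_of_nonpos (by positivity) hS0
    have e2 : 0 < P * (A' * (1 - e)) := by
      have : 0 < 1 - e := by linarith
      positivity
    linarith
  · have e1 : σ * S ≤ A' * q * S := mul_le_mul_of_nonneg_right hA hS0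
    have e2 : A' * (q * S) < A' * (0.98 * (1 - e)) := mul_lt_mul_of_pos_left hfin hA0
    have e3 : P * (σ * S) < P * (A' * (0.98 * (1 - e))) := by
      refine mul_lt_mul_of_pos_left ?_ hP0
      calc σ * S ≤ A' * q * S := e1
        _ = A' * (q * S) := by ring
        _ < _ := e2
    calc X + Y ≤ P * σ * S := g5
      _ = P * (σ * S) := by ring
      _ < P * (A' * (0.98 * (1 - e))) := e3
      _ = 0.98 * (P * (A' * (1 - e))) := by ring
      _ ≤ 0.98 * Z' := by linarith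

theorem div_k {κ a b : ℝ} (hκ : 0 < κ) (h : κ * a ≤ κ * b) : a ≤ b := le_of_mul_le_mul_left h hκ

/-! ### the exponents -/

/-- the saddle at `τ = 1.95` -/
theorem hb_up {κ x y u : ℝ} (h : RS κ 1.95 x y u) :
    κ * (x * (1 + y)) ≤ 1.148812 * κ ^ 2 - 1.17 * κ + 0.3728 := by
  have hκ := h.kpos
  have e1 : Real.exp (-0.6) ≤ 0.548812 := en (by norm_num) (by norm_num)
  have e2 := h.h_up e1
  have hu0 := h.u0
  have hu1 := h.u1
  have e3 : Real.cos u ≤ 1 - 0.44 * u ^ 2 := by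
    have f1 := cos_le4 hu0
    have f2 : u ^ 2 ≤ 1.44 := by nlinarith
    nlinarith [mul_nonneg (sq_nonneg u) (sub_nonneg.2 f2)]
  have e4 : x * (1 + y) ≤ (u - 1.95 + κ) * 0.6 + κ * 0.548812 * (1 - 0.44 * u ^ 2) := by
    refine e2.trans ?_
    have : κ * 0.548812 * Real.cos u ≤ κ * 0.548812 * (1 - 0.44 * u ^ 2) :=
      mul_le_mul_of_nonneg_left e3 (by positivity)
    linarith
  have e5 := mul_le_mul_of_nonneg_left e4 hκ.le
  nlinarith [sq_nonneg (κ * u - 1.2424)]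

/-- the right saddle at `0 ≤ τ ≤ 1.3` -/
theorem hp_right {κ τ x y u : ℝ} (h : RS κ τ x y u) (h2 : κ ≤ 3) (hτ : τ ≤ 1.3) (hy : y ≤ 0.52) :
    1.1145 * κ - 0.676 ≤ x * (1 + y) := by
  have hκ := h.kpos
  have hy0 := h.y0
  refine le_trans ?_ h.h_low
  have e1 : 0.594519 ≤ Real.exp (-0.52) := eln (by norm_num) (by norm_num) (by norm_num) (by norm_num)
  have e2 : 0.594519 * (1.52 - y) ≤ Real.exp (-y) := by
    have f1 := Real.add_one_le_exp (0.52 - y)
    have f2 : Real.exp (-y) = Real.exp (-0.52) * Real.exp (0.52 - y) := by rw [← Real.exp_add]; congr 1; ring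
    rw [f2]
    exact mul_le_mul e1 (by linarith) (by linarith) (Real.exp_pos _).le
  have e3 : κ * (0.594519 * (1.52 - y)) ≤ κ * Real.exp (-y) := mul_le_mul_of_nonneg_left e2 hκ.le
  have e4 : τ * y ≤ 1.3 * y := mul_le_mul_of_nonneg_right hτ hy0
  nlinarith [mul_nonneg (sub_nonneg.2 hy) (sub_nonneg.2 h2)]

theorem e5024 : (1.65267 : ℝ) ≤ Real.exp 0.5024 := ep (by norm_num) (by norm_num)
theorem e4328 : (1.54155 : ℝ) ≤ Real.exp 0.4328 := ep (by norm_num) (by norm_num)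
theorem e334 : (1.3965 : ℝ) ≤ Real.exp 0.334 := ep (by norm_num) (by norm_num)

theorem hp_left1 {κ s x w v : ℝ} (h : LS κ s x w v) (h1 : 1 ≤ κ) (h2 : κ ≤ 1.6) (hs : s ≤ 1.1916) (hw : w ≤ 0.69) :
    1.2335 * κ - 0.6843 ≤ x * (1 - w) := by
  have hpi := Real.pi_gt_d4
  have hw0 := h.w0
  have hc : 0.98 ≤ Real.cos 0.2 := by
    have := Real.one_sub_sq_div_two_le_cos (x := 0.2)
    norm_num at this ⊢
    linarith
  have e1 := h.h_low' (by linarith) (α := 0.2) (C := 0.98) (ω := 0.5024) (E := 1.65267) (by norm_num) (by linarith) hc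
    (by norm_num) e5024 (by norm_num)
  refine le_trans ?_ e1
  nlinarith [mul_nonneg (sub_nonneg.2 hw) (sub_nonneg.2 h2), mul_le_mul_of_nonneg_right hs hw0]

theorem hp_left2 {κ s x w v : ℝ} (h : LS κ s x w v) (h1 : 1.6 ≤ κ) (h2 : κ ≤ 2.2) (hs : s ≤ 1.1916) (hw : w ≤ 0.69) :
    1.248 * κ - 0.8223 ≤ x * (1 - w) := by
  have hpi := Real.pi_gt_d4
  have hw0 := h.w0
  have e1 := h.h_low' (by linarith) (α := 0) (C := 1) (ω := 0.4328) (E := 1.54155) (by norm_num) (by linarith)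
    (by rw [Real.cos_zero]) (by norm_num) e4328 (by norm_num)
  refine le_trans ?_ e1
  nlinarith [mul_nonneg (sub_nonneg.2 hw) (sub_nonneg.2 h2), mul_le_mul_of_nonneg_right hs hw0]

theorem hp_left3 {κ s x w v : ℝ} (h : LS κ s x w v) (h1 : 2.2 ≤ κ) (h2 : κ ≤ 3) (hs : s ≤ 1.1916) (hw : w ≤ 0.69) :
    1.2036 * κ - 0.8223 ≤ x * (1 - w) := by
  have hpi := Real.pi_gt_d4
  have hw0 := h.w0
  have e1 := h.h_low' (by linarith) (α := 0) (C := 1) (ω := 0.334) (E := 1.3965) (by norm_num) (by linarith)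
    (by rw [Real.cos_zero]) (by norm_num) e334 (by norm_num)
  refine le_trans ?_ e1
  nlinarith [mul_nonneg (sub_nonneg.2 hw) (sub_nonneg.2 h2), mul_le_mul_of_nonneg_right hs hw0]

theorem hc_up {κ s x w v ω El Eu C : ℝ} (h : LS κ s x w v) (h1 : 1 ≤ κ) (hs : 1.8415 ≤ s) (hω : 0 ≤ ω)
    (hEl : El ≤ Real.exp ω) (hEu : Real.exp ω ≤ Eu) (hEl0 : 0 < El) (hC : ω ^ 2 ≤ 1.96 * El * C) :
    κ * (x * (1 - w)) ≤ (Eu - ω) * κ ^ 2 - 1.8415 * ω * κ + C := by
  have hκ : 0 < κ := by linarith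
  have e1 := h.h_up h1 hEl hEu hEl0
  have e2 := mul_le_mul_of_nonneg_left e1 hκ.le
  have e3 : κ * (ω ^ 2 / (1.96 * (κ * El))) = ω ^ 2 / (1.96 * El) := by field_simp
  have e4 : ω ^ 2 / (1.96 * El) ≤ C := by
    rw [div_le_iff₀ (by positivity)]
    linarith
  have e5 : 1.8415 * ω * κ ≤ s * ω * κ := by gcongr
  nlinarith

end Sok.B2
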