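import Pool.Agent.Lib.MP_816dec_an.B2FinO

/-!
MP_816dec_an, b = 2: the upper and lower bounds outside the window.
-/

set_option autoImplicit false

open Complex Set Filter Topology

namespace Sok.B2

open Sok Sok.W

theorem xany {κ τ x y u : ℝ} (h : RS κ τ x y u) (h1 : 1 ≤ κ) (h2 : κ ≤ 3) (hτ : τ ≤ 1.95) : 0.155 ≤ x := by
  rcases le_total κ 1.6 with hc | hc
  · have := h.x_geI h1 hc hτ
    linarith
  · rcases le_total κ 2.2 with hd | hd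
    · have := xIIge h hc hd (h.y_le68 hτ)
      linarith
    · have := xIIIhige h hd h2 (h.y_le68 hτ)
      linarith

/-- upper bound of the part left of the valley, from the saddle at `τ = 1.95` -/
theorem xu {β r t : ℝ} (hβ : 0 < β) (hr : 10 ≤ r) (h1 : 1 ≤ β * r) (h2 : β * r ≤ 3)
    (ha : 1.95 ≤ t + β * r) (hb : t + β * r ≤ 1.3 + Real.pi) :
    ∃ x y u : ℝ, RS (β * r) 1.95 x y u ∧ y ≤ 0.68 ∧ (β * r ≤ 1.6 → 0.5 ≤ y) ∧ (1.6 ≤ β * r → 0.6 ≤ y) ∧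
      ‖XL (KK β r t)‖ ≤ Real.exp (x * (1 + y) / β) *
        (Real.exp (-((y - 0.224) * (t + β * r - 1.95)) / β) * absR β x y +
        legV β (0.3518 + 1.224 * x - 0.3198 * y) 1.57) + 2 := by
  have hpi := Real.pi_gt_d4
  have hκ : 0 < β * r := by linarith
  obtain ⟨x, y, ex, ey, hx, hy, hu0, hu1⟩ := exR (κ := β * r) (θ := 1.95 - β * r) h1 (by linarith) (by linarith)
  have hS : Sad β r (1.95 - β * r) x y := ⟨ex, ey⟩
  have h := RS.of_sad hS hx hy hu0 hu1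
  rw [show 1.95 - β * r + β * r = 1.95 by ring] at h
  have hy68 := h.y_le68 le_rfl
  have hx1 := xany h h1 h2 le_rfl
  have hr0 : 0 < r := by linarith
  obtain ⟨j1, j2, j3, j4⟩ := h.jr h2 hy68 hx1
  have hy5 : β * r ≤ 1.6 → 0.5 ≤ y := fun hc => h.y_ge50 h1 hc le_rfl
  have hy6 : 1.6 ≤ β * r → 0.6 ≤ y := fun hc => h.y_ge60 hc h2 le_rfl
  have hy2 : 0.5 ≤ y := by
    rcases le_total (β * r) 1.6 with hc | hc
    · exact hy5 hc
    · linarith [hy6 hc]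
  have hu3 : 1 / 3 ≤ 1.95 - β * r + x := by
    refine le_trans ?_ (Real.sin_le hu0)
    have e1 := h.ey
    have e2 : 1 + y + y ^ 2 / 2 ≤ Real.exp y := by
      have := Real.quadratic_le_exp_of_nonneg hy
      linarith
    have e3 : y * (1 + y + y ^ 2 / 2) ≤ β * r * Real.sin (1.95 - β * r + x) := by
      rw [← e1]
      exact mul_le_mul_of_nonneg_left e2 hy
    by_contra hcon
    push Not at hcon
    have e4 : β * r * Real.sin (1.95 - β * r + x) ≤ β * r * (1 / 3) := mul_le_mul_of_nonneg_left hcon.le hκ.le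
    rcases le_total (β * r) 1.6 with hc | hc
    · have := hy5 hc
      nlinarith [sq_nonneg (y - 0.5), mul_nonneg hy (sq_nonneg (y - 0.5))]
    · have := hy6 hc
      nlinarith [sq_nonneg (y - 0.6), mul_nonneg hy (sq_nonneg (y - 0.6))]
  have hC := CU β r (1.95 - β * r) x y (t + β * r - 1.95) hβ hr0 hS hx j1 (by linarith) j2 j3 j4 (by linarith) h1 hu3
    (by linarith) (by linarith) (by nlinarith)
  rw [show 1.95 - β * r + (t + β * r - 1.95) = t by ring] at hC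
  refine ⟨x, y, _, h, hy68, hy5, hy6, ?_⟩
  rw [← neg_mul]
  exact hC

/-- upper bound of the part right of the valley -/
theorem yu {β r t : ℝ} (hβ : 0 < β) (hr : 10 ≤ r) (h1 : 1 ≤ β * r) (h2 : β * r ≤ 3)
    (hb : t + β * r ≤ 1.3 + Real.pi) :
    ∃ x w v : ℝ, LS (β * r) (Real.pi - 1.3) x w v ∧ 0.45 ≤ w ∧
      ‖YR (KK β r t)‖ ≤ Real.exp (x * (1 - w) / β) *
        Real.exp (-(w * (1.3 + Real.pi - (t + β * r))) / β) * absL β x w := by
  have hpi := Real.pi_gt_d4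
  have hpi' := Real.pi_lt_d4
  have hκ : 0 < β * r := by linarith
  obtain ⟨x, w, ex, ew, hw0, hw1, hu0, hu1⟩ := exL (κ := β * r) (θ := 1.3 - Real.pi - β * r) h1 (by linarith)
    (by linarith)
  have hS : Sad β r (1.3 - Real.pi - β * r) x (-w) := ⟨by rw [neg_neg]; exact ex, by rw [neg_neg]; exact ew⟩
  have h := LS.of_sad hS hw0 hw1 hu0 hu1
  rw [show -(1.3 - Real.pi - β * r + β * r) = Real.pi - 1.3 by ring] at h
  have hr0 : 0 < r := by linarith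
  obtain ⟨j1, j2, j3⟩ := h.jl h1 h2
  have hv := h.v_le h1
  have hes := h.es
  have hx1 : 1.6 ≤ x := by linarith
  have hC := YU β r (1.3 - Real.pi - β * r) x w (1.3 + Real.pi - (t + β * r)) hβ hr0 hS hx1 hw0 hw1 j2 (by linarith)
    (by linarith) hu0
  rw [show 1.3 - Real.pi - β * r - (1.3 + Real.pi - (t + β * r)) + 2 * Real.pi = t by ring] at hC
  refine ⟨x, w, _, h, h.w_ge45 h1 h2 (by linarith), ?_⟩
  rw [← neg_mul]
  have : x * (1 - w) / β = x * (1 + -w) / β := by ring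
  rw [this]
  exact hC

/-- lower bound at the right saddle, `0 ≤ τ ≤ 1.3` -/
theorem zR {β r θ : ℝ} (hβ : 0 < β) (hr : 10 ≤ r) (h1 : 1 ≤ β * r) (h2 : β * r ≤ 3)
    (ha : 0 ≤ θ + β * r) (hb : θ + β * r ≤ 1.3) :
    ∃ x y u : ℝ, RS (β * r) (θ + β * r) x y u ∧ y ≤ 0.52 ∧
      Real.exp (x * (1 + y) / β) * (A0 β x y - ER β x y) ≤ ‖Z0 β r θ‖ := by
  obtain ⟨x, y, ex, ey, hx, hy, hu0, hu1⟩ := exR h1 ha (by linarith : θ + β * r ≤ 1.95)
  have hS : Sad β r θ x y := ⟨ex, ey⟩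
  have h := RS.of_sad hS hx hy hu0 hu1
  have hy52 := h.y_le52 hb
  have hr0 : 0 < r := by linarith
  obtain ⟨j1, j2, j3, j4⟩ := h.jr h2 (by linarith) (xany h h1 h2 (by linarith))
  have hJ := JR β r θ x y hβ hr0 hS hx j1 hy j2 j3 j4
  exact ⟨x, y, _, h, hy52, hJ.1⟩

/-- lower bound at the left saddle, `-1.1916 ≤ τ ≤ 0` -/
theorem zL {β r θ : ℝ} (hβ : 0 < β) (hr : 10 ≤ r) (h1 : 1 ≤ β * r) (h2 : β * r ≤ 3)
    (ha : 0 ≤ -(θ + β * r)) (hb : -(θ + β * r) ≤ 1.1916) :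
    ∃ x w v : ℝ, LS (β * r) (-(θ + β * r)) x w v ∧ w ≤ 0.69 ∧
      Real.exp (x * (1 - w) / β) * (A0 β x (-w) - EL β x w) ≤ ‖Z0 β r θ‖ := by
  obtain ⟨x, w, ex, ew, hw0, hw1, hu0, hu1⟩ := exL h1 ha (by linarith : -(θ + β * r) ≤ 1.8416)
  have hS : Sad β r θ x (-w) := ⟨by rw [neg_neg]; exact ex, by rw [neg_neg]; exact ew⟩
  have h := LS.of_sad hS hw0 hw1 hu0 hu1
  have hr0 : 0 < r := by linarith
  obtain ⟨j1, j2, j3⟩ := h.jl h1 h2
  have hJ := JL β r θ x w hβ hr0 hS j1 hw0 hw1 j2 j3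
  refine ⟨x, w, _, h, h.w_le69 h1 hb, ?_⟩
  have : x * (1 - w) / β = x * (1 + -w) / β := by ring
  rw [this]
  exact hJ.1

/-! ### constants of the saddle at `τ = 1.95` -/

theorem bI {β κ x y u : ℝ} (h : RS κ 1.95 x y u) (hβ : 0 < β) (hβκ : 10 * β ≤ κ) (h1 : 1 ≤ κ) (h2 : κ ≤ 1.6)
    (hy : 0.5 ≤ y) : absR β x y ≤ sg β κ * 1.1116 ∧
      legV β (0.3518 + 1.224 * x - 0.3198 * y) 1.57 ≤ sg β κ * 0.0021 := by
  have hs := (sg_pos hβ h.kpos).le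
  have hx := h.x_geI h1 h2 le_rfl
  have hy2 := h.y_leI h1 h2 le_rfl
  rcases le_total κ 1.3 with hd | hd
  · have hn := numRIa h hβ hβκ h1 hd hx (by linarith) hy2
    exact ⟨hn.2.2.2.2.1.trans (mul_le_mul_of_nonneg_left (by norm_num) hs),
      hn.2.2.2.2.2.trans (mul_le_mul_of_nonneg_left (by norm_num) hs)⟩
  · have hn := numRIb h hβ hβκ hd h2 hx (by linarith) hy2
    exact ⟨hn.2.2.2.2.1, hn.2.2.2.2.2.trans (mul_le_mul_of_nonneg_left (by norm_num) hs)⟩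

theorem bII {β κ x y u : ℝ} (h : RS κ 1.95 x y u) (hβ : 0 < β) (hβκ : 10 * β ≤ κ) (h1 : 1.6 ≤ κ) (h2 : κ ≤ 2.2)
    (hy : 0.6 ≤ y) : absR β x y ≤ sg β κ * 1.1719 ∧
      legV β (0.3518 + 1.224 * x - 0.3198 * y) 1.57 ≤ sg β κ * 0.0021 := by
  have hs := (sg_pos hβ h.kpos).le
  have hy2 := h.y_le68 le_rfl
  have hn := numRII h hβ hβκ h1 h2 (xIIge h h1 h2 hy2) (by linarith) hy2
  exact ⟨hn.2.2.2.2.1, hn.2.2.2.2.2.trans (mul_le_mul_of_nonneg_left (by norm_num) hs)⟩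

theorem bIII {β κ x y u : ℝ} (h : RS κ 1.95 x y u) (hβ : 0 < β) (hβκ : 10 * β ≤ κ) (h1 : 2.2 ≤ κ) (h2 : κ ≤ 3)
    (hy : 0.6 ≤ y) : absR β x y ≤ sg β κ * 1.1877 ∧
      legV β (0.3518 + 1.224 * x - 0.3198 * y) 1.57 ≤ sg β κ * 0.0021 := by
  have hs := (sg_pos hβ h.kpos).le
  have hy2 := h.y_le68 le_rfl
  have hn := numRIIIhi h hβ hβκ h1 h2 (xIIIhige h h1 h2 hy2) (by linarith) hy2
  exact ⟨hn.2.2.2.2.1, hn.2.2.2.2.2.trans (mul_le_mul_of_nonneg_left (by norm_num) hs)⟩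

/-! ### constants of the saddle at `s = π - 1.3` -/

theorem leg9 {β κ x w v : ℝ} (h : LS κ (Real.pi - 1.3) x w v) (hβ : 0 < β) (hβκ : 10 * β ≤ κ) (h1 : 1 ≤ κ) :
    legV β (2 * x - Real.pi * w) (2 * x - Real.pi) ≤ sg β κ * 0.0001 := by
  have hpi := Real.pi_gt_d4
  have hpi' := Real.pi_lt_d4
  have hv := h.v_le h1
  have hes := h.es
  have hw0 := h.w0
  have hw1 := h.w1
  have e1 : Real.pi * w ≤ 3.1416 * 0.98 := by gcongr
  exact (leg2 (z := 0) (G := 8) (K := 17) (b := 0.0005) (v := 0.0001) (m := 1) hβ (by linarith) hβκ le_rfl (by norm_num)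
    (by linarith) (by norm_num) (by linarith) (en (by norm_num) (by norm_num)) (by norm_num) (by norm_num)).1

theorem cI {β κ x w v : ℝ} (h : LS κ (Real.pi - 1.3) x w v) (hβ : 0 < β) (hβκ : 10 * β ≤ κ) (h1 : 1 ≤ κ)
    (h2 : κ ≤ 1.6) : absL β x w ≤ sg β κ * 0.7107 := by
  have hpi := Real.pi_gt_d4
  have hpi' := Real.pi_lt_d4
  have e1 := numLI h hβ hβκ h1 h2 (by linarith) (h.w_ge48 h1 h2 (by linarith))
  have e2 := leg9 h hβ hβκ h1
  linarith [e1.2.2.2.2]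

theorem cII {β κ x w v : ℝ} (h : LS κ (Real.pi - 1.3) x w v) (hβ : 0 < β) (hβκ : 10 * β ≤ κ) (h1 : 1.6 ≤ κ)
    (h2 : κ ≤ 2.2) : absL β x w ≤ sg β κ * 0.7076 := by
  have hpi := Real.pi_gt_d4
  have hpi' := Real.pi_lt_d4
  have e1 := numLII h hβ hβκ h1 h2 (by linarith) (h.w_ge39 (by linarith) h2 (by linarith))
  have e2 := leg9 h hβ hβκ (by linarith)
  linarith [e1.2.2.2.2]

theorem cIII {β κ x w v : ℝ} (h : LS κ (Real.pi - 1.3) x w v) (hβ : 0 < β) (hβκ : 10 * β ≤ κ) (h1 : 2.2 ≤ κ)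
    (h2 : κ ≤ 3) : absL β x w ≤ sg β κ * 0.7304 := by
  have hpi := Real.pi_gt_d4
  have hpi' := Real.pi_lt_d4
  have e1 := numLIII h hβ hβκ h1 h2 (by linarith) (h.w_ge30 (by linarith) h2 (by linarith))
  have e2 := leg9 h hβ hβκ (by linarith)
  linarith [e1.2.2.2.2]

end Sok.B2
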