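import Pool.Agent.Lib.MP_816dec_an.B2Num

/-!
MP_816dec_an, b = 2: geometry of the saddle (bounds of `x`, `y` in terms of `κ = β r` and `τ = θ + κ`).
-/

set_option autoImplicit false

open Set Filter Topology

namespace Sok.B2

/-! ### elementary trigonometric bounds -/

theorem nonneg_of_deriv {f f' : ℝ → ℝ} (hf : ∀ x, HasDerivAt f (f' x) x) (h0 : f 0 = 0) (h' : ∀ x, 0 ≤ x → 0 ≤ f' x)
    {x : ℝ} (hx : 0 ≤ x) : 0 ≤ f x := by
  have hm : MonotoneOn f (Ici 0) := by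
    apply monotoneOn_of_deriv_nonneg (convex_Ici 0)
    · exact fun y _ => (hf y).continuousAt.continuousWithinAt
    · exact fun y _ => (hf y).differentiableAt.differentiableWithinAt
    · intro y hy
      rw [(hf y).deriv]
      rw [interior_Ici] at hy
      exact h' y (le_of_lt hy)
  have := hm (mem_Ici.2 le_rfl) (mem_Ici.2 hx) hx
  rwa [h0] at this

theorem sin_ge3 {x : ℝ} (hx : 0 ≤ x) : x - x ^ 3 / 6 ≤ Real.sin x := by
  have h := nonneg_of_deriv (f := fun x => Real.sin x - (x - x ^ 3 / 6)) (f' := fun x => Real.cos x - (1 - x ^ 2 / 2))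
    (fun x => by
      have h1 := ((hasDerivAt_id x).sub (((hasDerivAt_id x).pow 3).div_const 6))
      have h2 := (Real.hasDerivAt_sin x).sub h1
      refine h2.congr_deriv ?_
      simp only [id]
      norm_num
      ring) (by simp) (fun x _ => by have := Real.one_sub_sq_div_two_le_cos (x := x); linarith) hx
  linarith

theorem cos_le4 {x : ℝ} (hx : 0 ≤ x) : Real.cos x ≤ 1 - x ^ 2 / 2 + x ^ 4 / 24 := by
  have h := nonneg_of_deriv (f := fun x => (1 - x ^ 2 / 2 + x ^ 4 / 24) - Real.cos x)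
    (f' := fun x => Real.sin x - (x - x ^ 3 / 6))
    (fun x => by
      have h1 := (((hasDerivAt_const x (1 : ℝ)).sub (((hasDerivAt_id x).pow 2).div_const 2)).add
        (((hasDerivAt_id x).pow 4).div_const 24))
      have h2 := h1.sub (Real.hasDerivAt_cos x)
      refine h2.congr_deriv ?_
      simp only [id]
      norm_num
      ring) (by simp) (fun x hx => by have := sin_ge3 hx; linarith) hx
  linarith

theorem sin_le5 {x : ℝ} (hx : 0 ≤ x) : Real.sin x ≤ x - x ^ 3 / 6 + x ^ 5 / 120 := by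
  have h := nonneg_of_deriv (f := fun x => (x - x ^ 3 / 6 + x ^ 5 / 120) - Real.sin x)
    (f' := fun x => (1 - x ^ 2 / 2 + x ^ 4 / 24) - Real.cos x)
    (fun x => by
      have h1 := (((hasDerivAt_id x).sub (((hasDerivAt_id x).pow 3).div_const 6)).add
        (((hasDerivAt_id x).pow 5).div_const 120))
      have h2 := h1.sub (Real.hasDerivAt_sin x)
      refine h2.congr_deriv ?_
      simp only [id]
      norm_num
      ring) (by simp) (fun x hx => by have := cos_le4 hx; linarith) hx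
  linarith

theorem cos_ge6 {x : ℝ} (hx : 0 ≤ x) : 1 - x ^ 2 / 2 + x ^ 4 / 24 - x ^ 6 / 720 ≤ Real.cos x := by
  have h := nonneg_of_deriv (f := fun x => Real.cos x - (1 - x ^ 2 / 2 + x ^ 4 / 24 - x ^ 6 / 720))
    (f' := fun x => (x - x ^ 3 / 6 + x ^ 5 / 120) - Real.sin x)
    (fun x => by
      have h1 := ((((hasDerivAt_const x (1 : ℝ)).sub (((hasDerivAt_id x).pow 2).div_const 2)).add
        (((hasDerivAt_id x).pow 4).div_const 24)).sub (((hasDerivAt_id x).pow 6).div_const 720))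
      have h2 := (Real.hasDerivAt_cos x).sub h1
      refine h2.congr_deriv ?_
      simp only [id]
      norm_num
      ring) (by simp) (fun x hx => by have := sin_le5 hx; linarith) hx
  linarith

/-! ### exponential constants -/

theorem exp_neg_le_quad {d : ℝ} (hd : 0 ≤ d) : Real.exp (-d) ≤ 1 - d + d ^ 2 / 2 := by
  have h1 := Real.quadratic_le_exp_of_nonneg hd
  rw [Real.exp_neg, inv_le_comm₀ (Real.exp_pos _) (by nlinarith [sq_nonneg (d - 1)])]
  refine le_trans ?_ h1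
  rw [inv_le_iff_one_le_mul₀ (by nlinarith [sq_nonneg (d - 1)])]
  nlinarith [sq_nonneg (d ^ 2)]

theorem eu {G b : ℝ} (hG : 0 ≤ G) (hG1 : G ≤ 1)
    (h : 1 + G + G ^ 2 / 2 + G ^ 3 / 6 + G ^ 4 / 24 + G ^ 5 / 120 + G ^ 6 * 7 / 4320 ≤ b) : Real.exp G ≤ b := by
  have h1 := Real.exp_bound' hG hG1 (n := 6) (by norm_num)
  simp only [Finset.sum_range_succ, Finset.sum_range_zero, Nat.factorial] at h1
  norm_num at h1
  linarith

theorem eln {G b : ℝ} (hG : 0 ≤ G) (hG1 : G ≤ 1)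
    (h : b * (1 + G + G ^ 2 / 2 + G ^ 3 / 6 + G ^ 4 / 24 + G ^ 5 / 120 + G ^ 6 * 7 / 4320) ≤ 1) (hb : 0 ≤ b) :
    b ≤ Real.exp (-G) := by
  have h1 := eu hG hG1 le_rfl
  rw [Real.exp_neg, ← one_div, le_div_iff₀ (Real.exp_pos _)]
  nlinarith

theorem le_of_sq_le_sq' {a b : ℝ} (hb : 0 ≤ b) (h : a ^ 2 ≤ b ^ 2) : a ≤ b := by
  exact le_trans (le_abs_self a) (abs_le_of_sq_le_sq h hb)

/-! ### the right saddle -/

/-- the standing facts of the right saddle: `u = θ + x`, `τ = θ + κ` -/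
structure RS (κ τ x y u : ℝ) : Prop where
  ex : x * Real.exp y = κ * Real.cos u
  ey : y * Real.exp y = κ * Real.sin u
  et : τ = u - x + κ
  u0 : 0 ≤ u
  u1 : u ≤ 1.2
  y0 : 0 ≤ y
  x0 : 0 < x

theorem RS.of_sad {β r θ x y : ℝ} (h : Sad β r θ x y) (hx : 0 < x) (hy : 0 ≤ y) (h0 : 0 ≤ θ + x) (h1 : θ + x ≤ 1.2) :
    RS (β * r) (θ + β * r) x y (θ + x) := by
  refine ⟨?_, ?_, by ring, h0, h1, hy, hx⟩
  · have := h.hx
    calc x * Real.exp y = (β * r * Real.exp (-y) * Real.cos (θ + x)) * Real.exp y := by rw [← this]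
      _ = β * r * Real.cos (θ + x) * (Real.exp (-y) * Real.exp y) := by ring
      _ = _ := by rw [← Real.exp_add]; simp
  · have := h.hy
    calc y * Real.exp y = (β * r * Real.exp (-y) * Real.sin (θ + x)) * Real.exp y := by rw [← this]
      _ = β * r * Real.sin (θ + x) * (Real.exp (-y) * Real.exp y) := by ring
      _ = _ := by rw [← Real.exp_add]; simp

section R
variable {κ τ x y u : ℝ}

theorem RS.sq (h : RS κ τ x y u) : (x ^ 2 + y ^ 2) * Real.exp y ^ 2 = κ ^ 2 := by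
  have := h.ex; have := h.ey
  have h3 := Real.sin_sq_add_cos_sq u
  calc (x ^ 2 + y ^ 2) * Real.exp y ^ 2 = (x * Real.exp y) ^ 2 + (y * Real.exp y) ^ 2 := by ring
    _ = κ ^ 2 * (Real.sin u ^ 2 + Real.cos u ^ 2) := by rw [h.ex, h.ey]; ring
    _ = κ ^ 2 := by rw [h3, mul_one]

theorem RS.cos_pos (h : RS κ τ x y u) : 0 < Real.cos u := by
  apply Real.cos_pos_of_mem_Ioo
  have := Real.pi_gt_d2
  have := h.u0; have := h.u1
  constructor <;> linarith

theorem RS.kpos (h : RS κ τ x y u) : 0 < κ := by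
  have h1 := h.cos_pos
  have h2 : 0 < κ * Real.cos u := by rw [← h.ex]; have := h.x0; positivity
  exact (pos_iff_pos_of_mul_pos h2).2 h1

theorem RS.sin_nonneg (h : RS κ τ x y u) : 0 ≤ Real.sin u :=
  Real.sin_nonneg_of_nonneg_of_le_pi h.u0 (by have := Real.pi_gt_d2; have := h.u1; linarith)

theorem RS.xs (h : RS κ τ x y u) : x * Real.sin u = y * Real.cos u := by
  have h1 : x * Real.sin u * Real.exp y = y * Real.cos u * Real.exp y := by
    calc x * Real.sin u * Real.exp y = x * Real.exp y * Real.sin u := by ring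
      _ = (κ * Real.sin u) * Real.cos u := by rw [h.ex]; ring
      _ = (y * Real.exp y) * Real.cos u := by rw [h.ey]
      _ = _ := by ring
  exact mul_right_cancel₀ (Real.exp_pos y).ne' h1

/-- upper bound of `y` -/
theorem RS.y_le {T Y m : ℝ} (h : RS κ τ x y u) (hτ : τ ≤ T) (hY : 0 ≤ Y) (hm : m ≤ Y * Real.exp Y)
    (hT : 1.2 ≤ T)
    (hM : ∀ u : ℝ, 0 ≤ u → u ≤ 1.2 →
      (T - u) * (u - u ^ 3 / 6 + u ^ 5 / 120) + Y * (1 - u ^ 2 / 2 + u ^ 4 / 24) < m) : y ≤ Y := by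
  by_contra hcon
  push Not at hcon
  have hs := h.sin_nonneg
  have hc := h.cos_pos
  have hu0 := h.u0
  have hu1 := h.u1
  have e1 : y * (Real.exp y - Real.cos u) = (τ - u) * Real.sin u := by
    have h1 := h.xs
    have h2 := h.ey
    rw [h.et]
    linear_combination h2 + h1
  have e2 : (T - u) * Real.sin u + Y * Real.cos u < Y * Real.exp Y := by
    have h1 := sin_le5 hu0
    have h2 := cos_le4 hu0
    have h3 := hM u hu0 hu1
    have h4 : (T - u) * Real.sin u ≤ (T - u) * (u - u ^ 3 / 6 + u ^ 5 / 120) :=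
      mul_le_mul_of_nonneg_left h1 (by linarith)
    have h5 : Y * Real.cos u ≤ Y * (1 - u ^ 2 / 2 + u ^ 4 / 24) := mul_le_mul_of_nonneg_left h2 hY
    linarith
  have e3 : Real.exp Y < Real.exp y := Real.exp_lt_exp.2 hcon
  have e4 : Real.cos u ≤ Real.exp Y := (Real.cos_le_one u).trans (Real.one_le_exp hY)
  have e5 : Y * (Real.exp Y - Real.cos u) ≤ y * (Real.exp y - Real.cos u) :=
    mul_le_mul hcon.le (by linarith) (by linarith) h.y0
  have e6 : (τ - u) * Real.sin u ≤ (T - u) * Real.sin u := mul_le_mul_of_nonneg_right (by linarith) hs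
  rw [e1] at e5
  linarith

theorem RS.y_le68 (h : RS κ τ x y u) (hτ : τ ≤ 1.95) : y ≤ 0.68 := by
  refine h.y_le hτ (by norm_num) (m := 1.3421) ?_ (by norm_num) ?_
  · have : (1.97375 : ℝ) ≤ Real.exp 0.68 := ep (by norm_num) (by norm_num)
    linarith
  · intro u h0 h1
    nlinarith [sq_nonneg (u - 0.6624), mul_nonneg h0 (sq_nonneg (u - 0.6624)), mul_nonneg (mul_nonneg h0 h0) (sq_nonneg (u - 0.6624)), mul_nonneg h0 (sub_nonneg.2 h1), mul_nonneg (mul_nonneg h0 (sub_nonneg.2 h1)) (sq_nonneg (u - 0.6624)), sq_nonneg (u*(u - 0.6624)), sq_nonneg (u^2*(u - 0.6624))]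

theorem RS.y_le60 (h : RS κ τ x y u) (hτ : τ ≤ 1.6) : y ≤ 0.6 := by
  refine h.y_le hτ (by norm_num) (m := 1.093) ?_ (by norm_num) ?_
  · have : (1.822 : ℝ) ≤ Real.exp 0.6 := ep (by norm_num) (by norm_num)
    linarith
  · intro u h0 h1
    nlinarith [sq_nonneg (u - 0.59), mul_nonneg h0 (sq_nonneg (u - 0.59)), mul_nonneg (mul_nonneg h0 h0) (sq_nonneg (u - 0.59)), mul_nonneg h0 (sub_nonneg.2 h1), mul_nonneg (mul_nonneg h0 (sub_nonneg.2 h1)) (sq_nonneg (u - 0.59)), sq_nonneg (u*(u - 0.59)), sq_nonneg (u^2*(u - 0.59))]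

theorem RS.y_le52 (h : RS κ τ x y u) (hτ : τ ≤ 1.3) : y ≤ 0.52 := by
  refine h.y_le hτ (by norm_num) (m := 0.874) ?_ (by norm_num) ?_
  · have : (1.682 : ℝ) ≤ Real.exp 0.52 := ep (by norm_num) (by norm_num)
    linarith
  · intro u h0 h1
    nlinarith [sq_nonneg (u - 0.53), mul_nonneg h0 (sq_nonneg (u - 0.53)), mul_nonneg (mul_nonneg h0 h0) (sq_nonneg (u - 0.53)), mul_nonneg h0 (sub_nonneg.2 h1), mul_nonneg (mul_nonneg h0 (sub_nonneg.2 h1)) (sq_nonneg (u - 0.53)), sq_nonneg (u*(u - 0.53)), sq_nonneg (u^2*(u - 0.53))]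

/-- lower bound of `y` -/
theorem RS.y_ge {Y0 m E0 u0 c k1 τ0 : ℝ} (h : RS κ τ x y u) (hk1 : k1 ≤ κ) (hm : Y0 * Real.exp Y0 ≤ m)
    (hE : E0 ≤ Real.exp (-Y0)) (hE0 : 0 ≤ E0) (hu0 : 0 ≤ u0) (hu1 : u0 ≤ 1.2)
    (hz : m ≤ (u0 - u0 ^ 3 / 6) * k1) (hc0 : 0 ≤ c) (hc : 1 ≤ c * (1 - u0 ^ 2 / 6)) (hτ : τ0 ≤ τ)
    (hfin : (1 - E0) * κ ^ 2 + (c * m + E0 * (c * m) ^ 2 / 2) < τ0 * κ) : Y0 ≤ y := by
  by_contra hcon
  push Not at hcon
  have hκ := h.kpos
  have hy0 := h.y0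
  have hpi := Real.pi_gt_d2
  have hu0' := h.u0
  have hs := h.sin_nonneg
  have hcp := h.cos_pos
  have h1 : κ * Real.sin u < m := by
    rw [← h.ey]
    refine lt_of_lt_of_le ?_ hm
    have e1 : Real.exp y ≤ Real.exp Y0 := Real.exp_le_exp.2 hcon.le
    have e2 := Real.exp_pos Y0
    nlinarith [Real.exp_pos y]
  have hz0 : 0 ≤ u0 - u0 ^ 3 / 6 := by nlinarith [sq_nonneg u0]
  have h2 : Real.sin u < Real.sin u0 := by
    have h3 : κ * Real.sin u < (u0 - u0 ^ 3 / 6) * κ := by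
      have : (u0 - u0 ^ 3 / 6) * k1 ≤ (u0 - u0 ^ 3 / 6) * κ := mul_le_mul_of_nonneg_left hk1 hz0
      linarith
    have h4 : Real.sin u < u0 - u0 ^ 3 / 6 := by
      rw [mul_comm] at h3
      exact lt_of_mul_lt_mul_right h3 hκ.le
    exact h4.trans_le (sin_ge3 hu0)
  have h3 : u < u0 := by
    by_contra hc2
    push Not at hc2
    have := Real.sin_le_sin_of_le_of_le_pi_div_two (by linarith : -(Real.pi / 2) ≤ u0) (by linarith [h.u1]) hc2
    linarith
  have h4 : u ≤ c * Real.sin u := by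
    have e1 := sin_ge3 hu0'
    have e2 : u * (1 - u0 ^ 2 / 6) ≤ Real.sin u := by nlinarith [mul_nonneg hu0' (mul_nonneg (sub_nonneg.2 h3.le) (by linarith : 0 ≤ u0 + u))]
    have e3 : c * (u * (1 - u0 ^ 2 / 6)) ≤ c * Real.sin u := mul_le_mul_of_nonneg_left e2 hc0
    nlinarith
  have h5 : κ * u ≤ c * m := by
    have e1 : κ * u ≤ κ * (c * Real.sin u) := mul_le_mul_of_nonneg_left h4 hκ.le
    nlinarith
  have h6 : E0 * κ * (1 - u ^ 2 / 2) ≤ x := by
    have e1 : x = κ * Real.exp (-y) * Real.cos u := by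
      have := h.ex
      rw [Real.exp_neg]
      field_simp
      linarith
    have e2 : E0 ≤ Real.exp (-y) := hE.trans (Real.exp_le_exp.2 (by linarith))
    have e3 := Real.one_sub_sq_div_two_le_cos (x := u)
    rw [e1]
    calc E0 * κ * (1 - u ^ 2 / 2) ≤ E0 * κ * Real.cos u := mul_le_mul_of_nonneg_left e3 (by positivity)
      _ ≤ Real.exp (-y) * κ * Real.cos u := by gcongr
      _ = _ := by ring
  have h7 : τ * κ ≤ c * m + (1 - E0) * κ ^ 2 + E0 * (c * m) ^ 2 / 2 := by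
    rw [h.et]
    have e1 : (κ * u) ^ 2 ≤ (c * m) ^ 2 := by
      have : 0 ≤ κ * u := by positivity
      gcongr
    have e2 : E0 * κ * (1 - u ^ 2 / 2) * κ ≤ x * κ := mul_le_mul_of_nonneg_right h6 hκ.le
    nlinarith
  have h8 : τ0 * κ ≤ τ * κ := mul_le_mul_of_nonneg_right hτ hκ.le
  linarith

theorem RS.y_ge40 (h : RS κ τ x y u) (h1 : 1 ≤ κ) (h2 : κ ≤ 3) (hτ : 1.3 ≤ τ) : 0.4 ≤ y := by
  refine h.y_ge (k1 := 1) (m := 0.59676) (E0 := 0.6703) (u0 := 0.7) (c := 1.089) (τ0 := 1.3) h1 ?_ ?_ (by norm_num)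
    (by norm_num) (by norm_num) (by norm_num) (by norm_num) (by norm_num) hτ (by nlinarith)
  · have := eu (G := 0.4) (b := 1.4919) (by norm_num) (by norm_num) (by norm_num)
    linarith
  · exact eln (by norm_num) (by norm_num) (by norm_num) (by norm_num)

theorem RS.y_ge42 (h : RS κ τ x y u) (h1 : 1 ≤ κ) (h2 : κ ≤ 1.6) (hτ : 1.3 ≤ τ) : 0.42 ≤ y := by
  refine h.y_ge (k1 := 1) (m := 0.6393) (E0 := 0.657) (u0 := 0.7) (c := 1.089) (τ0 := 1.3) h1 ?_ ?_ (by norm_num)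
    (by norm_num) (by norm_num) (by norm_num) (by norm_num) (by norm_num) hτ (by nlinarith)
  · have := eu (G := 0.42) (b := 1.522) (by norm_num) (by norm_num) (by norm_num)
    linarith
  · exact eln (by norm_num) (by norm_num) (by norm_num) (by norm_num)

theorem RS.y_ge45 (h : RS κ τ x y u) (h1 : 1.6 ≤ κ) (h2 : κ ≤ 2.2) (hτ : 1.3 ≤ τ) : 0.45 ≤ y := by
  refine h.y_ge (k1 := 1.6) (m := 0.7058) (E0 := 0.6376) (u0 := 0.46) (c := 1.037) (τ0 := 1.3) h1 ?_ ?_ (by norm_num)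
    (by norm_num) (by norm_num) (by norm_num) (by norm_num) (by norm_num) hτ (by nlinarith)
  · have := eu (G := 0.45) (b := 1.5684) (by norm_num) (by norm_num) (by norm_num)
    linarith
  · exact eln (by norm_num) (by norm_num) (by norm_num) (by norm_num)

theorem RS.y_ge51 (h : RS κ τ x y u) (h1 : 2.2 ≤ κ) (h2 : κ ≤ 3) (hτ : 1.6 ≤ τ) : 0.51 ≤ y := by
  refine h.y_ge (k1 := 2.2) (m := 0.8494) (E0 := 0.6004) (u0 := 0.4) (c := 1.028) (τ0 := 1.6) h1 ?_ ?_ (by norm_num)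
    (by norm_num) (by norm_num) (by norm_num) (by norm_num) (by norm_num) hτ (by nlinarith)
  · have := eu (G := 0.51) (b := 1.6654) (by norm_num) (by norm_num) (by norm_num)
    linarith
  · exact eln (by norm_num) (by norm_num) (by norm_num) (by norm_num)

theorem RS.y_ge50 (h : RS κ τ x y u) (h1 : 1 ≤ κ) (h2 : κ ≤ 1.6) (hτ : 1.95 ≤ τ) : 0.5 ≤ y := by
  refine h.y_ge (k1 := 1) (m := 0.8245) (E0 := 0.6064) (u0 := 0.99) (c := 1.1955) (τ0 := 1.95) h1 ?_ ?_ (by norm_num)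
    (by norm_num) (by norm_num) (by norm_num) (by norm_num) (by norm_num) hτ (by nlinarith)
  · have := eu (G := 0.5) (b := 1.649) (by norm_num) (by norm_num) (by norm_num)
    linarith
  · exact eln (by norm_num) (by norm_num) (by norm_num) (by norm_num)

theorem RS.y_ge60 (h : RS κ τ x y u) (h1 : 1.6 ≤ κ) (h2 : κ ≤ 3) (hτ : 1.95 ≤ τ) : 0.6 ≤ y := by
  refine h.y_ge (k1 := 1.6) (m := 1.0934) (E0 := 0.5487) (u0 := 0.76) (c := 1.1066) (τ0 := 1.95) h1 ?_ ?_ (by norm_num)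
    (by norm_num) (by norm_num) (by norm_num) (by norm_num) (by norm_num) hτ (by nlinarith)
  · have := eu (G := 0.6) (b := 1.8223) (by norm_num) (by norm_num) (by norm_num)
    linarith
  · exact eln (by norm_num) (by norm_num) (by norm_num) (by norm_num)

private theorem cosq {t : ℝ} (g0 : -0.171 ≤ t) (g1 : t ≤ 0.171) : 0.5388 - 0.8415 * t - 0.2702 * t ^ 2 ≤ Real.cos (1 + t) := by
  refine le_trans ?_ (cos_ge6 (by linarith : 0 ≤ 1 + t))
  have h2 : t ^ 2 ≤ 0.0293 := by nlinarith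
  have h3 : -0.171 * t ^ 2 ≤ t ^ 3 := by nlinarith [sq_nonneg t]
  have h3' : t ^ 3 ≤ 0.171 * t ^ 2 := by nlinarith [sq_nonneg t]
  have h4 : 0 ≤ t ^ 4 := by positivity
  have h5 : t ^ 5 ≤ 0.171 * t ^ 4 := by nlinarith [h4]
  have h6 : t ^ 6 ≤ 0.0293 * t ^ 4 := by nlinarith [h4]
  have h2' := sq_nonneg t
  nlinarith
private theorem sinq {t : ℝ} (g0 : -0.171 ≤ t) (g1 : t ≤ 0.171) : Real.sin (1 + t) ≤ 0.8425 + 0.5404 * t - 0.4207 * t ^ 2 := by
  refine le_trans (sin_le5 (by linarith : 0 ≤ 1 + t)) ?_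
  have h2 : t ^ 2 ≤ 0.0293 := by nlinarith
  have h3 : -0.171 * t ^ 2 ≤ t ^ 3 := by nlinarith [sq_nonneg t]
  have h3' : t ^ 3 ≤ 0.171 * t ^ 2 := by nlinarith [sq_nonneg t]
  have h4 : 0 ≤ t ^ 4 := by positivity
  have h4' : t ^ 4 ≤ 0.0293 * t ^ 2 := by nlinarith [sq_nonneg t]
  have h5 : t ^ 5 ≤ 0.171 * t ^ 4 := by nlinarith [h4]
  have h2' := sq_nonneg t
  nlinarith
private theorem polyA {t κ : ℝ} (ht : t = 0.725 - 0.56 * κ) (_g0 : -0.171 ≤ t) (g1 : t ≤ 0.165) :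
    (0.44 * κ - 0.225) * (0.8425 + 0.5404 * t - 0.4207 * t ^ 2) ≤ 0.57 * (0.5388 - 0.8415 * t - 0.2702 * t ^ 2) := by
  have hκ : κ = 0.725 / 0.56 - t * (1 / 0.56) := by norm_num at ht ⊢; linarith
  rw [hκ]
  have e1 : 0 ≤ t ^ 2 * (0.165 - t) := mul_nonneg (sq_nonneg t) (by linarith)
  have e2 : 0 ≤ t ^ 2 := sq_nonneg t
  norm_num at *
  nlinarith
private theorem polyB {t κ : ℝ} (ht : t = 0.725 - 0.56 * κ) (g0 : -0.171 ≤ t) (g1 : t ≤ 0.165) :
    1.7683 * (0.44 * κ - 0.225) ≤ κ * (0.5388 - 0.8415 * t - 0.2702 * t ^ 2) := by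
  have hκ : κ = 0.725 / 0.56 - t * (1 / 0.56) := by norm_num at ht ⊢; linarith
  rw [hκ]
  have e1 : 0 ≤ t ^ 2 * (t + 0.171) := mul_nonneg (sq_nonneg t) (by linarith)
  have e2 : 0 ≤ t ^ 2 := sq_nonneg t
  norm_num at *
  nlinarith

theorem RS.x_geI (h : RS κ τ x y u) (h1 : 1 ≤ κ) (h2 : κ ≤ 1.6) (hτ : τ ≤ 1.95) : 0.44 * κ - 0.225 ≤ x := by
  by_contra hcon
  push Not at hcon
  obtain ⟨t, ht⟩ : ∃ t : ℝ, t = 0.725 - 0.56 * κ := ⟨_, rfl⟩
  have g0 : -0.171 ≤ t := by rw [ht]; linarith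
  have g1 : t ≤ 0.165 := by rw [ht]; linarith
  have hpi := Real.pi_gt_d2
  have hx0 := h.x0
  have hu0 := h.u0
  have hκ := h.kpos
  have hu : u ≤ 1 + t := by
    have := h.et
    linarith
  have hc1 : Real.cos (1 + t) ≤ Real.cos u := Real.cos_le_cos_of_nonneg_of_le_pi hu0 (by linarith) hu
  have hs1 : Real.sin u ≤ Real.sin (1 + t) :=
    Real.sin_le_sin_of_le_of_le_pi_div_two (by linarith) (by linarith) hu
  have c1 := cosq g0 (by linarith)
  have s1 := sinq g0 (by linarith)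
  have hA := polyA ht g0 g1
  have hB := polyB ht g0 g1
  have hcpos : 0 < Real.cos (1 + t) := Real.cos_pos_of_mem_Ioo ⟨by linarith, by linarith⟩
  have hsn := h.sin_nonneg
  have hy : y ≤ 0.57 := by
    have e1 : y * Real.cos (1 + t) ≤ 0.57 * Real.cos (1 + t) := by
      calc y * Real.cos (1 + t) ≤ y * Real.cos u := mul_le_mul_of_nonneg_left hc1 h.y0
        _ = x * Real.sin u := h.xs.symm
        _ ≤ (0.44 * κ - 0.225) * Real.sin u := mul_le_mul_of_nonneg_right hcon.le hsn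
        _ ≤ (0.44 * κ - 0.225) * (0.8425 + 0.5404 * t - 0.4207 * t ^ 2) :=
            mul_le_mul_of_nonneg_left (hs1.trans s1) (by linarith)
        _ ≤ _ := hA
        _ ≤ _ := mul_le_mul_of_nonneg_left c1 (by norm_num)
    exact le_of_mul_le_mul_right e1 hcpos
  have he : Real.exp y ≤ 1.7683 := (Real.exp_le_exp.2 hy).trans (eu (by norm_num) (by norm_num) (by norm_num))
  have e2 : κ * (0.5388 - 0.8415 * t - 0.2702 * t ^ 2) ≤ x * Real.exp y := by
    rw [h.ex]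
    exact mul_le_mul_of_nonneg_left (c1.trans hc1) hκ.le
  have e3 : x * Real.exp y ≤ x * 1.7683 := mul_le_mul_of_nonneg_left he hx0.le
  nlinarith

theorem RS.y_leI (h : RS κ τ x y u) (h1 : 1 ≤ κ) (h2 : κ ≤ 1.6) (hτ : τ ≤ 1.95) : y ≤ 0.355 + 0.2 * κ := by
  have hx := h.x_geI h1 h2 hτ
  by_contra hcon
  push Not at hcon
  obtain ⟨k, hk⟩ : ∃ k : ℝ, k = κ - 1 := ⟨_, rfl⟩
  have hκk : κ = 1 + k := by linarith
  have k0 : 0 ≤ k := by linarith
  have k1 : k ≤ 0.6 := by linarith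
  have hsq := h.sq
  have e1 : Real.exp (-y) ≤ 0.5741 * (1 - 0.2 * k + (0.2 * k) ^ 2 / 2) := by
    have e2 : Real.exp (-y) ≤ Real.exp (-(0.555 : ℝ) + -(0.2 * k)) := Real.exp_le_exp.2 (by linarith)
    rw [Real.exp_add] at e2
    have e3 : Real.exp (-(0.555 : ℝ)) ≤ 0.5741 := en (by norm_num) (by norm_num)
    have e4 := exp_neg_le_quad (d := 0.2 * k) (by positivity)
    refine e2.trans (mul_le_mul e3 e4 (Real.exp_pos _).le (by norm_num))
  have e5 : x ^ 2 + y ^ 2 = κ ^ 2 * Real.exp (-y) ^ 2 := by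
    rw [← hsq]
    have : Real.exp y * Real.exp (-y) = 1 := by rw [← Real.exp_add]; simp
    calc x ^ 2 + y ^ 2 = (x ^ 2 + y ^ 2) * (Real.exp y * Real.exp (-y)) ^ 2 := by rw [this]; ring
      _ = _ := by ring
  have e6 : κ ^ 2 * Real.exp (-y) ^ 2 ≤ κ ^ 2 * (0.5741 * (1 - 0.2 * k + (0.2 * k) ^ 2 / 2)) ^ 2 := by
    have := Real.exp_pos (-y)
    gcongr
  have e7 : (0.215 + 0.44 * k) ^ 2 ≤ x ^ 2 := by
    have : 0 ≤ 0.215 + 0.44 * k := by positivity
    have : 0.215 + 0.44 * k ≤ x := by linarith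
    gcongr
  have e8 : (0.555 + 0.2 * k) ^ 2 < y ^ 2 := by
    have : 0 ≤ 0.555 + 0.2 * k := by positivity
    have : 0.555 + 0.2 * k < y := by linarith
    gcongr
  rw [hκk] at e6 e5
  have e9 : (1 + k) ^ 2 * (0.5741 * (1 - 0.2 * k + (0.2 * k) ^ 2 / 2)) ^ 2 ≤ (0.215 + 0.44 * k) ^ 2 + (0.555 + 0.2 * k) ^ 2 := by
    have f0 : (1 + k) * (0.5741 * (1 - 0.2 * k + (0.2 * k) ^ 2 / 2)) ≤ 0.5741 * (1 + 0.8 * k - 0.17 * k ^ 2) := by
      nlinarith [mul_nonneg (sq_nonneg k) (sub_nonneg.2 k1), sq_nonneg k]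
    have f1 : 0 ≤ (1 + k) * (0.5741 * (1 - 0.2 * k + (0.2 * k) ^ 2 / 2)) := by nlinarith [sq_nonneg k]
    have f2 : ((1 + k) * (0.5741 * (1 - 0.2 * k + (0.2 * k) ^ 2 / 2))) ^ 2 ≤ (0.5741 * (1 + 0.8 * k - 0.17 * k ^ 2)) ^ 2 := by
      gcongr
    have f3 : (0.5741 * (1 + 0.8 * k - 0.17 * k ^ 2)) ^ 2 ≤ (0.215 + 0.44 * k) ^ 2 + (0.555 + 0.2 * k) ^ 2 := by
      nlinarith [sq_nonneg (k - 0.35), mul_nonneg k0 (sq_nonneg (k - 0.35)), mul_nonneg (sq_nonneg k) (sub_nonneg.2 k1), mul_nonneg k0 (sub_nonneg.2 k1)]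
    calc (1 + k) ^ 2 * (0.5741 * (1 - 0.2 * k + (0.2 * k) ^ 2 / 2)) ^ 2 = ((1 + k) * (0.5741 * (1 - 0.2 * k + (0.2 * k) ^ 2 / 2))) ^ 2 := by ring
      _ ≤ _ := f2.trans f3
  linarith

/-- the norm of the saddle -/
theorem RS.normsq (h : RS κ τ x y u) : x ^ 2 + y ^ 2 = κ ^ 2 * Real.exp (-y) ^ 2 := by
  rw [← h.sq]
  have : Real.exp y * Real.exp (-y) = 1 := by rw [← Real.exp_add]; simp
  calc x ^ 2 + y ^ 2 = (x ^ 2 + y ^ 2) * (Real.exp y * Real.exp (-y)) ^ 2 := by rw [this]; ring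
    _ = _ := by ring

/-- `x ≥ p κ + q` from `y ≤ Y` -/
theorem RS.x_ge_of_y {Y E p q : ℝ} (h : RS κ τ x y u) (hy : y ≤ Y) (hE : E ≤ Real.exp (-Y)) (hE0 : 0 ≤ E)
    (hpq : (p * κ + q) ^ 2 ≤ κ ^ 2 * E ^ 2 - Y ^ 2) : p * κ + q ≤ x := by
  have h1 := h.normsq
  have h2 : E ≤ Real.exp (-y) := hE.trans (Real.exp_le_exp.2 (by linarith))
  have h3 : κ ^ 2 * E ^ 2 ≤ κ ^ 2 * Real.exp (-y) ^ 2 := by gcongr
  have h4 : y ^ 2 ≤ Y ^ 2 := by
    have := h.y0
    gcongr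
  exact le_of_sq_le_sq' h.x0.le (by linarith)

end R

/-- existence of the right saddle -/
theorem exR {κ θ : ℝ} (h1 : 1 ≤ κ) (hτ0 : 0 ≤ θ + κ) (hτ1 : θ + κ ≤ 1.95) :
    ∃ x y : ℝ, x = κ * Real.exp (-y) * Real.cos (θ + x) ∧ y = κ * Real.exp (-y) * Real.sin (θ + x) ∧
      0 < x ∧ 0 ≤ y ∧ 0 ≤ θ + x ∧ θ + x ≤ 1.2 := by
  have hpi := Real.pi_gt_d2
  obtain ⟨a, ha⟩ : ∃ a : ℝ, a = max θ 0 := ⟨_, rfl⟩
  have ha0 : 0 ≤ a := by rw [ha]; exact le_max_right _ _
  have haθ : θ ≤ a := by rw [ha]; exact le_max_left _ _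
  have ha1 : a ≤ 0.95 := by rw [ha]; exact max_le (by linarith) (by norm_num)
  have hcos : ∀ u ∈ Icc a 1.2, 0 < Real.cos u := by
    rintro u ⟨hu0, hu1⟩
    exact Real.cos_pos_of_mem_Ioo ⟨by linarith, by linarith⟩
  have hcont : ContinuousOn (fun u : ℝ => (u - θ) * Real.exp ((u - θ) * Real.tan u) - κ * Real.cos u) (Icc a 1.2) := by
    have ht : ContinuousOn Real.tan (Icc a 1.2) := Real.continuousOn_tan.mono fun u hu => (hcos u hu).ne'
    have hl : ContinuousOn (fun u : ℝ => u - θ) (Icc a 1.2) := (continuous_id.sub continuous_const).continuousOn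
    exact (hl.mul (Real.continuous_exp.comp_continuousOn (hl.mul ht))).sub
      (continuous_const.mul Real.continuous_cos).continuousOn
  have hleft : (a - θ) * Real.exp ((a - θ) * Real.tan a) - κ * Real.cos a ≤ 0 := by
    rcases le_total θ 0 with h | h
    · have : a = 0 := by rw [ha]; exact max_eq_right h
      rw [this]
      simp
      linarith
    · have : a = θ := by rw [ha]; exact max_eq_left h
      have hc := hcos a ⟨le_rfl, by linarith⟩
      rw [this] at hc ⊢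
      simp
      positivity
  have hright : 0 ≤ (1.2 - θ) * Real.exp ((1.2 - θ) * Real.tan 1.2) - κ * Real.cos 1.2 := by
    have c1 : Real.cos 1.2 ≤ 0.3665 := (cos_le4 (by norm_num)).trans (by norm_num)
    have c0 := hcos 1.2 ⟨by linarith, le_rfl⟩
    have s1 : 0.912 ≤ Real.sin 1.2 := le_trans (by norm_num) (sin_ge3 (by norm_num))
    have t1 : 2.4 ≤ Real.tan 1.2 := by
      rw [Real.tan_eq_sin_div_cos, le_div_iff₀ c0]
      nlinarith
    obtain ⟨z, hz⟩ : ∃ z : ℝ, z = 1.2 - θ := ⟨_, rfl⟩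
    rw [← hz]
    have hz1 : κ ≤ z + 0.75 := by linarith
    have hz2 : 0.25 ≤ z := by linarith
    have e1 : 1 + 2.4 * z + (2.4 * z) ^ 2 / 2 ≤ Real.exp (z * Real.tan 1.2) := by
      have e2 := Real.quadratic_le_exp_of_nonneg (x := 2.4 * z) (by linarith)
      refine e2.trans (Real.exp_le_exp.2 ?_)
      nlinarith
    have e3 : z * (1 + 2.4 * z + (2.4 * z) ^ 2 / 2) ≤ z * Real.exp (z * Real.tan 1.2) :=
      mul_le_mul_of_nonneg_left e1 (by linarith)
    have e4 : κ * Real.cos 1.2 ≤ (z + 0.75) * 0.3665 := mul_le_mul hz1 c1 c0.le (by linarith)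
    nlinarith [mul_nonneg (sub_nonneg.2 hz2) (sub_nonneg.2 hz2), mul_nonneg (mul_nonneg (sub_nonneg.2 hz2) (sub_nonneg.2 hz2)) (sub_nonneg.2 hz2)]
  obtain ⟨u, ⟨hu0, hu1⟩, hu⟩ := intermediate_value_Icc (by linarith : a ≤ 1.2) hcont ⟨hleft, hright⟩
  have hc := hcos u ⟨hu0, hu1⟩
  have hu : (u - θ) * Real.exp ((u - θ) * Real.tan u) = κ * Real.cos u := by
    have : (u - θ) * Real.exp ((u - θ) * Real.tan u) - κ * Real.cos u = 0 := hu
    linarith
  obtain ⟨y, hy⟩ : ∃ y : ℝ, y = (u - θ) * Real.tan u := ⟨_, rfl⟩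
  rw [← hy] at hu
  have hx : u - θ = κ * Real.exp (-y) * Real.cos u := by
    rw [Real.exp_neg]
    have := Real.exp_pos y
    field_simp
    linarith
  have hθu : θ + (u - θ) = u := by ring
  refine ⟨u - θ, y, ?_, ?_, ?_, ?_, ?_, ?_⟩
  · rw [hθu]; exact hx
  · rw [hθu]
    calc y = (u - θ) * Real.tan u := hy
      _ = κ * Real.exp (-y) * Real.cos u * Real.tan u := by rw [← hx]
      _ = κ * Real.exp (-y) * Real.sin u := by
          rw [Real.tan_eq_sin_div_cos]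
          field_simp
  · rw [hx]
    have := Real.exp_pos (-y)
    positivity
  · rw [hy]
    have h3 : 0 ≤ Real.tan u := by
      apply Real.tan_nonneg_of_nonneg_of_le_pi_div_two (by linarith) (by linarith)
    have h4 : 0 ≤ u - θ := by linarith
    positivity
  · linarith
  · linarith


/-! ### the left saddle -/

/-- the standing facts of the left saddle: `v = -(θ + x)`, `s = -(θ + κ)`, height `-w` -/
structure LS (κ s x w v : ℝ) : Prop where
  ex : x = κ * Real.exp w * Real.cos v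
  ew : w = κ * Real.exp w * Real.sin v
  es : s = x + v - κ
  v0 : 0 ≤ v
  v1 : v ≤ Real.pi / 2
  w0 : 0 ≤ w
  w1 : w ≤ 0.98

theorem LS.of_sad {β r θ x w : ℝ} (h : Sad β r θ x (-w)) (hw0 : 0 ≤ w) (hw1 : w ≤ 0.98) (h0 : θ + x ≤ 0)
    (h1 : -(Real.pi / 2) ≤ θ + x) : LS (β * r) (-(θ + β * r)) x w (-(θ + x)) := by
  have e1 := h.hx
  have e2 := h.hy
  rw [neg_neg] at e1 e2
  refine ⟨?_, ?_, by ring, by linarith, by linarith, hw0, hw1⟩
  · rw [Real.cos_neg]; exact e1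
  · rw [Real.sin_neg]; linarith

/-- existence of the left saddle -/
theorem exL {κ θ : ℝ} (h1 : 1 ≤ κ) (hs0 : 0 ≤ -(θ + κ)) (hs1 : -(θ + κ) ≤ 1.8416) :
    ∃ x w : ℝ, x = κ * Real.exp w * Real.cos (θ + x) ∧ -w = κ * Real.exp w * Real.sin (θ + x) ∧
      0 ≤ w ∧ w ≤ 0.98 ∧ θ + x ≤ 0 ∧ -(Real.pi / 2) ≤ θ + x := by
  have hκ : 0 < κ := by linarith
  have hcont : ContinuousOn (fun w : ℝ => Real.sqrt (κ ^ 2 * Real.exp w ^ 2 - w ^ 2) +
      Real.arcsin (w * Real.exp (-w) / κ) - κ) (Icc 0 0.98) := by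
    apply Continuous.continuousOn
    have : Continuous fun w : ℝ => Real.arcsin (w * Real.exp (-w) / κ) :=
      Real.continuous_arcsin.comp (by fun_prop)
    fun_prop
  have hleft : Real.sqrt (κ ^ 2 * Real.exp 0 ^ 2 - 0 ^ 2) + Real.arcsin (0 * Real.exp (-0) / κ) - κ ≤ -(θ + κ) := by
    simp [Real.sqrt_sq hκ.le]
    linarith
  have hright : -(θ + κ) ≤ Real.sqrt (κ ^ 2 * Real.exp 0.98 ^ 2 - 0.98 ^ 2) +
      Real.arcsin (0.98 * Real.exp (-0.98) / κ) - κ := by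
    have e1 : (2.66445 : ℝ) ≤ Real.exp 0.98 := ep (by norm_num) (by norm_num)
    have e2 : (2.66446 : ℝ) ≥ Real.exp 0.98 := by
      have := Real.exp_bound' (x := 0.98) (by norm_num) (by norm_num) (n := 8) (by norm_num)
      simp only [Finset.sum_range_succ, Finset.sum_range_zero, Nat.factorial] at this
      norm_num at this ⊢
      linarith
    have e3 : 2.4776 * κ ≤ Real.sqrt (κ ^ 2 * Real.exp 0.98 ^ 2 - 0.98 ^ 2) := by
      apply Real.le_sqrt_of_sq_le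
      have e4 : (2.66445 : ℝ) ^ 2 ≤ Real.exp 0.98 ^ 2 := by gcongr
      have e5 : κ ^ 2 * (2.66445 : ℝ) ^ 2 ≤ κ ^ 2 * Real.exp 0.98 ^ 2 := by gcongr
      nlinarith
    have e6 : 0.3678 / κ ≤ Real.arcsin (0.98 * Real.exp (-0.98) / κ) := by
      have e7 : 0.3678 / κ ≤ 0.98 * Real.exp (-0.98) / κ := by
        have : (0.3678 : ℝ) ≤ 0.98 * Real.exp (-0.98) := by
          rw [Real.exp_neg, ← div_eq_mul_inv, le_div_iff₀ (Real.exp_pos _)]
          linarith
        gcongr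
      refine e7.trans ?_
      have e8 : 0 ≤ 0.98 * Real.exp (-0.98) / κ := by positivity
      rcases le_or_gt (0.98 * Real.exp (-0.98) / κ) 1 with h | h
      · have := Real.arcsin_nonneg.2 e8
        have e9 := Real.sin_le this
        rwa [Real.sin_arcsin (by linarith) h] at e9
      · exfalso
        have : 0.98 * Real.exp (-0.98) / κ ≤ 1 := by
          rw [div_le_one hκ]
          have : Real.exp (-0.98) ≤ 1 := Real.exp_le_one_iff.2 (by norm_num)
          linarith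
        linarith
    have e10 : 1.8455 ≤ 1.4776 * κ + 0.3678 / κ + 0.0002 := by
      have : 0.3678 / κ = 0.3678 * (1 / κ) := by ring
      have h3 : κ * (1 / κ) = 1 := by field_simp
      have h4 : 0 < 1 / κ := by positivity
      have h5 : 1 / κ ≤ 1 := by rw [div_le_one hκ]; exact h1
      rw [this]
      nlinarith
    linarith
  obtain ⟨w, ⟨hw0, hw1⟩, hw⟩ := intermediate_value_Icc (by norm_num : (0 : ℝ) ≤ 0.98) hcont ⟨hleft, hright⟩
  have hw : Real.sqrt (κ ^ 2 * Real.exp w ^ 2 - w ^ 2) + Real.arcsin (w * Real.exp (-w) / κ) - κ = -(θ + κ) := hw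
  obtain ⟨x, hx⟩ : ∃ x : ℝ, x = Real.sqrt (κ ^ 2 * Real.exp w ^ 2 - w ^ 2) := ⟨_, rfl⟩
  obtain ⟨v, hv⟩ : ∃ v : ℝ, v = Real.arcsin (w * Real.exp (-w) / κ) := ⟨_, rfl⟩
  rw [← hx, ← hv] at hw
  have hz0 : 0 ≤ w * Real.exp (-w) / κ := by positivity
  have hz1 : w * Real.exp (-w) / κ ≤ 1 := by
    rw [div_le_one hκ]
    have : Real.exp (-w) ≤ 1 := Real.exp_le_one_iff.2 (by linarith)
    have := Real.exp_pos (-w)
    nlinarith
  have hsin : Real.sin v = w * Real.exp (-w) / κ := by rw [hv]; exact Real.sin_arcsin (by linarith) hz1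
  have hcos : Real.cos v = Real.sqrt (1 - (w * Real.exp (-w) / κ) ^ 2) := by rw [hv]; exact Real.cos_arcsin _
  have hee : Real.exp w * Real.exp (-w) = 1 := by rw [← Real.exp_add]; simp
  have hxe : x = κ * Real.exp w * Real.cos v := by
    have hp : 0 ≤ κ * Real.exp w := by positivity
    rw [hx, hcos, ← Real.sqrt_sq hp, ← Real.sqrt_mul (by positivity)]
    congr 1
    have : (κ * Real.exp w) ^ 2 * (1 - (w * Real.exp (-w) / κ) ^ 2) =
        κ ^ 2 * Real.exp w ^ 2 - w ^ 2 * (Real.exp w * Real.exp (-w)) ^ 2 := by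
      field_simp
    rw [this, hee]
    ring
  have hwe : w = κ * Real.exp w * Real.sin v := by
    rw [hsin]
    have : κ * Real.exp w * (w * Real.exp (-w) / κ) = w * (Real.exp w * Real.exp (-w)) := by field_simp
    rw [this, hee, mul_one]
  have hθ : θ + x = -v := by linarith
  have hv0 : 0 ≤ v := by rw [hv]; exact Real.arcsin_nonneg.2 hz0
  have hv1 : v ≤ Real.pi / 2 := by rw [hv]; exact Real.arcsin_le_pi_div_two _
  refine ⟨x, w, ?_, ?_, hw0, hw1, by linarith, by linarith⟩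
  · rw [hθ, Real.cos_neg]; exact hxe
  · rw [hθ, Real.sin_neg]; linarith


section L
variable {κ s x w v : ℝ}

theorem mul_exp_neg_le (w : ℝ) : w * Real.exp (-w) ≤ 0.3679 := by
  have h1 := Real.add_one_le_exp (w - 1)
  have h2 : Real.exp (w - 1) * Real.exp (-w) = Real.exp (-1) := by rw [← Real.exp_add]; congr 1; ring
  have h3 := Real.exp_neg_one_lt_d9
  have h4 : w * Real.exp (-w) ≤ Real.exp (w - 1) * Real.exp (-w) :=
    mul_le_mul_of_nonneg_right (by linarith) (Real.exp_pos _).le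
  rw [h2] at h4
  linarith

theorem LS.sin_eq (h : LS κ s x w v) (hκ : 0 < κ) : κ * Real.sin v = w * Real.exp (-w) := by
  have h1 := h.ew
  have hee : Real.exp w * Real.exp (-w) = 1 := by rw [← Real.exp_add]; simp
  calc κ * Real.sin v = κ * Real.sin v * (Real.exp w * Real.exp (-w)) := by rw [hee, mul_one]
    _ = (κ * Real.exp w * Real.sin v) * Real.exp (-w) := by ring
    _ = w * Real.exp (-w) := by rw [← h1]

theorem LS.sin_nonneg (h : LS κ s x w v) : 0 ≤ Real.sin v :=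
  Real.sin_nonneg_of_nonneg_of_le_pi h.v0 (by have := Real.pi_pos; have := h.v1; linarith)

theorem LS.sin_le (h : LS κ s x w v) (hκ : 1 ≤ κ) : Real.sin v ≤ 0.3679 := by
  have h1 := h.sin_eq (by linarith)
  have h2 := mul_exp_neg_le w
  have h3 := h.sin_nonneg
  nlinarith

theorem LS.v_le (h : LS κ s x w v) (hκ : 1 ≤ κ) : v ≤ 0.3775 := by
  by_contra hcon
  push Not at hcon
  have hpi := Real.pi_gt_d2
  have h1 := Real.sin_le_sin_of_le_of_le_pi_div_two (by linarith : -(Real.pi / 2) ≤ 0.3775) h.v1 hcon.le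
  have h2 := sin_ge3 (by norm_num : (0 : ℝ) ≤ 0.3775)
  have h3 := h.sin_le hκ
  norm_num at h1 h2 h3
  linarith

theorem LS.v_le_sin (h : LS κ s x w v) (hκ : 1 ≤ κ) : v ≤ 1.025 * Real.sin v := by
  have h1 := sin_ge3 h.v0
  have h2 := h.v_le hκ
  have h3 := h.v0
  have h4 : v ^ 2 ≤ 0.1426 := by nlinarith
  nlinarith [mul_nonneg h3 (sub_nonneg.2 h4)]

theorem LS.kv_le (h : LS κ s x w v) (hκ : 1 ≤ κ) : κ * v ≤ 0.3772 := by
  have h1 := h.v_le_sin hκ
  have h2 := h.sin_eq (by linarith)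
  have h3 := mul_exp_neg_le w
  nlinarith

theorem LS.sq (h : LS κ s x w v) : x ^ 2 + w ^ 2 = (κ * Real.exp w) ^ 2 := by
  have h1 := Real.sin_sq_add_cos_sq v
  have h2 := h.ex
  have h3 := h.ew
  calc x ^ 2 + w ^ 2 = (κ * Real.exp w * Real.cos v) ^ 2 + (κ * Real.exp w * Real.sin v) ^ 2 := by rw [← h2, ← h3]
    _ = (κ * Real.exp w) ^ 2 * (Real.sin v ^ 2 + Real.cos v ^ 2) := by ring
    _ = _ := by rw [h1, mul_one]

theorem LS.cos_ge (h : LS κ s x w v) (hκ : 1 ≤ κ) : 0.9287 ≤ Real.cos v := by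
  have h1 := Real.one_sub_sq_div_two_le_cos (x := v)
  have h2 := h.v_le hκ
  have h3 := h.v0
  nlinarith

theorem LS.cos_ge' (h : LS κ s x w v) (hκ : 1.6 ≤ κ) : 0.9722 ≤ Real.cos v := by
  have h1 := Real.one_sub_sq_div_two_le_cos (x := v)
  have h2 := h.kv_le (by linarith)
  have h3 := h.v0
  have h4 : v ≤ 0.23575 := by nlinarith
  nlinarith

/-- the constraint between `κ` and `w` -/
theorem LS.con (h : LS κ s x w v) (hκ : 1 ≤ κ) : κ * (Real.exp w - 1) + Real.sin v * (1 - 0.5125 * w) ≤ s := by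
  have h1 := Real.one_sub_sq_div_two_le_cos (x := v)
  have h2 := h.v_le_sin hκ
  have h3 := h.v0
  have hw0 := h.w0
  have hw1 := h.w1
  have hP : 0 < κ * Real.exp w := by have := Real.exp_pos w; positivity
  have h4 : κ * Real.exp w * (1 - v ^ 2 / 2) ≤ x := by
    rw [h.ex]
    exact mul_le_mul_of_nonneg_left h1 hP.le
  have h5 : κ * Real.exp w * v ≤ 1.025 * w := by
    have := h.ew
    calc κ * Real.exp w * v ≤ κ * Real.exp w * (1.025 * Real.sin v) := mul_le_mul_of_nonneg_left h2 hP.le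
      _ = 1.025 * (κ * Real.exp w * Real.sin v) := by ring
      _ = 1.025 * w := by rw [← this]
  have h6 : κ * Real.exp w * v * v ≤ 1.025 * w * v := mul_le_mul_of_nonneg_right h5 h3
  have h7 : Real.sin v ≤ v := Real.sin_le h3
  have h8 : Real.sin v * (1 - 0.5125 * w) ≤ v * (1 - 0.5125 * w) := mul_le_mul_of_nonneg_right h7 (by linarith)
  rw [h.es]
  nlinarith

theorem LS.kexp_le (h : LS κ s x w v) (hκ : 1 ≤ κ) : κ * (Real.exp w - 1) ≤ s := by
  have h1 := h.con hκ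
  have h2 := h.sin_nonneg
  have h3 := h.w1
  nlinarith

/-- lower bound of `w` -/
theorem LS.w_ge {W0 E1 D s0 : ℝ} (h : LS κ s x w v) (hκ : 1 ≤ κ) (hW : W0 ≤ 1) (hE : Real.exp W0 ≤ E1)
    (hD : W0 * Real.exp (-W0) ≤ D) (hs : s0 ≤ s) (hfin : (E1 - 1) * κ ^ 2 + 1.025 * D < s0 * κ) : W0 ≤ w := by
  by_contra hcon
  push Not at hcon
  have h0 : 0 < κ := by linarith
  have hw0 := h.w0
  have h1 : w * Real.exp (-w) ≤ D := by
    refine le_trans ?_ hD
    have h2 := Real.add_one_le_exp (-(W0 - w))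
    have h3 : w ≤ W0 * Real.exp (-(W0 - w)) := by nlinarith
    have h4 : Real.exp (-(W0 - w)) * Real.exp (-w) = Real.exp (-W0) := by rw [← Real.exp_add]; congr 1; ring
    calc w * Real.exp (-w) ≤ (W0 * Real.exp (-(W0 - w))) * Real.exp (-w) :=
          mul_le_mul_of_nonneg_right h3 (Real.exp_pos _).le
      _ = W0 * (Real.exp (-(W0 - w)) * Real.exp (-w)) := by ring
      _ = _ := by rw [h4]
  have h2 : κ * v ≤ 1.025 * D := by
    have e1 := h.v_le_sin hκ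
    have e2 := h.sin_eq h0
    nlinarith
  have h3 : x ≤ κ * E1 := by
    rw [h.ex]
    have e1 : Real.exp w ≤ E1 := (Real.exp_le_exp.2 hcon.le).trans hE
    have e2 := Real.cos_le_one v
    have e3 := Real.exp_pos w
    have e4 : κ * Real.exp w * Real.cos v ≤ κ * Real.exp w * 1 := mul_le_mul_of_nonneg_left e2 (by positivity)
    have e5 : κ * Real.exp w ≤ κ * E1 := mul_le_mul_of_nonneg_left e1 h0.le
    linarith
  have h4 : s * κ ≤ (E1 - 1) * κ ^ 2 + 1.025 * D := by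
    rw [h.es]
    nlinarith
  have h5 : s0 * κ ≤ s * κ := mul_le_mul_of_nonneg_right hs h0.le
  linarith

theorem LS.w_ge30 (h : LS κ s x w v) (h1 : 1 ≤ κ) (h2 : κ ≤ 3) (hs : 1.1915 ≤ s) : 0.31 ≤ w := by
  refine h.w_ge (E1 := 1.36344) (D := 0.22738) h1 (by norm_num) (eu (by norm_num) (by norm_num) (by norm_num)) ?_ hs
    (by nlinarith)
  have := en (G := 0.31) (b := 0.73345) (by norm_num) (by norm_num)
  linarith

theorem LS.w_ge39 (h : LS κ s x w v) (h1 : 1 ≤ κ) (h2 : κ ≤ 2.2) (hs : 1.1915 ≤ s) : 0.39 ≤ w := by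
  refine h.w_ge (E1 := 1.477) (D := 0.26406) h1 (by norm_num) (eu (by norm_num) (by norm_num) (by norm_num)) ?_ hs
    (by nlinarith)
  have := en (G := 0.39) (b := 0.67706) (by norm_num) (by norm_num)
  linarith

theorem LS.w_ge48 (h : LS κ s x w v) (h1 : 1 ≤ κ) (h2 : κ ≤ 1.6) (hs : 1.1915 ≤ s) : 0.48 ≤ w := by
  refine h.w_ge (E1 := 1.61608) (D := 0.29703) h1 (by norm_num) (eu (by norm_num) (by norm_num) (by norm_num)) ?_ hs
    (by nlinarith)
  have := en (G := 0.48) (b := 0.6188) (by norm_num) (by norm_num)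
  linarith

theorem LS.w_ge45 (h : LS κ s x w v) (h1 : 1 ≤ κ) (h2 : κ ≤ 3) (hs : 1.8415 ≤ s) : 0.45 ≤ w := by
  refine h.w_ge (E1 := 1.56832) (D := 0.28695) h1 (by norm_num) (eu (by norm_num) (by norm_num) (by norm_num)) ?_ hs
    (by nlinarith)
  have := en (G := 0.45) (b := 0.63765) (by norm_num) (by norm_num)
  linarith

theorem LS.w_ge38 (h : LS κ s x w v) (h1 : 1 ≤ κ) (h2 : κ ≤ 3) (hs : 1.5415 ≤ s) : 0.38 ≤ w := by
  refine h.w_ge (E1 := 1.46229) (D := 0.25988) h1 (by norm_num) (eu (by norm_num) (by norm_num) (by norm_num)) ?_ hs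
    (by nlinarith)
  have := en (G := 0.38) (b := 0.68387) (by norm_num) (by norm_num)
  linarith

theorem mul_exp_neg_mono {a b : ℝ} (hab : a ≤ b) (hb0 : 0 ≤ b) (hb : b ≤ 1) :
    a * Real.exp (-a) ≤ b * Real.exp (-b) := by
  have h2 := Real.add_one_le_exp (-(b - a))
  have h3 : a ≤ b * Real.exp (-(b - a)) := by nlinarith
  have h4 : Real.exp (-(b - a)) * Real.exp (-a) = Real.exp (-b) := by rw [← Real.exp_add]; congr 1; ring
  calc a * Real.exp (-a) ≤ (b * Real.exp (-(b - a))) * Real.exp (-a) :=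
        mul_le_mul_of_nonneg_right h3 (Real.exp_pos _).le
    _ = b * (Real.exp (-(b - a)) * Real.exp (-a)) := by ring
    _ = _ := by rw [h4]

theorem LS.w_le69 (h : LS κ s x w v) (h1 : 1 ≤ κ) (hs : s ≤ 1.1916) : w ≤ 0.69 := by
  by_contra hcon
  push Not at hcon
  have h2 := h.con h1
  have h3 := h.sin_eq (by linarith)
  have hw1 := h.w1
  have e2 : 0.3459 ≤ w * Real.exp (-w) := by
    have f1 := mul_exp_neg_mono hcon.le h.w0 (by linarith)
    have f2 : (0.5014 : ℝ) ≤ Real.exp (-0.69) := eln (by norm_num) (by norm_num) (by norm_num) (by norm_num)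
    linarith
  obtain ⟨d, hd⟩ : ∃ d : ℝ, d = w - 0.69 := ⟨_, rfl⟩
  have hd0 : 0 ≤ d := by linarith
  have hwd : w = 0.69 + d := by linarith
  have e1 : 0.9937 + 1.9937 * d ≤ Real.exp w - 1 := by
    have f1 : (1.9937 : ℝ) ≤ Real.exp 0.69 := ep (by norm_num) (by norm_num)
    have f2 := Real.add_one_le_exp d
    rw [hwd, Real.exp_add]
    nlinarith [Real.exp_pos 0.69]
  have e3 : κ * (0.9937 + 1.9937 * d) ≤ κ * (Real.exp w - 1) := mul_le_mul_of_nonneg_left e1 (by linarith)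
  have e4 : κ * (κ * (0.9937 + 1.9937 * d) + Real.sin v * (1 - 0.5125 * w)) ≤ κ * 1.1916 :=
    mul_le_mul_of_nonneg_left (by linarith) (by linarith)
  have e5 : 0.3459 * (1 - 0.5125 * w) ≤ κ * Real.sin v * (1 - 0.5125 * w) := by
    rw [h3]
    exact mul_le_mul_of_nonneg_right e2 (by linarith)
  have e6 : 0 ≤ (κ - 1) * (κ * (0.9937 + 1.9937 * d) + (0.9937 + 1.9937 * d) - 1.1916) := by
    apply mul_nonneg (by linarith)
    nlinarith
  subst hwd
  nlinarith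

end L
end Sok.B2
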