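import Pool.Agent.Lib.MP_816dec_an.B2Defs

/-!
MP_816dec_an, b = 2, row B2-JR: the pointwise bounds of the exponent `gre` on the legs.
-/

set_option autoImplicit false

open Complex Set Filter Topology MeasureTheory

namespace Sok.B2

private theorem sincos_768 : (Real.cos 0.768 ≤ 0.71931 ∧ 0.7192 ≤ Real.cos 0.768) ∧
    0.69469 ≤ Real.sin 0.768 ∧ Real.sin 0.768 ≤ 0.6947 := by
  have h := Complex.exp_bound' (x := ((0.768 : ℝ) : ℂ) * I) (n := 12) (by
    rw [norm_mul, Complex.norm_I, Complex.norm_real]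
    norm_num)
  rw [norm_mul, Complex.norm_I, Complex.norm_real, mul_one] at h
  have hs : ∑ m ∈ Finset.range 12, (((0.768 : ℝ) : ℂ) * I) ^ m / (m.factorial : ℂ) =
      ((1 - 0.768 ^ 2 / 2 + 0.768 ^ 4 / 24 - 0.768 ^ 6 / 720 + 0.768 ^ 8 / 40320 - 0.768 ^ 10 / 3628800 : ℝ) : ℂ) +
      ((0.768 - 0.768 ^ 3 / 6 + 0.768 ^ 5 / 120 - 0.768 ^ 7 / 5040 + 0.768 ^ 9 / 362880 - 0.768 ^ 11 / 39916800 : ℝ) : ℂ) * I := by
    have h2 : I ^ 2 = -1 := Complex.I_sq
    have h3 : I ^ 3 = -I := by rw [pow_succ, h2]; ring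
    have h4 : I ^ 4 = 1 := by rw [show (4:ℕ) = 2 * 2 by norm_num, pow_mul, h2]; norm_num
    have h5 : I ^ 5 = I := by rw [pow_succ, h4]; ring
    have h6 : I ^ 6 = -1 := by rw [pow_succ, h5, ← pow_two, h2]
    have h7 : I ^ 7 = -I := by rw [pow_succ, h6]; ring
    have h8 : I ^ 8 = 1 := by rw [show (8:ℕ) = 4 * 2 by norm_num, pow_mul, h4]; norm_num
    have h9 : I ^ 9 = I := by rw [pow_succ, h8]; ring
    have h10 : I ^ 10 = -1 := by rw [pow_succ, h9, ← pow_two, h2]
    have h11 : I ^ 11 = -I := by rw [pow_succ, h10]; ring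
    simp only [Finset.sum_range_succ, Finset.sum_range_zero, mul_pow, h2, h3, h4, h5, h6, h7, h8, h9, h10, h11,
      pow_zero, pow_one, Nat.factorial]
    push_cast
    ring
  rw [hs, Complex.exp_mul_I, ← Complex.ofReal_cos, ← Complex.ofReal_sin] at h
  have hre := (Complex.abs_re_le_norm _).trans h
  have him := (Complex.abs_im_le_norm _).trans h
  simp only [Complex.sub_re, Complex.add_re, Complex.ofReal_re, Complex.mul_re, Complex.I_re, Complex.I_im,
    Complex.ofReal_im, mul_zero, mul_one, sub_zero, add_zero, Complex.sub_im, Complex.add_im, Complex.mul_im,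
    zero_add] at hre him
  rw [abs_le] at hre him
  simp only [Nat.factorial, Real.norm_eq_abs] at hre him
  rw [abs_of_pos (by norm_num : (0:ℝ) < 0.768)] at hre him
  norm_num at hre him ⊢
  refine ⟨⟨by linarith [hre.2], by linarith [hre.1]⟩, by linarith [him.1], by linarith [him.2]⟩

private theorem exp_224 : 1.25107 ≤ Real.exp 0.224 ∧ Real.exp 0.224 ≤ 1.25108 := by
  constructor
  · have h := Real.sum_le_exp_of_nonneg (x := 0.224) (by norm_num) 8
    simp only [Finset.sum_range_succ, Finset.sum_range_zero, Nat.factorial] at h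
    norm_num at h ⊢
    linarith
  · have h := Real.exp_bound' (x := 0.224) (n := 8) (by norm_num) (by norm_num) (by norm_num)
    simp only [Finset.sum_range_succ, Finset.sum_range_zero, Nat.factorial] at h
    norm_num at h ⊢
    linarith

private theorem exp_neg_224 : 0.7993 ≤ Real.exp (-0.224) ∧ Real.exp (-0.224) ≤ 0.79932 := by
  obtain ⟨h1, h2⟩ := exp_224
  rw [Real.exp_neg]
  constructor
  · rw [le_inv_comm₀ (by norm_num) (Real.exp_pos _)]
    refine h2.trans (by norm_num)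
  · rw [inv_le_comm₀ (Real.exp_pos _) (by norm_num)]
    refine le_trans (by norm_num) h1

/-- the tangent line of the cosine at `0.768` -/
private theorem cos_tangent {X : ℝ} (h1 : 0.768 ≤ X) (h2 : X ≤ Real.pi / 2) :
    Real.cos X ≤ Real.cos 0.768 - Real.sin 0.768 * (X - 0.768) := by
  have hpi := Real.pi_pos
  have h := Convex.mul_sub_le_image_sub_of_le_deriv (D := Icc 0.768 (Real.pi / 2)) (f := fun t => -Real.cos t)
    (C := Real.sin 0.768) (convex_Icc _ _) (by fun_prop) (by fun_prop) ?_ 0.768 ⟨le_rfl, h1.trans h2⟩ X ⟨h1, h2⟩ h1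
  · linarith
  · intro t ht
    rw [interior_Icc] at ht
    have hd : deriv (fun t => -Real.cos t) t = Real.sin t := by
      rw [show (fun t => -Real.cos t) = -Real.cos from rfl, deriv.neg, Real.deriv_cos, neg_neg]
    rw [hd]
    exact Real.sin_le_sin_of_le_of_le_pi_div_two (by linarith) ht.2.le ht.1.le

private theorem cos_line {t : ℝ} (h1 : 0.768 ≤ t) (h2 : t ≤ Real.pi) :
    Real.cos t ≤ Real.cos 0.768 - 0.69 * (t - 0.768) := by
  obtain ⟨⟨c1, c2⟩, s1, s2⟩ := sincos_768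
  have hpi := Real.pi_gt_d6
  have hpi' := Real.pi_lt_d6
  rcases le_total t (Real.pi / 2) with h | h
  · have := cos_tangent h1 h
    nlinarith
  · have h3 := Real.mul_le_sin (x := t - Real.pi / 2) (by linarith) (by linarith)
    rw [Real.sin_sub_pi_div_two] at h3
    have h4 : 2 / Real.pi * (t - Real.pi / 2) = 2 * t / Real.pi - 1 := by
      have := Real.pi_ne_zero
      field_simp
    rw [h4] at h3
    have h5 : 1 - Real.cos 0.768 + 0.69 * (t - 0.768) ≤ 2 * t / Real.pi := by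
      rw [le_div_iff₀ (by linarith)]
      nlinarith
    linarith

private theorem sin_chord {X : ℝ} (h1 : 0.768 ≤ X) (h2 : X ≤ Real.pi / 2) :
    (1 - Real.sin 0.768) * (X - 0.768) + Real.sin 0.768 * (Real.pi / 2 - 0.768) ≤
      Real.sin X * (Real.pi / 2 - 0.768) := by
  have hpi := Real.pi_gt_d6
  have hd : 0 < Real.pi / 2 - 0.768 := by linarith
  obtain ⟨l, hl⟩ : ∃ l : ℝ, l = (X - 0.768) / (Real.pi / 2 - 0.768) := ⟨_, rfl⟩
  have hl0 : 0 ≤ l := by rw [hl]; apply div_nonneg <;> linarith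
  have hl1 : l ≤ 1 := by rw [hl, div_le_one hd]; linarith
  have hX : X - 0.768 = l * (Real.pi / 2 - 0.768) := by rw [hl, div_mul_cancel₀ _ hd.ne']
  have m1 : (0.768 : ℝ) ∈ Icc 0 Real.pi := ⟨by norm_num, by linarith⟩
  have m2 : Real.pi / 2 ∈ Icc 0 Real.pi := ⟨by linarith, by linarith⟩
  have h := strictConcaveOn_sin_Icc.concaveOn.2 m1 m2 (show (0:ℝ) ≤ 1 - l by linarith) hl0 (by ring)
  simp only [smul_eq_mul, Real.sin_pi_div_two, mul_one] at h
  have e : (1 - l) * 0.768 + l * (Real.pi / 2) = X := by linarith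
  rw [e] at h
  rw [hX]
  nlinarith

theorem gre_L1 {x y t : ℝ} (hx : 0 ≤ x) (hy : 0 ≤ y) (h1 : 0.768 ≤ t) (h2 : t ≤ Real.pi) :
    gre x y (-t) 0.224 ≤ -(0.172 + 0.201 * x + 0.2127 * y) - (0.224 + 0.5515 * x) * (t - 0.768) := by
  obtain ⟨⟨c1, c2⟩, s1, s2⟩ := sincos_768
  obtain ⟨e1, e2⟩ := exp_neg_224
  have hE := Real.exp_pos (-0.224)
  have hc := cos_line h1 h2
  have hpi := Real.pi_gt_d6
  -- the sine is 1-Lipschitz
  have hs : Real.sin t ≤ Real.sin 0.768 + (t - 0.768) := by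
    have h := Convex.image_sub_le_mul_sub_of_deriv_le (D := Icc 0.768 t) (f := Real.sin)
      (C := 1) (convex_Icc _ _) (by fun_prop) (by fun_prop) (fun u _ => by
        rw [Real.deriv_sin]; exact Real.cos_le_one u) 0.768 ⟨le_rfl, h1⟩ t ⟨h1, le_rfl⟩ h1
    linarith
  have hx1 : Real.exp (-0.224) * Real.cos t ≤ 0.575 - 0.5515 * (t - 0.768) := by
    have k1 : Real.exp (-0.224) * Real.cos t ≤ Real.exp (-0.224) * (Real.cos 0.768 - 0.69 * (t - 0.768)) :=
      mul_le_mul_of_nonneg_left hc hE.le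
    have k2 : Real.exp (-0.224) * Real.cos 0.768 ≤ 0.79932 * 0.71931 :=
      mul_le_mul e2 c1 (by linarith) (by norm_num)
    have k3 : 0.7993 * (0.69 * (t - 0.768)) ≤ Real.exp (-0.224) * (0.69 * (t - 0.768)) :=
      mul_le_mul_of_nonneg_right e1 (by linarith)
    norm_num at k2 k3 ⊢
    linarith
  have hy1 : Real.exp (-0.224) * Real.sin t - t ≤ -0.2127 := by
    have k1 : Real.exp (-0.224) * Real.sin t ≤ Real.exp (-0.224) * (Real.sin 0.768 + (t - 0.768)) :=
      mul_le_mul_of_nonneg_left hs hE.le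
    have k2 : Real.exp (-0.224) * Real.sin 0.768 ≤ 0.79932 * 0.6947 :=
      mul_le_mul e2 s2 (by linarith) (by norm_num)
    have k3 : Real.exp (-0.224) * (t - 0.768) ≤ 1 * (t - 0.768) :=
      mul_le_mul_of_nonneg_right (by linarith) (by linarith)
    norm_num at k2 k3 ⊢
    linarith
  unfold gre
  rw [Real.cos_neg, Real.sin_neg]
  have g1 := mul_le_mul_of_nonneg_left hx1 hx
  have g2 := mul_le_mul_of_nonneg_left hy1 hy
  nlinarith

theorem gre_L2 {x y Y : ℝ} (hx : 0 ≤ x) (hx3 : x ≤ 3) (hy : 0 ≤ y) (h1 : 0.224 ≤ Y) (h2 : Y ≤ 1) :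
    gre x y (-Real.pi) Y ≤ -(0.7 + 0.8 * x + 3.14 * y) := by
  have hpi := Real.pi_gt_d6
  have he : Real.exp (-1) * (2 - Y) ≤ Real.exp (-Y) := by
    have h3 : Real.exp (-Y) = Real.exp (-1) * Real.exp (1 - Y) := by rw [← Real.exp_add]; congr 1; ring
    rw [h3]
    apply mul_le_mul_of_nonneg_left _ (Real.exp_pos _).le
    have := Real.add_one_le_exp (1 - Y)
    linarith
  have he1 : 0.3678 ≤ Real.exp (-1) := by
    have := Real.exp_neg_one_gt_d9; linarith
  have he2 : 0.3678 * (2 - Y) ≤ Real.exp (-Y) := le_trans (mul_le_mul_of_nonneg_right he1 (by linarith)) he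
  unfold gre
  rw [Real.cos_neg, Real.sin_neg, Real.cos_pi, Real.sin_pi]
  have g1 := mul_le_mul_of_nonneg_left he2 hx
  have g2 : 0 ≤ (Y - 0.224) * (3 - x) := mul_nonneg (by linarith) (by linarith)
  have g3 : 0 ≤ (Y - 0.224) * x := mul_nonneg (by linarith) hx
  nlinarith

theorem gre_L3 {x y s : ℝ} (hx : 0 ≤ x) (hy : 0 ≤ y) (hP : x ^ 2 + y ^ 2 ≤ 9) (hs : 0 ≤ s) :
    gre x y (-Real.pi - s) 1 ≤ -3 - 0.3 * s := by
  have hpi := Real.pi_gt_d6
  have hpi' := Real.pi_lt_d6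
  have he1 : Real.exp (-1) ≤ 0.368 := by
    have := Real.exp_neg_one_lt_d9; linarith
  have hc : Real.cos (-Real.pi - s) = -Real.cos s := by
    rw [show -Real.pi - s = -(s + Real.pi) by ring, Real.cos_neg, Real.cos_add_pi]
  have hsn : Real.sin (-Real.pi - s) = Real.sin s := by
    rw [show -Real.pi - s = -(s + Real.pi) by ring, Real.sin_neg, Real.sin_add_pi, neg_neg]
  unfold gre
  rw [hc, hsn]
  have hys : 0 ≤ y * s := mul_nonneg hy hs
  have hyp : 0 ≤ y * Real.pi := mul_nonneg hy (by linarith)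
  rcases le_total s (Real.pi / 2) with h | h
  · have h3 : 0 ≤ Real.cos s := Real.cos_nonneg_of_neg_pi_div_two_le_of_le (by linarith) h
    have h4 : 0 ≤ Real.sin s := Real.sin_nonneg_of_nonneg_of_le_pi hs (by linarith)
    have h5 : Real.exp (-1) * (x * -Real.cos s - y * Real.sin s) ≤ 0 := by
      apply mul_nonpos_of_nonneg_of_nonpos (Real.exp_pos _).le
      have := mul_nonneg hx h3
      have := mul_nonneg hy h4
      linarith
    nlinarith
  · have h5 : x * -Real.cos s - y * Real.sin s ≤ 3 := by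
      have h6 : (x * -Real.cos s - y * Real.sin s) ^ 2 ≤ 3 ^ 2 := by
        have := Real.sin_sq_add_cos_sq s
        nlinarith [sq_nonneg (x * Real.sin s - y * Real.cos s)]
      exact abs_le_of_sq_le_sq' h6 (by norm_num) |>.2
    have h7 : Real.exp (-1) * (x * -Real.cos s - y * Real.sin s) ≤ 0.368 * 3 := by
      calc _ ≤ Real.exp (-1) * 3 := mul_le_mul_of_nonneg_left h5 (Real.exp_pos _).le
        _ ≤ _ := mul_le_mul_of_nonneg_right he1 (by norm_num)
    nlinarith

theorem gre_R1 {x y X : ℝ} (hx : 0 ≤ x) (hy : 0 ≤ y) (h1 : 0.768 ≤ X) (h2 : X ≤ Real.pi / 2) :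
    gre x y X (-0.224) ≤ -(0.172 + 0.324 * x + 0.1011 * y) - (0.224 + 0.8691 * x - 0.5243 * y) * (X - 0.768) := by
  obtain ⟨⟨c1, c2⟩, s1, s2⟩ := sincos_768
  obtain ⟨e1, e2⟩ := exp_224
  have hE := Real.exp_pos 0.224
  have hc := cos_tangent h1 h2
  have hs := sin_chord h1 h2
  have hpi := Real.pi_gt_d6
  have hpi' := Real.pi_lt_d6
  have hd : 0 < Real.pi / 2 - 0.768 := by linarith
  have hx1 : Real.exp 0.224 * Real.cos X ≤ 0.9 - 0.8691 * (X - 0.768) := by
    have k1 : Real.exp 0.224 * Real.cos X ≤ Real.exp 0.224 * (Real.cos 0.768 - Real.sin 0.768 * (X - 0.768)) :=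
      mul_le_mul_of_nonneg_left hc hE.le
    have k2 : Real.exp 0.224 * Real.cos 0.768 ≤ 1.25108 * 0.71931 :=
      mul_le_mul e2 c1 (by linarith) (by norm_num)
    have k3 : 1.25107 * 0.69469 ≤ Real.exp 0.224 * Real.sin 0.768 :=
      mul_le_mul e1 s1 (by norm_num) hE.le
    have k4 : 0.8691 * (X - 0.768) ≤ (Real.exp 0.224 * Real.sin 0.768) * (X - 0.768) :=
      mul_le_mul_of_nonneg_right (by norm_num at k3 ⊢; linarith) (by linarith)
    norm_num at k2 k4 ⊢
    linarith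
  have hy1 : X - Real.exp 0.224 * Real.sin X ≤ -0.1011 + 0.5243 * (X - 0.768) := by
    -- multiply by the length of the chord
    have k0 : 0.8691 ≤ Real.exp 0.224 * Real.sin 0.768 := by
      have k3 : 1.25107 * 0.69469 ≤ Real.exp 0.224 * Real.sin 0.768 :=
        mul_le_mul e1 s1 (by norm_num) hE.le
      norm_num at k3 ⊢
      linarith
    have k1 := mul_le_mul_of_nonneg_left hs hE.le
    have k2 : 0 ≤ X - 0.768 := by linarith
    have k5 : 0 ≤ Real.pi / 2 - X := by linarith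
    have k6 : (1.25107 * (X - 0.768) + 0.8691 * (Real.pi / 2 - X)) ≤ Real.exp 0.224 * (Real.sin X * (Real.pi / 2 - 0.768)) := by
      refine le_trans ?_ k1
      have : Real.exp 0.224 * ((1 - Real.sin 0.768) * (X - 0.768) + Real.sin 0.768 * (Real.pi / 2 - 0.768)) =
        Real.exp 0.224 * (X - 0.768) + (Real.exp 0.224 * Real.sin 0.768) * (Real.pi / 2 - X) := by ring
      rw [this]
      exact add_le_add (mul_le_mul_of_nonneg_right e1 k2) (mul_le_mul_of_nonneg_right k0 k5)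
    have k7 : (X - Real.exp 0.224 * Real.sin X) * (Real.pi / 2 - 0.768) ≤
        (-0.1011 + 0.5243 * (X - 0.768)) * (Real.pi / 2 - 0.768) := by
      nlinarith
    exact le_of_mul_le_mul_right k7 hd
  unfold gre
  rw [neg_neg]
  have g1 := mul_le_mul_of_nonneg_left hx1 hx
  have g2 := mul_le_mul_of_nonneg_left hy1 hy
  nlinarith

theorem gre_R2 {x y V : ℝ} (hx : 0 ≤ x) (hy : 0 ≤ y) (h1 : 0.224 ≤ V) :
    gre x y (Real.pi / 2) (-V) ≤ -(0.3518 + 1.224 * x - 0.3198 * y) - 1.57 * (V - 0.224) := by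
  obtain ⟨e1, e2⟩ := exp_224
  have hpi := Real.pi_gt_d6
  have hpi' := Real.pi_lt_d6
  have h3 : Real.exp 0.224 ≤ Real.exp V := Real.exp_le_exp.2 h1
  unfold gre
  rw [neg_neg, Real.cos_pi_div_two, Real.sin_pi_div_two]
  have g1 := mul_le_mul_of_nonneg_left (e1.trans h3) hy
  have g2 := mul_le_mul_of_nonneg_left h1 hx
  nlinarith

/-- the horizontal line below the axis, at height `-0.8` -/
theorem gre_hor {x y X : ℝ} : gre x y X (-(y + 0.8)) =
    -(0.8 * X) + Real.exp (y + 0.8) * (x * Real.cos X - y * Real.sin X) - x * (1.8 + y) := by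
  unfold gre
  rw [neg_neg]
  ring

theorem gre_R3a {x y X : ℝ} (hx : 0 ≤ x) (hy : 0 ≤ y) (h1 : Real.pi / 2 ≤ X) (h2 : X ≤ Real.pi) :
    gre x y X (-(y + 0.8)) ≤ -(1.256 + 1.8 * x) - 0.8 * (X - Real.pi / 2) := by
  have hpi := Real.pi_gt_d6
  rw [gre_hor]
  have h3 : Real.cos X ≤ 0 := Real.cos_nonpos_of_pi_div_two_le_of_le h1 (by linarith)
  have h4 : 0 ≤ Real.sin X := Real.sin_nonneg_of_nonneg_of_le_pi (by linarith) h2
  have h5 : Real.exp (y + 0.8) * (x * Real.cos X - y * Real.sin X) ≤ 0 := by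
    apply mul_nonpos_of_nonneg_of_nonpos (Real.exp_pos _).le
    have := mul_nonneg hy h4
    have := mul_nonneg hx (neg_nonneg.2 h3)
    linarith
  have h6 := mul_nonneg hx hy
  nlinarith

theorem gre_R3c {x y X : ℝ} (hx : 0 ≤ x) (hy : 0 ≤ y) (h1 : Real.pi ≤ X) (h2 : X ≤ 3 * Real.pi / 2) :
    gre x y X (-(y + 0.8)) ≤ -(2.513 + x * (1.8 + y) - y * Real.exp (y + 0.8)) - 0.8 * (X - Real.pi) := by
  have hpi := Real.pi_gt_d6
  rw [gre_hor]
  have h3 : Real.cos X ≤ 0 := Real.cos_nonpos_of_pi_div_two_le_of_le (by linarith) (by linarith)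
  have h4 := Real.neg_one_le_sin X
  have h5 : x * Real.cos X - y * Real.sin X ≤ y := by
    have := mul_nonneg hx (neg_nonneg.2 h3)
    nlinarith
  have h6 := mul_le_mul_of_nonneg_left h5 (Real.exp_pos (y + 0.8)).le
  nlinarith

theorem gre_R3d {x y s : ℝ} (hx : 0 ≤ x) (hy : 0 ≤ y) (h1 : 0 ≤ s) :
    gre x y (3 * Real.pi / 2 + s) (-(y + 0.8)) ≤ -(3.7696 + x * (1.8 + y) - y * Real.exp (y + 0.8)) +
      (Real.exp (y + 0.8) * x - 0.8) * s := by
  have hpi := Real.pi_gt_d6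
  rw [gre_hor]
  have e1 : Real.cos (3 * Real.pi / 2 + s) = Real.sin s := by
    rw [show 3 * Real.pi / 2 + s = (s + Real.pi / 2) + Real.pi by ring, Real.cos_add_pi, Real.cos_add_pi_div_two, neg_neg]
  have e2 : Real.sin (3 * Real.pi / 2 + s) = -Real.cos s := by
    rw [show 3 * Real.pi / 2 + s = (s + Real.pi / 2) + Real.pi by ring, Real.sin_add_pi, Real.sin_add_pi_div_two]
  rw [e1, e2]
  have h3 : Real.sin s ≤ s := Real.sin_le h1
  have h4 := Real.cos_le_one s
  have h5 : x * Real.sin s - y * -Real.cos s ≤ x * s + y := by nlinarith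
  have h6 := mul_le_mul_of_nonneg_left h5 (Real.exp_pos (y + 0.8)).le
  nlinarith

theorem gre_R3e {x y s : ℝ} :
    gre x y (3 * Real.pi / 2 + 0.7 + s) (-(y + 0.8)) ≤
      -(4.3296 + x * (1.8 + y) - Real.exp (y + 0.8) * PP x y) - 0.8 * s := by
  have hpi := Real.pi_gt_d6
  rw [gre_hor]
  have h5 : x * Real.cos (3 * Real.pi / 2 + 0.7 + s) - y * Real.sin (3 * Real.pi / 2 + 0.7 + s) ≤ PP x y := by
    unfold PP
    apply Real.le_sqrt_of_sq_le
    have := Real.sin_sq_add_cos_sq (3 * Real.pi / 2 + 0.7 + s)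
    nlinarith [sq_nonneg (x * Real.sin (3 * Real.pi / 2 + 0.7 + s) + y * Real.cos (3 * Real.pi / 2 + 0.7 + s))]
  have h6 := mul_le_mul_of_nonneg_left h5 (Real.exp_pos (y + 0.8)).le
  nlinarith

end Sok.B2
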