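import Pool.Agent.Lib.MP_816dec_an.B2JRa
import Pool.Agent.Lib.MP_816dec_an.Legs

/-!
MP_816dec_an, b = 2, row B2-JR: the legs of the contour.
-/

set_option autoImplicit false

open Complex Set Filter Topology MeasureTheory

namespace Sok.B2

open Sok Sok.W

/-- the point `θ + σ + X + i Y` -/
noncomputable def pt (θ x y X Y : ℝ) : ℂ := ((θ + x + X : ℝ) : ℂ) + ((y + Y : ℝ) : ℂ) * I

theorem pt_line (θ x y X Y t dx dy : ℝ) :
    pt θ x y (X + t * dx) (Y + t * dy) = pt θ x y X Y + t * ((dx : ℂ) + dy * I) := by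
  unfold pt
  push_cast
  ring

/-- `‖KK‖` relative to the saddle -/
theorem norm_KK_pt {β r θ x y : ℝ} (hβ : 0 < β) (hs : Sad β r θ x y) (X Y : ℝ) :
    ‖KK β r θ (pt θ x y X Y)‖ = Ex β x y * Real.exp (gre x y X Y / β) := by
  unfold pt Ex
  rw [norm_KK, ← Real.exp_add]
  congr 1
  have hb := hβ.ne'
  have h1 : x / β = r * Real.exp (-y) * Real.cos (θ + x) := by
    rw [div_eq_iff hb]
    linarith [hs.hx]
  have h2 : y / β = r * Real.exp (-y) * Real.sin (θ + x) := by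
    rw [div_eq_iff hb]
    linarith [hs.hy]
  have e1 : Real.exp (-(y + Y)) = Real.exp (-y) * Real.exp (-Y) := by rw [← Real.exp_add]; congr 1; ring
  have h3 : r * Real.exp (-(y + Y)) * Real.cos (θ + x + X) =
      Real.exp (-Y) * (x / β * Real.cos X - y / β * Real.sin X) := by
    rw [Real.cos_add, e1, h1, h2]
    ring
  rw [h3]
  unfold gre
  field_simp
  ring

/-- growth of the integrand relative to the saddle -/
def RelBd (β θ x y a b : ℝ) (h : ℂ → ℂ) : Prop := ∀ X Y : ℝ,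
  ‖h (pt θ x y X Y)‖ ≤ Ex β x y * (a + b * Real.sqrt (X ^ 2 + Y ^ 2)) * Real.exp (gre x y X Y / β)

theorem Ex_pos (β x y : ℝ) : 0 < Ex β x y := Real.exp_pos _

theorem sqrt_tri {X Y t dx dy z : ℝ} (hd : dx ^ 2 + dy ^ 2 = 1) (ht : 0 ≤ t) (hz : Real.sqrt (X ^ 2 + Y ^ 2) ≤ z) :
    Real.sqrt ((X + t * dx) ^ 2 + (Y + t * dy) ^ 2) ≤ z + t := by
  have h0 := Real.sqrt_nonneg (X ^ 2 + Y ^ 2)
  have h1 : 0 ≤ X ^ 2 + Y ^ 2 := by positivity
  refine Real.sqrt_le_iff.2 ⟨by linarith, ?_⟩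
  have h2 : (X + t * dx) ^ 2 + (Y + t * dy) ^ 2 ≤ (Real.sqrt (X ^ 2 + Y ^ 2) + t) ^ 2 := by
    have h3 := Real.sq_sqrt h1
    have h4 : X * dx + Y * dy ≤ Real.sqrt (X ^ 2 + Y ^ 2) := by
      apply Real.le_sqrt_of_sq_le
      nlinarith [sq_nonneg (X * dy - Y * dx)]
    have h5 : (X + t * dx) ^ 2 + (Y + t * dy) ^ 2 = X ^ 2 + Y ^ 2 + 2 * (t * (X * dx + Y * dy)) + t ^ 2 := by
      linear_combination (t ^ 2) * hd
    have h6 := mul_le_mul_of_nonneg_left h4 ht
    rw [h5]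
    nlinarith
  refine h2.trans ?_
  exact pow_le_pow_left₀ (by linarith) (by linarith) 2

/-- the integrand on a line, exponential bound -/
theorem line_bd {β θ x y a b : ℝ} {h : ℂ → ℂ} (hβ : 0 < β) (hH : RelBd β θ x y a b h) (ha : 0 ≤ a) (hb : 0 ≤ b)
    {X Y t g k z w : ℝ} (hz : Real.sqrt (X ^ 2 + Y ^ 2) ≤ z + w * t) (hg : gre x y X Y ≤ -g - k * t) :
    ‖h (pt θ x y X Y)‖ ≤ (Ex β x y * (a + b * z) * Real.exp (-g / β) + Ex β x y * (b * w) * Real.exp (-g / β) * t) *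
      Real.exp (-(k / β * t)) := by
  have hE := Ex_pos β x y
  refine (hH X Y).trans ?_
  have h1 : Real.exp (gre x y X Y / β) ≤ Real.exp (-g / β) * Real.exp (-(k / β * t)) := by
    rw [← Real.exp_add]
    apply Real.exp_le_exp.2
    have : -g / β + -(k / β * t) = (-g - k * t) / β := by ring
    rw [this]
    exact div_le_div_of_nonneg_right hg hβ.le
  have h2 : a + b * Real.sqrt (X ^ 2 + Y ^ 2) ≤ a + b * (z + w * t) := by
    have := mul_le_mul_of_nonneg_left hz hb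
    linarith
  have h3 : 0 ≤ a + b * Real.sqrt (X ^ 2 + Y ^ 2) := by positivity
  calc Ex β x y * (a + b * Real.sqrt (X ^ 2 + Y ^ 2)) * Real.exp (gre x y X Y / β)
      ≤ Ex β x y * (a + b * (z + w * t)) * (Real.exp (-g / β) * Real.exp (-(k / β * t))) := by
        apply mul_le_mul (mul_le_mul_of_nonneg_left h2 hE.le) h1 (Real.exp_pos _).le
        exact mul_nonneg hE.le (h3.trans h2)
    _ = _ := by ring

theorem legs_eq {β E a b g k z w : ℝ} (hβ : 0 < β) (hk : 0 < k) :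
    E * (a + b * z) * Real.exp (-g / β) / (k / β) + E * (b * w) * Real.exp (-g / β) / (k / β) ^ 2 =
      E * (a * legV β g k + b * (Real.exp (-g / β) * (z * (β / k) + w * (β / k) ^ 2))) := by
  unfold legV
  field_simp
  ring

/-- a finite leg -/
theorem leg_le {β θ x y a b : ℝ} {h P : ℂ → ℂ} {lL V lR : ℂ} (hp : Pack h P lL V lR) (hβ : 0 < β)
    (hH : RelBd β θ x y a b h) (ha : 0 ≤ a) (hb : 0 ≤ b) {X Y dx dy l g k z w : ℝ} (hd : dx ^ 2 + dy ^ 2 = 1)
    (hl : 0 ≤ l) (hk : 0 < k) (hz0 : 0 ≤ z) (hw : 0 ≤ w)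
    (hz : ∀ t : ℝ, 0 ≤ t → t ≤ l → Real.sqrt ((X + t * dx) ^ 2 + (Y + t * dy) ^ 2) ≤ z + w * t)
    (hg : ∀ t : ℝ, 0 ≤ t → t ≤ l → gre x y (X + t * dx) (Y + t * dy) ≤ -g - k * t) :
    ‖P (pt θ x y (X + l * dx) (Y + l * dy)) - P (pt θ x y X Y)‖ ≤
      Ex β x y * (a * legV β g k + b * (Real.exp (-g / β) * (z * (β / k) + w * (β / k) ^ 2))) := by
  have hE := Ex_pos β x y
  have he : ‖(dx : ℂ) + dy * I‖ = 1 := by
    rw [Complex.norm_add_mul_I, hd, Real.sqrt_one]
  have h1 := hp.seg_exp (pt θ x y X Y) ((dx : ℂ) + dy * I) he (l := l) (k := k / β)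
    (A := Ex β x y * (a + b * z) * Real.exp (-g / β)) (B := Ex β x y * (b * w) * Real.exp (-g / β))
    hl (by positivity) (by positivity) (by positivity) (fun t h0 h1 => by
      rw [← pt_line]
      exact line_bd hβ hH ha hb (hz t h0 h1) (hg t h0 h1))
  rw [pt_line, ← legs_eq hβ hk]
  exact h1

/-- the ray to the right -/
theorem ray_right {β θ x y a b : ℝ} {h P : ℂ → ℂ} {lL V lR : ℂ} (hp : Pack h P lL V lR) (hβ : 0 < β)
    (hH : RelBd β θ x y a b h) (ha : 0 ≤ a) (hb : 0 ≤ b) {X Y g k z : ℝ} (hY : y + Y < 0)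
    (hk : 0 < k) (hz : Real.sqrt (X ^ 2 + Y ^ 2) ≤ z)
    (hg : ∀ t : ℝ, 0 ≤ t → gre x y (X + t) Y ≤ -g - k * t) :
    ‖lR - P (pt θ x y X Y)‖ ≤ Ex β x y * (a * legV β g k + b * legM β g k z) := by
  have hE := Ex_pos β x y
  have hz0 : 0 ≤ z := (Real.sqrt_nonneg _).trans hz
  have h1 := hp.right_exp hY (θ + x + X) (k := k / β)
    (A := Ex β x y * (a + b * z) * Real.exp (-g / β)) (B := Ex β x y * (b * 1) * Real.exp (-g / β))
    (by positivity) (by positivity) (by positivity) (fun t h0 => by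
      have h2 := sqrt_tri (X := X) (Y := Y) (t := t) (dx := 1) (dy := 0) (by norm_num) h0 hz
      rw [mul_one, mul_zero, add_zero] at h2
      have h3 := line_bd hβ hH ha hb (X := X + t) (Y := Y) (w := 1) (by rw [one_mul]; exact h2) (hg t h0)
      have e : pt θ x y (X + t) Y = ((θ + x + X + t : ℝ) : ℂ) + ((y + Y : ℝ) : ℂ) * I := by
        unfold pt; push_cast; ring
      rw [e] at h3
      exact h3)
  rw [legs_eq hβ hk] at h1
  unfold pt legM
  rw [one_mul] at h1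
  exact h1

/-- the left horizontal ray with an exponential bound -/
theorem left_hor_exp {h P : ℂ → ℂ} {lL V lR : ℂ}
    (hp : Pack h P lL V lR) {Y : ℝ} (hY : 0 < Y) (a : ℝ) {A B k : ℝ} (hk : 0 < k) (hA : 0 ≤ A) (hB : 0 ≤ B)
    (hb : ∀ t : ℝ, 0 ≤ t → ‖h ((a - t : ℝ) + Y * I)‖ ≤ (A + B * t) * Real.exp (-(k * t))) :
    ‖P (a + Y * I) - lL‖ ≤ A / k + B / k ^ 2 := by
  have h0 : Tendsto (fun X : ℝ => P (X + Y * I)) atBot (𝓝 lL) := by
    have h1 := intervalIntegral_tendsto_integral_Iic a (hp.left_int Y hY a) tendsto_id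
    have h2 := (tendsto_const_nhds (x := P (a + Y * I))).sub h1
    rw [hp.left Y hY a] at h2
    have e : P (a + Y * I) - (P (a + Y * I) - lL) = lL := by ring
    rw [e] at h2
    refine h2.congr fun X => ?_
    rw [prim_hor hp.diff hp.prim]
    simp
  have h1 := ((tendsto_const_nhds (x := P (a + Y * I))).sub h0).norm
  refine le_of_tendsto h1 ?_
  filter_upwards [eventually_le_atBot a] with t ht
  have he : ‖(-1 : ℂ)‖ = 1 := by rw [norm_neg, norm_one]
  have h2 := hp.seg_exp (a + Y * I) (-1) he (l := a - t) (by linarith) hk hA hB (fun s hs0 _ => by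
    have := hb s hs0
    rwa [show (a : ℂ) + Y * I + (s : ℂ) * -1 = (a - s : ℝ) + Y * I by push_cast; ring])
  rw [norm_sub_rev]
  rwa [show (a : ℂ) + Y * I + ((a - t : ℝ) : ℂ) * -1 = t + Y * I by push_cast; ring] at h2

/-- the ray to the left -/
theorem ray_left {β θ x y a b : ℝ} {h P : ℂ → ℂ} {lL V lR : ℂ} (hp : Pack h P lL V lR) (hβ : 0 < β)
    (hH : RelBd β θ x y a b h) (ha : 0 ≤ a) (hb : 0 ≤ b) {X Y g k z : ℝ} (hY : 0 < y + Y)
    (hk : 0 < k) (hz : Real.sqrt (X ^ 2 + Y ^ 2) ≤ z)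
    (hg : ∀ t : ℝ, 0 ≤ t → gre x y (X - t) Y ≤ -g - k * t) :
    ‖P (pt θ x y X Y) - lL‖ ≤ Ex β x y * (a * legV β g k + b * legM β g k z) := by
  have hE := Ex_pos β x y
  have hz0 : 0 ≤ z := (Real.sqrt_nonneg _).trans hz
  have h1 := left_hor_exp hp hY (θ + x + X) (k := k / β)
    (A := Ex β x y * (a + b * z) * Real.exp (-g / β)) (B := Ex β x y * (b * 1) * Real.exp (-g / β))
    (by positivity) (by positivity) (by positivity) (fun t h0 => by
      have h2 := sqrt_tri (X := X) (Y := Y) (t := t) (dx := -1) (dy := 0) (by norm_num) h0 hz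
      rw [mul_neg_one, mul_zero, add_zero, ← sub_eq_add_neg] at h2
      have h3 := line_bd hβ hH ha hb (X := X - t) (Y := Y) (w := 1) (by rw [one_mul]; exact h2) (hg t h0)
      have e : pt θ x y (X - t) Y = ((θ + x + X - t : ℝ) : ℂ) + ((y + Y : ℝ) : ℂ) * I := by
        unfold pt; push_cast; ring
      rw [e] at h3
      exact h3)
  rw [legs_eq hβ hk] at h1
  unfold pt legM
  rw [one_mul] at h1
  exact h1

/-- the vertical piece at `X = -π` -/
theorem leg_L2 {β θ x y a b : ℝ} {h P : ℂ → ℂ} {lL V lR : ℂ} (hp : Pack h P lL V lR) (hβ : 0 < β)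
    (hH : RelBd β θ x y a b h) (ha : 0 ≤ a) (hb : 0 ≤ b) (hx : 0 ≤ x) (hx3 : x ≤ 3) (hy : 0 ≤ y) :
    ‖P (pt θ x y (-Real.pi) 0.224) - P (pt θ x y (-Real.pi) 1)‖ ≤
      Ex β x y * (a * (0.776 * Real.exp (-(0.7 + 0.8 * x + 3.14 * y) / β)) +
        b * (2.561 * Real.exp (-(0.7 + 0.8 * x + 3.14 * y) / β))) := by
  have hE := Ex_pos β x y
  have hpi := Real.pi_gt_d6
  have hpi' := Real.pi_lt_d6
  have h1 := norm_ver_le hp.diff hp.prim (a := y + 1) (b := y + 0.224) (X := θ + x + -Real.pi)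
    (C := Ex β x y * (a + b * 3.3) * Real.exp (-(0.7 + 0.8 * x + 3.14 * y) / β)) (fun Y' hY' => by
      rw [uIoc_of_ge (by linarith), mem_Ioc] at hY'
      obtain ⟨Y, hY⟩ : ∃ Y : ℝ, Y = Y' - y := ⟨_, rfl⟩
      have hY1 : 0.224 ≤ Y := by linarith [hY'.1]
      have hY2 : Y ≤ 1 := by linarith [hY'.2]
      have e : Y' = y + Y := by linarith
      rw [e]
      refine (hH (-Real.pi) Y).trans ?_
      have h2 : Real.exp (gre x y (-Real.pi) Y / β) ≤ Real.exp (-(0.7 + 0.8 * x + 3.14 * y) / β) :=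
        Real.exp_le_exp.2 (div_le_div_of_nonneg_right (gre_L2 hx hx3 hy hY1 hY2) hβ.le)
      have h3 : Real.sqrt ((-Real.pi) ^ 2 + Y ^ 2) ≤ 3.3 := by
        refine Real.sqrt_le_iff.2 ⟨by norm_num, ?_⟩
        nlinarith
      have h4 : a + b * Real.sqrt ((-Real.pi) ^ 2 + Y ^ 2) ≤ a + b * 3.3 := by
        have := mul_le_mul_of_nonneg_left h3 hb; linarith
      have h5 := Real.sqrt_nonneg ((-Real.pi) ^ 2 + Y ^ 2)
      exact mul_le_mul (mul_le_mul_of_nonneg_left h4 hE.le) h2 (Real.exp_pos _).le (by positivity))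
  unfold pt
  refine h1.trans ?_
  have e : |y + 0.224 - (y + 1)| = 0.776 := by
    rw [show y + 0.224 - (y + 1) = -0.776 by ring]
    norm_num
  rw [e]
  have hX := Real.exp_pos (-(0.7 + 0.8 * x + 3.14 * y) / β)
  have h6 : 0 ≤ Ex β x y * b * Real.exp (-(0.7 + 0.8 * x + 3.14 * y) / β) := by positivity
  nlinarith

/-- all tails -/
theorem tails_le {β θ x y a b : ℝ} {h P : ℂ → ℂ} {lL V lR : ℂ} (hp : Pack h P lL V lR) (hβ : 0 < β)
    (hH : RelBd β θ x y a b h) (ha : 0 ≤ a) (hb : 0 ≤ b) (hx : 0 < x) (hx3 : x ≤ 3) (hy : 0 ≤ y) (hy7 : y ≤ 0.7)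
    (hP : x ^ 2 + y ^ 2 ≤ 9) (hk1 : 0 < 0.224 + 0.8691 * x - 0.5243 * y) :
    ‖(lR - lL) - (P (pt θ x y 0.768 (-0.224)) - P (pt θ x y (-0.768) 0.224))‖ ≤
      Ex β x y * (a * (tR1 β x y + tR2 β x y) + b * (FR β x y -
        cenF (aR x y / β) (PP x y / β) (cR x y) 0.1765 0.0437)) := by
  have hpi := Real.pi_gt_d6
  have hpi' := Real.pi_lt_d6
  have hE := Ex_pos β x y
  have sq8 : Real.sqrt (0.768 ^ 2 + 0.224 ^ 2) ≤ 0.8 := by
    refine Real.sqrt_le_iff.2 ⟨by norm_num, by norm_num⟩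
  -- left
  have l1 := leg_le hp hβ hH ha hb (X := -0.768) (Y := 0.224) (dx := -1) (dy := 0) (l := Real.pi - 0.768)
    (g := 0.172 + 0.201 * x + 0.2127 * y) (k := 0.224 + 0.5515 * x) (z := 0.8) (w := 1) (by norm_num) (by linarith)
    (by positivity) (by norm_num) (by norm_num)
    (fun t h0 _ => by
      have := sqrt_tri (X := -0.768) (Y := 0.224) (t := t) (dx := -1) (dy := 0) (z := 0.8) (by norm_num) h0
        (by rw [neg_sq]; exact sq8)
      rw [one_mul]; exact this)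
    (fun t h0 h1 => by
      have := gre_L1 (x := x) (y := y) (t := 0.768 + t) hx.le hy (by linarith) (by linarith)
      rw [show (-0.768 : ℝ) + t * -1 = -(0.768 + t) by ring, show (0.224 : ℝ) + t * 0 = 0.224 by ring]
      refine this.trans (le_of_eq (by ring)))
  rw [show (-0.768 : ℝ) + (Real.pi - 0.768) * -1 = -Real.pi by ring,
    show (0.224 : ℝ) + (Real.pi - 0.768) * 0 = 0.224 by ring, norm_sub_rev] at l1
  have l2 := leg_L2 hp hβ hH ha hb hx.le hx3 hy
  have l3 := ray_left hp hβ hH ha hb (X := -Real.pi) (Y := 1) (g := 3) (k := 0.3) (z := 3.3) (by linarith) (by norm_num)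
    (by refine Real.sqrt_le_iff.2 ⟨by norm_num, ?_⟩; nlinarith)
    (fun t h0 => gre_L3 hx.le hy hP h0)
  -- right
  have r1 := leg_le hp hβ hH ha hb (X := 0.768) (Y := -0.224) (dx := 1) (dy := 0) (l := Real.pi / 2 - 0.768)
    (g := 0.172 + 0.324 * x + 0.1011 * y) (k := 0.224 + 0.8691 * x - 0.5243 * y) (z := 0.8) (w := 1) (by norm_num)
    (by linarith) hk1 (by norm_num) (by norm_num)
    (fun t h0 _ => by
      have := sqrt_tri (X := 0.768) (Y := -0.224) (t := t) (dx := 1) (dy := 0) (z := 0.8) (by norm_num) h0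
        (by rw [neg_sq]; exact sq8)
      rw [one_mul]; exact this)
    (fun t h0 h1 => by
      have := gre_R1 (x := x) (y := y) (X := 0.768 + t) hx.le hy (by linarith) (by linarith)
      rw [show (0.768 : ℝ) + t * 1 = 0.768 + t by ring, show (-0.224 : ℝ) + t * 0 = -0.224 by ring]
      refine this.trans (le_of_eq (by ring)))
  rw [show (0.768 : ℝ) + (Real.pi / 2 - 0.768) * 1 = Real.pi / 2 by ring,
    show (-0.224 : ℝ) + (Real.pi / 2 - 0.768) * 0 = -0.224 by ring] at r1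
  have r2 := leg_le hp hβ hH ha hb (X := Real.pi / 2) (Y := -0.224) (dx := 0) (dy := -1) (l := y + 0.576)
    (g := 0.3518 + 1.224 * x - 0.3198 * y) (k := 1.57) (z := 1.587) (w := 1) (by norm_num)
    (by linarith) (by norm_num) (by norm_num) (by norm_num)
    (fun t h0 _ => by
      have := sqrt_tri (X := Real.pi / 2) (Y := -0.224) (t := t) (dx := 0) (dy := -1) (z := 1.587) (by norm_num) h0
        (by refine Real.sqrt_le_iff.2 ⟨by norm_num, ?_⟩; nlinarith)
      rw [one_mul]; exact this)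
    (fun t h0 h1 => by
      have := gre_R2 (x := x) (y := y) (V := 0.224 + t) hx.le hy (by linarith)
      rw [show Real.pi / 2 + t * 0 = Real.pi / 2 by ring, show (-0.224 : ℝ) + t * -1 = -(0.224 + t) by ring]
      refine this.trans (le_of_eq (by ring)))
  rw [show Real.pi / 2 + (y + 0.576) * 0 = Real.pi / 2 by ring,
    show (-0.224 : ℝ) + (y + 0.576) * -1 = -(y + 0.8) by ring] at r2
  have r3 := leg_le hp hβ hH ha hb (X := Real.pi / 2) (Y := -(y + 0.8)) (dx := 1) (dy := 0) (l := Real.pi / 2)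
    (g := 1.256 + 1.8 * x) (k := 0.8) (z := 2.18) (w := 1) (by norm_num)
    (by linarith) (by norm_num) (by norm_num) (by norm_num)
    (fun t h0 _ => by
      have := sqrt_tri (X := Real.pi / 2) (Y := -(y + 0.8)) (t := t) (dx := 1) (dy := 0) (z := 2.18) (by norm_num) h0
        (by refine Real.sqrt_le_iff.2 ⟨by norm_num, ?_⟩; nlinarith)
      rw [one_mul]; exact this)
    (fun t h0 h1 => by
      have := gre_R3a (x := x) (y := y) (X := Real.pi / 2 + t) hx.le hy (by linarith) (by linarith)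
      rw [show Real.pi / 2 + t * 1 = Real.pi / 2 + t by ring, show (-(y + 0.8) : ℝ) + t * 0 = -(y + 0.8) by ring]
      refine this.trans (le_of_eq (by ring)))
  rw [show Real.pi / 2 + Real.pi / 2 * 1 = Real.pi by ring,
    show (-(y + 0.8) : ℝ) + Real.pi / 2 * 0 = -(y + 0.8) by ring] at r3
  have r4 := leg_le hp hβ hH ha hb (X := Real.pi) (Y := -(y + 0.8)) (dx := 1) (dy := 0) (l := Real.pi / 2)
    (g := 2.513 + x * (1.8 + y) - y * Real.exp (y + 0.8)) (k := 0.8) (z := 3.49) (w := 1) (by norm_num)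
    (by linarith) (by norm_num) (by norm_num) (by norm_num)
    (fun t h0 _ => by
      have := sqrt_tri (X := Real.pi) (Y := -(y + 0.8)) (t := t) (dx := 1) (dy := 0) (z := 3.49) (by norm_num) h0
        (by refine Real.sqrt_le_iff.2 ⟨by norm_num, ?_⟩; nlinarith)
      rw [one_mul]; exact this)
    (fun t h0 h1 => by
      have := gre_R3c (x := x) (y := y) (X := Real.pi + t) hx.le hy (by linarith) (by linarith)
      rw [show Real.pi + t * 1 = Real.pi + t by ring, show (-(y + 0.8) : ℝ) + t * 0 = -(y + 0.8) by ring]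
      refine this.trans (le_of_eq (by ring)))
  rw [show Real.pi + Real.pi / 2 * 1 = 3 * Real.pi / 2 by ring,
    show (-(y + 0.8) : ℝ) + Real.pi / 2 * 0 = -(y + 0.8) by ring] at r4
  obtain ⟨m, hm⟩ : ∃ m : ℝ, m = max (Real.exp (y + 0.8) * x - 0.8) 0.5 := ⟨_, rfl⟩
  have hm1 : Real.exp (y + 0.8) * x - 0.8 ≤ m := by rw [hm]; exact le_max_left _ _
  have hm2 : 0.5 ≤ m := by rw [hm]; exact le_max_right _ _
  have r5 := leg_le hp hβ hH ha hb (X := 3 * Real.pi / 2 + 0.7) (Y := -(y + 0.8)) (dx := -1) (dy := 0) (l := 0.7)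
    (g := 3.7696 + x * (1.8 + y) - y * Real.exp (y + 0.8) - 0.7 * m) (k := m) (z := 5.62) (w := 0) (by norm_num)
    (by norm_num) (by linarith) (by norm_num) (by norm_num)
    (fun t h0 h1 => by
      rw [zero_mul, add_zero]
      refine Real.sqrt_le_iff.2 ⟨by norm_num, ?_⟩
      have h2 : 0 ≤ 3 * Real.pi / 2 + 0.7 + t * -1 := by linarith
      have h3 : 3 * Real.pi / 2 + 0.7 + t * -1 ≤ 5.4124 := by linarith
      have h4 := pow_le_pow_left₀ h2 h3 2
      nlinarith)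
    (fun t h0 h1 => by
      have := gre_R3d (x := x) (y := y) (s := 0.7 - t) hx.le hy (by linarith)
      rw [show 3 * Real.pi / 2 + 0.7 + t * -1 = 3 * Real.pi / 2 + (0.7 - t) by ring,
        show (-(y + 0.8) : ℝ) + t * 0 = -(y + 0.8) by ring]
      have h2 : (Real.exp (y + 0.8) * x - 0.8) * (0.7 - t) ≤ m * (0.7 - t) :=
        mul_le_mul_of_nonneg_right hm1 (by linarith)
      linarith)
  rw [show 3 * Real.pi / 2 + 0.7 + 0.7 * -1 = 3 * Real.pi / 2 by ring,
    show (-(y + 0.8) : ℝ) + 0.7 * 0 = -(y + 0.8) by ring, norm_sub_rev] at r5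
  have r6 := ray_right hp hβ hH ha hb (X := 3 * Real.pi / 2 + 0.7) (Y := -(y + 0.8))
    (g := 4.3296 + x * (1.8 + y) - Real.exp (y + 0.8) * PP x y) (k := 0.8) (z := 5.62) (by linarith) (by norm_num)
    (by
      refine Real.sqrt_le_iff.2 ⟨by norm_num, ?_⟩
      have h3 : 3 * Real.pi / 2 + 0.7 ≤ 5.4124 := by linarith
      have h4 := pow_le_pow_left₀ (by linarith) h3 2
      nlinarith)
    (fun t h0 => gre_R3e)
  -- sum
  have e : (lR - lL) - (P (pt θ x y 0.768 (-0.224)) - P (pt θ x y (-0.768) 0.224)) =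
      (lR - P (pt θ x y (3 * Real.pi / 2 + 0.7) (-(y + 0.8)))) +
      (P (pt θ x y (3 * Real.pi / 2 + 0.7) (-(y + 0.8))) - P (pt θ x y (3 * Real.pi / 2) (-(y + 0.8)))) +
      (P (pt θ x y (3 * Real.pi / 2) (-(y + 0.8))) - P (pt θ x y Real.pi (-(y + 0.8)))) +
      (P (pt θ x y Real.pi (-(y + 0.8))) - P (pt θ x y (Real.pi / 2) (-(y + 0.8)))) +
      (P (pt θ x y (Real.pi / 2) (-(y + 0.8))) - P (pt θ x y (Real.pi / 2) (-0.224))) +
      (P (pt θ x y (Real.pi / 2) (-0.224)) - P (pt θ x y 0.768 (-0.224))) +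
      (P (pt θ x y (-0.768) 0.224) - P (pt θ x y (-Real.pi) 0.224)) +
      (P (pt θ x y (-Real.pi) 0.224) - P (pt θ x y (-Real.pi) 1)) +
      (P (pt θ x y (-Real.pi) 1) - lL) := by ring
  rw [e]
  refine (norm_add_le_of_le (norm_add_le_of_le (norm_add_le_of_le (norm_add_le_of_le (norm_add_le_of_le
    (norm_add_le_of_le (norm_add_le_of_le (norm_add_le_of_le r6 r5) r4) r3) r2) r1) l1) l2) l3).trans (le_of_eq ?_)
  unfold tR1 tR2 FR legM
  rw [← hm]
  unfold legV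
  ring

end Sok.B2
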