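import Pool.Agent.Lib.MP_816dec_an.B2Geo

/-!
MP_816dec_an, b = 2: the master inequalities (errors of the saddle lemmas in terms of a few constants).
-/

set_option autoImplicit false

open Set Filter Topology

namespace Sok.B2

/-- `σ = √(10β/κ)` -/
noncomputable def sg (β κ : ℝ) : ℝ := Real.sqrt (10 * β / κ)

theorem sg_pos {β κ : ℝ} (hβ : 0 < β) (hκ : 0 < κ) : 0 < sg β κ := Real.sqrt_pos.2 (by positivity)

theorem sg_sq {β κ : ℝ} (hβ : 0 < β) (hκ : 0 < κ) : sg β κ ^ 2 = 10 * β / κ := Real.sq_sqrt (by positivity)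

theorem leg2 {β κ g k z G K b v m : ℝ} (hβ : 0 < β) (hκ : 0 < κ) (hβκ : 10 * β ≤ κ)
    (hz : 0 ≤ z) (hG0 : 0 ≤ G) (hG : G * κ ≤ 10 * g) (hK0 : 0 < K) (hK : K * κ ≤ 10 * k)
    (hb : Real.exp (-G) ≤ b) (hv : b / K ≤ v) (hm : b * (z / K + 1 / K ^ 2) ≤ m) :
    legV β g k ≤ sg β κ * v ∧ legM β g k z ≤ sg β κ * m := by
  have hs := (sg_pos hβ hκ).le
  constructor
  · refine (legV_le hβ hκ hβκ (le_refl (sg β κ)) hG0 hG hK0 hK).trans (mul_le_mul_of_nonneg_left ?_ hs)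
    refine le_trans ?_ hv
    gcongr
  · refine (legM_le hβ hκ hβκ (le_refl (sg β κ)) hz hG0 hG hK0 hK).trans (mul_le_mul_of_nonneg_left ?_ hs)
    refine le_trans ?_ hm
    gcongr

theorem exp2 {β κ g G b : ℝ} (hβ : 0 < β) (hκ : 0 < κ) (hβκ : 10 * β ≤ κ) (hG0 : 1 / 2 ≤ G) (hG : G * κ ≤ 10 * g)
    (hb : Real.exp (-G) ≤ b) : Real.exp (-g / β) ≤ sg β κ * b :=
  (exp_le hβ hκ hβκ (le_refl (sg β κ)) hG0 hG).trans (mul_le_mul_of_nonneg_left hb (sg_pos hβ hκ).le)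

/-- plain exponential decay: `D κ ≤ 10 d` -/
theorem exp3 {β κ d G b : ℝ} (hβ : 0 < β) (hβκ : 10 * β ≤ κ) (hG0 : 0 ≤ G) (hG : G * κ ≤ 10 * d)
    (hb : Real.exp (-G) ≤ b) : Real.exp (-d / β) ≤ b := by
  refine le_trans (Real.exp_le_exp.2 ?_) hb
  rw [neg_div, neg_le_neg_iff, le_div_iff₀ hβ]
  have : G * β ≤ G * (κ / 10) := mul_le_mul_of_nonneg_left (by linarith) hG0
  linarith

theorem legM_eq_mul {β g k : ℝ} (z : ℝ) : legM β g k z = z * legV β g k + Real.exp (-g / β) * (β / k) ^ 2 := by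
  unfold legM legV; ring

theorem rightMaster {β κ x y A ρ c0 ℓ q sA sc e f t0 : ℝ} {v1 v2 v3 v4 v5 v6 v7 v8 v9 m1 m3 m4 m5 m6 m7 m9 : ℝ}
    (hβ : 0 < β) (hκ : 0 < κ) (hβκ : 10 * β ≤ κ) (hx : 0 < x) (hy : 0 ≤ y)
    (hA : 0 < A) (ha : A * κ ≤ 10 * aR x y) (hρ0 : 0 ≤ ρ) (hρ : x ^ 2 + y ^ 2 ≤ (ρ * aR x y) ^ 2)
    (hc0 : 0 < c0) (hc : c0 ≤ 1 - 0.257 * ρ)
    (hℓ : 0 ≤ ℓ) (hD : (1 + y) ^ 2 + x ^ 2 ≤ (ℓ ^ 2 * aR x y) ^ 2) (hq0 : 0 ≤ q)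
    (hDR : (1 + y) ^ 2 + x ^ 2 ≤ (0.6283 * q ^ 2 * κ) ^ 2)
    (hsA : 0 < sA) (hsA' : sA ^ 2 ≤ A) (hsc : 0 < sc) (hsc' : sc ^ 2 ≤ c0)
    (ht0 : 0 ≤ t0) (ht0' : 6.2832 ≤ t0 ^ 2 * (c0 * A))
    (L1 : legV β (0.172 + 0.201 * x + 0.2127 * y) (0.224 + 0.5515 * x) ≤ sg β κ * v1 ∧
      legM β (0.172 + 0.201 * x + 0.2127 * y) (0.224 + 0.5515 * x) 0.8 ≤ sg β κ * m1)
    (L2 : Real.exp (-(0.7 + 0.8 * x + 3.14 * y) / β) ≤ sg β κ * v2)
    (L3 : legV β 3 0.3 ≤ sg β κ * v3 ∧ legM β 3 0.3 3.3 ≤ sg β κ * m3)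
    (L4 : legV β (0.172 + 0.324 * x + 0.1011 * y) (0.224 + 0.8691 * x - 0.5243 * y) ≤ sg β κ * v4 ∧
      legM β (0.172 + 0.324 * x + 0.1011 * y) (0.224 + 0.8691 * x - 0.5243 * y) 0.8 ≤ sg β κ * m4)
    (L5 : legV β (0.3518 + 1.224 * x - 0.3198 * y) 1.57 ≤ sg β κ * v5 ∧
      legM β (0.3518 + 1.224 * x - 0.3198 * y) 1.57 1.587 ≤ sg β κ * m5)
    (L6 : legV β (1.256 + 1.8 * x) 0.8 ≤ sg β κ * v6 ∧ legM β (1.256 + 1.8 * x) 0.8 2.18 ≤ sg β κ * m6)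
    (L7 : legV β (2.513 + x * (1.8 + y) - y * Real.exp (y + 0.8)) 0.8 ≤ sg β κ * v7 ∧
      legM β (2.513 + x * (1.8 + y) - y * Real.exp (y + 0.8)) 0.8 3.49 ≤ sg β κ * m7)
    (L8 : legV β (3.7696 + x * (1.8 + y) - y * Real.exp (y + 0.8) - 0.7 * max (Real.exp (y + 0.8) * x - 0.8) 0.5)
      (max (Real.exp (y + 0.8) * x - 0.8) 0.5) ≤ sg β κ * v8)
    (L9 : legV β (4.3296 + x * (1.8 + y) - Real.exp (y + 0.8) * PP x y) 0.8 ≤ sg β κ * v9 ∧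
      legM β (4.3296 + x * (1.8 + y) - Real.exp (y + 0.8) * PP x y) 0.8 5.62 ≤ sg β κ * m9)
    (hv0 : 0 ≤ v1 + 0.776 * v2 + v3 + v4 + (v5 + v6 + v7 + v8 + v9))
    (hm0 : 0 ≤ m1 + 2.561 * v2 + m3 + m4 + m5 + m6 + m7 + 5.62 * v8 + m9)
    (hE : ℓ * (3 * ρ * 0.0437 / A + 7.5 * (ρ * 0.1765) ^ 2 / (c0 ^ 3 * sc * A) +
      2.5 / 2.5066 * (Real.exp (-(0.32 * A)) / sA)) +
      q * (v1 + 0.776 * v2 + v3 + v4 + (v5 + v6 + v7 + v8 + v9)) ≤ e)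
    (hF : ℓ * (ρ / (2 * A) + 16 / 2.5066 * (ρ * 0.0437) / (A * sA) +
      48 / 2.5066 * (ρ * 0.1765) ^ 2 / (c0 ^ 4 * (A * sA))) +
      q * (m1 + 2.561 * v2 + m3 + m4 + m5 + m6 + m7 + 5.62 * v8 + m9) ≤ f) :
    ER β x y ≤ e * A0 β x y ∧ FR β x y ≤ f * A0 β x y ∧ 0 < A0 β x y ∧ sg β κ ≤ A0 β x y * q ∧
    absR β x y ≤ sg β κ * (t0 + (v1 + 0.776 * v2 + v3 + v4)) ∧
    legV β (0.3518 + 1.224 * x - 0.3198 * y) 1.57 ≤ sg β κ * v5 := by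
  have haR : 0 < aR x y := by unfold aR; positivity
  have hD0 : 0 < (1 + y) ^ 2 + x ^ 2 := by positivity
  have hDs : 0 < Real.sqrt ((1 + y) ^ 2 + x ^ 2) := Real.sqrt_pos.2 hD0
  have hA0 : 0 < A0 β x y := by
    unfold A0
    apply Real.sqrt_pos.2
    have := Real.pi_pos
    positivity
  have hq1 : 10 * Real.sqrt ((1 + y) ^ 2 + x ^ 2) ≤ 6.283 * q ^ 2 * κ := by
    have h1 : Real.sqrt ((1 + y) ^ 2 + x ^ 2) ≤ 0.6283 * q ^ 2 * κ := by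
      apply Real.sqrt_le_iff.2
      exact ⟨by positivity, hDR⟩
    linarith
  have hσ : sg β κ ≤ A0 β x y * q := A0_q hβ hκ hq0 hq1 hD0
  have hlam : Real.sqrt ((1 + y) ^ 2 + x ^ 2) ≤ ℓ ^ 2 * (aR x y / β * β) := by
    rw [div_mul_cancel₀ _ hβ.ne']
    exact Real.sqrt_le_iff.2 ⟨by positivity, hD⟩
  have haA : A ≤ aR x y / β := by
    rw [le_div_iff₀ hβ]
    nlinarith
  have hs : PP x y / β ≤ ρ * (aR x y / β) := by
    rw [← mul_div_assoc]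
    have : PP x y ≤ ρ * aR x y := Real.sqrt_le_iff.2 ⟨by positivity, hρ⟩
    gcongr
  have hcR : c0 ≤ cR x y := by
    unfold cR
    have h1 : PP x y / aR x y ≤ ρ := by
      rw [div_le_iff₀ haR]
      exact Real.sqrt_le_iff.2 ⟨by positivity, hρ⟩
    have : 0.257 * PP x y / aR x y = 0.257 * (PP x y / aR x y) := by ring
    rw [this]
    linarith
  have hPP : 0 ≤ PP x y / β := div_nonneg (Real.sqrt_nonneg _) hβ.le
  have cE := cenE_le (φ3 := 0.1765) (φ4 := 0.0437) hβ hD0 hℓ hlam hA haA hPP hs hρ0 hc0 hcR (by norm_num) (by norm_num)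
    hsA hsA' hsc hsc'
  have cF := cenF_le (φ3 := 0.1765) (φ4 := 0.0437) hβ hD0 hℓ hlam hA haA hPP hs hρ0 hc0 hcR (by norm_num) (by norm_num)
    hsA hsA'
  refine ⟨?_, ?_, hA0, hσ, ?_, L5.1⟩
  · unfold ER tR1 tR2
    have h1 : sg β κ * (v1 + 0.776 * v2 + v3 + v4 + (v5 + v6 + v7 + v8 + v9)) ≤
        A0 β x y * q * (v1 + 0.776 * v2 + v3 + v4 + (v5 + v6 + v7 + v8 + v9)) := mul_le_mul_of_nonneg_right hσ hv0
    have h2 := mul_le_mul_of_nonneg_left hE hA0.le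
    have l1 := L1.1
    have l3 := L3.1
    have l4 := L4.1
    have l5 := L5.1
    have l6 := L6.1
    have l7 := L7.1
    have l9 := L9.1
    linarith
  · unfold FR
    have h1 : sg β κ * (m1 + 2.561 * v2 + m3 + m4 + m5 + m6 + m7 + 5.62 * v8 + m9) ≤
        A0 β x y * q * (m1 + 2.561 * v2 + m3 + m4 + m5 + m6 + m7 + 5.62 * v8 + m9) := mul_le_mul_of_nonneg_right hσ hm0
    have h2 := mul_le_mul_of_nonneg_left hF hA0.le
    have l1 := L1.2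
    have l3 := L3.2
    have l4 := L4.2
    have l5 := L5.2
    have l6 := L6.2
    have l7 := L7.2
    have l9 := L9.2
    linarith
  · unfold absR tR1
    have l1 := L1.1
    have l3 := L3.1
    have l4 := L4.1
    have h1 : Real.sqrt (2 * Real.pi / (cR x y * (aR x y / β))) ≤ sg β κ * t0 := by
      have hcR0 : 0 < cR x y := hc0.trans_le hcR
      have hsg := sg_pos hβ hκ
      apply Real.sqrt_le_iff.2
      refine ⟨by positivity, ?_⟩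
      rw [div_le_iff₀ (by positivity)]
      have hpi : 2 * Real.pi ≤ 6.2832 := by have := Real.pi_lt_d6; linarith
      refine hpi.trans (ht0'.trans ?_)
      rw [mul_pow, sg_sq hβ hκ]
      have h3 : A ≤ 10 * β / κ * (aR x y / β) := by
        have : 10 * β / κ * (aR x y / β) = 10 * aR x y / κ := by field_simp
        rw [this, le_div_iff₀ hκ]
        exact ha
      have h4 : c0 * A ≤ cR x y * (10 * β / κ * (aR x y / β)) := mul_le_mul hcR h3 hA.le hcR0.le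
      have h5 := mul_le_mul_of_nonneg_left h4 (sq_nonneg t0)
      calc t0 ^ 2 * (c0 * A) ≤ _ := h5
        _ = _ := by ring
    linarith

section fac
variable {κ τ x y u : ℝ}

theorem e8l : (2.2255 : ℝ) ≤ Real.exp 0.8 := ep (by norm_num) (by norm_num)
theorem e8u : Real.exp 0.8 ≤ 2.2256 := eu (by norm_num) (by norm_num) (by norm_num)

theorem expy8 (y : ℝ) : Real.exp (y + 0.8) = Real.exp y * Real.exp 0.8 := Real.exp_add _ _

/-- `Z = y e^{y+4/5} ≤ Zm` -/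
theorem RS.Z_le {Y E Zm : ℝ} (h : RS κ τ x y u) (hy : y ≤ Y) (hE : Real.exp Y ≤ E) (hZ : Y * E * 2.2256 ≤ Zm) :
    y * Real.exp (y + 0.8) ≤ Zm := by
  rw [expy8]
  have h0 := h.y0
  have h1 : Real.exp y ≤ E := (Real.exp_le_exp.2 hy).trans hE
  have h2 := Real.exp_pos y
  have h3 := Real.exp_pos (0.8 : ℝ)
  calc y * (Real.exp y * Real.exp 0.8) ≤ Y * (E * 2.2256) := by
        apply mul_le_mul hy (mul_le_mul h1 e8u h3.le (by linarith)) (by positivity) (by linarith)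
    _ = Y * E * 2.2256 := by ring
    _ ≤ _ := hZ

theorem RS.Z_le_k (h : RS κ τ x y u) : y * Real.exp (y + 0.8) ≤ 2.2256 * κ := by
  rw [expy8]
  have h1 := h.ey
  have h2 := Real.sin_le_one u
  have h3 := h.kpos
  have h4 := e8u
  have h5 := Real.exp_pos (0.8 : ℝ)
  have h6 := h.sin_nonneg
  calc y * (Real.exp y * Real.exp 0.8) = (κ * Real.sin u) * Real.exp 0.8 := by rw [← h1]; ring
    _ ≤ (κ * 1) * 2.2256 := by gcongr
    _ = _ := by ring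

/-- `μ e^{y+4/5} ≤ 9/5 + y` -/
theorem RS.mu_le {Y E μ : ℝ} (h : RS κ τ x y u) (hy : y ≤ Y) (hE : Real.exp Y ≤ E) (hμ0 : 0 ≤ μ)
    (hμ : μ * (2.2256 * E) ≤ 1.8 + Y) : μ * Real.exp (y + 0.8) ≤ 1.8 + y := by
  rw [expy8]
  have h0 := h.y0
  have h1 := Real.add_one_le_exp (Y - y)
  have h2 : Real.exp y * Real.exp (Y - y) = Real.exp Y := by rw [← Real.exp_add]; congr 1; ring
  have h3 := Real.exp_pos y
  have h4 := e8u
  have h5 : Real.exp y * (1.8 + Y) ≤ Real.exp Y * (1.8 + y) := by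
    rw [← h2]
    have : (1.8 + Y) ≤ Real.exp (Y - y) * (1.8 + y) := by nlinarith
    calc Real.exp y * (1.8 + Y) ≤ Real.exp y * (Real.exp (Y - y) * (1.8 + y)) := by gcongr
      _ = _ := by ring
  have h6 : Real.exp y * (μ * (2.2256 * E)) ≤ E * (1.8 + y) := by
    calc Real.exp y * (μ * (2.2256 * E)) ≤ Real.exp y * (1.8 + Y) := by gcongr
      _ ≤ Real.exp Y * (1.8 + y) := h5
      _ ≤ E * (1.8 + y) := by gcongr
  have hE0 : 0 < E := (Real.exp_pos _).trans_le hE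
  have h7 : μ * (Real.exp y * 2.2256) ≤ 1.8 + y := by
    have : E * (μ * (Real.exp y * 2.2256)) ≤ E * (1.8 + y) := by
      calc E * (μ * (Real.exp y * 2.2256)) = Real.exp y * (μ * (2.2256 * E)) := by ring
        _ ≤ _ := h6
    exact le_of_mul_le_mul_left this hE0
  refine le_trans ?_ h7
  gcongr

theorem RS.WP (h : RS κ τ x y u) : Real.exp (y + 0.8) * PP x y ≤ 2.2256 * κ := by
  have h1 := h.sq
  have h3 := h.kpos
  have h4 : Real.exp y * PP x y = κ := by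
    have h5 : (Real.exp y * PP x y) ^ 2 = κ ^ 2 := by
      unfold PP
      rw [mul_pow, Real.sq_sqrt (by positivity)]
      linarith
    have h6 : 0 ≤ Real.exp y * PP x y := mul_nonneg (Real.exp_pos _).le (Real.sqrt_nonneg _)
    exact (pow_left_inj₀ h6 h3.le (by norm_num)).1 h5
  rw [expy8]
  have h5 := e8u
  calc Real.exp y * Real.exp 0.8 * PP x y = (Real.exp y * PP x y) * Real.exp 0.8 := by ring
    _ = κ * Real.exp 0.8 := by rw [h4]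
    _ ≤ κ * 2.2256 := by gcongr
    _ = _ := by ring

theorem RS.EZ (h : RS κ τ x y u) :
    (Real.exp (y + 0.8) * x) ^ 2 + (y * Real.exp (y + 0.8)) ^ 2 = (Real.exp 0.8 * κ) ^ 2 := by
  rw [expy8]
  have h1 := h.sq
  calc (Real.exp y * Real.exp 0.8 * x) ^ 2 + (y * (Real.exp y * Real.exp 0.8)) ^ 2
      = ((x ^ 2 + y ^ 2) * Real.exp y ^ 2) * Real.exp 0.8 ^ 2 := by ring
    _ = _ := by rw [h1]; ring

theorem RS.EZ_le (h : RS κ τ x y u) :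
    (Real.exp (y + 0.8) * x) ^ 2 + (y * Real.exp (y + 0.8)) ^ 2 ≤ (2.2256 * κ) ^ 2 := by
  rw [h.EZ]
  have := h.kpos
  have := e8u
  have := Real.exp_pos (0.8 : ℝ)
  gcongr

theorem RS.EZ_ge (h : RS κ τ x y u) :
    (2.2255 * κ) ^ 2 ≤ (Real.exp (y + 0.8) * x) ^ 2 + (y * Real.exp (y + 0.8)) ^ 2 := by
  rw [h.EZ]
  have := h.kpos
  have := e8l
  gcongr

/-- `x (9/5 + y) ≥ p κ + q` -/
theorem RS.xy_ge {Y E p q : ℝ} (h : RS κ τ x y u) (hy : y ≤ Y) (hE : Real.exp Y ≤ E)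
    (hpq : (p * κ + q) ^ 2 ≤ (κ * ((1.8 + Y) / E)) ^ 2 - (Y * (1.8 + Y)) ^ 2) : p * κ + q ≤ x * (1.8 + y) := by
  have h0 := h.y0
  have hx0 := h.x0
  have hk := h.kpos
  have hE0 : 0 < E := (Real.exp_pos _).trans_le hE
  have h1 := Real.add_one_le_exp (Y - y)
  have h2 : Real.exp (-y) = Real.exp (-Y) * Real.exp (Y - y) := by rw [← Real.exp_add]; congr 1; ring
  have h3 : (1.8 + Y) / E ≤ Real.exp (-y) * (1.8 + y) := by
    rw [div_le_iff₀ hE0, h2]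
    have e1 : (1.8 + Y) ≤ Real.exp (Y - y) * (1.8 + y) := by nlinarith
    have e2 : 1 ≤ Real.exp (-Y) * E := by
      have : Real.exp (-Y) * Real.exp Y = 1 := by rw [← Real.exp_add]; simp
      rw [← this]
      have := Real.exp_pos (-Y)
      gcongr
    have e3 : 0 ≤ 1.8 + Y := by linarith
    calc 1.8 + Y ≤ (1.8 + Y) * (Real.exp (-Y) * E) := by nlinarith
      _ ≤ (Real.exp (Y - y) * (1.8 + y)) * (Real.exp (-Y) * E) := by
          apply mul_le_mul_of_nonneg_right e1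
          have := Real.exp_pos (-Y)
          positivity
      _ = _ := by ring
  have h4 : (κ * ((1.8 + Y) / E)) ^ 2 ≤ (κ * (Real.exp (-y) * (1.8 + y))) ^ 2 := by
    have : 0 ≤ (1.8 + Y) / E := div_nonneg (by linarith) hE0.le
    gcongr
  have hY0 : 0 ≤ Y := h0.trans hy
  have h5 : (y * (1.8 + y)) ^ 2 ≤ (Y * (1.8 + Y)) ^ 2 := by gcongr
  have h6 := h.normsq
  have h7 : (x * (1.8 + y)) ^ 2 = (κ * (Real.exp (-y) * (1.8 + y))) ^ 2 - (y * (1.8 + y)) ^ 2 := by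
    have : x ^ 2 = κ ^ 2 * Real.exp (-y) ^ 2 - y ^ 2 := by linarith
    calc (x * (1.8 + y)) ^ 2 = x ^ 2 * (1.8 + y) ^ 2 := by ring
      _ = _ := by rw [this]; ring
  exact le_of_sq_le_sq' (by positivity) (by rw [h7]; linarith)

/-- upper bound of `x` -/
theorem RS.x_le {yl E X : ℝ} (h : RS κ τ x y u) (hyl0 : 0 ≤ yl) (hy : yl ≤ y) (hE : Real.exp (-yl) ≤ E) (hX : 0 ≤ X)
    (hpq : κ ^ 2 * E ^ 2 - yl ^ 2 ≤ X ^ 2) : x ≤ X := by
  have h1 := h.normsq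
  have h2 : Real.exp (-y) ≤ E := (Real.exp_le_exp.2 (by linarith)).trans hE
  have h3 : κ ^ 2 * Real.exp (-y) ^ 2 ≤ κ ^ 2 * E ^ 2 := by
    have := Real.exp_pos (-y)
    gcongr
  have h4 : yl ^ 2 ≤ y ^ 2 := by gcongr
  exact le_of_sq_le_sq' hX (by linarith)

/-- `(1+y)² + x² ≤ M` -/
theorem RS.D_le {yl Y E M : ℝ} (h : RS κ τ x y u) (hy : yl ≤ y) (hY : y ≤ Y) (hE : Real.exp (-yl) ≤ E)
    (hM : 1 + 2 * Y + κ ^ 2 * E ^ 2 ≤ M) : (1 + y) ^ 2 + x ^ 2 ≤ M := by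
  have h1 := h.normsq
  have h2 : Real.exp (-y) ≤ E := (Real.exp_le_exp.2 (by linarith)).trans hE
  have h3 : κ ^ 2 * Real.exp (-y) ^ 2 ≤ κ ^ 2 * E ^ 2 := by
    have := Real.exp_pos (-y)
    gcongr
  nlinarith

end fac

end Sok.B2
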