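import Pool.Agent.Lib.MP_816dec_an.B2Mas

/-!
MP_816dec_an, b = 2: the master inequality of the left saddle, and comparison inequalities for the exponent.
-/

set_option autoImplicit false

open Set Filter Topology

namespace Sok.B2

/-- tangent line of the cosine -/
theorem cos_tangent {a b : ℝ} (ha0 : 0 ≤ a) (ha : a ≤ Real.pi / 2) (hb0 : 0 ≤ b) (hb : b ≤ Real.pi / 2) :
    Real.cos b ≤ Real.cos a - Real.sin a * (b - a) := by
  have hpi := Real.pi_pos
  have hd : ∀ t : ℝ, HasDerivAt (fun t : ℝ => Real.cos t + Real.sin a * t) (-Real.sin t + Real.sin a) t := fun t => by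
    have := (Real.hasDerivAt_cos t).add ((hasDerivAt_id t).const_mul (Real.sin a))
    exact this.congr_deriv (by simp)
  rcases le_total b a with h | h
  · have hm : MonotoneOn (fun t : ℝ => Real.cos t + Real.sin a * t) (Icc b a) := by
      apply monotoneOn_of_deriv_nonneg (convex_Icc b a)
      · exact fun t _ => (hd t).continuousAt.continuousWithinAt
      · exact fun t _ => (hd t).differentiableAt.differentiableWithinAt
      · intro t ht
        rw [interior_Icc] at ht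
        rw [(hd t).deriv]
        have := Real.sin_le_sin_of_le_of_le_pi_div_two (by linarith [ht.1] : -(Real.pi / 2) ≤ t) ha ht.2.le
        linarith
    have := hm (left_mem_Icc.2 h) (right_mem_Icc.2 h) h
    simp only at this
    nlinarith
  · have hm : AntitoneOn (fun t : ℝ => Real.cos t + Real.sin a * t) (Icc a b) := by
      apply antitoneOn_of_deriv_nonpos (convex_Icc a b)
      · exact fun t _ => (hd t).continuousAt.continuousWithinAt
      · exact fun t _ => (hd t).differentiableAt.differentiableWithinAt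
      · intro t ht
        rw [interior_Icc] at ht
        rw [(hd t).deriv]
        have := Real.sin_le_sin_of_le_of_le_pi_div_two (by linarith : -(Real.pi / 2) ≤ a) (by linarith [ht.2]) ht.1.le
        linarith
    have := hm (left_mem_Icc.2 h) (right_mem_Icc.2 h) h
    simp only at this
    nlinarith

/-! ### comparison inequalities -/

section cmp
variable {κ τ s x y w u v : ℝ}

/-- upper bound of the exponent at the right saddle by the value at another height -/
theorem RS.h_up (h : RS κ τ x y u) {η E : ℝ} (hE : Real.exp (-η) ≤ E) :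
    x * (1 + y) ≤ (u - τ + κ) * η + κ * E * Real.cos u := by
  have hκ := h.kpos
  have hc := h.cos_pos
  have e1 := Real.add_one_le_exp (y - η)
  have e2 : Real.exp (-η) = Real.exp (-y) * Real.exp (y - η) := by rw [← Real.exp_add]; congr 1; ring
  have e3 : κ * Real.exp (-y) * Real.cos u = x := by
    have := h.ex
    rw [Real.exp_neg]
    have := Real.exp_pos y
    field_simp
    linarith
  have e4 : x * (y - η + 1) ≤ κ * E * Real.cos u := by
    calc x * (y - η + 1) ≤ x * Real.exp (y - η) := mul_le_mul_of_nonneg_left e1 h.x0.le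
      _ = κ * (Real.exp (-y) * Real.exp (y - η)) * Real.cos u := by rw [← e3]; ring
      _ = κ * Real.exp (-η) * Real.cos u := by rw [e2]
      _ ≤ _ := by gcongr
  have e5 : u - τ + κ = x := by rw [h.et]; ring
  rw [e5]
  linarith

/-- lower bound of the exponent at the right saddle -/
theorem RS.h_low (h : RS κ τ x y u) : (κ - τ) * y + κ * Real.exp (-y) ≤ x * (1 + y) := by
  have hκ := h.kpos
  have hu0 := h.u0
  have hu1 := h.u1
  have hy := h.y0
  have e3 : κ * Real.exp (-y) * Real.cos u = x := by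
    have := h.ex
    rw [Real.exp_neg]
    have := Real.exp_pos y
    field_simp
    linarith
  have e4 : κ * Real.exp (-y) * Real.sin u = y := by
    have := h.ey
    rw [Real.exp_neg]
    have := Real.exp_pos y
    field_simp
    linarith
  have e5 : 1 ≤ Real.cos u + u * Real.sin u := by
    have f1 := Real.one_sub_sq_div_two_le_cos (x := u)
    have f2 := sin_ge3 hu0
    have f3 : u ^ 2 ≤ 1.44 := by nlinarith
    nlinarith [mul_le_mul_of_nonneg_left f2 hu0, mul_nonneg (sq_nonneg u) (sub_nonneg.2 f3)]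
  have e6 : 0 < κ * Real.exp (-y) := by have := Real.exp_pos (-y); positivity
  have e7 : κ - τ = x - u := by rw [h.et]; ring
  rw [e7]
  nlinarith [mul_le_mul_of_nonneg_left e5 e6.le]

/-- lower bound of the exponent at the left saddle -/
theorem LS.h_low (h : LS κ s x w v) (hκ : 0 < κ) {α C : ℝ} (hα0 : 0 ≤ α) (hα : α ≤ Real.pi / 2)
    (hC : C ≤ Real.cos α) : κ * C * Real.exp w - (κ + s - α) * w ≤ x * (1 - w) := by
  have e1 := cos_tangent h.v0 h.v1 hα0 hα
  have e2 := Real.exp_pos w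
  have e3 : 0 < κ * Real.exp w := by positivity
  have e4 : κ + s - α = x + (v - α) := by rw [h.es]; ring
  have e5 : κ * Real.exp w * C ≤ κ * Real.exp w * (Real.cos v - Real.sin v * (α - v)) :=
    mul_le_mul_of_nonneg_left (hC.trans e1) e3.le
  have e6 := h.ex
  have e7 := h.ew
  rw [e4]
  have e8 : κ * Real.exp w * (Real.cos v - Real.sin v * (α - v)) = x - w * (α - v) := by
    calc κ * Real.exp w * (Real.cos v - Real.sin v * (α - v))
        = κ * Real.exp w * Real.cos v - (κ * Real.exp w * Real.sin v) * (α - v) := by ring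
      _ = _ := by rw [← e6, ← e7]
  nlinarith

/-- the version with a tangent line of the exponential -/
theorem LS.h_low' (h : LS κ s x w v) (hκ : 0 < κ) {α C ω E : ℝ} (hα0 : 0 ≤ α) (hα : α ≤ Real.pi / 2)
    (hC : C ≤ Real.cos α) (hC0 : 0 ≤ C) (hE : E ≤ Real.exp ω) (hω : ω ≤ 1) :
    κ * C * E * (1 + w - ω) - (κ + s - α) * w ≤ x * (1 - w) := by
  refine le_trans ?_ (h.h_low hκ hα0 hα hC)
  have e1 := Real.add_one_le_exp (w - ω)
  have e2 : Real.exp w = Real.exp ω * Real.exp (w - ω) := by rw [← Real.exp_add]; congr 1; ring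
  have e3 : E * (1 + w - ω) ≤ Real.exp w := by
    rw [e2]
    have hw0 := h.w0
    exact mul_le_mul hE (by linarith) (by linarith) (Real.exp_pos _).le
  have e4 : κ * C * (E * (1 + w - ω)) ≤ κ * C * Real.exp w := mul_le_mul_of_nonneg_left e3 (by positivity)
  linarith

/-- upper bound of the exponent at the left saddle -/
theorem LS.h_up (h : LS κ s x w v) (hκ : 1 ≤ κ) {ω El Eu : ℝ} (hEl : El ≤ Real.exp ω) (hEu : Real.exp ω ≤ Eu)
    (hEl0 : 0 < El) :
    x * (1 - w) ≤ κ * Eu - (κ + s) * ω + ω ^ 2 / (1.96 * (κ * El)) := by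
  have hκ0 : 0 < κ := by linarith
  have e1 := Real.add_one_le_exp (ω - w)
  have e2 : Real.exp ω = Real.exp w * Real.exp (ω - w) := by rw [← Real.exp_add]; congr 1; ring
  have hx0 : 0 ≤ x := by
    rw [h.ex]
    have := h.cos_ge hκ
    have := Real.exp_pos w
    have : 0 ≤ Real.cos v := by linarith
    positivity
  have e3 : x * (ω - w + 1) ≤ κ * Real.exp ω * Real.cos v := by
    calc x * (ω - w + 1) ≤ x * Real.exp (ω - w) := mul_le_mul_of_nonneg_left e1 hx0
      _ = κ * (Real.exp w * Real.exp (ω - w)) * Real.cos v := by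
          calc x * Real.exp (ω - w) = (κ * Real.exp w * Real.cos v) * Real.exp (ω - w) := by rw [← h.ex]
            _ = _ := by ring
      _ = _ := by rw [← e2]
  have hv0 := h.v0
  have hv1 := h.v_le hκ
  have e4 : Real.cos v ≤ 1 - 0.49 * v ^ 2 := by
    have f1 := cos_le4 hv0
    have f2 : v ^ 2 ≤ 0.1426 := by nlinarith
    nlinarith [mul_nonneg (sq_nonneg v) (sub_nonneg.2 f2)]
  have e5 : κ * Real.exp ω * Real.cos v ≤ κ * Real.exp ω - 0.49 * (κ * El) * v ^ 2 := by
    have f1 : κ * Real.exp ω * Real.cos v ≤ κ * Real.exp ω * (1 - 0.49 * v ^ 2) := by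
      have := Real.exp_pos ω
      gcongr
    have f2 : 0.49 * (κ * El) * v ^ 2 ≤ 0.49 * (κ * Real.exp ω) * v ^ 2 := by gcongr
    nlinarith
  have e6 : ω * v - 0.49 * (κ * El) * v ^ 2 ≤ ω ^ 2 / (1.96 * (κ * El)) := by
    rw [le_div_iff₀ (by positivity)]
    nlinarith [sq_nonneg (ω - 0.98 * (κ * El) * v)]
  have e7 : x = κ + s - v := by rw [h.es]; ring
  have e8 : κ * Real.exp ω ≤ κ * Eu := by gcongr
  have e9 : x * (ω - w + 1) = x * (1 - w) + (κ + s - v) * ω := by rw [← e7]; ring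
  rw [e9] at e3
  linarith

/-- the exponent decreases to the left -/
theorem LS.h_mono {x' w' v' s' : ℝ} (h : LS κ s x w v) (h' : LS κ s' x' w' v') (hκ : 1 ≤ κ) (hs : s' ≤ s) :
    x * (1 - w) ≤ x' * (1 - w') := by
  have hκ0 : 0 < κ := by linarith
  have e1 := Real.add_one_le_exp (w' - w)
  have e2 : Real.exp w' = Real.exp w * Real.exp (w' - w) := by rw [← Real.exp_add]; congr 1; ring
  have hx0 : 0 ≤ x := by
    rw [h.ex]
    have := h.cos_ge hκ
    have := Real.exp_pos w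
    have : 0 ≤ Real.cos v := by linarith
    positivity
  have e3 : x * (w' - w + 1) ≤ κ * Real.exp w' * Real.cos v := by
    calc x * (w' - w + 1) ≤ x * Real.exp (w' - w) := mul_le_mul_of_nonneg_left e1 hx0
      _ = κ * (Real.exp w * Real.exp (w' - w)) * Real.cos v := by
          calc x * Real.exp (w' - w) = (κ * Real.exp w * Real.cos v) * Real.exp (w' - w) := by rw [← h.ex]
            _ = _ := by ring
      _ = _ := by rw [← e2]
  have e4 := cos_tangent h'.v0 h'.v1 h.v0 h.v1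
  have e5 : κ * Real.exp w' * Real.cos v ≤ κ * Real.exp w' * (Real.cos v' - Real.sin v' * (v - v')) := by
    have := Real.exp_pos w'
    gcongr
  have e6 : κ * Real.exp w' * (Real.cos v' - Real.sin v' * (v - v')) = x' - w' * (v - v') := by
    calc κ * Real.exp w' * (Real.cos v' - Real.sin v' * (v - v'))
        = κ * Real.exp w' * Real.cos v' - (κ * Real.exp w' * Real.sin v') * (v - v') := by ring
      _ = _ := by rw [← h'.ex, ← h'.ew]
  have e7 : x = κ + s - v := by rw [h.es]; ring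
  have e8 : x' = κ + s' - v' := by rw [h'.es]; ring
  have e9 : x * (w' - w + 1) = x * (1 - w) + x * w' := by ring
  have hw' := h'.w0
  have e10 : x * w' = (κ + s - v) * w' := by rw [← e7]
  have e11 : x' * w' = (κ + s' - v') * w' := by rw [← e8]
  nlinarith

end cmp

/-! ### the master inequality of the left saddle -/

theorem leftMaster {β κ x w A ρ c0 ℓ q sA sc e f t0 : ℝ} {v1 v2 v2' v3 v4 v5 v6 v7 v8 m1 m4 m5 m7 m8 : ℝ}
    (hβ : 0 < β) (hκ : 0 < κ) (hβκ : 10 * β ≤ κ) (hx : 0 < x) (hw : 0 ≤ w)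
    (hA : 0 < A) (ha : A * κ ≤ 10 * x) (hρ0 : 0 ≤ ρ) (hρ : PP x w ≤ ρ * x)
    (hc0 : 0 < c0) (hc : c0 ≤ cL x w)
    (hℓ : 0 ≤ ℓ) (hD : (1 + -w) ^ 2 + x ^ 2 ≤ (ℓ ^ 2 * x) ^ 2) (hq0 : 0 ≤ q)
    (hDR : (1 + -w) ^ 2 + x ^ 2 ≤ (0.6283 * q ^ 2 * κ) ^ 2)
    (hsA : 0 < sA) (hsA' : sA ^ 2 ≤ A) (hsc : 0 < sc) (hsc' : sc ^ 2 ≤ c0)
    (ht0 : 0 ≤ t0) (ht0' : 6.2832 ≤ t0 ^ 2 * (c0 * A))
    (L1 : legV β (0.3032 * x - 0.0827 * w) (0.7 * x - 1.3064 * w) ≤ sg β κ * v1 ∧
      legM β (0.3032 * x - 0.0827 * w) (0.7 * x - 1.3064 * w) 0.8 ≤ sg β κ * m1)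
    (L2 : (1 + w) * Real.exp (-(1.7357 * x - Real.pi * w) / β) ≤ sg β κ * v2)
    (L2' : (1 + w) * Real.exp (-(Real.pi + 0.3678 * x - 1.3679 * x * w) / β) ≤ sg β κ * v2')
    (L3 : Real.exp (-(Real.pi + Real.exp (-1 - w) * x - x * w) / β) ≤ sg β κ * v3)
    (L4 : legV β (4.7123 - Real.exp (-1 - w) * PP x w - x * w) 1 ≤ sg β κ * v4 ∧
      legM β (4.7123 - Real.exp (-1 - w) * PP x w - x * w) 1 5.12 ≤ sg β κ * m4)
    (L5 : legV β (0.3032 * x + 0.0826 * w) (0.7 * x) ≤ sg β κ * v5 ∧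
      legM β (0.3032 * x + 0.0826 * w) (0.7 * x) 0.8 ≤ sg β κ * m5)
    (L6 : legV β (2 * x) Real.pi ≤ sg β κ * v6)
    (L7 : legV β (Real.pi + 2 * x) 1 ≤ sg β κ * v7 ∧ legM β (Real.pi + 2 * x) 1 3.3 ≤ sg β κ * m7)
    (L8 : legV β (4.7123 * (1 + w) - 2.7183 * PP x w + 2 * x) 1 ≤ sg β κ * v8 ∧
      legM β (4.7123 * (1 + w) - 2.7183 * PP x w + 2 * x) 1 4.82 ≤ sg β κ * m8)
    (hv0 : 0 ≤ v1 + (v2 + v2') + 1.5708 * v3 + v4 + v5 + v6 + v7 + v8)
    (hm0 : 0 ≤ m1 + 3.72 * (v2 + v2') + 8.03 * v3 + m4 + m5 + 3.3 * v6 + m7 + m8)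
    (hE : ℓ * (3 * ρ * (1 / 24) / A + 7.5 * (ρ * (1 / 6)) ^ 2 / (c0 ^ 3 * sc * A) +
      2.5 / 2.5066 * (Real.exp (-(0.32 * A)) / sA)) +
      q * (v1 + (v2 + v2') + 1.5708 * v3 + v4 + v5 + v6 + v7 + v8) ≤ e)
    (hF : ℓ * (ρ / (2 * A) + 16 / 2.5066 * (ρ * (1 / 24)) / (A * sA) +
      48 / 2.5066 * (ρ * (1 / 6)) ^ 2 / (c0 ^ 4 * (A * sA))) +
      q * (m1 + 3.72 * (v2 + v2') + 8.03 * v3 + m4 + m5 + 3.3 * v6 + m7 + m8) ≤ f) :
    EL β x w ≤ e * A0 β x (-w) ∧ FL β x w ≤ f * A0 β x (-w) ∧ 0 < A0 β x (-w) ∧ sg β κ ≤ A0 β x (-w) * q ∧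
    absL β x w - legV β (2 * x - Real.pi * w) (2 * x - Real.pi) ≤ sg β κ * (t0 + (v1 + v5 + v6 + v7 + v8)) := by
  have hD0 : 0 < (1 + -w) ^ 2 + x ^ 2 := by positivity
  have hDs : 0 < Real.sqrt ((1 + -w) ^ 2 + x ^ 2) := Real.sqrt_pos.2 hD0
  have hA0 : 0 < A0 β x (-w) := by
    unfold A0
    apply Real.sqrt_pos.2
    have := Real.pi_pos
    positivity
  have hq1 : 10 * Real.sqrt ((1 + -w) ^ 2 + x ^ 2) ≤ 6.283 * q ^ 2 * κ := by
    have h1 : Real.sqrt ((1 + -w) ^ 2 + x ^ 2) ≤ 0.6283 * q ^ 2 * κ := by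
      apply Real.sqrt_le_iff.2
      exact ⟨by positivity, hDR⟩
    linarith
  have hσ : sg β κ ≤ A0 β x (-w) * q := A0_q hβ hκ hq0 hq1 hD0
  have hlam : Real.sqrt ((1 + -w) ^ 2 + x ^ 2) ≤ ℓ ^ 2 * (x / β * β) := by
    rw [div_mul_cancel₀ _ hβ.ne']
    exact Real.sqrt_le_iff.2 ⟨by positivity, hD⟩
  have haA : A ≤ x / β := by
    rw [le_div_iff₀ hβ]
    nlinarith
  have hs : PP x w / β ≤ ρ * (x / β) := by
    rw [← mul_div_assoc]
    gcongr
  have hPP : 0 ≤ PP x w / β := div_nonneg (Real.sqrt_nonneg _) hβ.le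
  have cE := cenE_le (φ3 := 1 / 6) (φ4 := 1 / 24) hβ hD0 hℓ hlam hA haA hPP hs hρ0 hc0 hc (by norm_num) (by norm_num)
    hsA hsA' hsc hsc'
  have cF := cenF_le (φ3 := 1 / 6) (φ4 := 1 / 24) hβ hD0 hℓ hlam hA haA hPP hs hρ0 hc0 hc (by norm_num) (by norm_num)
    hsA hsA'
  refine ⟨?_, ?_, hA0, hσ, ?_⟩
  · unfold EL tL
    have h1 : sg β κ * (v1 + (v2 + v2') + 1.5708 * v3 + v4 + v5 + v6 + v7 + v8) ≤
        A0 β x (-w) * q * (v1 + (v2 + v2') + 1.5708 * v3 + v4 + v5 + v6 + v7 + v8) := mul_le_mul_of_nonneg_right hσ hv0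
    have h2 := mul_le_mul_of_nonneg_left hE hA0.le
    have l1 := L1.1
    have l4 := L4.1
    have l5 := L5.1
    have l7 := L7.1
    have l8 := L8.1
    rw [mul_add (1 + w)]
    linarith
  · unfold FL
    have h1 : sg β κ * (m1 + 3.72 * (v2 + v2') + 8.03 * v3 + m4 + m5 + 3.3 * v6 + m7 + m8) ≤
        A0 β x (-w) * q * (m1 + 3.72 * (v2 + v2') + 8.03 * v3 + m4 + m5 + 3.3 * v6 + m7 + m8) := mul_le_mul_of_nonneg_right hσ hm0
    have h2 := mul_le_mul_of_nonneg_left hF hA0.le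
    have l1 := L1.2
    have l4 := L4.2
    have l5 := L5.2
    have l7 := L7.2
    have l8 := L8.2
    have e1 : 3.72 * (1 + w) * (Real.exp (-(1.7357 * x - Real.pi * w) / β) + Real.exp (-(Real.pi + 0.3678 * x - 1.3679 * x * w) / β)) =
      3.72 * ((1 + w) * Real.exp (-(1.7357 * x - Real.pi * w) / β)) + 3.72 * ((1 + w) * Real.exp (-(Real.pi + 0.3678 * x - 1.3679 * x * w) / β)) := by ring
    rw [e1]
    linarith
  · unfold absL
    have l1 := L1.1
    have l5 := L5.1
    have l7 := L7.1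
    have l8 := L8.1
    have h1 : Real.sqrt (2 * Real.pi / (cL x w * (x / β))) ≤ sg β κ * t0 := by
      have hcR0 : 0 < cL x w := hc0.trans_le hc
      have hsg := sg_pos hβ hκ
      apply Real.sqrt_le_iff.2
      refine ⟨by positivity, ?_⟩
      rw [div_le_iff₀ (by positivity)]
      have hpi : 2 * Real.pi ≤ 6.2832 := by have := Real.pi_lt_d6; linarith
      refine hpi.trans (ht0'.trans ?_)
      rw [mul_pow, sg_sq hβ hκ]
      have h3 : A ≤ 10 * β / κ * (x / β) := by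
        have : 10 * β / κ * (x / β) = 10 * x / κ := by field_simp
        rw [this, le_div_iff₀ hκ]
        exact ha
      have h4 : c0 * A ≤ cL x w * (10 * β / κ * (x / β)) := mul_le_mul hc h3 hA.le hcR0.le
      have h5 := mul_le_mul_of_nonneg_left h4 (sq_nonneg t0)
      calc t0 ^ 2 * (c0 * A) ≤ _ := h5
        _ = _ := by ring
    linarith

end Sok.B2
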