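import Pool.Agent.Lib.MP_816dec_an.B2Defs

/-!
MP_816dec_an, b = 2: generic numerical lemmas for the error terms of the two saddle lemmas.
-/

set_option autoImplicit false

open Complex Set Filter Topology MeasureTheory

namespace Sok.B2

/-- upper bound of `exp (-G)` by the Taylor polynomial of degree 10 -/
theorem en {G b : ℝ} (hG : 0 ≤ G) (h : 1 ≤ b * (1 + G + G ^ 2 / 2 + G ^ 3 / 6 + G ^ 4 / 24 + G ^ 5 / 120 +
    G ^ 6 / 720 + G ^ 7 / 5040 + G ^ 8 / 40320 + G ^ 9 / 362880 + G ^ 10 / 3628800)) : Real.exp (-G) ≤ b := by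
  have h1 := Real.sum_le_exp_of_nonneg hG 11
  simp only [Finset.sum_range_succ, Finset.sum_range_zero, Nat.factorial] at h1
  norm_num at h1
  have hb : 0 < b := by
    by_contra hcon
    push Not at hcon
    have : 0 ≤ (1 + G + G ^ 2 / 2 + G ^ 3 / 6 + G ^ 4 / 24 + G ^ 5 / 120 +
      G ^ 6 / 720 + G ^ 7 / 5040 + G ^ 8 / 40320 + G ^ 9 / 362880 + G ^ 10 / 3628800) := by positivity
    nlinarith
  rw [Real.exp_neg]
  rw [inv_le_iff_one_le_mul₀ (Real.exp_pos _)]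
  refine h.trans (mul_le_mul_of_nonneg_left ?_ hb.le)
  linarith

/-- lower bound of `exp G` -/
theorem ep {G b : ℝ} (hG : 0 ≤ G) (h : b ≤ 1 + G + G ^ 2 / 2 + G ^ 3 / 6 + G ^ 4 / 24 + G ^ 5 / 120 +
    G ^ 6 / 720 + G ^ 7 / 5040 + G ^ 8 / 40320 + G ^ 9 / 362880 + G ^ 10 / 3628800) : b ≤ Real.exp G := by
  have h1 := Real.sum_le_exp_of_nonneg hG 11
  simp only [Finset.sum_range_succ, Finset.sum_range_zero, Nat.factorial] at h1
  norm_num at h1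
  linarith

/-- `√(10β/κ) ≤ A0 q` -/
theorem A0_q {β κ x y q : ℝ} (hβ : 0 < β) (hκ : 0 < κ) (hq0 : 0 ≤ q)
    (hq : 10 * Real.sqrt ((1 + y) ^ 2 + x ^ 2) ≤ 6.283 * q ^ 2 * κ) (hD : 0 < (1 + y) ^ 2 + x ^ 2) :
    Real.sqrt (10 * β / κ) ≤ A0 β x y * q := by
  unfold A0
  have hD' := Real.sqrt_pos.2 hD
  have hpi := Real.pi_gt_d4
  rw [← Real.sqrt_sq hq0, ← Real.sqrt_mul (by positivity)]
  apply Real.sqrt_le_sqrt
  rw [div_le_iff₀ hκ]
  have : 2 * Real.pi * β / √((1 + y) ^ 2 + x ^ 2) * q ^ 2 * κ = β * (2 * Real.pi * q ^ 2 * κ) / √((1 + y) ^ 2 + x ^ 2) := by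
    field_simp
  rw [this, le_div_iff₀ hD']
  have h2 : 6.283 * q ^ 2 * κ ≤ 2 * Real.pi * q ^ 2 * κ := by
    have : 0 ≤ q ^ 2 * κ := by positivity
    nlinarith
  nlinarith

section leg

variable {β κ S : ℝ}

/-- `S` stands for `A0 q` -/
theorem legV_le {g k G K : ℝ} (hβ : 0 < β) (hκ : 0 < κ) (hβκ : 10 * β ≤ κ) (hS : Real.sqrt (10 * β / κ) ≤ S)
    (hG0 : 0 ≤ G) (hG : G * κ ≤ 10 * g) (hK0 : 0 < K) (hK : K * κ ≤ 10 * k) :
    legV β g k ≤ S * (Real.exp (-G) / K) := by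
  unfold legV
  have hk : 0 < k := by
    have : 0 < K * κ := by positivity
    linarith
  have hs0 : 0 < 10 * β / κ := by positivity
  have hs1 : 10 * β / κ ≤ 1 := by rw [div_le_one hκ]; exact hβκ
  have hs : 10 * β / κ ≤ Real.sqrt (10 * β / κ) := by
    have h1 := Real.sqrt_nonneg (10 * β / κ)
    have h2 := Real.sq_sqrt hs0.le
    have h3 : Real.sqrt (10 * β / κ) ≤ 1 := Real.sqrt_le_one.2 hs1
    nlinarith
  have h1 : Real.exp (-g / β) ≤ Real.exp (-G) := by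
    apply Real.exp_le_exp.2
    rw [neg_div, neg_le_neg_iff, le_div_iff₀ hβ]
    have : G * β ≤ G * (κ / 10) := mul_le_mul_of_nonneg_left (by linarith) hG0
    linarith
  have h2 : β / k ≤ S / K := by
    rw [div_le_div_iff₀ hk hK0]
    have h3 : β * K ≤ (10 * β / κ) * k := by
      rw [div_mul_eq_mul_div, le_div_iff₀ hκ]
      nlinarith
    exact h3.trans (mul_le_mul_of_nonneg_right (hs.trans hS) hk.le)
  calc Real.exp (-g / β) * (β / k) ≤ Real.exp (-G) * (S / K) :=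
        mul_le_mul h1 h2 (by positivity) (Real.exp_pos _).le
    _ = S * (Real.exp (-G) / K) := by ring

theorem legM_le {g k G K z : ℝ} (hβ : 0 < β) (hκ : 0 < κ) (hβκ : 10 * β ≤ κ) (hS : Real.sqrt (10 * β / κ) ≤ S)
    (hz : 0 ≤ z) (hG0 : 0 ≤ G) (hG : G * κ ≤ 10 * g) (hK0 : 0 < K) (hK : K * κ ≤ 10 * k) :
    legM β g k z ≤ S * (Real.exp (-G) * (z / K + 1 / K ^ 2)) := by
  unfold legM
  have hk : 0 < k := by
    have : 0 < K * κ := by positivity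
    linarith
  have hs0 : 0 < 10 * β / κ := by positivity
  have hs1 : 10 * β / κ ≤ 1 := by rw [div_le_one hκ]; exact hβκ
  have hs : 10 * β / κ ≤ Real.sqrt (10 * β / κ) := by
    have h1 := Real.sqrt_nonneg (10 * β / κ)
    have h2 := Real.sq_sqrt hs0.le
    have h3 : Real.sqrt (10 * β / κ) ≤ 1 := Real.sqrt_le_one.2 hs1
    nlinarith
  have h1 : Real.exp (-g / β) ≤ Real.exp (-G) := by
    apply Real.exp_le_exp.2
    rw [neg_div, neg_le_neg_iff, le_div_iff₀ hβ]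
    have : G * β ≤ G * (κ / 10) := mul_le_mul_of_nonneg_left (by linarith) hG0
    linarith
  have h3 : β / k ≤ (10 * β / κ) / K := by
    rw [div_div, div_le_div_iff₀ hk (by positivity)]
    nlinarith
  have hS' : 10 * β / κ ≤ S := hs.trans hS
  have h4 : β / k ≤ S / K := h3.trans (by gcongr)
  have h5 : (β / k) ^ 2 ≤ S / K ^ 2 := by
    have h6 : (β / k) ^ 2 ≤ ((10 * β / κ) / K) ^ 2 := by
      have : 0 < β / k := by positivity
      gcongr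
    refine h6.trans ?_
    rw [div_pow]
    have : (10 * β / κ) ^ 2 ≤ S := by nlinarith
    gcongr
  have h6 : z * (β / k) + (β / k) ^ 2 ≤ S * (z / K + 1 / K ^ 2) := by
    have := mul_le_mul_of_nonneg_left h4 hz
    calc z * (β / k) + (β / k) ^ 2 ≤ z * (S / K) + S / K ^ 2 := add_le_add this h5
      _ = S * (z / K + 1 / K ^ 2) := by ring
  calc Real.exp (-g / β) * (z * (β / k) + (β / k) ^ 2) ≤ Real.exp (-G) * (S * (z / K + 1 / K ^ 2)) :=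
        mul_le_mul h1 h6 (by positivity) (Real.exp_pos _).le
    _ = _ := by ring

theorem exp_le {g G : ℝ} (hβ : 0 < β) (hκ : 0 < κ) (hβκ : 10 * β ≤ κ) (hS : Real.sqrt (10 * β / κ) ≤ S)
    (hG0 : 1 / 2 ≤ G) (hG : G * κ ≤ 10 * g) :
    Real.exp (-g / β) ≤ S * Real.exp (-G) := by
  have hs0 : 0 < 10 * β / κ := by positivity
  have hs1 : 10 * β / κ ≤ 1 := by rw [div_le_one hκ]; exact hβκ
  obtain ⟨s, hs⟩ : ∃ s : ℝ, s = 10 * β / κ := ⟨_, rfl⟩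
  rw [← hs] at hs0 hs1 hS
  have hβs : β = s * κ / 10 := by rw [hs]; field_simp
  have h1 : Real.exp (-g / β) ≤ Real.exp (-G / s) := by
    apply Real.exp_le_exp.2
    rw [neg_div, neg_div, neg_le_neg_iff, div_le_div_iff₀ hs0 hβ, hβs]
    nlinarith
  have h2 : Real.exp (-G / s) ≤ Real.sqrt s * Real.exp (-G) := by
    have h3 : 1 / 2 * (1 - 1 / s) ≤ Real.log (Real.sqrt s) := by
      rw [Real.log_sqrt hs0.le]
      have := Real.one_sub_inv_le_log_of_pos hs0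
      rw [inv_eq_one_div] at this
      linarith
    have h4 : -G / s ≤ Real.log (Real.sqrt s) + -G := by
      have h5 : 0 ≤ 1 / s - 1 := by
        rw [sub_nonneg, le_div_iff₀ hs0]; linarith
      have h6 : -G / s = -G * (1 / s - 1) - G := by field_simp; ring
      rw [h6]
      nlinarith
    calc Real.exp (-G / s) ≤ Real.exp (Real.log (Real.sqrt s) + -G) := Real.exp_le_exp.2 h4
      _ = Real.sqrt s * Real.exp (-G) := by rw [Real.exp_add, Real.exp_log (Real.sqrt_pos.2 hs0)]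
  refine h1.trans (h2.trans ?_)
  exact mul_le_mul_of_nonneg_right hS (Real.exp_pos _).le

end leg

/-- `√(2π)/√a ≤ A0 ℓ` -/
theorem A0_l {β x y a ℓ : ℝ} (hβ : 0 < β) (ha : 0 < a) (hℓ : 0 ≤ ℓ)
    (h : Real.sqrt ((1 + y) ^ 2 + x ^ 2) ≤ ℓ ^ 2 * (a * β)) (hD : 0 < (1 + y) ^ 2 + x ^ 2) :
    Real.sqrt (2 * Real.pi) / Real.sqrt a ≤ A0 β x y * ℓ := by
  unfold A0
  have hD' := Real.sqrt_pos.2 hD
  have hpi := Real.pi_pos
  rw [← Real.sqrt_div (by positivity), ← Real.sqrt_sq hℓ, ← Real.sqrt_mul (by positivity)]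
  apply Real.sqrt_le_sqrt
  rw [div_mul_eq_mul_div, div_le_div_iff₀ ha hD']
  nlinarith

theorem sqrt_two_pi : 2.5066 ≤ Real.sqrt (2 * Real.pi) := by
  have hpi := Real.pi_gt_d6
  apply Real.le_sqrt_of_sq_le
  nlinarith

theorem cenE_le {β x y a s c φ3 φ4 A ρ c0 ℓ sA sc : ℝ} (hβ : 0 < β)
    (hD : 0 < (1 + y) ^ 2 + x ^ 2) (hℓ : 0 ≤ ℓ) (hlam : Real.sqrt ((1 + y) ^ 2 + x ^ 2) ≤ ℓ ^ 2 * (a * β))
    (hA : 0 < A) (ha : A ≤ a) (hs0 : 0 ≤ s) (hs : s ≤ ρ * a) (hρ : 0 ≤ ρ) (hc0 : 0 < c0) (hc : c0 ≤ c)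
    (h3 : 0 ≤ φ3) (h4 : 0 ≤ φ4) (hsA : 0 < sA) (hsA' : sA ^ 2 ≤ A) (hsc : 0 < sc) (hsc' : sc ^ 2 ≤ c0) :
    cenE a s c φ3 φ4 ≤ A0 β x y * ℓ * (3 * ρ * φ4 / A + 7.5 * (ρ * φ3) ^ 2 / (c0 ^ 3 * sc * A) +
      2.5 / 2.5066 * (Real.exp (-(0.32 * A)) / sA)) := by
  have ha0 : 0 < a := hA.trans_le ha
  have hsa : 0 < Real.sqrt a := Real.sqrt_pos.2 ha0
  have hssa := Real.mul_self_sqrt ha0.le
  have hL := A0_l hβ ha0 hℓ hlam hD
  have h2pi := sqrt_two_pi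
  obtain ⟨W, hW⟩ : ∃ W : ℝ, W = Real.sqrt (2 * Real.pi) := ⟨_, rfl⟩
  rw [← hW] at h2pi hL
  have hW0 : 0 < W := by linarith
  have hc1 : 0 < c := hc0.trans_le hc
  unfold cenE
  rw [← hW]
  have t1 : 3 * W * (s * φ4) / (a ^ 2 * Real.sqrt a) ≤ W / Real.sqrt a * (3 * ρ * φ4 / A) := by
    rw [div_mul_div_comm, div_le_div_iff₀ (by positivity) (by positivity)]
    have h5 : s * A ≤ ρ * a * a := mul_le_mul hs ha hA.le (by positivity)
    have h6 : 0 ≤ 3 * W * φ4 * Real.sqrt a := by positivity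
    nlinarith [mul_le_mul_of_nonneg_left h5 h6]
  have t2 : 15 / 2 * W * (s * φ3) ^ 2 / ((c * a) ^ 3 * Real.sqrt (c * a)) ≤
      W / Real.sqrt a * (7.5 * (ρ * φ3) ^ 2 / (c0 ^ 3 * sc * A)) := by
    have h5 : Real.sqrt (c * a) = Real.sqrt c * Real.sqrt a := Real.sqrt_mul hc1.le _
    have h6 : sc ≤ Real.sqrt c := Real.le_sqrt_of_sq_le (hsc'.trans hc)
    rw [div_mul_div_comm, div_le_div_iff₀ (by positivity) (by positivity), h5]
    have h7 : (s * φ3) ^ 2 ≤ (ρ * a * φ3) ^ 2 := by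
      have : s * φ3 ≤ ρ * a * φ3 := mul_le_mul_of_nonneg_right hs h3
      have : 0 ≤ s * φ3 := by positivity
      gcongr
    have h8 : c0 ^ 3 * sc * A ≤ c ^ 3 * Real.sqrt c * a := by gcongr
    have h9 : (s * φ3) ^ 2 * (c0 ^ 3 * sc * A) ≤ (ρ * a * φ3) ^ 2 * (c ^ 3 * Real.sqrt c * a) :=
      mul_le_mul h7 h8 (by positivity) (by positivity)
    have h10 := mul_le_mul_of_nonneg_left h9 (show 0 ≤ 15 / 2 * W * Real.sqrt a by positivity)
    calc 15 / 2 * W * (s * φ3) ^ 2 * (Real.sqrt a * (c0 ^ 3 * sc * A))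
        = 15 / 2 * W * Real.sqrt a * ((s * φ3) ^ 2 * (c0 ^ 3 * sc * A)) := by ring
      _ ≤ 15 / 2 * W * Real.sqrt a * ((ρ * a * φ3) ^ 2 * (c ^ 3 * Real.sqrt c * a)) := h10
      _ = W * (7.5 * (ρ * φ3) ^ 2) * ((c * a) ^ 3 * (Real.sqrt c * Real.sqrt a)) := by ring
  have t3 : 2 * (Real.exp (-(a / 2) * (4 / 5) ^ 2) / (a * (4 / 5))) ≤
      W / Real.sqrt a * (2.5 / 2.5066 * (Real.exp (-(0.32 * A)) / sA)) := by
    have h5 : Real.exp (-(a / 2) * (4 / 5) ^ 2) ≤ Real.exp (-(0.32 * A)) := by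
      apply Real.exp_le_exp.2
      nlinarith
    have h6 : sA ≤ Real.sqrt a := Real.le_sqrt_of_sq_le (hsA'.trans ha)
    have h7 : 2 * (Real.exp (-(a / 2) * (4 / 5) ^ 2) / (a * (4 / 5))) =
        2.5066 / Real.sqrt a * (2.5 / 2.5066 * (Real.exp (-(a / 2) * (4 / 5) ^ 2) / Real.sqrt a)) := by
      rw [div_mul_eq_mul_div]
      field_simp
      rw [Real.sq_sqrt ha0.le]
      ring
    rw [h7]
    gcongr
  have hsum := add_le_add (add_le_add t1 t2) t3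
  refine hsum.trans ?_
  rw [← mul_add, ← mul_add]
  exact mul_le_mul_of_nonneg_right hL (by positivity)

theorem cenF_le {β x y a s c φ3 φ4 A ρ c0 ℓ sA : ℝ} (hβ : 0 < β)
    (hD : 0 < (1 + y) ^ 2 + x ^ 2) (hℓ : 0 ≤ ℓ) (hlam : Real.sqrt ((1 + y) ^ 2 + x ^ 2) ≤ ℓ ^ 2 * (a * β))
    (hA : 0 < A) (ha : A ≤ a) (hs0 : 0 ≤ s) (hs : s ≤ ρ * a) (hρ : 0 ≤ ρ) (hc0 : 0 < c0) (hc : c0 ≤ c)
    (h3 : 0 ≤ φ3) (h4 : 0 ≤ φ4) (hsA : 0 < sA) (hsA' : sA ^ 2 ≤ A) :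
    cenF a s c φ3 φ4 ≤ A0 β x y * ℓ * (ρ / (2 * A) + 16 / 2.5066 * (ρ * φ4) / (A * sA) +
      48 / 2.5066 * (ρ * φ3) ^ 2 / (c0 ^ 4 * (A * sA))) := by
  have ha0 : 0 < a := hA.trans_le ha
  have hsa : 0 < Real.sqrt a := Real.sqrt_pos.2 ha0
  have hssa := Real.mul_self_sqrt ha0.le
  have hL := A0_l hβ ha0 hℓ hlam hD
  have h2pi := sqrt_two_pi
  obtain ⟨W, hW⟩ : ∃ W : ℝ, W = Real.sqrt (2 * Real.pi) := ⟨_, rfl⟩
  rw [← hW] at h2pi hL
  have hW0 : 0 < W := by linarith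
  have hc1 : 0 < c := hc0.trans_le hc
  have h6 : sA ≤ Real.sqrt a := Real.le_sqrt_of_sq_le (hsA'.trans ha)
  have hAs : A * sA ≤ a * Real.sqrt a := by gcongr
  unfold cenF
  rw [← hW]
  have t1 : 3 * W * (s / 6) / (a ^ 2 * Real.sqrt a) ≤ W / Real.sqrt a * (ρ / (2 * A)) := by
    rw [div_mul_div_comm, div_le_div_iff₀ (by positivity) (by positivity)]
    have h5 : s * A ≤ ρ * a * a := mul_le_mul hs ha hA.le (by positivity)
    have h6 : 0 ≤ W * Real.sqrt a := by positivity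
    nlinarith [mul_le_mul_of_nonneg_left h5 h6]
  have t2 : 16 * (s * φ4) / a ^ 3 ≤ W / Real.sqrt a * (16 / 2.5066 * (ρ * φ4) / (A * sA)) := by
    have h7 : 16 * (s * φ4) / a ^ 3 ≤ 16 * (ρ * a * φ4) / a ^ 3 := by gcongr
    have h8 : 16 * (ρ * a * φ4) / a ^ 3 = 2.5066 / Real.sqrt a * (16 / 2.5066 * (ρ * φ4) / (a * Real.sqrt a)) := by
      obtain ⟨u, hu⟩ : ∃ u : ℝ, u = Real.sqrt a := ⟨_, rfl⟩
      rw [← hu] at hsa hssa ⊢
      rw [← hssa]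
      field_simp
    refine h7.trans ?_
    rw [h8]
    gcongr
  have t3 : 48 * (s * φ3) ^ 2 / (c * a) ^ 4 ≤ W / Real.sqrt a * (48 / 2.5066 * (ρ * φ3) ^ 2 / (c0 ^ 4 * (A * sA))) := by
    have h7 : 48 * (s * φ3) ^ 2 / (c * a) ^ 4 ≤ 48 * (ρ * a * φ3) ^ 2 / (c * a) ^ 4 := by gcongr
    have h8 : 48 * (ρ * a * φ3) ^ 2 / (c * a) ^ 4 =
        2.5066 / Real.sqrt a * (48 / 2.5066 * (ρ * φ3) ^ 2 / (c ^ 4 * (a * Real.sqrt a))) := by
      obtain ⟨u, hu⟩ : ∃ u : ℝ, u = Real.sqrt a := ⟨_, rfl⟩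
      rw [← hu] at hsa hssa ⊢
      rw [← hssa]
      field_simp
    refine h7.trans ?_
    rw [h8]
    gcongr
  have hsum := add_le_add (add_le_add t1 t2) t3
  refine hsum.trans ?_
  rw [← mul_add, ← mul_add]
  exact mul_le_mul_of_nonneg_right hL (by positivity)

end Sok.B2
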