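import Pool.Agent.Lib.MP_816dec_an.B2NumL0

/-!
MP_816dec_an, b = 2: numerical error bounds of the left saddle in the regimes of `κ` (part 3).
-/

set_option autoImplicit false

open Set Filter Topology

namespace Sok.B2

/-- left regime LIII -/
theorem numLIII {β κ s x w v : ℝ} (h : LS κ s x w v) (hβ : 0 < β) (hβκ : 10 * β ≤ κ) (h1 : 2.2 ≤ κ) (h2 : κ ≤ 3)
    (hs : s ≤ 1.8416) (hw1 : 0.31 ≤ w) :
    EL β x w ≤ 0.0643 * A0 β x (-w) ∧ FL β x w ≤ 0.1537 * A0 β x (-w) ∧ 0 < A0 β x (-w) ∧ sg β κ ≤ A0 β x (-w) * 1.7226 ∧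
    absL β x w - legV β (2 * x - Real.pi * w) (2 * x - Real.pi) ≤ sg β κ * 0.7303 := by
  have hκ1 : 1 ≤ κ := by linarith
  have hκ : 0 < κ := by linarith
  have hw0 := h.w0
  have hpl := Real.pi_gt_d4
  have hpu := Real.pi_lt_d4
  have hw2 : w ≤ 0.609 := by
    by_contra hcon
    push Not at hcon
    have e1 := h.kexp_le hκ1
    have e2 : (1.8385 : ℝ) ≤ Real.exp w := (ep (by norm_num) (by norm_num : (1.8385 : ℝ) ≤ _)).trans (Real.exp_le_exp.2 hcon.le)
    nlinarith
  have hcos := h.cos_ge' (by linarith)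
  have hcos1 := Real.cos_le_one v
  have hv0 := h.v0
  obtain ⟨p, hp⟩ : ∃ p : ℝ, p = Real.exp w := ⟨_, rfl⟩
  have hp0 : 0 < p := by rw [hp]; exact Real.exp_pos _
  have hx1 : 0.9722 * (κ * p) ≤ x := by
    have e1 := h.ex
    rw [← hp] at e1
    rw [e1]
    have : 0 < κ * p := by positivity
    nlinarith
  have hx2 : x ≤ κ * p := by
    have e1 := h.ex
    rw [← hp] at e1
    rw [e1]
    have : 0 < κ * p := by positivity
    nlinarith
  have hPP : PP x w = κ * p := by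
    unfold PP
    rw [h.sq, ← hp]
    exact Real.sqrt_sq (by positivity)
  have hx0 : 0 < x := lt_of_lt_of_le (by positivity) hx1
  have hpu1 : p ≤ 1 + 1.7 * w := by rw [hp]; exact exp_le_chord hw0 h.w1
  have hes := h.es
  have q1 := mul_nonneg (sub_nonneg.2 h1) (sub_nonneg.2 hw1)
  have q2 := mul_nonneg (sub_nonneg.2 h2) (sub_nonneg.2 hw1)
  have q3 := mul_nonneg (sub_nonneg.2 h1) (sub_nonneg.2 hw2)
  have q4 := mul_nonneg (sub_nonneg.2 h2) (sub_nonneg.2 hw2)
  have q5 := mul_nonneg (sub_nonneg.2 hs) hw0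
  have t0 : κ * (1.36342 * (1 - 0.31 + w)) ≤ κ * p := by
    rw [hp]
    exact mul_le_mul_of_nonneg_left (exp_tangent (ep (by norm_num) (by norm_num)) (by linarith)) hκ.le
  have t1 : κ * (1.56831 * (1 - 0.45 + w)) ≤ κ * p := by
    rw [hp]
    exact mul_le_mul_of_nonneg_left (exp_tangent (ep (by norm_num) (by norm_num)) (by linarith)) hκ.le
  have hv : 0.034955 * (5.1 - κ) ≤ v := by
    have e1 : 0.2273 ≤ κ * Real.sin v := by
      rw [h.sin_eq hκ]
      refine le_trans ?_ (mul_exp_neg_mono hw1 hw0 (by linarith))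
      have : 0.73344 ≤ Real.exp (-0.31) := eln (by norm_num) (by norm_num) (by norm_num) (by norm_num)
      linarith
    have e2 := Real.sin_le hv0
    have e3 : 0.2273 ≤ κ * v := e1.trans (mul_le_mul_of_nonneg_left e2 hκ.le)
    by_contra hcon
    push Not at hcon
    have e4 : κ * v < κ * (0.034955 * (5.1 - κ)) := mul_lt_mul_of_pos_left hcon hκ
    nlinarith [sq_nonneg (κ - 2.55)]
  have hh : κ * 1 * 1.61365 * (1 + w - 0.4785) - (κ + 1.8416 - 0) * w ≤ x - x * w := by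
    have := h.h_low' hκ (α := 0) (C := 1) le_rfl (by linarith) (by simp) (by norm_num) (ω := 0.4785) (E := 1.61365) (ep (by norm_num) (by norm_num)) (by norm_num)
    nlinarith
  have hem : Real.exp (-1 - w) * p = Real.exp (-1) := by
    rw [hp, ← Real.exp_add]; congr 1; ring
  have he1 : 0.3678 ≤ Real.exp (-1) := by have := Real.exp_neg_one_gt_d9; linarith
  have he2 : Real.exp (-1) ≤ 0.3679 := by have := Real.exp_neg_one_lt_d9; linarith
  have hE3 : 0.3678 * 0.9722 * κ ≤ Real.exp (-1 - w) * x := by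
    have e1 : Real.exp (-1 - w) * (0.9722 * (κ * p)) ≤ Real.exp (-1 - w) * x :=
      mul_le_mul_of_nonneg_left hx1 (Real.exp_pos _).le
    have e2 : Real.exp (-1 - w) * (0.9722 * (κ * p)) = 0.9722 * κ * Real.exp (-1) := by rw [← hem]; ring
    rw [e2] at e1
    nlinarith
  have hE4 : Real.exp (-1 - w) * PP x w ≤ 0.3679 * κ := by
    rw [hPP]
    have e2 : Real.exp (-1 - w) * (κ * p) = κ * Real.exp (-1) := by rw [← hem]; ring
    rw [e2]
    nlinarith
  have hkp : κ * p ≤ κ * (1 + 1.7 * w) := mul_le_mul_of_nonneg_left hpu1 hκ.le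
  have g1 : 3.902 * κ ≤ 10 * (0.3032 * x - 0.0827 * w) := by linarith
  have k1 : 7.437 * κ ≤ 10 * (0.7 * x - 1.3064 * w) := by linarith
  have L1 : legV β (0.3032 * x - 0.0827 * w) (0.7 * x - 1.3064 * w) ≤ sg β κ * 0.002723 ∧
      legM β (0.3032 * x - 0.0827 * w) (0.7 * x - 1.3064 * w) 0.8 ≤ sg β κ * 0.002545 :=
    leg2 (G := 3.902) (K := 7.437) (b := 0.02025) hβ hκ hβκ (by norm_num) (by norm_num) g1 (by norm_num) k1
      (en (by norm_num) (by norm_num)) (by norm_num) (by norm_num)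
  have g4 : 4.548 * κ ≤ 10 * (4.7123 - Real.exp (-1 - w) * PP x w - x * w) := by linarith
  have k4 : 3.333 * κ ≤ 10 * (1) := by linarith
  have L4 : legV β (4.7123 - Real.exp (-1 - w) * PP x w - x * w) (1) ≤ sg β κ * 0.0032 ∧
      legM β (4.7123 - Real.exp (-1 - w) * PP x w - x * w) (1) 5.12 ≤ sg β κ * 0.017344 :=
    leg2 (G := 4.548) (K := 3.333) (b := 0.010665) hβ hκ hβκ (by norm_num) (by norm_num) g4 (by norm_num) k4
      (en (by norm_num) (by norm_num)) (by norm_num) (by norm_num)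
  have g5 : 4.104 * κ ≤ 10 * (0.3032 * x + 0.0826 * w) := by linarith
  have k5 : 9.278 * κ ≤ 10 * (0.7 * x) := by linarith
  have L5 : legV β (0.3032 * x + 0.0826 * w) (0.7 * x) ≤ sg β κ * 0.001786 ∧
      legM β (0.3032 * x + 0.0826 * w) (0.7 * x) 0.8 ≤ sg β κ * 0.001621 :=
    leg2 (G := 4.104) (K := 9.278) (b := 0.016564) hβ hκ hβκ (by norm_num) (by norm_num) g5 (by norm_num) k5
      (en (by norm_num) (by norm_num)) (by norm_num) (by norm_num)
  have g6 : 8 * κ ≤ 10 * (2 * x) := by linarith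
  have k6 : 10.471 * κ ≤ 10 * (Real.pi) := by linarith
  have L6 : legV β (2 * x) (Real.pi) ≤ sg β κ * 0.00004 ∧
      legM β (2 * x) (Real.pi) 0 ≤ sg β κ * 0.000004 :=
    leg2 (G := 8) (K := 10.471) (b := 0.000412) hβ hκ hβκ (by norm_num) (by norm_num) g6 (by norm_num) k6
      (en (by norm_num) (by norm_num)) (by norm_num) (by norm_num)
  have g7 : 8 * κ ≤ 10 * (Real.pi + 2 * x) := by linarith
  have k7 : 3.333 * κ ≤ 10 * (1) := by linarith
  have L7 : legV β (Real.pi + 2 * x) (1) ≤ sg β κ * 0.000124 ∧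
      legM β (Real.pi + 2 * x) (1) 3.3 ≤ sg β κ * 0.000446 :=
    leg2 (G := 8) (K := 3.333) (b := 0.000412) hβ hκ hβκ (by norm_num) (by norm_num) g7 (by norm_num) k7
      (en (by norm_num) (by norm_num)) (by norm_num) (by norm_num)
  have g8 : 8 * κ ≤ 10 * (4.7123 * (1 + w) - 2.7183 * PP x w + 2 * x) := by rw [hPP]; nlinarith
  have k8 : 3.333 * κ ≤ 10 * (1) := by linarith
  have L8 : legV β (4.7123 * (1 + w) - 2.7183 * PP x w + 2 * x) (1) ≤ sg β κ * 0.000124 ∧
      legM β (4.7123 * (1 + w) - 2.7183 * PP x w + 2 * x) (1) 4.82 ≤ sg β κ * 0.000633 :=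
    leg2 (G := 8) (K := 3.333) (b := 0.000412) hβ hκ hβκ (by norm_num) (by norm_num) g8 (by norm_num) k8
      (en (by norm_num) (by norm_num)) (by norm_num) (by norm_num)
  have g2 : 8 * κ ≤ 10 * (1.7357 * x - Real.pi * w) := by nlinarith
  have g22 : 6.017 * κ ≤ 10 * (Real.pi + 0.3678 * x - 1.3679 * x * w) := by linarith
  have g3 : 6.567 * κ ≤ 10 * (Real.pi + Real.exp (-1 - w) * x - x * w) := by linarith
  have hsg := sg_pos hβ hκ
  have L2 : (1 + w) * Real.exp (-(1.7357 * x - Real.pi * w) / β) ≤ sg β κ * 0.000663 := by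
    have e1 := exp2 (G := 8) (b := 0.000412) hβ hκ hβκ (by norm_num) g2 (en (by norm_num) (by norm_num))
    have e2 : (1 + w) * Real.exp (-(1.7357 * x - Real.pi * w) / β) ≤ (1 + 0.609) * (sg β κ * 0.000412) := by gcongr
    nlinarith
  have L22 : (1 + w) * Real.exp (-(Real.pi + 0.3678 * x - 1.3679 * x * w) / β) ≤ sg β κ * 0.0041 := by
    have e1 := exp2 (G := 6.017) (b := 0.002548) hβ hκ hβκ (by norm_num) g22 (en (by norm_num) (by norm_num))
    have e2 : (1 + w) * Real.exp (-(Real.pi + 0.3678 * x - 1.3679 * x * w) / β) ≤ (1 + 0.609) * (sg β κ * 0.002548) := by gcongr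
    nlinarith
  have L3 : Real.exp (-(Real.pi + Real.exp (-1 - w) * x - x * w) / β) ≤ sg β κ * 0.001513 :=
    exp2 (G := 6.567) hβ hκ hβκ (by norm_num) g3 (en (by norm_num) (by norm_num))
  have hρ : PP x w ≤ 1.0286 * x := by rw [hPP]; nlinarith
  have hc : 0.9007 ≤ cL x w := by
    unfold cL
    have e1 : w ≤ 0.3679 * p := by
      have e2 := mul_exp_neg_le w
      have e3 : Real.exp (-w) * p = 1 := by rw [hp, ← Real.exp_add]; simp
      calc w = w * Real.exp (-w) * p := by rw [mul_assoc, e3, mul_one]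
        _ ≤ _ := mul_le_mul_of_nonneg_right e2 hp0.le
    have e4 : w / x ≤ 0.1721 := by
      rw [div_le_iff₀ hx0]
      have e5 : 2.2 * p ≤ κ * p := mul_le_mul_of_nonneg_right h1 hp0.le
      linarith
    linarith
  have hxlo : 2.9161 ≤ x := by linarith
  have hD : (1 + -w) ^ 2 + x ^ 2 ≤ (1.0138 ^ 2 * x) ^ 2 := by
    have e1 : (1 + -w) ^ 2 ≤ 0.69 ^ 2 := by
      have : 0 ≤ 1 + -w := by linarith
      gcongr
      linarith
    have e2 : 2.9161 ^ 2 ≤ x ^ 2 := by gcongr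
    nlinarith
  have hDR : (1 + -w) ^ 2 + x ^ 2 ≤ (0.6283 * 1.7226 ^ 2 * κ) ^ 2 := by
    have e1 : (1 + -w) ^ 2 ≤ 0.69 ^ 2 := by
      have : 0 ≤ 1 + -w := by linarith
      gcongr
      linarith
    have e2 : x ^ 2 ≤ (κ + 1.8416) ^ 2 := by
      have : x ≤ κ + 1.8416 := by linarith
      gcongr
    nlinarith
  have hbA : Real.exp (-(0.32 * 13.255)) ≤ 0.014448 := en (by norm_num) (by norm_num)
  have hE : 1.0138 * (3 * 1.0286 * (1 / 24) / 13.255 + 7.5 * (1.0286 * (1 / 6)) ^ 2 / (0.9007 ^ 3 * 0.949 * 13.255) +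
      2.5 / 2.5066 * (Real.exp (-(0.32 * 13.255)) / 3.64)) +
      1.7226 * (0.002723 + (0.000663 + 0.0041) + 1.5708 * 0.001513 + 0.0032 + 0.001786 + 0.00004 + 0.000124 + 0.000124) ≤ 0.0643 := by
    have : Real.exp (-(0.32 * 13.255)) / 3.64 ≤ 0.014448 / 3.64 := by gcongr
    norm_num at this ⊢
    linarith
  have key := leftMaster (κ := κ) (A := 13.255) (ρ := 1.0286) (c0 := 0.9007) (ℓ := 1.0138) (q := 1.7226) (sA := 3.64) (sc := 0.949) (t0 := 0.7255)
    (e := 0.0643) (f := 0.1537) hβ hκ hβκ hx0 hw0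
    (by norm_num) (by linarith) (by norm_num) hρ (by norm_num) hc (by norm_num) hD (by norm_num) hDR
    (by norm_num) (by norm_num) (by norm_num) (by norm_num) (by norm_num) (by norm_num)
    L1 L2 L22 L3 L4 L5 L6.1 L7 L8 (by norm_num) (by norm_num) hE (by norm_num)
  obtain ⟨r1, r2, r3, r4, r5⟩ := key
  exact ⟨r1, r2, r3, r4, r5.trans (mul_le_mul_of_nonneg_left (by norm_num) hsg.le)⟩

end Sok.B2
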