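import Pool.Agent.Lib.MP_816dec_an.B2NumL0

/-!
MP_816dec_an, b = 2: numerical error bounds of the left saddle in the regimes of `κ` (part 4).
-/

set_option autoImplicit false

open Set Filter Topology

namespace Sok.B2

/-- left regime LOI -/
theorem numLOI {β κ s x w v : ℝ} (h : LS κ s x w v) (hβ : 0 < β) (hβκ : 10 * β ≤ κ) (h1 : 1 ≤ κ) (h2 : κ ≤ 1.6)
    (hs : s ≤ 1.1916) (hw1 : 0 ≤ w) :
    EL β x w ≤ 0.148 * A0 β x (-w) ∧ FL β x w ≤ 0.2025 * A0 β x (-w) ∧ 0 < A0 β x (-w) ∧ sg β κ ≤ A0 β x (-w) * 1.9583 ∧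
    absL β x w - legV β (2 * x - Real.pi * w) (2 * x - Real.pi) ≤ sg β κ * 0.9216 := by
  have hκ1 : 1 ≤ κ := by linarith
  have hκ : 0 < κ := by linarith
  have hw0 := h.w0
  have hpl := Real.pi_gt_d4
  have hpu := Real.pi_lt_d4
  have hw2 : w ≤ 0.69 := by
    exact h.w_le69 hκ1 (by linarith)
  have hcos := h.cos_ge (by linarith)
  have hcos1 := Real.cos_le_one v
  have hv0 := h.v0
  obtain ⟨p, hp⟩ : ∃ p : ℝ, p = Real.exp w := ⟨_, rfl⟩
  have hp0 : 0 < p := by rw [hp]; exact Real.exp_pos _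
  have hx1 : 0.9287 * (κ * p) ≤ x := by
    have e1 := h.ex
    rw [← hp] at e1
    rw [e1]
    have : 0 < κ * p := by positivity
    nlinarith
  have hx2 : x ≤ κ * p := by
    have e1 := h.ex
    rw [← hp] at e1
    rw [e1]
    have : 0 < κ * p := by positivity
    nlinarith
  have hPP : PP x w = κ * p := by
    unfold PP
    rw [h.sq, ← hp]
    exact Real.sqrt_sq (by positivity)
  have hx0 : 0 < x := lt_of_lt_of_le (by positivity) hx1
  have hpu1 : p ≤ 1 + 1.7 * w := by rw [hp]; exact exp_le_chord hw0 h.w1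
  have hes := h.es
  have q1 := mul_nonneg (sub_nonneg.2 h1) (sub_nonneg.2 hw1)
  have q2 := mul_nonneg (sub_nonneg.2 h2) (sub_nonneg.2 hw1)
  have q3 := mul_nonneg (sub_nonneg.2 h1) (sub_nonneg.2 hw2)
  have q4 := mul_nonneg (sub_nonneg.2 h2) (sub_nonneg.2 hw2)
  have q5 := mul_nonneg (sub_nonneg.2 hs) hw0
  have t0 : κ * (1 + w) ≤ κ * p := by
    have := Real.add_one_le_exp w
    rw [← hp] at this
    exact mul_le_mul_of_nonneg_left (by linarith) hκ.le
  have t1 : κ * (1.99371 * (1 - 0.69 + w)) ≤ κ * p := by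
    rw [hp]
    exact mul_le_mul_of_nonneg_left (exp_tangent (ep (by norm_num) (by norm_num)) (by linarith)) hκ.le
  have hv : 0 ≤ v := hv0
  have hh : κ * 1 * 1 * (1 + w - 0) - (κ + 1.1916 - 0) * w ≤ x - x * w := by
    have := h.h_low' hκ (α := 0) (C := 1) le_rfl (by linarith) (by simp) (by norm_num) (ω := 0) (E := 1) (by simp) (by norm_num)
    nlinarith
  have hem : Real.exp (-1 - w) * p = Real.exp (-1) := by
    rw [hp, ← Real.exp_add]; congr 1; ring
  have he1 : 0.3678 ≤ Real.exp (-1) := by have := Real.exp_neg_one_gt_d9; linarith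
  have he2 : Real.exp (-1) ≤ 0.3679 := by have := Real.exp_neg_one_lt_d9; linarith
  have hE3 : 0.3678 * 0.9287 * κ ≤ Real.exp (-1 - w) * x := by
    have e1 : Real.exp (-1 - w) * (0.9287 * (κ * p)) ≤ Real.exp (-1 - w) * x :=
      mul_le_mul_of_nonneg_left hx1 (Real.exp_pos _).le
    have e2 : Real.exp (-1 - w) * (0.9287 * (κ * p)) = 0.9287 * κ * Real.exp (-1) := by rw [← hem]; ring
    rw [e2] at e1
    nlinarith
  have hE4 : Real.exp (-1 - w) * PP x w ≤ 0.3679 * κ := by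
    rw [hPP]
    have e2 : Real.exp (-1 - w) * (κ * p) = κ * Real.exp (-1) := by rw [← hem]; ring
    rw [e2]
    nlinarith
  have hkp : κ * p ≤ κ * (1 + 1.7 * w) := mul_le_mul_of_nonneg_left hpu1 hκ.le
  have g1 : 2.815 * κ ≤ 10 * (0.3032 * x - 0.0827 * w) := by linarith
  have k1 : 3.946 * κ ≤ 10 * (0.7 * x - 1.3064 * w) := by linarith
  have L1 : legV β (0.3032 * x - 0.0827 * w) (0.7 * x - 1.3064 * w) ≤ sg β κ * 0.015184 ∧
      legM β (0.3032 * x - 0.0827 * w) (0.7 * x - 1.3064 * w) 0.8 ≤ sg β κ * 0.015995 :=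
    leg2 (G := 2.815) (K := 3.946) (b := 0.059915) hβ hκ hβκ (by norm_num) (by norm_num) g1 (by norm_num) k1
      (en (by norm_num) (by norm_num)) (by norm_num) (by norm_num)
  have g4 : 8 * κ ≤ 10 * (4.7123 - Real.exp (-1 - w) * PP x w - x * w) := by linarith
  have k4 : 6.25 * κ ≤ 10 * (1) := by linarith
  have L4 : legV β (4.7123 - Real.exp (-1 - w) * PP x w - x * w) (1) ≤ sg β κ * 0.000066 ∧
      legM β (4.7123 - Real.exp (-1 - w) * PP x w - x * w) (1) 5.12 ≤ sg β κ * 0.000349 :=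
    leg2 (G := 8) (K := 6.25) (b := 0.000412) hβ hκ hβκ (by norm_num) (by norm_num) g4 (by norm_num) k4
      (en (by norm_num) (by norm_num)) (by norm_num) (by norm_num)
  have g5 : 2.815 * κ ≤ 10 * (0.3032 * x + 0.0826 * w) := by linarith
  have k5 : 6.5 * κ ≤ 10 * (0.7 * x) := by linarith
  have L5 : legV β (0.3032 * x + 0.0826 * w) (0.7 * x) ≤ sg β κ * 0.009218 ∧
      legM β (0.3032 * x + 0.0826 * w) (0.7 * x) 0.8 ≤ sg β κ * 0.008793 :=
    leg2 (G := 2.815) (K := 6.5) (b := 0.059915) hβ hκ hβκ (by norm_num) (by norm_num) g5 (by norm_num) k5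
      (en (by norm_num) (by norm_num)) (by norm_num) (by norm_num)
  have g6 : 8 * κ ≤ 10 * (2 * x) := by linarith
  have k6 : 19.634 * κ ≤ 10 * (Real.pi) := by linarith
  have L6 : legV β (2 * x) (Real.pi) ≤ sg β κ * 0.000021 ∧
      legM β (2 * x) (Real.pi) 0 ≤ sg β κ * 0.000002 :=
    leg2 (G := 8) (K := 19.634) (b := 0.000412) hβ hκ hβκ (by norm_num) (by norm_num) g6 (by norm_num) k6
      (en (by norm_num) (by norm_num)) (by norm_num) (by norm_num)
  have g7 : 8 * κ ≤ 10 * (Real.pi + 2 * x) := by linarith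
  have k7 : 6.25 * κ ≤ 10 * (1) := by linarith
  have L7 : legV β (Real.pi + 2 * x) (1) ≤ sg β κ * 0.000066 ∧
      legM β (Real.pi + 2 * x) (1) 3.3 ≤ sg β κ * 0.000229 :=
    leg2 (G := 8) (K := 6.25) (b := 0.000412) hβ hκ hβκ (by norm_num) (by norm_num) g7 (by norm_num) k7
      (en (by norm_num) (by norm_num)) (by norm_num) (by norm_num)
  have g8 : 8 * κ ≤ 10 * (4.7123 * (1 + w) - 2.7183 * PP x w + 2 * x) := by rw [hPP]; nlinarith
  have k8 : 6.25 * κ ≤ 10 * (1) := by linarith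
  have L8 : legV β (4.7123 * (1 + w) - 2.7183 * PP x w + 2 * x) (1) ≤ sg β κ * 0.000066 ∧
      legM β (4.7123 * (1 + w) - 2.7183 * PP x w + 2 * x) (1) 4.82 ≤ sg β κ * 0.000329 :=
    leg2 (G := 8) (K := 6.25) (b := 0.000412) hβ hκ hβκ (by norm_num) (by norm_num) g8 (by norm_num) k8
      (en (by norm_num) (by norm_num)) (by norm_num) (by norm_num)
  have g2 : 8 * κ ≤ 10 * (1.7357 * x - Real.pi * w) := by nlinarith
  have g22 : 8 * κ ≤ 10 * (Real.pi + 0.3678 * x - 1.3679 * x * w) := by linarith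
  have g3 : 8 * κ ≤ 10 * (Real.pi + Real.exp (-1 - w) * x - x * w) := by linarith
  have hsg := sg_pos hβ hκ
  have L2 : (1 + w) * Real.exp (-(1.7357 * x - Real.pi * w) / β) ≤ sg β κ * 0.000697 := by
    have e1 := exp2 (G := 8) (b := 0.000412) hβ hκ hβκ (by norm_num) g2 (en (by norm_num) (by norm_num))
    have e2 : (1 + w) * Real.exp (-(1.7357 * x - Real.pi * w) / β) ≤ (1 + 0.69) * (sg β κ * 0.000412) := by gcongr
    nlinarith
  have L22 : (1 + w) * Real.exp (-(Real.pi + 0.3678 * x - 1.3679 * x * w) / β) ≤ sg β κ * 0.000697 := by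
    have e1 := exp2 (G := 8) (b := 0.000412) hβ hκ hβκ (by norm_num) g22 (en (by norm_num) (by norm_num))
    have e2 : (1 + w) * Real.exp (-(Real.pi + 0.3678 * x - 1.3679 * x * w) / β) ≤ (1 + 0.69) * (sg β κ * 0.000412) := by gcongr
    nlinarith
  have L3 : Real.exp (-(Real.pi + Real.exp (-1 - w) * x - x * w) / β) ≤ sg β κ * 0.000412 :=
    exp2 (G := 8) hβ hκ hβκ (by norm_num) g3 (en (by norm_num) (by norm_num))
  have hρ : PP x w ≤ 1.0768 * x := by rw [hPP]; nlinarith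
  have hc : 0.841 ≤ cL x w := by
    unfold cL
    have e1 : w ≤ 0.3679 * p := by
      have e2 := mul_exp_neg_le w
      have e3 : Real.exp (-w) * p = 1 := by rw [hp, ← Real.exp_add]; simp
      calc w = w * Real.exp (-w) * p := by rw [mul_assoc, e3, mul_one]
        _ ≤ _ := mul_le_mul_of_nonneg_right e2 hp0.le
    have e4 : w / x ≤ 0.3962 := by
      rw [div_le_iff₀ hx0]
      have e5 : 1 * p ≤ κ * p := mul_le_mul_of_nonneg_right h1 hp0.le
      linarith
    linarith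
  have hxlo : 0.9287 ≤ x := by linarith
  have hD : (1 + -w) ^ 2 + x ^ 2 ≤ (1.2124 ^ 2 * x) ^ 2 := by
    have e1 : (1 + -w) ^ 2 ≤ 1 ^ 2 := by
      have : 0 ≤ 1 + -w := by linarith
      gcongr
      linarith
    have e2 : 0.9287 ^ 2 ≤ x ^ 2 := by gcongr
    nlinarith
  have hDR : (1 + -w) ^ 2 + x ^ 2 ≤ (0.6283 * 1.9583 ^ 2 * κ) ^ 2 := by
    have e1 : (1 + -w) ^ 2 ≤ 1 ^ 2 := by
      have : 0 ≤ 1 + -w := by linarith
      gcongr
      linarith
    have e2 : x ^ 2 ≤ (κ + 1.1916) ^ 2 := by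
      have : x ≤ κ + 1.1916 := by linarith
      gcongr
    nlinarith
  have hbA : Real.exp (-(0.32 * 9.287)) ≤ 0.051223 := en (by norm_num) (by norm_num)
  have hE : 1.2124 * (3 * 1.0768 * (1 / 24) / 9.287 + 7.5 * (1.0768 * (1 / 6)) ^ 2 / (0.841 ^ 3 * 0.917 * 9.287) +
      2.5 / 2.5066 * (Real.exp (-(0.32 * 9.287)) / 3.047)) +
      1.9583 * (0.015184 + (0.000697 + 0.000697) + 1.5708 * 0.000412 + 0.000066 + 0.009218 + 0.000021 + 0.000066 + 0.000066) ≤ 0.148 := by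
    have : Real.exp (-(0.32 * 9.287)) / 3.047 ≤ 0.051223 / 3.047 := by gcongr
    norm_num at this ⊢
    linarith
  have key := leftMaster (κ := κ) (A := 9.287) (ρ := 1.0768) (c0 := 0.841) (ℓ := 1.2124) (q := 1.9583) (sA := 3.047) (sc := 0.917) (t0 := 0.897)
    (e := 0.148) (f := 0.2025) hβ hκ hβκ hx0 hw0
    (by norm_num) (by linarith) (by norm_num) hρ (by norm_num) hc (by norm_num) hD (by norm_num) hDR
    (by norm_num) (by norm_num) (by norm_num) (by norm_num) (by norm_num) (by norm_num)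
    L1 L2 L22 L3 L4 L5 L6.1 L7 L8 (by norm_num) (by norm_num) hE (by norm_num)
  obtain ⟨r1, r2, r3, r4, r5⟩ := key
  exact ⟨r1, r2, r3, r4, r5.trans (mul_le_mul_of_nonneg_left (by norm_num) hsg.le)⟩

end Sok.B2
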