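import Pool.Agent.Lib.MP_816dec_an.B2MasL

/-!
MP_816dec_an, b = 2: numerical error bounds of the left saddle in the regimes of `κ` (two auxiliary inequalities).
-/

set_option autoImplicit false

open Set Filter Topology

namespace Sok.B2

theorem exp_tangent {w0 E w : ℝ} (hE : E ≤ Real.exp w0) (h : 0 ≤ 1 - w0 + w) : E * (1 - w0 + w) ≤ Real.exp w := by
  have e1 := Real.add_one_le_exp (w - w0)
  have e2 : Real.exp w = Real.exp w0 * Real.exp (w - w0) := by rw [← Real.exp_add]; congr 1; ring
  rw [e2]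
  exact mul_le_mul hE (by linarith) h (Real.exp_pos _).le

theorem exp_le_chord {w : ℝ} (h0 : 0 ≤ w) (h1 : w ≤ 0.98) : Real.exp w ≤ 1 + 1.7 * w := by
  have e1 : Real.exp (0.98 : ℝ) ≤ 2.6645 := by
    have := Real.exp_bound' (x := 0.98) (by norm_num) (by norm_num) (n := 8) (by norm_num)
    simp only [Finset.sum_range_succ, Finset.sum_range_zero, Nat.factorial] at this
    norm_num at this ⊢
    linarith
  have e2 := convexOn_exp.2 (mem_univ (0 : ℝ)) (mem_univ (0.98 : ℝ))
    (show 0 ≤ 1 - w / 0.98 by rw [sub_nonneg, div_le_one (by norm_num)]; exact h1)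
    (show 0 ≤ w / 0.98 by positivity) (by ring)
  simp only [smul_eq_mul, mul_zero, zero_add, Real.exp_zero, mul_one] at e2
  have e3 : w / 0.98 * 0.98 = w := by field_simp
  rw [e3] at e2
  have e4 : w / 0.98 * Real.exp 0.98 ≤ w / 0.98 * 2.6645 := by gcongr
  have e5 : w / 0.98 * 2.6645 = w * (2.6645 / 0.98) := by ring
  have e6 : w / 0.98 = w * (1 / 0.98) := by ring
  rw [e5] at e4
  rw [e6] at e2 e4
  norm_num at e2 e4 ⊢
  linarith

end Sok.B2
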