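import Pool.Agent.Lib.MP_816dec_an.B2Mas

/-!
MP_816dec_an, b = 2: numerical error bounds of the right saddle in the regimes of `κ` (part 3).
-/

set_option autoImplicit false

open Set Filter Topology

namespace Sok.B2

private theorem rhoRII {x y : ℝ} (a1 : 0.441 ≤ x) (a2 : x ≤ 1.329) (b1 : 0.45 ≤ y) (b2 : y ≤ 0.68) :
    x ^ 2 + y ^ 2 ≤ (0.739 * aR x y) ^ 2 := by
  unfold aR
  nlinarith [mul_nonneg (sub_nonneg.2 a1) (sub_nonneg.2 a1), mul_nonneg (sub_nonneg.2 b1) (sub_nonneg.2 b1), mul_nonneg (sub_nonneg.2 a1) (sub_nonneg.2 a2), mul_nonneg (sub_nonneg.2 b1) (sub_nonneg.2 b2), mul_nonneg (sub_nonneg.2 a1) (sub_nonneg.2 b1), mul_nonneg (sub_nonneg.2 a1) (sub_nonneg.2 b2), mul_nonneg (sub_nonneg.2 a2) (sub_nonneg.2 b1), mul_nonneg (sub_nonneg.2 a2) (sub_nonneg.2 b2)]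

private theorem lamRII {x y : ℝ} (a1 : 0.441 ≤ x) (a2 : x ≤ 1.329) (b1 : 0.45 ≤ y) (b2 : y ≤ 0.68) :
    (1 + y) ^ 2 + x ^ 2 ≤ (1.1675 ^ 2 * aR x y) ^ 2 := by
  unfold aR
  nlinarith [mul_nonneg (sub_nonneg.2 a1) (sub_nonneg.2 a1), mul_nonneg (sub_nonneg.2 b1) (sub_nonneg.2 b1), mul_nonneg (sub_nonneg.2 a1) (sub_nonneg.2 a2), mul_nonneg (sub_nonneg.2 b1) (sub_nonneg.2 b2), mul_nonneg (sub_nonneg.2 a1) (sub_nonneg.2 b1), mul_nonneg (sub_nonneg.2 a1) (sub_nonneg.2 b2), mul_nonneg (sub_nonneg.2 a2) (sub_nonneg.2 b1), mul_nonneg (sub_nonneg.2 a2) (sub_nonneg.2 b2)]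

/-- regime RII -/
theorem numRII {β κ τ x y u : ℝ} (h : RS κ τ x y u) (hβ : 0 < β) (hβκ : 10 * β ≤ κ) (h1 : 1.6 ≤ κ) (h2 : κ ≤ 2.2)
    (hx : 0.7365 * κ - 0.7373 ≤ x) (hy1 : 0.45 ≤ y) (hy2 : y ≤ 0.68) :
    ER β x y ≤ 0.2827 * A0 β x y ∧ FR β x y ≤ 0.4133 * A0 β x y ∧ 0 < A0 β x y ∧ sg β κ ≤ A0 β x y * 1.355 ∧
    absR β x y ≤ sg β κ * 1.1719 ∧ legV β (0.3518 + 1.224 * x - 0.3198 * y) 1.57 ≤ sg β κ * 0.002081 := by
  have hκ : 0 < κ := h.kpos
  have hx0 := h.x0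
  have hy0 := h.y0
  have hyY : y ≤ 0.68 := by linarith
  have hxl : 0.441 ≤ x := by linarith
  have hEl : Real.exp (-0.45) ≤ 0.63763 := en (by norm_num) (by norm_num)
  have hxu : x ≤ 1.329 := h.x_le (by norm_num) hy1 hEl (by norm_num) (by nlinarith)
  have hEY : Real.exp 0.68 ≤ 1.9739 := eu (by norm_num) (by norm_num) (by norm_num)
  have hZ := h.Z_le (Zm := 2.9874) hyY hEY (by norm_num)
  have hmu := h.mu_le (μ := 0.5645) hyY hEY (by norm_num) (by norm_num)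
  have hWP := h.WP
  have hEZu := h.EZ_le
  have hEZl := h.EZ_ge
  have hxy : 1.8264 * κ - 1.8282 ≤ x * (1.8 + y) := by
    have := h.xy_ge (p := 1.8264) (q := -1.8282) hyY hEY (by nlinarith [mul_nonneg (sub_nonneg.2 h1) (sub_nonneg.2 h2)])
    linarith
  obtain ⟨W, hW⟩ : ∃ W : ℝ, W = Real.exp (y + 0.8) := ⟨_, rfl⟩
  have hW0 : 0 < W := by rw [hW]; exact Real.exp_pos _
  rw [← hW] at hZ hmu hWP hEZu hEZl
  have hE0 : 0 ≤ W * x := by positivity
  have hZ0 : 0 ≤ y * W := by positivity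
  have hmu' : 0.5645 * (W * x) ≤ x * (1.8 + y) := by nlinarith
  have hEu : W * x ≤ 2.2256 * κ := by
    refine le_of_sq_le_sq' (by positivity) ?_
    nlinarith [sq_nonneg (y * W)]
  have hEl2 : 3.236 * κ - 3.2414 ≤ W * x := by
    refine le_of_sq_le_sq' hE0 ?_
    have h3 : (y * W) ^ 2 ≤ 2.9874 ^ 2 := by gcongr
    nlinarith [mul_nonneg (sub_nonneg.2 h1) (sub_nonneg.2 h2)]
  have hρ : x ^ 2 + y ^ 2 ≤ (0.739 * aR x y) ^ 2 := rhoRII hxl hxu hy1 hyY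
  have hD : (1 + y) ^ 2 + x ^ 2 ≤ (1.1675 ^ 2 * aR x y) ^ 2 := lamRII hxl hxu hy1 hyY
  have hDR : (1 + y) ^ 2 + x ^ 2 ≤ (0.6283 * 1.355 ^ 2 * κ) ^ 2 := by
    refine h.D_le hy1 hy2 hEl ?_
    nlinarith
  have g8 : 3.085 * κ ≤ 10 * (3.7696 + x * (1.8 + y) - y * W - 0.7 * max (W * x - 0.8) 0.5) := by
    rcases max_cases (W * x - 0.8) (0.5 : ℝ) with ⟨h3, h4⟩ | ⟨h3, h4⟩ <;> rw [h3] <;> linarith
  have k8 : 7.101 * κ ≤ 10 * max (W * x - 0.8) 0.5 := by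
    have := le_max_left (W * x - 0.8) (0.5 : ℝ); linarith
  have L1 : legV β (0.172 + 0.201 * x + 0.2127 * y) (0.224 + 0.5515 * x) ≤ sg β κ * 0.045295 ∧
      legM β (0.172 + 0.201 * x + 0.2127 * y) (0.224 + 0.5515 * x) 0.8 ≤ sg β κ * 0.051748 :=
    leg2 (G := 2.023) (K := 2.92) (b := 0.13226) hβ hκ hβκ (by norm_num) (by norm_num) (by linarith) (by norm_num) (by linarith)
      (en (by norm_num) (by norm_num)) (by norm_num) (by norm_num)
  have L3 : legV β (3) (0.3) ≤ sg β κ * 0.000303 ∧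
      legM β (3) (0.3) 3.3 ≤ sg β κ * 0.00122 :=
    leg2 (G := 8) (K := 1.363) (b := 0.000412) hβ hκ hβκ (by norm_num) (by norm_num) (by linarith) (by norm_num) (by linarith)
      (en (by norm_num) (by norm_num)) (by norm_num) (by norm_num)
  have L4 : legV β (0.172 + 0.324 * x + 0.1011 * y) (0.224 + 0.8691 * x - 0.5243 * y) ≤ sg β κ * 0.06713 ∧
      legM β (0.172 + 0.324 * x + 0.1011 * y) (0.224 + 0.8691 * x - 0.5243 * y) 0.8 ≤ sg β κ * 0.096544 :=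
    leg2 (G := 2.252) (K := 1.567) (b := 0.105192) hβ hκ hβκ (by norm_num) (by norm_num) (by linarith) (by norm_num) (by linarith)
      (en (by norm_num) (by norm_num)) (by norm_num) (by norm_num)
  have L5 : legV β (0.3518 + 1.224 * x - 0.3198 * y) (1.57) ≤ sg β κ * 0.002081 ∧
      legM β (0.3518 + 1.224 * x - 0.3198 * y) (1.57) 1.587 ≤ sg β κ * 0.003595 :=
    leg2 (G := 4.214) (K := 7.136) (b := 0.01485) hβ hκ hβκ (by norm_num) (by norm_num) (by linarith) (by norm_num) (by linarith)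
      (en (by norm_num) (by norm_num)) (by norm_num) (by norm_num)
  have L6 : legV β (1.256 + 1.8 * x) (0.8) ≤ sg β κ * 0.000114 ∧
      legM β (1.256 + 1.8 * x) (0.8) 2.18 ≤ sg β κ * 0.000279 :=
    leg2 (G := 8) (K := 3.636) (b := 0.000412) hβ hκ hβκ (by norm_num) (by norm_num) (by linarith) (by norm_num) (by linarith)
      (en (by norm_num) (by norm_num)) (by norm_num) (by norm_num)
  have L7 : legV β (2.513 + x * (1.8 + y) - y * W) (0.8) ≤ sg β κ * 0.005739 ∧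
      legM β (2.513 + x * (1.8 + y) - y * W) (0.8) 3.49 ≤ sg β κ * 0.021605 :=
    leg2 (G := 3.872) (K := 3.636) (b := 0.020864) hβ hκ hβκ (by norm_num) (by norm_num) (by linarith) (by norm_num) (by linarith)
      (en (by norm_num) (by norm_num)) (by norm_num) (by norm_num)
  have L8 : legV β (3.7696 + x * (1.8 + y) - y * W - 0.7 * max (W * x - 0.8) 0.5) (max (W * x - 0.8) 0.5) ≤ sg β κ * 0.006443 ∧
      legM β (3.7696 + x * (1.8 + y) - y * W - 0.7 * max (W * x - 0.8) 0.5) (max (W * x - 0.8) 0.5) 0 ≤ sg β κ * 0.000908 :=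
    leg2 (G := 3.085) (K := 7.101) (b := 0.045747) hβ hκ hβκ (by norm_num) (by norm_num) g8 (by norm_num) k8
      (en (by norm_num) (by norm_num)) (by norm_num) (by norm_num)
  have L9 : legV β (4.3296 + x * (1.8 + y) - W * PP x y) (0.8) ≤ sg β κ * 0.000198 ∧
      legM β (4.3296 + x * (1.8 + y) - W * PP x y) (0.8) 5.62 ≤ sg β κ * 0.001163 :=
    leg2 (G := 7.378) (K := 3.636) (b := 0.000717) hβ hκ hβκ (by norm_num) (by norm_num) (by linarith) (by norm_num) (by linarith)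
      (en (by norm_num) (by norm_num)) (by norm_num) (by norm_num)
  have L2 : Real.exp (-(0.7 + 0.8 * x + 3.14 * y) / β) ≤ sg β κ * 0.000412 :=
    exp2 (G := 8) hβ hκ hβκ (by norm_num) (by linarith) (en (by norm_num) (by norm_num))
  have hbA : Real.exp (-(0.32 * 6.92)) ≤ 0.109222 := en (by norm_num) (by norm_num)
  have hE : 1.1675 * (3 * 0.739 * 0.0437 / 6.92 + 7.5 * (0.739 * 0.1765) ^ 2 / (0.81 ^ 3 * 0.9 * 6.92) +
      2.5 / 2.5066 * (Real.exp (-(0.32 * 6.92)) / 2.63)) +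
      1.355 * (0.045295 + 0.776 * 0.000412 + 0.000303 + 0.06713 + (0.002081 + 0.000114 + 0.005739 + 0.006443 + 0.000198)) ≤ 0.2827 := by
    have : Real.exp (-(0.32 * 6.92)) / 2.63 ≤ 0.109222 / 2.63 := by gcongr
    norm_num at this ⊢
    linarith
  rw [hW] at L7 L8 L9
  have key := rightMaster (κ := κ) (A := 6.92) (ρ := 0.739) (c0 := 0.81) (ℓ := 1.1675) (q := 1.355) (sA := 2.63) (sc := 0.9) (t0 := 1.0588)
    (e := 0.2827) (f := 0.4133) hβ hκ hβκ hx0 hy0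
    (by norm_num) (by unfold aR; linarith) (by norm_num) hρ (by norm_num) (by norm_num) (by norm_num) hD (by norm_num) hDR
    (by norm_num) (by norm_num) (by norm_num) (by norm_num) (by norm_num) (by norm_num)
    L1 L2 L3 L4 L5 L6 L7 L8.1 L9 (by norm_num) (by norm_num) hE (by norm_num)
  obtain ⟨r1, r2, r3, r4, r5, r6⟩ := key
  exact ⟨r1, r2, r3, r4, r5.trans (mul_le_mul_of_nonneg_left (by norm_num) (sg_pos hβ hκ).le), r6⟩

end Sok.B2
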