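import Pool.Agent.Lib.MP_816dec_an.B2Mas

/-!
MP_816dec_an, b = 2: numerical error bounds of the right saddle in the regimes of `κ` (part 7).
-/

set_option autoImplicit false

open Set Filter Topology

namespace Sok.B2

private theorem rhoOII {x y : ℝ} (a1 : 0.796 ≤ x) (a2 : x ≤ 2.2) (b1 : 0 ≤ y) (b2 : y ≤ 0.52) :
    x ^ 2 + y ^ 2 ≤ (0.92 * aR x y) ^ 2 := by
  unfold aR
  nlinarith [mul_nonneg (sub_nonneg.2 a1) (sub_nonneg.2 a1), mul_nonneg (sub_nonneg.2 b1) (sub_nonneg.2 b1), mul_nonneg (sub_nonneg.2 a1) (sub_nonneg.2 a2), mul_nonneg (sub_nonneg.2 b1) (sub_nonneg.2 b2), mul_nonneg (sub_nonneg.2 a1) (sub_nonneg.2 b1), mul_nonneg (sub_nonneg.2 a1) (sub_nonneg.2 b2), mul_nonneg (sub_nonneg.2 a2) (sub_nonneg.2 b1), mul_nonneg (sub_nonneg.2 a2) (sub_nonneg.2 b2)]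

private theorem lamOII {x y : ℝ} (a1 : 0.796 ≤ x) (a2 : x ≤ 2.2) (b1 : 0 ≤ y) (b2 : y ≤ 0.52) :
    (1 + y) ^ 2 + x ^ 2 ≤ (1.0739 ^ 2 * aR x y) ^ 2 := by
  unfold aR
  nlinarith [mul_nonneg (sub_nonneg.2 a1) (sub_nonneg.2 a1), mul_nonneg (sub_nonneg.2 b1) (sub_nonneg.2 b1), mul_nonneg (sub_nonneg.2 a1) (sub_nonneg.2 a2), mul_nonneg (sub_nonneg.2 b1) (sub_nonneg.2 b2), mul_nonneg (sub_nonneg.2 a1) (sub_nonneg.2 b1), mul_nonneg (sub_nonneg.2 a1) (sub_nonneg.2 b2), mul_nonneg (sub_nonneg.2 a2) (sub_nonneg.2 b1), mul_nonneg (sub_nonneg.2 a2) (sub_nonneg.2 b2)]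

/-- regime OII -/
theorem numOII {β κ τ x y u : ℝ} (h : RS κ τ x y u) (hβ : 0 < β) (hβκ : 10 * β ≤ κ) (h1 : 1.6 ≤ κ) (h2 : κ ≤ 2.2)
    (hx : 0.6726 * κ - 0.2797 ≤ x) (hy1 : 0 ≤ y) (hy2 : y ≤ 0.52) :
    ER β x y ≤ 0.2191 * A0 β x y ∧ FR β x y ≤ 0.2603 * A0 β x y ∧ 0 < A0 β x y ∧ sg β κ ≤ A0 β x y * 1.3702 ∧
    absR β x y ≤ sg β κ * 1.1394 ∧ legV β (0.3518 + 1.224 * x - 0.3198 * y) 1.57 ≤ sg β κ * 0.000113 := by
  have hκ : 0 < κ := h.kpos
  have hx0 := h.x0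
  have hy0 := h.y0
  have hyY : y ≤ 0.52 := by linarith
  have hxl : 0.796 ≤ x := by linarith
  have hxu : x ≤ 2.2 := by
    have := h.x_le (yl := 0) (E := 1) (X := κ) le_rfl hy0 (by simp) hκ.le (by nlinarith)
    linarith
  have hEY : Real.exp 0.52 ≤ 1.6821 := eu (by norm_num) (by norm_num) (by norm_num)
  have hZ := h.Z_le (Zm := 1.9468) hyY hEY (by norm_num)
  have hmu := h.mu_le (μ := 0.6197) hyY hEY (by norm_num) (by norm_num)
  have hWP := h.WP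
  have hEZu := h.EZ_le
  have hEZl := h.EZ_ge
  have hxy : 1.5606 * κ - 0.6493 ≤ x * (1.8 + y) := by
    have := h.xy_ge (p := 1.5606) (q := -0.6493) hyY hEY (by nlinarith [mul_nonneg (sub_nonneg.2 h1) (sub_nonneg.2 h2)])
    linarith
  obtain ⟨W, hW⟩ : ∃ W : ℝ, W = Real.exp (y + 0.8) := ⟨_, rfl⟩
  have hW0 : 0 < W := by rw [hW]; exact Real.exp_pos _
  rw [← hW] at hZ hmu hWP hEZu hEZl
  have hE0 : 0 ≤ W * x := by positivity
  have hZ0 : 0 ≤ y * W := by positivity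
  have hmu' : 0.6197 * (W * x) ≤ x * (1.8 + y) := by nlinarith
  have hEu : W * x ≤ 2.2256 * κ := by
    refine le_of_sq_le_sq' (by positivity) ?_
    nlinarith [sq_nonneg (y * W)]
  have hρ : x ^ 2 + y ^ 2 ≤ (0.92 * aR x y) ^ 2 := rhoOII hxl hxu hy1 hyY
  have hD : (1 + y) ^ 2 + x ^ 2 ≤ (1.0739 ^ 2 * aR x y) ^ 2 := lamOII hxl hxu hy1 hyY
  have hDR : (1 + y) ^ 2 + x ^ 2 ≤ (0.6283 * 1.3702 ^ 2 * κ) ^ 2 := by
    have e1 := h.normsq
    have e2 := exp_neg_le_quad (d := 2 * y) (by linarith)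
    have e3 : Real.exp (-y) ^ 2 = Real.exp (-(2 * y)) := by rw [sq, ← Real.exp_add]; congr 1; ring
    rw [e3] at e1
    have e4 : κ ^ 2 * Real.exp (-(2 * y)) ≤ κ ^ 2 * (1 - 2 * y + (2 * y) ^ 2 / 2) := by gcongr
    have e5 : 0 ≤ κ ^ 2 - 1.6 ^ 2 := by nlinarith
    have e6 : 1 + 2 * y + κ ^ 2 * (1 - 2 * y + (2 * y) ^ 2 / 2) ≤ (0.6283 * 1.3702 ^ 2 * κ) ^ 2 := by
      have e7 : 0 ≤ (0.6283 * 1.3702 ^ 2) ^ 2 - (1 - 2 * y + (2 * y) ^ 2 / 2) := by nlinarith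
      nlinarith [mul_nonneg e5 e7, mul_nonneg (sub_nonneg.2 hy1) (sub_nonneg.2 hyY)]
    nlinarith
  have g8 : 8 * κ ≤ 10 * (3.7696 + x * (1.8 + y) - y * W - 0.7 * max (W * x - 0.8) 0.5) := by
    rcases max_cases (W * x - 0.8) (0.5 : ℝ) with ⟨h3, h4⟩ | ⟨h3, h4⟩ <;> rw [h3] <;> linarith
  have k8 : 2.272 * κ ≤ 10 * max (W * x - 0.8) 0.5 := by
    have := le_max_right (W * x - 0.8) (0.5 : ℝ); linarith
  have L1 : legV β (0.172 + 0.201 * x + 0.2127 * y) (0.224 + 0.5515 * x) ≤ sg β κ * 0.037978 ∧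
      legM β (0.172 + 0.201 * x + 0.2127 * y) (0.224 + 0.5515 * x) 0.8 ≤ sg β κ * 0.039815 :=
    leg2 (G := 1.878) (K := 4.026) (b := 0.152897) hβ hκ hβκ (by norm_num) (by norm_num) (by linarith) (by norm_num) (by linarith)
      (en (by norm_num) (by norm_num)) (by norm_num) (by norm_num)
  have L3 : legV β (3) (0.3) ≤ sg β κ * 0.000303 ∧
      legM β (3) (0.3) 3.3 ≤ sg β κ * 0.00122 :=
    leg2 (G := 8) (K := 1.363) (b := 0.000412) hβ hκ hβκ (by norm_num) (by norm_num) (by linarith) (by norm_num) (by linarith)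
      (en (by norm_num) (by norm_num)) (by norm_num) (by norm_num)
  have L4 : legV β (0.172 + 0.324 * x + 0.1011 * y) (0.224 + 0.8691 * x - 0.5243 * y) ≤ sg β κ * 0.019435 ∧
      legM β (0.172 + 0.324 * x + 0.1011 * y) (0.224 + 0.8691 * x - 0.5243 * y) 0.8 ≤ sg β κ * 0.02038 :=
    leg2 (G := 2.549) (K := 4.022) (b := 0.078166) hβ hκ hβκ (by norm_num) (by norm_num) (by linarith) (by norm_num) (by linarith)
      (en (by norm_num) (by norm_num)) (by norm_num) (by norm_num)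
  have L5 : legV β (0.3518 + 1.224 * x - 0.3198 * y) (1.57) ≤ sg β κ * 0.000113 ∧
      legM β (0.3518 + 1.224 * x - 0.3198 * y) (1.57) 1.587 ≤ sg β κ * 0.000195 :=
    leg2 (G := 7.252) (K := 7.136) (b := 0.000804) hβ hκ hβκ (by norm_num) (by norm_num) (by linarith) (by norm_num) (by linarith)
      (en (by norm_num) (by norm_num)) (by norm_num) (by norm_num)
  have L6 : legV β (1.256 + 1.8 * x) (0.8) ≤ sg β κ * 0.000114 ∧
      legM β (1.256 + 1.8 * x) (0.8) 2.18 ≤ sg β κ * 0.000279 :=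
    leg2 (G := 8) (K := 3.636) (b := 0.000412) hβ hκ hβκ (by norm_num) (by norm_num) (by linarith) (by norm_num) (by linarith)
      (en (by norm_num) (by norm_num)) (by norm_num) (by norm_num)
  have L7 : legV β (2.513 + x * (1.8 + y) - y * W) (0.8) ≤ sg β κ * 0.000114 ∧
      legM β (2.513 + x * (1.8 + y) - y * W) (0.8) 3.49 ≤ sg β κ * 0.000427 :=
    leg2 (G := 8) (K := 3.636) (b := 0.000412) hβ hκ hβκ (by norm_num) (by norm_num) (by linarith) (by norm_num) (by linarith)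
      (en (by norm_num) (by norm_num)) (by norm_num) (by norm_num)
  have L8 : legV β (3.7696 + x * (1.8 + y) - y * W - 0.7 * max (W * x - 0.8) 0.5) (max (W * x - 0.8) 0.5) ≤ sg β κ * 0.000182 ∧
      legM β (3.7696 + x * (1.8 + y) - y * W - 0.7 * max (W * x - 0.8) 0.5) (max (W * x - 0.8) 0.5) 0 ≤ sg β κ * 0.00008 :=
    leg2 (G := 8) (K := 2.272) (b := 0.000412) hβ hκ hβκ (by norm_num) (by norm_num) g8 (by norm_num) k8
      (en (by norm_num) (by norm_num)) (by norm_num) (by norm_num)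
  have L9 : legV β (4.3296 + x * (1.8 + y) - W * PP x y) (0.8) ≤ sg β κ * 0.000114 ∧
      legM β (4.3296 + x * (1.8 + y) - W * PP x y) (0.8) 5.62 ≤ sg β κ * 0.000668 :=
    leg2 (G := 8) (K := 3.636) (b := 0.000412) hβ hκ hβκ (by norm_num) (by norm_num) (by linarith) (by norm_num) (by linarith)
      (en (by norm_num) (by norm_num)) (by norm_num) (by norm_num)
  have L2 : Real.exp (-(0.7 + 0.8 * x + 3.14 * y) / β) ≤ sg β κ * 0.000617 :=
    exp2 (G := 7.545) hβ hκ hβκ (by norm_num) (by linarith) (en (by norm_num) (by norm_num))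
  have hbA : Real.exp (-(0.32 * 7.04)) ≤ 0.105108 := en (by norm_num) (by norm_num)
  have hE : 1.0739 * (3 * 0.92 * 0.0437 / 7.04 + 7.5 * (0.92 * 0.1765) ^ 2 / (0.7635 ^ 3 * 0.8737 * 7.04) +
      2.5 / 2.5066 * (Real.exp (-(0.32 * 7.04)) / 2.653)) +
      1.3702 * (0.037978 + 0.776 * 0.000617 + 0.000303 + 0.019435 + (0.000113 + 0.000114 + 0.000114 + 0.000182 + 0.000114)) ≤ 0.2191 := by
    have : Real.exp (-(0.32 * 7.04)) / 2.653 ≤ 0.105108 / 2.653 := by gcongr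
    norm_num at this ⊢
    linarith
  rw [hW] at L7 L8 L9
  have key := rightMaster (κ := κ) (A := 7.04) (ρ := 0.92) (c0 := 0.7635) (ℓ := 1.0739) (q := 1.3702) (sA := 2.653) (sc := 0.8737) (t0 := 1.0812)
    (e := 0.2191) (f := 0.2603) hβ hκ hβκ hx0 hy0
    (by norm_num) (by unfold aR; linarith) (by norm_num) hρ (by norm_num) (by norm_num) (by norm_num) hD (by norm_num) hDR
    (by norm_num) (by norm_num) (by norm_num) (by norm_num) (by norm_num) (by norm_num)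
    L1 L2 L3 L4 L5 L6 L7 L8.1 L9 (by norm_num) (by norm_num) hE (by norm_num)
  obtain ⟨r1, r2, r3, r4, r5, r6⟩ := key
  exact ⟨r1, r2, r3, r4, r5.trans (mul_le_mul_of_nonneg_left (by norm_num) (sg_pos hβ hκ).le), r6⟩

end Sok.B2
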