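import Pool.Agent.Lib.MP_816dec_an.B2NumR1
import Pool.Agent.Lib.MP_816dec_an.B2NumR2
import Pool.Agent.Lib.MP_816dec_an.B2NumR3
import Pool.Agent.Lib.MP_816dec_an.B2NumR4
import Pool.Agent.Lib.MP_816dec_an.B2NumR5
import Pool.Agent.Lib.MP_816dec_an.B2NumR6
import Pool.Agent.Lib.MP_816dec_an.B2NumR7
import Pool.Agent.Lib.MP_816dec_an.B2NumR8

/-!
MP_816dec_an, b = 2: numerical error bounds of the right saddle in the regimes of `κ` (all parts).
-/
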