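import Pool.Agent.Lib.MP_816dec_an.B2Mas

/-!
MP_816dec_an, b = 2: numerical error bounds of the right saddle in the regimes of `κ` (part 1).
-/

set_option autoImplicit false

open Set Filter Topology

namespace Sok.B2

private theorem rhoRIa {x y : ℝ} (a1 : 0.215 ≤ x) (a2 : x ≤ 0.744) (b1 : 0.42 ≤ y) (b2 : y ≤ 0.615) :
    x ^ 2 + y ^ 2 ≤ (0.646 * aR x y) ^ 2 := by
  unfold aR
  nlinarith [mul_nonneg (sub_nonneg.2 a1) (sub_nonneg.2 a1), mul_nonneg (sub_nonneg.2 b1) (sub_nonneg.2 b1), mul_nonneg (sub_nonneg.2 a1) (sub_nonneg.2 a2), mul_nonneg (sub_nonneg.2 b1) (sub_nonneg.2 b2), mul_nonneg (sub_nonneg.2 a1) (sub_nonneg.2 b1), mul_nonneg (sub_nonneg.2 a1) (sub_nonneg.2 b2), mul_nonneg (sub_nonneg.2 a2) (sub_nonneg.2 b1), mul_nonneg (sub_nonneg.2 a2) (sub_nonneg.2 b2)]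

private theorem lamRIa {x y : ℝ} (a1 : 0.215 ≤ x) (a2 : x ≤ 0.744) (b1 : 0.42 ≤ y) (b2 : y ≤ 0.615) :
    (1 + y) ^ 2 + x ^ 2 ≤ (1.2465 ^ 2 * aR x y) ^ 2 := by
  unfold aR
  nlinarith [mul_nonneg (sub_nonneg.2 a1) (sub_nonneg.2 a1), mul_nonneg (sub_nonneg.2 b1) (sub_nonneg.2 b1), mul_nonneg (sub_nonneg.2 a1) (sub_nonneg.2 a2), mul_nonneg (sub_nonneg.2 b1) (sub_nonneg.2 b2), mul_nonneg (sub_nonneg.2 a1) (sub_nonneg.2 b1), mul_nonneg (sub_nonneg.2 a1) (sub_nonneg.2 b2), mul_nonneg (sub_nonneg.2 a2) (sub_nonneg.2 b1), mul_nonneg (sub_nonneg.2 a2) (sub_nonneg.2 b2)]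

/-- regime RIa -/
theorem numRIa {β κ τ x y u : ℝ} (h : RS κ τ x y u) (hβ : 0 < β) (hβκ : 10 * β ≤ κ) (h1 : 1 ≤ κ) (h2 : κ ≤ 1.3)
    (hx : 0.44 * κ - 0.225 ≤ x) (hy1 : 0.42 ≤ y) (hy2 : y ≤ 0.355 + 0.2 * κ) :
    ER β x y ≤ 0.2248 * A0 β x y ∧ FR β x y ≤ 0.3192 * A0 β x y ∧ 0 < A0 β x y ∧ sg β κ ≤ A0 β x y * 1.593 ∧
    absR β x y ≤ sg β κ * 1.056 ∧ legV β (0.3518 + 1.224 * x - 0.3198 * y) 1.57 ≤ sg β κ * 0.00105 := by
  have hκ : 0 < κ := h.kpos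
  have hx0 := h.x0
  have hy0 := h.y0
  have hyY : y ≤ 0.615 := by linarith
  have hxl : 0.215 ≤ x := by linarith
  have hEl : Real.exp (-0.42) ≤ 0.65706 := en (by norm_num) (by norm_num)
  have hxu : x ≤ 0.744 := h.x_le (by norm_num) hy1 hEl (by norm_num) (by nlinarith)
  have hEY : Real.exp 0.615 ≤ 1.8498 := eu (by norm_num) (by norm_num) (by norm_num)
  have hZ := h.Z_le (Zm := 2.532) hyY hEY (by norm_num)
  have hmu := h.mu_le (μ := 0.5866) hyY hEY (by norm_num) (by norm_num)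
  have hWP := h.WP
  have hEZu := h.EZ_le
  have hEZl := h.EZ_ge
  have hZk := h.Z_le_k
  have hxy : 2.22 * x ≤ x * (1.8 + y) := by nlinarith
  obtain ⟨W, hW⟩ : ∃ W : ℝ, W = Real.exp (y + 0.8) := ⟨_, rfl⟩
  have hW0 : 0 < W := by rw [hW]; exact Real.exp_pos _
  rw [← hW] at hZ hmu hWP hEZu hEZl hZk
  have hE0 : 0 ≤ W * x := by positivity
  have hZ0 : 0 ≤ y * W := by positivity
  have hmu' : 0.5866 * (W * x) ≤ x * (1.8 + y) := by nlinarith
  have hEu : W * x ≤ 2.2256 * κ := by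
    refine le_of_sq_le_sq' (by positivity) ?_
    nlinarith [sq_nonneg (y * W)]
  have hρ : x ^ 2 + y ^ 2 ≤ (0.646 * aR x y) ^ 2 := rhoRIa hxl hxu hy1 hyY
  have hD : (1 + y) ^ 2 + x ^ 2 ≤ (1.2465 ^ 2 * aR x y) ^ 2 := lamRIa hxl hxu hy1 hyY
  have hDR : (1 + y) ^ 2 + x ^ 2 ≤ (0.6283 * 1.593 ^ 2 * κ) ^ 2 := by
    refine h.D_le hy1 hy2 hEl ?_
    nlinarith
  have g8 : 8 * κ ≤ 10 * (3.7696 + x * (1.8 + y) - y * W - 0.7 * max (W * x - 0.8) 0.5) := by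
    rcases max_cases (W * x - 0.8) (0.5 : ℝ) with ⟨h3, h4⟩ | ⟨h3, h4⟩ <;> rw [h3] <;> linarith
  have k8 : 3.846 * κ ≤ 10 * max (W * x - 0.8) 0.5 := by
    have := le_max_right (W * x - 0.8) (0.5 : ℝ); linarith
  have L1 : legV β (0.172 + 0.201 * x + 0.2127 * y) (0.224 + 0.5515 * x) ≤ sg β κ * 0.024539 ∧
      legM β (0.172 + 0.201 * x + 0.2127 * y) (0.224 + 0.5515 * x) 0.8 ≤ sg β κ * 0.027312 :=
    leg2 (G := 2.546) (K := 3.195) (b := 0.078401) hβ hκ hβκ (by norm_num) (by norm_num) (by linarith) (by norm_num) (by linarith)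
      (en (by norm_num) (by norm_num)) (by norm_num) (by norm_num)
  have L3 : legV β (3) (0.3) ≤ sg β κ * 0.000179 ∧
      legM β (3) (0.3) 3.3 ≤ sg β κ * 0.000667 :=
    leg2 (G := 8) (K := 2.307) (b := 0.000412) hβ hκ hβκ (by norm_num) (by norm_num) (by linarith) (by norm_num) (by linarith)
      (en (by norm_num) (by norm_num)) (by norm_num) (by norm_num)
  have L4 : legV β (0.172 + 0.324 * x + 0.1011 * y) (0.224 + 0.8691 * x - 0.5243 * y) ≤ sg β κ * 0.067571 ∧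
      legM β (0.172 + 0.324 * x + 0.1011 * y) (0.224 + 0.8691 * x - 0.5243 * y) 0.8 ≤ sg β κ * 0.11046 :=
    leg2 (G := 2.514) (K := 1.198) (b := 0.08095) hβ hκ hβκ (by norm_num) (by norm_num) (by linarith) (by norm_num) (by linarith)
      (en (by norm_num) (by norm_num)) (by norm_num) (by norm_num)
  have L5 : legV β (0.3518 + 1.224 * x - 0.3198 * y) (1.57) ≤ sg β κ * 0.00105 ∧
      legM β (0.3518 + 1.224 * x - 0.3198 * y) (1.57) 1.587 ≤ sg β κ * 0.001752 :=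
    leg2 (G := 4.374) (K := 12.076) (b := 0.01267) hβ hκ hβκ (by norm_num) (by norm_num) (by linarith) (by norm_num) (by linarith)
      (en (by norm_num) (by norm_num)) (by norm_num) (by norm_num)
  have L6 : legV β (1.256 + 1.8 * x) (0.8) ≤ sg β κ * 0.000067 ∧
      legM β (1.256 + 1.8 * x) (0.8) 2.18 ≤ sg β κ * 0.000157 :=
    leg2 (G := 8) (K := 6.153) (b := 0.000412) hβ hκ hβκ (by norm_num) (by norm_num) (by linarith) (by norm_num) (by linarith)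
      (en (by norm_num) (by norm_num)) (by norm_num) (by norm_num)
  have L7 : legV β (2.513 + x * (1.8 + y) - y * W) (0.8) ≤ sg β κ * 0.000904 ∧
      legM β (2.513 + x * (1.8 + y) - y * W) (0.8) 3.49 ≤ sg β κ * 0.003302 :=
    leg2 (G := 5.21) (K := 6.153) (b := 0.005562) hβ hκ hβκ (by norm_num) (by norm_num) (by linarith) (by norm_num) (by linarith)
      (en (by norm_num) (by norm_num)) (by norm_num) (by norm_num)
  have L8 : legV β (3.7696 + x * (1.8 + y) - y * W - 0.7 * max (W * x - 0.8) 0.5) (max (W * x - 0.8) 0.5) ≤ sg β κ * 0.000108 ∧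
      legM β (3.7696 + x * (1.8 + y) - y * W - 0.7 * max (W * x - 0.8) 0.5) (max (W * x - 0.8) 0.5) 0 ≤ sg β κ * 0.000028 :=
    leg2 (G := 8) (K := 3.846) (b := 0.000412) hβ hκ hβκ (by norm_num) (by norm_num) g8 (by norm_num) k8
      (en (by norm_num) (by norm_num)) (by norm_num) (by norm_num)
  have L9 : legV β (4.3296 + x * (1.8 + y) - W * PP x y) (0.8) ≤ sg β κ * 0.000067 ∧
      legM β (4.3296 + x * (1.8 + y) - W * PP x y) (0.8) 5.62 ≤ sg β κ * 0.000388 :=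
    leg2 (G := 8) (K := 6.153) (b := 0.000412) hβ hκ hβκ (by norm_num) (by norm_num) (by linarith) (by norm_num) (by linarith)
      (en (by norm_num) (by norm_num)) (by norm_num) (by norm_num)
  have L2 : Real.exp (-(0.7 + 0.8 * x + 3.14 * y) / β) ≤ sg β κ * 0.000412 :=
    exp2 (G := 8) hβ hκ hβκ (by norm_num) (by linarith) (en (by norm_num) (by norm_num))
  have hbA : Real.exp (-(0.32 * 8.122)) ≤ 0.074352 := en (by norm_num) (by norm_num)
  have hE : 1.2465 * (3 * 0.646 * 0.0437 / 8.122 + 7.5 * (0.646 * 0.1765) ^ 2 / (0.8338 ^ 3 * 0.913 * 8.122) +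
      2.5 / 2.5066 * (Real.exp (-(0.32 * 8.122)) / 2.849)) +
      1.593 * (0.024539 + 0.776 * 0.000412 + 0.000179 + 0.067571 + (0.00105 + 0.000067 + 0.000904 + 0.000108 + 0.000067)) ≤ 0.2248 := by
    have : Real.exp (-(0.32 * 8.122)) / 2.849 ≤ 0.074352 / 2.849 := by gcongr
    norm_num at this ⊢
    linarith
  rw [hW] at L7 L8 L9
  have key := rightMaster (κ := κ) (A := 8.122) (ρ := 0.646) (c0 := 0.8338) (ℓ := 1.2465) (q := 1.593) (sA := 2.849) (sc := 0.913) (t0 := 0.9633)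
    (e := 0.2248) (f := 0.3192) hβ hκ hβκ hx0 hy0
    (by norm_num) (by unfold aR; linarith) (by norm_num) hρ (by norm_num) (by norm_num) (by norm_num) hD (by norm_num) hDR
    (by norm_num) (by norm_num) (by norm_num) (by norm_num) (by norm_num) (by norm_num)
    L1 L2 L3 L4 L5 L6 L7 L8.1 L9 (by norm_num) (by norm_num) hE (by norm_num)
  obtain ⟨r1, r2, r3, r4, r5, r6⟩ := key
  exact ⟨r1, r2, r3, r4, r5.trans (mul_le_mul_of_nonneg_left (by norm_num) (sg_pos hβ hκ).le), r6⟩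

end Sok.B2
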