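import Pool.Agent.Lib.MP_816dec_an.JBG2

/-!
MP_816dec_an (A3, row R1): tables b = 6, real points.
-/

set_option autoImplicit false
set_option maxHeartbeats 4000000

open Complex Set

namespace Sok

private theorem JB6_k1a_b0_0 {β x y : ℝ} (hβ : 0 < β) (hN : β * 16.666 ≤ 1) (hx1 : 0.1935 ≤ x) (hx2 : x ≤ 0.594)
    (hy1 : -0 ≤ y) (hy2 : y ≤ 0.165) : ‖HH β (x + y * I) - 1‖ ≤ 0.045 := by
  refine le_epsJ (C := 0.7482) (N0 := 16.666) (J_boxp 0.1935 0.594 0 0.165 0.165 0.8463 0.6165 1.3077 1.4689 0.4563 4.0825 16.666 0.7285 2.648 1.387 1.1916 0.4231 0.3203 1.0745 3.7546 0.4321 0.751 1.25 2.6457 0.0008666 0.004806 0.0000003101 0.0000003101 0.0007459 0.000003669 0.0000003101 0.0000003101 0.7482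
    hβ hN hx1 hx2 hy1 hy2 (by norm_num) (by norm_num) (by linarith) (by norm_num) (by norm_num) (by norm_num) (by norm_num) (by norm_num) (by norm_num) (by norm_num) (by norm_num) (by norm_num) (by norm_num) (by norm_num) (by norm_num) (by norm_num) (by norm_num) (by norm_num) (by norm_num) (by norm_num) (by norm_num) (by norm_num) (by norm_num) (by norm_num)
    (cube_sqrt_geJ (s := 0.8701) (by norm_num) (by norm_num) (by norm_num) (by norm_num))
    (cube_sqrt_geJ (s := 0.9543) (by norm_num) (by norm_num) (by norm_num) (by norm_num))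
    (by norm_num) (by norm_num) (by norm_num) (by norm_num) (by norm_num) (by norm_num) (by norm_num) (by norm_num) (by norm_num) (by norm_num) (by norm_num) (by norm_num) (by norm_num) (by norm_num) (by norm_num) (by norm_num) (by norm_num) (by norm_num)
    (exp_neg_leJ (r := 0.051) 7 (by norm_num) (by norm_num) (by norm_num) (by norm_num))
    (exp_neg_leJ (r := 0.338) 5 (by norm_num) (by norm_num) (by norm_num) (by norm_num))
    (exp_neg_leJ (r := 0.99) 14 (by norm_num) (by norm_num) (by norm_num) (by norm_num))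
    (exp_neg_leJ (r := 0.99) 14 (by norm_num) (by norm_num) (by norm_num) (by norm_num))
    (exp_neg_leJ (r := 0.201) 7 (by norm_num) (by norm_num) (by norm_num) (by norm_num))
    (exp_neg_leJ (r := 0.516) 12 (by norm_num) (by norm_num) (by norm_num) (by norm_num))
    (exp_neg_leJ (r := 0.99) 14 (by norm_num) (by norm_num) (by norm_num) (by norm_num))
    (exp_neg_leJ (r := 0.99) 14 (by norm_num) (by norm_num) (by norm_num) (by norm_num))
    (by norm_num)) (by norm_num) hN hβ.le (by norm_num)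

private theorem JB6_k1a_b0_1 {β x y : ℝ} (hβ : 0 < β) (hN : β * 16.666 ≤ 1) (hx1 : 0.1134 ≤ x) (hx2 : x ≤ 0.4813)
    (hy1 : -0 ≤ y) (hy2 : y ≤ 0.214) : ‖HH β (x + y * I) - 1‖ ≤ 0.045 := by
  refine le_epsJ (C := 0.7392) (N0 := 16.666) (J_boxp 0.1134 0.4813 0 0.214 0.214 0.7899 0.5268 1.306 1.6279 0.456 4.0825 16.666 0.667 2.412 1.348 1.235 0.3949 0.3071 1.0471 3.8135 0.3882 0.6351 0.8796 2.4985 0.001387 0.005989 0.0000003101 0.0000003101 0.001551 0.00002533 0.0000004305 0.0000003101 0.7392
    hβ hN hx1 hx2 hy1 hy2 (by norm_num) (by norm_num) (by linarith) (by norm_num) (by norm_num) (by norm_num) (by norm_num) (by norm_num) (by norm_num) (by norm_num) (by norm_num) (by norm_num) (by norm_num) (by norm_num) (by norm_num) (by norm_num) (by norm_num) (by norm_num) (by norm_num) (by norm_num) (by norm_num) (by norm_num) (by norm_num) (by norm_num)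
    (cube_sqrt_geJ (s := 0.8818) (by norm_num) (by norm_num) (by norm_num) (by norm_num))
    (cube_sqrt_geJ (s := 0.9582) (by norm_num) (by norm_num) (by norm_num) (by norm_num))
    (by norm_num) (by norm_num) (by norm_num) (by norm_num) (by norm_num) (by norm_num) (by norm_num) (by norm_num) (by norm_num) (by norm_num) (by norm_num) (by norm_num) (by norm_num) (by norm_num) (by norm_num) (by norm_num) (by norm_num) (by norm_num)
    (exp_neg_leJ (r := 0.581) 6 (by norm_num) (by norm_num) (by norm_num) (by norm_num))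
    (exp_neg_leJ (r := 0.118) 5 (by norm_num) (by norm_num) (by norm_num) (by norm_num))
    (exp_neg_leJ (r := 0.99) 14 (by norm_num) (by norm_num) (by norm_num) (by norm_num))
    (exp_neg_leJ (r := 0.99) 14 (by norm_num) (by norm_num) (by norm_num) (by norm_num))
    (exp_neg_leJ (r := 0.469) 6 (by norm_num) (by norm_num) (by norm_num) (by norm_num))
    (exp_neg_leJ (r := 0.584) 10 (by norm_num) (by norm_num) (by norm_num) (by norm_num))
    (exp_neg_leJ (r := 0.659) 14 (by norm_num) (by norm_num) (by norm_num) (by norm_num))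
    (exp_neg_leJ (r := 0.99) 14 (by norm_num) (by norm_num) (by norm_num) (by norm_num))
    (by norm_num)) (by norm_num) hN hβ.le (by norm_num)

theorem JB6_k1a_c0 {κ t β : ℝ} (h : DomR κ t) (hβ : 0 < β) (hk1 : 0.3 ≤ κ) (hk2 : κ ≤ 0.6)
    (ht1 : 0.04 ≤ t + κ) (ht2 : t + κ ≤ 0.62) (hR0 : β * 10 ≤ κ) (hR : β * (4.95 * (1 + κ ^ 2)) ≤ κ) :
    ‖HH β (sg κ t) - 1‖ ≤ 0.045 := by
  have hN : β * 16.666 ≤ 1 := bNR hβ h.1 hk2 hR0 (by norm_num)
  have hy1 : 0.01 ≤ sy κ t := syR_ge h 0.3 0.6 0.04 0.01 1.01005 1.01006 0.01683 0.03367 hk1 hk2 (by linarith) (by norm_num) (by norm_num)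
    (expn_ge (by norm_num) (by norm_num)) (expn_le (by norm_num) (by norm_num) (by norm_num)) (by norm_num)
    (by norm_num) (by norm_num) (by norm_num) (by norm_num) (by norm_num) (by norm_num)
  have hy2 : sy κ t ≤ 0.214 := syR_le h 0.3 0.6 0.62 0.214 1.23862 0.4417 0.44177 0.88356 hk1 hk2 (by linarith) (by norm_num) (by norm_num)
    (expn_ge (by norm_num) (by norm_num)) (by norm_num) (by norm_num) (Or.inr ((mul_le_mul_of_nonneg_left (expn_le (E := 1.23863) (by norm_num) (by norm_num) (by norm_num)) (by norm_num)).trans (by norm_num))) (by norm_num) (by norm_num) (by norm_num)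
  rcases le_total (sy κ t) 0.165 with f0 | g0
  · have hx1 : 0.1935 ≤ sx κ t := sx_lo h 0.3 0.165 0.165 0.84789 0.1935 hk1 (by norm_num) f0 (abs_le.2 ⟨by linarith, by linarith⟩) (expm_ge (by norm_num) (by norm_num) (by norm_num) (by norm_num)) (by norm_num) (by norm_num)
    have hx2 : sx κ t ≤ 0.594 := sx_hi h 0.6 0.01 0.01 0.99005 0.594 hk2 hy1 (by norm_num) (by rw [abs_of_nonneg (by linarith)]; linarith) (expm_le (by norm_num) (by norm_num) (by norm_num)) (by norm_num) (by norm_num)
    exact JB6_k1a_b0_0 hβ hN hx1 hx2 (by linarith) (by linarith)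
  have hx1 : 0.1134 ≤ sx κ t := sx_lo h 0.3 0.214 0.214 0.80734 0.1134 hk1 (by norm_num) hy2 (abs_le.2 ⟨by linarith, by linarith⟩) (expm_ge (by norm_num) (by norm_num) (by norm_num) (by norm_num)) (by norm_num) (by norm_num)
  have hx2 : sx κ t ≤ 0.4813 := sx_hi h 0.6 0.165 0.165 0.8479 0.4813 hk2 g0 (by norm_num) (by rw [abs_of_nonneg (by linarith)]; linarith) (expm_le (by norm_num) (by norm_num) (by norm_num)) (by norm_num) (by norm_num)
  exact JB6_k1a_b0_1 hβ hN hx1 hx2 (by linarith) (by linarith)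

private theorem JB6_k1a_b1_0 {β x y : ℝ} (hβ : 0 < β) (hN : β * 12.345 ≤ 1) (hx1 : 0.5358 ≤ x) (hx2 : x ≤ 0.7962)
    (hy1 : -0 ≤ y) (hy2 : y ≤ 0.097) : ‖HH β (x + y * I) - 1‖ ≤ 0.045 := by
  refine le_epsJ (C := 0.5502) (N0 := 12.345) (J_boxp 0.5358 0.7962 0 0.097 0.097 1.0873 0.8021 1.3555 1.0269 0.4645 3.5136 12.345 0.7377 2.686 1.393 1.1138 0.5436 0.4099 1.1916 3.6421 0.6053 1.2319 2.2262 3.1462 0.00122 0.006346 0.0000004092 0.0000003101 0.0005689 0.0000003101 0.0000003101 0.0000003101 0.5502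
    hβ hN hx1 hx2 hy1 hy2 (by norm_num) (by norm_num) (by linarith) (by norm_num) (by norm_num) (by norm_num) (by norm_num) (by norm_num) (by norm_num) (by norm_num) (by norm_num) (by norm_num) (by norm_num) (by norm_num) (by norm_num) (by norm_num) (by norm_num) (by norm_num) (by norm_num) (by norm_num) (by norm_num) (by norm_num) (by norm_num) (by norm_num)
    (cube_sqrt_geJ (s := 0.8683) (by norm_num) (by norm_num) (by norm_num) (by norm_num))
    (cube_sqrt_geJ (s := 0.9537) (by norm_num) (by norm_num) (by norm_num) (by norm_num))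
    (by norm_num) (by norm_num) (by norm_num) (by norm_num) (by norm_num) (by norm_num) (by norm_num) (by norm_num) (by norm_num) (by norm_num) (by norm_num) (by norm_num) (by norm_num) (by norm_num) (by norm_num) (by norm_num) (by norm_num) (by norm_num)
    (exp_neg_leJ (r := 0.71) 6 (by norm_num) (by norm_num) (by norm_num) (by norm_num))
    (exp_neg_leJ (r := 0.06) 5 (by norm_num) (by norm_num) (by norm_num) (by norm_num))
    (exp_neg_leJ (r := 0.71) 14 (by norm_num) (by norm_num) (by norm_num) (by norm_num))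
    (exp_neg_leJ (r := 0.99) 14 (by norm_num) (by norm_num) (by norm_num) (by norm_num))
    (exp_neg_leJ (r := 0.472) 7 (by norm_num) (by norm_num) (by norm_num) (by norm_num))
    (exp_neg_leJ (r := 0.99) 14 (by norm_num) (by norm_num) (by norm_num) (by norm_num))
    (exp_neg_leJ (r := 0.99) 14 (by norm_num) (by norm_num) (by norm_num) (by norm_num))
    (exp_neg_leJ (r := 0.99) 14 (by norm_num) (by norm_num) (by norm_num) (by norm_num))
    (by norm_num)) (by norm_num) hN hβ.le (by norm_num)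

private theorem JB6_k1a_b1_1 {β x y : ℝ} (hβ : 0 < β) (hN : β * 12.345 ≤ 1) (hx1 : 0.4838 ≤ x) (hx2 : x ≤ 0.7287)
    (hy1 : -0 ≤ y) (hy2 : y ≤ 0.162) : ‖HH β (x + y * I) - 1‖ ≤ 0.045 := by
  refine le_epsJ (C := 0.5547) (N0 := 12.345) (J_boxp 0.4838 0.7287 0 0.162 0.162 1.0507 0.7465 1.3716 1.0875 0.4673 3.5136 12.345 0.7105 2.576 1.376 1.1398 0.5253 0.4009 1.1738 3.6779 0.5734 1.1533 1.8434 2.8871 0.001528 0.007112 0.0000005096 0.0000003101 0.0008435 0.0000006561 0.0000003101 0.0000003101 0.5547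
    hβ hN hx1 hx2 hy1 hy2 (by norm_num) (by norm_num) (by linarith) (by norm_num) (by norm_num) (by norm_num) (by norm_num) (by norm_num) (by norm_num) (by norm_num) (by norm_num) (by norm_num) (by norm_num) (by norm_num) (by norm_num) (by norm_num) (by norm_num) (by norm_num) (by norm_num) (by norm_num) (by norm_num) (by norm_num) (by norm_num) (by norm_num)
    (cube_sqrt_geJ (s := 0.8735) (by norm_num) (by norm_num) (by norm_num) (by norm_num))
    (cube_sqrt_geJ (s := 0.9555) (by norm_num) (by norm_num) (by norm_num) (by norm_num))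
    (by norm_num) (by norm_num) (by norm_num) (by norm_num) (by norm_num) (by norm_num) (by norm_num) (by norm_num) (by norm_num) (by norm_num) (by norm_num) (by norm_num) (by norm_num) (by norm_num) (by norm_num) (by norm_num) (by norm_num) (by norm_num)
    (exp_neg_leJ (r := 0.484) 6 (by norm_num) (by norm_num) (by norm_num) (by norm_num))
    (exp_neg_leJ (r := 0.949) 4 (by norm_num) (by norm_num) (by norm_num) (by norm_num))
    (exp_neg_leJ (r := 0.49) 14 (by norm_num) (by norm_num) (by norm_num) (by norm_num))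
    (exp_neg_leJ (r := 0.99) 14 (by norm_num) (by norm_num) (by norm_num) (by norm_num))
    (exp_neg_leJ (r := 0.078) 7 (by norm_num) (by norm_num) (by norm_num) (by norm_num))
    (exp_neg_leJ (r := 0.237) 14 (by norm_num) (by norm_num) (by norm_num) (by norm_num))
    (exp_neg_leJ (r := 0.99) 14 (by norm_num) (by norm_num) (by norm_num) (by norm_num))
    (exp_neg_leJ (r := 0.99) 14 (by norm_num) (by norm_num) (by norm_num) (by norm_num))
    (by norm_num)) (by norm_num) hN hβ.le (by norm_num)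

private theorem JB6_k1a_b1_2 {β x y : ℝ} (hβ : 0 < β) (hN : β * 12.345 ≤ 1) (hx1 : 0.4467 ≤ x) (hx2 : x ≤ 0.6696)
    (hy1 : -0 ≤ y) (hy2 : y ≤ 0.202) : ‖HH β (x + y * I) - 1‖ ≤ 0.045 := by
  refine le_epsJ (C := 0.5458) (N0 := 12.345) (J_boxp 0.4467 0.6696 0 0.202 0.202 1.0245 0.6995 1.376 1.1313 0.468 3.5136 12.345 0.6828 2.47 1.358 1.1625 0.5122 0.3956 1.1611 3.7088 0.5513 1.0979 1.5977 2.7522 0.001795 0.007591 0.0000005961 0.0000003101 0.00111 0.000001301 0.0000003101 0.0000003101 0.5458
    hβ hN hx1 hx2 hy1 hy2 (by norm_num) (by norm_num) (by linarith) (by norm_num) (by norm_num) (by norm_num) (by norm_num) (by norm_num) (by norm_num) (by norm_num) (by norm_num) (by norm_num) (by norm_num) (by norm_num) (by norm_num) (by norm_num) (by norm_num) (by norm_num) (by norm_num) (by norm_num) (by norm_num) (by norm_num) (by norm_num) (by norm_num)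
    (cube_sqrt_geJ (s := 0.8788) (by norm_num) (by norm_num) (by norm_num) (by norm_num))
    (cube_sqrt_geJ (s := 0.9572) (by norm_num) (by norm_num) (by norm_num) (by norm_num))
    (by norm_num) (by norm_num) (by norm_num) (by norm_num) (by norm_num) (by norm_num) (by norm_num) (by norm_num) (by norm_num) (by norm_num) (by norm_num) (by norm_num) (by norm_num) (by norm_num) (by norm_num) (by norm_num) (by norm_num) (by norm_num)
    (exp_neg_leJ (r := 0.323) 6 (by norm_num) (by norm_num) (by norm_num) (by norm_num))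
    (exp_neg_leJ (r := 0.883) 4 (by norm_num) (by norm_num) (by norm_num) (by norm_num))
    (exp_neg_leJ (r := 0.333) 14 (by norm_num) (by norm_num) (by norm_num) (by norm_num))
    (exp_neg_leJ (r := 0.99) 14 (by norm_num) (by norm_num) (by norm_num) (by norm_num))
    (exp_neg_leJ (r := 0.805) 6 (by norm_num) (by norm_num) (by norm_num) (by norm_num))
    (exp_neg_leJ (r := 0.553) 13 (by norm_num) (by norm_num) (by norm_num) (by norm_num))
    (exp_neg_leJ (r := 0.99) 14 (by norm_num) (by norm_num) (by norm_num) (by norm_num))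
    (exp_neg_leJ (r := 0.99) 14 (by norm_num) (by norm_num) (by norm_num) (by norm_num))
    (by norm_num)) (by norm_num) hN hβ.le (by norm_num)

private theorem JB6_k1a_b1_3 {β x y : ℝ} (hβ : 0 < β) (hN : β * 12.345 ≤ 1) (hx1 : 0.4208 ≤ x) (hx2 : x ≤ 0.6303)
    (hy1 : -0 ≤ y) (hy2 : y ≤ 0.227) : ‖HH β (x + y * I) - 1‖ ≤ 0.045 := by
  refine le_epsJ (C := 0.5449) (N0 := 12.345) (J_boxp 0.4208 0.6303 0 0.227 0.227 1.0063 0.67 1.3795 1.1636 0.4686 3.5136 12.345 0.6659 2.408 1.347 1.1776 0.5031 0.3914 1.1523 3.7289 0.5362 1.0594 1.4386 2.6627 0.00201 0.007992 0.000000664 0.0000003101 0.001336 0.000002091 0.0000003101 0.0000003101 0.5449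
    hβ hN hx1 hx2 hy1 hy2 (by norm_num) (by norm_num) (by linarith) (by norm_num) (by norm_num) (by norm_num) (by norm_num) (by norm_num) (by norm_num) (by norm_num) (by norm_num) (by norm_num) (by norm_num) (by norm_num) (by norm_num) (by norm_num) (by norm_num) (by norm_num) (by norm_num) (by norm_num) (by norm_num) (by norm_num) (by norm_num) (by norm_num)
    (cube_sqrt_geJ (s := 0.882) (by norm_num) (by norm_num) (by norm_num) (by norm_num))
    (cube_sqrt_geJ (s := 0.9583) (by norm_num) (by norm_num) (by norm_num) (by norm_num))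
    (by norm_num) (by norm_num) (by norm_num) (by norm_num) (by norm_num) (by norm_num) (by norm_num) (by norm_num) (by norm_num) (by norm_num) (by norm_num) (by norm_num) (by norm_num) (by norm_num) (by norm_num) (by norm_num) (by norm_num) (by norm_num)
    (exp_neg_leJ (r := 0.21) 6 (by norm_num) (by norm_num) (by norm_num) (by norm_num))
    (exp_neg_leJ (r := 0.831) 4 (by norm_num) (by norm_num) (by norm_num) (by norm_num))
    (exp_neg_leJ (r := 0.225) 14 (by norm_num) (by norm_num) (by norm_num) (by norm_num))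
    (exp_neg_leJ (r := 0.99) 14 (by norm_num) (by norm_num) (by norm_num) (by norm_num))
    (exp_neg_leJ (r := 0.619) 6 (by norm_num) (by norm_num) (by norm_num) (by norm_num))
    (exp_neg_leJ (r := 0.078) 13 (by norm_num) (by norm_num) (by norm_num) (by norm_num))
    (exp_neg_leJ (r := 0.99) 14 (by norm_num) (by norm_num) (by norm_num) (by norm_num))
    (exp_neg_leJ (r := 0.99) 14 (by norm_num) (by norm_num) (by norm_num) (by norm_num))
    (by norm_num)) (by norm_num) hN hβ.le (by norm_num)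

private theorem JB6_k1a_b1_4 {β x y : ℝ} (hβ : 0 < β) (hN : β * 12.345 ≤ 1) (hx1 : 0.4006 ≤ x) (hx2 : x ≤ 0.6043)
    (hy1 : -0 ≤ y) (hy2 : y ≤ 0.245) : ‖HH β (x + y * I) - 1‖ ≤ 0.045 := by
  refine le_epsJ (C := 0.5525) (N0 := 12.345) (J_boxp 0.4006 0.6043 0 0.245 0.245 0.9921 0.6521 1.384 1.1906 0.4694 3.5136 12.345 0.6573 2.377 1.342 1.1876 0.496 0.3873 1.1454 3.7418 0.5246 1.0296 1.321 2.5862 0.002192 0.008399 0.0000007237 0.0000003101 0.001541 0.000003024 0.0000003101 0.0000003101 0.5525
    hβ hN hx1 hx2 hy1 hy2 (by norm_num) (by norm_num) (by linarith) (by norm_num) (by norm_num) (by norm_num) (by norm_num) (by norm_num) (by norm_num) (by norm_num) (by norm_num) (by norm_num) (by norm_num) (by norm_num) (by norm_num) (by norm_num) (by norm_num) (by norm_num) (by norm_num) (by norm_num) (by norm_num) (by norm_num) (by norm_num) (by norm_num)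
    (cube_sqrt_geJ (s := 0.8836) (by norm_num) (by norm_num) (by norm_num) (by norm_num))
    (cube_sqrt_geJ (s := 0.9589) (by norm_num) (by norm_num) (by norm_num) (by norm_num))
    (by norm_num) (by norm_num) (by norm_num) (by norm_num) (by norm_num) (by norm_num) (by norm_num) (by norm_num) (by norm_num) (by norm_num) (by norm_num) (by norm_num) (by norm_num) (by norm_num) (by norm_num) (by norm_num) (by norm_num) (by norm_num)
    (exp_neg_leJ (r := 0.123) 6 (by norm_num) (by norm_num) (by norm_num) (by norm_num))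
    (exp_neg_leJ (r := 0.781) 4 (by norm_num) (by norm_num) (by norm_num) (by norm_num))
    (exp_neg_leJ (r := 0.139) 14 (by norm_num) (by norm_num) (by norm_num) (by norm_num))
    (exp_neg_leJ (r := 0.99) 14 (by norm_num) (by norm_num) (by norm_num) (by norm_num))
    (exp_neg_leJ (r := 0.476) 6 (by norm_num) (by norm_num) (by norm_num) (by norm_num))
    (exp_neg_leJ (r := 0.71) 12 (by norm_num) (by norm_num) (by norm_num) (by norm_num))
    (exp_neg_leJ (r := 0.99) 14 (by norm_num) (by norm_num) (by norm_num) (by norm_num))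
    (exp_neg_leJ (r := 0.99) 14 (by norm_num) (by norm_num) (by norm_num) (by norm_num))
    (by norm_num)) (by norm_num) hN hβ.le (by norm_num)

theorem JB6_k1a_c1 {κ t β : ℝ} (h : DomR κ t) (hβ : 0 < β) (hk1 : 0.6 ≤ κ) (hk2 : κ ≤ 0.81)
    (ht1 : 0.04 ≤ t + κ) (ht2 : t + κ ≤ 0.62) (hR0 : β * 10 ≤ κ) (hR : β * (4.95 * (1 + κ ^ 2)) ≤ κ) :
    ‖HH β (sg κ t) - 1‖ ≤ 0.045 := by
  have hN : β * 12.345 ≤ 1 := bNR hβ h.1 hk2 hR0 (by norm_num)
  have hy1 : 0.017 ≤ sy κ t := syR_ge h 0.6 0.81 0.04 0.017 1.01714 1.01715 0.02134 0.02882 hk1 hk2 (by linarith) (by norm_num) (by norm_num)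
    (expn_ge (by norm_num) (by norm_num)) (expn_le (by norm_num) (by norm_num) (by norm_num)) (by norm_num)
    (by norm_num) (by norm_num) (by norm_num) (by norm_num) (by norm_num) (by norm_num)
  have hy2 : sy κ t ≤ 0.245 := syR_le h 0.6 0.81 0.62 0.245 1.27762 0.3751 0.38644 0.5217 hk1 hk2 (by linarith) (by norm_num) (by norm_num)
    (expn_ge (by norm_num) (by norm_num)) (by norm_num) (by norm_num) (Or.inr ((mul_le_mul_of_nonneg_left (expn_le (E := 1.27763) (by norm_num) (by norm_num) (by norm_num)) (by norm_num)).trans (by norm_num))) (by norm_num) (by norm_num) (by norm_num)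
  rcases le_total (sy κ t) 0.097 with f0 | g0
  · have hx1 : 0.5358 ≤ sx κ t := sx_lo h 0.6 0.097 0.097 0.90755 0.5358 hk1 (by norm_num) f0 (abs_le.2 ⟨by linarith, by linarith⟩) (expm_ge (by norm_num) (by norm_num) (by norm_num) (by norm_num)) (by norm_num) (by norm_num)
    have hx2 : sx κ t ≤ 0.7962 := sx_hi h 0.81 0.017 0.017 0.98315 0.7962 hk2 hy1 (by norm_num) (by rw [abs_of_nonneg (by linarith)]; linarith) (expm_le (by norm_num) (by norm_num) (by norm_num)) (by norm_num) (by norm_num)
    exact JB6_k1a_b1_0 hβ hN hx1 hx2 (by linarith) (by linarith)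
  rcases le_total (sy κ t) 0.162 with f1 | g1
  · have hx1 : 0.4838 ≤ sx κ t := sx_lo h 0.6 0.162 0.162 0.85044 0.4838 hk1 (by norm_num) f1 (abs_le.2 ⟨by linarith, by linarith⟩) (expm_ge (by norm_num) (by norm_num) (by norm_num) (by norm_num)) (by norm_num) (by norm_num)
    have hx2 : sx κ t ≤ 0.7287 := sx_hi h 0.81 0.097 0.097 0.90756 0.7287 hk2 g0 (by norm_num) (by rw [abs_of_nonneg (by linarith)]; linarith) (expm_le (by norm_num) (by norm_num) (by norm_num)) (by norm_num) (by norm_num)
    exact JB6_k1a_b1_1 hβ hN hx1 hx2 (by linarith) (by linarith)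
  rcases le_total (sy κ t) 0.202 with f2 | g2
  · have hx1 : 0.4467 ≤ sx κ t := sx_lo h 0.6 0.202 0.202 0.81709 0.4467 hk1 (by norm_num) f2 (abs_le.2 ⟨by linarith, by linarith⟩) (expm_ge (by norm_num) (by norm_num) (by norm_num) (by norm_num)) (by norm_num) (by norm_num)
    have hx2 : sx κ t ≤ 0.6696 := sx_hi h 0.81 0.162 0.162 0.85045 0.6696 hk2 g1 (by norm_num) (by rw [abs_of_nonneg (by linarith)]; linarith) (expm_le (by norm_num) (by norm_num) (by norm_num)) (by norm_num) (by norm_num)
    exact JB6_k1a_b1_2 hβ hN hx1 hx2 (by linarith) (by linarith)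
  rcases le_total (sy κ t) 0.227 with f3 | g3
  · have hx1 : 0.4208 ≤ sx κ t := sx_lo h 0.6 0.227 0.227 0.79692 0.4208 hk1 (by norm_num) f3 (abs_le.2 ⟨by linarith, by linarith⟩) (expm_ge (by norm_num) (by norm_num) (by norm_num) (by norm_num)) (by norm_num) (by norm_num)
    have hx2 : sx κ t ≤ 0.6303 := sx_hi h 0.81 0.202 0.202 0.8171 0.6303 hk2 g2 (by norm_num) (by rw [abs_of_nonneg (by linarith)]; linarith) (expm_le (by norm_num) (by norm_num) (by norm_num)) (by norm_num) (by norm_num)
    exact JB6_k1a_b1_3 hβ hN hx1 hx2 (by linarith) (by linarith)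
  have hx1 : 0.4006 ≤ sx κ t := sx_lo h 0.6 0.245 0.245 0.7827 0.4006 hk1 (by norm_num) hy2 (abs_le.2 ⟨by linarith, by linarith⟩) (expm_ge (by norm_num) (by norm_num) (by norm_num) (by norm_num)) (by norm_num) (by norm_num)
  have hx2 : sx κ t ≤ 0.6043 := sx_hi h 0.81 0.227 0.227 0.79693 0.6043 hk2 g3 (by norm_num) (by rw [abs_of_nonneg (by linarith)]; linarith) (expm_le (by norm_num) (by norm_num) (by norm_num)) (by norm_num) (by norm_num)
  exact JB6_k1a_b1_4 hβ hN hx1 hx2 (by linarith) (by linarith)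

private theorem JB6_k1a_b2_0 {β x y : ℝ} (hβ : 0 < β) (hN : β * 10.869 ≤ 1) (hx1 : 0.7269 ≤ x) (hx2 : x ≤ 0.9025)
    (hy1 : -0 ≤ y) (hy2 : y ≤ 0.099) : ‖HH β (x + y * I) - 1‖ ≤ 0.045 := by
  refine le_epsJ (C := 0.4839) (N0 := 10.869) (J_boxp 0.7269 0.9025 0 0.099 0.099 1.2218 0.908 1.4221 0.8831 0.4758 3.2969 10.869 0.7432 2.709 1.397 1.073 0.6108 0.4595 1.2571 3.5808 0.6979 1.4963 2.5998 3.2311 0.001311 0.00683 0.000001166 0.0000003101 0.0005082 0.0000003101 0.0000003101 0.0000003101 0.4839
    hβ hN hx1 hx2 hy1 hy2 (by norm_num) (by norm_num) (by linarith) (by norm_num) (by norm_num) (by norm_num) (by norm_num) (by norm_num) (by norm_num) (by norm_num) (by norm_num) (by norm_num) (by norm_num) (by norm_num) (by norm_num) (by norm_num) (by norm_num) (by norm_num) (by norm_num) (by norm_num) (by norm_num) (by norm_num) (by norm_num) (by norm_num)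
    (cube_sqrt_geJ (s := 0.8673) (by norm_num) (by norm_num) (by norm_num) (by norm_num))
    (cube_sqrt_geJ (s := 0.9534) (by norm_num) (by norm_num) (by norm_num) (by norm_num))
    (by norm_num) (by norm_num) (by norm_num) (by norm_num) (by norm_num) (by norm_num) (by norm_num) (by norm_num) (by norm_num) (by norm_num) (by norm_num) (by norm_num) (by norm_num) (by norm_num) (by norm_num) (by norm_num) (by norm_num) (by norm_num)
    (exp_neg_leJ (r := 0.638) 6 (by norm_num) (by norm_num) (by norm_num) (by norm_num))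
    (exp_neg_leJ (r := 0.99) 4 (by norm_num) (by norm_num) (by norm_num) (by norm_num))
    (exp_neg_leJ (r := 0.663) 13 (by norm_num) (by norm_num) (by norm_num) (by norm_num))
    (exp_neg_leJ (r := 0.99) 14 (by norm_num) (by norm_num) (by norm_num) (by norm_num))
    (exp_neg_leJ (r := 0.585) 7 (by norm_num) (by norm_num) (by norm_num) (by norm_num))
    (exp_neg_leJ (r := 0.99) 14 (by norm_num) (by norm_num) (by norm_num) (by norm_num))
    (exp_neg_leJ (r := 0.99) 14 (by norm_num) (by norm_num) (by norm_num) (by norm_num))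
    (exp_neg_leJ (r := 0.99) 14 (by norm_num) (by norm_num) (by norm_num) (by norm_num))
    (by norm_num)) (by norm_num) hN hβ.le (by norm_num)

private theorem JB6_k1a_b2_1 {β x y : ℝ} (hβ : 0 < β) (hN : β * 10.869 ≤ 1) (hx1 : 0.6676 ≤ x) (hx2 : x ≤ 0.8274)
    (hy1 : -0 ≤ y) (hy2 : y ≤ 0.164) : ‖HH β (x + y * I) - 1‖ ≤ 0.045 := by
  refine le_epsJ (C := 0.4838) (N0 := 10.869) (J_boxp 0.6676 0.8274 0 0.164 0.164 1.1801 0.8435 1.4282 0.9323 0.4768 3.2969 10.869 0.7148 2.593 1.378 1.1018 0.59 0.4494 1.2368 3.6213 0.6625 1.4076 2.2025 2.9816 0.001642 0.007584 0.000001453 0.0000003101 0.0007466 0.0000003101 0.0000003101 0.0000003101 0.4838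
    hβ hN hx1 hx2 hy1 hy2 (by norm_num) (by norm_num) (by linarith) (by norm_num) (by norm_num) (by norm_num) (by norm_num) (by norm_num) (by norm_num) (by norm_num) (by norm_num) (by norm_num) (by norm_num) (by norm_num) (by norm_num) (by norm_num) (by norm_num) (by norm_num) (by norm_num) (by norm_num) (by norm_num) (by norm_num) (by norm_num) (by norm_num)
    (cube_sqrt_geJ (s := 0.8727) (by norm_num) (by norm_num) (by norm_num) (by norm_num))
    (cube_sqrt_geJ (s := 0.9552) (by norm_num) (by norm_num) (by norm_num) (by norm_num))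
    (by norm_num) (by norm_num) (by norm_num) (by norm_num) (by norm_num) (by norm_num) (by norm_num) (by norm_num) (by norm_num) (by norm_num) (by norm_num) (by norm_num) (by norm_num) (by norm_num) (by norm_num) (by norm_num) (by norm_num) (by norm_num)
    (exp_neg_leJ (r := 0.412) 6 (by norm_num) (by norm_num) (by norm_num) (by norm_num))
    (exp_neg_leJ (r := 0.884) 4 (by norm_num) (by norm_num) (by norm_num) (by norm_num))
    (exp_neg_leJ (r := 0.442) 13 (by norm_num) (by norm_num) (by norm_num) (by norm_num))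
    (exp_neg_leJ (r := 0.99) 14 (by norm_num) (by norm_num) (by norm_num) (by norm_num))
    (exp_neg_leJ (r := 0.2) 7 (by norm_num) (by norm_num) (by norm_num) (by norm_num))
    (exp_neg_leJ (r := 0.99) 14 (by norm_num) (by norm_num) (by norm_num) (by norm_num))
    (exp_neg_leJ (r := 0.99) 14 (by norm_num) (by norm_num) (by norm_num) (by norm_num))
    (exp_neg_leJ (r := 0.99) 14 (by norm_num) (by norm_num) (by norm_num) (by norm_num))
    (by norm_num)) (by norm_num) hN hβ.le (by norm_num)

private theorem JB6_k1a_b2_2 {β x y : ℝ} (hβ : 0 < β) (hN : β * 10.869 ≤ 1) (hx1 : 0.6231 ≤ x) (hx2 : x ≤ 0.7635)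
    (hy1 : -0 ≤ y) (hy2 : y ≤ 0.209) : ‖HH β (x + y * I) - 1‖ ≤ 0.045 := by
  refine le_epsJ (C := 0.48) (N0 := 10.869) (J_boxp 0.6231 0.7635 0 0.209 0.209 1.1488 0.7916 1.4299 0.9712 0.4771 3.2969 10.869 0.6891 2.494 1.362 1.1264 0.5743 0.4424 1.2215 3.655 0.6363 1.3414 1.9204 2.8216 0.001946 0.008177 0.000001716 0.0000003101 0.0009953 0.0000004662 0.0000003101 0.0000003101 0.48
    hβ hN hx1 hx2 hy1 hy2 (by norm_num) (by norm_num) (by linarith) (by norm_num) (by norm_num) (by norm_num) (by norm_num) (by norm_num) (by norm_num) (by norm_num) (by norm_num) (by norm_num) (by norm_num) (by norm_num) (by norm_num) (by norm_num) (by norm_num) (by norm_num) (by norm_num) (by norm_num) (by norm_num) (by norm_num) (by norm_num) (by norm_num)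
    (cube_sqrt_geJ (s := 0.8776) (by norm_num) (by norm_num) (by norm_num) (by norm_num))
    (cube_sqrt_geJ (s := 0.9568) (by norm_num) (by norm_num) (by norm_num) (by norm_num))
    (by norm_num) (by norm_num) (by norm_num) (by norm_num) (by norm_num) (by norm_num) (by norm_num) (by norm_num) (by norm_num) (by norm_num) (by norm_num) (by norm_num) (by norm_num) (by norm_num) (by norm_num) (by norm_num) (by norm_num) (by norm_num)
    (exp_neg_leJ (r := 0.242) 6 (by norm_num) (by norm_num) (by norm_num) (by norm_num))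
    (exp_neg_leJ (r := 0.808) 4 (by norm_num) (by norm_num) (by norm_num) (by norm_num))
    (exp_neg_leJ (r := 0.276) 13 (by norm_num) (by norm_num) (by norm_num) (by norm_num))
    (exp_neg_leJ (r := 0.99) 14 (by norm_num) (by norm_num) (by norm_num) (by norm_num))
    (exp_neg_leJ (r := 0.915) 6 (by norm_num) (by norm_num) (by norm_num) (by norm_num))
    (exp_neg_leJ (r := 0.579) 14 (by norm_num) (by norm_num) (by norm_num) (by norm_num))
    (exp_neg_leJ (r := 0.99) 14 (by norm_num) (by norm_num) (by norm_num) (by norm_num))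
    (exp_neg_leJ (r := 0.99) 14 (by norm_num) (by norm_num) (by norm_num) (by norm_num))
    (by norm_num)) (by norm_num) hN hβ.le (by norm_num)

private theorem JB6_k1a_b2_3 {β x y : ℝ} (hβ : 0 < β) (hN : β * 10.869 ≤ 1) (hx1 : 0.5858 ≤ x) (hx2 : x ≤ 0.7167)
    (hy1 : -0 ≤ y) (hy2 : y ≤ 0.244) : ‖HH β (x + y * I) - 1‖ ≤ 0.045 := by
  refine le_epsJ (C := 0.4888) (N0 := 10.869) (J_boxp 0.5858 0.7167 0 0.244 0.244 1.1225 0.7571 1.4357 1.0076 0.4781 3.2969 10.869 0.6745 2.439 1.353 1.1444 0.5612 0.435 1.2088 3.6788 0.6146 1.2862 1.6957 2.6759 0.002246 0.008853 0.000001969 0.0000003101 0.001257 0.0000008521 0.0000003101 0.0000003101 0.4888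
    hβ hN hx1 hx2 hy1 hy2 (by norm_num) (by norm_num) (by linarith) (by norm_num) (by norm_num) (by norm_num) (by norm_num) (by norm_num) (by norm_num) (by norm_num) (by norm_num) (by norm_num) (by norm_num) (by norm_num) (by norm_num) (by norm_num) (by norm_num) (by norm_num) (by norm_num) (by norm_num) (by norm_num) (by norm_num) (by norm_num) (by norm_num)
    (cube_sqrt_geJ (s := 0.8804) (by norm_num) (by norm_num) (by norm_num) (by norm_num))
    (cube_sqrt_geJ (s := 0.9578) (by norm_num) (by norm_num) (by norm_num) (by norm_num))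
    (by norm_num) (by norm_num) (by norm_num) (by norm_num) (by norm_num) (by norm_num) (by norm_num) (by norm_num) (by norm_num) (by norm_num) (by norm_num) (by norm_num) (by norm_num) (by norm_num) (by norm_num) (by norm_num) (by norm_num) (by norm_num)
    (exp_neg_leJ (r := 0.099) 6 (by norm_num) (by norm_num) (by norm_num) (by norm_num))
    (exp_neg_leJ (r := 0.728) 4 (by norm_num) (by norm_num) (by norm_num) (by norm_num))
    (exp_neg_leJ (r := 0.138) 13 (by norm_num) (by norm_num) (by norm_num) (by norm_num))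
    (exp_neg_leJ (r := 0.99) 14 (by norm_num) (by norm_num) (by norm_num) (by norm_num))
    (exp_neg_leJ (r := 0.68) 6 (by norm_num) (by norm_num) (by norm_num) (by norm_num))
    (exp_neg_leJ (r := 0.979) 13 (by norm_num) (by norm_num) (by norm_num) (by norm_num))
    (exp_neg_leJ (r := 0.99) 14 (by norm_num) (by norm_num) (by norm_num) (by norm_num))
    (exp_neg_leJ (r := 0.99) 14 (by norm_num) (by norm_num) (by norm_num) (by norm_num))
    (by norm_num)) (by norm_num) hN hβ.le (by norm_num)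

private theorem JB6_k1a_b2_4 {β x y : ℝ} (hβ : 0 < β) (hN : β * 10.869 ≤ 1) (hx1 : 0.5724 ≤ x) (hx2 : x ≤ 0.6783)
    (hy1 : -0 ≤ y) (hy2 : y ≤ 0.256) : ‖HH β (x + y * I) - 1‖ ≤ 0.045 := by
  refine le_epsJ (C := 0.4668) (N0 := 10.869) (J_boxp 0.5724 0.6783 0 0.256 0.256 1.1131 0.7251 1.4275 1.0174 0.4767 3.2969 10.869 0.6515 2.357 1.338 1.1592 0.5565 0.4356 1.2042 3.6992 0.6069 1.2664 1.6175 2.6795 0.002363 0.0088 0.00000207 0.0000003101 0.001367 0.000001055 0.0000003101 0.0000003101 0.4668
    hβ hN hx1 hx2 hy1 hy2 (by norm_num) (by norm_num) (by linarith) (by norm_num) (by norm_num) (by norm_num) (by norm_num) (by norm_num) (by norm_num) (by norm_num) (by norm_num) (by norm_num) (by norm_num) (by norm_num) (by norm_num) (by norm_num) (by norm_num) (by norm_num) (by norm_num) (by norm_num) (by norm_num) (by norm_num) (by norm_num) (by norm_num)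
    (cube_sqrt_geJ (s := 0.8847) (by norm_num) (by norm_num) (by norm_num) (by norm_num))
    (cube_sqrt_geJ (s := 0.9592) (by norm_num) (by norm_num) (by norm_num) (by norm_num))
    (by norm_num) (by norm_num) (by norm_num) (by norm_num) (by norm_num) (by norm_num) (by norm_num) (by norm_num) (by norm_num) (by norm_num) (by norm_num) (by norm_num) (by norm_num) (by norm_num) (by norm_num) (by norm_num) (by norm_num) (by norm_num)
    (exp_neg_leJ (r := 0.048) 6 (by norm_num) (by norm_num) (by norm_num) (by norm_num))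
    (exp_neg_leJ (r := 0.734) 4 (by norm_num) (by norm_num) (by norm_num) (by norm_num))
    (exp_neg_leJ (r := 0.088) 13 (by norm_num) (by norm_num) (by norm_num) (by norm_num))
    (exp_neg_leJ (r := 0.99) 14 (by norm_num) (by norm_num) (by norm_num) (by norm_num))
    (exp_neg_leJ (r := 0.596) 6 (by norm_num) (by norm_num) (by norm_num) (by norm_num))
    (exp_neg_leJ (r := 0.764) 13 (by norm_num) (by norm_num) (by norm_num) (by norm_num))
    (exp_neg_leJ (r := 0.99) 14 (by norm_num) (by norm_num) (by norm_num) (by norm_num))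
    (exp_neg_leJ (r := 0.99) 14 (by norm_num) (by norm_num) (by norm_num) (by norm_num))
    (by norm_num)) (by norm_num) hN hβ.le (by norm_num)

theorem JB6_k1a_c2 {κ t β : ℝ} (h : DomR κ t) (hβ : 0 < β) (hk1 : 0.81 ≤ κ) (hk2 : κ ≤ 0.92)
    (ht1 : 0.04 ≤ t + κ) (ht2 : t + κ ≤ 0.62) (hR0 : β * 10 ≤ κ) (hR : β * (4.95 * (1 + κ ^ 2)) ≤ κ) :
    ‖HH β (sg κ t) - 1‖ ≤ 0.045 := by
  have hN : β * 10.869 ≤ 1 := bNR hβ h.1 hk2 hR0 (by norm_num)
  have hy1 : 0.019 ≤ sy κ t := syR_ge h 0.81 0.92 0.04 0.019 1.01918 1.01919 0.02104 0.02391 hk1 hk2 (by linarith) (by norm_num) (by norm_num)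
    (expn_ge (by norm_num) (by norm_num)) (expn_le (by norm_num) (by norm_num) (by norm_num)) (by norm_num)
    (by norm_num) (by norm_num) (by norm_num) (by norm_num) (by norm_num) (by norm_num)
  have hy2 : sy κ t ≤ 0.256 := syR_le h 0.81 0.92 0.62 0.256 1.29175 0.3472 0.35944 0.40826 hk1 hk2 (by linarith) (by norm_num) (by norm_num)
    (expn_ge (by norm_num) (by norm_num)) (by norm_num) (by norm_num) (Or.inr ((mul_le_mul_of_nonneg_left (expn_le (E := 1.29176) (by norm_num) (by norm_num) (by norm_num)) (by norm_num)).trans (by norm_num))) (by norm_num) (by norm_num) (by norm_num)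
  rcases le_total (sy κ t) 0.099 with f0 | g0
  · have hx1 : 0.7269 ≤ sx κ t := sx_lo h 0.81 0.099 0.099 0.90574 0.7269 hk1 (by norm_num) f0 (abs_le.2 ⟨by linarith, by linarith⟩) (expm_ge (by norm_num) (by norm_num) (by norm_num) (by norm_num)) (by norm_num) (by norm_num)
    have hx2 : sx κ t ≤ 0.9025 := sx_hi h 0.92 0.019 0.019 0.98118 0.9025 hk2 hy1 (by norm_num) (by rw [abs_of_nonneg (by linarith)]; linarith) (expm_le (by norm_num) (by norm_num) (by norm_num)) (by norm_num) (by norm_num)
    exact JB6_k1a_b2_0 hβ hN hx1 hx2 (by linarith) (by linarith)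
  rcases le_total (sy κ t) 0.164 with f1 | g1
  · have hx1 : 0.6676 ≤ sx κ t := sx_lo h 0.81 0.164 0.164 0.84874 0.6676 hk1 (by norm_num) f1 (abs_le.2 ⟨by linarith, by linarith⟩) (expm_ge (by norm_num) (by norm_num) (by norm_num) (by norm_num)) (by norm_num) (by norm_num)
    have hx2 : sx κ t ≤ 0.8274 := sx_hi h 0.92 0.099 0.099 0.90575 0.8274 hk2 g0 (by norm_num) (by rw [abs_of_nonneg (by linarith)]; linarith) (expm_le (by norm_num) (by norm_num) (by norm_num)) (by norm_num) (by norm_num)
    exact JB6_k1a_b2_1 hβ hN hx1 hx2 (by linarith) (by linarith)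
  rcases le_total (sy κ t) 0.209 with f2 | g2
  · have hx1 : 0.6231 ≤ sx κ t := sx_lo h 0.81 0.209 0.209 0.81139 0.6231 hk1 (by norm_num) f2 (abs_le.2 ⟨by linarith, by linarith⟩) (expm_ge (by norm_num) (by norm_num) (by norm_num) (by norm_num)) (by norm_num) (by norm_num)
    have hx2 : sx κ t ≤ 0.7635 := sx_hi h 0.92 0.164 0.164 0.84875 0.7635 hk2 g1 (by norm_num) (by rw [abs_of_nonneg (by linarith)]; linarith) (expm_le (by norm_num) (by norm_num) (by norm_num)) (by norm_num) (by norm_num)
    exact JB6_k1a_b2_2 hβ hN hx1 hx2 (by linarith) (by linarith)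
  rcases le_total (sy κ t) 0.244 with f3 | g3
  · have hx1 : 0.5858 ≤ sx κ t := sx_lo h 0.81 0.244 0.244 0.78348 0.5858 hk1 (by norm_num) f3 (abs_le.2 ⟨by linarith, by linarith⟩) (expm_ge (by norm_num) (by norm_num) (by norm_num) (by norm_num)) (by norm_num) (by norm_num)
    have hx2 : sx κ t ≤ 0.7167 := sx_hi h 0.92 0.209 0.209 0.8114 0.7167 hk2 g2 (by norm_num) (by rw [abs_of_nonneg (by linarith)]; linarith) (expm_le (by norm_num) (by norm_num) (by norm_num)) (by norm_num) (by norm_num)
    exact JB6_k1a_b2_3 hβ hN hx1 hx2 (by linarith) (by linarith)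
  have hx1 : 0.5724 ≤ sx κ t := sx_lo h 0.81 0.256 0.256 0.77414 0.5724 hk1 (by norm_num) hy2 (abs_le.2 ⟨by linarith, by linarith⟩) (expm_ge (by norm_num) (by norm_num) (by norm_num) (by norm_num)) (by norm_num) (by norm_num)
  have hx2 : sx κ t ≤ 0.6783 := sx_hi h 0.92 0.244 0.244 0.78349 0.6783 hk2 g3 (by norm_num) (by rw [abs_of_nonneg (by linarith)]; linarith) (expm_le (by norm_num) (by norm_num) (by norm_num)) (by norm_num) (by norm_num)
  exact JB6_k1a_b2_4 hβ hN hx1 hx2 (by linarith) (by linarith)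

private theorem JB6_k1a_b3_0 {β x y : ℝ} (hβ : 0 < β) (hN : β * 10.204 ≤ 1) (hx1 : 0.8273 ≤ x) (hx2 : x ≤ 0.9614)
    (hy1 : -0 ≤ y) (hy2 : y ≤ 0.099) : ‖HH β (x + y * I) - 1‖ ≤ 0.045 := by
  refine le_epsJ (C := 0.458) (N0 := 10.204) (J_boxp 0.8273 0.9614 0 0.099 0.099 1.2925 0.9665 1.4602 0.8224 0.4821 3.1944 10.204 0.7478 2.728 1.4 1.0503 0.6462 0.4851 1.2914 3.5468 0.7467 1.6353 2.8006 3.2729 0.001371 0.007112 0.000001894 0.0000003101 0.0004913 0.0000003101 0.0000003101 0.0000003101 0.458
    hβ hN hx1 hx2 hy1 hy2 (by norm_num) (by norm_num) (by linarith) (by norm_num) (by norm_num) (by norm_num) (by norm_num) (by norm_num) (by norm_num) (by norm_num) (by norm_num) (by norm_num) (by norm_num) (by norm_num) (by norm_num) (by norm_num) (by norm_num) (by norm_num) (by norm_num) (by norm_num) (by norm_num) (by norm_num) (by norm_num) (by norm_num)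
    (cube_sqrt_geJ (s := 0.8664) (by norm_num) (by norm_num) (by norm_num) (by norm_num))
    (cube_sqrt_geJ (s := 0.9531) (by norm_num) (by norm_num) (by norm_num) (by norm_num))
    (by norm_num) (by norm_num) (by norm_num) (by norm_num) (by norm_num) (by norm_num) (by norm_num) (by norm_num) (by norm_num) (by norm_num) (by norm_num) (by norm_num) (by norm_num) (by norm_num) (by norm_num) (by norm_num) (by norm_num) (by norm_num)
    (exp_neg_leJ (r := 0.593) 6 (by norm_num) (by norm_num) (by norm_num) (by norm_num))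
    (exp_neg_leJ (r := 0.949) 4 (by norm_num) (by norm_num) (by norm_num) (by norm_num))
    (exp_neg_leJ (r := 0.177) 13 (by norm_num) (by norm_num) (by norm_num) (by norm_num))
    (exp_neg_leJ (r := 0.99) 14 (by norm_num) (by norm_num) (by norm_num) (by norm_num))
    (exp_neg_leJ (r := 0.619) 7 (by norm_num) (by norm_num) (by norm_num) (by norm_num))
    (exp_neg_leJ (r := 0.99) 14 (by norm_num) (by norm_num) (by norm_num) (by norm_num))
    (exp_neg_leJ (r := 0.99) 14 (by norm_num) (by norm_num) (by norm_num) (by norm_num))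
    (exp_neg_leJ (r := 0.99) 14 (by norm_num) (by norm_num) (by norm_num) (by norm_num))
    (by norm_num)) (by norm_num) hN hβ.le (by norm_num)

private theorem JB6_k1a_b3_1 {β x y : ℝ} (hβ : 0 < β) (hN : β * 10.204 ≤ 1) (hx1 : 0.7634 ≤ x) (hx2 : x ≤ 0.8821)
    (hy1 : -0 ≤ y) (hy2 : y ≤ 0.164) : ‖HH β (x + y * I) - 1‖ ≤ 0.045 := by
  refine le_epsJ (C := 0.4579) (N0 := 10.204) (J_boxp 0.7634 0.8821 0 0.164 0.164 1.2476 0.8973 1.4605 0.8673 0.4822 3.1944 10.204 0.7193 2.611 1.381 1.0808 0.6237 0.4742 1.2696 3.59 0.709 1.5402 2.3941 3.0269 0.001723 0.007937 0.000002374 0.0000003101 0.0007217 0.0000003101 0.0000003101 0.0000003101 0.4579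
    hβ hN hx1 hx2 hy1 hy2 (by norm_num) (by norm_num) (by linarith) (by norm_num) (by norm_num) (by norm_num) (by norm_num) (by norm_num) (by norm_num) (by norm_num) (by norm_num) (by norm_num) (by norm_num) (by norm_num) (by norm_num) (by norm_num) (by norm_num) (by norm_num) (by norm_num) (by norm_num) (by norm_num) (by norm_num) (by norm_num) (by norm_num)
    (cube_sqrt_geJ (s := 0.8719) (by norm_num) (by norm_num) (by norm_num) (by norm_num))
    (cube_sqrt_geJ (s := 0.9549) (by norm_num) (by norm_num) (by norm_num) (by norm_num))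
    (by norm_num) (by norm_num) (by norm_num) (by norm_num) (by norm_num) (by norm_num) (by norm_num) (by norm_num) (by norm_num) (by norm_num) (by norm_num) (by norm_num) (by norm_num) (by norm_num) (by norm_num) (by norm_num) (by norm_num) (by norm_num)
    (exp_neg_leJ (r := 0.364) 6 (by norm_num) (by norm_num) (by norm_num) (by norm_num))
    (exp_neg_leJ (r := 0.838) 4 (by norm_num) (by norm_num) (by norm_num) (by norm_num))
    (exp_neg_leJ (r := 0.954) 12 (by norm_num) (by norm_num) (by norm_num) (by norm_num))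
    (exp_neg_leJ (r := 0.99) 14 (by norm_num) (by norm_num) (by norm_num) (by norm_num))
    (exp_neg_leJ (r := 0.234) 7 (by norm_num) (by norm_num) (by norm_num) (by norm_num))
    (exp_neg_leJ (r := 0.99) 14 (by norm_num) (by norm_num) (by norm_num) (by norm_num))
    (exp_neg_leJ (r := 0.99) 14 (by norm_num) (by norm_num) (by norm_num) (by norm_num))
    (exp_neg_leJ (r := 0.99) 14 (by norm_num) (by norm_num) (by norm_num) (by norm_num))
    (by norm_num)) (by norm_num) hN hβ.le (by norm_num)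

private theorem JB6_k1a_b3_2 {β x y : ℝ} (hβ : 0 < β) (hN : β * 10.204 ≤ 1) (hx1 : 0.7166 ≤ x) (hx2 : x ≤ 0.8155)
    (hy1 : -0 ≤ y) (hy2 : y ≤ 0.209) : ‖HH β (x + y * I) - 1‖ ≤ 0.045 := by
  refine le_epsJ (C := 0.4531) (N0 := 10.204) (J_boxp 0.7166 0.8155 0 0.209 0.209 1.2146 0.8419 1.4584 0.9022 0.4818 3.1944 10.204 0.6932 2.509 1.365 1.1064 0.6072 0.4669 1.2535 3.6254 0.6817 1.4708 2.1074 2.8719 0.00204 0.008542 0.000002793 0.0000003101 0.0009559 0.0000003101 0.0000003101 0.0000003101 0.4531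
    hβ hN hx1 hx2 hy1 hy2 (by norm_num) (by norm_num) (by linarith) (by norm_num) (by norm_num) (by norm_num) (by norm_num) (by norm_num) (by norm_num) (by norm_num) (by norm_num) (by norm_num) (by norm_num) (by norm_num) (by norm_num) (by norm_num) (by norm_num) (by norm_num) (by norm_num) (by norm_num) (by norm_num) (by norm_num) (by norm_num) (by norm_num)
    (cube_sqrt_geJ (s := 0.8768) (by norm_num) (by norm_num) (by norm_num) (by norm_num))
    (cube_sqrt_geJ (s := 0.9566) (by norm_num) (by norm_num) (by norm_num) (by norm_num))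
    (by norm_num) (by norm_num) (by norm_num) (by norm_num) (by norm_num) (by norm_num) (by norm_num) (by norm_num) (by norm_num) (by norm_num) (by norm_num) (by norm_num) (by norm_num) (by norm_num) (by norm_num) (by norm_num) (by norm_num) (by norm_num)
    (exp_neg_leJ (r := 0.195) 6 (by norm_num) (by norm_num) (by norm_num) (by norm_num))
    (exp_neg_leJ (r := 0.764) 4 (by norm_num) (by norm_num) (by norm_num) (by norm_num))
    (exp_neg_leJ (r := 0.79) 12 (by norm_num) (by norm_num) (by norm_num) (by norm_num))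
    (exp_neg_leJ (r := 0.99) 14 (by norm_num) (by norm_num) (by norm_num) (by norm_num))
    (exp_neg_leJ (r := 0.956) 6 (by norm_num) (by norm_num) (by norm_num) (by norm_num))
    (exp_neg_leJ (r := 0.99) 14 (by norm_num) (by norm_num) (by norm_num) (by norm_num))
    (exp_neg_leJ (r := 0.99) 14 (by norm_num) (by norm_num) (by norm_num) (by norm_num))
    (exp_neg_leJ (r := 0.99) 14 (by norm_num) (by norm_num) (by norm_num) (by norm_num))
    (by norm_num)) (by norm_num) hN hβ.le (by norm_num)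

private theorem JB6_k1a_b3_3 {β x y : ℝ} (hβ : 0 < β) (hN : β * 10.204 ≤ 1) (hx1 : 0.6838 ≤ x) (hx2 : x ≤ 0.7673)
    (hy1 : -0 ≤ y) (hy2 : y ≤ 0.239) : ‖HH β (x + y * I) - 1‖ ≤ 0.045 := by
  refine le_epsJ (C := 0.4506) (N0 := 10.204) (J_boxp 0.6838 0.7673 0 0.239 0.239 1.1915 0.8037 1.4574 0.9283 0.4817 3.1944 10.204 0.6746 2.439 1.353 1.125 0.5957 0.4617 1.2423 3.6506 0.6627 1.4224 1.9132 2.7688 0.002293 0.009004 0.000003128 0.0000003101 0.001159 0.0000004975 0.0000003101 0.0000003101 0.4506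
    hβ hN hx1 hx2 hy1 hy2 (by norm_num) (by norm_num) (by linarith) (by norm_num) (by norm_num) (by norm_num) (by norm_num) (by norm_num) (by norm_num) (by norm_num) (by norm_num) (by norm_num) (by norm_num) (by norm_num) (by norm_num) (by norm_num) (by norm_num) (by norm_num) (by norm_num) (by norm_num) (by norm_num) (by norm_num) (by norm_num) (by norm_num)
    (cube_sqrt_geJ (s := 0.8804) (by norm_num) (by norm_num) (by norm_num) (by norm_num))
    (cube_sqrt_geJ (s := 0.9578) (by norm_num) (by norm_num) (by norm_num) (by norm_num))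
    (by norm_num) (by norm_num) (by norm_num) (by norm_num) (by norm_num) (by norm_num) (by norm_num) (by norm_num) (by norm_num) (by norm_num) (by norm_num) (by norm_num) (by norm_num) (by norm_num) (by norm_num) (by norm_num) (by norm_num) (by norm_num)
    (exp_neg_leJ (r := 0.078) 6 (by norm_num) (by norm_num) (by norm_num) (by norm_num))
    (exp_neg_leJ (r := 0.711) 4 (by norm_num) (by norm_num) (by norm_num) (by norm_num))
    (exp_neg_leJ (r := 0.676) 12 (by norm_num) (by norm_num) (by norm_num) (by norm_num))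
    (exp_neg_leJ (r := 0.99) 14 (by norm_num) (by norm_num) (by norm_num) (by norm_num))
    (exp_neg_leJ (r := 0.762) 6 (by norm_num) (by norm_num) (by norm_num) (by norm_num))
    (exp_neg_leJ (r := 0.514) 14 (by norm_num) (by norm_num) (by norm_num) (by norm_num))
    (exp_neg_leJ (r := 0.99) 14 (by norm_num) (by norm_num) (by norm_num) (by norm_num))
    (exp_neg_leJ (r := 0.99) 14 (by norm_num) (by norm_num) (by norm_num) (by norm_num))
    (by norm_num)) (by norm_num) hN hβ.le (by norm_num)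

private theorem JB6_k1a_b3_4 {β x y : ℝ} (hβ : 0 < β) (hN : β * 10.204 ≤ 1) (hx1 : 0.66 ≤ x) (hx2 : x ≤ 0.7338)
    (hy1 : -0 ≤ y) (hy2 : y ≤ 0.26) : ‖HH β (x + y * I) - 1‖ ≤ 0.045 := by
  refine le_epsJ (C := 0.4522) (N0 := 10.204) (J_boxp 0.66 0.7338 0 0.26 0.26 1.1747 0.7786 1.4582 0.9485 0.4818 3.1944 10.204 0.6629 2.397 1.345 1.1378 0.5873 0.4575 1.2342 3.6677 0.649 1.3873 1.7755 2.6904 0.002513 0.009398 0.000003398 0.0000003101 0.001332 0.0000007115 0.0000003101 0.0000003101 0.4522
    hβ hN hx1 hx2 hy1 hy2 (by norm_num) (by norm_num) (by linarith) (by norm_num) (by norm_num) (by norm_num) (by norm_num) (by norm_num) (by norm_num) (by norm_num) (by norm_num) (by norm_num) (by norm_num) (by norm_num) (by norm_num) (by norm_num) (by norm_num) (by norm_num) (by norm_num) (by norm_num) (by norm_num) (by norm_num) (by norm_num) (by norm_num)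
    (cube_sqrt_geJ (s := 0.8826) (by norm_num) (by norm_num) (by norm_num) (by norm_num))
    (cube_sqrt_geJ (s := 0.9585) (by norm_num) (by norm_num) (by norm_num) (by norm_num))
    (by norm_num) (by norm_num) (by norm_num) (by norm_num) (by norm_num) (by norm_num) (by norm_num) (by norm_num) (by norm_num) (by norm_num) (by norm_num) (by norm_num) (by norm_num) (by norm_num) (by norm_num) (by norm_num) (by norm_num) (by norm_num)
    (exp_neg_leJ (r := 0.99) 5 (by norm_num) (by norm_num) (by norm_num) (by norm_num))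
    (exp_neg_leJ (r := 0.668) 4 (by norm_num) (by norm_num) (by norm_num) (by norm_num))
    (exp_neg_leJ (r := 0.593) 12 (by norm_num) (by norm_num) (by norm_num) (by norm_num))
    (exp_neg_leJ (r := 0.99) 14 (by norm_num) (by norm_num) (by norm_num) (by norm_num))
    (exp_neg_leJ (r := 0.622) 6 (by norm_num) (by norm_num) (by norm_num) (by norm_num))
    (exp_neg_leJ (r := 0.156) 14 (by norm_num) (by norm_num) (by norm_num) (by norm_num))
    (exp_neg_leJ (r := 0.99) 14 (by norm_num) (by norm_num) (by norm_num) (by norm_num))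
    (exp_neg_leJ (r := 0.99) 14 (by norm_num) (by norm_num) (by norm_num) (by norm_num))
    (by norm_num)) (by norm_num) hN hβ.le (by norm_num)

theorem JB6_k1a_c3 {κ t β : ℝ} (h : DomR κ t) (hβ : 0 < β) (hk1 : 0.92 ≤ κ) (hk2 : κ ≤ 0.98)
    (ht1 : 0.04 ≤ t + κ) (ht2 : t + κ ≤ 0.62) (hR0 : β * 10 ≤ κ) (hR : β * (4.95 * (1 + κ ^ 2)) ≤ κ) :
    ‖HH β (sg κ t) - 1‖ ≤ 0.045 := by
  have hN : β * 10.204 ≤ 1 := bNR hβ h.1 hk2 hR0 (by norm_num)
  have hy1 : 0.019 ≤ sy κ t := syR_ge h 0.92 0.98 0.04 0.019 1.01918 1.01919 0.01975 0.02105 hk1 hk2 (by linarith) (by norm_num) (by norm_num)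
    (expn_ge (by norm_num) (by norm_num)) (expn_le (by norm_num) (by norm_num) (by norm_num)) (by norm_num)
    (by norm_num) (by norm_num) (by norm_num) (by norm_num) (by norm_num) (by norm_num)
  have hy2 : sy κ t ≤ 0.26 := syR_le h 0.92 0.98 0.62 0.26 1.29693 0.3384 0.34408 0.36653 hk1 hk2 (by linarith) (by norm_num) (by norm_num)
    (expn_ge (by norm_num) (by norm_num)) (by norm_num) (by norm_num) (Or.inr ((mul_le_mul_of_nonneg_left (expn_le (E := 1.29694) (by norm_num) (by norm_num) (by norm_num)) (by norm_num)).trans (by norm_num))) (by norm_num) (by norm_num) (by norm_num)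
  rcases le_total (sy κ t) 0.099 with f0 | g0
  · have hx1 : 0.8273 ≤ sx κ t := sx_lo h 0.92 0.099 0.099 0.90574 0.8273 hk1 (by norm_num) f0 (abs_le.2 ⟨by linarith, by linarith⟩) (expm_ge (by norm_num) (by norm_num) (by norm_num) (by norm_num)) (by norm_num) (by norm_num)
    have hx2 : sx κ t ≤ 0.9614 := sx_hi h 0.98 0.019 0.019 0.98118 0.9614 hk2 hy1 (by norm_num) (by rw [abs_of_nonneg (by linarith)]; linarith) (expm_le (by norm_num) (by norm_num) (by norm_num)) (by norm_num) (by norm_num)
    exact JB6_k1a_b3_0 hβ hN hx1 hx2 (by linarith) (by linarith)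
  rcases le_total (sy κ t) 0.164 with f1 | g1
  · have hx1 : 0.7634 ≤ sx κ t := sx_lo h 0.92 0.164 0.164 0.84874 0.7634 hk1 (by norm_num) f1 (abs_le.2 ⟨by linarith, by linarith⟩) (expm_ge (by norm_num) (by norm_num) (by norm_num) (by norm_num)) (by norm_num) (by norm_num)
    have hx2 : sx κ t ≤ 0.8821 := sx_hi h 0.98 0.099 0.099 0.90575 0.8821 hk2 g0 (by norm_num) (by rw [abs_of_nonneg (by linarith)]; linarith) (expm_le (by norm_num) (by norm_num) (by norm_num)) (by norm_num) (by norm_num)
    exact JB6_k1a_b3_1 hβ hN hx1 hx2 (by linarith) (by linarith)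
  rcases le_total (sy κ t) 0.209 with f2 | g2
  · have hx1 : 0.7166 ≤ sx κ t := sx_lo h 0.92 0.209 0.209 0.81139 0.7166 hk1 (by norm_num) f2 (abs_le.2 ⟨by linarith, by linarith⟩) (expm_ge (by norm_num) (by norm_num) (by norm_num) (by norm_num)) (by norm_num) (by norm_num)
    have hx2 : sx κ t ≤ 0.8155 := sx_hi h 0.98 0.164 0.164 0.84875 0.8155 hk2 g1 (by norm_num) (by rw [abs_of_nonneg (by linarith)]; linarith) (expm_le (by norm_num) (by norm_num) (by norm_num)) (by norm_num) (by norm_num)
    exact JB6_k1a_b3_2 hβ hN hx1 hx2 (by linarith) (by linarith)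
  rcases le_total (sy κ t) 0.239 with f3 | g3
  · have hx1 : 0.6838 ≤ sx κ t := sx_lo h 0.92 0.239 0.239 0.78741 0.6838 hk1 (by norm_num) f3 (abs_le.2 ⟨by linarith, by linarith⟩) (expm_ge (by norm_num) (by norm_num) (by norm_num) (by norm_num)) (by norm_num) (by norm_num)
    have hx2 : sx κ t ≤ 0.7673 := sx_hi h 0.98 0.209 0.209 0.8114 0.7673 hk2 g2 (by norm_num) (by rw [abs_of_nonneg (by linarith)]; linarith) (expm_le (by norm_num) (by norm_num) (by norm_num)) (by norm_num) (by norm_num)
    exact JB6_k1a_b3_3 hβ hN hx1 hx2 (by linarith) (by linarith)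
  have hx1 : 0.66 ≤ sx κ t := sx_lo h 0.92 0.26 0.26 0.77105 0.66 hk1 (by norm_num) hy2 (abs_le.2 ⟨by linarith, by linarith⟩) (expm_ge (by norm_num) (by norm_num) (by norm_num) (by norm_num)) (by norm_num) (by norm_num)
  have hx2 : sx κ t ≤ 0.7338 := sx_hi h 0.98 0.239 0.239 0.78742 0.7338 hk2 g3 (by norm_num) (by rw [abs_of_nonneg (by linarith)]; linarith) (expm_le (by norm_num) (by norm_num) (by norm_num)) (by norm_num) (by norm_num)
  exact JB6_k1a_b3_4 hβ hN hx1 hx2 (by linarith) (by linarith)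

private theorem JB6_k1a_b4_0 {β x y : ℝ} (hβ : 0 < β) (hN : β * 9.999 ≤ 1) (hx1 : 0.8669 ≤ x) (hx2 : x ≤ 0.981)
    (hy1 : -0 ≤ y) (hy2 : y ≤ 0.114) : ‖HH β (x + y * I) - 1‖ ≤ 0.045 := by
  refine le_epsJ (C := 0.4473) (N0 := 9.999) (J_boxp 0.8669 0.981 0 0.114 0.114 1.3204 0.9877 1.4844 0.8031 0.4861 3.1622 9.999 0.7481 2.73 1.4 1.0428 0.6601 0.4955 1.305 3.5351 0.7644 1.6886 2.8155 3.2238 0.001361 0.007077 0.000002155 0.0000003101 0.0004797 0.0000003101 0.0000003101 0.0000003101 0.4473
    hβ hN hx1 hx2 hy1 hy2 (by norm_num) (by norm_num) (by linarith) (by norm_num) (by norm_num) (by norm_num) (by norm_num) (by norm_num) (by norm_num) (by norm_num) (by norm_num) (by norm_num) (by norm_num) (by norm_num) (by norm_num) (by norm_num) (by norm_num) (by norm_num) (by norm_num) (by norm_num) (by norm_num) (by norm_num) (by norm_num) (by norm_num)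
    (cube_sqrt_geJ (s := 0.8663) (by norm_num) (by norm_num) (by norm_num) (by norm_num))
    (cube_sqrt_geJ (s := 0.9531) (by norm_num) (by norm_num) (by norm_num) (by norm_num))
    (by norm_num) (by norm_num) (by norm_num) (by norm_num) (by norm_num) (by norm_num) (by norm_num) (by norm_num) (by norm_num) (by norm_num) (by norm_num) (by norm_num) (by norm_num) (by norm_num) (by norm_num) (by norm_num) (by norm_num) (by norm_num)
    (exp_neg_leJ (r := 0.6) 6 (by norm_num) (by norm_num) (by norm_num) (by norm_num))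
    (exp_neg_leJ (r := 0.954) 4 (by norm_num) (by norm_num) (by norm_num) (by norm_num))
    (exp_neg_leJ (r := 0.048) 13 (by norm_num) (by norm_num) (by norm_num) (by norm_num))
    (exp_neg_leJ (r := 0.99) 14 (by norm_num) (by norm_num) (by norm_num) (by norm_num))
    (exp_neg_leJ (r := 0.643) 7 (by norm_num) (by norm_num) (by norm_num) (by norm_num))
    (exp_neg_leJ (r := 0.99) 14 (by norm_num) (by norm_num) (by norm_num) (by norm_num))
    (exp_neg_leJ (r := 0.99) 14 (by norm_num) (by norm_num) (by norm_num) (by norm_num))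
    (exp_neg_leJ (r := 0.99) 14 (by norm_num) (by norm_num) (by norm_num) (by norm_num))
    (by norm_num)) (by norm_num) hN hβ.le (by norm_num)

private theorem JB6_k1a_b4_1 {β x y : ℝ} (hβ : 0 < β) (hN : β * 9.999 ≤ 1) (hx1 : 0.7889 ≤ x) (hx2 : x ≤ 0.885)
    (hy1 : -0 ≤ y) (hy2 : y ≤ 0.189) : ‖HH β (x + y * I) - 1‖ ≤ 0.045 := by
  refine le_epsJ (C := 0.4485) (N0 := 9.999) (J_boxp 0.7889 0.885 0 0.189 0.189 1.2655 0.905 1.4823 0.8553 0.4858 3.1622 9.999 0.7152 2.595 1.379 1.0797 0.6327 0.4819 1.2783 3.587 0.7189 1.573 2.3378 2.9392 0.00179 0.008096 0.000002818 0.0000003101 0.0007557 0.0000003101 0.0000003101 0.0000003101 0.4485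
    hβ hN hx1 hx2 hy1 hy2 (by norm_num) (by norm_num) (by linarith) (by norm_num) (by norm_num) (by norm_num) (by norm_num) (by norm_num) (by norm_num) (by norm_num) (by norm_num) (by norm_num) (by norm_num) (by norm_num) (by norm_num) (by norm_num) (by norm_num) (by norm_num) (by norm_num) (by norm_num) (by norm_num) (by norm_num) (by norm_num) (by norm_num)
    (cube_sqrt_geJ (s := 0.8726) (by norm_num) (by norm_num) (by norm_num) (by norm_num))
    (cube_sqrt_geJ (s := 0.9552) (by norm_num) (by norm_num) (by norm_num) (by norm_num))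
    (by norm_num) (by norm_num) (by norm_num) (by norm_num) (by norm_num) (by norm_num) (by norm_num) (by norm_num) (by norm_num) (by norm_num) (by norm_num) (by norm_num) (by norm_num) (by norm_num) (by norm_num) (by norm_num) (by norm_num) (by norm_num)
    (exp_neg_leJ (r := 0.326) 6 (by norm_num) (by norm_num) (by norm_num) (by norm_num))
    (exp_neg_leJ (r := 0.818) 4 (by norm_num) (by norm_num) (by norm_num) (by norm_num))
    (exp_neg_leJ (r := 0.781) 12 (by norm_num) (by norm_num) (by norm_num) (by norm_num))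
    (exp_neg_leJ (r := 0.99) 14 (by norm_num) (by norm_num) (by norm_num) (by norm_num))
    (exp_neg_leJ (r := 0.188) 7 (by norm_num) (by norm_num) (by norm_num) (by norm_num))
    (exp_neg_leJ (r := 0.99) 14 (by norm_num) (by norm_num) (by norm_num) (by norm_num))
    (exp_neg_leJ (r := 0.99) 14 (by norm_num) (by norm_num) (by norm_num) (by norm_num))
    (exp_neg_leJ (r := 0.99) 14 (by norm_num) (by norm_num) (by norm_num) (by norm_num))
    (by norm_num)) (by norm_num) hN hβ.le (by norm_num)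

private theorem JB6_k1a_b4_2 {β x y : ℝ} (hβ : 0 < β) (hN : β * 9.999 ≤ 1) (hx1 : 0.7337 ≤ x) (hx2 : x ≤ 0.806)
    (hy1 : -0 ≤ y) (hy2 : y ≤ 0.239) : ‖HH β (x + y * I) - 1‖ ≤ 0.045 := by
  refine le_epsJ (C := 0.4439) (N0 := 9.999) (J_boxp 0.7337 0.806 0 0.239 0.239 1.2266 0.8407 1.4781 0.895 0.4851 3.1622 9.999 0.6854 2.48 1.36 1.1101 0.6132 0.4731 1.2594 3.6287 0.687 1.4915 2.013 2.768 0.002175 0.008835 0.000003401 0.0000003101 0.001042 0.0000003346 0.0000003101 0.0000003101 0.4439
    hβ hN hx1 hx2 hy1 hy2 (by norm_num) (by norm_num) (by linarith) (by norm_num) (by norm_num) (by norm_num) (by norm_num) (by norm_num) (by norm_num) (by norm_num) (by norm_num) (by norm_num) (by norm_num) (by norm_num) (by norm_num) (by norm_num) (by norm_num) (by norm_num) (by norm_num) (by norm_num) (by norm_num) (by norm_num) (by norm_num) (by norm_num)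
    (cube_sqrt_geJ (s := 0.8783) (by norm_num) (by norm_num) (by norm_num) (by norm_num))
    (cube_sqrt_geJ (s := 0.9571) (by norm_num) (by norm_num) (by norm_num) (by norm_num))
    (by norm_num) (by norm_num) (by norm_num) (by norm_num) (by norm_num) (by norm_num) (by norm_num) (by norm_num) (by norm_num) (by norm_num) (by norm_num) (by norm_num) (by norm_num) (by norm_num) (by norm_num) (by norm_num) (by norm_num) (by norm_num)
    (exp_neg_leJ (r := 0.131) 6 (by norm_num) (by norm_num) (by norm_num) (by norm_num))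
    (exp_neg_leJ (r := 0.73) 4 (by norm_num) (by norm_num) (by norm_num) (by norm_num))
    (exp_neg_leJ (r := 0.592) 12 (by norm_num) (by norm_num) (by norm_num) (by norm_num))
    (exp_neg_leJ (r := 0.99) 14 (by norm_num) (by norm_num) (by norm_num) (by norm_num))
    (exp_neg_leJ (r := 0.869) 6 (by norm_num) (by norm_num) (by norm_num) (by norm_num))
    (exp_neg_leJ (r := 0.913) 14 (by norm_num) (by norm_num) (by norm_num) (by norm_num))
    (exp_neg_leJ (r := 0.99) 14 (by norm_num) (by norm_num) (by norm_num) (by norm_num))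
    (exp_neg_leJ (r := 0.99) 14 (by norm_num) (by norm_num) (by norm_num) (by norm_num))
    (by norm_num)) (by norm_num) hN hβ.le (by norm_num)

private theorem JB6_k1a_b4_3 {β x y : ℝ} (hβ : 0 < β) (hN : β * 9.999 ≤ 1) (hx1 : 0.7083 ≤ x) (hx2 : x ≤ 0.7503)
    (hy1 : -0 ≤ y) (hy2 : y ≤ 0.261) : ‖HH β (x + y * I) - 1‖ ≤ 0.045 := by
  refine le_epsJ (C := 0.4237) (N0 := 9.999) (J_boxp 0.7083 0.7503 0 0.261 0.261 1.2088 0.7944 1.4674 0.9115 0.4833 3.1622 9.999 0.6572 2.377 1.342 1.1315 0.6043 0.4719 1.2507 3.6583 0.6724 1.4541 1.8678 2.7394 0.002377 0.008941 0.000003709 0.0000003101 0.001205 0.0000004852 0.0000003101 0.0000003101 0.4237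
    hβ hN hx1 hx2 hy1 hy2 (by norm_num) (by norm_num) (by linarith) (by norm_num) (by norm_num) (by norm_num) (by norm_num) (by norm_num) (by norm_num) (by norm_num) (by norm_num) (by norm_num) (by norm_num) (by norm_num) (by norm_num) (by norm_num) (by norm_num) (by norm_num) (by norm_num) (by norm_num) (by norm_num) (by norm_num) (by norm_num) (by norm_num)
    (cube_sqrt_geJ (s := 0.8837) (by norm_num) (by norm_num) (by norm_num) (by norm_num))
    (cube_sqrt_geJ (s := 0.9589) (by norm_num) (by norm_num) (by norm_num) (by norm_num))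
    (by norm_num) (by norm_num) (by norm_num) (by norm_num) (by norm_num) (by norm_num) (by norm_num) (by norm_num) (by norm_num) (by norm_num) (by norm_num) (by norm_num) (by norm_num) (by norm_num) (by norm_num) (by norm_num) (by norm_num) (by norm_num)
    (exp_neg_leJ (r := 0.042) 6 (by norm_num) (by norm_num) (by norm_num) (by norm_num))
    (exp_neg_leJ (r := 0.718) 4 (by norm_num) (by norm_num) (by norm_num) (by norm_num))
    (exp_neg_leJ (r := 0.505) 12 (by norm_num) (by norm_num) (by norm_num) (by norm_num))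
    (exp_neg_leJ (r := 0.99) 14 (by norm_num) (by norm_num) (by norm_num) (by norm_num))
    (exp_neg_leJ (r := 0.723) 6 (by norm_num) (by norm_num) (by norm_num) (by norm_num))
    (exp_neg_leJ (r := 0.539) 14 (by norm_num) (by norm_num) (by norm_num) (by norm_num))
    (exp_neg_leJ (r := 0.99) 14 (by norm_num) (by norm_num) (by norm_num) (by norm_num))
    (exp_neg_leJ (r := 0.99) 14 (by norm_num) (by norm_num) (by norm_num) (by norm_num))
    (by norm_num)) (by norm_num) hN hβ.le (by norm_num)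

theorem JB6_k1a_c4 {κ t β : ℝ} (h : DomR κ t) (hβ : 0 < β) (hk1 : 0.98 ≤ κ) (hk2 : κ ≤ 1)
    (ht1 : 0.04 ≤ t + κ) (ht2 : t + κ ≤ 0.62) (hR0 : β * 10 ≤ κ) (hR : β * (4.95 * (1 + κ ^ 2)) ≤ κ) :
    ‖HH β (sg κ t) - 1‖ ≤ 0.045 := by
  have hN : β * 9.999 ≤ 1 := bNR hβ h.1 hk2 hR0 (by norm_num)
  have hy1 : 0.019 ≤ sy κ t := syR_ge h 0.98 1 0.04 0.019 1.01918 1.01919 0.01936 0.01976 hk1 hk2 (by linarith) (by norm_num) (by norm_num)
    (expn_ge (by norm_num) (by norm_num)) (expn_le (by norm_num) (by norm_num) (by norm_num)) (by norm_num)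
    (by norm_num) (by norm_num) (by norm_num) (by norm_num) (by norm_num) (by norm_num)
  have hy2 : sy κ t ≤ 0.261 := syR_le h 0.98 1 0.62 0.261 1.29822 0.337 0.33883 0.34576 hk1 hk2 (by linarith) (by norm_num) (by norm_num)
    (expn_ge (by norm_num) (by norm_num)) (by norm_num) (by norm_num) (Or.inr ((mul_le_mul_of_nonneg_left (expn_le (E := 1.29823) (by norm_num) (by norm_num) (by norm_num)) (by norm_num)).trans (by norm_num))) (by norm_num) (by norm_num) (by norm_num)
  rcases le_total (sy κ t) 0.114 with f0 | g0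
  · have hx1 : 0.8669 ≤ sx κ t := sx_lo h 0.98 0.114 0.114 0.89225 0.8669 hk1 (by norm_num) f0 (abs_le.2 ⟨by linarith, by linarith⟩) (expm_ge (by norm_num) (by norm_num) (by norm_num) (by norm_num)) (by norm_num) (by norm_num)
    have hx2 : sx κ t ≤ 0.981 := sx_hi h 1 0.019 0.019 0.98118 0.981 hk2 hy1 (by norm_num) (by rw [abs_of_nonneg (by linarith)]; linarith) (expm_le (by norm_num) (by norm_num) (by norm_num)) (by norm_num) (by norm_num)
    exact JB6_k1a_b4_0 hβ hN hx1 hx2 (by linarith) (by linarith)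
  rcases le_total (sy κ t) 0.189 with f1 | g1
  · have hx1 : 0.7889 ≤ sx κ t := sx_lo h 0.98 0.189 0.189 0.82778 0.7889 hk1 (by norm_num) f1 (abs_le.2 ⟨by linarith, by linarith⟩) (expm_ge (by norm_num) (by norm_num) (by norm_num) (by norm_num)) (by norm_num) (by norm_num)
    have hx2 : sx κ t ≤ 0.885 := sx_hi h 1 0.114 0.114 0.89226 0.885 hk2 g0 (by norm_num) (by rw [abs_of_nonneg (by linarith)]; linarith) (expm_le (by norm_num) (by norm_num) (by norm_num)) (by norm_num) (by norm_num)
    exact JB6_k1a_b4_1 hβ hN hx1 hx2 (by linarith) (by linarith)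
  rcases le_total (sy κ t) 0.239 with f2 | g2
  · have hx1 : 0.7337 ≤ sx κ t := sx_lo h 0.98 0.239 0.239 0.78741 0.7337 hk1 (by norm_num) f2 (abs_le.2 ⟨by linarith, by linarith⟩) (expm_ge (by norm_num) (by norm_num) (by norm_num) (by norm_num)) (by norm_num) (by norm_num)
    have hx2 : sx κ t ≤ 0.806 := sx_hi h 1 0.189 0.189 0.82779 0.806 hk2 g1 (by norm_num) (by rw [abs_of_nonneg (by linarith)]; linarith) (expm_le (by norm_num) (by norm_num) (by norm_num)) (by norm_num) (by norm_num)
    exact JB6_k1a_b4_2 hβ hN hx1 hx2 (by linarith) (by linarith)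
  have hx1 : 0.7083 ≤ sx κ t := sx_lo h 0.98 0.261 0.261 0.77028 0.7083 hk1 (by norm_num) hy2 (abs_le.2 ⟨by linarith, by linarith⟩) (expm_ge (by norm_num) (by norm_num) (by norm_num) (by norm_num)) (by norm_num) (by norm_num)
  have hx2 : sx κ t ≤ 0.7503 := sx_hi h 1 0.239 0.239 0.78742 0.7503 hk2 g2 (by norm_num) (by rw [abs_of_nonneg (by linarith)]; linarith) (expm_le (by norm_num) (by norm_num) (by norm_num)) (by norm_num) (by norm_num)
  exact JB6_k1a_b4_3 hβ hN hx1 hx2 (by linarith) (by linarith)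
end Sok
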