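import Pool.Agent.Lib.MP_816dec_an.JBG2

/-!
MP_816dec_an (A3, row R1): tables b = 6, real points.
-/

set_option autoImplicit false
set_option maxHeartbeats 4000000

open Complex Set

namespace Sok

private theorem JB6_k1a_b5_0 {β x y : ℝ} (hβ : 0 < β) (hN : β * 9.899 ≤ 1) (hx1 : 0.9105 ≤ x) (hx2 : x ≤ 1.0203)
    (hy1 : -0 ≤ y) (hy2 : y ≤ 0.089) : ‖HH β (x + y * I) - 1‖ ≤ 0.045 := by
  refine le_epsJ (C := 0.4421) (N0 := 9.899) (J_boxp 0.9105 1.0203 0 0.089 0.089 1.3511 1.0242 1.4923 0.7779 0.4874 3.1463 9.899 0.7581 2.773 1.407 1.0276 0.6755 0.5048 1.3199 3.5131 0.7881 1.7516 3.0099 3.3296 0.00125 0.00683 0.000002119 0.0000003101 0.00041 0.0000003101 0.0000003101 0.0000003101 0.4421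
    hβ hN hx1 hx2 hy1 hy2 (by norm_num) (by norm_num) (by linarith) (by norm_num) (by norm_num) (by norm_num) (by norm_num) (by norm_num) (by norm_num) (by norm_num) (by norm_num) (by norm_num) (by norm_num) (by norm_num) (by norm_num) (by norm_num) (by norm_num) (by norm_num) (by norm_num) (by norm_num) (by norm_num) (by norm_num) (by norm_num) (by norm_num)
    (cube_sqrt_geJ (s := 0.8644) (by norm_num) (by norm_num) (by norm_num) (by norm_num))
    (cube_sqrt_geJ (s := 0.9524) (by norm_num) (by norm_num) (by norm_num) (by norm_num))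
    (by norm_num) (by norm_num) (by norm_num) (by norm_num) (by norm_num) (by norm_num) (by norm_num) (by norm_num) (by norm_num) (by norm_num) (by norm_num) (by norm_num) (by norm_num) (by norm_num) (by norm_num) (by norm_num) (by norm_num) (by norm_num)
    (exp_neg_leJ (r := 0.686) 6 (by norm_num) (by norm_num) (by norm_num) (by norm_num))
    (exp_neg_leJ (r := 0.99) 4 (by norm_num) (by norm_num) (by norm_num) (by norm_num))
    (exp_neg_leJ (r := 0.065) 13 (by norm_num) (by norm_num) (by norm_num) (by norm_num))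
    (exp_neg_leJ (r := 0.99) 14 (by norm_num) (by norm_num) (by norm_num) (by norm_num))
    (exp_neg_leJ (r := 0.801) 7 (by norm_num) (by norm_num) (by norm_num) (by norm_num))
    (exp_neg_leJ (r := 0.99) 14 (by norm_num) (by norm_num) (by norm_num) (by norm_num))
    (exp_neg_leJ (r := 0.99) 14 (by norm_num) (by norm_num) (by norm_num) (by norm_num))
    (exp_neg_leJ (r := 0.99) 14 (by norm_num) (by norm_num) (by norm_num) (by norm_num))
    (by norm_num)) (by norm_num) hN hβ.le (by norm_num)

private theorem JB6_k1a_b5_1 {β x y : ℝ} (hβ : 0 < β) (hN : β * 9.899 ≤ 1) (hx1 : 0.8485 ≤ x) (hx2 : x ≤ 0.9473)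
    (hy1 : -0 ≤ y) (hy2 : y ≤ 0.149) : ‖HH β (x + y * I) - 1‖ ≤ 0.045 := by
  refine le_epsJ (C := 0.4426) (N0 := 9.899) (J_boxp 0.8485 0.9473 0 0.149 0.149 1.3075 0.959 1.4892 0.8163 0.4869 3.1463 9.899 0.7335 2.669 1.391 1.0557 0.6537 0.4939 1.2987 3.5532 0.7519 1.6596 2.6286 3.1001 0.00155 0.007546 0.000002618 0.0000003101 0.0005856 0.0000003101 0.0000003101 0.0000003101 0.4426
    hβ hN hx1 hx2 hy1 hy2 (by norm_num) (by norm_num) (by linarith) (by norm_num) (by norm_num) (by norm_num) (by norm_num) (by norm_num) (by norm_num) (by norm_num) (by norm_num) (by norm_num) (by norm_num) (by norm_num) (by norm_num) (by norm_num) (by norm_num) (by norm_num) (by norm_num) (by norm_num) (by norm_num) (by norm_num) (by norm_num) (by norm_num)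
    (cube_sqrt_geJ (s := 0.8691) (by norm_num) (by norm_num) (by norm_num) (by norm_num))
    (cube_sqrt_geJ (s := 0.954) (by norm_num) (by norm_num) (by norm_num) (by norm_num))
    (by norm_num) (by norm_num) (by norm_num) (by norm_num) (by norm_num) (by norm_num) (by norm_num) (by norm_num) (by norm_num) (by norm_num) (by norm_num) (by norm_num) (by norm_num) (by norm_num) (by norm_num) (by norm_num) (by norm_num) (by norm_num)
    (exp_neg_leJ (r := 0.47) 6 (by norm_num) (by norm_num) (by norm_num) (by norm_num))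
    (exp_neg_leJ (r := 0.889) 4 (by norm_num) (by norm_num) (by norm_num) (by norm_num))
    (exp_neg_leJ (r := 0.855) 12 (by norm_num) (by norm_num) (by norm_num) (by norm_num))
    (exp_neg_leJ (r := 0.99) 14 (by norm_num) (by norm_num) (by norm_num) (by norm_num))
    (exp_neg_leJ (r := 0.443) 7 (by norm_num) (by norm_num) (by norm_num) (by norm_num))
    (exp_neg_leJ (r := 0.99) 14 (by norm_num) (by norm_num) (by norm_num) (by norm_num))
    (exp_neg_leJ (r := 0.99) 14 (by norm_num) (by norm_num) (by norm_num) (by norm_num))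
    (exp_neg_leJ (r := 0.99) 14 (by norm_num) (by norm_num) (by norm_num) (by norm_num))
    (by norm_num)) (by norm_num) hN hβ.le (by norm_num)

private theorem JB6_k1a_b5_2 {β x y : ℝ} (hβ : 0 < β) (hN : β * 9.899 ≤ 1) (hx1 : 0.8004 ≤ x) (hx2 : x ≤ 0.8836)
    (hy1 : -0 ≤ y) (hy2 : y ≤ 0.194) : ‖HH β (x + y * I) - 1‖ ≤ 0.045 := by
  refine le_epsJ (C := 0.44) (N0 := 9.899) (J_boxp 0.8004 0.8836 0 0.194 0.194 1.2736 0.9047 1.4854 0.848 0.4863 3.1463 9.899 0.7104 2.575 1.376 1.0802 0.6367 0.486 1.2822 3.5875 0.724 1.5884 2.3394 2.9395 0.001833 0.008161 0.000003078 0.0000003101 0.0007725 0.0000003101 0.0000003101 0.0000003101 0.44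
    hβ hN hx1 hx2 hy1 hy2 (by norm_num) (by norm_num) (by linarith) (by norm_num) (by norm_num) (by norm_num) (by norm_num) (by norm_num) (by norm_num) (by norm_num) (by norm_num) (by norm_num) (by norm_num) (by norm_num) (by norm_num) (by norm_num) (by norm_num) (by norm_num) (by norm_num) (by norm_num) (by norm_num) (by norm_num) (by norm_num) (by norm_num)
    (cube_sqrt_geJ (s := 0.8736) (by norm_num) (by norm_num) (by norm_num) (by norm_num))
    (cube_sqrt_geJ (s := 0.9555) (by norm_num) (by norm_num) (by norm_num) (by norm_num))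
    (by norm_num) (by norm_num) (by norm_num) (by norm_num) (by norm_num) (by norm_num) (by norm_num) (by norm_num) (by norm_num) (by norm_num) (by norm_num) (by norm_num) (by norm_num) (by norm_num) (by norm_num) (by norm_num) (by norm_num) (by norm_num)
    (exp_neg_leJ (r := 0.302) 6 (by norm_num) (by norm_num) (by norm_num) (by norm_num))
    (exp_neg_leJ (r := 0.81) 4 (by norm_num) (by norm_num) (by norm_num) (by norm_num))
    (exp_neg_leJ (r := 0.692) 12 (by norm_num) (by norm_num) (by norm_num) (by norm_num))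
    (exp_neg_leJ (r := 0.99) 14 (by norm_num) (by norm_num) (by norm_num) (by norm_num))
    (exp_neg_leJ (r := 0.166) 7 (by norm_num) (by norm_num) (by norm_num) (by norm_num))
    (exp_neg_leJ (r := 0.99) 14 (by norm_num) (by norm_num) (by norm_num) (by norm_num))
    (exp_neg_leJ (r := 0.99) 14 (by norm_num) (by norm_num) (by norm_num) (by norm_num))
    (exp_neg_leJ (r := 0.99) 14 (by norm_num) (by norm_num) (by norm_num) (by norm_num))
    (by norm_num)) (by norm_num) hN hβ.le (by norm_num)

private theorem JB6_k1a_b5_3 {β x y : ℝ} (hβ : 0 < β) (hN : β * 9.899 ≤ 1) (hx1 : 0.7616 ≤ x) (hx2 : x ≤ 0.8344)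
    (hy1 : -0 ≤ y) (hy2 : y ≤ 0.229) : ‖HH β (x + y * I) - 1‖ ≤ 0.045 := by
  refine le_epsJ (C := 0.4428) (N0 := 9.899) (J_boxp 0.7616 0.8344 0 0.229 0.229 1.2463 0.8653 1.4855 0.876 0.4863 3.1463 9.899 0.6943 2.513 1.365 1.0991 0.6231 0.4789 1.2689 3.6133 0.7015 1.5311 2.1117 2.804 0.002096 0.008748 0.000003511 0.0000003101 0.0009672 0.0000003101 0.0000003101 0.0000003101 0.4428
    hβ hN hx1 hx2 hy1 hy2 (by norm_num) (by norm_num) (by linarith) (by norm_num) (by norm_num) (by norm_num) (by norm_num) (by norm_num) (by norm_num) (by norm_num) (by norm_num) (by norm_num) (by norm_num) (by norm_num) (by norm_num) (by norm_num) (by norm_num) (by norm_num) (by norm_num) (by norm_num) (by norm_num) (by norm_num) (by norm_num) (by norm_num)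
    (cube_sqrt_geJ (s := 0.8766) (by norm_num) (by norm_num) (by norm_num) (by norm_num))
    (cube_sqrt_geJ (s := 0.9565) (by norm_num) (by norm_num) (by norm_num) (by norm_num))
    (by norm_num) (by norm_num) (by norm_num) (by norm_num) (by norm_num) (by norm_num) (by norm_num) (by norm_num) (by norm_num) (by norm_num) (by norm_num) (by norm_num) (by norm_num) (by norm_num) (by norm_num) (by norm_num) (by norm_num) (by norm_num)
    (exp_neg_leJ (r := 0.168) 6 (by norm_num) (by norm_num) (by norm_num) (by norm_num))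
    (exp_neg_leJ (r := 0.74) 4 (by norm_num) (by norm_num) (by norm_num) (by norm_num))
    (exp_neg_leJ (r := 0.56) 12 (by norm_num) (by norm_num) (by norm_num) (by norm_num))
    (exp_neg_leJ (r := 0.99) 14 (by norm_num) (by norm_num) (by norm_num) (by norm_num))
    (exp_neg_leJ (r := 0.944) 6 (by norm_num) (by norm_num) (by norm_num) (by norm_num))
    (exp_neg_leJ (r := 0.99) 14 (by norm_num) (by norm_num) (by norm_num) (by norm_num))
    (exp_neg_leJ (r := 0.99) 14 (by norm_num) (by norm_num) (by norm_num) (by norm_num))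
    (exp_neg_leJ (r := 0.99) 14 (by norm_num) (by norm_num) (by norm_num) (by norm_num))
    (by norm_num)) (by norm_num) hN hβ.le (by norm_num)

private theorem JB6_k1a_b5_4 {β x y : ℝ} (hβ : 0 < β) (hN : β * 9.899 ≤ 1) (hx1 : 0.7329 ≤ x) (hx2 : x ≤ 0.7949)
    (hy1 : -0 ≤ y) (hy2 : y ≤ 0.254) : ‖HH β (x + y * I) - 1‖ ≤ 0.045 := by
  refine le_epsJ (C := 0.4436) (N0 := 9.899) (J_boxp 0.7329 0.7949 0 0.254 0.254 1.2261 0.8345 1.4848 0.8976 0.4862 3.1463 9.899 0.6807 2.462 1.357 1.1143 0.613 0.4739 1.2591 3.6338 0.6851 1.4888 1.947 2.7126 0.002316 0.009185 0.000003868 0.0000003101 0.001137 0.0000003984 0.0000003101 0.0000003101 0.4436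
    hβ hN hx1 hx2 hy1 hy2 (by norm_num) (by norm_num) (by linarith) (by norm_num) (by norm_num) (by norm_num) (by norm_num) (by norm_num) (by norm_num) (by norm_num) (by norm_num) (by norm_num) (by norm_num) (by norm_num) (by norm_num) (by norm_num) (by norm_num) (by norm_num) (by norm_num) (by norm_num) (by norm_num) (by norm_num) (by norm_num) (by norm_num)
    (cube_sqrt_geJ (s := 0.8792) (by norm_num) (by norm_num) (by norm_num) (by norm_num))
    (cube_sqrt_geJ (s := 0.9574) (by norm_num) (by norm_num) (by norm_num) (by norm_num))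
    (by norm_num) (by norm_num) (by norm_num) (by norm_num) (by norm_num) (by norm_num) (by norm_num) (by norm_num) (by norm_num) (by norm_num) (by norm_num) (by norm_num) (by norm_num) (by norm_num) (by norm_num) (by norm_num) (by norm_num) (by norm_num)
    (exp_neg_leJ (r := 0.068) 6 (by norm_num) (by norm_num) (by norm_num) (by norm_num))
    (exp_neg_leJ (r := 0.691) 4 (by norm_num) (by norm_num) (by norm_num) (by norm_num))
    (exp_neg_leJ (r := 0.463) 12 (by norm_num) (by norm_num) (by norm_num) (by norm_num))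
    (exp_neg_leJ (r := 0.99) 14 (by norm_num) (by norm_num) (by norm_num) (by norm_num))
    (exp_neg_leJ (r := 0.781) 6 (by norm_num) (by norm_num) (by norm_num) (by norm_num))
    (exp_neg_leJ (r := 0.737) 14 (by norm_num) (by norm_num) (by norm_num) (by norm_num))
    (exp_neg_leJ (r := 0.99) 14 (by norm_num) (by norm_num) (by norm_num) (by norm_num))
    (exp_neg_leJ (r := 0.99) 14 (by norm_num) (by norm_num) (by norm_num) (by norm_num))
    (by norm_num)) (by norm_num) hN hβ.le (by norm_num)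

private theorem JB6_k1a_b5_5 {β x y : ℝ} (hβ : 0 < β) (hN : β * 9.899 ≤ 1) (hx1 : 0.7211 ≤ x) (hx2 : x ≤ 0.7657)
    (hy1 : -0 ≤ y) (hy2 : y ≤ 0.264) : ‖HH β (x + y * I) - 1‖ ≤ 0.045 := by
  refine le_epsJ (C := 0.431) (N0 := 9.899) (J_boxp 0.7211 0.7657 0 0.264 0.264 1.2178 0.81 1.4779 0.9047 0.485 3.1463 9.899 0.6652 2.405 1.347 1.1256 0.6088 0.4738 1.2551 3.6494 0.6783 1.4715 1.8806 2.7084 0.002416 0.009194 0.000004022 0.0000003101 0.001215 0.0000004723 0.0000003101 0.0000003101 0.431
    hβ hN hx1 hx2 hy1 hy2 (by norm_num) (by norm_num) (by linarith) (by norm_num) (by norm_num) (by norm_num) (by norm_num) (by norm_num) (by norm_num) (by norm_num) (by norm_num) (by norm_num) (by norm_num) (by norm_num) (by norm_num) (by norm_num) (by norm_num) (by norm_num) (by norm_num) (by norm_num) (by norm_num) (by norm_num) (by norm_num) (by norm_num)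
    (cube_sqrt_geJ (s := 0.8821) (by norm_num) (by norm_num) (by norm_num) (by norm_num))
    (cube_sqrt_geJ (s := 0.9584) (by norm_num) (by norm_num) (by norm_num) (by norm_num))
    (by norm_num) (by norm_num) (by norm_num) (by norm_num) (by norm_num) (by norm_num) (by norm_num) (by norm_num) (by norm_num) (by norm_num) (by norm_num) (by norm_num) (by norm_num) (by norm_num) (by norm_num) (by norm_num) (by norm_num) (by norm_num)
    (exp_neg_leJ (r := 0.026) 6 (by norm_num) (by norm_num) (by norm_num) (by norm_num))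
    (exp_neg_leJ (r := 0.69) 4 (by norm_num) (by norm_num) (by norm_num) (by norm_num))
    (exp_neg_leJ (r := 0.424) 12 (by norm_num) (by norm_num) (by norm_num) (by norm_num))
    (exp_neg_leJ (r := 0.99) 14 (by norm_num) (by norm_num) (by norm_num) (by norm_num))
    (exp_neg_leJ (r := 0.714) 6 (by norm_num) (by norm_num) (by norm_num) (by norm_num))
    (exp_neg_leJ (r := 0.566) 14 (by norm_num) (by norm_num) (by norm_num) (by norm_num))
    (exp_neg_leJ (r := 0.99) 14 (by norm_num) (by norm_num) (by norm_num) (by norm_num))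
    (exp_neg_leJ (r := 0.99) 14 (by norm_num) (by norm_num) (by norm_num) (by norm_num))
    (by norm_num)) (by norm_num) hN hβ.le (by norm_num)

theorem JB6_k1a_c5 {κ t β : ℝ} (h : DomR κ t) (hβ : 0 < β) (hk1 : 1 ≤ κ) (hk2 : κ ≤ 1.04)
    (ht1 : 0.04 ≤ t + κ) (ht2 : t + κ ≤ 0.62) (hR0 : β * 10 ≤ κ) (hR : β * (4.95 * (1 + κ ^ 2)) ≤ κ) :
    ‖HH β (sg κ t) - 1‖ ≤ 0.045 := by
  have hN : β * 9.899 ≤ 1 := bNC' hβ hk1 (by norm_num) (by norm_num) hR (by norm_num)
  have hy1 : 0.019 ≤ sy κ t := syR_ge h 1 1.04 0.04 0.019 1.01918 1.01919 0.01861 0.01937 hk1 hk2 (by linarith) (by norm_num) (by norm_num)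
    (expn_ge (by norm_num) (by norm_num)) (expn_le (by norm_num) (by norm_num) (by norm_num)) (by norm_num)
    (by norm_num) (by norm_num) (by norm_num) (by norm_num) (by norm_num) (by norm_num)
  have hy2 : sy κ t ≤ 0.264 := syR_le h 1 1.04 0.62 0.264 1.30212 0.3272 0.33053 0.34377 hk1 hk2 (by linarith) (by norm_num) (by norm_num)
    (expn_ge (by norm_num) (by norm_num)) (by norm_num) (by norm_num) (Or.inr ((mul_le_mul_of_nonneg_left (expn_le (E := 1.30213) (by norm_num) (by norm_num) (by norm_num)) (by norm_num)).trans (by norm_num))) (by norm_num) (by norm_num) (by norm_num)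
  rcases le_total (sy κ t) 0.089 with f0 | g0
  · have hx1 : 0.9105 ≤ sx κ t := sx_lo h 1 0.089 0.089 0.91484 0.9105 hk1 (by norm_num) f0 (abs_le.2 ⟨by linarith, by linarith⟩) (expm_ge (by norm_num) (by norm_num) (by norm_num) (by norm_num)) (by norm_num) (by norm_num)
    have hx2 : sx κ t ≤ 1.0203 := sx_hi h 1.04 0.019 0.019 0.98118 1.0203 hk2 hy1 (by norm_num) (by rw [abs_of_nonneg (by linarith)]; linarith) (expm_le (by norm_num) (by norm_num) (by norm_num)) (by norm_num) (by norm_num)
    exact JB6_k1a_b5_0 hβ hN hx1 hx2 (by linarith) (by linarith)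
  rcases le_total (sy κ t) 0.149 with f1 | g1
  · have hx1 : 0.8485 ≤ sx κ t := sx_lo h 1 0.149 0.149 0.86156 0.8485 hk1 (by norm_num) f1 (abs_le.2 ⟨by linarith, by linarith⟩) (expm_ge (by norm_num) (by norm_num) (by norm_num) (by norm_num)) (by norm_num) (by norm_num)
    have hx2 : sx κ t ≤ 0.9473 := sx_hi h 1.04 0.089 0.089 0.91485 0.9473 hk2 g0 (by norm_num) (by rw [abs_of_nonneg (by linarith)]; linarith) (expm_le (by norm_num) (by norm_num) (by norm_num)) (by norm_num) (by norm_num)
    exact JB6_k1a_b5_1 hβ hN hx1 hx2 (by linarith) (by linarith)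
  rcases le_total (sy κ t) 0.194 with f2 | g2
  · have hx1 : 0.8004 ≤ sx κ t := sx_lo h 1 0.194 0.194 0.82365 0.8004 hk1 (by norm_num) f2 (abs_le.2 ⟨by linarith, by linarith⟩) (expm_ge (by norm_num) (by norm_num) (by norm_num) (by norm_num)) (by norm_num) (by norm_num)
    have hx2 : sx κ t ≤ 0.8836 := sx_hi h 1.04 0.149 0.149 0.86157 0.8836 hk2 g1 (by norm_num) (by rw [abs_of_nonneg (by linarith)]; linarith) (expm_le (by norm_num) (by norm_num) (by norm_num)) (by norm_num) (by norm_num)
    exact JB6_k1a_b5_2 hβ hN hx1 hx2 (by linarith) (by linarith)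
  rcases le_total (sy κ t) 0.229 with f3 | g3
  · have hx1 : 0.7616 ≤ sx κ t := sx_lo h 1 0.229 0.229 0.79532 0.7616 hk1 (by norm_num) f3 (abs_le.2 ⟨by linarith, by linarith⟩) (expm_ge (by norm_num) (by norm_num) (by norm_num) (by norm_num)) (by norm_num) (by norm_num)
    have hx2 : sx κ t ≤ 0.8344 := sx_hi h 1.04 0.194 0.194 0.82366 0.8344 hk2 g2 (by norm_num) (by rw [abs_of_nonneg (by linarith)]; linarith) (expm_le (by norm_num) (by norm_num) (by norm_num)) (by norm_num) (by norm_num)
    exact JB6_k1a_b5_3 hβ hN hx1 hx2 (by linarith) (by linarith)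
  rcases le_total (sy κ t) 0.254 with f4 | g4
  · have hx1 : 0.7329 ≤ sx κ t := sx_lo h 1 0.254 0.254 0.77569 0.7329 hk1 (by norm_num) f4 (abs_le.2 ⟨by linarith, by linarith⟩) (expm_ge (by norm_num) (by norm_num) (by norm_num) (by norm_num)) (by norm_num) (by norm_num)
    have hx2 : sx κ t ≤ 0.7949 := sx_hi h 1.04 0.229 0.229 0.79533 0.7949 hk2 g3 (by norm_num) (by rw [abs_of_nonneg (by linarith)]; linarith) (expm_le (by norm_num) (by norm_num) (by norm_num)) (by norm_num) (by norm_num)
    exact JB6_k1a_b5_4 hβ hN hx1 hx2 (by linarith) (by linarith)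
  have hx1 : 0.7211 ≤ sx κ t := sx_lo h 1 0.264 0.264 0.76797 0.7211 hk1 (by norm_num) hy2 (abs_le.2 ⟨by linarith, by linarith⟩) (expm_ge (by norm_num) (by norm_num) (by norm_num) (by norm_num)) (by norm_num) (by norm_num)
  have hx2 : sx κ t ≤ 0.7657 := sx_hi h 1.04 0.254 0.254 0.7757 0.7657 hk2 g4 (by norm_num) (by rw [abs_of_nonneg (by linarith)]; linarith) (expm_le (by norm_num) (by norm_num) (by norm_num)) (by norm_num) (by norm_num)
  exact JB6_k1a_b5_5 hβ hN hx1 hx2 (by linarith) (by linarith)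

private theorem JB6_k1a_b6_0 {β x y : ℝ} (hβ : 0 < β) (hN : β * 9.907 ≤ 1) (hx1 : 0.9472 ≤ x) (hx2 : x ≤ 1.0596)
    (hy1 : -0 ≤ y) (hy2 : y ≤ 0.089) : ‖HH β (x + y * I) - 1‖ ≤ 0.045 := by
  refine le_epsJ (C := 0.4449) (N0 := 9.907) (J_boxp 0.9472 1.0596 0 0.089 0.089 1.377 1.0634 1.5195 0.7629 0.4918 3.1476 9.907 0.7723 2.835 1.416 1.0125 0.6884 0.5112 1.3325 3.4904 0.806 1.8024 3.0833 3.2964 0.001095 0.006321 0.000001849 0.0000003101 0.0003418 0.0000003101 0.0000003101 0.0000003101 0.4449
    hβ hN hx1 hx2 hy1 hy2 (by norm_num) (by norm_num) (by linarith) (by norm_num) (by norm_num) (by norm_num) (by norm_num) (by norm_num) (by norm_num) (by norm_num) (by norm_num) (by norm_num) (by norm_num) (by norm_num) (by norm_num) (by norm_num) (by norm_num) (by norm_num) (by norm_num) (by norm_num) (by norm_num) (by norm_num) (by norm_num) (by norm_num)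
    (cube_sqrt_geJ (s := 0.8617) (by norm_num) (by norm_num) (by norm_num) (by norm_num))
    (cube_sqrt_geJ (s := 0.9515) (by norm_num) (by norm_num) (by norm_num) (by norm_num))
    (by norm_num) (by norm_num) (by norm_num) (by norm_num) (by norm_num) (by norm_num) (by norm_num) (by norm_num) (by norm_num) (by norm_num) (by norm_num) (by norm_num) (by norm_num) (by norm_num) (by norm_num) (by norm_num) (by norm_num) (by norm_num)
    (exp_neg_leJ (r := 0.819) 6 (by norm_num) (by norm_num) (by norm_num) (by norm_num))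
    (exp_neg_leJ (r := 0.064) 5 (by norm_num) (by norm_num) (by norm_num) (by norm_num))
    (exp_neg_leJ (r := 0.201) 13 (by norm_num) (by norm_num) (by norm_num) (by norm_num))
    (exp_neg_leJ (r := 0.99) 14 (by norm_num) (by norm_num) (by norm_num) (by norm_num))
    (exp_neg_leJ (r := 0.985) 7 (by norm_num) (by norm_num) (by norm_num) (by norm_num))
    (exp_neg_leJ (r := 0.99) 14 (by norm_num) (by norm_num) (by norm_num) (by norm_num))
    (exp_neg_leJ (r := 0.99) 14 (by norm_num) (by norm_num) (by norm_num) (by norm_num))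
    (exp_neg_leJ (r := 0.99) 14 (by norm_num) (by norm_num) (by norm_num) (by norm_num))
    (by norm_num)) (by norm_num) hN hβ.le (by norm_num)

private theorem JB6_k1a_b6_1 {β x y : ℝ} (hβ : 0 < β) (hN : β * 9.907 ≤ 1) (hx1 : 0.8835 ≤ x) (hx2 : x ≤ 0.9841)
    (hy1 : -0 ≤ y) (hy2 : y ≤ 0.149) : ‖HH β (x + y * I) - 1‖ ≤ 0.045 := by
  refine le_epsJ (C := 0.4448) (N0 := 9.907) (J_boxp 0.8835 0.9841 0 0.149 0.149 1.3321 0.9954 1.5129 0.8001 0.4907 3.1476 9.907 0.7473 2.726 1.4 1.0416 0.666 0.5001 1.3107 3.532 0.7689 1.7081 2.6986 3.0712 0.001364 0.007077 0.000002303 0.0000003101 0.0004923 0.0000003101 0.0000003101 0.0000003101 0.4448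
    hβ hN hx1 hx2 hy1 hy2 (by norm_num) (by norm_num) (by linarith) (by norm_num) (by norm_num) (by norm_num) (by norm_num) (by norm_num) (by norm_num) (by norm_num) (by norm_num) (by norm_num) (by norm_num) (by norm_num) (by norm_num) (by norm_num) (by norm_num) (by norm_num) (by norm_num) (by norm_num) (by norm_num) (by norm_num) (by norm_num) (by norm_num)
    (cube_sqrt_geJ (s := 0.8665) (by norm_num) (by norm_num) (by norm_num) (by norm_num))
    (cube_sqrt_geJ (s := 0.9531) (by norm_num) (by norm_num) (by norm_num) (by norm_num))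
    (by norm_num) (by norm_num) (by norm_num) (by norm_num) (by norm_num) (by norm_num) (by norm_num) (by norm_num) (by norm_num) (by norm_num) (by norm_num) (by norm_num) (by norm_num) (by norm_num) (by norm_num) (by norm_num) (by norm_num) (by norm_num)
    (exp_neg_leJ (r := 0.598) 6 (by norm_num) (by norm_num) (by norm_num) (by norm_num))
    (exp_neg_leJ (r := 0.954) 4 (by norm_num) (by norm_num) (by norm_num) (by norm_num))
    (exp_neg_leJ (r := 0.985) 12 (by norm_num) (by norm_num) (by norm_num) (by norm_num))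
    (exp_neg_leJ (r := 0.99) 14 (by norm_num) (by norm_num) (by norm_num) (by norm_num))
    (exp_neg_leJ (r := 0.617) 7 (by norm_num) (by norm_num) (by norm_num) (by norm_num))
    (exp_neg_leJ (r := 0.99) 14 (by norm_num) (by norm_num) (by norm_num) (by norm_num))
    (exp_neg_leJ (r := 0.99) 14 (by norm_num) (by norm_num) (by norm_num) (by norm_num))
    (exp_neg_leJ (r := 0.99) 14 (by norm_num) (by norm_num) (by norm_num) (by norm_num))
    (by norm_num)) (by norm_num) hN hβ.le (by norm_num)

private theorem JB6_k1a_b6_2 {β x y : ℝ} (hβ : 0 < β) (hN : β * 9.907 ≤ 1) (hx1 : 0.8343 ≤ x) (hx2 : x ≤ 0.9185)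
    (hy1 : -0 ≤ y) (hy2 : y ≤ 0.194) : ‖HH β (x + y * I) - 1‖ ≤ 0.045 := by
  refine le_epsJ (C := 0.4403) (N0 := 9.907) (J_boxp 0.8343 0.9185 0 0.194 0.194 1.2975 0.9388 1.5065 0.8305 0.4897 3.1476 9.907 0.7236 2.628 1.384 1.0668 0.6487 0.4922 1.2938 3.5675 0.7404 1.6353 2.4072 2.9146 0.00162 0.007644 0.000002719 0.0000003101 0.0006524 0.0000003101 0.0000003101 0.0000003101 0.4403
    hβ hN hx1 hx2 hy1 hy2 (by norm_num) (by norm_num) (by linarith) (by norm_num) (by norm_num) (by norm_num) (by norm_num) (by norm_num) (by norm_num) (by norm_num) (by norm_num) (by norm_num) (by norm_num) (by norm_num) (by norm_num) (by norm_num) (by norm_num) (by norm_num) (by norm_num) (by norm_num) (by norm_num) (by norm_num) (by norm_num) (by norm_num)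
    (cube_sqrt_geJ (s := 0.871) (by norm_num) (by norm_num) (by norm_num) (by norm_num))
    (cube_sqrt_geJ (s := 0.9546) (by norm_num) (by norm_num) (by norm_num) (by norm_num))
    (by norm_num) (by norm_num) (by norm_num) (by norm_num) (by norm_num) (by norm_num) (by norm_num) (by norm_num) (by norm_num) (by norm_num) (by norm_num) (by norm_num) (by norm_num) (by norm_num) (by norm_num) (by norm_num) (by norm_num) (by norm_num)
    (exp_neg_leJ (r := 0.426) 6 (by norm_num) (by norm_num) (by norm_num) (by norm_num))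
    (exp_neg_leJ (r := 0.876) 4 (by norm_num) (by norm_num) (by norm_num) (by norm_num))
    (exp_neg_leJ (r := 0.817) 12 (by norm_num) (by norm_num) (by norm_num) (by norm_num))
    (exp_neg_leJ (r := 0.99) 14 (by norm_num) (by norm_num) (by norm_num) (by norm_num))
    (exp_neg_leJ (r := 0.335) 7 (by norm_num) (by norm_num) (by norm_num) (by norm_num))
    (exp_neg_leJ (r := 0.99) 14 (by norm_num) (by norm_num) (by norm_num) (by norm_num))
    (exp_neg_leJ (r := 0.99) 14 (by norm_num) (by norm_num) (by norm_num) (by norm_num))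
    (exp_neg_leJ (r := 0.99) 14 (by norm_num) (by norm_num) (by norm_num) (by norm_num))
    (by norm_num)) (by norm_num) hN hβ.le (by norm_num)

private theorem JB6_k1a_b6_3 {β x y : ℝ} (hβ : 0 < β) (hN : β * 9.907 ≤ 1) (hx1 : 0.7948 ≤ x) (hx2 : x ≤ 0.8682)
    (hy1 : -0 ≤ y) (hy2 : y ≤ 0.229) : ‖HH β (x + y * I) - 1‖ ≤ 0.045 := by
  refine le_epsJ (C := 0.4421) (N0 := 9.907) (J_boxp 0.7948 0.8682 0 0.229 0.229 1.2697 0.8979 1.5048 0.8575 0.4894 3.1476 9.907 0.7072 2.563 1.374 1.0861 0.6348 0.4851 1.2803 3.5941 0.7177 1.5771 2.1781 2.7818 0.001859 0.008201 0.000003106 0.0000003101 0.000817 0.0000003101 0.0000003101 0.0000003101 0.4421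
    hβ hN hx1 hx2 hy1 hy2 (by norm_num) (by norm_num) (by linarith) (by norm_num) (by norm_num) (by norm_num) (by norm_num) (by norm_num) (by norm_num) (by norm_num) (by norm_num) (by norm_num) (by norm_num) (by norm_num) (by norm_num) (by norm_num) (by norm_num) (by norm_num) (by norm_num) (by norm_num) (by norm_num) (by norm_num) (by norm_num) (by norm_num)
    (cube_sqrt_geJ (s := 0.8742) (by norm_num) (by norm_num) (by norm_num) (by norm_num))
    (cube_sqrt_geJ (s := 0.9557) (by norm_num) (by norm_num) (by norm_num) (by norm_num))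
    (by norm_num) (by norm_num) (by norm_num) (by norm_num) (by norm_num) (by norm_num) (by norm_num) (by norm_num) (by norm_num) (by norm_num) (by norm_num) (by norm_num) (by norm_num) (by norm_num) (by norm_num) (by norm_num) (by norm_num) (by norm_num)
    (exp_neg_leJ (r := 0.288) 6 (by norm_num) (by norm_num) (by norm_num) (by norm_num))
    (exp_neg_leJ (r := 0.805) 4 (by norm_num) (by norm_num) (by norm_num) (by norm_num))
    (exp_neg_leJ (r := 0.683) 12 (by norm_num) (by norm_num) (by norm_num) (by norm_num))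
    (exp_neg_leJ (r := 0.99) 14 (by norm_num) (by norm_num) (by norm_num) (by norm_num))
    (exp_neg_leJ (r := 0.11) 7 (by norm_num) (by norm_num) (by norm_num) (by norm_num))
    (exp_neg_leJ (r := 0.99) 14 (by norm_num) (by norm_num) (by norm_num) (by norm_num))
    (exp_neg_leJ (r := 0.99) 14 (by norm_num) (by norm_num) (by norm_num) (by norm_num))
    (exp_neg_leJ (r := 0.99) 14 (by norm_num) (by norm_num) (by norm_num) (by norm_num))
    (by norm_num)) (by norm_num) hN hβ.le (by norm_num)

private theorem JB6_k1a_b6_4 {β x y : ℝ} (hβ : 0 < β) (hN : β * 9.907 ≤ 1) (hx1 : 0.7656 ≤ x) (hx2 : x ≤ 0.8279)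
    (hy1 : -0 ≤ y) (hy2 : y ≤ 0.254) : ‖HH β (x + y * I) - 1‖ ≤ 0.045 := by
  refine le_epsJ (C := 0.4416) (N0 := 9.907) (J_boxp 0.7656 0.8279 0 0.254 0.254 1.2491 0.866 1.5027 0.8781 0.4891 3.1476 9.907 0.6933 2.509 1.365 1.1016 0.6245 0.4802 1.2703 3.6151 0.7009 1.5341 2.0124 2.6923 0.002059 0.008601 0.000003428 0.0000003101 0.0009682 0.0000003101 0.0000003101 0.0000003101 0.4416
    hβ hN hx1 hx2 hy1 hy2 (by norm_num) (by norm_num) (by linarith) (by norm_num) (by norm_num) (by norm_num) (by norm_num) (by norm_num) (by norm_num) (by norm_num) (by norm_num) (by norm_num) (by norm_num) (by norm_num) (by norm_num) (by norm_num) (by norm_num) (by norm_num) (by norm_num) (by norm_num) (by norm_num) (by norm_num) (by norm_num) (by norm_num)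
    (cube_sqrt_geJ (s := 0.8768) (by norm_num) (by norm_num) (by norm_num) (by norm_num))
    (cube_sqrt_geJ (s := 0.9566) (by norm_num) (by norm_num) (by norm_num) (by norm_num))
    (by norm_num) (by norm_num) (by norm_num) (by norm_num) (by norm_num) (by norm_num) (by norm_num) (by norm_num) (by norm_num) (by norm_num) (by norm_num) (by norm_num) (by norm_num) (by norm_num) (by norm_num) (by norm_num) (by norm_num) (by norm_num)
    (exp_neg_leJ (r := 0.186) 6 (by norm_num) (by norm_num) (by norm_num) (by norm_num))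
    (exp_neg_leJ (r := 0.757) 4 (by norm_num) (by norm_num) (by norm_num) (by norm_num))
    (exp_neg_leJ (r := 0.584) 12 (by norm_num) (by norm_num) (by norm_num) (by norm_num))
    (exp_neg_leJ (r := 0.99) 14 (by norm_num) (by norm_num) (by norm_num) (by norm_num))
    (exp_neg_leJ (r := 0.943) 6 (by norm_num) (by norm_num) (by norm_num) (by norm_num))
    (exp_neg_leJ (r := 0.99) 14 (by norm_num) (by norm_num) (by norm_num) (by norm_num))
    (exp_neg_leJ (r := 0.99) 14 (by norm_num) (by norm_num) (by norm_num) (by norm_num))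
    (exp_neg_leJ (r := 0.99) 14 (by norm_num) (by norm_num) (by norm_num) (by norm_num))
    (by norm_num)) (by norm_num) hN hβ.le (by norm_num)

private theorem JB6_k1a_b6_5 {β x y : ℝ} (hβ : 0 < β) (hN : β * 9.907 ≤ 1) (hx1 : 0.7525 ≤ x) (hx2 : x ≤ 0.7984)
    (hy1 : -0 ≤ y) (hy2 : y ≤ 0.265) : ‖HH β (x + y * I) - 1‖ ≤ 0.045 := by
  refine le_epsJ (C := 0.4304) (N0 := 9.907) (J_boxp 0.7525 0.7984 0 0.265 0.265 1.2399 0.8413 1.4959 0.8859 0.488 3.1476 9.907 0.6786 2.454 1.355 1.113 0.6199 0.4797 1.2658 3.6309 0.6935 1.5148 1.9391 2.6814 0.002153 0.008644 0.000003582 0.0000003101 0.001041 0.0000003101 0.0000003101 0.0000003101 0.4304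
    hβ hN hx1 hx2 hy1 hy2 (by norm_num) (by norm_num) (by linarith) (by norm_num) (by norm_num) (by norm_num) (by norm_num) (by norm_num) (by norm_num) (by norm_num) (by norm_num) (by norm_num) (by norm_num) (by norm_num) (by norm_num) (by norm_num) (by norm_num) (by norm_num) (by norm_num) (by norm_num) (by norm_num) (by norm_num) (by norm_num) (by norm_num)
    (cube_sqrt_geJ (s := 0.8796) (by norm_num) (by norm_num) (by norm_num) (by norm_num))
    (cube_sqrt_geJ (s := 0.9575) (by norm_num) (by norm_num) (by norm_num) (by norm_num))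
    (by norm_num) (by norm_num) (by norm_num) (by norm_num) (by norm_num) (by norm_num) (by norm_num) (by norm_num) (by norm_num) (by norm_num) (by norm_num) (by norm_num) (by norm_num) (by norm_num) (by norm_num) (by norm_num) (by norm_num) (by norm_num)
    (exp_neg_leJ (r := 0.141) 6 (by norm_num) (by norm_num) (by norm_num) (by norm_num))
    (exp_neg_leJ (r := 0.752) 4 (by norm_num) (by norm_num) (by norm_num) (by norm_num))
    (exp_neg_leJ (r := 0.54) 12 (by norm_num) (by norm_num) (by norm_num) (by norm_num))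
    (exp_neg_leJ (r := 0.99) 14 (by norm_num) (by norm_num) (by norm_num) (by norm_num))
    (exp_neg_leJ (r := 0.87) 6 (by norm_num) (by norm_num) (by norm_num) (by norm_num))
    (exp_neg_leJ (r := 0.99) 14 (by norm_num) (by norm_num) (by norm_num) (by norm_num))
    (exp_neg_leJ (r := 0.99) 14 (by norm_num) (by norm_num) (by norm_num) (by norm_num))
    (exp_neg_leJ (r := 0.99) 14 (by norm_num) (by norm_num) (by norm_num) (by norm_num))
    (by norm_num)) (by norm_num) hN hβ.le (by norm_num)

theorem JB6_k1a_c6 {κ t β : ℝ} (h : DomR κ t) (hβ : 0 < β) (hk1 : 1.04 ≤ κ) (hk2 : κ ≤ 1.08)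
    (ht1 : 0.04 ≤ t + κ) (ht2 : t + κ ≤ 0.62) (hR0 : β * 10 ≤ κ) (hR : β * (4.95 * (1 + κ ^ 2)) ≤ κ) :
    ‖HH β (sg κ t) - 1‖ ≤ 0.045 := by
  have hN : β * 9.907 ≤ 1 := bNC' hβ hk1 (by norm_num) (by norm_num) hR (by norm_num)
  have hy1 : 0.019 ≤ sy κ t := syR_ge h 1.04 1.08 0.04 0.019 1.01918 1.01919 0.01793 0.01862 hk1 hk2 (by linarith) (by norm_num) (by norm_num)
    (expn_ge (by norm_num) (by norm_num)) (expn_le (by norm_num) (by norm_num) (by norm_num)) (by norm_num)
    (by norm_num) (by norm_num) (by norm_num) (by norm_num) (by norm_num) (by norm_num)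
  have hy2 : sy κ t ≤ 0.265 := syR_le h 1.04 1.08 0.62 0.265 1.30343 0.3167 0.31982 0.33213 hk1 hk2 (by linarith) (by norm_num) (by norm_num)
    (expn_ge (by norm_num) (by norm_num)) (by norm_num) (by norm_num) (Or.inr ((mul_le_mul_of_nonneg_left (expn_le (E := 1.30344) (by norm_num) (by norm_num) (by norm_num)) (by norm_num)).trans (by norm_num))) (by norm_num) (by norm_num) (by norm_num)
  rcases le_total (sy κ t) 0.089 with f0 | g0
  · have hx1 : 0.9472 ≤ sx κ t := sx_lo h 1.04 0.089 0.089 0.91484 0.9472 hk1 (by norm_num) f0 (abs_le.2 ⟨by linarith, by linarith⟩) (expm_ge (by norm_num) (by norm_num) (by norm_num) (by norm_num)) (by norm_num) (by norm_num)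
    have hx2 : sx κ t ≤ 1.0596 := sx_hi h 1.08 0.019 0.019 0.98118 1.0596 hk2 hy1 (by norm_num) (by rw [abs_of_nonneg (by linarith)]; linarith) (expm_le (by norm_num) (by norm_num) (by norm_num)) (by norm_num) (by norm_num)
    exact JB6_k1a_b6_0 hβ hN hx1 hx2 (by linarith) (by linarith)
  rcases le_total (sy κ t) 0.149 with f1 | g1
  · have hx1 : 0.8835 ≤ sx κ t := sx_lo h 1.04 0.149 0.149 0.86156 0.8835 hk1 (by norm_num) f1 (abs_le.2 ⟨by linarith, by linarith⟩) (expm_ge (by norm_num) (by norm_num) (by norm_num) (by norm_num)) (by norm_num) (by norm_num)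
    have hx2 : sx κ t ≤ 0.9841 := sx_hi h 1.08 0.089 0.089 0.91485 0.9841 hk2 g0 (by norm_num) (by rw [abs_of_nonneg (by linarith)]; linarith) (expm_le (by norm_num) (by norm_num) (by norm_num)) (by norm_num) (by norm_num)
    exact JB6_k1a_b6_1 hβ hN hx1 hx2 (by linarith) (by linarith)
  rcases le_total (sy κ t) 0.194 with f2 | g2
  · have hx1 : 0.8343 ≤ sx κ t := sx_lo h 1.04 0.194 0.194 0.82365 0.8343 hk1 (by norm_num) f2 (abs_le.2 ⟨by linarith, by linarith⟩) (expm_ge (by norm_num) (by norm_num) (by norm_num) (by norm_num)) (by norm_num) (by norm_num)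
    have hx2 : sx κ t ≤ 0.9185 := sx_hi h 1.08 0.149 0.149 0.86157 0.9185 hk2 g1 (by norm_num) (by rw [abs_of_nonneg (by linarith)]; linarith) (expm_le (by norm_num) (by norm_num) (by norm_num)) (by norm_num) (by norm_num)
    exact JB6_k1a_b6_2 hβ hN hx1 hx2 (by linarith) (by linarith)
  rcases le_total (sy κ t) 0.229 with f3 | g3
  · have hx1 : 0.7948 ≤ sx κ t := sx_lo h 1.04 0.229 0.229 0.79532 0.7948 hk1 (by norm_num) f3 (abs_le.2 ⟨by linarith, by linarith⟩) (expm_ge (by norm_num) (by norm_num) (by norm_num) (by norm_num)) (by norm_num) (by norm_num)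
    have hx2 : sx κ t ≤ 0.8682 := sx_hi h 1.08 0.194 0.194 0.82366 0.8682 hk2 g2 (by norm_num) (by rw [abs_of_nonneg (by linarith)]; linarith) (expm_le (by norm_num) (by norm_num) (by norm_num)) (by norm_num) (by norm_num)
    exact JB6_k1a_b6_3 hβ hN hx1 hx2 (by linarith) (by linarith)
  rcases le_total (sy κ t) 0.254 with f4 | g4
  · have hx1 : 0.7656 ≤ sx κ t := sx_lo h 1.04 0.254 0.254 0.77569 0.7656 hk1 (by norm_num) f4 (abs_le.2 ⟨by linarith, by linarith⟩) (expm_ge (by norm_num) (by norm_num) (by norm_num) (by norm_num)) (by norm_num) (by norm_num)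
    have hx2 : sx κ t ≤ 0.8279 := sx_hi h 1.08 0.229 0.229 0.79533 0.8279 hk2 g3 (by norm_num) (by rw [abs_of_nonneg (by linarith)]; linarith) (expm_le (by norm_num) (by norm_num) (by norm_num)) (by norm_num) (by norm_num)
    exact JB6_k1a_b6_4 hβ hN hx1 hx2 (by linarith) (by linarith)
  have hx1 : 0.7525 ≤ sx κ t := sx_lo h 1.04 0.265 0.265 0.7672 0.7525 hk1 (by norm_num) hy2 (abs_le.2 ⟨by linarith, by linarith⟩) (expm_ge (by norm_num) (by norm_num) (by norm_num) (by norm_num)) (by norm_num) (by norm_num)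
  have hx2 : sx κ t ≤ 0.7984 := sx_hi h 1.08 0.254 0.254 0.7757 0.7984 hk2 g4 (by norm_num) (by rw [abs_of_nonneg (by linarith)]; linarith) (expm_le (by norm_num) (by norm_num) (by norm_num)) (by norm_num) (by norm_num)
  exact JB6_k1a_b6_5 hβ hN hx1 hx2 (by linarith) (by linarith)

private theorem JB6_k1a_b7_0 {β x y : ℝ} (hβ : 0 < β) (hN : β * 9.929 ≤ 1) (hx1 : 0.9894 ≤ x) (hx2 : x ≤ 1.0988)
    (hy1 : -0 ≤ y) (hy2 : y ≤ 0.084) : ‖HH β (x + y * I) - 1‖ ≤ 0.045 := by
  refine le_epsJ (C := 0.442) (N0 := 9.929) (J_boxp 0.9894 1.0988 0 0.084 0.084 1.4067 1.1021 1.5436 0.7447 0.4957 3.1511 9.929 0.7835 2.885 1.424 0.9975 0.7033 0.5196 1.3469 3.4679 0.827 1.8613 3.1892 3.2992 0.0009307 0.005748 0.000001557 0.0000003101 0.0002717 0.0000003101 0.0000003101 0.0000003101 0.442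
    hβ hN hx1 hx2 hy1 hy2 (by norm_num) (by norm_num) (by linarith) (by norm_num) (by norm_num) (by norm_num) (by norm_num) (by norm_num) (by norm_num) (by norm_num) (by norm_num) (by norm_num) (by norm_num) (by norm_num) (by norm_num) (by norm_num) (by norm_num) (by norm_num) (by norm_num) (by norm_num) (by norm_num) (by norm_num) (by norm_num) (by norm_num)
    (cube_sqrt_geJ (s := 0.8595) (by norm_num) (by norm_num) (by norm_num) (by norm_num))
    (cube_sqrt_geJ (s := 0.9508) (by norm_num) (by norm_num) (by norm_num) (by norm_num))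
    (by norm_num) (by norm_num) (by norm_num) (by norm_num) (by norm_num) (by norm_num) (by norm_num) (by norm_num) (by norm_num) (by norm_num) (by norm_num) (by norm_num) (by norm_num) (by norm_num) (by norm_num) (by norm_num) (by norm_num) (by norm_num)
    (exp_neg_leJ (r := 0.983) 6 (by norm_num) (by norm_num) (by norm_num) (by norm_num))
    (exp_neg_leJ (r := 0.159) 5 (by norm_num) (by norm_num) (by norm_num) (by norm_num))
    (exp_neg_leJ (r := 0.373) 13 (by norm_num) (by norm_num) (by norm_num) (by norm_num))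
    (exp_neg_leJ (r := 0.99) 14 (by norm_num) (by norm_num) (by norm_num) (by norm_num))
    (exp_neg_leJ (r := 0.211) 8 (by norm_num) (by norm_num) (by norm_num) (by norm_num))
    (exp_neg_leJ (r := 0.99) 14 (by norm_num) (by norm_num) (by norm_num) (by norm_num))
    (exp_neg_leJ (r := 0.99) 14 (by norm_num) (by norm_num) (by norm_num) (by norm_num))
    (exp_neg_leJ (r := 0.99) 14 (by norm_num) (by norm_num) (by norm_num) (by norm_num))
    (by norm_num)) (by norm_num) hN hβ.le (by norm_num)

private theorem JB6_k1a_b7_1 {β x y : ℝ} (hβ : 0 < β) (hN : β * 9.929 ≤ 1) (hx1 : 0.9239 ≤ x) (hx2 : x ≤ 1.0264)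
    (hy1 : -0 ≤ y) (hy2 : y ≤ 0.144) : ‖HH β (x + y * I) - 1‖ ≤ 0.045 := by
  refine le_epsJ (C := 0.4452) (N0 := 9.929) (J_boxp 0.9239 1.0264 0 0.144 0.144 1.3606 1.0365 1.537 0.7812 0.4946 3.1511 9.929 0.7618 2.789 1.409 1.0253 0.6802 0.5075 1.3245 3.5079 0.789 1.7645 2.8008 3.0638 0.001169 0.006487 0.000001946 0.0000003101 0.0003972 0.0000003101 0.0000003101 0.0000003101 0.4452
    hβ hN hx1 hx2 hy1 hy2 (by norm_num) (by norm_num) (by linarith) (by norm_num) (by norm_num) (by norm_num) (by norm_num) (by norm_num) (by norm_num) (by norm_num) (by norm_num) (by norm_num) (by norm_num) (by norm_num) (by norm_num) (by norm_num) (by norm_num) (by norm_num) (by norm_num) (by norm_num) (by norm_num) (by norm_num) (by norm_num) (by norm_num)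
    (cube_sqrt_geJ (s := 0.8637) (by norm_num) (by norm_num) (by norm_num) (by norm_num))
    (cube_sqrt_geJ (s := 0.9522) (by norm_num) (by norm_num) (by norm_num) (by norm_num))
    (by norm_num) (by norm_num) (by norm_num) (by norm_num) (by norm_num) (by norm_num) (by norm_num) (by norm_num) (by norm_num) (by norm_num) (by norm_num) (by norm_num) (by norm_num) (by norm_num) (by norm_num) (by norm_num) (by norm_num) (by norm_num)
    (exp_neg_leJ (r := 0.753) 6 (by norm_num) (by norm_num) (by norm_num) (by norm_num))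
    (exp_neg_leJ (r := 0.038) 5 (by norm_num) (by norm_num) (by norm_num) (by norm_num))
    (exp_neg_leJ (r := 0.15) 13 (by norm_num) (by norm_num) (by norm_num) (by norm_num))
    (exp_neg_leJ (r := 0.99) 14 (by norm_num) (by norm_num) (by norm_num) (by norm_num))
    (exp_neg_leJ (r := 0.833) 7 (by norm_num) (by norm_num) (by norm_num) (by norm_num))
    (exp_neg_leJ (r := 0.99) 14 (by norm_num) (by norm_num) (by norm_num) (by norm_num))
    (exp_neg_leJ (r := 0.99) 14 (by norm_num) (by norm_num) (by norm_num) (by norm_num))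
    (exp_neg_leJ (r := 0.99) 14 (by norm_num) (by norm_num) (by norm_num) (by norm_num))
    (by norm_num)) (by norm_num) hN hβ.le (by norm_num)

private theorem JB6_k1a_b7_2 {β x y : ℝ} (hβ : 0 < β) (hN : β * 9.929 ≤ 1) (hx1 : 0.8681 ≤ x) (hx2 : x ≤ 0.9591)
    (hy1 : -0 ≤ y) (hy2 : y ≤ 0.194) : ‖HH β (x + y * I) - 1‖ ≤ 0.045 := by
  refine le_epsJ (C := 0.4467) (N0 := 9.929) (J_boxp 0.8681 0.9591 0 0.194 0.194 1.3213 0.9786 1.5316 0.8149 0.4938 3.1511 9.929 0.7407 2.698 1.395 1.0512 0.6606 0.4975 1.3054 3.5443 0.7568 1.6821 2.4748 2.874 0.001418 0.007182 0.000002358 0.0000003101 0.0005456 0.0000003101 0.0000003101 0.0000003101 0.4467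
    hβ hN hx1 hx2 hy1 hy2 (by norm_num) (by norm_num) (by linarith) (by norm_num) (by norm_num) (by norm_num) (by norm_num) (by norm_num) (by norm_num) (by norm_num) (by norm_num) (by norm_num) (by norm_num) (by norm_num) (by norm_num) (by norm_num) (by norm_num) (by norm_num) (by norm_num) (by norm_num) (by norm_num) (by norm_num) (by norm_num) (by norm_num)
    (cube_sqrt_geJ (s := 0.8678) (by norm_num) (by norm_num) (by norm_num) (by norm_num))
    (cube_sqrt_geJ (s := 0.9535) (by norm_num) (by norm_num) (by norm_num) (by norm_num))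
    (by norm_num) (by norm_num) (by norm_num) (by norm_num) (by norm_num) (by norm_num) (by norm_num) (by norm_num) (by norm_num) (by norm_num) (by norm_num) (by norm_num) (by norm_num) (by norm_num) (by norm_num) (by norm_num) (by norm_num) (by norm_num)
    (exp_neg_leJ (r := 0.559) 6 (by norm_num) (by norm_num) (by norm_num) (by norm_num))
    (exp_neg_leJ (r := 0.939) 4 (by norm_num) (by norm_num) (by norm_num) (by norm_num))
    (exp_neg_leJ (r := 0.961) 12 (by norm_num) (by norm_num) (by norm_num) (by norm_num))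
    (exp_neg_leJ (r := 0.99) 14 (by norm_num) (by norm_num) (by norm_num) (by norm_num))
    (exp_neg_leJ (r := 0.514) 7 (by norm_num) (by norm_num) (by norm_num) (by norm_num))
    (exp_neg_leJ (r := 0.99) 14 (by norm_num) (by norm_num) (by norm_num) (by norm_num))
    (exp_neg_leJ (r := 0.99) 14 (by norm_num) (by norm_num) (by norm_num) (by norm_num))
    (exp_neg_leJ (r := 0.99) 14 (by norm_num) (by norm_num) (by norm_num) (by norm_num))
    (by norm_num)) (by norm_num) hN hβ.le (by norm_num)

private theorem JB6_k1a_b7_3 {β x y : ℝ} (hβ : 0 < β) (hN : β * 9.929 ≤ 1) (hx1 : 0.8278 ≤ x) (hx2 : x ≤ 0.9019)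
    (hy1 : -0 ≤ y) (hy2 : y ≤ 0.229) : ‖HH β (x + y * I) - 1‖ ≤ 0.045 := by
  refine le_epsJ (C := 0.4413) (N0 := 9.929) (J_boxp 0.8278 0.9019 0 0.229 0.229 1.2929 0.9306 1.5245 0.8399 0.4926 3.1511 9.929 0.7198 2.613 1.382 1.0732 0.6464 0.4913 1.2916 3.5749 0.7337 1.6228 2.2441 2.7589 0.001633 0.007629 0.0000027 0.0000003101 0.0006865 0.0000003101 0.0000003101 0.0000003101 0.4413
    hβ hN hx1 hx2 hy1 hy2 (by norm_num) (by norm_num) (by linarith) (by norm_num) (by norm_num) (by norm_num) (by norm_num) (by norm_num) (by norm_num) (by norm_num) (by norm_num) (by norm_num) (by norm_num) (by norm_num) (by norm_num) (by norm_num) (by norm_num) (by norm_num) (by norm_num) (by norm_num) (by norm_num) (by norm_num) (by norm_num) (by norm_num)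
    (cube_sqrt_geJ (s := 0.8718) (by norm_num) (by norm_num) (by norm_num) (by norm_num))
    (cube_sqrt_geJ (s := 0.9549) (by norm_num) (by norm_num) (by norm_num) (by norm_num))
    (by norm_num) (by norm_num) (by norm_num) (by norm_num) (by norm_num) (by norm_num) (by norm_num) (by norm_num) (by norm_num) (by norm_num) (by norm_num) (by norm_num) (by norm_num) (by norm_num) (by norm_num) (by norm_num) (by norm_num) (by norm_num)
    (exp_neg_leJ (r := 0.418) 6 (by norm_num) (by norm_num) (by norm_num) (by norm_num))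
    (exp_neg_leJ (r := 0.878) 4 (by norm_num) (by norm_num) (by norm_num) (by norm_num))
    (exp_neg_leJ (r := 0.824) 12 (by norm_num) (by norm_num) (by norm_num) (by norm_num))
    (exp_neg_leJ (r := 0.99) 14 (by norm_num) (by norm_num) (by norm_num) (by norm_num))
    (exp_neg_leJ (r := 0.284) 7 (by norm_num) (by norm_num) (by norm_num) (by norm_num))
    (exp_neg_leJ (r := 0.99) 14 (by norm_num) (by norm_num) (by norm_num) (by norm_num))
    (exp_neg_leJ (r := 0.99) 14 (by norm_num) (by norm_num) (by norm_num) (by norm_num))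
    (exp_neg_leJ (r := 0.99) 14 (by norm_num) (by norm_num) (by norm_num) (by norm_num))
    (by norm_num)) (by norm_num) hN hβ.le (by norm_num)

private theorem JB6_k1a_b7_4 {β x y : ℝ} (hβ : 0 < β) (hN : β * 9.929 ≤ 1) (hx1 : 0.7983 ≤ x) (hx2 : x ≤ 0.8609)
    (hy1 : -0 ≤ y) (hy2 : y ≤ 0.254) : ‖HH β (x + y * I) - 1‖ ≤ 0.045 := by
  refine le_epsJ (C := 0.44) (N0 := 9.929) (J_boxp 0.7983 0.8609 0 0.254 0.254 1.2721 0.8976 1.5211 0.8597 0.4921 3.1511 9.929 0.7057 2.557 1.373 1.089 0.636 0.4864 1.2815 3.5964 0.7168 1.5794 2.0778 2.6718 0.001811 0.008008 0.000002982 0.0000003101 0.0008113 0.0000003101 0.0000003101 0.0000003101 0.44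
    hβ hN hx1 hx2 hy1 hy2 (by norm_num) (by norm_num) (by linarith) (by norm_num) (by norm_num) (by norm_num) (by norm_num) (by norm_num) (by norm_num) (by norm_num) (by norm_num) (by norm_num) (by norm_num) (by norm_num) (by norm_num) (by norm_num) (by norm_num) (by norm_num) (by norm_num) (by norm_num) (by norm_num) (by norm_num) (by norm_num) (by norm_num)
    (cube_sqrt_geJ (s := 0.8745) (by norm_num) (by norm_num) (by norm_num) (by norm_num))
    (cube_sqrt_geJ (s := 0.9558) (by norm_num) (by norm_num) (by norm_num) (by norm_num))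
    (by norm_num) (by norm_num) (by norm_num) (by norm_num) (by norm_num) (by norm_num) (by norm_num) (by norm_num) (by norm_num) (by norm_num) (by norm_num) (by norm_num) (by norm_num) (by norm_num) (by norm_num) (by norm_num) (by norm_num) (by norm_num)
    (exp_neg_leJ (r := 0.314) 6 (by norm_num) (by norm_num) (by norm_num) (by norm_num))
    (exp_neg_leJ (r := 0.829) 4 (by norm_num) (by norm_num) (by norm_num) (by norm_num))
    (exp_neg_leJ (r := 0.724) 12 (by norm_num) (by norm_num) (by norm_num) (by norm_num))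
    (exp_neg_leJ (r := 0.99) 14 (by norm_num) (by norm_num) (by norm_num) (by norm_num))
    (exp_neg_leJ (r := 0.117) 7 (by norm_num) (by norm_num) (by norm_num) (by norm_num))
    (exp_neg_leJ (r := 0.99) 14 (by norm_num) (by norm_num) (by norm_num) (by norm_num))
    (exp_neg_leJ (r := 0.99) 14 (by norm_num) (by norm_num) (by norm_num) (by norm_num))
    (exp_neg_leJ (r := 0.99) 14 (by norm_num) (by norm_num) (by norm_num) (by norm_num))
    (by norm_num)) (by norm_num) hN hβ.le (by norm_num)

private theorem JB6_k1a_b7_5 {β x y : ℝ} (hβ : 0 < β) (hN : β * 9.929 ≤ 1) (hx1 : 0.7826 ≤ x) (hx2 : x ≤ 0.8309)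
    (hy1 : -0 ≤ y) (hy2 : y ≤ 0.267) : ‖HH β (x + y * I) - 1‖ ≤ 0.045 := by
  refine le_epsJ (C := 0.4313) (N0 := 9.929) (J_boxp 0.7826 0.8309 0 0.267 0.267 1.2611 0.8728 1.5152 0.8692 0.4911 3.1511 9.929 0.6921 2.505 1.364 1.1005 0.6305 0.485 1.2761 3.6123 0.7079 1.5563 1.9907 2.6466 0.001912 0.00812 0.000003147 0.0000003101 0.0008868 0.0000003101 0.0000003101 0.0000003101 0.4313
    hβ hN hx1 hx2 hy1 hy2 (by norm_num) (by norm_num) (by linarith) (by norm_num) (by norm_num) (by norm_num) (by norm_num) (by norm_num) (by norm_num) (by norm_num) (by norm_num) (by norm_num) (by norm_num) (by norm_num) (by norm_num) (by norm_num) (by norm_num) (by norm_num) (by norm_num) (by norm_num) (by norm_num) (by norm_num) (by norm_num) (by norm_num)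
    (cube_sqrt_geJ (s := 0.877) (by norm_num) (by norm_num) (by norm_num) (by norm_num))
    (cube_sqrt_geJ (s := 0.9566) (by norm_num) (by norm_num) (by norm_num) (by norm_num))
    (by norm_num) (by norm_num) (by norm_num) (by norm_num) (by norm_num) (by norm_num) (by norm_num) (by norm_num) (by norm_num) (by norm_num) (by norm_num) (by norm_num) (by norm_num) (by norm_num) (by norm_num) (by norm_num) (by norm_num) (by norm_num)
    (exp_neg_leJ (r := 0.26) 6 (by norm_num) (by norm_num) (by norm_num) (by norm_num))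
    (exp_neg_leJ (r := 0.815) 4 (by norm_num) (by norm_num) (by norm_num) (by norm_num))
    (exp_neg_leJ (r := 0.67) 12 (by norm_num) (by norm_num) (by norm_num) (by norm_num))
    (exp_neg_leJ (r := 0.99) 14 (by norm_num) (by norm_num) (by norm_num) (by norm_num))
    (exp_neg_leJ (r := 0.028) 7 (by norm_num) (by norm_num) (by norm_num) (by norm_num))
    (exp_neg_leJ (r := 0.99) 14 (by norm_num) (by norm_num) (by norm_num) (by norm_num))
    (exp_neg_leJ (r := 0.99) 14 (by norm_num) (by norm_num) (by norm_num) (by norm_num))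
    (exp_neg_leJ (r := 0.99) 14 (by norm_num) (by norm_num) (by norm_num) (by norm_num))
    (by norm_num)) (by norm_num) hN hβ.le (by norm_num)

theorem JB6_k1a_c7 {κ t β : ℝ} (h : DomR κ t) (hβ : 0 < β) (hk1 : 1.08 ≤ κ) (hk2 : κ ≤ 1.12)
    (ht1 : 0.04 ≤ t + κ) (ht2 : t + κ ≤ 0.62) (hR0 : β * 10 ≤ κ) (hR : β * (4.95 * (1 + κ ^ 2)) ≤ κ) :
    ‖HH β (sg κ t) - 1‖ ≤ 0.045 := by
  have hN : β * 9.929 ≤ 1 := bNC' hβ hk1 (by norm_num) (by norm_num) hR (by norm_num)
  have hy1 : 0.019 ≤ sy κ t := syR_ge h 1.08 1.12 0.04 0.019 1.01918 1.01919 0.01728 0.01794 hk1 hk2 (by linarith) (by norm_num) (by norm_num)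
    (expn_ge (by norm_num) (by norm_num)) (expn_le (by norm_num) (by norm_num) (by norm_num)) (by norm_num)
    (by norm_num) (by norm_num) (by norm_num) (by norm_num) (by norm_num) (by norm_num)
  have hy2 : sy κ t ≤ 0.267 := syR_le h 1.08 1.12 0.62 0.267 1.30604 0.3084 0.31135 0.32289 hk1 hk2 (by linarith) (by norm_num) (by norm_num)
    (expn_ge (by norm_num) (by norm_num)) (by norm_num) (by norm_num) (Or.inr ((mul_le_mul_of_nonneg_left (expn_le (E := 1.30605) (by norm_num) (by norm_num) (by norm_num)) (by norm_num)).trans (by norm_num))) (by norm_num) (by norm_num) (by norm_num)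
  rcases le_total (sy κ t) 0.084 with f0 | g0
  · have hx1 : 0.9894 ≤ sx κ t := sx_lo h 1.08 0.084 0.084 0.91943 0.9894 hk1 (by norm_num) f0 (abs_le.2 ⟨by linarith, by linarith⟩) (expm_ge (by norm_num) (by norm_num) (by norm_num) (by norm_num)) (by norm_num) (by norm_num)
    have hx2 : sx κ t ≤ 1.0988 := sx_hi h 1.12 0.019 0.019 0.98118 1.0988 hk2 hy1 (by norm_num) (by rw [abs_of_nonneg (by linarith)]; linarith) (expm_le (by norm_num) (by norm_num) (by norm_num)) (by norm_num) (by norm_num)
    exact JB6_k1a_b7_0 hβ hN hx1 hx2 (by linarith) (by linarith)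
  rcases le_total (sy κ t) 0.144 with f1 | g1
  · have hx1 : 0.9239 ≤ sx κ t := sx_lo h 1.08 0.144 0.144 0.86588 0.9239 hk1 (by norm_num) f1 (abs_le.2 ⟨by linarith, by linarith⟩) (expm_ge (by norm_num) (by norm_num) (by norm_num) (by norm_num)) (by norm_num) (by norm_num)
    have hx2 : sx κ t ≤ 1.0264 := sx_hi h 1.12 0.084 0.084 0.91944 1.0264 hk2 g0 (by norm_num) (by rw [abs_of_nonneg (by linarith)]; linarith) (expm_le (by norm_num) (by norm_num) (by norm_num)) (by norm_num) (by norm_num)
    exact JB6_k1a_b7_1 hβ hN hx1 hx2 (by linarith) (by linarith)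
  rcases le_total (sy κ t) 0.194 with f2 | g2
  · have hx1 : 0.8681 ≤ sx κ t := sx_lo h 1.08 0.194 0.194 0.82365 0.8681 hk1 (by norm_num) f2 (abs_le.2 ⟨by linarith, by linarith⟩) (expm_ge (by norm_num) (by norm_num) (by norm_num) (by norm_num)) (by norm_num) (by norm_num)
    have hx2 : sx κ t ≤ 0.9591 := sx_hi h 1.12 0.144 0.144 0.86589 0.9591 hk2 g1 (by norm_num) (by rw [abs_of_nonneg (by linarith)]; linarith) (expm_le (by norm_num) (by norm_num) (by norm_num)) (by norm_num) (by norm_num)
    exact JB6_k1a_b7_2 hβ hN hx1 hx2 (by linarith) (by linarith)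
  rcases le_total (sy κ t) 0.229 with f3 | g3
  · have hx1 : 0.8278 ≤ sx κ t := sx_lo h 1.08 0.229 0.229 0.79532 0.8278 hk1 (by norm_num) f3 (abs_le.2 ⟨by linarith, by linarith⟩) (expm_ge (by norm_num) (by norm_num) (by norm_num) (by norm_num)) (by norm_num) (by norm_num)
    have hx2 : sx κ t ≤ 0.9019 := sx_hi h 1.12 0.194 0.194 0.82366 0.9019 hk2 g2 (by norm_num) (by rw [abs_of_nonneg (by linarith)]; linarith) (expm_le (by norm_num) (by norm_num) (by norm_num)) (by norm_num) (by norm_num)
    exact JB6_k1a_b7_3 hβ hN hx1 hx2 (by linarith) (by linarith)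
  rcases le_total (sy κ t) 0.254 with f4 | g4
  · have hx1 : 0.7983 ≤ sx κ t := sx_lo h 1.08 0.254 0.254 0.77569 0.7983 hk1 (by norm_num) f4 (abs_le.2 ⟨by linarith, by linarith⟩) (expm_ge (by norm_num) (by norm_num) (by norm_num) (by norm_num)) (by norm_num) (by norm_num)
    have hx2 : sx κ t ≤ 0.8609 := sx_hi h 1.12 0.229 0.229 0.79533 0.8609 hk2 g3 (by norm_num) (by rw [abs_of_nonneg (by linarith)]; linarith) (expm_le (by norm_num) (by norm_num) (by norm_num)) (by norm_num) (by norm_num)
    exact JB6_k1a_b7_4 hβ hN hx1 hx2 (by linarith) (by linarith)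
  have hx1 : 0.7826 ≤ sx κ t := sx_lo h 1.08 0.267 0.267 0.76567 0.7826 hk1 (by norm_num) hy2 (abs_le.2 ⟨by linarith, by linarith⟩) (expm_ge (by norm_num) (by norm_num) (by norm_num) (by norm_num)) (by norm_num) (by norm_num)
  have hx2 : sx κ t ≤ 0.8309 := sx_hi h 1.12 0.254 0.254 0.7757 0.8309 hk2 g4 (by norm_num) (by rw [abs_of_nonneg (by linarith)]; linarith) (expm_le (by norm_num) (by norm_num) (by norm_num)) (by norm_num) (by norm_num)
  exact JB6_k1a_b7_5 hβ hN hx1 hx2 (by linarith) (by linarith)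

private theorem JB6_k1a_b8_0 {β x y : ℝ} (hβ : 0 < β) (hN : β * 9.963 ≤ 1) (hx1 : 1.0263 ≤ x) (hx2 : x ≤ 1.1381)
    (hy1 : -0 ≤ y) (hy2 : y ≤ 0.084) : ‖HH β (x + y * I) - 1‖ ≤ 0.045 := by
  refine le_epsJ (C := 0.445) (N0 := 9.963) (J_boxp 1.0263 1.1381 0 0.084 0.084 1.4327 1.1412 1.5718 0.7311 0.5002 3.1565 9.963 0.7966 2.946 1.433 0.9823 0.7163 0.5261 1.3595 3.4452 0.8449 1.9124 3.263 3.2667 0.000796 0.005296 0.000001313 0.0000003101 0.0002211 0.0000003101 0.0000003101 0.0000003101 0.445
    hβ hN hx1 hx2 hy1 hy2 (by norm_num) (by norm_num) (by linarith) (by norm_num) (by norm_num) (by norm_num) (by norm_num) (by norm_num) (by norm_num) (by norm_num) (by norm_num) (by norm_num) (by norm_num) (by norm_num) (by norm_num) (by norm_num) (by norm_num) (by norm_num) (by norm_num) (by norm_num) (by norm_num) (by norm_num) (by norm_num) (by norm_num)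
    (cube_sqrt_geJ (s := 0.857) (by norm_num) (by norm_num) (by norm_num) (by norm_num))
    (cube_sqrt_geJ (s := 0.9499) (by norm_num) (by norm_num) (by norm_num) (by norm_num))
    (by norm_num) (by norm_num) (by norm_num) (by norm_num) (by norm_num) (by norm_num) (by norm_num) (by norm_num) (by norm_num) (by norm_num) (by norm_num) (by norm_num) (by norm_num) (by norm_num) (by norm_num) (by norm_num) (by norm_num) (by norm_num)
    (exp_neg_leJ (r := 0.136) 7 (by norm_num) (by norm_num) (by norm_num) (by norm_num))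
    (exp_neg_leJ (r := 0.241) 5 (by norm_num) (by norm_num) (by norm_num) (by norm_num))
    (exp_neg_leJ (r := 0.544) 13 (by norm_num) (by norm_num) (by norm_num) (by norm_num))
    (exp_neg_leJ (r := 0.99) 14 (by norm_num) (by norm_num) (by norm_num) (by norm_num))
    (exp_neg_leJ (r := 0.417) 8 (by norm_num) (by norm_num) (by norm_num) (by norm_num))
    (exp_neg_leJ (r := 0.99) 14 (by norm_num) (by norm_num) (by norm_num) (by norm_num))
    (exp_neg_leJ (r := 0.99) 14 (by norm_num) (by norm_num) (by norm_num) (by norm_num))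
    (exp_neg_leJ (r := 0.99) 14 (by norm_num) (by norm_num) (by norm_num) (by norm_num))
    (by norm_num)) (by norm_num) hN hβ.le (by norm_num)

private theorem JB6_k1a_b8_1 {β x y : ℝ} (hβ : 0 < β) (hN : β * 9.963 ≤ 1) (hx1 : 0.959 ≤ x) (hx2 : x ≤ 1.0633)
    (hy1 : -0 ≤ y) (hy2 : y ≤ 0.144) : ‖HH β (x + y * I) - 1‖ ≤ 0.045 := by
  refine le_epsJ (C := 0.4471) (N0 := 9.963) (J_boxp 0.959 1.0633 0 0.144 0.144 1.3853 1.0731 1.5619 0.7665 0.4986 3.1565 9.963 0.7747 2.846 1.418 1.0111 0.6926 0.5137 1.3365 3.4866 0.8061 1.8131 2.871 3.0345 0.001011 0.005995 0.00000165 0.0000003101 0.0003253 0.0000003101 0.0000003101 0.0000003101 0.4471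
    hβ hN hx1 hx2 hy1 hy2 (by norm_num) (by norm_num) (by linarith) (by norm_num) (by norm_num) (by norm_num) (by norm_num) (by norm_num) (by norm_num) (by norm_num) (by norm_num) (by norm_num) (by norm_num) (by norm_num) (by norm_num) (by norm_num) (by norm_num) (by norm_num) (by norm_num) (by norm_num) (by norm_num) (by norm_num) (by norm_num) (by norm_num)
    (cube_sqrt_geJ (s := 0.8612) (by norm_num) (by norm_num) (by norm_num) (by norm_num))
    (cube_sqrt_geJ (s := 0.9513) (by norm_num) (by norm_num) (by norm_num) (by norm_num))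
    (by norm_num) (by norm_num) (by norm_num) (by norm_num) (by norm_num) (by norm_num) (by norm_num) (by norm_num) (by norm_num) (by norm_num) (by norm_num) (by norm_num) (by norm_num) (by norm_num) (by norm_num) (by norm_num) (by norm_num) (by norm_num)
    (exp_neg_leJ (r := 0.9) 6 (by norm_num) (by norm_num) (by norm_num) (by norm_num))
    (exp_neg_leJ (r := 0.117) 5 (by norm_num) (by norm_num) (by norm_num) (by norm_num))
    (exp_neg_leJ (r := 0.315) 13 (by norm_num) (by norm_num) (by norm_num) (by norm_num))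
    (exp_neg_leJ (r := 0.99) 14 (by norm_num) (by norm_num) (by norm_num) (by norm_num))
    (exp_neg_leJ (r := 0.031) 8 (by norm_num) (by norm_num) (by norm_num) (by norm_num))
    (exp_neg_leJ (r := 0.99) 14 (by norm_num) (by norm_num) (by norm_num) (by norm_num))
    (exp_neg_leJ (r := 0.99) 14 (by norm_num) (by norm_num) (by norm_num) (by norm_num))
    (exp_neg_leJ (r := 0.99) 14 (by norm_num) (by norm_num) (by norm_num) (by norm_num))
    (by norm_num)) (by norm_num) hN hβ.le (by norm_num)

private theorem JB6_k1a_b8_2 {β x y : ℝ} (hβ : 0 < β) (hN : β * 9.963 ≤ 1) (hx1 : 0.9018 ≤ x) (hx2 : x ≤ 0.9941)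
    (hy1 : -0 ≤ y) (hy2 : y ≤ 0.194) : ‖HH β (x + y * I) - 1‖ ≤ 0.045 := by
  refine le_epsJ (C := 0.4469) (N0 := 9.963) (J_boxp 0.9018 0.9941 0 0.194 0.194 1.345 1.0129 1.5537 0.7991 0.4973 3.1565 9.963 0.7531 2.751 1.404 1.0377 0.6724 0.5036 1.3169 3.5242 0.7732 1.7288 2.5422 2.8481 0.001234 0.006625 0.000002005 0.0000003101 0.0004519 0.0000003101 0.0000003101 0.0000003101 0.4469
    hβ hN hx1 hx2 hy1 hy2 (by norm_num) (by norm_num) (by linarith) (by norm_num) (by norm_num) (by norm_num) (by norm_num) (by norm_num) (by norm_num) (by norm_num) (by norm_num) (by norm_num) (by norm_num) (by norm_num) (by norm_num) (by norm_num) (by norm_num) (by norm_num) (by norm_num) (by norm_num) (by norm_num) (by norm_num) (by norm_num) (by norm_num)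
    (cube_sqrt_geJ (s := 0.8654) (by norm_num) (by norm_num) (by norm_num) (by norm_num))
    (cube_sqrt_geJ (s := 0.9527) (by norm_num) (by norm_num) (by norm_num) (by norm_num))
    (by norm_num) (by norm_num) (by norm_num) (by norm_num) (by norm_num) (by norm_num) (by norm_num) (by norm_num) (by norm_num) (by norm_num) (by norm_num) (by norm_num) (by norm_num) (by norm_num) (by norm_num) (by norm_num) (by norm_num) (by norm_num)
    (exp_neg_leJ (r := 0.699) 6 (by norm_num) (by norm_num) (by norm_num) (by norm_num))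
    (exp_neg_leJ (r := 0.017) 5 (by norm_num) (by norm_num) (by norm_num) (by norm_num))
    (exp_neg_leJ (r := 0.12) 13 (by norm_num) (by norm_num) (by norm_num) (by norm_num))
    (exp_neg_leJ (r := 0.99) 14 (by norm_num) (by norm_num) (by norm_num) (by norm_num))
    (exp_neg_leJ (r := 0.703) 7 (by norm_num) (by norm_num) (by norm_num) (by norm_num))
    (exp_neg_leJ (r := 0.99) 14 (by norm_num) (by norm_num) (by norm_num) (by norm_num))
    (exp_neg_leJ (r := 0.99) 14 (by norm_num) (by norm_num) (by norm_num) (by norm_num))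
    (exp_neg_leJ (r := 0.99) 14 (by norm_num) (by norm_num) (by norm_num) (by norm_num))
    (by norm_num)) (by norm_num) hN hβ.le (by norm_num)

private theorem JB6_k1a_b8_3 {β x y : ℝ} (hβ : 0 < β) (hN : β * 9.963 ≤ 1) (hx1 : 0.8608 ≤ x) (hx2 : x ≤ 0.9356)
    (hy1 : -0 ≤ y) (hy2 : y ≤ 0.229) : ‖HH β (x + y * I) - 1‖ ≤ 0.045 := by
  refine le_epsJ (C := 0.4407) (N0 := 9.963) (J_boxp 0.8608 0.9356 0 0.229 0.229 1.3161 0.9633 1.5446 0.8232 0.4959 3.1565 9.963 0.732 2.663 1.39 1.0602 0.658 0.4974 1.3029 3.5556 0.7497 1.6685 2.3101 2.736 0.001424 0.00707 0.000002314 0.0000003101 0.0005706 0.0000003101 0.0000003101 0.0000003101 0.4407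
    hβ hN hx1 hx2 hy1 hy2 (by norm_num) (by norm_num) (by linarith) (by norm_num) (by norm_num) (by norm_num) (by norm_num) (by norm_num) (by norm_num) (by norm_num) (by norm_num) (by norm_num) (by norm_num) (by norm_num) (by norm_num) (by norm_num) (by norm_num) (by norm_num) (by norm_num) (by norm_num) (by norm_num) (by norm_num) (by norm_num) (by norm_num)
    (cube_sqrt_geJ (s := 0.8694) (by norm_num) (by norm_num) (by norm_num) (by norm_num))
    (cube_sqrt_geJ (s := 0.9541) (by norm_num) (by norm_num) (by norm_num) (by norm_num))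
    (by norm_num) (by norm_num) (by norm_num) (by norm_num) (by norm_num) (by norm_num) (by norm_num) (by norm_num) (by norm_num) (by norm_num) (by norm_num) (by norm_num) (by norm_num) (by norm_num) (by norm_num) (by norm_num) (by norm_num) (by norm_num)
    (exp_neg_leJ (r := 0.555) 6 (by norm_num) (by norm_num) (by norm_num) (by norm_num))
    (exp_neg_leJ (r := 0.955) 4 (by norm_num) (by norm_num) (by norm_num) (by norm_num))
    (exp_neg_leJ (r := 0.98) 12 (by norm_num) (by norm_num) (by norm_num) (by norm_num))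
    (exp_neg_leJ (r := 0.99) 14 (by norm_num) (by norm_num) (by norm_num) (by norm_num))
    (exp_neg_leJ (r := 0.469) 7 (by norm_num) (by norm_num) (by norm_num) (by norm_num))
    (exp_neg_leJ (r := 0.99) 14 (by norm_num) (by norm_num) (by norm_num) (by norm_num))
    (exp_neg_leJ (r := 0.99) 14 (by norm_num) (by norm_num) (by norm_num) (by norm_num))
    (exp_neg_leJ (r := 0.99) 14 (by norm_num) (by norm_num) (by norm_num) (by norm_num))
    (by norm_num)) (by norm_num) hN hβ.le (by norm_num)

private theorem JB6_k1a_b8_4 {β x y : ℝ} (hβ : 0 < β) (hN : β * 9.963 ≤ 1) (hx1 : 0.8247 ≤ x) (hx2 : x ≤ 0.8938)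
    (hy1 : -0 ≤ y) (hy2 : y ≤ 0.259) : ‖HH β (x + y * I) - 1‖ ≤ 0.045 := by
  refine le_epsJ (C := 0.4466) (N0 := 9.963) (J_boxp 0.8247 0.8938 0 0.259 0.259 1.2907 0.9306 1.5441 0.8475 0.4958 3.1565 9.963 0.7211 2.618 1.383 1.0763 0.6453 0.4902 1.2905 3.5773 0.7291 1.6154 2.1092 2.6114 0.001615 0.007591 0.000002613 0.0000003101 0.0007004 0.0000003101 0.0000003101 0.0000003101 0.4466
    hβ hN hx1 hx2 hy1 hy2 (by norm_num) (by norm_num) (by linarith) (by norm_num) (by norm_num) (by norm_num) (by norm_num) (by norm_num) (by norm_num) (by norm_num) (by norm_num) (by norm_num) (by norm_num) (by norm_num) (by norm_num) (by norm_num) (by norm_num) (by norm_num) (by norm_num) (by norm_num) (by norm_num) (by norm_num) (by norm_num) (by norm_num)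
    (cube_sqrt_geJ (s := 0.8715) (by norm_num) (by norm_num) (by norm_num) (by norm_num))
    (cube_sqrt_geJ (s := 0.9548) (by norm_num) (by norm_num) (by norm_num) (by norm_num))
    (by norm_num) (by norm_num) (by norm_num) (by norm_num) (by norm_num) (by norm_num) (by norm_num) (by norm_num) (by norm_num) (by norm_num) (by norm_num) (by norm_num) (by norm_num) (by norm_num) (by norm_num) (by norm_num) (by norm_num) (by norm_num)
    (exp_neg_leJ (r := 0.429) 6 (by norm_num) (by norm_num) (by norm_num) (by norm_num))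
    (exp_neg_leJ (r := 0.883) 4 (by norm_num) (by norm_num) (by norm_num) (by norm_num))
    (exp_neg_leJ (r := 0.857) 12 (by norm_num) (by norm_num) (by norm_num) (by norm_num))
    (exp_neg_leJ (r := 0.99) 14 (by norm_num) (by norm_num) (by norm_num) (by norm_num))
    (exp_neg_leJ (r := 0.264) 7 (by norm_num) (by norm_num) (by norm_num) (by norm_num))
    (exp_neg_leJ (r := 0.99) 14 (by norm_num) (by norm_num) (by norm_num) (by norm_num))
    (exp_neg_leJ (r := 0.99) 14 (by norm_num) (by norm_num) (by norm_num) (by norm_num))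
    (exp_neg_leJ (r := 0.99) 14 (by norm_num) (by norm_num) (by norm_num) (by norm_num))
    (by norm_num)) (by norm_num) hN hβ.le (by norm_num)

private theorem JB6_k1a_b8_5 {β x y : ℝ} (hβ : 0 < β) (hN : β * 9.963 ≤ 1) (hx1 : 0.8136 ≤ x) (hx2 : x ≤ 0.8571)
    (hy1 : -0 ≤ y) (hy2 : y ≤ 0.268) : ‖HH β (x + y * I) - 1‖ ≤ 0.045 := by
  refine le_epsJ (C := 0.4248) (N0 := 9.963) (J_boxp 0.8136 0.8571 0 0.268 0.268 1.2829 0.8981 1.5306 0.8515 0.4936 3.1565 9.963 0.7001 2.536 1.369 1.0904 0.6414 0.4917 1.2867 3.5974 0.7228 1.5991 2.0484 2.6351 0.001679 0.007479 0.000002714 0.0000003101 0.0007459 0.0000003101 0.0000003101 0.0000003101 0.4248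
    hβ hN hx1 hx2 hy1 hy2 (by norm_num) (by norm_num) (by linarith) (by norm_num) (by norm_num) (by norm_num) (by norm_num) (by norm_num) (by norm_num) (by norm_num) (by norm_num) (by norm_num) (by norm_num) (by norm_num) (by norm_num) (by norm_num) (by norm_num) (by norm_num) (by norm_num) (by norm_num) (by norm_num) (by norm_num) (by norm_num) (by norm_num)
    (cube_sqrt_geJ (s := 0.8755) (by norm_num) (by norm_num) (by norm_num) (by norm_num))
    (cube_sqrt_geJ (s := 0.9561) (by norm_num) (by norm_num) (by norm_num) (by norm_num))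
    (by norm_num) (by norm_num) (by norm_num) (by norm_num) (by norm_num) (by norm_num) (by norm_num) (by norm_num) (by norm_num) (by norm_num) (by norm_num) (by norm_num) (by norm_num) (by norm_num) (by norm_num) (by norm_num) (by norm_num) (by norm_num)
    (exp_neg_leJ (r := 0.39) 6 (by norm_num) (by norm_num) (by norm_num) (by norm_num))
    (exp_neg_leJ (r := 0.898) 4 (by norm_num) (by norm_num) (by norm_num) (by norm_num))
    (exp_neg_leJ (r := 0.819) 12 (by norm_num) (by norm_num) (by norm_num) (by norm_num))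
    (exp_neg_leJ (r := 0.99) 14 (by norm_num) (by norm_num) (by norm_num) (by norm_num))
    (exp_neg_leJ (r := 0.201) 7 (by norm_num) (by norm_num) (by norm_num) (by norm_num))
    (exp_neg_leJ (r := 0.99) 14 (by norm_num) (by norm_num) (by norm_num) (by norm_num))
    (exp_neg_leJ (r := 0.99) 14 (by norm_num) (by norm_num) (by norm_num) (by norm_num))
    (exp_neg_leJ (r := 0.99) 14 (by norm_num) (by norm_num) (by norm_num) (by norm_num))
    (by norm_num)) (by norm_num) hN hβ.le (by norm_num)

theorem JB6_k1a_c8 {κ t β : ℝ} (h : DomR κ t) (hβ : 0 < β) (hk1 : 1.12 ≤ κ) (hk2 : κ ≤ 1.16)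
    (ht1 : 0.04 ≤ t + κ) (ht2 : t + κ ≤ 0.62) (hR0 : β * 10 ≤ κ) (hR : β * (4.95 * (1 + κ ^ 2)) ≤ κ) :
    ‖HH β (sg κ t) - 1‖ ≤ 0.045 := by
  have hN : β * 9.963 ≤ 1 := bNC' hβ hk1 (by norm_num) (by norm_num) hR (by norm_num)
  have hy1 : 0.019 ≤ sy κ t := syR_ge h 1.12 1.16 0.04 0.019 1.01918 1.01919 0.01669 0.01729 hk1 hk2 (by linarith) (by norm_num) (by norm_num)
    (expn_ge (by norm_num) (by norm_num)) (expn_le (by norm_num) (by norm_num) (by norm_num)) (by norm_num)
    (by norm_num) (by norm_num) (by norm_num) (by norm_num) (by norm_num) (by norm_num)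
  have hy2 : sy κ t ≤ 0.268 := syR_le h 1.12 1.16 0.62 0.268 1.30734 0.2993 0.30204 0.31284 hk1 hk2 (by linarith) (by norm_num) (by norm_num)
    (expn_ge (by norm_num) (by norm_num)) (by norm_num) (by norm_num) (Or.inr ((mul_le_mul_of_nonneg_left (expn_le (E := 1.30735) (by norm_num) (by norm_num) (by norm_num)) (by norm_num)).trans (by norm_num))) (by norm_num) (by norm_num) (by norm_num)
  rcases le_total (sy κ t) 0.084 with f0 | g0
  · have hx1 : 1.0263 ≤ sx κ t := sx_lo h 1.12 0.084 0.084 0.91943 1.0263 hk1 (by norm_num) f0 (abs_le.2 ⟨by linarith, by linarith⟩) (expm_ge (by norm_num) (by norm_num) (by norm_num) (by norm_num)) (by norm_num) (by norm_num)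
    have hx2 : sx κ t ≤ 1.1381 := sx_hi h 1.16 0.019 0.019 0.98118 1.1381 hk2 hy1 (by norm_num) (by rw [abs_of_nonneg (by linarith)]; linarith) (expm_le (by norm_num) (by norm_num) (by norm_num)) (by norm_num) (by norm_num)
    exact JB6_k1a_b8_0 hβ hN hx1 hx2 (by linarith) (by linarith)
  rcases le_total (sy κ t) 0.144 with f1 | g1
  · have hx1 : 0.959 ≤ sx κ t := sx_lo h 1.12 0.144 0.144 0.86588 0.959 hk1 (by norm_num) f1 (abs_le.2 ⟨by linarith, by linarith⟩) (expm_ge (by norm_num) (by norm_num) (by norm_num) (by norm_num)) (by norm_num) (by norm_num)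
    have hx2 : sx κ t ≤ 1.0633 := sx_hi h 1.16 0.084 0.084 0.91944 1.0633 hk2 g0 (by norm_num) (by rw [abs_of_nonneg (by linarith)]; linarith) (expm_le (by norm_num) (by norm_num) (by norm_num)) (by norm_num) (by norm_num)
    exact JB6_k1a_b8_1 hβ hN hx1 hx2 (by linarith) (by linarith)
  rcases le_total (sy κ t) 0.194 with f2 | g2
  · have hx1 : 0.9018 ≤ sx κ t := sx_lo h 1.12 0.194 0.194 0.82365 0.9018 hk1 (by norm_num) f2 (abs_le.2 ⟨by linarith, by linarith⟩) (expm_ge (by norm_num) (by norm_num) (by norm_num) (by norm_num)) (by norm_num) (by norm_num)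
    have hx2 : sx κ t ≤ 0.9941 := sx_hi h 1.16 0.144 0.144 0.86589 0.9941 hk2 g1 (by norm_num) (by rw [abs_of_nonneg (by linarith)]; linarith) (expm_le (by norm_num) (by norm_num) (by norm_num)) (by norm_num) (by norm_num)
    exact JB6_k1a_b8_2 hβ hN hx1 hx2 (by linarith) (by linarith)
  rcases le_total (sy κ t) 0.229 with f3 | g3
  · have hx1 : 0.8608 ≤ sx κ t := sx_lo h 1.12 0.229 0.229 0.79532 0.8608 hk1 (by norm_num) f3 (abs_le.2 ⟨by linarith, by linarith⟩) (expm_ge (by norm_num) (by norm_num) (by norm_num) (by norm_num)) (by norm_num) (by norm_num)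
    have hx2 : sx κ t ≤ 0.9356 := sx_hi h 1.16 0.194 0.194 0.82366 0.9356 hk2 g2 (by norm_num) (by rw [abs_of_nonneg (by linarith)]; linarith) (expm_le (by norm_num) (by norm_num) (by norm_num)) (by norm_num) (by norm_num)
    exact JB6_k1a_b8_3 hβ hN hx1 hx2 (by linarith) (by linarith)
  rcases le_total (sy κ t) 0.259 with f4 | g4
  · have hx1 : 0.8247 ≤ sx κ t := sx_lo h 1.12 0.259 0.259 0.77182 0.8247 hk1 (by norm_num) f4 (abs_le.2 ⟨by linarith, by linarith⟩) (expm_ge (by norm_num) (by norm_num) (by norm_num) (by norm_num)) (by norm_num) (by norm_num)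
    have hx2 : sx κ t ≤ 0.8938 := sx_hi h 1.16 0.229 0.229 0.79533 0.8938 hk2 g3 (by norm_num) (by rw [abs_of_nonneg (by linarith)]; linarith) (expm_le (by norm_num) (by norm_num) (by norm_num)) (by norm_num) (by norm_num)
    exact JB6_k1a_b8_4 hβ hN hx1 hx2 (by linarith) (by linarith)
  have hx1 : 0.8136 ≤ sx κ t := sx_lo h 1.12 0.268 0.268 0.7649 0.8136 hk1 (by norm_num) hy2 (abs_le.2 ⟨by linarith, by linarith⟩) (expm_ge (by norm_num) (by norm_num) (by norm_num) (by norm_num)) (by norm_num) (by norm_num)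
  have hx2 : sx κ t ≤ 0.8571 := sx_hi h 1.16 0.259 0.259 0.77183 0.8571 hk2 g4 (by norm_num) (by rw [abs_of_nonneg (by linarith)]; linarith) (expm_le (by norm_num) (by norm_num) (by norm_num)) (by norm_num) (by norm_num)
  exact JB6_k1a_b8_5 hβ hN hx1 hx2 (by linarith) (by linarith)
end Sok
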