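import Pool.Agent.Lib.MP_816dec_an.JBG2

/-!
MP_816dec_an (A3, row R1): tables b = 6, real points.
-/

set_option autoImplicit false
set_option maxHeartbeats 4000000

open Complex Set

namespace Sok

private theorem JB6_k1a_b9_0 {β x y : ℝ} (hβ : 0 < β) (hN : β * 10.009 ≤ 1) (hx1 : 1.0632 ≤ x) (hx2 : x ≤ 1.1773)
    (hy1 : -0 ≤ y) (hy2 : y ≤ 0.084) : ‖HH β (x + y * I) - 1‖ ≤ 0.045 := by
  refine le_epsJ (C := 0.4476) (N0 := 10.009) (J_boxp 1.0632 1.1773 0 0.084 0.084 1.4587 1.1803 1.6004 0.7181 0.5047 3.1638 10.009 0.8092 3.005 1.441 0.9673 0.7293 0.5326 1.3722 3.4226 0.8628 1.9635 3.3368 3.2342 0.0006763 0.004845 0.000001086 0.0000003101 0.0001779 0.0000003101 0.0000003101 0.0000003101 0.4476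
    hβ hN hx1 hx2 hy1 hy2 (by norm_num) (by norm_num) (by linarith) (by norm_num) (by norm_num) (by norm_num) (by norm_num) (by norm_num) (by norm_num) (by norm_num) (by norm_num) (by norm_num) (by norm_num) (by norm_num) (by norm_num) (by norm_num) (by norm_num) (by norm_num) (by norm_num) (by norm_num) (by norm_num) (by norm_num) (by norm_num) (by norm_num)
    (cube_sqrt_geJ (s := 0.8545) (by norm_num) (by norm_num) (by norm_num) (by norm_num))
    (cube_sqrt_geJ (s := 0.9491) (by norm_num) (by norm_num) (by norm_num) (by norm_num))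
    (by norm_num) (by norm_num) (by norm_num) (by norm_num) (by norm_num) (by norm_num) (by norm_num) (by norm_num) (by norm_num) (by norm_num) (by norm_num) (by norm_num) (by norm_num) (by norm_num) (by norm_num) (by norm_num) (by norm_num) (by norm_num)
    (exp_neg_leJ (r := 0.299) 7 (by norm_num) (by norm_num) (by norm_num) (by norm_num))
    (exp_neg_leJ (r := 0.33) 5 (by norm_num) (by norm_num) (by norm_num) (by norm_num))
    (exp_neg_leJ (r := 0.734) 13 (by norm_num) (by norm_num) (by norm_num) (by norm_num))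
    (exp_neg_leJ (r := 0.99) 14 (by norm_num) (by norm_num) (by norm_num) (by norm_num))
    (exp_neg_leJ (r := 0.635) 8 (by norm_num) (by norm_num) (by norm_num) (by norm_num))
    (exp_neg_leJ (r := 0.99) 14 (by norm_num) (by norm_num) (by norm_num) (by norm_num))
    (exp_neg_leJ (r := 0.99) 14 (by norm_num) (by norm_num) (by norm_num) (by norm_num))
    (exp_neg_leJ (r := 0.99) 14 (by norm_num) (by norm_num) (by norm_num) (by norm_num))
    (by norm_num)) (by norm_num) hN hβ.le (by norm_num)

private theorem JB6_k1a_b9_1 {β x y : ℝ} (hβ : 0 < β) (hN : β * 10.009 ≤ 1) (hx1 : 0.994 ≤ x) (hx2 : x ≤ 1.1002)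
    (hy1 : -0 ≤ y) (hy2 : y ≤ 0.144) : ‖HH β (x + y * I) - 1‖ ≤ 0.045 := by
  refine le_epsJ (C := 0.4488) (N0 := 10.009) (J_boxp 0.994 1.1002 0 0.144 0.144 1.4099 1.1096 1.5872 0.7526 0.5027 3.1638 10.009 0.7871 2.902 1.426 0.9969 0.7049 0.5199 1.3485 3.4654 0.8231 1.8616 2.941 3.0053 0.0008631 0.005501 0.000001376 0.0000003101 0.0002645 0.0000003101 0.0000003101 0.0000003101 0.4488
    hβ hN hx1 hx2 hy1 hy2 (by norm_num) (by norm_num) (by linarith) (by norm_num) (by norm_num) (by norm_num) (by norm_num) (by norm_num) (by norm_num) (by norm_num) (by norm_num) (by norm_num) (by norm_num) (by norm_num) (by norm_num) (by norm_num) (by norm_num) (by norm_num) (by norm_num) (by norm_num) (by norm_num) (by norm_num) (by norm_num) (by norm_num)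
    (cube_sqrt_geJ (s := 0.8588) (by norm_num) (by norm_num) (by norm_num) (by norm_num))
    (cube_sqrt_geJ (s := 0.9505) (by norm_num) (by norm_num) (by norm_num) (by norm_num))
    (by norm_num) (by norm_num) (by norm_num) (by norm_num) (by norm_num) (by norm_num) (by norm_num) (by norm_num) (by norm_num) (by norm_num) (by norm_num) (by norm_num) (by norm_num) (by norm_num) (by norm_num) (by norm_num) (by norm_num) (by norm_num)
    (exp_neg_leJ (r := 0.055) 7 (by norm_num) (by norm_num) (by norm_num) (by norm_num))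
    (exp_neg_leJ (r := 0.203) 5 (by norm_num) (by norm_num) (by norm_num) (by norm_num))
    (exp_neg_leJ (r := 0.497) 13 (by norm_num) (by norm_num) (by norm_num) (by norm_num))
    (exp_neg_leJ (r := 0.99) 14 (by norm_num) (by norm_num) (by norm_num) (by norm_num))
    (exp_neg_leJ (r := 0.238) 8 (by norm_num) (by norm_num) (by norm_num) (by norm_num))
    (exp_neg_leJ (r := 0.99) 14 (by norm_num) (by norm_num) (by norm_num) (by norm_num))
    (exp_neg_leJ (r := 0.99) 14 (by norm_num) (by norm_num) (by norm_num) (by norm_num))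
    (exp_neg_leJ (r := 0.99) 14 (by norm_num) (by norm_num) (by norm_num) (by norm_num))
    (by norm_num)) (by norm_num) hN hβ.le (by norm_num)

private theorem JB6_k1a_b9_2 {β x y : ℝ} (hβ : 0 < β) (hN : β * 10.009 ≤ 1) (hx1 : 0.9355 ≤ x) (hx2 : x ≤ 1.0291)
    (hy1 : -0 ≤ y) (hy2 : y ≤ 0.194) : ‖HH β (x + y * I) - 1‖ ≤ 0.045 := by
  refine le_epsJ (C := 0.4474) (N0 := 10.009) (J_boxp 0.9355 1.0291 0 0.194 0.194 1.3687 1.0473 1.5763 0.7841 0.5009 3.1638 10.009 0.7652 2.804 1.412 1.0243 0.6843 0.5097 1.3285 3.5042 0.7896 1.7755 2.6096 2.822 0.001063 0.006091 0.000001682 0.0000003101 0.0003706 0.0000003101 0.0000003101 0.0000003101 0.4474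
    hβ hN hx1 hx2 hy1 hy2 (by norm_num) (by norm_num) (by linarith) (by norm_num) (by norm_num) (by norm_num) (by norm_num) (by norm_num) (by norm_num) (by norm_num) (by norm_num) (by norm_num) (by norm_num) (by norm_num) (by norm_num) (by norm_num) (by norm_num) (by norm_num) (by norm_num) (by norm_num) (by norm_num) (by norm_num) (by norm_num) (by norm_num)
    (cube_sqrt_geJ (s := 0.863) (by norm_num) (by norm_num) (by norm_num) (by norm_num))
    (cube_sqrt_geJ (s := 0.952) (by norm_num) (by norm_num) (by norm_num) (by norm_num))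
    (by norm_num) (by norm_num) (by norm_num) (by norm_num) (by norm_num) (by norm_num) (by norm_num) (by norm_num) (by norm_num) (by norm_num) (by norm_num) (by norm_num) (by norm_num) (by norm_num) (by norm_num) (by norm_num) (by norm_num) (by norm_num)
    (exp_neg_leJ (r := 0.849) 6 (by norm_num) (by norm_num) (by norm_num) (by norm_num))
    (exp_neg_leJ (r := 0.101) 5 (by norm_num) (by norm_num) (by norm_num) (by norm_num))
    (exp_neg_leJ (r := 0.296) 13 (by norm_num) (by norm_num) (by norm_num) (by norm_num))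
    (exp_neg_leJ (r := 0.99) 14 (by norm_num) (by norm_num) (by norm_num) (by norm_num))
    (exp_neg_leJ (r := 0.903) 7 (by norm_num) (by norm_num) (by norm_num) (by norm_num))
    (exp_neg_leJ (r := 0.99) 14 (by norm_num) (by norm_num) (by norm_num) (by norm_num))
    (exp_neg_leJ (r := 0.99) 14 (by norm_num) (by norm_num) (by norm_num) (by norm_num))
    (exp_neg_leJ (r := 0.99) 14 (by norm_num) (by norm_num) (by norm_num) (by norm_num))
    (by norm_num)) (by norm_num) hN hβ.le (by norm_num)

private theorem JB6_k1a_b9_3 {β x y : ℝ} (hβ : 0 < β) (hN : β * 10.009 ≤ 1) (hx1 : 0.8876 ≤ x) (hx2 : x ≤ 0.9692)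
    (hy1 : -0 ≤ y) (hy2 : y ≤ 0.234) : ‖HH β (x + y * I) - 1‖ ≤ 0.045 := by
  refine le_epsJ (C := 0.4472) (N0 := 10.009) (J_boxp 0.8876 0.9692 0 0.234 0.234 1.335 0.9971 1.5692 0.8122 0.4998 3.1638 10.009 0.7469 2.724 1.399 1.0473 0.6674 0.5013 1.3121 3.5362 0.7622 1.7051 2.3422 2.6742 0.001257 0.006625 0.000001981 0.0000003101 0.0004869 0.0000003101 0.0000003101 0.0000003101 0.4472
    hβ hN hx1 hx2 hy1 hy2 (by norm_num) (by norm_num) (by linarith) (by norm_num) (by norm_num) (by norm_num) (by norm_num) (by norm_num) (by norm_num) (by norm_num) (by norm_num) (by norm_num) (by norm_num) (by norm_num) (by norm_num) (by norm_num) (by norm_num) (by norm_num) (by norm_num) (by norm_num) (by norm_num) (by norm_num) (by norm_num) (by norm_num)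
    (cube_sqrt_geJ (s := 0.8666) (by norm_num) (by norm_num) (by norm_num) (by norm_num))
    (cube_sqrt_geJ (s := 0.9531) (by norm_num) (by norm_num) (by norm_num) (by norm_num))
    (by norm_num) (by norm_num) (by norm_num) (by norm_num) (by norm_num) (by norm_num) (by norm_num) (by norm_num) (by norm_num) (by norm_num) (by norm_num) (by norm_num) (by norm_num) (by norm_num) (by norm_num) (by norm_num) (by norm_num) (by norm_num)
    (exp_neg_leJ (r := 0.68) 6 (by norm_num) (by norm_num) (by norm_num) (by norm_num))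
    (exp_neg_leJ (r := 0.017) 5 (by norm_num) (by norm_num) (by norm_num) (by norm_num))
    (exp_neg_leJ (r := 0.132) 13 (by norm_num) (by norm_num) (by norm_num) (by norm_num))
    (exp_neg_leJ (r := 0.99) 14 (by norm_num) (by norm_num) (by norm_num) (by norm_num))
    (exp_neg_leJ (r := 0.628) 7 (by norm_num) (by norm_num) (by norm_num) (by norm_num))
    (exp_neg_leJ (r := 0.99) 14 (by norm_num) (by norm_num) (by norm_num) (by norm_num))
    (exp_neg_leJ (r := 0.99) 14 (by norm_num) (by norm_num) (by norm_num) (by norm_num))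
    (exp_neg_leJ (r := 0.99) 14 (by norm_num) (by norm_num) (by norm_num) (by norm_num))
    (by norm_num)) (by norm_num) hN hβ.le (by norm_num)

private theorem JB6_k1a_b9_4 {β x y : ℝ} (hβ : 0 < β) (hN : β * 10.009 ≤ 1) (hx1 : 0.8508 ≤ x) (hx2 : x ≤ 0.9204)
    (hy1 : -0 ≤ y) (hy2 : y ≤ 0.264) : ‖HH β (x + y * I) - 1‖ ≤ 0.045 := by
  refine le_epsJ (C := 0.4467) (N0 := 10.009) (J_boxp 0.8508 0.9204 0 0.264 0.264 1.3091 0.9576 1.5636 0.8349 0.4989 3.1638 10.009 0.7315 2.66 1.389 1.0661 0.6545 0.4949 1.2995 3.5619 0.7413 1.6511 2.14 2.5666 0.001431 0.007084 0.000002247 0.0000003101 0.0005999 0.0000003101 0.0000003101 0.0000003101 0.4467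
    hβ hN hx1 hx2 hy1 hy2 (by norm_num) (by norm_num) (by linarith) (by norm_num) (by norm_num) (by norm_num) (by norm_num) (by norm_num) (by norm_num) (by norm_num) (by norm_num) (by norm_num) (by norm_num) (by norm_num) (by norm_num) (by norm_num) (by norm_num) (by norm_num) (by norm_num) (by norm_num) (by norm_num) (by norm_num) (by norm_num) (by norm_num)
    (cube_sqrt_geJ (s := 0.8695) (by norm_num) (by norm_num) (by norm_num) (by norm_num))
    (cube_sqrt_geJ (s := 0.9541) (by norm_num) (by norm_num) (by norm_num) (by norm_num))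
    (by norm_num) (by norm_num) (by norm_num) (by norm_num) (by norm_num) (by norm_num) (by norm_num) (by norm_num) (by norm_num) (by norm_num) (by norm_num) (by norm_num) (by norm_num) (by norm_num) (by norm_num) (by norm_num) (by norm_num) (by norm_num)
    (exp_neg_leJ (r := 0.55) 6 (by norm_num) (by norm_num) (by norm_num) (by norm_num))
    (exp_neg_leJ (r := 0.953) 4 (by norm_num) (by norm_num) (by norm_num) (by norm_num))
    (exp_neg_leJ (r := 0.006) 13 (by norm_num) (by norm_num) (by norm_num) (by norm_num))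
    (exp_neg_leJ (r := 0.99) 14 (by norm_num) (by norm_num) (by norm_num) (by norm_num))
    (exp_neg_leJ (r := 0.419) 7 (by norm_num) (by norm_num) (by norm_num) (by norm_num))
    (exp_neg_leJ (r := 0.99) 14 (by norm_num) (by norm_num) (by norm_num) (by norm_num))
    (exp_neg_leJ (r := 0.99) 14 (by norm_num) (by norm_num) (by norm_num) (by norm_num))
    (exp_neg_leJ (r := 0.99) 14 (by norm_num) (by norm_num) (by norm_num) (by norm_num))
    (by norm_num)) (by norm_num) hN hβ.le (by norm_num)

private theorem JB6_k1a_b9_5 {β x y : ℝ} (hβ : 0 < β) (hN : β * 10.009 ≤ 1) (hx1 : 0.8445 ≤ x) (hx2 : x ≤ 0.883)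
    (hy1 : -0 ≤ y) (hy2 : y ≤ 0.269) : ‖HH β (x + y * I) - 1‖ ≤ 0.045 := by
  refine le_epsJ (C := 0.4181) (N0 := 10.009) (J_boxp 0.8445 0.883 0 0.269 0.269 1.3047 0.9231 1.546 0.8344 0.4961 3.1638 10.009 0.7076 2.565 1.374 1.0805 0.6523 0.4984 1.2973 3.5827 0.7377 1.6418 2.1059 2.6242 0.001463 0.006844 0.000002305 0.0000003101 0.0006218 0.0000003101 0.0000003101 0.0000003101 0.4181
    hβ hN hx1 hx2 hy1 hy2 (by norm_num) (by norm_num) (by linarith) (by norm_num) (by norm_num) (by norm_num) (by norm_num) (by norm_num) (by norm_num) (by norm_num) (by norm_num) (by norm_num) (by norm_num) (by norm_num) (by norm_num) (by norm_num) (by norm_num) (by norm_num) (by norm_num) (by norm_num) (by norm_num) (by norm_num) (by norm_num) (by norm_num)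
    (cube_sqrt_geJ (s := 0.8741) (by norm_num) (by norm_num) (by norm_num) (by norm_num))
    (cube_sqrt_geJ (s := 0.9556) (by norm_num) (by norm_num) (by norm_num) (by norm_num))
    (by norm_num) (by norm_num) (by norm_num) (by norm_num) (by norm_num) (by norm_num) (by norm_num) (by norm_num) (by norm_num) (by norm_num) (by norm_num) (by norm_num) (by norm_num) (by norm_num) (by norm_num) (by norm_num) (by norm_num) (by norm_num)
    (exp_neg_leJ (r := 0.528) 6 (by norm_num) (by norm_num) (by norm_num) (by norm_num))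
    (exp_neg_leJ (r := 0.988) 4 (by norm_num) (by norm_num) (by norm_num) (by norm_num))
    (exp_neg_leJ (r := 0.984) 12 (by norm_num) (by norm_num) (by norm_num) (by norm_num))
    (exp_neg_leJ (r := 0.99) 14 (by norm_num) (by norm_num) (by norm_num) (by norm_num))
    (exp_neg_leJ (r := 0.383) 7 (by norm_num) (by norm_num) (by norm_num) (by norm_num))
    (exp_neg_leJ (r := 0.99) 14 (by norm_num) (by norm_num) (by norm_num) (by norm_num))
    (exp_neg_leJ (r := 0.99) 14 (by norm_num) (by norm_num) (by norm_num) (by norm_num))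
    (exp_neg_leJ (r := 0.99) 14 (by norm_num) (by norm_num) (by norm_num) (by norm_num))
    (by norm_num)) (by norm_num) hN hβ.le (by norm_num)

theorem JB6_k1a_c9 {κ t β : ℝ} (h : DomR κ t) (hβ : 0 < β) (hk1 : 1.16 ≤ κ) (hk2 : κ ≤ 1.2)
    (ht1 : 0.04 ≤ t + κ) (ht2 : t + κ ≤ 0.62) (hR0 : β * 10 ≤ κ) (hR : β * (4.95 * (1 + κ ^ 2)) ≤ κ) :
    ‖HH β (sg κ t) - 1‖ ≤ 0.045 := by
  have hN : β * 10.009 ≤ 1 := bNC' hβ hk1 (by norm_num) (by norm_num) hR (by norm_num)
  have hy1 : 0.019 ≤ sy κ t := syR_ge h 1.16 1.2 0.04 0.019 1.01918 1.01919 0.01613 0.0167 hk1 hk2 (by linarith) (by norm_num) (by norm_num)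
    (expn_ge (by norm_num) (by norm_num)) (expn_le (by norm_num) (by norm_num) (by norm_num)) (by norm_num)
    (by norm_num) (by norm_num) (by norm_num) (by norm_num) (by norm_num) (by norm_num)
  have hy2 : sy κ t ≤ 0.269 := syR_le h 1.16 1.2 0.62 0.269 1.30865 0.2908 0.29335 0.30348 hk1 hk2 (by linarith) (by norm_num) (by norm_num)
    (expn_ge (by norm_num) (by norm_num)) (by norm_num) (by norm_num) (Or.inr ((mul_le_mul_of_nonneg_left (expn_le (E := 1.30866) (by norm_num) (by norm_num) (by norm_num)) (by norm_num)).trans (by norm_num))) (by norm_num) (by norm_num) (by norm_num)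
  rcases le_total (sy κ t) 0.084 with f0 | g0
  · have hx1 : 1.0632 ≤ sx κ t := sx_lo h 1.16 0.084 0.084 0.91943 1.0632 hk1 (by norm_num) f0 (abs_le.2 ⟨by linarith, by linarith⟩) (expm_ge (by norm_num) (by norm_num) (by norm_num) (by norm_num)) (by norm_num) (by norm_num)
    have hx2 : sx κ t ≤ 1.1773 := sx_hi h 1.2 0.019 0.019 0.98118 1.1773 hk2 hy1 (by norm_num) (by rw [abs_of_nonneg (by linarith)]; linarith) (expm_le (by norm_num) (by norm_num) (by norm_num)) (by norm_num) (by norm_num)
    exact JB6_k1a_b9_0 hβ hN hx1 hx2 (by linarith) (by linarith)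
  rcases le_total (sy κ t) 0.144 with f1 | g1
  · have hx1 : 0.994 ≤ sx κ t := sx_lo h 1.16 0.144 0.144 0.86588 0.994 hk1 (by norm_num) f1 (abs_le.2 ⟨by linarith, by linarith⟩) (expm_ge (by norm_num) (by norm_num) (by norm_num) (by norm_num)) (by norm_num) (by norm_num)
    have hx2 : sx κ t ≤ 1.1002 := sx_hi h 1.2 0.084 0.084 0.91944 1.1002 hk2 g0 (by norm_num) (by rw [abs_of_nonneg (by linarith)]; linarith) (expm_le (by norm_num) (by norm_num) (by norm_num)) (by norm_num) (by norm_num)
    exact JB6_k1a_b9_1 hβ hN hx1 hx2 (by linarith) (by linarith)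
  rcases le_total (sy κ t) 0.194 with f2 | g2
  · have hx1 : 0.9355 ≤ sx κ t := sx_lo h 1.16 0.194 0.194 0.82365 0.9355 hk1 (by norm_num) f2 (abs_le.2 ⟨by linarith, by linarith⟩) (expm_ge (by norm_num) (by norm_num) (by norm_num) (by norm_num)) (by norm_num) (by norm_num)
    have hx2 : sx κ t ≤ 1.0291 := sx_hi h 1.2 0.144 0.144 0.86589 1.0291 hk2 g1 (by norm_num) (by rw [abs_of_nonneg (by linarith)]; linarith) (expm_le (by norm_num) (by norm_num) (by norm_num)) (by norm_num) (by norm_num)
    exact JB6_k1a_b9_2 hβ hN hx1 hx2 (by linarith) (by linarith)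
  rcases le_total (sy κ t) 0.234 with f3 | g3
  · have hx1 : 0.8876 ≤ sx κ t := sx_lo h 1.16 0.234 0.234 0.79136 0.8876 hk1 (by norm_num) f3 (abs_le.2 ⟨by linarith, by linarith⟩) (expm_ge (by norm_num) (by norm_num) (by norm_num) (by norm_num)) (by norm_num) (by norm_num)
    have hx2 : sx κ t ≤ 0.9692 := sx_hi h 1.2 0.194 0.194 0.82366 0.9692 hk2 g2 (by norm_num) (by rw [abs_of_nonneg (by linarith)]; linarith) (expm_le (by norm_num) (by norm_num) (by norm_num)) (by norm_num) (by norm_num)
    exact JB6_k1a_b9_3 hβ hN hx1 hx2 (by linarith) (by linarith)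
  rcases le_total (sy κ t) 0.264 with f4 | g4
  · have hx1 : 0.8508 ≤ sx κ t := sx_lo h 1.16 0.264 0.264 0.76797 0.8508 hk1 (by norm_num) f4 (abs_le.2 ⟨by linarith, by linarith⟩) (expm_ge (by norm_num) (by norm_num) (by norm_num) (by norm_num)) (by norm_num) (by norm_num)
    have hx2 : sx κ t ≤ 0.9204 := sx_hi h 1.2 0.234 0.234 0.79137 0.9204 hk2 g3 (by norm_num) (by rw [abs_of_nonneg (by linarith)]; linarith) (expm_le (by norm_num) (by norm_num) (by norm_num)) (by norm_num) (by norm_num)
    exact JB6_k1a_b9_4 hβ hN hx1 hx2 (by linarith) (by linarith)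
  have hx1 : 0.8445 ≤ sx κ t := sx_lo h 1.16 0.269 0.269 0.76414 0.8445 hk1 (by norm_num) hy2 (abs_le.2 ⟨by linarith, by linarith⟩) (expm_ge (by norm_num) (by norm_num) (by norm_num) (by norm_num)) (by norm_num) (by norm_num)
  have hx2 : sx κ t ≤ 0.883 := sx_hi h 1.2 0.264 0.264 0.76798 0.883 hk2 g4 (by norm_num) (by rw [abs_of_nonneg (by linarith)]; linarith) (expm_le (by norm_num) (by norm_num) (by norm_num)) (by norm_num) (by norm_num)
  exact JB6_k1a_b9_5 hβ hN hx1 hx2 (by linarith) (by linarith)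

private theorem JB6_k1a_b10_0 {β x y : ℝ} (hβ : 0 < β) (hN : β * 10.064 ≤ 1) (hx1 : 1.1119 ≤ x) (hx2 : x ≤ 1.2264)
    (hy1 : -0 ≤ y) (hy2 : y ≤ 0.074) : ‖HH β (x + y * I) - 1‖ ≤ 0.045 := by
  refine le_epsJ (C := 0.4477) (N0 := 10.064) (J_boxp 1.1119 1.2264 0 0.074 0.074 1.4929 1.2287 1.6302 0.7 0.5094 3.1724 10.064 0.8231 3.073 1.451 0.9484 0.7464 0.5416 1.3888 3.3944 0.8875 2.032 3.4771 3.2472 0.0005472 0.004297 0.0000008546 0.0000003101 0.0001326 0.0000003101 0.0000003101 0.0000003101 0.4477
    hβ hN hx1 hx2 hy1 hy2 (by norm_num) (by norm_num) (by linarith) (by norm_num) (by norm_num) (by norm_num) (by norm_num) (by norm_num) (by norm_num) (by norm_num) (by norm_num) (by norm_num) (by norm_num) (by norm_num) (by norm_num) (by norm_num) (by norm_num) (by norm_num) (by norm_num) (by norm_num) (by norm_num) (by norm_num) (by norm_num) (by norm_num)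
    (cube_sqrt_geJ (s := 0.8518) (by norm_num) (by norm_num) (by norm_num) (by norm_num))
    (cube_sqrt_geJ (s := 0.9482) (by norm_num) (by norm_num) (by norm_num) (by norm_num))
    (by norm_num) (by norm_num) (by norm_num) (by norm_num) (by norm_num) (by norm_num) (by norm_num) (by norm_num) (by norm_num) (by norm_num) (by norm_num) (by norm_num) (by norm_num) (by norm_num) (by norm_num) (by norm_num) (by norm_num) (by norm_num)
    (exp_neg_leJ (r := 0.511) 7 (by norm_num) (by norm_num) (by norm_num) (by norm_num))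
    (exp_neg_leJ (r := 0.45) 5 (by norm_num) (by norm_num) (by norm_num) (by norm_num))
    (exp_neg_leJ (r := 0.976) 13 (by norm_num) (by norm_num) (by norm_num) (by norm_num))
    (exp_neg_leJ (r := 0.99) 14 (by norm_num) (by norm_num) (by norm_num) (by norm_num))
    (exp_neg_leJ (r := 0.931) 8 (by norm_num) (by norm_num) (by norm_num) (by norm_num))
    (exp_neg_leJ (r := 0.99) 14 (by norm_num) (by norm_num) (by norm_num) (by norm_num))
    (exp_neg_leJ (r := 0.99) 14 (by norm_num) (by norm_num) (by norm_num) (by norm_num))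
    (exp_neg_leJ (r := 0.99) 14 (by norm_num) (by norm_num) (by norm_num) (by norm_num))
    (by norm_num)) (by norm_num) hN hβ.le (by norm_num)

private theorem JB6_k1a_b10_1 {β x y : ℝ} (hβ : 0 < β) (hN : β * 10.064 ≤ 1) (hx1 : 1.0468 ≤ x) (hx2 : x ≤ 1.1585)
    (hy1 : -0 ≤ y) (hy2 : y ≤ 0.129) : ‖HH β (x + y * I) - 1‖ ≤ 0.045 := by
  refine le_epsJ (C := 0.4515) (N0 := 10.064) (J_boxp 1.0468 1.1585 0 0.129 0.129 1.4471 1.1657 1.6177 0.7307 0.5075 3.1724 10.064 0.8056 2.988 1.439 0.9745 0.7235 0.5292 1.3666 3.4323 0.8503 1.9362 3.111 3.0291 0.0006886 0.004869 0.000001066 0.0000003101 0.0001923 0.0000003101 0.0000003101 0.0000003101 0.4515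
    hβ hN hx1 hx2 hy1 hy2 (by norm_num) (by norm_num) (by linarith) (by norm_num) (by norm_num) (by norm_num) (by norm_num) (by norm_num) (by norm_num) (by norm_num) (by norm_num) (by norm_num) (by norm_num) (by norm_num) (by norm_num) (by norm_num) (by norm_num) (by norm_num) (by norm_num) (by norm_num) (by norm_num) (by norm_num) (by norm_num) (by norm_num)
    (cube_sqrt_geJ (s := 0.8552) (by norm_num) (by norm_num) (by norm_num) (by norm_num))
    (cube_sqrt_geJ (s := 0.9494) (by norm_num) (by norm_num) (by norm_num) (by norm_num))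
    (by norm_num) (by norm_num) (by norm_num) (by norm_num) (by norm_num) (by norm_num) (by norm_num) (by norm_num) (by norm_num) (by norm_num) (by norm_num) (by norm_num) (by norm_num) (by norm_num) (by norm_num) (by norm_num) (by norm_num) (by norm_num)
    (exp_neg_leJ (r := 0.281) 7 (by norm_num) (by norm_num) (by norm_num) (by norm_num))
    (exp_neg_leJ (r := 0.325) 5 (by norm_num) (by norm_num) (by norm_num) (by norm_num))
    (exp_neg_leJ (r := 0.753) 13 (by norm_num) (by norm_num) (by norm_num) (by norm_num))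
    (exp_neg_leJ (r := 0.99) 14 (by norm_num) (by norm_num) (by norm_num) (by norm_num))
    (exp_neg_leJ (r := 0.557) 8 (by norm_num) (by norm_num) (by norm_num) (by norm_num))
    (exp_neg_leJ (r := 0.99) 14 (by norm_num) (by norm_num) (by norm_num) (by norm_num))
    (exp_neg_leJ (r := 0.99) 14 (by norm_num) (by norm_num) (by norm_num) (by norm_num))
    (exp_neg_leJ (r := 0.99) 14 (by norm_num) (by norm_num) (by norm_num) (by norm_num))
    (by norm_num)) (by norm_num) hN hβ.le (by norm_num)

private theorem JB6_k1a_b10_2 {β x y : ℝ} (hβ : 0 < β) (hN : β * 10.064 ≤ 1) (hx1 : 0.9932 ≤ x) (hx2 : x ≤ 1.0912)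
    (hy1 : -0 ≤ y) (hy2 : y ≤ 0.174) : ‖HH β (x + y * I) - 1‖ ≤ 0.045 := by
  refine le_epsJ (C := 0.446) (N0 := 10.064) (J_boxp 0.9932 1.0912 0 0.174 0.174 1.4094 1.105 1.6029 0.7567 0.5051 3.1724 10.064 0.7841 2.888 1.424 1.0004 0.7046 0.5205 1.3482 3.4694 0.8196 1.8574 2.8108 2.8748 0.0008326 0.005311 0.000001282 0.0000003101 0.0002618 0.0000003101 0.0000003101 0.0000003101 0.446
    hβ hN hx1 hx2 hy1 hy2 (by norm_num) (by norm_num) (by linarith) (by norm_num) (by norm_num) (by norm_num) (by norm_num) (by norm_num) (by norm_num) (by norm_num) (by norm_num) (by norm_num) (by norm_num) (by norm_num) (by norm_num) (by norm_num) (by norm_num) (by norm_num) (by norm_num) (by norm_num) (by norm_num) (by norm_num) (by norm_num) (by norm_num)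
    (cube_sqrt_geJ (s := 0.8594) (by norm_num) (by norm_num) (by norm_num) (by norm_num))
    (cube_sqrt_geJ (s := 0.9507) (by norm_num) (by norm_num) (by norm_num) (by norm_num))
    (by norm_num) (by norm_num) (by norm_num) (by norm_num) (by norm_num) (by norm_num) (by norm_num) (by norm_num) (by norm_num) (by norm_num) (by norm_num) (by norm_num) (by norm_num) (by norm_num) (by norm_num) (by norm_num) (by norm_num) (by norm_num)
    (exp_neg_leJ (r := 0.091) 7 (by norm_num) (by norm_num) (by norm_num) (by norm_num))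
    (exp_neg_leJ (r := 0.238) 5 (by norm_num) (by norm_num) (by norm_num) (by norm_num))
    (exp_neg_leJ (r := 0.568) 13 (by norm_num) (by norm_num) (by norm_num) (by norm_num))
    (exp_neg_leJ (r := 0.99) 14 (by norm_num) (by norm_num) (by norm_num) (by norm_num))
    (exp_neg_leJ (r := 0.248) 8 (by norm_num) (by norm_num) (by norm_num) (by norm_num))
    (exp_neg_leJ (r := 0.99) 14 (by norm_num) (by norm_num) (by norm_num) (by norm_num))
    (exp_neg_leJ (r := 0.99) 14 (by norm_num) (by norm_num) (by norm_num) (by norm_num))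
    (exp_neg_leJ (r := 0.99) 14 (by norm_num) (by norm_num) (by norm_num) (by norm_num))
    (by norm_num)) (by norm_num) hN hβ.le (by norm_num)

private theorem JB6_k1a_b10_3 {β x y : ℝ} (hβ : 0 < β) (hN : β * 10.064 ≤ 1) (hx1 : 0.9448 ≤ x) (hx2 : x ≤ 1.0359)
    (hy1 : -0 ≤ y) (hy2 : y ≤ 0.214) : ‖HH β (x + y * I) - 1‖ ≤ 0.045 := by
  refine le_epsJ (C := 0.4491) (N0 := 10.064) (J_boxp 0.9448 1.0359 0 0.214 0.214 1.3753 1.0578 1.5959 0.7833 0.504 3.1724 10.064 0.7692 2.821 1.414 1.0216 0.6876 0.5113 1.3316 3.4992 0.7921 1.7863 2.5424 2.7178 0.0009904 0.005829 0.000001514 0.0000003101 0.0003465 0.0000003101 0.0000003101 0.0000003101 0.4491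
    hβ hN hx1 hx2 hy1 hy2 (by norm_num) (by norm_num) (by linarith) (by norm_num) (by norm_num) (by norm_num) (by norm_num) (by norm_num) (by norm_num) (by norm_num) (by norm_num) (by norm_num) (by norm_num) (by norm_num) (by norm_num) (by norm_num) (by norm_num) (by norm_num) (by norm_num) (by norm_num) (by norm_num) (by norm_num) (by norm_num) (by norm_num)
    (cube_sqrt_geJ (s := 0.8623) (by norm_num) (by norm_num) (by norm_num) (by norm_num))
    (cube_sqrt_geJ (s := 0.9517) (by norm_num) (by norm_num) (by norm_num) (by norm_num))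
    (by norm_num) (by norm_num) (by norm_num) (by norm_num) (by norm_num) (by norm_num) (by norm_num) (by norm_num) (by norm_num) (by norm_num) (by norm_num) (by norm_num) (by norm_num) (by norm_num) (by norm_num) (by norm_num) (by norm_num) (by norm_num)
    (exp_neg_leJ (r := 0.92) 6 (by norm_num) (by norm_num) (by norm_num) (by norm_num))
    (exp_neg_leJ (r := 0.145) 5 (by norm_num) (by norm_num) (by norm_num) (by norm_num))
    (exp_neg_leJ (r := 0.401) 13 (by norm_num) (by norm_num) (by norm_num) (by norm_num))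
    (exp_neg_leJ (r := 0.99) 14 (by norm_num) (by norm_num) (by norm_num) (by norm_num))
    (exp_neg_leJ (r := 0.971) 7 (by norm_num) (by norm_num) (by norm_num) (by norm_num))
    (exp_neg_leJ (r := 0.99) 14 (by norm_num) (by norm_num) (by norm_num) (by norm_num))
    (exp_neg_leJ (r := 0.99) 14 (by norm_num) (by norm_num) (by norm_num) (by norm_num))
    (exp_neg_leJ (r := 0.99) 14 (by norm_num) (by norm_num) (by norm_num) (by norm_num))
    (by norm_num)) (by norm_num) hN hβ.le (by norm_num)

private theorem JB6_k1a_b10_4 {β x y : ℝ} (hβ : 0 < β) (hN : β * 10.064 ≤ 1) (hx1 : 0.9079 ≤ x) (hx2 : x ≤ 0.9863)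
    (hy1 : -0 ≤ y) (hy2 : y ≤ 0.244) : ‖HH β (x + y * I) - 1‖ ≤ 0.045 := by
  refine le_epsJ (C := 0.4458) (N0 := 10.064) (J_boxp 0.9079 0.9863 0 0.244 0.244 1.3493 1.0161 1.5876 0.804 0.5027 3.1724 10.064 0.7531 2.751 1.404 1.0407 0.6746 0.5052 1.319 3.5258 0.7711 1.7322 2.3399 2.616 0.001128 0.006196 0.000001719 0.0000003101 0.000427 0.0000003101 0.0000003101 0.0000003101 0.4458
    hβ hN hx1 hx2 hy1 hy2 (by norm_num) (by norm_num) (by linarith) (by norm_num) (by norm_num) (by norm_num) (by norm_num) (by norm_num) (by norm_num) (by norm_num) (by norm_num) (by norm_num) (by norm_num) (by norm_num) (by norm_num) (by norm_num) (by norm_num) (by norm_num) (by norm_num) (by norm_num) (by norm_num) (by norm_num) (by norm_num) (by norm_num)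
    (cube_sqrt_geJ (s := 0.8654) (by norm_num) (by norm_num) (by norm_num) (by norm_num))
    (cube_sqrt_geJ (s := 0.9527) (by norm_num) (by norm_num) (by norm_num) (by norm_num))
    (by norm_num) (by norm_num) (by norm_num) (by norm_num) (by norm_num) (by norm_num) (by norm_num) (by norm_num) (by norm_num) (by norm_num) (by norm_num) (by norm_num) (by norm_num) (by norm_num) (by norm_num) (by norm_num) (by norm_num) (by norm_num)
    (exp_neg_leJ (r := 0.789) 6 (by norm_num) (by norm_num) (by norm_num) (by norm_num))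
    (exp_neg_leJ (r := 0.084) 5 (by norm_num) (by norm_num) (by norm_num) (by norm_num))
    (exp_neg_leJ (r := 0.274) 13 (by norm_num) (by norm_num) (by norm_num) (by norm_num))
    (exp_neg_leJ (r := 0.99) 14 (by norm_num) (by norm_num) (by norm_num) (by norm_num))
    (exp_neg_leJ (r := 0.76) 7 (by norm_num) (by norm_num) (by norm_num) (by norm_num))
    (exp_neg_leJ (r := 0.99) 14 (by norm_num) (by norm_num) (by norm_num) (by norm_num))
    (exp_neg_leJ (r := 0.99) 14 (by norm_num) (by norm_num) (by norm_num) (by norm_num))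
    (exp_neg_leJ (r := 0.99) 14 (by norm_num) (by norm_num) (by norm_num) (by norm_num))
    (by norm_num)) (by norm_num) hN hβ.le (by norm_num)

private theorem JB6_k1a_b10_5 {β x y : ℝ} (hβ : 0 < β) (hN : β * 10.064 ≤ 1) (hx1 : 0.8753 ≤ x) (hx2 : x ≤ 0.9485)
    (hy1 : -0 ≤ y) (hy2 : y ≤ 0.27) : ‖HH β (x + y * I) - 1‖ ≤ 0.045 := by
  refine le_epsJ (C := 0.4503) (N0 := 10.064) (J_boxp 0.8753 0.9485 0 0.27 0.27 1.3263 0.9862 1.5852 0.8243 0.5023 3.1724 10.064 0.7436 2.711 1.397 1.0553 0.6631 0.4987 1.3079 3.5455 0.7526 1.6844 2.1632 2.5096 0.001266 0.006618 0.000001923 0.0000003101 0.0005139 0.0000003101 0.0000003101 0.0000003101 0.4503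
    hβ hN hx1 hx2 hy1 hy2 (by norm_num) (by norm_num) (by linarith) (by norm_num) (by norm_num) (by norm_num) (by norm_num) (by norm_num) (by norm_num) (by norm_num) (by norm_num) (by norm_num) (by norm_num) (by norm_num) (by norm_num) (by norm_num) (by norm_num) (by norm_num) (by norm_num) (by norm_num) (by norm_num) (by norm_num) (by norm_num) (by norm_num)
    (cube_sqrt_geJ (s := 0.8672) (by norm_num) (by norm_num) (by norm_num) (by norm_num))
    (cube_sqrt_geJ (s := 0.9533) (by norm_num) (by norm_num) (by norm_num) (by norm_num))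
    (by norm_num) (by norm_num) (by norm_num) (by norm_num) (by norm_num) (by norm_num) (by norm_num) (by norm_num) (by norm_num) (by norm_num) (by norm_num) (by norm_num) (by norm_num) (by norm_num) (by norm_num) (by norm_num) (by norm_num) (by norm_num)
    (exp_neg_leJ (r := 0.673) 6 (by norm_num) (by norm_num) (by norm_num) (by norm_num))
    (exp_neg_leJ (r := 0.018) 5 (by norm_num) (by norm_num) (by norm_num) (by norm_num))
    (exp_neg_leJ (r := 0.162) 13 (by norm_num) (by norm_num) (by norm_num) (by norm_num))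
    (exp_neg_leJ (r := 0.99) 14 (by norm_num) (by norm_num) (by norm_num) (by norm_num))
    (exp_neg_leJ (r := 0.574) 7 (by norm_num) (by norm_num) (by norm_num) (by norm_num))
    (exp_neg_leJ (r := 0.99) 14 (by norm_num) (by norm_num) (by norm_num) (by norm_num))
    (exp_neg_leJ (r := 0.99) 14 (by norm_num) (by norm_num) (by norm_num) (by norm_num))
    (exp_neg_leJ (r := 0.99) 14 (by norm_num) (by norm_num) (by norm_num) (by norm_num))
    (by norm_num)) (by norm_num) hN hβ.le (by norm_num)

theorem JB6_k1a_c10 {κ t β : ℝ} (h : DomR κ t) (hβ : 0 < β) (hk1 : 1.2 ≤ κ) (hk2 : κ ≤ 1.25)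
    (ht1 : 0.04 ≤ t + κ) (ht2 : t + κ ≤ 0.62) (hR0 : β * 10 ≤ κ) (hR : β * (4.95 * (1 + κ ^ 2)) ≤ κ) :
    ‖HH β (sg κ t) - 1‖ ≤ 0.045 := by
  have hN : β * 10.064 ≤ 1 := bNC' hβ hk1 (by norm_num) (by norm_num) hR (by norm_num)
  have hy1 : 0.019 ≤ sy κ t := syR_ge h 1.2 1.25 0.04 0.019 1.01918 1.01919 0.01549 0.01614 hk1 hk2 (by linarith) (by norm_num) (by norm_num)
    (expn_ge (by norm_num) (by norm_num)) (expn_le (by norm_num) (by norm_num) (by norm_num)) (by norm_num)
    (by norm_num) (by norm_num) (by norm_num) (by norm_num) (by norm_num) (by norm_num)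
  have hy2 : sy κ t ≤ 0.27 := syR_le h 1.2 1.25 0.62 0.27 1.30996 0.2799 0.28295 0.29475 hk1 hk2 (by linarith) (by norm_num) (by norm_num)
    (expn_ge (by norm_num) (by norm_num)) (by norm_num) (by norm_num) (Or.inr ((mul_le_mul_of_nonneg_left (expn_le (E := 1.30997) (by norm_num) (by norm_num) (by norm_num)) (by norm_num)).trans (by norm_num))) (by norm_num) (by norm_num) (by norm_num)
  rcases le_total (sy κ t) 0.074 with f0 | g0
  · have hx1 : 1.1119 ≤ sx κ t := sx_lo h 1.2 0.074 0.074 0.92867 1.1119 hk1 (by norm_num) f0 (abs_le.2 ⟨by linarith, by linarith⟩) (expm_ge (by norm_num) (by norm_num) (by norm_num) (by norm_num)) (by norm_num) (by norm_num)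
    have hx2 : sx κ t ≤ 1.2264 := sx_hi h 1.25 0.019 0.019 0.98118 1.2264 hk2 hy1 (by norm_num) (by rw [abs_of_nonneg (by linarith)]; linarith) (expm_le (by norm_num) (by norm_num) (by norm_num)) (by norm_num) (by norm_num)
    exact JB6_k1a_b10_0 hβ hN hx1 hx2 (by linarith) (by linarith)
  rcases le_total (sy κ t) 0.129 with f1 | g1
  · have hx1 : 1.0468 ≤ sx κ t := sx_lo h 1.2 0.129 0.129 0.87897 1.0468 hk1 (by norm_num) f1 (abs_le.2 ⟨by linarith, by linarith⟩) (expm_ge (by norm_num) (by norm_num) (by norm_num) (by norm_num)) (by norm_num) (by norm_num)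
    have hx2 : sx κ t ≤ 1.1585 := sx_hi h 1.25 0.074 0.074 0.92868 1.1585 hk2 g0 (by norm_num) (by rw [abs_of_nonneg (by linarith)]; linarith) (expm_le (by norm_num) (by norm_num) (by norm_num)) (by norm_num) (by norm_num)
    exact JB6_k1a_b10_1 hβ hN hx1 hx2 (by linarith) (by linarith)
  rcases le_total (sy κ t) 0.174 with f2 | g2
  · have hx1 : 0.9932 ≤ sx κ t := sx_lo h 1.2 0.174 0.174 0.84029 0.9932 hk1 (by norm_num) f2 (abs_le.2 ⟨by linarith, by linarith⟩) (expm_ge (by norm_num) (by norm_num) (by norm_num) (by norm_num)) (by norm_num) (by norm_num)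
    have hx2 : sx κ t ≤ 1.0912 := sx_hi h 1.25 0.129 0.129 0.87898 1.0912 hk2 g1 (by norm_num) (by rw [abs_of_nonneg (by linarith)]; linarith) (expm_le (by norm_num) (by norm_num) (by norm_num)) (by norm_num) (by norm_num)
    exact JB6_k1a_b10_2 hβ hN hx1 hx2 (by linarith) (by linarith)
  rcases le_total (sy κ t) 0.214 with f3 | g3
  · have hx1 : 0.9448 ≤ sx κ t := sx_lo h 1.2 0.214 0.214 0.80734 0.9448 hk1 (by norm_num) f3 (abs_le.2 ⟨by linarith, by linarith⟩) (expm_ge (by norm_num) (by norm_num) (by norm_num) (by norm_num)) (by norm_num) (by norm_num)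
    have hx2 : sx κ t ≤ 1.0359 := sx_hi h 1.25 0.174 0.174 0.8403 1.0359 hk2 g2 (by norm_num) (by rw [abs_of_nonneg (by linarith)]; linarith) (expm_le (by norm_num) (by norm_num) (by norm_num)) (by norm_num) (by norm_num)
    exact JB6_k1a_b10_3 hβ hN hx1 hx2 (by linarith) (by linarith)
  rcases le_total (sy κ t) 0.244 with f4 | g4
  · have hx1 : 0.9079 ≤ sx κ t := sx_lo h 1.2 0.244 0.244 0.78348 0.9079 hk1 (by norm_num) f4 (abs_le.2 ⟨by linarith, by linarith⟩) (expm_ge (by norm_num) (by norm_num) (by norm_num) (by norm_num)) (by norm_num) (by norm_num)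
    have hx2 : sx κ t ≤ 0.9863 := sx_hi h 1.25 0.214 0.214 0.80735 0.9863 hk2 g3 (by norm_num) (by rw [abs_of_nonneg (by linarith)]; linarith) (expm_le (by norm_num) (by norm_num) (by norm_num)) (by norm_num) (by norm_num)
    exact JB6_k1a_b10_4 hβ hN hx1 hx2 (by linarith) (by linarith)
  have hx1 : 0.8753 ≤ sx κ t := sx_lo h 1.2 0.27 0.27 0.76337 0.8753 hk1 (by norm_num) hy2 (abs_le.2 ⟨by linarith, by linarith⟩) (expm_ge (by norm_num) (by norm_num) (by norm_num) (by norm_num)) (by norm_num) (by norm_num)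
  have hx2 : sx κ t ≤ 0.9485 := sx_hi h 1.25 0.244 0.244 0.78349 0.9485 hk2 g4 (by norm_num) (by rw [abs_of_nonneg (by linarith)]; linarith) (expm_le (by norm_num) (by norm_num) (by norm_num)) (by norm_num) (by norm_num)
  exact JB6_k1a_b10_5 hβ hN hx1 hx2 (by linarith) (by linarith)

private theorem JB6_k1a_b11_0 {β x y : ℝ} (hβ : 0 < β) (hN : β * 10.147 ≤ 1) (hx1 : 1.1584 ≤ x) (hx2 : x ≤ 1.2754)
    (hy1 : -0 ≤ y) (hy2 : y ≤ 0.074) : ‖HH β (x + y * I) - 1‖ ≤ 0.045 := by
  refine le_epsJ (C := 0.4505) (N0 := 10.147) (J_boxp 1.1584 1.2754 0 0.074 0.074 1.5257 1.2776 1.6674 0.6852 0.5152 3.1855 10.147 0.8374 3.145 1.461 0.9295 0.7628 0.5499 1.4048 3.3661 0.9101 2.0963 3.5701 3.2073 0.0004356 0.003778 0.0000006451 0.0000003101 0.00009767 0.0000003101 0.0000003101 0.0000003101 0.4505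
    hβ hN hx1 hx2 hy1 hy2 (by norm_num) (by norm_num) (by linarith) (by norm_num) (by norm_num) (by norm_num) (by norm_num) (by norm_num) (by norm_num) (by norm_num) (by norm_num) (by norm_num) (by norm_num) (by norm_num) (by norm_num) (by norm_num) (by norm_num) (by norm_num) (by norm_num) (by norm_num) (by norm_num) (by norm_num) (by norm_num) (by norm_num)
    (cube_sqrt_geJ (s := 0.849) (by norm_num) (by norm_num) (by norm_num) (by norm_num))
    (cube_sqrt_geJ (s := 0.9473) (by norm_num) (by norm_num) (by norm_num) (by norm_num))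
    (by norm_num) (by norm_num) (by norm_num) (by norm_num) (by norm_num) (by norm_num) (by norm_num) (by norm_num) (by norm_num) (by norm_num) (by norm_num) (by norm_num) (by norm_num) (by norm_num) (by norm_num) (by norm_num) (by norm_num) (by norm_num)
    (exp_neg_leJ (r := 0.74) 7 (by norm_num) (by norm_num) (by norm_num) (by norm_num))
    (exp_neg_leJ (r := 0.579) 5 (by norm_num) (by norm_num) (by norm_num) (by norm_num))
    (exp_neg_leJ (r := 0.254) 14 (by norm_num) (by norm_num) (by norm_num) (by norm_num))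
    (exp_neg_leJ (r := 0.99) 14 (by norm_num) (by norm_num) (by norm_num) (by norm_num))
    (exp_neg_leJ (r := 0.234) 9 (by norm_num) (by norm_num) (by norm_num) (by norm_num))
    (exp_neg_leJ (r := 0.99) 14 (by norm_num) (by norm_num) (by norm_num) (by norm_num))
    (exp_neg_leJ (r := 0.99) 14 (by norm_num) (by norm_num) (by norm_num) (by norm_num))
    (exp_neg_leJ (r := 0.99) 14 (by norm_num) (by norm_num) (by norm_num) (by norm_num))
    (by norm_num)) (by norm_num) hN hβ.le (by norm_num)

private theorem JB6_k1a_b11_1 {β x y : ℝ} (hβ : 0 < β) (hN : β * 10.147 ≤ 1) (hx1 : 1.0911 ≤ x) (hx2 : x ≤ 1.2051)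
    (hy1 : -0 ≤ y) (hy2 : y ≤ 0.129) : ‖HH β (x + y * I) - 1‖ ≤ 0.045 := by
  refine le_epsJ (C := 0.4536) (N0 := 10.147) (J_boxp 1.0911 1.2051 0 0.129 0.129 1.4783 1.212 1.6514 0.715 0.5127 3.1855 10.147 0.8199 3.057 1.449 0.9566 0.7391 0.5371 1.3817 3.4054 0.8718 1.9975 3.1996 2.9918 0.0005538 0.004302 0.0000008151 0.0000003101 0.0001443 0.0000003101 0.0000003101 0.0000003101 0.4536
    hβ hN hx1 hx2 hy1 hy2 (by norm_num) (by norm_num) (by linarith) (by norm_num) (by norm_num) (by norm_num) (by norm_num) (by norm_num) (by norm_num) (by norm_num) (by norm_num) (by norm_num) (by norm_num) (by norm_num) (by norm_num) (by norm_num) (by norm_num) (by norm_num) (by norm_num) (by norm_num) (by norm_num) (by norm_num) (by norm_num) (by norm_num)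
    (cube_sqrt_geJ (s := 0.8524) (by norm_num) (by norm_num) (by norm_num) (by norm_num))
    (cube_sqrt_geJ (s := 0.9484) (by norm_num) (by norm_num) (by norm_num) (by norm_num))
    (by norm_num) (by norm_num) (by norm_num) (by norm_num) (by norm_num) (by norm_num) (by norm_num) (by norm_num) (by norm_num) (by norm_num) (by norm_num) (by norm_num) (by norm_num) (by norm_num) (by norm_num) (by norm_num) (by norm_num) (by norm_num)
    (exp_neg_leJ (r := 0.499) 7 (by norm_num) (by norm_num) (by norm_num) (by norm_num))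
    (exp_neg_leJ (r := 0.449) 5 (by norm_num) (by norm_num) (by norm_num) (by norm_num))
    (exp_neg_leJ (r := 0.02) 14 (by norm_num) (by norm_num) (by norm_num) (by norm_num))
    (exp_neg_leJ (r := 0.99) 14 (by norm_num) (by norm_num) (by norm_num) (by norm_num))
    (exp_neg_leJ (r := 0.846) 8 (by norm_num) (by norm_num) (by norm_num) (by norm_num))
    (exp_neg_leJ (r := 0.99) 14 (by norm_num) (by norm_num) (by norm_num) (by norm_num))
    (exp_neg_leJ (r := 0.99) 14 (by norm_num) (by norm_num) (by norm_num) (by norm_num))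
    (exp_neg_leJ (r := 0.99) 14 (by norm_num) (by norm_num) (by norm_num) (by norm_num))
    (by norm_num)) (by norm_num) hN hβ.le (by norm_num)

private theorem JB6_k1a_b11_2 {β x y : ℝ} (hβ : 0 < β) (hN : β * 10.147 ≤ 1) (hx1 : 1.0296 ≤ x) (hx2 : x ≤ 1.1354)
    (hy1 : -0 ≤ y) (hy2 : y ≤ 0.179) : ‖HH β (x + y * I) - 1‖ ≤ 0.045 := by
  refine le_epsJ (C := 0.4541) (N0 := 10.147) (J_boxp 1.0296 1.1354 0 0.179 0.179 1.435 1.1495 1.6369 0.7443 0.5105 3.1855 10.147 0.8011 2.967 1.436 0.9834 0.7174 0.5259 1.3607 3.4438 0.8368 1.9073 2.8621 2.8031 0.0006899 0.004816 0.000001011 0.0000003101 0.0002054 0.0000003101 0.0000003101 0.0000003101 0.4541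
    hβ hN hx1 hx2 hy1 hy2 (by norm_num) (by norm_num) (by linarith) (by norm_num) (by norm_num) (by norm_num) (by norm_num) (by norm_num) (by norm_num) (by norm_num) (by norm_num) (by norm_num) (by norm_num) (by norm_num) (by norm_num) (by norm_num) (by norm_num) (by norm_num) (by norm_num) (by norm_num) (by norm_num) (by norm_num) (by norm_num) (by norm_num)
    (cube_sqrt_geJ (s := 0.8561) (by norm_num) (by norm_num) (by norm_num) (by norm_num))
    (cube_sqrt_geJ (s := 0.9496) (by norm_num) (by norm_num) (by norm_num) (by norm_num))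
    (by norm_num) (by norm_num) (by norm_num) (by norm_num) (by norm_num) (by norm_num) (by norm_num) (by norm_num) (by norm_num) (by norm_num) (by norm_num) (by norm_num) (by norm_num) (by norm_num) (by norm_num) (by norm_num) (by norm_num) (by norm_num)
    (exp_neg_leJ (r := 0.279) 7 (by norm_num) (by norm_num) (by norm_num) (by norm_num))
    (exp_neg_leJ (r := 0.336) 5 (by norm_num) (by norm_num) (by norm_num) (by norm_num))
    (exp_neg_leJ (r := 0.807) 13 (by norm_num) (by norm_num) (by norm_num) (by norm_num))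
    (exp_neg_leJ (r := 0.99) 14 (by norm_num) (by norm_num) (by norm_num) (by norm_num))
    (exp_neg_leJ (r := 0.491) 8 (by norm_num) (by norm_num) (by norm_num) (by norm_num))
    (exp_neg_leJ (r := 0.99) 14 (by norm_num) (by norm_num) (by norm_num) (by norm_num))
    (exp_neg_leJ (r := 0.99) 14 (by norm_num) (by norm_num) (by norm_num) (by norm_num))
    (exp_neg_leJ (r := 0.99) 14 (by norm_num) (by norm_num) (by norm_num) (by norm_num))
    (by norm_num)) (by norm_num) hN hβ.le (by norm_num)

private theorem JB6_k1a_b11_3 {β x y : ℝ} (hβ : 0 < β) (hN : β * 10.147 ≤ 1) (hx1 : 0.9799 ≤ x) (hx2 : x ≤ 1.0722)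
    (hy1 : -0 ≤ y) (hy2 : y ≤ 0.219) : ‖HH β (x + y * I) - 1‖ ≤ 0.045 := by
  refine le_epsJ (C := 0.4502) (N0 := 10.147) (J_boxp 0.9799 1.0722 0 0.219 0.219 1.4 1.0944 1.6235 0.7692 0.5084 3.1855 10.147 0.7818 2.878 1.423 1.0077 0.6999 0.5175 1.3437 3.4781 0.8086 1.8344 2.5912 2.665 0.0008243 0.005243 0.0000012 0.0000003101 0.0002736 0.0000003101 0.0000003101 0.0000003101 0.4502
    hβ hN hx1 hx2 hy1 hy2 (by norm_num) (by norm_num) (by linarith) (by norm_num) (by norm_num) (by norm_num) (by norm_num) (by norm_num) (by norm_num) (by norm_num) (by norm_num) (by norm_num) (by norm_num) (by norm_num) (by norm_num) (by norm_num) (by norm_num) (by norm_num) (by norm_num) (by norm_num) (by norm_num) (by norm_num) (by norm_num) (by norm_num)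
    (cube_sqrt_geJ (s := 0.8598) (by norm_num) (by norm_num) (by norm_num) (by norm_num))
    (cube_sqrt_geJ (s := 0.9509) (by norm_num) (by norm_num) (by norm_num) (by norm_num))
    (by norm_num) (by norm_num) (by norm_num) (by norm_num) (by norm_num) (by norm_num) (by norm_num) (by norm_num) (by norm_num) (by norm_num) (by norm_num) (by norm_num) (by norm_num) (by norm_num) (by norm_num) (by norm_num) (by norm_num) (by norm_num)
    (exp_neg_leJ (r := 0.101) 7 (by norm_num) (by norm_num) (by norm_num) (by norm_num))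
    (exp_neg_leJ (r := 0.251) 5 (by norm_num) (by norm_num) (by norm_num) (by norm_num))
    (exp_neg_leJ (r := 0.634) 13 (by norm_num) (by norm_num) (by norm_num) (by norm_num))
    (exp_neg_leJ (r := 0.99) 14 (by norm_num) (by norm_num) (by norm_num) (by norm_num))
    (exp_neg_leJ (r := 0.204) 8 (by norm_num) (by norm_num) (by norm_num) (by norm_num))
    (exp_neg_leJ (r := 0.99) 14 (by norm_num) (by norm_num) (by norm_num) (by norm_num))
    (exp_neg_leJ (r := 0.99) 14 (by norm_num) (by norm_num) (by norm_num) (by norm_num))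
    (exp_neg_leJ (r := 0.99) 14 (by norm_num) (by norm_num) (by norm_num) (by norm_num))
    (by norm_num)) (by norm_num) hN hβ.le (by norm_num)

private theorem JB6_k1a_b11_4 {β x y : ℝ} (hβ : 0 < β) (hN : β * 10.147 ≤ 1) (hx1 : 0.9357 ≤ x) (hx2 : x ≤ 1.0212)
    (hy1 : -0 ≤ y) (hy2 : y ≤ 0.254) : ‖HH β (x + y * I) - 1‖ ≤ 0.045 := by
  refine le_epsJ (C := 0.454) (N0 := 10.147) (J_boxp 0.9357 1.0212 0 0.254 0.254 1.3689 1.0524 1.6173 0.7941 0.5074 3.1855 10.147 0.7688 2.819 1.414 1.0273 0.6844 0.509 1.3285 3.5052 0.7836 1.7696 2.3526 2.5258 0.0009672 0.005719 0.000001399 0.0000003101 0.0003534 0.0000003101 0.0000003101 0.0000003101 0.454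
    hβ hN hx1 hx2 hy1 hy2 (by norm_num) (by norm_num) (by linarith) (by norm_num) (by norm_num) (by norm_num) (by norm_num) (by norm_num) (by norm_num) (by norm_num) (by norm_num) (by norm_num) (by norm_num) (by norm_num) (by norm_num) (by norm_num) (by norm_num) (by norm_num) (by norm_num) (by norm_num) (by norm_num) (by norm_num) (by norm_num) (by norm_num)
    (cube_sqrt_geJ (s := 0.8623) (by norm_num) (by norm_num) (by norm_num) (by norm_num))
    (cube_sqrt_geJ (s := 0.9517) (by norm_num) (by norm_num) (by norm_num) (by norm_num))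
    (by norm_num) (by norm_num) (by norm_num) (by norm_num) (by norm_num) (by norm_num) (by norm_num) (by norm_num) (by norm_num) (by norm_num) (by norm_num) (by norm_num) (by norm_num) (by norm_num) (by norm_num) (by norm_num) (by norm_num) (by norm_num)
    (exp_neg_leJ (r := 0.944) 6 (by norm_num) (by norm_num) (by norm_num) (by norm_num))
    (exp_neg_leJ (r := 0.164) 5 (by norm_num) (by norm_num) (by norm_num) (by norm_num))
    (exp_neg_leJ (r := 0.48) 13 (by norm_num) (by norm_num) (by norm_num) (by norm_num))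
    (exp_neg_leJ (r := 0.99) 14 (by norm_num) (by norm_num) (by norm_num) (by norm_num))
    (exp_neg_leJ (r := 0.951) 7 (by norm_num) (by norm_num) (by norm_num) (by norm_num))
    (exp_neg_leJ (r := 0.99) 14 (by norm_num) (by norm_num) (by norm_num) (by norm_num))
    (exp_neg_leJ (r := 0.99) 14 (by norm_num) (by norm_num) (by norm_num) (by norm_num))
    (exp_neg_leJ (r := 0.99) 14 (by norm_num) (by norm_num) (by norm_num) (by norm_num))
    (by norm_num)) (by norm_num) hN hβ.le (by norm_num)

private theorem JB6_k1a_b11_5 {β x y : ℝ} (hβ : 0 < β) (hN : β * 10.147 ≤ 1) (hx1 : 0.9152 ≤ x) (hx2 : x ≤ 0.9759)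
    (hy1 : -0 ≤ y) (hy2 : y ≤ 0.27) : ‖HH β (x + y * I) - 1‖ ≤ 0.045 := by
  refine le_epsJ (C := 0.4349) (N0 := 10.147) (J_boxp 0.9152 0.9759 0 0.27 0.27 1.3544 1.0126 1.6017 0.803 0.5049 3.1855 10.147 0.7477 2.728 1.4 1.0447 0.6771 0.5084 1.3215 3.5299 0.772 1.7396 2.243 2.5176 0.001041 0.005754 0.000001502 0.0000003101 0.0003972 0.0000003101 0.0000003101 0.0000003101 0.4349
    hβ hN hx1 hx2 hy1 hy2 (by norm_num) (by norm_num) (by linarith) (by norm_num) (by norm_num) (by norm_num) (by norm_num) (by norm_num) (by norm_num) (by norm_num) (by norm_num) (by norm_num) (by norm_num) (by norm_num) (by norm_num) (by norm_num) (by norm_num) (by norm_num) (by norm_num) (by norm_num) (by norm_num) (by norm_num) (by norm_num) (by norm_num)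
    (cube_sqrt_geJ (s := 0.8664) (by norm_num) (by norm_num) (by norm_num) (by norm_num))
    (cube_sqrt_geJ (s := 0.9531) (by norm_num) (by norm_num) (by norm_num) (by norm_num))
    (by norm_num) (by norm_num) (by norm_num) (by norm_num) (by norm_num) (by norm_num) (by norm_num) (by norm_num) (by norm_num) (by norm_num) (by norm_num) (by norm_num) (by norm_num) (by norm_num) (by norm_num) (by norm_num) (by norm_num) (by norm_num)
    (exp_neg_leJ (r := 0.87) 6 (by norm_num) (by norm_num) (by norm_num) (by norm_num))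
    (exp_neg_leJ (r := 0.158) 5 (by norm_num) (by norm_num) (by norm_num) (by norm_num))
    (exp_neg_leJ (r := 0.409) 13 (by norm_num) (by norm_num) (by norm_num) (by norm_num))
    (exp_neg_leJ (r := 0.99) 14 (by norm_num) (by norm_num) (by norm_num) (by norm_num))
    (exp_neg_leJ (r := 0.833) 7 (by norm_num) (by norm_num) (by norm_num) (by norm_num))
    (exp_neg_leJ (r := 0.99) 14 (by norm_num) (by norm_num) (by norm_num) (by norm_num))
    (exp_neg_leJ (r := 0.99) 14 (by norm_num) (by norm_num) (by norm_num) (by norm_num))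
    (exp_neg_leJ (r := 0.99) 14 (by norm_num) (by norm_num) (by norm_num) (by norm_num))
    (by norm_num)) (by norm_num) hN hβ.le (by norm_num)

theorem JB6_k1a_c11 {κ t β : ℝ} (h : DomR κ t) (hβ : 0 < β) (hk1 : 1.25 ≤ κ) (hk2 : κ ≤ 1.3)
    (ht1 : 0.04 ≤ t + κ) (ht2 : t + κ ≤ 0.62) (hR0 : β * 10 ≤ κ) (hR : β * (4.95 * (1 + κ ^ 2)) ≤ κ) :
    ‖HH β (sg κ t) - 1‖ ≤ 0.045 := by
  have hN : β * 10.147 ≤ 1 := bNC' hβ hk1 (by norm_num) (by norm_num) hR (by norm_num)
  have hy1 : 0.019 ≤ sy κ t := syR_ge h 1.25 1.3 0.04 0.019 1.01918 1.01919 0.01489 0.0155 hk1 hk2 (by linarith) (by norm_num) (by norm_num)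
    (expn_ge (by norm_num) (by norm_num)) (expn_le (by norm_num) (by norm_num) (by norm_num)) (by norm_num)
    (by norm_num) (by norm_num) (by norm_num) (by norm_num) (by norm_num) (by norm_num)
  have hy2 : sy κ t ≤ 0.27 := syR_le h 1.25 1.3 0.62 0.27 1.30996 0.2693 0.27206 0.28296 hk1 hk2 (by linarith) (by norm_num) (by norm_num)
    (expn_ge (by norm_num) (by norm_num)) (by norm_num) (by norm_num) (Or.inr ((mul_le_mul_of_nonneg_left (expn_le (E := 1.30997) (by norm_num) (by norm_num) (by norm_num)) (by norm_num)).trans (by norm_num))) (by norm_num) (by norm_num) (by norm_num)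
  rcases le_total (sy κ t) 0.074 with f0 | g0
  · have hx1 : 1.1584 ≤ sx κ t := sx_lo h 1.25 0.074 0.074 0.92867 1.1584 hk1 (by norm_num) f0 (abs_le.2 ⟨by linarith, by linarith⟩) (expm_ge (by norm_num) (by norm_num) (by norm_num) (by norm_num)) (by norm_num) (by norm_num)
    have hx2 : sx κ t ≤ 1.2754 := sx_hi h 1.3 0.019 0.019 0.98118 1.2754 hk2 hy1 (by norm_num) (by rw [abs_of_nonneg (by linarith)]; linarith) (expm_le (by norm_num) (by norm_num) (by norm_num)) (by norm_num) (by norm_num)
    exact JB6_k1a_b11_0 hβ hN hx1 hx2 (by linarith) (by linarith)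
  rcases le_total (sy κ t) 0.129 with f1 | g1
  · have hx1 : 1.0911 ≤ sx κ t := sx_lo h 1.25 0.129 0.129 0.87897 1.0911 hk1 (by norm_num) f1 (abs_le.2 ⟨by linarith, by linarith⟩) (expm_ge (by norm_num) (by norm_num) (by norm_num) (by norm_num)) (by norm_num) (by norm_num)
    have hx2 : sx κ t ≤ 1.2051 := sx_hi h 1.3 0.074 0.074 0.92868 1.2051 hk2 g0 (by norm_num) (by rw [abs_of_nonneg (by linarith)]; linarith) (expm_le (by norm_num) (by norm_num) (by norm_num)) (by norm_num) (by norm_num)
    exact JB6_k1a_b11_1 hβ hN hx1 hx2 (by linarith) (by linarith)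
  rcases le_total (sy κ t) 0.179 with f2 | g2
  · have hx1 : 1.0296 ≤ sx κ t := sx_lo h 1.25 0.179 0.179 0.8361 1.0296 hk1 (by norm_num) f2 (abs_le.2 ⟨by linarith, by linarith⟩) (expm_ge (by norm_num) (by norm_num) (by norm_num) (by norm_num)) (by norm_num) (by norm_num)
    have hx2 : sx κ t ≤ 1.1354 := sx_hi h 1.3 0.129 0.129 0.87898 1.1354 hk2 g1 (by norm_num) (by rw [abs_of_nonneg (by linarith)]; linarith) (expm_le (by norm_num) (by norm_num) (by norm_num)) (by norm_num) (by norm_num)
    exact JB6_k1a_b11_2 hβ hN hx1 hx2 (by linarith) (by linarith)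
  rcases le_total (sy κ t) 0.219 with f3 | g3
  · have hx1 : 0.9799 ≤ sx κ t := sx_lo h 1.25 0.219 0.219 0.80332 0.9799 hk1 (by norm_num) f3 (abs_le.2 ⟨by linarith, by linarith⟩) (expm_ge (by norm_num) (by norm_num) (by norm_num) (by norm_num)) (by norm_num) (by norm_num)
    have hx2 : sx κ t ≤ 1.0722 := sx_hi h 1.3 0.179 0.179 0.83611 1.0722 hk2 g2 (by norm_num) (by rw [abs_of_nonneg (by linarith)]; linarith) (expm_le (by norm_num) (by norm_num) (by norm_num)) (by norm_num) (by norm_num)
    exact JB6_k1a_b11_3 hβ hN hx1 hx2 (by linarith) (by linarith)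
  rcases le_total (sy κ t) 0.254 with f4 | g4
  · have hx1 : 0.9357 ≤ sx κ t := sx_lo h 1.25 0.254 0.254 0.77569 0.9357 hk1 (by norm_num) f4 (abs_le.2 ⟨by linarith, by linarith⟩) (expm_ge (by norm_num) (by norm_num) (by norm_num) (by norm_num)) (by norm_num) (by norm_num)
    have hx2 : sx κ t ≤ 1.0212 := sx_hi h 1.3 0.219 0.219 0.80333 1.0212 hk2 g3 (by norm_num) (by rw [abs_of_nonneg (by linarith)]; linarith) (expm_le (by norm_num) (by norm_num) (by norm_num)) (by norm_num) (by norm_num)
    exact JB6_k1a_b11_4 hβ hN hx1 hx2 (by linarith) (by linarith)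
  have hx1 : 0.9152 ≤ sx κ t := sx_lo h 1.25 0.27 0.27 0.76337 0.9152 hk1 (by norm_num) hy2 (abs_le.2 ⟨by linarith, by linarith⟩) (expm_ge (by norm_num) (by norm_num) (by norm_num) (by norm_num)) (by norm_num) (by norm_num)
  have hx2 : sx κ t ≤ 0.9759 := sx_hi h 1.3 0.254 0.254 0.7757 0.9759 hk2 g4 (by norm_num) (by rw [abs_of_nonneg (by linarith)]; linarith) (expm_le (by norm_num) (by norm_num) (by norm_num)) (by norm_num) (by norm_num)
  exact JB6_k1a_b11_5 hβ hN hx1 hx2 (by linarith) (by linarith)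

private theorem JB6_k1a_b12_0 {β x y : ℝ} (hβ : 0 < β) (hN : β * 10.242 ≤ 1) (hx1 : 1.2113 ≤ x) (hx2 : x ≤ 1.3343)
    (hy1 : -0 ≤ y) (hy2 : y ≤ 0.069) : ‖HH β (x + y * I) - 1‖ ≤ 0.045 := by
  refine le_epsJ (C := 0.4565) (N0 := 10.242) (J_boxp 1.2113 1.3343 0 0.069 0.069 1.5629 1.3361 1.7098 0.6693 0.5217 3.2004 10.242 0.8549 3.236 1.473 0.9069 0.7814 0.5587 1.4229 3.3321 0.9363 2.1701 3.6973 3.1776 0.0003345 0.003277 0.000000469 0.0000003101 0.00006851 0.0000003101 0.0000003101 0.0000003101 0.4565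
    hβ hN hx1 hx2 hy1 hy2 (by norm_num) (by norm_num) (by linarith) (by norm_num) (by norm_num) (by norm_num) (by norm_num) (by norm_num) (by norm_num) (by norm_num) (by norm_num) (by norm_num) (by norm_num) (by norm_num) (by norm_num) (by norm_num) (by norm_num) (by norm_num) (by norm_num) (by norm_num) (by norm_num) (by norm_num) (by norm_num) (by norm_num)
    (cube_sqrt_geJ (s := 0.8455) (by norm_num) (by norm_num) (by norm_num) (by norm_num))
    (cube_sqrt_geJ (s := 0.9462) (by norm_num) (by norm_num) (by norm_num) (by norm_num))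
    (by norm_num) (by norm_num) (by norm_num) (by norm_num) (by norm_num) (by norm_num) (by norm_num) (by norm_num) (by norm_num) (by norm_num) (by norm_num) (by norm_num) (by norm_num) (by norm_num) (by norm_num) (by norm_num) (by norm_num) (by norm_num)
    (exp_neg_leJ (r := 0.003) 8 (by norm_num) (by norm_num) (by norm_num) (by norm_num))
    (exp_neg_leJ (r := 0.722) 5 (by norm_num) (by norm_num) (by norm_num) (by norm_num))
    (exp_neg_leJ (r := 0.573) 14 (by norm_num) (by norm_num) (by norm_num) (by norm_num))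
    (exp_neg_leJ (r := 0.99) 14 (by norm_num) (by norm_num) (by norm_num) (by norm_num))
    (exp_neg_leJ (r := 0.589) 9 (by norm_num) (by norm_num) (by norm_num) (by norm_num))
    (exp_neg_leJ (r := 0.99) 14 (by norm_num) (by norm_num) (by norm_num) (by norm_num))
    (exp_neg_leJ (r := 0.99) 14 (by norm_num) (by norm_num) (by norm_num) (by norm_num))
    (exp_neg_leJ (r := 0.99) 14 (by norm_num) (by norm_num) (by norm_num) (by norm_num))
    (by norm_num)) (by norm_num) hN hβ.le (by norm_num)

private theorem JB6_k1a_b12_1 {β x y : ℝ} (hβ : 0 < β) (hN : β * 10.242 ≤ 1) (hx1 : 1.1479 ≤ x) (hx2 : x ≤ 1.2675)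
    (hy1 : -0 ≤ y) (hy2 : y ≤ 0.119) : ‖HH β (x + y * I) - 1‖ ≤ 0.045 := by
  refine le_epsJ (C := 0.4578) (N0 := 10.242) (J_boxp 1.1479 1.2675 0 0.119 0.119 1.5183 1.2731 1.6908 0.6951 0.5188 3.2004 10.242 0.8386 3.151 1.462 0.9326 0.7591 0.5469 1.4012 3.3697 0.9004 2.0772 3.3561 2.9864 0.0004211 0.003696 0.0000005855 0.0000003101 0.00009895 0.0000003101 0.0000003101 0.0000003101 0.4578
    hβ hN hx1 hx2 hy1 hy2 (by norm_num) (by norm_num) (by linarith) (by norm_num) (by norm_num) (by norm_num) (by norm_num) (by norm_num) (by norm_num) (by norm_num) (by norm_num) (by norm_num) (by norm_num) (by norm_num) (by norm_num) (by norm_num) (by norm_num) (by norm_num) (by norm_num) (by norm_num) (by norm_num) (by norm_num) (by norm_num) (by norm_num)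
    (cube_sqrt_geJ (s := 0.8488) (by norm_num) (by norm_num) (by norm_num) (by norm_num))
    (cube_sqrt_geJ (s := 0.9472) (by norm_num) (by norm_num) (by norm_num) (by norm_num))
    (by norm_num) (by norm_num) (by norm_num) (by norm_num) (by norm_num) (by norm_num) (by norm_num) (by norm_num) (by norm_num) (by norm_num) (by norm_num) (by norm_num) (by norm_num) (by norm_num) (by norm_num) (by norm_num) (by norm_num) (by norm_num)
    (exp_neg_leJ (r := 0.774) 7 (by norm_num) (by norm_num) (by norm_num) (by norm_num))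
    (exp_neg_leJ (r := 0.601) 5 (by norm_num) (by norm_num) (by norm_num) (by norm_num))
    (exp_neg_leJ (r := 0.351) 14 (by norm_num) (by norm_num) (by norm_num) (by norm_num))
    (exp_neg_leJ (r := 0.99) 14 (by norm_num) (by norm_num) (by norm_num) (by norm_num))
    (exp_neg_leJ (r := 0.221) 9 (by norm_num) (by norm_num) (by norm_num) (by norm_num))
    (exp_neg_leJ (r := 0.99) 14 (by norm_num) (by norm_num) (by norm_num) (by norm_num))
    (exp_neg_leJ (r := 0.99) 14 (by norm_num) (by norm_num) (by norm_num) (by norm_num))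
    (exp_neg_leJ (r := 0.99) 14 (by norm_num) (by norm_num) (by norm_num) (by norm_num))
    (by norm_num)) (by norm_num) hN hβ.le (by norm_num)

private theorem JB6_k1a_b12_2 {β x y : ℝ} (hβ : 0 < β) (hN : β * 10.242 ≤ 1) (hx1 : 1.0911 ≤ x) (hx2 : x ≤ 1.2016)
    (hy1 : -0 ≤ y) (hy2 : y ≤ 0.164) : ‖HH β (x + y * I) - 1‖ ≤ 0.045 := by
  refine le_epsJ (C := 0.4554) (N0 := 10.242) (J_boxp 1.0911 1.2016 0 0.164 0.164 1.4783 1.2128 1.673 0.7197 0.5161 3.2004 10.242 0.8205 3.06 1.449 0.9579 0.7391 0.5369 1.3817 3.4063 0.8682 1.994 3.0495 2.8247 0.0005164 0.004096 0.000000715 0.0000003101 0.0001378 0.0000003101 0.0000003101 0.0000003101 0.4554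
    hβ hN hx1 hx2 hy1 hy2 (by norm_num) (by norm_num) (by linarith) (by norm_num) (by norm_num) (by norm_num) (by norm_num) (by norm_num) (by norm_num) (by norm_num) (by norm_num) (by norm_num) (by norm_num) (by norm_num) (by norm_num) (by norm_num) (by norm_num) (by norm_num) (by norm_num) (by norm_num) (by norm_num) (by norm_num) (by norm_num) (by norm_num)
    (cube_sqrt_geJ (s := 0.8523) (by norm_num) (by norm_num) (by norm_num) (by norm_num))
    (cube_sqrt_geJ (s := 0.9484) (by norm_num) (by norm_num) (by norm_num) (by norm_num))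
    (by norm_num) (by norm_num) (by norm_num) (by norm_num) (by norm_num) (by norm_num) (by norm_num) (by norm_num) (by norm_num) (by norm_num) (by norm_num) (by norm_num) (by norm_num) (by norm_num) (by norm_num) (by norm_num) (by norm_num) (by norm_num)
    (exp_neg_leJ (r := 0.569) 7 (by norm_num) (by norm_num) (by norm_num) (by norm_num))
    (exp_neg_leJ (r := 0.498) 5 (by norm_num) (by norm_num) (by norm_num) (by norm_num))
    (exp_neg_leJ (r := 0.151) 14 (by norm_num) (by norm_num) (by norm_num) (by norm_num))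
    (exp_neg_leJ (r := 0.99) 14 (by norm_num) (by norm_num) (by norm_num) (by norm_num))
    (exp_neg_leJ (r := 0.892) 8 (by norm_num) (by norm_num) (by norm_num) (by norm_num))
    (exp_neg_leJ (r := 0.99) 14 (by norm_num) (by norm_num) (by norm_num) (by norm_num))
    (exp_neg_leJ (r := 0.99) 14 (by norm_num) (by norm_num) (by norm_num) (by norm_num))
    (exp_neg_leJ (r := 0.99) 14 (by norm_num) (by norm_num) (by norm_num) (by norm_num))
    (by norm_num)) (by norm_num) hN hβ.le (by norm_num)

private theorem JB6_k1a_b12_3 {β x y : ℝ} (hβ : 0 < β) (hN : β * 10.242 ≤ 1) (hx1 : 1.0402 ≤ x) (hx2 : x ≤ 1.1426)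
    (hy1 : -0 ≤ y) (hy2 : y ≤ 0.204) : ‖HH β (x + y * I) - 1‖ ≤ 0.045 := by
  refine le_epsJ (C := 0.4551) (N0 := 10.242) (J_boxp 1.0402 1.1426 0 0.204 0.204 1.4425 1.1607 1.6599 0.7437 0.514 3.2004 10.242 0.8047 2.984 1.438 0.9806 0.7212 0.5277 1.3643 3.4386 0.8394 1.9194 2.7761 2.6761 0.00062 0.004499 0.0000008571 0.0000003101 0.0001848 0.0000003101 0.0000003101 0.0000003101 0.4551
    hβ hN hx1 hx2 hy1 hy2 (by norm_num) (by norm_num) (by linarith) (by norm_num) (by norm_num) (by norm_num) (by norm_num) (by norm_num) (by norm_num) (by norm_num) (by norm_num) (by norm_num) (by norm_num) (by norm_num) (by norm_num) (by norm_num) (by norm_num) (by norm_num) (by norm_num) (by norm_num) (by norm_num) (by norm_num) (by norm_num) (by norm_num)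
    (cube_sqrt_geJ (s := 0.8554) (by norm_num) (by norm_num) (by norm_num) (by norm_num))
    (cube_sqrt_geJ (s := 0.9494) (by norm_num) (by norm_num) (by norm_num) (by norm_num))
    (by norm_num) (by norm_num) (by norm_num) (by norm_num) (by norm_num) (by norm_num) (by norm_num) (by norm_num) (by norm_num) (by norm_num) (by norm_num) (by norm_num) (by norm_num) (by norm_num) (by norm_num) (by norm_num) (by norm_num) (by norm_num)
    (exp_neg_leJ (r := 0.386) 7 (by norm_num) (by norm_num) (by norm_num) (by norm_num))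
    (exp_neg_leJ (r := 0.404) 5 (by norm_num) (by norm_num) (by norm_num) (by norm_num))
    (exp_neg_leJ (r := 0.973) 13 (by norm_num) (by norm_num) (by norm_num) (by norm_num))
    (exp_neg_leJ (r := 0.99) 14 (by norm_num) (by norm_num) (by norm_num) (by norm_num))
    (exp_neg_leJ (r := 0.597) 8 (by norm_num) (by norm_num) (by norm_num) (by norm_num))
    (exp_neg_leJ (r := 0.99) 14 (by norm_num) (by norm_num) (by norm_num) (by norm_num))
    (exp_neg_leJ (r := 0.99) 14 (by norm_num) (by norm_num) (by norm_num) (by norm_num))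
    (exp_neg_leJ (r := 0.99) 14 (by norm_num) (by norm_num) (by norm_num) (by norm_num))
    (by norm_num)) (by norm_num) hN hβ.le (by norm_num)

private theorem JB6_k1a_b12_4 {β x y : ℝ} (hβ : 0 < β) (hN : β * 10.242 ≤ 1) (hx1 : 0.9953 ≤ x) (hx2 : x ≤ 1.0902)
    (hy1 : -0 ≤ y) (hy2 : y ≤ 0.239) : ‖HH β (x + y * I) - 1‖ ≤ 0.045 := by
  refine le_epsJ (C := 0.4567) (N0 := 10.242) (J_boxp 0.9953 1.0902 0 0.239 0.239 1.4108 1.1161 1.6504 0.7667 0.5126 3.2004 10.242 0.7912 2.921 1.429 1.0008 0.7053 0.5193 1.3489 3.4667 0.814 1.8537 2.5362 2.5426 0.0007297 0.004903 0.000001003 0.0000003101 0.0002398 0.0000003101 0.0000003101 0.0000003101 0.4567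
    hβ hN hx1 hx2 hy1 hy2 (by norm_num) (by norm_num) (by linarith) (by norm_num) (by norm_num) (by norm_num) (by norm_num) (by norm_num) (by norm_num) (by norm_num) (by norm_num) (by norm_num) (by norm_num) (by norm_num) (by norm_num) (by norm_num) (by norm_num) (by norm_num) (by norm_num) (by norm_num) (by norm_num) (by norm_num) (by norm_num) (by norm_num)
    (cube_sqrt_geJ (s := 0.858) (by norm_num) (by norm_num) (by norm_num) (by norm_num))
    (cube_sqrt_geJ (s := 0.9503) (by norm_num) (by norm_num) (by norm_num) (by norm_num))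
    (by norm_num) (by norm_num) (by norm_num) (by norm_num) (by norm_num) (by norm_num) (by norm_num) (by norm_num) (by norm_num) (by norm_num) (by norm_num) (by norm_num) (by norm_num) (by norm_num) (by norm_num) (by norm_num) (by norm_num) (by norm_num)
    (exp_neg_leJ (r := 0.223) 7 (by norm_num) (by norm_num) (by norm_num) (by norm_num))
    (exp_neg_leJ (r := 0.318) 5 (by norm_num) (by norm_num) (by norm_num) (by norm_num))
    (exp_neg_leJ (r := 0.815) 13 (by norm_num) (by norm_num) (by norm_num) (by norm_num))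
    (exp_neg_leJ (r := 0.99) 14 (by norm_num) (by norm_num) (by norm_num) (by norm_num))
    (exp_neg_leJ (r := 0.336) 8 (by norm_num) (by norm_num) (by norm_num) (by norm_num))
    (exp_neg_leJ (r := 0.99) 14 (by norm_num) (by norm_num) (by norm_num) (by norm_num))
    (exp_neg_leJ (r := 0.99) 14 (by norm_num) (by norm_num) (by norm_num) (by norm_num))
    (exp_neg_leJ (r := 0.99) 14 (by norm_num) (by norm_num) (by norm_num) (by norm_num))
    (by norm_num)) (by norm_num) hN hβ.le (by norm_num)

private theorem JB6_k1a_b12_5 {β x y : ℝ} (hβ : 0 < β) (hN : β * 10.242 ≤ 1) (hx1 : 0.9549 ≤ x) (hx2 : x ≤ 1.0439)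
    (hy1 : -0 ≤ y) (hy2 : y ≤ 0.27) : ‖HH β (x + y * I) - 1‖ ≤ 0.045 := by
  refine le_epsJ (C := 0.4607) (N0 := 10.242) (J_boxp 0.9549 1.0439 0 0.27 0.27 1.3824 1.0783 1.644 0.7889 0.5116 3.2004 10.242 0.7801 2.87 1.422 1.0186 0.6911 0.5114 1.3351 3.4912 0.7912 1.7946 2.3224 2.4184 0.0008435 0.005317 0.000001153 0.0000003101 0.0003027 0.0000003101 0.0000003101 0.0000003101 0.4607
    hβ hN hx1 hx2 hy1 hy2 (by norm_num) (by norm_num) (by linarith) (by norm_num) (by norm_num) (by norm_num) (by norm_num) (by norm_num) (by norm_num) (by norm_num) (by norm_num) (by norm_num) (by norm_num) (by norm_num) (by norm_num) (by norm_num) (by norm_num) (by norm_num) (by norm_num) (by norm_num) (by norm_num) (by norm_num) (by norm_num) (by norm_num)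
    (cube_sqrt_geJ (s := 0.8602) (by norm_num) (by norm_num) (by norm_num) (by norm_num))
    (cube_sqrt_geJ (s := 0.951) (by norm_num) (by norm_num) (by norm_num) (by norm_num))
    (by norm_num) (by norm_num) (by norm_num) (by norm_num) (by norm_num) (by norm_num) (by norm_num) (by norm_num) (by norm_num) (by norm_num) (by norm_num) (by norm_num) (by norm_num) (by norm_num) (by norm_num) (by norm_num) (by norm_num) (by norm_num)
    (exp_neg_leJ (r := 0.078) 7 (by norm_num) (by norm_num) (by norm_num) (by norm_num))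
    (exp_neg_leJ (r := 0.237) 5 (by norm_num) (by norm_num) (by norm_num) (by norm_num))
    (exp_neg_leJ (r := 0.674) 13 (by norm_num) (by norm_num) (by norm_num) (by norm_num))
    (exp_neg_leJ (r := 0.99) 14 (by norm_num) (by norm_num) (by norm_num) (by norm_num))
    (exp_neg_leJ (r := 0.103) 8 (by norm_num) (by norm_num) (by norm_num) (by norm_num))
    (exp_neg_leJ (r := 0.99) 14 (by norm_num) (by norm_num) (by norm_num) (by norm_num))
    (exp_neg_leJ (r := 0.99) 14 (by norm_num) (by norm_num) (by norm_num) (by norm_num))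
    (exp_neg_leJ (r := 0.99) 14 (by norm_num) (by norm_num) (by norm_num) (by norm_num))
    (by norm_num)) (by norm_num) hN hβ.le (by norm_num)

theorem JB6_k1a_c12 {κ t β : ℝ} (h : DomR κ t) (hβ : 0 < β) (hk1 : 1.3 ≤ κ) (hk2 : κ ≤ 1.36)
    (ht1 : 0.04 ≤ t + κ) (ht2 : t + κ ≤ 0.62) (hR0 : β * 10 ≤ κ) (hR : β * (4.95 * (1 + κ ^ 2)) ≤ κ) :
    ‖HH β (sg κ t) - 1‖ ≤ 0.045 := by
  have hN : β * 10.242 ≤ 1 := bNC' hβ hk1 (by norm_num) (by norm_num) hR (by norm_num)
  have hy1 : 0.019 ≤ sy κ t := syR_ge h 1.3 1.36 0.04 0.019 1.01918 1.01919 0.01423 0.0149 hk1 hk2 (by linarith) (by norm_num) (by norm_num)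
    (expn_ge (by norm_num) (by norm_num)) (expn_le (by norm_num) (by norm_num) (by norm_num)) (by norm_num)
    (by norm_num) (by norm_num) (by norm_num) (by norm_num) (by norm_num) (by norm_num)
  have hy2 : sy κ t ≤ 0.27 := syR_le h 1.3 1.36 0.62 0.27 1.30996 0.263 0.26006 0.27208 hk1 hk2 (by linarith) (by norm_num) (by norm_num)
    (expn_ge (by norm_num) (by norm_num)) (by norm_num) (by norm_num) (Or.inr ((mul_le_mul_of_nonneg_left (expn_le (E := 1.30997) (by norm_num) (by norm_num) (by norm_num)) (by norm_num)).trans (by norm_num))) (by norm_num) (by norm_num) (by norm_num)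
  rcases le_total (sy κ t) 0.069 with f0 | g0
  · have hx1 : 1.2113 ≤ sx κ t := sx_lo h 1.3 0.069 0.069 0.93332 1.2113 hk1 (by norm_num) f0 (abs_le.2 ⟨by linarith, by linarith⟩) (expm_ge (by norm_num) (by norm_num) (by norm_num) (by norm_num)) (by norm_num) (by norm_num)
    have hx2 : sx κ t ≤ 1.3343 := sx_hi h 1.36 0.019 0.019 0.98118 1.3343 hk2 hy1 (by norm_num) (by rw [abs_of_nonneg (by linarith)]; linarith) (expm_le (by norm_num) (by norm_num) (by norm_num)) (by norm_num) (by norm_num)
    exact JB6_k1a_b12_0 hβ hN hx1 hx2 (by linarith) (by linarith)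
  rcases le_total (sy κ t) 0.119 with f1 | g1
  · have hx1 : 1.1479 ≤ sx κ t := sx_lo h 1.3 0.119 0.119 0.8878 1.1479 hk1 (by norm_num) f1 (abs_le.2 ⟨by linarith, by linarith⟩) (expm_ge (by norm_num) (by norm_num) (by norm_num) (by norm_num)) (by norm_num) (by norm_num)
    have hx2 : sx κ t ≤ 1.2675 := sx_hi h 1.36 0.069 0.069 0.93333 1.2675 hk2 g0 (by norm_num) (by rw [abs_of_nonneg (by linarith)]; linarith) (expm_le (by norm_num) (by norm_num) (by norm_num)) (by norm_num) (by norm_num)
    exact JB6_k1a_b12_1 hβ hN hx1 hx2 (by linarith) (by linarith)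
  rcases le_total (sy κ t) 0.164 with f2 | g2
  · have hx1 : 1.0911 ≤ sx κ t := sx_lo h 1.3 0.164 0.164 0.84874 1.0911 hk1 (by norm_num) f2 (abs_le.2 ⟨by linarith, by linarith⟩) (expm_ge (by norm_num) (by norm_num) (by norm_num) (by norm_num)) (by norm_num) (by norm_num)
    have hx2 : sx κ t ≤ 1.2016 := sx_hi h 1.36 0.119 0.119 0.88781 1.2016 hk2 g1 (by norm_num) (by rw [abs_of_nonneg (by linarith)]; linarith) (expm_le (by norm_num) (by norm_num) (by norm_num)) (by norm_num) (by norm_num)
    exact JB6_k1a_b12_2 hβ hN hx1 hx2 (by linarith) (by linarith)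
  rcases le_total (sy κ t) 0.204 with f3 | g3
  · have hx1 : 1.0402 ≤ sx κ t := sx_lo h 1.3 0.204 0.204 0.81546 1.0402 hk1 (by norm_num) f3 (abs_le.2 ⟨by linarith, by linarith⟩) (expm_ge (by norm_num) (by norm_num) (by norm_num) (by norm_num)) (by norm_num) (by norm_num)
    have hx2 : sx κ t ≤ 1.1426 := sx_hi h 1.36 0.164 0.164 0.84875 1.1426 hk2 g2 (by norm_num) (by rw [abs_of_nonneg (by linarith)]; linarith) (expm_le (by norm_num) (by norm_num) (by norm_num)) (by norm_num) (by norm_num)
    exact JB6_k1a_b12_3 hβ hN hx1 hx2 (by linarith) (by linarith)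
  rcases le_total (sy κ t) 0.239 with f4 | g4
  · have hx1 : 0.9953 ≤ sx κ t := sx_lo h 1.3 0.239 0.239 0.78741 0.9953 hk1 (by norm_num) f4 (abs_le.2 ⟨by linarith, by linarith⟩) (expm_ge (by norm_num) (by norm_num) (by norm_num) (by norm_num)) (by norm_num) (by norm_num)
    have hx2 : sx κ t ≤ 1.0902 := sx_hi h 1.36 0.204 0.204 0.81547 1.0902 hk2 g3 (by norm_num) (by rw [abs_of_nonneg (by linarith)]; linarith) (expm_le (by norm_num) (by norm_num) (by norm_num)) (by norm_num) (by norm_num)
    exact JB6_k1a_b12_4 hβ hN hx1 hx2 (by linarith) (by linarith)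
  have hx1 : 0.9549 ≤ sx κ t := sx_lo h 1.3 0.27 0.27 0.76337 0.9549 hk1 (by norm_num) hy2 (abs_le.2 ⟨by linarith, by linarith⟩) (expm_ge (by norm_num) (by norm_num) (by norm_num) (by norm_num)) (by norm_num) (by norm_num)
  have hx2 : sx κ t ≤ 1.0439 := sx_hi h 1.36 0.239 0.239 0.78742 1.0439 hk2 g4 (by norm_num) (by rw [abs_of_nonneg (by linarith)]; linarith) (expm_le (by norm_num) (by norm_num) (by norm_num)) (by norm_num) (by norm_num)
  exact JB6_k1a_b12_5 hβ hN hx1 hx2 (by linarith) (by linarith)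
end Sok
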