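import Pool.Agent.Lib.MP_816dec_an.JBG2

/-!
MP_816dec_an (A3, row R1): tables b = 6, real points.
-/

set_option autoImplicit false
set_option maxHeartbeats 4000000

open Complex Set

namespace Sok

private theorem JB6_k1a_b13_0 {β x y : ℝ} (hβ : 0 < β) (hN : β * 10.371 ≤ 1) (hx1 : 1.2357 ≤ x) (hx2 : x ≤ 1.3651)
    (hy1 : -0 ≤ y) (hy2 : y ≤ 0.093) : ‖HH β (x + y * I) - 1‖ ≤ 0.045 := by
  refine le_epsJ (C := 0.4649) (N0 := 10.371) (J_boxp 1.2357 1.3651 0 0.093 0.093 1.5801 1.3683 1.7488 0.6658 0.5276 3.2205 10.371 0.866 3.295 1.481 0.895 0.79 0.5619 1.4312 3.3139 0.9457 2.2014 3.6432 3.0258 0.0002766 0.002952 0.0000003589 0.0000003101 0.00005515 0.0000003101 0.0000003101 0.0000003101 0.4649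
    hβ hN hx1 hx2 hy1 hy2 (by norm_num) (by norm_num) (by linarith) (by norm_num) (by norm_num) (by norm_num) (by norm_num) (by norm_num) (by norm_num) (by norm_num) (by norm_num) (by norm_num) (by norm_num) (by norm_num) (by norm_num) (by norm_num) (by norm_num) (by norm_num) (by norm_num) (by norm_num) (by norm_num) (by norm_num) (by norm_num) (by norm_num)
    (cube_sqrt_geJ (s := 0.8434) (by norm_num) (by norm_num) (by norm_num) (by norm_num))
    (cube_sqrt_geJ (s := 0.9454) (by norm_num) (by norm_num) (by norm_num) (by norm_num))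
    (by norm_num) (by norm_num) (by norm_num) (by norm_num) (by norm_num) (by norm_num) (by norm_num) (by norm_num) (by norm_num) (by norm_num) (by norm_num) (by norm_num) (by norm_num) (by norm_num) (by norm_num) (by norm_num) (by norm_num) (by norm_num)
    (exp_neg_leJ (r := 0.193) 8 (by norm_num) (by norm_num) (by norm_num) (by norm_num))
    (exp_neg_leJ (r := 0.827) 5 (by norm_num) (by norm_num) (by norm_num) (by norm_num))
    (exp_neg_leJ (r := 0.842) 14 (by norm_num) (by norm_num) (by norm_num) (by norm_num))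
    (exp_neg_leJ (r := 0.99) 14 (by norm_num) (by norm_num) (by norm_num) (by norm_num))
    (exp_neg_leJ (r := 0.807) 9 (by norm_num) (by norm_num) (by norm_num) (by norm_num))
    (exp_neg_leJ (r := 0.99) 14 (by norm_num) (by norm_num) (by norm_num) (by norm_num))
    (exp_neg_leJ (r := 0.99) 14 (by norm_num) (by norm_num) (by norm_num) (by norm_num))
    (exp_neg_leJ (r := 0.99) 14 (by norm_num) (by norm_num) (by norm_num) (by norm_num))
    (by norm_num)) (by norm_num) hN hβ.le (by norm_num)

private theorem JB6_k1a_b13_1 {β x y : ℝ} (hβ : 0 < β) (hN : β * 10.371 ≤ 1) (hx1 : 1.1438 ≤ x) (hx2 : x ≤ 1.2632)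
    (hy1 : -0 ≤ y) (hy2 : y ≤ 0.163) : ‖HH β (x + y * I) - 1‖ ≤ 0.045 := by
  refine le_epsJ (C := 0.4633) (N0 := 10.371) (J_boxp 1.1438 1.2632 0 0.163 0.163 1.5154 1.2737 1.7171 0.7025 0.5228 3.2205 10.371 0.8406 3.161 1.463 0.9342 0.7576 0.5453 1.3998 3.3709 0.8939 2.067 3.1591 2.7693 0.0003878 0.003503 0.000000496 0.0000003101 0.00009422 0.0000003101 0.0000003101 0.0000003101 0.4633
    hβ hN hx1 hx2 hy1 hy2 (by norm_num) (by norm_num) (by linarith) (by norm_num) (by norm_num) (by norm_num) (by norm_num) (by norm_num) (by norm_num) (by norm_num) (by norm_num) (by norm_num) (by norm_num) (by norm_num) (by norm_num) (by norm_num) (by norm_num) (by norm_num) (by norm_num) (by norm_num) (by norm_num) (by norm_num) (by norm_num) (by norm_num)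
    (cube_sqrt_geJ (s := 0.8484) (by norm_num) (by norm_num) (by norm_num) (by norm_num))
    (cube_sqrt_geJ (s := 0.9471) (by norm_num) (by norm_num) (by norm_num) (by norm_num))
    (by norm_num) (by norm_num) (by norm_num) (by norm_num) (by norm_num) (by norm_num) (by norm_num) (by norm_num) (by norm_num) (by norm_num) (by norm_num) (by norm_num) (by norm_num) (by norm_num) (by norm_num) (by norm_num) (by norm_num) (by norm_num)
    (exp_neg_leJ (r := 0.857) 7 (by norm_num) (by norm_num) (by norm_num) (by norm_num))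
    (exp_neg_leJ (r := 0.655) 5 (by norm_num) (by norm_num) (by norm_num) (by norm_num))
    (exp_neg_leJ (r := 0.517) 14 (by norm_num) (by norm_num) (by norm_num) (by norm_num))
    (exp_neg_leJ (r := 0.99) 14 (by norm_num) (by norm_num) (by norm_num) (by norm_num))
    (exp_neg_leJ (r := 0.27) 9 (by norm_num) (by norm_num) (by norm_num) (by norm_num))
    (exp_neg_leJ (r := 0.99) 14 (by norm_num) (by norm_num) (by norm_num) (by norm_num))
    (exp_neg_leJ (r := 0.99) 14 (by norm_num) (by norm_num) (by norm_num) (by norm_num))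
    (exp_neg_leJ (r := 0.99) 14 (by norm_num) (by norm_num) (by norm_num) (by norm_num))
    (by norm_num)) (by norm_num) hN hβ.le (by norm_num)

private theorem JB6_k1a_b13_2 {β x y : ℝ} (hβ : 0 < β) (hN : β * 10.371 ≤ 1) (hx1 : 1.065 ≤ x) (hx2 : x ≤ 1.1697)
    (hy1 : -0 ≤ y) (hy2 : y ≤ 0.223) : ‖HH β (x + y * I) - 1‖ ≤ 0.045 := by
  refine le_epsJ (C := 0.4604) (N0 := 10.371) (J_boxp 1.065 1.1697 0 0.223 0.223 1.4599 1.1908 1.6924 0.7376 0.519 3.2205 10.371 0.8157 3.037 1.446 0.9702 0.7299 0.5314 1.3728 3.4221 0.8495 1.9518 2.7442 2.5543 0.0005164 0.004043 0.0000006561 0.0000003101 0.0001495 0.0000003101 0.0000003101 0.0000003101 0.4604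
    hβ hN hx1 hx2 hy1 hy2 (by norm_num) (by norm_num) (by linarith) (by norm_num) (by norm_num) (by norm_num) (by norm_num) (by norm_num) (by norm_num) (by norm_num) (by norm_num) (by norm_num) (by norm_num) (by norm_num) (by norm_num) (by norm_num) (by norm_num) (by norm_num) (by norm_num) (by norm_num) (by norm_num) (by norm_num) (by norm_num) (by norm_num)
    (cube_sqrt_geJ (s := 0.8532) (by norm_num) (by norm_num) (by norm_num) (by norm_num))
    (cube_sqrt_geJ (s := 0.9487) (by norm_num) (by norm_num) (by norm_num) (by norm_num))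
    (by norm_num) (by norm_num) (by norm_num) (by norm_num) (by norm_num) (by norm_num) (by norm_num) (by norm_num) (by norm_num) (by norm_num) (by norm_num) (by norm_num) (by norm_num) (by norm_num) (by norm_num) (by norm_num) (by norm_num) (by norm_num)
    (exp_neg_leJ (r := 0.569) 7 (by norm_num) (by norm_num) (by norm_num) (by norm_num))
    (exp_neg_leJ (r := 0.511) 5 (by norm_num) (by norm_num) (by norm_num) (by norm_num))
    (exp_neg_leJ (r := 0.237) 14 (by norm_num) (by norm_num) (by norm_num) (by norm_num))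
    (exp_neg_leJ (r := 0.99) 14 (by norm_num) (by norm_num) (by norm_num) (by norm_num))
    (exp_neg_leJ (r := 0.81) 8 (by norm_num) (by norm_num) (by norm_num) (by norm_num))
    (exp_neg_leJ (r := 0.99) 14 (by norm_num) (by norm_num) (by norm_num) (by norm_num))
    (exp_neg_leJ (r := 0.99) 14 (by norm_num) (by norm_num) (by norm_num) (by norm_num))
    (exp_neg_leJ (r := 0.99) 14 (by norm_num) (by norm_num) (by norm_num) (by norm_num))
    (by norm_num)) (by norm_num) hN hβ.le (by norm_num)

private theorem JB6_k1a_b13_3 {β x y : ℝ} (hβ : 0 < β) (hN : β * 10.371 ≤ 1) (hx1 : 1.0024 ≤ x) (hx2 : x ≤ 1.0896)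
    (hy1 : -0 ≤ y) (hy2 : y ≤ 0.27) : ‖HH β (x + y * I) - 1‖ ≤ 0.045 := by
  refine le_epsJ (C := 0.4558) (N0 := 10.371) (J_boxp 1.0024 1.0896 0 0.27 0.27 1.4158 1.1226 1.6734 0.7679 0.5161 3.2205 10.371 0.793 2.929 1.43 1.001 0.7078 0.5207 1.3514 3.4652 0.8143 1.8603 2.4174 2.393 0.0006491 0.004517 0.0000008192 0.0000003101 0.000215 0.0000003101 0.0000003101 0.0000003101 0.4558
    hβ hN hx1 hx2 hy1 hy2 (by norm_num) (by norm_num) (by linarith) (by norm_num) (by norm_num) (by norm_num) (by norm_num) (by norm_num) (by norm_num) (by norm_num) (by norm_num) (by norm_num) (by norm_num) (by norm_num) (by norm_num) (by norm_num) (by norm_num) (by norm_num) (by norm_num) (by norm_num) (by norm_num) (by norm_num) (by norm_num) (by norm_num)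
    (cube_sqrt_geJ (s := 0.8577) (by norm_num) (by norm_num) (by norm_num) (by norm_num))
    (cube_sqrt_geJ (s := 0.9502) (by norm_num) (by norm_num) (by norm_num) (by norm_num))
    (by norm_num) (by norm_num) (by norm_num) (by norm_num) (by norm_num) (by norm_num) (by norm_num) (by norm_num) (by norm_num) (by norm_num) (by norm_num) (by norm_num) (by norm_num) (by norm_num) (by norm_num) (by norm_num) (by norm_num) (by norm_num)
    (exp_neg_leJ (r := 0.34) 7 (by norm_num) (by norm_num) (by norm_num) (by norm_num))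
    (exp_neg_leJ (r := 0.4) 5 (by norm_num) (by norm_num) (by norm_num) (by norm_num))
    (exp_neg_leJ (r := 0.015) 14 (by norm_num) (by norm_num) (by norm_num) (by norm_num))
    (exp_neg_leJ (r := 0.99) 14 (by norm_num) (by norm_num) (by norm_num) (by norm_num))
    (exp_neg_leJ (r := 0.445) 8 (by norm_num) (by norm_num) (by norm_num) (by norm_num))
    (exp_neg_leJ (r := 0.99) 14 (by norm_num) (by norm_num) (by norm_num) (by norm_num))
    (exp_neg_leJ (r := 0.99) 14 (by norm_num) (by norm_num) (by norm_num) (by norm_num))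
    (exp_neg_leJ (r := 0.99) 14 (by norm_num) (by norm_num) (by norm_num) (by norm_num))
    (by norm_num)) (by norm_num) hN hβ.le (by norm_num)

theorem JB6_k1a_c13 {κ t β : ℝ} (h : DomR κ t) (hβ : 0 < β) (hk1 : 1.36 ≤ κ) (hk2 : κ ≤ 1.39)
    (ht1 : 0.04 ≤ t + κ) (ht2 : t + κ ≤ 0.62) (hR0 : β * 10 ≤ κ) (hR : β * (4.95 * (1 + κ ^ 2)) ≤ κ) :
    ‖HH β (sg κ t) - 1‖ ≤ 0.045 := by
  have hN : β * 10.371 ≤ 1 := bNC' hβ hk1 (by norm_num) (by norm_num) hR (by norm_num)
  have hy1 : 0.018 ≤ sy κ t := syR_ge h 1.36 1.39 0.04 0.018 1.01816 1.01817 0.01318 0.01348 hk1 hk2 (by linarith) (by norm_num) (by norm_num)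
    (expn_ge (by norm_num) (by norm_num)) (expn_le (by norm_num) (by norm_num) (by norm_num)) (by norm_num)
    (by norm_num) (by norm_num) (by norm_num) (by norm_num) (by norm_num) (by norm_num)
  have hy2 : sy κ t ≤ 0.27 := syR_le h 1.36 1.39 0.62 0.27 1.30996 0.253 0.25445 0.26007 hk1 hk2 (by linarith) (by norm_num) (by norm_num)
    (expn_ge (by norm_num) (by norm_num)) (by norm_num) (by norm_num) (Or.inr ((mul_le_mul_of_nonneg_left (expn_le (E := 1.30997) (by norm_num) (by norm_num) (by norm_num)) (by norm_num)).trans (by norm_num))) (by norm_num) (by norm_num) (by norm_num)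
  rcases le_total (sy κ t) 0.093 with f0 | g0
  · have hx1 : 1.2357 ≤ sx κ t := sx_lo h 1.36 0.093 0.093 0.91119 1.2357 hk1 (by norm_num) f0 (abs_le.2 ⟨by linarith, by linarith⟩) (expm_ge (by norm_num) (by norm_num) (by norm_num) (by norm_num)) (by norm_num) (by norm_num)
    have hx2 : sx κ t ≤ 1.3651 := sx_hi h 1.39 0.018 0.018 0.98217 1.3651 hk2 hy1 (by norm_num) (by rw [abs_of_nonneg (by linarith)]; linarith) (expm_le (by norm_num) (by norm_num) (by norm_num)) (by norm_num) (by norm_num)
    exact JB6_k1a_b13_0 hβ hN hx1 hx2 (by linarith) (by linarith)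
  rcases le_total (sy κ t) 0.163 with f1 | g1
  · have hx1 : 1.1438 ≤ sx κ t := sx_lo h 1.36 0.163 0.163 0.84959 1.1438 hk1 (by norm_num) f1 (abs_le.2 ⟨by linarith, by linarith⟩) (expm_ge (by norm_num) (by norm_num) (by norm_num) (by norm_num)) (by norm_num) (by norm_num)
    have hx2 : sx κ t ≤ 1.2632 := sx_hi h 1.39 0.093 0.093 0.9112 1.2632 hk2 g0 (by norm_num) (by rw [abs_of_nonneg (by linarith)]; linarith) (expm_le (by norm_num) (by norm_num) (by norm_num)) (by norm_num) (by norm_num)
    exact JB6_k1a_b13_1 hβ hN hx1 hx2 (by linarith) (by linarith)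
  rcases le_total (sy κ t) 0.223 with f2 | g2
  · have hx1 : 1.065 ≤ sx κ t := sx_lo h 1.36 0.223 0.223 0.80011 1.065 hk1 (by norm_num) f2 (abs_le.2 ⟨by linarith, by linarith⟩) (expm_ge (by norm_num) (by norm_num) (by norm_num) (by norm_num)) (by norm_num) (by norm_num)
    have hx2 : sx κ t ≤ 1.1697 := sx_hi h 1.39 0.163 0.163 0.8496 1.1697 hk2 g1 (by norm_num) (by rw [abs_of_nonneg (by linarith)]; linarith) (expm_le (by norm_num) (by norm_num) (by norm_num)) (by norm_num) (by norm_num)
    exact JB6_k1a_b13_2 hβ hN hx1 hx2 (by linarith) (by linarith)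
  have hx1 : 1.0024 ≤ sx κ t := sx_lo h 1.36 0.27 0.27 0.76337 1.0024 hk1 (by norm_num) hy2 (abs_le.2 ⟨by linarith, by linarith⟩) (expm_ge (by norm_num) (by norm_num) (by norm_num) (by norm_num)) (by norm_num) (by norm_num)
  have hx2 : sx κ t ≤ 1.0896 := sx_hi h 1.39 0.223 0.223 0.80012 1.0896 hk2 g2 (by norm_num) (by rw [abs_of_nonneg (by linarith)]; linarith) (expm_le (by norm_num) (by norm_num) (by norm_num)) (by norm_num) (by norm_num)
  exact JB6_k1a_b13_3 hβ hN hx1 hx2 (by linarith) (by linarith)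
end Sok
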