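import Pool.Agent.Lib.MP_816dec_an.JBG2
import Pool.Agent.Lib.MP_816dec_an.JB6a1p1
import Pool.Agent.Lib.MP_816dec_an.JB6a1p2
import Pool.Agent.Lib.MP_816dec_an.JB6a1p3
import Pool.Agent.Lib.MP_816dec_an.JB6a1p4

/-!
MP_816dec_an (A3, row R1): tables b = 6, real points.
-/

set_option autoImplicit false
set_option maxHeartbeats 4000000

open Complex Set

namespace Sok

theorem JB6_k1a {κ t β : ℝ} (h : DomR κ t) (hβ : 0 < β) (hk1 : 0.3 ≤ κ) (hk2 : κ ≤ 1.39)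
    (ht1 : 0.04 ≤ t + κ) (ht2 : t + κ ≤ 0.62) (hR0 : β * 10 ≤ κ) (hR : β * (4.95 * (1 + κ ^ 2)) ≤ κ) :
    ‖HH β (sg κ t) - 1‖ ≤ 0.045 := by
  rcases le_total κ 0.6 with f0 | g0
  · exact JB6_k1a_c0 h hβ hk1 f0 ht1 ht2 hR0 hR
  rcases le_total κ 0.81 with f1 | g1
  · exact JB6_k1a_c1 h hβ g0 f1 ht1 ht2 hR0 hR
  rcases le_total κ 0.92 with f2 | g2
  · exact JB6_k1a_c2 h hβ g1 f2 ht1 ht2 hR0 hR
  rcases le_total κ 0.98 with f3 | g3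
  · exact JB6_k1a_c3 h hβ g2 f3 ht1 ht2 hR0 hR
  rcases le_total κ 1 with f4 | g4
  · exact JB6_k1a_c4 h hβ g3 f4 ht1 ht2 hR0 hR
  rcases le_total κ 1.04 with f5 | g5
  · exact JB6_k1a_c5 h hβ g4 f5 ht1 ht2 hR0 hR
  rcases le_total κ 1.08 with f6 | g6
  · exact JB6_k1a_c6 h hβ g5 f6 ht1 ht2 hR0 hR
  rcases le_total κ 1.12 with f7 | g7
  · exact JB6_k1a_c7 h hβ g6 f7 ht1 ht2 hR0 hR
  rcases le_total κ 1.16 with f8 | g8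
  · exact JB6_k1a_c8 h hβ g7 f8 ht1 ht2 hR0 hR
  rcases le_total κ 1.2 with f9 | g9
  · exact JB6_k1a_c9 h hβ g8 f9 ht1 ht2 hR0 hR
  rcases le_total κ 1.25 with f10 | g10
  · exact JB6_k1a_c10 h hβ g9 f10 ht1 ht2 hR0 hR
  rcases le_total κ 1.3 with f11 | g11
  · exact JB6_k1a_c11 h hβ g10 f11 ht1 ht2 hR0 hR
  rcases le_total κ 1.36 with f12 | g12
  · exact JB6_k1a_c12 h hβ g11 f12 ht1 ht2 hR0 hR
  exact JB6_k1a_c13 h hβ g12 hk2 ht1 ht2 hR0 hR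
end Sok
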