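import Pool.Agent.Lib.MP_816dec_an.JBG2

/-!
MP_816dec_an (A3, row R1): tables b = 6, real points.
-/

set_option autoImplicit false
set_option maxHeartbeats 4000000

open Complex Set

namespace Sok

private theorem JB6_k1b_b0_0 {β x y : ℝ} (hβ : 0 < β) (hN : β * 16.666 ≤ 1) (hx1 : 0.0787 ≤ x) (hx2 : x ≤ 0.5098)
    (hy1 : -0 ≤ y) (hy2 : y ≤ 0.226) (hsl : y ≤ 2.45 * x) : ‖HH β (x + y * I) - 1‖ ≤ 0.06 := by
  refine le_epsJ (C := 0.9609) (N0 := 16.666) (J_boxp 0.0787 0.5098 0 0.226 0.226 0.7654 0.5577 1.3278 1.7209 0.4598 4.0825 16.666 0.7287 2.649 1.388 1.224 0.3826 0.2897 1.0352 3.7964 0.3702 0.5859 0.7587 2.2885 0.001703 0.008016 0.0000003101 0.0000003101 0.002094 0.00005756 0.000003229 0.0000003101 0.9609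
    hβ hN hx1 hx2 hy1 hy2 (by norm_num) (by norm_num) hsl (by norm_num) (by norm_num) (by norm_num) (by norm_num) (by norm_num) (by norm_num) (by norm_num) (by norm_num) (by norm_num) (by norm_num) (by norm_num) (by norm_num) (by norm_num) (by norm_num) (by norm_num) (by norm_num) (by norm_num) (by norm_num) (by norm_num) (by norm_num) (by norm_num)
    (cube_sqrt_geJ (s := 0.8701) (by norm_num) (by norm_num) (by norm_num) (by norm_num))
    (cube_sqrt_geJ (s := 0.9543) (by norm_num) (by norm_num) (by norm_num) (by norm_num))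
    (by norm_num) (by norm_num) (by norm_num) (by norm_num) (by norm_num) (by norm_num) (by norm_num) (by norm_num) (by norm_num) (by norm_num) (by norm_num) (by norm_num) (by norm_num) (by norm_num) (by norm_num) (by norm_num) (by norm_num) (by norm_num)
    (exp_neg_leJ (r := 0.376) 6 (by norm_num) (by norm_num) (by norm_num) (by norm_num))
    (exp_neg_leJ (r := 0.828) 4 (by norm_num) (by norm_num) (by norm_num) (by norm_num))
    (exp_neg_leJ (r := 0.99) 14 (by norm_num) (by norm_num) (by norm_num) (by norm_num))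
    (exp_neg_leJ (r := 0.99) 14 (by norm_num) (by norm_num) (by norm_num) (by norm_num))
    (exp_neg_leJ (r := 0.169) 6 (by norm_num) (by norm_num) (by norm_num) (by norm_num))
    (exp_neg_leJ (r := 0.764) 9 (by norm_num) (by norm_num) (by norm_num) (by norm_num))
    (exp_neg_leJ (r := 0.644) 12 (by norm_num) (by norm_num) (by norm_num) (by norm_num))
    (exp_neg_leJ (r := 0.99) 14 (by norm_num) (by norm_num) (by norm_num) (by norm_num))
    (by norm_num)) (by norm_num) hN hβ.le (by norm_num)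

private theorem JB6_k1b_b0_1 {β x y : ℝ} (hβ : 0 < β) (hN : β * 16.666 ≤ 1) (hx1 : 0.0922 ≤ x) (hx2 : x ≤ 0.422)
    (hy1 : -0 ≤ y) (hy2 : y ≤ 0.323) (hsl : y ≤ 2.45 * x) : ‖HH β (x + y * I) - 1‖ ≤ 0.06 := by
  refine le_epsJ (C := 0.859) (N0 := 16.666) (J_boxp 0.0922 0.422 0 0.323 0.323 0.7749 0.5315 1.3887 1.7276 0.4702 4.0825 16.666 0.6859 2.481 1.36 1.2578 0.3874 0.2988 1.0398 3.8305 0.3668 0.5947 0.3697 1.9297 0.001572 0.006905 0.0000003101 0.0000003101 0.002214 0.00004975 0.002111 0.0000003101 0.859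
    hβ hN hx1 hx2 hy1 hy2 (by norm_num) (by norm_num) hsl (by norm_num) (by norm_num) (by norm_num) (by norm_num) (by norm_num) (by norm_num) (by norm_num) (by norm_num) (by norm_num) (by norm_num) (by norm_num) (by norm_num) (by norm_num) (by norm_num) (by norm_num) (by norm_num) (by norm_num) (by norm_num) (by norm_num) (by norm_num) (by norm_num)
    (cube_sqrt_geJ (s := 0.8782) (by norm_num) (by norm_num) (by norm_num) (by norm_num))
    (cube_sqrt_geJ (s := 0.957) (by norm_num) (by norm_num) (by norm_num) (by norm_num))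
    (by norm_num) (by norm_num) (by norm_num) (by norm_num) (by norm_num) (by norm_num) (by norm_num) (by norm_num) (by norm_num) (by norm_num) (by norm_num) (by norm_num) (by norm_num) (by norm_num) (by norm_num) (by norm_num) (by norm_num) (by norm_num)
    (exp_neg_leJ (r := 0.456) 6 (by norm_num) (by norm_num) (by norm_num) (by norm_num))
    (exp_neg_leJ (r := 0.979) 4 (by norm_num) (by norm_num) (by norm_num) (by norm_num))
    (exp_neg_leJ (r := 0.99) 14 (by norm_num) (by norm_num) (by norm_num) (by norm_num))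
    (exp_neg_leJ (r := 0.99) 14 (by norm_num) (by norm_num) (by norm_num) (by norm_num))
    (exp_neg_leJ (r := 0.113) 6 (by norm_num) (by norm_num) (by norm_num) (by norm_num))
    (exp_neg_leJ (r := 0.911) 9 (by norm_num) (by norm_num) (by norm_num) (by norm_num))
    (exp_neg_leJ (r := 0.161) 6 (by norm_num) (by norm_num) (by norm_num) (by norm_num))
    (exp_neg_leJ (r := 0.99) 14 (by norm_num) (by norm_num) (by norm_num) (by norm_num))
    (by norm_num)) (by norm_num) hN hβ.le (by norm_num)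

theorem JB6_k1b_c0 {κ t β : ℝ} (h : DomR κ t) (hβ : 0 < β) (hk1 : 0.3 ≤ κ) (hk2 : κ ≤ 0.6)
    (ht1 : 0.6 ≤ t + κ) (ht2 : t + κ ≤ 1.11) (hR0 : β * 10 ≤ κ) (hR : β * (4.95 * (1 + κ ^ 2)) ≤ κ) :
    ‖HH β (sg κ t) - 1‖ ≤ 0.06 := by
  have hN : β * 16.666 ≤ 1 := bNR hβ h.1 hk2 hR0 (by norm_num)
  have hy1 : 0.131 ≤ sy κ t := syR_ge h 0.3 0.6 0.6 0.131 1.13996 1.13997 0.24889 0.49779 hk1 hk2 (by linarith) (by norm_num) (by norm_num)
    (expn_ge (by norm_num) (by norm_num)) (expn_le (by norm_num) (by norm_num) (by norm_num)) (by norm_num)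
    (by norm_num) (by norm_num) (by norm_num) (by norm_num) (by norm_num) (by norm_num)
  have hy2 : sy κ t ≤ 0.323 := syR_le h 0.3 0.6 1.11 0.323 1.38126 0.7222 0.74357 1 hk1 hk2 (by linarith) (by norm_num) (by norm_num)
    (expn_ge (by norm_num) (by norm_num)) (by norm_num) (by norm_num) (Or.inl (by norm_num)) (by norm_num) (by norm_num) (by norm_num)
  rcases le_total (sy κ t) 0.226 with f0 | g0
  · have hsl : sy κ t ≤ 2.45 * sx κ t := sy_slope h 0.3 1.11 0.131 0.87722 hk1 (by norm_num) ht2 (by norm_num) hy1 (expm_le (by norm_num) (by norm_num) (by norm_num)) (by norm_num)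
    have hx1 : 0.0787 ≤ sx κ t := sx_lo h 0.3 0.226 0.226 0.79771 0.0787 hk1 (by norm_num) f0 (abs_le.2 ⟨by linarith, by linarith⟩) (expm_ge (by norm_num) (by norm_num) (by norm_num) (by norm_num)) (by norm_num) (by norm_num)
    have hx2 : sx κ t ≤ 0.5098 := sx_hi h 0.6 0.131 0.131 0.87722 0.5098 hk2 hy1 (by norm_num) (by rw [abs_of_nonneg (by linarith)]; linarith) (expm_le (by norm_num) (by norm_num) (by norm_num)) (by norm_num) (by norm_num)
    exact JB6_k1b_b0_0 hβ hN hx1 hx2 (by linarith) (by linarith) hsl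
  have hsl : sy κ t ≤ 2.45 * sx κ t := sy_slope h 0.3 1.11 0.226 0.79772 hk1 (by norm_num) ht2 (by norm_num) g0 (expm_le (by norm_num) (by norm_num) (by norm_num)) (by norm_num)
  have hx1 : 0.0922 ≤ sx κ t := by linarith
  have hx2 : sx κ t ≤ 0.422 := sx_hi h 0.6 0.226 0.226 0.79772 0.422 hk2 g0 (by norm_num) (by rw [abs_of_nonneg (by linarith)]; linarith) (expm_le (by norm_num) (by norm_num) (by norm_num)) (by norm_num) (by norm_num)
  exact JB6_k1b_b0_1 hβ hN hx1 hx2 (by linarith) (by linarith) hsl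

private theorem JB6_k1b_b1_0 {β x y : ℝ} (hβ : 0 < β) (hN : β * 12.987 ≤ 1) (hx1 : 0.309 ≤ x) (hx2 : x ≤ 0.5909)
    (hy1 : -0 ≤ y) (hy2 : y ≤ 0.312) : ‖HH β (x + y * I) - 1‖ ≤ 0.06 := by
  refine le_epsJ (C := 0.76) (N0 := 12.987) (J_boxp 0.309 0.5909 0 0.312 0.312 0.9276 0.6683 1.439 1.3428 0.4786 3.6038 12.987 0.7205 2.616 1.382 1.1928 0.4637 0.3524 1.114 3.7415 0.4732 0.896 0.8505 2.0432 0.002425 0.0103 0.0000005214 0.0000003101 0.002145 0.000008847 0.00001597 0.0000003101 0.76
    hβ hN hx1 hx2 hy1 hy2 (by norm_num) (by norm_num) (by linarith) (by norm_num) (by norm_num) (by norm_num) (by norm_num) (by norm_num) (by norm_num) (by norm_num) (by norm_num) (by norm_num) (by norm_num) (by norm_num) (by norm_num) (by norm_num) (by norm_num) (by norm_num) (by norm_num) (by norm_num) (by norm_num) (by norm_num) (by norm_num) (by norm_num)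
    (cube_sqrt_geJ (s := 0.8716) (by norm_num) (by norm_num) (by norm_num) (by norm_num))
    (cube_sqrt_geJ (s := 0.9548) (by norm_num) (by norm_num) (by norm_num) (by norm_num))
    (by norm_num) (by norm_num) (by norm_num) (by norm_num) (by norm_num) (by norm_num) (by norm_num) (by norm_num) (by norm_num) (by norm_num) (by norm_num) (by norm_num) (by norm_num) (by norm_num) (by norm_num) (by norm_num) (by norm_num) (by norm_num)
    (exp_neg_leJ (r := 0.022) 6 (by norm_num) (by norm_num) (by norm_num) (by norm_num))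
    (exp_neg_leJ (r := 0.576) 4 (by norm_num) (by norm_num) (by norm_num) (by norm_num))
    (exp_neg_leJ (r := 0.467) 14 (by norm_num) (by norm_num) (by norm_num) (by norm_num))
    (exp_neg_leJ (r := 0.99) 14 (by norm_num) (by norm_num) (by norm_num) (by norm_num))
    (exp_neg_leJ (r := 0.145) 6 (by norm_num) (by norm_num) (by norm_num) (by norm_num))
    (exp_neg_leJ (r := 0.636) 11 (by norm_num) (by norm_num) (by norm_num) (by norm_num))
    (exp_neg_leJ (r := 0.045) 11 (by norm_num) (by norm_num) (by norm_num) (by norm_num))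
    (exp_neg_leJ (r := 0.99) 14 (by norm_num) (by norm_num) (by norm_num) (by norm_num))
    (by norm_num)) (by norm_num) hN hβ.le (by norm_num)

private theorem JB6_k1b_b1_1 {β x y : ℝ} (hβ : 0 < β) (hN : β * 12.987 ≤ 1) (hx1 : 0.2437 ≤ x) (hx2 : x ≤ 0.4695)
    (hy1 : -0 ≤ y) (hy2 : y ≤ 0.347) : ‖HH β (x + y * I) - 1‖ ≤ 0.06 := by
  refine le_epsJ (C := 0.7441) (N0 := 12.987) (J_boxp 0.2437 0.4695 0 0.347 0.347 0.8816 0.5839 1.4265 1.4429 0.4765 3.6038 12.987 0.6624 2.395 1.345 1.2395 0.4407 0.3434 1.0917 3.8017 0.438 0.802 0.5698 1.9771 0.003273 0.01158 0.0000006967 0.0000003101 0.003389 0.00002999 0.000612 0.0000003101 0.7441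
    hβ hN hx1 hx2 hy1 hy2 (by norm_num) (by norm_num) (by linarith) (by norm_num) (by norm_num) (by norm_num) (by norm_num) (by norm_num) (by norm_num) (by norm_num) (by norm_num) (by norm_num) (by norm_num) (by norm_num) (by norm_num) (by norm_num) (by norm_num) (by norm_num) (by norm_num) (by norm_num) (by norm_num) (by norm_num) (by norm_num) (by norm_num)
    (cube_sqrt_geJ (s := 0.8827) (by norm_num) (by norm_num) (by norm_num) (by norm_num))
    (cube_sqrt_geJ (s := 0.9585) (by norm_num) (by norm_num) (by norm_num) (by norm_num))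
    (by norm_num) (by norm_num) (by norm_num) (by norm_num) (by norm_num) (by norm_num) (by norm_num) (by norm_num) (by norm_num) (by norm_num) (by norm_num) (by norm_num) (by norm_num) (by norm_num) (by norm_num) (by norm_num) (by norm_num) (by norm_num)
    (exp_neg_leJ (r := 0.723) 5 (by norm_num) (by norm_num) (by norm_num) (by norm_num))
    (exp_neg_leJ (r := 0.459) 4 (by norm_num) (by norm_num) (by norm_num) (by norm_num))
    (exp_neg_leJ (r := 0.177) 14 (by norm_num) (by norm_num) (by norm_num) (by norm_num))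
    (exp_neg_leJ (r := 0.99) 14 (by norm_num) (by norm_num) (by norm_num) (by norm_num))
    (exp_neg_leJ (r := 0.688) 5 (by norm_num) (by norm_num) (by norm_num) (by norm_num))
    (exp_neg_leJ (r := 0.415) 10 (by norm_num) (by norm_num) (by norm_num) (by norm_num))
    (exp_neg_leJ (r := 0.399) 7 (by norm_num) (by norm_num) (by norm_num) (by norm_num))
    (exp_neg_leJ (r := 0.99) 14 (by norm_num) (by norm_num) (by norm_num) (by norm_num))
    (by norm_num)) (by norm_num) hN hβ.le (by norm_num)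

private theorem JB6_k1b_b1_2 {β x y : ℝ} (hβ : 0 < β) (hN : β * 12.987 ≤ 1) (hx1 : 0.2209 ≤ x) (hx2 : x ≤ 0.4193)
    (hy1 : -0 ≤ y) (hy2 : y ≤ 0.357) : ‖HH β (x + y * I) - 1‖ ≤ 0.06 := by
  refine le_epsJ (C := 0.7342) (N0 := 12.987) (J_boxp 0.2209 0.4193 0 0.357 0.357 0.8656 0.5507 1.4204 1.4799 0.4755 3.6038 12.987 0.6363 2.304 1.329 1.2588 0.4327 0.341 1.0838 3.8261 0.4259 0.7694 0.4813 1.9747 0.00363 0.01194 0.0000007715 0.0000003101 0.003963 0.00004602 0.001931 0.0000003101 0.7342
    hβ hN hx1 hx2 hy1 hy2 (by norm_num) (by norm_num) (by linarith) (by norm_num) (by norm_num) (by norm_num) (by norm_num) (by norm_num) (by norm_num) (by norm_num) (by norm_num) (by norm_num) (by norm_num) (by norm_num) (by norm_num) (by norm_num) (by norm_num) (by norm_num) (by norm_num) (by norm_num) (by norm_num) (by norm_num) (by norm_num) (by norm_num)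
    (cube_sqrt_geJ (s := 0.8876) (by norm_num) (by norm_num) (by norm_num) (by norm_num))
    (cube_sqrt_geJ (s := 0.9602) (by norm_num) (by norm_num) (by norm_num) (by norm_num))
    (by norm_num) (by norm_num) (by norm_num) (by norm_num) (by norm_num) (by norm_num) (by norm_num) (by norm_num) (by norm_num) (by norm_num) (by norm_num) (by norm_num) (by norm_num) (by norm_num) (by norm_num) (by norm_num) (by norm_num) (by norm_num)
    (exp_neg_leJ (r := 0.619) 5 (by norm_num) (by norm_num) (by norm_num) (by norm_num))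
    (exp_neg_leJ (r := 0.428) 4 (by norm_num) (by norm_num) (by norm_num) (by norm_num))
    (exp_neg_leJ (r := 0.075) 14 (by norm_num) (by norm_num) (by norm_num) (by norm_num))
    (exp_neg_leJ (r := 0.99) 14 (by norm_num) (by norm_num) (by norm_num) (by norm_num))
    (exp_neg_leJ (r := 0.531) 5 (by norm_num) (by norm_num) (by norm_num) (by norm_num))
    (exp_neg_leJ (r := 0.99) 9 (by norm_num) (by norm_num) (by norm_num) (by norm_num))
    (exp_neg_leJ (r := 0.25) 6 (by norm_num) (by norm_num) (by norm_num) (by norm_num))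
    (exp_neg_leJ (r := 0.99) 14 (by norm_num) (by norm_num) (by norm_num) (by norm_num))
    (by norm_num)) (by norm_num) hN hβ.le (by norm_num)

private theorem JB6_k1b_b1_3 {β x y : ℝ} (hβ : 0 < β) (hN : β * 12.987 ≤ 1) (hx1 : 0.2085 ≤ x) (hx2 : x ≤ 0.4036)
    (hy1 : -0 ≤ y) (hy2 : y ≤ 0.362) : ‖HH β (x + y * I) - 1‖ ≤ 0.06 := by
  refine le_epsJ (C := 0.7543) (N0 := 12.987) (J_boxp 0.2085 0.4036 0 0.362 0.362 0.8568 0.5422 1.4206 1.5029 0.4755 3.6038 12.987 0.6329 2.292 1.327 1.2648 0.4283 0.338 1.0796 3.8332 0.4193 0.7517 0.435 1.9494 0.003843 0.01242 0.0000008151 0.0000003101 0.004319 0.00005767 0.003524 0.0000003101 0.7543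
    hβ hN hx1 hx2 hy1 hy2 (by norm_num) (by norm_num) (by linarith) (by norm_num) (by norm_num) (by norm_num) (by norm_num) (by norm_num) (by norm_num) (by norm_num) (by norm_num) (by norm_num) (by norm_num) (by norm_num) (by norm_num) (by norm_num) (by norm_num) (by norm_num) (by norm_num) (by norm_num) (by norm_num) (by norm_num) (by norm_num) (by norm_num)
    (cube_sqrt_geJ (s := 0.8882) (by norm_num) (by norm_num) (by norm_num) (by norm_num))
    (cube_sqrt_geJ (s := 0.9604) (by norm_num) (by norm_num) (by norm_num) (by norm_num))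
    (by norm_num) (by norm_num) (by norm_num) (by norm_num) (by norm_num) (by norm_num) (by norm_num) (by norm_num) (by norm_num) (by norm_num) (by norm_num) (by norm_num) (by norm_num) (by norm_num) (by norm_num) (by norm_num) (by norm_num) (by norm_num)
    (exp_neg_leJ (r := 0.562) 5 (by norm_num) (by norm_num) (by norm_num) (by norm_num))
    (exp_neg_leJ (r := 0.389) 4 (by norm_num) (by norm_num) (by norm_num) (by norm_num))
    (exp_neg_leJ (r := 0.02) 14 (by norm_num) (by norm_num) (by norm_num) (by norm_num))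
    (exp_neg_leJ (r := 0.99) 14 (by norm_num) (by norm_num) (by norm_num) (by norm_num))
    (exp_neg_leJ (r := 0.445) 5 (by norm_num) (by norm_num) (by norm_num) (by norm_num))
    (exp_neg_leJ (r := 0.762) 9 (by norm_num) (by norm_num) (by norm_num) (by norm_num))
    (exp_neg_leJ (r := 0.649) 5 (by norm_num) (by norm_num) (by norm_num) (by norm_num))
    (exp_neg_leJ (r := 0.99) 14 (by norm_num) (by norm_num) (by norm_num) (by norm_num))
    (by norm_num)) (by norm_num) hN hβ.le (by norm_num)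

private theorem JB6_k1b_b1_4 {β x y : ℝ} (hβ : 0 < β) (hN : β * 12.987 ≤ 1) (hx1 : 0.2006 ≤ x) (hx2 : x ≤ 0.3955)
    (hy1 : -0 ≤ y) (hy2 : y ≤ 0.365) : ‖HH β (x + y * I) - 1‖ ≤ 0.06 := by
  refine le_epsJ (C := 0.7719) (N0 := 12.987) (J_boxp 0.2006 0.3955 0 0.365 0.365 0.8513 0.5382 1.4212 1.5178 0.4756 3.6038 12.987 0.6323 2.29 1.326 1.268 0.4256 0.3359 1.0769 3.8368 0.4152 0.7405 0.4064 1.9303 0.003979 0.01276 0.0000008471 0.0000003101 0.004554 0.00006669 0.005108 0.0000003101 0.7719
    hβ hN hx1 hx2 hy1 hy2 (by norm_num) (by norm_num) (by linarith) (by norm_num) (by norm_num) (by norm_num) (by norm_num) (by norm_num) (by norm_num) (by norm_num) (by norm_num) (by norm_num) (by norm_num) (by norm_num) (by norm_num) (by norm_num) (by norm_num) (by norm_num) (by norm_num) (by norm_num) (by norm_num) (by norm_num) (by norm_num) (by norm_num)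
    (cube_sqrt_geJ (s := 0.8883) (by norm_num) (by norm_num) (by norm_num) (by norm_num))
    (cube_sqrt_geJ (s := 0.9605) (by norm_num) (by norm_num) (by norm_num) (by norm_num))
    (by norm_num) (by norm_num) (by norm_num) (by norm_num) (by norm_num) (by norm_num) (by norm_num) (by norm_num) (by norm_num) (by norm_num) (by norm_num) (by norm_num) (by norm_num) (by norm_num) (by norm_num) (by norm_num) (by norm_num) (by norm_num)
    (exp_neg_leJ (r := 0.527) 5 (by norm_num) (by norm_num) (by norm_num) (by norm_num))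
    (exp_neg_leJ (r := 0.362) 4 (by norm_num) (by norm_num) (by norm_num) (by norm_num))
    (exp_neg_leJ (r := 0.985) 13 (by norm_num) (by norm_num) (by norm_num) (by norm_num))
    (exp_neg_leJ (r := 0.99) 14 (by norm_num) (by norm_num) (by norm_num) (by norm_num))
    (exp_neg_leJ (r := 0.392) 5 (by norm_num) (by norm_num) (by norm_num) (by norm_num))
    (exp_neg_leJ (r := 0.616) 9 (by norm_num) (by norm_num) (by norm_num) (by norm_num))
    (exp_neg_leJ (r := 0.277) 5 (by norm_num) (by norm_num) (by norm_num) (by norm_num))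
    (exp_neg_leJ (r := 0.99) 14 (by norm_num) (by norm_num) (by norm_num) (by norm_num))
    (by norm_num)) (by norm_num) hN hβ.le (by norm_num)

theorem JB6_k1b_c1 {κ t β : ℝ} (h : DomR κ t) (hβ : 0 < β) (hk1 : 0.6 ≤ κ) (hk2 : κ ≤ 0.77)
    (ht1 : 0.6 ≤ t + κ) (ht2 : t + κ ≤ 1.11) (hR0 : β * 10 ≤ κ) (hR : β * (4.95 * (1 + κ ^ 2)) ≤ κ) :
    ‖HH β (sg κ t) - 1‖ ≤ 0.06 := by
  have hN : β * 12.987 ≤ 1 := bNR hβ h.1 hk2 hR0 (by norm_num)
  have hy1 : 0.207 ≤ sy κ t := syR_ge h 0.6 0.77 0.6 0.207 1.22998 1.22999 0.33065 0.42435 hk1 hk2 (by linarith) (by norm_num) (by norm_num)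
    (expn_ge (by norm_num) (by norm_num)) (expn_le (by norm_num) (by norm_num) (by norm_num)) (by norm_num)
    (by norm_num) (by norm_num) (by norm_num) (by norm_num) (by norm_num) (by norm_num)
  have hy2 : sy κ t ≤ 0.365 := syR_le h 0.6 0.77 1.11 0.365 1.44051 0.6828 0.68283 0.87632 hk1 hk2 (by linarith) (by norm_num) (by norm_num)
    (expn_ge (by norm_num) (by norm_num)) (by norm_num) (by norm_num) (Or.inr ((mul_le_mul_of_nonneg_left (expn_le (E := 1.44052) (by norm_num) (by norm_num) (by norm_num)) (by norm_num)).trans (by norm_num))) (by norm_num) (by norm_num) (by norm_num)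
  rcases le_total (sy κ t) 0.312 with f0 | g0
  · have hx1 : 0.309 ≤ sx κ t := sx_lo h 0.6 0.312 0.312 0.73198 0.309 hk1 (by norm_num) f0 (abs_le.2 ⟨by linarith, by linarith⟩) (expm_ge (by norm_num) (by norm_num) (by norm_num) (by norm_num)) (by norm_num) (by norm_num)
    have hx2 : sx κ t ≤ 0.5909 := sx_hi h 0.77 0.207 0.207 0.81302 0.5909 hk2 hy1 (by norm_num) (by rw [abs_of_nonneg (by linarith)]; linarith) (expm_le (by norm_num) (by norm_num) (by norm_num)) (by norm_num) (by norm_num)
    exact JB6_k1b_b1_0 hβ hN hx1 hx2 (by linarith) (by linarith)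
  rcases le_total (sy κ t) 0.347 with f1 | g1
  · have hx1 : 0.2437 ≤ sx κ t := sx_lo h 0.6 0.347 0.347 0.7068 0.2437 hk1 (by norm_num) f1 (abs_le.2 ⟨by linarith, by linarith⟩) (expm_ge (by norm_num) (by norm_num) (by norm_num) (by norm_num)) (by norm_num) (by norm_num)
    have hx2 : sx κ t ≤ 0.4695 := sx_hi h 0.77 0.312 0.312 0.73199 0.4695 hk2 g0 (by norm_num) (by rw [abs_of_nonneg (by linarith)]; linarith) (expm_le (by norm_num) (by norm_num) (by norm_num)) (by norm_num) (by norm_num)
    exact JB6_k1b_b1_1 hβ hN hx1 hx2 (by linarith) (by linarith)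
  rcases le_total (sy κ t) 0.357 with f2 | g2
  · have hx1 : 0.2209 ≤ sx κ t := sx_lo h 0.6 0.357 0.357 0.69977 0.2209 hk1 (by norm_num) f2 (abs_le.2 ⟨by linarith, by linarith⟩) (expm_ge (by norm_num) (by norm_num) (by norm_num) (by norm_num)) (by norm_num) (by norm_num)
    have hx2 : sx κ t ≤ 0.4193 := sx_hi h 0.77 0.347 0.347 0.70681 0.4193 hk2 g1 (by norm_num) (by rw [abs_of_nonneg (by linarith)]; linarith) (expm_le (by norm_num) (by norm_num) (by norm_num)) (by norm_num) (by norm_num)
    exact JB6_k1b_b1_2 hβ hN hx1 hx2 (by linarith) (by linarith)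
  rcases le_total (sy κ t) 0.362 with f3 | g3
  · have hx1 : 0.2085 ≤ sx κ t := sx_lo h 0.6 0.362 0.362 0.69628 0.2085 hk1 (by norm_num) f3 (abs_le.2 ⟨by linarith, by linarith⟩) (expm_ge (by norm_num) (by norm_num) (by norm_num) (by norm_num)) (by norm_num) (by norm_num)
    have hx2 : sx κ t ≤ 0.4036 := sx_hi h 0.77 0.357 0.357 0.69978 0.4036 hk2 g2 (by norm_num) (by rw [abs_of_nonneg (by linarith)]; linarith) (expm_le (by norm_num) (by norm_num) (by norm_num)) (by norm_num) (by norm_num)
    exact JB6_k1b_b1_3 hβ hN hx1 hx2 (by linarith) (by linarith)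
  have hx1 : 0.2006 ≤ sx κ t := sx_lo h 0.6 0.365 0.365 0.69419 0.2006 hk1 (by norm_num) hy2 (abs_le.2 ⟨by linarith, by linarith⟩) (expm_ge (by norm_num) (by norm_num) (by norm_num) (by norm_num)) (by norm_num) (by norm_num)
  have hx2 : sx κ t ≤ 0.3955 := sx_hi h 0.77 0.362 0.362 0.69629 0.3955 hk2 g3 (by norm_num) (by rw [abs_of_nonneg (by linarith)]; linarith) (expm_le (by norm_num) (by norm_num) (by norm_num)) (by norm_num) (by norm_num)
  exact JB6_k1b_b1_4 hβ hN hx1 hx2 (by linarith) (by linarith)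

private theorem JB6_k1b_b2_0 {β x y : ℝ} (hβ : 0 < β) (hN : β * 11.235 ≤ 1) (hx1 : 0.4612 ≤ x) (hx2 : x ≤ 0.6655)
    (hy1 : -0 ≤ y) (hy2 : y ≤ 0.318) : ‖HH β (x + y * I) - 1‖ ≤ 0.06 := by
  refine le_epsJ (C := 0.6559) (N0 := 11.235) (J_boxp 0.4612 0.6655 0 0.318 0.318 1.0348 0.7376 1.4765 1.1544 0.4848 3.3519 11.235 0.7128 2.585 1.377 1.1641 0.5173 0.3944 1.1661 3.6998 0.5466 1.1061 1.1291 2.131 0.002999 0.01191 0.000002044 0.0000003101 0.002153 0.00000401 0.0000031 0.0000003101 0.6559
    hβ hN hx1 hx2 hy1 hy2 (by norm_num) (by norm_num) (by linarith) (by norm_num) (by norm_num) (by norm_num) (by norm_num) (by norm_num) (by norm_num) (by norm_num) (by norm_num) (by norm_num) (by norm_num) (by norm_num) (by norm_num) (by norm_num) (by norm_num) (by norm_num) (by norm_num) (by norm_num) (by norm_num) (by norm_num) (by norm_num) (by norm_num)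
    (cube_sqrt_geJ (s := 0.8731) (by norm_num) (by norm_num) (by norm_num) (by norm_num))
    (cube_sqrt_geJ (s := 0.9553) (by norm_num) (by norm_num) (by norm_num) (by norm_num))
    (by norm_num) (by norm_num) (by norm_num) (by norm_num) (by norm_num) (by norm_num) (by norm_num) (by norm_num) (by norm_num) (by norm_num) (by norm_num) (by norm_num) (by norm_num) (by norm_num) (by norm_num) (by norm_num) (by norm_num) (by norm_num)
    (exp_neg_leJ (r := 0.811) 5 (by norm_num) (by norm_num) (by norm_num) (by norm_num))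
    (exp_neg_leJ (r := 0.431) 4 (by norm_num) (by norm_num) (by norm_num) (by norm_num))
    (exp_neg_leJ (r := 0.101) 13 (by norm_num) (by norm_num) (by norm_num) (by norm_num))
    (exp_neg_leJ (r := 0.99) 14 (by norm_num) (by norm_num) (by norm_num) (by norm_num))
    (exp_neg_leJ (r := 0.141) 6 (by norm_num) (by norm_num) (by norm_num) (by norm_num))
    (exp_neg_leJ (r := 0.427) 12 (by norm_num) (by norm_num) (by norm_num) (by norm_num))
    (exp_neg_leJ (r := 0.685) 12 (by norm_num) (by norm_num) (by norm_num) (by norm_num))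
    (exp_neg_leJ (r := 0.99) 14 (by norm_num) (by norm_num) (by norm_num) (by norm_num))
    (by norm_num)) (by norm_num) hN hβ.le (by norm_num)

private theorem JB6_k1b_b2_1 {β x y : ℝ} (hβ : 0 < β) (hN : β * 11.235 ≤ 1) (hx1 : 0.4019 ≤ x) (hx2 : x ≤ 0.5642)
    (hy1 : -0 ≤ y) (hy2 : y ≤ 0.358) : ‖HH β (x + y * I) - 1‖ ≤ 0.06 := by
  refine le_epsJ (C := 0.6575) (N0 := 11.235) (J_boxp 0.4019 0.5642 0 0.358 0.358 0.993 0.6682 1.4706 1.2256 0.4838 3.3519 11.235 0.673 2.434 1.352 1.2031 0.4964 0.3851 1.1458 3.7497 0.5137 1.0199 0.839 2.0126 0.003786 0.01323 0.000002572 0.0000003101 0.003121 0.00001057 0.00008061 0.0000003101 0.6575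
    hβ hN hx1 hx2 hy1 hy2 (by norm_num) (by norm_num) (by linarith) (by norm_num) (by norm_num) (by norm_num) (by norm_num) (by norm_num) (by norm_num) (by norm_num) (by norm_num) (by norm_num) (by norm_num) (by norm_num) (by norm_num) (by norm_num) (by norm_num) (by norm_num) (by norm_num) (by norm_num) (by norm_num) (by norm_num) (by norm_num) (by norm_num)
    (cube_sqrt_geJ (s := 0.8807) (by norm_num) (by norm_num) (by norm_num) (by norm_num))
    (cube_sqrt_geJ (s := 0.9579) (by norm_num) (by norm_num) (by norm_num) (by norm_num))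
    (by norm_num) (by norm_num) (by norm_num) (by norm_num) (by norm_num) (by norm_num) (by norm_num) (by norm_num) (by norm_num) (by norm_num) (by norm_num) (by norm_num) (by norm_num) (by norm_num) (by norm_num) (by norm_num) (by norm_num) (by norm_num)
    (exp_neg_leJ (r := 0.577) 5 (by norm_num) (by norm_num) (by norm_num) (by norm_num))
    (exp_neg_leJ (r := 0.326) 4 (by norm_num) (by norm_num) (by norm_num) (by norm_num))
    (exp_neg_leJ (r := 0.873) 12 (by norm_num) (by norm_num) (by norm_num) (by norm_num))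
    (exp_neg_leJ (r := 0.99) 14 (by norm_num) (by norm_num) (by norm_num) (by norm_num))
    (exp_neg_leJ (r := 0.771) 5 (by norm_num) (by norm_num) (by norm_num) (by norm_num))
    (exp_neg_leJ (r := 0.458) 11 (by norm_num) (by norm_num) (by norm_num) (by norm_num))
    (exp_neg_leJ (r := 0.426) 9 (by norm_num) (by norm_num) (by norm_num) (by norm_num))
    (exp_neg_leJ (r := 0.99) 14 (by norm_num) (by norm_num) (by norm_num) (by norm_num))
    (by norm_num)) (by norm_num) hN hβ.le (by norm_num)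

private theorem JB6_k1b_b2_2 {β x y : ℝ} (hβ : 0 < β) (hN : β * 11.235 ≤ 1) (hx1 : 0.3681 ≤ x) (hx2 : x ≤ 0.5089)
    (hy1 : -0 ≤ y) (hy2 : y ≤ 0.378) : ‖HH β (x + y * I) - 1‖ ≤ 0.06 := by
  refine le_epsJ (C := 0.6706) (N0 := 11.235) (J_boxp 0.3681 0.5089 0 0.378 0.378 0.9692 0.634 1.469 1.2703 0.4836 3.3519 11.235 0.6542 2.366 1.34 1.2243 0.4845 0.3789 1.1342 3.776 0.4952 0.9711 0.6856 1.9437 0.004327 0.01418 0.000002929 0.0000003101 0.003839 0.00001832 0.0004523 0.0000003101 0.6706
    hβ hN hx1 hx2 hy1 hy2 (by norm_num) (by norm_num) (by linarith) (by norm_num) (by norm_num) (by norm_num) (by norm_num) (by norm_num) (by norm_num) (by norm_num) (by norm_num) (by norm_num) (by norm_num) (by norm_num) (by norm_num) (by norm_num) (by norm_num) (by norm_num) (by norm_num) (by norm_num) (by norm_num) (by norm_num) (by norm_num) (by norm_num)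
    (cube_sqrt_geJ (s := 0.8842) (by norm_num) (by norm_num) (by norm_num) (by norm_num))
    (cube_sqrt_geJ (s := 0.9591) (by norm_num) (by norm_num) (by norm_num) (by norm_num))
    (by norm_num) (by norm_num) (by norm_num) (by norm_num) (by norm_num) (by norm_num) (by norm_num) (by norm_num) (by norm_num) (by norm_num) (by norm_num) (by norm_num) (by norm_num) (by norm_num) (by norm_num) (by norm_num) (by norm_num) (by norm_num)
    (exp_neg_leJ (r := 0.443) 5 (by norm_num) (by norm_num) (by norm_num) (by norm_num))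
    (exp_neg_leJ (r := 0.256) 4 (by norm_num) (by norm_num) (by norm_num) (by norm_num))
    (exp_neg_leJ (r := 0.742) 12 (by norm_num) (by norm_num) (by norm_num) (by norm_num))
    (exp_neg_leJ (r := 0.99) 14 (by norm_num) (by norm_num) (by norm_num) (by norm_num))
    (exp_neg_leJ (r := 0.563) 5 (by norm_num) (by norm_num) (by norm_num) (by norm_num))
    (exp_neg_leJ (r := 0.91) 10 (by norm_num) (by norm_num) (by norm_num) (by norm_num))
    (exp_neg_leJ (r := 0.702) 7 (by norm_num) (by norm_num) (by norm_num) (by norm_num))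
    (exp_neg_leJ (r := 0.99) 14 (by norm_num) (by norm_num) (by norm_num) (by norm_num))
    (by norm_num)) (by norm_num) hN hβ.le (by norm_num)

private theorem JB6_k1b_b2_3 {β x y : ℝ} (hβ : 0 < β) (hN : β * 11.235 ≤ 1) (hx1 : 0.359 ≤ x) (hx2 : x ≤ 0.4786)
    (hy1 : -0 ≤ y) (hy2 : y ≤ 0.383) : ‖HH β (x + y * I) - 1‖ ≤ 0.06 := by
  refine le_epsJ (C := 0.653) (N0 := 11.235) (J_boxp 0.359 0.4786 0 0.383 0.383 0.9628 0.613 1.4635 1.2806 0.4827 3.3519 11.235 0.6367 2.305 1.329 1.236 0.4813 0.3792 1.1311 3.791 0.4903 0.958 0.646 1.959 0.004486 0.01413 0.000003033 0.0000003101 0.004055 0.0000212 0.0007053 0.0000003101 0.653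
    hβ hN hx1 hx2 hy1 hy2 (by norm_num) (by norm_num) (by linarith) (by norm_num) (by norm_num) (by norm_num) (by norm_num) (by norm_num) (by norm_num) (by norm_num) (by norm_num) (by norm_num) (by norm_num) (by norm_num) (by norm_num) (by norm_num) (by norm_num) (by norm_num) (by norm_num) (by norm_num) (by norm_num) (by norm_num) (by norm_num) (by norm_num)
    (cube_sqrt_geJ (s := 0.8875) (by norm_num) (by norm_num) (by norm_num) (by norm_num))
    (cube_sqrt_geJ (s := 0.9602) (by norm_num) (by norm_num) (by norm_num) (by norm_num))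
    (by norm_num) (by norm_num) (by norm_num) (by norm_num) (by norm_num) (by norm_num) (by norm_num) (by norm_num) (by norm_num) (by norm_num) (by norm_num) (by norm_num) (by norm_num) (by norm_num) (by norm_num) (by norm_num) (by norm_num) (by norm_num)
    (exp_neg_leJ (r := 0.407) 5 (by norm_num) (by norm_num) (by norm_num) (by norm_num))
    (exp_neg_leJ (r := 0.26) 4 (by norm_num) (by norm_num) (by norm_num) (by norm_num))
    (exp_neg_leJ (r := 0.707) 12 (by norm_num) (by norm_num) (by norm_num) (by norm_num))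
    (exp_neg_leJ (r := 0.99) 14 (by norm_num) (by norm_num) (by norm_num) (by norm_num))
    (exp_neg_leJ (r := 0.508) 5 (by norm_num) (by norm_num) (by norm_num) (by norm_num))
    (exp_neg_leJ (r := 0.763) 10 (by norm_num) (by norm_num) (by norm_num) (by norm_num))
    (exp_neg_leJ (r := 0.257) 7 (by norm_num) (by norm_num) (by norm_num) (by norm_num))
    (exp_neg_leJ (r := 0.99) 14 (by norm_num) (by norm_num) (by norm_num) (by norm_num))
    (by norm_num)) (by norm_num) hN hβ.le (by norm_num)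

private theorem JB6_k1b_b2_4 {β x y : ℝ} (hβ : 0 < β) (hN : β * 11.235 ≤ 1) (hx1 : 0.3497 ≤ x) (hx2 : x ≤ 0.4707)
    (hy1 : -0 ≤ y) (hy2 : y ≤ 0.388) : ‖HH β (x + y * I) - 1‖ ≤ 0.06 := by
  refine le_epsJ (C := 0.67) (N0 := 11.235) (J_boxp 0.3497 0.4707 0 0.388 0.388 0.9562 0.6101 1.4657 1.2948 0.483 3.3519 11.235 0.6381 2.31 1.33 1.239 0.478 0.3764 1.1279 3.7942 0.4853 0.9446 0.6059 1.9247 0.004655 0.01459 0.000003143 0.0000003101 0.004289 0.00002463 0.001108 0.0000003101 0.67
    hβ hN hx1 hx2 hy1 hy2 (by norm_num) (by norm_num) (by linarith) (by norm_num) (by norm_num) (by norm_num) (by norm_num) (by norm_num) (by norm_num) (by norm_num) (by norm_num) (by norm_num) (by norm_num) (by norm_num) (by norm_num) (by norm_num) (by norm_num) (by norm_num) (by norm_num) (by norm_num) (by norm_num) (by norm_num) (by norm_num) (by norm_num)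
    (cube_sqrt_geJ (s := 0.8872) (by norm_num) (by norm_num) (by norm_num) (by norm_num))
    (cube_sqrt_geJ (s := 0.9601) (by norm_num) (by norm_num) (by norm_num) (by norm_num))
    (by norm_num) (by norm_num) (by norm_num) (by norm_num) (by norm_num) (by norm_num) (by norm_num) (by norm_num) (by norm_num) (by norm_num) (by norm_num) (by norm_num) (by norm_num) (by norm_num) (by norm_num) (by norm_num) (by norm_num) (by norm_num)
    (exp_neg_leJ (r := 0.37) 5 (by norm_num) (by norm_num) (by norm_num) (by norm_num))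
    (exp_neg_leJ (r := 0.228) 4 (by norm_num) (by norm_num) (by norm_num) (by norm_num))
    (exp_neg_leJ (r := 0.671) 12 (by norm_num) (by norm_num) (by norm_num) (by norm_num))
    (exp_neg_leJ (r := 0.99) 14 (by norm_num) (by norm_num) (by norm_num) (by norm_num))
    (exp_neg_leJ (r := 0.452) 5 (by norm_num) (by norm_num) (by norm_num) (by norm_num))
    (exp_neg_leJ (r := 0.612) 10 (by norm_num) (by norm_num) (by norm_num) (by norm_num))
    (exp_neg_leJ (r := 0.807) 6 (by norm_num) (by norm_num) (by norm_num) (by norm_num))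
    (exp_neg_leJ (r := 0.99) 14 (by norm_num) (by norm_num) (by norm_num) (by norm_num))
    (by norm_num)) (by norm_num) hN hβ.le (by norm_num)

theorem JB6_k1b_c2 {κ t β : ℝ} (h : DomR κ t) (hβ : 0 < β) (hk1 : 0.77 ≤ κ) (hk2 : κ ≤ 0.89)
    (ht1 : 0.6 ≤ t + κ) (ht2 : t + κ ≤ 1.11) (hR0 : β * 10 ≤ κ) (hR : β * (4.95 * (1 + κ ^ 2)) ≤ κ) :
    ‖HH β (sg κ t) - 1‖ ≤ 0.06 := by
  have hN : β * 11.235 ≤ 1 := bNR hβ h.1 hk2 hR0 (by norm_num)
  have hy1 : 0.233 ≤ sy κ t := syR_ge h 0.77 0.89 0.6 0.233 1.26238 1.26239 0.33048 0.382 hk1 hk2 (by linarith) (by norm_num) (by norm_num)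
    (expn_ge (by norm_num) (by norm_num)) (expn_le (by norm_num) (by norm_num) (by norm_num)) (by norm_num)
    (by norm_num) (by norm_num) (by norm_num) (by norm_num) (by norm_num) (by norm_num)
  have hy2 : sy κ t ≤ 0.388 := syR_le h 0.77 0.89 1.11 0.388 1.47402 0.6342 0.6426 0.74276 hk1 hk2 (by linarith) (by norm_num) (by norm_num)
    (expn_ge (by norm_num) (by norm_num)) (by norm_num) (by norm_num) (Or.inr ((mul_le_mul_of_nonneg_left (expn_le (E := 1.47403) (by norm_num) (by norm_num) (by norm_num)) (by norm_num)).trans (by norm_num))) (by norm_num) (by norm_num) (by norm_num)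
  rcases le_total (sy κ t) 0.318 with f0 | g0
  · have hx1 : 0.4612 ≤ sx κ t := sx_lo h 0.77 0.318 0.318 0.7276 0.4612 hk1 (by norm_num) f0 (abs_le.2 ⟨by linarith, by linarith⟩) (expm_ge (by norm_num) (by norm_num) (by norm_num) (by norm_num)) (by norm_num) (by norm_num)
    have hx2 : sx κ t ≤ 0.6655 := sx_hi h 0.89 0.233 0.233 0.79216 0.6655 hk2 hy1 (by norm_num) (by rw [abs_of_nonneg (by linarith)]; linarith) (expm_le (by norm_num) (by norm_num) (by norm_num)) (by norm_num) (by norm_num)
    exact JB6_k1b_b2_0 hβ hN hx1 hx2 (by linarith) (by linarith)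
  rcases le_total (sy κ t) 0.358 with f1 | g1
  · have hx1 : 0.4019 ≤ sx κ t := sx_lo h 0.77 0.358 0.358 0.69907 0.4019 hk1 (by norm_num) f1 (abs_le.2 ⟨by linarith, by linarith⟩) (expm_ge (by norm_num) (by norm_num) (by norm_num) (by norm_num)) (by norm_num) (by norm_num)
    have hx2 : sx κ t ≤ 0.5642 := sx_hi h 0.89 0.318 0.318 0.72761 0.5642 hk2 g0 (by norm_num) (by rw [abs_of_nonneg (by linarith)]; linarith) (expm_le (by norm_num) (by norm_num) (by norm_num)) (by norm_num) (by norm_num)
    exact JB6_k1b_b2_1 hβ hN hx1 hx2 (by linarith) (by linarith)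
  rcases le_total (sy κ t) 0.378 with f2 | g2
  · have hx1 : 0.3681 ≤ sx κ t := sx_lo h 0.77 0.378 0.378 0.68523 0.3681 hk1 (by norm_num) f2 (abs_le.2 ⟨by linarith, by linarith⟩) (expm_ge (by norm_num) (by norm_num) (by norm_num) (by norm_num)) (by norm_num) (by norm_num)
    have hx2 : sx κ t ≤ 0.5089 := sx_hi h 0.89 0.358 0.358 0.69908 0.5089 hk2 g1 (by norm_num) (by rw [abs_of_nonneg (by linarith)]; linarith) (expm_le (by norm_num) (by norm_num) (by norm_num)) (by norm_num) (by norm_num)
    exact JB6_k1b_b2_2 hβ hN hx1 hx2 (by linarith) (by linarith)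
  rcases le_total (sy κ t) 0.383 with f3 | g3
  · have hx1 : 0.359 ≤ sx κ t := sx_lo h 0.77 0.383 0.383 0.68181 0.359 hk1 (by norm_num) f3 (abs_le.2 ⟨by linarith, by linarith⟩) (expm_ge (by norm_num) (by norm_num) (by norm_num) (by norm_num)) (by norm_num) (by norm_num)
    have hx2 : sx κ t ≤ 0.4786 := sx_hi h 0.89 0.378 0.378 0.68524 0.4786 hk2 g2 (by norm_num) (by rw [abs_of_nonneg (by linarith)]; linarith) (expm_le (by norm_num) (by norm_num) (by norm_num)) (by norm_num) (by norm_num)
    exact JB6_k1b_b2_3 hβ hN hx1 hx2 (by linarith) (by linarith)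
  have hx1 : 0.3497 ≤ sx κ t := sx_lo h 0.77 0.388 0.388 0.67841 0.3497 hk1 (by norm_num) hy2 (abs_le.2 ⟨by linarith, by linarith⟩) (expm_ge (by norm_num) (by norm_num) (by norm_num) (by norm_num)) (by norm_num) (by norm_num)
  have hx2 : sx κ t ≤ 0.4707 := sx_hi h 0.89 0.383 0.383 0.68182 0.4707 hk2 g3 (by norm_num) (by rw [abs_of_nonneg (by linarith)]; linarith) (expm_le (by norm_num) (by norm_num) (by norm_num)) (by norm_num) (by norm_num)
  exact JB6_k1b_b2_4 hβ hN hx1 hx2 (by linarith) (by linarith)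

private theorem JB6_k1b_b3_0 {β x y : ℝ} (hβ : 0 < β) (hN : β * 10.416 ≤ 1) (hx1 : 0.5481 ≤ x) (hx2 : x ≤ 0.7104)
    (hy1 : -0 ≤ y) (hy2 : y ≤ 0.33) : ‖HH β (x + y * I) - 1‖ ≤ 0.06 := by
  refine le_epsJ (C := 0.6202) (N0 := 10.416) (J_boxp 0.5481 0.7104 0 0.33 0.33 1.0959 0.7834 1.5079 1.0704 0.4899 3.2274 10.416 0.7149 2.593 1.379 1.1468 0.5479 0.4173 1.1959 3.6736 0.5875 1.2252 1.2515 2.1237 0.003329 0.01296 0.000003895 0.0000003101 0.002201 0.000002874 0.000002183 0.0000003101 0.6202
    hβ hN hx1 hx2 hy1 hy2 (by norm_num) (by norm_num) (by linarith) (by norm_num) (by norm_num) (by norm_num) (by norm_num) (by norm_num) (by norm_num) (by norm_num) (by norm_num) (by norm_num) (by norm_num) (by norm_num) (by norm_num) (by norm_num) (by norm_num) (by norm_num) (by norm_num) (by norm_num) (by norm_num) (by norm_num) (by norm_num) (by norm_num)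
    (cube_sqrt_geJ (s := 0.8727) (by norm_num) (by norm_num) (by norm_num) (by norm_num))
    (cube_sqrt_geJ (s := 0.9552) (by norm_num) (by norm_num) (by norm_num) (by norm_num))
    (by norm_num) (by norm_num) (by norm_num) (by norm_num) (by norm_num) (by norm_num) (by norm_num) (by norm_num) (by norm_num) (by norm_num) (by norm_num) (by norm_num) (by norm_num) (by norm_num) (by norm_num) (by norm_num) (by norm_num) (by norm_num)
    (exp_neg_leJ (r := 0.706) 5 (by norm_num) (by norm_num) (by norm_num) (by norm_num))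
    (exp_neg_leJ (r := 0.346) 4 (by norm_num) (by norm_num) (by norm_num) (by norm_num))
    (exp_neg_leJ (r := 0.456) 12 (by norm_num) (by norm_num) (by norm_num) (by norm_num))
    (exp_neg_leJ (r := 0.99) 14 (by norm_num) (by norm_num) (by norm_num) (by norm_num))
    (exp_neg_leJ (r := 0.119) 6 (by norm_num) (by norm_num) (by norm_num) (by norm_num))
    (exp_neg_leJ (r := 0.761) 12 (by norm_num) (by norm_num) (by norm_num) (by norm_num))
    (exp_neg_leJ (r := 0.035) 13 (by norm_num) (by norm_num) (by norm_num) (by norm_num))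
    (exp_neg_leJ (r := 0.99) 14 (by norm_num) (by norm_num) (by norm_num) (by norm_num))
    (by norm_num)) (by norm_num) hN hβ.le (by norm_num)

private theorem JB6_k1b_b3_1 {β x y : ℝ} (hβ : 0 < β) (hN : β * 10.416 ≤ 1) (hx1 : 0.4909 ≤ x) (hx2 : x ≤ 0.6062)
    (hy1 : -0 ≤ y) (hy2 : y ≤ 0.37) : ‖HH β (x + y * I) - 1‖ ≤ 0.06 := by
  refine le_epsJ (C := 0.6111) (N0 := 10.416) (J_boxp 0.4909 0.6062 0 0.37 0.37 1.0557 0.7102 1.4982 1.1285 0.4884 3.2274 10.416 0.6728 2.433 1.352 1.1869 0.5278 0.4094 1.1763 3.7255 0.5557 1.1419 0.9655 2.0198 0.0041 0.01407 0.000004776 0.0000003101 0.003069 0.000006847 0.00004293 0.0000003101 0.6111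
    hβ hN hx1 hx2 hy1 hy2 (by norm_num) (by norm_num) (by linarith) (by norm_num) (by norm_num) (by norm_num) (by norm_num) (by norm_num) (by norm_num) (by norm_num) (by norm_num) (by norm_num) (by norm_num) (by norm_num) (by norm_num) (by norm_num) (by norm_num) (by norm_num) (by norm_num) (by norm_num) (by norm_num) (by norm_num) (by norm_num) (by norm_num)
    (cube_sqrt_geJ (s := 0.8807) (by norm_num) (by norm_num) (by norm_num) (by norm_num))
    (cube_sqrt_geJ (s := 0.9579) (by norm_num) (by norm_num) (by norm_num) (by norm_num))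
    (by norm_num) (by norm_num) (by norm_num) (by norm_num) (by norm_num) (by norm_num) (by norm_num) (by norm_num) (by norm_num) (by norm_num) (by norm_num) (by norm_num) (by norm_num) (by norm_num) (by norm_num) (by norm_num) (by norm_num) (by norm_num)
    (exp_neg_leJ (r := 0.497) 5 (by norm_num) (by norm_num) (by norm_num) (by norm_num))
    (exp_neg_leJ (r := 0.264) 4 (by norm_num) (by norm_num) (by norm_num) (by norm_num))
    (exp_neg_leJ (r := 0.252) 12 (by norm_num) (by norm_num) (by norm_num) (by norm_num))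
    (exp_neg_leJ (r := 0.99) 14 (by norm_num) (by norm_num) (by norm_num) (by norm_num))
    (exp_neg_leJ (r := 0.788) 5 (by norm_num) (by norm_num) (by norm_num) (by norm_num))
    (exp_neg_leJ (r := 0.894) 11 (by norm_num) (by norm_num) (by norm_num) (by norm_num))
    (exp_neg_leJ (r := 0.056) 10 (by norm_num) (by norm_num) (by norm_num) (by norm_num))
    (exp_neg_leJ (r := 0.99) 14 (by norm_num) (by norm_num) (by norm_num) (by norm_num))
    (by norm_num)) (by norm_num) hN hβ.le (by norm_num)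

private theorem JB6_k1b_b3_2 {β x y : ℝ} (hβ : 0 < β) (hN : β * 10.416 ≤ 1) (hx1 : 0.4593 ≤ x) (hx2 : x ≤ 0.5503)
    (hy1 : -0 ≤ y) (hy2 : y ≤ 0.39) : ‖HH β (x + y * I) - 1‖ ≤ 0.06 := by
  refine le_epsJ (C := 0.6152) (N0 := 10.416) (J_boxp 0.4593 0.5503 0 0.39 0.39 1.0334 0.6745 1.495 1.164 0.4878 3.2274 10.416 0.6527 2.361 1.339 1.2084 0.5166 0.4042 1.1655 3.7523 0.5383 1.0961 0.8165 1.9594 0.004609 0.01485 0.000005347 0.0000003101 0.003678 0.00001102 0.0002027 0.0000003101 0.6152
    hβ hN hx1 hx2 hy1 hy2 (by norm_num) (by norm_num) (by linarith) (by norm_num) (by norm_num) (by norm_num) (by norm_num) (by norm_num) (by norm_num) (by norm_num) (by norm_num) (by norm_num) (by norm_num) (by norm_num) (by norm_num) (by norm_num) (by norm_num) (by norm_num) (by norm_num) (by norm_num) (by norm_num) (by norm_num) (by norm_num) (by norm_num)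
    (cube_sqrt_geJ (s := 0.8845) (by norm_num) (by norm_num) (by norm_num) (by norm_num))
    (cube_sqrt_geJ (s := 0.9592) (by norm_num) (by norm_num) (by norm_num) (by norm_num))
    (by norm_num) (by norm_num) (by norm_num) (by norm_num) (by norm_num) (by norm_num) (by norm_num) (by norm_num) (by norm_num) (by norm_num) (by norm_num) (by norm_num) (by norm_num) (by norm_num) (by norm_num) (by norm_num) (by norm_num) (by norm_num)
    (exp_neg_leJ (r := 0.38) 5 (by norm_num) (by norm_num) (by norm_num) (by norm_num))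
    (exp_neg_leJ (r := 0.21) 4 (by norm_num) (by norm_num) (by norm_num) (by norm_num))
    (exp_neg_leJ (r := 0.139) 12 (by norm_num) (by norm_num) (by norm_num) (by norm_num))
    (exp_neg_leJ (r := 0.99) 14 (by norm_num) (by norm_num) (by norm_num) (by norm_num))
    (exp_neg_leJ (r := 0.606) 5 (by norm_num) (by norm_num) (by norm_num) (by norm_num))
    (exp_neg_leJ (r := 0.416) 11 (by norm_num) (by norm_num) (by norm_num) (by norm_num))
    (exp_neg_leJ (r := 0.504) 8 (by norm_num) (by norm_num) (by norm_num) (by norm_num))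
    (exp_neg_leJ (r := 0.99) 14 (by norm_num) (by norm_num) (by norm_num) (by norm_num))
    (by norm_num)) (by norm_num) hN hβ.le (by norm_num)

private theorem JB6_k1b_b3_3 {β x y : ℝ} (hβ : 0 < β) (hN : β * 10.416 ≤ 1) (hx1 : 0.4443 ≤ x) (hx2 : x ≤ 0.52)
    (hy1 : -0 ≤ y) (hy2 : y ≤ 0.399) : ‖HH β (x + y * I) - 1‖ ≤ 0.06 := by
  refine le_epsJ (C := 0.6147) (N0 := 10.416) (J_boxp 0.4443 0.52 0 0.399 0.399 1.0229 0.6555 1.4926 1.181 0.4874 3.2274 10.416 0.6409 2.32 1.332 1.2201 0.5114 0.4021 1.1603 3.7668 0.5301 1.0744 0.7479 1.9387 0.004864 0.01518 0.000005644 0.0000003101 0.004003 0.00001382 0.0004145 0.0000003101 0.6147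
    hβ hN hx1 hx2 hy1 hy2 (by norm_num) (by norm_num) (by linarith) (by norm_num) (by norm_num) (by norm_num) (by norm_num) (by norm_num) (by norm_num) (by norm_num) (by norm_num) (by norm_num) (by norm_num) (by norm_num) (by norm_num) (by norm_num) (by norm_num) (by norm_num) (by norm_num) (by norm_num) (by norm_num) (by norm_num) (by norm_num) (by norm_num)
    (cube_sqrt_geJ (s := 0.8867) (by norm_num) (by norm_num) (by norm_num) (by norm_num))
    (cube_sqrt_geJ (s := 0.9599) (by norm_num) (by norm_num) (by norm_num) (by norm_num))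
    (by norm_num) (by norm_num) (by norm_num) (by norm_num) (by norm_num) (by norm_num) (by norm_num) (by norm_num) (by norm_num) (by norm_num) (by norm_num) (by norm_num) (by norm_num) (by norm_num) (by norm_num) (by norm_num) (by norm_num) (by norm_num)
    (exp_neg_leJ (r := 0.326) 5 (by norm_num) (by norm_num) (by norm_num) (by norm_num))
    (exp_neg_leJ (r := 0.188) 4 (by norm_num) (by norm_num) (by norm_num) (by norm_num))
    (exp_neg_leJ (r := 0.085) 12 (by norm_num) (by norm_num) (by norm_num) (by norm_num))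
    (exp_neg_leJ (r := 0.99) 14 (by norm_num) (by norm_num) (by norm_num) (by norm_num))
    (exp_neg_leJ (r := 0.521) 5 (by norm_num) (by norm_num) (by norm_num) (by norm_num))
    (exp_neg_leJ (r := 0.19) 11 (by norm_num) (by norm_num) (by norm_num) (by norm_num))
    (exp_neg_leJ (r := 0.79) 7 (by norm_num) (by norm_num) (by norm_num) (by norm_num))
    (exp_neg_leJ (r := 0.99) 14 (by norm_num) (by norm_num) (by norm_num) (by norm_num))
    (by norm_num)) (by norm_num) hN hβ.le (by norm_num)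

theorem JB6_k1b_c3 {κ t β : ℝ} (h : DomR κ t) (hβ : 0 < β) (hk1 : 0.89 ≤ κ) (hk2 : κ ≤ 0.96)
    (ht1 : 0.6 ≤ t + κ) (ht2 : t + κ ≤ 1.11) (hR0 : β * 10 ≤ κ) (hR : β * (4.95 * (1 + κ ^ 2)) ≤ κ) :
    ‖HH β (sg κ t) - 1‖ ≤ 0.06 := by
  have hN : β * 10.416 ≤ 1 := bNR hβ h.1 hk2 hR0 (by norm_num)
  have hy1 : 0.245 ≤ sy κ t := syR_ge h 0.89 0.96 0.6 0.245 1.27762 1.27763 0.32605 0.35171 hk1 hk2 (by linarith) (by norm_num) (by norm_num)
    (expn_ge (by norm_num) (by norm_num)) (expn_le (by norm_num) (by norm_num) (by norm_num)) (by norm_num)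
    (by norm_num) (by norm_num) (by norm_num) (by norm_num) (by norm_num) (by norm_num)
  have hy2 : sy κ t ≤ 0.399 := syR_le h 0.89 0.96 1.11 0.399 1.49033 0.6112 0.61941 0.66815 hk1 hk2 (by linarith) (by norm_num) (by norm_num)
    (expn_ge (by norm_num) (by norm_num)) (by norm_num) (by norm_num) (Or.inr ((mul_le_mul_of_nonneg_left (expn_le (E := 1.49034) (by norm_num) (by norm_num) (by norm_num)) (by norm_num)).trans (by norm_num))) (by norm_num) (by norm_num) (by norm_num)
  rcases le_total (sy κ t) 0.33 with f0 | g0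
  · have hx1 : 0.5481 ≤ sx κ t := sx_lo h 0.89 0.33 0.33 0.71892 0.5481 hk1 (by norm_num) f0 (abs_le.2 ⟨by linarith, by linarith⟩) (expm_ge (by norm_num) (by norm_num) (by norm_num) (by norm_num)) (by norm_num) (by norm_num)
    have hx2 : sx κ t ≤ 0.7104 := sx_hi h 0.96 0.245 0.245 0.78271 0.7104 hk2 hy1 (by norm_num) (by rw [abs_of_nonneg (by linarith)]; linarith) (expm_le (by norm_num) (by norm_num) (by norm_num)) (by norm_num) (by norm_num)
    exact JB6_k1b_b3_0 hβ hN hx1 hx2 (by linarith) (by linarith)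
  rcases le_total (sy κ t) 0.37 with f1 | g1
  · have hx1 : 0.4909 ≤ sx κ t := sx_lo h 0.89 0.37 0.37 0.69073 0.4909 hk1 (by norm_num) f1 (abs_le.2 ⟨by linarith, by linarith⟩) (expm_ge (by norm_num) (by norm_num) (by norm_num) (by norm_num)) (by norm_num) (by norm_num)
    have hx2 : sx κ t ≤ 0.6062 := sx_hi h 0.96 0.33 0.33 0.71893 0.6062 hk2 g0 (by norm_num) (by rw [abs_of_nonneg (by linarith)]; linarith) (expm_le (by norm_num) (by norm_num) (by norm_num)) (by norm_num) (by norm_num)
    exact JB6_k1b_b3_1 hβ hN hx1 hx2 (by linarith) (by linarith)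
  rcases le_total (sy κ t) 0.39 with f2 | g2
  · have hx1 : 0.4593 ≤ sx κ t := sx_lo h 0.89 0.39 0.39 0.67705 0.4593 hk1 (by norm_num) f2 (abs_le.2 ⟨by linarith, by linarith⟩) (expm_ge (by norm_num) (by norm_num) (by norm_num) (by norm_num)) (by norm_num) (by norm_num)
    have hx2 : sx κ t ≤ 0.5503 := sx_hi h 0.96 0.37 0.37 0.69074 0.5503 hk2 g1 (by norm_num) (by rw [abs_of_nonneg (by linarith)]; linarith) (expm_le (by norm_num) (by norm_num) (by norm_num)) (by norm_num) (by norm_num)
    exact JB6_k1b_b3_2 hβ hN hx1 hx2 (by linarith) (by linarith)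
  have hx1 : 0.4443 ≤ sx κ t := sx_lo h 0.89 0.399 0.399 0.67099 0.4443 hk1 (by norm_num) hy2 (abs_le.2 ⟨by linarith, by linarith⟩) (expm_ge (by norm_num) (by norm_num) (by norm_num) (by norm_num)) (by norm_num) (by norm_num)
  have hx2 : sx κ t ≤ 0.52 := sx_hi h 0.96 0.39 0.39 0.67706 0.52 hk2 g2 (by norm_num) (by rw [abs_of_nonneg (by linarith)]; linarith) (expm_le (by norm_num) (by norm_num) (by norm_num)) (by norm_num) (by norm_num)
  exact JB6_k1b_b3_3 hβ hN hx1 hx2 (by linarith) (by linarith)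

private theorem JB6_k1b_b4_0 {β x y : ℝ} (hβ : 0 < β) (hN : β * 9.999 ≤ 1) (hx1 : 0.5994 ≤ x) (hx2 : x ≤ 0.7376)
    (hy1 : -0 ≤ y) (hy2 : y ≤ 0.335) : ‖HH β (x + y * I) - 1‖ ≤ 0.06 := by
  refine le_epsJ (C := 0.5988) (N0 := 9.999) (J_boxp 0.5994 0.7376 0 0.335 0.335 1.1321 0.8102 1.5253 1.0253 0.4928 3.1622 9.999 0.7157 2.596 1.379 1.1364 0.566 0.431 1.2134 3.658 0.6119 1.2957 1.3326 2.1299 0.003489 0.01345 0.000005385 0.0000003101 0.002203 0.000002372 0.000001635 0.0000003101 0.5988
    hβ hN hx1 hx2 hy1 hy2 (by norm_num) (by norm_num) (by linarith) (by norm_num) (by norm_num) (by norm_num) (by norm_num) (by norm_num) (by norm_num) (by norm_num) (by norm_num) (by norm_num) (by norm_num) (by norm_num) (by norm_num) (by norm_num) (by norm_num) (by norm_num) (by norm_num) (by norm_num) (by norm_num) (by norm_num) (by norm_num) (by norm_num)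
    (cube_sqrt_geJ (s := 0.8726) (by norm_num) (by norm_num) (by norm_num) (by norm_num))
    (cube_sqrt_geJ (s := 0.9551) (by norm_num) (by norm_num) (by norm_num) (by norm_num))
    (by norm_num) (by norm_num) (by norm_num) (by norm_num) (by norm_num) (by norm_num) (by norm_num) (by norm_num) (by norm_num) (by norm_num) (by norm_num) (by norm_num) (by norm_num) (by norm_num) (by norm_num) (by norm_num) (by norm_num) (by norm_num)
    (exp_neg_leJ (r := 0.659) 5 (by norm_num) (by norm_num) (by norm_num) (by norm_num))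
    (exp_neg_leJ (r := 0.309) 4 (by norm_num) (by norm_num) (by norm_num) (by norm_num))
    (exp_neg_leJ (r := 0.132) 12 (by norm_num) (by norm_num) (by norm_num) (by norm_num))
    (exp_neg_leJ (r := 0.99) 14 (by norm_num) (by norm_num) (by norm_num) (by norm_num))
    (exp_neg_leJ (r := 0.118) 6 (by norm_num) (by norm_num) (by norm_num) (by norm_num))
    (exp_neg_leJ (r := 0.955) 12 (by norm_num) (by norm_num) (by norm_num) (by norm_num))
    (exp_neg_leJ (r := 0.324) 13 (by norm_num) (by norm_num) (by norm_num) (by norm_num))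
    (exp_neg_leJ (r := 0.99) 14 (by norm_num) (by norm_num) (by norm_num) (by norm_num))
    (by norm_num)) (by norm_num) hN hβ.le (by norm_num)

private theorem JB6_k1b_b4_1 {β x y : ℝ} (hβ : 0 < β) (hN : β * 9.999 ≤ 1) (hx1 : 0.5428 ≤ x) (hx2 : x ≤ 0.6321)
    (hy1 : -0 ≤ y) (hy2 : y ≤ 0.375) : ‖HH β (x + y * I) - 1‖ ≤ 0.06 := by
  refine le_epsJ (C := 0.5866) (N0 := 9.999) (J_boxp 0.5428 0.6321 0 0.375 0.375 1.0922 0.735 1.5134 1.0778 0.4908 3.1622 9.999 0.673 2.434 1.352 1.177 0.546 0.4235 1.194 3.7108 0.5804 1.2133 1.0479 2.0327 0.004259 0.0145 0.000006556 0.0000003101 0.003023 0.00000539 0.00002819 0.0000003101 0.5866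
    hβ hN hx1 hx2 hy1 hy2 (by norm_num) (by norm_num) (by linarith) (by norm_num) (by norm_num) (by norm_num) (by norm_num) (by norm_num) (by norm_num) (by norm_num) (by norm_num) (by norm_num) (by norm_num) (by norm_num) (by norm_num) (by norm_num) (by norm_num) (by norm_num) (by norm_num) (by norm_num) (by norm_num) (by norm_num) (by norm_num) (by norm_num)
    (cube_sqrt_geJ (s := 0.8807) (by norm_num) (by norm_num) (by norm_num) (by norm_num))
    (cube_sqrt_geJ (s := 0.9579) (by norm_num) (by norm_num) (by norm_num) (by norm_num))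
    (by norm_num) (by norm_num) (by norm_num) (by norm_num) (by norm_num) (by norm_num) (by norm_num) (by norm_num) (by norm_num) (by norm_num) (by norm_num) (by norm_num) (by norm_num) (by norm_num) (by norm_num) (by norm_num) (by norm_num) (by norm_num)
    (exp_neg_leJ (r := 0.459) 5 (by norm_num) (by norm_num) (by norm_num) (by norm_num))
    (exp_neg_leJ (r := 0.234) 4 (by norm_num) (by norm_num) (by norm_num) (by norm_num))
    (exp_neg_leJ (r := 0.938) 11 (by norm_num) (by norm_num) (by norm_num) (by norm_num))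
    (exp_neg_leJ (r := 0.99) 14 (by norm_num) (by norm_num) (by norm_num) (by norm_num))
    (exp_neg_leJ (r := 0.803) 5 (by norm_num) (by norm_num) (by norm_num) (by norm_num))
    (exp_neg_leJ (r := 0.131) 12 (by norm_num) (by norm_num) (by norm_num) (by norm_num))
    (exp_neg_leJ (r := 0.477) 10 (by norm_num) (by norm_num) (by norm_num) (by norm_num))
    (exp_neg_leJ (r := 0.99) 14 (by norm_num) (by norm_num) (by norm_num) (by norm_num))
    (by norm_num)) (by norm_num) hN hβ.le (by norm_num)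

private theorem JB6_k1b_b4_2 {β x y : ℝ} (hβ : 0 < β) (hN : β * 9.999 ≤ 1) (hx1 : 0.512 ≤ x) (hx2 : x ≤ 0.576)
    (hy1 : -0 ≤ y) (hy2 : y ≤ 0.395) : ‖HH β (x + y * I) - 1‖ ≤ 0.06 := by
  refine le_epsJ (C := 0.5874) (N0 := 9.999) (J_boxp 0.512 0.576 0 0.395 0.395 1.0705 0.6985 1.5093 1.1092 0.4902 3.1622 9.999 0.6525 2.36 1.339 1.1985 0.5352 0.4188 1.1835 3.7379 0.5634 1.1686 0.9005 1.976 0.004744 0.0152 0.000007274 0.0000003101 0.00358 0.000008434 0.000123 0.0000003101 0.5874
    hβ hN hx1 hx2 hy1 hy2 (by norm_num) (by norm_num) (by linarith) (by norm_num) (by norm_num) (by norm_num) (by norm_num) (by norm_num) (by norm_num) (by norm_num) (by norm_num) (by norm_num) (by norm_num) (by norm_num) (by norm_num) (by norm_num) (by norm_num) (by norm_num) (by norm_num) (by norm_num) (by norm_num) (by norm_num) (by norm_num) (by norm_num)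
    (cube_sqrt_geJ (s := 0.8845) (by norm_num) (by norm_num) (by norm_num) (by norm_num))
    (cube_sqrt_geJ (s := 0.9592) (by norm_num) (by norm_num) (by norm_num) (by norm_num))
    (by norm_num) (by norm_num) (by norm_num) (by norm_num) (by norm_num) (by norm_num) (by norm_num) (by norm_num) (by norm_num) (by norm_num) (by norm_num) (by norm_num) (by norm_num) (by norm_num) (by norm_num) (by norm_num) (by norm_num) (by norm_num)
    (exp_neg_leJ (r := 0.351) 5 (by norm_num) (by norm_num) (by norm_num) (by norm_num))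
    (exp_neg_leJ (r := 0.187) 4 (by norm_num) (by norm_num) (by norm_num) (by norm_num))
    (exp_neg_leJ (r := 0.833) 11 (by norm_num) (by norm_num) (by norm_num) (by norm_num))
    (exp_neg_leJ (r := 0.99) 14 (by norm_num) (by norm_num) (by norm_num) (by norm_num))
    (exp_neg_leJ (r := 0.633) 5 (by norm_num) (by norm_num) (by norm_num) (by norm_num))
    (exp_neg_leJ (r := 0.684) 11 (by norm_num) (by norm_num) (by norm_num) (by norm_num))
    (exp_neg_leJ (r := 0.004) 9 (by norm_num) (by norm_num) (by norm_num) (by norm_num))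
    (exp_neg_leJ (r := 0.99) 14 (by norm_num) (by norm_num) (by norm_num) (by norm_num))
    (by norm_num)) (by norm_num) hN hβ.le (by norm_num)

private theorem JB6_k1b_b4_3 {β x y : ℝ} (hβ : 0 < β) (hN : β * 9.999 ≤ 1) (hx1 : 0.4959 ≤ x) (hx2 : x ≤ 0.5458)
    (hy1 : -0 ≤ y) (hy2 : y ≤ 0.405) : ‖HH β (x + y * I) - 1‖ ≤ 0.06 := by
  refine le_epsJ (C := 0.5889) (N0 := 9.999) (J_boxp 0.4959 0.5458 0 0.405 0.405 1.0592 0.6797 1.5073 1.1263 0.4898 3.1622 9.999 0.6418 2.323 1.332 1.2101 0.5295 0.4163 1.178 3.7523 0.5545 1.1453 0.8254 1.9478 0.005022 0.01558 0.000007682 0.0000003101 0.003912 0.00001065 0.0002605 0.0000003101 0.5889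
    hβ hN hx1 hx2 hy1 hy2 (by norm_num) (by norm_num) (by linarith) (by norm_num) (by norm_num) (by norm_num) (by norm_num) (by norm_num) (by norm_num) (by norm_num) (by norm_num) (by norm_num) (by norm_num) (by norm_num) (by norm_num) (by norm_num) (by norm_num) (by norm_num) (by norm_num) (by norm_num) (by norm_num) (by norm_num) (by norm_num) (by norm_num)
    (cube_sqrt_geJ (s := 0.8866) (by norm_num) (by norm_num) (by norm_num) (by norm_num))
    (cube_sqrt_geJ (s := 0.9599) (by norm_num) (by norm_num) (by norm_num) (by norm_num))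
    (by norm_num) (by norm_num) (by norm_num) (by norm_num) (by norm_num) (by norm_num) (by norm_num) (by norm_num) (by norm_num) (by norm_num) (by norm_num) (by norm_num) (by norm_num) (by norm_num) (by norm_num) (by norm_num) (by norm_num) (by norm_num)
    (exp_neg_leJ (r := 0.294) 5 (by norm_num) (by norm_num) (by norm_num) (by norm_num))
    (exp_neg_leJ (r := 0.162) 4 (by norm_num) (by norm_num) (by norm_num) (by norm_num))
    (exp_neg_leJ (r := 0.778) 11 (by norm_num) (by norm_num) (by norm_num) (by norm_num))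
    (exp_neg_leJ (r := 0.99) 14 (by norm_num) (by norm_num) (by norm_num) (by norm_num))
    (exp_neg_leJ (r := 0.544) 5 (by norm_num) (by norm_num) (by norm_num) (by norm_num))
    (exp_neg_leJ (r := 0.451) 11 (by norm_num) (by norm_num) (by norm_num) (by norm_num))
    (exp_neg_leJ (r := 0.253) 8 (by norm_num) (by norm_num) (by norm_num) (by norm_num))
    (exp_neg_leJ (r := 0.99) 14 (by norm_num) (by norm_num) (by norm_num) (by norm_num))
    (by norm_num)) (by norm_num) hN hβ.le (by norm_num)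

theorem JB6_k1b_c4 {κ t β : ℝ} (h : DomR κ t) (hβ : 0 < β) (hk1 : 0.96 ≤ κ) (hk2 : κ ≤ 1)
    (ht1 : 0.6 ≤ t + κ) (ht2 : t + κ ≤ 1.11) (hR0 : β * 10 ≤ κ) (hR : β * (4.95 * (1 + κ ^ 2)) ≤ κ) :
    ‖HH β (sg κ t) - 1‖ ≤ 0.06 := by
  have hN : β * 9.999 ≤ 1 := bNR hβ h.1 hk2 hR0 (by norm_num)
  have hy1 : 0.25 ≤ sy κ t := syR_ge h 0.96 1 0.6 0.25 1.28402 1.28403 0.321 0.33439 hk1 hk2 (by linarith) (by norm_num) (by norm_num)
    (expn_ge (by norm_num) (by norm_num)) (expn_le (by norm_num) (by norm_num) (by norm_num)) (by norm_num)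
    (by norm_num) (by norm_num) (by norm_num) (by norm_num) (by norm_num) (by norm_num)
  have hy2 : sy κ t ≤ 0.405 := syR_le h 0.96 1 1.11 0.405 1.4993 0.6008 0.60721 0.63253 hk1 hk2 (by linarith) (by norm_num) (by norm_num)
    (expn_ge (by norm_num) (by norm_num)) (by norm_num) (by norm_num) (Or.inr ((mul_le_mul_of_nonneg_left (expn_le (E := 1.49931) (by norm_num) (by norm_num) (by norm_num)) (by norm_num)).trans (by norm_num))) (by norm_num) (by norm_num) (by norm_num)
  rcases le_total (sy κ t) 0.335 with f0 | g0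
  · have hx1 : 0.5994 ≤ sx κ t := sx_lo h 0.96 0.335 0.335 0.71533 0.5994 hk1 (by norm_num) f0 (abs_le.2 ⟨by linarith, by linarith⟩) (expm_ge (by norm_num) (by norm_num) (by norm_num) (by norm_num)) (by norm_num) (by norm_num)
    have hx2 : sx κ t ≤ 0.7376 := sx_hi h 1 0.25 0.25 0.77881 0.7376 hk2 hy1 (by norm_num) (by rw [abs_of_nonneg (by linarith)]; linarith) (expm_le (by norm_num) (by norm_num) (by norm_num)) (by norm_num) (by norm_num)
    exact JB6_k1b_b4_0 hβ hN hx1 hx2 (by linarith) (by linarith)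
  rcases le_total (sy κ t) 0.375 with f1 | g1
  · have hx1 : 0.5428 ≤ sx κ t := sx_lo h 0.96 0.375 0.375 0.68728 0.5428 hk1 (by norm_num) f1 (abs_le.2 ⟨by linarith, by linarith⟩) (expm_ge (by norm_num) (by norm_num) (by norm_num) (by norm_num)) (by norm_num) (by norm_num)
    have hx2 : sx κ t ≤ 0.6321 := sx_hi h 1 0.335 0.335 0.71534 0.6321 hk2 g0 (by norm_num) (by rw [abs_of_nonneg (by linarith)]; linarith) (expm_le (by norm_num) (by norm_num) (by norm_num)) (by norm_num) (by norm_num)
    exact JB6_k1b_b4_1 hβ hN hx1 hx2 (by linarith) (by linarith)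
  rcases le_total (sy κ t) 0.395 with f2 | g2
  · have hx1 : 0.512 ≤ sx κ t := sx_lo h 0.96 0.395 0.395 0.67368 0.512 hk1 (by norm_num) f2 (abs_le.2 ⟨by linarith, by linarith⟩) (expm_ge (by norm_num) (by norm_num) (by norm_num) (by norm_num)) (by norm_num) (by norm_num)
    have hx2 : sx κ t ≤ 0.576 := sx_hi h 1 0.375 0.375 0.68729 0.576 hk2 g1 (by norm_num) (by rw [abs_of_nonneg (by linarith)]; linarith) (expm_le (by norm_num) (by norm_num) (by norm_num)) (by norm_num) (by norm_num)
    exact JB6_k1b_b4_2 hβ hN hx1 hx2 (by linarith) (by linarith)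
  have hx1 : 0.4959 ≤ sx κ t := sx_lo h 0.96 0.405 0.405 0.66697 0.4959 hk1 (by norm_num) hy2 (abs_le.2 ⟨by linarith, by linarith⟩) (expm_ge (by norm_num) (by norm_num) (by norm_num) (by norm_num)) (by norm_num) (by norm_num)
  have hx2 : sx κ t ≤ 0.5458 := sx_hi h 1 0.395 0.395 0.67369 0.5458 hk2 g2 (by norm_num) (by rw [abs_of_nonneg (by linarith)]; linarith) (expm_le (by norm_num) (by norm_num) (by norm_num)) (by norm_num) (by norm_num)
  exact JB6_k1b_b4_3 hβ hN hx1 hx2 (by linarith) (by linarith)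
end Sok
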