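import Pool.Agent.Lib.MP_816dec_an.JBG2

/-!
MP_816dec_an (A3, row R1): tables b = 6, real points.
-/

set_option autoImplicit false
set_option maxHeartbeats 4000000

open Complex Set

namespace Sok

private theorem JB6_k1b_b5_0 {β x y : ℝ} (hβ : 0 < β) (hN : β * 9.899 ≤ 1) (hx1 : 0.6413 ≤ x) (hx2 : x ≤ 0.7751)
    (hy1 : -0 ≤ y) (hy2 : y ≤ 0.328) : ‖HH β (x + y * I) - 1‖ ≤ 0.06 := by
  refine le_epsJ (C := 0.5831) (N0 := 9.899) (J_boxp 0.6413 0.7751 0 0.328 0.328 1.1616 0.8417 1.5377 0.9905 0.4948 3.1463 9.899 0.7247 2.633 1.385 1.122 0.5807 0.4404 1.2278 3.6379 0.633 1.3544 1.4465 2.1611 0.003193 0.0128 0.000005273 0.0000003101 0.0019 0.000001505 0.0000006051 0.0000003101 0.5831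
    hβ hN hx1 hx2 hy1 hy2 (by norm_num) (by norm_num) (by linarith) (by norm_num) (by norm_num) (by norm_num) (by norm_num) (by norm_num) (by norm_num) (by norm_num) (by norm_num) (by norm_num) (by norm_num) (by norm_num) (by norm_num) (by norm_num) (by norm_num) (by norm_num) (by norm_num) (by norm_num) (by norm_num) (by norm_num) (by norm_num) (by norm_num)
    (cube_sqrt_geJ (s := 0.8708) (by norm_num) (by norm_num) (by norm_num) (by norm_num))
    (cube_sqrt_geJ (s := 0.9546) (by norm_num) (by norm_num) (by norm_num) (by norm_num))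
    (by norm_num) (by norm_num) (by norm_num) (by norm_num) (by norm_num) (by norm_num) (by norm_num) (by norm_num) (by norm_num) (by norm_num) (by norm_num) (by norm_num) (by norm_num) (by norm_num) (by norm_num) (by norm_num) (by norm_num) (by norm_num)
    (exp_neg_leJ (r := 0.748) 5 (by norm_num) (by norm_num) (by norm_num) (by norm_num))
    (exp_neg_leJ (r := 0.359) 4 (by norm_num) (by norm_num) (by norm_num) (by norm_num))
    (exp_neg_leJ (r := 0.153) 12 (by norm_num) (by norm_num) (by norm_num) (by norm_num))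
    (exp_neg_leJ (r := 0.99) 14 (by norm_num) (by norm_num) (by norm_num) (by norm_num))
    (exp_neg_leJ (r := 0.266) 6 (by norm_num) (by norm_num) (by norm_num) (by norm_num))
    (exp_neg_leJ (r := 0.407) 13 (by norm_num) (by norm_num) (by norm_num) (by norm_num))
    (exp_neg_leJ (r := 0.318) 14 (by norm_num) (by norm_num) (by norm_num) (by norm_num))
    (exp_neg_leJ (r := 0.99) 14 (by norm_num) (by norm_num) (by norm_num) (by norm_num))
    (by norm_num)) (by norm_num) hN hβ.le (by norm_num)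

private theorem JB6_k1b_b5_1 {β x y : ℝ} (hβ : 0 < β) (hN : β * 9.899 ≤ 1) (hx1 : 0.5861 ≤ x) (hx2 : x ≤ 0.6816)
    (hy1 : -0 ≤ y) (hy2 : y ≤ 0.368) : ‖HH β (x + y * I) - 1‖ ≤ 0.06 := by
  refine le_epsJ (C := 0.579) (N0 := 9.899) (J_boxp 0.5861 0.6816 0 0.368 0.368 1.1227 0.7746 1.5284 1.0393 0.4933 3.1463 9.899 0.69 2.497 1.363 1.1579 0.5613 0.4322 1.2089 3.6848 0.6021 1.2739 1.1645 2.0446 0.003866 0.01388 0.000006377 0.0000003101 0.002588 0.00000334 0.000009863 0.0000003101 0.579
    hβ hN hx1 hx2 hy1 hy2 (by norm_num) (by norm_num) (by linarith) (by norm_num) (by norm_num) (by norm_num) (by norm_num) (by norm_num) (by norm_num) (by norm_num) (by norm_num) (by norm_num) (by norm_num) (by norm_num) (by norm_num) (by norm_num) (by norm_num) (by norm_num) (by norm_num) (by norm_num) (by norm_num) (by norm_num) (by norm_num) (by norm_num)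
    (cube_sqrt_geJ (s := 0.8774) (by norm_num) (by norm_num) (by norm_num) (by norm_num))
    (cube_sqrt_geJ (s := 0.9568) (by norm_num) (by norm_num) (by norm_num) (by norm_num))
    (by norm_num) (by norm_num) (by norm_num) (by norm_num) (by norm_num) (by norm_num) (by norm_num) (by norm_num) (by norm_num) (by norm_num) (by norm_num) (by norm_num) (by norm_num) (by norm_num) (by norm_num) (by norm_num) (by norm_num) (by norm_num)
    (exp_neg_leJ (r := 0.556) 5 (by norm_num) (by norm_num) (by norm_num) (by norm_num))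
    (exp_neg_leJ (r := 0.278) 4 (by norm_num) (by norm_num) (by norm_num) (by norm_num))
    (exp_neg_leJ (r := 0.966) 11 (by norm_num) (by norm_num) (by norm_num) (by norm_num))
    (exp_neg_leJ (r := 0.99) 14 (by norm_num) (by norm_num) (by norm_num) (by norm_num))
    (exp_neg_leJ (r := 0.96) 5 (by norm_num) (by norm_num) (by norm_num) (by norm_num))
    (exp_neg_leJ (r := 0.61) 12 (by norm_num) (by norm_num) (by norm_num) (by norm_num))
    (exp_neg_leJ (r := 0.527) 11 (by norm_num) (by norm_num) (by norm_num) (by norm_num))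
    (exp_neg_leJ (r := 0.99) 14 (by norm_num) (by norm_num) (by norm_num) (by norm_num))
    (by norm_num)) (by norm_num) hN hβ.le (by norm_num)

private theorem JB6_k1b_b5_2 {β x y : ℝ} (hβ : 0 < β) (hN : β * 9.899 ≤ 1) (hx1 : 0.5488 ≤ x) (hx2 : x ≤ 0.6267)
    (hy1 : -0 ≤ y) (hy2 : y ≤ 0.393) : ‖HH β (x + y * I) - 1‖ ≤ 0.06 := by
  refine le_epsJ (C := 0.5929) (N0 := 9.899) (J_boxp 0.5488 0.6267 0 0.393 0.393 1.0964 0.7398 1.5275 1.0766 0.4931 3.1463 9.899 0.6748 2.44 1.353 1.179 0.5481 0.4248 1.1961 3.7111 0.5815 1.2197 0.9827 1.9468 0.004406 0.01493 0.000007223 0.0000003101 0.003168 0.000005712 0.00005971 0.0000003101 0.5929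
    hβ hN hx1 hx2 hy1 hy2 (by norm_num) (by norm_num) (by linarith) (by norm_num) (by norm_num) (by norm_num) (by norm_num) (by norm_num) (by norm_num) (by norm_num) (by norm_num) (by norm_num) (by norm_num) (by norm_num) (by norm_num) (by norm_num) (by norm_num) (by norm_num) (by norm_num) (by norm_num) (by norm_num) (by norm_num) (by norm_num) (by norm_num)
    (cube_sqrt_geJ (s := 0.8803) (by norm_num) (by norm_num) (by norm_num) (by norm_num))
    (cube_sqrt_geJ (s := 0.9577) (by norm_num) (by norm_num) (by norm_num) (by norm_num))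
    (by norm_num) (by norm_num) (by norm_num) (by norm_num) (by norm_num) (by norm_num) (by norm_num) (by norm_num) (by norm_num) (by norm_num) (by norm_num) (by norm_num) (by norm_num) (by norm_num) (by norm_num) (by norm_num) (by norm_num) (by norm_num)
    (exp_neg_leJ (r := 0.425) 5 (by norm_num) (by norm_num) (by norm_num) (by norm_num))
    (exp_neg_leJ (r := 0.205) 4 (by norm_num) (by norm_num) (by norm_num) (by norm_num))
    (exp_neg_leJ (r := 0.84) 11 (by norm_num) (by norm_num) (by norm_num) (by norm_num))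
    (exp_neg_leJ (r := 0.99) 14 (by norm_num) (by norm_num) (by norm_num) (by norm_num))
    (exp_neg_leJ (r := 0.756) 5 (by norm_num) (by norm_num) (by norm_num) (by norm_num))
    (exp_neg_leJ (r := 0.073) 12 (by norm_num) (by norm_num) (by norm_num) (by norm_num))
    (exp_neg_leJ (r := 0.727) 9 (by norm_num) (by norm_num) (by norm_num) (by norm_num))
    (exp_neg_leJ (r := 0.99) 14 (by norm_num) (by norm_num) (by norm_num) (by norm_num))
    (by norm_num)) (by norm_num) hN hβ.le (by norm_num)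

private theorem JB6_k1b_b5_3 {β x y : ℝ} (hβ : 0 < β) (hN : β * 9.899 ≤ 1) (hx1 : 0.5331 ≤ x) (hx2 : x ≤ 0.5899)
    (hy1 : -0 ≤ y) (hy2 : y ≤ 0.403) : ‖HH β (x + y * I) - 1‖ ≤ 0.06 := by
  refine le_epsJ (C := 0.5833) (N0 := 9.899) (J_boxp 0.5331 0.5899 0 0.403 0.403 1.0854 0.7145 1.522 1.091 0.4922 3.1463 9.899 0.6583 2.381 1.343 1.1932 0.5426 0.4236 1.1907 3.7293 0.5728 1.197 0.9084 1.937 0.00465 0.01511 0.000007621 0.0000003101 0.003451 0.000007159 0.0001251 0.0000003101 0.5833
    hβ hN hx1 hx2 hy1 hy2 (by norm_num) (by norm_num) (by linarith) (by norm_num) (by norm_num) (by norm_num) (by norm_num) (by norm_num) (by norm_num) (by norm_num) (by norm_num) (by norm_num) (by norm_num) (by norm_num) (by norm_num) (by norm_num) (by norm_num) (by norm_num) (by norm_num) (by norm_num) (by norm_num) (by norm_num) (by norm_num) (by norm_num)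
    (cube_sqrt_geJ (s := 0.8834) (by norm_num) (by norm_num) (by norm_num) (by norm_num))
    (cube_sqrt_geJ (s := 0.9588) (by norm_num) (by norm_num) (by norm_num) (by norm_num))
    (by norm_num) (by norm_num) (by norm_num) (by norm_num) (by norm_num) (by norm_num) (by norm_num) (by norm_num) (by norm_num) (by norm_num) (by norm_num) (by norm_num) (by norm_num) (by norm_num) (by norm_num) (by norm_num) (by norm_num) (by norm_num)
    (exp_neg_leJ (r := 0.371) 5 (by norm_num) (by norm_num) (by norm_num) (by norm_num))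
    (exp_neg_leJ (r := 0.193) 4 (by norm_num) (by norm_num) (by norm_num) (by norm_num))
    (exp_neg_leJ (r := 0.786) 11 (by norm_num) (by norm_num) (by norm_num) (by norm_num))
    (exp_neg_leJ (r := 0.99) 14 (by norm_num) (by norm_num) (by norm_num) (by norm_num))
    (exp_neg_leJ (r := 0.67) 5 (by norm_num) (by norm_num) (by norm_num) (by norm_num))
    (exp_neg_leJ (r := 0.849) 11 (by norm_num) (by norm_num) (by norm_num) (by norm_num))
    (exp_neg_leJ (r := 0.99) 8 (by norm_num) (by norm_num) (by norm_num) (by norm_num))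
    (exp_neg_leJ (r := 0.99) 14 (by norm_num) (by norm_num) (by norm_num) (by norm_num))
    (by norm_num)) (by norm_num) hN hβ.le (by norm_num)

private theorem JB6_k1b_b5_4 {β x y : ℝ} (hβ : 0 < β) (hN : β * 9.899 ≤ 1) (hx1 : 0.525 ≤ x) (hx2 : x ≤ 0.5745)
    (hy1 : -0 ≤ y) (hy2 : y ≤ 0.408) : ‖HH β (x + y * I) - 1‖ ≤ 0.06 := by
  refine le_epsJ (C := 0.5834) (N0 := 9.899) (J_boxp 0.525 0.5745 0 0.408 0.408 1.0797 0.7047 1.5207 1.0992 0.492 3.1463 9.899 0.6527 2.361 1.339 1.1991 0.5398 0.4223 1.1879 3.7367 0.5684 1.1853 0.8707 1.9239 0.004782 0.0153 0.000007828 0.0000003101 0.003605 0.000008033 0.0001808 0.0000003101 0.5834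
    hβ hN hx1 hx2 hy1 hy2 (by norm_num) (by norm_num) (by linarith) (by norm_num) (by norm_num) (by norm_num) (by norm_num) (by norm_num) (by norm_num) (by norm_num) (by norm_num) (by norm_num) (by norm_num) (by norm_num) (by norm_num) (by norm_num) (by norm_num) (by norm_num) (by norm_num) (by norm_num) (by norm_num) (by norm_num) (by norm_num) (by norm_num)
    (cube_sqrt_geJ (s := 0.8845) (by norm_num) (by norm_num) (by norm_num) (by norm_num))
    (cube_sqrt_geJ (s := 0.9592) (by norm_num) (by norm_num) (by norm_num) (by norm_num))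
    (by norm_num) (by norm_num) (by norm_num) (by norm_num) (by norm_num) (by norm_num) (by norm_num) (by norm_num) (by norm_num) (by norm_num) (by norm_num) (by norm_num) (by norm_num) (by norm_num) (by norm_num) (by norm_num) (by norm_num) (by norm_num)
    (exp_neg_leJ (r := 0.343) 5 (by norm_num) (by norm_num) (by norm_num) (by norm_num))
    (exp_neg_leJ (r := 0.18) 4 (by norm_num) (by norm_num) (by norm_num) (by norm_num))
    (exp_neg_leJ (r := 0.759) 11 (by norm_num) (by norm_num) (by norm_num) (by norm_num))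
    (exp_neg_leJ (r := 0.99) 14 (by norm_num) (by norm_num) (by norm_num) (by norm_num))
    (exp_neg_leJ (r := 0.626) 5 (by norm_num) (by norm_num) (by norm_num) (by norm_num))
    (exp_neg_leJ (r := 0.733) 11 (by norm_num) (by norm_num) (by norm_num) (by norm_num))
    (exp_neg_leJ (r := 0.619) 8 (by norm_num) (by norm_num) (by norm_num) (by norm_num))
    (exp_neg_leJ (r := 0.99) 14 (by norm_num) (by norm_num) (by norm_num) (by norm_num))
    (by norm_num)) (by norm_num) hN hβ.le (by norm_num)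

private theorem JB6_k1b_b5_5 {β x y : ℝ} (hβ : 0 < β) (hN : β * 9.899 ≤ 1) (hx1 : 0.5202 ≤ x) (hx2 : x ≤ 0.5667)
    (hy1 : -0 ≤ y) (hy2 : y ≤ 0.411) : ‖HH β (x + y * I) - 1‖ ≤ 0.06 := by
  refine le_epsJ (C := 0.5855) (N0 := 9.899) (J_boxp 0.5202 0.5667 0 0.411 0.411 1.0763 0.7001 1.5206 1.1044 0.492 3.1463 9.899 0.6505 2.353 1.338 1.2021 0.5381 0.4214 1.1863 3.7403 0.5657 1.1783 0.8483 1.9127 0.004864 0.01544 0.000007953 0.0000003101 0.003704 0.000008612 0.0002256 0.0000003101 0.5855
    hβ hN hx1 hx2 hy1 hy2 (by norm_num) (by norm_num) (by linarith) (by norm_num) (by norm_num) (by norm_num) (by norm_num) (by norm_num) (by norm_num) (by norm_num) (by norm_num) (by norm_num) (by norm_num) (by norm_num) (by norm_num) (by norm_num) (by norm_num) (by norm_num) (by norm_num) (by norm_num) (by norm_num) (by norm_num) (by norm_num) (by norm_num)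
    (cube_sqrt_geJ (s := 0.8849) (by norm_num) (by norm_num) (by norm_num) (by norm_num))
    (cube_sqrt_geJ (s := 0.9593) (by norm_num) (by norm_num) (by norm_num) (by norm_num))
    (by norm_num) (by norm_num) (by norm_num) (by norm_num) (by norm_num) (by norm_num) (by norm_num) (by norm_num) (by norm_num) (by norm_num) (by norm_num) (by norm_num) (by norm_num) (by norm_num) (by norm_num) (by norm_num) (by norm_num) (by norm_num)
    (exp_neg_leJ (r := 0.326) 5 (by norm_num) (by norm_num) (by norm_num) (by norm_num))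
    (exp_neg_leJ (r := 0.171) 4 (by norm_num) (by norm_num) (by norm_num) (by norm_num))
    (exp_neg_leJ (r := 0.743) 11 (by norm_num) (by norm_num) (by norm_num) (by norm_num))
    (exp_neg_leJ (r := 0.99) 14 (by norm_num) (by norm_num) (by norm_num) (by norm_num))
    (exp_neg_leJ (r := 0.599) 5 (by norm_num) (by norm_num) (by norm_num) (by norm_num))
    (exp_neg_leJ (r := 0.663) 11 (by norm_num) (by norm_num) (by norm_num) (by norm_num))
    (exp_neg_leJ (r := 0.397) 8 (by norm_num) (by norm_num) (by norm_num) (by norm_num))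
    (exp_neg_leJ (r := 0.99) 14 (by norm_num) (by norm_num) (by norm_num) (by norm_num))
    (by norm_num)) (by norm_num) hN hβ.le (by norm_num)

theorem JB6_k1b_c5 {κ t β : ℝ} (h : DomR κ t) (hβ : 0 < β) (hk1 : 1 ≤ κ) (hk2 : κ ≤ 1.05)
    (ht1 : 0.6 ≤ t + κ) (ht2 : t + κ ≤ 1.11) (hR0 : β * 10 ≤ κ) (hR : β * (4.95 * (1 + κ ^ 2)) ≤ κ) :
    ‖HH β (sg κ t) - 1‖ ≤ 0.06 := by
  have hN : β * 9.899 ≤ 1 := bNC' hβ hk1 (by norm_num) (by norm_num) hR (by norm_num)
  have hy1 : 0.253 ≤ sy κ t := syR_ge h 1 1.05 0.6 0.253 1.28788 1.28789 0.31031 0.32584 hk1 hk2 (by linarith) (by norm_num) (by norm_num)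
    (expn_ge (by norm_num) (by norm_num)) (expn_le (by norm_num) (by norm_num) (by norm_num)) (by norm_num)
    (by norm_num) (by norm_num) (by norm_num) (by norm_num) (by norm_num) (by norm_num)
  have hy2 : sy κ t ≤ 0.411 := syR_le h 1 1.05 1.11 0.411 1.50832 0.583 0.59039 0.61993 hk1 hk2 (by linarith) (by norm_num) (by norm_num)
    (expn_ge (by norm_num) (by norm_num)) (by norm_num) (by norm_num) (Or.inr ((mul_le_mul_of_nonneg_left (expn_le (E := 1.50833) (by norm_num) (by norm_num) (by norm_num)) (by norm_num)).trans (by norm_num))) (by norm_num) (by norm_num) (by norm_num)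
  rcases le_total (sy κ t) 0.328 with f0 | g0
  · have hx1 : 0.6413 ≤ sx κ t := sx_lo h 1 0.328 0.328 0.72036 0.6413 hk1 (by norm_num) f0 (abs_le.2 ⟨by linarith, by linarith⟩) (expm_ge (by norm_num) (by norm_num) (by norm_num) (by norm_num)) (by norm_num) (by norm_num)
    have hx2 : sx κ t ≤ 0.7751 := sx_hi h 1.05 0.253 0.253 0.77647 0.7751 hk2 hy1 (by norm_num) (by rw [abs_of_nonneg (by linarith)]; linarith) (expm_le (by norm_num) (by norm_num) (by norm_num)) (by norm_num) (by norm_num)
    exact JB6_k1b_b5_0 hβ hN hx1 hx2 (by linarith) (by linarith)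
  rcases le_total (sy κ t) 0.368 with f1 | g1
  · have hx1 : 0.5861 ≤ sx κ t := sx_lo h 1 0.368 0.368 0.69211 0.5861 hk1 (by norm_num) f1 (abs_le.2 ⟨by linarith, by linarith⟩) (expm_ge (by norm_num) (by norm_num) (by norm_num) (by norm_num)) (by norm_num) (by norm_num)
    have hx2 : sx κ t ≤ 0.6816 := sx_hi h 1.05 0.328 0.328 0.72037 0.6816 hk2 g0 (by norm_num) (by rw [abs_of_nonneg (by linarith)]; linarith) (expm_le (by norm_num) (by norm_num) (by norm_num)) (by norm_num) (by norm_num)
    exact JB6_k1b_b5_1 hβ hN hx1 hx2 (by linarith) (by linarith)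
  rcases le_total (sy κ t) 0.393 with f2 | g2
  · have hx1 : 0.5488 ≤ sx κ t := sx_lo h 1 0.393 0.393 0.67502 0.5488 hk1 (by norm_num) f2 (abs_le.2 ⟨by linarith, by linarith⟩) (expm_ge (by norm_num) (by norm_num) (by norm_num) (by norm_num)) (by norm_num) (by norm_num)
    have hx2 : sx κ t ≤ 0.6267 := sx_hi h 1.05 0.368 0.368 0.69212 0.6267 hk2 g1 (by norm_num) (by rw [abs_of_nonneg (by linarith)]; linarith) (expm_le (by norm_num) (by norm_num) (by norm_num)) (by norm_num) (by norm_num)
    exact JB6_k1b_b5_2 hβ hN hx1 hx2 (by linarith) (by linarith)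
  rcases le_total (sy κ t) 0.403 with f3 | g3
  · have hx1 : 0.5331 ≤ sx κ t := sx_lo h 1 0.403 0.403 0.66831 0.5331 hk1 (by norm_num) f3 (abs_le.2 ⟨by linarith, by linarith⟩) (expm_ge (by norm_num) (by norm_num) (by norm_num) (by norm_num)) (by norm_num) (by norm_num)
    have hx2 : sx κ t ≤ 0.5899 := sx_hi h 1.05 0.393 0.393 0.67503 0.5899 hk2 g2 (by norm_num) (by rw [abs_of_nonneg (by linarith)]; linarith) (expm_le (by norm_num) (by norm_num) (by norm_num)) (by norm_num) (by norm_num)
    exact JB6_k1b_b5_3 hβ hN hx1 hx2 (by linarith) (by linarith)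
  rcases le_total (sy κ t) 0.408 with f4 | g4
  · have hx1 : 0.525 ≤ sx κ t := sx_lo h 1 0.408 0.408 0.66497 0.525 hk1 (by norm_num) f4 (abs_le.2 ⟨by linarith, by linarith⟩) (expm_ge (by norm_num) (by norm_num) (by norm_num) (by norm_num)) (by norm_num) (by norm_num)
    have hx2 : sx κ t ≤ 0.5745 := sx_hi h 1.05 0.403 0.403 0.66832 0.5745 hk2 g3 (by norm_num) (by rw [abs_of_nonneg (by linarith)]; linarith) (expm_le (by norm_num) (by norm_num) (by norm_num)) (by norm_num) (by norm_num)
    exact JB6_k1b_b5_4 hβ hN hx1 hx2 (by linarith) (by linarith)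
  have hx1 : 0.5202 ≤ sx κ t := sx_lo h 1 0.411 0.411 0.66298 0.5202 hk1 (by norm_num) hy2 (abs_le.2 ⟨by linarith, by linarith⟩) (expm_ge (by norm_num) (by norm_num) (by norm_num) (by norm_num)) (by norm_num) (by norm_num)
  have hx2 : sx κ t ≤ 0.5667 := sx_hi h 1.05 0.408 0.408 0.66498 0.5667 hk2 g4 (by norm_num) (by rw [abs_of_nonneg (by linarith)]; linarith) (expm_le (by norm_num) (by norm_num) (by norm_num)) (by norm_num) (by norm_num)
  exact JB6_k1b_b5_5 hβ hN hx1 hx2 (by linarith) (by linarith)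

private theorem JB6_k1b_b6_0 {β x y : ℝ} (hβ : 0 < β) (hN : β * 9.911 ≤ 1) (hx1 : 0.6775 ≤ x) (hx2 : x ≤ 0.8203)
    (hy1 : -0 ≤ y) (hy2 : y ≤ 0.331) : ‖HH β (x + y * I) - 1‖ ≤ 0.06 := by
  refine le_epsJ (C := 0.5884) (N0 := 9.911) (J_boxp 0.6775 0.8203 0 0.331 0.331 1.1871 0.8846 1.5635 0.9668 0.4989 3.1482 9.911 0.7452 2.717 1.398 1.1046 0.5935 0.4461 1.2401 3.6124 0.6503 1.4043 1.506 2.1027 0.002796 0.01203 0.000004598 0.0000003101 0.001589 0.000000905 0.0000003307 0.0000003101 0.5884
    hβ hN hx1 hx2 hy1 hy2 (by norm_num) (by norm_num) (by linarith) (by norm_num) (by norm_num) (by norm_num) (by norm_num) (by norm_num) (by norm_num) (by norm_num) (by norm_num) (by norm_num) (by norm_num) (by norm_num) (by norm_num) (by norm_num) (by norm_num) (by norm_num) (by norm_num) (by norm_num) (by norm_num) (by norm_num) (by norm_num) (by norm_num)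
    (cube_sqrt_geJ (s := 0.8669) (by norm_num) (by norm_num) (by norm_num) (by norm_num))
    (cube_sqrt_geJ (s := 0.9532) (by norm_num) (by norm_num) (by norm_num) (by norm_num))
    (by norm_num) (by norm_num) (by norm_num) (by norm_num) (by norm_num) (by norm_num) (by norm_num) (by norm_num) (by norm_num) (by norm_num) (by norm_num) (by norm_num) (by norm_num) (by norm_num) (by norm_num) (by norm_num) (by norm_num) (by norm_num)
    (exp_neg_leJ (r := 0.882) 5 (by norm_num) (by norm_num) (by norm_num) (by norm_num))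
    (exp_neg_leJ (r := 0.421) 4 (by norm_num) (by norm_num) (by norm_num) (by norm_num))
    (exp_neg_leJ (r := 0.29) 12 (by norm_num) (by norm_num) (by norm_num) (by norm_num))
    (exp_neg_leJ (r := 0.99) 14 (by norm_num) (by norm_num) (by norm_num) (by norm_num))
    (exp_neg_leJ (r := 0.445) 6 (by norm_num) (by norm_num) (by norm_num) (by norm_num))
    (exp_neg_leJ (r := 0.918) 13 (by norm_num) (by norm_num) (by norm_num) (by norm_num))
    (exp_neg_leJ (r := 0.925) 14 (by norm_num) (by norm_num) (by norm_num) (by norm_num))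
    (exp_neg_leJ (r := 0.99) 14 (by norm_num) (by norm_num) (by norm_num) (by norm_num))
    (by norm_num)) (by norm_num) hN hβ.le (by norm_num)

private theorem JB6_k1b_b6_1 {β x y : ℝ} (hβ : 0 < β) (hN : β * 9.911 ≤ 1) (hx1 : 0.6223 ≤ x) (hx2 : x ≤ 0.7253)
    (hy1 : -0 ≤ y) (hy2 : y ≤ 0.371) : ‖HH β (x + y * I) - 1‖ ≤ 0.06 := by
  refine le_epsJ (C := 0.5791) (N0 := 9.911) (J_boxp 0.6223 0.7253 0 0.371 0.371 1.1482 0.8147 1.5511 1.0123 0.4969 3.1482 9.911 0.7096 2.572 1.375 1.1411 0.574 0.4383 1.2213 3.6605 0.6194 1.3238 1.224 1.9939 0.003389 0.013 0.000005538 0.0000003101 0.00216 0.000002005 0.00000539 0.0000003101 0.5791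
    hβ hN hx1 hx2 hy1 hy2 (by norm_num) (by norm_num) (by linarith) (by norm_num) (by norm_num) (by norm_num) (by norm_num) (by norm_num) (by norm_num) (by norm_num) (by norm_num) (by norm_num) (by norm_num) (by norm_num) (by norm_num) (by norm_num) (by norm_num) (by norm_num) (by norm_num) (by norm_num) (by norm_num) (by norm_num) (by norm_num) (by norm_num)
    (cube_sqrt_geJ (s := 0.8737) (by norm_num) (by norm_num) (by norm_num) (by norm_num))
    (cube_sqrt_geJ (s := 0.9555) (by norm_num) (by norm_num) (by norm_num) (by norm_num))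
    (by norm_num) (by norm_num) (by norm_num) (by norm_num) (by norm_num) (by norm_num) (by norm_num) (by norm_num) (by norm_num) (by norm_num) (by norm_num) (by norm_num) (by norm_num) (by norm_num) (by norm_num) (by norm_num) (by norm_num) (by norm_num)
    (exp_neg_leJ (r := 0.688) 5 (by norm_num) (by norm_num) (by norm_num) (by norm_num))
    (exp_neg_leJ (r := 0.343) 4 (by norm_num) (by norm_num) (by norm_num) (by norm_num))
    (exp_neg_leJ (r := 0.104) 12 (by norm_num) (by norm_num) (by norm_num) (by norm_num))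
    (exp_neg_leJ (r := 0.99) 14 (by norm_num) (by norm_num) (by norm_num) (by norm_num))
    (exp_neg_leJ (r := 0.138) 6 (by norm_num) (by norm_num) (by norm_num) (by norm_num))
    (exp_neg_leJ (r := 0.12) 13 (by norm_num) (by norm_num) (by norm_num) (by norm_num))
    (exp_neg_leJ (r := 0.131) 12 (by norm_num) (by norm_num) (by norm_num) (by norm_num))
    (exp_neg_leJ (r := 0.99) 14 (by norm_num) (by norm_num) (by norm_num) (by norm_num))
    (by norm_num)) (by norm_num) hN hβ.le (by norm_num)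

private theorem JB6_k1b_b6_2 {β x y : ℝ} (hβ : 0 < β) (hN : β * 9.911 ≤ 1) (hx1 : 0.5852 ≤ x) (hx2 : x ≤ 0.6702)
    (hy1 : -0 ≤ y) (hy2 : y ≤ 0.396) : ‖HH β (x + y * I) - 1‖ ≤ 0.06 := by
  refine le_epsJ (C := 0.5896) (N0 := 9.911) (J_boxp 0.5852 0.6702 0 0.396 0.396 1.1221 0.7785 1.5486 1.047 0.4965 3.1482 9.911 0.6938 2.511 1.365 1.1623 0.561 0.4312 1.2086 3.6873 0.5988 1.2698 1.0426 1.9003 0.00385 0.01395 0.000006302 0.0000003101 0.002656 0.000003428 0.00003255 0.0000003101 0.5896
    hβ hN hx1 hx2 hy1 hy2 (by norm_num) (by norm_num) (by linarith) (by norm_num) (by norm_num) (by norm_num) (by norm_num) (by norm_num) (by norm_num) (by norm_num) (by norm_num) (by norm_num) (by norm_num) (by norm_num) (by norm_num) (by norm_num) (by norm_num) (by norm_num) (by norm_num) (by norm_num) (by norm_num) (by norm_num) (by norm_num) (by norm_num)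
    (cube_sqrt_geJ (s := 0.8767) (by norm_num) (by norm_num) (by norm_num) (by norm_num))
    (cube_sqrt_geJ (s := 0.9565) (by norm_num) (by norm_num) (by norm_num) (by norm_num))
    (by norm_num) (by norm_num) (by norm_num) (by norm_num) (by norm_num) (by norm_num) (by norm_num) (by norm_num) (by norm_num) (by norm_num) (by norm_num) (by norm_num) (by norm_num) (by norm_num) (by norm_num) (by norm_num) (by norm_num) (by norm_num)
    (exp_neg_leJ (r := 0.56) 5 (by norm_num) (by norm_num) (by norm_num) (by norm_num))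
    (exp_neg_leJ (r := 0.273) 4 (by norm_num) (by norm_num) (by norm_num) (by norm_num))
    (exp_neg_leJ (r := 0.978) 11 (by norm_num) (by norm_num) (by norm_num) (by norm_num))
    (exp_neg_leJ (r := 0.99) 14 (by norm_num) (by norm_num) (by norm_num) (by norm_num))
    (exp_neg_leJ (r := 0.934) 5 (by norm_num) (by norm_num) (by norm_num) (by norm_num))
    (exp_neg_leJ (r := 0.584) 12 (by norm_num) (by norm_num) (by norm_num) (by norm_num))
    (exp_neg_leJ (r := 0.333) 10 (by norm_num) (by norm_num) (by norm_num) (by norm_num))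
    (exp_neg_leJ (r := 0.99) 14 (by norm_num) (by norm_num) (by norm_num) (by norm_num))
    (by norm_num)) (by norm_num) hN hβ.le (by norm_num)

private theorem JB6_k1b_b6_3 {β x y : ℝ} (hβ : 0 < β) (hN : β * 9.911 ≤ 1) (hx1 : 0.5697 ≤ x) (hx2 : x ≤ 0.6335)
    (hy1 : -0 ≤ y) (hy2 : y ≤ 0.406) : ‖HH β (x + y * I) - 1‖ ≤ 0.06 := by
  refine le_epsJ (C := 0.5782) (N0 := 9.911) (J_boxp 0.5697 0.6335 0 0.406 0.406 1.1112 0.7525 1.5422 1.0602 0.4955 3.1482 9.911 0.6772 2.449 1.354 1.1764 0.5555 0.4301 1.2032 3.7056 0.5903 1.2474 0.9687 1.8928 0.004068 0.0141 0.000006647 0.0000003101 0.002886 0.000004279 0.00006776 0.0000003101 0.5782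
    hβ hN hx1 hx2 hy1 hy2 (by norm_num) (by norm_num) (by linarith) (by norm_num) (by norm_num) (by norm_num) (by norm_num) (by norm_num) (by norm_num) (by norm_num) (by norm_num) (by norm_num) (by norm_num) (by norm_num) (by norm_num) (by norm_num) (by norm_num) (by norm_num) (by norm_num) (by norm_num) (by norm_num) (by norm_num) (by norm_num) (by norm_num)
    (cube_sqrt_geJ (s := 0.8799) (by norm_num) (by norm_num) (by norm_num) (by norm_num))
    (cube_sqrt_geJ (s := 0.9576) (by norm_num) (by norm_num) (by norm_num) (by norm_num))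
    (by norm_num) (by norm_num) (by norm_num) (by norm_num) (by norm_num) (by norm_num) (by norm_num) (by norm_num) (by norm_num) (by norm_num) (by norm_num) (by norm_num) (by norm_num) (by norm_num) (by norm_num) (by norm_num) (by norm_num) (by norm_num)
    (exp_neg_leJ (r := 0.505) 5 (by norm_num) (by norm_num) (by norm_num) (by norm_num))
    (exp_neg_leJ (r := 0.262) 4 (by norm_num) (by norm_num) (by norm_num) (by norm_num))
    (exp_neg_leJ (r := 0.924) 11 (by norm_num) (by norm_num) (by norm_num) (by norm_num))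
    (exp_neg_leJ (r := 0.99) 14 (by norm_num) (by norm_num) (by norm_num) (by norm_num))
    (exp_neg_leJ (r := 0.85) 5 (by norm_num) (by norm_num) (by norm_num) (by norm_num))
    (exp_neg_leJ (r := 0.362) 12 (by norm_num) (by norm_num) (by norm_num) (by norm_num))
    (exp_neg_leJ (r := 0.6) 9 (by norm_num) (by norm_num) (by norm_num) (by norm_num))
    (exp_neg_leJ (r := 0.99) 14 (by norm_num) (by norm_num) (by norm_num) (by norm_num))
    (by norm_num)) (by norm_num) hN hβ.le (by norm_num)

private theorem JB6_k1b_b6_4 {β x y : ℝ} (hβ : 0 < β) (hN : β * 9.911 ≤ 1) (hx1 : 0.5618 ≤ x) (hx2 : x ≤ 0.6183)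
    (hy1 : -0 ≤ y) (hy2 : y ≤ 0.411) : ‖HH β (x + y * I) - 1‖ ≤ 0.06 := by
  refine le_epsJ (C := 0.5776) (N0 := 9.911) (J_boxp 0.5618 0.6183 0 0.411 0.411 1.1056 0.7425 1.5406 1.0677 0.4952 3.1482 9.911 0.6716 2.429 1.351 1.1823 0.5527 0.429 1.2005 3.713 0.5859 1.2359 0.9315 1.8806 0.004183 0.01426 0.00000682 0.0000003101 0.003014 0.00000479 0.00009786 0.0000003101 0.5776
    hβ hN hx1 hx2 hy1 hy2 (by norm_num) (by norm_num) (by linarith) (by norm_num) (by norm_num) (by norm_num) (by norm_num) (by norm_num) (by norm_num) (by norm_num) (by norm_num) (by norm_num) (by norm_num) (by norm_num) (by norm_num) (by norm_num) (by norm_num) (by norm_num) (by norm_num) (by norm_num) (by norm_num) (by norm_num) (by norm_num) (by norm_num)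
    (cube_sqrt_geJ (s := 0.8809) (by norm_num) (by norm_num) (by norm_num) (by norm_num))
    (cube_sqrt_geJ (s := 0.958) (by norm_num) (by norm_num) (by norm_num) (by norm_num))
    (by norm_num) (by norm_num) (by norm_num) (by norm_num) (by norm_num) (by norm_num) (by norm_num) (by norm_num) (by norm_num) (by norm_num) (by norm_num) (by norm_num) (by norm_num) (by norm_num) (by norm_num) (by norm_num) (by norm_num) (by norm_num)
    (exp_neg_leJ (r := 0.477) 5 (by norm_num) (by norm_num) (by norm_num) (by norm_num))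
    (exp_neg_leJ (r := 0.251) 4 (by norm_num) (by norm_num) (by norm_num) (by norm_num))
    (exp_neg_leJ (r := 0.898) 11 (by norm_num) (by norm_num) (by norm_num) (by norm_num))
    (exp_neg_leJ (r := 0.99) 14 (by norm_num) (by norm_num) (by norm_num) (by norm_num))
    (exp_neg_leJ (r := 0.806) 5 (by norm_num) (by norm_num) (by norm_num) (by norm_num))
    (exp_neg_leJ (r := 0.249) 12 (by norm_num) (by norm_num) (by norm_num) (by norm_num))
    (exp_neg_leJ (r := 0.232) 9 (by norm_num) (by norm_num) (by norm_num) (by norm_num))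
    (exp_neg_leJ (r := 0.99) 14 (by norm_num) (by norm_num) (by norm_num) (by norm_num))
    (by norm_num)) (by norm_num) hN hβ.le (by norm_num)

private theorem JB6_k1b_b6_5 {β x y : ℝ} (hβ : 0 < β) (hN : β * 9.911 ≤ 1) (hx1 : 0.5505 ≤ x) (hx2 : x ≤ 0.6105)
    (hy1 : -0 ≤ y) (hy2 : y ≤ 0.418) : ‖HH β (x + y * I) - 1‖ ≤ 0.06 := by
  refine le_epsJ (C := 0.5936) (N0 := 9.911) (J_boxp 0.5505 0.6105 0 0.418 0.418 1.0976 0.7399 1.5439 1.0806 0.4958 3.1482 9.911 0.6742 2.438 1.352 1.1853 0.5487 0.4254 1.1967 3.7161 0.5797 1.2195 0.8788 1.8321 0.004349 0.01476 0.000007082 0.0000003101 0.003203 0.000005638 0.0001653 0.0000003101 0.5936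
    hβ hN hx1 hx2 hy1 hy2 (by norm_num) (by norm_num) (by linarith) (by norm_num) (by norm_num) (by norm_num) (by norm_num) (by norm_num) (by norm_num) (by norm_num) (by norm_num) (by norm_num) (by norm_num) (by norm_num) (by norm_num) (by norm_num) (by norm_num) (by norm_num) (by norm_num) (by norm_num) (by norm_num) (by norm_num) (by norm_num) (by norm_num)
    (cube_sqrt_geJ (s := 0.8804) (by norm_num) (by norm_num) (by norm_num) (by norm_num))
    (cube_sqrt_geJ (s := 0.9578) (by norm_num) (by norm_num) (by norm_num) (by norm_num))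
    (by norm_num) (by norm_num) (by norm_num) (by norm_num) (by norm_num) (by norm_num) (by norm_num) (by norm_num) (by norm_num) (by norm_num) (by norm_num) (by norm_num) (by norm_num) (by norm_num) (by norm_num) (by norm_num) (by norm_num) (by norm_num)
    (exp_neg_leJ (r := 0.438) 5 (by norm_num) (by norm_num) (by norm_num) (by norm_num))
    (exp_neg_leJ (r := 0.216) 4 (by norm_num) (by norm_num) (by norm_num) (by norm_num))
    (exp_neg_leJ (r := 0.86) 11 (by norm_num) (by norm_num) (by norm_num) (by norm_num))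
    (exp_neg_leJ (r := 0.99) 14 (by norm_num) (by norm_num) (by norm_num) (by norm_num))
    (exp_neg_leJ (r := 0.745) 5 (by norm_num) (by norm_num) (by norm_num) (by norm_num))
    (exp_neg_leJ (r := 0.086) 12 (by norm_num) (by norm_num) (by norm_num) (by norm_num))
    (exp_neg_leJ (r := 0.709) 8 (by norm_num) (by norm_num) (by norm_num) (by norm_num))
    (exp_neg_leJ (r := 0.99) 14 (by norm_num) (by norm_num) (by norm_num) (by norm_num))
    (by norm_num)) (by norm_num) hN hβ.le (by norm_num)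

theorem JB6_k1b_c6 {κ t β : ℝ} (h : DomR κ t) (hβ : 0 < β) (hk1 : 1.05 ≤ κ) (hk2 : κ ≤ 1.11)
    (ht1 : 0.6 ≤ t + κ) (ht2 : t + κ ≤ 1.11) (hR0 : β * 10 ≤ κ) (hR : β * (4.95 * (1 + κ ^ 2)) ≤ κ) :
    ‖HH β (sg κ t) - 1‖ ≤ 0.06 := by
  have hN : β * 9.911 ≤ 1 := bNC' hβ hk1 (by norm_num) (by norm_num) hR (by norm_num)
  have hy1 : 0.256 ≤ sy κ t := syR_ge h 1.05 1.11 0.6 0.256 1.29175 1.29176 0.29791 0.31495 hk1 hk2 (by linarith) (by norm_num) (by norm_num)
    (expn_ge (by norm_num) (by norm_num)) (expn_le (by norm_num) (by norm_num) (by norm_num)) (by norm_num)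
    (by norm_num) (by norm_num) (by norm_num) (by norm_num) (by norm_num) (by norm_num)
  have hy2 : sy κ t ≤ 0.418 := syR_le h 1.05 1.11 1.11 0.418 1.51892 0.5638 0.57198 0.60468 hk1 hk2 (by linarith) (by norm_num) (by norm_num)
    (expn_ge (by norm_num) (by norm_num)) (by norm_num) (by norm_num) (Or.inr ((mul_le_mul_of_nonneg_left (expn_le (E := 1.51893) (by norm_num) (by norm_num) (by norm_num)) (by norm_num)).trans (by norm_num))) (by norm_num) (by norm_num) (by norm_num)
  rcases le_total (sy κ t) 0.331 with f0 | g0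
  · have hx1 : 0.6775 ≤ sx κ t := sx_lo h 1.05 0.331 0.331 0.7182 0.6775 hk1 (by norm_num) f0 (abs_le.2 ⟨by linarith, by linarith⟩) (expm_ge (by norm_num) (by norm_num) (by norm_num) (by norm_num)) (by norm_num) (by norm_num)
    have hx2 : sx κ t ≤ 0.8203 := sx_hi h 1.11 0.256 0.256 0.77415 0.8203 hk2 hy1 (by norm_num) (by rw [abs_of_nonneg (by linarith)]; linarith) (expm_le (by norm_num) (by norm_num) (by norm_num)) (by norm_num) (by norm_num)
    exact JB6_k1b_b6_0 hβ hN hx1 hx2 (by linarith) (by linarith)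
  rcases le_total (sy κ t) 0.371 with f1 | g1
  · have hx1 : 0.6223 ≤ sx κ t := sx_lo h 1.05 0.371 0.371 0.69004 0.6223 hk1 (by norm_num) f1 (abs_le.2 ⟨by linarith, by linarith⟩) (expm_ge (by norm_num) (by norm_num) (by norm_num) (by norm_num)) (by norm_num) (by norm_num)
    have hx2 : sx κ t ≤ 0.7253 := sx_hi h 1.11 0.331 0.331 0.71821 0.7253 hk2 g0 (by norm_num) (by rw [abs_of_nonneg (by linarith)]; linarith) (expm_le (by norm_num) (by norm_num) (by norm_num)) (by norm_num) (by norm_num)
    exact JB6_k1b_b6_1 hβ hN hx1 hx2 (by linarith) (by linarith)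
  rcases le_total (sy κ t) 0.396 with f2 | g2
  · have hx1 : 0.5852 ≤ sx κ t := sx_lo h 1.05 0.396 0.396 0.673 0.5852 hk1 (by norm_num) f2 (abs_le.2 ⟨by linarith, by linarith⟩) (expm_ge (by norm_num) (by norm_num) (by norm_num) (by norm_num)) (by norm_num) (by norm_num)
    have hx2 : sx κ t ≤ 0.6702 := sx_hi h 1.11 0.371 0.371 0.69005 0.6702 hk2 g1 (by norm_num) (by rw [abs_of_nonneg (by linarith)]; linarith) (expm_le (by norm_num) (by norm_num) (by norm_num)) (by norm_num) (by norm_num)
    exact JB6_k1b_b6_2 hβ hN hx1 hx2 (by linarith) (by linarith)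
  rcases le_total (sy κ t) 0.406 with f3 | g3
  · have hx1 : 0.5697 ≤ sx κ t := sx_lo h 1.05 0.406 0.406 0.66631 0.5697 hk1 (by norm_num) f3 (abs_le.2 ⟨by linarith, by linarith⟩) (expm_ge (by norm_num) (by norm_num) (by norm_num) (by norm_num)) (by norm_num) (by norm_num)
    have hx2 : sx κ t ≤ 0.6335 := sx_hi h 1.11 0.396 0.396 0.67301 0.6335 hk2 g2 (by norm_num) (by rw [abs_of_nonneg (by linarith)]; linarith) (expm_le (by norm_num) (by norm_num) (by norm_num)) (by norm_num) (by norm_num)
    exact JB6_k1b_b6_3 hβ hN hx1 hx2 (by linarith) (by linarith)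
  rcases le_total (sy κ t) 0.411 with f4 | g4
  · have hx1 : 0.5618 ≤ sx κ t := sx_lo h 1.05 0.411 0.411 0.66298 0.5618 hk1 (by norm_num) f4 (abs_le.2 ⟨by linarith, by linarith⟩) (expm_ge (by norm_num) (by norm_num) (by norm_num) (by norm_num)) (by norm_num) (by norm_num)
    have hx2 : sx κ t ≤ 0.6183 := sx_hi h 1.11 0.406 0.406 0.66632 0.6183 hk2 g3 (by norm_num) (by rw [abs_of_nonneg (by linarith)]; linarith) (expm_le (by norm_num) (by norm_num) (by norm_num)) (by norm_num) (by norm_num)
    exact JB6_k1b_b6_4 hβ hN hx1 hx2 (by linarith) (by linarith)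
  have hx1 : 0.5505 ≤ sx κ t := sx_lo h 1.05 0.418 0.418 0.65836 0.5505 hk1 (by norm_num) hy2 (abs_le.2 ⟨by linarith, by linarith⟩) (expm_ge (by norm_num) (by norm_num) (by norm_num) (by norm_num)) (by norm_num) (by norm_num)
  have hx2 : sx κ t ≤ 0.6105 := sx_hi h 1.11 0.411 0.411 0.66299 0.6105 hk2 g4 (by norm_num) (by rw [abs_of_nonneg (by linarith)]; linarith) (expm_le (by norm_num) (by norm_num) (by norm_num)) (by norm_num) (by norm_num)
  exact JB6_k1b_b6_5 hβ hN hx1 hx2 (by linarith) (by linarith)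

private theorem JB6_k1b_b7_0 {β x y : ℝ} (hβ : 0 < β) (hN : β * 9.953 ≤ 1) (hx1 : 0.7225 ≤ x) (hx2 : x ≤ 0.8744)
    (hy1 : -0 ≤ y) (hy2 : y ≤ 0.333) : ‖HH β (x + y * I) - 1‖ ≤ 0.06 := by
  refine le_epsJ (C := 0.5914) (N0 := 9.953) (J_boxp 0.7225 0.8744 0 0.333 0.333 1.2188 0.9357 1.5942 0.9384 0.5038 3.1549 9.953 0.7678 2.815 1.413 1.0838 0.6093 0.4534 1.2556 3.5819 0.6719 1.4664 1.5874 2.0444 0.002326 0.01098 0.000003743 0.0000003101 0.001248 0.0000004589 0.0000003101 0.0000003101 0.5914
    hβ hN hx1 hx2 hy1 hy2 (by norm_num) (by norm_num) (by linarith) (by norm_num) (by norm_num) (by norm_num) (by norm_num) (by norm_num) (by norm_num) (by norm_num) (by norm_num) (by norm_num) (by norm_num) (by norm_num) (by norm_num) (by norm_num) (by norm_num) (by norm_num) (by norm_num) (by norm_num) (by norm_num) (by norm_num) (by norm_num) (by norm_num)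
    (cube_sqrt_geJ (s := 0.8625) (by norm_num) (by norm_num) (by norm_num) (by norm_num))
    (cube_sqrt_geJ (s := 0.9518) (by norm_num) (by norm_num) (by norm_num) (by norm_num))
    (by norm_num) (by norm_num) (by norm_num) (by norm_num) (by norm_num) (by norm_num) (by norm_num) (by norm_num) (by norm_num) (by norm_num) (by norm_num) (by norm_num) (by norm_num) (by norm_num) (by norm_num) (by norm_num) (by norm_num) (by norm_num)
    (exp_neg_leJ (r := 0.064) 6 (by norm_num) (by norm_num) (by norm_num) (by norm_num))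
    (exp_neg_leJ (r := 0.512) 4 (by norm_num) (by norm_num) (by norm_num) (by norm_num))
    (exp_neg_leJ (r := 0.496) 12 (by norm_num) (by norm_num) (by norm_num) (by norm_num))
    (exp_neg_leJ (r := 0.99) 14 (by norm_num) (by norm_num) (by norm_num) (by norm_num))
    (exp_neg_leJ (r := 0.687) 6 (by norm_num) (by norm_num) (by norm_num) (by norm_num))
    (exp_neg_leJ (r := 0.595) 14 (by norm_num) (by norm_num) (by norm_num) (by norm_num))
    (exp_neg_leJ (r := 0.99) 14 (by norm_num) (by norm_num) (by norm_num) (by norm_num))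
    (exp_neg_leJ (r := 0.99) 14 (by norm_num) (by norm_num) (by norm_num) (by norm_num))
    (by norm_num)) (by norm_num) hN hβ.le (by norm_num)

private theorem JB6_k1b_b7_1 {β x y : ℝ} (hβ : 0 < β) (hN : β * 9.953 ≤ 1) (hx1 : 0.66 ≤ x) (hx2 : x ≤ 0.7775)
    (hy1 : -0 ≤ y) (hy2 : y ≤ 0.378) : ‖HH β (x + y * I) - 1‖ ≤ 0.06 := by
  refine le_epsJ (C := 0.5911) (N0 := 9.953) (J_boxp 0.66 0.7775 0 0.378 0.378 1.1747 0.8646 1.5823 0.988 0.5019 3.1549 9.953 0.7361 2.679 1.392 1.121 0.5873 0.4432 1.2342 3.631 0.637 1.3752 1.2694 1.9006 0.0029 0.01215 0.00000463 0.0000003101 0.001765 0.000001138 0.000003261 0.0000003101 0.5911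
    hβ hN hx1 hx2 hy1 hy2 (by norm_num) (by norm_num) (by linarith) (by norm_num) (by norm_num) (by norm_num) (by norm_num) (by norm_num) (by norm_num) (by norm_num) (by norm_num) (by norm_num) (by norm_num) (by norm_num) (by norm_num) (by norm_num) (by norm_num) (by norm_num) (by norm_num) (by norm_num) (by norm_num) (by norm_num) (by norm_num) (by norm_num)
    (cube_sqrt_geJ (s := 0.8686) (by norm_num) (by norm_num) (by norm_num) (by norm_num))
    (cube_sqrt_geJ (s := 0.9538) (by norm_num) (by norm_num) (by norm_num) (by norm_num))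
    (by norm_num) (by norm_num) (by norm_num) (by norm_num) (by norm_num) (by norm_num) (by norm_num) (by norm_num) (by norm_num) (by norm_num) (by norm_num) (by norm_num) (by norm_num) (by norm_num) (by norm_num) (by norm_num) (by norm_num) (by norm_num)
    (exp_neg_leJ (r := 0.845) 5 (by norm_num) (by norm_num) (by norm_num) (by norm_num))
    (exp_neg_leJ (r := 0.411) 4 (by norm_num) (by norm_num) (by norm_num) (by norm_num))
    (exp_neg_leJ (r := 0.283) 12 (by norm_num) (by norm_num) (by norm_num) (by norm_num))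
    (exp_neg_leJ (r := 0.99) 14 (by norm_num) (by norm_num) (by norm_num) (by norm_num))
    (exp_neg_leJ (r := 0.34) 6 (by norm_num) (by norm_num) (by norm_num) (by norm_num))
    (exp_neg_leJ (r := 0.687) 13 (by norm_num) (by norm_num) (by norm_num) (by norm_num))
    (exp_neg_leJ (r := 0.634) 12 (by norm_num) (by norm_num) (by norm_num) (by norm_num))
    (exp_neg_leJ (r := 0.99) 14 (by norm_num) (by norm_num) (by norm_num) (by norm_num))
    (by norm_num)) (by norm_num) hN hβ.le (by norm_num)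

private theorem JB6_k1b_b7_2 {β x y : ℝ} (hβ : 0 < β) (hN : β * 9.953 ≤ 1) (hx1 : 0.6228 ≤ x) (hx2 : x ≤ 0.7148)
    (hy1 : -0 ≤ y) (hy2 : y ≤ 0.403) : ‖HH β (x + y * I) - 1‖ ≤ 0.06 := by
  refine le_epsJ (C := 0.5892) (N0 := 9.953) (J_boxp 0.6228 0.7148 0 0.403 0.403 1.1485 0.8206 1.5746 1.0196 0.5007 3.1549 9.953 0.7145 2.592 1.378 1.1451 0.5742 0.4374 1.2214 3.6622 0.6164 1.3212 1.0878 1.828 0.0033 0.01287 0.000005257 0.0000003101 0.002166 0.000001948 0.00001991 0.0000003101 0.5892
    hβ hN hx1 hx2 hy1 hy2 (by norm_num) (by norm_num) (by linarith) (by norm_num) (by norm_num) (by norm_num) (by norm_num) (by norm_num) (by norm_num) (by norm_num) (by norm_num) (by norm_num) (by norm_num) (by norm_num) (by norm_num) (by norm_num) (by norm_num) (by norm_num) (by norm_num) (by norm_num) (by norm_num) (by norm_num) (by norm_num) (by norm_num)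
    (cube_sqrt_geJ (s := 0.8728) (by norm_num) (by norm_num) (by norm_num) (by norm_num))
    (cube_sqrt_geJ (s := 0.9552) (by norm_num) (by norm_num) (by norm_num) (by norm_num))
    (by norm_num) (by norm_num) (by norm_num) (by norm_num) (by norm_num) (by norm_num) (by norm_num) (by norm_num) (by norm_num) (by norm_num) (by norm_num) (by norm_num) (by norm_num) (by norm_num) (by norm_num) (by norm_num) (by norm_num) (by norm_num)
    (exp_neg_leJ (r := 0.715) 5 (by norm_num) (by norm_num) (by norm_num) (by norm_num))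
    (exp_neg_leJ (r := 0.353) 4 (by norm_num) (by norm_num) (by norm_num) (by norm_num))
    (exp_neg_leJ (r := 0.156) 12 (by norm_num) (by norm_num) (by norm_num) (by norm_num))
    (exp_neg_leJ (r := 0.99) 14 (by norm_num) (by norm_num) (by norm_num) (by norm_num))
    (exp_neg_leJ (r := 0.135) 6 (by norm_num) (by norm_num) (by norm_num) (by norm_num))
    (exp_neg_leJ (r := 0.149) 13 (by norm_num) (by norm_num) (by norm_num) (by norm_num))
    (exp_neg_leJ (r := 0.826) 10 (by norm_num) (by norm_num) (by norm_num) (by norm_num))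
    (exp_neg_leJ (r := 0.99) 14 (by norm_num) (by norm_num) (by norm_num) (by norm_num))
    (by norm_num)) (by norm_num) hN hβ.le (by norm_num)

private theorem JB6_k1b_b7_3 {β x y : ℝ} (hβ : 0 < β) (hN : β * 9.953 ≤ 1) (hx1 : 0.5994 ≤ x) (hx2 : x ≤ 0.6779)
    (hy1 : -0 ≤ y) (hy2 : y ≤ 0.418) : ‖HH β (x + y * I) - 1‖ ≤ 0.06 := by
  refine le_epsJ (C := 0.5938) (N0 := 9.953) (J_boxp 0.5994 0.6779 0 0.418 0.418 1.1321 0.7965 1.5718 1.0409 0.5002 3.1549 9.953 0.7036 2.549 1.371 1.1593 0.566 0.4332 1.2134 3.6801 0.6035 1.2873 0.9766 1.7761 0.00358 0.01343 0.000005695 0.0000003101 0.002464 0.000002732 0.00006013 0.0000003101 0.5938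
    hβ hN hx1 hx2 hy1 hy2 (by norm_num) (by norm_num) (by linarith) (by norm_num) (by norm_num) (by norm_num) (by norm_num) (by norm_num) (by norm_num) (by norm_num) (by norm_num) (by norm_num) (by norm_num) (by norm_num) (by norm_num) (by norm_num) (by norm_num) (by norm_num) (by norm_num) (by norm_num) (by norm_num) (by norm_num) (by norm_num) (by norm_num)
    (cube_sqrt_geJ (s := 0.8749) (by norm_num) (by norm_num) (by norm_num) (by norm_num))
    (cube_sqrt_geJ (s := 0.9559) (by norm_num) (by norm_num) (by norm_num) (by norm_num))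
    (by norm_num) (by norm_num) (by norm_num) (by norm_num) (by norm_num) (by norm_num) (by norm_num) (by norm_num) (by norm_num) (by norm_num) (by norm_num) (by norm_num) (by norm_num) (by norm_num) (by norm_num) (by norm_num) (by norm_num) (by norm_num)
    (exp_neg_leJ (r := 0.633) 5 (by norm_num) (by norm_num) (by norm_num) (by norm_num))
    (exp_neg_leJ (r := 0.311) 4 (by norm_num) (by norm_num) (by norm_num) (by norm_num))
    (exp_neg_leJ (r := 0.076) 12 (by norm_num) (by norm_num) (by norm_num) (by norm_num))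
    (exp_neg_leJ (r := 0.99) 14 (by norm_num) (by norm_num) (by norm_num) (by norm_num))
    (exp_neg_leJ (r := 0.006) 6 (by norm_num) (by norm_num) (by norm_num) (by norm_num))
    (exp_neg_leJ (r := 0.812) 12 (by norm_num) (by norm_num) (by norm_num) (by norm_num))
    (exp_neg_leJ (r := 0.72) 9 (by norm_num) (by norm_num) (by norm_num) (by norm_num))
    (exp_neg_leJ (r := 0.99) 14 (by norm_num) (by norm_num) (by norm_num) (by norm_num))
    (by norm_num)) (by norm_num) hN hβ.le (by norm_num)

private theorem JB6_k1b_b7_4 {β x y : ℝ} (hβ : 0 < β) (hN : β * 9.953 ≤ 1) (hx1 : 0.5881 ≤ x) (hx2 : x ≤ 0.6549)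
    (hy1 : -0 ≤ y) (hy2 : y ≤ 0.425) : ‖HH β (x + y * I) - 1‖ ≤ 0.06 := by
  refine le_epsJ (C := 0.5905) (N0 := 9.953) (J_boxp 0.5881 0.6549 0 0.425 0.425 1.1241 0.7808 1.5683 1.0508 0.4997 3.1549 9.953 0.6947 2.515 1.366 1.1682 0.562 0.4318 1.2095 3.6914 0.5973 1.2709 0.924 1.7632 0.003726 0.01361 0.000005916 0.0000003101 0.00263 0.000003213 0.0001015 0.0000003101 0.5905
    hβ hN hx1 hx2 hy1 hy2 (by norm_num) (by norm_num) (by linarith) (by norm_num) (by norm_num) (by norm_num) (by norm_num) (by norm_num) (by norm_num) (by norm_num) (by norm_num) (by norm_num) (by norm_num) (by norm_num) (by norm_num) (by norm_num) (by norm_num) (by norm_num) (by norm_num) (by norm_num) (by norm_num) (by norm_num) (by norm_num) (by norm_num)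
    (cube_sqrt_geJ (s := 0.8766) (by norm_num) (by norm_num) (by norm_num) (by norm_num))
    (cube_sqrt_geJ (s := 0.9565) (by norm_num) (by norm_num) (by norm_num) (by norm_num))
    (by norm_num) (by norm_num) (by norm_num) (by norm_num) (by norm_num) (by norm_num) (by norm_num) (by norm_num) (by norm_num) (by norm_num) (by norm_num) (by norm_num) (by norm_num) (by norm_num) (by norm_num) (by norm_num) (by norm_num) (by norm_num)
    (exp_neg_leJ (r := 0.593) 5 (by norm_num) (by norm_num) (by norm_num) (by norm_num))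
    (exp_neg_leJ (r := 0.297) 4 (by norm_num) (by norm_num) (by norm_num) (by norm_num))
    (exp_neg_leJ (r := 0.038) 12 (by norm_num) (by norm_num) (by norm_num) (by norm_num))
    (exp_neg_leJ (r := 0.99) 14 (by norm_num) (by norm_num) (by norm_num) (by norm_num))
    (exp_neg_leJ (r := 0.944) 5 (by norm_num) (by norm_num) (by norm_num) (by norm_num))
    (exp_neg_leJ (r := 0.649) 12 (by norm_num) (by norm_num) (by norm_num) (by norm_num))
    (exp_neg_leJ (r := 0.196) 9 (by norm_num) (by norm_num) (by norm_num) (by norm_num))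
    (exp_neg_leJ (r := 0.99) 14 (by norm_num) (by norm_num) (by norm_num) (by norm_num))
    (by norm_num)) (by norm_num) hN hβ.le (by norm_num)

theorem JB6_k1b_c7 {κ t β : ℝ} (h : DomR κ t) (hβ : 0 < β) (hk1 : 1.11 ≤ κ) (hk2 : κ ≤ 1.18)
    (ht1 : 0.6 ≤ t + κ) (ht2 : t + κ ≤ 1.11) (hR0 : β * 10 ≤ κ) (hR : β * (4.95 * (1 + κ ^ 2)) ≤ κ) :
    ‖HH β (sg κ t) - 1‖ ≤ 0.06 := by
  have hN : β * 9.953 ≤ 1 := bNC' hβ hk1 (by norm_num) (by norm_num) hR (by norm_num)
  have hy1 : 0.258 ≤ sy κ t := syR_ge h 1.11 1.18 0.6 0.258 1.29433 1.29434 0.28299 0.30085 hk1 hk2 (by linarith) (by norm_num) (by norm_num)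
    (expn_ge (by norm_num) (by norm_num)) (expn_le (by norm_num) (by norm_num) (by norm_num)) (by norm_num)
    (by norm_num) (by norm_num) (by norm_num) (by norm_num) (by norm_num) (by norm_num)
  have hy2 : sy κ t ≤ 0.425 := syR_le h 1.11 1.18 1.11 0.425 1.52958 0.5422 0.5509 0.58566 hk1 hk2 (by linarith) (by norm_num) (by norm_num)
    (expn_ge (by norm_num) (by norm_num)) (by norm_num) (by norm_num) (Or.inr ((mul_le_mul_of_nonneg_left (expn_le (E := 1.5296) (by norm_num) (by norm_num) (by norm_num)) (by norm_num)).trans (by norm_num))) (by norm_num) (by norm_num) (by norm_num)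
  rcases le_total (sy κ t) 0.333 with f0 | g0
  · have hx1 : 0.7225 ≤ sx κ t := sx_lo h 1.11 0.333 0.333 0.71677 0.7225 hk1 (by norm_num) f0 (abs_le.2 ⟨by linarith, by linarith⟩) (expm_ge (by norm_num) (by norm_num) (by norm_num) (by norm_num)) (by norm_num) (by norm_num)
    have hx2 : sx κ t ≤ 0.8744 := sx_hi h 1.18 0.258 0.258 0.7726 0.8744 hk2 hy1 (by norm_num) (by rw [abs_of_nonneg (by linarith)]; linarith) (expm_le (by norm_num) (by norm_num) (by norm_num)) (by norm_num) (by norm_num)
    exact JB6_k1b_b7_0 hβ hN hx1 hx2 (by linarith) (by linarith)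
  rcases le_total (sy κ t) 0.378 with f1 | g1
  · have hx1 : 0.66 ≤ sx κ t := sx_lo h 1.11 0.378 0.378 0.68523 0.66 hk1 (by norm_num) f1 (abs_le.2 ⟨by linarith, by linarith⟩) (expm_ge (by norm_num) (by norm_num) (by norm_num) (by norm_num)) (by norm_num) (by norm_num)
    have hx2 : sx κ t ≤ 0.7775 := sx_hi h 1.18 0.333 0.333 0.71678 0.7775 hk2 g0 (by norm_num) (by rw [abs_of_nonneg (by linarith)]; linarith) (expm_le (by norm_num) (by norm_num) (by norm_num)) (by norm_num) (by norm_num)
    exact JB6_k1b_b7_1 hβ hN hx1 hx2 (by linarith) (by linarith)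
  rcases le_total (sy κ t) 0.403 with f2 | g2
  · have hx1 : 0.6228 ≤ sx κ t := sx_lo h 1.11 0.403 0.403 0.66831 0.6228 hk1 (by norm_num) f2 (abs_le.2 ⟨by linarith, by linarith⟩) (expm_ge (by norm_num) (by norm_num) (by norm_num) (by norm_num)) (by norm_num) (by norm_num)
    have hx2 : sx κ t ≤ 0.7148 := sx_hi h 1.18 0.378 0.378 0.68524 0.7148 hk2 g1 (by norm_num) (by rw [abs_of_nonneg (by linarith)]; linarith) (expm_le (by norm_num) (by norm_num) (by norm_num)) (by norm_num) (by norm_num)
    exact JB6_k1b_b7_2 hβ hN hx1 hx2 (by linarith) (by linarith)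
  rcases le_total (sy κ t) 0.418 with f3 | g3
  · have hx1 : 0.5994 ≤ sx κ t := sx_lo h 1.11 0.418 0.418 0.65836 0.5994 hk1 (by norm_num) f3 (abs_le.2 ⟨by linarith, by linarith⟩) (expm_ge (by norm_num) (by norm_num) (by norm_num) (by norm_num)) (by norm_num) (by norm_num)
    have hx2 : sx κ t ≤ 0.6779 := sx_hi h 1.18 0.403 0.403 0.66832 0.6779 hk2 g2 (by norm_num) (by rw [abs_of_nonneg (by linarith)]; linarith) (expm_le (by norm_num) (by norm_num) (by norm_num)) (by norm_num) (by norm_num)
    exact JB6_k1b_b7_3 hβ hN hx1 hx2 (by linarith) (by linarith)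
  have hx1 : 0.5881 ≤ sx κ t := sx_lo h 1.11 0.425 0.425 0.65376 0.5881 hk1 (by norm_num) hy2 (abs_le.2 ⟨by linarith, by linarith⟩) (expm_ge (by norm_num) (by norm_num) (by norm_num) (by norm_num)) (by norm_num) (by norm_num)
  have hx2 : sx κ t ≤ 0.6549 := sx_hi h 1.18 0.418 0.418 0.65837 0.6549 hk2 g3 (by norm_num) (by rw [abs_of_nonneg (by linarith)]; linarith) (expm_le (by norm_num) (by norm_num) (by norm_num)) (by norm_num) (by norm_num)
  exact JB6_k1b_b7_4 hβ hN hx1 hx2 (by linarith) (by linarith)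

private theorem JB6_k1b_b8_0 {β x y : ℝ} (hβ : 0 < β) (hN : β * 10.035 ≤ 1) (hx1 : 0.7815 ≤ x) (hx2 : x ≤ 0.9441)
    (hy1 : -0 ≤ y) (hy2 : y ≤ 0.33) : ‖HH β (x + y * I) - 1‖ ≤ 0.06 := by
  refine le_epsJ (C := 0.5912) (N0 := 10.035) (J_boxp 0.7815 0.9441 0 0.33 0.33 1.2603 1.0002 1.6311 0.9027 0.5096 3.1679 10.035 0.7937 2.932 1.431 1.057 0.6301 0.4634 1.2757 3.543 0.7009 1.5484 1.7183 2.0012 0.001795 0.009568 0.000002762 0.0000003101 0.0008823 0.0000003101 0.0000003101 0.0000003101 0.5912
    hβ hN hx1 hx2 hy1 hy2 (by norm_num) (by norm_num) (by linarith) (by norm_num) (by norm_num) (by norm_num) (by norm_num) (by norm_num) (by norm_num) (by norm_num) (by norm_num) (by norm_num) (by norm_num) (by norm_num) (by norm_num) (by norm_num) (by norm_num) (by norm_num) (by norm_num) (by norm_num) (by norm_num) (by norm_num) (by norm_num) (by norm_num)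
    (cube_sqrt_geJ (s := 0.8575) (by norm_num) (by norm_num) (by norm_num) (by norm_num))
    (cube_sqrt_geJ (s := 0.9501) (by norm_num) (by norm_num) (by norm_num) (by norm_num))
    (by norm_num) (by norm_num) (by norm_num) (by norm_num) (by norm_num) (by norm_num) (by norm_num) (by norm_num) (by norm_num) (by norm_num) (by norm_num) (by norm_num) (by norm_num) (by norm_num) (by norm_num) (by norm_num) (by norm_num) (by norm_num)
    (exp_neg_leJ (r := 0.323) 6 (by norm_num) (by norm_num) (by norm_num) (by norm_num))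
    (exp_neg_leJ (r := 0.65) 4 (by norm_num) (by norm_num) (by norm_num) (by norm_num))
    (exp_neg_leJ (r := 0.801) 12 (by norm_num) (by norm_num) (by norm_num) (by norm_num))
    (exp_neg_leJ (r := 0.99) 14 (by norm_num) (by norm_num) (by norm_num) (by norm_num))
    (exp_neg_leJ (r := 0.033) 7 (by norm_num) (by norm_num) (by norm_num) (by norm_num))
    (exp_neg_leJ (r := 0.99) 14 (by norm_num) (by norm_num) (by norm_num) (by norm_num))
    (exp_neg_leJ (r := 0.99) 14 (by norm_num) (by norm_num) (by norm_num) (by norm_num))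
    (exp_neg_leJ (r := 0.99) 14 (by norm_num) (by norm_num) (by norm_num) (by norm_num))
    (by norm_num)) (by norm_num) hN hβ.le (by norm_num)

private theorem JB6_k1b_b8_1 {β x y : ℝ} (hβ : 0 < β) (hN : β * 10.035 ≤ 1) (hx1 : 0.719 ≤ x) (hx2 : x ≤ 0.8514)
    (hy1 : -0 ≤ y) (hy2 : y ≤ 0.375) : ‖HH β (x + y * I) - 1‖ ≤ 0.06 := by
  refine le_epsJ (C := 0.5908) (N0 := 10.035) (J_boxp 0.719 0.8514 0 0.375 0.375 1.2163 0.9304 1.6173 0.9481 0.5074 3.1679 10.035 0.765 2.803 1.411 1.0926 0.6081 0.453 1.2544 3.5904 0.666 1.4572 1.4003 1.8539 0.002239 0.01063 0.000003418 0.0000003101 0.001253 0.0000004462 0.0000007895 0.0000003101 0.5908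
    hβ hN hx1 hx2 hy1 hy2 (by norm_num) (by norm_num) (by linarith) (by norm_num) (by norm_num) (by norm_num) (by norm_num) (by norm_num) (by norm_num) (by norm_num) (by norm_num) (by norm_num) (by norm_num) (by norm_num) (by norm_num) (by norm_num) (by norm_num) (by norm_num) (by norm_num) (by norm_num) (by norm_num) (by norm_num) (by norm_num) (by norm_num)
    (cube_sqrt_geJ (s := 0.8631) (by norm_num) (by norm_num) (by norm_num) (by norm_num))
    (cube_sqrt_geJ (s := 0.952) (by norm_num) (by norm_num) (by norm_num) (by norm_num))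
    (by norm_num) (by norm_num) (by norm_num) (by norm_num) (by norm_num) (by norm_num) (by norm_num) (by norm_num) (by norm_num) (by norm_num) (by norm_num) (by norm_num) (by norm_num) (by norm_num) (by norm_num) (by norm_num) (by norm_num) (by norm_num)
    (exp_neg_leJ (r := 0.102) 6 (by norm_num) (by norm_num) (by norm_num) (by norm_num))
    (exp_neg_leJ (r := 0.545) 4 (by norm_num) (by norm_num) (by norm_num) (by norm_num))
    (exp_neg_leJ (r := 0.587) 12 (by norm_num) (by norm_num) (by norm_num) (by norm_num))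
    (exp_neg_leJ (r := 0.99) 14 (by norm_num) (by norm_num) (by norm_num) (by norm_num))
    (exp_neg_leJ (r := 0.683) 6 (by norm_num) (by norm_num) (by norm_num) (by norm_num))
    (exp_neg_leJ (r := 0.623) 14 (by norm_num) (by norm_num) (by norm_num) (by norm_num))
    (exp_neg_leJ (r := 0.052) 14 (by norm_num) (by norm_num) (by norm_num) (by norm_num))
    (exp_neg_leJ (r := 0.99) 14 (by norm_num) (by norm_num) (by norm_num) (by norm_num))
    (by norm_num)) (by norm_num) hN hβ.le (by norm_num)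

private theorem JB6_k1b_b8_2 {β x y : ℝ} (hβ : 0 < β) (hN : β * 10.035 ≤ 1) (hx1 : 0.6748 ≤ x) (hx2 : x ≤ 0.7882)
    (hy1 : -0 ≤ y) (hy2 : y ≤ 0.405) : ‖HH β (x + y * I) - 1‖ ≤ 0.06 := by
  refine le_epsJ (C := 0.5987) (N0 := 10.035) (J_boxp 0.6748 0.7882 0 0.405 0.405 1.1852 0.8862 1.611 0.9837 0.5064 3.1679 10.035 0.7478 2.728 1.4 1.1169 0.5925 0.4448 1.2392 3.6219 0.6414 1.393 1.1832 1.7443 0.002627 0.01153 0.000003978 0.0000003101 0.001603 0.0000008529 0.000006991 0.0000003101 0.5987
    hβ hN hx1 hx2 hy1 hy2 (by norm_num) (by norm_num) (by linarith) (by norm_num) (by norm_num) (by norm_num) (by norm_num) (by norm_num) (by norm_num) (by norm_num) (by norm_num) (by norm_num) (by norm_num) (by norm_num) (by norm_num) (by norm_num) (by norm_num) (by norm_num) (by norm_num) (by norm_num) (by norm_num) (by norm_num) (by norm_num) (by norm_num)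
    (cube_sqrt_geJ (s := 0.8664) (by norm_num) (by norm_num) (by norm_num) (by norm_num))
    (cube_sqrt_geJ (s := 0.9531) (by norm_num) (by norm_num) (by norm_num) (by norm_num))
    (by norm_num) (by norm_num) (by norm_num) (by norm_num) (by norm_num) (by norm_num) (by norm_num) (by norm_num) (by norm_num) (by norm_num) (by norm_num) (by norm_num) (by norm_num) (by norm_num) (by norm_num) (by norm_num) (by norm_num) (by norm_num)
    (exp_neg_leJ (r := 0.945) 5 (by norm_num) (by norm_num) (by norm_num) (by norm_num))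
    (exp_neg_leJ (r := 0.463) 4 (by norm_num) (by norm_num) (by norm_num) (by norm_num))
    (exp_neg_leJ (r := 0.435) 12 (by norm_num) (by norm_num) (by norm_num) (by norm_num))
    (exp_neg_leJ (r := 0.99) 14 (by norm_num) (by norm_num) (by norm_num) (by norm_num))
    (exp_neg_leJ (r := 0.436) 6 (by norm_num) (by norm_num) (by norm_num) (by norm_num))
    (exp_neg_leJ (r := 0.978) 13 (by norm_num) (by norm_num) (by norm_num) (by norm_num))
    (exp_neg_leJ (r := 0.873) 11 (by norm_num) (by norm_num) (by norm_num) (by norm_num))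
    (exp_neg_leJ (r := 0.99) 14 (by norm_num) (by norm_num) (by norm_num) (by norm_num))
    (by norm_num)) (by norm_num) hN hβ.le (by norm_num)

private theorem JB6_k1b_b8_3 {β x y : ℝ} (hβ : 0 < β) (hN : β * 10.035 ≤ 1) (hx1 : 0.6516 ≤ x) (hx2 : x ≤ 0.744)
    (hy1 : -0 ≤ y) (hy2 : y ≤ 0.42) : ‖HH β (x + y * I) - 1‖ ≤ 0.06 := by
  refine le_epsJ (C := 0.591) (N0 := 10.035) (J_boxp 0.6516 0.744 0 0.42 0.42 1.1688 0.8544 1.6032 1.0021 0.5052 3.1679 10.035 0.7311 2.659 1.389 1.1339 0.5843 0.4419 1.2313 3.6441 0.6286 1.3593 1.0725 1.7137 0.002849 0.01187 0.000004305 0.0000003101 0.001822 0.000001193 0.00002122 0.0000003101 0.591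
    hβ hN hx1 hx2 hy1 hy2 (by norm_num) (by norm_num) (by linarith) (by norm_num) (by norm_num) (by norm_num) (by norm_num) (by norm_num) (by norm_num) (by norm_num) (by norm_num) (by norm_num) (by norm_num) (by norm_num) (by norm_num) (by norm_num) (by norm_num) (by norm_num) (by norm_num) (by norm_num) (by norm_num) (by norm_num) (by norm_num) (by norm_num)
    (cube_sqrt_geJ (s := 0.8696) (by norm_num) (by norm_num) (by norm_num) (by norm_num))
    (cube_sqrt_geJ (s := 0.9541) (by norm_num) (by norm_num) (by norm_num) (by norm_num))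
    (by norm_num) (by norm_num) (by norm_num) (by norm_num) (by norm_num) (by norm_num) (by norm_num) (by norm_num) (by norm_num) (by norm_num) (by norm_num) (by norm_num) (by norm_num) (by norm_num) (by norm_num) (by norm_num) (by norm_num) (by norm_num)
    (exp_neg_leJ (r := 0.863) 5 (by norm_num) (by norm_num) (by norm_num) (by norm_num))
    (exp_neg_leJ (r := 0.434) 4 (by norm_num) (by norm_num) (by norm_num) (by norm_num))
    (exp_neg_leJ (r := 0.356) 12 (by norm_num) (by norm_num) (by norm_num) (by norm_num))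
    (exp_neg_leJ (r := 0.99) 14 (by norm_num) (by norm_num) (by norm_num) (by norm_num))
    (exp_neg_leJ (r := 0.308) 6 (by norm_num) (by norm_num) (by norm_num) (by norm_num))
    (exp_neg_leJ (r := 0.64) 13 (by norm_num) (by norm_num) (by norm_num) (by norm_num))
    (exp_neg_leJ (r := 0.762) 10 (by norm_num) (by norm_num) (by norm_num) (by norm_num))
    (exp_neg_leJ (r := 0.99) 14 (by norm_num) (by norm_num) (by norm_num) (by norm_num))
    (by norm_num)) (by norm_num) hN hβ.le (by norm_num)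

private theorem JB6_k1b_b8_4 {β x y : ℝ} (hβ : 0 < β) (hN : β * 10.035 ≤ 1) (hx1 : 0.6342 ≤ x) (hx2 : x ≤ 0.7211)
    (hy1 : -0 ≤ y) (hy2 : y ≤ 0.431) : ‖HH β (x + y * I) - 1‖ ≤ 0.06 := by
  refine le_epsJ (C := 0.5991) (N0 := 10.035) (J_boxp 0.6342 0.7211 0 0.431 0.431 1.1566 0.8401 1.6025 1.0178 0.5051 3.1679 10.035 0.7264 2.64 1.386 1.1427 0.5782 0.4382 1.2253 3.655 0.6191 1.3341 0.9905 1.6659 0.003026 0.01232 0.000004575 0.0000003101 0.002006 0.000001536 0.0000484 0.0000003101 0.5991
    hβ hN hx1 hx2 hy1 hy2 (by norm_num) (by norm_num) (by linarith) (by norm_num) (by norm_num) (by norm_num) (by norm_num) (by norm_num) (by norm_num) (by norm_num) (by norm_num) (by norm_num) (by norm_num) (by norm_num) (by norm_num) (by norm_num) (by norm_num) (by norm_num) (by norm_num) (by norm_num) (by norm_num) (by norm_num) (by norm_num) (by norm_num)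
    (cube_sqrt_geJ (s := 0.8705) (by norm_num) (by norm_num) (by norm_num) (by norm_num))
    (cube_sqrt_geJ (s := 0.9544) (by norm_num) (by norm_num) (by norm_num) (by norm_num))
    (by norm_num) (by norm_num) (by norm_num) (by norm_num) (by norm_num) (by norm_num) (by norm_num) (by norm_num) (by norm_num) (by norm_num) (by norm_num) (by norm_num) (by norm_num) (by norm_num) (by norm_num) (by norm_num) (by norm_num) (by norm_num)
    (exp_neg_leJ (r := 0.802) 5 (by norm_num) (by norm_num) (by norm_num) (by norm_num))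
    (exp_neg_leJ (r := 0.397) 4 (by norm_num) (by norm_num) (by norm_num) (by norm_num))
    (exp_neg_leJ (r := 0.295) 12 (by norm_num) (by norm_num) (by norm_num) (by norm_num))
    (exp_neg_leJ (r := 0.99) 14 (by norm_num) (by norm_num) (by norm_num) (by norm_num))
    (exp_neg_leJ (r := 0.212) 6 (by norm_num) (by norm_num) (by norm_num) (by norm_num))
    (exp_neg_leJ (r := 0.387) 13 (by norm_num) (by norm_num) (by norm_num) (by norm_num))
    (exp_neg_leJ (r := 0.939) 9 (by norm_num) (by norm_num) (by norm_num) (by norm_num))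
    (exp_neg_leJ (r := 0.99) 14 (by norm_num) (by norm_num) (by norm_num) (by norm_num))
    (by norm_num)) (by norm_num) hN hβ.le (by norm_num)

theorem JB6_k1b_c8 {κ t β : ℝ} (h : DomR κ t) (hβ : 0 < β) (hk1 : 1.18 ≤ κ) (hk2 : κ ≤ 1.27)
    (ht1 : 0.6 ≤ t + κ) (ht2 : t + κ ≤ 1.11) (hR0 : β * 10 ≤ κ) (hR : β * (4.95 * (1 + κ ^ 2)) ≤ κ) :
    ‖HH β (sg κ t) - 1‖ ≤ 0.06 := by
  have hN : β * 10.035 ≤ 1 := bNC' hβ hk1 (by norm_num) (by norm_num) hR (by norm_num)
  have hy1 : 0.26 ≤ sy κ t := syR_ge h 1.18 1.27 0.6 0.26 1.29693 1.29694 0.26551 0.28577 hk1 hk2 (by linarith) (by norm_num) (by norm_num)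
    (expn_ge (by norm_num) (by norm_num)) (expn_le (by norm_num) (by norm_num) (by norm_num)) (by norm_num)
    (by norm_num) (by norm_num) (by norm_num) (by norm_num) (by norm_num) (by norm_num)
  have hy2 : sy κ t ≤ 0.431 := syR_le h 1.18 1.27 1.11 0.431 1.53879 0.5122 0.52221 0.56206 hk1 hk2 (by linarith) (by norm_num) (by norm_num)
    (expn_ge (by norm_num) (by norm_num)) (by norm_num) (by norm_num) (Or.inr ((mul_le_mul_of_nonneg_left (expn_le (E := 1.5388) (by norm_num) (by norm_num) (by norm_num)) (by norm_num)).trans (by norm_num))) (by norm_num) (by norm_num) (by norm_num)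
  rcases le_total (sy κ t) 0.33 with f0 | g0
  · have hx1 : 0.7815 ≤ sx κ t := sx_lo h 1.18 0.33 0.33 0.71892 0.7815 hk1 (by norm_num) f0 (abs_le.2 ⟨by linarith, by linarith⟩) (expm_ge (by norm_num) (by norm_num) (by norm_num) (by norm_num)) (by norm_num) (by norm_num)
    have hx2 : sx κ t ≤ 0.9441 := sx_hi h 1.27 0.26 0.26 0.77106 0.9441 hk2 hy1 (by norm_num) (by rw [abs_of_nonneg (by linarith)]; linarith) (expm_le (by norm_num) (by norm_num) (by norm_num)) (by norm_num) (by norm_num)
    exact JB6_k1b_b8_0 hβ hN hx1 hx2 (by linarith) (by linarith)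
  rcases le_total (sy κ t) 0.375 with f1 | g1
  · have hx1 : 0.719 ≤ sx κ t := sx_lo h 1.18 0.375 0.375 0.68728 0.719 hk1 (by norm_num) f1 (abs_le.2 ⟨by linarith, by linarith⟩) (expm_ge (by norm_num) (by norm_num) (by norm_num) (by norm_num)) (by norm_num) (by norm_num)
    have hx2 : sx κ t ≤ 0.8514 := sx_hi h 1.27 0.33 0.33 0.71893 0.8514 hk2 g0 (by norm_num) (by rw [abs_of_nonneg (by linarith)]; linarith) (expm_le (by norm_num) (by norm_num) (by norm_num)) (by norm_num) (by norm_num)
    exact JB6_k1b_b8_1 hβ hN hx1 hx2 (by linarith) (by linarith)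
  rcases le_total (sy κ t) 0.405 with f2 | g2
  · have hx1 : 0.6748 ≤ sx κ t := sx_lo h 1.18 0.405 0.405 0.66697 0.6748 hk1 (by norm_num) f2 (abs_le.2 ⟨by linarith, by linarith⟩) (expm_ge (by norm_num) (by norm_num) (by norm_num) (by norm_num)) (by norm_num) (by norm_num)
    have hx2 : sx κ t ≤ 0.7882 := sx_hi h 1.27 0.375 0.375 0.68729 0.7882 hk2 g1 (by norm_num) (by rw [abs_of_nonneg (by linarith)]; linarith) (expm_le (by norm_num) (by norm_num) (by norm_num)) (by norm_num) (by norm_num)
    exact JB6_k1b_b8_2 hβ hN hx1 hx2 (by linarith) (by linarith)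
  rcases le_total (sy κ t) 0.42 with f3 | g3
  · have hx1 : 0.6516 ≤ sx κ t := sx_lo h 1.18 0.42 0.42 0.65704 0.6516 hk1 (by norm_num) f3 (abs_le.2 ⟨by linarith, by linarith⟩) (expm_ge (by norm_num) (by norm_num) (by norm_num) (by norm_num)) (by norm_num) (by norm_num)
    have hx2 : sx κ t ≤ 0.744 := sx_hi h 1.27 0.405 0.405 0.66698 0.744 hk2 g2 (by norm_num) (by rw [abs_of_nonneg (by linarith)]; linarith) (expm_le (by norm_num) (by norm_num) (by norm_num)) (by norm_num) (by norm_num)
    exact JB6_k1b_b8_3 hβ hN hx1 hx2 (by linarith) (by linarith)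
  have hx1 : 0.6342 ≤ sx κ t := sx_lo h 1.18 0.431 0.431 0.64985 0.6342 hk1 (by norm_num) hy2 (abs_le.2 ⟨by linarith, by linarith⟩) (expm_ge (by norm_num) (by norm_num) (by norm_num) (by norm_num)) (by norm_num) (by norm_num)
  have hx2 : sx κ t ≤ 0.7211 := sx_hi h 1.27 0.42 0.42 0.65705 0.7211 hk2 g3 (by norm_num) (by rw [abs_of_nonneg (by linarith)]; linarith) (expm_le (by norm_num) (by norm_num) (by norm_num)) (by norm_num) (by norm_num)
  exact JB6_k1b_b8_4 hβ hN hx1 hx2 (by linarith) (by linarith)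
end Sok
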