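import Pool.Agent.Lib.MP_816dec_an.JBG2

/-!
MP_816dec_an (A3, row R1): tables b = 6, real points.
-/

set_option autoImplicit false
set_option maxHeartbeats 4000000

open Complex Set

namespace Sok

private theorem JB6_k1b_b9_0 {β x y : ℝ} (hβ : 0 < β) (hN : β * 10.184 ≤ 1) (hx1 : 0.8567 ≤ x) (hx2 : x ≤ 1.0385)
    (hy1 : -0 ≤ y) (hy2 : y ≤ 0.326) : ‖HH β (x + y * I) - 1‖ ≤ 0.06 := by
  refine le_epsJ (C := 0.5997) (N0 := 10.184) (J_boxp 0.8567 1.0385 0 0.326 0.326 1.3132 1.0885 1.6843 0.8625 0.5178 3.1913 10.184 0.8289 3.102 1.455 1.0206 0.6565 0.4751 1.3015 3.4901 0.7378 1.6529 1.8858 1.9304 0.001251 0.007937 0.000001754 0.0000003101 0.0005461 0.0000003101 0.0000003101 0.0000003101 0.5997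
    hβ hN hx1 hx2 hy1 hy2 (by norm_num) (by norm_num) (by linarith) (by norm_num) (by norm_num) (by norm_num) (by norm_num) (by norm_num) (by norm_num) (by norm_num) (by norm_num) (by norm_num) (by norm_num) (by norm_num) (by norm_num) (by norm_num) (by norm_num) (by norm_num) (by norm_num) (by norm_num) (by norm_num) (by norm_num) (by norm_num) (by norm_num)
    (cube_sqrt_geJ (s := 0.8507) (by norm_num) (by norm_num) (by norm_num) (by norm_num))
    (cube_sqrt_geJ (s := 0.9478) (by norm_num) (by norm_num) (by norm_num) (by norm_num))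
    (by norm_num) (by norm_num) (by norm_num) (by norm_num) (by norm_num) (by norm_num) (by norm_num) (by norm_num) (by norm_num) (by norm_num) (by norm_num) (by norm_num) (by norm_num) (by norm_num) (by norm_num) (by norm_num) (by norm_num) (by norm_num)
    (exp_neg_leJ (r := 0.685) 6 (by norm_num) (by norm_num) (by norm_num) (by norm_num))
    (exp_neg_leJ (r := 0.838) 4 (by norm_num) (by norm_num) (by norm_num) (by norm_num))
    (exp_neg_leJ (r := 0.254) 13 (by norm_num) (by norm_num) (by norm_num) (by norm_num))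
    (exp_neg_leJ (r := 0.99) 14 (by norm_num) (by norm_num) (by norm_num) (by norm_num))
    (exp_neg_leJ (r := 0.513) 7 (by norm_num) (by norm_num) (by norm_num) (by norm_num))
    (exp_neg_leJ (r := 0.99) 14 (by norm_num) (by norm_num) (by norm_num) (by norm_num))
    (exp_neg_leJ (r := 0.99) 14 (by norm_num) (by norm_num) (by norm_num) (by norm_num))
    (exp_neg_leJ (r := 0.99) 14 (by norm_num) (by norm_num) (by norm_num) (by norm_num))
    (by norm_num)) (by norm_num) hN hβ.le (by norm_num)

private theorem JB6_k1b_b9_1 {β x y : ℝ} (hβ : 0 < β) (hN : β * 10.184 ≤ 1) (hx1 : 0.7939 ≤ x) (hx2 : x ≤ 0.9489)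
    (hy1 : -0 ≤ y) (hy2 : y ≤ 0.371) : ‖HH β (x + y * I) - 1‖ ≤ 0.06 := by
  refine le_epsJ (C := 0.5982) (N0 := 10.184) (J_boxp 0.7939 0.9489 0 0.371 0.371 1.269 1.0189 1.6674 0.9033 0.5152 3.1913 10.184 0.803 2.976 1.437 1.0551 0.6344 0.4646 1.28 3.5365 0.7027 1.5614 1.5672 1.782 0.001565 0.008827 0.000002183 0.0000003101 0.0007802 0.0000003101 0.0000003101 0.0000003101 0.5982
    hβ hN hx1 hx2 hy1 hy2 (by norm_num) (by norm_num) (by linarith) (by norm_num) (by norm_num) (by norm_num) (by norm_num) (by norm_num) (by norm_num) (by norm_num) (by norm_num) (by norm_num) (by norm_num) (by norm_num) (by norm_num) (by norm_num) (by norm_num) (by norm_num) (by norm_num) (by norm_num) (by norm_num) (by norm_num) (by norm_num) (by norm_num)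
    (cube_sqrt_geJ (s := 0.8557) (by norm_num) (by norm_num) (by norm_num) (by norm_num))
    (cube_sqrt_geJ (s := 0.9495) (by norm_num) (by norm_num) (by norm_num) (by norm_num))
    (by norm_num) (by norm_num) (by norm_num) (by norm_num) (by norm_num) (by norm_num) (by norm_num) (by norm_num) (by norm_num) (by norm_num) (by norm_num) (by norm_num) (by norm_num) (by norm_num) (by norm_num) (by norm_num) (by norm_num) (by norm_num)
    (exp_neg_leJ (r := 0.46) 6 (by norm_num) (by norm_num) (by norm_num) (by norm_num))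
    (exp_neg_leJ (r := 0.731) 4 (by norm_num) (by norm_num) (by norm_num) (by norm_num))
    (exp_neg_leJ (r := 0.035) 13 (by norm_num) (by norm_num) (by norm_num) (by norm_num))
    (exp_neg_leJ (r := 0.99) 14 (by norm_num) (by norm_num) (by norm_num) (by norm_num))
    (exp_neg_leJ (r := 0.156) 7 (by norm_num) (by norm_num) (by norm_num) (by norm_num))
    (exp_neg_leJ (r := 0.99) 14 (by norm_num) (by norm_num) (by norm_num) (by norm_num))
    (exp_neg_leJ (r := 0.99) 14 (by norm_num) (by norm_num) (by norm_num) (by norm_num))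
    (exp_neg_leJ (r := 0.99) 14 (by norm_num) (by norm_num) (by norm_num) (by norm_num))
    (by norm_num)) (by norm_num) hN hβ.le (by norm_num)

private theorem JB6_k1b_b9_2 {β x y : ℝ} (hβ : 0 < β) (hN : β * 10.184 ≤ 1) (hx1 : 0.7499 ≤ x) (hx2 : x ≤ 0.8846)
    (hy1 : -0 ≤ y) (hy2 : y ≤ 0.401) : ‖HH β (x + y * I) - 1‖ ≤ 0.06 := by
  refine le_epsJ (C := 0.5993) (N0 := 10.184) (J_boxp 0.7499 0.8846 0 0.401 0.401 1.238 0.9713 1.657 0.9346 0.5136 3.1913 10.184 0.7846 2.89 1.425 1.0798 0.6189 0.4571 1.2649 3.5692 0.6783 1.4974 1.3506 1.682 0.001833 0.00952 0.000002552 0.0000003101 0.001004 0.0000003101 0.000001065 0.0000003101 0.5993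
    hβ hN hx1 hx2 hy1 hy2 (by norm_num) (by norm_num) (by linarith) (by norm_num) (by norm_num) (by norm_num) (by norm_num) (by norm_num) (by norm_num) (by norm_num) (by norm_num) (by norm_num) (by norm_num) (by norm_num) (by norm_num) (by norm_num) (by norm_num) (by norm_num) (by norm_num) (by norm_num) (by norm_num) (by norm_num) (by norm_num) (by norm_num)
    (cube_sqrt_geJ (s := 0.8593) (by norm_num) (by norm_num) (by norm_num) (by norm_num))
    (cube_sqrt_geJ (s := 0.9507) (by norm_num) (by norm_num) (by norm_num) (by norm_num))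
    (by norm_num) (by norm_num) (by norm_num) (by norm_num) (by norm_num) (by norm_num) (by norm_num) (by norm_num) (by norm_num) (by norm_num) (by norm_num) (by norm_num) (by norm_num) (by norm_num) (by norm_num) (by norm_num) (by norm_num) (by norm_num)
    (exp_neg_leJ (r := 0.302) 6 (by norm_num) (by norm_num) (by norm_num) (by norm_num))
    (exp_neg_leJ (r := 0.655) 4 (by norm_num) (by norm_num) (by norm_num) (by norm_num))
    (exp_neg_leJ (r := 0.881) 12 (by norm_num) (by norm_num) (by norm_num) (by norm_num))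
    (exp_neg_leJ (r := 0.99) 14 (by norm_num) (by norm_num) (by norm_num) (by norm_num))
    (exp_neg_leJ (r := 0.907) 6 (by norm_num) (by norm_num) (by norm_num) (by norm_num))
    (exp_neg_leJ (r := 0.99) 14 (by norm_num) (by norm_num) (by norm_num) (by norm_num))
    (exp_neg_leJ (r := 0.754) 13 (by norm_num) (by norm_num) (by norm_num) (by norm_num))
    (exp_neg_leJ (r := 0.99) 14 (by norm_num) (by norm_num) (by norm_num) (by norm_num))
    (by norm_num)) (by norm_num) hN hβ.le (by norm_num)

private theorem JB6_k1b_b9_3 {β x y : ℝ} (hβ : 0 < β) (hN : β * 10.184 ≤ 1) (hx1 : 0.7194 ≤ x) (hx2 : x ≤ 0.8401)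
    (hy1 : -0 ≤ y) (hy2 : y ≤ 0.421) : ‖HH β (x + y * I) - 1‖ ≤ 0.06 := by
  refine le_epsJ (C := 0.6022) (N0 := 10.184) (J_boxp 0.7194 0.8401 0 0.421 0.421 1.2166 0.9397 1.6508 0.9575 0.5126 3.1913 10.184 0.7724 2.835 1.416 1.097 0.6082 0.4516 1.2545 3.5914 0.6615 1.4531 1.2038 1.6127 0.002044 0.01007 0.000002835 0.0000003101 0.001189 0.000000375 0.000004743 0.0000003101 0.6022
    hβ hN hx1 hx2 hy1 hy2 (by norm_num) (by norm_num) (by linarith) (by norm_num) (by norm_num) (by norm_num) (by norm_num) (by norm_num) (by norm_num) (by norm_num) (by norm_num) (by norm_num) (by norm_num) (by norm_num) (by norm_num) (by norm_num) (by norm_num) (by norm_num) (by norm_num) (by norm_num) (by norm_num) (by norm_num) (by norm_num) (by norm_num)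
    (cube_sqrt_geJ (s := 0.8617) (by norm_num) (by norm_num) (by norm_num) (by norm_num))
    (cube_sqrt_geJ (s := 0.9515) (by norm_num) (by norm_num) (by norm_num) (by norm_num))
    (by norm_num) (by norm_num) (by norm_num) (by norm_num) (by norm_num) (by norm_num) (by norm_num) (by norm_num) (by norm_num) (by norm_num) (by norm_num) (by norm_num) (by norm_num) (by norm_num) (by norm_num) (by norm_num) (by norm_num) (by norm_num)
    (exp_neg_leJ (r := 0.193) 6 (by norm_num) (by norm_num) (by norm_num) (by norm_num))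
    (exp_neg_leJ (r := 0.599) 4 (by norm_num) (by norm_num) (by norm_num) (by norm_num))
    (exp_neg_leJ (r := 0.775) 12 (by norm_num) (by norm_num) (by norm_num) (by norm_num))
    (exp_neg_leJ (r := 0.99) 14 (by norm_num) (by norm_num) (by norm_num) (by norm_num))
    (exp_neg_leJ (r := 0.736) 6 (by norm_num) (by norm_num) (by norm_num) (by norm_num))
    (exp_neg_leJ (r := 0.798) 14 (by norm_num) (by norm_num) (by norm_num) (by norm_num))
    (exp_neg_leJ (r := 0.259) 12 (by norm_num) (by norm_num) (by norm_num) (by norm_num))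
    (exp_neg_leJ (r := 0.99) 14 (by norm_num) (by norm_num) (by norm_num) (by norm_num))
    (by norm_num)) (by norm_num) hN hβ.le (by norm_num)

private theorem JB6_k1b_b9_4 {β x y : ℝ} (hβ : 0 < β) (hN : β * 10.184 ≤ 1) (hx1 : 0.7038 ≤ x) (hx2 : x ≤ 0.8095)
    (hy1 : -0 ≤ y) (hy2 : y ≤ 0.431) : ‖HH β (x + y * I) - 1‖ ≤ 0.06 := by
  refine le_epsJ (C := 0.5949) (N0 := 10.184) (J_boxp 0.7038 0.8095 0 0.431 0.431 1.2056 0.9171 1.6441 0.9687 0.5116 3.1913 10.184 0.7608 2.784 1.409 1.1087 0.6027 0.4499 1.2492 3.6069 0.6529 1.4305 1.1297 1.5958 0.002162 0.01025 0.000002991 0.0000003101 0.001297 0.0000004714 0.0000101 0.0000003101 0.5949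
    hβ hN hx1 hx2 hy1 hy2 (by norm_num) (by norm_num) (by linarith) (by norm_num) (by norm_num) (by norm_num) (by norm_num) (by norm_num) (by norm_num) (by norm_num) (by norm_num) (by norm_num) (by norm_num) (by norm_num) (by norm_num) (by norm_num) (by norm_num) (by norm_num) (by norm_num) (by norm_num) (by norm_num) (by norm_num) (by norm_num) (by norm_num)
    (cube_sqrt_geJ (s := 0.8639) (by norm_num) (by norm_num) (by norm_num) (by norm_num))
    (cube_sqrt_geJ (s := 0.9522) (by norm_num) (by norm_num) (by norm_num) (by norm_num))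
    (by norm_num) (by norm_num) (by norm_num) (by norm_num) (by norm_num) (by norm_num) (by norm_num) (by norm_num) (by norm_num) (by norm_num) (by norm_num) (by norm_num) (by norm_num) (by norm_num) (by norm_num) (by norm_num) (by norm_num) (by norm_num)
    (exp_neg_leJ (r := 0.137) 6 (by norm_num) (by norm_num) (by norm_num) (by norm_num))
    (exp_neg_leJ (r := 0.581) 4 (by norm_num) (by norm_num) (by norm_num) (by norm_num))
    (exp_neg_leJ (r := 0.721) 12 (by norm_num) (by norm_num) (by norm_num) (by norm_num))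
    (exp_neg_leJ (r := 0.99) 14 (by norm_num) (by norm_num) (by norm_num) (by norm_num))
    (exp_neg_leJ (r := 0.649) 6 (by norm_num) (by norm_num) (by norm_num) (by norm_num))
    (exp_neg_leJ (r := 0.568) 14 (by norm_num) (by norm_num) (by norm_num) (by norm_num))
    (exp_neg_leJ (r := 0.504) 11 (by norm_num) (by norm_num) (by norm_num) (by norm_num))
    (exp_neg_leJ (r := 0.99) 14 (by norm_num) (by norm_num) (by norm_num) (by norm_num))
    (by norm_num)) (by norm_num) hN hβ.le (by norm_num)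

private theorem JB6_k1b_b9_5 {β x y : ℝ} (hβ : 0 < β) (hN : β * 10.184 ≤ 1) (hx1 : 0.6943 ≤ x) (hx2 : x ≤ 0.7939)
    (hy1 : -0 ≤ y) (hy2 : y ≤ 0.437) : ‖HH β (x + y * I) - 1‖ ≤ 0.06 := by
  refine le_epsJ (C := 0.5946) (N0 := 10.184) (J_boxp 0.6943 0.7939 0 0.437 0.437 1.1989 0.9063 1.6418 0.9761 0.5112 3.1913 10.184 0.756 2.763 1.406 1.1147 0.5994 0.4483 1.2459 3.6147 0.6476 1.4167 1.085 1.5779 0.002234 0.01042 0.000003091 0.0000003101 0.001368 0.0000005426 0.00001591 0.0000003101 0.5946
    hβ hN hx1 hx2 hy1 hy2 (by norm_num) (by norm_num) (by linarith) (by norm_num) (by norm_num) (by norm_num) (by norm_num) (by norm_num) (by norm_num) (by norm_num) (by norm_num) (by norm_num) (by norm_num) (by norm_num) (by norm_num) (by norm_num) (by norm_num) (by norm_num) (by norm_num) (by norm_num) (by norm_num) (by norm_num) (by norm_num) (by norm_num)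
    (cube_sqrt_geJ (s := 0.8648) (by norm_num) (by norm_num) (by norm_num) (by norm_num))
    (cube_sqrt_geJ (s := 0.9525) (by norm_num) (by norm_num) (by norm_num) (by norm_num))
    (by norm_num) (by norm_num) (by norm_num) (by norm_num) (by norm_num) (by norm_num) (by norm_num) (by norm_num) (by norm_num) (by norm_num) (by norm_num) (by norm_num) (by norm_num) (by norm_num) (by norm_num) (by norm_num) (by norm_num) (by norm_num)
    (exp_neg_leJ (r := 0.104) 6 (by norm_num) (by norm_num) (by norm_num) (by norm_num))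
    (exp_neg_leJ (r := 0.565) 4 (by norm_num) (by norm_num) (by norm_num) (by norm_num))
    (exp_neg_leJ (r := 0.688) 12 (by norm_num) (by norm_num) (by norm_num) (by norm_num))
    (exp_neg_leJ (r := 0.99) 14 (by norm_num) (by norm_num) (by norm_num) (by norm_num))
    (exp_neg_leJ (r := 0.595) 6 (by norm_num) (by norm_num) (by norm_num) (by norm_num))
    (exp_neg_leJ (r := 0.427) 14 (by norm_num) (by norm_num) (by norm_num) (by norm_num))
    (exp_neg_leJ (r := 0.049) 11 (by norm_num) (by norm_num) (by norm_num) (by norm_num))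
    (exp_neg_leJ (r := 0.99) 14 (by norm_num) (by norm_num) (by norm_num) (by norm_num))
    (by norm_num)) (by norm_num) hN hβ.le (by norm_num)

theorem JB6_k1b_c9 {κ t β : ℝ} (h : DomR κ t) (hβ : 0 < β) (hk1 : 1.27 ≤ κ) (hk2 : κ ≤ 1.39)
    (ht1 : 0.6 ≤ t + κ) (ht2 : t + κ ≤ 1.11) (hR0 : β * 10 ≤ κ) (hR : β * (4.95 * (1 + κ ^ 2)) ≤ κ) :
    ‖HH β (sg κ t) - 1‖ ≤ 0.06 := by
  have hN : β * 10.184 ≤ 1 := bNC' hβ hk1 (by norm_num) (by norm_num) hR (by norm_num)
  have hy1 : 0.261 ≤ sy κ t := syR_ge h 1.27 1.39 0.6 0.261 1.29822 1.29823 0.24376 0.26681 hk1 hk2 (by linarith) (by norm_num) (by norm_num)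
    (expn_ge (by norm_num) (by norm_num)) (expn_le (by norm_num) (by norm_num) (by norm_num)) (by norm_num)
    (by norm_num) (by norm_num) (by norm_num) (by norm_num) (by norm_num) (by norm_num)
  have hy2 : sy κ t ≤ 0.437 := syR_le h 1.27 1.39 1.11 0.437 1.54805 0.4751 0.48668 0.53268 hk1 hk2 (by linarith) (by norm_num) (by norm_num)
    (expn_ge (by norm_num) (by norm_num)) (by norm_num) (by norm_num) (Or.inr ((mul_le_mul_of_nonneg_left (expn_le (E := 1.54806) (by norm_num) (by norm_num) (by norm_num)) (by norm_num)).trans (by norm_num))) (by norm_num) (by norm_num) (by norm_num)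
  rcases le_total (sy κ t) 0.326 with f0 | g0
  · have hx1 : 0.8567 ≤ sx κ t := sx_lo h 1.27 0.326 0.326 0.7218 0.8567 hk1 (by norm_num) f0 (abs_le.2 ⟨by linarith, by linarith⟩) (expm_ge (by norm_num) (by norm_num) (by norm_num) (by norm_num)) (by norm_num) (by norm_num)
    have hx2 : sx κ t ≤ 1.0385 := sx_hi h 1.39 0.261 0.261 0.77029 1.0385 hk2 hy1 (by norm_num) (by rw [abs_of_nonneg (by linarith)]; linarith) (expm_le (by norm_num) (by norm_num) (by norm_num)) (by norm_num) (by norm_num)
    exact JB6_k1b_b9_0 hβ hN hx1 hx2 (by linarith) (by linarith)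
  rcases le_total (sy κ t) 0.371 with f1 | g1
  · have hx1 : 0.7939 ≤ sx κ t := sx_lo h 1.27 0.371 0.371 0.69004 0.7939 hk1 (by norm_num) f1 (abs_le.2 ⟨by linarith, by linarith⟩) (expm_ge (by norm_num) (by norm_num) (by norm_num) (by norm_num)) (by norm_num) (by norm_num)
    have hx2 : sx κ t ≤ 0.9489 := sx_hi h 1.39 0.326 0.326 0.72181 0.9489 hk2 g0 (by norm_num) (by rw [abs_of_nonneg (by linarith)]; linarith) (expm_le (by norm_num) (by norm_num) (by norm_num)) (by norm_num) (by norm_num)
    exact JB6_k1b_b9_1 hβ hN hx1 hx2 (by linarith) (by linarith)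
  rcases le_total (sy κ t) 0.401 with f2 | g2
  · have hx1 : 0.7499 ≤ sx κ t := sx_lo h 1.27 0.401 0.401 0.66965 0.7499 hk1 (by norm_num) f2 (abs_le.2 ⟨by linarith, by linarith⟩) (expm_ge (by norm_num) (by norm_num) (by norm_num) (by norm_num)) (by norm_num) (by norm_num)
    have hx2 : sx κ t ≤ 0.8846 := sx_hi h 1.39 0.371 0.371 0.69005 0.8846 hk2 g1 (by norm_num) (by rw [abs_of_nonneg (by linarith)]; linarith) (expm_le (by norm_num) (by norm_num) (by norm_num)) (by norm_num) (by norm_num)
    exact JB6_k1b_b9_2 hβ hN hx1 hx2 (by linarith) (by linarith)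
  rcases le_total (sy κ t) 0.421 with f3 | g3
  · have hx1 : 0.7194 ≤ sx κ t := sx_lo h 1.27 0.421 0.421 0.65639 0.7194 hk1 (by norm_num) f3 (abs_le.2 ⟨by linarith, by linarith⟩) (expm_ge (by norm_num) (by norm_num) (by norm_num) (by norm_num)) (by norm_num) (by norm_num)
    have hx2 : sx κ t ≤ 0.8401 := sx_hi h 1.39 0.401 0.401 0.66966 0.8401 hk2 g2 (by norm_num) (by rw [abs_of_nonneg (by linarith)]; linarith) (expm_le (by norm_num) (by norm_num) (by norm_num)) (by norm_num) (by norm_num)
    exact JB6_k1b_b9_3 hβ hN hx1 hx2 (by linarith) (by linarith)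
  rcases le_total (sy κ t) 0.431 with f4 | g4
  · have hx1 : 0.7038 ≤ sx κ t := sx_lo h 1.27 0.431 0.431 0.64985 0.7038 hk1 (by norm_num) f4 (abs_le.2 ⟨by linarith, by linarith⟩) (expm_ge (by norm_num) (by norm_num) (by norm_num) (by norm_num)) (by norm_num) (by norm_num)
    have hx2 : sx κ t ≤ 0.8095 := sx_hi h 1.39 0.421 0.421 0.6564 0.8095 hk2 g3 (by norm_num) (by rw [abs_of_nonneg (by linarith)]; linarith) (expm_le (by norm_num) (by norm_num) (by norm_num)) (by norm_num) (by norm_num)
    exact JB6_k1b_b9_4 hβ hN hx1 hx2 (by linarith) (by linarith)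
  have hx1 : 0.6943 ≤ sx κ t := sx_lo h 1.27 0.437 0.437 0.64597 0.6943 hk1 (by norm_num) hy2 (abs_le.2 ⟨by linarith, by linarith⟩) (expm_ge (by norm_num) (by norm_num) (by norm_num) (by norm_num)) (by norm_num) (by norm_num)
  have hx2 : sx κ t ≤ 0.7939 := sx_hi h 1.39 0.431 0.431 0.64986 0.7939 hk2 g4 (by norm_num) (by rw [abs_of_nonneg (by linarith)]; linarith) (expm_le (by norm_num) (by norm_num) (by norm_num)) (by norm_num) (by norm_num)
  exact JB6_k1b_b9_5 hβ hN hx1 hx2 (by linarith) (by linarith)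
end Sok
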