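import Pool.Agent.Lib.MP_816dec_an.JBG2

/-!
MP_816dec_an (A3, row R1): tables b = 6, real points.
-/

set_option autoImplicit false
set_option maxHeartbeats 4000000

open Complex Set

namespace Sok

private theorem JB6_k0a_b0_0 {β x y : ℝ} (hβ : 0 < β) (hN : β * 18.181 ≤ 1) (hx1 : 0.2949 ≤ x) (hx2 : x ≤ 0.6574)
    (hy1 : -0.237 ≤ y) (hy2 : y ≤ -0.232) : ‖HH β (x + y * I) - 1‖ ≤ 0.08 := by
  refine le_epsJ (C := 1.436) (N0 := 18.181) (J_boxp 0.2949 0.6574 0.237 0 (-0.232) 0.7494 0.6989 1.011 1.55 0.4012 4.264 18.181 0.9327 3.682 1.529 0.9485 0.3746 0.2582 0.7351 2.9689 0.3687 0.9083 1.5162 3.402 0.001105 0.009158 0.000001571 0.0000003101 0.001229 0.0000003101 0.0000003101 0.0000003101 1.436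
    hβ hN hx1 hx2 hy1 hy2 (by norm_num) (by norm_num) (by linarith) (by norm_num) (by norm_num) (by norm_num) (by norm_num) (by norm_num) (by norm_num) (by norm_num) (by norm_num) (by norm_num) (by norm_num) (by norm_num) (by norm_num) (by norm_num) (by norm_num) (by norm_num) (by norm_num) (by norm_num) (by norm_num) (by norm_num) (by norm_num) (by norm_num)
    (cube_sqrt_geJ (s := 0.8301) (by norm_num) (by norm_num) (by norm_num) (by norm_num))
    (cube_sqrt_geJ (s := 0.9411) (by norm_num) (by norm_num) (by norm_num) (by norm_num))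
    (by norm_num) (by norm_num) (by norm_num) (by norm_num) (by norm_num) (by norm_num) (by norm_num) (by norm_num) (by norm_num) (by norm_num) (by norm_num) (by norm_num) (by norm_num) (by norm_num) (by norm_num) (by norm_num) (by norm_num) (by norm_num)
    (exp_neg_leJ (r := 0.81) 6 (by norm_num) (by norm_num) (by norm_num) (by norm_num))
    (exp_neg_leJ (r := 0.694) 4 (by norm_num) (by norm_num) (by norm_num) (by norm_num))
    (exp_neg_leJ (r := 0.364) 13 (by norm_num) (by norm_num) (by norm_num) (by norm_num))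
    (exp_neg_leJ (r := 0.99) 14 (by norm_num) (by norm_num) (by norm_num) (by norm_num))
    (exp_neg_leJ (r := 0.703) 6 (by norm_num) (by norm_num) (by norm_num) (by norm_num))
    (exp_neg_leJ (r := 0.99) 14 (by norm_num) (by norm_num) (by norm_num) (by norm_num))
    (exp_neg_leJ (r := 0.99) 14 (by norm_num) (by norm_num) (by norm_num) (by norm_num))
    (exp_neg_leJ (r := 0.99) 14 (by norm_num) (by norm_num) (by norm_num) (by norm_num))
    (by norm_num)) (by norm_num) hN hβ.le (by norm_num)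

private theorem JB6_k0a_b0_1 {β x y : ℝ} (hβ : 0 < β) (hN : β * 18.181 ≤ 1) (hx1 : 0.2916 ≤ x) (hx2 : x ≤ 0.6588)
    (hy1 : -0.232 ≤ y) (hy2 : y ≤ -0.217) : ‖HH β (x + y * I) - 1‖ ≤ 0.08 := by
  refine le_epsJ (C := 1.4318) (N0 := 18.181) (J_boxp 0.2916 0.6588 0.232 0 (-0.217) 0.7506 0.6985 1.0233 1.5556 0.4036 4.264 18.181 0.9306 3.669 1.528 0.9525 0.3752 0.2588 0.7418 2.9843 0.3699 0.9037 1.5232 3.3965 0.001093 0.009058 0.000001391 0.0000003101 0.001202 0.0000003101 0.0000003101 0.0000003101 1.4318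
    hβ hN hx1 hx2 hy1 hy2 (by norm_num) (by norm_num) (by linarith) (by norm_num) (by norm_num) (by norm_num) (by norm_num) (by norm_num) (by norm_num) (by norm_num) (by norm_num) (by norm_num) (by norm_num) (by norm_num) (by norm_num) (by norm_num) (by norm_num) (by norm_num) (by norm_num) (by norm_num) (by norm_num) (by norm_num) (by norm_num) (by norm_num)
    (cube_sqrt_geJ (s := 0.8305) (by norm_num) (by norm_num) (by norm_num) (by norm_num))
    (cube_sqrt_geJ (s := 0.9413) (by norm_num) (by norm_num) (by norm_num) (by norm_num))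
    (by norm_num) (by norm_num) (by norm_num) (by norm_num) (by norm_num) (by norm_num) (by norm_num) (by norm_num) (by norm_num) (by norm_num) (by norm_num) (by norm_num) (by norm_num) (by norm_num) (by norm_num) (by norm_num) (by norm_num) (by norm_num)
    (exp_neg_leJ (r := 0.821) 6 (by norm_num) (by norm_num) (by norm_num) (by norm_num))
    (exp_neg_leJ (r := 0.705) 4 (by norm_num) (by norm_num) (by norm_num) (by norm_num))
    (exp_neg_leJ (r := 0.486) 13 (by norm_num) (by norm_num) (by norm_num) (by norm_num))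
    (exp_neg_leJ (r := 0.99) 14 (by norm_num) (by norm_num) (by norm_num) (by norm_num))
    (exp_neg_leJ (r := 0.725) 6 (by norm_num) (by norm_num) (by norm_num) (by norm_num))
    (exp_neg_leJ (r := 0.99) 14 (by norm_num) (by norm_num) (by norm_num) (by norm_num))
    (exp_neg_leJ (r := 0.99) 14 (by norm_num) (by norm_num) (by norm_num) (by norm_num))
    (exp_neg_leJ (r := 0.99) 14 (by norm_num) (by norm_num) (by norm_num) (by norm_num))
    (by norm_num)) (by norm_num) hN hβ.le (by norm_num)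

private theorem JB6_k0a_b0_2 {β x y : ℝ} (hβ : 0 < β) (hN : β * 18.181 ≤ 1) (hx1 : 0.2781 ≤ x) (hx2 : x ≤ 0.6639)
    (hy1 : -0.217 ≤ y) (hy2 : y ≤ -0.162) : ‖HH β (x + y * I) - 1‖ ≤ 0.08 := by
  refine le_epsJ (C := 1.4533) (N0 := 18.181) (J_boxp 0.2781 0.6639 0.217 0 (-0.162) 0.7517 0.6985 1.0692 1.5866 0.4126 4.264 18.181 0.9293 3.661 1.527 0.9644 0.3758 0.2594 0.7609 3.0298 0.3715 0.885 1.537 3.3695 0.001081 0.008959 0.0000009844 0.0000003101 0.001168 0.0000003101 0.0000003101 0.0000003101 1.4533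
    hβ hN hx1 hx2 hy1 hy2 (by norm_num) (by norm_num) (by linarith) (by norm_num) (by norm_num) (by norm_num) (by norm_num) (by norm_num) (by norm_num) (by norm_num) (by norm_num) (by norm_num) (by norm_num) (by norm_num) (by norm_num) (by norm_num) (by norm_num) (by norm_num) (by norm_num) (by norm_num) (by norm_num) (by norm_num) (by norm_num) (by norm_num)
    (cube_sqrt_geJ (s := 0.8308) (by norm_num) (by norm_num) (by norm_num) (by norm_num))
    (cube_sqrt_geJ (s := 0.9413) (by norm_num) (by norm_num) (by norm_num) (by norm_num))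
    (by norm_num) (by norm_num) (by norm_num) (by norm_num) (by norm_num) (by norm_num) (by norm_num) (by norm_num) (by norm_num) (by norm_num) (by norm_num) (by norm_num) (by norm_num) (by norm_num) (by norm_num) (by norm_num) (by norm_num) (by norm_num)
    (exp_neg_leJ (r := 0.832) 6 (by norm_num) (by norm_num) (by norm_num) (by norm_num))
    (exp_neg_leJ (r := 0.716) 4 (by norm_num) (by norm_num) (by norm_num) (by norm_num))
    (exp_neg_leJ (r := 0.833) 13 (by norm_num) (by norm_num) (by norm_num) (by norm_num))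
    (exp_neg_leJ (r := 0.99) 14 (by norm_num) (by norm_num) (by norm_num) (by norm_num))
    (exp_neg_leJ (r := 0.754) 6 (by norm_num) (by norm_num) (by norm_num) (by norm_num))
    (exp_neg_leJ (r := 0.99) 14 (by norm_num) (by norm_num) (by norm_num) (by norm_num))
    (exp_neg_leJ (r := 0.99) 14 (by norm_num) (by norm_num) (by norm_num) (by norm_num))
    (exp_neg_leJ (r := 0.99) 14 (by norm_num) (by norm_num) (by norm_num) (by norm_num))
    (by norm_num)) (by norm_num) hN hβ.le (by norm_num)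

private theorem JB6_k0a_b0_3 {β x y : ℝ} (hβ : 0 < β) (hN : β * 18.181 ≤ 1) (hx1 : 0.2436 ≤ x) (hx2 : x ≤ 0.6468)
    (hy1 : -0.162 ≤ y) (hy2 : y ≤ 0.025) : ‖HH β (x + y * I) - 1‖ ≤ 0.08 := by
  refine le_epsJ (C := 1.2618) (N0 := 18.181) (J_boxp 0.2436 0.6468 0.162 0.025 0.025 0.7665 0.6668 1.2121 1.6406 0.4393 4.264 18.181 0.87 3.316 1.484 1.0218 0.3832 0.2721 0.8359 3.2163 0.3822 0.8347 1.5103 3.2689 0.0009465 0.007126 0.0000003101 0.0000003101 0.0009634 0.0000003101 0.0000003101 0.0000003101 1.2618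
    hβ hN hx1 hx2 hy1 hy2 (by norm_num) (by norm_num) (by linarith) (by norm_num) (by norm_num) (by norm_num) (by norm_num) (by norm_num) (by norm_num) (by norm_num) (by norm_num) (by norm_num) (by norm_num) (by norm_num) (by norm_num) (by norm_num) (by norm_num) (by norm_num) (by norm_num) (by norm_num) (by norm_num) (by norm_num) (by norm_num) (by norm_num)
    (cube_sqrt_geJ (s := 0.8426) (by norm_num) (by norm_num) (by norm_num) (by norm_num))
    (cube_sqrt_geJ (s := 0.9452) (by norm_num) (by norm_num) (by norm_num) (by norm_num))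
    (by norm_num) (by norm_num) (by norm_num) (by norm_num) (by norm_num) (by norm_num) (by norm_num) (by norm_num) (by norm_num) (by norm_num) (by norm_num) (by norm_num) (by norm_num) (by norm_num) (by norm_num) (by norm_num) (by norm_num) (by norm_num)
    (exp_neg_leJ (r := 0.966) 6 (by norm_num) (by norm_num) (by norm_num) (by norm_num))
    (exp_neg_leJ (r := 0.947) 4 (by norm_num) (by norm_num) (by norm_num) (by norm_num))
    (exp_neg_leJ (r := 0.99) 14 (by norm_num) (by norm_num) (by norm_num) (by norm_num))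
    (exp_neg_leJ (r := 0.99) 14 (by norm_num) (by norm_num) (by norm_num) (by norm_num))
    (exp_neg_leJ (r := 0.948) 6 (by norm_num) (by norm_num) (by norm_num) (by norm_num))
    (exp_neg_leJ (r := 0.99) 14 (by norm_num) (by norm_num) (by norm_num) (by norm_num))
    (exp_neg_leJ (r := 0.99) 14 (by norm_num) (by norm_num) (by norm_num) (by norm_num))
    (exp_neg_leJ (r := 0.99) 14 (by norm_num) (by norm_num) (by norm_num) (by norm_num))
    (by norm_num)) (by norm_num) hN hβ.le (by norm_num)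

private theorem JB6_k0a_c0 {κ t β : ℝ} (h : DomR κ t) (hβ : 0 < β) (hk1 : 0.3 ≤ κ) (hk2 : κ ≤ 0.55)
    (ht1 : -0.45 ≤ t + κ) (ht2 : t + κ ≤ 0.06) (hR0 : β * 10 ≤ κ) (hR : β * (4.95 * (1 + κ ^ 2)) ≤ κ) :
    ‖HH β (sg κ t) - 1‖ ≤ 0.08 := by
  have hN : β * 18.181 ≤ 1 := bNR hβ h.1 hk2 hR0 (by norm_num)
  have hy1 : -0.237 ≤ sy κ t := syL_ge h 0.3 0.55 0.45 0.237 0.78899 0.789 0.3399 0.33998 0.62332 hk1 hk2 (by linarith) (by norm_num) (by norm_num) (by norm_num)
    (expm_ge (by norm_num) (by norm_num) (by norm_num) (by norm_num)) (expm_le (by norm_num) (by norm_num) (by norm_num)) (by norm_num)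
    (by norm_num) (by norm_num) (by norm_num) (by norm_num) (by norm_num) (by norm_num)
  have hy2 : sy κ t ≤ 0.025 := syR_le h 0.3 0.55 0.06 0.025 1.02531 0.0433 0.0466 0.08545 hk1 hk2 (by linarith) (by norm_num) (by norm_num)
    (expn_ge (by norm_num) (by norm_num)) (by norm_num) (by norm_num) (Or.inr ((mul_le_mul_of_nonneg_left (expn_le (E := 1.02532) (by norm_num) (by norm_num) (by norm_num)) (by norm_num)).trans (by norm_num))) (by norm_num) (by norm_num) (by norm_num)
  rcases le_total (sy κ t) (-0.232) with f0 | g0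
  · have hx1 : 0.2949 ≤ sx κ t := sx_lo h 0.3 (-0.232) 0.237 1.26111 0.2949 hk1 (by norm_num) f0 (abs_le.2 ⟨by linarith, by linarith⟩) (by rw [neg_neg]; exact expn_ge (by norm_num) (by norm_num)) (by norm_num) (by norm_num)
    have hx2 : sx κ t ≤ 0.6574 := sx_hi h 0.55 (-0.237) 0.232 1.26745 0.6574 hk2 hy1 (by norm_num) (by rw [abs_of_nonpos (by linarith)]; linarith) (by rw [neg_neg]; exact expn_le (by norm_num) (by norm_num) (by norm_num)) (by norm_num) (by norm_num)
    exact JB6_k0a_b0_0 hβ hN hx1 hx2 (by linarith) (by linarith)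
  rcases le_total (sy κ t) (-0.217) with f1 | g1
  · have hx1 : 0.2916 ≤ sx κ t := sx_lo h 0.3 (-0.217) 0.232 1.24234 0.2916 hk1 (by norm_num) f1 (abs_le.2 ⟨by linarith, by linarith⟩) (by rw [neg_neg]; exact expn_ge (by norm_num) (by norm_num)) (by norm_num) (by norm_num)
    have hx2 : sx κ t ≤ 0.6588 := sx_hi h 0.55 (-0.232) 0.217 1.26112 0.6588 hk2 g0 (by norm_num) (by rw [abs_of_nonpos (by linarith)]; linarith) (by rw [neg_neg]; exact expn_le (by norm_num) (by norm_num) (by norm_num)) (by norm_num) (by norm_num)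
    exact JB6_k0a_b0_1 hβ hN hx1 hx2 (by linarith) (by linarith)
  rcases le_total (sy κ t) (-0.162) with f2 | g2
  · have hx1 : 0.2781 ≤ sx κ t := sx_lo h 0.3 (-0.162) 0.217 1.17586 0.2781 hk1 (by norm_num) f2 (abs_le.2 ⟨by linarith, by linarith⟩) (by rw [neg_neg]; exact expn_ge (by norm_num) (by norm_num)) (by norm_num) (by norm_num)
    have hx2 : sx κ t ≤ 0.6639 := sx_hi h 0.55 (-0.217) 0.162 1.24235 0.6639 hk2 g1 (by norm_num) (by rw [abs_of_nonpos (by linarith)]; linarith) (by rw [neg_neg]; exact expn_le (by norm_num) (by norm_num) (by norm_num)) (by norm_num) (by norm_num)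
    exact JB6_k0a_b0_2 hβ hN hx1 hx2 (by linarith) (by linarith)
  have hx1 : 0.2436 ≤ sx κ t := sx_lo h 0.3 0.025 0.162 0.9753 0.2436 hk1 (by norm_num) hy2 (abs_le.2 ⟨by linarith, by linarith⟩) (expm_ge (by norm_num) (by norm_num) (by norm_num) (by norm_num)) (by norm_num) (by norm_num)
  have hx2 : sx κ t ≤ 0.6468 := sx_hi h 0.55 (-0.162) 0 1.17587 0.6468 hk2 g2 (by norm_num) (abs_nonneg _) (by rw [neg_neg]; exact expn_le (by norm_num) (by norm_num) (by norm_num)) (by norm_num) (by norm_num)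
  exact JB6_k0a_b0_3 hβ hN hx1 hx2 (by linarith) (by linarith)

private theorem JB6_k0a_b1_0 {β x y : ℝ} (hβ : 0 < β) (hN : β * 13.698 ≤ 1) (hx1 : 0.6547 ≤ x) (hx2 : x ≤ 0.9097)
    (hy1 : -0.255 ≤ y) (hy2 : y ≤ -0.245) : ‖HH β (x + y * I) - 1‖ ≤ 0.08 := by
  refine le_epsJ (C := 1.0797) (N0 := 13.698) (J_boxp 0.6547 0.9097 0.255 0 (-0.245) 0.9899 0.9448 1.1822 1.104 0.4338 3.7011 13.698 0.9545 3.821 1.546 0.8348 0.4949 0.3374 0.8298 2.7683 0.5337 1.4065 2.1869 3.4532 0.001139 0.009848 0.00001159 0.0000003101 0.0006689 0.0000003101 0.0000003101 0.0000003101 1.0797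
    hβ hN hx1 hx2 hy1 hy2 (by norm_num) (by norm_num) (by linarith) (by norm_num) (by norm_num) (by norm_num) (by norm_num) (by norm_num) (by norm_num) (by norm_num) (by norm_num) (by norm_num) (by norm_num) (by norm_num) (by norm_num) (by norm_num) (by norm_num) (by norm_num) (by norm_num) (by norm_num) (by norm_num) (by norm_num) (by norm_num) (by norm_num)
    (cube_sqrt_geJ (s := 0.8257) (by norm_num) (by norm_num) (by norm_num) (by norm_num))
    (cube_sqrt_geJ (s := 0.9397) (by norm_num) (by norm_num) (by norm_num) (by norm_num))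
    (by norm_num) (by norm_num) (by norm_num) (by norm_num) (by norm_num) (by norm_num) (by norm_num) (by norm_num) (by norm_num) (by norm_num) (by norm_num) (by norm_num) (by norm_num) (by norm_num) (by norm_num) (by norm_num) (by norm_num) (by norm_num)
    (exp_neg_leJ (r := 0.779) 6 (by norm_num) (by norm_num) (by norm_num) (by norm_num))
    (exp_neg_leJ (r := 0.621) 4 (by norm_num) (by norm_num) (by norm_num) (by norm_num))
    (exp_neg_leJ (r := 0.366) 11 (by norm_num) (by norm_num) (by norm_num) (by norm_num))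
    (exp_neg_leJ (r := 0.99) 14 (by norm_num) (by norm_num) (by norm_num) (by norm_num))
    (exp_neg_leJ (r := 0.31) 7 (by norm_num) (by norm_num) (by norm_num) (by norm_num))
    (exp_neg_leJ (r := 0.99) 14 (by norm_num) (by norm_num) (by norm_num) (by norm_num))
    (exp_neg_leJ (r := 0.99) 14 (by norm_num) (by norm_num) (by norm_num) (by norm_num))
    (exp_neg_leJ (r := 0.99) 14 (by norm_num) (by norm_num) (by norm_num) (by norm_num))
    (by norm_num)) (by norm_num) hN hβ.le (by norm_num)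

private theorem JB6_k0a_b1_1 {β x y : ℝ} (hβ : 0 < β) (hN : β * 13.698 ≤ 1) (hx1 : 0.64 ≤ x) (hx2 : x ≤ 0.9064)
    (hy1 : -0.245 ≤ y) (hy2 : y ≤ -0.22) : ‖HH β (x + y * I) - 1‖ ≤ 0.08 := by
  refine le_epsJ (C := 1.0845) (N0 := 13.698) (J_boxp 0.64 0.9064 0.245 0 (-0.22) 0.9867 0.939 1.1959 1.1158 0.4363 3.7011 13.698 0.9517 3.803 1.543 0.8453 0.4933 0.3368 0.8406 2.8023 0.532 1.3861 2.1847 3.4396 0.001165 0.009927 0.000009992 0.0000003101 0.0006844 0.0000003101 0.0000003101 0.0000003101 1.0845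
    hβ hN hx1 hx2 hy1 hy2 (by norm_num) (by norm_num) (by linarith) (by norm_num) (by norm_num) (by norm_num) (by norm_num) (by norm_num) (by norm_num) (by norm_num) (by norm_num) (by norm_num) (by norm_num) (by norm_num) (by norm_num) (by norm_num) (by norm_num) (by norm_num) (by norm_num) (by norm_num) (by norm_num) (by norm_num) (by norm_num) (by norm_num)
    (cube_sqrt_geJ (s := 0.8262) (by norm_num) (by norm_num) (by norm_num) (by norm_num))
    (cube_sqrt_geJ (s := 0.9399) (by norm_num) (by norm_num) (by norm_num) (by norm_num))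
    (by norm_num) (by norm_num) (by norm_num) (by norm_num) (by norm_num) (by norm_num) (by norm_num) (by norm_num) (by norm_num) (by norm_num) (by norm_num) (by norm_num) (by norm_num) (by norm_num) (by norm_num) (by norm_num) (by norm_num) (by norm_num)
    (exp_neg_leJ (r := 0.757) 6 (by norm_num) (by norm_num) (by norm_num) (by norm_num))
    (exp_neg_leJ (r := 0.613) 4 (by norm_num) (by norm_num) (by norm_num) (by norm_num))
    (exp_neg_leJ (r := 0.514) 11 (by norm_num) (by norm_num) (by norm_num) (by norm_num))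
    (exp_neg_leJ (r := 0.99) 14 (by norm_num) (by norm_num) (by norm_num) (by norm_num))
    (exp_neg_leJ (r := 0.287) 7 (by norm_num) (by norm_num) (by norm_num) (by norm_num))
    (exp_neg_leJ (r := 0.99) 14 (by norm_num) (by norm_num) (by norm_num) (by norm_num))
    (exp_neg_leJ (r := 0.99) 14 (by norm_num) (by norm_num) (by norm_num) (by norm_num))
    (exp_neg_leJ (r := 0.99) 14 (by norm_num) (by norm_num) (by norm_num) (by norm_num))
    (by norm_num)) (by norm_num) hN hβ.le (by norm_num)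

private theorem JB6_k0a_b1_2 {β x y : ℝ} (hβ : 0 < β) (hN : β * 13.698 ≤ 1) (hx1 : 0.6033 ≤ x) (hx2 : x ≤ 0.8964)
    (hy1 : -0.22 ≤ y) (hy2 : y ≤ -0.155) : ‖HH β (x + y * I) - 1‖ ≤ 0.08 := by
  refine le_epsJ (C := 1.094) (N0 := 13.698) (J_boxp 0.6033 0.8964 0.22 0 (-0.155) 0.9786 0.9231 1.2319 1.1466 0.4428 3.7011 13.698 0.9433 3.749 1.537 0.8722 0.4892 0.3354 0.8675 2.8881 0.5278 1.3353 2.1792 3.4094 0.001231 0.01012 0.000006922 0.0000003101 0.0007253 0.0000003101 0.0000003101 0.0000003101 1.094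
    hβ hN hx1 hx2 hy1 hy2 (by norm_num) (by norm_num) (by linarith) (by norm_num) (by norm_num) (by norm_num) (by norm_num) (by norm_num) (by norm_num) (by norm_num) (by norm_num) (by norm_num) (by norm_num) (by norm_num) (by norm_num) (by norm_num) (by norm_num) (by norm_num) (by norm_num) (by norm_num) (by norm_num) (by norm_num) (by norm_num) (by norm_num)
    (cube_sqrt_geJ (s := 0.8279) (by norm_num) (by norm_num) (by norm_num) (by norm_num))
    (cube_sqrt_geJ (s := 0.9404) (by norm_num) (by norm_num) (by norm_num) (by norm_num))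
    (by norm_num) (by norm_num) (by norm_num) (by norm_num) (by norm_num) (by norm_num) (by norm_num) (by norm_num) (by norm_num) (by norm_num) (by norm_num) (by norm_num) (by norm_num) (by norm_num) (by norm_num) (by norm_num) (by norm_num) (by norm_num)
    (exp_neg_leJ (r := 0.701) 6 (by norm_num) (by norm_num) (by norm_num) (by norm_num))
    (exp_neg_leJ (r := 0.594) 4 (by norm_num) (by norm_num) (by norm_num) (by norm_num))
    (exp_neg_leJ (r := 0.883) 11 (by norm_num) (by norm_num) (by norm_num) (by norm_num))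
    (exp_neg_leJ (r := 0.99) 14 (by norm_num) (by norm_num) (by norm_num) (by norm_num))
    (exp_neg_leJ (r := 0.229) 7 (by norm_num) (by norm_num) (by norm_num) (by norm_num))
    (exp_neg_leJ (r := 0.99) 14 (by norm_num) (by norm_num) (by norm_num) (by norm_num))
    (exp_neg_leJ (r := 0.99) 14 (by norm_num) (by norm_num) (by norm_num) (by norm_num))
    (exp_neg_leJ (r := 0.99) 14 (by norm_num) (by norm_num) (by norm_num) (by norm_num))
    (by norm_num)) (by norm_num) hN hβ.le (by norm_num)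

private theorem JB6_k0a_b1_3 {β x y : ℝ} (hβ : 0 < β) (hN : β * 13.698 ≤ 1) (hx1 : 0.5118 ≤ x) (hx2 : x ≤ 0.8524)
    (hy1 : -0.155 ≤ y) (hy2 : y ≤ 0.028) : ‖HH β (x + y * I) - 1‖ ≤ 0.08 := by
  refine le_epsJ (C := 1.0595) (N0 := 13.698) (J_boxp 0.5118 0.8524 0.155 0.028 0.028 0.9603 0.8664 1.3355 1.2281 0.4611 3.7011 13.698 0.9023 3.499 1.507 0.9491 0.4801 0.3357 0.9388 3.121 0.516 1.2057 2.0528 3.2486 0.001394 0.01008 0.000002608 0.0000003101 0.000852 0.0000003101 0.0000003101 0.0000003101 1.0595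
    hβ hN hx1 hx2 hy1 hy2 (by norm_num) (by norm_num) (by linarith) (by norm_num) (by norm_num) (by norm_num) (by norm_num) (by norm_num) (by norm_num) (by norm_num) (by norm_num) (by norm_num) (by norm_num) (by norm_num) (by norm_num) (by norm_num) (by norm_num) (by norm_num) (by norm_num) (by norm_num) (by norm_num) (by norm_num) (by norm_num) (by norm_num)
    (cube_sqrt_geJ (s := 0.8362) (by norm_num) (by norm_num) (by norm_num) (by norm_num))
    (cube_sqrt_geJ (s := 0.9431) (by norm_num) (by norm_num) (by norm_num) (by norm_num))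
    (by norm_num) (by norm_num) (by norm_num) (by norm_num) (by norm_num) (by norm_num) (by norm_num) (by norm_num) (by norm_num) (by norm_num) (by norm_num) (by norm_num) (by norm_num) (by norm_num) (by norm_num) (by norm_num) (by norm_num) (by norm_num)
    (exp_neg_leJ (r := 0.576) 6 (by norm_num) (by norm_num) (by norm_num) (by norm_num))
    (exp_neg_leJ (r := 0.598) 4 (by norm_num) (by norm_num) (by norm_num) (by norm_num))
    (exp_neg_leJ (r := 0.859) 12 (by norm_num) (by norm_num) (by norm_num) (by norm_num))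
    (exp_neg_leJ (r := 0.99) 14 (by norm_num) (by norm_num) (by norm_num) (by norm_num))
    (exp_neg_leJ (r := 0.068) 7 (by norm_num) (by norm_num) (by norm_num) (by norm_num))
    (exp_neg_leJ (r := 0.99) 14 (by norm_num) (by norm_num) (by norm_num) (by norm_num))
    (exp_neg_leJ (r := 0.99) 14 (by norm_num) (by norm_num) (by norm_num) (by norm_num))
    (exp_neg_leJ (r := 0.99) 14 (by norm_num) (by norm_num) (by norm_num) (by norm_num))
    (by norm_num)) (by norm_num) hN hβ.le (by norm_num)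

private theorem JB6_k0a_c1 {κ t β : ℝ} (h : DomR κ t) (hβ : 0 < β) (hk1 : 0.55 ≤ κ) (hk2 : κ ≤ 0.73)
    (ht1 : -0.45 ≤ t + κ) (ht2 : t + κ ≤ 0.06) (hR0 : β * 10 ≤ κ) (hR : β * (4.95 * (1 + κ ^ 2)) ≤ κ) :
    ‖HH β (sg κ t) - 1‖ ≤ 0.08 := by
  have hN : β * 13.698 ≤ 1 := bNR hβ h.1 hk2 hR0 (by norm_num)
  have hy1 : -0.255 ≤ sy κ t := syL_ge h 0.55 0.73 0.45 0.255 0.77491 0.77492 0.2632 0.27068 0.35929 hk1 hk2 (by linarith) (by norm_num) (by norm_num) (by norm_num)
    (expm_ge (by norm_num) (by norm_num) (by norm_num) (by norm_num)) (expm_le (by norm_num) (by norm_num) (by norm_num)) (by norm_num)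
    (by norm_num) (by norm_num) (by norm_num) (by norm_num) (by norm_num) (by norm_num)
  have hy2 : sy κ t ≤ 0.028 := syR_le h 0.55 0.73 0.06 0.028 1.02839 0.0372 0.03944 0.05236 hk1 hk2 (by linarith) (by norm_num) (by norm_num)
    (expn_ge (by norm_num) (by norm_num)) (by norm_num) (by norm_num) (Or.inr ((mul_le_mul_of_nonneg_left (expn_le (E := 1.0284) (by norm_num) (by norm_num) (by norm_num)) (by norm_num)).trans (by norm_num))) (by norm_num) (by norm_num) (by norm_num)
  rcases le_total (sy κ t) (-0.245) with f0 | g0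
  · have hx1 : 0.6547 ≤ sx κ t := sx_lo h 0.55 (-0.245) 0.255 1.27762 0.6547 hk1 (by norm_num) f0 (abs_le.2 ⟨by linarith, by linarith⟩) (by rw [neg_neg]; exact expn_ge (by norm_num) (by norm_num)) (by norm_num) (by norm_num)
    have hx2 : sx κ t ≤ 0.9097 := sx_hi h 0.73 (-0.255) 0.245 1.29047 0.9097 hk2 hy1 (by norm_num) (by rw [abs_of_nonpos (by linarith)]; linarith) (by rw [neg_neg]; exact expn_le (by norm_num) (by norm_num) (by norm_num)) (by norm_num) (by norm_num)
    exact JB6_k0a_b1_0 hβ hN hx1 hx2 (by linarith) (by linarith)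
  rcases le_total (sy κ t) (-0.22) with f1 | g1
  · have hx1 : 0.64 ≤ sx κ t := sx_lo h 0.55 (-0.22) 0.245 1.24607 0.64 hk1 (by norm_num) f1 (abs_le.2 ⟨by linarith, by linarith⟩) (by rw [neg_neg]; exact expn_ge (by norm_num) (by norm_num)) (by norm_num) (by norm_num)
    have hx2 : sx κ t ≤ 0.9064 := sx_hi h 0.73 (-0.245) 0.22 1.27763 0.9064 hk2 g0 (by norm_num) (by rw [abs_of_nonpos (by linarith)]; linarith) (by rw [neg_neg]; exact expn_le (by norm_num) (by norm_num) (by norm_num)) (by norm_num) (by norm_num)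
    exact JB6_k0a_b1_1 hβ hN hx1 hx2 (by linarith) (by linarith)
  rcases le_total (sy κ t) (-0.155) with f2 | g2
  · have hx1 : 0.6033 ≤ sx κ t := sx_lo h 0.55 (-0.155) 0.22 1.16765 0.6033 hk1 (by norm_num) f2 (abs_le.2 ⟨by linarith, by linarith⟩) (by rw [neg_neg]; exact expn_ge (by norm_num) (by norm_num)) (by norm_num) (by norm_num)
    have hx2 : sx κ t ≤ 0.8964 := sx_hi h 0.73 (-0.22) 0.155 1.24608 0.8964 hk2 g1 (by norm_num) (by rw [abs_of_nonpos (by linarith)]; linarith) (by rw [neg_neg]; exact expn_le (by norm_num) (by norm_num) (by norm_num)) (by norm_num) (by norm_num)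
    exact JB6_k0a_b1_2 hβ hN hx1 hx2 (by linarith) (by linarith)
  have hx1 : 0.5118 ≤ sx κ t := sx_lo h 0.55 0.028 0.155 0.97238 0.5118 hk1 (by norm_num) hy2 (abs_le.2 ⟨by linarith, by linarith⟩) (expm_ge (by norm_num) (by norm_num) (by norm_num) (by norm_num)) (by norm_num) (by norm_num)
  have hx2 : sx κ t ≤ 0.8524 := sx_hi h 0.73 (-0.155) 0 1.16766 0.8524 hk2 g2 (by norm_num) (abs_nonneg _) (by rw [neg_neg]; exact expn_le (by norm_num) (by norm_num) (by norm_num)) (by norm_num) (by norm_num)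
  exact JB6_k0a_b1_3 hβ hN hx1 hx2 (by linarith) (by linarith)

private theorem JB6_k0a_b2_0 {β x y : ℝ} (hβ : 0 < β) (hN : β * 11.627 ≤ 1) (hx1 : 0.8929 ≤ x) (hx2 : x ≤ 1.0845)
    (hy1 : -0.256 ≤ y) (hy2 : y ≤ -0.241) : ‖HH β (x + y * I) - 1‖ ≤ 0.08 := by
  refine le_epsJ (C := 0.9277) (N0 := 11.627) (J_boxp 0.8929 1.0845 0.256 0 (-0.241) 1.157 1.1144 1.3238 0.9246 0.4591 3.4099 11.627 0.9632 3.879 1.552 0.7666 0.5784 0.3927 0.9098 2.6655 0.6488 1.7363 2.6606 3.4686 0.001202 0.01042 0.00002548 0.0000003101 0.00053 0.0000003101 0.0000003101 0.0000003101 0.9277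
    hβ hN hx1 hx2 hy1 hy2 (by norm_num) (by norm_num) (by linarith) (by norm_num) (by norm_num) (by norm_num) (by norm_num) (by norm_num) (by norm_num) (by norm_num) (by norm_num) (by norm_num) (by norm_num) (by norm_num) (by norm_num) (by norm_num) (by norm_num) (by norm_num) (by norm_num) (by norm_num) (by norm_num) (by norm_num) (by norm_num) (by norm_num)
    (cube_sqrt_geJ (s := 0.8239) (by norm_num) (by norm_num) (by norm_num) (by norm_num))
    (cube_sqrt_geJ (s := 0.9391) (by norm_num) (by norm_num) (by norm_num) (by norm_num))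
    (by norm_num) (by norm_num) (by norm_num) (by norm_num) (by norm_num) (by norm_num) (by norm_num) (by norm_num) (by norm_num) (by norm_num) (by norm_num) (by norm_num) (by norm_num) (by norm_num) (by norm_num) (by norm_num) (by norm_num) (by norm_num)
    (exp_neg_leJ (r := 0.725) 6 (by norm_num) (by norm_num) (by norm_num) (by norm_num))
    (exp_neg_leJ (r := 0.565) 4 (by norm_num) (by norm_num) (by norm_num) (by norm_num))
    (exp_neg_leJ (r := 0.578) 10 (by norm_num) (by norm_num) (by norm_num) (by norm_num))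
    (exp_neg_leJ (r := 0.99) 14 (by norm_num) (by norm_num) (by norm_num) (by norm_num))
    (exp_neg_leJ (r := 0.543) 7 (by norm_num) (by norm_num) (by norm_num) (by norm_num))
    (exp_neg_leJ (r := 0.99) 14 (by norm_num) (by norm_num) (by norm_num) (by norm_num))
    (exp_neg_leJ (r := 0.99) 14 (by norm_num) (by norm_num) (by norm_num) (by norm_num))
    (exp_neg_leJ (r := 0.99) 14 (by norm_num) (by norm_num) (by norm_num) (by norm_num))
    (by norm_num)) (by norm_num) hN hβ.le (by norm_num)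

private theorem JB6_k0a_b2_1 {β x y : ℝ} (hβ : 0 < β) (hN : β * 11.627 ≤ 1) (hx1 : 0.8686 ≤ x) (hx2 : x ≤ 1.0739)
    (hy1 : -0.241 ≤ y) (hy2 : y ≤ -0.211) : ‖HH β (x + y * I) - 1‖ ≤ 0.08 := by
  refine le_epsJ (C := 0.9248) (N0 := 11.627) (J_boxp 0.8686 1.0739 0.241 0 (-0.211) 1.1505 1.1007 1.3326 0.9355 0.4606 3.4099 11.627 0.9568 3.836 1.547 0.7846 0.5752 0.3917 0.9252 2.7196 0.6452 1.7026 2.6527 3.4572 0.001248 0.01053 0.00002132 0.0000003101 0.0005527 0.0000003101 0.0000003101 0.0000003101 0.9248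
    hβ hN hx1 hx2 hy1 hy2 (by norm_num) (by norm_num) (by linarith) (by norm_num) (by norm_num) (by norm_num) (by norm_num) (by norm_num) (by norm_num) (by norm_num) (by norm_num) (by norm_num) (by norm_num) (by norm_num) (by norm_num) (by norm_num) (by norm_num) (by norm_num) (by norm_num) (by norm_num) (by norm_num) (by norm_num) (by norm_num) (by norm_num)
    (cube_sqrt_geJ (s := 0.8252) (by norm_num) (by norm_num) (by norm_num) (by norm_num))
    (cube_sqrt_geJ (s := 0.9396) (by norm_num) (by norm_num) (by norm_num) (by norm_num))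
    (by norm_num) (by norm_num) (by norm_num) (by norm_num) (by norm_num) (by norm_num) (by norm_num) (by norm_num) (by norm_num) (by norm_num) (by norm_num) (by norm_num) (by norm_num) (by norm_num) (by norm_num) (by norm_num) (by norm_num) (by norm_num)
    (exp_neg_leJ (r := 0.687) 6 (by norm_num) (by norm_num) (by norm_num) (by norm_num))
    (exp_neg_leJ (r := 0.554) 4 (by norm_num) (by norm_num) (by norm_num) (by norm_num))
    (exp_neg_leJ (r := 0.757) 10 (by norm_num) (by norm_num) (by norm_num) (by norm_num))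
    (exp_neg_leJ (r := 0.99) 14 (by norm_num) (by norm_num) (by norm_num) (by norm_num))
    (exp_neg_leJ (r := 0.501) 7 (by norm_num) (by norm_num) (by norm_num) (by norm_num))
    (exp_neg_leJ (r := 0.99) 14 (by norm_num) (by norm_num) (by norm_num) (by norm_num))
    (exp_neg_leJ (r := 0.99) 14 (by norm_num) (by norm_num) (by norm_num) (by norm_num))
    (exp_neg_leJ (r := 0.99) 14 (by norm_num) (by norm_num) (by norm_num) (by norm_num))
    (by norm_num)) (by norm_num) hN hβ.le (by norm_num)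

private theorem JB6_k0a_b2_2 {β x y : ℝ} (hβ : 0 < β) (hN : β * 11.627 ≤ 1) (hx1 : 0.8179 ≤ x) (hx2 : x ≤ 1.052)
    (hy1 : -0.211 ≤ y) (hy2 : y ≤ -0.146) : ‖HH β (x + y * I) - 1‖ ≤ 0.08 := by
  refine le_epsJ (C := 0.9251) (N0 := 11.627) (J_boxp 0.8179 1.052 0.211 0 (-0.146) 1.1361 1.073 1.355 0.9613 0.4644 3.4099 11.627 0.9445 3.757 1.538 0.8207 0.568 0.3892 0.9552 2.8279 0.637 1.6324 2.6329 3.4311 0.001356 0.01084 0.00001503 0.0000003101 0.0006077 0.0000003101 0.0000003101 0.0000003101 0.9251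
    hβ hN hx1 hx2 hy1 hy2 (by norm_num) (by norm_num) (by linarith) (by norm_num) (by norm_num) (by norm_num) (by norm_num) (by norm_num) (by norm_num) (by norm_num) (by norm_num) (by norm_num) (by norm_num) (by norm_num) (by norm_num) (by norm_num) (by norm_num) (by norm_num) (by norm_num) (by norm_num) (by norm_num) (by norm_num) (by norm_num) (by norm_num)
    (cube_sqrt_geJ (s := 0.8277) (by norm_num) (by norm_num) (by norm_num) (by norm_num))
    (cube_sqrt_geJ (s := 0.9404) (by norm_num) (by norm_num) (by norm_num) (by norm_num))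
    (by norm_num) (by norm_num) (by norm_num) (by norm_num) (by norm_num) (by norm_num) (by norm_num) (by norm_num) (by norm_num) (by norm_num) (by norm_num) (by norm_num) (by norm_num) (by norm_num) (by norm_num) (by norm_num) (by norm_num) (by norm_num)
    (exp_neg_leJ (r := 0.604) 6 (by norm_num) (by norm_num) (by norm_num) (by norm_num))
    (exp_neg_leJ (r := 0.525) 4 (by norm_num) (by norm_num) (by norm_num) (by norm_num))
    (exp_neg_leJ (r := 0.106) 11 (by norm_num) (by norm_num) (by norm_num) (by norm_num))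
    (exp_neg_leJ (r := 0.99) 14 (by norm_num) (by norm_num) (by norm_num) (by norm_num))
    (exp_neg_leJ (r := 0.406) 7 (by norm_num) (by norm_num) (by norm_num) (by norm_num))
    (exp_neg_leJ (r := 0.99) 14 (by norm_num) (by norm_num) (by norm_num) (by norm_num))
    (exp_neg_leJ (r := 0.99) 14 (by norm_num) (by norm_num) (by norm_num) (by norm_num))
    (exp_neg_leJ (r := 0.99) 14 (by norm_num) (by norm_num) (by norm_num) (by norm_num))
    (by norm_num)) (by norm_num) hN hβ.le (by norm_num)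

private theorem JB6_k0a_b2_3 {β x y : ℝ} (hβ : 0 < β) (hN : β * 11.627 ≤ 1) (hx1 : 0.7152 ≤ x) (hx2 : x ≤ 0.9952)
    (hy1 : -0.146 ≤ y) (hy2 : y ≤ 0) : ‖HH β (x + y * I) - 1‖ ≤ 0.08 := by
  refine le_epsJ (C := 0.893) (N0 := 11.627) (J_boxp 0.7152 0.9952 0.146 0 0 1.1099 1.0059 1.4109 1.0159 0.4739 3.4099 11.627 0.9063 3.522 1.51 0.9025 0.5549 0.3872 1.0226 3.0676 0.6226 1.4902 2.6042 3.4081 0.00158 0.0111 0.000006881 0.0000003101 0.0007188 0.0000003101 0.0000003101 0.0000003101 0.893
    hβ hN hx1 hx2 hy1 hy2 (by norm_num) (by norm_num) (by linarith) (by norm_num) (by norm_num) (by norm_num) (by norm_num) (by norm_num) (by norm_num) (by norm_num) (by norm_num) (by norm_num) (by norm_num) (by norm_num) (by norm_num) (by norm_num) (by norm_num) (by norm_num) (by norm_num) (by norm_num) (by norm_num) (by norm_num) (by norm_num) (by norm_num)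
    (cube_sqrt_geJ (s := 0.8354) (by norm_num) (by norm_num) (by norm_num) (by norm_num))
    (cube_sqrt_geJ (s := 0.9428) (by norm_num) (by norm_num) (by norm_num) (by norm_num))
    (by norm_num) (by norm_num) (by norm_num) (by norm_num) (by norm_num) (by norm_num) (by norm_num) (by norm_num) (by norm_num) (by norm_num) (by norm_num) (by norm_num) (by norm_num) (by norm_num) (by norm_num) (by norm_num) (by norm_num) (by norm_num)
    (exp_neg_leJ (r := 0.451) 6 (by norm_num) (by norm_num) (by norm_num) (by norm_num))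
    (exp_neg_leJ (r := 0.501) 4 (by norm_num) (by norm_num) (by norm_num) (by norm_num))
    (exp_neg_leJ (r := 0.889) 11 (by norm_num) (by norm_num) (by norm_num) (by norm_num))
    (exp_neg_leJ (r := 0.99) 14 (by norm_num) (by norm_num) (by norm_num) (by norm_num))
    (exp_neg_leJ (r := 0.238) 7 (by norm_num) (by norm_num) (by norm_num) (by norm_num))
    (exp_neg_leJ (r := 0.99) 14 (by norm_num) (by norm_num) (by norm_num) (by norm_num))
    (exp_neg_leJ (r := 0.99) 14 (by norm_num) (by norm_num) (by norm_num) (by norm_num))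
    (exp_neg_leJ (r := 0.99) 14 (by norm_num) (by norm_num) (by norm_num) (by norm_num))
    (by norm_num)) (by norm_num) hN hβ.le (by norm_num)

private theorem JB6_k0a_b2_4 {β x y : ℝ} (hβ : 0 < β) (hN : β * 11.627 ≤ 1) (hx1 : 0.7077 ≤ x) (hx2 : x ≤ 0.8601)
    (hy1 : -0 ≤ y) (hy2 : y ≤ 0.03) : ‖HH β (x + y * I) - 1‖ ≤ 0.08 := by
  refine le_epsJ (C := 0.4196) (N0 := 11.627) (J_boxp 0.7077 0.8601 0 0.03 0.03 1.2083 0.8607 1.3419 0.8722 0.4622 3.4099 11.627 0.7124 2.583 1.377 1.0893 0.6041 0.4606 1.2505 3.6066 0.6957 1.4768 2.8574 3.6464 0.0008912 0.004725 0.0000004852 0.0000003101 0.0003073 0.0000003101 0.0000003101 0.0000003101 0.4196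
    hβ hN hx1 hx2 hy1 hy2 (by norm_num) (by norm_num) (by linarith) (by norm_num) (by norm_num) (by norm_num) (by norm_num) (by norm_num) (by norm_num) (by norm_num) (by norm_num) (by norm_num) (by norm_num) (by norm_num) (by norm_num) (by norm_num) (by norm_num) (by norm_num) (by norm_num) (by norm_num) (by norm_num) (by norm_num) (by norm_num) (by norm_num)
    (cube_sqrt_geJ (s := 0.8732) (by norm_num) (by norm_num) (by norm_num) (by norm_num))
    (cube_sqrt_geJ (s := 0.9553) (by norm_num) (by norm_num) (by norm_num) (by norm_num))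
    (by norm_num) (by norm_num) (by norm_num) (by norm_num) (by norm_num) (by norm_num) (by norm_num) (by norm_num) (by norm_num) (by norm_num) (by norm_num) (by norm_num) (by norm_num) (by norm_num) (by norm_num) (by norm_num) (by norm_num) (by norm_num)
    (exp_neg_leJ (r := 0.023) 7 (by norm_num) (by norm_num) (by norm_num) (by norm_num))
    (exp_neg_leJ (r := 0.355) 5 (by norm_num) (by norm_num) (by norm_num) (by norm_num))
    (exp_neg_leJ (r := 0.539) 14 (by norm_num) (by norm_num) (by norm_num) (by norm_num))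
    (exp_neg_leJ (r := 0.99) 14 (by norm_num) (by norm_num) (by norm_num) (by norm_num))
    (exp_neg_leJ (r := 0.088) 8 (by norm_num) (by norm_num) (by norm_num) (by norm_num))
    (exp_neg_leJ (r := 0.99) 14 (by norm_num) (by norm_num) (by norm_num) (by norm_num))
    (exp_neg_leJ (r := 0.99) 14 (by norm_num) (by norm_num) (by norm_num) (by norm_num))
    (exp_neg_leJ (r := 0.99) 14 (by norm_num) (by norm_num) (by norm_num) (by norm_num))
    (by norm_num)) (by norm_num) hN hβ.le (by norm_num)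

private theorem JB6_k0a_c2 {κ t β : ℝ} (h : DomR κ t) (hβ : 0 < β) (hk1 : 0.73 ≤ κ) (hk2 : κ ≤ 0.86)
    (ht1 : -0.45 ≤ t + κ) (ht2 : t + κ ≤ 0.06) (hR0 : β * 10 ≤ κ) (hR : β * (4.95 * (1 + κ ^ 2)) ≤ κ) :
    ‖HH β (sg κ t) - 1‖ ≤ 0.08 := by
  have hN : β * 11.627 ≤ 1 := bNR hβ h.1 hk2 hR0 (by norm_num)
  have hy1 : -0.256 ≤ sy κ t := syL_ge h 0.73 0.86 0.45 0.256 0.77414 0.77415 0.2475 0.23044 0.27149 hk1 hk2 (by linarith) (by norm_num) (by norm_num) (by norm_num)
    (expm_ge (by norm_num) (by norm_num) (by norm_num) (by norm_num)) (expm_le (by norm_num) (by norm_num) (by norm_num)) (by norm_num)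
    (by norm_num) (by norm_num) (by norm_num) (by norm_num) (by norm_num) (by norm_num)
  have hy2 : sy κ t ≤ 0.03 := syR_le h 0.73 0.86 0.06 0.03 1.03045 0.0343 0.03594 0.04235 hk1 hk2 (by linarith) (by norm_num) (by norm_num)
    (expn_ge (by norm_num) (by norm_num)) (by norm_num) (by norm_num) (Or.inr ((mul_le_mul_of_nonneg_left (expn_le (E := 1.03046) (by norm_num) (by norm_num) (by norm_num)) (by norm_num)).trans (by norm_num))) (by norm_num) (by norm_num) (by norm_num)
  rcases le_total (sy κ t) (-0.241) with f0 | g0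
  · have hx1 : 0.8929 ≤ sx κ t := sx_lo h 0.73 (-0.241) 0.256 1.27252 0.8929 hk1 (by norm_num) f0 (abs_le.2 ⟨by linarith, by linarith⟩) (by rw [neg_neg]; exact expn_ge (by norm_num) (by norm_num)) (by norm_num) (by norm_num)
    have hx2 : sx κ t ≤ 1.0845 := sx_hi h 0.86 (-0.256) 0.241 1.29176 1.0845 hk2 hy1 (by norm_num) (by rw [abs_of_nonpos (by linarith)]; linarith) (by rw [neg_neg]; exact expn_le (by norm_num) (by norm_num) (by norm_num)) (by norm_num) (by norm_num)
    exact JB6_k0a_b2_0 hβ hN hx1 hx2 (by linarith) (by linarith)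
  rcases le_total (sy κ t) (-0.211) with f1 | g1
  · have hx1 : 0.8686 ≤ sx κ t := sx_lo h 0.73 (-0.211) 0.241 1.23491 0.8686 hk1 (by norm_num) f1 (abs_le.2 ⟨by linarith, by linarith⟩) (by rw [neg_neg]; exact expn_ge (by norm_num) (by norm_num)) (by norm_num) (by norm_num)
    have hx2 : sx κ t ≤ 1.0739 := sx_hi h 0.86 (-0.241) 0.211 1.27253 1.0739 hk2 g0 (by norm_num) (by rw [abs_of_nonpos (by linarith)]; linarith) (by rw [neg_neg]; exact expn_le (by norm_num) (by norm_num) (by norm_num)) (by norm_num) (by norm_num)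
    exact JB6_k0a_b2_1 hβ hN hx1 hx2 (by linarith) (by linarith)
  rcases le_total (sy κ t) (-0.146) with f2 | g2
  · have hx1 : 0.8179 ≤ sx κ t := sx_lo h 0.73 (-0.146) 0.211 1.15719 0.8179 hk1 (by norm_num) f2 (abs_le.2 ⟨by linarith, by linarith⟩) (by rw [neg_neg]; exact expn_ge (by norm_num) (by norm_num)) (by norm_num) (by norm_num)
    have hx2 : sx κ t ≤ 1.052 := sx_hi h 0.86 (-0.211) 0.146 1.23492 1.052 hk2 g1 (by norm_num) (by rw [abs_of_nonpos (by linarith)]; linarith) (by rw [neg_neg]; exact expn_le (by norm_num) (by norm_num) (by norm_num)) (by norm_num) (by norm_num)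
    exact JB6_k0a_b2_2 hβ hN hx1 hx2 (by linarith) (by linarith)
  rcases le_total (sy κ t) 0 with f3 | g3
  · have hx1 : 0.7152 ≤ sx κ t := sx_lo h 0.73 0 0.146 1 0.7152 hk1 (by norm_num) f3 (abs_le.2 ⟨by linarith, by linarith⟩) (by simp) (by norm_num) (by norm_num)
    have hx2 : sx κ t ≤ 0.9952 := sx_hi h 0.86 (-0.146) 0 1.1572 0.9952 hk2 g2 (by norm_num) (abs_nonneg _) (by rw [neg_neg]; exact expn_le (by norm_num) (by norm_num) (by norm_num)) (by norm_num) (by norm_num)
    exact JB6_k0a_b2_3 hβ hN hx1 hx2 (by linarith) (by linarith)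
  have hx1 : 0.7077 ≤ sx κ t := sx_lo h 0.73 0.03 0.03 0.97044 0.7077 hk1 (by norm_num) hy2 (abs_le.2 ⟨by linarith, by linarith⟩) (expm_ge (by norm_num) (by norm_num) (by norm_num) (by norm_num)) (by norm_num) (by norm_num)
  have hx2 : sx κ t ≤ 0.8601 := sx_hi h 0.86 0 0 1 0.8601 hk2 g3 (by norm_num) (abs_nonneg _) (by simp) (by norm_num) (by norm_num)
  exact JB6_k0a_b2_4 hβ hN hx1 hx2 (by linarith) (by linarith)

private theorem JB6_k0a_b3_0 {β x y : ℝ} (hβ : 0 < β) (hN : β * 10.416 ≤ 1) (hx1 : 1.0735 ≤ x) (hx2 : x ≤ 1.2124)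
    (hy1 : -0.254 ≤ y) (hy2 : y ≤ -0.249) : ‖HH β (x + y * I) - 1‖ ≤ 0.08 := by
  refine le_epsJ (C := 0.8238) (N0 := 10.416) (J_boxp 1.0735 1.2124 0.254 0 (-0.249) 1.2856 1.2388 1.4262 0.8193 0.4765 3.2274 10.416 0.9636 3.882 1.552 0.7193 0.6427 0.4363 0.9748 2.5988 0.7376 1.9863 3.0272 3.4916 0.00124 0.01064 0.00003896 0.0000003101 0.0004614 0.0000003101 0.0000003101 0.0000003101 0.8238
    hβ hN hx1 hx2 hy1 hy2 (by norm_num) (by norm_num) (by linarith) (by norm_num) (by norm_num) (by norm_num) (by norm_num) (by norm_num) (by norm_num) (by norm_num) (by norm_num) (by norm_num) (by norm_num) (by norm_num) (by norm_num) (by norm_num) (by norm_num) (by norm_num) (by norm_num) (by norm_num) (by norm_num) (by norm_num) (by norm_num) (by norm_num)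
    (cube_sqrt_geJ (s := 0.8238) (by norm_num) (by norm_num) (by norm_num) (by norm_num))
    (cube_sqrt_geJ (s := 0.9391) (by norm_num) (by norm_num) (by norm_num) (by norm_num))
    (by norm_num) (by norm_num) (by norm_num) (by norm_num) (by norm_num) (by norm_num) (by norm_num) (by norm_num) (by norm_num) (by norm_num) (by norm_num) (by norm_num) (by norm_num) (by norm_num) (by norm_num) (by norm_num) (by norm_num) (by norm_num)
    (exp_neg_leJ (r := 0.694) 6 (by norm_num) (by norm_num) (by norm_num) (by norm_num))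
    (exp_neg_leJ (r := 0.544) 4 (by norm_num) (by norm_num) (by norm_num) (by norm_num))
    (exp_neg_leJ (r := 0.153) 10 (by norm_num) (by norm_num) (by norm_num) (by norm_num))
    (exp_neg_leJ (r := 0.99) 14 (by norm_num) (by norm_num) (by norm_num) (by norm_num))
    (exp_neg_leJ (r := 0.682) 7 (by norm_num) (by norm_num) (by norm_num) (by norm_num))
    (exp_neg_leJ (r := 0.99) 14 (by norm_num) (by norm_num) (by norm_num) (by norm_num))
    (exp_neg_leJ (r := 0.99) 14 (by norm_num) (by norm_num) (by norm_num) (by norm_num))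
    (exp_neg_leJ (r := 0.99) 14 (by norm_num) (by norm_num) (by norm_num) (by norm_num))
    (by norm_num)) (by norm_num) hN hβ.le (by norm_num)

private theorem JB6_k0a_b3_1 {β x y : ℝ} (hβ : 0 < β) (hN : β * 10.416 ≤ 1) (hx1 : 1.0634 ≤ x) (hx2 : x ≤ 1.2081)
    (hy1 : -0.249 ≤ y) (hy2 : y ≤ -0.239) : ‖HH β (x + y * I) - 1‖ ≤ 0.08 := by
  refine le_epsJ (C := 0.8257) (N0 := 10.416) (J_boxp 1.0634 1.2081 0.249 0 (-0.239) 1.282 1.2335 1.4279 0.8233 0.4768 3.2274 10.416 0.9622 3.872 1.551 0.7256 0.6409 0.4354 0.9792 2.6172 0.7355 1.9723 3.0206 3.4858 0.001263 0.01073 0.00003721 0.0000003101 0.0004716 0.0000003101 0.0000003101 0.0000003101 0.8257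
    hβ hN hx1 hx2 hy1 hy2 (by norm_num) (by norm_num) (by linarith) (by norm_num) (by norm_num) (by norm_num) (by norm_num) (by norm_num) (by norm_num) (by norm_num) (by norm_num) (by norm_num) (by norm_num) (by norm_num) (by norm_num) (by norm_num) (by norm_num) (by norm_num) (by norm_num) (by norm_num) (by norm_num) (by norm_num) (by norm_num) (by norm_num)
    (cube_sqrt_geJ (s := 0.8241) (by norm_num) (by norm_num) (by norm_num) (by norm_num))
    (cube_sqrt_geJ (s := 0.9392) (by norm_num) (by norm_num) (by norm_num) (by norm_num))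
    (by norm_num) (by norm_num) (by norm_num) (by norm_num) (by norm_num) (by norm_num) (by norm_num) (by norm_num) (by norm_num) (by norm_num) (by norm_num) (by norm_num) (by norm_num) (by norm_num) (by norm_num) (by norm_num) (by norm_num) (by norm_num)
    (exp_neg_leJ (r := 0.675) 6 (by norm_num) (by norm_num) (by norm_num) (by norm_num))
    (exp_neg_leJ (r := 0.535) 4 (by norm_num) (by norm_num) (by norm_num) (by norm_num))
    (exp_neg_leJ (r := 0.199) 10 (by norm_num) (by norm_num) (by norm_num) (by norm_num))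
    (exp_neg_leJ (r := 0.99) 14 (by norm_num) (by norm_num) (by norm_num) (by norm_num))
    (exp_neg_leJ (r := 0.66) 7 (by norm_num) (by norm_num) (by norm_num) (by norm_num))
    (exp_neg_leJ (r := 0.99) 14 (by norm_num) (by norm_num) (by norm_num) (by norm_num))
    (exp_neg_leJ (r := 0.99) 14 (by norm_num) (by norm_num) (by norm_num) (by norm_num))
    (exp_neg_leJ (r := 0.99) 14 (by norm_num) (by norm_num) (by norm_num) (by norm_num))
    (by norm_num)) (by norm_num) hN hβ.le (by norm_num)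

private theorem JB6_k0a_b3_2 {β x y : ℝ} (hβ : 0 < β) (hN : β * 10.416 ≤ 1) (hx1 : 1.0435 ≤ x) (hx2 : x ≤ 1.1994)
    (hy1 : -0.239 ≤ y) (hy2 : y ≤ -0.219) : ‖HH β (x + y * I) - 1‖ ≤ 0.08 := by
  refine le_epsJ (C := 0.829) (N0 := 10.416) (J_boxp 1.0435 1.1994 0.239 0 (-0.219) 1.2751 1.223 1.4313 0.831 0.4773 3.2274 10.416 0.9592 3.852 1.549 0.7381 0.6375 0.4337 0.9882 2.6541 0.7313 1.9448 3.008 3.4746 0.001308 0.01093 0.00003388 0.0000003101 0.0004923 0.0000003101 0.0000003101 0.0000003101 0.829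
    hβ hN hx1 hx2 hy1 hy2 (by norm_num) (by norm_num) (by linarith) (by norm_num) (by norm_num) (by norm_num) (by norm_num) (by norm_num) (by norm_num) (by norm_num) (by norm_num) (by norm_num) (by norm_num) (by norm_num) (by norm_num) (by norm_num) (by norm_num) (by norm_num) (by norm_num) (by norm_num) (by norm_num) (by norm_num) (by norm_num) (by norm_num)
    (cube_sqrt_geJ (s := 0.8247) (by norm_num) (by norm_num) (by norm_num) (by norm_num))
    (cube_sqrt_geJ (s := 0.9394) (by norm_num) (by norm_num) (by norm_num) (by norm_num))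
    (by norm_num) (by norm_num) (by norm_num) (by norm_num) (by norm_num) (by norm_num) (by norm_num) (by norm_num) (by norm_num) (by norm_num) (by norm_num) (by norm_num) (by norm_num) (by norm_num) (by norm_num) (by norm_num) (by norm_num) (by norm_num)
    (exp_neg_leJ (r := 0.64) 6 (by norm_num) (by norm_num) (by norm_num) (by norm_num))
    (exp_neg_leJ (r := 0.517) 4 (by norm_num) (by norm_num) (by norm_num) (by norm_num))
    (exp_neg_leJ (r := 0.293) 10 (by norm_num) (by norm_num) (by norm_num) (by norm_num))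
    (exp_neg_leJ (r := 0.99) 14 (by norm_num) (by norm_num) (by norm_num) (by norm_num))
    (exp_neg_leJ (r := 0.617) 7 (by norm_num) (by norm_num) (by norm_num) (by norm_num))
    (exp_neg_leJ (r := 0.99) 14 (by norm_num) (by norm_num) (by norm_num) (by norm_num))
    (exp_neg_leJ (r := 0.99) 14 (by norm_num) (by norm_num) (by norm_num) (by norm_num))
    (exp_neg_leJ (r := 0.99) 14 (by norm_num) (by norm_num) (by norm_num) (by norm_num))
    (by norm_num)) (by norm_num) hN hβ.le (by norm_num)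

private theorem JB6_k0a_b3_3 {β x y : ℝ} (hβ : 0 < β) (hN : β * 10.416 ≤ 1) (hx1 : 1.0049 ≤ x) (hx2 : x ≤ 1.1816)
    (hy1 : -0.219 ≤ y) (hy2 : y ≤ -0.179) : ‖HH β (x + y * I) - 1‖ ≤ 0.08 := by
  refine le_epsJ (C := 0.8329) (N0 := 10.416) (J_boxp 1.0049 1.1816 0.219 0 (-0.179) 1.2621 1.2018 1.4389 0.8461 0.4786 3.2274 10.416 0.9523 3.807 1.544 0.7635 0.631 0.4307 1.0065 2.7281 0.7234 1.8913 2.9851 3.455 0.0014 0.01127 0.00002802 0.0000003101 0.0005348 0.0000003101 0.0000003101 0.0000003101 0.8329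
    hβ hN hx1 hx2 hy1 hy2 (by norm_num) (by norm_num) (by linarith) (by norm_num) (by norm_num) (by norm_num) (by norm_num) (by norm_num) (by norm_num) (by norm_num) (by norm_num) (by norm_num) (by norm_num) (by norm_num) (by norm_num) (by norm_num) (by norm_num) (by norm_num) (by norm_num) (by norm_num) (by norm_num) (by norm_num) (by norm_num) (by norm_num)
    (cube_sqrt_geJ (s := 0.8261) (by norm_num) (by norm_num) (by norm_num) (by norm_num))
    (cube_sqrt_geJ (s := 0.9398) (by norm_num) (by norm_num) (by norm_num) (by norm_num))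
    (by norm_num) (by norm_num) (by norm_num) (by norm_num) (by norm_num) (by norm_num) (by norm_num) (by norm_num) (by norm_num) (by norm_num) (by norm_num) (by norm_num) (by norm_num) (by norm_num) (by norm_num) (by norm_num) (by norm_num) (by norm_num)
    (exp_neg_leJ (r := 0.572) 6 (by norm_num) (by norm_num) (by norm_num) (by norm_num))
    (exp_neg_leJ (r := 0.486) 4 (by norm_num) (by norm_num) (by norm_num) (by norm_num))
    (exp_neg_leJ (r := 0.483) 10 (by norm_num) (by norm_num) (by norm_num) (by norm_num))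
    (exp_neg_leJ (r := 0.99) 14 (by norm_num) (by norm_num) (by norm_num) (by norm_num))
    (exp_neg_leJ (r := 0.534) 7 (by norm_num) (by norm_num) (by norm_num) (by norm_num))
    (exp_neg_leJ (r := 0.99) 14 (by norm_num) (by norm_num) (by norm_num) (by norm_num))
    (exp_neg_leJ (r := 0.99) 14 (by norm_num) (by norm_num) (by norm_num) (by norm_num))
    (exp_neg_leJ (r := 0.99) 14 (by norm_num) (by norm_num) (by norm_num) (by norm_num))
    (by norm_num)) (by norm_num) hN hβ.le (by norm_num)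

private theorem JB6_k0a_b3_4 {β x y : ℝ} (hβ : 0 < β) (hN : β * 10.416 ≤ 1) (hx1 : 0.9324 ≤ x) (hx2 : x ≤ 1.144)
    (hy1 : -0.179 ≤ y) (hy2 : y ≤ -0.099) : ‖HH β (x + y * I) - 1‖ ≤ 0.08 := by
  refine le_epsJ (C := 0.8279) (N0 := 10.416) (J_boxp 0.9324 1.144 0.179 0 (-0.099) 1.2395 1.158 1.4563 0.8745 0.4815 3.2274 10.416 0.9343 3.692 1.53 0.8148 0.6197 0.4267 1.0449 2.8771 0.7101 1.791 2.9489 3.4291 0.001575 0.01176 0.00001882 0.0000003101 0.0006138 0.0000003101 0.0000003101 0.0000003101 0.8279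
    hβ hN hx1 hx2 hy1 hy2 (by norm_num) (by norm_num) (by linarith) (by norm_num) (by norm_num) (by norm_num) (by norm_num) (by norm_num) (by norm_num) (by norm_num) (by norm_num) (by norm_num) (by norm_num) (by norm_num) (by norm_num) (by norm_num) (by norm_num) (by norm_num) (by norm_num) (by norm_num) (by norm_num) (by norm_num) (by norm_num) (by norm_num)
    (cube_sqrt_geJ (s := 0.8297) (by norm_num) (by norm_num) (by norm_num) (by norm_num))
    (cube_sqrt_geJ (s := 0.941) (by norm_num) (by norm_num) (by norm_num) (by norm_num))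
    (by norm_num) (by norm_num) (by norm_num) (by norm_num) (by norm_num) (by norm_num) (by norm_num) (by norm_num) (by norm_num) (by norm_num) (by norm_num) (by norm_num) (by norm_num) (by norm_num) (by norm_num) (by norm_num) (by norm_num) (by norm_num)
    (exp_neg_leJ (r := 0.454) 6 (by norm_num) (by norm_num) (by norm_num) (by norm_num))
    (exp_neg_leJ (r := 0.444) 4 (by norm_num) (by norm_num) (by norm_num) (by norm_num))
    (exp_neg_leJ (r := 0.883) 10 (by norm_num) (by norm_num) (by norm_num) (by norm_num))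
    (exp_neg_leJ (r := 0.99) 14 (by norm_num) (by norm_num) (by norm_num) (by norm_num))
    (exp_neg_leJ (r := 0.396) 7 (by norm_num) (by norm_num) (by norm_num) (by norm_num))
    (exp_neg_leJ (r := 0.99) 14 (by norm_num) (by norm_num) (by norm_num) (by norm_num))
    (exp_neg_leJ (r := 0.99) 14 (by norm_num) (by norm_num) (by norm_num) (by norm_num))
    (exp_neg_leJ (r := 0.99) 14 (by norm_num) (by norm_num) (by norm_num) (by norm_num))
    (by norm_num)) (by norm_num) hN hβ.le (by norm_num)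

private theorem JB6_k0a_b3_5 {β x y : ℝ} (hβ : 0 < β) (hN : β * 10.416 ≤ 1) (hx1 : 0.8286 ≤ x) (hx2 : x ≤ 1.06)
    (hy1 : -0.099 ≤ y) (hy2 : y ≤ 0.03) : ‖HH β (x + y * I) - 1‖ ≤ 0.08 := by
  refine le_epsJ (C := 0.7211) (N0 := 10.416) (J_boxp 0.8286 1.06 0.099 0.03 0.03 1.2232 1.0647 1.4781 0.8987 0.4851 3.2274 10.416 0.8705 3.319 1.484 0.921 0.6115 0.4341 1.1356 3.1792 0.7003 1.6442 2.8301 3.3337 0.001714 0.01089 0.00000731 0.0000003101 0.0006797 0.0000003101 0.0000003101 0.0000003101 0.7211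
    hβ hN hx1 hx2 hy1 hy2 (by norm_num) (by norm_num) (by linarith) (by norm_num) (by norm_num) (by norm_num) (by norm_num) (by norm_num) (by norm_num) (by norm_num) (by norm_num) (by norm_num) (by norm_num) (by norm_num) (by norm_num) (by norm_num) (by norm_num) (by norm_num) (by norm_num) (by norm_num) (by norm_num) (by norm_num) (by norm_num) (by norm_num)
    (cube_sqrt_geJ (s := 0.8425) (by norm_num) (by norm_num) (by norm_num) (by norm_num))
    (cube_sqrt_geJ (s := 0.9452) (by norm_num) (by norm_num) (by norm_num) (by norm_num))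
    (by norm_num) (by norm_num) (by norm_num) (by norm_num) (by norm_num) (by norm_num) (by norm_num) (by norm_num) (by norm_num) (by norm_num) (by norm_num) (by norm_num) (by norm_num) (by norm_num) (by norm_num) (by norm_num) (by norm_num) (by norm_num)
    (exp_neg_leJ (r := 0.369) 6 (by norm_num) (by norm_num) (by norm_num) (by norm_num))
    (exp_neg_leJ (r := 0.521) 4 (by norm_num) (by norm_num) (by norm_num) (by norm_num))
    (exp_neg_leJ (r := 0.828) 11 (by norm_num) (by norm_num) (by norm_num) (by norm_num))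
    (exp_neg_leJ (r := 0.99) 14 (by norm_num) (by norm_num) (by norm_num) (by norm_num))
    (exp_neg_leJ (r := 0.294) 7 (by norm_num) (by norm_num) (by norm_num) (by norm_num))
    (exp_neg_leJ (r := 0.99) 14 (by norm_num) (by norm_num) (by norm_num) (by norm_num))
    (exp_neg_leJ (r := 0.99) 14 (by norm_num) (by norm_num) (by norm_num) (by norm_num))
    (exp_neg_leJ (r := 0.99) 14 (by norm_num) (by norm_num) (by norm_num) (by norm_num))
    (by norm_num)) (by norm_num) hN hβ.le (by norm_num)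

private theorem JB6_k0a_c3 {κ t β : ℝ} (h : DomR κ t) (hβ : 0 < β) (hk1 : 0.86 ≤ κ) (hk2 : κ ≤ 0.96)
    (ht1 : -0.45 ≤ t + κ) (ht2 : t + κ ≤ 0.06) (hR0 : β * 10 ≤ κ) (hR : β * (4.95 * (1 + κ ^ 2)) ≤ κ) :
    ‖HH β (sg κ t) - 1‖ ≤ 0.08 := by
  have hN : β * 10.416 ≤ 1 := bNR hβ h.1 hk2 hR0 (by norm_num)
  have hy1 : -0.254 ≤ sy κ t := syL_ge h 0.86 0.96 0.45 0.254 0.77569 0.7757 0.2251 0.20523 0.22911 hk1 hk2 (by linarith) (by norm_num) (by norm_num) (by norm_num)
    (expm_ge (by norm_num) (by norm_num) (by norm_num) (by norm_num)) (expm_le (by norm_num) (by norm_num) (by norm_num)) (by norm_num)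
    (by norm_num) (by norm_num) (by norm_num) (by norm_num) (by norm_num) (by norm_num)
  have hy2 : sy κ t ≤ 0.03 := syR_le h 0.86 0.96 0.06 0.03 1.03045 0.0312 0.0322 0.03595 hk1 hk2 (by linarith) (by norm_num) (by norm_num)
    (expn_ge (by norm_num) (by norm_num)) (by norm_num) (by norm_num) (Or.inr ((mul_le_mul_of_nonneg_left (expn_le (E := 1.03046) (by norm_num) (by norm_num) (by norm_num)) (by norm_num)).trans (by norm_num))) (by norm_num) (by norm_num) (by norm_num)
  rcases le_total (sy κ t) (-0.249) with f0 | g0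
  · have hx1 : 1.0735 ≤ sx κ t := sx_lo h 0.86 (-0.249) 0.254 1.28274 1.0735 hk1 (by norm_num) f0 (abs_le.2 ⟨by linarith, by linarith⟩) (by rw [neg_neg]; exact expn_ge (by norm_num) (by norm_num)) (by norm_num) (by norm_num)
    have hx2 : sx κ t ≤ 1.2124 := sx_hi h 0.96 (-0.254) 0.249 1.28918 1.2124 hk2 hy1 (by norm_num) (by rw [abs_of_nonpos (by linarith)]; linarith) (by rw [neg_neg]; exact expn_le (by norm_num) (by norm_num) (by norm_num)) (by norm_num) (by norm_num)
    exact JB6_k0a_b3_0 hβ hN hx1 hx2 (by linarith) (by linarith)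
  rcases le_total (sy κ t) (-0.239) with f1 | g1
  · have hx1 : 1.0634 ≤ sx κ t := sx_lo h 0.86 (-0.239) 0.249 1.26997 1.0634 hk1 (by norm_num) f1 (abs_le.2 ⟨by linarith, by linarith⟩) (by rw [neg_neg]; exact expn_ge (by norm_num) (by norm_num)) (by norm_num) (by norm_num)
    have hx2 : sx κ t ≤ 1.2081 := sx_hi h 0.96 (-0.249) 0.239 1.28275 1.2081 hk2 g0 (by norm_num) (by rw [abs_of_nonpos (by linarith)]; linarith) (by rw [neg_neg]; exact expn_le (by norm_num) (by norm_num) (by norm_num)) (by norm_num) (by norm_num)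
    exact JB6_k0a_b3_1 hβ hN hx1 hx2 (by linarith) (by linarith)
  rcases le_total (sy κ t) (-0.219) with f2 | g2
  · have hx1 : 1.0435 ≤ sx κ t := sx_lo h 0.86 (-0.219) 0.239 1.24483 1.0435 hk1 (by norm_num) f2 (abs_le.2 ⟨by linarith, by linarith⟩) (by rw [neg_neg]; exact expn_ge (by norm_num) (by norm_num)) (by norm_num) (by norm_num)
    have hx2 : sx κ t ≤ 1.1994 := sx_hi h 0.96 (-0.239) 0.219 1.26998 1.1994 hk2 g1 (by norm_num) (by rw [abs_of_nonpos (by linarith)]; linarith) (by rw [neg_neg]; exact expn_le (by norm_num) (by norm_num) (by norm_num)) (by norm_num) (by norm_num)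
    exact JB6_k0a_b3_2 hβ hN hx1 hx2 (by linarith) (by linarith)
  rcases le_total (sy κ t) (-0.179) with f3 | g3
  · have hx1 : 1.0049 ≤ sx κ t := sx_lo h 0.86 (-0.179) 0.219 1.19602 1.0049 hk1 (by norm_num) f3 (abs_le.2 ⟨by linarith, by linarith⟩) (by rw [neg_neg]; exact expn_ge (by norm_num) (by norm_num)) (by norm_num) (by norm_num)
    have hx2 : sx κ t ≤ 1.1816 := sx_hi h 0.96 (-0.219) 0.179 1.24484 1.1816 hk2 g2 (by norm_num) (by rw [abs_of_nonpos (by linarith)]; linarith) (by rw [neg_neg]; exact expn_le (by norm_num) (by norm_num) (by norm_num)) (by norm_num) (by norm_num)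
    exact JB6_k0a_b3_3 hβ hN hx1 hx2 (by linarith) (by linarith)
  rcases le_total (sy κ t) (-0.099) with f4 | g4
  · have hx1 : 0.9324 ≤ sx κ t := sx_lo h 0.86 (-0.099) 0.179 1.10406 0.9324 hk1 (by norm_num) f4 (abs_le.2 ⟨by linarith, by linarith⟩) (by rw [neg_neg]; exact expn_ge (by norm_num) (by norm_num)) (by norm_num) (by norm_num)
    have hx2 : sx κ t ≤ 1.144 := sx_hi h 0.96 (-0.179) 0.099 1.19603 1.144 hk2 g3 (by norm_num) (by rw [abs_of_nonpos (by linarith)]; linarith) (by rw [neg_neg]; exact expn_le (by norm_num) (by norm_num) (by norm_num)) (by norm_num) (by norm_num)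
    exact JB6_k0a_b3_4 hβ hN hx1 hx2 (by linarith) (by linarith)
  have hx1 : 0.8286 ≤ sx κ t := sx_lo h 0.86 0.03 0.099 0.97044 0.8286 hk1 (by norm_num) hy2 (abs_le.2 ⟨by linarith, by linarith⟩) (expm_ge (by norm_num) (by norm_num) (by norm_num) (by norm_num)) (by norm_num) (by norm_num)
  have hx2 : sx κ t ≤ 1.06 := sx_hi h 0.96 (-0.099) 0 1.10407 1.06 hk2 g4 (by norm_num) (abs_nonneg _) (by rw [neg_neg]; exact expn_le (by norm_num) (by norm_num) (by norm_num)) (by norm_num) (by norm_num)
  exact JB6_k0a_b3_5 hβ hN hx1 hx2 (by linarith) (by linarith)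

private theorem JB6_k0a_b4_0 {β x y : ℝ} (hβ : 0 < β) (hN : β * 9.999 ≤ 1) (hx1 : 1.1455 ≤ x) (hx2 : x ≤ 1.2684)
    (hy1 : -0.25 ≤ y) (hy2 : y ≤ -0.2) : ‖HH β (x + y * I) - 1‖ ≤ 0.08 := by
  refine le_epsJ (C := 0.7986) (N0 := 9.999) (J_boxp 1.1455 1.2684 0.25 0 (-0.2) 1.3391 1.2929 1.4997 0.7903 0.4886 3.1622 9.999 0.9655 3.894 1.554 0.7015 0.6695 0.454 1.0057 2.5795 0.7748 2.086 3.1821 3.4886 0.00124 0.01069 0.00004298 0.0000003101 0.0004325 0.0000003101 0.0000003101 0.0000003101 0.7986
    hβ hN hx1 hx2 hy1 hy2 (by norm_num) (by norm_num) (by linarith) (by norm_num) (by norm_num) (by norm_num) (by norm_num) (by norm_num) (by norm_num) (by norm_num) (by norm_num) (by norm_num) (by norm_num) (by norm_num) (by norm_num) (by norm_num) (by norm_num) (by norm_num) (by norm_num) (by norm_num) (by norm_num) (by norm_num) (by norm_num) (by norm_num)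
    (cube_sqrt_geJ (s := 0.8235) (by norm_num) (by norm_num) (by norm_num) (by norm_num))
    (cube_sqrt_geJ (s := 0.939) (by norm_num) (by norm_num) (by norm_num) (by norm_num))
    (by norm_num) (by norm_num) (by norm_num) (by norm_num) (by norm_num) (by norm_num) (by norm_num) (by norm_num) (by norm_num) (by norm_num) (by norm_num) (by norm_num) (by norm_num) (by norm_num) (by norm_num) (by norm_num) (by norm_num) (by norm_num)
    (exp_neg_leJ (r := 0.694) 6 (by norm_num) (by norm_num) (by norm_num) (by norm_num))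
    (exp_neg_leJ (r := 0.539) 4 (by norm_num) (by norm_num) (by norm_num) (by norm_num))
    (exp_neg_leJ (r := 0.055) 10 (by norm_num) (by norm_num) (by norm_num) (by norm_num))
    (exp_neg_leJ (r := 0.99) 14 (by norm_num) (by norm_num) (by norm_num) (by norm_num))
    (exp_neg_leJ (r := 0.747) 7 (by norm_num) (by norm_num) (by norm_num) (by norm_num))
    (exp_neg_leJ (r := 0.99) 14 (by norm_num) (by norm_num) (by norm_num) (by norm_num))
    (exp_neg_leJ (r := 0.99) 14 (by norm_num) (by norm_num) (by norm_num) (by norm_num))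
    (exp_neg_leJ (r := 0.99) 14 (by norm_num) (by norm_num) (by norm_num) (by norm_num))
    (by norm_num)) (by norm_num) hN hβ.le (by norm_num)

private theorem JB6_k0a_b4_1 {β x y : ℝ} (hβ : 0 < β) (hN : β * 9.999 ≤ 1) (hx1 : 1.0473 ≤ x) (hx2 : x ≤ 1.2169)
    (hy1 : -0.2 ≤ y) (hy2 : y ≤ -0.105) : ‖HH β (x + y * I) - 1‖ ≤ 0.08 := by
  refine le_epsJ (C := 0.7976) (N0 := 9.999) (J_boxp 1.0473 1.2169 0.2 0 (-0.105) 1.3054 1.2333 1.5106 0.8241 0.4904 3.1622 9.999 0.9448 3.759 1.538 0.7674 0.6526 0.4471 1.051 2.7684 0.7544 1.9501 3.1216 3.4542 0.001467 0.01145 0.00002733 0.0000003101 0.00053 0.0000003101 0.0000003101 0.0000003101 0.7976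
    hβ hN hx1 hx2 hy1 hy2 (by norm_num) (by norm_num) (by linarith) (by norm_num) (by norm_num) (by norm_num) (by norm_num) (by norm_num) (by norm_num) (by norm_num) (by norm_num) (by norm_num) (by norm_num) (by norm_num) (by norm_num) (by norm_num) (by norm_num) (by norm_num) (by norm_num) (by norm_num) (by norm_num) (by norm_num) (by norm_num) (by norm_num)
    (cube_sqrt_geJ (s := 0.8276) (by norm_num) (by norm_num) (by norm_num) (by norm_num))
    (cube_sqrt_geJ (s := 0.9403) (by norm_num) (by norm_num) (by norm_num) (by norm_num))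
    (by norm_num) (by norm_num) (by norm_num) (by norm_num) (by norm_num) (by norm_num) (by norm_num) (by norm_num) (by norm_num) (by norm_num) (by norm_num) (by norm_num) (by norm_num) (by norm_num) (by norm_num) (by norm_num) (by norm_num) (by norm_num)
    (exp_neg_leJ (r := 0.525) 6 (by norm_num) (by norm_num) (by norm_num) (by norm_num))
    (exp_neg_leJ (r := 0.47) 4 (by norm_num) (by norm_num) (by norm_num) (by norm_num))
    (exp_neg_leJ (r := 0.508) 10 (by norm_num) (by norm_num) (by norm_num) (by norm_num))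
    (exp_neg_leJ (r := 0.99) 14 (by norm_num) (by norm_num) (by norm_num) (by norm_num))
    (exp_neg_leJ (r := 0.543) 7 (by norm_num) (by norm_num) (by norm_num) (by norm_num))
    (exp_neg_leJ (r := 0.99) 14 (by norm_num) (by norm_num) (by norm_num) (by norm_num))
    (exp_neg_leJ (r := 0.99) 14 (by norm_num) (by norm_num) (by norm_num) (by norm_num))
    (exp_neg_leJ (r := 0.99) 14 (by norm_num) (by norm_num) (by norm_num) (by norm_num))
    (by norm_num)) (by norm_num) hN hβ.le (by norm_num)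

private theorem JB6_k0a_b4_2 {β x y : ℝ} (hβ : 0 < β) (hN : β * 9.999 ≤ 1) (hx1 : 0.9256 ≤ x) (hx2 : x ≤ 1.1108)
    (hy1 : -0.105 ≤ y) (hy2 : y ≤ 0.03) : ‖HH β (x + y * I) - 1‖ ≤ 0.08 := by
  refine le_epsJ (C := 0.6651) (N0 := 9.999) (J_boxp 0.9256 1.1108 0.105 0.03 0.03 1.2872 1.1158 1.5149 0.8428 0.4911 3.1622 9.999 0.8669 3.3 1.482 0.8959 0.6435 0.4576 1.1593 3.1309 0.7441 1.7785 3.0078 3.3888 0.001607 0.01031 0.000009253 0.0000003101 0.0005874 0.0000003101 0.0000003101 0.0000003101 0.6651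
    hβ hN hx1 hx2 hy1 hy2 (by norm_num) (by norm_num) (by linarith) (by norm_num) (by norm_num) (by norm_num) (by norm_num) (by norm_num) (by norm_num) (by norm_num) (by norm_num) (by norm_num) (by norm_num) (by norm_num) (by norm_num) (by norm_num) (by norm_num) (by norm_num) (by norm_num) (by norm_num) (by norm_num) (by norm_num) (by norm_num) (by norm_num)
    (cube_sqrt_geJ (s := 0.8432) (by norm_num) (by norm_num) (by norm_num) (by norm_num))
    (cube_sqrt_geJ (s := 0.9454) (by norm_num) (by norm_num) (by norm_num) (by norm_num))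
    (by norm_num) (by norm_num) (by norm_num) (by norm_num) (by norm_num) (by norm_num) (by norm_num) (by norm_num) (by norm_num) (by norm_num) (by norm_num) (by norm_num) (by norm_num) (by norm_num) (by norm_num) (by norm_num) (by norm_num) (by norm_num)
    (exp_neg_leJ (r := 0.434) 6 (by norm_num) (by norm_num) (by norm_num) (by norm_num))
    (exp_neg_leJ (r := 0.575) 4 (by norm_num) (by norm_num) (by norm_num) (by norm_num))
    (exp_neg_leJ (r := 0.591) 11 (by norm_num) (by norm_num) (by norm_num) (by norm_num))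
    (exp_neg_leJ (r := 0.99) 14 (by norm_num) (by norm_num) (by norm_num) (by norm_num))
    (exp_neg_leJ (r := 0.44) 7 (by norm_num) (by norm_num) (by norm_num) (by norm_num))
    (exp_neg_leJ (r := 0.99) 14 (by norm_num) (by norm_num) (by norm_num) (by norm_num))
    (exp_neg_leJ (r := 0.99) 14 (by norm_num) (by norm_num) (by norm_num) (by norm_num))
    (exp_neg_leJ (r := 0.99) 14 (by norm_num) (by norm_num) (by norm_num) (by norm_num))
    (by norm_num)) (by norm_num) hN hβ.le (by norm_num)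

private theorem JB6_k0a_c4 {κ t β : ℝ} (h : DomR κ t) (hβ : 0 < β) (hk1 : 0.96 ≤ κ) (hk2 : κ ≤ 1)
    (ht1 : -0.45 ≤ t + κ) (ht2 : t + κ ≤ 0.06) (hR0 : β * 10 ≤ κ) (hR : β * (4.95 * (1 + κ ^ 2)) ≤ κ) :
    ‖HH β (sg κ t) - 1‖ ≤ 0.08 := by
  have hN : β * 9.999 ≤ 1 := bNR hβ h.1 hk2 hR0 (by norm_num)
  have hy1 : -0.25 ≤ sy κ t := syL_ge h 0.96 1 0.45 0.25 0.7788 0.77881 0.1926 0.19469 0.20282 hk1 hk2 (by linarith) (by norm_num) (by norm_num) (by norm_num)
    (expm_ge (by norm_num) (by norm_num) (by norm_num) (by norm_num)) (expm_le (by norm_num) (by norm_num) (by norm_num)) (by norm_num)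
    (by norm_num) (by norm_num) (by norm_num) (by norm_num) (by norm_num) (by norm_num)
  have hy2 : sy κ t ≤ 0.03 := syR_le h 0.96 1 0.06 0.03 1.03045 0.0305 0.03091 0.03221 hk1 hk2 (by linarith) (by norm_num) (by norm_num)
    (expn_ge (by norm_num) (by norm_num)) (by norm_num) (by norm_num) (Or.inr ((mul_le_mul_of_nonneg_left (expn_le (E := 1.03046) (by norm_num) (by norm_num) (by norm_num)) (by norm_num)).trans (by norm_num))) (by norm_num) (by norm_num) (by norm_num)
  rcases le_total (sy κ t) (-0.2) with f0 | g0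
  · have hx1 : 1.1455 ≤ sx κ t := sx_lo h 0.96 (-0.2) 0.25 1.2214 1.1455 hk1 (by norm_num) f0 (abs_le.2 ⟨by linarith, by linarith⟩) (by rw [neg_neg]; exact expn_ge (by norm_num) (by norm_num)) (by norm_num) (by norm_num)
    have hx2 : sx κ t ≤ 1.2684 := sx_hi h 1 (-0.25) 0.2 1.28403 1.2684 hk2 hy1 (by norm_num) (by rw [abs_of_nonpos (by linarith)]; linarith) (by rw [neg_neg]; exact expn_le (by norm_num) (by norm_num) (by norm_num)) (by norm_num) (by norm_num)
    exact JB6_k0a_b4_0 hβ hN hx1 hx2 (by linarith) (by linarith)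
  rcases le_total (sy κ t) (-0.105) with f1 | g1
  · have hx1 : 1.0473 ≤ sx κ t := sx_lo h 0.96 (-0.105) 0.2 1.11071 1.0473 hk1 (by norm_num) f1 (abs_le.2 ⟨by linarith, by linarith⟩) (by rw [neg_neg]; exact expn_ge (by norm_num) (by norm_num)) (by norm_num) (by norm_num)
    have hx2 : sx κ t ≤ 1.2169 := sx_hi h 1 (-0.2) 0.105 1.22141 1.2169 hk2 g0 (by norm_num) (by rw [abs_of_nonpos (by linarith)]; linarith) (by rw [neg_neg]; exact expn_le (by norm_num) (by norm_num) (by norm_num)) (by norm_num) (by norm_num)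
    exact JB6_k0a_b4_1 hβ hN hx1 hx2 (by linarith) (by linarith)
  have hx1 : 0.9256 ≤ sx κ t := sx_lo h 0.96 0.03 0.105 0.97044 0.9256 hk1 (by norm_num) hy2 (abs_le.2 ⟨by linarith, by linarith⟩) (expm_ge (by norm_num) (by norm_num) (by norm_num) (by norm_num)) (by norm_num) (by norm_num)
  have hx2 : sx κ t ≤ 1.1108 := sx_hi h 1 (-0.105) 0 1.11072 1.1108 hk2 g1 (by norm_num) (abs_nonneg _) (by rw [neg_neg]; exact expn_le (by norm_num) (by norm_num) (by norm_num)) (by norm_num) (by norm_num)
  exact JB6_k0a_b4_2 hβ hN hx1 hx2 (by linarith) (by linarith)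

private theorem JB6_k0a_b5_0 {β x y : ℝ} (hβ : 0 < β) (hN : β * 9.899 ≤ 1) (hx1 : 1.2366 ≤ x) (hx2 : x ≤ 1.363)
    (hy1 : -0.247 ≤ y) (hy2 : y ≤ -0.232) : ‖HH β (x + y * I) - 1‖ ≤ 0.08 := by
  refine le_epsJ (C := 0.7867) (N0 := 9.899) (J_boxp 1.2366 1.363 0.247 0 (-0.232) 1.4054 1.3852 1.5645 0.7508 0.499 3.1463 9.899 0.9857 4.032 1.569 0.6678 0.7026 0.4718 1.0417 2.5348 0.8207 2.2122 3.3724 3.4199 0.0009568 0.009379 0.00003327 0.0000003101 0.0002964 0.0000003101 0.0000003101 0.0000003101 0.7867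
    hβ hN hx1 hx2 hy1 hy2 (by norm_num) (by norm_num) (by linarith) (by norm_num) (by norm_num) (by norm_num) (by norm_num) (by norm_num) (by norm_num) (by norm_num) (by norm_num) (by norm_num) (by norm_num) (by norm_num) (by norm_num) (by norm_num) (by norm_num) (by norm_num) (by norm_num) (by norm_num) (by norm_num) (by norm_num) (by norm_num) (by norm_num)
    (cube_sqrt_geJ (s := 0.8194) (by norm_num) (by norm_num) (by norm_num) (by norm_num))
    (cube_sqrt_geJ (s := 0.9377) (by norm_num) (by norm_num) (by norm_num) (by norm_num))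
    (by norm_num) (by norm_num) (by norm_num) (by norm_num) (by norm_num) (by norm_num) (by norm_num) (by norm_num) (by norm_num) (by norm_num) (by norm_num) (by norm_num) (by norm_num) (by norm_num) (by norm_num) (by norm_num) (by norm_num) (by norm_num)
    (exp_neg_leJ (r := 0.955) 6 (by norm_num) (by norm_num) (by norm_num) (by norm_num))
    (exp_neg_leJ (r := 0.67) 4 (by norm_num) (by norm_num) (by norm_num) (by norm_num))
    (exp_neg_leJ (r := 0.311) 10 (by norm_num) (by norm_num) (by norm_num) (by norm_num))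
    (exp_neg_leJ (r := 0.99) 14 (by norm_num) (by norm_num) (by norm_num) (by norm_num))
    (exp_neg_leJ (r := 0.124) 8 (by norm_num) (by norm_num) (by norm_num) (by norm_num))
    (exp_neg_leJ (r := 0.99) 14 (by norm_num) (by norm_num) (by norm_num) (by norm_num))
    (exp_neg_leJ (r := 0.99) 14 (by norm_num) (by norm_num) (by norm_num) (by norm_num))
    (exp_neg_leJ (r := 0.99) 14 (by norm_num) (by norm_num) (by norm_num) (by norm_num))
    (by norm_num)) (by norm_num) hN hβ.le (by norm_num)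

private theorem JB6_k0a_b5_1 {β x y : ℝ} (hβ : 0 < β) (hN : β * 9.899 ≤ 1) (hx1 : 1.2079 ≤ x) (hx2 : x ≤ 1.3462)
    (hy1 : -0.232 ≤ y) (hy2 : y ≤ -0.207) : ‖HH β (x + y * I) - 1‖ ≤ 0.08 := by
  refine le_epsJ (C := 0.7821) (N0 := 9.899) (J_boxp 1.2079 1.3462 0.232 0 (-0.207) 1.3958 1.3661 1.5625 0.7581 0.4987 3.1463 9.899 0.9788 3.984 1.564 0.6881 0.6978 0.4701 1.0555 2.5922 0.8149 2.1724 3.3558 3.4144 0.001004 0.009539 0.00002901 0.0000003101 0.0003141 0.0000003101 0.0000003101 0.0000003101 0.7821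
    hβ hN hx1 hx2 hy1 hy2 (by norm_num) (by norm_num) (by linarith) (by norm_num) (by norm_num) (by norm_num) (by norm_num) (by norm_num) (by norm_num) (by norm_num) (by norm_num) (by norm_num) (by norm_num) (by norm_num) (by norm_num) (by norm_num) (by norm_num) (by norm_num) (by norm_num) (by norm_num) (by norm_num) (by norm_num) (by norm_num) (by norm_num)
    (cube_sqrt_geJ (s := 0.8208) (by norm_num) (by norm_num) (by norm_num) (by norm_num))
    (cube_sqrt_geJ (s := 0.9381) (by norm_num) (by norm_num) (by norm_num) (by norm_num))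
    (by norm_num) (by norm_num) (by norm_num) (by norm_num) (by norm_num) (by norm_num) (by norm_num) (by norm_num) (by norm_num) (by norm_num) (by norm_num) (by norm_num) (by norm_num) (by norm_num) (by norm_num) (by norm_num) (by norm_num) (by norm_num)
    (exp_neg_leJ (r := 0.907) 6 (by norm_num) (by norm_num) (by norm_num) (by norm_num))
    (exp_neg_leJ (r := 0.653) 4 (by norm_num) (by norm_num) (by norm_num) (by norm_num))
    (exp_neg_leJ (r := 0.448) 10 (by norm_num) (by norm_num) (by norm_num) (by norm_num))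
    (exp_neg_leJ (r := 0.99) 14 (by norm_num) (by norm_num) (by norm_num) (by norm_num))
    (exp_neg_leJ (r := 0.066) 8 (by norm_num) (by norm_num) (by norm_num) (by norm_num))
    (exp_neg_leJ (r := 0.99) 14 (by norm_num) (by norm_num) (by norm_num) (by norm_num))
    (exp_neg_leJ (r := 0.99) 14 (by norm_num) (by norm_num) (by norm_num) (by norm_num))
    (exp_neg_leJ (r := 0.99) 14 (by norm_num) (by norm_num) (by norm_num) (by norm_num))
    (by norm_num)) (by norm_num) hN hβ.le (by norm_num)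

private theorem JB6_k0a_b5_2 {β x y : ℝ} (hβ : 0 < β) (hN : β * 9.899 ≤ 1) (hx1 : 1.1574 ≤ x) (hx2 : x ≤ 1.3185)
    (hy1 : -0.207 ≤ y) (hy2 : y ≤ -0.162) : ‖HH β (x + y * I) - 1‖ ≤ 0.08 := by
  refine le_epsJ (C := 0.7799) (N0 := 9.899) (J_boxp 1.1574 1.3185 0.207 0 (-0.162) 1.378 1.3347 1.5623 0.7727 0.4987 3.1463 9.899 0.9686 3.915 1.556 0.7219 0.6889 0.4665 1.0777 2.6877 0.8041 2.1025 3.3228 3.3987 0.001095 0.009887 0.0000233 0.0000003101 0.0003506 0.0000003101 0.0000003101 0.0000003101 0.7799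
    hβ hN hx1 hx2 hy1 hy2 (by norm_num) (by norm_num) (by linarith) (by norm_num) (by norm_num) (by norm_num) (by norm_num) (by norm_num) (by norm_num) (by norm_num) (by norm_num) (by norm_num) (by norm_num) (by norm_num) (by norm_num) (by norm_num) (by norm_num) (by norm_num) (by norm_num) (by norm_num) (by norm_num) (by norm_num) (by norm_num) (by norm_num)
    (cube_sqrt_geJ (s := 0.8228) (by norm_num) (by norm_num) (by norm_num) (by norm_num))
    (cube_sqrt_geJ (s := 0.9388) (by norm_num) (by norm_num) (by norm_num) (by norm_num))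
    (by norm_num) (by norm_num) (by norm_num) (by norm_num) (by norm_num) (by norm_num) (by norm_num) (by norm_num) (by norm_num) (by norm_num) (by norm_num) (by norm_num) (by norm_num) (by norm_num) (by norm_num) (by norm_num) (by norm_num) (by norm_num)
    (exp_neg_leJ (r := 0.819) 6 (by norm_num) (by norm_num) (by norm_num) (by norm_num))
    (exp_neg_leJ (r := 0.617) 4 (by norm_num) (by norm_num) (by norm_num) (by norm_num))
    (exp_neg_leJ (r := 0.668) 10 (by norm_num) (by norm_num) (by norm_num) (by norm_num))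
    (exp_neg_leJ (r := 0.99) 14 (by norm_num) (by norm_num) (by norm_num) (by norm_num))
    (exp_neg_leJ (r := 0.959) 7 (by norm_num) (by norm_num) (by norm_num) (by norm_num))
    (exp_neg_leJ (r := 0.99) 14 (by norm_num) (by norm_num) (by norm_num) (by norm_num))
    (exp_neg_leJ (r := 0.99) 14 (by norm_num) (by norm_num) (by norm_num) (by norm_num))
    (exp_neg_leJ (r := 0.99) 14 (by norm_num) (by norm_num) (by norm_num) (by norm_num))
    (by norm_num)) (by norm_num) hN hβ.le (by norm_num)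

private theorem JB6_k0a_b5_3 {β x y : ℝ} (hβ : 0 < β) (hN : β * 9.899 ≤ 1) (hx1 : 1.0623 ≤ x) (hx2 : x ≤ 1.2679)
    (hy1 : -0.162 ≤ y) (hy2 : y ≤ -0.072) : ‖HH β (x + y * I) - 1‖ ≤ 0.08 := by
  refine le_epsJ (C := 0.7869) (N0 := 9.899) (J_boxp 1.0623 1.2679 0.162 0 (-0.072) 1.343 1.2783 1.5713 0.8055 0.5001 3.1463 9.899 0.9519 3.804 1.544 0.7829 0.6714 0.4584 1.1162 2.8598 0.7825 1.9708 3.2549 3.3618 0.0013 0.01071 0.00001591 0.0000003101 0.0004334 0.0000003101 0.0000003101 0.0000003101 0.7869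
    hβ hN hx1 hx2 hy1 hy2 (by norm_num) (by norm_num) (by linarith) (by norm_num) (by norm_num) (by norm_num) (by norm_num) (by norm_num) (by norm_num) (by norm_num) (by norm_num) (by norm_num) (by norm_num) (by norm_num) (by norm_num) (by norm_num) (by norm_num) (by norm_num) (by norm_num) (by norm_num) (by norm_num) (by norm_num) (by norm_num) (by norm_num)
    (cube_sqrt_geJ (s := 0.8262) (by norm_num) (by norm_num) (by norm_num) (by norm_num))
    (cube_sqrt_geJ (s := 0.9399) (by norm_num) (by norm_num) (by norm_num) (by norm_num))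
    (by norm_num) (by norm_num) (by norm_num) (by norm_num) (by norm_num) (by norm_num) (by norm_num) (by norm_num) (by norm_num) (by norm_num) (by norm_num) (by norm_num) (by norm_num) (by norm_num) (by norm_num) (by norm_num) (by norm_num) (by norm_num)
    (exp_neg_leJ (r := 0.646) 6 (by norm_num) (by norm_num) (by norm_num) (by norm_num))
    (exp_neg_leJ (r := 0.537) 4 (by norm_num) (by norm_num) (by norm_num) (by norm_num))
    (exp_neg_leJ (r := 0.049) 11 (by norm_num) (by norm_num) (by norm_num) (by norm_num))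
    (exp_neg_leJ (r := 0.99) 14 (by norm_num) (by norm_num) (by norm_num) (by norm_num))
    (exp_neg_leJ (r := 0.745) 7 (by norm_num) (by norm_num) (by norm_num) (by norm_num))
    (exp_neg_leJ (r := 0.99) 14 (by norm_num) (by norm_num) (by norm_num) (by norm_num))
    (exp_neg_leJ (r := 0.99) 14 (by norm_num) (by norm_num) (by norm_num) (by norm_num))
    (exp_neg_leJ (r := 0.99) 14 (by norm_num) (by norm_num) (by norm_num) (by norm_num))
    (by norm_num)) (by norm_num) hN hβ.le (by norm_num)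

private theorem JB6_k0a_b5_4 {β x y : ℝ} (hβ : 0 < β) (hN : β * 9.899 ≤ 1) (hx1 : 0.9677 ≤ x) (hx2 : x ≤ 1.1607)
    (hy1 : -0.072 ≤ y) (hy2 : y ≤ 0.03) : ‖HH β (x + y * I) - 1‖ ≤ 0.08 := by
  refine le_epsJ (C := 0.6234) (N0 := 9.899) (J_boxp 0.9677 1.1607 0.072 0.03 0.03 1.3403 1.163 1.5519 0.8029 0.497 3.1463 9.899 0.8678 3.305 1.482 0.9072 0.6701 0.4762 1.2258 3.2064 0.7826 1.8368 3.1817 3.3447 0.001317 0.008986 0.000005374 0.0000003101 0.000433 0.0000003101 0.0000003101 0.0000003101 0.6234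
    hβ hN hx1 hx2 hy1 hy2 (by norm_num) (by norm_num) (by linarith) (by norm_num) (by norm_num) (by norm_num) (by norm_num) (by norm_num) (by norm_num) (by norm_num) (by norm_num) (by norm_num) (by norm_num) (by norm_num) (by norm_num) (by norm_num) (by norm_num) (by norm_num) (by norm_num) (by norm_num) (by norm_num) (by norm_num) (by norm_num) (by norm_num)
    (cube_sqrt_geJ (s := 0.843) (by norm_num) (by norm_num) (by norm_num) (by norm_num))
    (cube_sqrt_geJ (s := 0.9453) (by norm_num) (by norm_num) (by norm_num) (by norm_num))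
    (by norm_num) (by norm_num) (by norm_num) (by norm_num) (by norm_num) (by norm_num) (by norm_num) (by norm_num) (by norm_num) (by norm_num) (by norm_num) (by norm_num) (by norm_num) (by norm_num) (by norm_num) (by norm_num) (by norm_num) (by norm_num)
    (exp_neg_leJ (r := 0.633) 6 (by norm_num) (by norm_num) (by norm_num) (by norm_num))
    (exp_neg_leJ (r := 0.713) 4 (by norm_num) (by norm_num) (by norm_num) (by norm_num))
    (exp_neg_leJ (r := 0.134) 12 (by norm_num) (by norm_num) (by norm_num) (by norm_num))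
    (exp_neg_leJ (r := 0.99) 14 (by norm_num) (by norm_num) (by norm_num) (by norm_num))
    (exp_neg_leJ (r := 0.746) 7 (by norm_num) (by norm_num) (by norm_num) (by norm_num))
    (exp_neg_leJ (r := 0.99) 14 (by norm_num) (by norm_num) (by norm_num) (by norm_num))
    (exp_neg_leJ (r := 0.99) 14 (by norm_num) (by norm_num) (by norm_num) (by norm_num))
    (exp_neg_leJ (r := 0.99) 14 (by norm_num) (by norm_num) (by norm_num) (by norm_num))
    (by norm_num)) (by norm_num) hN hβ.le (by norm_num)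

private theorem JB6_k0a_c5 {κ t β : ℝ} (h : DomR κ t) (hβ : 0 < β) (hk1 : 1 ≤ κ) (hk2 : κ ≤ 1.08)
    (ht1 : -0.45 ≤ t + κ) (ht2 : t + κ ≤ 0.06) (hR0 : β * 10 ≤ κ) (hR : β * (4.95 * (1 + κ ^ 2)) ≤ κ) :
    ‖HH β (sg κ t) - 1‖ ≤ 0.08 := by
  have hN : β * 9.899 ≤ 1 := bNC' hβ hk1 (by norm_num) (by norm_num) hR (by norm_num)
  have hy1 : -0.247 ≤ sy κ t := syL_ge h 1 1.08 0.45 0.247 0.78114 0.78115 0.1881 0.17864 0.19295 hk1 hk2 (by linarith) (by norm_num) (by norm_num) (by norm_num)
    (expm_ge (by norm_num) (by norm_num) (by norm_num) (by norm_num)) (expm_le (by norm_num) (by norm_num) (by norm_num)) (by norm_num)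
    (by norm_num) (by norm_num) (by norm_num) (by norm_num) (by norm_num) (by norm_num)
  have hy2 : sy κ t ≤ 0.03 := syR_le h 1 1.08 0.06 0.03 1.03045 0.028 0.02862 0.03092 hk1 hk2 (by linarith) (by norm_num) (by norm_num)
    (expn_ge (by norm_num) (by norm_num)) (by norm_num) (by norm_num) (Or.inr ((mul_le_mul_of_nonneg_left (expn_le (E := 1.03046) (by norm_num) (by norm_num) (by norm_num)) (by norm_num)).trans (by norm_num))) (by norm_num) (by norm_num) (by norm_num)
  rcases le_total (sy κ t) (-0.232) with f0 | g0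
  · have hx1 : 1.2366 ≤ sx κ t := sx_lo h 1 (-0.232) 0.247 1.26111 1.2366 hk1 (by norm_num) f0 (abs_le.2 ⟨by linarith, by linarith⟩) (by rw [neg_neg]; exact expn_ge (by norm_num) (by norm_num)) (by norm_num) (by norm_num)
    have hx2 : sx κ t ≤ 1.363 := sx_hi h 1.08 (-0.247) 0.232 1.28018 1.363 hk2 hy1 (by norm_num) (by rw [abs_of_nonpos (by linarith)]; linarith) (by rw [neg_neg]; exact expn_le (by norm_num) (by norm_num) (by norm_num)) (by norm_num) (by norm_num)
    exact JB6_k0a_b5_0 hβ hN hx1 hx2 (by linarith) (by linarith)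
  rcases le_total (sy κ t) (-0.207) with f1 | g1
  · have hx1 : 1.2079 ≤ sx κ t := sx_lo h 1 (-0.207) 0.232 1.22998 1.2079 hk1 (by norm_num) f1 (abs_le.2 ⟨by linarith, by linarith⟩) (by rw [neg_neg]; exact expn_ge (by norm_num) (by norm_num)) (by norm_num) (by norm_num)
    have hx2 : sx κ t ≤ 1.3462 := sx_hi h 1.08 (-0.232) 0.207 1.26112 1.3462 hk2 g0 (by norm_num) (by rw [abs_of_nonpos (by linarith)]; linarith) (by rw [neg_neg]; exact expn_le (by norm_num) (by norm_num) (by norm_num)) (by norm_num) (by norm_num)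
    exact JB6_k0a_b5_1 hβ hN hx1 hx2 (by linarith) (by linarith)
  rcases le_total (sy κ t) (-0.162) with f2 | g2
  · have hx1 : 1.1574 ≤ sx κ t := sx_lo h 1 (-0.162) 0.207 1.17586 1.1574 hk1 (by norm_num) f2 (abs_le.2 ⟨by linarith, by linarith⟩) (by rw [neg_neg]; exact expn_ge (by norm_num) (by norm_num)) (by norm_num) (by norm_num)
    have hx2 : sx κ t ≤ 1.3185 := sx_hi h 1.08 (-0.207) 0.162 1.22999 1.3185 hk2 g1 (by norm_num) (by rw [abs_of_nonpos (by linarith)]; linarith) (by rw [neg_neg]; exact expn_le (by norm_num) (by norm_num) (by norm_num)) (by norm_num) (by norm_num)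
    exact JB6_k0a_b5_2 hβ hN hx1 hx2 (by linarith) (by linarith)
  rcases le_total (sy κ t) (-0.072) with f3 | g3
  · have hx1 : 1.0623 ≤ sx κ t := sx_lo h 1 (-0.072) 0.162 1.07465 1.0623 hk1 (by norm_num) f3 (abs_le.2 ⟨by linarith, by linarith⟩) (by rw [neg_neg]; exact expn_ge (by norm_num) (by norm_num)) (by norm_num) (by norm_num)
    have hx2 : sx κ t ≤ 1.2679 := sx_hi h 1.08 (-0.162) 0.072 1.17587 1.2679 hk2 g2 (by norm_num) (by rw [abs_of_nonpos (by linarith)]; linarith) (by rw [neg_neg]; exact expn_le (by norm_num) (by norm_num) (by norm_num)) (by norm_num) (by norm_num)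
    exact JB6_k0a_b5_3 hβ hN hx1 hx2 (by linarith) (by linarith)
  have hx1 : 0.9677 ≤ sx κ t := sx_lo h 1 0.03 0.072 0.97044 0.9677 hk1 (by norm_num) hy2 (abs_le.2 ⟨by linarith, by linarith⟩) (expm_ge (by norm_num) (by norm_num) (by norm_num) (by norm_num)) (by norm_num) (by norm_num)
  have hx2 : sx κ t ≤ 1.1607 := sx_hi h 1.08 (-0.072) 0 1.07466 1.1607 hk2 g3 (by norm_num) (abs_nonneg _) (by rw [neg_neg]; exact expn_le (by norm_num) (by norm_num) (by norm_num)) (by norm_num) (by norm_num)
  exact JB6_k0a_b5_4 hβ hN hx1 hx2 (by linarith) (by linarith)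

private theorem JB6_k0a_b6_0 {β x y : ℝ} (hβ : 0 < β) (hN : β * 9.929 ≤ 1) (hx1 : 1.3334 ≤ x) (hx2 : x ≤ 1.473)
    (hy1 : -0.242 ≤ y) (hy2 : y ≤ -0.227) : ‖HH β (x + y * I) - 1‖ ≤ 0.08 := by
  refine le_epsJ (C := 0.7882) (N0 := 9.929) (J_boxp 1.3334 1.473 0.242 0 (-0.227) 1.4771 1.4928 1.6636 0.7185 0.5146 3.1511 9.929 1.0107 4.212 1.588 0.6301 0.7385 0.4897 1.0827 2.4876 0.8704 2.3462 3.5796 3.321 0.0006543 0.007751 0.00002147 0.0000003101 0.0001767 0.0000003101 0.0000003101 0.0000003101 0.7882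
    hβ hN hx1 hx2 hy1 hy2 (by norm_num) (by norm_num) (by linarith) (by norm_num) (by norm_num) (by norm_num) (by norm_num) (by norm_num) (by norm_num) (by norm_num) (by norm_num) (by norm_num) (by norm_num) (by norm_num) (by norm_num) (by norm_num) (by norm_num) (by norm_num) (by norm_num) (by norm_num) (by norm_num) (by norm_num) (by norm_num) (by norm_num)
    (cube_sqrt_geJ (s := 0.8143) (by norm_num) (by norm_num) (by norm_num) (by norm_num))
    (cube_sqrt_geJ (s := 0.936) (by norm_num) (by norm_num) (by norm_num) (by norm_num))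
    (by norm_num) (by norm_num) (by norm_num) (by norm_num) (by norm_num) (by norm_num) (by norm_num) (by norm_num) (by norm_num) (by norm_num) (by norm_num) (by norm_num) (by norm_num) (by norm_num) (by norm_num) (by norm_num) (by norm_num) (by norm_num)
    (exp_neg_leJ (r := 0.332) 7 (by norm_num) (by norm_num) (by norm_num) (by norm_num))
    (exp_neg_leJ (r := 0.862) 4 (by norm_num) (by norm_num) (by norm_num) (by norm_num))
    (exp_neg_leJ (r := 0.75) 10 (by norm_num) (by norm_num) (by norm_num) (by norm_num))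
    (exp_neg_leJ (r := 0.99) 14 (by norm_num) (by norm_num) (by norm_num) (by norm_num))
    (exp_neg_leJ (r := 0.642) 8 (by norm_num) (by norm_num) (by norm_num) (by norm_num))
    (exp_neg_leJ (r := 0.99) 14 (by norm_num) (by norm_num) (by norm_num) (by norm_num))
    (exp_neg_leJ (r := 0.99) 14 (by norm_num) (by norm_num) (by norm_num) (by norm_num))
    (exp_neg_leJ (r := 0.99) 14 (by norm_num) (by norm_num) (by norm_num) (by norm_num))
    (by norm_num)) (by norm_num) hN hβ.le (by norm_num)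

private theorem JB6_k0a_b6_1 {β x y : ℝ} (hβ : 0 < β) (hN : β * 9.929 ≤ 1) (hx1 : 1.3021 ≤ x) (hx2 : x ≤ 1.4542)
    (hy1 : -0.227 ≤ y) (hy2 : y ≤ -0.202) : ‖HH β (x + y * I) - 1‖ ≤ 0.08 := by
  refine le_epsJ (C := 0.7848) (N0 := 9.929) (J_boxp 1.3021 1.4542 0.227 0 (-0.202) 1.4657 1.4719 1.6588 0.7259 0.5139 3.1511 9.929 1.0043 4.165 1.583 0.6512 0.7328 0.4875 1.0956 2.5461 0.8634 2.3029 3.5578 3.3152 0.0006927 0.007921 0.00001891 0.0000003101 0.0001894 0.0000003101 0.0000003101 0.0000003101 0.7848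
    hβ hN hx1 hx2 hy1 hy2 (by norm_num) (by norm_num) (by linarith) (by norm_num) (by norm_num) (by norm_num) (by norm_num) (by norm_num) (by norm_num) (by norm_num) (by norm_num) (by norm_num) (by norm_num) (by norm_num) (by norm_num) (by norm_num) (by norm_num) (by norm_num) (by norm_num) (by norm_num) (by norm_num) (by norm_num) (by norm_num) (by norm_num)
    (cube_sqrt_geJ (s := 0.8156) (by norm_num) (by norm_num) (by norm_num) (by norm_num))
    (cube_sqrt_geJ (s := 0.9365) (by norm_num) (by norm_num) (by norm_num) (by norm_num))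
    (by norm_num) (by norm_num) (by norm_num) (by norm_num) (by norm_num) (by norm_num) (by norm_num) (by norm_num) (by norm_num) (by norm_num) (by norm_num) (by norm_num) (by norm_num) (by norm_num) (by norm_num) (by norm_num) (by norm_num) (by norm_num)
    (exp_neg_leJ (r := 0.275) 7 (by norm_num) (by norm_num) (by norm_num) (by norm_num))
    (exp_neg_leJ (r := 0.84) 4 (by norm_num) (by norm_num) (by norm_num) (by norm_num))
    (exp_neg_leJ (r := 0.878) 10 (by norm_num) (by norm_num) (by norm_num) (by norm_num))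
    (exp_neg_leJ (r := 0.99) 14 (by norm_num) (by norm_num) (by norm_num) (by norm_num))
    (exp_neg_leJ (r := 0.572) 8 (by norm_num) (by norm_num) (by norm_num) (by norm_num))
    (exp_neg_leJ (r := 0.99) 14 (by norm_num) (by norm_num) (by norm_num) (by norm_num))
    (exp_neg_leJ (r := 0.99) 14 (by norm_num) (by norm_num) (by norm_num) (by norm_num))
    (exp_neg_leJ (r := 0.99) 14 (by norm_num) (by norm_num) (by norm_num) (by norm_num))
    (by norm_num)) (by norm_num) hN hβ.le (by norm_num)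

private theorem JB6_k0a_b6_2 {β x y : ℝ} (hβ : 0 < β) (hN : β * 9.929 ≤ 1) (hx1 : 1.2473 ≤ x) (hx2 : x ≤ 1.4233)
    (hy1 : -0.202 ≤ y) (hy2 : y ≤ -0.157) : ‖HH β (x + y * I) - 1‖ ≤ 0.08 := by
  refine le_epsJ (C := 0.7852) (N0 := 9.929) (J_boxp 1.2473 1.4233 0.202 0 (-0.157) 1.4449 1.4376 1.6543 0.7406 0.5132 3.1511 9.929 0.995 4.098 1.576 0.6862 0.7224 0.4828 1.1163 2.6433 0.8505 2.227 3.5162 3.2988 0.0007678 0.008299 0.00001538 0.0000003101 0.0002153 0.0000003101 0.0000003101 0.0000003101 0.7852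
    hβ hN hx1 hx2 hy1 hy2 (by norm_num) (by norm_num) (by linarith) (by norm_num) (by norm_num) (by norm_num) (by norm_num) (by norm_num) (by norm_num) (by norm_num) (by norm_num) (by norm_num) (by norm_num) (by norm_num) (by norm_num) (by norm_num) (by norm_num) (by norm_num) (by norm_num) (by norm_num) (by norm_num) (by norm_num) (by norm_num) (by norm_num)
    (cube_sqrt_geJ (s := 0.8175) (by norm_num) (by norm_num) (by norm_num) (by norm_num))
    (cube_sqrt_geJ (s := 0.9371) (by norm_num) (by norm_num) (by norm_num) (by norm_num))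
    (by norm_num) (by norm_num) (by norm_num) (by norm_num) (by norm_num) (by norm_num) (by norm_num) (by norm_num) (by norm_num) (by norm_num) (by norm_num) (by norm_num) (by norm_num) (by norm_num) (by norm_num) (by norm_num) (by norm_num) (by norm_num)
    (exp_neg_leJ (r := 0.172) 7 (by norm_num) (by norm_num) (by norm_num) (by norm_num))
    (exp_neg_leJ (r := 0.793) 4 (by norm_num) (by norm_num) (by norm_num) (by norm_num))
    (exp_neg_leJ (r := 0.083) 11 (by norm_num) (by norm_num) (by norm_num) (by norm_num))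
    (exp_neg_leJ (r := 0.99) 14 (by norm_num) (by norm_num) (by norm_num) (by norm_num))
    (exp_neg_leJ (r := 0.444) 8 (by norm_num) (by norm_num) (by norm_num) (by norm_num))
    (exp_neg_leJ (r := 0.99) 14 (by norm_num) (by norm_num) (by norm_num) (by norm_num))
    (exp_neg_leJ (r := 0.99) 14 (by norm_num) (by norm_num) (by norm_num) (by norm_num))
    (exp_neg_leJ (r := 0.99) 14 (by norm_num) (by norm_num) (by norm_num) (by norm_num))
    (by norm_num)) (by norm_num) hN hβ.le (by norm_num)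

private theorem JB6_k0a_b6_3 {β x y : ℝ} (hβ : 0 < β) (hN : β * 9.929 ≤ 1) (hx1 : 1.1499 ≤ x) (hx2 : x ≤ 1.3671)
    (hy1 : -0.157 ≤ y) (hy2 : y ≤ -0.072) : ‖HH β (x + y * I) - 1‖ ≤ 0.08 := by
  refine le_epsJ (C := 0.7858) (N0 := 9.929) (J_boxp 1.1499 1.3671 0.157 0 (-0.072) 1.4082 1.3761 1.6524 0.7693 0.5129 3.1511 9.929 0.9773 3.974 1.563 0.7493 0.704 0.4747 1.154 2.8185 0.8277 2.0921 3.4437 3.2712 0.0009243 0.008986 0.00001057 0.0000003101 0.0002698 0.0000003101 0.0000003101 0.0000003101 0.7858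
    hβ hN hx1 hx2 hy1 hy2 (by norm_num) (by norm_num) (by linarith) (by norm_num) (by norm_num) (by norm_num) (by norm_num) (by norm_num) (by norm_num) (by norm_num) (by norm_num) (by norm_num) (by norm_num) (by norm_num) (by norm_num) (by norm_num) (by norm_num) (by norm_num) (by norm_num) (by norm_num) (by norm_num) (by norm_num) (by norm_num) (by norm_num)
    (cube_sqrt_geJ (s := 0.8211) (by norm_num) (by norm_num) (by norm_num) (by norm_num))
    (cube_sqrt_geJ (s := 0.9382) (by norm_num) (by norm_num) (by norm_num) (by norm_num))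
    (by norm_num) (by norm_num) (by norm_num) (by norm_num) (by norm_num) (by norm_num) (by norm_num) (by norm_num) (by norm_num) (by norm_num) (by norm_num) (by norm_num) (by norm_num) (by norm_num) (by norm_num) (by norm_num) (by norm_num) (by norm_num)
    (exp_neg_leJ (r := 0.99) 6 (by norm_num) (by norm_num) (by norm_num) (by norm_num))
    (exp_neg_leJ (r := 0.713) 4 (by norm_num) (by norm_num) (by norm_num) (by norm_num))
    (exp_neg_leJ (r := 0.458) 11 (by norm_num) (by norm_num) (by norm_num) (by norm_num))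
    (exp_neg_leJ (r := 0.99) 14 (by norm_num) (by norm_num) (by norm_num) (by norm_num))
    (exp_neg_leJ (r := 0.218) 8 (by norm_num) (by norm_num) (by norm_num) (by norm_num))
    (exp_neg_leJ (r := 0.99) 14 (by norm_num) (by norm_num) (by norm_num) (by norm_num))
    (exp_neg_leJ (r := 0.99) 14 (by norm_num) (by norm_num) (by norm_num) (by norm_num))
    (exp_neg_leJ (r := 0.99) 14 (by norm_num) (by norm_num) (by norm_num) (by norm_num))
    (by norm_num)) (by norm_num) hN hβ.le (by norm_num)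

private theorem JB6_k0a_b6_4 {β x y : ℝ} (hβ : 0 < β) (hN : β * 9.929 ≤ 1) (hx1 : 1.0455 ≤ x) (hx2 : x ≤ 1.2574)
    (hy1 : -0.072 ≤ y) (hy2 : y ≤ 0.03) : ‖HH β (x + y * I) - 1‖ ≤ 0.08 := by
  refine le_epsJ (C := 0.6465) (N0 := 9.929) (J_boxp 1.0455 1.2574 0.072 0.03 0.03 1.3951 1.2595 1.6255 0.7738 0.5087 3.1511 9.929 0.9029 3.502 1.507 0.87 0.6975 0.4876 1.2525 3.1505 0.8204 1.9445 3.3373 3.238 0.0009856 0.007914 0.000003974 0.0000003101 0.0002902 0.0000003101 0.0000003101 0.0000003101 0.6465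
    hβ hN hx1 hx2 hy1 hy2 (by norm_num) (by norm_num) (by linarith) (by norm_num) (by norm_num) (by norm_num) (by norm_num) (by norm_num) (by norm_num) (by norm_num) (by norm_num) (by norm_num) (by norm_num) (by norm_num) (by norm_num) (by norm_num) (by norm_num) (by norm_num) (by norm_num) (by norm_num) (by norm_num) (by norm_num) (by norm_num) (by norm_num)
    (cube_sqrt_geJ (s := 0.836) (by norm_num) (by norm_num) (by norm_num) (by norm_num))
    (cube_sqrt_geJ (s := 0.9431) (by norm_num) (by norm_num) (by norm_num) (by norm_num))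
    (by norm_num) (by norm_num) (by norm_num) (by norm_num) (by norm_num) (by norm_num) (by norm_num) (by norm_num) (by norm_num) (by norm_num) (by norm_num) (by norm_num) (by norm_num) (by norm_num) (by norm_num) (by norm_num) (by norm_num) (by norm_num)
    (exp_neg_leJ (r := 0.925) 6 (by norm_num) (by norm_num) (by norm_num) (by norm_num))
    (exp_neg_leJ (r := 0.841) 4 (by norm_num) (by norm_num) (by norm_num) (by norm_num))
    (exp_neg_leJ (r := 0.436) 12 (by norm_num) (by norm_num) (by norm_num) (by norm_num))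
    (exp_neg_leJ (r := 0.99) 14 (by norm_num) (by norm_num) (by norm_num) (by norm_num))
    (exp_neg_leJ (r := 0.145) 8 (by norm_num) (by norm_num) (by norm_num) (by norm_num))
    (exp_neg_leJ (r := 0.99) 14 (by norm_num) (by norm_num) (by norm_num) (by norm_num))
    (exp_neg_leJ (r := 0.99) 14 (by norm_num) (by norm_num) (by norm_num) (by norm_num))
    (exp_neg_leJ (r := 0.99) 14 (by norm_num) (by norm_num) (by norm_num) (by norm_num))
    (by norm_num)) (by norm_num) hN hβ.le (by norm_num)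

private theorem JB6_k0a_c6 {κ t β : ℝ} (h : DomR κ t) (hβ : 0 < β) (hk1 : 1.08 ≤ κ) (hk2 : κ ≤ 1.17)
    (ht1 : -0.45 ≤ t + κ) (ht2 : t + κ ≤ 0.06) (hR0 : β * 10 ≤ κ) (hR : β * (4.95 * (1 + κ ^ 2)) ≤ κ) :
    ‖HH β (sg κ t) - 1‖ ≤ 0.08 := by
  have hN : β * 9.929 ≤ 1 := bNC' hβ hk1 (by norm_num) (by norm_num) hR (by norm_num)
  have hy1 : -0.242 ≤ sy κ t := syL_ge h 1.08 1.17 0.45 0.242 0.78505 0.78506 0.1623 0.16237 0.17592 hk1 hk2 (by linarith) (by norm_num) (by norm_num) (by norm_num)
    (expm_ge (by norm_num) (by norm_num) (by norm_num) (by norm_num)) (expm_le (by norm_num) (by norm_num) (by norm_num)) (by norm_num)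
    (by norm_num) (by norm_num) (by norm_num) (by norm_num) (by norm_num) (by norm_num)
  have hy2 : sy κ t ≤ 0.03 := syR_le h 1.08 1.17 0.06 0.03 1.03045 0.0258 0.02642 0.02863 hk1 hk2 (by linarith) (by norm_num) (by norm_num)
    (expn_ge (by norm_num) (by norm_num)) (by norm_num) (by norm_num) (Or.inr ((mul_le_mul_of_nonneg_left (expn_le (E := 1.03046) (by norm_num) (by norm_num) (by norm_num)) (by norm_num)).trans (by norm_num))) (by norm_num) (by norm_num) (by norm_num)
  rcases le_total (sy κ t) (-0.227) with f0 | g0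
  · have hx1 : 1.3334 ≤ sx κ t := sx_lo h 1.08 (-0.227) 0.242 1.25482 1.3334 hk1 (by norm_num) f0 (abs_le.2 ⟨by linarith, by linarith⟩) (by rw [neg_neg]; exact expn_ge (by norm_num) (by norm_num)) (by norm_num) (by norm_num)
    have hx2 : sx κ t ≤ 1.473 := sx_hi h 1.17 (-0.242) 0.227 1.2738 1.473 hk2 hy1 (by norm_num) (by rw [abs_of_nonpos (by linarith)]; linarith) (by rw [neg_neg]; exact expn_le (by norm_num) (by norm_num) (by norm_num)) (by norm_num) (by norm_num)
    exact JB6_k0a_b6_0 hβ hN hx1 hx2 (by linarith) (by linarith)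
  rcases le_total (sy κ t) (-0.202) with f1 | g1
  · have hx1 : 1.3021 ≤ sx κ t := sx_lo h 1.08 (-0.202) 0.227 1.22384 1.3021 hk1 (by norm_num) f1 (abs_le.2 ⟨by linarith, by linarith⟩) (by rw [neg_neg]; exact expn_ge (by norm_num) (by norm_num)) (by norm_num) (by norm_num)
    have hx2 : sx κ t ≤ 1.4542 := sx_hi h 1.17 (-0.227) 0.202 1.25483 1.4542 hk2 g0 (by norm_num) (by rw [abs_of_nonpos (by linarith)]; linarith) (by rw [neg_neg]; exact expn_le (by norm_num) (by norm_num) (by norm_num)) (by norm_num) (by norm_num)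
    exact JB6_k0a_b6_1 hβ hN hx1 hx2 (by linarith) (by linarith)
  rcases le_total (sy κ t) (-0.157) with f2 | g2
  · have hx1 : 1.2473 ≤ sx κ t := sx_lo h 1.08 (-0.157) 0.202 1.16999 1.2473 hk1 (by norm_num) f2 (abs_le.2 ⟨by linarith, by linarith⟩) (by rw [neg_neg]; exact expn_ge (by norm_num) (by norm_num)) (by norm_num) (by norm_num)
    have hx2 : sx κ t ≤ 1.4233 := sx_hi h 1.17 (-0.202) 0.157 1.22385 1.4233 hk2 g1 (by norm_num) (by rw [abs_of_nonpos (by linarith)]; linarith) (by rw [neg_neg]; exact expn_le (by norm_num) (by norm_num) (by norm_num)) (by norm_num) (by norm_num)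
    exact JB6_k0a_b6_2 hβ hN hx1 hx2 (by linarith) (by linarith)
  rcases le_total (sy κ t) (-0.072) with f3 | g3
  · have hx1 : 1.1499 ≤ sx κ t := sx_lo h 1.08 (-0.072) 0.157 1.07465 1.1499 hk1 (by norm_num) f3 (abs_le.2 ⟨by linarith, by linarith⟩) (by rw [neg_neg]; exact expn_ge (by norm_num) (by norm_num)) (by norm_num) (by norm_num)
    have hx2 : sx κ t ≤ 1.3671 := sx_hi h 1.17 (-0.157) 0.072 1.17 1.3671 hk2 g2 (by norm_num) (by rw [abs_of_nonpos (by linarith)]; linarith) (by rw [neg_neg]; exact expn_le (by norm_num) (by norm_num) (by norm_num)) (by norm_num) (by norm_num)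
    exact JB6_k0a_b6_3 hβ hN hx1 hx2 (by linarith) (by linarith)
  have hx1 : 1.0455 ≤ sx κ t := sx_lo h 1.08 0.03 0.072 0.97044 1.0455 hk1 (by norm_num) hy2 (abs_le.2 ⟨by linarith, by linarith⟩) (expm_ge (by norm_num) (by norm_num) (by norm_num) (by norm_num)) (by norm_num) (by norm_num)
  have hx2 : sx κ t ≤ 1.2574 := sx_hi h 1.17 (-0.072) 0 1.07466 1.2574 hk2 g3 (by norm_num) (abs_nonneg _) (by rw [neg_neg]; exact expn_le (by norm_num) (by norm_num) (by norm_num)) (by norm_num) (by norm_num)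
  exact JB6_k0a_b6_4 hβ hN hx1 hx2 (by linarith) (by linarith)

private theorem JB6_k0a_b7_0 {β x y : ℝ} (hβ : 0 < β) (hN : β * 10.022 ≤ 1) (hx1 : 1.4462 ≤ x) (hx2 : x ≤ 1.6034)
    (hy1 : -0.235 ≤ y) (hy2 : y ≤ -0.225) : ‖HH β (x + y * I) - 1‖ ≤ 0.08 := by
  refine le_epsJ (C := 0.7894) (N0 := 10.022) (J_boxp 1.4462 1.6034 0.235 0 (-0.225) 1.5615 1.6206 1.7809 0.684 0.5324 3.1658 10.022 1.0379 4.42 1.61 0.5865 0.7807 0.5106 1.1323 2.4348 0.929 2.5024 3.8242 3.1992 0.0004007 0.005995 0.00001181 0.0000003101 0.00009052 0.0000003101 0.0000003101 0.0000003101 0.7894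
    hβ hN hx1 hx2 hy1 hy2 (by norm_num) (by norm_num) (by linarith) (by norm_num) (by norm_num) (by norm_num) (by norm_num) (by norm_num) (by norm_num) (by norm_num) (by norm_num) (by norm_num) (by norm_num) (by norm_num) (by norm_num) (by norm_num) (by norm_num) (by norm_num) (by norm_num) (by norm_num) (by norm_num) (by norm_num) (by norm_num) (by norm_num)
    (cube_sqrt_geJ (s := 0.8087) (by norm_num) (by norm_num) (by norm_num) (by norm_num))
    (cube_sqrt_geJ (s := 0.9343) (by norm_num) (by norm_num) (by norm_num) (by norm_num))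
    (by norm_num) (by norm_num) (by norm_num) (by norm_num) (by norm_num) (by norm_num) (by norm_num) (by norm_num) (by norm_num) (by norm_num) (by norm_num) (by norm_num) (by norm_num) (by norm_num) (by norm_num) (by norm_num) (by norm_num) (by norm_num)
    (exp_neg_leJ (r := 0.824) 7 (by norm_num) (by norm_num) (by norm_num) (by norm_num))
    (exp_neg_leJ (r := 0.117) 5 (by norm_num) (by norm_num) (by norm_num) (by norm_num))
    (exp_neg_leJ (r := 0.347) 11 (by norm_num) (by norm_num) (by norm_num) (by norm_num))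
    (exp_neg_leJ (r := 0.99) 14 (by norm_num) (by norm_num) (by norm_num) (by norm_num))
    (exp_neg_leJ (r := 0.31) 9 (by norm_num) (by norm_num) (by norm_num) (by norm_num))
    (exp_neg_leJ (r := 0.99) 14 (by norm_num) (by norm_num) (by norm_num) (by norm_num))
    (exp_neg_leJ (r := 0.99) 14 (by norm_num) (by norm_num) (by norm_num) (by norm_num))
    (exp_neg_leJ (r := 0.99) 14 (by norm_num) (by norm_num) (by norm_num) (by norm_num))
    (by norm_num)) (by norm_num) hN hβ.le (by norm_num)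

private theorem JB6_k0a_b7_1 {β x y : ℝ} (hβ : 0 < β) (hN : β * 10.022 ≤ 1) (hx1 : 1.4184 ≤ x) (hx2 : x ≤ 1.5899)
    (hy1 : -0.225 ≤ y) (hy2 : y ≤ -0.205) : ‖HH β (x + y * I) - 1‖ ≤ 0.08 := by
  refine le_epsJ (C := 0.7978) (N0 := 10.022) (J_boxp 1.4184 1.5899 0.225 0 (-0.205) 1.549 1.6058 1.7776 0.6916 0.5319 3.1658 10.022 1.0367 4.411 1.609 0.6009 0.7744 0.5068 1.1386 2.4744 0.921 2.4639 3.7958 3.1838 0.0004266 0.006227 0.00001108 0.0000003101 0.00009806 0.0000003101 0.0000003101 0.0000003101 0.7978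
    hβ hN hx1 hx2 hy1 hy2 (by norm_num) (by norm_num) (by linarith) (by norm_num) (by norm_num) (by norm_num) (by norm_num) (by norm_num) (by norm_num) (by norm_num) (by norm_num) (by norm_num) (by norm_num) (by norm_num) (by norm_num) (by norm_num) (by norm_num) (by norm_num) (by norm_num) (by norm_num) (by norm_num) (by norm_num) (by norm_num) (by norm_num)
    (cube_sqrt_geJ (s := 0.8089) (by norm_num) (by norm_num) (by norm_num) (by norm_num))
    (cube_sqrt_geJ (s := 0.9343) (by norm_num) (by norm_num) (by norm_num) (by norm_num))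
    (by norm_num) (by norm_num) (by norm_num) (by norm_num) (by norm_num) (by norm_num) (by norm_num) (by norm_num) (by norm_num) (by norm_num) (by norm_num) (by norm_num) (by norm_num) (by norm_num) (by norm_num) (by norm_num) (by norm_num) (by norm_num)
    (exp_neg_leJ (r := 0.761) 7 (by norm_num) (by norm_num) (by norm_num) (by norm_num))
    (exp_neg_leJ (r := 0.079) 5 (by norm_num) (by norm_num) (by norm_num) (by norm_num))
    (exp_neg_leJ (r := 0.411) 11 (by norm_num) (by norm_num) (by norm_num) (by norm_num))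
    (exp_neg_leJ (r := 0.99) 14 (by norm_num) (by norm_num) (by norm_num) (by norm_num))
    (exp_neg_leJ (r := 0.23) 9 (by norm_num) (by norm_num) (by norm_num) (by norm_num))
    (exp_neg_leJ (r := 0.99) 14 (by norm_num) (by norm_num) (by norm_num) (by norm_num))
    (exp_neg_leJ (r := 0.99) 14 (by norm_num) (by norm_num) (by norm_num) (by norm_num))
    (exp_neg_leJ (r := 0.99) 14 (by norm_num) (by norm_num) (by norm_num) (by norm_num))
    (by norm_num)) (by norm_num) hN hβ.le (by norm_num)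

private theorem JB6_k0a_b7_2 {β x y : ℝ} (hβ : 0 < β) (hN : β * 10.022 ≤ 1) (hx1 : 1.3715 ≤ x) (hx2 : x ≤ 1.5621)
    (hy1 : -0.205 ≤ y) (hy2 : y ≤ -0.17) : ‖HH β (x + y * I) - 1‖ ≤ 0.08 := by
  refine le_epsJ (C := 0.7984) (N0 := 10.022) (J_boxp 1.3715 1.5621 0.205 0 (-0.17) 1.5302 1.5755 1.769 0.7027 0.5307 3.1658 10.022 1.0297 4.356 1.603 0.63 0.765 0.5024 1.1541 2.5539 0.9091 2.3989 3.7564 3.1724 0.0004688 0.006507 0.000009487 0.0000003101 0.0001105 0.0000003101 0.0000003101 0.0000003101 0.7984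
    hβ hN hx1 hx2 hy1 hy2 (by norm_num) (by norm_num) (by linarith) (by norm_num) (by norm_num) (by norm_num) (by norm_num) (by norm_num) (by norm_num) (by norm_num) (by norm_num) (by norm_num) (by norm_num) (by norm_num) (by norm_num) (by norm_num) (by norm_num) (by norm_num) (by norm_num) (by norm_num) (by norm_num) (by norm_num) (by norm_num) (by norm_num)
    (cube_sqrt_geJ (s := 0.8104) (by norm_num) (by norm_num) (by norm_num) (by norm_num))
    (cube_sqrt_geJ (s := 0.9348) (by norm_num) (by norm_num) (by norm_num) (by norm_num))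
    (by norm_num) (by norm_num) (by norm_num) (by norm_num) (by norm_num) (by norm_num) (by norm_num) (by norm_num) (by norm_num) (by norm_num) (by norm_num) (by norm_num) (by norm_num) (by norm_num) (by norm_num) (by norm_num) (by norm_num) (by norm_num)
    (exp_neg_leJ (r := 0.666) 7 (by norm_num) (by norm_num) (by norm_num) (by norm_num))
    (exp_neg_leJ (r := 0.035) 5 (by norm_num) (by norm_num) (by norm_num) (by norm_num))
    (exp_neg_leJ (r := 0.566) 11 (by norm_num) (by norm_num) (by norm_num) (by norm_num))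
    (exp_neg_leJ (r := 0.99) 14 (by norm_num) (by norm_num) (by norm_num) (by norm_num))
    (exp_neg_leJ (r := 0.111) 9 (by norm_num) (by norm_num) (by norm_num) (by norm_num))
    (exp_neg_leJ (r := 0.99) 14 (by norm_num) (by norm_num) (by norm_num) (by norm_num))
    (exp_neg_leJ (r := 0.99) 14 (by norm_num) (by norm_num) (by norm_num) (by norm_num))
    (exp_neg_leJ (r := 0.99) 14 (by norm_num) (by norm_num) (by norm_num) (by norm_num))
    (by norm_num)) (by norm_num) hN hβ.le (by norm_num)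

private theorem JB6_k0a_b7_3 {β x y : ℝ} (hβ : 0 < β) (hN : β * 10.022 ≤ 1) (hx1 : 1.2949 ≤ x) (hx2 : x ≤ 1.5133)
    (hy1 : -0.17 ≤ y) (hy2 : y ≤ -0.11) : ‖HH β (x + y * I) - 1‖ ≤ 0.08 := by
  refine le_epsJ (C := 0.7909) (N0 := 10.022) (J_boxp 1.2949 1.5133 0.17 0 (-0.11) 1.5011 1.5229 1.7557 0.7205 0.5287 3.1658 10.022 1.0146 4.241 1.591 0.6811 0.7505 0.4967 1.1831 2.693 0.8911 2.2929 3.6983 3.1622 0.0005418 0.006918 0.000007103 0.0000003101 0.0001328 0.0000003101 0.0000003101 0.0000003101 0.7909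
    hβ hN hx1 hx2 hy1 hy2 (by norm_num) (by norm_num) (by linarith) (by norm_num) (by norm_num) (by norm_num) (by norm_num) (by norm_num) (by norm_num) (by norm_num) (by norm_num) (by norm_num) (by norm_num) (by norm_num) (by norm_num) (by norm_num) (by norm_num) (by norm_num) (by norm_num) (by norm_num) (by norm_num) (by norm_num) (by norm_num) (by norm_num)
    (cube_sqrt_geJ (s := 0.8135) (by norm_num) (by norm_num) (by norm_num) (by norm_num))
    (cube_sqrt_geJ (s := 0.9358) (by norm_num) (by norm_num) (by norm_num) (by norm_num))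
    (by norm_num) (by norm_num) (by norm_num) (by norm_num) (by norm_num) (by norm_num) (by norm_num) (by norm_num) (by norm_num) (by norm_num) (by norm_num) (by norm_num) (by norm_num) (by norm_num) (by norm_num) (by norm_num) (by norm_num) (by norm_num)
    (exp_neg_leJ (r := 0.521) 7 (by norm_num) (by norm_num) (by norm_num) (by norm_num))
    (exp_neg_leJ (r := 0.977) 4 (by norm_num) (by norm_num) (by norm_num) (by norm_num))
    (exp_neg_leJ (r := 0.857) 11 (by norm_num) (by norm_num) (by norm_num) (by norm_num))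
    (exp_neg_leJ (r := 0.99) 14 (by norm_num) (by norm_num) (by norm_num) (by norm_num))
    (exp_neg_leJ (r := 0.93) 8 (by norm_num) (by norm_num) (by norm_num) (by norm_num))
    (exp_neg_leJ (r := 0.99) 14 (by norm_num) (by norm_num) (by norm_num) (by norm_num))
    (exp_neg_leJ (r := 0.99) 14 (by norm_num) (by norm_num) (by norm_num) (by norm_num))
    (exp_neg_leJ (r := 0.99) 14 (by norm_num) (by norm_num) (by norm_num) (by norm_num))
    (by norm_num)) (by norm_num) hN hβ.le (by norm_num)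

private theorem JB6_k0a_b7_4 {β x y : ℝ} (hβ : 0 < β) (hN : β * 10.022 ≤ 1) (hx1 : 1.1648 ≤ x) (hx2 : x ≤ 1.4289)
    (hy1 : -0.11 ≤ y) (hy2 : y ≤ 0) : ‖HH β (x + y * I) - 1‖ ≤ 0.08 := by
  refine le_epsJ (C := 0.778) (N0 := 10.022) (J_boxp 1.1648 1.4289 0.11 0 0 1.4521 1.4332 1.7441 0.7548 0.5269 3.1658 10.022 0.987 4.042 1.57 0.769 0.726 0.4871 1.2333 2.9315 0.8606 2.1127 3.6012 3.1458 0.0006927 0.007606 0.000004287 0.0000003101 0.0001799 0.0000003101 0.0000003101 0.0000003101 0.778
    hβ hN hx1 hx2 hy1 hy2 (by norm_num) (by norm_num) (by linarith) (by norm_num) (by norm_num) (by norm_num) (by norm_num) (by norm_num) (by norm_num) (by norm_num) (by norm_num) (by norm_num) (by norm_num) (by norm_num) (by norm_num) (by norm_num) (by norm_num) (by norm_num) (by norm_num) (by norm_num) (by norm_num) (by norm_num) (by norm_num) (by norm_num)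
    (cube_sqrt_geJ (s := 0.8191) (by norm_num) (by norm_num) (by norm_num) (by norm_num))
    (cube_sqrt_geJ (s := 0.9376) (by norm_num) (by norm_num) (by norm_num) (by norm_num))
    (by norm_num) (by norm_num) (by norm_num) (by norm_num) (by norm_num) (by norm_num) (by norm_num) (by norm_num) (by norm_num) (by norm_num) (by norm_num) (by norm_num) (by norm_num) (by norm_num) (by norm_num) (by norm_num) (by norm_num) (by norm_num)
    (exp_neg_leJ (r := 0.275) 7 (by norm_num) (by norm_num) (by norm_num) (by norm_num))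
    (exp_neg_leJ (r := 0.881) 4 (by norm_num) (by norm_num) (by norm_num) (by norm_num))
    (exp_neg_leJ (r := 0.36) 12 (by norm_num) (by norm_num) (by norm_num) (by norm_num))
    (exp_neg_leJ (r := 0.99) 14 (by norm_num) (by norm_num) (by norm_num) (by norm_num))
    (exp_neg_leJ (r := 0.624) 8 (by norm_num) (by norm_num) (by norm_num) (by norm_num))
    (exp_neg_leJ (r := 0.99) 14 (by norm_num) (by norm_num) (by norm_num) (by norm_num))
    (exp_neg_leJ (r := 0.99) 14 (by norm_num) (by norm_num) (by norm_num) (by norm_num))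
    (exp_neg_leJ (r := 0.99) 14 (by norm_num) (by norm_num) (by norm_num) (by norm_num))
    (by norm_num)) (by norm_num) hN hβ.le (by norm_num)

private theorem JB6_k0a_b7_5 {β x y : ℝ} (hβ : 0 < β) (hN : β * 10.022 ≤ 1) (hx1 : 1.135 ≤ x) (hx2 : x ≤ 1.2801)
    (hy1 : -0 ≤ y) (hy2 : y ≤ 0.03) : ‖HH β (x + y * I) - 1‖ ≤ 0.08 := by
  refine le_epsJ (C := 0.4743) (N0 := 10.022) (J_boxp 1.135 1.2801 0 0.03 0.03 1.5092 1.2805 1.6431 0.6914 0.5114 3.1658 10.022 0.8485 3.202 1.469 0.9277 0.7545 0.5411 1.3968 3.3638 0.9032 2.0684 3.712 3.3599 0.0005206 0.004419 0.0000008429 0.0000003101 0.0001173 0.0000003101 0.0000003101 0.0000003101 0.4743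
    hβ hN hx1 hx2 hy1 hy2 (by norm_num) (by norm_num) (by linarith) (by norm_num) (by norm_num) (by norm_num) (by norm_num) (by norm_num) (by norm_num) (by norm_num) (by norm_num) (by norm_num) (by norm_num) (by norm_num) (by norm_num) (by norm_num) (by norm_num) (by norm_num) (by norm_num) (by norm_num) (by norm_num) (by norm_num) (by norm_num) (by norm_num)
    (cube_sqrt_geJ (s := 0.8468) (by norm_num) (by norm_num) (by norm_num) (by norm_num))
    (cube_sqrt_geJ (s := 0.9466) (by norm_num) (by norm_num) (by norm_num) (by norm_num))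
    (by norm_num) (by norm_num) (by norm_num) (by norm_num) (by norm_num) (by norm_num) (by norm_num) (by norm_num) (by norm_num) (by norm_num) (by norm_num) (by norm_num) (by norm_num) (by norm_num) (by norm_num) (by norm_num) (by norm_num) (by norm_num)
    (exp_neg_leJ (r := 0.561) 7 (by norm_num) (by norm_num) (by norm_num) (by norm_num))
    (exp_neg_leJ (r := 0.422) 5 (by norm_num) (by norm_num) (by norm_num) (by norm_num))
    (exp_neg_leJ (r := 0.99) 13 (by norm_num) (by norm_num) (by norm_num) (by norm_num))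
    (exp_neg_leJ (r := 0.99) 14 (by norm_num) (by norm_num) (by norm_num) (by norm_num))
    (exp_neg_leJ (r := 0.051) 9 (by norm_num) (by norm_num) (by norm_num) (by norm_num))
    (exp_neg_leJ (r := 0.99) 14 (by norm_num) (by norm_num) (by norm_num) (by norm_num))
    (exp_neg_leJ (r := 0.99) 14 (by norm_num) (by norm_num) (by norm_num) (by norm_num))
    (exp_neg_leJ (r := 0.99) 14 (by norm_num) (by norm_num) (by norm_num) (by norm_num))
    (by norm_num)) (by norm_num) hN hβ.le (by norm_num)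

private theorem JB6_k0a_c7 {κ t β : ℝ} (h : DomR κ t) (hβ : 0 < β) (hk1 : 1.17 ≤ κ) (hk2 : κ ≤ 1.28)
    (ht1 : -0.45 ≤ t + κ) (ht2 : t + κ ≤ 0.06) (hR0 : β * 10 ≤ κ) (hR : β * (4.95 * (1 + κ ^ 2)) ≤ κ) :
    ‖HH β (sg κ t) - 1‖ ≤ 0.08 := by
  have hN : β * 10.022 ≤ 1 := bNC' hβ hk1 (by norm_num) (by norm_num) hR (by norm_num)
  have hy1 : -0.235 ≤ sy κ t := syL_ge h 1.17 1.28 0.45 0.235 0.79057 0.79058 0.1496 0.14514 0.1588 hk1 hk2 (by linarith) (by norm_num) (by norm_num) (by norm_num)
    (expm_ge (by norm_num) (by norm_num) (by norm_num) (by norm_num)) (expm_le (by norm_num) (by norm_num) (by norm_num)) (by norm_num)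
    (by norm_num) (by norm_num) (by norm_num) (by norm_num) (by norm_num) (by norm_num)
  have hy2 : sy κ t ≤ 0.03 := syR_le h 1.17 1.28 0.06 0.03 1.03045 0.0235 0.02415 0.02643 hk1 hk2 (by linarith) (by norm_num) (by norm_num)
    (expn_ge (by norm_num) (by norm_num)) (by norm_num) (by norm_num) (Or.inr ((mul_le_mul_of_nonneg_left (expn_le (E := 1.03046) (by norm_num) (by norm_num) (by norm_num)) (by norm_num)).trans (by norm_num))) (by norm_num) (by norm_num) (by norm_num)
  rcases le_total (sy κ t) (-0.225) with f0 | g0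
  · have hx1 : 1.4462 ≤ sx κ t := sx_lo h 1.17 (-0.225) 0.235 1.25232 1.4462 hk1 (by norm_num) f0 (abs_le.2 ⟨by linarith, by linarith⟩) (by rw [neg_neg]; exact expn_ge (by norm_num) (by norm_num)) (by norm_num) (by norm_num)
    have hx2 : sx κ t ≤ 1.6034 := sx_hi h 1.28 (-0.235) 0.225 1.26491 1.6034 hk2 hy1 (by norm_num) (by rw [abs_of_nonpos (by linarith)]; linarith) (by rw [neg_neg]; exact expn_le (by norm_num) (by norm_num) (by norm_num)) (by norm_num) (by norm_num)
    exact JB6_k0a_b7_0 hβ hN hx1 hx2 (by linarith) (by linarith)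
  rcases le_total (sy κ t) (-0.205) with f1 | g1
  · have hx1 : 1.4184 ≤ sx κ t := sx_lo h 1.17 (-0.205) 0.225 1.22752 1.4184 hk1 (by norm_num) f1 (abs_le.2 ⟨by linarith, by linarith⟩) (by rw [neg_neg]; exact expn_ge (by norm_num) (by norm_num)) (by norm_num) (by norm_num)
    have hx2 : sx κ t ≤ 1.5899 := sx_hi h 1.28 (-0.225) 0.205 1.25233 1.5899 hk2 g0 (by norm_num) (by rw [abs_of_nonpos (by linarith)]; linarith) (by rw [neg_neg]; exact expn_le (by norm_num) (by norm_num) (by norm_num)) (by norm_num) (by norm_num)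
    exact JB6_k0a_b7_1 hβ hN hx1 hx2 (by linarith) (by linarith)
  rcases le_total (sy κ t) (-0.17) with f2 | g2
  · have hx1 : 1.3715 ≤ sx κ t := sx_lo h 1.17 (-0.17) 0.205 1.1853 1.3715 hk1 (by norm_num) f2 (abs_le.2 ⟨by linarith, by linarith⟩) (by rw [neg_neg]; exact expn_ge (by norm_num) (by norm_num)) (by norm_num) (by norm_num)
    have hx2 : sx κ t ≤ 1.5621 := sx_hi h 1.28 (-0.205) 0.17 1.22753 1.5621 hk2 g1 (by norm_num) (by rw [abs_of_nonpos (by linarith)]; linarith) (by rw [neg_neg]; exact expn_le (by norm_num) (by norm_num) (by norm_num)) (by norm_num) (by norm_num)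
    exact JB6_k0a_b7_2 hβ hN hx1 hx2 (by linarith) (by linarith)
  rcases le_total (sy κ t) (-0.11) with f3 | g3
  · have hx1 : 1.2949 ≤ sx κ t := sx_lo h 1.17 (-0.11) 0.17 1.11627 1.2949 hk1 (by norm_num) f3 (abs_le.2 ⟨by linarith, by linarith⟩) (by rw [neg_neg]; exact expn_ge (by norm_num) (by norm_num)) (by norm_num) (by norm_num)
    have hx2 : sx κ t ≤ 1.5133 := sx_hi h 1.28 (-0.17) 0.11 1.18531 1.5133 hk2 g2 (by norm_num) (by rw [abs_of_nonpos (by linarith)]; linarith) (by rw [neg_neg]; exact expn_le (by norm_num) (by norm_num) (by norm_num)) (by norm_num) (by norm_num)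
    exact JB6_k0a_b7_3 hβ hN hx1 hx2 (by linarith) (by linarith)
  rcases le_total (sy κ t) 0 with f4 | g4
  · have hx1 : 1.1648 ≤ sx κ t := sx_lo h 1.17 0 0.11 1 1.1648 hk1 (by norm_num) f4 (abs_le.2 ⟨by linarith, by linarith⟩) (by simp) (by norm_num) (by norm_num)
    have hx2 : sx κ t ≤ 1.4289 := sx_hi h 1.28 (-0.11) 0 1.11628 1.4289 hk2 g3 (by norm_num) (abs_nonneg _) (by rw [neg_neg]; exact expn_le (by norm_num) (by norm_num) (by norm_num)) (by norm_num) (by norm_num)
    exact JB6_k0a_b7_4 hβ hN hx1 hx2 (by linarith) (by linarith)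
  have hx1 : 1.135 ≤ sx κ t := sx_lo h 1.17 0.03 0.03 0.97044 1.135 hk1 (by norm_num) hy2 (abs_le.2 ⟨by linarith, by linarith⟩) (expm_ge (by norm_num) (by norm_num) (by norm_num) (by norm_num)) (by norm_num) (by norm_num)
  have hx2 : sx κ t ≤ 1.2801 := sx_hi h 1.28 0 0 1 1.2801 hk2 g4 (by norm_num) (abs_nonneg _) (by simp) (by norm_num) (by norm_num)
  exact JB6_k0a_b7_5 hβ hN hx1 hx2 (by linarith) (by linarith)

private theorem JB6_k0a_b8_0 {β x y : ℝ} (hβ : 0 < β) (hN : β * 10.203 ≤ 1) (hx1 : 1.5499 ≤ x) (hx2 : x ≤ 1.7325)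
    (hy1 : -0.227 ≤ y) (hy2 : y ≤ -0.202) : ‖HH β (x + y * I) - 1‖ ≤ 0.08 := by
  refine le_epsJ (C := 0.802) (N0 := 10.203) (J_boxp 1.5499 1.7325 0.227 0 (-0.202) 1.6402 1.7474 1.9075 0.6575 0.551 3.1943 10.203 1.0654 4.644 1.632 0.5442 0.82 0.5288 1.1805 2.3859 0.9838 2.646 4.0534 3.0619 0.0002327 0.00454 0.00000588 0.0000003101 0.00004376 0.0000003101 0.0000003101 0.0000003101 0.802
    hβ hN hx1 hx2 hy1 hy2 (by norm_num) (by norm_num) (by linarith) (by norm_num) (by norm_num) (by norm_num) (by norm_num) (by norm_num) (by norm_num) (by norm_num) (by norm_num) (by norm_num) (by norm_num) (by norm_num) (by norm_num) (by norm_num) (by norm_num) (by norm_num) (by norm_num) (by norm_num) (by norm_num) (by norm_num) (by norm_num) (by norm_num)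
    (cube_sqrt_geJ (s := 0.803) (by norm_num) (by norm_num) (by norm_num) (by norm_num))
    (cube_sqrt_geJ (s := 0.9324) (by norm_num) (by norm_num) (by norm_num) (by norm_num))
    (by norm_num) (by norm_num) (by norm_num) (by norm_num) (by norm_num) (by norm_num) (by norm_num) (by norm_num) (by norm_num) (by norm_num) (by norm_num) (by norm_num) (by norm_num) (by norm_num) (by norm_num) (by norm_num) (by norm_num) (by norm_num)
    (exp_neg_leJ (r := 0.366) 8 (by norm_num) (by norm_num) (by norm_num) (by norm_num))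
    (exp_neg_leJ (r := 0.395) 5 (by norm_num) (by norm_num) (by norm_num) (by norm_num))
    (exp_neg_leJ (r := 0.044) 12 (by norm_num) (by norm_num) (by norm_num) (by norm_num))
    (exp_neg_leJ (r := 0.99) 14 (by norm_num) (by norm_num) (by norm_num) (by norm_num))
    (exp_neg_leJ (r := 0.037) 10 (by norm_num) (by norm_num) (by norm_num) (by norm_num))
    (exp_neg_leJ (r := 0.99) 14 (by norm_num) (by norm_num) (by norm_num) (by norm_num))
    (exp_neg_leJ (r := 0.99) 14 (by norm_num) (by norm_num) (by norm_num) (by norm_num))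
    (exp_neg_leJ (r := 0.99) 14 (by norm_num) (by norm_num) (by norm_num) (by norm_num))
    (by norm_num)) (by norm_num) hN hβ.le (by norm_num)

private theorem JB6_k0a_b8_1 {β x y : ℝ} (hβ : 0 < β) (hN : β * 10.203 ≤ 1) (hx1 : 1.4839 ≤ x) (hx2 : x ≤ 1.6939)
    (hy1 : -0.202 ≤ y) (hy2 : y ≤ -0.157) : ‖HH β (x + y * I) - 1‖ ≤ 0.08 := by
  refine le_epsJ (C := 0.8091) (N0 := 10.203) (J_boxp 1.4839 1.6939 0.202 0 (-0.157) 1.6115 1.706 1.8921 0.6724 0.5488 3.1943 10.203 1.0587 4.588 1.626 0.5821 0.8057 0.5214 1.1973 2.4874 0.9654 2.5546 3.9894 3.0424 0.0002693 0.004898 0.000004951 0.0000003101 0.0000529 0.0000003101 0.0000003101 0.0000003101 0.8091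
    hβ hN hx1 hx2 hy1 hy2 (by norm_num) (by norm_num) (by linarith) (by norm_num) (by norm_num) (by norm_num) (by norm_num) (by norm_num) (by norm_num) (by norm_num) (by norm_num) (by norm_num) (by norm_num) (by norm_num) (by norm_num) (by norm_num) (by norm_num) (by norm_num) (by norm_num) (by norm_num) (by norm_num) (by norm_num) (by norm_num) (by norm_num)
    (cube_sqrt_geJ (s := 0.8044) (by norm_num) (by norm_num) (by norm_num) (by norm_num))
    (cube_sqrt_geJ (s := 0.9329) (by norm_num) (by norm_num) (by norm_num) (by norm_num))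
    (by norm_num) (by norm_num) (by norm_num) (by norm_num) (by norm_num) (by norm_num) (by norm_num) (by norm_num) (by norm_num) (by norm_num) (by norm_num) (by norm_num) (by norm_num) (by norm_num) (by norm_num) (by norm_num) (by norm_num) (by norm_num)
    (exp_neg_leJ (r := 0.22) 8 (by norm_num) (by norm_num) (by norm_num) (by norm_num))
    (exp_neg_leJ (r := 0.319) 5 (by norm_num) (by norm_num) (by norm_num) (by norm_num))
    (exp_neg_leJ (r := 0.216) 12 (by norm_num) (by norm_num) (by norm_num) (by norm_num))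
    (exp_neg_leJ (r := 0.99) 14 (by norm_num) (by norm_num) (by norm_num) (by norm_num))
    (exp_neg_leJ (r := 0.849) 9 (by norm_num) (by norm_num) (by norm_num) (by norm_num))
    (exp_neg_leJ (r := 0.99) 14 (by norm_num) (by norm_num) (by norm_num) (by norm_num))
    (exp_neg_leJ (r := 0.99) 14 (by norm_num) (by norm_num) (by norm_num) (by norm_num))
    (exp_neg_leJ (r := 0.99) 14 (by norm_num) (by norm_num) (by norm_num) (by norm_num))
    (by norm_num)) (by norm_num) hN hβ.le (by norm_num)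

private theorem JB6_k0a_b8_2 {β x y : ℝ} (hβ : 0 < β) (hN : β * 10.203 ≤ 1) (hx1 : 1.3735 ≤ x) (hx2 : x ≤ 1.6245)
    (hy1 : -0.157 ≤ y) (hy2 : y ≤ -0.077) : ‖HH β (x + y * I) - 1‖ ≤ 0.08 := by
  refine le_epsJ (C := 0.8099) (N0 := 10.203) (J_boxp 1.3735 1.6245 0.157 0 (-0.077) 1.5657 1.6321 1.8685 0.6978 0.5454 3.1943 10.203 1.0425 4.457 1.613 0.6503 0.7828 0.5108 1.2306 2.67 0.9363 2.4017 3.8909 3.0225 0.0003414 0.005457 0.000003529 0.0000003101 0.00007101 0.0000003101 0.0000003101 0.0000003101 0.8099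
    hβ hN hx1 hx2 hy1 hy2 (by norm_num) (by norm_num) (by linarith) (by norm_num) (by norm_num) (by norm_num) (by norm_num) (by norm_num) (by norm_num) (by norm_num) (by norm_num) (by norm_num) (by norm_num) (by norm_num) (by norm_num) (by norm_num) (by norm_num) (by norm_num) (by norm_num) (by norm_num) (by norm_num) (by norm_num) (by norm_num) (by norm_num)
    (cube_sqrt_geJ (s := 0.8077) (by norm_num) (by norm_num) (by norm_num) (by norm_num))
    (cube_sqrt_geJ (s := 0.934) (by norm_num) (by norm_num) (by norm_num) (by norm_num))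
    (by norm_num) (by norm_num) (by norm_num) (by norm_num) (by norm_num) (by norm_num) (by norm_num) (by norm_num) (by norm_num) (by norm_num) (by norm_num) (by norm_num) (by norm_num) (by norm_num) (by norm_num) (by norm_num) (by norm_num) (by norm_num)
    (exp_neg_leJ (r := 0.986) 7 (by norm_num) (by norm_num) (by norm_num) (by norm_num))
    (exp_neg_leJ (r := 0.211) 5 (by norm_num) (by norm_num) (by norm_num) (by norm_num))
    (exp_neg_leJ (r := 0.555) 12 (by norm_num) (by norm_num) (by norm_num) (by norm_num))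
    (exp_neg_leJ (r := 0.99) 14 (by norm_num) (by norm_num) (by norm_num) (by norm_num))
    (exp_neg_leJ (r := 0.553) 9 (by norm_num) (by norm_num) (by norm_num) (by norm_num))
    (exp_neg_leJ (r := 0.99) 14 (by norm_num) (by norm_num) (by norm_num) (by norm_num))
    (exp_neg_leJ (r := 0.99) 14 (by norm_num) (by norm_num) (by norm_num) (by norm_num))
    (exp_neg_leJ (r := 0.99) 14 (by norm_num) (by norm_num) (by norm_num) (by norm_num))
    (by norm_num)) (by norm_num) hN hβ.le (by norm_num)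

private theorem JB6_k0a_b8_3 {β x y : ℝ} (hβ : 0 < β) (hN : β * 10.203 ≤ 1) (hx1 : 1.241 ≤ x) (hx2 : x ≤ 1.5013)
    (hy1 : -0.077 ≤ y) (hy2 : y ≤ 0.029) : ‖HH β (x + y * I) - 1‖ ≤ 0.08 := by
  refine le_epsJ (C := 0.7073) (N0 := 10.203) (J_boxp 1.241 1.5013 0.077 0.029 0.029 1.5292 1.5033 1.8201 0.7135 0.5383 3.1943 10.203 0.9831 4.014 1.567 0.7716 0.7645 0.514 1.3115 2.9938 0.9127 2.2153 3.719 2.971 0.0004104 0.00528 0.000001545 0.0000003101 0.00009034 0.0000003101 0.0000003101 0.0000003101 0.7073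
    hβ hN hx1 hx2 hy1 hy2 (by norm_num) (by norm_num) (by linarith) (by norm_num) (by norm_num) (by norm_num) (by norm_num) (by norm_num) (by norm_num) (by norm_num) (by norm_num) (by norm_num) (by norm_num) (by norm_num) (by norm_num) (by norm_num) (by norm_num) (by norm_num) (by norm_num) (by norm_num) (by norm_num) (by norm_num) (by norm_num) (by norm_num)
    (cube_sqrt_geJ (s := 0.8199) (by norm_num) (by norm_num) (by norm_num) (by norm_num))
    (cube_sqrt_geJ (s := 0.9378) (by norm_num) (by norm_num) (by norm_num) (by norm_num))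
    (by norm_num) (by norm_num) (by norm_num) (by norm_num) (by norm_num) (by norm_num) (by norm_num) (by norm_num) (by norm_num) (by norm_num) (by norm_num) (by norm_num) (by norm_num) (by norm_num) (by norm_num) (by norm_num) (by norm_num) (by norm_num)
    (exp_neg_leJ (r := 0.8) 7 (by norm_num) (by norm_num) (by norm_num) (by norm_num))
    (exp_neg_leJ (r := 0.244) 5 (by norm_num) (by norm_num) (by norm_num) (by norm_num))
    (exp_neg_leJ (r := 0.381) 13 (by norm_num) (by norm_num) (by norm_num) (by norm_num))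
    (exp_neg_leJ (r := 0.99) 14 (by norm_num) (by norm_num) (by norm_num) (by norm_num))
    (exp_neg_leJ (r := 0.312) 9 (by norm_num) (by norm_num) (by norm_num) (by norm_num))
    (exp_neg_leJ (r := 0.99) 14 (by norm_num) (by norm_num) (by norm_num) (by norm_num))
    (exp_neg_leJ (r := 0.99) 14 (by norm_num) (by norm_num) (by norm_num) (by norm_num))
    (exp_neg_leJ (r := 0.99) 14 (by norm_num) (by norm_num) (by norm_num) (by norm_num))
    (by norm_num)) (by norm_num) hN hβ.le (by norm_num)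

private theorem JB6_k0a_c8 {κ t β : ℝ} (h : DomR κ t) (hβ : 0 < β) (hk1 : 1.28 ≤ κ) (hk2 : κ ≤ 1.39)
    (ht1 : -0.45 ≤ t + κ) (ht2 : t + κ ≤ 0.06) (hR0 : β * 10 ≤ κ) (hR : β * (4.95 * (1 + κ ^ 2)) ≤ κ) :
    ‖HH β (sg κ t) - 1‖ ≤ 0.08 := by
  have hN : β * 10.203 ≤ 1 := bNC' hβ hk1 (by norm_num) (by norm_num) hR (by norm_num)
  have hy1 : -0.227 ≤ sy κ t := syL_ge h 1.28 1.39 0.45 0.227 0.79692 0.79693 0.1273 0.13014 0.14134 hk1 hk2 (by linarith) (by norm_num) (by norm_num) (by norm_num)
    (expm_ge (by norm_num) (by norm_num) (by norm_num) (by norm_num)) (expm_le (by norm_num) (by norm_num) (by norm_num)) (by norm_num)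
    (by norm_num) (by norm_num) (by norm_num) (by norm_num) (by norm_num) (by norm_num)
  have hy2 : sy κ t ≤ 0.029 := syR_le h 1.28 1.39 0.06 0.029 1.02942 0.021 0.02147 0.02333 hk1 hk2 (by linarith) (by norm_num) (by norm_num)
    (expn_ge (by norm_num) (by norm_num)) (by norm_num) (by norm_num) (Or.inr ((mul_le_mul_of_nonneg_left (expn_le (E := 1.02943) (by norm_num) (by norm_num) (by norm_num)) (by norm_num)).trans (by norm_num))) (by norm_num) (by norm_num) (by norm_num)
  rcases le_total (sy κ t) (-0.202) with f0 | g0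
  · have hx1 : 1.5499 ≤ sx κ t := sx_lo h 1.28 (-0.202) 0.227 1.22384 1.5499 hk1 (by norm_num) f0 (abs_le.2 ⟨by linarith, by linarith⟩) (by rw [neg_neg]; exact expn_ge (by norm_num) (by norm_num)) (by norm_num) (by norm_num)
    have hx2 : sx κ t ≤ 1.7325 := sx_hi h 1.39 (-0.227) 0.202 1.25483 1.7325 hk2 hy1 (by norm_num) (by rw [abs_of_nonpos (by linarith)]; linarith) (by rw [neg_neg]; exact expn_le (by norm_num) (by norm_num) (by norm_num)) (by norm_num) (by norm_num)
    exact JB6_k0a_b8_0 hβ hN hx1 hx2 (by linarith) (by linarith)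
  rcases le_total (sy κ t) (-0.157) with f1 | g1
  · have hx1 : 1.4839 ≤ sx κ t := sx_lo h 1.28 (-0.157) 0.202 1.16999 1.4839 hk1 (by norm_num) f1 (abs_le.2 ⟨by linarith, by linarith⟩) (by rw [neg_neg]; exact expn_ge (by norm_num) (by norm_num)) (by norm_num) (by norm_num)
    have hx2 : sx κ t ≤ 1.6939 := sx_hi h 1.39 (-0.202) 0.157 1.22385 1.6939 hk2 g0 (by norm_num) (by rw [abs_of_nonpos (by linarith)]; linarith) (by rw [neg_neg]; exact expn_le (by norm_num) (by norm_num) (by norm_num)) (by norm_num) (by norm_num)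
    exact JB6_k0a_b8_1 hβ hN hx1 hx2 (by linarith) (by linarith)
  rcases le_total (sy κ t) (-0.077) with f2 | g2
  · have hx1 : 1.3735 ≤ sx κ t := sx_lo h 1.28 (-0.077) 0.157 1.08004 1.3735 hk1 (by norm_num) f2 (abs_le.2 ⟨by linarith, by linarith⟩) (by rw [neg_neg]; exact expn_ge (by norm_num) (by norm_num)) (by norm_num) (by norm_num)
    have hx2 : sx κ t ≤ 1.6245 := sx_hi h 1.39 (-0.157) 0.077 1.17 1.6245 hk2 g1 (by norm_num) (by rw [abs_of_nonpos (by linarith)]; linarith) (by rw [neg_neg]; exact expn_le (by norm_num) (by norm_num) (by norm_num)) (by norm_num) (by norm_num)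
    exact JB6_k0a_b8_2 hβ hN hx1 hx2 (by linarith) (by linarith)
  have hx1 : 1.241 ≤ sx κ t := sx_lo h 1.28 0.029 0.077 0.97141 1.241 hk1 (by norm_num) hy2 (abs_le.2 ⟨by linarith, by linarith⟩) (expm_ge (by norm_num) (by norm_num) (by norm_num) (by norm_num)) (by norm_num) (by norm_num)
  have hx2 : sx κ t ≤ 1.5013 := sx_hi h 1.39 (-0.077) 0 1.08005 1.5013 hk2 g2 (by norm_num) (abs_nonneg _) (by rw [neg_neg]; exact expn_le (by norm_num) (by norm_num) (by norm_num)) (by norm_num) (by norm_num)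
  exact JB6_k0a_b8_3 hβ hN hx1 hx2 (by linarith) (by linarith)

theorem JB6_k0a {κ t β : ℝ} (h : DomR κ t) (hβ : 0 < β) (hk1 : 0.3 ≤ κ) (hk2 : κ ≤ 1.39)
    (ht1 : -0.45 ≤ t + κ) (ht2 : t + κ ≤ 0.06) (hR0 : β * 10 ≤ κ) (hR : β * (4.95 * (1 + κ ^ 2)) ≤ κ) :
    ‖HH β (sg κ t) - 1‖ ≤ 0.08 := by
  rcases le_total κ 0.55 with f0 | g0
  · exact JB6_k0a_c0 h hβ hk1 f0 ht1 ht2 hR0 hR
  rcases le_total κ 0.73 with f1 | g1
  · exact JB6_k0a_c1 h hβ g0 f1 ht1 ht2 hR0 hR
  rcases le_total κ 0.86 with f2 | g2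
  · exact JB6_k0a_c2 h hβ g1 f2 ht1 ht2 hR0 hR
  rcases le_total κ 0.96 with f3 | g3
  · exact JB6_k0a_c3 h hβ g2 f3 ht1 ht2 hR0 hR
  rcases le_total κ 1 with f4 | g4
  · exact JB6_k0a_c4 h hβ g3 f4 ht1 ht2 hR0 hR
  rcases le_total κ 1.08 with f5 | g5
  · exact JB6_k0a_c5 h hβ g4 f5 ht1 ht2 hR0 hR
  rcases le_total κ 1.17 with f6 | g6
  · exact JB6_k0a_c6 h hβ g5 f6 ht1 ht2 hR0 hR
  rcases le_total κ 1.28 with f7 | g7
  · exact JB6_k0a_c7 h hβ g6 f7 ht1 ht2 hR0 hR
  exact JB6_k0a_c8 h hβ g7 hk2 ht1 ht2 hR0 hR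

end Sok
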