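import Pool.Agent.Lib.MP_816dec_an.JBG2

/-!
MP_816dec_an (A3, row R1): tables b = 6, real points.
-/

set_option autoImplicit false
set_option maxHeartbeats 4000000

open Complex Set

namespace Sok

private theorem JB6_k0b_b0_0 {β x y : ℝ} (hβ : 0 < β) (hN : β * 20.408 ≤ 1) (hx1 : 0.255 ≤ x) (hx2 : x ≤ 0.598)
    (hy1 : -0.325 ≤ y) (hy2 : y ≤ -0.32) : ‖HH β (x + y * I) - 1‖ ≤ 0.11 := by
  refine le_epsJ (C := 2.1963) (N0 := 20.408) (J_boxp 0.255 0.598 0.325 0 (-0.32) 0.6588 0.6807 0.9056 1.7797 0.3797 4.5176 20.408 1.0333 4.385 1.606 0.8901 0.3293 0.2159 0.5825 2.716 0.3013 0.853 1.1972 3.3717 0.001208 0.01221 0.000006895 0.0000003101 0.002138 0.0000003101 0.0000003101 0.0000003101 2.1963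
    hβ hN hx1 hx2 hy1 hy2 (by norm_num) (by norm_num) (by linarith) (by norm_num) (by norm_num) (by norm_num) (by norm_num) (by norm_num) (by norm_num) (by norm_num) (by norm_num) (by norm_num) (by norm_num) (by norm_num) (by norm_num) (by norm_num) (by norm_num) (by norm_num) (by norm_num) (by norm_num) (by norm_num) (by norm_num) (by norm_num) (by norm_num)
    (cube_sqrt_geJ (s := 0.8096) (by norm_num) (by norm_num) (by norm_num) (by norm_num))
    (cube_sqrt_geJ (s := 0.9346) (by norm_num) (by norm_num) (by norm_num) (by norm_num))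
    (by norm_num) (by norm_num) (by norm_num) (by norm_num) (by norm_num) (by norm_num) (by norm_num) (by norm_num) (by norm_num) (by norm_num) (by norm_num) (by norm_num) (by norm_num) (by norm_num) (by norm_num) (by norm_num) (by norm_num) (by norm_num)
    (exp_neg_leJ (r := 0.72) 6 (by norm_num) (by norm_num) (by norm_num) (by norm_num))
    (exp_neg_leJ (r := 0.406) 4 (by norm_num) (by norm_num) (by norm_num) (by norm_num))
    (exp_neg_leJ (r := 0.887) 11 (by norm_num) (by norm_num) (by norm_num) (by norm_num))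
    (exp_neg_leJ (r := 0.99) 14 (by norm_num) (by norm_num) (by norm_num) (by norm_num))
    (exp_neg_leJ (r := 0.148) 6 (by norm_num) (by norm_num) (by norm_num) (by norm_num))
    (exp_neg_leJ (r := 0.99) 14 (by norm_num) (by norm_num) (by norm_num) (by norm_num))
    (exp_neg_leJ (r := 0.99) 14 (by norm_num) (by norm_num) (by norm_num) (by norm_num))
    (exp_neg_leJ (r := 0.99) 14 (by norm_num) (by norm_num) (by norm_num) (by norm_num))
    (by norm_num)) (by norm_num) hN hβ.le (by norm_num)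

private theorem JB6_k0b_b0_1 {β x y : ℝ} (hβ : 0 < β) (hN : β * 20.408 ≤ 1) (hx1 : 0.2514 ≤ x) (hx2 : x ≤ 0.602)
    (hy1 : -0.32 ≤ y) (hy2 : y ≤ -0.305) : ‖HH β (x + y * I) - 1‖ ≤ 0.11 := by
  refine le_epsJ (C := 2.2063) (N0 := 20.408) (J_boxp 0.2514 0.602 0.32 0 (-0.305) 0.6598 0.6818 0.9195 1.7892 0.3826 4.5176 20.408 1.0334 4.385 1.606 0.8931 0.3298 0.2162 0.5892 2.7301 0.3023 0.848 1.2036 3.3615 0.001196 0.01214 0.000005999 0.0000003101 0.002094 0.0000003101 0.0000003101 0.0000003101 2.2063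
    hβ hN hx1 hx2 hy1 hy2 (by norm_num) (by norm_num) (by linarith) (by norm_num) (by norm_num) (by norm_num) (by norm_num) (by norm_num) (by norm_num) (by norm_num) (by norm_num) (by norm_num) (by norm_num) (by norm_num) (by norm_num) (by norm_num) (by norm_num) (by norm_num) (by norm_num) (by norm_num) (by norm_num) (by norm_num) (by norm_num) (by norm_num)
    (cube_sqrt_geJ (s := 0.8096) (by norm_num) (by norm_num) (by norm_num) (by norm_num))
    (cube_sqrt_geJ (s := 0.9345) (by norm_num) (by norm_num) (by norm_num) (by norm_num))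
    (by norm_num) (by norm_num) (by norm_num) (by norm_num) (by norm_num) (by norm_num) (by norm_num) (by norm_num) (by norm_num) (by norm_num) (by norm_num) (by norm_num) (by norm_num) (by norm_num) (by norm_num) (by norm_num) (by norm_num) (by norm_num)
    (exp_neg_leJ (r := 0.73) 6 (by norm_num) (by norm_num) (by norm_num) (by norm_num))
    (exp_neg_leJ (r := 0.412) 4 (by norm_num) (by norm_num) (by norm_num) (by norm_num))
    (exp_neg_leJ (r := 0.024) 12 (by norm_num) (by norm_num) (by norm_num) (by norm_num))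
    (exp_neg_leJ (r := 0.99) 14 (by norm_num) (by norm_num) (by norm_num) (by norm_num))
    (exp_neg_leJ (r := 0.169) 6 (by norm_num) (by norm_num) (by norm_num) (by norm_num))
    (exp_neg_leJ (r := 0.99) 14 (by norm_num) (by norm_num) (by norm_num) (by norm_num))
    (exp_neg_leJ (r := 0.99) 14 (by norm_num) (by norm_num) (by norm_num) (by norm_num))
    (exp_neg_leJ (r := 0.99) 14 (by norm_num) (by norm_num) (by norm_num) (by norm_num))
    (by norm_num)) (by norm_num) hN hβ.le (by norm_num)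

private theorem JB6_k0b_b0_2 {β x y : ℝ} (hβ : 0 < β) (hN : β * 20.408 ≤ 1) (hx1 : 0.2415 ≤ x) (hx2 : x ≤ 0.6118)
    (hy1 : -0.305 ≤ y) (hy2 : y ≤ -0.26) : ‖HH β (x + y * I) - 1‖ ≤ 0.11 := by
  refine le_epsJ (C := 2.2111) (N0 := 20.408) (J_boxp 0.2415 0.6118 0.305 0 (-0.26) 0.6635 0.6837 0.9602 1.8131 0.391 4.5176 20.408 1.0305 4.363 1.604 0.9032 0.3317 0.2177 0.6095 2.7737 0.3057 0.8343 1.2246 3.3365 0.001151 0.01178 0.000003966 0.0000003101 0.001954 0.0000003101 0.0000003101 0.0000003101 2.2111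
    hβ hN hx1 hx2 hy1 hy2 (by norm_num) (by norm_num) (by linarith) (by norm_num) (by norm_num) (by norm_num) (by norm_num) (by norm_num) (by norm_num) (by norm_num) (by norm_num) (by norm_num) (by norm_num) (by norm_num) (by norm_num) (by norm_num) (by norm_num) (by norm_num) (by norm_num) (by norm_num) (by norm_num) (by norm_num) (by norm_num) (by norm_num)
    (cube_sqrt_geJ (s := 0.8102) (by norm_num) (by norm_num) (by norm_num) (by norm_num))
    (cube_sqrt_geJ (s := 0.9347) (by norm_num) (by norm_num) (by norm_num) (by norm_num))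
    (by norm_num) (by norm_num) (by norm_num) (by norm_num) (by norm_num) (by norm_num) (by norm_num) (by norm_num) (by norm_num) (by norm_num) (by norm_num) (by norm_num) (by norm_num) (by norm_num) (by norm_num) (by norm_num) (by norm_num) (by norm_num)
    (exp_neg_leJ (r := 0.769) 6 (by norm_num) (by norm_num) (by norm_num) (by norm_num))
    (exp_neg_leJ (r := 0.442) 4 (by norm_num) (by norm_num) (by norm_num) (by norm_num))
    (exp_neg_leJ (r := 0.438) 12 (by norm_num) (by norm_num) (by norm_num) (by norm_num))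
    (exp_neg_leJ (r := 0.99) 14 (by norm_num) (by norm_num) (by norm_num) (by norm_num))
    (exp_neg_leJ (r := 0.238) 6 (by norm_num) (by norm_num) (by norm_num) (by norm_num))
    (exp_neg_leJ (r := 0.99) 14 (by norm_num) (by norm_num) (by norm_num) (by norm_num))
    (exp_neg_leJ (r := 0.99) 14 (by norm_num) (by norm_num) (by norm_num) (by norm_num))
    (exp_neg_leJ (r := 0.99) 14 (by norm_num) (by norm_num) (by norm_num) (by norm_num))
    (by norm_num)) (by norm_num) hN hβ.le (by norm_num)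

private theorem JB6_k0b_b0_3 {β x y : ℝ} (hβ : 0 < β) (hN : β * 20.408 ≤ 1) (hx1 : 0.22 ≤ x) (hx2 : x ≤ 0.6227)
    (hy1 : -0.26 ≤ y) (hy2 : y ≤ -0.127) : ‖HH β (x + y * I) - 1‖ ≤ 0.11 := by
  refine le_epsJ (C := 1.9989) (N0 := 20.408) (J_boxp 0.22 0.6227 0.26 0 (-0.127) 0.6803 0.6749 1.0724 1.8456 0.4132 4.5176 20.408 0.9921 4.077 1.574 0.9406 0.3401 0.2276 0.6731 2.9139 0.3198 0.8046 1.3039 3.3175 0.0009711 0.009625 0.000001084 0.0000003101 0.001466 0.0000003101 0.0000003101 0.0000003101 1.9989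
    hβ hN hx1 hx2 hy1 hy2 (by norm_num) (by norm_num) (by linarith) (by norm_num) (by norm_num) (by norm_num) (by norm_num) (by norm_num) (by norm_num) (by norm_num) (by norm_num) (by norm_num) (by norm_num) (by norm_num) (by norm_num) (by norm_num) (by norm_num) (by norm_num) (by norm_num) (by norm_num) (by norm_num) (by norm_num) (by norm_num) (by norm_num)
    (cube_sqrt_geJ (s := 0.8181) (by norm_num) (by norm_num) (by norm_num) (by norm_num))
    (cube_sqrt_geJ (s := 0.9372) (by norm_num) (by norm_num) (by norm_num) (by norm_num))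
    (by norm_num) (by norm_num) (by norm_num) (by norm_num) (by norm_num) (by norm_num) (by norm_num) (by norm_num) (by norm_num) (by norm_num) (by norm_num) (by norm_num) (by norm_num) (by norm_num) (by norm_num) (by norm_num) (by norm_num) (by norm_num)
    (exp_neg_leJ (r := 0.94) 6 (by norm_num) (by norm_num) (by norm_num) (by norm_num))
    (exp_neg_leJ (r := 0.644) 4 (by norm_num) (by norm_num) (by norm_num) (by norm_num))
    (exp_neg_leJ (r := 0.736) 13 (by norm_num) (by norm_num) (by norm_num) (by norm_num))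
    (exp_neg_leJ (r := 0.99) 14 (by norm_num) (by norm_num) (by norm_num) (by norm_num))
    (exp_neg_leJ (r := 0.526) 6 (by norm_num) (by norm_num) (by norm_num) (by norm_num))
    (exp_neg_leJ (r := 0.99) 14 (by norm_num) (by norm_num) (by norm_num) (by norm_num))
    (exp_neg_leJ (r := 0.99) 14 (by norm_num) (by norm_num) (by norm_num) (by norm_num))
    (exp_neg_leJ (r := 0.99) 14 (by norm_num) (by norm_num) (by norm_num) (by norm_num))
    (by norm_num)) (by norm_num) hN hβ.le (by norm_num)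

private theorem JB6_k0b_c0 {κ t β : ℝ} (h : DomR κ t) (hβ : 0 < β) (hk1 : 0.3 ≤ κ) (hk2 : κ ≤ 0.49)
    (ht1 : -0.6 ≤ t + κ) (ht2 : t + κ ≤ -0.4) (hR0 : β * 10 ≤ κ) (hR : β * (4.95 * (1 + κ ^ 2)) ≤ κ) :
    ‖HH β (sg κ t) - 1‖ ≤ 0.11 := by
  have hN : β * 20.408 ≤ 1 := bNR hβ h.1 hk2 hR0 (by norm_num)
  have hy1 : -0.325 ≤ sy κ t := syL_ge h 0.3 0.49 0.6 0.325 0.72252 0.72253 0.4792 0.47922 0.78275 hk1 hk2 (by linarith) (by norm_num) (by norm_num) (by norm_num)
    (expm_ge (by norm_num) (by norm_num) (by norm_num) (by norm_num)) (expm_le (by norm_num) (by norm_num) (by norm_num)) (by norm_num)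
    (by norm_num) (by norm_num) (by norm_num) (by norm_num) (by norm_num) (by norm_num)
  have hy2 : sy κ t ≤ -0.127 := syL_le h 0.3 0.49 0.4 0.127 0.88073 0.88074 0.22827 0.37285 hk1 hk2 (by linarith) (by norm_num) (by norm_num) (by norm_num)
    (expm_ge (by norm_num) (by norm_num) (by norm_num) (by norm_num)) (expm_le (by norm_num) (by norm_num) (by norm_num)) (by norm_num)
    (by norm_num) (by norm_num) (by norm_num) (by norm_num) (by norm_num) (by norm_num)
  rcases le_total (sy κ t) (-0.32) with f0 | g0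
  · have hx1 : 0.255 ≤ sx κ t := sx_lo h 0.3 (-0.32) 0.325 1.37712 0.255 hk1 (by norm_num) f0 (abs_le.2 ⟨by linarith, by linarith⟩) (by rw [neg_neg]; exact expn_ge (by norm_num) (by norm_num)) (by norm_num) (by norm_num)
    have hx2 : sx κ t ≤ 0.598 := sx_hi h 0.49 (-0.325) 0.32 1.38404 0.598 hk2 hy1 (by norm_num) (by rw [abs_of_nonpos (by linarith)]; linarith) (by rw [neg_neg]; exact expn_le (by norm_num) (by norm_num) (by norm_num)) (by norm_num) (by norm_num)
    exact JB6_k0b_b0_0 hβ hN hx1 hx2 (by linarith) (by linarith)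
  rcases le_total (sy κ t) (-0.305) with f1 | g1
  · have hx1 : 0.2514 ≤ sx κ t := sx_lo h 0.3 (-0.305) 0.32 1.35662 0.2514 hk1 (by norm_num) f1 (abs_le.2 ⟨by linarith, by linarith⟩) (by rw [neg_neg]; exact expn_ge (by norm_num) (by norm_num)) (by norm_num) (by norm_num)
    have hx2 : sx κ t ≤ 0.602 := sx_hi h 0.49 (-0.32) 0.305 1.37713 0.602 hk2 g0 (by norm_num) (by rw [abs_of_nonpos (by linarith)]; linarith) (by rw [neg_neg]; exact expn_le (by norm_num) (by norm_num) (by norm_num)) (by norm_num) (by norm_num)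
    exact JB6_k0b_b0_1 hβ hN hx1 hx2 (by linarith) (by linarith)
  rcases le_total (sy κ t) (-0.26) with f2 | g2
  · have hx1 : 0.2415 ≤ sx κ t := sx_lo h 0.3 (-0.26) 0.305 1.29693 0.2415 hk1 (by norm_num) f2 (abs_le.2 ⟨by linarith, by linarith⟩) (by rw [neg_neg]; exact expn_ge (by norm_num) (by norm_num)) (by norm_num) (by norm_num)
    have hx2 : sx κ t ≤ 0.6118 := sx_hi h 0.49 (-0.305) 0.26 1.35663 0.6118 hk2 g1 (by norm_num) (by rw [abs_of_nonpos (by linarith)]; linarith) (by rw [neg_neg]; exact expn_le (by norm_num) (by norm_num) (by norm_num)) (by norm_num) (by norm_num)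
    exact JB6_k0b_b0_2 hβ hN hx1 hx2 (by linarith) (by linarith)
  have hx1 : 0.22 ≤ sx κ t := sx_lo h 0.3 (-0.127) 0.26 1.13541 0.22 hk1 (by norm_num) hy2 (abs_le.2 ⟨by linarith, by linarith⟩) (by rw [neg_neg]; exact expn_ge (by norm_num) (by norm_num)) (by norm_num) (by norm_num)
  have hx2 : sx κ t ≤ 0.6227 := sx_hi h 0.49 (-0.26) 0.127 1.29694 0.6227 hk2 g2 (by norm_num) (by rw [abs_of_nonpos (by linarith)]; linarith) (by rw [neg_neg]; exact expn_le (by norm_num) (by norm_num) (by norm_num)) (by norm_num) (by norm_num)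
  exact JB6_k0b_b0_3 hβ hN hx1 hx2 (by linarith) (by linarith)

private theorem JB6_k0b_b1_0 {β x y : ℝ} (hβ : 0 < β) (hN : β * 15.384 ≤ 1) (hx1 : 0.5983 ≤ x) (hx2 : x ≤ 0.8596)
    (hy1 : -0.357 ≤ y) (hy2 : y ≤ -0.352) : ‖HH β (x + y * I) - 1‖ ≤ 0.11 := by
  refine le_epsJ (C := 1.6521) (N0 := 15.384) (J_boxp 0.5983 0.8596 0.357 0 (-0.352) 0.8778 0.9308 1.0765 1.2616 0.414 3.9223 15.384 1.0604 4.603 1.628 0.7599 0.4388 0.2837 0.6495 2.4674 0.4506 1.3284 1.7968 3.3785 0.001173 0.01273 0.00004602 0.0000003101 0.0009788 0.0000003101 0.0000003101 0.0000003101 1.6521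
    hβ hN hx1 hx2 hy1 hy2 (by norm_num) (by norm_num) (by linarith) (by norm_num) (by norm_num) (by norm_num) (by norm_num) (by norm_num) (by norm_num) (by norm_num) (by norm_num) (by norm_num) (by norm_num) (by norm_num) (by norm_num) (by norm_num) (by norm_num) (by norm_num) (by norm_num) (by norm_num) (by norm_num) (by norm_num) (by norm_num) (by norm_num)
    (cube_sqrt_geJ (s := 0.804) (by norm_num) (by norm_num) (by norm_num) (by norm_num))
    (cube_sqrt_geJ (s := 0.9328) (by norm_num) (by norm_num) (by norm_num) (by norm_num))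
    (by norm_num) (by norm_num) (by norm_num) (by norm_num) (by norm_num) (by norm_num) (by norm_num) (by norm_num) (by norm_num) (by norm_num) (by norm_num) (by norm_num) (by norm_num) (by norm_num) (by norm_num) (by norm_num) (by norm_num) (by norm_num)
    (exp_neg_leJ (r := 0.75) 6 (by norm_num) (by norm_num) (by norm_num) (by norm_num))
    (exp_neg_leJ (r := 0.364) 4 (by norm_num) (by norm_num) (by norm_num) (by norm_num))
    (exp_neg_leJ (r := 0.99) 9 (by norm_num) (by norm_num) (by norm_num) (by norm_num))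
    (exp_neg_leJ (r := 0.99) 14 (by norm_num) (by norm_num) (by norm_num) (by norm_num))
    (exp_neg_leJ (r := 0.932) 6 (by norm_num) (by norm_num) (by norm_num) (by norm_num))
    (exp_neg_leJ (r := 0.99) 14 (by norm_num) (by norm_num) (by norm_num) (by norm_num))
    (exp_neg_leJ (r := 0.99) 14 (by norm_num) (by norm_num) (by norm_num) (by norm_num))
    (exp_neg_leJ (r := 0.99) 14 (by norm_num) (by norm_num) (by norm_num) (by norm_num))
    (by norm_num)) (by norm_num) hN hβ.le (by norm_num)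

private theorem JB6_k0b_b1_1 {β x y : ℝ} (hβ : 0 < β) (hN : β * 15.384 ≤ 1) (hx1 : 0.5892 ≤ x) (hx2 : x ≤ 0.8607)
    (hy1 : -0.352 ≤ y) (hy2 : y ≤ -0.337) : ‖HH β (x + y * I) - 1‖ ≤ 0.11 := by
  refine le_epsJ (C := 1.6818) (N0 := 15.384) (J_boxp 0.5892 0.8607 0.352 0 (-0.337) 0.8749 0.9299 1.0865 1.2738 0.4159 3.9223 15.384 1.0629 4.623 1.63 0.7641 0.4374 0.2824 0.6543 2.483 0.4489 1.3158 1.7922 3.3627 0.001199 0.01299 0.00004255 0.0000003101 0.001006 0.0000003101 0.0000003101 0.0000003101 1.6818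
    hβ hN hx1 hx2 hy1 hy2 (by norm_num) (by norm_num) (by linarith) (by norm_num) (by norm_num) (by norm_num) (by norm_num) (by norm_num) (by norm_num) (by norm_num) (by norm_num) (by norm_num) (by norm_num) (by norm_num) (by norm_num) (by norm_num) (by norm_num) (by norm_num) (by norm_num) (by norm_num) (by norm_num) (by norm_num) (by norm_num) (by norm_num)
    (cube_sqrt_geJ (s := 0.8035) (by norm_num) (by norm_num) (by norm_num) (by norm_num))
    (cube_sqrt_geJ (s := 0.9326) (by norm_num) (by norm_num) (by norm_num) (by norm_num))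
    (by norm_num) (by norm_num) (by norm_num) (by norm_num) (by norm_num) (by norm_num) (by norm_num) (by norm_num) (by norm_num) (by norm_num) (by norm_num) (by norm_num) (by norm_num) (by norm_num) (by norm_num) (by norm_num) (by norm_num) (by norm_num)
    (exp_neg_leJ (r := 0.728) 6 (by norm_num) (by norm_num) (by norm_num) (by norm_num))
    (exp_neg_leJ (r := 0.344) 4 (by norm_num) (by norm_num) (by norm_num) (by norm_num))
    (exp_neg_leJ (r := 0.065) 10 (by norm_num) (by norm_num) (by norm_num) (by norm_num))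
    (exp_neg_leJ (r := 0.99) 14 (by norm_num) (by norm_num) (by norm_num) (by norm_num))
    (exp_neg_leJ (r := 0.905) 6 (by norm_num) (by norm_num) (by norm_num) (by norm_num))
    (exp_neg_leJ (r := 0.99) 14 (by norm_num) (by norm_num) (by norm_num) (by norm_num))
    (exp_neg_leJ (r := 0.99) 14 (by norm_num) (by norm_num) (by norm_num) (by norm_num))
    (exp_neg_leJ (r := 0.99) 14 (by norm_num) (by norm_num) (by norm_num) (by norm_num))
    (by norm_num)) (by norm_num) hN hβ.le (by norm_num)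

private theorem JB6_k0b_b1_2 {β x y : ℝ} (hβ : 0 < β) (hN : β * 15.384 ≤ 1) (hx1 : 0.5706 ≤ x) (hx2 : x ≤ 0.859)
    (hy1 : -0.337 ≤ y) (hy2 : y ≤ -0.302) : ‖HH β (x + y * I) - 1‖ ≤ 0.11 := by
  refine le_epsJ (C := 1.6826) (N0 := 15.384) (J_boxp 0.5706 0.859 0.337 0 (-0.302) 0.8725 0.9228 1.1069 1.291 0.4198 3.9223 15.384 1.0577 4.58 1.625 0.7786 0.4362 0.2824 0.6716 2.5325 0.448 1.29 1.7958 3.3448 0.00122 0.01299 0.00003261 0.0000003101 0.001019 0.0000003101 0.0000003101 0.0000003101 1.6826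
    hβ hN hx1 hx2 hy1 hy2 (by norm_num) (by norm_num) (by linarith) (by norm_num) (by norm_num) (by norm_num) (by norm_num) (by norm_num) (by norm_num) (by norm_num) (by norm_num) (by norm_num) (by norm_num) (by norm_num) (by norm_num) (by norm_num) (by norm_num) (by norm_num) (by norm_num) (by norm_num) (by norm_num) (by norm_num) (by norm_num) (by norm_num)
    (cube_sqrt_geJ (s := 0.8046) (by norm_num) (by norm_num) (by norm_num) (by norm_num))
    (cube_sqrt_geJ (s := 0.933) (by norm_num) (by norm_num) (by norm_num) (by norm_num))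
    (by norm_num) (by norm_num) (by norm_num) (by norm_num) (by norm_num) (by norm_num) (by norm_num) (by norm_num) (by norm_num) (by norm_num) (by norm_num) (by norm_num) (by norm_num) (by norm_num) (by norm_num) (by norm_num) (by norm_num) (by norm_num)
    (exp_neg_leJ (r := 0.71) 6 (by norm_num) (by norm_num) (by norm_num) (by norm_num))
    (exp_neg_leJ (r := 0.344) 4 (by norm_num) (by norm_num) (by norm_num) (by norm_num))
    (exp_neg_leJ (r := 0.331) 10 (by norm_num) (by norm_num) (by norm_num) (by norm_num))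
    (exp_neg_leJ (r := 0.99) 14 (by norm_num) (by norm_num) (by norm_num) (by norm_num))
    (exp_neg_leJ (r := 0.892) 6 (by norm_num) (by norm_num) (by norm_num) (by norm_num))
    (exp_neg_leJ (r := 0.99) 14 (by norm_num) (by norm_num) (by norm_num) (by norm_num))
    (exp_neg_leJ (r := 0.99) 14 (by norm_num) (by norm_num) (by norm_num) (by norm_num))
    (exp_neg_leJ (r := 0.99) 14 (by norm_num) (by norm_num) (by norm_num) (by norm_num))
    (by norm_num)) (by norm_num) hN hβ.le (by norm_num)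

private theorem JB6_k0b_b1_3 {β x y : ℝ} (hβ : 0 < β) (hN : β * 15.384 ≤ 1) (hx1 : 0.5285 ≤ x) (hx2 : x ≤ 0.852)
    (hy1 : -0.302 ≤ y) (hy2 : y ≤ -0.217) : ‖HH β (x + y * I) - 1‖ ≤ 0.11 := by
  refine le_epsJ (C := 1.667) (N0 := 15.384) (J_boxp 0.5285 0.852 0.302 0 (-0.217) 0.8677 0.904 1.1572 1.331 0.4292 3.9223 15.384 1.0419 4.453 1.613 0.8136 0.4338 0.2831 0.7124 2.6496 0.4467 1.2317 1.8067 3.3117 0.001266 0.01285 0.00001746 0.0000003101 0.001039 0.0000003101 0.0000003101 0.0000003101 1.667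
    hβ hN hx1 hx2 hy1 hy2 (by norm_num) (by norm_num) (by linarith) (by norm_num) (by norm_num) (by norm_num) (by norm_num) (by norm_num) (by norm_num) (by norm_num) (by norm_num) (by norm_num) (by norm_num) (by norm_num) (by norm_num) (by norm_num) (by norm_num) (by norm_num) (by norm_num) (by norm_num) (by norm_num) (by norm_num) (by norm_num) (by norm_num)
    (cube_sqrt_geJ (s := 0.8078) (by norm_num) (by norm_num) (by norm_num) (by norm_num))
    (cube_sqrt_geJ (s := 0.934) (by norm_num) (by norm_num) (by norm_num) (by norm_num))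
    (by norm_num) (by norm_num) (by norm_num) (by norm_num) (by norm_num) (by norm_num) (by norm_num) (by norm_num) (by norm_num) (by norm_num) (by norm_num) (by norm_num) (by norm_num) (by norm_num) (by norm_num) (by norm_num) (by norm_num) (by norm_num)
    (exp_neg_leJ (r := 0.673) 6 (by norm_num) (by norm_num) (by norm_num) (by norm_num))
    (exp_neg_leJ (r := 0.355) 4 (by norm_num) (by norm_num) (by norm_num) (by norm_num))
    (exp_neg_leJ (r := 0.959) 10 (by norm_num) (by norm_num) (by norm_num) (by norm_num))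
    (exp_neg_leJ (r := 0.99) 14 (by norm_num) (by norm_num) (by norm_num) (by norm_num))
    (exp_neg_leJ (r := 0.872) 6 (by norm_num) (by norm_num) (by norm_num) (by norm_num))
    (exp_neg_leJ (r := 0.99) 14 (by norm_num) (by norm_num) (by norm_num) (by norm_num))
    (exp_neg_leJ (r := 0.99) 14 (by norm_num) (by norm_num) (by norm_num) (by norm_num))
    (exp_neg_leJ (r := 0.99) 14 (by norm_num) (by norm_num) (by norm_num) (by norm_num))
    (by norm_num)) (by norm_num) hN hβ.le (by norm_num)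

private theorem JB6_k0b_b1_4 {β x y : ℝ} (hβ : 0 < β) (hN : β * 15.384 ≤ 1) (hx1 : 0.5519 ≤ x) (hx2 : x ≤ 0.7847)
    (hy1 : -0.217 ≤ y) (hy2 : y ≤ -0.191) : ‖HH β (x + y * I) - 1‖ ≤ 0.11 := by
  refine le_epsJ (C := 0.8449) (N0 := 15.384) (J_boxp 0.5519 0.7847 0.217 0 (-0.191) 0.9445 0.8142 1.1271 1.1566 0.4236 3.9223 15.384 0.8621 3.274 1.478 0.918 0.4722 0.3365 0.8546 2.9614 0.5045 1.2641 2.0846 3.6026 0.0007004 0.005651 0.000001952 0.0000003101 0.0004266 0.0000003101 0.0000003101 0.0000003101 0.8449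
    hβ hN hx1 hx2 hy1 hy2 (by norm_num) (by norm_num) (by linarith) (by norm_num) (by norm_num) (by norm_num) (by norm_num) (by norm_num) (by norm_num) (by norm_num) (by norm_num) (by norm_num) (by norm_num) (by norm_num) (by norm_num) (by norm_num) (by norm_num) (by norm_num) (by norm_num) (by norm_num) (by norm_num) (by norm_num) (by norm_num) (by norm_num)
    (cube_sqrt_geJ (s := 0.8441) (by norm_num) (by norm_num) (by norm_num) (by norm_num))
    (cube_sqrt_geJ (s := 0.9457) (by norm_num) (by norm_num) (by norm_num) (by norm_num))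
    (by norm_num) (by norm_num) (by norm_num) (by norm_num) (by norm_num) (by norm_num) (by norm_num) (by norm_num) (by norm_num) (by norm_num) (by norm_num) (by norm_num) (by norm_num) (by norm_num) (by norm_num) (by norm_num) (by norm_num) (by norm_num)
    (exp_neg_leJ (r := 0.264) 7 (by norm_num) (by norm_num) (by norm_num) (by norm_num))
    (exp_neg_leJ (r := 0.176) 5 (by norm_num) (by norm_num) (by norm_num) (by norm_num))
    (exp_neg_leJ (r := 0.147) 13 (by norm_num) (by norm_num) (by norm_num) (by norm_num))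
    (exp_neg_leJ (r := 0.99) 14 (by norm_num) (by norm_num) (by norm_num) (by norm_num))
    (exp_neg_leJ (r := 0.761) 7 (by norm_num) (by norm_num) (by norm_num) (by norm_num))
    (exp_neg_leJ (r := 0.99) 14 (by norm_num) (by norm_num) (by norm_num) (by norm_num))
    (exp_neg_leJ (r := 0.99) 14 (by norm_num) (by norm_num) (by norm_num) (by norm_num))
    (exp_neg_leJ (r := 0.99) 14 (by norm_num) (by norm_num) (by norm_num) (by norm_num))
    (by norm_num)) (by norm_num) hN hβ.le (by norm_num)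

private theorem JB6_k0b_c1 {κ t β : ℝ} (h : DomR κ t) (hβ : 0 < β) (hk1 : 0.49 ≤ κ) (hk2 : κ ≤ 0.65)
    (ht1 : -0.6 ≤ t + κ) (ht2 : t + κ ≤ -0.4) (hR0 : β * 10 ≤ κ) (hR : β * (4.95 * (1 + κ ^ 2)) ≤ κ) :
    ‖HH β (sg κ t) - 1‖ ≤ 0.11 := by
  have hN : β * 15.384 ≤ 1 := bNR hβ h.1 hk2 hR0 (by norm_num)
  have hy1 : -0.357 ≤ sy κ t := syL_ge h 0.49 0.65 0.6 0.357 0.69977 0.69978 0.3843 0.38433 0.50984 hk1 hk2 (by linarith) (by norm_num) (by norm_num) (by norm_num)
    (expm_ge (by norm_num) (by norm_num) (by norm_num) (by norm_num)) (expm_le (by norm_num) (by norm_num) (by norm_num)) (by norm_num)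
    (by norm_num) (by norm_num) (by norm_num) (by norm_num) (by norm_num) (by norm_num)
  have hy2 : sy κ t ≤ -0.191 := syL_le h 0.49 0.65 0.4 0.191 0.82613 0.82614 0.24275 0.32203 hk1 hk2 (by linarith) (by norm_num) (by norm_num) (by norm_num)
    (expm_ge (by norm_num) (by norm_num) (by norm_num) (by norm_num)) (expm_le (by norm_num) (by norm_num) (by norm_num)) (by norm_num)
    (by norm_num) (by norm_num) (by norm_num) (by norm_num) (by norm_num) (by norm_num)
  rcases le_total (sy κ t) (-0.352) with f0 | g0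
  · have hx1 : 0.5983 ≤ sx κ t := sx_lo h 0.49 (-0.352) 0.357 1.4219 0.5983 hk1 (by norm_num) f0 (abs_le.2 ⟨by linarith, by linarith⟩) (by rw [neg_neg]; exact expn_ge (by norm_num) (by norm_num)) (by norm_num) (by norm_num)
    have hx2 : sx κ t ≤ 0.8596 := sx_hi h 0.65 (-0.357) 0.352 1.42904 0.8596 hk2 hy1 (by norm_num) (by rw [abs_of_nonpos (by linarith)]; linarith) (by rw [neg_neg]; exact expn_le (by norm_num) (by norm_num) (by norm_num)) (by norm_num) (by norm_num)
    exact JB6_k0b_b1_0 hβ hN hx1 hx2 (by linarith) (by linarith)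
  rcases le_total (sy κ t) (-0.337) with f1 | g1
  · have hx1 : 0.5892 ≤ sx κ t := sx_lo h 0.49 (-0.337) 0.352 1.40073 0.5892 hk1 (by norm_num) f1 (abs_le.2 ⟨by linarith, by linarith⟩) (by rw [neg_neg]; exact expn_ge (by norm_num) (by norm_num)) (by norm_num) (by norm_num)
    have hx2 : sx κ t ≤ 0.8607 := sx_hi h 0.65 (-0.352) 0.337 1.42191 0.8607 hk2 g0 (by norm_num) (by rw [abs_of_nonpos (by linarith)]; linarith) (by rw [neg_neg]; exact expn_le (by norm_num) (by norm_num) (by norm_num)) (by norm_num) (by norm_num)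
    exact JB6_k0b_b1_1 hβ hN hx1 hx2 (by linarith) (by linarith)
  rcases le_total (sy κ t) (-0.302) with f2 | g2
  · have hx1 : 0.5706 ≤ sx κ t := sx_lo h 0.49 (-0.302) 0.337 1.35256 0.5706 hk1 (by norm_num) f2 (abs_le.2 ⟨by linarith, by linarith⟩) (by rw [neg_neg]; exact expn_ge (by norm_num) (by norm_num)) (by norm_num) (by norm_num)
    have hx2 : sx κ t ≤ 0.859 := sx_hi h 0.65 (-0.337) 0.302 1.40074 0.859 hk2 g1 (by norm_num) (by rw [abs_of_nonpos (by linarith)]; linarith) (by rw [neg_neg]; exact expn_le (by norm_num) (by norm_num) (by norm_num)) (by norm_num) (by norm_num)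
    exact JB6_k0b_b1_2 hβ hN hx1 hx2 (by linarith) (by linarith)
  rcases le_total (sy κ t) (-0.217) with f3 | g3
  · have hx1 : 0.5285 ≤ sx κ t := sx_lo h 0.49 (-0.217) 0.302 1.24234 0.5285 hk1 (by norm_num) f3 (abs_le.2 ⟨by linarith, by linarith⟩) (by rw [neg_neg]; exact expn_ge (by norm_num) (by norm_num)) (by norm_num) (by norm_num)
    have hx2 : sx κ t ≤ 0.852 := sx_hi h 0.65 (-0.302) 0.217 1.35257 0.852 hk2 g2 (by norm_num) (by rw [abs_of_nonpos (by linarith)]; linarith) (by rw [neg_neg]; exact expn_le (by norm_num) (by norm_num) (by norm_num)) (by norm_num) (by norm_num)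
    exact JB6_k0b_b1_3 hβ hN hx1 hx2 (by linarith) (by linarith)
  have hx1 : 0.5519 ≤ sx κ t := sx_lo h 0.49 (-0.191) 0.217 1.21045 0.5519 hk1 (by norm_num) hy2 (abs_le.2 ⟨by linarith, by linarith⟩) (by rw [neg_neg]; exact expn_ge (by norm_num) (by norm_num)) (by norm_num) (by norm_num)
  have hx2 : sx κ t ≤ 0.7847 := sx_hi h 0.65 (-0.217) 0.191 1.24235 0.7847 hk2 g3 (by norm_num) (by rw [abs_of_nonpos (by linarith)]; linarith) (by rw [neg_neg]; exact expn_le (by norm_num) (by norm_num) (by norm_num)) (by norm_num) (by norm_num)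
  exact JB6_k0b_b1_4 hβ hN hx1 hx2 (by linarith) (by linarith)

private theorem JB6_k0b_b2_0 {β x y : ℝ} (hβ : 0 < β) (hN : β * 12.82 ≤ 1) (hx1 : 0.8436 ≤ x) (hx2 : x ≤ 1.0626)
    (hy1 : -0.359 ≤ y) (hy2 : y ≤ -0.344) : ‖HH β (x + y * I) - 1‖ ≤ 0.11 := by
  refine le_epsJ (C := 1.3934) (N0 := 12.82) (J_boxp 0.8436 1.0626 0.359 0 (-0.344) 1.0491 1.1217 1.2488 1.04 0.4459 3.5806 12.82 1.0693 4.677 1.635 0.68 0.5245 0.3375 0.7303 2.347 0.5686 1.668 2.282 3.3501 0.001203 0.01323 0.00008594 0.0000003101 0.0006831 0.0000003101 0.0000003101 0.0000003101 1.3934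
    hβ hN hx1 hx2 hy1 hy2 (by norm_num) (by norm_num) (by linarith) (by norm_num) (by norm_num) (by norm_num) (by norm_num) (by norm_num) (by norm_num) (by norm_num) (by norm_num) (by norm_num) (by norm_num) (by norm_num) (by norm_num) (by norm_num) (by norm_num) (by norm_num) (by norm_num) (by norm_num) (by norm_num) (by norm_num) (by norm_num) (by norm_num)
    (cube_sqrt_geJ (s := 0.8022) (by norm_num) (by norm_num) (by norm_num) (by norm_num))
    (cube_sqrt_geJ (s := 0.9322) (by norm_num) (by norm_num) (by norm_num) (by norm_num))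
    (by norm_num) (by norm_num) (by norm_num) (by norm_num) (by norm_num) (by norm_num) (by norm_num) (by norm_num) (by norm_num) (by norm_num) (by norm_num) (by norm_num) (by norm_num) (by norm_num) (by norm_num) (by norm_num) (by norm_num) (by norm_num)
    (exp_neg_leJ (r := 0.724) 6 (by norm_num) (by norm_num) (by norm_num) (by norm_num))
    (exp_neg_leJ (r := 0.326) 4 (by norm_num) (by norm_num) (by norm_num) (by norm_num))
    (exp_neg_leJ (r := 0.362) 9 (by norm_num) (by norm_num) (by norm_num) (by norm_num))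
    (exp_neg_leJ (r := 0.99) 14 (by norm_num) (by norm_num) (by norm_num) (by norm_num))
    (exp_neg_leJ (r := 0.289) 7 (by norm_num) (by norm_num) (by norm_num) (by norm_num))
    (exp_neg_leJ (r := 0.99) 14 (by norm_num) (by norm_num) (by norm_num) (by norm_num))
    (exp_neg_leJ (r := 0.99) 14 (by norm_num) (by norm_num) (by norm_num) (by norm_num))
    (exp_neg_leJ (r := 0.99) 14 (by norm_num) (by norm_num) (by norm_num) (by norm_num))
    (by norm_num)) (by norm_num) hN hβ.le (by norm_num)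

private theorem JB6_k0b_b2_1 {β x y : ℝ} (hβ : 0 < β) (hN : β * 12.82 ≤ 1) (hx1 : 0.8205 ≤ x) (hx2 : x ≤ 1.0545)
    (hy1 : -0.344 ≤ y) (hy2 : y ≤ -0.314) : ‖HH β (x + y * I) - 1‖ ≤ 0.11 := by
  refine le_epsJ (C := 1.3894) (N0 := 12.82) (J_boxp 0.8205 1.0545 0.344 0 (-0.314) 1.0435 1.1092 1.2581 1.0523 0.4475 3.5806 12.82 1.063 4.624 1.63 0.697 0.5217 0.3368 0.7461 2.4 0.5656 1.636 2.2766 3.3379 0.001247 0.01335 0.00007017 0.0000003101 0.0007102 0.0000003101 0.0000003101 0.0000003101 1.3894
    hβ hN hx1 hx2 hy1 hy2 (by norm_num) (by norm_num) (by linarith) (by norm_num) (by norm_num) (by norm_num) (by norm_num) (by norm_num) (by norm_num) (by norm_num) (by norm_num) (by norm_num) (by norm_num) (by norm_num) (by norm_num) (by norm_num) (by norm_num) (by norm_num) (by norm_num) (by norm_num) (by norm_num) (by norm_num) (by norm_num) (by norm_num)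
    (cube_sqrt_geJ (s := 0.8035) (by norm_num) (by norm_num) (by norm_num) (by norm_num))
    (cube_sqrt_geJ (s := 0.9326) (by norm_num) (by norm_num) (by norm_num) (by norm_num))
    (by norm_num) (by norm_num) (by norm_num) (by norm_num) (by norm_num) (by norm_num) (by norm_num) (by norm_num) (by norm_num) (by norm_num) (by norm_num) (by norm_num) (by norm_num) (by norm_num) (by norm_num) (by norm_num) (by norm_num) (by norm_num)
    (exp_neg_leJ (r := 0.688) 6 (by norm_num) (by norm_num) (by norm_num) (by norm_num))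
    (exp_neg_leJ (r := 0.317) 4 (by norm_num) (by norm_num) (by norm_num) (by norm_num))
    (exp_neg_leJ (r := 0.565) 9 (by norm_num) (by norm_num) (by norm_num) (by norm_num))
    (exp_neg_leJ (r := 0.99) 14 (by norm_num) (by norm_num) (by norm_num) (by norm_num))
    (exp_neg_leJ (r := 0.25) 7 (by norm_num) (by norm_num) (by norm_num) (by norm_num))
    (exp_neg_leJ (r := 0.99) 14 (by norm_num) (by norm_num) (by norm_num) (by norm_num))
    (exp_neg_leJ (r := 0.99) 14 (by norm_num) (by norm_num) (by norm_num) (by norm_num))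
    (exp_neg_leJ (r := 0.99) 14 (by norm_num) (by norm_num) (by norm_num) (by norm_num))
    (by norm_num)) (by norm_num) hN hβ.le (by norm_num)

private theorem JB6_k0b_b2_2 {β x y : ℝ} (hβ : 0 < β) (hN : β * 12.82 ≤ 1) (hx1 : 0.7723 ≤ x) (hx2 : x ≤ 1.0383)
    (hy1 : -0.314 ≤ y) (hy2 : y ≤ -0.249) : ‖HH β (x + y * I) - 1‖ ≤ 0.11 := by
  refine le_epsJ (C := 1.3949) (N0 := 12.82) (J_boxp 0.7723 1.0383 0.314 0 (-0.249) 1.0309 1.0848 1.2815 1.0816 0.4517 3.5806 12.82 1.0523 4.536 1.621 0.7309 0.5154 0.3346 0.777 2.5057 0.5586 1.5693 2.2617 3.3078 0.001352 0.01372 0.00004736 0.0000003101 0.0007763 0.0000003101 0.0000003101 0.0000003101 1.3949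
    hβ hN hx1 hx2 hy1 hy2 (by norm_num) (by norm_num) (by linarith) (by norm_num) (by norm_num) (by norm_num) (by norm_num) (by norm_num) (by norm_num) (by norm_num) (by norm_num) (by norm_num) (by norm_num) (by norm_num) (by norm_num) (by norm_num) (by norm_num) (by norm_num) (by norm_num) (by norm_num) (by norm_num) (by norm_num) (by norm_num) (by norm_num)
    (cube_sqrt_geJ (s := 0.8057) (by norm_num) (by norm_num) (by norm_num) (by norm_num))
    (cube_sqrt_geJ (s := 0.9333) (by norm_num) (by norm_num) (by norm_num) (by norm_num))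
    (by norm_num) (by norm_num) (by norm_num) (by norm_num) (by norm_num) (by norm_num) (by norm_num) (by norm_num) (by norm_num) (by norm_num) (by norm_num) (by norm_num) (by norm_num) (by norm_num) (by norm_num) (by norm_num) (by norm_num) (by norm_num)
    (exp_neg_leJ (r := 0.607) 6 (by norm_num) (by norm_num) (by norm_num) (by norm_num))
    (exp_neg_leJ (r := 0.289) 4 (by norm_num) (by norm_num) (by norm_num) (by norm_num))
    (exp_neg_leJ (r := 0.961) 9 (by norm_num) (by norm_num) (by norm_num) (by norm_num))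
    (exp_neg_leJ (r := 0.99) 14 (by norm_num) (by norm_num) (by norm_num) (by norm_num))
    (exp_neg_leJ (r := 0.161) 7 (by norm_num) (by norm_num) (by norm_num) (by norm_num))
    (exp_neg_leJ (r := 0.99) 14 (by norm_num) (by norm_num) (by norm_num) (by norm_num))
    (exp_neg_leJ (r := 0.99) 14 (by norm_num) (by norm_num) (by norm_num) (by norm_num))
    (exp_neg_leJ (r := 0.99) 14 (by norm_num) (by norm_num) (by norm_num) (by norm_num))
    (by norm_num)) (by norm_num) hN hβ.le (by norm_num)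

private theorem JB6_k0b_b2_3 {β x y : ℝ} (hβ : 0 < β) (hN : β * 12.82 ≤ 1) (hx1 : 0.7673 ≤ x) (hx2 : x ≤ 0.977)
    (hy1 : -0.249 ≤ y) (hy2 : y ≤ -0.216) : ‖HH β (x + y * I) - 1‖ ≤ 0.11 := by
  refine le_epsJ (C := 0.9357) (N0 := 12.82) (J_boxp 0.7673 0.977 0.249 0 (-0.216) 1.0735 1.0083 1.2527 1.0063 0.4466 3.5806 12.82 0.9393 3.724 1.534 0.8145 0.5367 0.3686 0.8778 2.7493 0.5916 1.5624 2.4284 3.5058 0.001031 0.008879 0.00001297 0.0000003101 0.0005088 0.0000003101 0.0000003101 0.0000003101 0.9357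
    hβ hN hx1 hx2 hy1 hy2 (by norm_num) (by norm_num) (by linarith) (by norm_num) (by norm_num) (by norm_num) (by norm_num) (by norm_num) (by norm_num) (by norm_num) (by norm_num) (by norm_num) (by norm_num) (by norm_num) (by norm_num) (by norm_num) (by norm_num) (by norm_num) (by norm_num) (by norm_num) (by norm_num) (by norm_num) (by norm_num) (by norm_num)
    (cube_sqrt_geJ (s := 0.8287) (by norm_num) (by norm_num) (by norm_num) (by norm_num))
    (cube_sqrt_geJ (s := 0.9407) (by norm_num) (by norm_num) (by norm_num) (by norm_num))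
    (by norm_num) (by norm_num) (by norm_num) (by norm_num) (by norm_num) (by norm_num) (by norm_num) (by norm_num) (by norm_num) (by norm_num) (by norm_num) (by norm_num) (by norm_num) (by norm_num) (by norm_num) (by norm_num) (by norm_num) (by norm_num)
    (exp_neg_leJ (r := 0.88) 6 (by norm_num) (by norm_num) (by norm_num) (by norm_num))
    (exp_neg_leJ (r := 0.725) 4 (by norm_num) (by norm_num) (by norm_num) (by norm_num))
    (exp_neg_leJ (r := 0.253) 11 (by norm_num) (by norm_num) (by norm_num) (by norm_num))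
    (exp_neg_leJ (r := 0.99) 14 (by norm_num) (by norm_num) (by norm_num) (by norm_num))
    (exp_neg_leJ (r := 0.584) 7 (by norm_num) (by norm_num) (by norm_num) (by norm_num))
    (exp_neg_leJ (r := 0.99) 14 (by norm_num) (by norm_num) (by norm_num) (by norm_num))
    (exp_neg_leJ (r := 0.99) 14 (by norm_num) (by norm_num) (by norm_num) (by norm_num))
    (exp_neg_leJ (r := 0.99) 14 (by norm_num) (by norm_num) (by norm_num) (by norm_num))
    (by norm_num)) (by norm_num) hN hβ.le (by norm_num)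

private theorem JB6_k0b_c2 {κ t β : ℝ} (h : DomR κ t) (hβ : 0 < β) (hk1 : 0.65 ≤ κ) (hk2 : κ ≤ 0.78)
    (ht1 : -0.6 ≤ t + κ) (ht2 : t + κ ≤ -0.4) (hR0 : β * 10 ≤ κ) (hR : β * (4.95 * (1 + κ ^ 2)) ≤ κ) :
    ‖HH β (sg κ t) - 1‖ ≤ 0.11 := by
  have hN : β * 12.82 ≤ 1 := bNR hβ h.1 hk2 hR0 (by norm_num)
  have hy1 : -0.359 ≤ sy κ t := syL_ge h 0.65 0.78 0.6 0.359 0.69837 0.69838 0.3535 0.32142 0.38573 hk1 hk2 (by linarith) (by norm_num) (by norm_num) (by norm_num)
    (expm_ge (by norm_num) (by norm_num) (by norm_num) (by norm_num)) (expm_le (by norm_num) (by norm_num) (by norm_num)) (by norm_num)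
    (by norm_num) (by norm_num) (by norm_num) (by norm_num) (by norm_num) (by norm_num)
  have hy2 : sy κ t ≤ -0.216 := syL_le h 0.65 0.78 0.4 0.216 0.80573 0.80574 0.22312 0.26776 hk1 hk2 (by linarith) (by norm_num) (by norm_num) (by norm_num)
    (expm_ge (by norm_num) (by norm_num) (by norm_num) (by norm_num)) (expm_le (by norm_num) (by norm_num) (by norm_num)) (by norm_num)
    (by norm_num) (by norm_num) (by norm_num) (by norm_num) (by norm_num) (by norm_num)
  rcases le_total (sy κ t) (-0.344) with f0 | g0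
  · have hx1 : 0.8436 ≤ sx κ t := sx_lo h 0.65 (-0.344) 0.359 1.41057 0.8436 hk1 (by norm_num) f0 (abs_le.2 ⟨by linarith, by linarith⟩) (by rw [neg_neg]; exact expn_ge (by norm_num) (by norm_num)) (by norm_num) (by norm_num)
    have hx2 : sx κ t ≤ 1.0626 := sx_hi h 0.78 (-0.359) 0.344 1.4319 1.0626 hk2 hy1 (by norm_num) (by rw [abs_of_nonpos (by linarith)]; linarith) (by rw [neg_neg]; exact expn_le (by norm_num) (by norm_num) (by norm_num)) (by norm_num) (by norm_num)
    exact JB6_k0b_b2_0 hβ hN hx1 hx2 (by linarith) (by linarith)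
  rcases le_total (sy κ t) (-0.314) with f1 | g1
  · have hx1 : 0.8205 ≤ sx κ t := sx_lo h 0.65 (-0.314) 0.344 1.36888 0.8205 hk1 (by norm_num) f1 (abs_le.2 ⟨by linarith, by linarith⟩) (by rw [neg_neg]; exact expn_ge (by norm_num) (by norm_num)) (by norm_num) (by norm_num)
    have hx2 : sx κ t ≤ 1.0545 := sx_hi h 0.78 (-0.344) 0.314 1.41058 1.0545 hk2 g0 (by norm_num) (by rw [abs_of_nonpos (by linarith)]; linarith) (by rw [neg_neg]; exact expn_le (by norm_num) (by norm_num) (by norm_num)) (by norm_num) (by norm_num)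
    exact JB6_k0b_b2_1 hβ hN hx1 hx2 (by linarith) (by linarith)
  rcases le_total (sy κ t) (-0.249) with f2 | g2
  · have hx1 : 0.7723 ≤ sx κ t := sx_lo h 0.65 (-0.249) 0.314 1.28274 0.7723 hk1 (by norm_num) f2 (abs_le.2 ⟨by linarith, by linarith⟩) (by rw [neg_neg]; exact expn_ge (by norm_num) (by norm_num)) (by norm_num) (by norm_num)
    have hx2 : sx κ t ≤ 1.0383 := sx_hi h 0.78 (-0.314) 0.249 1.36889 1.0383 hk2 g1 (by norm_num) (by rw [abs_of_nonpos (by linarith)]; linarith) (by rw [neg_neg]; exact expn_le (by norm_num) (by norm_num) (by norm_num)) (by norm_num) (by norm_num)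
    exact JB6_k0b_b2_2 hβ hN hx1 hx2 (by linarith) (by linarith)
  have hx1 : 0.7673 ≤ sx κ t := sx_lo h 0.65 (-0.216) 0.249 1.2411 0.7673 hk1 (by norm_num) hy2 (abs_le.2 ⟨by linarith, by linarith⟩) (by rw [neg_neg]; exact expn_ge (by norm_num) (by norm_num)) (by norm_num) (by norm_num)
  have hx2 : sx κ t ≤ 0.977 := sx_hi h 0.78 (-0.249) 0.216 1.28275 0.977 hk2 g2 (by norm_num) (by rw [abs_of_nonpos (by linarith)]; linarith) (by rw [neg_neg]; exact expn_le (by norm_num) (by norm_num) (by norm_num)) (by norm_num) (by norm_num)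
  exact JB6_k0b_b2_3 hβ hN hx1 hx2 (by linarith) (by linarith)

private theorem JB6_k0b_b3_0 {β x y : ℝ} (hβ : 0 < β) (hN : β * 11.235 ≤ 1) (hx1 : 1.0442 ≤ x) (hx2 : x ≤ 1.2236)
    (hy1 : -0.357 ≤ y) (hy2 : y ≤ -0.347) : ‖HH β (x + y * I) - 1‖ ≤ 0.11 := by
  refine le_epsJ (C := 1.2144) (N0 := 11.235) (J_boxp 1.0442 1.2236 0.357 0 (-0.347) 1.1918 1.2747 1.387 0.9052 0.4699 3.3519 11.235 1.0696 4.68 1.635 0.6199 0.5958 0.3834 0.8022 2.2624 0.6671 1.9458 2.6886 3.3354 0.001241 0.01348 0.000122 0.0000003101 0.0005566 0.0000003101 0.0000003101 0.0000003101 1.2144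
    hβ hN hx1 hx2 hy1 hy2 (by norm_num) (by norm_num) (by linarith) (by norm_num) (by norm_num) (by norm_num) (by norm_num) (by norm_num) (by norm_num) (by norm_num) (by norm_num) (by norm_num) (by norm_num) (by norm_num) (by norm_num) (by norm_num) (by norm_num) (by norm_num) (by norm_num) (by norm_num) (by norm_num) (by norm_num) (by norm_num) (by norm_num)
    (cube_sqrt_geJ (s := 0.8021) (by norm_num) (by norm_num) (by norm_num) (by norm_num))
    (cube_sqrt_geJ (s := 0.9322) (by norm_num) (by norm_num) (by norm_num) (by norm_num))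
    (by norm_num) (by norm_num) (by norm_num) (by norm_num) (by norm_num) (by norm_num) (by norm_num) (by norm_num) (by norm_num) (by norm_num) (by norm_num) (by norm_num) (by norm_num) (by norm_num) (by norm_num) (by norm_num) (by norm_num) (by norm_num)
    (exp_neg_leJ (r := 0.693) 6 (by norm_num) (by norm_num) (by norm_num) (by norm_num))
    (exp_neg_leJ (r := 0.307) 4 (by norm_num) (by norm_num) (by norm_num) (by norm_num))
    (exp_neg_leJ (r := 0.012) 9 (by norm_num) (by norm_num) (by norm_num) (by norm_num))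
    (exp_neg_leJ (r := 0.99) 14 (by norm_num) (by norm_num) (by norm_num) (by norm_num))
    (exp_neg_leJ (r := 0.494) 7 (by norm_num) (by norm_num) (by norm_num) (by norm_num))
    (exp_neg_leJ (r := 0.99) 14 (by norm_num) (by norm_num) (by norm_num) (by norm_num))
    (exp_neg_leJ (r := 0.99) 14 (by norm_num) (by norm_num) (by norm_num) (by norm_num))
    (exp_neg_leJ (r := 0.99) 14 (by norm_num) (by norm_num) (by norm_num) (by norm_num))
    (by norm_num)) (by norm_num) hN hβ.le (by norm_num)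

private theorem JB6_k0b_b3_1 {β x y : ℝ} (hβ : 0 < β) (hN : β * 11.235 ≤ 1) (hx1 : 1.0245 ≤ x) (hx2 : x ≤ 1.216)
    (hy1 : -0.347 ≤ y) (hy2 : y ≤ -0.327) : ‖HH β (x + y * I) - 1‖ ≤ 0.11 := by
  refine le_epsJ (C := 1.2213) (N0 := 11.235) (J_boxp 1.0245 1.216 0.347 0 (-0.327) 1.185 1.2646 1.3899 0.914 0.4704 3.3519 11.235 1.0672 4.66 1.633 0.6321 0.5924 0.3817 0.8112 2.2988 0.663 1.9185 2.6764 3.3235 0.001289 0.01374 0.0001103 0.0000003101 0.0005827 0.0000003101 0.0000003101 0.0000003101 1.2213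
    hβ hN hx1 hx2 hy1 hy2 (by norm_num) (by norm_num) (by linarith) (by norm_num) (by norm_num) (by norm_num) (by norm_num) (by norm_num) (by norm_num) (by norm_num) (by norm_num) (by norm_num) (by norm_num) (by norm_num) (by norm_num) (by norm_num) (by norm_num) (by norm_num) (by norm_num) (by norm_num) (by norm_num) (by norm_num) (by norm_num) (by norm_num)
    (cube_sqrt_geJ (s := 0.8026) (by norm_num) (by norm_num) (by norm_num) (by norm_num))
    (cube_sqrt_geJ (s := 0.9323) (by norm_num) (by norm_num) (by norm_num) (by norm_num))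
    (by norm_num) (by norm_num) (by norm_num) (by norm_num) (by norm_num) (by norm_num) (by norm_num) (by norm_num) (by norm_num) (by norm_num) (by norm_num) (by norm_num) (by norm_num) (by norm_num) (by norm_num) (by norm_num) (by norm_num) (by norm_num)
    (exp_neg_leJ (r := 0.655) 6 (by norm_num) (by norm_num) (by norm_num) (by norm_num))
    (exp_neg_leJ (r := 0.288) 4 (by norm_num) (by norm_num) (by norm_num) (by norm_num))
    (exp_neg_leJ (r := 0.113) 9 (by norm_num) (by norm_num) (by norm_num) (by norm_num))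
    (exp_neg_leJ (r := 0.99) 14 (by norm_num) (by norm_num) (by norm_num) (by norm_num))
    (exp_neg_leJ (r := 0.448) 7 (by norm_num) (by norm_num) (by norm_num) (by norm_num))
    (exp_neg_leJ (r := 0.99) 14 (by norm_num) (by norm_num) (by norm_num) (by norm_num))
    (exp_neg_leJ (r := 0.99) 14 (by norm_num) (by norm_num) (by norm_num) (by norm_num))
    (exp_neg_leJ (r := 0.99) 14 (by norm_num) (by norm_num) (by norm_num) (by norm_num))
    (by norm_num)) (by norm_num) hN hβ.le (by norm_num)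

private theorem JB6_k0b_b3_2 {β x y : ℝ} (hβ : 0 < β) (hN : β * 11.235 ≤ 1) (hx1 : 0.9865 ≤ x) (hx2 : x ≤ 1.2005)
    (hy1 : -0.327 ≤ y) (hy2 : y ≤ -0.287) : ‖HH β (x + y * I) - 1‖ ≤ 0.11 := by
  refine le_epsJ (C := 1.23) (N0 := 11.235) (J_boxp 0.9865 1.2005 0.327 0 (-0.287) 1.1725 1.2443 1.3963 0.9308 0.4715 3.3519 11.235 1.0613 4.61 1.628 0.6565 0.5862 0.3788 0.8298 2.3718 0.6555 1.8659 2.6548 3.3027 0.001382 0.0142 0.00008944 0.0000003101 0.0006337 0.0000003101 0.0000003101 0.0000003101 1.23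
    hβ hN hx1 hx2 hy1 hy2 (by norm_num) (by norm_num) (by linarith) (by norm_num) (by norm_num) (by norm_num) (by norm_num) (by norm_num) (by norm_num) (by norm_num) (by norm_num) (by norm_num) (by norm_num) (by norm_num) (by norm_num) (by norm_num) (by norm_num) (by norm_num) (by norm_num) (by norm_num) (by norm_num) (by norm_num) (by norm_num) (by norm_num)
    (cube_sqrt_geJ (s := 0.8038) (by norm_num) (by norm_num) (by norm_num) (by norm_num))
    (cube_sqrt_geJ (s := 0.9327) (by norm_num) (by norm_num) (by norm_num) (by norm_num))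
    (by norm_num) (by norm_num) (by norm_num) (by norm_num) (by norm_num) (by norm_num) (by norm_num) (by norm_num) (by norm_num) (by norm_num) (by norm_num) (by norm_num) (by norm_num) (by norm_num) (by norm_num) (by norm_num) (by norm_num) (by norm_num)
    (exp_neg_leJ (r := 0.585) 6 (by norm_num) (by norm_num) (by norm_num) (by norm_num))
    (exp_neg_leJ (r := 0.255) 4 (by norm_num) (by norm_num) (by norm_num) (by norm_num))
    (exp_neg_leJ (r := 0.322) 9 (by norm_num) (by norm_num) (by norm_num) (by norm_num))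
    (exp_neg_leJ (r := 0.99) 14 (by norm_num) (by norm_num) (by norm_num) (by norm_num))
    (exp_neg_leJ (r := 0.364) 7 (by norm_num) (by norm_num) (by norm_num) (by norm_num))
    (exp_neg_leJ (r := 0.99) 14 (by norm_num) (by norm_num) (by norm_num) (by norm_num))
    (exp_neg_leJ (r := 0.99) 14 (by norm_num) (by norm_num) (by norm_num) (by norm_num))
    (exp_neg_leJ (r := 0.99) 14 (by norm_num) (by norm_num) (by norm_num) (by norm_num))
    (by norm_num)) (by norm_num) hN hβ.le (by norm_num)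

private theorem JB6_k0b_b3_3 {β x y : ℝ} (hβ : 0 < β) (hN : β * 11.235 ≤ 1) (hx1 : 0.9296 ≤ x) (hx2 : x ≤ 1.1651)
    (hy1 : -0.287 ≤ y) (hy2 : y ≤ -0.221) : ‖HH β (x + y * I) - 1‖ ≤ 0.11 := by
  refine le_epsJ (C := 1.1674) (N0 := 11.235) (J_boxp 0.9296 1.1651 0.287 0 (-0.221) 1.1608 1.2 1.4016 0.9467 0.4724 3.3519 11.235 1.0338 4.388 1.607 0.707 0.5803 0.3803 0.8734 2.5203 0.6497 1.7871 2.6497 3.3093 0.001476 0.01396 0.00005488 0.0000003101 0.0006763 0.0000003101 0.0000003101 0.0000003101 1.1674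
    hβ hN hx1 hx2 hy1 hy2 (by norm_num) (by norm_num) (by linarith) (by norm_num) (by norm_num) (by norm_num) (by norm_num) (by norm_num) (by norm_num) (by norm_num) (by norm_num) (by norm_num) (by norm_num) (by norm_num) (by norm_num) (by norm_num) (by norm_num) (by norm_num) (by norm_num) (by norm_num) (by norm_num) (by norm_num) (by norm_num) (by norm_num)
    (cube_sqrt_geJ (s := 0.8095) (by norm_num) (by norm_num) (by norm_num) (by norm_num))
    (cube_sqrt_geJ (s := 0.9345) (by norm_num) (by norm_num) (by norm_num) (by norm_num))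
    (by norm_num) (by norm_num) (by norm_num) (by norm_num) (by norm_num) (by norm_num) (by norm_num) (by norm_num) (by norm_num) (by norm_num) (by norm_num) (by norm_num) (by norm_num) (by norm_num) (by norm_num) (by norm_num) (by norm_num) (by norm_num)
    (exp_neg_leJ (r := 0.519) 6 (by norm_num) (by norm_num) (by norm_num) (by norm_num))
    (exp_neg_leJ (r := 0.272) 4 (by norm_num) (by norm_num) (by norm_num) (by norm_num))
    (exp_neg_leJ (r := 0.812) 9 (by norm_num) (by norm_num) (by norm_num) (by norm_num))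
    (exp_neg_leJ (r := 0.99) 14 (by norm_num) (by norm_num) (by norm_num) (by norm_num))
    (exp_neg_leJ (r := 0.299) 7 (by norm_num) (by norm_num) (by norm_num) (by norm_num))
    (exp_neg_leJ (r := 0.99) 14 (by norm_num) (by norm_num) (by norm_num) (by norm_num))
    (exp_neg_leJ (r := 0.99) 14 (by norm_num) (by norm_num) (by norm_num) (by norm_num))
    (exp_neg_leJ (r := 0.99) 14 (by norm_num) (by norm_num) (by norm_num) (by norm_num))
    (by norm_num)) (by norm_num) hN hβ.le (by norm_num)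

private theorem JB6_k0b_c3 {κ t β : ℝ} (h : DomR κ t) (hβ : 0 < β) (hk1 : 0.78 ≤ κ) (hk2 : κ ≤ 0.89)
    (ht1 : -0.6 ≤ t + κ) (ht2 : t + κ ≤ -0.4) (hR0 : β * 10 ≤ κ) (hR : β * (4.95 * (1 + κ ^ 2)) ≤ κ) :
    ‖HH β (sg κ t) - 1‖ ≤ 0.11 := by
  have hN : β * 11.235 ≤ 1 := bNR hβ h.1 hk2 hR0 (by norm_num)
  have hy1 : -0.357 ≤ sy κ t := syL_ge h 0.78 0.89 0.6 0.357 0.69977 0.69978 0.3037 0.28069 0.32029 hk1 hk2 (by linarith) (by norm_num) (by norm_num) (by norm_num)
    (expm_ge (by norm_num) (by norm_num) (by norm_num) (by norm_num)) (expm_le (by norm_num) (by norm_num) (by norm_num)) (by norm_num)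
    (by norm_num) (by norm_num) (by norm_num) (by norm_num) (by norm_num) (by norm_num)
  have hy2 : sy κ t ≤ -0.221 := syL_le h 0.78 0.89 0.4 0.221 0.80171 0.80172 0.19907 0.22716 hk1 hk2 (by linarith) (by norm_num) (by norm_num) (by norm_num)
    (expm_ge (by norm_num) (by norm_num) (by norm_num) (by norm_num)) (expm_le (by norm_num) (by norm_num) (by norm_num)) (by norm_num)
    (by norm_num) (by norm_num) (by norm_num) (by norm_num) (by norm_num) (by norm_num)
  rcases le_total (sy κ t) (-0.347) with f0 | g0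
  · have hx1 : 1.0442 ≤ sx κ t := sx_lo h 0.78 (-0.347) 0.357 1.41481 1.0442 hk1 (by norm_num) f0 (abs_le.2 ⟨by linarith, by linarith⟩) (by rw [neg_neg]; exact expn_ge (by norm_num) (by norm_num)) (by norm_num) (by norm_num)
    have hx2 : sx κ t ≤ 1.2236 := sx_hi h 0.89 (-0.357) 0.347 1.42904 1.2236 hk2 hy1 (by norm_num) (by rw [abs_of_nonpos (by linarith)]; linarith) (by rw [neg_neg]; exact expn_le (by norm_num) (by norm_num) (by norm_num)) (by norm_num) (by norm_num)
    exact JB6_k0b_b3_0 hβ hN hx1 hx2 (by linarith) (by linarith)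
  rcases le_total (sy κ t) (-0.327) with f1 | g1
  · have hx1 : 1.0245 ≤ sx κ t := sx_lo h 0.78 (-0.327) 0.347 1.3868 1.0245 hk1 (by norm_num) f1 (abs_le.2 ⟨by linarith, by linarith⟩) (by rw [neg_neg]; exact expn_ge (by norm_num) (by norm_num)) (by norm_num) (by norm_num)
    have hx2 : sx κ t ≤ 1.216 := sx_hi h 0.89 (-0.347) 0.327 1.41482 1.216 hk2 g0 (by norm_num) (by rw [abs_of_nonpos (by linarith)]; linarith) (by rw [neg_neg]; exact expn_le (by norm_num) (by norm_num) (by norm_num)) (by norm_num) (by norm_num)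
    exact JB6_k0b_b3_1 hβ hN hx1 hx2 (by linarith) (by linarith)
  rcases le_total (sy κ t) (-0.287) with f2 | g2
  · have hx1 : 0.9865 ≤ sx κ t := sx_lo h 0.78 (-0.287) 0.327 1.33242 0.9865 hk1 (by norm_num) f2 (abs_le.2 ⟨by linarith, by linarith⟩) (by rw [neg_neg]; exact expn_ge (by norm_num) (by norm_num)) (by norm_num) (by norm_num)
    have hx2 : sx κ t ≤ 1.2005 := sx_hi h 0.89 (-0.327) 0.287 1.38681 1.2005 hk2 g1 (by norm_num) (by rw [abs_of_nonpos (by linarith)]; linarith) (by rw [neg_neg]; exact expn_le (by norm_num) (by norm_num) (by norm_num)) (by norm_num) (by norm_num)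
    exact JB6_k0b_b3_2 hβ hN hx1 hx2 (by linarith) (by linarith)
  have hx1 : 0.9296 ≤ sx κ t := sx_lo h 0.78 (-0.221) 0.287 1.24732 0.9296 hk1 (by norm_num) hy2 (abs_le.2 ⟨by linarith, by linarith⟩) (by rw [neg_neg]; exact expn_ge (by norm_num) (by norm_num)) (by norm_num) (by norm_num)
  have hx2 : sx κ t ≤ 1.1651 := sx_hi h 0.89 (-0.287) 0.221 1.33243 1.1651 hk2 g2 (by norm_num) (by rw [abs_of_nonpos (by linarith)]; linarith) (by rw [neg_neg]; exact expn_le (by norm_num) (by norm_num) (by norm_num)) (by norm_num) (by norm_num)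
  exact JB6_k0b_b3_3 hβ hN hx1 hx2 (by linarith) (by linarith)

private theorem JB6_k0b_b4_0 {β x y : ℝ} (hβ : 0 < β) (hN : β * 10.101 ≤ 1) (hx1 : 1.2049 ≤ x) (hx2 : x ≤ 1.3595)
    (hy1 : -0.348 ≤ y) (hy2 : y ≤ -0.343) : ‖HH β (x + y * I) - 1‖ ≤ 0.11 := by
  refine le_epsJ (C := 1.1046) (N0 := 10.101) (J_boxp 1.2049 1.3595 0.348 0 (-0.343) 1.3113 1.4034 1.51 0.8184 0.4903 3.1783 10.101 1.0703 4.686 1.636 0.576 0.6556 0.4217 0.8714 2.214 0.7501 2.1683 3.0345 3.307 0.001332 0.01414 0.0001507 0.0000003101 0.0005128 0.0000003101 0.0000003101 0.0000003101 1.1046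
    hβ hN hx1 hx2 hy1 hy2 (by norm_num) (by norm_num) (by linarith) (by norm_num) (by norm_num) (by norm_num) (by norm_num) (by norm_num) (by norm_num) (by norm_num) (by norm_num) (by norm_num) (by norm_num) (by norm_num) (by norm_num) (by norm_num) (by norm_num) (by norm_num) (by norm_num) (by norm_num) (by norm_num) (by norm_num) (by norm_num) (by norm_num)
    (cube_sqrt_geJ (s := 0.802) (by norm_num) (by norm_num) (by norm_num) (by norm_num))
    (cube_sqrt_geJ (s := 0.9321) (by norm_num) (by norm_num) (by norm_num) (by norm_num))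
    (by norm_num) (by norm_num) (by norm_num) (by norm_num) (by norm_num) (by norm_num) (by norm_num) (by norm_num) (by norm_num) (by norm_num) (by norm_num) (by norm_num) (by norm_num) (by norm_num) (by norm_num) (by norm_num) (by norm_num) (by norm_num)
    (exp_neg_leJ (r := 0.622) 6 (by norm_num) (by norm_num) (by norm_num) (by norm_num))
    (exp_neg_leJ (r := 0.259) 4 (by norm_num) (by norm_num) (by norm_num) (by norm_num))
    (exp_neg_leJ (r := 0.802) 8 (by norm_num) (by norm_num) (by norm_num) (by norm_num))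
    (exp_neg_leJ (r := 0.99) 14 (by norm_num) (by norm_num) (by norm_num) (by norm_num))
    (exp_neg_leJ (r := 0.576) 7 (by norm_num) (by norm_num) (by norm_num) (by norm_num))
    (exp_neg_leJ (r := 0.99) 14 (by norm_num) (by norm_num) (by norm_num) (by norm_num))
    (exp_neg_leJ (r := 0.99) 14 (by norm_num) (by norm_num) (by norm_num) (by norm_num))
    (exp_neg_leJ (r := 0.99) 14 (by norm_num) (by norm_num) (by norm_num) (by norm_num))
    (by norm_num)) (by norm_num) hN hβ.le (by norm_num)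

private theorem JB6_k0b_b4_1 {β x y : ℝ} (hβ : 0 < β) (hN : β * 10.101 ≤ 1) (hx1 : 1.1933 ≤ x) (hx2 : x ≤ 1.3548)
    (hy1 : -0.343 ≤ y) (hy2 : y ≤ -0.333) : ‖HH β (x + y * I) - 1‖ ≤ 0.11 := by
  refine le_epsJ (C := 1.1099) (N0 := 10.101) (J_boxp 1.1933 1.3548 0.343 0 (-0.333) 1.3067 1.3976 1.5101 0.8227 0.4903 3.1783 10.101 1.0696 4.68 1.635 0.5824 0.6533 0.4204 0.8753 2.2327 0.7472 2.1522 3.0249 3.2996 0.001364 0.01433 0.000145 0.0000003101 0.0005279 0.0000003101 0.0000003101 0.0000003101 1.1099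
    hβ hN hx1 hx2 hy1 hy2 (by norm_num) (by norm_num) (by linarith) (by norm_num) (by norm_num) (by norm_num) (by norm_num) (by norm_num) (by norm_num) (by norm_num) (by norm_num) (by norm_num) (by norm_num) (by norm_num) (by norm_num) (by norm_num) (by norm_num) (by norm_num) (by norm_num) (by norm_num) (by norm_num) (by norm_num) (by norm_num) (by norm_num)
    (cube_sqrt_geJ (s := 0.8021) (by norm_num) (by norm_num) (by norm_num) (by norm_num))
    (cube_sqrt_geJ (s := 0.9322) (by norm_num) (by norm_num) (by norm_num) (by norm_num))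
    (by norm_num) (by norm_num) (by norm_num) (by norm_num) (by norm_num) (by norm_num) (by norm_num) (by norm_num) (by norm_num) (by norm_num) (by norm_num) (by norm_num) (by norm_num) (by norm_num) (by norm_num) (by norm_num) (by norm_num) (by norm_num)
    (exp_neg_leJ (r := 0.598) 6 (by norm_num) (by norm_num) (by norm_num) (by norm_num))
    (exp_neg_leJ (r := 0.246) 4 (by norm_num) (by norm_num) (by norm_num) (by norm_num))
    (exp_neg_leJ (r := 0.841) 8 (by norm_num) (by norm_num) (by norm_num) (by norm_num))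
    (exp_neg_leJ (r := 0.99) 14 (by norm_num) (by norm_num) (by norm_num) (by norm_num))
    (exp_neg_leJ (r := 0.547) 7 (by norm_num) (by norm_num) (by norm_num) (by norm_num))
    (exp_neg_leJ (r := 0.99) 14 (by norm_num) (by norm_num) (by norm_num) (by norm_num))
    (exp_neg_leJ (r := 0.99) 14 (by norm_num) (by norm_num) (by norm_num) (by norm_num))
    (exp_neg_leJ (r := 0.99) 14 (by norm_num) (by norm_num) (by norm_num) (by norm_num))
    (by norm_num)) (by norm_num) hN hβ.le (by norm_num)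

private theorem JB6_k0b_b4_2 {β x y : ℝ} (hβ : 0 < β) (hN : β * 10.101 ≤ 1) (hx1 : 1.1769 ≤ x) (hx2 : x ≤ 1.3441)
    (hy1 : -0.333 ≤ y) (hy2 : y ≤ -0.318) : ‖HH β (x + y * I) - 1‖ ≤ 0.11 := by
  refine le_epsJ (C := 1.0978) (N0 := 10.101) (J_boxp 1.1769 1.3441 0.333 0 (-0.318) 1.3023 1.3848 1.5073 0.8262 0.4898 3.1783 10.101 1.0634 4.628 1.63 0.5957 0.6511 0.4203 0.8855 2.2708 0.7447 2.1295 3.0193 3.3015 0.001394 0.01434 0.0001309 0.0000003101 0.0005412 0.0000003101 0.0000003101 0.0000003101 1.0978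
    hβ hN hx1 hx2 hy1 hy2 (by norm_num) (by norm_num) (by linarith) (by norm_num) (by norm_num) (by norm_num) (by norm_num) (by norm_num) (by norm_num) (by norm_num) (by norm_num) (by norm_num) (by norm_num) (by norm_num) (by norm_num) (by norm_num) (by norm_num) (by norm_num) (by norm_num) (by norm_num) (by norm_num) (by norm_num) (by norm_num) (by norm_num)
    (cube_sqrt_geJ (s := 0.8034) (by norm_num) (by norm_num) (by norm_num) (by norm_num))
    (cube_sqrt_geJ (s := 0.9326) (by norm_num) (by norm_num) (by norm_num) (by norm_num))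
    (by norm_num) (by norm_num) (by norm_num) (by norm_num) (by norm_num) (by norm_num) (by norm_num) (by norm_num) (by norm_num) (by norm_num) (by norm_num) (by norm_num) (by norm_num) (by norm_num) (by norm_num) (by norm_num) (by norm_num) (by norm_num)
    (exp_neg_leJ (r := 0.576) 6 (by norm_num) (by norm_num) (by norm_num) (by norm_num))
    (exp_neg_leJ (r := 0.245) 4 (by norm_num) (by norm_num) (by norm_num) (by norm_num))
    (exp_neg_leJ (r := 0.944) 8 (by norm_num) (by norm_num) (by norm_num) (by norm_num))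
    (exp_neg_leJ (r := 0.99) 14 (by norm_num) (by norm_num) (by norm_num) (by norm_num))
    (exp_neg_leJ (r := 0.522) 7 (by norm_num) (by norm_num) (by norm_num) (by norm_num))
    (exp_neg_leJ (r := 0.99) 14 (by norm_num) (by norm_num) (by norm_num) (by norm_num))
    (exp_neg_leJ (r := 0.99) 14 (by norm_num) (by norm_num) (by norm_num) (by norm_num))
    (exp_neg_leJ (r := 0.99) 14 (by norm_num) (by norm_num) (by norm_num) (by norm_num))
    (by norm_num)) (by norm_num) hN hβ.le (by norm_num)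

private theorem JB6_k0b_b4_3 {β x y : ℝ} (hβ : 0 < β) (hN : β * 10.101 ≤ 1) (hx1 : 1.1436 ≤ x) (hx2 : x ≤ 1.3299)
    (hy1 : -0.318 ≤ y) (hy2 : y ≤ -0.288) : ‖HH β (x + y * I) - 1‖ ≤ 0.11 := by
  refine le_epsJ (C := 1.1107) (N0 := 10.101) (J_boxp 1.1436 1.3299 0.318 0 (-0.288) 1.2895 1.3674 1.5086 0.8388 0.4901 3.1783 10.101 1.0605 4.603 1.628 0.615 0.6447 0.4168 0.8977 2.327 0.7367 2.0834 2.9934 3.2822 0.001486 0.01485 0.0001155 0.0000003101 0.0005868 0.0000003101 0.0000003101 0.0000003101 1.1107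
    hβ hN hx1 hx2 hy1 hy2 (by norm_num) (by norm_num) (by linarith) (by norm_num) (by norm_num) (by norm_num) (by norm_num) (by norm_num) (by norm_num) (by norm_num) (by norm_num) (by norm_num) (by norm_num) (by norm_num) (by norm_num) (by norm_num) (by norm_num) (by norm_num) (by norm_num) (by norm_num) (by norm_num) (by norm_num) (by norm_num) (by norm_num)
    (cube_sqrt_geJ (s := 0.804) (by norm_num) (by norm_num) (by norm_num) (by norm_num))
    (cube_sqrt_geJ (s := 0.9328) (by norm_num) (by norm_num) (by norm_num) (by norm_num))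
    (by norm_num) (by norm_num) (by norm_num) (by norm_num) (by norm_num) (by norm_num) (by norm_num) (by norm_num) (by norm_num) (by norm_num) (by norm_num) (by norm_num) (by norm_num) (by norm_num) (by norm_num) (by norm_num) (by norm_num) (by norm_num)
    (exp_neg_leJ (r := 0.512) 6 (by norm_num) (by norm_num) (by norm_num) (by norm_num))
    (exp_neg_leJ (r := 0.21) 4 (by norm_num) (by norm_num) (by norm_num) (by norm_num))
    (exp_neg_leJ (r := 0.067) 9 (by norm_num) (by norm_num) (by norm_num) (by norm_num))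
    (exp_neg_leJ (r := 0.99) 14 (by norm_num) (by norm_num) (by norm_num) (by norm_num))
    (exp_neg_leJ (r := 0.441) 7 (by norm_num) (by norm_num) (by norm_num) (by norm_num))
    (exp_neg_leJ (r := 0.99) 14 (by norm_num) (by norm_num) (by norm_num) (by norm_num))
    (exp_neg_leJ (r := 0.99) 14 (by norm_num) (by norm_num) (by norm_num) (by norm_num))
    (exp_neg_leJ (r := 0.99) 14 (by norm_num) (by norm_num) (by norm_num) (by norm_num))
    (by norm_num)) (by norm_num) hN hβ.le (by norm_num)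

private theorem JB6_k0b_b4_4 {β x y : ℝ} (hβ : 0 < β) (hN : β * 10.101 ≤ 1) (hx1 : 1.0859 ≤ x) (hx2 : x ≤ 1.2998)
    (hy1 : -0.288 ≤ y) (hy2 : y ≤ -0.233) : ‖HH β (x + y * I) - 1‖ ≤ 0.11 := by
  refine le_epsJ (C := 1.108) (N0 := 10.101) (J_boxp 1.0859 1.2998 0.288 0 (-0.233) 1.2701 1.3314 1.5093 0.8583 0.4902 3.1783 10.101 1.0483 4.504 1.618 0.6543 0.635 0.4131 0.9253 2.4401 0.7251 2.0035 2.9596 3.2647 0.001639 0.01543 0.00008732 0.0000003101 0.0006596 0.0000003101 0.0000003101 0.0000003101 1.108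
    hβ hN hx1 hx2 hy1 hy2 (by norm_num) (by norm_num) (by linarith) (by norm_num) (by norm_num) (by norm_num) (by norm_num) (by norm_num) (by norm_num) (by norm_num) (by norm_num) (by norm_num) (by norm_num) (by norm_num) (by norm_num) (by norm_num) (by norm_num) (by norm_num) (by norm_num) (by norm_num) (by norm_num) (by norm_num) (by norm_num) (by norm_num)
    (cube_sqrt_geJ (s := 0.8065) (by norm_num) (by norm_num) (by norm_num) (by norm_num))
    (cube_sqrt_geJ (s := 0.9336) (by norm_num) (by norm_num) (by norm_num) (by norm_num))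
    (by norm_num) (by norm_num) (by norm_num) (by norm_num) (by norm_num) (by norm_num) (by norm_num) (by norm_num) (by norm_num) (by norm_num) (by norm_num) (by norm_num) (by norm_num) (by norm_num) (by norm_num) (by norm_num) (by norm_num) (by norm_num)
    (exp_neg_leJ (r := 0.414) 6 (by norm_num) (by norm_num) (by norm_num) (by norm_num))
    (exp_neg_leJ (r := 0.172) 4 (by norm_num) (by norm_num) (by norm_num) (by norm_num))
    (exp_neg_leJ (r := 0.346) 9 (by norm_num) (by norm_num) (by norm_num) (by norm_num))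
    (exp_neg_leJ (r := 0.99) 14 (by norm_num) (by norm_num) (by norm_num) (by norm_num))
    (exp_neg_leJ (r := 0.324) 7 (by norm_num) (by norm_num) (by norm_num) (by norm_num))
    (exp_neg_leJ (r := 0.99) 14 (by norm_num) (by norm_num) (by norm_num) (by norm_num))
    (exp_neg_leJ (r := 0.99) 14 (by norm_num) (by norm_num) (by norm_num) (by norm_num))
    (exp_neg_leJ (r := 0.99) 14 (by norm_num) (by norm_num) (by norm_num) (by norm_num))
    (by norm_num)) (by norm_num) hN hβ.le (by norm_num)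

private theorem JB6_k0b_b4_5 {β x y : ℝ} (hβ : 0 < β) (hN : β * 10.101 ≤ 1) (hx1 : 1.0819 ≤ x) (hx2 : x ≤ 1.2307)
    (hy1 : -0.233 ≤ y) (hy2 : y ≤ -0.218) : ‖HH β (x + y * I) - 1‖ ≤ 0.11 := by
  refine le_epsJ (C := 0.8088) (N0 := 10.101) (J_boxp 1.0819 1.2307 0.233 0 (-0.218) 1.3064 1.2526 1.4582 0.8088 0.4818 3.1783 10.101 0.9589 3.85 1.549 0.7316 0.6531 0.4444 1.0108 2.6553 0.7532 1.998 3.1011 3.4709 0.001367 0.01125 0.00003681 0.0000003101 0.0004967 0.0000003101 0.0000003101 0.0000003101 0.8088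
    hβ hN hx1 hx2 hy1 hy2 (by norm_num) (by norm_num) (by linarith) (by norm_num) (by norm_num) (by norm_num) (by norm_num) (by norm_num) (by norm_num) (by norm_num) (by norm_num) (by norm_num) (by norm_num) (by norm_num) (by norm_num) (by norm_num) (by norm_num) (by norm_num) (by norm_num) (by norm_num) (by norm_num) (by norm_num) (by norm_num) (by norm_num)
    (cube_sqrt_geJ (s := 0.8248) (by norm_num) (by norm_num) (by norm_num) (by norm_num))
    (cube_sqrt_geJ (s := 0.9394) (by norm_num) (by norm_num) (by norm_num) (by norm_num))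
    (by norm_num) (by norm_num) (by norm_num) (by norm_num) (by norm_num) (by norm_num) (by norm_num) (by norm_num) (by norm_num) (by norm_num) (by norm_num) (by norm_num) (by norm_num) (by norm_num) (by norm_num) (by norm_num) (by norm_num) (by norm_num)
    (exp_neg_leJ (r := 0.596) 6 (by norm_num) (by norm_num) (by norm_num) (by norm_num))
    (exp_neg_leJ (r := 0.488) 4 (by norm_num) (by norm_num) (by norm_num) (by norm_num))
    (exp_neg_leJ (r := 0.21) 10 (by norm_num) (by norm_num) (by norm_num) (by norm_num))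
    (exp_neg_leJ (r := 0.99) 14 (by norm_num) (by norm_num) (by norm_num) (by norm_num))
    (exp_neg_leJ (r := 0.608) 7 (by norm_num) (by norm_num) (by norm_num) (by norm_num))
    (exp_neg_leJ (r := 0.99) 14 (by norm_num) (by norm_num) (by norm_num) (by norm_num))
    (exp_neg_leJ (r := 0.99) 14 (by norm_num) (by norm_num) (by norm_num) (by norm_num))
    (exp_neg_leJ (r := 0.99) 14 (by norm_num) (by norm_num) (by norm_num) (by norm_num))
    (by norm_num)) (by norm_num) hN hβ.le (by norm_num)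

private theorem JB6_k0b_c4 {κ t β : ℝ} (h : DomR κ t) (hβ : 0 < β) (hk1 : 0.89 ≤ κ) (hk2 : κ ≤ 0.99)
    (ht1 : -0.6 ≤ t + κ) (ht2 : t + κ ≤ -0.4) (hR0 : β * 10 ≤ κ) (hR : β * (4.95 * (1 + κ ^ 2)) ≤ κ) :
    ‖HH β (sg κ t) - 1‖ ≤ 0.11 := by
  have hN : β * 10.101 ≤ 1 := bNR hβ h.1 hk2 hR0 (by norm_num)
  have hy1 : -0.348 ≤ sy κ t := syL_ge h 0.89 0.99 0.6 0.348 0.70609 0.7061 0.2644 0.2482 0.2761 hk1 hk2 (by linarith) (by norm_num) (by norm_num) (by norm_num)
    (expm_ge (by norm_num) (by norm_num) (by norm_num) (by norm_num)) (expm_le (by norm_num) (by norm_num) (by norm_num)) (by norm_num)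
    (by norm_num) (by norm_num) (by norm_num) (by norm_num) (by norm_num) (by norm_num)
  have hy2 : sy κ t ≤ -0.218 := syL_le h 0.89 0.99 0.4 0.218 0.80412 0.80413 0.17706 0.19697 hk1 hk2 (by linarith) (by norm_num) (by norm_num) (by norm_num)
    (expm_ge (by norm_num) (by norm_num) (by norm_num) (by norm_num)) (expm_le (by norm_num) (by norm_num) (by norm_num)) (by norm_num)
    (by norm_num) (by norm_num) (by norm_num) (by norm_num) (by norm_num) (by norm_num)
  rcases le_total (sy κ t) (-0.343) with f0 | g0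
  · have hx1 : 1.2049 ≤ sx κ t := sx_lo h 0.89 (-0.343) 0.348 1.40916 1.2049 hk1 (by norm_num) f0 (abs_le.2 ⟨by linarith, by linarith⟩) (by rw [neg_neg]; exact expn_ge (by norm_num) (by norm_num)) (by norm_num) (by norm_num)
    have hx2 : sx κ t ≤ 1.3595 := sx_hi h 0.99 (-0.348) 0.343 1.41624 1.3595 hk2 hy1 (by norm_num) (by rw [abs_of_nonpos (by linarith)]; linarith) (by rw [neg_neg]; exact expn_le (by norm_num) (by norm_num) (by norm_num)) (by norm_num) (by norm_num)
    exact JB6_k0b_b4_0 hβ hN hx1 hx2 (by linarith) (by linarith)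
  rcases le_total (sy κ t) (-0.333) with f1 | g1
  · have hx1 : 1.1933 ≤ sx κ t := sx_lo h 0.89 (-0.333) 0.343 1.39514 1.1933 hk1 (by norm_num) f1 (abs_le.2 ⟨by linarith, by linarith⟩) (by rw [neg_neg]; exact expn_ge (by norm_num) (by norm_num)) (by norm_num) (by norm_num)
    have hx2 : sx κ t ≤ 1.3548 := sx_hi h 0.99 (-0.343) 0.333 1.40917 1.3548 hk2 g0 (by norm_num) (by rw [abs_of_nonpos (by linarith)]; linarith) (by rw [neg_neg]; exact expn_le (by norm_num) (by norm_num) (by norm_num)) (by norm_num) (by norm_num)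
    exact JB6_k0b_b4_1 hβ hN hx1 hx2 (by linarith) (by linarith)
  rcases le_total (sy κ t) (-0.318) with f2 | g2
  · have hx1 : 1.1769 ≤ sx κ t := sx_lo h 0.89 (-0.318) 0.333 1.37437 1.1769 hk1 (by norm_num) f2 (abs_le.2 ⟨by linarith, by linarith⟩) (by rw [neg_neg]; exact expn_ge (by norm_num) (by norm_num)) (by norm_num) (by norm_num)
    have hx2 : sx κ t ≤ 1.3441 := sx_hi h 0.99 (-0.333) 0.318 1.39515 1.3441 hk2 g1 (by norm_num) (by rw [abs_of_nonpos (by linarith)]; linarith) (by rw [neg_neg]; exact expn_le (by norm_num) (by norm_num) (by norm_num)) (by norm_num) (by norm_num)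
    exact JB6_k0b_b4_2 hβ hN hx1 hx2 (by linarith) (by linarith)
  rcases le_total (sy κ t) (-0.288) with f3 | g3
  · have hx1 : 1.1436 ≤ sx κ t := sx_lo h 0.89 (-0.288) 0.318 1.33375 1.1436 hk1 (by norm_num) f3 (abs_le.2 ⟨by linarith, by linarith⟩) (by rw [neg_neg]; exact expn_ge (by norm_num) (by norm_num)) (by norm_num) (by norm_num)
    have hx2 : sx κ t ≤ 1.3299 := sx_hi h 0.99 (-0.318) 0.288 1.37438 1.3299 hk2 g2 (by norm_num) (by rw [abs_of_nonpos (by linarith)]; linarith) (by rw [neg_neg]; exact expn_le (by norm_num) (by norm_num) (by norm_num)) (by norm_num) (by norm_num)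
    exact JB6_k0b_b4_3 hβ hN hx1 hx2 (by linarith) (by linarith)
  rcases le_total (sy κ t) (-0.233) with f4 | g4
  · have hx1 : 1.0859 ≤ sx κ t := sx_lo h 0.89 (-0.233) 0.288 1.26238 1.0859 hk1 (by norm_num) f4 (abs_le.2 ⟨by linarith, by linarith⟩) (by rw [neg_neg]; exact expn_ge (by norm_num) (by norm_num)) (by norm_num) (by norm_num)
    have hx2 : sx κ t ≤ 1.2998 := sx_hi h 0.99 (-0.288) 0.233 1.33376 1.2998 hk2 g3 (by norm_num) (by rw [abs_of_nonpos (by linarith)]; linarith) (by rw [neg_neg]; exact expn_le (by norm_num) (by norm_num) (by norm_num)) (by norm_num) (by norm_num)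
    exact JB6_k0b_b4_4 hβ hN hx1 hx2 (by linarith) (by linarith)
  have hx1 : 1.0819 ≤ sx κ t := sx_lo h 0.89 (-0.218) 0.233 1.24358 1.0819 hk1 (by norm_num) hy2 (abs_le.2 ⟨by linarith, by linarith⟩) (by rw [neg_neg]; exact expn_ge (by norm_num) (by norm_num)) (by norm_num) (by norm_num)
  have hx2 : sx κ t ≤ 1.2307 := sx_hi h 0.99 (-0.233) 0.218 1.26239 1.2307 hk2 g4 (by norm_num) (by rw [abs_of_nonpos (by linarith)]; linarith) (by rw [neg_neg]; exact expn_le (by norm_num) (by norm_num) (by norm_num)) (by norm_num) (by norm_num)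
  exact JB6_k0b_b4_5 hβ hN hx1 hx2 (by linarith) (by linarith)

private theorem JB6_k0b_b5_0 {β x y : ℝ} (hβ : 0 < β) (hN : β * 9.999 ≤ 1) (hx1 : 1.2217 ≤ x) (hx2 : x ≤ 1.3788)
    (hy1 : -0.337 ≤ y) (hy2 : y ≤ -0.247) : ‖HH β (x + y * I) - 1‖ ≤ 0.11 := by
  refine le_epsJ (C := 1.0878) (N0 := 9.999) (J_boxp 1.2217 1.3788 0.337 0 (-0.247) 1.331 1.4194 1.5711 0.8163 0.5001 3.1622 9.999 1.0665 4.653 1.632 0.5787 0.6654 0.4289 0.8945 2.2382 0.7643 2.1915 3.098 3.2971 0.001291 0.01374 0.0001309 0.0000003101 0.0004802 0.0000003101 0.0000003101 0.0000003101 1.0878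
    hβ hN hx1 hx2 hy1 hy2 (by norm_num) (by norm_num) (by linarith) (by norm_num) (by norm_num) (by norm_num) (by norm_num) (by norm_num) (by norm_num) (by norm_num) (by norm_num) (by norm_num) (by norm_num) (by norm_num) (by norm_num) (by norm_num) (by norm_num) (by norm_num) (by norm_num) (by norm_num) (by norm_num) (by norm_num) (by norm_num) (by norm_num)
    (cube_sqrt_geJ (s := 0.8028) (by norm_num) (by norm_num) (by norm_num) (by norm_num))
    (cube_sqrt_geJ (s := 0.9324) (by norm_num) (by norm_num) (by norm_num) (by norm_num))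
    (by norm_num) (by norm_num) (by norm_num) (by norm_num) (by norm_num) (by norm_num) (by norm_num) (by norm_num) (by norm_num) (by norm_num) (by norm_num) (by norm_num) (by norm_num) (by norm_num) (by norm_num) (by norm_num) (by norm_num) (by norm_num)
    (exp_neg_leJ (r := 0.653) 6 (by norm_num) (by norm_num) (by norm_num) (by norm_num))
    (exp_neg_leJ (r := 0.288) 4 (by norm_num) (by norm_num) (by norm_num) (by norm_num))
    (exp_neg_leJ (r := 0.944) 8 (by norm_num) (by norm_num) (by norm_num) (by norm_num))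
    (exp_neg_leJ (r := 0.99) 14 (by norm_num) (by norm_num) (by norm_num) (by norm_num))
    (exp_neg_leJ (r := 0.642) 7 (by norm_num) (by norm_num) (by norm_num) (by norm_num))
    (exp_neg_leJ (r := 0.99) 14 (by norm_num) (by norm_num) (by norm_num) (by norm_num))
    (exp_neg_leJ (r := 0.99) 14 (by norm_num) (by norm_num) (by norm_num) (by norm_num))
    (exp_neg_leJ (r := 0.99) 14 (by norm_num) (by norm_num) (by norm_num) (by norm_num))
    (by norm_num)) (by norm_num) hN hβ.le (by norm_num)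

private theorem JB6_k0b_b5_1 {β x y : ℝ} (hβ : 0 < β) (hN : β * 9.999 ≤ 1) (hx1 : 1.2048 ≤ x) (hx2 : x ≤ 1.2617)
    (hy1 : -0.247 ≤ y) (hy2 : y ≤ -0.217) : ‖HH β (x + y * I) - 1‖ ≤ 0.11 := by
  refine le_epsJ (C := 0.6751) (N0 := 9.999) (J_boxp 1.2048 1.2617 0.247 0 (-0.217) 1.383 1.2857 1.485 0.7493 0.4862 3.1622 9.999 0.9297 3.663 1.527 0.7068 0.6914 0.4772 1.0308 2.5929 0.8052 2.1681 3.3088 3.6267 0.0009973 0.008483 0.00003344 0.0000003101 0.0003188 0.0000003101 0.0000003101 0.0000003101 0.6751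
    hβ hN hx1 hx2 hy1 hy2 (by norm_num) (by norm_num) (by linarith) (by norm_num) (by norm_num) (by norm_num) (by norm_num) (by norm_num) (by norm_num) (by norm_num) (by norm_num) (by norm_num) (by norm_num) (by norm_num) (by norm_num) (by norm_num) (by norm_num) (by norm_num) (by norm_num) (by norm_num) (by norm_num) (by norm_num) (by norm_num) (by norm_num)
    (cube_sqrt_geJ (s := 0.8307) (by norm_num) (by norm_num) (by norm_num) (by norm_num))
    (cube_sqrt_geJ (s := 0.9413) (by norm_num) (by norm_num) (by norm_num) (by norm_num))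
    (by norm_num) (by norm_num) (by norm_num) (by norm_num) (by norm_num) (by norm_num) (by norm_num) (by norm_num) (by norm_num) (by norm_num) (by norm_num) (by norm_num) (by norm_num) (by norm_num) (by norm_num) (by norm_num) (by norm_num) (by norm_num)
    (exp_neg_leJ (r := 0.913) 6 (by norm_num) (by norm_num) (by norm_num) (by norm_num))
    (exp_neg_leJ (r := 0.771) 4 (by norm_num) (by norm_num) (by norm_num) (by norm_num))
    (exp_neg_leJ (r := 0.306) 10 (by norm_num) (by norm_num) (by norm_num) (by norm_num))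
    (exp_neg_leJ (r := 0.99) 14 (by norm_num) (by norm_num) (by norm_num) (by norm_num))
    (exp_neg_leJ (r := 0.051) 8 (by norm_num) (by norm_num) (by norm_num) (by norm_num))
    (exp_neg_leJ (r := 0.99) 14 (by norm_num) (by norm_num) (by norm_num) (by norm_num))
    (exp_neg_leJ (r := 0.99) 14 (by norm_num) (by norm_num) (by norm_num) (by norm_num))
    (exp_neg_leJ (r := 0.99) 14 (by norm_num) (by norm_num) (by norm_num) (by norm_num))
    (by norm_num)) (by norm_num) hN hβ.le (by norm_num)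

private theorem JB6_k0b_c5 {κ t β : ℝ} (h : DomR κ t) (hβ : 0 < β) (hk1 : 0.99 ≤ κ) (hk2 : κ ≤ 1)
    (ht1 : -0.6 ≤ t + κ) (ht2 : t + κ ≤ -0.4) (hR0 : β * 10 ≤ κ) (hR : β * (4.95 * (1 + κ ^ 2)) ≤ κ) :
    ‖HH β (sg κ t) - 1‖ ≤ 0.11 := by
  have hN : β * 9.999 ≤ 1 := bNR hβ h.1 hk2 hR0 (by norm_num)
  have hy1 : -0.337 ≤ sy κ t := syL_ge h 0.99 1 0.6 0.337 0.7139 0.71391 0.2399 0.24058 0.24302 hk1 hk2 (by linarith) (by norm_num) (by norm_num) (by norm_num)
    (expm_ge (by norm_num) (by norm_num) (by norm_num) (by norm_num)) (expm_le (by norm_num) (by norm_num) (by norm_num)) (by norm_num)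
    (by norm_num) (by norm_num) (by norm_num) (by norm_num) (by norm_num) (by norm_num)
  have hy2 : sy κ t ≤ -0.217 := syL_le h 0.99 1 0.4 0.217 0.80492 0.80493 0.17466 0.17644 hk1 hk2 (by linarith) (by norm_num) (by norm_num) (by norm_num)
    (expm_ge (by norm_num) (by norm_num) (by norm_num) (by norm_num)) (expm_le (by norm_num) (by norm_num) (by norm_num)) (by norm_num)
    (by norm_num) (by norm_num) (by norm_num) (by norm_num) (by norm_num) (by norm_num)
  rcases le_total (sy κ t) (-0.247) with f0 | g0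
  · have hx1 : 1.2217 ≤ sx κ t := sx_lo h 0.99 (-0.247) 0.337 1.28017 1.2217 hk1 (by norm_num) f0 (abs_le.2 ⟨by linarith, by linarith⟩) (by rw [neg_neg]; exact expn_ge (by norm_num) (by norm_num)) (by norm_num) (by norm_num)
    have hx2 : sx κ t ≤ 1.3788 := sx_hi h 1 (-0.337) 0.247 1.40074 1.3788 hk2 hy1 (by norm_num) (by rw [abs_of_nonpos (by linarith)]; linarith) (by rw [neg_neg]; exact expn_le (by norm_num) (by norm_num) (by norm_num)) (by norm_num) (by norm_num)
    exact JB6_k0b_b5_0 hβ hN hx1 hx2 (by linarith) (by linarith)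
  have hx1 : 1.2048 ≤ sx κ t := sx_lo h 0.99 (-0.217) 0.247 1.24234 1.2048 hk1 (by norm_num) hy2 (abs_le.2 ⟨by linarith, by linarith⟩) (by rw [neg_neg]; exact expn_ge (by norm_num) (by norm_num)) (by norm_num) (by norm_num)
  have hx2 : sx κ t ≤ 1.2617 := sx_hi h 1 (-0.247) 0.217 1.28018 1.2617 hk2 g0 (by norm_num) (by rw [abs_of_nonpos (by linarith)]; linarith) (by rw [neg_neg]; exact expn_le (by norm_num) (by norm_num) (by norm_num)) (by norm_num) (by norm_num)
  exact JB6_k0b_b5_1 hβ hN hx1 hx2 (by linarith) (by linarith)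

private theorem JB6_k0b_b6_0 {β x y : ℝ} (hβ : 0 < β) (hN : β * 9.899 ≤ 1) (hx1 : 1.344 ≤ x) (hx2 : x ≤ 1.5187)
    (hy1 : -0.336 ≤ y) (hy2 : y ≤ -0.326) : ‖HH β (x + y * I) - 1‖ ≤ 0.11 := by
  refine le_epsJ (C := 1.0812) (N0 := 9.899) (J_boxp 1.344 1.5187 0.336 0 (-0.326) 1.4178 1.5555 1.6616 0.7636 0.5143 3.1463 9.899 1.0972 4.921 1.657 0.5258 0.7088 0.4496 0.9379 2.1615 0.8242 2.3609 3.3453 3.1717 0.0008975 0.01168 0.00009291 0.0000003101 0.0002865 0.0000003101 0.0000003101 0.0000003101 1.0812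
    hβ hN hx1 hx2 hy1 hy2 (by norm_num) (by norm_num) (by linarith) (by norm_num) (by norm_num) (by norm_num) (by norm_num) (by norm_num) (by norm_num) (by norm_num) (by norm_num) (by norm_num) (by norm_num) (by norm_num) (by norm_num) (by norm_num) (by norm_num) (by norm_num) (by norm_num) (by norm_num) (by norm_num) (by norm_num) (by norm_num) (by norm_num)
    (cube_sqrt_geJ (s := 0.7964) (by norm_num) (by norm_num) (by norm_num) (by norm_num))
    (cube_sqrt_geJ (s := 0.9304) (by norm_num) (by norm_num) (by norm_num) (by norm_num))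
    (by norm_num) (by norm_num) (by norm_num) (by norm_num) (by norm_num) (by norm_num) (by norm_num) (by norm_num) (by norm_num) (by norm_num) (by norm_num) (by norm_num) (by norm_num) (by norm_num) (by norm_num) (by norm_num) (by norm_num) (by norm_num)
    (exp_neg_leJ (r := 0.016) 7 (by norm_num) (by norm_num) (by norm_num) (by norm_num))
    (exp_neg_leJ (r := 0.45) 4 (by norm_num) (by norm_num) (by norm_num) (by norm_num))
    (exp_neg_leJ (r := 0.284) 9 (by norm_num) (by norm_num) (by norm_num) (by norm_num))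
    (exp_neg_leJ (r := 0.99) 14 (by norm_num) (by norm_num) (by norm_num) (by norm_num))
    (exp_neg_leJ (r := 0.158) 8 (by norm_num) (by norm_num) (by norm_num) (by norm_num))
    (exp_neg_leJ (r := 0.99) 14 (by norm_num) (by norm_num) (by norm_num) (by norm_num))
    (exp_neg_leJ (r := 0.99) 14 (by norm_num) (by norm_num) (by norm_num) (by norm_num))
    (exp_neg_leJ (r := 0.99) 14 (by norm_num) (by norm_num) (by norm_num) (by norm_num))
    (by norm_num)) (by norm_num) hN hβ.le (by norm_num)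

private theorem JB6_k0b_b6_1 {β x y : ℝ} (hβ : 0 < β) (hN : β * 9.899 ≤ 1) (hx1 : 1.3252 ≤ x) (hx2 : x ≤ 1.5061)
    (hy1 : -0.326 ≤ y) (hy2 : y ≤ -0.311) : ‖HH β (x + y * I) - 1‖ ≤ 0.11 := by
  refine le_epsJ (C := 1.0722) (N0 := 9.899) (J_boxp 1.3252 1.5061 0.326 0 (-0.311) 1.4117 1.541 1.6563 0.7673 0.5135 3.1463 9.899 1.0916 4.872 1.653 0.5399 0.7058 0.449 0.9473 2.2007 0.8206 2.3348 3.3349 3.1735 0.000928 0.01176 0.00008466 0.0000003101 0.0002967 0.0000003101 0.0000003101 0.0000003101 1.0722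
    hβ hN hx1 hx2 hy1 hy2 (by norm_num) (by norm_num) (by linarith) (by norm_num) (by norm_num) (by norm_num) (by norm_num) (by norm_num) (by norm_num) (by norm_num) (by norm_num) (by norm_num) (by norm_num) (by norm_num) (by norm_num) (by norm_num) (by norm_num) (by norm_num) (by norm_num) (by norm_num) (by norm_num) (by norm_num) (by norm_num) (by norm_num)
    (cube_sqrt_geJ (s := 0.7975) (by norm_num) (by norm_num) (by norm_num) (by norm_num))
    (cube_sqrt_geJ (s := 0.9307) (by norm_num) (by norm_num) (by norm_num) (by norm_num))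
    (by norm_num) (by norm_num) (by norm_num) (by norm_num) (by norm_num) (by norm_num) (by norm_num) (by norm_num) (by norm_num) (by norm_num) (by norm_num) (by norm_num) (by norm_num) (by norm_num) (by norm_num) (by norm_num) (by norm_num) (by norm_num)
    (exp_neg_leJ (r := 0.986) 6 (by norm_num) (by norm_num) (by norm_num) (by norm_num))
    (exp_neg_leJ (r := 0.444) 4 (by norm_num) (by norm_num) (by norm_num) (by norm_num))
    (exp_neg_leJ (r := 0.377) 9 (by norm_num) (by norm_num) (by norm_num) (by norm_num))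
    (exp_neg_leJ (r := 0.99) 14 (by norm_num) (by norm_num) (by norm_num) (by norm_num))
    (exp_neg_leJ (r := 0.123) 8 (by norm_num) (by norm_num) (by norm_num) (by norm_num))
    (exp_neg_leJ (r := 0.99) 14 (by norm_num) (by norm_num) (by norm_num) (by norm_num))
    (exp_neg_leJ (r := 0.99) 14 (by norm_num) (by norm_num) (by norm_num) (by norm_num))
    (exp_neg_leJ (r := 0.99) 14 (by norm_num) (by norm_num) (by norm_num) (by norm_num))
    (by norm_num)) (by norm_num) hN hβ.le (by norm_num)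

private theorem JB6_k0b_b6_2 {β x y : ℝ} (hβ : 0 < β) (hN : β * 9.899 ≤ 1) (hx1 : 1.2942 ≤ x) (hx2 : x ≤ 1.4877)
    (hy1 : -0.311 ≤ y) (hy2 : y ≤ -0.286) : ‖HH β (x + y * I) - 1‖ ≤ 0.11 := by
  refine le_epsJ (C := 1.068) (N0 := 9.899) (J_boxp 1.2942 1.4877 0.311 0 (-0.286) 1.4005 1.5199 1.6502 0.7751 0.5125 3.1463 9.899 1.0853 4.816 1.648 0.5608 0.7002 0.4469 0.9603 2.2591 0.8137 2.2919 3.3137 3.1689 0.0009797 0.012 0.00007442 0.0000003101 0.0003179 0.0000003101 0.0000003101 0.0000003101 1.068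
    hβ hN hx1 hx2 hy1 hy2 (by norm_num) (by norm_num) (by linarith) (by norm_num) (by norm_num) (by norm_num) (by norm_num) (by norm_num) (by norm_num) (by norm_num) (by norm_num) (by norm_num) (by norm_num) (by norm_num) (by norm_num) (by norm_num) (by norm_num) (by norm_num) (by norm_num) (by norm_num) (by norm_num) (by norm_num) (by norm_num) (by norm_num)
    (cube_sqrt_geJ (s := 0.7988) (by norm_num) (by norm_num) (by norm_num) (by norm_num))
    (cube_sqrt_geJ (s := 0.9311) (by norm_num) (by norm_num) (by norm_num) (by norm_num))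
    (by norm_num) (by norm_num) (by norm_num) (by norm_num) (by norm_num) (by norm_num) (by norm_num) (by norm_num) (by norm_num) (by norm_num) (by norm_num) (by norm_num) (by norm_num) (by norm_num) (by norm_num) (by norm_num) (by norm_num) (by norm_num)
    (exp_neg_leJ (r := 0.931) 6 (by norm_num) (by norm_num) (by norm_num) (by norm_num))
    (exp_neg_leJ (r := 0.423) 4 (by norm_num) (by norm_num) (by norm_num) (by norm_num))
    (exp_neg_leJ (r := 0.506) 9 (by norm_num) (by norm_num) (by norm_num) (by norm_num))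
    (exp_neg_leJ (r := 0.99) 14 (by norm_num) (by norm_num) (by norm_num) (by norm_num))
    (exp_neg_leJ (r := 0.054) 8 (by norm_num) (by norm_num) (by norm_num) (by norm_num))
    (exp_neg_leJ (r := 0.99) 14 (by norm_num) (by norm_num) (by norm_num) (by norm_num))
    (exp_neg_leJ (r := 0.99) 14 (by norm_num) (by norm_num) (by norm_num) (by norm_num))
    (exp_neg_leJ (r := 0.99) 14 (by norm_num) (by norm_num) (by norm_num) (by norm_num))
    (by norm_num)) (by norm_num) hN hβ.le (by norm_num)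

private theorem JB6_k0b_b6_3 {β x y : ℝ} (hβ : 0 < β) (hN : β * 9.899 ≤ 1) (hx1 : 1.2399 ≤ x) (hx2 : x ≤ 1.4578)
    (hy1 : -0.286 ≤ y) (hy2 : y ≤ -0.241) : ‖HH β (x + y * I) - 1‖ ≤ 0.11 := by
  refine le_epsJ (C := 1.0707) (N0 := 9.899) (J_boxp 1.2399 1.4578 0.286 0 (-0.241) 1.38 1.4856 1.6436 0.7909 0.5115 3.1463 9.899 1.0766 4.739 1.641 0.5954 0.6899 0.4423 0.9812 2.3561 0.801 2.2167 3.273 3.1535 0.001084 0.01256 0.00006061 0.0000003101 0.0003612 0.0000003101 0.0000003101 0.0000003101 1.0707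
    hβ hN hx1 hx2 hy1 hy2 (by norm_num) (by norm_num) (by linarith) (by norm_num) (by norm_num) (by norm_num) (by norm_num) (by norm_num) (by norm_num) (by norm_num) (by norm_num) (by norm_num) (by norm_num) (by norm_num) (by norm_num) (by norm_num) (by norm_num) (by norm_num) (by norm_num) (by norm_num) (by norm_num) (by norm_num) (by norm_num) (by norm_num)
    (cube_sqrt_geJ (s := 0.8007) (by norm_num) (by norm_num) (by norm_num) (by norm_num))
    (cube_sqrt_geJ (s := 0.9317) (by norm_num) (by norm_num) (by norm_num) (by norm_num))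
    (by norm_num) (by norm_num) (by norm_num) (by norm_num) (by norm_num) (by norm_num) (by norm_num) (by norm_num) (by norm_num) (by norm_num) (by norm_num) (by norm_num) (by norm_num) (by norm_num) (by norm_num) (by norm_num) (by norm_num) (by norm_num)
    (exp_neg_leJ (r := 0.829) 6 (by norm_num) (by norm_num) (by norm_num) (by norm_num))
    (exp_neg_leJ (r := 0.378) 4 (by norm_num) (by norm_num) (by norm_num) (by norm_num))
    (exp_neg_leJ (r := 0.712) 9 (by norm_num) (by norm_num) (by norm_num) (by norm_num))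
    (exp_neg_leJ (r := 0.99) 14 (by norm_num) (by norm_num) (by norm_num) (by norm_num))
    (exp_neg_leJ (r := 0.929) 7 (by norm_num) (by norm_num) (by norm_num) (by norm_num))
    (exp_neg_leJ (r := 0.99) 14 (by norm_num) (by norm_num) (by norm_num) (by norm_num))
    (exp_neg_leJ (r := 0.99) 14 (by norm_num) (by norm_num) (by norm_num) (by norm_num))
    (exp_neg_leJ (r := 0.99) 14 (by norm_num) (by norm_num) (by norm_num) (by norm_num))
    (by norm_num)) (by norm_num) hN hβ.le (by norm_num)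

private theorem JB6_k0b_b6_4 {β x y : ℝ} (hβ : 0 < β) (hN : β * 9.899 ≤ 1) (hx1 : 1.2111 ≤ x) (hx2 : x ≤ 1.3967)
    (hy1 : -0.241 ≤ y) (hy2 : y ≤ -0.211) : ‖HH β (x + y * I) - 1‖ ≤ 0.11 := by
  refine le_epsJ (C := 0.8885) (N0 := 9.899) (J_boxp 1.2111 1.3967 0.241 0 (-0.211) 1.3917 1.4174 1.6042 0.7715 0.5053 3.1463 9.899 1.0185 4.271 1.595 0.6604 0.6958 0.4596 1.0424 2.5346 0.8116 2.1769 3.3377 3.2813 0.001024 0.01059 0.00003304 0.0000003101 0.0003243 0.0000003101 0.0000003101 0.0000003101 0.8885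
    hβ hN hx1 hx2 hy1 hy2 (by norm_num) (by norm_num) (by linarith) (by norm_num) (by norm_num) (by norm_num) (by norm_num) (by norm_num) (by norm_num) (by norm_num) (by norm_num) (by norm_num) (by norm_num) (by norm_num) (by norm_num) (by norm_num) (by norm_num) (by norm_num) (by norm_num) (by norm_num) (by norm_num) (by norm_num) (by norm_num) (by norm_num)
    (cube_sqrt_geJ (s := 0.8127) (by norm_num) (by norm_num) (by norm_num) (by norm_num))
    (cube_sqrt_geJ (s := 0.9355) (by norm_num) (by norm_num) (by norm_num) (by norm_num))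
    (by norm_num) (by norm_num) (by norm_num) (by norm_num) (by norm_num) (by norm_num) (by norm_num) (by norm_num) (by norm_num) (by norm_num) (by norm_num) (by norm_num) (by norm_num) (by norm_num) (by norm_num) (by norm_num) (by norm_num) (by norm_num)
    (exp_neg_leJ (r := 0.887) 6 (by norm_num) (by norm_num) (by norm_num) (by norm_num))
    (exp_neg_leJ (r := 0.549) 4 (by norm_num) (by norm_num) (by norm_num) (by norm_num))
    (exp_neg_leJ (r := 0.318) 10 (by norm_num) (by norm_num) (by norm_num) (by norm_num))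
    (exp_neg_leJ (r := 0.99) 14 (by norm_num) (by norm_num) (by norm_num) (by norm_num))
    (exp_neg_leJ (r := 0.034) 8 (by norm_num) (by norm_num) (by norm_num) (by norm_num))
    (exp_neg_leJ (r := 0.99) 14 (by norm_num) (by norm_num) (by norm_num) (by norm_num))
    (exp_neg_leJ (r := 0.99) 14 (by norm_num) (by norm_num) (by norm_num) (by norm_num))
    (exp_neg_leJ (r := 0.99) 14 (by norm_num) (by norm_num) (by norm_num) (by norm_num))
    (by norm_num)) (by norm_num) hN hβ.le (by norm_num)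

private theorem JB6_k0b_c6 {κ t β : ℝ} (h : DomR κ t) (hβ : 0 < β) (hk1 : 1 ≤ κ) (hk2 : κ ≤ 1.11)
    (ht1 : -0.6 ≤ t + κ) (ht2 : t + κ ≤ -0.4) (hR0 : β * 10 ≤ κ) (hR : β * (4.95 * (1 + κ ^ 2)) ≤ κ) :
    ‖HH β (sg κ t) - 1‖ ≤ 0.11 := by
  have hN : β * 9.899 ≤ 1 := bNC' hβ hk1 (by norm_num) (by norm_num) hR (by norm_num)
  have hy1 : -0.336 ≤ sy κ t := syL_ge h 1 1.11 0.6 0.336 0.71462 0.71463 0.2301 0.21631 0.24012 hk1 hk2 (by linarith) (by norm_num) (by norm_num) (by norm_num)
    (expm_ge (by norm_num) (by norm_num) (by norm_num) (by norm_num)) (expm_le (by norm_num) (by norm_num) (by norm_num)) (by norm_num)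
    (by norm_num) (by norm_num) (by norm_num) (by norm_num) (by norm_num) (by norm_num)
  have hy2 : sy κ t ≤ -0.211 := syL_le h 1 1.11 0.4 0.211 0.80977 0.80978 0.15392 0.17087 hk1 hk2 (by linarith) (by norm_num) (by norm_num) (by norm_num)
    (expm_ge (by norm_num) (by norm_num) (by norm_num) (by norm_num)) (expm_le (by norm_num) (by norm_num) (by norm_num)) (by norm_num)
    (by norm_num) (by norm_num) (by norm_num) (by norm_num) (by norm_num) (by norm_num)
  rcases le_total (sy κ t) (-0.326) with f0 | g0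
  · have hx1 : 1.344 ≤ sx κ t := sx_lo h 1 (-0.326) 0.336 1.38541 1.344 hk1 (by norm_num) f0 (abs_le.2 ⟨by linarith, by linarith⟩) (by rw [neg_neg]; exact expn_ge (by norm_num) (by norm_num)) (by norm_num) (by norm_num)
    have hx2 : sx κ t ≤ 1.5187 := sx_hi h 1.11 (-0.336) 0.326 1.39934 1.5187 hk2 hy1 (by norm_num) (by rw [abs_of_nonpos (by linarith)]; linarith) (by rw [neg_neg]; exact expn_le (by norm_num) (by norm_num) (by norm_num)) (by norm_num) (by norm_num)
    exact JB6_k0b_b6_0 hβ hN hx1 hx2 (by linarith) (by linarith)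
  rcases le_total (sy κ t) (-0.311) with f1 | g1
  · have hx1 : 1.3252 ≤ sx κ t := sx_lo h 1 (-0.311) 0.326 1.36478 1.3252 hk1 (by norm_num) f1 (abs_le.2 ⟨by linarith, by linarith⟩) (by rw [neg_neg]; exact expn_ge (by norm_num) (by norm_num)) (by norm_num) (by norm_num)
    have hx2 : sx κ t ≤ 1.5061 := sx_hi h 1.11 (-0.326) 0.311 1.38542 1.5061 hk2 g0 (by norm_num) (by rw [abs_of_nonpos (by linarith)]; linarith) (by rw [neg_neg]; exact expn_le (by norm_num) (by norm_num) (by norm_num)) (by norm_num) (by norm_num)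
    exact JB6_k0b_b6_1 hβ hN hx1 hx2 (by linarith) (by linarith)
  rcases le_total (sy κ t) (-0.286) with f2 | g2
  · have hx1 : 1.2942 ≤ sx κ t := sx_lo h 1 (-0.286) 0.311 1.33109 1.2942 hk1 (by norm_num) f2 (abs_le.2 ⟨by linarith, by linarith⟩) (by rw [neg_neg]; exact expn_ge (by norm_num) (by norm_num)) (by norm_num) (by norm_num)
    have hx2 : sx κ t ≤ 1.4877 := sx_hi h 1.11 (-0.311) 0.286 1.36479 1.4877 hk2 g1 (by norm_num) (by rw [abs_of_nonpos (by linarith)]; linarith) (by rw [neg_neg]; exact expn_le (by norm_num) (by norm_num) (by norm_num)) (by norm_num) (by norm_num)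
    exact JB6_k0b_b6_2 hβ hN hx1 hx2 (by linarith) (by linarith)
  rcases le_total (sy κ t) (-0.241) with f3 | g3
  · have hx1 : 1.2399 ≤ sx κ t := sx_lo h 1 (-0.241) 0.286 1.27252 1.2399 hk1 (by norm_num) f3 (abs_le.2 ⟨by linarith, by linarith⟩) (by rw [neg_neg]; exact expn_ge (by norm_num) (by norm_num)) (by norm_num) (by norm_num)
    have hx2 : sx κ t ≤ 1.4578 := sx_hi h 1.11 (-0.286) 0.241 1.3311 1.4578 hk2 g2 (by norm_num) (by rw [abs_of_nonpos (by linarith)]; linarith) (by rw [neg_neg]; exact expn_le (by norm_num) (by norm_num) (by norm_num)) (by norm_num) (by norm_num)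
    exact JB6_k0b_b6_3 hβ hN hx1 hx2 (by linarith) (by linarith)
  have hx1 : 1.2111 ≤ sx κ t := sx_lo h 1 (-0.211) 0.241 1.23491 1.2111 hk1 (by norm_num) hy2 (abs_le.2 ⟨by linarith, by linarith⟩) (by rw [neg_neg]; exact expn_ge (by norm_num) (by norm_num)) (by norm_num) (by norm_num)
  have hx2 : sx κ t ≤ 1.3967 := sx_hi h 1.11 (-0.241) 0.211 1.27253 1.3967 hk2 g3 (by norm_num) (by rw [abs_of_nonpos (by linarith)]; linarith) (by rw [neg_neg]; exact expn_le (by norm_num) (by norm_num) (by norm_num)) (by norm_num) (by norm_num)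
  exact JB6_k0b_b6_4 hβ hN hx1 hx2 (by linarith) (by linarith)

private theorem JB6_k0b_b7_0 {β x y : ℝ} (hβ : 0 < β) (hN : β * 9.953 ≤ 1) (hx1 : 1.4831 ≤ x) (hx2 : x ≤ 1.698)
    (hy1 : -0.323 ≤ y) (hy2 : y ≤ -0.313) : ‖HH β (x + y * I) - 1‖ ≤ 0.11 := by
  refine le_epsJ (C := 1.0927) (N0 := 9.953) (J_boxp 1.4831 1.698 0.323 0 (-0.313) 1.525 1.7285 1.8318 0.7187 0.54 3.1549 9.953 1.1335 5.265 1.688 0.4688 0.7624 0.4744 1.0061 2.1003 0.8989 2.5535 3.6588 2.9797 0.0005067 0.008915 0.00004482 0.0000003101 0.0001307 0.0000003101 0.0000003101 0.0000003101 1.0927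
    hβ hN hx1 hx2 hy1 hy2 (by norm_num) (by norm_num) (by linarith) (by norm_num) (by norm_num) (by norm_num) (by norm_num) (by norm_num) (by norm_num) (by norm_num) (by norm_num) (by norm_num) (by norm_num) (by norm_num) (by norm_num) (by norm_num) (by norm_num) (by norm_num) (by norm_num) (by norm_num) (by norm_num) (by norm_num) (by norm_num) (by norm_num)
    (cube_sqrt_geJ (s := 0.7887) (by norm_num) (by norm_num) (by norm_num) (by norm_num))
    (cube_sqrt_geJ (s := 0.928) (by norm_num) (by norm_num) (by norm_num) (by norm_num))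
    (by norm_num) (by norm_num) (by norm_num) (by norm_num) (by norm_num) (by norm_num) (by norm_num) (by norm_num) (by norm_num) (by norm_num) (by norm_num) (by norm_num) (by norm_num) (by norm_num) (by norm_num) (by norm_num) (by norm_num) (by norm_num)
    (exp_neg_leJ (r := 0.588) 7 (by norm_num) (by norm_num) (by norm_num) (by norm_num))
    (exp_neg_leJ (r := 0.721) 4 (by norm_num) (by norm_num) (by norm_num) (by norm_num))
    (exp_neg_leJ (r := 0.013) 10 (by norm_num) (by norm_num) (by norm_num) (by norm_num))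
    (exp_neg_leJ (r := 0.99) 14 (by norm_num) (by norm_num) (by norm_num) (by norm_num))
    (exp_neg_leJ (r := 0.946) 8 (by norm_num) (by norm_num) (by norm_num) (by norm_num))
    (exp_neg_leJ (r := 0.99) 14 (by norm_num) (by norm_num) (by norm_num) (by norm_num))
    (exp_neg_leJ (r := 0.99) 14 (by norm_num) (by norm_num) (by norm_num) (by norm_num))
    (exp_neg_leJ (r := 0.99) 14 (by norm_num) (by norm_num) (by norm_num) (by norm_num))
    (by norm_num)) (by norm_num) hN hβ.le (by norm_num)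

private theorem JB6_k0b_b7_1 {β x y : ℝ} (hβ : 0 < β) (hN : β * 9.953 ≤ 1) (hx1 : 1.4622 ≤ x) (hx2 : x ≤ 1.6833)
    (hy1 : -0.313 ≤ y) (hy2 : y ≤ -0.298) : ‖HH β (x + y * I) - 1‖ ≤ 0.11 := by
  refine le_epsJ (C := 1.085) (N0 := 9.953) (J_boxp 1.4622 1.6833 0.313 0 (-0.298) 1.5174 1.7122 1.8239 0.7226 0.5388 3.1549 9.953 1.1284 5.215 1.683 0.4837 0.7586 0.4733 1.0147 2.1407 0.8942 2.5245 3.6442 2.9822 0.0005263 0.009013 0.00004113 0.0000003101 0.0001369 0.0000003101 0.0000003101 0.0000003101 1.085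
    hβ hN hx1 hx2 hy1 hy2 (by norm_num) (by norm_num) (by linarith) (by norm_num) (by norm_num) (by norm_num) (by norm_num) (by norm_num) (by norm_num) (by norm_num) (by norm_num) (by norm_num) (by norm_num) (by norm_num) (by norm_num) (by norm_num) (by norm_num) (by norm_num) (by norm_num) (by norm_num) (by norm_num) (by norm_num) (by norm_num) (by norm_num)
    (cube_sqrt_geJ (s := 0.7898) (by norm_num) (by norm_num) (by norm_num) (by norm_num))
    (cube_sqrt_geJ (s := 0.9283) (by norm_num) (by norm_num) (by norm_num) (by norm_num))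
    (by norm_num) (by norm_num) (by norm_num) (by norm_num) (by norm_num) (by norm_num) (by norm_num) (by norm_num) (by norm_num) (by norm_num) (by norm_num) (by norm_num) (by norm_num) (by norm_num) (by norm_num) (by norm_num) (by norm_num) (by norm_num)
    (exp_neg_leJ (r := 0.55) 7 (by norm_num) (by norm_num) (by norm_num) (by norm_num))
    (exp_neg_leJ (r := 0.71) 4 (by norm_num) (by norm_num) (by norm_num) (by norm_num))
    (exp_neg_leJ (r := 0.099) 10 (by norm_num) (by norm_num) (by norm_num) (by norm_num))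
    (exp_neg_leJ (r := 0.99) 14 (by norm_num) (by norm_num) (by norm_num) (by norm_num))
    (exp_neg_leJ (r := 0.899) 8 (by norm_num) (by norm_num) (by norm_num) (by norm_num))
    (exp_neg_leJ (r := 0.99) 14 (by norm_num) (by norm_num) (by norm_num) (by norm_num))
    (exp_neg_leJ (r := 0.99) 14 (by norm_num) (by norm_num) (by norm_num) (by norm_num))
    (exp_neg_leJ (r := 0.99) 14 (by norm_num) (by norm_num) (by norm_num) (by norm_num))
    (by norm_num)) (by norm_num) hN hβ.le (by norm_num)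

private theorem JB6_k0b_b7_2 {β x y : ℝ} (hβ : 0 < β) (hN : β * 9.953 ≤ 1) (hx1 : 1.4276 ≤ x) (hx2 : x ≤ 1.6617)
    (hy1 : -0.298 ≤ y) (hy2 : y ≤ -0.273) : ‖HH β (x + y * I) - 1‖ ≤ 0.11 := by
  refine le_epsJ (C := 1.0837) (N0 := 9.953) (J_boxp 1.4276 1.6617 0.298 0 (-0.273) 1.5036 1.6883 1.8138 0.7305 0.5373 3.1549 9.953 1.1229 5.161 1.679 0.5059 0.7517 0.4704 1.0265 2.2009 0.8856 2.4766 3.6158 2.9779 0.0005638 0.009277 0.00003659 0.0000003101 0.0001489 0.0000003101 0.0000003101 0.0000003101 1.0837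
    hβ hN hx1 hx2 hy1 hy2 (by norm_num) (by norm_num) (by linarith) (by norm_num) (by norm_num) (by norm_num) (by norm_num) (by norm_num) (by norm_num) (by norm_num) (by norm_num) (by norm_num) (by norm_num) (by norm_num) (by norm_num) (by norm_num) (by norm_num) (by norm_num) (by norm_num) (by norm_num) (by norm_num) (by norm_num) (by norm_num) (by norm_num)
    (cube_sqrt_geJ (s := 0.791) (by norm_num) (by norm_num) (by norm_num) (by norm_num))
    (cube_sqrt_geJ (s := 0.9287) (by norm_num) (by norm_num) (by norm_num) (by norm_num))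
    (by norm_num) (by norm_num) (by norm_num) (by norm_num) (by norm_num) (by norm_num) (by norm_num) (by norm_num) (by norm_num) (by norm_num) (by norm_num) (by norm_num) (by norm_num) (by norm_num) (by norm_num) (by norm_num) (by norm_num) (by norm_num)
    (exp_neg_leJ (r := 0.481) 7 (by norm_num) (by norm_num) (by norm_num) (by norm_num))
    (exp_neg_leJ (r := 0.681) 4 (by norm_num) (by norm_num) (by norm_num) (by norm_num))
    (exp_neg_leJ (r := 0.216) 10 (by norm_num) (by norm_num) (by norm_num) (by norm_num))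
    (exp_neg_leJ (r := 0.99) 14 (by norm_num) (by norm_num) (by norm_num) (by norm_num))
    (exp_neg_leJ (r := 0.814) 8 (by norm_num) (by norm_num) (by norm_num) (by norm_num))
    (exp_neg_leJ (r := 0.99) 14 (by norm_num) (by norm_num) (by norm_num) (by norm_num))
    (exp_neg_leJ (r := 0.99) 14 (by norm_num) (by norm_num) (by norm_num) (by norm_num))
    (exp_neg_leJ (r := 0.99) 14 (by norm_num) (by norm_num) (by norm_num) (by norm_num))
    (by norm_num)) (by norm_num) hN hβ.le (by norm_num)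

private theorem JB6_k0b_b7_3 {β x y : ℝ} (hβ : 0 < β) (hN : β * 9.953 ≤ 1) (hx1 : 1.3672 ≤ x) (hx2 : x ≤ 1.6265)
    (hy1 : -0.273 ≤ y) (hy2 : y ≤ -0.228) : ‖HH β (x + y * I) - 1‖ ≤ 0.11 := by
  refine le_epsJ (C := 1.0901) (N0 := 9.953) (J_boxp 1.3672 1.6265 0.273 0 (-0.228) 1.4789 1.6493 1.8005 0.7461 0.5354 3.1549 9.953 1.1153 5.089 1.672 0.5425 0.7394 0.4645 1.0453 2.3007 0.8699 2.393 3.563 2.9632 0.0006369 0.009828 0.00003035 0.0000003101 0.0001739 0.0000003101 0.0000003101 0.0000003101 1.0901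
    hβ hN hx1 hx2 hy1 hy2 (by norm_num) (by norm_num) (by linarith) (by norm_num) (by norm_num) (by norm_num) (by norm_num) (by norm_num) (by norm_num) (by norm_num) (by norm_num) (by norm_num) (by norm_num) (by norm_num) (by norm_num) (by norm_num) (by norm_num) (by norm_num) (by norm_num) (by norm_num) (by norm_num) (by norm_num) (by norm_num) (by norm_num)
    (cube_sqrt_geJ (s := 0.7926) (by norm_num) (by norm_num) (by norm_num) (by norm_num))
    (cube_sqrt_geJ (s := 0.9292) (by norm_num) (by norm_num) (by norm_num) (by norm_num))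
    (by norm_num) (by norm_num) (by norm_num) (by norm_num) (by norm_num) (by norm_num) (by norm_num) (by norm_num) (by norm_num) (by norm_num) (by norm_num) (by norm_num) (by norm_num) (by norm_num) (by norm_num) (by norm_num) (by norm_num) (by norm_num)
    (exp_neg_leJ (r := 0.359) 7 (by norm_num) (by norm_num) (by norm_num) (by norm_num))
    (exp_neg_leJ (r := 0.623) 4 (by norm_num) (by norm_num) (by norm_num) (by norm_num))
    (exp_neg_leJ (r := 0.403) 10 (by norm_num) (by norm_num) (by norm_num) (by norm_num))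
    (exp_neg_leJ (r := 0.99) 14 (by norm_num) (by norm_num) (by norm_num) (by norm_num))
    (exp_neg_leJ (r := 0.658) 8 (by norm_num) (by norm_num) (by norm_num) (by norm_num))
    (exp_neg_leJ (r := 0.99) 14 (by norm_num) (by norm_num) (by norm_num) (by norm_num))
    (exp_neg_leJ (r := 0.99) 14 (by norm_num) (by norm_num) (by norm_num) (by norm_num))
    (exp_neg_leJ (r := 0.99) 14 (by norm_num) (by norm_num) (by norm_num) (by norm_num))
    (by norm_num)) (by norm_num) hN hβ.le (by norm_num)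

private theorem JB6_k0b_b7_4 {β x y : ℝ} (hβ : 0 < β) (hN : β * 9.953 ≤ 1) (hx1 : 1.3391 ≤ x) (hx2 : x ≤ 1.5571)
    (hy1 : -0.228 ≤ y) (hy2 : y ≤ -0.202) : ‖HH β (x + y * I) - 1‖ ≤ 0.11 := by
  refine le_epsJ (C := 0.8982) (N0 := 9.953) (J_boxp 1.3391 1.5571 0.228 0 (-0.202) 1.491 1.5738 1.7497 0.7266 0.5278 3.1549 9.953 1.0556 4.563 1.624 0.6107 0.7454 0.4831 1.1067 2.4837 0.8808 2.3541 3.6291 3.1122 0.0006004 0.008177 0.00001647 0.0000003101 0.0001562 0.0000003101 0.0000003101 0.0000003101 0.8982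
    hβ hN hx1 hx2 hy1 hy2 (by norm_num) (by norm_num) (by linarith) (by norm_num) (by norm_num) (by norm_num) (by norm_num) (by norm_num) (by norm_num) (by norm_num) (by norm_num) (by norm_num) (by norm_num) (by norm_num) (by norm_num) (by norm_num) (by norm_num) (by norm_num) (by norm_num) (by norm_num) (by norm_num) (by norm_num) (by norm_num) (by norm_num)
    (cube_sqrt_geJ (s := 0.805) (by norm_num) (by norm_num) (by norm_num) (by norm_num))
    (cube_sqrt_geJ (s := 0.9331) (by norm_num) (by norm_num) (by norm_num) (by norm_num))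
    (by norm_num) (by norm_num) (by norm_num) (by norm_num) (by norm_num) (by norm_num) (by norm_num) (by norm_num) (by norm_num) (by norm_num) (by norm_num) (by norm_num) (by norm_num) (by norm_num) (by norm_num) (by norm_num) (by norm_num) (by norm_num)
    (exp_neg_leJ (r := 0.418) 7 (by norm_num) (by norm_num) (by norm_num) (by norm_num))
    (exp_neg_leJ (r := 0.808) 4 (by norm_num) (by norm_num) (by norm_num) (by norm_num))
    (exp_neg_leJ (r := 0.014) 11 (by norm_num) (by norm_num) (by norm_num) (by norm_num))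
    (exp_neg_leJ (r := 0.99) 14 (by norm_num) (by norm_num) (by norm_num) (by norm_num))
    (exp_neg_leJ (r := 0.766) 8 (by norm_num) (by norm_num) (by norm_num) (by norm_num))
    (exp_neg_leJ (r := 0.99) 14 (by norm_num) (by norm_num) (by norm_num) (by norm_num))
    (exp_neg_leJ (r := 0.99) 14 (by norm_num) (by norm_num) (by norm_num) (by norm_num))
    (exp_neg_leJ (r := 0.99) 14 (by norm_num) (by norm_num) (by norm_num) (by norm_num))
    (by norm_num)) (by norm_num) hN hβ.le (by norm_num)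

private theorem JB6_k0b_c7 {κ t β : ℝ} (h : DomR κ t) (hβ : 0 < β) (hk1 : 1.11 ≤ κ) (hk2 : κ ≤ 1.25)
    (ht1 : -0.6 ≤ t + κ) (ht2 : t + κ ≤ -0.4) (hR0 : β * 10 ≤ κ) (hR : β * (4.95 * (1 + κ ^ 2)) ≤ κ) :
    ‖HH β (sg κ t) - 1‖ ≤ 0.11 := by
  have hN : β * 9.953 ≤ 1 := bNC' hβ hk1 (by norm_num) (by norm_num) hR (by norm_num)
  have hy1 : -0.323 ≤ sy κ t := syL_ge h 1.11 1.25 0.6 0.323 0.72397 0.72398 0.1969 0.18707 0.21068 hk1 hk2 (by linarith) (by norm_num) (by norm_num) (by norm_num)
    (expm_ge (by norm_num) (by norm_num) (by norm_num) (by norm_num)) (expm_le (by norm_num) (by norm_num) (by norm_num)) (by norm_num)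
    (by norm_num) (by norm_num) (by norm_num) (by norm_num) (by norm_num) (by norm_num)
  have hy2 : sy κ t ≤ -0.202 := syL_le h 1.11 1.25 0.4 0.202 0.81709 0.8171 0.13204 0.1487 hk1 hk2 (by linarith) (by norm_num) (by norm_num) (by norm_num)
    (expm_ge (by norm_num) (by norm_num) (by norm_num) (by norm_num)) (expm_le (by norm_num) (by norm_num) (by norm_num)) (by norm_num)
    (by norm_num) (by norm_num) (by norm_num) (by norm_num) (by norm_num) (by norm_num)
  rcases le_total (sy κ t) (-0.313) with f0 | g0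
  · have hx1 : 1.4831 ≤ sx κ t := sx_lo h 1.11 (-0.313) 0.323 1.36752 1.4831 hk1 (by norm_num) f0 (abs_le.2 ⟨by linarith, by linarith⟩) (by rw [neg_neg]; exact expn_ge (by norm_num) (by norm_num)) (by norm_num) (by norm_num)
    have hx2 : sx κ t ≤ 1.698 := sx_hi h 1.25 (-0.323) 0.313 1.38127 1.698 hk2 hy1 (by norm_num) (by rw [abs_of_nonpos (by linarith)]; linarith) (by rw [neg_neg]; exact expn_le (by norm_num) (by norm_num) (by norm_num)) (by norm_num) (by norm_num)
    exact JB6_k0b_b7_0 hβ hN hx1 hx2 (by linarith) (by linarith)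
  rcases le_total (sy κ t) (-0.298) with f1 | g1
  · have hx1 : 1.4622 ≤ sx κ t := sx_lo h 1.11 (-0.298) 0.313 1.34716 1.4622 hk1 (by norm_num) f1 (abs_le.2 ⟨by linarith, by linarith⟩) (by rw [neg_neg]; exact expn_ge (by norm_num) (by norm_num)) (by norm_num) (by norm_num)
    have hx2 : sx κ t ≤ 1.6833 := sx_hi h 1.25 (-0.313) 0.298 1.36753 1.6833 hk2 g0 (by norm_num) (by rw [abs_of_nonpos (by linarith)]; linarith) (by rw [neg_neg]; exact expn_le (by norm_num) (by norm_num) (by norm_num)) (by norm_num) (by norm_num)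
    exact JB6_k0b_b7_1 hβ hN hx1 hx2 (by linarith) (by linarith)
  rcases le_total (sy κ t) (-0.273) with f2 | g2
  · have hx1 : 1.4276 ≤ sx κ t := sx_lo h 1.11 (-0.273) 0.298 1.3139 1.4276 hk1 (by norm_num) f2 (abs_le.2 ⟨by linarith, by linarith⟩) (by rw [neg_neg]; exact expn_ge (by norm_num) (by norm_num)) (by norm_num) (by norm_num)
    have hx2 : sx κ t ≤ 1.6617 := sx_hi h 1.25 (-0.298) 0.273 1.34717 1.6617 hk2 g1 (by norm_num) (by rw [abs_of_nonpos (by linarith)]; linarith) (by rw [neg_neg]; exact expn_le (by norm_num) (by norm_num) (by norm_num)) (by norm_num) (by norm_num)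
    exact JB6_k0b_b7_2 hβ hN hx1 hx2 (by linarith) (by linarith)
  rcases le_total (sy κ t) (-0.228) with f3 | g3
  · have hx1 : 1.3672 ≤ sx κ t := sx_lo h 1.11 (-0.228) 0.273 1.25608 1.3672 hk1 (by norm_num) f3 (abs_le.2 ⟨by linarith, by linarith⟩) (by rw [neg_neg]; exact expn_ge (by norm_num) (by norm_num)) (by norm_num) (by norm_num)
    have hx2 : sx κ t ≤ 1.6265 := sx_hi h 1.25 (-0.273) 0.228 1.31391 1.6265 hk2 g2 (by norm_num) (by rw [abs_of_nonpos (by linarith)]; linarith) (by rw [neg_neg]; exact expn_le (by norm_num) (by norm_num) (by norm_num)) (by norm_num) (by norm_num)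
    exact JB6_k0b_b7_3 hβ hN hx1 hx2 (by linarith) (by linarith)
  have hx1 : 1.3391 ≤ sx κ t := sx_lo h 1.11 (-0.202) 0.228 1.22384 1.3391 hk1 (by norm_num) hy2 (abs_le.2 ⟨by linarith, by linarith⟩) (by rw [neg_neg]; exact expn_ge (by norm_num) (by norm_num)) (by norm_num) (by norm_num)
  have hx2 : sx κ t ≤ 1.5571 := sx_hi h 1.25 (-0.228) 0.202 1.25609 1.5571 hk2 g3 (by norm_num) (by rw [abs_of_nonpos (by linarith)]; linarith) (by rw [neg_neg]; exact expn_le (by norm_num) (by norm_num) (by norm_num)) (by norm_num) (by norm_num)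
  exact JB6_k0b_b7_4 hβ hN hx1 hx2 (by linarith) (by linarith)

private theorem JB6_k0b_b8_0 {β x y : ℝ} (hβ : 0 < β) (hN : β * 10.147 ≤ 1) (hx1 : 1.6102 ≤ x) (hx2 : x ≤ 1.8681)
    (hy1 : -0.306 ≤ y) (hy2 : y ≤ -0.271) : ‖HH β (x + y * I) - 1‖ ≤ 0.11 := by
  refine le_epsJ (C := 1.1005) (N0 := 10.147) (J_boxp 1.6102 1.8681 0.306 0 (-0.271) 1.6265 1.893 2.0054 0.6827 0.565 3.1855 10.147 1.1639 5.576 1.713 0.4191 0.8132 0.4977 1.0764 2.0569 0.9699 2.7295 3.9593 2.7867 0.0002611 0.00641 0.00001811 0.0000003101 0.00005332 0.0000003101 0.0000003101 0.0000003101 1.1005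
    hβ hN hx1 hx2 hy1 hy2 (by norm_num) (by norm_num) (by linarith) (by norm_num) (by norm_num) (by norm_num) (by norm_num) (by norm_num) (by norm_num) (by norm_num) (by norm_num) (by norm_num) (by norm_num) (by norm_num) (by norm_num) (by norm_num) (by norm_num) (by norm_num) (by norm_num) (by norm_num) (by norm_num) (by norm_num) (by norm_num) (by norm_num)
    (cube_sqrt_geJ (s := 0.7823) (by norm_num) (by norm_num) (by norm_num) (by norm_num))
    (cube_sqrt_geJ (s := 0.926) (by norm_num) (by norm_num) (by norm_num) (by norm_num))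
    (by norm_num) (by norm_num) (by norm_num) (by norm_num) (by norm_num) (by norm_num) (by norm_num) (by norm_num) (by norm_num) (by norm_num) (by norm_num) (by norm_num) (by norm_num) (by norm_num) (by norm_num) (by norm_num) (by norm_num) (by norm_num)
    (exp_neg_leJ (r := 0.251) 8 (by norm_num) (by norm_num) (by norm_num) (by norm_num))
    (exp_neg_leJ (r := 0.05) 5 (by norm_num) (by norm_num) (by norm_num) (by norm_num))
    (exp_neg_leJ (r := 0.922) 10 (by norm_num) (by norm_num) (by norm_num) (by norm_num))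
    (exp_neg_leJ (r := 0.99) 14 (by norm_num) (by norm_num) (by norm_num) (by norm_num))
    (exp_neg_leJ (r := 0.841) 9 (by norm_num) (by norm_num) (by norm_num) (by norm_num))
    (exp_neg_leJ (r := 0.99) 14 (by norm_num) (by norm_num) (by norm_num) (by norm_num))
    (exp_neg_leJ (r := 0.99) 14 (by norm_num) (by norm_num) (by norm_num) (by norm_num))
    (exp_neg_leJ (r := 0.99) 14 (by norm_num) (by norm_num) (by norm_num) (by norm_num))
    (by norm_num)) (by norm_num) hN hβ.le (by norm_num)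

private theorem JB6_k0b_b8_1 {β x y : ℝ} (hβ : 0 < β) (hN : β * 10.147 ≤ 1) (hx1 : 1.5196 ≤ x) (hx2 : x ≤ 1.8105)
    (hy1 : -0.271 ≤ y) (hy2 : y ≤ -0.211) : ‖HH β (x + y * I) - 1‖ ≤ 0.11 := by
  refine le_epsJ (C := 1.1073) (N0 := 10.147) (J_boxp 1.5196 1.8105 0.271 0 (-0.211) 1.5876 1.8307 1.975 0.7026 0.5607 3.1855 10.147 1.1532 5.464 1.704 0.4736 0.7937 0.4886 1.1006 2.2013 0.945 2.604 3.8732 2.7749 0.0003182 0.007056 0.00001414 0.0000003101 0.00006858 0.0000003101 0.0000003101 0.0000003101 1.1073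
    hβ hN hx1 hx2 hy1 hy2 (by norm_num) (by norm_num) (by linarith) (by norm_num) (by norm_num) (by norm_num) (by norm_num) (by norm_num) (by norm_num) (by norm_num) (by norm_num) (by norm_num) (by norm_num) (by norm_num) (by norm_num) (by norm_num) (by norm_num) (by norm_num) (by norm_num) (by norm_num) (by norm_num) (by norm_num) (by norm_num) (by norm_num)
    (cube_sqrt_geJ (s := 0.7846) (by norm_num) (by norm_num) (by norm_num) (by norm_num))
    (cube_sqrt_geJ (s := 0.9267) (by norm_num) (by norm_num) (by norm_num) (by norm_num))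
    (by norm_num) (by norm_num) (by norm_num) (by norm_num) (by norm_num) (by norm_num) (by norm_num) (by norm_num) (by norm_num) (by norm_num) (by norm_num) (by norm_num) (by norm_num) (by norm_num) (by norm_num) (by norm_num) (by norm_num) (by norm_num)
    (exp_neg_leJ (r := 0.053) 8 (by norm_num) (by norm_num) (by norm_num) (by norm_num))
    (exp_neg_leJ (r := 0.957) 4 (by norm_num) (by norm_num) (by norm_num) (by norm_num))
    (exp_neg_leJ (r := 0.167) 11 (by norm_num) (by norm_num) (by norm_num) (by norm_num))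
    (exp_neg_leJ (r := 0.99) 14 (by norm_num) (by norm_num) (by norm_num) (by norm_num))
    (exp_neg_leJ (r := 0.588) 9 (by norm_num) (by norm_num) (by norm_num) (by norm_num))
    (exp_neg_leJ (r := 0.99) 14 (by norm_num) (by norm_num) (by norm_num) (by norm_num))
    (exp_neg_leJ (r := 0.99) 14 (by norm_num) (by norm_num) (by norm_num) (by norm_num))
    (exp_neg_leJ (r := 0.99) 14 (by norm_num) (by norm_num) (by norm_num) (by norm_num))
    (by norm_num)) (by norm_num) hN hβ.le (by norm_num)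

private theorem JB6_k0b_b8_2 {β x y : ℝ} (hβ : 0 < β) (hN : β * 10.147 ≤ 1) (hx1 : 1.5013 ≤ x) (hx2 : x ≤ 1.7057)
    (hy1 : -0.211 ≤ y) (hy2 : y ≤ -0.193) : ‖HH β (x + y * I) - 1‖ ≤ 0.11 := by
  refine le_epsJ (C := 0.8136) (N0 := 10.147) (J_boxp 1.5013 1.7057 0.211 0 (-0.193) 1.6173 1.7188 1.887 0.6679 0.5481 3.1855 10.147 1.0628 4.623 1.63 0.5693 0.8086 0.5221 1.1891 2.4521 0.9689 2.5787 3.9997 3.0424 0.0002736 0.005007 0.000005758 0.0000003101 0.00005385 0.0000003101 0.0000003101 0.0000003101 0.8136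
    hβ hN hx1 hx2 hy1 hy2 (by norm_num) (by norm_num) (by linarith) (by norm_num) (by norm_num) (by norm_num) (by norm_num) (by norm_num) (by norm_num) (by norm_num) (by norm_num) (by norm_num) (by norm_num) (by norm_num) (by norm_num) (by norm_num) (by norm_num) (by norm_num) (by norm_num) (by norm_num) (by norm_num) (by norm_num) (by norm_num) (by norm_num)
    (cube_sqrt_geJ (s := 0.8035) (by norm_num) (by norm_num) (by norm_num) (by norm_num))
    (cube_sqrt_geJ (s := 0.9326) (by norm_num) (by norm_num) (by norm_num) (by norm_num))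
    (by norm_num) (by norm_num) (by norm_num) (by norm_num) (by norm_num) (by norm_num) (by norm_num) (by norm_num) (by norm_num) (by norm_num) (by norm_num) (by norm_num) (by norm_num) (by norm_num) (by norm_num) (by norm_num) (by norm_num) (by norm_num)
    (exp_neg_leJ (r := 0.204) 8 (by norm_num) (by norm_num) (by norm_num) (by norm_num))
    (exp_neg_leJ (r := 0.297) 5 (by norm_num) (by norm_num) (by norm_num) (by norm_num))
    (exp_neg_leJ (r := 0.065) 12 (by norm_num) (by norm_num) (by norm_num) (by norm_num))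
    (exp_neg_leJ (r := 0.99) 14 (by norm_num) (by norm_num) (by norm_num) (by norm_num))
    (exp_neg_leJ (r := 0.831) 9 (by norm_num) (by norm_num) (by norm_num) (by norm_num))
    (exp_neg_leJ (r := 0.99) 14 (by norm_num) (by norm_num) (by norm_num) (by norm_num))
    (exp_neg_leJ (r := 0.99) 14 (by norm_num) (by norm_num) (by norm_num) (by norm_num))
    (exp_neg_leJ (r := 0.99) 14 (by norm_num) (by norm_num) (by norm_num) (by norm_num))
    (by norm_num)) (by norm_num) hN hβ.le (by norm_num)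

private theorem JB6_k0b_c8 {κ t β : ℝ} (h : DomR κ t) (hβ : 0 < β) (hk1 : 1.25 ≤ κ) (hk2 : κ ≤ 1.39)
    (ht1 : -0.6 ≤ t + κ) (ht2 : t + κ ≤ -0.4) (hR0 : β * 10 ≤ κ) (hR : β * (4.95 * (1 + κ ^ 2)) ≤ κ) :
    ‖HH β (sg κ t) - 1‖ ≤ 0.11 := by
  have hN : β * 10.147 ≤ 1 := bNC' hβ hk1 (by norm_num) (by norm_num) hR (by norm_num)
  have hy1 : -0.306 ≤ sy κ t := syL_ge h 1.25 1.39 0.6 0.306 0.73638 0.73639 0.1681 0.1621 0.18027 hk1 hk2 (by linarith) (by norm_num) (by norm_num) (by norm_num)
    (expm_ge (by norm_num) (by norm_num) (by norm_num) (by norm_num)) (expm_le (by norm_num) (by norm_num) (by norm_num)) (by norm_num)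
    (by norm_num) (by norm_num) (by norm_num) (by norm_num) (by norm_num) (by norm_num)
  have hy2 : sy κ t ≤ -0.193 := syL_le h 1.25 1.39 0.4 0.193 0.82448 0.82449 0.11447 0.12731 hk1 hk2 (by linarith) (by norm_num) (by norm_num) (by norm_num)
    (expm_ge (by norm_num) (by norm_num) (by norm_num) (by norm_num)) (expm_le (by norm_num) (by norm_num) (by norm_num)) (by norm_num)
    (by norm_num) (by norm_num) (by norm_num) (by norm_num) (by norm_num) (by norm_num)
  rcases le_total (sy κ t) (-0.271) with f0 | g0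
  · have hx1 : 1.6102 ≤ sx κ t := sx_lo h 1.25 (-0.271) 0.306 1.31127 1.6102 hk1 (by norm_num) f0 (abs_le.2 ⟨by linarith, by linarith⟩) (by rw [neg_neg]; exact expn_ge (by norm_num) (by norm_num)) (by norm_num) (by norm_num)
    have hx2 : sx κ t ≤ 1.8681 := sx_hi h 1.39 (-0.306) 0.271 1.35799 1.8681 hk2 hy1 (by norm_num) (by rw [abs_of_nonpos (by linarith)]; linarith) (by rw [neg_neg]; exact expn_le (by norm_num) (by norm_num) (by norm_num)) (by norm_num) (by norm_num)
    exact JB6_k0b_b8_0 hβ hN hx1 hx2 (by linarith) (by linarith)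
  rcases le_total (sy κ t) (-0.211) with f1 | g1
  · have hx1 : 1.5196 ≤ sx κ t := sx_lo h 1.25 (-0.211) 0.271 1.23491 1.5196 hk1 (by norm_num) f1 (abs_le.2 ⟨by linarith, by linarith⟩) (by rw [neg_neg]; exact expn_ge (by norm_num) (by norm_num)) (by norm_num) (by norm_num)
    have hx2 : sx κ t ≤ 1.8105 := sx_hi h 1.39 (-0.271) 0.211 1.31128 1.8105 hk2 g0 (by norm_num) (by rw [abs_of_nonpos (by linarith)]; linarith) (by rw [neg_neg]; exact expn_le (by norm_num) (by norm_num) (by norm_num)) (by norm_num) (by norm_num)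
    exact JB6_k0b_b8_1 hβ hN hx1 hx2 (by linarith) (by linarith)
  have hx1 : 1.5013 ≤ sx κ t := sx_lo h 1.25 (-0.193) 0.211 1.21288 1.5013 hk1 (by norm_num) hy2 (abs_le.2 ⟨by linarith, by linarith⟩) (by rw [neg_neg]; exact expn_ge (by norm_num) (by norm_num)) (by norm_num) (by norm_num)
  have hx2 : sx κ t ≤ 1.7057 := sx_hi h 1.39 (-0.211) 0.193 1.23492 1.7057 hk2 g1 (by norm_num) (by rw [abs_of_nonpos (by linarith)]; linarith) (by rw [neg_neg]; exact expn_le (by norm_num) (by norm_num) (by norm_num)) (by norm_num) (by norm_num)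
  exact JB6_k0b_b8_2 hβ hN hx1 hx2 (by linarith) (by linarith)

theorem JB6_k0b {κ t β : ℝ} (h : DomR κ t) (hβ : 0 < β) (hk1 : 0.3 ≤ κ) (hk2 : κ ≤ 1.39)
    (ht1 : -0.6 ≤ t + κ) (ht2 : t + κ ≤ -0.4) (hR0 : β * 10 ≤ κ) (hR : β * (4.95 * (1 + κ ^ 2)) ≤ κ) :
    ‖HH β (sg κ t) - 1‖ ≤ 0.11 := by
  rcases le_total κ 0.49 with f0 | g0
  · exact JB6_k0b_c0 h hβ hk1 f0 ht1 ht2 hR0 hR
  rcases le_total κ 0.65 with f1 | g1
  · exact JB6_k0b_c1 h hβ g0 f1 ht1 ht2 hR0 hR
  rcases le_total κ 0.78 with f2 | g2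
  · exact JB6_k0b_c2 h hβ g1 f2 ht1 ht2 hR0 hR
  rcases le_total κ 0.89 with f3 | g3
  · exact JB6_k0b_c3 h hβ g2 f3 ht1 ht2 hR0 hR
  rcases le_total κ 0.99 with f4 | g4
  · exact JB6_k0b_c4 h hβ g3 f4 ht1 ht2 hR0 hR
  rcases le_total κ 1 with f5 | g5
  · exact JB6_k0b_c5 h hβ g4 f5 ht1 ht2 hR0 hR
  rcases le_total κ 1.11 with f6 | g6
  · exact JB6_k0b_c6 h hβ g5 f6 ht1 ht2 hR0 hR
  rcases le_total κ 1.25 with f7 | g7
  · exact JB6_k0b_c7 h hβ g6 f7 ht1 ht2 hR0 hR
  exact JB6_k0b_c8 h hβ g7 hk2 ht1 ht2 hR0 hR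

end Sok
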