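import Pool.Agent.Lib.MP_816dec_an.JBG2

/-!
MP_816dec_an (A3, row R1): tables b = 6, real points.
-/

set_option autoImplicit false
set_option maxHeartbeats 4000000

open Complex Set

namespace Sok

private theorem JB6_k0c_b0_0 {β x y : ℝ} (hβ : 0 < β) (hN : β * 24.999 ≤ 1) (hx1 : 0.1511 ≤ x) (hx2 : x ≤ 0.454)
    (hy1 : -0.427 ≤ y) (hy2 : y ≤ -0.412) : ‖HH β (x + y * I) - 1‖ ≤ 0.2 := by
  refine le_epsJ (C := 4.9182) (N0 := 24.999) (J_boxp 0.1511 0.454 0.427 0 (-0.412) 0.5132 0.6233 0.7429 2.3445 0.3439 4.9999 24.999 1.2146 6.151 1.757 0.8513 0.2565 0.1527 0.386 2.4557 0.1951 0.7092 0.7121 3.3199 0.001642 0.02203 0.00006453 0.0000003101 0.007636 0.0000003101 0.0000003101 0.0000003101 4.9182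
    hβ hN hx1 hx2 hy1 hy2 (by norm_num) (by norm_num) (by linarith) (by norm_num) (by norm_num) (by norm_num) (by norm_num) (by norm_num) (by norm_num) (by norm_num) (by norm_num) (by norm_num) (by norm_num) (by norm_num) (by norm_num) (by norm_num) (by norm_num) (by norm_num) (by norm_num) (by norm_num) (by norm_num) (by norm_num) (by norm_num) (by norm_num)
    (cube_sqrt_geJ (s := 0.7714) (by norm_num) (by norm_num) (by norm_num) (by norm_num))
    (cube_sqrt_geJ (s := 0.9226) (by norm_num) (by norm_num) (by norm_num) (by norm_num))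
    (by norm_num) (by norm_num) (by norm_num) (by norm_num) (by norm_num) (by norm_num) (by norm_num) (by norm_num) (by norm_num) (by norm_num) (by norm_num) (by norm_num) (by norm_num) (by norm_num) (by norm_num) (by norm_num) (by norm_num) (by norm_num)
    (exp_neg_leJ (r := 0.412) 6 (by norm_num) (by norm_num) (by norm_num) (by norm_num))
    (exp_neg_leJ (r := 0.817) 3 (by norm_num) (by norm_num) (by norm_num) (by norm_num))
    (exp_neg_leJ (r := 0.649) 9 (by norm_num) (by norm_num) (by norm_num) (by norm_num))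
    (exp_neg_leJ (r := 0.99) 14 (by norm_num) (by norm_num) (by norm_num) (by norm_num))
    (exp_neg_leJ (r := 0.877) 4 (by norm_num) (by norm_num) (by norm_num) (by norm_num))
    (exp_neg_leJ (r := 0.99) 14 (by norm_num) (by norm_num) (by norm_num) (by norm_num))
    (exp_neg_leJ (r := 0.99) 14 (by norm_num) (by norm_num) (by norm_num) (by norm_num))
    (exp_neg_leJ (r := 0.99) 14 (by norm_num) (by norm_num) (by norm_num) (by norm_num))
    (by norm_num)) (by norm_num) hN hβ.le (by norm_num)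

private theorem JB6_k0c_b0_1 {β x y : ℝ} (hβ : 0 < β) (hN : β * 24.999 ≤ 1) (hx1 : 0.1467 ≤ x) (hx2 : x ≤ 0.4719)
    (hy1 : -0.412 ≤ y) (hy2 : y ≤ -0.377) : ‖HH β (x + y * I) - 1‖ ≤ 0.2 := by
  refine le_epsJ (C := 4.7404) (N0 := 24.999) (J_boxp 0.1467 0.4719 0.412 0 (-0.377) 0.5208 0.6265 0.7816 2.3523 0.3527 4.9999 24.999 1.203 6.013 1.747 0.8583 0.2603 0.1559 0.4081 2.4964 0.2012 0.7031 0.7441 3.3024 0.001494 0.02035 0.0000371 0.0000003101 0.006546 0.0000003101 0.0000003101 0.0000003101 4.7404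
    hβ hN hx1 hx2 hy1 hy2 (by norm_num) (by norm_num) (by linarith) (by norm_num) (by norm_num) (by norm_num) (by norm_num) (by norm_num) (by norm_num) (by norm_num) (by norm_num) (by norm_num) (by norm_num) (by norm_num) (by norm_num) (by norm_num) (by norm_num) (by norm_num) (by norm_num) (by norm_num) (by norm_num) (by norm_num) (by norm_num) (by norm_num)
    (cube_sqrt_geJ (s := 0.7739) (by norm_num) (by norm_num) (by norm_num) (by norm_num))
    (cube_sqrt_geJ (s := 0.9234) (by norm_num) (by norm_num) (by norm_num) (by norm_num))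
    (by norm_num) (by norm_num) (by norm_num) (by norm_num) (by norm_num) (by norm_num) (by norm_num) (by norm_num) (by norm_num) (by norm_num) (by norm_num) (by norm_num) (by norm_num) (by norm_num) (by norm_num) (by norm_num) (by norm_num) (by norm_num)
    (exp_neg_leJ (r := 0.507) 6 (by norm_num) (by norm_num) (by norm_num) (by norm_num))
    (exp_neg_leJ (r := 0.897) 3 (by norm_num) (by norm_num) (by norm_num) (by norm_num))
    (exp_neg_leJ (r := 0.202) 10 (by norm_num) (by norm_num) (by norm_num) (by norm_num))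
    (exp_neg_leJ (r := 0.99) 14 (by norm_num) (by norm_num) (by norm_num) (by norm_num))
    (exp_neg_leJ (r := 0.029) 5 (by norm_num) (by norm_num) (by norm_num) (by norm_num))
    (exp_neg_leJ (r := 0.99) 14 (by norm_num) (by norm_num) (by norm_num) (by norm_num))
    (exp_neg_leJ (r := 0.99) 14 (by norm_num) (by norm_num) (by norm_num) (by norm_num))
    (exp_neg_leJ (r := 0.99) 14 (by norm_num) (by norm_num) (by norm_num) (by norm_num))
    (by norm_num)) (by norm_num) hN hβ.le (by norm_num)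

private theorem JB6_k0c_b0_2 {β x y : ℝ} (hβ : 0 < β) (hN : β * 24.999 ≤ 1) (hx1 : 0.1203 ≤ x) (hx2 : x ≤ 0.5132)
    (hy1 : -0.377 ≤ y) (hy2 : y ≤ -0.277) : ‖HH β (x + y * I) - 1‖ ≤ 0.2 := by
  refine le_epsJ (C := 4.9856) (N0 := 24.999) (J_boxp 0.1203 0.5132 0.377 0 (-0.277) 0.527 0.6368 0.8867 2.4614 0.3757 4.9999 24.999 1.2084 6.077 1.752 0.8747 0.2634 0.1573 0.4543 2.5907 0.2075 0.6665 0.7865 3.2216 0.001383 0.01966 0.00001169 0.0000003101 0.005589 0.0000003101 0.0000003101 0.0000003101 4.9856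
    hβ hN hx1 hx2 hy1 hy2 (by norm_num) (by norm_num) (by linarith) (by norm_num) (by norm_num) (by norm_num) (by norm_num) (by norm_num) (by norm_num) (by norm_num) (by norm_num) (by norm_num) (by norm_num) (by norm_num) (by norm_num) (by norm_num) (by norm_num) (by norm_num) (by norm_num) (by norm_num) (by norm_num) (by norm_num) (by norm_num) (by norm_num)
    (cube_sqrt_geJ (s := 0.7727) (by norm_num) (by norm_num) (by norm_num) (by norm_num))
    (cube_sqrt_geJ (s := 0.923) (by norm_num) (by norm_num) (by norm_num) (by norm_num))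
    (by norm_num) (by norm_num) (by norm_num) (by norm_num) (by norm_num) (by norm_num) (by norm_num) (by norm_num) (by norm_num) (by norm_num) (by norm_num) (by norm_num) (by norm_num) (by norm_num) (by norm_num) (by norm_num) (by norm_num) (by norm_num)
    (exp_neg_leJ (r := 0.584) 6 (by norm_num) (by norm_num) (by norm_num) (by norm_num))
    (exp_neg_leJ (r := 0.932) 3 (by norm_num) (by norm_num) (by norm_num) (by norm_num))
    (exp_neg_leJ (r := 0.357) 11 (by norm_num) (by norm_num) (by norm_num) (by norm_num))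
    (exp_neg_leJ (r := 0.99) 14 (by norm_num) (by norm_num) (by norm_num) (by norm_num))
    (exp_neg_leJ (r := 0.187) 5 (by norm_num) (by norm_num) (by norm_num) (by norm_num))
    (exp_neg_leJ (r := 0.99) 14 (by norm_num) (by norm_num) (by norm_num) (by norm_num))
    (exp_neg_leJ (r := 0.99) 14 (by norm_num) (by norm_num) (by norm_num) (by norm_num))
    (exp_neg_leJ (r := 0.99) 14 (by norm_num) (by norm_num) (by norm_num) (by norm_num))
    (by norm_num)) (by norm_num) hN hβ.le (by norm_num)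

private theorem JB6_k0c_b0_3 {β x y : ℝ} (hβ : 0 < β) (hN : β * 24.999 ≤ 1) (hx1 : 0.2376 ≤ x) (hx2 : x ≤ 0.49)
    (hy1 : -0.277 ≤ y) (hy2 : y ≤ -0.196) : ‖HH β (x + y * I) - 1‖ ≤ 0.2 := by
  refine le_epsJ (C := 1.0728) (N0 := 24.999) (J_boxp 0.2376 0.49 0.277 0 (-0.196) 0.6806 0.5629 0.9416 1.7283 0.3872 4.9999 24.999 0.8271 3.093 1.454 0.9759 0.3402 0.2464 0.6523 2.9317 0.3191 0.8289 1.2929 3.6571 0.0002027 0.002115 0.0000003101 0.0000003101 0.0003445 0.0000003101 0.0000003101 0.0000003101 1.0728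
    hβ hN hx1 hx2 hy1 hy2 (by norm_num) (by norm_num) (by linarith) (by norm_num) (by norm_num) (by norm_num) (by norm_num) (by norm_num) (by norm_num) (by norm_num) (by norm_num) (by norm_num) (by norm_num) (by norm_num) (by norm_num) (by norm_num) (by norm_num) (by norm_num) (by norm_num) (by norm_num) (by norm_num) (by norm_num) (by norm_num) (by norm_num)
    (cube_sqrt_geJ (s := 0.851) (by norm_num) (by norm_num) (by norm_num) (by norm_num))
    (cube_sqrt_geJ (s := 0.948) (by norm_num) (by norm_num) (by norm_num) (by norm_num))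
    (by norm_num) (by norm_num) (by norm_num) (by norm_num) (by norm_num) (by norm_num) (by norm_num) (by norm_num) (by norm_num) (by norm_num) (by norm_num) (by norm_num) (by norm_num) (by norm_num) (by norm_num) (by norm_num) (by norm_num) (by norm_num)
    (exp_neg_leJ (r := 0.504) 8 (by norm_num) (by norm_num) (by norm_num) (by norm_num))
    (exp_neg_leJ (r := 0.159) 6 (by norm_num) (by norm_num) (by norm_num) (by norm_num))
    (exp_neg_leJ (r := 0.99) 14 (by norm_num) (by norm_num) (by norm_num) (by norm_num))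
    (exp_neg_leJ (r := 0.99) 14 (by norm_num) (by norm_num) (by norm_num) (by norm_num))
    (exp_neg_leJ (r := 0.977) 7 (by norm_num) (by norm_num) (by norm_num) (by norm_num))
    (exp_neg_leJ (r := 0.99) 14 (by norm_num) (by norm_num) (by norm_num) (by norm_num))
    (exp_neg_leJ (r := 0.99) 14 (by norm_num) (by norm_num) (by norm_num) (by norm_num))
    (exp_neg_leJ (r := 0.99) 14 (by norm_num) (by norm_num) (by norm_num) (by norm_num))
    (by norm_num)) (by norm_num) hN hβ.le (by norm_num)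

private theorem JB6_k0c_c0 {κ t β : ℝ} (h : DomR κ t) (hβ : 0 < β) (hk1 : 0.3 ≤ κ) (hk2 : κ ≤ 0.4)
    (ht1 : -0.8 ≤ t + κ) (ht2 : t + κ ≤ -0.58) (hR0 : β * 10 ≤ κ) (hR : β * (4.95 * (1 + κ ^ 2)) ≤ κ) :
    ‖HH β (sg κ t) - 1‖ ≤ 0.2 := by
  have hN : β * 24.999 ≤ 1 := bNR hβ h.1 hk2 hR0 (by norm_num)
  have hy1 : -0.427 ≤ sy κ t := syL_ang2 h 0.3 0.4 0.8 0.77 0.7179 0.6962 0.427 1.53265 0.65246 hk1 hk2 (by linarith) (by norm_num) (by norm_num) (by norm_num) (by norm_num)
    (cos_ge_num (by norm_num) (by norm_num)) (sin_le_num (by norm_num) (by norm_num))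
    (expn_ge (by norm_num) (by norm_num)) (expm_ge (by norm_num) (by norm_num) (by norm_num) (by norm_num)) (by norm_num) (by norm_num) (by norm_num)
    (by norm_num) (by norm_num) (by norm_num)
  have hy2 : sy κ t ≤ -0.196 := syL_le h 0.3 0.4 0.58 0.196 0.82201 0.82202 0.40278 0.53706 hk1 hk2 (by linarith) (by norm_num) (by norm_num) (by norm_num)
    (expm_ge (by norm_num) (by norm_num) (by norm_num) (by norm_num)) (expm_le (by norm_num) (by norm_num) (by norm_num)) (by norm_num)
    (by norm_num) (by norm_num) (by norm_num) (by norm_num) (by norm_num) (by norm_num)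
  rcases le_total (sy κ t) (-0.412) with f0 | g0
  · have hx1 : 0.1511 ≤ sx κ t := sx_lo h 0.3 (-0.412) 0.427 1.50983 0.1511 hk1 (by norm_num) f0 (abs_le.2 ⟨by linarith, by linarith⟩) (by rw [neg_neg]; exact expn_ge (by norm_num) (by norm_num)) (by norm_num) (by norm_num)
    have hx2 : sx κ t ≤ 0.454 := sx_hi h 0.4 (-0.427) 0.412 1.53266 0.454 hk2 hy1 (by norm_num) (by rw [abs_of_nonpos (by linarith)]; linarith) (by rw [neg_neg]; exact expn_le (by norm_num) (by norm_num) (by norm_num)) (by norm_num) (by norm_num)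
    exact JB6_k0c_b0_0 hβ hN hx1 hx2 (by linarith) (by linarith)
  rcases le_total (sy κ t) (-0.377) with f1 | g1
  · have hx1 : 0.1467 ≤ sx κ t := sx_lo h 0.3 (-0.377) 0.412 1.4579 0.1467 hk1 (by norm_num) f1 (abs_le.2 ⟨by linarith, by linarith⟩) (by rw [neg_neg]; exact expn_ge (by norm_num) (by norm_num)) (by norm_num) (by norm_num)
    have hx2 : sx κ t ≤ 0.4719 := sx_hi h 0.4 (-0.412) 0.377 1.50984 0.4719 hk2 g0 (by norm_num) (by rw [abs_of_nonpos (by linarith)]; linarith) (by rw [neg_neg]; exact expn_le (by norm_num) (by norm_num) (by norm_num)) (by norm_num) (by norm_num)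
    exact JB6_k0c_b0_1 hβ hN hx1 hx2 (by linarith) (by linarith)
  rcases le_total (sy κ t) (-0.277) with f2 | g2
  · have hx1 : 0.1203 ≤ sx κ t := sx_lo h 0.3 (-0.277) 0.377 1.31916 0.1203 hk1 (by norm_num) f2 (abs_le.2 ⟨by linarith, by linarith⟩) (by rw [neg_neg]; exact expn_ge (by norm_num) (by norm_num)) (by norm_num) (by norm_num)
    have hx2 : sx κ t ≤ 0.5132 := sx_hi h 0.4 (-0.377) 0.277 1.45791 0.5132 hk2 g1 (by norm_num) (by rw [abs_of_nonpos (by linarith)]; linarith) (by rw [neg_neg]; exact expn_le (by norm_num) (by norm_num) (by norm_num)) (by norm_num) (by norm_num)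
    exact JB6_k0c_b0_2 hβ hN hx1 hx2 (by linarith) (by linarith)
  have hx1 : 0.2376 ≤ sx κ t := sx_lo h 0.3 (-0.196) 0.277 1.21652 0.2376 hk1 (by norm_num) hy2 (abs_le.2 ⟨by linarith, by linarith⟩) (by rw [neg_neg]; exact expn_ge (by norm_num) (by norm_num)) (by norm_num) (by norm_num)
  have hx2 : sx κ t ≤ 0.49 := sx_hi h 0.4 (-0.277) 0.196 1.31917 0.49 hk2 g2 (by norm_num) (by rw [abs_of_nonpos (by linarith)]; linarith) (by rw [neg_neg]; exact expn_le (by norm_num) (by norm_num) (by norm_num)) (by norm_num) (by norm_num)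
  exact JB6_k0c_b0_3 hβ hN hx1 hx2 (by linarith) (by linarith)

private theorem JB6_k0c_b1_0 {β x y : ℝ} (hβ : 0 < β) (hN : β * 20.408 ≤ 1) (hx1 : 0.4195 ≤ x) (hx2 : x ≤ 0.6429)
    (hy1 : -0.502 ≤ y) (hy2 : y ≤ -0.492) : ‖HH β (x + y * I) - 1‖ ≤ 0.2 := by
  refine le_epsJ (C := 3.9291) (N0 := 20.408) (J_boxp 0.4195 0.6429 0.502 0 (-0.492) 0.6489 0.8157 0.8194 1.7318 0.3612 4.5176 20.408 1.2571 6.691 1.796 0.7094 0.3244 0.1884 0.3594 2.1101 0.2845 1.0808 1.0451 3.3337 0.001335 0.02145 0.000653 0.0000003101 0.003014 0.0000003101 0.0000003101 0.0000003101 3.9291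
    hβ hN hx1 hx2 hy1 hy2 (by norm_num) (by norm_num) (by linarith) (by norm_num) (by norm_num) (by norm_num) (by norm_num) (by norm_num) (by norm_num) (by norm_num) (by norm_num) (by norm_num) (by norm_num) (by norm_num) (by norm_num) (by norm_num) (by norm_num) (by norm_num) (by norm_num) (by norm_num) (by norm_num) (by norm_num) (by norm_num) (by norm_num)
    (cube_sqrt_geJ (s := 0.7622) (by norm_num) (by norm_num) (by norm_num) (by norm_num))
    (cube_sqrt_geJ (s := 0.9198) (by norm_num) (by norm_num) (by norm_num) (by norm_num))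
    (by norm_num) (by norm_num) (by norm_num) (by norm_num) (by norm_num) (by norm_num) (by norm_num) (by norm_num) (by norm_num) (by norm_num) (by norm_num) (by norm_num) (by norm_num) (by norm_num) (by norm_num) (by norm_num) (by norm_num) (by norm_num)
    (exp_neg_leJ (r := 0.62) 6 (by norm_num) (by norm_num) (by norm_num) (by norm_num))
    (exp_neg_leJ (r := 0.844) 3 (by norm_num) (by norm_num) (by norm_num) (by norm_num))
    (exp_neg_leJ (r := 0.334) 7 (by norm_num) (by norm_num) (by norm_num) (by norm_num))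
    (exp_neg_leJ (r := 0.99) 14 (by norm_num) (by norm_num) (by norm_num) (by norm_num))
    (exp_neg_leJ (r := 0.806) 5 (by norm_num) (by norm_num) (by norm_num) (by norm_num))
    (exp_neg_leJ (r := 0.99) 14 (by norm_num) (by norm_num) (by norm_num) (by norm_num))
    (exp_neg_leJ (r := 0.99) 14 (by norm_num) (by norm_num) (by norm_num) (by norm_num))
    (exp_neg_leJ (r := 0.99) 14 (by norm_num) (by norm_num) (by norm_num) (by norm_num))
    (by norm_num)) (by norm_num) hN hβ.le (by norm_num)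

private theorem JB6_k0c_b1_1 {β x y : ℝ} (hβ : 0 < β) (hN : β * 20.408 ≤ 1) (hx1 : 0.4063 ≤ x) (hx2 : x ≤ 0.6514)
    (hy1 : -0.492 ≤ y) (hy2 : y ≤ -0.467) : ‖HH β (x + y * I) - 1‖ ≤ 0.2 := by
  refine le_epsJ (C := 4.0613) (N0 := 20.408) (J_boxp 0.4063 0.6514 0.492 0 (-0.467) 0.6468 0.8164 0.8417 1.7637 0.3661 4.5176 20.408 1.2623 6.762 1.8 0.7154 0.3233 0.1873 0.3707 2.1387 0.2835 1.0625 1.0458 3.3054 0.001365 0.02192 0.0005185 0.0000003101 0.003078 0.0000003101 0.0000003101 0.0000003101 4.0613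
    hβ hN hx1 hx2 hy1 hy2 (by norm_num) (by norm_num) (by linarith) (by norm_num) (by norm_num) (by norm_num) (by norm_num) (by norm_num) (by norm_num) (by norm_num) (by norm_num) (by norm_num) (by norm_num) (by norm_num) (by norm_num) (by norm_num) (by norm_num) (by norm_num) (by norm_num) (by norm_num) (by norm_num) (by norm_num) (by norm_num) (by norm_num)
    (cube_sqrt_geJ (s := 0.761) (by norm_num) (by norm_num) (by norm_num) (by norm_num))
    (cube_sqrt_geJ (s := 0.9194) (by norm_num) (by norm_num) (by norm_num) (by norm_num))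
    (by norm_num) (by norm_num) (by norm_num) (by norm_num) (by norm_num) (by norm_num) (by norm_num) (by norm_num) (by norm_num) (by norm_num) (by norm_num) (by norm_num) (by norm_num) (by norm_num) (by norm_num) (by norm_num) (by norm_num) (by norm_num)
    (exp_neg_leJ (r := 0.597) 6 (by norm_num) (by norm_num) (by norm_num) (by norm_num))
    (exp_neg_leJ (r := 0.822) 3 (by norm_num) (by norm_num) (by norm_num) (by norm_num))
    (exp_neg_leJ (r := 0.565) 7 (by norm_num) (by norm_num) (by norm_num) (by norm_num))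
    (exp_neg_leJ (r := 0.99) 14 (by norm_num) (by norm_num) (by norm_num) (by norm_num))
    (exp_neg_leJ (r := 0.785) 5 (by norm_num) (by norm_num) (by norm_num) (by norm_num))
    (exp_neg_leJ (r := 0.99) 14 (by norm_num) (by norm_num) (by norm_num) (by norm_num))
    (exp_neg_leJ (r := 0.99) 14 (by norm_num) (by norm_num) (by norm_num) (by norm_num))
    (exp_neg_leJ (r := 0.99) 14 (by norm_num) (by norm_num) (by norm_num) (by norm_num))
    (by norm_num)) (by norm_num) hN hβ.le (by norm_num)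

private theorem JB6_k0c_b1_2 {β x y : ℝ} (hβ : 0 < β) (hN : β * 20.408 ≤ 1) (hx1 : 0.3829 ≤ x) (hx2 : x ≤ 0.6643)
    (hy1 : -0.467 ≤ y) (hy2 : y ≤ -0.412) : ‖HH β (x + y * I) - 1‖ ≤ 0.2 := by
  refine le_epsJ (C := 4.0538) (N0 := 20.408) (J_boxp 0.3829 0.6643 0.467 0 (-0.412) 0.648 0.8121 0.8872 1.8058 0.3758 4.5176 20.408 1.2533 6.641 1.792 0.7335 0.3239 0.1886 0.4022 2.2144 0.2858 1.0301 1.067 3.2703 0.001348 0.02137 0.0002725 0.0000003101 0.002938 0.0000003101 0.0000003101 0.0000003101 4.0538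
    hβ hN hx1 hx2 hy1 hy2 (by norm_num) (by norm_num) (by linarith) (by norm_num) (by norm_num) (by norm_num) (by norm_num) (by norm_num) (by norm_num) (by norm_num) (by norm_num) (by norm_num) (by norm_num) (by norm_num) (by norm_num) (by norm_num) (by norm_num) (by norm_num) (by norm_num) (by norm_num) (by norm_num) (by norm_num) (by norm_num) (by norm_num)
    (cube_sqrt_geJ (s := 0.763) (by norm_num) (by norm_num) (by norm_num) (by norm_num))
    (cube_sqrt_geJ (s := 0.92) (by norm_num) (by norm_num) (by norm_num) (by norm_num))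
    (by norm_num) (by norm_num) (by norm_num) (by norm_num) (by norm_num) (by norm_num) (by norm_num) (by norm_num) (by norm_num) (by norm_num) (by norm_num) (by norm_num) (by norm_num) (by norm_num) (by norm_num) (by norm_num) (by norm_num) (by norm_num)
    (exp_neg_leJ (r := 0.61) 6 (by norm_num) (by norm_num) (by norm_num) (by norm_num))
    (exp_neg_leJ (r := 0.848) 3 (by norm_num) (by norm_num) (by norm_num) (by norm_num))
    (exp_neg_leJ (r := 0.208) 8 (by norm_num) (by norm_num) (by norm_num) (by norm_num))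
    (exp_neg_leJ (r := 0.99) 14 (by norm_num) (by norm_num) (by norm_num) (by norm_num))
    (exp_neg_leJ (r := 0.832) 5 (by norm_num) (by norm_num) (by norm_num) (by norm_num))
    (exp_neg_leJ (r := 0.99) 14 (by norm_num) (by norm_num) (by norm_num) (by norm_num))
    (exp_neg_leJ (r := 0.99) 14 (by norm_num) (by norm_num) (by norm_num) (by norm_num))
    (exp_neg_leJ (r := 0.99) 14 (by norm_num) (by norm_num) (by norm_num) (by norm_num))
    (by norm_num)) (by norm_num) hN hβ.le (by norm_num)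

private theorem JB6_k0c_b1_3 {β x y : ℝ} (hβ : 0 < β) (hN : β * 20.408 ≤ 1) (hx1 : 0.3296 ≤ x) (hx2 : x ≤ 0.6861)
    (hy1 : -0.412 ≤ y) (hy2 : y ≤ -0.277) : ‖HH β (x + y * I) - 1‖ ≤ 0.2 := by
  refine le_epsJ (C := 4.0368) (N0 := 20.408) (J_boxp 0.3296 0.6861 0.412 0 (-0.277) 0.6495 0.8003 0.9968 1.9074 0.3984 4.5176 20.408 1.2322 6.367 1.773 0.7759 0.3247 0.1913 0.4707 2.3835 0.29 0.9563 1.1099 3.1958 0.001327 0.02021 0.00006736 0.0000003101 0.002698 0.0000003101 0.0000003101 0.0000003101 4.0368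
    hβ hN hx1 hx2 hy1 hy2 (by norm_num) (by norm_num) (by linarith) (by norm_num) (by norm_num) (by norm_num) (by norm_num) (by norm_num) (by norm_num) (by norm_num) (by norm_num) (by norm_num) (by norm_num) (by norm_num) (by norm_num) (by norm_num) (by norm_num) (by norm_num) (by norm_num) (by norm_num) (by norm_num) (by norm_num) (by norm_num) (by norm_num)
    (cube_sqrt_geJ (s := 0.7676) (by norm_num) (by norm_num) (by norm_num) (by norm_num))
    (cube_sqrt_geJ (s := 0.9214) (by norm_num) (by norm_num) (by norm_num) (by norm_num))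
    (by norm_num) (by norm_num) (by norm_num) (by norm_num) (by norm_num) (by norm_num) (by norm_num) (by norm_num) (by norm_num) (by norm_num) (by norm_num) (by norm_num) (by norm_num) (by norm_num) (by norm_num) (by norm_num) (by norm_num) (by norm_num)
    (exp_neg_leJ (r := 0.626) 6 (by norm_num) (by norm_num) (by norm_num) (by norm_num))
    (exp_neg_leJ (r := 0.904) 3 (by norm_num) (by norm_num) (by norm_num) (by norm_num))
    (exp_neg_leJ (r := 0.606) 9 (by norm_num) (by norm_num) (by norm_num) (by norm_num))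
    (exp_neg_leJ (r := 0.99) 14 (by norm_num) (by norm_num) (by norm_num) (by norm_num))
    (exp_neg_leJ (r := 0.918) 5 (by norm_num) (by norm_num) (by norm_num) (by norm_num))
    (exp_neg_leJ (r := 0.99) 14 (by norm_num) (by norm_num) (by norm_num) (by norm_num))
    (exp_neg_leJ (r := 0.99) 14 (by norm_num) (by norm_num) (by norm_num) (by norm_num))
    (exp_neg_leJ (r := 0.99) 14 (by norm_num) (by norm_num) (by norm_num) (by norm_num))
    (by norm_num)) (by norm_num) hN hβ.le (by norm_num)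

private theorem JB6_k0c_b1_4 {β x y : ℝ} (hβ : 0 < β) (hN : β * 20.408 ≤ 1) (hx1 : 0.4392 ≤ x) (hx2 : x ≤ 0.5914)
    (hy1 : -0.277 ≤ y) (hy2 : y ≤ -0.261) : ‖HH β (x + y * I) - 1‖ ≤ 0.2 := by
  refine le_epsJ (C := 0.7344) (N0 := 20.408) (J_boxp 0.4392 0.5914 0.277 0 (-0.261) 0.8226 0.6531 0.9466 1.3041 0.3882 4.5176 20.408 0.794 2.934 1.431 0.9369 0.4112 0.3024 0.7213 2.8761 0.417 1.1081 1.6961 3.8151 0.000227 0.00209 0.0000004052 0.0000003101 0.0002015 0.0000003101 0.0000003101 0.0000003101 0.7344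
    hβ hN hx1 hx2 hy1 hy2 (by norm_num) (by norm_num) (by linarith) (by norm_num) (by norm_num) (by norm_num) (by norm_num) (by norm_num) (by norm_num) (by norm_num) (by norm_num) (by norm_num) (by norm_num) (by norm_num) (by norm_num) (by norm_num) (by norm_num) (by norm_num) (by norm_num) (by norm_num) (by norm_num) (by norm_num) (by norm_num) (by norm_num)
    (cube_sqrt_geJ (s := 0.8575) (by norm_num) (by norm_num) (by norm_num) (by norm_num))
    (cube_sqrt_geJ (s := 0.9501) (by norm_num) (by norm_num) (by norm_num) (by norm_num))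
    (by norm_num) (by norm_num) (by norm_num) (by norm_num) (by norm_num) (by norm_num) (by norm_num) (by norm_num) (by norm_num) (by norm_num) (by norm_num) (by norm_num) (by norm_num) (by norm_num) (by norm_num) (by norm_num) (by norm_num) (by norm_num)
    (exp_neg_leJ (r := 0.391) 8 (by norm_num) (by norm_num) (by norm_num) (by norm_num))
    (exp_neg_leJ (r := 0.171) 6 (by norm_num) (by norm_num) (by norm_num) (by norm_num))
    (exp_neg_leJ (r := 0.72) 14 (by norm_num) (by norm_num) (by norm_num) (by norm_num))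
    (exp_neg_leJ (r := 0.99) 14 (by norm_num) (by norm_num) (by norm_num) (by norm_num))
    (exp_neg_leJ (r := 0.51) 8 (by norm_num) (by norm_num) (by norm_num) (by norm_num))
    (exp_neg_leJ (r := 0.99) 14 (by norm_num) (by norm_num) (by norm_num) (by norm_num))
    (exp_neg_leJ (r := 0.99) 14 (by norm_num) (by norm_num) (by norm_num) (by norm_num))
    (exp_neg_leJ (r := 0.99) 14 (by norm_num) (by norm_num) (by norm_num) (by norm_num))
    (by norm_num)) (by norm_num) hN hβ.le (by norm_num)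

private theorem JB6_k0c_c1 {κ t β : ℝ} (h : DomR κ t) (hβ : 0 < β) (hk1 : 0.4 ≤ κ) (hk2 : κ ≤ 0.49)
    (ht1 : -0.8 ≤ t + κ) (ht2 : t + κ ≤ -0.58) (hR0 : β * 10 ≤ κ) (hR : β * (4.95 * (1 + κ ^ 2)) ≤ κ) :
    ‖HH β (sg κ t) - 1‖ ≤ 0.2 := by
  have hN : β * 20.408 ≤ 1 := bNR hβ h.1 hk2 hR0 (by norm_num)
  have hy1 : -0.502 ≤ sy κ t := syL_ge2 h 0.4 0.49 0.8 0.502 0.60531 0.60532 0.6085 0.62013 0.75968 hk1 hk2 (by linarith) (by norm_num) (by norm_num) (by norm_num)
    (expm_ge (by norm_num) (by norm_num) (by norm_num) (by norm_num)) (expm_le (by norm_num) (by norm_num) (by norm_num)) (by norm_num)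
    (by norm_num) (by norm_num) (by norm_num) (by norm_num) (by norm_num) (by norm_num)
  have hy2 : sy κ t ≤ -0.261 := syL_le h 0.4 0.49 0.58 0.261 0.77028 0.77029 0.41029 0.50262 hk1 hk2 (by linarith) (by norm_num) (by norm_num) (by norm_num)
    (expm_ge (by norm_num) (by norm_num) (by norm_num) (by norm_num)) (expm_le (by norm_num) (by norm_num) (by norm_num)) (by norm_num)
    (by norm_num) (by norm_num) (by norm_num) (by norm_num) (by norm_num) (by norm_num)
  rcases le_total (sy κ t) (-0.492) with f0 | g0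
  · have hx1 : 0.4195 ≤ sx κ t := sx_lo h 0.4 (-0.492) 0.502 1.63558 0.4195 hk1 (by norm_num) f0 (abs_le.2 ⟨by linarith, by linarith⟩) (by rw [neg_neg]; exact expn_ge (by norm_num) (by norm_num)) (by norm_num) (by norm_num)
    have hx2 : sx κ t ≤ 0.6429 := sx_hi h 0.49 (-0.502) 0.492 1.65203 0.6429 hk2 hy1 (by norm_num) (by rw [abs_of_nonpos (by linarith)]; linarith) (by rw [neg_neg]; exact expn_le (by norm_num) (by norm_num) (by norm_num)) (by norm_num) (by norm_num)
    exact JB6_k0c_b1_0 hβ hN hx1 hx2 (by linarith) (by linarith)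
  rcases le_total (sy κ t) (-0.467) with f1 | g1
  · have hx1 : 0.4063 ≤ sx κ t := sx_lo h 0.4 (-0.467) 0.492 1.5952 0.4063 hk1 (by norm_num) f1 (abs_le.2 ⟨by linarith, by linarith⟩) (by rw [neg_neg]; exact expn_ge (by norm_num) (by norm_num)) (by norm_num) (by norm_num)
    have hx2 : sx κ t ≤ 0.6514 := sx_hi h 0.49 (-0.492) 0.467 1.63559 0.6514 hk2 g0 (by norm_num) (by rw [abs_of_nonpos (by linarith)]; linarith) (by rw [neg_neg]; exact expn_le (by norm_num) (by norm_num) (by norm_num)) (by norm_num) (by norm_num)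
    exact JB6_k0c_b1_1 hβ hN hx1 hx2 (by linarith) (by linarith)
  rcases le_total (sy κ t) (-0.412) with f2 | g2
  · have hx1 : 0.3829 ≤ sx κ t := sx_lo h 0.4 (-0.412) 0.467 1.50983 0.3829 hk1 (by norm_num) f2 (abs_le.2 ⟨by linarith, by linarith⟩) (by rw [neg_neg]; exact expn_ge (by norm_num) (by norm_num)) (by norm_num) (by norm_num)
    have hx2 : sx κ t ≤ 0.6643 := sx_hi h 0.49 (-0.467) 0.412 1.59521 0.6643 hk2 g1 (by norm_num) (by rw [abs_of_nonpos (by linarith)]; linarith) (by rw [neg_neg]; exact expn_le (by norm_num) (by norm_num) (by norm_num)) (by norm_num) (by norm_num)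
    exact JB6_k0c_b1_2 hβ hN hx1 hx2 (by linarith) (by linarith)
  rcases le_total (sy κ t) (-0.277) with f3 | g3
  · have hx1 : 0.3296 ≤ sx κ t := sx_lo h 0.4 (-0.277) 0.412 1.31916 0.3296 hk1 (by norm_num) f3 (abs_le.2 ⟨by linarith, by linarith⟩) (by rw [neg_neg]; exact expn_ge (by norm_num) (by norm_num)) (by norm_num) (by norm_num)
    have hx2 : sx κ t ≤ 0.6861 := sx_hi h 0.49 (-0.412) 0.277 1.50984 0.6861 hk2 g2 (by norm_num) (by rw [abs_of_nonpos (by linarith)]; linarith) (by rw [neg_neg]; exact expn_le (by norm_num) (by norm_num) (by norm_num)) (by norm_num) (by norm_num)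
    exact JB6_k0c_b1_3 hβ hN hx1 hx2 (by linarith) (by linarith)
  have hx1 : 0.4392 ≤ sx κ t := sx_lo h 0.4 (-0.261) 0.277 1.29822 0.4392 hk1 (by norm_num) hy2 (abs_le.2 ⟨by linarith, by linarith⟩) (by rw [neg_neg]; exact expn_ge (by norm_num) (by norm_num)) (by norm_num) (by norm_num)
  have hx2 : sx κ t ≤ 0.5914 := sx_hi h 0.49 (-0.277) 0.261 1.31917 0.5914 hk2 g3 (by norm_num) (by rw [abs_of_nonpos (by linarith)]; linarith) (by rw [neg_neg]; exact expn_le (by norm_num) (by norm_num) (by norm_num)) (by norm_num) (by norm_num)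
  exact JB6_k0c_b1_4 hβ hN hx1 hx2 (by linarith) (by linarith)

private theorem JB6_k0c_b2_0 {β x y : ℝ} (hβ : 0 < β) (hN : β * 16.949 ≤ 1) (hx1 : 0.629 ≤ x) (hx2 : x ≤ 0.8519)
    (hy1 : -0.521 ≤ y) (hy2 : y ≤ -0.511) : ‖HH β (x + y * I) - 1‖ ≤ 0.2 := by
  refine le_epsJ (C := 3.3852) (N0 := 16.949) (J_boxp 0.629 0.8519 0.521 0 (-0.511) 0.783 0.9986 0.9823 1.4305 0.3954 4.117 16.949 1.2754 6.944 1.812 0.6115 0.3914 0.225 0.4012 1.9367 0.3759 1.3709 1.4124 3.2556 0.001317 0.02212 0.001117 0.0000003101 0.001711 0.0000003101 0.0000003101 0.0000003101 3.3852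
    hβ hN hx1 hx2 hy1 hy2 (by norm_num) (by norm_num) (by linarith) (by norm_num) (by norm_num) (by norm_num) (by norm_num) (by norm_num) (by norm_num) (by norm_num) (by norm_num) (by norm_num) (by norm_num) (by norm_num) (by norm_num) (by norm_num) (by norm_num) (by norm_num) (by norm_num) (by norm_num) (by norm_num) (by norm_num) (by norm_num) (by norm_num)
    (cube_sqrt_geJ (s := 0.7581) (by norm_num) (by norm_num) (by norm_num) (by norm_num))
    (cube_sqrt_geJ (s := 0.9186) (by norm_num) (by norm_num) (by norm_num) (by norm_num))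
    (by norm_num) (by norm_num) (by norm_num) (by norm_num) (by norm_num) (by norm_num) (by norm_num) (by norm_num) (by norm_num) (by norm_num) (by norm_num) (by norm_num) (by norm_num) (by norm_num) (by norm_num) (by norm_num) (by norm_num) (by norm_num)
    (exp_neg_leJ (r := 0.633) 6 (by norm_num) (by norm_num) (by norm_num) (by norm_num))
    (exp_neg_leJ (r := 0.813) 3 (by norm_num) (by norm_num) (by norm_num) (by norm_num))
    (exp_neg_leJ (r := 0.799) 6 (by norm_num) (by norm_num) (by norm_num) (by norm_num))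
    (exp_neg_leJ (r := 0.99) 14 (by norm_num) (by norm_num) (by norm_num) (by norm_num))
    (exp_neg_leJ (r := 0.371) 6 (by norm_num) (by norm_num) (by norm_num) (by norm_num))
    (exp_neg_leJ (r := 0.99) 14 (by norm_num) (by norm_num) (by norm_num) (by norm_num))
    (exp_neg_leJ (r := 0.99) 14 (by norm_num) (by norm_num) (by norm_num) (by norm_num))
    (exp_neg_leJ (r := 0.99) 14 (by norm_num) (by norm_num) (by norm_num) (by norm_num))
    (by norm_num)) (by norm_num) hN hβ.le (by norm_num)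

private theorem JB6_k0c_b2_1 {β x y : ℝ} (hβ : 0 < β) (hN : β * 16.949 ≤ 1) (hx1 : 0.6163 ≤ x) (hx2 : x ≤ 0.8522)
    (hy1 : -0.511 ≤ y) (hy2 : y ≤ -0.491) : ‖HH β (x + y * I) - 1‖ ≤ 0.2 := by
  refine le_epsJ (C := 3.3877) (N0 := 16.949) (J_boxp 0.6163 0.8522 0.511 0 (-0.491) 0.7811 0.9937 0.9927 1.4433 0.3975 4.117 16.949 1.2722 6.898 1.809 0.6206 0.3905 0.2249 0.4126 1.9693 0.3752 1.3533 1.4142 3.2435 0.001337 0.02216 0.0009243 0.0000003101 0.001732 0.0000003101 0.0000003101 0.0000003101 3.3877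
    hβ hN hx1 hx2 hy1 hy2 (by norm_num) (by norm_num) (by linarith) (by norm_num) (by norm_num) (by norm_num) (by norm_num) (by norm_num) (by norm_num) (by norm_num) (by norm_num) (by norm_num) (by norm_num) (by norm_num) (by norm_num) (by norm_num) (by norm_num) (by norm_num) (by norm_num) (by norm_num) (by norm_num) (by norm_num) (by norm_num) (by norm_num)
    (cube_sqrt_geJ (s := 0.7589) (by norm_num) (by norm_num) (by norm_num) (by norm_num))
    (cube_sqrt_geJ (s := 0.9188) (by norm_num) (by norm_num) (by norm_num) (by norm_num))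
    (by norm_num) (by norm_num) (by norm_num) (by norm_num) (by norm_num) (by norm_num) (by norm_num) (by norm_num) (by norm_num) (by norm_num) (by norm_num) (by norm_num) (by norm_num) (by norm_num) (by norm_num) (by norm_num) (by norm_num) (by norm_num)
    (exp_neg_leJ (r := 0.618) 6 (by norm_num) (by norm_num) (by norm_num) (by norm_num))
    (exp_neg_leJ (r := 0.811) 3 (by norm_num) (by norm_num) (by norm_num) (by norm_num))
    (exp_neg_leJ (r := 0.99) 6 (by norm_num) (by norm_num) (by norm_num) (by norm_num))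
    (exp_neg_leJ (r := 0.99) 14 (by norm_num) (by norm_num) (by norm_num) (by norm_num))
    (exp_neg_leJ (r := 0.359) 6 (by norm_num) (by norm_num) (by norm_num) (by norm_num))
    (exp_neg_leJ (r := 0.99) 14 (by norm_num) (by norm_num) (by norm_num) (by norm_num))
    (exp_neg_leJ (r := 0.99) 14 (by norm_num) (by norm_num) (by norm_num) (by norm_num))
    (exp_neg_leJ (r := 0.99) 14 (by norm_num) (by norm_num) (by norm_num) (by norm_num))
    (by norm_num)) (by norm_num) hN hβ.le (by norm_num)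

private theorem JB6_k0c_b2_2 {β x y : ℝ} (hβ : 0 < β) (hN : β * 16.949 ≤ 1) (hx1 : 0.5921 ≤ x) (hx2 : x ≤ 0.8521)
    (hy1 : -0.491 ≤ y) (hy2 : y ≤ -0.451) : ‖HH β (x + y * I) - 1‖ ≤ 0.2 := by
  refine le_epsJ (C := 3.3672) (N0 := 16.949) (J_boxp 0.5921 0.8521 0.491 0 (-0.451) 0.7783 0.9835 1.0137 1.4664 0.4017 4.117 16.949 1.2637 6.781 1.802 0.6391 0.3891 0.2252 0.4359 2.0349 0.3743 1.3198 1.4202 3.2228 0.00137 0.02205 0.0006187 0.0000003101 0.001758 0.0000003101 0.0000003101 0.0000003101 3.3672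
    hβ hN hx1 hx2 hy1 hy2 (by norm_num) (by norm_num) (by linarith) (by norm_num) (by norm_num) (by norm_num) (by norm_num) (by norm_num) (by norm_num) (by norm_num) (by norm_num) (by norm_num) (by norm_num) (by norm_num) (by norm_num) (by norm_num) (by norm_num) (by norm_num) (by norm_num) (by norm_num) (by norm_num) (by norm_num) (by norm_num) (by norm_num)
    (cube_sqrt_geJ (s := 0.7607) (by norm_num) (by norm_num) (by norm_num) (by norm_num))
    (cube_sqrt_geJ (s := 0.9193) (by norm_num) (by norm_num) (by norm_num) (by norm_num))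
    (by norm_num) (by norm_num) (by norm_num) (by norm_num) (by norm_num) (by norm_num) (by norm_num) (by norm_num) (by norm_num) (by norm_num) (by norm_num) (by norm_num) (by norm_num) (by norm_num) (by norm_num) (by norm_num) (by norm_num) (by norm_num)
    (exp_neg_leJ (r := 0.594) 6 (by norm_num) (by norm_num) (by norm_num) (by norm_num))
    (exp_neg_leJ (r := 0.816) 3 (by norm_num) (by norm_num) (by norm_num) (by norm_num))
    (exp_neg_leJ (r := 0.388) 7 (by norm_num) (by norm_num) (by norm_num) (by norm_num))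
    (exp_neg_leJ (r := 0.99) 14 (by norm_num) (by norm_num) (by norm_num) (by norm_num))
    (exp_neg_leJ (r := 0.344) 6 (by norm_num) (by norm_num) (by norm_num) (by norm_num))
    (exp_neg_leJ (r := 0.99) 14 (by norm_num) (by norm_num) (by norm_num) (by norm_num))
    (exp_neg_leJ (r := 0.99) 14 (by norm_num) (by norm_num) (by norm_num) (by norm_num))
    (exp_neg_leJ (r := 0.99) 14 (by norm_num) (by norm_num) (by norm_num) (by norm_num))
    (by norm_num)) (by norm_num) hN hβ.le (by norm_num)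

private theorem JB6_k0c_b2_3 {β x y : ℝ} (hβ : 0 < β) (hN : β * 16.949 ≤ 1) (hx1 : 0.5438 ≤ x) (hx2 : x ≤ 0.8509)
    (hy1 : -0.451 ≤ y) (hy2 : y ≤ -0.366) : ‖HH β (x + y * I) - 1‖ ≤ 0.2 := by
  refine le_epsJ (C := 3.3312) (N0 := 16.949) (J_boxp 0.5438 0.8509 0.451 0 (-0.366) 0.7727 0.9631 1.0612 1.5167 0.411 4.117 16.949 1.2465 6.551 1.786 0.6765 0.3863 0.2258 0.4825 2.1663 0.3727 1.2529 1.4323 3.1817 0.001435 0.02182 0.0002811 0.0000003101 0.001808 0.0000003101 0.0000003101 0.0000003101 3.3312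
    hβ hN hx1 hx2 hy1 hy2 (by norm_num) (by norm_num) (by linarith) (by norm_num) (by norm_num) (by norm_num) (by norm_num) (by norm_num) (by norm_num) (by norm_num) (by norm_num) (by norm_num) (by norm_num) (by norm_num) (by norm_num) (by norm_num) (by norm_num) (by norm_num) (by norm_num) (by norm_num) (by norm_num) (by norm_num) (by norm_num) (by norm_num)
    (cube_sqrt_geJ (s := 0.7645) (by norm_num) (by norm_num) (by norm_num) (by norm_num))
    (cube_sqrt_geJ (s := 0.9205) (by norm_num) (by norm_num) (by norm_num) (by norm_num))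
    (by norm_num) (by norm_num) (by norm_num) (by norm_num) (by norm_num) (by norm_num) (by norm_num) (by norm_num) (by norm_num) (by norm_num) (by norm_num) (by norm_num) (by norm_num) (by norm_num) (by norm_num) (by norm_num) (by norm_num) (by norm_num)
    (exp_neg_leJ (r := 0.547) 6 (by norm_num) (by norm_num) (by norm_num) (by norm_num))
    (exp_neg_leJ (r := 0.827) 3 (by norm_num) (by norm_num) (by norm_num) (by norm_num))
    (exp_neg_leJ (r := 0.177) 8 (by norm_num) (by norm_num) (by norm_num) (by norm_num))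
    (exp_neg_leJ (r := 0.99) 14 (by norm_num) (by norm_num) (by norm_num) (by norm_num))
    (exp_neg_leJ (r := 0.316) 6 (by norm_num) (by norm_num) (by norm_num) (by norm_num))
    (exp_neg_leJ (r := 0.99) 14 (by norm_num) (by norm_num) (by norm_num) (by norm_num))
    (exp_neg_leJ (r := 0.99) 14 (by norm_num) (by norm_num) (by norm_num) (by norm_num))
    (exp_neg_leJ (r := 0.99) 14 (by norm_num) (by norm_num) (by norm_num) (by norm_num))
    (by norm_num)) (by norm_num) hN hβ.le (by norm_num)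

private theorem JB6_k0c_b2_4 {β x y : ℝ} (hβ : 0 < β) (hN : β * 16.949 ≤ 1) (hx1 : 0.5549 ≤ x) (hx2 : x ≤ 0.7943)
    (hy1 : -0.366 ≤ y) (hy2 : y ≤ -0.305) : ‖HH β (x + y * I) - 1‖ ≤ 0.2 := by
  refine le_epsJ (C := 1.6131) (N0 := 16.949) (J_boxp 0.5549 0.7943 0.366 0 (-0.305) 0.8409 0.8746 1.0555 1.3324 0.4099 4.117 16.949 1.0401 4.438 1.611 0.7767 0.4204 0.2746 0.6205 2.4744 0.4246 1.2683 1.6856 3.4444 0.0008048 0.00953 0.00002711 0.0000003101 0.0007496 0.0000003101 0.0000003101 0.0000003101 1.6131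
    hβ hN hx1 hx2 hy1 hy2 (by norm_num) (by norm_num) (by linarith) (by norm_num) (by norm_num) (by norm_num) (by norm_num) (by norm_num) (by norm_num) (by norm_num) (by norm_num) (by norm_num) (by norm_num) (by norm_num) (by norm_num) (by norm_num) (by norm_num) (by norm_num) (by norm_num) (by norm_num) (by norm_num) (by norm_num) (by norm_num) (by norm_num)
    (cube_sqrt_geJ (s := 0.8082) (by norm_num) (by norm_num) (by norm_num) (by norm_num))
    (cube_sqrt_geJ (s := 0.9341) (by norm_num) (by norm_num) (by norm_num) (by norm_num))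
    (by norm_num) (by norm_num) (by norm_num) (by norm_num) (by norm_num) (by norm_num) (by norm_num) (by norm_num) (by norm_num) (by norm_num) (by norm_num) (by norm_num) (by norm_num) (by norm_num) (by norm_num) (by norm_num) (by norm_num) (by norm_num)
    (exp_neg_leJ (r := 0.125) 7 (by norm_num) (by norm_num) (by norm_num) (by norm_num))
    (exp_neg_leJ (r := 0.654) 4 (by norm_num) (by norm_num) (by norm_num) (by norm_num))
    (exp_neg_leJ (r := 0.516) 10 (by norm_num) (by norm_num) (by norm_num) (by norm_num))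
    (exp_neg_leJ (r := 0.99) 14 (by norm_num) (by norm_num) (by norm_num) (by norm_num))
    (exp_neg_leJ (r := 0.196) 7 (by norm_num) (by norm_num) (by norm_num) (by norm_num))
    (exp_neg_leJ (r := 0.99) 14 (by norm_num) (by norm_num) (by norm_num) (by norm_num))
    (exp_neg_leJ (r := 0.99) 14 (by norm_num) (by norm_num) (by norm_num) (by norm_num))
    (exp_neg_leJ (r := 0.99) 14 (by norm_num) (by norm_num) (by norm_num) (by norm_num))
    (by norm_num)) (by norm_num) hN hβ.le (by norm_num)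

private theorem JB6_k0c_c2 {κ t β : ℝ} (h : DomR κ t) (hβ : 0 < β) (hk1 : 0.49 ≤ κ) (hk2 : κ ≤ 0.59)
    (ht1 : -0.8 ≤ t + κ) (ht2 : t + κ ≤ -0.58) (hR0 : β * 10 ≤ κ) (hR : β * (4.95 * (1 + κ ^ 2)) ≤ κ) :
    ‖HH β (sg κ t) - 1‖ ≤ 0.2 := by
  have hN : β * 16.949 ≤ 1 := bNR hβ h.1 hk2 hR0 (by norm_num)
  have hy1 : -0.521 ≤ sy κ t := syL_ge h 0.49 0.59 0.8 0.521 0.59392 0.59393 0.5244 0.52446 0.63151 hk1 hk2 (by linarith) (by norm_num) (by norm_num) (by norm_num)
    (expm_ge (by norm_num) (by norm_num) (by norm_num) (by norm_num)) (expm_le (by norm_num) (by norm_num) (by norm_num)) (by norm_num)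
    (by norm_num) (by norm_num) (by norm_num) (by norm_num) (by norm_num) (by norm_num)
  have hy2 : sy κ t ≤ -0.305 := syL_le h 0.49 0.59 0.58 0.305 0.73712 0.73713 0.38105 0.45883 hk1 hk2 (by linarith) (by norm_num) (by norm_num) (by norm_num)
    (expm_ge (by norm_num) (by norm_num) (by norm_num) (by norm_num)) (expm_le (by norm_num) (by norm_num) (by norm_num)) (by norm_num)
    (by norm_num) (by norm_num) (by norm_num) (by norm_num) (by norm_num) (by norm_num)
  rcases le_total (sy κ t) (-0.511) with f0 | g0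
  · have hx1 : 0.629 ≤ sx κ t := sx_lo h 0.49 (-0.511) 0.521 1.66695 0.629 hk1 (by norm_num) f0 (abs_le.2 ⟨by linarith, by linarith⟩) (by rw [neg_neg]; exact expn_ge (by norm_num) (by norm_num)) (by norm_num) (by norm_num)
    have hx2 : sx κ t ≤ 0.8519 := sx_hi h 0.59 (-0.521) 0.511 1.68372 0.8519 hk2 hy1 (by norm_num) (by rw [abs_of_nonpos (by linarith)]; linarith) (by rw [neg_neg]; exact expn_le (by norm_num) (by norm_num) (by norm_num)) (by norm_num) (by norm_num)
    exact JB6_k0c_b2_0 hβ hN hx1 hx2 (by linarith) (by linarith)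
  rcases le_total (sy κ t) (-0.491) with f1 | g1
  · have hx1 : 0.6163 ≤ sx κ t := sx_lo h 0.49 (-0.491) 0.511 1.63394 0.6163 hk1 (by norm_num) f1 (abs_le.2 ⟨by linarith, by linarith⟩) (by rw [neg_neg]; exact expn_ge (by norm_num) (by norm_num)) (by norm_num) (by norm_num)
    have hx2 : sx κ t ≤ 0.8522 := sx_hi h 0.59 (-0.511) 0.491 1.66696 0.8522 hk2 g0 (by norm_num) (by rw [abs_of_nonpos (by linarith)]; linarith) (by rw [neg_neg]; exact expn_le (by norm_num) (by norm_num) (by norm_num)) (by norm_num) (by norm_num)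
    exact JB6_k0c_b2_1 hβ hN hx1 hx2 (by linarith) (by linarith)
  rcases le_total (sy κ t) (-0.451) with f2 | g2
  · have hx1 : 0.5921 ≤ sx κ t := sx_lo h 0.49 (-0.451) 0.491 1.56988 0.5921 hk1 (by norm_num) f2 (abs_le.2 ⟨by linarith, by linarith⟩) (by rw [neg_neg]; exact expn_ge (by norm_num) (by norm_num)) (by norm_num) (by norm_num)
    have hx2 : sx κ t ≤ 0.8521 := sx_hi h 0.59 (-0.491) 0.451 1.63395 0.8521 hk2 g1 (by norm_num) (by rw [abs_of_nonpos (by linarith)]; linarith) (by rw [neg_neg]; exact expn_le (by norm_num) (by norm_num) (by norm_num)) (by norm_num) (by norm_num)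
    exact JB6_k0c_b2_2 hβ hN hx1 hx2 (by linarith) (by linarith)
  rcases le_total (sy κ t) (-0.366) with f3 | g3
  · have hx1 : 0.5438 ≤ sx κ t := sx_lo h 0.49 (-0.366) 0.451 1.44195 0.5438 hk1 (by norm_num) f3 (abs_le.2 ⟨by linarith, by linarith⟩) (by rw [neg_neg]; exact expn_ge (by norm_num) (by norm_num)) (by norm_num) (by norm_num)
    have hx2 : sx κ t ≤ 0.8509 := sx_hi h 0.59 (-0.451) 0.366 1.56989 0.8509 hk2 g2 (by norm_num) (by rw [abs_of_nonpos (by linarith)]; linarith) (by rw [neg_neg]; exact expn_le (by norm_num) (by norm_num) (by norm_num)) (by norm_num) (by norm_num)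
    exact JB6_k0c_b2_3 hβ hN hx1 hx2 (by linarith) (by linarith)
  have hx1 : 0.5549 ≤ sx κ t := sx_lo h 0.49 (-0.305) 0.366 1.35662 0.5549 hk1 (by norm_num) hy2 (abs_le.2 ⟨by linarith, by linarith⟩) (by rw [neg_neg]; exact expn_ge (by norm_num) (by norm_num)) (by norm_num) (by norm_num)
  have hx2 : sx κ t ≤ 0.7943 := sx_hi h 0.59 (-0.366) 0.305 1.44196 0.7943 hk2 g3 (by norm_num) (by rw [abs_of_nonpos (by linarith)]; linarith) (by rw [neg_neg]; exact expn_le (by norm_num) (by norm_num) (by norm_num)) (by norm_num) (by norm_num)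
  exact JB6_k0c_b2_4 hβ hN hx1 hx2 (by linarith) (by linarith)

private theorem JB6_k0c_b3_0 {β x y : ℝ} (hβ : 0 < β) (hN : β * 14.285 ≤ 1) (hx1 : 0.8399 ≤ x) (hx2 : x ≤ 1.0597)
    (hy1 : -0.521 ≤ y) (hy2 : y ≤ -0.516) : ‖HH β (x + y * I) - 1‖ ≤ 0.2 := by
  refine le_epsJ (C := 2.7723) (N0 := 14.285) (J_boxp 0.8399 1.0597 0.521 0 (-0.516) 0.9315 1.1809 1.165 1.2006 0.4306 3.7796 14.285 1.2678 6.838 1.805 0.5316 0.4657 0.2689 0.4734 1.8235 0.4783 1.6629 1.8342 3.1818 0.001293 0.02152 0.001159 0.0000003101 0.001081 0.0000003101 0.0000003101 0.0000003101 2.7723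
    hβ hN hx1 hx2 hy1 hy2 (by norm_num) (by norm_num) (by linarith) (by norm_num) (by norm_num) (by norm_num) (by norm_num) (by norm_num) (by norm_num) (by norm_num) (by norm_num) (by norm_num) (by norm_num) (by norm_num) (by norm_num) (by norm_num) (by norm_num) (by norm_num) (by norm_num) (by norm_num) (by norm_num) (by norm_num) (by norm_num) (by norm_num)
    (cube_sqrt_geJ (s := 0.7598) (by norm_num) (by norm_num) (by norm_num) (by norm_num))
    (cube_sqrt_geJ (s := 0.9191) (by norm_num) (by norm_num) (by norm_num) (by norm_num))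
    (by norm_num) (by norm_num) (by norm_num) (by norm_num) (by norm_num) (by norm_num) (by norm_num) (by norm_num) (by norm_num) (by norm_num) (by norm_num) (by norm_num) (by norm_num) (by norm_num) (by norm_num) (by norm_num) (by norm_num) (by norm_num)
    (exp_neg_leJ (r := 0.652) 6 (by norm_num) (by norm_num) (by norm_num) (by norm_num))
    (exp_neg_leJ (r := 0.841) 3 (by norm_num) (by norm_num) (by norm_num) (by norm_num))
    (exp_neg_leJ (r := 0.762) 6 (by norm_num) (by norm_num) (by norm_num) (by norm_num))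
    (exp_neg_leJ (r := 0.99) 14 (by norm_num) (by norm_num) (by norm_num) (by norm_num))
    (exp_neg_leJ (r := 0.832) 6 (by norm_num) (by norm_num) (by norm_num) (by norm_num))
    (exp_neg_leJ (r := 0.99) 14 (by norm_num) (by norm_num) (by norm_num) (by norm_num))
    (exp_neg_leJ (r := 0.99) 14 (by norm_num) (by norm_num) (by norm_num) (by norm_num))
    (exp_neg_leJ (r := 0.99) 14 (by norm_num) (by norm_num) (by norm_num) (by norm_num))
    (by norm_num)) (by norm_num) hN hβ.le (by norm_num)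

private theorem JB6_k0c_b3_1 {β x y : ℝ} (hβ : 0 < β) (hN : β * 14.285 ≤ 1) (hx1 : 0.8315 ≤ x) (hx2 : x ≤ 1.058)
    (hy1 : -0.516 ≤ y) (hy2 : y ≤ -0.506) : ‖HH β (x + y * I) - 1‖ ≤ 0.2 := by
  refine le_epsJ (C := 2.7834) (N0 := 14.285) (J_boxp 0.8315 1.058 0.516 0 (-0.506) 0.9291 1.1772 1.1677 1.2067 0.4311 3.7796 14.285 1.2671 6.827 1.805 0.5368 0.4645 0.2683 0.4784 1.8407 0.477 1.6513 1.831 3.1751 0.001315 0.02171 0.00108 0.0000003101 0.001102 0.0000003101 0.0000003101 0.0000003101 2.7834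
    hβ hN hx1 hx2 hy1 hy2 (by norm_num) (by norm_num) (by linarith) (by norm_num) (by norm_num) (by norm_num) (by norm_num) (by norm_num) (by norm_num) (by norm_num) (by norm_num) (by norm_num) (by norm_num) (by norm_num) (by norm_num) (by norm_num) (by norm_num) (by norm_num) (by norm_num) (by norm_num) (by norm_num) (by norm_num) (by norm_num) (by norm_num)
    (cube_sqrt_geJ (s := 0.76) (by norm_num) (by norm_num) (by norm_num) (by norm_num))
    (cube_sqrt_geJ (s := 0.9191) (by norm_num) (by norm_num) (by norm_num) (by norm_num))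
    (by norm_num) (by norm_num) (by norm_num) (by norm_num) (by norm_num) (by norm_num) (by norm_num) (by norm_num) (by norm_num) (by norm_num) (by norm_num) (by norm_num) (by norm_num) (by norm_num) (by norm_num) (by norm_num) (by norm_num) (by norm_num)
    (exp_neg_leJ (r := 0.635) 6 (by norm_num) (by norm_num) (by norm_num) (by norm_num))
    (exp_neg_leJ (r := 0.832) 3 (by norm_num) (by norm_num) (by norm_num) (by norm_num))
    (exp_neg_leJ (r := 0.833) 6 (by norm_num) (by norm_num) (by norm_num) (by norm_num))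
    (exp_neg_leJ (r := 0.99) 14 (by norm_num) (by norm_num) (by norm_num) (by norm_num))
    (exp_neg_leJ (r := 0.813) 6 (by norm_num) (by norm_num) (by norm_num) (by norm_num))
    (exp_neg_leJ (r := 0.99) 14 (by norm_num) (by norm_num) (by norm_num) (by norm_num))
    (exp_neg_leJ (r := 0.99) 14 (by norm_num) (by norm_num) (by norm_num) (by norm_num))
    (exp_neg_leJ (r := 0.99) 14 (by norm_num) (by norm_num) (by norm_num) (by norm_num))
    (by norm_num)) (by norm_num) hN hβ.le (by norm_num)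

private theorem JB6_k0c_b3_2 {β x y : ℝ} (hβ : 0 < β) (hN : β * 14.285 ≤ 1) (hx1 : 0.8148 ≤ x) (hx2 : x ≤ 1.0545)
    (hy1 : -0.506 ≤ y) (hy2 : y ≤ -0.486) : ‖HH β (x + y * I) - 1‖ ≤ 0.2 := by
  refine le_epsJ (C := 2.8017) (N0 := 14.285) (J_boxp 0.8148 1.0545 0.506 0 (-0.486) 0.9245 1.1697 1.1732 1.2186 0.4322 3.7796 14.285 1.2653 6.803 1.803 0.5474 0.4622 0.2672 0.4884 1.8752 0.4743 1.6281 1.8248 3.1621 0.001359 0.02205 0.0009372 0.0000003101 0.001144 0.0000003101 0.0000003101 0.0000003101 2.8017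
    hβ hN hx1 hx2 hy1 hy2 (by norm_num) (by norm_num) (by linarith) (by norm_num) (by norm_num) (by norm_num) (by norm_num) (by norm_num) (by norm_num) (by norm_num) (by norm_num) (by norm_num) (by norm_num) (by norm_num) (by norm_num) (by norm_num) (by norm_num) (by norm_num) (by norm_num) (by norm_num) (by norm_num) (by norm_num) (by norm_num) (by norm_num)
    (cube_sqrt_geJ (s := 0.7604) (by norm_num) (by norm_num) (by norm_num) (by norm_num))
    (cube_sqrt_geJ (s := 0.9192) (by norm_num) (by norm_num) (by norm_num) (by norm_num))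
    (by norm_num) (by norm_num) (by norm_num) (by norm_num) (by norm_num) (by norm_num) (by norm_num) (by norm_num) (by norm_num) (by norm_num) (by norm_num) (by norm_num) (by norm_num) (by norm_num) (by norm_num) (by norm_num) (by norm_num) (by norm_num)
    (exp_neg_leJ (r := 0.602) 6 (by norm_num) (by norm_num) (by norm_num) (by norm_num))
    (exp_neg_leJ (r := 0.816) 3 (by norm_num) (by norm_num) (by norm_num) (by norm_num))
    (exp_neg_leJ (r := 0.976) 6 (by norm_num) (by norm_num) (by norm_num) (by norm_num))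
    (exp_neg_leJ (r := 0.99) 14 (by norm_num) (by norm_num) (by norm_num) (by norm_num))
    (exp_neg_leJ (r := 0.775) 6 (by norm_num) (by norm_num) (by norm_num) (by norm_num))
    (exp_neg_leJ (r := 0.99) 14 (by norm_num) (by norm_num) (by norm_num) (by norm_num))
    (exp_neg_leJ (r := 0.99) 14 (by norm_num) (by norm_num) (by norm_num) (by norm_num))
    (exp_neg_leJ (r := 0.99) 14 (by norm_num) (by norm_num) (by norm_num) (by norm_num))
    (by norm_num)) (by norm_num) hN hβ.le (by norm_num)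

private theorem JB6_k0c_b3_3 {β x y : ℝ} (hβ : 0 < β) (hN : β * 14.285 ≤ 1) (hx1 : 0.783 ≤ x) (hx2 : x ≤ 1.0471)
    (hy1 : -0.486 ≤ y) (hy2 : y ≤ -0.446) : ‖HH β (x + y * I) - 1‖ ≤ 0.2 := by
  refine le_epsJ (C := 2.8194) (N0 := 14.285) (J_boxp 0.783 1.0471 0.486 0 (-0.446) 0.9163 1.1544 1.1847 1.241 0.4343 3.7796 14.285 1.2599 6.73 1.798 0.5687 0.4581 0.2657 0.5091 1.9443 0.4698 1.5841 1.8156 3.14 0.001441 0.02252 0.0006948 0.0000003101 0.001219 0.0000003101 0.0000003101 0.0000003101 2.8194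
    hβ hN hx1 hx2 hy1 hy2 (by norm_num) (by norm_num) (by linarith) (by norm_num) (by norm_num) (by norm_num) (by norm_num) (by norm_num) (by norm_num) (by norm_num) (by norm_num) (by norm_num) (by norm_num) (by norm_num) (by norm_num) (by norm_num) (by norm_num) (by norm_num) (by norm_num) (by norm_num) (by norm_num) (by norm_num) (by norm_num) (by norm_num)
    (cube_sqrt_geJ (s := 0.7615) (by norm_num) (by norm_num) (by norm_num) (by norm_num))
    (cube_sqrt_geJ (s := 0.9196) (by norm_num) (by norm_num) (by norm_num) (by norm_num))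
    (by norm_num) (by norm_num) (by norm_num) (by norm_num) (by norm_num) (by norm_num) (by norm_num) (by norm_num) (by norm_num) (by norm_num) (by norm_num) (by norm_num) (by norm_num) (by norm_num) (by norm_num) (by norm_num) (by norm_num) (by norm_num)
    (exp_neg_leJ (r := 0.543) 6 (by norm_num) (by norm_num) (by norm_num) (by norm_num))
    (exp_neg_leJ (r := 0.795) 3 (by norm_num) (by norm_num) (by norm_num) (by norm_num))
    (exp_neg_leJ (r := 0.272) 7 (by norm_num) (by norm_num) (by norm_num) (by norm_num))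
    (exp_neg_leJ (r := 0.99) 14 (by norm_num) (by norm_num) (by norm_num) (by norm_num))
    (exp_neg_leJ (r := 0.711) 6 (by norm_num) (by norm_num) (by norm_num) (by norm_num))
    (exp_neg_leJ (r := 0.99) 14 (by norm_num) (by norm_num) (by norm_num) (by norm_num))
    (exp_neg_leJ (r := 0.99) 14 (by norm_num) (by norm_num) (by norm_num) (by norm_num))
    (exp_neg_leJ (r := 0.99) 14 (by norm_num) (by norm_num) (by norm_num) (by norm_num))
    (by norm_num)) (by norm_num) hN hβ.le (by norm_num)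

private theorem JB6_k0c_b3_4 {β x y : ℝ} (hβ : 0 < β) (hN : β * 14.285 ≤ 1) (hx1 : 0.7244 ≤ x) (hx2 : x ≤ 1.0304)
    (hy1 : -0.446 ≤ y) (hy2 : y ≤ -0.366) : ‖HH β (x + y * I) - 1‖ ≤ 0.2 := by
  refine le_epsJ (C := 2.7927) (N0 := 14.285) (J_boxp 0.7244 1.0304 0.446 0 (-0.366) 0.9034 1.1228 1.2099 1.2811 0.4389 3.7796 14.285 1.2429 6.504 1.783 0.6121 0.4516 0.2645 0.5522 2.0836 0.4632 1.503 1.8071 3.1087 0.00158 0.0229 0.0003761 0.0000003101 0.00134 0.0000003101 0.0000003101 0.0000003101 2.7927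
    hβ hN hx1 hx2 hy1 hy2 (by norm_num) (by norm_num) (by linarith) (by norm_num) (by norm_num) (by norm_num) (by norm_num) (by norm_num) (by norm_num) (by norm_num) (by norm_num) (by norm_num) (by norm_num) (by norm_num) (by norm_num) (by norm_num) (by norm_num) (by norm_num) (by norm_num) (by norm_num) (by norm_num) (by norm_num) (by norm_num) (by norm_num)
    (cube_sqrt_geJ (s := 0.7653) (by norm_num) (by norm_num) (by norm_num) (by norm_num))
    (cube_sqrt_geJ (s := 0.9207) (by norm_num) (by norm_num) (by norm_num) (by norm_num))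
    (by norm_num) (by norm_num) (by norm_num) (by norm_num) (by norm_num) (by norm_num) (by norm_num) (by norm_num) (by norm_num) (by norm_num) (by norm_num) (by norm_num) (by norm_num) (by norm_num) (by norm_num) (by norm_num) (by norm_num) (by norm_num)
    (exp_neg_leJ (r := 0.451) 6 (by norm_num) (by norm_num) (by norm_num) (by norm_num))
    (exp_neg_leJ (r := 0.778) 3 (by norm_num) (by norm_num) (by norm_num) (by norm_num))
    (exp_neg_leJ (r := 0.888) 7 (by norm_num) (by norm_num) (by norm_num) (by norm_num))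
    (exp_neg_leJ (r := 0.99) 14 (by norm_num) (by norm_num) (by norm_num) (by norm_num))
    (exp_neg_leJ (r := 0.616) 6 (by norm_num) (by norm_num) (by norm_num) (by norm_num))
    (exp_neg_leJ (r := 0.99) 14 (by norm_num) (by norm_num) (by norm_num) (by norm_num))
    (exp_neg_leJ (r := 0.99) 14 (by norm_num) (by norm_num) (by norm_num) (by norm_num))
    (exp_neg_leJ (r := 0.99) 14 (by norm_num) (by norm_num) (by norm_num) (by norm_num))
    (by norm_num)) (by norm_num) hN hβ.le (by norm_num)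

private theorem JB6_k0c_b3_5 {β x y : ℝ} (hβ : 0 < β) (hN : β * 14.285 ≤ 1) (hx1 : 0.7363 ≤ x) (hx2 : x ≤ 0.9533)
    (hy1 : -0.366 ≤ y) (hy2 : y ≤ -0.332) : ‖HH β (x + y * I) - 1‖ ≤ 0.2 := by
  refine le_epsJ (C := 1.4399) (N0 := 14.285) (J_boxp 0.7363 0.9533 0.366 0 (-0.332) 0.9686 1.0212 1.1641 1.1319 0.4305 3.7796 14.285 1.0544 4.553 1.623 0.7156 0.4842 0.314 0.6826 2.3859 0.5127 1.5194 2.0484 3.4087 0.0009944 0.01128 0.00005836 0.0000003101 0.0006603 0.0000003101 0.0000003101 0.0000003101 1.4399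
    hβ hN hx1 hx2 hy1 hy2 (by norm_num) (by norm_num) (by linarith) (by norm_num) (by norm_num) (by norm_num) (by norm_num) (by norm_num) (by norm_num) (by norm_num) (by norm_num) (by norm_num) (by norm_num) (by norm_num) (by norm_num) (by norm_num) (by norm_num) (by norm_num) (by norm_num) (by norm_num) (by norm_num) (by norm_num) (by norm_num) (by norm_num)
    (cube_sqrt_geJ (s := 0.8053) (by norm_num) (by norm_num) (by norm_num) (by norm_num))
    (cube_sqrt_geJ (s := 0.9332) (by norm_num) (by norm_num) (by norm_num) (by norm_num))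
    (by norm_num) (by norm_num) (by norm_num) (by norm_num) (by norm_num) (by norm_num) (by norm_num) (by norm_num) (by norm_num) (by norm_num) (by norm_num) (by norm_num) (by norm_num) (by norm_num) (by norm_num) (by norm_num) (by norm_num) (by norm_num)
    (exp_neg_leJ (r := 0.916) 6 (by norm_num) (by norm_num) (by norm_num) (by norm_num))
    (exp_neg_leJ (r := 0.485) 4 (by norm_num) (by norm_num) (by norm_num) (by norm_num))
    (exp_neg_leJ (r := 0.75) 9 (by norm_num) (by norm_num) (by norm_num) (by norm_num))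
    (exp_neg_leJ (r := 0.99) 14 (by norm_num) (by norm_num) (by norm_num) (by norm_num))
    (exp_neg_leJ (r := 0.323) 7 (by norm_num) (by norm_num) (by norm_num) (by norm_num))
    (exp_neg_leJ (r := 0.99) 14 (by norm_num) (by norm_num) (by norm_num) (by norm_num))
    (exp_neg_leJ (r := 0.99) 14 (by norm_num) (by norm_num) (by norm_num) (by norm_num))
    (exp_neg_leJ (r := 0.99) 14 (by norm_num) (by norm_num) (by norm_num) (by norm_num))
    (by norm_num)) (by norm_num) hN hβ.le (by norm_num)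

private theorem JB6_k0c_c3 {κ t β : ℝ} (h : DomR κ t) (hβ : 0 < β) (hk1 : 0.59 ≤ κ) (hk2 : κ ≤ 0.7)
    (ht1 : -0.8 ≤ t + κ) (ht2 : t + κ ≤ -0.58) (hR0 : β * 10 ≤ κ) (hR : β * (4.95 * (1 + κ ^ 2)) ≤ κ) :
    ‖HH β (sg κ t) - 1‖ ≤ 0.2 := by
  have hN : β * 14.285 ≤ 1 := bNR hβ h.1 hk2 hR0 (by norm_num)
  have hy1 : -0.521 ≤ sy κ t := syL_ge h 0.59 0.7 0.8 0.521 0.59392 0.59393 0.5176 0.44204 0.52448 hk1 hk2 (by linarith) (by norm_num) (by norm_num) (by norm_num)
    (expm_ge (by norm_num) (by norm_num) (by norm_num) (by norm_num)) (expm_le (by norm_num) (by norm_num) (by norm_num)) (by norm_num)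
    (by norm_num) (by norm_num) (by norm_num) (by norm_num) (by norm_num) (by norm_num)
  have hy2 : sy κ t ≤ -0.332 := syL_le h 0.59 0.7 0.58 0.332 0.71748 0.71749 0.34029 0.40375 hk1 hk2 (by linarith) (by norm_num) (by norm_num) (by norm_num)
    (expm_ge (by norm_num) (by norm_num) (by norm_num) (by norm_num)) (expm_le (by norm_num) (by norm_num) (by norm_num)) (by norm_num)
    (by norm_num) (by norm_num) (by norm_num) (by norm_num) (by norm_num) (by norm_num)
  rcases le_total (sy κ t) (-0.516) with f0 | g0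
  · have hx1 : 0.8399 ≤ sx κ t := sx_lo h 0.59 (-0.516) 0.521 1.67531 0.8399 hk1 (by norm_num) f0 (abs_le.2 ⟨by linarith, by linarith⟩) (by rw [neg_neg]; exact expn_ge (by norm_num) (by norm_num)) (by norm_num) (by norm_num)
    have hx2 : sx κ t ≤ 1.0597 := sx_hi h 0.7 (-0.521) 0.516 1.68372 1.0597 hk2 hy1 (by norm_num) (by rw [abs_of_nonpos (by linarith)]; linarith) (by rw [neg_neg]; exact expn_le (by norm_num) (by norm_num) (by norm_num)) (by norm_num) (by norm_num)
    exact JB6_k0c_b3_0 hβ hN hx1 hx2 (by linarith) (by linarith)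
  rcases le_total (sy κ t) (-0.506) with f1 | g1
  · have hx1 : 0.8315 ≤ sx κ t := sx_lo h 0.59 (-0.506) 0.516 1.65864 0.8315 hk1 (by norm_num) f1 (abs_le.2 ⟨by linarith, by linarith⟩) (by rw [neg_neg]; exact expn_ge (by norm_num) (by norm_num)) (by norm_num) (by norm_num)
    have hx2 : sx κ t ≤ 1.058 := sx_hi h 0.7 (-0.516) 0.506 1.67532 1.058 hk2 g0 (by norm_num) (by rw [abs_of_nonpos (by linarith)]; linarith) (by rw [neg_neg]; exact expn_le (by norm_num) (by norm_num) (by norm_num)) (by norm_num) (by norm_num)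
    exact JB6_k0c_b3_1 hβ hN hx1 hx2 (by linarith) (by linarith)
  rcases le_total (sy κ t) (-0.486) with f2 | g2
  · have hx1 : 0.8148 ≤ sx κ t := sx_lo h 0.59 (-0.486) 0.506 1.62579 0.8148 hk1 (by norm_num) f2 (abs_le.2 ⟨by linarith, by linarith⟩) (by rw [neg_neg]; exact expn_ge (by norm_num) (by norm_num)) (by norm_num) (by norm_num)
    have hx2 : sx κ t ≤ 1.0545 := sx_hi h 0.7 (-0.506) 0.486 1.65865 1.0545 hk2 g1 (by norm_num) (by rw [abs_of_nonpos (by linarith)]; linarith) (by rw [neg_neg]; exact expn_le (by norm_num) (by norm_num) (by norm_num)) (by norm_num) (by norm_num)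
    exact JB6_k0c_b3_2 hβ hN hx1 hx2 (by linarith) (by linarith)
  rcases le_total (sy κ t) (-0.446) with f3 | g3
  · have hx1 : 0.783 ≤ sx κ t := sx_lo h 0.59 (-0.446) 0.486 1.56205 0.783 hk1 (by norm_num) f3 (abs_le.2 ⟨by linarith, by linarith⟩) (by rw [neg_neg]; exact expn_ge (by norm_num) (by norm_num)) (by norm_num) (by norm_num)
    have hx2 : sx κ t ≤ 1.0471 := sx_hi h 0.7 (-0.486) 0.446 1.62581 1.0471 hk2 g2 (by norm_num) (by rw [abs_of_nonpos (by linarith)]; linarith) (by rw [neg_neg]; exact expn_le (by norm_num) (by norm_num) (by norm_num)) (by norm_num) (by norm_num)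
    exact JB6_k0c_b3_3 hβ hN hx1 hx2 (by linarith) (by linarith)
  rcases le_total (sy κ t) (-0.366) with f4 | g4
  · have hx1 : 0.7244 ≤ sx κ t := sx_lo h 0.59 (-0.366) 0.446 1.44195 0.7244 hk1 (by norm_num) f4 (abs_le.2 ⟨by linarith, by linarith⟩) (by rw [neg_neg]; exact expn_ge (by norm_num) (by norm_num)) (by norm_num) (by norm_num)
    have hx2 : sx κ t ≤ 1.0304 := sx_hi h 0.7 (-0.446) 0.366 1.56206 1.0304 hk2 g3 (by norm_num) (by rw [abs_of_nonpos (by linarith)]; linarith) (by rw [neg_neg]; exact expn_le (by norm_num) (by norm_num) (by norm_num)) (by norm_num) (by norm_num)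
    exact JB6_k0c_b3_4 hβ hN hx1 hx2 (by linarith) (by linarith)
  have hx1 : 0.7363 ≤ sx κ t := sx_lo h 0.59 (-0.332) 0.366 1.39375 0.7363 hk1 (by norm_num) hy2 (abs_le.2 ⟨by linarith, by linarith⟩) (by rw [neg_neg]; exact expn_ge (by norm_num) (by norm_num)) (by norm_num) (by norm_num)
  have hx2 : sx κ t ≤ 0.9533 := sx_hi h 0.7 (-0.366) 0.332 1.44196 0.9533 hk2 g4 (by norm_num) (by rw [abs_of_nonpos (by linarith)]; linarith) (by rw [neg_neg]; exact expn_le (by norm_num) (by norm_num) (by norm_num)) (by norm_num) (by norm_num)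
  exact JB6_k0c_b3_5 hβ hN hx1 hx2 (by linarith) (by linarith)

private theorem JB6_k0c_b4_0 {β x y : ℝ} (hβ : 0 < β) (hN : β * 12.195 ≤ 1) (hx1 : 1.0441 ≤ x) (hx2 : x ≤ 1.272)
    (hy1 : -0.513 ≤ y) (hy2 : y ≤ -0.508) : ‖HH β (x + y * I) - 1‖ ≤ 0.2 := by
  refine le_epsJ (C := 2.4121) (N0 := 12.195) (J_boxp 1.0441 1.272 0.513 0 (-0.508) 1.0809 1.3716 1.3639 1.0393 0.466 3.4922 12.195 1.269 6.854 1.806 0.4573 0.5404 0.3118 0.5559 1.7317 0.5819 1.9456 2.2644 3.0718 0.001375 0.02236 0.001139 0.0000003101 0.0008285 0.0000003101 0.0000003101 0.0000003101 2.4121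
    hβ hN hx1 hx2 hy1 hy2 (by norm_num) (by norm_num) (by linarith) (by norm_num) (by norm_num) (by norm_num) (by norm_num) (by norm_num) (by norm_num) (by norm_num) (by norm_num) (by norm_num) (by norm_num) (by norm_num) (by norm_num) (by norm_num) (by norm_num) (by norm_num) (by norm_num) (by norm_num) (by norm_num) (by norm_num) (by norm_num) (by norm_num)
    (cube_sqrt_geJ (s := 0.7596) (by norm_num) (by norm_num) (by norm_num) (by norm_num))
    (cube_sqrt_geJ (s := 0.919) (by norm_num) (by norm_num) (by norm_num) (by norm_num))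
    (by norm_num) (by norm_num) (by norm_num) (by norm_num) (by norm_num) (by norm_num) (by norm_num) (by norm_num) (by norm_num) (by norm_num) (by norm_num) (by norm_num) (by norm_num) (by norm_num) (by norm_num) (by norm_num) (by norm_num) (by norm_num)
    (exp_neg_leJ (r := 0.59) 6 (by norm_num) (by norm_num) (by norm_num) (by norm_num))
    (exp_neg_leJ (r := 0.802) 3 (by norm_num) (by norm_num) (by norm_num) (by norm_num))
    (exp_neg_leJ (r := 0.779) 6 (by norm_num) (by norm_num) (by norm_num) (by norm_num))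
    (exp_neg_leJ (r := 0.99) 14 (by norm_num) (by norm_num) (by norm_num) (by norm_num))
    (exp_neg_leJ (r := 0.096) 7 (by norm_num) (by norm_num) (by norm_num) (by norm_num))
    (exp_neg_leJ (r := 0.99) 14 (by norm_num) (by norm_num) (by norm_num) (by norm_num))
    (exp_neg_leJ (r := 0.99) 14 (by norm_num) (by norm_num) (by norm_num) (by norm_num))
    (exp_neg_leJ (r := 0.99) 14 (by norm_num) (by norm_num) (by norm_num) (by norm_num))
    (by norm_num)) (by norm_num) hN hβ.le (by norm_num)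

private theorem JB6_k0c_b4_1 {β x y : ℝ} (hβ : 0 < β) (hN : β * 12.195 ≤ 1) (hx1 : 1.0337 ≤ x) (hx2 : x ≤ 1.2686)
    (hy1 : -0.508 ≤ y) (hy2 : y ≤ -0.498) : ‖HH β (x + y * I) - 1‖ ≤ 0.2 := by
  refine le_epsJ (C := 2.4254) (N0 := 12.195) (J_boxp 1.0337 1.2686 0.508 0 (-0.498) 1.0772 1.3666 1.3644 1.0448 0.466 3.4922 12.195 1.2687 6.85 1.806 0.4632 0.5385 0.3108 0.5602 1.7497 0.5795 1.9312 2.2572 3.0646 0.001407 0.02263 0.001082 0.0000003101 0.0008528 0.0000003101 0.0000003101 0.0000003101 2.4254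
    hβ hN hx1 hx2 hy1 hy2 (by norm_num) (by norm_num) (by linarith) (by norm_num) (by norm_num) (by norm_num) (by norm_num) (by norm_num) (by norm_num) (by norm_num) (by norm_num) (by norm_num) (by norm_num) (by norm_num) (by norm_num) (by norm_num) (by norm_num) (by norm_num) (by norm_num) (by norm_num) (by norm_num) (by norm_num) (by norm_num) (by norm_num)
    (cube_sqrt_geJ (s := 0.7596) (by norm_num) (by norm_num) (by norm_num) (by norm_num))
    (cube_sqrt_geJ (s := 0.919) (by norm_num) (by norm_num) (by norm_num) (by norm_num))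
    (by norm_num) (by norm_num) (by norm_num) (by norm_num) (by norm_num) (by norm_num) (by norm_num) (by norm_num) (by norm_num) (by norm_num) (by norm_num) (by norm_num) (by norm_num) (by norm_num) (by norm_num) (by norm_num) (by norm_num) (by norm_num)
    (exp_neg_leJ (r := 0.567) 6 (by norm_num) (by norm_num) (by norm_num) (by norm_num))
    (exp_neg_leJ (r := 0.79) 3 (by norm_num) (by norm_num) (by norm_num) (by norm_num))
    (exp_neg_leJ (r := 0.831) 6 (by norm_num) (by norm_num) (by norm_num) (by norm_num))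
    (exp_neg_leJ (r := 0.99) 14 (by norm_num) (by norm_num) (by norm_num) (by norm_num))
    (exp_neg_leJ (r := 0.067) 7 (by norm_num) (by norm_num) (by norm_num) (by norm_num))
    (exp_neg_leJ (r := 0.99) 14 (by norm_num) (by norm_num) (by norm_num) (by norm_num))
    (exp_neg_leJ (r := 0.99) 14 (by norm_num) (by norm_num) (by norm_num) (by norm_num))
    (exp_neg_leJ (r := 0.99) 14 (by norm_num) (by norm_num) (by norm_num) (by norm_num))
    (by norm_num)) (by norm_num) hN hβ.le (by norm_num)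

private theorem JB6_k0c_b4_2 {β x y : ℝ} (hβ : 0 < β) (hN : β * 12.195 ≤ 1) (hx1 : 1.0195 ≤ x) (hx2 : x ≤ 1.2599)
    (hy1 : -0.498 ≤ y) (hy2 : y ≤ -0.483) : ‖HH β (x + y * I) - 1‖ ≤ 0.2 := by
  refine le_epsJ (C := 2.3856) (N0 := 12.195) (J_boxp 1.0195 1.2599 0.498 0 (-0.483) 1.0743 1.3548 1.3619 1.0481 0.4656 3.4922 12.195 1.2612 6.747 1.799 0.4758 0.5371 0.3113 0.5711 1.787 0.5781 1.9116 2.2559 3.0683 0.001432 0.0225 0.0009483 0.0000003101 0.0008683 0.0000003101 0.0000003101 0.0000003101 2.3856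
    hβ hN hx1 hx2 hy1 hy2 (by norm_num) (by norm_num) (by linarith) (by norm_num) (by norm_num) (by norm_num) (by norm_num) (by norm_num) (by norm_num) (by norm_num) (by norm_num) (by norm_num) (by norm_num) (by norm_num) (by norm_num) (by norm_num) (by norm_num) (by norm_num) (by norm_num) (by norm_num) (by norm_num) (by norm_num) (by norm_num) (by norm_num)
    (cube_sqrt_geJ (s := 0.7613) (by norm_num) (by norm_num) (by norm_num) (by norm_num))
    (cube_sqrt_geJ (s := 0.9195) (by norm_num) (by norm_num) (by norm_num) (by norm_num))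
    (by norm_num) (by norm_num) (by norm_num) (by norm_num) (by norm_num) (by norm_num) (by norm_num) (by norm_num) (by norm_num) (by norm_num) (by norm_num) (by norm_num) (by norm_num) (by norm_num) (by norm_num) (by norm_num) (by norm_num) (by norm_num)
    (exp_neg_leJ (r := 0.549) 6 (by norm_num) (by norm_num) (by norm_num) (by norm_num))
    (exp_neg_leJ (r := 0.796) 3 (by norm_num) (by norm_num) (by norm_num) (by norm_num))
    (exp_neg_leJ (r := 0.964) 6 (by norm_num) (by norm_num) (by norm_num) (by norm_num))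
    (exp_neg_leJ (r := 0.99) 14 (by norm_num) (by norm_num) (by norm_num) (by norm_num))
    (exp_neg_leJ (r := 0.049) 7 (by norm_num) (by norm_num) (by norm_num) (by norm_num))
    (exp_neg_leJ (r := 0.99) 14 (by norm_num) (by norm_num) (by norm_num) (by norm_num))
    (exp_neg_leJ (r := 0.99) 14 (by norm_num) (by norm_num) (by norm_num) (by norm_num))
    (exp_neg_leJ (r := 0.99) 14 (by norm_num) (by norm_num) (by norm_num) (by norm_num))
    (by norm_num)) (by norm_num) hN hβ.le (by norm_num)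

private theorem JB6_k0c_b4_3 {β x y : ℝ} (hβ : 0 < β) (hN : β * 12.195 ≤ 1) (hx1 : 0.9895 ≤ x) (hx2 : x ≤ 1.2496)
    (hy1 : -0.483 ≤ y) (hy2 : y ≤ -0.453) : ‖HH β (x + y * I) - 1‖ ≤ 0.2 := by
  refine le_epsJ (C := 2.4188) (N0 := 12.195) (J_boxp 0.9895 1.2496 0.483 0 (-0.453) 1.0638 1.3397 1.3641 1.0645 0.466 3.4922 12.195 1.2594 6.722 1.798 0.4936 0.5318 0.3086 0.5846 1.8413 0.5717 1.87 2.2367 3.0493 0.001527 0.02325 0.0008016 0.0000003101 0.0009418 0.0000003101 0.0000003101 0.0000003101 2.4188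
    hβ hN hx1 hx2 hy1 hy2 (by norm_num) (by norm_num) (by linarith) (by norm_num) (by norm_num) (by norm_num) (by norm_num) (by norm_num) (by norm_num) (by norm_num) (by norm_num) (by norm_num) (by norm_num) (by norm_num) (by norm_num) (by norm_num) (by norm_num) (by norm_num) (by norm_num) (by norm_num) (by norm_num) (by norm_num) (by norm_num) (by norm_num)
    (cube_sqrt_geJ (s := 0.7617) (by norm_num) (by norm_num) (by norm_num) (by norm_num))
    (cube_sqrt_geJ (s := 0.9196) (by norm_num) (by norm_num) (by norm_num) (by norm_num))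
    (by norm_num) (by norm_num) (by norm_num) (by norm_num) (by norm_num) (by norm_num) (by norm_num) (by norm_num) (by norm_num) (by norm_num) (by norm_num) (by norm_num) (by norm_num) (by norm_num) (by norm_num) (by norm_num) (by norm_num) (by norm_num)
    (exp_neg_leJ (r := 0.485) 6 (by norm_num) (by norm_num) (by norm_num) (by norm_num))
    (exp_neg_leJ (r := 0.763) 3 (by norm_num) (by norm_num) (by norm_num) (by norm_num))
    (exp_neg_leJ (r := 0.129) 7 (by norm_num) (by norm_num) (by norm_num) (by norm_num))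
    (exp_neg_leJ (r := 0.99) 14 (by norm_num) (by norm_num) (by norm_num) (by norm_num))
    (exp_neg_leJ (r := 0.971) 6 (by norm_num) (by norm_num) (by norm_num) (by norm_num))
    (exp_neg_leJ (r := 0.99) 14 (by norm_num) (by norm_num) (by norm_num) (by norm_num))
    (exp_neg_leJ (r := 0.99) 14 (by norm_num) (by norm_num) (by norm_num) (by norm_num))
    (exp_neg_leJ (r := 0.99) 14 (by norm_num) (by norm_num) (by norm_num) (by norm_num))
    (by norm_num)) (by norm_num) hN hβ.le (by norm_num)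

private theorem JB6_k0c_b4_4 {β x y : ℝ} (hβ : 0 < β) (hN : β * 12.195 ≤ 1) (hx1 : 0.9385 ≤ x) (hx2 : x ≤ 1.227)
    (hy1 : -0.453 ≤ y) (hy2 : y ≤ -0.398) : ‖HH β (x + y * I) - 1‖ ≤ 0.2 := by
  refine le_epsJ (C := 2.3995) (N0 := 12.195) (J_boxp 0.9385 1.227 0.453 0 (-0.398) 1.0492 1.308 1.3668 1.0879 0.4665 3.4922 12.195 1.2467 6.554 1.786 0.53 0.5245 0.3065 0.6144 1.951 0.5633 1.7994 2.2163 3.0335 0.001669 0.02385 0.0005577 0.0000003101 0.001042 0.0000003101 0.0000003101 0.0000003101 2.3995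
    hβ hN hx1 hx2 hy1 hy2 (by norm_num) (by norm_num) (by linarith) (by norm_num) (by norm_num) (by norm_num) (by norm_num) (by norm_num) (by norm_num) (by norm_num) (by norm_num) (by norm_num) (by norm_num) (by norm_num) (by norm_num) (by norm_num) (by norm_num) (by norm_num) (by norm_num) (by norm_num) (by norm_num) (by norm_num) (by norm_num) (by norm_num)
    (cube_sqrt_geJ (s := 0.7644) (by norm_num) (by norm_num) (by norm_num) (by norm_num))
    (cube_sqrt_geJ (s := 0.9205) (by norm_num) (by norm_num) (by norm_num) (by norm_num))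
    (by norm_num) (by norm_num) (by norm_num) (by norm_num) (by norm_num) (by norm_num) (by norm_num) (by norm_num) (by norm_num) (by norm_num) (by norm_num) (by norm_num) (by norm_num) (by norm_num) (by norm_num) (by norm_num) (by norm_num) (by norm_num)
    (exp_neg_leJ (r := 0.396) 6 (by norm_num) (by norm_num) (by norm_num) (by norm_num))
    (exp_neg_leJ (r := 0.737) 3 (by norm_num) (by norm_num) (by norm_num) (by norm_num))
    (exp_neg_leJ (r := 0.492) 7 (by norm_num) (by norm_num) (by norm_num) (by norm_num))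
    (exp_neg_leJ (r := 0.99) 14 (by norm_num) (by norm_num) (by norm_num) (by norm_num))
    (exp_neg_leJ (r := 0.869) 6 (by norm_num) (by norm_num) (by norm_num) (by norm_num))
    (exp_neg_leJ (r := 0.99) 14 (by norm_num) (by norm_num) (by norm_num) (by norm_num))
    (exp_neg_leJ (r := 0.99) 14 (by norm_num) (by norm_num) (by norm_num) (by norm_num))
    (exp_neg_leJ (r := 0.99) 14 (by norm_num) (by norm_num) (by norm_num) (by norm_num))
    (by norm_num)) (by norm_num) hN hβ.le (by norm_num)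

private theorem JB6_k0c_b4_5 {β x y : ℝ} (hβ : 0 < β) (hN : β * 12.195 ≤ 1) (hx1 : 0.8982 ≤ x) (hx2 : x ≤ 1.1729)
    (hy1 : -0.398 ≤ y) (hy2 : y ≤ -0.339) : ‖HH β (x + y * I) - 1‖ ≤ 0.2 := by
  refine le_epsJ (C := 1.8938) (N0 := 12.195) (J_boxp 0.8982 1.1729 0.398 0 (-0.339) 1.0599 1.2386 1.3464 1.0634 0.463 3.4922 12.195 1.1687 5.627 1.718 0.6016 0.5299 0.3234 0.6875 2.1591 0.5738 1.7436 2.2852 3.1416 0.001562 0.01945 0.0002286 0.0000003101 0.0009243 0.0000003101 0.0000003101 0.0000003101 1.8938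
    hβ hN hx1 hx2 hy1 hy2 (by norm_num) (by norm_num) (by linarith) (by norm_num) (by norm_num) (by norm_num) (by norm_num) (by norm_num) (by norm_num) (by norm_num) (by norm_num) (by norm_num) (by norm_num) (by norm_num) (by norm_num) (by norm_num) (by norm_num) (by norm_num) (by norm_num) (by norm_num) (by norm_num) (by norm_num) (by norm_num) (by norm_num)
    (cube_sqrt_geJ (s := 0.7813) (by norm_num) (by norm_num) (by norm_num) (by norm_num))
    (cube_sqrt_geJ (s := 0.9256) (by norm_num) (by norm_num) (by norm_num) (by norm_num))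
    (by norm_num) (by norm_num) (by norm_num) (by norm_num) (by norm_num) (by norm_num) (by norm_num) (by norm_num) (by norm_num) (by norm_num) (by norm_num) (by norm_num) (by norm_num) (by norm_num) (by norm_num) (by norm_num) (by norm_num) (by norm_num)
    (exp_neg_leJ (r := 0.462) 6 (by norm_num) (by norm_num) (by norm_num) (by norm_num))
    (exp_neg_leJ (r := 0.943) 3 (by norm_num) (by norm_num) (by norm_num) (by norm_num))
    (exp_neg_leJ (r := 0.384) 8 (by norm_num) (by norm_num) (by norm_num) (by norm_num))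
    (exp_neg_leJ (r := 0.99) 14 (by norm_num) (by norm_num) (by norm_num) (by norm_num))
    (exp_neg_leJ (r := 0.99) 6 (by norm_num) (by norm_num) (by norm_num) (by norm_num))
    (exp_neg_leJ (r := 0.99) 14 (by norm_num) (by norm_num) (by norm_num) (by norm_num))
    (exp_neg_leJ (r := 0.99) 14 (by norm_num) (by norm_num) (by norm_num) (by norm_num))
    (exp_neg_leJ (r := 0.99) 14 (by norm_num) (by norm_num) (by norm_num) (by norm_num))
    (by norm_num)) (by norm_num) hN hβ.le (by norm_num)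

private theorem JB6_k0c_c4 {κ t β : ℝ} (h : DomR κ t) (hβ : 0 < β) (hk1 : 0.7 ≤ κ) (hk2 : κ ≤ 0.82)
    (ht1 : -0.8 ≤ t + κ) (ht2 : t + κ ≤ -0.58) (hR0 : β * 10 ≤ κ) (hR : β * (4.95 * (1 + κ ^ 2)) ≤ κ) :
    ‖HH β (sg κ t) - 1‖ ≤ 0.2 := by
  have hN : β * 12.195 ≤ 1 := bNR hβ h.1 hk2 hR0 (by norm_num)
  have hy1 : -0.513 ≤ sy κ t := syL_ge h 0.7 0.82 0.8 0.513 0.59869 0.5987 0.4227 0.37454 0.43877 hk1 hk2 (by linarith) (by norm_num) (by norm_num) (by norm_num)
    (expm_ge (by norm_num) (by norm_num) (by norm_num) (by norm_num)) (expm_le (by norm_num) (by norm_num) (by norm_num)) (by norm_num)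
    (by norm_num) (by norm_num) (by norm_num) (by norm_num) (by norm_num) (by norm_num)
  have hy2 : sy κ t ≤ -0.339 := syL_le h 0.7 0.82 0.58 0.339 0.71248 0.71249 0.29454 0.34505 hk1 hk2 (by linarith) (by norm_num) (by norm_num) (by norm_num)
    (expm_ge (by norm_num) (by norm_num) (by norm_num) (by norm_num)) (expm_le (by norm_num) (by norm_num) (by norm_num)) (by norm_num)
    (by norm_num) (by norm_num) (by norm_num) (by norm_num) (by norm_num) (by norm_num)
  rcases le_total (sy κ t) (-0.508) with f0 | g0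
  · have hx1 : 1.0441 ≤ sx κ t := sx_lo h 0.7 (-0.508) 0.513 1.66196 1.0441 hk1 (by norm_num) f0 (abs_le.2 ⟨by linarith, by linarith⟩) (by rw [neg_neg]; exact expn_ge (by norm_num) (by norm_num)) (by norm_num) (by norm_num)
    have hx2 : sx κ t ≤ 1.272 := sx_hi h 0.82 (-0.513) 0.508 1.6703 1.272 hk2 hy1 (by norm_num) (by rw [abs_of_nonpos (by linarith)]; linarith) (by rw [neg_neg]; exact expn_le (by norm_num) (by norm_num) (by norm_num)) (by norm_num) (by norm_num)
    exact JB6_k0c_b4_0 hβ hN hx1 hx2 (by linarith) (by linarith)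
  rcases le_total (sy κ t) (-0.498) with f1 | g1
  · have hx1 : 1.0337 ≤ sx κ t := sx_lo h 0.7 (-0.498) 0.508 1.64542 1.0337 hk1 (by norm_num) f1 (abs_le.2 ⟨by linarith, by linarith⟩) (by rw [neg_neg]; exact expn_ge (by norm_num) (by norm_num)) (by norm_num) (by norm_num)
    have hx2 : sx κ t ≤ 1.2686 := sx_hi h 0.82 (-0.508) 0.498 1.66197 1.2686 hk2 g0 (by norm_num) (by rw [abs_of_nonpos (by linarith)]; linarith) (by rw [neg_neg]; exact expn_le (by norm_num) (by norm_num) (by norm_num)) (by norm_num) (by norm_num)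
    exact JB6_k0c_b4_1 hβ hN hx1 hx2 (by linarith) (by linarith)
  rcases le_total (sy κ t) (-0.483) with f2 | g2
  · have hx1 : 1.0195 ≤ sx κ t := sx_lo h 0.7 (-0.483) 0.498 1.62092 1.0195 hk1 (by norm_num) f2 (abs_le.2 ⟨by linarith, by linarith⟩) (by rw [neg_neg]; exact expn_ge (by norm_num) (by norm_num)) (by norm_num) (by norm_num)
    have hx2 : sx κ t ≤ 1.2599 := sx_hi h 0.82 (-0.498) 0.483 1.64543 1.2599 hk2 g1 (by norm_num) (by rw [abs_of_nonpos (by linarith)]; linarith) (by rw [neg_neg]; exact expn_le (by norm_num) (by norm_num) (by norm_num)) (by norm_num) (by norm_num)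
    exact JB6_k0c_b4_2 hβ hN hx1 hx2 (by linarith) (by linarith)
  rcases le_total (sy κ t) (-0.453) with f3 | g3
  · have hx1 : 0.9895 ≤ sx κ t := sx_lo h 0.7 (-0.453) 0.483 1.57302 0.9895 hk1 (by norm_num) f3 (abs_le.2 ⟨by linarith, by linarith⟩) (by rw [neg_neg]; exact expn_ge (by norm_num) (by norm_num)) (by norm_num) (by norm_num)
    have hx2 : sx κ t ≤ 1.2496 := sx_hi h 0.82 (-0.483) 0.453 1.62093 1.2496 hk2 g2 (by norm_num) (by rw [abs_of_nonpos (by linarith)]; linarith) (by rw [neg_neg]; exact expn_le (by norm_num) (by norm_num) (by norm_num)) (by norm_num) (by norm_num)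
    exact JB6_k0c_b4_3 hβ hN hx1 hx2 (by linarith) (by linarith)
  rcases le_total (sy κ t) (-0.398) with f4 | g4
  · have hx1 : 0.9385 ≤ sx κ t := sx_lo h 0.7 (-0.398) 0.453 1.48884 0.9385 hk1 (by norm_num) f4 (abs_le.2 ⟨by linarith, by linarith⟩) (by rw [neg_neg]; exact expn_ge (by norm_num) (by norm_num)) (by norm_num) (by norm_num)
    have hx2 : sx κ t ≤ 1.227 := sx_hi h 0.82 (-0.453) 0.398 1.57303 1.227 hk2 g3 (by norm_num) (by rw [abs_of_nonpos (by linarith)]; linarith) (by rw [neg_neg]; exact expn_le (by norm_num) (by norm_num) (by norm_num)) (by norm_num) (by norm_num)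
    exact JB6_k0c_b4_4 hβ hN hx1 hx2 (by linarith) (by linarith)
  have hx1 : 0.8982 ≤ sx κ t := sx_lo h 0.7 (-0.339) 0.398 1.40354 0.8982 hk1 (by norm_num) hy2 (abs_le.2 ⟨by linarith, by linarith⟩) (by rw [neg_neg]; exact expn_ge (by norm_num) (by norm_num)) (by norm_num) (by norm_num)
  have hx2 : sx κ t ≤ 1.1729 := sx_hi h 0.82 (-0.398) 0.339 1.48885 1.1729 hk2 g4 (by norm_num) (by rw [abs_of_nonpos (by linarith)]; linarith) (by rw [neg_neg]; exact expn_le (by norm_num) (by norm_num) (by norm_num)) (by norm_num) (by norm_num)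
  exact JB6_k0c_b4_5 hβ hN hx1 hx2 (by linarith) (by linarith)

private theorem JB6_k0c_b5_0 {β x y : ℝ} (hβ : 0 < β) (hN : β * 10.526 ≤ 1) (hx1 : 1.2404 ≤ x) (hx2 : x ≤ 1.4756)
    (hy1 : -0.492 ≤ y) (hy2 : y ≤ -0.487) : ‖HH β (x + y * I) - 1‖ ≤ 0.2 := by
  refine le_epsJ (C := 2.0767) (N0 := 10.526) (J_boxp 1.2404 1.4756 0.492 0 (-0.487) 1.2341 1.5555 1.5623 0.9118 0.4987 3.2444 10.526 1.2605 6.738 1.799 0.3984 0.617 0.3577 0.6562 1.6852 0.6887 2.2174 2.714 2.9645 0.001513 0.0232 0.001004 0.0000003101 0.0007109 0.0000003101 0.0000003101 0.0000003101 2.0767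
    hβ hN hx1 hx2 hy1 hy2 (by norm_num) (by norm_num) (by linarith) (by norm_num) (by norm_num) (by norm_num) (by norm_num) (by norm_num) (by norm_num) (by norm_num) (by norm_num) (by norm_num) (by norm_num) (by norm_num) (by norm_num) (by norm_num) (by norm_num) (by norm_num) (by norm_num) (by norm_num) (by norm_num) (by norm_num) (by norm_num) (by norm_num)
    (cube_sqrt_geJ (s := 0.7614) (by norm_num) (by norm_num) (by norm_num) (by norm_num))
    (cube_sqrt_geJ (s := 0.9196) (by norm_num) (by norm_num) (by norm_num) (by norm_num))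
    (by norm_num) (by norm_num) (by norm_num) (by norm_num) (by norm_num) (by norm_num) (by norm_num) (by norm_num) (by norm_num) (by norm_num) (by norm_num) (by norm_num) (by norm_num) (by norm_num) (by norm_num) (by norm_num) (by norm_num) (by norm_num)
    (exp_neg_leJ (r := 0.494) 6 (by norm_num) (by norm_num) (by norm_num) (by norm_num))
    (exp_neg_leJ (r := 0.765) 3 (by norm_num) (by norm_num) (by norm_num) (by norm_num))
    (exp_neg_leJ (r := 0.907) 6 (by norm_num) (by norm_num) (by norm_num) (by norm_num))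
    (exp_neg_leJ (r := 0.99) 14 (by norm_num) (by norm_num) (by norm_num) (by norm_num))
    (exp_neg_leJ (r := 0.249) 7 (by norm_num) (by norm_num) (by norm_num) (by norm_num))
    (exp_neg_leJ (r := 0.99) 14 (by norm_num) (by norm_num) (by norm_num) (by norm_num))
    (exp_neg_leJ (r := 0.99) 14 (by norm_num) (by norm_num) (by norm_num) (by norm_num))
    (exp_neg_leJ (r := 0.99) 14 (by norm_num) (by norm_num) (by norm_num) (by norm_num))
    (by norm_num)) (by norm_num) hN hβ.le (by norm_num)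

private theorem JB6_k0c_b5_1 {β x y : ℝ} (hβ : 0 < β) (hN : β * 10.526 ≤ 1) (hx1 : 1.2281 ≤ x) (hx2 : x ≤ 1.4707)
    (hy1 : -0.487 ≤ y) (hy2 : y ≤ -0.477) : ‖HH β (x + y * I) - 1‖ ≤ 0.2 := by
  refine le_epsJ (C := 2.0924) (N0 := 10.526) (J_boxp 1.2281 1.4707 0.487 0 (-0.477) 1.229 1.5493 1.561 0.9171 0.4985 3.2444 10.526 1.2607 6.74 1.799 0.4049 0.6144 0.3562 0.6599 1.7041 0.6854 2.2004 2.703 2.9568 0.001555 0.02357 0.0009653 0.0000003101 0.0007363 0.0000003101 0.0000003101 0.0000003101 2.0924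
    hβ hN hx1 hx2 hy1 hy2 (by norm_num) (by norm_num) (by linarith) (by norm_num) (by norm_num) (by norm_num) (by norm_num) (by norm_num) (by norm_num) (by norm_num) (by norm_num) (by norm_num) (by norm_num) (by norm_num) (by norm_num) (by norm_num) (by norm_num) (by norm_num) (by norm_num) (by norm_num) (by norm_num) (by norm_num) (by norm_num) (by norm_num)
    (cube_sqrt_geJ (s := 0.7614) (by norm_num) (by norm_num) (by norm_num) (by norm_num))
    (cube_sqrt_geJ (s := 0.9195) (by norm_num) (by norm_num) (by norm_num) (by norm_num))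
    (by norm_num) (by norm_num) (by norm_num) (by norm_num) (by norm_num) (by norm_num) (by norm_num) (by norm_num) (by norm_num) (by norm_num) (by norm_num) (by norm_num) (by norm_num) (by norm_num) (by norm_num) (by norm_num) (by norm_num) (by norm_num)
    (exp_neg_leJ (r := 0.467) 6 (by norm_num) (by norm_num) (by norm_num) (by norm_num))
    (exp_neg_leJ (r := 0.749) 3 (by norm_num) (by norm_num) (by norm_num) (by norm_num))
    (exp_neg_leJ (r := 0.946) 6 (by norm_num) (by norm_num) (by norm_num) (by norm_num))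
    (exp_neg_leJ (r := 0.99) 14 (by norm_num) (by norm_num) (by norm_num) (by norm_num))
    (exp_neg_leJ (r := 0.214) 7 (by norm_num) (by norm_num) (by norm_num) (by norm_num))
    (exp_neg_leJ (r := 0.99) 14 (by norm_num) (by norm_num) (by norm_num) (by norm_num))
    (exp_neg_leJ (r := 0.99) 14 (by norm_num) (by norm_num) (by norm_num) (by norm_num))
    (exp_neg_leJ (r := 0.99) 14 (by norm_num) (by norm_num) (by norm_num) (by norm_num))
    (by norm_num)) (by norm_num) hN hβ.le (by norm_num)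

private theorem JB6_k0c_b5_2 {β x y : ℝ} (hβ : 0 < β) (hN : β * 10.526 ≤ 1) (hx1 : 1.2109 ≤ x) (hx2 : x ≤ 1.4593)
    (hy1 : -0.477 ≤ y) (hy2 : y ≤ -0.462) : ‖HH β (x + y * I) - 1‖ ≤ 0.2 := by
  refine le_epsJ (C := 2.0678) (N0 := 10.526) (J_boxp 1.2109 1.4593 0.477 0 (-0.462) 1.224 1.5353 1.5554 0.921 0.4976 3.2444 10.526 1.2544 6.655 1.793 0.4185 0.6119 0.3561 0.6698 1.7427 0.6825 2.1766 2.6958 2.9604 0.001597 0.02359 0.0008675 0.0000003101 0.0007594 0.0000003101 0.0000003101 0.0000003101 2.0678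
    hβ hN hx1 hx2 hy1 hy2 (by norm_num) (by norm_num) (by linarith) (by norm_num) (by norm_num) (by norm_num) (by norm_num) (by norm_num) (by norm_num) (by norm_num) (by norm_num) (by norm_num) (by norm_num) (by norm_num) (by norm_num) (by norm_num) (by norm_num) (by norm_num) (by norm_num) (by norm_num) (by norm_num) (by norm_num) (by norm_num) (by norm_num)
    (cube_sqrt_geJ (s := 0.7628) (by norm_num) (by norm_num) (by norm_num) (by norm_num))
    (cube_sqrt_geJ (s := 0.92) (by norm_num) (by norm_num) (by norm_num) (by norm_num))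
    (by norm_num) (by norm_num) (by norm_num) (by norm_num) (by norm_num) (by norm_num) (by norm_num) (by norm_num) (by norm_num) (by norm_num) (by norm_num) (by norm_num) (by norm_num) (by norm_num) (by norm_num) (by norm_num) (by norm_num) (by norm_num)
    (exp_neg_leJ (r := 0.44) 6 (by norm_num) (by norm_num) (by norm_num) (by norm_num))
    (exp_neg_leJ (r := 0.748) 3 (by norm_num) (by norm_num) (by norm_num) (by norm_num))
    (exp_neg_leJ (r := 0.05) 7 (by norm_num) (by norm_num) (by norm_num) (by norm_num))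
    (exp_neg_leJ (r := 0.99) 14 (by norm_num) (by norm_num) (by norm_num) (by norm_num))
    (exp_neg_leJ (r := 0.183) 7 (by norm_num) (by norm_num) (by norm_num) (by norm_num))
    (exp_neg_leJ (r := 0.99) 14 (by norm_num) (by norm_num) (by norm_num) (by norm_num))
    (exp_neg_leJ (r := 0.99) 14 (by norm_num) (by norm_num) (by norm_num) (by norm_num))
    (exp_neg_leJ (r := 0.99) 14 (by norm_num) (by norm_num) (by norm_num) (by norm_num))
    (by norm_num)) (by norm_num) hN hβ.le (by norm_num)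

private theorem JB6_k0c_b5_3 {β x y : ℝ} (hβ : 0 < β) (hN : β * 10.526 ≤ 1) (hx1 : 1.1823 ≤ x) (hx2 : x ≤ 1.4432)
    (hy1 : -0.462 ≤ y) (hy2 : y ≤ -0.437) : ‖HH β (x + y * I) - 1‖ ≤ 0.2 := by
  refine le_epsJ (C := 2.0563) (N0 := 10.526) (J_boxp 1.1823 1.4432 0.462 0 (-0.437) 1.2145 1.5154 1.5492 0.93 0.4966 3.2444 10.526 1.2478 6.568 1.787 0.4385 0.6072 0.3546 0.6837 1.8001 0.6769 2.137 2.6794 2.9573 0.001677 0.02397 0.0007496 0.0000003101 0.0008048 0.0000003101 0.0000003101 0.0000003101 2.0563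
    hβ hN hx1 hx2 hy1 hy2 (by norm_num) (by norm_num) (by linarith) (by norm_num) (by norm_num) (by norm_num) (by norm_num) (by norm_num) (by norm_num) (by norm_num) (by norm_num) (by norm_num) (by norm_num) (by norm_num) (by norm_num) (by norm_num) (by norm_num) (by norm_num) (by norm_num) (by norm_num) (by norm_num) (by norm_num) (by norm_num) (by norm_num)
    (cube_sqrt_geJ (s := 0.7642) (by norm_num) (by norm_num) (by norm_num) (by norm_num))
    (cube_sqrt_geJ (s := 0.9204) (by norm_num) (by norm_num) (by norm_num) (by norm_num))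
    (by norm_num) (by norm_num) (by norm_num) (by norm_num) (by norm_num) (by norm_num) (by norm_num) (by norm_num) (by norm_num) (by norm_num) (by norm_num) (by norm_num) (by norm_num) (by norm_num) (by norm_num) (by norm_num) (by norm_num) (by norm_num)
    (exp_neg_leJ (r := 0.391) 6 (by norm_num) (by norm_num) (by norm_num) (by norm_num))
    (exp_neg_leJ (r := 0.732) 3 (by norm_num) (by norm_num) (by norm_num) (by norm_num))
    (exp_neg_leJ (r := 0.196) 7 (by norm_num) (by norm_num) (by norm_num) (by norm_num))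
    (exp_neg_leJ (r := 0.99) 14 (by norm_num) (by norm_num) (by norm_num) (by norm_num))
    (exp_neg_leJ (r := 0.125) 7 (by norm_num) (by norm_num) (by norm_num) (by norm_num))
    (exp_neg_leJ (r := 0.99) 14 (by norm_num) (by norm_num) (by norm_num) (by norm_num))
    (exp_neg_leJ (r := 0.99) 14 (by norm_num) (by norm_num) (by norm_num) (by norm_num))
    (exp_neg_leJ (r := 0.99) 14 (by norm_num) (by norm_num) (by norm_num) (by norm_num))
    (by norm_num)) (by norm_num) hN hβ.le (by norm_num)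

private theorem JB6_k0c_b5_4 {β x y : ℝ} (hβ : 0 < β) (hN : β * 10.526 ≤ 1) (hx1 : 1.1321 ≤ x) (hx2 : x ≤ 1.4175)
    (hy1 : -0.437 ≤ y) (hy2 : y ≤ -0.392) : ‖HH β (x + y * I) - 1‖ ≤ 0.2 := by
  refine le_epsJ (C := 2.06) (N0 := 10.526) (J_boxp 1.1321 1.4175 0.437 0 (-0.392) 1.1969 1.4834 1.5424 0.9485 0.4955 3.2444 10.526 1.2394 6.459 1.779 0.4715 0.5984 0.3512 0.706 1.8952 0.6661 2.0675 2.647 2.9439 0.001841 0.02485 0.0005927 0.0000003101 0.000902 0.0000003101 0.0000003101 0.0000003101 2.06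
    hβ hN hx1 hx2 hy1 hy2 (by norm_num) (by norm_num) (by linarith) (by norm_num) (by norm_num) (by norm_num) (by norm_num) (by norm_num) (by norm_num) (by norm_num) (by norm_num) (by norm_num) (by norm_num) (by norm_num) (by norm_num) (by norm_num) (by norm_num) (by norm_num) (by norm_num) (by norm_num) (by norm_num) (by norm_num) (by norm_num) (by norm_num)
    (cube_sqrt_geJ (s := 0.766) (by norm_num) (by norm_num) (by norm_num) (by norm_num))
    (cube_sqrt_geJ (s := 0.921) (by norm_num) (by norm_num) (by norm_num) (by norm_num))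
    (by norm_num) (by norm_num) (by norm_num) (by norm_num) (by norm_num) (by norm_num) (by norm_num) (by norm_num) (by norm_num) (by norm_num) (by norm_num) (by norm_num) (by norm_num) (by norm_num) (by norm_num) (by norm_num) (by norm_num) (by norm_num)
    (exp_neg_leJ (r := 0.298) 6 (by norm_num) (by norm_num) (by norm_num) (by norm_num))
    (exp_neg_leJ (r := 0.696) 3 (by norm_num) (by norm_num) (by norm_num) (by norm_num))
    (exp_neg_leJ (r := 0.431) 7 (by norm_num) (by norm_num) (by norm_num) (by norm_num))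
    (exp_neg_leJ (r := 0.99) 14 (by norm_num) (by norm_num) (by norm_num) (by norm_num))
    (exp_neg_leJ (r := 0.011) 7 (by norm_num) (by norm_num) (by norm_num) (by norm_num))
    (exp_neg_leJ (r := 0.99) 14 (by norm_num) (by norm_num) (by norm_num) (by norm_num))
    (exp_neg_leJ (r := 0.99) 14 (by norm_num) (by norm_num) (by norm_num) (by norm_num))
    (exp_neg_leJ (r := 0.99) 14 (by norm_num) (by norm_num) (by norm_num) (by norm_num))
    (by norm_num)) (by norm_num) hN hβ.le (by norm_num)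

private theorem JB6_k0c_b5_5 {β x y : ℝ} (hβ : 0 < β) (hN : β * 10.526 ≤ 1) (hx1 : 1.0686 ≤ x) (hx2 : x ≤ 1.3672)
    (hy1 : -0.392 ≤ y) (hy2 : y ≤ -0.328) : ‖HH β (x + y * I) - 1‖ ≤ 0.2 := by
  refine le_epsJ (C := 1.8854) (N0 := 10.526) (J_boxp 1.0686 1.3672 0.392 0 (-0.328) 1.1841 1.4223 1.5235 0.958 0.4925 3.2444 10.526 1.2012 5.992 1.746 0.5324 0.592 0.3549 0.7553 2.0684 0.6599 1.9795 2.6423 2.983 0.001968 0.0239 0.0003538 0.0000003101 0.0009653 0.0000003101 0.0000003101 0.0000003101 1.8854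
    hβ hN hx1 hx2 hy1 hy2 (by norm_num) (by norm_num) (by linarith) (by norm_num) (by norm_num) (by norm_num) (by norm_num) (by norm_num) (by norm_num) (by norm_num) (by norm_num) (by norm_num) (by norm_num) (by norm_num) (by norm_num) (by norm_num) (by norm_num) (by norm_num) (by norm_num) (by norm_num) (by norm_num) (by norm_num) (by norm_num) (by norm_num)
    (cube_sqrt_geJ (s := 0.7743) (by norm_num) (by norm_num) (by norm_num) (by norm_num))
    (cube_sqrt_geJ (s := 0.9235) (by norm_num) (by norm_num) (by norm_num) (by norm_num))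
    (by norm_num) (by norm_num) (by norm_num) (by norm_num) (by norm_num) (by norm_num) (by norm_num) (by norm_num) (by norm_num) (by norm_num) (by norm_num) (by norm_num) (by norm_num) (by norm_num) (by norm_num) (by norm_num) (by norm_num) (by norm_num)
    (exp_neg_leJ (r := 0.231) 6 (by norm_num) (by norm_num) (by norm_num) (by norm_num))
    (exp_neg_leJ (r := 0.735) 3 (by norm_num) (by norm_num) (by norm_num) (by norm_num))
    (exp_neg_leJ (r := 0.95) 7 (by norm_num) (by norm_num) (by norm_num) (by norm_num))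
    (exp_neg_leJ (r := 0.99) 14 (by norm_num) (by norm_num) (by norm_num) (by norm_num))
    (exp_neg_leJ (r := 0.946) 6 (by norm_num) (by norm_num) (by norm_num) (by norm_num))
    (exp_neg_leJ (r := 0.99) 14 (by norm_num) (by norm_num) (by norm_num) (by norm_num))
    (exp_neg_leJ (r := 0.99) 14 (by norm_num) (by norm_num) (by norm_num) (by norm_num))
    (exp_neg_leJ (r := 0.99) 14 (by norm_num) (by norm_num) (by norm_num) (by norm_num))
    (by norm_num)) (by norm_num) hN hβ.le (by norm_num)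

private theorem JB6_k0c_c5 {κ t β : ℝ} (h : DomR κ t) (hβ : 0 < β) (hk1 : 0.82 ≤ κ) (hk2 : κ ≤ 0.95)
    (ht1 : -0.8 ≤ t + κ) (ht2 : t + κ ≤ -0.58) (hR0 : β * 10 ≤ κ) (hR : β * (4.95 * (1 + κ ^ 2)) ≤ κ) :
    ‖HH β (sg κ t) - 1‖ ≤ 0.2 := by
  have hN : β * 10.526 ≤ 1 := bNR hβ h.1 hk2 hR0 (by norm_num)
  have hy1 : -0.492 ≤ sy κ t := syL_ge h 0.82 0.95 0.8 0.492 0.6114 0.61141 0.3459 0.31664 0.36685 hk1 hk2 (by linarith) (by norm_num) (by norm_num) (by norm_num)
    (expm_ge (by norm_num) (by norm_num) (by norm_num) (by norm_num)) (expm_le (by norm_num) (by norm_num) (by norm_num)) (by norm_num)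
    (by norm_num) (by norm_num) (by norm_num) (by norm_num) (by norm_num) (by norm_num)
  have hy2 : sy κ t ≤ -0.328 := syL_le h 0.82 0.95 0.58 0.328 0.72036 0.72037 0.24871 0.28815 hk1 hk2 (by linarith) (by norm_num) (by norm_num) (by norm_num)
    (expm_ge (by norm_num) (by norm_num) (by norm_num) (by norm_num)) (expm_le (by norm_num) (by norm_num) (by norm_num)) (by norm_num)
    (by norm_num) (by norm_num) (by norm_num) (by norm_num) (by norm_num) (by norm_num)
  rcases le_total (sy κ t) (-0.487) with f0 | g0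
  · have hx1 : 1.2404 ≤ sx κ t := sx_lo h 0.82 (-0.487) 0.492 1.62742 1.2404 hk1 (by norm_num) f0 (abs_le.2 ⟨by linarith, by linarith⟩) (by rw [neg_neg]; exact expn_ge (by norm_num) (by norm_num)) (by norm_num) (by norm_num)
    have hx2 : sx κ t ≤ 1.4756 := sx_hi h 0.95 (-0.492) 0.487 1.63559 1.4756 hk2 hy1 (by norm_num) (by rw [abs_of_nonpos (by linarith)]; linarith) (by rw [neg_neg]; exact expn_le (by norm_num) (by norm_num) (by norm_num)) (by norm_num) (by norm_num)
    exact JB6_k0c_b5_0 hβ hN hx1 hx2 (by linarith) (by linarith)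
  rcases le_total (sy κ t) (-0.477) with f1 | g1
  · have hx1 : 1.2281 ≤ sx κ t := sx_lo h 0.82 (-0.477) 0.487 1.61123 1.2281 hk1 (by norm_num) f1 (abs_le.2 ⟨by linarith, by linarith⟩) (by rw [neg_neg]; exact expn_ge (by norm_num) (by norm_num)) (by norm_num) (by norm_num)
    have hx2 : sx κ t ≤ 1.4707 := sx_hi h 0.95 (-0.487) 0.477 1.62743 1.4707 hk2 g0 (by norm_num) (by rw [abs_of_nonpos (by linarith)]; linarith) (by rw [neg_neg]; exact expn_le (by norm_num) (by norm_num) (by norm_num)) (by norm_num) (by norm_num)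
    exact JB6_k0c_b5_1 hβ hN hx1 hx2 (by linarith) (by linarith)
  rcases le_total (sy κ t) (-0.462) with f2 | g2
  · have hx1 : 1.2109 ≤ sx κ t := sx_lo h 0.82 (-0.462) 0.477 1.58724 1.2109 hk1 (by norm_num) f2 (abs_le.2 ⟨by linarith, by linarith⟩) (by rw [neg_neg]; exact expn_ge (by norm_num) (by norm_num)) (by norm_num) (by norm_num)
    have hx2 : sx κ t ≤ 1.4593 := sx_hi h 0.95 (-0.477) 0.462 1.61124 1.4593 hk2 g1 (by norm_num) (by rw [abs_of_nonpos (by linarith)]; linarith) (by rw [neg_neg]; exact expn_le (by norm_num) (by norm_num) (by norm_num)) (by norm_num) (by norm_num)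
    exact JB6_k0c_b5_2 hβ hN hx1 hx2 (by linarith) (by linarith)
  rcases le_total (sy κ t) (-0.437) with f3 | g3
  · have hx1 : 1.1823 ≤ sx κ t := sx_lo h 0.82 (-0.437) 0.462 1.54805 1.1823 hk1 (by norm_num) f3 (abs_le.2 ⟨by linarith, by linarith⟩) (by rw [neg_neg]; exact expn_ge (by norm_num) (by norm_num)) (by norm_num) (by norm_num)
    have hx2 : sx κ t ≤ 1.4432 := sx_hi h 0.95 (-0.462) 0.437 1.58725 1.4432 hk2 g2 (by norm_num) (by rw [abs_of_nonpos (by linarith)]; linarith) (by rw [neg_neg]; exact expn_le (by norm_num) (by norm_num) (by norm_num)) (by norm_num) (by norm_num)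
    exact JB6_k0c_b5_3 hβ hN hx1 hx2 (by linarith) (by linarith)
  rcases le_total (sy κ t) (-0.392) with f4 | g4
  · have hx1 : 1.1321 ≤ sx κ t := sx_lo h 0.82 (-0.392) 0.437 1.47993 1.1321 hk1 (by norm_num) f4 (abs_le.2 ⟨by linarith, by linarith⟩) (by rw [neg_neg]; exact expn_ge (by norm_num) (by norm_num)) (by norm_num) (by norm_num)
    have hx2 : sx κ t ≤ 1.4175 := sx_hi h 0.95 (-0.437) 0.392 1.54806 1.4175 hk2 g3 (by norm_num) (by rw [abs_of_nonpos (by linarith)]; linarith) (by rw [neg_neg]; exact expn_le (by norm_num) (by norm_num) (by norm_num)) (by norm_num) (by norm_num)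
    exact JB6_k0c_b5_4 hβ hN hx1 hx2 (by linarith) (by linarith)
  have hx1 : 1.0686 ≤ sx κ t := sx_lo h 0.82 (-0.328) 0.392 1.38818 1.0686 hk1 (by norm_num) hy2 (abs_le.2 ⟨by linarith, by linarith⟩) (by rw [neg_neg]; exact expn_ge (by norm_num) (by norm_num)) (by norm_num) (by norm_num)
  have hx2 : sx κ t ≤ 1.3672 := sx_hi h 0.95 (-0.392) 0.328 1.47994 1.3672 hk2 g4 (by norm_num) (by rw [abs_of_nonpos (by linarith)]; linarith) (by rw [neg_neg]; exact expn_le (by norm_num) (by norm_num) (by norm_num)) (by norm_num) (by norm_num)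
  exact JB6_k0c_b5_5 hβ hN hx1 hx2 (by linarith) (by linarith)

private theorem JB6_k0c_b6_0 {β x y : ℝ} (hβ : 0 < β) (hN : β * 9.999 ≤ 1) (hx1 : 1.2943 ≤ x) (hx2 : x ≤ 1.5485)
    (hy1 : -0.465 ≤ y) (hy2 : y ≤ -0.37) : ‖HH β (x + y * I) - 1‖ ≤ 0.2 := by
  refine le_epsJ (C := 1.9656) (N0 := 9.999) (J_boxp 1.2943 1.5485 0.465 0 (-0.37) 1.2912 1.6169 1.6718 0.8813 0.5159 3.1622 9.999 1.2523 6.628 1.791 0.3953 0.6455 0.3761 0.7173 1.7309 0.7296 2.2921 2.8952 2.9054 0.001575 0.02332 0.0007678 0.0000003101 0.000679 0.0000003101 0.0000003101 0.0000003101 1.9656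
    hβ hN hx1 hx2 hy1 hy2 (by norm_num) (by norm_num) (by linarith) (by norm_num) (by norm_num) (by norm_num) (by norm_num) (by norm_num) (by norm_num) (by norm_num) (by norm_num) (by norm_num) (by norm_num) (by norm_num) (by norm_num) (by norm_num) (by norm_num) (by norm_num) (by norm_num) (by norm_num) (by norm_num) (by norm_num) (by norm_num) (by norm_num)
    (cube_sqrt_geJ (s := 0.7632) (by norm_num) (by norm_num) (by norm_num) (by norm_num))
    (cube_sqrt_geJ (s := 0.9201) (by norm_num) (by norm_num) (by norm_num) (by norm_num))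
    (by norm_num) (by norm_num) (by norm_num) (by norm_num) (by norm_num) (by norm_num) (by norm_num) (by norm_num) (by norm_num) (by norm_num) (by norm_num) (by norm_num) (by norm_num) (by norm_num) (by norm_num) (by norm_num) (by norm_num) (by norm_num)
    (exp_neg_leJ (r := 0.454) 6 (by norm_num) (by norm_num) (by norm_num) (by norm_num))
    (exp_neg_leJ (r := 0.76) 3 (by norm_num) (by norm_num) (by norm_num) (by norm_num))
    (exp_neg_leJ (r := 0.172) 7 (by norm_num) (by norm_num) (by norm_num) (by norm_num))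
    (exp_neg_leJ (r := 0.99) 14 (by norm_num) (by norm_num) (by norm_num) (by norm_num))
    (exp_neg_leJ (r := 0.295) 7 (by norm_num) (by norm_num) (by norm_num) (by norm_num))
    (exp_neg_leJ (r := 0.99) 14 (by norm_num) (by norm_num) (by norm_num) (by norm_num))
    (exp_neg_leJ (r := 0.99) 14 (by norm_num) (by norm_num) (by norm_num) (by norm_num))
    (exp_neg_leJ (r := 0.99) 14 (by norm_num) (by norm_num) (by norm_num) (by norm_num))
    (by norm_num)) (by norm_num) hN hβ.le (by norm_num)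

private theorem JB6_k0c_b6_1 {β x y : ℝ} (hβ : 0 < β) (hN : β * 9.999 ≤ 1) (hx1 : 1.2589 ≤ x) (hx2 : x ≤ 1.4113)
    (hy1 : -0.37 ≤ y) (hy2 : y ≤ -0.323) : ‖HH β (x + y * I) - 1‖ ≤ 0.2 := by
  refine le_epsJ (C := 1.1654) (N0 := 9.999) (J_boxp 1.2589 1.4113 0.37 0 (-0.323) 1.3337 1.459 1.5653 0.8123 0.4992 3.1622 9.999 1.094 4.893 1.655 0.5357 0.6668 0.4236 0.8551 2.114 0.7643 2.243 3.0827 3.2639 0.001274 0.01449 0.0001936 0.0000003101 0.0004802 0.0000003101 0.0000003101 0.0000003101 1.1654
    hβ hN hx1 hx2 hy1 hy2 (by norm_num) (by norm_num) (by linarith) (by norm_num) (by norm_num) (by norm_num) (by norm_num) (by norm_num) (by norm_num) (by norm_num) (by norm_num) (by norm_num) (by norm_num) (by norm_num) (by norm_num) (by norm_num) (by norm_num) (by norm_num) (by norm_num) (by norm_num) (by norm_num) (by norm_num) (by norm_num) (by norm_num)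
    (cube_sqrt_geJ (s := 0.797) (by norm_num) (by norm_num) (by norm_num) (by norm_num))
    (cube_sqrt_geJ (s := 0.9306) (by norm_num) (by norm_num) (by norm_num) (by norm_num))
    (by norm_num) (by norm_num) (by norm_num) (by norm_num) (by norm_num) (by norm_num) (by norm_num) (by norm_num) (by norm_num) (by norm_num) (by norm_num) (by norm_num) (by norm_num) (by norm_num) (by norm_num) (by norm_num) (by norm_num) (by norm_num)
    (exp_neg_leJ (r := 0.667) 6 (by norm_num) (by norm_num) (by norm_num) (by norm_num))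
    (exp_neg_leJ (r := 0.235) 4 (by norm_num) (by norm_num) (by norm_num) (by norm_num))
    (exp_neg_leJ (r := 0.55) 8 (by norm_num) (by norm_num) (by norm_num) (by norm_num))
    (exp_neg_leJ (r := 0.99) 14 (by norm_num) (by norm_num) (by norm_num) (by norm_num))
    (exp_neg_leJ (r := 0.642) 7 (by norm_num) (by norm_num) (by norm_num) (by norm_num))
    (exp_neg_leJ (r := 0.99) 14 (by norm_num) (by norm_num) (by norm_num) (by norm_num))
    (exp_neg_leJ (r := 0.99) 14 (by norm_num) (by norm_num) (by norm_num) (by norm_num))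
    (exp_neg_leJ (r := 0.99) 14 (by norm_num) (by norm_num) (by norm_num) (by norm_num))
    (by norm_num)) (by norm_num) hN hβ.le (by norm_num)

private theorem JB6_k0c_c6 {κ t β : ℝ} (h : DomR κ t) (hβ : 0 < β) (hk1 : 0.95 ≤ κ) (hk2 : κ ≤ 1)
    (ht1 : -0.8 ≤ t + κ) (ht2 : t + κ ≤ -0.58) (hR0 : β * 10 ≤ κ) (hR : β * (4.95 * (1 + κ ^ 2)) ≤ κ) :
    ‖HH β (sg κ t) - 1‖ ≤ 0.2 := by
  have hN : β * 9.999 ≤ 1 := bNR hβ h.1 hk2 hR0 (by norm_num)
  have hy1 : -0.465 ≤ sy κ t := syL_ge h 0.95 1 0.8 0.465 0.62813 0.62814 0.2946 0.29208 0.30746 hk1 hk2 (by linarith) (by norm_num) (by norm_num) (by norm_num)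
    (expm_ge (by norm_num) (by norm_num) (by norm_num) (by norm_num)) (expm_le (by norm_num) (by norm_num) (by norm_num)) (by norm_num)
    (by norm_num) (by norm_num) (by norm_num) (by norm_num) (by norm_num) (by norm_num)
  have hy2 : sy κ t ≤ -0.323 := syL_le h 0.95 1 0.58 0.323 0.72397 0.72398 0.23384 0.24616 hk1 hk2 (by linarith) (by norm_num) (by norm_num) (by norm_num)
    (expm_ge (by norm_num) (by norm_num) (by norm_num) (by norm_num)) (expm_le (by norm_num) (by norm_num) (by norm_num)) (by norm_num)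
    (by norm_num) (by norm_num) (by norm_num) (by norm_num) (by norm_num) (by norm_num)
  rcases le_total (sy κ t) (-0.37) with f0 | g0
  · have hx1 : 1.2943 ≤ sx κ t := sx_lo h 0.95 (-0.37) 0.465 1.44773 1.2943 hk1 (by norm_num) f0 (abs_le.2 ⟨by linarith, by linarith⟩) (by rw [neg_neg]; exact expn_ge (by norm_num) (by norm_num)) (by norm_num) (by norm_num)
    have hx2 : sx κ t ≤ 1.5485 := sx_hi h 1 (-0.465) 0.37 1.59202 1.5485 hk2 hy1 (by norm_num) (by rw [abs_of_nonpos (by linarith)]; linarith) (by rw [neg_neg]; exact expn_le (by norm_num) (by norm_num) (by norm_num)) (by norm_num) (by norm_num)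
    exact JB6_k0c_b6_0 hβ hN hx1 hx2 (by linarith) (by linarith)
  have hx1 : 1.2589 ≤ sx κ t := sx_lo h 0.95 (-0.323) 0.37 1.38126 1.2589 hk1 (by norm_num) hy2 (abs_le.2 ⟨by linarith, by linarith⟩) (by rw [neg_neg]; exact expn_ge (by norm_num) (by norm_num)) (by norm_num) (by norm_num)
  have hx2 : sx κ t ≤ 1.4113 := sx_hi h 1 (-0.37) 0.323 1.44774 1.4113 hk2 g0 (by norm_num) (by rw [abs_of_nonpos (by linarith)]; linarith) (by rw [neg_neg]; exact expn_le (by norm_num) (by norm_num) (by norm_num)) (by norm_num) (by norm_num)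
  exact JB6_k0c_b6_1 hβ hN hx1 hx2 (by linarith) (by linarith)

private theorem JB6_k0c_b7_0 {β x y : ℝ} (hβ : 0 < β) (hN : β * 9.899 ≤ 1) (hx1 : 1.5008 ≤ x) (hx2 : x ≤ 1.8209)
    (hy1 : -0.455 ≤ y) (hy2 : y ≤ -0.45) : ‖HH β (x + y * I) - 1‖ ≤ 0.2 := by
  refine le_epsJ (C := 1.9557) (N0 := 9.899) (J_boxp 1.5008 1.8209 0.455 0 (-0.45) 1.4437 1.8769 1.9022 0.7951 0.5503 3.1463 9.899 1.3001 7.303 1.835 0.2997 0.7218 0.409 0.8038 1.6081 0.8354 2.578 3.3354 2.6117 0.0007889 0.01746 0.0003517 0.0000003101 0.0002564 0.0000003101 0.0000003101 0.0000003101 1.9557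
    hβ hN hx1 hx2 hy1 hy2 (by norm_num) (by norm_num) (by linarith) (by norm_num) (by norm_num) (by norm_num) (by norm_num) (by norm_num) (by norm_num) (by norm_num) (by norm_num) (by norm_num) (by norm_num) (by norm_num) (by norm_num) (by norm_num) (by norm_num) (by norm_num) (by norm_num) (by norm_num) (by norm_num) (by norm_num) (by norm_num) (by norm_num)
    (cube_sqrt_geJ (s := 0.7527) (by norm_num) (by norm_num) (by norm_num) (by norm_num))
    (cube_sqrt_geJ (s := 0.9169) (by norm_num) (by norm_num) (by norm_num) (by norm_num))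
    (by norm_num) (by norm_num) (by norm_num) (by norm_num) (by norm_num) (by norm_num) (by norm_num) (by norm_num) (by norm_num) (by norm_num) (by norm_num) (by norm_num) (by norm_num) (by norm_num) (by norm_num) (by norm_num) (by norm_num) (by norm_num)
    (exp_neg_leJ (r := 0.145) 7 (by norm_num) (by norm_num) (by norm_num) (by norm_num))
    (exp_neg_leJ (r := 0.048) 4 (by norm_num) (by norm_num) (by norm_num) (by norm_num))
    (exp_neg_leJ (r := 0.956) 7 (by norm_num) (by norm_num) (by norm_num) (by norm_num))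
    (exp_neg_leJ (r := 0.99) 14 (by norm_num) (by norm_num) (by norm_num) (by norm_num))
    (exp_neg_leJ (r := 0.269) 8 (by norm_num) (by norm_num) (by norm_num) (by norm_num))
    (exp_neg_leJ (r := 0.99) 14 (by norm_num) (by norm_num) (by norm_num) (by norm_num))
    (exp_neg_leJ (r := 0.99) 14 (by norm_num) (by norm_num) (by norm_num) (by norm_num))
    (exp_neg_leJ (r := 0.99) 14 (by norm_num) (by norm_num) (by norm_num) (by norm_num))
    (by norm_num)) (by norm_num) hN hβ.le (by norm_num)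

private theorem JB6_k0c_b7_1 {β x y : ℝ} (hβ : 0 < β) (hN : β * 9.899 ≤ 1) (hx1 : 1.486 ≤ x) (hx2 : x ≤ 1.8137)
    (hy1 : -0.45 ≤ y) (hy2 : y ≤ -0.44) : ‖HH β (x + y * I) - 1‖ ≤ 0.2 := by
  refine le_epsJ (C := 1.9733) (N0 := 9.899) (J_boxp 1.486 1.8137 0.45 0 (-0.44) 1.4368 1.8687 1.8982 0.8 0.5497 3.1463 9.899 1.3006 7.31 1.836 0.3071 0.7183 0.4069 0.8066 1.6282 0.8309 2.5575 3.3194 2.6044 0.000817 0.01783 0.0003421 0.0000003101 0.0002679 0.0000003101 0.0000003101 0.0000003101 1.9733
    hβ hN hx1 hx2 hy1 hy2 (by norm_num) (by norm_num) (by linarith) (by norm_num) (by norm_num) (by norm_num) (by norm_num) (by norm_num) (by norm_num) (by norm_num) (by norm_num) (by norm_num) (by norm_num) (by norm_num) (by norm_num) (by norm_num) (by norm_num) (by norm_num) (by norm_num) (by norm_num) (by norm_num) (by norm_num) (by norm_num) (by norm_num)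
    (cube_sqrt_geJ (s := 0.7526) (by norm_num) (by norm_num) (by norm_num) (by norm_num))
    (cube_sqrt_geJ (s := 0.9169) (by norm_num) (by norm_num) (by norm_num) (by norm_num))
    (by norm_num) (by norm_num) (by norm_num) (by norm_num) (by norm_num) (by norm_num) (by norm_num) (by norm_num) (by norm_num) (by norm_num) (by norm_num) (by norm_num) (by norm_num) (by norm_num) (by norm_num) (by norm_num) (by norm_num) (by norm_num)
    (exp_neg_leJ (r := 0.11) 7 (by norm_num) (by norm_num) (by norm_num) (by norm_num))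
    (exp_neg_leJ (r := 0.027) 4 (by norm_num) (by norm_num) (by norm_num) (by norm_num))
    (exp_neg_leJ (r := 0.984) 7 (by norm_num) (by norm_num) (by norm_num) (by norm_num))
    (exp_neg_leJ (r := 0.99) 14 (by norm_num) (by norm_num) (by norm_num) (by norm_num))
    (exp_neg_leJ (r := 0.225) 8 (by norm_num) (by norm_num) (by norm_num) (by norm_num))
    (exp_neg_leJ (r := 0.99) 14 (by norm_num) (by norm_num) (by norm_num) (by norm_num))
    (exp_neg_leJ (r := 0.99) 14 (by norm_num) (by norm_num) (by norm_num) (by norm_num))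
    (exp_neg_leJ (r := 0.99) 14 (by norm_num) (by norm_num) (by norm_num) (by norm_num))
    (by norm_num)) (by norm_num) hN hβ.le (by norm_num)

private theorem JB6_k0c_b7_2 {β x y : ℝ} (hβ : 0 < β) (hN : β * 9.899 ≤ 1) (hx1 : 1.4649 ≤ x) (hx2 : x ≤ 1.7982)
    (hy1 : -0.44 ≤ y) (hy2 : y ≤ -0.425) : ‖HH β (x + y * I) - 1‖ ≤ 0.2 := by
  refine le_epsJ (C := 1.9587) (N0 := 9.899) (J_boxp 1.4649 1.7982 0.44 0 (-0.425) 1.4291 1.8513 1.8879 0.8043 0.5482 3.1463 9.899 1.2955 7.234 1.831 0.3223 0.7145 0.4059 0.8152 1.6691 0.8261 2.5283 3.3044 2.6095 0.0008486 0.01799 0.0003131 0.0000003101 0.0002811 0.0000003101 0.0000003101 0.0000003101 1.9587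
    hβ hN hx1 hx2 hy1 hy2 (by norm_num) (by norm_num) (by linarith) (by norm_num) (by norm_num) (by norm_num) (by norm_num) (by norm_num) (by norm_num) (by norm_num) (by norm_num) (by norm_num) (by norm_num) (by norm_num) (by norm_num) (by norm_num) (by norm_num) (by norm_num) (by norm_num) (by norm_num) (by norm_num) (by norm_num) (by norm_num) (by norm_num)
    (cube_sqrt_geJ (s := 0.7537) (by norm_num) (by norm_num) (by norm_num) (by norm_num))
    (cube_sqrt_geJ (s := 0.9172) (by norm_num) (by norm_num) (by norm_num) (by norm_num))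
    (by norm_num) (by norm_num) (by norm_num) (by norm_num) (by norm_num) (by norm_num) (by norm_num) (by norm_num) (by norm_num) (by norm_num) (by norm_num) (by norm_num) (by norm_num) (by norm_num) (by norm_num) (by norm_num) (by norm_num) (by norm_num)
    (exp_neg_leJ (r := 0.072) 7 (by norm_num) (by norm_num) (by norm_num) (by norm_num))
    (exp_neg_leJ (r := 0.018) 4 (by norm_num) (by norm_num) (by norm_num) (by norm_num))
    (exp_neg_leJ (r := 0.069) 8 (by norm_num) (by norm_num) (by norm_num) (by norm_num))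
    (exp_neg_leJ (r := 0.99) 14 (by norm_num) (by norm_num) (by norm_num) (by norm_num))
    (exp_neg_leJ (r := 0.177) 8 (by norm_num) (by norm_num) (by norm_num) (by norm_num))
    (exp_neg_leJ (r := 0.99) 14 (by norm_num) (by norm_num) (by norm_num) (by norm_num))
    (exp_neg_leJ (r := 0.99) 14 (by norm_num) (by norm_num) (by norm_num) (by norm_num))
    (exp_neg_leJ (r := 0.99) 14 (by norm_num) (by norm_num) (by norm_num) (by norm_num))
    (by norm_num)) (by norm_num) hN hβ.le (by norm_num)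

private theorem JB6_k0c_b7_3 {β x y : ℝ} (hβ : 0 < β) (hN : β * 9.899 ≤ 1) (hx1 : 1.43 ≤ x) (hx2 : x ≤ 1.7758)
    (hy1 : -0.425 ≤ y) (hy2 : y ≤ -0.4) : ‖HH β (x + y * I) - 1‖ ≤ 0.2 := by
  refine le_epsJ (C := 1.9587) (N0 := 9.899) (J_boxp 1.43 1.7758 0.425 0 (-0.4) 1.4152 1.826 1.8745 0.8133 0.5463 3.1463 9.899 1.2903 7.157 1.826 0.3448 0.7075 0.4032 0.8269 1.7299 0.8174 2.4799 3.2754 2.6084 0.0009092 0.01857 0.0002789 0.0000003101 0.0003063 0.0000003101 0.0000003101 0.0000003101 1.9587
    hβ hN hx1 hx2 hy1 hy2 (by norm_num) (by norm_num) (by linarith) (by norm_num) (by norm_num) (by norm_num) (by norm_num) (by norm_num) (by norm_num) (by norm_num) (by norm_num) (by norm_num) (by norm_num) (by norm_num) (by norm_num) (by norm_num) (by norm_num) (by norm_num) (by norm_num) (by norm_num) (by norm_num) (by norm_num) (by norm_num) (by norm_num)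
    (cube_sqrt_geJ (s := 0.7549) (by norm_num) (by norm_num) (by norm_num) (by norm_num))
    (cube_sqrt_geJ (s := 0.9176) (by norm_num) (by norm_num) (by norm_num) (by norm_num))
    (by norm_num) (by norm_num) (by norm_num) (by norm_num) (by norm_num) (by norm_num) (by norm_num) (by norm_num) (by norm_num) (by norm_num) (by norm_num) (by norm_num) (by norm_num) (by norm_num) (by norm_num) (by norm_num) (by norm_num) (by norm_num)
    (exp_neg_leJ (r := 0.003) 7 (by norm_num) (by norm_num) (by norm_num) (by norm_num))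
    (exp_neg_leJ (r := 0.99) 3 (by norm_num) (by norm_num) (by norm_num) (by norm_num))
    (exp_neg_leJ (r := 0.185) 8 (by norm_num) (by norm_num) (by norm_num) (by norm_num))
    (exp_neg_leJ (r := 0.99) 14 (by norm_num) (by norm_num) (by norm_num) (by norm_num))
    (exp_neg_leJ (r := 0.091) 8 (by norm_num) (by norm_num) (by norm_num) (by norm_num))
    (exp_neg_leJ (r := 0.99) 14 (by norm_num) (by norm_num) (by norm_num) (by norm_num))
    (exp_neg_leJ (r := 0.99) 14 (by norm_num) (by norm_num) (by norm_num) (by norm_num))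
    (exp_neg_leJ (r := 0.99) 14 (by norm_num) (by norm_num) (by norm_num) (by norm_num))
    (by norm_num)) (by norm_num) hN hβ.le (by norm_num)

private theorem JB6_k0c_b7_4 {β x y : ℝ} (hβ : 0 < β) (hN : β * 9.899 ≤ 1) (hx1 : 1.3689 ≤ x) (hx2 : x ≤ 1.7395)
    (hy1 : -0.4 ≤ y) (hy2 : y ≤ -0.355) : ‖HH β (x + y * I) - 1‖ ≤ 0.2 := by
  refine le_epsJ (C := 1.9789) (N0 := 9.899) (J_boxp 1.3689 1.7395 0.4 0 (-0.355) 1.3899 1.7849 1.8553 0.8313 0.5434 3.1463 9.899 1.2842 7.069 1.82 0.3818 0.6949 0.3974 0.8454 1.8307 0.8014 2.3953 3.2211 2.598 0.001033 0.01964 0.0002322 0.0000003101 0.0003597 0.0000003101 0.0000003101 0.0000003101 1.9789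
    hβ hN hx1 hx2 hy1 hy2 (by norm_num) (by norm_num) (by linarith) (by norm_num) (by norm_num) (by norm_num) (by norm_num) (by norm_num) (by norm_num) (by norm_num) (by norm_num) (by norm_num) (by norm_num) (by norm_num) (by norm_num) (by norm_num) (by norm_num) (by norm_num) (by norm_num) (by norm_num) (by norm_num) (by norm_num) (by norm_num) (by norm_num)
    (cube_sqrt_geJ (s := 0.7562) (by norm_num) (by norm_num) (by norm_num) (by norm_num))
    (cube_sqrt_geJ (s := 0.918) (by norm_num) (by norm_num) (by norm_num) (by norm_num))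
    (by norm_num) (by norm_num) (by norm_num) (by norm_num) (by norm_num) (by norm_num) (by norm_num) (by norm_num) (by norm_num) (by norm_num) (by norm_num) (by norm_num) (by norm_num) (by norm_num) (by norm_num) (by norm_num) (by norm_num) (by norm_num)
    (exp_neg_leJ (r := 0.878) 6 (by norm_num) (by norm_num) (by norm_num) (by norm_num))
    (exp_neg_leJ (r := 0.933) 3 (by norm_num) (by norm_num) (by norm_num) (by norm_num))
    (exp_neg_leJ (r := 0.368) 8 (by norm_num) (by norm_num) (by norm_num) (by norm_num))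
    (exp_neg_leJ (r := 0.99) 14 (by norm_num) (by norm_num) (by norm_num) (by norm_num))
    (exp_neg_leJ (r := 0.933) 7 (by norm_num) (by norm_num) (by norm_num) (by norm_num))
    (exp_neg_leJ (r := 0.99) 14 (by norm_num) (by norm_num) (by norm_num) (by norm_num))
    (exp_neg_leJ (r := 0.99) 14 (by norm_num) (by norm_num) (by norm_num) (by norm_num))
    (exp_neg_leJ (r := 0.99) 14 (by norm_num) (by norm_num) (by norm_num) (by norm_num))
    (by norm_num)) (by norm_num) hN hβ.le (by norm_num)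

private theorem JB6_k0c_b7_5 {β x y : ℝ} (hβ : 0 < β) (hN : β * 9.899 ≤ 1) (hx1 : 1.3051 ≤ x) (hx2 : x ≤ 1.6701)
    (hy1 : -0.355 ≤ y) (hy2 : y ≤ -0.302) : ‖HH β (x + y * I) - 1‖ ≤ 0.2 := by
  refine le_epsJ (C := 1.7632) (N0 := 9.899) (J_boxp 1.3051 1.6701 0.355 0 (-0.302) 1.3769 1.7075 1.8101 0.8328 0.5368 3.1463 9.899 1.2402 6.47 1.78 0.45 0.6884 0.4038 0.8946 2.0142 0.795 2.307 3.2159 2.6808 0.0011 0.01857 0.000143 0.0000003101 0.0003832 0.0000003101 0.0000003101 0.0000003101 1.7632
    hβ hN hx1 hx2 hy1 hy2 (by norm_num) (by norm_num) (by linarith) (by norm_num) (by norm_num) (by norm_num) (by norm_num) (by norm_num) (by norm_num) (by norm_num) (by norm_num) (by norm_num) (by norm_num) (by norm_num) (by norm_num) (by norm_num) (by norm_num) (by norm_num) (by norm_num) (by norm_num) (by norm_num) (by norm_num) (by norm_num) (by norm_num)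
    (cube_sqrt_geJ (s := 0.7658) (by norm_num) (by norm_num) (by norm_num) (by norm_num))
    (cube_sqrt_geJ (s := 0.9209) (by norm_num) (by norm_num) (by norm_num) (by norm_num))
    (by norm_num) (by norm_num) (by norm_num) (by norm_num) (by norm_num) (by norm_num) (by norm_num) (by norm_num) (by norm_num) (by norm_num) (by norm_num) (by norm_num) (by norm_num) (by norm_num) (by norm_num) (by norm_num) (by norm_num) (by norm_num)
    (exp_neg_leJ (r := 0.814) 6 (by norm_num) (by norm_num) (by norm_num) (by norm_num))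
    (exp_neg_leJ (r := 0.99) 3 (by norm_num) (by norm_num) (by norm_num) (by norm_num))
    (exp_neg_leJ (r := 0.855) 8 (by norm_num) (by norm_num) (by norm_num) (by norm_num))
    (exp_neg_leJ (r := 0.99) 14 (by norm_num) (by norm_num) (by norm_num) (by norm_num))
    (exp_neg_leJ (r := 0.869) 7 (by norm_num) (by norm_num) (by norm_num) (by norm_num))
    (exp_neg_leJ (r := 0.99) 14 (by norm_num) (by norm_num) (by norm_num) (by norm_num))
    (exp_neg_leJ (r := 0.99) 14 (by norm_num) (by norm_num) (by norm_num) (by norm_num))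
    (exp_neg_leJ (r := 0.99) 14 (by norm_num) (by norm_num) (by norm_num) (by norm_num))
    (by norm_num)) (by norm_num) hN hβ.le (by norm_num)

private theorem JB6_k0c_c7 {κ t β : ℝ} (h : DomR κ t) (hβ : 0 < β) (hk1 : 1 ≤ κ) (hk2 : κ ≤ 1.19)
    (ht1 : -0.8 ≤ t + κ) (ht2 : t + κ ≤ -0.58) (hR0 : β * 10 ≤ κ) (hR : β * (4.95 * (1 + κ ^ 2)) ≤ κ) :
    ‖HH β (sg κ t) - 1‖ ≤ 0.2 := by
  have hN : β * 9.899 ≤ 1 := bNC' hβ hk1 (by norm_num) (by norm_num) hR (by norm_num)
  have hy1 : -0.455 ≤ sy κ t := syL_ge h 1 1.19 0.8 0.455 0.63444 0.63445 0.2733 0.24257 0.28868 hk1 hk2 (by linarith) (by norm_num) (by norm_num) (by norm_num)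
    (expm_ge (by norm_num) (by norm_num) (by norm_num) (by norm_num)) (expm_le (by norm_num) (by norm_num) (by norm_num)) (by norm_num)
    (by norm_num) (by norm_num) (by norm_num) (by norm_num) (by norm_num) (by norm_num)
  have hy2 : sy κ t ≤ -0.302 := syL_le h 1 1.19 0.58 0.302 0.73933 0.73934 0.18762 0.22329 hk1 hk2 (by linarith) (by norm_num) (by norm_num) (by norm_num)
    (expm_ge (by norm_num) (by norm_num) (by norm_num) (by norm_num)) (expm_le (by norm_num) (by norm_num) (by norm_num)) (by norm_num)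
    (by norm_num) (by norm_num) (by norm_num) (by norm_num) (by norm_num) (by norm_num)
  rcases le_total (sy κ t) (-0.45) with f0 | g0
  · have hx1 : 1.5008 ≤ sx κ t := sx_lo h 1 (-0.45) 0.455 1.56831 1.5008 hk1 (by norm_num) f0 (abs_le.2 ⟨by linarith, by linarith⟩) (by rw [neg_neg]; exact expn_ge (by norm_num) (by norm_num)) (by norm_num) (by norm_num)
    have hx2 : sx κ t ≤ 1.8209 := sx_hi h 1.19 (-0.455) 0.45 1.57618 1.8209 hk2 hy1 (by norm_num) (by rw [abs_of_nonpos (by linarith)]; linarith) (by rw [neg_neg]; exact expn_le (by norm_num) (by norm_num) (by norm_num)) (by norm_num) (by norm_num)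
    exact JB6_k0c_b7_0 hβ hN hx1 hx2 (by linarith) (by linarith)
  rcases le_total (sy κ t) (-0.44) with f1 | g1
  · have hx1 : 1.486 ≤ sx κ t := sx_lo h 1 (-0.44) 0.45 1.5527 1.486 hk1 (by norm_num) f1 (abs_le.2 ⟨by linarith, by linarith⟩) (by rw [neg_neg]; exact expn_ge (by norm_num) (by norm_num)) (by norm_num) (by norm_num)
    have hx2 : sx κ t ≤ 1.8137 := sx_hi h 1.19 (-0.45) 0.44 1.56832 1.8137 hk2 g0 (by norm_num) (by rw [abs_of_nonpos (by linarith)]; linarith) (by rw [neg_neg]; exact expn_le (by norm_num) (by norm_num) (by norm_num)) (by norm_num) (by norm_num)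
    exact JB6_k0c_b7_1 hβ hN hx1 hx2 (by linarith) (by linarith)
  rcases le_total (sy κ t) (-0.425) with f2 | g2
  · have hx1 : 1.4649 ≤ sx κ t := sx_lo h 1 (-0.425) 0.44 1.52958 1.4649 hk1 (by norm_num) f2 (abs_le.2 ⟨by linarith, by linarith⟩) (by rw [neg_neg]; exact expn_ge (by norm_num) (by norm_num)) (by norm_num) (by norm_num)
    have hx2 : sx κ t ≤ 1.7982 := sx_hi h 1.19 (-0.44) 0.425 1.55271 1.7982 hk2 g1 (by norm_num) (by rw [abs_of_nonpos (by linarith)]; linarith) (by rw [neg_neg]; exact expn_le (by norm_num) (by norm_num) (by norm_num)) (by norm_num) (by norm_num)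
    exact JB6_k0c_b7_2 hβ hN hx1 hx2 (by linarith) (by linarith)
  rcases le_total (sy κ t) (-0.4) with f3 | g3
  · have hx1 : 1.43 ≤ sx κ t := sx_lo h 1 (-0.4) 0.425 1.49182 1.43 hk1 (by norm_num) f3 (abs_le.2 ⟨by linarith, by linarith⟩) (by rw [neg_neg]; exact expn_ge (by norm_num) (by norm_num)) (by norm_num) (by norm_num)
    have hx2 : sx κ t ≤ 1.7758 := sx_hi h 1.19 (-0.425) 0.4 1.5296 1.7758 hk2 g2 (by norm_num) (by rw [abs_of_nonpos (by linarith)]; linarith) (by rw [neg_neg]; exact expn_le (by norm_num) (by norm_num) (by norm_num)) (by norm_num) (by norm_num)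
    exact JB6_k0c_b7_3 hβ hN hx1 hx2 (by linarith) (by linarith)
  rcases le_total (sy κ t) (-0.355) with f4 | g4
  · have hx1 : 1.3689 ≤ sx κ t := sx_lo h 1 (-0.355) 0.4 1.42618 1.3689 hk1 (by norm_num) f4 (abs_le.2 ⟨by linarith, by linarith⟩) (by rw [neg_neg]; exact expn_ge (by norm_num) (by norm_num)) (by norm_num) (by norm_num)
    have hx2 : sx κ t ≤ 1.7395 := sx_hi h 1.19 (-0.4) 0.355 1.49183 1.7395 hk2 g3 (by norm_num) (by rw [abs_of_nonpos (by linarith)]; linarith) (by rw [neg_neg]; exact expn_le (by norm_num) (by norm_num) (by norm_num)) (by norm_num) (by norm_num)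
    exact JB6_k0c_b7_4 hβ hN hx1 hx2 (by linarith) (by linarith)
  have hx1 : 1.3051 ≤ sx κ t := sx_lo h 1 (-0.302) 0.355 1.35256 1.3051 hk1 (by norm_num) hy2 (abs_le.2 ⟨by linarith, by linarith⟩) (by rw [neg_neg]; exact expn_ge (by norm_num) (by norm_num)) (by norm_num) (by norm_num)
  have hx2 : sx κ t ≤ 1.6701 := sx_hi h 1.19 (-0.355) 0.302 1.42619 1.6701 hk2 g4 (by norm_num) (by rw [abs_of_nonpos (by linarith)]; linarith) (by rw [neg_neg]; exact expn_le (by norm_num) (by norm_num) (by norm_num)) (by norm_num) (by norm_num)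
  exact JB6_k0c_b7_5 hβ hN hx1 hx2 (by linarith) (by linarith)

private theorem JB6_k0c_b8_0 {β x y : ℝ} (hβ : 0 < β) (hN : β * 10.05 ≤ 1) (hx1 : 1.6589 ≤ x) (hx2 : x ≤ 2.0799)
    (hy1 : -0.418 ≤ y) (hy2 : y ≤ -0.363) : ‖HH β (x + y * I) - 1‖ ≤ 0.2 := by
  refine le_epsJ (C := 1.9922) (N0 := 10.05) (J_boxp 1.6589 2.0799 0.418 0 (-0.363) 1.5813 2.1215 2.1753 0.7418 0.5884 3.1702 10.05 1.3417 7.965 1.875 0.2343 0.7906 0.437 0.9163 1.5784 0.9324 2.7969 3.7522 2.263 0.0003555 0.01239 0.0001003 0.0000003101 0.00008525 0.0000003101 0.0000003101 0.0000003101 1.9922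
    hβ hN hx1 hx2 hy1 hy2 (by norm_num) (by norm_num) (by linarith) (by norm_num) (by norm_num) (by norm_num) (by norm_num) (by norm_num) (by norm_num) (by norm_num) (by norm_num) (by norm_num) (by norm_num) (by norm_num) (by norm_num) (by norm_num) (by norm_num) (by norm_num) (by norm_num) (by norm_num) (by norm_num) (by norm_num) (by norm_num) (by norm_num)
    (cube_sqrt_geJ (s := 0.7434) (by norm_num) (by norm_num) (by norm_num) (by norm_num))
    (cube_sqrt_geJ (s := 0.9141) (by norm_num) (by norm_num) (by norm_num) (by norm_num))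
    (by norm_num) (by norm_num) (by norm_num) (by norm_num) (by norm_num) (by norm_num) (by norm_num) (by norm_num) (by norm_num) (by norm_num) (by norm_num) (by norm_num) (by norm_num) (by norm_num) (by norm_num) (by norm_num) (by norm_num) (by norm_num)
    (exp_neg_leJ (r := 0.945) 7 (by norm_num) (by norm_num) (by norm_num) (by norm_num))
    (exp_neg_leJ (r := 0.391) 4 (by norm_num) (by norm_num) (by norm_num) (by norm_num))
    (exp_neg_leJ (r := 0.208) 9 (by norm_num) (by norm_num) (by norm_num) (by norm_num))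
    (exp_neg_leJ (r := 0.99) 14 (by norm_num) (by norm_num) (by norm_num) (by norm_num))
    (exp_neg_leJ (r := 0.37) 9 (by norm_num) (by norm_num) (by norm_num) (by norm_num))
    (exp_neg_leJ (r := 0.99) 14 (by norm_num) (by norm_num) (by norm_num) (by norm_num))
    (exp_neg_leJ (r := 0.99) 14 (by norm_num) (by norm_num) (by norm_num) (by norm_num))
    (exp_neg_leJ (r := 0.99) 14 (by norm_num) (by norm_num) (by norm_num) (by norm_num))
    (by norm_num)) (by norm_num) hN hβ.le (by norm_num)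

private theorem JB6_k0c_b8_1 {β x y : ℝ} (hβ : 0 < β) (hN : β * 10.05 ≤ 1) (hx1 : 1.5304 ≤ x) (hx2 : x ≤ 1.9788)
    (hy1 : -0.363 ≤ y) (hy2 : y ≤ -0.279) : ‖HH β (x + y * I) - 1‖ ≤ 0.2 := by
  refine le_epsJ (C := 1.9259) (N0 := 10.05) (J_boxp 1.5304 1.9788 0.363 0 (-0.279) 1.5299 2.0119 2.1061 0.767 0.579 3.1702 10.05 1.3151 7.533 1.849 0.3239 0.7649 0.4296 0.9591 1.8117 0.9 2.619 3.6447 2.3039 0.0004591 0.01335 0.00006524 0.0000003101 0.0001181 0.0000003101 0.0000003101 0.0000003101 1.9259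
    hβ hN hx1 hx2 hy1 hy2 (by norm_num) (by norm_num) (by linarith) (by norm_num) (by norm_num) (by norm_num) (by norm_num) (by norm_num) (by norm_num) (by norm_num) (by norm_num) (by norm_num) (by norm_num) (by norm_num) (by norm_num) (by norm_num) (by norm_num) (by norm_num) (by norm_num) (by norm_num) (by norm_num) (by norm_num) (by norm_num) (by norm_num)
    (cube_sqrt_geJ (s := 0.7494) (by norm_num) (by norm_num) (by norm_num) (by norm_num))
    (cube_sqrt_geJ (s := 0.9159) (by norm_num) (by norm_num) (by norm_num) (by norm_num))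
    (by norm_num) (by norm_num) (by norm_num) (by norm_num) (by norm_num) (by norm_num) (by norm_num) (by norm_num) (by norm_num) (by norm_num) (by norm_num) (by norm_num) (by norm_num) (by norm_num) (by norm_num) (by norm_num) (by norm_num) (by norm_num)
    (exp_neg_leJ (r := 0.687) 7 (by norm_num) (by norm_num) (by norm_num) (by norm_num))
    (exp_neg_leJ (r := 0.317) 4 (by norm_num) (by norm_num) (by norm_num) (by norm_num))
    (exp_neg_leJ (r := 0.638) 9 (by norm_num) (by norm_num) (by norm_num) (by norm_num))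
    (exp_neg_leJ (r := 0.99) 14 (by norm_num) (by norm_num) (by norm_num) (by norm_num))
    (exp_neg_leJ (r := 0.044) 9 (by norm_num) (by norm_num) (by norm_num) (by norm_num))
    (exp_neg_leJ (r := 0.99) 14 (by norm_num) (by norm_num) (by norm_num) (by norm_num))
    (exp_neg_leJ (r := 0.99) 14 (by norm_num) (by norm_num) (by norm_num) (by norm_num))
    (exp_neg_leJ (r := 0.99) 14 (by norm_num) (by norm_num) (by norm_num) (by norm_num))
    (by norm_num)) (by norm_num) hN hβ.le (by norm_num)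

private theorem JB6_k0c_c8 {κ t β : ℝ} (h : DomR κ t) (hβ : 0 < β) (hk1 : 1.19 ≤ κ) (hk2 : κ ≤ 1.39)
    (ht1 : -0.8 ≤ t + κ) (ht2 : t + κ ≤ -0.58) (hR0 : β * 10 ≤ κ) (hR : β * (4.95 * (1 + κ ^ 2)) ≤ κ) :
    ‖HH β (sg κ t) - 1‖ ≤ 0.2 := by
  have hN : β * 10.05 ≤ 1 := bNC' hβ hk1 (by norm_num) (by norm_num) hR (by norm_num)
  have hy1 : -0.418 ≤ sy κ t := syL_ge h 1.19 1.39 0.8 0.418 0.65836 0.65837 0.2118 0.19798 0.23126 hk1 hk2 (by linarith) (by norm_num) (by norm_num) (by norm_num)
    (expm_ge (by norm_num) (by norm_num) (by norm_num) (by norm_num)) (expm_le (by norm_num) (by norm_num) (by norm_num)) (by norm_num)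
    (by norm_num) (by norm_num) (by norm_num) (by norm_num) (by norm_num) (by norm_num)
  have hy2 : sy κ t ≤ -0.279 := syL_le h 1.19 1.39 0.58 0.279 0.75653 0.75654 0.15185 0.17738 hk1 hk2 (by linarith) (by norm_num) (by norm_num) (by norm_num)
    (expm_ge (by norm_num) (by norm_num) (by norm_num) (by norm_num)) (expm_le (by norm_num) (by norm_num) (by norm_num)) (by norm_num)
    (by norm_num) (by norm_num) (by norm_num) (by norm_num) (by norm_num) (by norm_num)
  rcases le_total (sy κ t) (-0.363) with f0 | g0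
  · have hx1 : 1.6589 ≤ sx κ t := sx_lo h 1.19 (-0.363) 0.418 1.43763 1.6589 hk1 (by norm_num) f0 (abs_le.2 ⟨by linarith, by linarith⟩) (by rw [neg_neg]; exact expn_ge (by norm_num) (by norm_num)) (by norm_num) (by norm_num)
    have hx2 : sx κ t ≤ 2.0799 := sx_hi h 1.39 (-0.418) 0.363 1.51893 2.0799 hk2 hy1 (by norm_num) (by rw [abs_of_nonpos (by linarith)]; linarith) (by rw [neg_neg]; exact expn_le (by norm_num) (by norm_num) (by norm_num)) (by norm_num) (by norm_num)
    exact JB6_k0c_b8_0 hβ hN hx1 hx2 (by linarith) (by linarith)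
  have hx1 : 1.5304 ≤ sx κ t := sx_lo h 1.19 (-0.279) 0.363 1.3218 1.5304 hk1 (by norm_num) hy2 (abs_le.2 ⟨by linarith, by linarith⟩) (by rw [neg_neg]; exact expn_ge (by norm_num) (by norm_num)) (by norm_num) (by norm_num)
  have hx2 : sx κ t ≤ 1.9788 := sx_hi h 1.39 (-0.363) 0.279 1.43764 1.9788 hk2 g0 (by norm_num) (by rw [abs_of_nonpos (by linarith)]; linarith) (by rw [neg_neg]; exact expn_le (by norm_num) (by norm_num) (by norm_num)) (by norm_num) (by norm_num)
  exact JB6_k0c_b8_1 hβ hN hx1 hx2 (by linarith) (by linarith)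

theorem JB6_k0c {κ t β : ℝ} (h : DomR κ t) (hβ : 0 < β) (hk1 : 0.3 ≤ κ) (hk2 : κ ≤ 1.39)
    (ht1 : -0.8 ≤ t + κ) (ht2 : t + κ ≤ -0.58) (hR0 : β * 10 ≤ κ) (hR : β * (4.95 * (1 + κ ^ 2)) ≤ κ) :
    ‖HH β (sg κ t) - 1‖ ≤ 0.2 := by
  rcases le_total κ 0.4 with f0 | g0
  · exact JB6_k0c_c0 h hβ hk1 f0 ht1 ht2 hR0 hR
  rcases le_total κ 0.49 with f1 | g1
  · exact JB6_k0c_c1 h hβ g0 f1 ht1 ht2 hR0 hR
  rcases le_total κ 0.59 with f2 | g2
  · exact JB6_k0c_c2 h hβ g1 f2 ht1 ht2 hR0 hR
  rcases le_total κ 0.7 with f3 | g3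
  · exact JB6_k0c_c3 h hβ g2 f3 ht1 ht2 hR0 hR
  rcases le_total κ 0.82 with f4 | g4
  · exact JB6_k0c_c4 h hβ g3 f4 ht1 ht2 hR0 hR
  rcases le_total κ 0.95 with f5 | g5
  · exact JB6_k0c_c5 h hβ g4 f5 ht1 ht2 hR0 hR
  rcases le_total κ 1 with f6 | g6
  · exact JB6_k0c_c6 h hβ g5 f6 ht1 ht2 hR0 hR
  rcases le_total κ 1.19 with f7 | g7
  · exact JB6_k0c_c7 h hβ g6 f7 ht1 ht2 hR0 hR
  exact JB6_k0c_c8 h hβ g7 hk2 ht1 ht2 hR0 hR

end Sok
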