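import Pool.Agent.Lib.MP_816dec_an.JBG2

/-!
MP_816dec_an (A3, row R1): tables b = 6, real points.
-/

set_option autoImplicit false
set_option maxHeartbeats 4000000

open Complex Set

namespace Sok

private theorem JB6_k0e_b0_0 {β x y : ℝ} (hβ : 0 < β) (hN : β * 20.408 ≤ 1) (hx1 : 0.2605 ≤ x) (hx2 : x ≤ 0.597)
    (hy1 : -0.31 ≤ y) (hy2 : y ≤ -0.3) : ‖HH β (x + y * I) - 1‖ ≤ 0.095 := by
  refine le_epsJ (C := 1.9301) (N0 := 20.408) (J_boxp 0.2605 0.597 0.31 0 (-0.3) 0.6733 0.6727 0.9201 1.7363 0.3827 4.5176 20.408 0.9992 4.129 1.579 0.9043 0.3366 0.2245 0.6081 2.7655 0.3122 0.8606 1.249 3.4044 0.001042 0.01025 0.000004078 0.0000003101 0.001711 0.0000003101 0.0000003101 0.0000003101 1.9301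
    hβ hN hx1 hx2 hy1 hy2 (by norm_num) (by norm_num) (by linarith) (by norm_num) (by norm_num) (by norm_num) (by norm_num) (by norm_num) (by norm_num) (by norm_num) (by norm_num) (by norm_num) (by norm_num) (by norm_num) (by norm_num) (by norm_num) (by norm_num) (by norm_num) (by norm_num) (by norm_num) (by norm_num) (by norm_num) (by norm_num) (by norm_num)
    (cube_sqrt_geJ (s := 0.8166) (by norm_num) (by norm_num) (by norm_num) (by norm_num))
    (cube_sqrt_geJ (s := 0.9368) (by norm_num) (by norm_num) (by norm_num) (by norm_num))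
    (by norm_num) (by norm_num) (by norm_num) (by norm_num) (by norm_num) (by norm_num) (by norm_num) (by norm_num) (by norm_num) (by norm_num) (by norm_num) (by norm_num) (by norm_num) (by norm_num) (by norm_num) (by norm_num) (by norm_num) (by norm_num)
    (exp_neg_leJ (r := 0.869) 6 (by norm_num) (by norm_num) (by norm_num) (by norm_num))
    (exp_neg_leJ (r := 0.581) 4 (by norm_num) (by norm_num) (by norm_num) (by norm_num))
    (exp_neg_leJ (r := 0.41) 12 (by norm_num) (by norm_num) (by norm_num) (by norm_num))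
    (exp_neg_leJ (r := 0.99) 14 (by norm_num) (by norm_num) (by norm_num) (by norm_num))
    (exp_neg_leJ (r := 0.371) 6 (by norm_num) (by norm_num) (by norm_num) (by norm_num))
    (exp_neg_leJ (r := 0.99) 14 (by norm_num) (by norm_num) (by norm_num) (by norm_num))
    (exp_neg_leJ (r := 0.99) 14 (by norm_num) (by norm_num) (by norm_num) (by norm_num))
    (exp_neg_leJ (r := 0.99) 14 (by norm_num) (by norm_num) (by norm_num) (by norm_num))
    (by norm_num)) (by norm_num) hN hβ.le (by norm_num)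

private theorem JB6_k0e_b0_1 {β x y : ℝ} (hβ : 0 < β) (hN : β * 20.408 ≤ 1) (hx1 : 0.2538 ≤ x) (hx2 : x ≤ 0.6039)
    (hy1 : -0.3 ≤ y) (hy2 : y ≤ -0.27) : ‖HH β (x + y * I) - 1‖ ≤ 0.095 := by
  refine le_epsJ (C := 1.9387) (N0 := 20.408) (J_boxp 0.2538 0.6039 0.3 0 (-0.27) 0.6757 0.6744 0.9475 1.7526 0.3884 4.5176 20.408 0.9981 4.121 1.579 0.9109 0.3378 0.2254 0.6216 2.7943 0.3144 0.8514 1.2628 3.3864 0.001018 0.01007 0.0000031 0.0000003101 0.001636 0.0000003101 0.0000003101 0.0000003101 1.9387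
    hβ hN hx1 hx2 hy1 hy2 (by norm_num) (by norm_num) (by linarith) (by norm_num) (by norm_num) (by norm_num) (by norm_num) (by norm_num) (by norm_num) (by norm_num) (by norm_num) (by norm_num) (by norm_num) (by norm_num) (by norm_num) (by norm_num) (by norm_num) (by norm_num) (by norm_num) (by norm_num) (by norm_num) (by norm_num) (by norm_num) (by norm_num)
    (cube_sqrt_geJ (s := 0.8168) (by norm_num) (by norm_num) (by norm_num) (by norm_num))
    (cube_sqrt_geJ (s := 0.9369) (by norm_num) (by norm_num) (by norm_num) (by norm_num))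
    (by norm_num) (by norm_num) (by norm_num) (by norm_num) (by norm_num) (by norm_num) (by norm_num) (by norm_num) (by norm_num) (by norm_num) (by norm_num) (by norm_num) (by norm_num) (by norm_num) (by norm_num) (by norm_num) (by norm_num) (by norm_num)
    (exp_neg_leJ (r := 0.893) 6 (by norm_num) (by norm_num) (by norm_num) (by norm_num))
    (exp_neg_leJ (r := 0.599) 4 (by norm_num) (by norm_num) (by norm_num) (by norm_num))
    (exp_neg_leJ (r := 0.685) 12 (by norm_num) (by norm_num) (by norm_num) (by norm_num))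
    (exp_neg_leJ (r := 0.99) 14 (by norm_num) (by norm_num) (by norm_num) (by norm_num))
    (exp_neg_leJ (r := 0.416) 6 (by norm_num) (by norm_num) (by norm_num) (by norm_num))
    (exp_neg_leJ (r := 0.99) 14 (by norm_num) (by norm_num) (by norm_num) (by norm_num))
    (exp_neg_leJ (r := 0.99) 14 (by norm_num) (by norm_num) (by norm_num) (by norm_num))
    (exp_neg_leJ (r := 0.99) 14 (by norm_num) (by norm_num) (by norm_num) (by norm_num))
    (by norm_num)) (by norm_num) hN hβ.le (by norm_num)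

private theorem JB6_k0e_b0_2 {β x y : ℝ} (hβ : 0 < β) (hN : β * 20.408 ≤ 1) (hx1 : 0.2341 ≤ x) (hx2 : x ≤ 0.6176)
    (hy1 : -0.27 ≤ y) (hy2 : y ≤ -0.175) : ‖HH β (x + y * I) - 1‖ ≤ 0.095 := by
  refine le_epsJ (C := 1.9164) (N0 := 20.408) (J_boxp 0.2341 0.6176 0.27 0 (-0.175) 0.6831 0.6741 1.0306 1.7982 0.4051 4.5176 20.408 0.9869 4.041 1.57 0.9333 0.3415 0.2291 0.6622 2.8843 0.3212 0.8241 1.3049 3.3478 0.0009437 0.009332 0.000001353 0.0000003101 0.001424 0.0000003101 0.0000003101 0.0000003101 1.9164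
    hβ hN hx1 hx2 hy1 hy2 (by norm_num) (by norm_num) (by linarith) (by norm_num) (by norm_num) (by norm_num) (by norm_num) (by norm_num) (by norm_num) (by norm_num) (by norm_num) (by norm_num) (by norm_num) (by norm_num) (by norm_num) (by norm_num) (by norm_num) (by norm_num) (by norm_num) (by norm_num) (by norm_num) (by norm_num) (by norm_num) (by norm_num)
    (cube_sqrt_geJ (s := 0.8191) (by norm_num) (by norm_num) (by norm_num) (by norm_num))
    (cube_sqrt_geJ (s := 0.9376) (by norm_num) (by norm_num) (by norm_num) (by norm_num))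
    (by norm_num) (by norm_num) (by norm_num) (by norm_num) (by norm_num) (by norm_num) (by norm_num) (by norm_num) (by norm_num) (by norm_num) (by norm_num) (by norm_num) (by norm_num) (by norm_num) (by norm_num) (by norm_num) (by norm_num) (by norm_num)
    (exp_neg_leJ (r := 0.969) 6 (by norm_num) (by norm_num) (by norm_num) (by norm_num))
    (exp_neg_leJ (r := 0.675) 4 (by norm_num) (by norm_num) (by norm_num) (by norm_num))
    (exp_neg_leJ (r := 0.514) 13 (by norm_num) (by norm_num) (by norm_num) (by norm_num))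
    (exp_neg_leJ (r := 0.99) 14 (by norm_num) (by norm_num) (by norm_num) (by norm_num))
    (exp_neg_leJ (r := 0.555) 6 (by norm_num) (by norm_num) (by norm_num) (by norm_num))
    (exp_neg_leJ (r := 0.99) 14 (by norm_num) (by norm_num) (by norm_num) (by norm_num))
    (exp_neg_leJ (r := 0.99) 14 (by norm_num) (by norm_num) (by norm_num) (by norm_num))
    (exp_neg_leJ (r := 0.99) 14 (by norm_num) (by norm_num) (by norm_num) (by norm_num))
    (by norm_num)) (by norm_num) hN hβ.le (by norm_num)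

private theorem JB6_k0e_b0_3 {β x y : ℝ} (hβ : 0 < β) (hN : β * 20.408 ≤ 1) (hx1 : 0.2994 ≤ x) (hx2 : x ≤ 0.5655)
    (hy1 : -0.175 ≤ y) (hy2 : y ≤ -0.145) : ‖HH β (x + y * I) - 1‖ ≤ 0.095 := by
  refine le_epsJ (C := 0.6985) (N0 := 20.408) (J_boxp 0.2994 0.5655 0.175 0 (-0.145) 0.7966 0.592 1.0251 1.4241 0.404 4.5176 20.408 0.7432 2.709 1.397 1.041 0.3982 0.2996 0.8345 3.2207 0.4048 0.9145 1.6937 3.7016 0.0002958 0.002212 0.0000003101 0.0000003101 0.0002585 0.0000003101 0.0000003101 0.0000003101 0.6985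
    hβ hN hx1 hx2 hy1 hy2 (by norm_num) (by norm_num) (by linarith) (by norm_num) (by norm_num) (by norm_num) (by norm_num) (by norm_num) (by norm_num) (by norm_num) (by norm_num) (by norm_num) (by norm_num) (by norm_num) (by norm_num) (by norm_num) (by norm_num) (by norm_num) (by norm_num) (by norm_num) (by norm_num) (by norm_num) (by norm_num) (by norm_num)
    (cube_sqrt_geJ (s := 0.8673) (by norm_num) (by norm_num) (by norm_num) (by norm_num))
    (cube_sqrt_geJ (s := 0.9534) (by norm_num) (by norm_num) (by norm_num) (by norm_num))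
    (by norm_num) (by norm_num) (by norm_num) (by norm_num) (by norm_num) (by norm_num) (by norm_num) (by norm_num) (by norm_num) (by norm_num) (by norm_num) (by norm_num) (by norm_num) (by norm_num) (by norm_num) (by norm_num) (by norm_num) (by norm_num)
    (exp_neg_leJ (r := 0.126) 8 (by norm_num) (by norm_num) (by norm_num) (by norm_num))
    (exp_neg_leJ (r := 0.114) 6 (by norm_num) (by norm_num) (by norm_num) (by norm_num))
    (exp_neg_leJ (r := 0.99) 14 (by norm_num) (by norm_num) (by norm_num) (by norm_num))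
    (exp_neg_leJ (r := 0.99) 14 (by norm_num) (by norm_num) (by norm_num) (by norm_num))
    (exp_neg_leJ (r := 0.261) 8 (by norm_num) (by norm_num) (by norm_num) (by norm_num))
    (exp_neg_leJ (r := 0.99) 14 (by norm_num) (by norm_num) (by norm_num) (by norm_num))
    (exp_neg_leJ (r := 0.99) 14 (by norm_num) (by norm_num) (by norm_num) (by norm_num))
    (exp_neg_leJ (r := 0.99) 14 (by norm_num) (by norm_num) (by norm_num) (by norm_num))
    (by norm_num)) (by norm_num) hN hβ.le (by norm_num)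

private theorem JB6_k0e_c0 {κ t β : ℝ} (h : DomR κ t) (hβ : 0 < β) (hk1 : 0.3 ≤ κ) (hk2 : κ ≤ 0.49)
    (ht1 : -0.58 ≤ t + κ) (ht2 : t + κ ≤ -0.45) (hR0 : β * 10 ≤ κ) (hR : β * (4.95 * (1 + κ ^ 2)) ≤ κ) :
    ‖HH β (sg κ t) - 1‖ ≤ 0.095 := by
  have hN : β * 20.408 ≤ 1 := bNR hβ h.1 hk2 hR0 (by norm_num)
  have hy1 : -0.31 ≤ sy κ t := syL_ge h 0.3 0.49 0.58 0.31 0.73344 0.73345 0.464 0.46401 0.7579 hk1 hk2 (by linarith) (by norm_num) (by norm_num) (by norm_num)
    (expm_ge (by norm_num) (by norm_num) (by norm_num) (by norm_num)) (expm_le (by norm_num) (by norm_num) (by norm_num)) (by norm_num)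
    (by norm_num) (by norm_num) (by norm_num) (by norm_num) (by norm_num) (by norm_num)
  have hy2 : sy κ t ≤ -0.145 := syL_le h 0.3 0.49 0.45 0.145 0.86502 0.86503 0.25597 0.4181 hk1 hk2 (by linarith) (by norm_num) (by norm_num) (by norm_num)
    (expm_ge (by norm_num) (by norm_num) (by norm_num) (by norm_num)) (expm_le (by norm_num) (by norm_num) (by norm_num)) (by norm_num)
    (by norm_num) (by norm_num) (by norm_num) (by norm_num) (by norm_num) (by norm_num)
  rcases le_total (sy κ t) (-0.3) with f0 | g0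
  · have hx1 : 0.2605 ≤ sx κ t := sx_lo h 0.3 (-0.3) 0.31 1.34985 0.2605 hk1 (by norm_num) f0 (abs_le.2 ⟨by linarith, by linarith⟩) (by rw [neg_neg]; exact expn_ge (by norm_num) (by norm_num)) (by norm_num) (by norm_num)
    have hx2 : sx κ t ≤ 0.597 := sx_hi h 0.49 (-0.31) 0.3 1.36343 0.597 hk2 hy1 (by norm_num) (by rw [abs_of_nonpos (by linarith)]; linarith) (by rw [neg_neg]; exact expn_le (by norm_num) (by norm_num) (by norm_num)) (by norm_num) (by norm_num)
    exact JB6_k0e_b0_0 hβ hN hx1 hx2 (by linarith) (by linarith)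
  rcases le_total (sy κ t) (-0.27) with f1 | g1
  · have hx1 : 0.2538 ≤ sx κ t := sx_lo h 0.3 (-0.27) 0.3 1.30996 0.2538 hk1 (by norm_num) f1 (abs_le.2 ⟨by linarith, by linarith⟩) (by rw [neg_neg]; exact expn_ge (by norm_num) (by norm_num)) (by norm_num) (by norm_num)
    have hx2 : sx κ t ≤ 0.6039 := sx_hi h 0.49 (-0.3) 0.27 1.34986 0.6039 hk2 g0 (by norm_num) (by rw [abs_of_nonpos (by linarith)]; linarith) (by rw [neg_neg]; exact expn_le (by norm_num) (by norm_num) (by norm_num)) (by norm_num) (by norm_num)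
    exact JB6_k0e_b0_1 hβ hN hx1 hx2 (by linarith) (by linarith)
  rcases le_total (sy κ t) (-0.175) with f2 | g2
  · have hx1 : 0.2341 ≤ sx κ t := sx_lo h 0.3 (-0.175) 0.27 1.19124 0.2341 hk1 (by norm_num) f2 (abs_le.2 ⟨by linarith, by linarith⟩) (by rw [neg_neg]; exact expn_ge (by norm_num) (by norm_num)) (by norm_num) (by norm_num)
    have hx2 : sx κ t ≤ 0.6176 := sx_hi h 0.49 (-0.27) 0.175 1.30997 0.6176 hk2 g1 (by norm_num) (by rw [abs_of_nonpos (by linarith)]; linarith) (by rw [neg_neg]; exact expn_le (by norm_num) (by norm_num) (by norm_num)) (by norm_num) (by norm_num)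
    exact JB6_k0e_b0_2 hβ hN hx1 hx2 (by linarith) (by linarith)
  have hx1 : 0.2994 ≤ sx κ t := sx_lo h 0.3 (-0.145) 0.175 1.15603 0.2994 hk1 (by norm_num) hy2 (abs_le.2 ⟨by linarith, by linarith⟩) (by rw [neg_neg]; exact expn_ge (by norm_num) (by norm_num)) (by norm_num) (by norm_num)
  have hx2 : sx κ t ≤ 0.5655 := sx_hi h 0.49 (-0.175) 0.145 1.19125 0.5655 hk2 g2 (by norm_num) (by rw [abs_of_nonpos (by linarith)]; linarith) (by rw [neg_neg]; exact expn_le (by norm_num) (by norm_num) (by norm_num)) (by norm_num) (by norm_num)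
  exact JB6_k0e_b0_3 hβ hN hx1 hx2 (by linarith) (by linarith)

private theorem JB6_k0e_b1_0 {β x y : ℝ} (hβ : 0 < β) (hN : β * 15.624 ≤ 1) (hx1 : 0.5911 ≤ x) (hx2 : x ≤ 0.8376)
    (hy1 : -0.342 ≤ y) (hy2 : y ≤ -0.332) : ‖HH β (x + y * I) - 1‖ ≤ 0.095 := by
  refine le_epsJ (C := 1.4655) (N0 := 15.624) (J_boxp 0.5911 0.8376 0.342 0 (-0.332) 0.8834 0.9048 1.0714 1.2467 0.413 3.9528 15.624 1.0243 4.315 1.599 0.7822 0.4416 0.2908 0.6707 2.5283 0.4553 1.3184 1.8232 3.4347 0.001012 0.01065 0.00002813 0.0000003101 0.0008145 0.0000003101 0.0000003101 0.0000003101 1.4655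
    hβ hN hx1 hx2 hy1 hy2 (by norm_num) (by norm_num) (by linarith) (by norm_num) (by norm_num) (by norm_num) (by norm_num) (by norm_num) (by norm_num) (by norm_num) (by norm_num) (by norm_num) (by norm_num) (by norm_num) (by norm_num) (by norm_num) (by norm_num) (by norm_num) (by norm_num) (by norm_num) (by norm_num) (by norm_num) (by norm_num) (by norm_num)
    (cube_sqrt_geJ (s := 0.8115) (by norm_num) (by norm_num) (by norm_num) (by norm_num))
    (cube_sqrt_geJ (s := 0.9351) (by norm_num) (by norm_num) (by norm_num) (by norm_num))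
    (by norm_num) (by norm_num) (by norm_num) (by norm_num) (by norm_num) (by norm_num) (by norm_num) (by norm_num) (by norm_num) (by norm_num) (by norm_num) (by norm_num) (by norm_num) (by norm_num) (by norm_num) (by norm_num) (by norm_num) (by norm_num)
    (exp_neg_leJ (r := 0.899) 6 (by norm_num) (by norm_num) (by norm_num) (by norm_num))
    (exp_neg_leJ (r := 0.543) 4 (by norm_num) (by norm_num) (by norm_num) (by norm_num))
    (exp_neg_leJ (r := 0.479) 10 (by norm_num) (by norm_num) (by norm_num) (by norm_num))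
    (exp_neg_leJ (r := 0.99) 14 (by norm_num) (by norm_num) (by norm_num) (by norm_num))
    (exp_neg_leJ (r := 0.113) 7 (by norm_num) (by norm_num) (by norm_num) (by norm_num))
    (exp_neg_leJ (r := 0.99) 14 (by norm_num) (by norm_num) (by norm_num) (by norm_num))
    (exp_neg_leJ (r := 0.99) 14 (by norm_num) (by norm_num) (by norm_num) (by norm_num))
    (exp_neg_leJ (r := 0.99) 14 (by norm_num) (by norm_num) (by norm_num) (by norm_num))
    (by norm_num)) (by norm_num) hN hβ.le (by norm_num)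

private theorem JB6_k0e_b1_1 {β x y : ℝ} (hβ : 0 < β) (hN : β * 15.624 ≤ 1) (hx1 : 0.5774 ≤ x) (hx2 : x ≤ 0.8376)
    (hy1 : -0.332 ≤ y) (hy2 : y ≤ -0.307) : ‖HH β (x + y * I) - 1‖ ≤ 0.095 := by
  refine le_epsJ (C := 1.4793) (N0 := 15.624) (J_boxp 0.5774 0.8376 0.332 0 (-0.307) 0.8808 0.901 1.0872 1.2614 0.416 3.9528 15.624 1.023 4.305 1.598 0.7915 0.4403 0.2902 0.6818 2.5607 0.4541 1.2994 1.823 3.4177 0.001032 0.01075 0.00002367 0.0000003101 0.0008301 0.0000003101 0.0000003101 0.0000003101 1.4793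
    hβ hN hx1 hx2 hy1 hy2 (by norm_num) (by norm_num) (by linarith) (by norm_num) (by norm_num) (by norm_num) (by norm_num) (by norm_num) (by norm_num) (by norm_num) (by norm_num) (by norm_num) (by norm_num) (by norm_num) (by norm_num) (by norm_num) (by norm_num) (by norm_num) (by norm_num) (by norm_num) (by norm_num) (by norm_num) (by norm_num) (by norm_num)
    (cube_sqrt_geJ (s := 0.8117) (by norm_num) (by norm_num) (by norm_num) (by norm_num))
    (cube_sqrt_geJ (s := 0.9352) (by norm_num) (by norm_num) (by norm_num) (by norm_num))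
    (by norm_num) (by norm_num) (by norm_num) (by norm_num) (by norm_num) (by norm_num) (by norm_num) (by norm_num) (by norm_num) (by norm_num) (by norm_num) (by norm_num) (by norm_num) (by norm_num) (by norm_num) (by norm_num) (by norm_num) (by norm_num)
    (exp_neg_leJ (r := 0.879) 6 (by norm_num) (by norm_num) (by norm_num) (by norm_num))
    (exp_neg_leJ (r := 0.534) 4 (by norm_num) (by norm_num) (by norm_num) (by norm_num))
    (exp_neg_leJ (r := 0.652) 10 (by norm_num) (by norm_num) (by norm_num) (by norm_num))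
    (exp_neg_leJ (r := 0.99) 14 (by norm_num) (by norm_num) (by norm_num) (by norm_num))
    (exp_neg_leJ (r := 0.094) 7 (by norm_num) (by norm_num) (by norm_num) (by norm_num))
    (exp_neg_leJ (r := 0.99) 14 (by norm_num) (by norm_num) (by norm_num) (by norm_num))
    (exp_neg_leJ (r := 0.99) 14 (by norm_num) (by norm_num) (by norm_num) (by norm_num))
    (exp_neg_leJ (r := 0.99) 14 (by norm_num) (by norm_num) (by norm_num) (by norm_num))
    (by norm_num)) (by norm_num) hN hβ.le (by norm_num)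

private theorem JB6_k0e_b1_2 {β x y : ℝ} (hβ : 0 < β) (hN : β * 15.624 ≤ 1) (hx1 : 0.547 ≤ x) (hx2 : x ≤ 0.8342)
    (hy1 : -0.307 ≤ y) (hy2 : y ≤ -0.247) : ‖HH β (x + y * I) - 1‖ ≤ 0.095 := by
  refine le_epsJ (C := 1.477) (N0 := 15.624) (J_boxp 0.547 0.8342 0.307 0 (-0.247) 0.8772 0.8889 1.1238 1.2904 0.423 3.9528 15.624 1.0134 4.233 1.59 0.8158 0.4385 0.2904 0.7109 2.6435 0.453 1.2573 1.8301 3.3898 0.001061 0.01071 0.00001501 0.0000003101 0.0008444 0.0000003101 0.0000003101 0.0000003101 1.477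
    hβ hN hx1 hx2 hy1 hy2 (by norm_num) (by norm_num) (by linarith) (by norm_num) (by norm_num) (by norm_num) (by norm_num) (by norm_num) (by norm_num) (by norm_num) (by norm_num) (by norm_num) (by norm_num) (by norm_num) (by norm_num) (by norm_num) (by norm_num) (by norm_num) (by norm_num) (by norm_num) (by norm_num) (by norm_num) (by norm_num) (by norm_num)
    (cube_sqrt_geJ (s := 0.8137) (by norm_num) (by norm_num) (by norm_num) (by norm_num))
    (cube_sqrt_geJ (s := 0.9359) (by norm_num) (by norm_num) (by norm_num) (by norm_num))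
    (by norm_num) (by norm_num) (by norm_num) (by norm_num) (by norm_num) (by norm_num) (by norm_num) (by norm_num) (by norm_num) (by norm_num) (by norm_num) (by norm_num) (by norm_num) (by norm_num) (by norm_num) (by norm_num) (by norm_num) (by norm_num)
    (exp_neg_leJ (r := 0.851) 6 (by norm_num) (by norm_num) (by norm_num) (by norm_num))
    (exp_neg_leJ (r := 0.537) 4 (by norm_num) (by norm_num) (by norm_num) (by norm_num))
    (exp_neg_leJ (r := 0.107) 11 (by norm_num) (by norm_num) (by norm_num) (by norm_num))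
    (exp_neg_leJ (r := 0.99) 14 (by norm_num) (by norm_num) (by norm_num) (by norm_num))
    (exp_neg_leJ (r := 0.077) 7 (by norm_num) (by norm_num) (by norm_num) (by norm_num))
    (exp_neg_leJ (r := 0.99) 14 (by norm_num) (by norm_num) (by norm_num) (by norm_num))
    (exp_neg_leJ (r := 0.99) 14 (by norm_num) (by norm_num) (by norm_num) (by norm_num))
    (exp_neg_leJ (r := 0.99) 14 (by norm_num) (by norm_num) (by norm_num) (by norm_num))
    (by norm_num)) (by norm_num) hN hβ.le (by norm_num)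

private theorem JB6_k0e_b1_3 {β x y : ℝ} (hβ : 0 < β) (hN : β * 15.624 ≤ 1) (hx1 : 0.5583 ≤ x) (hx2 : x ≤ 0.7893)
    (hy1 : -0.247 ≤ y) (hy2 : y ≤ -0.22) : ‖HH β (x + y * I) - 1‖ ≤ 0.095 := by
  refine le_epsJ (C := 0.9375) (N0 := 15.624) (J_boxp 0.5583 0.7893 0.247 0 (-0.22) 0.9277 0.8271 1.1097 1.179 0.4203 3.9528 15.624 0.8916 3.437 1.499 0.8885 0.4638 0.3259 0.8095 2.8623 0.4912 1.273 2.0158 3.5803 0.0007131 0.006152 0.00000322 0.0000003101 0.0004651 0.0000003101 0.0000003101 0.0000003101 0.9375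
    hβ hN hx1 hx2 hy1 hy2 (by norm_num) (by norm_num) (by linarith) (by norm_num) (by norm_num) (by norm_num) (by norm_num) (by norm_num) (by norm_num) (by norm_num) (by norm_num) (by norm_num) (by norm_num) (by norm_num) (by norm_num) (by norm_num) (by norm_num) (by norm_num) (by norm_num) (by norm_num) (by norm_num) (by norm_num) (by norm_num) (by norm_num)
    (cube_sqrt_geJ (s := 0.8383) (by norm_num) (by norm_num) (by norm_num) (by norm_num))
    (cube_sqrt_geJ (s := 0.9438) (by norm_num) (by norm_num) (by norm_num) (by norm_num))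
    (by norm_num) (by norm_num) (by norm_num) (by norm_num) (by norm_num) (by norm_num) (by norm_num) (by norm_num) (by norm_num) (by norm_num) (by norm_num) (by norm_num) (by norm_num) (by norm_num) (by norm_num) (by norm_num) (by norm_num) (by norm_num)
    (exp_neg_leJ (r := 0.246) 7 (by norm_num) (by norm_num) (by norm_num) (by norm_num))
    (exp_neg_leJ (r := 0.091) 5 (by norm_num) (by norm_num) (by norm_num) (by norm_num))
    (exp_neg_leJ (r := 0.647) 12 (by norm_num) (by norm_num) (by norm_num) (by norm_num))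
    (exp_neg_leJ (r := 0.99) 14 (by norm_num) (by norm_num) (by norm_num) (by norm_num))
    (exp_neg_leJ (r := 0.674) 7 (by norm_num) (by norm_num) (by norm_num) (by norm_num))
    (exp_neg_leJ (r := 0.99) 14 (by norm_num) (by norm_num) (by norm_num) (by norm_num))
    (exp_neg_leJ (r := 0.99) 14 (by norm_num) (by norm_num) (by norm_num) (by norm_num))
    (exp_neg_leJ (r := 0.99) 14 (by norm_num) (by norm_num) (by norm_num) (by norm_num))
    (by norm_num)) (by norm_num) hN hβ.le (by norm_num)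

private theorem JB6_k0e_c1 {κ t β : ℝ} (h : DomR κ t) (hβ : 0 < β) (hk1 : 0.49 ≤ κ) (hk2 : κ ≤ 0.64)
    (ht1 : -0.58 ≤ t + κ) (ht2 : t + κ ≤ -0.45) (hR0 : β * 10 ≤ κ) (hR : β * (4.95 * (1 + κ ^ 2)) ≤ κ) :
    ‖HH β (sg κ t) - 1‖ ≤ 0.095 := by
  have hN : β * 15.624 ≤ 1 := bNR hβ h.1 hk2 hR0 (by norm_num)
  have hy1 : -0.342 ≤ sy κ t := syL_ge h 0.49 0.64 0.58 0.342 0.71034 0.71035 0.3602 0.37958 0.4958 hk1 hk2 (by linarith) (by norm_num) (by norm_num) (by norm_num)
    (expm_ge (by norm_num) (by norm_num) (by norm_num) (by norm_num)) (expm_le (by norm_num) (by norm_num) (by norm_num)) (by norm_num)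
    (by norm_num) (by norm_num) (by norm_num) (by norm_num) (by norm_num) (by norm_num)
  have hy2 : sy κ t ≤ -0.22 := syL_le h 0.49 0.64 0.45 0.22 0.80251 0.80252 0.27586 0.36032 hk1 hk2 (by linarith) (by norm_num) (by norm_num) (by norm_num)
    (expm_ge (by norm_num) (by norm_num) (by norm_num) (by norm_num)) (expm_le (by norm_num) (by norm_num) (by norm_num)) (by norm_num)
    (by norm_num) (by norm_num) (by norm_num) (by norm_num) (by norm_num) (by norm_num)
  rcases le_total (sy κ t) (-0.332) with f0 | g0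
  · have hx1 : 0.5911 ≤ sx κ t := sx_lo h 0.49 (-0.332) 0.342 1.39375 0.5911 hk1 (by norm_num) f0 (abs_le.2 ⟨by linarith, by linarith⟩) (by rw [neg_neg]; exact expn_ge (by norm_num) (by norm_num)) (by norm_num) (by norm_num)
    have hx2 : sx κ t ≤ 0.8376 := sx_hi h 0.64 (-0.342) 0.332 1.40777 0.8376 hk2 hy1 (by norm_num) (by rw [abs_of_nonpos (by linarith)]; linarith) (by rw [neg_neg]; exact expn_le (by norm_num) (by norm_num) (by norm_num)) (by norm_num) (by norm_num)
    exact JB6_k0e_b1_0 hβ hN hx1 hx2 (by linarith) (by linarith)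
  rcases le_total (sy κ t) (-0.307) with f1 | g1
  · have hx1 : 0.5774 ≤ sx κ t := sx_lo h 0.49 (-0.307) 0.332 1.35934 0.5774 hk1 (by norm_num) f1 (abs_le.2 ⟨by linarith, by linarith⟩) (by rw [neg_neg]; exact expn_ge (by norm_num) (by norm_num)) (by norm_num) (by norm_num)
    have hx2 : sx κ t ≤ 0.8376 := sx_hi h 0.64 (-0.332) 0.307 1.39376 0.8376 hk2 g0 (by norm_num) (by rw [abs_of_nonpos (by linarith)]; linarith) (by rw [neg_neg]; exact expn_le (by norm_num) (by norm_num) (by norm_num)) (by norm_num) (by norm_num)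
    exact JB6_k0e_b1_1 hβ hN hx1 hx2 (by linarith) (by linarith)
  rcases le_total (sy κ t) (-0.247) with f2 | g2
  · have hx1 : 0.547 ≤ sx κ t := sx_lo h 0.49 (-0.247) 0.307 1.28017 0.547 hk1 (by norm_num) f2 (abs_le.2 ⟨by linarith, by linarith⟩) (by rw [neg_neg]; exact expn_ge (by norm_num) (by norm_num)) (by norm_num) (by norm_num)
    have hx2 : sx κ t ≤ 0.8342 := sx_hi h 0.64 (-0.307) 0.247 1.35935 0.8342 hk2 g1 (by norm_num) (by rw [abs_of_nonpos (by linarith)]; linarith) (by rw [neg_neg]; exact expn_le (by norm_num) (by norm_num) (by norm_num)) (by norm_num) (by norm_num)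
    exact JB6_k0e_b1_2 hβ hN hx1 hx2 (by linarith) (by linarith)
  have hx1 : 0.5583 ≤ sx κ t := sx_lo h 0.49 (-0.22) 0.247 1.24607 0.5583 hk1 (by norm_num) hy2 (abs_le.2 ⟨by linarith, by linarith⟩) (by rw [neg_neg]; exact expn_ge (by norm_num) (by norm_num)) (by norm_num) (by norm_num)
  have hx2 : sx κ t ≤ 0.7893 := sx_hi h 0.64 (-0.247) 0.22 1.28018 0.7893 hk2 g2 (by norm_num) (by rw [abs_of_nonpos (by linarith)]; linarith) (by rw [neg_neg]; exact expn_le (by norm_num) (by norm_num) (by norm_num)) (by norm_num) (by norm_num)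
  exact JB6_k0e_b1_3 hβ hN hx1 hx2 (by linarith) (by linarith)

private theorem JB6_k0e_b2_0 {β x y : ℝ} (hβ : 0 < β) (hN : β * 13.157 ≤ 1) (hx1 : 0.8254 ≤ x) (hx2 : x ≤ 1.0195)
    (hy1 : -0.345 ≤ y) (hy2 : y ≤ -0.335) : ‖HH β (x + y * I) - 1‖ ≤ 0.095 := by
  refine le_epsJ (C := 1.2249) (N0 := 13.157) (J_boxp 0.8254 1.0195 0.345 0 (-0.335) 1.0462 1.0763 1.2173 1.0311 0.4402 3.6273 13.157 1.0288 4.35 1.603 0.7095 0.523 0.3437 0.7462 2.4165 0.5674 1.6428 2.2836 3.4371 0.00103 0.01087 0.00005461 0.0000003101 0.0005729 0.0000003101 0.0000003101 0.0000003101 1.2249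
    hβ hN hx1 hx2 hy1 hy2 (by norm_num) (by norm_num) (by linarith) (by norm_num) (by norm_num) (by norm_num) (by norm_num) (by norm_num) (by norm_num) (by norm_num) (by norm_num) (by norm_num) (by norm_num) (by norm_num) (by norm_num) (by norm_num) (by norm_num) (by norm_num) (by norm_num) (by norm_num) (by norm_num) (by norm_num) (by norm_num) (by norm_num)
    (cube_sqrt_geJ (s := 0.8105) (by norm_num) (by norm_num) (by norm_num) (by norm_num))
    (cube_sqrt_geJ (s := 0.9348) (by norm_num) (by norm_num) (by norm_num) (by norm_num))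
    (by norm_num) (by norm_num) (by norm_num) (by norm_num) (by norm_num) (by norm_num) (by norm_num) (by norm_num) (by norm_num) (by norm_num) (by norm_num) (by norm_num) (by norm_num) (by norm_num) (by norm_num) (by norm_num) (by norm_num) (by norm_num)
    (exp_neg_leJ (r := 0.881) 6 (by norm_num) (by norm_num) (by norm_num) (by norm_num))
    (exp_neg_leJ (r := 0.522) 4 (by norm_num) (by norm_num) (by norm_num) (by norm_num))
    (exp_neg_leJ (r := 0.817) 9 (by norm_num) (by norm_num) (by norm_num) (by norm_num))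
    (exp_neg_leJ (r := 0.99) 14 (by norm_num) (by norm_num) (by norm_num) (by norm_num))
    (exp_neg_leJ (r := 0.465) 7 (by norm_num) (by norm_num) (by norm_num) (by norm_num))
    (exp_neg_leJ (r := 0.99) 14 (by norm_num) (by norm_num) (by norm_num) (by norm_num))
    (exp_neg_leJ (r := 0.99) 14 (by norm_num) (by norm_num) (by norm_num) (by norm_num))
    (exp_neg_leJ (r := 0.99) 14 (by norm_num) (by norm_num) (by norm_num) (by norm_num))
    (by norm_num)) (by norm_num) hN hβ.le (by norm_num)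

private theorem JB6_k0e_b2_1 {β x y : ℝ} (hβ : 0 < β) (hN : β * 13.157 ≤ 1) (hx1 : 0.8057 ≤ x) (hx2 : x ≤ 1.0163)
    (hy1 : -0.335 ≤ y) (hy2 : y ≤ -0.31) : ‖HH β (x + y * I) - 1‖ ≤ 0.095 := by
  refine le_epsJ (C := 1.2485) (N0 := 13.157) (J_boxp 0.8057 1.0163 0.335 0 (-0.31) 1.0395 1.0701 1.2284 1.0458 0.4422 3.6273 13.157 1.0295 4.355 1.603 0.72 0.5197 0.3413 0.7552 2.4505 0.5633 1.6155 2.2714 3.4146 0.001076 0.01123 0.00004854 0.0000003101 0.0006047 0.0000003101 0.0000003101 0.0000003101 1.2485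
    hβ hN hx1 hx2 hy1 hy2 (by norm_num) (by norm_num) (by linarith) (by norm_num) (by norm_num) (by norm_num) (by norm_num) (by norm_num) (by norm_num) (by norm_num) (by norm_num) (by norm_num) (by norm_num) (by norm_num) (by norm_num) (by norm_num) (by norm_num) (by norm_num) (by norm_num) (by norm_num) (by norm_num) (by norm_num) (by norm_num) (by norm_num)
    (cube_sqrt_geJ (s := 0.8104) (by norm_num) (by norm_num) (by norm_num) (by norm_num))
    (cube_sqrt_geJ (s := 0.9348) (by norm_num) (by norm_num) (by norm_num) (by norm_num))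
    (by norm_num) (by norm_num) (by norm_num) (by norm_num) (by norm_num) (by norm_num) (by norm_num) (by norm_num) (by norm_num) (by norm_num) (by norm_num) (by norm_num) (by norm_num) (by norm_num) (by norm_num) (by norm_num) (by norm_num) (by norm_num)
    (exp_neg_leJ (r := 0.837) 6 (by norm_num) (by norm_num) (by norm_num) (by norm_num))
    (exp_neg_leJ (r := 0.49) 4 (by norm_num) (by norm_num) (by norm_num) (by norm_num))
    (exp_neg_leJ (r := 0.936) 9 (by norm_num) (by norm_num) (by norm_num) (by norm_num))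
    (exp_neg_leJ (r := 0.99) 14 (by norm_num) (by norm_num) (by norm_num) (by norm_num))
    (exp_neg_leJ (r := 0.411) 7 (by norm_num) (by norm_num) (by norm_num) (by norm_num))
    (exp_neg_leJ (r := 0.99) 14 (by norm_num) (by norm_num) (by norm_num) (by norm_num))
    (exp_neg_leJ (r := 0.99) 14 (by norm_num) (by norm_num) (by norm_num) (by norm_num))
    (exp_neg_leJ (r := 0.99) 14 (by norm_num) (by norm_num) (by norm_num) (by norm_num))
    (by norm_num)) (by norm_num) hN hβ.le (by norm_num)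

private theorem JB6_k0e_b2_2 {β x y : ℝ} (hβ : 0 < β) (hN : β * 13.157 ≤ 1) (hx1 : 0.7699 ≤ x) (hx2 : x ≤ 1.0031)
    (hy1 : -0.31 ≤ y) (hy2 : y ≤ -0.26) : ‖HH β (x + y * I) - 1‖ ≤ 0.095 := by
  refine le_epsJ (C := 1.2347) (N0 := 13.157) (J_boxp 0.7699 1.0031 0.31 0 (-0.26) 1.032 1.05 1.2466 1.065 0.4455 3.6273 13.157 1.0175 4.263 1.594 0.7481 0.5159 0.3409 0.7825 2.5385 0.5596 1.566 2.2678 3.3976 0.00113 0.01128 0.00003381 0.0000003101 0.000635 0.0000003101 0.0000003101 0.0000003101 1.2347
    hβ hN hx1 hx2 hy1 hy2 (by norm_num) (by norm_num) (by linarith) (by norm_num) (by norm_num) (by norm_num) (by norm_num) (by norm_num) (by norm_num) (by norm_num) (by norm_num) (by norm_num) (by norm_num) (by norm_num) (by norm_num) (by norm_num) (by norm_num) (by norm_num) (by norm_num) (by norm_num) (by norm_num) (by norm_num) (by norm_num) (by norm_num)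
    (cube_sqrt_geJ (s := 0.8129) (by norm_num) (by norm_num) (by norm_num) (by norm_num))
    (cube_sqrt_geJ (s := 0.9356) (by norm_num) (by norm_num) (by norm_num) (by norm_num))
    (by norm_num) (by norm_num) (by norm_num) (by norm_num) (by norm_num) (by norm_num) (by norm_num) (by norm_num) (by norm_num) (by norm_num) (by norm_num) (by norm_num) (by norm_num) (by norm_num) (by norm_num) (by norm_num) (by norm_num) (by norm_num)
    (exp_neg_leJ (r := 0.787) 6 (by norm_num) (by norm_num) (by norm_num) (by norm_num))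
    (exp_neg_leJ (r := 0.485) 4 (by norm_num) (by norm_num) (by norm_num) (by norm_num))
    (exp_neg_leJ (r := 0.295) 10 (by norm_num) (by norm_num) (by norm_num) (by norm_num))
    (exp_neg_leJ (r := 0.99) 14 (by norm_num) (by norm_num) (by norm_num) (by norm_num))
    (exp_neg_leJ (r := 0.362) 7 (by norm_num) (by norm_num) (by norm_num) (by norm_num))
    (exp_neg_leJ (r := 0.99) 14 (by norm_num) (by norm_num) (by norm_num) (by norm_num))
    (exp_neg_leJ (r := 0.99) 14 (by norm_num) (by norm_num) (by norm_num) (by norm_num))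
    (exp_neg_leJ (r := 0.99) 14 (by norm_num) (by norm_num) (by norm_num) (by norm_num))
    (by norm_num)) (by norm_num) hN hβ.le (by norm_num)

private theorem JB6_k0e_b2_3 {β x y : ℝ} (hβ : 0 < β) (hN : β * 13.157 ≤ 1) (hx1 : 0.7778 ≤ x) (hx2 : x ≤ 0.954)
    (hy1 : -0.26 ≤ y) (hy2 : y ≤ -0.248) : ‖HH β (x + y * I) - 1‖ ≤ 0.095 := by
  refine le_epsJ (C := 0.8666) (N0 := 13.157) (J_boxp 0.7778 0.954 0.26 0 (-0.248) 1.0731 0.9888 1.2148 0.9915 0.4398 3.6273 13.157 0.9215 3.613 1.521 0.8131 0.5365 0.3717 0.8641 2.7271 0.5907 1.5769 2.4195 3.5798 0.0008606 0.007539 0.00001157 0.0000003101 0.0004224 0.0000003101 0.0000003101 0.0000003101 0.8666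
    hβ hN hx1 hx2 hy1 hy2 (by norm_num) (by norm_num) (by linarith) (by norm_num) (by norm_num) (by norm_num) (by norm_num) (by norm_num) (by norm_num) (by norm_num) (by norm_num) (by norm_num) (by norm_num) (by norm_num) (by norm_num) (by norm_num) (by norm_num) (by norm_num) (by norm_num) (by norm_num) (by norm_num) (by norm_num) (by norm_num) (by norm_num)
    (cube_sqrt_geJ (s := 0.8323) (by norm_num) (by norm_num) (by norm_num) (by norm_num))
    (cube_sqrt_geJ (s := 0.9418) (by norm_num) (by norm_num) (by norm_num) (by norm_num))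
    (by norm_num) (by norm_num) (by norm_num) (by norm_num) (by norm_num) (by norm_num) (by norm_num) (by norm_num) (by norm_num) (by norm_num) (by norm_num) (by norm_num) (by norm_num) (by norm_num) (by norm_num) (by norm_num) (by norm_num) (by norm_num)
    (exp_neg_leJ (r := 0.058) 7 (by norm_num) (by norm_num) (by norm_num) (by norm_num))
    (exp_neg_leJ (r := 0.89) 4 (by norm_num) (by norm_num) (by norm_num) (by norm_num))
    (exp_neg_leJ (r := 0.368) 11 (by norm_num) (by norm_num) (by norm_num) (by norm_num))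
    (exp_neg_leJ (r := 0.99) 14 (by norm_num) (by norm_num) (by norm_num) (by norm_num))
    (exp_neg_leJ (r := 0.771) 7 (by norm_num) (by norm_num) (by norm_num) (by norm_num))
    (exp_neg_leJ (r := 0.99) 14 (by norm_num) (by norm_num) (by norm_num) (by norm_num))
    (exp_neg_leJ (r := 0.99) 14 (by norm_num) (by norm_num) (by norm_num) (by norm_num))
    (exp_neg_leJ (r := 0.99) 14 (by norm_num) (by norm_num) (by norm_num) (by norm_num))
    (by norm_num)) (by norm_num) hN hβ.le (by norm_num)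

private theorem JB6_k0e_c2 {κ t β : ℝ} (h : DomR κ t) (hβ : 0 < β) (hk1 : 0.64 ≤ κ) (hk2 : κ ≤ 0.76)
    (ht1 : -0.58 ≤ t + κ) (ht2 : t + κ ≤ -0.45) (hR0 : β * 10 ≤ κ) (hR : β * (4.95 * (1 + κ ^ 2)) ≤ κ) :
    ‖HH β (sg κ t) - 1‖ ≤ 0.095 := by
  have hN : β * 13.157 ≤ 1 := bNR hβ h.1 hk2 hR0 (by norm_num)
  have hy1 : -0.345 ≤ sy κ t := syL_ge h 0.64 0.76 0.58 0.345 0.70822 0.70823 0.3365 0.32149 0.38179 hk1 hk2 (by linarith) (by norm_num) (by norm_num) (by norm_num)
    (expm_ge (by norm_num) (by norm_num) (by norm_num) (by norm_num)) (expm_le (by norm_num) (by norm_num) (by norm_num)) (by norm_num)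
    (by norm_num) (by norm_num) (by norm_num) (by norm_num) (by norm_num) (by norm_num)
  have hy2 : sy κ t ≤ -0.248 := syL_le h 0.64 0.76 0.45 0.248 0.78035 0.78036 0.25464 0.30239 hk1 hk2 (by linarith) (by norm_num) (by norm_num) (by norm_num)
    (expm_ge (by norm_num) (by norm_num) (by norm_num) (by norm_num)) (expm_le (by norm_num) (by norm_num) (by norm_num)) (by norm_num)
    (by norm_num) (by norm_num) (by norm_num) (by norm_num) (by norm_num) (by norm_num)
  rcases le_total (sy κ t) (-0.335) with f0 | g0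
  · have hx1 : 0.8254 ≤ sx κ t := sx_lo h 0.64 (-0.335) 0.345 1.39794 0.8254 hk1 (by norm_num) f0 (abs_le.2 ⟨by linarith, by linarith⟩) (by rw [neg_neg]; exact expn_ge (by norm_num) (by norm_num)) (by norm_num) (by norm_num)
    have hx2 : sx κ t ≤ 1.0195 := sx_hi h 0.76 (-0.345) 0.335 1.41199 1.0195 hk2 hy1 (by norm_num) (by rw [abs_of_nonpos (by linarith)]; linarith) (by rw [neg_neg]; exact expn_le (by norm_num) (by norm_num) (by norm_num)) (by norm_num) (by norm_num)
    exact JB6_k0e_b2_0 hβ hN hx1 hx2 (by linarith) (by linarith)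
  rcases le_total (sy κ t) (-0.31) with f1 | g1
  · have hx1 : 0.8057 ≤ sx κ t := sx_lo h 0.64 (-0.31) 0.335 1.36342 0.8057 hk1 (by norm_num) f1 (abs_le.2 ⟨by linarith, by linarith⟩) (by rw [neg_neg]; exact expn_ge (by norm_num) (by norm_num)) (by norm_num) (by norm_num)
    have hx2 : sx κ t ≤ 1.0163 := sx_hi h 0.76 (-0.335) 0.31 1.39795 1.0163 hk2 g0 (by norm_num) (by rw [abs_of_nonpos (by linarith)]; linarith) (by rw [neg_neg]; exact expn_le (by norm_num) (by norm_num) (by norm_num)) (by norm_num) (by norm_num)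
    exact JB6_k0e_b2_1 hβ hN hx1 hx2 (by linarith) (by linarith)
  rcases le_total (sy κ t) (-0.26) with f2 | g2
  · have hx1 : 0.7699 ≤ sx κ t := sx_lo h 0.64 (-0.26) 0.31 1.29693 0.7699 hk1 (by norm_num) f2 (abs_le.2 ⟨by linarith, by linarith⟩) (by rw [neg_neg]; exact expn_ge (by norm_num) (by norm_num)) (by norm_num) (by norm_num)
    have hx2 : sx κ t ≤ 1.0031 := sx_hi h 0.76 (-0.31) 0.26 1.36343 1.0031 hk2 g1 (by norm_num) (by rw [abs_of_nonpos (by linarith)]; linarith) (by rw [neg_neg]; exact expn_le (by norm_num) (by norm_num) (by norm_num)) (by norm_num) (by norm_num)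
    exact JB6_k0e_b2_2 hβ hN hx1 hx2 (by linarith) (by linarith)
  have hx1 : 0.7778 ≤ sx κ t := sx_lo h 0.64 (-0.248) 0.26 1.28145 0.7778 hk1 (by norm_num) hy2 (abs_le.2 ⟨by linarith, by linarith⟩) (by rw [neg_neg]; exact expn_ge (by norm_num) (by norm_num)) (by norm_num) (by norm_num)
  have hx2 : sx κ t ≤ 0.954 := sx_hi h 0.76 (-0.26) 0.248 1.29694 0.954 hk2 g2 (by norm_num) (by rw [abs_of_nonpos (by linarith)]; linarith) (by rw [neg_neg]; exact expn_le (by norm_num) (by norm_num) (by norm_num)) (by norm_num) (by norm_num)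
  exact JB6_k0e_b2_3 hβ hN hx1 hx2 (by linarith) (by linarith)

private theorem JB6_k0e_b3_0 {β x y : ℝ} (hβ : 0 < β) (hN : β * 11.627 ≤ 1) (hx1 : 1.0096 ≤ x) (hx2 : x ≤ 1.1648)
    (hy1 : -0.344 ≤ y) (hy2 : y ≤ -0.339) : ‖HH β (x + y * I) - 1‖ ≤ 0.095 := by
  refine le_epsJ (C := 1.0891) (N0 := 11.627) (J_boxp 1.0096 1.1648 0.344 0 (-0.339) 1.1767 1.2146 1.3393 0.9067 0.4617 3.4099 11.627 1.0323 4.377 1.605 0.6545 0.5883 0.3858 0.8108 2.3375 0.6574 1.8979 2.6548 3.4296 0.001072 0.01128 0.00008053 0.0000003101 0.0004797 0.0000003101 0.0000003101 0.0000003101 1.0891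
    hβ hN hx1 hx2 hy1 hy2 (by norm_num) (by norm_num) (by linarith) (by norm_num) (by norm_num) (by norm_num) (by norm_num) (by norm_num) (by norm_num) (by norm_num) (by norm_num) (by norm_num) (by norm_num) (by norm_num) (by norm_num) (by norm_num) (by norm_num) (by norm_num) (by norm_num) (by norm_num) (by norm_num) (by norm_num) (by norm_num) (by norm_num)
    (cube_sqrt_geJ (s := 0.8098) (by norm_num) (by norm_num) (by norm_num) (by norm_num))
    (cube_sqrt_geJ (s := 0.9346) (by norm_num) (by norm_num) (by norm_num) (by norm_num))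
    (by norm_num) (by norm_num) (by norm_num) (by norm_num) (by norm_num) (by norm_num) (by norm_num) (by norm_num) (by norm_num) (by norm_num) (by norm_num) (by norm_num) (by norm_num) (by norm_num) (by norm_num) (by norm_num) (by norm_num) (by norm_num)
    (exp_neg_leJ (r := 0.84) 6 (by norm_num) (by norm_num) (by norm_num) (by norm_num))
    (exp_neg_leJ (r := 0.485) 4 (by norm_num) (by norm_num) (by norm_num) (by norm_num))
    (exp_neg_leJ (r := 0.427) 9 (by norm_num) (by norm_num) (by norm_num) (by norm_num))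
    (exp_neg_leJ (r := 0.99) 14 (by norm_num) (by norm_num) (by norm_num) (by norm_num))
    (exp_neg_leJ (r := 0.643) 7 (by norm_num) (by norm_num) (by norm_num) (by norm_num))
    (exp_neg_leJ (r := 0.99) 14 (by norm_num) (by norm_num) (by norm_num) (by norm_num))
    (exp_neg_leJ (r := 0.99) 14 (by norm_num) (by norm_num) (by norm_num) (by norm_num))
    (exp_neg_leJ (r := 0.99) 14 (by norm_num) (by norm_num) (by norm_num) (by norm_num))
    (by norm_num)) (by norm_num) hN hβ.le (by norm_num)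

private theorem JB6_k0e_b3_1 {β x y : ℝ} (hβ : 0 < β) (hN : β * 11.627 ≤ 1) (hx1 : 1.0001 ≤ x) (hx2 : x ≤ 1.1614)
    (hy1 : -0.339 ≤ y) (hy2 : y ≤ -0.329) : ‖HH β (x + y * I) - 1‖ ≤ 0.095 := by
  refine le_epsJ (C := 1.0921) (N0 := 11.627) (J_boxp 1.0001 1.1614 0.339 0 (-0.329) 1.1735 1.2099 1.3414 0.9111 0.4621 3.4099 11.627 1.0311 4.367 1.604 0.6605 0.5867 0.385 0.8155 2.3555 0.6555 1.8847 2.6493 3.4234 0.001093 0.01139 0.0000763 0.0000003101 0.0004903 0.0000003101 0.0000003101 0.0000003101 1.0921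
    hβ hN hx1 hx2 hy1 hy2 (by norm_num) (by norm_num) (by linarith) (by norm_num) (by norm_num) (by norm_num) (by norm_num) (by norm_num) (by norm_num) (by norm_num) (by norm_num) (by norm_num) (by norm_num) (by norm_num) (by norm_num) (by norm_num) (by norm_num) (by norm_num) (by norm_num) (by norm_num) (by norm_num) (by norm_num) (by norm_num) (by norm_num)
    (cube_sqrt_geJ (s := 0.8101) (by norm_num) (by norm_num) (by norm_num) (by norm_num))
    (cube_sqrt_geJ (s := 0.9347) (by norm_num) (by norm_num) (by norm_num) (by norm_num))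
    (by norm_num) (by norm_num) (by norm_num) (by norm_num) (by norm_num) (by norm_num) (by norm_num) (by norm_num) (by norm_num) (by norm_num) (by norm_num) (by norm_num) (by norm_num) (by norm_num) (by norm_num) (by norm_num) (by norm_num) (by norm_num)
    (exp_neg_leJ (r := 0.821) 6 (by norm_num) (by norm_num) (by norm_num) (by norm_num))
    (exp_neg_leJ (r := 0.476) 4 (by norm_num) (by norm_num) (by norm_num) (by norm_num))
    (exp_neg_leJ (r := 0.481) 9 (by norm_num) (by norm_num) (by norm_num) (by norm_num))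
    (exp_neg_leJ (r := 0.99) 14 (by norm_num) (by norm_num) (by norm_num) (by norm_num))
    (exp_neg_leJ (r := 0.621) 7 (by norm_num) (by norm_num) (by norm_num) (by norm_num))
    (exp_neg_leJ (r := 0.99) 14 (by norm_num) (by norm_num) (by norm_num) (by norm_num))
    (exp_neg_leJ (r := 0.99) 14 (by norm_num) (by norm_num) (by norm_num) (by norm_num))
    (exp_neg_leJ (r := 0.99) 14 (by norm_num) (by norm_num) (by norm_num) (by norm_num))
    (by norm_num)) (by norm_num) hN hβ.le (by norm_num)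

private theorem JB6_k0e_b3_2 {β x y : ℝ} (hβ : 0 < β) (hN : β * 11.627 ≤ 1) (hx1 : 0.9814 ≤ x) (hx2 : x ≤ 1.1544)
    (hy1 : -0.329 ≤ y) (hy2 : y ≤ -0.309) : ‖HH β (x + y * I) - 1‖ ≤ 0.095 := by
  refine le_epsJ (C := 1.0966) (N0 := 11.627) (J_boxp 0.9814 1.1544 0.329 0 (-0.309) 1.1674 1.2004 1.3455 0.9197 0.4628 3.4099 11.627 1.0283 4.346 1.602 0.6724 0.5836 0.3836 0.8249 2.3916 0.6519 1.8588 2.6391 3.4118 0.001133 0.01157 0.00006837 0.0000003101 0.0005113 0.0000003101 0.0000003101 0.0000003101 1.0966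
    hβ hN hx1 hx2 hy1 hy2 (by norm_num) (by norm_num) (by linarith) (by norm_num) (by norm_num) (by norm_num) (by norm_num) (by norm_num) (by norm_num) (by norm_num) (by norm_num) (by norm_num) (by norm_num) (by norm_num) (by norm_num) (by norm_num) (by norm_num) (by norm_num) (by norm_num) (by norm_num) (by norm_num) (by norm_num) (by norm_num) (by norm_num)
    (cube_sqrt_geJ (s := 0.8106) (by norm_num) (by norm_num) (by norm_num) (by norm_num))
    (cube_sqrt_geJ (s := 0.9349) (by norm_num) (by norm_num) (by norm_num) (by norm_num))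
    (by norm_num) (by norm_num) (by norm_num) (by norm_num) (by norm_num) (by norm_num) (by norm_num) (by norm_num) (by norm_num) (by norm_num) (by norm_num) (by norm_num) (by norm_num) (by norm_num) (by norm_num) (by norm_num) (by norm_num) (by norm_num)
    (exp_neg_leJ (r := 0.785) 6 (by norm_num) (by norm_num) (by norm_num) (by norm_num))
    (exp_neg_leJ (r := 0.46) 4 (by norm_num) (by norm_num) (by norm_num) (by norm_num))
    (exp_neg_leJ (r := 0.591) 9 (by norm_num) (by norm_num) (by norm_num) (by norm_num))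
    (exp_neg_leJ (r := 0.99) 14 (by norm_num) (by norm_num) (by norm_num) (by norm_num))
    (exp_neg_leJ (r := 0.579) 7 (by norm_num) (by norm_num) (by norm_num) (by norm_num))
    (exp_neg_leJ (r := 0.99) 14 (by norm_num) (by norm_num) (by norm_num) (by norm_num))
    (exp_neg_leJ (r := 0.99) 14 (by norm_num) (by norm_num) (by norm_num) (by norm_num))
    (exp_neg_leJ (r := 0.99) 14 (by norm_num) (by norm_num) (by norm_num) (by norm_num))
    (by norm_num)) (by norm_num) hN hβ.le (by norm_num)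

private theorem JB6_k0e_b3_3 {β x y : ℝ} (hβ : 0 < β) (hN : β * 11.627 ≤ 1) (hx1 : 0.9453 ≤ x) (hx2 : x ≤ 1.1401)
    (hy1 : -0.309 ≤ y) (hy2 : y ≤ -0.269) : ‖HH β (x + y * I) - 1‖ ≤ 0.095 := by
  refine le_epsJ (C := 1.1018) (N0 := 11.627) (J_boxp 0.9453 1.1401 0.309 0 (-0.269) 1.1562 1.1813 1.3544 0.9362 0.4643 3.4099 11.627 1.0218 4.296 1.597 0.6963 0.578 0.3811 0.8441 2.464 0.6453 1.8088 2.6213 3.3915 0.001208 0.01191 0.00005477 0.0000003101 0.0005521 0.0000003101 0.0000003101 0.0000003101 1.1018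
    hβ hN hx1 hx2 hy1 hy2 (by norm_num) (by norm_num) (by linarith) (by norm_num) (by norm_num) (by norm_num) (by norm_num) (by norm_num) (by norm_num) (by norm_num) (by norm_num) (by norm_num) (by norm_num) (by norm_num) (by norm_num) (by norm_num) (by norm_num) (by norm_num) (by norm_num) (by norm_num) (by norm_num) (by norm_num) (by norm_num) (by norm_num)
    (cube_sqrt_geJ (s := 0.812) (by norm_num) (by norm_num) (by norm_num) (by norm_num))
    (cube_sqrt_geJ (s := 0.9353) (by norm_num) (by norm_num) (by norm_num) (by norm_num))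
    (by norm_num) (by norm_num) (by norm_num) (by norm_num) (by norm_num) (by norm_num) (by norm_num) (by norm_num) (by norm_num) (by norm_num) (by norm_num) (by norm_num) (by norm_num) (by norm_num) (by norm_num) (by norm_num) (by norm_num) (by norm_num)
    (exp_neg_leJ (r := 0.72) 6 (by norm_num) (by norm_num) (by norm_num) (by norm_num))
    (exp_neg_leJ (r := 0.431) 4 (by norm_num) (by norm_num) (by norm_num) (by norm_num))
    (exp_neg_leJ (r := 0.814) 9 (by norm_num) (by norm_num) (by norm_num) (by norm_num))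
    (exp_neg_leJ (r := 0.99) 14 (by norm_num) (by norm_num) (by norm_num) (by norm_num))
    (exp_neg_leJ (r := 0.502) 7 (by norm_num) (by norm_num) (by norm_num) (by norm_num))
    (exp_neg_leJ (r := 0.99) 14 (by norm_num) (by norm_num) (by norm_num) (by norm_num))
    (exp_neg_leJ (r := 0.99) 14 (by norm_num) (by norm_num) (by norm_num) (by norm_num))
    (exp_neg_leJ (r := 0.99) 14 (by norm_num) (by norm_num) (by norm_num) (by norm_num))
    (by norm_num)) (by norm_num) hN hβ.le (by norm_num)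

private theorem JB6_k0e_b3_4 {β x y : ℝ} (hβ : 0 < β) (hN : β * 11.627 ≤ 1) (hx1 : 0.941 ≤ x) (hx2 : x ≤ 1.0967)
    (hy1 : -0.269 ≤ y) (hy2 : y ≤ -0.253) : ‖HH β (x + y * I) - 1‖ ≤ 0.095 := by
  refine le_epsJ (C := 0.8725) (N0 := 11.627) (J_boxp 0.941 1.0967 0.269 0 (-0.253) 1.1816 1.1293 1.327 0.8969 0.4596 3.4099 11.627 0.9558 3.83 1.547 0.75 0.5907 0.4025 0.9057 2.6169 0.6651 1.8029 2.7214 3.5243 0.001043 0.009295 0.00002673 0.0000003101 0.0004386 0.0000003101 0.0000003101 0.0000003101 0.8725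
    hβ hN hx1 hx2 hy1 hy2 (by norm_num) (by norm_num) (by linarith) (by norm_num) (by norm_num) (by norm_num) (by norm_num) (by norm_num) (by norm_num) (by norm_num) (by norm_num) (by norm_num) (by norm_num) (by norm_num) (by norm_num) (by norm_num) (by norm_num) (by norm_num) (by norm_num) (by norm_num) (by norm_num) (by norm_num) (by norm_num) (by norm_num)
    (cube_sqrt_geJ (s := 0.8254) (by norm_num) (by norm_num) (by norm_num) (by norm_num))
    (cube_sqrt_geJ (s := 0.9396) (by norm_num) (by norm_num) (by norm_num) (by norm_num))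
    (by norm_num) (by norm_num) (by norm_num) (by norm_num) (by norm_num) (by norm_num) (by norm_num) (by norm_num) (by norm_num) (by norm_num) (by norm_num) (by norm_num) (by norm_num) (by norm_num) (by norm_num) (by norm_num) (by norm_num) (by norm_num)
    (exp_neg_leJ (r := 0.868) 6 (by norm_num) (by norm_num) (by norm_num) (by norm_num))
    (exp_neg_leJ (r := 0.679) 4 (by norm_num) (by norm_num) (by norm_num) (by norm_num))
    (exp_neg_leJ (r := 0.53) 10 (by norm_num) (by norm_num) (by norm_num) (by norm_num))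
    (exp_neg_leJ (r := 0.99) 14 (by norm_num) (by norm_num) (by norm_num) (by norm_num))
    (exp_neg_leJ (r := 0.733) 7 (by norm_num) (by norm_num) (by norm_num) (by norm_num))
    (exp_neg_leJ (r := 0.99) 14 (by norm_num) (by norm_num) (by norm_num) (by norm_num))
    (exp_neg_leJ (r := 0.99) 14 (by norm_num) (by norm_num) (by norm_num) (by norm_num))
    (exp_neg_leJ (r := 0.99) 14 (by norm_num) (by norm_num) (by norm_num) (by norm_num))
    (by norm_num)) (by norm_num) hN hβ.le (by norm_num)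

private theorem JB6_k0e_c3 {κ t β : ℝ} (h : DomR κ t) (hβ : 0 < β) (hk1 : 0.76 ≤ κ) (hk2 : κ ≤ 0.86)
    (ht1 : -0.58 ≤ t + κ) (ht2 : t + κ ≤ -0.45) (hR0 : β * 10 ≤ κ) (hR : β * (4.95 * (1 + κ ^ 2)) ≤ κ) :
    ‖HH β (sg κ t) - 1‖ ≤ 0.095 := by
  have hN : β * 11.627 ≤ 1 := bNR hβ h.1 hk2 hR0 (by norm_num)
  have hy1 : -0.344 ≤ sy κ t := syL_ge h 0.76 0.86 0.58 0.344 0.70892 0.70893 0.3022 0.28356 0.32089 hk1 hk2 (by linarith) (by norm_num) (by norm_num) (by norm_num)
    (expm_ge (by norm_num) (by norm_num) (by norm_num) (by norm_num)) (expm_le (by norm_num) (by norm_num) (by norm_num)) (by norm_num)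
    (by norm_num) (by norm_num) (by norm_num) (by norm_num) (by norm_num) (by norm_num)
  have hy2 : sy κ t ≤ -0.253 := syL_le h 0.76 0.86 0.45 0.253 0.77646 0.77647 0.22842 0.25849 hk1 hk2 (by linarith) (by norm_num) (by norm_num) (by norm_num)
    (expm_ge (by norm_num) (by norm_num) (by norm_num) (by norm_num)) (expm_le (by norm_num) (by norm_num) (by norm_num)) (by norm_num)
    (by norm_num) (by norm_num) (by norm_num) (by norm_num) (by norm_num) (by norm_num)
  rcases le_total (sy κ t) (-0.339) with f0 | g0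
  · have hx1 : 1.0096 ≤ sx κ t := sx_lo h 0.76 (-0.339) 0.344 1.40354 1.0096 hk1 (by norm_num) f0 (abs_le.2 ⟨by linarith, by linarith⟩) (by rw [neg_neg]; exact expn_ge (by norm_num) (by norm_num)) (by norm_num) (by norm_num)
    have hx2 : sx κ t ≤ 1.1648 := sx_hi h 0.86 (-0.344) 0.339 1.41058 1.1648 hk2 hy1 (by norm_num) (by rw [abs_of_nonpos (by linarith)]; linarith) (by rw [neg_neg]; exact expn_le (by norm_num) (by norm_num) (by norm_num)) (by norm_num) (by norm_num)
    exact JB6_k0e_b3_0 hβ hN hx1 hx2 (by linarith) (by linarith)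
  rcases le_total (sy κ t) (-0.329) with f1 | g1
  · have hx1 : 1.0001 ≤ sx κ t := sx_lo h 0.76 (-0.329) 0.339 1.38957 1.0001 hk1 (by norm_num) f1 (abs_le.2 ⟨by linarith, by linarith⟩) (by rw [neg_neg]; exact expn_ge (by norm_num) (by norm_num)) (by norm_num) (by norm_num)
    have hx2 : sx κ t ≤ 1.1614 := sx_hi h 0.86 (-0.339) 0.329 1.40355 1.1614 hk2 g0 (by norm_num) (by rw [abs_of_nonpos (by linarith)]; linarith) (by rw [neg_neg]; exact expn_le (by norm_num) (by norm_num) (by norm_num)) (by norm_num) (by norm_num)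
    exact JB6_k0e_b3_1 hβ hN hx1 hx2 (by linarith) (by linarith)
  rcases le_total (sy κ t) (-0.309) with f2 | g2
  · have hx1 : 0.9814 ≤ sx κ t := sx_lo h 0.76 (-0.309) 0.329 1.36206 0.9814 hk1 (by norm_num) f2 (abs_le.2 ⟨by linarith, by linarith⟩) (by rw [neg_neg]; exact expn_ge (by norm_num) (by norm_num)) (by norm_num) (by norm_num)
    have hx2 : sx κ t ≤ 1.1544 := sx_hi h 0.86 (-0.329) 0.309 1.38958 1.1544 hk2 g1 (by norm_num) (by rw [abs_of_nonpos (by linarith)]; linarith) (by rw [neg_neg]; exact expn_le (by norm_num) (by norm_num) (by norm_num)) (by norm_num) (by norm_num)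
    exact JB6_k0e_b3_2 hβ hN hx1 hx2 (by linarith) (by linarith)
  rcases le_total (sy κ t) (-0.269) with f3 | g3
  · have hx1 : 0.9453 ≤ sx κ t := sx_lo h 0.76 (-0.269) 0.309 1.30865 0.9453 hk1 (by norm_num) f3 (abs_le.2 ⟨by linarith, by linarith⟩) (by rw [neg_neg]; exact expn_ge (by norm_num) (by norm_num)) (by norm_num) (by norm_num)
    have hx2 : sx κ t ≤ 1.1401 := sx_hi h 0.86 (-0.309) 0.269 1.36207 1.1401 hk2 g2 (by norm_num) (by rw [abs_of_nonpos (by linarith)]; linarith) (by rw [neg_neg]; exact expn_le (by norm_num) (by norm_num) (by norm_num)) (by norm_num) (by norm_num)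
    exact JB6_k0e_b3_3 hβ hN hx1 hx2 (by linarith) (by linarith)
  have hx1 : 0.941 ≤ sx κ t := sx_lo h 0.76 (-0.253) 0.269 1.28788 0.941 hk1 (by norm_num) hy2 (abs_le.2 ⟨by linarith, by linarith⟩) (by rw [neg_neg]; exact expn_ge (by norm_num) (by norm_num)) (by norm_num) (by norm_num)
  have hx2 : sx κ t ≤ 1.0967 := sx_hi h 0.86 (-0.269) 0.253 1.30866 1.0967 hk2 g3 (by norm_num) (by rw [abs_of_nonpos (by linarith)]; linarith) (by rw [neg_neg]; exact expn_le (by norm_num) (by norm_num) (by norm_num)) (by norm_num) (by norm_num)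
  exact JB6_k0e_b3_4 hβ hN hx1 hx2 (by linarith) (by linarith)

private theorem JB6_k0e_b4_0 {β x y : ℝ} (hβ : 0 < β) (hN : β * 10.638 ≤ 1) (hx1 : 1.1449 ≤ x) (hx2 : x ≤ 1.2766)
    (hy1 : -0.338 ≤ y) (hy2 : y ≤ -0.328) : ‖HH β (x + y * I) - 1‖ ≤ 0.095 := by
  refine le_epsJ (C := 1.0104) (N0 := 10.638) (J_boxp 1.1449 1.2766 0.338 0 (-0.328) 1.2762 1.3206 1.4427 0.8332 0.4792 3.2616 10.638 1.0348 4.396 1.607 0.6171 0.638 0.4179 0.8666 2.2933 0.7264 2.0852 2.9417 3.4121 0.00113 0.01174 0.00009924 0.0000003101 0.0004412 0.0000003101 0.0000003101 0.0000003101 1.0104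
    hβ hN hx1 hx2 hy1 hy2 (by norm_num) (by norm_num) (by linarith) (by norm_num) (by norm_num) (by norm_num) (by norm_num) (by norm_num) (by norm_num) (by norm_num) (by norm_num) (by norm_num) (by norm_num) (by norm_num) (by norm_num) (by norm_num) (by norm_num) (by norm_num) (by norm_num) (by norm_num) (by norm_num) (by norm_num) (by norm_num) (by norm_num)
    (cube_sqrt_geJ (s := 0.8093) (by norm_num) (by norm_num) (by norm_num) (by norm_num))
    (cube_sqrt_geJ (s := 0.9345) (by norm_num) (by norm_num) (by norm_num) (by norm_num))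
    (by norm_num) (by norm_num) (by norm_num) (by norm_num) (by norm_num) (by norm_num) (by norm_num) (by norm_num) (by norm_num) (by norm_num) (by norm_num) (by norm_num) (by norm_num) (by norm_num) (by norm_num) (by norm_num) (by norm_num) (by norm_num)
    (exp_neg_leJ (r := 0.787) 6 (by norm_num) (by norm_num) (by norm_num) (by norm_num))
    (exp_neg_leJ (r := 0.445) 4 (by norm_num) (by norm_num) (by norm_num) (by norm_num))
    (exp_neg_leJ (r := 0.218) 9 (by norm_num) (by norm_num) (by norm_num) (by norm_num))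
    (exp_neg_leJ (r := 0.99) 14 (by norm_num) (by norm_num) (by norm_num) (by norm_num))
    (exp_neg_leJ (r := 0.727) 7 (by norm_num) (by norm_num) (by norm_num) (by norm_num))
    (exp_neg_leJ (r := 0.99) 14 (by norm_num) (by norm_num) (by norm_num) (by norm_num))
    (exp_neg_leJ (r := 0.99) 14 (by norm_num) (by norm_num) (by norm_num) (by norm_num))
    (exp_neg_leJ (r := 0.99) 14 (by norm_num) (by norm_num) (by norm_num) (by norm_num))
    (by norm_num)) (by norm_num) hN hβ.le (by norm_num)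

private theorem JB6_k0e_b4_1 {β x y : ℝ} (hβ : 0 < β) (hN : β * 10.638 ≤ 1) (hx1 : 1.1294 ≤ x) (hx2 : x ≤ 1.2669)
    (hy1 : -0.328 ≤ y) (hy2 : y ≤ -0.313) : ‖HH β (x + y * I) - 1‖ ≤ 0.095 := by
  refine le_epsJ (C := 0.9988) (N0 := 10.638) (J_boxp 1.1294 1.2669 0.328 0 (-0.313) 1.2724 1.3087 1.4412 0.8365 0.479 3.2616 10.638 1.0286 4.348 1.602 0.63 0.6361 0.418 0.8771 2.3309 0.7244 2.0637 2.9378 3.4134 0.001154 0.01173 0.00008873 0.0000003101 0.0004505 0.0000003101 0.0000003101 0.0000003101 0.9988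
    hβ hN hx1 hx2 hy1 hy2 (by norm_num) (by norm_num) (by linarith) (by norm_num) (by norm_num) (by norm_num) (by norm_num) (by norm_num) (by norm_num) (by norm_num) (by norm_num) (by norm_num) (by norm_num) (by norm_num) (by norm_num) (by norm_num) (by norm_num) (by norm_num) (by norm_num) (by norm_num) (by norm_num) (by norm_num) (by norm_num) (by norm_num)
    (cube_sqrt_geJ (s := 0.8106) (by norm_num) (by norm_num) (by norm_num) (by norm_num))
    (cube_sqrt_geJ (s := 0.9349) (by norm_num) (by norm_num) (by norm_num) (by norm_num))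
    (by norm_num) (by norm_num) (by norm_num) (by norm_num) (by norm_num) (by norm_num) (by norm_num) (by norm_num) (by norm_num) (by norm_num) (by norm_num) (by norm_num) (by norm_num) (by norm_num) (by norm_num) (by norm_num) (by norm_num) (by norm_num)
    (exp_neg_leJ (r := 0.766) 6 (by norm_num) (by norm_num) (by norm_num) (by norm_num))
    (exp_neg_leJ (r := 0.446) 4 (by norm_num) (by norm_num) (by norm_num) (by norm_num))
    (exp_neg_leJ (r := 0.33) 9 (by norm_num) (by norm_num) (by norm_num) (by norm_num))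
    (exp_neg_leJ (r := 0.99) 14 (by norm_num) (by norm_num) (by norm_num) (by norm_num))
    (exp_neg_leJ (r := 0.706) 7 (by norm_num) (by norm_num) (by norm_num) (by norm_num))
    (exp_neg_leJ (r := 0.99) 14 (by norm_num) (by norm_num) (by norm_num) (by norm_num))
    (exp_neg_leJ (r := 0.99) 14 (by norm_num) (by norm_num) (by norm_num) (by norm_num))
    (exp_neg_leJ (r := 0.99) 14 (by norm_num) (by norm_num) (by norm_num) (by norm_num))
    (by norm_num)) (by norm_num) hN hβ.le (by norm_num)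

private theorem JB6_k0e_b4_2 {β x y : ℝ} (hβ : 0 < β) (hN : β * 10.638 ≤ 1) (hx1 : 1.0975 ≤ x) (hx2 : x ≤ 1.254)
    (hy1 : -0.313 ≤ y) (hy2 : y ≤ -0.283) : ‖HH β (x + y * I) - 1‖ ≤ 0.095 := by
  refine le_epsJ (C := 1.0097) (N0 := 10.638) (J_boxp 1.0975 1.254 0.313 0 (-0.283) 1.2606 1.2925 1.4446 0.8492 0.4795 3.2616 10.638 1.0254 4.324 1.6 0.6488 0.6302 0.4148 0.8899 2.3863 0.7171 2.0196 2.9148 3.3936 0.001227 0.01214 0.00007746 0.0000003101 0.0004869 0.0000003101 0.0000003101 0.0000003101 1.0097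
    hβ hN hx1 hx2 hy1 hy2 (by norm_num) (by norm_num) (by linarith) (by norm_num) (by norm_num) (by norm_num) (by norm_num) (by norm_num) (by norm_num) (by norm_num) (by norm_num) (by norm_num) (by norm_num) (by norm_num) (by norm_num) (by norm_num) (by norm_num) (by norm_num) (by norm_num) (by norm_num) (by norm_num) (by norm_num) (by norm_num) (by norm_num)
    (cube_sqrt_geJ (s := 0.8112) (by norm_num) (by norm_num) (by norm_num) (by norm_num))
    (cube_sqrt_geJ (s := 0.9351) (by norm_num) (by norm_num) (by norm_num) (by norm_num))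
    (by norm_num) (by norm_num) (by norm_num) (by norm_num) (by norm_num) (by norm_num) (by norm_num) (by norm_num) (by norm_num) (by norm_num) (by norm_num) (by norm_num) (by norm_num) (by norm_num) (by norm_num) (by norm_num) (by norm_num) (by norm_num)
    (exp_neg_leJ (r := 0.704) 6 (by norm_num) (by norm_num) (by norm_num) (by norm_num))
    (exp_neg_leJ (r := 0.412) 4 (by norm_num) (by norm_num) (by norm_num) (by norm_num))
    (exp_neg_leJ (r := 0.466) 9 (by norm_num) (by norm_num) (by norm_num) (by norm_num))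
    (exp_neg_leJ (r := 0.99) 14 (by norm_num) (by norm_num) (by norm_num) (by norm_num))
    (exp_neg_leJ (r := 0.628) 7 (by norm_num) (by norm_num) (by norm_num) (by norm_num))
    (exp_neg_leJ (r := 0.99) 14 (by norm_num) (by norm_num) (by norm_num) (by norm_num))
    (exp_neg_leJ (r := 0.99) 14 (by norm_num) (by norm_num) (by norm_num) (by norm_num))
    (exp_neg_leJ (r := 0.99) 14 (by norm_num) (by norm_num) (by norm_num) (by norm_num))
    (by norm_num)) (by norm_num) hN hβ.le (by norm_num)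

private theorem JB6_k0e_b4_3 {β x y : ℝ} (hβ : 0 < β) (hN : β * 10.638 ≤ 1) (hx1 : 1.0673 ≤ x) (hx2 : x ≤ 1.2222)
    (hy1 : -0.283 ≤ y) (hy2 : y ≤ -0.25) : ‖HH β (x + y * I) - 1‖ ≤ 0.095 := by
  refine le_epsJ (C := 0.9271) (N0 := 10.638) (J_boxp 1.0673 1.2222 0.283 0 (-0.25) 1.2606 1.2546 1.434 0.8461 0.4778 3.2616 10.638 0.9953 4.1 1.577 0.6888 0.6302 0.4211 0.9269 2.5005 0.7188 1.9777 2.936 3.4363 0.001227 0.01135 0.00005233 0.0000003101 0.0004783 0.0000003101 0.0000003101 0.0000003101 0.9271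
    hβ hN hx1 hx2 hy1 hy2 (by norm_num) (by norm_num) (by linarith) (by norm_num) (by norm_num) (by norm_num) (by norm_num) (by norm_num) (by norm_num) (by norm_num) (by norm_num) (by norm_num) (by norm_num) (by norm_num) (by norm_num) (by norm_num) (by norm_num) (by norm_num) (by norm_num) (by norm_num) (by norm_num) (by norm_num) (by norm_num) (by norm_num)
    (cube_sqrt_geJ (s := 0.8174) (by norm_num) (by norm_num) (by norm_num) (by norm_num))
    (cube_sqrt_geJ (s := 0.937) (by norm_num) (by norm_num) (by norm_num) (by norm_num))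
    (by norm_num) (by norm_num) (by norm_num) (by norm_num) (by norm_num) (by norm_num) (by norm_num) (by norm_num) (by norm_num) (by norm_num) (by norm_num) (by norm_num) (by norm_num) (by norm_num) (by norm_num) (by norm_num) (by norm_num) (by norm_num)
    (exp_neg_leJ (r := 0.704) 6 (by norm_num) (by norm_num) (by norm_num) (by norm_num))
    (exp_neg_leJ (r := 0.479) 4 (by norm_num) (by norm_num) (by norm_num) (by norm_num))
    (exp_neg_leJ (r := 0.86) 9 (by norm_num) (by norm_num) (by norm_num) (by norm_num))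
    (exp_neg_leJ (r := 0.99) 14 (by norm_num) (by norm_num) (by norm_num) (by norm_num))
    (exp_neg_leJ (r := 0.646) 7 (by norm_num) (by norm_num) (by norm_num) (by norm_num))
    (exp_neg_leJ (r := 0.99) 14 (by norm_num) (by norm_num) (by norm_num) (by norm_num))
    (exp_neg_leJ (r := 0.99) 14 (by norm_num) (by norm_num) (by norm_num) (by norm_num))
    (exp_neg_leJ (r := 0.99) 14 (by norm_num) (by norm_num) (by norm_num) (by norm_num))
    (by norm_num)) (by norm_num) hN hβ.le (by norm_num)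

private theorem JB6_k0e_c4 {κ t β : ℝ} (h : DomR κ t) (hβ : 0 < β) (hk1 : 0.86 ≤ κ) (hk2 : κ ≤ 0.94)
    (ht1 : -0.58 ≤ t + κ) (ht2 : t + κ ≤ -0.45) (hR0 : β * 10 ≤ κ) (hR : β * (4.95 * (1 + κ ^ 2)) ≤ κ) :
    ‖HH β (sg κ t) - 1‖ ≤ 0.095 := by
  have hN : β * 10.638 ≤ 1 := bNR hβ h.1 hk2 hR0 (by norm_num)
  have hy1 : -0.338 ≤ sy κ t := syL_ge h 0.86 0.94 0.58 0.338 0.71319 0.7132 0.2643 0.25644 0.28031 hk1 hk2 (by linarith) (by norm_num) (by norm_num) (by norm_num)
    (expm_ge (by norm_num) (by norm_num) (by norm_num) (by norm_num)) (expm_le (by norm_num) (by norm_num) (by norm_num)) (by norm_num)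
    (by norm_num) (by norm_num) (by norm_num) (by norm_num) (by norm_num) (by norm_num)
  have hy2 : sy κ t ≤ -0.25 := syL_le h 0.86 0.94 0.45 0.25 0.7788 0.77881 0.20712 0.2264 hk1 hk2 (by linarith) (by norm_num) (by norm_num) (by norm_num)
    (expm_ge (by norm_num) (by norm_num) (by norm_num) (by norm_num)) (expm_le (by norm_num) (by norm_num) (by norm_num)) (by norm_num)
    (by norm_num) (by norm_num) (by norm_num) (by norm_num) (by norm_num) (by norm_num)
  rcases le_total (sy κ t) (-0.328) with f0 | g0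
  · have hx1 : 1.1449 ≤ sx κ t := sx_lo h 0.86 (-0.328) 0.338 1.38818 1.1449 hk1 (by norm_num) f0 (abs_le.2 ⟨by linarith, by linarith⟩) (by rw [neg_neg]; exact expn_ge (by norm_num) (by norm_num)) (by norm_num) (by norm_num)
    have hx2 : sx κ t ≤ 1.2766 := sx_hi h 0.94 (-0.338) 0.328 1.40215 1.2766 hk2 hy1 (by norm_num) (by rw [abs_of_nonpos (by linarith)]; linarith) (by rw [neg_neg]; exact expn_le (by norm_num) (by norm_num) (by norm_num)) (by norm_num) (by norm_num)
    exact JB6_k0e_b4_0 hβ hN hx1 hx2 (by linarith) (by linarith)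
  rcases le_total (sy κ t) (-0.313) with f1 | g1
  · have hx1 : 1.1294 ≤ sx κ t := sx_lo h 0.86 (-0.313) 0.328 1.36752 1.1294 hk1 (by norm_num) f1 (abs_le.2 ⟨by linarith, by linarith⟩) (by rw [neg_neg]; exact expn_ge (by norm_num) (by norm_num)) (by norm_num) (by norm_num)
    have hx2 : sx κ t ≤ 1.2669 := sx_hi h 0.94 (-0.328) 0.313 1.38819 1.2669 hk2 g0 (by norm_num) (by rw [abs_of_nonpos (by linarith)]; linarith) (by rw [neg_neg]; exact expn_le (by norm_num) (by norm_num) (by norm_num)) (by norm_num) (by norm_num)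
    exact JB6_k0e_b4_1 hβ hN hx1 hx2 (by linarith) (by linarith)
  rcases le_total (sy κ t) (-0.283) with f2 | g2
  · have hx1 : 1.0975 ≤ sx κ t := sx_lo h 0.86 (-0.283) 0.313 1.3271 1.0975 hk1 (by norm_num) f2 (abs_le.2 ⟨by linarith, by linarith⟩) (by rw [neg_neg]; exact expn_ge (by norm_num) (by norm_num)) (by norm_num) (by norm_num)
    have hx2 : sx κ t ≤ 1.254 := sx_hi h 0.94 (-0.313) 0.283 1.36753 1.254 hk2 g1 (by norm_num) (by rw [abs_of_nonpos (by linarith)]; linarith) (by rw [neg_neg]; exact expn_le (by norm_num) (by norm_num) (by norm_num)) (by norm_num) (by norm_num)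
    exact JB6_k0e_b4_2 hβ hN hx1 hx2 (by linarith) (by linarith)
  have hx1 : 1.0673 ≤ sx κ t := sx_lo h 0.86 (-0.25) 0.283 1.28402 1.0673 hk1 (by norm_num) hy2 (abs_le.2 ⟨by linarith, by linarith⟩) (by rw [neg_neg]; exact expn_ge (by norm_num) (by norm_num)) (by norm_num) (by norm_num)
  have hx2 : sx κ t ≤ 1.2222 := sx_hi h 0.94 (-0.283) 0.25 1.32711 1.2222 hk2 g2 (by norm_num) (by rw [abs_of_nonpos (by linarith)]; linarith) (by rw [neg_neg]; exact expn_le (by norm_num) (by norm_num) (by norm_num)) (by norm_num) (by norm_num)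
  exact JB6_k0e_b4_3 hβ hN hx1 hx2 (by linarith) (by linarith)

private theorem JB6_k0e_b5_0 {β x y : ℝ} (hβ : 0 < β) (hN : β * 9.999 ≤ 1) (hx1 : 1.2461 ≤ x) (hx2 : x ≤ 1.3561)
    (hy1 : -0.331 ≤ y) (hy2 : y ≤ -0.316) : ‖HH β (x + y * I) - 1‖ ≤ 0.095 := by
  refine le_epsJ (C := 0.9452) (N0 := 9.999) (J_boxp 1.2461 1.3561 0.331 0 (-0.316) 1.3524 1.396 1.5189 0.7837 0.4917 3.1622 9.999 1.0323 4.377 1.605 0.593 0.6761 0.4435 0.9123 2.2704 0.7794 2.2253 3.1631 3.4095 0.001161 0.01187 0.0001093 0.0000003101 0.0004132 0.0000003101 0.0000003101 0.0000003101 0.9452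
    hβ hN hx1 hx2 hy1 hy2 (by norm_num) (by norm_num) (by linarith) (by norm_num) (by norm_num) (by norm_num) (by norm_num) (by norm_num) (by norm_num) (by norm_num) (by norm_num) (by norm_num) (by norm_num) (by norm_num) (by norm_num) (by norm_num) (by norm_num) (by norm_num) (by norm_num) (by norm_num) (by norm_num) (by norm_num) (by norm_num) (by norm_num)
    (cube_sqrt_geJ (s := 0.8098) (by norm_num) (by norm_num) (by norm_num) (by norm_num))
    (cube_sqrt_geJ (s := 0.9346) (by norm_num) (by norm_num) (by norm_num) (by norm_num))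
    (by norm_num) (by norm_num) (by norm_num) (by norm_num) (by norm_num) (by norm_num) (by norm_num) (by norm_num) (by norm_num) (by norm_num) (by norm_num) (by norm_num) (by norm_num) (by norm_num) (by norm_num) (by norm_num) (by norm_num) (by norm_num)
    (exp_neg_leJ (r := 0.76) 6 (by norm_num) (by norm_num) (by norm_num) (by norm_num))
    (exp_neg_leJ (r := 0.434) 4 (by norm_num) (by norm_num) (by norm_num) (by norm_num))
    (exp_neg_leJ (r := 0.122) 9 (by norm_num) (by norm_num) (by norm_num) (by norm_num))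
    (exp_neg_leJ (r := 0.99) 14 (by norm_num) (by norm_num) (by norm_num) (by norm_num))
    (exp_neg_leJ (r := 0.793) 7 (by norm_num) (by norm_num) (by norm_num) (by norm_num))
    (exp_neg_leJ (r := 0.99) 14 (by norm_num) (by norm_num) (by norm_num) (by norm_num))
    (exp_neg_leJ (r := 0.99) 14 (by norm_num) (by norm_num) (by norm_num) (by norm_num))
    (exp_neg_leJ (r := 0.99) 14 (by norm_num) (by norm_num) (by norm_num) (by norm_num))
    (by norm_num)) (by norm_num) hN hβ.le (by norm_num)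

private theorem JB6_k0e_b5_1 {β x y : ℝ} (hβ : 0 < β) (hN : β * 9.999 ≤ 1) (hx1 : 1.2171 ≤ x) (hx2 : x ≤ 1.3405)
    (hy1 : -0.316 ≤ y) (hy2 : y ≤ -0.291) : ‖HH β (x + y * I) - 1‖ ≤ 0.095 := by
  refine le_epsJ (C := 0.9415) (N0 := 9.999) (J_boxp 1.2171 1.3405 0.316 0 (-0.291) 1.3426 1.3773 1.5165 0.7916 0.4913 3.1622 9.999 1.0259 4.327 1.6 0.6128 0.6712 0.4417 0.9261 2.3273 0.7735 2.1852 3.1459 3.4023 0.001219 0.01209 0.00009516 0.0000003101 0.0004382 0.0000003101 0.0000003101 0.0000003101 0.9415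
    hβ hN hx1 hx2 hy1 hy2 (by norm_num) (by norm_num) (by linarith) (by norm_num) (by norm_num) (by norm_num) (by norm_num) (by norm_num) (by norm_num) (by norm_num) (by norm_num) (by norm_num) (by norm_num) (by norm_num) (by norm_num) (by norm_num) (by norm_num) (by norm_num) (by norm_num) (by norm_num) (by norm_num) (by norm_num) (by norm_num) (by norm_num)
    (cube_sqrt_geJ (s := 0.8111) (by norm_num) (by norm_num) (by norm_num) (by norm_num))
    (cube_sqrt_geJ (s := 0.935) (by norm_num) (by norm_num) (by norm_num) (by norm_num))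
    (by norm_num) (by norm_num) (by norm_num) (by norm_num) (by norm_num) (by norm_num) (by norm_num) (by norm_num) (by norm_num) (by norm_num) (by norm_num) (by norm_num) (by norm_num) (by norm_num) (by norm_num) (by norm_num) (by norm_num) (by norm_num)
    (exp_neg_leJ (r := 0.711) 6 (by norm_num) (by norm_num) (by norm_num) (by norm_num))
    (exp_neg_leJ (r := 0.416) 4 (by norm_num) (by norm_num) (by norm_num) (by norm_num))
    (exp_neg_leJ (r := 0.26) 9 (by norm_num) (by norm_num) (by norm_num) (by norm_num))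
    (exp_neg_leJ (r := 0.99) 14 (by norm_num) (by norm_num) (by norm_num) (by norm_num))
    (exp_neg_leJ (r := 0.734) 7 (by norm_num) (by norm_num) (by norm_num) (by norm_num))
    (exp_neg_leJ (r := 0.99) 14 (by norm_num) (by norm_num) (by norm_num) (by norm_num))
    (exp_neg_leJ (r := 0.99) 14 (by norm_num) (by norm_num) (by norm_num) (by norm_num))
    (exp_neg_leJ (r := 0.99) 14 (by norm_num) (by norm_num) (by norm_num) (by norm_num))
    (by norm_num)) (by norm_num) hN hβ.le (by norm_num)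

private theorem JB6_k0e_b5_2 {β x y : ℝ} (hβ : 0 < β) (hN : β * 9.999 ≤ 1) (hx1 : 1.1664 ≤ x) (hx2 : x ≤ 1.315)
    (hy1 : -0.291 ≤ y) (hy2 : y ≤ -0.246) : ‖HH β (x + y * I) - 1‖ ≤ 0.095 := by
  refine le_epsJ (C := 0.943) (N0 := 9.999) (J_boxp 1.1664 1.315 0.291 0 (-0.246) 1.3247 1.3469 1.5159 0.8076 0.4912 3.1622 9.999 1.0168 4.258 1.593 0.6457 0.6623 0.4378 0.9482 2.4218 0.7625 2.115 3.1124 3.3836 0.001332 0.01257 0.0000763 0.0000003101 0.0004889 0.0000003101 0.0000003101 0.0000003101 0.943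
    hβ hN hx1 hx2 hy1 hy2 (by norm_num) (by norm_num) (by linarith) (by norm_num) (by norm_num) (by norm_num) (by norm_num) (by norm_num) (by norm_num) (by norm_num) (by norm_num) (by norm_num) (by norm_num) (by norm_num) (by norm_num) (by norm_num) (by norm_num) (by norm_num) (by norm_num) (by norm_num) (by norm_num) (by norm_num) (by norm_num) (by norm_num)
    (cube_sqrt_geJ (s := 0.813) (by norm_num) (by norm_num) (by norm_num) (by norm_num))
    (cube_sqrt_geJ (s := 0.9356) (by norm_num) (by norm_num) (by norm_num) (by norm_num))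
    (by norm_num) (by norm_num) (by norm_num) (by norm_num) (by norm_num) (by norm_num) (by norm_num) (by norm_num) (by norm_num) (by norm_num) (by norm_num) (by norm_num) (by norm_num) (by norm_num) (by norm_num) (by norm_num) (by norm_num) (by norm_num)
    (exp_neg_leJ (r := 0.622) 6 (by norm_num) (by norm_num) (by norm_num) (by norm_num))
    (exp_neg_leJ (r := 0.377) 4 (by norm_num) (by norm_num) (by norm_num) (by norm_num))
    (exp_neg_leJ (r := 0.481) 9 (by norm_num) (by norm_num) (by norm_num) (by norm_num))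
    (exp_neg_leJ (r := 0.99) 14 (by norm_num) (by norm_num) (by norm_num) (by norm_num))
    (exp_neg_leJ (r := 0.624) 7 (by norm_num) (by norm_num) (by norm_num) (by norm_num))
    (exp_neg_leJ (r := 0.99) 14 (by norm_num) (by norm_num) (by norm_num) (by norm_num))
    (exp_neg_leJ (r := 0.99) 14 (by norm_num) (by norm_num) (by norm_num) (by norm_num))
    (exp_neg_leJ (r := 0.99) 14 (by norm_num) (by norm_num) (by norm_num) (by norm_num))
    (by norm_num)) (by norm_num) hN hβ.le (by norm_num)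

private theorem JB6_k0e_c5 {κ t β : ℝ} (h : DomR κ t) (hβ : 0 < β) (hk1 : 0.94 ≤ κ) (hk2 : κ ≤ 1)
    (ht1 : -0.58 ≤ t + κ) (ht2 : t + κ ≤ -0.45) (hR0 : β * 10 ≤ κ) (hR : β * (4.95 * (1 + κ ^ 2)) ≤ κ) :
    ‖HH β (sg κ t) - 1‖ ≤ 0.095 := by
  have hN : β * 9.999 ≤ 1 := bNR hβ h.1 hk2 hR0 (by norm_num)
  have hy1 : -0.331 ≤ sy κ t := syL_ge h 0.94 1 0.58 0.331 0.7182 0.71821 0.2339 0.23772 0.25291 hk1 hk2 (by linarith) (by norm_num) (by norm_num) (by norm_num)
    (expm_ge (by norm_num) (by norm_num) (by norm_num) (by norm_num)) (expm_le (by norm_num) (by norm_num) (by norm_num)) (by norm_num)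
    (by norm_num) (by norm_num) (by norm_num) (by norm_num) (by norm_num) (by norm_num)
  have hy2 : sy κ t ≤ -0.246 := syL_le h 0.94 1 0.45 0.246 0.78192 0.78193 0.19235 0.20464 hk1 hk2 (by linarith) (by norm_num) (by norm_num) (by norm_num)
    (expm_ge (by norm_num) (by norm_num) (by norm_num) (by norm_num)) (expm_le (by norm_num) (by norm_num) (by norm_num)) (by norm_num)
    (by norm_num) (by norm_num) (by norm_num) (by norm_num) (by norm_num) (by norm_num)
  rcases le_total (sy κ t) (-0.316) with f0 | g0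
  · have hx1 : 1.2461 ≤ sx κ t := sx_lo h 0.94 (-0.316) 0.331 1.37163 1.2461 hk1 (by norm_num) f0 (abs_le.2 ⟨by linarith, by linarith⟩) (by rw [neg_neg]; exact expn_ge (by norm_num) (by norm_num)) (by norm_num) (by norm_num)
    have hx2 : sx κ t ≤ 1.3561 := sx_hi h 1 (-0.331) 0.316 1.39236 1.3561 hk2 hy1 (by norm_num) (by rw [abs_of_nonpos (by linarith)]; linarith) (by rw [neg_neg]; exact expn_le (by norm_num) (by norm_num) (by norm_num)) (by norm_num) (by norm_num)
    exact JB6_k0e_b5_0 hβ hN hx1 hx2 (by linarith) (by linarith)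
  rcases le_total (sy κ t) (-0.291) with f1 | g1
  · have hx1 : 1.2171 ≤ sx κ t := sx_lo h 0.94 (-0.291) 0.316 1.33776 1.2171 hk1 (by norm_num) f1 (abs_le.2 ⟨by linarith, by linarith⟩) (by rw [neg_neg]; exact expn_ge (by norm_num) (by norm_num)) (by norm_num) (by norm_num)
    have hx2 : sx κ t ≤ 1.3405 := sx_hi h 1 (-0.316) 0.291 1.37164 1.3405 hk2 g0 (by norm_num) (by rw [abs_of_nonpos (by linarith)]; linarith) (by rw [neg_neg]; exact expn_le (by norm_num) (by norm_num) (by norm_num)) (by norm_num) (by norm_num)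
    exact JB6_k0e_b5_1 hβ hN hx1 hx2 (by linarith) (by linarith)
  have hx1 : 1.1664 ≤ sx κ t := sx_lo h 0.94 (-0.246) 0.291 1.27889 1.1664 hk1 (by norm_num) hy2 (abs_le.2 ⟨by linarith, by linarith⟩) (by rw [neg_neg]; exact expn_ge (by norm_num) (by norm_num)) (by norm_num) (by norm_num)
  have hx2 : sx κ t ≤ 1.315 := sx_hi h 1 (-0.291) 0.246 1.33777 1.315 hk2 g1 (by norm_num) (by rw [abs_of_nonpos (by linarith)]; linarith) (by rw [neg_neg]; exact expn_le (by norm_num) (by norm_num) (by norm_num)) (by norm_num) (by norm_num)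
  exact JB6_k0e_b5_2 hβ hN hx1 hx2 (by linarith) (by linarith)

private theorem JB6_k0e_b6_0 {β x y : ℝ} (hβ : 0 < β) (hN : β * 9.899 ≤ 1) (hx1 : 1.337 ≤ x) (hx2 : x ≤ 1.4588)
    (hy1 : -0.324 ≤ y) (hy2 : y ≤ -0.319) : ‖HH β (x + y * I) - 1‖ ≤ 0.095 := by
  refine le_epsJ (C := 0.9348) (N0 := 9.899) (J_boxp 1.337 1.4588 0.324 0 (-0.319) 1.4214 1.4944 1.61 0.7488 0.5063 3.1463 9.899 1.0514 4.529 1.62 0.5599 0.7106 0.4616 0.9545 2.2341 0.8274 2.3512 3.3639 3.3238 0.0008815 0.01038 0.00007886 0.0000003101 0.0002775 0.0000003101 0.0000003101 0.0000003101 0.9348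
    hβ hN hx1 hx2 hy1 hy2 (by norm_num) (by norm_num) (by linarith) (by norm_num) (by norm_num) (by norm_num) (by norm_num) (by norm_num) (by norm_num) (by norm_num) (by norm_num) (by norm_num) (by norm_num) (by norm_num) (by norm_num) (by norm_num) (by norm_num) (by norm_num) (by norm_num) (by norm_num) (by norm_num) (by norm_num) (by norm_num) (by norm_num)
    (cube_sqrt_geJ (s := 0.8059) (by norm_num) (by norm_num) (by norm_num) (by norm_num))
    (cube_sqrt_geJ (s := 0.9334) (by norm_num) (by norm_num) (by norm_num) (by norm_num))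
    (by norm_num) (by norm_num) (by norm_num) (by norm_num) (by norm_num) (by norm_num) (by norm_num) (by norm_num) (by norm_num) (by norm_num) (by norm_num) (by norm_num) (by norm_num) (by norm_num) (by norm_num) (by norm_num) (by norm_num) (by norm_num)
    (exp_neg_leJ (r := 0.034) 7 (by norm_num) (by norm_num) (by norm_num) (by norm_num))
    (exp_neg_leJ (r := 0.569) 4 (by norm_num) (by norm_num) (by norm_num) (by norm_num))
    (exp_neg_leJ (r := 0.448) 9 (by norm_num) (by norm_num) (by norm_num) (by norm_num))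
    (exp_neg_leJ (r := 0.99) 14 (by norm_num) (by norm_num) (by norm_num) (by norm_num))
    (exp_neg_leJ (r := 0.19) 8 (by norm_num) (by norm_num) (by norm_num) (by norm_num))
    (exp_neg_leJ (r := 0.99) 14 (by norm_num) (by norm_num) (by norm_num) (by norm_num))
    (exp_neg_leJ (r := 0.99) 14 (by norm_num) (by norm_num) (by norm_num) (by norm_num))
    (exp_neg_leJ (r := 0.99) 14 (by norm_num) (by norm_num) (by norm_num) (by norm_num))
    (by norm_num)) (by norm_num) hN hβ.le (by norm_num)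

private theorem JB6_k0e_b6_1 {β x y : ℝ} (hβ : 0 < β) (hN : β * 9.899 ≤ 1) (hx1 : 1.3311 ≤ x) (hx2 : x ≤ 1.4523)
    (hy1 : -0.319 ≤ y) (hy2 : y ≤ -0.314) : ‖HH β (x + y * I) - 1‖ ≤ 0.095 := by
  refine le_epsJ (C := 0.9224) (N0 := 9.899) (J_boxp 1.3311 1.4523 0.319 0 (-0.314) 1.4208 1.487 1.6062 0.7484 0.5057 3.1463 9.899 1.0466 4.49 1.617 0.567 0.7103 0.4625 0.9604 2.2538 0.8272 2.343 3.3657 3.3321 0.0008841 0.01028 0.00007442 0.0000003101 0.000278 0.0000003101 0.0000003101 0.0000003101 0.9224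
    hβ hN hx1 hx2 hy1 hy2 (by norm_num) (by norm_num) (by linarith) (by norm_num) (by norm_num) (by norm_num) (by norm_num) (by norm_num) (by norm_num) (by norm_num) (by norm_num) (by norm_num) (by norm_num) (by norm_num) (by norm_num) (by norm_num) (by norm_num) (by norm_num) (by norm_num) (by norm_num) (by norm_num) (by norm_num) (by norm_num) (by norm_num)
    (cube_sqrt_geJ (s := 0.8069) (by norm_num) (by norm_num) (by norm_num) (by norm_num))
    (cube_sqrt_geJ (s := 0.9337) (by norm_num) (by norm_num) (by norm_num) (by norm_num))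
    (by norm_num) (by norm_num) (by norm_num) (by norm_num) (by norm_num) (by norm_num) (by norm_num) (by norm_num) (by norm_num) (by norm_num) (by norm_num) (by norm_num) (by norm_num) (by norm_num) (by norm_num) (by norm_num) (by norm_num) (by norm_num)
    (exp_neg_leJ (r := 0.031) 7 (by norm_num) (by norm_num) (by norm_num) (by norm_num))
    (exp_neg_leJ (r := 0.578) 4 (by norm_num) (by norm_num) (by norm_num) (by norm_num))
    (exp_neg_leJ (r := 0.506) 9 (by norm_num) (by norm_num) (by norm_num) (by norm_num))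
    (exp_neg_leJ (r := 0.99) 14 (by norm_num) (by norm_num) (by norm_num) (by norm_num))
    (exp_neg_leJ (r := 0.188) 8 (by norm_num) (by norm_num) (by norm_num) (by norm_num))
    (exp_neg_leJ (r := 0.99) 14 (by norm_num) (by norm_num) (by norm_num) (by norm_num))
    (exp_neg_leJ (r := 0.99) 14 (by norm_num) (by norm_num) (by norm_num) (by norm_num))
    (exp_neg_leJ (r := 0.99) 14 (by norm_num) (by norm_num) (by norm_num) (by norm_num))
    (by norm_num)) (by norm_num) hN hβ.le (by norm_num)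

private theorem JB6_k0e_b6_2 {β x y : ℝ} (hβ : 0 < β) (hN : β * 9.899 ≤ 1) (hx1 : 1.3183 ≤ x) (hx2 : x ≤ 1.4469)
    (hy1 : -0.314 ≤ y) (hy2 : y ≤ -0.304) : ‖HH β (x + y * I) - 1‖ ≤ 0.095 := by
  refine le_epsJ (C := 0.9279) (N0 := 9.899) (J_boxp 1.3183 1.4469 0.314 0 (-0.304) 1.4153 1.4806 1.6056 0.7526 0.5056 3.1463 9.899 1.0462 4.486 1.616 0.5737 0.7076 0.4608 0.9639 2.2729 0.8238 2.3253 3.3537 3.3239 0.0009083 0.01046 0.00007187 0.0000003101 0.0002876 0.0000003101 0.0000003101 0.0000003101 0.9279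
    hβ hN hx1 hx2 hy1 hy2 (by norm_num) (by norm_num) (by linarith) (by norm_num) (by norm_num) (by norm_num) (by norm_num) (by norm_num) (by norm_num) (by norm_num) (by norm_num) (by norm_num) (by norm_num) (by norm_num) (by norm_num) (by norm_num) (by norm_num) (by norm_num) (by norm_num) (by norm_num) (by norm_num) (by norm_num) (by norm_num) (by norm_num)
    (cube_sqrt_geJ (s := 0.807) (by norm_num) (by norm_num) (by norm_num) (by norm_num))
    (cube_sqrt_geJ (s := 0.9337) (by norm_num) (by norm_num) (by norm_num) (by norm_num))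
    (by norm_num) (by norm_num) (by norm_num) (by norm_num) (by norm_num) (by norm_num) (by norm_num) (by norm_num) (by norm_num) (by norm_num) (by norm_num) (by norm_num) (by norm_num) (by norm_num) (by norm_num) (by norm_num) (by norm_num) (by norm_num)
    (exp_neg_leJ (r := 0.004) 7 (by norm_num) (by norm_num) (by norm_num) (by norm_num))
    (exp_neg_leJ (r := 0.561) 4 (by norm_num) (by norm_num) (by norm_num) (by norm_num))
    (exp_neg_leJ (r := 0.541) 9 (by norm_num) (by norm_num) (by norm_num) (by norm_num))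
    (exp_neg_leJ (r := 0.99) 14 (by norm_num) (by norm_num) (by norm_num) (by norm_num))
    (exp_neg_leJ (r := 0.154) 8 (by norm_num) (by norm_num) (by norm_num) (by norm_num))
    (exp_neg_leJ (r := 0.99) 14 (by norm_num) (by norm_num) (by norm_num) (by norm_num))
    (exp_neg_leJ (r := 0.99) 14 (by norm_num) (by norm_num) (by norm_num) (by norm_num))
    (exp_neg_leJ (r := 0.99) 14 (by norm_num) (by norm_num) (by norm_num) (by norm_num))
    (by norm_num)) (by norm_num) hN hβ.le (by norm_num)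

private theorem JB6_k0e_b6_3 {β x y : ℝ} (hβ : 0 < β) (hN : β * 9.899 ≤ 1) (hx1 : 1.2931 ≤ x) (hx2 : x ≤ 1.4359)
    (hy1 : -0.304 ≤ y) (hy2 : y ≤ -0.284) : ‖HH β (x + y * I) - 1‖ ≤ 0.095 := by
  refine le_epsJ (C := 0.9382) (N0 := 9.899) (J_boxp 1.2931 1.4359 0.304 0 (-0.284) 1.4047 1.4678 1.6046 0.7609 0.5054 3.1463 9.899 1.045 4.477 1.615 0.5872 0.7023 0.4576 0.971 2.3111 0.817 2.2904 3.3305 3.3083 0.0009596 0.0108 0.00006702 0.0000003101 0.0003076 0.0000003101 0.0000003101 0.0000003101 0.9382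
    hβ hN hx1 hx2 hy1 hy2 (by norm_num) (by norm_num) (by linarith) (by norm_num) (by norm_num) (by norm_num) (by norm_num) (by norm_num) (by norm_num) (by norm_num) (by norm_num) (by norm_num) (by norm_num) (by norm_num) (by norm_num) (by norm_num) (by norm_num) (by norm_num) (by norm_num) (by norm_num) (by norm_num) (by norm_num) (by norm_num) (by norm_num)
    (cube_sqrt_geJ (s := 0.8072) (by norm_num) (by norm_num) (by norm_num) (by norm_num))
    (cube_sqrt_geJ (s := 0.9338) (by norm_num) (by norm_num) (by norm_num) (by norm_num))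
    (by norm_num) (by norm_num) (by norm_num) (by norm_num) (by norm_num) (by norm_num) (by norm_num) (by norm_num) (by norm_num) (by norm_num) (by norm_num) (by norm_num) (by norm_num) (by norm_num) (by norm_num) (by norm_num) (by norm_num) (by norm_num)
    (exp_neg_leJ (r := 0.952) 6 (by norm_num) (by norm_num) (by norm_num) (by norm_num))
    (exp_neg_leJ (r := 0.529) 4 (by norm_num) (by norm_num) (by norm_num) (by norm_num))
    (exp_neg_leJ (r := 0.611) 9 (by norm_num) (by norm_num) (by norm_num) (by norm_num))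
    (exp_neg_leJ (r := 0.99) 14 (by norm_num) (by norm_num) (by norm_num) (by norm_num))
    (exp_neg_leJ (r := 0.087) 8 (by norm_num) (by norm_num) (by norm_num) (by norm_num))
    (exp_neg_leJ (r := 0.99) 14 (by norm_num) (by norm_num) (by norm_num) (by norm_num))
    (exp_neg_leJ (r := 0.99) 14 (by norm_num) (by norm_num) (by norm_num) (by norm_num))
    (exp_neg_leJ (r := 0.99) 14 (by norm_num) (by norm_num) (by norm_num) (by norm_num))
    (by norm_num)) (by norm_num) hN hβ.le (by norm_num)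

private theorem JB6_k0e_b6_4 {β x y : ℝ} (hβ : 0 < β) (hN : β * 9.899 ≤ 1) (hx1 : 1.2509 ≤ x) (hx2 : x ≤ 1.413)
    (hy1 : -0.284 ≤ y) (hy2 : y ≤ -0.249) : ‖HH β (x + y * I) - 1‖ ≤ 0.095 := by
  refine le_epsJ (C := 0.9379) (N0 := 9.899) (J_boxp 1.2509 1.413 0.284 0 (-0.249) 1.3892 1.4413 1.6002 0.7726 0.5047 3.1463 9.899 1.0376 4.418 1.609 0.6145 0.6945 0.4543 0.9881 2.3881 0.8074 2.232 3.3005 3.296 0.001037 0.01115 0.00005659 0.0000003101 0.0003401 0.0000003101 0.0000003101 0.0000003101 0.9379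
    hβ hN hx1 hx2 hy1 hy2 (by norm_num) (by norm_num) (by linarith) (by norm_num) (by norm_num) (by norm_num) (by norm_num) (by norm_num) (by norm_num) (by norm_num) (by norm_num) (by norm_num) (by norm_num) (by norm_num) (by norm_num) (by norm_num) (by norm_num) (by norm_num) (by norm_num) (by norm_num) (by norm_num) (by norm_num) (by norm_num) (by norm_num)
    (cube_sqrt_geJ (s := 0.8087) (by norm_num) (by norm_num) (by norm_num) (by norm_num))
    (cube_sqrt_geJ (s := 0.9343) (by norm_num) (by norm_num) (by norm_num) (by norm_num))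
    (by norm_num) (by norm_num) (by norm_num) (by norm_num) (by norm_num) (by norm_num) (by norm_num) (by norm_num) (by norm_num) (by norm_num) (by norm_num) (by norm_num) (by norm_num) (by norm_num) (by norm_num) (by norm_num) (by norm_num) (by norm_num)
    (exp_neg_leJ (r := 0.874) 6 (by norm_num) (by norm_num) (by norm_num) (by norm_num))
    (exp_neg_leJ (r := 0.497) 4 (by norm_num) (by norm_num) (by norm_num) (by norm_num))
    (exp_neg_leJ (r := 0.781) 9 (by norm_num) (by norm_num) (by norm_num) (by norm_num))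
    (exp_neg_leJ (r := 0.99) 14 (by norm_num) (by norm_num) (by norm_num) (by norm_num))
    (exp_neg_leJ (r := 0.99) 7 (by norm_num) (by norm_num) (by norm_num) (by norm_num))
    (exp_neg_leJ (r := 0.99) 14 (by norm_num) (by norm_num) (by norm_num) (by norm_num))
    (exp_neg_leJ (r := 0.99) 14 (by norm_num) (by norm_num) (by norm_num) (by norm_num))
    (exp_neg_leJ (r := 0.99) 14 (by norm_num) (by norm_num) (by norm_num) (by norm_num))
    (by norm_num)) (by norm_num) hN hβ.le (by norm_num)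

private theorem JB6_k0e_b6_5 {β x y : ℝ} (hβ : 0 < β) (hN : β * 9.899 ≤ 1) (hx1 : 1.2479 ≤ x) (hx2 : x ≤ 1.3643)
    (hy1 : -0.249 ≤ y) (hy2 : y ≤ -0.241) : ‖HH β (x + y * I) - 1‖ ≤ 0.095 := by
  refine le_epsJ (C := 0.7717) (N0 := 9.899) (J_boxp 1.2479 1.3643 0.249 0 (-0.241) 1.4119 1.3869 1.5613 0.7448 0.4985 3.1463 9.899 0.9823 4.008 1.567 0.6655 0.7059 0.4747 1.0424 2.5277 0.8251 2.2278 3.3896 3.4378 0.0009271 0.009112 0.00003304 0.0000003101 0.0002839 0.0000003101 0.0000003101 0.0000003101 0.7717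
    hβ hN hx1 hx2 hy1 hy2 (by norm_num) (by norm_num) (by linarith) (by norm_num) (by norm_num) (by norm_num) (by norm_num) (by norm_num) (by norm_num) (by norm_num) (by norm_num) (by norm_num) (by norm_num) (by norm_num) (by norm_num) (by norm_num) (by norm_num) (by norm_num) (by norm_num) (by norm_num) (by norm_num) (by norm_num) (by norm_num) (by norm_num)
    (cube_sqrt_geJ (s := 0.8201) (by norm_num) (by norm_num) (by norm_num) (by norm_num))
    (cube_sqrt_geJ (s := 0.9379) (by norm_num) (by norm_num) (by norm_num) (by norm_num))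
    (by norm_num) (by norm_num) (by norm_num) (by norm_num) (by norm_num) (by norm_num) (by norm_num) (by norm_num) (by norm_num) (by norm_num) (by norm_num) (by norm_num) (by norm_num) (by norm_num) (by norm_num) (by norm_num) (by norm_num) (by norm_num)
    (exp_neg_leJ (r := 0.987) 6 (by norm_num) (by norm_num) (by norm_num) (by norm_num))
    (exp_neg_leJ (r := 0.699) 4 (by norm_num) (by norm_num) (by norm_num) (by norm_num))
    (exp_neg_leJ (r := 0.318) 10 (by norm_num) (by norm_num) (by norm_num) (by norm_num))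
    (exp_neg_leJ (r := 0.99) 14 (by norm_num) (by norm_num) (by norm_num) (by norm_num))
    (exp_neg_leJ (r := 0.167) 8 (by norm_num) (by norm_num) (by norm_num) (by norm_num))
    (exp_neg_leJ (r := 0.99) 14 (by norm_num) (by norm_num) (by norm_num) (by norm_num))
    (exp_neg_leJ (r := 0.99) 14 (by norm_num) (by norm_num) (by norm_num) (by norm_num))
    (exp_neg_leJ (r := 0.99) 14 (by norm_num) (by norm_num) (by norm_num) (by norm_num))
    (by norm_num)) (by norm_num) hN hβ.le (by norm_num)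

private theorem JB6_k0e_c6 {κ t β : ℝ} (h : DomR κ t) (hβ : 0 < β) (hk1 : 1 ≤ κ) (hk2 : κ ≤ 1.08)
    (ht1 : -0.58 ≤ t + κ) (ht2 : t + κ ≤ -0.45) (hR0 : β * 10 ≤ κ) (hR : β * (4.95 * (1 + κ ^ 2)) ≤ κ) :
    ‖HH β (sg κ t) - 1‖ ≤ 0.095 := by
  have hN : β * 9.899 ≤ 1 := bNC' hβ hk1 (by norm_num) (by norm_num) hR (by norm_num)
  have hy1 : -0.324 ≤ sy κ t := syL_ge h 1 1.08 0.58 0.324 0.72325 0.72326 0.2256 0.21697 0.23434 hk1 hk2 (by linarith) (by norm_num) (by norm_num) (by norm_num)
    (expm_ge (by norm_num) (by norm_num) (by norm_num) (by norm_num)) (expm_le (by norm_num) (by norm_num) (by norm_num)) (by norm_num)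
    (by norm_num) (by norm_num) (by norm_num) (by norm_num) (by norm_num) (by norm_num)
  have hy2 : sy κ t ≤ -0.241 := syL_le h 1 1.08 0.45 0.241 0.78584 0.78585 0.17535 0.18939 hk1 hk2 (by linarith) (by norm_num) (by norm_num) (by norm_num)
    (expm_ge (by norm_num) (by norm_num) (by norm_num) (by norm_num)) (expm_le (by norm_num) (by norm_num) (by norm_num)) (by norm_num)
    (by norm_num) (by norm_num) (by norm_num) (by norm_num) (by norm_num) (by norm_num)
  rcases le_total (sy κ t) (-0.319) with f0 | g0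
  · have hx1 : 1.337 ≤ sx κ t := sx_lo h 1 (-0.319) 0.324 1.37575 1.337 hk1 (by norm_num) f0 (abs_le.2 ⟨by linarith, by linarith⟩) (by rw [neg_neg]; exact expn_ge (by norm_num) (by norm_num)) (by norm_num) (by norm_num)
    have hx2 : sx κ t ≤ 1.4588 := sx_hi h 1.08 (-0.324) 0.319 1.38265 1.4588 hk2 hy1 (by norm_num) (by rw [abs_of_nonpos (by linarith)]; linarith) (by rw [neg_neg]; exact expn_le (by norm_num) (by norm_num) (by norm_num)) (by norm_num) (by norm_num)
    exact JB6_k0e_b6_0 hβ hN hx1 hx2 (by linarith) (by linarith)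
  rcases le_total (sy κ t) (-0.314) with f1 | g1
  · have hx1 : 1.3311 ≤ sx κ t := sx_lo h 1 (-0.314) 0.319 1.36888 1.3311 hk1 (by norm_num) f1 (abs_le.2 ⟨by linarith, by linarith⟩) (by rw [neg_neg]; exact expn_ge (by norm_num) (by norm_num)) (by norm_num) (by norm_num)
    have hx2 : sx κ t ≤ 1.4523 := sx_hi h 1.08 (-0.319) 0.314 1.37576 1.4523 hk2 g0 (by norm_num) (by rw [abs_of_nonpos (by linarith)]; linarith) (by rw [neg_neg]; exact expn_le (by norm_num) (by norm_num) (by norm_num)) (by norm_num) (by norm_num)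
    exact JB6_k0e_b6_1 hβ hN hx1 hx2 (by linarith) (by linarith)
  rcases le_total (sy κ t) (-0.304) with f2 | g2
  · have hx1 : 1.3183 ≤ sx κ t := sx_lo h 1 (-0.304) 0.314 1.35526 1.3183 hk1 (by norm_num) f2 (abs_le.2 ⟨by linarith, by linarith⟩) (by rw [neg_neg]; exact expn_ge (by norm_num) (by norm_num)) (by norm_num) (by norm_num)
    have hx2 : sx κ t ≤ 1.4469 := sx_hi h 1.08 (-0.314) 0.304 1.36889 1.4469 hk2 g1 (by norm_num) (by rw [abs_of_nonpos (by linarith)]; linarith) (by rw [neg_neg]; exact expn_le (by norm_num) (by norm_num) (by norm_num)) (by norm_num) (by norm_num)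
    exact JB6_k0e_b6_2 hβ hN hx1 hx2 (by linarith) (by linarith)
  rcases le_total (sy κ t) (-0.284) with f3 | g3
  · have hx1 : 1.2931 ≤ sx κ t := sx_lo h 1 (-0.284) 0.304 1.32843 1.2931 hk1 (by norm_num) f3 (abs_le.2 ⟨by linarith, by linarith⟩) (by rw [neg_neg]; exact expn_ge (by norm_num) (by norm_num)) (by norm_num) (by norm_num)
    have hx2 : sx κ t ≤ 1.4359 := sx_hi h 1.08 (-0.304) 0.284 1.35527 1.4359 hk2 g2 (by norm_num) (by rw [abs_of_nonpos (by linarith)]; linarith) (by rw [neg_neg]; exact expn_le (by norm_num) (by norm_num) (by norm_num)) (by norm_num) (by norm_num)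
    exact JB6_k0e_b6_3 hβ hN hx1 hx2 (by linarith) (by linarith)
  rcases le_total (sy κ t) (-0.249) with f4 | g4
  · have hx1 : 1.2509 ≤ sx κ t := sx_lo h 1 (-0.249) 0.284 1.28274 1.2509 hk1 (by norm_num) f4 (abs_le.2 ⟨by linarith, by linarith⟩) (by rw [neg_neg]; exact expn_ge (by norm_num) (by norm_num)) (by norm_num) (by norm_num)
    have hx2 : sx κ t ≤ 1.413 := sx_hi h 1.08 (-0.284) 0.249 1.32844 1.413 hk2 g3 (by norm_num) (by rw [abs_of_nonpos (by linarith)]; linarith) (by rw [neg_neg]; exact expn_le (by norm_num) (by norm_num) (by norm_num)) (by norm_num) (by norm_num)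
    exact JB6_k0e_b6_4 hβ hN hx1 hx2 (by linarith) (by linarith)
  have hx1 : 1.2479 ≤ sx κ t := sx_lo h 1 (-0.241) 0.249 1.27252 1.2479 hk1 (by norm_num) hy2 (abs_le.2 ⟨by linarith, by linarith⟩) (by rw [neg_neg]; exact expn_ge (by norm_num) (by norm_num)) (by norm_num) (by norm_num)
  have hx2 : sx κ t ≤ 1.3643 := sx_hi h 1.08 (-0.249) 0.241 1.28275 1.3643 hk2 g4 (by norm_num) (by rw [abs_of_nonpos (by linarith)]; linarith) (by rw [neg_neg]; exact expn_le (by norm_num) (by norm_num) (by norm_num)) (by norm_num) (by norm_num)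
  exact JB6_k0e_b6_5 hβ hN hx1 hx2 (by linarith) (by linarith)

private theorem JB6_k0e_b7_0 {β x y : ℝ} (hβ : 0 < β) (hN : β * 9.929 ≤ 1) (hx1 : 1.4308 ≤ x) (hx2 : x ≤ 1.574)
    (hy1 : -0.315 ≤ y) (hy2 : y ≤ -0.305) : ‖HH β (x + y * I) - 1‖ ≤ 0.095 := by
  refine le_epsJ (C := 0.9365) (N0 := 9.929) (J_boxp 1.4308 1.574 0.315 0 (-0.305) 1.4938 1.6053 1.7207 0.7185 0.5234 3.1511 9.929 1.0747 4.723 1.639 0.5239 0.7468 0.4793 1.0008 2.1969 0.8779 2.4811 3.576 3.21 0.0006029 0.008593 0.00004854 0.0000003101 0.0001641 0.0000003101 0.0000003101 0.0000003101 0.9365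
    hβ hN hx1 hx2 hy1 hy2 (by norm_num) (by norm_num) (by linarith) (by norm_num) (by norm_num) (by norm_num) (by norm_num) (by norm_num) (by norm_num) (by norm_num) (by norm_num) (by norm_num) (by norm_num) (by norm_num) (by norm_num) (by norm_num) (by norm_num) (by norm_num) (by norm_num) (by norm_num) (by norm_num) (by norm_num) (by norm_num) (by norm_num)
    (cube_sqrt_geJ (s := 0.8011) (by norm_num) (by norm_num) (by norm_num) (by norm_num))
    (cube_sqrt_geJ (s := 0.9318) (by norm_num) (by norm_num) (by norm_num) (by norm_num))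
    (by norm_num) (by norm_num) (by norm_num) (by norm_num) (by norm_num) (by norm_num) (by norm_num) (by norm_num) (by norm_num) (by norm_num) (by norm_num) (by norm_num) (by norm_num) (by norm_num) (by norm_num) (by norm_num) (by norm_num) (by norm_num)
    (exp_neg_leJ (r := 0.414) 7 (by norm_num) (by norm_num) (by norm_num) (by norm_num))
    (exp_neg_leJ (r := 0.758) 4 (by norm_num) (by norm_num) (by norm_num) (by norm_num))
    (exp_neg_leJ (r := 0.936) 9 (by norm_num) (by norm_num) (by norm_num) (by norm_num))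
    (exp_neg_leJ (r := 0.99) 14 (by norm_num) (by norm_num) (by norm_num) (by norm_num))
    (exp_neg_leJ (r := 0.716) 8 (by norm_num) (by norm_num) (by norm_num) (by norm_num))
    (exp_neg_leJ (r := 0.99) 14 (by norm_num) (by norm_num) (by norm_num) (by norm_num))
    (exp_neg_leJ (r := 0.99) 14 (by norm_num) (by norm_num) (by norm_num) (by norm_num))
    (exp_neg_leJ (r := 0.99) 14 (by norm_num) (by norm_num) (by norm_num) (by norm_num))
    (by norm_num)) (by norm_num) hN hβ.le (by norm_num)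

private theorem JB6_k0e_b7_1 {β x y : ℝ} (hβ : 0 < β) (hN : β * 9.929 ≤ 1) (hx1 : 1.4107 ≤ x) (hx2 : x ≤ 1.5606)
    (hy1 : -0.305 ≤ y) (hy2 : y ≤ -0.29) : ‖HH β (x + y * I) - 1‖ ≤ 0.095 := by
  refine le_epsJ (C := 0.9299) (N0 := 9.929) (J_boxp 1.4107 1.5606 0.305 0 (-0.29) 1.4868 1.5902 1.7146 0.7223 0.5224 3.1511 9.929 1.0696 4.68 1.635 0.5383 0.7433 0.4783 1.0097 2.2365 0.8736 2.4532 3.563 3.2108 0.0006237 0.00867 0.00004428 0.0000003101 0.0001713 0.0000003101 0.0000003101 0.0000003101 0.9299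
    hβ hN hx1 hx2 hy1 hy2 (by norm_num) (by norm_num) (by linarith) (by norm_num) (by norm_num) (by norm_num) (by norm_num) (by norm_num) (by norm_num) (by norm_num) (by norm_num) (by norm_num) (by norm_num) (by norm_num) (by norm_num) (by norm_num) (by norm_num) (by norm_num) (by norm_num) (by norm_num) (by norm_num) (by norm_num) (by norm_num) (by norm_num)
    (cube_sqrt_geJ (s := 0.8021) (by norm_num) (by norm_num) (by norm_num) (by norm_num))
    (cube_sqrt_geJ (s := 0.9322) (by norm_num) (by norm_num) (by norm_num) (by norm_num))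
    (by norm_num) (by norm_num) (by norm_num) (by norm_num) (by norm_num) (by norm_num) (by norm_num) (by norm_num) (by norm_num) (by norm_num) (by norm_num) (by norm_num) (by norm_num) (by norm_num) (by norm_num) (by norm_num) (by norm_num) (by norm_num)
    (exp_neg_leJ (r := 0.38) 7 (by norm_num) (by norm_num) (by norm_num) (by norm_num))
    (exp_neg_leJ (r := 0.749) 4 (by norm_num) (by norm_num) (by norm_num) (by norm_num))
    (exp_neg_leJ (r := 0.025) 10 (by norm_num) (by norm_num) (by norm_num) (by norm_num))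
    (exp_neg_leJ (r := 0.99) 14 (by norm_num) (by norm_num) (by norm_num) (by norm_num))
    (exp_neg_leJ (r := 0.673) 8 (by norm_num) (by norm_num) (by norm_num) (by norm_num))
    (exp_neg_leJ (r := 0.99) 14 (by norm_num) (by norm_num) (by norm_num) (by norm_num))
    (exp_neg_leJ (r := 0.99) 14 (by norm_num) (by norm_num) (by norm_num) (by norm_num))
    (exp_neg_leJ (r := 0.99) 14 (by norm_num) (by norm_num) (by norm_num) (by norm_num))
    (by norm_num)) (by norm_num) hN hβ.le (by norm_num)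

private theorem JB6_k0e_b7_2 {β x y : ℝ} (hβ : 0 < β) (hN : β * 9.929 ≤ 1) (hx1 : 1.3775 ≤ x) (hx2 : x ≤ 1.5411)
    (hy1 : -0.29 ≤ y) (hy2 : y ≤ -0.265) : ‖HH β (x + y * I) - 1‖ ≤ 0.095 := by
  refine le_epsJ (C := 0.9288) (N0 := 9.929) (J_boxp 1.3775 1.5411 0.29 0 (-0.265) 1.474 1.5682 1.7074 0.7302 0.5213 3.1511 9.929 1.064 4.633 1.631 0.5596 0.7369 0.4756 1.022 2.2956 0.8656 2.4073 3.5373 3.2042 0.0006649 0.008906 0.0000392 0.0000003101 0.0001853 0.0000003101 0.0000003101 0.0000003101 0.9288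
    hβ hN hx1 hx2 hy1 hy2 (by norm_num) (by norm_num) (by linarith) (by norm_num) (by norm_num) (by norm_num) (by norm_num) (by norm_num) (by norm_num) (by norm_num) (by norm_num) (by norm_num) (by norm_num) (by norm_num) (by norm_num) (by norm_num) (by norm_num) (by norm_num) (by norm_num) (by norm_num) (by norm_num) (by norm_num) (by norm_num) (by norm_num)
    (cube_sqrt_geJ (s := 0.8033) (by norm_num) (by norm_num) (by norm_num) (by norm_num))
    (cube_sqrt_geJ (s := 0.9325) (by norm_num) (by norm_num) (by norm_num) (by norm_num))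
    (by norm_num) (by norm_num) (by norm_num) (by norm_num) (by norm_num) (by norm_num) (by norm_num) (by norm_num) (by norm_num) (by norm_num) (by norm_num) (by norm_num) (by norm_num) (by norm_num) (by norm_num) (by norm_num) (by norm_num) (by norm_num)
    (exp_neg_leJ (r := 0.316) 7 (by norm_num) (by norm_num) (by norm_num) (by norm_num))
    (exp_neg_leJ (r := 0.722) 4 (by norm_num) (by norm_num) (by norm_num) (by norm_num))
    (exp_neg_leJ (r := 0.147) 10 (by norm_num) (by norm_num) (by norm_num) (by norm_num))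
    (exp_neg_leJ (r := 0.99) 14 (by norm_num) (by norm_num) (by norm_num) (by norm_num))
    (exp_neg_leJ (r := 0.594) 8 (by norm_num) (by norm_num) (by norm_num) (by norm_num))
    (exp_neg_leJ (r := 0.99) 14 (by norm_num) (by norm_num) (by norm_num) (by norm_num))
    (exp_neg_leJ (r := 0.99) 14 (by norm_num) (by norm_num) (by norm_num) (by norm_num))
    (exp_neg_leJ (r := 0.99) 14 (by norm_num) (by norm_num) (by norm_num) (by norm_num))
    (by norm_num)) (by norm_num) hN hβ.le (by norm_num)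

private theorem JB6_k0e_b7_3 {β x y : ℝ} (hβ : 0 < β) (hN : β * 9.929 ≤ 1) (hx1 : 1.3387 ≤ x) (hx2 : x ≤ 1.507)
    (hy1 : -0.265 ≤ y) (hy2 : y ≤ -0.234) : ‖HH β (x + y * I) - 1‖ ≤ 0.095 := by
  refine le_epsJ (C := 0.8875) (N0 := 9.929) (J_boxp 1.3387 1.507 0.265 0 (-0.234) 1.4645 1.5302 1.6906 0.7337 0.5188 3.1511 9.929 1.0449 4.476 1.615 0.5958 0.7322 0.4772 1.0482 2.3948 0.8604 2.3535 3.5277 3.2299 0.0006962 0.008765 0.00003023 0.0000003101 0.0001952 0.0000003101 0.0000003101 0.0000003101 0.8875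
    hβ hN hx1 hx2 hy1 hy2 (by norm_num) (by norm_num) (by linarith) (by norm_num) (by norm_num) (by norm_num) (by norm_num) (by norm_num) (by norm_num) (by norm_num) (by norm_num) (by norm_num) (by norm_num) (by norm_num) (by norm_num) (by norm_num) (by norm_num) (by norm_num) (by norm_num) (by norm_num) (by norm_num) (by norm_num) (by norm_num) (by norm_num)
    (cube_sqrt_geJ (s := 0.8072) (by norm_num) (by norm_num) (by norm_num) (by norm_num))
    (cube_sqrt_geJ (s := 0.9338) (by norm_num) (by norm_num) (by norm_num) (by norm_num))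
    (by norm_num) (by norm_num) (by norm_num) (by norm_num) (by norm_num) (by norm_num) (by norm_num) (by norm_num) (by norm_num) (by norm_num) (by norm_num) (by norm_num) (by norm_num) (by norm_num) (by norm_num) (by norm_num) (by norm_num) (by norm_num)
    (exp_neg_leJ (r := 0.27) 7 (by norm_num) (by norm_num) (by norm_num) (by norm_num))
    (exp_neg_leJ (r := 0.738) 4 (by norm_num) (by norm_num) (by norm_num) (by norm_num))
    (exp_neg_leJ (r := 0.407) 10 (by norm_num) (by norm_num) (by norm_num) (by norm_num))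
    (exp_neg_leJ (r := 0.99) 14 (by norm_num) (by norm_num) (by norm_num) (by norm_num))
    (exp_neg_leJ (r := 0.542) 8 (by norm_num) (by norm_num) (by norm_num) (by norm_num))
    (exp_neg_leJ (r := 0.99) 14 (by norm_num) (by norm_num) (by norm_num) (by norm_num))
    (exp_neg_leJ (r := 0.99) 14 (by norm_num) (by norm_num) (by norm_num) (by norm_num))
    (exp_neg_leJ (r := 0.99) 14 (by norm_num) (by norm_num) (by norm_num) (by norm_num))
    (by norm_num)) (by norm_num) hN hβ.le (by norm_num)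

private theorem JB6_k0e_c7 {κ t β : ℝ} (h : DomR κ t) (hβ : 0 < β) (hk1 : 1.08 ≤ κ) (hk2 : κ ≤ 1.17)
    (ht1 : -0.58 ≤ t + κ) (ht2 : t + κ ≤ -0.45) (hR0 : β * 10 ≤ κ) (hR : β * (4.95 * (1 + κ ^ 2)) ≤ κ) :
    ‖HH β (sg κ t) - 1‖ ≤ 0.095 := by
  have hN : β * 9.929 ≤ 1 := bNC' hβ hk1 (by norm_num) (by norm_num) hR (by norm_num)
  have hy1 : -0.315 ≤ sy κ t := syL_ge h 1.08 1.17 0.58 0.315 0.72978 0.72979 0.206 0.19647 0.21286 hk1 hk2 (by linarith) (by norm_num) (by norm_num) (by norm_num)
    (expm_ge (by norm_num) (by norm_num) (by norm_num) (by norm_num)) (expm_le (by norm_num) (by norm_num) (by norm_num)) (by norm_num)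
    (by norm_num) (by norm_num) (by norm_num) (by norm_num) (by norm_num) (by norm_num)
  have hy2 : sy κ t ≤ -0.234 := syL_le h 1.08 1.17 0.45 0.234 0.79136 0.79137 0.15827 0.17147 hk1 hk2 (by linarith) (by norm_num) (by norm_num) (by norm_num)
    (expm_ge (by norm_num) (by norm_num) (by norm_num) (by norm_num)) (expm_le (by norm_num) (by norm_num) (by norm_num)) (by norm_num)
    (by norm_num) (by norm_num) (by norm_num) (by norm_num) (by norm_num) (by norm_num)
  rcases le_total (sy κ t) (-0.305) with f0 | g0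
  · have hx1 : 1.4308 ≤ sx κ t := sx_lo h 1.08 (-0.305) 0.315 1.35662 1.4308 hk1 (by norm_num) f0 (abs_le.2 ⟨by linarith, by linarith⟩) (by rw [neg_neg]; exact expn_ge (by norm_num) (by norm_num)) (by norm_num) (by norm_num)
    have hx2 : sx κ t ≤ 1.574 := sx_hi h 1.17 (-0.315) 0.305 1.37026 1.574 hk2 hy1 (by norm_num) (by rw [abs_of_nonpos (by linarith)]; linarith) (by rw [neg_neg]; exact expn_le (by norm_num) (by norm_num) (by norm_num)) (by norm_num) (by norm_num)
    exact JB6_k0e_b7_0 hβ hN hx1 hx2 (by linarith) (by linarith)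
  rcases le_total (sy κ t) (-0.29) with f1 | g1
  · have hx1 : 1.4107 ≤ sx κ t := sx_lo h 1.08 (-0.29) 0.305 1.33642 1.4107 hk1 (by norm_num) f1 (abs_le.2 ⟨by linarith, by linarith⟩) (by rw [neg_neg]; exact expn_ge (by norm_num) (by norm_num)) (by norm_num) (by norm_num)
    have hx2 : sx κ t ≤ 1.5606 := sx_hi h 1.17 (-0.305) 0.29 1.35663 1.5606 hk2 g0 (by norm_num) (by rw [abs_of_nonpos (by linarith)]; linarith) (by rw [neg_neg]; exact expn_le (by norm_num) (by norm_num) (by norm_num)) (by norm_num) (by norm_num)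
    exact JB6_k0e_b7_1 hβ hN hx1 hx2 (by linarith) (by linarith)
  rcases le_total (sy κ t) (-0.265) with f2 | g2
  · have hx1 : 1.3775 ≤ sx κ t := sx_lo h 1.08 (-0.265) 0.29 1.30343 1.3775 hk1 (by norm_num) f2 (abs_le.2 ⟨by linarith, by linarith⟩) (by rw [neg_neg]; exact expn_ge (by norm_num) (by norm_num)) (by norm_num) (by norm_num)
    have hx2 : sx κ t ≤ 1.5411 := sx_hi h 1.17 (-0.29) 0.265 1.33643 1.5411 hk2 g1 (by norm_num) (by rw [abs_of_nonpos (by linarith)]; linarith) (by rw [neg_neg]; exact expn_le (by norm_num) (by norm_num) (by norm_num)) (by norm_num) (by norm_num)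
    exact JB6_k0e_b7_2 hβ hN hx1 hx2 (by linarith) (by linarith)
  have hx1 : 1.3387 ≤ sx κ t := sx_lo h 1.08 (-0.234) 0.265 1.26364 1.3387 hk1 (by norm_num) hy2 (abs_le.2 ⟨by linarith, by linarith⟩) (by rw [neg_neg]; exact expn_ge (by norm_num) (by norm_num)) (by norm_num) (by norm_num)
  have hx2 : sx κ t ≤ 1.507 := sx_hi h 1.17 (-0.265) 0.234 1.30344 1.507 hk2 g2 (by norm_num) (by rw [abs_of_nonpos (by linarith)]; linarith) (by rw [neg_neg]; exact expn_le (by norm_num) (by norm_num) (by norm_num)) (by norm_num) (by norm_num)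
  exact JB6_k0e_b7_3 hβ hN hx1 hx2 (by linarith) (by linarith)

private theorem JB6_k0e_b8_0 {β x y : ℝ} (hβ : 0 < β) (hN : β * 10.022 ≤ 1) (hx1 : 1.5495 ≤ x) (hx2 : x ≤ 1.7242)
    (hy1 : -0.305 ≤ y) (hy2 : y ≤ -0.3) : ‖HH β (x + y * I) - 1‖ ≤ 0.095 := by
  refine le_epsJ (C := 0.947) (N0 := 10.022) (J_boxp 1.5495 1.7242 0.305 0 (-0.3) 1.5845 1.751 1.8609 0.684 0.5443 3.1658 10.022 1.1051 4.994 1.664 0.4754 0.7922 0.5004 1.0572 2.1427 0.941 2.6454 3.8406 3.0513 0.0003576 0.006638 0.00002506 0.0000003101 0.00008029 0.0000003101 0.0000003101 0.0000003101 0.947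
    hβ hN hx1 hx2 hy1 hy2 (by norm_num) (by norm_num) (by linarith) (by norm_num) (by norm_num) (by norm_num) (by norm_num) (by norm_num) (by norm_num) (by norm_num) (by norm_num) (by norm_num) (by norm_num) (by norm_num) (by norm_num) (by norm_num) (by norm_num) (by norm_num) (by norm_num) (by norm_num) (by norm_num) (by norm_num) (by norm_num) (by norm_num)
    (cube_sqrt_geJ (s := 0.7947) (by norm_num) (by norm_num) (by norm_num) (by norm_num))
    (cube_sqrt_geJ (s := 0.9298) (by norm_num) (by norm_num) (by norm_num) (by norm_num))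
    (by norm_num) (by norm_num) (by norm_num) (by norm_num) (by norm_num) (by norm_num) (by norm_num) (by norm_num) (by norm_num) (by norm_num) (by norm_num) (by norm_num) (by norm_num) (by norm_num) (by norm_num) (by norm_num) (by norm_num) (by norm_num)
    (exp_neg_leJ (r := 0.939) 7 (by norm_num) (by norm_num) (by norm_num) (by norm_num))
    (exp_neg_leJ (r := 0.015) 5 (by norm_num) (by norm_num) (by norm_num) (by norm_num))
    (exp_neg_leJ (r := 0.595) 10 (by norm_num) (by norm_num) (by norm_num) (by norm_num))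
    (exp_neg_leJ (r := 0.99) 14 (by norm_num) (by norm_num) (by norm_num) (by norm_num))
    (exp_neg_leJ (r := 0.43) 9 (by norm_num) (by norm_num) (by norm_num) (by norm_num))
    (exp_neg_leJ (r := 0.99) 14 (by norm_num) (by norm_num) (by norm_num) (by norm_num))
    (exp_neg_leJ (r := 0.99) 14 (by norm_num) (by norm_num) (by norm_num) (by norm_num))
    (exp_neg_leJ (r := 0.99) 14 (by norm_num) (by norm_num) (by norm_num) (by norm_num))
    (by norm_num)) (by norm_num) hN hβ.le (by norm_num)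

private theorem JB6_k0e_b8_1 {β x y : ℝ} (hβ : 0 < β) (hN : β * 10.022 ≤ 1) (hx1 : 1.5425 ≤ x) (hx2 : x ≤ 1.7162)
    (hy1 : -0.3 ≤ y) (hy2 : y ≤ -0.295) : ‖HH β (x + y * I) - 1‖ ≤ 0.095 := by
  refine le_epsJ (C := 0.9353) (N0 := 10.022) (J_boxp 1.5425 1.7162 0.3 0 (-0.295) 1.5831 1.7423 1.8554 0.6839 0.5435 3.1658 10.022 1.1006 4.953 1.66 0.4831 0.7915 0.5011 1.0627 2.1632 0.9403 2.6357 3.8402 3.061 0.0003601 0.006592 0.00002372 0.0000003101 0.00008086 0.0000003101 0.0000003101 0.0000003101 0.9353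
    hβ hN hx1 hx2 hy1 hy2 (by norm_num) (by norm_num) (by linarith) (by norm_num) (by norm_num) (by norm_num) (by norm_num) (by norm_num) (by norm_num) (by norm_num) (by norm_num) (by norm_num) (by norm_num) (by norm_num) (by norm_num) (by norm_num) (by norm_num) (by norm_num) (by norm_num) (by norm_num) (by norm_num) (by norm_num) (by norm_num) (by norm_num)
    (cube_sqrt_geJ (s := 0.7956) (by norm_num) (by norm_num) (by norm_num) (by norm_num))
    (cube_sqrt_geJ (s := 0.9301) (by norm_num) (by norm_num) (by norm_num) (by norm_num))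
    (by norm_num) (by norm_num) (by norm_num) (by norm_num) (by norm_num) (by norm_num) (by norm_num) (by norm_num) (by norm_num) (by norm_num) (by norm_num) (by norm_num) (by norm_num) (by norm_num) (by norm_num) (by norm_num) (by norm_num) (by norm_num)
    (exp_neg_leJ (r := 0.932) 7 (by norm_num) (by norm_num) (by norm_num) (by norm_num))
    (exp_neg_leJ (r := 0.022) 5 (by norm_num) (by norm_num) (by norm_num) (by norm_num))
    (exp_neg_leJ (r := 0.65) 10 (by norm_num) (by norm_num) (by norm_num) (by norm_num))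
    (exp_neg_leJ (r := 0.99) 14 (by norm_num) (by norm_num) (by norm_num) (by norm_num))
    (exp_neg_leJ (r := 0.423) 9 (by norm_num) (by norm_num) (by norm_num) (by norm_num))
    (exp_neg_leJ (r := 0.99) 14 (by norm_num) (by norm_num) (by norm_num) (by norm_num))
    (exp_neg_leJ (r := 0.99) 14 (by norm_num) (by norm_num) (by norm_num) (by norm_num))
    (exp_neg_leJ (r := 0.99) 14 (by norm_num) (by norm_num) (by norm_num) (by norm_num))
    (by norm_num)) (by norm_num) hN hβ.le (by norm_num)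

private theorem JB6_k0e_b8_2 {β x y : ℝ} (hβ : 0 < β) (hN : β * 10.022 ≤ 1) (hx1 : 1.5275 ≤ x) (hx2 : x ≤ 1.7091)
    (hy1 : -0.295 ≤ y) (hy2 : y ≤ -0.285) : ‖HH β (x + y * I) - 1‖ ≤ 0.095 := by
  refine le_epsJ (C := 0.9431) (N0 := 10.022) (J_boxp 1.5275 1.7091 0.295 0 (-0.285) 1.5761 1.7344 1.8527 0.688 0.5431 3.1658 10.022 1.1005 4.952 1.66 0.4904 0.788 0.4989 1.0655 2.1832 0.9358 2.6149 3.8238 3.0524 0.0003728 0.00683 0.00002307 0.0000003101 0.00008457 0.0000003101 0.0000003101 0.0000003101 0.9431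
    hβ hN hx1 hx2 hy1 hy2 (by norm_num) (by norm_num) (by linarith) (by norm_num) (by norm_num) (by norm_num) (by norm_num) (by norm_num) (by norm_num) (by norm_num) (by norm_num) (by norm_num) (by norm_num) (by norm_num) (by norm_num) (by norm_num) (by norm_num) (by norm_num) (by norm_num) (by norm_num) (by norm_num) (by norm_num) (by norm_num) (by norm_num)
    (cube_sqrt_geJ (s := 0.7957) (by norm_num) (by norm_num) (by norm_num) (by norm_num))
    (cube_sqrt_geJ (s := 0.9301) (by norm_num) (by norm_num) (by norm_num) (by norm_num))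
    (by norm_num) (by norm_num) (by norm_num) (by norm_num) (by norm_num) (by norm_num) (by norm_num) (by norm_num) (by norm_num) (by norm_num) (by norm_num) (by norm_num) (by norm_num) (by norm_num) (by norm_num) (by norm_num) (by norm_num) (by norm_num)
    (exp_neg_leJ (r := 0.897) 7 (by norm_num) (by norm_num) (by norm_num) (by norm_num))
    (exp_neg_leJ (r := 0.99) 4 (by norm_num) (by norm_num) (by norm_num) (by norm_num))
    (exp_neg_leJ (r := 0.678) 10 (by norm_num) (by norm_num) (by norm_num) (by norm_num))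
    (exp_neg_leJ (r := 0.99) 14 (by norm_num) (by norm_num) (by norm_num) (by norm_num))
    (exp_neg_leJ (r := 0.378) 9 (by norm_num) (by norm_num) (by norm_num) (by norm_num))
    (exp_neg_leJ (r := 0.99) 14 (by norm_num) (by norm_num) (by norm_num) (by norm_num))
    (exp_neg_leJ (r := 0.99) 14 (by norm_num) (by norm_num) (by norm_num) (by norm_num))
    (exp_neg_leJ (r := 0.99) 14 (by norm_num) (by norm_num) (by norm_num) (by norm_num))
    (by norm_num)) (by norm_num) hN hβ.le (by norm_num)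

private theorem JB6_k0e_b8_3 {β x y : ℝ} (hβ : 0 < β) (hN : β * 10.022 ≤ 1) (hx1 : 1.5059 ≤ x) (hx2 : x ≤ 1.6941)
    (hy1 : -0.285 ≤ y) (hy2 : y ≤ -0.27) : ‖HH β (x + y * I) - 1‖ ≤ 0.095 := by
  refine le_epsJ (C := 0.9365) (N0 := 10.022) (J_boxp 1.5059 1.6941 0.285 0 (-0.27) 1.568 1.718 1.8447 0.6918 0.5419 3.1658 10.022 1.0957 4.908 1.656 0.5054 0.7839 0.4976 1.0739 2.2236 0.9307 2.585 3.8077 3.0538 0.0003882 0.006857 0.00002122 0.0000003101 0.000089 0.0000003101 0.0000003101 0.0000003101 0.9365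
    hβ hN hx1 hx2 hy1 hy2 (by norm_num) (by norm_num) (by linarith) (by norm_num) (by norm_num) (by norm_num) (by norm_num) (by norm_num) (by norm_num) (by norm_num) (by norm_num) (by norm_num) (by norm_num) (by norm_num) (by norm_num) (by norm_num) (by norm_num) (by norm_num) (by norm_num) (by norm_num) (by norm_num) (by norm_num) (by norm_num) (by norm_num)
    (cube_sqrt_geJ (s := 0.7967) (by norm_num) (by norm_num) (by norm_num) (by norm_num))
    (cube_sqrt_geJ (s := 0.9305) (by norm_num) (by norm_num) (by norm_num) (by norm_num))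
    (by norm_num) (by norm_num) (by norm_num) (by norm_num) (by norm_num) (by norm_num) (by norm_num) (by norm_num) (by norm_num) (by norm_num) (by norm_num) (by norm_num) (by norm_num) (by norm_num) (by norm_num) (by norm_num) (by norm_num) (by norm_num)
    (exp_neg_leJ (r := 0.856) 7 (by norm_num) (by norm_num) (by norm_num) (by norm_num))
    (exp_neg_leJ (r := 0.986) 4 (by norm_num) (by norm_num) (by norm_num) (by norm_num))
    (exp_neg_leJ (r := 0.762) 10 (by norm_num) (by norm_num) (by norm_num) (by norm_num))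
    (exp_neg_leJ (r := 0.99) 14 (by norm_num) (by norm_num) (by norm_num) (by norm_num))
    (exp_neg_leJ (r := 0.327) 9 (by norm_num) (by norm_num) (by norm_num) (by norm_num))
    (exp_neg_leJ (r := 0.99) 14 (by norm_num) (by norm_num) (by norm_num) (by norm_num))
    (exp_neg_leJ (r := 0.99) 14 (by norm_num) (by norm_num) (by norm_num) (by norm_num))
    (exp_neg_leJ (r := 0.99) 14 (by norm_num) (by norm_num) (by norm_num) (by norm_num))
    (by norm_num)) (by norm_num) hN hβ.le (by norm_num)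

private theorem JB6_k0e_b8_4 {β x y : ℝ} (hβ : 0 < β) (hN : β * 10.022 ≤ 1) (hx1 : 1.4702 ≤ x) (hx2 : x ≤ 1.6721)
    (hy1 : -0.27 ≤ y) (hy2 : y ≤ -0.245) : ‖HH β (x + y * I) - 1‖ ≤ 0.095 := by
  refine le_epsJ (C := 0.9362) (N0 := 10.022) (J_boxp 1.4702 1.6721 0.27 0 (-0.245) 1.5535 1.6938 1.8347 0.6996 0.5404 3.1658 10.022 1.0904 4.861 1.652 0.5277 0.7767 0.4944 1.0853 2.284 0.9216 2.5356 3.7771 3.0482 0.0004169 0.007077 0.00001895 0.0000003101 0.00009747 0.0000003101 0.0000003101 0.0000003101 0.9362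
    hβ hN hx1 hx2 hy1 hy2 (by norm_num) (by norm_num) (by linarith) (by norm_num) (by norm_num) (by norm_num) (by norm_num) (by norm_num) (by norm_num) (by norm_num) (by norm_num) (by norm_num) (by norm_num) (by norm_num) (by norm_num) (by norm_num) (by norm_num) (by norm_num) (by norm_num) (by norm_num) (by norm_num) (by norm_num) (by norm_num) (by norm_num)
    (cube_sqrt_geJ (s := 0.7978) (by norm_num) (by norm_num) (by norm_num) (by norm_num))
    (cube_sqrt_geJ (s := 0.9308) (by norm_num) (by norm_num) (by norm_num) (by norm_num))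
    (by norm_num) (by norm_num) (by norm_num) (by norm_num) (by norm_num) (by norm_num) (by norm_num) (by norm_num) (by norm_num) (by norm_num) (by norm_num) (by norm_num) (by norm_num) (by norm_num) (by norm_num) (by norm_num) (by norm_num) (by norm_num)
    (exp_neg_leJ (r := 0.784) 7 (by norm_num) (by norm_num) (by norm_num) (by norm_num))
    (exp_neg_leJ (r := 0.954) 4 (by norm_num) (by norm_num) (by norm_num) (by norm_num))
    (exp_neg_leJ (r := 0.876) 10 (by norm_num) (by norm_num) (by norm_num) (by norm_num))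
    (exp_neg_leJ (r := 0.99) 14 (by norm_num) (by norm_num) (by norm_num) (by norm_num))
    (exp_neg_leJ (r := 0.236) 9 (by norm_num) (by norm_num) (by norm_num) (by norm_num))
    (exp_neg_leJ (r := 0.99) 14 (by norm_num) (by norm_num) (by norm_num) (by norm_num))
    (exp_neg_leJ (r := 0.99) 14 (by norm_num) (by norm_num) (by norm_num) (by norm_num))
    (exp_neg_leJ (r := 0.99) 14 (by norm_num) (by norm_num) (by norm_num) (by norm_num))
    (by norm_num)) (by norm_num) hN hβ.le (by norm_num)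

private theorem JB6_k0e_b8_5 {β x y : ℝ} (hβ : 0 < β) (hN : β * 10.022 ≤ 1) (hx1 : 1.4445 ≤ x) (hx2 : x ≤ 1.6328)
    (hy1 : -0.245 ≤ y) (hy2 : y ≤ -0.225) : ‖HH β (x + y * I) - 1‖ ≤ 0.095 := by
  refine le_epsJ (C := 0.8615) (N0 := 10.022) (J_boxp 1.4445 1.6328 0.245 0 (-0.225) 1.5532 1.6511 1.8074 0.6946 0.5364 3.1658 10.022 1.0631 4.625 1.63 0.5659 0.7765 0.5013 1.116 2.3861 0.9228 2.5 3.7937 3.1129 0.0004178 0.006579 0.0000139 0.0000003101 0.00009631 0.0000003101 0.0000003101 0.0000003101 0.8615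
    hβ hN hx1 hx2 hy1 hy2 (by norm_num) (by norm_num) (by linarith) (by norm_num) (by norm_num) (by norm_num) (by norm_num) (by norm_num) (by norm_num) (by norm_num) (by norm_num) (by norm_num) (by norm_num) (by norm_num) (by norm_num) (by norm_num) (by norm_num) (by norm_num) (by norm_num) (by norm_num) (by norm_num) (by norm_num) (by norm_num) (by norm_num)
    (cube_sqrt_geJ (s := 0.8035) (by norm_num) (by norm_num) (by norm_num) (by norm_num))
    (cube_sqrt_geJ (s := 0.9326) (by norm_num) (by norm_num) (by norm_num) (by norm_num))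
    (by norm_num) (by norm_num) (by norm_num) (by norm_num) (by norm_num) (by norm_num) (by norm_num) (by norm_num) (by norm_num) (by norm_num) (by norm_num) (by norm_num) (by norm_num) (by norm_num) (by norm_num) (by norm_num) (by norm_num) (by norm_num)
    (exp_neg_leJ (r := 0.782) 7 (by norm_num) (by norm_num) (by norm_num) (by norm_num))
    (exp_neg_leJ (r := 0.024) 5 (by norm_num) (by norm_num) (by norm_num) (by norm_num))
    (exp_neg_leJ (r := 0.184) 11 (by norm_num) (by norm_num) (by norm_num) (by norm_num))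
    (exp_neg_leJ (r := 0.99) 14 (by norm_num) (by norm_num) (by norm_num) (by norm_num))
    (exp_neg_leJ (r := 0.248) 9 (by norm_num) (by norm_num) (by norm_num) (by norm_num))
    (exp_neg_leJ (r := 0.99) 14 (by norm_num) (by norm_num) (by norm_num) (by norm_num))
    (exp_neg_leJ (r := 0.99) 14 (by norm_num) (by norm_num) (by norm_num) (by norm_num))
    (exp_neg_leJ (r := 0.99) 14 (by norm_num) (by norm_num) (by norm_num) (by norm_num))
    (by norm_num)) (by norm_num) hN hβ.le (by norm_num)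

private theorem JB6_k0e_c8 {κ t β : ℝ} (h : DomR κ t) (hβ : 0 < β) (hk1 : 1.17 ≤ κ) (hk2 : κ ≤ 1.29)
    (ht1 : -0.58 ≤ t + κ) (ht2 : t + κ ≤ -0.45) (hR0 : β * 10 ≤ κ) (hR : β * (4.95 * (1 + κ ^ 2)) ≤ κ) :
    ‖HH β (sg κ t) - 1‖ ≤ 0.095 := by
  have hN : β * 10.022 ≤ 1 := bNC' hβ hk1 (by norm_num) (by norm_num) hR (by norm_num)
  have hy1 : -0.305 ≤ sy κ t := syL_ge h 1.17 1.29 0.58 0.305 0.73712 0.73713 0.1787 0.17428 0.19216 hk1 hk2 (by linarith) (by norm_num) (by norm_num) (by norm_num)
    (expm_ge (by norm_num) (by norm_num) (by norm_num) (by norm_num)) (expm_le (by norm_num) (by norm_num) (by norm_num)) (by norm_num)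
    (by norm_num) (by norm_num) (by norm_num) (by norm_num) (by norm_num) (by norm_num)
  have hy2 : sy κ t ≤ -0.225 := syL_le h 1.17 1.29 0.45 0.225 0.79851 0.79852 0.13927 0.15357 hk1 hk2 (by linarith) (by norm_num) (by norm_num) (by norm_num)
    (expm_ge (by norm_num) (by norm_num) (by norm_num) (by norm_num)) (expm_le (by norm_num) (by norm_num) (by norm_num)) (by norm_num)
    (by norm_num) (by norm_num) (by norm_num) (by norm_num) (by norm_num) (by norm_num)
  rcases le_total (sy κ t) (-0.3) with f0 | g0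
  · have hx1 : 1.5495 ≤ sx κ t := sx_lo h 1.17 (-0.3) 0.305 1.34985 1.5495 hk1 (by norm_num) f0 (abs_le.2 ⟨by linarith, by linarith⟩) (by rw [neg_neg]; exact expn_ge (by norm_num) (by norm_num)) (by norm_num) (by norm_num)
    have hx2 : sx κ t ≤ 1.7242 := sx_hi h 1.29 (-0.305) 0.3 1.35663 1.7242 hk2 hy1 (by norm_num) (by rw [abs_of_nonpos (by linarith)]; linarith) (by rw [neg_neg]; exact expn_le (by norm_num) (by norm_num) (by norm_num)) (by norm_num) (by norm_num)
    exact JB6_k0e_b8_0 hβ hN hx1 hx2 (by linarith) (by linarith)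
  rcases le_total (sy κ t) (-0.295) with f1 | g1
  · have hx1 : 1.5425 ≤ sx κ t := sx_lo h 1.17 (-0.295) 0.3 1.34312 1.5425 hk1 (by norm_num) f1 (abs_le.2 ⟨by linarith, by linarith⟩) (by rw [neg_neg]; exact expn_ge (by norm_num) (by norm_num)) (by norm_num) (by norm_num)
    have hx2 : sx κ t ≤ 1.7162 := sx_hi h 1.29 (-0.3) 0.295 1.34986 1.7162 hk2 g0 (by norm_num) (by rw [abs_of_nonpos (by linarith)]; linarith) (by rw [neg_neg]; exact expn_le (by norm_num) (by norm_num) (by norm_num)) (by norm_num) (by norm_num)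
    exact JB6_k0e_b8_1 hβ hN hx1 hx2 (by linarith) (by linarith)
  rcases le_total (sy κ t) (-0.285) with f2 | g2
  · have hx1 : 1.5275 ≤ sx κ t := sx_lo h 1.17 (-0.285) 0.295 1.32976 1.5275 hk1 (by norm_num) f2 (abs_le.2 ⟨by linarith, by linarith⟩) (by rw [neg_neg]; exact expn_ge (by norm_num) (by norm_num)) (by norm_num) (by norm_num)
    have hx2 : sx κ t ≤ 1.7091 := sx_hi h 1.29 (-0.295) 0.285 1.34313 1.7091 hk2 g1 (by norm_num) (by rw [abs_of_nonpos (by linarith)]; linarith) (by rw [neg_neg]; exact expn_le (by norm_num) (by norm_num) (by norm_num)) (by norm_num) (by norm_num)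
    exact JB6_k0e_b8_2 hβ hN hx1 hx2 (by linarith) (by linarith)
  rcases le_total (sy κ t) (-0.27) with f3 | g3
  · have hx1 : 1.5059 ≤ sx κ t := sx_lo h 1.17 (-0.27) 0.285 1.30996 1.5059 hk1 (by norm_num) f3 (abs_le.2 ⟨by linarith, by linarith⟩) (by rw [neg_neg]; exact expn_ge (by norm_num) (by norm_num)) (by norm_num) (by norm_num)
    have hx2 : sx κ t ≤ 1.6941 := sx_hi h 1.29 (-0.285) 0.27 1.32977 1.6941 hk2 g2 (by norm_num) (by rw [abs_of_nonpos (by linarith)]; linarith) (by rw [neg_neg]; exact expn_le (by norm_num) (by norm_num) (by norm_num)) (by norm_num) (by norm_num)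
    exact JB6_k0e_b8_3 hβ hN hx1 hx2 (by linarith) (by linarith)
  rcases le_total (sy κ t) (-0.245) with f4 | g4
  · have hx1 : 1.4702 ≤ sx κ t := sx_lo h 1.17 (-0.245) 0.27 1.27762 1.4702 hk1 (by norm_num) f4 (abs_le.2 ⟨by linarith, by linarith⟩) (by rw [neg_neg]; exact expn_ge (by norm_num) (by norm_num)) (by norm_num) (by norm_num)
    have hx2 : sx κ t ≤ 1.6721 := sx_hi h 1.29 (-0.27) 0.245 1.30997 1.6721 hk2 g3 (by norm_num) (by rw [abs_of_nonpos (by linarith)]; linarith) (by rw [neg_neg]; exact expn_le (by norm_num) (by norm_num) (by norm_num)) (by norm_num) (by norm_num)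
    exact JB6_k0e_b8_4 hβ hN hx1 hx2 (by linarith) (by linarith)
  have hx1 : 1.4445 ≤ sx κ t := sx_lo h 1.17 (-0.225) 0.245 1.25232 1.4445 hk1 (by norm_num) hy2 (abs_le.2 ⟨by linarith, by linarith⟩) (by rw [neg_neg]; exact expn_ge (by norm_num) (by norm_num)) (by norm_num) (by norm_num)
  have hx2 : sx κ t ≤ 1.6328 := sx_hi h 1.29 (-0.245) 0.225 1.27763 1.6328 hk2 g4 (by norm_num) (by rw [abs_of_nonpos (by linarith)]; linarith) (by rw [neg_neg]; exact expn_le (by norm_num) (by norm_num) (by norm_num)) (by norm_num) (by norm_num)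
  exact JB6_k0e_b8_5 hβ hN hx1 hx2 (by linarith) (by linarith)

private theorem JB6_k0e_b9_0 {β x y : ℝ} (hβ : 0 < β) (hN : β * 10.222 ≤ 1) (hx1 : 1.6323 ≤ x) (hx2 : x ≤ 1.8425)
    (hy1 : -0.291 ≤ y) (hy2 : y ≤ -0.251) : ‖HH β (x + y * I) - 1‖ ≤ 0.095 := by
  refine le_epsJ (C := 0.9639) (N0 := 10.222) (J_boxp 1.6323 1.8425 0.291 0 (-0.251) 1.6528 1.8654 1.989 0.6638 0.5627 3.1972 10.222 1.1287 5.218 1.684 0.4428 0.8263 0.5154 1.1077 2.1193 0.9888 2.7601 4.0442 2.9059 0.0002148 0.005155 0.00001211 0.0000003101 0.0000408 0.0000003101 0.0000003101 0.0000003101 0.9639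
    hβ hN hx1 hx2 hy1 hy2 (by norm_num) (by norm_num) (by linarith) (by norm_num) (by norm_num) (by norm_num) (by norm_num) (by norm_num) (by norm_num) (by norm_num) (by norm_num) (by norm_num) (by norm_num) (by norm_num) (by norm_num) (by norm_num) (by norm_num) (by norm_num) (by norm_num) (by norm_num) (by norm_num) (by norm_num) (by norm_num) (by norm_num)
    (cube_sqrt_geJ (s := 0.7897) (by norm_num) (by norm_num) (by norm_num) (by norm_num))
    (cube_sqrt_geJ (s := 0.9283) (by norm_num) (by norm_num) (by norm_num) (by norm_num))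
    (by norm_num) (by norm_num) (by norm_num) (by norm_num) (by norm_num) (by norm_num) (by norm_num) (by norm_num) (by norm_num) (by norm_num) (by norm_num) (by norm_num) (by norm_num) (by norm_num) (by norm_num) (by norm_num) (by norm_num) (by norm_num)
    (exp_neg_leJ (r := 0.446) 8 (by norm_num) (by norm_num) (by norm_num) (by norm_num))
    (exp_neg_leJ (r := 0.268) 5 (by norm_num) (by norm_num) (by norm_num) (by norm_num))
    (exp_neg_leJ (r := 0.322) 11 (by norm_num) (by norm_num) (by norm_num) (by norm_num))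
    (exp_neg_leJ (r := 0.99) 14 (by norm_num) (by norm_num) (by norm_num) (by norm_num))
    (exp_neg_leJ (r := 0.107) 10 (by norm_num) (by norm_num) (by norm_num) (by norm_num))
    (exp_neg_leJ (r := 0.99) 14 (by norm_num) (by norm_num) (by norm_num) (by norm_num))
    (exp_neg_leJ (r := 0.99) 14 (by norm_num) (by norm_num) (by norm_num) (by norm_num))
    (exp_neg_leJ (r := 0.99) 14 (by norm_num) (by norm_num) (by norm_num) (by norm_num))
    (by norm_num)) (by norm_num) hN hβ.le (by norm_num)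

private theorem JB6_k0e_b9_1 {β x y : ℝ} (hβ : 0 < β) (hN : β * 10.222 ≤ 1) (hx1 : 1.5828 ≤ x) (hx2 : x ≤ 1.7734)
    (hy1 : -0.251 ≤ y) (hy2 : y ≤ -0.217) : ‖HH β (x + y * I) - 1‖ ≤ 0.095 := by
  refine le_epsJ (C := 0.8551) (N0 := 10.222) (J_boxp 1.5828 1.7734 0.251 0 (-0.217) 1.6463 1.7911 1.9386 0.6592 0.5555 3.1972 10.222 1.088 4.839 1.65 0.5063 0.8231 0.5246 1.1538 2.2862 0.9866 2.6915 4.054 3.0089 0.000222 0.004692 0.000007561 0.0000003101 0.00004171 0.0000003101 0.0000003101 0.0000003101 0.8551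
    hβ hN hx1 hx2 hy1 hy2 (by norm_num) (by norm_num) (by linarith) (by norm_num) (by norm_num) (by norm_num) (by norm_num) (by norm_num) (by norm_num) (by norm_num) (by norm_num) (by norm_num) (by norm_num) (by norm_num) (by norm_num) (by norm_num) (by norm_num) (by norm_num) (by norm_num) (by norm_num) (by norm_num) (by norm_num) (by norm_num) (by norm_num)
    (cube_sqrt_geJ (s := 0.7983) (by norm_num) (by norm_num) (by norm_num) (by norm_num))
    (cube_sqrt_geJ (s := 0.931) (by norm_num) (by norm_num) (by norm_num) (by norm_num))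
    (by norm_num) (by norm_num) (by norm_num) (by norm_num) (by norm_num) (by norm_num) (by norm_num) (by norm_num) (by norm_num) (by norm_num) (by norm_num) (by norm_num) (by norm_num) (by norm_num) (by norm_num) (by norm_num) (by norm_num) (by norm_num)
    (exp_neg_leJ (r := 0.413) 8 (by norm_num) (by norm_num) (by norm_num) (by norm_num))
    (exp_neg_leJ (r := 0.362) 5 (by norm_num) (by norm_num) (by norm_num) (by norm_num))
    (exp_neg_leJ (r := 0.794) 11 (by norm_num) (by norm_num) (by norm_num) (by norm_num))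
    (exp_neg_leJ (r := 0.99) 14 (by norm_num) (by norm_num) (by norm_num) (by norm_num))
    (exp_neg_leJ (r := 0.085) 10 (by norm_num) (by norm_num) (by norm_num) (by norm_num))
    (exp_neg_leJ (r := 0.99) 14 (by norm_num) (by norm_num) (by norm_num) (by norm_num))
    (exp_neg_leJ (r := 0.99) 14 (by norm_num) (by norm_num) (by norm_num) (by norm_num))
    (exp_neg_leJ (r := 0.99) 14 (by norm_num) (by norm_num) (by norm_num) (by norm_num))
    (by norm_num)) (by norm_num) hN hβ.le (by norm_num)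

private theorem JB6_k0e_c9 {κ t β : ℝ} (h : DomR κ t) (hβ : 0 < β) (hk1 : 1.29 ≤ κ) (hk2 : κ ≤ 1.39)
    (ht1 : -0.58 ≤ t + κ) (ht2 : t + κ ≤ -0.45) (hR0 : β * 10 ≤ κ) (hR : β * (4.95 * (1 + κ ^ 2)) ≤ κ) :
    ‖HH β (sg κ t) - 1‖ ≤ 0.095 := by
  have hN : β * 10.222 ≤ 1 := bNC' hβ hk1 (by norm_num) (by norm_num) hR (by norm_num)
  have hy1 : -0.291 ≤ sy κ t := syL_ge h 1.29 1.39 0.58 0.291 0.74751 0.74752 0.1615 0.15649 0.16863 hk1 hk2 (by linarith) (by norm_num) (by norm_num) (by norm_num)
    (expm_ge (by norm_num) (by norm_num) (by norm_num) (by norm_num)) (expm_le (by norm_num) (by norm_num) (by norm_num)) (by norm_num)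
    (by norm_num) (by norm_num) (by norm_num) (by norm_num) (by norm_num) (by norm_num)
  have hy2 : sy κ t ≤ -0.217 := syL_le h 1.29 1.39 0.45 0.217 0.80492 0.80493 0.12566 0.13541 hk1 hk2 (by linarith) (by norm_num) (by norm_num) (by norm_num)
    (expm_ge (by norm_num) (by norm_num) (by norm_num) (by norm_num)) (expm_le (by norm_num) (by norm_num) (by norm_num)) (by norm_num)
    (by norm_num) (by norm_num) (by norm_num) (by norm_num) (by norm_num) (by norm_num)
  rcases le_total (sy κ t) (-0.251) with f0 | g0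
  · have hx1 : 1.6323 ≤ sx κ t := sx_lo h 1.29 (-0.251) 0.291 1.28531 1.6323 hk1 (by norm_num) f0 (abs_le.2 ⟨by linarith, by linarith⟩) (by rw [neg_neg]; exact expn_ge (by norm_num) (by norm_num)) (by norm_num) (by norm_num)
    have hx2 : sx κ t ≤ 1.8425 := sx_hi h 1.39 (-0.291) 0.251 1.33777 1.8425 hk2 hy1 (by norm_num) (by rw [abs_of_nonpos (by linarith)]; linarith) (by rw [neg_neg]; exact expn_le (by norm_num) (by norm_num) (by norm_num)) (by norm_num) (by norm_num)
    exact JB6_k0e_b9_0 hβ hN hx1 hx2 (by linarith) (by linarith)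
  have hx1 : 1.5828 ≤ sx κ t := sx_lo h 1.29 (-0.217) 0.251 1.24234 1.5828 hk1 (by norm_num) hy2 (abs_le.2 ⟨by linarith, by linarith⟩) (by rw [neg_neg]; exact expn_ge (by norm_num) (by norm_num)) (by norm_num) (by norm_num)
  have hx2 : sx κ t ≤ 1.7734 := sx_hi h 1.39 (-0.251) 0.217 1.28532 1.7734 hk2 g0 (by norm_num) (by rw [abs_of_nonpos (by linarith)]; linarith) (by rw [neg_neg]; exact expn_le (by norm_num) (by norm_num) (by norm_num)) (by norm_num) (by norm_num)
  exact JB6_k0e_b9_1 hβ hN hx1 hx2 (by linarith) (by linarith)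

theorem JB6_k0e {κ t β : ℝ} (h : DomR κ t) (hβ : 0 < β) (hk1 : 0.3 ≤ κ) (hk2 : κ ≤ 1.39)
    (ht1 : -0.58 ≤ t + κ) (ht2 : t + κ ≤ -0.45) (hR0 : β * 10 ≤ κ) (hR : β * (4.95 * (1 + κ ^ 2)) ≤ κ) :
    ‖HH β (sg κ t) - 1‖ ≤ 0.095 := by
  rcases le_total κ 0.49 with f0 | g0
  · exact JB6_k0e_c0 h hβ hk1 f0 ht1 ht2 hR0 hR
  rcases le_total κ 0.64 with f1 | g1
  · exact JB6_k0e_c1 h hβ g0 f1 ht1 ht2 hR0 hR
  rcases le_total κ 0.76 with f2 | g2
  · exact JB6_k0e_c2 h hβ g1 f2 ht1 ht2 hR0 hR
  rcases le_total κ 0.86 with f3 | g3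
  · exact JB6_k0e_c3 h hβ g2 f3 ht1 ht2 hR0 hR
  rcases le_total κ 0.94 with f4 | g4
  · exact JB6_k0e_c4 h hβ g3 f4 ht1 ht2 hR0 hR
  rcases le_total κ 1 with f5 | g5
  · exact JB6_k0e_c5 h hβ g4 f5 ht1 ht2 hR0 hR
  rcases le_total κ 1.08 with f6 | g6
  · exact JB6_k0e_c6 h hβ g5 f6 ht1 ht2 hR0 hR
  rcases le_total κ 1.17 with f7 | g7
  · exact JB6_k0e_c7 h hβ g6 f7 ht1 ht2 hR0 hR
  rcases le_total κ 1.29 with f8 | g8
  · exact JB6_k0e_c8 h hβ g7 f8 ht1 ht2 hR0 hR
  exact JB6_k0e_c9 h hβ g8 hk2 ht1 ht2 hR0 hR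

end Sok
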