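import Pool.Agent.Lib.MP_816dec_an.JBG2

/-!
MP_816dec_an (A3, row R1): tables b = 6, real points.
-/

set_option autoImplicit false
set_option maxHeartbeats 4000000

open Complex Set

namespace Sok

private theorem JB6_k0f_b0_0 {β x y : ℝ} (hβ : 0 < β) (hN : β * 23.255 ≤ 1) (hx1 : 0.197 ≤ x) (hx2 : x ≤ 0.5126)
    (hy1 : -0.389 ≤ y) (hy2 : y ≤ -0.374) : ‖HH β (x + y * I) - 1‖ ≤ 0.144 := by
  refine le_epsJ (C := 3.3219) (N0 := 23.255) (J_boxp 0.197 0.5126 0.389 0 (-0.374) 0.5725 0.6435 0.8091 2.0766 0.3589 4.8224 23.255 1.1241 5.173 1.68 0.8638 0.2862 0.1789 0.4616 2.5514 0.2382 0.7727 0.9072 3.3568 0.001289 0.01561 0.00002182 0.0000003101 0.003932 0.0000003101 0.0000003101 0.0000003101 3.3219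
    hβ hN hx1 hx2 hy1 hy2 (by norm_num) (by norm_num) (by linarith) (by norm_num) (by norm_num) (by norm_num) (by norm_num) (by norm_num) (by norm_num) (by norm_num) (by norm_num) (by norm_num) (by norm_num) (by norm_num) (by norm_num) (by norm_num) (by norm_num) (by norm_num) (by norm_num) (by norm_num) (by norm_num) (by norm_num) (by norm_num) (by norm_num)
    (cube_sqrt_geJ (s := 0.7907) (by norm_num) (by norm_num) (by norm_num) (by norm_num))
    (cube_sqrt_geJ (s := 0.9286) (by norm_num) (by norm_num) (by norm_num) (by norm_num))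
    (by norm_num) (by norm_num) (by norm_num) (by norm_num) (by norm_num) (by norm_num) (by norm_num) (by norm_num) (by norm_num) (by norm_num) (by norm_num) (by norm_num) (by norm_num) (by norm_num) (by norm_num) (by norm_num) (by norm_num) (by norm_num)
    (exp_neg_leJ (r := 0.655) 6 (by norm_num) (by norm_num) (by norm_num) (by norm_num))
    (exp_neg_leJ (r := 0.16) 4 (by norm_num) (by norm_num) (by norm_num) (by norm_num))
    (exp_neg_leJ (r := 0.734) 10 (by norm_num) (by norm_num) (by norm_num) (by norm_num))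
    (exp_neg_leJ (r := 0.99) 14 (by norm_num) (by norm_num) (by norm_num) (by norm_num))
    (exp_neg_leJ (r := 0.539) 5 (by norm_num) (by norm_num) (by norm_num) (by norm_num))
    (exp_neg_leJ (r := 0.99) 14 (by norm_num) (by norm_num) (by norm_num) (by norm_num))
    (exp_neg_leJ (r := 0.99) 14 (by norm_num) (by norm_num) (by norm_num) (by norm_num))
    (exp_neg_leJ (r := 0.99) 14 (by norm_num) (by norm_num) (by norm_num) (by norm_num))
    (by norm_num)) (by norm_num) hN hβ.le (by norm_num)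

private theorem JB6_k0f_b0_1 {β x y : ℝ} (hβ : 0 < β) (hN : β * 23.255 ≤ 1) (hx1 : 0.1888 ≤ x) (hx2 : x ≤ 0.5283)
    (hy1 : -0.374 ≤ y) (hy2 : y ≤ -0.334) : ‖HH β (x + y * I) - 1‖ ≤ 0.144 := by
  refine le_epsJ (C := 3.3157) (N0 := 23.255) (J_boxp 0.1888 0.5283 0.374 0 (-0.334) 0.5774 0.6473 0.8501 2.1015 0.3679 4.8224 23.255 1.1211 5.145 1.677 0.8716 0.2886 0.1808 0.4825 2.5927 0.2424 0.7614 0.9316 3.3301 0.001219 0.01494 0.00001341 0.0000003101 0.003566 0.0000003101 0.0000003101 0.0000003101 3.3157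
    hβ hN hx1 hx2 hy1 hy2 (by norm_num) (by norm_num) (by linarith) (by norm_num) (by norm_num) (by norm_num) (by norm_num) (by norm_num) (by norm_num) (by norm_num) (by norm_num) (by norm_num) (by norm_num) (by norm_num) (by norm_num) (by norm_num) (by norm_num) (by norm_num) (by norm_num) (by norm_num) (by norm_num) (by norm_num) (by norm_num) (by norm_num)
    (cube_sqrt_geJ (s := 0.7913) (by norm_num) (by norm_num) (by norm_num) (by norm_num))
    (cube_sqrt_geJ (s := 0.9288) (by norm_num) (by norm_num) (by norm_num) (by norm_num))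
    (by norm_num) (by norm_num) (by norm_num) (by norm_num) (by norm_num) (by norm_num) (by norm_num) (by norm_num) (by norm_num) (by norm_num) (by norm_num) (by norm_num) (by norm_num) (by norm_num) (by norm_num) (by norm_num) (by norm_num) (by norm_num)
    (exp_neg_leJ (r := 0.711) 6 (by norm_num) (by norm_num) (by norm_num) (by norm_num))
    (exp_neg_leJ (r := 0.204) 4 (by norm_num) (by norm_num) (by norm_num) (by norm_num))
    (exp_neg_leJ (r := 0.22) 11 (by norm_num) (by norm_num) (by norm_num) (by norm_num))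
    (exp_neg_leJ (r := 0.99) 14 (by norm_num) (by norm_num) (by norm_num) (by norm_num))
    (exp_neg_leJ (r := 0.637) 5 (by norm_num) (by norm_num) (by norm_num) (by norm_num))
    (exp_neg_leJ (r := 0.99) 14 (by norm_num) (by norm_num) (by norm_num) (by norm_num))
    (exp_neg_leJ (r := 0.99) 14 (by norm_num) (by norm_num) (by norm_num) (by norm_num))
    (exp_neg_leJ (r := 0.99) 14 (by norm_num) (by norm_num) (by norm_num) (by norm_num))
    (by norm_num)) (by norm_num) hN hβ.le (by norm_num)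

private theorem JB6_k0f_b0_2 {β x y : ℝ} (hβ : 0 < β) (hN : β * 23.255 ≤ 1) (hx1 : 0.1628 ≤ x) (hx2 : x ≤ 0.5611)
    (hy1 : -0.334 ≤ y) (hy2 : y ≤ -0.214) : ‖HH β (x + y * I) - 1‖ ≤ 0.144 := by
  refine le_epsJ (C := 3.3189) (N0 := 23.255) (J_boxp 0.1628 0.5611 0.334 0 (-0.214) 0.5875 0.653 0.9658 2.1824 0.3921 4.8224 23.255 1.1115 5.053 1.669 0.896 0.2937 0.1849 0.5368 2.7066 0.2516 0.7254 0.9883 3.2626 0.001084 0.01359 0.000003792 0.0000003101 0.002886 0.0000003101 0.0000003101 0.0000003101 3.3189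
    hβ hN hx1 hx2 hy1 hy2 (by norm_num) (by norm_num) (by linarith) (by norm_num) (by norm_num) (by norm_num) (by norm_num) (by norm_num) (by norm_num) (by norm_num) (by norm_num) (by norm_num) (by norm_num) (by norm_num) (by norm_num) (by norm_num) (by norm_num) (by norm_num) (by norm_num) (by norm_num) (by norm_num) (by norm_num) (by norm_num) (by norm_num)
    (cube_sqrt_geJ (s := 0.7934) (by norm_num) (by norm_num) (by norm_num) (by norm_num))
    (cube_sqrt_geJ (s := 0.9294) (by norm_num) (by norm_num) (by norm_num) (by norm_num))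
    (by norm_num) (by norm_num) (by norm_num) (by norm_num) (by norm_num) (by norm_num) (by norm_num) (by norm_num) (by norm_num) (by norm_num) (by norm_num) (by norm_num) (by norm_num) (by norm_num) (by norm_num) (by norm_num) (by norm_num) (by norm_num)
    (exp_neg_leJ (r := 0.829) 6 (by norm_num) (by norm_num) (by norm_num) (by norm_num))
    (exp_neg_leJ (r := 0.299) 4 (by norm_num) (by norm_num) (by norm_num) (by norm_num))
    (exp_neg_leJ (r := 0.483) 12 (by norm_num) (by norm_num) (by norm_num) (by norm_num))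
    (exp_neg_leJ (r := 0.99) 14 (by norm_num) (by norm_num) (by norm_num) (by norm_num))
    (exp_neg_leJ (r := 0.85) 5 (by norm_num) (by norm_num) (by norm_num) (by norm_num))
    (exp_neg_leJ (r := 0.99) 14 (by norm_num) (by norm_num) (by norm_num) (by norm_num))
    (exp_neg_leJ (r := 0.99) 14 (by norm_num) (by norm_num) (by norm_num) (by norm_num))
    (exp_neg_leJ (r := 0.99) 14 (by norm_num) (by norm_num) (by norm_num) (by norm_num))
    (by norm_num)) (by norm_num) hN hβ.le (by norm_num)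

private theorem JB6_k0f_b0_3 {β x y : ℝ} (hβ : 0 < β) (hN : β * 23.255 ≤ 1) (hx1 : 0.2956 ≤ x) (hx2 : x ≤ 0.4953)
    (hy1 : -0.214 ≤ y) (hy2 : y ≤ -0.196) : ‖HH β (x + y * I) - 1‖ ≤ 0.144 := by
  refine le_epsJ (C := 0.6089) (N0 := 23.255) (J_boxp 0.2956 0.4953 0.214 0 (-0.196) 0.7662 0.5396 0.9444 1.449 0.3877 4.8224 23.255 0.7043 2.552 1.372 1.032 0.383 0.2931 0.7716 3.1341 0.3816 0.9092 1.5801 3.8365 0.000136 0.001098 0.0000003101 0.0000003101 0.0001403 0.0000003101 0.0000003101 0.0000003101 0.6089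
    hβ hN hx1 hx2 hy1 hy2 (by norm_num) (by norm_num) (by linarith) (by norm_num) (by norm_num) (by norm_num) (by norm_num) (by norm_num) (by norm_num) (by norm_num) (by norm_num) (by norm_num) (by norm_num) (by norm_num) (by norm_num) (by norm_num) (by norm_num) (by norm_num) (by norm_num) (by norm_num) (by norm_num) (by norm_num) (by norm_num) (by norm_num)
    (cube_sqrt_geJ (s := 0.8747) (by norm_num) (by norm_num) (by norm_num) (by norm_num))
    (cube_sqrt_geJ (s := 0.9559) (by norm_num) (by norm_num) (by norm_num) (by norm_num))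
    (by norm_num) (by norm_num) (by norm_num) (by norm_num) (by norm_num) (by norm_num) (by norm_num) (by norm_num) (by norm_num) (by norm_num) (by norm_num) (by norm_num) (by norm_num) (by norm_num) (by norm_num) (by norm_num) (by norm_num) (by norm_num)
    (exp_neg_leJ (r := 0.906) 8 (by norm_num) (by norm_num) (by norm_num) (by norm_num))
    (exp_neg_leJ (r := 0.816) 6 (by norm_num) (by norm_num) (by norm_num) (by norm_num))
    (exp_neg_leJ (r := 0.99) 14 (by norm_num) (by norm_num) (by norm_num) (by norm_num))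
    (exp_neg_leJ (r := 0.99) 14 (by norm_num) (by norm_num) (by norm_num) (by norm_num))
    (exp_neg_leJ (r := 0.874) 8 (by norm_num) (by norm_num) (by norm_num) (by norm_num))
    (exp_neg_leJ (r := 0.99) 14 (by norm_num) (by norm_num) (by norm_num) (by norm_num))
    (exp_neg_leJ (r := 0.99) 14 (by norm_num) (by norm_num) (by norm_num) (by norm_num))
    (exp_neg_leJ (r := 0.99) 14 (by norm_num) (by norm_num) (by norm_num) (by norm_num))
    (by norm_num)) (by norm_num) hN hβ.le (by norm_num)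

private theorem JB6_k0f_c0 {κ t β : ℝ} (h : DomR κ t) (hβ : 0 < β) (hk1 : 0.3 ≤ κ) (hk2 : κ ≤ 0.43)
    (ht1 : -0.72 ≤ t + κ) (ht2 : t + κ ≤ -0.58) (hR0 : β * 10 ≤ κ) (hR : β * (4.95 * (1 + κ ^ 2)) ≤ κ) :
    ‖HH β (sg κ t) - 1‖ ≤ 0.144 := by
  have hN : β * 23.255 ≤ 1 := bNR hβ h.1 hk2 hR0 (by norm_num)
  have hy1 : -0.389 ≤ sy κ t := syL_ge2 h 0.3 0.43 0.72 0.389 0.67773 0.67774 0.613 0.6131 0.87881 hk1 hk2 (by linarith) (by norm_num) (by norm_num) (by norm_num)
    (expm_ge (by norm_num) (by norm_num) (by norm_num) (by norm_num)) (expm_le (by norm_num) (by norm_num) (by norm_num)) (by norm_num)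
    (by norm_num) (by norm_num) (by norm_num) (by norm_num) (by norm_num) (by norm_num)
  have hy2 : sy κ t ≤ -0.196 := syL_le h 0.3 0.43 0.58 0.196 0.82201 0.82202 0.37468 0.53706 hk1 hk2 (by linarith) (by norm_num) (by norm_num) (by norm_num)
    (expm_ge (by norm_num) (by norm_num) (by norm_num) (by norm_num)) (expm_le (by norm_num) (by norm_num) (by norm_num)) (by norm_num)
    (by norm_num) (by norm_num) (by norm_num) (by norm_num) (by norm_num) (by norm_num)
  rcases le_total (sy κ t) (-0.374) with f0 | g0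
  · have hx1 : 0.197 ≤ sx κ t := sx_lo h 0.3 (-0.374) 0.389 1.45353 0.197 hk1 (by norm_num) f0 (abs_le.2 ⟨by linarith, by linarith⟩) (by rw [neg_neg]; exact expn_ge (by norm_num) (by norm_num)) (by norm_num) (by norm_num)
    have hx2 : sx κ t ≤ 0.5126 := sx_hi h 0.43 (-0.389) 0.374 1.47551 0.5126 hk2 hy1 (by norm_num) (by rw [abs_of_nonpos (by linarith)]; linarith) (by rw [neg_neg]; exact expn_le (by norm_num) (by norm_num) (by norm_num)) (by norm_num) (by norm_num)
    exact JB6_k0f_b0_0 hβ hN hx1 hx2 (by linarith) (by linarith)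
  rcases le_total (sy κ t) (-0.334) with f1 | g1
  · have hx1 : 0.1888 ≤ sx κ t := sx_lo h 0.3 (-0.334) 0.374 1.39654 0.1888 hk1 (by norm_num) f1 (abs_le.2 ⟨by linarith, by linarith⟩) (by rw [neg_neg]; exact expn_ge (by norm_num) (by norm_num)) (by norm_num) (by norm_num)
    have hx2 : sx κ t ≤ 0.5283 := sx_hi h 0.43 (-0.374) 0.334 1.45354 0.5283 hk2 g0 (by norm_num) (by rw [abs_of_nonpos (by linarith)]; linarith) (by rw [neg_neg]; exact expn_le (by norm_num) (by norm_num) (by norm_num)) (by norm_num) (by norm_num)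
    exact JB6_k0f_b0_1 hβ hN hx1 hx2 (by linarith) (by linarith)
  rcases le_total (sy κ t) (-0.214) with f2 | g2
  · have hx1 : 0.1628 ≤ sx κ t := sx_lo h 0.3 (-0.214) 0.334 1.23862 0.1628 hk1 (by norm_num) f2 (abs_le.2 ⟨by linarith, by linarith⟩) (by rw [neg_neg]; exact expn_ge (by norm_num) (by norm_num)) (by norm_num) (by norm_num)
    have hx2 : sx κ t ≤ 0.5611 := sx_hi h 0.43 (-0.334) 0.214 1.39655 0.5611 hk2 g1 (by norm_num) (by rw [abs_of_nonpos (by linarith)]; linarith) (by rw [neg_neg]; exact expn_le (by norm_num) (by norm_num) (by norm_num)) (by norm_num) (by norm_num)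
    exact JB6_k0f_b0_2 hβ hN hx1 hx2 (by linarith) (by linarith)
  have hx1 : 0.2956 ≤ sx κ t := sx_lo h 0.3 (-0.196) 0.214 1.21652 0.2956 hk1 (by norm_num) hy2 (abs_le.2 ⟨by linarith, by linarith⟩) (by rw [neg_neg]; exact expn_ge (by norm_num) (by norm_num)) (by norm_num) (by norm_num)
  have hx2 : sx κ t ≤ 0.4953 := sx_hi h 0.43 (-0.214) 0.196 1.23863 0.4953 hk2 g2 (by norm_num) (by rw [abs_of_nonpos (by linarith)]; linarith) (by rw [neg_neg]; exact expn_le (by norm_num) (by norm_num) (by norm_num)) (by norm_num) (by norm_num)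
  exact JB6_k0f_b0_3 hβ hN hx1 hx2 (by linarith) (by linarith)

private theorem JB6_k0f_b1_0 {β x y : ℝ} (hβ : 0 < β) (hN : β * 18.181 ≤ 1) (hx1 : 0.4932 ≤ x) (hx2 : x ≤ 0.7395)
    (hy1 : -0.444 ≤ y) (hy2 : y ≤ -0.434) : ‖HH β (x + y * I) - 1‖ ≤ 0.144 := by
  refine le_epsJ (C := 2.6178) (N0 := 18.181) (J_boxp 0.4932 0.7395 0.444 0 (-0.434) 0.742 0.8626 0.9313 1.5099 0.385 4.264 18.181 1.1626 5.562 1.712 0.7258 0.3709 0.2272 0.4762 2.2497 0.352 1.1828 1.3501 3.3536 0.001181 0.01609 0.0001741 0.0000003101 0.001664 0.0000003101 0.0000003101 0.0000003101 2.6178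
    hβ hN hx1 hx2 hy1 hy2 (by norm_num) (by norm_num) (by linarith) (by norm_num) (by norm_num) (by norm_num) (by norm_num) (by norm_num) (by norm_num) (by norm_num) (by norm_num) (by norm_num) (by norm_num) (by norm_num) (by norm_num) (by norm_num) (by norm_num) (by norm_num) (by norm_num) (by norm_num) (by norm_num) (by norm_num) (by norm_num) (by norm_num)
    (cube_sqrt_geJ (s := 0.7826) (by norm_num) (by norm_num) (by norm_num) (by norm_num))
    (cube_sqrt_geJ (s := 0.926) (by norm_num) (by norm_num) (by norm_num) (by norm_num))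
    (by norm_num) (by norm_num) (by norm_num) (by norm_num) (by norm_num) (by norm_num) (by norm_num) (by norm_num) (by norm_num) (by norm_num) (by norm_num) (by norm_num) (by norm_num) (by norm_num) (by norm_num) (by norm_num) (by norm_num) (by norm_num)
    (exp_neg_leJ (r := 0.743) 6 (by norm_num) (by norm_num) (by norm_num) (by norm_num))
    (exp_neg_leJ (r := 0.13) 4 (by norm_num) (by norm_num) (by norm_num) (by norm_num))
    (exp_neg_leJ (r := 0.657) 8 (by norm_num) (by norm_num) (by norm_num) (by norm_num))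
    (exp_neg_leJ (r := 0.99) 14 (by norm_num) (by norm_num) (by norm_num) (by norm_num))
    (exp_neg_leJ (r := 0.399) 6 (by norm_num) (by norm_num) (by norm_num) (by norm_num))
    (exp_neg_leJ (r := 0.99) 14 (by norm_num) (by norm_num) (by norm_num) (by norm_num))
    (exp_neg_leJ (r := 0.99) 14 (by norm_num) (by norm_num) (by norm_num) (by norm_num))
    (exp_neg_leJ (r := 0.99) 14 (by norm_num) (by norm_num) (by norm_num) (by norm_num))
    (by norm_num)) (by norm_num) hN hβ.le (by norm_num)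

private theorem JB6_k0f_b1_1 {β x y : ℝ} (hβ : 0 < β) (hN : β * 18.181 ≤ 1) (hx1 : 0.4845 ≤ x) (hx2 : x ≤ 0.7411)
    (hy1 : -0.434 ≤ y) (hy2 : y ≤ -0.414) : ‖HH β (x + y * I) - 1‖ ≤ 0.144 := by
  refine le_epsJ (C := 2.5838) (N0 := 18.181) (J_boxp 0.4845 0.7411 0.434 0 (-0.414) 0.743 0.8589 0.9448 1.5178 0.3878 4.264 18.181 1.156 5.493 1.707 0.7344 0.3714 0.2283 0.489 2.2816 0.3532 1.1708 1.3599 3.3463 0.00117 0.01577 0.0001381 0.0000003101 0.001628 0.0000003101 0.0000003101 0.0000003101 2.5838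
    hβ hN hx1 hx2 hy1 hy2 (by norm_num) (by norm_num) (by linarith) (by norm_num) (by norm_num) (by norm_num) (by norm_num) (by norm_num) (by norm_num) (by norm_num) (by norm_num) (by norm_num) (by norm_num) (by norm_num) (by norm_num) (by norm_num) (by norm_num) (by norm_num) (by norm_num) (by norm_num) (by norm_num) (by norm_num) (by norm_num) (by norm_num)
    (cube_sqrt_geJ (s := 0.784) (by norm_num) (by norm_num) (by norm_num) (by norm_num))
    (cube_sqrt_geJ (s := 0.9265) (by norm_num) (by norm_num) (by norm_num) (by norm_num))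
    (by norm_num) (by norm_num) (by norm_num) (by norm_num) (by norm_num) (by norm_num) (by norm_num) (by norm_num) (by norm_num) (by norm_num) (by norm_num) (by norm_num) (by norm_num) (by norm_num) (by norm_num) (by norm_num) (by norm_num) (by norm_num)
    (exp_neg_leJ (r := 0.752) 6 (by norm_num) (by norm_num) (by norm_num) (by norm_num))
    (exp_neg_leJ (r := 0.15) 4 (by norm_num) (by norm_num) (by norm_num) (by norm_num))
    (exp_neg_leJ (r := 0.89) 8 (by norm_num) (by norm_num) (by norm_num) (by norm_num))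
    (exp_neg_leJ (r := 0.99) 14 (by norm_num) (by norm_num) (by norm_num) (by norm_num))
    (exp_neg_leJ (r := 0.421) 6 (by norm_num) (by norm_num) (by norm_num) (by norm_num))
    (exp_neg_leJ (r := 0.99) 14 (by norm_num) (by norm_num) (by norm_num) (by norm_num))
    (exp_neg_leJ (r := 0.99) 14 (by norm_num) (by norm_num) (by norm_num) (by norm_num))
    (exp_neg_leJ (r := 0.99) 14 (by norm_num) (by norm_num) (by norm_num) (by norm_num))
    (by norm_num)) (by norm_num) hN hβ.le (by norm_num)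

private theorem JB6_k0f_b1_2 {β x y : ℝ} (hβ : 0 < β) (hN : β * 18.181 ≤ 1) (hx1 : 0.464 ≤ x) (hx2 : x ≤ 0.7458)
    (hy1 : -0.414 ≤ y) (hy2 : y ≤ -0.369) : ‖HH β (x + y * I) - 1‖ ≤ 0.144 := by
  refine le_epsJ (C := 2.5749) (N0 := 18.181) (J_boxp 0.464 0.7458 0.414 0 (-0.369) 0.7428 0.8531 0.977 1.544 0.3944 4.264 18.181 1.1485 5.416 1.7 0.7511 0.3713 0.2292 0.5136 2.3445 0.3542 1.1424 1.3733 3.3211 0.001173 0.0155 0.00008811 0.0000003101 0.001599 0.0000003101 0.0000003101 0.0000003101 2.5749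
    hβ hN hx1 hx2 hy1 hy2 (by norm_num) (by norm_num) (by linarith) (by norm_num) (by norm_num) (by norm_num) (by norm_num) (by norm_num) (by norm_num) (by norm_num) (by norm_num) (by norm_num) (by norm_num) (by norm_num) (by norm_num) (by norm_num) (by norm_num) (by norm_num) (by norm_num) (by norm_num) (by norm_num) (by norm_num) (by norm_num) (by norm_num)
    (cube_sqrt_geJ (s := 0.7855) (by norm_num) (by norm_num) (by norm_num) (by norm_num))
    (cube_sqrt_geJ (s := 0.927) (by norm_num) (by norm_num) (by norm_num) (by norm_num))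
    (by norm_num) (by norm_num) (by norm_num) (by norm_num) (by norm_num) (by norm_num) (by norm_num) (by norm_num) (by norm_num) (by norm_num) (by norm_num) (by norm_num) (by norm_num) (by norm_num) (by norm_num) (by norm_num) (by norm_num) (by norm_num)
    (exp_neg_leJ (r := 0.75) 6 (by norm_num) (by norm_num) (by norm_num) (by norm_num))
    (exp_neg_leJ (r := 0.167) 4 (by norm_num) (by norm_num) (by norm_num) (by norm_num))
    (exp_neg_leJ (r := 0.337) 9 (by norm_num) (by norm_num) (by norm_num) (by norm_num))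
    (exp_neg_leJ (r := 0.99) 14 (by norm_num) (by norm_num) (by norm_num) (by norm_num))
    (exp_neg_leJ (r := 0.439) 6 (by norm_num) (by norm_num) (by norm_num) (by norm_num))
    (exp_neg_leJ (r := 0.99) 14 (by norm_num) (by norm_num) (by norm_num) (by norm_num))
    (exp_neg_leJ (r := 0.99) 14 (by norm_num) (by norm_num) (by norm_num) (by norm_num))
    (exp_neg_leJ (r := 0.99) 14 (by norm_num) (by norm_num) (by norm_num) (by norm_num))
    (by norm_num)) (by norm_num) hN hβ.le (by norm_num)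

private theorem JB6_k0f_b1_3 {β x y : ℝ} (hβ : 0 < β) (hN : β * 18.181 ≤ 1) (hx1 : 0.4315 ≤ x) (hx2 : x ≤ 0.7453)
    (hy1 : -0.369 ≤ y) (hy2 : y ≤ -0.278) : ‖HH β (x + y * I) - 1‖ ≤ 0.144 := by
  refine le_epsJ (C := 2.313) (N0 := 18.181) (J_boxp 0.4315 0.7453 0.369 0 (-0.278) 0.7518 0.8317 1.0377 1.5628 0.4064 4.264 18.181 1.1063 5.005 1.665 0.7928 0.3758 0.2372 0.5735 2.4917 0.363 1.0974 1.4306 3.3142 0.001081 0.01341 0.00002966 0.0000003101 0.001363 0.0000003101 0.0000003101 0.0000003101 2.313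
    hβ hN hx1 hx2 hy1 hy2 (by norm_num) (by norm_num) (by linarith) (by norm_num) (by norm_num) (by norm_num) (by norm_num) (by norm_num) (by norm_num) (by norm_num) (by norm_num) (by norm_num) (by norm_num) (by norm_num) (by norm_num) (by norm_num) (by norm_num) (by norm_num) (by norm_num) (by norm_num) (by norm_num) (by norm_num) (by norm_num) (by norm_num)
    (cube_sqrt_geJ (s := 0.7945) (by norm_num) (by norm_num) (by norm_num) (by norm_num))
    (cube_sqrt_geJ (s := 0.9298) (by norm_num) (by norm_num) (by norm_num) (by norm_num))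
    (by norm_num) (by norm_num) (by norm_num) (by norm_num) (by norm_num) (by norm_num) (by norm_num) (by norm_num) (by norm_num) (by norm_num) (by norm_num) (by norm_num) (by norm_num) (by norm_num) (by norm_num) (by norm_num) (by norm_num) (by norm_num)
    (exp_neg_leJ (r := 0.832) 6 (by norm_num) (by norm_num) (by norm_num) (by norm_num))
    (exp_neg_leJ (r := 0.312) 4 (by norm_num) (by norm_num) (by norm_num) (by norm_num))
    (exp_neg_leJ (r := 0.426) 10 (by norm_num) (by norm_num) (by norm_num) (by norm_num))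
    (exp_neg_leJ (r := 0.99) 14 (by norm_num) (by norm_num) (by norm_num) (by norm_num))
    (exp_neg_leJ (r := 0.599) 6 (by norm_num) (by norm_num) (by norm_num) (by norm_num))
    (exp_neg_leJ (r := 0.99) 14 (by norm_num) (by norm_num) (by norm_num) (by norm_num))
    (exp_neg_leJ (r := 0.99) 14 (by norm_num) (by norm_num) (by norm_num) (by norm_num))
    (exp_neg_leJ (r := 0.99) 14 (by norm_num) (by norm_num) (by norm_num) (by norm_num))
    (by norm_num)) (by norm_num) hN hβ.le (by norm_num)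

private theorem JB6_k0f_c1 {κ t β : ℝ} (h : DomR κ t) (hβ : 0 < β) (hk1 : 0.43 ≤ κ) (hk2 : κ ≤ 0.55)
    (ht1 : -0.72 ≤ t + κ) (ht2 : t + κ ≤ -0.58) (hR0 : β * 10 ≤ κ) (hR : β * (4.95 * (1 + κ ^ 2)) ≤ κ) :
    ‖HH β (sg κ t) - 1‖ ≤ 0.144 := by
  have hN : β * 18.181 ≤ 1 := bNR hβ h.1 hk2 hR0 (by norm_num)
  have hy1 : -0.444 ≤ sy κ t := syL_ge h 0.43 0.55 0.72 0.444 0.64146 0.64147 0.4937 0.51783 0.66236 hk1 hk2 (by linarith) (by norm_num) (by norm_num) (by norm_num)
    (expm_ge (by norm_num) (by norm_num) (by norm_num) (by norm_num)) (expm_le (by norm_num) (by norm_num) (by norm_num)) (by norm_num)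
    (by norm_num) (by norm_num) (by norm_num) (by norm_num) (by norm_num) (by norm_num)
  have hy2 : sy κ t ≤ -0.278 := syL_le h 0.43 0.55 0.58 0.278 0.75729 0.7573 0.38277 0.48961 hk1 hk2 (by linarith) (by norm_num) (by norm_num) (by norm_num)
    (expm_ge (by norm_num) (by norm_num) (by norm_num) (by norm_num)) (expm_le (by norm_num) (by norm_num) (by norm_num)) (by norm_num)
    (by norm_num) (by norm_num) (by norm_num) (by norm_num) (by norm_num) (by norm_num)
  rcases le_total (sy κ t) (-0.434) with f0 | g0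
  · have hx1 : 0.4932 ≤ sx κ t := sx_lo h 0.43 (-0.434) 0.444 1.54341 0.4932 hk1 (by norm_num) f0 (abs_le.2 ⟨by linarith, by linarith⟩) (by rw [neg_neg]; exact expn_ge (by norm_num) (by norm_num)) (by norm_num) (by norm_num)
    have hx2 : sx κ t ≤ 0.7395 := sx_hi h 0.55 (-0.444) 0.434 1.55894 0.7395 hk2 hy1 (by norm_num) (by rw [abs_of_nonpos (by linarith)]; linarith) (by rw [neg_neg]; exact expn_le (by norm_num) (by norm_num) (by norm_num)) (by norm_num) (by norm_num)
    exact JB6_k0f_b1_0 hβ hN hx1 hx2 (by linarith) (by linarith)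
  rcases le_total (sy κ t) (-0.414) with f1 | g1
  · have hx1 : 0.4845 ≤ sx κ t := sx_lo h 0.43 (-0.414) 0.434 1.51285 0.4845 hk1 (by norm_num) f1 (abs_le.2 ⟨by linarith, by linarith⟩) (by rw [neg_neg]; exact expn_ge (by norm_num) (by norm_num)) (by norm_num) (by norm_num)
    have hx2 : sx κ t ≤ 0.7411 := sx_hi h 0.55 (-0.434) 0.414 1.54342 0.7411 hk2 g0 (by norm_num) (by rw [abs_of_nonpos (by linarith)]; linarith) (by rw [neg_neg]; exact expn_le (by norm_num) (by norm_num) (by norm_num)) (by norm_num) (by norm_num)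
    exact JB6_k0f_b1_1 hβ hN hx1 hx2 (by linarith) (by linarith)
  rcases le_total (sy κ t) (-0.369) with f2 | g2
  · have hx1 : 0.464 ≤ sx κ t := sx_lo h 0.43 (-0.369) 0.414 1.44628 0.464 hk1 (by norm_num) f2 (abs_le.2 ⟨by linarith, by linarith⟩) (by rw [neg_neg]; exact expn_ge (by norm_num) (by norm_num)) (by norm_num) (by norm_num)
    have hx2 : sx κ t ≤ 0.7458 := sx_hi h 0.55 (-0.414) 0.369 1.51286 0.7458 hk2 g1 (by norm_num) (by rw [abs_of_nonpos (by linarith)]; linarith) (by rw [neg_neg]; exact expn_le (by norm_num) (by norm_num) (by norm_num)) (by norm_num) (by norm_num)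
    exact JB6_k0f_b1_2 hβ hN hx1 hx2 (by linarith) (by linarith)
  have hx1 : 0.4315 ≤ sx κ t := sx_lo h 0.43 (-0.278) 0.369 1.32048 0.4315 hk1 (by norm_num) hy2 (abs_le.2 ⟨by linarith, by linarith⟩) (by rw [neg_neg]; exact expn_ge (by norm_num) (by norm_num)) (by norm_num) (by norm_num)
  have hx2 : sx κ t ≤ 0.7453 := sx_hi h 0.55 (-0.369) 0.278 1.44629 0.7453 hk2 g2 (by norm_num) (by rw [abs_of_nonpos (by linarith)]; linarith) (by rw [neg_neg]; exact expn_le (by norm_num) (by norm_num) (by norm_num)) (by norm_num) (by norm_num)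
  exact JB6_k0f_b1_3 hβ hN hx1 hx2 (by linarith) (by linarith)

private theorem JB6_k0f_b2_0 {β x y : ℝ} (hβ : 0 < β) (hN : β * 14.925 ≤ 1) (hx1 : 0.7316 ≤ x) (hx2 : x ≤ 0.9533)
    (hy1 : -0.452 ≤ y) (hy2 : y ≤ -0.447) : ‖HH β (x + y * I) - 1‖ ≤ 0.144 := by
  refine le_epsJ (C := 2.1315) (N0 := 14.925) (J_boxp 0.7316 0.9533 0.452 0 (-0.447) 0.9042 1.0551 1.1021 1.221 0.4189 3.8633 14.925 1.1669 5.609 1.716 0.6362 0.452 0.2762 0.5452 2.1068 0.4634 1.5129 1.8052 3.3072 0.001177 0.01622 0.0002926 0.0000003101 0.0009944 0.0000003101 0.0000003101 0.0000003101 2.1315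
    hβ hN hx1 hx2 hy1 hy2 (by norm_num) (by norm_num) (by linarith) (by norm_num) (by norm_num) (by norm_num) (by norm_num) (by norm_num) (by norm_num) (by norm_num) (by norm_num) (by norm_num) (by norm_num) (by norm_num) (by norm_num) (by norm_num) (by norm_num) (by norm_num) (by norm_num) (by norm_num) (by norm_num) (by norm_num) (by norm_num) (by norm_num)
    (cube_sqrt_geJ (s := 0.7816) (by norm_num) (by norm_num) (by norm_num) (by norm_num))
    (cube_sqrt_geJ (s := 0.9258) (by norm_num) (by norm_num) (by norm_num) (by norm_num))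
    (by norm_num) (by norm_num) (by norm_num) (by norm_num) (by norm_num) (by norm_num) (by norm_num) (by norm_num) (by norm_num) (by norm_num) (by norm_num) (by norm_num) (by norm_num) (by norm_num) (by norm_num) (by norm_num) (by norm_num) (by norm_num)
    (exp_neg_leJ (r := 0.746) 6 (by norm_num) (by norm_num) (by norm_num) (by norm_num))
    (exp_neg_leJ (r := 0.122) 4 (by norm_num) (by norm_num) (by norm_num) (by norm_num))
    (exp_neg_leJ (r := 0.137) 8 (by norm_num) (by norm_num) (by norm_num) (by norm_num))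
    (exp_neg_leJ (r := 0.99) 14 (by norm_num) (by norm_num) (by norm_num) (by norm_num))
    (exp_neg_leJ (r := 0.916) 6 (by norm_num) (by norm_num) (by norm_num) (by norm_num))
    (exp_neg_leJ (r := 0.99) 14 (by norm_num) (by norm_num) (by norm_num) (by norm_num))
    (exp_neg_leJ (r := 0.99) 14 (by norm_num) (by norm_num) (by norm_num) (by norm_num))
    (exp_neg_leJ (r := 0.99) 14 (by norm_num) (by norm_num) (by norm_num) (by norm_num))
    (by norm_num)) (by norm_num) hN hβ.le (by norm_num)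

private theorem JB6_k0f_b2_1 {β x y : ℝ} (hβ : 0 < β) (hN : β * 14.925 ≤ 1) (hx1 : 0.7246 ≤ x) (hx2 : x ≤ 0.9522)
    (hy1 : -0.447 ≤ y) (hy2 : y ≤ -0.437) : ‖HH β (x + y * I) - 1‖ ≤ 0.144 := by
  refine le_epsJ (C := 2.1322) (N0 := 14.925) (J_boxp 0.7246 0.9522 0.447 0 (-0.437) 0.9028 1.052 1.1062 1.2262 0.4196 3.8633 14.925 1.1653 5.591 1.714 0.6412 0.4513 0.276 0.5507 2.1236 0.4627 1.5032 1.8048 3.3016 0.00119 0.01627 0.0002695 0.0000003101 0.001006 0.0000003101 0.0000003101 0.0000003101 2.1322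
    hβ hN hx1 hx2 hy1 hy2 (by norm_num) (by norm_num) (by linarith) (by norm_num) (by norm_num) (by norm_num) (by norm_num) (by norm_num) (by norm_num) (by norm_num) (by norm_num) (by norm_num) (by norm_num) (by norm_num) (by norm_num) (by norm_num) (by norm_num) (by norm_num) (by norm_num) (by norm_num) (by norm_num) (by norm_num) (by norm_num) (by norm_num)
    (cube_sqrt_geJ (s := 0.782) (by norm_num) (by norm_num) (by norm_num) (by norm_num))
    (cube_sqrt_geJ (s := 0.9259) (by norm_num) (by norm_num) (by norm_num) (by norm_num))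
    (by norm_num) (by norm_num) (by norm_num) (by norm_num) (by norm_num) (by norm_num) (by norm_num) (by norm_num) (by norm_num) (by norm_num) (by norm_num) (by norm_num) (by norm_num) (by norm_num) (by norm_num) (by norm_num) (by norm_num) (by norm_num)
    (exp_neg_leJ (r := 0.735) 6 (by norm_num) (by norm_num) (by norm_num) (by norm_num))
    (exp_neg_leJ (r := 0.119) 4 (by norm_num) (by norm_num) (by norm_num) (by norm_num))
    (exp_neg_leJ (r := 0.219) 8 (by norm_num) (by norm_num) (by norm_num) (by norm_num))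
    (exp_neg_leJ (r := 0.99) 14 (by norm_num) (by norm_num) (by norm_num) (by norm_num))
    (exp_neg_leJ (r := 0.905) 6 (by norm_num) (by norm_num) (by norm_num) (by norm_num))
    (exp_neg_leJ (r := 0.99) 14 (by norm_num) (by norm_num) (by norm_num) (by norm_num))
    (exp_neg_leJ (r := 0.99) 14 (by norm_num) (by norm_num) (by norm_num) (by norm_num))
    (exp_neg_leJ (r := 0.99) 14 (by norm_num) (by norm_num) (by norm_num) (by norm_num))
    (by norm_num)) (by norm_num) hN hβ.le (by norm_num)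

private theorem JB6_k0f_b2_2 {β x y : ℝ} (hβ : 0 < β) (hN : β * 14.925 ≤ 1) (hx1 : 0.711 ≤ x) (hx2 : x ≤ 0.9497)
    (hy1 : -0.437 ≤ y) (hy2 : y ≤ -0.417) : ‖HH β (x + y * I) - 1‖ ≤ 0.144 := by
  refine le_epsJ (C := 2.1272) (N0 := 14.925) (J_boxp 0.711 0.9497 0.437 0 (-0.417) 0.9004 1.0455 1.1144 1.2356 0.4212 3.8633 14.925 1.1612 5.547 1.711 0.6514 0.4501 0.2759 0.5618 2.1576 0.4616 1.4844 1.8048 3.2921 0.001212 0.0163 0.0002286 0.0000003101 0.001022 0.0000003101 0.0000003101 0.0000003101 2.1272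
    hβ hN hx1 hx2 hy1 hy2 (by norm_num) (by norm_num) (by linarith) (by norm_num) (by norm_num) (by norm_num) (by norm_num) (by norm_num) (by norm_num) (by norm_num) (by norm_num) (by norm_num) (by norm_num) (by norm_num) (by norm_num) (by norm_num) (by norm_num) (by norm_num) (by norm_num) (by norm_num) (by norm_num) (by norm_num) (by norm_num) (by norm_num)
    (cube_sqrt_geJ (s := 0.7829) (by norm_num) (by norm_num) (by norm_num) (by norm_num))
    (cube_sqrt_geJ (s := 0.9261) (by norm_num) (by norm_num) (by norm_num) (by norm_num))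
    (by norm_num) (by norm_num) (by norm_num) (by norm_num) (by norm_num) (by norm_num) (by norm_num) (by norm_num) (by norm_num) (by norm_num) (by norm_num) (by norm_num) (by norm_num) (by norm_num) (by norm_num) (by norm_num) (by norm_num) (by norm_num)
    (exp_neg_leJ (r := 0.717) 6 (by norm_num) (by norm_num) (by norm_num) (by norm_num))
    (exp_neg_leJ (r := 0.117) 4 (by norm_num) (by norm_num) (by norm_num) (by norm_num))
    (exp_neg_leJ (r := 0.384) 8 (by norm_num) (by norm_num) (by norm_num) (by norm_num))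
    (exp_neg_leJ (r := 0.99) 14 (by norm_num) (by norm_num) (by norm_num) (by norm_num))
    (exp_neg_leJ (r := 0.889) 6 (by norm_num) (by norm_num) (by norm_num) (by norm_num))
    (exp_neg_leJ (r := 0.99) 14 (by norm_num) (by norm_num) (by norm_num) (by norm_num))
    (exp_neg_leJ (r := 0.99) 14 (by norm_num) (by norm_num) (by norm_num) (by norm_num))
    (exp_neg_leJ (r := 0.99) 14 (by norm_num) (by norm_num) (by norm_num) (by norm_num))
    (by norm_num)) (by norm_num) hN hβ.le (by norm_num)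

private theorem JB6_k0f_b2_3 {β x y : ℝ} (hβ : 0 < β) (hN : β * 14.925 ≤ 1) (hx1 : 0.6848 ≤ x) (hx2 : x ≤ 0.9442)
    (hy1 : -0.417 ≤ y) (hy2 : y ≤ -0.377) : ‖HH β (x + y * I) - 1‖ ≤ 0.144 := by
  refine le_epsJ (C := 2.1091) (N0 := 14.925) (J_boxp 0.6848 0.9442 0.417 0 (-0.377) 0.8961 1.0322 1.1313 1.2539 0.4244 3.8633 14.925 1.1519 5.451 1.703 0.672 0.448 0.276 0.5844 2.2256 0.4598 1.4481 1.8067 3.2758 0.00125 0.01627 0.0001632 0.0000003101 0.001049 0.0000003101 0.0000003101 0.0000003101 2.1091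
    hβ hN hx1 hx2 hy1 hy2 (by norm_num) (by norm_num) (by linarith) (by norm_num) (by norm_num) (by norm_num) (by norm_num) (by norm_num) (by norm_num) (by norm_num) (by norm_num) (by norm_num) (by norm_num) (by norm_num) (by norm_num) (by norm_num) (by norm_num) (by norm_num) (by norm_num) (by norm_num) (by norm_num) (by norm_num) (by norm_num) (by norm_num)
    (cube_sqrt_geJ (s := 0.7848) (by norm_num) (by norm_num) (by norm_num) (by norm_num))
    (cube_sqrt_geJ (s := 0.9268) (by norm_num) (by norm_num) (by norm_num) (by norm_num))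
    (by norm_num) (by norm_num) (by norm_num) (by norm_num) (by norm_num) (by norm_num) (by norm_num) (by norm_num) (by norm_num) (by norm_num) (by norm_num) (by norm_num) (by norm_num) (by norm_num) (by norm_num) (by norm_num) (by norm_num) (by norm_num)
    (exp_neg_leJ (r := 0.686) 6 (by norm_num) (by norm_num) (by norm_num) (by norm_num))
    (exp_neg_leJ (r := 0.119) 4 (by norm_num) (by norm_num) (by norm_num) (by norm_num))
    (exp_neg_leJ (r := 0.722) 8 (by norm_num) (by norm_num) (by norm_num) (by norm_num))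
    (exp_neg_leJ (r := 0.99) 14 (by norm_num) (by norm_num) (by norm_num) (by norm_num))
    (exp_neg_leJ (r := 0.862) 6 (by norm_num) (by norm_num) (by norm_num) (by norm_num))
    (exp_neg_leJ (r := 0.99) 14 (by norm_num) (by norm_num) (by norm_num) (by norm_num))
    (exp_neg_leJ (r := 0.99) 14 (by norm_num) (by norm_num) (by norm_num) (by norm_num))
    (exp_neg_leJ (r := 0.99) 14 (by norm_num) (by norm_num) (by norm_num) (by norm_num))
    (by norm_num)) (by norm_num) hN hβ.le (by norm_num)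

private theorem JB6_k0f_b2_4 {β x y : ℝ} (hβ : 0 < β) (hN : β * 14.925 ≤ 1) (hx1 : 0.6604 ≤ x) (hx2 : x ≤ 0.9215)
    (hy1 : -0.377 ≤ y) (hy2 : y ≤ -0.324) : ‖HH β (x + y * I) - 1‖ ≤ 0.144 := by
  refine le_epsJ (C := 1.787) (N0 := 14.925) (J_boxp 0.6604 0.9215 0.377 0 (-0.324) 0.9073 0.9957 1.1429 1.2371 0.4265 3.8633 14.925 1.0975 4.924 1.658 0.7176 0.4536 0.2876 0.6392 2.368 0.4698 1.4143 1.8667 3.3262 0.001151 0.01368 0.00007194 0.0000003101 0.000902 0.0000003101 0.0000003101 0.0000003101 1.787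
    hβ hN hx1 hx2 hy1 hy2 (by norm_num) (by norm_num) (by linarith) (by norm_num) (by norm_num) (by norm_num) (by norm_num) (by norm_num) (by norm_num) (by norm_num) (by norm_num) (by norm_num) (by norm_num) (by norm_num) (by norm_num) (by norm_num) (by norm_num) (by norm_num) (by norm_num) (by norm_num) (by norm_num) (by norm_num) (by norm_num) (by norm_num)
    (cube_sqrt_geJ (s := 0.7963) (by norm_num) (by norm_num) (by norm_num) (by norm_num))
    (cube_sqrt_geJ (s := 0.9303) (by norm_num) (by norm_num) (by norm_num) (by norm_num))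
    (by norm_num) (by norm_num) (by norm_num) (by norm_num) (by norm_num) (by norm_num) (by norm_num) (by norm_num) (by norm_num) (by norm_num) (by norm_num) (by norm_num) (by norm_num) (by norm_num) (by norm_num) (by norm_num) (by norm_num) (by norm_num)
    (exp_neg_leJ (r := 0.769) 6 (by norm_num) (by norm_num) (by norm_num) (by norm_num))
    (exp_neg_leJ (r := 0.292) 4 (by norm_num) (by norm_num) (by norm_num) (by norm_num))
    (exp_neg_leJ (r := 0.54) 9 (by norm_num) (by norm_num) (by norm_num) (by norm_num))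
    (exp_neg_leJ (r := 0.99) 14 (by norm_num) (by norm_num) (by norm_num) (by norm_num))
    (exp_neg_leJ (r := 0.011) 7 (by norm_num) (by norm_num) (by norm_num) (by norm_num))
    (exp_neg_leJ (r := 0.99) 14 (by norm_num) (by norm_num) (by norm_num) (by norm_num))
    (exp_neg_leJ (r := 0.99) 14 (by norm_num) (by norm_num) (by norm_num) (by norm_num))
    (exp_neg_leJ (r := 0.99) 14 (by norm_num) (by norm_num) (by norm_num) (by norm_num))
    (by norm_num)) (by norm_num) hN hβ.le (by norm_num)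

private theorem JB6_k0f_c2 {κ t β : ℝ} (h : DomR κ t) (hβ : 0 < β) (hk1 : 0.55 ≤ κ) (hk2 : κ ≤ 0.67)
    (ht1 : -0.72 ≤ t + κ) (ht2 : t + κ ≤ -0.58) (hR0 : β * 10 ≤ κ) (hR : β * (4.95 * (1 + κ ^ 2)) ≤ κ) :
    ‖HH β (sg κ t) - 1‖ ≤ 0.144 := by
  have hN : β * 14.925 ≤ 1 := bNR hβ h.1 hk2 hR0 (by norm_num)
  have hy1 : -0.452 ≤ sy κ t := syL_ge h 0.55 0.67 0.72 0.452 0.63635 0.63636 0.4527 0.42929 0.52298 hk1 hk2 (by linarith) (by norm_num) (by norm_num) (by norm_num)
    (expm_ge (by norm_num) (by norm_num) (by norm_num) (by norm_num)) (expm_le (by norm_num) (by norm_num) (by norm_num)) (by norm_num)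
    (by norm_num) (by norm_num) (by norm_num) (by norm_num) (by norm_num) (by norm_num)
  have hy2 : sy κ t ≤ -0.324 := syL_le h 0.55 0.67 0.58 0.324 0.72325 0.72326 0.34975 0.42607 hk1 hk2 (by linarith) (by norm_num) (by norm_num) (by norm_num)
    (expm_ge (by norm_num) (by norm_num) (by norm_num) (by norm_num)) (expm_le (by norm_num) (by norm_num) (by norm_num)) (by norm_num)
    (by norm_num) (by norm_num) (by norm_num) (by norm_num) (by norm_num) (by norm_num)
  rcases le_total (sy κ t) (-0.447) with f0 | g0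
  · have hx1 : 0.7316 ≤ sx κ t := sx_lo h 0.55 (-0.447) 0.452 1.56361 0.7316 hk1 (by norm_num) f0 (abs_le.2 ⟨by linarith, by linarith⟩) (by rw [neg_neg]; exact expn_ge (by norm_num) (by norm_num)) (by norm_num) (by norm_num)
    have hx2 : sx κ t ≤ 0.9533 := sx_hi h 0.67 (-0.452) 0.447 1.57146 0.9533 hk2 hy1 (by norm_num) (by rw [abs_of_nonpos (by linarith)]; linarith) (by rw [neg_neg]; exact expn_le (by norm_num) (by norm_num) (by norm_num)) (by norm_num) (by norm_num)
    exact JB6_k0f_b2_0 hβ hN hx1 hx2 (by linarith) (by linarith)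
  rcases le_total (sy κ t) (-0.437) with f1 | g1
  · have hx1 : 0.7246 ≤ sx κ t := sx_lo h 0.55 (-0.437) 0.447 1.54805 0.7246 hk1 (by norm_num) f1 (abs_le.2 ⟨by linarith, by linarith⟩) (by rw [neg_neg]; exact expn_ge (by norm_num) (by norm_num)) (by norm_num) (by norm_num)
    have hx2 : sx κ t ≤ 0.9522 := sx_hi h 0.67 (-0.447) 0.437 1.56362 0.9522 hk2 g0 (by norm_num) (by rw [abs_of_nonpos (by linarith)]; linarith) (by rw [neg_neg]; exact expn_le (by norm_num) (by norm_num) (by norm_num)) (by norm_num) (by norm_num)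
    exact JB6_k0f_b2_1 hβ hN hx1 hx2 (by linarith) (by linarith)
  rcases le_total (sy κ t) (-0.417) with f2 | g2
  · have hx1 : 0.711 ≤ sx κ t := sx_lo h 0.55 (-0.417) 0.437 1.5174 0.711 hk1 (by norm_num) f2 (abs_le.2 ⟨by linarith, by linarith⟩) (by rw [neg_neg]; exact expn_ge (by norm_num) (by norm_num)) (by norm_num) (by norm_num)
    have hx2 : sx κ t ≤ 0.9497 := sx_hi h 0.67 (-0.437) 0.417 1.54806 0.9497 hk2 g1 (by norm_num) (by rw [abs_of_nonpos (by linarith)]; linarith) (by rw [neg_neg]; exact expn_le (by norm_num) (by norm_num) (by norm_num)) (by norm_num) (by norm_num)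
    exact JB6_k0f_b2_2 hβ hN hx1 hx2 (by linarith) (by linarith)
  rcases le_total (sy κ t) (-0.377) with f3 | g3
  · have hx1 : 0.6848 ≤ sx κ t := sx_lo h 0.55 (-0.377) 0.417 1.4579 0.6848 hk1 (by norm_num) f3 (abs_le.2 ⟨by linarith, by linarith⟩) (by rw [neg_neg]; exact expn_ge (by norm_num) (by norm_num)) (by norm_num) (by norm_num)
    have hx2 : sx κ t ≤ 0.9442 := sx_hi h 0.67 (-0.417) 0.377 1.51741 0.9442 hk2 g2 (by norm_num) (by rw [abs_of_nonpos (by linarith)]; linarith) (by rw [neg_neg]; exact expn_le (by norm_num) (by norm_num) (by norm_num)) (by norm_num) (by norm_num)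
    exact JB6_k0f_b2_3 hβ hN hx1 hx2 (by linarith) (by linarith)
  have hx1 : 0.6604 ≤ sx κ t := sx_lo h 0.55 (-0.324) 0.377 1.38264 0.6604 hk1 (by norm_num) hy2 (abs_le.2 ⟨by linarith, by linarith⟩) (by rw [neg_neg]; exact expn_ge (by norm_num) (by norm_num)) (by norm_num) (by norm_num)
  have hx2 : sx κ t ≤ 0.9215 := sx_hi h 0.67 (-0.377) 0.324 1.45791 0.9215 hk2 g3 (by norm_num) (by rw [abs_of_nonpos (by linarith)]; linarith) (by rw [neg_neg]; exact expn_le (by norm_num) (by norm_num) (by norm_num)) (by norm_num) (by norm_num)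
  exact JB6_k0f_b2_4 hβ hN hx1 hx2 (by linarith) (by linarith)

private theorem JB6_k0f_b3_0 {β x y : ℝ} (hβ : 0 < β) (hN : β * 12.82 ≤ 1) (hx1 : 0.9392 ≤ x) (hx2 : x ≤ 1.1433)
    (hy1 : -0.452 ≤ y) (hy2 : y ≤ -0.442) : ‖HH β (x + y * I) - 1‖ ≤ 0.144 := by
  refine le_epsJ (C := 1.8457) (N0 := 12.82) (J_boxp 0.9392 1.1433 0.452 0 (-0.442) 1.0504 1.2295 1.2723 1.0478 0.45 3.5806 12.82 1.1706 5.649 1.719 0.5631 0.5251 0.3202 0.6163 2.0011 0.5642 1.8004 2.2204 3.2483 0.001195 0.01651 0.0003717 0.0000003101 0.0007224 0.0000003101 0.0000003101 0.0000003101 1.8457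
    hβ hN hx1 hx2 hy1 hy2 (by norm_num) (by norm_num) (by linarith) (by norm_num) (by norm_num) (by norm_num) (by norm_num) (by norm_num) (by norm_num) (by norm_num) (by norm_num) (by norm_num) (by norm_num) (by norm_num) (by norm_num) (by norm_num) (by norm_num) (by norm_num) (by norm_num) (by norm_num) (by norm_num) (by norm_num) (by norm_num) (by norm_num)
    (cube_sqrt_geJ (s := 0.7808) (by norm_num) (by norm_num) (by norm_num) (by norm_num))
    (cube_sqrt_geJ (s := 0.9255) (by norm_num) (by norm_num) (by norm_num) (by norm_num))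
    (by norm_num) (by norm_num) (by norm_num) (by norm_num) (by norm_num) (by norm_num) (by norm_num) (by norm_num) (by norm_num) (by norm_num) (by norm_num) (by norm_num) (by norm_num) (by norm_num) (by norm_num) (by norm_num) (by norm_num) (by norm_num)
    (exp_neg_leJ (r := 0.731) 6 (by norm_num) (by norm_num) (by norm_num) (by norm_num))
    (exp_neg_leJ (r := 0.104) 4 (by norm_num) (by norm_num) (by norm_num) (by norm_num))
    (exp_neg_leJ (r := 0.9) 7 (by norm_num) (by norm_num) (by norm_num) (by norm_num))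
    (exp_neg_leJ (r := 0.99) 14 (by norm_num) (by norm_num) (by norm_num) (by norm_num))
    (exp_neg_leJ (r := 0.233) 7 (by norm_num) (by norm_num) (by norm_num) (by norm_num))
    (exp_neg_leJ (r := 0.99) 14 (by norm_num) (by norm_num) (by norm_num) (by norm_num))
    (exp_neg_leJ (r := 0.99) 14 (by norm_num) (by norm_num) (by norm_num) (by norm_num))
    (exp_neg_leJ (r := 0.99) 14 (by norm_num) (by norm_num) (by norm_num) (by norm_num))
    (by norm_num)) (by norm_num) hN hβ.le (by norm_num)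

private theorem JB6_k0f_b3_1 {β x y : ℝ} (hβ : 0 < β) (hN : β * 12.82 ≤ 1) (hx1 : 0.9268 ≤ x) (hx2 : x ≤ 1.136)
    (hy1 : -0.442 ≤ y) (hy2 : y ≤ -0.427) : ‖HH β (x + y * I) - 1‖ ≤ 0.144 := by
  refine le_epsJ (C := 1.8099) (N0 := 12.82) (J_boxp 0.9268 1.136 0.442 0 (-0.427) 1.0488 1.219 1.2724 1.0503 0.4501 3.5806 12.82 1.1623 5.56 1.712 0.5751 0.5243 0.3212 0.6278 2.0376 0.5637 1.7832 2.2228 3.252 0.001207 0.0163 0.0003198 0.0000003101 0.0007275 0.0000003101 0.0000003101 0.0000003101 1.8099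
    hβ hN hx1 hx2 hy1 hy2 (by norm_num) (by norm_num) (by linarith) (by norm_num) (by norm_num) (by norm_num) (by norm_num) (by norm_num) (by norm_num) (by norm_num) (by norm_num) (by norm_num) (by norm_num) (by norm_num) (by norm_num) (by norm_num) (by norm_num) (by norm_num) (by norm_num) (by norm_num) (by norm_num) (by norm_num) (by norm_num) (by norm_num)
    (cube_sqrt_geJ (s := 0.7826) (by norm_num) (by norm_num) (by norm_num) (by norm_num))
    (cube_sqrt_geJ (s := 0.9261) (by norm_num) (by norm_num) (by norm_num) (by norm_num))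
    (by norm_num) (by norm_num) (by norm_num) (by norm_num) (by norm_num) (by norm_num) (by norm_num) (by norm_num) (by norm_num) (by norm_num) (by norm_num) (by norm_num) (by norm_num) (by norm_num) (by norm_num) (by norm_num) (by norm_num) (by norm_num)
    (exp_neg_leJ (r := 0.721) 6 (by norm_num) (by norm_num) (by norm_num) (by norm_num))
    (exp_neg_leJ (r := 0.117) 4 (by norm_num) (by norm_num) (by norm_num) (by norm_num))
    (exp_neg_leJ (r := 0.048) 8 (by norm_num) (by norm_num) (by norm_num) (by norm_num))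
    (exp_neg_leJ (r := 0.99) 14 (by norm_num) (by norm_num) (by norm_num) (by norm_num))
    (exp_neg_leJ (r := 0.226) 7 (by norm_num) (by norm_num) (by norm_num) (by norm_num))
    (exp_neg_leJ (r := 0.99) 14 (by norm_num) (by norm_num) (by norm_num) (by norm_num))
    (exp_neg_leJ (r := 0.99) 14 (by norm_num) (by norm_num) (by norm_num) (by norm_num))
    (exp_neg_leJ (r := 0.99) 14 (by norm_num) (by norm_num) (by norm_num) (by norm_num))
    (by norm_num)) (by norm_num) hN hβ.le (by norm_num)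

private theorem JB6_k0f_b3_2 {β x y : ℝ} (hβ : 0 < β) (hN : β * 12.82 ≤ 1) (hx1 : 0.9004 ≤ x) (hx2 : x ≤ 1.1277)
    (hy1 : -0.427 ≤ y) (hy2 : y ≤ -0.397) : ‖HH β (x + y * I) - 1‖ ≤ 0.144 := by
  refine le_epsJ (C := 1.8227) (N0 := 12.82) (J_boxp 0.9004 1.1277 0.427 0 (-0.397) 1.0408 1.2059 1.2788 1.0651 0.4512 3.5806 12.82 1.1587 5.521 1.709 0.5922 0.5203 0.3194 0.6424 2.0908 0.559 1.7467 2.2107 3.2349 0.00127 0.01668 0.0002653 0.0000003101 0.0007725 0.0000003101 0.0000003101 0.0000003101 1.8227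
    hβ hN hx1 hx2 hy1 hy2 (by norm_num) (by norm_num) (by linarith) (by norm_num) (by norm_num) (by norm_num) (by norm_num) (by norm_num) (by norm_num) (by norm_num) (by norm_num) (by norm_num) (by norm_num) (by norm_num) (by norm_num) (by norm_num) (by norm_num) (by norm_num) (by norm_num) (by norm_num) (by norm_num) (by norm_num) (by norm_num) (by norm_num)
    (cube_sqrt_geJ (s := 0.7834) (by norm_num) (by norm_num) (by norm_num) (by norm_num))
    (cube_sqrt_geJ (s := 0.9263) (by norm_num) (by norm_num) (by norm_num) (by norm_num))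
    (by norm_num) (by norm_num) (by norm_num) (by norm_num) (by norm_num) (by norm_num) (by norm_num) (by norm_num) (by norm_num) (by norm_num) (by norm_num) (by norm_num) (by norm_num) (by norm_num) (by norm_num) (by norm_num) (by norm_num) (by norm_num)
    (exp_neg_leJ (r := 0.67) 6 (by norm_num) (by norm_num) (by norm_num) (by norm_num))
    (exp_neg_leJ (r := 0.094) 4 (by norm_num) (by norm_num) (by norm_num) (by norm_num))
    (exp_neg_leJ (r := 0.235) 8 (by norm_num) (by norm_num) (by norm_num) (by norm_num))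
    (exp_neg_leJ (r := 0.99) 14 (by norm_num) (by norm_num) (by norm_num) (by norm_num))
    (exp_neg_leJ (r := 0.166) 7 (by norm_num) (by norm_num) (by norm_num) (by norm_num))
    (exp_neg_leJ (r := 0.99) 14 (by norm_num) (by norm_num) (by norm_num) (by norm_num))
    (exp_neg_leJ (r := 0.99) 14 (by norm_num) (by norm_num) (by norm_num) (by norm_num))
    (exp_neg_leJ (r := 0.99) 14 (by norm_num) (by norm_num) (by norm_num) (by norm_num))
    (by norm_num)) (by norm_num) hN hβ.le (by norm_num)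

private theorem JB6_k0f_b3_3 {β x y : ℝ} (hβ : 0 < β) (hN : β * 12.82 ≤ 1) (hx1 : 0.8545 ≤ x) (hx2 : x ≤ 1.1089)
    (hy1 : -0.397 ≤ y) (hy2 : y ≤ -0.341) : ‖HH β (x + y * I) - 1‖ ≤ 0.144 := by
  refine le_epsJ (C := 1.7947) (N0 := 12.82) (J_boxp 0.8545 1.1089 0.397 0 (-0.341) 1.0298 1.1779 1.29 1.0869 0.4532 3.5806 12.82 1.1439 5.369 1.696 0.6271 0.5148 0.3185 0.6741 2.1983 0.5531 1.6831 2.2005 3.2192 0.001363 0.01686 0.0001769 0.0000003101 0.0008335 0.0000003101 0.0000003101 0.0000003101 1.7947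
    hβ hN hx1 hx2 hy1 hy2 (by norm_num) (by norm_num) (by linarith) (by norm_num) (by norm_num) (by norm_num) (by norm_num) (by norm_num) (by norm_num) (by norm_num) (by norm_num) (by norm_num) (by norm_num) (by norm_num) (by norm_num) (by norm_num) (by norm_num) (by norm_num) (by norm_num) (by norm_num) (by norm_num) (by norm_num) (by norm_num) (by norm_num)
    (cube_sqrt_geJ (s := 0.7865) (by norm_num) (by norm_num) (by norm_num) (by norm_num))
    (cube_sqrt_geJ (s := 0.9273) (by norm_num) (by norm_num) (by norm_num) (by norm_num))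
    (by norm_num) (by norm_num) (by norm_num) (by norm_num) (by norm_num) (by norm_num) (by norm_num) (by norm_num) (by norm_num) (by norm_num) (by norm_num) (by norm_num) (by norm_num) (by norm_num) (by norm_num) (by norm_num) (by norm_num) (by norm_num)
    (exp_neg_leJ (r := 0.599) 6 (by norm_num) (by norm_num) (by norm_num) (by norm_num))
    (exp_neg_leJ (r := 0.083) 4 (by norm_num) (by norm_num) (by norm_num) (by norm_num))
    (exp_neg_leJ (r := 0.641) 8 (by norm_num) (by norm_num) (by norm_num) (by norm_num))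
    (exp_neg_leJ (r := 0.99) 14 (by norm_num) (by norm_num) (by norm_num) (by norm_num))
    (exp_neg_leJ (r := 0.09) 7 (by norm_num) (by norm_num) (by norm_num) (by norm_num))
    (exp_neg_leJ (r := 0.99) 14 (by norm_num) (by norm_num) (by norm_num) (by norm_num))
    (exp_neg_leJ (r := 0.99) 14 (by norm_num) (by norm_num) (by norm_num) (by norm_num))
    (exp_neg_leJ (r := 0.99) 14 (by norm_num) (by norm_num) (by norm_num) (by norm_num))
    (by norm_num)) (by norm_num) hN hβ.le (by norm_num)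

private theorem JB6_k0f_c3 {κ t β : ℝ} (h : DomR κ t) (hβ : 0 < β) (hk1 : 0.67 ≤ κ) (hk2 : κ ≤ 0.78)
    (ht1 : -0.72 ≤ t + κ) (ht2 : t + κ ≤ -0.58) (hR0 : β * 10 ≤ κ) (hR : β * (4.95 * (1 + κ ^ 2)) ≤ κ) :
    ‖HH β (sg κ t) - 1‖ ≤ 0.144 := by
  have hN : β * 12.82 ≤ 1 := bNR hβ h.1 hk2 hR0 (by norm_num)
  have hy1 : -0.452 ≤ sy κ t := syL_ge h 0.67 0.78 0.72 0.452 0.63635 0.63636 0.4091 0.36875 0.42931 hk1 hk2 (by linarith) (by norm_num) (by norm_num) (by norm_num)
    (expm_ge (by norm_num) (by norm_num) (by norm_num) (by norm_num)) (expm_le (by norm_num) (by norm_num) (by norm_num)) (by norm_num)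
    (by norm_num) (by norm_num) (by norm_num) (by norm_num) (by norm_num) (by norm_num)
  have hy2 : sy κ t ≤ -0.341 := syL_le h 0.67 0.78 0.58 0.341 0.71105 0.71106 0.31085 0.3619 hk1 hk2 (by linarith) (by norm_num) (by norm_num) (by norm_num)
    (expm_ge (by norm_num) (by norm_num) (by norm_num) (by norm_num)) (expm_le (by norm_num) (by norm_num) (by norm_num)) (by norm_num)
    (by norm_num) (by norm_num) (by norm_num) (by norm_num) (by norm_num) (by norm_num)
  rcases le_total (sy κ t) (-0.442) with f0 | g0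
  · have hx1 : 0.9392 ≤ sx κ t := sx_lo h 0.67 (-0.442) 0.452 1.55581 0.9392 hk1 (by norm_num) f0 (abs_le.2 ⟨by linarith, by linarith⟩) (by rw [neg_neg]; exact expn_ge (by norm_num) (by norm_num)) (by norm_num) (by norm_num)
    have hx2 : sx κ t ≤ 1.1433 := sx_hi h 0.78 (-0.452) 0.442 1.57146 1.1433 hk2 hy1 (by norm_num) (by rw [abs_of_nonpos (by linarith)]; linarith) (by rw [neg_neg]; exact expn_le (by norm_num) (by norm_num) (by norm_num)) (by norm_num) (by norm_num)
    exact JB6_k0f_b3_0 hβ hN hx1 hx2 (by linarith) (by linarith)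
  rcases le_total (sy κ t) (-0.427) with f1 | g1
  · have hx1 : 0.9268 ≤ sx κ t := sx_lo h 0.67 (-0.427) 0.442 1.53265 0.9268 hk1 (by norm_num) f1 (abs_le.2 ⟨by linarith, by linarith⟩) (by rw [neg_neg]; exact expn_ge (by norm_num) (by norm_num)) (by norm_num) (by norm_num)
    have hx2 : sx κ t ≤ 1.136 := sx_hi h 0.78 (-0.442) 0.427 1.55582 1.136 hk2 g0 (by norm_num) (by rw [abs_of_nonpos (by linarith)]; linarith) (by rw [neg_neg]; exact expn_le (by norm_num) (by norm_num) (by norm_num)) (by norm_num) (by norm_num)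
    exact JB6_k0f_b3_1 hβ hN hx1 hx2 (by linarith) (by linarith)
  rcases le_total (sy κ t) (-0.397) with f2 | g2
  · have hx1 : 0.9004 ≤ sx κ t := sx_lo h 0.67 (-0.397) 0.427 1.48735 0.9004 hk1 (by norm_num) f2 (abs_le.2 ⟨by linarith, by linarith⟩) (by rw [neg_neg]; exact expn_ge (by norm_num) (by norm_num)) (by norm_num) (by norm_num)
    have hx2 : sx κ t ≤ 1.1277 := sx_hi h 0.78 (-0.427) 0.397 1.53266 1.1277 hk2 g1 (by norm_num) (by rw [abs_of_nonpos (by linarith)]; linarith) (by rw [neg_neg]; exact expn_le (by norm_num) (by norm_num) (by norm_num)) (by norm_num) (by norm_num)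
    exact JB6_k0f_b3_2 hβ hN hx1 hx2 (by linarith) (by linarith)
  have hx1 : 0.8545 ≤ sx κ t := sx_lo h 0.67 (-0.341) 0.397 1.40635 0.8545 hk1 (by norm_num) hy2 (abs_le.2 ⟨by linarith, by linarith⟩) (by rw [neg_neg]; exact expn_ge (by norm_num) (by norm_num)) (by norm_num) (by norm_num)
  have hx2 : sx κ t ≤ 1.1089 := sx_hi h 0.78 (-0.397) 0.341 1.48736 1.1089 hk2 g2 (by norm_num) (by rw [abs_of_nonpos (by linarith)]; linarith) (by rw [neg_neg]; exact expn_le (by norm_num) (by norm_num) (by norm_num)) (by norm_num) (by norm_num)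
  exact JB6_k0f_b3_3 hβ hN hx1 hx2 (by linarith) (by linarith)

private theorem JB6_k0f_b4_0 {β x y : ℝ} (hβ : 0 < β) (hN : β * 11.363 ≤ 1) (hx1 : 1.1107 ≤ x) (hx2 : x ≤ 1.3009)
    (hy1 : -0.442 ≤ y) (hy2 : y ≤ -0.427) : ‖HH β (x + y * I) - 1‖ ≤ 0.144 := by
  refine le_epsJ (C := 1.6242) (N0 := 11.363) (J_boxp 1.1107 1.3009 0.442 0 (-0.427) 1.1783 1.374 1.4216 0.9322 0.4757 3.371 11.363 1.1661 5.6 1.715 0.5117 0.5891 0.3601 0.6908 1.9449 0.653 2.0378 2.5906 3.1985 0.001241 0.01673 0.0003909 0.0000003101 0.0005993 0.0000003101 0.0000003101 0.0000003101 1.6242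
    hβ hN hx1 hx2 hy1 hy2 (by norm_num) (by norm_num) (by linarith) (by norm_num) (by norm_num) (by norm_num) (by norm_num) (by norm_num) (by norm_num) (by norm_num) (by norm_num) (by norm_num) (by norm_num) (by norm_num) (by norm_num) (by norm_num) (by norm_num) (by norm_num) (by norm_num) (by norm_num) (by norm_num) (by norm_num) (by norm_num) (by norm_num)
    (cube_sqrt_geJ (s := 0.7818) (by norm_num) (by norm_num) (by norm_num) (by norm_num))
    (cube_sqrt_geJ (s := 0.9258) (by norm_num) (by norm_num) (by norm_num) (by norm_num))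
    (by norm_num) (by norm_num) (by norm_num) (by norm_num) (by norm_num) (by norm_num) (by norm_num) (by norm_num) (by norm_num) (by norm_num) (by norm_num) (by norm_num) (by norm_num) (by norm_num) (by norm_num) (by norm_num) (by norm_num) (by norm_num)
    (exp_neg_leJ (r := 0.693) 6 (by norm_num) (by norm_num) (by norm_num) (by norm_num))
    (exp_neg_leJ (r := 0.091) 4 (by norm_num) (by norm_num) (by norm_num) (by norm_num))
    (exp_neg_leJ (r := 0.849) 7 (by norm_num) (by norm_num) (by norm_num) (by norm_num))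
    (exp_neg_leJ (r := 0.99) 14 (by norm_num) (by norm_num) (by norm_num) (by norm_num))
    (exp_neg_leJ (r := 0.42) 7 (by norm_num) (by norm_num) (by norm_num) (by norm_num))
    (exp_neg_leJ (r := 0.99) 14 (by norm_num) (by norm_num) (by norm_num) (by norm_num))
    (exp_neg_leJ (r := 0.99) 14 (by norm_num) (by norm_num) (by norm_num) (by norm_num))
    (exp_neg_leJ (r := 0.99) 14 (by norm_num) (by norm_num) (by norm_num) (by norm_num))
    (by norm_num)) (by norm_num) hN hβ.le (by norm_num)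

private theorem JB6_k0f_b4_1 {β x y : ℝ} (hβ : 0 < β) (hN : β * 11.363 ≤ 1) (hx1 : 1.0849 ≤ x) (hx2 : x ≤ 1.2875)
    (hy1 : -0.427 ≤ y) (hy2 : y ≤ -0.402) : ‖HH β (x + y * I) - 1‖ ≤ 0.144 := by
  refine le_epsJ (C := 1.6108) (N0 := 11.363) (J_boxp 1.0849 1.2875 0.427 0 (-0.402) 1.1707 1.3565 1.4196 0.9407 0.4754 3.371 11.363 1.1588 5.522 1.709 0.5307 0.5853 0.3592 0.7056 2.0009 0.6487 2.0021 2.5797 3.1945 0.001295 0.0169 0.0003299 0.0000003101 0.0006293 0.0000003101 0.0000003101 0.0000003101 1.6108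
    hβ hN hx1 hx2 hy1 hy2 (by norm_num) (by norm_num) (by linarith) (by norm_num) (by norm_num) (by norm_num) (by norm_num) (by norm_num) (by norm_num) (by norm_num) (by norm_num) (by norm_num) (by norm_num) (by norm_num) (by norm_num) (by norm_num) (by norm_num) (by norm_num) (by norm_num) (by norm_num) (by norm_num) (by norm_num) (by norm_num) (by norm_num)
    (cube_sqrt_geJ (s := 0.7834) (by norm_num) (by norm_num) (by norm_num) (by norm_num))
    (cube_sqrt_geJ (s := 0.9263) (by norm_num) (by norm_num) (by norm_num) (by norm_num))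
    (by norm_num) (by norm_num) (by norm_num) (by norm_num) (by norm_num) (by norm_num) (by norm_num) (by norm_num) (by norm_num) (by norm_num) (by norm_num) (by norm_num) (by norm_num) (by norm_num) (by norm_num) (by norm_num) (by norm_num) (by norm_num)
    (exp_neg_leJ (r := 0.65) 6 (by norm_num) (by norm_num) (by norm_num) (by norm_num))
    (exp_neg_leJ (r := 0.081) 4 (by norm_num) (by norm_num) (by norm_num) (by norm_num))
    (exp_neg_leJ (r := 0.017) 8 (by norm_num) (by norm_num) (by norm_num) (by norm_num))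
    (exp_neg_leJ (r := 0.99) 14 (by norm_num) (by norm_num) (by norm_num) (by norm_num))
    (exp_neg_leJ (r := 0.371) 7 (by norm_num) (by norm_num) (by norm_num) (by norm_num))
    (exp_neg_leJ (r := 0.99) 14 (by norm_num) (by norm_num) (by norm_num) (by norm_num))
    (exp_neg_leJ (r := 0.99) 14 (by norm_num) (by norm_num) (by norm_num) (by norm_num))
    (exp_neg_leJ (r := 0.99) 14 (by norm_num) (by norm_num) (by norm_num) (by norm_num))
    (by norm_num)) (by norm_num) hN hβ.le (by norm_num)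

private theorem JB6_k0f_b4_2 {β x y : ℝ} (hβ : 0 < β) (hN : β * 11.363 ≤ 1) (hx1 : 1.0396 ≤ x) (hx2 : x ≤ 1.2661)
    (hy1 : -0.402 ≤ y) (hy2 : y ≤ -0.357) : ‖HH β (x + y * I) - 1‖ ≤ 0.144 := by
  refine le_epsJ (C := 1.6036) (N0 := 11.363) (J_boxp 1.0396 1.2661 0.402 0 (-0.357) 1.1566 1.3284 1.4201 0.9581 0.4755 3.371 11.363 1.1486 5.417 1.7 0.562 0.5782 0.3568 0.7296 2.0935 0.6403 1.9394 2.5571 3.1803 0.001403 0.01736 0.0002511 0.0000003101 0.0006927 0.0000003101 0.0000003101 0.0000003101 1.6036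
    hβ hN hx1 hx2 hy1 hy2 (by norm_num) (by norm_num) (by linarith) (by norm_num) (by norm_num) (by norm_num) (by norm_num) (by norm_num) (by norm_num) (by norm_num) (by norm_num) (by norm_num) (by norm_num) (by norm_num) (by norm_num) (by norm_num) (by norm_num) (by norm_num) (by norm_num) (by norm_num) (by norm_num) (by norm_num) (by norm_num) (by norm_num)
    (cube_sqrt_geJ (s := 0.7855) (by norm_num) (by norm_num) (by norm_num) (by norm_num))
    (cube_sqrt_geJ (s := 0.927) (by norm_num) (by norm_num) (by norm_num) (by norm_num))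
    (by norm_num) (by norm_num) (by norm_num) (by norm_num) (by norm_num) (by norm_num) (by norm_num) (by norm_num) (by norm_num) (by norm_num) (by norm_num) (by norm_num) (by norm_num) (by norm_num) (by norm_num) (by norm_num) (by norm_num) (by norm_num)
    (exp_neg_leJ (r := 0.57) 6 (by norm_num) (by norm_num) (by norm_num) (by norm_num))
    (exp_neg_leJ (r := 0.054) 4 (by norm_num) (by norm_num) (by norm_num) (by norm_num))
    (exp_neg_leJ (r := 0.29) 8 (by norm_num) (by norm_num) (by norm_num) (by norm_num))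
    (exp_neg_leJ (r := 0.99) 14 (by norm_num) (by norm_num) (by norm_num) (by norm_num))
    (exp_neg_leJ (r := 0.275) 7 (by norm_num) (by norm_num) (by norm_num) (by norm_num))
    (exp_neg_leJ (r := 0.99) 14 (by norm_num) (by norm_num) (by norm_num) (by norm_num))
    (exp_neg_leJ (r := 0.99) 14 (by norm_num) (by norm_num) (by norm_num) (by norm_num))
    (exp_neg_leJ (r := 0.99) 14 (by norm_num) (by norm_num) (by norm_num) (by norm_num))
    (by norm_num)) (by norm_num) hN hβ.le (by norm_num)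

private theorem JB6_k0f_b4_3 {β x y : ℝ} (hβ : 0 < β) (hN : β * 11.363 ≤ 1) (hx1 : 1.0302 ≤ x) (hx2 : x ≤ 1.2122)
    (hy1 : -0.357 ≤ y) (hy2 : y ≤ -0.335) : ‖HH β (x + y * I) - 1‖ ≤ 0.144 := by
  refine le_epsJ (C := 1.2252) (N0 := 11.363) (J_boxp 1.0302 1.2122 0.357 0 (-0.335) 1.1819 1.2637 1.3827 0.9152 0.4692 3.371 11.363 1.0693 4.677 1.635 0.6243 0.5909 0.3803 0.7974 2.2688 0.6603 1.9264 2.6606 3.3373 0.001215 0.01329 0.0001163 0.0000003101 0.0005521 0.0000003101 0.0000003101 0.0000003101 1.2252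
    hβ hN hx1 hx2 hy1 hy2 (by norm_num) (by norm_num) (by linarith) (by norm_num) (by norm_num) (by norm_num) (by norm_num) (by norm_num) (by norm_num) (by norm_num) (by norm_num) (by norm_num) (by norm_num) (by norm_num) (by norm_num) (by norm_num) (by norm_num) (by norm_num) (by norm_num) (by norm_num) (by norm_num) (by norm_num) (by norm_num) (by norm_num)
    (cube_sqrt_geJ (s := 0.8022) (by norm_num) (by norm_num) (by norm_num) (by norm_num))
    (cube_sqrt_geJ (s := 0.9322) (by norm_num) (by norm_num) (by norm_num) (by norm_num))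
    (by norm_num) (by norm_num) (by norm_num) (by norm_num) (by norm_num) (by norm_num) (by norm_num) (by norm_num) (by norm_num) (by norm_num) (by norm_num) (by norm_num) (by norm_num) (by norm_num) (by norm_num) (by norm_num) (by norm_num) (by norm_num)
    (exp_neg_leJ (r := 0.714) 6 (by norm_num) (by norm_num) (by norm_num) (by norm_num))
    (exp_neg_leJ (r := 0.321) 4 (by norm_num) (by norm_num) (by norm_num) (by norm_num))
    (exp_neg_leJ (r := 0.06) 9 (by norm_num) (by norm_num) (by norm_num) (by norm_num))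
    (exp_neg_leJ (r := 0.99) 14 (by norm_num) (by norm_num) (by norm_num) (by norm_num))
    (exp_neg_leJ (r := 0.502) 7 (by norm_num) (by norm_num) (by norm_num) (by norm_num))
    (exp_neg_leJ (r := 0.99) 14 (by norm_num) (by norm_num) (by norm_num) (by norm_num))
    (exp_neg_leJ (r := 0.99) 14 (by norm_num) (by norm_num) (by norm_num) (by norm_num))
    (exp_neg_leJ (r := 0.99) 14 (by norm_num) (by norm_num) (by norm_num) (by norm_num))
    (by norm_num)) (by norm_num) hN hβ.le (by norm_num)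

private theorem JB6_k0f_c4 {κ t β : ℝ} (h : DomR κ t) (hβ : 0 < β) (hk1 : 0.78 ≤ κ) (hk2 : κ ≤ 0.88)
    (ht1 : -0.72 ≤ t + κ) (ht2 : t + κ ≤ -0.58) (hR0 : β * 10 ≤ κ) (hR : β * (4.95 * (1 + κ ^ 2)) ≤ κ) :
    ‖HH β (sg κ t) - 1‖ ≤ 0.144 := by
  have hN : β * 11.363 ≤ 1 := bNR hβ h.1 hk2 hR0 (by norm_num)
  have hy1 : -0.442 ≤ sy κ t := syL_ge h 0.78 0.88 0.72 0.442 0.64274 0.64275 0.3435 0.32283 0.36423 hk1 hk2 (by linarith) (by norm_num) (by norm_num) (by norm_num)
    (expm_ge (by norm_num) (by norm_num) (by norm_num) (by norm_num)) (expm_le (by norm_num) (by norm_num) (by norm_num)) (by norm_num)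
    (by norm_num) (by norm_num) (by norm_num) (by norm_num) (by norm_num) (by norm_num)
  have hy2 : sy κ t ≤ -0.335 := syL_le h 0.78 0.88 0.58 0.335 0.71533 0.71534 0.27231 0.30723 hk1 hk2 (by linarith) (by norm_num) (by norm_num) (by norm_num)
    (expm_ge (by norm_num) (by norm_num) (by norm_num) (by norm_num)) (expm_le (by norm_num) (by norm_num) (by norm_num)) (by norm_num)
    (by norm_num) (by norm_num) (by norm_num) (by norm_num) (by norm_num) (by norm_num)
  rcases le_total (sy κ t) (-0.427) with f0 | g0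
  · have hx1 : 1.1107 ≤ sx κ t := sx_lo h 0.78 (-0.427) 0.442 1.53265 1.1107 hk1 (by norm_num) f0 (abs_le.2 ⟨by linarith, by linarith⟩) (by rw [neg_neg]; exact expn_ge (by norm_num) (by norm_num)) (by norm_num) (by norm_num)
    have hx2 : sx κ t ≤ 1.3009 := sx_hi h 0.88 (-0.442) 0.427 1.55582 1.3009 hk2 hy1 (by norm_num) (by rw [abs_of_nonpos (by linarith)]; linarith) (by rw [neg_neg]; exact expn_le (by norm_num) (by norm_num) (by norm_num)) (by norm_num) (by norm_num)
    exact JB6_k0f_b4_0 hβ hN hx1 hx2 (by linarith) (by linarith)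
  rcases le_total (sy κ t) (-0.402) with f1 | g1
  · have hx1 : 1.0849 ≤ sx κ t := sx_lo h 0.78 (-0.402) 0.427 1.49481 1.0849 hk1 (by norm_num) f1 (abs_le.2 ⟨by linarith, by linarith⟩) (by rw [neg_neg]; exact expn_ge (by norm_num) (by norm_num)) (by norm_num) (by norm_num)
    have hx2 : sx κ t ≤ 1.2875 := sx_hi h 0.88 (-0.427) 0.402 1.53266 1.2875 hk2 g0 (by norm_num) (by rw [abs_of_nonpos (by linarith)]; linarith) (by rw [neg_neg]; exact expn_le (by norm_num) (by norm_num) (by norm_num)) (by norm_num) (by norm_num)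
    exact JB6_k0f_b4_1 hβ hN hx1 hx2 (by linarith) (by linarith)
  rcases le_total (sy κ t) (-0.357) with f2 | g2
  · have hx1 : 1.0396 ≤ sx κ t := sx_lo h 0.78 (-0.357) 0.402 1.42903 1.0396 hk1 (by norm_num) f2 (abs_le.2 ⟨by linarith, by linarith⟩) (by rw [neg_neg]; exact expn_ge (by norm_num) (by norm_num)) (by norm_num) (by norm_num)
    have hx2 : sx κ t ≤ 1.2661 := sx_hi h 0.88 (-0.402) 0.357 1.49482 1.2661 hk2 g1 (by norm_num) (by rw [abs_of_nonpos (by linarith)]; linarith) (by rw [neg_neg]; exact expn_le (by norm_num) (by norm_num) (by norm_num)) (by norm_num) (by norm_num)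
    exact JB6_k0f_b4_2 hβ hN hx1 hx2 (by linarith) (by linarith)
  have hx1 : 1.0302 ≤ sx κ t := sx_lo h 0.78 (-0.335) 0.357 1.39794 1.0302 hk1 (by norm_num) hy2 (abs_le.2 ⟨by linarith, by linarith⟩) (by rw [neg_neg]; exact expn_ge (by norm_num) (by norm_num)) (by norm_num) (by norm_num)
  have hx2 : sx κ t ≤ 1.2122 := sx_hi h 0.88 (-0.357) 0.335 1.42904 1.2122 hk2 g2 (by norm_num) (by rw [abs_of_nonpos (by linarith)]; linarith) (by rw [neg_neg]; exact expn_le (by norm_num) (by norm_num) (by norm_num)) (by norm_num) (by norm_num)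
  exact JB6_k0f_b4_3 hβ hN hx1 hx2 (by linarith) (by linarith)

private theorem JB6_k0f_b5_0 {β x y : ℝ} (hβ : 0 < β) (hN : β * 10.204 ≤ 1) (hx1 : 1.2651 ≤ x) (hx2 : x ≤ 1.443)
    (hy1 : -0.427 ≤ y) (hy2 : y ≤ -0.417) : ‖HH β (x + y * I) - 1‖ ≤ 0.144 := by
  refine le_epsJ (C := 1.4512) (N0 := 10.204) (J_boxp 1.2651 1.443 0.427 0 (-0.417) 1.2976 1.5049 1.5564 0.8441 0.4978 3.1944 10.204 1.1598 5.533 1.71 0.4709 0.6487 0.3979 0.7673 1.9129 0.7362 2.2516 2.9401 3.1515 0.001336 0.01725 0.0003987 0.0000003101 0.0005466 0.0000003101 0.0000003101 0.0000003101 1.4512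
    hβ hN hx1 hx2 hy1 hy2 (by norm_num) (by norm_num) (by linarith) (by norm_num) (by norm_num) (by norm_num) (by norm_num) (by norm_num) (by norm_num) (by norm_num) (by norm_num) (by norm_num) (by norm_num) (by norm_num) (by norm_num) (by norm_num) (by norm_num) (by norm_num) (by norm_num) (by norm_num) (by norm_num) (by norm_num) (by norm_num) (by norm_num)
    (cube_sqrt_geJ (s := 0.7831) (by norm_num) (by norm_num) (by norm_num) (by norm_num))
    (cube_sqrt_geJ (s := 0.9262) (by norm_num) (by norm_num) (by norm_num) (by norm_num))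
    (by norm_num) (by norm_num) (by norm_num) (by norm_num) (by norm_num) (by norm_num) (by norm_num) (by norm_num) (by norm_num) (by norm_num) (by norm_num) (by norm_num) (by norm_num) (by norm_num) (by norm_num) (by norm_num) (by norm_num) (by norm_num)
    (exp_neg_leJ (r := 0.619) 6 (by norm_num) (by norm_num) (by norm_num) (by norm_num))
    (exp_neg_leJ (r := 0.06) 4 (by norm_num) (by norm_num) (by norm_num) (by norm_num))
    (exp_neg_leJ (r := 0.829) 7 (by norm_num) (by norm_num) (by norm_num) (by norm_num))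
    (exp_neg_leJ (r := 0.99) 14 (by norm_num) (by norm_num) (by norm_num) (by norm_num))
    (exp_neg_leJ (r := 0.512) 7 (by norm_num) (by norm_num) (by norm_num) (by norm_num))
    (exp_neg_leJ (r := 0.99) 14 (by norm_num) (by norm_num) (by norm_num) (by norm_num))
    (exp_neg_leJ (r := 0.99) 14 (by norm_num) (by norm_num) (by norm_num) (by norm_num))
    (exp_neg_leJ (r := 0.99) 14 (by norm_num) (by norm_num) (by norm_num) (by norm_num))
    (by norm_num)) (by norm_num) hN hβ.le (by norm_num)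

private theorem JB6_k0f_b5_1 {β x y : ℝ} (hβ : 0 < β) (hN : β * 10.204 ≤ 1) (hx1 : 1.2475 ≤ x) (hx2 : x ≤ 1.4317)
    (hy1 : -0.417 ≤ y) (hy2 : y ≤ -0.402) : ‖HH β (x + y * I) - 1‖ ≤ 0.144 := by
  refine le_epsJ (C := 1.4374) (N0 := 10.204) (J_boxp 1.2475 1.4317 0.417 0 (-0.402) 1.2923 1.4912 1.5516 0.848 0.497 3.1944 10.204 1.154 5.472 1.705 0.4845 0.6461 0.3975 0.777 1.9515 0.7331 2.2273 2.9321 3.1535 0.001372 0.01732 0.0003615 0.0000003101 0.0005644 0.0000003101 0.0000003101 0.0000003101 1.4374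
    hβ hN hx1 hx2 hy1 hy2 (by norm_num) (by norm_num) (by linarith) (by norm_num) (by norm_num) (by norm_num) (by norm_num) (by norm_num) (by norm_num) (by norm_num) (by norm_num) (by norm_num) (by norm_num) (by norm_num) (by norm_num) (by norm_num) (by norm_num) (by norm_num) (by norm_num) (by norm_num) (by norm_num) (by norm_num) (by norm_num) (by norm_num)
    (cube_sqrt_geJ (s := 0.7844) (by norm_num) (by norm_num) (by norm_num) (by norm_num))
    (cube_sqrt_geJ (s := 0.9266) (by norm_num) (by norm_num) (by norm_num) (by norm_num))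
    (by norm_num) (by norm_num) (by norm_num) (by norm_num) (by norm_num) (by norm_num) (by norm_num) (by norm_num) (by norm_num) (by norm_num) (by norm_num) (by norm_num) (by norm_num) (by norm_num) (by norm_num) (by norm_num) (by norm_num) (by norm_num)
    (exp_neg_leJ (r := 0.592) 6 (by norm_num) (by norm_num) (by norm_num) (by norm_num))
    (exp_neg_leJ (r := 0.056) 4 (by norm_num) (by norm_num) (by norm_num) (by norm_num))
    (exp_neg_leJ (r := 0.928) 7 (by norm_num) (by norm_num) (by norm_num) (by norm_num))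
    (exp_neg_leJ (r := 0.99) 14 (by norm_num) (by norm_num) (by norm_num) (by norm_num))
    (exp_neg_leJ (r := 0.48) 7 (by norm_num) (by norm_num) (by norm_num) (by norm_num))
    (exp_neg_leJ (r := 0.99) 14 (by norm_num) (by norm_num) (by norm_num) (by norm_num))
    (exp_neg_leJ (r := 0.99) 14 (by norm_num) (by norm_num) (by norm_num) (by norm_num))
    (exp_neg_leJ (r := 0.99) 14 (by norm_num) (by norm_num) (by norm_num) (by norm_num))
    (by norm_num)) (by norm_num) hN hβ.le (by norm_num)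

private theorem JB6_k0f_b5_2 {β x y : ℝ} (hβ : 0 < β) (hN : β * 10.204 ≤ 1) (hx1 : 1.2116 ≤ x) (hx2 : x ≤ 1.417)
    (hy1 : -0.402 ≤ y) (hy2 : y ≤ -0.372) : ‖HH β (x + y * I) - 1‖ ≤ 0.144 := by
  refine le_epsJ (C := 1.4633) (N0 := 10.204) (J_boxp 1.2116 1.417 0.402 0 (-0.372) 1.2777 1.473 1.55 0.8621 0.4967 3.1944 10.204 1.1529 5.461 1.704 0.504 0.6388 0.3933 0.7884 2.008 0.7239 2.1775 2.9011 3.1312 0.001477 0.01808 0.0003211 0.0000003101 0.00062 0.0000003101 0.0000003101 0.0000003101 1.4633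
    hβ hN hx1 hx2 hy1 hy2 (by norm_num) (by norm_num) (by linarith) (by norm_num) (by norm_num) (by norm_num) (by norm_num) (by norm_num) (by norm_num) (by norm_num) (by norm_num) (by norm_num) (by norm_num) (by norm_num) (by norm_num) (by norm_num) (by norm_num) (by norm_num) (by norm_num) (by norm_num) (by norm_num) (by norm_num) (by norm_num) (by norm_num)
    (cube_sqrt_geJ (s := 0.7846) (by norm_num) (by norm_num) (by norm_num) (by norm_num))
    (cube_sqrt_geJ (s := 0.9267) (by norm_num) (by norm_num) (by norm_num) (by norm_num))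
    (by norm_num) (by norm_num) (by norm_num) (by norm_num) (by norm_num) (by norm_num) (by norm_num) (by norm_num) (by norm_num) (by norm_num) (by norm_num) (by norm_num) (by norm_num) (by norm_num) (by norm_num) (by norm_num) (by norm_num) (by norm_num)
    (exp_neg_leJ (r := 0.518) 6 (by norm_num) (by norm_num) (by norm_num) (by norm_num))
    (exp_neg_leJ (r := 0.013) 4 (by norm_num) (by norm_num) (by norm_num) (by norm_num))
    (exp_neg_leJ (r := 0.044) 8 (by norm_num) (by norm_num) (by norm_num) (by norm_num))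
    (exp_neg_leJ (r := 0.99) 14 (by norm_num) (by norm_num) (by norm_num) (by norm_num))
    (exp_neg_leJ (r := 0.386) 7 (by norm_num) (by norm_num) (by norm_num) (by norm_num))
    (exp_neg_leJ (r := 0.99) 14 (by norm_num) (by norm_num) (by norm_num) (by norm_num))
    (exp_neg_leJ (r := 0.99) 14 (by norm_num) (by norm_num) (by norm_num) (by norm_num))
    (exp_neg_leJ (r := 0.99) 14 (by norm_num) (by norm_num) (by norm_num) (by norm_num))
    (by norm_num)) (by norm_num) hN hβ.le (by norm_num)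

private theorem JB6_k0f_b5_3 {β x y : ℝ} (hβ : 0 < β) (hN : β * 10.204 ≤ 1) (hx1 : 1.1597 ≤ x) (hx2 : x ≤ 1.384)
    (hy1 : -0.372 ≤ y) (hy2 : y ≤ -0.325) : ‖HH β (x + y * I) - 1‖ ≤ 0.144 := by
  refine le_epsJ (C := 1.4232) (N0 := 10.204) (J_boxp 1.1597 1.384 0.372 0 (-0.325) 1.2625 1.4332 1.5399 0.8748 0.4951 3.1944 10.204 1.1353 5.283 1.689 0.5444 0.6312 0.3923 0.818 2.1231 0.715 2.1057 2.8788 3.1356 0.001597 0.01827 0.0002374 0.0000003101 0.000679 0.0000003101 0.0000003101 0.0000003101 1.4232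
    hβ hN hx1 hx2 hy1 hy2 (by norm_num) (by norm_num) (by linarith) (by norm_num) (by norm_num) (by norm_num) (by norm_num) (by norm_num) (by norm_num) (by norm_num) (by norm_num) (by norm_num) (by norm_num) (by norm_num) (by norm_num) (by norm_num) (by norm_num) (by norm_num) (by norm_num) (by norm_num) (by norm_num) (by norm_num) (by norm_num) (by norm_num)
    (cube_sqrt_geJ (s := 0.7883) (by norm_num) (by norm_num) (by norm_num) (by norm_num))
    (cube_sqrt_geJ (s := 0.9278) (by norm_num) (by norm_num) (by norm_num) (by norm_num))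
    (by norm_num) (by norm_num) (by norm_num) (by norm_num) (by norm_num) (by norm_num) (by norm_num) (by norm_num) (by norm_num) (by norm_num) (by norm_num) (by norm_num) (by norm_num) (by norm_num) (by norm_num) (by norm_num) (by norm_num) (by norm_num)
    (exp_neg_leJ (r := 0.44) 6 (by norm_num) (by norm_num) (by norm_num) (by norm_num))
    (exp_neg_leJ (r := 0.003) 4 (by norm_num) (by norm_num) (by norm_num) (by norm_num))
    (exp_neg_leJ (r := 0.346) 8 (by norm_num) (by norm_num) (by norm_num) (by norm_num))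
    (exp_neg_leJ (r := 0.99) 14 (by norm_num) (by norm_num) (by norm_num) (by norm_num))
    (exp_neg_leJ (r := 0.295) 7 (by norm_num) (by norm_num) (by norm_num) (by norm_num))
    (exp_neg_leJ (r := 0.99) 14 (by norm_num) (by norm_num) (by norm_num) (by norm_num))
    (exp_neg_leJ (r := 0.99) 14 (by norm_num) (by norm_num) (by norm_num) (by norm_num))
    (exp_neg_leJ (r := 0.99) 14 (by norm_num) (by norm_num) (by norm_num) (by norm_num))
    (by norm_num)) (by norm_num) hN hβ.le (by norm_num)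

private theorem JB6_k0f_c5 {κ t β : ℝ} (h : DomR κ t) (hβ : 0 < β) (hk1 : 0.88 ≤ κ) (hk2 : κ ≤ 0.98)
    (ht1 : -0.72 ≤ t + κ) (ht2 : t + κ ≤ -0.58) (hR0 : β * 10 ≤ κ) (hR : β * (4.95 * (1 + κ ^ 2)) ≤ κ) :
    ‖HH β (sg κ t) - 1‖ ≤ 0.144 := by
  have hN : β * 10.204 ≤ 1 := bNR hβ h.1 hk2 hR0 (by norm_num)
  have hy1 : -0.427 ≤ sy κ t := syL_ge h 0.88 0.98 0.72 0.427 0.65246 0.65247 0.3085 0.28428 0.3166 hk1 hk2 (by linarith) (by norm_num) (by norm_num) (by norm_num)
    (expm_ge (by norm_num) (by norm_num) (by norm_num) (by norm_num)) (expm_le (by norm_num) (by norm_num) (by norm_num)) (by norm_num)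
    (by norm_num) (by norm_num) (by norm_num) (by norm_num) (by norm_num) (by norm_num)
  have hy2 : sy κ t ≤ -0.325 := syL_le h 0.88 0.98 0.58 0.325 0.72252 0.72253 0.23961 0.26685 hk1 hk2 (by linarith) (by norm_num) (by norm_num) (by norm_num)
    (expm_ge (by norm_num) (by norm_num) (by norm_num) (by norm_num)) (expm_le (by norm_num) (by norm_num) (by norm_num)) (by norm_num)
    (by norm_num) (by norm_num) (by norm_num) (by norm_num) (by norm_num) (by norm_num)
  rcases le_total (sy κ t) (-0.417) with f0 | g0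
  · have hx1 : 1.2651 ≤ sx κ t := sx_lo h 0.88 (-0.417) 0.427 1.5174 1.2651 hk1 (by norm_num) f0 (abs_le.2 ⟨by linarith, by linarith⟩) (by rw [neg_neg]; exact expn_ge (by norm_num) (by norm_num)) (by norm_num) (by norm_num)
    have hx2 : sx κ t ≤ 1.443 := sx_hi h 0.98 (-0.427) 0.417 1.53266 1.443 hk2 hy1 (by norm_num) (by rw [abs_of_nonpos (by linarith)]; linarith) (by rw [neg_neg]; exact expn_le (by norm_num) (by norm_num) (by norm_num)) (by norm_num) (by norm_num)
    exact JB6_k0f_b5_0 hβ hN hx1 hx2 (by linarith) (by linarith)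
  rcases le_total (sy κ t) (-0.402) with f1 | g1
  · have hx1 : 1.2475 ≤ sx κ t := sx_lo h 0.88 (-0.402) 0.417 1.49481 1.2475 hk1 (by norm_num) f1 (abs_le.2 ⟨by linarith, by linarith⟩) (by rw [neg_neg]; exact expn_ge (by norm_num) (by norm_num)) (by norm_num) (by norm_num)
    have hx2 : sx κ t ≤ 1.4317 := sx_hi h 0.98 (-0.417) 0.402 1.51741 1.4317 hk2 g0 (by norm_num) (by rw [abs_of_nonpos (by linarith)]; linarith) (by rw [neg_neg]; exact expn_le (by norm_num) (by norm_num) (by norm_num)) (by norm_num) (by norm_num)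
    exact JB6_k0f_b5_1 hβ hN hx1 hx2 (by linarith) (by linarith)
  rcases le_total (sy κ t) (-0.372) with f2 | g2
  · have hx1 : 1.2116 ≤ sx κ t := sx_lo h 0.88 (-0.372) 0.402 1.45063 1.2116 hk1 (by norm_num) f2 (abs_le.2 ⟨by linarith, by linarith⟩) (by rw [neg_neg]; exact expn_ge (by norm_num) (by norm_num)) (by norm_num) (by norm_num)
    have hx2 : sx κ t ≤ 1.417 := sx_hi h 0.98 (-0.402) 0.372 1.49482 1.417 hk2 g1 (by norm_num) (by rw [abs_of_nonpos (by linarith)]; linarith) (by rw [neg_neg]; exact expn_le (by norm_num) (by norm_num) (by norm_num)) (by norm_num) (by norm_num)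
    exact JB6_k0f_b5_2 hβ hN hx1 hx2 (by linarith) (by linarith)
  have hx1 : 1.1597 ≤ sx κ t := sx_lo h 0.88 (-0.325) 0.372 1.38403 1.1597 hk1 (by norm_num) hy2 (abs_le.2 ⟨by linarith, by linarith⟩) (by rw [neg_neg]; exact expn_ge (by norm_num) (by norm_num)) (by norm_num) (by norm_num)
  have hx2 : sx κ t ≤ 1.384 := sx_hi h 0.98 (-0.372) 0.325 1.45064 1.384 hk2 g2 (by norm_num) (by rw [abs_of_nonpos (by linarith)]; linarith) (by rw [neg_neg]; exact expn_le (by norm_num) (by norm_num) (by norm_num)) (by norm_num) (by norm_num)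
  exact JB6_k0f_b5_3 hβ hN hx1 hx2 (by linarith) (by linarith)

private theorem JB6_k0f_b6_0 {β x y : ℝ} (hβ : 0 < β) (hN : β * 9.999 ≤ 1) (hx1 : 1.2897 ≤ x) (hx2 : x ≤ 1.4734)
    (hy1 : -0.411 ≤ y) (hy2 : y ≤ -0.323) : ‖HH β (x + y * I) - 1‖ ≤ 0.144 := by
  refine le_epsJ (C := 1.4075) (N0 := 9.999) (J_boxp 1.2897 1.4734 0.411 0 (-0.323) 1.3263 1.5297 1.6215 0.8337 0.5081 3.1622 9.999 1.1534 5.466 1.704 0.474 0.6631 0.4081 0.801 1.947 0.7569 2.2857 3.0328 3.1333 0.001321 0.01691 0.0003325 0.0000003101 0.0005169 0.0000003101 0.0000003101 0.0000003101 1.4075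
    hβ hN hx1 hx2 hy1 hy2 (by norm_num) (by norm_num) (by linarith) (by norm_num) (by norm_num) (by norm_num) (by norm_num) (by norm_num) (by norm_num) (by norm_num) (by norm_num) (by norm_num) (by norm_num) (by norm_num) (by norm_num) (by norm_num) (by norm_num) (by norm_num) (by norm_num) (by norm_num) (by norm_num) (by norm_num) (by norm_num) (by norm_num)
    (cube_sqrt_geJ (s := 0.7845) (by norm_num) (by norm_num) (by norm_num) (by norm_num))
    (cube_sqrt_geJ (s := 0.9267) (by norm_num) (by norm_num) (by norm_num) (by norm_num))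
    (by norm_num) (by norm_num) (by norm_num) (by norm_num) (by norm_num) (by norm_num) (by norm_num) (by norm_num) (by norm_num) (by norm_num) (by norm_num) (by norm_num) (by norm_num) (by norm_num) (by norm_num) (by norm_num) (by norm_num) (by norm_num)
    (exp_neg_leJ (r := 0.63) 6 (by norm_num) (by norm_num) (by norm_num) (by norm_num))
    (exp_neg_leJ (r := 0.08) 4 (by norm_num) (by norm_num) (by norm_num) (by norm_num))
    (exp_neg_leJ (r := 0.009) 8 (by norm_num) (by norm_num) (by norm_num) (by norm_num))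
    (exp_neg_leJ (r := 0.99) 14 (by norm_num) (by norm_num) (by norm_num) (by norm_num))
    (exp_neg_leJ (r := 0.568) 7 (by norm_num) (by norm_num) (by norm_num) (by norm_num))
    (exp_neg_leJ (r := 0.99) 14 (by norm_num) (by norm_num) (by norm_num) (by norm_num))
    (exp_neg_leJ (r := 0.99) 14 (by norm_num) (by norm_num) (by norm_num) (by norm_num))
    (exp_neg_leJ (r := 0.99) 14 (by norm_num) (by norm_num) (by norm_num) (by norm_num))
    (by norm_num)) (by norm_num) hN hβ.le (by norm_num)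

private theorem JB6_k0f_c6 {κ t β : ℝ} (h : DomR κ t) (hβ : 0 < β) (hk1 : 0.98 ≤ κ) (hk2 : κ ≤ 1)
    (ht1 : -0.72 ≤ t + κ) (ht2 : t + κ ≤ -0.58) (hR0 : β * 10 ≤ κ) (hR : β * (4.95 * (1 + κ ^ 2)) ≤ κ) :
    ‖HH β (sg κ t) - 1‖ ≤ 0.144 := by
  have hN : β * 9.999 ≤ 1 := bNR hβ h.1 hk2 hR0 (by norm_num)
  have hy1 : -0.411 ≤ sy κ t := syL_ge h 0.98 1 0.72 0.411 0.66298 0.66299 0.271 0.27248 0.27805 hk1 hk2 (by linarith) (by norm_num) (by norm_num) (by norm_num)
    (expm_ge (by norm_num) (by norm_num) (by norm_num) (by norm_num)) (expm_le (by norm_num) (by norm_num) (by norm_num)) (by norm_num)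
    (by norm_num) (by norm_num) (by norm_num) (by norm_num) (by norm_num) (by norm_num)
  have hy2 : sy κ t ≤ -0.323 := syL_le h 0.98 1 0.58 0.323 0.72397 0.72398 0.23384 0.23862 hk1 hk2 (by linarith) (by norm_num) (by norm_num) (by norm_num)
    (expm_ge (by norm_num) (by norm_num) (by norm_num) (by norm_num)) (expm_le (by norm_num) (by norm_num) (by norm_num)) (by norm_num)
    (by norm_num) (by norm_num) (by norm_num) (by norm_num) (by norm_num) (by norm_num)
  have hx1 : 1.2897 ≤ sx κ t := sx_lo h 0.98 (-0.323) 0.411 1.38126 1.2897 hk1 (by norm_num) hy2 (abs_le.2 ⟨by linarith, by linarith⟩) (by rw [neg_neg]; exact expn_ge (by norm_num) (by norm_num)) (by norm_num) (by norm_num)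
  have hx2 : sx κ t ≤ 1.4734 := sx_hi h 1 (-0.411) 0.323 1.50833 1.4734 hk2 hy1 (by norm_num) (by rw [abs_of_nonpos (by linarith)]; linarith) (by rw [neg_neg]; exact expn_le (by norm_num) (by norm_num) (by norm_num)) (by norm_num) (by norm_num)
  exact JB6_k0f_b6_0 hβ hN hx1 hx2 (by linarith) (by linarith)

private theorem JB6_k0f_b7_0 {β x y : ℝ} (hβ : 0 < β) (hN : β * 9.899 ≤ 1) (hx1 : 1.4318 ≤ x) (hx2 : x ≤ 1.6521)
    (hy1 : -0.408 ≤ y) (hy2 : y ≤ -0.398) : ‖HH β (x + y * I) - 1‖ ≤ 0.144 := by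
  refine le_epsJ (C := 1.4195) (N0 := 9.899) (J_boxp 1.4318 1.6521 0.408 0 (-0.398) 1.4285 1.7018 1.7584 0.7767 0.5291 3.1463 9.899 1.1914 5.879 1.737 0.408 0.7142 0.4305 0.8543 1.8549 0.8275 2.4824 3.3252 2.9496 0.0008511 0.01411 0.0002127 0.0000003101 0.0002772 0.0000003101 0.0000003101 0.0000003101 1.4195
    hβ hN hx1 hx2 hy1 hy2 (by norm_num) (by norm_num) (by linarith) (by norm_num) (by norm_num) (by norm_num) (by norm_num) (by norm_num) (by norm_num) (by norm_num) (by norm_num) (by norm_num) (by norm_num) (by norm_num) (by norm_num) (by norm_num) (by norm_num) (by norm_num) (by norm_num) (by norm_num) (by norm_num) (by norm_num) (by norm_num) (by norm_num)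
    (cube_sqrt_geJ (s := 0.7764) (by norm_num) (by norm_num) (by norm_num) (by norm_num))
    (cube_sqrt_geJ (s := 0.9241) (by norm_num) (by norm_num) (by norm_num) (by norm_num))
    (by norm_num) (by norm_num) (by norm_num) (by norm_num) (by norm_num) (by norm_num) (by norm_num) (by norm_num) (by norm_num) (by norm_num) (by norm_num) (by norm_num) (by norm_num) (by norm_num) (by norm_num) (by norm_num) (by norm_num) (by norm_num)
    (exp_neg_leJ (r := 0.069) 7 (by norm_num) (by norm_num) (by norm_num) (by norm_num))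
    (exp_neg_leJ (r := 0.261) 4 (by norm_num) (by norm_num) (by norm_num) (by norm_num))
    (exp_neg_leJ (r := 0.456) 8 (by norm_num) (by norm_num) (by norm_num) (by norm_num))
    (exp_neg_leJ (r := 0.99) 14 (by norm_num) (by norm_num) (by norm_num) (by norm_num))
    (exp_neg_leJ (r := 0.191) 8 (by norm_num) (by norm_num) (by norm_num) (by norm_num))
    (exp_neg_leJ (r := 0.99) 14 (by norm_num) (by norm_num) (by norm_num) (by norm_num))
    (exp_neg_leJ (r := 0.99) 14 (by norm_num) (by norm_num) (by norm_num) (by norm_num))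
    (exp_neg_leJ (r := 0.99) 14 (by norm_num) (by norm_num) (by norm_num) (by norm_num))
    (by norm_num)) (by norm_num) hN hβ.le (by norm_num)

private theorem JB6_k0f_b7_1 {β x y : ℝ} (hβ : 0 < β) (hN : β * 9.899 ≤ 1) (hx1 : 1.4116 ≤ x) (hx2 : x ≤ 1.6383)
    (hy1 : -0.398 ≤ y) (hy2 : y ≤ -0.383) : ‖HH β (x + y * I) - 1‖ ≤ 0.144 := by
  refine le_epsJ (C := 1.4093) (N0 := 9.899) (J_boxp 1.4116 1.6383 0.398 0 (-0.383) 1.4214 1.686 1.7507 0.7808 0.5279 3.1463 9.899 1.1862 5.82 1.733 0.4226 0.7106 0.4296 0.8632 1.8948 0.8232 2.4545 3.312 2.9522 0.0008815 0.01424 0.0001948 0.0000003101 0.0002894 0.0000003101 0.0000003101 0.0000003101 1.4093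
    hβ hN hx1 hx2 hy1 hy2 (by norm_num) (by norm_num) (by linarith) (by norm_num) (by norm_num) (by norm_num) (by norm_num) (by norm_num) (by norm_num) (by norm_num) (by norm_num) (by norm_num) (by norm_num) (by norm_num) (by norm_num) (by norm_num) (by norm_num) (by norm_num) (by norm_num) (by norm_num) (by norm_num) (by norm_num) (by norm_num) (by norm_num)
    (cube_sqrt_geJ (s := 0.7775) (by norm_num) (by norm_num) (by norm_num) (by norm_num))
    (cube_sqrt_geJ (s := 0.9245) (by norm_num) (by norm_num) (by norm_num) (by norm_num))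
    (by norm_num) (by norm_num) (by norm_num) (by norm_num) (by norm_num) (by norm_num) (by norm_num) (by norm_num) (by norm_num) (by norm_num) (by norm_num) (by norm_num) (by norm_num) (by norm_num) (by norm_num) (by norm_num) (by norm_num) (by norm_num)
    (exp_neg_leJ (r := 0.034) 7 (by norm_num) (by norm_num) (by norm_num) (by norm_num))
    (exp_neg_leJ (r := 0.252) 4 (by norm_num) (by norm_num) (by norm_num) (by norm_num))
    (exp_neg_leJ (r := 0.544) 8 (by norm_num) (by norm_num) (by norm_num) (by norm_num))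
    (exp_neg_leJ (r := 0.99) 14 (by norm_num) (by norm_num) (by norm_num) (by norm_num))
    (exp_neg_leJ (r := 0.148) 8 (by norm_num) (by norm_num) (by norm_num) (by norm_num))
    (exp_neg_leJ (r := 0.99) 14 (by norm_num) (by norm_num) (by norm_num) (by norm_num))
    (exp_neg_leJ (r := 0.99) 14 (by norm_num) (by norm_num) (by norm_num) (by norm_num))
    (exp_neg_leJ (r := 0.99) 14 (by norm_num) (by norm_num) (by norm_num) (by norm_num))
    (by norm_num)) (by norm_num) hN hβ.le (by norm_num)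

private theorem JB6_k0f_b7_2 {β x y : ℝ} (hβ : 0 < β) (hN : β * 9.899 ≤ 1) (hx1 : 1.3782 ≤ x) (hx2 : x ≤ 1.6183)
    (hy1 : -0.383 ≤ y) (hy2 : y ≤ -0.358) : ‖HH β (x + y * I) - 1‖ ≤ 0.144 := by
  refine le_epsJ (C := 1.4083) (N0 := 9.899) (J_boxp 1.3782 1.6183 0.383 0 (-0.358) 1.4085 1.6631 1.741 0.7894 0.5264 3.1463 9.899 1.1808 5.76 1.728 0.4441 0.7042 0.427 0.8755 1.9543 0.8152 2.4082 3.2859 2.9476 0.0009427 0.01462 0.0001725 0.0000003101 0.0003131 0.0000003101 0.0000003101 0.0000003101 1.4083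
    hβ hN hx1 hx2 hy1 hy2 (by norm_num) (by norm_num) (by linarith) (by norm_num) (by norm_num) (by norm_num) (by norm_num) (by norm_num) (by norm_num) (by norm_num) (by norm_num) (by norm_num) (by norm_num) (by norm_num) (by norm_num) (by norm_num) (by norm_num) (by norm_num) (by norm_num) (by norm_num) (by norm_num) (by norm_num) (by norm_num) (by norm_num)
    (cube_sqrt_geJ (s := 0.7787) (by norm_num) (by norm_num) (by norm_num) (by norm_num))
    (cube_sqrt_geJ (s := 0.9248) (by norm_num) (by norm_num) (by norm_num) (by norm_num))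
    (by norm_num) (by norm_num) (by norm_num) (by norm_num) (by norm_num) (by norm_num) (by norm_num) (by norm_num) (by norm_num) (by norm_num) (by norm_num) (by norm_num) (by norm_num) (by norm_num) (by norm_num) (by norm_num) (by norm_num) (by norm_num)
    (exp_neg_leJ (r := 0.97) 6 (by norm_num) (by norm_num) (by norm_num) (by norm_num))
    (exp_neg_leJ (r := 0.226) 4 (by norm_num) (by norm_num) (by norm_num) (by norm_num))
    (exp_neg_leJ (r := 0.666) 8 (by norm_num) (by norm_num) (by norm_num) (by norm_num))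
    (exp_neg_leJ (r := 0.99) 14 (by norm_num) (by norm_num) (by norm_num) (by norm_num))
    (exp_neg_leJ (r := 0.069) 8 (by norm_num) (by norm_num) (by norm_num) (by norm_num))
    (exp_neg_leJ (r := 0.99) 14 (by norm_num) (by norm_num) (by norm_num) (by norm_num))
    (exp_neg_leJ (r := 0.99) 14 (by norm_num) (by norm_num) (by norm_num) (by norm_num))
    (exp_neg_leJ (r := 0.99) 14 (by norm_num) (by norm_num) (by norm_num) (by norm_num))
    (by norm_num)) (by norm_num) hN hβ.le (by norm_num)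

private theorem JB6_k0f_b7_3 {β x y : ℝ} (hβ : 0 < β) (hN : β * 9.899 ≤ 1) (hx1 : 1.3198 ≤ x) (hx2 : x ≤ 1.5859)
    (hy1 : -0.358 ≤ y) (hy2 : y ≤ -0.313) : ‖HH β (x + y * I) - 1‖ ≤ 0.144 := by
  refine le_epsJ (C := 1.4203) (N0 := 9.899) (J_boxp 1.3198 1.5859 0.358 0 (-0.313) 1.3851 1.6259 1.7284 0.8065 0.5245 3.1463 9.899 1.1739 5.684 1.722 0.4796 0.6925 0.4215 0.8949 2.0527 0.8005 2.3274 3.2371 2.932 0.001057 0.01543 0.0001426 0.0000003101 0.000363 0.0000003101 0.0000003101 0.0000003101 1.4203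
    hβ hN hx1 hx2 hy1 hy2 (by norm_num) (by norm_num) (by linarith) (by norm_num) (by norm_num) (by norm_num) (by norm_num) (by norm_num) (by norm_num) (by norm_num) (by norm_num) (by norm_num) (by norm_num) (by norm_num) (by norm_num) (by norm_num) (by norm_num) (by norm_num) (by norm_num) (by norm_num) (by norm_num) (by norm_num) (by norm_num) (by norm_num)
    (cube_sqrt_geJ (s := 0.7801) (by norm_num) (by norm_num) (by norm_num) (by norm_num))
    (cube_sqrt_geJ (s := 0.9253) (by norm_num) (by norm_num) (by norm_num) (by norm_num))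
    (by norm_num) (by norm_num) (by norm_num) (by norm_num) (by norm_num) (by norm_num) (by norm_num) (by norm_num) (by norm_num) (by norm_num) (by norm_num) (by norm_num) (by norm_num) (by norm_num) (by norm_num) (by norm_num) (by norm_num) (by norm_num)
    (exp_neg_leJ (r := 0.855) 6 (by norm_num) (by norm_num) (by norm_num) (by norm_num))
    (exp_neg_leJ (r := 0.172) 4 (by norm_num) (by norm_num) (by norm_num) (by norm_num))
    (exp_neg_leJ (r := 0.858) 8 (by norm_num) (by norm_num) (by norm_num) (by norm_num))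
    (exp_neg_leJ (r := 0.99) 14 (by norm_num) (by norm_num) (by norm_num) (by norm_num))
    (exp_neg_leJ (r := 0.924) 7 (by norm_num) (by norm_num) (by norm_num) (by norm_num))
    (exp_neg_leJ (r := 0.99) 14 (by norm_num) (by norm_num) (by norm_num) (by norm_num))
    (exp_neg_leJ (r := 0.99) 14 (by norm_num) (by norm_num) (by norm_num) (by norm_num))
    (exp_neg_leJ (r := 0.99) 14 (by norm_num) (by norm_num) (by norm_num) (by norm_num))
    (by norm_num)) (by norm_num) hN hβ.le (by norm_num)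

private theorem JB6_k0f_b7_4 {β x y : ℝ} (hβ : 0 < β) (hN : β * 9.899 ≤ 1) (hx1 : 1.3256 ≤ x) (hx2 : x ≤ 1.5141)
    (hy1 : -0.313 ≤ y) (hy2 : y ≤ -0.309) : ‖HH β (x + y * I) - 1‖ ≤ 0.144 := by
  refine le_epsJ (C := 1.0506) (N0 := 9.899) (J_boxp 1.3256 1.5141 0.313 0 (-0.309) 1.4212 1.5462 1.6644 0.7615 0.5147 3.1463 9.899 1.088 4.839 1.65 0.5488 0.7105 0.4528 0.9679 2.2376 0.8279 2.3354 3.371 3.1602 0.0008823 0.01132 0.00006906 0.0000003101 0.0002761 0.0000003101 0.0000003101 0.0000003101 1.0506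
    hβ hN hx1 hx2 hy1 hy2 (by norm_num) (by norm_num) (by linarith) (by norm_num) (by norm_num) (by norm_num) (by norm_num) (by norm_num) (by norm_num) (by norm_num) (by norm_num) (by norm_num) (by norm_num) (by norm_num) (by norm_num) (by norm_num) (by norm_num) (by norm_num) (by norm_num) (by norm_num) (by norm_num) (by norm_num) (by norm_num) (by norm_num)
    (cube_sqrt_geJ (s := 0.7983) (by norm_num) (by norm_num) (by norm_num) (by norm_num))
    (cube_sqrt_geJ (s := 0.931) (by norm_num) (by norm_num) (by norm_num) (by norm_num))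
    (by norm_num) (by norm_num) (by norm_num) (by norm_num) (by norm_num) (by norm_num) (by norm_num) (by norm_num) (by norm_num) (by norm_num) (by norm_num) (by norm_num) (by norm_num) (by norm_num) (by norm_num) (by norm_num) (by norm_num) (by norm_num)
    (exp_neg_leJ (r := 0.033) 7 (by norm_num) (by norm_num) (by norm_num) (by norm_num))
    (exp_neg_leJ (r := 0.482) 4 (by norm_num) (by norm_num) (by norm_num) (by norm_num))
    (exp_neg_leJ (r := 0.581) 9 (by norm_num) (by norm_num) (by norm_num) (by norm_num))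
    (exp_neg_leJ (r := 0.99) 14 (by norm_num) (by norm_num) (by norm_num) (by norm_num))
    (exp_neg_leJ (r := 0.195) 8 (by norm_num) (by norm_num) (by norm_num) (by norm_num))
    (exp_neg_leJ (r := 0.99) 14 (by norm_num) (by norm_num) (by norm_num) (by norm_num))
    (exp_neg_leJ (r := 0.99) 14 (by norm_num) (by norm_num) (by norm_num) (by norm_num))
    (exp_neg_leJ (r := 0.99) 14 (by norm_num) (by norm_num) (by norm_num) (by norm_num))
    (by norm_num)) (by norm_num) hN hβ.le (by norm_num)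

private theorem JB6_k0f_c7 {κ t β : ℝ} (h : DomR κ t) (hβ : 0 < β) (hk1 : 1 ≤ κ) (hk2 : κ ≤ 1.13)
    (ht1 : -0.72 ≤ t + κ) (ht2 : t + κ ≤ -0.58) (hR0 : β * 10 ≤ κ) (hR : β * (4.95 * (1 + κ ^ 2)) ≤ κ) :
    ‖HH β (sg κ t) - 1‖ ≤ 0.144 := by
  have hN : β * 9.899 ≤ 1 := bNC' hβ hk1 (by norm_num) (by norm_num) hR (by norm_num)
  have hy1 : -0.408 ≤ sy κ t := syL_ge h 1 1.13 0.72 0.408 0.66497 0.66498 0.2504 0.24009 0.27132 hk1 hk2 (by linarith) (by norm_num) (by norm_num) (by norm_num)
    (expm_ge (by norm_num) (by norm_num) (by norm_num) (by norm_num)) (expm_le (by norm_num) (by norm_num) (by norm_num)) (by norm_num)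
    (by norm_num) (by norm_num) (by norm_num) (by norm_num) (by norm_num) (by norm_num)
  have hy2 : sy κ t ≤ -0.309 := syL_le h 1 1.13 0.58 0.309 0.73418 0.73419 0.20076 0.22687 hk1 hk2 (by linarith) (by norm_num) (by norm_num) (by norm_num)
    (expm_ge (by norm_num) (by norm_num) (by norm_num) (by norm_num)) (expm_le (by norm_num) (by norm_num) (by norm_num)) (by norm_num)
    (by norm_num) (by norm_num) (by norm_num) (by norm_num) (by norm_num) (by norm_num)
  rcases le_total (sy κ t) (-0.398) with f0 | g0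
  · have hx1 : 1.4318 ≤ sx κ t := sx_lo h 1 (-0.398) 0.408 1.48884 1.4318 hk1 (by norm_num) f0 (abs_le.2 ⟨by linarith, by linarith⟩) (by rw [neg_neg]; exact expn_ge (by norm_num) (by norm_num)) (by norm_num) (by norm_num)
    have hx2 : sx κ t ≤ 1.6521 := sx_hi h 1.13 (-0.408) 0.398 1.50381 1.6521 hk2 hy1 (by norm_num) (by rw [abs_of_nonpos (by linarith)]; linarith) (by rw [neg_neg]; exact expn_le (by norm_num) (by norm_num) (by norm_num)) (by norm_num) (by norm_num)
    exact JB6_k0f_b7_0 hβ hN hx1 hx2 (by linarith) (by linarith)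
  rcases le_total (sy κ t) (-0.383) with f1 | g1
  · have hx1 : 1.4116 ≤ sx κ t := sx_lo h 1 (-0.383) 0.398 1.46667 1.4116 hk1 (by norm_num) f1 (abs_le.2 ⟨by linarith, by linarith⟩) (by rw [neg_neg]; exact expn_ge (by norm_num) (by norm_num)) (by norm_num) (by norm_num)
    have hx2 : sx κ t ≤ 1.6383 := sx_hi h 1.13 (-0.398) 0.383 1.48885 1.6383 hk2 g0 (by norm_num) (by rw [abs_of_nonpos (by linarith)]; linarith) (by rw [neg_neg]; exact expn_le (by norm_num) (by norm_num) (by norm_num)) (by norm_num) (by norm_num)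
    exact JB6_k0f_b7_1 hβ hN hx1 hx2 (by linarith) (by linarith)
  rcases le_total (sy κ t) (-0.358) with f2 | g2
  · have hx1 : 1.3782 ≤ sx κ t := sx_lo h 1 (-0.358) 0.383 1.43046 1.3782 hk1 (by norm_num) f2 (abs_le.2 ⟨by linarith, by linarith⟩) (by rw [neg_neg]; exact expn_ge (by norm_num) (by norm_num)) (by norm_num) (by norm_num)
    have hx2 : sx κ t ≤ 1.6183 := sx_hi h 1.13 (-0.383) 0.358 1.46668 1.6183 hk2 g1 (by norm_num) (by rw [abs_of_nonpos (by linarith)]; linarith) (by rw [neg_neg]; exact expn_le (by norm_num) (by norm_num) (by norm_num)) (by norm_num) (by norm_num)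
    exact JB6_k0f_b7_2 hβ hN hx1 hx2 (by linarith) (by linarith)
  rcases le_total (sy κ t) (-0.313) with f3 | g3
  · have hx1 : 1.3198 ≤ sx κ t := sx_lo h 1 (-0.313) 0.358 1.36752 1.3198 hk1 (by norm_num) f3 (abs_le.2 ⟨by linarith, by linarith⟩) (by rw [neg_neg]; exact expn_ge (by norm_num) (by norm_num)) (by norm_num) (by norm_num)
    have hx2 : sx κ t ≤ 1.5859 := sx_hi h 1.13 (-0.358) 0.313 1.43047 1.5859 hk2 g2 (by norm_num) (by rw [abs_of_nonpos (by linarith)]; linarith) (by rw [neg_neg]; exact expn_le (by norm_num) (by norm_num) (by norm_num)) (by norm_num) (by norm_num)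
    exact JB6_k0f_b7_3 hβ hN hx1 hx2 (by linarith) (by linarith)
  have hx1 : 1.3256 ≤ sx κ t := sx_lo h 1 (-0.309) 0.313 1.36206 1.3256 hk1 (by norm_num) hy2 (abs_le.2 ⟨by linarith, by linarith⟩) (by rw [neg_neg]; exact expn_ge (by norm_num) (by norm_num)) (by norm_num) (by norm_num)
  have hx2 : sx κ t ≤ 1.5141 := sx_hi h 1.13 (-0.313) 0.309 1.36753 1.5141 hk2 g3 (by norm_num) (by rw [abs_of_nonpos (by linarith)]; linarith) (by rw [neg_neg]; exact expn_le (by norm_num) (by norm_num) (by norm_num)) (by norm_num) (by norm_num)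
  exact JB6_k0f_b7_4 hβ hN hx1 hx2 (by linarith) (by linarith)

private theorem JB6_k0f_b8_0 {β x y : ℝ} (hβ : 0 < β) (hN : β * 9.974 ≤ 1) (hx1 : 1.6083 ≤ x) (hx2 : x ≤ 1.8891)
    (hy1 : -0.386 ≤ y) (hy2 : y ≤ -0.381) : ‖HH β (x + y * I) - 1‖ ≤ 0.144 := by
  refine le_epsJ (C := 1.4114) (N0 := 9.974) (J_boxp 1.6083 1.8891 0.386 0 (-0.381) 1.5684 1.9282 1.988 0.7179 0.5625 3.1582 9.974 1.2295 6.333 1.771 0.3372 0.7841 0.4628 0.9495 1.7898 0.9253 2.7268 3.738 2.6872 0.0004023 0.009907 0.00007715 0.0000003101 0.00009826 0.0000003101 0.0000003101 0.0000003101 1.4114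
    hβ hN hx1 hx2 hy1 hy2 (by norm_num) (by norm_num) (by linarith) (by norm_num) (by norm_num) (by norm_num) (by norm_num) (by norm_num) (by norm_num) (by norm_num) (by norm_num) (by norm_num) (by norm_num) (by norm_num) (by norm_num) (by norm_num) (by norm_num) (by norm_num) (by norm_num) (by norm_num) (by norm_num) (by norm_num) (by norm_num) (by norm_num)
    (cube_sqrt_geJ (s := 0.7682) (by norm_num) (by norm_num) (by norm_num) (by norm_num))
    (cube_sqrt_geJ (s := 0.9216) (by norm_num) (by norm_num) (by norm_num) (by norm_num))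
    (by norm_num) (by norm_num) (by norm_num) (by norm_num) (by norm_num) (by norm_num) (by norm_num) (by norm_num) (by norm_num) (by norm_num) (by norm_num) (by norm_num) (by norm_num) (by norm_num) (by norm_num) (by norm_num) (by norm_num) (by norm_num)
    (exp_neg_leJ (r := 0.82) 7 (by norm_num) (by norm_num) (by norm_num) (by norm_num))
    (exp_neg_leJ (r := 0.615) 4 (by norm_num) (by norm_num) (by norm_num) (by norm_num))
    (exp_neg_leJ (r := 0.47) 9 (by norm_num) (by norm_num) (by norm_num) (by norm_num))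
    (exp_neg_leJ (r := 0.99) 14 (by norm_num) (by norm_num) (by norm_num) (by norm_num))
    (exp_neg_leJ (r := 0.228) 9 (by norm_num) (by norm_num) (by norm_num) (by norm_num))
    (exp_neg_leJ (r := 0.99) 14 (by norm_num) (by norm_num) (by norm_num) (by norm_num))
    (exp_neg_leJ (r := 0.99) 14 (by norm_num) (by norm_num) (by norm_num) (by norm_num))
    (exp_neg_leJ (r := 0.99) 14 (by norm_num) (by norm_num) (by norm_num) (by norm_num))
    (by norm_num)) (by norm_num) hN hβ.le (by norm_num)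

private theorem JB6_k0f_b8_1 {β x y : ℝ} (hβ : 0 < β) (hN : β * 9.974 ≤ 1) (hx1 : 1.5926 ≤ x) (hx2 : x ≤ 1.8813)
    (hy1 : -0.381 ≤ y) (hy2 : y ≤ -0.371) : ‖HH β (x + y * I) - 1‖ ≤ 0.144 := by
  refine le_epsJ (C := 1.4231) (N0 := 9.974) (J_boxp 1.5926 1.8813 0.381 0 (-0.371) 1.5609 1.9195 1.9837 0.7223 0.5619 3.1582 9.974 1.2298 6.337 1.771 0.3448 0.7804 0.4605 0.952 1.8103 0.9204 2.7051 3.7202 2.6795 0.0004174 0.01013 0.00007525 0.0000003101 0.0001031 0.0000003101 0.0000003101 0.0000003101 1.4231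
    hβ hN hx1 hx2 hy1 hy2 (by norm_num) (by norm_num) (by linarith) (by norm_num) (by norm_num) (by norm_num) (by norm_num) (by norm_num) (by norm_num) (by norm_num) (by norm_num) (by norm_num) (by norm_num) (by norm_num) (by norm_num) (by norm_num) (by norm_num) (by norm_num) (by norm_num) (by norm_num) (by norm_num) (by norm_num) (by norm_num) (by norm_num)
    (cube_sqrt_geJ (s := 0.7681) (by norm_num) (by norm_num) (by norm_num) (by norm_num))
    (cube_sqrt_geJ (s := 0.9216) (by norm_num) (by norm_num) (by norm_num) (by norm_num))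
    (by norm_num) (by norm_num) (by norm_num) (by norm_num) (by norm_num) (by norm_num) (by norm_num) (by norm_num) (by norm_num) (by norm_num) (by norm_num) (by norm_num) (by norm_num) (by norm_num) (by norm_num) (by norm_num) (by norm_num) (by norm_num)
    (exp_neg_leJ (r := 0.783) 7 (by norm_num) (by norm_num) (by norm_num) (by norm_num))
    (exp_neg_leJ (r := 0.593) 4 (by norm_num) (by norm_num) (by norm_num) (by norm_num))
    (exp_neg_leJ (r := 0.495) 9 (by norm_num) (by norm_num) (by norm_num) (by norm_num))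
    (exp_neg_leJ (r := 0.99) 14 (by norm_num) (by norm_num) (by norm_num) (by norm_num))
    (exp_neg_leJ (r := 0.18) 9 (by norm_num) (by norm_num) (by norm_num) (by norm_num))
    (exp_neg_leJ (r := 0.99) 14 (by norm_num) (by norm_num) (by norm_num) (by norm_num))
    (exp_neg_leJ (r := 0.99) 14 (by norm_num) (by norm_num) (by norm_num) (by norm_num))
    (exp_neg_leJ (r := 0.99) 14 (by norm_num) (by norm_num) (by norm_num) (by norm_num))
    (by norm_num)) (by norm_num) hN hβ.le (by norm_num)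

private theorem JB6_k0f_b8_2 {β x y : ℝ} (hβ : 0 < β) (hN : β * 9.974 ≤ 1) (hx1 : 1.5699 ≤ x) (hx2 : x ≤ 1.8648)
    (hy1 : -0.371 ≤ y) (hy2 : y ≤ -0.356) : ‖HH β (x + y * I) - 1‖ ≤ 0.144 := by
  refine le_epsJ (C := 1.4156) (N0 := 9.974) (J_boxp 1.5699 1.8648 0.371 0 (-0.356) 1.552 1.9014 1.9729 0.7265 0.5604 3.1582 9.974 1.2252 6.28 1.767 0.3604 0.7759 0.459 0.96 1.8516 0.9148 2.6737 3.702 2.6833 0.0004364 0.01028 0.00006947 0.0000003101 0.0001091 0.0000003101 0.0000003101 0.0000003101 1.4156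
    hβ hN hx1 hx2 hy1 hy2 (by norm_num) (by norm_num) (by linarith) (by norm_num) (by norm_num) (by norm_num) (by norm_num) (by norm_num) (by norm_num) (by norm_num) (by norm_num) (by norm_num) (by norm_num) (by norm_num) (by norm_num) (by norm_num) (by norm_num) (by norm_num) (by norm_num) (by norm_num) (by norm_num) (by norm_num) (by norm_num) (by norm_num)
    (cube_sqrt_geJ (s := 0.7691) (by norm_num) (by norm_num) (by norm_num) (by norm_num))
    (cube_sqrt_geJ (s := 0.9219) (by norm_num) (by norm_num) (by norm_num) (by norm_num))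
    (by norm_num) (by norm_num) (by norm_num) (by norm_num) (by norm_num) (by norm_num) (by norm_num) (by norm_num) (by norm_num) (by norm_num) (by norm_num) (by norm_num) (by norm_num) (by norm_num) (by norm_num) (by norm_num) (by norm_num) (by norm_num)
    (exp_neg_leJ (r := 0.738) 7 (by norm_num) (by norm_num) (by norm_num) (by norm_num))
    (exp_neg_leJ (r := 0.578) 4 (by norm_num) (by norm_num) (by norm_num) (by norm_num))
    (exp_neg_leJ (r := 0.575) 9 (by norm_num) (by norm_num) (by norm_num) (by norm_num))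
    (exp_neg_leJ (r := 0.99) 14 (by norm_num) (by norm_num) (by norm_num) (by norm_num))
    (exp_neg_leJ (r := 0.124) 9 (by norm_num) (by norm_num) (by norm_num) (by norm_num))
    (exp_neg_leJ (r := 0.99) 14 (by norm_num) (by norm_num) (by norm_num) (by norm_num))
    (exp_neg_leJ (r := 0.99) 14 (by norm_num) (by norm_num) (by norm_num) (by norm_num))
    (exp_neg_leJ (r := 0.99) 14 (by norm_num) (by norm_num) (by norm_num) (by norm_num))
    (by norm_num)) (by norm_num) hN hβ.le (by norm_num)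

private theorem JB6_k0f_b8_3 {β x y : ℝ} (hβ : 0 < β) (hN : β * 9.974 ≤ 1) (hx1 : 1.5325 ≤ x) (hx2 : x ≤ 1.8407)
    (hy1 : -0.356 ≤ y) (hy2 : y ≤ -0.331) : ‖HH β (x + y * I) - 1‖ ≤ 0.144 := by
  refine le_epsJ (C := 1.4174) (N0 := 9.974) (J_boxp 1.5325 1.8407 0.356 0 (-0.331) 1.5363 1.8749 1.9586 0.735 0.5584 3.1582 9.974 1.2204 6.221 1.763 0.3835 0.7681 0.4556 0.9709 1.9133 0.9049 2.6219 3.6679 2.6805 0.0004712 0.01064 0.00006238 0.0000003101 0.0001204 0.0000003101 0.0000003101 0.0000003101 1.4174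
    hβ hN hx1 hx2 hy1 hy2 (by norm_num) (by norm_num) (by linarith) (by norm_num) (by norm_num) (by norm_num) (by norm_num) (by norm_num) (by norm_num) (by norm_num) (by norm_num) (by norm_num) (by norm_num) (by norm_num) (by norm_num) (by norm_num) (by norm_num) (by norm_num) (by norm_num) (by norm_num) (by norm_num) (by norm_num) (by norm_num) (by norm_num)
    (cube_sqrt_geJ (s := 0.7701) (by norm_num) (by norm_num) (by norm_num) (by norm_num))
    (cube_sqrt_geJ (s := 0.9222) (by norm_num) (by norm_num) (by norm_num) (by norm_num))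
    (by norm_num) (by norm_num) (by norm_num) (by norm_num) (by norm_num) (by norm_num) (by norm_num) (by norm_num) (by norm_num) (by norm_num) (by norm_num) (by norm_num) (by norm_num) (by norm_num) (by norm_num) (by norm_num) (by norm_num) (by norm_num)
    (exp_neg_leJ (r := 0.661) 7 (by norm_num) (by norm_num) (by norm_num) (by norm_num))
    (exp_neg_leJ (r := 0.544) 4 (by norm_num) (by norm_num) (by norm_num) (by norm_num))
    (exp_neg_leJ (r := 0.683) 9 (by norm_num) (by norm_num) (by norm_num) (by norm_num))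
    (exp_neg_leJ (r := 0.99) 14 (by norm_num) (by norm_num) (by norm_num) (by norm_num))
    (exp_neg_leJ (r := 0.025) 9 (by norm_num) (by norm_num) (by norm_num) (by norm_num))
    (exp_neg_leJ (r := 0.99) 14 (by norm_num) (by norm_num) (by norm_num) (by norm_num))
    (exp_neg_leJ (r := 0.99) 14 (by norm_num) (by norm_num) (by norm_num) (by norm_num))
    (exp_neg_leJ (r := 0.99) 14 (by norm_num) (by norm_num) (by norm_num) (by norm_num))
    (by norm_num)) (by norm_num) hN hβ.le (by norm_num)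

private theorem JB6_k0f_b8_4 {β x y : ℝ} (hβ : 0 < β) (hN : β * 9.974 ≤ 1) (hx1 : 1.4703 ≤ x) (hx2 : x ≤ 1.8012)
    (hy1 : -0.331 ≤ y) (hy2 : y ≤ -0.288) : ‖HH β (x + y * I) - 1‖ ≤ 0.144 := by
  refine le_epsJ (C := 1.4229) (N0 := 9.974) (J_boxp 1.4703 1.8012 0.331 0 (-0.288) 1.5103 1.8314 1.9369 0.7499 0.5553 3.1582 9.974 1.2127 6.128 1.756 0.4218 0.7551 0.4498 0.9891 2.0157 0.8883 2.5357 3.6115 2.6744 0.0005364 0.01127 0.00005207 0.0000003101 0.0001424 0.0000003101 0.0000003101 0.0000003101 1.4229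
    hβ hN hx1 hx2 hy1 hy2 (by norm_num) (by norm_num) (by linarith) (by norm_num) (by norm_num) (by norm_num) (by norm_num) (by norm_num) (by norm_num) (by norm_num) (by norm_num) (by norm_num) (by norm_num) (by norm_num) (by norm_num) (by norm_num) (by norm_num) (by norm_num) (by norm_num) (by norm_num) (by norm_num) (by norm_num) (by norm_num) (by norm_num)
    (cube_sqrt_geJ (s := 0.7718) (by norm_num) (by norm_num) (by norm_num) (by norm_num))
    (cube_sqrt_geJ (s := 0.9227) (by norm_num) (by norm_num) (by norm_num) (by norm_num))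
    (by norm_num) (by norm_num) (by norm_num) (by norm_num) (by norm_num) (by norm_num) (by norm_num) (by norm_num) (by norm_num) (by norm_num) (by norm_num) (by norm_num) (by norm_num) (by norm_num) (by norm_num) (by norm_num) (by norm_num) (by norm_num)
    (exp_neg_leJ (r := 0.531) 7 (by norm_num) (by norm_num) (by norm_num) (by norm_num))
    (exp_neg_leJ (r := 0.486) 4 (by norm_num) (by norm_num) (by norm_num) (by norm_num))
    (exp_neg_leJ (r := 0.865) 9 (by norm_num) (by norm_num) (by norm_num) (by norm_num))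
    (exp_neg_leJ (r := 0.99) 14 (by norm_num) (by norm_num) (by norm_num) (by norm_num))
    (exp_neg_leJ (r := 0.859) 8 (by norm_num) (by norm_num) (by norm_num) (by norm_num))
    (exp_neg_leJ (r := 0.99) 14 (by norm_num) (by norm_num) (by norm_num) (by norm_num))
    (exp_neg_leJ (r := 0.99) 14 (by norm_num) (by norm_num) (by norm_num) (by norm_num))
    (exp_neg_leJ (r := 0.99) 14 (by norm_num) (by norm_num) (by norm_num) (by norm_num))
    (by norm_num)) (by norm_num) hN hβ.le (by norm_num)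

private theorem JB6_k0f_c8 {κ t β : ℝ} (h : DomR κ t) (hβ : 0 < β) (hk1 : 1.13 ≤ κ) (hk2 : κ ≤ 1.31)
    (ht1 : -0.72 ≤ t + κ) (ht2 : t + κ ≤ -0.58) (hR0 : β * 10 ≤ κ) (hR : β * (4.95 * (1 + κ ^ 2)) ≤ κ) :
    ‖HH β (sg κ t) - 1‖ ≤ 0.144 := by
  have hN : β * 9.974 ≤ 1 := bNC' hβ hk1 (by norm_num) (by norm_num) hR (by norm_num)
  have hy1 : -0.386 ≤ sy κ t := syL_ge h 1.13 1.31 0.72 0.386 0.67977 0.67978 0.2189 0.20029 0.23221 hk1 hk2 (by linarith) (by norm_num) (by norm_num) (by norm_num)
    (expm_ge (by norm_num) (by norm_num) (by norm_num) (by norm_num)) (expm_le (by norm_num) (by norm_num) (by norm_num)) (by norm_num)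
    (by norm_num) (by norm_num) (by norm_num) (by norm_num) (by norm_num) (by norm_num)
  have hy2 : sy κ t ≤ -0.288 := syL_le h 1.13 1.31 0.58 0.288 0.74976 0.74977 0.16483 0.1911 hk1 hk2 (by linarith) (by norm_num) (by norm_num) (by norm_num)
    (expm_ge (by norm_num) (by norm_num) (by norm_num) (by norm_num)) (expm_le (by norm_num) (by norm_num) (by norm_num)) (by norm_num)
    (by norm_num) (by norm_num) (by norm_num) (by norm_num) (by norm_num) (by norm_num)
  rcases le_total (sy κ t) (-0.381) with f0 | g0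
  · have hx1 : 1.6083 ≤ sx κ t := sx_lo h 1.13 (-0.381) 0.386 1.46374 1.6083 hk1 (by norm_num) f0 (abs_le.2 ⟨by linarith, by linarith⟩) (by rw [neg_neg]; exact expn_ge (by norm_num) (by norm_num)) (by norm_num) (by norm_num)
    have hx2 : sx κ t ≤ 1.8891 := sx_hi h 1.31 (-0.386) 0.381 1.47109 1.8891 hk2 hy1 (by norm_num) (by rw [abs_of_nonpos (by linarith)]; linarith) (by rw [neg_neg]; exact expn_le (by norm_num) (by norm_num) (by norm_num)) (by norm_num) (by norm_num)
    exact JB6_k0f_b8_0 hβ hN hx1 hx2 (by linarith) (by linarith)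
  rcases le_total (sy κ t) (-0.371) with f1 | g1
  · have hx1 : 1.5926 ≤ sx κ t := sx_lo h 1.13 (-0.371) 0.381 1.44918 1.5926 hk1 (by norm_num) f1 (abs_le.2 ⟨by linarith, by linarith⟩) (by rw [neg_neg]; exact expn_ge (by norm_num) (by norm_num)) (by norm_num) (by norm_num)
    have hx2 : sx κ t ≤ 1.8813 := sx_hi h 1.31 (-0.381) 0.371 1.46375 1.8813 hk2 g0 (by norm_num) (by rw [abs_of_nonpos (by linarith)]; linarith) (by rw [neg_neg]; exact expn_le (by norm_num) (by norm_num) (by norm_num)) (by norm_num) (by norm_num)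
    exact JB6_k0f_b8_1 hβ hN hx1 hx2 (by linarith) (by linarith)
  rcases le_total (sy κ t) (-0.356) with f2 | g2
  · have hx1 : 1.5699 ≤ sx κ t := sx_lo h 1.13 (-0.356) 0.371 1.4276 1.5699 hk1 (by norm_num) f2 (abs_le.2 ⟨by linarith, by linarith⟩) (by rw [neg_neg]; exact expn_ge (by norm_num) (by norm_num)) (by norm_num) (by norm_num)
    have hx2 : sx κ t ≤ 1.8648 := sx_hi h 1.31 (-0.371) 0.356 1.44919 1.8648 hk2 g1 (by norm_num) (by rw [abs_of_nonpos (by linarith)]; linarith) (by rw [neg_neg]; exact expn_le (by norm_num) (by norm_num) (by norm_num)) (by norm_num) (by norm_num)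
    exact JB6_k0f_b8_2 hβ hN hx1 hx2 (by linarith) (by linarith)
  rcases le_total (sy κ t) (-0.331) with f3 | g3
  · have hx1 : 1.5325 ≤ sx κ t := sx_lo h 1.13 (-0.331) 0.356 1.39235 1.5325 hk1 (by norm_num) f3 (abs_le.2 ⟨by linarith, by linarith⟩) (by rw [neg_neg]; exact expn_ge (by norm_num) (by norm_num)) (by norm_num) (by norm_num)
    have hx2 : sx κ t ≤ 1.8407 := sx_hi h 1.31 (-0.356) 0.331 1.42761 1.8407 hk2 g2 (by norm_num) (by rw [abs_of_nonpos (by linarith)]; linarith) (by rw [neg_neg]; exact expn_le (by norm_num) (by norm_num) (by norm_num)) (by norm_num) (by norm_num)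
    exact JB6_k0f_b8_3 hβ hN hx1 hx2 (by linarith) (by linarith)
  have hx1 : 1.4703 ≤ sx κ t := sx_lo h 1.13 (-0.288) 0.331 1.33375 1.4703 hk1 (by norm_num) hy2 (abs_le.2 ⟨by linarith, by linarith⟩) (by rw [neg_neg]; exact expn_ge (by norm_num) (by norm_num)) (by norm_num) (by norm_num)
  have hx2 : sx κ t ≤ 1.8012 := sx_hi h 1.31 (-0.331) 0.288 1.39236 1.8012 hk2 g3 (by norm_num) (by rw [abs_of_nonpos (by linarith)]; linarith) (by rw [neg_neg]; exact expn_le (by norm_num) (by norm_num) (by norm_num)) (by norm_num) (by norm_num)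
  exact JB6_k0f_b8_4 hβ hN hx1 hx2 (by linarith) (by linarith)

private theorem JB6_k0f_b9_0 {β x y : ℝ} (hβ : 0 < β) (hN : β * 10.263 ≤ 1) (hx1 : 1.6941 ≤ x) (hx2 : x ≤ 1.9687)
    (hy1 : -0.358 ≤ y) (hy2 : y ≤ -0.279) : ‖HH β (x + y * I) - 1‖ ≤ 0.144 := by
  refine le_epsJ (C := 1.2594) (N0 := 10.263) (J_boxp 1.6941 1.9687 0.358 0 (-0.279) 1.6487 2.001 2.0966 0.684 0.5777 3.2036 10.263 1.2137 6.14 1.757 0.3324 0.8243 0.4908 1.023 1.8335 0.9823 2.8456 3.9857 2.6609 0.0002121 0.006494 0.00002757 0.0000003101 0.00004187 0.0000003101 0.0000003101 0.0000003101 1.2594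
    hβ hN hx1 hx2 hy1 hy2 (by norm_num) (by norm_num) (by linarith) (by norm_num) (by norm_num) (by norm_num) (by norm_num) (by norm_num) (by norm_num) (by norm_num) (by norm_num) (by norm_num) (by norm_num) (by norm_num) (by norm_num) (by norm_num) (by norm_num) (by norm_num) (by norm_num) (by norm_num) (by norm_num) (by norm_num) (by norm_num) (by norm_num)
    (cube_sqrt_geJ (s := 0.7716) (by norm_num) (by norm_num) (by norm_num) (by norm_num))
    (cube_sqrt_geJ (s := 0.9227) (by norm_num) (by norm_num) (by norm_num) (by norm_num))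
    (by norm_num) (by norm_num) (by norm_num) (by norm_num) (by norm_num) (by norm_num) (by norm_num) (by norm_num) (by norm_num) (by norm_num) (by norm_num) (by norm_num) (by norm_num) (by norm_num) (by norm_num) (by norm_num) (by norm_num) (by norm_num)
    (exp_neg_leJ (r := 0.459) 8 (by norm_num) (by norm_num) (by norm_num) (by norm_num))
    (exp_neg_leJ (r := 0.037) 5 (by norm_num) (by norm_num) (by norm_num) (by norm_num))
    (exp_neg_leJ (r := 0.499) 10 (by norm_num) (by norm_num) (by norm_num) (by norm_num))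
    (exp_neg_leJ (r := 0.99) 14 (by norm_num) (by norm_num) (by norm_num) (by norm_num))
    (exp_neg_leJ (r := 0.081) 10 (by norm_num) (by norm_num) (by norm_num) (by norm_num))
    (exp_neg_leJ (r := 0.99) 14 (by norm_num) (by norm_num) (by norm_num) (by norm_num))
    (exp_neg_leJ (r := 0.99) 14 (by norm_num) (by norm_num) (by norm_num) (by norm_num))
    (exp_neg_leJ (r := 0.99) 14 (by norm_num) (by norm_num) (by norm_num) (by norm_num))
    (by norm_num)) (by norm_num) hN hβ.le (by norm_num)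

private theorem JB6_k0f_c9 {κ t β : ℝ} (h : DomR κ t) (hβ : 0 < β) (hk1 : 1.31 ≤ κ) (hk2 : κ ≤ 1.39)
    (ht1 : -0.72 ≤ t + κ) (ht2 : t + κ ≤ -0.58) (hR0 : β * 10 ≤ κ) (hR : β * (4.95 * (1 + κ ^ 2)) ≤ κ) :
    ‖HH β (sg κ t) - 1‖ ≤ 0.144 := by
  have hN : β * 10.263 ≤ 1 := bNC' hβ hk1 (by norm_num) (by norm_num) hR (by norm_num)
  have hy1 : -0.358 ≤ sy κ t := syL_ge h 1.31 1.39 0.72 0.358 0.69907 0.69908 0.1772 0.18004 0.19105 hk1 hk2 (by linarith) (by norm_num) (by norm_num) (by norm_num)
    (expm_ge (by norm_num) (by norm_num) (by norm_num) (by norm_num)) (expm_le (by norm_num) (by norm_num) (by norm_num)) (by norm_num)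
    (by norm_num) (by norm_num) (by norm_num) (by norm_num) (by norm_num) (by norm_num)
  have hy2 : sy κ t ≤ -0.279 := syL_le h 1.31 1.39 0.58 0.279 0.75653 0.75654 0.15185 0.16113 hk1 hk2 (by linarith) (by norm_num) (by norm_num) (by norm_num)
    (expm_ge (by norm_num) (by norm_num) (by norm_num) (by norm_num)) (expm_le (by norm_num) (by norm_num) (by norm_num)) (by norm_num)
    (by norm_num) (by norm_num) (by norm_num) (by norm_num) (by norm_num) (by norm_num)
  have hx1 : 1.6941 ≤ sx κ t := sx_lo h 1.31 (-0.279) 0.358 1.3218 1.6941 hk1 (by norm_num) hy2 (abs_le.2 ⟨by linarith, by linarith⟩) (by rw [neg_neg]; exact expn_ge (by norm_num) (by norm_num)) (by norm_num) (by norm_num)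
  have hx2 : sx κ t ≤ 1.9687 := sx_hi h 1.39 (-0.358) 0.279 1.43047 1.9687 hk2 hy1 (by norm_num) (by rw [abs_of_nonpos (by linarith)]; linarith) (by rw [neg_neg]; exact expn_le (by norm_num) (by norm_num) (by norm_num)) (by norm_num) (by norm_num)
  exact JB6_k0f_b9_0 hβ hN hx1 hx2 (by linarith) (by linarith)

theorem JB6_k0f {κ t β : ℝ} (h : DomR κ t) (hβ : 0 < β) (hk1 : 0.3 ≤ κ) (hk2 : κ ≤ 1.39)
    (ht1 : -0.72 ≤ t + κ) (ht2 : t + κ ≤ -0.58) (hR0 : β * 10 ≤ κ) (hR : β * (4.95 * (1 + κ ^ 2)) ≤ κ) :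
    ‖HH β (sg κ t) - 1‖ ≤ 0.144 := by
  rcases le_total κ 0.43 with f0 | g0
  · exact JB6_k0f_c0 h hβ hk1 f0 ht1 ht2 hR0 hR
  rcases le_total κ 0.55 with f1 | g1
  · exact JB6_k0f_c1 h hβ g0 f1 ht1 ht2 hR0 hR
  rcases le_total κ 0.67 with f2 | g2
  · exact JB6_k0f_c2 h hβ g1 f2 ht1 ht2 hR0 hR
  rcases le_total κ 0.78 with f3 | g3
  · exact JB6_k0f_c3 h hβ g2 f3 ht1 ht2 hR0 hR
  rcases le_total κ 0.88 with f4 | g4
  · exact JB6_k0f_c4 h hβ g3 f4 ht1 ht2 hR0 hR
  rcases le_total κ 0.98 with f5 | g5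
  · exact JB6_k0f_c5 h hβ g4 f5 ht1 ht2 hR0 hR
  rcases le_total κ 1 with f6 | g6
  · exact JB6_k0f_c6 h hβ g5 f6 ht1 ht2 hR0 hR
  rcases le_total κ 1.13 with f7 | g7
  · exact JB6_k0f_c7 h hβ g6 f7 ht1 ht2 hR0 hR
  rcases le_total κ 1.31 with f8 | g8
  · exact JB6_k0f_c8 h hβ g7 f8 ht1 ht2 hR0 hR
  exact JB6_k0f_c9 h hβ g8 hk2 ht1 ht2 hR0 hR

end Sok
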