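import Pool.Agent.Lib.MP_816dec_an.R1B6C
import Pool.Agent.Lib.MP_816dec_an.JB6a1
import Pool.Agent.Lib.MP_816dec_an.JB6a2
import Pool.Agent.Lib.MP_816dec_an.JB6b1
import Pool.Agent.Lib.MP_816dec_an.JB6b2
import Pool.Agent.Lib.MP_816dec_an.JB6b3
import Pool.Agent.Lib.MP_816dec_an.JB6e1
import Pool.Agent.Lib.MP_816dec_an.JB6e2

/-!
MP_816dec_an (A3, row R1-b6): box [0.3, 0.45] of kappa (generated).
-/

set_option autoImplicit false

open Complex Set Filter Topology Metric

namespace Sok.B6K0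

variable {β r t κ s h T : ℝ}

theorem k3 (B : BX6 0.3 0.45 0.37423 0.27522 10 0.045 9.1195 β r κ T) : κ ^ 2 ≤ 3 := by
  have h1 := B.hk1
  have h2 := B.hk2
  norm_num at h1 h2
  nlinarith

theorem fq (B : BX6 0.3 0.45 0.37423 0.27522 10 0.045 9.1195 β r κ T) : κ * (1 / 2 - κ ^ 2 / 6) ≤ 0.1745 * (1 + κ ^ 2) := by
  have hA : 0 ≤ κ - 0.3 := by have := B.hk1; linarith
  have hB : 0 ≤ 0.45 - κ := by have := B.hk2; linarith
  linarith [mul_nonneg (pow_nonneg hA 0) (pow_nonneg hB 3), mul_nonneg (pow_nonneg hA 1) (pow_nonneg hB 2), mul_nonneg (pow_nonneg hA 2) (pow_nonneg hB 1), mul_nonneg (pow_nonneg hA 3) (pow_nonneg hB 0)]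

theorem fg (B : BX6 0.3 0.45 0.37423 0.27522 10 0.045 9.1195 β r κ T) : 0.0524 * (1 + κ ^ 2) ^ 2 + 9 / 2 * 0.1745 ^ 2 * 0.6075 ≤ κ * (1 / 2 - κ ^ 2 / 6) := by
  have hA : 0 ≤ κ - 0.3 := by have := B.hk1; linarith
  have hB : 0 ≤ 0.45 - κ := by have := B.hk2; linarith
  linarith [mul_nonneg (pow_nonneg hA 0) (pow_nonneg hB 4), mul_nonneg (pow_nonneg hA 1) (pow_nonneg hB 3), mul_nonneg (pow_nonneg hA 2) (pow_nonneg hB 2), mul_nonneg (pow_nonneg hA 3) (pow_nonneg hB 1), mul_nonneg (pow_nonneg hA 4) (pow_nonneg hB 0)]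

theorem fa1 (B : BX6 0.3 0.45 0.37423 0.27522 10 0.045 9.1195 β r κ T) : κ * (1 / 2 - κ ^ 2 / 6) ≤ 0.1452 * (1 + κ ^ 2) ^ 2 := by
  have hA : 0 ≤ κ - 0.3 := by have := B.hk1; linarith
  have hB : 0 ≤ 0.45 - κ := by have := B.hk2; linarith
  linarith [mul_nonneg (pow_nonneg hA 0) (pow_nonneg hB 4), mul_nonneg (pow_nonneg hA 1) (pow_nonneg hB 3), mul_nonneg (pow_nonneg hA 2) (pow_nonneg hB 2), mul_nonneg (pow_nonneg hA 3) (pow_nonneg hB 1), mul_nonneg (pow_nonneg hA 4) (pow_nonneg hB 0)]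

theorem fa2 (B : BX6 0.3 0.45 0.37423 0.27522 10 0.045 9.1195 β r κ T) : κ ^ 4 ≤ 0.0237 * (1 + κ ^ 2) ^ 3 := by
  have hA : 0 ≤ κ - 0.3 := by have := B.hk1; linarith
  have hB : 0 ≤ 0.45 - κ := by have := B.hk2; linarith
  linarith [mul_nonneg (pow_nonneg hA 0) (pow_nonneg hB 6), mul_nonneg (pow_nonneg hA 1) (pow_nonneg hB 5), mul_nonneg (pow_nonneg hA 2) (pow_nonneg hB 4), mul_nonneg (pow_nonneg hA 3) (pow_nonneg hB 3), mul_nonneg (pow_nonneg hA 4) (pow_nonneg hB 2), mul_nonneg (pow_nonneg hA 5) (pow_nonneg hB 1), mul_nonneg (pow_nonneg hA 6) (pow_nonneg hB 0)]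

theorem fa3 (B : BX6 0.3 0.45 0.37423 0.27522 10 0.045 9.1195 β r κ T) : 1 ≤ 0.7723 * (1 + κ ^ 2) ^ 3 := by
  have hA : 0 ≤ κ - 0.3 := by have := B.hk1; linarith
  have hB : 0 ≤ 0.45 - κ := by have := B.hk2; linarith
  linarith [mul_nonneg (pow_nonneg hA 0) (pow_nonneg hB 6), mul_nonneg (pow_nonneg hA 1) (pow_nonneg hB 5), mul_nonneg (pow_nonneg hA 2) (pow_nonneg hB 4), mul_nonneg (pow_nonneg hA 3) (pow_nonneg hB 3), mul_nonneg (pow_nonneg hA 4) (pow_nonneg hB 2), mul_nonneg (pow_nonneg hA 5) (pow_nonneg hB 1), mul_nonneg (pow_nonneg hA 6) (pow_nonneg hB 0)]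

theorem fa4 (H : D6 β r t κ s h T) (B : BX6 0.3 0.45 0.37423 0.27522 10 0.045 9.1195 β r κ T) : κ ≤ 0.37423 * (1 + κ ^ 2) := by
  have h1 := B.hψ
  rwa [div_le_iff₀ H.A0] at h1

theorem mkB (H : D6 β r t κ s h T) (h1 : 0.3 ≤ κ) (h2 : κ ≤ 0.45) : BX6 0.3 0.45 0.37423 0.27522 10 0.045 9.1195 β r κ T := by
  have hA : 0 ≤ κ - 0.3 := by linarith
  have hB : 0 ≤ 0.45 - κ := by linarith
  have hψ : κ / (1 + κ ^ 2) ≤ 0.37423 := by
    rw [div_le_iff₀ H.A0]
    linarith [mul_nonneg (pow_nonneg hA 0) (pow_nonneg hB 2), mul_nonneg (pow_nonneg hA 1) (pow_nonneg hB 1), mul_nonneg (pow_nonneg hA 2) (pow_nonneg hB 0)]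
  have hψ1 : 0.27522 ≤ κ / (1 + κ ^ 2) := by
    rw [le_div_iff₀ H.A0]
    linarith [mul_nonneg (pow_nonneg hA 0) (pow_nonneg hB 2), mul_nonneg (pow_nonneg hA 1) (pow_nonneg hB 1), mul_nonneg (pow_nonneg hA 2) (pow_nonneg hB 0)]
  exact ⟨h1, h2, hψ, hψ1, H.hr, H.b0a h2 (by norm_num), H.T0a h2 (by norm_num) (by norm_num)⟩

theorem x1loG (H : D6 β r t κ s h T) (B : BX6 0.3 0.45 0.37423 0.27522 10 0.045 9.1195 β r κ T) (h1 : 0 ≤ s) (h2 : s ≤ 0.45) :
    eN r κ * (0.8706 * Real.exp (-(T * (0.5 * s ^ 2)))) ≤ ‖Xf β r h t 1‖ := by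
  have hr := rgR (a := 0) (τ1 := 0) (τm := 0.4713) H.h1 H.h2 h1 h2 (by norm_num) (by norm_num) (by norm_num)
  rw [add_zero, ← H.hs] at hr
  obtain ⟨ha, hb⟩ := hr
  have hD := H.dom' (t' := t) (by linarith) (by linarith)
  have hk1 := B.hk1
  have hk2 := B.hk2
  have hk0 := H.k0
  have hy1 : 0 ≤ sy κ t := sy_nonneg hD (by linarith)
  have hy2 : sy κ t ≤ 0.146 := syR_le hD 0.3 0.45 0.4713 0.146 1.15719 0.3597 0.37544 0.56318 hk1 hk2 (by linarith) (by norm_num) (by norm_num)
    (expn_ge (by norm_num) (by norm_num)) (by norm_num) (by norm_num) (Or.inr ((mul_le_mul_of_nonneg_left (expn_le (E := 1.1572) (by norm_num) (by norm_num) (by norm_num)) (by norm_num)).trans (by norm_num))) (by norm_num) (by norm_num) (by norm_num)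
  exact H.x1lo hD (ε := 0.08) (c := 0.5) (d := 1.247) (l := 0.8706) (by norm_num) (by
      rcases le_total (t + κ) 0.05 with g | g
      · exact JB6_k0a hD H.hβ H.hk1 H.hk2 (by linarith) (by linarith) H.ble H.bc'
      · exact (JB6_k1a hD H.hβ H.hk1 H.hk2 (by linarith) (by linarith) H.ble H.bc').trans (by norm_num))
    (V1lo6 hD 0.0524 0 0.6075 _ 0.1745 0.5 (by norm_num) ha (by linarith) (k3 B) rfl (fq B) (by norm_num) (fg B) (by norm_num))
    (D_up6 hD 0.3 0.45 0 0.146 1 0.86416 1.247 hk1 hk2 (by norm_num) hy1 hy2 (by norm_num) (by simp) (expm_le (by norm_num) (by norm_num) (by norm_num)) (by norm_num) (by norm_num) (by norm_num) (by norm_num)) (by norm_num) (by norm_num)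


theorem xm1L (H : D6 β r t κ s h T) (B : BX6 0.3 0.45 0.37423 0.27522 10 0.045 9.1195 β r κ T) (h1 : 0 ≤ s) (h2 : s ≤ 0.45) :
    ‖Xf β r h (t) (-1)‖ ≤ (0.00484 + 0.000619) * ‖Xf β r h t 1‖ := by
  have hr := rgL (a := (-2)) (b1 := 1.6231) (b2 := 2.0944) H.h1 H.h2 h1 h2 (by norm_num) (by norm_num) (by norm_num)
  have e : s + ((-1 : ℤ) : ℝ) - 1 = s + (-2) := by push_cast; ring
  exact cellL (k := -1) (Y := ‖Xf β r h t 1‖) (g := 0.5 * s ^ 2) 0.45 0.3575 0.3 0.45 0.37423 0.27522 1.6231 2.0944 _ _ _ _ _ 0.00905 4.1582 10 0.045 0.7284 0 1.2701 0.8706 0.75764 9.1195 0.0010127 0.00484 1.09663 0.10126 0.8313 0.8981 3.1623 0.00012808 0.000619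
    H.hβ H.hκ H.hs H.hT H.h0 H.hq2 (by norm_num) B.hk1 B.hk2 B.hψ B.hψ1 (by rw [e]; exact hr.1) (by rw [e]; exact hr.2)
    B.hR B.hb B.hT (x1loG H B (by linarith) (by linarith)) (by positivity) (gA (by norm_num) (by linarith) (by linarith : s ≤ 0.45) (by norm_num))
    (by rw [e]; exact qA (s2 := 0.45) (by norm_num) (by norm_num) (by linarith) h2 (by norm_num) (by norm_num))
    (by norm_num) (by norm_num) (by norm_num) (by norm_num) rfl rfl (by norm_num) rfl rfl rfl (by norm_num) (by norm_num) (by norm_num) (by norm_num) (by norm_num) (by norm_num) (by norm_num) (by norm_num) (by norm_num) (by norm_num) (by norm_num) (by norm_num) (by norm_num) (by norm_num) (by norm_num) (by norm_num) (by norm_num) (by norm_num)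
    (expn 6 0.9092 (by norm_num) (by norm_num) (E := 0.0010127) (by norm_num) (by norm_num)) (by norm_num) (by norm_num) (by norm_num) (by norm_num) (by norm_num) (by norm_num) (by norm_num) (by norm_num)
    (expn 8 0.9809 (by norm_num) (by norm_num) (E := 0.00012808) (by norm_num) (by norm_num)) (by norm_num) (by norm_num)


theorem xm2L (H : D6 β r t κ s h T) (B : BX6 0.3 0.45 0.37423 0.27522 10 0.045 9.1195 β r κ T) (h1 : 0 ≤ s) (h2 : s ≤ 0.45) :
    ‖Xf β r h (t) (-2)‖ ≤ (0.00001 + 0.000626) * ‖Xf β r h t 1‖ := by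
  have hr := rgL (a := (-3)) (b1 := 2.6703) (b2 := 3.1416) H.h1 H.h2 h1 h2 (by norm_num) (by norm_num) (by norm_num)
  have e : s + ((-2 : ℤ) : ℝ) - 1 = s + (-3) := by push_cast; ring
  exact cellL (k := -2) (Y := ‖Xf β r h t 1‖) (g := 0.5 * s ^ 2) 0.3 0.2596 0.3 0.45 0.37423 0.27522 2.6703 3.1416 _ _ _ _ _ 0.01403 3.7266 10 0.045 0.7284 0 1.2842 0.8706 1.58679 9.1195 0.00000052008 0.00001 1.09663 0.10126 0.8313 0.8981 3.1623 0.00012808 0.000626
    H.hβ H.hκ H.hs H.hT H.h0 H.hq2 (by norm_num) B.hk1 B.hk2 B.hψ B.hψ1 (by rw [e]; exact hr.1) (by rw [e]; exact hr.2)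
    B.hR B.hb B.hT (x1loG H B (by linarith) (by linarith)) (by positivity) (gA (by norm_num) (by linarith) (by linarith : s ≤ 0.45) (by norm_num))
    (by rw [e]; exact qA (s2 := 0.45) (by norm_num) (by norm_num) (by linarith) h2 (by norm_num) (by norm_num))
    (by norm_num) (by norm_num) (by norm_num) (by norm_num) rfl rfl (by norm_num) rfl rfl rfl (by norm_num) (by norm_num) (by norm_num) (by norm_num) (by norm_num) (by norm_num) (by norm_num) (by norm_num) (by norm_num) (by norm_num) (by norm_num) (by norm_num) (by norm_num) (by norm_num) (by norm_num) (by norm_num) (by norm_num) (by norm_num)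
    (expn 14 0.4707 (by norm_num) (by norm_num) (E := 0.00000052008) (by norm_num) (by norm_num)) (by norm_num) (by norm_num) (by norm_num) (by norm_num) (by norm_num) (by norm_num) (by norm_num) (by norm_num)
    (expn 8 0.9809 (by norm_num) (by norm_num) (E := 0.00012808) (by norm_num) (by norm_num)) (by norm_num) (by norm_num)


theorem x1lo0 (H : D6 β r t κ s h T) (B : BX6 0.3 0.45 0.37423 0.27522 10 0.045 9.1195 β r κ T) (h1 : 0 ≤ s) (h2 : s ≤ 0.25) :
    eN r κ * (0.8887 * Real.exp (-(T * (0.5 * s ^ 2)))) ≤ ‖Xf β r h t 1‖ := by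
  have hr := rgR (a := 0) (τ1 := 0) (τm := 0.2618) H.h1 H.h2 h1 h2 (by norm_num) (by norm_num) (by norm_num)
  rw [add_zero, ← H.hs] at hr
  obtain ⟨ha, hb⟩ := hr
  have hD := H.dom' (t' := t) (by linarith) (by linarith)
  have hk1 := B.hk1
  have hk2 := B.hk2
  have hk0 := H.k0
  have hy1 : 0 ≤ sy κ t := sy_nonneg hD (by linarith)
  have hy2 : sy κ t ≤ 0.088 := syR_le hD 0.3 0.45 0.2618 0.088 1.09198 0.2046 0.21354 0.32032 hk1 hk2 (by linarith) (by norm_num) (by norm_num)
    (expn_ge (by norm_num) (by norm_num)) (by norm_num) (by norm_num) (Or.inr ((mul_le_mul_of_nonneg_left (expn_le (E := 1.09199) (by norm_num) (by norm_num) (by norm_num)) (by norm_num)).trans (by norm_num))) (by norm_num) (by norm_num) (by norm_num)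
  exact H.x1lo hD (ε := 0.08) (c := 0.5) (d := 1.1482) (l := 0.8887) (by norm_num) (by
      rcases le_total (t + κ) 0.05 with g | g
      · exact JB6_k0a hD H.hβ H.hk1 H.hk2 (by linarith) (by linarith) H.ble H.bc'
      · exact (JB6_k1a hD H.hβ H.hk1 H.hk2 (by linarith) (by linarith) H.ble H.bc').trans (by norm_num))
    (V1lo6 hD 0.0524 0 0.6075 _ 0.1745 0.5 (by norm_num) ha (by linarith) (k3 B) rfl (fq B) (by norm_num) (fg B) (by norm_num))
    (D_up6 hD 0.3 0.45 0 0.088 1 0.91577 1.1482 hk1 hk2 (by norm_num) hy1 hy2 (by norm_num) (by simp) (expm_le (by norm_num) (by norm_num) (by norm_num)) (by norm_num) (by norm_num) (by norm_num) (by norm_num)) (by norm_num) (by norm_num)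


theorem x0L0 (H : D6 β r t κ s h T) (B : BX6 0.3 0.45 0.37423 0.27522 10 0.045 9.1195 β r κ T) (h1 : 0 ≤ s) (h2 : s ≤ 0.25) :
    ‖Xf β r h (t) 0‖ ≤ (0.35081 + 0.010338) * ‖Xf β r h t 1‖ := by
  have hr := rgL (a := (-1)) (b1 := 0.7853) (b2 := 1.0472) H.h1 H.h2 h1 h2 (by norm_num) (by norm_num) (by norm_num)
  have e : s + ((0 : ℤ) : ℝ) - 1 = s + (-1) := by push_cast; ring
  exact cellL (k := 0) (Y := ‖Xf β r h t 1‖) (g := 0.5 * s ^ 2) 0.77 0.4963 0.3 0.45 0.37423 0.27522 0.7853 1.0472 _ _ _ _ _ 0.03388 2.9894 10 0.045 0.7284 0.3592 1.2281 0.8887 0.24791 9.1195 0.10429 0.35081 1.09663 0.03126 0.8486 0.9685 3.1623 0.0022589 0.010338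
    H.hβ H.hκ H.hs H.hT H.h0 H.hq2 (by norm_num) B.hk1 B.hk2 B.hψ B.hψ1 (by rw [e]; exact hr.1) (by rw [e]; exact hr.2)
    B.hR B.hb B.hT (x1lo0 H B (by linarith) (by linarith)) (by positivity) (gA (by norm_num) (by linarith) (by linarith : s ≤ 0.25) (by norm_num))
    (by rw [e]; exact qA (s2 := 0.25) (by norm_num) (by norm_num) (by linarith) h2 (by norm_num) (by norm_num))
    (by norm_num) (by norm_num) (by norm_num) (by norm_num) rfl rfl (by norm_num) rfl rfl rfl (by norm_num) (by norm_num) (by norm_num) (by norm_num) (by norm_num) (by norm_num) (by norm_num) (by norm_num) (by norm_num) (by norm_num) (by norm_num) (by norm_num) (by norm_num) (by norm_num) (by norm_num) (by norm_num) (by norm_num) (by norm_num)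
    (expn 2 0.2608 (by norm_num) (by norm_num) (E := 0.10429) (by norm_num) (by norm_num)) (by norm_num) (by norm_num) (by norm_num) (by norm_num) (by norm_num) (by norm_num) (by norm_num) (by norm_num)
    (expn 6 0.0929 (by norm_num) (by norm_num) (E := 0.0022589) (by norm_num) (by norm_num)) (by norm_num) (by norm_num)


theorem x2L0 (H : D6 β r t κ s h T) (B : BX6 0.3 0.45 0.37423 0.27522 10 0.045 9.1195 β r κ T) (h1 : 0 ≤ s) (h2 : s ≤ 0.25) :
    ‖Xf β r h (t) 2‖ ≤ (0.24486 + 0.028557) * ‖Xf β r h t 1‖ := by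
  have hr := rgR (a := 1) (τ1 := 1.0471) (τm := 1.309) H.h1 H.h2 h1 h2 (by norm_num) (by norm_num) (by norm_num)
  have e : s + ((2 : ℤ) : ℝ) - 1 = s + 1 := by push_cast; ring
  exact cellR (k := 2) (Y := ‖Xf β r h t 1‖) (g := 0.5 * s ^ 2) 0.39 0.2964 0.3 0.45 0.37423 0.27522 1.0471 1.309 _ _ _ _ _ 0.02491 3.2283 10 0.045 0.7284 0.4561 1.2873 0.8887 0.29639 9.1195 0.067405 0.24486 1.09663 0.03126 0.8486 0.9685 3.1623 0.0059529 0.028557
    H.hβ H.hκ H.hs H.hT H.h0 H.hq2 (by norm_num) B.hk1 B.hk2 B.hψ B.hψ1 (by rw [e]; have h5 := hr.2; have h6 := B.hk1; have h7 := Real.pi_gt_d6; norm_num at h5 h6 h7 ⊢; linarith) (by rw [e]; exact hr.1) (by rw [e]; exact hr.2)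
    B.hR B.hb B.hT (x1lo0 H B (by linarith) (by linarith)) (by positivity) (gA (by norm_num) (by linarith) (by linarith : s ≤ 0.25) (by norm_num))
    (by rw [e]; exact qB (s1 := 0) (s2 := 0.25) (by norm_num) (by norm_num) h1 h2 (le_refl _) (by norm_num) (by norm_num) (by norm_num))
    (by norm_num) (by norm_num) (by norm_num) (by norm_num) rfl rfl (by norm_num) rfl rfl rfl (by norm_num) (by norm_num) (by norm_num) (by norm_num) (by norm_num) (by norm_num) (by norm_num) (by norm_num) (by norm_num) (by norm_num) (by norm_num) (by norm_num) (by norm_num) (by norm_num) (by norm_num) (by norm_num) (by norm_num) (by norm_num) (by norm_num)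
    (expn 2 0.7029 (by norm_num) (by norm_num) (E := 0.067405) (by norm_num) (by norm_num)) (by norm_num) (by norm_num) (by norm_num) (by norm_num) (by norm_num) (by norm_num) (by norm_num) (by norm_num)
    (expn 5 0.1239 (by norm_num) (by norm_num) (E := 0.0059529) (by norm_num) (by norm_num)) (by norm_num) (by norm_num)


theorem x3L0 (H : D6 β r t κ s h T) (B : BX6 0.3 0.45 0.37423 0.27522 10 0.045 9.1195 β r κ T) (h1 : 0 ≤ s) (h2 : s ≤ 0.25) :
    ‖Xf β r h (t) 3‖ ≤ 0.000553 * ‖Xf β r h t 1‖ := by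
  have hr := rgR (a := 2) (τ1 := 2.0943) (τm := 2.3562) H.h1 H.h2 h1 h2 (by norm_num) (by norm_num) (by norm_num)
  have e : (s + ((3 : ℤ) : ℝ) - 1) * h + 2 * Real.pi * ((0 : ℤ) : ℝ) = (s + 2) * h := by push_cast; ring
  exact cellU (k := 3) (Y := ‖Xf β r h t 1‖) (g := 0.5 * s ^ 2) 0 0.3 0.45 1.6442 2.3562 0.01 10 0.045 0.7284 0.01 2.1515 0.8887 1.09663 0.03126 0.8486 0.9685 3.1623 0.000068971 0.000553
    H.hβ H.hκ H.hs H.hT H.h0 H.hq2 (by norm_num) B.hk1 B.hk2 (by rw [e]; linarith [hr.1, B.hk2]) (by rw [e]; exact hr.2)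
    B.hR B.hb (x1lo0 H B (by linarith) (by linarith)) (by positivity) (gA (by norm_num) (by linarith) (by linarith : s ≤ 0.25) (by norm_num))
    (by norm_num) (by norm_num) (by norm_num) (by norm_num) (by norm_num) (by norm_num) (by norm_num) (by norm_num) (by norm_num) (by norm_num) (by norm_num) (by norm_num) (by norm_num) (by norm_num) (by norm_num) (by norm_num) (by norm_num) (by norm_num) (by norm_num) 
    (expn 9 0.5849 (by norm_num) (by norm_num) (E := 0.000068971) (by norm_num) (by norm_num)) (by norm_num) (by norm_num)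


theorem outL0 (H : D6 β r t κ s h T) (B : BX6 0.3 0.45 0.37423 0.27522 10 0.045 9.1195 β r κ T) (h1 : 0 ≤ s) (h2 : s ≤ 0.25) :
    oth6 β r h t + ‖Xf β r h t 0‖ < ‖Xf β r h t 1‖ := by
  have g1 := xm2L H B (by linarith) (by linarith)
  have g2 := xm1L H B (by linarith) (by linarith)
  have g3 := x0L0 H B h1 h2
  have g4 := x2L0 H B h1 h2
  have g5 := x3L0 H B h1 h2
  have hY := lt_of_lt_of_le (mul_pos (eN_pos r κ) (by positivity)) (x1lo0 H B h1 h2)
  unfold oth6
  norm_num at g1 g2 g3 g4 g5 ⊢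
  linarith

theorem x1lo1 (H : D6 β r t κ s h T) (B : BX6 0.3 0.45 0.37423 0.27522 10 0.045 9.1195 β r κ T) (h1 : 0.25 ≤ s) (h2 : s ≤ 0.35) :
    eN r κ * (0.9126 * Real.exp (-(T * (0.4863 * s ^ 2)))) ≤ ‖Xf β r h t 1‖ := by
  have hr := rgR (a := 0) (τ1 := 0.2617) (τm := 0.3666) H.h1 H.h2 h1 h2 (by norm_num) (by norm_num) (by norm_num)
  rw [add_zero, ← H.hs] at hr
  obtain ⟨ha, hb⟩ := hr
  have hD := H.dom' (t' := t) (by linarith) (by linarith)
  have hk1 := B.hk1
  have hk2 := B.hk2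
  have hk0 := H.k0
  have hy1 : 0.065 ≤ sy κ t := syR_ge hD 0.3 0.45 0.2617 0.065 1.06715 1.06716 0.15414 0.23122 hk1 hk2 (by linarith) (by norm_num) (by norm_num)
    (expn_ge (by norm_num) (by norm_num)) (expn_le (by norm_num) (by norm_num) (by norm_num)) (by norm_num)
    (by norm_num) (by norm_num) (by norm_num) (by norm_num) (by norm_num) (by norm_num)
  have hy2 : sy κ t ≤ 0.118 := syR_le hD 0.3 0.45 0.3666 0.118 1.12524 0.2827 0.29506 0.4426 hk1 hk2 (by linarith) (by norm_num) (by norm_num)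
    (expn_ge (by norm_num) (by norm_num)) (by norm_num) (by norm_num) (Or.inr ((mul_le_mul_of_nonneg_left (expn_le (E := 1.12525) (by norm_num) (by norm_num) (by norm_num)) (by norm_num)).trans (by norm_num))) (by norm_num) (by norm_num) (by norm_num)
  exact H.x1lo hD (ε := 0.045) (c := 0.4863) (d := 1.1992) (l := 0.9126) (by norm_num) (JB6_k1a hD H.hβ H.hk1 H.hk2 (by linarith) (by linarith) H.ble H.bc')
    (V1lo6 hD 0.0524 0.2617 0.6075 _ 0.1745 0.4863 (by norm_num) ha (by linarith) (k3 B) rfl (fq B) (by norm_num) (fg B) (by norm_num))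
    (D_up6 hD 0.3 0.45 0.065 0.118 0.93707 0.8887 1.1992 hk1 hk2 (by norm_num) hy1 hy2 (by norm_num) (expm_le (by norm_num) (by norm_num) (by norm_num)) (expm_le (by norm_num) (by norm_num) (by norm_num)) (by norm_num) (by norm_num) (by norm_num) (by norm_num)) (by norm_num) (by norm_num)


theorem x0L1 (H : D6 β r t κ s h T) (B : BX6 0.3 0.45 0.37423 0.27522 10 0.045 9.1195 β r κ T) (h1 : 0.25 ≤ s) (h2 : s ≤ 0.35) :
    ‖Xf β r h t 0‖ ≤ 0.41597 * ‖Xf β r h t 1‖ := by
  have hr := rgL (a := (-1)) (b1 := 0.6806) (b2 := 0.7854) H.h1 H.h2 h1 h2 (by norm_num) (by norm_num) (by norm_num)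
  have e : (s + -1) * h = (t - h) + κ := by rw [H.a0]; ring
  rw [e] at hr
  obtain ⟨ha, hb⟩ := hr
  have hD := H.dom' (t' := t - h) (by linarith) (by linarith)
  have hk1 := B.hk1
  have hk2 := B.hk2
  have hk0 := H.k0
  have hy1 : -0.481 ≤ sy κ (t - h) := syL_ang2 hD 0.3 0.45 0.7854 0.721 0.7511 0.6602 0.481 1.61769 0.61816 hk1 hk2 (by linarith) (by norm_num) (by norm_num) (by norm_num) (by norm_num)
    (cos_ge_num (by norm_num) (by norm_num)) (sin_le_num (by norm_num) (by norm_num))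
    (expn_ge (by norm_num) (by norm_num)) (expm_ge (by norm_num) (by norm_num) (by norm_num) (by norm_num)) (by norm_num) (by norm_num) (by norm_num)
    (by norm_num) (by norm_num) (by norm_num)
  have hy2 : sy κ (t - h) ≤ -0.237 := syL_le hD 0.3 0.45 0.6806 0.237 0.78899 0.789 0.41553 0.62332 hk1 hk2 (by linarith) (by norm_num) (by norm_num) (by norm_num)
    (expm_ge (by norm_num) (by norm_num) (by norm_num) (by norm_num)) (expm_le (by norm_num) (by norm_num) (by norm_num)) (by norm_num)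
    (by norm_num) (by norm_num) (by norm_num) (by norm_num) (by norm_num) (by norm_num)
  have hX := H.x0up hD (ε := 0.2) (c := 0.5299) (d := 0.2509) (U := 1.6956) (by norm_num) (JB6_k0c hD H.hβ H.hk1 H.hk2 (by linarith) (by linarith) H.ble H.bc')
    (VL_box hD 1.04 0.5299 0.3 0.45 0.37423 0.6806 0.7854 _ _ _ _ ha hb hk1 hk2 B.hψ (by norm_num) (by norm_num) (by norm_num) rfl rfl (by norm_num) rfl rfl (by norm_num) (by norm_num) (by norm_num))
    (by norm_num) (D_lo6 hD 0.3 0.45 (-0.481) (-0.237) (-0.481) 1.61769 0.2509 hk1 hk2 (by norm_num) hy1 hy2 (by rw [neg_neg]; exact expn_ge (by norm_num) (by norm_num)) (by norm_num) (by norm_num) (by norm_num) (by norm_num) (by norm_num) (by norm_num)) (by norm_num) (by norm_num)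
  exact cmpT (eN_pos r κ) hX (x1lo1 H B (by linarith) (by linarith)) B.hT (by norm_num) (qA (a := -1) (s2 := 0.35) (q := 0.16431) (by norm_num) (by norm_num) (by linarith) h2 (by norm_num) (by norm_num)) (by norm_num)
    (expn 1 0.4984 (by norm_num) (by norm_num) (E := 0.22388) (by norm_num) (by norm_num)) (by norm_num) (by norm_num) (by norm_num)


theorem x2L1 (H : D6 β r t κ s h T) (B : BX6 0.3 0.45 0.37423 0.27522 10 0.045 9.1195 β r κ T) (h1 : 0.25 ≤ s) (h2 : s ≤ 0.35) :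
    ‖Xf β r h (t) 2‖ ≤ (0.07856 + 0.01455) * ‖Xf β r h t 1‖ := by
  have hr := rgR (a := 1) (τ1 := 1.3089) (τm := 1.4138) H.h1 H.h2 h1 h2 (by norm_num) (by norm_num) (by norm_num)
  have e : s + ((2 : ℤ) : ℝ) - 1 = s + 1 := by push_cast; ring
  exact cellR (k := 2) (Y := ‖Xf β r h t 1‖) (g := 0.4863 * s ^ 2) 0.39 0.2944 0.3 0.45 0.37423 0.27522 1.3089 1.4138 _ _ _ _ _ 0.01698 3.5529 10 0.045 0.7284 0.3602 1.3096 0.9126 0.4296 9.1195 0.020177 0.07856 1.09663 0.05958 0.8714 0.94 3.1623 0.0030615 0.01455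
    H.hβ H.hκ H.hs H.hT H.h0 H.hq2 (by norm_num) B.hk1 B.hk2 B.hψ B.hψ1 (by rw [e]; have h5 := hr.2; have h6 := B.hk1; have h7 := Real.pi_gt_d6; norm_num at h5 h6 h7 ⊢; linarith) (by rw [e]; exact hr.1) (by rw [e]; exact hr.2)
    B.hR B.hb B.hT (x1lo1 H B (by linarith) (by linarith)) (by positivity) (gA (by norm_num) (by linarith) (by linarith : s ≤ 0.35) (by norm_num))
    (by rw [e]; exact qB (s1 := 0.25) (s2 := 0.35) (by norm_num) (by norm_num) h1 h2 (le_refl _) (by norm_num) (by norm_num) (by norm_num))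
    (by norm_num) (by norm_num) (by norm_num) (by norm_num) rfl rfl (by norm_num) rfl rfl rfl (by norm_num) (by norm_num) (by norm_num) (by norm_num) (by norm_num) (by norm_num) (by norm_num) (by norm_num) (by norm_num) (by norm_num) (by norm_num) (by norm_num) (by norm_num) (by norm_num) (by norm_num) (by norm_num) (by norm_num) (by norm_num) (by norm_num)
    (expn 3 0.9177 (by norm_num) (by norm_num) (E := 0.020177) (by norm_num) (by norm_num)) (by norm_num) (by norm_num) (by norm_num) (by norm_num) (by norm_num) (by norm_num) (by norm_num) (by norm_num)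
    (expn 5 0.7979 (by norm_num) (by norm_num) (E := 0.0030615) (by norm_num) (by norm_num)) (by norm_num) (by norm_num)


theorem x3L1 (H : D6 β r t κ s h T) (B : BX6 0.3 0.45 0.37423 0.27522 10 0.045 9.1195 β r κ T) (h1 : 0.25 ≤ s) (h2 : s ≤ 0.35) :
    ‖Xf β r h (t) 3‖ ≤ 0.000616 * ‖Xf β r h t 1‖ := by
  have hr := rgR (a := 2) (τ1 := 2.3561) (τm := 2.461) H.h1 H.h2 h1 h2 (by norm_num) (by norm_num) (by norm_num)
  have e : (s + ((3 : ℤ) : ℝ) - 1) * h + 2 * Real.pi * ((0 : ℤ) : ℝ) = (s + 2) * h := by push_cast; ring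
  exact cellU (k := 3) (Y := ‖Xf β r h t 1‖) (g := 0.4863 * s ^ 2) 0 0.3 0.45 1.906 2.461 0.01 10 0.045 0.7284 0.01 1.8535 0.9126 1.09663 0.05958 0.8714 0.94 3.1623 0.000091458 0.000616
    H.hβ H.hκ H.hs H.hT H.h0 H.hq2 (by norm_num) B.hk1 B.hk2 (by rw [e]; linarith [hr.1, B.hk2]) (by rw [e]; exact hr.2)
    B.hR B.hb (x1lo1 H B (by linarith) (by linarith)) (by positivity) (gA (by norm_num) (by linarith) (by linarith : s ≤ 0.35) (by norm_num))
    (by norm_num) (by norm_num) (by norm_num) (by norm_num) (by norm_num) (by norm_num) (by norm_num) (by norm_num) (by norm_num) (by norm_num) (by norm_num) (by norm_num) (by norm_num) (by norm_num) (by norm_num) (by norm_num) (by norm_num) (by norm_num) (by norm_num) 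
    (expn 9 0.2999 (by norm_num) (by norm_num) (E := 0.000091458) (by norm_num) (by norm_num)) (by norm_num) (by norm_num)


theorem outL1 (H : D6 β r t κ s h T) (B : BX6 0.3 0.45 0.37423 0.27522 10 0.045 9.1195 β r κ T) (h1 : 0.25 ≤ s) (h2 : s ≤ 0.35) :
    oth6 β r h t + ‖Xf β r h t 0‖ < ‖Xf β r h t 1‖ := by
  have g1 := xm2L H B (by linarith) (by linarith)
  have g2 := xm1L H B (by linarith) (by linarith)
  have g3 := x0L1 H B h1 h2
  have g4 := x2L1 H B h1 h2
  have g5 := x3L1 H B h1 h2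
  have hY := lt_of_lt_of_le (mul_pos (eN_pos r κ) (by positivity)) (x1lo1 H B h1 h2)
  unfold oth6
  norm_num at g1 g2 g3 g4 g5 ⊢
  linarith

theorem x1lo2 (H : D6 β r t κ s h T) (B : BX6 0.3 0.45 0.37423 0.27522 10 0.045 9.1195 β r κ T) (h1 : 0.35 ≤ s) (h2 : s ≤ 0.43) :
    eN r κ * (0.9052 * Real.exp (-(T * (0.4808 * s ^ 2)))) ≤ ‖Xf β r h t 1‖ := by
  have hr := rgR (a := 0) (τ1 := 0.3665) (τm := 0.4503) H.h1 H.h2 h1 h2 (by norm_num) (by norm_num) (by norm_num)
  rw [add_zero, ← H.hs] at hr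
  obtain ⟨ha, hb⟩ := hr
  have hD := H.dom' (t' := t) (by linarith) (by linarith)
  have hk1 := B.hk1
  have hk2 := B.hk2
  have hk0 := H.k0
  have hy1 : 0.088 ≤ sy κ t := syR_ge hD 0.3 0.45 0.3665 0.088 1.09198 1.09199 0.21354 0.32032 hk1 hk2 (by linarith) (by norm_num) (by norm_num)
    (expn_ge (by norm_num) (by norm_num)) (expn_le (by norm_num) (by norm_num) (by norm_num)) (by norm_num)
    (by norm_num) (by norm_num) (by norm_num) (by norm_num) (by norm_num) (by norm_num)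
  have hy2 : sy κ t ≤ 0.141 := syR_le hD 0.3 0.45 0.4503 0.141 1.15142 0.3307 0.36077 0.54118 hk1 hk2 (by linarith) (by norm_num) (by norm_num)
    (expn_ge (by norm_num) (by norm_num)) (by norm_num) (by norm_num) (Or.inr ((mul_le_mul_of_nonneg_left (expn_le (E := 1.15143) (by norm_num) (by norm_num) (by norm_num)) (by norm_num)).trans (by norm_num))) (by norm_num) (by norm_num) (by norm_num)
  exact H.x1lo hD (ε := 0.045) (c := 0.4808) (d := 1.2385) (l := 0.9052) (by norm_num) (JB6_k1a hD H.hβ H.hk1 H.hk2 (by linarith) (by linarith) H.ble H.bc')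
    (V1lo6 hD 0.0524 0.3665 0.6075 _ 0.1745 0.4808 (by norm_num) ha (by linarith) (k3 B) rfl (fq B) (by norm_num) (fg B) (by norm_num))
    (D_up6 hD 0.3 0.45 0.088 0.141 0.91577 0.86849 1.2385 hk1 hk2 (by norm_num) hy1 hy2 (by norm_num) (expm_le (by norm_num) (by norm_num) (by norm_num)) (expm_le (by norm_num) (by norm_num) (by norm_num)) (by norm_num) (by norm_num) (by norm_num) (by norm_num)) (by norm_num) (by norm_num)


theorem x0L2 (H : D6 β r t κ s h T) (B : BX6 0.3 0.45 0.37423 0.27522 10 0.045 9.1195 β r κ T) (h1 : 0.35 ≤ s) (h2 : s ≤ 0.43) :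
    ‖Xf β r h t 0‖ ≤ 0.73741 * ‖Xf β r h t 1‖ := by
  have hr := rgL (a := (-1)) (b1 := 0.5969) (b2 := 0.6807) H.h1 H.h2 h1 h2 (by norm_num) (by norm_num) (by norm_num)
  have e : (s + -1) * h = (t - h) + κ := by rw [H.a0]; ring
  rw [e] at hr
  obtain ⟨ha, hb⟩ := hr
  have hD := H.dom' (t' := t - h) (by linarith) (by linarith)
  have hk1 := B.hk1
  have hk2 := B.hk2
  have hk0 := H.k0
  have hy1 : -0.369 ≤ sy κ (t - h) := syL_ge2 hD 0.3 0.45 0.6807 0.369 0.69142 0.69143 0.5669 0.56696 0.85046 hk1 hk2 (by linarith) (by norm_num) (by norm_num) (by norm_num)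
    (expm_ge (by norm_num) (by norm_num) (by norm_num) (by norm_num)) (expm_le (by norm_num) (by norm_num) (by norm_num)) (by norm_num)
    (by norm_num) (by norm_num) (by norm_num) (by norm_num) (by norm_num) (by norm_num)
  have hy2 : sy κ (t - h) ≤ -0.203 := syL_le hD 0.3 0.45 0.5969 0.203 0.81627 0.81628 0.36822 0.55235 hk1 hk2 (by linarith) (by norm_num) (by norm_num) (by norm_num)
    (expm_ge (by norm_num) (by norm_num) (by norm_num) (by norm_num)) (expm_le (by norm_num) (by norm_num) (by norm_num)) (by norm_num)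
    (by norm_num) (by norm_num) (by norm_num) (by norm_num) (by norm_num) (by norm_num)
  have hX := H.x0up hD (ε := 0.144) (c := 0.5328) (d := 0.413) (U := 1.4271) (by norm_num) (JB6_k0f hD H.hβ H.hk1 H.hk2 (by linarith) (by linarith) H.ble H.bc')
    (VL_box hD 1.06 0.5328 0.3 0.45 0.37423 0.5969 0.6807 _ _ _ _ ha hb hk1 hk2 B.hψ (by norm_num) (by norm_num) (by norm_num) rfl rfl (by norm_num) rfl rfl (by norm_num) (by norm_num) (by norm_num))
    (by norm_num) (D_lo6 hD 0.3 0.45 (-0.369) (-0.203) (-0.369) 1.44628 0.413 hk1 hk2 (by norm_num) hy1 hy2 (by rw [neg_neg]; exact expn_ge (by norm_num) (by norm_num)) (by norm_num) (by norm_num) (by norm_num) (by norm_num) (by norm_num) (by norm_num)) (by norm_num) (by norm_num)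
  exact cmpT (eN_pos r κ) hX (x1lo2 H B (by linarith) (by linarith)) B.hT (by norm_num) (qA (a := -1) (s2 := 0.43) (q := 0.0842) (by norm_num) (by norm_num) (by linarith) h2 (by norm_num) (by norm_num)) (by norm_num)
    (expn 0 0.7678 (by norm_num) (by norm_num) (E := 0.46773) (by norm_num) (by norm_num)) (by norm_num) (by norm_num) (by norm_num)


theorem x2L2 (H : D6 β r t κ s h T) (B : BX6 0.3 0.45 0.37423 0.27522 10 0.045 9.1195 β r κ T) (h1 : 0.35 ≤ s) (h2 : s ≤ 0.43) :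
    ‖Xf β r h (t) 2‖ ≤ (0.05912 + 0.012966) * ‖Xf β r h t 1‖ := by
  have hr := rgR (a := 1) (τ1 := 1.4137) (τm := 1.4975) H.h1 H.h2 h1 h2 (by norm_num) (by norm_num) (by norm_num)
  have e : s + ((2 : ℤ) : ℝ) - 1 = s + 1 := by push_cast; ring
  exact cellR (k := 2) (Y := ‖Xf β r h t 1‖) (g := 0.4808 * s ^ 2) 0.38 0.2883 0.3 0.45 0.37423 0.27522 1.4137 1.4975 _ _ _ _ _ 0.01343 3.7675 10 0.045 0.7284 0.317 1.3192 0.9052 0.46652 9.1195 0.014204 0.05912 1.09663 0.0889 0.8644 0.9105 3.1623 0.0026865 0.012966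
    H.hβ H.hκ H.hs H.hT H.h0 H.hq2 (by norm_num) B.hk1 B.hk2 B.hψ B.hψ1 (by rw [e]; have h5 := hr.2; have h6 := B.hk1; have h7 := Real.pi_gt_d6; norm_num at h5 h6 h7 ⊢; linarith) (by rw [e]; exact hr.1) (by rw [e]; exact hr.2)
    B.hR B.hb B.hT (x1lo2 H B (by linarith) (by linarith)) (by positivity) (gA (by norm_num) (by linarith) (by linarith : s ≤ 0.43) (by norm_num))
    (by rw [e]; exact qB (s1 := 0.35) (s2 := 0.43) (by norm_num) (by norm_num) h1 h2 (le_refl _) (by norm_num) (by norm_num) (by norm_num))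
    (by norm_num) (by norm_num) (by norm_num) (by norm_num) rfl rfl (by norm_num) rfl rfl rfl (by norm_num) (by norm_num) (by norm_num) (by norm_num) (by norm_num) (by norm_num) (by norm_num) (by norm_num) (by norm_num) (by norm_num) (by norm_num) (by norm_num) (by norm_num) (by norm_num) (by norm_num) (by norm_num) (by norm_num) (by norm_num) (by norm_num)
    (expn 4 0.2544 (by norm_num) (by norm_num) (E := 0.014204) (by norm_num) (by norm_num)) (by norm_num) (by norm_num) (by norm_num) (by norm_num) (by norm_num) (by norm_num) (by norm_num) (by norm_num)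
    (expn 5 0.9349 (by norm_num) (by norm_num) (E := 0.0026865) (by norm_num) (by norm_num)) (by norm_num) (by norm_num)


theorem x3L2 (H : D6 β r t κ s h T) (B : BX6 0.3 0.45 0.37423 0.27522 10 0.045 9.1195 β r κ T) (h1 : 0.35 ≤ s) (h2 : s ≤ 0.43) :
    ‖Xf β r h (t) 3‖ ≤ 0.000823 * ‖Xf β r h t 1‖ := by
  have hr := rgR (a := 2) (τ1 := 2.4609) (τm := 2.5447) H.h1 H.h2 h1 h2 (by norm_num) (by norm_num) (by norm_num)
  have e : (s + ((3 : ℤ) : ℝ) - 1) * h + 2 * Real.pi * ((0 : ℤ) : ℝ) = (s + 2) * h := by push_cast; ring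
  exact cellU (k := 3) (Y := ‖Xf β r h t 1‖) (g := 0.4808 * s ^ 2) 0 0.3 0.45 2.0108 2.5447 0.01 10 0.045 0.7284 0.01 1.8314 0.9052 1.09663 0.0889 0.8644 0.9105 3.1623 0.00012281 0.000823
    H.hβ H.hκ H.hs H.hT H.h0 H.hq2 (by norm_num) B.hk1 B.hk2 (by rw [e]; linarith [hr.1, B.hk2]) (by rw [e]; exact hr.2)
    B.hR B.hb (x1lo2 H B (by linarith) (by linarith)) (by positivity) (gA (by norm_num) (by linarith) (by linarith : s ≤ 0.43) (by norm_num))
    (by norm_num) (by norm_num) (by norm_num) (by norm_num) (by norm_num) (by norm_num) (by norm_num) (by norm_num) (by norm_num) (by norm_num) (by norm_num) (by norm_num) (by norm_num) (by norm_num) (by norm_num) (by norm_num) (by norm_num) (by norm_num) (by norm_num) 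
    (expn 9 0.0049 (by norm_num) (by norm_num) (E := 0.00012281) (by norm_num) (by norm_num)) (by norm_num) (by norm_num)


theorem outL2 (H : D6 β r t κ s h T) (B : BX6 0.3 0.45 0.37423 0.27522 10 0.045 9.1195 β r κ T) (h1 : 0.35 ≤ s) (h2 : s ≤ 0.43) :
    oth6 β r h t + ‖Xf β r h t 0‖ < ‖Xf β r h t 1‖ := by
  have g1 := xm2L H B (by linarith) (by linarith)
  have g2 := xm1L H B (by linarith) (by linarith)
  have g3 := x0L2 H B h1 h2
  have g4 := x2L2 H B h1 h2
  have g5 := x3L2 H B h1 h2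
  have hY := lt_of_lt_of_le (mul_pos (eN_pos r κ) (by positivity)) (x1lo2 H B h1 h2)
  unfold oth6
  norm_num at g1 g2 g3 g4 g5 ⊢
  linarith

theorem x1lo3 (H : D6 β r t κ s h T) (B : BX6 0.3 0.45 0.37423 0.27522 10 0.045 9.1195 β r κ T) (h1 : 0.43 ≤ s) (h2 : s ≤ 0.45) :
    eN r κ * (0.9037 * Real.exp (-(T * (0.4765 * s ^ 2)))) ≤ ‖Xf β r h t 1‖ := by
  have hr := rgR (a := 0) (τ1 := 0.4502) (τm := 0.4713) H.h1 H.h2 h1 h2 (by norm_num) (by norm_num) (by norm_num)
  rw [add_zero, ← H.hs] at hr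
  obtain ⟨ha, hb⟩ := hr
  have hD := H.dom' (t' := t) (by linarith) (by linarith)
  have hk1 := B.hk1
  have hk2 := B.hk2
  have hk0 := H.k0
  have hy1 : 0.104 ≤ sy κ t := syR_ge hD 0.3 0.45 0.4502 0.104 1.1096 1.10961 0.25644 0.38467 hk1 hk2 (by linarith) (by norm_num) (by norm_num)
    (expn_ge (by norm_num) (by norm_num)) (expn_le (by norm_num) (by norm_num) (by norm_num)) (by norm_num)
    (by norm_num) (by norm_num) (by norm_num) (by norm_num) (by norm_num) (by norm_num)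
  have hy2 : sy κ t ≤ 0.146 := syR_le hD 0.3 0.45 0.4713 0.146 1.15719 0.3597 0.37544 0.56318 hk1 hk2 (by linarith) (by norm_num) (by norm_num)
    (expn_ge (by norm_num) (by norm_num)) (by norm_num) (by norm_num) (Or.inr ((mul_le_mul_of_nonneg_left (expn_le (E := 1.1572) (by norm_num) (by norm_num) (by norm_num)) (by norm_num)).trans (by norm_num))) (by norm_num) (by norm_num) (by norm_num)
  exact H.x1lo hD (ε := 0.045) (c := 0.4765) (d := 1.247) (l := 0.9037) (by norm_num) (JB6_k1a hD H.hβ H.hk1 H.hk2 (by linarith) (by linarith) H.ble H.bc')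
    (V1lo6 hD 0.0524 0.4502 0.6075 _ 0.1745 0.4765 (by norm_num) ha (by linarith) (k3 B) rfl (fq B) (by norm_num) (fg B) (by norm_num))
    (D_up6 hD 0.3 0.45 0.104 0.146 0.90123 0.86416 1.247 hk1 hk2 (by norm_num) hy1 hy2 (by norm_num) (expm_le (by norm_num) (by norm_num) (by norm_num)) (expm_le (by norm_num) (by norm_num) (by norm_num)) (by norm_num) (by norm_num) (by norm_num) (by norm_num)) (by norm_num) (by norm_num)


theorem x0L3 (H : D6 β r t κ s h T) (B : BX6 0.3 0.45 0.37423 0.27522 10 0.045 9.1195 β r κ T) (h1 : 0.43 ≤ s) (h2 : s ≤ 0.45) :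
    ‖Xf β r h t 0‖ ≤ 0.79596 * ‖Xf β r h t 1‖ := by
  have hr := rgL (a := (-1)) (b1 := 0.5759) (b2 := 0.597) H.h1 H.h2 h1 h2 (by norm_num) (by norm_num) (by norm_num)
  have e : (s + -1) * h = (t - h) + κ := by rw [H.a0]; ring
  rw [e] at hr
  obtain ⟨ha, hb⟩ := hr
  have hD := H.dom' (t' := t - h) (by linarith) (by linarith)
  have hk1 := B.hk1
  have hk2 := B.hk2
  have hk0 := H.k0
  have hy1 : -0.305 ≤ sy κ (t - h) := syL_ge hD 0.3 0.45 0.597 0.305 0.73712 0.73713 0.4995 0.4996 0.74942 hk1 hk2 (by linarith) (by norm_num) (by norm_num) (by norm_num)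
    (expm_ge (by norm_num) (by norm_num) (by norm_num) (by norm_num)) (expm_le (by norm_num) (by norm_num) (by norm_num)) (by norm_num)
    (by norm_num) (by norm_num) (by norm_num) (by norm_num) (by norm_num) (by norm_num)
  have hy2 : sy κ (t - h) ≤ -0.194 := syL_le hD 0.3 0.45 0.5759 0.194 0.82365 0.82366 0.35508 0.53264 hk1 hk2 (by linarith) (by norm_num) (by norm_num) (by norm_num)
    (expm_ge (by norm_num) (by norm_num) (by norm_num) (by norm_num)) (expm_le (by norm_num) (by norm_num) (by norm_num)) (by norm_num)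
    (by norm_num) (by norm_num) (by norm_num) (by norm_num) (by norm_num) (by norm_num)
  have hX := H.x0up hD (ε := 0.11) (c := 0.5386) (d := 0.5097) (U := 1.3137) (by norm_num) (JB6_k0b hD H.hβ H.hk1 H.hk2 (by linarith) (by linarith) H.ble H.bc')
    (VL_box hD 1.09 0.5386 0.3 0.45 0.37423 0.5759 0.597 _ _ _ _ ha hb hk1 hk2 B.hψ (by norm_num) (by norm_num) (by norm_num) rfl rfl (by norm_num) rfl rfl (by norm_num) (by norm_num) (by norm_num))
    (by norm_num) (D_lo6 hD 0.3 0.45 (-0.305) (-0.194) (-0.305) 1.35662 0.5097 hk1 hk2 (by norm_num) hy1 hy2 (by rw [neg_neg]; exact expn_ge (by norm_num) (by norm_num)) (by norm_num) (by norm_num) (by norm_num) (by norm_num) (by norm_num) (by norm_num)) (by norm_num) (by norm_num)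
  exact cmpT (eN_pos r κ) hX (x1lo3 H B (by linarith) (by linarith)) B.hT (by norm_num) (qA (a := -1) (s2 := 0.45) (q := 0.06643) (by norm_num) (by norm_num) (by linarith) h2 (by norm_num) (by norm_num)) (by norm_num)
    (expn 0 0.6058 (by norm_num) (by norm_num) (E := 0.54754) (by norm_num) (by norm_num)) (by norm_num) (by norm_num) (by norm_num)


theorem x2L3 (H : D6 β r t κ s h T) (B : BX6 0.3 0.45 0.37423 0.27522 10 0.045 9.1195 β r κ T) (h1 : 0.43 ≤ s) (h2 : s ≤ 0.45) :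
    ‖Xf β r h (t) 2‖ ≤ (0.04503 + 0.009292) * ‖Xf β r h t 1‖ := by
  have hr := rgR (a := 1) (τ1 := 1.4974) (τm := 1.5185) H.h1 H.h2 h1 h2 (by norm_num) (by norm_num) (by norm_num)
  have e : s + ((2 : ℤ) : ℝ) - 1 = s + 1 := by push_cast; ring
  exact cellR (k := 2) (Y := ‖Xf β r h t 1‖) (g := 0.4765 * s ^ 2) 0.38 0.2878 0.3 0.45 0.37423 0.27522 1.4974 1.5185 _ _ _ _ _ 0.0118 3.8914 10 0.045 0.7284 0.2771 1.3236 0.9037 0.50041 9.1195 0.010455 0.04503 1.09663 0.0965 0.8629 0.9029 3.1623 0.0019156 0.009292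
    H.hβ H.hκ H.hs H.hT H.h0 H.hq2 (by norm_num) B.hk1 B.hk2 B.hψ B.hψ1 (by rw [e]; have h5 := hr.2; have h6 := B.hk1; have h7 := Real.pi_gt_d6; norm_num at h5 h6 h7 ⊢; linarith) (by rw [e]; exact hr.1) (by rw [e]; exact hr.2)
    B.hR B.hb B.hT (x1lo3 H B (by linarith) (by linarith)) (by positivity) (gA (by norm_num) (by linarith) (by linarith : s ≤ 0.45) (by norm_num))
    (by rw [e]; exact qB (s1 := 0.43) (s2 := 0.45) (by norm_num) (by norm_num) h1 h2 (le_refl _) (by norm_num) (by norm_num) (by norm_num))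
    (by norm_num) (by norm_num) (by norm_num) (by norm_num) rfl rfl (by norm_num) rfl rfl rfl (by norm_num) (by norm_num) (by norm_num) (by norm_num) (by norm_num) (by norm_num) (by norm_num) (by norm_num) (by norm_num) (by norm_num) (by norm_num) (by norm_num) (by norm_num) (by norm_num) (by norm_num) (by norm_num) (by norm_num) (by norm_num) (by norm_num)
    (expn 4 0.5634 (by norm_num) (by norm_num) (E := 0.010455) (by norm_num) (by norm_num)) (by norm_num) (by norm_num) (by norm_num) (by norm_num) (by norm_num) (by norm_num) (by norm_num) (by norm_num)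
    (expn 6 0.2579 (by norm_num) (by norm_num) (E := 0.0019156) (by norm_num) (by norm_num)) (by norm_num) (by norm_num)


theorem x3L3 (H : D6 β r t κ s h T) (B : BX6 0.3 0.45 0.37423 0.27522 10 0.045 9.1195 β r κ T) (h1 : 0.43 ≤ s) (h2 : s ≤ 0.45) :
    ‖Xf β r h (t) 3‖ ≤ 0.000898 * ‖Xf β r h t 1‖ := by
  have hr := rgR (a := 2) (τ1 := 2.5446) (τm := 2.5657) H.h1 H.h2 h1 h2 (by norm_num) (by norm_num) (by norm_num)
  have e : (s + ((3 : ℤ) : ℝ) - 1) * h + 2 * Real.pi * ((0 : ℤ) : ℝ) = (s + 2) * h := by push_cast; ring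
  exact cellU (k := 3) (Y := ‖Xf β r h t 1‖) (g := 0.4765 * s ^ 2) 0 0.3 0.45 2.0945 2.5657 0.01 10 0.045 0.7284 0.01 1.8199 0.9037 1.09663 0.0965 0.8629 0.9029 3.1623 0.00013452 0.000898
    H.hβ H.hκ H.hs H.hT H.h0 H.hq2 (by norm_num) B.hk1 B.hk2 (by rw [e]; linarith [hr.1, B.hk2]) (by rw [e]; exact hr.2)
    B.hR B.hb (x1lo3 H B (by linarith) (by linarith)) (by positivity) (gA (by norm_num) (by linarith) (by linarith : s ≤ 0.45) (by norm_num))
    (by norm_num) (by norm_num) (by norm_num) (by norm_num) (by norm_num) (by norm_num) (by norm_num) (by norm_num) (by norm_num) (by norm_num) (by norm_num) (by norm_num) (by norm_num) (by norm_num) (by norm_num) (by norm_num) (by norm_num) (by norm_num) (by norm_num) 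
    (expn 8 0.9289 (by norm_num) (by norm_num) (E := 0.00013452) (by norm_num) (by norm_num)) (by norm_num) (by norm_num)


theorem outL3 (H : D6 β r t κ s h T) (B : BX6 0.3 0.45 0.37423 0.27522 10 0.045 9.1195 β r κ T) (h1 : 0.43 ≤ s) (h2 : s ≤ 0.45) :
    oth6 β r h t + ‖Xf β r h t 0‖ < ‖Xf β r h t 1‖ := by
  have g1 := xm2L H B (by linarith) (by linarith)
  have g2 := xm1L H B (by linarith) (by linarith)
  have g3 := x0L3 H B h1 h2
  have g4 := x2L3 H B h1 h2
  have g5 := x3L3 H B h1 h2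
  have hY := lt_of_lt_of_le (mul_pos (eN_pos r κ) (by positivity)) (x1lo3 H B h1 h2)
  unfold oth6
  norm_num at g1 g2 g3 g4 g5 ⊢
  linarith

theorem x0loG (H : D6 β r t κ s h T) (B : BX6 0.3 0.45 0.37423 0.27522 10 0.045 9.1195 β r κ T) (h1 : 0.58 ≤ s) (h2 : s ≤ 1) :
    eN r κ * (0.9199 * Real.exp (-(T * (0.5802 * (s - 1) ^ 2)))) ≤ ‖Xf β r h t 0‖ := by
  have hr := rgL (a := (-1)) (b1 := 0) (b2 := 0.4399) H.h1 H.h2 h1 h2 (by norm_num) (by norm_num) (by norm_num)
  have e : (s + -1) * h = (t - h) + κ := by rw [H.a0]; ring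
  rw [e] at hr
  obtain ⟨ha, hb⟩ := hr
  have hD := H.dom' (t' := t - h) (by linarith) (by linarith)
  have hk1 := B.hk1
  have hk2 := B.hk2
  have hk0 := H.k0
  have hy1 : -0.204 ≤ sy κ (t - h) := syL_ge hD 0.3 0.45 0.4399 0.204 0.81546 0.81547 0.3696 0.36967 0.55452 hk1 hk2 (by linarith) (by norm_num) (by norm_num) (by norm_num)
    (expm_ge (by norm_num) (by norm_num) (by norm_num) (by norm_num)) (expm_le (by norm_num) (by norm_num) (by norm_num)) (by norm_num)
    (by norm_num) (by norm_num) (by norm_num) (by norm_num) (by norm_num) (by norm_num)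
  have hy2 : sy κ (t - h) ≤ 0 := sy_nonpos hD (by linarith)
  exact H.x0lo hD (ε := 0.08) (c := 0.5802) (d := 1.0001) (l := 0.9199) (by norm_num) (JB6_k0a hD H.hβ H.hk1 H.hk2 (by linarith) (by linarith) H.ble H.bc')
    (V0_lo hD 0.5802 0.4399 0.1452 0.0237 0.7723 0.37423 (by linarith) (by linarith) (by norm_num) (fa1 B) (fa2 B) (fa3 B) (fa4 H B) (by norm_num) (by norm_num) (by norm_num) (by norm_num) (by norm_num))
    (D_up6 hD 0.3 0.45 (-0.204) 0 1.2263 1 1.0001 hk1 hk2 (by norm_num) hy1 hy2 (by norm_num) (by rw [neg_neg]; exact expn_le (by norm_num) (by norm_num) (by norm_num)) (by simp) (by norm_num) (by norm_num) (by norm_num) (by norm_num)) (by norm_num) (by norm_num)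


theorem xm2R (H : D6 β r t κ s h T) (B : BX6 0.3 0.45 0.37423 0.27522 10 0.045 9.1195 β r κ T) (h1 : 0.58 ≤ s) (h2 : s ≤ 1) :
    ‖Xf β r h (t) (-2)‖ ≤ (0.00005 + 0.000597) * ‖Xf β r h t 0‖ := by
  have hr := rgL (a := (-3)) (b1 := 2.0943) (b2 := 2.5343) H.h1 H.h2 h1 h2 (by norm_num) (by norm_num) (by norm_num)
  have e : s + ((-2 : ℤ) : ℝ) - 1 = s + (-3) := by push_cast; ring
  exact cellL (k := -2) (Y := ‖Xf β r h t 0‖) (g := 0.5802 * (s - 1) ^ 2) 0.38 0.3149 0.3 0.45 0.37423 0.27522 2.0943 2.5343 _ _ _ _ _ 0.00817 4.266 10 0.045 0.7284 0 1.2796 0.9199 1.25959 9.1195 0.000010282 0.00005 1.09663 0.10235 0.8784 0.897 3.1623 0.00012941 0.000597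
    H.hβ H.hκ H.hs H.hT H.h0 H.hq2 (by norm_num) B.hk1 B.hk2 B.hψ B.hψ1 (by rw [e]; exact hr.1) (by rw [e]; exact hr.2)
    B.hR B.hb B.hT (x0loG H B (by linarith) (by linarith)) (by positivity) (gD (by norm_num) (by linarith : 0.58 ≤ s) (by linarith) (by norm_num))
    (by rw [e]; exact qC (s1 := 0.58) (s2 := 1) (b := 0) (by norm_num) (by norm_num) h1 h2 (by linarith) (by norm_num) (by norm_num) (by norm_num))
    (by norm_num) (by norm_num) (by norm_num) (by norm_num) rfl rfl (by norm_num) rfl rfl rfl (by norm_num) (by norm_num) (by norm_num) (by norm_num) (by norm_num) (by norm_num) (by norm_num) (by norm_num) (by norm_num) (by norm_num) (by norm_num) (by norm_num) (by norm_num) (by norm_num) (by norm_num) (by norm_num) (by norm_num) (by norm_num)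
    (expn 11 0.4868 (by norm_num) (by norm_num) (E := 0.000010282) (by norm_num) (by norm_num)) (by norm_num) (by norm_num) (by norm_num) (by norm_num) (by norm_num) (by norm_num) (by norm_num) (by norm_num)
    (expn 8 0.9699 (by norm_num) (by norm_num) (E := 0.00012941) (by norm_num) (by norm_num)) (by norm_num) (by norm_num)


theorem x3R (H : D6 β r t κ s h T) (B : BX6 0.3 0.45 0.37423 0.27522 10 0.045 9.1195 β r κ T) (h1 : 0.58 ≤ s) (h2 : s ≤ 1) :
    ‖Xf β r h (t) 3‖ ≤ 0.000926 * ‖Xf β r h t 0‖ := by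
  have hr := rgR (a := 2) (τ1 := 2.7017) (τm := 3.1416) H.h1 H.h2 h1 h2 (by norm_num) (by norm_num) (by norm_num)
  have e : (s + ((3 : ℤ) : ℝ) - 1) * h + 2 * Real.pi * ((0 : ℤ) : ℝ) = (s + 2) * h := by push_cast; ring
  exact cellU (k := 3) (Y := ‖Xf β r h t 0‖) (g := 0.5802 * (s - 1) ^ 2) 0 0.3 0.45 2.2516 3.1416 0.01 10 0.045 0.7284 0.01 1.806 0.9199 1.09663 0.10235 0.8784 0.897 3.1623 0.00014227 0.000926
    H.hβ H.hκ H.hs H.hT H.h0 H.hq2 (by norm_num) B.hk1 B.hk2 (by rw [e]; linarith [hr.1, B.hk2]) (by rw [e]; exact hr.2)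
    B.hR B.hb (x0loG H B (by linarith) (by linarith)) (by positivity) (gD (by norm_num) (by linarith : 0.58 ≤ s) (by linarith) (by norm_num))
    (by norm_num) (by norm_num) (by norm_num) (by norm_num) (by norm_num) (by norm_num) (by norm_num) (by norm_num) (by norm_num) (by norm_num) (by norm_num) (by norm_num) (by norm_num) (by norm_num) (by norm_num) (by norm_num) (by norm_num) (by norm_num) (by norm_num) 
    (expn 8 0.8699 (by norm_num) (by norm_num) (E := 0.00014227) (by norm_num) (by norm_num)) (by norm_num) (by norm_num)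


theorem x0lg0 (H : D6 β r t κ s h T) (B : BX6 0.3 0.45 0.37423 0.27522 10 0.045 9.1195 β r κ T) (h1 : 0.58 ≤ s) (h2 : s ≤ 0.65) :
    eN r κ * (0.9575 * Real.exp (-(T * (0.5802 * (s - 1) ^ 2)))) ≤ ‖Xf β r h t 0‖ := by
  have hr := rgL (a := (-1)) (b1 := 0.3665) (b2 := 0.4399) H.h1 H.h2 h1 h2 (by norm_num) (by norm_num) (by norm_num)
  have e : (s + -1) * h = (t - h) + κ := by rw [H.a0]; ring
  rw [e] at hr
  obtain ⟨ha, hb⟩ := hr
  have hD := H.dom' (t' := t - h) (by linarith) (by linarith)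
  have hk1 := B.hk1
  have hk2 := B.hk2
  have hk0 := H.k0
  have hy1 : -0.204 ≤ sy κ (t - h) := syL_ge hD 0.3 0.45 0.4399 0.204 0.81546 0.81547 0.3696 0.36967 0.55452 hk1 hk2 (by linarith) (by norm_num) (by norm_num) (by norm_num)
    (expm_ge (by norm_num) (by norm_num) (by norm_num) (by norm_num)) (expm_le (by norm_num) (by norm_num) (by norm_num)) (by norm_num)
    (by norm_num) (by norm_num) (by norm_num) (by norm_num) (by norm_num) (by norm_num)
  have hy2 : sy κ (t - h) ≤ -0.115 := syL_le hD 0.3 0.45 0.3665 0.115 0.89136 0.89137 0.22779 0.3417 hk1 hk2 (by linarith) (by norm_num) (by norm_num) (by norm_num)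
    (expm_ge (by norm_num) (by norm_num) (by norm_num) (by norm_num)) (expm_le (by norm_num) (by norm_num) (by norm_num)) (by norm_num)
    (by norm_num) (by norm_num) (by norm_num) (by norm_num) (by norm_num) (by norm_num)
  exact H.x0lo hD (ε := 0.08) (c := 0.5802) (d := 0.8523) (l := 0.9575) (by norm_num) (JB6_k0a hD H.hβ H.hk1 H.hk2 (by linarith) (by linarith) H.ble H.bc')
    (V0_lo hD 0.5802 0.4399 0.1452 0.0237 0.7723 0.37423 (by linarith) (by linarith) (by norm_num) (fa1 B) (fa2 B) (fa3 B) (fa4 H B) (by norm_num) (by norm_num) (by norm_num) (by norm_num) (by norm_num))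
    (D_up6 hD 0.3 0.45 (-0.204) (-0.115) 1.2263 1.12188 0.8523 hk1 hk2 (by norm_num) hy1 hy2 (by norm_num) (by rw [neg_neg]; exact expn_le (by norm_num) (by norm_num) (by norm_num)) (by rw [neg_neg]; exact expn_le (by norm_num) (by norm_num) (by norm_num)) (by norm_num) (by norm_num) (by norm_num) (by norm_num)) (by norm_num) (by norm_num)


theorem xm1R0 (H : D6 β r t κ s h T) (B : BX6 0.3 0.45 0.37423 0.27522 10 0.045 9.1195 β r κ T) (h1 : 0.58 ≤ s) (h2 : s ≤ 0.65) :
    ‖Xf β r h (t) (-1)‖ ≤ (0.00306 + 0.000574) * ‖Xf β r h t 0‖ := by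
  have hr := rgL (a := (-2)) (b1 := 1.4137) (b2 := 1.4871) H.h1 H.h2 h1 h2 (by norm_num) (by norm_num) (by norm_num)
  have e : s + ((-1 : ℤ) : ℝ) - 1 = s + (-2) := by push_cast; ring
  exact cellL (k := -1) (Y := ‖Xf β r h t 0‖) (g := 0.5802 * (s - 1) ^ 2) 0.67 0.4742 0.3 0.45 0.37423 0.27522 1.4137 1.4871 _ _ _ _ _ 0.01012 4.0437 10 0.045 0.7284 0 1.2815 0.9575 0.79315 9.1195 0.00072236 0.00306 1.09663 0.10235 0.9143 0.897 3.1623 0.00012941 0.000574
    H.hβ H.hκ H.hs H.hT H.h0 H.hq2 (by norm_num) B.hk1 B.hk2 B.hψ B.hψ1 (by rw [e]; exact hr.1) (by rw [e]; exact hr.2)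
    B.hR B.hb B.hT (x0lg0 H B (by linarith) (by linarith)) (by positivity) (gD (by norm_num) (by linarith : 0.58 ≤ s) (by linarith) (by norm_num))
    (by rw [e]; exact qC (s1 := 0.58) (s2 := 0.65) (b := 0) (by norm_num) (by norm_num) h1 h2 (by linarith) (by norm_num) (by norm_num) (by norm_num))
    (by norm_num) (by norm_num) (by norm_num) (by norm_num) rfl rfl (by norm_num) rfl rfl rfl (by norm_num) (by norm_num) (by norm_num) (by norm_num) (by norm_num) (by norm_num) (by norm_num) (by norm_num) (by norm_num) (by norm_num) (by norm_num) (by norm_num) (by norm_num) (by norm_num) (by norm_num) (by norm_num) (by norm_num) (by norm_num)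
    (expn 7 0.2331 (by norm_num) (by norm_num) (E := 0.00072236) (by norm_num) (by norm_num)) (by norm_num) (by norm_num) (by norm_num) (by norm_num) (by norm_num) (by norm_num) (by norm_num) (by norm_num)
    (expn 8 0.9699 (by norm_num) (by norm_num) (E := 0.00012941) (by norm_num) (by norm_num)) (by norm_num) (by norm_num)


theorem x0lg1 (H : D6 β r t κ s h T) (B : BX6 0.3 0.45 0.37423 0.27522 10 0.045 9.1195 β r κ T) (h1 : 0.65 ≤ s) (h2 : s ≤ 1) :
    eN r κ * (0.9199 * Real.exp (-(T * (0.564 * (s - 1) ^ 2)))) ≤ ‖Xf β r h t 0‖ := by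
  have hr := rgL (a := (-1)) (b1 := 0) (b2 := 0.3666) H.h1 H.h2 h1 h2 (by norm_num) (by norm_num) (by norm_num)
  have e : (s + -1) * h = (t - h) + κ := by rw [H.a0]; ring
  rw [e] at hr
  obtain ⟨ha, hb⟩ := hr
  have hD := H.dom' (t' := t - h) (by linarith) (by linarith)
  have hk1 := B.hk1
  have hk2 := B.hk2
  have hk0 := H.k0
  have hy1 : -0.164 ≤ sy κ (t - h) := syL_ge hD 0.3 0.45 0.3666 0.164 0.84874 0.84875 0.2964 0.30931 0.46399 hk1 hk2 (by linarith) (by norm_num) (by norm_num) (by norm_num)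
    (expm_ge (by norm_num) (by norm_num) (by norm_num) (by norm_num)) (expm_le (by norm_num) (by norm_num) (by norm_num)) (by norm_num)
    (by norm_num) (by norm_num) (by norm_num) (by norm_num) (by norm_num) (by norm_num)
  have hy2 : sy κ (t - h) ≤ 0 := sy_nonpos hD (by linarith)
  exact H.x0lo hD (ε := 0.08) (c := 0.564) (d := 1.0001) (l := 0.9199) (by norm_num) (JB6_k0a hD H.hβ H.hk1 H.hk2 (by linarith) (by linarith) H.ble H.bc')
    (V0_lo hD 0.564 0.3666 0.1452 0.0237 0.7723 0.37423 (by linarith) (by linarith) (by norm_num) (fa1 B) (fa2 B) (fa3 B) (fa4 H B) (by norm_num) (by norm_num) (by norm_num) (by norm_num) (by norm_num))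
    (D_up6 hD 0.3 0.45 (-0.164) 0 1.17822 1 1.0001 hk1 hk2 (by norm_num) hy1 hy2 (by norm_num) (by rw [neg_neg]; exact expn_le (by norm_num) (by norm_num) (by norm_num)) (by simp) (by norm_num) (by norm_num) (by norm_num) (by norm_num)) (by norm_num) (by norm_num)


theorem xm1R1 (H : D6 β r t κ s h T) (B : BX6 0.3 0.45 0.37423 0.27522 10 0.045 9.1195 β r κ T) (h1 : 0.65 ≤ s) (h2 : s ≤ 1) :
    ‖Xf β r h (t) (-1)‖ ≤ (0.06506 + 0.002559) * ‖Xf β r h t 0‖ := by
  have hr := rgL (a := (-2)) (b1 := 1.0471) (b2 := 1.4138) H.h1 H.h2 h1 h2 (by norm_num) (by norm_num) (by norm_num)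
  have e : s + ((-1 : ℤ) : ℝ) - 1 = s + (-2) := by push_cast; ring
  exact cellL (k := -1) (Y := ‖Xf β r h t 0‖) (g := 0.564 * (s - 1) ^ 2) 0.63 0.447 0.3 0.45 0.37423 0.27522 1.0471 1.4138 _ _ _ _ _ 0.0175 3.5263 10 0.045 0.7284 0.1828 1.2524 0.9199 0.44699 9.1195 0.016971 0.06506 1.09663 0.0691 0.8784 0.9304 3.1623 0.00056741 0.002559
    H.hβ H.hκ H.hs H.hT H.h0 H.hq2 (by norm_num) B.hk1 B.hk2 B.hψ B.hψ1 (by rw [e]; exact hr.1) (by rw [e]; exact hr.2)
    B.hR B.hb B.hT (x0lg1 H B (by linarith) (by linarith)) (by positivity) (gD (by norm_num) (by linarith : 0.65 ≤ s) (by linarith) (by norm_num))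
    (by rw [e]; exact qC (s1 := 0.65) (s2 := 1) (b := 0) (by norm_num) (by norm_num) h1 h2 (by linarith) (by norm_num) (by norm_num) (by norm_num))
    (by norm_num) (by norm_num) (by norm_num) (by norm_num) rfl rfl (by norm_num) rfl rfl rfl (by norm_num) (by norm_num) (by norm_num) (by norm_num) (by norm_num) (by norm_num) (by norm_num) (by norm_num) (by norm_num) (by norm_num) (by norm_num) (by norm_num) (by norm_num) (by norm_num) (by norm_num) (by norm_num) (by norm_num) (by norm_num)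
    (expn 4 0.0763 (by norm_num) (by norm_num) (E := 0.016971) (by norm_num) (by norm_num)) (by norm_num) (by norm_num) (by norm_num) (by norm_num) (by norm_num) (by norm_num) (by norm_num) (by norm_num)
    (expn 7 0.4759 (by norm_num) (by norm_num) (E := 0.00056741) (by norm_num) (by norm_num)) (by norm_num) (by norm_num)


theorem x0lo0 (H : D6 β r t κ s h T) (B : BX6 0.3 0.45 0.37423 0.27522 10 0.045 9.1195 β r κ T) (h1 : 0.58 ≤ s) (h2 : s ≤ 0.6) :
    eN r κ * (0.9641 * Real.exp (-(T * (0.5802 * (s - 1) ^ 2)))) ≤ ‖Xf β r h t 0‖ := by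
  have hr := rgL (a := (-1)) (b1 := 0.4188) (b2 := 0.4399) H.h1 H.h2 h1 h2 (by norm_num) (by norm_num) (by norm_num)
  have e : (s + -1) * h = (t - h) + κ := by rw [H.a0]; ring
  rw [e] at hr
  obtain ⟨ha, hb⟩ := hr
  have hD := H.dom' (t' := t - h) (by linarith) (by linarith)
  have hk1 := B.hk1
  have hk2 := B.hk2
  have hk0 := H.k0
  have hy1 : -0.204 ≤ sy κ (t - h) := syL_ge hD 0.3 0.45 0.4399 0.204 0.81546 0.81547 0.3696 0.36967 0.55452 hk1 hk2 (by linarith) (by norm_num) (by norm_num) (by norm_num)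
    (expm_ge (by norm_num) (by norm_num) (by norm_num) (by norm_num)) (expm_le (by norm_num) (by norm_num) (by norm_num)) (by norm_num)
    (by norm_num) (by norm_num) (by norm_num) (by norm_num) (by norm_num) (by norm_num)
  have hy2 : sy κ (t - h) ≤ -0.134 := syL_le hD 0.3 0.45 0.4188 0.134 0.87459 0.8746 0.26043 0.39066 hk1 hk2 (by linarith) (by norm_num) (by norm_num) (by norm_num)
    (expm_ge (by norm_num) (by norm_num) (by norm_num) (by norm_num)) (expm_le (by norm_num) (by norm_num) (by norm_num)) (by norm_num)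
    (by norm_num) (by norm_num) (by norm_num) (by norm_num) (by norm_num) (by norm_num)
  exact H.x0lo hD (ε := 0.08) (c := 0.5802) (d := 0.8289) (l := 0.9641) (by norm_num) (JB6_k0a hD H.hβ H.hk1 H.hk2 (by linarith) (by linarith) H.ble H.bc')
    (V0_lo hD 0.5802 0.4399 0.1452 0.0237 0.7723 0.37423 (by linarith) (by linarith) (by norm_num) (fa1 B) (fa2 B) (fa3 B) (fa4 H B) (by norm_num) (by norm_num) (by norm_num) (by norm_num) (by norm_num))
    (D_up6 hD 0.3 0.45 (-0.204) (-0.134) 1.2263 1.1434 0.8289 hk1 hk2 (by norm_num) hy1 hy2 (by norm_num) (by rw [neg_neg]; exact expn_le (by norm_num) (by norm_num) (by norm_num)) (by rw [neg_neg]; exact expn_le (by norm_num) (by norm_num) (by norm_num)) (by norm_num) (by norm_num) (by norm_num) (by norm_num)) (by norm_num) (by norm_num)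


theorem x1R0 (H : D6 β r t κ s h T) (B : BX6 0.3 0.45 0.37423 0.27522 10 0.045 9.1195 β r κ T) (h1 : 0.58 ≤ s) (h2 : s ≤ 0.6) :
    ‖Xf β r h t 1‖ ≤ 0.7601 * ‖Xf β r h t 0‖ := by
  have hr := rgR (a := 0) (τ1 := 0.6073) (τm := 0.6284) H.h1 H.h2 h1 h2 (by norm_num) (by norm_num) (by norm_num)
  rw [add_zero, ← H.hs] at hr
  obtain ⟨ha, hb⟩ := hr
  have hD := H.dom' (t' := t) (by linarith) (by linarith)
  have hk1 := B.hk1
  have hk2 := B.hk2
  have hk0 := H.k0
  have hy1 : 0.132 ≤ sy κ t := syR_ge hD 0.3 0.45 0.6073 0.132 1.1411 1.14111 0.33472 0.50209 hk1 hk2 (by linarith) (by norm_num) (by norm_num)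
    (expn_ge (by norm_num) (by norm_num)) (expn_le (by norm_num) (by norm_num) (by norm_num)) (by norm_num)
    (by norm_num) (by norm_num) (by norm_num) (by norm_num) (by norm_num) (by norm_num)
  have hy2 : sy κ t ≤ 0.183 := syR_le hD 0.3 0.45 0.6284 0.183 1.20081 0.4679 0.48832 0.73251 hk1 hk2 (by linarith) (by norm_num) (by norm_num)
    (expn_ge (by norm_num) (by norm_num)) (by norm_num) (by norm_num) (Or.inr ((mul_le_mul_of_nonneg_left (expn_le (E := 1.20082) (by norm_num) (by norm_num) (by norm_num)) (by norm_num)).trans (by norm_num))) (by norm_num) (by norm_num) (by norm_num)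
  have hX := H.x1up hD (ε := 0.06) (c := 0.4112) (d := 1.1804) (U := 1.017) (by norm_num) (JB6_k1b hD H.hβ H.hk1 H.hk2 (by linarith) (by linarith) H.ble H.bc')
    (VR_box6 hD 0.74 0.4112 0.3 0.37423 0.27522 0.6073 0.6284 _ _ _ _ _ ha hb (by norm_num) B.hk1 B.hψ B.hψ1 (by norm_num) (by norm_num) (by norm_num) rfl rfl (by norm_num) rfl rfl rfl (by norm_num) (by norm_num))
    (by norm_num) (D_lo6 hD 0.3 0.45 0.132 0.183 0.132 0.87634 1.1804 hk1 hk2 (by norm_num) hy1 hy2 (expm_ge (by norm_num) (by norm_num) (by norm_num) (by norm_num)) (by norm_num) (by norm_num) (by norm_num) (by norm_num) (by norm_num) (by norm_num)) (by norm_num) (by norm_num)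
  have e0 : s ^ 2 = (s + 0) ^ 2 := by ring
  rw [e0] at hX
  exact cmpT (eN_pos r κ) hX (x0lo0 H B (by linarith) (by linarith)) B.hT (by norm_num) (qD (a := 0) (s1 := 0.58) (q := 0.03598) (by norm_num) (by norm_num) h1 (by linarith) (by norm_num) (by norm_num)) (by norm_num)
    (expn 0 0.3281 (by norm_num) (by norm_num) (E := 0.72056) (by norm_num) (by norm_num)) (by norm_num) (by norm_num) (by norm_num)


theorem x2R0 (H : D6 β r t κ s h T) (B : BX6 0.3 0.45 0.37423 0.27522 10 0.045 9.1195 β r κ T) (h1 : 0.58 ≤ s) (h2 : s ≤ 0.6) :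
    ‖Xf β r h (t) 2‖ ≤ 0.07325 * ‖Xf β r h t 0‖ := by
  have hr := rgR (a := 1) (τ1 := 1.6545) (τm := 1.6756) H.h1 H.h2 h1 h2 (by norm_num) (by norm_num) (by norm_num)
  have e : (s + ((2 : ℤ) : ℝ) - 1) * h + 2 * Real.pi * ((0 : ℤ) : ℝ) = (s + 1) * h := by push_cast; ring
  exact cellU (k := 2) (Y := ‖Xf β r h t 0‖) (g := 0.5802 * (s - 1) ^ 2) 0 0.3 0.45 1.2044 1.6756 0.4 10 0.045 0.7284 0.4 3.0181 0.9641 1.09663 0.10235 0.9206 0.897 3.1623 0.0070654 0.07325
    H.hβ H.hκ H.hs H.hT H.h0 H.hq2 (by norm_num) B.hk1 B.hk2 (by rw [e]; linarith [hr.1, B.hk2]) (by rw [e]; exact hr.2)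
    B.hR B.hb (x0lo0 H B (by linarith) (by linarith)) (by positivity) (gD (by norm_num) (by linarith : 0.58 ≤ s) (by linarith) (by norm_num))
    (by norm_num) (by norm_num) (by norm_num) (by norm_num) (by norm_num) (by norm_num) (by norm_num) (by norm_num) (by norm_num) (by norm_num) (by norm_num) (by norm_num) (by norm_num) (by norm_num) (by norm_num) (by norm_num) (by norm_num) (by norm_num) (by norm_num) 
    (expn 4 0.9699 (by norm_num) (by norm_num) (E := 0.0070654) (by norm_num) (by norm_num)) (by norm_num) (by norm_num)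


theorem outR0 (H : D6 β r t κ s h T) (B : BX6 0.3 0.45 0.37423 0.27522 10 0.045 9.1195 β r κ T) (h1 : 0.58 ≤ s) (h2 : s ≤ 0.6) :
    oth6 β r h t + ‖Xf β r h t 1‖ < ‖Xf β r h t 0‖ := by
  have g1 := xm2R H B (by linarith) (by linarith)
  have g2 := xm1R0 H B (by linarith) (by linarith)
  have g3 := x1R0 H B h1 h2
  have g4 := x2R0 H B h1 h2
  have g5 := x3R H B (by linarith) (by linarith)
  have hY := lt_of_lt_of_le (mul_pos (eN_pos r κ) (by positivity)) (x0lo0 H B h1 h2)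
  unfold oth6
  norm_num at g1 g2 g3 g4 g5 ⊢
  linarith

theorem x0lo1 (H : D6 β r t κ s h T) (B : BX6 0.3 0.45 0.37423 0.27522 10 0.045 9.1195 β r κ T) (h1 : 0.6 ≤ s) (h2 : s ≤ 0.65) :
    eN r κ * (0.9575 * Real.exp (-(T * (0.5754 * (s - 1) ^ 2)))) ≤ ‖Xf β r h t 0‖ := by
  have hr := rgL (a := (-1)) (b1 := 0.3665) (b2 := 0.4189) H.h1 H.h2 h1 h2 (by norm_num) (by norm_num) (by norm_num)
  have e : (s + -1) * h = (t - h) + κ := by rw [H.a0]; ring
  rw [e] at hr
  obtain ⟨ha, hb⟩ := hr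
  have hD := H.dom' (t' := t - h) (by linarith) (by linarith)
  have hk1 := B.hk1
  have hk2 := B.hk2
  have hk0 := H.k0
  have hy1 : -0.192 ≤ sy κ (t - h) := syL_ge hD 0.3 0.45 0.4189 0.192 0.8253 0.82531 0.3521 0.35212 0.5282 hk1 hk2 (by linarith) (by norm_num) (by norm_num) (by norm_num)
    (expm_ge (by norm_num) (by norm_num) (by norm_num) (by norm_num)) (expm_le (by norm_num) (by norm_num) (by norm_num)) (by norm_num)
    (by norm_num) (by norm_num) (by norm_num) (by norm_num) (by norm_num) (by norm_num)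
  have hy2 : sy κ (t - h) ≤ -0.115 := syL_le hD 0.3 0.45 0.3665 0.115 0.89136 0.89137 0.22779 0.3417 hk1 hk2 (by linarith) (by norm_num) (by norm_num) (by norm_num)
    (expm_ge (by norm_num) (by norm_num) (by norm_num) (by norm_num)) (expm_le (by norm_num) (by norm_num) (by norm_num)) (by norm_num)
    (by norm_num) (by norm_num) (by norm_num) (by norm_num) (by norm_num) (by norm_num)
  exact H.x0lo hD (ε := 0.08) (c := 0.5754) (d := 0.8523) (l := 0.9575) (by norm_num) (JB6_k0a hD H.hβ H.hk1 H.hk2 (by linarith) (by linarith) H.ble H.bc')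
    (V0_lo hD 0.5754 0.4189 0.1452 0.0237 0.7723 0.37423 (by linarith) (by linarith) (by norm_num) (fa1 B) (fa2 B) (fa3 B) (fa4 H B) (by norm_num) (by norm_num) (by norm_num) (by norm_num) (by norm_num))
    (D_up6 hD 0.3 0.45 (-0.192) (-0.115) 1.21168 1.12188 0.8523 hk1 hk2 (by norm_num) hy1 hy2 (by norm_num) (by rw [neg_neg]; exact expn_le (by norm_num) (by norm_num) (by norm_num)) (by rw [neg_neg]; exact expn_le (by norm_num) (by norm_num) (by norm_num)) (by norm_num) (by norm_num) (by norm_num) (by norm_num)) (by norm_num) (by norm_num)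


theorem x1R1 (H : D6 β r t κ s h T) (B : BX6 0.3 0.45 0.37423 0.27522 10 0.045 9.1195 β r κ T) (h1 : 0.6 ≤ s) (h2 : s ≤ 0.65) :
    ‖Xf β r h t 1‖ ≤ 0.65145 * ‖Xf β r h t 0‖ := by
  have hr := rgR (a := 0) (τ1 := 0.6283) (τm := 0.6807) H.h1 H.h2 h1 h2 (by norm_num) (by norm_num) (by norm_num)
  rw [add_zero, ← H.hs] at hr
  obtain ⟨ha, hb⟩ := hr
  have hD := H.dom' (t' := t) (by linarith) (by linarith)
  have hk1 := B.hk1
  have hk2 := B.hk2
  have hk0 := H.k0
  have hy1 : 0.136 ≤ sy κ t := syR_ge hD 0.3 0.45 0.6283 0.136 1.14568 1.14569 0.34624 0.51938 hk1 hk2 (by linarith) (by norm_num) (by norm_num)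
    (expn_ge (by norm_num) (by norm_num)) (expn_le (by norm_num) (by norm_num) (by norm_num)) (by norm_num)
    (by norm_num) (by norm_num) (by norm_num) (by norm_num) (by norm_num) (by norm_num)
  have hy2 : sy κ t ≤ 0.194 := syR_le hD 0.3 0.45 0.6807 0.194 1.21409 0.5233 0.5234 0.78512 hk1 hk2 (by linarith) (by norm_num) (by norm_num)
    (expn_ge (by norm_num) (by norm_num)) (by norm_num) (by norm_num) (Or.inr ((mul_le_mul_of_nonneg_left (expn_le (E := 1.2141) (by norm_num) (by norm_num) (by norm_num)) (by norm_num)).trans (by norm_num))) (by norm_num) (by norm_num) (by norm_num)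
  have hX := H.x1up hD (ε := 0.06) (c := 0.4048) (d := 1.186) (U := 1.0158) (by norm_num) (JB6_k1b hD H.hβ H.hk1 H.hk2 (by linarith) (by linarith) H.ble H.bc')
    (VR_box6 hD 0.73 0.4048 0.3 0.37423 0.27522 0.6283 0.6807 _ _ _ _ _ ha hb (by norm_num) B.hk1 B.hψ B.hψ1 (by norm_num) (by norm_num) (by norm_num) rfl rfl (by norm_num) rfl rfl rfl (by norm_num) (by norm_num))
    (by norm_num) (D_lo6 hD 0.3 0.45 0.136 0.194 0.136 0.87284 1.186 hk1 hk2 (by norm_num) hy1 hy2 (expm_ge (by norm_num) (by norm_num) (by norm_num) (by norm_num)) (by norm_num) (by norm_num) (by norm_num) (by norm_num) (by norm_num) (by norm_num)) (by norm_num) (by norm_num)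
  have e0 : s ^ 2 = (s + 0) ^ 2 := by ring
  rw [e0] at hX
  exact cmpT (eN_pos r κ) hX (x0lo1 H B (by linarith) (by linarith)) B.hT (by norm_num) (qD (a := 0) (s1 := 0.6) (q := 0.05366) (by norm_num) (by norm_num) h1 (by linarith) (by norm_num) (by norm_num)) (by norm_num)
    (expn 0 0.4893 (by norm_num) (by norm_num) (E := 0.6140600000000001) (by norm_num) (by norm_num)) (by norm_num) (by norm_num) (by norm_num)


theorem x2R1 (H : D6 β r t κ s h T) (B : BX6 0.3 0.45 0.37423 0.27522 10 0.045 9.1195 β r κ T) (h1 : 0.6 ≤ s) (h2 : s ≤ 0.65) :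
    ‖Xf β r h (t) 2‖ ≤ 0.052791 * ‖Xf β r h t 0‖ := by
  have hr := rgR (a := 1) (τ1 := 1.6755) (τm := 1.7279) H.h1 H.h2 h1 h2 (by norm_num) (by norm_num) (by norm_num)
  have e : (s + ((2 : ℤ) : ℝ) - 1) * h + 2 * Real.pi * ((0 : ℤ) : ℝ) = (s + 1) * h := by push_cast; ring
  exact cellU (k := 2) (Y := ‖Xf β r h t 0‖) (g := 0.5754 * (s - 1) ^ 2) 0 0.3 0.45 1.2254 1.7279 0.38 10 0.045 0.7284 0.38 2.9754 0.9575 1.09663 0.09207 0.9143 0.9073 3.1623 0.0051297 0.052791
    H.hβ H.hκ H.hs H.hT H.h0 H.hq2 (by norm_num) B.hk1 B.hk2 (by rw [e]; linarith [hr.1, B.hk2]) (by rw [e]; exact hr.2)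
    B.hR B.hb (x0lo1 H B (by linarith) (by linarith)) (by positivity) (gD (by norm_num) (by linarith : 0.6 ≤ s) (by linarith) (by norm_num))
    (by norm_num) (by norm_num) (by norm_num) (by norm_num) (by norm_num) (by norm_num) (by norm_num) (by norm_num) (by norm_num) (by norm_num) (by norm_num) (by norm_num) (by norm_num) (by norm_num) (by norm_num) (by norm_num) (by norm_num) (by norm_num) (by norm_num) 
    (expn 5 0.2729 (by norm_num) (by norm_num) (E := 0.0051297) (by norm_num) (by norm_num)) (by norm_num) (by norm_num)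


theorem outR1 (H : D6 β r t κ s h T) (B : BX6 0.3 0.45 0.37423 0.27522 10 0.045 9.1195 β r κ T) (h1 : 0.6 ≤ s) (h2 : s ≤ 0.65) :
    oth6 β r h t + ‖Xf β r h t 1‖ < ‖Xf β r h t 0‖ := by
  have g1 := xm2R H B (by linarith) (by linarith)
  have g2 := xm1R0 H B (by linarith) (by linarith)
  have g3 := x1R1 H B h1 h2
  have g4 := x2R1 H B h1 h2
  have g5 := x3R H B (by linarith) (by linarith)
  have hY := lt_of_lt_of_le (mul_pos (eN_pos r κ) (by positivity)) (x0lo1 H B h1 h2)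
  unfold oth6
  norm_num at g1 g2 g3 g4 g5 ⊢
  linarith

theorem x0lo2 (H : D6 β r t κ s h T) (B : BX6 0.3 0.45 0.37423 0.27522 10 0.045 9.1195 β r κ T) (h1 : 0.65 ≤ s) (h2 : s ≤ 0.75) :
    eN r κ * (0.9452 * Real.exp (-(T * (0.564 * (s - 1) ^ 2)))) ≤ ‖Xf β r h t 0‖ := by
  have hr := rgL (a := (-1)) (b1 := 0.2617) (b2 := 0.3666) H.h1 H.h2 h1 h2 (by norm_num) (by norm_num) (by norm_num)
  have e : (s + -1) * h = (t - h) + κ := by rw [H.a0]; ring
  rw [e] at hr
  obtain ⟨ha, hb⟩ := hr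
  have hD := H.dom' (t' := t - h) (by linarith) (by linarith)
  have hk1 := B.hk1
  have hk2 := B.hk2
  have hk0 := H.k0
  have hy1 : -0.164 ≤ sy κ (t - h) := syL_ge hD 0.3 0.45 0.3666 0.164 0.84874 0.84875 0.2964 0.30931 0.46399 hk1 hk2 (by linarith) (by norm_num) (by norm_num) (by norm_num)
    (expm_ge (by norm_num) (by norm_num) (by norm_num) (by norm_num)) (expm_le (by norm_num) (by norm_num) (by norm_num)) (by norm_num)
    (by norm_num) (by norm_num) (by norm_num) (by norm_num) (by norm_num) (by norm_num)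
  have hy2 : sy κ (t - h) ≤ -0.079 := syL_le hD 0.3 0.45 0.2617 0.079 0.92403 0.92404 0.16221 0.24334 hk1 hk2 (by linarith) (by norm_num) (by norm_num) (by norm_num)
    (expm_ge (by norm_num) (by norm_num) (by norm_num) (by norm_num)) (expm_le (by norm_num) (by norm_num) (by norm_num)) (by norm_num)
    (by norm_num) (by norm_num) (by norm_num) (by norm_num) (by norm_num) (by norm_num)
  exact H.x0lo hD (ε := 0.08) (c := 0.564) (d := 0.8975) (l := 0.9452) (by norm_num) (JB6_k0a hD H.hβ H.hk1 H.hk2 (by linarith) (by linarith) H.ble H.bc')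
    (V0_lo hD 0.564 0.3666 0.1452 0.0237 0.7723 0.37423 (by linarith) (by linarith) (by norm_num) (fa1 B) (fa2 B) (fa3 B) (fa4 H B) (by norm_num) (by norm_num) (by norm_num) (by norm_num) (by norm_num))
    (D_up6 hD 0.3 0.45 (-0.164) (-0.079) 1.17822 1.08221 0.8975 hk1 hk2 (by norm_num) hy1 hy2 (by norm_num) (by rw [neg_neg]; exact expn_le (by norm_num) (by norm_num) (by norm_num)) (by rw [neg_neg]; exact expn_le (by norm_num) (by norm_num) (by norm_num)) (by norm_num) (by norm_num) (by norm_num) (by norm_num)) (by norm_num) (by norm_num)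


theorem x1R2 (H : D6 β r t κ s h T) (B : BX6 0.3 0.45 0.37423 0.27522 10 0.045 9.1195 β r κ T) (h1 : 0.65 ≤ s) (h2 : s ≤ 0.75) :
    ‖Xf β r h t 1‖ ≤ 0.44992 * ‖Xf β r h t 0‖ := by
  have hr := rgR (a := 0) (τ1 := 0.6806) (τm := 0.7854) H.h1 H.h2 h1 h2 (by norm_num) (by norm_num) (by norm_num)
  rw [add_zero, ← H.hs] at hr
  obtain ⟨ha, hb⟩ := hr
  have hD := H.dom' (t' := t) (by linarith) (by linarith)
  have hk1 := B.hk1
  have hk2 := B.hk2
  have hk0 := H.k0
  have hy1 : 0.144 ≤ sy κ t := syR_ge hD 0.3 0.45 0.6806 0.144 1.15488 1.15489 0.36956 0.55435 hk1 hk2 (by linarith) (by norm_num) (by norm_num)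
    (expn_ge (by norm_num) (by norm_num)) (expn_le (by norm_num) (by norm_num) (by norm_num)) (by norm_num)
    (by norm_num) (by norm_num) (by norm_num) (by norm_num) (by norm_num) (by norm_num)
  have hy2 : sy κ t ≤ 0.216 := syR_le hD 0.3 0.45 0.7854 0.216 1.2411 0.5708 0.59572 0.8936 hk1 hk2 (by linarith) (by norm_num) (by norm_num)
    (expn_ge (by norm_num) (by norm_num)) (by norm_num) (by norm_num) (Or.inr ((mul_le_mul_of_nonneg_left (expn_le (E := 1.24111) (by norm_num) (by norm_num) (by norm_num)) (by norm_num)).trans (by norm_num))) (by norm_num) (by norm_num) (by norm_num)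
  have hX := H.x1up hD (ε := 0.06) (c := 0.3922) (d := 1.1973) (U := 1.0134) (by norm_num) (JB6_k1b hD H.hβ H.hk1 H.hk2 (by linarith) (by linarith) H.ble H.bc')
    (VR_box6 hD 0.69 0.3922 0.3 0.37423 0.27522 0.6806 0.7854 _ _ _ _ _ ha hb (by norm_num) B.hk1 B.hψ B.hψ1 (by norm_num) (by norm_num) (by norm_num) rfl rfl (by norm_num) rfl rfl rfl (by norm_num) (by norm_num))
    (by norm_num) (D_lo6 hD 0.3 0.45 0.144 0.216 0.144 0.86588 1.1973 hk1 hk2 (by norm_num) hy1 hy2 (expm_ge (by norm_num) (by norm_num) (by norm_num) (by norm_num)) (by norm_num) (by norm_num) (by norm_num) (by norm_num) (by norm_num) (by norm_num)) (by norm_num) (by norm_num)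
  have e0 : s ^ 2 = (s + 0) ^ 2 := by ring
  rw [e0] at hX
  exact cmpT (eN_pos r κ) hX (x0lo2 H B (by linarith) (by linarith)) B.hT (by norm_num) (qD (a := 0) (s1 := 0.65) (q := 0.09661) (by norm_num) (by norm_num) h1 (by linarith) (by norm_num) (by norm_num)) (by norm_num)
    (expn 0 0.881 (by norm_num) (by norm_num) (E := 0.41964) (by norm_num) (by norm_num)) (by norm_num) (by norm_num) (by norm_num)


theorem x2R2 (H : D6 β r t κ s h T) (B : BX6 0.3 0.45 0.37423 0.27522 10 0.045 9.1195 β r κ T) (h1 : 0.65 ≤ s) (h2 : s ≤ 0.75) :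
    ‖Xf β r h (t) 2‖ ≤ 0.024914 * ‖Xf β r h t 0‖ := by
  have hr := rgR (a := 1) (τ1 := 1.7278) (τm := 1.8326) H.h1 H.h2 h1 h2 (by norm_num) (by norm_num) (by norm_num)
  have e : (s + ((2 : ℤ) : ℝ) - 1) * h + 2 * Real.pi * ((0 : ℤ) : ℝ) = (s + 1) * h := by push_cast; ring
  exact cellU (k := 2) (Y := ‖Xf β r h t 0‖) (g := 0.564 * (s - 1) ^ 2) 0 0.3 0.45 1.2777 1.8326 0.33 10 0.045 0.7284 0.33 2.8799 0.9452 1.09663 0.0691 0.9026 0.9304 3.1623 0.0024692 0.024914
    H.hβ H.hκ H.hs H.hT H.h0 H.hq2 (by norm_num) B.hk1 B.hk2 (by rw [e]; linarith [hr.1, B.hk2]) (by rw [e]; exact hr.2)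
    B.hR B.hb (x0lo2 H B (by linarith) (by linarith)) (by positivity) (gD (by norm_num) (by linarith : 0.65 ≤ s) (by linarith) (by norm_num))
    (by norm_num) (by norm_num) (by norm_num) (by norm_num) (by norm_num) (by norm_num) (by norm_num) (by norm_num) (by norm_num) (by norm_num) (by norm_num) (by norm_num) (by norm_num) (by norm_num) (by norm_num) (by norm_num) (by norm_num) (by norm_num) (by norm_num) 
    (expn 6 0.0039 (by norm_num) (by norm_num) (E := 0.0024692) (by norm_num) (by norm_num)) (by norm_num) (by norm_num)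


theorem outR2 (H : D6 β r t κ s h T) (B : BX6 0.3 0.45 0.37423 0.27522 10 0.045 9.1195 β r κ T) (h1 : 0.65 ≤ s) (h2 : s ≤ 0.75) :
    oth6 β r h t + ‖Xf β r h t 1‖ < ‖Xf β r h t 0‖ := by
  have g1 := xm2R H B (by linarith) (by linarith)
  have g2 := xm1R1 H B (by linarith) (by linarith)
  have g3 := x1R2 H B h1 h2
  have g4 := x2R2 H B h1 h2
  have g5 := x3R H B (by linarith) (by linarith)
  have hY := lt_of_lt_of_le (mul_pos (eN_pos r κ) (by positivity)) (x0lo2 H B h1 h2)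
  unfold oth6
  norm_num at g1 g2 g3 g4 g5 ⊢
  linarith

theorem x0lo3 (H : D6 β r t κ s h T) (B : BX6 0.3 0.45 0.37423 0.27522 10 0.045 9.1195 β r κ T) (h1 : 0.75 ≤ s) (h2 : s ≤ 1) :
    eN r κ * (0.9199 * Real.exp (-(T * (0.5432 * (s - 1) ^ 2)))) ≤ ‖Xf β r h t 0‖ := by
  have hr := rgL (a := (-1)) (b1 := 0) (b2 := 0.2618) H.h1 H.h2 h1 h2 (by norm_num) (by norm_num) (by norm_num)
  have e : (s + -1) * h = (t - h) + κ := by rw [H.a0]; ring
  rw [e] at hr
  obtain ⟨ha, hb⟩ := hr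
  have hD := H.dom' (t' := t - h) (by linarith) (by linarith)
  have hk1 := B.hk1
  have hk2 := B.hk2
  have hk0 := H.k0
  have hy1 : -0.111 ≤ sy κ (t - h) := syL_ge hD 0.3 0.45 0.2618 0.111 0.89493 0.89494 0.2115 0.22074 0.33113 hk1 hk2 (by linarith) (by norm_num) (by norm_num) (by norm_num)
    (expm_ge (by norm_num) (by norm_num) (by norm_num) (by norm_num)) (expm_le (by norm_num) (by norm_num) (by norm_num)) (by norm_num)
    (by norm_num) (by norm_num) (by norm_num) (by norm_num) (by norm_num) (by norm_num)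
  have hy2 : sy κ (t - h) ≤ 0 := sy_nonpos hD (by linarith)
  exact H.x0lo hD (ε := 0.08) (c := 0.5432) (d := 1.0001) (l := 0.9199) (by norm_num) (JB6_k0a hD H.hβ H.hk1 H.hk2 (by linarith) (by linarith) H.ble H.bc')
    (V0_lo hD 0.5432 0.2618 0.1452 0.0237 0.7723 0.37423 (by linarith) (by linarith) (by norm_num) (fa1 B) (fa2 B) (fa3 B) (fa4 H B) (by norm_num) (by norm_num) (by norm_num) (by norm_num) (by norm_num))
    (D_up6 hD 0.3 0.45 (-0.111) 0 1.1174 1 1.0001 hk1 hk2 (by norm_num) hy1 hy2 (by norm_num) (by rw [neg_neg]; exact expn_le (by norm_num) (by norm_num) (by norm_num)) (by simp) (by norm_num) (by norm_num) (by norm_num) (by norm_num)) (by norm_num) (by norm_num)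


theorem x1R3 (H : D6 β r t κ s h T) (B : BX6 0.3 0.45 0.37423 0.27522 10 0.045 9.1195 β r κ T) (h1 : 0.75 ≤ s) (h2 : s ≤ 1) :
    ‖Xf β r h t 1‖ ≤ 0.23307 * ‖Xf β r h t 0‖ := by
  have hr := rgR (a := 0) (τ1 := 0.7853) (τm := 1.0472) H.h1 H.h2 h1 h2 (by norm_num) (by norm_num) (by norm_num)
  rw [add_zero, ← H.hs] at hr
  obtain ⟨ha, hb⟩ := hr
  have hD := H.dom' (t' := t) (by linarith) (by linarith)
  have hk1 := B.hk1
  have hk2 := B.hk2
  have hk0 := H.k0
  have hy1 : 0.159 ≤ sy κ t := syR_ge hD 0.3 0.45 0.7853 0.159 1.17233 1.17234 0.41422 0.62135 hk1 hk2 (by linarith) (by norm_num) (by norm_num)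
    (expn_ge (by norm_num) (by norm_num)) (expn_le (by norm_num) (by norm_num) (by norm_num)) (by norm_num)
    (by norm_num) (by norm_num) (by norm_num) (by norm_num) (by norm_num) (by norm_num)
  have hy2 : sy κ t ≤ 0.263 := syR_le hD 0.3 0.45 1.0472 0.263 1.30082 0.7202 0.76025 1 hk1 hk2 (by linarith) (by norm_num) (by norm_num)
    (expn_ge (by norm_num) (by norm_num)) (by norm_num) (by norm_num) (Or.inl (by norm_num)) (by norm_num) (by norm_num) (by norm_num)
  have hX := H.x1up hD (ε := 0.06) (c := 0.3628) (d := 1.2185) (U := 1.009) (by norm_num) (JB6_k1b hD H.hβ H.hk1 H.hk2 (by linarith) (by linarith) H.ble H.bc')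
    (VR_box6 hD 0.61 0.3628 0.3 0.37423 0.27522 0.7853 1.0472 _ _ _ _ _ ha hb (by norm_num) B.hk1 B.hψ B.hψ1 (by norm_num) (by norm_num) (by norm_num) rfl rfl (by norm_num) rfl rfl rfl (by norm_num) (by norm_num))
    (by norm_num) (D_lo6 hD 0.3 0.45 0.159 0.263 0.159 0.85299 1.2185 hk1 hk2 (by norm_num) hy1 hy2 (expm_ge (by norm_num) (by norm_num) (by norm_num) (by norm_num)) (by norm_num) (by norm_num) (by norm_num) (by norm_num) (by norm_num) (by norm_num)) (by norm_num) (by norm_num)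
  have e0 : s ^ 2 = (s + 0) ^ 2 := by ring
  rw [e0] at hX
  exact cmpT (eN_pos r κ) hX (x0lo3 H B (by linarith) (by linarith)) B.hT (by norm_num) (qD (a := 0) (s1 := 0.75) (q := 0.17012) (by norm_num) (by norm_num) h1 (by linarith) (by norm_num) (by norm_num)) (by norm_num)
    (expn 1 0.5514 (by norm_num) (by norm_num) (E := 0.21248) (by norm_num) (by norm_num)) (by norm_num) (by norm_num) (by norm_num)


theorem x2R3 (H : D6 β r t κ s h T) (B : BX6 0.3 0.45 0.37423 0.27522 10 0.045 9.1195 β r κ T) (h1 : 0.75 ≤ s) (h2 : s ≤ 1) :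
    ‖Xf β r h (t) 2‖ ≤ 0.006132 * ‖Xf β r h t 0‖ := by
  have hr := rgR (a := 1) (τ1 := 1.8325) (τm := 2.0944) H.h1 H.h2 h1 h2 (by norm_num) (by norm_num) (by norm_num)
  have e : (s + ((2 : ℤ) : ℝ) - 1) * h + 2 * Real.pi * ((0 : ℤ) : ℝ) = (s + 1) * h := by push_cast; ring
  exact cellU (k := 2) (Y := ‖Xf β r h t 0‖) (g := 0.5432 * (s - 1) ^ 2) 0 0.3 0.45 1.3824 2.0944 0.22 10 0.045 0.7284 0.22 2.9488 0.9199 1.09663 0.03396 0.8784 0.9658 3.1623 0.00057761 0.006132
    H.hβ H.hκ H.hs H.hT H.h0 H.hq2 (by norm_num) B.hk1 B.hk2 (by rw [e]; linarith [hr.1, B.hk2]) (by rw [e]; exact hr.2)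
    B.hR B.hb (x0lo3 H B (by linarith) (by linarith)) (by positivity) (gD (by norm_num) (by linarith : 0.75 ≤ s) (by linarith) (by norm_num))
    (by norm_num) (by norm_num) (by norm_num) (by norm_num) (by norm_num) (by norm_num) (by norm_num) (by norm_num) (by norm_num) (by norm_num) (by norm_num) (by norm_num) (by norm_num) (by norm_num) (by norm_num) (by norm_num) (by norm_num) (by norm_num) (by norm_num) 
    (expn 7 0.4579 (by norm_num) (by norm_num) (E := 0.00057761) (by norm_num) (by norm_num)) (by norm_num) (by norm_num)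


theorem outR3 (H : D6 β r t κ s h T) (B : BX6 0.3 0.45 0.37423 0.27522 10 0.045 9.1195 β r κ T) (h1 : 0.75 ≤ s) (h2 : s ≤ 1) :
    oth6 β r h t + ‖Xf β r h t 1‖ < ‖Xf β r h t 0‖ := by
  have g1 := xm2R H B (by linarith) (by linarith)
  have g2 := xm1R1 H B (by linarith) (by linarith)
  have g3 := x1R3 H B h1 h2
  have g4 := x2R3 H B h1 h2
  have g5 := x3R H B (by linarith) (by linarith)
  have hY := lt_of_lt_of_le (mul_pos (eN_pos r κ) (by positivity)) (x0lo3 H B h1 h2)
  unfold oth6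
  norm_num at g1 g2 g3 g4 g5 ⊢
  linarith

end Sok.B6K0
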