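import Pool.Agent.Lib.MP_816dec_an.R1B6C
import Pool.Agent.Lib.MP_816dec_an.JB6a1
import Pool.Agent.Lib.MP_816dec_an.JB6a2
import Pool.Agent.Lib.MP_816dec_an.JB6b1
import Pool.Agent.Lib.MP_816dec_an.JB6b2
import Pool.Agent.Lib.MP_816dec_an.JB6b3
import Pool.Agent.Lib.MP_816dec_an.JB6e1
import Pool.Agent.Lib.MP_816dec_an.JB6e2

/-!
MP_816dec_an (A3, row R1-b6): box [0.45, 0.6] of kappa (generated).
-/

set_option autoImplicit false

open Complex Set Filter Topology Metric

namespace Sok.B6K1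

variable {β r t κ s h T : ℝ}

theorem k3 (B : BX6 0.45 0.6 0.44118 0.37422 10 0.06 8.0633 β r κ T) : κ ^ 2 ≤ 3 := by
  have h1 := B.hk1
  have h2 := B.hk2
  norm_num at h1 h2
  nlinarith

theorem fq (B : BX6 0.45 0.6 0.44118 0.37422 10 0.06 8.0633 β r κ T) : κ * (1 / 2 - κ ^ 2 / 6) ≤ 0.1942 * (1 + κ ^ 2) := by
  have hA : 0 ≤ κ - 0.45 := by have := B.hk1; linarith
  have hB : 0 ≤ 0.6 - κ := by have := B.hk2; linarith
  linarith [mul_nonneg (pow_nonneg hA 0) (pow_nonneg hB 3), mul_nonneg (pow_nonneg hA 1) (pow_nonneg hB 2), mul_nonneg (pow_nonneg hA 2) (pow_nonneg hB 1), mul_nonneg (pow_nonneg hA 3) (pow_nonneg hB 0)]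

theorem fg (B : BX6 0.45 0.6 0.44118 0.37422 10 0.06 8.0633 β r κ T) : 0.0737 * (1 + κ ^ 2) ^ 2 + 9 / 2 * 0.1942 ^ 2 * 0.6075 ≤ κ * (1 / 2 - κ ^ 2 / 6) := by
  have hA : 0 ≤ κ - 0.45 := by have := B.hk1; linarith
  have hB : 0 ≤ 0.6 - κ := by have := B.hk2; linarith
  linarith [mul_nonneg (pow_nonneg hA 0) (pow_nonneg hB 4), mul_nonneg (pow_nonneg hA 1) (pow_nonneg hB 3), mul_nonneg (pow_nonneg hA 2) (pow_nonneg hB 2), mul_nonneg (pow_nonneg hA 3) (pow_nonneg hB 1), mul_nonneg (pow_nonneg hA 4) (pow_nonneg hB 0)]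

theorem fa1 (B : BX6 0.45 0.6 0.44118 0.37422 10 0.06 8.0633 β r κ T) : κ * (1 / 2 - κ ^ 2 / 6) ≤ 0.1475 * (1 + κ ^ 2) ^ 2 := by
  have hA : 0 ≤ κ - 0.45 := by have := B.hk1; linarith
  have hB : 0 ≤ 0.6 - κ := by have := B.hk2; linarith
  linarith [mul_nonneg (pow_nonneg hA 0) (pow_nonneg hB 4), mul_nonneg (pow_nonneg hA 1) (pow_nonneg hB 3), mul_nonneg (pow_nonneg hA 2) (pow_nonneg hB 2), mul_nonneg (pow_nonneg hA 3) (pow_nonneg hB 1), mul_nonneg (pow_nonneg hA 4) (pow_nonneg hB 0)]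

theorem fa2 (B : BX6 0.45 0.6 0.44118 0.37422 10 0.06 8.0633 β r κ T) : κ ^ 4 ≤ 0.0516 * (1 + κ ^ 2) ^ 3 := by
  have hA : 0 ≤ κ - 0.45 := by have := B.hk1; linarith
  have hB : 0 ≤ 0.6 - κ := by have := B.hk2; linarith
  linarith [mul_nonneg (pow_nonneg hA 0) (pow_nonneg hB 6), mul_nonneg (pow_nonneg hA 1) (pow_nonneg hB 5), mul_nonneg (pow_nonneg hA 2) (pow_nonneg hB 4), mul_nonneg (pow_nonneg hA 3) (pow_nonneg hB 3), mul_nonneg (pow_nonneg hA 4) (pow_nonneg hB 2), mul_nonneg (pow_nonneg hA 5) (pow_nonneg hB 1), mul_nonneg (pow_nonneg hA 6) (pow_nonneg hB 0)]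

theorem fa3 (B : BX6 0.45 0.6 0.44118 0.37422 10 0.06 8.0633 β r κ T) : 1 ≤ 0.5752 * (1 + κ ^ 2) ^ 3 := by
  have hA : 0 ≤ κ - 0.45 := by have := B.hk1; linarith
  have hB : 0 ≤ 0.6 - κ := by have := B.hk2; linarith
  linarith [mul_nonneg (pow_nonneg hA 0) (pow_nonneg hB 6), mul_nonneg (pow_nonneg hA 1) (pow_nonneg hB 5), mul_nonneg (pow_nonneg hA 2) (pow_nonneg hB 4), mul_nonneg (pow_nonneg hA 3) (pow_nonneg hB 3), mul_nonneg (pow_nonneg hA 4) (pow_nonneg hB 2), mul_nonneg (pow_nonneg hA 5) (pow_nonneg hB 1), mul_nonneg (pow_nonneg hA 6) (pow_nonneg hB 0)]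

theorem fa4 (H : D6 β r t κ s h T) (B : BX6 0.45 0.6 0.44118 0.37422 10 0.06 8.0633 β r κ T) : κ ≤ 0.44118 * (1 + κ ^ 2) := by
  have h1 := B.hψ
  rwa [div_le_iff₀ H.A0] at h1

theorem mkB (H : D6 β r t κ s h T) (h1 : 0.45 ≤ κ) (h2 : κ ≤ 0.6) : BX6 0.45 0.6 0.44118 0.37422 10 0.06 8.0633 β r κ T := by
  have hA : 0 ≤ κ - 0.45 := by linarith
  have hB : 0 ≤ 0.6 - κ := by linarith
  have hψ : κ / (1 + κ ^ 2) ≤ 0.44118 := by
    rw [div_le_iff₀ H.A0]
    linarith [mul_nonneg (pow_nonneg hA 0) (pow_nonneg hB 2), mul_nonneg (pow_nonneg hA 1) (pow_nonneg hB 1), mul_nonneg (pow_nonneg hA 2) (pow_nonneg hB 0)]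
  have hψ1 : 0.37422 ≤ κ / (1 + κ ^ 2) := by
    rw [le_div_iff₀ H.A0]
    linarith [mul_nonneg (pow_nonneg hA 0) (pow_nonneg hB 2), mul_nonneg (pow_nonneg hA 1) (pow_nonneg hB 1), mul_nonneg (pow_nonneg hA 2) (pow_nonneg hB 0)]
  exact ⟨h1, h2, hψ, hψ1, H.hr, H.b0a h2 (by norm_num), H.T0a h2 (by norm_num) (by norm_num)⟩

theorem x1loG (H : D6 β r t κ s h T) (B : BX6 0.45 0.6 0.44118 0.37422 10 0.06 8.0633 β r κ T) (h1 : 0 ≤ s) (h2 : s ≤ 0.45) :
    eN r κ * (0.8723 * Real.exp (-(T * (0.5 * s ^ 2)))) ≤ ‖Xf β r h t 1‖ := by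
  have hr := rgR (a := 0) (τ1 := 0) (τm := 0.4713) H.h1 H.h2 h1 h2 (by norm_num) (by norm_num) (by norm_num)
  rw [add_zero, ← H.hs] at hr
  obtain ⟨ha, hb⟩ := hr
  have hD := H.dom' (t' := t) (by linarith) (by linarith)
  have hk1 := B.hk1
  have hk2 := B.hk2
  have hk0 := H.k0
  have hy1 : 0 ≤ sy κ t := sy_nonneg hD (by linarith)
  have hy2 : sy κ t ≤ 0.172 := syR_le hD 0.45 0.6 0.4713 0.172 1.18767 0.331 0.34046 0.45396 hk1 hk2 (by linarith) (by norm_num) (by norm_num)
    (expn_ge (by norm_num) (by norm_num)) (by norm_num) (by norm_num) (Or.inr ((mul_le_mul_of_nonneg_left (expn_le (E := 1.18768) (by norm_num) (by norm_num) (by norm_num)) (by norm_num)).trans (by norm_num))) (by norm_num) (by norm_num) (by norm_num)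
  exact H.x1lo hD (ε := 0.08) (c := 0.5) (d := 1.2371) (l := 0.8723) (by norm_num) (by
      rcases le_total (t + κ) 0.05 with g | g
      · exact JB6_k0a hD H.hβ H.hk1 H.hk2 (by linarith) (by linarith) H.ble H.bc'
      · exact (JB6_k1a hD H.hβ H.hk1 H.hk2 (by linarith) (by linarith) H.ble H.bc').trans (by norm_num))
    (V1lo6 hD 0.0737 0 0.6075 _ 0.1942 0.5 (by norm_num) ha (by linarith) (k3 B) rfl (fq B) (by norm_num) (fg B) (by norm_num))
    (D_up6 hD 0.45 0.6 0 0.172 1 0.84198 1.2371 hk1 hk2 (by norm_num) hy1 hy2 (by norm_num) (by simp) (expm_le (by norm_num) (by norm_num) (by norm_num)) (by norm_num) (by norm_num) (by norm_num) (by norm_num)) (by norm_num) (by norm_num)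


theorem xm1L (H : D6 β r t κ s h T) (B : BX6 0.45 0.6 0.44118 0.37422 10 0.06 8.0633 β r κ T) (h1 : 0 ≤ s) (h2 : s ≤ 0.45) :
    ‖Xf β r h (t) (-1)‖ ≤ (0.00063 + 0.00055) * ‖Xf β r h t 1‖ := by
  have hr := rgL (a := (-2)) (b1 := 1.6231) (b2 := 2.0944) H.h1 H.h2 h1 h2 (by norm_num) (by norm_num) (by norm_num)
  have e : s + ((-1 : ℤ) : ℝ) - 1 = s + (-2) := by push_cast; ring
  exact cellL (k := -1) (Y := ‖Xf β r h t 1‖) (g := 0.5 * s ^ 2) 0.7 0.4903 0.45 0.6 0.44118 0.37422 1.6231 2.0944 _ _ _ _ _ 0.02955 3.1901 10 0.06 0.5948 0 1.2264 0.8723 1.07669 8.0633 0.00017058 0.00063 1.09663 0.10126 0.8077 0.9076 3.1623 0.00011439 0.00055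
    H.hβ H.hκ H.hs H.hT H.h0 H.hq2 (by norm_num) B.hk1 B.hk2 B.hψ B.hψ1 (by rw [e]; exact hr.1) (by rw [e]; exact hr.2)
    B.hR B.hb B.hT (x1loG H B (by linarith) (by linarith)) (by positivity) (gA (by norm_num) (by linarith) (by linarith : s ≤ 0.45) (by norm_num))
    (by rw [e]; exact qA (s2 := 0.45) (by norm_num) (by norm_num) (by linarith) h2 (by norm_num) (by norm_num))
    (by norm_num) (by norm_num) (by norm_num) (by norm_num) rfl rfl (by norm_num) rfl rfl rfl (by norm_num) (by norm_num) (by norm_num) (by norm_num) (by norm_num) (by norm_num) (by norm_num) (by norm_num) (by norm_num) (by norm_num) (by norm_num) (by norm_num) (by norm_num) (by norm_num) (by norm_num) (by norm_num) (by norm_num) (by norm_num)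
    (expn 8 0.6816 (by norm_num) (by norm_num) (E := 0.00017058) (by norm_num) (by norm_num)) (by norm_num) (by norm_num) (by norm_num) (by norm_num) (by norm_num) (by norm_num) (by norm_num) (by norm_num)
    (expn 9 0.0759 (by norm_num) (by norm_num) (E := 0.00011439) (by norm_num) (by norm_num)) (by norm_num) (by norm_num)


theorem xm2L (H : D6 β r t κ s h T) (B : BX6 0.45 0.6 0.44118 0.37422 10 0.06 8.0633 β r κ T) (h1 : 0 ≤ s) (h2 : s ≤ 0.45) :
    ‖Xf β r h (t) (-2)‖ ≤ (0.00001 + 0.000497) * ‖Xf β r h t 1‖ := by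
  have hr := rgL (a := (-3)) (b1 := 2.6703) (b2 := 3.1416) H.h1 H.h2 h1 h2 (by norm_num) (by norm_num) (by norm_num)
  have e : s + ((-2 : ℤ) : ℝ) - 1 = s + (-3) := by push_cast; ring
  exact cellL (k := -2) (Y := ‖Xf β r h t 1‖) (g := 0.5 * s ^ 2) 0.3 0.2607 0.45 0.6 0.44118 0.37422 2.6703 3.1416 _ _ _ _ _ 0.18741 2.0102 10 0.06 0.5948 0 1.108 0.8723 1.59395 8.0633 0.0000026497 0.00001 1.09663 0.10126 0.8077 0.9076 3.1623 0.00011439 0.000497
    H.hβ H.hκ H.hs H.hT H.h0 H.hq2 (by norm_num) B.hk1 B.hk2 B.hψ B.hψ1 (by rw [e]; exact hr.1) (by rw [e]; exact hr.2)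
    B.hR B.hb B.hT (x1loG H B (by linarith) (by linarith)) (by positivity) (gA (by norm_num) (by linarith) (by linarith : s ≤ 0.45) (by norm_num))
    (by rw [e]; exact qA (s2 := 0.45) (by norm_num) (by norm_num) (by linarith) h2 (by norm_num) (by norm_num))
    (by norm_num) (by norm_num) (by norm_num) (by norm_num) rfl rfl (by norm_num) rfl rfl rfl (by norm_num) (by norm_num) (by norm_num) (by norm_num) (by norm_num) (by norm_num) (by norm_num) (by norm_num) (by norm_num) (by norm_num) (by norm_num) (by norm_num) (by norm_num) (by norm_num) (by norm_num) (by norm_num) (by norm_num) (by norm_num)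
    (expn 12 0.8524 (by norm_num) (by norm_num) (E := 0.0000026497) (by norm_num) (by norm_num)) (by norm_num) (by norm_num) (by norm_num) (by norm_num) (by norm_num) (by norm_num) (by norm_num) (by norm_num)
    (expn 9 0.0759 (by norm_num) (by norm_num) (E := 0.00011439) (by norm_num) (by norm_num)) (by norm_num) (by norm_num)


theorem x1lo0 (H : D6 β r t κ s h T) (B : BX6 0.45 0.6 0.44118 0.37422 10 0.06 8.0633 β r κ T) (h1 : 0 ≤ s) (h2 : s ≤ 0.25) :
    eN r κ * (0.89 * Real.exp (-(T * (0.5 * s ^ 2)))) ≤ ‖Xf β r h t 1‖ := by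
  have hr := rgR (a := 0) (τ1 := 0) (τm := 0.2618) H.h1 H.h2 h1 h2 (by norm_num) (by norm_num) (by norm_num)
  rw [add_zero, ← H.hs] at hr
  obtain ⟨ha, hb⟩ := hr
  have hD := H.dom' (t' := t) (by linarith) (by linarith)
  have hk1 := B.hk1
  have hk2 := B.hk2
  have hk0 := H.k0
  have hy1 : 0 ≤ sy κ t := sy_nonneg hD (by linarith)
  have hy2 : sy κ t ≤ 0.104 := syR_le hD 0.45 0.6 0.2618 0.104 1.1096 0.1816 0.19233 0.25645 hk1 hk2 (by linarith) (by norm_num) (by norm_num)
    (expn_ge (by norm_num) (by norm_num)) (by norm_num) (by norm_num) (Or.inr ((mul_le_mul_of_nonneg_left (expn_le (E := 1.10961) (by norm_num) (by norm_num) (by norm_num)) (by norm_num)).trans (by norm_num))) (by norm_num) (by norm_num) (by norm_num)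
  exact H.x1lo hD (ε := 0.08) (c := 0.5) (d := 1.1414) (l := 0.89) (by norm_num) (by
      rcases le_total (t + κ) 0.05 with g | g
      · exact JB6_k0a hD H.hβ H.hk1 H.hk2 (by linarith) (by linarith) H.ble H.bc'
      · exact (JB6_k1a hD H.hβ H.hk1 H.hk2 (by linarith) (by linarith) H.ble H.bc').trans (by norm_num))
    (V1lo6 hD 0.0737 0 0.6075 _ 0.1942 0.5 (by norm_num) ha (by linarith) (k3 B) rfl (fq B) (by norm_num) (fg B) (by norm_num))
    (D_up6 hD 0.45 0.6 0 0.104 1 0.90123 1.1414 hk1 hk2 (by norm_num) hy1 hy2 (by norm_num) (by simp) (expm_le (by norm_num) (by norm_num) (by norm_num)) (by norm_num) (by norm_num) (by norm_num) (by norm_num)) (by norm_num) (by norm_num)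


theorem x0L0 (H : D6 β r t κ s h T) (B : BX6 0.45 0.6 0.44118 0.37422 10 0.06 8.0633 β r κ T) (h1 : 0 ≤ s) (h2 : s ≤ 0.25) :
    ‖Xf β r h (t) 0‖ ≤ (0.24785 + 0.005295) * ‖Xf β r h t 1‖ := by
  have hr := rgL (a := (-1)) (b1 := 0.7853) (b2 := 1.0472) H.h1 H.h2 h1 h2 (by norm_num) (by norm_num) (by norm_num)
  have e : s + ((0 : ℤ) : ℝ) - 1 = s + (-1) := by push_cast; ring
  exact cellL (k := 0) (Y := ‖Xf β r h t 1‖) (g := 0.5 * s ^ 2) 1.03 0.5606 0.45 0.6 0.44118 0.37422 0.7853 1.0472 _ _ _ _ _ 0.13575 2.179 10 0.06 0.5948 0.301 1.1186 0.89 0.28408 8.0633 0.10123 0.24785 1.09663 0.03126 0.8241 0.9714 3.1623 0.0012334 0.005295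
    H.hβ H.hκ H.hs H.hT H.h0 H.hq2 (by norm_num) B.hk1 B.hk2 B.hψ B.hψ1 (by rw [e]; exact hr.1) (by rw [e]; exact hr.2)
    B.hR B.hb B.hT (x1lo0 H B (by linarith) (by linarith)) (by positivity) (gA (by norm_num) (by linarith) (by linarith : s ≤ 0.25) (by norm_num))
    (by rw [e]; exact qA (s2 := 0.25) (by norm_num) (by norm_num) (by linarith) h2 (by norm_num) (by norm_num))
    (by norm_num) (by norm_num) (by norm_num) (by norm_num) rfl rfl (by norm_num) rfl rfl rfl (by norm_num) (by norm_num) (by norm_num) (by norm_num) (by norm_num) (by norm_num) (by norm_num) (by norm_num) (by norm_num) (by norm_num) (by norm_num) (by norm_num) (by norm_num) (by norm_num) (by norm_num) (by norm_num) (by norm_num) (by norm_num)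
    (expn 2 0.2906 (by norm_num) (by norm_num) (E := 0.10123) (by norm_num) (by norm_num)) (by norm_num) (by norm_num) (by norm_num) (by norm_num) (by norm_num) (by norm_num) (by norm_num) (by norm_num)
    (expn 6 0.7039 (by norm_num) (by norm_num) (E := 0.0012334) (by norm_num) (by norm_num)) (by norm_num) (by norm_num)


theorem x2L0 (H : D6 β r t κ s h T) (B : BX6 0.45 0.6 0.44118 0.37422 10 0.06 8.0633 β r κ T) (h1 : 0 ≤ s) (h2 : s ≤ 0.25) :
    ‖Xf β r h (t) 2‖ ≤ (0.24772 + 0.039308) * ‖Xf β r h t 1‖ := by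
  have hr := rgR (a := 1) (τ1 := 1.0471) (τm := 1.309) H.h1 H.h2 h1 h2 (by norm_num) (by norm_num) (by norm_num)
  have e : s + ((2 : ℤ) : ℝ) - 1 = s + 1 := by push_cast; ring
  exact cellR (k := 2) (Y := ‖Xf β r h t 1‖) (g := 0.5 * s ^ 2) 0.41 0.3048 0.45 0.6 0.44118 0.37422 1.0471 1.309 _ _ _ _ _ 0.07004 2.571 10 0.06 0.5948 0.5016 1.1175 0.89 0.30479 8.0633 0.08575 0.24772 1.09663 0.03126 0.8241 0.9714 3.1623 0.0091666 0.039308
    H.hβ H.hκ H.hs H.hT H.h0 H.hq2 (by norm_num) B.hk1 B.hk2 B.hψ B.hψ1 (by rw [e]; have h5 := hr.2; have h6 := B.hk1; have h7 := Real.pi_gt_d6; norm_num at h5 h6 h7 ⊢; linarith) (by rw [e]; exact hr.1) (by rw [e]; exact hr.2)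
    B.hR B.hb B.hT (x1lo0 H B (by linarith) (by linarith)) (by positivity) (gA (by norm_num) (by linarith) (by linarith : s ≤ 0.25) (by norm_num))
    (by rw [e]; exact qB (s1 := 0) (s2 := 0.25) (by norm_num) (by norm_num) h1 h2 (le_refl _) (by norm_num) (by norm_num) (by norm_num))
    (by norm_num) (by norm_num) (by norm_num) (by norm_num) rfl rfl (by norm_num) rfl rfl rfl (by norm_num) (by norm_num) (by norm_num) (by norm_num) (by norm_num) (by norm_num) (by norm_num) (by norm_num) (by norm_num) (by norm_num) (by norm_num) (by norm_num) (by norm_num) (by norm_num) (by norm_num) (by norm_num) (by norm_num) (by norm_num) (by norm_num)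
    (expn 2 0.4576 (by norm_num) (by norm_num) (E := 0.08575) (by norm_num) (by norm_num)) (by norm_num) (by norm_num) (by norm_num) (by norm_num) (by norm_num) (by norm_num) (by norm_num) (by norm_num)
    (expn 4 0.6979 (by norm_num) (by norm_num) (E := 0.0091666) (by norm_num) (by norm_num)) (by norm_num) (by norm_num)


theorem x3L0 (H : D6 β r t κ s h T) (B : BX6 0.45 0.6 0.44118 0.37422 10 0.06 8.0633 β r κ T) (h1 : 0 ≤ s) (h2 : s ≤ 0.25) :
    ‖Xf β r h (t) 3‖ ≤ 0.001806 * ‖Xf β r h t 1‖ := by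
  have hr := rgR (a := 2) (τ1 := 2.0943) (τm := 2.3562) H.h1 H.h2 h1 h2 (by norm_num) (by norm_num) (by norm_num)
  have e : (s + ((3 : ℤ) : ℝ) - 1) * h + 2 * Real.pi * ((0 : ℤ) : ℝ) = (s + 2) * h := by push_cast; ring
  exact cellU (k := 3) (Y := ‖Xf β r h t 1‖) (g := 0.5 * s ^ 2) 0 0.45 0.6 1.4942 2.3562 0.11 10 0.06 0.5948 0.11 2.5818 0.89 1.09663 0.03126 0.8241 0.9714 3.1623 0.00018223 0.001806
    H.hβ H.hκ H.hs H.hT H.h0 H.hq2 (by norm_num) B.hk1 B.hk2 (by rw [e]; linarith [hr.1, B.hk2]) (by rw [e]; exact hr.2)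
    B.hR B.hb (x1lo0 H B (by linarith) (by linarith)) (by positivity) (gA (by norm_num) (by linarith) (by linarith : s ≤ 0.25) (by norm_num))
    (by norm_num) (by norm_num) (by norm_num) (by norm_num) (by norm_num) (by norm_num) (by norm_num) (by norm_num) (by norm_num) (by norm_num) (by norm_num) (by norm_num) (by norm_num) (by norm_num) (by norm_num) (by norm_num) (by norm_num) (by norm_num) (by norm_num) 
    (expn 8 0.6139 (by norm_num) (by norm_num) (E := 0.00018223) (by norm_num) (by norm_num)) (by norm_num) (by norm_num)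


theorem outL0 (H : D6 β r t κ s h T) (B : BX6 0.45 0.6 0.44118 0.37422 10 0.06 8.0633 β r κ T) (h1 : 0 ≤ s) (h2 : s ≤ 0.25) :
    oth6 β r h t + ‖Xf β r h t 0‖ < ‖Xf β r h t 1‖ := by
  have g1 := xm2L H B (by linarith) (by linarith)
  have g2 := xm1L H B (by linarith) (by linarith)
  have g3 := x0L0 H B h1 h2
  have g4 := x2L0 H B h1 h2
  have g5 := x3L0 H B h1 h2
  have hY := lt_of_lt_of_le (mul_pos (eN_pos r κ) (by positivity)) (x1lo0 H B h1 h2)
  unfold oth6
  norm_num at g1 g2 g3 g4 g5 ⊢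
  linarith

theorem x1lo1 (H : D6 β r t κ s h T) (B : BX6 0.45 0.6 0.44118 0.37422 10 0.06 8.0633 β r κ T) (h1 : 0.25 ≤ s) (h2 : s ≤ 0.35) :
    eN r κ * (0.914 * Real.exp (-(T * (0.4808 * s ^ 2)))) ≤ ‖Xf β r h t 1‖ := by
  have hr := rgR (a := 0) (τ1 := 0.2617) (τm := 0.3666) H.h1 H.h2 h1 h2 (by norm_num) (by norm_num) (by norm_num)
  rw [add_zero, ← H.hs] at hr
  obtain ⟨ha, hb⟩ := hr
  have hD := H.dom' (t' := t) (by linarith) (by linarith)
  have hk1 := B.hk1
  have hk2 := B.hk2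
  have hk0 := H.k0
  have hy1 : 0.087 ≤ sy κ t := syR_ge hD 0.45 0.6 0.2617 0.087 1.09089 1.0909 0.15817 0.21091 hk1 hk2 (by linarith) (by norm_num) (by norm_num)
    (expn_ge (by norm_num) (by norm_num)) (expn_le (by norm_num) (by norm_num) (by norm_num)) (by norm_num)
    (by norm_num) (by norm_num) (by norm_num) (by norm_num) (by norm_num) (by norm_num)
  have hy2 : sy κ t ≤ 0.14 := syR_le hD 0.45 0.6 0.3666 0.14 1.15027 0.246 0.26839 0.35787 hk1 hk2 (by linarith) (by norm_num) (by norm_num)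
    (expn_ge (by norm_num) (by norm_num)) (by norm_num) (by norm_num) (Or.inr ((mul_le_mul_of_nonneg_left (expn_le (E := 1.15028) (by norm_num) (by norm_num) (by norm_num)) (by norm_num)).trans (by norm_num))) (by norm_num) (by norm_num) (by norm_num)
  exact H.x1lo hD (ε := 0.045) (c := 0.4808) (d := 1.1918) (l := 0.914) (by norm_num) (JB6_k1a hD H.hβ H.hk1 H.hk2 (by linarith) (by linarith) H.ble H.bc')
    (V1lo6 hD 0.0737 0.2617 0.6075 _ 0.1942 0.4808 (by norm_num) ha (by linarith) (k3 B) rfl (fq B) (by norm_num) (fg B) (by norm_num))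
    (D_up6 hD 0.45 0.6 0.087 0.14 0.91668 0.86936 1.1918 hk1 hk2 (by norm_num) hy1 hy2 (by norm_num) (expm_le (by norm_num) (by norm_num) (by norm_num)) (expm_le (by norm_num) (by norm_num) (by norm_num)) (by norm_num) (by norm_num) (by norm_num) (by norm_num)) (by norm_num) (by norm_num)


theorem x0L1 (H : D6 β r t κ s h T) (B : BX6 0.45 0.6 0.44118 0.37422 10 0.06 8.0633 β r κ T) (h1 : 0.25 ≤ s) (h2 : s ≤ 0.35) :
    ‖Xf β r h t 0‖ ≤ 0.4088 * ‖Xf β r h t 1‖ := by
  have hr := rgL (a := (-1)) (b1 := 0.6806) (b2 := 0.7854) H.h1 H.h2 h1 h2 (by norm_num) (by norm_num) (by norm_num)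
  have e : (s + -1) * h = (t - h) + κ := by rw [H.a0]; ring
  rw [e] at hr
  obtain ⟨ha, hb⟩ := hr
  have hD := H.dom' (t' := t - h) (by linarith) (by linarith)
  have hk1 := B.hk1
  have hk2 := B.hk2
  have hk0 := H.k0
  have hy1 : -0.508 ≤ sy κ (t - h) := syL_ge hD 0.45 0.6 0.7854 0.508 0.60169 0.6017 0.5094 0.50943 0.67926 hk1 hk2 (by linarith) (by norm_num) (by norm_num) (by norm_num)
    (expm_ge (by norm_num) (by norm_num) (by norm_num) (by norm_num)) (expm_le (by norm_num) (by norm_num) (by norm_num)) (by norm_num)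
    (by norm_num) (by norm_num) (by norm_num) (by norm_num) (by norm_num) (by norm_num)
  have hy2 : sy κ (t - h) ≤ -0.358 := syL_le hD 0.45 0.6 0.6806 0.358 0.69907 0.69908 0.41711 0.55616 hk1 hk2 (by linarith) (by norm_num) (by norm_num) (by norm_num)
    (expm_ge (by norm_num) (by norm_num) (by norm_num) (by norm_num)) (expm_le (by norm_num) (by norm_num) (by norm_num)) (by norm_num)
    (by norm_num) (by norm_num) (by norm_num) (by norm_num) (by norm_num) (by norm_num)
  have hX := H.x0up hD (ε := 0.2) (c := 0.5404) (d := 0.4518) (U := 1.4637) (by norm_num) (JB6_k0c hD H.hβ H.hk1 H.hk2 (by linarith) (by linarith) H.ble H.bc')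
    (VL_box hD 1.07 0.5404 0.45 0.6 0.44118 0.6806 0.7854 _ _ _ _ ha hb hk1 hk2 B.hψ (by norm_num) (by norm_num) (by norm_num) rfl rfl (by norm_num) rfl rfl (by norm_num) (by norm_num) (by norm_num))
    (by norm_num) (D_lo6 hD 0.45 0.6 (-0.508) (-0.358) (-0.508) 1.66196 0.4518 hk1 hk2 (by norm_num) hy1 hy2 (by rw [neg_neg]; exact expn_ge (by norm_num) (by norm_num)) (by norm_num) (by norm_num) (by norm_num) (by norm_num) (by norm_num) (by norm_num)) (by norm_num) (by norm_num)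
  exact cmpT (eN_pos r κ) hX (x1lo1 H B (by linarith) (by linarith)) B.hT (by norm_num) (qA (a := -1) (s2 := 0.35) (q := 0.16942) (by norm_num) (by norm_num) (by linarith) h2 (by norm_num) (by norm_num)) (by norm_num)
    (expn 1 0.366 (by norm_num) (by norm_num) (E := 0.25527) (by norm_num) (by norm_num)) (by norm_num) (by norm_num) (by norm_num)


theorem x2L1 (H : D6 β r t κ s h T) (B : BX6 0.45 0.6 0.44118 0.37422 10 0.06 8.0633 β r κ T) (h1 : 0.25 ≤ s) (h2 : s ≤ 0.35) :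
    ‖Xf β r h (t) 2‖ ≤ (0.0842 + 0.021126) * ‖Xf β r h t 1‖ := by
  have hr := rgR (a := 1) (τ1 := 1.3089) (τm := 1.4138) H.h1 H.h2 h1 h2 (by norm_num) (by norm_num) (by norm_num)
  have e : s + ((2 : ℤ) : ℝ) - 1 = s + 1 := by push_cast; ring
  exact cellR (k := 2) (Y := ‖Xf β r h t 1‖) (g := 0.4808 * s ^ 2) 0.41 0.3024 0.45 0.6 0.44118 0.37422 1.3089 1.4138 _ _ _ _ _ 0.05601 2.7188 10 0.06 0.5948 0.4155 1.1401 0.914 0.44244 8.0633 0.028305 0.0842 1.09663 0.0589 0.8463 0.9462 3.1623 0.0049588 0.021126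
    H.hβ H.hκ H.hs H.hT H.h0 H.hq2 (by norm_num) B.hk1 B.hk2 B.hψ B.hψ1 (by rw [e]; have h5 := hr.2; have h6 := B.hk1; have h7 := Real.pi_gt_d6; norm_num at h5 h6 h7 ⊢; linarith) (by rw [e]; exact hr.1) (by rw [e]; exact hr.2)
    B.hR B.hb B.hT (x1lo1 H B (by linarith) (by linarith)) (by positivity) (gA (by norm_num) (by linarith) (by linarith : s ≤ 0.35) (by norm_num))
    (by rw [e]; exact qB (s1 := 0.25) (s2 := 0.35) (by norm_num) (by norm_num) h1 h2 (le_refl _) (by norm_num) (by norm_num) (by norm_num))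
    (by norm_num) (by norm_num) (by norm_num) (by norm_num) rfl rfl (by norm_num) rfl rfl rfl (by norm_num) (by norm_num) (by norm_num) (by norm_num) (by norm_num) (by norm_num) (by norm_num) (by norm_num) (by norm_num) (by norm_num) (by norm_num) (by norm_num) (by norm_num) (by norm_num) (by norm_num) (by norm_num) (by norm_num) (by norm_num) (by norm_num)
    (expn 3 0.5675 (by norm_num) (by norm_num) (E := 0.028305) (by norm_num) (by norm_num)) (by norm_num) (by norm_num) (by norm_num) (by norm_num) (by norm_num) (by norm_num) (by norm_num) (by norm_num)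
    (expn 5 0.3069 (by norm_num) (by norm_num) (E := 0.0049588) (by norm_num) (by norm_num)) (by norm_num) (by norm_num)


theorem x3L1 (H : D6 β r t κ s h T) (B : BX6 0.45 0.6 0.44118 0.37422 10 0.06 8.0633 β r κ T) (h1 : 0.25 ≤ s) (h2 : s ≤ 0.35) :
    ‖Xf β r h (t) 3‖ ≤ 0.000526 * ‖Xf β r h t 1‖ := by
  have hr := rgR (a := 2) (τ1 := 2.3561) (τm := 2.461) H.h1 H.h2 h1 h2 (by norm_num) (by norm_num) (by norm_num)
  have e : (s + ((3 : ℤ) : ℝ) - 1) * h + 2 * Real.pi * ((0 : ℤ) : ℝ) = (s + 2) * h := by push_cast; ring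
  exact cellU (k := 3) (Y := ‖Xf β r h t 1‖) (g := 0.4808 * s ^ 2) 0 0.45 0.6 1.756 2.461 0.01 10 0.06 0.5948 0.01 1.6367 0.914 1.09663 0.0589 0.8463 0.9462 3.1623 0.000085983 0.000526
    H.hβ H.hκ H.hs H.hT H.h0 H.hq2 (by norm_num) B.hk1 B.hk2 (by rw [e]; linarith [hr.1, B.hk2]) (by rw [e]; exact hr.2)
    B.hR B.hb (x1lo1 H B (by linarith) (by linarith)) (by positivity) (gA (by norm_num) (by linarith) (by linarith : s ≤ 0.35) (by norm_num))
    (by norm_num) (by norm_num) (by norm_num) (by norm_num) (by norm_num) (by norm_num) (by norm_num) (by norm_num) (by norm_num) (by norm_num) (by norm_num) (by norm_num) (by norm_num) (by norm_num) (by norm_num) (by norm_num) (by norm_num) (by norm_num) (by norm_num) 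
    (expn 9 0.3619 (by norm_num) (by norm_num) (E := 0.000085983) (by norm_num) (by norm_num)) (by norm_num) (by norm_num)


theorem outL1 (H : D6 β r t κ s h T) (B : BX6 0.45 0.6 0.44118 0.37422 10 0.06 8.0633 β r κ T) (h1 : 0.25 ≤ s) (h2 : s ≤ 0.35) :
    oth6 β r h t + ‖Xf β r h t 0‖ < ‖Xf β r h t 1‖ := by
  have g1 := xm2L H B (by linarith) (by linarith)
  have g2 := xm1L H B (by linarith) (by linarith)
  have g3 := x0L1 H B h1 h2
  have g4 := x2L1 H B h1 h2
  have g5 := x3L1 H B h1 h2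
  have hY := lt_of_lt_of_le (mul_pos (eN_pos r κ) (by positivity)) (x1lo1 H B h1 h2)
  unfold oth6
  norm_num at g1 g2 g3 g4 g5 ⊢
  linarith

theorem x1lo2 (H : D6 β r t κ s h T) (B : BX6 0.45 0.6 0.44118 0.37422 10 0.06 8.0633 β r κ T) (h1 : 0.35 ≤ s) (h2 : s ≤ 0.43) :
    eN r κ * (0.907 * Real.exp (-(T * (0.473 * s ^ 2)))) ≤ ‖Xf β r h t 1‖ := by
  have hr := rgR (a := 0) (τ1 := 0.3665) (τm := 0.4503) H.h1 H.h2 h1 h2 (by norm_num) (by norm_num) (by norm_num)
  rw [add_zero, ← H.hs] at hr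
  obtain ⟨ha, hb⟩ := hr
  have hD := H.dom' (t' := t) (by linarith) (by linarith)
  have hk1 := B.hk1
  have hk2 := B.hk2
  have hk0 := H.k0
  have hy1 : 0.117 ≤ sy κ t := syR_ge hD 0.45 0.6 0.3665 0.117 1.12411 1.12412 0.2192 0.29228 hk1 hk2 (by linarith) (by norm_num) (by norm_num)
    (expn_ge (by norm_num) (by norm_num)) (expn_le (by norm_num) (by norm_num) (by norm_num)) (by norm_num)
    (by norm_num) (by norm_num) (by norm_num) (by norm_num) (by norm_num) (by norm_num)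
  have hy2 : sy κ t ≤ 0.166 := syR_le hD 0.45 0.6 0.4503 0.166 1.18057 0.3084 0.32662 0.43551 hk1 hk2 (by linarith) (by norm_num) (by norm_num)
    (expn_ge (by norm_num) (by norm_num)) (by norm_num) (by norm_num) (Or.inr ((mul_le_mul_of_nonneg_left (expn_le (E := 1.18058) (by norm_num) (by norm_num) (by norm_num)) (by norm_num)).trans (by norm_num))) (by norm_num) (by norm_num) (by norm_num)
  exact H.x1lo hD (ε := 0.045) (c := 0.473) (d := 1.2286) (l := 0.907) (by norm_num) (JB6_k1a hD H.hβ H.hk1 H.hk2 (by linarith) (by linarith) H.ble H.bc')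
    (V1lo6 hD 0.0737 0.3665 0.6075 _ 0.1942 0.473 (by norm_num) ha (by linarith) (k3 B) rfl (fq B) (by norm_num) (fg B) (by norm_num))
    (D_up6 hD 0.45 0.6 0.117 0.166 0.88959 0.84705 1.2286 hk1 hk2 (by norm_num) hy1 hy2 (by norm_num) (expm_le (by norm_num) (by norm_num) (by norm_num)) (expm_le (by norm_num) (by norm_num) (by norm_num)) (by norm_num) (by norm_num) (by norm_num) (by norm_num)) (by norm_num) (by norm_num)


theorem x0L2 (H : D6 β r t κ s h T) (B : BX6 0.45 0.6 0.44118 0.37422 10 0.06 8.0633 β r κ T) (h1 : 0.35 ≤ s) (h2 : s ≤ 0.43) :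
    ‖Xf β r h t 0‖ ≤ 0.73112 * ‖Xf β r h t 1‖ := by
  have hr := rgL (a := (-1)) (b1 := 0.5969) (b2 := 0.6807) H.h1 H.h2 h1 h2 (by norm_num) (by norm_num) (by norm_num)
  have e : (s + -1) * h = (t - h) + κ := by rw [H.a0]; ring
  rw [e] at hr
  obtain ⟨ha, hb⟩ := hr
  have hD := H.dom' (t' := t - h) (by linarith) (by linarith)
  have hk1 := B.hk1
  have hk2 := B.hk2
  have hk0 := H.k0
  have hy1 : -0.417 ≤ sy κ (t - h) := syL_ge hD 0.45 0.6 0.6807 0.417 0.65902 0.65903 0.458 0.45801 0.61071 hk1 hk2 (by linarith) (by norm_num) (by norm_num) (by norm_num)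
    (expm_ge (by norm_num) (by norm_num) (by norm_num) (by norm_num)) (expm_le (by norm_num) (by norm_num) (by norm_num)) (by norm_num)
    (by norm_num) (by norm_num) (by norm_num) (by norm_num) (by norm_num) (by norm_num)
  have hy2 : sy κ (t - h) ≤ -0.299 := syL_le hD 0.45 0.6 0.5969 0.299 0.74155 0.74156 0.36953 0.49273 hk1 hk2 (by linarith) (by norm_num) (by norm_num) (by norm_num)
    (expm_ge (by norm_num) (by norm_num) (by norm_num) (by norm_num)) (expm_le (by norm_num) (by norm_num) (by norm_num)) (by norm_num)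
    (by norm_num) (by norm_num) (by norm_num) (by norm_num) (by norm_num) (by norm_num)
  have hX := H.x0up hD (ε := 0.144) (c := 0.5411) (d := 0.5257) (U := 1.3436) (by norm_num) (JB6_k0f hD H.hβ H.hk1 H.hk2 (by linarith) (by linarith) H.ble H.bc')
    (VL_box hD 1.09 0.5411 0.45 0.6 0.44118 0.5969 0.6807 _ _ _ _ ha hb hk1 hk2 B.hψ (by norm_num) (by norm_num) (by norm_num) rfl rfl (by norm_num) rfl rfl (by norm_num) (by norm_num) (by norm_num))
    (by norm_num) (D_lo6 hD 0.45 0.6 (-0.417) (-0.299) (-0.417) 1.5174 0.5257 hk1 hk2 (by norm_num) hy1 hy2 (by rw [neg_neg]; exact expn_ge (by norm_num) (by norm_num)) (by norm_num) (by norm_num) (by norm_num) (by norm_num) (by norm_num) (by norm_num)) (by norm_num) (by norm_num)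
  exact cmpT (eN_pos r κ) hX (x1lo2 H B (by linarith) (by linarith)) B.hT (by norm_num) (qA (a := -1) (s2 := 0.43) (q := 0.08834) (by norm_num) (by norm_num) (by linarith) h2 (by norm_num) (by norm_num)) (by norm_num)
    (expn 0 0.7123 (by norm_num) (by norm_num) (E := 0.49354) (by norm_num) (by norm_num)) (by norm_num) (by norm_num) (by norm_num)


theorem x2L2 (H : D6 β r t κ s h T) (B : BX6 0.45 0.6 0.44118 0.37422 10 0.06 8.0633 β r κ T) (h1 : 0.35 ≤ s) (h2 : s ≤ 0.43) :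
    ‖Xf β r h (t) 2‖ ≤ (0.06414 + 0.019005) * ‖Xf β r h t 1‖ := by
  have hr := rgR (a := 1) (τ1 := 1.4137) (τm := 1.4975) H.h1 H.h2 h1 h2 (by norm_num) (by norm_num) (by norm_num)
  have e : s + ((2 : ℤ) : ℝ) - 1 = s + 1 := by push_cast; ring
  exact cellR (k := 2) (Y := ‖Xf β r h t 1‖) (g := 0.473 * s ^ 2) 0.4 0.2964 0.45 0.6 0.44118 0.37422 1.4137 1.4975 _ _ _ _ _ 0.04952 2.8038 10 0.06 0.5948 0.3772 1.1502 0.907 0.48224 8.0633 0.020746 0.06414 1.09663 0.08746 0.8398 0.9202 3.1623 0.004388 0.019005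
    H.hβ H.hκ H.hs H.hT H.h0 H.hq2 (by norm_num) B.hk1 B.hk2 B.hψ B.hψ1 (by rw [e]; have h5 := hr.2; have h6 := B.hk1; have h7 := Real.pi_gt_d6; norm_num at h5 h6 h7 ⊢; linarith) (by rw [e]; exact hr.1) (by rw [e]; exact hr.2)
    B.hR B.hb B.hT (x1lo2 H B (by linarith) (by linarith)) (by positivity) (gA (by norm_num) (by linarith) (by linarith : s ≤ 0.43) (by norm_num))
    (by rw [e]; exact qB (s1 := 0.35) (s2 := 0.43) (by norm_num) (by norm_num) h1 h2 (le_refl _) (by norm_num) (by norm_num) (by norm_num))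
    (by norm_num) (by norm_num) (by norm_num) (by norm_num) rfl rfl (by norm_num) rfl rfl rfl (by norm_num) (by norm_num) (by norm_num) (by norm_num) (by norm_num) (by norm_num) (by norm_num) (by norm_num) (by norm_num) (by norm_num) (by norm_num) (by norm_num) (by norm_num) (by norm_num) (by norm_num) (by norm_num) (by norm_num) (by norm_num) (by norm_num)
    (expn 3 0.8884 (by norm_num) (by norm_num) (E := 0.020746) (by norm_num) (by norm_num)) (by norm_num) (by norm_num) (by norm_num) (by norm_num) (by norm_num) (by norm_num) (by norm_num) (by norm_num)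
    (expn 5 0.4299 (by norm_num) (by norm_num) (E := 0.004388) (by norm_num) (by norm_num)) (by norm_num) (by norm_num)


theorem x3L2 (H : D6 β r t κ s h T) (B : BX6 0.45 0.6 0.44118 0.37422 10 0.06 8.0633 β r κ T) (h1 : 0.35 ≤ s) (h2 : s ≤ 0.43) :
    ‖Xf β r h (t) 3‖ ≤ 0.000661 * ‖Xf β r h t 1‖ := by
  have hr := rgR (a := 2) (τ1 := 2.4609) (τm := 2.5447) H.h1 H.h2 h1 h2 (by norm_num) (by norm_num) (by norm_num)
  have e : (s + ((3 : ℤ) : ℝ) - 1) * h + 2 * Real.pi * ((0 : ℤ) : ℝ) = (s + 2) * h := by push_cast; ring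
  exact cellU (k := 3) (Y := ‖Xf β r h t 1‖) (g := 0.473 * s ^ 2) 0 0.45 0.6 1.8608 2.5447 0.01 10 0.06 0.5948 0.01 1.5728 0.907 1.09663 0.08746 0.8398 0.9202 3.1623 0.00011146 0.000661
    H.hβ H.hκ H.hs H.hT H.h0 H.hq2 (by norm_num) B.hk1 B.hk2 (by rw [e]; linarith [hr.1, B.hk2]) (by rw [e]; exact hr.2)
    B.hR B.hb (x1lo2 H B (by linarith) (by linarith)) (by positivity) (gA (by norm_num) (by linarith) (by linarith : s ≤ 0.43) (by norm_num))
    (by norm_num) (by norm_num) (by norm_num) (by norm_num) (by norm_num) (by norm_num) (by norm_num) (by norm_num) (by norm_num) (by norm_num) (by norm_num) (by norm_num) (by norm_num) (by norm_num) (by norm_num) (by norm_num) (by norm_num) (by norm_num) (by norm_num) 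
    (expn 9 0.1019 (by norm_num) (by norm_num) (E := 0.00011146) (by norm_num) (by norm_num)) (by norm_num) (by norm_num)


theorem outL2 (H : D6 β r t κ s h T) (B : BX6 0.45 0.6 0.44118 0.37422 10 0.06 8.0633 β r κ T) (h1 : 0.35 ≤ s) (h2 : s ≤ 0.43) :
    oth6 β r h t + ‖Xf β r h t 0‖ < ‖Xf β r h t 1‖ := by
  have g1 := xm2L H B (by linarith) (by linarith)
  have g2 := xm1L H B (by linarith) (by linarith)
  have g3 := x0L2 H B h1 h2
  have g4 := x2L2 H B h1 h2
  have g5 := x3L2 H B h1 h2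
  have hY := lt_of_lt_of_le (mul_pos (eN_pos r κ) (by positivity)) (x1lo2 H B h1 h2)
  unfold oth6
  norm_num at g1 g2 g3 g4 g5 ⊢
  linarith

theorem x1lo3 (H : D6 β r t κ s h T) (B : BX6 0.45 0.6 0.44118 0.37422 10 0.06 8.0633 β r κ T) (h1 : 0.43 ≤ s) (h2 : s ≤ 0.45) :
    eN r κ * (0.9055 * Real.exp (-(T * (0.4669 * s ^ 2)))) ≤ ‖Xf β r h t 1‖ := by
  have hr := rgR (a := 0) (τ1 := 0.4502) (τm := 0.4713) H.h1 H.h2 h1 h2 (by norm_num) (by norm_num) (by norm_num)
  rw [add_zero, ← H.hs] at hr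
  obtain ⟨ha, hb⟩ := hr
  have hD := H.dom' (t' := t) (by linarith) (by linarith)
  have hk1 := B.hk1
  have hk2 := B.hk2
  have hk0 := H.k0
  have hy1 : 0.139 ≤ sy κ t := syR_ge hD 0.45 0.6 0.4502 0.139 1.14912 1.14913 0.26621 0.35496 hk1 hk2 (by linarith) (by norm_num) (by norm_num)
    (expn_ge (by norm_num) (by norm_num)) (expn_le (by norm_num) (by norm_num) (by norm_num)) (by norm_num)
    (by norm_num) (by norm_num) (by norm_num) (by norm_num) (by norm_num) (by norm_num)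
  have hy2 : sy κ t ≤ 0.172 := syR_le hD 0.45 0.6 0.4713 0.172 1.18767 0.331 0.34046 0.45396 hk1 hk2 (by linarith) (by norm_num) (by norm_num)
    (expn_ge (by norm_num) (by norm_num)) (by norm_num) (by norm_num) (Or.inr ((mul_le_mul_of_nonneg_left (expn_le (E := 1.18768) (by norm_num) (by norm_num) (by norm_num)) (by norm_num)).trans (by norm_num))) (by norm_num) (by norm_num) (by norm_num)
  exact H.x1lo hD (ε := 0.045) (c := 0.4669) (d := 1.2371) (l := 0.9055) (by norm_num) (JB6_k1a hD H.hβ H.hk1 H.hk2 (by linarith) (by linarith) H.ble H.bc')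
    (V1lo6 hD 0.0737 0.4502 0.6075 _ 0.1942 0.4669 (by norm_num) ha (by linarith) (k3 B) rfl (fq B) (by norm_num) (fg B) (by norm_num))
    (D_up6 hD 0.45 0.6 0.139 0.172 0.87023 0.84198 1.2371 hk1 hk2 (by norm_num) hy1 hy2 (by norm_num) (expm_le (by norm_num) (by norm_num) (by norm_num)) (expm_le (by norm_num) (by norm_num) (by norm_num)) (by norm_num) (by norm_num) (by norm_num) (by norm_num)) (by norm_num) (by norm_num)


theorem x0L3 (H : D6 β r t κ s h T) (B : BX6 0.45 0.6 0.44118 0.37422 10 0.06 8.0633 β r κ T) (h1 : 0.43 ≤ s) (h2 : s ≤ 0.45) :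
    ‖Xf β r h t 0‖ ≤ 0.79379 * ‖Xf β r h t 1‖ := by
  have hr := rgL (a := (-1)) (b1 := 0.5759) (b2 := 0.597) H.h1 H.h2 h1 h2 (by norm_num) (by norm_num) (by norm_num)
  have e : (s + -1) * h = (t - h) + κ := by rw [H.a0]; ring
  rw [e] at hr
  obtain ⟨ha, hb⟩ := hr
  have hD := H.dom' (t' := t - h) (by linarith) (by linarith)
  have hk1 := B.hk1
  have hk2 := B.hk2
  have hk0 := H.k0
  have hy1 : -0.35 ≤ sy κ (t - h) := syL_ge hD 0.45 0.6 0.597 0.35 0.70468 0.70469 0.411 0.41106 0.5481 hk1 hk2 (by linarith) (by norm_num) (by norm_num) (by norm_num)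
    (expm_ge (by norm_num) (by norm_num) (by norm_num) (by norm_num)) (expm_le (by norm_num) (by norm_num) (by norm_num)) (by norm_num)
    (by norm_num) (by norm_num) (by norm_num) (by norm_num) (by norm_num) (by norm_num)
  have hy2 : sy κ (t - h) ≤ -0.285 := syL_le hD 0.45 0.6 0.5759 0.285 0.75201 0.75202 0.3572 0.47628 hk1 hk2 (by linarith) (by norm_num) (by norm_num) (by norm_num)
    (expm_ge (by norm_num) (by norm_num) (by norm_num) (by norm_num)) (expm_le (by norm_num) (by norm_num) (by norm_num)) (by norm_num)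
    (by norm_num) (by norm_num) (by norm_num) (by norm_num) (by norm_num) (by norm_num)
  have hX := H.x0up hD (ε := 0.11) (c := 0.5463) (d := 0.5885) (U := 1.2674) (by norm_num) (JB6_k0b hD H.hβ H.hk1 H.hk2 (by linarith) (by linarith) H.ble H.bc')
    (VL_box hD 1.12 0.5463 0.45 0.6 0.44118 0.5759 0.597 _ _ _ _ ha hb hk1 hk2 B.hψ (by norm_num) (by norm_num) (by norm_num) rfl rfl (by norm_num) rfl rfl (by norm_num) (by norm_num) (by norm_num))
    (by norm_num) (D_lo6 hD 0.45 0.6 (-0.35) (-0.285) (-0.35) 1.41906 0.5885 hk1 hk2 (by norm_num) hy1 hy2 (by rw [neg_neg]; exact expn_ge (by norm_num) (by norm_num)) (by norm_num) (by norm_num) (by norm_num) (by norm_num) (by norm_num) (by norm_num)) (by norm_num) (by norm_num)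
  exact cmpT (eN_pos r κ) hX (x1lo3 H B (by linarith) (by linarith)) B.hT (by norm_num) (qA (a := -1) (s2 := 0.45) (q := 0.0707) (by norm_num) (by norm_num) (by linarith) h2 (by norm_num) (by norm_num)) (by norm_num)
    (expn 0 0.57 (by norm_num) (by norm_num) (E := 0.56712) (by norm_num) (by norm_num)) (by norm_num) (by norm_num) (by norm_num)


theorem x2L3 (H : D6 β r t κ s h T) (B : BX6 0.45 0.6 0.44118 0.37422 10 0.06 8.0633 β r κ T) (h1 : 0.43 ≤ s) (h2 : s ≤ 0.45) :
    ‖Xf β r h (t) 2‖ ≤ (0.04648 + 0.015494) * ‖Xf β r h t 1‖ := by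
  have hr := rgR (a := 1) (τ1 := 1.4974) (τm := 1.5185) H.h1 H.h2 h1 h2 (by norm_num) (by norm_num) (by norm_num)
  have e : s + ((2 : ℤ) : ℝ) - 1 = s + 1 := by push_cast; ring
  exact cellR (k := 2) (Y := ‖Xf β r h t 1‖) (g := 0.4669 * s ^ 2) 0.41 0.2996 0.45 0.6 0.44118 0.37422 1.4974 1.5185 _ _ _ _ _ 0.04145 2.9313 10 0.06 0.5948 0.3487 1.1626 0.9055 0.52632 8.0633 0.014355 0.04648 1.09663 0.09455 0.8385 0.9137 3.1623 0.0035336 0.015494
    H.hβ H.hκ H.hs H.hT H.h0 H.hq2 (by norm_num) B.hk1 B.hk2 B.hψ B.hψ1 (by rw [e]; have h5 := hr.2; have h6 := B.hk1; have h7 := Real.pi_gt_d6; norm_num at h5 h6 h7 ⊢; linarith) (by rw [e]; exact hr.1) (by rw [e]; exact hr.2)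
    B.hR B.hb B.hT (x1lo3 H B (by linarith) (by linarith)) (by positivity) (gA (by norm_num) (by linarith) (by linarith : s ≤ 0.45) (by norm_num))
    (by rw [e]; exact qB (s1 := 0.43) (s2 := 0.45) (by norm_num) (by norm_num) h1 h2 (le_refl _) (by norm_num) (by norm_num) (by norm_num))
    (by norm_num) (by norm_num) (by norm_num) (by norm_num) rfl rfl (by norm_num) rfl rfl rfl (by norm_num) (by norm_num) (by norm_num) (by norm_num) (by norm_num) (by norm_num) (by norm_num) (by norm_num) (by norm_num) (by norm_num) (by norm_num) (by norm_num) (by norm_num) (by norm_num) (by norm_num) (by norm_num) (by norm_num) (by norm_num) (by norm_num)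
    (expn 4 0.2438 (by norm_num) (by norm_num) (E := 0.014355) (by norm_num) (by norm_num)) (by norm_num) (by norm_num) (by norm_num) (by norm_num) (by norm_num) (by norm_num) (by norm_num) (by norm_num)
    (expn 5 0.6499 (by norm_num) (by norm_num) (E := 0.0035336) (by norm_num) (by norm_num)) (by norm_num) (by norm_num)


theorem x3L3 (H : D6 β r t κ s h T) (B : BX6 0.45 0.6 0.44118 0.37422 10 0.06 8.0633 β r κ T) (h1 : 0.43 ≤ s) (h2 : s ≤ 0.45) :
    ‖Xf β r h (t) 3‖ ≤ 0.000694 * ‖Xf β r h t 1‖ := by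
  have hr := rgR (a := 2) (τ1 := 2.5446) (τm := 2.5657) H.h1 H.h2 h1 h2 (by norm_num) (by norm_num) (by norm_num)
  have e : (s + ((3 : ℤ) : ℝ) - 1) * h + 2 * Real.pi * ((0 : ℤ) : ℝ) = (s + 2) * h := by push_cast; ring
  exact cellU (k := 3) (Y := ‖Xf β r h t 1‖) (g := 0.4669 * s ^ 2) 0 0.45 0.6 1.9445 2.5657 0.01 10 0.06 0.5948 0.01 1.5468 0.9055 1.09663 0.09455 0.8385 0.9137 3.1623 0.00011894 0.000694
    H.hβ H.hκ H.hs H.hT H.h0 H.hq2 (by norm_num) B.hk1 B.hk2 (by rw [e]; linarith [hr.1, B.hk2]) (by rw [e]; exact hr.2)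
    B.hR B.hb (x1lo3 H B (by linarith) (by linarith)) (by positivity) (gA (by norm_num) (by linarith) (by linarith : s ≤ 0.45) (by norm_num))
    (by norm_num) (by norm_num) (by norm_num) (by norm_num) (by norm_num) (by norm_num) (by norm_num) (by norm_num) (by norm_num) (by norm_num) (by norm_num) (by norm_num) (by norm_num) (by norm_num) (by norm_num) (by norm_num) (by norm_num) (by norm_num) (by norm_num) 
    (expn 9 0.0369 (by norm_num) (by norm_num) (E := 0.00011894) (by norm_num) (by norm_num)) (by norm_num) (by norm_num)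


theorem outL3 (H : D6 β r t κ s h T) (B : BX6 0.45 0.6 0.44118 0.37422 10 0.06 8.0633 β r κ T) (h1 : 0.43 ≤ s) (h2 : s ≤ 0.45) :
    oth6 β r h t + ‖Xf β r h t 0‖ < ‖Xf β r h t 1‖ := by
  have g1 := xm2L H B (by linarith) (by linarith)
  have g2 := xm1L H B (by linarith) (by linarith)
  have g3 := x0L3 H B h1 h2
  have g4 := x2L3 H B h1 h2
  have g5 := x3L3 H B h1 h2
  have hY := lt_of_lt_of_le (mul_pos (eN_pos r κ) (by positivity)) (x1lo3 H B h1 h2)
  unfold oth6
  norm_num at g1 g2 g3 g4 g5 ⊢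
  linarith

theorem x0loG (H : D6 β r t κ s h T) (B : BX6 0.45 0.6 0.44118 0.37422 10 0.06 8.0633 β r κ T) (h1 : 0.58 ≤ s) (h2 : s ≤ 1) :
    eN r κ * (0.9199 * Real.exp (-(T * (0.5779 * (s - 1) ^ 2)))) ≤ ‖Xf β r h t 0‖ := by
  have hr := rgL (a := (-1)) (b1 := 0) (b2 := 0.4399) H.h1 H.h2 h1 h2 (by norm_num) (by norm_num) (by norm_num)
  have e : (s + -1) * h = (t - h) + κ := by rw [H.a0]; ring
  rw [e] at hr
  obtain ⟨ha, hb⟩ := hr
  have hD := H.dom' (t' := t - h) (by linarith) (by linarith)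
  have hk1 := B.hk1
  have hk2 := B.hk2
  have hk0 := H.k0
  have hy1 : -0.238 ≤ sy κ (t - h) := syL_ge hD 0.45 0.6 0.4399 0.238 0.7882 0.78821 0.3039 0.31265 0.41688 hk1 hk2 (by linarith) (by norm_num) (by norm_num) (by norm_num)
    (expm_ge (by norm_num) (by norm_num) (by norm_num) (by norm_num)) (expm_le (by norm_num) (by norm_num) (by norm_num)) (by norm_num)
    (by norm_num) (by norm_num) (by norm_num) (by norm_num) (by norm_num) (by norm_num)
  have hy2 : sy κ (t - h) ≤ 0 := sy_nonpos hD (by linarith)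
  exact H.x0lo hD (ε := 0.08) (c := 0.5779) (d := 1.0001) (l := 0.9199) (by norm_num) (JB6_k0a hD H.hβ H.hk1 H.hk2 (by linarith) (by linarith) H.ble H.bc')
    (V0_lo hD 0.5779 0.4399 0.1475 0.0516 0.5752 0.44118 (by linarith) (by linarith) (by norm_num) (fa1 B) (fa2 B) (fa3 B) (fa4 H B) (by norm_num) (by norm_num) (by norm_num) (by norm_num) (by norm_num))
    (D_up6 hD 0.45 0.6 (-0.238) 0 1.26871 1 1.0001 hk1 hk2 (by norm_num) hy1 hy2 (by norm_num) (by rw [neg_neg]; exact expn_le (by norm_num) (by norm_num) (by norm_num)) (by simp) (by norm_num) (by norm_num) (by norm_num) (by norm_num)) (by norm_num) (by norm_num)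


theorem xm2R (H : D6 β r t κ s h T) (B : BX6 0.45 0.6 0.44118 0.37422 10 0.06 8.0633 β r κ T) (h1 : 0.58 ≤ s) (h2 : s ≤ 1) :
    ‖Xf β r h (t) (-2)‖ ≤ (0.00002 + 0.00049) * ‖Xf β r h t 0‖ := by
  have hr := rgL (a := (-3)) (b1 := 2.0943) (b2 := 2.5343) H.h1 H.h2 h1 h2 (by norm_num) (by norm_num) (by norm_num)
  have e : s + ((-2 : ℤ) : ℝ) - 1 = s + (-3) := by push_cast; ring
  exact cellL (k := -2) (Y := ‖Xf β r h t 0‖) (g := 0.5779 * (s - 1) ^ 2) 0.45 0.3628 0.45 0.6 0.44118 0.37422 2.0943 2.5343 _ _ _ _ _ 0.14256 2.1525 10 0.06 0.5948 0 1.1458 0.9199 1.45119 8.0633 0.0000083313 0.00002 1.09663 0.10195 0.8518 0.907 3.1623 0.00011508 0.00049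
    H.hβ H.hκ H.hs H.hT H.h0 H.hq2 (by norm_num) B.hk1 B.hk2 B.hψ B.hψ1 (by rw [e]; exact hr.1) (by rw [e]; exact hr.2)
    B.hR B.hb B.hT (x0loG H B (by linarith) (by linarith)) (by positivity) (gD (by norm_num) (by linarith : 0.58 ≤ s) (by linarith) (by norm_num))
    (by rw [e]; exact qC (s1 := 0.58) (s2 := 1) (b := 0) (by norm_num) (by norm_num) h1 h2 (by linarith) (by norm_num) (by norm_num) (by norm_num))
    (by norm_num) (by norm_num) (by norm_num) (by norm_num) rfl rfl (by norm_num) rfl rfl rfl (by norm_num) (by norm_num) (by norm_num) (by norm_num) (by norm_num) (by norm_num) (by norm_num) (by norm_num) (by norm_num) (by norm_num) (by norm_num) (by norm_num) (by norm_num) (by norm_num) (by norm_num) (by norm_num) (by norm_num) (by norm_num)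
    (expn 11 0.7013 (by norm_num) (by norm_num) (E := 0.0000083313) (by norm_num) (by norm_num)) (by norm_num) (by norm_num) (by norm_num) (by norm_num) (by norm_num) (by norm_num) (by norm_num) (by norm_num)
    (expn 9 0.0699 (by norm_num) (by norm_num) (E := 0.00011508) (by norm_num) (by norm_num)) (by norm_num) (by norm_num)


theorem x3R (H : D6 β r t κ s h T) (B : BX6 0.45 0.6 0.44118 0.37422 10 0.06 8.0633 β r κ T) (h1 : 0.58 ≤ s) (h2 : s ≤ 1) :
    ‖Xf β r h (t) 3‖ ≤ 0.000731 * ‖Xf β r h t 0‖ := by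
  have hr := rgR (a := 2) (τ1 := 2.7017) (τm := 3.1416) H.h1 H.h2 h1 h2 (by norm_num) (by norm_num) (by norm_num)
  have e : (s + ((3 : ℤ) : ℝ) - 1) * h + 2 * Real.pi * ((0 : ℤ) : ℝ) = (s + 2) * h := by push_cast; ring
  exact cellU (k := 3) (Y := ‖Xf β r h t 0‖) (g := 0.5779 * (s - 1) ^ 2) 0 0.45 0.6 2.1016 3.1416 0.01 10 0.06 0.5948 0.01 1.5198 0.9199 1.09663 0.10195 0.8518 0.907 3.1623 0.00012941 0.000731
    H.hβ H.hκ H.hs H.hT H.h0 H.hq2 (by norm_num) B.hk1 B.hk2 (by rw [e]; linarith [hr.1, B.hk2]) (by rw [e]; exact hr.2)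
    B.hR B.hb (x0loG H B (by linarith) (by linarith)) (by positivity) (gD (by norm_num) (by linarith : 0.58 ≤ s) (by linarith) (by norm_num))
    (by norm_num) (by norm_num) (by norm_num) (by norm_num) (by norm_num) (by norm_num) (by norm_num) (by norm_num) (by norm_num) (by norm_num) (by norm_num) (by norm_num) (by norm_num) (by norm_num) (by norm_num) (by norm_num) (by norm_num) (by norm_num) (by norm_num) 
    (expn 8 0.9699 (by norm_num) (by norm_num) (E := 0.00012941) (by norm_num) (by norm_num)) (by norm_num) (by norm_num)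


theorem x0lg0 (H : D6 β r t κ s h T) (B : BX6 0.45 0.6 0.44118 0.37422 10 0.06 8.0633 β r κ T) (h1 : 0.58 ≤ s) (h2 : s ≤ 0.65) :
    eN r κ * (0.9544 * Real.exp (-(T * (0.5779 * (s - 1) ^ 2)))) ≤ ‖Xf β r h t 0‖ := by
  have hr := rgL (a := (-1)) (b1 := 0.3665) (b2 := 0.4399) H.h1 H.h2 h1 h2 (by norm_num) (by norm_num) (by norm_num)
  have e : (s + -1) * h = (t - h) + κ := by rw [H.a0]; ring
  rw [e] at hr
  obtain ⟨ha, hb⟩ := hr
  have hD := H.dom' (t' := t - h) (by linarith) (by linarith)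
  have hk1 := B.hk1
  have hk2 := B.hk2
  have hk0 := H.k0
  have hy1 : -0.238 ≤ sy κ (t - h) := syL_ge hD 0.45 0.6 0.4399 0.238 0.7882 0.78821 0.3039 0.31265 0.41688 hk1 hk2 (by linarith) (by norm_num) (by norm_num) (by norm_num)
    (expm_ge (by norm_num) (by norm_num) (by norm_num) (by norm_num)) (expm_le (by norm_num) (by norm_num) (by norm_num)) (by norm_num)
    (by norm_num) (by norm_num) (by norm_num) (by norm_num) (by norm_num) (by norm_num)
  have hy2 : sy κ (t - h) ≤ -0.162 := syL_le hD 0.45 0.6 0.3665 0.162 0.85044 0.85045 0.22961 0.30617 hk1 hk2 (by linarith) (by norm_num) (by norm_num) (by norm_num)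
    (expm_ge (by norm_num) (by norm_num) (by norm_num) (by norm_num)) (expm_le (by norm_num) (by norm_num) (by norm_num)) (by norm_num)
    (by norm_num) (by norm_num) (by norm_num) (by norm_num) (by norm_num) (by norm_num)
  exact H.x0lo hD (ε := 0.08) (c := 0.5779) (d := 0.8631) (l := 0.9544) (by norm_num) (JB6_k0a hD H.hβ H.hk1 H.hk2 (by linarith) (by linarith) H.ble H.bc')
    (V0_lo hD 0.5779 0.4399 0.1475 0.0516 0.5752 0.44118 (by linarith) (by linarith) (by norm_num) (fa1 B) (fa2 B) (fa3 B) (fa4 H B) (by norm_num) (by norm_num) (by norm_num) (by norm_num) (by norm_num))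
    (D_up6 hD 0.45 0.6 (-0.238) (-0.162) 1.26871 1.17587 0.8631 hk1 hk2 (by norm_num) hy1 hy2 (by norm_num) (by rw [neg_neg]; exact expn_le (by norm_num) (by norm_num) (by norm_num)) (by rw [neg_neg]; exact expn_le (by norm_num) (by norm_num) (by norm_num)) (by norm_num) (by norm_num) (by norm_num) (by norm_num)) (by norm_num) (by norm_num)


theorem xm1R0 (H : D6 β r t κ s h T) (B : BX6 0.45 0.6 0.44118 0.37422 10 0.06 8.0633 β r κ T) (h1 : 0.58 ≤ s) (h2 : s ≤ 0.65) :
    ‖Xf β r h (t) (-1)‖ ≤ (0.00053 + 0.000521) * ‖Xf β r h t 0‖ := by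
  have hr := rgL (a := (-2)) (b1 := 1.4137) (b2 := 1.4871) H.h1 H.h2 h1 h2 (by norm_num) (by norm_num) (by norm_num)
  have e : s + ((-1 : ℤ) : ℝ) - 1 = s + (-2) := by push_cast; ring
  exact cellL (k := -1) (Y := ‖Xf β r h t 0‖) (g := 0.5779 * (s - 1) ^ 2) 1.09 0.6226 0.45 0.6 0.44118 0.37422 1.4137 1.4871 _ _ _ _ _ 0.0593 2.6802 10 0.06 0.5948 0 1.2629 0.9544 1.06389 8.0633 0.00018869 0.00053 1.09663 0.10195 0.8837 0.907 3.1623 0.00011508 0.000521
    H.hβ H.hκ H.hs H.hT H.h0 H.hq2 (by norm_num) B.hk1 B.hk2 B.hψ B.hψ1 (by rw [e]; exact hr.1) (by rw [e]; exact hr.2)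
    B.hR B.hb B.hT (x0lg0 H B (by linarith) (by linarith)) (by positivity) (gD (by norm_num) (by linarith : 0.58 ≤ s) (by linarith) (by norm_num))
    (by rw [e]; exact qC (s1 := 0.58) (s2 := 0.65) (b := 0) (by norm_num) (by norm_num) h1 h2 (by linarith) (by norm_num) (by norm_num) (by norm_num))
    (by norm_num) (by norm_num) (by norm_num) (by norm_num) rfl rfl (by norm_num) rfl rfl rfl (by norm_num) (by norm_num) (by norm_num) (by norm_num) (by norm_num) (by norm_num) (by norm_num) (by norm_num) (by norm_num) (by norm_num) (by norm_num) (by norm_num) (by norm_num) (by norm_num) (by norm_num) (by norm_num) (by norm_num) (by norm_num)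
    (expn 8 0.5784 (by norm_num) (by norm_num) (E := 0.00018869) (by norm_num) (by norm_num)) (by norm_num) (by norm_num) (by norm_num) (by norm_num) (by norm_num) (by norm_num) (by norm_num) (by norm_num)
    (expn 9 0.0699 (by norm_num) (by norm_num) (E := 0.00011508) (by norm_num) (by norm_num)) (by norm_num) (by norm_num)


theorem x0lg1 (H : D6 β r t κ s h T) (B : BX6 0.45 0.6 0.44118 0.37422 10 0.06 8.0633 β r κ T) (h1 : 0.65 ≤ s) (h2 : s ≤ 1) :
    eN r κ * (0.9199 * Real.exp (-(T * (0.5627 * (s - 1) ^ 2)))) ≤ ‖Xf β r h t 0‖ := by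
  have hr := rgL (a := (-1)) (b1 := 0) (b2 := 0.3666) H.h1 H.h2 h1 h2 (by norm_num) (by norm_num) (by norm_num)
  have e : (s + -1) * h = (t - h) + κ := by rw [H.a0]; ring
  rw [e] at hr
  obtain ⟨ha, hb⟩ := hr
  have hD := H.dom' (t' := t - h) (by linarith) (by linarith)
  have hk1 := B.hk1
  have hk2 := B.hk2
  have hk0 := H.k0
  have hy1 : -0.192 ≤ sy κ (t - h) := syL_ge hD 0.45 0.6 0.3666 0.192 0.8253 0.82531 0.2494 0.26409 0.35214 hk1 hk2 (by linarith) (by norm_num) (by norm_num) (by norm_num)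
    (expm_ge (by norm_num) (by norm_num) (by norm_num) (by norm_num)) (expm_le (by norm_num) (by norm_num) (by norm_num)) (by norm_num)
    (by norm_num) (by norm_num) (by norm_num) (by norm_num) (by norm_num) (by norm_num)
  have hy2 : sy κ (t - h) ≤ 0 := sy_nonpos hD (by linarith)
  exact H.x0lo hD (ε := 0.08) (c := 0.5627) (d := 1.0001) (l := 0.9199) (by norm_num) (JB6_k0a hD H.hβ H.hk1 H.hk2 (by linarith) (by linarith) H.ble H.bc')
    (V0_lo hD 0.5627 0.3666 0.1475 0.0516 0.5752 0.44118 (by linarith) (by linarith) (by norm_num) (fa1 B) (fa2 B) (fa3 B) (fa4 H B) (by norm_num) (by norm_num) (by norm_num) (by norm_num) (by norm_num))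
    (D_up6 hD 0.45 0.6 (-0.192) 0 1.21168 1 1.0001 hk1 hk2 (by norm_num) hy1 hy2 (by norm_num) (by rw [neg_neg]; exact expn_le (by norm_num) (by norm_num) (by norm_num)) (by simp) (by norm_num) (by norm_num) (by norm_num) (by norm_num)) (by norm_num) (by norm_num)


theorem xm1R1 (H : D6 β r t κ s h T) (B : BX6 0.45 0.6 0.44118 0.37422 10 0.06 8.0633 β r κ T) (h1 : 0.65 ≤ s) (h2 : s ≤ 1) :
    ‖Xf β r h (t) (-1)‖ ≤ (0.03306 + 0.00084) * ‖Xf β r h t 0‖ := by
  have hr := rgL (a := (-2)) (b1 := 1.0471) (b2 := 1.4138) H.h1 H.h2 h1 h2 (by norm_num) (by norm_num) (by norm_num)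
  have e : s + ((-1 : ℤ) : ℝ) - 1 = s + (-2) := by push_cast; ring
  exact cellL (k := -1) (Y := ‖Xf β r h t 0‖) (g := 0.5627 * (s - 1) ^ 2) 0.93 0.5517 0.45 0.6 0.44118 0.37422 1.0471 1.4138 _ _ _ _ _ 0.06738 2.596 10 0.06 0.5948 0.0806 1.1822 0.9199 0.55169 8.0633 0.011712 0.03306 1.09663 0.06894 0.8518 0.9371 3.1623 0.00019121 0.00084
    H.hβ H.hκ H.hs H.hT H.h0 H.hq2 (by norm_num) B.hk1 B.hk2 B.hψ B.hψ1 (by rw [e]; exact hr.1) (by rw [e]; exact hr.2)
    B.hR B.hb B.hT (x0lg1 H B (by linarith) (by linarith)) (by positivity) (gD (by norm_num) (by linarith : 0.65 ≤ s) (by linarith) (by norm_num))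
    (by rw [e]; exact qC (s1 := 0.65) (s2 := 1) (b := 0) (by norm_num) (by norm_num) h1 h2 (by linarith) (by norm_num) (by norm_num) (by norm_num))
    (by norm_num) (by norm_num) (by norm_num) (by norm_num) rfl rfl (by norm_num) rfl rfl rfl (by norm_num) (by norm_num) (by norm_num) (by norm_num) (by norm_num) (by norm_num) (by norm_num) (by norm_num) (by norm_num) (by norm_num) (by norm_num) (by norm_num) (by norm_num) (by norm_num) (by norm_num) (by norm_num) (by norm_num) (by norm_num)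
    (expn 4 0.4484 (by norm_num) (by norm_num) (E := 0.011712) (by norm_num) (by norm_num)) (by norm_num) (by norm_num) (by norm_num) (by norm_num) (by norm_num) (by norm_num) (by norm_num) (by norm_num)
    (expn 8 0.5649 (by norm_num) (by norm_num) (E := 0.00019121) (by norm_num) (by norm_num)) (by norm_num) (by norm_num)


theorem x0lo0 (H : D6 β r t κ s h T) (B : BX6 0.45 0.6 0.44118 0.37422 10 0.06 8.0633 β r κ T) (h1 : 0.58 ≤ s) (h2 : s ≤ 0.6) :
    eN r κ * (0.9601 * Real.exp (-(T * (0.5779 * (s - 1) ^ 2)))) ≤ ‖Xf β r h t 0‖ := by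
  have hr := rgL (a := (-1)) (b1 := 0.4188) (b2 := 0.4399) H.h1 H.h2 h1 h2 (by norm_num) (by norm_num) (by norm_num)
  have e : (s + -1) * h = (t - h) + κ := by rw [H.a0]; ring
  rw [e] at hr
  obtain ⟨ha, hb⟩ := hr
  have hD := H.dom' (t' := t - h) (by linarith) (by linarith)
  have hk1 := B.hk1
  have hk2 := B.hk2
  have hk0 := H.k0
  have hy1 : -0.238 ≤ sy κ (t - h) := syL_ge hD 0.45 0.6 0.4399 0.238 0.7882 0.78821 0.3039 0.31265 0.41688 hk1 hk2 (by linarith) (by norm_num) (by norm_num) (by norm_num)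
    (expm_ge (by norm_num) (by norm_num) (by norm_num) (by norm_num)) (expm_le (by norm_num) (by norm_num) (by norm_num)) (by norm_num)
    (by norm_num) (by norm_num) (by norm_num) (by norm_num) (by norm_num) (by norm_num)
  have hy2 : sy κ (t - h) ≤ -0.19 := syL_le hD 0.45 0.6 0.4188 0.19 0.82695 0.82696 0.26186 0.34917 hk1 hk2 (by linarith) (by norm_num) (by norm_num) (by norm_num)
    (expm_ge (by norm_num) (by norm_num) (by norm_num) (by norm_num)) (expm_le (by norm_num) (by norm_num) (by norm_num)) (by norm_num)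
    (by norm_num) (by norm_num) (by norm_num) (by norm_num) (by norm_num) (by norm_num)
  exact H.x0lo hD (ε := 0.08) (c := 0.5779) (d := 0.843) (l := 0.9601) (by norm_num) (JB6_k0a hD H.hβ H.hk1 H.hk2 (by linarith) (by linarith) H.ble H.bc')
    (V0_lo hD 0.5779 0.4399 0.1475 0.0516 0.5752 0.44118 (by linarith) (by linarith) (by norm_num) (fa1 B) (fa2 B) (fa3 B) (fa4 H B) (by norm_num) (by norm_num) (by norm_num) (by norm_num) (by norm_num))
    (D_up6 hD 0.45 0.6 (-0.238) (-0.19) 1.26871 1.20925 0.843 hk1 hk2 (by norm_num) hy1 hy2 (by norm_num) (by rw [neg_neg]; exact expn_le (by norm_num) (by norm_num) (by norm_num)) (by rw [neg_neg]; exact expn_le (by norm_num) (by norm_num) (by norm_num)) (by norm_num) (by norm_num) (by norm_num) (by norm_num)) (by norm_num) (by norm_num)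


theorem x1R0 (H : D6 β r t κ s h T) (B : BX6 0.45 0.6 0.44118 0.37422 10 0.06 8.0633 β r κ T) (h1 : 0.58 ≤ s) (h2 : s ≤ 0.6) :
    ‖Xf β r h t 1‖ ≤ 0.79209 * ‖Xf β r h t 0‖ := by
  have hr := rgR (a := 0) (τ1 := 0.6073) (τm := 0.6284) H.h1 H.h2 h1 h2 (by norm_num) (by norm_num) (by norm_num)
  rw [add_zero, ← H.hs] at hr
  obtain ⟨ha, hb⟩ := hr
  have hD := H.dom' (t' := t) (by linarith) (by linarith)
  have hk1 := B.hk1
  have hk2 := B.hk2
  have hk0 := H.k0
  have hy1 : 0.176 ≤ sy κ t := syR_ge hD 0.45 0.6 0.6073 0.176 1.19243 1.19244 0.34977 0.46638 hk1 hk2 (by linarith) (by norm_num) (by norm_num)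
    (expn_ge (by norm_num) (by norm_num)) (expn_le (by norm_num) (by norm_num) (by norm_num)) (by norm_num)
    (by norm_num) (by norm_num) (by norm_num) (by norm_num) (by norm_num) (by norm_num)
  have hy2 : sy κ t ≤ 0.216 := syR_le hD 0.45 0.6 0.6284 0.216 1.2411 0.4343 0.44679 0.59574 hk1 hk2 (by linarith) (by norm_num) (by norm_num)
    (expn_ge (by norm_num) (by norm_num)) (by norm_num) (by norm_num) (Or.inr ((mul_le_mul_of_nonneg_left (expn_le (E := 1.24111) (by norm_num) (by norm_num) (by norm_num)) (by norm_num)).trans (by norm_num))) (by norm_num) (by norm_num) (by norm_num)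
  have hX := H.x1up hD (ε := 0.06) (c := 0.4103) (d := 1.1802) (U := 1.017) (by norm_num) (JB6_k1b hD H.hβ H.hk1 H.hk2 (by linarith) (by linarith) H.ble H.bc')
    (VR_box6 hD 0.74 0.4103 0.45 0.44118 0.37422 0.6073 0.6284 _ _ _ _ _ ha hb (by norm_num) B.hk1 B.hψ B.hψ1 (by norm_num) (by norm_num) (by norm_num) rfl rfl (by norm_num) rfl rfl rfl (by norm_num) (by norm_num))
    (by norm_num) (D_lo6 hD 0.45 0.6 0.176 0.216 0.176 0.83861 1.1802 hk1 hk2 (by norm_num) hy1 hy2 (expm_ge (by norm_num) (by norm_num) (by norm_num) (by norm_num)) (by norm_num) (by norm_num) (by norm_num) (by norm_num) (by norm_num) (by norm_num)) (by norm_num) (by norm_num)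
  have e0 : s ^ 2 = (s + 0) ^ 2 := by ring
  rw [e0] at hX
  exact cmpT (eN_pos r κ) hX (x0lo0 H B (by linarith) (by linarith)) B.hT (by norm_num) (qD (a := 0) (s1 := 0.58) (q := 0.03608) (by norm_num) (by norm_num) h1 (by linarith) (by norm_num) (by norm_num)) (by norm_num)
    (expn 0 0.2909 (by norm_num) (by norm_num) (E := 0.74777) (by norm_num) (by norm_num)) (by norm_num) (by norm_num) (by norm_num)


theorem x2R0 (H : D6 β r t κ s h T) (B : BX6 0.45 0.6 0.44118 0.37422 10 0.06 8.0633 β r κ T) (h1 : 0.58 ≤ s) (h2 : s ≤ 0.6) :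
    ‖Xf β r h (t) 2‖ ≤ (0.02234 + 0.008644) * ‖Xf β r h t 0‖ := by
  have hr := rgR (a := 1) (τ1 := 1.6545) (τm := 1.6756) H.h1 H.h2 h1 h2 (by norm_num) (by norm_num) (by norm_num)
  have e : s + ((2 : ℤ) : ℝ) - 1 = s + 1 := by push_cast; ring
  exact cellR (k := 2) (Y := ‖Xf β r h t 0‖) (g := 0.5779 * (s - 1) ^ 2) 0.4 0.2916 0.45 0.6 0.44118 0.37422 1.6545 1.6756 _ _ _ _ _ 0.02464 3.3383 10 0.06 0.5948 0.2878 1.1876 0.9601 0.626 8.0633 0.0064248 0.02234 1.09663 0.10195 0.889 0.907 3.1623 0.0020461 0.008644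
    H.hβ H.hκ H.hs H.hT H.h0 H.hq2 (by norm_num) B.hk1 B.hk2 B.hψ B.hψ1 (by rw [e]; have h5 := hr.2; have h6 := B.hk1; have h7 := Real.pi_gt_d6; norm_num at h5 h6 h7 ⊢; linarith) (by rw [e]; exact hr.1) (by rw [e]; exact hr.2)
    B.hR B.hb B.hT (x0lo0 H B (by linarith) (by linarith)) (by positivity) (gD (by norm_num) (by linarith : 0.58 ≤ s) (by linarith) (by norm_num))
    (by rw [e]; exact qD (s1 := 0.58) (by norm_num) (by norm_num) h1 (by linarith) (by norm_num) (by norm_num))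
    (by norm_num) (by norm_num) (by norm_num) (by norm_num) rfl rfl (by norm_num) rfl rfl rfl (by norm_num) (by norm_num) (by norm_num) (by norm_num) (by norm_num) (by norm_num) (by norm_num) (by norm_num) (by norm_num) (by norm_num) (by norm_num) (by norm_num) (by norm_num) (by norm_num) (by norm_num) (by norm_num) (by norm_num) (by norm_num) (by norm_num)
    (expn 5 0.0476 (by norm_num) (by norm_num) (E := 0.0064248) (by norm_num) (by norm_num)) (by norm_num) (by norm_num) (by norm_num) (by norm_num) (by norm_num) (by norm_num) (by norm_num) (by norm_num)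
    (expn 6 0.1919 (by norm_num) (by norm_num) (E := 0.0020461) (by norm_num) (by norm_num)) (by norm_num) (by norm_num)


theorem outR0 (H : D6 β r t κ s h T) (B : BX6 0.45 0.6 0.44118 0.37422 10 0.06 8.0633 β r κ T) (h1 : 0.58 ≤ s) (h2 : s ≤ 0.6) :
    oth6 β r h t + ‖Xf β r h t 1‖ < ‖Xf β r h t 0‖ := by
  have g1 := xm2R H B (by linarith) (by linarith)
  have g2 := xm1R0 H B (by linarith) (by linarith)
  have g3 := x1R0 H B h1 h2
  have g4 := x2R0 H B h1 h2
  have g5 := x3R H B (by linarith) (by linarith)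
  have hY := lt_of_lt_of_le (mul_pos (eN_pos r κ) (by positivity)) (x0lo0 H B h1 h2)
  unfold oth6
  norm_num at g1 g2 g3 g4 g5 ⊢
  linarith

theorem x0lo1 (H : D6 β r t κ s h T) (B : BX6 0.45 0.6 0.44118 0.37422 10 0.06 8.0633 β r κ T) (h1 : 0.6 ≤ s) (h2 : s ≤ 0.65) :
    eN r κ * (0.9544 * Real.exp (-(T * (0.5734 * (s - 1) ^ 2)))) ≤ ‖Xf β r h t 0‖ := by
  have hr := rgL (a := (-1)) (b1 := 0.3665) (b2 := 0.4189) H.h1 H.h2 h1 h2 (by norm_num) (by norm_num) (by norm_num)
  have e : (s + -1) * h = (t - h) + κ := by rw [H.a0]; ring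
  rw [e] at hr
  obtain ⟨ha, hb⟩ := hr
  have hD := H.dom' (t' := t - h) (by linarith) (by linarith)
  have hk1 := B.hk1
  have hk2 := B.hk2
  have hk0 := H.k0
  have hy1 : -0.225 ≤ sy κ (t - h) := syL_ge hD 0.45 0.6 0.4189 0.225 0.79851 0.79852 0.2828 0.29944 0.39927 hk1 hk2 (by linarith) (by norm_num) (by norm_num) (by norm_num)
    (expm_ge (by norm_num) (by norm_num) (by norm_num) (by norm_num)) (expm_le (by norm_num) (by norm_num) (by norm_num)) (by norm_num)
    (by norm_num) (by norm_num) (by norm_num) (by norm_num) (by norm_num) (by norm_num)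
  have hy2 : sy κ (t - h) ≤ -0.162 := syL_le hD 0.45 0.6 0.3665 0.162 0.85044 0.85045 0.22961 0.30617 hk1 hk2 (by linarith) (by norm_num) (by norm_num) (by norm_num)
    (expm_ge (by norm_num) (by norm_num) (by norm_num) (by norm_num)) (expm_le (by norm_num) (by norm_num) (by norm_num)) (by norm_num)
    (by norm_num) (by norm_num) (by norm_num) (by norm_num) (by norm_num) (by norm_num)
  exact H.x0lo hD (ε := 0.08) (c := 0.5734) (d := 0.8631) (l := 0.9544) (by norm_num) (JB6_k0a hD H.hβ H.hk1 H.hk2 (by linarith) (by linarith) H.ble H.bc')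
    (V0_lo hD 0.5734 0.4189 0.1475 0.0516 0.5752 0.44118 (by linarith) (by linarith) (by norm_num) (fa1 B) (fa2 B) (fa3 B) (fa4 H B) (by norm_num) (by norm_num) (by norm_num) (by norm_num) (by norm_num))
    (D_up6 hD 0.45 0.6 (-0.225) (-0.162) 1.25233 1.17587 0.8631 hk1 hk2 (by norm_num) hy1 hy2 (by norm_num) (by rw [neg_neg]; exact expn_le (by norm_num) (by norm_num) (by norm_num)) (by rw [neg_neg]; exact expn_le (by norm_num) (by norm_num) (by norm_num)) (by norm_num) (by norm_num) (by norm_num) (by norm_num)) (by norm_num) (by norm_num)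


theorem x1R1 (H : D6 β r t κ s h T) (B : BX6 0.45 0.6 0.44118 0.37422 10 0.06 8.0633 β r κ T) (h1 : 0.6 ≤ s) (h2 : s ≤ 0.65) :
    ‖Xf β r h t 1‖ ≤ 0.69142 * ‖Xf β r h t 0‖ := by
  have hr := rgR (a := 0) (τ1 := 0.6283) (τm := 0.6807) H.h1 H.h2 h1 h2 (by norm_num) (by norm_num) (by norm_num)
  rw [add_zero, ← H.hs] at hr
  obtain ⟨ha, hb⟩ := hr
  have hD := H.dom' (t' := t) (by linarith) (by linarith)
  have hk1 := B.hk1
  have hk2 := B.hk2
  have hk0 := H.k0
  have hy1 : 0.181 ≤ sy κ t := syR_ge hD 0.45 0.6 0.6283 0.181 1.19841 1.19842 0.36152 0.48204 hk1 hk2 (by linarith) (by norm_num) (by norm_num)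
    (expn_ge (by norm_num) (by norm_num)) (expn_le (by norm_num) (by norm_num) (by norm_num)) (by norm_num)
    (by norm_num) (by norm_num) (by norm_num) (by norm_num) (by norm_num) (by norm_num)
  have hy2 : sy κ t ≤ 0.23 := syR_le hD 0.45 0.6 0.6807 0.23 1.2586 0.4556 0.48246 0.64329 hk1 hk2 (by linarith) (by norm_num) (by norm_num)
    (expn_ge (by norm_num) (by norm_num)) (by norm_num) (by norm_num) (Or.inr ((mul_le_mul_of_nonneg_left (expn_le (E := 1.25861) (by norm_num) (by norm_num) (by norm_num)) (by norm_num)).trans (by norm_num))) (by norm_num) (by norm_num) (by norm_num)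
  have hX := H.x1up hD (ε := 0.06) (c := 0.4039) (d := 1.1857) (U := 1.0159) (by norm_num) (JB6_k1b hD H.hβ H.hk1 H.hk2 (by linarith) (by linarith) H.ble H.bc')
    (VR_box6 hD 0.73 0.4039 0.45 0.44118 0.37422 0.6283 0.6807 _ _ _ _ _ ha hb (by norm_num) B.hk1 B.hψ B.hψ1 (by norm_num) (by norm_num) (by norm_num) rfl rfl (by norm_num) rfl rfl rfl (by norm_num) (by norm_num))
    (by norm_num) (D_lo6 hD 0.45 0.6 0.181 0.23 0.181 0.83443 1.1857 hk1 hk2 (by norm_num) hy1 hy2 (expm_ge (by norm_num) (by norm_num) (by norm_num) (by norm_num)) (by norm_num) (by norm_num) (by norm_num) (by norm_num) (by norm_num) (by norm_num)) (by norm_num) (by norm_num)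
  have e0 : s ^ 2 = (s + 0) ^ 2 := by ring
  rw [e0] at hX
  exact cmpT (eN_pos r κ) hX (x0lo1 H B (by linarith) (by linarith)) B.hT (by norm_num) (qD (a := 0) (s1 := 0.6) (q := 0.05365) (by norm_num) (by norm_num) h1 (by linarith) (by norm_num) (by norm_num)) (by norm_num)
    (expn 0 0.4325 (by norm_num) (by norm_num) (E := 0.64956) (by norm_num) (by norm_num)) (by norm_num) (by norm_num) (by norm_num)


theorem x2R1 (H : D6 β r t κ s h T) (B : BX6 0.45 0.6 0.44118 0.37422 10 0.06 8.0633 β r κ T) (h1 : 0.6 ≤ s) (h2 : s ≤ 0.65) :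
    ‖Xf β r h (t) 2‖ ≤ (0.02035 + 0.006633) * ‖Xf β r h t 0‖ := by
  have hr := rgR (a := 1) (τ1 := 1.6755) (τm := 1.7279) H.h1 H.h2 h1 h2 (by norm_num) (by norm_num) (by norm_num)
  have e : s + ((2 : ℤ) : ℝ) - 1 = s + 1 := by push_cast; ring
  exact cellR (k := 2) (Y := ‖Xf β r h t 0‖) (g := 0.5734 * (s - 1) ^ 2) 0.38 0.283 0.45 0.6 0.44118 0.37422 1.6755 1.7279 _ _ _ _ _ 0.02952 3.1909 10 0.06 0.5948 0.2705 1.1804 0.9544 0.63273 8.0633 0.0060859 0.02035 1.09663 0.09175 0.8837 0.9163 3.1623 0.0015701 0.006633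
    H.hβ H.hκ H.hs H.hT H.h0 H.hq2 (by norm_num) B.hk1 B.hk2 B.hψ B.hψ1 (by rw [e]; have h5 := hr.2; have h6 := B.hk1; have h7 := Real.pi_gt_d6; norm_num at h5 h6 h7 ⊢; linarith) (by rw [e]; exact hr.1) (by rw [e]; exact hr.2)
    B.hR B.hb B.hT (x0lo1 H B (by linarith) (by linarith)) (by positivity) (gD (by norm_num) (by linarith : 0.6 ≤ s) (by linarith) (by norm_num))
    (by rw [e]; exact qD (s1 := 0.6) (by norm_num) (by norm_num) h1 (by linarith) (by norm_num) (by norm_num))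
    (by norm_num) (by norm_num) (by norm_num) (by norm_num) rfl rfl (by norm_num) rfl rfl rfl (by norm_num) (by norm_num) (by norm_num) (by norm_num) (by norm_num) (by norm_num) (by norm_num) (by norm_num) (by norm_num) (by norm_num) (by norm_num) (by norm_num) (by norm_num) (by norm_num) (by norm_num) (by norm_num) (by norm_num) (by norm_num) (by norm_num)
    (expn 5 0.1018 (by norm_num) (by norm_num) (E := 0.0060859) (by norm_num) (by norm_num)) (by norm_num) (by norm_num) (by norm_num) (by norm_num) (by norm_num) (by norm_num) (by norm_num) (by norm_num)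
    (expn 6 0.4579 (by norm_num) (by norm_num) (E := 0.0015701) (by norm_num) (by norm_num)) (by norm_num) (by norm_num)


theorem outR1 (H : D6 β r t κ s h T) (B : BX6 0.45 0.6 0.44118 0.37422 10 0.06 8.0633 β r κ T) (h1 : 0.6 ≤ s) (h2 : s ≤ 0.65) :
    oth6 β r h t + ‖Xf β r h t 1‖ < ‖Xf β r h t 0‖ := by
  have g1 := xm2R H B (by linarith) (by linarith)
  have g2 := xm1R0 H B (by linarith) (by linarith)
  have g3 := x1R1 H B h1 h2
  have g4 := x2R1 H B h1 h2
  have g5 := x3R H B (by linarith) (by linarith)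
  have hY := lt_of_lt_of_le (mul_pos (eN_pos r κ) (by positivity)) (x0lo1 H B h1 h2)
  unfold oth6
  norm_num at g1 g2 g3 g4 g5 ⊢
  linarith

theorem x0lo2 (H : D6 β r t κ s h T) (B : BX6 0.45 0.6 0.44118 0.37422 10 0.06 8.0633 β r κ T) (h1 : 0.65 ≤ s) (h2 : s ≤ 0.75) :
    eN r κ * (0.9436 * Real.exp (-(T * (0.5627 * (s - 1) ^ 2)))) ≤ ‖Xf β r h t 0‖ := by
  have hr := rgL (a := (-1)) (b1 := 0.2617) (b2 := 0.3666) H.h1 H.h2 h1 h2 (by norm_num) (by norm_num) (by norm_num)
  have e : (s + -1) * h = (t - h) + κ := by rw [H.a0]; ring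
  rw [e] at hr
  obtain ⟨ha, hb⟩ := hr
  have hD := H.dom' (t' := t - h) (by linarith) (by linarith)
  have hk1 := B.hk1
  have hk2 := B.hk2
  have hk0 := H.k0
  have hy1 : -0.192 ≤ sy κ (t - h) := syL_ge hD 0.45 0.6 0.3666 0.192 0.8253 0.82531 0.2494 0.26409 0.35214 hk1 hk2 (by linarith) (by norm_num) (by norm_num) (by norm_num)
    (expm_ge (by norm_num) (by norm_num) (by norm_num) (by norm_num)) (expm_le (by norm_num) (by norm_num) (by norm_num)) (by norm_num)
    (by norm_num) (by norm_num) (by norm_num) (by norm_num) (by norm_num) (by norm_num)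
  have hy2 : sy κ (t - h) ≤ -0.11 := syL_le hD 0.45 0.6 0.2617 0.11 0.89583 0.89584 0.16423 0.21899 hk1 hk2 (by linarith) (by norm_num) (by norm_num) (by norm_num)
    (expm_ge (by norm_num) (by norm_num) (by norm_num) (by norm_num)) (expm_le (by norm_num) (by norm_num) (by norm_num)) (by norm_num)
    (by norm_num) (by norm_num) (by norm_num) (by norm_num) (by norm_num) (by norm_num)
  exact H.x0lo hD (ε := 0.08) (c := 0.5627) (d := 0.9034) (l := 0.9436) (by norm_num) (JB6_k0a hD H.hβ H.hk1 H.hk2 (by linarith) (by linarith) H.ble H.bc')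
    (V0_lo hD 0.5627 0.3666 0.1475 0.0516 0.5752 0.44118 (by linarith) (by linarith) (by norm_num) (fa1 B) (fa2 B) (fa3 B) (fa4 H B) (by norm_num) (by norm_num) (by norm_num) (by norm_num) (by norm_num))
    (D_up6 hD 0.45 0.6 (-0.192) (-0.11) 1.21168 1.11628 0.9034 hk1 hk2 (by norm_num) hy1 hy2 (by norm_num) (by rw [neg_neg]; exact expn_le (by norm_num) (by norm_num) (by norm_num)) (by rw [neg_neg]; exact expn_le (by norm_num) (by norm_num) (by norm_num)) (by norm_num) (by norm_num) (by norm_num) (by norm_num)) (by norm_num) (by norm_num)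


theorem x1R2 (H : D6 β r t κ s h T) (B : BX6 0.45 0.6 0.44118 0.37422 10 0.06 8.0633 β r κ T) (h1 : 0.65 ≤ s) (h2 : s ≤ 0.75) :
    ‖Xf β r h t 1‖ ≤ 0.49746 * ‖Xf β r h t 0‖ := by
  have hr := rgR (a := 0) (τ1 := 0.6806) (τm := 0.7854) H.h1 H.h2 h1 h2 (by norm_num) (by norm_num) (by norm_num)
  rw [add_zero, ← H.hs] at hr
  obtain ⟨ha, hb⟩ := hr
  have hD := H.dom' (t' := t) (by linarith) (by linarith)
  have hk1 := B.hk1
  have hk2 := B.hk2
  have hk0 := H.k0
  have hy1 : 0.192 ≤ sy κ t := syR_ge hD 0.45 0.6 0.6806 0.192 1.21167 1.21168 0.38773 0.51699 hk1 hk2 (by linarith) (by norm_num) (by norm_num)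
    (expn_ge (by norm_num) (by norm_num)) (expn_le (by norm_num) (by norm_num) (by norm_num)) (by norm_num)
    (by norm_num) (by norm_num) (by norm_num) (by norm_num) (by norm_num) (by norm_num)
  have hy2 : sy κ t ≤ 0.255 := syR_le hD 0.45 0.6 0.7854 0.255 1.29046 0.5332 0.54844 0.73127 hk1 hk2 (by linarith) (by norm_num) (by norm_num)
    (expn_ge (by norm_num) (by norm_num)) (by norm_num) (by norm_num) (Or.inr ((mul_le_mul_of_nonneg_left (expn_le (E := 1.29047) (by norm_num) (by norm_num) (by norm_num)) (by norm_num)).trans (by norm_num))) (by norm_num) (by norm_num) (by norm_num)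
  have hX := H.x1up hD (ε := 0.06) (c := 0.3915) (d := 1.1979) (U := 1.0133) (by norm_num) (JB6_k1b hD H.hβ H.hk1 H.hk2 (by linarith) (by linarith) H.ble H.bc')
    (VR_box6 hD 0.69 0.3915 0.45 0.44118 0.37422 0.6806 0.7854 _ _ _ _ _ ha hb (by norm_num) B.hk1 B.hψ B.hψ1 (by norm_num) (by norm_num) (by norm_num) rfl rfl (by norm_num) rfl rfl rfl (by norm_num) (by norm_num))
    (by norm_num) (D_lo6 hD 0.45 0.6 0.192 0.255 0.192 0.8253 1.1979 hk1 hk2 (by norm_num) hy1 hy2 (expm_ge (by norm_num) (by norm_num) (by norm_num) (by norm_num)) (by norm_num) (by norm_num) (by norm_num) (by norm_num) (by norm_num) (by norm_num)) (by norm_num) (by norm_num)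
  have e0 : s ^ 2 = (s + 0) ^ 2 := by ring
  rw [e0] at hX
  exact cmpT (eN_pos r κ) hX (x0lo2 H B (by linarith) (by linarith)) B.hT (by norm_num) (qD (a := 0) (s1 := 0.65) (q := 0.09647) (by norm_num) (by norm_num) h1 (by linarith) (by norm_num) (by norm_num)) (by norm_num)
    (expn 0 0.7778 (by norm_num) (by norm_num) (E := 0.46324) (by norm_num) (by norm_num)) (by norm_num) (by norm_num) (by norm_num)


theorem x2R2 (H : D6 β r t κ s h T) (B : BX6 0.45 0.6 0.44118 0.37422 10 0.06 8.0633 β r κ T) (h1 : 0.65 ≤ s) (h2 : s ≤ 0.75) :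
    ‖Xf β r h (t) 2‖ ≤ (0.01495 + 0.004209) * ‖Xf β r h t 0‖ := by
  have hr := rgR (a := 1) (τ1 := 1.7278) (τm := 1.8326) H.h1 H.h2 h1 h2 (by norm_num) (by norm_num) (by norm_num)
  have e : s + ((2 : ℤ) : ℝ) - 1 = s + 1 := by push_cast; ring
  exact cellR (k := 2) (Y := ‖Xf β r h t 0‖) (g := 0.5627 * (s - 1) ^ 2) 0.36 0.2728 0.45 0.6 0.44118 0.37422 1.7278 1.8326 _ _ _ _ _ 0.02841 3.2216 10 0.06 0.5948 0.2431 1.1821 0.9436 0.67376 8.0633 0.0043759 0.01495 1.09663 0.06894 0.8737 0.9371 3.1623 0.00098364 0.004209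
    H.hβ H.hκ H.hs H.hT H.h0 H.hq2 (by norm_num) B.hk1 B.hk2 B.hψ B.hψ1 (by rw [e]; have h5 := hr.2; have h6 := B.hk1; have h7 := Real.pi_gt_d6; norm_num at h5 h6 h7 ⊢; linarith) (by rw [e]; exact hr.1) (by rw [e]; exact hr.2)
    B.hR B.hb B.hT (x0lo2 H B (by linarith) (by linarith)) (by positivity) (gD (by norm_num) (by linarith : 0.65 ≤ s) (by linarith) (by norm_num))
    (by rw [e]; exact qD (s1 := 0.65) (by norm_num) (by norm_num) h1 (by linarith) (by norm_num) (by norm_num))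
    (by norm_num) (by norm_num) (by norm_num) (by norm_num) rfl rfl (by norm_num) rfl rfl rfl (by norm_num) (by norm_num) (by norm_num) (by norm_num) (by norm_num) (by norm_num) (by norm_num) (by norm_num) (by norm_num) (by norm_num) (by norm_num) (by norm_num) (by norm_num) (by norm_num) (by norm_num) (by norm_num) (by norm_num) (by norm_num) (by norm_num)
    (expn 5 0.4327 (by norm_num) (by norm_num) (E := 0.0043759) (by norm_num) (by norm_num)) (by norm_num) (by norm_num) (by norm_num) (by norm_num) (by norm_num) (by norm_num) (by norm_num) (by norm_num)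
    (expn 6 0.9399 (by norm_num) (by norm_num) (E := 0.00098364) (by norm_num) (by norm_num)) (by norm_num) (by norm_num)


theorem outR2 (H : D6 β r t κ s h T) (B : BX6 0.45 0.6 0.44118 0.37422 10 0.06 8.0633 β r κ T) (h1 : 0.65 ≤ s) (h2 : s ≤ 0.75) :
    oth6 β r h t + ‖Xf β r h t 1‖ < ‖Xf β r h t 0‖ := by
  have g1 := xm2R H B (by linarith) (by linarith)
  have g2 := xm1R1 H B (by linarith) (by linarith)
  have g3 := x1R2 H B h1 h2
  have g4 := x2R2 H B h1 h2
  have g5 := x3R H B (by linarith) (by linarith)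
  have hY := lt_of_lt_of_le (mul_pos (eN_pos r κ) (by positivity)) (x0lo2 H B h1 h2)
  unfold oth6
  norm_num at g1 g2 g3 g4 g5 ⊢
  linarith

theorem x0lo3 (H : D6 β r t κ s h T) (B : BX6 0.45 0.6 0.44118 0.37422 10 0.06 8.0633 β r κ T) (h1 : 0.75 ≤ s) (h2 : s ≤ 1) :
    eN r κ * (0.9199 * Real.exp (-(T * (0.5428 * (s - 1) ^ 2)))) ≤ ‖Xf β r h t 0‖ := by
  have hr := rgL (a := (-1)) (b1 := 0) (b2 := 0.2618) H.h1 H.h2 h1 h2 (by norm_num) (by norm_num) (by norm_num)
  have e : (s + -1) * h = (t - h) + κ := by rw [H.a0]; ring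
  rw [e] at hr
  obtain ⟨ha, hb⟩ := hr
  have hD := H.dom' (t' := t - h) (by linarith) (by linarith)
  have hk1 := B.hk1
  have hk2 := B.hk2
  have hk0 := H.k0
  have hy1 : -0.13 ≤ sy κ (t - h) := syL_ge hD 0.45 0.6 0.2618 0.13 0.87809 0.8781 0.1849 0.19025 0.25368 hk1 hk2 (by linarith) (by norm_num) (by norm_num) (by norm_num)
    (expm_ge (by norm_num) (by norm_num) (by norm_num) (by norm_num)) (expm_le (by norm_num) (by norm_num) (by norm_num)) (by norm_num)
    (by norm_num) (by norm_num) (by norm_num) (by norm_num) (by norm_num) (by norm_num)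
  have hy2 : sy κ (t - h) ≤ 0 := sy_nonpos hD (by linarith)
  exact H.x0lo hD (ε := 0.08) (c := 0.5428) (d := 1.0001) (l := 0.9199) (by norm_num) (JB6_k0a hD H.hβ H.hk1 H.hk2 (by linarith) (by linarith) H.ble H.bc')
    (V0_lo hD 0.5428 0.2618 0.1475 0.0516 0.5752 0.44118 (by linarith) (by linarith) (by norm_num) (fa1 B) (fa2 B) (fa3 B) (fa4 H B) (by norm_num) (by norm_num) (by norm_num) (by norm_num) (by norm_num))
    (D_up6 hD 0.45 0.6 (-0.13) 0 1.13883 1 1.0001 hk1 hk2 (by norm_num) hy1 hy2 (by norm_num) (by rw [neg_neg]; exact expn_le (by norm_num) (by norm_num) (by norm_num)) (by simp) (by norm_num) (by norm_num) (by norm_num) (by norm_num)) (by norm_num) (by norm_num)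


theorem x1R3 (H : D6 β r t κ s h T) (B : BX6 0.45 0.6 0.44118 0.37422 10 0.06 8.0633 β r κ T) (h1 : 0.75 ≤ s) (h2 : s ≤ 1) :
    ‖Xf β r h t 1‖ ≤ 0.27851 * ‖Xf β r h t 0‖ := by
  have hr := rgR (a := 0) (τ1 := 0.7853) (τm := 1.0472) H.h1 H.h2 h1 h2 (by norm_num) (by norm_num) (by norm_num)
  rw [add_zero, ← H.hs] at hr
  obtain ⟨ha, hb⟩ := hr
  have hD := H.dom' (t' := t) (by linarith) (by linarith)
  have hk1 := B.hk1
  have hk2 := B.hk2
  have hk0 := H.k0
  have hy1 : 0.212 ≤ sy κ t := syR_ge hD 0.45 0.6 0.7853 0.212 1.23614 1.23615 0.43676 0.58237 hk1 hk2 (by linarith) (by norm_num) (by norm_num)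
    (expn_ge (by norm_num) (by norm_num)) (expn_le (by norm_num) (by norm_num) (by norm_num)) (by norm_num)
    (by norm_num) (by norm_num) (by norm_num) (by norm_num) (by norm_num) (by norm_num)
  have hy2 : sy κ t ≤ 0.311 := syR_le hD 0.45 0.6 1.0472 0.311 1.36478 0.6877 0.70741 0.94323 hk1 hk2 (by linarith) (by norm_num) (by norm_num)
    (expn_ge (by norm_num) (by norm_num)) (by norm_num) (by norm_num) (Or.inr ((mul_le_mul_of_nonneg_left (expn_le (E := 1.36479) (by norm_num) (by norm_num) (by norm_num)) (by norm_num)).trans (by norm_num))) (by norm_num) (by norm_num) (by norm_num)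
  have hX := H.x1up hD (ε := 0.06) (c := 0.3626) (d := 1.2202) (U := 1.0086) (by norm_num) (JB6_k1b hD H.hβ H.hk1 H.hk2 (by linarith) (by linarith) H.ble H.bc')
    (VR_box6 hD 0.62 0.3626 0.45 0.44118 0.37422 0.7853 1.0472 _ _ _ _ _ ha hb (by norm_num) B.hk1 B.hψ B.hψ1 (by norm_num) (by norm_num) (by norm_num) rfl rfl (by norm_num) rfl rfl rfl (by norm_num) (by norm_num))
    (by norm_num) (D_lo6 hD 0.45 0.6 0.212 0.311 0.212 0.80896 1.2202 hk1 hk2 (by norm_num) hy1 hy2 (expm_ge (by norm_num) (by norm_num) (by norm_num) (by norm_num)) (by norm_num) (by norm_num) (by norm_num) (by norm_num) (by norm_num) (by norm_num)) (by norm_num) (by norm_num)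
  have e0 : s ^ 2 = (s + 0) ^ 2 := by ring
  rw [e0] at hX
  exact cmpT (eN_pos r κ) hX (x0lo3 H B (by linarith) (by linarith)) B.hT (by norm_num) (qD (a := 0) (s1 := 0.75) (q := 0.17003) (by norm_num) (by norm_num) h1 (by linarith) (by norm_num) (by norm_num)) (by norm_num)
    (expn 1 0.371 (by norm_num) (by norm_num) (E := 0.25401) (by norm_num) (by norm_num)) (by norm_num) (by norm_num) (by norm_num)


theorem x2R3 (H : D6 β r t κ s h T) (B : BX6 0.45 0.6 0.44118 0.37422 10 0.06 8.0633 β r κ T) (h1 : 0.75 ≤ s) (h2 : s ≤ 1) :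
    ‖Xf β r h (t) 2‖ ≤ 0.026353 * ‖Xf β r h t 0‖ := by
  have hr := rgR (a := 1) (τ1 := 1.8325) (τm := 2.0944) H.h1 H.h2 h1 h2 (by norm_num) (by norm_num) (by norm_num)
  have e : (s + ((2 : ℤ) : ℝ) - 1) * h + 2 * Real.pi * ((0 : ℤ) : ℝ) = (s + 1) * h := by push_cast; ring
  exact cellU (k := 2) (Y := ‖Xf β r h t 0‖) (g := 0.5428 * (s - 1) ^ 2) 0 0.45 0.6 1.2324 2.0944 0.38 10 0.06 0.5948 0.38 2.5318 0.9199 1.09663 0.03393 0.8518 0.969 3.1623 0.0028037 0.026353
    H.hβ H.hκ H.hs H.hT H.h0 H.hq2 (by norm_num) B.hk1 B.hk2 (by rw [e]; linarith [hr.1, B.hk2]) (by rw [e]; exact hr.2)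
    B.hR B.hb (x0lo3 H B (by linarith) (by linarith)) (by positivity) (gD (by norm_num) (by linarith : 0.75 ≤ s) (by linarith) (by norm_num))
    (by norm_num) (by norm_num) (by norm_num) (by norm_num) (by norm_num) (by norm_num) (by norm_num) (by norm_num) (by norm_num) (by norm_num) (by norm_num) (by norm_num) (by norm_num) (by norm_num) (by norm_num) (by norm_num) (by norm_num) (by norm_num) (by norm_num) 
    (expn 5 0.8899 (by norm_num) (by norm_num) (E := 0.0028037) (by norm_num) (by norm_num)) (by norm_num) (by norm_num)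


theorem outR3 (H : D6 β r t κ s h T) (B : BX6 0.45 0.6 0.44118 0.37422 10 0.06 8.0633 β r κ T) (h1 : 0.75 ≤ s) (h2 : s ≤ 1) :
    oth6 β r h t + ‖Xf β r h t 1‖ < ‖Xf β r h t 0‖ := by
  have g1 := xm2R H B (by linarith) (by linarith)
  have g2 := xm1R1 H B (by linarith) (by linarith)
  have g3 := x1R3 H B h1 h2
  have g4 := x2R3 H B h1 h2
  have g5 := x3R H B (by linarith) (by linarith)
  have hY := lt_of_lt_of_le (mul_pos (eN_pos r κ) (by positivity)) (x0lo3 H B h1 h2)
  unfold oth6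
  norm_num at g1 g2 g3 g4 g5 ⊢
  linarith

end Sok.B6K1
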