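import Pool.Agent.Lib.MP_816dec_an.R1B6C
import Pool.Agent.Lib.MP_816dec_an.JB6a1
import Pool.Agent.Lib.MP_816dec_an.JB6a2
import Pool.Agent.Lib.MP_816dec_an.JB6b1
import Pool.Agent.Lib.MP_816dec_an.JB6b2
import Pool.Agent.Lib.MP_816dec_an.JB6b3
import Pool.Agent.Lib.MP_816dec_an.JB6e1
import Pool.Agent.Lib.MP_816dec_an.JB6e2

/-!
MP_816dec_an (A3, row R1-b6): box [0.6, 0.75] of kappa (generated).
-/

set_option autoImplicit false

open Complex Set Filter Topology Metric

namespace Sok.B6K2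

variable {β r t κ s h T : ℝ}

theorem k3 (B : BX6 0.6 0.75 0.48 0.44117 10 0.075 7.0183 β r κ T) : κ ^ 2 ≤ 3 := by
  have h1 := B.hk1
  have h2 := B.hk2
  norm_num at h1 h2
  nlinarith

theorem fq (B : BX6 0.6 0.75 0.48 0.44117 10 0.075 7.0183 β r κ T) : κ * (1 / 2 - κ ^ 2 / 6) ≤ 0.1975 * (1 + κ ^ 2) := by
  have hA : 0 ≤ κ - 0.6 := by have := B.hk1; linarith
  have hB : 0 ≤ 0.75 - κ := by have := B.hk2; linarith
  linarith [mul_nonneg (pow_nonneg hA 0) (pow_nonneg hB 3), mul_nonneg (pow_nonneg hA 1) (pow_nonneg hB 2), mul_nonneg (pow_nonneg hA 2) (pow_nonneg hB 1), mul_nonneg (pow_nonneg hA 3) (pow_nonneg hB 0)]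

theorem fg (B : BX6 0.6 0.75 0.48 0.44117 10 0.075 7.0183 β r κ T) : 0.0811 * (1 + κ ^ 2) ^ 2 + 9 / 2 * 0.1975 ^ 2 * 0.6075 ≤ κ * (1 / 2 - κ ^ 2 / 6) := by
  have hA : 0 ≤ κ - 0.6 := by have := B.hk1; linarith
  have hB : 0 ≤ 0.75 - κ := by have := B.hk2; linarith
  linarith [mul_nonneg (pow_nonneg hA 0) (pow_nonneg hB 4), mul_nonneg (pow_nonneg hA 1) (pow_nonneg hB 3), mul_nonneg (pow_nonneg hA 2) (pow_nonneg hB 2), mul_nonneg (pow_nonneg hA 3) (pow_nonneg hB 1), mul_nonneg (pow_nonneg hA 4) (pow_nonneg hB 0)]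

theorem fa1 (B : BX6 0.6 0.75 0.48 0.44117 10 0.075 7.0183 β r κ T) : κ * (1 / 2 - κ ^ 2 / 6) ≤ 0.1428 * (1 + κ ^ 2) ^ 2 := by
  have hA : 0 ≤ κ - 0.6 := by have := B.hk1; linarith
  have hB : 0 ≤ 0.75 - κ := by have := B.hk2; linarith
  linarith [mul_nonneg (pow_nonneg hA 0) (pow_nonneg hB 4), mul_nonneg (pow_nonneg hA 1) (pow_nonneg hB 3), mul_nonneg (pow_nonneg hA 2) (pow_nonneg hB 2), mul_nonneg (pow_nonneg hA 3) (pow_nonneg hB 1), mul_nonneg (pow_nonneg hA 4) (pow_nonneg hB 0)]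

theorem fa2 (B : BX6 0.6 0.75 0.48 0.44117 10 0.075 7.0183 β r κ T) : κ ^ 4 ≤ 0.083 * (1 + κ ^ 2) ^ 3 := by
  have hA : 0 ≤ κ - 0.6 := by have := B.hk1; linarith
  have hB : 0 ≤ 0.75 - κ := by have := B.hk2; linarith
  linarith [mul_nonneg (pow_nonneg hA 0) (pow_nonneg hB 6), mul_nonneg (pow_nonneg hA 1) (pow_nonneg hB 5), mul_nonneg (pow_nonneg hA 2) (pow_nonneg hB 4), mul_nonneg (pow_nonneg hA 3) (pow_nonneg hB 3), mul_nonneg (pow_nonneg hA 4) (pow_nonneg hB 2), mul_nonneg (pow_nonneg hA 5) (pow_nonneg hB 1), mul_nonneg (pow_nonneg hA 6) (pow_nonneg hB 0)]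

theorem fa3 (B : BX6 0.6 0.75 0.48 0.44117 10 0.075 7.0183 β r κ T) : 1 ≤ 0.3976 * (1 + κ ^ 2) ^ 3 := by
  have hA : 0 ≤ κ - 0.6 := by have := B.hk1; linarith
  have hB : 0 ≤ 0.75 - κ := by have := B.hk2; linarith
  linarith [mul_nonneg (pow_nonneg hA 0) (pow_nonneg hB 6), mul_nonneg (pow_nonneg hA 1) (pow_nonneg hB 5), mul_nonneg (pow_nonneg hA 2) (pow_nonneg hB 4), mul_nonneg (pow_nonneg hA 3) (pow_nonneg hB 3), mul_nonneg (pow_nonneg hA 4) (pow_nonneg hB 2), mul_nonneg (pow_nonneg hA 5) (pow_nonneg hB 1), mul_nonneg (pow_nonneg hA 6) (pow_nonneg hB 0)]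

theorem fa4 (H : D6 β r t κ s h T) (B : BX6 0.6 0.75 0.48 0.44117 10 0.075 7.0183 β r κ T) : κ ≤ 0.48 * (1 + κ ^ 2) := by
  have h1 := B.hψ
  rwa [div_le_iff₀ H.A0] at h1

theorem mkB (H : D6 β r t κ s h T) (h1 : 0.6 ≤ κ) (h2 : κ ≤ 0.75) : BX6 0.6 0.75 0.48 0.44117 10 0.075 7.0183 β r κ T := by
  have hA : 0 ≤ κ - 0.6 := by linarith
  have hB : 0 ≤ 0.75 - κ := by linarith
  have hψ : κ / (1 + κ ^ 2) ≤ 0.48 := by
    rw [div_le_iff₀ H.A0]
    linarith [mul_nonneg (pow_nonneg hA 0) (pow_nonneg hB 2), mul_nonneg (pow_nonneg hA 1) (pow_nonneg hB 1), mul_nonneg (pow_nonneg hA 2) (pow_nonneg hB 0)]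
  have hψ1 : 0.44117 ≤ κ / (1 + κ ^ 2) := by
    rw [le_div_iff₀ H.A0]
    linarith [mul_nonneg (pow_nonneg hA 0) (pow_nonneg hB 2), mul_nonneg (pow_nonneg hA 1) (pow_nonneg hB 1), mul_nonneg (pow_nonneg hA 2) (pow_nonneg hB 0)]
  exact ⟨h1, h2, hψ, hψ1, H.hr, H.b0a h2 (by norm_num), H.T0a h2 (by norm_num) (by norm_num)⟩

theorem x1loG (H : D6 β r t κ s h T) (B : BX6 0.6 0.75 0.48 0.44117 10 0.075 7.0183 β r κ T) (h1 : 0 ≤ s) (h2 : s ≤ 0.45) :
    eN r κ * (0.8795 * Real.exp (-(T * (0.5 * s ^ 2)))) ≤ ‖Xf β r h t 1‖ := by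
  have hr := rgR (a := 0) (τ1 := 0) (τm := 0.4713) H.h1 H.h2 h1 h2 (by norm_num) (by norm_num) (by norm_num)
  rw [add_zero, ← H.hs] at hr
  obtain ⟨ha, hb⟩ := hr
  have hD := H.dom' (t' := t) (by linarith) (by linarith)
  have hk1 := B.hk1
  have hk2 := B.hk2
  have hk0 := H.k0
  have hy1 : 0 ≤ sy κ t := sy_nonneg hD (by linarith)
  have hy2 : sy κ t ≤ 0.191 := syR_le hD 0.6 0.75 0.4713 0.191 1.21045 0.2889 0.30826 0.38533 hk1 hk2 (by linarith) (by norm_num) (by norm_num)
    (expn_ge (by norm_num) (by norm_num)) (by norm_num) (by norm_num) (Or.inr ((mul_le_mul_of_nonneg_left (expn_le (E := 1.21046) (by norm_num) (by norm_num) (by norm_num)) (by norm_num)).trans (by norm_num))) (by norm_num) (by norm_num) (by norm_num)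
  exact H.x1lo hD (ε := 0.08) (c := 0.5) (d := 1.1969) (l := 0.8795) (by norm_num) (by
      rcases le_total (t + κ) 0.05 with g | g
      · exact JB6_k0a hD H.hβ H.hk1 H.hk2 (by linarith) (by linarith) H.ble H.bc'
      · exact (JB6_k1a hD H.hβ H.hk1 H.hk2 (by linarith) (by linarith) H.ble H.bc').trans (by norm_num))
    (V1lo6 hD 0.0811 0 0.6075 _ 0.1975 0.5 (by norm_num) ha (by linarith) (k3 B) rfl (fq B) (by norm_num) (fg B) (by norm_num))
    (D_up6 hD 0.6 0.75 0 0.191 1 0.82614 1.1969 hk1 hk2 (by norm_num) hy1 hy2 (by norm_num) (by simp) (expm_le (by norm_num) (by norm_num) (by norm_num)) (by norm_num) (by norm_num) (by norm_num) (by norm_num)) (by norm_num) (by norm_num)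


theorem xm1L (H : D6 β r t κ s h T) (B : BX6 0.6 0.75 0.48 0.44117 10 0.075 7.0183 β r κ T) (h1 : 0 ≤ s) (h2 : s ≤ 0.45) :
    ‖Xf β r h (t) (-1)‖ ≤ (0.00031 + 0.000519) * ‖Xf β r h t 1‖ := by
  have hr := rgL (a := (-2)) (b1 := 1.6231) (b2 := 2.0944) H.h1 H.h2 h1 h2 (by norm_num) (by norm_num) (by norm_num)
  have e : s + ((-1 : ℤ) : ℝ) - 1 = s + (-2) := by push_cast; ring
  exact cellL (k := -1) (Y := ‖Xf β r h t 1‖) (g := 0.5 * s ^ 2) 0.99 0.5704 0.6 0.75 0.48 0.44117 1.6231 2.0944 _ _ _ _ _ 0.2417 1.953 10 0.075 0.5151 0 1.2546 0.8795 1.26913 7.0183 0.00013733 0.00031 1.09663 0.10126 0.7866 0.9183 3.1623 0.00010279 0.000519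
    H.hβ H.hκ H.hs H.hT H.h0 H.hq2 (by norm_num) B.hk1 B.hk2 B.hψ B.hψ1 (by rw [e]; exact hr.1) (by rw [e]; exact hr.2)
    B.hR B.hb B.hT (x1loG H B (by linarith) (by linarith)) (by positivity) (gA (by norm_num) (by linarith) (by linarith : s ≤ 0.45) (by norm_num))
    (by rw [e]; exact qA (s2 := 0.45) (by norm_num) (by norm_num) (by linarith) h2 (by norm_num) (by norm_num))
    (by norm_num) (by norm_num) (by norm_num) (by norm_num) rfl rfl (by norm_num) rfl rfl rfl (by norm_num) (by norm_num) (by norm_num) (by norm_num) (by norm_num) (by norm_num) (by norm_num) (by norm_num) (by norm_num) (by norm_num) (by norm_num) (by norm_num) (by norm_num) (by norm_num) (by norm_num) (by norm_num) (by norm_num) (by norm_num)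
    (expn 8 0.9071 (by norm_num) (by norm_num) (E := 0.00013733) (by norm_num) (by norm_num)) (by norm_num) (by norm_num) (by norm_num) (by norm_num) (by norm_num) (by norm_num) (by norm_num) (by norm_num)
    (expn 9 0.1829 (by norm_num) (by norm_num) (E := 0.00010279) (by norm_num) (by norm_num)) (by norm_num) (by norm_num)


theorem xm2L (H : D6 β r t κ s h T) (B : BX6 0.6 0.75 0.48 0.44117 10 0.075 7.0183 β r κ T) (h1 : 0 ≤ s) (h2 : s ≤ 0.45) :
    ‖Xf β r h (t) (-2)‖ ≤ (0.00001 + 0.000424) * ‖Xf β r h t 1‖ := by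
  have hr := rgL (a := (-3)) (b1 := 2.6703) (b2 := 3.1416) H.h1 H.h2 h1 h2 (by norm_num) (by norm_num) (by norm_num)
  have e : s + ((-2 : ℤ) : ℝ) - 1 = s + (-3) := by push_cast; ring
  exact cellL (k := -2) (Y := ‖Xf β r h t 1‖) (g := 0.5 * s ^ 2) 0.33 0.2823 0.6 0.75 0.48 0.44117 2.6703 3.1416 _ _ _ _ _ 0.50108 1.6276 10 0.075 0.5151 0 1.0247 0.8795 1.7344 7.0183 0.0000051709 0.00001 1.09663 0.10126 0.7866 0.9183 3.1623 0.00010279 0.000424
    H.hβ H.hκ H.hs H.hT H.h0 H.hq2 (by norm_num) B.hk1 B.hk2 B.hψ B.hψ1 (by rw [e]; exact hr.1) (by rw [e]; exact hr.2)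
    B.hR B.hb B.hT (x1loG H B (by linarith) (by linarith)) (by positivity) (gA (by norm_num) (by linarith) (by linarith : s ≤ 0.45) (by norm_num))
    (by rw [e]; exact qA (s2 := 0.45) (by norm_num) (by norm_num) (by linarith) h2 (by norm_num) (by norm_num))
    (by norm_num) (by norm_num) (by norm_num) (by norm_num) rfl rfl (by norm_num) rfl rfl rfl (by norm_num) (by norm_num) (by norm_num) (by norm_num) (by norm_num) (by norm_num) (by norm_num) (by norm_num) (by norm_num) (by norm_num) (by norm_num) (by norm_num) (by norm_num) (by norm_num) (by norm_num) (by norm_num) (by norm_num) (by norm_num)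
    (expn 12 0.1725 (by norm_num) (by norm_num) (E := 0.0000051709) (by norm_num) (by norm_num)) (by norm_num) (by norm_num) (by norm_num) (by norm_num) (by norm_num) (by norm_num) (by norm_num) (by norm_num)
    (expn 9 0.1829 (by norm_num) (by norm_num) (E := 0.00010279) (by norm_num) (by norm_num)) (by norm_num) (by norm_num)


theorem x1lo0 (H : D6 β r t κ s h T) (B : BX6 0.6 0.75 0.48 0.44117 10 0.075 7.0183 β r κ T) (h1 : 0 ≤ s) (h2 : s ≤ 0.25) :
    eN r κ * (0.8953 * Real.exp (-(T * (0.5 * s ^ 2)))) ≤ ‖Xf β r h t 1‖ := by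
  have hr := rgR (a := 0) (τ1 := 0) (τm := 0.2618) H.h1 H.h2 h1 h2 (by norm_num) (by norm_num) (by norm_num)
  rw [add_zero, ← H.hs] at hr
  obtain ⟨ha, hb⟩ := hr
  have hD := H.dom' (t' := t) (by linarith) (by linarith)
  have hk1 := B.hk1
  have hk2 := B.hk2
  have hk0 := H.k0
  have hy1 : 0 ≤ sy κ t := sy_nonneg hD (by linarith)
  have hy2 : sy κ t ≤ 0.115 := syR_le hD 0.6 0.75 0.2618 0.115 1.12187 0.1612 0.17202 0.21503 hk1 hk2 (by linarith) (by norm_num) (by norm_num)
    (expn_ge (by norm_num) (by norm_num)) (by norm_num) (by norm_num) (Or.inr ((mul_le_mul_of_nonneg_left (expn_le (E := 1.12188) (by norm_num) (by norm_num) (by norm_num)) (by norm_num)).trans (by norm_num))) (by norm_num) (by norm_num) (by norm_num)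
  exact H.x1lo hD (ε := 0.08) (c := 0.5) (d := 1.1148) (l := 0.8953) (by norm_num) (by
      rcases le_total (t + κ) 0.05 with g | g
      · exact JB6_k0a hD H.hβ H.hk1 H.hk2 (by linarith) (by linarith) H.ble H.bc'
      · exact (JB6_k1a hD H.hβ H.hk1 H.hk2 (by linarith) (by linarith) H.ble H.bc').trans (by norm_num))
    (V1lo6 hD 0.0811 0 0.6075 _ 0.1975 0.5 (by norm_num) ha (by linarith) (k3 B) rfl (fq B) (by norm_num) (fg B) (by norm_num))
    (D_up6 hD 0.6 0.75 0 0.115 1 0.89137 1.1148 hk1 hk2 (by norm_num) hy1 hy2 (by norm_num) (by simp) (expm_le (by norm_num) (by norm_num) (by norm_num)) (by norm_num) (by norm_num) (by norm_num) (by norm_num)) (by norm_num) (by norm_num)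


theorem x0L0 (H : D6 β r t κ s h T) (B : BX6 0.6 0.75 0.48 0.44117 10 0.075 7.0183 β r κ T) (h1 : 0 ≤ s) (h2 : s ≤ 0.25) :
    ‖Xf β r h (t) 0‖ ≤ (0.25608 + 0.001233) * ‖Xf β r h t 1‖ := by
  have hr := rgL (a := (-1)) (b1 := 0.7853) (b2 := 1.0472) H.h1 H.h2 h1 h2 (by norm_num) (by norm_num) (by norm_num)
  have e : s + ((0 : ℤ) : ℝ) - 1 = s + (-1) := by push_cast; ring
  exact cellL (k := 0) (Y := ‖Xf β r h t 1‖) (g := 0.5 * s ^ 2) 1.15 0.5622 0.6 0.75 0.48 0.44117 0.7853 1.0472 _ _ _ _ _ 0.427 1.694 10 0.075 0.5151 0.1643 1.0323 0.8953 0.28498 7.0183 0.13534 0.25608 1.09663 0.03126 0.8007 0.9747 3.1623 0.00030236 0.001233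
    H.hβ H.hκ H.hs H.hT H.h0 H.hq2 (by norm_num) B.hk1 B.hk2 B.hψ B.hψ1 (by rw [e]; exact hr.1) (by rw [e]; exact hr.2)
    B.hR B.hb B.hT (x1lo0 H B (by linarith) (by linarith)) (by positivity) (gA (by norm_num) (by linarith) (by linarith : s ≤ 0.25) (by norm_num))
    (by rw [e]; exact qA (s2 := 0.25) (by norm_num) (by norm_num) (by linarith) h2 (by norm_num) (by norm_num))
    (by norm_num) (by norm_num) (by norm_num) (by norm_num) rfl rfl (by norm_num) rfl rfl rfl (by norm_num) (by norm_num) (by norm_num) (by norm_num) (by norm_num) (by norm_num) (by norm_num) (by norm_num) (by norm_num) (by norm_num) (by norm_num) (by norm_num) (by norm_num) (by norm_num) (by norm_num) (by norm_num) (by norm_num) (by norm_num)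
    (expn 2 0 (by norm_num) (by norm_num) (E := 0.13534) (by norm_num) (by norm_num)) (by norm_num) (by norm_num) (by norm_num) (by norm_num) (by norm_num) (by norm_num) (by norm_num) (by norm_num)
    (expn 8 0.1039 (by norm_num) (by norm_num) (E := 0.00030236) (by norm_num) (by norm_num)) (by norm_num) (by norm_num)


theorem x2L0 (H : D6 β r t κ s h T) (B : BX6 0.6 0.75 0.48 0.44117 10 0.075 7.0183 β r κ T) (h1 : 0 ≤ s) (h2 : s ≤ 0.25) :
    ‖Xf β r h (t) 2‖ ≤ (0.2804 + 0.040157) * ‖Xf β r h t 1‖ := by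
  have hr := rgR (a := 1) (τ1 := 1.0471) (τm := 1.309) H.h1 H.h2 h1 h2 (by norm_num) (by norm_num) (by norm_num)
  have e : s + ((2 : ℤ) : ℝ) - 1 = s + 1 := by push_cast; ring
  exact cellR (k := 2) (Y := ‖Xf β r h t 1‖) (g := 0.5 * s ^ 2) 0.42 0.3111 0.6 0.75 0.48 0.44117 1.0471 1.309 _ _ _ _ _ 0.14271 2.2279 10 0.075 0.5151 0.5149 1.006 0.8953 0.31109 7.0183 0.11268 0.2804 1.09663 0.03126 0.8007 0.9747 3.1623 0.010107 0.040157
    H.hβ H.hκ H.hs H.hT H.h0 H.hq2 (by norm_num) B.hk1 B.hk2 B.hψ B.hψ1 (by rw [e]; have h5 := hr.2; have h6 := B.hk1; have h7 := Real.pi_gt_d6; norm_num at h5 h6 h7 ⊢; linarith) (by rw [e]; exact hr.1) (by rw [e]; exact hr.2)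
    B.hR B.hb B.hT (x1lo0 H B (by linarith) (by linarith)) (by positivity) (gA (by norm_num) (by linarith) (by linarith : s ≤ 0.25) (by norm_num))
    (by rw [e]; exact qB (s1 := 0) (s2 := 0.25) (by norm_num) (by norm_num) h1 h2 (le_refl _) (by norm_num) (by norm_num) (by norm_num))
    (by norm_num) (by norm_num) (by norm_num) (by norm_num) rfl rfl (by norm_num) rfl rfl rfl (by norm_num) (by norm_num) (by norm_num) (by norm_num) (by norm_num) (by norm_num) (by norm_num) (by norm_num) (by norm_num) (by norm_num) (by norm_num) (by norm_num) (by norm_num) (by norm_num) (by norm_num) (by norm_num) (by norm_num) (by norm_num) (by norm_num)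
    (expn 2 0.1833 (by norm_num) (by norm_num) (E := 0.11268) (by norm_num) (by norm_num)) (by norm_num) (by norm_num) (by norm_num) (by norm_num) (by norm_num) (by norm_num) (by norm_num) (by norm_num)
    (expn 4 0.5979 (by norm_num) (by norm_num) (E := 0.010107) (by norm_num) (by norm_num)) (by norm_num) (by norm_num)


theorem x3L0 (H : D6 β r t κ s h T) (B : BX6 0.6 0.75 0.48 0.44117 10 0.075 7.0183 β r κ T) (h1 : 0 ≤ s) (h2 : s ≤ 0.25) :
    ‖Xf β r h (t) 3‖ ≤ 0.007899 * ‖Xf β r h t 1‖ := by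
  have hr := rgR (a := 2) (τ1 := 2.0943) (τm := 2.3562) H.h1 H.h2 h1 h2 (by norm_num) (by norm_num) (by norm_num)
  have e : (s + ((3 : ℤ) : ℝ) - 1) * h + 2 * Real.pi * ((0 : ℤ) : ℝ) = (s + 2) * h := by push_cast; ring
  exact cellU (k := 3) (Y := ‖Xf β r h t 1‖) (g := 0.5 * s ^ 2) 0 0.6 0.75 1.3442 2.3562 0.27 10 0.075 0.5151 0.27 2.2986 0.8953 1.09663 0.03126 0.8007 0.9747 3.1623 0.00087011 0.007899
    H.hβ H.hκ H.hs H.hT H.h0 H.hq2 (by norm_num) B.hk1 B.hk2 (by rw [e]; linarith [hr.1, B.hk2]) (by rw [e]; exact hr.2)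
    B.hR B.hb (x1lo0 H B (by linarith) (by linarith)) (by positivity) (gA (by norm_num) (by linarith) (by linarith : s ≤ 0.25) (by norm_num))
    (by norm_num) (by norm_num) (by norm_num) (by norm_num) (by norm_num) (by norm_num) (by norm_num) (by norm_num) (by norm_num) (by norm_num) (by norm_num) (by norm_num) (by norm_num) (by norm_num) (by norm_num) (by norm_num) (by norm_num) (by norm_num) (by norm_num) 
    (expn 7 0.0469 (by norm_num) (by norm_num) (E := 0.00087011) (by norm_num) (by norm_num)) (by norm_num) (by norm_num)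


theorem outL0 (H : D6 β r t κ s h T) (B : BX6 0.6 0.75 0.48 0.44117 10 0.075 7.0183 β r κ T) (h1 : 0 ≤ s) (h2 : s ≤ 0.25) :
    oth6 β r h t + ‖Xf β r h t 0‖ < ‖Xf β r h t 1‖ := by
  have g1 := xm2L H B (by linarith) (by linarith)
  have g2 := xm1L H B (by linarith) (by linarith)
  have g3 := x0L0 H B h1 h2
  have g4 := x2L0 H B h1 h2
  have g5 := x3L0 H B h1 h2
  have hY := lt_of_lt_of_le (mul_pos (eN_pos r κ) (by positivity)) (x1lo0 H B h1 h2)
  unfold oth6
  norm_num at g1 g2 g3 g4 g5 ⊢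
  linarith

theorem x1lo1 (H : D6 β r t κ s h T) (B : BX6 0.6 0.75 0.48 0.44117 10 0.075 7.0183 β r κ T) (h1 : 0.25 ≤ s) (h2 : s ≤ 0.35) :
    eN r κ * (0.9209 * Real.exp (-(T * (0.4788 * s ^ 2)))) ≤ ‖Xf β r h t 1‖ := by
  have hr := rgR (a := 0) (τ1 := 0.2617) (τm := 0.3666) H.h1 H.h2 h1 h2 (by norm_num) (by norm_num) (by norm_num)
  rw [add_zero, ← H.hs] at hr
  obtain ⟨ha, hb⟩ := hr
  have hD := H.dom' (t' := t) (by linarith) (by linarith)
  have hk1 := B.hk1
  have hk2 := B.hk2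
  have hk0 := H.k0
  have hy1 : 0.103 ≤ sy κ t := syR_ge hD 0.6 0.75 0.2617 0.103 1.10849 1.1085 0.15223 0.1903 hk1 hk2 (by linarith) (by norm_num) (by norm_num)
    (expn_ge (by norm_num) (by norm_num)) (expn_le (by norm_num) (by norm_num) (by norm_num)) (by norm_num)
    (by norm_num) (by norm_num) (by norm_num) (by norm_num) (by norm_num) (by norm_num)
  have hy2 : sy κ t ≤ 0.154 := syR_le hD 0.6 0.75 0.3666 0.154 1.16649 0.2295 0.23951 0.29941 hk1 hk2 (by linarith) (by norm_num) (by norm_num)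
    (expn_ge (by norm_num) (by norm_num)) (by norm_num) (by norm_num) (Or.inr ((mul_le_mul_of_nonneg_left (expn_le (E := 1.1665) (by norm_num) (by norm_num) (by norm_num)) (by norm_num)).trans (by norm_num))) (by norm_num) (by norm_num) (by norm_num)
  exact H.x1lo hD (ε := 0.045) (c := 0.4788) (d := 1.1564) (l := 0.9209) (by norm_num) (JB6_k1a hD H.hβ H.hk1 H.hk2 (by linarith) (by linarith) H.ble H.bc')
    (V1lo6 hD 0.0811 0.2617 0.6075 _ 0.1975 0.4788 (by norm_num) ha (by linarith) (k3 B) rfl (fq B) (by norm_num) (fg B) (by norm_num))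
    (D_up6 hD 0.6 0.75 0.103 0.154 0.90213 0.85728 1.1564 hk1 hk2 (by norm_num) hy1 hy2 (by norm_num) (expm_le (by norm_num) (by norm_num) (by norm_num)) (expm_le (by norm_num) (by norm_num) (by norm_num)) (by norm_num) (by norm_num) (by norm_num) (by norm_num)) (by norm_num) (by norm_num)


theorem x0L1 (H : D6 β r t κ s h T) (B : BX6 0.6 0.75 0.48 0.44117 10 0.075 7.0183 β r κ T) (h1 : 0.25 ≤ s) (h2 : s ≤ 0.35) :
    ‖Xf β r h t 0‖ ≤ 0.43432 * ‖Xf β r h t 1‖ := by
  have hr := rgL (a := (-1)) (b1 := 0.6806) (b2 := 0.7854) H.h1 H.h2 h1 h2 (by norm_num) (by norm_num) (by norm_num)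
  have e : (s + -1) * h = (t - h) + κ := by rw [H.a0]; ring
  rw [e] at hr
  obtain ⟨ha, hb⟩ := hr
  have hD := H.dom' (t' := t - h) (by linarith) (by linarith)
  have hk1 := B.hk1
  have hk2 := B.hk2
  have hk0 := H.k0
  have hy1 : -0.508 ≤ sy κ (t - h) := syL_ge hD 0.6 0.75 0.7854 0.508 0.60169 0.6017 0.5009 0.40754 0.50944 hk1 hk2 (by linarith) (by norm_num) (by norm_num) (by norm_num)
    (expm_ge (by norm_num) (by norm_num) (by norm_num) (by norm_num)) (expm_le (by norm_num) (by norm_num) (by norm_num)) (by norm_num)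
    (by norm_num) (by norm_num) (by norm_num) (by norm_num) (by norm_num) (by norm_num)
  have hy2 : sy κ (t - h) ≤ -0.411 := syL_le hD 0.6 0.75 0.6806 0.411 0.66298 0.66299 0.36331 0.45415 hk1 hk2 (by linarith) (by norm_num) (by norm_num) (by norm_num)
    (expm_ge (by norm_num) (by norm_num) (by norm_num) (by norm_num)) (expm_le (by norm_num) (by norm_num) (by norm_num)) (by norm_num)
    (by norm_num) (by norm_num) (by norm_num) (by norm_num) (by norm_num) (by norm_num)
  have hX := H.x0up hD (ε := 0.2) (c := 0.5372) (d := 0.7193) (U := 1.3031) (by norm_num) (JB6_k0c hD H.hβ H.hk1 H.hk2 (by linarith) (by linarith) H.ble H.bc')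
    (VL_box hD 1.08 0.5372 0.6 0.75 0.48 0.6806 0.7854 _ _ _ _ ha hb hk1 hk2 B.hψ (by norm_num) (by norm_num) (by norm_num) rfl rfl (by norm_num) rfl rfl (by norm_num) (by norm_num) (by norm_num))
    (by norm_num) (D_lo6 hD 0.6 0.75 (-0.508) (-0.411) (-0.508) 1.66196 0.7193 hk1 hk2 (by norm_num) hy1 hy2 (by rw [neg_neg]; exact expn_ge (by norm_num) (by norm_num)) (by norm_num) (by norm_num) (by norm_num) (by norm_num) (by norm_num) (by norm_num)) (by norm_num) (by norm_num)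
  exact cmpT (eN_pos r κ) hX (x1lo1 H B (by linarith) (by linarith)) B.hT (by norm_num) (qA (a := -1) (s2 := 0.35) (q := 0.16831) (by norm_num) (by norm_num) (by linarith) h2 (by norm_num) (by norm_num)) (by norm_num)
    (expn 1 0.1812 (by norm_num) (by norm_num) (E := 0.30693) (by norm_num) (by norm_num)) (by norm_num) (by norm_num) (by norm_num)


theorem x2L1 (H : D6 β r t κ s h T) (B : BX6 0.6 0.75 0.48 0.44117 10 0.075 7.0183 β r κ T) (h1 : 0.25 ≤ s) (h2 : s ≤ 0.35) :
    ‖Xf β r h (t) 2‖ ≤ (0.10199 + 0.026721) * ‖Xf β r h t 1‖ := by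
  have hr := rgR (a := 1) (τ1 := 1.3089) (τm := 1.4138) H.h1 H.h2 h1 h2 (by norm_num) (by norm_num) (by norm_num)
  have e : s + ((2 : ℤ) : ℝ) - 1 = s + 1 := by push_cast; ring
  exact cellR (k := 2) (Y := ‖Xf β r h t 1‖) (g := 0.4788 * s ^ 2) 0.43 0.3127 0.6 0.75 0.48 0.44117 1.3089 1.4138 _ _ _ _ _ 0.11566 2.3481 10 0.075 0.5151 0.4524 1.0348 0.9209 0.45866 7.0183 0.039999 0.10199 1.09663 0.05866 0.8236 0.9526 3.1623 0.0067252 0.026721
    H.hβ H.hκ H.hs H.hT H.h0 H.hq2 (by norm_num) B.hk1 B.hk2 B.hψ B.hψ1 (by rw [e]; have h5 := hr.2; have h6 := B.hk1; have h7 := Real.pi_gt_d6; norm_num at h5 h6 h7 ⊢; linarith) (by rw [e]; exact hr.1) (by rw [e]; exact hr.2)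
    B.hR B.hb B.hT (x1lo1 H B (by linarith) (by linarith)) (by positivity) (gA (by norm_num) (by linarith) (by linarith : s ≤ 0.35) (by norm_num))
    (by rw [e]; exact qB (s1 := 0.25) (s2 := 0.35) (by norm_num) (by norm_num) h1 h2 (le_refl _) (by norm_num) (by norm_num) (by norm_num))
    (by norm_num) (by norm_num) (by norm_num) (by norm_num) rfl rfl (by norm_num) rfl rfl rfl (by norm_num) (by norm_num) (by norm_num) (by norm_num) (by norm_num) (by norm_num) (by norm_num) (by norm_num) (by norm_num) (by norm_num) (by norm_num) (by norm_num) (by norm_num) (by norm_num) (by norm_num) (by norm_num) (by norm_num) (by norm_num) (by norm_num)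
    (expn 3 0.219 (by norm_num) (by norm_num) (E := 0.039999) (by norm_num) (by norm_num)) (by norm_num) (by norm_num) (by norm_num) (by norm_num) (by norm_num) (by norm_num) (by norm_num) (by norm_num)
    (expn 5 0.0019 (by norm_num) (by norm_num) (E := 0.0067252) (by norm_num) (by norm_num)) (by norm_num) (by norm_num)


theorem x3L1 (H : D6 β r t κ s h T) (B : BX6 0.6 0.75 0.48 0.44117 10 0.075 7.0183 β r κ T) (h1 : 0.25 ≤ s) (h2 : s ≤ 0.35) :
    ‖Xf β r h (t) 3‖ ≤ 0.00066 * ‖Xf β r h t 1‖ := by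
  have hr := rgR (a := 2) (τ1 := 2.3561) (τm := 2.461) H.h1 H.h2 h1 h2 (by norm_num) (by norm_num) (by norm_num)
  have e : (s + ((3 : ℤ) : ℝ) - 1) * h + 2 * Real.pi * ((0 : ℤ) : ℝ) = (s + 2) * h := by push_cast; ring
  exact cellU (k := 3) (Y := ‖Xf β r h t 1‖) (g := 0.4788 * s ^ 2) 0 0.6 0.75 1.606 2.461 0.01 10 0.075 0.5151 0.01 2.1292 0.9209 1.09663 0.05866 0.8236 0.9526 3.1623 0.000080688 0.00066
    H.hβ H.hκ H.hs H.hT H.h0 H.hq2 (by norm_num) B.hk1 B.hk2 (by rw [e]; linarith [hr.1, B.hk2]) (by rw [e]; exact hr.2)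
    B.hR B.hb (x1lo1 H B (by linarith) (by linarith)) (by positivity) (gA (by norm_num) (by linarith) (by linarith : s ≤ 0.35) (by norm_num))
    (by norm_num) (by norm_num) (by norm_num) (by norm_num) (by norm_num) (by norm_num) (by norm_num) (by norm_num) (by norm_num) (by norm_num) (by norm_num) (by norm_num) (by norm_num) (by norm_num) (by norm_num) (by norm_num) (by norm_num) (by norm_num) (by norm_num) 
    (expn 9 0.4259 (by norm_num) (by norm_num) (E := 0.000080688) (by norm_num) (by norm_num)) (by norm_num) (by norm_num)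


theorem outL1 (H : D6 β r t κ s h T) (B : BX6 0.6 0.75 0.48 0.44117 10 0.075 7.0183 β r κ T) (h1 : 0.25 ≤ s) (h2 : s ≤ 0.35) :
    oth6 β r h t + ‖Xf β r h t 0‖ < ‖Xf β r h t 1‖ := by
  have g1 := xm2L H B (by linarith) (by linarith)
  have g2 := xm1L H B (by linarith) (by linarith)
  have g3 := x0L1 H B h1 h2
  have g4 := x2L1 H B h1 h2
  have g5 := x3L1 H B h1 h2
  have hY := lt_of_lt_of_le (mul_pos (eN_pos r κ) (by positivity)) (x1lo1 H B h1 h2)
  unfold oth6
  norm_num at g1 g2 g3 g4 g5 ⊢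
  linarith

theorem x1lo2 (H : D6 β r t κ s h T) (B : BX6 0.6 0.75 0.48 0.44117 10 0.075 7.0183 β r κ T) (h1 : 0.35 ≤ s) (h2 : s ≤ 0.43) :
    eN r κ * (0.9145 * Real.exp (-(T * (0.4703 * s ^ 2)))) ≤ ‖Xf β r h t 1‖ := by
  have hr := rgR (a := 0) (τ1 := 0.3665) (τm := 0.4503) H.h1 H.h2 h1 h2 (by norm_num) (by norm_num) (by norm_num)
  rw [add_zero, ← H.hs] at hr
  obtain ⟨ha, hb⟩ := hr
  have hD := H.dom' (t' := t) (by linarith) (by linarith)
  have hk1 := B.hk1
  have hk2 := B.hk2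
  have hk0 := H.k0
  have hy1 : 0.139 ≤ sy κ t := syR_ge hD 0.6 0.75 0.3665 0.139 1.14912 1.14913 0.21297 0.26622 hk1 hk2 (by linarith) (by norm_num) (by norm_num)
    (expn_ge (by norm_num) (by norm_num)) (expn_le (by norm_num) (by norm_num) (by norm_num)) (by norm_num)
    (by norm_num) (by norm_num) (by norm_num) (by norm_num) (by norm_num) (by norm_num)
  have hy2 : sy κ t ≤ 0.184 := syR_le hD 0.6 0.75 0.4503 0.184 1.20201 0.2764 0.29489 0.36862 hk1 hk2 (by linarith) (by norm_num) (by norm_num)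
    (expn_ge (by norm_num) (by norm_num)) (by norm_num) (by norm_num) (Or.inr ((mul_le_mul_of_nonneg_left (expn_le (E := 1.20202) (by norm_num) (by norm_num) (by norm_num)) (by norm_num)).trans (by norm_num))) (by norm_num) (by norm_num) (by norm_num)
  exact H.x1lo hD (ε := 0.045) (c := 0.4703) (d := 1.1891) (l := 0.9145) (by norm_num) (JB6_k1a hD H.hβ H.hk1 H.hk2 (by linarith) (by linarith) H.ble H.bc')
    (V1lo6 hD 0.0811 0.3665 0.6075 _ 0.1975 0.4703 (by norm_num) ha (by linarith) (k3 B) rfl (fq B) (by norm_num) (fg B) (by norm_num))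
    (D_up6 hD 0.6 0.75 0.139 0.184 0.87023 0.83194 1.1891 hk1 hk2 (by norm_num) hy1 hy2 (by norm_num) (expm_le (by norm_num) (by norm_num) (by norm_num)) (expm_le (by norm_num) (by norm_num) (by norm_num)) (by norm_num) (by norm_num) (by norm_num) (by norm_num)) (by norm_num) (by norm_num)


theorem x0L2 (H : D6 β r t κ s h T) (B : BX6 0.6 0.75 0.48 0.44117 10 0.075 7.0183 β r κ T) (h1 : 0.35 ≤ s) (h2 : s ≤ 0.43) :
    ‖Xf β r h t 0‖ ≤ 0.73509 * ‖Xf β r h t 1‖ := by
  have hr := rgL (a := (-1)) (b1 := 0.5969) (b2 := 0.6807) H.h1 H.h2 h1 h2 (by norm_num) (by norm_num) (by norm_num)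
  have e : (s + -1) * h = (t - h) + κ := by rw [H.a0]; ring
  rw [e] at hr
  obtain ⟨ha, hb⟩ := hr
  have hD := H.dom' (t' := t - h) (by linarith) (by linarith)
  have hk1 := B.hk1
  have hk2 := B.hk2
  have hk0 := H.k0
  have hy1 : -0.421 ≤ sy κ (t - h) := syL_ge hD 0.6 0.75 0.6807 0.421 0.65639 0.6564 0.4145 0.36845 0.46058 hk1 hk2 (by linarith) (by norm_num) (by norm_num) (by norm_num)
    (expm_ge (by norm_num) (by norm_num) (by norm_num) (by norm_num)) (expm_le (by norm_num) (by norm_num) (by norm_num)) (by norm_num)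
    (by norm_num) (by norm_num) (by norm_num) (by norm_num) (by norm_num) (by norm_num)
  have hy2 : sy κ (t - h) ≤ -0.346 := syL_le hD 0.6 0.75 0.5969 0.346 0.70751 0.70752 0.32639 0.40801 hk1 hk2 (by linarith) (by norm_num) (by norm_num) (by norm_num)
    (expm_ge (by norm_num) (by norm_num) (by norm_num) (by norm_num)) (expm_le (by norm_num) (by norm_num) (by norm_num)) (by norm_num)
    (by norm_num) (by norm_num) (by norm_num) (by norm_num) (by norm_num) (by norm_num)
  have hX := H.x0up hD (ε := 0.144) (c := 0.5369) (d := 0.7305) (U := 1.2375) (by norm_num) (JB6_k0f hD H.hβ H.hk1 H.hk2 (by linarith) (by linarith) H.ble H.bc')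
    (VL_box hD 1.09 0.5369 0.6 0.75 0.48 0.5969 0.6807 _ _ _ _ ha hb hk1 hk2 B.hψ (by norm_num) (by norm_num) (by norm_num) rfl rfl (by norm_num) rfl rfl (by norm_num) (by norm_num) (by norm_num))
    (by norm_num) (D_lo6 hD 0.6 0.75 (-0.421) (-0.346) (-0.421) 1.52348 0.7305 hk1 hk2 (by norm_num) hy1 hy2 (by rw [neg_neg]; exact expn_ge (by norm_num) (by norm_num)) (by norm_num) (by norm_num) (by norm_num) (by norm_num) (by norm_num) (by norm_num)) (by norm_num) (by norm_num)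
  exact cmpT (eN_pos r κ) hX (x1lo2 H B (by linarith) (by linarith)) B.hT (by norm_num) (qA (a := -1) (s2 := 0.43) (q := 0.08748) (by norm_num) (by norm_num) (by linarith) h2 (by norm_num) (by norm_num)) (by norm_num)
    (expn 0 0.6139 (by norm_num) (by norm_num) (E := 0.54322) (by norm_num) (by norm_num)) (by norm_num) (by norm_num) (by norm_num)


theorem x2L2 (H : D6 β r t κ s h T) (B : BX6 0.6 0.75 0.48 0.44117 10 0.075 7.0183 β r κ T) (h1 : 0.35 ≤ s) (h2 : s ≤ 0.43) :
    ‖Xf β r h (t) 2‖ ≤ (0.07792 + 0.024592) * ‖Xf β r h t 1‖ := by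
  have hr := rgR (a := 1) (τ1 := 1.4137) (τm := 1.4975) H.h1 H.h2 h1 h2 (by norm_num) (by norm_num) (by norm_num)
  have e : s + ((2 : ℤ) : ℝ) - 1 = s + 1 := by push_cast; ring
  exact cellR (k := 2) (Y := ‖Xf β r h t 1‖) (g := 0.4703 * s ^ 2) 0.42 0.3068 0.6 0.75 0.48 0.44117 1.4137 1.4975 _ _ _ _ _ 0.10566 2.4018 10 0.075 0.5151 0.4196 1.0452 0.9145 0.50153 7.0183 0.029666 0.07792 1.09663 0.08696 0.8179 0.9298 3.1623 0.0060852 0.024592
    H.hβ H.hκ H.hs H.hT H.h0 H.hq2 (by norm_num) B.hk1 B.hk2 B.hψ B.hψ1 (by rw [e]; have h5 := hr.2; have h6 := B.hk1; have h7 := Real.pi_gt_d6; norm_num at h5 h6 h7 ⊢; linarith) (by rw [e]; exact hr.1) (by rw [e]; exact hr.2)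
    B.hR B.hb B.hT (x1lo2 H B (by linarith) (by linarith)) (by positivity) (gA (by norm_num) (by linarith) (by linarith : s ≤ 0.43) (by norm_num))
    (by rw [e]; exact qB (s1 := 0.35) (s2 := 0.43) (by norm_num) (by norm_num) h1 h2 (le_refl _) (by norm_num) (by norm_num) (by norm_num))
    (by norm_num) (by norm_num) (by norm_num) (by norm_num) rfl rfl (by norm_num) rfl rfl rfl (by norm_num) (by norm_num) (by norm_num) (by norm_num) (by norm_num) (by norm_num) (by norm_num) (by norm_num) (by norm_num) (by norm_num) (by norm_num) (by norm_num) (by norm_num) (by norm_num) (by norm_num) (by norm_num) (by norm_num) (by norm_num) (by norm_num)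
    (expn 3 0.5198 (by norm_num) (by norm_num) (E := 0.029666) (by norm_num) (by norm_num)) (by norm_num) (by norm_num) (by norm_num) (by norm_num) (by norm_num) (by norm_num) (by norm_num) (by norm_num)
    (expn 5 0.1019 (by norm_num) (by norm_num) (E := 0.0060852) (by norm_num) (by norm_num)) (by norm_num) (by norm_num)


theorem x3L2 (H : D6 β r t κ s h T) (B : BX6 0.6 0.75 0.48 0.44117 10 0.075 7.0183 β r κ T) (h1 : 0.35 ≤ s) (h2 : s ≤ 0.43) :
    ‖Xf β r h (t) 3‖ ≤ 0.0006 * ‖Xf β r h t 1‖ := by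
  have hr := rgR (a := 2) (τ1 := 2.4609) (τm := 2.5447) H.h1 H.h2 h1 h2 (by norm_num) (by norm_num) (by norm_num)
  have e : (s + ((3 : ℤ) : ℝ) - 1) * h + 2 * Real.pi * ((0 : ℤ) : ℝ) = (s + 2) * h := by push_cast; ring
  exact cellU (k := 3) (Y := ‖Xf β r h t 1‖) (g := 0.4703 * s ^ 2) 0 0.6 0.75 1.7108 2.5447 0.01 10 0.075 0.5151 0.01 1.532 0.9145 1.09663 0.08696 0.8179 0.9298 3.1623 0.00010126 0.0006
    H.hβ H.hκ H.hs H.hT H.h0 H.hq2 (by norm_num) B.hk1 B.hk2 (by rw [e]; linarith [hr.1, B.hk2]) (by rw [e]; exact hr.2)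
    B.hR B.hb (x1lo2 H B (by linarith) (by linarith)) (by positivity) (gA (by norm_num) (by linarith) (by linarith : s ≤ 0.43) (by norm_num))
    (by norm_num) (by norm_num) (by norm_num) (by norm_num) (by norm_num) (by norm_num) (by norm_num) (by norm_num) (by norm_num) (by norm_num) (by norm_num) (by norm_num) (by norm_num) (by norm_num) (by norm_num) (by norm_num) (by norm_num) (by norm_num) (by norm_num) 
    (expn 9 0.1979 (by norm_num) (by norm_num) (E := 0.00010126) (by norm_num) (by norm_num)) (by norm_num) (by norm_num)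


theorem outL2 (H : D6 β r t κ s h T) (B : BX6 0.6 0.75 0.48 0.44117 10 0.075 7.0183 β r κ T) (h1 : 0.35 ≤ s) (h2 : s ≤ 0.43) :
    oth6 β r h t + ‖Xf β r h t 0‖ < ‖Xf β r h t 1‖ := by
  have g1 := xm2L H B (by linarith) (by linarith)
  have g2 := xm1L H B (by linarith) (by linarith)
  have g3 := x0L2 H B h1 h2
  have g4 := x2L2 H B h1 h2
  have g5 := x3L2 H B h1 h2
  have hY := lt_of_lt_of_le (mul_pos (eN_pos r κ) (by positivity)) (x1lo2 H B h1 h2)
  unfold oth6
  norm_num at g1 g2 g3 g4 g5 ⊢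
  linarith

theorem x1lo3 (H : D6 β r t κ s h T) (B : BX6 0.6 0.75 0.48 0.44117 10 0.075 7.0183 β r κ T) (h1 : 0.43 ≤ s) (h2 : s ≤ 0.45) :
    eN r κ * (0.913 * Real.exp (-(T * (0.4635 * s ^ 2)))) ≤ ‖Xf β r h t 1‖ := by
  have hr := rgR (a := 0) (τ1 := 0.4502) (τm := 0.4713) H.h1 H.h2 h1 h2 (by norm_num) (by norm_num) (by norm_num)
  rw [add_zero, ← H.hs] at hr
  obtain ⟨ha, hb⟩ := hr
  have hD := H.dom' (t' := t) (by linarith) (by linarith)
  have hk1 := B.hk1
  have hk2 := B.hk2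
  have hk0 := H.k0
  have hy1 : 0.165 ≤ sy κ t := syR_ge hD 0.6 0.75 0.4502 0.165 1.17939 1.1794 0.25946 0.32434 hk1 hk2 (by linarith) (by norm_num) (by norm_num)
    (expn_ge (by norm_num) (by norm_num)) (expn_le (by norm_num) (by norm_num) (by norm_num)) (by norm_num)
    (by norm_num) (by norm_num) (by norm_num) (by norm_num) (by norm_num) (by norm_num)
  have hy2 : sy κ t ≤ 0.191 := syR_le hD 0.6 0.75 0.4713 0.191 1.21045 0.2889 0.30826 0.38533 hk1 hk2 (by linarith) (by norm_num) (by norm_num)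
    (expn_ge (by norm_num) (by norm_num)) (by norm_num) (by norm_num) (Or.inr ((mul_le_mul_of_nonneg_left (expn_le (E := 1.21046) (by norm_num) (by norm_num) (by norm_num)) (by norm_num)).trans (by norm_num))) (by norm_num) (by norm_num) (by norm_num)
  exact H.x1lo hD (ε := 0.045) (c := 0.4635) (d := 1.1969) (l := 0.913) (by norm_num) (JB6_k1a hD H.hβ H.hk1 H.hk2 (by linarith) (by linarith) H.ble H.bc')
    (V1lo6 hD 0.0811 0.4502 0.6075 _ 0.1975 0.4635 (by norm_num) ha (by linarith) (k3 B) rfl (fq B) (by norm_num) (fg B) (by norm_num))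
    (D_up6 hD 0.6 0.75 0.165 0.191 0.8479 0.82614 1.1969 hk1 hk2 (by norm_num) hy1 hy2 (by norm_num) (expm_le (by norm_num) (by norm_num) (by norm_num)) (expm_le (by norm_num) (by norm_num) (by norm_num)) (by norm_num) (by norm_num) (by norm_num) (by norm_num)) (by norm_num) (by norm_num)


theorem x0L3 (H : D6 β r t κ s h T) (B : BX6 0.6 0.75 0.48 0.44117 10 0.075 7.0183 β r κ T) (h1 : 0.43 ≤ s) (h2 : s ≤ 0.45) :
    ‖Xf β r h t 0‖ ≤ 0.80117 * ‖Xf β r h t 1‖ := by
  have hr := rgL (a := (-1)) (b1 := 0.5759) (b2 := 0.597) H.h1 H.h2 h1 h2 (by norm_num) (by norm_num) (by norm_num)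
  have e : (s + -1) * h = (t - h) + κ := by rw [H.a0]; ring
  rw [e] at hr
  obtain ⟨ha, hb⟩ := hr
  have hD := H.dom' (t' := t - h) (by linarith) (by linarith)
  have hk1 := B.hk1
  have hk2 := B.hk2
  have hk0 := H.k0
  have hy1 : -0.357 ≤ sy κ (t - h) := syL_ge hD 0.6 0.75 0.597 0.357 0.69977 0.69978 0.3539 0.33309 0.41637 hk1 hk2 (by linarith) (by norm_num) (by norm_num) (by norm_num)
    (expm_ge (by norm_num) (by norm_num) (by norm_num) (by norm_num)) (expm_le (by norm_num) (by norm_num) (by norm_num)) (by norm_num)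
    (by norm_num) (by norm_num) (by norm_num) (by norm_num) (by norm_num) (by norm_num)
  have hy2 : sy κ (t - h) ≤ -0.331 := syL_le hD 0.6 0.75 0.5759 0.331 0.7182 0.71821 0.31696 0.39622 hk1 hk2 (by linarith) (by norm_num) (by norm_num) (by norm_num)
    (expm_ge (by norm_num) (by norm_num) (by norm_num) (by norm_num)) (expm_le (by norm_num) (by norm_num) (by norm_num)) (by norm_num)
    (by norm_num) (by norm_num) (by norm_num) (by norm_num) (by norm_num) (by norm_num)
  have hX := H.x0up hD (ε := 0.11) (c := 0.5413) (d := 0.7508) (U := 1.1925) (by norm_num) (JB6_k0b hD H.hβ H.hk1 H.hk2 (by linarith) (by linarith) H.ble H.bc')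
    (VL_box hD 1.11 0.5413 0.6 0.75 0.48 0.5759 0.597 _ _ _ _ ha hb hk1 hk2 B.hψ (by norm_num) (by norm_num) (by norm_num) rfl rfl (by norm_num) rfl rfl (by norm_num) (by norm_num) (by norm_num))
    (by norm_num) (D_lo6 hD 0.6 0.75 (-0.357) (-0.331) (-0.357) 1.42903 0.7508 hk1 hk2 (by norm_num) hy1 hy2 (by rw [neg_neg]; exact expn_ge (by norm_num) (by norm_num)) (by norm_num) (by norm_num) (by norm_num) (by norm_num) (by norm_num) (by norm_num)) (by norm_num) (by norm_num)
  exact cmpT (eN_pos r κ) hX (x1lo3 H B (by linarith) (by linarith)) B.hT (by norm_num) (qA (a := -1) (s2 := 0.45) (q := 0.06988) (by norm_num) (by norm_num) (by linarith) h2 (by norm_num) (by norm_num)) (by norm_num)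
    (expn 0 0.4904 (by norm_num) (by norm_num) (E := 0.61339) (by norm_num) (by norm_num)) (by norm_num) (by norm_num) (by norm_num)


theorem x2L3 (H : D6 β r t κ s h T) (B : BX6 0.6 0.75 0.48 0.44117 10 0.075 7.0183 β r κ T) (h1 : 0.43 ≤ s) (h2 : s ≤ 0.45) :
    ‖Xf β r h (t) 2‖ ≤ (0.06033 + 0.018723) * ‖Xf β r h t 1‖ := by
  have hr := rgR (a := 1) (τ1 := 1.4974) (τm := 1.5185) H.h1 H.h2 h1 h2 (by norm_num) (by norm_num) (by norm_num)
  have e : s + ((2 : ℤ) : ℝ) - 1 = s + 1 := by push_cast; ring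
  exact cellR (k := 2) (Y := ‖Xf β r h t 1‖) (g := 0.4635 * s ^ 2) 0.42 0.3063 0.6 0.75 0.48 0.44117 1.4974 1.5185 _ _ _ _ _ 0.10142 2.4265 10 0.075 0.5151 0.3862 1.0495 0.913 0.54065 7.0183 0.022698 0.06033 1.09663 0.09386 0.8166 0.9243 3.1623 0.0046067 0.018723
    H.hβ H.hκ H.hs H.hT H.h0 H.hq2 (by norm_num) B.hk1 B.hk2 B.hψ B.hψ1 (by rw [e]; have h5 := hr.2; have h6 := B.hk1; have h7 := Real.pi_gt_d6; norm_num at h5 h6 h7 ⊢; linarith) (by rw [e]; exact hr.1) (by rw [e]; exact hr.2)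
    B.hR B.hb B.hT (x1lo3 H B (by linarith) (by linarith)) (by positivity) (gA (by norm_num) (by linarith) (by linarith : s ≤ 0.45) (by norm_num))
    (by rw [e]; exact qB (s1 := 0.43) (s2 := 0.45) (by norm_num) (by norm_num) h1 h2 (le_refl _) (by norm_num) (by norm_num) (by norm_num))
    (by norm_num) (by norm_num) (by norm_num) (by norm_num) rfl rfl (by norm_num) rfl rfl rfl (by norm_num) (by norm_num) (by norm_num) (by norm_num) (by norm_num) (by norm_num) (by norm_num) (by norm_num) (by norm_num) (by norm_num) (by norm_num) (by norm_num) (by norm_num) (by norm_num) (by norm_num) (by norm_num) (by norm_num) (by norm_num) (by norm_num)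
    (expn 3 0.7944 (by norm_num) (by norm_num) (E := 0.022698) (by norm_num) (by norm_num)) (by norm_num) (by norm_num) (by norm_num) (by norm_num) (by norm_num) (by norm_num) (by norm_num) (by norm_num)
    (expn 5 0.3809 (by norm_num) (by norm_num) (E := 0.0046067) (by norm_num) (by norm_num)) (by norm_num) (by norm_num)


theorem x3L3 (H : D6 β r t κ s h T) (B : BX6 0.6 0.75 0.48 0.44117 10 0.075 7.0183 β r κ T) (h1 : 0.43 ≤ s) (h2 : s ≤ 0.45) :
    ‖Xf β r h (t) 3‖ ≤ 0.000597 * ‖Xf β r h t 1‖ := by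
  have hr := rgR (a := 2) (τ1 := 2.5446) (τm := 2.5657) H.h1 H.h2 h1 h2 (by norm_num) (by norm_num) (by norm_num)
  have e : (s + ((3 : ℤ) : ℝ) - 1) * h + 2 * Real.pi * ((0 : ℤ) : ℝ) = (s + 2) * h := by push_cast; ring
  exact cellU (k := 3) (Y := ‖Xf β r h t 1‖) (g := 0.4635 * s ^ 2) 0 0.6 0.75 1.7945 2.5657 0.01 10 0.075 0.5151 0.01 1.4398 0.913 1.09663 0.09386 0.8166 0.9243 3.1623 0.00010698 0.000597
    H.hβ H.hκ H.hs H.hT H.h0 H.hq2 (by norm_num) B.hk1 B.hk2 (by rw [e]; linarith [hr.1, B.hk2]) (by rw [e]; exact hr.2)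
    B.hR B.hb (x1lo3 H B (by linarith) (by linarith)) (by positivity) (gA (by norm_num) (by linarith) (by linarith : s ≤ 0.45) (by norm_num))
    (by norm_num) (by norm_num) (by norm_num) (by norm_num) (by norm_num) (by norm_num) (by norm_num) (by norm_num) (by norm_num) (by norm_num) (by norm_num) (by norm_num) (by norm_num) (by norm_num) (by norm_num) (by norm_num) (by norm_num) (by norm_num) (by norm_num) 
    (expn 9 0.1429 (by norm_num) (by norm_num) (E := 0.00010698) (by norm_num) (by norm_num)) (by norm_num) (by norm_num)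


theorem outL3 (H : D6 β r t κ s h T) (B : BX6 0.6 0.75 0.48 0.44117 10 0.075 7.0183 β r κ T) (h1 : 0.43 ≤ s) (h2 : s ≤ 0.45) :
    oth6 β r h t + ‖Xf β r h t 0‖ < ‖Xf β r h t 1‖ := by
  have g1 := xm2L H B (by linarith) (by linarith)
  have g2 := xm1L H B (by linarith) (by linarith)
  have g3 := x0L3 H B h1 h2
  have g4 := x2L3 H B h1 h2
  have g5 := x3L3 H B h1 h2
  have hY := lt_of_lt_of_le (mul_pos (eN_pos r κ) (by positivity)) (x1lo3 H B h1 h2)
  unfold oth6
  norm_num at g1 g2 g3 g4 g5 ⊢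
  linarith

theorem x0loG (H : D6 β r t κ s h T) (B : BX6 0.6 0.75 0.48 0.44117 10 0.075 7.0183 β r κ T) (h1 : 0.58 ≤ s) (h2 : s ≤ 1) :
    eN r κ * (0.9199 * Real.exp (-(T * (0.5727 * (s - 1) ^ 2)))) ≤ ‖Xf β r h t 0‖ := by
  have hr := rgL (a := (-1)) (b1 := 0) (b2 := 0.4399) H.h1 H.h2 h1 h2 (by norm_num) (by norm_num) (by norm_num)
  have e : (s + -1) * h = (t - h) + κ := by rw [H.a0]; ring
  rw [e] at hr
  obtain ⟨ha, hb⟩ := hr
  have hD := H.dom' (t' := t - h) (by linarith) (by linarith)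
  have hk1 := B.hk1
  have hk2 := B.hk2
  have hk0 := H.k0
  have hy1 : -0.249 ≤ sy κ (t - h) := syL_ge hD 0.6 0.75 0.4399 0.249 0.77957 0.77958 0.248 0.25881 0.32353 hk1 hk2 (by linarith) (by norm_num) (by norm_num) (by norm_num)
    (expm_ge (by norm_num) (by norm_num) (by norm_num) (by norm_num)) (expm_le (by norm_num) (by norm_num) (by norm_num)) (by norm_num)
    (by norm_num) (by norm_num) (by norm_num) (by norm_num) (by norm_num) (by norm_num)
  have hy2 : sy κ (t - h) ≤ 0 := sy_nonpos hD (by linarith)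
  exact H.x0lo hD (ε := 0.08) (c := 0.5727) (d := 1.0001) (l := 0.9199) (by norm_num) (JB6_k0a hD H.hβ H.hk1 H.hk2 (by linarith) (by linarith) H.ble H.bc')
    (V0_lo hD 0.5727 0.4399 0.1428 0.083 0.3976 0.48 (by linarith) (by linarith) (by norm_num) (fa1 B) (fa2 B) (fa3 B) (fa4 H B) (by norm_num) (by norm_num) (by norm_num) (by norm_num) (by norm_num))
    (D_up6 hD 0.6 0.75 (-0.249) 0 1.28275 1 1.0001 hk1 hk2 (by norm_num) hy1 hy2 (by norm_num) (by rw [neg_neg]; exact expn_le (by norm_num) (by norm_num) (by norm_num)) (by simp) (by norm_num) (by norm_num) (by norm_num) (by norm_num)) (by norm_num) (by norm_num)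


theorem xm2R (H : D6 β r t κ s h T) (B : BX6 0.6 0.75 0.48 0.44117 10 0.075 7.0183 β r κ T) (h1 : 0.58 ≤ s) (h2 : s ≤ 1) :
    ‖Xf β r h (t) (-2)‖ ≤ (0.00002 + 0.000427) * ‖Xf β r h t 0‖ := by
  have hr := rgL (a := (-3)) (b1 := 2.0943) (b2 := 2.5343) H.h1 H.h2 h1 h2 (by norm_num) (by norm_num) (by norm_num)
  have e : s + ((-2 : ℤ) : ℝ) - 1 = s + (-3) := by push_cast; ring
  exact cellL (k := -2) (Y := ‖Xf β r h t 0‖) (g := 0.5727 * (s - 1) ^ 2) 0.53 0.4089 0.6 0.75 0.48 0.44117 2.0943 2.5343 _ _ _ _ _ 0.46955 1.6542 10 0.075 0.5151 0 1.0804 0.9199 1.63559 7.0183 0.000010361 0.00002 1.09663 0.10103 0.8227 0.9185 3.1623 0.00010259 0.000427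
    H.hβ H.hκ H.hs H.hT H.h0 H.hq2 (by norm_num) B.hk1 B.hk2 B.hψ B.hψ1 (by rw [e]; exact hr.1) (by rw [e]; exact hr.2)
    B.hR B.hb B.hT (x0loG H B (by linarith) (by linarith)) (by positivity) (gD (by norm_num) (by linarith : 0.58 ≤ s) (by linarith) (by norm_num))
    (by rw [e]; exact qC (s1 := 0.58) (s2 := 1) (b := 0) (by norm_num) (by norm_num) h1 h2 (by linarith) (by norm_num) (by norm_num) (by norm_num))
    (by norm_num) (by norm_num) (by norm_num) (by norm_num) rfl rfl (by norm_num) rfl rfl rfl (by norm_num) (by norm_num) (by norm_num) (by norm_num) (by norm_num) (by norm_num) (by norm_num) (by norm_num) (by norm_num) (by norm_num) (by norm_num) (by norm_num) (by norm_num) (by norm_num) (by norm_num) (by norm_num) (by norm_num) (by norm_num)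
    (expn 11 0.479 (by norm_num) (by norm_num) (E := 0.000010361) (by norm_num) (by norm_num)) (by norm_num) (by norm_num) (by norm_num) (by norm_num) (by norm_num) (by norm_num) (by norm_num) (by norm_num)
    (expn 9 0.1849 (by norm_num) (by norm_num) (E := 0.00010259) (by norm_num) (by norm_num)) (by norm_num) (by norm_num)


theorem x3R (H : D6 β r t κ s h T) (B : BX6 0.6 0.75 0.48 0.44117 10 0.075 7.0183 β r κ T) (h1 : 0.58 ≤ s) (h2 : s ≤ 1) :
    ‖Xf β r h (t) 3‖ ≤ 0.000599 * ‖Xf β r h t 0‖ := by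
  have hr := rgR (a := 2) (τ1 := 2.7017) (τm := 3.1416) H.h1 H.h2 h1 h2 (by norm_num) (by norm_num) (by norm_num)
  have e : (s + ((3 : ℤ) : ℝ) - 1) * h + 2 * Real.pi * ((0 : ℤ) : ℝ) = (s + 2) * h := by push_cast; ring
  exact cellU (k := 3) (Y := ‖Xf β r h t 0‖) (g := 0.5727 * (s - 1) ^ 2) 0 0.6 0.75 1.9516 3.1416 0.01 10 0.075 0.5151 0.01 1.3733 0.9199 1.09663 0.10103 0.8227 0.9185 3.1623 0.00011337 0.000599
    H.hβ H.hκ H.hs H.hT H.h0 H.hq2 (by norm_num) B.hk1 B.hk2 (by rw [e]; linarith [hr.1, B.hk2]) (by rw [e]; exact hr.2)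
    B.hR B.hb (x0loG H B (by linarith) (by linarith)) (by positivity) (gD (by norm_num) (by linarith : 0.58 ≤ s) (by linarith) (by norm_num))
    (by norm_num) (by norm_num) (by norm_num) (by norm_num) (by norm_num) (by norm_num) (by norm_num) (by norm_num) (by norm_num) (by norm_num) (by norm_num) (by norm_num) (by norm_num) (by norm_num) (by norm_num) (by norm_num) (by norm_num) (by norm_num) (by norm_num) 
    (expn 9 0.0849 (by norm_num) (by norm_num) (E := 0.00011337) (by norm_num) (by norm_num)) (by norm_num) (by norm_num)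


theorem x0lg0 (H : D6 β r t κ s h T) (B : BX6 0.6 0.75 0.48 0.44117 10 0.075 7.0183 β r κ T) (h1 : 0.58 ≤ s) (h2 : s ≤ 0.65) :
    eN r κ * (0.9385 * Real.exp (-(T * (0.5727 * (s - 1) ^ 2)))) ≤ ‖Xf β r h t 0‖ := by
  have hr := rgL (a := (-1)) (b1 := 0.3665) (b2 := 0.4399) H.h1 H.h2 h1 h2 (by norm_num) (by norm_num) (by norm_num)
  have e : (s + -1) * h = (t - h) + κ := by rw [H.a0]; ring
  rw [e] at hr
  obtain ⟨ha, hb⟩ := hr
  have hD := H.dom' (t' := t - h) (by linarith) (by linarith)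
  have hk1 := B.hk1
  have hk2 := B.hk2
  have hk0 := H.k0
  have hy1 : -0.249 ≤ sy κ (t - h) := syL_ge hD 0.6 0.75 0.4399 0.249 0.77957 0.77958 0.248 0.25881 0.32353 hk1 hk2 (by linarith) (by norm_num) (by norm_num) (by norm_num)
    (expm_ge (by norm_num) (by norm_num) (by norm_num) (by norm_num)) (expm_le (by norm_num) (by norm_num) (by norm_num)) (by norm_num)
    (by norm_num) (by norm_num) (by norm_num) (by norm_num) (by norm_num) (by norm_num)
  have hy2 : sy κ (t - h) ≤ -0.19 := syL_le hD 0.6 0.75 0.3665 0.19 0.82695 0.82696 0.20949 0.26188 hk1 hk2 (by linarith) (by norm_num) (by norm_num) (by norm_num)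
    (expm_ge (by norm_num) (by norm_num) (by norm_num) (by norm_num)) (expm_le (by norm_num) (by norm_num) (by norm_num)) (by norm_num)
    (by norm_num) (by norm_num) (by norm_num) (by norm_num) (by norm_num) (by norm_num)
  exact H.x0lo hD (ε := 0.08) (c := 0.5727) (d := 0.9233) (l := 0.9385) (by norm_num) (JB6_k0a hD H.hβ H.hk1 H.hk2 (by linarith) (by linarith) H.ble H.bc')
    (V0_lo hD 0.5727 0.4399 0.1428 0.083 0.3976 0.48 (by linarith) (by linarith) (by norm_num) (fa1 B) (fa2 B) (fa3 B) (fa4 H B) (by norm_num) (by norm_num) (by norm_num) (by norm_num) (by norm_num))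
    (D_up6 hD 0.6 0.75 (-0.249) (-0.19) 1.28275 1.20925 0.9233 hk1 hk2 (by norm_num) hy1 hy2 (by norm_num) (by rw [neg_neg]; exact expn_le (by norm_num) (by norm_num) (by norm_num)) (by rw [neg_neg]; exact expn_le (by norm_num) (by norm_num) (by norm_num)) (by norm_num) (by norm_num) (by norm_num) (by norm_num)) (by norm_num) (by norm_num)


theorem xm1R0 (H : D6 β r t κ s h T) (B : BX6 0.6 0.75 0.48 0.44117 10 0.075 7.0183 β r κ T) (h1 : 0.58 ≤ s) (h2 : s ≤ 0.65) :
    ‖Xf β r h (t) (-1)‖ ≤ (0.00099 + 0.000462) * ‖Xf β r h t 0‖ := by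
  have hr := rgL (a := (-2)) (b1 := 1.4137) (b2 := 1.4871) H.h1 H.h2 h1 h2 (by norm_num) (by norm_num) (by norm_num)
  have e : s + ((-1 : ℤ) : ℝ) - 1 = s + (-2) := by push_cast; ring
  exact cellL (k := -1) (Y := ‖Xf β r h t 0‖) (g := 0.5727 * (s - 1) ^ 2) 1.24 0.6202 0.6 0.75 0.48 0.44117 1.4137 1.4871 _ _ _ _ _ 0.56401 1.5801 10 0.075 0.5151 0 1.1928 0.9385 1.06015 7.0183 0.0005877 0.00099 1.09663 0.10103 0.8394 0.9185 3.1623 0.00010259 0.000462
    H.hβ H.hκ H.hs H.hT H.h0 H.hq2 (by norm_num) B.hk1 B.hk2 B.hψ B.hψ1 (by rw [e]; exact hr.1) (by rw [e]; exact hr.2)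
    B.hR B.hb B.hT (x0lg0 H B (by linarith) (by linarith)) (by positivity) (gD (by norm_num) (by linarith : 0.58 ≤ s) (by linarith) (by norm_num))
    (by rw [e]; exact qC (s1 := 0.58) (s2 := 0.65) (b := 0) (by norm_num) (by norm_num) h1 h2 (by linarith) (by norm_num) (by norm_num) (by norm_num))
    (by norm_num) (by norm_num) (by norm_num) (by norm_num) rfl rfl (by norm_num) rfl rfl rfl (by norm_num) (by norm_num) (by norm_num) (by norm_num) (by norm_num) (by norm_num) (by norm_num) (by norm_num) (by norm_num) (by norm_num) (by norm_num) (by norm_num) (by norm_num) (by norm_num) (by norm_num) (by norm_num) (by norm_num) (by norm_num)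
    (expn 7 0.4404 (by norm_num) (by norm_num) (E := 0.0005877) (by norm_num) (by norm_num)) (by norm_num) (by norm_num) (by norm_num) (by norm_num) (by norm_num) (by norm_num) (by norm_num) (by norm_num)
    (expn 9 0.1849 (by norm_num) (by norm_num) (E := 0.00010259) (by norm_num) (by norm_num)) (by norm_num) (by norm_num)


theorem x0lg1 (H : D6 β r t κ s h T) (B : BX6 0.6 0.75 0.48 0.44117 10 0.075 7.0183 β r κ T) (h1 : 0.65 ≤ s) (h2 : s ≤ 1) :
    eN r κ * (0.9199 * Real.exp (-(T * (0.5589 * (s - 1) ^ 2)))) ≤ ‖Xf β r h t 0‖ := by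
  have hr := rgL (a := (-1)) (b1 := 0) (b2 := 0.3666) H.h1 H.h2 h1 h2 (by norm_num) (by norm_num) (by norm_num)
  have e : (s + -1) * h = (t - h) + κ := by rw [H.a0]; ring
  rw [e] at hr
  obtain ⟨ha, hb⟩ := hr
  have hD := H.dom' (t' := t - h) (by linarith) (by linarith)
  have hk1 := B.hk1
  have hk2 := B.hk2
  have hk0 := H.k0
  have hy1 : -0.202 ≤ sy κ (t - h) := syL_ge hD 0.6 0.75 0.3666 0.202 0.81709 0.8171 0.2108 0.22006 0.2751 hk1 hk2 (by linarith) (by norm_num) (by norm_num) (by norm_num)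
    (expm_ge (by norm_num) (by norm_num) (by norm_num) (by norm_num)) (expm_le (by norm_num) (by norm_num) (by norm_num)) (by norm_num)
    (by norm_num) (by norm_num) (by norm_num) (by norm_num) (by norm_num) (by norm_num)
  have hy2 : sy κ (t - h) ≤ 0 := sy_nonpos hD (by linarith)
  exact H.x0lo hD (ε := 0.08) (c := 0.5589) (d := 1.0001) (l := 0.9199) (by norm_num) (JB6_k0a hD H.hβ H.hk1 H.hk2 (by linarith) (by linarith) H.ble H.bc')
    (V0_lo hD 0.5589 0.3666 0.1428 0.083 0.3976 0.48 (by linarith) (by linarith) (by norm_num) (fa1 B) (fa2 B) (fa3 B) (fa4 H B) (by norm_num) (by norm_num) (by norm_num) (by norm_num) (by norm_num))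
    (D_up6 hD 0.6 0.75 (-0.202) 0 1.22385 1 1.0001 hk1 hk2 (by norm_num) hy1 hy2 (by norm_num) (by rw [neg_neg]; exact expn_le (by norm_num) (by norm_num) (by norm_num)) (by simp) (by norm_num) (by norm_num) (by norm_num) (by norm_num)) (by norm_num) (by norm_num)


theorem xm1R1 (H : D6 β r t κ s h T) (B : BX6 0.6 0.75 0.48 0.44117 10 0.075 7.0183 β r κ T) (h1 : 0.65 ≤ s) (h2 : s ≤ 1) :
    ‖Xf β r h (t) (-1)‖ ≤ (0.0356 + 0.000344) * ‖Xf β r h t 0‖ := by
  have hr := rgL (a := (-2)) (b1 := 1.0471) (b2 := 1.4138) H.h1 H.h2 h1 h2 (by norm_num) (by norm_num) (by norm_num)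
  have e : s + ((-1 : ℤ) : ℝ) - 1 = s + (-2) := by push_cast; ring
  exact cellL (k := -1) (Y := ‖Xf β r h t 0‖) (g := 0.5589 * (s - 1) ^ 2) 1.13 0.57 0.6 0.75 0.48 0.44117 1.0471 1.4138 _ _ _ _ _ 0.34398 1.788 10 0.075 0.5151 0 1.1314 0.9199 0.56999 7.0183 0.018311 0.0356 1.09663 0.06847 0.8227 0.9447 3.1623 0.000079027 0.000344
    H.hβ H.hκ H.hs H.hT H.h0 H.hq2 (by norm_num) B.hk1 B.hk2 B.hψ B.hψ1 (by rw [e]; exact hr.1) (by rw [e]; exact hr.2)
    B.hR B.hb B.hT (x0lg1 H B (by linarith) (by linarith)) (by positivity) (gD (by norm_num) (by linarith : 0.65 ≤ s) (by linarith) (by norm_num))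
    (by rw [e]; exact qC (s1 := 0.65) (s2 := 1) (b := 0) (by norm_num) (by norm_num) h1 h2 (by linarith) (by norm_num) (by norm_num) (by norm_num))
    (by norm_num) (by norm_num) (by norm_num) (by norm_num) rfl rfl (by norm_num) rfl rfl rfl (by norm_num) (by norm_num) (by norm_num) (by norm_num) (by norm_num) (by norm_num) (by norm_num) (by norm_num) (by norm_num) (by norm_num) (by norm_num) (by norm_num) (by norm_num) (by norm_num) (by norm_num) (by norm_num) (by norm_num) (by norm_num)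
    (expn 4 0.0003 (by norm_num) (by norm_num) (E := 0.018311) (by norm_num) (by norm_num)) (by norm_num) (by norm_num) (by norm_num) (by norm_num) (by norm_num) (by norm_num) (by norm_num) (by norm_num)
    (expn 9 0.4469 (by norm_num) (by norm_num) (E := 0.000079027) (by norm_num) (by norm_num)) (by norm_num) (by norm_num)


theorem x0lo0 (H : D6 β r t κ s h T) (B : BX6 0.6 0.75 0.48 0.44117 10 0.075 7.0183 β r κ T) (h1 : 0.58 ≤ s) (h2 : s ≤ 0.6) :
    eN r κ * (0.9401 * Real.exp (-(T * (0.5727 * (s - 1) ^ 2)))) ≤ ‖Xf β r h t 0‖ := by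
  have hr := rgL (a := (-1)) (b1 := 0.4188) (b2 := 0.4399) H.h1 H.h2 h1 h2 (by norm_num) (by norm_num) (by norm_num)
  have e : (s + -1) * h = (t - h) + κ := by rw [H.a0]; ring
  rw [e] at hr
  obtain ⟨ha, hb⟩ := hr
  have hD := H.dom' (t' := t - h) (by linarith) (by linarith)
  have hk1 := B.hk1
  have hk2 := B.hk2
  have hk0 := H.k0
  have hy1 : -0.249 ≤ sy κ (t - h) := syL_ge hD 0.6 0.75 0.4399 0.249 0.77957 0.77958 0.248 0.25881 0.32353 hk1 hk2 (by linarith) (by norm_num) (by norm_num) (by norm_num)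
    (expm_ge (by norm_num) (by norm_num) (by norm_num) (by norm_num)) (expm_le (by norm_num) (by norm_num) (by norm_num)) (by norm_num)
    (by norm_num) (by norm_num) (by norm_num) (by norm_num) (by norm_num) (by norm_num)
  have hy2 : sy κ (t - h) ≤ -0.223 := syL_le hD 0.6 0.75 0.4188 0.223 0.80011 0.80012 0.23789 0.29738 hk1 hk2 (by linarith) (by norm_num) (by norm_num) (by norm_num)
    (expm_ge (by norm_num) (by norm_num) (by norm_num) (by norm_num)) (expm_le (by norm_num) (by norm_num) (by norm_num)) (by norm_num)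
    (by norm_num) (by norm_num) (by norm_num) (by norm_num) (by norm_num) (by norm_num)
  exact H.x0lo hD (ε := 0.08) (c := 0.5727) (d := 0.917) (l := 0.9401) (by norm_num) (JB6_k0a hD H.hβ H.hk1 H.hk2 (by linarith) (by linarith) H.ble H.bc')
    (V0_lo hD 0.5727 0.4399 0.1428 0.083 0.3976 0.48 (by linarith) (by linarith) (by norm_num) (fa1 B) (fa2 B) (fa3 B) (fa4 H B) (by norm_num) (by norm_num) (by norm_num) (by norm_num) (by norm_num))
    (D_up6 hD 0.6 0.75 (-0.249) (-0.223) 1.28275 1.24983 0.917 hk1 hk2 (by norm_num) hy1 hy2 (by norm_num) (by rw [neg_neg]; exact expn_le (by norm_num) (by norm_num) (by norm_num)) (by rw [neg_neg]; exact expn_le (by norm_num) (by norm_num) (by norm_num)) (by norm_num) (by norm_num) (by norm_num) (by norm_num)) (by norm_num) (by norm_num)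


theorem x1R0 (H : D6 β r t κ s h T) (B : BX6 0.6 0.75 0.48 0.44117 10 0.075 7.0183 β r κ T) (h1 : 0.58 ≤ s) (h2 : s ≤ 0.6) :
    ‖Xf β r h t 1‖ ≤ 0.82966 * ‖Xf β r h t 0‖ := by
  have hr := rgR (a := 0) (τ1 := 0.6073) (τm := 0.6284) H.h1 H.h2 h1 h2 (by norm_num) (by norm_num) (by norm_num)
  rw [add_zero, ← H.hs] at hr
  obtain ⟨ha, hb⟩ := hr
  have hD := H.dom' (t' := t) (by linarith) (by linarith)
  have hk1 := B.hk1
  have hk2 := B.hk2
  have hk0 := H.k0
  have hy1 : 0.209 ≤ sy κ t := syR_ge hD 0.6 0.75 0.6073 0.209 1.23244 1.23245 0.34343 0.42931 hk1 hk2 (by linarith) (by norm_num) (by norm_num)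
    (expn_ge (by norm_num) (by norm_num)) (expn_le (by norm_num) (by norm_num) (by norm_num)) (by norm_num)
    (by norm_num) (by norm_num) (by norm_num) (by norm_num) (by norm_num) (by norm_num)
  have hy2 : sy κ t ≤ 0.24 := syR_le hD 0.6 0.75 0.6284 0.24 1.27124 0.3983 0.40679 0.50851 hk1 hk2 (by linarith) (by norm_num) (by norm_num)
    (expn_ge (by norm_num) (by norm_num)) (by norm_num) (by norm_num) (Or.inr ((mul_le_mul_of_nonneg_left (expn_le (E := 1.27125) (by norm_num) (by norm_num) (by norm_num)) (by norm_num)).trans (by norm_num))) (by norm_num) (by norm_num) (by norm_num)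
  have hX := H.x1up hD (ε := 0.06) (c := 0.4161) (d := 1.1445) (U := 1.0249) (by norm_num) (JB6_k1b hD H.hβ H.hk1 H.hk2 (by linarith) (by linarith) H.ble H.bc')
    (VR_box6 hD 0.76 0.4161 0.6 0.48 0.44117 0.6073 0.6284 _ _ _ _ _ ha hb (by norm_num) B.hk1 B.hψ B.hψ1 (by norm_num) (by norm_num) (by norm_num) rfl rfl (by norm_num) rfl rfl rfl (by norm_num) (by norm_num))
    (by norm_num) (D_lo6 hD 0.6 0.75 0.209 0.24 0.209 0.81139 1.1445 hk1 hk2 (by norm_num) hy1 hy2 (expm_ge (by norm_num) (by norm_num) (by norm_num) (by norm_num)) (by norm_num) (by norm_num) (by norm_num) (by norm_num) (by norm_num) (by norm_num)) (by norm_num) (by norm_num)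
  have e0 : s ^ 2 = (s + 0) ^ 2 := by ring
  rw [e0] at hX
  exact cmpT (eN_pos r κ) hX (x0lo0 H B (by linarith) (by linarith)) B.hT (by norm_num) (qD (a := 0) (s1 := 0.58) (q := 0.03895) (by norm_num) (by norm_num) h1 (by linarith) (by norm_num) (by norm_num)) (by norm_num)
    (expn 0 0.2733 (by norm_num) (by norm_num) (E := 0.76101) (by norm_num) (by norm_num)) (by norm_num) (by norm_num) (by norm_num)


theorem x2R0 (H : D6 β r t κ s h T) (B : BX6 0.6 0.75 0.48 0.44117 10 0.075 7.0183 β r κ T) (h1 : 0.58 ≤ s) (h2 : s ≤ 0.6) :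
    ‖Xf β r h (t) 2‖ ≤ (0.03011 + 0.012119) * ‖Xf β r h t 0‖ := by
  have hr := rgR (a := 1) (τ1 := 1.6545) (τm := 1.6756) H.h1 H.h2 h1 h2 (by norm_num) (by norm_num) (by norm_num)
  have e : s + ((2 : ℤ) : ℝ) - 1 = s + 1 := by push_cast; ring
  exact cellR (k := 2) (Y := ‖Xf β r h t 0‖) (g := 0.5727 * (s - 1) ^ 2) 0.41 0.2985 0.6 0.75 0.48 0.44117 1.6545 1.6756 _ _ _ _ _ 0.07739 2.5962 10 0.075 0.5151 0.3366 1.0739 0.9401 0.64415 7.0183 0.010903 0.03011 1.09663 0.10103 0.8408 0.9185 3.1623 0.0030004 0.012119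
    H.hβ H.hκ H.hs H.hT H.h0 H.hq2 (by norm_num) B.hk1 B.hk2 B.hψ B.hψ1 (by rw [e]; have h5 := hr.2; have h6 := B.hk1; have h7 := Real.pi_gt_d6; norm_num at h5 h6 h7 ⊢; linarith) (by rw [e]; exact hr.1) (by rw [e]; exact hr.2)
    B.hR B.hb B.hT (x0lo0 H B (by linarith) (by linarith)) (by positivity) (gD (by norm_num) (by linarith : 0.58 ≤ s) (by linarith) (by norm_num))
    (by rw [e]; exact qD (s1 := 0.58) (by norm_num) (by norm_num) h1 (by linarith) (by norm_num) (by norm_num))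
    (by norm_num) (by norm_num) (by norm_num) (by norm_num) rfl rfl (by norm_num) rfl rfl rfl (by norm_num) (by norm_num) (by norm_num) (by norm_num) (by norm_num) (by norm_num) (by norm_num) (by norm_num) (by norm_num) (by norm_num) (by norm_num) (by norm_num) (by norm_num) (by norm_num) (by norm_num) (by norm_num) (by norm_num) (by norm_num) (by norm_num)
    (expn 4 0.5208 (by norm_num) (by norm_num) (E := 0.010903) (by norm_num) (by norm_num)) (by norm_num) (by norm_num) (by norm_num) (by norm_num) (by norm_num) (by norm_num) (by norm_num) (by norm_num)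
    (expn 5 0.8189 (by norm_num) (by norm_num) (E := 0.0030004) (by norm_num) (by norm_num)) (by norm_num) (by norm_num)


theorem outR0 (H : D6 β r t κ s h T) (B : BX6 0.6 0.75 0.48 0.44117 10 0.075 7.0183 β r κ T) (h1 : 0.58 ≤ s) (h2 : s ≤ 0.6) :
    oth6 β r h t + ‖Xf β r h t 1‖ < ‖Xf β r h t 0‖ := by
  have g1 := xm2R H B (by linarith) (by linarith)
  have g2 := xm1R0 H B (by linarith) (by linarith)
  have g3 := x1R0 H B h1 h2
  have g4 := x2R0 H B h1 h2
  have g5 := x3R H B (by linarith) (by linarith)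
  have hY := lt_of_lt_of_le (mul_pos (eN_pos r κ) (by positivity)) (x0lo0 H B h1 h2)
  unfold oth6
  norm_num at g1 g2 g3 g4 g5 ⊢
  linarith

theorem x0lo1 (H : D6 β r t κ s h T) (B : BX6 0.6 0.75 0.48 0.44117 10 0.075 7.0183 β r κ T) (h1 : 0.6 ≤ s) (h2 : s ≤ 0.65) :
    eN r κ * (0.9385 * Real.exp (-(T * (0.5687 * (s - 1) ^ 2)))) ≤ ‖Xf β r h t 0‖ := by
  have hr := rgL (a := (-1)) (b1 := 0.3665) (b2 := 0.4189) H.h1 H.h2 h1 h2 (by norm_num) (by norm_num) (by norm_num)
  have e : (s + -1) * h = (t - h) + κ := by rw [H.a0]; ring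
  rw [e] at hr
  obtain ⟨ha, hb⟩ := hr
  have hD := H.dom' (t' := t - h) (by linarith) (by linarith)
  have hk1 := B.hk1
  have hk2 := B.hk2
  have hk0 := H.k0
  have hy1 : -0.235 ≤ sy κ (t - h) := syL_ge hD 0.6 0.75 0.4189 0.235 0.79057 0.79058 0.2425 0.24771 0.30965 hk1 hk2 (by linarith) (by norm_num) (by norm_num) (by norm_num)
    (expm_ge (by norm_num) (by norm_num) (by norm_num) (by norm_num)) (expm_le (by norm_num) (by norm_num) (by norm_num)) (by norm_num)
    (by norm_num) (by norm_num) (by norm_num) (by norm_num) (by norm_num) (by norm_num)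
  have hy2 : sy κ (t - h) ≤ -0.19 := syL_le hD 0.6 0.75 0.3665 0.19 0.82695 0.82696 0.20949 0.26188 hk1 hk2 (by linarith) (by norm_num) (by norm_num) (by norm_num)
    (expm_ge (by norm_num) (by norm_num) (by norm_num) (by norm_num)) (expm_le (by norm_num) (by norm_num) (by norm_num)) (by norm_num)
    (by norm_num) (by norm_num) (by norm_num) (by norm_num) (by norm_num) (by norm_num)
  exact H.x0lo hD (ε := 0.08) (c := 0.5687) (d := 0.9233) (l := 0.9385) (by norm_num) (JB6_k0a hD H.hβ H.hk1 H.hk2 (by linarith) (by linarith) H.ble H.bc')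
    (V0_lo hD 0.5687 0.4189 0.1428 0.083 0.3976 0.48 (by linarith) (by linarith) (by norm_num) (fa1 B) (fa2 B) (fa3 B) (fa4 H B) (by norm_num) (by norm_num) (by norm_num) (by norm_num) (by norm_num))
    (D_up6 hD 0.6 0.75 (-0.235) (-0.19) 1.26491 1.20925 0.9233 hk1 hk2 (by norm_num) hy1 hy2 (by norm_num) (by rw [neg_neg]; exact expn_le (by norm_num) (by norm_num) (by norm_num)) (by rw [neg_neg]; exact expn_le (by norm_num) (by norm_num) (by norm_num)) (by norm_num) (by norm_num) (by norm_num) (by norm_num)) (by norm_num) (by norm_num)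


theorem x1R1 (H : D6 β r t κ s h T) (B : BX6 0.6 0.75 0.48 0.44117 10 0.075 7.0183 β r κ T) (h1 : 0.6 ≤ s) (h2 : s ≤ 0.65) :
    ‖Xf β r h t 1‖ ≤ 0.73415 * ‖Xf β r h t 0‖ := by
  have hr := rgR (a := 0) (τ1 := 0.6283) (τm := 0.6807) H.h1 H.h2 h1 h2 (by norm_num) (by norm_num) (by norm_num)
  rw [add_zero, ← H.hs] at hr
  obtain ⟨ha, hb⟩ := hr
  have hD := H.dom' (t' := t) (by linarith) (by linarith)
  have hk1 := B.hk1
  have hk2 := B.hk2
  have hk0 := H.k0
  have hy1 : 0.214 ≤ sy κ t := syR_ge hD 0.6 0.75 0.6283 0.214 1.23862 1.23863 0.35341 0.44178 hk1 hk2 (by linarith) (by norm_num) (by norm_num)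
    (expn_ge (by norm_num) (by norm_num)) (expn_le (by norm_num) (by norm_num) (by norm_num)) (by norm_num)
    (by norm_num) (by norm_num) (by norm_num) (by norm_num) (by norm_num) (by norm_num)
  have hy2 : sy κ t ≤ 0.256 := syR_le hD 0.6 0.75 0.6807 0.256 1.29175 0.4133 0.44091 0.55116 hk1 hk2 (by linarith) (by norm_num) (by norm_num)
    (expn_ge (by norm_num) (by norm_num)) (by norm_num) (by norm_num) (Or.inr ((mul_le_mul_of_nonneg_left (expn_le (E := 1.29176) (by norm_num) (by norm_num) (by norm_num)) (by norm_num)).trans (by norm_num))) (by norm_num) (by norm_num) (by norm_num)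
  have hX := H.x1up hD (ε := 0.06) (c := 0.4099) (d := 1.1485) (U := 1.024) (by norm_num) (JB6_k1b hD H.hβ H.hk1 H.hk2 (by linarith) (by linarith) H.ble H.bc')
    (VR_box6 hD 0.74 0.4099 0.6 0.48 0.44117 0.6283 0.6807 _ _ _ _ _ ha hb (by norm_num) B.hk1 B.hψ B.hψ1 (by norm_num) (by norm_num) (by norm_num) rfl rfl (by norm_num) rfl rfl rfl (by norm_num) (by norm_num))
    (by norm_num) (D_lo6 hD 0.6 0.75 0.214 0.256 0.214 0.80734 1.1485 hk1 hk2 (by norm_num) hy1 hy2 (expm_ge (by norm_num) (by norm_num) (by norm_num) (by norm_num)) (by norm_num) (by norm_num) (by norm_num) (by norm_num) (by norm_num) (by norm_num)) (by norm_num) (by norm_num)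
  have e0 : s ^ 2 = (s + 0) ^ 2 := by ring
  rw [e0] at hX
  exact cmpT (eN_pos r κ) hX (x0lo1 H B (by linarith) (by linarith)) B.hT (by norm_num) (qD (a := 0) (s1 := 0.6) (q := 0.05657) (by norm_num) (by norm_num) h1 (by linarith) (by norm_num) (by norm_num)) (by norm_num)
    (expn 0 0.397 (by norm_num) (by norm_num) (E := 0.6728499999999999) (by norm_num) (by norm_num)) (by norm_num) (by norm_num) (by norm_num)


theorem x2R1 (H : D6 β r t κ s h T) (B : BX6 0.6 0.75 0.48 0.44117 10 0.075 7.0183 β r κ T) (h1 : 0.6 ≤ s) (h2 : s ≤ 0.65) :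
    ‖Xf β r h (t) 2‖ ≤ (0.02817 + 0.009314) * ‖Xf β r h t 0‖ := by
  have hr := rgR (a := 1) (τ1 := 1.6755) (τm := 1.7279) H.h1 H.h2 h1 h2 (by norm_num) (by norm_num) (by norm_num)
  have e : s + ((2 : ℤ) : ℝ) - 1 = s + 1 := by push_cast; ring
  exact cellR (k := 2) (Y := ‖Xf β r h t 0‖) (g := 0.5687 * (s - 1) ^ 2) 0.39 0.2899 0.6 0.75 0.48 0.44117 1.6755 1.7279 _ _ _ _ _ 0.08386 2.5446 10 0.075 0.5151 0.3198 1.0674 0.9385 0.65115 7.0183 0.010389 0.02817 1.09663 0.091 0.8394 0.9266 3.1623 0.0023161 0.009314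
    H.hβ H.hκ H.hs H.hT H.h0 H.hq2 (by norm_num) B.hk1 B.hk2 B.hψ B.hψ1 (by rw [e]; have h5 := hr.2; have h6 := B.hk1; have h7 := Real.pi_gt_d6; norm_num at h5 h6 h7 ⊢; linarith) (by rw [e]; exact hr.1) (by rw [e]; exact hr.2)
    B.hR B.hb B.hT (x0lo1 H B (by linarith) (by linarith)) (by positivity) (gD (by norm_num) (by linarith : 0.6 ≤ s) (by linarith) (by norm_num))
    (by rw [e]; exact qD (s1 := 0.6) (by norm_num) (by norm_num) h1 (by linarith) (by norm_num) (by norm_num))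
    (by norm_num) (by norm_num) (by norm_num) (by norm_num) rfl rfl (by norm_num) rfl rfl rfl (by norm_num) (by norm_num) (by norm_num) (by norm_num) (by norm_num) (by norm_num) (by norm_num) (by norm_num) (by norm_num) (by norm_num) (by norm_num) (by norm_num) (by norm_num) (by norm_num) (by norm_num) (by norm_num) (by norm_num) (by norm_num) (by norm_num)
    (expn 4 0.5699 (by norm_num) (by norm_num) (E := 0.010389) (by norm_num) (by norm_num)) (by norm_num) (by norm_num) (by norm_num) (by norm_num) (by norm_num) (by norm_num) (by norm_num) (by norm_num)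
    (expn 6 0.0679 (by norm_num) (by norm_num) (E := 0.0023161) (by norm_num) (by norm_num)) (by norm_num) (by norm_num)


theorem outR1 (H : D6 β r t κ s h T) (B : BX6 0.6 0.75 0.48 0.44117 10 0.075 7.0183 β r κ T) (h1 : 0.6 ≤ s) (h2 : s ≤ 0.65) :
    oth6 β r h t + ‖Xf β r h t 1‖ < ‖Xf β r h t 0‖ := by
  have g1 := xm2R H B (by linarith) (by linarith)
  have g2 := xm1R0 H B (by linarith) (by linarith)
  have g3 := x1R1 H B h1 h2
  have g4 := x2R1 H B h1 h2
  have g5 := x3R H B (by linarith) (by linarith)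
  have hY := lt_of_lt_of_le (mul_pos (eN_pos r κ) (by positivity)) (x0lo1 H B h1 h2)
  unfold oth6
  norm_num at g1 g2 g3 g4 g5 ⊢
  linarith

theorem x0lo2 (H : D6 β r t κ s h T) (B : BX6 0.6 0.75 0.48 0.44117 10 0.075 7.0183 β r κ T) (h1 : 0.65 ≤ s) (h2 : s ≤ 0.75) :
    eN r κ * (0.9341 * Real.exp (-(T * (0.5589 * (s - 1) ^ 2)))) ≤ ‖Xf β r h t 0‖ := by
  have hr := rgL (a := (-1)) (b1 := 0.2617) (b2 := 0.3666) H.h1 H.h2 h1 h2 (by norm_num) (by norm_num) (by norm_num)
  have e : (s + -1) * h = (t - h) + κ := by rw [H.a0]; ring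
  rw [e] at hr
  obtain ⟨ha, hb⟩ := hr
  have hD := H.dom' (t' := t - h) (by linarith) (by linarith)
  have hk1 := B.hk1
  have hk2 := B.hk2
  have hk0 := H.k0
  have hy1 : -0.202 ≤ sy κ (t - h) := syL_ge hD 0.6 0.75 0.3666 0.202 0.81709 0.8171 0.2108 0.22006 0.2751 hk1 hk2 (by linarith) (by norm_num) (by norm_num) (by norm_num)
    (expm_ge (by norm_num) (by norm_num) (by norm_num) (by norm_num)) (expm_le (by norm_num) (by norm_num) (by norm_num)) (by norm_num)
    (by norm_num) (by norm_num) (by norm_num) (by norm_num) (by norm_num) (by norm_num)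
  have hy2 : sy κ (t - h) ≤ -0.129 := syL_le hD 0.6 0.75 0.2617 0.129 0.87897 0.87898 0.15118 0.18899 hk1 hk2 (by linarith) (by norm_num) (by norm_num) (by norm_num)
    (expm_ge (by norm_num) (by norm_num) (by norm_num) (by norm_num)) (expm_le (by norm_num) (by norm_num) (by norm_num)) (by norm_num)
    (by norm_num) (by norm_num) (by norm_num) (by norm_num) (by norm_num) (by norm_num)
  exact H.x0lo hD (ε := 0.08) (c := 0.5589) (d := 0.9409) (l := 0.9341) (by norm_num) (JB6_k0a hD H.hβ H.hk1 H.hk2 (by linarith) (by linarith) H.ble H.bc')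
    (V0_lo hD 0.5589 0.3666 0.1428 0.083 0.3976 0.48 (by linarith) (by linarith) (by norm_num) (fa1 B) (fa2 B) (fa3 B) (fa4 H B) (by norm_num) (by norm_num) (by norm_num) (by norm_num) (by norm_num))
    (D_up6 hD 0.6 0.75 (-0.202) (-0.129) 1.22385 1.1377 0.9409 hk1 hk2 (by norm_num) hy1 hy2 (by norm_num) (by rw [neg_neg]; exact expn_le (by norm_num) (by norm_num) (by norm_num)) (by rw [neg_neg]; exact expn_le (by norm_num) (by norm_num) (by norm_num)) (by norm_num) (by norm_num) (by norm_num) (by norm_num)) (by norm_num) (by norm_num)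


theorem x1R2 (H : D6 β r t κ s h T) (B : BX6 0.6 0.75 0.48 0.44117 10 0.075 7.0183 β r κ T) (h1 : 0.65 ≤ s) (h2 : s ≤ 0.75) :
    ‖Xf β r h t 1‖ ≤ 0.54652 * ‖Xf β r h t 0‖ := by
  have hr := rgR (a := 0) (τ1 := 0.6806) (τm := 0.7854) H.h1 H.h2 h1 h2 (by norm_num) (by norm_num) (by norm_num)
  rw [add_zero, ← H.hs] at hr
  obtain ⟨ha, hb⟩ := hr
  have hD := H.dom' (t' := t) (by linarith) (by linarith)
  have hk1 := B.hk1
  have hk2 := B.hk2
  have hk0 := H.k0
  have hy1 : 0.227 ≤ sy κ t := syR_ge hD 0.6 0.75 0.6806 0.227 1.25482 1.25483 0.37979 0.47475 hk1 hk2 (by linarith) (by norm_num) (by norm_num)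
    (expn_ge (by norm_num) (by norm_num)) (expn_le (by norm_num) (by norm_num) (by norm_num)) (by norm_num)
    (by norm_num) (by norm_num) (by norm_num) (by norm_num) (by norm_num) (by norm_num)
  have hy2 : sy κ t ≤ 0.284 := syR_le hD 0.6 0.75 0.7854 0.284 1.32843 0.503 0.50303 0.6288 hk1 hk2 (by linarith) (by norm_num) (by norm_num)
    (expn_ge (by norm_num) (by norm_num)) (by norm_num) (by norm_num) (Or.inr ((mul_le_mul_of_nonneg_left (expn_le (E := 1.32844) (by norm_num) (by norm_num) (by norm_num)) (by norm_num)).trans (by norm_num))) (by norm_num) (by norm_num) (by norm_num)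
  have hX := H.x1up hD (ε := 0.06) (c := 0.398) (d := 1.1591) (U := 1.0216) (by norm_num) (JB6_k1b hD H.hβ H.hk1 H.hk2 (by linarith) (by linarith) H.ble H.bc')
    (VR_box6 hD 0.71 0.398 0.6 0.48 0.44117 0.6806 0.7854 _ _ _ _ _ ha hb (by norm_num) B.hk1 B.hψ B.hψ1 (by norm_num) (by norm_num) (by norm_num) rfl rfl (by norm_num) rfl rfl rfl (by norm_num) (by norm_num))
    (by norm_num) (D_lo6 hD 0.6 0.75 0.227 0.284 0.227 0.79692 1.1591 hk1 hk2 (by norm_num) hy1 hy2 (expm_ge (by norm_num) (by norm_num) (by norm_num) (by norm_num)) (by norm_num) (by norm_num) (by norm_num) (by norm_num) (by norm_num) (by norm_num)) (by norm_num) (by norm_num)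
  have e0 : s ^ 2 = (s + 0) ^ 2 := by ring
  rw [e0] at hX
  exact cmpT (eN_pos r κ) hX (x0lo2 H B (by linarith) (by linarith)) B.hT (by norm_num) (qD (a := 0) (s1 := 0.65) (q := 0.09968) (by norm_num) (by norm_num) h1 (by linarith) (by norm_num) (by norm_num)) (by norm_num)
    (expn 0 0.6995 (by norm_num) (by norm_num) (E := 0.49971) (by norm_num) (by norm_num)) (by norm_num) (by norm_num) (by norm_num)


theorem x2R2 (H : D6 β r t κ s h T) (B : BX6 0.6 0.75 0.48 0.44117 10 0.075 7.0183 β r κ T) (h1 : 0.65 ≤ s) (h2 : s ≤ 0.75) :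
    ‖Xf β r h (t) 2‖ ≤ (0.0195 + 0.007341) * ‖Xf β r h t 0‖ := by
  have hr := rgR (a := 1) (τ1 := 1.7278) (τm := 1.8326) H.h1 H.h2 h1 h2 (by norm_num) (by norm_num) (by norm_num)
  have e : s + ((2 : ℤ) : ℝ) - 1 = s + 1 := by push_cast; ring
  exact cellR (k := 2) (Y := ‖Xf β r h t 0‖) (g := 0.5589 * (s - 1) ^ 2) 0.39 0.2873 0.6 0.75 0.48 0.44117 1.7278 1.8326 _ _ _ _ _ 0.06354 2.7274 10 0.075 0.5151 0.3117 1.0876 0.9341 0.7137 7.0183 0.0066783 0.0195 1.09663 0.06847 0.8354 0.9447 3.1623 0.0017829 0.007341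
    H.hβ H.hκ H.hs H.hT H.h0 H.hq2 (by norm_num) B.hk1 B.hk2 B.hψ B.hψ1 (by rw [e]; have h5 := hr.2; have h6 := B.hk1; have h7 := Real.pi_gt_d6; norm_num at h5 h6 h7 ⊢; linarith) (by rw [e]; exact hr.1) (by rw [e]; exact hr.2)
    B.hR B.hb B.hT (x0lo2 H B (by linarith) (by linarith)) (by positivity) (gD (by norm_num) (by linarith : 0.65 ≤ s) (by linarith) (by norm_num))
    (by rw [e]; exact qD (s1 := 0.65) (by norm_num) (by norm_num) h1 (by linarith) (by norm_num) (by norm_num))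
    (by norm_num) (by norm_num) (by norm_num) (by norm_num) rfl rfl (by norm_num) rfl rfl rfl (by norm_num) (by norm_num) (by norm_num) (by norm_num) (by norm_num) (by norm_num) (by norm_num) (by norm_num) (by norm_num) (by norm_num) (by norm_num) (by norm_num) (by norm_num) (by norm_num) (by norm_num) (by norm_num) (by norm_num) (by norm_num) (by norm_num)
    (expn 5 0.0089 (by norm_num) (by norm_num) (E := 0.0066783) (by norm_num) (by norm_num)) (by norm_num) (by norm_num) (by norm_num) (by norm_num) (by norm_num) (by norm_num) (by norm_num) (by norm_num)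
    (expn 6 0.3299 (by norm_num) (by norm_num) (E := 0.0017829) (by norm_num) (by norm_num)) (by norm_num) (by norm_num)


theorem outR2 (H : D6 β r t κ s h T) (B : BX6 0.6 0.75 0.48 0.44117 10 0.075 7.0183 β r κ T) (h1 : 0.65 ≤ s) (h2 : s ≤ 0.75) :
    oth6 β r h t + ‖Xf β r h t 1‖ < ‖Xf β r h t 0‖ := by
  have g1 := xm2R H B (by linarith) (by linarith)
  have g2 := xm1R1 H B (by linarith) (by linarith)
  have g3 := x1R2 H B h1 h2
  have g4 := x2R2 H B h1 h2
  have g5 := x3R H B (by linarith) (by linarith)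
  have hY := lt_of_lt_of_le (mul_pos (eN_pos r κ) (by positivity)) (x0lo2 H B h1 h2)
  unfold oth6
  norm_num at g1 g2 g3 g4 g5 ⊢
  linarith

theorem x0lo3 (H : D6 β r t κ s h T) (B : BX6 0.6 0.75 0.48 0.44117 10 0.075 7.0183 β r κ T) (h1 : 0.75 ≤ s) (h2 : s ≤ 1) :
    eN r κ * (0.9199 * Real.exp (-(T * (0.5406 * (s - 1) ^ 2)))) ≤ ‖Xf β r h t 0‖ := by
  have hr := rgL (a := (-1)) (b1 := 0) (b2 := 0.2618) H.h1 H.h2 h1 h2 (by norm_num) (by norm_num) (by norm_num)
  have e : (s + -1) * h = (t - h) + κ := by rw [H.a0]; ring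
  rw [e] at hr
  obtain ⟨ha, hb⟩ := hr
  have hD := H.dom' (t' := t - h) (by linarith) (by linarith)
  have hk1 := B.hk1
  have hk2 := B.hk2
  have hk0 := H.k0
  have hy1 : -0.139 ≤ sy κ (t - h) := syL_ge hD 0.6 0.75 0.2618 0.139 0.87022 0.87023 0.1511 0.16128 0.20161 hk1 hk2 (by linarith) (by norm_num) (by norm_num) (by norm_num)
    (expm_ge (by norm_num) (by norm_num) (by norm_num) (by norm_num)) (expm_le (by norm_num) (by norm_num) (by norm_num)) (by norm_num)
    (by norm_num) (by norm_num) (by norm_num) (by norm_num) (by norm_num) (by norm_num)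
  have hy2 : sy κ (t - h) ≤ 0 := sy_nonpos hD (by linarith)
  exact H.x0lo hD (ε := 0.08) (c := 0.5406) (d := 1.0001) (l := 0.9199) (by norm_num) (JB6_k0a hD H.hβ H.hk1 H.hk2 (by linarith) (by linarith) H.ble H.bc')
    (V0_lo hD 0.5406 0.2618 0.1428 0.083 0.3976 0.48 (by linarith) (by linarith) (by norm_num) (fa1 B) (fa2 B) (fa3 B) (fa4 H B) (by norm_num) (by norm_num) (by norm_num) (by norm_num) (by norm_num))
    (D_up6 hD 0.6 0.75 (-0.139) 0 1.14913 1 1.0001 hk1 hk2 (by norm_num) hy1 hy2 (by norm_num) (by rw [neg_neg]; exact expn_le (by norm_num) (by norm_num) (by norm_num)) (by simp) (by norm_num) (by norm_num) (by norm_num) (by norm_num)) (by norm_num) (by norm_num)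


theorem x1R3 (H : D6 β r t κ s h T) (B : BX6 0.6 0.75 0.48 0.44117 10 0.075 7.0183 β r κ T) (h1 : 0.75 ≤ s) (h2 : s ≤ 1) :
    ‖Xf β r h t 1‖ ≤ 0.32532 * ‖Xf β r h t 0‖ := by
  have hr := rgR (a := 0) (τ1 := 0.7853) (τm := 1.0472) H.h1 H.h2 h1 h2 (by norm_num) (by norm_num) (by norm_num)
  rw [add_zero, ← H.hs] at hr
  obtain ⟨ha, hb⟩ := hr
  have hD := H.dom' (t' := t) (by linarith) (by linarith)
  have hk1 := B.hk1
  have hk2 := B.hk2
  have hk0 := H.k0
  have hy1 : 0.252 ≤ sy κ t := syR_ge hD 0.6 0.75 0.7853 0.252 1.28659 1.2866 0.43229 0.54038 hk1 hk2 (by linarith) (by norm_num) (by norm_num)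
    (expn_ge (by norm_num) (by norm_num)) (expn_le (by norm_num) (by norm_num) (by norm_num)) (by norm_num)
    (by norm_num) (by norm_num) (by norm_num) (by norm_num) (by norm_num) (by norm_num)
  have hy2 : sy κ t ≤ 0.348 := syR_le hD 0.6 0.75 1.0472 0.348 1.41623 0.616 0.65713 0.82142 hk1 hk2 (by linarith) (by norm_num) (by norm_num)
    (expn_ge (by norm_num) (by norm_num)) (by norm_num) (by norm_num) (Or.inr ((mul_le_mul_of_nonneg_left (expn_le (E := 1.41624) (by norm_num) (by norm_num) (by norm_num)) (by norm_num)).trans (by norm_num))) (by norm_num) (by norm_num) (by norm_num)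
  have hX := H.x1up hD (ε := 0.06) (c := 0.37) (d := 1.18) (U := 1.0171) (by norm_num) (JB6_k1b hD H.hβ H.hk1 H.hk2 (by linarith) (by linarith) H.ble H.bc')
    (VR_box6 hD 0.64 0.37 0.6 0.48 0.44117 0.7853 1.0472 _ _ _ _ _ ha hb (by norm_num) B.hk1 B.hψ B.hψ1 (by norm_num) (by norm_num) (by norm_num) rfl rfl (by norm_num) rfl rfl rfl (by norm_num) (by norm_num))
    (by norm_num) (D_lo6 hD 0.6 0.75 0.252 0.348 0.252 0.77724 1.18 hk1 hk2 (by norm_num) hy1 hy2 (expm_ge (by norm_num) (by norm_num) (by norm_num) (by norm_num)) (by norm_num) (by norm_num) (by norm_num) (by norm_num) (by norm_num) (by norm_num)) (by norm_num) (by norm_num)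
  have e0 : s ^ 2 = (s + 0) ^ 2 := by ring
  rw [e0] at hX
  exact cmpT (eN_pos r κ) hX (x0lo3 H B (by linarith) (by linarith)) B.hT (by norm_num) (qD (a := 0) (s1 := 0.75) (q := 0.17433) (by norm_num) (by norm_num) h1 (by linarith) (by norm_num) (by norm_num)) (by norm_num)
    (expn 1 0.2235 (by norm_num) (by norm_num) (E := 0.29423) (by norm_num) (by norm_num)) (by norm_num) (by norm_num) (by norm_num)


theorem x2R3 (H : D6 β r t κ s h T) (B : BX6 0.6 0.75 0.48 0.44117 10 0.075 7.0183 β r κ T) (h1 : 0.75 ≤ s) (h2 : s ≤ 1) :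
    ‖Xf β r h (t) 2‖ ≤ (0.01251 + 0.003808) * ‖Xf β r h t 0‖ := by
  have hr := rgR (a := 1) (τ1 := 1.8325) (τm := 2.0944) H.h1 H.h2 h1 h2 (by norm_num) (by norm_num) (by norm_num)
  have e : s + ((2 : ℤ) : ℝ) - 1 = s + 1 := by push_cast; ring
  exact cellR (k := 2) (Y := ‖Xf β r h t 0‖) (g := 0.5406 * (s - 1) ^ 2) 0.36 0.27 0.6 0.75 0.48 0.44117 1.8325 2.0944 _ _ _ _ _ 0.04354 2.9977 10 0.075 0.5151 0.2708 1.107 0.9199 0.79308 7.0183 0.0038363 0.01251 1.09663 0.03379 0.8227 0.9727 3.1623 0.00089481 0.003808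
    H.hβ H.hκ H.hs H.hT H.h0 H.hq2 (by norm_num) B.hk1 B.hk2 B.hψ B.hψ1 (by rw [e]; have h5 := hr.2; have h6 := B.hk1; have h7 := Real.pi_gt_d6; norm_num at h5 h6 h7 ⊢; linarith) (by rw [e]; exact hr.1) (by rw [e]; exact hr.2)
    B.hR B.hb B.hT (x0lo3 H B (by linarith) (by linarith)) (by positivity) (gD (by norm_num) (by linarith : 0.75 ≤ s) (by linarith) (by norm_num))
    (by rw [e]; exact qD (s1 := 0.75) (by norm_num) (by norm_num) h1 (by linarith) (by norm_num) (by norm_num))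
    (by norm_num) (by norm_num) (by norm_num) (by norm_num) rfl rfl (by norm_num) rfl rfl rfl (by norm_num) (by norm_num) (by norm_num) (by norm_num) (by norm_num) (by norm_num) (by norm_num) (by norm_num) (by norm_num) (by norm_num) (by norm_num) (by norm_num) (by norm_num) (by norm_num) (by norm_num) (by norm_num) (by norm_num) (by norm_num) (by norm_num)
    (expn 5 0.566 (by norm_num) (by norm_num) (E := 0.0038363) (by norm_num) (by norm_num)) (by norm_num) (by norm_num) (by norm_num) (by norm_num) (by norm_num) (by norm_num) (by norm_num) (by norm_num)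
    (expn 7 0.0189 (by norm_num) (by norm_num) (E := 0.00089481) (by norm_num) (by norm_num)) (by norm_num) (by norm_num)


theorem outR3 (H : D6 β r t κ s h T) (B : BX6 0.6 0.75 0.48 0.44117 10 0.075 7.0183 β r κ T) (h1 : 0.75 ≤ s) (h2 : s ≤ 1) :
    oth6 β r h t + ‖Xf β r h t 1‖ < ‖Xf β r h t 0‖ := by
  have g1 := xm2R H B (by linarith) (by linarith)
  have g2 := xm1R1 H B (by linarith) (by linarith)
  have g3 := x1R3 H B h1 h2
  have g4 := x2R3 H B h1 h2
  have g5 := x3R H B (by linarith) (by linarith)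
  have hY := lt_of_lt_of_le (mul_pos (eN_pos r κ) (by positivity)) (x0lo3 H B h1 h2)
  unfold oth6
  norm_num at g1 g2 g3 g4 g5 ⊢
  linarith

end Sok.B6K2
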