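import Pool.Agent.Lib.MP_816dec_an.R1B6C
import Pool.Agent.Lib.MP_816dec_an.JB6a1
import Pool.Agent.Lib.MP_816dec_an.JB6a2
import Pool.Agent.Lib.MP_816dec_an.JB6b1
import Pool.Agent.Lib.MP_816dec_an.JB6b2
import Pool.Agent.Lib.MP_816dec_an.JB6b3
import Pool.Agent.Lib.MP_816dec_an.JB6e1
import Pool.Agent.Lib.MP_816dec_an.JB6e2

/-!
MP_816dec_an (A3, row R1-b6): box [0.75, 0.9] of kappa (generated).
-/

set_option autoImplicit false

open Complex Set Filter Topology Metric

namespace Sok.B6K3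

variable {β r t κ s h T : ℝ}

theorem k3 (B : BX6 0.75 0.9 0.49724 0.48 10 0.09 6.0586 β r κ T) : κ ^ 2 ≤ 3 := by
  have h1 := B.hk1
  have h2 := B.hk2
  norm_num at h1 h2
  nlinarith

theorem fq (B : BX6 0.75 0.9 0.49724 0.48 10 0.09 6.0586 β r κ T) : κ * (1 / 2 - κ ^ 2 / 6) ≤ 0.195 * (1 + κ ^ 2) := by
  have hA : 0 ≤ κ - 0.75 := by have := B.hk1; linarith
  have hB : 0 ≤ 0.9 - κ := by have := B.hk2; linarith
  linarith [mul_nonneg (pow_nonneg hA 0) (pow_nonneg hB 3), mul_nonneg (pow_nonneg hA 1) (pow_nonneg hB 2), mul_nonneg (pow_nonneg hA 2) (pow_nonneg hB 1), mul_nonneg (pow_nonneg hA 3) (pow_nonneg hB 0)]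

theorem fg (B : BX6 0.75 0.9 0.49724 0.48 10 0.09 6.0586 β r κ T) : 0.0685 * (1 + κ ^ 2) ^ 2 + 9 / 2 * 0.195 ^ 2 * 0.6075 ≤ κ * (1 / 2 - κ ^ 2 / 6) := by
  have hA : 0 ≤ κ - 0.75 := by have := B.hk1; linarith
  have hB : 0 ≤ 0.9 - κ := by have := B.hk2; linarith
  linarith [mul_nonneg (pow_nonneg hA 0) (pow_nonneg hB 4), mul_nonneg (pow_nonneg hA 1) (pow_nonneg hB 3), mul_nonneg (pow_nonneg hA 2) (pow_nonneg hB 2), mul_nonneg (pow_nonneg hA 3) (pow_nonneg hB 1), mul_nonneg (pow_nonneg hA 4) (pow_nonneg hB 0)]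

theorem fa1 (B : BX6 0.75 0.9 0.49724 0.48 10 0.09 6.0586 β r κ T) : κ * (1 / 2 - κ ^ 2 / 6) ≤ 0.1249 * (1 + κ ^ 2) ^ 2 := by
  have hA : 0 ≤ κ - 0.75 := by have := B.hk1; linarith
  have hB : 0 ≤ 0.9 - κ := by have := B.hk2; linarith
  linarith [mul_nonneg (pow_nonneg hA 0) (pow_nonneg hB 4), mul_nonneg (pow_nonneg hA 1) (pow_nonneg hB 3), mul_nonneg (pow_nonneg hA 2) (pow_nonneg hB 2), mul_nonneg (pow_nonneg hA 3) (pow_nonneg hB 1), mul_nonneg (pow_nonneg hA 4) (pow_nonneg hB 0)]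

theorem fa2 (B : BX6 0.75 0.9 0.49724 0.48 10 0.09 6.0586 β r κ T) : κ ^ 4 ≤ 0.1107 * (1 + κ ^ 2) ^ 3 := by
  have hA : 0 ≤ κ - 0.75 := by have := B.hk1; linarith
  have hB : 0 ≤ 0.9 - κ := by have := B.hk2; linarith
  linarith [mul_nonneg (pow_nonneg hA 0) (pow_nonneg hB 6), mul_nonneg (pow_nonneg hA 1) (pow_nonneg hB 5), mul_nonneg (pow_nonneg hA 2) (pow_nonneg hB 4), mul_nonneg (pow_nonneg hA 3) (pow_nonneg hB 3), mul_nonneg (pow_nonneg hA 4) (pow_nonneg hB 2), mul_nonneg (pow_nonneg hA 5) (pow_nonneg hB 1), mul_nonneg (pow_nonneg hA 6) (pow_nonneg hB 0)]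

theorem fa3 (B : BX6 0.75 0.9 0.49724 0.48 10 0.09 6.0586 β r κ T) : 1 ≤ 0.2622 * (1 + κ ^ 2) ^ 3 := by
  have hA : 0 ≤ κ - 0.75 := by have := B.hk1; linarith
  have hB : 0 ≤ 0.9 - κ := by have := B.hk2; linarith
  linarith [mul_nonneg (pow_nonneg hA 0) (pow_nonneg hB 6), mul_nonneg (pow_nonneg hA 1) (pow_nonneg hB 5), mul_nonneg (pow_nonneg hA 2) (pow_nonneg hB 4), mul_nonneg (pow_nonneg hA 3) (pow_nonneg hB 3), mul_nonneg (pow_nonneg hA 4) (pow_nonneg hB 2), mul_nonneg (pow_nonneg hA 5) (pow_nonneg hB 1), mul_nonneg (pow_nonneg hA 6) (pow_nonneg hB 0)]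

theorem fa4 (H : D6 β r t κ s h T) (B : BX6 0.75 0.9 0.49724 0.48 10 0.09 6.0586 β r κ T) : κ ≤ 0.49724 * (1 + κ ^ 2) := by
  have h1 := B.hψ
  rwa [div_le_iff₀ H.A0] at h1

theorem mkB (H : D6 β r t κ s h T) (h1 : 0.75 ≤ κ) (h2 : κ ≤ 0.9) : BX6 0.75 0.9 0.49724 0.48 10 0.09 6.0586 β r κ T := by
  have hA : 0 ≤ κ - 0.75 := by linarith
  have hB : 0 ≤ 0.9 - κ := by linarith
  have hψ : κ / (1 + κ ^ 2) ≤ 0.49724 := by
    rw [div_le_iff₀ H.A0]
    linarith [mul_nonneg (pow_nonneg hA 0) (pow_nonneg hB 2), mul_nonneg (pow_nonneg hA 1) (pow_nonneg hB 1), mul_nonneg (pow_nonneg hA 2) (pow_nonneg hB 0)]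
  have hψ1 : 0.48 ≤ κ / (1 + κ ^ 2) := by
    rw [le_div_iff₀ H.A0]
    linarith [mul_nonneg (pow_nonneg hA 0) (pow_nonneg hB 2), mul_nonneg (pow_nonneg hA 1) (pow_nonneg hB 1), mul_nonneg (pow_nonneg hA 2) (pow_nonneg hB 0)]
  exact ⟨h1, h2, hψ, hψ1, H.hr, H.b0a h2 (by norm_num), H.T0a h2 (by norm_num) (by norm_num)⟩

theorem x1loG (H : D6 β r t κ s h T) (B : BX6 0.75 0.9 0.49724 0.48 10 0.09 6.0586 β r κ T) (h1 : 0 ≤ s) (h2 : s ≤ 0.45) :
    eN r κ * (0.8903 * Real.exp (-(T * (0.5 * s ^ 2)))) ≤ ‖Xf β r h t 1‖ := by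
  have hr := rgR (a := 0) (τ1 := 0) (τm := 0.4713) H.h1 H.h2 h1 h2 (by norm_num) (by norm_num) (by norm_num)
  rw [add_zero, ← H.hs] at hr
  obtain ⟨ha, hb⟩ := hr
  have hD := H.dom' (t' := t) (by linarith) (by linarith)
  have hk1 := B.hk1
  have hk2 := B.hk2
  have hk0 := H.k0
  have hy1 : 0 ≤ sy κ t := sy_nonneg hD (by linarith)
  have hy2 : sy κ t ≤ 0.203 := syR_le hD 0.75 0.9 0.4713 0.203 1.22507 0.2625 0.27632 0.33159 hk1 hk2 (by linarith) (by norm_num) (by norm_num)
    (expn_ge (by norm_num) (by norm_num)) (by norm_num) (by norm_num) (Or.inr ((mul_le_mul_of_nonneg_left (expn_le (E := 1.22508) (by norm_num) (by norm_num) (by norm_num)) (by norm_num)).trans (by norm_num))) (by norm_num) (by norm_num) (by norm_num)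
  exact H.x1lo hD (ε := 0.08) (c := 0.5) (d := 1.1398) (l := 0.8903) (by norm_num) (by
      rcases le_total (t + κ) 0.05 with g | g
      · exact JB6_k0a hD H.hβ H.hk1 H.hk2 (by linarith) (by linarith) H.ble H.bc'
      · exact (JB6_k1a hD H.hβ H.hk1 H.hk2 (by linarith) (by linarith) H.ble H.bc').trans (by norm_num))
    (V1lo6 hD 0.0685 0 0.6075 _ 0.195 0.5 (by norm_num) ha (by linarith) (k3 B) rfl (fq B) (by norm_num) (fg B) (by norm_num))
    (D_up6 hD 0.75 0.9 0 0.203 1 0.81628 1.1398 hk1 hk2 (by norm_num) hy1 hy2 (by norm_num) (by simp) (expm_le (by norm_num) (by norm_num) (by norm_num)) (by norm_num) (by norm_num) (by norm_num) (by norm_num)) (by norm_num) (by norm_num)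


theorem xm1L (H : D6 β r t κ s h T) (B : BX6 0.75 0.9 0.49724 0.48 10 0.09 6.0586 β r κ T) (h1 : 0 ≤ s) (h2 : s ≤ 0.45) :
    ‖Xf β r h (t) (-1)‖ ≤ (0.00118 + 0.000434) * ‖Xf β r h t 1‖ := by
  have hr := rgL (a := (-2)) (b1 := 1.6231) (b2 := 2.0944) H.h1 H.h2 h1 h2 (by norm_num) (by norm_num) (by norm_num)
  have e : s + ((-1 : ℤ) : ℝ) - 1 = s + (-2) := by push_cast; ring
  exact cellL (k := -1) (Y := ‖Xf β r h t 1‖) (g := 0.5 * s ^ 2) 0.96 0.5372 0.75 0.9 0.49724 0.48 1.6231 2.0944 _ _ _ _ _ 1.0337 1.4089 10 0.09 0.4607 0 1.1367 0.8903 1.18937 6.0586 0.00074225 0.00118 1.09663 0.10126 0.7675 0.9289 3.1623 0.000092467 0.000434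
    H.hβ H.hκ H.hs H.hT H.h0 H.hq2 (by norm_num) B.hk1 B.hk2 B.hψ B.hψ1 (by rw [e]; exact hr.1) (by rw [e]; exact hr.2)
    B.hR B.hb B.hT (x1loG H B (by linarith) (by linarith)) (by positivity) (gA (by norm_num) (by linarith) (by linarith : s ≤ 0.45) (by norm_num))
    (by rw [e]; exact qA (s2 := 0.45) (by norm_num) (by norm_num) (by linarith) h2 (by norm_num) (by norm_num))
    (by norm_num) (by norm_num) (by norm_num) (by norm_num) rfl rfl (by norm_num) rfl rfl rfl (by norm_num) (by norm_num) (by norm_num) (by norm_num) (by norm_num) (by norm_num) (by norm_num) (by norm_num) (by norm_num) (by norm_num) (by norm_num) (by norm_num) (by norm_num) (by norm_num) (by norm_num) (by norm_num) (by norm_num) (by norm_num)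
    (expn 7 0.2059 (by norm_num) (by norm_num) (E := 0.00074225) (by norm_num) (by norm_num)) (by norm_num) (by norm_num) (by norm_num) (by norm_num) (by norm_num) (by norm_num) (by norm_num) (by norm_num)
    (expn 9 0.2889 (by norm_num) (by norm_num) (E := 0.000092467) (by norm_num) (by norm_num)) (by norm_num) (by norm_num)


theorem xm2L (H : D6 β r t κ s h T) (B : BX6 0.75 0.9 0.49724 0.48 10 0.09 6.0586 β r κ T) (h1 : 0 ≤ s) (h2 : s ≤ 0.45) :
    ‖Xf β r h (t) (-2)‖ ≤ (0.00001 + 0.000379) * ‖Xf β r h t 1‖ := by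
  have hr := rgL (a := (-3)) (b1 := 2.6703) (b2 := 3.1416) H.h1 H.h2 h1 h2 (by norm_num) (by norm_num) (by norm_num)
  have e : s + ((-2 : ℤ) : ℝ) - 1 = s + (-3) := by push_cast; ring
  exact cellL (k := -2) (Y := ‖Xf β r h t 1‖) (g := 0.5 * s ^ 2) 0.39 0.3216 0.75 0.9 0.49724 0.48 2.6703 3.1416 _ _ _ _ _ 1.03481 1.4085 10 0.09 0.4607 0 0.9945 0.8903 1.98995 6.0586 0.0000058079 0.00001 1.09663 0.10126 0.7675 0.9289 3.1623 0.000092467 0.000379
    H.hβ H.hκ H.hs H.hT H.h0 H.hq2 (by norm_num) B.hk1 B.hk2 B.hψ B.hψ1 (by rw [e]; exact hr.1) (by rw [e]; exact hr.2)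
    B.hR B.hb B.hT (x1loG H B (by linarith) (by linarith)) (by positivity) (gA (by norm_num) (by linarith) (by linarith : s ≤ 0.45) (by norm_num))
    (by rw [e]; exact qA (s2 := 0.45) (by norm_num) (by norm_num) (by linarith) h2 (by norm_num) (by norm_num))
    (by norm_num) (by norm_num) (by norm_num) (by norm_num) rfl rfl (by norm_num) rfl rfl rfl (by norm_num) (by norm_num) (by norm_num) (by norm_num) (by norm_num) (by norm_num) (by norm_num) (by norm_num) (by norm_num) (by norm_num) (by norm_num) (by norm_num) (by norm_num) (by norm_num) (by norm_num) (by norm_num) (by norm_num) (by norm_num)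
    (expn 12 0.0563 (by norm_num) (by norm_num) (E := 0.0000058079) (by norm_num) (by norm_num)) (by norm_num) (by norm_num) (by norm_num) (by norm_num) (by norm_num) (by norm_num) (by norm_num) (by norm_num)
    (expn 9 0.2889 (by norm_num) (by norm_num) (E := 0.000092467) (by norm_num) (by norm_num)) (by norm_num) (by norm_num)


theorem x1lo0 (H : D6 β r t κ s h T) (B : BX6 0.75 0.9 0.49724 0.48 10 0.09 6.0586 β r κ T) (h1 : 0 ≤ s) (h2 : s ≤ 0.25) :
    eN r κ * (0.9029 * Real.exp (-(T * (0.5 * s ^ 2)))) ≤ ‖Xf β r h t 1‖ := by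
  have hr := rgR (a := 0) (τ1 := 0) (τm := 0.2618) H.h1 H.h2 h1 h2 (by norm_num) (by norm_num) (by norm_num)
  rw [add_zero, ← H.hs] at hr
  obtain ⟨ha, hb⟩ := hr
  have hD := H.dom' (t' := t) (by linarith) (by linarith)
  have hk1 := B.hk1
  have hk2 := B.hk2
  have hk0 := H.k0
  have hy1 : 0 ≤ sy κ t := sy_nonneg hD (by linarith)
  have hy2 : sy κ t ≤ 0.121 := syR_le hD 0.75 0.9 0.2618 0.121 1.12862 0.1441 0.15173 0.18209 hk1 hk2 (by linarith) (by norm_num) (by norm_num)
    (expn_ge (by norm_num) (by norm_num)) (by norm_num) (by norm_num) (Or.inr ((mul_le_mul_of_nonneg_left (expn_le (E := 1.12863) (by norm_num) (by norm_num) (by norm_num)) (by norm_num)).trans (by norm_num))) (by norm_num) (by norm_num) (by norm_num)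
  exact H.x1lo hD (ε := 0.08) (c := 0.5) (d := 1.0776) (l := 0.9029) (by norm_num) (by
      rcases le_total (t + κ) 0.05 with g | g
      · exact JB6_k0a hD H.hβ H.hk1 H.hk2 (by linarith) (by linarith) H.ble H.bc'
      · exact (JB6_k1a hD H.hβ H.hk1 H.hk2 (by linarith) (by linarith) H.ble H.bc').trans (by norm_num))
    (V1lo6 hD 0.0685 0 0.6075 _ 0.195 0.5 (by norm_num) ha (by linarith) (k3 B) rfl (fq B) (by norm_num) (fg B) (by norm_num))
    (D_up6 hD 0.75 0.9 0 0.121 1 0.88604 1.0776 hk1 hk2 (by norm_num) hy1 hy2 (by norm_num) (by simp) (expm_le (by norm_num) (by norm_num) (by norm_num)) (by norm_num) (by norm_num) (by norm_num) (by norm_num)) (by norm_num) (by norm_num)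


theorem x0L0 (H : D6 β r t κ s h T) (B : BX6 0.75 0.9 0.49724 0.48 10 0.09 6.0586 β r κ T) (h1 : 0 ≤ s) (h2 : s ≤ 0.25) :
    ‖Xf β r h (t) 0‖ ≤ (0.30975 + 0.000281) * ‖Xf β r h t 1‖ := by
  have hr := rgL (a := (-1)) (b1 := 0.7853) (b2 := 1.0472) H.h1 H.h2 h1 h2 (by norm_num) (by norm_num) (by norm_num)
  have e : s + ((0 : ℤ) : ℝ) - 1 = s + (-1) := by push_cast; ring
  exact cellL (k := 0) (Y := ‖Xf β r h t 1‖) (g := 0.5 * s ^ 2) 1.11 0.5419 0.75 0.9 0.49724 0.48 0.7853 1.0472 _ _ _ _ _ 0.89608 1.4601 10 0.09 0.4607 0.0265 0.9333 0.9029 0.27356 6.0586 0.19154 0.30975 1.09663 0.03126 0.7784 0.978 3.1623 0.000073889 0.000281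
    H.hβ H.hκ H.hs H.hT H.h0 H.hq2 (by norm_num) B.hk1 B.hk2 B.hψ B.hψ1 (by rw [e]; exact hr.1) (by rw [e]; exact hr.2)
    B.hR B.hb B.hT (x1lo0 H B (by linarith) (by linarith)) (by positivity) (gA (by norm_num) (by linarith) (by linarith : s ≤ 0.25) (by norm_num))
    (by rw [e]; exact qA (s2 := 0.25) (by norm_num) (by norm_num) (by linarith) h2 (by norm_num) (by norm_num))
    (by norm_num) (by norm_num) (by norm_num) (by norm_num) rfl rfl (by norm_num) rfl rfl rfl (by norm_num) (by norm_num) (by norm_num) (by norm_num) (by norm_num) (by norm_num) (by norm_num) (by norm_num) (by norm_num) (by norm_num) (by norm_num) (by norm_num) (by norm_num) (by norm_num) (by norm_num) (by norm_num) (by norm_num) (by norm_num)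
    (expn 1 0.6573 (by norm_num) (by norm_num) (E := 0.19154) (by norm_num) (by norm_num)) (by norm_num) (by norm_num) (by norm_num) (by norm_num) (by norm_num) (by norm_num) (by norm_num) (by norm_num)
    (expn 9 0.5149 (by norm_num) (by norm_num) (E := 0.000073889) (by norm_num) (by norm_num)) (by norm_num) (by norm_num)


theorem x2L0 (H : D6 β r t κ s h T) (B : BX6 0.75 0.9 0.49724 0.48 10 0.09 6.0586 β r κ T) (h1 : 0 ≤ s) (h2 : s ≤ 0.25) :
    ‖Xf β r h (t) 2‖ ≤ (0.31006 + 0.052294) * ‖Xf β r h t 1‖ := by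
  have hr := rgR (a := 1) (τ1 := 1.0471) (τm := 1.309) H.h1 H.h2 h1 h2 (by norm_num) (by norm_num) (by norm_num)
  have e : s + ((2 : ℤ) : ℝ) - 1 = s + 1 := by push_cast; ring
  exact cellR (k := 2) (Y := ‖Xf β r h t 1‖) (g := 0.5 * s ^ 2) 0.46 0.3307 0.75 0.9 0.49724 0.48 1.0471 1.309 _ _ _ _ _ 0.21939 2.0757 10 0.09 0.4607 0.5487 0.9417 0.9029 0.33069 6.0586 0.13487 0.31006 1.09663 0.03126 0.7784 0.978 3.1623 0.013669 0.052294
    H.hβ H.hκ H.hs H.hT H.h0 H.hq2 (by norm_num) B.hk1 B.hk2 B.hψ B.hψ1 (by rw [e]; have h5 := hr.2; have h6 := B.hk1; have h7 := Real.pi_gt_d6; norm_num at h5 h6 h7 ⊢; linarith) (by rw [e]; exact hr.1) (by rw [e]; exact hr.2)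
    B.hR B.hb B.hT (x1lo0 H B (by linarith) (by linarith)) (by positivity) (gA (by norm_num) (by linarith) (by linarith : s ≤ 0.25) (by norm_num))
    (by rw [e]; exact qB (s1 := 0) (s2 := 0.25) (by norm_num) (by norm_num) h1 h2 (le_refl _) (by norm_num) (by norm_num) (by norm_num))
    (by norm_num) (by norm_num) (by norm_num) (by norm_num) rfl rfl (by norm_num) rfl rfl rfl (by norm_num) (by norm_num) (by norm_num) (by norm_num) (by norm_num) (by norm_num) (by norm_num) (by norm_num) (by norm_num) (by norm_num) (by norm_num) (by norm_num) (by norm_num) (by norm_num) (by norm_num) (by norm_num) (by norm_num) (by norm_num) (by norm_num)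
    (expn 2 0.0035 (by norm_num) (by norm_num) (E := 0.13487) (by norm_num) (by norm_num)) (by norm_num) (by norm_num) (by norm_num) (by norm_num) (by norm_num) (by norm_num) (by norm_num) (by norm_num)
    (expn 4 0.2929 (by norm_num) (by norm_num) (E := 0.013669) (by norm_num) (by norm_num)) (by norm_num) (by norm_num)


theorem x3L0 (H : D6 β r t κ s h T) (B : BX6 0.75 0.9 0.49724 0.48 10 0.09 6.0586 β r κ T) (h1 : 0 ≤ s) (h2 : s ≤ 0.25) :
    ‖Xf β r h (t) 3‖ ≤ 0.03533 * ‖Xf β r h t 1‖ := by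
  have hr := rgR (a := 2) (τ1 := 2.0943) (τm := 2.3562) H.h1 H.h2 h1 h2 (by norm_num) (by norm_num) (by norm_num)
  have e : (s + ((3 : ℤ) : ℝ) - 1) * h + 2 * Real.pi * ((0 : ℤ) : ℝ) = (s + 2) * h := by push_cast; ring
  exact cellU (k := 3) (Y := ‖Xf β r h t 1‖) (g := 0.5 * s ^ 2) 0 0.75 0.9 1.1942 2.3562 0.42 10 0.09 0.4607 0.42 2.298 0.9029 1.09663 0.03126 0.7784 0.978 3.1623 0.0037843 0.03533
    H.hβ H.hκ H.hs H.hT H.h0 H.hq2 (by norm_num) B.hk1 B.hk2 (by rw [e]; linarith [hr.1, B.hk2]) (by rw [e]; exact hr.2)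
    B.hR B.hb (x1lo0 H B (by linarith) (by linarith)) (by positivity) (gA (by norm_num) (by linarith) (by linarith : s ≤ 0.25) (by norm_num))
    (by norm_num) (by norm_num) (by norm_num) (by norm_num) (by norm_num) (by norm_num) (by norm_num) (by norm_num) (by norm_num) (by norm_num) (by norm_num) (by norm_num) (by norm_num) (by norm_num) (by norm_num) (by norm_num) (by norm_num) (by norm_num) (by norm_num) 
    (expn 5 0.5799 (by norm_num) (by norm_num) (E := 0.0037843) (by norm_num) (by norm_num)) (by norm_num) (by norm_num)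


theorem outL0 (H : D6 β r t κ s h T) (B : BX6 0.75 0.9 0.49724 0.48 10 0.09 6.0586 β r κ T) (h1 : 0 ≤ s) (h2 : s ≤ 0.25) :
    oth6 β r h t + ‖Xf β r h t 0‖ < ‖Xf β r h t 1‖ := by
  have g1 := xm2L H B (by linarith) (by linarith)
  have g2 := xm1L H B (by linarith) (by linarith)
  have g3 := x0L0 H B h1 h2
  have g4 := x2L0 H B h1 h2
  have g5 := x3L0 H B h1 h2
  have hY := lt_of_lt_of_le (mul_pos (eN_pos r κ) (by positivity)) (x1lo0 H B h1 h2)
  unfold oth6
  norm_num at g1 g2 g3 g4 g5 ⊢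
  linarith

theorem x1lo1 (H : D6 β r t κ s h T) (B : BX6 0.75 0.9 0.49724 0.48 10 0.09 6.0586 β r κ T) (h1 : 0.25 ≤ s) (h2 : s ≤ 0.35) :
    eN r κ * (0.9307 * Real.exp (-(T * (0.4821 * s ^ 2)))) ≤ ‖Xf β r h t 1‖ := by
  have hr := rgR (a := 0) (τ1 := 0.2617) (τm := 0.3666) H.h1 H.h2 h1 h2 (by norm_num) (by norm_num) (by norm_num)
  rw [add_zero, ← H.hs] at hr
  obtain ⟨ha, hb⟩ := hr
  have hD := H.dom' (t' := t) (by linarith) (by linarith)
  have hk1 := B.hk1
  have hk2 := B.hk2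
  have hk0 := H.k0
  have hy1 : 0.113 ≤ sy κ t := syR_ge hD 0.75 0.9 0.2617 0.113 1.11963 1.11964 0.14057 0.1687 hk1 hk2 (by linarith) (by norm_num) (by norm_num)
    (expn_ge (by norm_num) (by norm_num)) (expn_le (by norm_num) (by norm_num) (by norm_num)) (by norm_num)
    (by norm_num) (by norm_num) (by norm_num) (by norm_num) (by norm_num) (by norm_num)
  have hy2 : sy κ t ≤ 0.163 := syR_le hD 0.75 0.9 0.3666 0.163 1.17703 0.2025 0.21317 0.25582 hk1 hk2 (by linarith) (by norm_num) (by norm_num)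
    (expn_ge (by norm_num) (by norm_num)) (by norm_num) (by norm_num) (Or.inr ((mul_le_mul_of_nonneg_left (expn_le (E := 1.17704) (by norm_num) (by norm_num) (by norm_num)) (by norm_num)).trans (by norm_num))) (by norm_num) (by norm_num) (by norm_num)
  exact H.x1lo hD (ε := 0.045) (c := 0.4821) (d := 1.1085) (l := 0.9307) (by norm_num) (JB6_k1a hD H.hβ H.hk1 H.hk2 (by linarith) (by linarith) H.ble H.bc')
    (V1lo6 hD 0.0685 0.2617 0.6075 _ 0.195 0.4821 (by norm_num) ha (by linarith) (k3 B) rfl (fq B) (by norm_num) (fg B) (by norm_num))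
    (D_up6 hD 0.75 0.9 0.113 0.163 0.89316 0.8496 1.1085 hk1 hk2 (by norm_num) hy1 hy2 (by norm_num) (expm_le (by norm_num) (by norm_num) (by norm_num)) (expm_le (by norm_num) (by norm_num) (by norm_num)) (by norm_num) (by norm_num) (by norm_num) (by norm_num)) (by norm_num) (by norm_num)


theorem x0L1 (H : D6 β r t κ s h T) (B : BX6 0.75 0.9 0.49724 0.48 10 0.09 6.0586 β r κ T) (h1 : 0.25 ≤ s) (h2 : s ≤ 0.35) :
    ‖Xf β r h t 0‖ ≤ 0.49745 * ‖Xf β r h t 1‖ := by
  have hr := rgL (a := (-1)) (b1 := 0.6806) (b2 := 0.7854) H.h1 H.h2 h1 h2 (by norm_num) (by norm_num) (by norm_num)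
  have e : (s + -1) * h = (t - h) + κ := by rw [H.a0]; ring
  rw [e] at hr
  obtain ⟨ha, hb⟩ := hr
  have hD := H.dom' (t' := t - h) (by linarith) (by linarith)
  have hk1 := B.hk1
  have hk2 := B.hk2
  have hk0 := H.k0
  have hy1 : -0.494 ≤ sy κ (t - h) := syL_ge hD 0.75 0.9 0.7854 0.494 0.61018 0.61019 0.3851 0.33492 0.40192 hk1 hk2 (by linarith) (by norm_num) (by norm_num) (by norm_num)
    (expm_ge (by norm_num) (by norm_num) (by norm_num) (by norm_num)) (expm_le (by norm_num) (by norm_num) (by norm_num)) (by norm_num)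
    (by norm_num) (by norm_num) (by norm_num) (by norm_num) (by norm_num) (by norm_num)
  have hy2 : sy κ (t - h) ≤ -0.397 := syL_le hD 0.75 0.9 0.6806 0.397 0.67233 0.67234 0.29657 0.3559 hk1 hk2 (by linarith) (by norm_num) (by norm_num) (by norm_num)
    (expm_ge (by norm_num) (by norm_num) (by norm_num) (by norm_num)) (expm_le (by norm_num) (by norm_num) (by norm_num)) (by norm_num)
    (by norm_num) (by norm_num) (by norm_num) (by norm_num) (by norm_num) (by norm_num)
  have hX := H.x0up hD (ε := 0.2) (c := 0.5264) (d := 0.9282) (U := 1.2226) (by norm_num) (JB6_k0c hD H.hβ H.hk1 H.hk2 (by linarith) (by linarith) H.ble H.bc')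
    (VL_box hD 1.06 0.5264 0.75 0.9 0.49724 0.6806 0.7854 _ _ _ _ ha hb hk1 hk2 B.hψ (by norm_num) (by norm_num) (by norm_num) rfl rfl (by norm_num) rfl rfl (by norm_num) (by norm_num) (by norm_num))
    (by norm_num) (D_lo6 hD 0.75 0.9 (-0.494) (-0.397) (-0.397) 1.48735 0.9282 hk1 hk2 (by norm_num) hy1 hy2 (by rw [neg_neg]; exact expn_ge (by norm_num) (by norm_num)) (by norm_num) (by norm_num) (by norm_num) (by norm_num) (by norm_num) (by norm_num)) (by norm_num) (by norm_num)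
  exact cmpT (eN_pos r κ) hX (x1lo1 H B (by linarith) (by linarith)) B.hT (by norm_num) (qA (a := -1) (s2 := 0.35) (q := 0.16334) (by norm_num) (by norm_num) (by linarith) h2 (by norm_num) (by norm_num)) (by norm_num)
    (expn 0 0.9896 (by norm_num) (by norm_num) (E := 0.37868) (by norm_num) (by norm_num)) (by norm_num) (by norm_num) (by norm_num)


theorem x2L1 (H : D6 β r t κ s h T) (B : BX6 0.75 0.9 0.49724 0.48 10 0.09 6.0586 β r κ T) (h1 : 0.25 ≤ s) (h2 : s ≤ 0.35) :
    ‖Xf β r h (t) 2‖ ≤ (0.13155 + 0.026755) * ‖Xf β r h t 1‖ := by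
  have hr := rgR (a := 1) (τ1 := 1.3089) (τm := 1.4138) H.h1 H.h2 h1 h2 (by norm_num) (by norm_num) (by norm_num)
  have e : s + ((2 : ℤ) : ℝ) - 1 = s + 1 := by push_cast; ring
  exact cellR (k := 2) (Y := ‖Xf β r h t 1‖) (g := 0.4821 * s ^ 2) 0.44 0.321 0.75 0.9 0.49724 0.48 1.3089 1.4138 _ _ _ _ _ 0.20729 2.1054 10 0.09 0.4607 0.4626 0.9508 0.9307 0.47143 6.0586 0.05815 0.13155 1.09663 0.05906 0.8023 0.9585 3.1623 0.007139 0.026755
    H.hβ H.hκ H.hs H.hT H.h0 H.hq2 (by norm_num) B.hk1 B.hk2 B.hψ B.hψ1 (by rw [e]; have h5 := hr.2; have h6 := B.hk1; have h7 := Real.pi_gt_d6; norm_num at h5 h6 h7 ⊢; linarith) (by rw [e]; exact hr.1) (by rw [e]; exact hr.2)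
    B.hR B.hb B.hT (x1lo1 H B (by linarith) (by linarith)) (by positivity) (gA (by norm_num) (by linarith) (by linarith : s ≤ 0.35) (by norm_num))
    (by rw [e]; exact qB (s1 := 0.25) (s2 := 0.35) (by norm_num) (by norm_num) h1 h2 (le_refl _) (by norm_num) (by norm_num) (by norm_num))
    (by norm_num) (by norm_num) (by norm_num) (by norm_num) rfl rfl (by norm_num) rfl rfl rfl (by norm_num) (by norm_num) (by norm_num) (by norm_num) (by norm_num) (by norm_num) (by norm_num) (by norm_num) (by norm_num) (by norm_num) (by norm_num) (by norm_num) (by norm_num) (by norm_num) (by norm_num) (by norm_num) (by norm_num) (by norm_num) (by norm_num)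
    (expn 2 0.8562 (by norm_num) (by norm_num) (E := 0.05815) (by norm_num) (by norm_num)) (by norm_num) (by norm_num) (by norm_num) (by norm_num) (by norm_num) (by norm_num) (by norm_num) (by norm_num)
    (expn 4 0.9589 (by norm_num) (by norm_num) (E := 0.007139) (by norm_num) (by norm_num)) (by norm_num) (by norm_num)


theorem x3L1 (H : D6 β r t κ s h T) (B : BX6 0.75 0.9 0.49724 0.48 10 0.09 6.0586 β r κ T) (h1 : 0.25 ≤ s) (h2 : s ≤ 0.35) :
    ‖Xf β r h (t) 3‖ ≤ 0.002911 * ‖Xf β r h t 1‖ := by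
  have hr := rgR (a := 2) (τ1 := 2.3561) (τm := 2.461) H.h1 H.h2 h1 h2 (by norm_num) (by norm_num) (by norm_num)
  have e : (s + ((3 : ℤ) : ℝ) - 1) * h + 2 * Real.pi * ((0 : ℤ) : ℝ) = (s + 2) * h := by push_cast; ring
  exact cellU (k := 3) (Y := ‖Xf β r h t 1‖) (g := 0.4821 * s ^ 2) 0 0.75 0.9 1.456 2.461 0.15 10 0.09 0.4607 0.15 2.3961 0.9307 1.09663 0.05906 0.8023 0.9585 3.1623 0.00030816 0.002911
    H.hβ H.hκ H.hs H.hT H.h0 H.hq2 (by norm_num) B.hk1 B.hk2 (by rw [e]; linarith [hr.1, B.hk2]) (by rw [e]; exact hr.2)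
    B.hR B.hb (x1lo1 H B (by linarith) (by linarith)) (by positivity) (gA (by norm_num) (by linarith) (by linarith : s ≤ 0.35) (by norm_num))
    (by norm_num) (by norm_num) (by norm_num) (by norm_num) (by norm_num) (by norm_num) (by norm_num) (by norm_num) (by norm_num) (by norm_num) (by norm_num) (by norm_num) (by norm_num) (by norm_num) (by norm_num) (by norm_num) (by norm_num) (by norm_num) (by norm_num) 
    (expn 8 0.0849 (by norm_num) (by norm_num) (E := 0.00030816) (by norm_num) (by norm_num)) (by norm_num) (by norm_num)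


theorem outL1 (H : D6 β r t κ s h T) (B : BX6 0.75 0.9 0.49724 0.48 10 0.09 6.0586 β r κ T) (h1 : 0.25 ≤ s) (h2 : s ≤ 0.35) :
    oth6 β r h t + ‖Xf β r h t 0‖ < ‖Xf β r h t 1‖ := by
  have g1 := xm2L H B (by linarith) (by linarith)
  have g2 := xm1L H B (by linarith) (by linarith)
  have g3 := x0L1 H B h1 h2
  have g4 := x2L1 H B h1 h2
  have g5 := x3L1 H B h1 h2
  have hY := lt_of_lt_of_le (mul_pos (eN_pos r κ) (by positivity)) (x1lo1 H B h1 h2)
  unfold oth6
  norm_num at g1 g2 g3 g4 g5 ⊢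
  linarith

theorem x1lo2 (H : D6 β r t κ s h T) (B : BX6 0.75 0.9 0.49724 0.48 10 0.09 6.0586 β r κ T) (h1 : 0.35 ≤ s) (h2 : s ≤ 0.43) :
    eN r κ * (0.9255 * Real.exp (-(T * (0.4749 * s ^ 2)))) ≤ ‖Xf β r h t 1‖ := by
  have hr := rgR (a := 0) (τ1 := 0.3665) (τm := 0.4503) H.h1 H.h2 h1 h2 (by norm_num) (by norm_num) (by norm_num)
  rw [add_zero, ← H.hs] at hr
  obtain ⟨ha, hb⟩ := hr
  have hD := H.dom' (t' := t) (by linarith) (by linarith)
  have hk1 := B.hk1
  have hk2 := B.hk2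
  have hk0 := H.k0
  have hy1 : 0.153 ≤ sy κ t := syR_ge hD 0.75 0.9 0.3665 0.153 1.16532 1.16533 0.1981 0.23773 hk1 hk2 (by linarith) (by norm_num) (by norm_num)
    (expn_ge (by norm_num) (by norm_num)) (expn_le (by norm_num) (by norm_num) (by norm_num)) (by norm_num)
    (by norm_num) (by norm_num) (by norm_num) (by norm_num) (by norm_num) (by norm_num)
  have hy2 : sy κ t ≤ 0.195 := syR_le hD 0.75 0.9 0.4503 0.195 1.21531 0.2501 0.26331 0.31599 hk1 hk2 (by linarith) (by norm_num) (by norm_num)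
    (expn_ge (by norm_num) (by norm_num)) (by norm_num) (by norm_num) (Or.inr ((mul_le_mul_of_nonneg_left (expn_le (E := 1.21532) (by norm_num) (by norm_num) (by norm_num)) (by norm_num)).trans (by norm_num))) (by norm_num) (by norm_num) (by norm_num)
  exact H.x1lo hD (ε := 0.045) (c := 0.4749) (d := 1.1334) (l := 0.9255) (by norm_num) (JB6_k1a hD H.hβ H.hk1 H.hk2 (by linarith) (by linarith) H.ble H.bc')
    (V1lo6 hD 0.0685 0.3665 0.6075 _ 0.195 0.4749 (by norm_num) ha (by linarith) (k3 B) rfl (fq B) (by norm_num) (fg B) (by norm_num))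
    (D_up6 hD 0.75 0.9 0.153 0.195 0.85813 0.82284 1.1334 hk1 hk2 (by norm_num) hy1 hy2 (by norm_num) (expm_le (by norm_num) (by norm_num) (by norm_num)) (expm_le (by norm_num) (by norm_num) (by norm_num)) (by norm_num) (by norm_num) (by norm_num) (by norm_num)) (by norm_num) (by norm_num)


theorem x0L2 (H : D6 β r t κ s h T) (B : BX6 0.75 0.9 0.49724 0.48 10 0.09 6.0586 β r κ T) (h1 : 0.35 ≤ s) (h2 : s ≤ 0.43) :
    ‖Xf β r h t 0‖ ≤ 0.76485 * ‖Xf β r h t 1‖ := by
  have hr := rgL (a := (-1)) (b1 := 0.5969) (b2 := 0.6807) H.h1 H.h2 h1 h2 (by norm_num) (by norm_num) (by norm_num)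
  have e : (s + -1) * h = (t - h) + κ := by rw [H.a0]; ring
  rw [e] at hr
  obtain ⟨ha, hb⟩ := hr
  have hD := H.dom' (t' := t - h) (by linarith) (by linarith)
  have hk1 := B.hk1
  have hk2 := B.hk2
  have hk0 := H.k0
  have hy1 : -0.416 ≤ sy κ (t - h) := syL_ge hD 0.75 0.9 0.6807 0.416 0.65968 0.65969 0.3608 0.30491 0.36591 hk1 hk2 (by linarith) (by norm_num) (by norm_num) (by norm_num)
    (expm_ge (by norm_num) (by norm_num) (by norm_num) (by norm_num)) (expm_le (by norm_num) (by norm_num) (by norm_num)) (by norm_num)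
    (by norm_num) (by norm_num) (by norm_num) (by norm_num) (by norm_num) (by norm_num)
  have hy2 : sy κ (t - h) ≤ -0.344 := syL_le hD 0.75 0.9 0.5969 0.344 0.70892 0.70893 0.27096 0.32517 hk1 hk2 (by linarith) (by norm_num) (by norm_num) (by norm_num)
    (expm_ge (by norm_num) (by norm_num) (by norm_num) (by norm_num)) (expm_le (by norm_num) (by norm_num) (by norm_num)) (by norm_num)
    (by norm_num) (by norm_num) (by norm_num) (by norm_num) (by norm_num) (by norm_num)
  have hX := H.x0up hD (ε := 0.144) (c := 0.5263) (d := 0.9159) (U := 1.1695) (by norm_num) (JB6_k0f hD H.hβ H.hk1 H.hk2 (by linarith) (by linarith) H.ble H.bc')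
    (VL_box hD 1.06 0.5263 0.75 0.9 0.49724 0.5969 0.6807 _ _ _ _ ha hb hk1 hk2 B.hψ (by norm_num) (by norm_num) (by norm_num) rfl rfl (by norm_num) rfl rfl (by norm_num) (by norm_num) (by norm_num))
    (by norm_num) (D_lo6 hD 0.75 0.9 (-0.416) (-0.344) (-0.344) 1.41057 0.9159 hk1 hk2 (by norm_num) hy1 hy2 (by rw [neg_neg]; exact expn_ge (by norm_num) (by norm_num)) (by norm_num) (by norm_num) (by norm_num) (by norm_num) (by norm_num) (by norm_num)) (by norm_num) (by norm_num)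
  exact cmpT (eN_pos r κ) hX (x1lo2 H B (by linarith) (by linarith)) B.hT (by norm_num) (qA (a := -1) (s2 := 0.43) (q := 0.08318) (by norm_num) (by norm_num) (by linarith) h2 (by norm_num) (by norm_num)) (by norm_num)
    (expn 0 0.5039 (by norm_num) (by norm_num) (E := 0.60527) (by norm_num) (by norm_num)) (by norm_num) (by norm_num) (by norm_num)


theorem x2L2 (H : D6 β r t κ s h T) (B : BX6 0.75 0.9 0.49724 0.48 10 0.09 6.0586 β r κ T) (h1 : 0.35 ≤ s) (h2 : s ≤ 0.43) :
    ‖Xf β r h (t) 2‖ ≤ (0.10124 + 0.025005) * ‖Xf β r h t 1‖ := by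
  have hr := rgR (a := 1) (τ1 := 1.4137) (τm := 1.4975) H.h1 H.h2 h1 h2 (by norm_num) (by norm_num) (by norm_num)
  have e : s + ((2 : ℤ) : ℝ) - 1 = s + 1 := by push_cast; ring
  exact cellR (k := 2) (Y := ‖Xf β r h t 1‖) (g := 0.4749 * s ^ 2) 0.43 0.3153 0.75 0.9 0.49724 0.48 1.4137 1.4975 _ _ _ _ _ 0.19393 2.1407 10 0.09 0.4607 0.4357 0.9609 0.9255 0.51645 6.0586 0.043767 0.10124 1.09663 0.08781 0.7979 0.9383 3.1623 0.0065657 0.025005
    H.hβ H.hκ H.hs H.hT H.h0 H.hq2 (by norm_num) B.hk1 B.hk2 B.hψ B.hψ1 (by rw [e]; have h5 := hr.2; have h6 := B.hk1; have h7 := Real.pi_gt_d6; norm_num at h5 h6 h7 ⊢; linarith) (by rw [e]; exact hr.1) (by rw [e]; exact hr.2)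
    B.hR B.hb B.hT (x1lo2 H B (by linarith) (by linarith)) (by positivity) (gA (by norm_num) (by linarith) (by linarith : s ≤ 0.43) (by norm_num))
    (by rw [e]; exact qB (s1 := 0.35) (s2 := 0.43) (by norm_num) (by norm_num) h1 h2 (le_refl _) (by norm_num) (by norm_num) (by norm_num))
    (by norm_num) (by norm_num) (by norm_num) (by norm_num) rfl rfl (by norm_num) rfl rfl rfl (by norm_num) (by norm_num) (by norm_num) (by norm_num) (by norm_num) (by norm_num) (by norm_num) (by norm_num) (by norm_num) (by norm_num) (by norm_num) (by norm_num) (by norm_num) (by norm_num) (by norm_num) (by norm_num) (by norm_num) (by norm_num) (by norm_num)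
    (expn 3 0.1289 (by norm_num) (by norm_num) (E := 0.043767) (by norm_num) (by norm_num)) (by norm_num) (by norm_num) (by norm_num) (by norm_num) (by norm_num) (by norm_num) (by norm_num) (by norm_num)
    (expn 5 0.0259 (by norm_num) (by norm_num) (E := 0.0065657) (by norm_num) (by norm_num)) (by norm_num) (by norm_num)


theorem x3L2 (H : D6 β r t κ s h T) (B : BX6 0.75 0.9 0.49724 0.48 10 0.09 6.0586 β r κ T) (h1 : 0.35 ≤ s) (h2 : s ≤ 0.43) :
    ‖Xf β r h (t) 3‖ ≤ 0.00123 * ‖Xf β r h t 1‖ := by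
  have hr := rgR (a := 2) (τ1 := 2.4609) (τm := 2.5447) H.h1 H.h2 h1 h2 (by norm_num) (by norm_num) (by norm_num)
  have e : (s + ((3 : ℤ) : ℝ) - 1) * h + 2 * Real.pi * ((0 : ℤ) : ℝ) = (s + 2) * h := by push_cast; ring
  exact cellU (k := 3) (Y := ‖Xf β r h t 1‖) (g := 0.4749 * s ^ 2) 0 0.75 0.9 1.5608 2.5447 0.06 10 0.09 0.4607 0.06 2.006 0.9255 1.09663 0.08781 0.7979 0.9383 3.1623 0.00015464 0.00123
    H.hβ H.hκ H.hs H.hT H.h0 H.hq2 (by norm_num) B.hk1 B.hk2 (by rw [e]; linarith [hr.1, B.hk2]) (by rw [e]; exact hr.2)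
    B.hR B.hb (x1lo2 H B (by linarith) (by linarith)) (by positivity) (gA (by norm_num) (by linarith) (by linarith : s ≤ 0.43) (by norm_num))
    (by norm_num) (by norm_num) (by norm_num) (by norm_num) (by norm_num) (by norm_num) (by norm_num) (by norm_num) (by norm_num) (by norm_num) (by norm_num) (by norm_num) (by norm_num) (by norm_num) (by norm_num) (by norm_num) (by norm_num) (by norm_num) (by norm_num) 
    (expn 8 0.7829 (by norm_num) (by norm_num) (E := 0.00015464) (by norm_num) (by norm_num)) (by norm_num) (by norm_num)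


theorem outL2 (H : D6 β r t κ s h T) (B : BX6 0.75 0.9 0.49724 0.48 10 0.09 6.0586 β r κ T) (h1 : 0.35 ≤ s) (h2 : s ≤ 0.43) :
    oth6 β r h t + ‖Xf β r h t 0‖ < ‖Xf β r h t 1‖ := by
  have g1 := xm2L H B (by linarith) (by linarith)
  have g2 := xm1L H B (by linarith) (by linarith)
  have g3 := x0L2 H B h1 h2
  have g4 := x2L2 H B h1 h2
  have g5 := x3L2 H B h1 h2
  have hY := lt_of_lt_of_le (mul_pos (eN_pos r κ) (by positivity)) (x1lo2 H B h1 h2)
  unfold oth6
  norm_num at g1 g2 g3 g4 g5 ⊢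
  linarith

theorem x1lo3 (H : D6 β r t κ s h T) (B : BX6 0.75 0.9 0.49724 0.48 10 0.09 6.0586 β r κ T) (h1 : 0.43 ≤ s) (h2 : s ≤ 0.45) :
    eN r κ * (0.9242 * Real.exp (-(T * (0.4692 * s ^ 2)))) ≤ ‖Xf β r h t 1‖ := by
  have hr := rgR (a := 0) (τ1 := 0.4502) (τm := 0.4713) H.h1 H.h2 h1 h2 (by norm_num) (by norm_num) (by norm_num)
  rw [add_zero, ← H.hs] at hr
  obtain ⟨ha, hb⟩ := hr
  have hD := H.dom' (t' := t) (by linarith) (by linarith)
  have hk1 := B.hk1
  have hk2 := B.hk2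
  have hk0 := H.k0
  have hy1 : 0.182 ≤ sy κ t := syR_ge hD 0.75 0.9 0.4502 0.182 1.19961 1.19962 0.24258 0.29111 hk1 hk2 (by linarith) (by norm_num) (by norm_num)
    (expn_ge (by norm_num) (by norm_num)) (expn_le (by norm_num) (by norm_num) (by norm_num)) (by norm_num)
    (by norm_num) (by norm_num) (by norm_num) (by norm_num) (by norm_num) (by norm_num)
  have hy2 : sy κ t ≤ 0.203 := syR_le hD 0.75 0.9 0.4713 0.203 1.22507 0.2625 0.27632 0.33159 hk1 hk2 (by linarith) (by norm_num) (by norm_num)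
    (expn_ge (by norm_num) (by norm_num)) (by norm_num) (by norm_num) (Or.inr ((mul_le_mul_of_nonneg_left (expn_le (E := 1.22508) (by norm_num) (by norm_num) (by norm_num)) (by norm_num)).trans (by norm_num))) (by norm_num) (by norm_num) (by norm_num)
  exact H.x1lo hD (ε := 0.045) (c := 0.4692) (d := 1.1398) (l := 0.9242) (by norm_num) (JB6_k1a hD H.hβ H.hk1 H.hk2 (by linarith) (by linarith) H.ble H.bc')
    (V1lo6 hD 0.0685 0.4502 0.6075 _ 0.195 0.4692 (by norm_num) ha (by linarith) (k3 B) rfl (fq B) (by norm_num) (fg B) (by norm_num))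
    (D_up6 hD 0.75 0.9 0.182 0.203 0.83361 0.81628 1.1398 hk1 hk2 (by norm_num) hy1 hy2 (by norm_num) (expm_le (by norm_num) (by norm_num) (by norm_num)) (expm_le (by norm_num) (by norm_num) (by norm_num)) (by norm_num) (by norm_num) (by norm_num) (by norm_num)) (by norm_num) (by norm_num)


theorem x0L3 (H : D6 β r t κ s h T) (B : BX6 0.75 0.9 0.49724 0.48 10 0.09 6.0586 β r κ T) (h1 : 0.43 ≤ s) (h2 : s ≤ 0.45) :
    ‖Xf β r h t 0‖ ≤ 0.82703 * ‖Xf β r h t 1‖ := by
  have hr := rgL (a := (-1)) (b1 := 0.5759) (b2 := 0.597) H.h1 H.h2 h1 h2 (by norm_num) (by norm_num) (by norm_num)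
  have e : (s + -1) * h = (t - h) + κ := by rw [H.a0]; ring
  rw [e] at hr
  obtain ⟨ha, hb⟩ := hr
  have hD := H.dom' (t' := t - h) (by linarith) (by linarith)
  have hk1 := B.hk1
  have hk2 := B.hk2
  have hk0 := H.k0
  have hy1 : -0.356 ≤ sy κ (t - h) := syL_ge hD 0.75 0.9 0.597 0.356 0.70047 0.70048 0.3186 0.27707 0.3325 hk1 hk2 (by linarith) (by norm_num) (by norm_num) (by norm_num)
    (expm_ge (by norm_num) (by norm_num) (by norm_num) (by norm_num)) (expm_le (by norm_num) (by norm_num) (by norm_num)) (by norm_num)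
    (by norm_num) (by norm_num) (by norm_num) (by norm_num) (by norm_num) (by norm_num)
  have hy2 : sy κ (t - h) ≤ -0.33 := syL_le hD 0.75 0.9 0.5759 0.33 0.71892 0.71893 0.2636 0.31633 hk1 hk2 (by linarith) (by norm_num) (by norm_num) (by norm_num)
    (expm_ge (by norm_num) (by norm_num) (by norm_num) (by norm_num)) (expm_le (by norm_num) (by norm_num) (by norm_num)) (by norm_num)
    (by norm_num) (by norm_num) (by norm_num) (by norm_num) (by norm_num) (by norm_num)
  have hX := H.x0up hD (ε := 0.11) (c := 0.5304) (d := 0.9141) (U := 1.1353) (by norm_num) (JB6_k0b hD H.hβ H.hk1 H.hk2 (by linarith) (by linarith) H.ble H.bc')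
    (VL_box hD 1.08 0.5304 0.75 0.9 0.49724 0.5759 0.597 _ _ _ _ ha hb hk1 hk2 B.hψ (by norm_num) (by norm_num) (by norm_num) rfl rfl (by norm_num) rfl rfl (by norm_num) (by norm_num) (by norm_num))
    (by norm_num) (D_lo6 hD 0.75 0.9 (-0.356) (-0.33) (-0.33) 1.39096 0.9141 hk1 hk2 (by norm_num) hy1 hy2 (by rw [neg_neg]; exact expn_ge (by norm_num) (by norm_num)) (by norm_num) (by norm_num) (by norm_num) (by norm_num) (by norm_num) (by norm_num)) (by norm_num) (by norm_num)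
  exact cmpT (eN_pos r κ) hX (x1lo3 H B (by linarith) (by linarith)) B.hT (by norm_num) (qA (a := -1) (s2 := 0.45) (q := 0.06543) (by norm_num) (by norm_num) (by linarith) h2 (by norm_num) (by norm_num)) (by norm_num)
    (expn 0 0.3964 (by norm_num) (by norm_num) (E := 0.67325) (by norm_num) (by norm_num)) (by norm_num) (by norm_num) (by norm_num)


theorem x2L3 (H : D6 β r t κ s h T) (B : BX6 0.75 0.9 0.49724 0.48 10 0.09 6.0586 β r κ T) (h1 : 0.43 ≤ s) (h2 : s ≤ 0.45) :
    ‖Xf β r h (t) 2‖ ≤ (0.07727 + 0.021933) * ‖Xf β r h t 1‖ := by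
  have hr := rgR (a := 1) (τ1 := 1.4974) (τm := 1.5185) H.h1 H.h2 h1 h2 (by norm_num) (by norm_num) (by norm_num)
  have e : s + ((2 : ℤ) : ℝ) - 1 = s + 1 := by push_cast; ring
  exact cellR (k := 2) (Y := ‖Xf β r h t 1‖) (g := 0.4692 * s ^ 2) 0.44 0.3186 0.75 0.9 0.49724 0.48 1.4974 1.5185 _ _ _ _ _ 0.17902 2.184 10 0.09 0.4607 0.4163 0.9719 0.9242 0.56475 6.0586 0.032695 0.07727 1.09663 0.09502 0.7967 0.9333 3.1623 0.0056854 0.021933
    H.hβ H.hκ H.hs H.hT H.h0 H.hq2 (by norm_num) B.hk1 B.hk2 B.hψ B.hψ1 (by rw [e]; have h5 := hr.2; have h6 := B.hk1; have h7 := Real.pi_gt_d6; norm_num at h5 h6 h7 ⊢; linarith) (by rw [e]; exact hr.1) (by rw [e]; exact hr.2)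
    B.hR B.hb B.hT (x1lo3 H B (by linarith) (by linarith)) (by positivity) (gA (by norm_num) (by linarith) (by linarith : s ≤ 0.45) (by norm_num))
    (by rw [e]; exact qB (s1 := 0.43) (s2 := 0.45) (by norm_num) (by norm_num) h1 h2 (le_refl _) (by norm_num) (by norm_num) (by norm_num))
    (by norm_num) (by norm_num) (by norm_num) (by norm_num) rfl rfl (by norm_num) rfl rfl rfl (by norm_num) (by norm_num) (by norm_num) (by norm_num) (by norm_num) (by norm_num) (by norm_num) (by norm_num) (by norm_num) (by norm_num) (by norm_num) (by norm_num) (by norm_num) (by norm_num) (by norm_num) (by norm_num) (by norm_num) (by norm_num) (by norm_num)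
    (expn 3 0.4215 (by norm_num) (by norm_num) (E := 0.032695) (by norm_num) (by norm_num)) (by norm_num) (by norm_num) (by norm_num) (by norm_num) (by norm_num) (by norm_num) (by norm_num) (by norm_num)
    (expn 5 0.1699 (by norm_num) (by norm_num) (E := 0.0056854) (by norm_num) (by norm_num)) (by norm_num) (by norm_num)


theorem x3L3 (H : D6 β r t κ s h T) (B : BX6 0.75 0.9 0.49724 0.48 10 0.09 6.0586 β r κ T) (h1 : 0.43 ≤ s) (h2 : s ≤ 0.45) :
    ‖Xf β r h (t) 3‖ ≤ 0.000641 * ‖Xf β r h t 1‖ := by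
  have hr := rgR (a := 2) (τ1 := 2.5446) (τm := 2.5657) H.h1 H.h2 h1 h2 (by norm_num) (by norm_num) (by norm_num)
  have e : (s + ((3 : ℤ) : ℝ) - 1) * h + 2 * Real.pi * ((0 : ℤ) : ℝ) = (s + 2) * h := by push_cast; ring
  exact cellU (k := 3) (Y := ‖Xf β r h t 1‖) (g := 0.4692 * s ^ 2) 0 0.75 0.9 1.6445 2.5657 0.01 10 0.09 0.4607 0.01 1.6491 0.9242 1.09663 0.09502 0.7967 0.9333 3.1623 0.00009778 0.000641
    H.hβ H.hκ H.hs H.hT H.h0 H.hq2 (by norm_num) B.hk1 B.hk2 (by rw [e]; linarith [hr.1, B.hk2]) (by rw [e]; exact hr.2)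
    B.hR B.hb (x1lo3 H B (by linarith) (by linarith)) (by positivity) (gA (by norm_num) (by linarith) (by linarith : s ≤ 0.45) (by norm_num))
    (by norm_num) (by norm_num) (by norm_num) (by norm_num) (by norm_num) (by norm_num) (by norm_num) (by norm_num) (by norm_num) (by norm_num) (by norm_num) (by norm_num) (by norm_num) (by norm_num) (by norm_num) (by norm_num) (by norm_num) (by norm_num) (by norm_num) 
    (expn 9 0.2329 (by norm_num) (by norm_num) (E := 0.00009778) (by norm_num) (by norm_num)) (by norm_num) (by norm_num)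


theorem outL3 (H : D6 β r t κ s h T) (B : BX6 0.75 0.9 0.49724 0.48 10 0.09 6.0586 β r κ T) (h1 : 0.43 ≤ s) (h2 : s ≤ 0.45) :
    oth6 β r h t + ‖Xf β r h t 0‖ < ‖Xf β r h t 1‖ := by
  have g1 := xm2L H B (by linarith) (by linarith)
  have g2 := xm1L H B (by linarith) (by linarith)
  have g3 := x0L3 H B h1 h2
  have g4 := x2L3 H B h1 h2
  have g5 := x3L3 H B h1 h2
  have hY := lt_of_lt_of_le (mul_pos (eN_pos r κ) (by positivity)) (x1lo3 H B h1 h2)
  unfold oth6
  norm_num at g1 g2 g3 g4 g5 ⊢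
  linarith

theorem x0loG (H : D6 β r t κ s h T) (B : BX6 0.75 0.9 0.49724 0.48 10 0.09 6.0586 β r κ T) (h1 : 0.58 ≤ s) (h2 : s ≤ 1) :
    eN r κ * (0.9168 * Real.exp (-(T * (0.5624 * (s - 1) ^ 2)))) ≤ ‖Xf β r h t 0‖ := by
  have hr := rgL (a := (-1)) (b1 := 0) (b2 := 0.4399) H.h1 H.h2 h1 h2 (by norm_num) (by norm_num) (by norm_num)
  have e : (s + -1) * h = (t - h) + κ := by rw [H.a0]; ring
  rw [e] at hr
  obtain ⟨ha, hb⟩ := hr
  have hD := H.dom' (t' := t - h) (by linarith) (by linarith)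
  have hk1 := B.hk1
  have hk2 := B.hk2
  have hk0 := H.k0
  have hy1 : -0.249 ≤ sy κ (t - h) := syL_ge hD 0.75 0.9 0.4399 0.249 0.77957 0.77958 0.2444 0.21568 0.25883 hk1 hk2 (by linarith) (by norm_num) (by norm_num) (by norm_num)
    (expm_ge (by norm_num) (by norm_num) (by norm_num) (by norm_num)) (expm_le (by norm_num) (by norm_num) (by norm_num)) (by norm_num)
    (by norm_num) (by norm_num) (by norm_num) (by norm_num) (by norm_num) (by norm_num)
  have hy2 : sy κ (t - h) ≤ 0 := sy_nonpos hD (by linarith)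
  exact H.x0lo hD (ε := 0.08) (c := 0.5624) (d := 1.0138) (l := 0.9168) (by norm_num) (JB6_k0a hD H.hβ H.hk1 H.hk2 (by linarith) (by linarith) H.ble H.bc')
    (V0_lo hD 0.5624 0.4399 0.1249 0.1107 0.2622 0.49724 (by linarith) (by linarith) (by norm_num) (fa1 B) (fa2 B) (fa3 B) (fa4 H B) (by norm_num) (by norm_num) (by norm_num) (by norm_num) (by norm_num))
    (D_up6 hD 0.75 0.9 (-0.249) 0 1.28275 1 1.0138 hk1 hk2 (by norm_num) hy1 hy2 (by norm_num) (by rw [neg_neg]; exact expn_le (by norm_num) (by norm_num) (by norm_num)) (by simp) (by norm_num) (by norm_num) (by norm_num) (by norm_num)) (by norm_num) (by norm_num)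


theorem xm2R (H : D6 β r t κ s h T) (B : BX6 0.75 0.9 0.49724 0.48 10 0.09 6.0586 β r κ T) (h1 : 0.58 ≤ s) (h2 : s ≤ 1) :
    ‖Xf β r h (t) (-2)‖ ≤ (0.00002 + 0.00039) * ‖Xf β r h t 0‖ := by
  have hr := rgL (a := (-3)) (b1 := 2.0943) (b2 := 2.5343) H.h1 H.h2 h1 h2 (by norm_num) (by norm_num) (by norm_num)
  have e : s + ((-2 : ℤ) : ℝ) - 1 = s + (-3) := by push_cast; ring
  exact cellL (k := -2) (Y := ‖Xf β r h t 0‖) (g := 0.5624 * (s - 1) ^ 2) 0.66 0.4642 0.75 0.9 0.49724 0.48 2.0943 2.5343 _ _ _ _ _ 1.1124 1.3833 10 0.09 0.4607 0 1.0676 0.9168 1.85679 6.0586 0.000013016 0.00002 1.09663 0.09921 0.7904 0.9303 3.1623 0.000091185 0.00039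
    H.hβ H.hκ H.hs H.hT H.h0 H.hq2 (by norm_num) B.hk1 B.hk2 B.hψ B.hψ1 (by rw [e]; exact hr.1) (by rw [e]; exact hr.2)
    B.hR B.hb B.hT (x0loG H B (by linarith) (by linarith)) (by positivity) (gD (by norm_num) (by linarith : 0.58 ≤ s) (by linarith) (by norm_num))
    (by rw [e]; exact qC (s1 := 0.58) (s2 := 1) (b := 0) (by norm_num) (by norm_num) h1 h2 (by linarith) (by norm_num) (by norm_num) (by norm_num))
    (by norm_num) (by norm_num) (by norm_num) (by norm_num) rfl rfl (by norm_num) rfl rfl rfl (by norm_num) (by norm_num) (by norm_num) (by norm_num) (by norm_num) (by norm_num) (by norm_num) (by norm_num) (by norm_num) (by norm_num) (by norm_num) (by norm_num) (by norm_num) (by norm_num) (by norm_num) (by norm_num) (by norm_num) (by norm_num)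
    (expn 11 0.2495 (by norm_num) (by norm_num) (E := 0.000013016) (by norm_num) (by norm_num)) (by norm_num) (by norm_num) (by norm_num) (by norm_num) (by norm_num) (by norm_num) (by norm_num) (by norm_num)
    (expn 9 0.3029 (by norm_num) (by norm_num) (E := 0.000091185) (by norm_num) (by norm_num)) (by norm_num) (by norm_num)


theorem x3R (H : D6 β r t κ s h T) (B : BX6 0.75 0.9 0.49724 0.48 10 0.09 6.0586 β r κ T) (h1 : 0.58 ≤ s) (h2 : s ≤ 1) :
    ‖Xf β r h (t) 3‖ ≤ 0.000535 * ‖Xf β r h t 0‖ := by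
  have hr := rgR (a := 2) (τ1 := 2.7017) (τm := 3.1416) H.h1 H.h2 h1 h2 (by norm_num) (by norm_num) (by norm_num)
  have e : (s + ((3 : ℤ) : ℝ) - 1) * h + 2 * Real.pi * ((0 : ℤ) : ℝ) = (s + 2) * h := by push_cast; ring
  exact cellU (k := 3) (Y := ‖Xf β r h t 0‖) (g := 0.5624 * (s - 1) ^ 2) 0 0.75 0.9 1.8016 3.1416 0.01 10 0.09 0.4607 0.01 1.3259 0.9168 1.09663 0.09921 0.7904 0.9303 3.1623 0.00010076 0.000535
    H.hβ H.hκ H.hs H.hT H.h0 H.hq2 (by norm_num) B.hk1 B.hk2 (by rw [e]; linarith [hr.1, B.hk2]) (by rw [e]; exact hr.2)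
    B.hR B.hb (x0loG H B (by linarith) (by linarith)) (by positivity) (gD (by norm_num) (by linarith : 0.58 ≤ s) (by linarith) (by norm_num))
    (by norm_num) (by norm_num) (by norm_num) (by norm_num) (by norm_num) (by norm_num) (by norm_num) (by norm_num) (by norm_num) (by norm_num) (by norm_num) (by norm_num) (by norm_num) (by norm_num) (by norm_num) (by norm_num) (by norm_num) (by norm_num) (by norm_num) 
    (expn 9 0.2029 (by norm_num) (by norm_num) (E := 0.00010076) (by norm_num) (by norm_num)) (by norm_num) (by norm_num)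


theorem x0lg0 (H : D6 β r t κ s h T) (B : BX6 0.75 0.9 0.49724 0.48 10 0.09 6.0586 β r κ T) (h1 : 0.58 ≤ s) (h2 : s ≤ 0.65) :
    eN r κ * (0.9168 * Real.exp (-(T * (0.5624 * (s - 1) ^ 2)))) ≤ ‖Xf β r h t 0‖ := by
  have hr := rgL (a := (-1)) (b1 := 0.3665) (b2 := 0.4399) H.h1 H.h2 h1 h2 (by norm_num) (by norm_num) (by norm_num)
  have e : (s + -1) * h = (t - h) + κ := by rw [H.a0]; ring
  rw [e] at hr
  obtain ⟨ha, hb⟩ := hr
  have hD := H.dom' (t' := t - h) (by linarith) (by linarith)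
  have hk1 := B.hk1
  have hk2 := B.hk2
  have hk0 := H.k0
  have hy1 : -0.249 ≤ sy κ (t - h) := syL_ge hD 0.75 0.9 0.4399 0.249 0.77957 0.77958 0.2444 0.21568 0.25883 hk1 hk2 (by linarith) (by norm_num) (by norm_num) (by norm_num)
    (expm_ge (by norm_num) (by norm_num) (by norm_num) (by norm_num)) (expm_le (by norm_num) (by norm_num) (by norm_num)) (by norm_num)
    (by norm_num) (by norm_num) (by norm_num) (by norm_num) (by norm_num) (by norm_num)
  have hy2 : sy κ (t - h) ≤ -0.201 := syL_le hD 0.75 0.9 0.3665 0.201 0.81791 0.81792 0.18266 0.21921 hk1 hk2 (by linarith) (by norm_num) (by norm_num) (by norm_num)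
    (expm_ge (by norm_num) (by norm_num) (by norm_num) (by norm_num)) (expm_le (by norm_num) (by norm_num) (by norm_num)) (by norm_num)
    (by norm_num) (by norm_num) (by norm_num) (by norm_num) (by norm_num) (by norm_num)
  exact H.x0lo hD (ε := 0.08) (c := 0.5624) (d := 1.0138) (l := 0.9168) (by norm_num) (JB6_k0a hD H.hβ H.hk1 H.hk2 (by linarith) (by linarith) H.ble H.bc')
    (V0_lo hD 0.5624 0.4399 0.1249 0.1107 0.2622 0.49724 (by linarith) (by linarith) (by norm_num) (fa1 B) (fa2 B) (fa3 B) (fa4 H B) (by norm_num) (by norm_num) (by norm_num) (by norm_num) (by norm_num))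
    (D_up6 hD 0.75 0.9 (-0.249) (-0.201) 1.28275 1.22263 1.0138 hk1 hk2 (by norm_num) hy1 hy2 (by norm_num) (by rw [neg_neg]; exact expn_le (by norm_num) (by norm_num) (by norm_num)) (by rw [neg_neg]; exact expn_le (by norm_num) (by norm_num) (by norm_num)) (by norm_num) (by norm_num) (by norm_num) (by norm_num)) (by norm_num) (by norm_num)


theorem xm1R0 (H : D6 β r t κ s h T) (B : BX6 0.75 0.9 0.49724 0.48 10 0.09 6.0586 β r κ T) (h1 : 0.58 ≤ s) (h2 : s ≤ 0.65) :
    ‖Xf β r h (t) (-1)‖ ≤ (0.00384 + 0.000388) * ‖Xf β r h t 0‖ := by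
  have hr := rgL (a := (-2)) (b1 := 1.4137) (b2 := 1.4871) H.h1 H.h2 h1 h2 (by norm_num) (by norm_num) (by norm_num)
  have e : s + ((-1 : ℤ) : ℝ) - 1 = s + (-2) := by push_cast; ring
  exact cellL (k := -1) (Y := ‖Xf β r h t 0‖) (g := 0.5624 * (s - 1) ^ 2) 1.15 0.575 0.75 0.9 0.49724 0.48 1.4137 1.4871 _ _ _ _ _ 1.40237 1.3055 10 0.09 0.4607 0 1.0616 0.9168 0.97904 6.0586 0.0026949 0.00384 1.09663 0.09921 0.7904 0.9303 3.1623 0.000091185 0.000388
    H.hβ H.hκ H.hs H.hT H.h0 H.hq2 (by norm_num) B.hk1 B.hk2 B.hψ B.hψ1 (by rw [e]; exact hr.1) (by rw [e]; exact hr.2)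
    B.hR B.hb B.hT (x0lg0 H B (by linarith) (by linarith)) (by positivity) (gD (by norm_num) (by linarith : 0.58 ≤ s) (by linarith) (by norm_num))
    (by rw [e]; exact qC (s1 := 0.58) (s2 := 0.65) (b := 0) (by norm_num) (by norm_num) h1 h2 (by linarith) (by norm_num) (by norm_num) (by norm_num))
    (by norm_num) (by norm_num) (by norm_num) (by norm_num) rfl rfl (by norm_num) rfl rfl rfl (by norm_num) (by norm_num) (by norm_num) (by norm_num) (by norm_num) (by norm_num) (by norm_num) (by norm_num) (by norm_num) (by norm_num) (by norm_num) (by norm_num) (by norm_num) (by norm_num) (by norm_num) (by norm_num) (by norm_num) (by norm_num)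
    (expn 5 0.9316 (by norm_num) (by norm_num) (E := 0.0026949) (by norm_num) (by norm_num)) (by norm_num) (by norm_num) (by norm_num) (by norm_num) (by norm_num) (by norm_num) (by norm_num) (by norm_num)
    (expn 9 0.3029 (by norm_num) (by norm_num) (E := 0.000091185) (by norm_num) (by norm_num)) (by norm_num) (by norm_num)


theorem x0lg1 (H : D6 β r t κ s h T) (B : BX6 0.75 0.9 0.49724 0.48 10 0.09 6.0586 β r κ T) (h1 : 0.65 ≤ s) (h2 : s ≤ 1) :
    eN r κ * (0.9199 * Real.exp (-(T * (0.5508 * (s - 1) ^ 2)))) ≤ ‖Xf β r h t 0‖ := by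
  have hr := rgL (a := (-1)) (b1 := 0) (b2 := 0.3666) H.h1 H.h2 h1 h2 (by norm_num) (by norm_num) (by norm_num)
  have e : (s + -1) * h = (t - h) + κ := by rw [H.a0]; ring
  rw [e] at hr
  obtain ⟨ha, hb⟩ := hr
  have hD := H.dom' (t' := t - h) (by linarith) (by linarith)
  have hk1 := B.hk1
  have hk2 := B.hk2
  have hk0 := H.k0
  have hy1 : -0.203 ≤ sy κ (t - h) := syL_ge hD 0.75 0.9 0.3666 0.203 0.81627 0.81628 0.1994 0.18411 0.22094 hk1 hk2 (by linarith) (by norm_num) (by norm_num) (by norm_num)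
    (expm_ge (by norm_num) (by norm_num) (by norm_num) (by norm_num)) (expm_le (by norm_num) (by norm_num) (by norm_num)) (by norm_num)
    (by norm_num) (by norm_num) (by norm_num) (by norm_num) (by norm_num) (by norm_num)
  have hy2 : sy κ (t - h) ≤ 0 := sy_nonpos hD (by linarith)
  exact H.x0lo hD (ε := 0.08) (c := 0.5508) (d := 1.0001) (l := 0.9199) (by norm_num) (JB6_k0a hD H.hβ H.hk1 H.hk2 (by linarith) (by linarith) H.ble H.bc')
    (V0_lo hD 0.5508 0.3666 0.1249 0.1107 0.2622 0.49724 (by linarith) (by linarith) (by norm_num) (fa1 B) (fa2 B) (fa3 B) (fa4 H B) (by norm_num) (by norm_num) (by norm_num) (by norm_num) (by norm_num))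
    (D_up6 hD 0.75 0.9 (-0.203) 0 1.22508 1 1.0001 hk1 hk2 (by norm_num) hy1 hy2 (by norm_num) (by rw [neg_neg]; exact expn_le (by norm_num) (by norm_num) (by norm_num)) (by simp) (by norm_num) (by norm_num) (by norm_num) (by norm_num)) (by norm_num) (by norm_num)


theorem xm1R1 (H : D6 β r t κ s h T) (B : BX6 0.75 0.9 0.49724 0.48 10 0.09 6.0586 β r κ T) (h1 : 0.65 ≤ s) (h2 : s ≤ 1) :
    ‖Xf β r h (t) (-1)‖ ≤ (0.05862 + 0.000299) * ‖Xf β r h t 0‖ := by
  have hr := rgL (a := (-2)) (b1 := 1.0471) (b2 := 1.4138) H.h1 H.h2 h1 h2 (by norm_num) (by norm_num) (by norm_num)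
  have e : s + ((-1 : ℤ) : ℝ) - 1 = s + (-2) := by push_cast; ring
  exact cellL (k := -1) (Y := ‖Xf β r h t 0‖) (g := 0.5508 * (s - 1) ^ 2) 1.1 0.543 0.75 0.9 0.49724 0.48 1.0471 1.4138 _ _ _ _ _ 0.93035 1.4465 10 0.09 0.4607 0 1.0256 0.9199 0.54299 6.0586 0.037274 0.05862 1.09663 0.06748 0.793 0.9526 3.1623 0.000073092 0.000299
    H.hβ H.hκ H.hs H.hT H.h0 H.hq2 (by norm_num) B.hk1 B.hk2 B.hψ B.hψ1 (by rw [e]; exact hr.1) (by rw [e]; exact hr.2)
    B.hR B.hb B.hT (x0lg1 H B (by linarith) (by linarith)) (by positivity) (gD (by norm_num) (by linarith : 0.65 ≤ s) (by linarith) (by norm_num))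
    (by rw [e]; exact qC (s1 := 0.65) (s2 := 1) (b := 0) (by norm_num) (by norm_num) h1 h2 (by linarith) (by norm_num) (by norm_num) (by norm_num))
    (by norm_num) (by norm_num) (by norm_num) (by norm_num) rfl rfl (by norm_num) rfl rfl rfl (by norm_num) (by norm_num) (by norm_num) (by norm_num) (by norm_num) (by norm_num) (by norm_num) (by norm_num) (by norm_num) (by norm_num) (by norm_num) (by norm_num) (by norm_num) (by norm_num) (by norm_num) (by norm_num) (by norm_num) (by norm_num)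
    (expn 3 0.2897 (by norm_num) (by norm_num) (E := 0.037274) (by norm_num) (by norm_num)) (by norm_num) (by norm_num) (by norm_num) (by norm_num) (by norm_num) (by norm_num) (by norm_num) (by norm_num)
    (expn 9 0.5259 (by norm_num) (by norm_num) (E := 0.000073092) (by norm_num) (by norm_num)) (by norm_num) (by norm_num)


theorem x0lo0 (H : D6 β r t κ s h T) (B : BX6 0.75 0.9 0.49724 0.48 10 0.09 6.0586 β r κ T) (h1 : 0.58 ≤ s) (h2 : s ≤ 0.6) :
    eN r κ * (0.9168 * Real.exp (-(T * (0.5624 * (s - 1) ^ 2)))) ≤ ‖Xf β r h t 0‖ := by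
  have hr := rgL (a := (-1)) (b1 := 0.4188) (b2 := 0.4399) H.h1 H.h2 h1 h2 (by norm_num) (by norm_num) (by norm_num)
  have e : (s + -1) * h = (t - h) + κ := by rw [H.a0]; ring
  rw [e] at hr
  obtain ⟨ha, hb⟩ := hr
  have hD := H.dom' (t' := t - h) (by linarith) (by linarith)
  have hk1 := B.hk1
  have hk2 := B.hk2
  have hk0 := H.k0
  have hy1 : -0.249 ≤ sy κ (t - h) := syL_ge hD 0.75 0.9 0.4399 0.249 0.77957 0.77958 0.2444 0.21568 0.25883 hk1 hk2 (by linarith) (by norm_num) (by norm_num) (by norm_num)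
    (expm_ge (by norm_num) (by norm_num) (by norm_num) (by norm_num)) (expm_le (by norm_num) (by norm_num) (by norm_num)) (by norm_num)
    (by norm_num) (by norm_num) (by norm_num) (by norm_num) (by norm_num) (by norm_num)
  have hy2 : sy κ (t - h) ≤ -0.233 := syL_le hD 0.75 0.9 0.4188 0.233 0.79215 0.79216 0.20507 0.2461 hk1 hk2 (by linarith) (by norm_num) (by norm_num) (by norm_num)
    (expm_ge (by norm_num) (by norm_num) (by norm_num) (by norm_num)) (expm_le (by norm_num) (by norm_num) (by norm_num)) (by norm_num)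
    (by norm_num) (by norm_num) (by norm_num) (by norm_num) (by norm_num) (by norm_num)
  exact H.x0lo hD (ε := 0.08) (c := 0.5624) (d := 1.0138) (l := 0.9168) (by norm_num) (JB6_k0a hD H.hβ H.hk1 H.hk2 (by linarith) (by linarith) H.ble H.bc')
    (V0_lo hD 0.5624 0.4399 0.1249 0.1107 0.2622 0.49724 (by linarith) (by linarith) (by norm_num) (fa1 B) (fa2 B) (fa3 B) (fa4 H B) (by norm_num) (by norm_num) (by norm_num) (by norm_num) (by norm_num))
    (D_up6 hD 0.75 0.9 (-0.249) (-0.233) 1.28275 1.26239 1.0138 hk1 hk2 (by norm_num) hy1 hy2 (by norm_num) (by rw [neg_neg]; exact expn_le (by norm_num) (by norm_num) (by norm_num)) (by rw [neg_neg]; exact expn_le (by norm_num) (by norm_num) (by norm_num)) (by norm_num) (by norm_num) (by norm_num) (by norm_num)) (by norm_num) (by norm_num)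


theorem x1R0 (H : D6 β r t κ s h T) (B : BX6 0.75 0.9 0.49724 0.48 10 0.09 6.0586 β r κ T) (h1 : 0.58 ≤ s) (h2 : s ≤ 0.6) :
    ‖Xf β r h t 1‖ ≤ 0.86664 * ‖Xf β r h t 0‖ := by
  have hr := rgR (a := 0) (τ1 := 0.6073) (τm := 0.6284) H.h1 H.h2 h1 h2 (by norm_num) (by norm_num) (by norm_num)
  rw [add_zero, ← H.hs] at hr
  obtain ⟨ha, hb⟩ := hr
  have hD := H.dom' (t' := t) (by linarith) (by linarith)
  have hk1 := B.hk1
  have hk2 := B.hk2
  have hk0 := H.k0
  have hy1 : 0.232 ≤ sy κ t := syR_ge hD 0.75 0.9 0.6073 0.232 1.26111 1.26112 0.32508 0.39011 hk1 hk2 (by linarith) (by norm_num) (by norm_num)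
    (expn_ge (by norm_num) (by norm_num)) (expn_le (by norm_num) (by norm_num) (by norm_num)) (by norm_num)
    (by norm_num) (by norm_num) (by norm_num) (by norm_num) (by norm_num) (by norm_num)
  have hy2 : sy κ t ≤ 0.257 := syR_le hD 0.75 0.9 0.6284 0.257 1.29304 0.3507 0.36923 0.44309 hk1 hk2 (by linarith) (by norm_num) (by norm_num)
    (expn_ge (by norm_num) (by norm_num)) (by norm_num) (by norm_num) (Or.inr ((mul_le_mul_of_nonneg_left (expn_le (E := 1.29305) (by norm_num) (by norm_num) (by norm_num)) (by norm_num)).trans (by norm_num))) (by norm_num) (by norm_num) (by norm_num)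
  have hX := H.x1up hD (ε := 0.06) (c := 0.4259) (d := 1.0902) (U := 1.0374) (by norm_num) (JB6_k1b hD H.hβ H.hk1 H.hk2 (by linarith) (by linarith) H.ble H.bc')
    (VR_box6 hD 0.79 0.4259 0.75 0.49724 0.48 0.6073 0.6284 _ _ _ _ _ ha hb (by norm_num) B.hk1 B.hψ B.hψ1 (by norm_num) (by norm_num) (by norm_num) rfl rfl (by norm_num) rfl rfl rfl (by norm_num) (by norm_num))
    (by norm_num) (D_lo6 hD 0.75 0.9 0.232 0.257 0.232 0.79294 1.0902 hk1 hk2 (by norm_num) hy1 hy2 (expm_ge (by norm_num) (by norm_num) (by norm_num) (by norm_num)) (by norm_num) (by norm_num) (by norm_num) (by norm_num) (by norm_num) (by norm_num)) (by norm_num) (by norm_num)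
  have e0 : s ^ 2 = (s + 0) ^ 2 := by ring
  rw [e0] at hX
  exact cmpT (eN_pos r κ) hX (x0lo0 H B (by linarith) (by linarith)) B.hT (by norm_num) (qD (a := 0) (s1 := 0.58) (q := 0.04406) (by norm_num) (by norm_num) h1 (by linarith) (by norm_num) (by norm_num)) (by norm_num)
    (expn 0 0.2669 (by norm_num) (by norm_num) (E := 0.76589) (by norm_num) (by norm_num)) (by norm_num) (by norm_num) (by norm_num)


theorem x2R0 (H : D6 β r t κ s h T) (B : BX6 0.75 0.9 0.49724 0.48 10 0.09 6.0586 β r κ T) (h1 : 0.58 ≤ s) (h2 : s ≤ 0.6) :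
    ‖Xf β r h (t) 2‖ ≤ (0.04135 + 0.015715) * ‖Xf β r h t 0‖ := by
  have hr := rgR (a := 1) (τ1 := 1.6545) (τm := 1.6756) H.h1 H.h2 h1 h2 (by norm_num) (by norm_num) (by norm_num)
  have e : s + ((2 : ℤ) : ℝ) - 1 = s + 1 := by push_cast; ring
  exact cellR (k := 2) (Y := ‖Xf β r h t 0‖) (g := 0.5624 * (s - 1) ^ 2) 0.43 0.3111 0.75 0.9 0.49724 0.48 1.6545 1.6756 _ _ _ _ _ 0.14634 2.2969 10 0.09 0.4607 0.3765 0.9959 0.9168 0.67742 6.0586 0.016504 0.04135 1.09663 0.09921 0.7904 0.9303 3.1623 0.0039438 0.015715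
    H.hβ H.hκ H.hs H.hT H.h0 H.hq2 (by norm_num) B.hk1 B.hk2 B.hψ B.hψ1 (by rw [e]; have h5 := hr.2; have h6 := B.hk1; have h7 := Real.pi_gt_d6; norm_num at h5 h6 h7 ⊢; linarith) (by rw [e]; exact hr.1) (by rw [e]; exact hr.2)
    B.hR B.hb B.hT (x0lo0 H B (by linarith) (by linarith)) (by positivity) (gD (by norm_num) (by linarith : 0.58 ≤ s) (by linarith) (by norm_num))
    (by rw [e]; exact qD (s1 := 0.58) (by norm_num) (by norm_num) h1 (by linarith) (by norm_num) (by norm_num))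
    (by norm_num) (by norm_num) (by norm_num) (by norm_num) rfl rfl (by norm_num) rfl rfl rfl (by norm_num) (by norm_num) (by norm_num) (by norm_num) (by norm_num) (by norm_num) (by norm_num) (by norm_num) (by norm_num) (by norm_num) (by norm_num) (by norm_num) (by norm_num) (by norm_num) (by norm_num) (by norm_num) (by norm_num) (by norm_num) (by norm_num)
    (expn 4 0.1042 (by norm_num) (by norm_num) (E := 0.016504) (by norm_num) (by norm_num)) (by norm_num) (by norm_num) (by norm_num) (by norm_num) (by norm_num) (by norm_num) (by norm_num) (by norm_num)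
    (expn 5 0.5379 (by norm_num) (by norm_num) (E := 0.0039438) (by norm_num) (by norm_num)) (by norm_num) (by norm_num)


theorem outR0 (H : D6 β r t κ s h T) (B : BX6 0.75 0.9 0.49724 0.48 10 0.09 6.0586 β r κ T) (h1 : 0.58 ≤ s) (h2 : s ≤ 0.6) :
    oth6 β r h t + ‖Xf β r h t 1‖ < ‖Xf β r h t 0‖ := by
  have g1 := xm2R H B (by linarith) (by linarith)
  have g2 := xm1R0 H B (by linarith) (by linarith)
  have g3 := x1R0 H B h1 h2
  have g4 := x2R0 H B h1 h2
  have g5 := x3R H B (by linarith) (by linarith)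
  have hY := lt_of_lt_of_le (mul_pos (eN_pos r κ) (by positivity)) (x0lo0 H B h1 h2)
  unfold oth6
  norm_num at g1 g2 g3 g4 g5 ⊢
  linarith

theorem x0lo1 (H : D6 β r t κ s h T) (B : BX6 0.75 0.9 0.49724 0.48 10 0.09 6.0586 β r κ T) (h1 : 0.6 ≤ s) (h2 : s ≤ 0.65) :
    eN r κ * (0.9178 * Real.exp (-(T * (0.559 * (s - 1) ^ 2)))) ≤ ‖Xf β r h t 0‖ := by
  have hr := rgL (a := (-1)) (b1 := 0.3665) (b2 := 0.4189) H.h1 H.h2 h1 h2 (by norm_num) (by norm_num) (by norm_num)
  have e : (s + -1) * h = (t - h) + κ := by rw [H.a0]; ring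
  rw [e] at hr
  obtain ⟨ha, hb⟩ := hr
  have hD := H.dom' (t' := t - h) (by linarith) (by linarith)
  have hk1 := B.hk1
  have hk2 := B.hk2
  have hk0 := H.k0
  have hy1 : -0.236 ≤ sy κ (t - h) := syL_ge hD 0.75 0.9 0.4189 0.236 0.78978 0.78979 0.2278 0.20709 0.24853 hk1 hk2 (by linarith) (by norm_num) (by norm_num) (by norm_num)
    (expm_ge (by norm_num) (by norm_num) (by norm_num) (by norm_num)) (expm_le (by norm_num) (by norm_num) (by norm_num)) (by norm_num)
    (by norm_num) (by norm_num) (by norm_num) (by norm_num) (by norm_num) (by norm_num)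
  have hy2 : sy κ (t - h) ≤ -0.201 := syL_le hD 0.75 0.9 0.3665 0.201 0.81791 0.81792 0.18266 0.21921 hk1 hk2 (by linarith) (by norm_num) (by norm_num) (by norm_num)
    (expm_ge (by norm_num) (by norm_num) (by norm_num) (by norm_num)) (expm_le (by norm_num) (by norm_num) (by norm_num)) (by norm_num)
    (by norm_num) (by norm_num) (by norm_num) (by norm_num) (by norm_num) (by norm_num)
  exact H.x0lo hD (ε := 0.08) (c := 0.559) (d := 1.0092) (l := 0.9178) (by norm_num) (JB6_k0a hD H.hβ H.hk1 H.hk2 (by linarith) (by linarith) H.ble H.bc')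
    (V0_lo hD 0.559 0.4189 0.1249 0.1107 0.2622 0.49724 (by linarith) (by linarith) (by norm_num) (fa1 B) (fa2 B) (fa3 B) (fa4 H B) (by norm_num) (by norm_num) (by norm_num) (by norm_num) (by norm_num))
    (D_up6 hD 0.75 0.9 (-0.236) (-0.201) 1.26618 1.22263 1.0092 hk1 hk2 (by norm_num) hy1 hy2 (by norm_num) (by rw [neg_neg]; exact expn_le (by norm_num) (by norm_num) (by norm_num)) (by rw [neg_neg]; exact expn_le (by norm_num) (by norm_num) (by norm_num)) (by norm_num) (by norm_num) (by norm_num) (by norm_num)) (by norm_num) (by norm_num)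


theorem x1R1 (H : D6 β r t κ s h T) (B : BX6 0.75 0.9 0.49724 0.48 10 0.09 6.0586 β r κ T) (h1 : 0.6 ≤ s) (h2 : s ≤ 0.65) :
    ‖Xf β r h t 1‖ ≤ 0.77727 * ‖Xf β r h t 0‖ := by
  have hr := rgR (a := 0) (τ1 := 0.6283) (τm := 0.6807) H.h1 H.h2 h1 h2 (by norm_num) (by norm_num) (by norm_num)
  rw [add_zero, ← H.hs] at hr
  obtain ⟨ha, hb⟩ := hr
  have hD := H.dom' (t' := t) (by linarith) (by linarith)
  have hk1 := B.hk1
  have hk2 := B.hk2
  have hk0 := H.k0
  have hy1 : 0.238 ≤ sy κ t := syR_ge hD 0.75 0.9 0.6283 0.238 1.2687 1.26871 0.3355 0.40261 hk1 hk2 (by linarith) (by norm_num) (by norm_num)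
    (expn_ge (by norm_num) (by norm_num)) (expn_le (by norm_num) (by norm_num) (by norm_num)) (by norm_num)
    (by norm_num) (by norm_num) (by norm_num) (by norm_num) (by norm_num) (by norm_num)
  have hy2 : sy κ t ≤ 0.274 := syR_le hD 0.75 0.9 0.6807 0.274 1.31521 0.3803 0.4004 0.4805 hk1 hk2 (by linarith) (by norm_num) (by norm_num)
    (expn_ge (by norm_num) (by norm_num)) (by norm_num) (by norm_num) (Or.inr ((mul_le_mul_of_nonneg_left (expn_le (E := 1.31522) (by norm_num) (by norm_num) (by norm_num)) (by norm_num)).trans (by norm_num))) (by norm_num) (by norm_num) (by norm_num)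
  have hX := H.x1up hD (ε := 0.06) (c := 0.4201) (d := 1.0934) (U := 1.0366) (by norm_num) (JB6_k1b hD H.hβ H.hk1 H.hk2 (by linarith) (by linarith) H.ble H.bc')
    (VR_box6 hD 0.77 0.4201 0.75 0.49724 0.48 0.6283 0.6807 _ _ _ _ _ ha hb (by norm_num) B.hk1 B.hψ B.hψ1 (by norm_num) (by norm_num) (by norm_num) rfl rfl (by norm_num) rfl rfl rfl (by norm_num) (by norm_num))
    (by norm_num) (D_lo6 hD 0.75 0.9 0.238 0.274 0.238 0.7882 1.0934 hk1 hk2 (by norm_num) hy1 hy2 (expm_ge (by norm_num) (by norm_num) (by norm_num) (by norm_num)) (by norm_num) (by norm_num) (by norm_num) (by norm_num) (by norm_num) (by norm_num)) (by norm_num) (by norm_num)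
  have e0 : s ^ 2 = (s + 0) ^ 2 := by ring
  rw [e0] at hX
  exact cmpT (eN_pos r κ) hX (x0lo1 H B (by linarith) (by linarith)) B.hT (by norm_num) (qD (a := 0) (s1 := 0.6) (q := 0.06179) (by norm_num) (by norm_num) h1 (by linarith) (by norm_num) (by norm_num)) (by norm_num)
    (expn 0 0.3743 (by norm_num) (by norm_num) (E := 0.68819) (by norm_num) (by norm_num)) (by norm_num) (by norm_num) (by norm_num)


theorem x2R1 (H : D6 β r t κ s h T) (B : BX6 0.75 0.9 0.49724 0.48 10 0.09 6.0586 β r κ T) (h1 : 0.6 ≤ s) (h2 : s ≤ 0.65) :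
    ‖Xf β r h (t) 2‖ ≤ (0.03748 + 0.01372) * ‖Xf β r h t 0‖ := by
  have hr := rgR (a := 1) (τ1 := 1.6755) (τm := 1.7279) H.h1 H.h2 h1 h2 (by norm_num) (by norm_num) (by norm_num)
  have e : s + ((2 : ℤ) : ℝ) - 1 = s + 1 := by push_cast; ring
  exact cellR (k := 2) (Y := ‖Xf β r h t 0‖) (g := 0.559 * (s - 1) ^ 2) 0.42 0.3062 0.75 0.9 0.49724 0.48 1.6755 1.7279 _ _ _ _ _ 0.14306 2.3099 10 0.09 0.4607 0.3694 0.9983 0.9178 0.69443 6.0586 0.014889 0.03748 1.09663 0.08945 0.7912 0.9372 3.1623 0.0034385 0.01372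
    H.hβ H.hκ H.hs H.hT H.h0 H.hq2 (by norm_num) B.hk1 B.hk2 B.hψ B.hψ1 (by rw [e]; have h5 := hr.2; have h6 := B.hk1; have h7 := Real.pi_gt_d6; norm_num at h5 h6 h7 ⊢; linarith) (by rw [e]; exact hr.1) (by rw [e]; exact hr.2)
    B.hR B.hb B.hT (x0lo1 H B (by linarith) (by linarith)) (by positivity) (gD (by norm_num) (by linarith : 0.6 ≤ s) (by linarith) (by norm_num))
    (by rw [e]; exact qD (s1 := 0.6) (by norm_num) (by norm_num) h1 (by linarith) (by norm_num) (by norm_num))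
    (by norm_num) (by norm_num) (by norm_num) (by norm_num) rfl rfl (by norm_num) rfl rfl rfl (by norm_num) (by norm_num) (by norm_num) (by norm_num) (by norm_num) (by norm_num) (by norm_num) (by norm_num) (by norm_num) (by norm_num) (by norm_num) (by norm_num) (by norm_num) (by norm_num) (by norm_num) (by norm_num) (by norm_num) (by norm_num) (by norm_num)
    (expn 4 0.2072 (by norm_num) (by norm_num) (E := 0.014889) (by norm_num) (by norm_num)) (by norm_num) (by norm_num) (by norm_num) (by norm_num) (by norm_num) (by norm_num) (by norm_num) (by norm_num)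
    (expn 5 0.6779 (by norm_num) (by norm_num) (E := 0.0034385) (by norm_num) (by norm_num)) (by norm_num) (by norm_num)


theorem outR1 (H : D6 β r t κ s h T) (B : BX6 0.75 0.9 0.49724 0.48 10 0.09 6.0586 β r κ T) (h1 : 0.6 ≤ s) (h2 : s ≤ 0.65) :
    oth6 β r h t + ‖Xf β r h t 1‖ < ‖Xf β r h t 0‖ := by
  have g1 := xm2R H B (by linarith) (by linarith)
  have g2 := xm1R0 H B (by linarith) (by linarith)
  have g3 := x1R1 H B h1 h2
  have g4 := x2R1 H B h1 h2
  have g5 := x3R H B (by linarith) (by linarith)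
  have hY := lt_of_lt_of_le (mul_pos (eN_pos r κ) (by positivity)) (x0lo1 H B h1 h2)
  unfold oth6
  norm_num at g1 g2 g3 g4 g5 ⊢
  linarith

theorem x0lo2 (H : D6 β r t κ s h T) (B : BX6 0.75 0.9 0.49724 0.48 10 0.09 6.0586 β r κ T) (h1 : 0.65 ≤ s) (h2 : s ≤ 0.75) :
    eN r κ * (0.92 * Real.exp (-(T * (0.5508 * (s - 1) ^ 2)))) ≤ ‖Xf β r h t 0‖ := by
  have hr := rgL (a := (-1)) (b1 := 0.2617) (b2 := 0.3666) H.h1 H.h2 h1 h2 (by norm_num) (by norm_num) (by norm_num)
  have e : (s + -1) * h = (t - h) + κ := by rw [H.a0]; ring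
  rw [e] at hr
  obtain ⟨ha, hb⟩ := hr
  have hD := H.dom' (t' := t - h) (by linarith) (by linarith)
  have hk1 := B.hk1
  have hk2 := B.hk2
  have hk0 := H.k0
  have hy1 : -0.203 ≤ sy κ (t - h) := syL_ge hD 0.75 0.9 0.3666 0.203 0.81627 0.81628 0.1994 0.18411 0.22094 hk1 hk2 (by linarith) (by norm_num) (by norm_num) (by norm_num)
    (expm_ge (by norm_num) (by norm_num) (by norm_num) (by norm_num)) (expm_le (by norm_num) (by norm_num) (by norm_num)) (by norm_num)
    (by norm_num) (by norm_num) (by norm_num) (by norm_num) (by norm_num) (by norm_num)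
  have hy2 : sy κ (t - h) ≤ -0.138 := syL_le hD 0.75 0.9 0.2617 0.138 0.87109 0.8711 0.13356 0.16029 hk1 hk2 (by linarith) (by norm_num) (by norm_num) (by norm_num)
    (expm_ge (by norm_num) (by norm_num) (by norm_num) (by norm_num)) (expm_le (by norm_num) (by norm_num) (by norm_num)) (by norm_num)
    (by norm_num) (by norm_num) (by norm_num) (by norm_num) (by norm_num) (by norm_num)
  exact H.x0lo hD (ε := 0.08) (c := 0.5508) (d := 0.9999) (l := 0.92) (by norm_num) (JB6_k0a hD H.hβ H.hk1 H.hk2 (by linarith) (by linarith) H.ble H.bc')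
    (V0_lo hD 0.5508 0.3666 0.1249 0.1107 0.2622 0.49724 (by linarith) (by linarith) (by norm_num) (fa1 B) (fa2 B) (fa3 B) (fa4 H B) (by norm_num) (by norm_num) (by norm_num) (by norm_num) (by norm_num))
    (D_up6 hD 0.75 0.9 (-0.203) (-0.138) 1.22508 1.14798 0.9999 hk1 hk2 (by norm_num) hy1 hy2 (by norm_num) (by rw [neg_neg]; exact expn_le (by norm_num) (by norm_num) (by norm_num)) (by rw [neg_neg]; exact expn_le (by norm_num) (by norm_num) (by norm_num)) (by norm_num) (by norm_num) (by norm_num) (by norm_num)) (by norm_num) (by norm_num)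


theorem x1R2 (H : D6 β r t κ s h T) (B : BX6 0.75 0.9 0.49724 0.48 10 0.09 6.0586 β r κ T) (h1 : 0.65 ≤ s) (h2 : s ≤ 0.75) :
    ‖Xf β r h t 1‖ ≤ 0.59695 * ‖Xf β r h t 0‖ := by
  have hr := rgR (a := 0) (τ1 := 0.6806) (τm := 0.7854) H.h1 H.h2 h1 h2 (by norm_num) (by norm_num) (by norm_num)
  rw [add_zero, ← H.hs] at hr
  obtain ⟨ha, hb⟩ := hr
  have hD := H.dom' (t' := t) (by linarith) (by linarith)
  have hk1 := B.hk1
  have hk2 := B.hk2
  have hk0 := H.k0
  have hy1 : 0.253 ≤ sy κ t := syR_ge hD 0.75 0.9 0.6806 0.253 1.28788 1.28789 0.36203 0.43445 hk1 hk2 (by linarith) (by norm_num) (by norm_num)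
    (expn_ge (by norm_num) (by norm_num)) (expn_le (by norm_num) (by norm_num) (by norm_num)) (by norm_num)
    (by norm_num) (by norm_num) (by norm_num) (by norm_num) (by norm_num) (by norm_num)
  have hy2 : sy κ t ≤ 0.305 := syR_le hD 0.75 0.9 0.7854 0.305 1.35662 0.4444 0.45974 0.5517 hk1 hk2 (by linarith) (by norm_num) (by norm_num)
    (expn_ge (by norm_num) (by norm_num)) (by norm_num) (by norm_num) (Or.inr ((mul_le_mul_of_nonneg_left (expn_le (E := 1.35663) (by norm_num) (by norm_num) (by norm_num)) (by norm_num)).trans (by norm_num))) (by norm_num) (by norm_num) (by norm_num)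
  have hX := H.x1up hD (ε := 0.06) (c := 0.4088) (d := 1.1018) (U := 1.0347) (by norm_num) (JB6_k1b hD H.hβ H.hk1 H.hk2 (by linarith) (by linarith) H.ble H.bc')
    (VR_box6 hD 0.74 0.4088 0.75 0.49724 0.48 0.6806 0.7854 _ _ _ _ _ ha hb (by norm_num) B.hk1 B.hψ B.hψ1 (by norm_num) (by norm_num) (by norm_num) rfl rfl (by norm_num) rfl rfl rfl (by norm_num) (by norm_num))
    (by norm_num) (D_lo6 hD 0.75 0.9 0.253 0.305 0.253 0.77646 1.1018 hk1 hk2 (by norm_num) hy1 hy2 (expm_ge (by norm_num) (by norm_num) (by norm_num) (by norm_num)) (by norm_num) (by norm_num) (by norm_num) (by norm_num) (by norm_num) (by norm_num)) (by norm_num) (by norm_num)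
  have e0 : s ^ 2 = (s + 0) ^ 2 := by ring
  rw [e0] at hX
  exact cmpT (eN_pos r κ) hX (x0lo2 H B (by linarith) (by linarith)) B.hT (by norm_num) (qD (a := 0) (s1 := 0.65) (q := 0.10524) (by norm_num) (by norm_num) h1 (by linarith) (by norm_num) (by norm_num)) (by norm_num)
    (expn 0 0.6376 (by norm_num) (by norm_num) (E := 0.53077) (by norm_num) (by norm_num)) (by norm_num) (by norm_num) (by norm_num)


theorem x2R2 (H : D6 β r t κ s h T) (B : BX6 0.75 0.9 0.49724 0.48 10 0.09 6.0586 β r κ T) (h1 : 0.65 ≤ s) (h2 : s ≤ 0.75) :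
    ‖Xf β r h (t) 2‖ ≤ (0.02878 + 0.009514) * ‖Xf β r h t 0‖ := by
  have hr := rgR (a := 1) (τ1 := 1.7278) (τm := 1.8326) H.h1 H.h2 h1 h2 (by norm_num) (by norm_num) (by norm_num)
  have e : s + ((2 : ℤ) : ℝ) - 1 = s + 1 := by push_cast; ring
  exact cellR (k := 2) (Y := ‖Xf β r h t 0‖) (g := 0.5508 * (s - 1) ^ 2) 0.4 0.2963 0.75 0.9 0.49724 0.48 1.7278 1.8326 _ _ _ _ _ 0.13843 2.329 10 0.09 0.4607 0.3486 1.0017 0.92 0.7392 6.0586 0.011368 0.02878 1.09663 0.06748 0.7931 0.9526 3.1623 0.0023818 0.009514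
    H.hβ H.hκ H.hs H.hT H.h0 H.hq2 (by norm_num) B.hk1 B.hk2 B.hψ B.hψ1 (by rw [e]; have h5 := hr.2; have h6 := B.hk1; have h7 := Real.pi_gt_d6; norm_num at h5 h6 h7 ⊢; linarith) (by rw [e]; exact hr.1) (by rw [e]; exact hr.2)
    B.hR B.hb B.hT (x0lo2 H B (by linarith) (by linarith)) (by positivity) (gD (by norm_num) (by linarith : 0.65 ≤ s) (by linarith) (by norm_num))
    (by rw [e]; exact qD (s1 := 0.65) (by norm_num) (by norm_num) h1 (by linarith) (by norm_num) (by norm_num))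
    (by norm_num) (by norm_num) (by norm_num) (by norm_num) rfl rfl (by norm_num) rfl rfl rfl (by norm_num) (by norm_num) (by norm_num) (by norm_num) (by norm_num) (by norm_num) (by norm_num) (by norm_num) (by norm_num) (by norm_num) (by norm_num) (by norm_num) (by norm_num) (by norm_num) (by norm_num) (by norm_num) (by norm_num) (by norm_num) (by norm_num)
    (expn 4 0.4785 (by norm_num) (by norm_num) (E := 0.011368) (by norm_num) (by norm_num)) (by norm_num) (by norm_num) (by norm_num) (by norm_num) (by norm_num) (by norm_num) (by norm_num) (by norm_num)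
    (expn 6 0.0399 (by norm_num) (by norm_num) (E := 0.0023818) (by norm_num) (by norm_num)) (by norm_num) (by norm_num)


theorem outR2 (H : D6 β r t κ s h T) (B : BX6 0.75 0.9 0.49724 0.48 10 0.09 6.0586 β r κ T) (h1 : 0.65 ≤ s) (h2 : s ≤ 0.75) :
    oth6 β r h t + ‖Xf β r h t 1‖ < ‖Xf β r h t 0‖ := by
  have g1 := xm2R H B (by linarith) (by linarith)
  have g2 := xm1R1 H B (by linarith) (by linarith)
  have g3 := x1R2 H B h1 h2
  have g4 := x2R2 H B h1 h2
  have g5 := x3R H B (by linarith) (by linarith)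
  have hY := lt_of_lt_of_le (mul_pos (eN_pos r κ) (by positivity)) (x0lo2 H B h1 h2)
  unfold oth6
  norm_num at g1 g2 g3 g4 g5 ⊢
  linarith

theorem x0lo3 (H : D6 β r t κ s h T) (B : BX6 0.75 0.9 0.49724 0.48 10 0.09 6.0586 β r κ T) (h1 : 0.75 ≤ s) (h2 : s ≤ 1) :
    eN r κ * (0.9199 * Real.exp (-(T * (0.5351 * (s - 1) ^ 2)))) ≤ ‖Xf β r h t 0‖ := by
  have hr := rgL (a := (-1)) (b1 := 0) (b2 := 0.2618) H.h1 H.h2 h1 h2 (by norm_num) (by norm_num) (by norm_num)
  have e : (s + -1) * h = (t - h) + κ := by rw [H.a0]; ring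
  rw [e] at hr
  obtain ⟨ha, hb⟩ := hr
  have hD := H.dom' (t' := t - h) (by linarith) (by linarith)
  have hk1 := B.hk1
  have hk2 := B.hk2
  have hk0 := H.k0
  have hy1 : -0.141 ≤ sy κ (t - h) := syL_ge hD 0.75 0.9 0.2618 0.141 0.86848 0.86849 0.1383 0.13606 0.16328 hk1 hk2 (by linarith) (by norm_num) (by norm_num) (by norm_num)
    (expm_ge (by norm_num) (by norm_num) (by norm_num) (by norm_num)) (expm_le (by norm_num) (by norm_num) (by norm_num)) (by norm_num)
    (by norm_num) (by norm_num) (by norm_num) (by norm_num) (by norm_num) (by norm_num)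
  have hy2 : sy κ (t - h) ≤ 0 := sy_nonpos hD (by linarith)
  exact H.x0lo hD (ε := 0.08) (c := 0.5351) (d := 1.0001) (l := 0.9199) (by norm_num) (JB6_k0a hD H.hβ H.hk1 H.hk2 (by linarith) (by linarith) H.ble H.bc')
    (V0_lo hD 0.5351 0.2618 0.1249 0.1107 0.2622 0.49724 (by linarith) (by linarith) (by norm_num) (fa1 B) (fa2 B) (fa3 B) (fa4 H B) (by norm_num) (by norm_num) (by norm_num) (by norm_num) (by norm_num))
    (D_up6 hD 0.75 0.9 (-0.141) 0 1.15143 1 1.0001 hk1 hk2 (by norm_num) hy1 hy2 (by norm_num) (by rw [neg_neg]; exact expn_le (by norm_num) (by norm_num) (by norm_num)) (by simp) (by norm_num) (by norm_num) (by norm_num) (by norm_num)) (by norm_num) (by norm_num)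


theorem x1R3 (H : D6 β r t κ s h T) (B : BX6 0.75 0.9 0.49724 0.48 10 0.09 6.0586 β r κ T) (h1 : 0.75 ≤ s) (h2 : s ≤ 1) :
    ‖Xf β r h t 1‖ ≤ 0.37323 * ‖Xf β r h t 0‖ := by
  have hr := rgR (a := 0) (τ1 := 0.7853) (τm := 1.0472) H.h1 H.h2 h1 h2 (by norm_num) (by norm_num) (by norm_num)
  rw [add_zero, ← H.hs] at hr
  obtain ⟨ha, hb⟩ := hr
  have hD := H.dom' (t' := t) (by linarith) (by linarith)
  have hk1 := B.hk1
  have hk2 := B.hk2
  have hk0 := H.k0
  have hy1 : 0.281 ≤ sy κ t := syR_ge hD 0.75 0.9 0.7853 0.281 1.32445 1.32446 0.41352 0.49624 hk1 hk2 (by linarith) (by norm_num) (by norm_num)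
    (expn_ge (by norm_num) (by norm_num)) (expn_le (by norm_num) (by norm_num) (by norm_num)) (by norm_num)
    (by norm_num) (by norm_num) (by norm_num) (by norm_num) (by norm_num) (by norm_num)
  have hy2 : sy κ t ≤ 0.375 := syR_le hD 0.75 0.9 1.0472 0.375 1.45499 0.586 0.60624 0.72751 hk1 hk2 (by linarith) (by norm_num) (by norm_num)
    (expn_ge (by norm_num) (by norm_num)) (by norm_num) (by norm_num) (Or.inr ((mul_le_mul_of_nonneg_left (expn_le (E := 1.455) (by norm_num) (by norm_num) (by norm_num)) (by norm_num)).trans (by norm_num))) (by norm_num) (by norm_num) (by norm_num)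
  have hX := H.x1up hD (ε := 0.06) (c := 0.3821) (d := 1.118) (U := 1.0309) (by norm_num) (JB6_k1b hD H.hβ H.hk1 H.hk2 (by linarith) (by linarith) H.ble H.bc')
    (VR_box6 hD 0.67 0.3821 0.75 0.49724 0.48 0.7853 1.0472 _ _ _ _ _ ha hb (by norm_num) B.hk1 B.hψ B.hψ1 (by norm_num) (by norm_num) (by norm_num) rfl rfl (by norm_num) rfl rfl rfl (by norm_num) (by norm_num))
    (by norm_num) (D_lo6 hD 0.75 0.9 0.281 0.375 0.281 0.75502 1.118 hk1 hk2 (by norm_num) hy1 hy2 (expm_ge (by norm_num) (by norm_num) (by norm_num) (by norm_num)) (by norm_num) (by norm_num) (by norm_num) (by norm_num) (by norm_num) (by norm_num)) (by norm_num) (by norm_num)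
  have e0 : s ^ 2 = (s + 0) ^ 2 := by ring
  rw [e0] at hX
  exact cmpT (eN_pos r κ) hX (x0lo3 H B (by linarith) (by linarith)) B.hT (by norm_num) (qD (a := 0) (s1 := 0.75) (q := 0.18148) (by norm_num) (by norm_num) h1 (by linarith) (by norm_num) (by norm_num)) (by norm_num)
    (expn 1 0.0995 (by norm_num) (by norm_num) (E := 0.33304) (by norm_num) (by norm_num)) (by norm_num) (by norm_num) (by norm_num)


theorem x2R3 (H : D6 β r t κ s h T) (B : BX6 0.75 0.9 0.49724 0.48 10 0.09 6.0586 β r κ T) (h1 : 0.75 ≤ s) (h2 : s ≤ 1) :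
    ‖Xf β r h (t) 2‖ ≤ (0.01778 + 0.006112) * ‖Xf β r h t 0‖ := by
  have hr := rgR (a := 1) (τ1 := 1.8325) (τm := 2.0944) H.h1 H.h2 h1 h2 (by norm_num) (by norm_num) (by norm_num)
  have e : s + ((2 : ℤ) : ℝ) - 1 = s + 1 := by push_cast; ring
  exact cellR (k := 2) (Y := ‖Xf β r h t 0‖) (g := 0.5351 * (s - 1) ^ 2) 0.38 0.2828 0.75 0.9 0.49724 0.48 1.8325 2.0944 _ _ _ _ _ 0.09823 2.5375 10 0.09 0.4607 0.3252 1.0305 0.9199 0.83263 6.0586 0.0064447 0.01778 1.09663 0.03345 0.793 0.9765 3.1623 0.0014871 0.006112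
    H.hβ H.hκ H.hs H.hT H.h0 H.hq2 (by norm_num) B.hk1 B.hk2 B.hψ B.hψ1 (by rw [e]; have h5 := hr.2; have h6 := B.hk1; have h7 := Real.pi_gt_d6; norm_num at h5 h6 h7 ⊢; linarith) (by rw [e]; exact hr.1) (by rw [e]; exact hr.2)
    B.hR B.hb B.hT (x0lo3 H B (by linarith) (by linarith)) (by positivity) (gD (by norm_num) (by linarith : 0.75 ≤ s) (by linarith) (by norm_num))
    (by rw [e]; exact qD (s1 := 0.75) (by norm_num) (by norm_num) h1 (by linarith) (by norm_num) (by norm_num))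
    (by norm_num) (by norm_num) (by norm_num) (by norm_num) rfl rfl (by norm_num) rfl rfl rfl (by norm_num) (by norm_num) (by norm_num) (by norm_num) (by norm_num) (by norm_num) (by norm_num) (by norm_num) (by norm_num) (by norm_num) (by norm_num) (by norm_num) (by norm_num) (by norm_num) (by norm_num) (by norm_num) (by norm_num) (by norm_num) (by norm_num)
    (expn 5 0.0445 (by norm_num) (by norm_num) (E := 0.0064447) (by norm_num) (by norm_num)) (by norm_num) (by norm_num) (by norm_num) (by norm_num) (by norm_num) (by norm_num) (by norm_num) (by norm_num)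
    (expn 6 0.5129 (by norm_num) (by norm_num) (E := 0.0014871) (by norm_num) (by norm_num)) (by norm_num) (by norm_num)


theorem outR3 (H : D6 β r t κ s h T) (B : BX6 0.75 0.9 0.49724 0.48 10 0.09 6.0586 β r κ T) (h1 : 0.75 ≤ s) (h2 : s ≤ 1) :
    oth6 β r h t + ‖Xf β r h t 1‖ < ‖Xf β r h t 0‖ := by
  have g1 := xm2R H B (by linarith) (by linarith)
  have g2 := xm1R1 H B (by linarith) (by linarith)
  have g3 := x1R3 H B h1 h2
  have g4 := x2R3 H B h1 h2
  have g5 := x3R H B (by linarith) (by linarith)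
  have hY := lt_of_lt_of_le (mul_pos (eN_pos r κ) (by positivity)) (x0lo3 H B h1 h2)
  unfold oth6
  norm_num at g1 g2 g3 g4 g5 ⊢
  linarith

end Sok.B6K3
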