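import Pool.Agent.Lib.MP_816dec_an.R1B6C
import Pool.Agent.Lib.MP_816dec_an.JB6a1
import Pool.Agent.Lib.MP_816dec_an.JB6a2
import Pool.Agent.Lib.MP_816dec_an.JB6b1
import Pool.Agent.Lib.MP_816dec_an.JB6b2
import Pool.Agent.Lib.MP_816dec_an.JB6b3
import Pool.Agent.Lib.MP_816dec_an.JB6e1
import Pool.Agent.Lib.MP_816dec_an.JB6e2

/-!
MP_816dec_an (A3, row R1-b6): box [0.9, 1] of kappa (generated).
-/

set_option autoImplicit false

open Complex Set Filter Topology Metric

namespace Sok.B6K4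

variable {β r t κ s h T : ℝ}

theorem k3 (B : BX6 0.9 1 0.5 0.49723 10 0.1 5.4831 β r κ T) : κ ^ 2 ≤ 3 := by
  have h1 := B.hk1
  have h2 := B.hk2
  norm_num at h1 h2
  nlinarith

theorem fq (B : BX6 0.9 1 0.5 0.49723 10 0.1 5.4831 β r κ T) : κ * (1 / 2 - κ ^ 2 / 6) ≤ 0.1815 * (1 + κ ^ 2) := by
  have hA : 0 ≤ κ - 0.9 := by have := B.hk1; linarith
  have hB : 0 ≤ 1 - κ := by have := B.hk2; linarith
  linarith [mul_nonneg (pow_nonneg hA 0) (pow_nonneg hB 3), mul_nonneg (pow_nonneg hA 1) (pow_nonneg hB 2), mul_nonneg (pow_nonneg hA 2) (pow_nonneg hB 1), mul_nonneg (pow_nonneg hA 3) (pow_nonneg hB 0)]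

theorem fg (B : BX6 0.9 1 0.5 0.49723 10 0.1 5.4831 β r κ T) : 0.0608 * (1 + κ ^ 2) ^ 2 + 9 / 2 * 0.1815 ^ 2 * 0.6075 ≤ κ * (1 / 2 - κ ^ 2 / 6) := by
  have hA : 0 ≤ κ - 0.9 := by have := B.hk1; linarith
  have hB : 0 ≤ 1 - κ := by have := B.hk2; linarith
  linarith [mul_nonneg (pow_nonneg hA 0) (pow_nonneg hB 4), mul_nonneg (pow_nonneg hA 1) (pow_nonneg hB 3), mul_nonneg (pow_nonneg hA 2) (pow_nonneg hB 2), mul_nonneg (pow_nonneg hA 3) (pow_nonneg hB 1), mul_nonneg (pow_nonneg hA 4) (pow_nonneg hB 0)]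

theorem fa1 (B : BX6 0.9 1 0.5 0.49723 10 0.1 5.4831 β r κ T) : κ * (1 / 2 - κ ^ 2 / 6) ≤ 0.1004 * (1 + κ ^ 2) ^ 2 := by
  have hA : 0 ≤ κ - 0.9 := by have := B.hk1; linarith
  have hB : 0 ≤ 1 - κ := by have := B.hk2; linarith
  linarith [mul_nonneg (pow_nonneg hA 0) (pow_nonneg hB 4), mul_nonneg (pow_nonneg hA 1) (pow_nonneg hB 3), mul_nonneg (pow_nonneg hA 2) (pow_nonneg hB 2), mul_nonneg (pow_nonneg hA 3) (pow_nonneg hB 1), mul_nonneg (pow_nonneg hA 4) (pow_nonneg hB 0)]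

theorem fa2 (B : BX6 0.9 1 0.5 0.49723 10 0.1 5.4831 β r κ T) : κ ^ 4 ≤ 0.1251 * (1 + κ ^ 2) ^ 3 := by
  have hA : 0 ≤ κ - 0.9 := by have := B.hk1; linarith
  have hB : 0 ≤ 1 - κ := by have := B.hk2; linarith
  linarith [mul_nonneg (pow_nonneg hA 0) (pow_nonneg hB 6), mul_nonneg (pow_nonneg hA 1) (pow_nonneg hB 5), mul_nonneg (pow_nonneg hA 2) (pow_nonneg hB 4), mul_nonneg (pow_nonneg hA 3) (pow_nonneg hB 3), mul_nonneg (pow_nonneg hA 4) (pow_nonneg hB 2), mul_nonneg (pow_nonneg hA 5) (pow_nonneg hB 1), mul_nonneg (pow_nonneg hA 6) (pow_nonneg hB 0)]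

theorem fa3 (B : BX6 0.9 1 0.5 0.49723 10 0.1 5.4831 β r κ T) : 1 ≤ 0.1687 * (1 + κ ^ 2) ^ 3 := by
  have hA : 0 ≤ κ - 0.9 := by have := B.hk1; linarith
  have hB : 0 ≤ 1 - κ := by have := B.hk2; linarith
  linarith [mul_nonneg (pow_nonneg hA 0) (pow_nonneg hB 6), mul_nonneg (pow_nonneg hA 1) (pow_nonneg hB 5), mul_nonneg (pow_nonneg hA 2) (pow_nonneg hB 4), mul_nonneg (pow_nonneg hA 3) (pow_nonneg hB 3), mul_nonneg (pow_nonneg hA 4) (pow_nonneg hB 2), mul_nonneg (pow_nonneg hA 5) (pow_nonneg hB 1), mul_nonneg (pow_nonneg hA 6) (pow_nonneg hB 0)]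

theorem fa4 (H : D6 β r t κ s h T) (B : BX6 0.9 1 0.5 0.49723 10 0.1 5.4831 β r κ T) : κ ≤ 0.5 * (1 + κ ^ 2) := by
  have h1 := B.hψ
  rwa [div_le_iff₀ H.A0] at h1

theorem mkB (H : D6 β r t κ s h T) (h1 : 0.9 ≤ κ) (h2 : κ ≤ 1) : BX6 0.9 1 0.5 0.49723 10 0.1 5.4831 β r κ T := by
  have hA : 0 ≤ κ - 0.9 := by linarith
  have hB : 0 ≤ 1 - κ := by linarith
  have hψ : κ / (1 + κ ^ 2) ≤ 0.5 := by
    rw [div_le_iff₀ H.A0]
    linarith [mul_nonneg (pow_nonneg hA 0) (pow_nonneg hB 2), mul_nonneg (pow_nonneg hA 1) (pow_nonneg hB 1), mul_nonneg (pow_nonneg hA 2) (pow_nonneg hB 0)]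
  have hψ1 : 0.49723 ≤ κ / (1 + κ ^ 2) := by
    rw [le_div_iff₀ H.A0]
    linarith [mul_nonneg (pow_nonneg hA 0) (pow_nonneg hB 2), mul_nonneg (pow_nonneg hA 1) (pow_nonneg hB 1), mul_nonneg (pow_nonneg hA 2) (pow_nonneg hB 0)]
  exact ⟨h1, h2, hψ, hψ1, H.hr, H.b0a h2 (by norm_num), H.T0a h2 (by norm_num) (by norm_num)⟩

theorem x1loG (H : D6 β r t κ s h T) (B : BX6 0.9 1 0.5 0.49723 10 0.1 5.4831 β r κ T) (h1 : 0 ≤ s) (h2 : s ≤ 0.45) :
    eN r κ * (0.9029 * Real.exp (-(T * (0.5 * s ^ 2)))) ≤ ‖Xf β r h t 1‖ := by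
  have hr := rgR (a := 0) (τ1 := 0) (τm := 0.4713) H.h1 H.h2 h1 h2 (by norm_num) (by norm_num) (by norm_num)
  rw [add_zero, ← H.hs] at hr
  obtain ⟨ha, hb⟩ := hr
  have hD := H.dom' (t' := t) (by linarith) (by linarith)
  have hk1 := B.hk1
  have hk2 := B.hk2
  have hk0 := H.k0
  have hy1 : 0 ≤ sy κ t := sy_nonneg hD (by linarith)
  have hy2 : sy κ t ≤ 0.208 := syR_le hD 0.9 1 0.4713 0.208 1.23121 0.2489 0.25609 0.28455 hk1 hk2 (by linarith) (by norm_num) (by norm_num)
    (expn_ge (by norm_num) (by norm_num)) (by norm_num) (by norm_num) (Or.inr ((mul_le_mul_of_nonneg_left (expn_le (E := 1.23122) (by norm_num) (by norm_num) (by norm_num)) (by norm_num)).trans (by norm_num))) (by norm_num) (by norm_num) (by norm_num)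
  exact H.x1lo hD (ε := 0.08) (c := 0.5) (d := 1.0776) (l := 0.9029) (by norm_num) (by
      rcases le_total (t + κ) 0.05 with g | g
      · exact JB6_k0a hD H.hβ H.hk1 H.hk2 (by linarith) (by linarith) H.ble H.bc'
      · exact (JB6_k1a hD H.hβ H.hk1 H.hk2 (by linarith) (by linarith) H.ble H.bc').trans (by norm_num))
    (V1lo6 hD 0.0608 0 0.6075 _ 0.1815 0.5 (by norm_num) ha (by linarith) (k3 B) rfl (fq B) (by norm_num) (fg B) (by norm_num))
    (D_up6 hD 0.9 1 0 0.208 1 0.81221 1.0776 hk1 hk2 (by norm_num) hy1 hy2 (by norm_num) (by simp) (expm_le (by norm_num) (by norm_num) (by norm_num)) (by norm_num) (by norm_num) (by norm_num) (by norm_num)) (by norm_num) (by norm_num)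


theorem xm1L (H : D6 β r t κ s h T) (B : BX6 0.9 1 0.5 0.49723 10 0.1 5.4831 β r κ T) (h1 : 0 ≤ s) (h2 : s ≤ 0.45) :
    ‖Xf β r h (t) (-1)‖ ≤ (0.00258 + 0.000366) * ‖Xf β r h t 1‖ := by
  have hr := rgL (a := (-2)) (b1 := 1.6231) (b2 := 2.0944) H.h1 H.h2 h1 h2 (by norm_num) (by norm_num) (by norm_num)
  have e : s + ((-1 : ℤ) : ℝ) - 1 = s + (-2) := by push_cast; ring
  exact cellL (k := -1) (Y := ‖Xf β r h t 1‖) (g := 0.5 * s ^ 2) 0.95 0.5178 0.9 1 0.5 0.49723 1.6231 2.0944 _ _ _ _ _ 2.01463 1.2226 10 0.1 0.4206 0 1.0439 0.9029 1.14276 5.4831 0.0019006 0.00258 1.09663 0.10126 0.7592 0.9386 3.1623 0.000083956 0.000366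
    H.hβ H.hκ H.hs H.hT H.h0 H.hq2 (by norm_num) B.hk1 B.hk2 B.hψ B.hψ1 (by rw [e]; exact hr.1) (by rw [e]; exact hr.2)
    B.hR B.hb B.hT (x1loG H B (by linarith) (by linarith)) (by positivity) (gA (by norm_num) (by linarith) (by linarith : s ≤ 0.45) (by norm_num))
    (by rw [e]; exact qA (s2 := 0.45) (by norm_num) (by norm_num) (by linarith) h2 (by norm_num) (by norm_num))
    (by norm_num) (by norm_num) (by norm_num) (by norm_num) rfl rfl (by norm_num) rfl rfl rfl (by norm_num) (by norm_num) (by norm_num) (by norm_num) (by norm_num) (by norm_num) (by norm_num) (by norm_num) (by norm_num) (by norm_num) (by norm_num) (by norm_num) (by norm_num) (by norm_num) (by norm_num) (by norm_num) (by norm_num) (by norm_num)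
    (expn 6 0.2658 (by norm_num) (by norm_num) (E := 0.0019006) (by norm_num) (by norm_num)) (by norm_num) (by norm_num) (by norm_num) (by norm_num) (by norm_num) (by norm_num) (by norm_num) (by norm_num)
    (expn 9 0.3859 (by norm_num) (by norm_num) (E := 0.000083956) (by norm_num) (by norm_num)) (by norm_num) (by norm_num)


theorem xm2L (H : D6 β r t κ s h T) (B : BX6 0.9 1 0.5 0.49723 10 0.1 5.4831 β r κ T) (h1 : 0 ≤ s) (h2 : s ≤ 0.45) :
    ‖Xf β r h (t) (-2)‖ ≤ (0.00001 + 0.000338) * ‖Xf β r h t 1‖ := by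
  have hr := rgL (a := (-3)) (b1 := 2.6703) (b2 := 3.1416) H.h1 H.h2 h1 h2 (by norm_num) (by norm_num) (by norm_num)
  have e : s + ((-2 : ℤ) : ℝ) - 1 = s + (-3) := by push_cast; ring
  exact cellL (k := -2) (Y := ‖Xf β r h t 1‖) (g := 0.5 * s ^ 2) 0.44 0.3505 0.9 1 0.5 0.49723 2.6703 3.1416 _ _ _ _ _ 1.83164 1.252 10 0.1 0.4206 0 0.9639 0.9029 2.17787 5.4831 0.0000066183 0.00001 1.09663 0.10126 0.7592 0.9386 3.1623 0.000083956 0.000338
    H.hβ H.hκ H.hs H.hT H.h0 H.hq2 (by norm_num) B.hk1 B.hk2 B.hψ B.hψ1 (by rw [e]; exact hr.1) (by rw [e]; exact hr.2)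
    B.hR B.hb B.hT (x1loG H B (by linarith) (by linarith)) (by positivity) (gA (by norm_num) (by linarith) (by linarith : s ≤ 0.45) (by norm_num))
    (by rw [e]; exact qA (s2 := 0.45) (by norm_num) (by norm_num) (by linarith) h2 (by norm_num) (by norm_num))
    (by norm_num) (by norm_num) (by norm_num) (by norm_num) rfl rfl (by norm_num) rfl rfl rfl (by norm_num) (by norm_num) (by norm_num) (by norm_num) (by norm_num) (by norm_num) (by norm_num) (by norm_num) (by norm_num) (by norm_num) (by norm_num) (by norm_num) (by norm_num) (by norm_num) (by norm_num) (by norm_num) (by norm_num) (by norm_num)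
    (expn 11 0.9414 (by norm_num) (by norm_num) (E := 0.0000066183) (by norm_num) (by norm_num)) (by norm_num) (by norm_num) (by norm_num) (by norm_num) (by norm_num) (by norm_num) (by norm_num) (by norm_num)
    (expn 9 0.3859 (by norm_num) (by norm_num) (E := 0.000083956) (by norm_num) (by norm_num)) (by norm_num) (by norm_num)


theorem x1lo0 (H : D6 β r t κ s h T) (B : BX6 0.9 1 0.5 0.49723 10 0.1 5.4831 β r κ T) (h1 : 0 ≤ s) (h2 : s ≤ 0.25) :
    eN r κ * (0.9113 * Real.exp (-(T * (0.5 * s ^ 2)))) ≤ ‖Xf β r h t 1‖ := by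
  have hr := rgR (a := 0) (τ1 := 0) (τm := 0.2618) H.h1 H.h2 h1 h2 (by norm_num) (by norm_num) (by norm_num)
  rw [add_zero, ← H.hs] at hr
  obtain ⟨ha, hb⟩ := hr
  have hD := H.dom' (t' := t) (by linarith) (by linarith)
  have hk1 := B.hk1
  have hk2 := B.hk2
  have hk0 := H.k0
  have hy1 : 0 ≤ sy κ t := sy_nonneg hD (by linarith)
  have hy2 : sy κ t ≤ 0.123 := syR_le hD 0.9 1 0.2618 0.123 1.13088 0.1352 0.13909 0.15456 hk1 hk2 (by linarith) (by norm_num) (by norm_num)
    (expn_ge (by norm_num) (by norm_num)) (by norm_num) (by norm_num) (Or.inr ((mul_le_mul_of_nonneg_left (expn_le (E := 1.13089) (by norm_num) (by norm_num) (by norm_num)) (by norm_num)).trans (by norm_num))) (by norm_num) (by norm_num) (by norm_num)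
  exact H.x1lo hD (ε := 0.08) (c := 0.5) (d := 1.0384) (l := 0.9113) (by norm_num) (by
      rcases le_total (t + κ) 0.05 with g | g
      · exact JB6_k0a hD H.hβ H.hk1 H.hk2 (by linarith) (by linarith) H.ble H.bc'
      · exact (JB6_k1a hD H.hβ H.hk1 H.hk2 (by linarith) (by linarith) H.ble H.bc').trans (by norm_num))
    (V1lo6 hD 0.0608 0 0.6075 _ 0.1815 0.5 (by norm_num) ha (by linarith) (k3 B) rfl (fq B) (by norm_num) (fg B) (by norm_num))
    (D_up6 hD 0.9 1 0 0.123 1 0.88427 1.0384 hk1 hk2 (by norm_num) hy1 hy2 (by norm_num) (by simp) (expm_le (by norm_num) (by norm_num) (by norm_num)) (by norm_num) (by norm_num) (by norm_num) (by norm_num)) (by norm_num) (by norm_num)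


theorem x0L0 (H : D6 β r t κ s h T) (B : BX6 0.9 1 0.5 0.49723 10 0.1 5.4831 β r κ T) (h1 : 0 ≤ s) (h2 : s ≤ 0.25) :
    ‖Xf β r h (t) 0‖ ≤ (0.33775 + 0.000197) * ‖Xf β r h t 1‖ := by
  have hr := rgL (a := (-1)) (b1 := 0.7853) (b2 := 1.0472) H.h1 H.h2 h1 h2 (by norm_num) (by norm_num) (by norm_num)
  have e : s + ((0 : ℤ) : ℝ) - 1 = s + (-1) := by push_cast; ring
  exact cellL (k := 0) (Y := ‖Xf β r h t 1‖) (g := 0.5 * s ^ 2) 1.1 0.5286 0.9 1 0.5 0.49723 0.7853 1.0472 _ _ _ _ _ 1.47296 1.3221 10 0.1 0.4206 0 0.8575 0.9113 0.26608 5.4831 0.2328 0.33775 1.09663 0.03126 0.7663 0.981 3.1623 0.00005543 0.000197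
    H.hβ H.hκ H.hs H.hT H.h0 H.hq2 (by norm_num) B.hk1 B.hk2 B.hψ B.hψ1 (by rw [e]; exact hr.1) (by rw [e]; exact hr.2)
    B.hR B.hb B.hT (x1lo0 H B (by linarith) (by linarith)) (by positivity) (gA (by norm_num) (by linarith) (by linarith : s ≤ 0.25) (by norm_num))
    (by rw [e]; exact qA (s2 := 0.25) (by norm_num) (by norm_num) (by linarith) h2 (by norm_num) (by norm_num))
    (by norm_num) (by norm_num) (by norm_num) (by norm_num) rfl rfl (by norm_num) rfl rfl rfl (by norm_num) (by norm_num) (by norm_num) (by norm_num) (by norm_num) (by norm_num) (by norm_num) (by norm_num) (by norm_num) (by norm_num) (by norm_num) (by norm_num) (by norm_num) (by norm_num) (by norm_num) (by norm_num) (by norm_num) (by norm_num)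
    (expn 1 0.4589 (by norm_num) (by norm_num) (E := 0.2328) (by norm_num) (by norm_num)) (by norm_num) (by norm_num) (by norm_num) (by norm_num) (by norm_num) (by norm_num) (by norm_num) (by norm_num)
    (expn 9 0.8099 (by norm_num) (by norm_num) (E := 0.00005543) (by norm_num) (by norm_num)) (by norm_num) (by norm_num)


theorem x2L0 (H : D6 β r t κ s h T) (B : BX6 0.9 1 0.5 0.49723 10 0.1 5.4831 β r κ T) (h1 : 0 ≤ s) (h2 : s ≤ 0.25) :
    ‖Xf β r h (t) 2‖ ≤ (0.32846 + 0.035259) * ‖Xf β r h t 1‖ := by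
  have hr := rgR (a := 1) (τ1 := 1.0471) (τm := 1.309) H.h1 H.h2 h1 h2 (by norm_num) (by norm_num) (by norm_num)
  have e : s + ((2 : ℤ) : ℝ) - 1 = s + 1 := by push_cast; ring
  exact cellR (k := 2) (Y := ‖Xf β r h t 1‖) (g := 0.5 * s ^ 2) 0.47 0.3395 0.9 1 0.5 0.49723 1.0471 1.309 _ _ _ _ _ 0.34314 1.903 10 0.1 0.4206 0.518 0.8723 0.9113 0.33949 5.4831 0.15729 0.32846 1.09663 0.03126 0.7663 0.981 3.1623 0.0097948 0.035259
    H.hβ H.hκ H.hs H.hT H.h0 H.hq2 (by norm_num) B.hk1 B.hk2 B.hψ B.hψ1 (by rw [e]; have h5 := hr.2; have h6 := B.hk1; have h7 := Real.pi_gt_d6; norm_num at h5 h6 h7 ⊢; linarith) (by rw [e]; exact hr.1) (by rw [e]; exact hr.2)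
    B.hR B.hb B.hT (x1lo0 H B (by linarith) (by linarith)) (by positivity) (gA (by norm_num) (by linarith) (by linarith : s ≤ 0.25) (by norm_num))
    (by rw [e]; exact qB (s1 := 0) (s2 := 0.25) (by norm_num) (by norm_num) h1 h2 (le_refl _) (by norm_num) (by norm_num) (by norm_num))
    (by norm_num) (by norm_num) (by norm_num) (by norm_num) rfl rfl (by norm_num) rfl rfl rfl (by norm_num) (by norm_num) (by norm_num) (by norm_num) (by norm_num) (by norm_num) (by norm_num) (by norm_num) (by norm_num) (by norm_num) (by norm_num) (by norm_num) (by norm_num) (by norm_num) (by norm_num) (by norm_num) (by norm_num) (by norm_num) (by norm_num)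
    (expn 1 0.8614 (by norm_num) (by norm_num) (E := 0.15729) (by norm_num) (by norm_num)) (by norm_num) (by norm_num) (by norm_num) (by norm_num) (by norm_num) (by norm_num) (by norm_num) (by norm_num)
    (expn 4 0.6299 (by norm_num) (by norm_num) (E := 0.0097948) (by norm_num) (by norm_num)) (by norm_num) (by norm_num)


theorem x3L0 (H : D6 β r t κ s h T) (B : BX6 0.9 1 0.5 0.49723 10 0.1 5.4831 β r κ T) (h1 : 0 ≤ s) (h2 : s ≤ 0.25) :
    ‖Xf β r h (t) 3‖ ≤ 0.09255 * ‖Xf β r h t 1‖ := by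
  have hr := rgR (a := 2) (τ1 := 2.0943) (τm := 2.3562) H.h1 H.h2 h1 h2 (by norm_num) (by norm_num) (by norm_num)
  have e : (s + ((3 : ℤ) : ℝ) - 1) * h + 2 * Real.pi * ((0 : ℤ) : ℝ) = (s + 2) * h := by push_cast; ring
  exact cellU (k := 3) (Y := ‖Xf β r h t 1‖) (g := 0.5 * s ^ 2) 0 0.9 1 1.0942 2.3562 0.52 10 0.1 0.4206 0.52 2.2453 0.9113 1.09663 0.03126 0.7663 0.981 3.1623 0.0099884 0.09255
    H.hβ H.hκ H.hs H.hT H.h0 H.hq2 (by norm_num) B.hk1 B.hk2 (by rw [e]; linarith [hr.1, B.hk2]) (by rw [e]; exact hr.2)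
    B.hR B.hb (x1lo0 H B (by linarith) (by linarith)) (by positivity) (gA (by norm_num) (by linarith) (by linarith : s ≤ 0.25) (by norm_num))
    (by norm_num) (by norm_num) (by norm_num) (by norm_num) (by norm_num) (by norm_num) (by norm_num) (by norm_num) (by norm_num) (by norm_num) (by norm_num) (by norm_num) (by norm_num) (by norm_num) (by norm_num) (by norm_num) (by norm_num) (by norm_num) (by norm_num) 
    (expn 4 0.6099 (by norm_num) (by norm_num) (E := 0.0099884) (by norm_num) (by norm_num)) (by norm_num) (by norm_num)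


theorem outL0 (H : D6 β r t κ s h T) (B : BX6 0.9 1 0.5 0.49723 10 0.1 5.4831 β r κ T) (h1 : 0 ≤ s) (h2 : s ≤ 0.25) :
    oth6 β r h t + ‖Xf β r h t 0‖ < ‖Xf β r h t 1‖ := by
  have g1 := xm2L H B (by linarith) (by linarith)
  have g2 := xm1L H B (by linarith) (by linarith)
  have g3 := x0L0 H B h1 h2
  have g4 := x2L0 H B h1 h2
  have g5 := x3L0 H B h1 h2
  have hY := lt_of_lt_of_le (mul_pos (eN_pos r κ) (by positivity)) (x1lo0 H B h1 h2)
  unfold oth6
  norm_num at g1 g2 g3 g4 g5 ⊢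
  linarith

theorem x1lo1 (H : D6 β r t κ s h T) (B : BX6 0.9 1 0.5 0.49723 10 0.1 5.4831 β r κ T) (h1 : 0.25 ≤ s) (h2 : s ≤ 0.35) :
    eN r κ * (0.9418 * Real.exp (-(T * (0.4841 * s ^ 2)))) ≤ ‖Xf β r h t 1‖ := by
  have hr := rgR (a := 0) (τ1 := 0.2617) (τm := 0.3666) H.h1 H.h2 h1 h2 (by norm_num) (by norm_num) (by norm_num)
  rw [add_zero, ← H.hs] at hr
  obtain ⟨ha, hb⟩ := hr
  have hD := H.dom' (t' := t) (by linarith) (by linarith)
  have hk1 := B.hk1
  have hk2 := B.hk2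
  have hk0 := H.k0
  have hy1 : 0.119 ≤ sy κ t := syR_ge hD 0.9 1 0.2617 0.119 1.12636 1.12637 0.13403 0.14894 hk1 hk2 (by linarith) (by norm_num) (by norm_num)
    (expn_ge (by norm_num) (by norm_num)) (expn_le (by norm_num) (by norm_num) (by norm_num)) (by norm_num)
    (by norm_num) (by norm_num) (by norm_num) (by norm_num) (by norm_num) (by norm_num)
  have hy2 : sy κ t ≤ 0.166 := syR_le hD 0.9 1 0.3666 0.166 1.18057 0.1959 0.19597 0.21776 hk1 hk2 (by linarith) (by norm_num) (by norm_num)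
    (expn_ge (by norm_num) (by norm_num)) (by norm_num) (by norm_num) (Or.inr ((mul_le_mul_of_nonneg_left (expn_le (E := 1.18058) (by norm_num) (by norm_num) (by norm_num)) (by norm_num)).trans (by norm_num))) (by norm_num) (by norm_num) (by norm_num)
  exact H.x1lo hD (ε := 0.045) (c := 0.4841) (d := 1.0571) (l := 0.9418) (by norm_num) (JB6_k1a hD H.hβ H.hk1 H.hk2 (by linarith) (by linarith) H.ble H.bc')
    (V1lo6 hD 0.0608 0.2617 0.6075 _ 0.1815 0.4841 (by norm_num) ha (by linarith) (k3 B) rfl (fq B) (by norm_num) (fg B) (by norm_num))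
    (D_up6 hD 0.9 1 0.119 0.166 0.88781 0.84705 1.0571 hk1 hk2 (by norm_num) hy1 hy2 (by norm_num) (expm_le (by norm_num) (by norm_num) (by norm_num)) (expm_le (by norm_num) (by norm_num) (by norm_num)) (by norm_num) (by norm_num) (by norm_num) (by norm_num)) (by norm_num) (by norm_num)


theorem x0L1 (H : D6 β r t κ s h T) (B : BX6 0.9 1 0.5 0.49723 10 0.1 5.4831 β r κ T) (h1 : 0.25 ≤ s) (h2 : s ≤ 0.35) :
    ‖Xf β r h t 0‖ ≤ 0.52146 * ‖Xf β r h t 1‖ := by
  have hr := rgL (a := (-1)) (b1 := 0.6806) (b2 := 0.7854) H.h1 H.h2 h1 h2 (by norm_num) (by norm_num) (by norm_num)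
  have e : (s + -1) * h = (t - h) + κ := by rw [H.a0]; ring
  rw [e] at hr
  obtain ⟨ha, hb⟩ := hr
  have hD := H.dom' (t' := t - h) (by linarith) (by linarith)
  have hk1 := B.hk1
  have hk2 := B.hk2
  have hk0 := H.k0
  have hy1 : -0.466 ≤ sy κ (t - h) := syL_ge hD 0.9 1 0.7854 0.466 0.6275 0.62751 0.3113 0.29241 0.32492 hk1 hk2 (by linarith) (by norm_num) (by norm_num) (by norm_num)
    (expm_ge (by norm_num) (by norm_num) (by norm_num) (by norm_num)) (expm_le (by norm_num) (by norm_num) (by norm_num)) (by norm_num)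
    (by norm_num) (by norm_num) (by norm_num) (by norm_num) (by norm_num) (by norm_num)
  have hy2 : sy κ (t - h) ≤ -0.383 := syL_le hD 0.9 1 0.6806 0.383 0.68181 0.68182 0.26113 0.29016 hk1 hk2 (by linarith) (by norm_num) (by norm_num) (by norm_num)
    (expm_ge (by norm_num) (by norm_num) (by norm_num) (by norm_num)) (expm_le (by norm_num) (by norm_num) (by norm_num)) (by norm_num)
    (by norm_num) (by norm_num) (by norm_num) (by norm_num) (by norm_num) (by norm_num)
  have hX := H.x0up hD (ε := 0.2) (c := 0.5221) (d := 1.0919) (U := 1.174) (by norm_num) (JB6_k0c hD H.hβ H.hk1 H.hk2 (by linarith) (by linarith) H.ble H.bc')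
    (VL_box hD 1.05 0.5221 0.9 1 0.5 0.6806 0.7854 _ _ _ _ ha hb hk1 hk2 B.hψ (by norm_num) (by norm_num) (by norm_num) rfl rfl (by norm_num) rfl rfl (by norm_num) (by norm_num) (by norm_num))
    (by norm_num) (D_lo6 hD 0.9 1 (-0.466) (-0.383) (-0.383) 1.46667 1.0919 hk1 hk2 (by norm_num) hy1 hy2 (by rw [neg_neg]; exact expn_ge (by norm_num) (by norm_num)) (by norm_num) (by norm_num) (by norm_num) (by norm_num) (by norm_num) (by norm_num)) (by norm_num) (by norm_num)
  exact cmpT (eN_pos r κ) hX (x1lo1 H B (by linarith) (by linarith)) B.hT (by norm_num) (qA (a := -1) (s2 := 0.35) (q := 0.16128) (by norm_num) (by norm_num) (by linarith) h2 (by norm_num) (by norm_num)) (by norm_num)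
    (expn 0 0.8843 (by norm_num) (by norm_num) (E := 0.41832) (by norm_num) (by norm_num)) (by norm_num) (by norm_num) (by norm_num)


theorem x2L1 (H : D6 β r t κ s h T) (B : BX6 0.9 1 0.5 0.49723 10 0.1 5.4831 β r κ T) (h1 : 0.25 ≤ s) (h2 : s ≤ 0.35) :
    ‖Xf β r h (t) 2‖ ≤ (0.13674 + 0.023863) * ‖Xf β r h t 1‖ := by
  have hr := rgR (a := 1) (τ1 := 1.3089) (τm := 1.4138) H.h1 H.h2 h1 h2 (by norm_num) (by norm_num) (by norm_num)
  have e : s + ((2 : ℤ) : ℝ) - 1 = s + 1 := by push_cast; ring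
  exact cellR (k := 2) (Y := ‖Xf β r h t 1‖) (g := 0.4841 * s ^ 2) 0.47 0.3378 0.9 1 0.5 0.49723 1.3089 1.4138 _ _ _ _ _ 0.30633 1.9578 10 0.1 0.4206 0.4633 0.893 0.9418 0.49755 5.4831 0.065777 0.13674 1.09663 0.05931 0.7919 0.964 3.1623 0.0066917 0.023863
    H.hβ H.hκ H.hs H.hT H.h0 H.hq2 (by norm_num) B.hk1 B.hk2 B.hψ B.hψ1 (by rw [e]; have h5 := hr.2; have h6 := B.hk1; have h7 := Real.pi_gt_d6; norm_num at h5 h6 h7 ⊢; linarith) (by rw [e]; exact hr.1) (by rw [e]; exact hr.2)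
    B.hR B.hb B.hT (x1lo1 H B (by linarith) (by linarith)) (by positivity) (gA (by norm_num) (by linarith) (by linarith : s ≤ 0.35) (by norm_num))
    (by rw [e]; exact qB (s1 := 0.25) (s2 := 0.35) (by norm_num) (by norm_num) h1 h2 (le_refl _) (by norm_num) (by norm_num) (by norm_num))
    (by norm_num) (by norm_num) (by norm_num) (by norm_num) rfl rfl (by norm_num) rfl rfl rfl (by norm_num) (by norm_num) (by norm_num) (by norm_num) (by norm_num) (by norm_num) (by norm_num) (by norm_num) (by norm_num) (by norm_num) (by norm_num) (by norm_num) (by norm_num) (by norm_num) (by norm_num) (by norm_num) (by norm_num) (by norm_num) (by norm_num)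
    (expn 2 0.7281 (by norm_num) (by norm_num) (E := 0.065777) (by norm_num) (by norm_num)) (by norm_num) (by norm_num) (by norm_num) (by norm_num) (by norm_num) (by norm_num) (by norm_num) (by norm_num)
    (expn 5 0.0069 (by norm_num) (by norm_num) (E := 0.0066917) (by norm_num) (by norm_num)) (by norm_num) (by norm_num)


theorem x3L1 (H : D6 β r t κ s h T) (B : BX6 0.9 1 0.5 0.49723 10 0.1 5.4831 β r κ T) (h1 : 0.25 ≤ s) (h2 : s ≤ 0.35) :
    ‖Xf β r h (t) 3‖ ≤ 0.007339 * ‖Xf β r h t 1‖ := by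
  have hr := rgR (a := 2) (τ1 := 2.3561) (τm := 2.461) H.h1 H.h2 h1 h2 (by norm_num) (by norm_num) (by norm_num)
  have e : (s + ((3 : ℤ) : ℝ) - 1) * h + 2 * Real.pi * ((0 : ℤ) : ℝ) = (s + 2) * h := by push_cast; ring
  exact cellU (k := 3) (Y := ‖Xf β r h t 1‖) (g := 0.4841 * s ^ 2) 0 0.9 1 1.356 2.461 0.26 10 0.1 0.4206 0.26 2.0974 0.9418 1.09663 0.05931 0.7919 0.964 3.1623 0.00087622 0.007339
    H.hβ H.hκ H.hs H.hT H.h0 H.hq2 (by norm_num) B.hk1 B.hk2 (by rw [e]; linarith [hr.1, B.hk2]) (by rw [e]; exact hr.2)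
    B.hR B.hb (x1lo1 H B (by linarith) (by linarith)) (by positivity) (gA (by norm_num) (by linarith) (by linarith : s ≤ 0.35) (by norm_num))
    (by norm_num) (by norm_num) (by norm_num) (by norm_num) (by norm_num) (by norm_num) (by norm_num) (by norm_num) (by norm_num) (by norm_num) (by norm_num) (by norm_num) (by norm_num) (by norm_num) (by norm_num) (by norm_num) (by norm_num) (by norm_num) (by norm_num) 
    (expn 7 0.0399 (by norm_num) (by norm_num) (E := 0.00087622) (by norm_num) (by norm_num)) (by norm_num) (by norm_num)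


theorem outL1 (H : D6 β r t κ s h T) (B : BX6 0.9 1 0.5 0.49723 10 0.1 5.4831 β r κ T) (h1 : 0.25 ≤ s) (h2 : s ≤ 0.35) :
    oth6 β r h t + ‖Xf β r h t 0‖ < ‖Xf β r h t 1‖ := by
  have g1 := xm2L H B (by linarith) (by linarith)
  have g2 := xm1L H B (by linarith) (by linarith)
  have g3 := x0L1 H B h1 h2
  have g4 := x2L1 H B h1 h2
  have g5 := x3L1 H B h1 h2
  have hY := lt_of_lt_of_le (mul_pos (eN_pos r κ) (by positivity)) (x1lo1 H B h1 h2)
  unfold oth6
  norm_num at g1 g2 g3 g4 g5 ⊢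
  linarith

theorem x1lo2 (H : D6 β r t κ s h T) (B : BX6 0.9 1 0.5 0.49723 10 0.1 5.4831 β r κ T) (h1 : 0.35 ≤ s) (h2 : s ≤ 0.43) :
    eN r κ * (0.9382 * Real.exp (-(T * (0.4778 * s ^ 2)))) ≤ ‖Xf β r h t 1‖ := by
  have hr := rgR (a := 0) (τ1 := 0.3665) (τm := 0.4503) H.h1 H.h2 h1 h2 (by norm_num) (by norm_num) (by norm_num)
  rw [add_zero, ← H.hs] at hr
  obtain ⟨ha, hb⟩ := hr
  have hD := H.dom' (t' := t) (by linarith) (by linarith)
  have hk1 := B.hk1
  have hk2 := B.hk2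
  have hk0 := H.k0
  have hy1 : 0.162 ≤ sy κ t := syR_ge hD 0.9 1 0.3665 0.162 1.17586 1.17587 0.19048 0.21166 hk1 hk2 (by linarith) (by norm_num) (by norm_num)
    (expn_ge (by norm_num) (by norm_num)) (expn_le (by norm_num) (by norm_num) (by norm_num)) (by norm_num)
    (by norm_num) (by norm_num) (by norm_num) (by norm_num) (by norm_num) (by norm_num)
  have hy2 : sy κ t ≤ 0.2 := syR_le hD 0.9 1 0.4503 0.2 1.2214 0.2374 0.24427 0.27143 hk1 hk2 (by linarith) (by norm_num) (by norm_num)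
    (expn_ge (by norm_num) (by norm_num)) (by norm_num) (by norm_num) (Or.inr ((mul_le_mul_of_nonneg_left (expn_le (E := 1.22141) (by norm_num) (by norm_num) (by norm_num)) (by norm_num)).trans (by norm_num))) (by norm_num) (by norm_num) (by norm_num)
  exact H.x1lo hD (ε := 0.045) (c := 0.4778) (d := 1.0735) (l := 0.9382) (by norm_num) (JB6_k1a hD H.hβ H.hk1 H.hk2 (by linarith) (by linarith) H.ble H.bc')
    (V1lo6 hD 0.0608 0.3665 0.6075 _ 0.1815 0.4778 (by norm_num) ha (by linarith) (k3 B) rfl (fq B) (by norm_num) (fg B) (by norm_num))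
    (D_up6 hD 0.9 1 0.162 0.2 0.85045 0.81874 1.0735 hk1 hk2 (by norm_num) hy1 hy2 (by norm_num) (expm_le (by norm_num) (by norm_num) (by norm_num)) (expm_le (by norm_num) (by norm_num) (by norm_num)) (by norm_num) (by norm_num) (by norm_num) (by norm_num)) (by norm_num) (by norm_num)


theorem x0L2 (H : D6 β r t κ s h T) (B : BX6 0.9 1 0.5 0.49723 10 0.1 5.4831 β r κ T) (h1 : 0.35 ≤ s) (h2 : s ≤ 0.43) :
    ‖Xf β r h t 0‖ ≤ 0.77146 * ‖Xf β r h t 1‖ := by
  have hr := rgL (a := (-1)) (b1 := 0.5969) (b2 := 0.6807) H.h1 H.h2 h1 h2 (by norm_num) (by norm_num) (by norm_num)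
  have e : (s + -1) * h = (t - h) + κ := by rw [H.a0]; ring
  rw [e] at hr
  obtain ⟨ha, hb⟩ := hr
  have hD := H.dom' (t' := t - h) (by linarith) (by linarith)
  have hk1 := B.hk1
  have hk2 := B.hk2
  have hk0 := H.k0
  have hy1 : -0.399 ≤ sy κ (t - h) := syL_ge hD 0.9 1 0.6807 0.399 0.67099 0.671 0.2801 0.26772 0.29748 hk1 hk2 (by linarith) (by norm_num) (by norm_num) (by norm_num)
    (expm_ge (by norm_num) (by norm_num) (by norm_num) (by norm_num)) (expm_le (by norm_num) (by norm_num) (by norm_num)) (by norm_num)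
    (by norm_num) (by norm_num) (by norm_num) (by norm_num) (by norm_num) (by norm_num)
  have hy2 : sy κ (t - h) ≤ -0.333 := syL_le hD 0.9 1 0.5969 0.333 0.71677 0.71678 0.23868 0.26521 hk1 hk2 (by linarith) (by norm_num) (by norm_num) (by norm_num)
    (expm_ge (by norm_num) (by norm_num) (by norm_num) (by norm_num)) (expm_le (by norm_num) (by norm_num) (by norm_num)) (by norm_num)
    (by norm_num) (by norm_num) (by norm_num) (by norm_num) (by norm_num) (by norm_num)
  have hX := H.x0up hD (ε := 0.144) (c := 0.522) (d := 1.0555) (U := 1.1287) (by norm_num) (JB6_k0f hD H.hβ H.hk1 H.hk2 (by linarith) (by linarith) H.ble H.bc')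
    (VL_box hD 1.05 0.522 0.9 1 0.5 0.5969 0.6807 _ _ _ _ ha hb hk1 hk2 B.hψ (by norm_num) (by norm_num) (by norm_num) rfl rfl (by norm_num) rfl rfl (by norm_num) (by norm_num) (by norm_num))
    (by norm_num) (D_lo6 hD 0.9 1 (-0.399) (-0.333) (-0.333) 1.39514 1.0555 hk1 hk2 (by norm_num) hy1 hy2 (by rw [neg_neg]; exact expn_ge (by norm_num) (by norm_num)) (by norm_num) (by norm_num) (by norm_num) (by norm_num) (by norm_num) (by norm_num)) (by norm_num) (by norm_num)
  exact cmpT (eN_pos r κ) hX (x1lo2 H B (by linarith) (by linarith)) B.hT (by norm_num) (qA (a := -1) (s2 := 0.43) (q := 0.08125) (by norm_num) (by norm_num) (by linarith) h2 (by norm_num) (by norm_num)) (by norm_num)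
    (expn 0 0.4455 (by norm_num) (by norm_num) (E := 0.64125) (by norm_num) (by norm_num)) (by norm_num) (by norm_num) (by norm_num)


theorem x2L2 (H : D6 β r t κ s h T) (B : BX6 0.9 1 0.5 0.49723 10 0.1 5.4831 β r κ T) (h1 : 0.35 ≤ s) (h2 : s ≤ 0.43) :
    ‖Xf β r h (t) 2‖ ≤ (0.10284 + 0.025905) * ‖Xf β r h t 1‖ := by
  have hr := rgR (a := 1) (τ1 := 1.4137) (τm := 1.4975) H.h1 H.h2 h1 h2 (by norm_num) (by norm_num) (by norm_num)
  have e : s + ((2 : ℤ) : ℝ) - 1 = s + 1 := by push_cast; ring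
  exact cellR (k := 2) (Y := ‖Xf β r h t 1‖) (g := 0.4778 * s ^ 2) 0.47 0.3359 0.9 1 0.5 0.49723 1.4137 1.4975 _ _ _ _ _ 0.27678 2.0081 10 0.1 0.4206 0.45 0.9095 0.9382 0.55364 5.4831 0.048046 0.10284 1.09663 0.08835 0.7889 0.9464 3.1623 0.0071054 0.025905
    H.hβ H.hκ H.hs H.hT H.h0 H.hq2 (by norm_num) B.hk1 B.hk2 B.hψ B.hψ1 (by rw [e]; have h5 := hr.2; have h6 := B.hk1; have h7 := Real.pi_gt_d6; norm_num at h5 h6 h7 ⊢; linarith) (by rw [e]; exact hr.1) (by rw [e]; exact hr.2)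
    B.hR B.hb B.hT (x1lo2 H B (by linarith) (by linarith)) (by positivity) (gA (by norm_num) (by linarith) (by linarith : s ≤ 0.43) (by norm_num))
    (by rw [e]; exact qB (s1 := 0.35) (s2 := 0.43) (by norm_num) (by norm_num) h1 h2 (le_refl _) (by norm_num) (by norm_num) (by norm_num))
    (by norm_num) (by norm_num) (by norm_num) (by norm_num) rfl rfl (by norm_num) rfl rfl rfl (by norm_num) (by norm_num) (by norm_num) (by norm_num) (by norm_num) (by norm_num) (by norm_num) (by norm_num) (by norm_num) (by norm_num) (by norm_num) (by norm_num) (by norm_num) (by norm_num) (by norm_num) (by norm_num) (by norm_num) (by norm_num) (by norm_num)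
    (expn 3 0.0356 (by norm_num) (by norm_num) (E := 0.048046) (by norm_num) (by norm_num)) (by norm_num) (by norm_num) (by norm_num) (by norm_num) (by norm_num) (by norm_num) (by norm_num) (by norm_num)
    (expn 4 0.9639 (by norm_num) (by norm_num) (E := 0.0071054) (by norm_num) (by norm_num)) (by norm_num) (by norm_num)


theorem x3L2 (H : D6 β r t κ s h T) (B : BX6 0.9 1 0.5 0.49723 10 0.1 5.4831 β r κ T) (h1 : 0.35 ≤ s) (h2 : s ≤ 0.43) :
    ‖Xf β r h (t) 3‖ ≤ 0.003066 * ‖Xf β r h t 1‖ := by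
  have hr := rgR (a := 2) (τ1 := 2.4609) (τm := 2.5447) H.h1 H.h2 h1 h2 (by norm_num) (by norm_num) (by norm_num)
  have e : (s + ((3 : ℤ) : ℝ) - 1) * h + 2 * Real.pi * ((0 : ℤ) : ℝ) = (s + 2) * h := by push_cast; ring
  exact cellU (k := 3) (Y := ‖Xf β r h t 1‖) (g := 0.4778 * s ^ 2) 0 0.9 1 1.4608 2.5447 0.16 10 0.1 0.4206 0.16 1.966 0.9382 1.09663 0.08835 0.7889 0.9464 3.1623 0.00038895 0.003066
    H.hβ H.hκ H.hs H.hT H.h0 H.hq2 (by norm_num) B.hk1 B.hk2 (by rw [e]; linarith [hr.1, B.hk2]) (by rw [e]; exact hr.2)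
    B.hR B.hb (x1lo2 H B (by linarith) (by linarith)) (by positivity) (gA (by norm_num) (by linarith) (by linarith : s ≤ 0.43) (by norm_num))
    (by norm_num) (by norm_num) (by norm_num) (by norm_num) (by norm_num) (by norm_num) (by norm_num) (by norm_num) (by norm_num) (by norm_num) (by norm_num) (by norm_num) (by norm_num) (by norm_num) (by norm_num) (by norm_num) (by norm_num) (by norm_num) (by norm_num) 
    (expn 7 0.8639 (by norm_num) (by norm_num) (E := 0.00038895) (by norm_num) (by norm_num)) (by norm_num) (by norm_num)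


theorem outL2 (H : D6 β r t κ s h T) (B : BX6 0.9 1 0.5 0.49723 10 0.1 5.4831 β r κ T) (h1 : 0.35 ≤ s) (h2 : s ≤ 0.43) :
    oth6 β r h t + ‖Xf β r h t 0‖ < ‖Xf β r h t 1‖ := by
  have g1 := xm2L H B (by linarith) (by linarith)
  have g2 := xm1L H B (by linarith) (by linarith)
  have g3 := x0L2 H B h1 h2
  have g4 := x2L2 H B h1 h2
  have g5 := x3L2 H B h1 h2
  have hY := lt_of_lt_of_le (mul_pos (eN_pos r κ) (by positivity)) (x1lo2 H B h1 h2)
  unfold oth6
  norm_num at g1 g2 g3 g4 g5 ⊢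
  linarith

theorem x1lo3 (H : D6 β r t κ s h T) (B : BX6 0.9 1 0.5 0.49723 10 0.1 5.4831 β r κ T) (h1 : 0.43 ≤ s) (h2 : s ≤ 0.45) :
    eN r κ * (0.9373 * Real.exp (-(T * (0.4727 * s ^ 2)))) ≤ ‖Xf β r h t 1‖ := by
  have hr := rgR (a := 0) (τ1 := 0.4502) (τm := 0.4713) H.h1 H.h2 h1 h2 (by norm_num) (by norm_num) (by norm_num)
  rw [add_zero, ← H.hs] at hr
  obtain ⟨ha, hb⟩ := hr
  have hD := H.dom' (t' := t) (by linarith) (by linarith)
  have hk1 := B.hk1
  have hk2 := B.hk2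
  have hk0 := H.k0
  have hy1 : 0.194 ≤ sy κ t := syR_ge hD 0.9 1 0.4502 0.194 1.21409 1.2141 0.23553 0.26171 hk1 hk2 (by linarith) (by norm_num) (by norm_num)
    (expn_ge (by norm_num) (by norm_num)) (expn_le (by norm_num) (by norm_num) (by norm_num)) (by norm_num)
    (by norm_num) (by norm_num) (by norm_num) (by norm_num) (by norm_num) (by norm_num)
  have hy2 : sy κ t ≤ 0.208 := syR_le hD 0.9 1 0.4713 0.208 1.23121 0.2489 0.25609 0.28455 hk1 hk2 (by linarith) (by norm_num) (by norm_num)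
    (expn_ge (by norm_num) (by norm_num)) (by norm_num) (by norm_num) (Or.inr ((mul_le_mul_of_nonneg_left (expn_le (E := 1.23122) (by norm_num) (by norm_num) (by norm_num)) (by norm_num)).trans (by norm_num))) (by norm_num) (by norm_num) (by norm_num)
  exact H.x1lo hD (ε := 0.045) (c := 0.4727) (d := 1.0776) (l := 0.9373) (by norm_num) (JB6_k1a hD H.hβ H.hk1 H.hk2 (by linarith) (by linarith) H.ble H.bc')
    (V1lo6 hD 0.0608 0.4502 0.6075 _ 0.1815 0.4727 (by norm_num) ha (by linarith) (k3 B) rfl (fq B) (by norm_num) (fg B) (by norm_num))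
    (D_up6 hD 0.9 1 0.194 0.208 0.82366 0.81221 1.0776 hk1 hk2 (by norm_num) hy1 hy2 (by norm_num) (expm_le (by norm_num) (by norm_num) (by norm_num)) (expm_le (by norm_num) (by norm_num) (by norm_num)) (by norm_num) (by norm_num) (by norm_num) (by norm_num)) (by norm_num) (by norm_num)


theorem x0L3 (H : D6 β r t κ s h T) (B : BX6 0.9 1 0.5 0.49723 10 0.1 5.4831 β r κ T) (h1 : 0.43 ≤ s) (h2 : s ≤ 0.45) :
    ‖Xf β r h t 0‖ ≤ 0.82728 * ‖Xf β r h t 1‖ := by
  have hr := rgL (a := (-1)) (b1 := 0.5759) (b2 := 0.597) H.h1 H.h2 h1 h2 (by norm_num) (by norm_num) (by norm_num)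
  have e : (s + -1) * h = (t - h) + κ := by rw [H.a0]; ring
  rw [e] at hr
  obtain ⟨ha, hb⟩ := hr
  have hD := H.dom' (t' := t - h) (by linarith) (by linarith)
  have hk1 := B.hk1
  have hk2 := B.hk2
  have hk0 := H.k0
  have hy1 : -0.345 ≤ sy κ (t - h) := syL_ge hD 0.9 1 0.597 0.345 0.70822 0.70823 0.2624 0.24433 0.27149 hk1 hk2 (by linarith) (by norm_num) (by norm_num) (by norm_num)
    (expm_ge (by norm_num) (by norm_num) (by norm_num) (by norm_num)) (expm_le (by norm_num) (by norm_num) (by norm_num)) (by norm_num)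
    (by norm_num) (by norm_num) (by norm_num) (by norm_num) (by norm_num) (by norm_num)
  have hy2 : sy κ (t - h) ≤ -0.321 := syL_le hD 0.9 1 0.5759 0.321 0.72542 0.72543 0.23285 0.25874 hk1 hk2 (by linarith) (by norm_num) (by norm_num) (by norm_num)
    (expm_ge (by norm_num) (by norm_num) (by norm_num) (by norm_num)) (expm_le (by norm_num) (by norm_num) (by norm_num)) (by norm_num)
    (by norm_num) (by norm_num) (by norm_num) (by norm_num) (by norm_num) (by norm_num)
  have hX := H.x0up hD (ε := 0.11) (c := 0.526) (d := 1.0481) (U := 1.0971) (by norm_num) (JB6_k0b hD H.hβ H.hk1 H.hk2 (by linarith) (by linarith) H.ble H.bc')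
    (VL_box hD 1.07 0.526 0.9 1 0.5 0.5759 0.597 _ _ _ _ ha hb hk1 hk2 B.hψ (by norm_num) (by norm_num) (by norm_num) rfl rfl (by norm_num) rfl rfl (by norm_num) (by norm_num) (by norm_num))
    (by norm_num) (D_lo6 hD 0.9 1 (-0.345) (-0.321) (-0.321) 1.3785 1.0481 hk1 hk2 (by norm_num) hy1 hy2 (by rw [neg_neg]; exact expn_ge (by norm_num) (by norm_num)) (by norm_num) (by norm_num) (by norm_num) (by norm_num) (by norm_num) (by norm_num)) (by norm_num) (by norm_num)
  exact cmpT (eN_pos r κ) hX (x1lo3 H B (by linarith) (by linarith)) B.hT (by norm_num) (qA (a := -1) (s2 := 0.45) (q := 0.06339) (by norm_num) (by norm_num) (by linarith) h2 (by norm_num) (by norm_num)) (by norm_num)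
    (expn 0 0.3475 (by norm_num) (by norm_num) (E := 0.70678) (by norm_num) (by norm_num)) (by norm_num) (by norm_num) (by norm_num)


theorem x2L3 (H : D6 β r t κ s h T) (B : BX6 0.9 1 0.5 0.49723 10 0.1 5.4831 β r κ T) (h1 : 0.43 ≤ s) (h2 : s ≤ 0.45) :
    ‖Xf β r h (t) 2‖ ≤ (0.07882 + 0.022602) * ‖Xf β r h t 1‖ := by
  have hr := rgR (a := 1) (τ1 := 1.4974) (τm := 1.5185) H.h1 H.h2 h1 h2 (by norm_num) (by norm_num) (by norm_num)
  have e : s + ((2 : ℤ) : ℝ) - 1 = s + 1 := by push_cast; ring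
  exact cellR (k := 2) (Y := ‖Xf β r h t 1‖) (g := 0.4727 * s ^ 2) 0.48 0.3389 0.9 1 0.5 0.49723 1.4974 1.5185 _ _ _ _ _ 0.25789 2.0439 10 0.1 0.4206 0.4323 0.9201 0.9373 0.60561 5.4831 0.036144 0.07882 1.09663 0.09573 0.7881 0.9419 3.1623 0.0061219 0.022602
    H.hβ H.hκ H.hs H.hT H.h0 H.hq2 (by norm_num) B.hk1 B.hk2 B.hψ B.hψ1 (by rw [e]; have h5 := hr.2; have h6 := B.hk1; have h7 := Real.pi_gt_d6; norm_num at h5 h6 h7 ⊢; linarith) (by rw [e]; exact hr.1) (by rw [e]; exact hr.2)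
    B.hR B.hb B.hT (x1lo3 H B (by linarith) (by linarith)) (by positivity) (gA (by norm_num) (by linarith) (by linarith : s ≤ 0.45) (by norm_num))
    (by rw [e]; exact qB (s1 := 0.43) (s2 := 0.45) (by norm_num) (by norm_num) h1 h2 (le_refl _) (by norm_num) (by norm_num) (by norm_num))
    (by norm_num) (by norm_num) (by norm_num) (by norm_num) rfl rfl (by norm_num) rfl rfl rfl (by norm_num) (by norm_num) (by norm_num) (by norm_num) (by norm_num) (by norm_num) (by norm_num) (by norm_num) (by norm_num) (by norm_num) (by norm_num) (by norm_num) (by norm_num) (by norm_num) (by norm_num) (by norm_num) (by norm_num) (by norm_num) (by norm_num)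
    (expn 3 0.3206 (by norm_num) (by norm_num) (E := 0.036144) (by norm_num) (by norm_num)) (by norm_num) (by norm_num) (by norm_num) (by norm_num) (by norm_num) (by norm_num) (by norm_num) (by norm_num)
    (expn 5 0.0959 (by norm_num) (by norm_num) (E := 0.0061219) (by norm_num) (by norm_num)) (by norm_num) (by norm_num)


theorem x3L3 (H : D6 β r t κ s h T) (B : BX6 0.9 1 0.5 0.49723 10 0.1 5.4831 β r κ T) (h1 : 0.43 ≤ s) (h2 : s ≤ 0.45) :
    ‖Xf β r h (t) 3‖ ≤ 0.001353 * ‖Xf β r h t 1‖ := by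
  have hr := rgR (a := 2) (τ1 := 2.5446) (τm := 2.5657) H.h1 H.h2 h1 h2 (by norm_num) (by norm_num) (by norm_num)
  have e : (s + ((3 : ℤ) : ℝ) - 1) * h + 2 * Real.pi * ((0 : ℤ) : ℝ) = (s + 2) * h := by push_cast; ring
  exact cellU (k := 3) (Y := ‖Xf β r h t 1‖) (g := 0.4727 * s ^ 2) 0 0.9 1 1.5445 2.5657 0.07 10 0.1 0.4206 0.07 2.0494 0.9373 1.09663 0.09573 0.7881 0.9419 3.1623 0.00016451 0.001353
    H.hβ H.hκ H.hs H.hT H.h0 H.hq2 (by norm_num) B.hk1 B.hk2 (by rw [e]; linarith [hr.1, B.hk2]) (by rw [e]; exact hr.2)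
    B.hR B.hb (x1lo3 H B (by linarith) (by linarith)) (by positivity) (gA (by norm_num) (by linarith) (by linarith : s ≤ 0.45) (by norm_num))
    (by norm_num) (by norm_num) (by norm_num) (by norm_num) (by norm_num) (by norm_num) (by norm_num) (by norm_num) (by norm_num) (by norm_num) (by norm_num) (by norm_num) (by norm_num) (by norm_num) (by norm_num) (by norm_num) (by norm_num) (by norm_num) (by norm_num) 
    (expn 8 0.7189 (by norm_num) (by norm_num) (E := 0.00016451) (by norm_num) (by norm_num)) (by norm_num) (by norm_num)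


theorem outL3 (H : D6 β r t κ s h T) (B : BX6 0.9 1 0.5 0.49723 10 0.1 5.4831 β r κ T) (h1 : 0.43 ≤ s) (h2 : s ≤ 0.45) :
    oth6 β r h t + ‖Xf β r h t 0‖ < ‖Xf β r h t 1‖ := by
  have g1 := xm2L H B (by linarith) (by linarith)
  have g2 := xm1L H B (by linarith) (by linarith)
  have g3 := x0L3 H B h1 h2
  have g4 := x2L3 H B h1 h2
  have g5 := x3L3 H B h1 h2
  have hY := lt_of_lt_of_le (mul_pos (eN_pos r κ) (by positivity)) (x1lo3 H B h1 h2)
  unfold oth6
  norm_num at g1 g2 g3 g4 g5 ⊢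
  linarith

theorem x0loG (H : D6 β r t κ s h T) (B : BX6 0.9 1 0.5 0.49723 10 0.1 5.4831 β r κ T) (h1 : 0.58 ≤ s) (h2 : s ≤ 1) :
    eN r κ * (0.904 * Real.exp (-(T * (0.5499 * (s - 1) ^ 2)))) ≤ ‖Xf β r h t 0‖ := by
  have hr := rgL (a := (-1)) (b1 := 0) (b2 := 0.4399) H.h1 H.h2 h1 h2 (by norm_num) (by norm_num) (by norm_num)
  have e : (s + -1) * h = (t - h) + κ := by rw [H.a0]; ring
  rw [e] at hr
  obtain ⟨ha, hb⟩ := hr
  have hD := H.dom' (t' := t - h) (by linarith) (by linarith)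
  have hk1 := B.hk1
  have hk2 := B.hk2
  have hk0 := H.k0
  have hy1 : -0.247 ≤ sy κ (t - h) := syL_ge hD 0.9 1 0.4399 0.247 0.78114 0.78115 0.1983 0.19294 0.21439 hk1 hk2 (by linarith) (by norm_num) (by norm_num) (by norm_num)
    (expm_ge (by norm_num) (by norm_num) (by norm_num) (by norm_num)) (expm_le (by norm_num) (by norm_num) (by norm_num)) (by norm_num)
    (by norm_num) (by norm_num) (by norm_num) (by norm_num) (by norm_num) (by norm_num)
  have hy2 : sy κ (t - h) ≤ 0 := sy_nonpos hD (by linarith)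
  exact H.x0lo hD (ε := 0.08) (c := 0.5499) (d := 1.0725) (l := 0.904) (by norm_num) (JB6_k0a hD H.hβ H.hk1 H.hk2 (by linarith) (by linarith) H.ble H.bc')
    (V0_lo hD 0.5499 0.4399 0.1004 0.1251 0.1687 0.5 (by linarith) (by linarith) (by norm_num) (fa1 B) (fa2 B) (fa3 B) (fa4 H B) (by norm_num) (by norm_num) (by norm_num) (by norm_num) (by norm_num))
    (D_up6 hD 0.9 1 (-0.247) 0 1.28018 1 1.0725 hk1 hk2 (by norm_num) hy1 hy2 (by norm_num) (by rw [neg_neg]; exact expn_le (by norm_num) (by norm_num) (by norm_num)) (by simp) (by norm_num) (by norm_num) (by norm_num) (by norm_num)) (by norm_num) (by norm_num)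


theorem xm2R (H : D6 β r t κ s h T) (B : BX6 0.9 1 0.5 0.49723 10 0.1 5.4831 β r κ T) (h1 : 0.58 ≤ s) (h2 : s ≤ 1) :
    ‖Xf β r h (t) (-2)‖ ≤ (0.00003 + 0.000356) * ‖Xf β r h t 0‖ := by
  have hr := rgL (a := (-3)) (b1 := 2.0943) (b2 := 2.5343) H.h1 H.h2 h1 h2 (by norm_num) (by norm_num) (by norm_num)
  have e : s + ((-2 : ℤ) : ℝ) - 1 = s + (-3) := by push_cast; ring
  exact cellL (k := -2) (Y := ‖Xf β r h t 0‖) (g := 0.5499 * (s - 1) ^ 2) 0.77 0.4902 0.9 1 0.5 0.49723 2.0943 2.5343 _ _ _ _ _ 2.19854 1.1962 10 0.1 0.4206 0 1.0456 0.904 1.96079 5.4831 0.000021578 0.00003 1.09663 0.09701 0.7601 0.9412 3.1623 0.000081817 0.000356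
    H.hβ H.hκ H.hs H.hT H.h0 H.hq2 (by norm_num) B.hk1 B.hk2 B.hψ B.hψ1 (by rw [e]; exact hr.1) (by rw [e]; exact hr.2)
    B.hR B.hb B.hT (x0loG H B (by linarith) (by linarith)) (by positivity) (gD (by norm_num) (by linarith : 0.58 ≤ s) (by linarith) (by norm_num))
    (by rw [e]; exact qC (s1 := 0.58) (s2 := 1) (b := 0) (by norm_num) (by norm_num) h1 h2 (by linarith) (by norm_num) (by norm_num) (by norm_num))
    (by norm_num) (by norm_num) (by norm_num) (by norm_num) rfl rfl (by norm_num) rfl rfl rfl (by norm_num) (by norm_num) (by norm_num) (by norm_num) (by norm_num) (by norm_num) (by norm_num) (by norm_num) (by norm_num) (by norm_num) (by norm_num) (by norm_num) (by norm_num) (by norm_num) (by norm_num) (by norm_num) (by norm_num) (by norm_num)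
    (expn 10 0.7512 (by norm_num) (by norm_num) (E := 0.000021578) (by norm_num) (by norm_num)) (by norm_num) (by norm_num) (by norm_num) (by norm_num) (by norm_num) (by norm_num) (by norm_num) (by norm_num)
    (expn 9 0.4119 (by norm_num) (by norm_num) (E := 0.000081817) (by norm_num) (by norm_num)) (by norm_num) (by norm_num)


theorem x3R (H : D6 β r t κ s h T) (B : BX6 0.9 1 0.5 0.49723 10 0.1 5.4831 β r κ T) (h1 : 0.58 ≤ s) (h2 : s ≤ 1) :
    ‖Xf β r h (t) 3‖ ≤ 0.000512 * ‖Xf β r h t 0‖ := by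
  have hr := rgR (a := 2) (τ1 := 2.7017) (τm := 3.1416) H.h1 H.h2 h1 h2 (by norm_num) (by norm_num) (by norm_num)
  have e : (s + ((3 : ℤ) : ℝ) - 1) * h + 2 * Real.pi * ((0 : ℤ) : ℝ) = (s + 2) * h := by push_cast; ring
  exact cellU (k := 3) (Y := ‖Xf β r h t 0‖) (g := 0.5499 * (s - 1) ^ 2) 0 0.9 1 1.7016 3.1416 0.01 10 0.1 0.4206 0.01 1.3604 0.904 1.09663 0.09701 0.7601 0.9412 3.1623 0.000090371 0.000512
    H.hβ H.hκ H.hs H.hT H.h0 H.hq2 (by norm_num) B.hk1 B.hk2 (by rw [e]; linarith [hr.1, B.hk2]) (by rw [e]; exact hr.2)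
    B.hR B.hb (x0loG H B (by linarith) (by linarith)) (by positivity) (gD (by norm_num) (by linarith : 0.58 ≤ s) (by linarith) (by norm_num))
    (by norm_num) (by norm_num) (by norm_num) (by norm_num) (by norm_num) (by norm_num) (by norm_num) (by norm_num) (by norm_num) (by norm_num) (by norm_num) (by norm_num) (by norm_num) (by norm_num) (by norm_num) (by norm_num) (by norm_num) (by norm_num) (by norm_num) 
    (expn 9 0.3119 (by norm_num) (by norm_num) (E := 0.000090371) (by norm_num) (by norm_num)) (by norm_num) (by norm_num)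


theorem x0lg0 (H : D6 β r t κ s h T) (B : BX6 0.9 1 0.5 0.49723 10 0.1 5.4831 β r κ T) (h1 : 0.58 ≤ s) (h2 : s ≤ 0.65) :
    eN r κ * (0.904 * Real.exp (-(T * (0.5499 * (s - 1) ^ 2)))) ≤ ‖Xf β r h t 0‖ := by
  have hr := rgL (a := (-1)) (b1 := 0.3665) (b2 := 0.4399) H.h1 H.h2 h1 h2 (by norm_num) (by norm_num) (by norm_num)
  have e : (s + -1) * h = (t - h) + κ := by rw [H.a0]; ring
  rw [e] at hr
  obtain ⟨ha, hb⟩ := hr
  have hD := H.dom' (t' := t - h) (by linarith) (by linarith)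
  have hk1 := B.hk1
  have hk2 := B.hk2
  have hk0 := H.k0
  have hy1 : -0.247 ≤ sy κ (t - h) := syL_ge hD 0.9 1 0.4399 0.247 0.78114 0.78115 0.1983 0.19294 0.21439 hk1 hk2 (by linarith) (by norm_num) (by norm_num) (by norm_num)
    (expm_ge (by norm_num) (by norm_num) (by norm_num) (by norm_num)) (expm_le (by norm_num) (by norm_num) (by norm_num)) (by norm_num)
    (by norm_num) (by norm_num) (by norm_num) (by norm_num) (by norm_num) (by norm_num)
  have hy2 : sy κ (t - h) ≤ -0.198 := syL_le hD 0.9 1 0.3665 0.198 0.82036 0.82037 0.16243 0.18049 hk1 hk2 (by linarith) (by norm_num) (by norm_num) (by norm_num)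
    (expm_ge (by norm_num) (by norm_num) (by norm_num) (by norm_num)) (expm_le (by norm_num) (by norm_num) (by norm_num)) (by norm_num)
    (by norm_num) (by norm_num) (by norm_num) (by norm_num) (by norm_num) (by norm_num)
  exact H.x0lo hD (ε := 0.08) (c := 0.5499) (d := 1.0725) (l := 0.904) (by norm_num) (JB6_k0a hD H.hβ H.hk1 H.hk2 (by linarith) (by linarith) H.ble H.bc')
    (V0_lo hD 0.5499 0.4399 0.1004 0.1251 0.1687 0.5 (by linarith) (by linarith) (by norm_num) (fa1 B) (fa2 B) (fa3 B) (fa4 H B) (by norm_num) (by norm_num) (by norm_num) (by norm_num) (by norm_num))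
    (D_up6 hD 0.9 1 (-0.247) (-0.198) 1.28018 1.21897 1.0725 hk1 hk2 (by norm_num) hy1 hy2 (by norm_num) (by rw [neg_neg]; exact expn_le (by norm_num) (by norm_num) (by norm_num)) (by rw [neg_neg]; exact expn_le (by norm_num) (by norm_num) (by norm_num)) (by norm_num) (by norm_num) (by norm_num) (by norm_num)) (by norm_num) (by norm_num)


theorem xm1R0 (H : D6 β r t κ s h T) (B : BX6 0.9 1 0.5 0.49723 10 0.1 5.4831 β r κ T) (h1 : 0.58 ≤ s) (h2 : s ≤ 0.65) :
    ‖Xf β r h (t) (-1)‖ ≤ (0.00764 + 0.000328) * ‖Xf β r h t 0‖ := by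
  have hr := rgL (a := (-2)) (b1 := 1.4137) (b2 := 1.4871) H.h1 H.h2 h1 h2 (by norm_num) (by norm_num) (by norm_num)
  have e : s + ((-1 : ℤ) : ℝ) - 1 = s + (-2) := by push_cast; ring
  exact cellL (k := -1) (Y := ‖Xf β r h t 0‖) (g := 0.5499 * (s - 1) ^ 2) 1.1 0.551 0.9 1 0.5 0.49723 1.4137 1.4871 _ _ _ _ _ 2.36222 1.1749 10 0.1 0.4206 0 0.9624 0.904 0.93683 5.4831 0.0058772 0.00764 1.09663 0.09701 0.7601 0.9412 3.1623 0.000081817 0.000328
    H.hβ H.hκ H.hs H.hT H.h0 H.hq2 (by norm_num) B.hk1 B.hk2 B.hψ B.hψ1 (by rw [e]; exact hr.1) (by rw [e]; exact hr.2)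
    B.hR B.hb B.hT (x0lg0 H B (by linarith) (by linarith)) (by positivity) (gD (by norm_num) (by linarith : 0.58 ≤ s) (by linarith) (by norm_num))
    (by rw [e]; exact qC (s1 := 0.58) (s2 := 0.65) (b := 0) (by norm_num) (by norm_num) h1 h2 (by linarith) (by norm_num) (by norm_num) (by norm_num))
    (by norm_num) (by norm_num) (by norm_num) (by norm_num) rfl rfl (by norm_num) rfl rfl rfl (by norm_num) (by norm_num) (by norm_num) (by norm_num) (by norm_num) (by norm_num) (by norm_num) (by norm_num) (by norm_num) (by norm_num) (by norm_num) (by norm_num) (by norm_num) (by norm_num) (by norm_num) (by norm_num) (by norm_num) (by norm_num)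
    (expn 5 0.1367 (by norm_num) (by norm_num) (E := 0.0058772) (by norm_num) (by norm_num)) (by norm_num) (by norm_num) (by norm_num) (by norm_num) (by norm_num) (by norm_num) (by norm_num) (by norm_num)
    (expn 9 0.4119 (by norm_num) (by norm_num) (E := 0.000081817) (by norm_num) (by norm_num)) (by norm_num) (by norm_num)


theorem x0lg1 (H : D6 β r t κ s h T) (B : BX6 0.9 1 0.5 0.49723 10 0.1 5.4831 β r κ T) (h1 : 0.65 ≤ s) (h2 : s ≤ 1) :
    eN r κ * (0.9094 * Real.exp (-(T * (0.5406 * (s - 1) ^ 2)))) ≤ ‖Xf β r h t 0‖ := by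
  have hr := rgL (a := (-1)) (b1 := 0) (b2 := 0.3666) H.h1 H.h2 h1 h2 (by norm_num) (by norm_num) (by norm_num)
  have e : (s + -1) * h = (t - h) + κ := by rw [H.a0]; ring
  rw [e] at hr
  obtain ⟨ha, hb⟩ := hr
  have hD := H.dom' (t' := t - h) (by linarith) (by linarith)
  have hk1 := B.hk1
  have hk2 := B.hk2
  have hk0 := H.k0
  have hy1 : -0.202 ≤ sy κ (t - h) := syL_ge hD 0.9 1 0.3666 0.202 0.81709 0.8171 0.1742 0.16505 0.1834 hk1 hk2 (by linarith) (by norm_num) (by norm_num) (by norm_num)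
    (expm_ge (by norm_num) (by norm_num) (by norm_num) (by norm_num)) (expm_le (by norm_num) (by norm_num) (by norm_num)) (by norm_num)
    (by norm_num) (by norm_num) (by norm_num) (by norm_num) (by norm_num) (by norm_num)
  have hy2 : sy κ (t - h) ≤ 0 := sy_nonpos hD (by linarith)
  exact H.x0lo hD (ε := 0.08) (c := 0.5406) (d := 1.047) (l := 0.9094) (by norm_num) (JB6_k0a hD H.hβ H.hk1 H.hk2 (by linarith) (by linarith) H.ble H.bc')
    (V0_lo hD 0.5406 0.3666 0.1004 0.1251 0.1687 0.5 (by linarith) (by linarith) (by norm_num) (fa1 B) (fa2 B) (fa3 B) (fa4 H B) (by norm_num) (by norm_num) (by norm_num) (by norm_num) (by norm_num))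
    (D_up6 hD 0.9 1 (-0.202) 0 1.22385 1 1.047 hk1 hk2 (by norm_num) hy1 hy2 (by norm_num) (by rw [neg_neg]; exact expn_le (by norm_num) (by norm_num) (by norm_num)) (by simp) (by norm_num) (by norm_num) (by norm_num) (by norm_num)) (by norm_num) (by norm_num)


theorem xm1R1 (H : D6 β r t κ s h T) (B : BX6 0.9 1 0.5 0.49723 10 0.1 5.4831 β r κ T) (h1 : 0.65 ≤ s) (h2 : s ≤ 1) :
    ‖Xf β r h (t) (-1)‖ ≤ (0.07995 + 0.000263) * ‖Xf β r h t 0‖ := by
  have hr := rgL (a := (-2)) (b1 := 1.0471) (b2 := 1.4138) H.h1 H.h2 h1 h2 (by norm_num) (by norm_num) (by norm_num)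
  have e : s + ((-1 : ℤ) : ℝ) - 1 = s + (-2) := by push_cast; ring
  exact cellL (k := -1) (Y := ‖Xf β r h t 0‖) (g := 0.5406 * (s - 1) ^ 2) 1.06 0.5266 0.9 1 0.5 0.49723 1.0471 1.4138 _ _ _ _ _ 1.636 1.2879 10 0.1 0.4206 0 0.9329 0.9094 0.52659 5.4831 0.056452 0.07995 1.09663 0.06623 0.7647 0.9598 3.1623 0.000068097 0.000263
    H.hβ H.hκ H.hs H.hT H.h0 H.hq2 (by norm_num) B.hk1 B.hk2 B.hψ B.hψ1 (by rw [e]; exact hr.1) (by rw [e]; exact hr.2)
    B.hR B.hb B.hT (x0lg1 H B (by linarith) (by linarith)) (by positivity) (gD (by norm_num) (by linarith : 0.65 ≤ s) (by linarith) (by norm_num))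
    (by rw [e]; exact qC (s1 := 0.65) (s2 := 1) (b := 0) (by norm_num) (by norm_num) h1 h2 (by linarith) (by norm_num) (by norm_num) (by norm_num))
    (by norm_num) (by norm_num) (by norm_num) (by norm_num) rfl rfl (by norm_num) rfl rfl rfl (by norm_num) (by norm_num) (by norm_num) (by norm_num) (by norm_num) (by norm_num) (by norm_num) (by norm_num) (by norm_num) (by norm_num) (by norm_num) (by norm_num) (by norm_num) (by norm_num) (by norm_num) (by norm_num) (by norm_num) (by norm_num)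
    (expn 2 0.8873 (by norm_num) (by norm_num) (E := 0.056452) (by norm_num) (by norm_num)) (by norm_num) (by norm_num) (by norm_num) (by norm_num) (by norm_num) (by norm_num) (by norm_num) (by norm_num)
    (expn 9 0.5979 (by norm_num) (by norm_num) (E := 0.000068097) (by norm_num) (by norm_num)) (by norm_num) (by norm_num)


theorem x0lo0 (H : D6 β r t κ s h T) (B : BX6 0.9 1 0.5 0.49723 10 0.1 5.4831 β r κ T) (h1 : 0.58 ≤ s) (h2 : s ≤ 0.6) :
    eN r κ * (0.904 * Real.exp (-(T * (0.5499 * (s - 1) ^ 2)))) ≤ ‖Xf β r h t 0‖ := by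
  have hr := rgL (a := (-1)) (b1 := 0.4188) (b2 := 0.4399) H.h1 H.h2 h1 h2 (by norm_num) (by norm_num) (by norm_num)
  have e : (s + -1) * h = (t - h) + κ := by rw [H.a0]; ring
  rw [e] at hr
  obtain ⟨ha, hb⟩ := hr
  have hD := H.dom' (t' := t - h) (by linarith) (by linarith)
  have hk1 := B.hk1
  have hk2 := B.hk2
  have hk0 := H.k0
  have hy1 : -0.247 ≤ sy κ (t - h) := syL_ge hD 0.9 1 0.4399 0.247 0.78114 0.78115 0.1983 0.19294 0.21439 hk1 hk2 (by linarith) (by norm_num) (by norm_num) (by norm_num)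
    (expm_ge (by norm_num) (by norm_num) (by norm_num) (by norm_num)) (expm_le (by norm_num) (by norm_num) (by norm_num)) (by norm_num)
    (by norm_num) (by norm_num) (by norm_num) (by norm_num) (by norm_num) (by norm_num)
  have hy2 : sy κ (t - h) ≤ -0.228 := syL_le hD 0.9 1 0.4188 0.228 0.79612 0.79613 0.18151 0.20169 hk1 hk2 (by linarith) (by norm_num) (by norm_num) (by norm_num)
    (expm_ge (by norm_num) (by norm_num) (by norm_num) (by norm_num)) (expm_le (by norm_num) (by norm_num) (by norm_num)) (by norm_num)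
    (by norm_num) (by norm_num) (by norm_num) (by norm_num) (by norm_num) (by norm_num)
  exact H.x0lo hD (ε := 0.08) (c := 0.5499) (d := 1.0725) (l := 0.904) (by norm_num) (JB6_k0a hD H.hβ H.hk1 H.hk2 (by linarith) (by linarith) H.ble H.bc')
    (V0_lo hD 0.5499 0.4399 0.1004 0.1251 0.1687 0.5 (by linarith) (by linarith) (by norm_num) (fa1 B) (fa2 B) (fa3 B) (fa4 H B) (by norm_num) (by norm_num) (by norm_num) (by norm_num) (by norm_num))
    (D_up6 hD 0.9 1 (-0.247) (-0.228) 1.28018 1.25609 1.0725 hk1 hk2 (by norm_num) hy1 hy2 (by norm_num) (by rw [neg_neg]; exact expn_le (by norm_num) (by norm_num) (by norm_num)) (by rw [neg_neg]; exact expn_le (by norm_num) (by norm_num) (by norm_num)) (by norm_num) (by norm_num) (by norm_num) (by norm_num)) (by norm_num) (by norm_num)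


theorem x1R0 (H : D6 β r t κ s h T) (B : BX6 0.9 1 0.5 0.49723 10 0.1 5.4831 β r κ T) (h1 : 0.58 ≤ s) (h2 : s ≤ 0.6) :
    ‖Xf β r h t 1‖ ≤ 0.87922 * ‖Xf β r h t 0‖ := by
  have hr := rgR (a := 0) (τ1 := 0.6073) (τm := 0.6284) H.h1 H.h2 h1 h2 (by norm_num) (by norm_num) (by norm_num)
  rw [add_zero, ← H.hs] at hr
  obtain ⟨ha, hb⟩ := hr
  have hD := H.dom' (t' := t) (by linarith) (by linarith)
  have hk1 := B.hk1
  have hk2 := B.hk2
  have hk0 := H.k0
  have hy1 : 0.248 ≤ sy κ t := syR_ge hD 0.9 1 0.6073 0.248 1.28145 1.28146 0.31779 0.35312 hk1 hk2 (by linarith) (by norm_num) (by norm_num)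
    (expn_ge (by norm_num) (by norm_num)) (expn_le (by norm_num) (by norm_num) (by norm_num)) (by norm_num)
    (by norm_num) (by norm_num) (by norm_num) (by norm_num) (by norm_num) (by norm_num)
  have hy2 : sy κ t ≤ 0.264 := syR_le hD 0.9 1 0.6284 0.264 1.30212 0.3341 0.34375 0.38196 hk1 hk2 (by linarith) (by norm_num) (by norm_num)
    (expn_ge (by norm_num) (by norm_num)) (by norm_num) (by norm_num) (Or.inr ((mul_le_mul_of_nonneg_left (expn_le (E := 1.30213) (by norm_num) (by norm_num) (by norm_num)) (by norm_num)).trans (by norm_num))) (by norm_num) (by norm_num) (by norm_num)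
  have hX := H.x1up hD (ε := 0.06) (c := 0.4377) (d := 1.0524) (U := 1.0466) (by norm_num) (JB6_k1b hD H.hβ H.hk1 H.hk2 (by linarith) (by linarith) H.ble H.bc')
    (VR_box6 hD 0.82 0.4377 0.9 0.5 0.49723 0.6073 0.6284 _ _ _ _ _ ha hb (by norm_num) B.hk1 B.hψ B.hψ1 (by norm_num) (by norm_num) (by norm_num) rfl rfl (by norm_num) rfl rfl rfl (by norm_num) (by norm_num))
    (by norm_num) (D_lo6 hD 0.9 1 0.248 0.264 0.25 0.7788 1.0524 hk1 hk2 (by norm_num) hy1 hy2 (expm_ge (by norm_num) (by norm_num) (by norm_num) (by norm_num)) (by norm_num) (by norm_num) (by norm_num) (by norm_num) (by norm_num) (by norm_num)) (by norm_num) (by norm_num)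
  have e0 : s ^ 2 = (s + 0) ^ 2 := by ring
  rw [e0] at hX
  exact cmpT (eN_pos r κ) hX (x0lo0 H B (by linarith) (by linarith)) B.hT (by norm_num) (qD (a := 0) (s1 := 0.58) (q := 0.05023) (by norm_num) (by norm_num) h1 (by linarith) (by norm_num) (by norm_num)) (by norm_num)
    (expn 0 0.2754 (by norm_num) (by norm_num) (E := 0.75942) (by norm_num) (by norm_num)) (by norm_num) (by norm_num) (by norm_num)


theorem x2R0 (H : D6 β r t κ s h T) (B : BX6 0.9 1 0.5 0.49723 10 0.1 5.4831 β r κ T) (h1 : 0.58 ≤ s) (h2 : s ≤ 0.6) :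
    ‖Xf β r h (t) 2‖ ≤ (0.04324 + 0.017332) * ‖Xf β r h t 0‖ := by
  have hr := rgR (a := 1) (τ1 := 1.6545) (τm := 1.6756) H.h1 H.h2 h1 h2 (by norm_num) (by norm_num) (by norm_num)
  have e : s + ((2 : ℤ) : ℝ) - 1 = s + 1 := by push_cast; ring
  exact cellR (k := 2) (Y := ‖Xf β r h t 0‖) (g := 0.5499 * (s - 1) ^ 2) 0.47 0.3314 0.9 1 0.5 0.49723 1.6545 1.6756 _ _ _ _ _ 0.21338 2.143 10 0.1 0.4206 0.3987 0.9447 0.904 0.7303 5.4831 0.018238 0.04324 1.09663 0.09701 0.7601 0.9412 3.1623 0.0044098 0.017332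
    H.hβ H.hκ H.hs H.hT H.h0 H.hq2 (by norm_num) B.hk1 B.hk2 B.hψ B.hψ1 (by rw [e]; have h5 := hr.2; have h6 := B.hk1; have h7 := Real.pi_gt_d6; norm_num at h5 h6 h7 ⊢; linarith) (by rw [e]; exact hr.1) (by rw [e]; exact hr.2)
    B.hR B.hb B.hT (x0lo0 H B (by linarith) (by linarith)) (by positivity) (gD (by norm_num) (by linarith : 0.58 ≤ s) (by linarith) (by norm_num))
    (by rw [e]; exact qD (s1 := 0.58) (by norm_num) (by norm_num) h1 (by linarith) (by norm_num) (by norm_num))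
    (by norm_num) (by norm_num) (by norm_num) (by norm_num) rfl rfl (by norm_num) rfl rfl rfl (by norm_num) (by norm_num) (by norm_num) (by norm_num) (by norm_num) (by norm_num) (by norm_num) (by norm_num) (by norm_num) (by norm_num) (by norm_num) (by norm_num) (by norm_num) (by norm_num) (by norm_num) (by norm_num) (by norm_num) (by norm_num) (by norm_num)
    (expn 4 0.0043 (by norm_num) (by norm_num) (E := 0.018238) (by norm_num) (by norm_num)) (by norm_num) (by norm_num) (by norm_num) (by norm_num) (by norm_num) (by norm_num) (by norm_num) (by norm_num)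
    (expn 5 0.4249 (by norm_num) (by norm_num) (E := 0.0044098) (by norm_num) (by norm_num)) (by norm_num) (by norm_num)


theorem outR0 (H : D6 β r t κ s h T) (B : BX6 0.9 1 0.5 0.49723 10 0.1 5.4831 β r κ T) (h1 : 0.58 ≤ s) (h2 : s ≤ 0.6) :
    oth6 β r h t + ‖Xf β r h t 1‖ < ‖Xf β r h t 0‖ := by
  have g1 := xm2R H B (by linarith) (by linarith)
  have g2 := xm1R0 H B (by linarith) (by linarith)
  have g3 := x1R0 H B h1 h2
  have g4 := x2R0 H B h1 h2
  have g5 := x3R H B (by linarith) (by linarith)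
  have hY := lt_of_lt_of_le (mul_pos (eN_pos r κ) (by positivity)) (x0lo0 H B h1 h2)
  unfold oth6
  norm_num at g1 g2 g3 g4 g5 ⊢
  linarith

theorem x0lo1 (H : D6 β r t κ s h T) (B : BX6 0.9 1 0.5 0.49723 10 0.1 5.4831 β r κ T) (h1 : 0.6 ≤ s) (h2 : s ≤ 0.65) :
    eN r κ * (0.9057 * Real.exp (-(T * (0.5472 * (s - 1) ^ 2)))) ≤ ‖Xf β r h t 0‖ := by
  have hr := rgL (a := (-1)) (b1 := 0.3665) (b2 := 0.4189) H.h1 H.h2 h1 h2 (by norm_num) (by norm_num) (by norm_num)
  have e : (s + -1) * h = (t - h) + κ := by rw [H.a0]; ring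
  rw [e] at hr
  obtain ⟨ha, hb⟩ := hr
  have hD := H.dom' (t' := t - h) (by linarith) (by linarith)
  have hk1 := B.hk1
  have hk2 := B.hk2
  have hk0 := H.k0
  have hy1 : -0.234 ≤ sy κ (t - h) := syL_ge hD 0.9 1 0.4189 0.234 0.79136 0.79137 0.1903 0.18517 0.20576 hk1 hk2 (by linarith) (by norm_num) (by norm_num) (by norm_num)
    (expm_ge (by norm_num) (by norm_num) (by norm_num) (by norm_num)) (expm_le (by norm_num) (by norm_num) (by norm_num)) (by norm_num)
    (by norm_num) (by norm_num) (by norm_num) (by norm_num) (by norm_num) (by norm_num)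
  have hy2 : sy κ (t - h) ≤ -0.198 := syL_le hD 0.9 1 0.3665 0.198 0.82036 0.82037 0.16243 0.18049 hk1 hk2 (by linarith) (by norm_num) (by norm_num) (by norm_num)
    (expm_ge (by norm_num) (by norm_num) (by norm_num) (by norm_num)) (expm_le (by norm_num) (by norm_num) (by norm_num)) (by norm_num)
    (by norm_num) (by norm_num) (by norm_num) (by norm_num) (by norm_num) (by norm_num)
  exact H.x0lo hD (ε := 0.08) (c := 0.5472) (d := 1.0645) (l := 0.9057) (by norm_num) (JB6_k0a hD H.hβ H.hk1 H.hk2 (by linarith) (by linarith) H.ble H.bc')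
    (V0_lo hD 0.5472 0.4189 0.1004 0.1251 0.1687 0.5 (by linarith) (by linarith) (by norm_num) (fa1 B) (fa2 B) (fa3 B) (fa4 H B) (by norm_num) (by norm_num) (by norm_num) (by norm_num) (by norm_num))
    (D_up6 hD 0.9 1 (-0.234) (-0.198) 1.26365 1.21897 1.0645 hk1 hk2 (by norm_num) hy1 hy2 (by norm_num) (by rw [neg_neg]; exact expn_le (by norm_num) (by norm_num) (by norm_num)) (by rw [neg_neg]; exact expn_le (by norm_num) (by norm_num) (by norm_num)) (by norm_num) (by norm_num) (by norm_num) (by norm_num)) (by norm_num) (by norm_num)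


theorem x1R1 (H : D6 β r t κ s h T) (B : BX6 0.9 1 0.5 0.49723 10 0.1 5.4831 β r κ T) (h1 : 0.6 ≤ s) (h2 : s ≤ 0.65) :
    ‖Xf β r h t 1‖ ≤ 0.79575 * ‖Xf β r h t 0‖ := by
  have hr := rgR (a := 0) (τ1 := 0.6283) (τm := 0.6807) H.h1 H.h2 h1 h2 (by norm_num) (by norm_num) (by norm_num)
  rw [add_zero, ← H.hs] at hr
  obtain ⟨ha, hb⟩ := hr
  have hD := H.dom' (t' := t) (by linarith) (by linarith)
  have hk1 := B.hk1
  have hk2 := B.hk2
  have hk0 := H.k0
  have hy1 : 0.255 ≤ sy κ t := syR_ge hD 0.9 1 0.6283 0.255 1.29046 1.29047 0.32906 0.36564 hk1 hk2 (by linarith) (by norm_num) (by norm_num)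
    (expn_ge (by norm_num) (by norm_num)) (expn_le (by norm_num) (by norm_num) (by norm_num)) (by norm_num)
    (by norm_num) (by norm_num) (by norm_num) (by norm_num) (by norm_num) (by norm_num)
  have hy2 : sy κ t ≤ 0.282 := syR_le hD 0.9 1 0.6807 0.282 1.32577 0.3634 0.37386 0.41542 hk1 hk2 (by linarith) (by norm_num) (by norm_num)
    (expn_ge (by norm_num) (by norm_num)) (by norm_num) (by norm_num) (Or.inr ((mul_le_mul_of_nonneg_left (expn_le (E := 1.32578) (by norm_num) (by norm_num) (by norm_num)) (by norm_num)).trans (by norm_num))) (by norm_num) (by norm_num) (by norm_num)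
  have hX := H.x1up hD (ε := 0.06) (c := 0.4322) (d := 1.0552) (U := 1.0459) (by norm_num) (JB6_k1b hD H.hβ H.hk1 H.hk2 (by linarith) (by linarith) H.ble H.bc')
    (VR_box6 hD 0.8 0.4322 0.9 0.5 0.49723 0.6283 0.6807 _ _ _ _ _ ha hb (by norm_num) B.hk1 B.hψ B.hψ1 (by norm_num) (by norm_num) (by norm_num) rfl rfl (by norm_num) rfl rfl rfl (by norm_num) (by norm_num))
    (by norm_num) (D_lo6 hD 0.9 1 0.255 0.282 0.255 0.77491 1.0552 hk1 hk2 (by norm_num) hy1 hy2 (expm_ge (by norm_num) (by norm_num) (by norm_num) (by norm_num)) (by norm_num) (by norm_num) (by norm_num) (by norm_num) (by norm_num) (by norm_num)) (by norm_num) (by norm_num)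
  have e0 : s ^ 2 = (s + 0) ^ 2 := by ring
  rw [e0] at hX
  exact cmpT (eN_pos r κ) hX (x0lo1 H B (by linarith) (by linarith)) B.hT (by norm_num) (qD (a := 0) (s1 := 0.6) (q := 0.06803) (by norm_num) (by norm_num) h1 (by linarith) (by norm_num) (by norm_num)) (by norm_num)
    (expn 0 0.373 (by norm_num) (by norm_num) (E := 0.68908) (by norm_num) (by norm_num)) (by norm_num) (by norm_num) (by norm_num)


theorem x2R1 (H : D6 β r t κ s h T) (B : BX6 0.9 1 0.5 0.49723 10 0.1 5.4831 β r κ T) (h1 : 0.6 ≤ s) (h2 : s ≤ 0.65) :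
    ‖Xf β r h (t) 2‖ ≤ (0.04049 + 0.014184) * ‖Xf β r h t 0‖ := by
  have hr := rgR (a := 1) (τ1 := 1.6755) (τm := 1.7279) H.h1 H.h2 h1 h2 (by norm_num) (by norm_num) (by norm_num)
  have e : s + ((2 : ℤ) : ℝ) - 1 = s + 1 := by push_cast; ring
  exact cellR (k := 2) (Y := ‖Xf β r h t 0‖) (g := 0.5472 * (s - 1) ^ 2) 0.45 0.3234 0.9 1 0.5 0.49723 1.6755 1.7279 _ _ _ _ _ 0.22098 2.1243 10 0.1 0.4206 0.3847 0.9405 0.9057 0.74035 5.4831 0.01726 0.04049 1.09663 0.08756 0.7615 0.9469 3.1623 0.0036316 0.014184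
    H.hβ H.hκ H.hs H.hT H.h0 H.hq2 (by norm_num) B.hk1 B.hk2 B.hψ B.hψ1 (by rw [e]; have h5 := hr.2; have h6 := B.hk1; have h7 := Real.pi_gt_d6; norm_num at h5 h6 h7 ⊢; linarith) (by rw [e]; exact hr.1) (by rw [e]; exact hr.2)
    B.hR B.hb B.hT (x0lo1 H B (by linarith) (by linarith)) (by positivity) (gD (by norm_num) (by linarith : 0.6 ≤ s) (by linarith) (by norm_num))
    (by rw [e]; exact qD (s1 := 0.6) (by norm_num) (by norm_num) h1 (by linarith) (by norm_num) (by norm_num))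
    (by norm_num) (by norm_num) (by norm_num) (by norm_num) rfl rfl (by norm_num) rfl rfl rfl (by norm_num) (by norm_num) (by norm_num) (by norm_num) (by norm_num) (by norm_num) (by norm_num) (by norm_num) (by norm_num) (by norm_num) (by norm_num) (by norm_num) (by norm_num) (by norm_num) (by norm_num) (by norm_num) (by norm_num) (by norm_num) (by norm_num)
    (expn 4 0.0594 (by norm_num) (by norm_num) (E := 0.01726) (by norm_num) (by norm_num)) (by norm_num) (by norm_num) (by norm_num) (by norm_num) (by norm_num) (by norm_num) (by norm_num) (by norm_num)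
    (expn 5 0.6219 (by norm_num) (by norm_num) (E := 0.0036316) (by norm_num) (by norm_num)) (by norm_num) (by norm_num)


theorem outR1 (H : D6 β r t κ s h T) (B : BX6 0.9 1 0.5 0.49723 10 0.1 5.4831 β r κ T) (h1 : 0.6 ≤ s) (h2 : s ≤ 0.65) :
    oth6 β r h t + ‖Xf β r h t 1‖ < ‖Xf β r h t 0‖ := by
  have g1 := xm2R H B (by linarith) (by linarith)
  have g2 := xm1R0 H B (by linarith) (by linarith)
  have g3 := x1R1 H B h1 h2
  have g4 := x2R1 H B h1 h2
  have g5 := x3R H B (by linarith) (by linarith)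
  have hY := lt_of_lt_of_le (mul_pos (eN_pos r κ) (by positivity)) (x0lo1 H B h1 h2)
  unfold oth6
  norm_num at g1 g2 g3 g4 g5 ⊢
  linarith

theorem x0lo2 (H : D6 β r t κ s h T) (B : BX6 0.9 1 0.5 0.49723 10 0.1 5.4831 β r κ T) (h1 : 0.65 ≤ s) (h2 : s ≤ 0.75) :
    eN r κ * (0.9094 * Real.exp (-(T * (0.5406 * (s - 1) ^ 2)))) ≤ ‖Xf β r h t 0‖ := by
  have hr := rgL (a := (-1)) (b1 := 0.2617) (b2 := 0.3666) H.h1 H.h2 h1 h2 (by norm_num) (by norm_num) (by norm_num)
  have e : (s + -1) * h = (t - h) + κ := by rw [H.a0]; ring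
  rw [e] at hr
  obtain ⟨ha, hb⟩ := hr
  have hD := H.dom' (t' := t - h) (by linarith) (by linarith)
  have hk1 := B.hk1
  have hk2 := B.hk2
  have hk0 := H.k0
  have hy1 : -0.202 ≤ sy κ (t - h) := syL_ge hD 0.9 1 0.3666 0.202 0.81709 0.8171 0.1742 0.16505 0.1834 hk1 hk2 (by linarith) (by norm_num) (by norm_num) (by norm_num)
    (expm_ge (by norm_num) (by norm_num) (by norm_num) (by norm_num)) (expm_le (by norm_num) (by norm_num) (by norm_num)) (by norm_num)
    (by norm_num) (by norm_num) (by norm_num) (by norm_num) (by norm_num) (by norm_num)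
  have hy2 : sy κ (t - h) ≤ -0.138 := syL_le hD 0.9 1 0.2617 0.138 0.87109 0.8711 0.12021 0.13357 hk1 hk2 (by linarith) (by norm_num) (by norm_num) (by norm_num)
    (expm_ge (by norm_num) (by norm_num) (by norm_num) (by norm_num)) (expm_le (by norm_num) (by norm_num) (by norm_num)) (by norm_num)
    (by norm_num) (by norm_num) (by norm_num) (by norm_num) (by norm_num) (by norm_num)
  exact H.x0lo hD (ε := 0.08) (c := 0.5406) (d := 1.047) (l := 0.9094) (by norm_num) (JB6_k0a hD H.hβ H.hk1 H.hk2 (by linarith) (by linarith) H.ble H.bc')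
    (V0_lo hD 0.5406 0.3666 0.1004 0.1251 0.1687 0.5 (by linarith) (by linarith) (by norm_num) (fa1 B) (fa2 B) (fa3 B) (fa4 H B) (by norm_num) (by norm_num) (by norm_num) (by norm_num) (by norm_num))
    (D_up6 hD 0.9 1 (-0.202) (-0.138) 1.22385 1.14798 1.047 hk1 hk2 (by norm_num) hy1 hy2 (by norm_num) (by rw [neg_neg]; exact expn_le (by norm_num) (by norm_num) (by norm_num)) (by rw [neg_neg]; exact expn_le (by norm_num) (by norm_num) (by norm_num)) (by norm_num) (by norm_num) (by norm_num) (by norm_num)) (by norm_num) (by norm_num)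


theorem x1R2 (H : D6 β r t κ s h T) (B : BX6 0.9 1 0.5 0.49723 10 0.1 5.4831 β r κ T) (h1 : 0.65 ≤ s) (h2 : s ≤ 0.75) :
    ‖Xf β r h t 1‖ ≤ 0.62375 * ‖Xf β r h t 0‖ := by
  have hr := rgR (a := 0) (τ1 := 0.6806) (τm := 0.7854) H.h1 H.h2 h1 h2 (by norm_num) (by norm_num) (by norm_num)
  rw [add_zero, ← H.hs] at hr
  obtain ⟨ha, hb⟩ := hr
  have hD := H.dom' (t' := t) (by linarith) (by linarith)
  have hk1 := B.hk1
  have hk2 := B.hk2
  have hk0 := H.k0
  have hy1 : 0.272 ≤ sy κ t := syR_ge hD 0.9 1 0.6806 0.272 1.31258 1.31259 0.35702 0.3967 hk1 hk2 (by linarith) (by norm_num) (by norm_num)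
    (expn_ge (by norm_num) (by norm_num)) (expn_le (by norm_num) (by norm_num) (by norm_num)) (by norm_num)
    (by norm_num) (by norm_num) (by norm_num) (by norm_num) (by norm_num) (by norm_num)
  have hy2 : sy κ t ≤ 0.315 := syR_le hD 0.9 1 0.7854 0.315 1.37025 0.4196 0.43162 0.4796 hk1 hk2 (by linarith) (by norm_num) (by norm_num)
    (expn_ge (by norm_num) (by norm_num)) (by norm_num) (by norm_num) (Or.inr ((mul_le_mul_of_nonneg_left (expn_le (E := 1.37026) (by norm_num) (by norm_num) (by norm_num)) (by norm_num)).trans (by norm_num))) (by norm_num) (by norm_num) (by norm_num)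
  have hX := H.x1up hD (ε := 0.06) (c := 0.4218) (d := 1.0622) (U := 1.0442) (by norm_num) (JB6_k1b hD H.hβ H.hk1 H.hk2 (by linarith) (by linarith) H.ble H.bc')
    (VR_box6 hD 0.77 0.4218 0.9 0.5 0.49723 0.6806 0.7854 _ _ _ _ _ ha hb (by norm_num) B.hk1 B.hψ B.hψ1 (by norm_num) (by norm_num) (by norm_num) rfl rfl (by norm_num) rfl rfl rfl (by norm_num) (by norm_num))
    (by norm_num) (D_lo6 hD 0.9 1 0.272 0.315 0.272 0.76185 1.0622 hk1 hk2 (by norm_num) hy1 hy2 (expm_ge (by norm_num) (by norm_num) (by norm_num) (by norm_num)) (by norm_num) (by norm_num) (by norm_num) (by norm_num) (by norm_num) (by norm_num)) (by norm_num) (by norm_num)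
  have e0 : s ^ 2 = (s + 0) ^ 2 := by ring
  rw [e0] at hX
  exact cmpT (eN_pos r κ) hX (x0lo2 H B (by linarith) (by linarith)) B.hT (by norm_num) (qD (a := 0) (s1 := 0.65) (q := 0.11198) (by norm_num) (by norm_num) h1 (by linarith) (by norm_num) (by norm_num)) (by norm_num)
    (expn 0 0.6139 (by norm_num) (by norm_num) (E := 0.54322) (by norm_num) (by norm_num)) (by norm_num) (by norm_num) (by norm_num)


theorem x2R2 (H : D6 β r t κ s h T) (B : BX6 0.9 1 0.5 0.49723 10 0.1 5.4831 β r κ T) (h1 : 0.65 ≤ s) (h2 : s ≤ 0.75) :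
    ‖Xf β r h (t) 2‖ ≤ (0.0303 + 0.011562) * ‖Xf β r h t 0‖ := by
  have hr := rgR (a := 1) (τ1 := 1.7278) (τm := 1.8326) H.h1 H.h2 h1 h2 (by norm_num) (by norm_num) (by norm_num)
  have e : s + ((2 : ℤ) : ℝ) - 1 = s + 1 := by push_cast; ring
  exact cellR (k := 2) (Y := ‖Xf β r h t 0‖) (g := 0.5406 * (s - 1) ^ 2) 0.44 0.3172 0.9 1 0.5 0.49723 1.7278 1.8326 _ _ _ _ _ 0.19901 2.1807 10 0.1 0.4206 0.3756 0.9526 0.9094 0.79735 5.4831 0.012635 0.0303 1.09663 0.06623 0.7647 0.9598 3.1623 0.002935 0.011562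
    H.hβ H.hκ H.hs H.hT H.h0 H.hq2 (by norm_num) B.hk1 B.hk2 B.hψ B.hψ1 (by rw [e]; have h5 := hr.2; have h6 := B.hk1; have h7 := Real.pi_gt_d6; norm_num at h5 h6 h7 ⊢; linarith) (by rw [e]; exact hr.1) (by rw [e]; exact hr.2)
    B.hR B.hb B.hT (x0lo2 H B (by linarith) (by linarith)) (by positivity) (gD (by norm_num) (by linarith : 0.65 ≤ s) (by linarith) (by norm_num))
    (by rw [e]; exact qD (s1 := 0.65) (by norm_num) (by norm_num) h1 (by linarith) (by norm_num) (by norm_num))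
    (by norm_num) (by norm_num) (by norm_num) (by norm_num) rfl rfl (by norm_num) rfl rfl rfl (by norm_num) (by norm_num) (by norm_num) (by norm_num) (by norm_num) (by norm_num) (by norm_num) (by norm_num) (by norm_num) (by norm_num) (by norm_num) (by norm_num) (by norm_num) (by norm_num) (by norm_num) (by norm_num) (by norm_num) (by norm_num) (by norm_num)
    (expn 4 0.3719 (by norm_num) (by norm_num) (E := 0.012635) (by norm_num) (by norm_num)) (by norm_num) (by norm_num) (by norm_num) (by norm_num) (by norm_num) (by norm_num) (by norm_num) (by norm_num)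
    (expn 5 0.8419 (by norm_num) (by norm_num) (E := 0.002935) (by norm_num) (by norm_num)) (by norm_num) (by norm_num)


theorem outR2 (H : D6 β r t κ s h T) (B : BX6 0.9 1 0.5 0.49723 10 0.1 5.4831 β r κ T) (h1 : 0.65 ≤ s) (h2 : s ≤ 0.75) :
    oth6 β r h t + ‖Xf β r h t 1‖ < ‖Xf β r h t 0‖ := by
  have g1 := xm2R H B (by linarith) (by linarith)
  have g2 := xm1R1 H B (by linarith) (by linarith)
  have g3 := x1R2 H B h1 h2
  have g4 := x2R2 H B h1 h2
  have g5 := x3R H B (by linarith) (by linarith)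
  have hY := lt_of_lt_of_le (mul_pos (eN_pos r κ) (by positivity)) (x0lo2 H B h1 h2)
  unfold oth6
  norm_num at g1 g2 g3 g4 g5 ⊢
  linarith

theorem x0lo3 (H : D6 β r t κ s h T) (B : BX6 0.9 1 0.5 0.49723 10 0.1 5.4831 β r κ T) (h1 : 0.75 ≤ s) (h2 : s ≤ 1) :
    eN r κ * (0.915 * Real.exp (-(T * (0.5282 * (s - 1) ^ 2)))) ≤ ‖Xf β r h t 0‖ := by
  have hr := rgL (a := (-1)) (b1 := 0) (b2 := 0.2618) H.h1 H.h2 h1 h2 (by norm_num) (by norm_num) (by norm_num)
  have e : (s + -1) * h = (t - h) + κ := by rw [H.a0]; ring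
  rw [e] at hr
  obtain ⟨ha, hb⟩ := hr
  have hD := H.dom' (t' := t - h) (by linarith) (by linarith)
  have hk1 := B.hk1
  have hk2 := B.hk2
  have hk0 := H.k0
  have hy1 : -0.141 ≤ sy κ (t - h) := syL_ge hD 0.9 1 0.2618 0.141 0.86848 0.86849 0.1224 0.12245 0.13607 hk1 hk2 (by linarith) (by norm_num) (by norm_num) (by norm_num)
    (expm_ge (by norm_num) (by norm_num) (by norm_num) (by norm_num)) (expm_le (by norm_num) (by norm_num) (by norm_num)) (by norm_num)
    (by norm_num) (by norm_num) (by norm_num) (by norm_num) (by norm_num) (by norm_num)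
  have hy2 : sy κ (t - h) ≤ 0 := sy_nonpos hD (by linarith)
  exact H.x0lo hD (ε := 0.08) (c := 0.5282) (d := 1.0219) (l := 0.915) (by norm_num) (JB6_k0a hD H.hβ H.hk1 H.hk2 (by linarith) (by linarith) H.ble H.bc')
    (V0_lo hD 0.5282 0.2618 0.1004 0.1251 0.1687 0.5 (by linarith) (by linarith) (by norm_num) (fa1 B) (fa2 B) (fa3 B) (fa4 H B) (by norm_num) (by norm_num) (by norm_num) (by norm_num) (by norm_num))
    (D_up6 hD 0.9 1 (-0.141) 0 1.15143 1 1.0219 hk1 hk2 (by norm_num) hy1 hy2 (by norm_num) (by rw [neg_neg]; exact expn_le (by norm_num) (by norm_num) (by norm_num)) (by simp) (by norm_num) (by norm_num) (by norm_num) (by norm_num)) (by norm_num) (by norm_num)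


theorem x1R3 (H : D6 β r t κ s h T) (B : BX6 0.9 1 0.5 0.49723 10 0.1 5.4831 β r κ T) (h1 : 0.75 ≤ s) (h2 : s ≤ 1) :
    ‖Xf β r h t 1‖ ≤ 0.40102 * ‖Xf β r h t 0‖ := by
  have hr := rgR (a := 0) (τ1 := 0.7853) (τm := 1.0472) H.h1 H.h2 h1 h2 (by norm_num) (by norm_num) (by norm_num)
  rw [add_zero, ← H.hs] at hr
  obtain ⟨ha, hb⟩ := hr
  have hD := H.dom' (t' := t) (by linarith) (by linarith)
  have hk1 := B.hk1
  have hk2 := B.hk2
  have hk0 := H.k0
  have hy1 : 0.303 ≤ sy κ t := syR_ge hD 0.9 1 0.7853 0.303 1.35391 1.35392 0.41023 0.45582 hk1 hk2 (by linarith) (by norm_num) (by norm_num)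
    (expn_ge (by norm_num) (by norm_num)) (expn_le (by norm_num) (by norm_num) (by norm_num)) (by norm_num)
    (by norm_num) (by norm_num) (by norm_num) (by norm_num) (by norm_num) (by norm_num)
  have hy2 : sy κ t ≤ 0.389 := syR_le hD 0.9 1 1.0472 0.389 1.4755 0.558 0.57396 0.63775 hk1 hk2 (by linarith) (by norm_num) (by norm_num)
    (expn_ge (by norm_num) (by norm_num)) (by norm_num) (by norm_num) (Or.inr ((mul_le_mul_of_nonneg_left (expn_le (E := 1.47551) (by norm_num) (by norm_num) (by norm_num)) (by norm_num)).trans (by norm_num))) (by norm_num) (by norm_num) (by norm_num)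
  have hX := H.x1up hD (ε := 0.06) (c := 0.3968) (d := 1.0757) (U := 1.0409) (by norm_num) (JB6_k1b hD H.hβ H.hk1 H.hk2 (by linarith) (by linarith) H.ble H.bc')
    (VR_box6 hD 0.7 0.3968 0.9 0.5 0.49723 0.7853 1.0472 _ _ _ _ _ ha hb (by norm_num) B.hk1 B.hψ B.hψ1 (by norm_num) (by norm_num) (by norm_num) rfl rfl (by norm_num) rfl rfl rfl (by norm_num) (by norm_num))
    (by norm_num) (D_lo6 hD 0.9 1 0.303 0.389 0.303 0.73859 1.0757 hk1 hk2 (by norm_num) hy1 hy2 (expm_ge (by norm_num) (by norm_num) (by norm_num) (by norm_num)) (by norm_num) (by norm_num) (by norm_num) (by norm_num) (by norm_num) (by norm_num)) (by norm_num) (by norm_num)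
  have e0 : s ^ 2 = (s + 0) ^ 2 := by ring
  rw [e0] at hX
  exact cmpT (eN_pos r κ) hX (x0lo3 H B (by linarith) (by linarith)) B.hT (by norm_num) (qD (a := 0) (s1 := 0.75) (q := 0.19018) (by norm_num) (by norm_num) h1 (by linarith) (by norm_num) (by norm_num)) (by norm_num)
    (expn 1 0.0427 (by norm_num) (by norm_num) (E := 0.35251) (by norm_num) (by norm_num)) (by norm_num) (by norm_num) (by norm_num)


theorem x2R3 (H : D6 β r t κ s h T) (B : BX6 0.9 1 0.5 0.49723 10 0.1 5.4831 β r κ T) (h1 : 0.75 ≤ s) (h2 : s ≤ 1) :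
    ‖Xf β r h (t) 2‖ ≤ (0.01972 + 0.007389) * ‖Xf β r h t 0‖ := by
  have hr := rgR (a := 1) (τ1 := 1.8325) (τm := 2.0944) H.h1 H.h2 h1 h2 (by norm_num) (by norm_num) (by norm_num)
  have e : s + ((2 : ℤ) : ℝ) - 1 = s + 1 := by push_cast; ring
  exact cellR (k := 2) (Y := ‖Xf β r h t 0‖) (g := 0.5282 * (s - 1) ^ 2) 0.41 0.3004 0.9 1 0.5 0.49723 1.8325 2.0944 _ _ _ _ _ 0.15875 2.3075 10 0.1 0.4206 0.3503 0.9747 0.915 0.88696 5.4831 0.0078174 0.01972 1.09663 0.03302 0.7694 0.9799 3.1623 0.0018444 0.007389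
    H.hβ H.hκ H.hs H.hT H.h0 H.hq2 (by norm_num) B.hk1 B.hk2 B.hψ B.hψ1 (by rw [e]; have h5 := hr.2; have h6 := B.hk1; have h7 := Real.pi_gt_d6; norm_num at h5 h6 h7 ⊢; linarith) (by rw [e]; exact hr.1) (by rw [e]; exact hr.2)
    B.hR B.hb B.hT (x0lo3 H B (by linarith) (by linarith)) (by positivity) (gD (by norm_num) (by linarith : 0.75 ≤ s) (by linarith) (by norm_num))
    (by rw [e]; exact qD (s1 := 0.75) (by norm_num) (by norm_num) h1 (by linarith) (by norm_num) (by norm_num))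
    (by norm_num) (by norm_num) (by norm_num) (by norm_num) rfl rfl (by norm_num) rfl rfl rfl (by norm_num) (by norm_num) (by norm_num) (by norm_num) (by norm_num) (by norm_num) (by norm_num) (by norm_num) (by norm_num) (by norm_num) (by norm_num) (by norm_num) (by norm_num) (by norm_num) (by norm_num) (by norm_num) (by norm_num) (by norm_num) (by norm_num)
    (expn 4 0.8632 (by norm_num) (by norm_num) (E := 0.0078174) (by norm_num) (by norm_num)) (by norm_num) (by norm_num) (by norm_num) (by norm_num) (by norm_num) (by norm_num) (by norm_num) (by norm_num)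
    (expn 6 0.2959 (by norm_num) (by norm_num) (E := 0.0018444) (by norm_num) (by norm_num)) (by norm_num) (by norm_num)


theorem outR3 (H : D6 β r t κ s h T) (B : BX6 0.9 1 0.5 0.49723 10 0.1 5.4831 β r κ T) (h1 : 0.75 ≤ s) (h2 : s ≤ 1) :
    oth6 β r h t + ‖Xf β r h t 1‖ < ‖Xf β r h t 0‖ := by
  have g1 := xm2R H B (by linarith) (by linarith)
  have g2 := xm1R1 H B (by linarith) (by linarith)
  have g3 := x1R3 H B h1 h2
  have g4 := x2R3 H B h1 h2
  have g5 := x3R H B (by linarith) (by linarith)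
  have hY := lt_of_lt_of_le (mul_pos (eN_pos r κ) (by positivity)) (x0lo3 H B h1 h2)
  unfold oth6
  norm_num at g1 g2 g3 g4 g5 ⊢
  linarith

end Sok.B6K4
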