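import Pool.Agent.Lib.MP_816dec_an.JBG2

/-!
MP_816dec_an (A3, row R1): discs of radius .15 around the saddle of the copy 0, b = 6.
-/

set_option autoImplicit false
set_option maxHeartbeats 4000000

open Complex Set

namespace Sok

private theorem JD6a_p0_c0_b0_0 {β x y : ℝ} (hβ : 0 < β) (hN : β * 29.411 ≤ 1) (hx1 : 0.1116 ≤ x) (hx2 : x ≤ 0.2916)
    (hy1 : -0.376 ≤ y) (hy2 : y ≤ 0.008) : ‖HH β (x + y * I) - 1‖ ≤ 0.08 := by
  refine le_epsJ (C := 2.328) (N0 := 29.411) (J_boxp 0.1116 0.2916 0.376 0.008 0.008 0.5216 0.4759 1.0494 2.7194 0.4087 5.4232 29.411 0.9124 3.558 1.514 0.9608 0.2607 0.1814 0.4529 2.7056 0.203 0.6537 0.7375 3.6039 0.0004684 0.004821 0.000001642 0.0000003101 0.002563 0.0000003101 0.0000003101 0.0000003101 2.328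
    hβ hN hx1 hx2 hy1 hy2 (by norm_num) (by norm_num) (by linarith) (by norm_num) (by norm_num) (by norm_num) (by norm_num) (by norm_num) (by norm_num) (by norm_num) (by norm_num) (by norm_num) (by norm_num) (by norm_num) (by norm_num) (by norm_num) (by norm_num) (by norm_num) (by norm_num) (by norm_num) (by norm_num) (by norm_num) (by norm_num) (by norm_num)
    (cube_sqrt_geJ (s := 0.8341) (by norm_num) (by norm_num) (by norm_num) (by norm_num))
    (cube_sqrt_geJ (s := 0.9424) (by norm_num) (by norm_num) (by norm_num) (by norm_num))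
    (by norm_num) (by norm_num) (by norm_num) (by norm_num) (by norm_num) (by norm_num) (by norm_num) (by norm_num) (by norm_num) (by norm_num) (by norm_num) (by norm_num) (by norm_num) (by norm_num) (by norm_num) (by norm_num) (by norm_num) (by norm_num)
    (exp_neg_leJ (r := 0.667) 7 (by norm_num) (by norm_num) (by norm_num) (by norm_num))
    (exp_neg_leJ (r := 0.335) 5 (by norm_num) (by norm_num) (by norm_num) (by norm_num))
    (exp_neg_leJ (r := 0.32) 13 (by norm_num) (by norm_num) (by norm_num) (by norm_num))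
    (exp_neg_leJ (r := 0.99) 14 (by norm_num) (by norm_num) (by norm_num) (by norm_num))
    (exp_neg_leJ (r := 0.97) 5 (by norm_num) (by norm_num) (by norm_num) (by norm_num))
    (exp_neg_leJ (r := 0.99) 14 (by norm_num) (by norm_num) (by norm_num) (by norm_num))
    (exp_neg_leJ (r := 0.99) 14 (by norm_num) (by norm_num) (by norm_num) (by norm_num))
    (exp_neg_leJ (r := 0.99) 14 (by norm_num) (by norm_num) (by norm_num) (by norm_num))
    (by norm_num)) (by norm_num) hN hβ.le (by norm_num)

private theorem JD6a_p0_c0_b0_1 {β x y : ℝ} (hβ : 0 < β) (hN : β * 29.411 ≤ 1) (hx1 : 0.2916 ≤ x) (hx2 : x ≤ 0.5519)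
    (hy1 : -0.376 ≤ y) (hy2 : y ≤ 0.008) : ‖HH β (x + y * I) - 1‖ ≤ 0.08 := by
  refine le_epsJ (C := 2.2036) (N0 := 29.411) (J_boxp 0.2916 0.5519 0.376 0.008 0.008 0.6484 0.6679 1.1492 2.0533 0.4277 5.4232 29.411 1.0301 4.359 1.604 0.8607 0.3241 0.2128 0.5145 2.5735 0.2904 0.9029 1.0975 3.442 0.00007252 0.001916 0.0000003101 0.0000003101 0.0001956 0.0000003101 0.0000003101 0.0000003101 2.2036
    hβ hN hx1 hx2 hy1 hy2 (by norm_num) (by norm_num) (by linarith) (by norm_num) (by norm_num) (by norm_num) (by norm_num) (by norm_num) (by norm_num) (by norm_num) (by norm_num) (by norm_num) (by norm_num) (by norm_num) (by norm_num) (by norm_num) (by norm_num) (by norm_num) (by norm_num) (by norm_num) (by norm_num) (by norm_num) (by norm_num) (by norm_num)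
    (cube_sqrt_geJ (s := 0.8103) (by norm_num) (by norm_num) (by norm_num) (by norm_num))
    (cube_sqrt_geJ (s := 0.9348) (by norm_num) (by norm_num) (by norm_num) (by norm_num))
    (by norm_num) (by norm_num) (by norm_num) (by norm_num) (by norm_num) (by norm_num) (by norm_num) (by norm_num) (by norm_num) (by norm_num) (by norm_num) (by norm_num) (by norm_num) (by norm_num) (by norm_num) (by norm_num) (by norm_num) (by norm_num)
    (exp_neg_leJ (r := 0.532) 9 (by norm_num) (by norm_num) (by norm_num) (by norm_num))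
    (exp_neg_leJ (r := 0.258) 6 (by norm_num) (by norm_num) (by norm_num) (by norm_num))
    (exp_neg_leJ (r := 0.99) 14 (by norm_num) (by norm_num) (by norm_num) (by norm_num))
    (exp_neg_leJ (r := 0.99) 14 (by norm_num) (by norm_num) (by norm_num) (by norm_num))
    (exp_neg_leJ (r := 0.54) 8 (by norm_num) (by norm_num) (by norm_num) (by norm_num))
    (exp_neg_leJ (r := 0.99) 14 (by norm_num) (by norm_num) (by norm_num) (by norm_num))
    (exp_neg_leJ (r := 0.99) 14 (by norm_num) (by norm_num) (by norm_num) (by norm_num))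
    (exp_neg_leJ (r := 0.99) 14 (by norm_num) (by norm_num) (by norm_num) (by norm_num))
    (by norm_num)) (by norm_num) hN hβ.le (by norm_num)

private theorem JD6a_p0_c0 {κ t β : ℝ} (h : DomR κ t) (hβ : 0 < β) (hk1 : 0.3 ≤ κ) (hk2 : κ ≤ 0.34)
    (ht1 : -0.576 ≤ t + κ) (ht2 : t + κ ≤ -0.4398) (hR0 : β * 10 ≤ κ) (hR : β * (4.95 * (1 + κ ^ 2)) ≤ κ) :
    ∀ s : ℂ, ‖s - sg κ t‖ ≤ 0.15 → ‖HH β s - 1‖ ≤ 0.08 := by
  have hN : β * 29.411 ≤ 1 := bNR hβ h.1 hk2 hR0 (by norm_num)
  have hy1 : -0.226 ≤ sy κ t := syL_ge2 h 0.3 0.34 0.576 0.226 0.79771 0.79772 0.5243 0.53024 0.60095 hk1 hk2 (by linarith) (by norm_num) (by norm_num) (by norm_num)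
    (expm_ge (by norm_num) (by norm_num) (by norm_num) (by norm_num)) (expm_le (by norm_num) (by norm_num) (by norm_num)) (by norm_num)
    (by norm_num) (by norm_num) (by norm_num) (by norm_num) (by norm_num) (by norm_num)
  have hy2 : sy κ t ≤ -0.142 := syL_le h 0.3 0.34 0.4398 0.142 0.86762 0.86763 0.36235 0.41068 hk1 hk2 (by linarith) (by norm_num) (by norm_num) (by norm_num)
    (expm_ge (by norm_num) (by norm_num) (by norm_num) (by norm_num)) (expm_le (by norm_num) (by norm_num) (by norm_num)) (by norm_num)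
    (by norm_num) (by norm_num) (by norm_num) (by norm_num) (by norm_num) (by norm_num)
  have hx1 : 0.2616 ≤ sx κ t := sx_lo h 0.3 (-0.142) 0.226 1.15257 0.2616 hk1 (by norm_num) hy2 (abs_le.2 ⟨by linarith, by linarith⟩) (by rw [neg_neg]; exact expn_ge (by norm_num) (by norm_num)) (by norm_num) (by norm_num)
  have hx2 : sx κ t ≤ 0.4019 := sx_hi h 0.34 (-0.226) 0.142 1.25358 0.4019 hk2 hy1 (by norm_num) (by rw [abs_of_nonpos (by linarith)]; linarith) (by rw [neg_neg]; exact expn_le (by norm_num) (by norm_num) (by norm_num)) (by norm_num) (by norm_num)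
  intro s hs
  have hs' : ‖s - ((sx κ t : ℂ) + (sy κ t : ℂ) * I)‖ ≤ 0.15 := hs
  obtain ⟨es, ⟨s1, s2⟩, ⟨s3, s4⟩⟩ := disc_split hs'
  have X1 : 0.1116 ≤ s.re := by linarith
  have X2 : s.re ≤ 0.5519 := by linarith
  have Y1 : (-0.376) ≤ s.im := by linarith
  have Y2 : s.im ≤ 0.008 := by linarith
  rw [es]
  rcases le_total s.re 0.2916 with u0 | v0
  · exact JD6a_p0_c0_b0_0 hβ hN (by linarith) (by linarith) (by linarith) (by linarith)
  exact JD6a_p0_c0_b0_1 hβ hN (by linarith) (by linarith) (by linarith) (by linarith)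

private theorem JD6a_p0_c1_b0_0 {β x y : ℝ} (hβ : 0 < β) (hN : β * 26.315 ≤ 1) (hx1 : 0.1593 ≤ x) (hx2 : x ≤ 0.2393)
    (hy1 : -0.402 ≤ y) (hy2 : y ≤ -0.01) : ‖HH β (x + y * I) - 1‖ ≤ 0.08 := by
  refine le_epsJ (C := 2.0689) (N0 := 26.315) (J_boxp 0.1593 0.2393 0.402 0 (-0.01) 0.5367 0.4679 1.0186 2.5669 0.4027 5.1299 26.315 0.8719 3.327 1.485 0.957 0.2683 0.1903 0.4282 2.6422 0.2127 0.7205 0.7965 3.7588 0.0008588 0.006692 0.00001278 0.0000003101 0.003711 0.0000003101 0.0000003101 0.0000003101 2.0689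
    hβ hN hx1 hx2 hy1 hy2 (by norm_num) (by norm_num) (by linarith) (by norm_num) (by norm_num) (by norm_num) (by norm_num) (by norm_num) (by norm_num) (by norm_num) (by norm_num) (by norm_num) (by norm_num) (by norm_num) (by norm_num) (by norm_num) (by norm_num) (by norm_num) (by norm_num) (by norm_num) (by norm_num) (by norm_num) (by norm_num) (by norm_num)
    (cube_sqrt_geJ (s := 0.8422) (by norm_num) (by norm_num) (by norm_num) (by norm_num))
    (cube_sqrt_geJ (s := 0.9451) (by norm_num) (by norm_num) (by norm_num) (by norm_num))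
    (by norm_num) (by norm_num) (by norm_num) (by norm_num) (by norm_num) (by norm_num) (by norm_num) (by norm_num) (by norm_num) (by norm_num) (by norm_num) (by norm_num) (by norm_num) (by norm_num) (by norm_num) (by norm_num) (by norm_num) (by norm_num)
    (exp_neg_leJ (r := 0.06) 7 (by norm_num) (by norm_num) (by norm_num) (by norm_num))
    (exp_neg_leJ (r := 0.007) 5 (by norm_num) (by norm_num) (by norm_num) (by norm_num))
    (exp_neg_leJ (r := 0.268) 11 (by norm_num) (by norm_num) (by norm_num) (by norm_num))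
    (exp_neg_leJ (r := 0.99) 14 (by norm_num) (by norm_num) (by norm_num) (by norm_num))
    (exp_neg_leJ (r := 0.597) 5 (by norm_num) (by norm_num) (by norm_num) (by norm_num))
    (exp_neg_leJ (r := 0.99) 14 (by norm_num) (by norm_num) (by norm_num) (by norm_num))
    (exp_neg_leJ (r := 0.99) 14 (by norm_num) (by norm_num) (by norm_num) (by norm_num))
    (exp_neg_leJ (r := 0.99) 14 (by norm_num) (by norm_num) (by norm_num) (by norm_num))
    (by norm_num)) (by norm_num) hN hβ.le (by norm_num)

private theorem JD6a_p0_c1_b0_1 {β x y : ℝ} (hβ : 0 < β) (hN : β * 26.315 ≤ 1) (hx1 : 0.2393 ≤ x) (hx2 : x ≤ 0.3893)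
    (hy1 : -0.402 ≤ y) (hy2 : y ≤ -0.01) : ‖HH β (x + y * I) - 1‖ ≤ 0.08 := by
  refine le_epsJ (C := 2.0485) (N0 := 26.315) (J_boxp 0.2393 0.3893 0.402 0 (-0.01) 0.5931 0.5597 1.0638 2.2581 0.4115 5.1299 26.315 0.9437 3.751 1.537 0.8993 0.2965 0.2032 0.4556 2.5712 0.2516 0.8313 0.9565 3.6692 0.0004096 0.004763 0.000006235 0.0000003101 0.001335 0.0000003101 0.0000003101 0.0000003101 2.0485
    hβ hN hx1 hx2 hy1 hy2 (by norm_num) (by norm_num) (by linarith) (by norm_num) (by norm_num) (by norm_num) (by norm_num) (by norm_num) (by norm_num) (by norm_num) (by norm_num) (by norm_num) (by norm_num) (by norm_num) (by norm_num) (by norm_num) (by norm_num) (by norm_num) (by norm_num) (by norm_num) (by norm_num) (by norm_num) (by norm_num) (by norm_num)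
    (cube_sqrt_geJ (s := 0.8279) (by norm_num) (by norm_num) (by norm_num) (by norm_num))
    (cube_sqrt_geJ (s := 0.9404) (by norm_num) (by norm_num) (by norm_num) (by norm_num))
    (by norm_num) (by norm_num) (by norm_num) (by norm_num) (by norm_num) (by norm_num) (by norm_num) (by norm_num) (by norm_num) (by norm_num) (by norm_num) (by norm_num) (by norm_num) (by norm_num) (by norm_num) (by norm_num) (by norm_num) (by norm_num)
    (exp_neg_leJ (r := 0.802) 7 (by norm_num) (by norm_num) (by norm_num) (by norm_num))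
    (exp_neg_leJ (r := 0.347) 5 (by norm_num) (by norm_num) (by norm_num) (by norm_num))
    (exp_neg_leJ (r := 0.989) 11 (by norm_num) (by norm_num) (by norm_num) (by norm_num))
    (exp_neg_leJ (r := 0.99) 14 (by norm_num) (by norm_num) (by norm_num) (by norm_num))
    (exp_neg_leJ (r := 0.62) 6 (by norm_num) (by norm_num) (by norm_num) (by norm_num))
    (exp_neg_leJ (r := 0.99) 14 (by norm_num) (by norm_num) (by norm_num) (by norm_num))
    (exp_neg_leJ (r := 0.99) 14 (by norm_num) (by norm_num) (by norm_num) (by norm_num))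
    (exp_neg_leJ (r := 0.99) 14 (by norm_num) (by norm_num) (by norm_num) (by norm_num))
    (by norm_num)) (by norm_num) hN hβ.le (by norm_num)

private theorem JD6a_p0_c1_b0_2 {β x y : ℝ} (hβ : 0 < β) (hN : β * 26.315 ≤ 1) (hx1 : 0.3893 ≤ x) (hx2 : x ≤ 0.612)
    (hy1 : -0.402 ≤ y) (hy2 : y ≤ -0.01) : ‖HH β (x + y * I) - 1‖ ≤ 0.08 := by
  refine le_epsJ (C := 2.1017) (N0 := 26.315) (J_boxp 0.3893 0.612 0.402 0 (-0.01) 0.6987 0.7323 1.1639 1.8473 0.4304 5.1299 26.315 1.0481 4.502 1.618 0.8136 0.3493 0.2272 0.507 2.456 0.3245 1.039 1.2565 3.5 0.000102 0.002543 0.000001608 0.0000003101 0.0001958 0.0000003101 0.0000003101 0.0000003101 2.1017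
    hβ hN hx1 hx2 hy1 hy2 (by norm_num) (by norm_num) (by linarith) (by norm_num) (by norm_num) (by norm_num) (by norm_num) (by norm_num) (by norm_num) (by norm_num) (by norm_num) (by norm_num) (by norm_num) (by norm_num) (by norm_num) (by norm_num) (by norm_num) (by norm_num) (by norm_num) (by norm_num) (by norm_num) (by norm_num) (by norm_num) (by norm_num)
    (cube_sqrt_geJ (s := 0.8066) (by norm_num) (by norm_num) (by norm_num) (by norm_num))
    (cube_sqrt_geJ (s := 0.9336) (by norm_num) (by norm_num) (by norm_num) (by norm_num))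
    (by norm_num) (by norm_num) (by norm_num) (by norm_num) (by norm_num) (by norm_num) (by norm_num) (by norm_num) (by norm_num) (by norm_num) (by norm_num) (by norm_num) (by norm_num) (by norm_num) (by norm_num) (by norm_num) (by norm_num) (by norm_num)
    (exp_neg_leJ (r := 0.191) 9 (by norm_num) (by norm_num) (by norm_num) (by norm_num))
    (exp_neg_leJ (r := 0.978) 5 (by norm_num) (by norm_num) (by norm_num) (by norm_num))
    (exp_neg_leJ (r := 0.341) 13 (by norm_num) (by norm_num) (by norm_num) (by norm_num))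
    (exp_neg_leJ (r := 0.99) 14 (by norm_num) (by norm_num) (by norm_num) (by norm_num))
    (exp_neg_leJ (r := 0.539) 8 (by norm_num) (by norm_num) (by norm_num) (by norm_num))
    (exp_neg_leJ (r := 0.99) 14 (by norm_num) (by norm_num) (by norm_num) (by norm_num))
    (exp_neg_leJ (r := 0.99) 14 (by norm_num) (by norm_num) (by norm_num) (by norm_num))
    (exp_neg_leJ (r := 0.99) 14 (by norm_num) (by norm_num) (by norm_num) (by norm_num))
    (by norm_num)) (by norm_num) hN hβ.le (by norm_num)

private theorem JD6a_p0_c1 {κ t β : ℝ} (h : DomR κ t) (hβ : 0 < β) (hk1 : 0.34 ≤ κ) (hk2 : κ ≤ 0.38)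
    (ht1 : -0.576 ≤ t + κ) (ht2 : t + κ ≤ -0.4398) (hR0 : β * 10 ≤ κ) (hR : β * (4.95 * (1 + κ ^ 2)) ≤ κ) :
    ∀ s : ℂ, ‖s - sg κ t‖ ≤ 0.15 → ‖HH β s - 1‖ ≤ 0.08 := by
  have hN : β * 26.315 ≤ 1 := bNR hβ h.1 hk2 hR0 (by norm_num)
  have hy1 : -0.252 ≤ sy κ t := syL_ge2 h 0.34 0.38 0.576 0.252 0.77724 0.77725 0.5053 0.51543 0.57608 hk1 hk2 (by linarith) (by norm_num) (by norm_num) (by norm_num)
    (expm_ge (by norm_num) (by norm_num) (by norm_num) (by norm_num)) (expm_le (by norm_num) (by norm_num) (by norm_num)) (by norm_num)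
    (by norm_num) (by norm_num) (by norm_num) (by norm_num) (by norm_num) (by norm_num)
  have hy2 : sy κ t ≤ -0.16 := syL_le h 0.34 0.38 0.4398 0.16 0.85214 0.85215 0.35879 0.40102 hk1 hk2 (by linarith) (by norm_num) (by norm_num) (by norm_num)
    (expm_ge (by norm_num) (by norm_num) (by norm_num) (by norm_num)) (expm_le (by norm_num) (by norm_num) (by norm_num)) (by norm_num)
    (by norm_num) (by norm_num) (by norm_num) (by norm_num) (by norm_num) (by norm_num)
  have hx1 : 0.3093 ≤ sx κ t := sx_lo h 0.34 (-0.16) 0.252 1.17351 0.3093 hk1 (by norm_num) hy2 (abs_le.2 ⟨by linarith, by linarith⟩) (by rw [neg_neg]; exact expn_ge (by norm_num) (by norm_num)) (by norm_num) (by norm_num)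
  have hx2 : sx κ t ≤ 0.462 := sx_hi h 0.38 (-0.252) 0.16 1.2866 0.462 hk2 hy1 (by norm_num) (by rw [abs_of_nonpos (by linarith)]; linarith) (by rw [neg_neg]; exact expn_le (by norm_num) (by norm_num) (by norm_num)) (by norm_num) (by norm_num)
  intro s hs
  have hs' : ‖s - ((sx κ t : ℂ) + (sy κ t : ℂ) * I)‖ ≤ 0.15 := hs
  obtain ⟨es, ⟨s1, s2⟩, ⟨s3, s4⟩⟩ := disc_split hs'
  have X1 : 0.1593 ≤ s.re := by linarith
  have X2 : s.re ≤ 0.612 := by linarith
  have Y1 : (-0.402) ≤ s.im := by linarith
  have Y2 : s.im ≤ (-0.01) := by linarith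
  rw [es]
  rcases le_total s.re 0.2393 with u0 | v0
  · exact JD6a_p0_c1_b0_0 hβ hN (by linarith) (by linarith) (by linarith) (by linarith)
  rcases le_total s.re 0.3893 with u1 | v1
  · exact JD6a_p0_c1_b0_1 hβ hN (by linarith) (by linarith) (by linarith) (by linarith)
  exact JD6a_p0_c1_b0_2 hβ hN (by linarith) (by linarith) (by linarith) (by linarith)

private theorem JD6a_p0_c2_b0_0 {β x y : ℝ} (hβ : 0 < β) (hN : β * 23.255 ≤ 1) (hx1 : 0.206 ≤ x) (hx2 : x ≤ 0.216)
    (hy1 : -0.431 ≤ y) (hy2 : y ≤ -0.311) : ‖HH β (x + y * I) - 1‖ ≤ 0.08 := by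
  refine le_epsJ (C := 1.843) (N0 := 23.255) (J_boxp 0.206 0.216 0.431 0 (-0.311) 0.549 0.4821 0.7221 2.0891 0.3391 4.8224 23.255 0.8782 3.362 1.49 0.9391 0.2744 0.1941 0.3984 2.5545 0.2196 0.7852 0.8111 3.8136 0.001694 0.01097 0.00009478 0.0000003101 0.006061 0.0000003101 0.0000003101 0.0000003101 1.843
    hβ hN hx1 hx2 hy1 hy2 (by norm_num) (by norm_num) (by linarith) (by norm_num) (by norm_num) (by norm_num) (by norm_num) (by norm_num) (by norm_num) (by norm_num) (by norm_num) (by norm_num) (by norm_num) (by norm_num) (by norm_num) (by norm_num) (by norm_num) (by norm_num) (by norm_num) (by norm_num) (by norm_num) (by norm_num) (by norm_num) (by norm_num)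
    (cube_sqrt_geJ (s := 0.8409) (by norm_num) (by norm_num) (by norm_num) (by norm_num))
    (cube_sqrt_geJ (s := 0.9447) (by norm_num) (by norm_num) (by norm_num) (by norm_num))
    (by norm_num) (by norm_num) (by norm_num) (by norm_num) (by norm_num) (by norm_num) (by norm_num) (by norm_num) (by norm_num) (by norm_num) (by norm_num) (by norm_num) (by norm_num) (by norm_num) (by norm_num) (by norm_num) (by norm_num) (by norm_num)
    (exp_neg_leJ (r := 0.381) 6 (by norm_num) (by norm_num) (by norm_num) (by norm_num))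
    (exp_neg_leJ (r := 0.513) 4 (by norm_num) (by norm_num) (by norm_num) (by norm_num))
    (exp_neg_leJ (r := 0.264) 9 (by norm_num) (by norm_num) (by norm_num) (by norm_num))
    (exp_neg_leJ (r := 0.99) 14 (by norm_num) (by norm_num) (by norm_num) (by norm_num))
    (exp_neg_leJ (r := 0.106) 5 (by norm_num) (by norm_num) (by norm_num) (by norm_num))
    (exp_neg_leJ (r := 0.99) 14 (by norm_num) (by norm_num) (by norm_num) (by norm_num))
    (exp_neg_leJ (r := 0.99) 14 (by norm_num) (by norm_num) (by norm_num) (by norm_num))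
    (exp_neg_leJ (r := 0.99) 14 (by norm_num) (by norm_num) (by norm_num) (by norm_num))
    (by norm_num)) (by norm_num) hN hβ.le (by norm_num)

private theorem JD6a_p0_c2_b0_1 {β x y : ℝ} (hβ : 0 < β) (hN : β * 23.255 ≤ 1) (hx1 : 0.216 ≤ x) (hx2 : x ≤ 0.236)
    (hy1 : -0.431 ≤ y) (hy2 : y ≤ -0.311) : ‖HH β (x + y * I) - 1‖ ≤ 0.08 := by
  refine le_epsJ (C := 1.8157) (N0 := 23.255) (J_boxp 0.216 0.236 0.431 0 (-0.311) 0.5561 0.4914 0.7283 2.058 0.3405 4.8224 23.255 0.8837 3.392 1.494 0.9315 0.278 0.1961 0.4019 2.5459 0.2244 0.799 0.8311 3.8083 0.001559 0.01047 0.00008732 0.0000003101 0.005419 0.0000003101 0.0000003101 0.0000003101 1.8157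
    hβ hN hx1 hx2 hy1 hy2 (by norm_num) (by norm_num) (by linarith) (by norm_num) (by norm_num) (by norm_num) (by norm_num) (by norm_num) (by norm_num) (by norm_num) (by norm_num) (by norm_num) (by norm_num) (by norm_num) (by norm_num) (by norm_num) (by norm_num) (by norm_num) (by norm_num) (by norm_num) (by norm_num) (by norm_num) (by norm_num) (by norm_num)
    (cube_sqrt_geJ (s := 0.8399) (by norm_num) (by norm_num) (by norm_num) (by norm_num))
    (cube_sqrt_geJ (s := 0.9443) (by norm_num) (by norm_num) (by norm_num) (by norm_num))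
    (by norm_num) (by norm_num) (by norm_num) (by norm_num) (by norm_num) (by norm_num) (by norm_num) (by norm_num) (by norm_num) (by norm_num) (by norm_num) (by norm_num) (by norm_num) (by norm_num) (by norm_num) (by norm_num) (by norm_num) (by norm_num)
    (exp_neg_leJ (r := 0.464) 6 (by norm_num) (by norm_num) (by norm_num) (by norm_num))
    (exp_neg_leJ (r := 0.56) 4 (by norm_num) (by norm_num) (by norm_num) (by norm_num))
    (exp_neg_leJ (r := 0.346) 9 (by norm_num) (by norm_num) (by norm_num) (by norm_num))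
    (exp_neg_leJ (r := 0.99) 14 (by norm_num) (by norm_num) (by norm_num) (by norm_num))
    (exp_neg_leJ (r := 0.218) 5 (by norm_num) (by norm_num) (by norm_num) (by norm_num))
    (exp_neg_leJ (r := 0.99) 14 (by norm_num) (by norm_num) (by norm_num) (by norm_num))
    (exp_neg_leJ (r := 0.99) 14 (by norm_num) (by norm_num) (by norm_num) (by norm_num))
    (exp_neg_leJ (r := 0.99) 14 (by norm_num) (by norm_num) (by norm_num) (by norm_num))
    (by norm_num)) (by norm_num) hN hβ.le (by norm_num)

private theorem JD6a_p0_c2_b0_2 {β x y : ℝ} (hβ : 0 < β) (hN : β * 23.255 ≤ 1) (hx1 : 0.236 ≤ x) (hx2 : x ≤ 0.286)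
    (hy1 : -0.431 ≤ y) (hy2 : y ≤ -0.311) : ‖HH β (x + y * I) - 1‖ ≤ 0.08 := by
  refine le_epsJ (C := 1.8345) (N0 := 23.255) (J_boxp 0.236 0.286 0.431 0 (-0.311) 0.5702 0.5173 0.7461 2.0062 0.3446 4.8224 23.255 0.9073 3.528 1.511 0.9122 0.285 0.1988 0.4087 2.5235 0.2342 0.8267 0.8711 3.7779 0.001325 0.009828 0.00007457 0.0000003101 0.004315 0.0000003101 0.0000003101 0.0000003101 1.8345
    hβ hN hx1 hx2 hy1 hy2 (by norm_num) (by norm_num) (by linarith) (by norm_num) (by norm_num) (by norm_num) (by norm_num) (by norm_num) (by norm_num) (by norm_num) (by norm_num) (by norm_num) (by norm_num) (by norm_num) (by norm_num) (by norm_num) (by norm_num) (by norm_num) (by norm_num) (by norm_num) (by norm_num) (by norm_num) (by norm_num) (by norm_num)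
    (cube_sqrt_geJ (s := 0.8352) (by norm_num) (by norm_num) (by norm_num) (by norm_num))
    (cube_sqrt_geJ (s := 0.9428) (by norm_num) (by norm_num) (by norm_num) (by norm_num))
    (by norm_num) (by norm_num) (by norm_num) (by norm_num) (by norm_num) (by norm_num) (by norm_num) (by norm_num) (by norm_num) (by norm_num) (by norm_num) (by norm_num) (by norm_num) (by norm_num) (by norm_num) (by norm_num) (by norm_num) (by norm_num)
    (exp_neg_leJ (r := 0.627) 6 (by norm_num) (by norm_num) (by norm_num) (by norm_num))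
    (exp_neg_leJ (r := 0.623) 4 (by norm_num) (by norm_num) (by norm_num) (by norm_num))
    (exp_neg_leJ (r := 0.504) 9 (by norm_num) (by norm_num) (by norm_num) (by norm_num))
    (exp_neg_leJ (r := 0.99) 14 (by norm_num) (by norm_num) (by norm_num) (by norm_num))
    (exp_neg_leJ (r := 0.446) 5 (by norm_num) (by norm_num) (by norm_num) (by norm_num))
    (exp_neg_leJ (r := 0.99) 14 (by norm_num) (by norm_num) (by norm_num) (by norm_num))
    (exp_neg_leJ (r := 0.99) 14 (by norm_num) (by norm_num) (by norm_num) (by norm_num))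
    (exp_neg_leJ (r := 0.99) 14 (by norm_num) (by norm_num) (by norm_num) (by norm_num))
    (by norm_num)) (by norm_num) hN hβ.le (by norm_num)

private theorem JD6a_p0_c2_b0_3 {β x y : ℝ} (hβ : 0 < β) (hN : β * 23.255 ≤ 1) (hx1 : 0.286 ≤ x) (hx2 : x ≤ 0.376)
    (hy1 : -0.431 ≤ y) (hy2 : y ≤ -0.311) : ‖HH β (x + y * I) - 1‖ ≤ 0.08 := by
  refine le_epsJ (C := 1.8083) (N0 := 23.255) (J_boxp 0.286 0.376 0.431 0 (-0.311) 0.6054 0.572 0.785 1.881 0.3535 4.8224 23.255 0.9449 3.759 1.538 0.8776 0.3026 0.2073 0.4258 2.481 0.2584 0.8959 0.9711 3.7292 0.0008797 0.00808 0.00005025 0.0000003101 0.002457 0.0000003101 0.0000003101 0.0000003101 1.8083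
    hβ hN hx1 hx2 hy1 hy2 (by norm_num) (by norm_num) (by linarith) (by norm_num) (by norm_num) (by norm_num) (by norm_num) (by norm_num) (by norm_num) (by norm_num) (by norm_num) (by norm_num) (by norm_num) (by norm_num) (by norm_num) (by norm_num) (by norm_num) (by norm_num) (by norm_num) (by norm_num) (by norm_num) (by norm_num) (by norm_num) (by norm_num)
    (cube_sqrt_geJ (s := 0.8276) (by norm_num) (by norm_num) (by norm_num) (by norm_num))
    (cube_sqrt_geJ (s := 0.9403) (by norm_num) (by norm_num) (by norm_num) (by norm_num))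
    (by norm_num) (by norm_num) (by norm_num) (by norm_num) (by norm_num) (by norm_num) (by norm_num) (by norm_num) (by norm_num) (by norm_num) (by norm_num) (by norm_num) (by norm_num) (by norm_num) (by norm_num) (by norm_num) (by norm_num) (by norm_num)
    (exp_neg_leJ (r := 0.036) 7 (by norm_num) (by norm_num) (by norm_num) (by norm_num))
    (exp_neg_leJ (r := 0.82) 4 (by norm_num) (by norm_num) (by norm_num) (by norm_num))
    (exp_neg_leJ (r := 0.901) 9 (by norm_num) (by norm_num) (by norm_num) (by norm_num))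
    (exp_neg_leJ (r := 0.99) 14 (by norm_num) (by norm_num) (by norm_num) (by norm_num))
    (exp_neg_leJ (r := 0.009) 6 (by norm_num) (by norm_num) (by norm_num) (by norm_num))
    (exp_neg_leJ (r := 0.99) 14 (by norm_num) (by norm_num) (by norm_num) (by norm_num))
    (exp_neg_leJ (r := 0.99) 14 (by norm_num) (by norm_num) (by norm_num) (by norm_num))
    (exp_neg_leJ (r := 0.99) 14 (by norm_num) (by norm_num) (by norm_num) (by norm_num))
    (by norm_num)) (by norm_num) hN hβ.le (by norm_num)

private theorem JD6a_p0_c2_b0_4 {β x y : ℝ} (hβ : 0 < β) (hN : β * 23.255 ≤ 1) (hx1 : 0.376 ≤ x) (hx2 : x ≤ 0.516)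
    (hy1 : -0.431 ≤ y) (hy2 : y ≤ -0.311) : ‖HH β (x + y * I) - 1‖ ≤ 0.08 := by
  refine le_epsJ (C := 1.815) (N0 := 23.255) (J_boxp 0.376 0.516 0.431 0 (-0.311) 0.6687 0.6724 0.8609 1.6968 0.3702 4.8224 23.255 1.0056 4.175 1.584 0.8238 0.3343 0.2222 0.4566 2.4108 0.3022 1.0206 1.1511 3.6363 0.0004211 0.005702 0.00002449 0.0000003101 0.0008876 0.0000003101 0.0000003101 0.0000003101 1.815
    hβ hN hx1 hx2 hy1 hy2 (by norm_num) (by norm_num) (by linarith) (by norm_num) (by norm_num) (by norm_num) (by norm_num) (by norm_num) (by norm_num) (by norm_num) (by norm_num) (by norm_num) (by norm_num) (by norm_num) (by norm_num) (by norm_num) (by norm_num) (by norm_num) (by norm_num) (by norm_num) (by norm_num) (by norm_num) (by norm_num) (by norm_num)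
    (cube_sqrt_geJ (s := 0.8153) (by norm_num) (by norm_num) (by norm_num) (by norm_num))
    (cube_sqrt_geJ (s := 0.9364) (by norm_num) (by norm_num) (by norm_num) (by norm_num))
    (by norm_num) (by norm_num) (by norm_num) (by norm_num) (by norm_num) (by norm_num) (by norm_num) (by norm_num) (by norm_num) (by norm_num) (by norm_num) (by norm_num) (by norm_num) (by norm_num) (by norm_num) (by norm_num) (by norm_num) (by norm_num)
    (exp_neg_leJ (r := 0.774) 7 (by norm_num) (by norm_num) (by norm_num) (by norm_num))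
    (exp_neg_leJ (r := 0.167) 5 (by norm_num) (by norm_num) (by norm_num) (by norm_num))
    (exp_neg_leJ (r := 0.618) 10 (by norm_num) (by norm_num) (by norm_num) (by norm_num))
    (exp_neg_leJ (r := 0.99) 14 (by norm_num) (by norm_num) (by norm_num) (by norm_num))
    (exp_neg_leJ (r := 0.027) 7 (by norm_num) (by norm_num) (by norm_num) (by norm_num))
    (exp_neg_leJ (r := 0.99) 14 (by norm_num) (by norm_num) (by norm_num) (by norm_num))
    (exp_neg_leJ (r := 0.99) 14 (by norm_num) (by norm_num) (by norm_num) (by norm_num))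
    (exp_neg_leJ (r := 0.99) 14 (by norm_num) (by norm_num) (by norm_num) (by norm_num))
    (by norm_num)) (by norm_num) hN hβ.le (by norm_num)

private theorem JD6a_p0_c2_b0_5 {β x y : ℝ} (hβ : 0 < β) (hN : β * 23.255 ≤ 1) (hx1 : 0.516 ≤ x) (hx2 : x ≤ 0.6914)
    (hy1 : -0.431 ≤ y) (hy2 : y ≤ -0.311) : ‖HH β (x + y * I) - 1‖ ≤ 0.08 := by
  refine le_epsJ (C := 1.7502) (N0 := 23.255) (J_boxp 0.516 0.6914 0.431 0 (-0.311) 0.7673 0.8148 0.9761 1.47 0.3942 4.8224 23.255 1.062 4.616 1.629 0.7563 0.3836 0.2478 0.5045 2.3183 0.3702 1.2144 1.4311 3.5292 0.0001341 0.003149 0.000008041 0.0000003101 0.0001826 0.0000003101 0.0000003101 0.0000003101 1.7502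
    hβ hN hx1 hx2 hy1 hy2 (by norm_num) (by norm_num) (by linarith) (by norm_num) (by norm_num) (by norm_num) (by norm_num) (by norm_num) (by norm_num) (by norm_num) (by norm_num) (by norm_num) (by norm_num) (by norm_num) (by norm_num) (by norm_num) (by norm_num) (by norm_num) (by norm_num) (by norm_num) (by norm_num) (by norm_num) (by norm_num) (by norm_num)
    (cube_sqrt_geJ (s := 0.8037) (by norm_num) (by norm_num) (by norm_num) (by norm_num))
    (cube_sqrt_geJ (s := 0.9327) (by norm_num) (by norm_num) (by norm_num) (by norm_num))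
    (by norm_num) (by norm_num) (by norm_num) (by norm_num) (by norm_num) (by norm_num) (by norm_num) (by norm_num) (by norm_num) (by norm_num) (by norm_num) (by norm_num) (by norm_num) (by norm_num) (by norm_num) (by norm_num) (by norm_num) (by norm_num)
    (exp_neg_leJ (r := 0.92) 8 (by norm_num) (by norm_num) (by norm_num) (by norm_num))
    (exp_neg_leJ (r := 0.762) 5 (by norm_num) (by norm_num) (by norm_num) (by norm_num))
    (exp_neg_leJ (r := 0.732) 11 (by norm_num) (by norm_num) (by norm_num) (by norm_num))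
    (exp_neg_leJ (r := 0.99) 14 (by norm_num) (by norm_num) (by norm_num) (by norm_num))
    (exp_neg_leJ (r := 0.609) 8 (by norm_num) (by norm_num) (by norm_num) (by norm_num))
    (exp_neg_leJ (r := 0.99) 14 (by norm_num) (by norm_num) (by norm_num) (by norm_num))
    (exp_neg_leJ (r := 0.99) 14 (by norm_num) (by norm_num) (by norm_num) (by norm_num))
    (exp_neg_leJ (r := 0.99) 14 (by norm_num) (by norm_num) (by norm_num) (by norm_num))
    (by norm_num)) (by norm_num) hN hβ.le (by norm_num)

private theorem JD6a_p0_c2_b1_0 {β x y : ℝ} (hβ : 0 < β) (hN : β * 23.255 ≤ 1) (hx1 : 0.206 ≤ x) (hx2 : x ≤ 0.496)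
    (hy1 : -0.311 ≤ y) (hy2 : y ≤ -0.027) : ‖HH β (x + y * I) - 1‖ ≤ 0.08 := by
  refine le_epsJ (C := 1.8102) (N0 := 23.255) (J_boxp 0.206 0.496 0.311 0 (-0.027) 0.6342 0.5855 1.0922 2.0693 0.417 4.8224 23.255 0.9233 3.624 1.522 0.9422 0.317 0.2195 0.5878 2.817 0.2851 0.7852 1.1373 3.5325 0.0006293 0.006073 0.000001159 0.0000003101 0.001321 0.0000003101 0.0000003101 0.0000003101 1.8102
    hβ hN hx1 hx2 hy1 hy2 (by norm_num) (by norm_num) (by linarith) (by norm_num) (by norm_num) (by norm_num) (by norm_num) (by norm_num) (by norm_num) (by norm_num) (by norm_num) (by norm_num) (by norm_num) (by norm_num) (by norm_num) (by norm_num) (by norm_num) (by norm_num) (by norm_num) (by norm_num) (by norm_num) (by norm_num) (by norm_num) (by norm_num)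
    (cube_sqrt_geJ (s := 0.832) (by norm_num) (by norm_num) (by norm_num) (by norm_num))
    (cube_sqrt_geJ (s := 0.9417) (by norm_num) (by norm_num) (by norm_num) (by norm_num))
    (by norm_num) (by norm_num) (by norm_num) (by norm_num) (by norm_num) (by norm_num) (by norm_num) (by norm_num) (by norm_num) (by norm_num) (by norm_num) (by norm_num) (by norm_num) (by norm_num) (by norm_num) (by norm_num) (by norm_num) (by norm_num)
    (exp_neg_leJ (r := 0.371) 7 (by norm_num) (by norm_num) (by norm_num) (by norm_num))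
    (exp_neg_leJ (r := 0.104) 5 (by norm_num) (by norm_num) (by norm_num) (by norm_num))
    (exp_neg_leJ (r := 0.669) 13 (by norm_num) (by norm_num) (by norm_num) (by norm_num))
    (exp_neg_leJ (r := 0.99) 14 (by norm_num) (by norm_num) (by norm_num) (by norm_num))
    (exp_neg_leJ (r := 0.63) 6 (by norm_num) (by norm_num) (by norm_num) (by norm_num))
    (exp_neg_leJ (r := 0.99) 14 (by norm_num) (by norm_num) (by norm_num) (by norm_num))
    (exp_neg_leJ (r := 0.99) 14 (by norm_num) (by norm_num) (by norm_num) (by norm_num))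
    (exp_neg_leJ (r := 0.99) 14 (by norm_num) (by norm_num) (by norm_num) (by norm_num))
    (by norm_num)) (by norm_num) hN hβ.le (by norm_num)

private theorem JD6a_p0_c2_b1_1 {β x y : ℝ} (hβ : 0 < β) (hN : β * 23.255 ≤ 1) (hx1 : 0.496 ≤ x) (hx2 : x ≤ 0.6914)
    (hy1 : -0.311 ≤ y) (hy2 : y ≤ -0.027) : ‖HH β (x + y * I) - 1‖ ≤ 0.08 := by
  refine le_epsJ (C := 1.0595) (N0 := 23.255) (J_boxp 0.496 0.6914 0.311 0 (-0.027) 0.8384 0.7582 1.1937 1.4233 0.4359 4.8224 23.255 0.9044 3.511 1.508 0.8671 0.4191 0.2928 0.6871 2.7102 0.426 1.1867 1.7173 3.643 0.00005859 0.001106 0.0000003101 0.0000003101 0.00005 0.0000003101 0.0000003101 0.0000003101 1.0595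
    hβ hN hx1 hx2 hy1 hy2 (by norm_num) (by norm_num) (by linarith) (by norm_num) (by norm_num) (by norm_num) (by norm_num) (by norm_num) (by norm_num) (by norm_num) (by norm_num) (by norm_num) (by norm_num) (by norm_num) (by norm_num) (by norm_num) (by norm_num) (by norm_num) (by norm_num) (by norm_num) (by norm_num) (by norm_num) (by norm_num) (by norm_num)
    (cube_sqrt_geJ (s := 0.8357) (by norm_num) (by norm_num) (by norm_num) (by norm_num))
    (cube_sqrt_geJ (s := 0.943) (by norm_num) (by norm_num) (by norm_num) (by norm_num))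
    (by norm_num) (by norm_num) (by norm_num) (by norm_num) (by norm_num) (by norm_num) (by norm_num) (by norm_num) (by norm_num) (by norm_num) (by norm_num) (by norm_num) (by norm_num) (by norm_num) (by norm_num) (by norm_num) (by norm_num) (by norm_num)
    (exp_neg_leJ (r := 0.746) 9 (by norm_num) (by norm_num) (by norm_num) (by norm_num))
    (exp_neg_leJ (r := 0.809) 6 (by norm_num) (by norm_num) (by norm_num) (by norm_num))
    (exp_neg_leJ (r := 0.99) 14 (by norm_num) (by norm_num) (by norm_num) (by norm_num))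
    (exp_neg_leJ (r := 0.99) 14 (by norm_num) (by norm_num) (by norm_num) (by norm_num))
    (exp_neg_leJ (r := 0.906) 9 (by norm_num) (by norm_num) (by norm_num) (by norm_num))
    (exp_neg_leJ (r := 0.99) 14 (by norm_num) (by norm_num) (by norm_num) (by norm_num))
    (exp_neg_leJ (r := 0.99) 14 (by norm_num) (by norm_num) (by norm_num) (by norm_num))
    (exp_neg_leJ (r := 0.99) 14 (by norm_num) (by norm_num) (by norm_num) (by norm_num))
    (by norm_num)) (by norm_num) hN hβ.le (by norm_num)

private theorem JD6a_p0_c2 {κ t β : ℝ} (h : DomR κ t) (hβ : 0 < β) (hk1 : 0.38 ≤ κ) (hk2 : κ ≤ 0.43)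
    (ht1 : -0.576 ≤ t + κ) (ht2 : t + κ ≤ -0.4398) (hR0 : β * 10 ≤ κ) (hR : β * (4.95 * (1 + κ ^ 2)) ≤ κ) :
    ∀ s : ℂ, ‖s - sg κ t‖ ≤ 0.15 → ‖HH β s - 1‖ ≤ 0.08 := by
  have hN : β * 23.255 ≤ 1 := bNR hβ h.1 hk2 hR0 (by norm_num)
  have hy1 : -0.281 ≤ sy κ t := syL_ge h 0.38 0.43 0.576 0.281 0.75502 0.75503 0.4771 0.49339 0.55833 hk1 hk2 (by linarith) (by norm_num) (by norm_num) (by norm_num)
    (expm_ge (by norm_num) (by norm_num) (by norm_num) (by norm_num)) (expm_le (by norm_num) (by norm_num) (by norm_num)) (by norm_num)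
    (by norm_num) (by norm_num) (by norm_num) (by norm_num) (by norm_num) (by norm_num)
  have hy2 : sy κ t ≤ -0.177 := syL_le h 0.38 0.43 0.4398 0.177 0.83777 0.83778 0.34484 0.39023 hk1 hk2 (by linarith) (by norm_num) (by norm_num) (by norm_num)
    (expm_ge (by norm_num) (by norm_num) (by norm_num) (by norm_num)) (expm_le (by norm_num) (by norm_num) (by norm_num)) (by norm_num)
    (by norm_num) (by norm_num) (by norm_num) (by norm_num) (by norm_num) (by norm_num)
  have hx1 : 0.356 ≤ sx κ t := sx_lo h 0.38 (-0.177) 0.281 1.19363 0.356 hk1 (by norm_num) hy2 (abs_le.2 ⟨by linarith, by linarith⟩) (by rw [neg_neg]; exact expn_ge (by norm_num) (by norm_num)) (by norm_num) (by norm_num)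
  have hx2 : sx κ t ≤ 0.5414 := sx_hi h 0.43 (-0.281) 0.177 1.32446 0.5414 hk2 hy1 (by norm_num) (by rw [abs_of_nonpos (by linarith)]; linarith) (by rw [neg_neg]; exact expn_le (by norm_num) (by norm_num) (by norm_num)) (by norm_num) (by norm_num)
  intro s hs
  have hs' : ‖s - ((sx κ t : ℂ) + (sy κ t : ℂ) * I)‖ ≤ 0.15 := hs
  obtain ⟨es, ⟨s1, s2⟩, ⟨s3, s4⟩⟩ := disc_split hs'
  have X1 : 0.206 ≤ s.re := by linarith
  have X2 : s.re ≤ 0.6914 := by linarith
  have Y1 : (-0.431) ≤ s.im := by linarith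
  have Y2 : s.im ≤ (-0.027) := by linarith
  rw [es]
  rcases le_total s.im (-0.311) with f0 | g0
  · rcases le_total s.re 0.216 with u0 | v0
    · exact JD6a_p0_c2_b0_0 hβ hN (by linarith) (by linarith) (by linarith) (by linarith)
    rcases le_total s.re 0.236 with u1 | v1
    · exact JD6a_p0_c2_b0_1 hβ hN (by linarith) (by linarith) (by linarith) (by linarith)
    rcases le_total s.re 0.286 with u2 | v2
    · exact JD6a_p0_c2_b0_2 hβ hN (by linarith) (by linarith) (by linarith) (by linarith)
    rcases le_total s.re 0.376 with u3 | v3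
    · exact JD6a_p0_c2_b0_3 hβ hN (by linarith) (by linarith) (by linarith) (by linarith)
    rcases le_total s.re 0.516 with u4 | v4
    · exact JD6a_p0_c2_b0_4 hβ hN (by linarith) (by linarith) (by linarith) (by linarith)
    exact JD6a_p0_c2_b0_5 hβ hN (by linarith) (by linarith) (by linarith) (by linarith)
  rcases le_total s.re 0.496 with u0 | v0
  · exact JD6a_p0_c2_b1_0 hβ hN (by linarith) (by linarith) (by linarith) (by linarith)
  exact JD6a_p0_c2_b1_1 hβ hN (by linarith) (by linarith) (by linarith) (by linarith)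

private theorem JD6a_p0_c3_b0_0 {β x y : ℝ} (hβ : 0 < β) (hN : β * 22.222 ≤ 1) (hx1 : 0.2847 ≤ x) (hx2 : x ≤ 0.3047)
    (hy1 : -0.44 ≤ y) (hy2 : y ≤ -0.18) : ‖HH β (x + y * I) - 1‖ ≤ 0.08 := by
  refine le_epsJ (C := 1.7722) (N0 := 22.222) (J_boxp 0.2847 0.3047 0.44 0 (-0.18) 0.5981 0.5353 0.8748 2.0221 0.3732 4.7141 22.222 0.8951 3.457 1.502 0.8967 0.299 0.2098 0.4112 2.4846 0.2529 0.8941 0.944 3.8263 0.001303 0.009454 0.0001077 0.0000003101 0.00363 0.0000003101 0.0000003101 0.0000003101 1.7722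
    hβ hN hx1 hx2 hy1 hy2 (by norm_num) (by norm_num) (by linarith) (by norm_num) (by norm_num) (by norm_num) (by norm_num) (by norm_num) (by norm_num) (by norm_num) (by norm_num) (by norm_num) (by norm_num) (by norm_num) (by norm_num) (by norm_num) (by norm_num) (by norm_num) (by norm_num) (by norm_num) (by norm_num) (by norm_num) (by norm_num) (by norm_num)
    (cube_sqrt_geJ (s := 0.8376) (by norm_num) (by norm_num) (by norm_num) (by norm_num))
    (cube_sqrt_geJ (s := 0.9436) (by norm_num) (by norm_num) (by norm_num) (by norm_num))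
    (by norm_num) (by norm_num) (by norm_num) (by norm_num) (by norm_num) (by norm_num) (by norm_num) (by norm_num) (by norm_num) (by norm_num) (by norm_num) (by norm_num) (by norm_num) (by norm_num) (by norm_num) (by norm_num) (by norm_num) (by norm_num)
    (exp_neg_leJ (r := 0.644) 6 (by norm_num) (by norm_num) (by norm_num) (by norm_num))
    (exp_neg_leJ (r := 0.662) 4 (by norm_num) (by norm_num) (by norm_num) (by norm_num))
    (exp_neg_leJ (r := 0.137) 9 (by norm_num) (by norm_num) (by norm_num) (by norm_num))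
    (exp_neg_leJ (r := 0.99) 14 (by norm_num) (by norm_num) (by norm_num) (by norm_num))
    (exp_neg_leJ (r := 0.619) 5 (by norm_num) (by norm_num) (by norm_num) (by norm_num))
    (exp_neg_leJ (r := 0.99) 14 (by norm_num) (by norm_num) (by norm_num) (by norm_num))
    (exp_neg_leJ (r := 0.99) 14 (by norm_num) (by norm_num) (by norm_num) (by norm_num))
    (exp_neg_leJ (r := 0.99) 14 (by norm_num) (by norm_num) (by norm_num) (by norm_num))
    (by norm_num)) (by norm_num) hN hβ.le (by norm_num)

private theorem JD6a_p0_c3_b0_1 {β x y : ℝ} (hβ : 0 < β) (hN : β * 22.222 ≤ 1) (hx1 : 0.3047 ≤ x) (hx2 : x ≤ 0.3447)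
    (hy1 : -0.44 ≤ y) (hy2 : y ≤ -0.18) : ‖HH β (x + y * I) - 1‖ ≤ 0.08 := by
  refine le_epsJ (C := 1.7765) (N0 := 22.222) (J_boxp 0.3047 0.3447 0.44 0 (-0.18) 0.6121 0.559 0.8896 1.9696 0.3763 4.7141 22.222 0.9133 3.564 1.515 0.8813 0.306 0.2128 0.418 2.4659 0.2626 0.9218 0.984 3.8019 0.001117 0.008853 0.00009254 0.0000003101 0.002929 0.0000003101 0.0000003101 0.0000003101 1.7765
    hβ hN hx1 hx2 hy1 hy2 (by norm_num) (by norm_num) (by linarith) (by norm_num) (by norm_num) (by norm_num) (by norm_num) (by norm_num) (by norm_num) (by norm_num) (by norm_num) (by norm_num) (by norm_num) (by norm_num) (by norm_num) (by norm_num) (by norm_num) (by norm_num) (by norm_num) (by norm_num) (by norm_num) (by norm_num) (by norm_num) (by norm_num)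
    (cube_sqrt_geJ (s := 0.834) (by norm_num) (by norm_num) (by norm_num) (by norm_num))
    (cube_sqrt_geJ (s := 0.9424) (by norm_num) (by norm_num) (by norm_num) (by norm_num))
    (by norm_num) (by norm_num) (by norm_num) (by norm_num) (by norm_num) (by norm_num) (by norm_num) (by norm_num) (by norm_num) (by norm_num) (by norm_num) (by norm_num) (by norm_num) (by norm_num) (by norm_num) (by norm_num) (by norm_num) (by norm_num)
    (exp_neg_leJ (r := 0.799) 6 (by norm_num) (by norm_num) (by norm_num) (by norm_num))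
    (exp_neg_leJ (r := 0.728) 4 (by norm_num) (by norm_num) (by norm_num) (by norm_num))
    (exp_neg_leJ (r := 0.288) 9 (by norm_num) (by norm_num) (by norm_num) (by norm_num))
    (exp_neg_leJ (r := 0.99) 14 (by norm_num) (by norm_num) (by norm_num) (by norm_num))
    (exp_neg_leJ (r := 0.835) 5 (by norm_num) (by norm_num) (by norm_num) (by norm_num))
    (exp_neg_leJ (r := 0.99) 14 (by norm_num) (by norm_num) (by norm_num) (by norm_num))
    (exp_neg_leJ (r := 0.99) 14 (by norm_num) (by norm_num) (by norm_num) (by norm_num))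
    (exp_neg_leJ (r := 0.99) 14 (by norm_num) (by norm_num) (by norm_num) (by norm_num))
    (by norm_num)) (by norm_num) hN hβ.le (by norm_num)

private theorem JD6a_p0_c3_b0_2 {β x y : ℝ} (hβ : 0 < β) (hN : β * 22.222 ≤ 1) (hx1 : 0.3447 ≤ x) (hx2 : x ≤ 0.4147)
    (hy1 : -0.44 ≤ y) (hy2 : y ≤ -0.18) : ‖HH β (x + y * I) - 1‖ ≤ 0.08 := by
  refine le_epsJ (C := 1.7754) (N0 := 22.222) (J_boxp 0.3447 0.4147 0.44 0 (-0.18) 0.6403 0.6047 0.9189 1.871 0.3825 4.7141 22.222 0.9445 3.757 1.538 0.8544 0.3201 0.2193 0.4317 2.432 0.282 0.9772 1.064 3.7577 0.0008145 0.007667 0.00006824 0.0000003101 0.0019 0.0000003101 0.0000003101 0.0000003101 1.7754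
    hβ hN hx1 hx2 hy1 hy2 (by norm_num) (by norm_num) (by linarith) (by norm_num) (by norm_num) (by norm_num) (by norm_num) (by norm_num) (by norm_num) (by norm_num) (by norm_num) (by norm_num) (by norm_num) (by norm_num) (by norm_num) (by norm_num) (by norm_num) (by norm_num) (by norm_num) (by norm_num) (by norm_num) (by norm_num) (by norm_num) (by norm_num)
    (cube_sqrt_geJ (s := 0.8277) (by norm_num) (by norm_num) (by norm_num) (by norm_num))
    (cube_sqrt_geJ (s := 0.9404) (by norm_num) (by norm_num) (by norm_num) (by norm_num))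
    (by norm_num) (by norm_num) (by norm_num) (by norm_num) (by norm_num) (by norm_num) (by norm_num) (by norm_num) (by norm_num) (by norm_num) (by norm_num) (by norm_num) (by norm_num) (by norm_num) (by norm_num) (by norm_num) (by norm_num) (by norm_num)
    (exp_neg_leJ (r := 0.113) 7 (by norm_num) (by norm_num) (by norm_num) (by norm_num))
    (exp_neg_leJ (r := 0.873) 4 (by norm_num) (by norm_num) (by norm_num) (by norm_num))
    (exp_neg_leJ (r := 0.593) 9 (by norm_num) (by norm_num) (by norm_num) (by norm_num))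
    (exp_neg_leJ (r := 0.99) 14 (by norm_num) (by norm_num) (by norm_num) (by norm_num))
    (exp_neg_leJ (r := 0.266) 6 (by norm_num) (by norm_num) (by norm_num) (by norm_num))
    (exp_neg_leJ (r := 0.99) 14 (by norm_num) (by norm_num) (by norm_num) (by norm_num))
    (exp_neg_leJ (r := 0.99) 14 (by norm_num) (by norm_num) (by norm_num) (by norm_num))
    (exp_neg_leJ (r := 0.99) 14 (by norm_num) (by norm_num) (by norm_num) (by norm_num))
    (by norm_num)) (by norm_num) hN hβ.le (by norm_num)

private theorem JD6a_p0_c3_b0_3 {β x y : ℝ} (hβ : 0 < β) (hN : β * 22.222 ≤ 1) (hx1 : 0.4147 ≤ x) (hx2 : x ≤ 0.5147)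
    (hy1 : -0.44 ≤ y) (hy2 : y ≤ -0.18) : ‖HH β (x + y * I) - 1‖ ≤ 0.08 := by
  refine le_epsJ (C := 1.7311) (N0 := 22.222) (J_boxp 0.4147 0.5147 0.44 0 (-0.18) 0.6896 0.6772 0.9682 1.7183 0.3926 4.7141 22.222 0.9821 4.007 1.566 0.816 0.3447 0.2319 0.4557 2.3816 0.316 1.0741 1.204 3.7006 0.0004721 0.005783 0.00004003 0.0000003101 0.0008921 0.0000003101 0.0000003101 0.0000003101 1.7311
    hβ hN hx1 hx2 hy1 hy2 (by norm_num) (by norm_num) (by linarith) (by norm_num) (by norm_num) (by norm_num) (by norm_num) (by norm_num) (by norm_num) (by norm_num) (by norm_num) (by norm_num) (by norm_num) (by norm_num) (by norm_num) (by norm_num) (by norm_num) (by norm_num) (by norm_num) (by norm_num) (by norm_num) (by norm_num) (by norm_num) (by norm_num)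
    (cube_sqrt_geJ (s := 0.8201) (by norm_num) (by norm_num) (by norm_num) (by norm_num))
    (cube_sqrt_geJ (s := 0.9379) (by norm_num) (by norm_num) (by norm_num) (by norm_num))
    (by norm_num) (by norm_num) (by norm_num) (by norm_num) (by norm_num) (by norm_num) (by norm_num) (by norm_num) (by norm_num) (by norm_num) (by norm_num) (by norm_num) (by norm_num) (by norm_num) (by norm_num) (by norm_num) (by norm_num) (by norm_num)
    (exp_neg_leJ (r := 0.659) 7 (by norm_num) (by norm_num) (by norm_num) (by norm_num))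
    (exp_neg_leJ (r := 0.153) 5 (by norm_num) (by norm_num) (by norm_num) (by norm_num))
    (exp_neg_leJ (r := 0.126) 10 (by norm_num) (by norm_num) (by norm_num) (by norm_num))
    (exp_neg_leJ (r := 0.99) 14 (by norm_num) (by norm_num) (by norm_num) (by norm_num))
    (exp_neg_leJ (r := 0.022) 7 (by norm_num) (by norm_num) (by norm_num) (by norm_num))
    (exp_neg_leJ (r := 0.99) 14 (by norm_num) (by norm_num) (by norm_num) (by norm_num))
    (exp_neg_leJ (r := 0.99) 14 (by norm_num) (by norm_num) (by norm_num) (by norm_num))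
    (exp_neg_leJ (r := 0.99) 14 (by norm_num) (by norm_num) (by norm_num) (by norm_num))
    (by norm_num)) (by norm_num) hN hβ.le (by norm_num)

private theorem JD6a_p0_c3_b0_4 {β x y : ℝ} (hβ : 0 < β) (hN : β * 22.222 ≤ 1) (hx1 : 0.5147 ≤ x) (hx2 : x ≤ 0.6547)
    (hy1 : -0.44 ≤ y) (hy2 : y ≤ -0.18) : ‖HH β (x + y * I) - 1‖ ≤ 0.08 := by
  refine le_epsJ (C := 1.7496) (N0 := 22.222) (J_boxp 0.5147 0.6547 0.44 0 (-0.18) 0.76 0.7889 1.0494 1.5462 0.4087 4.7141 22.222 1.0381 4.422 1.61 0.7621 0.3799 0.2485 0.4899 2.3083 0.3646 1.2126 1.404 3.597 0.0002157 0.003999 0.00001876 0.0000003101 0.000303 0.0000003101 0.0000003101 0.0000003101 1.7496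
    hβ hN hx1 hx2 hy1 hy2 (by norm_num) (by norm_num) (by linarith) (by norm_num) (by norm_num) (by norm_num) (by norm_num) (by norm_num) (by norm_num) (by norm_num) (by norm_num) (by norm_num) (by norm_num) (by norm_num) (by norm_num) (by norm_num) (by norm_num) (by norm_num) (by norm_num) (by norm_num) (by norm_num) (by norm_num) (by norm_num) (by norm_num)
    (cube_sqrt_geJ (s := 0.8086) (by norm_num) (by norm_num) (by norm_num) (by norm_num))
    (cube_sqrt_geJ (s := 0.9342) (by norm_num) (by norm_num) (by norm_num) (by norm_num))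
    (by norm_num) (by norm_num) (by norm_num) (by norm_num) (by norm_num) (by norm_num) (by norm_num) (by norm_num) (by norm_num) (by norm_num) (by norm_num) (by norm_num) (by norm_num) (by norm_num) (by norm_num) (by norm_num) (by norm_num) (by norm_num)
    (exp_neg_leJ (r := 0.442) 8 (by norm_num) (by norm_num) (by norm_num) (by norm_num))
    (exp_neg_leJ (r := 0.522) 5 (by norm_num) (by norm_num) (by norm_num) (by norm_num))
    (exp_neg_leJ (r := 0.886) 10 (by norm_num) (by norm_num) (by norm_num) (by norm_num))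
    (exp_neg_leJ (r := 0.99) 14 (by norm_num) (by norm_num) (by norm_num) (by norm_num))
    (exp_neg_leJ (r := 0.102) 8 (by norm_num) (by norm_num) (by norm_num) (by norm_num))
    (exp_neg_leJ (r := 0.99) 14 (by norm_num) (by norm_num) (by norm_num) (by norm_num))
    (exp_neg_leJ (r := 0.99) 14 (by norm_num) (by norm_num) (by norm_num) (by norm_num))
    (exp_neg_leJ (r := 0.99) 14 (by norm_num) (by norm_num) (by norm_num) (by norm_num))
    (by norm_num)) (by norm_num) hN hβ.le (by norm_num)

private theorem JD6a_p0_c3_b0_5 {β x y : ℝ} (hβ : 0 < β) (hN : β * 22.222 ≤ 1) (hx1 : 0.6547 ≤ x) (hx2 : x ≤ 0.719)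
    (hy1 : -0.44 ≤ y) (hy2 : y ≤ -0.18) : ‖HH β (x + y * I) - 1‖ ≤ 0.08 := by
  refine le_epsJ (C := 1.2257) (N0 := 22.222) (J_boxp 0.6547 0.719 0.44 0 (-0.18) 0.8586 0.843 1.0906 1.3127 0.4167 4.7141 22.222 0.9819 4.006 1.566 0.7374 0.4292 0.2887 0.5378 2.2739 0.4326 1.4065 1.684 3.7299 0.00007216 0.001637 0.000006479 0.0000003101 0.00006689 0.0000003101 0.0000003101 0.0000003101 1.2257
    hβ hN hx1 hx2 hy1 hy2 (by norm_num) (by norm_num) (by linarith) (by norm_num) (by norm_num) (by norm_num) (by norm_num) (by norm_num) (by norm_num) (by norm_num) (by norm_num) (by norm_num) (by norm_num) (by norm_num) (by norm_num) (by norm_num) (by norm_num) (by norm_num) (by norm_num) (by norm_num) (by norm_num) (by norm_num) (by norm_num) (by norm_num)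
    (cube_sqrt_geJ (s := 0.8201) (by norm_num) (by norm_num) (by norm_num) (by norm_num))
    (cube_sqrt_geJ (s := 0.9379) (by norm_num) (by norm_num) (by norm_num) (by norm_num))
    (by norm_num) (by norm_num) (by norm_num) (by norm_num) (by norm_num) (by norm_num) (by norm_num) (by norm_num) (by norm_num) (by norm_num) (by norm_num) (by norm_num) (by norm_num) (by norm_num) (by norm_num) (by norm_num) (by norm_num) (by norm_num)
    (exp_neg_leJ (r := 0.537) 9 (by norm_num) (by norm_num) (by norm_num) (by norm_num))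
    (exp_neg_leJ (r := 0.415) 6 (by norm_num) (by norm_num) (by norm_num) (by norm_num))
    (exp_neg_leJ (r := 0.95) 11 (by norm_num) (by norm_num) (by norm_num) (by norm_num))
    (exp_neg_leJ (r := 0.99) 14 (by norm_num) (by norm_num) (by norm_num) (by norm_num))
    (exp_neg_leJ (r := 0.613) 9 (by norm_num) (by norm_num) (by norm_num) (by norm_num))
    (exp_neg_leJ (r := 0.99) 14 (by norm_num) (by norm_num) (by norm_num) (by norm_num))
    (exp_neg_leJ (r := 0.99) 14 (by norm_num) (by norm_num) (by norm_num) (by norm_num))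
    (exp_neg_leJ (r := 0.99) 14 (by norm_num) (by norm_num) (by norm_num) (by norm_num))
    (by norm_num)) (by norm_num) hN hβ.le (by norm_num)

private theorem JD6a_p0_c3_b1_0 {β x y : ℝ} (hβ : 0 < β) (hN : β * 22.222 ≤ 1) (hx1 : 0.2847 ≤ x) (hx2 : x ≤ 0.719)
    (hy1 : -0.18 ≤ y) (hy2 : y ≤ -0.045) : ‖HH β (x + y * I) - 1‖ ≤ 0.08 := by
  refine le_epsJ (C := 1.3679) (N0 := 22.222) (J_boxp 0.2847 0.719 0.18 0 (-0.045) 0.7827 0.7412 1.1955 1.579 0.4362 4.7141 22.222 0.947 3.773 1.54 0.9774 0.3913 0.2678 0.8216 3.1174 0.3949 0.8941 1.6508 3.2666 0.0001676 0.002611 0.0000003101 0.0000003101 0.0001548 0.0000003101 0.0000003101 0.0000003101 1.3679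
    hβ hN hx1 hx2 hy1 hy2 (by norm_num) (by norm_num) (by linarith) (by norm_num) (by norm_num) (by norm_num) (by norm_num) (by norm_num) (by norm_num) (by norm_num) (by norm_num) (by norm_num) (by norm_num) (by norm_num) (by norm_num) (by norm_num) (by norm_num) (by norm_num) (by norm_num) (by norm_num) (by norm_num) (by norm_num) (by norm_num) (by norm_num)
    (cube_sqrt_geJ (s := 0.8272) (by norm_num) (by norm_num) (by norm_num) (by norm_num))
    (cube_sqrt_geJ (s := 0.9402) (by norm_num) (by norm_num) (by norm_num) (by norm_num))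
    (by norm_num) (by norm_num) (by norm_num) (by norm_num) (by norm_num) (by norm_num) (by norm_num) (by norm_num) (by norm_num) (by norm_num) (by norm_num) (by norm_num) (by norm_num) (by norm_num) (by norm_num) (by norm_num) (by norm_num) (by norm_num)
    (exp_neg_leJ (r := 0.695) 8 (by norm_num) (by norm_num) (by norm_num) (by norm_num))
    (exp_neg_leJ (r := 0.951) 5 (by norm_num) (by norm_num) (by norm_num) (by norm_num))
    (exp_neg_leJ (r := 0.99) 14 (by norm_num) (by norm_num) (by norm_num) (by norm_num))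
    (exp_neg_leJ (r := 0.99) 14 (by norm_num) (by norm_num) (by norm_num) (by norm_num))
    (exp_neg_leJ (r := 0.775) 8 (by norm_num) (by norm_num) (by norm_num) (by norm_num))
    (exp_neg_leJ (r := 0.99) 14 (by norm_num) (by norm_num) (by norm_num) (by norm_num))
    (exp_neg_leJ (r := 0.99) 14 (by norm_num) (by norm_num) (by norm_num) (by norm_num))
    (exp_neg_leJ (r := 0.99) 14 (by norm_num) (by norm_num) (by norm_num) (by norm_num))
    (by norm_num)) (by norm_num) hN hβ.le (by norm_num)

private theorem JD6a_p0_c3 {κ t β : ℝ} (h : DomR κ t) (hβ : 0 < β) (hk1 : 0.43 ≤ κ) (hk2 : κ ≤ 0.45)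
    (ht1 : -0.576 ≤ t + κ) (ht2 : t + κ ≤ -0.4398) (hR0 : β * 10 ≤ κ) (hR : β * (4.95 * (1 + κ ^ 2)) ≤ κ) :
    ∀ s : ℂ, ‖s - sg κ t‖ ≤ 0.15 → ‖HH β s - 1‖ ≤ 0.08 := by
  have hN : β * 22.222 ≤ 1 := bNR hβ h.1 hk2 hR0 (by norm_num)
  have hy1 : -0.29 ≤ sy κ t := syL_ge2 h 0.43 0.45 0.576 0.29 0.74826 0.74827 0.4765 0.48221 0.50465 hk1 hk2 (by linarith) (by norm_num) (by norm_num) (by norm_num)
    (expm_ge (by norm_num) (by norm_num) (by norm_num) (by norm_num)) (expm_le (by norm_num) (by norm_num) (by norm_num)) (by norm_num)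
    (by norm_num) (by norm_num) (by norm_num) (by norm_num) (by norm_num) (by norm_num)
  have hy2 : sy κ t ≤ -0.195 := syL_le h 0.43 0.45 0.4398 0.195 0.82283 0.82284 0.35655 0.37315 hk1 hk2 (by linarith) (by norm_num) (by norm_num) (by norm_num)
    (expm_ge (by norm_num) (by norm_num) (by norm_num) (by norm_num)) (expm_le (by norm_num) (by norm_num) (by norm_num)) (by norm_num)
    (by norm_num) (by norm_num) (by norm_num) (by norm_num) (by norm_num) (by norm_num)
  have hx1 : 0.4347 ≤ sx κ t := sx_lo h 0.43 (-0.195) 0.29 1.21531 0.4347 hk1 (by norm_num) hy2 (abs_le.2 ⟨by linarith, by linarith⟩) (by rw [neg_neg]; exact expn_ge (by norm_num) (by norm_num)) (by norm_num) (by norm_num)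
  have hx2 : sx κ t ≤ 0.569 := sx_hi h 0.45 (-0.29) 0.195 1.33643 0.569 hk2 hy1 (by norm_num) (by rw [abs_of_nonpos (by linarith)]; linarith) (by rw [neg_neg]; exact expn_le (by norm_num) (by norm_num) (by norm_num)) (by norm_num) (by norm_num)
  intro s hs
  have hs' : ‖s - ((sx κ t : ℂ) + (sy κ t : ℂ) * I)‖ ≤ 0.15 := hs
  obtain ⟨es, ⟨s1, s2⟩, ⟨s3, s4⟩⟩ := disc_split hs'
  have X1 : 0.2847 ≤ s.re := by linarith
  have X2 : s.re ≤ 0.719 := by linarith
  have Y1 : (-0.44) ≤ s.im := by linarith
  have Y2 : s.im ≤ (-0.045) := by linarith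
  rw [es]
  rcases le_total s.im (-0.18) with f0 | g0
  · rcases le_total s.re 0.3047 with u0 | v0
    · exact JD6a_p0_c3_b0_0 hβ hN (by linarith) (by linarith) (by linarith) (by linarith)
    rcases le_total s.re 0.3447 with u1 | v1
    · exact JD6a_p0_c3_b0_1 hβ hN (by linarith) (by linarith) (by linarith) (by linarith)
    rcases le_total s.re 0.4147 with u2 | v2
    · exact JD6a_p0_c3_b0_2 hβ hN (by linarith) (by linarith) (by linarith) (by linarith)
    rcases le_total s.re 0.5147 with u3 | v3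
    · exact JD6a_p0_c3_b0_3 hβ hN (by linarith) (by linarith) (by linarith) (by linarith)
    rcases le_total s.re 0.6547 with u4 | v4
    · exact JD6a_p0_c3_b0_4 hβ hN (by linarith) (by linarith) (by linarith) (by linarith)
    exact JD6a_p0_c3_b0_5 hβ hN (by linarith) (by linarith) (by linarith) (by linarith)
  exact JD6a_p0_c3_b1_0 hβ hN (by linarith) (by linarith) (by linarith) (by linarith)

theorem JD6a_0 {κ t β : ℝ} (h : DomR κ t) (hβ : 0 < β) (hk1 : 0.3 ≤ κ) (hk2 : κ ≤ 0.45)
    (ht1 : -0.576 ≤ t + κ) (ht2 : t + κ ≤ -0.4398) (hR0 : β * 10 ≤ κ) (hR : β * (4.95 * (1 + κ ^ 2)) ≤ κ) :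
    ∀ s : ℂ, ‖s - sg κ t‖ ≤ 0.15 → ‖HH β s - 1‖ ≤ 0.08 := by
  rcases le_total κ 0.34 with f0 | g0
  · exact JD6a_p0_c0 h hβ hk1 f0 ht1 ht2 hR0 hR
  rcases le_total κ 0.38 with f1 | g1
  · exact JD6a_p0_c1 h hβ g0 f1 ht1 ht2 hR0 hR
  rcases le_total κ 0.43 with f2 | g2
  · exact JD6a_p0_c2 h hβ g1 f2 ht1 ht2 hR0 hR
  exact JD6a_p0_c3 h hβ g2 hk2 ht1 ht2 hR0 hR

private theorem JD6a_p1_c0_b0_0 {β x y : ℝ} (hβ : 0 < β) (hN : β * 19.999 ≤ 1) (hx1 : 0.3045 ≤ x) (hx2 : x ≤ 0.3345)
    (hy1 : -0.461 ≤ y) (hy2 : y ≤ -0.052) : ‖HH β (x + y * I) - 1‖ ≤ 0.12 := by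
  refine le_epsJ (C := 2.3968) (N0 := 19.999) (J_boxp 0.3045 0.3345 0.461 0 (-0.052) 0.5971 0.5696 1.0053 2.1731 0.4 4.4721 19.999 0.954 3.818 1.545 0.8659 0.2985 0.2036 0.3848 2.4003 0.251 0.9216 0.9265 3.7727 0.002566 0.01707 0.0004555 0.0000003101 0.006612 0.0000003101 0.0000003101 0.0000003101 2.3968
    hβ hN hx1 hx2 hy1 hy2 (by norm_num) (by norm_num) (by linarith) (by norm_num) (by norm_num) (by norm_num) (by norm_num) (by norm_num) (by norm_num) (by norm_num) (by norm_num) (by norm_num) (by norm_num) (by norm_num) (by norm_num) (by norm_num) (by norm_num) (by norm_num) (by norm_num) (by norm_num) (by norm_num) (by norm_num) (by norm_num) (by norm_num)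
    (cube_sqrt_geJ (s := 0.8258) (by norm_num) (by norm_num) (by norm_num) (by norm_num))
    (cube_sqrt_geJ (s := 0.9397) (by norm_num) (by norm_num) (by norm_num) (by norm_num))
    (by norm_num) (by norm_num) (by norm_num) (by norm_num) (by norm_num) (by norm_num) (by norm_num) (by norm_num) (by norm_num) (by norm_num) (by norm_num) (by norm_num) (by norm_num) (by norm_num) (by norm_num) (by norm_num) (by norm_num) (by norm_num)
    (exp_neg_leJ (r := 0.969) 5 (by norm_num) (by norm_num) (by norm_num) (by norm_num))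
    (exp_neg_leJ (r := 0.071) 4 (by norm_num) (by norm_num) (by norm_num) (by norm_num))
    (exp_neg_leJ (r := 0.695) 7 (by norm_num) (by norm_num) (by norm_num) (by norm_num))
    (exp_neg_leJ (r := 0.99) 14 (by norm_num) (by norm_num) (by norm_num) (by norm_num))
    (exp_neg_leJ (r := 0.019) 5 (by norm_num) (by norm_num) (by norm_num) (by norm_num))
    (exp_neg_leJ (r := 0.99) 14 (by norm_num) (by norm_num) (by norm_num) (by norm_num))
    (exp_neg_leJ (r := 0.99) 14 (by norm_num) (by norm_num) (by norm_num) (by norm_num))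
    (exp_neg_leJ (r := 0.99) 14 (by norm_num) (by norm_num) (by norm_num) (by norm_num))
    (by norm_num)) (by norm_num) hN hβ.le (by norm_num)

private theorem JD6a_p1_c0_b0_1 {β x y : ℝ} (hβ : 0 < β) (hN : β * 19.999 ≤ 1) (hx1 : 0.3345 ≤ x) (hx2 : x ≤ 0.3945)
    (hy1 : -0.461 ≤ y) (hy2 : y ≤ -0.052) : ‖HH β (x + y * I) - 1‖ ≤ 0.12 := by
  refine le_epsJ (C := 2.3918) (N0 := 19.999) (J_boxp 0.3345 0.3945 0.461 0 (-0.052) 0.6182 0.6068 1.0269 2.0849 0.4043 4.4721 19.999 0.9816 4.004 1.566 0.8428 0.309 0.2079 0.3951 2.3717 0.2656 0.9631 0.9865 3.7316 0.002073 0.01566 0.0003713 0.0000003101 0.004938 0.0000003101 0.0000003101 0.0000003101 2.3918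
    hβ hN hx1 hx2 hy1 hy2 (by norm_num) (by norm_num) (by linarith) (by norm_num) (by norm_num) (by norm_num) (by norm_num) (by norm_num) (by norm_num) (by norm_num) (by norm_num) (by norm_num) (by norm_num) (by norm_num) (by norm_num) (by norm_num) (by norm_num) (by norm_num) (by norm_num) (by norm_num) (by norm_num) (by norm_num) (by norm_num) (by norm_num)
    (cube_sqrt_geJ (s := 0.8202) (by norm_num) (by norm_num) (by norm_num) (by norm_num))
    (cube_sqrt_geJ (s := 0.9379) (by norm_num) (by norm_num) (by norm_num) (by norm_num))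
    (by norm_num) (by norm_num) (by norm_num) (by norm_num) (by norm_num) (by norm_num) (by norm_num) (by norm_num) (by norm_num) (by norm_num) (by norm_num) (by norm_num) (by norm_num) (by norm_num) (by norm_num) (by norm_num) (by norm_num) (by norm_num)
    (exp_neg_leJ (r := 0.179) 6 (by norm_num) (by norm_num) (by norm_num) (by norm_num))
    (exp_neg_leJ (r := 0.157) 4 (by norm_num) (by norm_num) (by norm_num) (by norm_num))
    (exp_neg_leJ (r := 0.901) 7 (by norm_num) (by norm_num) (by norm_num) (by norm_num))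
    (exp_neg_leJ (r := 0.99) 14 (by norm_num) (by norm_num) (by norm_num) (by norm_num))
    (exp_neg_leJ (r := 0.311) 5 (by norm_num) (by norm_num) (by norm_num) (by norm_num))
    (exp_neg_leJ (r := 0.99) 14 (by norm_num) (by norm_num) (by norm_num) (by norm_num))
    (exp_neg_leJ (r := 0.99) 14 (by norm_num) (by norm_num) (by norm_num) (by norm_num))
    (exp_neg_leJ (r := 0.99) 14 (by norm_num) (by norm_num) (by norm_num) (by norm_num))
    (by norm_num)) (by norm_num) hN hβ.le (by norm_num)

private theorem JD6a_p1_c0_b0_2 {β x y : ℝ} (hβ : 0 < β) (hN : β * 19.999 ≤ 1) (hx1 : 0.3945 ≤ x) (hx2 : x ≤ 0.4945)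
    (hy1 : -0.461 ≤ y) (hy2 : y ≤ -0.052) : ‖HH β (x + y * I) - 1‖ ≤ 0.12 := by
  refine le_epsJ (C := 2.3495) (N0 := 19.999) (J_boxp 0.3945 0.4945 0.461 0 (-0.052) 0.6605 0.6761 1.0693 1.9264 0.4126 4.4721 19.999 1.0237 4.31 1.599 0.8043 0.3302 0.2175 0.4156 2.3222 0.2948 1.0462 1.1065 3.6632 0.001357 0.01293 0.0002459 0.0000003101 0.00276 0.0000003101 0.0000003101 0.0000003101 2.3495
    hβ hN hx1 hx2 hy1 hy2 (by norm_num) (by norm_num) (by linarith) (by norm_num) (by norm_num) (by norm_num) (by norm_num) (by norm_num) (by norm_num) (by norm_num) (by norm_num) (by norm_num) (by norm_num) (by norm_num) (by norm_num) (by norm_num) (by norm_num) (by norm_num) (by norm_num) (by norm_num) (by norm_num) (by norm_num) (by norm_num) (by norm_num)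
    (cube_sqrt_geJ (s := 0.8116) (by norm_num) (by norm_num) (by norm_num) (by norm_num))
    (cube_sqrt_geJ (s := 0.9352) (by norm_num) (by norm_num) (by norm_num) (by norm_num))
    (by norm_num) (by norm_num) (by norm_num) (by norm_num) (by norm_num) (by norm_num) (by norm_num) (by norm_num) (by norm_num) (by norm_num) (by norm_num) (by norm_num) (by norm_num) (by norm_num) (by norm_num) (by norm_num) (by norm_num) (by norm_num)
    (exp_neg_leJ (r := 0.603) 6 (by norm_num) (by norm_num) (by norm_num) (by norm_num))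
    (exp_neg_leJ (r := 0.349) 4 (by norm_num) (by norm_num) (by norm_num) (by norm_num))
    (exp_neg_leJ (r := 0.311) 8 (by norm_num) (by norm_num) (by norm_num) (by norm_num))
    (exp_neg_leJ (r := 0.99) 14 (by norm_num) (by norm_num) (by norm_num) (by norm_num))
    (exp_neg_leJ (r := 0.895) 5 (by norm_num) (by norm_num) (by norm_num) (by norm_num))
    (exp_neg_leJ (r := 0.99) 14 (by norm_num) (by norm_num) (by norm_num) (by norm_num))
    (exp_neg_leJ (r := 0.99) 14 (by norm_num) (by norm_num) (by norm_num) (by norm_num))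
    (exp_neg_leJ (r := 0.99) 14 (by norm_num) (by norm_num) (by norm_num) (by norm_num))
    (by norm_num)) (by norm_num) hN hβ.le (by norm_num)

private theorem JD6a_p1_c0_b0_3 {β x y : ℝ} (hβ : 0 < β) (hN : β * 19.999 ≤ 1) (hx1 : 0.4945 ≤ x) (hx2 : x ≤ 0.6445)
    (hy1 : -0.461 ≤ y) (hy2 : y ≤ -0.052) : ‖HH β (x + y * I) - 1‖ ≤ 0.12 := by
  refine le_epsJ (C := 2.3268) (N0 := 19.999) (J_boxp 0.4945 0.6445 0.461 0 (-0.052) 0.7309 0.7925 1.1464 1.7135 0.4272 4.4721 19.999 1.0843 4.806 1.647 0.7466 0.3654 0.2333 0.4498 2.2446 0.3433 1.1846 1.3065 3.5468 0.0006709 0.009426 0.0001251 0.0000003101 0.001046 0.0000003101 0.0000003101 0.0000003101 2.3268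
    hβ hN hx1 hx2 hy1 hy2 (by norm_num) (by norm_num) (by linarith) (by norm_num) (by norm_num) (by norm_num) (by norm_num) (by norm_num) (by norm_num) (by norm_num) (by norm_num) (by norm_num) (by norm_num) (by norm_num) (by norm_num) (by norm_num) (by norm_num) (by norm_num) (by norm_num) (by norm_num) (by norm_num) (by norm_num) (by norm_num) (by norm_num)
    (cube_sqrt_geJ (s := 0.7991) (by norm_num) (by norm_num) (by norm_num) (by norm_num))
    (cube_sqrt_geJ (s := 0.9312) (by norm_num) (by norm_num) (by norm_num) (by norm_num))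
    (by norm_num) (by norm_num) (by norm_num) (by norm_num) (by norm_num) (by norm_num) (by norm_num) (by norm_num) (by norm_num) (by norm_num) (by norm_num) (by norm_num) (by norm_num) (by norm_num) (by norm_num) (by norm_num) (by norm_num) (by norm_num)
    (exp_neg_leJ (r := 0.307) 7 (by norm_num) (by norm_num) (by norm_num) (by norm_num))
    (exp_neg_leJ (r := 0.665) 4 (by norm_num) (by norm_num) (by norm_num) (by norm_num))
    (exp_neg_leJ (r := 0.99) 8 (by norm_num) (by norm_num) (by norm_num) (by norm_num))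
    (exp_neg_leJ (r := 0.99) 14 (by norm_num) (by norm_num) (by norm_num) (by norm_num))
    (exp_neg_leJ (r := 0.865) 6 (by norm_num) (by norm_num) (by norm_num) (by norm_num))
    (exp_neg_leJ (r := 0.99) 14 (by norm_num) (by norm_num) (by norm_num) (by norm_num))
    (exp_neg_leJ (r := 0.99) 14 (by norm_num) (by norm_num) (by norm_num) (by norm_num))
    (exp_neg_leJ (r := 0.99) 14 (by norm_num) (by norm_num) (by norm_num) (by norm_num))
    (by norm_num)) (by norm_num) hN hβ.le (by norm_num)

private theorem JD6a_p1_c0_b0_4 {β x y : ℝ} (hβ : 0 < β) (hN : β * 19.999 ≤ 1) (hx1 : 0.6445 ≤ x) (hx2 : x ≤ 0.8019)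
    (hy1 : -0.461 ≤ y) (hy2 : y ≤ -0.052) : ‖HH β (x + y * I) - 1‖ ≤ 0.12 := by
  refine le_epsJ (C := 1.9944) (N0 := 19.999) (J_boxp 0.6445 0.8019 0.461 0 (-0.052) 0.8365 0.925 1.2417 1.4565 0.4446 4.4721 19.999 1.1058 5 1.665 0.6861 0.4182 0.264 0.5012 2.1603 0.4162 1.3923 1.6065 3.4866 0.0002334 0.005098 0.00004437 0.0000003101 0.0002429 0.0000003101 0.0000003101 0.0000003101 1.9944
    hβ hN hx1 hx2 hy1 hy2 (by norm_num) (by norm_num) (by linarith) (by norm_num) (by norm_num) (by norm_num) (by norm_num) (by norm_num) (by norm_num) (by norm_num) (by norm_num) (by norm_num) (by norm_num) (by norm_num) (by norm_num) (by norm_num) (by norm_num) (by norm_num) (by norm_num) (by norm_num) (by norm_num) (by norm_num) (by norm_num) (by norm_num)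
    (cube_sqrt_geJ (s := 0.7946) (by norm_num) (by norm_num) (by norm_num) (by norm_num))
    (cube_sqrt_geJ (s := 0.9298) (by norm_num) (by norm_num) (by norm_num) (by norm_num))
    (by norm_num) (by norm_num) (by norm_num) (by norm_num) (by norm_num) (by norm_num) (by norm_num) (by norm_num) (by norm_num) (by norm_num) (by norm_num) (by norm_num) (by norm_num) (by norm_num) (by norm_num) (by norm_num) (by norm_num) (by norm_num)
    (exp_neg_leJ (r := 0.363) 8 (by norm_num) (by norm_num) (by norm_num) (by norm_num))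
    (exp_neg_leJ (r := 0.279) 5 (by norm_num) (by norm_num) (by norm_num) (by norm_num))
    (exp_neg_leJ (r := 0.023) 10 (by norm_num) (by norm_num) (by norm_num) (by norm_num))
    (exp_neg_leJ (r := 0.99) 14 (by norm_num) (by norm_num) (by norm_num) (by norm_num))
    (exp_neg_leJ (r := 0.323) 8 (by norm_num) (by norm_num) (by norm_num) (by norm_num))
    (exp_neg_leJ (r := 0.99) 14 (by norm_num) (by norm_num) (by norm_num) (by norm_num))
    (exp_neg_leJ (r := 0.99) 14 (by norm_num) (by norm_num) (by norm_num) (by norm_num))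
    (exp_neg_leJ (r := 0.99) 14 (by norm_num) (by norm_num) (by norm_num) (by norm_num))
    (by norm_num)) (by norm_num) hN hβ.le (by norm_num)

private theorem JD6a_p1_c0 {κ t β : ℝ} (h : DomR κ t) (hβ : 0 < β) (hk1 : 0.45 ≤ κ) (hk2 : κ ≤ 0.5)
    (ht1 : -0.576 ≤ t + κ) (ht2 : t + κ ≤ -0.4398) (hR0 : β * 10 ≤ κ) (hR : β * (4.95 * (1 + κ ^ 2)) ≤ κ) :
    ∀ s : ℂ, ‖s - sg κ t‖ ≤ 0.15 → ‖HH β s - 1‖ ≤ 0.12 := by
  have hN : β * 19.999 ≤ 1 := bNR hβ h.1 hk2 hR0 (by norm_num)
  have hy1 : -0.311 ≤ sy κ t := syL_ge h 0.45 0.5 0.576 0.311 0.73271 0.73272 0.443 0.45574 0.5064 hk1 hk2 (by linarith) (by norm_num) (by norm_num) (by norm_num)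
    (expm_ge (by norm_num) (by norm_num) (by norm_num) (by norm_num)) (expm_le (by norm_num) (by norm_num) (by norm_num)) (by norm_num)
    (by norm_num) (by norm_num) (by norm_num) (by norm_num) (by norm_num) (by norm_num)
  have hy2 : sy κ t ≤ -0.202 := syL_le h 0.45 0.5 0.4398 0.202 0.81709 0.8171 0.3301 0.36679 hk1 hk2 (by linarith) (by norm_num) (by norm_num) (by norm_num)
    (expm_ge (by norm_num) (by norm_num) (by norm_num) (by norm_num)) (expm_le (by norm_num) (by norm_num) (by norm_num)) (by norm_num)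
    (by norm_num) (by norm_num) (by norm_num) (by norm_num) (by norm_num) (by norm_num)
  have hx1 : 0.4545 ≤ sx κ t := sx_lo h 0.45 (-0.202) 0.311 1.22384 0.4545 hk1 (by norm_num) hy2 (abs_le.2 ⟨by linarith, by linarith⟩) (by rw [neg_neg]; exact expn_ge (by norm_num) (by norm_num)) (by norm_num) (by norm_num)
  have hx2 : sx κ t ≤ 0.6519 := sx_hi h 0.5 (-0.311) 0.202 1.36479 0.6519 hk2 hy1 (by norm_num) (by rw [abs_of_nonpos (by linarith)]; linarith) (by rw [neg_neg]; exact expn_le (by norm_num) (by norm_num) (by norm_num)) (by norm_num) (by norm_num)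
  intro s hs
  have hs' : ‖s - ((sx κ t : ℂ) + (sy κ t : ℂ) * I)‖ ≤ 0.15 := hs
  obtain ⟨es, ⟨s1, s2⟩, ⟨s3, s4⟩⟩ := disc_split hs'
  have X1 : 0.3045 ≤ s.re := by linarith
  have X2 : s.re ≤ 0.8019 := by linarith
  have Y1 : (-0.461) ≤ s.im := by linarith
  have Y2 : s.im ≤ (-0.052) := by linarith
  rw [es]
  rcases le_total s.re 0.3345 with u0 | v0
  · exact JD6a_p1_c0_b0_0 hβ hN (by linarith) (by linarith) (by linarith) (by linarith)
  rcases le_total s.re 0.3945 with u1 | v1
  · exact JD6a_p1_c0_b0_1 hβ hN (by linarith) (by linarith) (by linarith) (by linarith)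
  rcases le_total s.re 0.4945 with u2 | v2
  · exact JD6a_p1_c0_b0_2 hβ hN (by linarith) (by linarith) (by linarith) (by linarith)
  rcases le_total s.re 0.6445 with u3 | v3
  · exact JD6a_p1_c0_b0_3 hβ hN (by linarith) (by linarith) (by linarith) (by linarith)
  exact JD6a_p1_c0_b0_4 hβ hN (by linarith) (by linarith) (by linarith) (by linarith)

private theorem JD6a_p1_c1_b0_0 {β x y : ℝ} (hβ : 0 < β) (hN : β * 17.241 ≤ 1) (hx1 : 0.3756 ≤ x) (hx2 : x ≤ 0.3856)
    (hy1 : -0.481 ≤ y) (hy2 : y ≤ -0.401) : ‖HH β (x + y * I) - 1‖ ≤ 0.12 := by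
  refine le_epsJ (C := 2.0551) (N0 := 17.241) (J_boxp 0.3756 0.3856 0.481 0 (-0.401) 0.6329 0.6165 0.7124 1.6764 0.3368 4.1523 17.241 0.9741 3.952 1.56 0.8278 0.3164 0.2136 0.3776 2.3091 0.2746 1.02 1.0143 3.7874 0.004276 0.0252 0.001489 0.0000003101 0.0088 0.0000003101 0.0000003101 0.0000003101 2.0551
    hβ hN hx1 hx2 hy1 hy2 (by norm_num) (by norm_num) (by linarith) (by norm_num) (by norm_num) (by norm_num) (by norm_num) (by norm_num) (by norm_num) (by norm_num) (by norm_num) (by norm_num) (by norm_num) (by norm_num) (by norm_num) (by norm_num) (by norm_num) (by norm_num) (by norm_num) (by norm_num) (by norm_num) (by norm_num) (by norm_num) (by norm_num)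
    (cube_sqrt_geJ (s := 0.8217) (by norm_num) (by norm_num) (by norm_num) (by norm_num))
    (cube_sqrt_geJ (s := 0.9384) (by norm_num) (by norm_num) (by norm_num) (by norm_num))
    (by norm_num) (by norm_num) (by norm_num) (by norm_num) (by norm_num) (by norm_num) (by norm_num) (by norm_num) (by norm_num) (by norm_num) (by norm_num) (by norm_num) (by norm_num) (by norm_num) (by norm_num) (by norm_num) (by norm_num) (by norm_num)
    (exp_neg_leJ (r := 0.455) 5 (by norm_num) (by norm_num) (by norm_num) (by norm_num))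
    (exp_neg_leJ (r := 0.682) 3 (by norm_num) (by norm_num) (by norm_num) (by norm_num))
    (exp_neg_leJ (r := 0.51) 6 (by norm_num) (by norm_num) (by norm_num) (by norm_num))
    (exp_neg_leJ (r := 0.99) 14 (by norm_num) (by norm_num) (by norm_num) (by norm_num))
    (exp_neg_leJ (r := 0.734) 4 (by norm_num) (by norm_num) (by norm_num) (by norm_num))
    (exp_neg_leJ (r := 0.99) 14 (by norm_num) (by norm_num) (by norm_num) (by norm_num))
    (exp_neg_leJ (r := 0.99) 14 (by norm_num) (by norm_num) (by norm_num) (by norm_num))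
    (exp_neg_leJ (r := 0.99) 14 (by norm_num) (by norm_num) (by norm_num) (by norm_num))
    (by norm_num)) (by norm_num) hN hβ.le (by norm_num)

private theorem JD6a_p1_c1_b0_1 {β x y : ℝ} (hβ : 0 < β) (hN : β * 17.241 ≤ 1) (hx1 : 0.3856 ≤ x) (hx2 : x ≤ 0.4056)
    (hy1 : -0.481 ≤ y) (hy2 : y ≤ -0.401) : ‖HH β (x + y * I) - 1‖ ≤ 0.12 := by
  refine le_epsJ (C := 2.0608) (N0 := 17.241) (J_boxp 0.3856 0.4056 0.481 0 (-0.401) 0.64 0.6292 0.7235 1.6614 0.3394 4.1523 17.241 0.9832 4.015 1.567 0.8201 0.3199 0.2151 0.381 2.2995 0.2795 1.0339 1.0343 3.7729 0.004027 0.02455 0.001406 0.0000003101 0.008096 0.0000003101 0.0000003101 0.0000003101 2.0608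
    hβ hN hx1 hx2 hy1 hy2 (by norm_num) (by norm_num) (by linarith) (by norm_num) (by norm_num) (by norm_num) (by norm_num) (by norm_num) (by norm_num) (by norm_num) (by norm_num) (by norm_num) (by norm_num) (by norm_num) (by norm_num) (by norm_num) (by norm_num) (by norm_num) (by norm_num) (by norm_num) (by norm_num) (by norm_num) (by norm_num) (by norm_num)
    (cube_sqrt_geJ (s := 0.8199) (by norm_num) (by norm_num) (by norm_num) (by norm_num))
    (cube_sqrt_geJ (s := 0.9378) (by norm_num) (by norm_num) (by norm_num) (by norm_num))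
    (by norm_num) (by norm_num) (by norm_num) (by norm_num) (by norm_num) (by norm_num) (by norm_num) (by norm_num) (by norm_num) (by norm_num) (by norm_num) (by norm_num) (by norm_num) (by norm_num) (by norm_num) (by norm_num) (by norm_num) (by norm_num)
    (exp_neg_leJ (r := 0.515) 5 (by norm_num) (by norm_num) (by norm_num) (by norm_num))
    (exp_neg_leJ (r := 0.708) 3 (by norm_num) (by norm_num) (by norm_num) (by norm_num))
    (exp_neg_leJ (r := 0.568) 6 (by norm_num) (by norm_num) (by norm_num) (by norm_num))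
    (exp_neg_leJ (r := 0.99) 14 (by norm_num) (by norm_num) (by norm_num) (by norm_num))
    (exp_neg_leJ (r := 0.818) 4 (by norm_num) (by norm_num) (by norm_num) (by norm_num))
    (exp_neg_leJ (r := 0.99) 14 (by norm_num) (by norm_num) (by norm_num) (by norm_num))
    (exp_neg_leJ (r := 0.99) 14 (by norm_num) (by norm_num) (by norm_num) (by norm_num))
    (exp_neg_leJ (r := 0.99) 14 (by norm_num) (by norm_num) (by norm_num) (by norm_num))
    (by norm_num)) (by norm_num) hN hβ.le (by norm_num)

private theorem JD6a_p1_c1_b0_2 {β x y : ℝ} (hβ : 0 < β) (hN : β * 17.241 ≤ 1) (hx1 : 0.4056 ≤ x) (hx2 : x ≤ 0.4356)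
    (hy1 : -0.481 ≤ y) (hy2 : y ≤ -0.401) : ‖HH β (x + y * I) - 1‖ ≤ 0.12 := by
  refine le_epsJ (C := 2.0259) (N0 := 17.241) (J_boxp 0.4056 0.4356 0.481 0 (-0.401) 0.6541 0.649 0.7407 1.6269 0.3434 4.1523 17.241 0.9923 4.079 1.574 0.8085 0.327 0.2188 0.3878 2.2849 0.2892 1.0615 1.0743 3.7591 0.003566 0.02304 0.00125 0.0000003101 0.006857 0.0000003101 0.0000003101 0.0000003101 2.0259
    hβ hN hx1 hx2 hy1 hy2 (by norm_num) (by norm_num) (by linarith) (by norm_num) (by norm_num) (by norm_num) (by norm_num) (by norm_num) (by norm_num) (by norm_num) (by norm_num) (by norm_num) (by norm_num) (by norm_num) (by norm_num) (by norm_num) (by norm_num) (by norm_num) (by norm_num) (by norm_num) (by norm_num) (by norm_num) (by norm_num) (by norm_num)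
    (cube_sqrt_geJ (s := 0.818) (by norm_num) (by norm_num) (by norm_num) (by norm_num))
    (cube_sqrt_geJ (s := 0.9372) (by norm_num) (by norm_num) (by norm_num) (by norm_num))
    (by norm_num) (by norm_num) (by norm_num) (by norm_num) (by norm_num) (by norm_num) (by norm_num) (by norm_num) (by norm_num) (by norm_num) (by norm_num) (by norm_num) (by norm_num) (by norm_num) (by norm_num) (by norm_num) (by norm_num) (by norm_num)
    (exp_neg_leJ (r := 0.637) 5 (by norm_num) (by norm_num) (by norm_num) (by norm_num))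
    (exp_neg_leJ (r := 0.772) 3 (by norm_num) (by norm_num) (by norm_num) (by norm_num))
    (exp_neg_leJ (r := 0.686) 6 (by norm_num) (by norm_num) (by norm_num) (by norm_num))
    (exp_neg_leJ (r := 0.99) 14 (by norm_num) (by norm_num) (by norm_num) (by norm_num))
    (exp_neg_leJ (r := 0.986) 4 (by norm_num) (by norm_num) (by norm_num) (by norm_num))
    (exp_neg_leJ (r := 0.99) 14 (by norm_num) (by norm_num) (by norm_num) (by norm_num))
    (exp_neg_leJ (r := 0.99) 14 (by norm_num) (by norm_num) (by norm_num) (by norm_num))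
    (exp_neg_leJ (r := 0.99) 14 (by norm_num) (by norm_num) (by norm_num) (by norm_num))
    (by norm_num)) (by norm_num) hN hβ.le (by norm_num)

private theorem JD6a_p1_c1_b0_3 {β x y : ℝ} (hβ : 0 < β) (hN : β * 17.241 ≤ 1) (hx1 : 0.4356 ≤ x) (hx2 : x ≤ 0.4856)
    (hy1 : -0.481 ≤ y) (hy2 : y ≤ -0.401) : ‖HH β (x + y * I) - 1‖ ≤ 0.12 := by
  refine le_epsJ (C := 2.0203) (N0 := 17.241) (J_boxp 0.4356 0.4856 0.481 0 (-0.401) 0.6752 0.6835 0.7712 1.5829 0.3504 4.1523 17.241 1.0123 4.225 1.59 0.7893 0.3375 0.2236 0.3981 2.2602 0.3038 1.1031 1.1343 3.7253 0.002979 0.02122 0.001048 0.0000003101 0.005317 0.0000003101 0.0000003101 0.0000003101 2.0203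
    hβ hN hx1 hx2 hy1 hy2 (by norm_num) (by norm_num) (by linarith) (by norm_num) (by norm_num) (by norm_num) (by norm_num) (by norm_num) (by norm_num) (by norm_num) (by norm_num) (by norm_num) (by norm_num) (by norm_num) (by norm_num) (by norm_num) (by norm_num) (by norm_num) (by norm_num) (by norm_num) (by norm_num) (by norm_num) (by norm_num) (by norm_num)
    (cube_sqrt_geJ (s := 0.8139) (by norm_num) (by norm_num) (by norm_num) (by norm_num))
    (cube_sqrt_geJ (s := 0.9359) (by norm_num) (by norm_num) (by norm_num) (by norm_num))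
    (by norm_num) (by norm_num) (by norm_num) (by norm_num) (by norm_num) (by norm_num) (by norm_num) (by norm_num) (by norm_num) (by norm_num) (by norm_num) (by norm_num) (by norm_num) (by norm_num) (by norm_num) (by norm_num) (by norm_num) (by norm_num)
    (exp_neg_leJ (r := 0.818) 5 (by norm_num) (by norm_num) (by norm_num) (by norm_num))
    (exp_neg_leJ (r := 0.855) 3 (by norm_num) (by norm_num) (by norm_num) (by norm_num))
    (exp_neg_leJ (r := 0.863) 6 (by norm_num) (by norm_num) (by norm_num) (by norm_num))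
    (exp_neg_leJ (r := 0.99) 14 (by norm_num) (by norm_num) (by norm_num) (by norm_num))
    (exp_neg_leJ (r := 0.237) 5 (by norm_num) (by norm_num) (by norm_num) (by norm_num))
    (exp_neg_leJ (r := 0.99) 14 (by norm_num) (by norm_num) (by norm_num) (by norm_num))
    (exp_neg_leJ (r := 0.99) 14 (by norm_num) (by norm_num) (by norm_num) (by norm_num))
    (exp_neg_leJ (r := 0.99) 14 (by norm_num) (by norm_num) (by norm_num) (by norm_num))
    (by norm_num)) (by norm_num) hN hβ.le (by norm_num)

private theorem JD6a_p1_c1_b0_4 {β x y : ℝ} (hβ : 0 < β) (hN : β * 17.241 ≤ 1) (hx1 : 0.4856 ≤ x) (hx2 : x ≤ 0.5656)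
    (hy1 : -0.481 ≤ y) (hy2 : y ≤ -0.401) : ‖HH β (x + y * I) - 1‖ ≤ 0.12 := by
  refine le_epsJ (C := 2.0304) (N0 := 17.241) (J_boxp 0.4856 0.5656 0.481 0 (-0.401) 0.7104 0.7425 0.8239 1.516 0.3622 4.1523 17.241 1.0452 4.478 1.615 0.7585 0.3551 0.2314 0.4152 2.2196 0.3281 1.1723 1.2343 3.6649 0.002195 0.01859 0.0007787 0.0000003101 0.003499 0.0000003101 0.0000003101 0.0000003101 2.0304
    hβ hN hx1 hx2 hy1 hy2 (by norm_num) (by norm_num) (by linarith) (by norm_num) (by norm_num) (by norm_num) (by norm_num) (by norm_num) (by norm_num) (by norm_num) (by norm_num) (by norm_num) (by norm_num) (by norm_num) (by norm_num) (by norm_num) (by norm_num) (by norm_num) (by norm_num) (by norm_num) (by norm_num) (by norm_num) (by norm_num) (by norm_num)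
    (cube_sqrt_geJ (s := 0.8072) (by norm_num) (by norm_num) (by norm_num) (by norm_num))
    (cube_sqrt_geJ (s := 0.9338) (by norm_num) (by norm_num) (by norm_num) (by norm_num))
    (by norm_num) (by norm_num) (by norm_num) (by norm_num) (by norm_num) (by norm_num) (by norm_num) (by norm_num) (by norm_num) (by norm_num) (by norm_num) (by norm_num) (by norm_num) (by norm_num) (by norm_num) (by norm_num) (by norm_num) (by norm_num)
    (exp_neg_leJ (r := 0.122) 6 (by norm_num) (by norm_num) (by norm_num) (by norm_num))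
    (exp_neg_leJ (r := 0.989) 3 (by norm_num) (by norm_num) (by norm_num) (by norm_num))
    (exp_neg_leJ (r := 0.158) 7 (by norm_num) (by norm_num) (by norm_num) (by norm_num))
    (exp_neg_leJ (r := 0.99) 14 (by norm_num) (by norm_num) (by norm_num) (by norm_num))
    (exp_neg_leJ (r := 0.656) 5 (by norm_num) (by norm_num) (by norm_num) (by norm_num))
    (exp_neg_leJ (r := 0.99) 14 (by norm_num) (by norm_num) (by norm_num) (by norm_num))
    (exp_neg_leJ (r := 0.99) 14 (by norm_num) (by norm_num) (by norm_num) (by norm_num))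
    (exp_neg_leJ (r := 0.99) 14 (by norm_num) (by norm_num) (by norm_num) (by norm_num))
    (by norm_num)) (by norm_num) hN hβ.le (by norm_num)

private theorem JD6a_p1_c1_b0_5 {β x y : ℝ} (hβ : 0 < β) (hN : β * 17.241 ≤ 1) (hx1 : 0.5656 ≤ x) (hx2 : x ≤ 0.6856)
    (hy1 : -0.481 ≤ y) (hy2 : y ≤ -0.401) : ‖HH β (x + y * I) - 1‖ ≤ 0.12 := by
  refine le_epsJ (C := 2.0614) (N0 := 17.241) (J_boxp 0.5656 0.6856 0.481 0 (-0.401) 0.7667 0.8376 0.9105 1.4214 0.3807 4.1523 17.241 1.0925 4.88 1.654 0.7124 0.3833 0.2437 0.4426 2.157 0.3669 1.2831 1.3943 3.5664 0.001351 0.01499 0.000486 0.0000003101 0.001792 0.0000003101 0.0000003101 0.0000003101 2.0614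
    hβ hN hx1 hx2 hy1 hy2 (by norm_num) (by norm_num) (by linarith) (by norm_num) (by norm_num) (by norm_num) (by norm_num) (by norm_num) (by norm_num) (by norm_num) (by norm_num) (by norm_num) (by norm_num) (by norm_num) (by norm_num) (by norm_num) (by norm_num) (by norm_num) (by norm_num) (by norm_num) (by norm_num) (by norm_num) (by norm_num) (by norm_num)
    (cube_sqrt_geJ (s := 0.7973) (by norm_num) (by norm_num) (by norm_num) (by norm_num))
    (cube_sqrt_geJ (s := 0.9307) (by norm_num) (by norm_num) (by norm_num) (by norm_num))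
    (by norm_num) (by norm_num) (by norm_num) (by norm_num) (by norm_num) (by norm_num) (by norm_num) (by norm_num) (by norm_num) (by norm_num) (by norm_num) (by norm_num) (by norm_num) (by norm_num) (by norm_num) (by norm_num) (by norm_num) (by norm_num)
    (exp_neg_leJ (r := 0.608) 6 (by norm_num) (by norm_num) (by norm_num) (by norm_num))
    (exp_neg_leJ (r := 0.201) 4 (by norm_num) (by norm_num) (by norm_num) (by norm_num))
    (exp_neg_leJ (r := 0.63) 7 (by norm_num) (by norm_num) (by norm_num) (by norm_num))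
    (exp_neg_leJ (r := 0.99) 14 (by norm_num) (by norm_num) (by norm_num) (by norm_num))
    (exp_neg_leJ (r := 0.325) 6 (by norm_num) (by norm_num) (by norm_num) (by norm_num))
    (exp_neg_leJ (r := 0.99) 14 (by norm_num) (by norm_num) (by norm_num) (by norm_num))
    (exp_neg_leJ (r := 0.99) 14 (by norm_num) (by norm_num) (by norm_num) (by norm_num))
    (exp_neg_leJ (r := 0.99) 14 (by norm_num) (by norm_num) (by norm_num) (by norm_num))
    (by norm_num)) (by norm_num) hN hβ.le (by norm_num)

private theorem JD6a_p1_c1_b0_6 {β x y : ℝ} (hβ : 0 < β) (hN : β * 17.241 ≤ 1) (hx1 : 0.6856 ≤ x) (hx2 : x ≤ 0.8456)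
    (hy1 : -0.481 ≤ y) (hy2 : y ≤ -0.401) : ‖HH β (x + y * I) - 1‖ ≤ 0.12 := by
  refine le_epsJ (C := 2.056) (N0 := 17.241) (J_boxp 0.6856 0.8456 0.481 0 (-0.401) 0.8512 0.9729 1.0363 1.2963 0.4062 4.1523 17.241 1.143 5.36 1.696 0.6508 0.4255 0.2634 0.4837 2.0711 0.4252 1.4492 1.6343 3.4386 0.0006517 0.01067 0.0002391 0.0000003101 0.0006556 0.0000003101 0.0000003101 0.0000003101 2.056
    hβ hN hx1 hx2 hy1 hy2 (by norm_num) (by norm_num) (by linarith) (by norm_num) (by norm_num) (by norm_num) (by norm_num) (by norm_num) (by norm_num) (by norm_num) (by norm_num) (by norm_num) (by norm_num) (by norm_num) (by norm_num) (by norm_num) (by norm_num) (by norm_num) (by norm_num) (by norm_num) (by norm_num) (by norm_num) (by norm_num) (by norm_num)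
    (cube_sqrt_geJ (s := 0.7867) (by norm_num) (by norm_num) (by norm_num) (by norm_num))
    (cube_sqrt_geJ (s := 0.9273) (by norm_num) (by norm_num) (by norm_num) (by norm_num))
    (by norm_num) (by norm_num) (by norm_num) (by norm_num) (by norm_num) (by norm_num) (by norm_num) (by norm_num) (by norm_num) (by norm_num) (by norm_num) (by norm_num) (by norm_num) (by norm_num) (by norm_num) (by norm_num) (by norm_num) (by norm_num)
    (exp_neg_leJ (r := 0.336) 7 (by norm_num) (by norm_num) (by norm_num) (by norm_num))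
    (exp_neg_leJ (r := 0.541) 4 (by norm_num) (by norm_num) (by norm_num) (by norm_num))
    (exp_neg_leJ (r := 0.339) 8 (by norm_num) (by norm_num) (by norm_num) (by norm_num))
    (exp_neg_leJ (r := 0.99) 14 (by norm_num) (by norm_num) (by norm_num) (by norm_num))
    (exp_neg_leJ (r := 0.33) 7 (by norm_num) (by norm_num) (by norm_num) (by norm_num))
    (exp_neg_leJ (r := 0.99) 14 (by norm_num) (by norm_num) (by norm_num) (by norm_num))
    (exp_neg_leJ (r := 0.99) 14 (by norm_num) (by norm_num) (by norm_num) (by norm_num))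
    (exp_neg_leJ (r := 0.99) 14 (by norm_num) (by norm_num) (by norm_num) (by norm_num))
    (by norm_num)) (by norm_num) hN hβ.le (by norm_num)

private theorem JD6a_p1_c1_b0_7 {β x y : ℝ} (hβ : 0 < β) (hN : β * 17.241 ≤ 1) (hx1 : 0.8456 ≤ x) (hx2 : x ≤ 0.9279)
    (hy1 : -0.481 ≤ y) (hy2 : y ≤ -0.401) : ‖HH β (x + y * I) - 1‖ ≤ 0.12 := by
  refine le_epsJ (C := 1.434) (N0 := 17.241) (J_boxp 0.8456 0.9279 0.481 0 (-0.401) 0.9639 1.0452 1.1045 1.1106 0.4193 4.1523 17.241 1.0844 4.808 1.647 0.6192 0.4819 0.3077 0.5384 2.0263 0.5029 1.6708 1.9543 3.5621 0.0002466 0.004967 0.00009309 0.0000003101 0.0001718 0.0000003101 0.0000003101 0.0000003101 1.434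
    hβ hN hx1 hx2 hy1 hy2 (by norm_num) (by norm_num) (by linarith) (by norm_num) (by norm_num) (by norm_num) (by norm_num) (by norm_num) (by norm_num) (by norm_num) (by norm_num) (by norm_num) (by norm_num) (by norm_num) (by norm_num) (by norm_num) (by norm_num) (by norm_num) (by norm_num) (by norm_num) (by norm_num) (by norm_num) (by norm_num) (by norm_num)
    (cube_sqrt_geJ (s := 0.799) (by norm_num) (by norm_num) (by norm_num) (by norm_num))
    (cube_sqrt_geJ (s := 0.9312) (by norm_num) (by norm_num) (by norm_num) (by norm_num))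
    (by norm_num) (by norm_num) (by norm_num) (by norm_num) (by norm_num) (by norm_num) (by norm_num) (by norm_num) (by norm_num) (by norm_num) (by norm_num) (by norm_num) (by norm_num) (by norm_num) (by norm_num) (by norm_num) (by norm_num) (by norm_num)
    (exp_neg_leJ (r := 0.308) 8 (by norm_num) (by norm_num) (by norm_num) (by norm_num))
    (exp_neg_leJ (r := 0.305) 5 (by norm_num) (by norm_num) (by norm_num) (by norm_num))
    (exp_neg_leJ (r := 0.282) 9 (by norm_num) (by norm_num) (by norm_num) (by norm_num))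
    (exp_neg_leJ (r := 0.99) 14 (by norm_num) (by norm_num) (by norm_num) (by norm_num))
    (exp_neg_leJ (r := 0.67) 8 (by norm_num) (by norm_num) (by norm_num) (by norm_num))
    (exp_neg_leJ (r := 0.99) 14 (by norm_num) (by norm_num) (by norm_num) (by norm_num))
    (exp_neg_leJ (r := 0.99) 14 (by norm_num) (by norm_num) (by norm_num) (by norm_num))
    (exp_neg_leJ (r := 0.99) 14 (by norm_num) (by norm_num) (by norm_num) (by norm_num))
    (by norm_num)) (by norm_num) hN hβ.le (by norm_num)

private theorem JD6a_p1_c1_b1_0 {β x y : ℝ} (hβ : 0 < β) (hN : β * 17.241 ≤ 1) (hx1 : 0.3756 ≤ x) (hx2 : x ≤ 0.5356)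
    (hy1 : -0.401 ≤ y) (hy2 : y ≤ -0.067) : ‖HH β (x + y * I) - 1‖ ≤ 0.12 := by
  refine le_epsJ (C := 2.034) (N0 := 17.241) (J_boxp 0.3756 0.5356 0.401 0 (-0.067) 0.6898 0.6691 1.0759 1.8106 0.4139 4.1523 17.241 0.97 3.925 1.557 0.8439 0.3448 0.2333 0.5038 2.4998 0.3183 1.02 1.2318 3.6444 0.00263 0.01792 0.0001691 0.0000003101 0.004141 0.0000003101 0.0000003101 0.0000003101 2.034
    hβ hN hx1 hx2 hy1 hy2 (by norm_num) (by norm_num) (by linarith) (by norm_num) (by norm_num) (by norm_num) (by norm_num) (by norm_num) (by norm_num) (by norm_num) (by norm_num) (by norm_num) (by norm_num) (by norm_num) (by norm_num) (by norm_num) (by norm_num) (by norm_num) (by norm_num) (by norm_num) (by norm_num) (by norm_num) (by norm_num) (by norm_num)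
    (cube_sqrt_geJ (s := 0.8225) (by norm_num) (by norm_num) (by norm_num) (by norm_num))
    (cube_sqrt_geJ (s := 0.9387) (by norm_num) (by norm_num) (by norm_num) (by norm_num))
    (by norm_num) (by norm_num) (by norm_num) (by norm_num) (by norm_num) (by norm_num) (by norm_num) (by norm_num) (by norm_num) (by norm_num) (by norm_num) (by norm_num) (by norm_num) (by norm_num) (by norm_num) (by norm_num) (by norm_num) (by norm_num)
    (exp_neg_leJ (r := 0.944) 5 (by norm_num) (by norm_num) (by norm_num) (by norm_num))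
    (exp_neg_leJ (r := 0.022) 4 (by norm_num) (by norm_num) (by norm_num) (by norm_num))
    (exp_neg_leJ (r := 0.686) 8 (by norm_num) (by norm_num) (by norm_num) (by norm_num))
    (exp_neg_leJ (r := 0.99) 14 (by norm_num) (by norm_num) (by norm_num) (by norm_num))
    (exp_neg_leJ (r := 0.487) 5 (by norm_num) (by norm_num) (by norm_num) (by norm_num))
    (exp_neg_leJ (r := 0.99) 14 (by norm_num) (by norm_num) (by norm_num) (by norm_num))
    (exp_neg_leJ (r := 0.99) 14 (by norm_num) (by norm_num) (by norm_num) (by norm_num))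
    (exp_neg_leJ (r := 0.99) 14 (by norm_num) (by norm_num) (by norm_num) (by norm_num))
    (by norm_num)) (by norm_num) hN hβ.le (by norm_num)

private theorem JD6a_p1_c1_b1_1 {β x y : ℝ} (hβ : 0 < β) (hN : β * 17.241 ≤ 1) (hx1 : 0.5356 ≤ x) (hx2 : x ≤ 0.7556)
    (hy1 : -0.401 ≤ y) (hy2 : y ≤ -0.067) : ‖HH β (x + y * I) - 1‖ ≤ 0.12 := by
  refine le_epsJ (C := 2.0107) (N0 := 17.241) (J_boxp 0.5356 0.7556 0.401 0 (-0.067) 0.8024 0.8555 1.2006 1.5245 0.4372 4.1523 17.241 1.0662 4.651 1.632 0.7593 0.4011 0.2586 0.5586 2.3817 0.3961 1.2415 1.5518 3.4577 0.0009953 0.01159 0.00006577 0.0000003101 0.001084 0.0000003101 0.0000003101 0.0000003101 2.0107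
    hβ hN hx1 hx2 hy1 hy2 (by norm_num) (by norm_num) (by linarith) (by norm_num) (by norm_num) (by norm_num) (by norm_num) (by norm_num) (by norm_num) (by norm_num) (by norm_num) (by norm_num) (by norm_num) (by norm_num) (by norm_num) (by norm_num) (by norm_num) (by norm_num) (by norm_num) (by norm_num) (by norm_num) (by norm_num) (by norm_num) (by norm_num)
    (cube_sqrt_geJ (s := 0.8028) (by norm_num) (by norm_num) (by norm_num) (by norm_num))
    (cube_sqrt_geJ (s := 0.9324) (by norm_num) (by norm_num) (by norm_num) (by norm_num))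
    (by norm_num) (by norm_num) (by norm_num) (by norm_num) (by norm_num) (by norm_num) (by norm_num) (by norm_num) (by norm_num) (by norm_num) (by norm_num) (by norm_num) (by norm_num) (by norm_num) (by norm_num) (by norm_num) (by norm_num) (by norm_num)
    (exp_neg_leJ (r := 0.915) 6 (by norm_num) (by norm_num) (by norm_num) (by norm_num))
    (exp_neg_leJ (r := 0.458) 4 (by norm_num) (by norm_num) (by norm_num) (by norm_num))
    (exp_neg_leJ (r := 0.63) 9 (by norm_num) (by norm_num) (by norm_num) (by norm_num))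
    (exp_neg_leJ (r := 0.99) 14 (by norm_num) (by norm_num) (by norm_num) (by norm_num))
    (exp_neg_leJ (r := 0.829) 6 (by norm_num) (by norm_num) (by norm_num) (by norm_num))
    (exp_neg_leJ (r := 0.99) 14 (by norm_num) (by norm_num) (by norm_num) (by norm_num))
    (exp_neg_leJ (r := 0.99) 14 (by norm_num) (by norm_num) (by norm_num) (by norm_num))
    (exp_neg_leJ (r := 0.99) 14 (by norm_num) (by norm_num) (by norm_num) (by norm_num))
    (by norm_num)) (by norm_num) hN hβ.le (by norm_num)

private theorem JD6a_p1_c1_b1_2 {β x y : ℝ} (hβ : 0 < β) (hN : β * 17.241 ≤ 1) (hx1 : 0.7556 ≤ x) (hx2 : x ≤ 0.9279)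
    (hy1 : -0.401 ≤ y) (hy2 : y ≤ -0.067) : ‖HH β (x + y * I) - 1‖ ≤ 0.12 := by
  refine le_epsJ (C := 1.4637) (N0 := 17.241) (J_boxp 0.7556 0.9279 0.401 0 (-0.067) 0.9573 1.0109 1.3159 1.2248 0.4577 4.1523 17.241 1.056 4.566 1.624 0.693 0.4786 0.3101 0.6339 2.2866 0.5029 1.5462 1.9918 3.4753 0.0002611 0.004768 0.00001798 0.0000003101 0.0001718 0.0000003101 0.0000003101 0.0000003101 1.4637
    hβ hN hx1 hx2 hy1 hy2 (by norm_num) (by norm_num) (by linarith) (by norm_num) (by norm_num) (by norm_num) (by norm_num) (by norm_num) (by norm_num) (by norm_num) (by norm_num) (by norm_num) (by norm_num) (by norm_num) (by norm_num) (by norm_num) (by norm_num) (by norm_num) (by norm_num) (by norm_num) (by norm_num) (by norm_num) (by norm_num) (by norm_num)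
    (cube_sqrt_geJ (s := 0.8049) (by norm_num) (by norm_num) (by norm_num) (by norm_num))
    (cube_sqrt_geJ (s := 0.9331) (by norm_num) (by norm_num) (by norm_num) (by norm_num))
    (by norm_num) (by norm_num) (by norm_num) (by norm_num) (by norm_num) (by norm_num) (by norm_num) (by norm_num) (by norm_num) (by norm_num) (by norm_num) (by norm_num) (by norm_num) (by norm_num) (by norm_num) (by norm_num) (by norm_num) (by norm_num)
    (exp_neg_leJ (r := 0.251) 8 (by norm_num) (by norm_num) (by norm_num) (by norm_num))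
    (exp_neg_leJ (r := 0.346) 5 (by norm_num) (by norm_num) (by norm_num) (by norm_num))
    (exp_neg_leJ (r := 0.929) 10 (by norm_num) (by norm_num) (by norm_num) (by norm_num))
    (exp_neg_leJ (r := 0.99) 14 (by norm_num) (by norm_num) (by norm_num) (by norm_num))
    (exp_neg_leJ (r := 0.67) 8 (by norm_num) (by norm_num) (by norm_num) (by norm_num))
    (exp_neg_leJ (r := 0.99) 14 (by norm_num) (by norm_num) (by norm_num) (by norm_num))
    (exp_neg_leJ (r := 0.99) 14 (by norm_num) (by norm_num) (by norm_num) (by norm_num))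
    (exp_neg_leJ (r := 0.99) 14 (by norm_num) (by norm_num) (by norm_num) (by norm_num))
    (by norm_num)) (by norm_num) hN hβ.le (by norm_num)

private theorem JD6a_p1_c1 {κ t β : ℝ} (h : DomR κ t) (hβ : 0 < β) (hk1 : 0.5 ≤ κ) (hk2 : κ ≤ 0.58)
    (ht1 : -0.576 ≤ t + κ) (ht2 : t + κ ≤ -0.4398) (hR0 : β * 10 ≤ κ) (hR : β * (4.95 * (1 + κ ^ 2)) ≤ κ) :
    ∀ s : ℂ, ‖s - sg κ t‖ ≤ 0.15 → ‖HH β s - 1‖ ≤ 0.12 := by
  have hN : β * 17.241 ≤ 1 := bNR hβ h.1 hk2 hR0 (by norm_num)
  have hy1 : -0.331 ≤ sy κ t := syL_ge h 0.5 0.58 0.576 0.331 0.7182 0.71821 0.3989 0.40986 0.47546 hk1 hk2 (by linarith) (by norm_num) (by norm_num) (by norm_num)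
    (expm_ge (by norm_num) (by norm_num) (by norm_num) (by norm_num)) (expm_le (by norm_num) (by norm_num) (by norm_num)) (by norm_num)
    (by norm_num) (by norm_num) (by norm_num) (by norm_num) (by norm_num) (by norm_num)
  have hy2 : sy κ t ≤ -0.217 := syL_le h 0.5 0.58 0.4398 0.217 0.80492 0.80493 0.30115 0.34934 hk1 hk2 (by linarith) (by norm_num) (by norm_num) (by norm_num)
    (expm_ge (by norm_num) (by norm_num) (by norm_num) (by norm_num)) (expm_le (by norm_num) (by norm_num) (by norm_num)) (by norm_num)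
    (by norm_num) (by norm_num) (by norm_num) (by norm_num) (by norm_num) (by norm_num)
  have hx1 : 0.5256 ≤ sx κ t := sx_lo h 0.5 (-0.217) 0.331 1.24234 0.5256 hk1 (by norm_num) hy2 (abs_le.2 ⟨by linarith, by linarith⟩) (by rw [neg_neg]; exact expn_ge (by norm_num) (by norm_num)) (by norm_num) (by norm_num)
  have hx2 : sx κ t ≤ 0.7779 := sx_hi h 0.58 (-0.331) 0.217 1.39236 0.7779 hk2 hy1 (by norm_num) (by rw [abs_of_nonpos (by linarith)]; linarith) (by rw [neg_neg]; exact expn_le (by norm_num) (by norm_num) (by norm_num)) (by norm_num) (by norm_num)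
  intro s hs
  have hs' : ‖s - ((sx κ t : ℂ) + (sy κ t : ℂ) * I)‖ ≤ 0.15 := hs
  obtain ⟨es, ⟨s1, s2⟩, ⟨s3, s4⟩⟩ := disc_split hs'
  have X1 : 0.3756 ≤ s.re := by linarith
  have X2 : s.re ≤ 0.9279 := by linarith
  have Y1 : (-0.481) ≤ s.im := by linarith
  have Y2 : s.im ≤ (-0.067) := by linarith
  rw [es]
  rcases le_total s.im (-0.401) with f0 | g0
  · rcases le_total s.re 0.3856 with u0 | v0
    · exact JD6a_p1_c1_b0_0 hβ hN (by linarith) (by linarith) (by linarith) (by linarith)
    rcases le_total s.re 0.4056 with u1 | v1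
    · exact JD6a_p1_c1_b0_1 hβ hN (by linarith) (by linarith) (by linarith) (by linarith)
    rcases le_total s.re 0.4356 with u2 | v2
    · exact JD6a_p1_c1_b0_2 hβ hN (by linarith) (by linarith) (by linarith) (by linarith)
    rcases le_total s.re 0.4856 with u3 | v3
    · exact JD6a_p1_c1_b0_3 hβ hN (by linarith) (by linarith) (by linarith) (by linarith)
    rcases le_total s.re 0.5656 with u4 | v4
    · exact JD6a_p1_c1_b0_4 hβ hN (by linarith) (by linarith) (by linarith) (by linarith)
    rcases le_total s.re 0.6856 with u5 | v5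
    · exact JD6a_p1_c1_b0_5 hβ hN (by linarith) (by linarith) (by linarith) (by linarith)
    rcases le_total s.re 0.8456 with u6 | v6
    · exact JD6a_p1_c1_b0_6 hβ hN (by linarith) (by linarith) (by linarith) (by linarith)
    exact JD6a_p1_c1_b0_7 hβ hN (by linarith) (by linarith) (by linarith) (by linarith)
  rcases le_total s.re 0.5356 with u0 | v0
  · exact JD6a_p1_c1_b1_0 hβ hN (by linarith) (by linarith) (by linarith) (by linarith)
  rcases le_total s.re 0.7556 with u1 | v1
  · exact JD6a_p1_c1_b1_1 hβ hN (by linarith) (by linarith) (by linarith) (by linarith)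
  exact JD6a_p1_c1_b1_2 hβ hN (by linarith) (by linarith) (by linarith) (by linarith)

private theorem JD6a_p1_c2_b0_0 {β x y : ℝ} (hβ : 0 < β) (hN : β * 16.666 ≤ 1) (hx1 : 0.5015 ≤ x) (hx2 : x ≤ 0.5215)
    (hy1 : -0.484 ≤ y) (hy2 : y ≤ -0.124) : ‖HH β (x + y * I) - 1‖ ≤ 0.12 := by
  refine le_epsJ (C := 1.9394) (N0 := 16.666) (J_boxp 0.5015 0.5215 0.484 0 (-0.124) 0.7195 0.7115 1.0195 1.6545 0.4029 4.0825 16.666 0.9889 4.055 1.572 0.7727 0.3597 0.2411 0.4159 2.2322 0.3342 1.1943 1.258 3.781 0.002513 0.01799 0.0009797 0.0000003101 0.003816 0.0000003101 0.0000003101 0.0000003101 1.9394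
    hβ hN hx1 hx2 hy1 hy2 (by norm_num) (by norm_num) (by linarith) (by norm_num) (by norm_num) (by norm_num) (by norm_num) (by norm_num) (by norm_num) (by norm_num) (by norm_num) (by norm_num) (by norm_num) (by norm_num) (by norm_num) (by norm_num) (by norm_num) (by norm_num) (by norm_num) (by norm_num) (by norm_num) (by norm_num) (by norm_num) (by norm_num)
    (cube_sqrt_geJ (s := 0.8187) (by norm_num) (by norm_num) (by norm_num) (by norm_num))
    (cube_sqrt_geJ (s := 0.9375) (by norm_num) (by norm_num) (by norm_num) (by norm_num))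
    (by norm_num) (by norm_num) (by norm_num) (by norm_num) (by norm_num) (by norm_num) (by norm_num) (by norm_num) (by norm_num) (by norm_num) (by norm_num) (by norm_num) (by norm_num) (by norm_num) (by norm_num) (by norm_num) (by norm_num) (by norm_num)
    (exp_neg_leJ (r := 0.99) 5 (by norm_num) (by norm_num) (by norm_num) (by norm_num))
    (exp_neg_leJ (r := 0.018) 4 (by norm_num) (by norm_num) (by norm_num) (by norm_num))
    (exp_neg_leJ (r := 0.931) 6 (by norm_num) (by norm_num) (by norm_num) (by norm_num))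
    (exp_neg_leJ (r := 0.99) 14 (by norm_num) (by norm_num) (by norm_num) (by norm_num))
    (exp_neg_leJ (r := 0.569) 5 (by norm_num) (by norm_num) (by norm_num) (by norm_num))
    (exp_neg_leJ (r := 0.99) 14 (by norm_num) (by norm_num) (by norm_num) (by norm_num))
    (exp_neg_leJ (r := 0.99) 14 (by norm_num) (by norm_num) (by norm_num) (by norm_num))
    (exp_neg_leJ (r := 0.99) 14 (by norm_num) (by norm_num) (by norm_num) (by norm_num))
    (by norm_num)) (by norm_num) hN hβ.le (by norm_num)

private theorem JD6a_p1_c2_b0_1 {β x y : ℝ} (hβ : 0 < β) (hN : β * 16.666 ≤ 1) (hx1 : 0.5215 ≤ x) (hx2 : x ≤ 0.5615)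
    (hy1 : -0.484 ≤ y) (hy2 : y ≤ -0.124) : ‖HH β (x + y * I) - 1‖ ≤ 0.12 := by
  refine le_epsJ (C := 1.9851) (N0 := 16.666) (J_boxp 0.5215 0.5615 0.484 0 (-0.124) 0.7336 0.7414 1.0406 1.6236 0.407 4.0825 16.666 1.0107 4.212 1.588 0.7573 0.3667 0.2432 0.4228 2.2118 0.3439 1.222 1.298 3.7397 0.002219 0.01738 0.0008709 0.0000003101 0.003247 0.0000003101 0.0000003101 0.0000003101 1.9851
    hβ hN hx1 hx2 hy1 hy2 (by norm_num) (by norm_num) (by linarith) (by norm_num) (by norm_num) (by norm_num) (by norm_num) (by norm_num) (by norm_num) (by norm_num) (by norm_num) (by norm_num) (by norm_num) (by norm_num) (by norm_num) (by norm_num) (by norm_num) (by norm_num) (by norm_num) (by norm_num) (by norm_num) (by norm_num) (by norm_num) (by norm_num)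
    (cube_sqrt_geJ (s := 0.8143) (by norm_num) (by norm_num) (by norm_num) (by norm_num))
    (cube_sqrt_geJ (s := 0.936) (by norm_num) (by norm_num) (by norm_num) (by norm_num))
    (by norm_num) (by norm_num) (by norm_num) (by norm_num) (by norm_num) (by norm_num) (by norm_num) (by norm_num) (by norm_num) (by norm_num) (by norm_num) (by norm_num) (by norm_num) (by norm_num) (by norm_num) (by norm_num) (by norm_num) (by norm_num)
    (exp_neg_leJ (r := 0.111) 6 (by norm_num) (by norm_num) (by norm_num) (by norm_num))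
    (exp_neg_leJ (r := 0.053) 4 (by norm_num) (by norm_num) (by norm_num) (by norm_num))
    (exp_neg_leJ (r := 0.046) 7 (by norm_num) (by norm_num) (by norm_num) (by norm_num))
    (exp_neg_leJ (r := 0.99) 14 (by norm_num) (by norm_num) (by norm_num) (by norm_num))
    (exp_neg_leJ (r := 0.731) 5 (by norm_num) (by norm_num) (by norm_num) (by norm_num))
    (exp_neg_leJ (r := 0.99) 14 (by norm_num) (by norm_num) (by norm_num) (by norm_num))
    (exp_neg_leJ (r := 0.99) 14 (by norm_num) (by norm_num) (by norm_num) (by norm_num))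
    (exp_neg_leJ (r := 0.99) 14 (by norm_num) (by norm_num) (by norm_num) (by norm_num))
    (by norm_num)) (by norm_num) hN hβ.le (by norm_num)

private theorem JD6a_p1_c2_b0_2 {β x y : ℝ} (hβ : 0 < β) (hN : β * 16.666 ≤ 1) (hx1 : 0.5615 ≤ x) (hx2 : x ≤ 0.6215)
    (hy1 : -0.484 ≤ y) (hy2 : y ≤ -0.124) : ‖HH β (x + y * I) - 1‖ ≤ 0.12 := by
  refine le_epsJ (C := 1.9793) (N0 := 16.666) (J_boxp 0.5615 0.6215 0.484 0 (-0.124) 0.7617 0.7878 1.0741 1.5591 0.4135 4.0825 16.666 1.0343 4.392 1.607 0.7343 0.3808 0.2495 0.4365 2.1807 0.3633 1.2774 1.378 3.6936 0.001754 0.01564 0.0006934 0.0000003101 0.002349 0.0000003101 0.0000003101 0.0000003101 1.9793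
    hβ hN hx1 hx2 hy1 hy2 (by norm_num) (by norm_num) (by linarith) (by norm_num) (by norm_num) (by norm_num) (by norm_num) (by norm_num) (by norm_num) (by norm_num) (by norm_num) (by norm_num) (by norm_num) (by norm_num) (by norm_num) (by norm_num) (by norm_num) (by norm_num) (by norm_num) (by norm_num) (by norm_num) (by norm_num) (by norm_num) (by norm_num)
    (cube_sqrt_geJ (s := 0.8094) (by norm_num) (by norm_num) (by norm_num) (by norm_num))
    (cube_sqrt_geJ (s := 0.9345) (by norm_num) (by norm_num) (by norm_num) (by norm_num))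
    (by norm_num) (by norm_num) (by norm_num) (by norm_num) (by norm_num) (by norm_num) (by norm_num) (by norm_num) (by norm_num) (by norm_num) (by norm_num) (by norm_num) (by norm_num) (by norm_num) (by norm_num) (by norm_num) (by norm_num) (by norm_num)
    (exp_neg_leJ (r := 0.346) 6 (by norm_num) (by norm_num) (by norm_num) (by norm_num))
    (exp_neg_leJ (r := 0.158) 4 (by norm_num) (by norm_num) (by norm_num) (by norm_num))
    (exp_neg_leJ (r := 0.274) 7 (by norm_num) (by norm_num) (by norm_num) (by norm_num))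
    (exp_neg_leJ (r := 0.99) 14 (by norm_num) (by norm_num) (by norm_num) (by norm_num))
    (exp_neg_leJ (r := 0.054) 6 (by norm_num) (by norm_num) (by norm_num) (by norm_num))
    (exp_neg_leJ (r := 0.99) 14 (by norm_num) (by norm_num) (by norm_num) (by norm_num))
    (exp_neg_leJ (r := 0.99) 14 (by norm_num) (by norm_num) (by norm_num) (by norm_num))
    (exp_neg_leJ (r := 0.99) 14 (by norm_num) (by norm_num) (by norm_num) (by norm_num))
    (by norm_num)) (by norm_num) hN hβ.le (by norm_num)

private theorem JD6a_p1_c2_b0_3 {β x y : ℝ} (hβ : 0 < β) (hN : β * 16.666 ≤ 1) (hx1 : 0.6215 ≤ x) (hx2 : x ≤ 0.7115)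
    (hy1 : -0.484 ≤ y) (hy2 : y ≤ -0.124) : ‖HH β (x + y * I) - 1‖ ≤ 0.12 := by
  refine le_epsJ (C := 1.9984) (N0 := 16.666) (J_boxp 0.6215 0.7115 0.484 0 (-0.124) 0.804 0.8606 1.1286 1.4737 0.4239 4.0825 16.666 1.0704 4.687 1.636 0.6996 0.4019 0.2585 0.457 2.1334 0.3924 1.3605 1.498 3.6157 0.001235 0.01347 0.0004928 0.0000003101 0.001447 0.0000003101 0.0000003101 0.0000003101 1.9984
    hβ hN hx1 hx2 hy1 hy2 (by norm_num) (by norm_num) (by linarith) (by norm_num) (by norm_num) (by norm_num) (by norm_num) (by norm_num) (by norm_num) (by norm_num) (by norm_num) (by norm_num) (by norm_num) (by norm_num) (by norm_num) (by norm_num) (by norm_num) (by norm_num) (by norm_num) (by norm_num) (by norm_num) (by norm_num) (by norm_num) (by norm_num)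
    (cube_sqrt_geJ (s := 0.8019) (by norm_num) (by norm_num) (by norm_num) (by norm_num))
    (cube_sqrt_geJ (s := 0.9321) (by norm_num) (by norm_num) (by norm_num) (by norm_num))
    (by norm_num) (by norm_num) (by norm_num) (by norm_num) (by norm_num) (by norm_num) (by norm_num) (by norm_num) (by norm_num) (by norm_num) (by norm_num) (by norm_num) (by norm_num) (by norm_num) (by norm_num) (by norm_num) (by norm_num) (by norm_num)
    (exp_neg_leJ (r := 0.698) 6 (by norm_num) (by norm_num) (by norm_num) (by norm_num))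
    (exp_neg_leJ (r := 0.308) 4 (by norm_num) (by norm_num) (by norm_num) (by norm_num))
    (exp_neg_leJ (r := 0.616) 7 (by norm_num) (by norm_num) (by norm_num) (by norm_num))
    (exp_neg_leJ (r := 0.99) 14 (by norm_num) (by norm_num) (by norm_num) (by norm_num))
    (exp_neg_leJ (r := 0.539) 6 (by norm_num) (by norm_num) (by norm_num) (by norm_num))
    (exp_neg_leJ (r := 0.99) 14 (by norm_num) (by norm_num) (by norm_num) (by norm_num))
    (exp_neg_leJ (r := 0.99) 14 (by norm_num) (by norm_num) (by norm_num) (by norm_num))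
    (exp_neg_leJ (r := 0.99) 14 (by norm_num) (by norm_num) (by norm_num) (by norm_num))
    (by norm_num)) (by norm_num) hN hβ.le (by norm_num)

private theorem JD6a_p1_c2_b0_4 {β x y : ℝ} (hβ : 0 < β) (hN : β * 16.666 ≤ 1) (hx1 : 0.7115 ≤ x) (hx2 : x ≤ 0.8315)
    (hy1 : -0.484 ≤ y) (hy2 : y ≤ -0.124) : ‖HH β (x + y * I) - 1‖ ≤ 0.12 := by
  refine le_epsJ (C := 1.9803) (N0 := 16.666) (J_boxp 0.7115 0.8315 0.484 0 (-0.124) 0.8673 0.9622 1.2078 1.3607 0.4385 4.0825 16.666 1.1095 5.035 1.668 0.6535 0.4336 0.2732 0.4878 2.069 0.4362 1.4851 1.678 3.5195 0.0007275 0.01054 0.0002949 0.0000003101 0.0006969 0.0000003101 0.0000003101 0.0000003101 1.9803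
    hβ hN hx1 hx2 hy1 hy2 (by norm_num) (by norm_num) (by linarith) (by norm_num) (by norm_num) (by norm_num) (by norm_num) (by norm_num) (by norm_num) (by norm_num) (by norm_num) (by norm_num) (by norm_num) (by norm_num) (by norm_num) (by norm_num) (by norm_num) (by norm_num) (by norm_num) (by norm_num) (by norm_num) (by norm_num) (by norm_num) (by norm_num)
    (cube_sqrt_geJ (s := 0.7938) (by norm_num) (by norm_num) (by norm_num) (by norm_num))
    (cube_sqrt_geJ (s := 0.9295) (by norm_num) (by norm_num) (by norm_num) (by norm_num))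
    (by norm_num) (by norm_num) (by norm_num) (by norm_num) (by norm_num) (by norm_num) (by norm_num) (by norm_num) (by norm_num) (by norm_num) (by norm_num) (by norm_num) (by norm_num) (by norm_num) (by norm_num) (by norm_num) (by norm_num) (by norm_num)
    (exp_neg_leJ (r := 0.226) 7 (by norm_num) (by norm_num) (by norm_num) (by norm_num))
    (exp_neg_leJ (r := 0.553) 4 (by norm_num) (by norm_num) (by norm_num) (by norm_num))
    (exp_neg_leJ (r := 0.129) 8 (by norm_num) (by norm_num) (by norm_num) (by norm_num))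
    (exp_neg_leJ (r := 0.99) 14 (by norm_num) (by norm_num) (by norm_num) (by norm_num))
    (exp_neg_leJ (r := 0.269) 7 (by norm_num) (by norm_num) (by norm_num) (by norm_num))
    (exp_neg_leJ (r := 0.99) 14 (by norm_num) (by norm_num) (by norm_num) (by norm_num))
    (exp_neg_leJ (r := 0.99) 14 (by norm_num) (by norm_num) (by norm_num) (by norm_num))
    (exp_neg_leJ (r := 0.99) 14 (by norm_num) (by norm_num) (by norm_num) (by norm_num))
    (by norm_num)) (by norm_num) hN hβ.le (by norm_num)

private theorem JD6a_p1_c2_b0_5 {β x y : ℝ} (hβ : 0 < β) (hN : β * 16.666 ≤ 1) (hx1 : 0.8315 ≤ x) (hx2 : x ≤ 0.9549)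
    (hy1 : -0.484 ≤ y) (hy2 : y ≤ -0.124) : ‖HH β (x + y * I) - 1‖ ≤ 0.12 := by
  refine le_epsJ (C := 1.7983) (N0 := 16.666) (J_boxp 0.8315 0.9549 0.484 0 (-0.124) 0.9518 1.0706 1.2959 1.226 0.4542 4.0825 16.666 1.1249 5.181 1.68 0.606 0.4758 0.2974 0.5289 2.0017 0.4944 1.6513 1.918 3.4648 0.0003612 0.007063 0.0001489 0.0000003101 0.0002642 0.0000003101 0.0000003101 0.0000003101 1.7983
    hβ hN hx1 hx2 hy1 hy2 (by norm_num) (by norm_num) (by linarith) (by norm_num) (by norm_num) (by norm_num) (by norm_num) (by norm_num) (by norm_num) (by norm_num) (by norm_num) (by norm_num) (by norm_num) (by norm_num) (by norm_num) (by norm_num) (by norm_num) (by norm_num) (by norm_num) (by norm_num) (by norm_num) (by norm_num) (by norm_num) (by norm_num)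
    (cube_sqrt_geJ (s := 0.7905) (by norm_num) (by norm_num) (by norm_num) (by norm_num))
    (cube_sqrt_geJ (s := 0.9285) (by norm_num) (by norm_num) (by norm_num) (by norm_num))
    (by norm_num) (by norm_num) (by norm_num) (by norm_num) (by norm_num) (by norm_num) (by norm_num) (by norm_num) (by norm_num) (by norm_num) (by norm_num) (by norm_num) (by norm_num) (by norm_num) (by norm_num) (by norm_num) (by norm_num) (by norm_num)
    (exp_neg_leJ (r := 0.929) 7 (by norm_num) (by norm_num) (by norm_num) (by norm_num))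
    (exp_neg_leJ (r := 0.956) 4 (by norm_num) (by norm_num) (by norm_num) (by norm_num))
    (exp_neg_leJ (r := 0.814) 8 (by norm_num) (by norm_num) (by norm_num) (by norm_num))
    (exp_neg_leJ (r := 0.99) 14 (by norm_num) (by norm_num) (by norm_num) (by norm_num))
    (exp_neg_leJ (r := 0.239) 8 (by norm_num) (by norm_num) (by norm_num) (by norm_num))
    (exp_neg_leJ (r := 0.99) 14 (by norm_num) (by norm_num) (by norm_num) (by norm_num))
    (exp_neg_leJ (r := 0.99) 14 (by norm_num) (by norm_num) (by norm_num) (by norm_num))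
    (exp_neg_leJ (r := 0.99) 14 (by norm_num) (by norm_num) (by norm_num) (by norm_num))
    (by norm_num)) (by norm_num) hN hβ.le (by norm_num)

private theorem JD6a_p1_c2_b1_0 {β x y : ℝ} (hβ : 0 < β) (hN : β * 16.666 ≤ 1) (hx1 : 0.5015 ≤ x) (hx2 : x ≤ 0.9549)
    (hy1 : -0.124 ≤ y) (hy2 : y ≤ -0.083) : ‖HH β (x + y * I) - 1‖ ≤ 0.12 := by
  refine le_epsJ (C := 1.1847) (N0 := 16.666) (J_boxp 0.5015 0.9549 0.124 0 (-0.083) 0.9751 0.963 1.324 1.1951 0.4591 4.0825 16.666 0.9876 4.046 1.571 0.9383 0.4875 0.327 0.9842 3.1606 0.5308 1.1943 2.2366 3.0973 0.0002964 0.004302 0.0000003101 0.0000003101 0.0001443 0.0000003101 0.0000003101 0.0000003101 1.1847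
    hβ hN hx1 hx2 hy1 hy2 (by norm_num) (by norm_num) (by linarith) (by norm_num) (by norm_num) (by norm_num) (by norm_num) (by norm_num) (by norm_num) (by norm_num) (by norm_num) (by norm_num) (by norm_num) (by norm_num) (by norm_num) (by norm_num) (by norm_num) (by norm_num) (by norm_num) (by norm_num) (by norm_num) (by norm_num) (by norm_num) (by norm_num)
    (cube_sqrt_geJ (s := 0.819) (by norm_num) (by norm_num) (by norm_num) (by norm_num))
    (cube_sqrt_geJ (s := 0.9375) (by norm_num) (by norm_num) (by norm_num) (by norm_num))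
    (by norm_num) (by norm_num) (by norm_num) (by norm_num) (by norm_num) (by norm_num) (by norm_num) (by norm_num) (by norm_num) (by norm_num) (by norm_num) (by norm_num) (by norm_num) (by norm_num) (by norm_num) (by norm_num) (by norm_num) (by norm_num)
    (exp_neg_leJ (r := 0.124) 8 (by norm_num) (by norm_num) (by norm_num) (by norm_num))
    (exp_neg_leJ (r := 0.449) 5 (by norm_num) (by norm_num) (by norm_num) (by norm_num))
    (exp_neg_leJ (r := 0.99) 14 (by norm_num) (by norm_num) (by norm_num) (by norm_num))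
    (exp_neg_leJ (r := 0.99) 14 (by norm_num) (by norm_num) (by norm_num) (by norm_num))
    (exp_neg_leJ (r := 0.846) 8 (by norm_num) (by norm_num) (by norm_num) (by norm_num))
    (exp_neg_leJ (r := 0.99) 14 (by norm_num) (by norm_num) (by norm_num) (by norm_num))
    (exp_neg_leJ (r := 0.99) 14 (by norm_num) (by norm_num) (by norm_num) (by norm_num))
    (exp_neg_leJ (r := 0.99) 14 (by norm_num) (by norm_num) (by norm_num) (by norm_num))
    (by norm_num)) (by norm_num) hN hβ.le (by norm_num)

private theorem JD6a_p1_c2 {κ t β : ℝ} (h : DomR κ t) (hβ : 0 < β) (hk1 : 0.58 ≤ κ) (hk2 : κ ≤ 0.6)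
    (ht1 : -0.576 ≤ t + κ) (ht2 : t + κ ≤ -0.4398) (hR0 : β * 10 ≤ κ) (hR : β * (4.95 * (1 + κ ^ 2)) ≤ κ) :
    ∀ s : ℂ, ‖s - sg κ t‖ ≤ 0.15 → ‖HH β s - 1‖ ≤ 0.12 := by
  have hN : β * 16.666 ≤ 1 := bNR hβ h.1 hk2 hR0 (by norm_num)
  have hy1 : -0.334 ≤ sy κ t := syL_ge h 0.58 0.6 0.576 0.334 0.71605 0.71606 0.3951 0.3986 0.41236 hk1 hk2 (by linarith) (by norm_num) (by norm_num) (by norm_num)
    (expm_ge (by norm_num) (by norm_num) (by norm_num) (by norm_num)) (expm_le (by norm_num) (by norm_num) (by norm_num)) (by norm_num)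
    (by norm_num) (by norm_num) (by norm_num) (by norm_num) (by norm_num) (by norm_num)
  have hy2 : sy κ t ≤ -0.233 := syL_le h 0.58 0.6 0.4398 0.233 0.79215 0.79216 0.30761 0.31823 hk1 hk2 (by linarith) (by norm_num) (by norm_num) (by norm_num)
    (expm_ge (by norm_num) (by norm_num) (by norm_num) (by norm_num)) (expm_le (by norm_num) (by norm_num) (by norm_num)) (by norm_num)
    (by norm_num) (by norm_num) (by norm_num) (by norm_num) (by norm_num) (by norm_num)
  have hx1 : 0.6515 ≤ sx κ t := sx_lo h 0.58 (-0.233) 0.334 1.26238 0.6515 hk1 (by norm_num) hy2 (abs_le.2 ⟨by linarith, by linarith⟩) (by rw [neg_neg]; exact expn_ge (by norm_num) (by norm_num)) (by norm_num) (by norm_num)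
  have hx2 : sx κ t ≤ 0.8049 := sx_hi h 0.6 (-0.334) 0.233 1.39655 0.8049 hk2 hy1 (by norm_num) (by rw [abs_of_nonpos (by linarith)]; linarith) (by rw [neg_neg]; exact expn_le (by norm_num) (by norm_num) (by norm_num)) (by norm_num) (by norm_num)
  intro s hs
  have hs' : ‖s - ((sx κ t : ℂ) + (sy κ t : ℂ) * I)‖ ≤ 0.15 := hs
  obtain ⟨es, ⟨s1, s2⟩, ⟨s3, s4⟩⟩ := disc_split hs'
  have X1 : 0.5015 ≤ s.re := by linarith
  have X2 : s.re ≤ 0.9549 := by linarith
  have Y1 : (-0.484) ≤ s.im := by linarith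
  have Y2 : s.im ≤ (-0.083) := by linarith
  rw [es]
  rcases le_total s.im (-0.124) with f0 | g0
  · rcases le_total s.re 0.5215 with u0 | v0
    · exact JD6a_p1_c2_b0_0 hβ hN (by linarith) (by linarith) (by linarith) (by linarith)
    rcases le_total s.re 0.5615 with u1 | v1
    · exact JD6a_p1_c2_b0_1 hβ hN (by linarith) (by linarith) (by linarith) (by linarith)
    rcases le_total s.re 0.6215 with u2 | v2
    · exact JD6a_p1_c2_b0_2 hβ hN (by linarith) (by linarith) (by linarith) (by linarith)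
    rcases le_total s.re 0.7115 with u3 | v3
    · exact JD6a_p1_c2_b0_3 hβ hN (by linarith) (by linarith) (by linarith) (by linarith)
    rcases le_total s.re 0.8315 with u4 | v4
    · exact JD6a_p1_c2_b0_4 hβ hN (by linarith) (by linarith) (by linarith) (by linarith)
    exact JD6a_p1_c2_b0_5 hβ hN (by linarith) (by linarith) (by linarith) (by linarith)
  exact JD6a_p1_c2_b1_0 hβ hN (by linarith) (by linarith) (by linarith) (by linarith)

theorem JD6a_1 {κ t β : ℝ} (h : DomR κ t) (hβ : 0 < β) (hk1 : 0.45 ≤ κ) (hk2 : κ ≤ 0.6)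
    (ht1 : -0.576 ≤ t + κ) (ht2 : t + κ ≤ -0.4398) (hR0 : β * 10 ≤ κ) (hR : β * (4.95 * (1 + κ ^ 2)) ≤ κ) :
    ∀ s : ℂ, ‖s - sg κ t‖ ≤ 0.15 → ‖HH β s - 1‖ ≤ 0.12 := by
  rcases le_total κ 0.5 with f0 | g0
  · exact JD6a_p1_c0 h hβ hk1 f0 ht1 ht2 hR0 hR
  rcases le_total κ 0.58 with f1 | g1
  · exact JD6a_p1_c1 h hβ g0 f1 ht1 ht2 hR0 hR
  exact JD6a_p1_c2 h hβ g1 hk2 ht1 ht2 hR0 hR

private theorem JD6a_p2_c0_b0_0 {β x y : ℝ} (hβ : 0 < β) (hN : β * 13.698 ≤ 1) (hx1 : 0.5283 ≤ x) (hx2 : x ≤ 0.5383)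
    (hy1 : -0.492 ≤ y) (hy2 : y ≤ -0.412) : ‖HH β (x + y * I) - 1‖ ≤ 0.14 := by
  refine le_epsJ (C := 1.9081) (N0 := 13.698) (J_boxp 0.5283 0.5383 0.492 0 (-0.412) 0.7327 0.7293 0.7972 1.4237 0.3562 3.7011 13.698 0.9954 4.101 1.577 0.7589 0.3663 0.2447 0.4125 2.1971 0.3428 1.2314 1.2898 3.7862 0.006625 0.03506 0.00352 0.0000003101 0.009148 0.0000003101 0.0000003101 0.0000003101 1.9081
    hβ hN hx1 hx2 hy1 hy2 (by norm_num) (by norm_num) (by linarith) (by norm_num) (by norm_num) (by norm_num) (by norm_num) (by norm_num) (by norm_num) (by norm_num) (by norm_num) (by norm_num) (by norm_num) (by norm_num) (by norm_num) (by norm_num) (by norm_num) (by norm_num) (by norm_num) (by norm_num) (by norm_num) (by norm_num) (by norm_num) (by norm_num)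
    (cube_sqrt_geJ (s := 0.8174) (by norm_num) (by norm_num) (by norm_num) (by norm_num))
    (cube_sqrt_geJ (s := 0.937) (by norm_num) (by norm_num) (by norm_num) (by norm_num))
    (by norm_num) (by norm_num) (by norm_num) (by norm_num) (by norm_num) (by norm_num) (by norm_num) (by norm_num) (by norm_num) (by norm_num) (by norm_num) (by norm_num) (by norm_num) (by norm_num) (by norm_num) (by norm_num) (by norm_num) (by norm_num)
    (exp_neg_leJ (r := 0.017) 5 (by norm_num) (by norm_num) (by norm_num) (by norm_num))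
    (exp_neg_leJ (r := 0.351) 3 (by norm_num) (by norm_num) (by norm_num) (by norm_num))
    (exp_neg_leJ (r := 0.65) 5 (by norm_num) (by norm_num) (by norm_num) (by norm_num))
    (exp_neg_leJ (r := 0.99) 14 (by norm_num) (by norm_num) (by norm_num) (by norm_num))
    (exp_neg_leJ (r := 0.695) 4 (by norm_num) (by norm_num) (by norm_num) (by norm_num))
    (exp_neg_leJ (r := 0.99) 14 (by norm_num) (by norm_num) (by norm_num) (by norm_num))
    (exp_neg_leJ (r := 0.99) 14 (by norm_num) (by norm_num) (by norm_num) (by norm_num))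
    (exp_neg_leJ (r := 0.99) 14 (by norm_num) (by norm_num) (by norm_num) (by norm_num))
    (by norm_num)) (by norm_num) hN hβ.le (by norm_num)

private theorem JD6a_p2_c0_b0_1 {β x y : ℝ} (hβ : 0 < β) (hN : β * 13.698 ≤ 1) (hx1 : 0.5383 ≤ x) (hx2 : x ≤ 0.5483)
    (hy1 : -0.492 ≤ y) (hy2 : y ≤ -0.412) : ‖HH β (x + y * I) - 1‖ ≤ 0.14 := by
  refine le_epsJ (C := 1.8767) (N0 := 13.698) (J_boxp 0.5383 0.5483 0.492 0 (-0.412) 0.7397 0.7367 0.804 1.4095 0.3578 3.7011 13.698 0.996 4.105 1.577 0.755 0.3698 0.247 0.4159 2.192 0.3477 1.2453 1.3098 3.7861 0.006314 0.03395 0.003362 0.0000003101 0.008559 0.0000003101 0.0000003101 0.0000003101 1.8767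
    hβ hN hx1 hx2 hy1 hy2 (by norm_num) (by norm_num) (by linarith) (by norm_num) (by norm_num) (by norm_num) (by norm_num) (by norm_num) (by norm_num) (by norm_num) (by norm_num) (by norm_num) (by norm_num) (by norm_num) (by norm_num) (by norm_num) (by norm_num) (by norm_num) (by norm_num) (by norm_num) (by norm_num) (by norm_num) (by norm_num) (by norm_num)
    (cube_sqrt_geJ (s := 0.8173) (by norm_num) (by norm_num) (by norm_num) (by norm_num))
    (cube_sqrt_geJ (s := 0.937) (by norm_num) (by norm_num) (by norm_num) (by norm_num))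
    (by norm_num) (by norm_num) (by norm_num) (by norm_num) (by norm_num) (by norm_num) (by norm_num) (by norm_num) (by norm_num) (by norm_num) (by norm_num) (by norm_num) (by norm_num) (by norm_num) (by norm_num) (by norm_num) (by norm_num) (by norm_num)
    (exp_neg_leJ (r := 0.065) 5 (by norm_num) (by norm_num) (by norm_num) (by norm_num))
    (exp_neg_leJ (r := 0.383) 3 (by norm_num) (by norm_num) (by norm_num) (by norm_num))
    (exp_neg_leJ (r := 0.696) 5 (by norm_num) (by norm_num) (by norm_num) (by norm_num))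
    (exp_neg_leJ (r := 0.99) 14 (by norm_num) (by norm_num) (by norm_num) (by norm_num))
    (exp_neg_leJ (r := 0.762) 4 (by norm_num) (by norm_num) (by norm_num) (by norm_num))
    (exp_neg_leJ (r := 0.99) 14 (by norm_num) (by norm_num) (by norm_num) (by norm_num))
    (exp_neg_leJ (r := 0.99) 14 (by norm_num) (by norm_num) (by norm_num) (by norm_num))
    (exp_neg_leJ (r := 0.99) 14 (by norm_num) (by norm_num) (by norm_num) (by norm_num))
    (by norm_num)) (by norm_num) hN hβ.le (by norm_num)

private theorem JD6a_p2_c0_b0_2 {β x y : ℝ} (hβ : 0 < β) (hN : β * 13.698 ≤ 1) (hx1 : 0.5483 ≤ x) (hx2 : x ≤ 0.5683)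
    (hy1 : -0.492 ≤ y) (hy2 : y ≤ -0.412) : ‖HH β (x + y * I) - 1‖ ≤ 0.14 := by
  refine le_epsJ (C := 1.9) (N0 := 13.698) (J_boxp 0.5483 0.5683 0.492 0 (-0.412) 0.7467 0.7517 0.8178 1.4016 0.3608 3.7011 13.698 1.0067 4.183 1.585 0.7473 0.3733 0.248 0.4193 2.1818 0.3525 1.2591 1.3298 3.7653 0.006019 0.03348 0.003209 0.0000003101 0.008016 0.0000003101 0.0000003101 0.0000003101 1.9
    hβ hN hx1 hx2 hy1 hy2 (by norm_num) (by norm_num) (by linarith) (by norm_num) (by norm_num) (by norm_num) (by norm_num) (by norm_num) (by norm_num) (by norm_num) (by norm_num) (by norm_num) (by norm_num) (by norm_num) (by norm_num) (by norm_num) (by norm_num) (by norm_num) (by norm_num) (by norm_num) (by norm_num) (by norm_num) (by norm_num) (by norm_num)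
    (cube_sqrt_geJ (s := 0.8151) (by norm_num) (by norm_num) (by norm_num) (by norm_num))
    (cube_sqrt_geJ (s := 0.9363) (by norm_num) (by norm_num) (by norm_num) (by norm_num))
    (by norm_num) (by norm_num) (by norm_num) (by norm_num) (by norm_num) (by norm_num) (by norm_num) (by norm_num) (by norm_num) (by norm_num) (by norm_num) (by norm_num) (by norm_num) (by norm_num) (by norm_num) (by norm_num) (by norm_num) (by norm_num)
    (exp_neg_leJ (r := 0.113) 5 (by norm_num) (by norm_num) (by norm_num) (by norm_num))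
    (exp_neg_leJ (r := 0.397) 3 (by norm_num) (by norm_num) (by norm_num) (by norm_num))
    (exp_neg_leJ (r := 0.743) 5 (by norm_num) (by norm_num) (by norm_num) (by norm_num))
    (exp_neg_leJ (r := 0.99) 14 (by norm_num) (by norm_num) (by norm_num) (by norm_num))
    (exp_neg_leJ (r := 0.828) 4 (by norm_num) (by norm_num) (by norm_num) (by norm_num))
    (exp_neg_leJ (r := 0.99) 14 (by norm_num) (by norm_num) (by norm_num) (by norm_num))
    (exp_neg_leJ (r := 0.99) 14 (by norm_num) (by norm_num) (by norm_num) (by norm_num))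
    (exp_neg_leJ (r := 0.99) 14 (by norm_num) (by norm_num) (by norm_num) (by norm_num))
    (by norm_num)) (by norm_num) hN hβ.le (by norm_num)

private theorem JD6a_p2_c0_b0_3 {β x y : ℝ} (hβ : 0 < β) (hN : β * 13.698 ≤ 1) (hx1 : 0.5683 ≤ x) (hx2 : x ≤ 0.5983)
    (hy1 : -0.492 ≤ y) (hy2 : y ≤ -0.412) : ‖HH β (x + y * I) - 1‖ ≤ 0.14 := by
  refine le_epsJ (C := 1.8974) (N0 := 13.698) (J_boxp 0.5683 0.5983 0.492 0 (-0.412) 0.7608 0.7747 0.8389 1.3803 0.3654 3.7011 13.698 1.0183 4.269 1.594 0.7358 0.3803 0.2512 0.4262 2.1663 0.3622 1.2868 1.3698 3.7428 0.005468 0.03207 0.00292 0.0000003101 0.007028 0.0000003101 0.0000003101 0.0000003101 1.8974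
    hβ hN hx1 hx2 hy1 hy2 (by norm_num) (by norm_num) (by linarith) (by norm_num) (by norm_num) (by norm_num) (by norm_num) (by norm_num) (by norm_num) (by norm_num) (by norm_num) (by norm_num) (by norm_num) (by norm_num) (by norm_num) (by norm_num) (by norm_num) (by norm_num) (by norm_num) (by norm_num) (by norm_num) (by norm_num) (by norm_num) (by norm_num)
    (cube_sqrt_geJ (s := 0.8127) (by norm_num) (by norm_num) (by norm_num) (by norm_num))
    (cube_sqrt_geJ (s := 0.9355) (by norm_num) (by norm_num) (by norm_num) (by norm_num))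
    (by norm_num) (by norm_num) (by norm_num) (by norm_num) (by norm_num) (by norm_num) (by norm_num) (by norm_num) (by norm_num) (by norm_num) (by norm_num) (by norm_num) (by norm_num) (by norm_num) (by norm_num) (by norm_num) (by norm_num) (by norm_num)
    (exp_neg_leJ (r := 0.209) 5 (by norm_num) (by norm_num) (by norm_num) (by norm_num))
    (exp_neg_leJ (r := 0.44) 3 (by norm_num) (by norm_num) (by norm_num) (by norm_num))
    (exp_neg_leJ (r := 0.838) 5 (by norm_num) (by norm_num) (by norm_num) (by norm_num))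
    (exp_neg_leJ (r := 0.99) 14 (by norm_num) (by norm_num) (by norm_num) (by norm_num))
    (exp_neg_leJ (r := 0.961) 4 (by norm_num) (by norm_num) (by norm_num) (by norm_num))
    (exp_neg_leJ (r := 0.99) 14 (by norm_num) (by norm_num) (by norm_num) (by norm_num))
    (exp_neg_leJ (r := 0.99) 14 (by norm_num) (by norm_num) (by norm_num) (by norm_num))
    (exp_neg_leJ (r := 0.99) 14 (by norm_num) (by norm_num) (by norm_num) (by norm_num))
    (by norm_num)) (by norm_num) hN hβ.le (by norm_num)

private theorem JD6a_p2_c0_b0_4 {β x y : ℝ} (hβ : 0 < β) (hN : β * 13.698 ≤ 1) (hx1 : 0.5983 ≤ x) (hx2 : x ≤ 0.6383)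
    (hy1 : -0.492 ≤ y) (hy2 : y ≤ -0.412) : ‖HH β (x + y * I) - 1‖ ≤ 0.14 := by
  refine le_epsJ (C := 1.8723) (N0 := 13.698) (J_boxp 0.5983 0.6383 0.492 0 (-0.412) 0.7819 0.806 0.8679 1.3475 0.3717 3.7011 13.698 1.0309 4.366 1.604 0.7204 0.3909 0.2566 0.4364 2.1455 0.3768 1.3284 1.4298 3.7177 0.00473 0.02979 0.002545 0.0000003101 0.005737 0.0000003101 0.0000003101 0.0000003101 1.8723
    hβ hN hx1 hx2 hy1 hy2 (by norm_num) (by norm_num) (by linarith) (by norm_num) (by norm_num) (by norm_num) (by norm_num) (by norm_num) (by norm_num) (by norm_num) (by norm_num) (by norm_num) (by norm_num) (by norm_num) (by norm_num) (by norm_num) (by norm_num) (by norm_num) (by norm_num) (by norm_num) (by norm_num) (by norm_num) (by norm_num) (by norm_num)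
    (cube_sqrt_geJ (s := 0.8101) (by norm_num) (by norm_num) (by norm_num) (by norm_num))
    (cube_sqrt_geJ (s := 0.9347) (by norm_num) (by norm_num) (by norm_num) (by norm_num))
    (by norm_num) (by norm_num) (by norm_num) (by norm_num) (by norm_num) (by norm_num) (by norm_num) (by norm_num) (by norm_num) (by norm_num) (by norm_num) (by norm_num) (by norm_num) (by norm_num) (by norm_num) (by norm_num) (by norm_num) (by norm_num)
    (exp_neg_leJ (r := 0.354) 5 (by norm_num) (by norm_num) (by norm_num) (by norm_num))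
    (exp_neg_leJ (r := 0.514) 3 (by norm_num) (by norm_num) (by norm_num) (by norm_num))
    (exp_neg_leJ (r := 0.977) 5 (by norm_num) (by norm_num) (by norm_num) (by norm_num))
    (exp_neg_leJ (r := 0.99) 14 (by norm_num) (by norm_num) (by norm_num) (by norm_num))
    (exp_neg_leJ (r := 0.161) 5 (by norm_num) (by norm_num) (by norm_num) (by norm_num))
    (exp_neg_leJ (r := 0.99) 14 (by norm_num) (by norm_num) (by norm_num) (by norm_num))
    (exp_neg_leJ (r := 0.99) 14 (by norm_num) (by norm_num) (by norm_num) (by norm_num))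
    (exp_neg_leJ (r := 0.99) 14 (by norm_num) (by norm_num) (by norm_num) (by norm_num))
    (by norm_num)) (by norm_num) hN hβ.le (by norm_num)

private theorem JD6a_p2_c0_b0_5 {β x y : ℝ} (hβ : 0 < β) (hN : β * 13.698 ≤ 1) (hx1 : 0.6383 ≤ x) (hx2 : x ≤ 0.6983)
    (hy1 : -0.492 ≤ y) (hy2 : y ≤ -0.412) : ‖HH β (x + y * I) - 1‖ ≤ 0.14 := by
  refine le_epsJ (C := 1.8858) (N0 := 13.698) (J_boxp 0.6383 0.6983 0.492 0 (-0.412) 0.8101 0.8543 0.9129 1.3104 0.3812 3.7011 13.698 1.0546 4.555 1.623 0.6973 0.405 0.2626 0.4501 2.114 0.3962 1.3837 1.5098 3.6664 0.003901 0.02742 0.002102 0.0000003101 0.004397 0.0000003101 0.0000003101 0.0000003101 1.8858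
    hβ hN hx1 hx2 hy1 hy2 (by norm_num) (by norm_num) (by linarith) (by norm_num) (by norm_num) (by norm_num) (by norm_num) (by norm_num) (by norm_num) (by norm_num) (by norm_num) (by norm_num) (by norm_num) (by norm_num) (by norm_num) (by norm_num) (by norm_num) (by norm_num) (by norm_num) (by norm_num) (by norm_num) (by norm_num) (by norm_num) (by norm_num)
    (cube_sqrt_geJ (s := 0.8052) (by norm_num) (by norm_num) (by norm_num) (by norm_num))
    (cube_sqrt_geJ (s := 0.9332) (by norm_num) (by norm_num) (by norm_num) (by norm_num))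
    (by norm_num) (by norm_num) (by norm_num) (by norm_num) (by norm_num) (by norm_num) (by norm_num) (by norm_num) (by norm_num) (by norm_num) (by norm_num) (by norm_num) (by norm_num) (by norm_num) (by norm_num) (by norm_num) (by norm_num) (by norm_num)
    (exp_neg_leJ (r := 0.547) 5 (by norm_num) (by norm_num) (by norm_num) (by norm_num))
    (exp_neg_leJ (r := 0.597) 3 (by norm_num) (by norm_num) (by norm_num) (by norm_num))
    (exp_neg_leJ (r := 0.165) 6 (by norm_num) (by norm_num) (by norm_num) (by norm_num))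
    (exp_neg_leJ (r := 0.99) 14 (by norm_num) (by norm_num) (by norm_num) (by norm_num))
    (exp_neg_leJ (r := 0.427) 5 (by norm_num) (by norm_num) (by norm_num) (by norm_num))
    (exp_neg_leJ (r := 0.99) 14 (by norm_num) (by norm_num) (by norm_num) (by norm_num))
    (exp_neg_leJ (r := 0.99) 14 (by norm_num) (by norm_num) (by norm_num) (by norm_num))
    (exp_neg_leJ (r := 0.99) 14 (by norm_num) (by norm_num) (by norm_num) (by norm_num))
    (by norm_num)) (by norm_num) hN hβ.le (by norm_num)

private theorem JD6a_p2_c0_b0_6 {β x y : ℝ} (hβ : 0 < β) (hN : β * 13.698 ≤ 1) (hx1 : 0.6983 ≤ x) (hx2 : x ≤ 0.7783)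
    (hy1 : -0.492 ≤ y) (hy2 : y ≤ -0.412) : ‖HH β (x + y * I) - 1‖ ≤ 0.14 := by
  refine le_epsJ (C := 1.8696) (N0 := 13.698) (J_boxp 0.6983 0.7783 0.492 0 (-0.412) 0.8524 0.9208 0.9755 1.2551 0.3941 3.7011 13.698 1.0803 4.772 1.644 0.6666 0.4261 0.2727 0.4707 2.0714 0.4254 1.4668 1.6298 3.6056 0.002926 0.0239 0.001586 0.0000003101 0.002952 0.0000003101 0.0000003101 0.0000003101 1.8696
    hβ hN hx1 hx2 hy1 hy2 (by norm_num) (by norm_num) (by linarith) (by norm_num) (by norm_num) (by norm_num) (by norm_num) (by norm_num) (by norm_num) (by norm_num) (by norm_num) (by norm_num) (by norm_num) (by norm_num) (by norm_num) (by norm_num) (by norm_num) (by norm_num) (by norm_num) (by norm_num) (by norm_num) (by norm_num) (by norm_num) (by norm_num)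
    (cube_sqrt_geJ (s := 0.7999) (by norm_num) (by norm_num) (by norm_num) (by norm_num))
    (cube_sqrt_geJ (s := 0.9315) (by norm_num) (by norm_num) (by norm_num) (by norm_num))
    (by norm_num) (by norm_num) (by norm_num) (by norm_num) (by norm_num) (by norm_num) (by norm_num) (by norm_num) (by norm_num) (by norm_num) (by norm_num) (by norm_num) (by norm_num) (by norm_num) (by norm_num) (by norm_num) (by norm_num) (by norm_num)
    (exp_neg_leJ (r := 0.836) 5 (by norm_num) (by norm_num) (by norm_num) (by norm_num))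
    (exp_neg_leJ (r := 0.735) 3 (by norm_num) (by norm_num) (by norm_num) (by norm_num))
    (exp_neg_leJ (r := 0.447) 6 (by norm_num) (by norm_num) (by norm_num) (by norm_num))
    (exp_neg_leJ (r := 0.99) 14 (by norm_num) (by norm_num) (by norm_num) (by norm_num))
    (exp_neg_leJ (r := 0.827) 5 (by norm_num) (by norm_num) (by norm_num) (by norm_num))
    (exp_neg_leJ (r := 0.99) 14 (by norm_num) (by norm_num) (by norm_num) (by norm_num))
    (exp_neg_leJ (r := 0.99) 14 (by norm_num) (by norm_num) (by norm_num) (by norm_num))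
    (exp_neg_leJ (r := 0.99) 14 (by norm_num) (by norm_num) (by norm_num) (by norm_num))
    (by norm_num)) (by norm_num) hN hβ.le (by norm_num)

private theorem JD6a_p2_c0_b0_7 {β x y : ℝ} (hβ : 0 < β) (hN : β * 13.698 ≤ 1) (hx1 : 0.7783 ≤ x) (hx2 : x ≤ 0.8883)
    (hy1 : -0.492 ≤ y) (hy2 : y ≤ -0.412) : ‖HH β (x + y * I) - 1‖ ≤ 0.14 := by
  refine le_epsJ (C := 1.8908) (N0 := 13.698) (J_boxp 0.7783 0.8883 0.492 0 (-0.412) 0.9087 1.0155 1.0653 1.1916 0.4118 3.7011 13.698 1.1176 5.111 1.674 0.6243 0.4543 0.285 0.498 2.012 0.4642 1.5776 1.7898 3.5082 0.001984 0.02023 0.001093 0.0000003101 0.001733 0.0000003101 0.0000003101 0.0000003101 1.8908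
    hβ hN hx1 hx2 hy1 hy2 (by norm_num) (by norm_num) (by linarith) (by norm_num) (by norm_num) (by norm_num) (by norm_num) (by norm_num) (by norm_num) (by norm_num) (by norm_num) (by norm_num) (by norm_num) (by norm_num) (by norm_num) (by norm_num) (by norm_num) (by norm_num) (by norm_num) (by norm_num) (by norm_num) (by norm_num) (by norm_num) (by norm_num)
    (cube_sqrt_geJ (s := 0.7921) (by norm_num) (by norm_num) (by norm_num) (by norm_num))
    (cube_sqrt_geJ (s := 0.929) (by norm_num) (by norm_num) (by norm_num) (by norm_num))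
    (by norm_num) (by norm_num) (by norm_num) (by norm_num) (by norm_num) (by norm_num) (by norm_num) (by norm_num) (by norm_num) (by norm_num) (by norm_num) (by norm_num) (by norm_num) (by norm_num) (by norm_num) (by norm_num) (by norm_num) (by norm_num)
    (exp_neg_leJ (r := 0.223) 6 (by norm_num) (by norm_num) (by norm_num) (by norm_num))
    (exp_neg_leJ (r := 0.903) 3 (by norm_num) (by norm_num) (by norm_num) (by norm_num))
    (exp_neg_leJ (r := 0.821) 6 (by norm_num) (by norm_num) (by norm_num) (by norm_num))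
    (exp_neg_leJ (r := 0.99) 14 (by norm_num) (by norm_num) (by norm_num) (by norm_num))
    (exp_neg_leJ (r := 0.358) 6 (by norm_num) (by norm_num) (by norm_num) (by norm_num))
    (exp_neg_leJ (r := 0.99) 14 (by norm_num) (by norm_num) (by norm_num) (by norm_num))
    (exp_neg_leJ (r := 0.99) 14 (by norm_num) (by norm_num) (by norm_num) (by norm_num))
    (exp_neg_leJ (r := 0.99) 14 (by norm_num) (by norm_num) (by norm_num) (by norm_num))
    (by norm_num)) (by norm_num) hN hβ.le (by norm_num)

private theorem JD6a_p2_c0_b0_8 {β x y : ℝ} (hβ : 0 < β) (hN : β * 13.698 ≤ 1) (hx1 : 0.8883 ≤ x) (hx2 : x ≤ 1.0283)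
    (hy1 : -0.492 ≤ y) (hy2 : y ≤ -0.412) : ‖HH β (x + y * I) - 1‖ ≤ 0.14 := by
  refine le_epsJ (C := 1.883) (N0 := 13.698) (J_boxp 0.8883 1.0283 0.492 0 (-0.412) 0.9861 1.14 1.1846 1.1115 0.4343 3.7011 13.698 1.1561 5.495 1.707 0.5704 0.493 0.303 0.5357 1.9352 0.5177 1.7299 2.0098 3.3898 0.001169 0.01577 0.0006504 0.0000003101 0.0008326 0.0000003101 0.0000003101 0.0000003101 1.883
    hβ hN hx1 hx2 hy1 hy2 (by norm_num) (by norm_num) (by linarith) (by norm_num) (by norm_num) (by norm_num) (by norm_num) (by norm_num) (by norm_num) (by norm_num) (by norm_num) (by norm_num) (by norm_num) (by norm_num) (by norm_num) (by norm_num) (by norm_num) (by norm_num) (by norm_num) (by norm_num) (by norm_num) (by norm_num) (by norm_num) (by norm_num)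
    (cube_sqrt_geJ (s := 0.7839) (by norm_num) (by norm_num) (by norm_num) (by norm_num))
    (cube_sqrt_geJ (s := 0.9265) (by norm_num) (by norm_num) (by norm_num) (by norm_num))
    (by norm_num) (by norm_num) (by norm_num) (by norm_num) (by norm_num) (by norm_num) (by norm_num) (by norm_num) (by norm_num) (by norm_num) (by norm_num) (by norm_num) (by norm_num) (by norm_num) (by norm_num) (by norm_num) (by norm_num) (by norm_num)
    (exp_neg_leJ (r := 0.753) 6 (by norm_num) (by norm_num) (by norm_num) (by norm_num))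
    (exp_neg_leJ (r := 0.15) 4 (by norm_num) (by norm_num) (by norm_num) (by norm_num))
    (exp_neg_leJ (r := 0.338) 7 (by norm_num) (by norm_num) (by norm_num) (by norm_num))
    (exp_neg_leJ (r := 0.99) 14 (by norm_num) (by norm_num) (by norm_num) (by norm_num))
    (exp_neg_leJ (r := 0.091) 7 (by norm_num) (by norm_num) (by norm_num) (by norm_num))
    (exp_neg_leJ (r := 0.99) 14 (by norm_num) (by norm_num) (by norm_num) (by norm_num))
    (exp_neg_leJ (r := 0.99) 14 (by norm_num) (by norm_num) (by norm_num) (by norm_num))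
    (exp_neg_leJ (r := 0.99) 14 (by norm_num) (by norm_num) (by norm_num) (by norm_num))
    (by norm_num)) (by norm_num) hN hβ.le (by norm_num)

private theorem JD6a_p2_c0_b0_9 {β x y : ℝ} (hβ : 0 < β) (hN : β * 13.698 ≤ 1) (hx1 : 1.0283 ≤ x) (hx2 : x ≤ 1.1503)
    (hy1 : -0.492 ≤ y) (hy2 : y ≤ -0.412) : ‖HH β (x + y * I) - 1‖ ≤ 0.14 := by
  refine le_epsJ (C := 1.6316) (N0 := 13.698) (J_boxp 1.0283 1.1503 0.492 0 (-0.412) 1.0847 1.2512 1.2919 1.0062 0.4535 3.7011 13.698 1.1535 5.467 1.705 0.5235 0.5423 0.3338 0.5836 1.8676 0.5857 1.9237 2.2898 3.3675 0.0005945 0.01035 0.0003401 0.0000003101 0.0003282 0.0000003101 0.0000003101 0.0000003101 1.6316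
    hβ hN hx1 hx2 hy1 hy2 (by norm_num) (by norm_num) (by linarith) (by norm_num) (by norm_num) (by norm_num) (by norm_num) (by norm_num) (by norm_num) (by norm_num) (by norm_num) (by norm_num) (by norm_num) (by norm_num) (by norm_num) (by norm_num) (by norm_num) (by norm_num) (by norm_num) (by norm_num) (by norm_num) (by norm_num) (by norm_num) (by norm_num)
    (cube_sqrt_geJ (s := 0.7845) (by norm_num) (by norm_num) (by norm_num) (by norm_num))
    (cube_sqrt_geJ (s := 0.9266) (by norm_num) (by norm_num) (by norm_num) (by norm_num))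
    (by norm_num) (by norm_num) (by norm_num) (by norm_num) (by norm_num) (by norm_num) (by norm_num) (by norm_num) (by norm_num) (by norm_num) (by norm_num) (by norm_num) (by norm_num) (by norm_num) (by norm_num) (by norm_num) (by norm_num) (by norm_num)
    (exp_neg_leJ (r := 0.428) 7 (by norm_num) (by norm_num) (by norm_num) (by norm_num))
    (exp_neg_leJ (r := 0.572) 4 (by norm_num) (by norm_num) (by norm_num) (by norm_num))
    (exp_neg_leJ (r := 0.99) 7 (by norm_num) (by norm_num) (by norm_num) (by norm_num))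
    (exp_neg_leJ (r := 0.99) 14 (by norm_num) (by norm_num) (by norm_num) (by norm_num))
    (exp_neg_leJ (r := 0.022) 8 (by norm_num) (by norm_num) (by norm_num) (by norm_num))
    (exp_neg_leJ (r := 0.99) 14 (by norm_num) (by norm_num) (by norm_num) (by norm_num))
    (exp_neg_leJ (r := 0.99) 14 (by norm_num) (by norm_num) (by norm_num) (by norm_num))
    (exp_neg_leJ (r := 0.99) 14 (by norm_num) (by norm_num) (by norm_num) (by norm_num))
    (by norm_num)) (by norm_num) hN hβ.le (by norm_num)

private theorem JD6a_p2_c0_b1_0 {β x y : ℝ} (hβ : 0 < β) (hN : β * 13.698 ≤ 1) (hx1 : 0.5283 ≤ x) (hx2 : x ≤ 0.6683)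
    (hy1 : -0.412 ≤ y) (hy2 : y ≤ -0.086) : ‖HH β (x + y * I) - 1‖ ≤ 0.14 := by
  refine le_epsJ (C := 1.9061) (N0 := 13.698) (J_boxp 0.5283 0.6683 0.412 0 (-0.086) 0.7895 0.7851 1.1323 1.5169 0.4246 3.7011 13.698 0.9945 4.095 1.576 0.7827 0.3947 0.2638 0.5387 2.393 0.3865 1.2314 1.5073 3.6345 0.00449 0.02699 0.0006243 0.0000003101 0.005022 0.0000003101 0.0000003101 0.0000003101 1.9061
    hβ hN hx1 hx2 hy1 hy2 (by norm_num) (by norm_num) (by linarith) (by norm_num) (by norm_num) (by norm_num) (by norm_num) (by norm_num) (by norm_num) (by norm_num) (by norm_num) (by norm_num) (by norm_num) (by norm_num) (by norm_num) (by norm_num) (by norm_num) (by norm_num) (by norm_num) (by norm_num) (by norm_num) (by norm_num) (by norm_num) (by norm_num)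
    (cube_sqrt_geJ (s := 0.8176) (by norm_num) (by norm_num) (by norm_num) (by norm_num))
    (cube_sqrt_geJ (s := 0.9371) (by norm_num) (by norm_num) (by norm_num) (by norm_num))
    (by norm_num) (by norm_num) (by norm_num) (by norm_num) (by norm_num) (by norm_num) (by norm_num) (by norm_num) (by norm_num) (by norm_num) (by norm_num) (by norm_num) (by norm_num) (by norm_num) (by norm_num) (by norm_num) (by norm_num) (by norm_num)
    (exp_neg_leJ (r := 0.406) 5 (by norm_num) (by norm_num) (by norm_num) (by norm_num))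
    (exp_neg_leJ (r := 0.613) 3 (by norm_num) (by norm_num) (by norm_num) (by norm_num))
    (exp_neg_leJ (r := 0.379) 7 (by norm_num) (by norm_num) (by norm_num) (by norm_num))
    (exp_neg_leJ (r := 0.99) 14 (by norm_num) (by norm_num) (by norm_num) (by norm_num))
    (exp_neg_leJ (r := 0.294) 5 (by norm_num) (by norm_num) (by norm_num) (by norm_num))
    (exp_neg_leJ (r := 0.99) 14 (by norm_num) (by norm_num) (by norm_num) (by norm_num))
    (exp_neg_leJ (r := 0.99) 14 (by norm_num) (by norm_num) (by norm_num) (by norm_num))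
    (exp_neg_leJ (r := 0.99) 14 (by norm_num) (by norm_num) (by norm_num) (by norm_num))
    (by norm_num)) (by norm_num) hN hβ.le (by norm_num)

private theorem JD6a_p2_c0_b1_1 {β x y : ℝ} (hβ : 0 < β) (hN : β * 13.698 ≤ 1) (hx1 : 0.6683 ≤ x) (hx2 : x ≤ 0.8583)
    (hy1 : -0.412 ≤ y) (hy2 : y ≤ -0.086) : ‖HH β (x + y * I) - 1‖ ≤ 0.14 := by
  refine le_epsJ (C := 1.9033) (N0 := 13.698) (J_boxp 0.6683 0.8583 0.412 0 (-0.086) 0.888 0.9521 1.2539 1.3382 0.4468 3.7011 13.698 1.0722 4.702 1.637 0.7096 0.4439 0.2853 0.5867 2.2894 0.4545 1.4253 1.7873 3.4606 0.002289 0.02013 0.0003237 0.0000003101 0.00198 0.0000003101 0.0000003101 0.0000003101 1.9033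
    hβ hN hx1 hx2 hy1 hy2 (by norm_num) (by norm_num) (by linarith) (by norm_num) (by norm_num) (by norm_num) (by norm_num) (by norm_num) (by norm_num) (by norm_num) (by norm_num) (by norm_num) (by norm_num) (by norm_num) (by norm_num) (by norm_num) (by norm_num) (by norm_num) (by norm_num) (by norm_num) (by norm_num) (by norm_num) (by norm_num) (by norm_num)
    (cube_sqrt_geJ (s := 0.8016) (by norm_num) (by norm_num) (by norm_num) (by norm_num))
    (cube_sqrt_geJ (s := 0.932) (by norm_num) (by norm_num) (by norm_num) (by norm_num))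
    (by norm_num) (by norm_num) (by norm_num) (by norm_num) (by norm_num) (by norm_num) (by norm_num) (by norm_num) (by norm_num) (by norm_num) (by norm_num) (by norm_num) (by norm_num) (by norm_num) (by norm_num) (by norm_num) (by norm_num) (by norm_num)
    (exp_neg_leJ (r := 0.08) 6 (by norm_num) (by norm_num) (by norm_num) (by norm_num))
    (exp_neg_leJ (r := 0.908) 3 (by norm_num) (by norm_num) (by norm_num) (by norm_num))
    (exp_neg_leJ (r := 0.036) 8 (by norm_num) (by norm_num) (by norm_num) (by norm_num))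
    (exp_neg_leJ (r := 0.99) 14 (by norm_num) (by norm_num) (by norm_num) (by norm_num))
    (exp_neg_leJ (r := 0.225) 6 (by norm_num) (by norm_num) (by norm_num) (by norm_num))
    (exp_neg_leJ (r := 0.99) 14 (by norm_num) (by norm_num) (by norm_num) (by norm_num))
    (exp_neg_leJ (r := 0.99) 14 (by norm_num) (by norm_num) (by norm_num) (by norm_num))
    (exp_neg_leJ (r := 0.99) 14 (by norm_num) (by norm_num) (by norm_num) (by norm_num))
    (by norm_num)) (by norm_num) hN hβ.le (by norm_num)

private theorem JD6a_p2_c0_b1_2 {β x y : ℝ} (hβ : 0 < β) (hN : β * 13.698 ≤ 1) (hx1 : 0.8583 ≤ x) (hx2 : x ≤ 1.0983)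
    (hy1 : -0.412 ≤ y) (hy2 : y ≤ -0.086) : ‖HH β (x + y * I) - 1‖ ≤ 0.14 := by
  refine le_epsJ (C := 1.8895) (N0 := 13.698) (J_boxp 0.8583 1.0983 0.412 0 (-0.086) 1.0218 1.1731 1.4289 1.1574 0.4769 3.7011 13.698 1.1481 5.412 1.7 0.6173 0.5108 0.3153 0.6517 2.1558 0.5468 1.6884 2.1673 3.2398 0.0009243 0.01333 0.0001333 0.0000003101 0.0005588 0.0000003101 0.0000003101 0.0000003101 1.8895
    hβ hN hx1 hx2 hy1 hy2 (by norm_num) (by norm_num) (by linarith) (by norm_num) (by norm_num) (by norm_num) (by norm_num) (by norm_num) (by norm_num) (by norm_num) (by norm_num) (by norm_num) (by norm_num) (by norm_num) (by norm_num) (by norm_num) (by norm_num) (by norm_num) (by norm_num) (by norm_num) (by norm_num) (by norm_num) (by norm_num) (by norm_num)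
    (cube_sqrt_geJ (s := 0.7856) (by norm_num) (by norm_num) (by norm_num) (by norm_num))
    (cube_sqrt_geJ (s := 0.927) (by norm_num) (by norm_num) (by norm_num) (by norm_num))
    (by norm_num) (by norm_num) (by norm_num) (by norm_num) (by norm_num) (by norm_num) (by norm_num) (by norm_num) (by norm_num) (by norm_num) (by norm_num) (by norm_num) (by norm_num) (by norm_num) (by norm_num) (by norm_num) (by norm_num) (by norm_num)
    (exp_neg_leJ (r := 0.99) 6 (by norm_num) (by norm_num) (by norm_num) (by norm_num))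
    (exp_neg_leJ (r := 0.318) 4 (by norm_num) (by norm_num) (by norm_num) (by norm_num))
    (exp_neg_leJ (r := 0.926) 8 (by norm_num) (by norm_num) (by norm_num) (by norm_num))
    (exp_neg_leJ (r := 0.99) 14 (by norm_num) (by norm_num) (by norm_num) (by norm_num))
    (exp_neg_leJ (r := 0.49) 7 (by norm_num) (by norm_num) (by norm_num) (by norm_num))
    (exp_neg_leJ (r := 0.99) 14 (by norm_num) (by norm_num) (by norm_num) (by norm_num))
    (exp_neg_leJ (r := 0.99) 14 (by norm_num) (by norm_num) (by norm_num) (by norm_num))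
    (exp_neg_leJ (r := 0.99) 14 (by norm_num) (by norm_num) (by norm_num) (by norm_num))
    (by norm_num)) (by norm_num) hN hβ.le (by norm_num)

private theorem JD6a_p2_c0_b1_3 {β x y : ℝ} (hβ : 0 < β) (hN : β * 13.698 ≤ 1) (hx1 : 1.0983 ≤ x) (hx2 : x ≤ 1.1503)
    (hy1 : -0.412 ≤ y) (hy2 : y ≤ -0.086) : ‖HH β (x + y * I) - 1‖ ≤ 0.14 := by
  refine le_epsJ (C := 1.0287) (N0 := 13.698) (J_boxp 1.0983 1.1503 0.412 0 (-0.086) 1.1908 1.2219 1.4693 0.9329 0.4836 3.7011 13.698 1.0262 4.329 1.601 0.5973 0.5953 0.3917 0.7339 2.1266 0.6634 2.0207 2.6473 3.5872 0.0002876 0.004678 0.0000431 0.0000003101 0.0001132 0.0000003101 0.0000003101 0.0000003101 1.0287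
    hβ hN hx1 hx2 hy1 hy2 (by norm_num) (by norm_num) (by linarith) (by norm_num) (by norm_num) (by norm_num) (by norm_num) (by norm_num) (by norm_num) (by norm_num) (by norm_num) (by norm_num) (by norm_num) (by norm_num) (by norm_num) (by norm_num) (by norm_num) (by norm_num) (by norm_num) (by norm_num) (by norm_num) (by norm_num) (by norm_num) (by norm_num)
    (cube_sqrt_geJ (s := 0.8111) (by norm_num) (by norm_num) (by norm_num) (by norm_num))
    (cube_sqrt_geJ (s := 0.935) (by norm_num) (by norm_num) (by norm_num) (by norm_num))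
    (by norm_num) (by norm_num) (by norm_num) (by norm_num) (by norm_num) (by norm_num) (by norm_num) (by norm_num) (by norm_num) (by norm_num) (by norm_num) (by norm_num) (by norm_num) (by norm_num) (by norm_num) (by norm_num) (by norm_num) (by norm_num)
    (exp_neg_leJ (r := 0.154) 8 (by norm_num) (by norm_num) (by norm_num) (by norm_num))
    (exp_neg_leJ (r := 0.365) 5 (by norm_num) (by norm_num) (by norm_num) (by norm_num))
    (exp_neg_leJ (r := 0.052) 10 (by norm_num) (by norm_num) (by norm_num) (by norm_num))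
    (exp_neg_leJ (r := 0.99) 14 (by norm_num) (by norm_num) (by norm_num) (by norm_num))
    (exp_neg_leJ (r := 0.087) 9 (by norm_num) (by norm_num) (by norm_num) (by norm_num))
    (exp_neg_leJ (r := 0.99) 14 (by norm_num) (by norm_num) (by norm_num) (by norm_num))
    (exp_neg_leJ (r := 0.99) 14 (by norm_num) (by norm_num) (by norm_num) (by norm_num))
    (exp_neg_leJ (r := 0.99) 14 (by norm_num) (by norm_num) (by norm_num) (by norm_num))
    (by norm_num)) (by norm_num) hN hβ.le (by norm_num)

private theorem JD6a_p2_c0 {κ t β : ℝ} (h : DomR κ t) (hβ : 0 < β) (hk1 : 0.6 ≤ κ) (hk2 : κ ≤ 0.73)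
    (ht1 : -0.576 ≤ t + κ) (ht2 : t + κ ≤ -0.4398) (hR0 : β * 10 ≤ κ) (hR : β * (4.95 * (1 + κ ^ 2)) ≤ κ) :
    ∀ s : ℂ, ‖s - sg κ t‖ ≤ 0.15 → ‖HH β s - 1‖ ≤ 0.14 := by
  have hN : β * 13.698 ≤ 1 := bNR hβ h.1 hk2 hR0 (by norm_num)
  have hy1 : -0.342 ≤ sy κ t := syL_ge h 0.6 0.73 0.576 0.342 0.71034 0.71035 0.3387 0.33278 0.4049 hk1 hk2 (by linarith) (by norm_num) (by norm_num) (by norm_num)
    (expm_ge (by norm_num) (by norm_num) (by norm_num) (by norm_num)) (expm_le (by norm_num) (by norm_num) (by norm_num)) (by norm_num)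
    (by norm_num) (by norm_num) (by norm_num) (by norm_num) (by norm_num) (by norm_num)
  have hy2 : sy κ t ≤ -0.236 := syL_le h 0.6 0.73 0.4398 0.236 0.78978 0.78979 0.25532 0.31066 hk1 hk2 (by linarith) (by norm_num) (by norm_num) (by norm_num)
    (expm_ge (by norm_num) (by norm_num) (by norm_num) (by norm_num)) (expm_le (by norm_num) (by norm_num) (by norm_num)) (by norm_num)
    (by norm_num) (by norm_num) (by norm_num) (by norm_num) (by norm_num) (by norm_num)
  have hx1 : 0.6783 ≤ sx κ t := sx_lo h 0.6 (-0.236) 0.342 1.26617 0.6783 hk1 (by norm_num) hy2 (abs_le.2 ⟨by linarith, by linarith⟩) (by rw [neg_neg]; exact expn_ge (by norm_num) (by norm_num)) (by norm_num) (by norm_num)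
  have hx2 : sx κ t ≤ 1.0003 := sx_hi h 0.73 (-0.342) 0.236 1.40777 1.0003 hk2 hy1 (by norm_num) (by rw [abs_of_nonpos (by linarith)]; linarith) (by rw [neg_neg]; exact expn_le (by norm_num) (by norm_num) (by norm_num)) (by norm_num) (by norm_num)
  intro s hs
  have hs' : ‖s - ((sx κ t : ℂ) + (sy κ t : ℂ) * I)‖ ≤ 0.15 := hs
  obtain ⟨es, ⟨s1, s2⟩, ⟨s3, s4⟩⟩ := disc_split hs'
  have X1 : 0.5283 ≤ s.re := by linarith
  have X2 : s.re ≤ 1.1503 := by linarith
  have Y1 : (-0.492) ≤ s.im := by linarith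
  have Y2 : s.im ≤ (-0.086) := by linarith
  rw [es]
  rcases le_total s.im (-0.412) with f0 | g0
  · rcases le_total s.re 0.5383 with u0 | v0
    · exact JD6a_p2_c0_b0_0 hβ hN (by linarith) (by linarith) (by linarith) (by linarith)
    rcases le_total s.re 0.5483 with u1 | v1
    · exact JD6a_p2_c0_b0_1 hβ hN (by linarith) (by linarith) (by linarith) (by linarith)
    rcases le_total s.re 0.5683 with u2 | v2
    · exact JD6a_p2_c0_b0_2 hβ hN (by linarith) (by linarith) (by linarith) (by linarith)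
    rcases le_total s.re 0.5983 with u3 | v3
    · exact JD6a_p2_c0_b0_3 hβ hN (by linarith) (by linarith) (by linarith) (by linarith)
    rcases le_total s.re 0.6383 with u4 | v4
    · exact JD6a_p2_c0_b0_4 hβ hN (by linarith) (by linarith) (by linarith) (by linarith)
    rcases le_total s.re 0.6983 with u5 | v5
    · exact JD6a_p2_c0_b0_5 hβ hN (by linarith) (by linarith) (by linarith) (by linarith)
    rcases le_total s.re 0.7783 with u6 | v6
    · exact JD6a_p2_c0_b0_6 hβ hN (by linarith) (by linarith) (by linarith) (by linarith)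
    rcases le_total s.re 0.8883 with u7 | v7
    · exact JD6a_p2_c0_b0_7 hβ hN (by linarith) (by linarith) (by linarith) (by linarith)
    rcases le_total s.re 1.0283 with u8 | v8
    · exact JD6a_p2_c0_b0_8 hβ hN (by linarith) (by linarith) (by linarith) (by linarith)
    exact JD6a_p2_c0_b0_9 hβ hN (by linarith) (by linarith) (by linarith) (by linarith)
  rcases le_total s.re 0.6683 with u0 | v0
  · exact JD6a_p2_c0_b1_0 hβ hN (by linarith) (by linarith) (by linarith) (by linarith)
  rcases le_total s.re 0.8583 with u1 | v1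
  · exact JD6a_p2_c0_b1_1 hβ hN (by linarith) (by linarith) (by linarith) (by linarith)
  rcases le_total s.re 1.0983 with u2 | v2
  · exact JD6a_p2_c0_b1_2 hβ hN (by linarith) (by linarith) (by linarith) (by linarith)
  exact JD6a_p2_c0_b1_3 hβ hN (by linarith) (by linarith) (by linarith) (by linarith)

private theorem JD6a_p2_c1_b0_0 {β x y : ℝ} (hβ : 0 < β) (hN : β * 13.333 ≤ 1) (hx1 : 0.7196 ≤ x) (hx2 : x ≤ 0.7696)
    (hy1 : -0.492 ≤ y) (hy2 : y ≤ -0.132) : ‖HH β (x + y * I) - 1‖ ≤ 0.14 := by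
  refine le_epsJ (C := 1.8613) (N0 := 13.333) (J_boxp 0.7196 0.7696 0.492 0 (-0.132) 0.8674 0.9135 1.1601 1.3333 0.4297 3.6515 13.333 1.0532 4.543 1.622 0.6699 0.4336 0.2814 0.478 2.0761 0.4357 1.4963 1.6724 3.6681 0.00309 0.02352 0.001708 0.0000003101 0.003005 0.0000003101 0.0000003101 0.0000003101 1.8613
    hβ hN hx1 hx2 hy1 hy2 (by norm_num) (by norm_num) (by linarith) (by norm_num) (by norm_num) (by norm_num) (by norm_num) (by norm_num) (by norm_num) (by norm_num) (by norm_num) (by norm_num) (by norm_num) (by norm_num) (by norm_num) (by norm_num) (by norm_num) (by norm_num) (by norm_num) (by norm_num) (by norm_num) (by norm_num) (by norm_num) (by norm_num)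
    (cube_sqrt_geJ (s := 0.8055) (by norm_num) (by norm_num) (by norm_num) (by norm_num))
    (cube_sqrt_geJ (s := 0.9332) (by norm_num) (by norm_num) (by norm_num) (by norm_num))
    (by norm_num) (by norm_num) (by norm_num) (by norm_num) (by norm_num) (by norm_num) (by norm_num) (by norm_num) (by norm_num) (by norm_num) (by norm_num) (by norm_num) (by norm_num) (by norm_num) (by norm_num) (by norm_num) (by norm_num) (by norm_num)
    (exp_neg_leJ (r := 0.781) 5 (by norm_num) (by norm_num) (by norm_num) (by norm_num))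
    (exp_neg_leJ (r := 0.751) 3 (by norm_num) (by norm_num) (by norm_num) (by norm_num))
    (exp_neg_leJ (r := 0.373) 6 (by norm_num) (by norm_num) (by norm_num) (by norm_num))
    (exp_neg_leJ (r := 0.99) 14 (by norm_num) (by norm_num) (by norm_num) (by norm_num))
    (exp_neg_leJ (r := 0.809) 5 (by norm_num) (by norm_num) (by norm_num) (by norm_num))
    (exp_neg_leJ (r := 0.99) 14 (by norm_num) (by norm_num) (by norm_num) (by norm_num))
    (exp_neg_leJ (r := 0.99) 14 (by norm_num) (by norm_num) (by norm_num) (by norm_num))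
    (exp_neg_leJ (r := 0.99) 14 (by norm_num) (by norm_num) (by norm_num) (by norm_num))
    (by norm_num)) (by norm_num) hN hβ.le (by norm_num)

private theorem JD6a_p2_c1_b0_1 {β x y : ℝ} (hβ : 0 < β) (hN : β * 13.333 ≤ 1) (hx1 : 0.7696 ≤ x) (hx2 : x ≤ 0.8396)
    (hy1 : -0.492 ≤ y) (hy2 : y ≤ -0.132) : ‖HH β (x + y * I) - 1‖ ≤ 0.14 := by
  refine le_epsJ (C := 1.8658) (N0 := 13.333) (J_boxp 0.7696 0.8396 0.492 0 (-0.132) 0.9026 0.9732 1.2077 1.2816 0.4385 3.6515 13.333 1.0783 4.754 1.642 0.643 0.4512 0.289 0.4951 2.0384 0.46 1.5655 1.7724 3.6058 0.002442 0.02126 0.00136 0.0000003101 0.002171 0.0000003101 0.0000003101 0.0000003101 1.8658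
    hβ hN hx1 hx2 hy1 hy2 (by norm_num) (by norm_num) (by linarith) (by norm_num) (by norm_num) (by norm_num) (by norm_num) (by norm_num) (by norm_num) (by norm_num) (by norm_num) (by norm_num) (by norm_num) (by norm_num) (by norm_num) (by norm_num) (by norm_num) (by norm_num) (by norm_num) (by norm_num) (by norm_num) (by norm_num) (by norm_num) (by norm_num)
    (cube_sqrt_geJ (s := 0.8003) (by norm_num) (by norm_num) (by norm_num) (by norm_num))
    (cube_sqrt_geJ (s := 0.9316) (by norm_num) (by norm_num) (by norm_num) (by norm_num))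
    (by norm_num) (by norm_num) (by norm_num) (by norm_num) (by norm_num) (by norm_num) (by norm_num) (by norm_num) (by norm_num) (by norm_num) (by norm_num) (by norm_num) (by norm_num) (by norm_num) (by norm_num) (by norm_num) (by norm_num) (by norm_num)
    (exp_neg_leJ (r := 0.015) 6 (by norm_num) (by norm_num) (by norm_num) (by norm_num))
    (exp_neg_leJ (r := 0.853) 3 (by norm_num) (by norm_num) (by norm_num) (by norm_num))
    (exp_neg_leJ (r := 0.601) 6 (by norm_num) (by norm_num) (by norm_num) (by norm_num))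
    (exp_neg_leJ (r := 0.99) 14 (by norm_num) (by norm_num) (by norm_num) (by norm_num))
    (exp_neg_leJ (r := 0.133) 6 (by norm_num) (by norm_num) (by norm_num) (by norm_num))
    (exp_neg_leJ (r := 0.99) 14 (by norm_num) (by norm_num) (by norm_num) (by norm_num))
    (exp_neg_leJ (r := 0.99) 14 (by norm_num) (by norm_num) (by norm_num) (by norm_num))
    (exp_neg_leJ (r := 0.99) 14 (by norm_num) (by norm_num) (by norm_num) (by norm_num))
    (by norm_num)) (by norm_num) hN hβ.le (by norm_num)

private theorem JD6a_p2_c1_b0_2 {β x y : ℝ} (hβ : 0 < β) (hN : β * 13.333 ≤ 1) (hx1 : 0.8396 ≤ x) (hx2 : x ≤ 0.9296)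
    (hy1 : -0.492 ≤ y) (hy2 : y ≤ -0.132) : ‖HH β (x + y * I) - 1‖ ≤ 0.14 := by
  refine le_epsJ (C := 1.8445) (N0 := 13.333) (J_boxp 0.8396 0.9296 0.492 0 (-0.132) 0.9519 1.0518 1.2719 1.2144 0.45 3.6515 13.333 1.105 4.993 1.664 0.6084 0.4759 0.3006 0.519 1.9894 0.494 1.6625 1.9124 3.5321 0.001756 0.01819 0.0009914 0.0000003101 0.001381 0.0000003101 0.0000003101 0.0000003101 1.8445
    hβ hN hx1 hx2 hy1 hy2 (by norm_num) (by norm_num) (by linarith) (by norm_num) (by norm_num) (by norm_num) (by norm_num) (by norm_num) (by norm_num) (by norm_num) (by norm_num) (by norm_num) (by norm_num) (by norm_num) (by norm_num) (by norm_num) (by norm_num) (by norm_num) (by norm_num) (by norm_num) (by norm_num) (by norm_num) (by norm_num) (by norm_num)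
    (cube_sqrt_geJ (s := 0.7947) (by norm_num) (by norm_num) (by norm_num) (by norm_num))
    (cube_sqrt_geJ (s := 0.9298) (by norm_num) (by norm_num) (by norm_num) (by norm_num))
    (by norm_num) (by norm_num) (by norm_num) (by norm_num) (by norm_num) (by norm_num) (by norm_num) (by norm_num) (by norm_num) (by norm_num) (by norm_num) (by norm_num) (by norm_num) (by norm_num) (by norm_num) (by norm_num) (by norm_num) (by norm_num)
    (exp_neg_leJ (r := 0.345) 6 (by norm_num) (by norm_num) (by norm_num) (by norm_num))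
    (exp_neg_leJ (r := 0.007) 4 (by norm_num) (by norm_num) (by norm_num) (by norm_num))
    (exp_neg_leJ (r := 0.919) 6 (by norm_num) (by norm_num) (by norm_num) (by norm_num))
    (exp_neg_leJ (r := 0.99) 14 (by norm_num) (by norm_num) (by norm_num) (by norm_num))
    (exp_neg_leJ (r := 0.586) 6 (by norm_num) (by norm_num) (by norm_num) (by norm_num))
    (exp_neg_leJ (r := 0.99) 14 (by norm_num) (by norm_num) (by norm_num) (by norm_num))
    (exp_neg_leJ (r := 0.99) 14 (by norm_num) (by norm_num) (by norm_num) (by norm_num))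
    (exp_neg_leJ (r := 0.99) 14 (by norm_num) (by norm_num) (by norm_num) (by norm_num))
    (by norm_num)) (by norm_num) hN hβ.le (by norm_num)

private theorem JD6a_p2_c1_b0_3 {β x y : ℝ} (hβ : 0 < β) (hN : β * 13.333 ≤ 1) (hx1 : 0.9296 ≤ x) (hx2 : x ≤ 1.0496)
    (hy1 : -0.492 ≤ y) (hy2 : y ≤ -0.132) : ‖HH β (x + y * I) - 1‖ ≤ 0.14 := by
  refine le_epsJ (C := 1.8582) (N0 := 13.333) (J_boxp 0.9296 1.0496 0.492 0 (-0.132) 1.0152 1.1592 1.3621 1.141 0.4657 3.6515 13.333 1.1419 5.349 1.695 0.5622 0.5075 0.3143 0.5498 1.9235 0.5377 1.7871 2.0924 3.4202 0.001154 0.01515 0.0006556 0.0000003101 0.0007702 0.0000003101 0.0000003101 0.0000003101 1.8582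
    hβ hN hx1 hx2 hy1 hy2 (by norm_num) (by norm_num) (by linarith) (by norm_num) (by norm_num) (by norm_num) (by norm_num) (by norm_num) (by norm_num) (by norm_num) (by norm_num) (by norm_num) (by norm_num) (by norm_num) (by norm_num) (by norm_num) (by norm_num) (by norm_num) (by norm_num) (by norm_num) (by norm_num) (by norm_num) (by norm_num) (by norm_num)
    (cube_sqrt_geJ (s := 0.7869) (by norm_num) (by norm_num) (by norm_num) (by norm_num))
    (cube_sqrt_geJ (s := 0.9274) (by norm_num) (by norm_num) (by norm_num) (by norm_num))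
    (by norm_num) (by norm_num) (by norm_num) (by norm_num) (by norm_num) (by norm_num) (by norm_num) (by norm_num) (by norm_num) (by norm_num) (by norm_num) (by norm_num) (by norm_num) (by norm_num) (by norm_num) (by norm_num) (by norm_num) (by norm_num)
    (exp_neg_leJ (r := 0.766) 6 (by norm_num) (by norm_num) (by norm_num) (by norm_num))
    (exp_neg_leJ (r := 0.19) 4 (by norm_num) (by norm_num) (by norm_num) (by norm_num))
    (exp_neg_leJ (r := 0.33) 7 (by norm_num) (by norm_num) (by norm_num) (by norm_num))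
    (exp_neg_leJ (r := 0.99) 14 (by norm_num) (by norm_num) (by norm_num) (by norm_num))
    (exp_neg_leJ (r := 0.169) 7 (by norm_num) (by norm_num) (by norm_num) (by norm_num))
    (exp_neg_leJ (r := 0.99) 14 (by norm_num) (by norm_num) (by norm_num) (by norm_num))
    (exp_neg_leJ (r := 0.99) 14 (by norm_num) (by norm_num) (by norm_num) (by norm_num))
    (exp_neg_leJ (r := 0.99) 14 (by norm_num) (by norm_num) (by norm_num) (by norm_num))
    (by norm_num)) (by norm_num) hN hβ.le (by norm_num)

private theorem JD6a_p2_c1_b0_4 {β x y : ℝ} (hβ : 0 < β) (hN : β * 13.333 ≤ 1) (hx1 : 1.0496 ≤ x) (hx2 : x ≤ 1.1766)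
    (hy1 : -0.492 ≤ y) (hy2 : y ≤ -0.132) : ‖HH β (x + y * I) - 1‖ ≤ 0.14 := by
  refine le_epsJ (C := 1.7381) (N0 := 13.333) (J_boxp 1.0496 1.1766 0.492 0 (-0.132) 1.0997 1.2754 1.4622 1.0486 0.4825 3.6515 13.333 1.1598 5.533 1.71 0.5134 0.5498 0.3372 0.5909 1.8529 0.596 1.9532 2.3324 3.3443 0.0006556 0.01117 0.0003798 0.0000003101 0.0003552 0.0000003101 0.0000003101 0.0000003101 1.7381
    hβ hN hx1 hx2 hy1 hy2 (by norm_num) (by norm_num) (by linarith) (by norm_num) (by norm_num) (by norm_num) (by norm_num) (by norm_num) (by norm_num) (by norm_num) (by norm_num) (by norm_num) (by norm_num) (by norm_num) (by norm_num) (by norm_num) (by norm_num) (by norm_num) (by norm_num) (by norm_num) (by norm_num) (by norm_num) (by norm_num) (by norm_num)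
    (cube_sqrt_geJ (s := 0.7831) (by norm_num) (by norm_num) (by norm_num) (by norm_num))
    (cube_sqrt_geJ (s := 0.9262) (by norm_num) (by norm_num) (by norm_num) (by norm_num))
    (by norm_num) (by norm_num) (by norm_num) (by norm_num) (by norm_num) (by norm_num) (by norm_num) (by norm_num) (by norm_num) (by norm_num) (by norm_num) (by norm_num) (by norm_num) (by norm_num) (by norm_num) (by norm_num) (by norm_num) (by norm_num)
    (exp_neg_leJ (r := 0.33) 7 (by norm_num) (by norm_num) (by norm_num) (by norm_num))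
    (exp_neg_leJ (r := 0.495) 4 (by norm_num) (by norm_num) (by norm_num) (by norm_num))
    (exp_neg_leJ (r := 0.878) 7 (by norm_num) (by norm_num) (by norm_num) (by norm_num))
    (exp_neg_leJ (r := 0.99) 14 (by norm_num) (by norm_num) (by norm_num) (by norm_num))
    (exp_neg_leJ (r := 0.946) 7 (by norm_num) (by norm_num) (by norm_num) (by norm_num))
    (exp_neg_leJ (r := 0.99) 14 (by norm_num) (by norm_num) (by norm_num) (by norm_num))
    (exp_neg_leJ (r := 0.99) 14 (by norm_num) (by norm_num) (by norm_num) (by norm_num))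
    (exp_neg_leJ (r := 0.99) 14 (by norm_num) (by norm_num) (by norm_num) (by norm_num))
    (by norm_num)) (by norm_num) hN hβ.le (by norm_num)

private theorem JD6a_p2_c1_b1_0 {β x y : ℝ} (hβ : 0 < β) (hN : β * 13.333 ≤ 1) (hx1 : 0.7196 ≤ x) (hx2 : x ≤ 1.1766)
    (hy1 : -0.132 ≤ y) (hy2 : y ≤ -0.097) : ‖HH β (x + y * I) - 1‖ ≤ 0.14 := by
  refine le_epsJ (C := 1.2577) (N0 := 13.333) (J_boxp 0.7196 1.1766 0.132 0 (-0.097) 1.123 1.184 1.4832 1.0234 0.4859 3.6515 13.333 1.0544 4.553 1.623 0.8457 0.5614 0.3641 1.0462 3.0075 0.6324 1.4963 2.651 2.9328 0.0005616 0.007812 0.0000008785 0.0000003101 0.0002181 0.0000003101 0.0000003101 0.0000003101 1.2577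
    hβ hN hx1 hx2 hy1 hy2 (by norm_num) (by norm_num) (by linarith) (by norm_num) (by norm_num) (by norm_num) (by norm_num) (by norm_num) (by norm_num) (by norm_num) (by norm_num) (by norm_num) (by norm_num) (by norm_num) (by norm_num) (by norm_num) (by norm_num) (by norm_num) (by norm_num) (by norm_num) (by norm_num) (by norm_num) (by norm_num) (by norm_num)
    (cube_sqrt_geJ (s := 0.8053) (by norm_num) (by norm_num) (by norm_num) (by norm_num))
    (cube_sqrt_geJ (s := 0.9332) (by norm_num) (by norm_num) (by norm_num) (by norm_num))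
    (by norm_num) (by norm_num) (by norm_num) (by norm_num) (by norm_num) (by norm_num) (by norm_num) (by norm_num) (by norm_num) (by norm_num) (by norm_num) (by norm_num) (by norm_num) (by norm_num) (by norm_num) (by norm_num) (by norm_num) (by norm_num)
    (exp_neg_leJ (r := 0.485) 7 (by norm_num) (by norm_num) (by norm_num) (by norm_num))
    (exp_neg_leJ (r := 0.854) 4 (by norm_num) (by norm_num) (by norm_num) (by norm_num))
    (exp_neg_leJ (r := 0.948) 13 (by norm_num) (by norm_num) (by norm_num) (by norm_num))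
    (exp_neg_leJ (r := 0.99) 14 (by norm_num) (by norm_num) (by norm_num) (by norm_num))
    (exp_neg_leJ (r := 0.431) 8 (by norm_num) (by norm_num) (by norm_num) (by norm_num))
    (exp_neg_leJ (r := 0.99) 14 (by norm_num) (by norm_num) (by norm_num) (by norm_num))
    (exp_neg_leJ (r := 0.99) 14 (by norm_num) (by norm_num) (by norm_num) (by norm_num))
    (exp_neg_leJ (r := 0.99) 14 (by norm_num) (by norm_num) (by norm_num) (by norm_num))
    (by norm_num)) (by norm_num) hN hβ.le (by norm_num)

private theorem JD6a_p2_c1 {κ t β : ℝ} (h : DomR κ t) (hβ : 0 < β) (hk1 : 0.73 ≤ κ) (hk2 : κ ≤ 0.75)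
    (ht1 : -0.576 ≤ t + κ) (ht2 : t + κ ≤ -0.4398) (hR0 : β * 10 ≤ κ) (hR : β * (4.95 * (1 + κ ^ 2)) ≤ κ) :
    ∀ s : ℂ, ‖s - sg κ t‖ ≤ 0.15 → ‖HH β s - 1‖ ≤ 0.14 := by
  have hN : β * 13.333 ≤ 1 := bNR hβ h.1 hk2 hR0 (by norm_num)
  have hy1 : -0.342 ≤ sy κ t := syL_ge h 0.73 0.75 0.576 0.342 0.71034 0.71035 0.3216 0.32391 0.3328 hk1 hk2 (by linarith) (by norm_num) (by norm_num) (by norm_num)
    (expm_ge (by norm_num) (by norm_num) (by norm_num) (by norm_num)) (expm_le (by norm_num) (by norm_num) (by norm_num)) (by norm_num)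
    (by norm_num) (by norm_num) (by norm_num) (by norm_num) (by norm_num) (by norm_num)
  have hy2 : sy κ t ≤ -0.247 := syL_le h 0.73 0.75 0.4398 0.247 0.78114 0.78115 0.25725 0.26431 hk1 hk2 (by linarith) (by norm_num) (by norm_num) (by norm_num)
    (expm_ge (by norm_num) (by norm_num) (by norm_num) (by norm_num)) (expm_le (by norm_num) (by norm_num) (by norm_num)) (by norm_num)
    (by norm_num) (by norm_num) (by norm_num) (by norm_num) (by norm_num) (by norm_num)
  have hx1 : 0.8696 ≤ sx κ t := sx_lo h 0.73 (-0.247) 0.342 1.28017 0.8696 hk1 (by norm_num) hy2 (abs_le.2 ⟨by linarith, by linarith⟩) (by rw [neg_neg]; exact expn_ge (by norm_num) (by norm_num)) (by norm_num) (by norm_num)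
  have hx2 : sx κ t ≤ 1.0266 := sx_hi h 0.75 (-0.342) 0.247 1.40777 1.0266 hk2 hy1 (by norm_num) (by rw [abs_of_nonpos (by linarith)]; linarith) (by rw [neg_neg]; exact expn_le (by norm_num) (by norm_num) (by norm_num)) (by norm_num) (by norm_num)
  intro s hs
  have hs' : ‖s - ((sx κ t : ℂ) + (sy κ t : ℂ) * I)‖ ≤ 0.15 := hs
  obtain ⟨es, ⟨s1, s2⟩, ⟨s3, s4⟩⟩ := disc_split hs'
  have X1 : 0.7196 ≤ s.re := by linarith
  have X2 : s.re ≤ 1.1766 := by linarith
  have Y1 : (-0.492) ≤ s.im := by linarith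
  have Y2 : s.im ≤ (-0.097) := by linarith
  rw [es]
  rcases le_total s.im (-0.132) with f0 | g0
  · rcases le_total s.re 0.7696 with u0 | v0
    · exact JD6a_p2_c1_b0_0 hβ hN (by linarith) (by linarith) (by linarith) (by linarith)
    rcases le_total s.re 0.8396 with u1 | v1
    · exact JD6a_p2_c1_b0_1 hβ hN (by linarith) (by linarith) (by linarith) (by linarith)
    rcases le_total s.re 0.9296 with u2 | v2
    · exact JD6a_p2_c1_b0_2 hβ hN (by linarith) (by linarith) (by linarith) (by linarith)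
    rcases le_total s.re 1.0496 with u3 | v3
    · exact JD6a_p2_c1_b0_3 hβ hN (by linarith) (by linarith) (by linarith) (by linarith)
    exact JD6a_p2_c1_b0_4 hβ hN (by linarith) (by linarith) (by linarith) (by linarith)
  exact JD6a_p2_c1_b1_0 hβ hN (by linarith) (by linarith) (by linarith) (by linarith)

theorem JD6a_2 {κ t β : ℝ} (h : DomR κ t) (hβ : 0 < β) (hk1 : 0.6 ≤ κ) (hk2 : κ ≤ 0.75)
    (ht1 : -0.576 ≤ t + κ) (ht2 : t + κ ≤ -0.4398) (hR0 : β * 10 ≤ κ) (hR : β * (4.95 * (1 + κ ^ 2)) ≤ κ) :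
    ∀ s : ℂ, ‖s - sg κ t‖ ≤ 0.15 → ‖HH β s - 1‖ ≤ 0.14 := by
  rcases le_total κ 0.73 with f0 | g0
  · exact JD6a_p2_c0 h hβ hk1 f0 ht1 ht2 hR0 hR
  exact JD6a_p2_c1 h hβ g0 hk2 ht1 ht2 hR0 hR

end Sok
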