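import Pool.Agent.Lib.MP_816dec_an.JBG2

/-!
MP_816dec_an (A3, row R1): discs around the saddle of the copy 1, b = 6.
-/

set_option autoImplicit false
set_option maxHeartbeats 4000000

open Complex Set

namespace Sok

private theorem JD6c_p0_c0_b0_0 {β x y : ℝ} (hβ : 0 < β) (hN : β * 16.949 ≤ 1) (hx1 : 0.1493 ≤ x) (hx2 : x ≤ 0.4493)
    (hy1 : -0.006 ≤ y) (hy2 : y ≤ 0.359) : ‖HH β (x + y * I) - 1‖ ≤ 0.05 := by
  refine le_epsJ (C := 0.8308) (N0 := 16.949) (J_boxp 0.1493 0.4493 0.006 0.359 0.359 0.8109 0.5752 1.4314 1.6385 0.4773 4.117 16.949 0.7094 2.572 1.375 1.2417 0.4054 0.3095 1.0499 3.7914 0.3876 0.6701 0.3132 1.7554 0.00104 0.005274 0.0000003101 0.0000003101 0.001404 0.00001169 0.004952 0.0000003101 0.8308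
    hβ hN hx1 hx2 hy1 hy2 (by norm_num) (by norm_num) (by linarith) (by norm_num) (by norm_num) (by norm_num) (by norm_num) (by norm_num) (by norm_num) (by norm_num) (by norm_num) (by norm_num) (by norm_num) (by norm_num) (by norm_num) (by norm_num) (by norm_num) (by norm_num) (by norm_num) (by norm_num) (by norm_num) (by norm_num) (by norm_num) (by norm_num)
    (cube_sqrt_geJ (s := 0.8738) (by norm_num) (by norm_num) (by norm_num) (by norm_num))
    (cube_sqrt_geJ (s := 0.9555) (by norm_num) (by norm_num) (by norm_num) (by norm_num))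
    (by norm_num) (by norm_num) (by norm_num) (by norm_num) (by norm_num) (by norm_num) (by norm_num) (by norm_num) (by norm_num) (by norm_num) (by norm_num) (by norm_num) (by norm_num) (by norm_num) (by norm_num) (by norm_num) (by norm_num) (by norm_num)
    (exp_neg_leJ (r := 0.871) 6 (by norm_num) (by norm_num) (by norm_num) (by norm_num))
    (exp_neg_leJ (r := 0.245) 5 (by norm_num) (by norm_num) (by norm_num) (by norm_num))
    (exp_neg_leJ (r := 0.99) 14 (by norm_num) (by norm_num) (by norm_num) (by norm_num))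
    (exp_neg_leJ (r := 0.99) 14 (by norm_num) (by norm_num) (by norm_num) (by norm_num))
    (exp_neg_leJ (r := 0.569) 6 (by norm_num) (by norm_num) (by norm_num) (by norm_num))
    (exp_neg_leJ (r := 0.357) 11 (by norm_num) (by norm_num) (by norm_num) (by norm_num))
    (exp_neg_leJ (r := 0.308) 5 (by norm_num) (by norm_num) (by norm_num) (by norm_num))
    (exp_neg_leJ (r := 0.99) 14 (by norm_num) (by norm_num) (by norm_num) (by norm_num))
    (by norm_num)) (by norm_num) hN hβ.le (by norm_num)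

private theorem JD6c_p0_c0_b0_1 {β x y : ℝ} (hβ : 0 < β) (hN : β * 16.949 ≤ 1) (hx1 : 0.4493 ≤ x) (hx2 : x ≤ 0.6402)
    (hy1 : -0.006 ≤ y) (hy2 : y ≤ 0.359) : ‖HH β (x + y * I) - 1‖ ≤ 0.05 := by
  refine le_epsJ (C := 0.5243) (N0 := 16.949) (J_boxp 0.4493 0.6402 0.006 0.359 0.359 1.0221 0.734 1.5023 1.1862 0.489 4.117 16.949 0.7182 2.606 1.381 1.1683 0.511 0.3887 1.1526 3.6897 0.5333 1.0854 0.9132 1.9238 0.0001735 0.001378 0.0000003101 0.0000003101 0.0001189 0.0000003101 0.0000003101 0.0000003101 0.5243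
    hβ hN hx1 hx2 hy1 hy2 (by norm_num) (by norm_num) (by linarith) (by norm_num) (by norm_num) (by norm_num) (by norm_num) (by norm_num) (by norm_num) (by norm_num) (by norm_num) (by norm_num) (by norm_num) (by norm_num) (by norm_num) (by norm_num) (by norm_num) (by norm_num) (by norm_num) (by norm_num) (by norm_num) (by norm_num) (by norm_num) (by norm_num)
    (cube_sqrt_geJ (s := 0.8721) (by norm_num) (by norm_num) (by norm_num) (by norm_num))
    (cube_sqrt_geJ (s := 0.955) (by norm_num) (by norm_num) (by norm_num) (by norm_num))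
    (by norm_num) (by norm_num) (by norm_num) (by norm_num) (by norm_num) (by norm_num) (by norm_num) (by norm_num) (by norm_num) (by norm_num) (by norm_num) (by norm_num) (by norm_num) (by norm_num) (by norm_num) (by norm_num) (by norm_num) (by norm_num)
    (exp_neg_leJ (r := 0.66) 8 (by norm_num) (by norm_num) (by norm_num) (by norm_num))
    (exp_neg_leJ (r := 0.588) 6 (by norm_num) (by norm_num) (by norm_num) (by norm_num))
    (exp_neg_leJ (r := 0.99) 14 (by norm_num) (by norm_num) (by norm_num) (by norm_num))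
    (exp_neg_leJ (r := 0.99) 14 (by norm_num) (by norm_num) (by norm_num) (by norm_num))
    (exp_neg_leJ (r := 0.038) 9 (by norm_num) (by norm_num) (by norm_num) (by norm_num))
    (exp_neg_leJ (r := 0.99) 14 (by norm_num) (by norm_num) (by norm_num) (by norm_num))
    (exp_neg_leJ (r := 0.99) 14 (by norm_num) (by norm_num) (by norm_num) (by norm_num))
    (exp_neg_leJ (r := 0.99) 14 (by norm_num) (by norm_num) (by norm_num) (by norm_num))
    (by norm_num)) (by norm_num) hN hβ.le (by norm_num)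

private theorem JD6c_p0_c0 {κ t β : ℝ} (h : DomR κ t) (hβ : 0 < β) (hk1 : 0.45 ≤ κ) (hk2 : κ ≤ 0.59)
    (ht1 : 0.4712 ≤ t + κ) (ht2 : t + κ ≤ 0.6075) (hR0 : β * 10 ≤ κ) (hR : β * (4.95 * (1 + κ ^ 2)) ≤ κ) :
    ∀ s : ℂ, ‖s - sg κ t‖ ≤ 0.15 → ‖HH β s - 1‖ ≤ 0.05 := by
  have hN : β * 16.949 ≤ 1 := bNR hβ h.1 hk2 hR0 (by norm_num)
  have hy1 : 0.144 ≤ sy κ t := syR_ge h 0.45 0.59 0.4712 0.144 1.15488 1.15489 0.28186 0.36957 hk1 hk2 (by linarith) (by norm_num) (by norm_num)
    (expn_ge (by norm_num) (by norm_num)) (expn_le (by norm_num) (by norm_num) (by norm_num)) (by norm_num)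
    (by norm_num) (by norm_num) (by norm_num) (by norm_num) (by norm_num) (by norm_num)
  have hy2 : sy κ t ≤ 0.209 := syR_le h 0.45 0.59 0.6075 0.209 1.23244 0.4139 0.43657 0.57241 hk1 hk2 (by linarith) (by norm_num) (by norm_num)
    (expn_ge (by norm_num) (by norm_num)) (by norm_num) (by norm_num) (Or.inr ((mul_le_mul_of_nonneg_left (expn_le (E := 1.23245) (by norm_num) (by norm_num) (by norm_num)) (by norm_num)).trans (by norm_num))) (by norm_num) (by norm_num) (by norm_num)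
  have hx1 : 0.2993 ≤ sx κ t := sx_lo h 0.45 0.209 0.209 0.81139 0.2993 hk1 (by norm_num) hy2 (abs_le.2 ⟨by linarith, by linarith⟩) (expm_ge (by norm_num) (by norm_num) (by norm_num) (by norm_num)) (by norm_num) (by norm_num)
  have hx2 : sx κ t ≤ 0.4902 := sx_hi h 0.59 0.144 0.144 0.86589 0.4902 hk2 hy1 (by norm_num) (by rw [abs_of_nonneg (by linarith)]; linarith) (expm_le (by norm_num) (by norm_num) (by norm_num)) (by norm_num) (by norm_num)
  intro s hs
  have hs' : ‖s - ((sx κ t : ℂ) + (sy κ t : ℂ) * I)‖ ≤ 0.15 := hs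
  obtain ⟨es, ⟨s1, s2⟩, ⟨s3, s4⟩⟩ := disc_split hs'
  have X1 : 0.1493 ≤ s.re := by linarith
  have X2 : s.re ≤ 0.6402 := by linarith
  have Y1 : (-0.006) ≤ s.im := by linarith
  have Y2 : s.im ≤ 0.359 := by linarith
  rw [es]
  rcases le_total s.re 0.4493 with u0 | v0
  · exact JD6c_p0_c0_b0_0 hβ hN (by linarith) (by linarith) (by linarith) (by linarith)
  exact JD6c_p0_c0_b0_1 hβ hN (by linarith) (by linarith) (by linarith) (by linarith)

private theorem JD6c_p0_c1_b0_0 {β x y : ℝ} (hβ : 0 < β) (hN : β * 16.666 ≤ 1) (hx1 : 0.2786 ≤ x) (hx2 : x ≤ 0.6277)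
    (hy1 : -0 ≤ y) (hy2 : y ≤ 0.339) : ‖HH β (x + y * I) - 1‖ ≤ 0.05 := by
  refine le_epsJ (C := 0.8185) (N0 := 16.666) (J_boxp 0.2786 0.6277 0 0.339 0.339 0.9062 0.7134 1.4789 1.4098 0.4852 4.0825 16.666 0.7873 2.903 1.426 1.1786 0.453 0.3341 1.1036 3.718 0.4557 0.8511 0.6739 1.7326 0.0005268 0.00382 0.0000003101 0.0000003101 0.0005037 0.0000006918 0.00001326 0.0000003101 0.8185
    hβ hN hx1 hx2 hy1 hy2 (by norm_num) (by norm_num) (by linarith) (by norm_num) (by norm_num) (by norm_num) (by norm_num) (by norm_num) (by norm_num) (by norm_num) (by norm_num) (by norm_num) (by norm_num) (by norm_num) (by norm_num) (by norm_num) (by norm_num) (by norm_num) (by norm_num) (by norm_num) (by norm_num) (by norm_num) (by norm_num) (by norm_num)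
    (cube_sqrt_geJ (s := 0.8588) (by norm_num) (by norm_num) (by norm_num) (by norm_num))
    (cube_sqrt_geJ (s := 0.9505) (by norm_num) (by norm_num) (by norm_num) (by norm_num))
    (by norm_num) (by norm_num) (by norm_num) (by norm_num) (by norm_num) (by norm_num) (by norm_num) (by norm_num) (by norm_num) (by norm_num) (by norm_num) (by norm_num) (by norm_num) (by norm_num) (by norm_num) (by norm_num) (by norm_num) (by norm_num)
    (exp_neg_leJ (r := 0.549) 7 (by norm_num) (by norm_num) (by norm_num) (by norm_num))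
    (exp_neg_leJ (r := 0.568) 5 (by norm_num) (by norm_num) (by norm_num) (by norm_num))
    (exp_neg_leJ (r := 0.99) 14 (by norm_num) (by norm_num) (by norm_num) (by norm_num))
    (exp_neg_leJ (r := 0.99) 14 (by norm_num) (by norm_num) (by norm_num) (by norm_num))
    (exp_neg_leJ (r := 0.594) 7 (by norm_num) (by norm_num) (by norm_num) (by norm_num))
    (exp_neg_leJ (r := 0.184) 14 (by norm_num) (by norm_num) (by norm_num) (by norm_num))
    (exp_neg_leJ (r := 0.231) 11 (by norm_num) (by norm_num) (by norm_num) (by norm_num))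
    (exp_neg_leJ (r := 0.99) 14 (by norm_num) (by norm_num) (by norm_num) (by norm_num))
    (by norm_num)) (by norm_num) hN hβ.le (by norm_num)

private theorem JD6c_p0_c1_b1_0 {β x y : ℝ} (hβ : 0 < β) (hN : β * 16.666 ≤ 1) (hx1 : 0.2786 ≤ x) (hx2 : x ≤ 0.6186)
    (hy1 : -0 ≤ y) (hy2 : y ≤ 0.361) : ‖HH β (x + y * I) - 1‖ ≤ 0.05 := by
  refine le_epsJ (C := 0.8312) (N0 := 16.666) (J_boxp 0.2786 0.6186 0 0.361 0.361 0.9062 0.7163 1.495 1.4174 0.4878 4.0825 16.666 0.7905 2.918 1.429 1.1821 0.453 0.3337 1.1036 3.72 0.4535 0.8489 0.5795 1.6211 0.0005268 0.003847 0.0000003101 0.0000003101 0.0005221 0.0000007179 0.00006402 0.0000003101 0.8312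
    hβ hN hx1 hx2 hy1 hy2 (by norm_num) (by norm_num) (by linarith) (by norm_num) (by norm_num) (by norm_num) (by norm_num) (by norm_num) (by norm_num) (by norm_num) (by norm_num) (by norm_num) (by norm_num) (by norm_num) (by norm_num) (by norm_num) (by norm_num) (by norm_num) (by norm_num) (by norm_num) (by norm_num) (by norm_num) (by norm_num) (by norm_num)
    (cube_sqrt_geJ (s := 0.8581) (by norm_num) (by norm_num) (by norm_num) (by norm_num))
    (cube_sqrt_geJ (s := 0.9503) (by norm_num) (by norm_num) (by norm_num) (by norm_num))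
    (by norm_num) (by norm_num) (by norm_num) (by norm_num) (by norm_num) (by norm_num) (by norm_num) (by norm_num) (by norm_num) (by norm_num) (by norm_num) (by norm_num) (by norm_num) (by norm_num) (by norm_num) (by norm_num) (by norm_num) (by norm_num)
    (exp_neg_leJ (r := 0.549) 7 (by norm_num) (by norm_num) (by norm_num) (by norm_num))
    (exp_neg_leJ (r := 0.561) 5 (by norm_num) (by norm_num) (by norm_num) (by norm_num))
    (exp_neg_leJ (r := 0.99) 14 (by norm_num) (by norm_num) (by norm_num) (by norm_num))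
    (exp_neg_leJ (r := 0.99) 14 (by norm_num) (by norm_num) (by norm_num) (by norm_num))
    (exp_neg_leJ (r := 0.558) 7 (by norm_num) (by norm_num) (by norm_num) (by norm_num))
    (exp_neg_leJ (r := 0.147) 14 (by norm_num) (by norm_num) (by norm_num) (by norm_num))
    (exp_neg_leJ (r := 0.657) 9 (by norm_num) (by norm_num) (by norm_num) (by norm_num))
    (exp_neg_leJ (r := 0.99) 14 (by norm_num) (by norm_num) (by norm_num) (by norm_num))
    (by norm_num)) (by norm_num) hN hβ.le (by norm_num)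

private theorem JD6c_p0_c1_b1_1 {β x y : ℝ} (hβ : 0 < β) (hN : β * 16.666 ≤ 1) (hx1 : 0.6186 ≤ x) (hx2 : x ≤ 0.6277)
    (hy1 : -0 ≤ y) (hy2 : y ≤ 0.361) : ‖HH β (x + y * I) - 1‖ ≤ 0.05 := by
  refine le_epsJ (C := 0.3253) (N0 := 16.666) (J_boxp 0.6186 0.6277 0 0.361 0.361 1.1456 0.7242 1.4988 0.9985 0.4885 4.0825 16.666 0.6322 2.29 1.326 1.1786 0.5727 0.452 1.22 3.7151 0.6186 1.3197 1.2595 2.2796 0.00007165 0.0005353 0.0000003101 0.0000003101 0.00003334 0.0000003101 0.0000003101 0.0000003101 0.3253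
    hβ hN hx1 hx2 hy1 hy2 (by norm_num) (by norm_num) (by linarith) (by norm_num) (by norm_num) (by norm_num) (by norm_num) (by norm_num) (by norm_num) (by norm_num) (by norm_num) (by norm_num) (by norm_num) (by norm_num) (by norm_num) (by norm_num) (by norm_num) (by norm_num) (by norm_num) (by norm_num) (by norm_num) (by norm_num) (by norm_num) (by norm_num)
    (cube_sqrt_geJ (s := 0.8884) (by norm_num) (by norm_num) (by norm_num) (by norm_num))
    (cube_sqrt_geJ (s := 0.9605) (by norm_num) (by norm_num) (by norm_num) (by norm_num))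
    (by norm_num) (by norm_num) (by norm_num) (by norm_num) (by norm_num) (by norm_num) (by norm_num) (by norm_num) (by norm_num) (by norm_num) (by norm_num) (by norm_num) (by norm_num) (by norm_num) (by norm_num) (by norm_num) (by norm_num) (by norm_num)
    (exp_neg_leJ (r := 0.544) 9 (by norm_num) (by norm_num) (by norm_num) (by norm_num))
    (exp_neg_leJ (r := 0.533) 7 (by norm_num) (by norm_num) (by norm_num) (by norm_num))
    (exp_neg_leJ (r := 0.99) 14 (by norm_num) (by norm_num) (by norm_num) (by norm_num))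
    (exp_neg_leJ (r := 0.99) 14 (by norm_num) (by norm_num) (by norm_num) (by norm_num))
    (exp_neg_leJ (r := 0.309) 10 (by norm_num) (by norm_num) (by norm_num) (by norm_num))
    (exp_neg_leJ (r := 0.99) 14 (by norm_num) (by norm_num) (by norm_num) (by norm_num))
    (exp_neg_leJ (r := 0.99) 14 (by norm_num) (by norm_num) (by norm_num) (by norm_num))
    (exp_neg_leJ (r := 0.99) 14 (by norm_num) (by norm_num) (by norm_num) (by norm_num))
    (by norm_num)) (by norm_num) hN hβ.le (by norm_num)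

private theorem JD6c_p0_c1 {κ t β : ℝ} (h : DomR κ t) (hβ : 0 < β) (hk1 : 0.59 ≤ κ) (hk2 : κ ≤ 0.6)
    (ht1 : 0.4712 ≤ t + κ) (ht2 : t + κ ≤ 0.6075) (hR0 : β * 10 ≤ κ) (hR : β * (4.95 * (1 + κ ^ 2)) ≤ κ) :
    ∀ s : ℂ, ‖s - sg κ t‖ ≤ 0.15 → ‖HH β s - 1‖ ≤ 0.05 := by
  have hN : β * 16.666 ≤ 1 := bNR hβ h.1 hk2 hR0 (by norm_num)
  have hy1 : 0.169 ≤ sy κ t := syR_ge h 0.59 0.6 0.4712 0.169 1.18412 1.18413 0.33352 0.33919 hk1 hk2 (by linarith) (by norm_num) (by norm_num)
    (expn_ge (by norm_num) (by norm_num)) (expn_le (by norm_num) (by norm_num) (by norm_num)) (by norm_num)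
    (by norm_num) (by norm_num) (by norm_num) (by norm_num) (by norm_num) (by norm_num)
  have hy2 : sy κ t ≤ 0.211 := syR_le h 0.59 0.6 0.6075 0.211 1.23491 0.4324 0.43427 0.44165 hk1 hk2 (by linarith) (by norm_num) (by norm_num)
    (expn_ge (by norm_num) (by norm_num)) (by norm_num) (by norm_num) (Or.inr ((mul_le_mul_of_nonneg_left (expn_le (E := 1.23492) (by norm_num) (by norm_num) (by norm_num)) (by norm_num)).trans (by norm_num))) (by norm_num) (by norm_num) (by norm_num)
  have hx1 : 0.4286 ≤ sx κ t := sx_lo h 0.59 0.211 0.211 0.80977 0.4286 hk1 (by norm_num) hy2 (abs_le.2 ⟨by linarith, by linarith⟩) (expm_ge (by norm_num) (by norm_num) (by norm_num) (by norm_num)) (by norm_num) (by norm_num)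
  have hx2 : sx κ t ≤ 0.4777 := sx_hi h 0.6 0.169 0.169 0.84451 0.4777 hk2 hy1 (by norm_num) (by rw [abs_of_nonneg (by linarith)]; linarith) (expm_le (by norm_num) (by norm_num) (by norm_num)) (by norm_num) (by norm_num)
  intro s hs
  have hs' : ‖s - ((sx κ t : ℂ) + (sy κ t : ℂ) * I)‖ ≤ 0.15 := hs
  obtain ⟨es, ⟨s1, s2⟩, ⟨s3, s4⟩⟩ := disc_split hs'
  have X1 : 0.2786 ≤ s.re := by linarith
  have X2 : s.re ≤ 0.6277 := by linarith
  have Y1 : 0.019 ≤ s.im := by linarith
  have Y2 : s.im ≤ 0.361 := by linarith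
  rw [es]
  rcases le_total s.im 0.339 with f0 | g0
  · exact JD6c_p0_c1_b0_0 hβ hN (by linarith) (by linarith) (by linarith) (by linarith)
  rcases le_total s.re 0.6186 with u0 | v0
  · exact JD6c_p0_c1_b1_0 hβ hN (by linarith) (by linarith) (by linarith) (by linarith)
  exact JD6c_p0_c1_b1_1 hβ hN (by linarith) (by linarith) (by linarith) (by linarith)

theorem JD6c_0 {κ t β : ℝ} (h : DomR κ t) (hβ : 0 < β) (hk1 : 0.45 ≤ κ) (hk2 : κ ≤ 0.6)
    (ht1 : 0.4712 ≤ t + κ) (ht2 : t + κ ≤ 0.6075) (hR0 : β * 10 ≤ κ) (hR : β * (4.95 * (1 + κ ^ 2)) ≤ κ) :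
    ∀ s : ℂ, ‖s - sg κ t‖ ≤ 0.15 → ‖HH β s - 1‖ ≤ 0.05 := by
  rcases le_total κ 0.59 with f0 | g0
  · exact JD6c_p0_c0 h hβ hk1 f0 ht1 ht2 hR0 hR
  exact JD6c_p0_c1 h hβ g0 hk2 ht1 ht2 hR0 hR

private theorem JD6c_p1_c0_b0_0 {β x y : ℝ} (hβ : 0 < β) (hN : β * 13.333 ≤ 1) (hx1 : 0.2631 ≤ x) (hx2 : x ≤ 0.4931)
    (hy1 : -0 ≤ y) (hy2 : y ≤ 0.384) : ‖HH β (x + y * I) - 1‖ ≤ 0.06 := by
  refine le_epsJ (C := 0.7831) (N0 := 13.333) (J_boxp 0.2631 0.4931 0 0.384 0.384 0.8953 0.625 1.4693 1.4309 0.4836 3.6515 13.333 0.6981 2.528 1.368 1.2304 0.4476 0.3434 1.0983 3.7833 0.4436 0.8251 0.4499 1.7299 0.002571 0.01028 0.0000004374 0.0000003101 0.002709 0.00001669 0.002513 0.0000003101 0.7831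
    hβ hN hx1 hx2 hy1 hy2 (by norm_num) (by norm_num) (by linarith) (by norm_num) (by norm_num) (by norm_num) (by norm_num) (by norm_num) (by norm_num) (by norm_num) (by norm_num) (by norm_num) (by norm_num) (by norm_num) (by norm_num) (by norm_num) (by norm_num) (by norm_num) (by norm_num) (by norm_num) (by norm_num) (by norm_num) (by norm_num) (by norm_num)
    (cube_sqrt_geJ (s := 0.8759) (by norm_num) (by norm_num) (by norm_num) (by norm_num))
    (cube_sqrt_geJ (s := 0.9563) (by norm_num) (by norm_num) (by norm_num) (by norm_num))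
    (by norm_num) (by norm_num) (by norm_num) (by norm_num) (by norm_num) (by norm_num) (by norm_num) (by norm_num) (by norm_num) (by norm_num) (by norm_num) (by norm_num) (by norm_num) (by norm_num) (by norm_num) (by norm_num) (by norm_num) (by norm_num)
    (exp_neg_leJ (r := 0.967) 5 (by norm_num) (by norm_num) (by norm_num) (by norm_num))
    (exp_neg_leJ (r := 0.578) 4 (by norm_num) (by norm_num) (by norm_num) (by norm_num))
    (exp_neg_leJ (r := 0.643) 14 (by norm_num) (by norm_num) (by norm_num) (by norm_num))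
    (exp_neg_leJ (r := 0.99) 14 (by norm_num) (by norm_num) (by norm_num) (by norm_num))
    (exp_neg_leJ (r := 0.914) 5 (by norm_num) (by norm_num) (by norm_num) (by norm_num))
    (exp_neg_leJ (r := 0.001) 11 (by norm_num) (by norm_num) (by norm_num) (by norm_num))
    (exp_neg_leJ (r := 0.99) 5 (by norm_num) (by norm_num) (by norm_num) (by norm_num))
    (exp_neg_leJ (r := 0.99) 14 (by norm_num) (by norm_num) (by norm_num) (by norm_num))
    (by norm_num)) (by norm_num) hN hβ.le (by norm_num)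

private theorem JD6c_p1_c0_b0_1 {β x y : ℝ} (hβ : 0 < β) (hN : β * 13.333 ≤ 1) (hx1 : 0.4931 ≤ x) (hx2 : x ≤ 0.7586)
    (hy1 : -0 ≤ y) (hy2 : y ≤ 0.384) : ‖HH β (x + y * I) - 1‖ ≤ 0.06 := by
  refine le_epsJ (C := 0.73) (N0 := 13.333) (J_boxp 0.4931 0.7586 0 0.384 0.384 1.0572 0.8503 1.5783 1.1558 0.5012 3.6515 13.333 0.8043 2.982 1.438 1.1283 0.5285 0.3868 1.177 3.6407 0.5553 1.1435 0.9099 1.5774 0.0008709 0.00576 0.0000003101 0.0000003101 0.0006095 0.0000003101 0.00000539 0.0000003101 0.73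
    hβ hN hx1 hx2 hy1 hy2 (by norm_num) (by norm_num) (by linarith) (by norm_num) (by norm_num) (by norm_num) (by norm_num) (by norm_num) (by norm_num) (by norm_num) (by norm_num) (by norm_num) (by norm_num) (by norm_num) (by norm_num) (by norm_num) (by norm_num) (by norm_num) (by norm_num) (by norm_num) (by norm_num) (by norm_num) (by norm_num) (by norm_num)
    (cube_sqrt_geJ (s := 0.8555) (by norm_num) (by norm_num) (by norm_num) (by norm_num))
    (cube_sqrt_geJ (s := 0.9494) (by norm_num) (by norm_num) (by norm_num) (by norm_num))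
    (by norm_num) (by norm_num) (by norm_num) (by norm_num) (by norm_num) (by norm_num) (by norm_num) (by norm_num) (by norm_num) (by norm_num) (by norm_num) (by norm_num) (by norm_num) (by norm_num) (by norm_num) (by norm_num) (by norm_num) (by norm_num)
    (exp_neg_leJ (r := 0.046) 7 (by norm_num) (by norm_num) (by norm_num) (by norm_num))
    (exp_neg_leJ (r := 0.157) 5 (by norm_num) (by norm_num) (by norm_num) (by norm_num))
    (exp_neg_leJ (r := 0.99) 14 (by norm_num) (by norm_num) (by norm_num) (by norm_num))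
    (exp_neg_leJ (r := 0.99) 14 (by norm_num) (by norm_num) (by norm_num) (by norm_num))
    (exp_neg_leJ (r := 0.403) 7 (by norm_num) (by norm_num) (by norm_num) (by norm_num))
    (exp_neg_leJ (r := 0.99) 14 (by norm_num) (by norm_num) (by norm_num) (by norm_num))
    (exp_neg_leJ (r := 0.131) 12 (by norm_num) (by norm_num) (by norm_num) (by norm_num))
    (exp_neg_leJ (r := 0.99) 14 (by norm_num) (by norm_num) (by norm_num) (by norm_num))
    (by norm_num)) (by norm_num) hN hβ.le (by norm_num)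

private theorem JD6c_p1_c0 {κ t β : ℝ} (h : DomR κ t) (hβ : 0 < β) (hk1 : 0.6 ≤ κ) (hk2 : κ ≤ 0.75)
    (ht1 : 0.4712 ≤ t + κ) (ht2 : t + κ ≤ 0.6075) (hR0 : β * 10 ≤ κ) (hR : β * (4.95 * (1 + κ ^ 2)) ≤ κ) :
    ∀ s : ℂ, ‖s - sg κ t‖ ≤ 0.15 → ‖HH β s - 1‖ ≤ 0.06 := by
  have hN : β * 13.333 ≤ 1 := bNR hβ h.1 hk2 hR0 (by norm_num)
  have hy1 : 0.171 ≤ sy κ t := syR_ge h 0.6 0.75 0.4712 0.171 1.18649 1.1865 0.27051 0.33816 hk1 hk2 (by linarith) (by norm_num) (by norm_num)
    (expn_ge (by norm_num) (by norm_num)) (expn_le (by norm_num) (by norm_num) (by norm_num)) (by norm_num)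
    (by norm_num) (by norm_num) (by norm_num) (by norm_num) (by norm_num) (by norm_num)
  have hy2 : sy κ t ≤ 0.234 := syR_le h 0.6 0.75 0.6075 0.234 1.26364 0.3778 0.39425 0.49283 hk1 hk2 (by linarith) (by norm_num) (by norm_num)
    (expn_ge (by norm_num) (by norm_num)) (by norm_num) (by norm_num) (Or.inr ((mul_le_mul_of_nonneg_left (expn_le (E := 1.26365) (by norm_num) (by norm_num) (by norm_num)) (by norm_num)).trans (by norm_num))) (by norm_num) (by norm_num) (by norm_num)
  have hx1 : 0.4131 ≤ sx κ t := sx_lo h 0.6 0.234 0.234 0.79136 0.4131 hk1 (by norm_num) hy2 (abs_le.2 ⟨by linarith, by linarith⟩) (expm_ge (by norm_num) (by norm_num) (by norm_num) (by norm_num)) (by norm_num) (by norm_num)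
  have hx2 : sx κ t ≤ 0.6086 := sx_hi h 0.75 0.171 0.171 0.84283 0.6086 hk2 hy1 (by norm_num) (by rw [abs_of_nonneg (by linarith)]; linarith) (expm_le (by norm_num) (by norm_num) (by norm_num)) (by norm_num) (by norm_num)
  intro s hs
  have hs' : ‖s - ((sx κ t : ℂ) + (sy κ t : ℂ) * I)‖ ≤ 0.15 := hs
  obtain ⟨es, ⟨s1, s2⟩, ⟨s3, s4⟩⟩ := disc_split hs'
  have X1 : 0.2631 ≤ s.re := by linarith
  have X2 : s.re ≤ 0.7586 := by linarith
  have Y1 : 0.021 ≤ s.im := by linarith
  have Y2 : s.im ≤ 0.384 := by linarith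
  rw [es]
  rcases le_total s.re 0.4931 with u0 | v0
  · exact JD6c_p1_c0_b0_0 hβ hN (by linarith) (by linarith) (by linarith) (by linarith)
  exact JD6c_p1_c0_b0_1 hβ hN (by linarith) (by linarith) (by linarith) (by linarith)

theorem JD6c_1 {κ t β : ℝ} (h : DomR κ t) (hβ : 0 < β) (hk1 : 0.6 ≤ κ) (hk2 : κ ≤ 0.75)
    (ht1 : 0.4712 ≤ t + κ) (ht2 : t + κ ≤ 0.6075) (hR0 : β * 10 ≤ κ) (hR : β * (4.95 * (1 + κ ^ 2)) ≤ κ) :
    ∀ s : ℂ, ‖s - sg κ t‖ ≤ 0.15 → ‖HH β s - 1‖ ≤ 0.06 := by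
  exact JD6c_p1_c0 h hβ hk1 hk2 ht1 ht2 hR0 hR

private theorem JD6c_p2_c0_b0_0 {β x y : ℝ} (hβ : 0 < β) (hN : β * 11.494 ≤ 1) (hx1 : 0.3812 ≤ x) (hx2 : x ≤ 0.5912)
    (hy1 : -0 ≤ y) (hy2 : y ≤ 0.397) : ‖HH β (x + y * I) - 1‖ ≤ 0.07 := by
  refine le_epsJ (C := 0.7863) (N0 := 11.494) (J_boxp 0.3812 0.5912 0 0.397 0.397 0.9784 0.7122 1.517 1.2727 0.4914 3.3903 11.494 0.728 2.646 1.387 1.1927 0.4891 0.3704 1.1387 3.7295 0.4996 0.9873 0.6303 1.6678 0.003623 0.01417 0.00000207 0.0000003101 0.003212 0.0000118 0.0007145 0.0000003101 0.7863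
    hβ hN hx1 hx2 hy1 hy2 (by norm_num) (by norm_num) (by linarith) (by norm_num) (by norm_num) (by norm_num) (by norm_num) (by norm_num) (by norm_num) (by norm_num) (by norm_num) (by norm_num) (by norm_num) (by norm_num) (by norm_num) (by norm_num) (by norm_num) (by norm_num) (by norm_num) (by norm_num) (by norm_num) (by norm_num) (by norm_num) (by norm_num)
    (cube_sqrt_geJ (s := 0.8702) (by norm_num) (by norm_num) (by norm_num) (by norm_num))
    (cube_sqrt_geJ (s := 0.9543) (by norm_num) (by norm_num) (by norm_num) (by norm_num))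
    (by norm_num) (by norm_num) (by norm_num) (by norm_num) (by norm_num) (by norm_num) (by norm_num) (by norm_num) (by norm_num) (by norm_num) (by norm_num) (by norm_num) (by norm_num) (by norm_num) (by norm_num) (by norm_num) (by norm_num) (by norm_num)
    (exp_neg_leJ (r := 0.621) 5 (by norm_num) (by norm_num) (by norm_num) (by norm_num))
    (exp_neg_leJ (r := 0.257) 4 (by norm_num) (by norm_num) (by norm_num) (by norm_num))
    (exp_neg_leJ (r := 0.088) 13 (by norm_num) (by norm_num) (by norm_num) (by norm_num))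
    (exp_neg_leJ (r := 0.99) 14 (by norm_num) (by norm_num) (by norm_num) (by norm_num))
    (exp_neg_leJ (r := 0.742) 5 (by norm_num) (by norm_num) (by norm_num) (by norm_num))
    (exp_neg_leJ (r := 0.348) 11 (by norm_num) (by norm_num) (by norm_num) (by norm_num))
    (exp_neg_leJ (r := 0.244) 7 (by norm_num) (by norm_num) (by norm_num) (by norm_num))
    (exp_neg_leJ (r := 0.99) 14 (by norm_num) (by norm_num) (by norm_num) (by norm_num))
    (by norm_num)) (by norm_num) hN hβ.le (by norm_num)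

private theorem JD6c_p2_c0_b0_1 {β x y : ℝ} (hβ : 0 < β) (hN : β * 11.494 ≤ 1) (hx1 : 0.5912 ≤ x) (hx2 : x ≤ 0.845)
    (hy1 : -0 ≤ y) (hy2 : y ≤ 0.397) : ‖HH β (x + y * I) - 1‖ ≤ 0.07 := by
  refine le_epsJ (C := 0.7628) (N0 := 11.494) (J_boxp 0.5912 0.845 0 0.397 0.397 1.1263 0.9337 1.6327 1.069 0.5098 3.3903 11.494 0.829 3.103 1.455 1.0951 0.5631 0.4075 1.2106 3.5915 0.6016 1.278 1.0503 1.4857 0.001547 0.009258 0.0000009085 0.0000003101 0.0009963 0.0000004179 0.000005718 0.0000003101 0.7628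
    hβ hN hx1 hx2 hy1 hy2 (by norm_num) (by norm_num) (by linarith) (by norm_num) (by norm_num) (by norm_num) (by norm_num) (by norm_num) (by norm_num) (by norm_num) (by norm_num) (by norm_num) (by norm_num) (by norm_num) (by norm_num) (by norm_num) (by norm_num) (by norm_num) (by norm_num) (by norm_num) (by norm_num) (by norm_num) (by norm_num) (by norm_num)
    (cube_sqrt_geJ (s := 0.8506) (by norm_num) (by norm_num) (by norm_num) (by norm_num))
    (cube_sqrt_geJ (s := 0.9478) (by norm_num) (by norm_num) (by norm_num) (by norm_num))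
    (by norm_num) (by norm_num) (by norm_num) (by norm_num) (by norm_num) (by norm_num) (by norm_num) (by norm_num) (by norm_num) (by norm_num) (by norm_num) (by norm_num) (by norm_num) (by norm_num) (by norm_num) (by norm_num) (by norm_num) (by norm_num)
    (exp_neg_leJ (r := 0.472) 6 (by norm_num) (by norm_num) (by norm_num) (by norm_num))
    (exp_neg_leJ (r := 0.683) 4 (by norm_num) (by norm_num) (by norm_num) (by norm_num))
    (exp_neg_leJ (r := 0.914) 13 (by norm_num) (by norm_num) (by norm_num) (by norm_num))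
    (exp_neg_leJ (r := 0.99) 14 (by norm_num) (by norm_num) (by norm_num) (by norm_num))
    (exp_neg_leJ (r := 0.914) 6 (by norm_num) (by norm_num) (by norm_num) (by norm_num))
    (exp_neg_leJ (r := 0.689) 14 (by norm_num) (by norm_num) (by norm_num) (by norm_num))
    (exp_neg_leJ (r := 0.072) 12 (by norm_num) (by norm_num) (by norm_num) (by norm_num))
    (exp_neg_leJ (r := 0.99) 14 (by norm_num) (by norm_num) (by norm_num) (by norm_num))
    (by norm_num)) (by norm_num) hN hβ.le (by norm_num)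

private theorem JD6c_p2_c0 {κ t β : ℝ} (h : DomR κ t) (hβ : 0 < β) (hk1 : 0.75 ≤ κ) (hk2 : κ ≤ 0.87)
    (ht1 : 0.4712 ≤ t + κ) (ht2 : t + κ ≤ 0.6075) (hR0 : β * 10 ≤ κ) (hR : β * (4.95 * (1 + κ ^ 2)) ≤ κ) :
    ∀ s : ℂ, ‖s - sg κ t‖ ≤ 0.15 → ‖HH β s - 1‖ ≤ 0.07 := by
  have hN : β * 11.494 ≤ 1 := bNR hβ h.1 hk2 hR0 (by norm_num)
  have hy1 : 0.189 ≤ sy κ t := syR_ge h 0.75 0.87 0.4712 0.189 1.20804 1.20805 0.26243 0.30443 hk1 hk2 (by linarith) (by norm_num) (by norm_num)
    (expn_ge (by norm_num) (by norm_num)) (expn_le (by norm_num) (by norm_num) (by norm_num)) (by norm_num)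
    (by norm_num) (by norm_num) (by norm_num) (by norm_num) (by norm_num) (by norm_num)
  have hy2 : sy κ t ≤ 0.247 := syR_le h 0.75 0.87 0.6075 0.247 1.28017 0.3537 0.36345 0.42161 hk1 hk2 (by linarith) (by norm_num) (by norm_num)
    (expn_ge (by norm_num) (by norm_num)) (by norm_num) (by norm_num) (Or.inr ((mul_le_mul_of_nonneg_left (expn_le (E := 1.28018) (by norm_num) (by norm_num) (by norm_num)) (by norm_num)).trans (by norm_num))) (by norm_num) (by norm_num) (by norm_num)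
  have hx1 : 0.5312 ≤ sx κ t := sx_lo h 0.75 0.247 0.247 0.78114 0.5312 hk1 (by norm_num) hy2 (abs_le.2 ⟨by linarith, by linarith⟩) (expm_ge (by norm_num) (by norm_num) (by norm_num) (by norm_num)) (by norm_num) (by norm_num)
  have hx2 : sx κ t ≤ 0.695 := sx_hi h 0.87 0.189 0.189 0.82779 0.695 hk2 hy1 (by norm_num) (by rw [abs_of_nonneg (by linarith)]; linarith) (expm_le (by norm_num) (by norm_num) (by norm_num)) (by norm_num) (by norm_num)
  intro s hs
  have hs' : ‖s - ((sx κ t : ℂ) + (sy κ t : ℂ) * I)‖ ≤ 0.15 := hs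
  obtain ⟨es, ⟨s1, s2⟩, ⟨s3, s4⟩⟩ := disc_split hs'
  have X1 : 0.3812 ≤ s.re := by linarith
  have X2 : s.re ≤ 0.845 := by linarith
  have Y1 : 0.039 ≤ s.im := by linarith
  have Y2 : s.im ≤ 0.397 := by linarith
  rw [es]
  rcases le_total s.re 0.5912 with u0 | v0
  · exact JD6c_p2_c0_b0_0 hβ hN (by linarith) (by linarith) (by linarith) (by linarith)
  exact JD6c_p2_c0_b0_1 hβ hN (by linarith) (by linarith) (by linarith) (by linarith)

private theorem JD6c_p2_c1_b0_0 {β x y : ℝ} (hβ : 0 < β) (hN : β * 11.111 ≤ 1) (hx1 : 0.4797 ≤ x) (hx2 : x ≤ 0.6997)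
    (hy1 : -0 ≤ y) (hy2 : y ≤ 0.4) : ‖HH β (x + y * I) - 1‖ ≤ 0.07 := by
  refine le_epsJ (C := 0.7716) (N0 := 11.111) (J_boxp 0.4797 0.6997 0 0.4 0.4 1.0478 0.806 1.5652 1.1665 0.4992 3.3334 11.111 0.7693 2.821 1.414 1.151 0.5238 0.3895 1.1724 3.6708 0.5472 1.1233 0.8144 1.5957 0.002976 0.01321 0.000002203 0.0000003101 0.002291 0.000003803 0.0001177 0.0000003101 0.7716
    hβ hN hx1 hx2 hy1 hy2 (by norm_num) (by norm_num) (by linarith) (by norm_num) (by norm_num) (by norm_num) (by norm_num) (by norm_num) (by norm_num) (by norm_num) (by norm_num) (by norm_num) (by norm_num) (by norm_num) (by norm_num) (by norm_num) (by norm_num) (by norm_num) (by norm_num) (by norm_num) (by norm_num) (by norm_num) (by norm_num) (by norm_num)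
    (cube_sqrt_geJ (s := 0.8623) (by norm_num) (by norm_num) (by norm_num) (by norm_num))
    (cube_sqrt_geJ (s := 0.9517) (by norm_num) (by norm_num) (by norm_num) (by norm_num))
    (by norm_num) (by norm_num) (by norm_num) (by norm_num) (by norm_num) (by norm_num) (by norm_num) (by norm_num) (by norm_num) (by norm_num) (by norm_num) (by norm_num) (by norm_num) (by norm_num) (by norm_num) (by norm_num) (by norm_num) (by norm_num)
    (exp_neg_leJ (r := 0.819) 5 (by norm_num) (by norm_num) (by norm_num) (by norm_num))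
    (exp_neg_leJ (r := 0.327) 4 (by norm_num) (by norm_num) (by norm_num) (by norm_num))
    (exp_neg_leJ (r := 0.026) 13 (by norm_num) (by norm_num) (by norm_num) (by norm_num))
    (exp_neg_leJ (r := 0.99) 14 (by norm_num) (by norm_num) (by norm_num) (by norm_num))
    (exp_neg_leJ (r := 0.079) 6 (by norm_num) (by norm_num) (by norm_num) (by norm_num))
    (exp_neg_leJ (r := 0.48) 12 (by norm_num) (by norm_num) (by norm_num) (by norm_num))
    (exp_neg_leJ (r := 0.048) 9 (by norm_num) (by norm_num) (by norm_num) (by norm_num))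
    (exp_neg_leJ (r := 0.99) 14 (by norm_num) (by norm_num) (by norm_num) (by norm_num))
    (by norm_num)) (by norm_num) hN hβ.le (by norm_num)

private theorem JD6c_p2_c1_b0_1 {β x y : ℝ} (hβ : 0 < β) (hN : β * 11.111 ≤ 1) (hx1 : 0.6997 ≤ x) (hx2 : x ≤ 0.8603)
    (hy1 : -0 ≤ y) (hy2 : y ≤ 0.4) : ‖HH β (x + y * I) - 1‖ ≤ 0.07 := by
  refine le_epsJ (C := 0.6062) (N0 := 11.111) (J_boxp 0.6997 0.8603 0 0.4 0.4 1.2027 0.9488 1.6433 0.972 0.5115 3.3334 11.111 0.7889 2.91 1.428 1.0892 0.6013 0.4432 1.2477 3.5827 0.654 1.428 1.2544 1.6475 0.001256 0.00729 0.0000009556 0.0000003101 0.000699 0.0000003101 0.0000008881 0.0000003101 0.6062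
    hβ hN hx1 hx2 hy1 hy2 (by norm_num) (by norm_num) (by linarith) (by norm_num) (by norm_num) (by norm_num) (by norm_num) (by norm_num) (by norm_num) (by norm_num) (by norm_num) (by norm_num) (by norm_num) (by norm_num) (by norm_num) (by norm_num) (by norm_num) (by norm_num) (by norm_num) (by norm_num) (by norm_num) (by norm_num) (by norm_num) (by norm_num)
    (cube_sqrt_geJ (s := 0.8585) (by norm_num) (by norm_num) (by norm_num) (by norm_num))
    (cube_sqrt_geJ (s := 0.9504) (by norm_num) (by norm_num) (by norm_num) (by norm_num))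
    (by norm_num) (by norm_num) (by norm_num) (by norm_num) (by norm_num) (by norm_num) (by norm_num) (by norm_num) (by norm_num) (by norm_num) (by norm_num) (by norm_num) (by norm_num) (by norm_num) (by norm_num) (by norm_num) (by norm_num) (by norm_num)
    (exp_neg_leJ (r := 0.681) 6 (by norm_num) (by norm_num) (by norm_num) (by norm_num))
    (exp_neg_leJ (r := 0.924) 4 (by norm_num) (by norm_num) (by norm_num) (by norm_num))
    (exp_neg_leJ (r := 0.863) 13 (by norm_num) (by norm_num) (by norm_num) (by norm_num))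
    (exp_neg_leJ (r := 0.99) 14 (by norm_num) (by norm_num) (by norm_num) (by norm_num))
    (exp_neg_leJ (r := 0.266) 7 (by norm_num) (by norm_num) (by norm_num) (by norm_num))
    (exp_neg_leJ (r := 0.99) 14 (by norm_num) (by norm_num) (by norm_num) (by norm_num))
    (exp_neg_leJ (r := 0.937) 13 (by norm_num) (by norm_num) (by norm_num) (by norm_num))
    (exp_neg_leJ (r := 0.99) 14 (by norm_num) (by norm_num) (by norm_num) (by norm_num))
    (by norm_num)) (by norm_num) hN hβ.le (by norm_num)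

private theorem JD6c_p2_c1 {κ t β : ℝ} (h : DomR κ t) (hβ : 0 < β) (hk1 : 0.87 ≤ κ) (hk2 : κ ≤ 0.9)
    (ht1 : 0.4712 ≤ t + κ) (ht2 : t + κ ≤ 0.6075) (hR0 : β * 10 ≤ κ) (hR : β * (4.95 * (1 + κ ^ 2)) ≤ κ) :
    ∀ s : ℂ, ‖s - sg κ t‖ ≤ 0.15 → ‖HH β s - 1‖ ≤ 0.07 := by
  have hN : β * 11.111 ≤ 1 := bNR hβ h.1 hk2 hR0 (by norm_num)
  have hy1 : 0.199 ≤ sy κ t := syR_ge h 0.87 0.9 0.4712 0.199 1.22018 1.22019 0.26979 0.27911 hk1 hk2 (by linarith) (by norm_num) (by norm_num)
    (expn_ge (by norm_num) (by norm_num)) (expn_le (by norm_num) (by norm_num) (by norm_num)) (by norm_num)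
    (by norm_num) (by norm_num) (by norm_num) (by norm_num) (by norm_num) (by norm_num)
  have hy2 : sy κ t ≤ 0.25 := syR_le h 0.87 0.9 0.6075 0.25 1.28402 0.3535 0.35667 0.36898 hk1 hk2 (by linarith) (by norm_num) (by norm_num)
    (expn_ge (by norm_num) (by norm_num)) (by norm_num) (by norm_num) (Or.inr ((mul_le_mul_of_nonneg_left (expn_le (E := 1.28403) (by norm_num) (by norm_num) (by norm_num)) (by norm_num)).trans (by norm_num))) (by norm_num) (by norm_num) (by norm_num)
  have hx1 : 0.6297 ≤ sx κ t := sx_lo h 0.87 0.25 0.25 0.7788 0.6297 hk1 (by norm_num) hy2 (abs_le.2 ⟨by linarith, by linarith⟩) (expm_ge (by norm_num) (by norm_num) (by norm_num) (by norm_num)) (by norm_num) (by norm_num)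
  have hx2 : sx κ t ≤ 0.7103 := sx_hi h 0.9 0.199 0.199 0.81955 0.7103 hk2 hy1 (by norm_num) (by rw [abs_of_nonneg (by linarith)]; linarith) (expm_le (by norm_num) (by norm_num) (by norm_num)) (by norm_num) (by norm_num)
  intro s hs
  have hs' : ‖s - ((sx κ t : ℂ) + (sy κ t : ℂ) * I)‖ ≤ 0.15 := hs
  obtain ⟨es, ⟨s1, s2⟩, ⟨s3, s4⟩⟩ := disc_split hs'
  have X1 : 0.4797 ≤ s.re := by linarith
  have X2 : s.re ≤ 0.8603 := by linarith
  have Y1 : 0.049 ≤ s.im := by linarith
  have Y2 : s.im ≤ 0.4 := by linarith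
  rw [es]
  rcases le_total s.re 0.6997 with u0 | v0
  · exact JD6c_p2_c1_b0_0 hβ hN (by linarith) (by linarith) (by linarith) (by linarith)
  exact JD6c_p2_c1_b0_1 hβ hN (by linarith) (by linarith) (by linarith) (by linarith)

theorem JD6c_2 {κ t β : ℝ} (h : DomR κ t) (hβ : 0 < β) (hk1 : 0.75 ≤ κ) (hk2 : κ ≤ 0.9)
    (ht1 : 0.4712 ≤ t + κ) (ht2 : t + κ ≤ 0.6075) (hR0 : β * 10 ≤ κ) (hR : β * (4.95 * (1 + κ ^ 2)) ≤ κ) :
    ∀ s : ℂ, ‖s - sg κ t‖ ≤ 0.15 → ‖HH β s - 1‖ ≤ 0.07 := by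
  rcases le_total κ 0.87 with f0 | g0
  · exact JD6c_p2_c0 h hβ hk1 f0 ht1 ht2 hR0 hR
  exact JD6c_p2_c1 h hβ g0 hk2 ht1 ht2 hR0 hR

private theorem JD6c_p3_c0_b0_0 {β x y : ℝ} (hβ : 0 < β) (hN : β * 9.999 ≤ 1) (hx1 : 0.4968 ≤ x) (hx2 : x ≤ 0.7368)
    (hy1 : -0 ≤ y) (hy2 : y ≤ 0.407) : ‖HH β (x + y * I) - 1‖ ≤ 0.09 := by
  refine le_epsJ (C := 0.8857) (N0 := 9.999) (J_boxp 0.4968 0.7368 0 0.407 0.407 1.0598 0.8418 1.5883 1.1552 0.5028 3.1622 9.999 0.7944 2.935 1.431 1.1367 0.5298 0.3895 1.1783 3.6497 0.5548 1.1463 0.8186 1.4996 0.005007 0.02042 0.000007659 0.0000003101 0.003901 0.00001054 0.0002789 0.0000003101 0.8857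
    hβ hN hx1 hx2 hy1 hy2 (by norm_num) (by norm_num) (by linarith) (by norm_num) (by norm_num) (by norm_num) (by norm_num) (by norm_num) (by norm_num) (by norm_num) (by norm_num) (by norm_num) (by norm_num) (by norm_num) (by norm_num) (by norm_num) (by norm_num) (by norm_num) (by norm_num) (by norm_num) (by norm_num) (by norm_num) (by norm_num) (by norm_num)
    (cube_sqrt_geJ (s := 0.8574) (by norm_num) (by norm_num) (by norm_num) (by norm_num))
    (cube_sqrt_geJ (s := 0.9501) (by norm_num) (by norm_num) (by norm_num) (by norm_num))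
    (by norm_num) (by norm_num) (by norm_num) (by norm_num) (by norm_num) (by norm_num) (by norm_num) (by norm_num) (by norm_num) (by norm_num) (by norm_num) (by norm_num) (by norm_num) (by norm_num) (by norm_num) (by norm_num) (by norm_num) (by norm_num)
    (exp_neg_leJ (r := 0.297) 5 (by norm_num) (by norm_num) (by norm_num) (by norm_num))
    (exp_neg_leJ (r := 0.894) 3 (by norm_num) (by norm_num) (by norm_num) (by norm_num))
    (exp_neg_leJ (r := 0.781) 11 (by norm_num) (by norm_num) (by norm_num) (by norm_num))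
    (exp_neg_leJ (r := 0.99) 14 (by norm_num) (by norm_num) (by norm_num) (by norm_num))
    (exp_neg_leJ (r := 0.547) 5 (by norm_num) (by norm_num) (by norm_num) (by norm_num))
    (exp_neg_leJ (r := 0.461) 11 (by norm_num) (by norm_num) (by norm_num) (by norm_num))
    (exp_neg_leJ (r := 0.185) 8 (by norm_num) (by norm_num) (by norm_num) (by norm_num))
    (exp_neg_leJ (r := 0.99) 14 (by norm_num) (by norm_num) (by norm_num) (by norm_num))
    (by norm_num)) (by norm_num) hN hβ.le (by norm_num)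

private theorem JD6c_p3_c0_b0_1 {β x y : ℝ} (hβ : 0 < β) (hN : β * 9.999 ≤ 1) (hx1 : 0.7368 ≤ x) (hx2 : x ≤ 0.9429)
    (hy1 : -0 ≤ y) (hy2 : y ≤ 0.407) : ‖HH β (x + y * I) - 1‖ ≤ 0.09 := by
  refine le_epsJ (C := 0.7181) (N0 := 9.999) (J_boxp 0.7368 0.9429 0 0.407 0.407 1.2288 1.027 1.6938 0.9555 0.5193 3.1622 9.999 0.8358 3.137 1.46 1.0574 0.6143 0.4432 1.2604 3.5362 0.6713 1.4786 1.2986 1.4761 0.002151 0.01191 0.000003367 0.0000003101 0.001218 0.0000003802 0.000002305 0.0000003898 0.7181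
    hβ hN hx1 hx2 hy1 hy2 (by norm_num) (by norm_num) (by linarith) (by norm_num) (by norm_num) (by norm_num) (by norm_num) (by norm_num) (by norm_num) (by norm_num) (by norm_num) (by norm_num) (by norm_num) (by norm_num) (by norm_num) (by norm_num) (by norm_num) (by norm_num) (by norm_num) (by norm_num) (by norm_num) (by norm_num) (by norm_num) (by norm_num)
    (cube_sqrt_geJ (s := 0.8493) (by norm_num) (by norm_num) (by norm_num) (by norm_num))
    (cube_sqrt_geJ (s := 0.9474) (by norm_num) (by norm_num) (by norm_num) (by norm_num))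
    (by norm_num) (by norm_num) (by norm_num) (by norm_num) (by norm_num) (by norm_num) (by norm_num) (by norm_num) (by norm_num) (by norm_num) (by norm_num) (by norm_num) (by norm_num) (by norm_num) (by norm_num) (by norm_num) (by norm_num) (by norm_num)
    (exp_neg_leJ (r := 0.142) 6 (by norm_num) (by norm_num) (by norm_num) (by norm_num))
    (exp_neg_leJ (r := 0.431) 4 (by norm_num) (by norm_num) (by norm_num) (by norm_num))
    (exp_neg_leJ (r := 0.602) 12 (by norm_num) (by norm_num) (by norm_num) (by norm_num))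
    (exp_neg_leJ (r := 0.99) 14 (by norm_num) (by norm_num) (by norm_num) (by norm_num))
    (exp_neg_leJ (r := 0.712) 6 (by norm_num) (by norm_num) (by norm_num) (by norm_num))
    (exp_neg_leJ (r := 0.784) 14 (by norm_num) (by norm_num) (by norm_num) (by norm_num))
    (exp_neg_leJ (r := 0.984) 12 (by norm_num) (by norm_num) (by norm_num) (by norm_num))
    (exp_neg_leJ (r := 0.759) 14 (by norm_num) (by norm_num) (by norm_num) (by norm_num))
    (by norm_num)) (by norm_num) hN hβ.le (by norm_num)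

private theorem JD6c_p3_c0 {κ t β : ℝ} (h : DomR κ t) (hβ : 0 < β) (hk1 : 0.9 ≤ κ) (hk2 : κ ≤ 1)
    (ht1 : 0.4712 ≤ t + κ) (ht2 : t + κ ≤ 0.6075) (hR0 : β * 10 ≤ κ) (hR : β * (4.95 * (1 + κ ^ 2)) ≤ κ) :
    ∀ s : ℂ, ‖s - sg κ t‖ ≤ 0.15 → ‖HH β s - 1‖ ≤ 0.09 := by
  have hN : β * 9.999 ≤ 1 := bNR hβ h.1 hk2 hR0 (by norm_num)
  have hy1 : 0.201 ≤ sy κ t := syR_ge h 0.9 1 0.4712 0.201 1.22262 1.22263 0.24574 0.27306 hk1 hk2 (by linarith) (by norm_num) (by norm_num)
    (expn_ge (by norm_num) (by norm_num)) (expn_le (by norm_num) (by norm_num) (by norm_num)) (by norm_num)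
    (by norm_num) (by norm_num) (by norm_num) (by norm_num) (by norm_num) (by norm_num)
  have hy2 : sy κ t ≤ 0.257 := syR_le h 0.9 1 0.6075 0.257 1.29304 0.323 0.33231 0.36924 hk1 hk2 (by linarith) (by norm_num) (by norm_num)
    (expn_ge (by norm_num) (by norm_num)) (by norm_num) (by norm_num) (Or.inr ((mul_le_mul_of_nonneg_left (expn_le (E := 1.29305) (by norm_num) (by norm_num) (by norm_num)) (by norm_num)).trans (by norm_num))) (by norm_num) (by norm_num) (by norm_num)
  have hx1 : 0.6468 ≤ sx κ t := sx_lo h 0.9 0.257 0.257 0.77336 0.6468 hk1 (by norm_num) hy2 (abs_le.2 ⟨by linarith, by linarith⟩) (expm_ge (by norm_num) (by norm_num) (by norm_num) (by norm_num)) (by norm_num) (by norm_num)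
  have hx2 : sx κ t ≤ 0.7929 := sx_hi h 1 0.201 0.201 0.81792 0.7929 hk2 hy1 (by norm_num) (by rw [abs_of_nonneg (by linarith)]; linarith) (expm_le (by norm_num) (by norm_num) (by norm_num)) (by norm_num) (by norm_num)
  intro s hs
  have hs' : ‖s - ((sx κ t : ℂ) + (sy κ t : ℂ) * I)‖ ≤ 0.15 := hs
  obtain ⟨es, ⟨s1, s2⟩, ⟨s3, s4⟩⟩ := disc_split hs'
  have X1 : 0.4968 ≤ s.re := by linarith
  have X2 : s.re ≤ 0.9429 := by linarith
  have Y1 : 0.051 ≤ s.im := by linarith
  have Y2 : s.im ≤ 0.407 := by linarith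
  rw [es]
  rcases le_total s.re 0.7368 with u0 | v0
  · exact JD6c_p3_c0_b0_0 hβ hN (by linarith) (by linarith) (by linarith) (by linarith)
  exact JD6c_p3_c0_b0_1 hβ hN (by linarith) (by linarith) (by linarith) (by linarith)

theorem JD6c_3 {κ t β : ℝ} (h : DomR κ t) (hβ : 0 < β) (hk1 : 0.9 ≤ κ) (hk2 : κ ≤ 1)
    (ht1 : 0.4712 ≤ t + κ) (ht2 : t + κ ≤ 0.6075) (hR0 : β * 10 ≤ κ) (hR : β * (4.95 * (1 + κ ^ 2)) ≤ κ) :
    ∀ s : ℂ, ‖s - sg κ t‖ ≤ 0.15 → ‖HH β s - 1‖ ≤ 0.09 := by
  exact JD6c_p3_c0 h hβ hk1 hk2 ht1 ht2 hR0 hR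

private theorem JD6c_p4_c0_b0_0 {β x y : ℝ} (hβ : 0 < β) (hN : β * 9.899 ≤ 1) (hx1 : 0.5735 ≤ x) (hx2 : x ≤ 0.8235)
    (hy1 : -0 ≤ y) (hy2 : y ≤ 0.412) : ‖HH β (x + y * I) - 1‖ ≤ 0.09 := by
  refine le_epsJ (C := 0.8725) (N0 := 9.899) (J_boxp 0.5735 0.8235 0 0.412 0.412 1.1138 0.9209 1.6346 1.0877 0.5101 3.1463 9.899 0.8269 3.092 1.454 1.1033 0.5568 0.4033 1.2045 3.6016 0.5915 1.252 0.9506 1.4144 0.004043 0.01857 0.000006654 0.0000003101 0.002871 0.000004148 0.00008199 0.0000008308 0.8725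
    hβ hN hx1 hx2 hy1 hy2 (by norm_num) (by norm_num) (by linarith) (by norm_num) (by norm_num) (by norm_num) (by norm_num) (by norm_num) (by norm_num) (by norm_num) (by norm_num) (by norm_num) (by norm_num) (by norm_num) (by norm_num) (by norm_num) (by norm_num) (by norm_num) (by norm_num) (by norm_num) (by norm_num) (by norm_num) (by norm_num) (by norm_num)
    (cube_sqrt_geJ (s := 0.851) (by norm_num) (by norm_num) (by norm_num) (by norm_num))
    (cube_sqrt_geJ (s := 0.948) (by norm_num) (by norm_num) (by norm_num) (by norm_num))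
    (by norm_num) (by norm_num) (by norm_num) (by norm_num) (by norm_num) (by norm_num) (by norm_num) (by norm_num) (by norm_num) (by norm_num) (by norm_num) (by norm_num) (by norm_num) (by norm_num) (by norm_num) (by norm_num) (by norm_num) (by norm_num)
    (exp_neg_leJ (r := 0.511) 5 (by norm_num) (by norm_num) (by norm_num) (by norm_num))
    (exp_neg_leJ (r := 0.99) 3 (by norm_num) (by norm_num) (by norm_num) (by norm_num))
    (exp_neg_leJ (r := 0.923) 11 (by norm_num) (by norm_num) (by norm_num) (by norm_num))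
    (exp_neg_leJ (r := 0.99) 14 (by norm_num) (by norm_num) (by norm_num) (by norm_num))
    (exp_neg_leJ (r := 0.855) 5 (by norm_num) (by norm_num) (by norm_num) (by norm_num))
    (exp_neg_leJ (r := 0.393) 12 (by norm_num) (by norm_num) (by norm_num) (by norm_num))
    (exp_neg_leJ (r := 0.409) 9 (by norm_num) (by norm_num) (by norm_num) (by norm_num))
    (exp_neg_leJ (r := 0.001) 14 (by norm_num) (by norm_num) (by norm_num) (by norm_num))
    (by norm_num)) (by norm_num) hN hβ.le (by norm_num)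

private theorem JD6c_p4_c0_b0_1 {β x y : ℝ} (hβ : 0 < β) (hN : β * 9.899 ≤ 1) (hx1 : 0.8235 ≤ x) (hx2 : x ≤ 1.0213)
    (hy1 : -0 ≤ y) (hy2 : y ≤ 0.412) : ‖HH β (x + y * I) - 1‖ ≤ 0.09 := by
  refine le_epsJ (C := 0.692) (N0 := 9.899) (J_boxp 0.8235 1.0213 0 0.412 0.412 1.2899 1.1013 1.7427 0.9012 0.5267 3.1463 9.899 0.8538 3.23 1.472 1.0273 0.6449 0.4613 1.2901 3.4919 0.7129 1.5982 1.4506 1.424 0.001691 0.01041 0.000002849 0.0000003101 0.0008623 0.0000003101 0.0000005808 0.0000007555 0.692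
    hβ hN hx1 hx2 hy1 hy2 (by norm_num) (by norm_num) (by linarith) (by norm_num) (by norm_num) (by norm_num) (by norm_num) (by norm_num) (by norm_num) (by norm_num) (by norm_num) (by norm_num) (by norm_num) (by norm_num) (by norm_num) (by norm_num) (by norm_num) (by norm_num) (by norm_num) (by norm_num) (by norm_num) (by norm_num) (by norm_num) (by norm_num)
    (cube_sqrt_geJ (s := 0.8458) (by norm_num) (by norm_num) (by norm_num) (by norm_num))
    (cube_sqrt_geJ (s := 0.9462) (by norm_num) (by norm_num) (by norm_num) (by norm_num))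
    (by norm_num) (by norm_num) (by norm_num) (by norm_num) (by norm_num) (by norm_num) (by norm_num) (by norm_num) (by norm_num) (by norm_num) (by norm_num) (by norm_num) (by norm_num) (by norm_num) (by norm_num) (by norm_num) (by norm_num) (by norm_num)
    (exp_neg_leJ (r := 0.383) 6 (by norm_num) (by norm_num) (by norm_num) (by norm_num))
    (exp_neg_leJ (r := 0.566) 4 (by norm_num) (by norm_num) (by norm_num) (by norm_num))
    (exp_neg_leJ (r := 0.77) 12 (by norm_num) (by norm_num) (by norm_num) (by norm_num))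
    (exp_neg_leJ (r := 0.99) 14 (by norm_num) (by norm_num) (by norm_num) (by norm_num))
    (exp_neg_leJ (r := 0.056) 7 (by norm_num) (by norm_num) (by norm_num) (by norm_num))
    (exp_neg_leJ (r := 0.99) 14 (by norm_num) (by norm_num) (by norm_num) (by norm_num))
    (exp_neg_leJ (r := 0.359) 14 (by norm_num) (by norm_num) (by norm_num) (by norm_num))
    (exp_neg_leJ (r := 0.096) 14 (by norm_num) (by norm_num) (by norm_num) (by norm_num))
    (by norm_num)) (by norm_num) hN hβ.le (by norm_num)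

private theorem JD6c_p4_c0 {κ t β : ℝ} (h : DomR κ t) (hβ : 0 < β) (hk1 : 1 ≤ κ) (hk2 : κ ≤ 1.1)
    (ht1 : 0.4712 ≤ t + κ) (ht2 : t + κ ≤ 0.6075) (hR0 : β * 10 ≤ κ) (hR : β * (4.95 * (1 + κ ^ 2)) ≤ κ) :
    ∀ s : ℂ, ‖s - sg κ t‖ ≤ 0.15 → ‖HH β s - 1‖ ≤ 0.09 := by
  have hN : β * 9.899 ≤ 1 := bNC' hβ hk1 (by norm_num) (by norm_num) hR (by norm_num)
  have hy1 : 0.206 ≤ sy κ t := syR_ge h 1 1.1 0.4712 0.206 1.22875 1.22876 0.23011 0.25313 hk1 hk2 (by linarith) (by norm_num) (by norm_num)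
    (expn_ge (by norm_num) (by norm_num)) (expn_le (by norm_num) (by norm_num) (by norm_num)) (by norm_num)
    (by norm_num) (by norm_num) (by norm_num) (by norm_num) (by norm_num) (by norm_num)
  have hy2 : sy κ t ≤ 0.262 := syR_le h 1 1.1 0.6075 0.262 1.29952 0.3017 0.30952 0.34048 hk1 hk2 (by linarith) (by norm_num) (by norm_num)
    (expn_ge (by norm_num) (by norm_num)) (by norm_num) (by norm_num) (Or.inr ((mul_le_mul_of_nonneg_left (expn_le (E := 1.29953) (by norm_num) (by norm_num) (by norm_num)) (by norm_num)).trans (by norm_num))) (by norm_num) (by norm_num) (by norm_num)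
  have hx1 : 0.7235 ≤ sx κ t := sx_lo h 1 0.262 0.262 0.76951 0.7235 hk1 (by norm_num) hy2 (abs_le.2 ⟨by linarith, by linarith⟩) (expm_ge (by norm_num) (by norm_num) (by norm_num) (by norm_num)) (by norm_num) (by norm_num)
  have hx2 : sx κ t ≤ 0.8713 := sx_hi h 1.1 0.206 0.206 0.81384 0.8713 hk2 hy1 (by norm_num) (by rw [abs_of_nonneg (by linarith)]; linarith) (expm_le (by norm_num) (by norm_num) (by norm_num)) (by norm_num) (by norm_num)
  intro s hs
  have hs' : ‖s - ((sx κ t : ℂ) + (sy κ t : ℂ) * I)‖ ≤ 0.15 := hs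
  obtain ⟨es, ⟨s1, s2⟩, ⟨s3, s4⟩⟩ := disc_split hs'
  have X1 : 0.5735 ≤ s.re := by linarith
  have X2 : s.re ≤ 1.0213 := by linarith
  have Y1 : 0.056 ≤ s.im := by linarith
  have Y2 : s.im ≤ 0.412 := by linarith
  rw [es]
  rcases le_total s.re 0.8235 with u0 | v0
  · exact JD6c_p4_c0_b0_0 hβ hN (by linarith) (by linarith) (by linarith) (by linarith)
  exact JD6c_p4_c0_b0_1 hβ hN (by linarith) (by linarith) (by linarith) (by linarith)

theorem JD6c_4 {κ t β : ℝ} (h : DomR κ t) (hβ : 0 < β) (hk1 : 1 ≤ κ) (hk2 : κ ≤ 1.1)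
    (ht1 : 0.4712 ≤ t + κ) (ht2 : t + κ ≤ 0.6075) (hR0 : β * 10 ≤ κ) (hR : β * (4.95 * (1 + κ ^ 2)) ≤ κ) :
    ∀ s : ℂ, ‖s - sg κ t‖ ≤ 0.15 → ‖HH β s - 1‖ ≤ 0.09 := by
  exact JD6c_p4_c0 h hβ hk1 hk2 ht1 ht2 hR0 hR

private theorem JD6c_p5_c0_b0_0 {β x y : ℝ} (hβ : 0 < β) (hN : β * 9.944 ≤ 1) (hx1 : 0.6512 ≤ x) (hx2 : x ≤ 0.9312)
    (hy1 : -0 ≤ y) (hy2 : y ≤ 0.415) : ‖HH β (x + y * I) - 1‖ ≤ 0.09 := by
  refine le_epsJ (C := 0.89) (N0 := 9.944) (J_boxp 0.6512 0.9312 0 0.415 0.415 1.1685 1.0195 1.694 1.0305 0.5193 3.1535 9.944 0.8725 3.33 1.486 1.0619 0.5842 0.4143 1.2311 3.5418 0.6289 1.3593 1.0931 1.2876 0.003005 0.01627 0.000004824 0.0000003101 0.001925 0.00000135 0.00001908 0.000002757 0.89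
    hβ hN hx1 hx2 hy1 hy2 (by norm_num) (by norm_num) (by linarith) (by norm_num) (by norm_num) (by norm_num) (by norm_num) (by norm_num) (by norm_num) (by norm_num) (by norm_num) (by norm_num) (by norm_num) (by norm_num) (by norm_num) (by norm_num) (by norm_num) (by norm_num) (by norm_num) (by norm_num) (by norm_num) (by norm_num) (by norm_num) (by norm_num)
    (cube_sqrt_geJ (s := 0.8421) (by norm_num) (by norm_num) (by norm_num) (by norm_num))
    (cube_sqrt_geJ (s := 0.945) (by norm_num) (by norm_num) (by norm_num) (by norm_num))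
    (by norm_num) (by norm_num) (by norm_num) (by norm_num) (by norm_num) (by norm_num) (by norm_num) (by norm_num) (by norm_num) (by norm_num) (by norm_num) (by norm_num) (by norm_num) (by norm_num) (by norm_num) (by norm_num) (by norm_num) (by norm_num)
    (exp_neg_leJ (r := 0.809) 5 (by norm_num) (by norm_num) (by norm_num) (by norm_num))
    (exp_neg_leJ (r := 0.119) 4 (by norm_num) (by norm_num) (by norm_num) (by norm_num))
    (exp_neg_leJ (r := 0.242) 12 (by norm_num) (by norm_num) (by norm_num) (by norm_num))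
    (exp_neg_leJ (r := 0.99) 14 (by norm_num) (by norm_num) (by norm_num) (by norm_num))
    (exp_neg_leJ (r := 0.253) 6 (by norm_num) (by norm_num) (by norm_num) (by norm_num))
    (exp_neg_leJ (r := 0.516) 13 (by norm_num) (by norm_num) (by norm_num) (by norm_num))
    (exp_neg_leJ (r := 0.869) 10 (by norm_num) (by norm_num) (by norm_num) (by norm_num))
    (exp_neg_leJ (r := 0.803) 12 (by norm_num) (by norm_num) (by norm_num) (by norm_num))
    (by norm_num)) (by norm_num) hN hβ.le (by norm_num)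

private theorem JD6c_p5_c0_b0_1 {β x y : ℝ} (hβ : 0 < β) (hN : β * 9.944 ≤ 1) (hx1 : 0.9312 ≤ x) (hx2 : x ≤ 1.1425)
    (hy1 : -0 ≤ y) (hy2 : y ≤ 0.415) : ‖HH β (x + y * I) - 1‖ ≤ 0.09 := by
  refine le_epsJ (C := 0.6902) (N0 := 9.944) (J_boxp 0.9312 1.1425 0 0.415 0.415 1.3657 1.2156 1.8187 0.845 0.5381 3.1535 9.944 0.8901 3.428 1.498 0.9806 0.6828 0.4802 1.327 3.4237 0.7649 1.747 1.6531 1.3146 0.001128 0.008449 0.00000186 0.0000003101 0.0004977 0.0000003101 0.0000003101 0.000002104 0.6902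
    hβ hN hx1 hx2 hy1 hy2 (by norm_num) (by norm_num) (by linarith) (by norm_num) (by norm_num) (by norm_num) (by norm_num) (by norm_num) (by norm_num) (by norm_num) (by norm_num) (by norm_num) (by norm_num) (by norm_num) (by norm_num) (by norm_num) (by norm_num) (by norm_num) (by norm_num) (by norm_num) (by norm_num) (by norm_num) (by norm_num) (by norm_num)
    (cube_sqrt_geJ (s := 0.8386) (by norm_num) (by norm_num) (by norm_num) (by norm_num))
    (cube_sqrt_geJ (s := 0.9439) (by norm_num) (by norm_num) (by norm_num) (by norm_num))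
    (by norm_num) (by norm_num) (by norm_num) (by norm_num) (by norm_num) (by norm_num) (by norm_num) (by norm_num) (by norm_num) (by norm_num) (by norm_num) (by norm_num) (by norm_num) (by norm_num) (by norm_num) (by norm_num) (by norm_num) (by norm_num)
    (exp_neg_leJ (r := 0.789) 6 (by norm_num) (by norm_num) (by norm_num) (by norm_num))
    (exp_neg_leJ (r := 0.775) 4 (by norm_num) (by norm_num) (by norm_num) (by norm_num))
    (exp_neg_leJ (r := 0.195) 13 (by norm_num) (by norm_num) (by norm_num) (by norm_num))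
    (exp_neg_leJ (r := 0.99) 14 (by norm_num) (by norm_num) (by norm_num) (by norm_num))
    (exp_neg_leJ (r := 0.606) 7 (by norm_num) (by norm_num) (by norm_num) (by norm_num))
    (exp_neg_leJ (r := 0.99) 14 (by norm_num) (by norm_num) (by norm_num) (by norm_num))
    (exp_neg_leJ (r := 0.99) 14 (by norm_num) (by norm_num) (by norm_num) (by norm_num))
    (exp_neg_leJ (r := 0.072) 13 (by norm_num) (by norm_num) (by norm_num) (by norm_num))
    (by norm_num)) (by norm_num) hN hβ.le (by norm_num)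

private theorem JD6c_p5_c0 {κ t β : ℝ} (h : DomR κ t) (hβ : 0 < β) (hk1 : 1.1 ≤ κ) (hk2 : κ ≤ 1.25)
    (ht1 : 0.4712 ≤ t + κ) (ht2 : t + κ ≤ 0.6075) (hR0 : β * 10 ≤ κ) (hR : β * (4.95 * (1 + κ ^ 2)) ≤ κ) :
    ∀ s : ℂ, ‖s - sg κ t‖ ≤ 0.15 → ‖HH β s - 1‖ ≤ 0.09 := by
  have hN : β * 9.944 ≤ 1 := bNC' hβ hk1 (by norm_num) (by norm_num) hR (by norm_num)
  have hy1 : 0.209 ≤ sy κ t := syR_ge h 1.1 1.25 0.4712 0.209 1.23244 1.23245 0.20606 0.23417 hk1 hk2 (by linarith) (by norm_num) (by norm_num)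
    (expn_ge (by norm_num) (by norm_num)) (expn_le (by norm_num) (by norm_num) (by norm_num)) (by norm_num)
    (by norm_num) (by norm_num) (by norm_num) (by norm_num) (by norm_num) (by norm_num)
  have hy2 : sy κ t ≤ 0.265 := syR_le h 1.1 1.25 0.6075 0.265 1.30343 0.2668 0.27632 0.31402 hk1 hk2 (by linarith) (by norm_num) (by norm_num)
    (expn_ge (by norm_num) (by norm_num)) (by norm_num) (by norm_num) (Or.inr ((mul_le_mul_of_nonneg_left (expn_le (E := 1.30344) (by norm_num) (by norm_num) (by norm_num)) (by norm_num)).trans (by norm_num))) (by norm_num) (by norm_num) (by norm_num)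
  have hx1 : 0.8012 ≤ sx κ t := sx_lo h 1.1 0.265 0.265 0.7672 0.8012 hk1 (by norm_num) hy2 (abs_le.2 ⟨by linarith, by linarith⟩) (expm_ge (by norm_num) (by norm_num) (by norm_num) (by norm_num)) (by norm_num) (by norm_num)
  have hx2 : sx κ t ≤ 0.9925 := sx_hi h 1.25 0.209 0.209 0.8114 0.9925 hk2 hy1 (by norm_num) (by rw [abs_of_nonneg (by linarith)]; linarith) (expm_le (by norm_num) (by norm_num) (by norm_num)) (by norm_num) (by norm_num)
  intro s hs
  have hs' : ‖s - ((sx κ t : ℂ) + (sy κ t : ℂ) * I)‖ ≤ 0.15 := hs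
  obtain ⟨es, ⟨s1, s2⟩, ⟨s3, s4⟩⟩ := disc_split hs'
  have X1 : 0.6512 ≤ s.re := by linarith
  have X2 : s.re ≤ 1.1425 := by linarith
  have Y1 : 0.059 ≤ s.im := by linarith
  have Y2 : s.im ≤ 0.415 := by linarith
  rw [es]
  rcases le_total s.re 0.9312 with u0 | v0
  · exact JD6c_p5_c0_b0_0 hβ hN (by linarith) (by linarith) (by linarith) (by linarith)
  exact JD6c_p5_c0_b0_1 hβ hN (by linarith) (by linarith) (by linarith) (by linarith)

theorem JD6c_5 {κ t β : ℝ} (h : DomR κ t) (hβ : 0 < β) (hk1 : 1.1 ≤ κ) (hk2 : κ ≤ 1.25)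
    (ht1 : 0.4712 ≤ t + κ) (ht2 : t + κ ≤ 0.6075) (hR0 : β * 10 ≤ κ) (hR : β * (4.95 * (1 + κ ^ 2)) ≤ κ) :
    ∀ s : ℂ, ‖s - sg κ t‖ ≤ 0.15 → ‖HH β s - 1‖ ≤ 0.09 := by
  exact JD6c_p5_c0 h hβ hk1 hk2 ht1 ht2 hR0 hR

private theorem JD6c_p6_c0_b0_0 {β x y : ℝ} (hβ : 0 < β) (hN : β * 10.147 ≤ 1) (hx1 : 0.7703 ≤ x) (hx2 : x ≤ 1.0903)
    (hy1 : -0 ≤ y) (hy2 : y ≤ 0.416) : ‖HH β (x + y * I) - 1‖ ≤ 0.09 := by
  refine le_epsJ (C := 0.9082) (N0 := 10.147) (J_boxp 0.7703 1.0903 0 0.416 0.416 1.2524 1.167 1.7872 0.9539 0.5334 3.1855 10.147 0.9319 3.677 1.529 1.0007 0.6261 0.4316 1.2719 3.4529 0.6867 1.5241 1.327 1.1202 0.001742 0.01254 0.000002492 0.0000003101 0.0009455 0.0000003101 0.00000142 0.00001159 0.9082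
    hβ hN hx1 hx2 hy1 hy2 (by norm_num) (by norm_num) (by linarith) (by norm_num) (by norm_num) (by norm_num) (by norm_num) (by norm_num) (by norm_num) (by norm_num) (by norm_num) (by norm_num) (by norm_num) (by norm_num) (by norm_num) (by norm_num) (by norm_num) (by norm_num) (by norm_num) (by norm_num) (by norm_num) (by norm_num) (by norm_num) (by norm_num)
    (cube_sqrt_geJ (s := 0.8302) (by norm_num) (by norm_num) (by norm_num) (by norm_num))
    (cube_sqrt_geJ (s := 0.9412) (by norm_num) (by norm_num) (by norm_num) (by norm_num))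
    (by norm_num) (by norm_num) (by norm_num) (by norm_num) (by norm_num) (by norm_num) (by norm_num) (by norm_num) (by norm_num) (by norm_num) (by norm_num) (by norm_num) (by norm_num) (by norm_num) (by norm_num) (by norm_num) (by norm_num) (by norm_num)
    (exp_neg_leJ (r := 0.353) 6 (by norm_num) (by norm_num) (by norm_num) (by norm_num))
    (exp_neg_leJ (r := 0.379) 4 (by norm_num) (by norm_num) (by norm_num) (by norm_num))
    (exp_neg_leJ (r := 0.905) 12 (by norm_num) (by norm_num) (by norm_num) (by norm_num))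
    (exp_neg_leJ (r := 0.99) 14 (by norm_num) (by norm_num) (by norm_num) (by norm_num))
    (exp_neg_leJ (r := 0.967) 6 (by norm_num) (by norm_num) (by norm_num) (by norm_num))
    (exp_neg_leJ (r := 0.99) 14 (by norm_num) (by norm_num) (by norm_num) (by norm_num))
    (exp_neg_leJ (r := 0.465) 13 (by norm_num) (by norm_num) (by norm_num) (by norm_num))
    (exp_neg_leJ (r := 0.366) 11 (by norm_num) (by norm_num) (by norm_num) (by norm_num))
    (by norm_num)) (by norm_num) hN hβ.le (by norm_num)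

private theorem JD6c_p6_c0_b0_1 {β x y : ℝ} (hβ : 0 < β) (hN : β * 10.147 ≤ 1) (hx1 : 1.0903 ≤ x) (hx2 : x ≤ 1.257)
    (hy1 : -0 ≤ y) (hy2 : y ≤ 0.416) : ‖HH β (x + y * I) - 1‖ ≤ 0.09 := by
  refine le_epsJ (C := 0.605) (N0 := 10.147) (J_boxp 1.0903 1.257 0 0.416 0.416 1.4777 1.3241 1.8935 0.7661 0.549 3.1855 10.147 0.8961 3.463 1.503 0.9366 0.7388 0.5181 1.3815 3.3592 0.8421 1.9672 1.967 1.3331 0.0005554 0.005212 0.0000008168 0.0000003101 0.0001948 0.0000003101 0.0000003101 0.000001337 0.605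
    hβ hN hx1 hx2 hy1 hy2 (by norm_num) (by norm_num) (by linarith) (by norm_num) (by norm_num) (by norm_num) (by norm_num) (by norm_num) (by norm_num) (by norm_num) (by norm_num) (by norm_num) (by norm_num) (by norm_num) (by norm_num) (by norm_num) (by norm_num) (by norm_num) (by norm_num) (by norm_num) (by norm_num) (by norm_num) (by norm_num) (by norm_num)
    (cube_sqrt_geJ (s := 0.8374) (by norm_num) (by norm_num) (by norm_num) (by norm_num))
    (cube_sqrt_geJ (s := 0.9435) (by norm_num) (by norm_num) (by norm_num) (by norm_num))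
    (by norm_num) (by norm_num) (by norm_num) (by norm_num) (by norm_num) (by norm_num) (by norm_num) (by norm_num) (by norm_num) (by norm_num) (by norm_num) (by norm_num) (by norm_num) (by norm_num) (by norm_num) (by norm_num) (by norm_num) (by norm_num)
    (exp_neg_leJ (r := 0.496) 7 (by norm_num) (by norm_num) (by norm_num) (by norm_num))
    (exp_neg_leJ (r := 0.257) 5 (by norm_num) (by norm_num) (by norm_num) (by norm_num))
    (exp_neg_leJ (r := 0.018) 14 (by norm_num) (by norm_num) (by norm_num) (by norm_num))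
    (exp_neg_leJ (r := 0.99) 14 (by norm_num) (by norm_num) (by norm_num) (by norm_num))
    (exp_neg_leJ (r := 0.544) 8 (by norm_num) (by norm_num) (by norm_num) (by norm_num))
    (exp_neg_leJ (r := 0.99) 14 (by norm_num) (by norm_num) (by norm_num) (by norm_num))
    (exp_neg_leJ (r := 0.99) 14 (by norm_num) (by norm_num) (by norm_num) (by norm_num))
    (exp_neg_leJ (r := 0.526) 13 (by norm_num) (by norm_num) (by norm_num) (by norm_num))
    (by norm_num)) (by norm_num) hN hβ.le (by norm_num)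

private theorem JD6c_p6_c0 {κ t β : ℝ} (h : DomR κ t) (hβ : 0 < β) (hk1 : 1.25 ≤ κ) (hk2 : κ ≤ 1.39)
    (ht1 : 0.4712 ≤ t + κ) (ht2 : t + κ ≤ 0.6075) (hR0 : β * 10 ≤ κ) (hR : β * (4.95 * (1 + κ ^ 2)) ≤ κ) :
    ∀ s : ℂ, ‖s - sg κ t‖ ≤ 0.15 → ‖HH β s - 1‖ ≤ 0.09 := by
  have hN : β * 10.147 ≤ 1 := bNC' hβ hk1 (by norm_num) (by norm_num) hR (by norm_num)
  have hy1 : 0.21 ≤ sy κ t := syR_ge h 1.25 1.39 0.4712 0.21 1.23367 1.23368 0.18638 0.20726 hk1 hk2 (by linarith) (by norm_num) (by norm_num)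
    (expn_ge (by norm_num) (by norm_num)) (expn_le (by norm_num) (by norm_num) (by norm_num)) (by norm_num)
    (by norm_num) (by norm_num) (by norm_num) (by norm_num) (by norm_num) (by norm_num)
  have hy2 : sy κ t ≤ 0.266 := syR_le h 1.25 1.39 0.6075 0.266 1.30473 0.252 0.24968 0.27765 hk1 hk2 (by linarith) (by norm_num) (by norm_num)
    (expn_ge (by norm_num) (by norm_num)) (by norm_num) (by norm_num) (Or.inr ((mul_le_mul_of_nonneg_left (expn_le (E := 1.30474) (by norm_num) (by norm_num) (by norm_num)) (by norm_num)).trans (by norm_num))) (by norm_num) (by norm_num) (by norm_num)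
  have hx1 : 0.9203 ≤ sx κ t := sx_lo h 1.25 0.266 0.266 0.76643 0.9203 hk1 (by norm_num) hy2 (abs_le.2 ⟨by linarith, by linarith⟩) (expm_ge (by norm_num) (by norm_num) (by norm_num) (by norm_num)) (by norm_num) (by norm_num)
  have hx2 : sx κ t ≤ 1.107 := sx_hi h 1.39 0.21 0.21 0.81059 1.107 hk2 hy1 (by norm_num) (by rw [abs_of_nonneg (by linarith)]; linarith) (expm_le (by norm_num) (by norm_num) (by norm_num)) (by norm_num) (by norm_num)
  intro s hs
  have hs' : ‖s - ((sx κ t : ℂ) + (sy κ t : ℂ) * I)‖ ≤ 0.15 := hs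
  obtain ⟨es, ⟨s1, s2⟩, ⟨s3, s4⟩⟩ := disc_split hs'
  have X1 : 0.7703 ≤ s.re := by linarith
  have X2 : s.re ≤ 1.257 := by linarith
  have Y1 : 0.06 ≤ s.im := by linarith
  have Y2 : s.im ≤ 0.416 := by linarith
  rw [es]
  rcases le_total s.re 1.0903 with u0 | v0
  · exact JD6c_p6_c0_b0_0 hβ hN (by linarith) (by linarith) (by linarith) (by linarith)
  exact JD6c_p6_c0_b0_1 hβ hN (by linarith) (by linarith) (by linarith) (by linarith)

theorem JD6c_6 {κ t β : ℝ} (h : DomR κ t) (hβ : 0 < β) (hk1 : 1.25 ≤ κ) (hk2 : κ ≤ 1.39)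
    (ht1 : 0.4712 ≤ t + κ) (ht2 : t + κ ≤ 0.6075) (hR0 : β * 10 ≤ κ) (hR : β * (4.95 * (1 + κ ^ 2)) ≤ κ) :
    ∀ s : ℂ, ‖s - sg κ t‖ ≤ 0.15 → ‖HH β s - 1‖ ≤ 0.09 := by
  exact JD6c_p6_c0 h hβ hk1 hk2 ht1 ht2 hR0 hR

private theorem JD6c_s_b0_0 {β x y : ℝ} (hβ : 0 < β) (hN : β * 27.777 ≤ 1) (hx1 : 0.1059 ≤ x) (hx2 : x ≤ 0.4046)
    (hy1 : -0 ≤ y) (hy2 : y ≤ 0.254) : ‖HH β (x + y * I) - 1‖ ≤ 0.03 := by
  refine le_epsJ (C := 0.4866) (N0 := 27.777) (J_boxp 0.1059 0.4046 0 0.254 0.254 0.7846 0.4778 1.3177 1.6518 0.458 5.2704 27.777 0.609 2.213 1.312 1.2645 0.3922 0.3126 1.0445 3.8504 0.3805 0.6207 0.693 2.4282 0.00001862 0.0001696 0.0000003101 0.0000003101 0.00002571 0.0000003101 0.0000003101 0.0000003101 0.4866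
    hβ hN hx1 hx2 hy1 hy2 (by norm_num) (by norm_num) (by linarith) (by norm_num) (by norm_num) (by norm_num) (by norm_num) (by norm_num) (by norm_num) (by norm_num) (by norm_num) (by norm_num) (by norm_num) (by norm_num) (by norm_num) (by norm_num) (by norm_num) (by norm_num) (by norm_num) (by norm_num) (by norm_num) (by norm_num) (by norm_num) (by norm_num)
    (cube_sqrt_geJ (s := 0.8927) (by norm_num) (by norm_num) (by norm_num) (by norm_num))
    (cube_sqrt_geJ (s := 0.9619) (by norm_num) (by norm_num) (by norm_num) (by norm_num))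
    (by norm_num) (by norm_num) (by norm_num) (by norm_num) (by norm_num) (by norm_num) (by norm_num) (by norm_num) (by norm_num) (by norm_num) (by norm_num) (by norm_num) (by norm_num) (by norm_num) (by norm_num) (by norm_num) (by norm_num) (by norm_num)
    (exp_neg_leJ (r := 0.894) 10 (by norm_num) (by norm_num) (by norm_num) (by norm_num))
    (exp_neg_leJ (r := 0.683) 8 (by norm_num) (by norm_num) (by norm_num) (by norm_num))
    (exp_neg_leJ (r := 0.99) 14 (by norm_num) (by norm_num) (by norm_num) (by norm_num))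
    (exp_neg_leJ (r := 0.99) 14 (by norm_num) (by norm_num) (by norm_num) (by norm_num))
    (exp_neg_leJ (r := 0.569) 10 (by norm_num) (by norm_num) (by norm_num) (by norm_num))
    (exp_neg_leJ (r := 0.99) 14 (by norm_num) (by norm_num) (by norm_num) (by norm_num))
    (exp_neg_leJ (r := 0.99) 14 (by norm_num) (by norm_num) (by norm_num) (by norm_num))
    (exp_neg_leJ (r := 0.99) 14 (by norm_num) (by norm_num) (by norm_num) (by norm_num))
    (by norm_num)) (by norm_num) hN hβ.le (by norm_num)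

private theorem JD6c_s_c0 {κ t β : ℝ} (h : DomR κ t) (hβ : 0 < β) (hk1 : 0.3 ≤ κ) (hk2 : κ ≤ 0.36)
    (ht1 : 0.4712 ≤ t + κ) (ht2 : t + κ ≤ 0.6075) (hR0 : β * 10 ≤ κ) (hR : β * (4.95 * (1 + κ ^ 2)) ≤ κ) :
    ∀ s : ℂ, ‖s - sg κ t‖ ≤ 0.1 → ‖HH β s - 1‖ ≤ 0.03 := by
  have hN : β * 27.777 ≤ 1 := bNR hβ h.1 hk2 hR0 (by norm_num)
  have hy1 : 0.108 ≤ sy κ t := syR_ge h 0.3 0.36 0.4712 0.108 1.11404 1.11405 0.33421 0.40106 hk1 hk2 (by linarith) (by norm_num) (by norm_num)
    (expn_ge (by norm_num) (by norm_num)) (expn_le (by norm_num) (by norm_num) (by norm_num)) (by norm_num)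
    (by norm_num) (by norm_num) (by norm_num) (by norm_num) (by norm_num) (by norm_num)
  have hy2 : sy κ t ≤ 0.154 := syR_le h 0.3 0.36 0.6075 0.154 1.16649 0.474 0.49899 0.59881 hk1 hk2 (by linarith) (by norm_num) (by norm_num)
    (expn_ge (by norm_num) (by norm_num)) (by norm_num) (by norm_num) (Or.inr ((mul_le_mul_of_nonneg_left (expn_le (E := 1.1665) (by norm_num) (by norm_num) (by norm_num)) (by norm_num)).trans (by norm_num))) (by norm_num) (by norm_num) (by norm_num)
  intro s hs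
  have hs' : ‖s - ((sx κ t : ℂ) + (sy κ t : ℂ) * I)‖ ≤ 0.1 := hs
  obtain ⟨es, ⟨s1, s2⟩, ⟨s3, s4⟩⟩ := disc_split hs'
  have hx1 : 0.2059 ≤ sx κ t := sx_lo h 0.3 0.154 0.154 0.85727 0.2059 hk1 (by norm_num) hy2 (abs_le.2 ⟨by linarith, by linarith⟩) (expm_ge (by norm_num) (by norm_num) (by norm_num) (by norm_num)) (by norm_num) (by norm_num)
  have hx2 : sx κ t ≤ 0.3046 := sx_hi h 0.36 0.108 0.108 0.89763 0.3046 hk2 hy1 (by norm_num) (by rw [abs_of_nonneg (by linarith)]; linarith) (expm_le (by norm_num) (by norm_num) (by norm_num)) (by norm_num) (by norm_num)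
  rw [es]
  exact JD6c_s_b0_0 hβ hN (by linarith) (by linarith) (by linarith) (by linarith)

private theorem JD6c_s_b1_0 {β x y : ℝ} (hβ : 0 < β) (hN : β * 22.222 ≤ 1) (hx1 : 0.143 ≤ x) (hx2 : x ≤ 0.4777)
    (hy1 : -0 ≤ y) (hy2 : y ≤ 0.278) : ‖HH β (x + y * I) - 1‖ ≤ 0.03 := by
  refine le_epsJ (C := 0.6251) (N0 := 22.222) (J_boxp 0.143 0.4777 0 0.278 0.278 0.8107 0.5528 1.3644 1.6003 0.466 4.7141 22.222 0.6819 2.466 1.357 1.2363 0.4053 0.3132 1.0572 3.8076 0.3961 0.6696 0.6643 2.1854 0.0001227 0.000953 0.0000003101 0.0000003101 0.0001507 0.000000346 0.0000003886 0.0000003101 0.6251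
    hβ hN hx1 hx2 hy1 hy2 (by norm_num) (by norm_num) (by linarith) (by norm_num) (by norm_num) (by norm_num) (by norm_num) (by norm_num) (by norm_num) (by norm_num) (by norm_num) (by norm_num) (by norm_num) (by norm_num) (by norm_num) (by norm_num) (by norm_num) (by norm_num) (by norm_num) (by norm_num) (by norm_num) (by norm_num) (by norm_num) (by norm_num)
    (cube_sqrt_geJ (s := 0.879) (by norm_num) (by norm_num) (by norm_num) (by norm_num))
    (cube_sqrt_geJ (s := 0.9573) (by norm_num) (by norm_num) (by norm_num) (by norm_num))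
    (by norm_num) (by norm_num) (by norm_num) (by norm_num) (by norm_num) (by norm_num) (by norm_num) (by norm_num) (by norm_num) (by norm_num) (by norm_num) (by norm_num) (by norm_num) (by norm_num) (by norm_num) (by norm_num) (by norm_num) (by norm_num)
    (exp_neg_leJ (r := 0.006) 9 (by norm_num) (by norm_num) (by norm_num) (by norm_num))
    (exp_neg_leJ (r := 0.959) 6 (by norm_num) (by norm_num) (by norm_num) (by norm_num))
    (exp_neg_leJ (r := 0.99) 14 (by norm_num) (by norm_num) (by norm_num) (by norm_num))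
    (exp_neg_leJ (r := 0.99) 14 (by norm_num) (by norm_num) (by norm_num) (by norm_num))
    (exp_neg_leJ (r := 0.802) 8 (by norm_num) (by norm_num) (by norm_num) (by norm_num))
    (exp_neg_leJ (r := 0.879) 14 (by norm_num) (by norm_num) (by norm_num) (by norm_num))
    (exp_neg_leJ (r := 0.762) 14 (by norm_num) (by norm_num) (by norm_num) (by norm_num))
    (exp_neg_leJ (r := 0.99) 14 (by norm_num) (by norm_num) (by norm_num) (by norm_num))
    (by norm_num)) (by norm_num) hN hβ.le (by norm_num)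

private theorem JD6c_s_c1 {κ t β : ℝ} (h : DomR κ t) (hβ : 0 < β) (hk1 : 0.36 ≤ κ) (hk2 : κ ≤ 0.45)
    (ht1 : 0.4712 ≤ t + κ) (ht2 : t + κ ≤ 0.6075) (hR0 : β * 10 ≤ κ) (hR : β * (4.95 * (1 + κ ^ 2)) ≤ κ) :
    ∀ s : ℂ, ‖s - sg κ t‖ ≤ 0.1 → ‖HH β s - 1‖ ≤ 0.03 := by
  have hN : β * 22.222 ≤ 1 := bNR hβ h.1 hk2 hR0 (by norm_num)
  have hy1 : 0.124 ≤ sy κ t := syR_ge h 0.36 0.45 0.4712 0.124 1.13201 1.13202 0.31193 0.38992 hk1 hk2 (by linarith) (by norm_num) (by norm_num)
    (expn_ge (by norm_num) (by norm_num)) (expn_le (by norm_num) (by norm_num) (by norm_num)) (by norm_num)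
    (by norm_num) (by norm_num) (by norm_num) (by norm_num) (by norm_num) (by norm_num)
  have hy2 : sy κ t ≤ 0.178 := syR_le h 0.36 0.45 0.6075 0.178 1.19482 0.4627 0.47261 0.59078 hk1 hk2 (by linarith) (by norm_num) (by norm_num)
    (expn_ge (by norm_num) (by norm_num)) (by norm_num) (by norm_num) (Or.inr ((mul_le_mul_of_nonneg_left (expn_le (E := 1.19483) (by norm_num) (by norm_num) (by norm_num)) (by norm_num)).trans (by norm_num))) (by norm_num) (by norm_num) (by norm_num)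
  intro s hs
  have hs' : ‖s - ((sx κ t : ℂ) + (sy κ t : ℂ) * I)‖ ≤ 0.1 := hs
  obtain ⟨es, ⟨s1, s2⟩, ⟨s3, s4⟩⟩ := disc_split hs'
  have hx1 : 0.243 ≤ sx κ t := sx_lo h 0.36 0.178 0.178 0.83694 0.243 hk1 (by norm_num) hy2 (abs_le.2 ⟨by linarith, by linarith⟩) (expm_ge (by norm_num) (by norm_num) (by norm_num) (by norm_num)) (by norm_num) (by norm_num)
  have hx2 : sx κ t ≤ 0.3777 := sx_hi h 0.45 0.124 0.124 0.88338 0.3777 hk2 hy1 (by norm_num) (by rw [abs_of_nonneg (by linarith)]; linarith) (expm_le (by norm_num) (by norm_num) (by norm_num)) (by norm_num) (by norm_num)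
  rw [es]
  exact JD6c_s_b1_0 hβ hN (by linarith) (by linarith) (by linarith) (by linarith)

theorem JD6c_s {κ t β : ℝ} (h : DomR κ t) (hβ : 0 < β) (hk1 : 0.3 ≤ κ) (hk2 : κ ≤ 0.45)
    (ht1 : 0.4712 ≤ t + κ) (ht2 : t + κ ≤ 0.6075) (hR0 : β * 10 ≤ κ) (hR : β * (4.95 * (1 + κ ^ 2)) ≤ κ) :
    ∀ s : ℂ, ‖s - sg κ t‖ ≤ 0.1 → ‖HH β s - 1‖ ≤ 0.03 := by
  rcases le_total κ 0.36 with f0 | g0
  · exact JD6c_s_c0 h hβ hk1 f0 ht1 ht2 hR0 hR
  exact JD6c_s_c1 h hβ g0 hk2 ht1 ht2 hR0 hR

end Sok
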