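import Pool.Agent.Lib.MP_816dec_an.B6K0
import Pool.Agent.Lib.MP_816dec_an.JD6a
import Pool.Agent.Lib.MP_816dec_an.JD6c

/-!
MP_816dec_an (A3, row R1-b6): window of the box [0.3, 0.45] of kappa (generated).
-/

set_option autoImplicit false

open Complex Set Filter Topology Metric

namespace Sok.B6K0

variable {β r t κ s h T : ℝ}

theorem y1w (H : D6 β r t κ s h T) (B : BX6 0.3 0.45 0.37423 0.27522 10 0.045 9.1195 β r κ T) (h1 : 0.45 ≤ s) (h2 : s ≤ 0.58) :
    eN r κ * (0.894 * Real.exp (-(T * (0.4754 * s ^ 2)))) ≤ ‖Xf β r h t 1‖ := by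
  have hr := rgR (a := 0) (τ1 := 0.4712) (τm := 0.6074) H.h1 H.h2 h1 h2 (by norm_num) (by norm_num) (by norm_num)
  rw [add_zero, ← H.hs] at hr
  obtain ⟨ha, hb⟩ := hr
  have hD := H.dom' (t' := t) (by linarith) (by linarith)
  have hk1 := B.hk1
  have hk2 := B.hk2
  have hk0 := H.k0
  have hy1 : 0.108 ≤ sy κ t := syR_ge hD 0.3 0.45 0.4712 0.108 1.11404 1.11405 0.26736 0.40106 hk1 hk2 (by linarith) (by norm_num) (by norm_num)
    (expn_ge (by norm_num) (by norm_num)) (expn_le (by norm_num) (by norm_num) (by norm_num)) (by norm_num)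
    (by norm_num) (by norm_num) (by norm_num) (by norm_num) (by norm_num) (by norm_num)
  have hy2 : sy κ t ≤ 0.178 := syR_le hD 0.3 0.45 0.6074 0.178 1.19482 0.4726 0.47261 0.70894 hk1 hk2 (by linarith) (by norm_num) (by norm_num)
    (expn_ge (by norm_num) (by norm_num)) (by norm_num) (by norm_num) (Or.inr ((mul_le_mul_of_nonneg_left (expn_le (E := 1.19483) (by norm_num) (by norm_num) (by norm_num)) (by norm_num)).trans (by norm_num))) (by norm_num) (by norm_num) (by norm_num)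
  exact H.x1lo hD (ε := 0.045) (c := 0.4754) (d := 1.3019) (l := 0.894) (by norm_num) (JB6_k1a hD H.hβ H.hk1 H.hk2 (by linarith) (by linarith) H.ble H.bc')
    (V1lo6 hD 0.0524 0.4712 0.6075 _ 0.1745 0.4754 (by norm_num) ha (by linarith) (k3 B) rfl (fq B) (by norm_num) (fg B) (by norm_num))
    (D_up6 hD 0.3 0.45 0.108 0.178 0.89763 0.83695 1.3019 hk1 hk2 (by norm_num) hy1 hy2 (by norm_num) (expm_le (by norm_num) (by norm_num) (by norm_num)) (expm_le (by norm_num) (by norm_num) (by norm_num)) (by norm_num) (by norm_num) (by norm_num) (by norm_num)) (by norm_num) (by norm_num)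


theorem y0w (H : D6 β r t κ s h T) (B : BX6 0.3 0.45 0.37423 0.27522 10 0.045 9.1195 β r κ T) (h1 : 0.45 ≤ s) (h2 : s ≤ 0.58) :
    eN r κ * (0.9512 * Real.exp (-(T * (0.6146 * (s - 1) ^ 2)))) ≤ ‖Xf β r h t 0‖ := by
  have hr := rgL (a := (-1)) (b1 := 0.4398) (b2 := 0.576) H.h1 H.h2 h1 h2 (by norm_num) (by norm_num) (by norm_num)
  have e : (s + -1) * h = (t - h) + κ := by rw [H.a0]; ring
  rw [e] at hr
  obtain ⟨ha, hb⟩ := hr
  have hD := H.dom' (t' := t - h) (by linarith) (by linarith)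
  have hk1 := B.hk1
  have hk2 := B.hk2
  have hk0 := H.k0
  have hy1 : -0.29 ≤ sy κ (t - h) := syL_ge2 hD 0.3 0.45 0.576 0.29 0.74826 0.74827 0.4822 0.48221 0.72333 hk1 hk2 (by linarith) (by norm_num) (by norm_num) (by norm_num)
    (expm_ge (by norm_num) (by norm_num) (by norm_num) (by norm_num)) (expm_le (by norm_num) (by norm_num) (by norm_num)) (by norm_num)
    (by norm_num) (by norm_num) (by norm_num) (by norm_num) (by norm_num) (by norm_num)
  have hy2 : sy κ (t - h) ≤ -0.142 := syL_le hD 0.3 0.45 0.4398 0.142 0.86762 0.86763 0.27378 0.41068 hk1 hk2 (by linarith) (by norm_num) (by norm_num) (by norm_num)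
    (expm_ge (by norm_num) (by norm_num) (by norm_num) (by norm_num)) (expm_le (by norm_num) (by norm_num) (by norm_num)) (by norm_num)
    (by norm_num) (by norm_num) (by norm_num) (by norm_num) (by norm_num) (by norm_num)
  exact H.x0lo hD (ε := 0.095) (c := 0.6146) (d := 0.8192) (l := 0.9512) (by norm_num) (by
      rcases le_total ((t - h) + κ) (-0.45) with g | g
      · exact JB6_k0e hD H.hβ H.hk1 H.hk2 (by linarith) (by linarith) H.ble H.bc'
      · exact (JB6_k0a hD H.hβ H.hk1 H.hk2 (by linarith) (by linarith) H.ble H.bc').trans (by norm_num))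
    (V0_lo hD 0.6146 0.576 0.1452 0.0237 0.7723 0.37423 (by linarith) (by linarith) (by norm_num) (fa1 B) (fa2 B) (fa3 B) (fa4 H B) (by norm_num) (by norm_num) (by norm_num) (by norm_num) (by norm_num))
    (D_up6 hD 0.3 0.45 (-0.29) (-0.142) 1.33643 1.15258 0.8192 hk1 hk2 (by norm_num) hy1 hy2 (by norm_num) (by rw [neg_neg]; exact expn_le (by norm_num) (by norm_num) (by norm_num)) (by rw [neg_neg]; exact expn_le (by norm_num) (by norm_num) (by norm_num)) (by norm_num) (by norm_num) (by norm_num) (by norm_num)) (by norm_num) (by norm_num)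


theorem tw2 (H : D6 β r t κ s h T) (B : BX6 0.3 0.45 0.37423 0.27522 10 0.045 9.1195 β r κ T) (h1 : 0.45 ≤ s) (h2 : s ≤ 0.58) :
    ‖Xf β r h (t) 2‖ ≤ (0.00769 + 0.003857) * ‖Xf β r h t 1‖ ∧
    r * ‖Xf β r h (t) 2‖ ≤ (1.0966 * 9.1195 * 0.00769 + 10 * 0.003857) * ‖Xf β r h t 1‖ := by
  have hr := rgR (a := 1) (τ1 := 1.5184) (τm := 1.6546) H.h1 H.h2 h1 h2 (by norm_num) (by norm_num) (by norm_num)
  have e : s + ((2 : ℤ) : ℝ) - 1 = s + 1 := by push_cast; ring
  have e2 := H.ang 2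
  rw [e] at e2
  have ha : 1.5184 ≤ (t + (((2 : ℤ) : ℝ) - 1) * h) + κ := by rw [e2]; exact hr.1
  have hb : (t + (((2 : ℤ) : ℝ) - 1) * h) + κ ≤ 1.6546 := by rw [e2]; exact hr.2
  have hD := H.dom' (t' := t + (((2 : ℤ) : ℝ) - 1) * h) (by linarith) (by linarith)
  exact cellTW (k := 2) (Y := ‖Xf β r h t 1‖) (g := 0.4754 * s ^ 2) 0.3063 0.215 0.2925 0.80669 0.38758 1.0553 1.1605 0.9735 0.9283 0.9958 0.3 0.45 0.045 0.7284 0.25 0.3713 10 0.894 0.54772 9.1195 0.0069013 0.00769 1.09663 0.15993 0.8537 0.839 3.1623 0.0028037 0.003857 1.0966 1.09662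
    H.hβ H.hκ H.hs H.hT H.hq2 (by norm_num) hD (VR_box6 hD 0.48 0.3063 0.3 0.37423 0.27522 1.5184 1.6546 _ _ _ _ _ ha hb (by norm_num) B.hk1 B.hψ B.hψ1 (by norm_num) (by norm_num) (by norm_num) rfl rfl (by norm_num) rfl rfl rfl (by norm_num) (by norm_num)) B.hk1 B.hk2 (by rw [e]; linarith [hr.1]) (by rw [e]; linarith [hr.2])
    B.hR B.hb B.hT (y1w H B (by linarith) (by linarith)) (by positivity) (gA (by norm_num) (by linarith) (by linarith : s ≤ 0.58) (by norm_num))
    (by rw [e]; exact qB (s1 := 0.45) (s2 := 0.58) (by norm_num) (by norm_num) h1 h2 (le_refl _) (by norm_num) (by norm_num) (by norm_num))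
    (y_right_30 hD (by linarith [B.hk1]) H.hk2 (by linarith))
    (by norm_num) (by norm_num) (by norm_num) (by norm_num) (by norm_num) (expn 0 0.2149 (by norm_num) (by norm_num) (E := 0.80669) (by norm_num) (by norm_num)) (expn 0 0.9649 (by norm_num) (by norm_num) (E := 0.38758) (by norm_num) (by norm_num)) (by norm_num) (by norm_num) (by norm_num) (by norm_num) (by norm_num) (by norm_num) (by norm_num) (by norm_num) (by norm_num) (by norm_num) (by norm_num) (by norm_num) (by norm_num) (by norm_num) (by norm_num) (by norm_num) (by norm_num) (by norm_num) (by norm_num) (by norm_num) (by norm_num)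
    (expn 4 0.9949 (by norm_num) (by norm_num) (E := 0.0069013) (by norm_num) (by norm_num)) (by norm_num) (by norm_num) (by norm_num) (by norm_num) (by norm_num) (by norm_num) (by norm_num) (by norm_num) (by norm_num) H.hq1 (by norm_num) (by norm_num)
    (expn 5 0.8899 (by norm_num) (by norm_num) (E := 0.0028037) (by norm_num) (by norm_num)) (by norm_num) (by norm_num)


theorem tw2s (H : D6 β r t κ s h T) (B : BX6 0.3 0.45 0.37423 0.27522 10 0.045 9.1195 β r κ T) (h1 : 0.45 ≤ s) (h2 : s ≤ 0.58) :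
    ‖Xf β r h (t + β) 2‖ ≤ (0.00821 + 0.003857) * ‖Xf β r h t 1‖ ∧
    r * ‖Xf β r h (t + β) 2‖ ≤ (1.0966 * 9.1195 * 0.00821 + 10 * 0.003857) * ‖Xf β r h t 1‖ := by
  obtain ⟨hs5, hs6⟩ := H.bh (b := 0.04298) B.hb (by norm_num)
  have hr := rgR (a := 1) (τ1 := 1.5184) (τm := 1.6996) H.h1 H.h2 (by linarith : 0.45 ≤ s + β / h) (by linarith : s + β / h ≤ 0.62298) (by norm_num) (by norm_num) (by norm_num)
  have e : s + β / h + ((2 : ℤ) : ℝ) - 1 = s + β / h + 1 := by push_cast; ring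
  have e2 := H.shift.ang 2
  rw [e] at e2
  have ha : 1.5184 ≤ (t + β + (((2 : ℤ) : ℝ) - 1) * h) + κ := by rw [e2]; exact hr.1
  have hb : (t + β + (((2 : ℤ) : ℝ) - 1) * h) + κ ≤ 1.6996 := by rw [e2]; exact hr.2
  have hD := H.dom' (t' := t + β + (((2 : ℤ) : ℝ) - 1) * h) (by linarith) (by linarith)
  exact cellTW (k := 2) (Y := ‖Xf β r h t 1‖) (g := 0.4754 * s ^ 2) 0.3027 0.215 0.2925 0.80669 0.38758 1.0553 1.1605 0.9735 0.9283 0.9958 0.3 0.45 0.045 0.7284 0.25 0.3713 10 0.894 0.54015 9.1195 0.0073658 0.00821 1.09663 0.15993 0.8537 0.839 3.1623 0.0028037 0.003857 1.0966 1.09662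
    H.hβ H.hκ H.shift.hs H.hT H.hq2 (by norm_num) hD (VR_box6 hD 0.47 0.3027 0.3 0.37423 0.27522 1.5184 1.6996 _ _ _ _ _ ha hb (by norm_num) B.hk1 B.hψ B.hψ1 (by norm_num) (by norm_num) (by norm_num) rfl rfl (by norm_num) rfl rfl rfl (by norm_num) (by norm_num)) B.hk1 B.hk2 (by rw [e]; linarith [hr.1]) (by rw [e]; linarith [hr.2])
    B.hR B.hb B.hT (y1w H B (by linarith) (by linarith)) (by positivity) (gA (by norm_num) (by linarith) (by linarith : s ≤ 0.58) (by norm_num))
    (by rw [e]; exact qB (s1 := 0.45) (s2 := 0.58) (by norm_num) (by norm_num) h1 h2 hs5 (by norm_num) (by norm_num) (by norm_num))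
    (y_right_30 hD (by linarith [B.hk1]) H.hk2 (by linarith))
    (by norm_num) (by norm_num) (by norm_num) (by norm_num) (by norm_num) (expn 0 0.2149 (by norm_num) (by norm_num) (E := 0.80669) (by norm_num) (by norm_num)) (expn 0 0.9649 (by norm_num) (by norm_num) (E := 0.38758) (by norm_num) (by norm_num)) (by norm_num) (by norm_num) (by norm_num) (by norm_num) (by norm_num) (by norm_num) (by norm_num) (by norm_num) (by norm_num) (by norm_num) (by norm_num) (by norm_num) (by norm_num) (by norm_num) (by norm_num) (by norm_num) (by norm_num) (by norm_num) (by norm_num) (by norm_num) (by norm_num)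
    (expn 4 0.9258 (by norm_num) (by norm_num) (E := 0.0073658) (by norm_num) (by norm_num)) (by norm_num) (by norm_num) (by norm_num) (by norm_num) (by norm_num) (by norm_num) (by norm_num) (by norm_num) (by norm_num) H.hq1 (by norm_num) (by norm_num)
    (expn 5 0.8899 (by norm_num) (by norm_num) (E := 0.0028037) (by norm_num) (by norm_num)) (by norm_num) (by norm_num)


theorem twm1 (H : D6 β r t κ s h T) (B : BX6 0.3 0.45 0.37423 0.27522 10 0.045 9.1195 β r κ T) (h1 : 0.45 ≤ s) (h2 : s ≤ 0.58) :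
    ‖Xf β r h (t) (-1)‖ ≤ (0.00323 + 0.001315) * ‖Xf β r h t 0‖ ∧
    r * ‖Xf β r h (t) (-1)‖ ≤ (1.0966 * 9.1195 * 0.00323 + 10 * 0.001315) * ‖Xf β r h t 0‖ := by
  have hr := rgL (a := (-2)) (b1 := 1.487) (b2 := 1.6232) H.h1 H.h2 h1 h2 (by norm_num) (by norm_num) (by norm_num)
  have e : s + ((-1 : ℤ) : ℝ) - 1 = s + (-2) := by push_cast; ring
  exact cellLW (k := -1) (Y := ‖Xf β r h t 0‖) (g := 0.6146 * (s - 1) ^ 2) 0.61 0.4462 0.3 0.45 0.37423 0.27522 1.487 1.6232 _ _ _ _ _ 0.00885 4.1815 10 0.045 0.7284 0 1.2804 0.9512 0.7913 9.1195 0.00073465 0.00323 1.09663 0.18592 0.9083 0.8129 3.1623 0.0002949 0.001315 1.0966 1.09662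
    H.hβ H.hκ H.hs H.hT H.h0 H.hq2 (by norm_num) B.hk1 B.hk2 B.hψ B.hψ1 (by rw [e]; exact hr.1) (by rw [e]; exact hr.2)
    B.hR B.hb B.hT (y0w H B (by linarith) (by linarith)) (by positivity) (gD (by norm_num) (by linarith : 0.45 ≤ s) (by linarith) (by norm_num))
    (by rw [e]; exact qC (s1 := 0.45) (s2 := 0.58) (b := 0) (by norm_num) (by norm_num) h1 h2 (by linarith) (by norm_num) (by norm_num) (by norm_num))
    (by norm_num) (by norm_num) (by norm_num) (by norm_num) rfl rfl (by norm_num) rfl rfl rfl (by norm_num) (by norm_num) (by norm_num) (by norm_num) (by norm_num) (by norm_num) (by norm_num) (by norm_num) (by norm_num) (by norm_num) (by norm_num) (by norm_num) (by norm_num) (by norm_num) (by norm_num) (by norm_num) (by norm_num) (by norm_num)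
    (expn 7 0.2162 (by norm_num) (by norm_num) (E := 0.00073465) (by norm_num) (by norm_num)) (by norm_num) (by norm_num) (by norm_num) (by norm_num) (by norm_num) (by norm_num) (by norm_num) (by norm_num) (by norm_num) H.hq1 (by norm_num) (by norm_num)
    (expn 8 0.1289 (by norm_num) (by norm_num) (E := 0.0002949) (by norm_num) (by norm_num)) (by norm_num) (by norm_num)


theorem twm1s (H : D6 β r t κ s h T) (B : BX6 0.3 0.45 0.37423 0.27522 10 0.045 9.1195 β r κ T) (h1 : 0.45 ≤ s) (h2 : s ≤ 0.58) :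
    ‖Xf β r h (t + β) (-1)‖ ≤ (0.00565 + 0.001311) * ‖Xf β r h t 0‖ ∧
    r * ‖Xf β r h (t + β) (-1)‖ ≤ (1.0966 * 9.1195 * 0.00565 + 10 * 0.001311) * ‖Xf β r h t 0‖ := by
  obtain ⟨hs5, hs6⟩ := H.bh (b := 0.04298) B.hb (by norm_num)
  have hr := rgL (a := (-2)) (b1 := 1.442) (b2 := 1.6232) H.h1 H.h2 (by linarith : 0.45 ≤ s + β / h) (by linarith : s + β / h ≤ 0.62298) (by norm_num) (by norm_num) (by norm_num)
  have e : s + β / h + ((-1 : ℤ) : ℝ) - 1 = s + β / h + (-2) := by push_cast; ring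
  exact cellLW (k := -1) (Y := ‖Xf β r h t 0‖) (g := 0.6146 * (s - 1) ^ 2) 0.6 0.4403 0.3 0.45 0.37423 0.27522 1.442 1.6232 _ _ _ _ _ 0.01022 4.0338 10 0.045 0.7284 0 1.276 0.9512 0.72647 9.1195 0.001332 0.00565 1.09663 0.18592 0.9083 0.8129 3.1623 0.0002949 0.001311 1.0966 1.09662
    H.hβ H.hκ H.shift.hs H.hT H.h0 H.hq2 (by norm_num) B.hk1 B.hk2 B.hψ B.hψ1 (by rw [e]; exact hr.1) (by rw [e]; exact hr.2)
    B.hR B.hb B.hT (y0w H B (by linarith) (by linarith)) (by positivity) (gD (by norm_num) (by linarith : 0.45 ≤ s) (by linarith) (by norm_num))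
    (by rw [e]; exact qC (s1 := 0.45) (s2 := 0.58) (b := 0.04298) (by norm_num) (by norm_num) h1 h2 hs6 (by norm_num) (by norm_num) (by norm_num))
    (by norm_num) (by norm_num) (by norm_num) (by norm_num) rfl rfl (by norm_num) rfl rfl rfl (by norm_num) (by norm_num) (by norm_num) (by norm_num) (by norm_num) (by norm_num) (by norm_num) (by norm_num) (by norm_num) (by norm_num) (by norm_num) (by norm_num) (by norm_num) (by norm_num) (by norm_num) (by norm_num) (by norm_num) (by norm_num)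
    (expn 6 0.625 (by norm_num) (by norm_num) (E := 0.001332) (by norm_num) (by norm_num)) (by norm_num) (by norm_num) (by norm_num) (by norm_num) (by norm_num) (by norm_num) (by norm_num) (by norm_num) (by norm_num) H.hq1 (by norm_num) (by norm_num)
    (expn 8 0.1289 (by norm_num) (by norm_num) (E := 0.0002949) (by norm_num) (by norm_num)) (by norm_num) (by norm_num)


theorem twm2 (H : D6 β r t κ s h T) (B : BX6 0.3 0.45 0.37423 0.27522 10 0.045 9.1195 β r κ T) (h1 : 0.45 ≤ s) (h2 : s ≤ 0.58) :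
    ‖Xf β r h (t) (-2)‖ ≤ (0.00001 + 0.001271) * ‖Xf β r h t 0‖ ∧
    r * ‖Xf β r h (t) (-2)‖ ≤ (1.0966 * 9.1195 * 0.00001 + 10 * 0.001271) * ‖Xf β r h t 0‖ := by
  have hr := rgL (a := (-3)) (b1 := 2.5342) (b2 := 2.6704) H.h1 H.h2 h1 h2 (by norm_num) (by norm_num) (by norm_num)
  have e : s + ((-2 : ℤ) : ℝ) - 1 = s + (-3) := by push_cast; ring
  exact cellLW (k := -2) (Y := ‖Xf β r h t 0‖) (g := 0.6146 * (s - 1) ^ 2) 0.3 0.26 0.3 0.45 0.37423 0.27522 2.5342 2.6704 _ _ _ _ _ 0.04566 2.7745 10 0.045 0.7284 0 1.237 0.9512 1.41424 9.1195 0.0000025392 0.00001 1.09663 0.18592 0.9083 0.8129 3.1623 0.0002949 0.001271 1.0966 1.09662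
    H.hβ H.hκ H.hs H.hT H.h0 H.hq2 (by norm_num) B.hk1 B.hk2 B.hψ B.hψ1 (by rw [e]; exact hr.1) (by rw [e]; exact hr.2)
    B.hR B.hb B.hT (y0w H B (by linarith) (by linarith)) (by positivity) (gD (by norm_num) (by linarith : 0.45 ≤ s) (by linarith) (by norm_num))
    (by rw [e]; exact qC (s1 := 0.45) (s2 := 0.58) (b := 0) (by norm_num) (by norm_num) h1 h2 (by linarith) (by norm_num) (by norm_num) (by norm_num))
    (by norm_num) (by norm_num) (by norm_num) (by norm_num) rfl rfl (by norm_num) rfl rfl rfl (by norm_num) (by norm_num) (by norm_num) (by norm_num) (by norm_num) (by norm_num) (by norm_num) (by norm_num) (by norm_num) (by norm_num) (by norm_num) (by norm_num) (by norm_num) (by norm_num) (by norm_num) (by norm_num) (by norm_num) (by norm_num)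
    (expn 12 0.8971 (by norm_num) (by norm_num) (E := 0.0000025392) (by norm_num) (by norm_num)) (by norm_num) (by norm_num) (by norm_num) (by norm_num) (by norm_num) (by norm_num) (by norm_num) (by norm_num) (by norm_num) H.hq1 (by norm_num) (by norm_num)
    (expn 8 0.1289 (by norm_num) (by norm_num) (E := 0.0002949) (by norm_num) (by norm_num)) (by norm_num) (by norm_num)


theorem twm2s (H : D6 β r t κ s h T) (B : BX6 0.3 0.45 0.37423 0.27522 10 0.045 9.1195 β r κ T) (h1 : 0.45 ≤ s) (h2 : s ≤ 0.58) :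
    ‖Xf β r h (t + β) (-2)‖ ≤ (0.00001 + 0.001278) * ‖Xf β r h t 0‖ ∧
    r * ‖Xf β r h (t + β) (-2)‖ ≤ (1.0966 * 9.1195 * 0.00001 + 10 * 0.001278) * ‖Xf β r h t 0‖ := by
  obtain ⟨hs5, hs6⟩ := H.bh (b := 0.04298) B.hb (by norm_num)
  have hr := rgL (a := (-3)) (b1 := 2.4892) (b2 := 2.6704) H.h1 H.h2 (by linarith : 0.45 ≤ s + β / h) (by linarith : s + β / h ≤ 0.62298) (by norm_num) (by norm_num) (by norm_num)
  have e : s + β / h + ((-2 : ℤ) : ℝ) - 1 = s + β / h + (-3) := by push_cast; ring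
  exact cellLW (k := -2) (Y := ‖Xf β r h t 0‖) (g := 0.6146 * (s - 1) ^ 2) 0.31 0.2672 0.3 0.45 0.37423 0.27522 2.4892 2.6704 _ _ _ _ _ 0.04037 2.8613 10 0.045 0.7284 0 1.2443 0.9512 1.40132 9.1195 0.0000028422 0.00001 1.09663 0.18592 0.9083 0.8129 3.1623 0.0002949 0.001278 1.0966 1.09662
    H.hβ H.hκ H.shift.hs H.hT H.h0 H.hq2 (by norm_num) B.hk1 B.hk2 B.hψ B.hψ1 (by rw [e]; exact hr.1) (by rw [e]; exact hr.2)
    B.hR B.hb B.hT (y0w H B (by linarith) (by linarith)) (by positivity) (gD (by norm_num) (by linarith : 0.45 ≤ s) (by linarith) (by norm_num))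
    (by rw [e]; exact qC (s1 := 0.45) (s2 := 0.58) (b := 0.04298) (by norm_num) (by norm_num) h1 h2 hs6 (by norm_num) (by norm_num) (by norm_num))
    (by norm_num) (by norm_num) (by norm_num) (by norm_num) rfl rfl (by norm_num) rfl rfl rfl (by norm_num) (by norm_num) (by norm_num) (by norm_num) (by norm_num) (by norm_num) (by norm_num) (by norm_num) (by norm_num) (by norm_num) (by norm_num) (by norm_num) (by norm_num) (by norm_num) (by norm_num) (by norm_num) (by norm_num) (by norm_num)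
    (expn 12 0.7793 (by norm_num) (by norm_num) (E := 0.0000028422) (by norm_num) (by norm_num)) (by norm_num) (by norm_num) (by norm_num) (by norm_num) (by norm_num) (by norm_num) (by norm_num) (by norm_num) (by norm_num) H.hq1 (by norm_num) (by norm_num)
    (expn 8 0.1289 (by norm_num) (by norm_num) (E := 0.0002949) (by norm_num) (by norm_num)) (by norm_num) (by norm_num)


theorem tw3 (H : D6 β r t κ s h T) (B : BX6 0.3 0.45 0.37423 0.27522 10 0.045 9.1195 β r κ T) (h1 : 0.45 ≤ s) (h2 : s ≤ 0.58) :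
    ‖Xf β r h (t) 3‖ ≤ 0.001691 * ‖Xf β r h t 1‖ ∧
    r * ‖Xf β r h (t) 3‖ ≤ (10 * 0.001691) * ‖Xf β r h t 1‖ := by
  have hr := rgR (a := 2) (τ1 := 2.5656) (τm := 2.7018) H.h1 H.h2 h1 h2 (by norm_num) (by norm_num) (by norm_num)
  have e : (s + ((3 : ℤ) : ℝ) - 1) * h + 2 * Real.pi * ((0 : ℤ) : ℝ) = (s + 2) * h := by push_cast; ring
  exact cellUW (k := 3) (Y := ‖Xf β r h t 1‖) (g := 0.4754 * s ^ 2) 0 0.3 0.45 2.1155 2.7018 0.01 10 0.045 0.7284 0.01 1.8176 0.894 1.09663 0.15993 0.8537 0.839 3.1623 0.0002511 0.001691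
    H.hβ H.hκ H.hs H.hT H.h0 H.hq2 (by norm_num) B.hk1 B.hk2 (by rw [e]; linarith [hr.1, B.hk2]) (by rw [e]; exact hr.2)
    B.hR B.hb (y1w H B (by linarith) (by linarith)) (by positivity) (gA (by norm_num) (by linarith) (by linarith : s ≤ 0.58) (by norm_num))
    (by norm_num) (by norm_num) (by norm_num) (by norm_num) (by norm_num) (by norm_num) (by norm_num) (by norm_num) (by norm_num) (by norm_num) (by norm_num) (by norm_num) (by norm_num) (by norm_num) (by norm_num) (by norm_num) (by norm_num) (by norm_num) (by norm_num) 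
    (expn 8 0.2899 (by norm_num) (by norm_num) (E := 0.0002511) (by norm_num) (by norm_num)) (by norm_num) (by norm_num)


theorem tw3s (H : D6 β r t κ s h T) (B : BX6 0.3 0.45 0.37423 0.27522 10 0.045 9.1195 β r κ T) (h1 : 0.45 ≤ s) (h2 : s ≤ 0.58) :
    ‖Xf β r h (t + β) 3‖ ≤ 0.001691 * ‖Xf β r h t 1‖ ∧
    r * ‖Xf β r h (t + β) 3‖ ≤ (10 * 0.001691) * ‖Xf β r h t 1‖ := by
  obtain ⟨hs5, hs6⟩ := H.bh (b := 0.04298) B.hb (by norm_num)
  have hr := rgR (a := 2) (τ1 := 2.5656) (τm := 2.7468) H.h1 H.h2 (by linarith : 0.45 ≤ s + β / h) (by linarith : s + β / h ≤ 0.62298) (by norm_num) (by norm_num) (by norm_num)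
  have e : (s + β / h + ((3 : ℤ) : ℝ) - 1) * h + 2 * Real.pi * ((0 : ℤ) : ℝ) = (s + β / h + 2) * h := by push_cast; ring
  exact cellUW (k := 3) (Y := ‖Xf β r h t 1‖) (g := 0.4754 * s ^ 2) 0 0.3 0.45 2.1155 2.7468 0.01 10 0.045 0.7284 0.01 1.8176 0.894 1.09663 0.15993 0.8537 0.839 3.1623 0.0002511 0.001691
    H.hβ H.hκ H.shift.hs H.hT H.h0 H.hq2 (by norm_num) B.hk1 B.hk2 (by rw [e]; linarith [hr.1, B.hk2]) (by rw [e]; exact hr.2)
    B.hR B.hb (y1w H B (by linarith) (by linarith)) (by positivity) (gA (by norm_num) (by linarith) (by linarith : s ≤ 0.58) (by norm_num))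
    (by norm_num) (by norm_num) (by norm_num) (by norm_num) (by norm_num) (by norm_num) (by norm_num) (by norm_num) (by norm_num) (by norm_num) (by norm_num) (by norm_num) (by norm_num) (by norm_num) (by norm_num) (by norm_num) (by norm_num) (by norm_num) (by norm_num) 
    (expn 8 0.2899 (by norm_num) (by norm_num) (E := 0.0002511) (by norm_num) (by norm_num)) (by norm_num) (by norm_num)


theorem win (H : D6 β r t κ s h T) (B : BX6 0.3 0.45 0.37423 0.27522 10 0.045 9.1195 β r κ T) (h1 : 0.45 ≤ s) (h2 : s ≤ 0.58) :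
    Win6 β r h t 6.492 0.011547 0.004545 0.001691 0.001281 0.6826 0.3128 0.1658 0.1319 := by
  have hk1 := B.hk1
  have hk2 := B.hk2
  have hk0 := H.k0
  have hr := rgR (a := 0) (τ1 := 0.4712) (τm := 0.6075) H.h1 H.h2 h1 h2 (by norm_num) (by norm_num) (by norm_num)
  rw [add_zero, ← H.hs] at hr
  obtain ⟨ha, hb⟩ := hr
  have hr0 := rgL (a := (-1)) (b1 := 0.4398) (b2 := 0.576) H.h1 H.h2 h1 h2 (by norm_num) (by norm_num) (by norm_num)
  have e0 : (s + -1) * h = (t - h) + κ := by rw [H.a0]; ring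
  rw [e0] at hr0
  obtain ⟨ha0, hb0⟩ := hr0
  have hD := H.dom' (t' := t) (by linarith) (by linarith)
  have hy1 : 0.108 ≤ sy κ t := syR_ge hD 0.3 0.45 0.4712 0.108 1.11404 1.11405 0.26736 0.40106 hk1 hk2 (by linarith) (by norm_num) (by norm_num)
    (expn_ge (by norm_num) (by norm_num)) (expn_le (by norm_num) (by norm_num) (by norm_num)) (by norm_num)
    (by norm_num) (by norm_num) (by norm_num) (by norm_num) (by norm_num) (by norm_num)
  have hy2 : sy κ t ≤ 0.178 := syR_le hD 0.3 0.45 0.6075 0.178 1.19482 0.4726 0.47261 0.70894 hk1 hk2 (by linarith) (by norm_num) (by norm_num)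
    (expn_ge (by norm_num) (by norm_num)) (by norm_num) (by norm_num) (Or.inr ((mul_le_mul_of_nonneg_left (expn_le (E := 1.19483) (by norm_num) (by norm_num) (by norm_num)) (by norm_num)).trans (by norm_num))) (by norm_num) (by norm_num) (by norm_num)
  have hy10 := hy1
  have hy20 := hy2
  clear hy1 hy2
  have hD1 := hD
  clear hD
  have hD := H.dom' (t' := t - h) (by linarith) (by linarith)
  have hy1 : -0.29 ≤ sy κ (t - h) := syL_ge2 hD 0.3 0.45 0.576 0.29 0.74826 0.74827 0.4822 0.48221 0.72333 hk1 hk2 (by linarith) (by norm_num) (by norm_num) (by norm_num)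
    (expm_ge (by norm_num) (by norm_num) (by norm_num) (by norm_num)) (expm_le (by norm_num) (by norm_num) (by norm_num)) (by norm_num)
    (by norm_num) (by norm_num) (by norm_num) (by norm_num) (by norm_num) (by norm_num)
  have hy2 : sy κ (t - h) ≤ -0.142 := syL_le hD 0.3 0.45 0.4398 0.142 0.86762 0.86763 0.27378 0.41068 hk1 hk2 (by linarith) (by norm_num) (by norm_num) (by norm_num)
    (expm_ge (by norm_num) (by norm_num) (by norm_num) (by norm_num)) (expm_le (by norm_num) (by norm_num) (by norm_num)) (by norm_num)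
    (by norm_num) (by norm_num) (by norm_num) (by norm_num) (by norm_num) (by norm_num)
  have hJ1 := JD6c_s hD1 H.hβ (by linarith) (by linarith) (by linarith) (by linarith) H.ble H.bc'
  have hJ0 := JD6a_0 hD H.hβ (by linarith) (by linarith) (by linarith) (by linarith) H.ble H.bc'
  have hρ1 := rho_le hD1 (k2 := 0.45) (yl := 0.108) (E := 0.89763) (ρ := 0.344) hk2 hy10 (expm_le (by norm_num) (by norm_num) (by norm_num)) (by norm_num) (by norm_num) (by norm_num) (by norm_num)
  have hρ0 := rho_le hD (k2 := 0.45) (yl := (-0.29)) (E := 1.33643) (ρ := 0.6803) hk2 hy1 (by rw [neg_neg]; exact expn_le (by norm_num) (by norm_num) (by norm_num)) (by norm_num) (by norm_num) (by norm_num) (by norm_num)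
  have he1 : ‖Ld β r h t 1 - (sg κ t / β + Gc6 κ t)‖ ≤ 0.1064 := (Ld_near (k := 1) (δ := 0.1) (ε := 0.03) (ρ := 0.344) H.hβ H.hκ (by push_cast; ring) hD1 (by norm_num) (by norm_num) (by norm_num) (by linarith) hJ1 hρ1).trans (by norm_num)
  have he0 : ‖Ld β r h t 0 - (sg κ (t - h) / β + Gc6 κ (t - h))‖ ≤ 0.3944 := (Ld_near (k := 0) (δ := 0.15) (ε := 0.08) (ρ := 0.6803) H.hβ H.hκ (by push_cast; ring) hD (by norm_num) (by norm_num) (by norm_num) (by linarith) hJ0 hρ0).trans (by norm_num)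
  have hg1 := gam_le hD1 (yl := 0.108) (γ := 0.2268) hy10 (by norm_num) (by norm_num) (by norm_num)
  have hg0 := gam_le hD (yl := (-0.29)) (γ := 0.3858) hy1 (by norm_num) (by norm_num) (by norm_num)
  have hDl1 : 1.2501 ≤ sD κ t := by
    refine le_trans ?_ (D_lo6 hD1 0.3 0.45 0.108 0.178 0.108 0.89762 1.1469 hk1 hk2 (by norm_num) hy10 hy20 (expm_ge (by norm_num) (by norm_num) (by norm_num) (by norm_num)) (by norm_num) (by norm_num) (by norm_num) (by norm_num) (by norm_num) (by norm_num))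
    nlinarith [pow_le_pow_left₀ (by norm_num) hk1 2]
  have hw1 : (κ * Real.exp (-sy κ t)) ^ 2 ≤ 1 := by
    have h4 : Real.exp (-sy κ t) ≤ 0.89763 := (Real.exp_le_exp.2 (by linarith : -sy κ t ≤ -0.108)).trans (expm_le (by norm_num) (by norm_num) (by norm_num))
    have h3 : κ * Real.exp (-sy κ t) ≤ 0.45 * 0.89763 := mul_le_mul hk2 h4 (Real.exp_pos _).le (by norm_num)
    refine (pow_le_pow_left₀ (by positivity) h3 2).trans (by norm_num)
  have hG1 : -(0 : ℝ) ≤ (Gc6 κ t).im := by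
    refine le_trans ?_ (Gim_ge hD1 hg1 hw1 (by norm_num) (by norm_num : (0:ℝ) < 1.2501) hDl1)
    norm_num
  have hG0 : (Gc6 κ (t - h)).im ≤ 0.3858 := by
    have h3 := abs_le.1 ((Complex.abs_im_le_norm (Gc6 κ (t - h))).trans hg0)
    linarith
  have hsl := slope6 H hD hD1 (c1 := 0.737) (c0 := 1) (g0 := 0.3858) (g1 := 0) (m := 6.492) (T0 := 9.1195) (μ := 0.8474) he0 he1 (pR_070 hD1 (by linarith) (by linarith) (by linarith))
    (by rw [one_mul]; exact pL_one hD (by linarith) H.hk2 (by linarith) (by linarith)) hG1 hG0 (by linarith) (by norm_num) B.hT (by norm_num) (by norm_num) (by norm_num)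
  have hL1 := Ln6 H hD1 (E := 0.89763) he1 hg1 hy10 (expm_le (by norm_num) (by norm_num) (by norm_num))
  have hL0 := Ln6 H hD (E := 1.33643) he0 hg0 hy1 (by rw [neg_neg]; exact expn_le (by norm_num) (by norm_num) (by norm_num))
  have hds := dist6 H hD hD1 h1 h2 (dy := 0.468) (k1 := 0.3) (lam := 3.8234) (by linarith) hk1 (by norm_num) (by norm_num) (by norm_num)
  have hA := Ldd6 H he0 he1 hg0 hg1 hds
  obtain ⟨l2, l3, lm1, lm2⟩ := Lam6 hA hL0 hL1
  have q2 := tw2 H B h1 h2
  have q2s := tw2s H B h1 h2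
  have qm1 := twm1 H B h1 h2
  have qm1s := twm1s H B h1 h2
  have qm2 := twm2 H B h1 h2
  have qm2s := twm2s H B h1 h2
  have q3 := tw3 H B h1 h2
  have q3s := tw3s H B h1 h2
  have hX1 := norm_nonneg (Xf β r h t 1)
  have hX0 := norm_nonneg (Xf β r h t 0)
  have hYp := lt_of_lt_of_le (mul_pos (eN_pos r κ) (by positivity)) (y0w H B h1 h2)
  refine ⟨norm_pos_iff.1 hYp, q2.1.trans (mul_le_mul_of_nonneg_right (by norm_num) hX1), q3.1.trans (mul_le_mul_of_nonneg_right (by norm_num) hX1),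
    qm1.1.trans (mul_le_mul_of_nonneg_right (by norm_num) hX0), qm2.1.trans (mul_le_mul_of_nonneg_right (by norm_num) hX0),
    wsum6 q2s.2 q2.1 q2.2 (lam := 4.72103) (c := 1.4466) (l2.trans (le_of_eq (by ring))) (norm_nonneg _) (by norm_num) (by norm_num) hX1 (by norm_num),
    wsum6 q3s.2 q3.1 q3.2 (lam := 8.54443) (c := 2.56) (l3.trans (le_of_eq (by ring))) (norm_nonneg _) (by norm_num) (by norm_num) hX1 (by norm_num),
    wsum6 qm1s.2 qm1.1 qm1.2 (lam := 5.15983) (c := 1.8936) (lm1.trans (le_of_eq (by ring))) (norm_nonneg _) (by norm_num) (by norm_num) hX0 (by norm_num),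
    wsum6 qm2s.2 qm2.1 qm2.2 (lam := 8.98323) (c := 3.007) (lm2.trans (le_of_eq (by ring))) (norm_nonneg _) (by norm_num) (by norm_num) hX0 (by norm_num), hsl⟩


/-- box 0.3 ≤ κ ≤ 0.45 -/
theorem box {p : ℤ} (hp : IsCoprime (6 : ℤ) p) {β r κ : ℝ} (hβ : 0 < β) (hr : 10 ≤ r) (hκ : κ = β * r)
    (hc : 4.9619 * (1 + κ ^ 2) ≤ r) (hk1 : 0.3 ≤ κ) (hk2 : κ ≤ 0.45) : Circ (2 * Real.pi * p / 6 + β) r := by
  refine circ6 hp hβ hr hκ hc (by linarith) (by linarith) (slo := 0.45) (shi := 0.58) (m := 6.492) (E2 := 0.011547) (Em1 := 0.004545) (E3 := 0.001691)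
    (Em2 := 0.001281) (W2 := 0.6826) (Wm1 := 0.3128) (W3 := 0.1658) (Wm2 := 0.1319) (a := 1.05)
    (by norm_num) (by norm_num) (by norm_num) (by norm_num) (by norm_num) (by norm_num) (by norm_num) (by norm_num) (by norm_num)
    (by norm_num) (by norm_num) (by norm_num)
    (fun t s h T H h1 h2 => win H (mkB H hk1 hk2) h1 h2) ?_ ?_
  · intro t s h T H h1 h2
    have B := mkB H hk1 hk2
    rcases le_total s 0.25 with g0 | f0
    · exact outL0 H B h1 g0
    rcases le_total s 0.35 with g1 | f1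
    · exact outL1 H B f0 g1
    rcases le_total s 0.43 with g2 | f2
    · exact outL2 H B f1 g2
    exact outL3 H B f2 h2
  · intro t s h T H h1 h2
    have B := mkB H hk1 hk2
    rcases le_total s 0.6 with g0 | f0
    · exact outR0 H B h1 g0
    rcases le_total s 0.65 with g1 | f1
    · exact outR1 H B f0 g1
    rcases le_total s 0.75 with g2 | f2
    · exact outR2 H B f1 g2
    exact outR3 H B f2 h2

end Sok.B6K0
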