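import Pool.Agent.Lib.MP_816dec_an.B6K1
import Pool.Agent.Lib.MP_816dec_an.JD6a
import Pool.Agent.Lib.MP_816dec_an.JD6c

/-!
MP_816dec_an (A3, row R1-b6): window of the box [0.45, 0.6] of kappa (generated).
-/

set_option autoImplicit false

open Complex Set Filter Topology Metric

namespace Sok.B6K1

variable {β r t κ s h T : ℝ}

theorem y1w (H : D6 β r t κ s h T) (B : BX6 0.45 0.6 0.44118 0.37422 10 0.06 8.0633 β r κ T) (h1 : 0.45 ≤ s) (h2 : s ≤ 0.58) :
    eN r κ * (0.8955 * Real.exp (-(T * (0.4653 * s ^ 2)))) ≤ ‖Xf β r h t 1‖ := by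
  have hr := rgR (a := 0) (τ1 := 0.4712) (τm := 0.6074) H.h1 H.h2 h1 h2 (by norm_num) (by norm_num) (by norm_num)
  rw [add_zero, ← H.hs] at hr
  obtain ⟨ha, hb⟩ := hr
  have hD := H.dom' (t' := t) (by linarith) (by linarith)
  have hk1 := B.hk1
  have hk2 := B.hk2
  have hk0 := H.k0
  have hy1 : 0.144 ≤ sy κ t := syR_ge hD 0.45 0.6 0.4712 0.144 1.15488 1.15489 0.27717 0.36957 hk1 hk2 (by linarith) (by norm_num) (by norm_num)
    (expn_ge (by norm_num) (by norm_num)) (expn_le (by norm_num) (by norm_num) (by norm_num)) (by norm_num)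
    (by norm_num) (by norm_num) (by norm_num) (by norm_num) (by norm_num) (by norm_num)
  have hy2 : sy κ t ≤ 0.211 := syR_le hD 0.45 0.6 0.6074 0.211 1.23491 0.4101 0.43427 0.57905 hk1 hk2 (by linarith) (by norm_num) (by norm_num)
    (expn_ge (by norm_num) (by norm_num)) (by norm_num) (by norm_num) (Or.inr ((mul_le_mul_of_nonneg_left (expn_le (E := 1.23492) (by norm_num) (by norm_num) (by norm_num)) (by norm_num)).trans (by norm_num))) (by norm_num) (by norm_num) (by norm_num)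
  exact H.x1lo hD (ε := 0.045) (c := 0.4653) (d := 1.293) (l := 0.8955) (by norm_num) (JB6_k1a hD H.hβ H.hk1 H.hk2 (by linarith) (by linarith) H.ble H.bc')
    (V1lo6 hD 0.0737 0.4712 0.6075 _ 0.1942 0.4653 (by norm_num) ha (by linarith) (k3 B) rfl (fq B) (by norm_num) (fg B) (by norm_num))
    (D_up6 hD 0.45 0.6 0.144 0.211 0.86589 0.80978 1.293 hk1 hk2 (by norm_num) hy1 hy2 (by norm_num) (expm_le (by norm_num) (by norm_num) (by norm_num)) (expm_le (by norm_num) (by norm_num) (by norm_num)) (by norm_num) (by norm_num) (by norm_num) (by norm_num)) (by norm_num) (by norm_num)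


theorem y0w (H : D6 β r t κ s h T) (B : BX6 0.45 0.6 0.44118 0.37422 10 0.06 8.0633 β r κ T) (h1 : 0.45 ≤ s) (h2 : s ≤ 0.58) :
    eN r κ * (0.9467 * Real.exp (-(T * (0.6097 * (s - 1) ^ 2)))) ≤ ‖Xf β r h t 0‖ := by
  have hr := rgL (a := (-1)) (b1 := 0.4398) (b2 := 0.576) H.h1 H.h2 h1 h2 (by norm_num) (by norm_num) (by norm_num)
  have e : (s + -1) * h = (t - h) + κ := by rw [H.a0]; ring
  rw [e] at hr
  obtain ⟨ha, hb⟩ := hr
  have hD := H.dom' (t' := t - h) (by linarith) (by linarith)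
  have hk1 := B.hk1
  have hk2 := B.hk2
  have hk0 := H.k0
  have hy1 : -0.334 ≤ sy κ (t - h) := syL_ge hD 0.45 0.6 0.576 0.334 0.71605 0.71606 0.3985 0.3986 0.53148 hk1 hk2 (by linarith) (by norm_num) (by norm_num) (by norm_num)
    (expm_ge (by norm_num) (by norm_num) (by norm_num) (by norm_num)) (expm_le (by norm_num) (by norm_num) (by norm_num)) (by norm_num)
    (by norm_num) (by norm_num) (by norm_num) (by norm_num) (by norm_num) (by norm_num)
  have hy2 : sy κ (t - h) ≤ -0.202 := syL_le hD 0.45 0.6 0.4398 0.202 0.81709 0.8171 0.27508 0.36679 hk1 hk2 (by linarith) (by norm_num) (by norm_num) (by norm_num)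
    (expm_ge (by norm_num) (by norm_num) (by norm_num) (by norm_num)) (expm_le (by norm_num) (by norm_num) (by norm_num)) (by norm_num)
    (by norm_num) (by norm_num) (by norm_num) (by norm_num) (by norm_num) (by norm_num)
  exact H.x0lo hD (ε := 0.095) (c := 0.6097) (d := 0.8348) (l := 0.9467) (by norm_num) (by
      rcases le_total ((t - h) + κ) (-0.45) with g | g
      · exact JB6_k0e hD H.hβ H.hk1 H.hk2 (by linarith) (by linarith) H.ble H.bc'
      · exact (JB6_k0a hD H.hβ H.hk1 H.hk2 (by linarith) (by linarith) H.ble H.bc').trans (by norm_num))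
    (V0_lo hD 0.6097 0.576 0.1475 0.0516 0.5752 0.44118 (by linarith) (by linarith) (by norm_num) (fa1 B) (fa2 B) (fa3 B) (fa4 H B) (by norm_num) (by norm_num) (by norm_num) (by norm_num) (by norm_num))
    (D_up6 hD 0.45 0.6 (-0.334) (-0.202) 1.39655 1.22385 0.8348 hk1 hk2 (by norm_num) hy1 hy2 (by norm_num) (by rw [neg_neg]; exact expn_le (by norm_num) (by norm_num) (by norm_num)) (by rw [neg_neg]; exact expn_le (by norm_num) (by norm_num) (by norm_num)) (by norm_num) (by norm_num) (by norm_num) (by norm_num)) (by norm_num) (by norm_num)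


theorem tw2 (H : D6 β r t κ s h T) (B : BX6 0.45 0.6 0.44118 0.37422 10 0.06 8.0633 β r κ T) (h1 : 0.45 ≤ s) (h2 : s ≤ 0.58) :
    ‖Xf β r h (t) 2‖ ≤ (0.0135 + 0.003102) * ‖Xf β r h t 1‖ ∧
    r * ‖Xf β r h (t) 2‖ ≤ (1.2402 * 8.0633 * 0.0135 + 10 * 0.003102) * ‖Xf β r h t 1‖ := by
  have hr := rgR (a := 1) (τ1 := 1.5184) (τm := 1.6546) H.h1 H.h2 h1 h2 (by norm_num) (by norm_num) (by norm_num)
  have e : s + ((2 : ℤ) : ℝ) - 1 = s + 1 := by push_cast; ring
  have e2 := H.ang 2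
  rw [e] at e2
  have ha : 1.5184 ≤ (t + (((2 : ℤ) : ℝ) - 1) * h) + κ := by rw [e2]; exact hr.1
  have hb : (t + (((2 : ℤ) : ℝ) - 1) * h) + κ ≤ 1.6546 := by rw [e2]; exact hr.2
  have hD := H.dom' (t' := t + (((2 : ℤ) : ℝ) - 1) * h) (by linarith) (by linarith)
  exact cellTW (k := 2) (Y := ‖Xf β r h t 1‖) (g := 0.4653 * s ^ 2) 0.3074 0.215 0.4337 0.80669 0.38758 1.024 1.1605 0.9883 0.9283 1.0349 0.45 0.6 0.06 0.5948 0.25 0.3525 10 0.8955 0.55208 8.0633 0.011676 0.0135 1.09663 0.15653 0.8292 0.8572 3.1623 0.0023068 0.003102 1.2402 1.09662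
    H.hβ H.hκ H.hs H.hT H.hq2 (by norm_num) hD (VR_box6 hD 0.48 0.3074 0.45 0.44118 0.37422 1.5184 1.6546 _ _ _ _ _ ha hb (by norm_num) B.hk1 B.hψ B.hψ1 (by norm_num) (by norm_num) (by norm_num) rfl rfl (by norm_num) rfl rfl rfl (by norm_num) (by norm_num)) B.hk1 B.hk2 (by rw [e]; linarith [hr.1]) (by rw [e]; linarith [hr.2])
    B.hR B.hb B.hT (y1w H B (by linarith) (by linarith)) (by positivity) (gA (by norm_num) (by linarith) (by linarith : s ≤ 0.58) (by norm_num))
    (by rw [e]; exact qB (s1 := 0.45) (s2 := 0.58) (by norm_num) (by norm_num) h1 h2 (le_refl _) (by norm_num) (by norm_num) (by norm_num))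
    (y_right_30 hD (by linarith [B.hk1]) H.hk2 (by linarith))
    (by norm_num) (by norm_num) (by norm_num) (by norm_num) (by norm_num) (expn 0 0.2149 (by norm_num) (by norm_num) (E := 0.80669) (by norm_num) (by norm_num)) (expn 0 0.9649 (by norm_num) (by norm_num) (E := 0.38758) (by norm_num) (by norm_num)) (by norm_num) (by norm_num) (by norm_num) (by norm_num) (by norm_num) (by norm_num) (by norm_num) (by norm_num) (by norm_num) (by norm_num) (by norm_num) (by norm_num) (by norm_num) (by norm_num) (by norm_num) (by norm_num) (by norm_num) (by norm_num) (by norm_num) (by norm_num) (by norm_num)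
    (expn 4 0.4515 (by norm_num) (by norm_num) (E := 0.011676) (by norm_num) (by norm_num)) (by norm_num) (by norm_num) (by norm_num) (by norm_num) (by norm_num) (by norm_num) (by norm_num) (by norm_num) (by norm_num) H.hq1 (by norm_num) (by norm_num)
    (expn 6 0.0719 (by norm_num) (by norm_num) (E := 0.0023068) (by norm_num) (by norm_num)) (by norm_num) (by norm_num)


theorem tw2s (H : D6 β r t κ s h T) (B : BX6 0.45 0.6 0.44118 0.37422 10 0.06 8.0633 β r κ T) (h1 : 0.45 ≤ s) (h2 : s ≤ 0.58) :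
    ‖Xf β r h (t + β) 2‖ ≤ (0.01463 + 0.003102) * ‖Xf β r h t 1‖ ∧
    r * ‖Xf β r h (t + β) 2‖ ≤ (1.2402 * 8.0633 * 0.01463 + 10 * 0.003102) * ‖Xf β r h t 1‖ := by
  obtain ⟨hs5, hs6⟩ := H.bh (b := 0.0573) B.hb (by norm_num)
  have hr := rgR (a := 1) (τ1 := 1.5184) (τm := 1.7146) H.h1 H.h2 (by linarith : 0.45 ≤ s + β / h) (by linarith : s + β / h ≤ 0.6373) (by norm_num) (by norm_num) (by norm_num)
  have e : s + β / h + ((2 : ℤ) : ℝ) - 1 = s + β / h + 1 := by push_cast; ring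
  have e2 := H.shift.ang 2
  rw [e] at e2
  have ha : 1.5184 ≤ (t + β + (((2 : ℤ) : ℝ) - 1) * h) + κ := by rw [e2]; exact hr.1
  have hb : (t + β + (((2 : ℤ) : ℝ) - 1) * h) + κ ≤ 1.7146 := by rw [e2]; exact hr.2
  have hD := H.dom' (t' := t + β + (((2 : ℤ) : ℝ) - 1) * h) (by linarith) (by linarith)
  exact cellTW (k := 2) (Y := ‖Xf β r h t 1‖) (g := 0.4653 * s ^ 2) 0.3026 0.215 0.4337 0.80669 0.38758 1.024 1.1605 0.9883 0.9283 1.0349 0.45 0.6 0.06 0.5948 0.25 0.3525 10 0.8955 0.54199 8.0633 0.012657 0.01463 1.09663 0.15653 0.8292 0.8572 3.1623 0.0023068 0.003102 1.2402 1.09662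
    H.hβ H.hκ H.shift.hs H.hT H.hq2 (by norm_num) hD (VR_box6 hD 0.47 0.3026 0.45 0.44118 0.37422 1.5184 1.7146 _ _ _ _ _ ha hb (by norm_num) B.hk1 B.hψ B.hψ1 (by norm_num) (by norm_num) (by norm_num) rfl rfl (by norm_num) rfl rfl rfl (by norm_num) (by norm_num)) B.hk1 B.hk2 (by rw [e]; linarith [hr.1]) (by rw [e]; linarith [hr.2])
    B.hR B.hb B.hT (y1w H B (by linarith) (by linarith)) (by positivity) (gA (by norm_num) (by linarith) (by linarith : s ≤ 0.58) (by norm_num))
    (by rw [e]; exact qB (s1 := 0.45) (s2 := 0.58) (by norm_num) (by norm_num) h1 h2 hs5 (by norm_num) (by norm_num) (by norm_num))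
    (y_right_30 hD (by linarith [B.hk1]) H.hk2 (by linarith))
    (by norm_num) (by norm_num) (by norm_num) (by norm_num) (by norm_num) (expn 0 0.2149 (by norm_num) (by norm_num) (E := 0.80669) (by norm_num) (by norm_num)) (expn 0 0.9649 (by norm_num) (by norm_num) (E := 0.38758) (by norm_num) (by norm_num)) (by norm_num) (by norm_num) (by norm_num) (by norm_num) (by norm_num) (by norm_num) (by norm_num) (by norm_num) (by norm_num) (by norm_num) (by norm_num) (by norm_num) (by norm_num) (by norm_num) (by norm_num) (by norm_num) (by norm_num) (by norm_num) (by norm_num) (by norm_num) (by norm_num)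
    (expn 4 0.3702 (by norm_num) (by norm_num) (E := 0.012657) (by norm_num) (by norm_num)) (by norm_num) (by norm_num) (by norm_num) (by norm_num) (by norm_num) (by norm_num) (by norm_num) (by norm_num) (by norm_num) H.hq1 (by norm_num) (by norm_num)
    (expn 6 0.0719 (by norm_num) (by norm_num) (E := 0.0023068) (by norm_num) (by norm_num)) (by norm_num) (by norm_num)


theorem twm1 (H : D6 β r t κ s h T) (B : BX6 0.45 0.6 0.44118 0.37422 10 0.06 8.0633 β r κ T) (h1 : 0.45 ≤ s) (h2 : s ≤ 0.58) :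
    ‖Xf β r h (t) (-1)‖ ≤ (0.00043 + 0.001115) * ‖Xf β r h t 0‖ ∧
    r * ‖Xf β r h (t) (-1)‖ ≤ (1.2402 * 8.0633 * 0.00043 + 10 * 0.001115) * ‖Xf β r h t 0‖ := by
  have hr := rgL (a := (-2)) (b1 := 1.487) (b2 := 1.6232) H.h1 H.h2 h1 h2 (by norm_num) (by norm_num) (by norm_num)
  have e : s + ((-1 : ℤ) : ℝ) - 1 = s + (-2) := by push_cast; ring
  exact cellLW (k := -1) (Y := ‖Xf β r h t 0‖) (g := 0.6097 * (s - 1) ^ 2) 1 0.6011 0.45 0.6 0.44118 0.37422 1.487 1.6232 _ _ _ _ _ 0.04044 2.9494 10 0.06 0.5948 0 1.2642 0.9467 1.1045 8.0633 0.00013748 0.00043 1.09663 0.18444 0.8766 0.8317 3.1623 0.00024444 0.001115 1.2402 1.09662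
    H.hβ H.hκ H.hs H.hT H.h0 H.hq2 (by norm_num) B.hk1 B.hk2 B.hψ B.hψ1 (by rw [e]; exact hr.1) (by rw [e]; exact hr.2)
    B.hR B.hb B.hT (y0w H B (by linarith) (by linarith)) (by positivity) (gD (by norm_num) (by linarith : 0.45 ≤ s) (by linarith) (by norm_num))
    (by rw [e]; exact qC (s1 := 0.45) (s2 := 0.58) (b := 0) (by norm_num) (by norm_num) h1 h2 (by linarith) (by norm_num) (by norm_num) (by norm_num))
    (by norm_num) (by norm_num) (by norm_num) (by norm_num) rfl rfl (by norm_num) rfl rfl rfl (by norm_num) (by norm_num) (by norm_num) (by norm_num) (by norm_num) (by norm_num) (by norm_num) (by norm_num) (by norm_num) (by norm_num) (by norm_num) (by norm_num) (by norm_num) (by norm_num) (by norm_num) (by norm_num) (by norm_num) (by norm_num)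
    (expn 8 0.9059 (by norm_num) (by norm_num) (E := 0.00013748) (by norm_num) (by norm_num)) (by norm_num) (by norm_num) (by norm_num) (by norm_num) (by norm_num) (by norm_num) (by norm_num) (by norm_num) (by norm_num) H.hq1 (by norm_num) (by norm_num)
    (expn 8 0.3169 (by norm_num) (by norm_num) (E := 0.00024444) (by norm_num) (by norm_num)) (by norm_num) (by norm_num)


theorem twm1s (H : D6 β r t κ s h T) (B : BX6 0.45 0.6 0.44118 0.37422 10 0.06 8.0633 β r κ T) (h1 : 0.45 ≤ s) (h2 : s ≤ 0.58) :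
    ‖Xf β r h (t + β) (-1)‖ ≤ (0.00116 + 0.001104) * ‖Xf β r h t 0‖ ∧
    r * ‖Xf β r h (t + β) (-1)‖ ≤ (1.2402 * 8.0633 * 0.00116 + 10 * 0.001104) * ‖Xf β r h t 0‖ := by
  obtain ⟨hs5, hs6⟩ := H.bh (b := 0.0573) B.hb (by norm_num)
  have hr := rgL (a := (-2)) (b1 := 1.427) (b2 := 1.6232) H.h1 H.h2 (by linarith : 0.45 ≤ s + β / h) (by linarith : s + β / h ≤ 0.6373) (by norm_num) (by norm_num) (by norm_num)
  have e : s + β / h + ((-1 : ℤ) : ℝ) - 1 = s + β / h + (-2) := by push_cast; ring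
  exact cellLW (k := -1) (Y := ‖Xf β r h t 0‖) (g := 0.6097 * (s - 1) ^ 2) 0.97 0.5873 0.45 0.6 0.44118 0.37422 1.427 1.6232 _ _ _ _ _ 0.03842 2.9874 10 0.06 0.5948 0 1.2515 0.9467 0.98303 8.0633 0.00036651 0.00116 1.09663 0.18444 0.8766 0.8317 3.1623 0.00024444 0.001104 1.2402 1.09662
    H.hβ H.hκ H.shift.hs H.hT H.h0 H.hq2 (by norm_num) B.hk1 B.hk2 B.hψ B.hψ1 (by rw [e]; exact hr.1) (by rw [e]; exact hr.2)
    B.hR B.hb B.hT (y0w H B (by linarith) (by linarith)) (by positivity) (gD (by norm_num) (by linarith : 0.45 ≤ s) (by linarith) (by norm_num))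
    (by rw [e]; exact qC (s1 := 0.45) (s2 := 0.58) (b := 0.0573) (by norm_num) (by norm_num) h1 h2 hs6 (by norm_num) (by norm_num) (by norm_num))
    (by norm_num) (by norm_num) (by norm_num) (by norm_num) rfl rfl (by norm_num) rfl rfl rfl (by norm_num) (by norm_num) (by norm_num) (by norm_num) (by norm_num) (by norm_num) (by norm_num) (by norm_num) (by norm_num) (by norm_num) (by norm_num) (by norm_num) (by norm_num) (by norm_num) (by norm_num) (by norm_num) (by norm_num) (by norm_num)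
    (expn 7 0.9264 (by norm_num) (by norm_num) (E := 0.00036651) (by norm_num) (by norm_num)) (by norm_num) (by norm_num) (by norm_num) (by norm_num) (by norm_num) (by norm_num) (by norm_num) (by norm_num) (by norm_num) H.hq1 (by norm_num) (by norm_num)
    (expn 8 0.3169 (by norm_num) (by norm_num) (E := 0.00024444) (by norm_num) (by norm_num)) (by norm_num) (by norm_num)


theorem twm2 (H : D6 β r t κ s h T) (B : BX6 0.45 0.6 0.44118 0.37422 10 0.06 8.0633 β r κ T) (h1 : 0.45 ≤ s) (h2 : s ≤ 0.58) :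
    ‖Xf β r h (t) (-2)‖ ≤ (0.00002 + 0.00094) * ‖Xf β r h t 0‖ ∧
    r * ‖Xf β r h (t) (-2)‖ ≤ (1.2402 * 8.0633 * 0.00002 + 10 * 0.00094) * ‖Xf β r h t 0‖ := by
  have hr := rgL (a := (-3)) (b1 := 2.5342) (b2 := 2.6704) H.h1 H.h2 h1 h2 (by norm_num) (by norm_num) (by norm_num)
  have e : s + ((-2 : ℤ) : ℝ) - 1 = s + (-3) := by push_cast; ring
  exact cellLW (k := -2) (Y := ‖Xf β r h t 0‖) (g := 0.6097 * (s - 1) ^ 2) 0.31 0.2684 0.45 0.6 0.44118 0.37422 2.5342 2.6704 _ _ _ _ _ 0.22318 1.9243 10 0.06 0.5948 0 1.0659 0.9467 1.4643 8.0633 0.0000075226 0.00002 1.09663 0.18444 0.8766 0.8317 3.1623 0.00024444 0.00094 1.2402 1.09662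
    H.hβ H.hκ H.hs H.hT H.h0 H.hq2 (by norm_num) B.hk1 B.hk2 B.hψ B.hψ1 (by rw [e]; exact hr.1) (by rw [e]; exact hr.2)
    B.hR B.hb B.hT (y0w H B (by linarith) (by linarith)) (by positivity) (gD (by norm_num) (by linarith : 0.45 ≤ s) (by linarith) (by norm_num))
    (by rw [e]; exact qC (s1 := 0.45) (s2 := 0.58) (b := 0) (by norm_num) (by norm_num) h1 h2 (by linarith) (by norm_num) (by norm_num) (by norm_num))
    (by norm_num) (by norm_num) (by norm_num) (by norm_num) rfl rfl (by norm_num) rfl rfl rfl (by norm_num) (by norm_num) (by norm_num) (by norm_num) (by norm_num) (by norm_num) (by norm_num) (by norm_num) (by norm_num) (by norm_num) (by norm_num) (by norm_num) (by norm_num) (by norm_num) (by norm_num) (by norm_num) (by norm_num) (by norm_num)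
    (expn 11 0.807 (by norm_num) (by norm_num) (E := 0.0000075226) (by norm_num) (by norm_num)) (by norm_num) (by norm_num) (by norm_num) (by norm_num) (by norm_num) (by norm_num) (by norm_num) (by norm_num) (by norm_num) H.hq1 (by norm_num) (by norm_num)
    (expn 8 0.3169 (by norm_num) (by norm_num) (E := 0.00024444) (by norm_num) (by norm_num)) (by norm_num) (by norm_num)


theorem twm2s (H : D6 β r t κ s h T) (B : BX6 0.45 0.6 0.44118 0.37422 10 0.06 8.0633 β r κ T) (h1 : 0.45 ≤ s) (h2 : s ≤ 0.58) :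
    ‖Xf β r h (t + β) (-2)‖ ≤ (0.00002 + 0.000947) * ‖Xf β r h t 0‖ ∧
    r * ‖Xf β r h (t + β) (-2)‖ ≤ (1.2402 * 8.0633 * 0.00002 + 10 * 0.000947) * ‖Xf β r h t 0‖ := by
  obtain ⟨hs5, hs6⟩ := H.bh (b := 0.0573) B.hb (by norm_num)
  have hr := rgL (a := (-3)) (b1 := 2.4742) (b2 := 2.6704) H.h1 H.h2 (by linarith : 0.45 ≤ s + β / h) (by linarith : s + β / h ≤ 0.6373) (by norm_num) (by norm_num) (by norm_num)
  have e : s + β / h + ((-2 : ℤ) : ℝ) - 1 = s + β / h + (-3) := by push_cast; ring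
  exact cellLW (k := -2) (Y := ‖Xf β r h t 0‖) (g := 0.6097 * (s - 1) ^ 2) 0.32 0.2757 0.45 0.6 0.44118 0.37422 2.4742 2.6704 _ _ _ _ _ 0.21591 1.9403 10 0.06 0.5948 0 1.0729 0.9467 1.4315 8.0633 0.0000097305 0.00002 1.09663 0.18444 0.8766 0.8317 3.1623 0.00024444 0.000947 1.2402 1.09662
    H.hβ H.hκ H.shift.hs H.hT H.h0 H.hq2 (by norm_num) B.hk1 B.hk2 B.hψ B.hψ1 (by rw [e]; exact hr.1) (by rw [e]; exact hr.2)
    B.hR B.hb B.hT (y0w H B (by linarith) (by linarith)) (by positivity) (gD (by norm_num) (by linarith : 0.45 ≤ s) (by linarith) (by norm_num))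
    (by rw [e]; exact qC (s1 := 0.45) (s2 := 0.58) (b := 0.0573) (by norm_num) (by norm_num) h1 h2 hs6 (by norm_num) (by norm_num) (by norm_num))
    (by norm_num) (by norm_num) (by norm_num) (by norm_num) rfl rfl (by norm_num) rfl rfl rfl (by norm_num) (by norm_num) (by norm_num) (by norm_num) (by norm_num) (by norm_num) (by norm_num) (by norm_num) (by norm_num) (by norm_num) (by norm_num) (by norm_num) (by norm_num) (by norm_num) (by norm_num) (by norm_num) (by norm_num) (by norm_num)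
    (expn 11 0.5426 (by norm_num) (by norm_num) (E := 0.0000097305) (by norm_num) (by norm_num)) (by norm_num) (by norm_num) (by norm_num) (by norm_num) (by norm_num) (by norm_num) (by norm_num) (by norm_num) (by norm_num) H.hq1 (by norm_num) (by norm_num)
    (expn 8 0.3169 (by norm_num) (by norm_num) (E := 0.00024444) (by norm_num) (by norm_num)) (by norm_num) (by norm_num)


theorem tw3 (H : D6 β r t κ s h T) (B : BX6 0.45 0.6 0.44118 0.37422 10 0.06 8.0633 β r κ T) (h1 : 0.45 ≤ s) (h2 : s ≤ 0.58) :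
    ‖Xf β r h (t) 3‖ ≤ 0.001233 * ‖Xf β r h t 1‖ ∧
    r * ‖Xf β r h (t) 3‖ ≤ (10 * 0.001233) * ‖Xf β r h t 1‖ := by
  have hr := rgR (a := 2) (τ1 := 2.5656) (τm := 2.7018) H.h1 H.h2 h1 h2 (by norm_num) (by norm_num) (by norm_num)
  have e : (s + ((3 : ℤ) : ℝ) - 1) * h + 2 * Real.pi * ((0 : ℤ) : ℝ) = (s + 2) * h := by push_cast; ring
  exact cellUW (k := 3) (Y := ‖Xf β r h t 1‖) (g := 0.4653 * s ^ 2) 0 0.45 0.6 1.9655 2.7018 0.01 10 0.06 0.5948 0.01 1.542 0.8955 1.09663 0.15653 0.8292 0.8572 3.1623 0.00020957 0.001233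
    H.hβ H.hκ H.hs H.hT H.h0 H.hq2 (by norm_num) B.hk1 B.hk2 (by rw [e]; linarith [hr.1, B.hk2]) (by rw [e]; exact hr.2)
    B.hR B.hb (y1w H B (by linarith) (by linarith)) (by positivity) (gA (by norm_num) (by linarith) (by linarith : s ≤ 0.58) (by norm_num))
    (by norm_num) (by norm_num) (by norm_num) (by norm_num) (by norm_num) (by norm_num) (by norm_num) (by norm_num) (by norm_num) (by norm_num) (by norm_num) (by norm_num) (by norm_num) (by norm_num) (by norm_num) (by norm_num) (by norm_num) (by norm_num) (by norm_num) 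
    (expn 8 0.4719 (by norm_num) (by norm_num) (E := 0.00020957) (by norm_num) (by norm_num)) (by norm_num) (by norm_num)


theorem tw3s (H : D6 β r t κ s h T) (B : BX6 0.45 0.6 0.44118 0.37422 10 0.06 8.0633 β r κ T) (h1 : 0.45 ≤ s) (h2 : s ≤ 0.58) :
    ‖Xf β r h (t + β) 3‖ ≤ 0.001233 * ‖Xf β r h t 1‖ ∧
    r * ‖Xf β r h (t + β) 3‖ ≤ (10 * 0.001233) * ‖Xf β r h t 1‖ := by
  obtain ⟨hs5, hs6⟩ := H.bh (b := 0.0573) B.hb (by norm_num)
  have hr := rgR (a := 2) (τ1 := 2.5656) (τm := 2.7618) H.h1 H.h2 (by linarith : 0.45 ≤ s + β / h) (by linarith : s + β / h ≤ 0.6373) (by norm_num) (by norm_num) (by norm_num)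
  have e : (s + β / h + ((3 : ℤ) : ℝ) - 1) * h + 2 * Real.pi * ((0 : ℤ) : ℝ) = (s + β / h + 2) * h := by push_cast; ring
  exact cellUW (k := 3) (Y := ‖Xf β r h t 1‖) (g := 0.4653 * s ^ 2) 0 0.45 0.6 1.9655 2.7618 0.01 10 0.06 0.5948 0.01 1.542 0.8955 1.09663 0.15653 0.8292 0.8572 3.1623 0.00020957 0.001233
    H.hβ H.hκ H.shift.hs H.hT H.h0 H.hq2 (by norm_num) B.hk1 B.hk2 (by rw [e]; linarith [hr.1, B.hk2]) (by rw [e]; exact hr.2)
    B.hR B.hb (y1w H B (by linarith) (by linarith)) (by positivity) (gA (by norm_num) (by linarith) (by linarith : s ≤ 0.58) (by norm_num))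
    (by norm_num) (by norm_num) (by norm_num) (by norm_num) (by norm_num) (by norm_num) (by norm_num) (by norm_num) (by norm_num) (by norm_num) (by norm_num) (by norm_num) (by norm_num) (by norm_num) (by norm_num) (by norm_num) (by norm_num) (by norm_num) (by norm_num) 
    (expn 8 0.4719 (by norm_num) (by norm_num) (E := 0.00020957) (by norm_num) (by norm_num)) (by norm_num) (by norm_num)


theorem win (H : D6 β r t κ s h T) (B : BX6 0.45 0.6 0.44118 0.37422 10 0.06 8.0633 β r κ T) (h1 : 0.45 ≤ s) (h2 : s ≤ 0.58) :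
    Win6 β r h t 5.213 0.016602 0.001545 0.001233 0.00096 0.7885 0.089 0.092 0.0776 := by
  have hk1 := B.hk1
  have hk2 := B.hk2
  have hk0 := H.k0
  have hr := rgR (a := 0) (τ1 := 0.4712) (τm := 0.6075) H.h1 H.h2 h1 h2 (by norm_num) (by norm_num) (by norm_num)
  rw [add_zero, ← H.hs] at hr
  obtain ⟨ha, hb⟩ := hr
  have hr0 := rgL (a := (-1)) (b1 := 0.4398) (b2 := 0.576) H.h1 H.h2 h1 h2 (by norm_num) (by norm_num) (by norm_num)
  have e0 : (s + -1) * h = (t - h) + κ := by rw [H.a0]; ring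
  rw [e0] at hr0
  obtain ⟨ha0, hb0⟩ := hr0
  have hD := H.dom' (t' := t) (by linarith) (by linarith)
  have hy1 : 0.144 ≤ sy κ t := syR_ge hD 0.45 0.6 0.4712 0.144 1.15488 1.15489 0.27717 0.36957 hk1 hk2 (by linarith) (by norm_num) (by norm_num)
    (expn_ge (by norm_num) (by norm_num)) (expn_le (by norm_num) (by norm_num) (by norm_num)) (by norm_num)
    (by norm_num) (by norm_num) (by norm_num) (by norm_num) (by norm_num) (by norm_num)
  have hy2 : sy κ t ≤ 0.211 := syR_le hD 0.45 0.6 0.6075 0.211 1.23491 0.4101 0.43427 0.57905 hk1 hk2 (by linarith) (by norm_num) (by norm_num)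
    (expn_ge (by norm_num) (by norm_num)) (by norm_num) (by norm_num) (Or.inr ((mul_le_mul_of_nonneg_left (expn_le (E := 1.23492) (by norm_num) (by norm_num) (by norm_num)) (by norm_num)).trans (by norm_num))) (by norm_num) (by norm_num) (by norm_num)
  have hy10 := hy1
  have hy20 := hy2
  clear hy1 hy2
  have hD1 := hD
  clear hD
  have hD := H.dom' (t' := t - h) (by linarith) (by linarith)
  have hy1 : -0.334 ≤ sy κ (t - h) := syL_ge hD 0.45 0.6 0.576 0.334 0.71605 0.71606 0.3985 0.3986 0.53148 hk1 hk2 (by linarith) (by norm_num) (by norm_num) (by norm_num)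
    (expm_ge (by norm_num) (by norm_num) (by norm_num) (by norm_num)) (expm_le (by norm_num) (by norm_num) (by norm_num)) (by norm_num)
    (by norm_num) (by norm_num) (by norm_num) (by norm_num) (by norm_num) (by norm_num)
  have hy2 : sy κ (t - h) ≤ -0.202 := syL_le hD 0.45 0.6 0.4398 0.202 0.81709 0.8171 0.27508 0.36679 hk1 hk2 (by linarith) (by norm_num) (by norm_num) (by norm_num)
    (expm_ge (by norm_num) (by norm_num) (by norm_num) (by norm_num)) (expm_le (by norm_num) (by norm_num) (by norm_num)) (by norm_num)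
    (by norm_num) (by norm_num) (by norm_num) (by norm_num) (by norm_num) (by norm_num)
  have hJ1 := JD6c_0 hD1 H.hβ (by linarith) (by linarith) (by linarith) (by linarith) H.ble H.bc'
  have hJ0 := JD6a_1 hD H.hβ (by linarith) (by linarith) (by linarith) (by linarith) H.ble H.bc'
  have hρ1 := rho_le hD1 (k2 := 0.6) (yl := 0.144) (E := 0.86589) (ρ := 0.4163) hk2 hy10 (expm_le (by norm_num) (by norm_num) (by norm_num)) (by norm_num) (by norm_num) (by norm_num) (by norm_num)
  have hρ0 := rho_le hD (k2 := 0.6) (yl := (-0.334)) (E := 1.39655) (ρ := 0.824) hk2 hy1 (by rw [neg_neg]; exact expn_le (by norm_num) (by norm_num) (by norm_num)) (by norm_num) (by norm_num) (by norm_num) (by norm_num)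
  have he1 : ‖Ld β r h t 1 - (sg κ t / β + Gc6 κ t)‖ ≤ 0.1461 := (Ld_near (k := 1) (δ := 0.15) (ε := 0.05) (ρ := 0.4163) H.hβ H.hκ (by push_cast; ring) hD1 (by norm_num) (by norm_num) (by norm_num) (by linarith) hJ1 hρ1).trans (by norm_num)
  have he0 : ‖Ld β r h t 0 - (sg κ (t - h) / β + Gc6 κ (t - h))‖ ≤ 0.7491 := (Ld_near (k := 0) (δ := 0.15) (ε := 0.12) (ρ := 0.824) H.hβ H.hκ (by push_cast; ring) hD (by norm_num) (by norm_num) (by norm_num) (by linarith) hJ0 hρ0).trans (by norm_num)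
  have hg1 := gam_le hD1 (yl := 0.144) (γ := 0.2203) hy10 (by norm_num) (by norm_num) (by norm_num)
  have hg0 := gam_le hD (yl := (-0.334)) (γ := 0.4339) hy1 (by norm_num) (by norm_num) (by norm_num)
  have hDl1 : 1.3774 ≤ sD κ t := by
    refine le_trans ?_ (D_lo6 hD1 0.45 0.6 0.144 0.211 0.144 0.86588 1.1455 hk1 hk2 (by norm_num) hy10 hy20 (expm_ge (by norm_num) (by norm_num) (by norm_num) (by norm_num)) (by norm_num) (by norm_num) (by norm_num) (by norm_num) (by norm_num) (by norm_num))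
    nlinarith [pow_le_pow_left₀ (by norm_num) hk1 2]
  have hw1 : (κ * Real.exp (-sy κ t)) ^ 2 ≤ 1 := by
    have h4 : Real.exp (-sy κ t) ≤ 0.86589 := (Real.exp_le_exp.2 (by linarith : -sy κ t ≤ -0.144)).trans (expm_le (by norm_num) (by norm_num) (by norm_num))
    have h3 : κ * Real.exp (-sy κ t) ≤ 0.6 * 0.86589 := mul_le_mul hk2 h4 (Real.exp_pos _).le (by norm_num)
    refine (pow_le_pow_left₀ (by positivity) h3 2).trans (by norm_num)
  have hG1 : -(0 : ℝ) ≤ (Gc6 κ t).im := by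
    refine le_trans ?_ (Gim_ge hD1 hg1 hw1 (by norm_num) (by norm_num : (0:ℝ) < 1.3774) hDl1)
    norm_num
  have hDl0 : 0.7269 ≤ sD κ (t - h) := by
    refine le_trans ?_ (D_lo6 hD 0.45 0.6 (-0.334) (-0.202) (-0.334) 1.39654 0.6045 hk1 hk2 (by norm_num) hy1 hy2 (by rw [neg_neg]; exact expn_ge (by norm_num) (by norm_num)) (by norm_num) (by norm_num) (by norm_num) (by norm_num) (by norm_num) (by norm_num))
    nlinarith [pow_le_pow_left₀ (by norm_num) hk1 2]
  have hw0 : 0.3033 ≤ (κ * Real.exp (-sy κ (t - h))) ^ 2 := by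
    have h4 : 1.22384 ≤ Real.exp (-sy κ (t - h)) := le_trans (by rw [neg_neg]; exact expn_ge (by norm_num) (by norm_num)) (Real.exp_le_exp.2 (by linarith : -(-0.202) ≤ -sy κ (t - h)))
    have h3 : 0.45 * 1.22384 ≤ κ * Real.exp (-sy κ (t - h)) := mul_le_mul hk1 h4 (by norm_num) hk0.le
    refine le_trans (by norm_num) (pow_le_pow_left₀ (by norm_num) h3 2)
  have hG0 : (Gc6 κ (t - h)).im ≤ 0.4159 := by
    refine (Gim_le hD hg0 hw0 (by norm_num) (by norm_num : (0:ℝ) < 0.7269) hDl0).trans ?_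
    norm_num
  have hsl := slope6 H hD hD1 (c1 := 0.737) (c0 := 1) (g0 := 0.4159) (g1 := 0) (m := 5.213) (T0 := 8.0633) (μ := 0.8474) he0 he1 (pR_070 hD1 (by linarith) (by linarith) (by linarith))
    (by rw [one_mul]; exact pL_one hD (by linarith) H.hk2 (by linarith) (by linarith)) hG1 hG0 (by linarith) (by norm_num) B.hT (by norm_num) (by norm_num) (by norm_num)
  have hL1 := Ln6 H hD1 (E := 0.86589) he1 hg1 hy10 (expm_le (by norm_num) (by norm_num) (by norm_num))
  have hL0 := Ln6 H hD (E := 1.39655) he0 hg0 hy1 (by rw [neg_neg]; exact expn_le (by norm_num) (by norm_num) (by norm_num))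
  have hds := dist6 H hD hD1 h1 h2 (dy := 0.545) (k1 := 0.45) (lam := 2.6235) (by linarith) hk1 (by norm_num) (by norm_num) (by norm_num)
  have hA := Ldd6 H he0 he1 hg0 hg1 hds
  obtain ⟨l2, l3, lm1, lm2⟩ := Lam6 hA hL0 hL1
  have q2 := tw2 H B h1 h2
  have q2s := tw2s H B h1 h2
  have qm1 := twm1 H B h1 h2
  have qm1s := twm1s H B h1 h2
  have qm2 := twm2 H B h1 h2
  have qm2s := twm2s H B h1 h2
  have q3 := tw3 H B h1 h2
  have q3s := tw3s H B h1 h2
  have hX1 := norm_nonneg (Xf β r h t 1)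
  have hX0 := norm_nonneg (Xf β r h t 0)
  have hYp := lt_of_lt_of_le (mul_pos (eN_pos r κ) (by positivity)) (y0w H B h1 h2)
  refine ⟨norm_pos_iff.1 hYp, q2.1.trans (mul_le_mul_of_nonneg_right (by norm_num) hX1), q3.1.trans (mul_le_mul_of_nonneg_right (by norm_num) hX1),
    qm1.1.trans (mul_le_mul_of_nonneg_right (by norm_num) hX0), qm2.1.trans (mul_le_mul_of_nonneg_right (by norm_num) hX0),
    wsum6 q2s.2 q2.1 q2.2 (lam := 3.48939) (c := 1.9158) (l2.trans (le_of_eq (by ring))) (norm_nonneg _) (by norm_num) (by norm_num) hX1 (by norm_num),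
    wsum6 q3s.2 q3.1 q3.2 (lam := 6.11289) (c := 3.4652) (l3.trans (le_of_eq (by ring))) (norm_nonneg _) (by norm_num) (by norm_num) hX1 (by norm_num),
    wsum6 qm1s.2 qm1.1 qm1.2 (lam := 4.02005) (c := 2.7324) (lm1.trans (le_of_eq (by ring))) (norm_nonneg _) (by norm_num) (by norm_num) hX0 (by norm_num),
    wsum6 qm2s.2 qm2.1 qm2.2 (lam := 6.64355) (c := 4.2818) (lm2.trans (le_of_eq (by ring))) (norm_nonneg _) (by norm_num) (by norm_num) hX0 (by norm_num), hsl⟩


/-- box 0.45 ≤ κ ≤ 0.6 -/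
theorem box {p : ℤ} (hp : IsCoprime (6 : ℤ) p) {β r κ : ℝ} (hβ : 0 < β) (hr : 10 ≤ r) (hκ : κ = β * r)
    (hc : 4.9619 * (1 + κ ^ 2) ≤ r) (hk1 : 0.45 ≤ κ) (hk2 : κ ≤ 0.6) : Circ (2 * Real.pi * p / 6 + β) r := by
  refine circ6 hp hβ hr hκ hc (by linarith) (by linarith) (slo := 0.45) (shi := 0.58) (m := 5.213) (E2 := 0.016602) (Em1 := 0.001545) (E3 := 0.001233)
    (Em2 := 0.00096) (W2 := 0.7885) (Wm1 := 0.089) (W3 := 0.092) (Wm2 := 0.0776) (a := 1.05)
    (by norm_num) (by norm_num) (by norm_num) (by norm_num) (by norm_num) (by norm_num) (by norm_num) (by norm_num) (by norm_num)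
    (by norm_num) (by norm_num) (by norm_num)
    (fun t s h T H h1 h2 => win H (mkB H hk1 hk2) h1 h2) ?_ ?_
  · intro t s h T H h1 h2
    have B := mkB H hk1 hk2
    rcases le_total s 0.25 with g0 | f0
    · exact outL0 H B h1 g0
    rcases le_total s 0.35 with g1 | f1
    · exact outL1 H B f0 g1
    rcases le_total s 0.43 with g2 | f2
    · exact outL2 H B f1 g2
    exact outL3 H B f2 h2
  · intro t s h T H h1 h2
    have B := mkB H hk1 hk2
    rcases le_total s 0.6 with g0 | f0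
    · exact outR0 H B h1 g0
    rcases le_total s 0.65 with g1 | f1
    · exact outR1 H B f0 g1
    rcases le_total s 0.75 with g2 | f2
    · exact outR2 H B f1 g2
    exact outR3 H B f2 h2

end Sok.B6K1
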