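import Pool.Agent.Lib.MP_816dec_an.JBG2

/-!
MP_816dec_an (A3, row R1): discs of radius .15 around the saddle of the copy 0, b = 6.
-/

set_option autoImplicit false
set_option maxHeartbeats 4000000

open Complex Set

namespace Sok

private theorem JD6b_p0_c0_b0_0 {β x y : ℝ} (hβ : 0 < β) (hN : β * 11.494 ≤ 1) (hx1 : 0.7475 ≤ x) (hx2 : x ≤ 0.7575)
    (hy1 : -0.491 ≤ y) (hy2 : y ≤ -0.411) : ‖HH β (x + y * I) - 1‖ ≤ 0.14 := by
  refine le_epsJ (C := 1.6088) (N0 := 11.494) (J_boxp 0.7475 0.7575 0.491 0 (-0.411) 0.8877 0.9028 0.9596 1.1713 0.3909 3.3903 11.494 1.0171 4.261 1.593 0.6755 0.4438 0.2933 0.4891 2.0858 0.4498 1.5349 1.731 3.753 0.006091 0.03436 0.003623 0.0000003101 0.005685 0.0000003101 0.0000003101 0.0000003101 1.6088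
    hβ hN hx1 hx2 hy1 hy2 (by norm_num) (by norm_num) (by linarith) (by norm_num) (by norm_num) (by norm_num) (by norm_num) (by norm_num) (by norm_num) (by norm_num) (by norm_num) (by norm_num) (by norm_num) (by norm_num) (by norm_num) (by norm_num) (by norm_num) (by norm_num) (by norm_num) (by norm_num) (by norm_num) (by norm_num) (by norm_num) (by norm_num)
    (cube_sqrt_geJ (s := 0.8129) (by norm_num) (by norm_num) (by norm_num) (by norm_num))
    (cube_sqrt_geJ (s := 0.9356) (by norm_num) (by norm_num) (by norm_num) (by norm_num))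
    (by norm_num) (by norm_num) (by norm_num) (by norm_num) (by norm_num) (by norm_num) (by norm_num) (by norm_num) (by norm_num) (by norm_num) (by norm_num) (by norm_num) (by norm_num) (by norm_num) (by norm_num) (by norm_num) (by norm_num) (by norm_num)
    (exp_neg_leJ (r := 0.101) 5 (by norm_num) (by norm_num) (by norm_num) (by norm_num))
    (exp_neg_leJ (r := 0.371) 3 (by norm_num) (by norm_num) (by norm_num) (by norm_num))
    (exp_neg_leJ (r := 0.621) 5 (by norm_num) (by norm_num) (by norm_num) (by norm_num))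
    (exp_neg_leJ (r := 0.99) 14 (by norm_num) (by norm_num) (by norm_num) (by norm_num))
    (exp_neg_leJ (r := 0.17) 5 (by norm_num) (by norm_num) (by norm_num) (by norm_num))
    (exp_neg_leJ (r := 0.99) 14 (by norm_num) (by norm_num) (by norm_num) (by norm_num))
    (exp_neg_leJ (r := 0.99) 14 (by norm_num) (by norm_num) (by norm_num) (by norm_num))
    (exp_neg_leJ (r := 0.99) 14 (by norm_num) (by norm_num) (by norm_num) (by norm_num))
    (by norm_num)) (by norm_num) hN hβ.le (by norm_num)

private theorem JD6b_p0_c0_b0_1 {β x y : ℝ} (hβ : 0 < β) (hN : β * 11.494 ≤ 1) (hx1 : 0.7575 ≤ x) (hx2 : x ≤ 0.7675)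
    (hy1 : -0.491 ≤ y) (hy2 : y ≤ -0.411) : ‖HH β (x + y * I) - 1‖ ≤ 0.14 := by
  refine le_epsJ (C := 1.5923) (N0 := 11.494) (J_boxp 0.7575 0.7675 0.491 0 (-0.411) 0.8948 0.9112 0.9675 1.1621 0.3925 3.3903 11.494 1.0184 4.27 1.594 0.6716 0.4473 0.2955 0.4925 2.0805 0.4547 1.5488 1.751 3.7501 0.005852 0.03351 0.003485 0.0000003101 0.005376 0.0000003101 0.0000003101 0.0000003101 1.5923
    hβ hN hx1 hx2 hy1 hy2 (by norm_num) (by norm_num) (by linarith) (by norm_num) (by norm_num) (by norm_num) (by norm_num) (by norm_num) (by norm_num) (by norm_num) (by norm_num) (by norm_num) (by norm_num) (by norm_num) (by norm_num) (by norm_num) (by norm_num) (by norm_num) (by norm_num) (by norm_num) (by norm_num) (by norm_num) (by norm_num) (by norm_num)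
    (cube_sqrt_geJ (s := 0.8127) (by norm_num) (by norm_num) (by norm_num) (by norm_num))
    (cube_sqrt_geJ (s := 0.9355) (by norm_num) (by norm_num) (by norm_num) (by norm_num))
    (by norm_num) (by norm_num) (by norm_num) (by norm_num) (by norm_num) (by norm_num) (by norm_num) (by norm_num) (by norm_num) (by norm_num) (by norm_num) (by norm_num) (by norm_num) (by norm_num) (by norm_num) (by norm_num) (by norm_num) (by norm_num)
    (exp_neg_leJ (r := 0.141) 5 (by norm_num) (by norm_num) (by norm_num) (by norm_num))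
    (exp_neg_leJ (r := 0.396) 3 (by norm_num) (by norm_num) (by norm_num) (by norm_num))
    (exp_neg_leJ (r := 0.66) 5 (by norm_num) (by norm_num) (by norm_num) (by norm_num))
    (exp_neg_leJ (r := 0.99) 14 (by norm_num) (by norm_num) (by norm_num) (by norm_num))
    (exp_neg_leJ (r := 0.226) 5 (by norm_num) (by norm_num) (by norm_num) (by norm_num))
    (exp_neg_leJ (r := 0.99) 14 (by norm_num) (by norm_num) (by norm_num) (by norm_num))
    (exp_neg_leJ (r := 0.99) 14 (by norm_num) (by norm_num) (by norm_num) (by norm_num))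
    (exp_neg_leJ (r := 0.99) 14 (by norm_num) (by norm_num) (by norm_num) (by norm_num))
    (by norm_num)) (by norm_num) hN hβ.le (by norm_num)

private theorem JD6b_p0_c0_b0_2 {β x y : ℝ} (hβ : 0 < β) (hN : β * 11.494 ≤ 1) (hx1 : 0.7675 ≤ x) (hx2 : x ≤ 0.7775)
    (hy1 : -0.491 ≤ y) (hy2 : y ≤ -0.411) : ‖HH β (x + y * I) - 1‖ ≤ 0.14 := by
  refine le_epsJ (C := 1.5777) (N0 := 11.494) (J_boxp 0.7675 0.7775 0.491 0 (-0.411) 0.9018 0.9196 0.9755 1.1534 0.3941 3.3903 11.494 1.0198 4.281 1.596 0.6678 0.4508 0.2976 0.4959 2.0751 0.4595 1.5626 1.771 3.7473 0.005623 0.03272 0.003352 0.0000003101 0.005088 0.0000003101 0.0000003101 0.0000003101 1.5777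
    hβ hN hx1 hx2 hy1 hy2 (by norm_num) (by norm_num) (by linarith) (by norm_num) (by norm_num) (by norm_num) (by norm_num) (by norm_num) (by norm_num) (by norm_num) (by norm_num) (by norm_num) (by norm_num) (by norm_num) (by norm_num) (by norm_num) (by norm_num) (by norm_num) (by norm_num) (by norm_num) (by norm_num) (by norm_num) (by norm_num) (by norm_num)
    (cube_sqrt_geJ (s := 0.8124) (by norm_num) (by norm_num) (by norm_num) (by norm_num))
    (cube_sqrt_geJ (s := 0.9354) (by norm_num) (by norm_num) (by norm_num) (by norm_num))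
    (by norm_num) (by norm_num) (by norm_num) (by norm_num) (by norm_num) (by norm_num) (by norm_num) (by norm_num) (by norm_num) (by norm_num) (by norm_num) (by norm_num) (by norm_num) (by norm_num) (by norm_num) (by norm_num) (by norm_num) (by norm_num)
    (exp_neg_leJ (r := 0.181) 5 (by norm_num) (by norm_num) (by norm_num) (by norm_num))
    (exp_neg_leJ (r := 0.42) 3 (by norm_num) (by norm_num) (by norm_num) (by norm_num))
    (exp_neg_leJ (r := 0.699) 5 (by norm_num) (by norm_num) (by norm_num) (by norm_num))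
    (exp_neg_leJ (r := 0.99) 14 (by norm_num) (by norm_num) (by norm_num) (by norm_num))
    (exp_neg_leJ (r := 0.281) 5 (by norm_num) (by norm_num) (by norm_num) (by norm_num))
    (exp_neg_leJ (r := 0.99) 14 (by norm_num) (by norm_num) (by norm_num) (by norm_num))
    (exp_neg_leJ (r := 0.99) 14 (by norm_num) (by norm_num) (by norm_num) (by norm_num))
    (exp_neg_leJ (r := 0.99) 14 (by norm_num) (by norm_num) (by norm_num) (by norm_num))
    (by norm_num)) (by norm_num) hN hβ.le (by norm_num)

private theorem JD6b_p0_c0_b0_3 {β x y : ℝ} (hβ : 0 < β) (hN : β * 11.494 ≤ 1) (hx1 : 0.7775 ≤ x) (hx2 : x ≤ 0.7975)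
    (hy1 : -0.491 ≤ y) (hy2 : y ≤ -0.411) : ‖HH β (x + y * I) - 1‖ ≤ 0.14 := by
  refine le_epsJ (C := 1.606) (N0 := 11.494) (J_boxp 0.7775 0.7975 0.491 0 (-0.411) 0.9088 0.9366 0.9915 1.1494 0.3973 3.3903 11.494 1.0306 4.363 1.604 0.6601 0.4543 0.2982 0.4994 2.0644 0.4644 1.5765 1.791 3.7211 0.005402 0.03249 0.003219 0.0000003101 0.004811 0.0000003101 0.0000003101 0.0000003101 1.606
    hβ hN hx1 hx2 hy1 hy2 (by norm_num) (by norm_num) (by linarith) (by norm_num) (by norm_num) (by norm_num) (by norm_num) (by norm_num) (by norm_num) (by norm_num) (by norm_num) (by norm_num) (by norm_num) (by norm_num) (by norm_num) (by norm_num) (by norm_num) (by norm_num) (by norm_num) (by norm_num) (by norm_num) (by norm_num) (by norm_num) (by norm_num)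
    (cube_sqrt_geJ (s := 0.8102) (by norm_num) (by norm_num) (by norm_num) (by norm_num))
    (cube_sqrt_geJ (s := 0.9347) (by norm_num) (by norm_num) (by norm_num) (by norm_num))
    (by norm_num) (by norm_num) (by norm_num) (by norm_num) (by norm_num) (by norm_num) (by norm_num) (by norm_num) (by norm_num) (by norm_num) (by norm_num) (by norm_num) (by norm_num) (by norm_num) (by norm_num) (by norm_num) (by norm_num) (by norm_num)
    (exp_neg_leJ (r := 0.221) 5 (by norm_num) (by norm_num) (by norm_num) (by norm_num))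
    (exp_neg_leJ (r := 0.427) 3 (by norm_num) (by norm_num) (by norm_num) (by norm_num))
    (exp_neg_leJ (r := 0.74) 5 (by norm_num) (by norm_num) (by norm_num) (by norm_num))
    (exp_neg_leJ (r := 0.99) 14 (by norm_num) (by norm_num) (by norm_num) (by norm_num))
    (exp_neg_leJ (r := 0.337) 5 (by norm_num) (by norm_num) (by norm_num) (by norm_num))
    (exp_neg_leJ (r := 0.99) 14 (by norm_num) (by norm_num) (by norm_num) (by norm_num))
    (exp_neg_leJ (r := 0.99) 14 (by norm_num) (by norm_num) (by norm_num) (by norm_num))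
    (exp_neg_leJ (r := 0.99) 14 (by norm_num) (by norm_num) (by norm_num) (by norm_num))
    (by norm_num)) (by norm_num) hN hβ.le (by norm_num)

private theorem JD6b_p0_c0_b0_4 {β x y : ℝ} (hβ : 0 < β) (hN : β * 11.494 ≤ 1) (hx1 : 0.7975 ≤ x) (hx2 : x ≤ 0.8175)
    (hy1 : -0.491 ≤ y) (hy2 : y ≤ -0.411) : ‖HH β (x + y * I) - 1‖ ≤ 0.14 := by
  refine le_epsJ (C := 1.577) (N0 := 11.494) (J_boxp 0.7975 0.8175 0.491 0 (-0.411) 0.9229 0.9537 1.0076 1.1322 0.4005 3.3903 11.494 1.0334 4.385 1.606 0.6524 0.4614 0.3024 0.5062 2.0536 0.4741 1.6042 1.831 3.7146 0.004977 0.03097 0.002979 0.0000003101 0.004302 0.0000003101 0.0000003101 0.0000003101 1.577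
    hβ hN hx1 hx2 hy1 hy2 (by norm_num) (by norm_num) (by linarith) (by norm_num) (by norm_num) (by norm_num) (by norm_num) (by norm_num) (by norm_num) (by norm_num) (by norm_num) (by norm_num) (by norm_num) (by norm_num) (by norm_num) (by norm_num) (by norm_num) (by norm_num) (by norm_num) (by norm_num) (by norm_num) (by norm_num) (by norm_num) (by norm_num)
    (cube_sqrt_geJ (s := 0.8096) (by norm_num) (by norm_num) (by norm_num) (by norm_num))
    (cube_sqrt_geJ (s := 0.9345) (by norm_num) (by norm_num) (by norm_num) (by norm_num))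
    (by norm_num) (by norm_num) (by norm_num) (by norm_num) (by norm_num) (by norm_num) (by norm_num) (by norm_num) (by norm_num) (by norm_num) (by norm_num) (by norm_num) (by norm_num) (by norm_num) (by norm_num) (by norm_num) (by norm_num) (by norm_num)
    (exp_neg_leJ (r := 0.303) 5 (by norm_num) (by norm_num) (by norm_num) (by norm_num))
    (exp_neg_leJ (r := 0.475) 3 (by norm_num) (by norm_num) (by norm_num) (by norm_num))
    (exp_neg_leJ (r := 0.818) 5 (by norm_num) (by norm_num) (by norm_num) (by norm_num))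
    (exp_neg_leJ (r := 0.99) 14 (by norm_num) (by norm_num) (by norm_num) (by norm_num))
    (exp_neg_leJ (r := 0.449) 5 (by norm_num) (by norm_num) (by norm_num) (by norm_num))
    (exp_neg_leJ (r := 0.99) 14 (by norm_num) (by norm_num) (by norm_num) (by norm_num))
    (exp_neg_leJ (r := 0.99) 14 (by norm_num) (by norm_num) (by norm_num) (by norm_num))
    (exp_neg_leJ (r := 0.99) 14 (by norm_num) (by norm_num) (by norm_num) (by norm_num))
    (by norm_num)) (by norm_num) hN hβ.le (by norm_num)

private theorem JD6b_p0_c0_b0_5 {β x y : ℝ} (hβ : 0 < β) (hN : β * 11.494 ≤ 1) (hx1 : 0.8175 ≤ x) (hx2 : x ≤ 0.8475)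
    (hy1 : -0.491 ≤ y) (hy2 : y ≤ -0.411) : ‖HH β (x + y * I) - 1‖ ≤ 0.14 := by
  refine le_epsJ (C := 1.592) (N0 := 11.494) (J_boxp 0.8175 0.8475 0.491 0 (-0.411) 0.937 0.9795 1.0321 1.1201 0.4053 3.3903 11.494 1.0454 4.48 1.616 0.6409 0.4684 0.3052 0.513 2.0374 0.4838 1.6319 1.871 3.6845 0.004595 0.03 0.002757 0.0000003101 0.00385 0.0000003101 0.0000003101 0.0000003101 1.592
    hβ hN hx1 hx2 hy1 hy2 (by norm_num) (by norm_num) (by linarith) (by norm_num) (by norm_num) (by norm_num) (by norm_num) (by norm_num) (by norm_num) (by norm_num) (by norm_num) (by norm_num) (by norm_num) (by norm_num) (by norm_num) (by norm_num) (by norm_num) (by norm_num) (by norm_num) (by norm_num) (by norm_num) (by norm_num) (by norm_num) (by norm_num)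
    (cube_sqrt_geJ (s := 0.8071) (by norm_num) (by norm_num) (by norm_num) (by norm_num))
    (cube_sqrt_geJ (s := 0.9338) (by norm_num) (by norm_num) (by norm_num) (by norm_num))
    (by norm_num) (by norm_num) (by norm_num) (by norm_num) (by norm_num) (by norm_num) (by norm_num) (by norm_num) (by norm_num) (by norm_num) (by norm_num) (by norm_num) (by norm_num) (by norm_num) (by norm_num) (by norm_num) (by norm_num) (by norm_num)
    (exp_neg_leJ (r := 0.383) 5 (by norm_num) (by norm_num) (by norm_num) (by norm_num))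
    (exp_neg_leJ (r := 0.507) 3 (by norm_num) (by norm_num) (by norm_num) (by norm_num))
    (exp_neg_leJ (r := 0.896) 5 (by norm_num) (by norm_num) (by norm_num) (by norm_num))
    (exp_neg_leJ (r := 0.99) 14 (by norm_num) (by norm_num) (by norm_num) (by norm_num))
    (exp_neg_leJ (r := 0.56) 5 (by norm_num) (by norm_num) (by norm_num) (by norm_num))
    (exp_neg_leJ (r := 0.99) 14 (by norm_num) (by norm_num) (by norm_num) (by norm_num))
    (exp_neg_leJ (r := 0.99) 14 (by norm_num) (by norm_num) (by norm_num) (by norm_num))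
    (exp_neg_leJ (r := 0.99) 14 (by norm_num) (by norm_num) (by norm_num) (by norm_num))
    (by norm_num)) (by norm_num) hN hβ.le (by norm_num)

private theorem JD6b_p0_c0_b0_6 {β x y : ℝ} (hβ : 0 < β) (hN : β * 11.494 ≤ 1) (hx1 : 0.8475 ≤ x) (hx2 : x ≤ 0.8875)
    (hy1 : -0.491 ≤ y) (hy2 : y ≤ -0.411) : ‖HH β (x + y * I) - 1‖ ≤ 0.14 := by
  refine le_epsJ (C := 1.5954) (N0 := 11.494) (J_boxp 0.8475 0.8875 0.491 0 (-0.411) 0.9581 1.0143 1.0652 1.1006 0.4118 3.3903 11.494 1.0587 4.588 1.626 0.6255 0.479 0.3099 0.5233 2.0157 0.4984 1.6734 1.931 3.6499 0.004068 0.02842 0.002445 0.0000003101 0.003257 0.0000003101 0.0000003101 0.0000003101 1.5954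
    hβ hN hx1 hx2 hy1 hy2 (by norm_num) (by norm_num) (by linarith) (by norm_num) (by norm_num) (by norm_num) (by norm_num) (by norm_num) (by norm_num) (by norm_num) (by norm_num) (by norm_num) (by norm_num) (by norm_num) (by norm_num) (by norm_num) (by norm_num) (by norm_num) (by norm_num) (by norm_num) (by norm_num) (by norm_num) (by norm_num) (by norm_num)
    (cube_sqrt_geJ (s := 0.8044) (by norm_num) (by norm_num) (by norm_num) (by norm_num))
    (cube_sqrt_geJ (s := 0.9329) (by norm_num) (by norm_num) (by norm_num) (by norm_num))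
    (by norm_num) (by norm_num) (by norm_num) (by norm_num) (by norm_num) (by norm_num) (by norm_num) (by norm_num) (by norm_num) (by norm_num) (by norm_num) (by norm_num) (by norm_num) (by norm_num) (by norm_num) (by norm_num) (by norm_num) (by norm_num)
    (exp_neg_leJ (r := 0.505) 5 (by norm_num) (by norm_num) (by norm_num) (by norm_num))
    (exp_neg_leJ (r := 0.561) 3 (by norm_num) (by norm_num) (by norm_num) (by norm_num))
    (exp_neg_leJ (r := 0.014) 6 (by norm_num) (by norm_num) (by norm_num) (by norm_num))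
    (exp_neg_leJ (r := 0.99) 14 (by norm_num) (by norm_num) (by norm_num) (by norm_num))
    (exp_neg_leJ (r := 0.728) 5 (by norm_num) (by norm_num) (by norm_num) (by norm_num))
    (exp_neg_leJ (r := 0.99) 14 (by norm_num) (by norm_num) (by norm_num) (by norm_num))
    (exp_neg_leJ (r := 0.99) 14 (by norm_num) (by norm_num) (by norm_num) (by norm_num))
    (exp_neg_leJ (r := 0.99) 14 (by norm_num) (by norm_num) (by norm_num) (by norm_num))
    (by norm_num)) (by norm_num) hN hβ.le (by norm_num)

private theorem JD6b_p0_c0_b0_7 {β x y : ℝ} (hβ : 0 < β) (hN : β * 11.494 ≤ 1) (hx1 : 0.8875 ≤ x) (hx2 : x ≤ 0.9375)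
    (hy1 : -0.491 ≤ y) (hy2 : y ≤ -0.411) : ‖HH β (x + y * I) - 1‖ ≤ 0.14 := by
  refine le_epsJ (C := 1.5882) (N0 := 11.494) (J_boxp 0.8875 0.9375 0.491 0 (-0.411) 0.9863 1.0583 1.1072 1.0743 0.4198 3.3903 11.494 1.0731 4.71 1.638 0.6063 0.4931 0.3167 0.537 1.9884 0.5178 1.7288 2.011 3.6103 0.003461 0.02627 0.002088 0.0000003101 0.002611 0.0000003101 0.0000003101 0.0000003101 1.5882
    hβ hN hx1 hx2 hy1 hy2 (by norm_num) (by norm_num) (by linarith) (by norm_num) (by norm_num) (by norm_num) (by norm_num) (by norm_num) (by norm_num) (by norm_num) (by norm_num) (by norm_num) (by norm_num) (by norm_num) (by norm_num) (by norm_num) (by norm_num) (by norm_num) (by norm_num) (by norm_num) (by norm_num) (by norm_num) (by norm_num) (by norm_num)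
    (cube_sqrt_geJ (s := 0.8014) (by norm_num) (by norm_num) (by norm_num) (by norm_num))
    (cube_sqrt_geJ (s := 0.9319) (by norm_num) (by norm_num) (by norm_num) (by norm_num))
    (by norm_num) (by norm_num) (by norm_num) (by norm_num) (by norm_num) (by norm_num) (by norm_num) (by norm_num) (by norm_num) (by norm_num) (by norm_num) (by norm_num) (by norm_num) (by norm_num) (by norm_num) (by norm_num) (by norm_num) (by norm_num)
    (exp_neg_leJ (r := 0.667) 5 (by norm_num) (by norm_num) (by norm_num) (by norm_num))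
    (exp_neg_leJ (r := 0.64) 3 (by norm_num) (by norm_num) (by norm_num) (by norm_num))
    (exp_neg_leJ (r := 0.172) 6 (by norm_num) (by norm_num) (by norm_num) (by norm_num))
    (exp_neg_leJ (r := 0.99) 14 (by norm_num) (by norm_num) (by norm_num) (by norm_num))
    (exp_neg_leJ (r := 0.951) 5 (by norm_num) (by norm_num) (by norm_num) (by norm_num))
    (exp_neg_leJ (r := 0.99) 14 (by norm_num) (by norm_num) (by norm_num) (by norm_num))
    (exp_neg_leJ (r := 0.99) 14 (by norm_num) (by norm_num) (by norm_num) (by norm_num))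
    (exp_neg_leJ (r := 0.99) 14 (by norm_num) (by norm_num) (by norm_num) (by norm_num))
    (by norm_num)) (by norm_num) hN hβ.le (by norm_num)

private theorem JD6b_p0_c0_b0_8 {β x y : ℝ} (hβ : 0 < β) (hN : β * 11.494 ≤ 1) (hx1 : 0.9375 ≤ x) (hx2 : x ≤ 0.9975)
    (hy1 : -0.491 ≤ y) (hy2 : y ≤ -0.411) : ‖HH β (x + y * I) - 1‖ ≤ 0.14 := by
  refine le_epsJ (C := 1.5727) (N0 := 11.494) (J_boxp 0.9375 0.9975 0.491 0 (-0.411) 1.0215 1.1118 1.1585 1.0426 0.4294 3.3903 11.494 1.0884 4.843 1.65 0.5832 0.5107 0.3254 0.5541 1.9554 0.5421 1.798 2.111 3.5648 0.002832 0.02378 0.001716 0.0000003101 0.00197 0.0000003101 0.0000003101 0.0000003101 1.5727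
    hβ hN hx1 hx2 hy1 hy2 (by norm_num) (by norm_num) (by linarith) (by norm_num) (by norm_num) (by norm_num) (by norm_num) (by norm_num) (by norm_num) (by norm_num) (by norm_num) (by norm_num) (by norm_num) (by norm_num) (by norm_num) (by norm_num) (by norm_num) (by norm_num) (by norm_num) (by norm_num) (by norm_num) (by norm_num) (by norm_num) (by norm_num)
    (cube_sqrt_geJ (s := 0.7982) (by norm_num) (by norm_num) (by norm_num) (by norm_num))
    (cube_sqrt_geJ (s := 0.9309) (by norm_num) (by norm_num) (by norm_num) (by norm_num))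
    (by norm_num) (by norm_num) (by norm_num) (by norm_num) (by norm_num) (by norm_num) (by norm_num) (by norm_num) (by norm_num) (by norm_num) (by norm_num) (by norm_num) (by norm_num) (by norm_num) (by norm_num) (by norm_num) (by norm_num) (by norm_num)
    (exp_neg_leJ (r := 0.869) 5 (by norm_num) (by norm_num) (by norm_num) (by norm_num))
    (exp_neg_leJ (r := 0.74) 3 (by norm_num) (by norm_num) (by norm_num) (by norm_num))
    (exp_neg_leJ (r := 0.368) 6 (by norm_num) (by norm_num) (by norm_num) (by norm_num))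
    (exp_neg_leJ (r := 0.99) 14 (by norm_num) (by norm_num) (by norm_num) (by norm_num))
    (exp_neg_leJ (r := 0.23) 6 (by norm_num) (by norm_num) (by norm_num) (by norm_num))
    (exp_neg_leJ (r := 0.99) 14 (by norm_num) (by norm_num) (by norm_num) (by norm_num))
    (exp_neg_leJ (r := 0.99) 14 (by norm_num) (by norm_num) (by norm_num) (by norm_num))
    (exp_neg_leJ (r := 0.99) 14 (by norm_num) (by norm_num) (by norm_num) (by norm_num))
    (by norm_num)) (by norm_num) hN hβ.le (by norm_num)

private theorem JD6b_p0_c0_b0_9 {β x y : ℝ} (hβ : 0 < β) (hN : β * 11.494 ≤ 1) (hx1 : 0.9975 ≤ x) (hx2 : x ≤ 1.0775)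
    (hy1 : -0.491 ≤ y) (hy2 : y ≤ -0.411) : ‖HH β (x + y * I) - 1‖ ≤ 0.14 := by
  refine le_epsJ (C := 1.5925) (N0 := 11.494) (J_boxp 0.9975 1.0775 0.491 0 (-0.411) 1.0638 1.1841 1.228 1.01 0.4421 3.3903 11.494 1.1131 5.069 1.671 0.5524 0.5318 0.3345 0.5747 1.9113 0.5712 1.8811 2.231 3.4883 0.002217 0.02145 0.001355 0.0000003101 0.00141 0.0000003101 0.0000003101 0.0000003101 1.5925
    hβ hN hx1 hx2 hy1 hy2 (by norm_num) (by norm_num) (by linarith) (by norm_num) (by norm_num) (by norm_num) (by norm_num) (by norm_num) (by norm_num) (by norm_num) (by norm_num) (by norm_num) (by norm_num) (by norm_num) (by norm_num) (by norm_num) (by norm_num) (by norm_num) (by norm_num) (by norm_num) (by norm_num) (by norm_num) (by norm_num) (by norm_num)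
    (cube_sqrt_geJ (s := 0.793) (by norm_num) (by norm_num) (by norm_num) (by norm_num))
    (cube_sqrt_geJ (s := 0.9293) (by norm_num) (by norm_num) (by norm_num) (by norm_num))
    (by norm_num) (by norm_num) (by norm_num) (by norm_num) (by norm_num) (by norm_num) (by norm_num) (by norm_num) (by norm_num) (by norm_num) (by norm_num) (by norm_num) (by norm_num) (by norm_num) (by norm_num) (by norm_num) (by norm_num) (by norm_num)
    (exp_neg_leJ (r := 0.112) 6 (by norm_num) (by norm_num) (by norm_num) (by norm_num))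
    (exp_neg_leJ (r := 0.844) 3 (by norm_num) (by norm_num) (by norm_num) (by norm_num))
    (exp_neg_leJ (r := 0.605) 6 (by norm_num) (by norm_num) (by norm_num) (by norm_num))
    (exp_neg_leJ (r := 0.99) 14 (by norm_num) (by norm_num) (by norm_num) (by norm_num))
    (exp_neg_leJ (r := 0.565) 6 (by norm_num) (by norm_num) (by norm_num) (by norm_num))
    (exp_neg_leJ (r := 0.99) 14 (by norm_num) (by norm_num) (by norm_num) (by norm_num))
    (exp_neg_leJ (r := 0.99) 14 (by norm_num) (by norm_num) (by norm_num) (by norm_num))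
    (exp_neg_leJ (r := 0.99) 14 (by norm_num) (by norm_num) (by norm_num) (by norm_num))
    (by norm_num)) (by norm_num) hN hβ.le (by norm_num)

private theorem JD6b_p0_c0_b0_10 {β x y : ℝ} (hβ : 0 < β) (hN : β * 11.494 ≤ 1) (hx1 : 1.0775 ≤ x) (hx2 : x ≤ 1.1775)
    (hy1 : -0.491 ≤ y) (hy2 : y ≤ -0.411) : ‖HH β (x + y * I) - 1‖ ≤ 0.14 := by
  refine le_epsJ (C := 1.5973) (N0 := 11.494) (J_boxp 1.0775 1.1775 0.491 0 (-0.411) 1.1201 1.2758 1.3166 0.968 0.4578 3.3903 11.494 1.1391 5.321 1.692 0.514 0.56 0.3473 0.602 1.8557 0.6101 1.9919 2.391 3.399 0.001603 0.01857 0.0009914 0.0000003101 0.0009011 0.0000003101 0.0000003101 0.0000003101 1.5973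
    hβ hN hx1 hx2 hy1 hy2 (by norm_num) (by norm_num) (by linarith) (by norm_num) (by norm_num) (by norm_num) (by norm_num) (by norm_num) (by norm_num) (by norm_num) (by norm_num) (by norm_num) (by norm_num) (by norm_num) (by norm_num) (by norm_num) (by norm_num) (by norm_num) (by norm_num) (by norm_num) (by norm_num) (by norm_num) (by norm_num) (by norm_num)
    (cube_sqrt_geJ (s := 0.7875) (by norm_num) (by norm_num) (by norm_num) (by norm_num))
    (cube_sqrt_geJ (s := 0.9276) (by norm_num) (by norm_num) (by norm_num) (by norm_num))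
    (by norm_num) (by norm_num) (by norm_num) (by norm_num) (by norm_num) (by norm_num) (by norm_num) (by norm_num) (by norm_num) (by norm_num) (by norm_num) (by norm_num) (by norm_num) (by norm_num) (by norm_num) (by norm_num) (by norm_num) (by norm_num)
    (exp_neg_leJ (r := 0.436) 6 (by norm_num) (by norm_num) (by norm_num) (by norm_num))
    (exp_neg_leJ (r := 0.99) 3 (by norm_num) (by norm_num) (by norm_num) (by norm_num))
    (exp_neg_leJ (r := 0.919) 6 (by norm_num) (by norm_num) (by norm_num) (by norm_num))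
    (exp_neg_leJ (r := 0.99) 14 (by norm_num) (by norm_num) (by norm_num) (by norm_num))
    (exp_neg_leJ (r := 0.012) 7 (by norm_num) (by norm_num) (by norm_num) (by norm_num))
    (exp_neg_leJ (r := 0.99) 14 (by norm_num) (by norm_num) (by norm_num) (by norm_num))
    (exp_neg_leJ (r := 0.99) 14 (by norm_num) (by norm_num) (by norm_num) (by norm_num))
    (exp_neg_leJ (r := 0.99) 14 (by norm_num) (by norm_num) (by norm_num) (by norm_num))
    (by norm_num)) (by norm_num) hN hβ.le (by norm_num)

private theorem JD6b_p0_c0_b0_11 {β x y : ℝ} (hβ : 0 < β) (hN : β * 11.494 ≤ 1) (hx1 : 1.1775 ≤ x) (hx2 : x ≤ 1.2975)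
    (hy1 : -0.491 ≤ y) (hy2 : y ≤ -0.411) : ‖HH β (x + y * I) - 1‖ ≤ 0.14 := by
  refine le_epsJ (C := 1.5862) (N0 := 11.494) (J_boxp 1.1775 1.2975 0.491 0 (-0.411) 1.1905 1.3873 1.425 0.919 0.4763 3.3903 11.494 1.1654 5.592 1.715 0.4678 0.5952 0.364 0.6363 1.7886 0.6587 2.1303 2.591 3.296 0.001071 0.01526 0.0006669 0.0000003101 0.0005154 0.0000003101 0.0000003101 0.0000003101 1.5862
    hβ hN hx1 hx2 hy1 hy2 (by norm_num) (by norm_num) (by linarith) (by norm_num) (by norm_num) (by norm_num) (by norm_num) (by norm_num) (by norm_num) (by norm_num) (by norm_num) (by norm_num) (by norm_num) (by norm_num) (by norm_num) (by norm_num) (by norm_num) (by norm_num) (by norm_num) (by norm_num) (by norm_num) (by norm_num) (by norm_num) (by norm_num)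
    (cube_sqrt_geJ (s := 0.782) (by norm_num) (by norm_num) (by norm_num) (by norm_num))
    (cube_sqrt_geJ (s := 0.9259) (by norm_num) (by norm_num) (by norm_num) (by norm_num))
    (by norm_num) (by norm_num) (by norm_num) (by norm_num) (by norm_num) (by norm_num) (by norm_num) (by norm_num) (by norm_num) (by norm_num) (by norm_num) (by norm_num) (by norm_num) (by norm_num) (by norm_num) (by norm_num) (by norm_num) (by norm_num)
    (exp_neg_leJ (r := 0.841) 6 (by norm_num) (by norm_num) (by norm_num) (by norm_num))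
    (exp_neg_leJ (r := 0.183) 4 (by norm_num) (by norm_num) (by norm_num) (by norm_num))
    (exp_neg_leJ (r := 0.313) 7 (by norm_num) (by norm_num) (by norm_num) (by norm_num))
    (exp_neg_leJ (r := 0.99) 14 (by norm_num) (by norm_num) (by norm_num) (by norm_num))
    (exp_neg_leJ (r := 0.571) 7 (by norm_num) (by norm_num) (by norm_num) (by norm_num))
    (exp_neg_leJ (r := 0.99) 14 (by norm_num) (by norm_num) (by norm_num) (by norm_num))
    (exp_neg_leJ (r := 0.99) 14 (by norm_num) (by norm_num) (by norm_num) (by norm_num))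
    (exp_neg_leJ (r := 0.99) 14 (by norm_num) (by norm_num) (by norm_num) (by norm_num))
    (by norm_num)) (by norm_num) hN hβ.le (by norm_num)

private theorem JD6b_p0_c0_b0_12 {β x y : ℝ} (hβ : 0 < β) (hN : β * 11.494 ≤ 1) (hx1 : 1.2975 ≤ x) (hx2 : x ≤ 1.3484)
    (hy1 : -0.491 ≤ y) (hy2 : y ≤ -0.411) : ‖HH β (x + y * I) - 1‖ ≤ 0.14 := by
  refine le_epsJ (C := 1.271) (N0 := 11.494) (J_boxp 1.2975 1.3484 0.491 0 (-0.411) 1.275 1.4351 1.4715 0.8426 0.484 3.3903 11.494 1.1256 5.188 1.681 0.4482 0.6374 0.3983 0.6774 1.76 0.717 2.2965 2.831 3.406 0.0006583 0.01028 0.0004161 0.0000003101 0.0002637 0.0000003101 0.0000003101 0.0000003101 1.271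
    hβ hN hx1 hx2 hy1 hy2 (by norm_num) (by norm_num) (by linarith) (by norm_num) (by norm_num) (by norm_num) (by norm_num) (by norm_num) (by norm_num) (by norm_num) (by norm_num) (by norm_num) (by norm_num) (by norm_num) (by norm_num) (by norm_num) (by norm_num) (by norm_num) (by norm_num) (by norm_num) (by norm_num) (by norm_num) (by norm_num) (by norm_num)
    (cube_sqrt_geJ (s := 0.7904) (by norm_num) (by norm_num) (by norm_num) (by norm_num))
    (cube_sqrt_geJ (s := 0.9285) (by norm_num) (by norm_num) (by norm_num) (by norm_num))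
    (by norm_num) (by norm_num) (by norm_num) (by norm_num) (by norm_num) (by norm_num) (by norm_num) (by norm_num) (by norm_num) (by norm_num) (by norm_num) (by norm_num) (by norm_num) (by norm_num) (by norm_num) (by norm_num) (by norm_num) (by norm_num)
    (exp_neg_leJ (r := 0.326) 7 (by norm_num) (by norm_num) (by norm_num) (by norm_num))
    (exp_neg_leJ (r := 0.578) 4 (by norm_num) (by norm_num) (by norm_num) (by norm_num))
    (exp_neg_leJ (r := 0.786) 7 (by norm_num) (by norm_num) (by norm_num) (by norm_num))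
    (exp_neg_leJ (r := 0.99) 14 (by norm_num) (by norm_num) (by norm_num) (by norm_num))
    (exp_neg_leJ (r := 0.241) 8 (by norm_num) (by norm_num) (by norm_num) (by norm_num))
    (exp_neg_leJ (r := 0.99) 14 (by norm_num) (by norm_num) (by norm_num) (by norm_num))
    (exp_neg_leJ (r := 0.99) 14 (by norm_num) (by norm_num) (by norm_num) (by norm_num))
    (exp_neg_leJ (r := 0.99) 14 (by norm_num) (by norm_num) (by norm_num) (by norm_num))
    (by norm_num)) (by norm_num) hN hβ.le (by norm_num)

private theorem JD6b_p0_c0_b1_0 {β x y : ℝ} (hβ : 0 < β) (hN : β * 11.494 ≤ 1) (hx1 : 0.7475 ≤ x) (hx2 : x ≤ 0.8675)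
    (hy1 : -0.411 ≤ y) (hy2 : y ≤ -0.097) : ‖HH β (x + y * I) - 1‖ ≤ 0.14 := by
  refine le_epsJ (C := 1.5975) (N0 := 11.494) (J_boxp 0.7475 0.8675 0.411 0 (-0.097) 0.9445 0.96 1.2522 1.2191 0.4465 3.3903 11.494 1.0165 4.256 1.593 0.707 0.4722 0.3122 0.6154 2.2876 0.4935 1.5349 1.9484 3.5975 0.004397 0.02767 0.0008477 0.0000003101 0.003444 0.0000003101 0.0000003101 0.0000003101 1.5975
    hβ hN hx1 hx2 hy1 hy2 (by norm_num) (by norm_num) (by linarith) (by norm_num) (by norm_num) (by norm_num) (by norm_num) (by norm_num) (by norm_num) (by norm_num) (by norm_num) (by norm_num) (by norm_num) (by norm_num) (by norm_num) (by norm_num) (by norm_num) (by norm_num) (by norm_num) (by norm_num) (by norm_num) (by norm_num) (by norm_num) (by norm_num)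
    (cube_sqrt_geJ (s := 0.8131) (by norm_num) (by norm_num) (by norm_num) (by norm_num))
    (cube_sqrt_geJ (s := 0.9357) (by norm_num) (by norm_num) (by norm_num) (by norm_num))
    (by norm_num) (by norm_num) (by norm_num) (by norm_num) (by norm_num) (by norm_num) (by norm_num) (by norm_num) (by norm_num) (by norm_num) (by norm_num) (by norm_num) (by norm_num) (by norm_num) (by norm_num) (by norm_num) (by norm_num) (by norm_num)
    (exp_neg_leJ (r := 0.427) 5 (by norm_num) (by norm_num) (by norm_num) (by norm_num))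
    (exp_neg_leJ (r := 0.588) 3 (by norm_num) (by norm_num) (by norm_num) (by norm_num))
    (exp_neg_leJ (r := 0.073) 7 (by norm_num) (by norm_num) (by norm_num) (by norm_num))
    (exp_neg_leJ (r := 0.99) 14 (by norm_num) (by norm_num) (by norm_num) (by norm_num))
    (exp_neg_leJ (r := 0.672) 5 (by norm_num) (by norm_num) (by norm_num) (by norm_num))
    (exp_neg_leJ (r := 0.99) 14 (by norm_num) (by norm_num) (by norm_num) (by norm_num))
    (exp_neg_leJ (r := 0.99) 14 (by norm_num) (by norm_num) (by norm_num) (by norm_num))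
    (exp_neg_leJ (r := 0.99) 14 (by norm_num) (by norm_num) (by norm_num) (by norm_num))
    (by norm_num)) (by norm_num) hN hβ.le (by norm_num)

private theorem JD6b_p0_c0_b1_1 {β x y : ℝ} (hβ : 0 < β) (hN : β * 11.494 ≤ 1) (hx1 : 0.8675 ≤ x) (hx2 : x ≤ 1.0175)
    (hy1 : -0.411 ≤ y) (hy2 : y ≤ -0.097) : ‖HH β (x + y * I) - 1‖ ≤ 0.14 := by
  refine le_epsJ (C := 1.5825) (N0 := 11.494) (J_boxp 0.8675 1.0175 0.411 0 (-0.097) 1.029 1.0974 1.3605 1.1175 0.4654 3.3903 11.494 1.0665 4.653 1.632 0.6493 0.5144 0.3315 0.6564 2.2043 0.5518 1.7011 2.1884 3.464 0.002714 0.02219 0.0005295 0.0000003101 0.001761 0.0000003101 0.0000003101 0.0000003101 1.5825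
    hβ hN hx1 hx2 hy1 hy2 (by norm_num) (by norm_num) (by linarith) (by norm_num) (by norm_num) (by norm_num) (by norm_num) (by norm_num) (by norm_num) (by norm_num) (by norm_num) (by norm_num) (by norm_num) (by norm_num) (by norm_num) (by norm_num) (by norm_num) (by norm_num) (by norm_num) (by norm_num) (by norm_num) (by norm_num) (by norm_num) (by norm_num)
    (cube_sqrt_geJ (s := 0.8028) (by norm_num) (by norm_num) (by norm_num) (by norm_num))
    (cube_sqrt_geJ (s := 0.9324) (by norm_num) (by norm_num) (by norm_num) (by norm_num))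
    (by norm_num) (by norm_num) (by norm_num) (by norm_num) (by norm_num) (by norm_num) (by norm_num) (by norm_num) (by norm_num) (by norm_num) (by norm_num) (by norm_num) (by norm_num) (by norm_num) (by norm_num) (by norm_num) (by norm_num) (by norm_num)
    (exp_neg_leJ (r := 0.912) 5 (by norm_num) (by norm_num) (by norm_num) (by norm_num))
    (exp_neg_leJ (r := 0.81) 3 (by norm_num) (by norm_num) (by norm_num) (by norm_num))
    (exp_neg_leJ (r := 0.544) 7 (by norm_num) (by norm_num) (by norm_num) (by norm_num))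
    (exp_neg_leJ (r := 0.99) 14 (by norm_num) (by norm_num) (by norm_num) (by norm_num))
    (exp_neg_leJ (r := 0.342) 6 (by norm_num) (by norm_num) (by norm_num) (by norm_num))
    (exp_neg_leJ (r := 0.99) 14 (by norm_num) (by norm_num) (by norm_num) (by norm_num))
    (exp_neg_leJ (r := 0.99) 14 (by norm_num) (by norm_num) (by norm_num) (by norm_num))
    (exp_neg_leJ (r := 0.99) 14 (by norm_num) (by norm_num) (by norm_num) (by norm_num))
    (by norm_num)) (by norm_num) hN hβ.le (by norm_num)

private theorem JD6b_p0_c0_b1_2 {β x y : ℝ} (hβ : 0 < β) (hN : β * 11.494 ≤ 1) (hx1 : 1.0175 ≤ x) (hx2 : x ≤ 1.2075)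
    (hy1 : -0.411 ≤ y) (hy2 : y ≤ -0.097) : ‖HH β (x + y * I) - 1‖ ≤ 0.14 := by
  refine le_epsJ (C := 1.5989) (N0 := 11.494) (J_boxp 1.0175 1.2075 0.411 0 (-0.097) 1.1346 1.2756 1.5079 1.0161 0.4899 3.3903 11.494 1.1243 5.175 1.68 0.5763 0.5672 0.3546 0.7078 2.0976 0.6247 1.9088 2.4884 3.2796 0.001476 0.017 0.0002932 0.0000003101 0.0007617 0.0000003101 0.0000003101 0.0000003101 1.5989
    hβ hN hx1 hx2 hy1 hy2 (by norm_num) (by norm_num) (by linarith) (by norm_num) (by norm_num) (by norm_num) (by norm_num) (by norm_num) (by norm_num) (by norm_num) (by norm_num) (by norm_num) (by norm_num) (by norm_num) (by norm_num) (by norm_num) (by norm_num) (by norm_num) (by norm_num) (by norm_num) (by norm_num) (by norm_num) (by norm_num) (by norm_num)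
    (cube_sqrt_geJ (s := 0.7907) (by norm_num) (by norm_num) (by norm_num) (by norm_num))
    (cube_sqrt_geJ (s := 0.9286) (by norm_num) (by norm_num) (by norm_num) (by norm_num))
    (by norm_num) (by norm_num) (by norm_num) (by norm_num) (by norm_num) (by norm_num) (by norm_num) (by norm_num) (by norm_num) (by norm_num) (by norm_num) (by norm_num) (by norm_num) (by norm_num) (by norm_num) (by norm_num) (by norm_num) (by norm_num)
    (exp_neg_leJ (r := 0.519) 6 (by norm_num) (by norm_num) (by norm_num) (by norm_num))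
    (exp_neg_leJ (r := 0.075) 4 (by norm_num) (by norm_num) (by norm_num) (by norm_num))
    (exp_neg_leJ (r := 0.135) 8 (by norm_num) (by norm_num) (by norm_num) (by norm_num))
    (exp_neg_leJ (r := 0.99) 14 (by norm_num) (by norm_num) (by norm_num) (by norm_num))
    (exp_neg_leJ (r := 0.18) 7 (by norm_num) (by norm_num) (by norm_num) (by norm_num))
    (exp_neg_leJ (r := 0.99) 14 (by norm_num) (by norm_num) (by norm_num) (by norm_num))
    (exp_neg_leJ (r := 0.99) 14 (by norm_num) (by norm_num) (by norm_num) (by norm_num))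
    (exp_neg_leJ (r := 0.99) 14 (by norm_num) (by norm_num) (by norm_num) (by norm_num))
    (by norm_num)) (by norm_num) hN hβ.le (by norm_num)

private theorem JD6b_p0_c0_b1_3 {β x y : ℝ} (hβ : 0 < β) (hN : β * 11.494 ≤ 1) (hx1 : 1.2075 ≤ x) (hx2 : x ≤ 1.3484)
    (hy1 : -0.411 ≤ y) (hy2 : y ≤ -0.097) : ‖HH β (x + y * I) - 1‖ ≤ 0.14 := by
  refine le_epsJ (C := 1.2953) (N0 := 11.494) (J_boxp 1.2075 1.3484 0.411 0 (-0.097) 1.2684 1.4097 1.6229 0.8918 0.5083 3.3903 11.494 1.1115 5.053 1.669 0.5221 0.6341 0.3992 0.7728 2.018 0.717 2.1719 2.8684 3.2951 0.0006838 0.01018 0.0001392 0.0000003101 0.0002637 0.0000003101 0.0000003101 0.0000003101 1.2953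
    hβ hN hx1 hx2 hy1 hy2 (by norm_num) (by norm_num) (by linarith) (by norm_num) (by norm_num) (by norm_num) (by norm_num) (by norm_num) (by norm_num) (by norm_num) (by norm_num) (by norm_num) (by norm_num) (by norm_num) (by norm_num) (by norm_num) (by norm_num) (by norm_num) (by norm_num) (by norm_num) (by norm_num) (by norm_num) (by norm_num) (by norm_num)
    (cube_sqrt_geJ (s := 0.7934) (by norm_num) (by norm_num) (by norm_num) (by norm_num))
    (cube_sqrt_geJ (s := 0.9294) (by norm_num) (by norm_num) (by norm_num) (by norm_num))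
    (by norm_num) (by norm_num) (by norm_num) (by norm_num) (by norm_num) (by norm_num) (by norm_num) (by norm_num) (by norm_num) (by norm_num) (by norm_num) (by norm_num) (by norm_num) (by norm_num) (by norm_num) (by norm_num) (by norm_num) (by norm_num)
    (exp_neg_leJ (r := 0.288) 7 (by norm_num) (by norm_num) (by norm_num) (by norm_num))
    (exp_neg_leJ (r := 0.588) 4 (by norm_num) (by norm_num) (by norm_num) (by norm_num))
    (exp_neg_leJ (r := 0.882) 8 (by norm_num) (by norm_num) (by norm_num) (by norm_num))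
    (exp_neg_leJ (r := 0.99) 14 (by norm_num) (by norm_num) (by norm_num) (by norm_num))
    (exp_neg_leJ (r := 0.241) 8 (by norm_num) (by norm_num) (by norm_num) (by norm_num))
    (exp_neg_leJ (r := 0.99) 14 (by norm_num) (by norm_num) (by norm_num) (by norm_num))
    (exp_neg_leJ (r := 0.99) 14 (by norm_num) (by norm_num) (by norm_num) (by norm_num))
    (exp_neg_leJ (r := 0.99) 14 (by norm_num) (by norm_num) (by norm_num) (by norm_num))
    (by norm_num)) (by norm_num) hN hβ.le (by norm_num)

private theorem JD6b_p0_c0 {κ t β : ℝ} (h : DomR κ t) (hβ : 0 < β) (hk1 : 0.75 ≤ κ) (hk2 : κ ≤ 0.87)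
    (ht1 : -0.576 ≤ t + κ) (ht2 : t + κ ≤ -0.4398) (hR0 : β * 10 ≤ κ) (hR : β * (4.95 * (1 + κ ^ 2)) ≤ κ) :
    ∀ s : ℂ, ‖s - sg κ t‖ ≤ 0.15 → ‖HH β s - 1‖ ≤ 0.14 := by
  have hN : β * 11.494 ≤ 1 := bNR hβ h.1 hk2 hR0 (by norm_num)
  have hy1 : -0.341 ≤ sy κ t := syL_ge h 0.75 0.87 0.576 0.341 0.71105 0.71106 0.3158 0.27869 0.3233 hk1 hk2 (by linarith) (by norm_num) (by norm_num) (by norm_num)
    (expm_ge (by norm_num) (by norm_num) (by norm_num) (by norm_num)) (expm_le (by norm_num) (by norm_num) (by norm_num)) (by norm_num)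
    (by norm_num) (by norm_num) (by norm_num) (by norm_num) (by norm_num) (by norm_num)
  have hy2 : sy κ t ≤ -0.247 := syL_le h 0.75 0.87 0.4398 0.247 0.78114 0.78115 0.22177 0.25726 hk1 hk2 (by linarith) (by norm_num) (by norm_num) (by norm_num)
    (expm_ge (by norm_num) (by norm_num) (by norm_num) (by norm_num)) (expm_le (by norm_num) (by norm_num) (by norm_num)) (by norm_num)
    (by norm_num) (by norm_num) (by norm_num) (by norm_num) (by norm_num) (by norm_num)
  have hx1 : 0.8975 ≤ sx κ t := sx_lo h 0.75 (-0.247) 0.341 1.28017 0.8975 hk1 (by norm_num) hy2 (abs_le.2 ⟨by linarith, by linarith⟩) (by rw [neg_neg]; exact expn_ge (by norm_num) (by norm_num)) (by norm_num) (by norm_num)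
  have hx2 : sx κ t ≤ 1.1984 := sx_hi h 0.87 (-0.341) 0.247 1.40636 1.1984 hk2 hy1 (by norm_num) (by rw [abs_of_nonpos (by linarith)]; linarith) (by rw [neg_neg]; exact expn_le (by norm_num) (by norm_num) (by norm_num)) (by norm_num) (by norm_num)
  intro s hs
  have hs' : ‖s - ((sx κ t : ℂ) + (sy κ t : ℂ) * I)‖ ≤ 0.15 := hs
  obtain ⟨es, ⟨s1, s2⟩, ⟨s3, s4⟩⟩ := disc_split hs'
  have X1 : 0.7475 ≤ s.re := by linarith
  have X2 : s.re ≤ 1.3484 := by linarith
  have Y1 : (-0.491) ≤ s.im := by linarith
  have Y2 : s.im ≤ (-0.097) := by linarith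
  rw [es]
  rcases le_total s.im (-0.411) with f0 | g0
  · rcases le_total s.re 0.7575 with u0 | v0
    · exact JD6b_p0_c0_b0_0 hβ hN (by linarith) (by linarith) (by linarith) (by linarith)
    rcases le_total s.re 0.7675 with u1 | v1
    · exact JD6b_p0_c0_b0_1 hβ hN (by linarith) (by linarith) (by linarith) (by linarith)
    rcases le_total s.re 0.7775 with u2 | v2
    · exact JD6b_p0_c0_b0_2 hβ hN (by linarith) (by linarith) (by linarith) (by linarith)
    rcases le_total s.re 0.7975 with u3 | v3
    · exact JD6b_p0_c0_b0_3 hβ hN (by linarith) (by linarith) (by linarith) (by linarith)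
    rcases le_total s.re 0.8175 with u4 | v4
    · exact JD6b_p0_c0_b0_4 hβ hN (by linarith) (by linarith) (by linarith) (by linarith)
    rcases le_total s.re 0.8475 with u5 | v5
    · exact JD6b_p0_c0_b0_5 hβ hN (by linarith) (by linarith) (by linarith) (by linarith)
    rcases le_total s.re 0.8875 with u6 | v6
    · exact JD6b_p0_c0_b0_6 hβ hN (by linarith) (by linarith) (by linarith) (by linarith)
    rcases le_total s.re 0.9375 with u7 | v7
    · exact JD6b_p0_c0_b0_7 hβ hN (by linarith) (by linarith) (by linarith) (by linarith)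
    rcases le_total s.re 0.9975 with u8 | v8
    · exact JD6b_p0_c0_b0_8 hβ hN (by linarith) (by linarith) (by linarith) (by linarith)
    rcases le_total s.re 1.0775 with u9 | v9
    · exact JD6b_p0_c0_b0_9 hβ hN (by linarith) (by linarith) (by linarith) (by linarith)
    rcases le_total s.re 1.1775 with u10 | v10
    · exact JD6b_p0_c0_b0_10 hβ hN (by linarith) (by linarith) (by linarith) (by linarith)
    rcases le_total s.re 1.2975 with u11 | v11
    · exact JD6b_p0_c0_b0_11 hβ hN (by linarith) (by linarith) (by linarith) (by linarith)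
    exact JD6b_p0_c0_b0_12 hβ hN (by linarith) (by linarith) (by linarith) (by linarith)
  rcases le_total s.re 0.8675 with u0 | v0
  · exact JD6b_p0_c0_b1_0 hβ hN (by linarith) (by linarith) (by linarith) (by linarith)
  rcases le_total s.re 1.0175 with u1 | v1
  · exact JD6b_p0_c0_b1_1 hβ hN (by linarith) (by linarith) (by linarith) (by linarith)
  rcases le_total s.re 1.2075 with u2 | v2
  · exact JD6b_p0_c0_b1_2 hβ hN (by linarith) (by linarith) (by linarith) (by linarith)
  exact JD6b_p0_c0_b1_3 hβ hN (by linarith) (by linarith) (by linarith) (by linarith)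

private theorem JD6b_p0_c1_b0_0 {β x y : ℝ} (hβ : 0 < β) (hN : β * 11.111 ≤ 1) (hx1 : 0.9101 ≤ x) (hx2 : x ≤ 0.9301)
    (hy1 : -0.484 ≤ y) (hy2 : y ≤ -0.124) : ‖HH β (x + y * I) - 1‖ ≤ 0.14 := by
  refine le_epsJ (C := 1.5334) (N0 := 11.111) (J_boxp 0.9101 0.9301 0.484 0 (-0.124) 1.0072 1.0485 1.2777 1.1183 0.451 3.3334 11.111 1.0411 4.446 1.612 0.6156 0.5035 0.3288 0.5558 2.0153 0.5326 1.7601 2.0752 3.6821 0.003722 0.02593 0.002081 0.0000003101 0.002701 0.0000003101 0.0000003101 0.0000003101 1.5334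
    hβ hN hx1 hx2 hy1 hy2 (by norm_num) (by norm_num) (by linarith) (by norm_num) (by norm_num) (by norm_num) (by norm_num) (by norm_num) (by norm_num) (by norm_num) (by norm_num) (by norm_num) (by norm_num) (by norm_num) (by norm_num) (by norm_num) (by norm_num) (by norm_num) (by norm_num) (by norm_num) (by norm_num) (by norm_num) (by norm_num) (by norm_num)
    (cube_sqrt_geJ (s := 0.808) (by norm_num) (by norm_num) (by norm_num) (by norm_num))
    (cube_sqrt_geJ (s := 0.934) (by norm_num) (by norm_num) (by norm_num) (by norm_num))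
    (by norm_num) (by norm_num) (by norm_num) (by norm_num) (by norm_num) (by norm_num) (by norm_num) (by norm_num) (by norm_num) (by norm_num) (by norm_num) (by norm_num) (by norm_num) (by norm_num) (by norm_num) (by norm_num) (by norm_num) (by norm_num)
    (exp_neg_leJ (r := 0.594) 5 (by norm_num) (by norm_num) (by norm_num) (by norm_num))
    (exp_neg_leJ (r := 0.653) 3 (by norm_num) (by norm_num) (by norm_num) (by norm_num))
    (exp_neg_leJ (r := 0.175) 6 (by norm_num) (by norm_num) (by norm_num) (by norm_num))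
    (exp_neg_leJ (r := 0.99) 14 (by norm_num) (by norm_num) (by norm_num) (by norm_num))
    (exp_neg_leJ (r := 0.917) 5 (by norm_num) (by norm_num) (by norm_num) (by norm_num))
    (exp_neg_leJ (r := 0.99) 14 (by norm_num) (by norm_num) (by norm_num) (by norm_num))
    (exp_neg_leJ (r := 0.99) 14 (by norm_num) (by norm_num) (by norm_num) (by norm_num))
    (exp_neg_leJ (r := 0.99) 14 (by norm_num) (by norm_num) (by norm_num) (by norm_num))
    (by norm_num)) (by norm_num) hN hβ.le (by norm_num)

private theorem JD6b_p0_c1_b0_1 {β x y : ℝ} (hβ : 0 < β) (hN : β * 11.111 ≤ 1) (hx1 : 0.9301 ≤ x) (hx2 : x ≤ 0.9601)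
    (hy1 : -0.484 ≤ y) (hy2 : y ≤ -0.124) : ‖HH β (x + y * I) - 1‖ ≤ 0.14 := by
  refine le_epsJ (C := 1.5477) (N0 := 11.111) (J_boxp 0.9301 0.9601 0.484 0 (-0.124) 1.0213 1.0752 1.2997 1.1046 0.4549 3.3334 11.111 1.0528 4.54 1.621 0.604 0.5106 0.3314 0.5626 1.9988 0.5423 1.7878 2.1152 3.6495 0.00344 0.0252 0.001929 0.0000003101 0.002418 0.0000003101 0.0000003101 0.0000003101 1.5477
    hβ hN hx1 hx2 hy1 hy2 (by norm_num) (by norm_num) (by linarith) (by norm_num) (by norm_num) (by norm_num) (by norm_num) (by norm_num) (by norm_num) (by norm_num) (by norm_num) (by norm_num) (by norm_num) (by norm_num) (by norm_num) (by norm_num) (by norm_num) (by norm_num) (by norm_num) (by norm_num) (by norm_num) (by norm_num) (by norm_num) (by norm_num)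
    (cube_sqrt_geJ (s := 0.8056) (by norm_num) (by norm_num) (by norm_num) (by norm_num))
    (cube_sqrt_geJ (s := 0.9333) (by norm_num) (by norm_num) (by norm_num) (by norm_num))
    (by norm_num) (by norm_num) (by norm_num) (by norm_num) (by norm_num) (by norm_num) (by norm_num) (by norm_num) (by norm_num) (by norm_num) (by norm_num) (by norm_num) (by norm_num) (by norm_num) (by norm_num) (by norm_num) (by norm_num) (by norm_num)
    (exp_neg_leJ (r := 0.673) 5 (by norm_num) (by norm_num) (by norm_num) (by norm_num))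
    (exp_neg_leJ (r := 0.682) 3 (by norm_num) (by norm_num) (by norm_num) (by norm_num))
    (exp_neg_leJ (r := 0.251) 6 (by norm_num) (by norm_num) (by norm_num) (by norm_num))
    (exp_neg_leJ (r := 0.99) 14 (by norm_num) (by norm_num) (by norm_num) (by norm_num))
    (exp_neg_leJ (r := 0.025) 6 (by norm_num) (by norm_num) (by norm_num) (by norm_num))
    (exp_neg_leJ (r := 0.99) 14 (by norm_num) (by norm_num) (by norm_num) (by norm_num))
    (exp_neg_leJ (r := 0.99) 14 (by norm_num) (by norm_num) (by norm_num) (by norm_num))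
    (exp_neg_leJ (r := 0.99) 14 (by norm_num) (by norm_num) (by norm_num) (by norm_num))
    (by norm_num)) (by norm_num) hN hβ.le (by norm_num)

private theorem JD6b_p0_c1_b0_2 {β x y : ℝ} (hβ : 0 < β) (hN : β * 11.111 ≤ 1) (hx1 : 0.9601 ≤ x) (hx2 : x ≤ 1.0001)
    (hy1 : -0.484 ≤ y) (hy2 : y ≤ -0.124) : ‖HH β (x + y * I) - 1‖ ≤ 0.14 := by
  refine le_epsJ (C := 1.5524) (N0 := 11.111) (J_boxp 0.9601 1.0001 0.484 0 (-0.124) 1.0424 1.1111 1.3296 1.0835 0.4601 3.3334 11.111 1.066 4.649 1.632 0.5886 0.5211 0.336 0.5729 1.9768 0.5569 1.8293 2.1752 3.6119 0.003066 0.02395 0.001721 0.0000003101 0.002057 0.0000003101 0.0000003101 0.0000003101 1.5524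
    hβ hN hx1 hx2 hy1 hy2 (by norm_num) (by norm_num) (by linarith) (by norm_num) (by norm_num) (by norm_num) (by norm_num) (by norm_num) (by norm_num) (by norm_num) (by norm_num) (by norm_num) (by norm_num) (by norm_num) (by norm_num) (by norm_num) (by norm_num) (by norm_num) (by norm_num) (by norm_num) (by norm_num) (by norm_num) (by norm_num) (by norm_num)
    (cube_sqrt_geJ (s := 0.8029) (by norm_num) (by norm_num) (by norm_num) (by norm_num))
    (cube_sqrt_geJ (s := 0.9324) (by norm_num) (by norm_num) (by norm_num) (by norm_num))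
    (by norm_num) (by norm_num) (by norm_num) (by norm_num) (by norm_num) (by norm_num) (by norm_num) (by norm_num) (by norm_num) (by norm_num) (by norm_num) (by norm_num) (by norm_num) (by norm_num) (by norm_num) (by norm_num) (by norm_num) (by norm_num)
    (exp_neg_leJ (r := 0.789) 5 (by norm_num) (by norm_num) (by norm_num) (by norm_num))
    (exp_neg_leJ (r := 0.733) 3 (by norm_num) (by norm_num) (by norm_num) (by norm_num))
    (exp_neg_leJ (r := 0.365) 6 (by norm_num) (by norm_num) (by norm_num) (by norm_num))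
    (exp_neg_leJ (r := 0.99) 14 (by norm_num) (by norm_num) (by norm_num) (by norm_num))
    (exp_neg_leJ (r := 0.187) 6 (by norm_num) (by norm_num) (by norm_num) (by norm_num))
    (exp_neg_leJ (r := 0.99) 14 (by norm_num) (by norm_num) (by norm_num) (by norm_num))
    (exp_neg_leJ (r := 0.99) 14 (by norm_num) (by norm_num) (by norm_num) (by norm_num))
    (exp_neg_leJ (r := 0.99) 14 (by norm_num) (by norm_num) (by norm_num) (by norm_num))
    (by norm_num)) (by norm_num) hN hβ.le (by norm_num)

private theorem JD6b_p0_c1_b0_3 {β x y : ℝ} (hβ : 0 < β) (hN : β * 11.111 ≤ 1) (hx1 : 1.0001 ≤ x) (hx2 : x ≤ 1.0501)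
    (hy1 : -0.484 ≤ y) (hy2 : y ≤ -0.124) : ‖HH β (x + y * I) - 1‖ ≤ 0.14 := by
  refine le_epsJ (C := 1.5468) (N0 := 11.111) (J_boxp 1.0001 1.0501 0.484 0 (-0.124) 1.0706 1.1563 1.3676 1.0557 0.4666 3.3334 11.111 1.0801 4.77 1.643 0.5694 0.5352 0.3425 0.5866 1.9492 0.5763 1.8847 2.2552 3.5691 0.002624 0.0223 0.001479 0.0000003101 0.001657 0.0000003101 0.0000003101 0.0000003101 1.5468
    hβ hN hx1 hx2 hy1 hy2 (by norm_num) (by norm_num) (by linarith) (by norm_num) (by norm_num) (by norm_num) (by norm_num) (by norm_num) (by norm_num) (by norm_num) (by norm_num) (by norm_num) (by norm_num) (by norm_num) (by norm_num) (by norm_num) (by norm_num) (by norm_num) (by norm_num) (by norm_num) (by norm_num) (by norm_num) (by norm_num) (by norm_num)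
    (cube_sqrt_geJ (s := 0.7999) (by norm_num) (by norm_num) (by norm_num) (by norm_num))
    (cube_sqrt_geJ (s := 0.9315) (by norm_num) (by norm_num) (by norm_num) (by norm_num))
    (by norm_num) (by norm_num) (by norm_num) (by norm_num) (by norm_num) (by norm_num) (by norm_num) (by norm_num) (by norm_num) (by norm_num) (by norm_num) (by norm_num) (by norm_num) (by norm_num) (by norm_num) (by norm_num) (by norm_num) (by norm_num)
    (exp_neg_leJ (r := 0.946) 5 (by norm_num) (by norm_num) (by norm_num) (by norm_num))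
    (exp_neg_leJ (r := 0.805) 3 (by norm_num) (by norm_num) (by norm_num) (by norm_num))
    (exp_neg_leJ (r := 0.517) 6 (by norm_num) (by norm_num) (by norm_num) (by norm_num))
    (exp_neg_leJ (r := 0.99) 14 (by norm_num) (by norm_num) (by norm_num) (by norm_num))
    (exp_neg_leJ (r := 0.403) 6 (by norm_num) (by norm_num) (by norm_num) (by norm_num))
    (exp_neg_leJ (r := 0.99) 14 (by norm_num) (by norm_num) (by norm_num) (by norm_num))
    (exp_neg_leJ (r := 0.99) 14 (by norm_num) (by norm_num) (by norm_num) (by norm_num))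
    (exp_neg_leJ (r := 0.99) 14 (by norm_num) (by norm_num) (by norm_num) (by norm_num))
    (by norm_num)) (by norm_num) hN hβ.le (by norm_num)

private theorem JD6b_p0_c1_b0_4 {β x y : ℝ} (hβ : 0 < β) (hN : β * 11.111 ≤ 1) (hx1 : 1.0501 ≤ x) (hx2 : x ≤ 1.1101)
    (hy1 : -0.484 ≤ y) (hy2 : y ≤ -0.124) : ‖HH β (x + y * I) - 1‖ ≤ 0.14 := by
  refine le_epsJ (C := 1.5341) (N0 := 11.111) (J_boxp 1.0501 1.1101 0.484 0 (-0.124) 1.1058 1.2111 1.4142 1.0227 0.4745 3.3334 11.111 1.0953 4.904 1.656 0.5463 0.5528 0.351 0.6037 1.9159 0.6006 1.9539 2.3552 3.5201 0.002151 0.02031 0.001224 0.0000003101 0.001266 0.0000003101 0.0000003101 0.0000003101 1.5341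
    hβ hN hx1 hx2 hy1 hy2 (by norm_num) (by norm_num) (by linarith) (by norm_num) (by norm_num) (by norm_num) (by norm_num) (by norm_num) (by norm_num) (by norm_num) (by norm_num) (by norm_num) (by norm_num) (by norm_num) (by norm_num) (by norm_num) (by norm_num) (by norm_num) (by norm_num) (by norm_num) (by norm_num) (by norm_num) (by norm_num) (by norm_num)
    (cube_sqrt_geJ (s := 0.7968) (by norm_num) (by norm_num) (by norm_num) (by norm_num))
    (cube_sqrt_geJ (s := 0.9305) (by norm_num) (by norm_num) (by norm_num) (by norm_num))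
    (by norm_num) (by norm_num) (by norm_num) (by norm_num) (by norm_num) (by norm_num) (by norm_num) (by norm_num) (by norm_num) (by norm_num) (by norm_num) (by norm_num) (by norm_num) (by norm_num) (by norm_num) (by norm_num) (by norm_num) (by norm_num)
    (exp_neg_leJ (r := 0.142) 6 (by norm_num) (by norm_num) (by norm_num) (by norm_num))
    (exp_neg_leJ (r := 0.899) 3 (by norm_num) (by norm_num) (by norm_num) (by norm_num))
    (exp_neg_leJ (r := 0.707) 6 (by norm_num) (by norm_num) (by norm_num) (by norm_num))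
    (exp_neg_leJ (r := 0.99) 14 (by norm_num) (by norm_num) (by norm_num) (by norm_num))
    (exp_neg_leJ (r := 0.673) 6 (by norm_num) (by norm_num) (by norm_num) (by norm_num))
    (exp_neg_leJ (r := 0.99) 14 (by norm_num) (by norm_num) (by norm_num) (by norm_num))
    (exp_neg_leJ (r := 0.99) 14 (by norm_num) (by norm_num) (by norm_num) (by norm_num))
    (exp_neg_leJ (r := 0.99) 14 (by norm_num) (by norm_num) (by norm_num) (by norm_num))
    (by norm_num)) (by norm_num) hN hβ.le (by norm_num)

private theorem JD6b_p0_c1_b0_5 {β x y : ℝ} (hβ : 0 < β) (hN : β * 11.111 ≤ 1) (hx1 : 1.1101 ≤ x) (hx2 : x ≤ 1.1901)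
    (hy1 : -0.484 ≤ y) (hy2 : y ≤ -0.124) : ‖HH β (x + y * I) - 1‖ ≤ 0.14 := by
  refine le_epsJ (C := 1.5539) (N0 := 11.111) (J_boxp 1.1101 1.1901 0.484 0 (-0.124) 1.148 1.2848 1.4778 0.9884 0.485 3.3334 11.111 1.1192 5.126 1.676 0.5156 0.5739 0.3598 0.6243 1.8714 0.6298 2.037 2.4752 3.4398 0.001703 0.01857 0.0009749 0.0000003101 0.0009243 0.0000003101 0.0000003101 0.0000003101 1.5539
    hβ hN hx1 hx2 hy1 hy2 (by norm_num) (by norm_num) (by linarith) (by norm_num) (by norm_num) (by norm_num) (by norm_num) (by norm_num) (by norm_num) (by norm_num) (by norm_num) (by norm_num) (by norm_num) (by norm_num) (by norm_num) (by norm_num) (by norm_num) (by norm_num) (by norm_num) (by norm_num) (by norm_num) (by norm_num) (by norm_num) (by norm_num)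
    (cube_sqrt_geJ (s := 0.7917) (by norm_num) (by norm_num) (by norm_num) (by norm_num))
    (cube_sqrt_geJ (s := 0.9289) (by norm_num) (by norm_num) (by norm_num) (by norm_num))
    (by norm_num) (by norm_num) (by norm_num) (by norm_num) (by norm_num) (by norm_num) (by norm_num) (by norm_num) (by norm_num) (by norm_num) (by norm_num) (by norm_num) (by norm_num) (by norm_num) (by norm_num) (by norm_num) (by norm_num) (by norm_num)
    (exp_neg_leJ (r := 0.376) 6 (by norm_num) (by norm_num) (by norm_num) (by norm_num))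
    (exp_neg_leJ (r := 0.99) 3 (by norm_num) (by norm_num) (by norm_num) (by norm_num))
    (exp_neg_leJ (r := 0.936) 6 (by norm_num) (by norm_num) (by norm_num) (by norm_num))
    (exp_neg_leJ (r := 0.99) 14 (by norm_num) (by norm_num) (by norm_num) (by norm_num))
    (exp_neg_leJ (r := 0.99) 6 (by norm_num) (by norm_num) (by norm_num) (by norm_num))
    (exp_neg_leJ (r := 0.99) 14 (by norm_num) (by norm_num) (by norm_num) (by norm_num))
    (exp_neg_leJ (r := 0.99) 14 (by norm_num) (by norm_num) (by norm_num) (by norm_num))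
    (exp_neg_leJ (r := 0.99) 14 (by norm_num) (by norm_num) (by norm_num) (by norm_num))
    (by norm_num)) (by norm_num) hN hβ.le (by norm_num)

private theorem JD6b_p0_c1_b0_6 {β x y : ℝ} (hβ : 0 < β) (hN : β * 11.111 ≤ 1) (hx1 : 1.1901 ≤ x) (hx2 : x ≤ 1.2901)
    (hy1 : -0.484 ≤ y) (hy2 : y ≤ -0.124) : ‖HH β (x + y * I) - 1‖ ≤ 0.14 := by
  refine le_epsJ (C := 1.5541) (N0 := 11.111) (J_boxp 1.1901 1.2901 0.484 0 (-0.124) 1.2043 1.378 1.5595 0.945 0.4982 3.3334 11.111 1.1443 5.373 1.697 0.4771 0.6021 0.3724 0.6516 1.8154 0.6686 2.1478 2.6352 3.3464 0.001246 0.01598 0.0007181 0.0000003101 0.0005945 0.0000003101 0.0000003101 0.0000003101 1.5541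
    hβ hN hx1 hx2 hy1 hy2 (by norm_num) (by norm_num) (by linarith) (by norm_num) (by norm_num) (by norm_num) (by norm_num) (by norm_num) (by norm_num) (by norm_num) (by norm_num) (by norm_num) (by norm_num) (by norm_num) (by norm_num) (by norm_num) (by norm_num) (by norm_num) (by norm_num) (by norm_num) (by norm_num) (by norm_num) (by norm_num) (by norm_num)
    (cube_sqrt_geJ (s := 0.7864) (by norm_num) (by norm_num) (by norm_num) (by norm_num))
    (cube_sqrt_geJ (s := 0.9273) (by norm_num) (by norm_num) (by norm_num) (by norm_num))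
    (by norm_num) (by norm_num) (by norm_num) (by norm_num) (by norm_num) (by norm_num) (by norm_num) (by norm_num) (by norm_num) (by norm_num) (by norm_num) (by norm_num) (by norm_num) (by norm_num) (by norm_num) (by norm_num) (by norm_num) (by norm_num)
    (exp_neg_leJ (r := 0.689) 6 (by norm_num) (by norm_num) (by norm_num) (by norm_num))
    (exp_neg_leJ (r := 0.137) 4 (by norm_num) (by norm_num) (by norm_num) (by norm_num))
    (exp_neg_leJ (r := 0.239) 7 (by norm_num) (by norm_num) (by norm_num) (by norm_num))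
    (exp_neg_leJ (r := 0.99) 14 (by norm_num) (by norm_num) (by norm_num) (by norm_num))
    (exp_neg_leJ (r := 0.428) 7 (by norm_num) (by norm_num) (by norm_num) (by norm_num))
    (exp_neg_leJ (r := 0.99) 14 (by norm_num) (by norm_num) (by norm_num) (by norm_num))
    (exp_neg_leJ (r := 0.99) 14 (by norm_num) (by norm_num) (by norm_num) (by norm_num))
    (exp_neg_leJ (r := 0.99) 14 (by norm_num) (by norm_num) (by norm_num) (by norm_num))
    (by norm_num)) (by norm_num) hN hβ.le (by norm_num)

private theorem JD6b_p0_c1_b0_7 {β x y : ℝ} (hβ : 0 < β) (hN : β * 11.111 ≤ 1) (hx1 : 1.2901 ≤ x) (hx2 : x ≤ 1.3828)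
    (hy1 : -0.484 ≤ y) (hy2 : y ≤ -0.124) : ‖HH β (x + y * I) - 1‖ ≤ 0.14 := by
  refine le_epsJ (C := 1.4489) (N0 := 11.111) (J_boxp 1.2901 1.3828 0.484 0 (-0.124) 1.2748 1.4651 1.637 0.889 0.5105 3.3334 11.111 1.1493 5.424 1.701 0.4415 0.6373 0.3932 0.6859 1.7633 0.7172 2.2862 2.8352 3.3097 0.000841 0.01268 0.0004903 0.0000003101 0.0003475 0.0000003101 0.0000003101 0.0000003101 1.4489
    hβ hN hx1 hx2 hy1 hy2 (by norm_num) (by norm_num) (by linarith) (by norm_num) (by norm_num) (by norm_num) (by norm_num) (by norm_num) (by norm_num) (by norm_num) (by norm_num) (by norm_num) (by norm_num) (by norm_num) (by norm_num) (by norm_num) (by norm_num) (by norm_num) (by norm_num) (by norm_num) (by norm_num) (by norm_num) (by norm_num) (by norm_num)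
    (cube_sqrt_geJ (s := 0.7854) (by norm_num) (by norm_num) (by norm_num) (by norm_num))
    (cube_sqrt_geJ (s := 0.9269) (by norm_num) (by norm_num) (by norm_num) (by norm_num))
    (by norm_num) (by norm_num) (by norm_num) (by norm_num) (by norm_num) (by norm_num) (by norm_num) (by norm_num) (by norm_num) (by norm_num) (by norm_num) (by norm_num) (by norm_num) (by norm_num) (by norm_num) (by norm_num) (by norm_num) (by norm_num)
    (exp_neg_leJ (r := 0.081) 7 (by norm_num) (by norm_num) (by norm_num) (by norm_num))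
    (exp_neg_leJ (r := 0.368) 4 (by norm_num) (by norm_num) (by norm_num) (by norm_num))
    (exp_neg_leJ (r := 0.621) 7 (by norm_num) (by norm_num) (by norm_num) (by norm_num))
    (exp_neg_leJ (r := 0.99) 14 (by norm_num) (by norm_num) (by norm_num) (by norm_num))
    (exp_neg_leJ (r := 0.968) 7 (by norm_num) (by norm_num) (by norm_num) (by norm_num))
    (exp_neg_leJ (r := 0.99) 14 (by norm_num) (by norm_num) (by norm_num) (by norm_num))
    (exp_neg_leJ (r := 0.99) 14 (by norm_num) (by norm_num) (by norm_num) (by norm_num))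
    (exp_neg_leJ (r := 0.99) 14 (by norm_num) (by norm_num) (by norm_num) (by norm_num))
    (by norm_num)) (by norm_num) hN hβ.le (by norm_num)

private theorem JD6b_p0_c1_b1_0 {β x y : ℝ} (hβ : 0 < β) (hN : β * 11.111 ≤ 1) (hx1 : 0.9101 ≤ x) (hx2 : x ≤ 1.3828)
    (hy1 : -0.124 ≤ y) (hy2 : y ≤ -0.095) : ‖HH β (x + y * I) - 1‖ ≤ 0.14 := by
  refine le_epsJ (C := 1.2911) (N0 := 11.111) (J_boxp 0.9101 1.3828 0.124 0 (-0.095) 1.2628 1.3884 1.6527 0.906 0.5129 3.3334 11.111 1.0995 4.942 1.659 0.7738 0.6313 0.3999 1.124 2.9139 0.7293 1.7601 3.0538 2.7582 0.0008993 0.01177 0.000003773 0.0000003101 0.0003027 0.0000003101 0.0000003101 0.0000003101 1.2911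
    hβ hN hx1 hx2 hy1 hy2 (by norm_num) (by norm_num) (by linarith) (by norm_num) (by norm_num) (by norm_num) (by norm_num) (by norm_num) (by norm_num) (by norm_num) (by norm_num) (by norm_num) (by norm_num) (by norm_num) (by norm_num) (by norm_num) (by norm_num) (by norm_num) (by norm_num) (by norm_num) (by norm_num) (by norm_num) (by norm_num) (by norm_num)
    (cube_sqrt_geJ (s := 0.7959) (by norm_num) (by norm_num) (by norm_num) (by norm_num))
    (cube_sqrt_geJ (s := 0.9302) (by norm_num) (by norm_num) (by norm_num) (by norm_num))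
    (by norm_num) (by norm_num) (by norm_num) (by norm_num) (by norm_num) (by norm_num) (by norm_num) (by norm_num) (by norm_num) (by norm_num) (by norm_num) (by norm_num) (by norm_num) (by norm_num) (by norm_num) (by norm_num) (by norm_num) (by norm_num)
    (exp_neg_leJ (r := 0.014) 7 (by norm_num) (by norm_num) (by norm_num) (by norm_num))
    (exp_neg_leJ (r := 0.443) 4 (by norm_num) (by norm_num) (by norm_num) (by norm_num))
    (exp_neg_leJ (r := 0.488) 12 (by norm_num) (by norm_num) (by norm_num) (by norm_num))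
    (exp_neg_leJ (r := 0.99) 14 (by norm_num) (by norm_num) (by norm_num) (by norm_num))
    (exp_neg_leJ (r := 0.103) 8 (by norm_num) (by norm_num) (by norm_num) (by norm_num))
    (exp_neg_leJ (r := 0.99) 14 (by norm_num) (by norm_num) (by norm_num) (by norm_num))
    (exp_neg_leJ (r := 0.99) 14 (by norm_num) (by norm_num) (by norm_num) (by norm_num))
    (exp_neg_leJ (r := 0.99) 14 (by norm_num) (by norm_num) (by norm_num) (by norm_num))
    (by norm_num)) (by norm_num) hN hβ.le (by norm_num)

private theorem JD6b_p0_c1 {κ t β : ℝ} (h : DomR κ t) (hβ : 0 < β) (hk1 : 0.87 ≤ κ) (hk2 : κ ≤ 0.9)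
    (ht1 : -0.576 ≤ t + κ) (ht2 : t + κ ≤ -0.4398) (hR0 : β * 10 ≤ κ) (hR : β * (4.95 * (1 + κ ^ 2)) ≤ κ) :
    ∀ s : ℂ, ‖s - sg κ t‖ ≤ 0.15 → ‖HH β s - 1‖ ≤ 0.14 := by
  have hN : β * 11.111 ≤ 1 := bNR hβ h.1 hk2 hR0 (by norm_num)
  have hy1 : -0.334 ≤ sy κ t := syL_ge h 0.87 0.9 0.576 0.334 0.71605 0.71606 0.2718 0.26573 0.27491 hk1 hk2 (by linarith) (by norm_num) (by norm_num) (by norm_num)
    (expm_ge (by norm_num) (by norm_num) (by norm_num) (by norm_num)) (expm_le (by norm_num) (by norm_num) (by norm_num)) (by norm_num)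
    (by norm_num) (by norm_num) (by norm_num) (by norm_num) (by norm_num) (by norm_num)
  have hy2 : sy κ t ≤ -0.245 := syL_le h 0.87 0.9 0.4398 0.245 0.7827 0.78271 0.21306 0.22042 hk1 hk2 (by linarith) (by norm_num) (by norm_num) (by norm_num)
    (expm_ge (by norm_num) (by norm_num) (by norm_num) (by norm_num)) (expm_le (by norm_num) (by norm_num) (by norm_num)) (by norm_num)
    (by norm_num) (by norm_num) (by norm_num) (by norm_num) (by norm_num) (by norm_num)
  have hx1 : 1.0601 ≤ sx κ t := sx_lo h 0.87 (-0.245) 0.334 1.27762 1.0601 hk1 (by norm_num) hy2 (abs_le.2 ⟨by linarith, by linarith⟩) (by rw [neg_neg]; exact expn_ge (by norm_num) (by norm_num)) (by norm_num) (by norm_num)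
  have hx2 : sx κ t ≤ 1.2328 := sx_hi h 0.9 (-0.334) 0.245 1.39655 1.2328 hk2 hy1 (by norm_num) (by rw [abs_of_nonpos (by linarith)]; linarith) (by rw [neg_neg]; exact expn_le (by norm_num) (by norm_num) (by norm_num)) (by norm_num) (by norm_num)
  intro s hs
  have hs' : ‖s - ((sx κ t : ℂ) + (sy κ t : ℂ) * I)‖ ≤ 0.15 := hs
  obtain ⟨es, ⟨s1, s2⟩, ⟨s3, s4⟩⟩ := disc_split hs'
  have X1 : 0.9101 ≤ s.re := by linarith
  have X2 : s.re ≤ 1.3828 := by linarith
  have Y1 : (-0.484) ≤ s.im := by linarith
  have Y2 : s.im ≤ (-0.095) := by linarith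
  rw [es]
  rcases le_total s.im (-0.124) with f0 | g0
  · rcases le_total s.re 0.9301 with u0 | v0
    · exact JD6b_p0_c1_b0_0 hβ hN (by linarith) (by linarith) (by linarith) (by linarith)
    rcases le_total s.re 0.9601 with u1 | v1
    · exact JD6b_p0_c1_b0_1 hβ hN (by linarith) (by linarith) (by linarith) (by linarith)
    rcases le_total s.re 1.0001 with u2 | v2
    · exact JD6b_p0_c1_b0_2 hβ hN (by linarith) (by linarith) (by linarith) (by linarith)
    rcases le_total s.re 1.0501 with u3 | v3
    · exact JD6b_p0_c1_b0_3 hβ hN (by linarith) (by linarith) (by linarith) (by linarith)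
    rcases le_total s.re 1.1101 with u4 | v4
    · exact JD6b_p0_c1_b0_4 hβ hN (by linarith) (by linarith) (by linarith) (by linarith)
    rcases le_total s.re 1.1901 with u5 | v5
    · exact JD6b_p0_c1_b0_5 hβ hN (by linarith) (by linarith) (by linarith) (by linarith)
    rcases le_total s.re 1.2901 with u6 | v6
    · exact JD6b_p0_c1_b0_6 hβ hN (by linarith) (by linarith) (by linarith) (by linarith)
    exact JD6b_p0_c1_b0_7 hβ hN (by linarith) (by linarith) (by linarith) (by linarith)
  exact JD6b_p0_c1_b1_0 hβ hN (by linarith) (by linarith) (by linarith) (by linarith)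

theorem JD6b_0 {κ t β : ℝ} (h : DomR κ t) (hβ : 0 < β) (hk1 : 0.75 ≤ κ) (hk2 : κ ≤ 0.9)
    (ht1 : -0.576 ≤ t + κ) (ht2 : t + κ ≤ -0.4398) (hR0 : β * 10 ≤ κ) (hR : β * (4.95 * (1 + κ ^ 2)) ≤ κ) :
    ∀ s : ℂ, ‖s - sg κ t‖ ≤ 0.15 → ‖HH β s - 1‖ ≤ 0.14 := by
  rcases le_total κ 0.87 with f0 | g0
  · exact JD6b_p0_c0 h hβ hk1 f0 ht1 ht2 hR0 hR
  exact JD6b_p0_c1 h hβ g0 hk2 ht1 ht2 hR0 hR


private theorem JD6b_p1_c0_b0_0 {β x y : ℝ} (hβ : 0 < β) (hN : β * 10.204 ≤ 1) (hx1 : 0.9472 ≤ x) (hx2 : x ≤ 0.9572)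
    (hy1 : -0.482 ≤ y) (hy2 : y ≤ -0.362) : ‖HH β (x + y * I) - 1‖ ≤ 0.14 := by
  refine le_epsJ (C := 1.4253) (N0 := 10.204) (J_boxp 0.9472 0.9572 0.482 0 (-0.362) 1.0347 1.0718 1.1504 1.0191 0.4279 3.1944 10.204 1.0359 4.405 1.608 0.607 0.5173 0.3387 0.5716 2.0069 0.5517 1.8115 2.1548 3.693 0.005103 0.03156 0.002938 0.0000003101 0.003594 0.0000003101 0.0000003101 0.0000003101 1.4253
    hβ hN hx1 hx2 hy1 hy2 (by norm_num) (by norm_num) (by linarith) (by norm_num) (by norm_num) (by norm_num) (by norm_num) (by norm_num) (by norm_num) (by norm_num) (by norm_num) (by norm_num) (by norm_num) (by norm_num) (by norm_num) (by norm_num) (by norm_num) (by norm_num) (by norm_num) (by norm_num) (by norm_num) (by norm_num) (by norm_num) (by norm_num)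
    (cube_sqrt_geJ (s := 0.8091) (by norm_num) (by norm_num) (by norm_num) (by norm_num))
    (cube_sqrt_geJ (s := 0.9344) (by norm_num) (by norm_num) (by norm_num) (by norm_num))
    (by norm_num) (by norm_num) (by norm_num) (by norm_num) (by norm_num) (by norm_num) (by norm_num) (by norm_num) (by norm_num) (by norm_num) (by norm_num) (by norm_num) (by norm_num) (by norm_num) (by norm_num) (by norm_num) (by norm_num) (by norm_num)
    (exp_neg_leJ (r := 0.278) 5 (by norm_num) (by norm_num) (by norm_num) (by norm_num))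
    (exp_neg_leJ (r := 0.456) 3 (by norm_num) (by norm_num) (by norm_num) (by norm_num))
    (exp_neg_leJ (r := 0.832) 5 (by norm_num) (by norm_num) (by norm_num) (by norm_num))
    (exp_neg_leJ (r := 0.99) 14 (by norm_num) (by norm_num) (by norm_num) (by norm_num))
    (exp_neg_leJ (r := 0.629) 5 (by norm_num) (by norm_num) (by norm_num) (by norm_num))
    (exp_neg_leJ (r := 0.99) 14 (by norm_num) (by norm_num) (by norm_num) (by norm_num))
    (exp_neg_leJ (r := 0.99) 14 (by norm_num) (by norm_num) (by norm_num) (by norm_num))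
    (exp_neg_leJ (r := 0.99) 14 (by norm_num) (by norm_num) (by norm_num) (by norm_num))
    (by norm_num)) (by norm_num) hN hβ.le (by norm_num)

private theorem JD6b_p1_c0_b0_1 {β x y : ℝ} (hβ : 0 < β) (hN : β * 10.204 ≤ 1) (hx1 : 0.9572 ≤ x) (hx2 : x ≤ 0.9672)
    (hy1 : -0.482 ≤ y) (hy2 : y ≤ -0.362) : ‖HH β (x + y * I) - 1‖ ≤ 0.14 := by
  refine le_epsJ (C := 1.4154) (N0 := 10.204) (J_boxp 0.9572 0.9672 0.482 0 (-0.362) 1.0418 1.0807 1.1587 1.0123 0.4295 3.1944 10.204 1.0374 4.416 1.609 0.6031 0.5208 0.3407 0.5751 2.0014 0.5566 1.8253 2.1748 3.6888 0.004923 0.03094 0.002835 0.0000003101 0.00342 0.0000003101 0.0000003101 0.0000003101 1.4154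
    hβ hN hx1 hx2 hy1 hy2 (by norm_num) (by norm_num) (by linarith) (by norm_num) (by norm_num) (by norm_num) (by norm_num) (by norm_num) (by norm_num) (by norm_num) (by norm_num) (by norm_num) (by norm_num) (by norm_num) (by norm_num) (by norm_num) (by norm_num) (by norm_num) (by norm_num) (by norm_num) (by norm_num) (by norm_num) (by norm_num) (by norm_num)
    (cube_sqrt_geJ (s := 0.8088) (by norm_num) (by norm_num) (by norm_num) (by norm_num))
    (cube_sqrt_geJ (s := 0.9343) (by norm_num) (by norm_num) (by norm_num) (by norm_num))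
    (by norm_num) (by norm_num) (by norm_num) (by norm_num) (by norm_num) (by norm_num) (by norm_num) (by norm_num) (by norm_num) (by norm_num) (by norm_num) (by norm_num) (by norm_num) (by norm_num) (by norm_num) (by norm_num) (by norm_num) (by norm_num)
    (exp_neg_leJ (r := 0.314) 5 (by norm_num) (by norm_num) (by norm_num) (by norm_num))
    (exp_neg_leJ (r := 0.476) 3 (by norm_num) (by norm_num) (by norm_num) (by norm_num))
    (exp_neg_leJ (r := 0.868) 5 (by norm_num) (by norm_num) (by norm_num) (by norm_num))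
    (exp_neg_leJ (r := 0.99) 14 (by norm_num) (by norm_num) (by norm_num) (by norm_num))
    (exp_neg_leJ (r := 0.679) 5 (by norm_num) (by norm_num) (by norm_num) (by norm_num))
    (exp_neg_leJ (r := 0.99) 14 (by norm_num) (by norm_num) (by norm_num) (by norm_num))
    (exp_neg_leJ (r := 0.99) 14 (by norm_num) (by norm_num) (by norm_num) (by norm_num))
    (exp_neg_leJ (r := 0.99) 14 (by norm_num) (by norm_num) (by norm_num) (by norm_num))
    (by norm_num)) (by norm_num) hN hβ.le (by norm_num)

private theorem JD6b_p1_c0_b0_2 {β x y : ℝ} (hβ : 0 < β) (hN : β * 10.204 ≤ 1) (hx1 : 0.9672 ≤ x) (hx2 : x ≤ 0.9772)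
    (hy1 : -0.482 ≤ y) (hy2 : y ≤ -0.362) : ‖HH β (x + y * I) - 1‖ ≤ 0.14 := by
  refine le_epsJ (C := 1.4066) (N0 := 10.204) (J_boxp 0.9672 0.9772 0.482 0 (-0.362) 1.0488 1.0897 1.1671 1.0059 0.431 3.1944 10.204 1.039 4.429 1.611 0.5993 0.5243 0.3427 0.5785 1.9959 0.5614 1.8391 2.1948 3.6843 0.004754 0.03033 0.002738 0.0000003101 0.003257 0.0000003101 0.0000003101 0.0000003101 1.4066
    hβ hN hx1 hx2 hy1 hy2 (by norm_num) (by norm_num) (by linarith) (by norm_num) (by norm_num) (by norm_num) (by norm_num) (by norm_num) (by norm_num) (by norm_num) (by norm_num) (by norm_num) (by norm_num) (by norm_num) (by norm_num) (by norm_num) (by norm_num) (by norm_num) (by norm_num) (by norm_num) (by norm_num) (by norm_num) (by norm_num) (by norm_num)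
    (cube_sqrt_geJ (s := 0.8084) (by norm_num) (by norm_num) (by norm_num) (by norm_num))
    (cube_sqrt_geJ (s := 0.9342) (by norm_num) (by norm_num) (by norm_num) (by norm_num))
    (by norm_num) (by norm_num) (by norm_num) (by norm_num) (by norm_num) (by norm_num) (by norm_num) (by norm_num) (by norm_num) (by norm_num) (by norm_num) (by norm_num) (by norm_num) (by norm_num) (by norm_num) (by norm_num) (by norm_num) (by norm_num)
    (exp_neg_leJ (r := 0.349) 5 (by norm_num) (by norm_num) (by norm_num) (by norm_num))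
    (exp_neg_leJ (r := 0.496) 3 (by norm_num) (by norm_num) (by norm_num) (by norm_num))
    (exp_neg_leJ (r := 0.903) 5 (by norm_num) (by norm_num) (by norm_num) (by norm_num))
    (exp_neg_leJ (r := 0.99) 14 (by norm_num) (by norm_num) (by norm_num) (by norm_num))
    (exp_neg_leJ (r := 0.728) 5 (by norm_num) (by norm_num) (by norm_num) (by norm_num))
    (exp_neg_leJ (r := 0.99) 14 (by norm_num) (by norm_num) (by norm_num) (by norm_num))
    (exp_neg_leJ (r := 0.99) 14 (by norm_num) (by norm_num) (by norm_num) (by norm_num))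
    (exp_neg_leJ (r := 0.99) 14 (by norm_num) (by norm_num) (by norm_num) (by norm_num))
    (by norm_num)) (by norm_num) hN hβ.le (by norm_num)

private theorem JD6b_p1_c0_b0_3 {β x y : ℝ} (hβ : 0 < β) (hN : β * 10.204 ≤ 1) (hx1 : 0.9772 ≤ x) (hx2 : x ≤ 0.9872)
    (hy1 : -0.482 ≤ y) (hy2 : y ≤ -0.362) : ‖HH β (x + y * I) - 1‖ ≤ 0.14 := by
  refine le_epsJ (C := 1.3974) (N0 := 10.204) (J_boxp 0.9772 0.9872 0.482 0 (-0.362) 1.0558 1.0986 1.1755 0.9994 0.4326 3.1944 10.204 1.0406 4.442 1.612 0.5955 0.5278 0.3447 0.5819 1.9904 0.5663 1.853 2.2148 3.6801 0.004586 0.0297 0.002648 0.0000003101 0.003099 0.0000003101 0.0000003101 0.0000003101 1.3974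
    hβ hN hx1 hx2 hy1 hy2 (by norm_num) (by norm_num) (by linarith) (by norm_num) (by norm_num) (by norm_num) (by norm_num) (by norm_num) (by norm_num) (by norm_num) (by norm_num) (by norm_num) (by norm_num) (by norm_num) (by norm_num) (by norm_num) (by norm_num) (by norm_num) (by norm_num) (by norm_num) (by norm_num) (by norm_num) (by norm_num) (by norm_num)
    (cube_sqrt_geJ (s := 0.8081) (by norm_num) (by norm_num) (by norm_num) (by norm_num))
    (cube_sqrt_geJ (s := 0.9341) (by norm_num) (by norm_num) (by norm_num) (by norm_num))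
    (by norm_num) (by norm_num) (by norm_num) (by norm_num) (by norm_num) (by norm_num) (by norm_num) (by norm_num) (by norm_num) (by norm_num) (by norm_num) (by norm_num) (by norm_num) (by norm_num) (by norm_num) (by norm_num) (by norm_num) (by norm_num)
    (exp_neg_leJ (r := 0.385) 5 (by norm_num) (by norm_num) (by norm_num) (by norm_num))
    (exp_neg_leJ (r := 0.517) 3 (by norm_num) (by norm_num) (by norm_num) (by norm_num))
    (exp_neg_leJ (r := 0.937) 5 (by norm_num) (by norm_num) (by norm_num) (by norm_num))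
    (exp_neg_leJ (r := 0.99) 14 (by norm_num) (by norm_num) (by norm_num) (by norm_num))
    (exp_neg_leJ (r := 0.778) 5 (by norm_num) (by norm_num) (by norm_num) (by norm_num))
    (exp_neg_leJ (r := 0.99) 14 (by norm_num) (by norm_num) (by norm_num) (by norm_num))
    (exp_neg_leJ (r := 0.99) 14 (by norm_num) (by norm_num) (by norm_num) (by norm_num))
    (exp_neg_leJ (r := 0.99) 14 (by norm_num) (by norm_num) (by norm_num) (by norm_num))
    (by norm_num)) (by norm_num) hN hβ.le (by norm_num)

private theorem JD6b_p1_c0_b0_4 {β x y : ℝ} (hβ : 0 < β) (hN : β * 10.204 ≤ 1) (hx1 : 0.9872 ≤ x) (hx2 : x ≤ 1.0072)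
    (hy1 : -0.482 ≤ y) (hy2 : y ≤ -0.362) : ‖HH β (x + y * I) - 1‖ ≤ 0.14 := by
  refine le_epsJ (C := 1.4228) (N0 := 10.204) (J_boxp 0.9872 1.0072 0.482 0 (-0.362) 1.0629 1.1166 1.1923 0.9965 0.4357 3.1944 10.204 1.0506 4.522 1.62 0.5878 0.5314 0.3453 0.5853 1.9794 0.5712 1.8668 2.2348 3.6512 0.004419 0.02952 0.002558 0.0000003101 0.002949 0.0000003101 0.0000003101 0.0000003101 1.4228
    hβ hN hx1 hx2 hy1 hy2 (by norm_num) (by norm_num) (by linarith) (by norm_num) (by norm_num) (by norm_num) (by norm_num) (by norm_num) (by norm_num) (by norm_num) (by norm_num) (by norm_num) (by norm_num) (by norm_num) (by norm_num) (by norm_num) (by norm_num) (by norm_num) (by norm_num) (by norm_num) (by norm_num) (by norm_num) (by norm_num) (by norm_num)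
    (cube_sqrt_geJ (s := 0.8061) (by norm_num) (by norm_num) (by norm_num) (by norm_num))
    (cube_sqrt_geJ (s := 0.9334) (by norm_num) (by norm_num) (by norm_num) (by norm_num))
    (by norm_num) (by norm_num) (by norm_num) (by norm_num) (by norm_num) (by norm_num) (by norm_num) (by norm_num) (by norm_num) (by norm_num) (by norm_num) (by norm_num) (by norm_num) (by norm_num) (by norm_num) (by norm_num) (by norm_num) (by norm_num)
    (exp_neg_leJ (r := 0.422) 5 (by norm_num) (by norm_num) (by norm_num) (by norm_num))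
    (exp_neg_leJ (r := 0.523) 3 (by norm_num) (by norm_num) (by norm_num) (by norm_num))
    (exp_neg_leJ (r := 0.972) 5 (by norm_num) (by norm_num) (by norm_num) (by norm_num))
    (exp_neg_leJ (r := 0.99) 14 (by norm_num) (by norm_num) (by norm_num) (by norm_num))
    (exp_neg_leJ (r := 0.828) 5 (by norm_num) (by norm_num) (by norm_num) (by norm_num))
    (exp_neg_leJ (r := 0.99) 14 (by norm_num) (by norm_num) (by norm_num) (by norm_num))
    (exp_neg_leJ (r := 0.99) 14 (by norm_num) (by norm_num) (by norm_num) (by norm_num))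
    (exp_neg_leJ (r := 0.99) 14 (by norm_num) (by norm_num) (by norm_num) (by norm_num))
    (by norm_num)) (by norm_num) hN hβ.le (by norm_num)

private theorem JD6b_p1_c0_b0_5 {β x y : ℝ} (hβ : 0 < β) (hN : β * 10.204 ≤ 1) (hx1 : 1.0072 ≤ x) (hx2 : x ≤ 1.0272)
    (hy1 : -0.482 ≤ y) (hy2 : y ≤ -0.362) : ‖HH β (x + y * I) - 1‖ ≤ 0.14 := by
  refine le_epsJ (C := 1.4047) (N0 := 10.204) (J_boxp 1.0072 1.0272 0.482 0 (-0.362) 1.077 1.1347 1.2093 0.9839 0.4388 3.1944 10.204 1.0536 4.547 1.622 0.5801 0.5384 0.3493 0.5922 1.9684 0.5809 1.8945 2.2748 3.642 0.004117 0.02834 0.002377 0.0000003101 0.002674 0.0000003101 0.0000003101 0.0000003101 1.4047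
    hβ hN hx1 hx2 hy1 hy2 (by norm_num) (by norm_num) (by linarith) (by norm_num) (by norm_num) (by norm_num) (by norm_num) (by norm_num) (by norm_num) (by norm_num) (by norm_num) (by norm_num) (by norm_num) (by norm_num) (by norm_num) (by norm_num) (by norm_num) (by norm_num) (by norm_num) (by norm_num) (by norm_num) (by norm_num) (by norm_num) (by norm_num)
    (cube_sqrt_geJ (s := 0.8054) (by norm_num) (by norm_num) (by norm_num) (by norm_num))
    (cube_sqrt_geJ (s := 0.9332) (by norm_num) (by norm_num) (by norm_num) (by norm_num))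
    (by norm_num) (by norm_num) (by norm_num) (by norm_num) (by norm_num) (by norm_num) (by norm_num) (by norm_num) (by norm_num) (by norm_num) (by norm_num) (by norm_num) (by norm_num) (by norm_num) (by norm_num) (by norm_num) (by norm_num) (by norm_num)
    (exp_neg_leJ (r := 0.493) 5 (by norm_num) (by norm_num) (by norm_num) (by norm_num))
    (exp_neg_leJ (r := 0.564) 3 (by norm_num) (by norm_num) (by norm_num) (by norm_num))
    (exp_neg_leJ (r := 0.042) 6 (by norm_num) (by norm_num) (by norm_num) (by norm_num))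
    (exp_neg_leJ (r := 0.99) 14 (by norm_num) (by norm_num) (by norm_num) (by norm_num))
    (exp_neg_leJ (r := 0.927) 5 (by norm_num) (by norm_num) (by norm_num) (by norm_num))
    (exp_neg_leJ (r := 0.99) 14 (by norm_num) (by norm_num) (by norm_num) (by norm_num))
    (exp_neg_leJ (r := 0.99) 14 (by norm_num) (by norm_num) (by norm_num) (by norm_num))
    (exp_neg_leJ (r := 0.99) 14 (by norm_num) (by norm_num) (by norm_num) (by norm_num))
    (by norm_num)) (by norm_num) hN hβ.le (by norm_num)

private theorem JD6b_p1_c0_b0_6 {β x y : ℝ} (hβ : 0 < β) (hN : β * 10.204 ≤ 1) (hx1 : 1.0272 ≤ x) (hx2 : x ≤ 1.0572)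
    (hy1 : -0.482 ≤ y) (hy2 : y ≤ -0.362) : ‖HH β (x + y * I) - 1‖ ≤ 0.14 := by
  refine le_epsJ (C := 1.4219) (N0 := 10.204) (J_boxp 1.0272 1.0572 0.482 0 (-0.362) 1.0911 1.1619 1.2348 0.975 0.4434 3.1944 10.204 1.0649 4.64 1.631 0.5685 0.5455 0.3518 0.599 1.9518 0.5906 1.9222 2.3148 3.6081 0.003827 0.02764 0.002217 0.0000003101 0.002416 0.0000003101 0.0000003101 0.0000003101 1.4219
    hβ hN hx1 hx2 hy1 hy2 (by norm_num) (by norm_num) (by linarith) (by norm_num) (by norm_num) (by norm_num) (by norm_num) (by norm_num) (by norm_num) (by norm_num) (by norm_num) (by norm_num) (by norm_num) (by norm_num) (by norm_num) (by norm_num) (by norm_num) (by norm_num) (by norm_num) (by norm_num) (by norm_num) (by norm_num) (by norm_num) (by norm_num)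
    (cube_sqrt_geJ (s := 0.8031) (by norm_num) (by norm_num) (by norm_num) (by norm_num))
    (cube_sqrt_geJ (s := 0.9325) (by norm_num) (by norm_num) (by norm_num) (by norm_num))
    (by norm_num) (by norm_num) (by norm_num) (by norm_num) (by norm_num) (by norm_num) (by norm_num) (by norm_num) (by norm_num) (by norm_num) (by norm_num) (by norm_num) (by norm_num) (by norm_num) (by norm_num) (by norm_num) (by norm_num) (by norm_num)
    (exp_neg_leJ (r := 0.566) 5 (by norm_num) (by norm_num) (by norm_num) (by norm_num))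
    (exp_neg_leJ (r := 0.589) 3 (by norm_num) (by norm_num) (by norm_num) (by norm_num))
    (exp_neg_leJ (r := 0.112) 6 (by norm_num) (by norm_num) (by norm_num) (by norm_num))
    (exp_neg_leJ (r := 0.99) 14 (by norm_num) (by norm_num) (by norm_num) (by norm_num))
    (exp_neg_leJ (r := 0.026) 6 (by norm_num) (by norm_num) (by norm_num) (by norm_num))
    (exp_neg_leJ (r := 0.99) 14 (by norm_num) (by norm_num) (by norm_num) (by norm_num))
    (exp_neg_leJ (r := 0.99) 14 (by norm_num) (by norm_num) (by norm_num) (by norm_num))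
    (exp_neg_leJ (r := 0.99) 14 (by norm_num) (by norm_num) (by norm_num) (by norm_num))
    (by norm_num)) (by norm_num) hN hβ.le (by norm_num)

private theorem JD6b_p1_c0_b0_7 {β x y : ℝ} (hβ : 0 < β) (hN : β * 10.204 ≤ 1) (hx1 : 1.0572 ≤ x) (hx2 : x ≤ 1.0872)
    (hy1 : -0.482 ≤ y) (hy2 : y ≤ -0.362) : ‖HH β (x + y * I) - 1‖ ≤ 0.14 := by
  refine le_epsJ (C := 1.3973) (N0 := 10.204) (J_boxp 1.0572 1.0872 0.482 0 (-0.362) 1.1122 1.1893 1.2606 0.9573 0.448 3.1944 10.204 1.0694 4.678 1.635 0.557 0.556 0.3578 0.6093 1.9351 0.6052 1.9638 2.3748 3.5936 0.00344 0.02601 0.001996 0.0000003101 0.002081 0.0000003101 0.0000003101 0.0000003101 1.3973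
    hβ hN hx1 hx2 hy1 hy2 (by norm_num) (by norm_num) (by linarith) (by norm_num) (by norm_num) (by norm_num) (by norm_num) (by norm_num) (by norm_num) (by norm_num) (by norm_num) (by norm_num) (by norm_num) (by norm_num) (by norm_num) (by norm_num) (by norm_num) (by norm_num) (by norm_num) (by norm_num) (by norm_num) (by norm_num) (by norm_num) (by norm_num)
    (cube_sqrt_geJ (s := 0.8022) (by norm_num) (by norm_num) (by norm_num) (by norm_num))
    (cube_sqrt_geJ (s := 0.9322) (by norm_num) (by norm_num) (by norm_num) (by norm_num))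
    (by norm_num) (by norm_num) (by norm_num) (by norm_num) (by norm_num) (by norm_num) (by norm_num) (by norm_num) (by norm_num) (by norm_num) (by norm_num) (by norm_num) (by norm_num) (by norm_num) (by norm_num) (by norm_num) (by norm_num) (by norm_num)
    (exp_neg_leJ (r := 0.673) 5 (by norm_num) (by norm_num) (by norm_num) (by norm_num))
    (exp_neg_leJ (r := 0.65) 3 (by norm_num) (by norm_num) (by norm_num) (by norm_num))
    (exp_neg_leJ (r := 0.217) 6 (by norm_num) (by norm_num) (by norm_num) (by norm_num))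
    (exp_neg_leJ (r := 0.99) 14 (by norm_num) (by norm_num) (by norm_num) (by norm_num))
    (exp_neg_leJ (r := 0.175) 6 (by norm_num) (by norm_num) (by norm_num) (by norm_num))
    (exp_neg_leJ (r := 0.99) 14 (by norm_num) (by norm_num) (by norm_num) (by norm_num))
    (exp_neg_leJ (r := 0.99) 14 (by norm_num) (by norm_num) (by norm_num) (by norm_num))
    (exp_neg_leJ (r := 0.99) 14 (by norm_num) (by norm_num) (by norm_num) (by norm_num))
    (by norm_num)) (by norm_num) hN hβ.le (by norm_num)

private theorem JD6b_p1_c0_b0_8 {β x y : ℝ} (hβ : 0 < β) (hN : β * 10.204 ≤ 1) (hx1 : 1.0872 ≤ x) (hx2 : x ≤ 1.1272)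
    (hy1 : -0.482 ≤ y) (hy2 : y ≤ -0.362) : ‖HH β (x + y * I) - 1‖ ≤ 0.14 := by
  refine le_epsJ (C := 1.4073) (N0 := 10.204) (J_boxp 1.0872 1.1272 0.482 0 (-0.362) 1.1333 1.226 1.2953 0.9434 0.4541 3.1944 10.204 1.0818 4.785 1.645 0.5416 0.5666 0.3623 0.6196 1.9129 0.6197 2.0053 2.4348 3.5538 0.00309 0.02485 0.001797 0.0000003101 0.001795 0.0000003101 0.0000003101 0.0000003101 1.4073
    hβ hN hx1 hx2 hy1 hy2 (by norm_num) (by norm_num) (by linarith) (by norm_num) (by norm_num) (by norm_num) (by norm_num) (by norm_num) (by norm_num) (by norm_num) (by norm_num) (by norm_num) (by norm_num) (by norm_num) (by norm_num) (by norm_num) (by norm_num) (by norm_num) (by norm_num) (by norm_num) (by norm_num) (by norm_num) (by norm_num) (by norm_num)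
    (cube_sqrt_geJ (s := 0.7996) (by norm_num) (by norm_num) (by norm_num) (by norm_num))
    (cube_sqrt_geJ (s := 0.9314) (by norm_num) (by norm_num) (by norm_num) (by norm_num))
    (by norm_num) (by norm_num) (by norm_num) (by norm_num) (by norm_num) (by norm_num) (by norm_num) (by norm_num) (by norm_num) (by norm_num) (by norm_num) (by norm_num) (by norm_num) (by norm_num) (by norm_num) (by norm_num) (by norm_num) (by norm_num)
    (exp_neg_leJ (r := 0.781) 5 (by norm_num) (by norm_num) (by norm_num) (by norm_num))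
    (exp_neg_leJ (r := 0.696) 3 (by norm_num) (by norm_num) (by norm_num) (by norm_num))
    (exp_neg_leJ (r := 0.322) 6 (by norm_num) (by norm_num) (by norm_num) (by norm_num))
    (exp_neg_leJ (r := 0.99) 14 (by norm_num) (by norm_num) (by norm_num) (by norm_num))
    (exp_neg_leJ (r := 0.323) 6 (by norm_num) (by norm_num) (by norm_num) (by norm_num))
    (exp_neg_leJ (r := 0.99) 14 (by norm_num) (by norm_num) (by norm_num) (by norm_num))
    (exp_neg_leJ (r := 0.99) 14 (by norm_num) (by norm_num) (by norm_num) (by norm_num))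
    (exp_neg_leJ (r := 0.99) 14 (by norm_num) (by norm_num) (by norm_num) (by norm_num))
    (by norm_num)) (by norm_num) hN hβ.le (by norm_num)

private theorem JD6b_p1_c0_b0_9 {β x y : ℝ} (hβ : 0 < β) (hN : β * 10.204 ≤ 1) (hx1 : 1.1272 ≤ x) (hx2 : x ≤ 1.1772)
    (hy1 : -0.482 ≤ y) (hy2 : y ≤ -0.362) : ‖HH β (x + y * I) - 1‖ ≤ 0.14 := by
  refine le_epsJ (C := 1.4101) (N0 := 10.204) (J_boxp 1.1272 1.1772 0.482 0 (-0.362) 1.1615 1.2721 1.339 0.9245 0.4617 3.1944 10.204 1.0953 4.904 1.656 0.5224 0.5807 0.3687 0.6333 1.885 0.6392 2.0607 2.5148 3.5085 0.002679 0.02327 0.001562 0.0000003101 0.001472 0.0000003101 0.0000003101 0.0000003101 1.4101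
    hβ hN hx1 hx2 hy1 hy2 (by norm_num) (by norm_num) (by linarith) (by norm_num) (by norm_num) (by norm_num) (by norm_num) (by norm_num) (by norm_num) (by norm_num) (by norm_num) (by norm_num) (by norm_num) (by norm_num) (by norm_num) (by norm_num) (by norm_num) (by norm_num) (by norm_num) (by norm_num) (by norm_num) (by norm_num) (by norm_num) (by norm_num)
    (cube_sqrt_geJ (s := 0.7968) (by norm_num) (by norm_num) (by norm_num) (by norm_num))
    (cube_sqrt_geJ (s := 0.9305) (by norm_num) (by norm_num) (by norm_num) (by norm_num))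
    (by norm_num) (by norm_num) (by norm_num) (by norm_num) (by norm_num) (by norm_num) (by norm_num) (by norm_num) (by norm_num) (by norm_num) (by norm_num) (by norm_num) (by norm_num) (by norm_num) (by norm_num) (by norm_num) (by norm_num) (by norm_num)
    (exp_neg_leJ (r := 0.925) 5 (by norm_num) (by norm_num) (by norm_num) (by norm_num))
    (exp_neg_leJ (r := 0.762) 3 (by norm_num) (by norm_num) (by norm_num) (by norm_num))
    (exp_neg_leJ (r := 0.462) 6 (by norm_num) (by norm_num) (by norm_num) (by norm_num))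
    (exp_neg_leJ (r := 0.99) 14 (by norm_num) (by norm_num) (by norm_num) (by norm_num))
    (exp_neg_leJ (r := 0.522) 6 (by norm_num) (by norm_num) (by norm_num) (by norm_num))
    (exp_neg_leJ (r := 0.99) 14 (by norm_num) (by norm_num) (by norm_num) (by norm_num))
    (exp_neg_leJ (r := 0.99) 14 (by norm_num) (by norm_num) (by norm_num) (by norm_num))
    (exp_neg_leJ (r := 0.99) 14 (by norm_num) (by norm_num) (by norm_num) (by norm_num))
    (by norm_num)) (by norm_num) hN hβ.le (by norm_num)

private theorem JD6b_p1_c0_b0_10 {β x y : ℝ} (hβ : 0 < β) (hN : β * 10.204 ≤ 1) (hx1 : 1.1772 ≤ x) (hx2 : x ≤ 1.2372)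
    (hy1 : -0.482 ≤ y) (hy2 : y ≤ -0.362) : ‖HH β (x + y * I) - 1‖ ≤ 0.14 := by
  refine le_epsJ (C := 1.4069) (N0 := 10.204) (J_boxp 1.1772 1.2372 0.482 0 (-0.362) 1.1967 1.3278 1.3921 0.9013 0.4708 3.1944 10.204 1.1096 5.035 1.668 0.4993 0.5983 0.377 0.6504 1.8515 0.6634 2.1299 2.6148 3.4571 0.002232 0.02141 0.001313 0.0000003101 0.001151 0.0000003101 0.0000003101 0.0000003101 1.4069
    hβ hN hx1 hx2 hy1 hy2 (by norm_num) (by norm_num) (by linarith) (by norm_num) (by norm_num) (by norm_num) (by norm_num) (by norm_num) (by norm_num) (by norm_num) (by norm_num) (by norm_num) (by norm_num) (by norm_num) (by norm_num) (by norm_num) (by norm_num) (by norm_num) (by norm_num) (by norm_num) (by norm_num) (by norm_num) (by norm_num) (by norm_num)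
    (cube_sqrt_geJ (s := 0.7938) (by norm_num) (by norm_num) (by norm_num) (by norm_num))
    (cube_sqrt_geJ (s := 0.9295) (by norm_num) (by norm_num) (by norm_num) (by norm_num))
    (by norm_num) (by norm_num) (by norm_num) (by norm_num) (by norm_num) (by norm_num) (by norm_num) (by norm_num) (by norm_num) (by norm_num) (by norm_num) (by norm_num) (by norm_num) (by norm_num) (by norm_num) (by norm_num) (by norm_num) (by norm_num)
    (exp_neg_leJ (r := 0.105) 6 (by norm_num) (by norm_num) (by norm_num) (by norm_num))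
    (exp_neg_leJ (r := 0.846) 3 (by norm_num) (by norm_num) (by norm_num) (by norm_num))
    (exp_neg_leJ (r := 0.636) 6 (by norm_num) (by norm_num) (by norm_num) (by norm_num))
    (exp_neg_leJ (r := 0.99) 14 (by norm_num) (by norm_num) (by norm_num) (by norm_num))
    (exp_neg_leJ (r := 0.769) 6 (by norm_num) (by norm_num) (by norm_num) (by norm_num))
    (exp_neg_leJ (r := 0.99) 14 (by norm_num) (by norm_num) (by norm_num) (by norm_num))
    (exp_neg_leJ (r := 0.99) 14 (by norm_num) (by norm_num) (by norm_num) (by norm_num))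
    (exp_neg_leJ (r := 0.99) 14 (by norm_num) (by norm_num) (by norm_num) (by norm_num))
    (by norm_num)) (by norm_num) hN hβ.le (by norm_num)

private theorem JD6b_p1_c0_b0_11 {β x y : ℝ} (hβ : 0 < β) (hN : β * 10.204 ≤ 1) (hx1 : 1.2372 ≤ x) (hx2 : x ≤ 1.3072)
    (hy1 : -0.482 ≤ y) (hy2 : y ≤ -0.362) : ‖HH β (x + y * I) - 1‖ ≤ 0.14 := by
  refine le_epsJ (C := 1.3985) (N0 := 10.204) (J_boxp 1.2372 1.3072 0.482 0 (-0.362) 1.2389 1.3933 1.4546 0.8747 0.4812 3.1944 10.204 1.1247 5.179 1.68 0.4724 0.6194 0.3872 0.6709 1.8123 0.6926 2.213 2.7348 3.399 0.001801 0.01932 0.001067 0.0000003101 0.0008528 0.0000003101 0.0000003101 0.0000003101 1.3985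
    hβ hN hx1 hx2 hy1 hy2 (by norm_num) (by norm_num) (by linarith) (by norm_num) (by norm_num) (by norm_num) (by norm_num) (by norm_num) (by norm_num) (by norm_num) (by norm_num) (by norm_num) (by norm_num) (by norm_num) (by norm_num) (by norm_num) (by norm_num) (by norm_num) (by norm_num) (by norm_num) (by norm_num) (by norm_num) (by norm_num) (by norm_num)
    (cube_sqrt_geJ (s := 0.7906) (by norm_num) (by norm_num) (by norm_num) (by norm_num))
    (cube_sqrt_geJ (s := 0.9285) (by norm_num) (by norm_num) (by norm_num) (by norm_num))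
    (by norm_num) (by norm_num) (by norm_num) (by norm_num) (by norm_num) (by norm_num) (by norm_num) (by norm_num) (by norm_num) (by norm_num) (by norm_num) (by norm_num) (by norm_num) (by norm_num) (by norm_num) (by norm_num) (by norm_num) (by norm_num)
    (exp_neg_leJ (r := 0.32) 6 (by norm_num) (by norm_num) (by norm_num) (by norm_num))
    (exp_neg_leJ (r := 0.95) 3 (by norm_num) (by norm_num) (by norm_num) (by norm_num))
    (exp_neg_leJ (r := 0.845) 6 (by norm_num) (by norm_num) (by norm_num) (by norm_num))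
    (exp_neg_leJ (r := 0.99) 14 (by norm_num) (by norm_num) (by norm_num) (by norm_num))
    (exp_neg_leJ (r := 0.067) 7 (by norm_num) (by norm_num) (by norm_num) (by norm_num))
    (exp_neg_leJ (r := 0.99) 14 (by norm_num) (by norm_num) (by norm_num) (by norm_num))
    (exp_neg_leJ (r := 0.99) 14 (by norm_num) (by norm_num) (by norm_num) (by norm_num))
    (exp_neg_leJ (r := 0.99) 14 (by norm_num) (by norm_num) (by norm_num) (by norm_num))
    (by norm_num)) (by norm_num) hN hβ.le (by norm_num)

private theorem JD6b_p1_c0_b0_12 {β x y : ℝ} (hβ : 0 < β) (hN : β * 10.204 ≤ 1) (hx1 : 1.3072 ≤ x) (hx2 : x ≤ 1.3972)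
    (hy1 : -0.482 ≤ y) (hy2 : y ≤ -0.362) : ‖HH β (x + y * I) - 1‖ ≤ 0.14 := by
  refine le_epsJ (C := 1.4157) (N0 := 10.204) (J_boxp 1.3072 1.3972 0.482 0 (-0.362) 1.2882 1.4781 1.536 0.8477 0.4945 3.1944 10.204 1.1475 5.405 1.699 0.4378 0.644 0.3977 0.6949 1.7616 0.7266 2.3099 2.8748 3.3085 0.001401 0.01729 0.0008335 0.0000003101 0.0006029 0.0000003101 0.0000003101 0.0000003101 1.4157
    hβ hN hx1 hx2 hy1 hy2 (by norm_num) (by norm_num) (by linarith) (by norm_num) (by norm_num) (by norm_num) (by norm_num) (by norm_num) (by norm_num) (by norm_num) (by norm_num) (by norm_num) (by norm_num) (by norm_num) (by norm_num) (by norm_num) (by norm_num) (by norm_num) (by norm_num) (by norm_num) (by norm_num) (by norm_num) (by norm_num) (by norm_num)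
    (cube_sqrt_geJ (s := 0.7858) (by norm_num) (by norm_num) (by norm_num) (by norm_num))
    (cube_sqrt_geJ (s := 0.927) (by norm_num) (by norm_num) (by norm_num) (by norm_num))
    (by norm_num) (by norm_num) (by norm_num) (by norm_num) (by norm_num) (by norm_num) (by norm_num) (by norm_num) (by norm_num) (by norm_num) (by norm_num) (by norm_num) (by norm_num) (by norm_num) (by norm_num) (by norm_num) (by norm_num) (by norm_num)
    (exp_neg_leJ (r := 0.571) 6 (by norm_num) (by norm_num) (by norm_num) (by norm_num))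
    (exp_neg_leJ (r := 0.058) 4 (by norm_num) (by norm_num) (by norm_num) (by norm_num))
    (exp_neg_leJ (r := 0.09) 7 (by norm_num) (by norm_num) (by norm_num) (by norm_num))
    (exp_neg_leJ (r := 0.99) 14 (by norm_num) (by norm_num) (by norm_num) (by norm_num))
    (exp_neg_leJ (r := 0.414) 7 (by norm_num) (by norm_num) (by norm_num) (by norm_num))
    (exp_neg_leJ (r := 0.99) 14 (by norm_num) (by norm_num) (by norm_num) (by norm_num))
    (exp_neg_leJ (r := 0.99) 14 (by norm_num) (by norm_num) (by norm_num) (by norm_num))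
    (exp_neg_leJ (r := 0.99) 14 (by norm_num) (by norm_num) (by norm_num) (by norm_num))
    (by norm_num)) (by norm_num) hN hβ.le (by norm_num)

private theorem JD6b_p1_c0_b0_13 {β x y : ℝ} (hβ : 0 < β) (hN : β * 10.204 ≤ 1) (hx1 : 1.3972 ≤ x) (hx2 : x ≤ 1.4943)
    (hy1 : -0.482 ≤ y) (hy2 : y ≤ -0.362) : ‖HH β (x + y * I) - 1‖ ≤ 0.14 := by
  refine le_epsJ (C := 1.3821) (N0 := 10.204) (J_boxp 1.3972 1.4943 0.482 0 (-0.362) 1.3516 1.5702 1.6249 0.8113 0.5086 3.1944 10.204 1.1618 5.554 1.712 0.4004 0.6757 0.414 0.7257 1.7068 0.7703 2.4345 3.0548 3.2382 0.001017 0.01465 0.0006083 0.0000003101 0.0003867 0.0000003101 0.0000003101 0.0000003101 1.3821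
    hβ hN hx1 hx2 hy1 hy2 (by norm_num) (by norm_num) (by linarith) (by norm_num) (by norm_num) (by norm_num) (by norm_num) (by norm_num) (by norm_num) (by norm_num) (by norm_num) (by norm_num) (by norm_num) (by norm_num) (by norm_num) (by norm_num) (by norm_num) (by norm_num) (by norm_num) (by norm_num) (by norm_num) (by norm_num) (by norm_num) (by norm_num)
    (cube_sqrt_geJ (s := 0.7827) (by norm_num) (by norm_num) (by norm_num) (by norm_num))
    (cube_sqrt_geJ (s := 0.9261) (by norm_num) (by norm_num) (by norm_num) (by norm_num))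
    (by norm_num) (by norm_num) (by norm_num) (by norm_num) (by norm_num) (by norm_num) (by norm_num) (by norm_num) (by norm_num) (by norm_num) (by norm_num) (by norm_num) (by norm_num) (by norm_num) (by norm_num) (by norm_num) (by norm_num) (by norm_num)
    (exp_neg_leJ (r := 0.894) 6 (by norm_num) (by norm_num) (by norm_num) (by norm_num))
    (exp_neg_leJ (r := 0.224) 4 (by norm_num) (by norm_num) (by norm_num) (by norm_num))
    (exp_neg_leJ (r := 0.405) 7 (by norm_num) (by norm_num) (by norm_num) (by norm_num))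
    (exp_neg_leJ (r := 0.99) 14 (by norm_num) (by norm_num) (by norm_num) (by norm_num))
    (exp_neg_leJ (r := 0.86) 7 (by norm_num) (by norm_num) (by norm_num) (by norm_num))
    (exp_neg_leJ (r := 0.99) 14 (by norm_num) (by norm_num) (by norm_num) (by norm_num))
    (exp_neg_leJ (r := 0.99) 14 (by norm_num) (by norm_num) (by norm_num) (by norm_num))
    (exp_neg_leJ (r := 0.99) 14 (by norm_num) (by norm_num) (by norm_num) (by norm_num))
    (by norm_num)) (by norm_num) hN hβ.le (by norm_num)

private theorem JD6b_p1_c0_b1_0 {β x y : ℝ} (hβ : 0 < β) (hN : β * 10.204 ≤ 1) (hx1 : 0.9472 ≤ x) (hx2 : x ≤ 1.1272)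
    (hy1 : -0.362 ≤ y) (hy2 : y ≤ -0.092) : ‖HH β (x + y * I) - 1‖ ≤ 0.14 := by
  refine le_epsJ (C := 1.4253) (N0 := 10.204) (J_boxp 0.9472 1.1272 0.362 0 (-0.092) 1.1199 1.184 1.4475 1.0152 0.48 3.1944 10.204 1.0573 4.577 1.625 0.6524 0.5599 0.3626 0.7611 2.3009 0.6173 1.8115 2.481 3.388 0.003306 0.02477 0.0004245 0.0000003101 0.001841 0.0000003101 0.0000003101 0.0000003101 1.4253
    hβ hN hx1 hx2 hy1 hy2 (by norm_num) (by norm_num) (by linarith) (by norm_num) (by norm_num) (by norm_num) (by norm_num) (by norm_num) (by norm_num) (by norm_num) (by norm_num) (by norm_num) (by norm_num) (by norm_num) (by norm_num) (by norm_num) (by norm_num) (by norm_num) (by norm_num) (by norm_num) (by norm_num) (by norm_num) (by norm_num) (by norm_num)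
    (cube_sqrt_geJ (s := 0.8047) (by norm_num) (by norm_num) (by norm_num) (by norm_num))
    (cube_sqrt_geJ (s := 0.933) (by norm_num) (by norm_num) (by norm_num) (by norm_num))
    (by norm_num) (by norm_num) (by norm_num) (by norm_num) (by norm_num) (by norm_num) (by norm_num) (by norm_num) (by norm_num) (by norm_num) (by norm_num) (by norm_num) (by norm_num) (by norm_num) (by norm_num) (by norm_num) (by norm_num) (by norm_num)
    (exp_neg_leJ (r := 0.713) 5 (by norm_num) (by norm_num) (by norm_num) (by norm_num))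
    (exp_neg_leJ (r := 0.699) 3 (by norm_num) (by norm_num) (by norm_num) (by norm_num))
    (exp_neg_leJ (r := 0.766) 7 (by norm_num) (by norm_num) (by norm_num) (by norm_num))
    (exp_neg_leJ (r := 0.99) 14 (by norm_num) (by norm_num) (by norm_num) (by norm_num))
    (exp_neg_leJ (r := 0.298) 6 (by norm_num) (by norm_num) (by norm_num) (by norm_num))
    (exp_neg_leJ (r := 0.99) 14 (by norm_num) (by norm_num) (by norm_num) (by norm_num))
    (exp_neg_leJ (r := 0.99) 14 (by norm_num) (by norm_num) (by norm_num) (by norm_num))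
    (exp_neg_leJ (r := 0.99) 14 (by norm_num) (by norm_num) (by norm_num) (by norm_num))
    (by norm_num)) (by norm_num) hN hβ.le (by norm_num)

private theorem JD6b_p1_c0_b1_1 {β x y : ℝ} (hβ : 0 < β) (hN : β * 10.204 ≤ 1) (hx1 : 1.1272 ≤ x) (hx2 : x ≤ 1.3372)
    (hy1 : -0.362 ≤ y) (hy2 : y ≤ -0.092) : ‖HH β (x + y * I) - 1‖ ≤ 0.14 := by
  refine le_epsJ (C := 1.4012) (N0 := 10.204) (J_boxp 1.1272 1.3372 0.362 0 (-0.092) 1.2467 1.3854 1.6164 0.9134 0.5073 3.1944 10.204 1.1113 5.052 1.669 0.5716 0.6233 0.3924 0.8227 2.1818 0.7047 2.0607 2.841 3.2005 0.00173 0.01825 0.0002263 0.0000003101 0.0007541 0.0000003101 0.0000003101 0.0000003101 1.4012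
    hβ hN hx1 hx2 hy1 hy2 (by norm_num) (by norm_num) (by linarith) (by norm_num) (by norm_num) (by norm_num) (by norm_num) (by norm_num) (by norm_num) (by norm_num) (by norm_num) (by norm_num) (by norm_num) (by norm_num) (by norm_num) (by norm_num) (by norm_num) (by norm_num) (by norm_num) (by norm_num) (by norm_num) (by norm_num) (by norm_num) (by norm_num)
    (cube_sqrt_geJ (s := 0.7934) (by norm_num) (by norm_num) (by norm_num) (by norm_num))
    (cube_sqrt_geJ (s := 0.9294) (by norm_num) (by norm_num) (by norm_num) (by norm_num))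
    (by norm_num) (by norm_num) (by norm_num) (by norm_num) (by norm_num) (by norm_num) (by norm_num) (by norm_num) (by norm_num) (by norm_num) (by norm_num) (by norm_num) (by norm_num) (by norm_num) (by norm_num) (by norm_num) (by norm_num) (by norm_num)
    (exp_neg_leJ (r := 0.36) 6 (by norm_num) (by norm_num) (by norm_num) (by norm_num))
    (exp_neg_leJ (r := 0.004) 4 (by norm_num) (by norm_num) (by norm_num) (by norm_num))
    (exp_neg_leJ (r := 0.394) 8 (by norm_num) (by norm_num) (by norm_num) (by norm_num))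
    (exp_neg_leJ (r := 0.99) 14 (by norm_num) (by norm_num) (by norm_num) (by norm_num))
    (exp_neg_leJ (r := 0.19) 7 (by norm_num) (by norm_num) (by norm_num) (by norm_num))
    (exp_neg_leJ (r := 0.99) 14 (by norm_num) (by norm_num) (by norm_num) (by norm_num))
    (exp_neg_leJ (r := 0.99) 14 (by norm_num) (by norm_num) (by norm_num) (by norm_num))
    (exp_neg_leJ (r := 0.99) 14 (by norm_num) (by norm_num) (by norm_num) (by norm_num))
    (by norm_num)) (by norm_num) hN hβ.le (by norm_num)

private theorem JD6b_p1_c0_b1_2 {β x y : ℝ} (hβ : 0 < β) (hN : β * 10.204 ≤ 1) (hx1 : 1.3372 ≤ x) (hx2 : x ≤ 1.4943)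
    (hy1 : -0.362 ≤ y) (hy2 : y ≤ -0.092) : ‖HH β (x + y * I) - 1‖ ≤ 0.14 := by
  refine le_epsJ (C := 1.1487) (N0 := 10.204) (J_boxp 1.3372 1.4943 0.362 0 (-0.092) 1.3945 1.5376 1.7486 0.8031 0.5276 3.1944 10.204 1.1027 4.972 1.662 0.5112 0.6972 0.4409 0.8946 2.0923 0.8067 2.3515 3.261 3.2068 0.0008137 0.01114 0.0001086 0.0000003101 0.0002663 0.0000003101 0.0000003101 0.0000003101 1.1487
    hβ hN hx1 hx2 hy1 hy2 (by norm_num) (by norm_num) (by linarith) (by norm_num) (by norm_num) (by norm_num) (by norm_num) (by norm_num) (by norm_num) (by norm_num) (by norm_num) (by norm_num) (by norm_num) (by norm_num) (by norm_num) (by norm_num) (by norm_num) (by norm_num) (by norm_num) (by norm_num) (by norm_num) (by norm_num) (by norm_num) (by norm_num)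
    (cube_sqrt_geJ (s := 0.7952) (by norm_num) (by norm_num) (by norm_num) (by norm_num))
    (cube_sqrt_geJ (s := 0.93) (by norm_num) (by norm_num) (by norm_num) (by norm_num))
    (by norm_num) (by norm_num) (by norm_num) (by norm_num) (by norm_num) (by norm_num) (by norm_num) (by norm_num) (by norm_num) (by norm_num) (by norm_num) (by norm_num) (by norm_num) (by norm_num) (by norm_num) (by norm_num) (by norm_num) (by norm_num)
    (exp_neg_leJ (r := 0.114) 7 (by norm_num) (by norm_num) (by norm_num) (by norm_num))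
    (exp_neg_leJ (r := 0.498) 4 (by norm_num) (by norm_num) (by norm_num) (by norm_num))
    (exp_neg_leJ (r := 0.128) 9 (by norm_num) (by norm_num) (by norm_num) (by norm_num))
    (exp_neg_leJ (r := 0.99) 14 (by norm_num) (by norm_num) (by norm_num) (by norm_num))
    (exp_neg_leJ (r := 0.231) 8 (by norm_num) (by norm_num) (by norm_num) (by norm_num))
    (exp_neg_leJ (r := 0.99) 14 (by norm_num) (by norm_num) (by norm_num) (by norm_num))
    (exp_neg_leJ (r := 0.99) 14 (by norm_num) (by norm_num) (by norm_num) (by norm_num))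
    (exp_neg_leJ (r := 0.99) 14 (by norm_num) (by norm_num) (by norm_num) (by norm_num))
    (by norm_num)) (by norm_num) hN hβ.le (by norm_num)

private theorem JD6b_p1_c0 {κ t β : ℝ} (h : DomR κ t) (hβ : 0 < β) (hk1 : 0.9 ≤ κ) (hk2 : κ ≤ 0.98)
    (ht1 : -0.576 ≤ t + κ) (ht2 : t + κ ≤ -0.4398) (hR0 : β * 10 ≤ κ) (hR : β * (4.95 * (1 + κ ^ 2)) ≤ κ) :
    ∀ s : ℂ, ‖s - sg κ t‖ ≤ 0.15 → ‖HH β s - 1‖ ≤ 0.14 := by
  have hN : β * 10.204 ≤ 1 := bNR hβ h.1 hk2 hR0 (by norm_num)
  have hy1 : -0.332 ≤ sy κ t := syL_ge h 0.9 0.98 0.576 0.332 0.71748 0.71749 0.2484 0.24306 0.26468 hk1 hk2 (by linarith) (by norm_num) (by norm_num) (by norm_num)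
    (expm_ge (by norm_num) (by norm_num) (by norm_num) (by norm_num)) (expm_le (by norm_num) (by norm_num) (by norm_num)) (by norm_num)
    (by norm_num) (by norm_num) (by norm_num) (by norm_num) (by norm_num) (by norm_num)
  have hy2 : sy κ t ≤ -0.242 := syL_le h 0.9 0.98 0.4398 0.242 0.78505 0.78506 0.19385 0.2111 hk1 hk2 (by linarith) (by norm_num) (by norm_num) (by norm_num)
    (expm_ge (by norm_num) (by norm_num) (by norm_num) (by norm_num)) (expm_le (by norm_num) (by norm_num) (by norm_num)) (by norm_num)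
    (by norm_num) (by norm_num) (by norm_num) (by norm_num) (by norm_num) (by norm_num)
  have hx1 : 1.0972 ≤ sx κ t := sx_lo h 0.9 (-0.242) 0.332 1.27379 1.0972 hk1 (by norm_num) hy2 (abs_le.2 ⟨by linarith, by linarith⟩) (by rw [neg_neg]; exact expn_ge (by norm_num) (by norm_num)) (by norm_num) (by norm_num)
  have hx2 : sx κ t ≤ 1.3443 := sx_hi h 0.98 (-0.332) 0.242 1.39376 1.3443 hk2 hy1 (by norm_num) (by rw [abs_of_nonpos (by linarith)]; linarith) (by rw [neg_neg]; exact expn_le (by norm_num) (by norm_num) (by norm_num)) (by norm_num) (by norm_num)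
  intro s hs
  have hs' : ‖s - ((sx κ t : ℂ) + (sy κ t : ℂ) * I)‖ ≤ 0.15 := hs
  obtain ⟨es, ⟨s1, s2⟩, ⟨s3, s4⟩⟩ := disc_split hs'
  have X1 : 0.9472 ≤ s.re := by linarith
  have X2 : s.re ≤ 1.4943 := by linarith
  have Y1 : (-0.482) ≤ s.im := by linarith
  have Y2 : s.im ≤ (-0.092) := by linarith
  rw [es]
  rcases le_total s.im (-0.362) with f0 | g0
  · rcases le_total s.re 0.9572 with u0 | v0
    · exact JD6b_p1_c0_b0_0 hβ hN (by linarith) (by linarith) (by linarith) (by linarith)
    rcases le_total s.re 0.9672 with u1 | v1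
    · exact JD6b_p1_c0_b0_1 hβ hN (by linarith) (by linarith) (by linarith) (by linarith)
    rcases le_total s.re 0.9772 with u2 | v2
    · exact JD6b_p1_c0_b0_2 hβ hN (by linarith) (by linarith) (by linarith) (by linarith)
    rcases le_total s.re 0.9872 with u3 | v3
    · exact JD6b_p1_c0_b0_3 hβ hN (by linarith) (by linarith) (by linarith) (by linarith)
    rcases le_total s.re 1.0072 with u4 | v4
    · exact JD6b_p1_c0_b0_4 hβ hN (by linarith) (by linarith) (by linarith) (by linarith)
    rcases le_total s.re 1.0272 with u5 | v5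
    · exact JD6b_p1_c0_b0_5 hβ hN (by linarith) (by linarith) (by linarith) (by linarith)
    rcases le_total s.re 1.0572 with u6 | v6
    · exact JD6b_p1_c0_b0_6 hβ hN (by linarith) (by linarith) (by linarith) (by linarith)
    rcases le_total s.re 1.0872 with u7 | v7
    · exact JD6b_p1_c0_b0_7 hβ hN (by linarith) (by linarith) (by linarith) (by linarith)
    rcases le_total s.re 1.1272 with u8 | v8
    · exact JD6b_p1_c0_b0_8 hβ hN (by linarith) (by linarith) (by linarith) (by linarith)
    rcases le_total s.re 1.1772 with u9 | v9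
    · exact JD6b_p1_c0_b0_9 hβ hN (by linarith) (by linarith) (by linarith) (by linarith)
    rcases le_total s.re 1.2372 with u10 | v10
    · exact JD6b_p1_c0_b0_10 hβ hN (by linarith) (by linarith) (by linarith) (by linarith)
    rcases le_total s.re 1.3072 with u11 | v11
    · exact JD6b_p1_c0_b0_11 hβ hN (by linarith) (by linarith) (by linarith) (by linarith)
    rcases le_total s.re 1.3972 with u12 | v12
    · exact JD6b_p1_c0_b0_12 hβ hN (by linarith) (by linarith) (by linarith) (by linarith)
    exact JD6b_p1_c0_b0_13 hβ hN (by linarith) (by linarith) (by linarith) (by linarith)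
  rcases le_total s.re 1.1272 with u0 | v0
  · exact JD6b_p1_c0_b1_0 hβ hN (by linarith) (by linarith) (by linarith) (by linarith)
  rcases le_total s.re 1.3372 with u1 | v1
  · exact JD6b_p1_c0_b1_1 hβ hN (by linarith) (by linarith) (by linarith) (by linarith)
  exact JD6b_p1_c0_b1_2 hβ hN (by linarith) (by linarith) (by linarith) (by linarith)

private theorem JD6b_p1_c1_b0_0 {β x y : ℝ} (hβ : 0 < β) (hN : β * 9.999 ≤ 1) (hx1 : 1.0529 ≤ x) (hx2 : x ≤ 1.0729)
    (hy1 : -0.474 ≤ y) (hy2 : y ≤ -0.194) : ‖HH β (x + y * I) - 1‖ ≤ 0.14 := by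
  refine le_epsJ (C := 1.388) (N0 := 9.999) (J_boxp 1.0529 1.0729 0.474 0 (-0.194) 1.1148 1.173 1.342 0.9842 0.4622 3.1622 9.999 1.0523 4.536 1.621 0.5699 0.5573 0.3618 0.6205 1.969 0.6074 1.9578 2.388 3.6293 0.003805 0.02688 0.002022 0.0000003101 0.002305 0.0000003101 0.0000003101 0.0000003101 1.388
    hβ hN hx1 hx2 hy1 hy2 (by norm_num) (by norm_num) (by linarith) (by norm_num) (by norm_num) (by norm_num) (by norm_num) (by norm_num) (by norm_num) (by norm_num) (by norm_num) (by norm_num) (by norm_num) (by norm_num) (by norm_num) (by norm_num) (by norm_num) (by norm_num) (by norm_num) (by norm_num) (by norm_num) (by norm_num) (by norm_num) (by norm_num)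
    (cube_sqrt_geJ (s := 0.8057) (by norm_num) (by norm_num) (by norm_num) (by norm_num))
    (cube_sqrt_geJ (s := 0.9333) (by norm_num) (by norm_num) (by norm_num) (by norm_num))
    (by norm_num) (by norm_num) (by norm_num) (by norm_num) (by norm_num) (by norm_num) (by norm_num) (by norm_num) (by norm_num) (by norm_num) (by norm_num) (by norm_num) (by norm_num) (by norm_num) (by norm_num) (by norm_num) (by norm_num) (by norm_num)
    (exp_neg_leJ (r := 0.572) 5 (by norm_num) (by norm_num) (by norm_num) (by norm_num))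
    (exp_neg_leJ (r := 0.617) 3 (by norm_num) (by norm_num) (by norm_num) (by norm_num))
    (exp_neg_leJ (r := 0.204) 6 (by norm_num) (by norm_num) (by norm_num) (by norm_num))
    (exp_neg_leJ (r := 0.99) 14 (by norm_num) (by norm_num) (by norm_num) (by norm_num))
    (exp_neg_leJ (r := 0.073) 6 (by norm_num) (by norm_num) (by norm_num) (by norm_num))
    (exp_neg_leJ (r := 0.99) 14 (by norm_num) (by norm_num) (by norm_num) (by norm_num))
    (exp_neg_leJ (r := 0.99) 14 (by norm_num) (by norm_num) (by norm_num) (by norm_num))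
    (exp_neg_leJ (r := 0.99) 14 (by norm_num) (by norm_num) (by norm_num) (by norm_num))
    (by norm_num)) (by norm_num) hN hβ.le (by norm_num)

private theorem JD6b_p1_c1_b0_1 {β x y : ℝ} (hβ : 0 < β) (hN : β * 9.999 ≤ 1) (hx1 : 1.0729 ≤ x) (hx2 : x ≤ 1.0929)
    (hy1 : -0.474 ≤ y) (hy2 : y ≤ -0.194) : ‖HH β (x + y * I) - 1‖ ≤ 0.14 := by
  refine le_epsJ (C := 1.3711) (N0 := 9.999) (J_boxp 1.0729 1.0929 0.474 0 (-0.194) 1.1289 1.1913 1.358 0.9716 0.465 3.1622 9.999 1.0553 4.56 1.624 0.5622 0.5644 0.3658 0.6273 1.9579 0.6172 1.9855 2.428 3.6195 0.003545 0.02583 0.001889 0.0000003101 0.00209 0.0000003101 0.0000003101 0.0000003101 1.3711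
    hβ hN hx1 hx2 hy1 hy2 (by norm_num) (by norm_num) (by linarith) (by norm_num) (by norm_num) (by norm_num) (by norm_num) (by norm_num) (by norm_num) (by norm_num) (by norm_num) (by norm_num) (by norm_num) (by norm_num) (by norm_num) (by norm_num) (by norm_num) (by norm_num) (by norm_num) (by norm_num) (by norm_num) (by norm_num) (by norm_num) (by norm_num)
    (cube_sqrt_geJ (s := 0.8051) (by norm_num) (by norm_num) (by norm_num) (by norm_num))
    (cube_sqrt_geJ (s := 0.9331) (by norm_num) (by norm_num) (by norm_num) (by norm_num))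
    (by norm_num) (by norm_num) (by norm_num) (by norm_num) (by norm_num) (by norm_num) (by norm_num) (by norm_num) (by norm_num) (by norm_num) (by norm_num) (by norm_num) (by norm_num) (by norm_num) (by norm_num) (by norm_num) (by norm_num) (by norm_num)
    (exp_neg_leJ (r := 0.643) 5 (by norm_num) (by norm_num) (by norm_num) (by norm_num))
    (exp_neg_leJ (r := 0.657) 3 (by norm_num) (by norm_num) (by norm_num) (by norm_num))
    (exp_neg_leJ (r := 0.272) 6 (by norm_num) (by norm_num) (by norm_num) (by norm_num))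
    (exp_neg_leJ (r := 0.99) 14 (by norm_num) (by norm_num) (by norm_num) (by norm_num))
    (exp_neg_leJ (r := 0.171) 6 (by norm_num) (by norm_num) (by norm_num) (by norm_num))
    (exp_neg_leJ (r := 0.99) 14 (by norm_num) (by norm_num) (by norm_num) (by norm_num))
    (exp_neg_leJ (r := 0.99) 14 (by norm_num) (by norm_num) (by norm_num) (by norm_num))
    (exp_neg_leJ (r := 0.99) 14 (by norm_num) (by norm_num) (by norm_num) (by norm_num))
    (by norm_num)) (by norm_num) hN hβ.le (by norm_num)

private theorem JD6b_p1_c1_b0_2 {β x y : ℝ} (hβ : 0 < β) (hN : β * 9.999 ≤ 1) (hx1 : 1.0929 ≤ x) (hx2 : x ≤ 1.1229)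
    (hy1 : -0.474 ≤ y) (hy2 : y ≤ -0.194) : ‖HH β (x + y * I) - 1‖ ≤ 0.14 := by
  refine le_epsJ (C := 1.3874) (N0 := 9.999) (J_boxp 1.0929 1.1229 0.474 0 (-0.194) 1.143 1.2189 1.3823 0.9622 0.4691 3.1622 9.999 1.0665 4.653 1.632 0.5506 0.5714 0.3683 0.6342 1.9412 0.6269 2.0132 2.468 3.5845 0.003306 0.0252 0.001763 0.0000003101 0.001897 0.0000003101 0.0000003101 0.0000003101 1.3874
    hβ hN hx1 hx2 hy1 hy2 (by norm_num) (by norm_num) (by linarith) (by norm_num) (by norm_num) (by norm_num) (by norm_num) (by norm_num) (by norm_num) (by norm_num) (by norm_num) (by norm_num) (by norm_num) (by norm_num) (by norm_num) (by norm_num) (by norm_num) (by norm_num) (by norm_num) (by norm_num) (by norm_num) (by norm_num) (by norm_num) (by norm_num)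
    (cube_sqrt_geJ (s := 0.8028) (by norm_num) (by norm_num) (by norm_num) (by norm_num))
    (cube_sqrt_geJ (s := 0.9324) (by norm_num) (by norm_num) (by norm_num) (by norm_num))
    (by norm_num) (by norm_num) (by norm_num) (by norm_num) (by norm_num) (by norm_num) (by norm_num) (by norm_num) (by norm_num) (by norm_num) (by norm_num) (by norm_num) (by norm_num) (by norm_num) (by norm_num) (by norm_num) (by norm_num) (by norm_num)
    (exp_neg_leJ (r := 0.713) 5 (by norm_num) (by norm_num) (by norm_num) (by norm_num))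
    (exp_neg_leJ (r := 0.682) 3 (by norm_num) (by norm_num) (by norm_num) (by norm_num))
    (exp_neg_leJ (r := 0.341) 6 (by norm_num) (by norm_num) (by norm_num) (by norm_num))
    (exp_neg_leJ (r := 0.99) 14 (by norm_num) (by norm_num) (by norm_num) (by norm_num))
    (exp_neg_leJ (r := 0.268) 6 (by norm_num) (by norm_num) (by norm_num) (by norm_num))
    (exp_neg_leJ (r := 0.99) 14 (by norm_num) (by norm_num) (by norm_num) (by norm_num))
    (exp_neg_leJ (r := 0.99) 14 (by norm_num) (by norm_num) (by norm_num) (by norm_num))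
    (exp_neg_leJ (r := 0.99) 14 (by norm_num) (by norm_num) (by norm_num) (by norm_num))
    (by norm_num)) (by norm_num) hN hβ.le (by norm_num)

private theorem JD6b_p1_c1_b0_3 {β x y : ℝ} (hβ : 0 < β) (hN : β * 9.999 ≤ 1) (hx1 : 1.1229 ≤ x) (hx2 : x ≤ 1.1629)
    (hy1 : -0.474 ≤ y) (hy2 : y ≤ -0.194) : ‖HH β (x + y * I) - 1‖ ≤ 0.14 := by
  refine le_epsJ (C := 1.3962) (N0 := 9.999) (J_boxp 1.1229 1.1629 0.474 0 (-0.194) 1.1641 1.2558 1.415 0.9471 0.4746 3.1622 9.999 1.0788 4.759 1.642 0.5353 0.582 0.3727 0.6444 1.919 0.6414 2.0547 2.528 3.5442 0.002976 0.02412 0.001592 0.0000003101 0.001641 0.0000003101 0.0000003101 0.0000003101 1.3962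
    hβ hN hx1 hx2 hy1 hy2 (by norm_num) (by norm_num) (by linarith) (by norm_num) (by norm_num) (by norm_num) (by norm_num) (by norm_num) (by norm_num) (by norm_num) (by norm_num) (by norm_num) (by norm_num) (by norm_num) (by norm_num) (by norm_num) (by norm_num) (by norm_num) (by norm_num) (by norm_num) (by norm_num) (by norm_num) (by norm_num) (by norm_num)
    (cube_sqrt_geJ (s := 0.8002) (by norm_num) (by norm_num) (by norm_num) (by norm_num))
    (cube_sqrt_geJ (s := 0.9316) (by norm_num) (by norm_num) (by norm_num) (by norm_num))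
    (by norm_num) (by norm_num) (by norm_num) (by norm_num) (by norm_num) (by norm_num) (by norm_num) (by norm_num) (by norm_num) (by norm_num) (by norm_num) (by norm_num) (by norm_num) (by norm_num) (by norm_num) (by norm_num) (by norm_num) (by norm_num)
    (exp_neg_leJ (r := 0.819) 5 (by norm_num) (by norm_num) (by norm_num) (by norm_num))
    (exp_neg_leJ (r := 0.726) 3 (by norm_num) (by norm_num) (by norm_num) (by norm_num))
    (exp_neg_leJ (r := 0.443) 6 (by norm_num) (by norm_num) (by norm_num) (by norm_num))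
    (exp_neg_leJ (r := 0.99) 14 (by norm_num) (by norm_num) (by norm_num) (by norm_num))
    (exp_neg_leJ (r := 0.413) 6 (by norm_num) (by norm_num) (by norm_num) (by norm_num))
    (exp_neg_leJ (r := 0.99) 14 (by norm_num) (by norm_num) (by norm_num) (by norm_num))
    (exp_neg_leJ (r := 0.99) 14 (by norm_num) (by norm_num) (by norm_num) (by norm_num))
    (exp_neg_leJ (r := 0.99) 14 (by norm_num) (by norm_num) (by norm_num) (by norm_num))
    (by norm_num)) (by norm_num) hN hβ.le (by norm_num)

private theorem JD6b_p1_c1_b0_4 {β x y : ℝ} (hβ : 0 < β) (hN : β * 9.999 ≤ 1) (hx1 : 1.1629 ≤ x) (hx2 : x ≤ 1.2129)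
    (hy1 : -0.474 ≤ y) (hy2 : y ≤ -0.194) : ‖HH β (x + y * I) - 1‖ ≤ 0.14 := by
  refine le_epsJ (C := 1.3983) (N0 := 9.999) (J_boxp 1.1629 1.2129 0.474 0 (-0.194) 1.1923 1.3023 1.4563 0.927 0.4815 3.1622 9.999 1.0923 4.878 1.653 0.516 0.5961 0.379 0.6581 1.891 0.6609 2.1101 2.608 3.4978 0.002588 0.02265 0.001389 0.0000003101 0.001351 0.0000003101 0.0000003101 0.0000003101 1.3983
    hβ hN hx1 hx2 hy1 hy2 (by norm_num) (by norm_num) (by linarith) (by norm_num) (by norm_num) (by norm_num) (by norm_num) (by norm_num) (by norm_num) (by norm_num) (by norm_num) (by norm_num) (by norm_num) (by norm_num) (by norm_num) (by norm_num) (by norm_num) (by norm_num) (by norm_num) (by norm_num) (by norm_num) (by norm_num) (by norm_num) (by norm_num)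
    (cube_sqrt_geJ (s := 0.7974) (by norm_num) (by norm_num) (by norm_num) (by norm_num))
    (cube_sqrt_geJ (s := 0.9307) (by norm_num) (by norm_num) (by norm_num) (by norm_num))
    (by norm_num) (by norm_num) (by norm_num) (by norm_num) (by norm_num) (by norm_num) (by norm_num) (by norm_num) (by norm_num) (by norm_num) (by norm_num) (by norm_num) (by norm_num) (by norm_num) (by norm_num) (by norm_num) (by norm_num) (by norm_num)
    (exp_neg_leJ (r := 0.96) 5 (by norm_num) (by norm_num) (by norm_num) (by norm_num))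
    (exp_neg_leJ (r := 0.789) 3 (by norm_num) (by norm_num) (by norm_num) (by norm_num))
    (exp_neg_leJ (r := 0.58) 6 (by norm_num) (by norm_num) (by norm_num) (by norm_num))
    (exp_neg_leJ (r := 0.99) 14 (by norm_num) (by norm_num) (by norm_num) (by norm_num))
    (exp_neg_leJ (r := 0.608) 6 (by norm_num) (by norm_num) (by norm_num) (by norm_num))
    (exp_neg_leJ (r := 0.99) 14 (by norm_num) (by norm_num) (by norm_num) (by norm_num))
    (exp_neg_leJ (r := 0.99) 14 (by norm_num) (by norm_num) (by norm_num) (by norm_num))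
    (exp_neg_leJ (r := 0.99) 14 (by norm_num) (by norm_num) (by norm_num) (by norm_num))
    (by norm_num)) (by norm_num) hN hβ.le (by norm_num)

private theorem JD6b_p1_c1_b0_5 {β x y : ℝ} (hβ : 0 < β) (hN : β * 9.999 ≤ 1) (hx1 : 1.2129 ≤ x) (hx2 : x ≤ 1.2729)
    (hy1 : -0.474 ≤ y) (hy2 : y ≤ -0.194) : ‖HH β (x + y * I) - 1‖ ≤ 0.14 := by
  refine le_epsJ (C := 1.3937) (N0 := 9.999) (J_boxp 1.2129 1.2729 0.474 0 (-0.194) 1.2275 1.3583 1.5067 0.9026 0.4897 3.1622 9.999 1.1066 5.008 1.665 0.493 0.6137 0.3873 0.6752 1.8574 0.6852 2.1793 2.708 3.4456 0.002164 0.02086 0.001171 0.0000003101 0.001061 0.0000003101 0.0000003101 0.0000003101 1.3937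
    hβ hN hx1 hx2 hy1 hy2 (by norm_num) (by norm_num) (by linarith) (by norm_num) (by norm_num) (by norm_num) (by norm_num) (by norm_num) (by norm_num) (by norm_num) (by norm_num) (by norm_num) (by norm_num) (by norm_num) (by norm_num) (by norm_num) (by norm_num) (by norm_num) (by norm_num) (by norm_num) (by norm_num) (by norm_num) (by norm_num) (by norm_num)
    (cube_sqrt_geJ (s := 0.7944) (by norm_num) (by norm_num) (by norm_num) (by norm_num))
    (cube_sqrt_geJ (s := 0.9297) (by norm_num) (by norm_num) (by norm_num) (by norm_num))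
    (by norm_num) (by norm_num) (by norm_num) (by norm_num) (by norm_num) (by norm_num) (by norm_num) (by norm_num) (by norm_num) (by norm_num) (by norm_num) (by norm_num) (by norm_num) (by norm_num) (by norm_num) (by norm_num) (by norm_num) (by norm_num)
    (exp_neg_leJ (r := 0.136) 6 (by norm_num) (by norm_num) (by norm_num) (by norm_num))
    (exp_neg_leJ (r := 0.872) 3 (by norm_num) (by norm_num) (by norm_num) (by norm_num))
    (exp_neg_leJ (r := 0.751) 6 (by norm_num) (by norm_num) (by norm_num) (by norm_num))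
    (exp_neg_leJ (r := 0.99) 14 (by norm_num) (by norm_num) (by norm_num) (by norm_num))
    (exp_neg_leJ (r := 0.851) 6 (by norm_num) (by norm_num) (by norm_num) (by norm_num))
    (exp_neg_leJ (r := 0.99) 14 (by norm_num) (by norm_num) (by norm_num) (by norm_num))
    (exp_neg_leJ (r := 0.99) 14 (by norm_num) (by norm_num) (by norm_num) (by norm_num))
    (exp_neg_leJ (r := 0.99) 14 (by norm_num) (by norm_num) (by norm_num) (by norm_num))
    (by norm_num)) (by norm_num) hN hβ.le (by norm_num)

private theorem JD6b_p1_c1_b0_6 {β x y : ℝ} (hβ : 0 < β) (hN : β * 9.999 ≤ 1) (hx1 : 1.2729 ≤ x) (hx2 : x ≤ 1.3429)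
    (hy1 : -0.474 ≤ y) (hy2 : y ≤ -0.194) : ‖HH β (x + y * I) - 1‖ ≤ 0.14 := by
  refine le_epsJ (C := 1.3846) (N0 := 9.999) (J_boxp 1.2729 1.3429 0.474 0 (-0.194) 1.2697 1.4241 1.5663 0.8748 0.4993 3.1622 9.999 1.1217 5.15 1.678 0.466 0.6348 0.3974 0.6958 1.818 0.7143 2.2624 2.828 3.3867 0.001753 0.01888 0.0009549 0.0000003101 0.0007912 0.0000003101 0.0000003101 0.0000003101 1.3846
    hβ hN hx1 hx2 hy1 hy2 (by norm_num) (by norm_num) (by linarith) (by norm_num) (by norm_num) (by norm_num) (by norm_num) (by norm_num) (by norm_num) (by norm_num) (by norm_num) (by norm_num) (by norm_num) (by norm_num) (by norm_num) (by norm_num) (by norm_num) (by norm_num) (by norm_num) (by norm_num) (by norm_num) (by norm_num) (by norm_num) (by norm_num)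
    (cube_sqrt_geJ (s := 0.7912) (by norm_num) (by norm_num) (by norm_num) (by norm_num))
    (cube_sqrt_geJ (s := 0.9287) (by norm_num) (by norm_num) (by norm_num) (by norm_num))
    (by norm_num) (by norm_num) (by norm_num) (by norm_num) (by norm_num) (by norm_num) (by norm_num) (by norm_num) (by norm_num) (by norm_num) (by norm_num) (by norm_num) (by norm_num) (by norm_num) (by norm_num) (by norm_num) (by norm_num) (by norm_num)
    (exp_neg_leJ (r := 0.347) 6 (by norm_num) (by norm_num) (by norm_num) (by norm_num))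
    (exp_neg_leJ (r := 0.973) 3 (by norm_num) (by norm_num) (by norm_num) (by norm_num))
    (exp_neg_leJ (r := 0.957) 6 (by norm_num) (by norm_num) (by norm_num) (by norm_num))
    (exp_neg_leJ (r := 0.99) 14 (by norm_num) (by norm_num) (by norm_num) (by norm_num))
    (exp_neg_leJ (r := 0.142) 7 (by norm_num) (by norm_num) (by norm_num) (by norm_num))
    (exp_neg_leJ (r := 0.99) 14 (by norm_num) (by norm_num) (by norm_num) (by norm_num))
    (exp_neg_leJ (r := 0.99) 14 (by norm_num) (by norm_num) (by norm_num) (by norm_num))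
    (exp_neg_leJ (r := 0.99) 14 (by norm_num) (by norm_num) (by norm_num) (by norm_num))
    (by norm_num)) (by norm_num) hN hβ.le (by norm_num)

private theorem JD6b_p1_c1_b0_7 {β x y : ℝ} (hβ : 0 < β) (hN : β * 9.999 ≤ 1) (hx1 : 1.3429 ≤ x) (hx2 : x ≤ 1.4329)
    (hy1 : -0.474 ≤ y) (hy2 : y ≤ -0.194) : ‖HH β (x + y * I) - 1‖ ≤ 0.14 := by
  refine le_epsJ (C := 1.3996) (N0 := 9.999) (J_boxp 1.3429 1.4329 0.474 0 (-0.194) 1.319 1.5093 1.6441 0.8465 0.5116 3.1622 9.999 1.1443 5.373 1.697 0.4314 0.6594 0.4079 0.7197 1.7673 0.7483 2.3593 2.968 3.2951 0.001371 0.01695 0.0007496 0.0000003101 0.0005633 0.0000003101 0.0000003101 0.0000003101 1.3996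
    hβ hN hx1 hx2 hy1 hy2 (by norm_num) (by norm_num) (by linarith) (by norm_num) (by norm_num) (by norm_num) (by norm_num) (by norm_num) (by norm_num) (by norm_num) (by norm_num) (by norm_num) (by norm_num) (by norm_num) (by norm_num) (by norm_num) (by norm_num) (by norm_num) (by norm_num) (by norm_num) (by norm_num) (by norm_num) (by norm_num) (by norm_num)
    (cube_sqrt_geJ (s := 0.7864) (by norm_num) (by norm_num) (by norm_num) (by norm_num))
    (cube_sqrt_geJ (s := 0.9273) (by norm_num) (by norm_num) (by norm_num) (by norm_num))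
    (by norm_num) (by norm_num) (by norm_num) (by norm_num) (by norm_num) (by norm_num) (by norm_num) (by norm_num) (by norm_num) (by norm_num) (by norm_num) (by norm_num) (by norm_num) (by norm_num) (by norm_num) (by norm_num) (by norm_num) (by norm_num)
    (exp_neg_leJ (r := 0.593) 6 (by norm_num) (by norm_num) (by norm_num) (by norm_num))
    (exp_neg_leJ (r := 0.078) 4 (by norm_num) (by norm_num) (by norm_num) (by norm_num))
    (exp_neg_leJ (r := 0.196) 7 (by norm_num) (by norm_num) (by norm_num) (by norm_num))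
    (exp_neg_leJ (r := 0.99) 14 (by norm_num) (by norm_num) (by norm_num) (by norm_num))
    (exp_neg_leJ (r := 0.482) 7 (by norm_num) (by norm_num) (by norm_num) (by norm_num))
    (exp_neg_leJ (r := 0.99) 14 (by norm_num) (by norm_num) (by norm_num) (by norm_num))
    (exp_neg_leJ (r := 0.99) 14 (by norm_num) (by norm_num) (by norm_num) (by norm_num))
    (exp_neg_leJ (r := 0.99) 14 (by norm_num) (by norm_num) (by norm_num) (by norm_num))
    (by norm_num)) (by norm_num) hN hβ.le (by norm_num)

private theorem JD6b_p1_c1_b0_8 {β x y : ℝ} (hβ : 0 < β) (hN : β * 9.999 ≤ 1) (hx1 : 1.4329 ≤ x) (hx2 : x ≤ 1.5117)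
    (hy1 : -0.474 ≤ y) (hy2 : y ≤ -0.194) : ‖HH β (x + y * I) - 1‖ ≤ 0.14 := by
  refine le_epsJ (C := 1.313) (N0 := 9.999) (J_boxp 1.4329 1.5117 0.474 0 (-0.194) 1.3824 1.5843 1.7132 0.8053 0.5222 3.1622 9.999 1.1461 5.391 1.698 0.4011 0.6911 0.4271 0.7505 1.7228 0.792 2.484 3.148 3.2712 0.001001 0.01399 0.000551 0.0000003101 0.0003648 0.0000003101 0.0000003101 0.0000003101 1.313
    hβ hN hx1 hx2 hy1 hy2 (by norm_num) (by norm_num) (by linarith) (by norm_num) (by norm_num) (by norm_num) (by norm_num) (by norm_num) (by norm_num) (by norm_num) (by norm_num) (by norm_num) (by norm_num) (by norm_num) (by norm_num) (by norm_num) (by norm_num) (by norm_num) (by norm_num) (by norm_num) (by norm_num) (by norm_num) (by norm_num) (by norm_num)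
    (cube_sqrt_geJ (s := 0.7861) (by norm_num) (by norm_num) (by norm_num) (by norm_num))
    (cube_sqrt_geJ (s := 0.9271) (by norm_num) (by norm_num) (by norm_num) (by norm_num))
    (by norm_num) (by norm_num) (by norm_num) (by norm_num) (by norm_num) (by norm_num) (by norm_num) (by norm_num) (by norm_num) (by norm_num) (by norm_num) (by norm_num) (by norm_num) (by norm_num) (by norm_num) (by norm_num) (by norm_num) (by norm_num)
    (exp_neg_leJ (r := 0.91) 6 (by norm_num) (by norm_num) (by norm_num) (by norm_num))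
    (exp_neg_leJ (r := 0.27) 4 (by norm_num) (by norm_num) (by norm_num) (by norm_num))
    (exp_neg_leJ (r := 0.504) 7 (by norm_num) (by norm_num) (by norm_num) (by norm_num))
    (exp_neg_leJ (r := 0.99) 14 (by norm_num) (by norm_num) (by norm_num) (by norm_num))
    (exp_neg_leJ (r := 0.919) 7 (by norm_num) (by norm_num) (by norm_num) (by norm_num))
    (exp_neg_leJ (r := 0.99) 14 (by norm_num) (by norm_num) (by norm_num) (by norm_num))
    (exp_neg_leJ (r := 0.99) 14 (by norm_num) (by norm_num) (by norm_num) (by norm_num))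
    (exp_neg_leJ (r := 0.99) 14 (by norm_num) (by norm_num) (by norm_num) (by norm_num))
    (by norm_num)) (by norm_num) hN hβ.le (by norm_num)

private theorem JD6b_p1_c1_b1_0 {β x y : ℝ} (hβ : 0 < β) (hN : β * 9.999 ≤ 1) (hx1 : 1.0529 ≤ x) (hx2 : x ≤ 1.4729)
    (hy1 : -0.194 ≤ y) (hy2 : y ≤ -0.09) : ‖HH β (x + y * I) - 1‖ ≤ 0.14 := by
  refine le_epsJ (C := 1.3934) (N0 := 9.999) (J_boxp 1.0529 1.4729 0.194 0 (-0.09) 1.3136 1.4857 1.7314 0.874 0.525 3.1622 9.999 1.1311 5.242 1.686 0.6745 0.6567 0.4091 1.0624 2.6401 0.7604 1.9578 3.1491 2.7793 0.001408 0.01674 0.00002439 0.0000003101 0.0004992 0.0000003101 0.0000003101 0.0000003101 1.3934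
    hβ hN hx1 hx2 hy1 hy2 (by norm_num) (by norm_num) (by linarith) (by norm_num) (by norm_num) (by norm_num) (by norm_num) (by norm_num) (by norm_num) (by norm_num) (by norm_num) (by norm_num) (by norm_num) (by norm_num) (by norm_num) (by norm_num) (by norm_num) (by norm_num) (by norm_num) (by norm_num) (by norm_num) (by norm_num) (by norm_num) (by norm_num)
    (cube_sqrt_geJ (s := 0.7892) (by norm_num) (by norm_num) (by norm_num) (by norm_num))
    (cube_sqrt_geJ (s := 0.9281) (by norm_num) (by norm_num) (by norm_num) (by norm_num))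
    (by norm_num) (by norm_num) (by norm_num) (by norm_num) (by norm_num) (by norm_num) (by norm_num) (by norm_num) (by norm_num) (by norm_num) (by norm_num) (by norm_num) (by norm_num) (by norm_num) (by norm_num) (by norm_num) (by norm_num) (by norm_num)
    (exp_neg_leJ (r := 0.566) 6 (by norm_num) (by norm_num) (by norm_num) (by norm_num))
    (exp_neg_leJ (r := 0.09) 4 (by norm_num) (by norm_num) (by norm_num) (by norm_num))
    (exp_neg_leJ (r := 0.622) 10 (by norm_num) (by norm_num) (by norm_num) (by norm_num))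
    (exp_neg_leJ (r := 0.99) 14 (by norm_num) (by norm_num) (by norm_num) (by norm_num))
    (exp_neg_leJ (r := 0.603) 7 (by norm_num) (by norm_num) (by norm_num) (by norm_num))
    (exp_neg_leJ (r := 0.99) 14 (by norm_num) (by norm_num) (by norm_num) (by norm_num))
    (exp_neg_leJ (r := 0.99) 14 (by norm_num) (by norm_num) (by norm_num) (by norm_num))
    (exp_neg_leJ (r := 0.99) 14 (by norm_num) (by norm_num) (by norm_num) (by norm_num))
    (by norm_num)) (by norm_num) hN hβ.le (by norm_num)

private theorem JD6b_p1_c1_b1_1 {β x y : ℝ} (hβ : 0 < β) (hN : β * 9.999 ≤ 1) (hx1 : 1.4729 ≤ x) (hx2 : x ≤ 1.5117)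
    (hy1 : -0.194 ≤ y) (hy2 : y ≤ -0.09) : ‖HH β (x + y * I) - 1‖ ≤ 0.14 := by
  refine le_epsJ (C := 0.5764) (N0 := 9.999) (J_boxp 1.4729 1.5117 0.194 0 (-0.09) 1.6094 1.5241 1.7645 0.6507 0.53 3.1622 9.999 0.947 3.773 1.54 0.6596 0.8046 0.5506 1.2062 2.6178 0.9644 2.5393 3.9891 3.5149 0.0003208 0.004068 0.000005787 0.0000003101 0.00006492 0.0000003101 0.0000003101 0.0000003101 0.5764
    hβ hN hx1 hx2 hy1 hy2 (by norm_num) (by norm_num) (by linarith) (by norm_num) (by norm_num) (by norm_num) (by norm_num) (by norm_num) (by norm_num) (by norm_num) (by norm_num) (by norm_num) (by norm_num) (by norm_num) (by norm_num) (by norm_num) (by norm_num) (by norm_num) (by norm_num) (by norm_num) (by norm_num) (by norm_num) (by norm_num) (by norm_num)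
    (cube_sqrt_geJ (s := 0.8272) (by norm_num) (by norm_num) (by norm_num) (by norm_num))
    (cube_sqrt_geJ (s := 0.9402) (by norm_num) (by norm_num) (by norm_num) (by norm_num))
    (by norm_num) (by norm_num) (by norm_num) (by norm_num) (by norm_num) (by norm_num) (by norm_num) (by norm_num) (by norm_num) (by norm_num) (by norm_num) (by norm_num) (by norm_num) (by norm_num) (by norm_num) (by norm_num) (by norm_num) (by norm_num)
    (exp_neg_leJ (r := 0.045) 8 (by norm_num) (by norm_num) (by norm_num) (by norm_num))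
    (exp_neg_leJ (r := 0.505) 5 (by norm_num) (by norm_num) (by norm_num) (by norm_num))
    (exp_neg_leJ (r := 0.06) 12 (by norm_num) (by norm_num) (by norm_num) (by norm_num))
    (exp_neg_leJ (r := 0.99) 14 (by norm_num) (by norm_num) (by norm_num) (by norm_num))
    (exp_neg_leJ (r := 0.643) 9 (by norm_num) (by norm_num) (by norm_num) (by norm_num))
    (exp_neg_leJ (r := 0.99) 14 (by norm_num) (by norm_num) (by norm_num) (by norm_num))
    (exp_neg_leJ (r := 0.99) 14 (by norm_num) (by norm_num) (by norm_num) (by norm_num))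
    (exp_neg_leJ (r := 0.99) 14 (by norm_num) (by norm_num) (by norm_num) (by norm_num))
    (by norm_num)) (by norm_num) hN hβ.le (by norm_num)

private theorem JD6b_p1_c1 {κ t β : ℝ} (h : DomR κ t) (hβ : 0 < β) (hk1 : 0.98 ≤ κ) (hk2 : κ ≤ 1)
    (ht1 : -0.576 ≤ t + κ) (ht2 : t + κ ≤ -0.4398) (hR0 : β * 10 ≤ κ) (hR : β * (4.95 * (1 + κ ^ 2)) ≤ κ) :
    ∀ s : ℂ, ‖s - sg κ t‖ ≤ 0.15 → ‖HH β s - 1‖ ≤ 0.14 := by
  have hN : β * 9.999 ≤ 1 := bNR hβ h.1 hk2 hR0 (by norm_num)
  have hy1 : -0.324 ≤ sy κ t := syL_ge h 0.98 1 0.576 0.324 0.72325 0.72326 0.2331 0.23433 0.23912 hk1 hk2 (by linarith) (by norm_num) (by norm_num) (by norm_num)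
    (expm_ge (by norm_num) (by norm_num) (by norm_num) (by norm_num)) (expm_le (by norm_num) (by norm_num) (by norm_num)) (by norm_num)
    (by norm_num) (by norm_num) (by norm_num) (by norm_num) (by norm_num) (by norm_num)
  have hy2 : sy κ t ≤ -0.24 := syL_le h 0.98 1 0.4398 0.24 0.78662 0.78663 0.18878 0.19265 hk1 hk2 (by linarith) (by norm_num) (by norm_num) (by norm_num)
    (expm_ge (by norm_num) (by norm_num) (by norm_num) (by norm_num)) (expm_le (by norm_num) (by norm_num) (by norm_num)) (by norm_num)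
    (by norm_num) (by norm_num) (by norm_num) (by norm_num) (by norm_num) (by norm_num)
  have hx1 : 1.2029 ≤ sx κ t := sx_lo h 0.98 (-0.24) 0.324 1.27124 1.2029 hk1 (by norm_num) hy2 (abs_le.2 ⟨by linarith, by linarith⟩) (by rw [neg_neg]; exact expn_ge (by norm_num) (by norm_num)) (by norm_num) (by norm_num)
  have hx2 : sx κ t ≤ 1.3617 := sx_hi h 1 (-0.324) 0.24 1.38265 1.3617 hk2 hy1 (by norm_num) (by rw [abs_of_nonpos (by linarith)]; linarith) (by rw [neg_neg]; exact expn_le (by norm_num) (by norm_num) (by norm_num)) (by norm_num) (by norm_num)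
  intro s hs
  have hs' : ‖s - ((sx κ t : ℂ) + (sy κ t : ℂ) * I)‖ ≤ 0.15 := hs
  obtain ⟨es, ⟨s1, s2⟩, ⟨s3, s4⟩⟩ := disc_split hs'
  have X1 : 1.0529 ≤ s.re := by linarith
  have X2 : s.re ≤ 1.5117 := by linarith
  have Y1 : (-0.474) ≤ s.im := by linarith
  have Y2 : s.im ≤ (-0.09) := by linarith
  rw [es]
  rcases le_total s.im (-0.194) with f0 | g0
  · rcases le_total s.re 1.0729 with u0 | v0
    · exact JD6b_p1_c1_b0_0 hβ hN (by linarith) (by linarith) (by linarith) (by linarith)
    rcases le_total s.re 1.0929 with u1 | v1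
    · exact JD6b_p1_c1_b0_1 hβ hN (by linarith) (by linarith) (by linarith) (by linarith)
    rcases le_total s.re 1.1229 with u2 | v2
    · exact JD6b_p1_c1_b0_2 hβ hN (by linarith) (by linarith) (by linarith) (by linarith)
    rcases le_total s.re 1.1629 with u3 | v3
    · exact JD6b_p1_c1_b0_3 hβ hN (by linarith) (by linarith) (by linarith) (by linarith)
    rcases le_total s.re 1.2129 with u4 | v4
    · exact JD6b_p1_c1_b0_4 hβ hN (by linarith) (by linarith) (by linarith) (by linarith)
    rcases le_total s.re 1.2729 with u5 | v5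
    · exact JD6b_p1_c1_b0_5 hβ hN (by linarith) (by linarith) (by linarith) (by linarith)
    rcases le_total s.re 1.3429 with u6 | v6
    · exact JD6b_p1_c1_b0_6 hβ hN (by linarith) (by linarith) (by linarith) (by linarith)
    rcases le_total s.re 1.4329 with u7 | v7
    · exact JD6b_p1_c1_b0_7 hβ hN (by linarith) (by linarith) (by linarith) (by linarith)
    exact JD6b_p1_c1_b0_8 hβ hN (by linarith) (by linarith) (by linarith) (by linarith)
  rcases le_total s.re 1.4729 with u0 | v0
  · exact JD6b_p1_c1_b1_0 hβ hN (by linarith) (by linarith) (by linarith) (by linarith)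
  exact JD6b_p1_c1_b1_1 hβ hN (by linarith) (by linarith) (by linarith) (by linarith)

theorem JD6b_1 {κ t β : ℝ} (h : DomR κ t) (hβ : 0 < β) (hk1 : 0.9 ≤ κ) (hk2 : κ ≤ 1)
    (ht1 : -0.576 ≤ t + κ) (ht2 : t + κ ≤ -0.4398) (hR0 : β * 10 ≤ κ) (hR : β * (4.95 * (1 + κ ^ 2)) ≤ κ) :
    ∀ s : ℂ, ‖s - sg κ t‖ ≤ 0.15 → ‖HH β s - 1‖ ≤ 0.14 := by
  rcases le_total κ 0.98 with f0 | g0
  · exact JD6b_p1_c0 h hβ hk1 f0 ht1 ht2 hR0 hR
  exact JD6b_p1_c1 h hβ g0 hk2 ht1 ht2 hR0 hR

end Sok
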