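import Pool.Agent.Lib.MP_816dec_an.B6K3
import Pool.Agent.Lib.MP_816dec_an.JD6b1
import Pool.Agent.Lib.MP_816dec_an.JD6c

/-!
MP_816dec_an (A3, row R1-b6): window of the box [0.75, 0.9] of kappa (generated).
-/

set_option autoImplicit false

open Complex Set Filter Topology Metric

namespace Sok.B6K3

variable {β r t κ s h T : ℝ}

theorem y1w (H : D6 β r t κ s h T) (B : BX6 0.75 0.9 0.49724 0.48 10 0.09 6.0586 β r κ T) (h1 : 0.45 ≤ s) (h2 : s ≤ 0.58) :
    eN r κ * (0.9166 * Real.exp (-(T * (0.4678 * s ^ 2)))) ≤ ‖Xf β r h t 1‖ := by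
  have hr := rgR (a := 0) (τ1 := 0.4712) (τm := 0.6074) H.h1 H.h2 h1 h2 (by norm_num) (by norm_num) (by norm_num)
  rw [add_zero, ← H.hs] at hr
  obtain ⟨ha, hb⟩ := hr
  have hD := H.dom' (t' := t) (by linarith) (by linarith)
  have hk1 := B.hk1
  have hk2 := B.hk2
  have hk0 := H.k0
  have hy1 : 0.189 ≤ sy κ t := syR_ge hD 0.75 0.9 0.4712 0.189 1.20804 1.20805 0.25368 0.30443 hk1 hk2 (by linarith) (by norm_num) (by norm_num)
    (expn_ge (by norm_num) (by norm_num)) (expn_le (by norm_num) (by norm_num) (by norm_num)) (by norm_num)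
    (by norm_num) (by norm_num) (by norm_num) (by norm_num) (by norm_num) (by norm_num)
  have hy2 : sy κ t ≤ 0.25 := syR_le hD 0.75 0.9 0.6074 0.25 1.28402 0.3388 0.35667 0.42802 hk1 hk2 (by linarith) (by norm_num) (by norm_num)
    (expn_ge (by norm_num) (by norm_num)) (by norm_num) (by norm_num) (Or.inr ((mul_le_mul_of_nonneg_left (expn_le (E := 1.28403) (by norm_num) (by norm_num) (by norm_num)) (by norm_num)).trans (by norm_num))) (by norm_num) (by norm_num) (by norm_num)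
  exact H.x1lo hD (ε := 0.045) (c := 0.4678) (d := 1.1784) (l := 0.9166) (by norm_num) (JB6_k1a hD H.hβ H.hk1 H.hk2 (by linarith) (by linarith) H.ble H.bc')
    (V1lo6 hD 0.0685 0.4712 0.6075 _ 0.195 0.4678 (by norm_num) ha (by linarith) (k3 B) rfl (fq B) (by norm_num) (fg B) (by norm_num))
    (D_up6 hD 0.75 0.9 0.189 0.25 0.82779 0.77881 1.1784 hk1 hk2 (by norm_num) hy1 hy2 (by norm_num) (expm_le (by norm_num) (by norm_num) (by norm_num)) (expm_le (by norm_num) (by norm_num) (by norm_num)) (by norm_num) (by norm_num) (by norm_num) (by norm_num)) (by norm_num) (by norm_num)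


theorem y0w (H : D6 β r t κ s h T) (B : BX6 0.75 0.9 0.49724 0.48 10 0.09 6.0586 β r κ T) (h1 : 0.45 ≤ s) (h2 : s ≤ 0.58) :
    eN r κ * (0.8917 * Real.exp (-(T * (0.5859 * (s - 1) ^ 2)))) ≤ ‖Xf β r h t 0‖ := by
  have hr := rgL (a := (-1)) (b1 := 0.4398) (b2 := 0.576) H.h1 H.h2 h1 h2 (by norm_num) (by norm_num) (by norm_num)
  have e : (s + -1) * h = (t - h) + κ := by rw [H.a0]; ring
  rw [e] at hr
  obtain ⟨ha, hb⟩ := hr
  have hD := H.dom' (t' := t - h) (by linarith) (by linarith)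
  have hk1 := B.hk1
  have hk2 := B.hk2
  have hk0 := H.k0
  have hy1 : -0.341 ≤ sy κ (t - h) := syL_ge hD 0.75 0.9 0.576 0.341 0.71105 0.71106 0.3143 0.2694 0.3233 hk1 hk2 (by linarith) (by norm_num) (by norm_num) (by norm_num)
    (expm_ge (by norm_num) (by norm_num) (by norm_num) (by norm_num)) (expm_le (by norm_num) (by norm_num) (by norm_num)) (by norm_num)
    (by norm_num) (by norm_num) (by norm_num) (by norm_num) (by norm_num) (by norm_num)
  have hy2 : sy κ (t - h) ≤ -0.245 := syL_le hD 0.75 0.9 0.4398 0.245 0.7827 0.78271 0.21306 0.25569 hk1 hk2 (by linarith) (by norm_num) (by norm_num) (by norm_num)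
    (expm_ge (by norm_num) (by norm_num) (by norm_num) (by norm_num)) (expm_le (by norm_num) (by norm_num) (by norm_num)) (by norm_num)
    (by norm_num) (by norm_num) (by norm_num) (by norm_num) (by norm_num) (by norm_num)
  exact H.x0lo hD (ε := 0.095) (c := 0.5859) (d := 1.0609) (l := 0.8917) (by norm_num) (by
      rcases le_total ((t - h) + κ) (-0.45) with g | g
      · exact JB6_k0e hD H.hβ H.hk1 H.hk2 (by linarith) (by linarith) H.ble H.bc'
      · exact (JB6_k0a hD H.hβ H.hk1 H.hk2 (by linarith) (by linarith) H.ble H.bc').trans (by norm_num))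
    (V0_lo hD 0.5859 0.576 0.1249 0.1107 0.2622 0.49724 (by linarith) (by linarith) (by norm_num) (fa1 B) (fa2 B) (fa3 B) (fa4 H B) (by norm_num) (by norm_num) (by norm_num) (by norm_num) (by norm_num))
    (D_up6 hD 0.75 0.9 (-0.341) (-0.245) 1.40636 1.27763 1.0609 hk1 hk2 (by norm_num) hy1 hy2 (by norm_num) (by rw [neg_neg]; exact expn_le (by norm_num) (by norm_num) (by norm_num)) (by rw [neg_neg]; exact expn_le (by norm_num) (by norm_num) (by norm_num)) (by norm_num) (by norm_num) (by norm_num) (by norm_num)) (by norm_num) (by norm_num)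


theorem tw2 (H : D6 β r t κ s h T) (B : BX6 0.75 0.9 0.49724 0.48 10 0.09 6.0586 β r κ T) (h1 : 0.45 ≤ s) (h2 : s ≤ 0.58) :
    ‖Xf β r h (t) 2‖ ≤ (0.03057 + 0.001919) * ‖Xf β r h t 1‖ ∧
    r * ‖Xf β r h (t) 2‖ ≤ (1.6506 * 6.0586 * 0.03057 + 10 * 0.001919) * ‖Xf β r h t 1‖ := by
  have hr := rgR (a := 1) (τ1 := 1.5184) (τm := 1.6546) H.h1 H.h2 h1 h2 (by norm_num) (by norm_num) (by norm_num)
  have e : s + ((2 : ℤ) : ℝ) - 1 = s + 1 := by push_cast; ring
  have e2 := H.ang 2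
  rw [e] at e2
  have ha : 1.5184 ≤ (t + (((2 : ℤ) : ℝ) - 1) * h) + κ := by rw [e2]; exact hr.1
  have hb : (t + (((2 : ℤ) : ℝ) - 1) * h) + κ ≤ 1.6546 := by rw [e2]; exact hr.2
  have hD := H.dom' (t' := t + (((2 : ℤ) : ℝ) - 1) * h) (by linarith) (by linarith)
  exact cellTW (k := 2) (Y := ‖Xf β r h t 1‖) (g := 0.4678 * s ^ 2) 0.3308 0.355 0.5222 0.7016 0.33125 1.109 1.2848 0.9496 0.8823 1.0625 0.75 0.9 0.09 0.4607 0.25 0.2869 10 0.9166 0.60077 6.0586 0.026369 0.03057 1.09663 0.15737 0.7902 0.8895 3.1623 0.0016713 0.001919 1.6506 1.09662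
    H.hβ H.hκ H.hs H.hT H.hq2 (by norm_num) hD (VR_box6 hD 0.53 0.3308 0.75 0.49724 0.48 1.5184 1.6546 _ _ _ _ _ ha hb (by norm_num) B.hk1 B.hψ B.hψ1 (by norm_num) (by norm_num) (by norm_num) rfl rfl (by norm_num) rfl rfl rfl (by norm_num) (by norm_num)) B.hk1 B.hk2 (by rw [e]; linarith [hr.1]) (by rw [e]; linarith [hr.2])
    B.hR B.hb B.hT (y1w H B (by linarith) (by linarith)) (by positivity) (gA (by norm_num) (by linarith) (by linarith : s ≤ 0.58) (by norm_num))
    (by rw [e]; exact qB (s1 := 0.45) (s2 := 0.58) (by norm_num) (by norm_num) h1 h2 (le_refl _) (by norm_num) (by norm_num) (by norm_num))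
    (y_right_60 hD (by linarith [B.hk1]) H.hk2 (by linarith))
    (by norm_num) (by norm_num) (by norm_num) (by norm_num) (by norm_num) (expn 0 0.3549 (by norm_num) (by norm_num) (E := 0.7016) (by norm_num) (by norm_num)) (expn 1 0.1049 (by norm_num) (by norm_num) (E := 0.33125) (by norm_num) (by norm_num)) (by norm_num) (by norm_num) (by norm_num) (by norm_num) (by norm_num) (by norm_num) (by norm_num) (by norm_num) (by norm_num) (by norm_num) (by norm_num) (by norm_num) (by norm_num) (by norm_num) (by norm_num) (by norm_num) (by norm_num) (by norm_num) (by norm_num) (by norm_num) (by norm_num)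
    (expn 3 0.6398 (by norm_num) (by norm_num) (E := 0.026369) (by norm_num) (by norm_num)) (by norm_num) (by norm_num) (by norm_num) (by norm_num) (by norm_num) (by norm_num) (by norm_num) (by norm_num) (by norm_num) H.hq1 (by norm_num) (by norm_num)
    (expn 6 0.3949 (by norm_num) (by norm_num) (E := 0.0016713) (by norm_num) (by norm_num)) (by norm_num) (by norm_num)


theorem tw2s (H : D6 β r t κ s h T) (B : BX6 0.75 0.9 0.49724 0.48 10 0.09 6.0586 β r κ T) (h1 : 0.45 ≤ s) (h2 : s ≤ 0.58) :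
    ‖Xf β r h (t + β) 2‖ ≤ (0.03345 + 0.001919) * ‖Xf β r h t 1‖ ∧
    r * ‖Xf β r h (t + β) 2‖ ≤ (1.6506 * 6.0586 * 0.03345 + 10 * 0.001919) * ‖Xf β r h t 1‖ := by
  obtain ⟨hs5, hs6⟩ := H.bh (b := 0.08595) B.hb (by norm_num)
  have hr := rgR (a := 1) (τ1 := 1.5184) (τm := 1.7446) H.h1 H.h2 (by linarith : 0.45 ≤ s + β / h) (by linarith : s + β / h ≤ 0.66595) (by norm_num) (by norm_num) (by norm_num)
  have e : s + β / h + ((2 : ℤ) : ℝ) - 1 = s + β / h + 1 := by push_cast; ring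
  have e2 := H.shift.ang 2
  rw [e] at e2
  have ha : 1.5184 ≤ (t + β + (((2 : ℤ) : ℝ) - 1) * h) + κ := by rw [e2]; exact hr.1
  have hb : (t + β + (((2 : ℤ) : ℝ) - 1) * h) + κ ≤ 1.7446 := by rw [e2]; exact hr.2
  have hD := H.dom' (t' := t + β + (((2 : ℤ) : ℝ) - 1) * h) (by linarith) (by linarith)
  exact cellTW (k := 2) (Y := ‖Xf β r h t 1‖) (g := 0.4678 * s ^ 2) 0.3236 0.355 0.5222 0.7016 0.33125 1.109 1.2848 0.9496 0.8823 1.0625 0.75 0.9 0.09 0.4607 0.25 0.2869 10 0.9166 0.58563 6.0586 0.028853 0.03345 1.09663 0.15737 0.7902 0.8895 3.1623 0.0016713 0.001919 1.6506 1.09662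
    H.hβ H.hκ H.shift.hs H.hT H.hq2 (by norm_num) hD (VR_box6 hD 0.52 0.3236 0.75 0.49724 0.48 1.5184 1.7446 _ _ _ _ _ ha hb (by norm_num) B.hk1 B.hψ B.hψ1 (by norm_num) (by norm_num) (by norm_num) rfl rfl (by norm_num) rfl rfl rfl (by norm_num) (by norm_num)) B.hk1 B.hk2 (by rw [e]; linarith [hr.1]) (by rw [e]; linarith [hr.2])
    B.hR B.hb B.hT (y1w H B (by linarith) (by linarith)) (by positivity) (gA (by norm_num) (by linarith) (by linarith : s ≤ 0.58) (by norm_num))
    (by rw [e]; exact qB (s1 := 0.45) (s2 := 0.58) (by norm_num) (by norm_num) h1 h2 hs5 (by norm_num) (by norm_num) (by norm_num))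
    (y_right_60 hD (by linarith [B.hk1]) H.hk2 (by linarith))
    (by norm_num) (by norm_num) (by norm_num) (by norm_num) (by norm_num) (expn 0 0.3549 (by norm_num) (by norm_num) (E := 0.7016) (by norm_num) (by norm_num)) (expn 1 0.1049 (by norm_num) (by norm_num) (E := 0.33125) (by norm_num) (by norm_num)) (by norm_num) (by norm_num) (by norm_num) (by norm_num) (by norm_num) (by norm_num) (by norm_num) (by norm_num) (by norm_num) (by norm_num) (by norm_num) (by norm_num) (by norm_num) (by norm_num) (by norm_num) (by norm_num) (by norm_num) (by norm_num) (by norm_num) (by norm_num) (by norm_num)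
    (expn 3 0.548 (by norm_num) (by norm_num) (E := 0.028853) (by norm_num) (by norm_num)) (by norm_num) (by norm_num) (by norm_num) (by norm_num) (by norm_num) (by norm_num) (by norm_num) (by norm_num) (by norm_num) H.hq1 (by norm_num) (by norm_num)
    (expn 6 0.3949 (by norm_num) (by norm_num) (E := 0.0016713) (by norm_num) (by norm_num)) (by norm_num) (by norm_num)


theorem twm1 (H : D6 β r t κ s h T) (B : BX6 0.75 0.9 0.49724 0.48 10 0.09 6.0586 β r κ T) (h1 : 0.45 ≤ s) (h2 : s ≤ 0.58) :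
    ‖Xf β r h (t) (-1)‖ ≤ (0.00263 + 0.000713) * ‖Xf β r h t 0‖ ∧
    r * ‖Xf β r h (t) (-1)‖ ≤ (1.6506 * 6.0586 * 0.00263 + 10 * 0.000713) * ‖Xf β r h t 0‖ := by
  have hr := rgL (a := (-2)) (b1 := 1.487) (b2 := 1.6232) H.h1 H.h2 h1 h2 (by norm_num) (by norm_num) (by norm_num)
  have e : s + ((-1 : ℤ) : ℝ) - 1 = s + (-2) := by push_cast; ring
  exact cellLW (k := -1) (Y := ‖Xf β r h t 0‖) (g := 0.5859 * (s - 1) ^ 2) 1.13 0.5693 0.75 0.9 0.49724 0.48 1.487 1.6232 _ _ _ _ _ 1.36987 1.3131 10 0.09 0.4607 0 1.0911 0.8917 1.04458 6.0586 0.0017852 0.00263 1.09663 0.17724 0.7687 0.8756 3.1623 0.00015872 0.000713 1.6506 1.09662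
    H.hβ H.hκ H.hs H.hT H.h0 H.hq2 (by norm_num) B.hk1 B.hk2 B.hψ B.hψ1 (by rw [e]; exact hr.1) (by rw [e]; exact hr.2)
    B.hR B.hb B.hT (y0w H B (by linarith) (by linarith)) (by positivity) (gD (by norm_num) (by linarith : 0.45 ≤ s) (by linarith) (by norm_num))
    (by rw [e]; exact qC (s1 := 0.45) (s2 := 0.58) (b := 0) (by norm_num) (by norm_num) h1 h2 (by linarith) (by norm_num) (by norm_num) (by norm_num))
    (by norm_num) (by norm_num) (by norm_num) (by norm_num) rfl rfl (by norm_num) rfl rfl rfl (by norm_num) (by norm_num) (by norm_num) (by norm_num) (by norm_num) (by norm_num) (by norm_num) (by norm_num) (by norm_num) (by norm_num) (by norm_num) (by norm_num) (by norm_num) (by norm_num) (by norm_num) (by norm_num) (by norm_num) (by norm_num)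
    (expn 6 0.3286 (by norm_num) (by norm_num) (E := 0.0017852) (by norm_num) (by norm_num)) (by norm_num) (by norm_num) (by norm_num) (by norm_num) (by norm_num) (by norm_num) (by norm_num) (by norm_num) (by norm_num) H.hq1 (by norm_num) (by norm_num)
    (expn 8 0.7559 (by norm_num) (by norm_num) (E := 0.00015872) (by norm_num) (by norm_num)) (by norm_num) (by norm_num)


theorem twm1s (H : D6 β r t κ s h T) (B : BX6 0.75 0.9 0.49724 0.48 10 0.09 6.0586 β r κ T) (h1 : 0.45 ≤ s) (h2 : s ≤ 0.58) :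
    ‖Xf β r h (t + β) (-1)‖ ≤ (0.0067 + 0.000708) * ‖Xf β r h t 0‖ ∧
    r * ‖Xf β r h (t + β) (-1)‖ ≤ (1.6506 * 6.0586 * 0.0067 + 10 * 0.000708) * ‖Xf β r h t 0‖ := by
  obtain ⟨hs5, hs6⟩ := H.bh (b := 0.08595) B.hb (by norm_num)
  have hr := rgL (a := (-2)) (b1 := 1.397) (b2 := 1.6232) H.h1 H.h2 (by linarith : 0.45 ≤ s + β / h) (by linarith : s + β / h ≤ 0.66595) (by norm_num) (by norm_num) (by norm_num)
  have e : s + β / h + ((-1 : ℤ) : ℝ) - 1 = s + β / h + (-2) := by push_cast; ring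
  exact cellLW (k := -1) (Y := ‖Xf β r h t 0‖) (g := 0.5859 * (s - 1) ^ 2) 1.11 0.561 0.75 0.9 0.49724 0.48 1.397 1.6232 _ _ _ _ _ 1.22048 1.3516 10 0.09 0.4607 0 1.0837 0.8917 0.89505 6.0586 0.0044195 0.0067 1.09663 0.17724 0.7687 0.8756 3.1623 0.00015872 0.000708 1.6506 1.09662
    H.hβ H.hκ H.shift.hs H.hT H.h0 H.hq2 (by norm_num) B.hk1 B.hk2 B.hψ B.hψ1 (by rw [e]; exact hr.1) (by rw [e]; exact hr.2)
    B.hR B.hb B.hT (y0w H B (by linarith) (by linarith)) (by positivity) (gD (by norm_num) (by linarith : 0.45 ≤ s) (by linarith) (by norm_num))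
    (by rw [e]; exact qC (s1 := 0.45) (s2 := 0.58) (b := 0.08595) (by norm_num) (by norm_num) h1 h2 hs6 (by norm_num) (by norm_num) (by norm_num))
    (by norm_num) (by norm_num) (by norm_num) (by norm_num) rfl rfl (by norm_num) rfl rfl rfl (by norm_num) (by norm_num) (by norm_num) (by norm_num) (by norm_num) (by norm_num) (by norm_num) (by norm_num) (by norm_num) (by norm_num) (by norm_num) (by norm_num) (by norm_num) (by norm_num) (by norm_num) (by norm_num) (by norm_num) (by norm_num)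
    (expn 5 0.4227 (by norm_num) (by norm_num) (E := 0.0044195) (by norm_num) (by norm_num)) (by norm_num) (by norm_num) (by norm_num) (by norm_num) (by norm_num) (by norm_num) (by norm_num) (by norm_num) (by norm_num) H.hq1 (by norm_num) (by norm_num)
    (expn 8 0.7559 (by norm_num) (by norm_num) (E := 0.00015872) (by norm_num) (by norm_num)) (by norm_num) (by norm_num)


theorem twm2 (H : D6 β r t κ s h T) (B : BX6 0.75 0.9 0.49724 0.48 10 0.09 6.0586 β r κ T) (h1 : 0.45 ≤ s) (h2 : s ≤ 0.58) :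
    ‖Xf β r h (t) (-2)‖ ≤ (0.00002 + 0.000614) * ‖Xf β r h t 0‖ ∧
    r * ‖Xf β r h (t) (-2)‖ ≤ (1.6506 * 6.0586 * 0.00002 + 10 * 0.000614) * ‖Xf β r h t 0‖ := by
  have hr := rgL (a := (-3)) (b1 := 2.5342) (b2 := 2.6704) H.h1 H.h2 h1 h2 (by norm_num) (by norm_num) (by norm_num)
  have e : s + ((-2 : ℤ) : ℝ) - 1 = s + (-3) := by push_cast; ring
  exact cellLW (k := -2) (Y := ‖Xf β r h t 0‖) (g := 0.5859 * (s - 1) ^ 2) 0.41 0.3356 0.75 0.9 0.49724 0.48 2.5342 2.6704 _ _ _ _ _ 1.10701 1.385 10 0.09 0.4607 0 0.9391 0.8917 1.86205 6.0586 0.000012608 0.00002 1.09663 0.17724 0.7687 0.8756 3.1623 0.00015872 0.000614 1.6506 1.09662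
    H.hβ H.hκ H.hs H.hT H.h0 H.hq2 (by norm_num) B.hk1 B.hk2 B.hψ B.hψ1 (by rw [e]; exact hr.1) (by rw [e]; exact hr.2)
    B.hR B.hb B.hT (y0w H B (by linarith) (by linarith)) (by positivity) (gD (by norm_num) (by linarith : 0.45 ≤ s) (by linarith) (by norm_num))
    (by rw [e]; exact qC (s1 := 0.45) (s2 := 0.58) (b := 0) (by norm_num) (by norm_num) h1 h2 (by linarith) (by norm_num) (by norm_num) (by norm_num))
    (by norm_num) (by norm_num) (by norm_num) (by norm_num) rfl rfl (by norm_num) rfl rfl rfl (by norm_num) (by norm_num) (by norm_num) (by norm_num) (by norm_num) (by norm_num) (by norm_num) (by norm_num) (by norm_num) (by norm_num) (by norm_num) (by norm_num) (by norm_num) (by norm_num) (by norm_num) (by norm_num) (by norm_num) (by norm_num)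
    (expn 11 0.2814 (by norm_num) (by norm_num) (E := 0.000012608) (by norm_num) (by norm_num)) (by norm_num) (by norm_num) (by norm_num) (by norm_num) (by norm_num) (by norm_num) (by norm_num) (by norm_num) (by norm_num) H.hq1 (by norm_num) (by norm_num)
    (expn 8 0.7559 (by norm_num) (by norm_num) (E := 0.00015872) (by norm_num) (by norm_num)) (by norm_num) (by norm_num)


theorem twm2s (H : D6 β r t κ s h T) (B : BX6 0.75 0.9 0.49724 0.48 10 0.09 6.0586 β r κ T) (h1 : 0.45 ≤ s) (h2 : s ≤ 0.58) :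
    ‖Xf β r h (t + β) (-2)‖ ≤ (0.00002 + 0.00063) * ‖Xf β r h t 0‖ ∧
    r * ‖Xf β r h (t + β) (-2)‖ ≤ (1.6506 * 6.0586 * 0.00002 + 10 * 0.00063) * ‖Xf β r h t 0‖ := by
  obtain ⟨hs5, hs6⟩ := H.bh (b := 0.08595) B.hb (by norm_num)
  have hr := rgL (a := (-3)) (b1 := 2.4442) (b2 := 2.6704) H.h1 H.h2 (by linarith : 0.45 ≤ s + β / h) (by linarith : s + β / h ≤ 0.66595) (by norm_num) (by norm_num) (by norm_num)
  have e : s + β / h + ((-2 : ℤ) : ℝ) - 1 = s + β / h + (-3) := by push_cast; ring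
  exact cellLW (k := -2) (Y := ‖Xf β r h t 0‖) (g := 0.5859 * (s - 1) ^ 2) 0.45 0.3602 0.75 0.9 0.49724 0.48 2.4442 2.6704 _ _ _ _ _ 1.11297 1.3831 10 0.09 0.4607 0 0.9636 0.8917 1.85894 6.0586 0.000012848 0.00002 1.09663 0.17724 0.7687 0.8756 3.1623 0.00015872 0.00063 1.6506 1.09662
    H.hβ H.hκ H.shift.hs H.hT H.h0 H.hq2 (by norm_num) B.hk1 B.hk2 B.hψ B.hψ1 (by rw [e]; exact hr.1) (by rw [e]; exact hr.2)
    B.hR B.hb B.hT (y0w H B (by linarith) (by linarith)) (by positivity) (gD (by norm_num) (by linarith : 0.45 ≤ s) (by linarith) (by norm_num))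
    (by rw [e]; exact qC (s1 := 0.45) (s2 := 0.58) (b := 0.08595) (by norm_num) (by norm_num) h1 h2 hs6 (by norm_num) (by norm_num) (by norm_num))
    (by norm_num) (by norm_num) (by norm_num) (by norm_num) rfl rfl (by norm_num) rfl rfl rfl (by norm_num) (by norm_num) (by norm_num) (by norm_num) (by norm_num) (by norm_num) (by norm_num) (by norm_num) (by norm_num) (by norm_num) (by norm_num) (by norm_num) (by norm_num) (by norm_num) (by norm_num) (by norm_num) (by norm_num) (by norm_num)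
    (expn 11 0.2625 (by norm_num) (by norm_num) (E := 0.000012848) (by norm_num) (by norm_num)) (by norm_num) (by norm_num) (by norm_num) (by norm_num) (by norm_num) (by norm_num) (by norm_num) (by norm_num) (by norm_num) H.hq1 (by norm_num) (by norm_num)
    (expn 8 0.7559 (by norm_num) (by norm_num) (E := 0.00015872) (by norm_num) (by norm_num)) (by norm_num) (by norm_num)


theorem tw3 (H : D6 β r t κ s h T) (B : BX6 0.75 0.9 0.49724 0.48 10 0.09 6.0586 β r κ T) (h1 : 0.45 ≤ s) (h2 : s ≤ 0.58) :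
    ‖Xf β r h (t) 3‖ ≤ 0.000949 * ‖Xf β r h t 1‖ ∧
    r * ‖Xf β r h (t) 3‖ ≤ (10 * 0.000949) * ‖Xf β r h t 1‖ := by
  have hr := rgR (a := 2) (τ1 := 2.5656) (τm := 2.7018) H.h1 H.h2 h1 h2 (by norm_num) (by norm_num) (by norm_num)
  have e : (s + ((3 : ℤ) : ℝ) - 1) * h + 2 * Real.pi * ((0 : ℤ) : ℝ) = (s + 2) * h := by push_cast; ring
  exact cellUW (k := 3) (Y := ‖Xf β r h t 1‖) (g := 0.4678 * s ^ 2) 0 0.75 0.9 1.6655 2.7018 0.01 10 0.09 0.4607 0.01 1.5497 0.9166 1.09663 0.15737 0.7902 0.8895 3.1623 0.00015287 0.000949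
    H.hβ H.hκ H.hs H.hT H.h0 H.hq2 (by norm_num) B.hk1 B.hk2 (by rw [e]; linarith [hr.1, B.hk2]) (by rw [e]; exact hr.2)
    B.hR B.hb (y1w H B (by linarith) (by linarith)) (by positivity) (gA (by norm_num) (by linarith) (by linarith : s ≤ 0.58) (by norm_num))
    (by norm_num) (by norm_num) (by norm_num) (by norm_num) (by norm_num) (by norm_num) (by norm_num) (by norm_num) (by norm_num) (by norm_num) (by norm_num) (by norm_num) (by norm_num) (by norm_num) (by norm_num) (by norm_num) (by norm_num) (by norm_num) (by norm_num) 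
    (expn 8 0.7949 (by norm_num) (by norm_num) (E := 0.00015287) (by norm_num) (by norm_num)) (by norm_num) (by norm_num)


theorem tw3s (H : D6 β r t κ s h T) (B : BX6 0.75 0.9 0.49724 0.48 10 0.09 6.0586 β r κ T) (h1 : 0.45 ≤ s) (h2 : s ≤ 0.58) :
    ‖Xf β r h (t + β) 3‖ ≤ 0.000949 * ‖Xf β r h t 1‖ ∧
    r * ‖Xf β r h (t + β) 3‖ ≤ (10 * 0.000949) * ‖Xf β r h t 1‖ := by
  obtain ⟨hs5, hs6⟩ := H.bh (b := 0.08595) B.hb (by norm_num)
  have hr := rgR (a := 2) (τ1 := 2.5656) (τm := 2.7918) H.h1 H.h2 (by linarith : 0.45 ≤ s + β / h) (by linarith : s + β / h ≤ 0.66595) (by norm_num) (by norm_num) (by norm_num)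
  have e : (s + β / h + ((3 : ℤ) : ℝ) - 1) * h + 2 * Real.pi * ((0 : ℤ) : ℝ) = (s + β / h + 2) * h := by push_cast; ring
  exact cellUW (k := 3) (Y := ‖Xf β r h t 1‖) (g := 0.4678 * s ^ 2) 0 0.75 0.9 1.6655 2.7918 0.01 10 0.09 0.4607 0.01 1.5497 0.9166 1.09663 0.15737 0.7902 0.8895 3.1623 0.00015287 0.000949
    H.hβ H.hκ H.shift.hs H.hT H.h0 H.hq2 (by norm_num) B.hk1 B.hk2 (by rw [e]; linarith [hr.1, B.hk2]) (by rw [e]; exact hr.2)
    B.hR B.hb (y1w H B (by linarith) (by linarith)) (by positivity) (gA (by norm_num) (by linarith) (by linarith : s ≤ 0.58) (by norm_num))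
    (by norm_num) (by norm_num) (by norm_num) (by norm_num) (by norm_num) (by norm_num) (by norm_num) (by norm_num) (by norm_num) (by norm_num) (by norm_num) (by norm_num) (by norm_num) (by norm_num) (by norm_num) (by norm_num) (by norm_num) (by norm_num) (by norm_num) 
    (expn 8 0.7949 (by norm_num) (by norm_num) (E := 0.00015287) (by norm_num) (by norm_num)) (by norm_num) (by norm_num)


theorem win (H : D6 β r t κ s h T) (B : BX6 0.75 0.9 0.49724 0.48 10 0.09 6.0586 β r κ T) (h1 : 0.45 ≤ s) (h2 : s ≤ 0.58) :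
    Win6 β r h t 3.616 0.032489 0.003343 0.000949 0.000634 1.2215 0.186 0.0519 0.0391 := by
  have hk1 := B.hk1
  have hk2 := B.hk2
  have hk0 := H.k0
  have hr := rgR (a := 0) (τ1 := 0.4712) (τm := 0.6075) H.h1 H.h2 h1 h2 (by norm_num) (by norm_num) (by norm_num)
  rw [add_zero, ← H.hs] at hr
  obtain ⟨ha, hb⟩ := hr
  have hr0 := rgL (a := (-1)) (b1 := 0.4398) (b2 := 0.576) H.h1 H.h2 h1 h2 (by norm_num) (by norm_num) (by norm_num)
  have e0 : (s + -1) * h = (t - h) + κ := by rw [H.a0]; ring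
  rw [e0] at hr0
  obtain ⟨ha0, hb0⟩ := hr0
  have hD := H.dom' (t' := t) (by linarith) (by linarith)
  have hy1 : 0.189 ≤ sy κ t := syR_ge hD 0.75 0.9 0.4712 0.189 1.20804 1.20805 0.25368 0.30443 hk1 hk2 (by linarith) (by norm_num) (by norm_num)
    (expn_ge (by norm_num) (by norm_num)) (expn_le (by norm_num) (by norm_num) (by norm_num)) (by norm_num)
    (by norm_num) (by norm_num) (by norm_num) (by norm_num) (by norm_num) (by norm_num)
  have hy2 : sy κ t ≤ 0.25 := syR_le hD 0.75 0.9 0.6075 0.25 1.28402 0.3388 0.35667 0.42802 hk1 hk2 (by linarith) (by norm_num) (by norm_num)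
    (expn_ge (by norm_num) (by norm_num)) (by norm_num) (by norm_num) (Or.inr ((mul_le_mul_of_nonneg_left (expn_le (E := 1.28403) (by norm_num) (by norm_num) (by norm_num)) (by norm_num)).trans (by norm_num))) (by norm_num) (by norm_num) (by norm_num)
  have hy10 := hy1
  have hy20 := hy2
  clear hy1 hy2
  have hD1 := hD
  clear hD
  have hD := H.dom' (t' := t - h) (by linarith) (by linarith)
  have hy1 : -0.341 ≤ sy κ (t - h) := syL_ge hD 0.75 0.9 0.576 0.341 0.71105 0.71106 0.3143 0.2694 0.3233 hk1 hk2 (by linarith) (by norm_num) (by norm_num) (by norm_num)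
    (expm_ge (by norm_num) (by norm_num) (by norm_num) (by norm_num)) (expm_le (by norm_num) (by norm_num) (by norm_num)) (by norm_num)
    (by norm_num) (by norm_num) (by norm_num) (by norm_num) (by norm_num) (by norm_num)
  have hy2 : sy κ (t - h) ≤ -0.245 := syL_le hD 0.75 0.9 0.4398 0.245 0.7827 0.78271 0.21306 0.25569 hk1 hk2 (by linarith) (by norm_num) (by norm_num) (by norm_num)
    (expm_ge (by norm_num) (by norm_num) (by norm_num) (by norm_num)) (expm_le (by norm_num) (by norm_num) (by norm_num)) (by norm_num)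
    (by norm_num) (by norm_num) (by norm_num) (by norm_num) (by norm_num) (by norm_num)
  have hJ1 := JD6c_2 hD1 H.hβ (by linarith) (by linarith) (by linarith) (by linarith) H.ble H.bc'
  have hJ0 := JD6b_0 hD H.hβ (by linarith) (by linarith) (by linarith) (by linarith) H.ble H.bc'
  have hρ1 := rho_le hD1 (k2 := 0.9) (yl := 0.189) (E := 0.82779) (ρ := 0.5359) hk2 hy10 (expm_le (by norm_num) (by norm_num) (by norm_num)) (by norm_num) (by norm_num) (by norm_num) (by norm_num)
  have hρ0 := rho_le hD (k2 := 0.9) (yl := (-0.341)) (E := 1.40636) (ρ := 0.9135) hk2 hy1 (by rw [neg_neg]; exact expn_le (by norm_num) (by norm_num) (by norm_num)) (by norm_num) (by norm_num) (by norm_num) (by norm_num)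
  have he1 : ‖Ld β r h t 1 - (sg κ t / β + Gc6 κ t)‖ ≤ 0.269 := (Ld_near (k := 1) (δ := 0.15) (ε := 0.07) (ρ := 0.5359) H.hβ H.hκ (by push_cast; ring) hD1 (by norm_num) (by norm_num) (by norm_num) (by linarith) hJ1 hρ1).trans (by norm_num)
  have he0 : ‖Ld β r h t 0 - (sg κ (t - h) / β + Gc6 κ (t - h))‖ ≤ 0.9914 := (Ld_near (k := 0) (δ := 0.15) (ε := 0.14) (ρ := 0.9135) H.hβ H.hκ (by push_cast; ring) hD (by norm_num) (by norm_num) (by norm_num) (by linarith) hJ0 hρ0).trans (by norm_num)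
  have hg1 := gam_le hD1 (yl := 0.189) (γ := 0.213) hy10 (by norm_num) (by norm_num) (by norm_num)
  have hg0 := gam_le hD (yl := (-0.341)) (γ := 0.4434) hy1 (by norm_num) (by norm_num) (by norm_num)
  have hDl1 : 1.6685 ≤ sD κ t := by
    refine le_trans ?_ (D_lo6 hD1 0.75 0.9 0.189 0.25 0.189 0.82778 1.0679 hk1 hk2 (by norm_num) hy10 hy20 (expm_ge (by norm_num) (by norm_num) (by norm_num) (by norm_num)) (by norm_num) (by norm_num) (by norm_num) (by norm_num) (by norm_num) (by norm_num))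
    nlinarith [pow_le_pow_left₀ (by norm_num) hk1 2]
  have hw1 : (κ * Real.exp (-sy κ t)) ^ 2 ≤ 1 := by
    have h4 : Real.exp (-sy κ t) ≤ 0.82779 := (Real.exp_le_exp.2 (by linarith : -sy κ t ≤ -0.189)).trans (expm_le (by norm_num) (by norm_num) (by norm_num))
    have h3 : κ * Real.exp (-sy κ t) ≤ 0.9 * 0.82779 := mul_le_mul hk2 h4 (Real.exp_pos _).le (by norm_num)
    refine (pow_le_pow_left₀ (by positivity) h3 2).trans (by norm_num)
  have hG1 : -(0 : ℝ) ≤ (Gc6 κ t).im := by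
    refine le_trans ?_ (Gim_ge hD1 hg1 hw1 (by norm_num) (by norm_num : (0:ℝ) < 1.6685) hDl1)
    norm_num
  have hDl0 : 1.4235 ≤ sD κ (t - h) := by
    refine le_trans ?_ (D_lo6 hD 0.75 0.9 (-0.341) (-0.245) (-0.293) 1.34044 0.9111 hk1 hk2 (by norm_num) hy1 hy2 (by rw [neg_neg]; exact expn_ge (by norm_num) (by norm_num)) (by norm_num) (by norm_num) (by norm_num) (by norm_num) (by norm_num) (by norm_num))
    nlinarith [pow_le_pow_left₀ (by norm_num) hk1 2]
  have hw0 : 0.9181 ≤ (κ * Real.exp (-sy κ (t - h))) ^ 2 := by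
    have h4 : 1.27762 ≤ Real.exp (-sy κ (t - h)) := le_trans (by rw [neg_neg]; exact expn_ge (by norm_num) (by norm_num)) (Real.exp_le_exp.2 (by linarith : -(-0.245) ≤ -sy κ (t - h)))
    have h3 : 0.75 * 1.27762 ≤ κ * Real.exp (-sy κ (t - h)) := mul_le_mul hk1 h4 (by norm_num) hk0.le
    refine le_trans (by norm_num) (pow_le_pow_left₀ (by norm_num) h3 2)
  have hG0 : (Gc6 κ (t - h)).im ≤ 0.0256 := by
    refine (Gim_le hD hg0 hw0 (by norm_num) (by norm_num : (0:ℝ) < 1.4235) hDl0).trans ?_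
    norm_num
  have hsl := slope6 H hD hD1 (c1 := 0.737) (c0 := 1) (g0 := 0.0256) (g1 := 0) (m := 3.616) (T0 := 6.0586) (μ := 0.8474) he0 he1 (pR_070 hD1 (by linarith) (by linarith) (by linarith))
    (by rw [one_mul]; exact pL_one hD (by linarith) H.hk2 (by linarith) (by linarith)) hG1 hG0 (by linarith) (by norm_num) B.hT (by norm_num) (by norm_num) (by norm_num)
  have hL1 := Ln6 H hD1 (E := 0.82779) he1 hg1 hy10 (expm_le (by norm_num) (by norm_num) (by norm_num))
  have hL0 := Ln6 H hD (E := 1.40636) he0 hg0 hy1 (by rw [neg_neg]; exact expn_le (by norm_num) (by norm_num) (by norm_num))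
  have hds := dist6 H hD hD1 h1 h2 (dy := 0.591) (k1 := 0.75) (lam := 1.6033) (by linarith) hk1 (by norm_num) (by norm_num) (by norm_num)
  have hA := Ldd6 H he0 he1 hg0 hg1 hds
  obtain ⟨l2, l3, lm1, lm2⟩ := Lam6 hA hL0 hL1
  have q2 := tw2 H B h1 h2
  have q2s := tw2s H B h1 h2
  have qm1 := twm1 H B h1 h2
  have qm1s := twm1s H B h1 h2
  have qm2 := twm2 H B h1 h2
  have qm2s := twm2s H B h1 h2
  have q3 := tw3 H B h1 h2
  have q3s := tw3s H B h1 h2
  have hX1 := norm_nonneg (Xf β r h t 1)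
  have hX0 := norm_nonneg (Xf β r h t 0)
  have hYp := lt_of_lt_of_le (mul_pos (eN_pos r κ) (by positivity)) (y0w H B h1 h2)
  refine ⟨norm_pos_iff.1 hYp, q2.1.trans (mul_le_mul_of_nonneg_right (by norm_num) hX1), q3.1.trans (mul_le_mul_of_nonneg_right (by norm_num) hX1),
    qm1.1.trans (mul_le_mul_of_nonneg_right (by norm_num) hX0), qm2.1.trans (mul_le_mul_of_nonneg_right (by norm_num) hX0),
    wsum6 q2s.2 q2.1 q2.2 (lam := 2.43109) (c := 2.3988) (l2.trans (le_of_eq (by ring))) (norm_nonneg _) (by norm_num) (by norm_num) hX1 (by norm_num),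
    wsum6 q3s.2 q3.1 q3.2 (lam := 4.03439) (c := 4.3156) (l3.trans (le_of_eq (by ring))) (norm_nonneg _) (by norm_num) (by norm_num) hX1 (by norm_num),
    wsum6 qm1s.2 qm1.1 qm1.2 (lam := 3.00966) (c := 3.3516) (lm1.trans (le_of_eq (by ring))) (norm_nonneg _) (by norm_num) (by norm_num) hX0 (by norm_num),
    wsum6 qm2s.2 qm2.1 qm2.2 (lam := 4.61296) (c := 5.2684) (lm2.trans (le_of_eq (by ring))) (norm_nonneg _) (by norm_num) (by norm_num) hX0 (by norm_num), hsl⟩


/-- box 0.75 ≤ κ ≤ 0.9 -/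
theorem box {p : ℤ} (hp : IsCoprime (6 : ℤ) p) {β r κ : ℝ} (hβ : 0 < β) (hr : 10 ≤ r) (hκ : κ = β * r)
    (hc : 4.9619 * (1 + κ ^ 2) ≤ r) (hk1 : 0.75 ≤ κ) (hk2 : κ ≤ 0.9) : Circ (2 * Real.pi * p / 6 + β) r := by
  refine circ6 hp hβ hr hκ hc (by linarith) (by linarith) (slo := 0.45) (shi := 0.58) (m := 3.616) (E2 := 0.032489) (Em1 := 0.003343) (E3 := 0.000949)
    (Em2 := 0.000634) (W2 := 1.2215) (Wm1 := 0.186) (W3 := 0.0519) (Wm2 := 0.0391) (a := 1.05)
    (by norm_num) (by norm_num) (by norm_num) (by norm_num) (by norm_num) (by norm_num) (by norm_num) (by norm_num) (by norm_num)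
    (by norm_num) (by norm_num) (by norm_num)
    (fun t s h T H h1 h2 => win H (mkB H hk1 hk2) h1 h2) ?_ ?_
  · intro t s h T H h1 h2
    have B := mkB H hk1 hk2
    rcases le_total s 0.25 with g0 | f0
    · exact outL0 H B h1 g0
    rcases le_total s 0.35 with g1 | f1
    · exact outL1 H B f0 g1
    rcases le_total s 0.43 with g2 | f2
    · exact outL2 H B f1 g2
    exact outL3 H B f2 h2
  · intro t s h T H h1 h2
    have B := mkB H hk1 hk2
    rcases le_total s 0.6 with g0 | f0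
    · exact outR0 H B h1 g0
    rcases le_total s 0.65 with g1 | f1
    · exact outR1 H B f0 g1
    rcases le_total s 0.75 with g2 | f2
    · exact outR2 H B f1 g2
    exact outR3 H B f2 h2

end Sok.B6K3
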