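import Pool.Agent.Lib.MP_816dec_an.B6K4
import Pool.Agent.Lib.MP_816dec_an.JD6b1
import Pool.Agent.Lib.MP_816dec_an.JD6c

/-!
MP_816dec_an (A3, row R1-b6): window of the box [0.9, 1] of kappa (generated).
-/

set_option autoImplicit false

open Complex Set Filter Topology Metric

namespace Sok.B6K4

variable {β r t κ s h T : ℝ}

theorem y1w (H : D6 β r t κ s h T) (B : BX6 0.9 1 0.5 0.49723 10 0.1 5.4831 β r κ T) (h1 : 0.45 ≤ s) (h2 : s ≤ 0.58) :
    eN r κ * (0.9316 * Real.exp (-(T * (0.4714 * s ^ 2)))) ≤ ‖Xf β r h t 1‖ := by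
  have hr := rgR (a := 0) (τ1 := 0.4712) (τm := 0.6074) H.h1 H.h2 h1 h2 (by norm_num) (by norm_num) (by norm_num)
  rw [add_zero, ← H.hs] at hr
  obtain ⟨ha, hb⟩ := hr
  have hD := H.dom' (t' := t) (by linarith) (by linarith)
  have hk1 := B.hk1
  have hk2 := B.hk2
  have hk0 := H.k0
  have hy1 : 0.201 ≤ sy κ t := syR_ge hD 0.9 1 0.4712 0.201 1.22262 1.22263 0.24574 0.27306 hk1 hk2 (by linarith) (by norm_num) (by norm_num)
    (expn_ge (by norm_num) (by norm_num)) (expn_le (by norm_num) (by norm_num) (by norm_num)) (by norm_num)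
    (by norm_num) (by norm_num) (by norm_num) (by norm_num) (by norm_num) (by norm_num)
  have hy2 : sy κ t ≤ 0.257 := syR_le hD 0.9 1 0.6074 0.257 1.29304 0.323 0.33231 0.36924 hk1 hk2 (by linarith) (by norm_num) (by norm_num)
    (expn_ge (by norm_num) (by norm_num)) (by norm_num) (by norm_num) (Or.inr ((mul_le_mul_of_nonneg_left (expn_le (E := 1.29305) (by norm_num) (by norm_num) (by norm_num)) (by norm_num)).trans (by norm_num))) (by norm_num) (by norm_num) (by norm_num)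
  exact H.x1lo hD (ε := 0.045) (c := 0.4714) (d := 1.1042) (l := 0.9316) (by norm_num) (JB6_k1a hD H.hβ H.hk1 H.hk2 (by linarith) (by linarith) H.ble H.bc')
    (V1lo6 hD 0.0608 0.4712 0.6075 _ 0.1815 0.4714 (by norm_num) ha (by linarith) (k3 B) rfl (fq B) (by norm_num) (fg B) (by norm_num))
    (D_up6 hD 0.9 1 0.201 0.257 0.81792 0.77337 1.1042 hk1 hk2 (by norm_num) hy1 hy2 (by norm_num) (expm_le (by norm_num) (by norm_num) (by norm_num)) (expm_le (by norm_num) (by norm_num) (by norm_num)) (by norm_num) (by norm_num) (by norm_num) (by norm_num)) (by norm_num) (by norm_num)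


theorem y0w (H : D6 β r t κ s h T) (B : BX6 0.9 1 0.5 0.49723 10 0.1 5.4831 β r κ T) (h1 : 0.45 ≤ s) (h2 : s ≤ 0.58) :
    eN r κ * (0.8759 * Real.exp (-(T * (0.5683 * (s - 1) ^ 2)))) ≤ ‖Xf β r h t 0‖ := by
  have hr := rgL (a := (-1)) (b1 := 0.4398) (b2 := 0.576) H.h1 H.h2 h1 h2 (by norm_num) (by norm_num) (by norm_num)
  have e : (s + -1) * h = (t - h) + κ := by rw [H.a0]; ring
  rw [e] at hr
  obtain ⟨ha, hb⟩ := hr
  have hD := H.dom' (t' := t - h) (by linarith) (by linarith)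
  have hk1 := B.hk1
  have hk2 := B.hk2
  have hk0 := H.k0
  have hy1 : -0.332 ≤ sy κ (t - h) := syL_ge hD 0.9 1 0.576 0.332 0.71748 0.71749 0.2492 0.2382 0.26468 hk1 hk2 (by linarith) (by norm_num) (by norm_num) (by norm_num)
    (expm_ge (by norm_num) (by norm_num) (by norm_num) (by norm_num)) (expm_le (by norm_num) (by norm_num) (by norm_num)) (by norm_num)
    (by norm_num) (by norm_num) (by norm_num) (by norm_num) (by norm_num) (by norm_num)
  have hy2 : sy κ (t - h) ≤ -0.24 := syL_le hD 0.9 1 0.4398 0.24 0.78662 0.78663 0.18878 0.20977 hk1 hk2 (by linarith) (by norm_num) (by norm_num) (by norm_num)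
    (expm_ge (by norm_num) (by norm_num) (by norm_num) (by norm_num)) (expm_le (by norm_num) (by norm_num) (by norm_num)) (by norm_num)
    (by norm_num) (by norm_num) (by norm_num) (by norm_num) (by norm_num) (by norm_num)
  exact H.x0lo hD (ε := 0.095) (c := 0.5683) (d := 1.1393) (l := 0.8759) (by norm_num) (by
      rcases le_total ((t - h) + κ) (-0.45) with g | g
      · exact JB6_k0e hD H.hβ H.hk1 H.hk2 (by linarith) (by linarith) H.ble H.bc'
      · exact (JB6_k0a hD H.hβ H.hk1 H.hk2 (by linarith) (by linarith) H.ble H.bc').trans (by norm_num))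
    (V0_lo hD 0.5683 0.576 0.1004 0.1251 0.1687 0.5 (by linarith) (by linarith) (by norm_num) (fa1 B) (fa2 B) (fa3 B) (fa4 H B) (by norm_num) (by norm_num) (by norm_num) (by norm_num) (by norm_num))
    (D_up6 hD 0.9 1 (-0.332) (-0.24) 1.39376 1.27125 1.1393 hk1 hk2 (by norm_num) hy1 hy2 (by norm_num) (by rw [neg_neg]; exact expn_le (by norm_num) (by norm_num) (by norm_num)) (by rw [neg_neg]; exact expn_le (by norm_num) (by norm_num) (by norm_num)) (by norm_num) (by norm_num) (by norm_num) (by norm_num)) (by norm_num) (by norm_num)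


theorem tw2 (H : D6 β r t κ s h T) (B : BX6 0.9 1 0.5 0.49723 10 0.1 5.4831 β r κ T) (h1 : 0.45 ≤ s) (h2 : s ≤ 0.58) :
    ‖Xf β r h (t) 2‖ ≤ (0.03451 + 0.00151) * ‖Xf β r h t 1‖ ∧
    r * ‖Xf β r h (t) 2‖ ≤ (1.8238 * 5.4831 * 0.03451 + 10 * 0.00151) * ‖Xf β r h t 1‖ := by
  have hr := rgR (a := 1) (τ1 := 1.5184) (τm := 1.6546) H.h1 H.h2 h1 h2 (by norm_num) (by norm_num) (by norm_num)
  have e : s + ((2 : ℤ) : ℝ) - 1 = s + 1 := by push_cast; ring
  have e2 := H.ang 2
  rw [e] at e2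
  have ha : 1.5184 ≤ (t + (((2 : ℤ) : ℝ) - 1) * h) + κ := by rw [e2]; exact hr.1
  have hb : (t + (((2 : ℤ) : ℝ) - 1) * h) + κ ≤ 1.6546 := by rw [e2]; exact hr.2
  have hD := H.dom' (t' := t + (((2 : ℤ) : ℝ) - 1) * h) (by linarith) (by linarith)
  exact cellTW (k := 2) (Y := ‖Xf β r h t 1‖) (g := 0.4714 * s ^ 2) 0.3484 0.445 0.4623 0.64163 0.30275 1.1874 1.3621 0.9178 0.8569 1.0553 0.9 1 0.1 0.4206 0.25 0.258 10 0.9316 0.63705 5.4831 0.030461 0.03451 1.09663 0.15858 0.7833 0.9039 3.1623 0.0014495 0.00151 1.8238 1.09662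
    H.hβ H.hκ H.hs H.hT H.hq2 (by norm_num) hD (VR_box6 hD 0.57 0.3484 0.9 0.5 0.49723 1.5184 1.6546 _ _ _ _ _ ha hb (by norm_num) B.hk1 B.hψ B.hψ1 (by norm_num) (by norm_num) (by norm_num) rfl rfl (by norm_num) rfl rfl rfl (by norm_num) (by norm_num)) B.hk1 B.hk2 (by rw [e]; linarith [hr.1]) (by rw [e]; linarith [hr.2])
    B.hR B.hb B.hT (y1w H B (by linarith) (by linarith)) (by positivity) (gA (by norm_num) (by linarith) (by linarith : s ≤ 0.58) (by norm_num))
    (by rw [e]; exact qB (s1 := 0.45) (s2 := 0.58) (by norm_num) (by norm_num) h1 h2 (le_refl _) (by norm_num) (by norm_num) (by norm_num))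
    (y_right_90 hD (by linarith [B.hk1]) H.hk2 (by linarith))
    (by norm_num) (by norm_num) (by norm_num) (by norm_num) (by norm_num) (expn 0 0.4449 (by norm_num) (by norm_num) (E := 0.64163) (by norm_num) (by norm_num)) (expn 1 0.1949 (by norm_num) (by norm_num) (E := 0.30275) (by norm_num) (by norm_num)) (by norm_num) (by norm_num) (by norm_num) (by norm_num) (by norm_num) (by norm_num) (by norm_num) (by norm_num) (by norm_num) (by norm_num) (by norm_num) (by norm_num) (by norm_num) (by norm_num) (by norm_num) (by norm_num) (by norm_num) (by norm_num) (by norm_num) (by norm_num) (by norm_num)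
    (expn 3 0.493 (by norm_num) (by norm_num) (E := 0.030461) (by norm_num) (by norm_num)) (by norm_num) (by norm_num) (by norm_num) (by norm_num) (by norm_num) (by norm_num) (by norm_num) (by norm_num) (by norm_num) H.hq1 (by norm_num) (by norm_num)
    (expn 6 0.5389 (by norm_num) (by norm_num) (E := 0.0014495) (by norm_num) (by norm_num)) (by norm_num) (by norm_num)


theorem tw2s (H : D6 β r t κ s h T) (B : BX6 0.9 1 0.5 0.49723 10 0.1 5.4831 β r κ T) (h1 : 0.45 ≤ s) (h2 : s ≤ 0.58) :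
    ‖Xf β r h (t + β) 2‖ ≤ (0.03781 + 0.00151) * ‖Xf β r h t 1‖ ∧
    r * ‖Xf β r h (t + β) 2‖ ≤ (1.8238 * 5.4831 * 0.03781 + 10 * 0.00151) * ‖Xf β r h t 1‖ := by
  obtain ⟨hs5, hs6⟩ := H.bh (b := 0.0955) B.hb (by norm_num)
  have hr := rgR (a := 1) (τ1 := 1.5184) (τm := 1.7546) H.h1 H.h2 (by linarith : 0.45 ≤ s + β / h) (by linarith : s + β / h ≤ 0.6755) (by norm_num) (by norm_num) (by norm_num)
  have e : s + β / h + ((2 : ℤ) : ℝ) - 1 = s + β / h + 1 := by push_cast; ring
  have e2 := H.shift.ang 2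
  rw [e] at e2
  have ha : 1.5184 ≤ (t + β + (((2 : ℤ) : ℝ) - 1) * h) + κ := by rw [e2]; exact hr.1
  have hb : (t + β + (((2 : ℤ) : ℝ) - 1) * h) + κ ≤ 1.7546 := by rw [e2]; exact hr.2
  have hD := H.dom' (t' := t + β + (((2 : ℤ) : ℝ) - 1) * h) (by linarith) (by linarith)
  exact cellTW (k := 2) (Y := ‖Xf β r h t 1‖) (g := 0.4714 * s ^ 2) 0.3404 0.445 0.4623 0.64163 0.30275 1.1874 1.3621 0.9178 0.8569 1.0553 0.9 1 0.1 0.4206 0.25 0.258 10 0.9316 0.62023 5.4831 0.033376 0.03781 1.09663 0.15858 0.7833 0.9039 3.1623 0.0014495 0.00151 1.8238 1.09662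
    H.hβ H.hκ H.shift.hs H.hT H.hq2 (by norm_num) hD (VR_box6 hD 0.55 0.3404 0.9 0.5 0.49723 1.5184 1.7546 _ _ _ _ _ ha hb (by norm_num) B.hk1 B.hψ B.hψ1 (by norm_num) (by norm_num) (by norm_num) rfl rfl (by norm_num) rfl rfl rfl (by norm_num) (by norm_num)) B.hk1 B.hk2 (by rw [e]; linarith [hr.1]) (by rw [e]; linarith [hr.2])
    B.hR B.hb B.hT (y1w H B (by linarith) (by linarith)) (by positivity) (gA (by norm_num) (by linarith) (by linarith : s ≤ 0.58) (by norm_num))
    (by rw [e]; exact qB (s1 := 0.45) (s2 := 0.58) (by norm_num) (by norm_num) h1 h2 hs5 (by norm_num) (by norm_num) (by norm_num))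
    (y_right_90 hD (by linarith [B.hk1]) H.hk2 (by linarith))
    (by norm_num) (by norm_num) (by norm_num) (by norm_num) (by norm_num) (expn 0 0.4449 (by norm_num) (by norm_num) (E := 0.64163) (by norm_num) (by norm_num)) (expn 1 0.1949 (by norm_num) (by norm_num) (E := 0.30275) (by norm_num) (by norm_num)) (by norm_num) (by norm_num) (by norm_num) (by norm_num) (by norm_num) (by norm_num) (by norm_num) (by norm_num) (by norm_num) (by norm_num) (by norm_num) (by norm_num) (by norm_num) (by norm_num) (by norm_num) (by norm_num) (by norm_num) (by norm_num) (by norm_num) (by norm_num) (by norm_num)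
    (expn 3 0.4007 (by norm_num) (by norm_num) (E := 0.033376) (by norm_num) (by norm_num)) (by norm_num) (by norm_num) (by norm_num) (by norm_num) (by norm_num) (by norm_num) (by norm_num) (by norm_num) (by norm_num) H.hq1 (by norm_num) (by norm_num)
    (expn 6 0.5389 (by norm_num) (by norm_num) (E := 0.0014495) (by norm_num) (by norm_num)) (by norm_num) (by norm_num)


theorem twm1 (H : D6 β r t κ s h T) (B : BX6 0.9 1 0.5 0.49723 10 0.1 5.4831 β r κ T) (h1 : 0.45 ≤ s) (h2 : s ≤ 0.58) :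
    ‖Xf β r h (t) (-1)‖ ≤ (0.00562 + 0.000554) * ‖Xf β r h t 0‖ ∧
    r * ‖Xf β r h (t) (-1)‖ ≤ (1.8238 * 5.4831 * 0.00562 + 10 * 0.000554) * ‖Xf β r h t 0‖ := by
  have hr := rgL (a := (-2)) (b1 := 1.487) (b2 := 1.6232) H.h1 H.h2 h1 h2 (by norm_num) (by norm_num) (by norm_num)
  have e : s + ((-1 : ℤ) : ℝ) - 1 = s + (-2) := by push_cast; ring
  exact cellLW (k := -1) (Y := ‖Xf β r h t 0‖) (g := 0.5683 * (s - 1) ^ 2) 1.07 0.5453 0.9 1 0.5 0.49723 1.487 1.6232 _ _ _ _ _ 2.35145 1.1762 10 0.1 0.4206 0 0.9849 0.8759 0.99929 5.4831 0.004179 0.00562 1.09663 0.17192 0.7365 0.8958 3.1623 0.00013088 0.000554 1.8238 1.09662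
    H.hβ H.hκ H.hs H.hT H.h0 H.hq2 (by norm_num) B.hk1 B.hk2 B.hψ B.hψ1 (by rw [e]; exact hr.1) (by rw [e]; exact hr.2)
    B.hR B.hb B.hT (y0w H B (by linarith) (by linarith)) (by positivity) (gD (by norm_num) (by linarith : 0.45 ≤ s) (by linarith) (by norm_num))
    (by rw [e]; exact qC (s1 := 0.45) (s2 := 0.58) (b := 0) (by norm_num) (by norm_num) h1 h2 (by linarith) (by norm_num) (by norm_num) (by norm_num))
    (by norm_num) (by norm_num) (by norm_num) (by norm_num) rfl rfl (by norm_num) rfl rfl rfl (by norm_num) (by norm_num) (by norm_num) (by norm_num) (by norm_num) (by norm_num) (by norm_num) (by norm_num) (by norm_num) (by norm_num) (by norm_num) (by norm_num) (by norm_num) (by norm_num) (by norm_num) (by norm_num) (by norm_num) (by norm_num)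
    (expn 5 0.4792 (by norm_num) (by norm_num) (E := 0.004179) (by norm_num) (by norm_num)) (by norm_num) (by norm_num) (by norm_num) (by norm_num) (by norm_num) (by norm_num) (by norm_num) (by norm_num) (by norm_num) H.hq1 (by norm_num) (by norm_num)
    (expn 8 0.9579 (by norm_num) (by norm_num) (E := 0.00013088) (by norm_num) (by norm_num)) (by norm_num) (by norm_num)


theorem twm1s (H : D6 β r t κ s h T) (B : BX6 0.9 1 0.5 0.49723 10 0.1 5.4831 β r κ T) (h1 : 0.45 ≤ s) (h2 : s ≤ 0.58) :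
    ‖Xf β r h (t + β) (-1)‖ ≤ (0.01355 + 0.000552) * ‖Xf β r h t 0‖ ∧
    r * ‖Xf β r h (t + β) (-1)‖ ≤ (1.8238 * 5.4831 * 0.01355 + 10 * 0.000552) * ‖Xf β r h t 0‖ := by
  obtain ⟨hs5, hs6⟩ := H.bh (b := 0.0955) B.hb (by norm_num)
  have hr := rgL (a := (-2)) (b1 := 1.387) (b2 := 1.6232) H.h1 H.h2 (by linarith : 0.45 ≤ s + β / h) (by linarith : s + β / h ≤ 0.6755) (by norm_num) (by norm_num) (by norm_num)
  have e : s + β / h + ((-1 : ℤ) : ℝ) - 1 = s + β / h + (-2) := by push_cast; ring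
  exact cellLW (k := -1) (Y := ‖Xf β r h t 0‖) (g := 0.5683 * (s - 1) ^ 2) 1.06 0.5381 0.9 1 0.5 0.49723 1.387 1.6232 _ _ _ _ _ 2.11992 1.2071 10 0.1 0.4206 0 0.9814 0.8759 0.84374 5.4831 0.0098294 0.01355 1.09663 0.17192 0.7365 0.8958 3.1623 0.00013088 0.000552 1.8238 1.09662
    H.hβ H.hκ H.shift.hs H.hT H.h0 H.hq2 (by norm_num) B.hk1 B.hk2 B.hψ B.hψ1 (by rw [e]; exact hr.1) (by rw [e]; exact hr.2)
    B.hR B.hb B.hT (y0w H B (by linarith) (by linarith)) (by positivity) (gD (by norm_num) (by linarith : 0.45 ≤ s) (by linarith) (by norm_num))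
    (by rw [e]; exact qC (s1 := 0.45) (s2 := 0.58) (b := 0.0955) (by norm_num) (by norm_num) h1 h2 hs6 (by norm_num) (by norm_num) (by norm_num))
    (by norm_num) (by norm_num) (by norm_num) (by norm_num) rfl rfl (by norm_num) rfl rfl rfl (by norm_num) (by norm_num) (by norm_num) (by norm_num) (by norm_num) (by norm_num) (by norm_num) (by norm_num) (by norm_num) (by norm_num) (by norm_num) (by norm_num) (by norm_num) (by norm_num) (by norm_num) (by norm_num) (by norm_num) (by norm_num)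
    (expn 4 0.6263 (by norm_num) (by norm_num) (E := 0.0098294) (by norm_num) (by norm_num)) (by norm_num) (by norm_num) (by norm_num) (by norm_num) (by norm_num) (by norm_num) (by norm_num) (by norm_num) (by norm_num) H.hq1 (by norm_num) (by norm_num)
    (expn 8 0.9579 (by norm_num) (by norm_num) (E := 0.00013088) (by norm_num) (by norm_num)) (by norm_num) (by norm_num)


theorem twm2 (H : D6 β r t κ s h T) (B : BX6 0.9 1 0.5 0.49723 10 0.1 5.4831 β r κ T) (h1 : 0.45 ≤ s) (h2 : s ≤ 0.58) :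
    ‖Xf β r h (t) (-2)‖ ≤ (0.00002 + 0.000508) * ‖Xf β r h t 0‖ ∧
    r * ‖Xf β r h (t) (-2)‖ ≤ (1.8238 * 5.4831 * 0.00002 + 10 * 0.000508) * ‖Xf β r h t 0‖ := by
  have hr := rgL (a := (-3)) (b1 := 2.5342) (b2 := 2.6704) H.h1 H.h2 h1 h2 (by norm_num) (by norm_num) (by norm_num)
  have e : s + ((-2 : ℤ) : ℝ) - 1 = s + (-3) := by push_cast; ring
  exact cellLW (k := -2) (Y := ‖Xf β r h t 0‖) (g := 0.5683 * (s - 1) ^ 2) 0.47 0.3699 0.9 1 0.5 0.49723 2.5342 2.6704 _ _ _ _ _ 1.94382 1.2335 10 0.1 0.4206 0 0.9038 0.8759 2.06603 5.4831 0.000012034 0.00002 1.09663 0.17192 0.7365 0.8958 3.1623 0.00013088 0.000508 1.8238 1.09662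
    H.hβ H.hκ H.hs H.hT H.h0 H.hq2 (by norm_num) B.hk1 B.hk2 B.hψ B.hψ1 (by rw [e]; exact hr.1) (by rw [e]; exact hr.2)
    B.hR B.hb B.hT (y0w H B (by linarith) (by linarith)) (by positivity) (gD (by norm_num) (by linarith : 0.45 ≤ s) (by linarith) (by norm_num))
    (by rw [e]; exact qC (s1 := 0.45) (s2 := 0.58) (b := 0) (by norm_num) (by norm_num) h1 h2 (by linarith) (by norm_num) (by norm_num) (by norm_num))
    (by norm_num) (by norm_num) (by norm_num) (by norm_num) rfl rfl (by norm_num) rfl rfl rfl (by norm_num) (by norm_num) (by norm_num) (by norm_num) (by norm_num) (by norm_num) (by norm_num) (by norm_num) (by norm_num) (by norm_num) (by norm_num) (by norm_num) (by norm_num) (by norm_num) (by norm_num) (by norm_num) (by norm_num) (by norm_num)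
    (expn 11 0.3282 (by norm_num) (by norm_num) (E := 0.000012034) (by norm_num) (by norm_num)) (by norm_num) (by norm_num) (by norm_num) (by norm_num) (by norm_num) (by norm_num) (by norm_num) (by norm_num) (by norm_num) H.hq1 (by norm_num) (by norm_num)
    (expn 8 0.9579 (by norm_num) (by norm_num) (E := 0.00013088) (by norm_num) (by norm_num)) (by norm_num) (by norm_num)


theorem twm2s (H : D6 β r t κ s h T) (B : BX6 0.9 1 0.5 0.49723 10 0.1 5.4831 β r κ T) (h1 : 0.45 ≤ s) (h2 : s ≤ 0.58) :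
    ‖Xf β r h (t + β) (-2)‖ ≤ (0.00002 + 0.000524) * ‖Xf β r h t 0‖ ∧
    r * ‖Xf β r h (t + β) (-2)‖ ≤ (1.8238 * 5.4831 * 0.00002 + 10 * 0.000524) * ‖Xf β r h t 0‖ := by
  obtain ⟨hs5, hs6⟩ := H.bh (b := 0.0955) B.hb (by norm_num)
  have hr := rgL (a := (-3)) (b1 := 2.4342) (b2 := 2.6704) H.h1 H.h2 (by linarith : 0.45 ≤ s + β / h) (by linarith : s + β / h ≤ 0.6755) (by norm_num) (by norm_num) (by norm_num)
  have e : s + β / h + ((-2 : ℤ) : ℝ) - 1 = s + β / h + (-3) := by push_cast; ring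
  exact cellLW (k := -2) (Y := ‖Xf β r h t 0‖) (g := 0.5683 * (s - 1) ^ 2) 0.52 0.3966 0.9 1 0.5 0.49723 2.4342 2.6704 _ _ _ _ _ 1.98927 1.2264 10 0.1 0.4206 0 0.9319 0.8759 2.0427 5.4831 0.000013671 0.00002 1.09663 0.17192 0.7365 0.8958 3.1623 0.00013088 0.000524 1.8238 1.09662
    H.hβ H.hκ H.shift.hs H.hT H.h0 H.hq2 (by norm_num) B.hk1 B.hk2 B.hψ B.hψ1 (by rw [e]; exact hr.1) (by rw [e]; exact hr.2)
    B.hR B.hb B.hT (y0w H B (by linarith) (by linarith)) (by positivity) (gD (by norm_num) (by linarith : 0.45 ≤ s) (by linarith) (by norm_num))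
    (by rw [e]; exact qC (s1 := 0.45) (s2 := 0.58) (b := 0.0955) (by norm_num) (by norm_num) h1 h2 hs6 (by norm_num) (by norm_num) (by norm_num))
    (by norm_num) (by norm_num) (by norm_num) (by norm_num) rfl rfl (by norm_num) rfl rfl rfl (by norm_num) (by norm_num) (by norm_num) (by norm_num) (by norm_num) (by norm_num) (by norm_num) (by norm_num) (by norm_num) (by norm_num) (by norm_num) (by norm_num) (by norm_num) (by norm_num) (by norm_num) (by norm_num) (by norm_num) (by norm_num)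
    (expn 11 0.2003 (by norm_num) (by norm_num) (E := 0.000013671) (by norm_num) (by norm_num)) (by norm_num) (by norm_num) (by norm_num) (by norm_num) (by norm_num) (by norm_num) (by norm_num) (by norm_num) (by norm_num) H.hq1 (by norm_num) (by norm_num)
    (expn 8 0.9579 (by norm_num) (by norm_num) (E := 0.00013088) (by norm_num) (by norm_num)) (by norm_num) (by norm_num)


theorem tw3 (H : D6 β r t κ s h T) (B : BX6 0.9 1 0.5 0.49723 10 0.1 5.4831 β r κ T) (h1 : 0.45 ≤ s) (h2 : s ≤ 0.58) :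
    ‖Xf β r h (t) 3‖ ≤ 0.0016 * ‖Xf β r h t 1‖ ∧
    r * ‖Xf β r h (t) 3‖ ≤ (10 * 0.0016) * ‖Xf β r h t 1‖ := by
  have hr := rgR (a := 2) (τ1 := 2.5656) (τm := 2.7018) H.h1 H.h2 h1 h2 (by norm_num) (by norm_num) (by norm_num)
  have e : (s + ((3 : ℤ) : ℝ) - 1) * h + 2 * Real.pi * ((0 : ℤ) : ℝ) = (s + 2) * h := by push_cast; ring
  exact cellUW (k := 3) (Y := ‖Xf β r h t 1‖) (g := 0.4714 * s ^ 2) 0 0.9 1 1.5655 2.7018 0.05 10 0.1 0.4206 0.05 2.0195 0.9316 1.09663 0.15858 0.7833 0.9039 3.1623 0.00019616 0.0016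
    H.hβ H.hκ H.hs H.hT H.h0 H.hq2 (by norm_num) B.hk1 B.hk2 (by rw [e]; linarith [hr.1, B.hk2]) (by rw [e]; exact hr.2)
    B.hR B.hb (y1w H B (by linarith) (by linarith)) (by positivity) (gA (by norm_num) (by linarith) (by linarith : s ≤ 0.58) (by norm_num))
    (by norm_num) (by norm_num) (by norm_num) (by norm_num) (by norm_num) (by norm_num) (by norm_num) (by norm_num) (by norm_num) (by norm_num) (by norm_num) (by norm_num) (by norm_num) (by norm_num) (by norm_num) (by norm_num) (by norm_num) (by norm_num) (by norm_num) 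
    (expn 8 0.5389 (by norm_num) (by norm_num) (E := 0.00019616) (by norm_num) (by norm_num)) (by norm_num) (by norm_num)


theorem tw3s (H : D6 β r t κ s h T) (B : BX6 0.9 1 0.5 0.49723 10 0.1 5.4831 β r κ T) (h1 : 0.45 ≤ s) (h2 : s ≤ 0.58) :
    ‖Xf β r h (t + β) 3‖ ≤ 0.0016 * ‖Xf β r h t 1‖ ∧
    r * ‖Xf β r h (t + β) 3‖ ≤ (10 * 0.0016) * ‖Xf β r h t 1‖ := by
  obtain ⟨hs5, hs6⟩ := H.bh (b := 0.0955) B.hb (by norm_num)
  have hr := rgR (a := 2) (τ1 := 2.5656) (τm := 2.8018) H.h1 H.h2 (by linarith : 0.45 ≤ s + β / h) (by linarith : s + β / h ≤ 0.6755) (by norm_num) (by norm_num) (by norm_num)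
  have e : (s + β / h + ((3 : ℤ) : ℝ) - 1) * h + 2 * Real.pi * ((0 : ℤ) : ℝ) = (s + β / h + 2) * h := by push_cast; ring
  exact cellUW (k := 3) (Y := ‖Xf β r h t 1‖) (g := 0.4714 * s ^ 2) 0 0.9 1 1.5655 2.8018 0.05 10 0.1 0.4206 0.05 2.0195 0.9316 1.09663 0.15858 0.7833 0.9039 3.1623 0.00019616 0.0016
    H.hβ H.hκ H.shift.hs H.hT H.h0 H.hq2 (by norm_num) B.hk1 B.hk2 (by rw [e]; linarith [hr.1, B.hk2]) (by rw [e]; exact hr.2)
    B.hR B.hb (y1w H B (by linarith) (by linarith)) (by positivity) (gA (by norm_num) (by linarith) (by linarith : s ≤ 0.58) (by norm_num))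
    (by norm_num) (by norm_num) (by norm_num) (by norm_num) (by norm_num) (by norm_num) (by norm_num) (by norm_num) (by norm_num) (by norm_num) (by norm_num) (by norm_num) (by norm_num) (by norm_num) (by norm_num) (by norm_num) (by norm_num) (by norm_num) (by norm_num) 
    (expn 8 0.5389 (by norm_num) (by norm_num) (E := 0.00019616) (by norm_num) (by norm_num)) (by norm_num) (by norm_num)


theorem win (H : D6 β r t κ s h T) (B : BX6 0.9 1 0.5 0.49723 10 0.1 5.4831 β r κ T) (h1 : 0.45 ≤ s) (h2 : s ≤ 0.58) :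
    Win6 β r h t 3.299 0.03602 0.006174 0.0016 0.000528 1.2626 0.3309 0.0793 0.0298 := by
  have hk1 := B.hk1
  have hk2 := B.hk2
  have hk0 := H.k0
  have hr := rgR (a := 0) (τ1 := 0.4712) (τm := 0.6075) H.h1 H.h2 h1 h2 (by norm_num) (by norm_num) (by norm_num)
  rw [add_zero, ← H.hs] at hr
  obtain ⟨ha, hb⟩ := hr
  have hr0 := rgL (a := (-1)) (b1 := 0.4398) (b2 := 0.576) H.h1 H.h2 h1 h2 (by norm_num) (by norm_num) (by norm_num)
  have e0 : (s + -1) * h = (t - h) + κ := by rw [H.a0]; ring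
  rw [e0] at hr0
  obtain ⟨ha0, hb0⟩ := hr0
  have hD := H.dom' (t' := t) (by linarith) (by linarith)
  have hy1 : 0.201 ≤ sy κ t := syR_ge hD 0.9 1 0.4712 0.201 1.22262 1.22263 0.24574 0.27306 hk1 hk2 (by linarith) (by norm_num) (by norm_num)
    (expn_ge (by norm_num) (by norm_num)) (expn_le (by norm_num) (by norm_num) (by norm_num)) (by norm_num)
    (by norm_num) (by norm_num) (by norm_num) (by norm_num) (by norm_num) (by norm_num)
  have hy2 : sy κ t ≤ 0.257 := syR_le hD 0.9 1 0.6075 0.257 1.29304 0.323 0.33231 0.36924 hk1 hk2 (by linarith) (by norm_num) (by norm_num)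
    (expn_ge (by norm_num) (by norm_num)) (by norm_num) (by norm_num) (Or.inr ((mul_le_mul_of_nonneg_left (expn_le (E := 1.29305) (by norm_num) (by norm_num) (by norm_num)) (by norm_num)).trans (by norm_num))) (by norm_num) (by norm_num) (by norm_num)
  have hy10 := hy1
  have hy20 := hy2
  clear hy1 hy2
  have hD1 := hD
  clear hD
  have hD := H.dom' (t' := t - h) (by linarith) (by linarith)
  have hy1 : -0.332 ≤ sy κ (t - h) := syL_ge hD 0.9 1 0.576 0.332 0.71748 0.71749 0.2492 0.2382 0.26468 hk1 hk2 (by linarith) (by norm_num) (by norm_num) (by norm_num)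
    (expm_ge (by norm_num) (by norm_num) (by norm_num) (by norm_num)) (expm_le (by norm_num) (by norm_num) (by norm_num)) (by norm_num)
    (by norm_num) (by norm_num) (by norm_num) (by norm_num) (by norm_num) (by norm_num)
  have hy2 : sy κ (t - h) ≤ -0.24 := syL_le hD 0.9 1 0.4398 0.24 0.78662 0.78663 0.18878 0.20977 hk1 hk2 (by linarith) (by norm_num) (by norm_num) (by norm_num)
    (expm_ge (by norm_num) (by norm_num) (by norm_num) (by norm_num)) (expm_le (by norm_num) (by norm_num) (by norm_num)) (by norm_num)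
    (by norm_num) (by norm_num) (by norm_num) (by norm_num) (by norm_num) (by norm_num)
  have hJ1 := JD6c_3 hD1 H.hβ (by linarith) (by linarith) (by linarith) (by linarith) H.ble H.bc'
  have hJ0 := JD6b_1 hD H.hβ (by linarith) (by linarith) (by linarith) (by linarith) H.ble H.bc'
  have hρ1 := rho_le hD1 (k2 := 1) (yl := 0.201) (E := 0.81792) (ρ := 0.5684) hk2 hy10 (expm_le (by norm_num) (by norm_num) (by norm_num)) (by norm_num) (by norm_num) (by norm_num) (by norm_num)
  have hρ0 := rho_le hD (k2 := 1) (yl := (-0.332)) (E := 1.39376) (ρ := 0.9234) hk2 hy1 (by rw [neg_neg]; exact expn_le (by norm_num) (by norm_num) (by norm_num)) (by norm_num) (by norm_num) (by norm_num) (by norm_num)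
  have he1 : ‖Ld β r h t 1 - (sg κ t / β + Gc6 κ t)‖ ≤ 0.3748 := (Ld_near (k := 1) (δ := 0.15) (ε := 0.09) (ρ := 0.5684) H.hβ H.hκ (by push_cast; ring) hD1 (by norm_num) (by norm_num) (by norm_num) (by linarith) hJ1 hρ1).trans (by norm_num)
  have he0 : ‖Ld β r h t 0 - (sg κ (t - h) / β + Gc6 κ (t - h))‖ ≤ 1.0022 := (Ld_near (k := 0) (δ := 0.15) (ε := 0.14) (ρ := 0.9234) H.hβ H.hκ (by push_cast; ring) hD (by norm_num) (by norm_num) (by norm_num) (by linarith) hJ0 hρ0).trans (by norm_num)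
  have hg1 := gam_le hD1 (yl := 0.201) (γ := 0.2112) hy10 (by norm_num) (by norm_num) (by norm_num)
  have hg0 := gam_le hD (yl := (-0.332)) (γ := 0.4313) hy1 (by norm_num) (by norm_num) (by norm_num)
  have hDl1 : 1.874 ≤ sD κ t := by
    refine le_trans ?_ (D_lo6 hD1 0.9 1 0.201 0.257 0.201 0.81791 1.0354 hk1 hk2 (by norm_num) hy10 hy20 (expm_ge (by norm_num) (by norm_num) (by norm_num) (by norm_num)) (by norm_num) (by norm_num) (by norm_num) (by norm_num) (by norm_num) (by norm_num))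
    nlinarith [pow_le_pow_left₀ (by norm_num) hk1 2]
  have hw1 : (κ * Real.exp (-sy κ t)) ^ 2 ≤ 1 := by
    have h4 : Real.exp (-sy κ t) ≤ 0.81792 := (Real.exp_le_exp.2 (by linarith : -sy κ t ≤ -0.201)).trans (expm_le (by norm_num) (by norm_num) (by norm_num))
    have h3 : κ * Real.exp (-sy κ t) ≤ 1 * 0.81792 := mul_le_mul hk2 h4 (Real.exp_pos _).le (by norm_num)
    refine (pow_le_pow_left₀ (by positivity) h3 2).trans (by norm_num)
  have hG1 : -(0 : ℝ) ≤ (Gc6 κ t).im := by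
    refine le_trans ?_ (Gim_ge hD1 hg1 hw1 (by norm_num) (by norm_num : (0:ℝ) < 1.874) hDl1)
    norm_num
  have hDl0 : 1.8288 ≤ sD κ (t - h) := by
    refine le_trans ?_ (D_lo6 hD 0.9 1 (-0.332) (-0.24) (-0.24) 1.27124 1.0104 hk1 hk2 (by norm_num) hy1 hy2 (by rw [neg_neg]; exact expn_ge (by norm_num) (by norm_num)) (by norm_num) (by norm_num) (by norm_num) (by norm_num) (by norm_num) (by norm_num))
    nlinarith [pow_le_pow_left₀ (by norm_num) hk1 2]
  have hw0 : 1 ≤ (κ * Real.exp (-sy κ (t - h))) ^ 2 := by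
    have h4 : 1.27124 ≤ Real.exp (-sy κ (t - h)) := le_trans (by rw [neg_neg]; exact expn_ge (by norm_num) (by norm_num)) (Real.exp_le_exp.2 (by linarith : -(-0.24) ≤ -sy κ (t - h)))
    have h3 : 0.9 * 1.27124 ≤ κ * Real.exp (-sy κ (t - h)) := mul_le_mul hk1 h4 (by norm_num) hk0.le
    refine le_trans (by norm_num) (pow_le_pow_left₀ (by norm_num) h3 2)
  have hG0 : (Gc6 κ (t - h)).im ≤ 0.0001 := by
    refine (Gim_le hD hg0 hw0 (by norm_num) (by norm_num : (0:ℝ) < 1.8288) hDl0).trans ?_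
    norm_num
  have hsl := slope6 H hD hD1 (c1 := 0.816) (c0 := 1) (g0 := 0.0001) (g1 := 0) (m := 3.299) (T0 := 5.4831) (μ := 0.8932) he0 he1 (pR63_090 hD1 (by linarith) H.hk2 (by linarith) (by linarith))
    (by rw [one_mul]; exact pL_one hD (by linarith) H.hk2 (by linarith) (by linarith)) hG1 hG0 (by linarith) (by norm_num) B.hT (by norm_num) (by norm_num) (by norm_num)
  have hL1 := Ln6 H hD1 (E := 0.81792) he1 hg1 hy10 (expm_le (by norm_num) (by norm_num) (by norm_num))
  have hL0 := Ln6 H hD (E := 1.39376) he0 hg0 hy1 (by rw [neg_neg]; exact expn_le (by norm_num) (by norm_num) (by norm_num))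
  have hds := dist6 H hD hD1 h1 h2 (dy := 0.589) (k1 := 0.9) (lam := 1.335) (by linarith) hk1 (by norm_num) (by norm_num) (by norm_num)
  have hA := Ldd6 H he0 he1 hg0 hg1 hds
  obtain ⟨l2, l3, lm1, lm2⟩ := Lam6 hA hL0 hL1
  have q2 := tw2 H B h1 h2
  have q2s := tw2s H B h1 h2
  have qm1 := twm1 H B h1 h2
  have qm1s := twm1s H B h1 h2
  have qm2 := twm2 H B h1 h2
  have qm2s := twm2s H B h1 h2
  have q3 := tw3 H B h1 h2
  have q3s := tw3s H B h1 h2
  have hX1 := norm_nonneg (Xf β r h t 1)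
  have hX0 := norm_nonneg (Xf β r h t 0)
  have hYp := lt_of_lt_of_le (mul_pos (eN_pos r κ) (by positivity)) (y0w H B h1 h2)
  refine ⟨norm_pos_iff.1 hYp, q2.1.trans (mul_le_mul_of_nonneg_right (by norm_num) hX1), q3.1.trans (mul_le_mul_of_nonneg_right (by norm_num) hX1),
    qm1.1.trans (mul_le_mul_of_nonneg_right (by norm_num) hX0), qm2.1.trans (mul_le_mul_of_nonneg_right (by norm_num) hX0),
    wsum6 q2s.2 q2.1 q2.2 (lam := 2.15292) (c := 2.6055) (l2.trans (le_of_eq (by ring))) (norm_nonneg _) (by norm_num) (by norm_num) hX1 (by norm_num),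
    wsum6 q3s.2 q3.1 q3.2 (lam := 3.48792) (c := 4.625) (l3.trans (le_of_eq (by ring))) (norm_nonneg _) (by norm_num) (by norm_num) hX1 (by norm_num),
    wsum6 qm1s.2 qm1.1 qm1.2 (lam := 2.72876) (c := 3.453) (lm1.trans (le_of_eq (by ring))) (norm_nonneg _) (by norm_num) (by norm_num) hX0 (by norm_num),
    wsum6 qm2s.2 qm2.1 qm2.2 (lam := 4.06376) (c := 5.4725) (lm2.trans (le_of_eq (by ring))) (norm_nonneg _) (by norm_num) (by norm_num) hX0 (by norm_num), hsl⟩


/-- box 0.9 ≤ κ ≤ 1 -/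
theorem box {p : ℤ} (hp : IsCoprime (6 : ℤ) p) {β r κ : ℝ} (hβ : 0 < β) (hr : 10 ≤ r) (hκ : κ = β * r)
    (hc : 4.9619 * (1 + κ ^ 2) ≤ r) (hk1 : 0.9 ≤ κ) (hk2 : κ ≤ 1) : Circ (2 * Real.pi * p / 6 + β) r := by
  refine circ6 hp hβ hr hκ hc (by linarith) (by linarith) (slo := 0.45) (shi := 0.58) (m := 3.299) (E2 := 0.03602) (Em1 := 0.006174) (E3 := 0.0016)
    (Em2 := 0.000528) (W2 := 1.2626) (Wm1 := 0.3309) (W3 := 0.0793) (Wm2 := 0.0298) (a := 1.05)
    (by norm_num) (by norm_num) (by norm_num) (by norm_num) (by norm_num) (by norm_num) (by norm_num) (by norm_num) (by norm_num)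
    (by norm_num) (by norm_num) (by norm_num)
    (fun t s h T H h1 h2 => win H (mkB H hk1 hk2) h1 h2) ?_ ?_
  · intro t s h T H h1 h2
    have B := mkB H hk1 hk2
    rcases le_total s 0.25 with g0 | f0
    · exact outL0 H B h1 g0
    rcases le_total s 0.35 with g1 | f1
    · exact outL1 H B f0 g1
    rcases le_total s 0.43 with g2 | f2
    · exact outL2 H B f1 g2
    exact outL3 H B f2 h2
  · intro t s h T H h1 h2
    have B := mkB H hk1 hk2
    rcases le_total s 0.6 with g0 | f0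
    · exact outR0 H B h1 g0
    rcases le_total s 0.65 with g1 | f1
    · exact outR1 H B f0 g1
    rcases le_total s 0.75 with g2 | f2
    · exact outR2 H B f1 g2
    exact outR3 H B f2 h2

end Sok.B6K4
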