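import Pool.Agent.Lib.MP_816dec_an.JBG2

/-!
MP_816dec_an (A3, row R1): discs of radius .15 around the saddle of the copy 0, b = 6.
-/

set_option autoImplicit false
set_option maxHeartbeats 4000000

open Complex Set

namespace Sok

private theorem JD6b_p2_c0_b0_0 {β x y : ℝ} (hβ : 0 < β) (hN : β * 9.899 ≤ 1) (hx1 : 1.0719 ≤ x) (hx2 : x ≤ 1.0819)
    (hy1 : -0.472 ≤ y) (hy2 : y ≤ -0.112) : ‖HH β (x + y * I) - 1‖ ≤ 0.14 := by
  refine le_epsJ (C := 1.3613) (N0 := 9.899) (J_boxp 1.0719 1.0819 0.472 0 (-0.112) 1.1296 1.1804 1.3997 0.9855 0.472 3.1463 9.899 1.045 4.477 1.615 0.5683 0.5647 0.368 0.6301 1.9705 0.6178 1.9841 2.4314 3.6472 0.003741 0.02622 0.001956 0.0000003101 0.00221 0.0000003101 0.0000003101 0.0000003101 1.3613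
    hβ hN hx1 hx2 hy1 hy2 (by norm_num) (by norm_num) (by linarith) (by norm_num) (by norm_num) (by norm_num) (by norm_num) (by norm_num) (by norm_num) (by norm_num) (by norm_num) (by norm_num) (by norm_num) (by norm_num) (by norm_num) (by norm_num) (by norm_num) (by norm_num) (by norm_num) (by norm_num) (by norm_num) (by norm_num) (by norm_num) (by norm_num)
    (cube_sqrt_geJ (s := 0.8072) (by norm_num) (by norm_num) (by norm_num) (by norm_num))
    (cube_sqrt_geJ (s := 0.9338) (by norm_num) (by norm_num) (by norm_num) (by norm_num))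
    (by norm_num) (by norm_num) (by norm_num) (by norm_num) (by norm_num) (by norm_num) (by norm_num) (by norm_num) (by norm_num) (by norm_num) (by norm_num) (by norm_num) (by norm_num) (by norm_num) (by norm_num) (by norm_num) (by norm_num) (by norm_num)
    (exp_neg_leJ (r := 0.589) 5 (by norm_num) (by norm_num) (by norm_num) (by norm_num))
    (exp_neg_leJ (r := 0.642) 3 (by norm_num) (by norm_num) (by norm_num) (by norm_num))
    (exp_neg_leJ (r := 0.237) 6 (by norm_num) (by norm_num) (by norm_num) (by norm_num))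
    (exp_neg_leJ (r := 0.99) 14 (by norm_num) (by norm_num) (by norm_num) (by norm_num))
    (exp_neg_leJ (r := 0.115) 6 (by norm_num) (by norm_num) (by norm_num) (by norm_num))
    (exp_neg_leJ (r := 0.99) 14 (by norm_num) (by norm_num) (by norm_num) (by norm_num))
    (exp_neg_leJ (r := 0.99) 14 (by norm_num) (by norm_num) (by norm_num) (by norm_num))
    (exp_neg_leJ (r := 0.99) 14 (by norm_num) (by norm_num) (by norm_num) (by norm_num))
    (by norm_num)) (by norm_num) hN hβ.le (by norm_num)

private theorem JD6b_p2_c0_b0_1 {β x y : ℝ} (hβ : 0 < β) (hN : β * 9.899 ≤ 1) (hx1 : 1.0819 ≤ x) (hx2 : x ≤ 1.1019)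
    (hy1 : -0.472 ≤ y) (hy2 : y ≤ -0.112) : ‖HH β (x + y * I) - 1‖ ≤ 0.14 := by
  refine le_epsJ (C := 1.3851) (N0 := 9.899) (J_boxp 1.0819 1.1019 0.472 0 (-0.112) 1.1367 1.1988 1.4152 0.9817 0.4746 3.1463 9.899 1.0547 4.556 1.623 0.5606 0.5683 0.3685 0.6335 1.9594 0.6226 1.998 2.4514 3.6172 0.003609 0.02609 0.001891 0.0000003101 0.002106 0.0000003101 0.0000003101 0.0000003101 1.3851
    hβ hN hx1 hx2 hy1 hy2 (by norm_num) (by norm_num) (by linarith) (by norm_num) (by norm_num) (by norm_num) (by norm_num) (by norm_num) (by norm_num) (by norm_num) (by norm_num) (by norm_num) (by norm_num) (by norm_num) (by norm_num) (by norm_num) (by norm_num) (by norm_num) (by norm_num) (by norm_num) (by norm_num) (by norm_num) (by norm_num) (by norm_num)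
    (cube_sqrt_geJ (s := 0.8052) (by norm_num) (by norm_num) (by norm_num) (by norm_num))
    (cube_sqrt_geJ (s := 0.9332) (by norm_num) (by norm_num) (by norm_num) (by norm_num))
    (by norm_num) (by norm_num) (by norm_num) (by norm_num) (by norm_num) (by norm_num) (by norm_num) (by norm_num) (by norm_num) (by norm_num) (by norm_num) (by norm_num) (by norm_num) (by norm_num) (by norm_num) (by norm_num) (by norm_num) (by norm_num)
    (exp_neg_leJ (r := 0.625) 5 (by norm_num) (by norm_num) (by norm_num) (by norm_num))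
    (exp_neg_leJ (r := 0.647) 3 (by norm_num) (by norm_num) (by norm_num) (by norm_num))
    (exp_neg_leJ (r := 0.271) 6 (by norm_num) (by norm_num) (by norm_num) (by norm_num))
    (exp_neg_leJ (r := 0.99) 14 (by norm_num) (by norm_num) (by norm_num) (by norm_num))
    (exp_neg_leJ (r := 0.163) 6 (by norm_num) (by norm_num) (by norm_num) (by norm_num))
    (exp_neg_leJ (r := 0.99) 14 (by norm_num) (by norm_num) (by norm_num) (by norm_num))
    (exp_neg_leJ (r := 0.99) 14 (by norm_num) (by norm_num) (by norm_num) (by norm_num))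
    (exp_neg_leJ (r := 0.99) 14 (by norm_num) (by norm_num) (by norm_num) (by norm_num))
    (by norm_num)) (by norm_num) hN hβ.le (by norm_num)

private theorem JD6b_p2_c0_b0_2 {β x y : ℝ} (hβ : 0 < β) (hN : β * 9.899 ≤ 1) (hx1 : 1.1019 ≤ x) (hx2 : x ≤ 1.1219)
    (hy1 : -0.472 ≤ y) (hy2 : y ≤ -0.112) : ‖HH β (x + y * I) - 1‖ ≤ 0.14 := by
  refine le_epsJ (C := 1.3681) (N0 := 9.899) (J_boxp 1.1019 1.1219 0.472 0 (-0.112) 1.1508 1.2172 1.4309 0.969 0.4773 3.1463 9.899 1.0577 4.58 1.625 0.5529 0.5753 0.3725 0.6404 1.9483 0.6323 2.0257 2.4914 3.6071 0.003369 0.02507 0.001767 0.0000003101 0.001914 0.0000003101 0.0000003101 0.0000003101 1.3681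
    hβ hN hx1 hx2 hy1 hy2 (by norm_num) (by norm_num) (by linarith) (by norm_num) (by norm_num) (by norm_num) (by norm_num) (by norm_num) (by norm_num) (by norm_num) (by norm_num) (by norm_num) (by norm_num) (by norm_num) (by norm_num) (by norm_num) (by norm_num) (by norm_num) (by norm_num) (by norm_num) (by norm_num) (by norm_num) (by norm_num) (by norm_num)
    (cube_sqrt_geJ (s := 0.8046) (by norm_num) (by norm_num) (by norm_num) (by norm_num))
    (cube_sqrt_geJ (s := 0.933) (by norm_num) (by norm_num) (by norm_num) (by norm_num))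
    (by norm_num) (by norm_num) (by norm_num) (by norm_num) (by norm_num) (by norm_num) (by norm_num) (by norm_num) (by norm_num) (by norm_num) (by norm_num) (by norm_num) (by norm_num) (by norm_num) (by norm_num) (by norm_num) (by norm_num) (by norm_num)
    (exp_neg_leJ (r := 0.694) 5 (by norm_num) (by norm_num) (by norm_num) (by norm_num))
    (exp_neg_leJ (r := 0.687) 3 (by norm_num) (by norm_num) (by norm_num) (by norm_num))
    (exp_neg_leJ (r := 0.339) 6 (by norm_num) (by norm_num) (by norm_num) (by norm_num))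
    (exp_neg_leJ (r := 0.99) 14 (by norm_num) (by norm_num) (by norm_num) (by norm_num))
    (exp_neg_leJ (r := 0.259) 6 (by norm_num) (by norm_num) (by norm_num) (by norm_num))
    (exp_neg_leJ (r := 0.99) 14 (by norm_num) (by norm_num) (by norm_num) (by norm_num))
    (exp_neg_leJ (r := 0.99) 14 (by norm_num) (by norm_num) (by norm_num) (by norm_num))
    (exp_neg_leJ (r := 0.99) 14 (by norm_num) (by norm_num) (by norm_num) (by norm_num))
    (by norm_num)) (by norm_num) hN hβ.le (by norm_num)

private theorem JD6b_p2_c0_b0_3 {β x y : ℝ} (hβ : 0 < β) (hN : β * 9.899 ≤ 1) (hx1 : 1.1219 ≤ x) (hx2 : x ≤ 1.1519)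
    (hy1 : -0.472 ≤ y) (hy2 : y ≤ -0.112) : ‖HH β (x + y * I) - 1‖ ≤ 0.14 := by
  refine le_epsJ (C := 1.3846) (N0 := 9.899) (J_boxp 1.1219 1.1519 0.472 0 (-0.112) 1.1648 1.2449 1.4545 0.9594 0.4812 3.1463 9.899 1.0688 4.673 1.634 0.5413 0.5823 0.3749 0.6472 1.9316 0.6421 2.0533 2.5314 3.5718 0.003143 0.02448 0.001652 0.0000003101 0.001737 0.0000003101 0.0000003101 0.0000003101 1.3846
    hβ hN hx1 hx2 hy1 hy2 (by norm_num) (by norm_num) (by linarith) (by norm_num) (by norm_num) (by norm_num) (by norm_num) (by norm_num) (by norm_num) (by norm_num) (by norm_num) (by norm_num) (by norm_num) (by norm_num) (by norm_num) (by norm_num) (by norm_num) (by norm_num) (by norm_num) (by norm_num) (by norm_num) (by norm_num) (by norm_num) (by norm_num)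
    (cube_sqrt_geJ (s := 0.8023) (by norm_num) (by norm_num) (by norm_num) (by norm_num))
    (cube_sqrt_geJ (s := 0.9322) (by norm_num) (by norm_num) (by norm_num) (by norm_num))
    (by norm_num) (by norm_num) (by norm_num) (by norm_num) (by norm_num) (by norm_num) (by norm_num) (by norm_num) (by norm_num) (by norm_num) (by norm_num) (by norm_num) (by norm_num) (by norm_num) (by norm_num) (by norm_num) (by norm_num) (by norm_num)
    (exp_neg_leJ (r := 0.764) 5 (by norm_num) (by norm_num) (by norm_num) (by norm_num))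
    (exp_neg_leJ (r := 0.711) 3 (by norm_num) (by norm_num) (by norm_num) (by norm_num))
    (exp_neg_leJ (r := 0.406) 6 (by norm_num) (by norm_num) (by norm_num) (by norm_num))
    (exp_neg_leJ (r := 0.99) 14 (by norm_num) (by norm_num) (by norm_num) (by norm_num))
    (exp_neg_leJ (r := 0.356) 6 (by norm_num) (by norm_num) (by norm_num) (by norm_num))
    (exp_neg_leJ (r := 0.99) 14 (by norm_num) (by norm_num) (by norm_num) (by norm_num))
    (exp_neg_leJ (r := 0.99) 14 (by norm_num) (by norm_num) (by norm_num) (by norm_num))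
    (exp_neg_leJ (r := 0.99) 14 (by norm_num) (by norm_num) (by norm_num) (by norm_num))
    (by norm_num)) (by norm_num) hN hβ.le (by norm_num)

private theorem JD6b_p2_c0_b0_4 {β x y : ℝ} (hβ : 0 < β) (hN : β * 9.899 ≤ 1) (hx1 : 1.1519 ≤ x) (hx2 : x ≤ 1.1819)
    (hy1 : -0.472 ≤ y) (hy2 : y ≤ -0.112) : ‖HH β (x + y * I) - 1‖ ≤ 0.14 := by
  refine le_epsJ (C := 1.3615) (N0 := 9.899) (J_boxp 1.1519 1.1819 0.472 0 (-0.112) 1.186 1.2727 1.4784 0.9414 0.4851 3.1463 9.899 1.0732 4.71 1.638 0.5298 0.5929 0.3808 0.6575 1.9148 0.6566 2.0949 2.5914 3.5563 0.002832 0.02311 0.001492 0.0000003101 0.001506 0.0000003101 0.0000003101 0.0000003101 1.3615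
    hβ hN hx1 hx2 hy1 hy2 (by norm_num) (by norm_num) (by linarith) (by norm_num) (by norm_num) (by norm_num) (by norm_num) (by norm_num) (by norm_num) (by norm_num) (by norm_num) (by norm_num) (by norm_num) (by norm_num) (by norm_num) (by norm_num) (by norm_num) (by norm_num) (by norm_num) (by norm_num) (by norm_num) (by norm_num) (by norm_num) (by norm_num)
    (cube_sqrt_geJ (s := 0.8014) (by norm_num) (by norm_num) (by norm_num) (by norm_num))
    (cube_sqrt_geJ (s := 0.9319) (by norm_num) (by norm_num) (by norm_num) (by norm_num))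
    (by norm_num) (by norm_num) (by norm_num) (by norm_num) (by norm_num) (by norm_num) (by norm_num) (by norm_num) (by norm_num) (by norm_num) (by norm_num) (by norm_num) (by norm_num) (by norm_num) (by norm_num) (by norm_num) (by norm_num) (by norm_num)
    (exp_neg_leJ (r := 0.869) 5 (by norm_num) (by norm_num) (by norm_num) (by norm_num))
    (exp_neg_leJ (r := 0.769) 3 (by norm_num) (by norm_num) (by norm_num) (by norm_num))
    (exp_neg_leJ (r := 0.508) 6 (by norm_num) (by norm_num) (by norm_num) (by norm_num))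
    (exp_neg_leJ (r := 0.99) 14 (by norm_num) (by norm_num) (by norm_num) (by norm_num))
    (exp_neg_leJ (r := 0.499) 6 (by norm_num) (by norm_num) (by norm_num) (by norm_num))
    (exp_neg_leJ (r := 0.99) 14 (by norm_num) (by norm_num) (by norm_num) (by norm_num))
    (exp_neg_leJ (r := 0.99) 14 (by norm_num) (by norm_num) (by norm_num) (by norm_num))
    (exp_neg_leJ (r := 0.99) 14 (by norm_num) (by norm_num) (by norm_num) (by norm_num))
    (by norm_num)) (by norm_num) hN hβ.le (by norm_num)

private theorem JD6b_p2_c0_b0_5 {β x y : ℝ} (hβ : 0 < β) (hN : β * 9.899 ≤ 1) (hx1 : 1.1819 ≤ x) (hx2 : x ≤ 1.2219)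
    (hy1 : -0.472 ≤ y) (hy2 : y ≤ -0.112) : ‖HH β (x + y * I) - 1‖ ≤ 0.14 := by
  refine le_epsJ (C := 1.3704) (N0 := 9.899) (J_boxp 1.1819 1.2219 0.472 0 (-0.112) 1.2071 1.3099 1.5105 0.9268 0.4904 3.1463 9.899 1.0852 4.814 1.648 0.5144 0.6035 0.3852 0.6678 1.8924 0.6712 2.1364 2.6514 3.5151 0.002553 0.02212 0.001348 0.0000003101 0.001303 0.0000003101 0.0000003101 0.0000003101 1.3704
    hβ hN hx1 hx2 hy1 hy2 (by norm_num) (by norm_num) (by linarith) (by norm_num) (by norm_num) (by norm_num) (by norm_num) (by norm_num) (by norm_num) (by norm_num) (by norm_num) (by norm_num) (by norm_num) (by norm_num) (by norm_num) (by norm_num) (by norm_num) (by norm_num) (by norm_num) (by norm_num) (by norm_num) (by norm_num) (by norm_num) (by norm_num)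
    (cube_sqrt_geJ (s := 0.7989) (by norm_num) (by norm_num) (by norm_num) (by norm_num))
    (cube_sqrt_geJ (s := 0.9311) (by norm_num) (by norm_num) (by norm_num) (by norm_num))
    (by norm_num) (by norm_num) (by norm_num) (by norm_num) (by norm_num) (by norm_num) (by norm_num) (by norm_num) (by norm_num) (by norm_num) (by norm_num) (by norm_num) (by norm_num) (by norm_num) (by norm_num) (by norm_num) (by norm_num) (by norm_num)
    (exp_neg_leJ (r := 0.974) 5 (by norm_num) (by norm_num) (by norm_num) (by norm_num))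
    (exp_neg_leJ (r := 0.813) 3 (by norm_num) (by norm_num) (by norm_num) (by norm_num))
    (exp_neg_leJ (r := 0.61) 6 (by norm_num) (by norm_num) (by norm_num) (by norm_num))
    (exp_neg_leJ (r := 0.99) 14 (by norm_num) (by norm_num) (by norm_num) (by norm_num))
    (exp_neg_leJ (r := 0.644) 6 (by norm_num) (by norm_num) (by norm_num) (by norm_num))
    (exp_neg_leJ (r := 0.99) 14 (by norm_num) (by norm_num) (by norm_num) (by norm_num))
    (exp_neg_leJ (r := 0.99) 14 (by norm_num) (by norm_num) (by norm_num) (by norm_num))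
    (exp_neg_leJ (r := 0.99) 14 (by norm_num) (by norm_num) (by norm_num) (by norm_num))
    (by norm_num)) (by norm_num) hN hβ.le (by norm_num)

private theorem JD6b_p2_c0_b0_6 {β x y : ℝ} (hβ : 0 < β) (hN : β * 9.899 ≤ 1) (hx1 : 1.2219 ≤ x) (hx2 : x ≤ 1.2719)
    (hy1 : -0.472 ≤ y) (hy2 : y ≤ -0.112) : ‖HH β (x + y * I) - 1‖ ≤ 0.14 := by
  refine le_epsJ (C := 1.3727) (N0 := 9.899) (J_boxp 1.2219 1.2719 0.472 0 (-0.112) 1.2353 1.3567 1.5513 0.9072 0.4969 3.1463 9.899 1.0983 4.932 1.658 0.4952 0.6176 0.3915 0.6815 1.8644 0.6906 2.1918 2.7314 3.4679 0.002214 0.0208 0.001177 0.0000003101 0.001077 0.0000003101 0.0000003101 0.0000003101 1.3727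
    hβ hN hx1 hx2 hy1 hy2 (by norm_num) (by norm_num) (by linarith) (by norm_num) (by norm_num) (by norm_num) (by norm_num) (by norm_num) (by norm_num) (by norm_num) (by norm_num) (by norm_num) (by norm_num) (by norm_num) (by norm_num) (by norm_num) (by norm_num) (by norm_num) (by norm_num) (by norm_num) (by norm_num) (by norm_num) (by norm_num) (by norm_num)
    (cube_sqrt_geJ (s := 0.7961) (by norm_num) (by norm_num) (by norm_num) (by norm_num))
    (cube_sqrt_geJ (s := 0.9303) (by norm_num) (by norm_num) (by norm_num) (by norm_num))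
    (by norm_num) (by norm_num) (by norm_num) (by norm_num) (by norm_num) (by norm_num) (by norm_num) (by norm_num) (by norm_num) (by norm_num) (by norm_num) (by norm_num) (by norm_num) (by norm_num) (by norm_num) (by norm_num) (by norm_num) (by norm_num)
    (exp_neg_leJ (r := 0.113) 6 (by norm_num) (by norm_num) (by norm_num) (by norm_num))
    (exp_neg_leJ (r := 0.875) 3 (by norm_num) (by norm_num) (by norm_num) (by norm_num))
    (exp_neg_leJ (r := 0.746) 6 (by norm_num) (by norm_num) (by norm_num) (by norm_num))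
    (exp_neg_leJ (r := 0.99) 14 (by norm_num) (by norm_num) (by norm_num) (by norm_num))
    (exp_neg_leJ (r := 0.836) 6 (by norm_num) (by norm_num) (by norm_num) (by norm_num))
    (exp_neg_leJ (r := 0.99) 14 (by norm_num) (by norm_num) (by norm_num) (by norm_num))
    (exp_neg_leJ (r := 0.99) 14 (by norm_num) (by norm_num) (by norm_num) (by norm_num))
    (exp_neg_leJ (r := 0.99) 14 (by norm_num) (by norm_num) (by norm_num) (by norm_num))
    (by norm_num)) (by norm_num) hN hβ.le (by norm_num)

private theorem JD6b_p2_c0_b0_7 {β x y : ℝ} (hβ : 0 < β) (hN : β * 9.899 ≤ 1) (hx1 : 1.2719 ≤ x) (hx2 : x ≤ 1.3319)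
    (hy1 : -0.472 ≤ y) (hy2 : y ≤ -0.112) : ‖HH β (x + y * I) - 1‖ ≤ 0.14 := by
  refine le_epsJ (C := 1.3694) (N0 := 9.899) (J_boxp 1.2719 1.3319 0.472 0 (-0.112) 1.2705 1.4131 1.6008 0.8835 0.5048 3.1463 9.899 1.1123 5.061 1.67 0.4721 0.6352 0.3997 0.6986 1.8307 0.7149 2.261 2.8314 3.4146 0.001861 0.0192 0.0009953 0.0000003101 0.0008452 0.0000003101 0.0000003101 0.0000003101 1.3694
    hβ hN hx1 hx2 hy1 hy2 (by norm_num) (by norm_num) (by linarith) (by norm_num) (by norm_num) (by norm_num) (by norm_num) (by norm_num) (by norm_num) (by norm_num) (by norm_num) (by norm_num) (by norm_num) (by norm_num) (by norm_num) (by norm_num) (by norm_num) (by norm_num) (by norm_num) (by norm_num) (by norm_num) (by norm_num) (by norm_num) (by norm_num)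
    (cube_sqrt_geJ (s := 0.7932) (by norm_num) (by norm_num) (by norm_num) (by norm_num))
    (cube_sqrt_geJ (s := 0.9294) (by norm_num) (by norm_num) (by norm_num) (by norm_num))
    (by norm_num) (by norm_num) (by norm_num) (by norm_num) (by norm_num) (by norm_num) (by norm_num) (by norm_num) (by norm_num) (by norm_num) (by norm_num) (by norm_num) (by norm_num) (by norm_num) (by norm_num) (by norm_num) (by norm_num) (by norm_num)
    (exp_neg_leJ (r := 0.287) 6 (by norm_num) (by norm_num) (by norm_num) (by norm_num))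
    (exp_neg_leJ (r := 0.956) 3 (by norm_num) (by norm_num) (by norm_num) (by norm_num))
    (exp_neg_leJ (r := 0.915) 6 (by norm_num) (by norm_num) (by norm_num) (by norm_num))
    (exp_neg_leJ (r := 0.99) 14 (by norm_num) (by norm_num) (by norm_num) (by norm_num))
    (exp_neg_leJ (r := 0.076) 7 (by norm_num) (by norm_num) (by norm_num) (by norm_num))
    (exp_neg_leJ (r := 0.99) 14 (by norm_num) (by norm_num) (by norm_num) (by norm_num))
    (exp_neg_leJ (r := 0.99) 14 (by norm_num) (by norm_num) (by norm_num) (by norm_num))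
    (exp_neg_leJ (r := 0.99) 14 (by norm_num) (by norm_num) (by norm_num) (by norm_num))
    (by norm_num)) (by norm_num) hN hβ.le (by norm_num)

private theorem JD6b_p2_c0_b0_8 {β x y : ℝ} (hβ : 0 < β) (hN : β * 9.899 ≤ 1) (hx1 : 1.3319 ≤ x) (hx2 : x ≤ 1.4019)
    (hy1 : -0.472 ≤ y) (hy2 : y ≤ -0.112) : ‖HH β (x + y * I) - 1‖ ≤ 0.14 := by
  refine le_epsJ (C := 1.3603) (N0 := 9.899) (J_boxp 1.3319 1.4019 0.472 0 (-0.112) 1.3127 1.4793 1.6595 0.8566 0.514 3.1463 9.899 1.127 5.201 1.682 0.4452 0.6563 0.4097 0.7191 1.7912 0.7441 2.3441 2.9514 3.3547 0.00151 0.01734 0.0008104 0.0000003101 0.0006331 0.0000003101 0.0000003101 0.0000003101 1.3603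
    hβ hN hx1 hx2 hy1 hy2 (by norm_num) (by norm_num) (by linarith) (by norm_num) (by norm_num) (by norm_num) (by norm_num) (by norm_num) (by norm_num) (by norm_num) (by norm_num) (by norm_num) (by norm_num) (by norm_num) (by norm_num) (by norm_num) (by norm_num) (by norm_num) (by norm_num) (by norm_num) (by norm_num) (by norm_num) (by norm_num) (by norm_num)
    (cube_sqrt_geJ (s := 0.7901) (by norm_num) (by norm_num) (by norm_num) (by norm_num))
    (cube_sqrt_geJ (s := 0.9284) (by norm_num) (by norm_num) (by norm_num) (by norm_num))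
    (by norm_num) (by norm_num) (by norm_num) (by norm_num) (by norm_num) (by norm_num) (by norm_num) (by norm_num) (by norm_num) (by norm_num) (by norm_num) (by norm_num) (by norm_num) (by norm_num) (by norm_num) (by norm_num) (by norm_num) (by norm_num)
    (exp_neg_leJ (r := 0.496) 6 (by norm_num) (by norm_num) (by norm_num) (by norm_num))
    (exp_neg_leJ (r := 0.055) 4 (by norm_num) (by norm_num) (by norm_num) (by norm_num))
    (exp_neg_leJ (r := 0.118) 7 (by norm_num) (by norm_num) (by norm_num) (by norm_num))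
    (exp_neg_leJ (r := 0.99) 14 (by norm_num) (by norm_num) (by norm_num) (by norm_num))
    (exp_neg_leJ (r := 0.365) 7 (by norm_num) (by norm_num) (by norm_num) (by norm_num))
    (exp_neg_leJ (r := 0.99) 14 (by norm_num) (by norm_num) (by norm_num) (by norm_num))
    (exp_neg_leJ (r := 0.99) 14 (by norm_num) (by norm_num) (by norm_num) (by norm_num))
    (exp_neg_leJ (r := 0.99) 14 (by norm_num) (by norm_num) (by norm_num) (by norm_num))
    (by norm_num)) (by norm_num) hN hβ.le (by norm_num)

private theorem JD6b_p2_c0_b0_9 {β x y : ℝ} (hβ : 0 < β) (hN : β * 9.899 ≤ 1) (hx1 : 1.4019 ≤ x) (hx2 : x ≤ 1.4919)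
    (hy1 : -0.472 ≤ y) (hy2 : y ≤ -0.112) : ‖HH β (x + y * I) - 1‖ ≤ 0.14 := by
  refine le_epsJ (C := 1.3754) (N0 := 9.899) (J_boxp 1.4019 1.4919 0.472 0 (-0.112) 1.362 1.5648 1.7362 0.829 0.5257 3.1463 9.899 1.1489 5.42 1.701 0.4106 0.6809 0.4201 0.7431 1.7404 0.7781 2.441 3.0914 3.2623 0.001184 0.01564 0.0006395 0.0000003101 0.0004523 0.0000003101 0.0000003101 0.0000003101 1.3754
    hβ hN hx1 hx2 hy1 hy2 (by norm_num) (by norm_num) (by linarith) (by norm_num) (by norm_num) (by norm_num) (by norm_num) (by norm_num) (by norm_num) (by norm_num) (by norm_num) (by norm_num) (by norm_num) (by norm_num) (by norm_num) (by norm_num) (by norm_num) (by norm_num) (by norm_num) (by norm_num) (by norm_num) (by norm_num) (by norm_num) (by norm_num)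
    (cube_sqrt_geJ (s := 0.7855) (by norm_num) (by norm_num) (by norm_num) (by norm_num))
    (cube_sqrt_geJ (s := 0.9269) (by norm_num) (by norm_num) (by norm_num) (by norm_num))
    (by norm_num) (by norm_num) (by norm_num) (by norm_num) (by norm_num) (by norm_num) (by norm_num) (by norm_num) (by norm_num) (by norm_num) (by norm_num) (by norm_num) (by norm_num) (by norm_num) (by norm_num) (by norm_num) (by norm_num) (by norm_num)
    (exp_neg_leJ (r := 0.74) 6 (by norm_num) (by norm_num) (by norm_num) (by norm_num))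
    (exp_neg_leJ (r := 0.158) 4 (by norm_num) (by norm_num) (by norm_num) (by norm_num))
    (exp_neg_leJ (r := 0.355) 7 (by norm_num) (by norm_num) (by norm_num) (by norm_num))
    (exp_neg_leJ (r := 0.99) 14 (by norm_num) (by norm_num) (by norm_num) (by norm_num))
    (exp_neg_leJ (r := 0.702) 7 (by norm_num) (by norm_num) (by norm_num) (by norm_num))
    (exp_neg_leJ (r := 0.99) 14 (by norm_num) (by norm_num) (by norm_num) (by norm_num))
    (exp_neg_leJ (r := 0.99) 14 (by norm_num) (by norm_num) (by norm_num) (by norm_num))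
    (exp_neg_leJ (r := 0.99) 14 (by norm_num) (by norm_num) (by norm_num) (by norm_num))
    (by norm_num)) (by norm_num) hN hβ.le (by norm_num)

private theorem JD6b_p2_c0_b0_10 {β x y : ℝ} (hβ : 0 < β) (hN : β * 9.899 ≤ 1) (hx1 : 1.4919 ≤ x) (hx2 : x ≤ 1.6019)
    (hy1 : -0.472 ≤ y) (hy2 : y ≤ -0.112) : ‖HH β (x + y * I) - 1‖ ≤ 0.14 := by
  refine le_epsJ (C := 1.3796) (N0 := 9.899) (J_boxp 1.4919 1.6019 0.472 0 (-0.112) 1.4254 1.67 1.8316 0.7953 0.54 3.1463 9.899 1.1717 5.66 1.72 0.3683 0.7126 0.4343 0.7739 1.6781 0.8218 2.5657 3.2714 3.1563 0.000864 0.01359 0.0004716 0.0000003101 0.0002934 0.0000003101 0.0000003101 0.0000003101 1.3796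
    hβ hN hx1 hx2 hy1 hy2 (by norm_num) (by norm_num) (by linarith) (by norm_num) (by norm_num) (by norm_num) (by norm_num) (by norm_num) (by norm_num) (by norm_num) (by norm_num) (by norm_num) (by norm_num) (by norm_num) (by norm_num) (by norm_num) (by norm_num) (by norm_num) (by norm_num) (by norm_num) (by norm_num) (by norm_num) (by norm_num) (by norm_num)
    (cube_sqrt_geJ (s := 0.7806) (by norm_num) (by norm_num) (by norm_num) (by norm_num))
    (cube_sqrt_geJ (s := 0.9254) (by norm_num) (by norm_num) (by norm_num) (by norm_num))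
    (by norm_num) (by norm_num) (by norm_num) (by norm_num) (by norm_num) (by norm_num) (by norm_num) (by norm_num) (by norm_num) (by norm_num) (by norm_num) (by norm_num) (by norm_num) (by norm_num) (by norm_num) (by norm_num) (by norm_num) (by norm_num)
    (exp_neg_leJ (r := 0.054) 7 (by norm_num) (by norm_num) (by norm_num) (by norm_num))
    (exp_neg_leJ (r := 0.299) 4 (by norm_num) (by norm_num) (by norm_num) (by norm_num))
    (exp_neg_leJ (r := 0.66) 7 (by norm_num) (by norm_num) (by norm_num) (by norm_num))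
    (exp_neg_leJ (r := 0.99) 14 (by norm_num) (by norm_num) (by norm_num) (by norm_num))
    (exp_neg_leJ (r := 0.134) 8 (by norm_num) (by norm_num) (by norm_num) (by norm_num))
    (exp_neg_leJ (r := 0.99) 14 (by norm_num) (by norm_num) (by norm_num) (by norm_num))
    (exp_neg_leJ (r := 0.99) 14 (by norm_num) (by norm_num) (by norm_num) (by norm_num))
    (exp_neg_leJ (r := 0.99) 14 (by norm_num) (by norm_num) (by norm_num) (by norm_num))
    (by norm_num)) (by norm_num) hN hβ.le (by norm_num)

private theorem JD6b_p2_c0_b0_11 {β x y : ℝ} (hβ : 0 < β) (hN : β * 9.899 ≤ 1) (hx1 : 1.6019 ≤ x) (hx2 : x ≤ 1.6498)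
    (hy1 : -0.472 ≤ y) (hy2 : y ≤ -0.112) : ‖HH β (x + y * I) - 1‖ ≤ 0.14 := by
  refine le_epsJ (C := 1.1658) (N0 := 9.899) (J_boxp 1.6019 1.6498 0.472 0 (-0.112) 1.5028 1.716 1.8737 0.7431 0.5461 3.1463 9.899 1.1419 5.349 1.695 0.3498 0.7513 0.4653 0.8115 1.6509 0.8752 2.718 3.4914 3.2512 0.0005892 0.009996 0.0003246 0.0000003101 0.000173 0.0000003101 0.0000003101 0.0000003101 1.1658
    hβ hN hx1 hx2 hy1 hy2 (by norm_num) (by norm_num) (by linarith) (by norm_num) (by norm_num) (by norm_num) (by norm_num) (by norm_num) (by norm_num) (by norm_num) (by norm_num) (by norm_num) (by norm_num) (by norm_num) (by norm_num) (by norm_num) (by norm_num) (by norm_num) (by norm_num) (by norm_num) (by norm_num) (by norm_num) (by norm_num) (by norm_num)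
    (cube_sqrt_geJ (s := 0.7869) (by norm_num) (by norm_num) (by norm_num) (by norm_num))
    (cube_sqrt_geJ (s := 0.9274) (by norm_num) (by norm_num) (by norm_num) (by norm_num))
    (by norm_num) (by norm_num) (by norm_num) (by norm_num) (by norm_num) (by norm_num) (by norm_num) (by norm_num) (by norm_num) (by norm_num) (by norm_num) (by norm_num) (by norm_num) (by norm_num) (by norm_num) (by norm_num) (by norm_num) (by norm_num)
    (exp_neg_leJ (r := 0.437) 7 (by norm_num) (by norm_num) (by norm_num) (by norm_num))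
    (exp_neg_leJ (r := 0.606) 4 (by norm_num) (by norm_num) (by norm_num) (by norm_num))
    (exp_neg_leJ (r := 0.033) 8 (by norm_num) (by norm_num) (by norm_num) (by norm_num))
    (exp_neg_leJ (r := 0.99) 14 (by norm_num) (by norm_num) (by norm_num) (by norm_num))
    (exp_neg_leJ (r := 0.663) 8 (by norm_num) (by norm_num) (by norm_num) (by norm_num))
    (exp_neg_leJ (r := 0.99) 14 (by norm_num) (by norm_num) (by norm_num) (by norm_num))
    (exp_neg_leJ (r := 0.99) 14 (by norm_num) (by norm_num) (by norm_num) (by norm_num))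
    (exp_neg_leJ (r := 0.99) 14 (by norm_num) (by norm_num) (by norm_num) (by norm_num))
    (by norm_num)) (by norm_num) hN hβ.le (by norm_num)

private theorem JD6b_p2_c0_b1_0 {β x y : ℝ} (hβ : 0 < β) (hN : β * 9.899 ≤ 1) (hx1 : 1.0719 ≤ x) (hx2 : x ≤ 1.5919)
    (hy1 : -0.112 ≤ y) (hy2 : y ≤ -0.084) : ‖HH β (x + y * I) - 1‖ ≤ 0.14 := by
  refine le_epsJ (C := 1.3785) (N0 := 9.899) (J_boxp 1.0719 1.5919 0.112 0 (-0.084) 1.3853 1.5959 1.8367 0.8312 0.5407 3.1463 9.899 1.1521 5.453 1.703 0.7044 0.6926 0.4266 1.1984 2.8311 0.8144 1.9841 3.41 2.5177 0.001056 0.01467 0.000007068 0.0000003101 0.0003157 0.0000003101 0.0000003101 0.0000003101 1.3785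
    hβ hN hx1 hx2 hy1 hy2 (by norm_num) (by norm_num) (by linarith) (by norm_num) (by norm_num) (by norm_num) (by norm_num) (by norm_num) (by norm_num) (by norm_num) (by norm_num) (by norm_num) (by norm_num) (by norm_num) (by norm_num) (by norm_num) (by norm_num) (by norm_num) (by norm_num) (by norm_num) (by norm_num) (by norm_num) (by norm_num) (by norm_num)
    (cube_sqrt_geJ (s := 0.7848) (by norm_num) (by norm_num) (by norm_num) (by norm_num))
    (cube_sqrt_geJ (s := 0.9267) (by norm_num) (by norm_num) (by norm_num) (by norm_num))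
    (by norm_num) (by norm_num) (by norm_num) (by norm_num) (by norm_num) (by norm_num) (by norm_num) (by norm_num) (by norm_num) (by norm_num) (by norm_num) (by norm_num) (by norm_num) (by norm_num) (by norm_num) (by norm_num) (by norm_num) (by norm_num)
    (exp_neg_leJ (r := 0.856) 6 (by norm_num) (by norm_num) (by norm_num) (by norm_num))
    (exp_neg_leJ (r := 0.222) 4 (by norm_num) (by norm_num) (by norm_num) (by norm_num))
    (exp_neg_leJ (r := 0.862) 11 (by norm_num) (by norm_num) (by norm_num) (by norm_num))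
    (exp_neg_leJ (r := 0.99) 14 (by norm_num) (by norm_num) (by norm_num) (by norm_num))
    (exp_neg_leJ (r := 0.061) 8 (by norm_num) (by norm_num) (by norm_num) (by norm_num))
    (exp_neg_leJ (r := 0.99) 14 (by norm_num) (by norm_num) (by norm_num) (by norm_num))
    (exp_neg_leJ (r := 0.99) 14 (by norm_num) (by norm_num) (by norm_num) (by norm_num))
    (exp_neg_leJ (r := 0.99) 14 (by norm_num) (by norm_num) (by norm_num) (by norm_num))
    (by norm_num)) (by norm_num) hN hβ.le (by norm_num)

private theorem JD6b_p2_c0_b1_1 {β x y : ℝ} (hβ : 0 < β) (hN : β * 9.899 ≤ 1) (hx1 : 1.5919 ≤ x) (hx2 : x ≤ 1.6498)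
    (hy1 : -0.112 ≤ y) (hy2 : y ≤ -0.084) : ‖HH β (x + y * I) - 1‖ ≤ 0.14 := by
  refine le_epsJ (C := 0.5085) (N0 := 9.899) (J_boxp 1.5919 1.6498 0.112 0 (-0.084) 1.7514 1.6536 1.8871 0.5927 0.5481 3.1463 9.899 0.9442 3.755 1.538 0.6821 0.8756 0.6 1.3764 2.7977 1.067 2.7041 4.45 3.4009 0.0001723 0.002643 0.000001212 0.0000003101 0.00002589 0.0000003101 0.0000003101 0.0000003101 0.5085
    hβ hN hx1 hx2 hy1 hy2 (by norm_num) (by norm_num) (by linarith) (by norm_num) (by norm_num) (by norm_num) (by norm_num) (by norm_num) (by norm_num) (by norm_num) (by norm_num) (by norm_num) (by norm_num) (by norm_num) (by norm_num) (by norm_num) (by norm_num) (by norm_num) (by norm_num) (by norm_num) (by norm_num) (by norm_num) (by norm_num) (by norm_num)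
    (cube_sqrt_geJ (s := 0.8278) (by norm_num) (by norm_num) (by norm_num) (by norm_num))
    (cube_sqrt_geJ (s := 0.9404) (by norm_num) (by norm_num) (by norm_num) (by norm_num))
    (by norm_num) (by norm_num) (by norm_num) (by norm_num) (by norm_num) (by norm_num) (by norm_num) (by norm_num) (by norm_num) (by norm_num) (by norm_num) (by norm_num) (by norm_num) (by norm_num) (by norm_num) (by norm_num) (by norm_num) (by norm_num)
    (exp_neg_leJ (r := 0.667) 8 (by norm_num) (by norm_num) (by norm_num) (by norm_num))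
    (exp_neg_leJ (r := 0.939) 5 (by norm_num) (by norm_num) (by norm_num) (by norm_num))
    (exp_neg_leJ (r := 0.624) 13 (by norm_num) (by norm_num) (by norm_num) (by norm_num))
    (exp_neg_leJ (r := 0.99) 14 (by norm_num) (by norm_num) (by norm_num) (by norm_num))
    (exp_neg_leJ (r := 0.562) 10 (by norm_num) (by norm_num) (by norm_num) (by norm_num))
    (exp_neg_leJ (r := 0.99) 14 (by norm_num) (by norm_num) (by norm_num) (by norm_num))
    (exp_neg_leJ (r := 0.99) 14 (by norm_num) (by norm_num) (by norm_num) (by norm_num))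
    (exp_neg_leJ (r := 0.99) 14 (by norm_num) (by norm_num) (by norm_num) (by norm_num))
    (by norm_num)) (by norm_num) hN hβ.le (by norm_num)

private theorem JD6b_p2_c0 {κ t β : ℝ} (h : DomR κ t) (hβ : 0 < β) (hk1 : 1 ≤ κ) (hk2 : κ ≤ 1.1)
    (ht1 : -0.576 ≤ t + κ) (ht2 : t + κ ≤ -0.4398) (hR0 : β * 10 ≤ κ) (hR : β * (4.95 * (1 + κ ^ 2)) ≤ κ) :
    ∀ s : ℂ, ‖s - sg κ t‖ ≤ 0.15 → ‖HH β s - 1‖ ≤ 0.14 := by
  have hN : β * 9.899 ≤ 1 := bNC' hβ hk1 (by norm_num) (by norm_num) hR (by norm_num)
  have hy1 : -0.322 ≤ sy κ t := syL_ge h 1 1.1 0.576 0.322 0.72469 0.7247 0.2174 0.21213 0.23336 hk1 hk2 (by linarith) (by norm_num) (by norm_num) (by norm_num)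
    (expm_ge (by norm_num) (by norm_num) (by norm_num) (by norm_num)) (expm_le (by norm_num) (by norm_num) (by norm_num)) (by norm_num)
    (by norm_num) (by norm_num) (by norm_num) (by norm_num) (by norm_num) (by norm_num)
  have hy2 : sy κ t ≤ -0.234 := syL_le h 1 1.1 0.4398 0.234 0.79136 0.79137 0.16834 0.18519 hk1 hk2 (by linarith) (by norm_num) (by norm_num) (by norm_num)
    (expm_ge (by norm_num) (by norm_num) (by norm_num) (by norm_num)) (expm_le (by norm_num) (by norm_num) (by norm_num)) (by norm_num)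
    (by norm_num) (by norm_num) (by norm_num) (by norm_num) (by norm_num) (by norm_num)
  have hx1 : 1.2219 ≤ sx κ t := sx_lo h 1 (-0.234) 0.322 1.26364 1.2219 hk1 (by norm_num) hy2 (abs_le.2 ⟨by linarith, by linarith⟩) (by rw [neg_neg]; exact expn_ge (by norm_num) (by norm_num)) (by norm_num) (by norm_num)
  have hx2 : sx κ t ≤ 1.4998 := sx_hi h 1.1 (-0.322) 0.234 1.37989 1.4998 hk2 hy1 (by norm_num) (by rw [abs_of_nonpos (by linarith)]; linarith) (by rw [neg_neg]; exact expn_le (by norm_num) (by norm_num) (by norm_num)) (by norm_num) (by norm_num)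
  intro s hs
  have hs' : ‖s - ((sx κ t : ℂ) + (sy κ t : ℂ) * I)‖ ≤ 0.15 := hs
  obtain ⟨es, ⟨s1, s2⟩, ⟨s3, s4⟩⟩ := disc_split hs'
  have X1 : 1.0719 ≤ s.re := by linarith
  have X2 : s.re ≤ 1.6498 := by linarith
  have Y1 : (-0.472) ≤ s.im := by linarith
  have Y2 : s.im ≤ (-0.084) := by linarith
  rw [es]
  rcases le_total s.im (-0.112) with f0 | g0
  · rcases le_total s.re 1.0819 with u0 | v0
    · exact JD6b_p2_c0_b0_0 hβ hN (by linarith) (by linarith) (by linarith) (by linarith)
    rcases le_total s.re 1.1019 with u1 | v1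
    · exact JD6b_p2_c0_b0_1 hβ hN (by linarith) (by linarith) (by linarith) (by linarith)
    rcases le_total s.re 1.1219 with u2 | v2
    · exact JD6b_p2_c0_b0_2 hβ hN (by linarith) (by linarith) (by linarith) (by linarith)
    rcases le_total s.re 1.1519 with u3 | v3
    · exact JD6b_p2_c0_b0_3 hβ hN (by linarith) (by linarith) (by linarith) (by linarith)
    rcases le_total s.re 1.1819 with u4 | v4
    · exact JD6b_p2_c0_b0_4 hβ hN (by linarith) (by linarith) (by linarith) (by linarith)
    rcases le_total s.re 1.2219 with u5 | v5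
    · exact JD6b_p2_c0_b0_5 hβ hN (by linarith) (by linarith) (by linarith) (by linarith)
    rcases le_total s.re 1.2719 with u6 | v6
    · exact JD6b_p2_c0_b0_6 hβ hN (by linarith) (by linarith) (by linarith) (by linarith)
    rcases le_total s.re 1.3319 with u7 | v7
    · exact JD6b_p2_c0_b0_7 hβ hN (by linarith) (by linarith) (by linarith) (by linarith)
    rcases le_total s.re 1.4019 with u8 | v8
    · exact JD6b_p2_c0_b0_8 hβ hN (by linarith) (by linarith) (by linarith) (by linarith)
    rcases le_total s.re 1.4919 with u9 | v9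
    · exact JD6b_p2_c0_b0_9 hβ hN (by linarith) (by linarith) (by linarith) (by linarith)
    rcases le_total s.re 1.6019 with u10 | v10
    · exact JD6b_p2_c0_b0_10 hβ hN (by linarith) (by linarith) (by linarith) (by linarith)
    exact JD6b_p2_c0_b0_11 hβ hN (by linarith) (by linarith) (by linarith) (by linarith)
  rcases le_total s.re 1.5919 with u0 | v0
  · exact JD6b_p2_c0_b1_0 hβ hN (by linarith) (by linarith) (by linarith) (by linarith)
  exact JD6b_p2_c0_b1_1 hβ hN (by linarith) (by linarith) (by linarith) (by linarith)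

theorem JD6b_2 {κ t β : ℝ} (h : DomR κ t) (hβ : 0 < β) (hk1 : 1 ≤ κ) (hk2 : κ ≤ 1.1)
    (ht1 : -0.576 ≤ t + κ) (ht2 : t + κ ≤ -0.4398) (hR0 : β * 10 ≤ κ) (hR : β * (4.95 * (1 + κ ^ 2)) ≤ κ) :
    ∀ s : ℂ, ‖s - sg κ t‖ ≤ 0.15 → ‖HH β s - 1‖ ≤ 0.14 := by
  exact JD6b_p2_c0 h hβ hk1 hk2 ht1 ht2 hR0 hR


private theorem JD6b_p3_c0_b0_0 {β x y : ℝ} (hβ : 0 < β) (hN : β * 9.944 ≤ 1) (hx1 : 1.1891 ≤ x) (hx2 : x ≤ 1.1991)
    (hy1 : -0.461 ≤ y) (hy2 : y ≤ -0.241) : ‖HH β (x + y * I) - 1‖ ≤ 0.12 := by
  refine le_epsJ (C := 1.1926) (N0 := 9.944) (J_boxp 1.1891 1.1991 0.461 0 (-0.241) 1.22 1.2847 1.4192 0.8841 0.4753 3.1535 9.944 1.0531 4.543 1.622 0.5333 0.6099 0.3958 0.6876 1.9408 0.6807 2.1464 2.6957 3.598 0.002326 0.0196 0.001076 0.0000003101 0.001152 0.0000003101 0.0000003101 0.0000003101 1.1926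
    hβ hN hx1 hx2 hy1 hy2 (by norm_num) (by norm_num) (by linarith) (by norm_num) (by norm_num) (by norm_num) (by norm_num) (by norm_num) (by norm_num) (by norm_num) (by norm_num) (by norm_num) (by norm_num) (by norm_num) (by norm_num) (by norm_num) (by norm_num) (by norm_num) (by norm_num) (by norm_num) (by norm_num) (by norm_num) (by norm_num) (by norm_num)
    (cube_sqrt_geJ (s := 0.8055) (by norm_num) (by norm_num) (by norm_num) (by norm_num))
    (cube_sqrt_geJ (s := 0.9333) (by norm_num) (by norm_num) (by norm_num) (by norm_num))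
    (by norm_num) (by norm_num) (by norm_num) (by norm_num) (by norm_num) (by norm_num) (by norm_num) (by norm_num) (by norm_num) (by norm_num) (by norm_num) (by norm_num) (by norm_num) (by norm_num) (by norm_num) (by norm_num) (by norm_num) (by norm_num)
    (exp_neg_leJ (r := 0.064) 6 (by norm_num) (by norm_num) (by norm_num) (by norm_num))
    (exp_neg_leJ (r := 0.935) 3 (by norm_num) (by norm_num) (by norm_num) (by norm_num))
    (exp_neg_leJ (r := 0.837) 6 (by norm_num) (by norm_num) (by norm_num) (by norm_num))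
    (exp_neg_leJ (r := 0.99) 14 (by norm_num) (by norm_num) (by norm_num) (by norm_num))
    (exp_neg_leJ (r := 0.768) 6 (by norm_num) (by norm_num) (by norm_num) (by norm_num))
    (exp_neg_leJ (r := 0.99) 14 (by norm_num) (by norm_num) (by norm_num) (by norm_num))
    (exp_neg_leJ (r := 0.99) 14 (by norm_num) (by norm_num) (by norm_num) (by norm_num))
    (exp_neg_leJ (r := 0.99) 14 (by norm_num) (by norm_num) (by norm_num) (by norm_num))
    (by norm_num)) (by norm_num) hN hβ.le (by norm_num)

private theorem JD6b_p3_c0_b0_1 {β x y : ℝ} (hβ : 0 < β) (hN : β * 9.944 ≤ 1) (hx1 : 1.1991 ≤ x) (hx2 : x ≤ 1.2091)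
    (hy1 : -0.461 ≤ y) (hy2 : y ≤ -0.241) : ‖HH β (x + y * I) - 1‖ ≤ 0.12 := by
  refine le_epsJ (C := 1.1872) (N0 := 9.944) (J_boxp 1.1991 1.2091 0.461 0 (-0.241) 1.227 1.2941 1.4276 0.8791 0.4767 3.1535 9.944 1.0547 4.556 1.623 0.5295 0.6134 0.3978 0.691 1.9352 0.6856 2.1602 2.7157 3.5925 0.002246 0.01922 0.00104 0.0000003101 0.001097 0.0000003101 0.0000003101 0.0000003101 1.1872
    hβ hN hx1 hx2 hy1 hy2 (by norm_num) (by norm_num) (by linarith) (by norm_num) (by norm_num) (by norm_num) (by norm_num) (by norm_num) (by norm_num) (by norm_num) (by norm_num) (by norm_num) (by norm_num) (by norm_num) (by norm_num) (by norm_num) (by norm_num) (by norm_num) (by norm_num) (by norm_num) (by norm_num) (by norm_num) (by norm_num) (by norm_num)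
    (cube_sqrt_geJ (s := 0.8052) (by norm_num) (by norm_num) (by norm_num) (by norm_num))
    (cube_sqrt_geJ (s := 0.9332) (by norm_num) (by norm_num) (by norm_num) (by norm_num))
    (by norm_num) (by norm_num) (by norm_num) (by norm_num) (by norm_num) (by norm_num) (by norm_num) (by norm_num) (by norm_num) (by norm_num) (by norm_num) (by norm_num) (by norm_num) (by norm_num) (by norm_num) (by norm_num) (by norm_num) (by norm_num)
    (exp_neg_leJ (r := 0.099) 6 (by norm_num) (by norm_num) (by norm_num) (by norm_num))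
    (exp_neg_leJ (r := 0.955) 3 (by norm_num) (by norm_num) (by norm_num) (by norm_num))
    (exp_neg_leJ (r := 0.871) 6 (by norm_num) (by norm_num) (by norm_num) (by norm_num))
    (exp_neg_leJ (r := 0.99) 14 (by norm_num) (by norm_num) (by norm_num) (by norm_num))
    (exp_neg_leJ (r := 0.817) 6 (by norm_num) (by norm_num) (by norm_num) (by norm_num))
    (exp_neg_leJ (r := 0.99) 14 (by norm_num) (by norm_num) (by norm_num) (by norm_num))
    (exp_neg_leJ (r := 0.99) 14 (by norm_num) (by norm_num) (by norm_num) (by norm_num))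
    (exp_neg_leJ (r := 0.99) 14 (by norm_num) (by norm_num) (by norm_num) (by norm_num))
    (by norm_num)) (by norm_num) hN hβ.le (by norm_num)

private theorem JD6b_p3_c0_b0_2 {β x y : ℝ} (hβ : 0 < β) (hN : β * 9.944 ≤ 1) (hx1 : 1.2091 ≤ x) (hx2 : x ≤ 1.2191)
    (hy1 : -0.461 ≤ y) (hy2 : y ≤ -0.241) : ‖HH β (x + y * I) - 1‖ ≤ 0.12 := by
  refine le_epsJ (C := 1.1823) (N0 := 9.944) (J_boxp 1.2091 1.2191 0.461 0 (-0.241) 1.234 1.3034 1.4361 0.8743 0.4781 3.1535 9.944 1.0563 4.569 1.624 0.5256 0.6169 0.3997 0.6944 1.9296 0.6904 2.1741 2.7357 3.5872 0.002168 0.01887 0.001006 0.0000003101 0.001046 0.0000003101 0.0000003101 0.0000003101 1.1823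
    hβ hN hx1 hx2 hy1 hy2 (by norm_num) (by norm_num) (by linarith) (by norm_num) (by norm_num) (by norm_num) (by norm_num) (by norm_num) (by norm_num) (by norm_num) (by norm_num) (by norm_num) (by norm_num) (by norm_num) (by norm_num) (by norm_num) (by norm_num) (by norm_num) (by norm_num) (by norm_num) (by norm_num) (by norm_num) (by norm_num) (by norm_num)
    (cube_sqrt_geJ (s := 0.8049) (by norm_num) (by norm_num) (by norm_num) (by norm_num))
    (cube_sqrt_geJ (s := 0.933) (by norm_num) (by norm_num) (by norm_num) (by norm_num))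
    (by norm_num) (by norm_num) (by norm_num) (by norm_num) (by norm_num) (by norm_num) (by norm_num) (by norm_num) (by norm_num) (by norm_num) (by norm_num) (by norm_num) (by norm_num) (by norm_num) (by norm_num) (by norm_num) (by norm_num) (by norm_num)
    (exp_neg_leJ (r := 0.134) 6 (by norm_num) (by norm_num) (by norm_num) (by norm_num))
    (exp_neg_leJ (r := 0.974) 3 (by norm_num) (by norm_num) (by norm_num) (by norm_num))
    (exp_neg_leJ (r := 0.905) 6 (by norm_num) (by norm_num) (by norm_num) (by norm_num))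
    (exp_neg_leJ (r := 0.99) 14 (by norm_num) (by norm_num) (by norm_num) (by norm_num))
    (exp_neg_leJ (r := 0.865) 6 (by norm_num) (by norm_num) (by norm_num) (by norm_num))
    (exp_neg_leJ (r := 0.99) 14 (by norm_num) (by norm_num) (by norm_num) (by norm_num))
    (exp_neg_leJ (r := 0.99) 14 (by norm_num) (by norm_num) (by norm_num) (by norm_num))
    (exp_neg_leJ (r := 0.99) 14 (by norm_num) (by norm_num) (by norm_num) (by norm_num))
    (by norm_num)) (by norm_num) hN hβ.le (by norm_num)

private theorem JD6b_p3_c0_b0_3 {β x y : ℝ} (hβ : 0 < β) (hN : β * 9.944 ≤ 1) (hx1 : 1.2191 ≤ x) (hx2 : x ≤ 1.2291)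
    (hy1 : -0.461 ≤ y) (hy2 : y ≤ -0.241) : ‖HH β (x + y * I) - 1‖ ≤ 0.12 := by
  refine le_epsJ (C := 1.1776) (N0 := 9.944) (J_boxp 1.2191 1.2291 0.461 0 (-0.241) 1.2411 1.3128 1.4446 0.8693 0.4795 3.1535 9.944 1.0578 4.581 1.626 0.5218 0.6205 0.4017 0.6979 1.924 0.6953 2.1879 2.7557 3.5817 0.002092 0.01857 0.000972 0.0000003101 0.0009963 0.0000003101 0.0000003101 0.0000003101 1.1776
    hβ hN hx1 hx2 hy1 hy2 (by norm_num) (by norm_num) (by linarith) (by norm_num) (by norm_num) (by norm_num) (by norm_num) (by norm_num) (by norm_num) (by norm_num) (by norm_num) (by norm_num) (by norm_num) (by norm_num) (by norm_num) (by norm_num) (by norm_num) (by norm_num) (by norm_num) (by norm_num) (by norm_num) (by norm_num) (by norm_num) (by norm_num)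
    (cube_sqrt_geJ (s := 0.8046) (by norm_num) (by norm_num) (by norm_num) (by norm_num))
    (cube_sqrt_geJ (s := 0.9329) (by norm_num) (by norm_num) (by norm_num) (by norm_num))
    (by norm_num) (by norm_num) (by norm_num) (by norm_num) (by norm_num) (by norm_num) (by norm_num) (by norm_num) (by norm_num) (by norm_num) (by norm_num) (by norm_num) (by norm_num) (by norm_num) (by norm_num) (by norm_num) (by norm_num) (by norm_num)
    (exp_neg_leJ (r := 0.17) 6 (by norm_num) (by norm_num) (by norm_num) (by norm_num))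
    (exp_neg_leJ (r := 0.99) 3 (by norm_num) (by norm_num) (by norm_num) (by norm_num))
    (exp_neg_leJ (r := 0.939) 6 (by norm_num) (by norm_num) (by norm_num) (by norm_num))
    (exp_neg_leJ (r := 0.99) 14 (by norm_num) (by norm_num) (by norm_num) (by norm_num))
    (exp_neg_leJ (r := 0.914) 6 (by norm_num) (by norm_num) (by norm_num) (by norm_num))
    (exp_neg_leJ (r := 0.99) 14 (by norm_num) (by norm_num) (by norm_num) (by norm_num))
    (exp_neg_leJ (r := 0.99) 14 (by norm_num) (by norm_num) (by norm_num) (by norm_num))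
    (exp_neg_leJ (r := 0.99) 14 (by norm_num) (by norm_num) (by norm_num) (by norm_num))
    (by norm_num)) (by norm_num) hN hβ.le (by norm_num)

private theorem JD6b_p3_c0_b0_4 {β x y : ℝ} (hβ : 0 < β) (hN : β * 9.944 ≤ 1) (hx1 : 1.2291 ≤ x) (hx2 : x ≤ 1.2391)
    (hy1 : -0.461 ≤ y) (hy2 : y ≤ -0.241) : ‖HH β (x + y * I) - 1‖ ≤ 0.12 := by
  refine le_epsJ (C := 1.1711) (N0 := 9.944) (J_boxp 1.2291 1.2391 0.461 0 (-0.241) 1.2481 1.3221 1.4531 0.8646 0.481 3.1535 9.944 1.0593 4.593 1.627 0.518 0.624 0.4036 0.7013 1.9184 0.7001 2.2018 2.7757 3.5764 0.00202 0.01808 0.00094 0.0000003101 0.0009512 0.0000003101 0.0000003101 0.0000003101 1.1711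
    hβ hN hx1 hx2 hy1 hy2 (by norm_num) (by norm_num) (by linarith) (by norm_num) (by norm_num) (by norm_num) (by norm_num) (by norm_num) (by norm_num) (by norm_num) (by norm_num) (by norm_num) (by norm_num) (by norm_num) (by norm_num) (by norm_num) (by norm_num) (by norm_num) (by norm_num) (by norm_num) (by norm_num) (by norm_num) (by norm_num) (by norm_num)
    (cube_sqrt_geJ (s := 0.8043) (by norm_num) (by norm_num) (by norm_num) (by norm_num))
    (cube_sqrt_geJ (s := 0.9328) (by norm_num) (by norm_num) (by norm_num) (by norm_num))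
    (by norm_num) (by norm_num) (by norm_num) (by norm_num) (by norm_num) (by norm_num) (by norm_num) (by norm_num) (by norm_num) (by norm_num) (by norm_num) (by norm_num) (by norm_num) (by norm_num) (by norm_num) (by norm_num) (by norm_num) (by norm_num)
    (exp_neg_leJ (r := 0.205) 6 (by norm_num) (by norm_num) (by norm_num) (by norm_num))
    (exp_neg_leJ (r := 0.013) 4 (by norm_num) (by norm_num) (by norm_num) (by norm_num))
    (exp_neg_leJ (r := 0.973) 6 (by norm_num) (by norm_num) (by norm_num) (by norm_num))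
    (exp_neg_leJ (r := 0.99) 14 (by norm_num) (by norm_num) (by norm_num) (by norm_num))
    (exp_neg_leJ (r := 0.961) 6 (by norm_num) (by norm_num) (by norm_num) (by norm_num))
    (exp_neg_leJ (r := 0.99) 14 (by norm_num) (by norm_num) (by norm_num) (by norm_num))
    (exp_neg_leJ (r := 0.99) 14 (by norm_num) (by norm_num) (by norm_num) (by norm_num))
    (exp_neg_leJ (r := 0.99) 14 (by norm_num) (by norm_num) (by norm_num) (by norm_num))
    (by norm_num)) (by norm_num) hN hβ.le (by norm_num)

private theorem JD6b_p3_c0_b0_5 {β x y : ℝ} (hβ : 0 < β) (hN : β * 9.944 ≤ 1) (hx1 : 1.2391 ≤ x) (hx2 : x ≤ 1.2591)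
    (hy1 : -0.461 ≤ y) (hy2 : y ≤ -0.241) : ‖HH β (x + y * I) - 1‖ ≤ 0.12 := by
  refine le_epsJ (C := 1.1925) (N0 := 9.944) (J_boxp 1.2391 1.2591 0.461 0 (-0.241) 1.2552 1.3409 1.4702 0.8623 0.4838 3.1535 9.944 1.0683 4.669 1.634 0.5103 0.6275 0.4041 0.7047 1.9071 0.705 2.2156 2.7957 3.5453 0.001952 0.01799 0.0009056 0.0000003101 0.0009029 0.0000003101 0.0000003101 0.0000003101 1.1925
    hβ hN hx1 hx2 hy1 hy2 (by norm_num) (by norm_num) (by linarith) (by norm_num) (by norm_num) (by norm_num) (by norm_num) (by norm_num) (by norm_num) (by norm_num) (by norm_num) (by norm_num) (by norm_num) (by norm_num) (by norm_num) (by norm_num) (by norm_num) (by norm_num) (by norm_num) (by norm_num) (by norm_num) (by norm_num) (by norm_num) (by norm_num)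
    (cube_sqrt_geJ (s := 0.8024) (by norm_num) (by norm_num) (by norm_num) (by norm_num))
    (cube_sqrt_geJ (s := 0.9323) (by norm_num) (by norm_num) (by norm_num) (by norm_num))
    (by norm_num) (by norm_num) (by norm_num) (by norm_num) (by norm_num) (by norm_num) (by norm_num) (by norm_num) (by norm_num) (by norm_num) (by norm_num) (by norm_num) (by norm_num) (by norm_num) (by norm_num) (by norm_num) (by norm_num) (by norm_num)
    (exp_neg_leJ (r := 0.239) 6 (by norm_num) (by norm_num) (by norm_num) (by norm_num))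
    (exp_neg_leJ (r := 0.018) 4 (by norm_num) (by norm_num) (by norm_num) (by norm_num))
    (exp_neg_leJ (r := 0.007) 7 (by norm_num) (by norm_num) (by norm_num) (by norm_num))
    (exp_neg_leJ (r := 0.99) 14 (by norm_num) (by norm_num) (by norm_num) (by norm_num))
    (exp_neg_leJ (r := 0.01) 7 (by norm_num) (by norm_num) (by norm_num) (by norm_num))
    (exp_neg_leJ (r := 0.99) 14 (by norm_num) (by norm_num) (by norm_num) (by norm_num))
    (exp_neg_leJ (r := 0.99) 14 (by norm_num) (by norm_num) (by norm_num) (by norm_num))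
    (exp_neg_leJ (r := 0.99) 14 (by norm_num) (by norm_num) (by norm_num) (by norm_num))
    (by norm_num)) (by norm_num) hN hβ.le (by norm_num)

private theorem JD6b_p3_c0_b0_6 {β x y : ℝ} (hβ : 0 < β) (hN : β * 9.944 ≤ 1) (hx1 : 1.2591 ≤ x) (hx2 : x ≤ 1.2791)
    (hy1 : -0.461 ≤ y) (hy2 : y ≤ -0.241) : ‖HH β (x + y * I) - 1‖ ≤ 0.12 := by
  refine le_epsJ (C := 1.1824) (N0 := 9.944) (J_boxp 1.2591 1.2791 0.461 0 (-0.241) 1.2693 1.3597 1.4874 0.8529 0.4866 3.1535 9.944 1.0713 4.694 1.636 0.5026 0.6346 0.408 0.7116 1.8959 0.7147 2.2433 2.8357 3.5342 0.001819 0.01731 0.0008452 0.0000003101 0.0008202 0.0000003101 0.0000003101 0.0000003101 1.1824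
    hβ hN hx1 hx2 hy1 hy2 (by norm_num) (by norm_num) (by linarith) (by norm_num) (by norm_num) (by norm_num) (by norm_num) (by norm_num) (by norm_num) (by norm_num) (by norm_num) (by norm_num) (by norm_num) (by norm_num) (by norm_num) (by norm_num) (by norm_num) (by norm_num) (by norm_num) (by norm_num) (by norm_num) (by norm_num) (by norm_num) (by norm_num)
    (cube_sqrt_geJ (s := 0.8018) (by norm_num) (by norm_num) (by norm_num) (by norm_num))
    (cube_sqrt_geJ (s := 0.9321) (by norm_num) (by norm_num) (by norm_num) (by norm_num))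
    (by norm_num) (by norm_num) (by norm_num) (by norm_num) (by norm_num) (by norm_num) (by norm_num) (by norm_num) (by norm_num) (by norm_num) (by norm_num) (by norm_num) (by norm_num) (by norm_num) (by norm_num) (by norm_num) (by norm_num) (by norm_num)
    (exp_neg_leJ (r := 0.31) 6 (by norm_num) (by norm_num) (by norm_num) (by norm_num))
    (exp_neg_leJ (r := 0.057) 4 (by norm_num) (by norm_num) (by norm_num) (by norm_num))
    (exp_neg_leJ (r := 0.076) 7 (by norm_num) (by norm_num) (by norm_num) (by norm_num))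
    (exp_neg_leJ (r := 0.99) 14 (by norm_num) (by norm_num) (by norm_num) (by norm_num))
    (exp_neg_leJ (r := 0.106) 7 (by norm_num) (by norm_num) (by norm_num) (by norm_num))
    (exp_neg_leJ (r := 0.99) 14 (by norm_num) (by norm_num) (by norm_num) (by norm_num))
    (exp_neg_leJ (r := 0.99) 14 (by norm_num) (by norm_num) (by norm_num) (by norm_num))
    (exp_neg_leJ (r := 0.99) 14 (by norm_num) (by norm_num) (by norm_num) (by norm_num))
    (by norm_num)) (by norm_num) hN hβ.le (by norm_num)

private theorem JD6b_p3_c0_b0_7 {β x y : ℝ} (hβ : 0 < β) (hN : β * 9.944 ≤ 1) (hx1 : 1.2791 ≤ x) (hx2 : x ≤ 1.2991)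
    (hy1 : -0.461 ≤ y) (hy2 : y ≤ -0.241) : ‖HH β (x + y * I) - 1‖ ≤ 0.12 := by
  refine le_epsJ (C := 1.1731) (N0 := 9.944) (J_boxp 1.2791 1.2991 0.461 0 (-0.241) 1.2833 1.3785 1.5046 0.8438 0.4894 3.1535 9.944 1.0742 4.719 1.639 0.4949 0.6416 0.4118 0.7184 1.8847 0.7244 2.271 2.8757 3.5231 0.001696 0.01668 0.0007904 0.0000003101 0.0007444 0.0000003101 0.0000003101 0.0000003101 1.1731
    hβ hN hx1 hx2 hy1 hy2 (by norm_num) (by norm_num) (by linarith) (by norm_num) (by norm_num) (by norm_num) (by norm_num) (by norm_num) (by norm_num) (by norm_num) (by norm_num) (by norm_num) (by norm_num) (by norm_num) (by norm_num) (by norm_num) (by norm_num) (by norm_num) (by norm_num) (by norm_num) (by norm_num) (by norm_num) (by norm_num) (by norm_num)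
    (cube_sqrt_geJ (s := 0.8012) (by norm_num) (by norm_num) (by norm_num) (by norm_num))
    (cube_sqrt_geJ (s := 0.9319) (by norm_num) (by norm_num) (by norm_num) (by norm_num))
    (by norm_num) (by norm_num) (by norm_num) (by norm_num) (by norm_num) (by norm_num) (by norm_num) (by norm_num) (by norm_num) (by norm_num) (by norm_num) (by norm_num) (by norm_num) (by norm_num) (by norm_num) (by norm_num) (by norm_num) (by norm_num)
    (exp_neg_leJ (r := 0.38) 6 (by norm_num) (by norm_num) (by norm_num) (by norm_num))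
    (exp_neg_leJ (r := 0.094) 4 (by norm_num) (by norm_num) (by norm_num) (by norm_num))
    (exp_neg_leJ (r := 0.143) 7 (by norm_num) (by norm_num) (by norm_num) (by norm_num))
    (exp_neg_leJ (r := 0.99) 14 (by norm_num) (by norm_num) (by norm_num) (by norm_num))
    (exp_neg_leJ (r := 0.203) 7 (by norm_num) (by norm_num) (by norm_num) (by norm_num))
    (exp_neg_leJ (r := 0.99) 14 (by norm_num) (by norm_num) (by norm_num) (by norm_num))
    (exp_neg_leJ (r := 0.99) 14 (by norm_num) (by norm_num) (by norm_num) (by norm_num))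
    (exp_neg_leJ (r := 0.99) 14 (by norm_num) (by norm_num) (by norm_num) (by norm_num))
    (by norm_num)) (by norm_num) hN hβ.le (by norm_num)

private theorem JD6b_p3_c0_b0_8 {β x y : ℝ} (hβ : 0 < β) (hN : β * 9.944 ≤ 1) (hx1 : 1.2991 ≤ x) (hx2 : x ≤ 1.3291)
    (hy1 : -0.461 ≤ y) (hy2 : y ≤ -0.241) : ‖HH β (x + y * I) - 1‖ ≤ 0.12 := by
  refine le_epsJ (C := 1.1897) (N0 := 9.944) (J_boxp 1.2991 1.3291 0.461 0 (-0.241) 1.2974 1.4068 1.5306 0.8372 0.4936 3.1535 9.944 1.0844 4.808 1.647 0.4833 0.6486 0.4142 0.7253 1.8678 0.7341 2.2987 2.9157 3.4861 0.001583 0.01628 0.0007377 0.0000003101 0.0006763 0.0000003101 0.0000003101 0.0000003101 1.1897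
    hβ hN hx1 hx2 hy1 hy2 (by norm_num) (by norm_num) (by linarith) (by norm_num) (by norm_num) (by norm_num) (by norm_num) (by norm_num) (by norm_num) (by norm_num) (by norm_num) (by norm_num) (by norm_num) (by norm_num) (by norm_num) (by norm_num) (by norm_num) (by norm_num) (by norm_num) (by norm_num) (by norm_num) (by norm_num) (by norm_num) (by norm_num)
    (cube_sqrt_geJ (s := 0.799) (by norm_num) (by norm_num) (by norm_num) (by norm_num))
    (cube_sqrt_geJ (s := 0.9312) (by norm_num) (by norm_num) (by norm_num) (by norm_num))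
    (by norm_num) (by norm_num) (by norm_num) (by norm_num) (by norm_num) (by norm_num) (by norm_num) (by norm_num) (by norm_num) (by norm_num) (by norm_num) (by norm_num) (by norm_num) (by norm_num) (by norm_num) (by norm_num) (by norm_num) (by norm_num)
    (exp_neg_leJ (r := 0.449) 6 (by norm_num) (by norm_num) (by norm_num) (by norm_num))
    (exp_neg_leJ (r := 0.118) 4 (by norm_num) (by norm_num) (by norm_num) (by norm_num))
    (exp_neg_leJ (r := 0.212) 7 (by norm_num) (by norm_num) (by norm_num) (by norm_num))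
    (exp_neg_leJ (r := 0.99) 14 (by norm_num) (by norm_num) (by norm_num) (by norm_num))
    (exp_neg_leJ (r := 0.299) 7 (by norm_num) (by norm_num) (by norm_num) (by norm_num))
    (exp_neg_leJ (r := 0.99) 14 (by norm_num) (by norm_num) (by norm_num) (by norm_num))
    (exp_neg_leJ (r := 0.99) 14 (by norm_num) (by norm_num) (by norm_num) (by norm_num))
    (exp_neg_leJ (r := 0.99) 14 (by norm_num) (by norm_num) (by norm_num) (by norm_num))
    (by norm_num)) (by norm_num) hN hβ.le (by norm_num)

private theorem JD6b_p3_c0_b0_9 {β x y : ℝ} (hβ : 0 < β) (hN : β * 9.944 ≤ 1) (hx1 : 1.3291 ≤ x) (hx2 : x ≤ 1.3591)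
    (hy1 : -0.461 ≤ y) (hy2 : y ≤ -0.241) : ‖HH β (x + y * I) - 1‖ ≤ 0.12 := by
  refine le_epsJ (C := 1.1755) (N0 := 9.944) (J_boxp 1.3291 1.3591 0.461 0 (-0.241) 1.3185 1.4352 1.5567 0.8242 0.4978 3.1535 9.944 1.0886 4.844 1.65 0.4718 0.6592 0.42 0.7355 1.8509 0.7487 2.3402 2.9757 3.4689 0.001424 0.01536 0.0006669 0.0000003101 0.0005845 0.0000003101 0.0000003101 0.0000003101 1.1755
    hβ hN hx1 hx2 hy1 hy2 (by norm_num) (by norm_num) (by linarith) (by norm_num) (by norm_num) (by norm_num) (by norm_num) (by norm_num) (by norm_num) (by norm_num) (by norm_num) (by norm_num) (by norm_num) (by norm_num) (by norm_num) (by norm_num) (by norm_num) (by norm_num) (by norm_num) (by norm_num) (by norm_num) (by norm_num) (by norm_num) (by norm_num)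
    (cube_sqrt_geJ (s := 0.7982) (by norm_num) (by norm_num) (by norm_num) (by norm_num))
    (cube_sqrt_geJ (s := 0.9309) (by norm_num) (by norm_num) (by norm_num) (by norm_num))
    (by norm_num) (by norm_num) (by norm_num) (by norm_num) (by norm_num) (by norm_num) (by norm_num) (by norm_num) (by norm_num) (by norm_num) (by norm_num) (by norm_num) (by norm_num) (by norm_num) (by norm_num) (by norm_num) (by norm_num) (by norm_num)
    (exp_neg_leJ (r := 0.555) 6 (by norm_num) (by norm_num) (by norm_num) (by norm_num))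
    (exp_neg_leJ (r := 0.176) 4 (by norm_num) (by norm_num) (by norm_num) (by norm_num))
    (exp_neg_leJ (r := 0.313) 7 (by norm_num) (by norm_num) (by norm_num) (by norm_num))
    (exp_neg_leJ (r := 0.99) 14 (by norm_num) (by norm_num) (by norm_num) (by norm_num))
    (exp_neg_leJ (r := 0.445) 7 (by norm_num) (by norm_num) (by norm_num) (by norm_num))
    (exp_neg_leJ (r := 0.99) 14 (by norm_num) (by norm_num) (by norm_num) (by norm_num))
    (exp_neg_leJ (r := 0.99) 14 (by norm_num) (by norm_num) (by norm_num) (by norm_num))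
    (exp_neg_leJ (r := 0.99) 14 (by norm_num) (by norm_num) (by norm_num) (by norm_num))
    (by norm_num)) (by norm_num) hN hβ.le (by norm_num)

private theorem JD6b_p3_c0_b0_10 {β x y : ℝ} (hβ : 0 < β) (hN : β * 9.944 ≤ 1) (hx1 : 1.3591 ≤ x) (hx2 : x ≤ 1.3991)
    (hy1 : -0.461 ≤ y) (hy2 : y ≤ -0.241) : ‖HH β (x + y * I) - 1‖ ≤ 0.12 := by
  refine le_epsJ (C := 1.187) (N0 := 9.944) (J_boxp 1.3591 1.3991 0.461 0 (-0.241) 1.3397 1.4731 1.5918 0.8137 0.5034 3.1535 9.944 1.0996 4.943 1.659 0.4564 0.6698 0.4243 0.7458 1.8283 0.7633 2.3818 3.0357 3.4259 0.001282 0.01472 0.0006017 0.0000003101 0.0005057 0.0000003101 0.0000003101 0.0000003101 1.187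
    hβ hN hx1 hx2 hy1 hy2 (by norm_num) (by norm_num) (by linarith) (by norm_num) (by norm_num) (by norm_num) (by norm_num) (by norm_num) (by norm_num) (by norm_num) (by norm_num) (by norm_num) (by norm_num) (by norm_num) (by norm_num) (by norm_num) (by norm_num) (by norm_num) (by norm_num) (by norm_num) (by norm_num) (by norm_num) (by norm_num) (by norm_num)
    (cube_sqrt_geJ (s := 0.7959) (by norm_num) (by norm_num) (by norm_num) (by norm_num))
    (cube_sqrt_geJ (s := 0.9302) (by norm_num) (by norm_num) (by norm_num) (by norm_num))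
    (by norm_num) (by norm_num) (by norm_num) (by norm_num) (by norm_num) (by norm_num) (by norm_num) (by norm_num) (by norm_num) (by norm_num) (by norm_num) (by norm_num) (by norm_num) (by norm_num) (by norm_num) (by norm_num) (by norm_num) (by norm_num)
    (exp_neg_leJ (r := 0.66) 6 (by norm_num) (by norm_num) (by norm_num) (by norm_num))
    (exp_neg_leJ (r := 0.219) 4 (by norm_num) (by norm_num) (by norm_num) (by norm_num))
    (exp_neg_leJ (r := 0.416) 7 (by norm_num) (by norm_num) (by norm_num) (by norm_num))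
    (exp_neg_leJ (r := 0.99) 14 (by norm_num) (by norm_num) (by norm_num) (by norm_num))
    (exp_neg_leJ (r := 0.59) 7 (by norm_num) (by norm_num) (by norm_num) (by norm_num))
    (exp_neg_leJ (r := 0.99) 14 (by norm_num) (by norm_num) (by norm_num) (by norm_num))
    (exp_neg_leJ (r := 0.99) 14 (by norm_num) (by norm_num) (by norm_num) (by norm_num))
    (exp_neg_leJ (r := 0.99) 14 (by norm_num) (by norm_num) (by norm_num) (by norm_num))
    (by norm_num)) (by norm_num) hN hβ.le (by norm_num)

private theorem JD6b_p3_c0_b0_11 {β x y : ℝ} (hβ : 0 < β) (hN : β * 9.944 ≤ 1) (hx1 : 1.3991 ≤ x) (hx2 : x ≤ 1.4391)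
    (hy1 : -0.461 ≤ y) (hy2 : y ≤ -0.241) : ‖HH β (x + y * I) - 1‖ ≤ 0.12 := by
  refine le_epsJ (C := 1.1699) (N0 := 9.944) (J_boxp 1.3991 1.4391 0.461 0 (-0.241) 1.3678 1.5112 1.627 0.7974 0.5089 3.1535 9.944 1.1049 4.992 1.664 0.441 0.6838 0.432 0.7595 1.8057 0.7827 2.4372 3.1157 3.4024 0.001117 0.01364 0.0005253 0.0000003101 0.0004174 0.0000003101 0.0000003101 0.0000003101 1.1699
    hβ hN hx1 hx2 hy1 hy2 (by norm_num) (by norm_num) (by linarith) (by norm_num) (by norm_num) (by norm_num) (by norm_num) (by norm_num) (by norm_num) (by norm_num) (by norm_num) (by norm_num) (by norm_num) (by norm_num) (by norm_num) (by norm_num) (by norm_num) (by norm_num) (by norm_num) (by norm_num) (by norm_num) (by norm_num) (by norm_num) (by norm_num)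
    (cube_sqrt_geJ (s := 0.7947) (by norm_num) (by norm_num) (by norm_num) (by norm_num))
    (cube_sqrt_geJ (s := 0.9299) (by norm_num) (by norm_num) (by norm_num) (by norm_num))
    (by norm_num) (by norm_num) (by norm_num) (by norm_num) (by norm_num) (by norm_num) (by norm_num) (by norm_num) (by norm_num) (by norm_num) (by norm_num) (by norm_num) (by norm_num) (by norm_num) (by norm_num) (by norm_num) (by norm_num) (by norm_num)
    (exp_neg_leJ (r := 0.799) 6 (by norm_num) (by norm_num) (by norm_num) (by norm_num))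
    (exp_neg_leJ (r := 0.295) 4 (by norm_num) (by norm_num) (by norm_num) (by norm_num))
    (exp_neg_leJ (r := 0.552) 7 (by norm_num) (by norm_num) (by norm_num) (by norm_num))
    (exp_neg_leJ (r := 0.99) 14 (by norm_num) (by norm_num) (by norm_num) (by norm_num))
    (exp_neg_leJ (r := 0.783) 7 (by norm_num) (by norm_num) (by norm_num) (by norm_num))
    (exp_neg_leJ (r := 0.99) 14 (by norm_num) (by norm_num) (by norm_num) (by norm_num))
    (exp_neg_leJ (r := 0.99) 14 (by norm_num) (by norm_num) (by norm_num) (by norm_num))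
    (exp_neg_leJ (r := 0.99) 14 (by norm_num) (by norm_num) (by norm_num) (by norm_num))
    (by norm_num)) (by norm_num) hN hβ.le (by norm_num)

private theorem JD6b_p3_c0_b0_12 {β x y : ℝ} (hβ : 0 < β) (hN : β * 9.944 ≤ 1) (hx1 : 1.4391 ≤ x) (hx2 : x ≤ 1.4891)
    (hy1 : -0.461 ≤ y) (hy2 : y ≤ -0.241) : ‖HH β (x + y * I) - 1‖ ≤ 0.12 := by
  refine le_epsJ (C := 1.1775) (N0 := 9.944) (J_boxp 1.4391 1.4891 0.461 0 (-0.241) 1.396 1.5589 1.6714 0.7839 0.5158 3.1535 9.944 1.1167 5.102 1.673 0.4218 0.6979 0.4381 0.7732 1.7774 0.8021 2.4925 3.1957 3.3527 0.000972 0.01284 0.0004587 0.0000003101 0.0003448 0.0000003101 0.0000003101 0.0000003101 1.1775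
    hβ hN hx1 hx2 hy1 hy2 (by norm_num) (by norm_num) (by linarith) (by norm_num) (by norm_num) (by norm_num) (by norm_num) (by norm_num) (by norm_num) (by norm_num) (by norm_num) (by norm_num) (by norm_num) (by norm_num) (by norm_num) (by norm_num) (by norm_num) (by norm_num) (by norm_num) (by norm_num) (by norm_num) (by norm_num) (by norm_num) (by norm_num)
    (cube_sqrt_geJ (s := 0.7923) (by norm_num) (by norm_num) (by norm_num) (by norm_num))
    (cube_sqrt_geJ (s := 0.9291) (by norm_num) (by norm_num) (by norm_num) (by norm_num))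
    (by norm_num) (by norm_num) (by norm_num) (by norm_num) (by norm_num) (by norm_num) (by norm_num) (by norm_num) (by norm_num) (by norm_num) (by norm_num) (by norm_num) (by norm_num) (by norm_num) (by norm_num) (by norm_num) (by norm_num) (by norm_num)
    (exp_neg_leJ (r := 0.939) 6 (by norm_num) (by norm_num) (by norm_num) (by norm_num))
    (exp_neg_leJ (r := 0.356) 4 (by norm_num) (by norm_num) (by norm_num) (by norm_num))
    (exp_neg_leJ (r := 0.688) 7 (by norm_num) (by norm_num) (by norm_num) (by norm_num))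
    (exp_neg_leJ (r := 0.99) 14 (by norm_num) (by norm_num) (by norm_num) (by norm_num))
    (exp_neg_leJ (r := 0.976) 7 (by norm_num) (by norm_num) (by norm_num) (by norm_num))
    (exp_neg_leJ (r := 0.99) 14 (by norm_num) (by norm_num) (by norm_num) (by norm_num))
    (exp_neg_leJ (r := 0.99) 14 (by norm_num) (by norm_num) (by norm_num) (by norm_num))
    (exp_neg_leJ (r := 0.99) 14 (by norm_num) (by norm_num) (by norm_num) (by norm_num))
    (by norm_num)) (by norm_num) hN hβ.le (by norm_num)

private theorem JD6b_p3_c0_b0_13 {β x y : ℝ} (hβ : 0 < β) (hN : β * 9.944 ≤ 1) (hx1 : 1.4891 ≤ x) (hx2 : x ≤ 1.5491)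
    (hy1 : -0.461 ≤ y) (hy2 : y ≤ -0.241) : ‖HH β (x + y * I) - 1‖ ≤ 0.12 := by
  refine le_epsJ (C := 1.1814) (N0 := 9.944) (J_boxp 1.4891 1.5491 0.461 0 (-0.241) 1.4312 1.6163 1.7251 0.7672 0.524 3.1535 9.944 1.1294 5.225 1.684 0.3987 0.7155 0.4462 0.7903 1.7434 0.8264 2.5618 3.2957 3.2967 0.0008137 0.01184 0.0003874 0.0000003101 0.0002701 0.0000003101 0.0000003101 0.0000003101 1.1814
    hβ hN hx1 hx2 hy1 hy2 (by norm_num) (by norm_num) (by linarith) (by norm_num) (by norm_num) (by norm_num) (by norm_num) (by norm_num) (by norm_num) (by norm_num) (by norm_num) (by norm_num) (by norm_num) (by norm_num) (by norm_num) (by norm_num) (by norm_num) (by norm_num) (by norm_num) (by norm_num) (by norm_num) (by norm_num) (by norm_num) (by norm_num)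
    (cube_sqrt_geJ (s := 0.7896) (by norm_num) (by norm_num) (by norm_num) (by norm_num))
    (cube_sqrt_geJ (s := 0.9282) (by norm_num) (by norm_num) (by norm_num) (by norm_num))
    (by norm_num) (by norm_num) (by norm_num) (by norm_num) (by norm_num) (by norm_num) (by norm_num) (by norm_num) (by norm_num) (by norm_num) (by norm_num) (by norm_num) (by norm_num) (by norm_num) (by norm_num) (by norm_num) (by norm_num) (by norm_num)
    (exp_neg_leJ (r := 0.114) 7 (by norm_num) (by norm_num) (by norm_num) (by norm_num))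
    (exp_neg_leJ (r := 0.437) 4 (by norm_num) (by norm_num) (by norm_num) (by norm_num))
    (exp_neg_leJ (r := 0.858) 7 (by norm_num) (by norm_num) (by norm_num) (by norm_num))
    (exp_neg_leJ (r := 0.99) 14 (by norm_num) (by norm_num) (by norm_num) (by norm_num))
    (exp_neg_leJ (r := 0.217) 8 (by norm_num) (by norm_num) (by norm_num) (by norm_num))
    (exp_neg_leJ (r := 0.99) 14 (by norm_num) (by norm_num) (by norm_num) (by norm_num))
    (exp_neg_leJ (r := 0.99) 14 (by norm_num) (by norm_num) (by norm_num) (by norm_num))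
    (exp_neg_leJ (r := 0.99) 14 (by norm_num) (by norm_num) (by norm_num) (by norm_num))
    (by norm_num)) (by norm_num) hN hβ.le (by norm_num)

private theorem JD6b_p3_c0_b0_14 {β x y : ℝ} (hβ : 0 < β) (hN : β * 9.944 ≤ 1) (hx1 : 1.5491 ≤ x) (hx2 : x ≤ 1.6191)
    (hy1 : -0.461 ≤ y) (hy2 : y ≤ -0.241) : ‖HH β (x + y * I) - 1‖ ≤ 0.12 := by
  refine le_epsJ (C := 1.1811) (N0 := 9.944) (J_boxp 1.5491 1.6191 0.461 0 (-0.241) 1.4735 1.6835 1.7882 0.7477 0.5335 3.1535 9.944 1.1426 5.356 1.695 0.3718 0.7367 0.4561 0.8108 1.7037 0.8556 2.6449 3.4157 3.234 0.0006589 0.01073 0.0003153 0.0000003101 0.0002019 0.0000003101 0.0000003101 0.0000003101 1.1811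
    hβ hN hx1 hx2 hy1 hy2 (by norm_num) (by norm_num) (by linarith) (by norm_num) (by norm_num) (by norm_num) (by norm_num) (by norm_num) (by norm_num) (by norm_num) (by norm_num) (by norm_num) (by norm_num) (by norm_num) (by norm_num) (by norm_num) (by norm_num) (by norm_num) (by norm_num) (by norm_num) (by norm_num) (by norm_num) (by norm_num) (by norm_num)
    (cube_sqrt_geJ (s := 0.7868) (by norm_num) (by norm_num) (by norm_num) (by norm_num))
    (cube_sqrt_geJ (s := 0.9274) (by norm_num) (by norm_num) (by norm_num) (by norm_num))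
    (by norm_num) (by norm_num) (by norm_num) (by norm_num) (by norm_num) (by norm_num) (by norm_num) (by norm_num) (by norm_num) (by norm_num) (by norm_num) (by norm_num) (by norm_num) (by norm_num) (by norm_num) (by norm_num) (by norm_num) (by norm_num)
    (exp_neg_leJ (r := 0.325) 7 (by norm_num) (by norm_num) (by norm_num) (by norm_num))
    (exp_neg_leJ (r := 0.535) 4 (by norm_num) (by norm_num) (by norm_num) (by norm_num))
    (exp_neg_leJ (r := 0.062) 8 (by norm_num) (by norm_num) (by norm_num) (by norm_num))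
    (exp_neg_leJ (r := 0.99) 14 (by norm_num) (by norm_num) (by norm_num) (by norm_num))
    (exp_neg_leJ (r := 0.508) 8 (by norm_num) (by norm_num) (by norm_num) (by norm_num))
    (exp_neg_leJ (r := 0.99) 14 (by norm_num) (by norm_num) (by norm_num) (by norm_num))
    (exp_neg_leJ (r := 0.99) 14 (by norm_num) (by norm_num) (by norm_num) (by norm_num))
    (exp_neg_leJ (r := 0.99) 14 (by norm_num) (by norm_num) (by norm_num) (by norm_num))
    (by norm_num)) (by norm_num) hN hβ.le (by norm_num)

private theorem JD6b_p3_c0_b0_15 {β x y : ℝ} (hβ : 0 < β) (hN : β * 9.944 ≤ 1) (hx1 : 1.6191 ≤ x) (hx2 : x ≤ 1.6991)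
    (hy1 : -0.461 ≤ y) (hy2 : y ≤ -0.241) : ‖HH β (x + y * I) - 1‖ ≤ 0.12 := by
  refine le_epsJ (C := 1.1778) (N0 := 9.944) (J_boxp 1.6191 1.6991 0.461 0 (-0.241) 1.5227 1.7606 1.861 0.7261 0.5443 3.1535 9.944 1.1563 5.496 1.707 0.341 0.7613 0.4679 0.8348 1.6582 0.8896 2.7418 3.5557 3.1644 0.0005159 0.009549 0.0002483 0.0000003101 0.0001443 0.0000003101 0.0000003101 0.0000003101 1.1778
    hβ hN hx1 hx2 hy1 hy2 (by norm_num) (by norm_num) (by linarith) (by norm_num) (by norm_num) (by norm_num) (by norm_num) (by norm_num) (by norm_num) (by norm_num) (by norm_num) (by norm_num) (by norm_num) (by norm_num) (by norm_num) (by norm_num) (by norm_num) (by norm_num) (by norm_num) (by norm_num) (by norm_num) (by norm_num) (by norm_num) (by norm_num)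
    (cube_sqrt_geJ (s := 0.7839) (by norm_num) (by norm_num) (by norm_num) (by norm_num))
    (cube_sqrt_geJ (s := 0.9265) (by norm_num) (by norm_num) (by norm_num) (by norm_num))
    (by norm_num) (by norm_num) (by norm_num) (by norm_num) (by norm_num) (by norm_num) (by norm_num) (by norm_num) (by norm_num) (by norm_num) (by norm_num) (by norm_num) (by norm_num) (by norm_num) (by norm_num) (by norm_num) (by norm_num) (by norm_num)
    (exp_neg_leJ (r := 0.57) 7 (by norm_num) (by norm_num) (by norm_num) (by norm_num))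
    (exp_neg_leJ (r := 0.652) 4 (by norm_num) (by norm_num) (by norm_num) (by norm_num))
    (exp_neg_leJ (r := 0.301) 8 (by norm_num) (by norm_num) (by norm_num) (by norm_num))
    (exp_neg_leJ (r := 0.99) 14 (by norm_num) (by norm_num) (by norm_num) (by norm_num))
    (exp_neg_leJ (r := 0.846) 8 (by norm_num) (by norm_num) (by norm_num) (by norm_num))
    (exp_neg_leJ (r := 0.99) 14 (by norm_num) (by norm_num) (by norm_num) (by norm_num))
    (exp_neg_leJ (r := 0.99) 14 (by norm_num) (by norm_num) (by norm_num) (by norm_num))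
    (exp_neg_leJ (r := 0.99) 14 (by norm_num) (by norm_num) (by norm_num) (by norm_num))
    (by norm_num)) (by norm_num) hN hβ.le (by norm_num)

private theorem JD6b_p3_c0_b0_16 {β x y : ℝ} (hβ : 0 < β) (hN : β * 9.944 ≤ 1) (hx1 : 1.6991 ≤ x) (hx2 : x ≤ 1.7891)
    (hy1 : -0.461 ≤ y) (hy2 : y ≤ -0.241) : ‖HH β (x + y * I) - 1‖ ≤ 0.12 := by
  refine le_epsJ (C := 1.1704) (N0 := 9.944) (J_boxp 1.6991 1.7891 0.461 0 (-0.241) 1.5791 1.8476 1.9435 0.7026 0.5562 3.1535 9.944 1.1701 5.642 1.719 0.3064 0.7895 0.4815 0.8622 1.607 0.9284 2.8525 3.7157 3.0879 0.0003905 0.008341 0.0001893 0.0000003101 0.00009786 0.0000003101 0.0000003101 0.0000003101 1.1704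
    hβ hN hx1 hx2 hy1 hy2 (by norm_num) (by norm_num) (by linarith) (by norm_num) (by norm_num) (by norm_num) (by norm_num) (by norm_num) (by norm_num) (by norm_num) (by norm_num) (by norm_num) (by norm_num) (by norm_num) (by norm_num) (by norm_num) (by norm_num) (by norm_num) (by norm_num) (by norm_num) (by norm_num) (by norm_num) (by norm_num) (by norm_num)
    (cube_sqrt_geJ (s := 0.781) (by norm_num) (by norm_num) (by norm_num) (by norm_num))
    (cube_sqrt_geJ (s := 0.9255) (by norm_num) (by norm_num) (by norm_num) (by norm_num))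
    (by norm_num) (by norm_num) (by norm_num) (by norm_num) (by norm_num) (by norm_num) (by norm_num) (by norm_num) (by norm_num) (by norm_num) (by norm_num) (by norm_num) (by norm_num) (by norm_num) (by norm_num) (by norm_num) (by norm_num) (by norm_num)
    (exp_neg_leJ (r := 0.85) 7 (by norm_num) (by norm_num) (by norm_num) (by norm_num))
    (exp_neg_leJ (r := 0.788) 4 (by norm_num) (by norm_num) (by norm_num) (by norm_num))
    (exp_neg_leJ (r := 0.573) 8 (by norm_num) (by norm_num) (by norm_num) (by norm_num))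
    (exp_neg_leJ (r := 0.99) 14 (by norm_num) (by norm_num) (by norm_num) (by norm_num))
    (exp_neg_leJ (r := 0.232) 9 (by norm_num) (by norm_num) (by norm_num) (by norm_num))
    (exp_neg_leJ (r := 0.99) 14 (by norm_num) (by norm_num) (by norm_num) (by norm_num))
    (exp_neg_leJ (r := 0.99) 14 (by norm_num) (by norm_num) (by norm_num) (by norm_num))
    (exp_neg_leJ (r := 0.99) 14 (by norm_num) (by norm_num) (by norm_num) (by norm_num))
    (by norm_num)) (by norm_num) hN hβ.le (by norm_num)

private theorem JD6b_p3_c0_b0_17 {β x y : ℝ} (hβ : 0 < β) (hN : β * 9.944 ≤ 1) (hx1 : 1.7891 ≤ x) (hx2 : x ≤ 1.8414)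
    (hy1 : -0.461 ≤ y) (hy2 : y ≤ -0.241) : ‖HH β (x + y * I) - 1‖ ≤ 0.12 := by
  refine le_epsJ (C := 1.0607) (N0 := 9.944) (J_boxp 1.7891 1.8414 0.461 0 (-0.241) 1.6425 1.8983 1.9917 0.6705 0.5631 3.1535 9.944 1.1558 5.491 1.706 0.2863 0.8212 0.5048 0.893 1.5772 0.9721 2.9772 3.8957 3.1301 0.0002842 0.006612 0.0001396 0.0000003101 0.00006345 0.0000003101 0.0000003101 0.0000003101 1.0607
    hβ hN hx1 hx2 hy1 hy2 (by norm_num) (by norm_num) (by linarith) (by norm_num) (by norm_num) (by norm_num) (by norm_num) (by norm_num) (by norm_num) (by norm_num) (by norm_num) (by norm_num) (by norm_num) (by norm_num) (by norm_num) (by norm_num) (by norm_num) (by norm_num) (by norm_num) (by norm_num) (by norm_num) (by norm_num) (by norm_num) (by norm_num)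
    (cube_sqrt_geJ (s := 0.784) (by norm_num) (by norm_num) (by norm_num) (by norm_num))
    (cube_sqrt_geJ (s := 0.9265) (by norm_num) (by norm_num) (by norm_num) (by norm_num))
    (by norm_num) (by norm_num) (by norm_num) (by norm_num) (by norm_num) (by norm_num) (by norm_num) (by norm_num) (by norm_num) (by norm_num) (by norm_num) (by norm_num) (by norm_num) (by norm_num) (by norm_num) (by norm_num) (by norm_num) (by norm_num)
    (exp_neg_leJ (r := 0.166) 8 (by norm_num) (by norm_num) (by norm_num) (by norm_num))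
    (exp_neg_leJ (r := 0.019) 5 (by norm_num) (by norm_num) (by norm_num) (by norm_num))
    (exp_neg_leJ (r := 0.879) 8 (by norm_num) (by norm_num) (by norm_num) (by norm_num))
    (exp_neg_leJ (r := 0.99) 14 (by norm_num) (by norm_num) (by norm_num) (by norm_num))
    (exp_neg_leJ (r := 0.666) 9 (by norm_num) (by norm_num) (by norm_num) (by norm_num))
    (exp_neg_leJ (r := 0.99) 14 (by norm_num) (by norm_num) (by norm_num) (by norm_num))
    (exp_neg_leJ (r := 0.99) 14 (by norm_num) (by norm_num) (by norm_num) (by norm_num))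
    (exp_neg_leJ (r := 0.99) 14 (by norm_num) (by norm_num) (by norm_num) (by norm_num))
    (by norm_num)) (by norm_num) hN hβ.le (by norm_num)

private theorem JD6b_p3_c0_b1_0 {β x y : ℝ} (hβ : 0 < β) (hN : β * 9.944 ≤ 1) (hx1 : 1.1891 ≤ x) (hx2 : x ≤ 1.4891)
    (hy1 : -0.241 ≤ y) (hy2 : y ≤ -0.073) : ‖HH β (x + y * I) - 1‖ ≤ 0.12 := by
  refine le_epsJ (C := 1.1704) (N0 := 9.944) (J_boxp 1.1891 1.4891 0.241 0 (-0.073) 1.3762 1.5085 1.7541 0.8204 0.5284 3.1535 9.944 1.0962 4.913 1.657 0.6249 0.688 0.4366 1.0349 2.4815 0.8009 2.1464 3.2937 2.9897 0.001071 0.01303 0.00003394 0.0000003101 0.0003489 0.0000003101 0.0000003101 0.0000003101 1.1704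
    hβ hN hx1 hx2 hy1 hy2 (by norm_num) (by norm_num) (by linarith) (by norm_num) (by norm_num) (by norm_num) (by norm_num) (by norm_num) (by norm_num) (by norm_num) (by norm_num) (by norm_num) (by norm_num) (by norm_num) (by norm_num) (by norm_num) (by norm_num) (by norm_num) (by norm_num) (by norm_num) (by norm_num) (by norm_num) (by norm_num) (by norm_num)
    (cube_sqrt_geJ (s := 0.7966) (by norm_num) (by norm_num) (by norm_num) (by norm_num))
    (cube_sqrt_geJ (s := 0.9304) (by norm_num) (by norm_num) (by norm_num) (by norm_num))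
    (by norm_num) (by norm_num) (by norm_num) (by norm_num) (by norm_num) (by norm_num) (by norm_num) (by norm_num) (by norm_num) (by norm_num) (by norm_num) (by norm_num) (by norm_num) (by norm_num) (by norm_num) (by norm_num) (by norm_num) (by norm_num)
    (exp_neg_leJ (r := 0.841) 6 (by norm_num) (by norm_num) (by norm_num) (by norm_num))
    (exp_neg_leJ (r := 0.341) 4 (by norm_num) (by norm_num) (by norm_num) (by norm_num))
    (exp_neg_leJ (r := 0.291) 10 (by norm_num) (by norm_num) (by norm_num) (by norm_num))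
    (exp_neg_leJ (r := 0.99) 14 (by norm_num) (by norm_num) (by norm_num) (by norm_num))
    (exp_neg_leJ (r := 0.964) 7 (by norm_num) (by norm_num) (by norm_num) (by norm_num))
    (exp_neg_leJ (r := 0.99) 14 (by norm_num) (by norm_num) (by norm_num) (by norm_num))
    (exp_neg_leJ (r := 0.99) 14 (by norm_num) (by norm_num) (by norm_num) (by norm_num))
    (exp_neg_leJ (r := 0.99) 14 (by norm_num) (by norm_num) (by norm_num) (by norm_num))
    (by norm_num)) (by norm_num) hN hβ.le (by norm_num)

private theorem JD6b_p3_c0_b1_1 {β x y : ℝ} (hβ : 0 < β) (hN : β * 9.944 ≤ 1) (hx1 : 1.4891 ≤ x) (hx2 : x ≤ 1.8414)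
    (hy1 : -0.241 ≤ y) (hy2 : y ≤ -0.073) : ‖HH β (x + y * I) - 1‖ ≤ 0.12 := by
  refine le_epsJ (C := 1.1927) (N0 := 9.944) (J_boxp 1.4891 1.8414 0.241 0 (-0.073) 1.5874 1.8572 2.0616 0.718 0.5729 3.1535 9.944 1.17 5.642 1.718 0.4894 0.7936 0.4841 1.1376 2.2788 0.9466 2.5618 3.8937 2.6418 0.000375 0.008136 0.00001223 0.0000003101 0.00008175 0.0000003101 0.0000003101 0.0000003101 1.1927
    hβ hN hx1 hx2 hy1 hy2 (by norm_num) (by norm_num) (by linarith) (by norm_num) (by norm_num) (by norm_num) (by norm_num) (by norm_num) (by norm_num) (by norm_num) (by norm_num) (by norm_num) (by norm_num) (by norm_num) (by norm_num) (by norm_num) (by norm_num) (by norm_num) (by norm_num) (by norm_num) (by norm_num) (by norm_num) (by norm_num) (by norm_num)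
    (cube_sqrt_geJ (s := 0.781) (by norm_num) (by norm_num) (by norm_num) (by norm_num))
    (cube_sqrt_geJ (s := 0.9256) (by norm_num) (by norm_num) (by norm_num) (by norm_num))
    (by norm_num) (by norm_num) (by norm_num) (by norm_num) (by norm_num) (by norm_num) (by norm_num) (by norm_num) (by norm_num) (by norm_num) (by norm_num) (by norm_num) (by norm_num) (by norm_num) (by norm_num) (by norm_num) (by norm_num) (by norm_num)
    (exp_neg_leJ (r := 0.891) 7 (by norm_num) (by norm_num) (by norm_num) (by norm_num))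
    (exp_neg_leJ (r := 0.813) 4 (by norm_num) (by norm_num) (by norm_num) (by norm_num))
    (exp_neg_leJ (r := 0.312) 11 (by norm_num) (by norm_num) (by norm_num) (by norm_num))
    (exp_neg_leJ (r := 0.99) 14 (by norm_num) (by norm_num) (by norm_num) (by norm_num))
    (exp_neg_leJ (r := 0.412) 9 (by norm_num) (by norm_num) (by norm_num) (by norm_num))
    (exp_neg_leJ (r := 0.99) 14 (by norm_num) (by norm_num) (by norm_num) (by norm_num))
    (exp_neg_leJ (r := 0.99) 14 (by norm_num) (by norm_num) (by norm_num) (by norm_num))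
    (exp_neg_leJ (r := 0.99) 14 (by norm_num) (by norm_num) (by norm_num) (by norm_num))
    (by norm_num)) (by norm_num) hN hβ.le (by norm_num)

private theorem JD6b_p3_c0 {κ t β : ℝ} (h : DomR κ t) (hβ : 0 < β) (hk1 : 1.1 ≤ κ) (hk2 : κ ≤ 1.25)
    (ht1 : -0.576 ≤ t + κ) (ht2 : t + κ ≤ -0.4398) (hR0 : β * 10 ≤ κ) (hR : β * (4.95 * (1 + κ ^ 2)) ≤ κ) :
    ∀ s : ℂ, ‖s - sg κ t‖ ≤ 0.15 → ‖HH β s - 1‖ ≤ 0.12 := by
  have hN : β * 9.944 ≤ 1 := bNC' hβ hk1 (by norm_num) (by norm_num) hR (by norm_num)
  have hy1 : -0.311 ≤ sy κ t := syL_ge h 1.1 1.25 0.576 0.311 0.73271 0.73272 0.1926 0.18229 0.20716 hk1 hk2 (by linarith) (by norm_num) (by norm_num) (by norm_num)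
    (expm_ge (by norm_num) (by norm_num) (by norm_num) (by norm_num)) (expm_le (by norm_num) (by norm_num) (by norm_num)) (by norm_num)
    (by norm_num) (by norm_num) (by norm_num) (by norm_num) (by norm_num) (by norm_num)
  have hy2 : sy κ t ≤ -0.223 := syL_le h 1.1 1.25 0.4398 0.223 0.80011 0.80012 0.14273 0.16221 hk1 hk2 (by linarith) (by norm_num) (by norm_num) (by norm_num)
    (expm_ge (by norm_num) (by norm_num) (by norm_num) (by norm_num)) (expm_le (by norm_num) (by norm_num) (by norm_num)) (by norm_num)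
    (by norm_num) (by norm_num) (by norm_num) (by norm_num) (by norm_num) (by norm_num)
  have hx1 : 1.3391 ≤ sx κ t := sx_lo h 1.1 (-0.223) 0.311 1.24982 1.3391 hk1 (by norm_num) hy2 (abs_le.2 ⟨by linarith, by linarith⟩) (by rw [neg_neg]; exact expn_ge (by norm_num) (by norm_num)) (by norm_num) (by norm_num)
  have hx2 : sx κ t ≤ 1.6914 := sx_hi h 1.25 (-0.311) 0.223 1.36479 1.6914 hk2 hy1 (by norm_num) (by rw [abs_of_nonpos (by linarith)]; linarith) (by rw [neg_neg]; exact expn_le (by norm_num) (by norm_num) (by norm_num)) (by norm_num) (by norm_num)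
  intro s hs
  have hs' : ‖s - ((sx κ t : ℂ) + (sy κ t : ℂ) * I)‖ ≤ 0.15 := hs
  obtain ⟨es, ⟨s1, s2⟩, ⟨s3, s4⟩⟩ := disc_split hs'
  have X1 : 1.1891 ≤ s.re := by linarith
  have X2 : s.re ≤ 1.8414 := by linarith
  have Y1 : (-0.461) ≤ s.im := by linarith
  have Y2 : s.im ≤ (-0.073) := by linarith
  rw [es]
  rcases le_total s.im (-0.241) with f0 | g0
  · rcases le_total s.re 1.1991 with u0 | v0
    · exact JD6b_p3_c0_b0_0 hβ hN (by linarith) (by linarith) (by linarith) (by linarith)
    rcases le_total s.re 1.2091 with u1 | v1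
    · exact JD6b_p3_c0_b0_1 hβ hN (by linarith) (by linarith) (by linarith) (by linarith)
    rcases le_total s.re 1.2191 with u2 | v2
    · exact JD6b_p3_c0_b0_2 hβ hN (by linarith) (by linarith) (by linarith) (by linarith)
    rcases le_total s.re 1.2291 with u3 | v3
    · exact JD6b_p3_c0_b0_3 hβ hN (by linarith) (by linarith) (by linarith) (by linarith)
    rcases le_total s.re 1.2391 with u4 | v4
    · exact JD6b_p3_c0_b0_4 hβ hN (by linarith) (by linarith) (by linarith) (by linarith)
    rcases le_total s.re 1.2591 with u5 | v5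
    · exact JD6b_p3_c0_b0_5 hβ hN (by linarith) (by linarith) (by linarith) (by linarith)
    rcases le_total s.re 1.2791 with u6 | v6
    · exact JD6b_p3_c0_b0_6 hβ hN (by linarith) (by linarith) (by linarith) (by linarith)
    rcases le_total s.re 1.2991 with u7 | v7
    · exact JD6b_p3_c0_b0_7 hβ hN (by linarith) (by linarith) (by linarith) (by linarith)
    rcases le_total s.re 1.3291 with u8 | v8
    · exact JD6b_p3_c0_b0_8 hβ hN (by linarith) (by linarith) (by linarith) (by linarith)
    rcases le_total s.re 1.3591 with u9 | v9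
    · exact JD6b_p3_c0_b0_9 hβ hN (by linarith) (by linarith) (by linarith) (by linarith)
    rcases le_total s.re 1.3991 with u10 | v10
    · exact JD6b_p3_c0_b0_10 hβ hN (by linarith) (by linarith) (by linarith) (by linarith)
    rcases le_total s.re 1.4391 with u11 | v11
    · exact JD6b_p3_c0_b0_11 hβ hN (by linarith) (by linarith) (by linarith) (by linarith)
    rcases le_total s.re 1.4891 with u12 | v12
    · exact JD6b_p3_c0_b0_12 hβ hN (by linarith) (by linarith) (by linarith) (by linarith)
    rcases le_total s.re 1.5491 with u13 | v13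
    · exact JD6b_p3_c0_b0_13 hβ hN (by linarith) (by linarith) (by linarith) (by linarith)
    rcases le_total s.re 1.6191 with u14 | v14
    · exact JD6b_p3_c0_b0_14 hβ hN (by linarith) (by linarith) (by linarith) (by linarith)
    rcases le_total s.re 1.6991 with u15 | v15
    · exact JD6b_p3_c0_b0_15 hβ hN (by linarith) (by linarith) (by linarith) (by linarith)
    rcases le_total s.re 1.7891 with u16 | v16
    · exact JD6b_p3_c0_b0_16 hβ hN (by linarith) (by linarith) (by linarith) (by linarith)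
    exact JD6b_p3_c0_b0_17 hβ hN (by linarith) (by linarith) (by linarith) (by linarith)
  rcases le_total s.re 1.4891 with u0 | v0
  · exact JD6b_p3_c0_b1_0 hβ hN (by linarith) (by linarith) (by linarith) (by linarith)
  exact JD6b_p3_c0_b1_1 hβ hN (by linarith) (by linarith) (by linarith) (by linarith)

theorem JD6b_3 {κ t β : ℝ} (h : DomR κ t) (hβ : 0 < β) (hk1 : 1.1 ≤ κ) (hk2 : κ ≤ 1.25)
    (ht1 : -0.576 ≤ t + κ) (ht2 : t + κ ≤ -0.4398) (hR0 : β * 10 ≤ κ) (hR : β * (4.95 * (1 + κ ^ 2)) ≤ κ) :
    ∀ s : ℂ, ‖s - sg κ t‖ ≤ 0.15 → ‖HH β s - 1‖ ≤ 0.12 := by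
  exact JD6b_p3_c0 h hβ hk1 hk2 ht1 ht2 hR0 hR


private theorem JD6b_p4_c0_b0_0 {β x y : ℝ} (hβ : 0 < β) (hN : β * 10.147 ≤ 1) (hx1 : 1.3685 ≤ x) (hx2 : x ≤ 1.3885)
    (hy1 : -0.444 ≤ y) (hy2 : y ≤ -0.063) : ‖HH β (x + y * I) - 1‖ ≤ 0.11 := by
  refine le_epsJ (C := 1.0939) (N0 := 10.147) (J_boxp 1.3685 1.3885 0.444 0 (-0.063) 1.3584 1.4578 1.6751 0.8175 0.5164 3.1855 10.147 1.0732 4.71 1.638 0.4762 0.6791 0.4362 0.7758 1.889 0.7771 2.3948 3.1007 3.4863 0.001021 0.01197 0.0003821 0.0000003101 0.0003772 0.0000003101 0.0000003101 0.0000003101 1.0939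
    hβ hN hx1 hx2 hy1 hy2 (by norm_num) (by norm_num) (by linarith) (by norm_num) (by norm_num) (by norm_num) (by norm_num) (by norm_num) (by norm_num) (by norm_num) (by norm_num) (by norm_num) (by norm_num) (by norm_num) (by norm_num) (by norm_num) (by norm_num) (by norm_num) (by norm_num) (by norm_num) (by norm_num) (by norm_num) (by norm_num) (by norm_num)
    (cube_sqrt_geJ (s := 0.8014) (by norm_num) (by norm_num) (by norm_num) (by norm_num))
    (cube_sqrt_geJ (s := 0.9319) (by norm_num) (by norm_num) (by norm_num) (by norm_num))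
    (by norm_num) (by norm_num) (by norm_num) (by norm_num) (by norm_num) (by norm_num) (by norm_num) (by norm_num) (by norm_num) (by norm_num) (by norm_num) (by norm_num) (by norm_num) (by norm_num) (by norm_num) (by norm_num) (by norm_num) (by norm_num)
    (exp_neg_leJ (r := 0.89) 6 (by norm_num) (by norm_num) (by norm_num) (by norm_num))
    (exp_neg_leJ (r := 0.426) 4 (by norm_num) (by norm_num) (by norm_num) (by norm_num))
    (exp_neg_leJ (r := 0.872) 7 (by norm_num) (by norm_num) (by norm_num) (by norm_num))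
    (exp_neg_leJ (r := 0.99) 14 (by norm_num) (by norm_num) (by norm_num) (by norm_num))
    (exp_neg_leJ (r := 0.885) 7 (by norm_num) (by norm_num) (by norm_num) (by norm_num))
    (exp_neg_leJ (r := 0.99) 14 (by norm_num) (by norm_num) (by norm_num) (by norm_num))
    (exp_neg_leJ (r := 0.99) 14 (by norm_num) (by norm_num) (by norm_num) (by norm_num))
    (exp_neg_leJ (r := 0.99) 14 (by norm_num) (by norm_num) (by norm_num) (by norm_num))
    (by norm_num)) (by norm_num) hN hβ.le (by norm_num)

private theorem JD6b_p4_c0_b0_1 {β x y : ℝ} (hβ : 0 < β) (hN : β * 10.147 ≤ 1) (hx1 : 1.3885 ≤ x) (hx2 : x ≤ 1.4185)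
    (hy1 : -0.444 ≤ y) (hy2 : y ≤ -0.063) : ‖HH β (x + y * I) - 1‖ ≤ 0.11 := by
  refine le_epsJ (C := 1.1101) (N0 := 10.147) (J_boxp 1.3885 1.4185 0.444 0 (-0.063) 1.3724 1.4864 1.7001 0.811 0.5202 3.1855 10.147 1.0831 4.796 1.646 0.4646 0.6861 0.4384 0.7827 1.8721 0.7868 2.4225 3.1407 3.4486 0.0009512 0.01171 0.0003566 0.0000003101 0.0003424 0.0000003101 0.0000003101 0.0000003101 1.1101
    hβ hN hx1 hx2 hy1 hy2 (by norm_num) (by norm_num) (by linarith) (by norm_num) (by norm_num) (by norm_num) (by norm_num) (by norm_num) (by norm_num) (by norm_num) (by norm_num) (by norm_num) (by norm_num) (by norm_num) (by norm_num) (by norm_num) (by norm_num) (by norm_num) (by norm_num) (by norm_num) (by norm_num) (by norm_num) (by norm_num) (by norm_num)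
    (cube_sqrt_geJ (s := 0.7993) (by norm_num) (by norm_num) (by norm_num) (by norm_num))
    (cube_sqrt_geJ (s := 0.9313) (by norm_num) (by norm_num) (by norm_num) (by norm_num))
    (by norm_num) (by norm_num) (by norm_num) (by norm_num) (by norm_num) (by norm_num) (by norm_num) (by norm_num) (by norm_num) (by norm_num) (by norm_num) (by norm_num) (by norm_num) (by norm_num) (by norm_num) (by norm_num) (by norm_num) (by norm_num)
    (exp_neg_leJ (r := 0.961) 6 (by norm_num) (by norm_num) (by norm_num) (by norm_num))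
    (exp_neg_leJ (r := 0.448) 4 (by norm_num) (by norm_num) (by norm_num) (by norm_num))
    (exp_neg_leJ (r := 0.942) 7 (by norm_num) (by norm_num) (by norm_num) (by norm_num))
    (exp_neg_leJ (r := 0.99) 14 (by norm_num) (by norm_num) (by norm_num) (by norm_num))
    (exp_neg_leJ (r := 0.983) 7 (by norm_num) (by norm_num) (by norm_num) (by norm_num))
    (exp_neg_leJ (r := 0.99) 14 (by norm_num) (by norm_num) (by norm_num) (by norm_num))
    (exp_neg_leJ (r := 0.99) 14 (by norm_num) (by norm_num) (by norm_num) (by norm_num))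
    (exp_neg_leJ (r := 0.99) 14 (by norm_num) (by norm_num) (by norm_num) (by norm_num))
    (by norm_num)) (by norm_num) hN hβ.le (by norm_num)

private theorem JD6b_p4_c0_b0_2 {β x y : ℝ} (hβ : 0 < β) (hN : β * 10.147 ≤ 1) (hx1 : 1.4185 ≤ x) (hx2 : x ≤ 1.4485)
    (hy1 : -0.444 ≤ y) (hy2 : y ≤ -0.063) : ‖HH β (x + y * I) - 1‖ ≤ 0.11 := by
  refine le_epsJ (C := 1.0982) (N0 := 10.147) (J_boxp 1.4185 1.4485 0.444 0 (-0.063) 1.3936 1.5151 1.7252 0.7984 0.524 3.1855 10.147 1.0872 4.833 1.649 0.4531 0.6967 0.4442 0.793 1.8551 0.8014 2.464 3.2007 3.4306 0.0008511 0.01104 0.0003204 0.0000003101 0.0002943 0.0000003101 0.0000003101 0.0000003101 1.0982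
    hβ hN hx1 hx2 hy1 hy2 (by norm_num) (by norm_num) (by linarith) (by norm_num) (by norm_num) (by norm_num) (by norm_num) (by norm_num) (by norm_num) (by norm_num) (by norm_num) (by norm_num) (by norm_num) (by norm_num) (by norm_num) (by norm_num) (by norm_num) (by norm_num) (by norm_num) (by norm_num) (by norm_num) (by norm_num) (by norm_num) (by norm_num)
    (cube_sqrt_geJ (s := 0.7984) (by norm_num) (by norm_num) (by norm_num) (by norm_num))
    (cube_sqrt_geJ (s := 0.931) (by norm_num) (by norm_num) (by norm_num) (by norm_num))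
    (by norm_num) (by norm_num) (by norm_num) (by norm_num) (by norm_num) (by norm_num) (by norm_num) (by norm_num) (by norm_num) (by norm_num) (by norm_num) (by norm_num) (by norm_num) (by norm_num) (by norm_num) (by norm_num) (by norm_num) (by norm_num)
    (exp_neg_leJ (r := 0.069) 7 (by norm_num) (by norm_num) (by norm_num) (by norm_num))
    (exp_neg_leJ (r := 0.507) 4 (by norm_num) (by norm_num) (by norm_num) (by norm_num))
    (exp_neg_leJ (r := 0.046) 8 (by norm_num) (by norm_num) (by norm_num) (by norm_num))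
    (exp_neg_leJ (r := 0.99) 14 (by norm_num) (by norm_num) (by norm_num) (by norm_num))
    (exp_neg_leJ (r := 0.131) 8 (by norm_num) (by norm_num) (by norm_num) (by norm_num))
    (exp_neg_leJ (r := 0.99) 14 (by norm_num) (by norm_num) (by norm_num) (by norm_num))
    (exp_neg_leJ (r := 0.99) 14 (by norm_num) (by norm_num) (by norm_num) (by norm_num))
    (exp_neg_leJ (r := 0.99) 14 (by norm_num) (by norm_num) (by norm_num) (by norm_num))
    (by norm_num)) (by norm_num) hN hβ.le (by norm_num)

private theorem JD6b_p4_c0_b0_3 {β x y : ℝ} (hβ : 0 < β) (hN : β * 10.147 ≤ 1) (hx1 : 1.4485 ≤ x) (hx2 : x ≤ 1.4885)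
    (hy1 : -0.444 ≤ y) (hy2 : y ≤ -0.063) : ‖HH β (x + y * I) - 1‖ ≤ 0.11 := by
  refine le_epsJ (C := 1.1104) (N0 := 10.147) (J_boxp 1.4485 1.4885 0.444 0 (-0.063) 1.4147 1.5534 1.7589 0.7882 0.5291 3.1855 10.147 1.0981 4.93 1.658 0.4377 0.7073 0.4484 0.8032 1.8324 0.816 2.5056 3.2607 3.3864 0.0007648 0.01059 0.0002888 0.0000003101 0.0002538 0.0000003101 0.0000003101 0.0000003101 1.1104
    hβ hN hx1 hx2 hy1 hy2 (by norm_num) (by norm_num) (by linarith) (by norm_num) (by norm_num) (by norm_num) (by norm_num) (by norm_num) (by norm_num) (by norm_num) (by norm_num) (by norm_num) (by norm_num) (by norm_num) (by norm_num) (by norm_num) (by norm_num) (by norm_num) (by norm_num) (by norm_num) (by norm_num) (by norm_num) (by norm_num) (by norm_num)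
    (cube_sqrt_geJ (s := 0.7962) (by norm_num) (by norm_num) (by norm_num) (by norm_num))
    (cube_sqrt_geJ (s := 0.9303) (by norm_num) (by norm_num) (by norm_num) (by norm_num))
    (by norm_num) (by norm_num) (by norm_num) (by norm_num) (by norm_num) (by norm_num) (by norm_num) (by norm_num) (by norm_num) (by norm_num) (by norm_num) (by norm_num) (by norm_num) (by norm_num) (by norm_num) (by norm_num) (by norm_num) (by norm_num)
    (exp_neg_leJ (r := 0.176) 7 (by norm_num) (by norm_num) (by norm_num) (by norm_num))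
    (exp_neg_leJ (r := 0.549) 4 (by norm_num) (by norm_num) (by norm_num) (by norm_num))
    (exp_neg_leJ (r := 0.15) 8 (by norm_num) (by norm_num) (by norm_num) (by norm_num))
    (exp_neg_leJ (r := 0.99) 14 (by norm_num) (by norm_num) (by norm_num) (by norm_num))
    (exp_neg_leJ (r := 0.279) 8 (by norm_num) (by norm_num) (by norm_num) (by norm_num))
    (exp_neg_leJ (r := 0.99) 14 (by norm_num) (by norm_num) (by norm_num) (by norm_num))
    (exp_neg_leJ (r := 0.99) 14 (by norm_num) (by norm_num) (by norm_num) (by norm_num))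
    (exp_neg_leJ (r := 0.99) 14 (by norm_num) (by norm_num) (by norm_num) (by norm_num))
    (by norm_num)) (by norm_num) hN hβ.le (by norm_num)

private theorem JD6b_p4_c0_b0_4 {β x y : ℝ} (hβ : 0 < β) (hN : β * 10.147 ≤ 1) (hx1 : 1.4885 ≤ x) (hx2 : x ≤ 1.5285)
    (hy1 : -0.444 ≤ y) (hy2 : y ≤ -0.063) : ‖HH β (x + y * I) - 1‖ ≤ 0.11 := by
  refine le_epsJ (C := 1.0952) (N0 := 10.147) (J_boxp 1.4885 1.5285 0.444 0 (-0.063) 1.4429 1.5917 1.7929 0.7726 0.5342 3.1855 10.147 1.1032 4.976 1.662 0.4223 0.7214 0.4561 0.8169 1.8098 0.8354 2.5609 3.3407 3.3623 0.0006622 0.00978 0.0002513 0.0000003101 0.0002085 0.0000003101 0.0000003101 0.0000003101 1.0952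
    hβ hN hx1 hx2 hy1 hy2 (by norm_num) (by norm_num) (by linarith) (by norm_num) (by norm_num) (by norm_num) (by norm_num) (by norm_num) (by norm_num) (by norm_num) (by norm_num) (by norm_num) (by norm_num) (by norm_num) (by norm_num) (by norm_num) (by norm_num) (by norm_num) (by norm_num) (by norm_num) (by norm_num) (by norm_num) (by norm_num) (by norm_num)
    (cube_sqrt_geJ (s := 0.7951) (by norm_num) (by norm_num) (by norm_num) (by norm_num))
    (cube_sqrt_geJ (s := 0.93) (by norm_num) (by norm_num) (by norm_num) (by norm_num))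
    (by norm_num) (by norm_num) (by norm_num) (by norm_num) (by norm_num) (by norm_num) (by norm_num) (by norm_num) (by norm_num) (by norm_num) (by norm_num) (by norm_num) (by norm_num) (by norm_num) (by norm_num) (by norm_num) (by norm_num) (by norm_num)
    (exp_neg_leJ (r := 0.32) 7 (by norm_num) (by norm_num) (by norm_num) (by norm_num))
    (exp_neg_leJ (r := 0.628) 4 (by norm_num) (by norm_num) (by norm_num) (by norm_num))
    (exp_neg_leJ (r := 0.289) 8 (by norm_num) (by norm_num) (by norm_num) (by norm_num))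
    (exp_neg_leJ (r := 0.99) 14 (by norm_num) (by norm_num) (by norm_num) (by norm_num))
    (exp_neg_leJ (r := 0.476) 8 (by norm_num) (by norm_num) (by norm_num) (by norm_num))
    (exp_neg_leJ (r := 0.99) 14 (by norm_num) (by norm_num) (by norm_num) (by norm_num))
    (exp_neg_leJ (r := 0.99) 14 (by norm_num) (by norm_num) (by norm_num) (by norm_num))
    (exp_neg_leJ (r := 0.99) 14 (by norm_num) (by norm_num) (by norm_num) (by norm_num))
    (by norm_num)) (by norm_num) hN hβ.le (by norm_num)

private theorem JD6b_p4_c0_b0_5 {β x y : ℝ} (hβ : 0 < β) (hN : β * 10.147 ≤ 1) (hx1 : 1.5285 ≤ x) (hx2 : x ≤ 1.5785)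
    (hy1 : -0.444 ≤ y) (hy2 : y ≤ -0.063) : ‖HH β (x + y * I) - 1‖ ≤ 0.11 := by
  refine le_epsJ (C := 1.104) (N0 := 10.147) (J_boxp 1.5285 1.5785 0.444 0 (-0.063) 1.471 1.6398 1.8357 0.7595 0.5406 3.1855 10.147 1.1148 5.084 1.672 0.4031 0.7354 0.4621 0.8306 1.7814 0.8548 2.6163 3.4207 3.3116 0.0005746 0.009212 0.0002187 0.0000003101 0.0001713 0.0000003101 0.0000003101 0.0000003101 1.104
    hβ hN hx1 hx2 hy1 hy2 (by norm_num) (by norm_num) (by linarith) (by norm_num) (by norm_num) (by norm_num) (by norm_num) (by norm_num) (by norm_num) (by norm_num) (by norm_num) (by norm_num) (by norm_num) (by norm_num) (by norm_num) (by norm_num) (by norm_num) (by norm_num) (by norm_num) (by norm_num) (by norm_num) (by norm_num) (by norm_num) (by norm_num)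
    (cube_sqrt_geJ (s := 0.7927) (by norm_num) (by norm_num) (by norm_num) (by norm_num))
    (cube_sqrt_geJ (s := 0.9292) (by norm_num) (by norm_num) (by norm_num) (by norm_num))
    (by norm_num) (by norm_num) (by norm_num) (by norm_num) (by norm_num) (by norm_num) (by norm_num) (by norm_num) (by norm_num) (by norm_num) (by norm_num) (by norm_num) (by norm_num) (by norm_num) (by norm_num) (by norm_num) (by norm_num) (by norm_num)
    (exp_neg_leJ (r := 0.462) 7 (by norm_num) (by norm_num) (by norm_num) (by norm_num))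
    (exp_neg_leJ (r := 0.688) 4 (by norm_num) (by norm_num) (by norm_num) (by norm_num))
    (exp_neg_leJ (r := 0.428) 8 (by norm_num) (by norm_num) (by norm_num) (by norm_num))
    (exp_neg_leJ (r := 0.99) 14 (by norm_num) (by norm_num) (by norm_num) (by norm_num))
    (exp_neg_leJ (r := 0.673) 8 (by norm_num) (by norm_num) (by norm_num) (by norm_num))
    (exp_neg_leJ (r := 0.99) 14 (by norm_num) (by norm_num) (by norm_num) (by norm_num))
    (exp_neg_leJ (r := 0.99) 14 (by norm_num) (by norm_num) (by norm_num) (by norm_num))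
    (exp_neg_leJ (r := 0.99) 14 (by norm_num) (by norm_num) (by norm_num) (by norm_num))
    (by norm_num)) (by norm_num) hN hβ.le (by norm_num)

private theorem JD6b_p4_c0_b0_6 {β x y : ℝ} (hβ : 0 < β) (hN : β * 10.147 ≤ 1) (hx1 : 1.5785 ≤ x) (hx2 : x ≤ 1.6385)
    (hy1 : -0.444 ≤ y) (hy2 : y ≤ -0.063) : ‖HH β (x + y * I) - 1‖ ≤ 0.11 := by
  refine le_epsJ (C := 1.1084) (N0 := 10.147) (J_boxp 1.5785 1.6385 0.444 0 (-0.063) 1.5062 1.6976 1.8875 0.7433 0.5481 3.1855 10.147 1.1271 5.202 1.682 0.38 0.753 0.4701 0.8477 1.7473 0.8791 2.6856 3.5207 3.2545 0.0004811 0.008491 0.000184 0.0000003101 0.0001341 0.0000003101 0.0000003101 0.0000003101 1.1084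
    hβ hN hx1 hx2 hy1 hy2 (by norm_num) (by norm_num) (by linarith) (by norm_num) (by norm_num) (by norm_num) (by norm_num) (by norm_num) (by norm_num) (by norm_num) (by norm_num) (by norm_num) (by norm_num) (by norm_num) (by norm_num) (by norm_num) (by norm_num) (by norm_num) (by norm_num) (by norm_num) (by norm_num) (by norm_num) (by norm_num) (by norm_num)
    (cube_sqrt_geJ (s := 0.7901) (by norm_num) (by norm_num) (by norm_num) (by norm_num))
    (cube_sqrt_geJ (s := 0.9284) (by norm_num) (by norm_num) (by norm_num) (by norm_num))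
    (by norm_num) (by norm_num) (by norm_num) (by norm_num) (by norm_num) (by norm_num) (by norm_num) (by norm_num) (by norm_num) (by norm_num) (by norm_num) (by norm_num) (by norm_num) (by norm_num) (by norm_num) (by norm_num) (by norm_num) (by norm_num)
    (exp_neg_leJ (r := 0.64) 7 (by norm_num) (by norm_num) (by norm_num) (by norm_num))
    (exp_neg_leJ (r := 0.77) 4 (by norm_num) (by norm_num) (by norm_num) (by norm_num))
    (exp_neg_leJ (r := 0.601) 8 (by norm_num) (by norm_num) (by norm_num) (by norm_num))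
    (exp_neg_leJ (r := 0.99) 14 (by norm_num) (by norm_num) (by norm_num) (by norm_num))
    (exp_neg_leJ (r := 0.92) 8 (by norm_num) (by norm_num) (by norm_num) (by norm_num))
    (exp_neg_leJ (r := 0.99) 14 (by norm_num) (by norm_num) (by norm_num) (by norm_num))
    (exp_neg_leJ (r := 0.99) 14 (by norm_num) (by norm_num) (by norm_num) (by norm_num))
    (exp_neg_leJ (r := 0.99) 14 (by norm_num) (by norm_num) (by norm_num) (by norm_num))
    (by norm_num)) (by norm_num) hN hβ.le (by norm_num)

private theorem JD6b_p4_c0_b0_7 {β x y : ℝ} (hβ : 0 < β) (hN : β * 10.147 ≤ 1) (hx1 : 1.6385 ≤ x) (hx2 : x ≤ 1.7085)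
    (hy1 : -0.444 ≤ y) (hy2 : y ≤ -0.063) : ‖HH β (x + y * I) - 1‖ ≤ 0.11 := by
  refine le_epsJ (C := 1.1101) (N0 := 10.147) (J_boxp 1.6385 1.7085 0.444 0 (-0.063) 1.5485 1.7653 1.9486 0.7245 0.5569 3.1855 10.147 1.1401 5.331 1.693 0.3531 0.7742 0.48 0.8683 1.7074 0.9083 2.7686 3.6407 3.1904 0.0003886 0.00769 0.0001495 0.0000003101 0.00009944 0.0000003101 0.0000003101 0.0000003101 1.1101
    hβ hN hx1 hx2 hy1 hy2 (by norm_num) (by norm_num) (by linarith) (by norm_num) (by norm_num) (by norm_num) (by norm_num) (by norm_num) (by norm_num) (by norm_num) (by norm_num) (by norm_num) (by norm_num) (by norm_num) (by norm_num) (by norm_num) (by norm_num) (by norm_num) (by norm_num) (by norm_num) (by norm_num) (by norm_num) (by norm_num) (by norm_num)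
    (cube_sqrt_geJ (s := 0.7873) (by norm_num) (by norm_num) (by norm_num) (by norm_num))
    (cube_sqrt_geJ (s := 0.9275) (by norm_num) (by norm_num) (by norm_num) (by norm_num))
    (by norm_num) (by norm_num) (by norm_num) (by norm_num) (by norm_num) (by norm_num) (by norm_num) (by norm_num) (by norm_num) (by norm_num) (by norm_num) (by norm_num) (by norm_num) (by norm_num) (by norm_num) (by norm_num) (by norm_num) (by norm_num)
    (exp_neg_leJ (r := 0.855) 7 (by norm_num) (by norm_num) (by norm_num) (by norm_num))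
    (exp_neg_leJ (r := 0.87) 4 (by norm_num) (by norm_num) (by norm_num) (by norm_num))
    (exp_neg_leJ (r := 0.81) 8 (by norm_num) (by norm_num) (by norm_num) (by norm_num))
    (exp_neg_leJ (r := 0.99) 14 (by norm_num) (by norm_num) (by norm_num) (by norm_num))
    (exp_neg_leJ (r := 0.216) 9 (by norm_num) (by norm_num) (by norm_num) (by norm_num))
    (exp_neg_leJ (r := 0.99) 14 (by norm_num) (by norm_num) (by norm_num) (by norm_num))
    (exp_neg_leJ (r := 0.99) 14 (by norm_num) (by norm_num) (by norm_num) (by norm_num))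
    (exp_neg_leJ (r := 0.99) 14 (by norm_num) (by norm_num) (by norm_num) (by norm_num))
    (by norm_num)) (by norm_num) hN hβ.le (by norm_num)

private theorem JD6b_p4_c0_b0_8 {β x y : ℝ} (hβ : 0 < β) (hN : β * 10.147 ≤ 1) (hx1 : 1.7085 ≤ x) (hx2 : x ≤ 1.7885)
    (hy1 : -0.444 ≤ y) (hy2 : y ≤ -0.063) : ‖HH β (x + y * I) - 1‖ ≤ 0.11 := by
  refine le_epsJ (C := 1.108) (N0 := 10.147) (J_boxp 1.7085 1.7885 0.444 0 (-0.063) 1.5978 1.8428 2.0191 0.7036 0.5669 3.1855 10.147 1.1534 5.466 1.704 0.3223 0.7988 0.4917 0.8922 1.6618 0.9423 2.8656 3.7807 3.1198 0.0003021 0.006837 0.0001171 0.0000003101 0.00007045 0.0000003101 0.0000003101 0.0000003101 1.108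
    hβ hN hx1 hx2 hy1 hy2 (by norm_num) (by norm_num) (by linarith) (by norm_num) (by norm_num) (by norm_num) (by norm_num) (by norm_num) (by norm_num) (by norm_num) (by norm_num) (by norm_num) (by norm_num) (by norm_num) (by norm_num) (by norm_num) (by norm_num) (by norm_num) (by norm_num) (by norm_num) (by norm_num) (by norm_num) (by norm_num) (by norm_num)
    (cube_sqrt_geJ (s := 0.7845) (by norm_num) (by norm_num) (by norm_num) (by norm_num))
    (cube_sqrt_geJ (s := 0.9267) (by norm_num) (by norm_num) (by norm_num) (by norm_num))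
    (by norm_num) (by norm_num) (by norm_num) (by norm_num) (by norm_num) (by norm_num) (by norm_num) (by norm_num) (by norm_num) (by norm_num) (by norm_num) (by norm_num) (by norm_num) (by norm_num) (by norm_num) (by norm_num) (by norm_num) (by norm_num)
    (exp_neg_leJ (r := 0.105) 8 (by norm_num) (by norm_num) (by norm_num) (by norm_num))
    (exp_neg_leJ (r := 0.989) 4 (by norm_num) (by norm_num) (by norm_num) (by norm_num))
    (exp_neg_leJ (r := 0.053) 9 (by norm_num) (by norm_num) (by norm_num) (by norm_num))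
    (exp_neg_leJ (r := 0.99) 14 (by norm_num) (by norm_num) (by norm_num) (by norm_num))
    (exp_neg_leJ (r := 0.561) 9 (by norm_num) (by norm_num) (by norm_num) (by norm_num))
    (exp_neg_leJ (r := 0.99) 14 (by norm_num) (by norm_num) (by norm_num) (by norm_num))
    (exp_neg_leJ (r := 0.99) 14 (by norm_num) (by norm_num) (by norm_num) (by norm_num))
    (exp_neg_leJ (r := 0.99) 14 (by norm_num) (by norm_num) (by norm_num) (by norm_num))
    (by norm_num)) (by norm_num) hN hβ.le (by norm_num)

private theorem JD6b_p4_c0_b0_9 {β x y : ℝ} (hβ : 0 < β) (hN : β * 10.147 ≤ 1) (hx1 : 1.7885 ≤ x) (hx2 : x ≤ 1.8785)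
    (hy1 : -0.444 ≤ y) (hy2 : y ≤ -0.063) : ‖HH β (x + y * I) - 1‖ ≤ 0.11 := by
  refine le_epsJ (C := 1.1031) (N0 := 10.147) (J_boxp 1.7885 1.8785 0.444 0 (-0.063) 1.6541 1.9303 2.0993 0.6811 0.5781 3.1855 10.147 1.167 5.61 1.716 0.2877 0.827 0.5053 0.9196 1.6105 0.9811 2.9763 3.9407 3.0419 0.000227 0.005935 0.00008864 0.0000003101 0.00004764 0.0000003101 0.0000003101 0.0000003101 1.1031
    hβ hN hx1 hx2 hy1 hy2 (by norm_num) (by norm_num) (by linarith) (by norm_num) (by norm_num) (by norm_num) (by norm_num) (by norm_num) (by norm_num) (by norm_num) (by norm_num) (by norm_num) (by norm_num) (by norm_num) (by norm_num) (by norm_num) (by norm_num) (by norm_num) (by norm_num) (by norm_num) (by norm_num) (by norm_num) (by norm_num) (by norm_num)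
    (cube_sqrt_geJ (s := 0.7816) (by norm_num) (by norm_num) (by norm_num) (by norm_num))
    (cube_sqrt_geJ (s := 0.9258) (by norm_num) (by norm_num) (by norm_num) (by norm_num))
    (by norm_num) (by norm_num) (by norm_num) (by norm_num) (by norm_num) (by norm_num) (by norm_num) (by norm_num) (by norm_num) (by norm_num) (by norm_num) (by norm_num) (by norm_num) (by norm_num) (by norm_num) (by norm_num) (by norm_num) (by norm_num)
    (exp_neg_leJ (r := 0.391) 8 (by norm_num) (by norm_num) (by norm_num) (by norm_num))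
    (exp_neg_leJ (r := 0.127) 5 (by norm_num) (by norm_num) (by norm_num) (by norm_num))
    (exp_neg_leJ (r := 0.331) 9 (by norm_num) (by norm_num) (by norm_num) (by norm_num))
    (exp_neg_leJ (r := 0.99) 14 (by norm_num) (by norm_num) (by norm_num) (by norm_num))
    (exp_neg_leJ (r := 0.955) 9 (by norm_num) (by norm_num) (by norm_num) (by norm_num))
    (exp_neg_leJ (r := 0.99) 14 (by norm_num) (by norm_num) (by norm_num) (by norm_num))
    (exp_neg_leJ (r := 0.99) 14 (by norm_num) (by norm_num) (by norm_num) (by norm_num))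
    (exp_neg_leJ (r := 0.99) 14 (by norm_num) (by norm_num) (by norm_num) (by norm_num))
    (by norm_num)) (by norm_num) hN hβ.le (by norm_num)

private theorem JD6b_p4_c0_b0_10 {β x y : ℝ} (hβ : 0 < β) (hN : β * 10.147 ≤ 1) (hx1 : 1.8785 ≤ x) (hx2 : x ≤ 1.9759)
    (hy1 : -0.444 ≤ y) (hy2 : y ≤ -0.063) : ‖HH β (x + y * I) - 1‖ ≤ 0.11 := by
  refine le_epsJ (C := 1.0906) (N0 := 10.147) (J_boxp 1.8785 1.9759 0.444 0 (-0.063) 1.7175 2.0252 2.1869 0.6571 0.59 3.1855 10.147 1.1792 5.742 1.727 0.2503 0.8587 0.5212 0.9504 1.5548 1.0248 3.1009 4.1207 2.9639 0.0001646 0.005052 0.00006492 0.0000003101 0.0000305 0.0000003101 0.0000003101 0.0000003101 1.0906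
    hβ hN hx1 hx2 hy1 hy2 (by norm_num) (by norm_num) (by linarith) (by norm_num) (by norm_num) (by norm_num) (by norm_num) (by norm_num) (by norm_num) (by norm_num) (by norm_num) (by norm_num) (by norm_num) (by norm_num) (by norm_num) (by norm_num) (by norm_num) (by norm_num) (by norm_num) (by norm_num) (by norm_num) (by norm_num) (by norm_num) (by norm_num)
    (cube_sqrt_geJ (s := 0.779) (by norm_num) (by norm_num) (by norm_num) (by norm_num))
    (cube_sqrt_geJ (s := 0.9249) (by norm_num) (by norm_num) (by norm_num) (by norm_num))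
    (by norm_num) (by norm_num) (by norm_num) (by norm_num) (by norm_num) (by norm_num) (by norm_num) (by norm_num) (by norm_num) (by norm_num) (by norm_num) (by norm_num) (by norm_num) (by norm_num) (by norm_num) (by norm_num) (by norm_num) (by norm_num)
    (exp_neg_leJ (r := 0.713) 8 (by norm_num) (by norm_num) (by norm_num) (by norm_num))
    (exp_neg_leJ (r := 0.288) 5 (by norm_num) (by norm_num) (by norm_num) (by norm_num))
    (exp_neg_leJ (r := 0.643) 9 (by norm_num) (by norm_num) (by norm_num) (by norm_num))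
    (exp_neg_leJ (r := 0.99) 14 (by norm_num) (by norm_num) (by norm_num) (by norm_num))
    (exp_neg_leJ (r := 0.398) 10 (by norm_num) (by norm_num) (by norm_num) (by norm_num))
    (exp_neg_leJ (r := 0.99) 14 (by norm_num) (by norm_num) (by norm_num) (by norm_num))
    (exp_neg_leJ (r := 0.99) 14 (by norm_num) (by norm_num) (by norm_num) (by norm_num))
    (exp_neg_leJ (r := 0.99) 14 (by norm_num) (by norm_num) (by norm_num) (by norm_num))
    (by norm_num)) (by norm_num) hN hβ.le (by norm_num)

private theorem JD6b_p4_c0 {κ t β : ℝ} (h : DomR κ t) (hβ : 0 < β) (hk1 : 1.25 ≤ κ) (hk2 : κ ≤ 1.37)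
    (ht1 : -0.576 ≤ t + κ) (ht2 : t + κ ≤ -0.4398) (hR0 : β * 10 ≤ κ) (hR : β * (4.95 * (1 + κ ^ 2)) ≤ κ) :
    ∀ s : ℂ, ‖s - sg κ t‖ ≤ 0.15 → ‖HH β s - 1‖ ≤ 0.11 := by
  have hN : β * 10.147 ≤ 1 := bNC' hβ hk1 (by norm_num) (by norm_num) hR (by norm_num)
  have hy1 : -0.294 ≤ sy κ t := syL_ge h 1.25 1.37 0.576 0.294 0.74527 0.74528 0.1599 0.15993 0.17529 hk1 hk2 (by linarith) (by norm_num) (by norm_num) (by norm_num)
    (expm_ge (by norm_num) (by norm_num) (by norm_num) (by norm_num)) (expm_le (by norm_num) (by norm_num) (by norm_num)) (by norm_num)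
    (by norm_num) (by norm_num) (by norm_num) (by norm_num) (by norm_num) (by norm_num)
  have hy2 : sy κ t ≤ -0.213 := syL_le h 1.25 1.37 0.4398 0.213 0.80815 0.80816 0.12564 0.13772 hk1 hk2 (by linarith) (by norm_num) (by norm_num) (by norm_num)
    (expm_ge (by norm_num) (by norm_num) (by norm_num) (by norm_num)) (expm_le (by norm_num) (by norm_num) (by norm_num)) (by norm_num)
    (by norm_num) (by norm_num) (by norm_num) (by norm_num) (by norm_num) (by norm_num)
  have hx1 : 1.5185 ≤ sx κ t := sx_lo h 1.25 (-0.213) 0.294 1.23738 1.5185 hk1 (by norm_num) hy2 (abs_le.2 ⟨by linarith, by linarith⟩) (by rw [neg_neg]; exact expn_ge (by norm_num) (by norm_num)) (by norm_num) (by norm_num)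
  have hx2 : sx κ t ≤ 1.8259 := sx_hi h 1.37 (-0.294) 0.213 1.34179 1.8259 hk2 hy1 (by norm_num) (by rw [abs_of_nonpos (by linarith)]; linarith) (by rw [neg_neg]; exact expn_le (by norm_num) (by norm_num) (by norm_num)) (by norm_num) (by norm_num)
  intro s hs
  have hs' : ‖s - ((sx κ t : ℂ) + (sy κ t : ℂ) * I)‖ ≤ 0.15 := hs
  obtain ⟨es, ⟨s1, s2⟩, ⟨s3, s4⟩⟩ := disc_split hs'
  have X1 : 1.3685 ≤ s.re := by linarith
  have X2 : s.re ≤ 1.9759 := by linarith
  have Y1 : (-0.444) ≤ s.im := by linarith
  have Y2 : s.im ≤ (-0.063) := by linarith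
  rw [es]
  rcases le_total s.re 1.3885 with u0 | v0
  · exact JD6b_p4_c0_b0_0 hβ hN (by linarith) (by linarith) (by linarith) (by linarith)
  rcases le_total s.re 1.4185 with u1 | v1
  · exact JD6b_p4_c0_b0_1 hβ hN (by linarith) (by linarith) (by linarith) (by linarith)
  rcases le_total s.re 1.4485 with u2 | v2
  · exact JD6b_p4_c0_b0_2 hβ hN (by linarith) (by linarith) (by linarith) (by linarith)
  rcases le_total s.re 1.4885 with u3 | v3
  · exact JD6b_p4_c0_b0_3 hβ hN (by linarith) (by linarith) (by linarith) (by linarith)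
  rcases le_total s.re 1.5285 with u4 | v4
  · exact JD6b_p4_c0_b0_4 hβ hN (by linarith) (by linarith) (by linarith) (by linarith)
  rcases le_total s.re 1.5785 with u5 | v5
  · exact JD6b_p4_c0_b0_5 hβ hN (by linarith) (by linarith) (by linarith) (by linarith)
  rcases le_total s.re 1.6385 with u6 | v6
  · exact JD6b_p4_c0_b0_6 hβ hN (by linarith) (by linarith) (by linarith) (by linarith)
  rcases le_total s.re 1.7085 with u7 | v7
  · exact JD6b_p4_c0_b0_7 hβ hN (by linarith) (by linarith) (by linarith) (by linarith)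
  rcases le_total s.re 1.7885 with u8 | v8
  · exact JD6b_p4_c0_b0_8 hβ hN (by linarith) (by linarith) (by linarith) (by linarith)
  rcases le_total s.re 1.8785 with u9 | v9
  · exact JD6b_p4_c0_b0_9 hβ hN (by linarith) (by linarith) (by linarith) (by linarith)
  exact JD6b_p4_c0_b0_10 hβ hN (by linarith) (by linarith) (by linarith) (by linarith)

private theorem JD6b_p4_c1_b0_0 {β x y : ℝ} (hβ : 0 < β) (hN : β * 10.394 ≤ 1) (hx1 : 1.52 ≤ x) (hx2 : x ≤ 1.6)
    (hy1 : -0.431 ≤ y) (hy2 : y ≤ -0.062) : ‖HH β (x + y * I) - 1‖ ≤ 0.11 := by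
  refine le_epsJ (C := 1.1239) (N0 := 10.394) (J_boxp 1.52 1.6 0.431 0 (-0.062) 1.4743 1.6571 1.8547 0.7608 0.5434 3.224 10.394 1.124 5.172 1.68 0.4068 0.7371 0.4609 0.8482 1.8109 0.8578 2.6046 3.4391 3.2476 0.0004712 0.008324 0.0001486 0.0000003101 0.0001347 0.0000003101 0.0000003101 0.0000003101 1.1239
    hβ hN hx1 hx2 hy1 hy2 (by norm_num) (by norm_num) (by linarith) (by norm_num) (by norm_num) (by norm_num) (by norm_num) (by norm_num) (by norm_num) (by norm_num) (by norm_num) (by norm_num) (by norm_num) (by norm_num) (by norm_num) (by norm_num) (by norm_num) (by norm_num) (by norm_num) (by norm_num) (by norm_num) (by norm_num) (by norm_num) (by norm_num)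
    (cube_sqrt_geJ (s := 0.7907) (by norm_num) (by norm_num) (by norm_num) (by norm_num))
    (cube_sqrt_geJ (s := 0.9286) (by norm_num) (by norm_num) (by norm_num) (by norm_num))
    (by norm_num) (by norm_num) (by norm_num) (by norm_num) (by norm_num) (by norm_num) (by norm_num) (by norm_num) (by norm_num) (by norm_num) (by norm_num) (by norm_num) (by norm_num) (by norm_num) (by norm_num) (by norm_num) (by norm_num) (by norm_num)
    (exp_neg_leJ (r := 0.661) 7 (by norm_num) (by norm_num) (by norm_num) (by norm_num))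
    (exp_neg_leJ (r := 0.79) 4 (by norm_num) (by norm_num) (by norm_num) (by norm_num))
    (exp_neg_leJ (r := 0.816) 8 (by norm_num) (by norm_num) (by norm_num) (by norm_num))
    (exp_neg_leJ (r := 0.99) 14 (by norm_num) (by norm_num) (by norm_num) (by norm_num))
    (exp_neg_leJ (r := 0.915) 8 (by norm_num) (by norm_num) (by norm_num) (by norm_num))
    (exp_neg_leJ (r := 0.99) 14 (by norm_num) (by norm_num) (by norm_num) (by norm_num))
    (exp_neg_leJ (r := 0.99) 14 (by norm_num) (by norm_num) (by norm_num) (by norm_num))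
    (exp_neg_leJ (r := 0.99) 14 (by norm_num) (by norm_num) (by norm_num) (by norm_num))
    (by norm_num)) (by norm_num) hN hβ.le (by norm_num)

private theorem JD6b_p4_c1_b0_1 {β x y : ℝ} (hβ : 0 < β) (hN : β * 10.394 ≤ 1) (hx1 : 1.6 ≤ x) (hx2 : x ≤ 1.7)
    (hy1 : -0.431 ≤ y) (hy2 : y ≤ -0.062) : ‖HH β (x + y * I) - 1‖ ≤ 0.11 := by
  refine le_epsJ (C := 1.1413) (N0 := 10.394) (J_boxp 1.6 1.7 0.431 0 (-0.062) 1.5306 1.7538 1.9417 0.7359 0.556 3.224 10.394 1.1459 5.389 1.698 0.3684 0.7652 0.4729 0.8756 1.7539 0.8967 2.7153 3.5991 3.1447 0.0003527 0.007355 0.0001117 0.0000003101 0.00008962 0.0000003101 0.0000003101 0.0000003101 1.1413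
    hβ hN hx1 hx2 hy1 hy2 (by norm_num) (by norm_num) (by linarith) (by norm_num) (by norm_num) (by norm_num) (by norm_num) (by norm_num) (by norm_num) (by norm_num) (by norm_num) (by norm_num) (by norm_num) (by norm_num) (by norm_num) (by norm_num) (by norm_num) (by norm_num) (by norm_num) (by norm_num) (by norm_num) (by norm_num) (by norm_num) (by norm_num)
    (cube_sqrt_geJ (s := 0.7861) (by norm_num) (by norm_num) (by norm_num) (by norm_num))
    (cube_sqrt_geJ (s := 0.9271) (by norm_num) (by norm_num) (by norm_num) (by norm_num))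
    (by norm_num) (by norm_num) (by norm_num) (by norm_num) (by norm_num) (by norm_num) (by norm_num) (by norm_num) (by norm_num) (by norm_num) (by norm_num) (by norm_num) (by norm_num) (by norm_num) (by norm_num) (by norm_num) (by norm_num) (by norm_num)
    (exp_neg_leJ (r := 0.953) 7 (by norm_num) (by norm_num) (by norm_num) (by norm_num))
    (exp_neg_leJ (r := 0.915) 4 (by norm_num) (by norm_num) (by norm_num) (by norm_num))
    (exp_neg_leJ (r := 0.1) 9 (by norm_num) (by norm_num) (by norm_num) (by norm_num))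
    (exp_neg_leJ (r := 0.99) 14 (by norm_num) (by norm_num) (by norm_num) (by norm_num))
    (exp_neg_leJ (r := 0.32) 9 (by norm_num) (by norm_num) (by norm_num) (by norm_num))
    (exp_neg_leJ (r := 0.99) 14 (by norm_num) (by norm_num) (by norm_num) (by norm_num))
    (exp_neg_leJ (r := 0.99) 14 (by norm_num) (by norm_num) (by norm_num) (by norm_num))
    (exp_neg_leJ (r := 0.99) 14 (by norm_num) (by norm_num) (by norm_num) (by norm_num))
    (by norm_num)) (by norm_num) hN hβ.le (by norm_num)

private theorem JD6b_p4_c1_b0_2 {β x y : ℝ} (hβ : 0 < β) (hN : β * 10.394 ≤ 1) (hx1 : 1.7 ≤ x) (hx2 : x ≤ 1.81)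
    (hy1 : -0.431 ≤ y) (hy2 : y ≤ -0.062) : ‖HH β (x + y * I) - 1‖ ≤ 0.11 := by
  refine le_epsJ (C := 1.1293) (N0 := 10.394) (J_boxp 1.7 1.81 0.431 0 (-0.062) 1.601 1.8607 2.0387 0.7049 0.5697 3.224 10.394 1.1623 5.56 1.712 0.3261 0.8004 0.4903 0.9098 1.6912 0.9452 2.8538 3.7991 3.0541 0.0002439 0.006122 0.00007823 0.0000003101 0.00005423 0.0000003101 0.0000003101 0.0000003101 1.1293
    hβ hN hx1 hx2 hy1 hy2 (by norm_num) (by norm_num) (by linarith) (by norm_num) (by norm_num) (by norm_num) (by norm_num) (by norm_num) (by norm_num) (by norm_num) (by norm_num) (by norm_num) (by norm_num) (by norm_num) (by norm_num) (by norm_num) (by norm_num) (by norm_num) (by norm_num) (by norm_num) (by norm_num) (by norm_num) (by norm_num) (by norm_num)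
    (cube_sqrt_geJ (s := 0.7826) (by norm_num) (by norm_num) (by norm_num) (by norm_num))
    (cube_sqrt_geJ (s := 0.9261) (by norm_num) (by norm_num) (by norm_num) (by norm_num))
    (by norm_num) (by norm_num) (by norm_num) (by norm_num) (by norm_num) (by norm_num) (by norm_num) (by norm_num) (by norm_num) (by norm_num) (by norm_num) (by norm_num) (by norm_num) (by norm_num) (by norm_num) (by norm_num) (by norm_num) (by norm_num)
    (exp_neg_leJ (r := 0.319) 8 (by norm_num) (by norm_num) (by norm_num) (by norm_num))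
    (exp_neg_leJ (r := 0.096) 5 (by norm_num) (by norm_num) (by norm_num) (by norm_num))
    (exp_neg_leJ (r := 0.456) 9 (by norm_num) (by norm_num) (by norm_num) (by norm_num))
    (exp_neg_leJ (r := 0.99) 14 (by norm_num) (by norm_num) (by norm_num) (by norm_num))
    (exp_neg_leJ (r := 0.824) 9 (by norm_num) (by norm_num) (by norm_num) (by norm_num))
    (exp_neg_leJ (r := 0.99) 14 (by norm_num) (by norm_num) (by norm_num) (by norm_num))
    (exp_neg_leJ (r := 0.99) 14 (by norm_num) (by norm_num) (by norm_num) (by norm_num))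
    (exp_neg_leJ (r := 0.99) 14 (by norm_num) (by norm_num) (by norm_num) (by norm_num))
    (by norm_num)) (by norm_num) hN hβ.le (by norm_num)

private theorem JD6b_p4_c1_b0_3 {β x y : ℝ} (hβ : 0 < β) (hN : β * 10.394 ≤ 1) (hx1 : 1.81 ≤ x) (hx2 : x ≤ 1.94)
    (hy1 : -0.431 ≤ y) (hy2 : y ≤ -0.062) : ‖HH β (x + y * I) - 1‖ ≤ 0.11 := by
  refine le_epsJ (C := 1.1352) (N0 := 10.394) (J_boxp 1.81 1.94 0.431 0 (-0.062) 1.6785 1.9873 2.1549 0.6751 0.5857 3.224 10.394 1.184 5.795 1.731 0.2761 0.8392 0.508 0.9475 1.6169 0.9987 3.0061 4.0191 2.93 0.0001632 0.005093 0.00005295 0.0000003101 0.00003105 0.0000003101 0.0000003101 0.0000003101 1.1352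
    hβ hN hx1 hx2 hy1 hy2 (by norm_num) (by norm_num) (by linarith) (by norm_num) (by norm_num) (by norm_num) (by norm_num) (by norm_num) (by norm_num) (by norm_num) (by norm_num) (by norm_num) (by norm_num) (by norm_num) (by norm_num) (by norm_num) (by norm_num) (by norm_num) (by norm_num) (by norm_num) (by norm_num) (by norm_num) (by norm_num) (by norm_num)
    (cube_sqrt_geJ (s := 0.778) (by norm_num) (by norm_num) (by norm_num) (by norm_num))
    (cube_sqrt_geJ (s := 0.9246) (by norm_num) (by norm_num) (by norm_num) (by norm_num))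
    (by norm_num) (by norm_num) (by norm_num) (by norm_num) (by norm_num) (by norm_num) (by norm_num) (by norm_num) (by norm_num) (by norm_num) (by norm_num) (by norm_num) (by norm_num) (by norm_num) (by norm_num) (by norm_num) (by norm_num) (by norm_num)
    (exp_neg_leJ (r := 0.722) 8 (by norm_num) (by norm_num) (by norm_num) (by norm_num))
    (exp_neg_leJ (r := 0.28) 5 (by norm_num) (by norm_num) (by norm_num) (by norm_num))
    (exp_neg_leJ (r := 0.848) 9 (by norm_num) (by norm_num) (by norm_num) (by norm_num))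
    (exp_neg_leJ (r := 0.99) 14 (by norm_num) (by norm_num) (by norm_num) (by norm_num))
    (exp_neg_leJ (r := 0.38) 10 (by norm_num) (by norm_num) (by norm_num) (by norm_num))
    (exp_neg_leJ (r := 0.99) 14 (by norm_num) (by norm_num) (by norm_num) (by norm_num))
    (exp_neg_leJ (r := 0.99) 14 (by norm_num) (by norm_num) (by norm_num) (by norm_num))
    (exp_neg_leJ (r := 0.99) 14 (by norm_num) (by norm_num) (by norm_num) (by norm_num))
    (by norm_num)) (by norm_num) hN hβ.le (by norm_num)

private theorem JD6b_p4_c1_b0_4 {β x y : ℝ} (hβ : 0 < β) (hN : β * 10.394 ≤ 1) (hx1 : 1.94 ≤ x) (hx2 : x ≤ 1.9788)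
    (hy1 : -0.431 ≤ y) (hy2 : y ≤ -0.062) : ‖HH β (x + y * I) - 1‖ ≤ 0.11 := by
  refine le_epsJ (C := 0.9337) (N0 := 10.394) (J_boxp 1.94 1.9788 0.431 0 (-0.062) 1.77 2.0252 2.1899 0.6285 0.5904 3.224 10.394 1.1442 5.372 1.697 0.2611 0.8849 0.5474 0.992 1.5947 1.0618 3.1861 4.2791 3.0869 0.0001014 0.003386 0.0000333 0.0000003101 0.00001612 0.0000003101 0.0000003101 0.0000003101 0.9337
    hβ hN hx1 hx2 hy1 hy2 (by norm_num) (by norm_num) (by linarith) (by norm_num) (by norm_num) (by norm_num) (by norm_num) (by norm_num) (by norm_num) (by norm_num) (by norm_num) (by norm_num) (by norm_num) (by norm_num) (by norm_num) (by norm_num) (by norm_num) (by norm_num) (by norm_num) (by norm_num) (by norm_num) (by norm_num) (by norm_num) (by norm_num)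
    (cube_sqrt_geJ (s := 0.7865) (by norm_num) (by norm_num) (by norm_num) (by norm_num))
    (cube_sqrt_geJ (s := 0.9273) (by norm_num) (by norm_num) (by norm_num) (by norm_num))
    (by norm_num) (by norm_num) (by norm_num) (by norm_num) (by norm_num) (by norm_num) (by norm_num) (by norm_num) (by norm_num) (by norm_num) (by norm_num) (by norm_num) (by norm_num) (by norm_num) (by norm_num) (by norm_num) (by norm_num) (by norm_num)
    (exp_neg_leJ (r := 0.197) 9 (by norm_num) (by norm_num) (by norm_num) (by norm_num))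
    (exp_neg_leJ (r := 0.689) 5 (by norm_num) (by norm_num) (by norm_num) (by norm_num))
    (exp_neg_leJ (r := 0.31) 10 (by norm_num) (by norm_num) (by norm_num) (by norm_num))
    (exp_neg_leJ (r := 0.99) 14 (by norm_num) (by norm_num) (by norm_num) (by norm_num))
    (exp_neg_leJ (r := 0.036) 11 (by norm_num) (by norm_num) (by norm_num) (by norm_num))
    (exp_neg_leJ (r := 0.99) 14 (by norm_num) (by norm_num) (by norm_num) (by norm_num))
    (exp_neg_leJ (r := 0.99) 14 (by norm_num) (by norm_num) (by norm_num) (by norm_num))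
    (exp_neg_leJ (r := 0.99) 14 (by norm_num) (by norm_num) (by norm_num) (by norm_num))
    (by norm_num)) (by norm_num) hN hβ.le (by norm_num)

private theorem JD6b_p4_c1 {κ t β : ℝ} (h : DomR κ t) (hβ : 0 < β) (hk1 : 1.37 ≤ κ) (hk2 : κ ≤ 1.39)
    (ht1 : -0.576 ≤ t + κ) (ht2 : t + κ ≤ -0.4398) (hR0 : β * 10 ≤ κ) (hR : β * (4.95 * (1 + κ ^ 2)) ≤ κ) :
    ∀ s : ℂ, ‖s - sg κ t‖ ≤ 0.15 → ‖HH β s - 1‖ ≤ 0.11 := by
  have hN : β * 10.394 ≤ 1 := bNC' hβ hk1 (by norm_num) (by norm_num) hR (by norm_num)
  have hy1 : -0.281 ≤ sy κ t := syL_ge h 1.37 1.39 0.576 0.281 0.75502 0.75503 0.152 0.15263 0.15487 hk1 hk2 (by linarith) (by norm_num) (by norm_num) (by norm_num)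
    (expm_ge (by norm_num) (by norm_num) (by norm_num) (by norm_num)) (expm_le (by norm_num) (by norm_num) (by norm_num)) (by norm_num)
    (by norm_num) (by norm_num) (by norm_num) (by norm_num) (by norm_num) (by norm_num)
  have hy2 : sy κ t ≤ -0.212 := syL_le h 1.37 1.39 0.4398 0.212 0.80896 0.80897 0.12338 0.12519 hk1 hk2 (by linarith) (by norm_num) (by norm_num) (by norm_num)
    (expm_ge (by norm_num) (by norm_num) (by norm_num) (by norm_num)) (expm_le (by norm_num) (by norm_num) (by norm_num)) (by norm_num)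
    (by norm_num) (by norm_num) (by norm_num) (by norm_num) (by norm_num) (by norm_num)
  have hx1 : 1.67 ≤ sx κ t := sx_lo h 1.37 (-0.212) 0.281 1.23614 1.67 hk1 (by norm_num) hy2 (abs_le.2 ⟨by linarith, by linarith⟩) (by rw [neg_neg]; exact expn_ge (by norm_num) (by norm_num)) (by norm_num) (by norm_num)
  have hx2 : sx κ t ≤ 1.8288 := sx_hi h 1.39 (-0.281) 0.212 1.32446 1.8288 hk2 hy1 (by norm_num) (by rw [abs_of_nonpos (by linarith)]; linarith) (by rw [neg_neg]; exact expn_le (by norm_num) (by norm_num) (by norm_num)) (by norm_num) (by norm_num)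
  intro s hs
  have hs' : ‖s - ((sx κ t : ℂ) + (sy κ t : ℂ) * I)‖ ≤ 0.15 := hs
  obtain ⟨es, ⟨s1, s2⟩, ⟨s3, s4⟩⟩ := disc_split hs'
  have X1 : 1.52 ≤ s.re := by linarith
  have X2 : s.re ≤ 1.9788 := by linarith
  have Y1 : (-0.431) ≤ s.im := by linarith
  have Y2 : s.im ≤ (-0.062) := by linarith
  rw [es]
  rcases le_total s.re 1.6 with u0 | v0
  · exact JD6b_p4_c1_b0_0 hβ hN (by linarith) (by linarith) (by linarith) (by linarith)
  rcases le_total s.re 1.7 with u1 | v1
  · exact JD6b_p4_c1_b0_1 hβ hN (by linarith) (by linarith) (by linarith) (by linarith)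
  rcases le_total s.re 1.81 with u2 | v2
  · exact JD6b_p4_c1_b0_2 hβ hN (by linarith) (by linarith) (by linarith) (by linarith)
  rcases le_total s.re 1.94 with u3 | v3
  · exact JD6b_p4_c1_b0_3 hβ hN (by linarith) (by linarith) (by linarith) (by linarith)
  exact JD6b_p4_c1_b0_4 hβ hN (by linarith) (by linarith) (by linarith) (by linarith)

theorem JD6b_4 {κ t β : ℝ} (h : DomR κ t) (hβ : 0 < β) (hk1 : 1.25 ≤ κ) (hk2 : κ ≤ 1.39)
    (ht1 : -0.576 ≤ t + κ) (ht2 : t + κ ≤ -0.4398) (hR0 : β * 10 ≤ κ) (hR : β * (4.95 * (1 + κ ^ 2)) ≤ κ) :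
    ∀ s : ℂ, ‖s - sg κ t‖ ≤ 0.15 → ‖HH β s - 1‖ ≤ 0.11 := by
  rcases le_total κ 1.37 with f0 | g0
  · exact JD6b_p4_c0 h hβ hk1 f0 ht1 ht2 hR0 hR
  exact JD6b_p4_c1 h hβ g0 hk2 ht1 ht2 hR0 hR

end Sok
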