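import Pool.Agent.Lib.MP_816dec_an.B6K6
import Pool.Agent.Lib.MP_816dec_an.JD6b2
import Pool.Agent.Lib.MP_816dec_an.JD6c

/-!
MP_816dec_an (A3, row R1-b6): window of the box [1.1, 1.25] of kappa (generated).
-/

set_option autoImplicit false

open Complex Set Filter Topology Metric

namespace Sok.B6K6

variable {β r t κ s h T : ℝ}

theorem y1w (H : D6 β r t κ s h T) (B : BX6 1.1 1.25 0.49774 0.4878 10.965 0.10032 5.4413 β r κ T) (h1 : 0.45 ≤ s) (h2 : s ≤ 0.58) :
    eN r κ * (0.9515 * Real.exp (-(T * (0.4829 * s ^ 2)))) ≤ ‖Xf β r h t 1‖ := by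
  have hr := rgR (a := 0) (τ1 := 0.4712) (τm := 0.6074) H.h1 H.h2 h1 h2 (by norm_num) (by norm_num) (by norm_num)
  rw [add_zero, ← H.hs] at hr
  obtain ⟨ha, hb⟩ := hr
  have hD := H.dom' (t' := t) (by linarith) (by linarith)
  have hk1 := B.hk1
  have hk2 := B.hk2
  have hk0 := H.k0
  have hy1 : 0.209 ≤ sy κ t := syR_ge hD 1.1 1.25 0.4712 0.209 1.23244 1.23245 0.20606 0.23417 hk1 hk2 (by linarith) (by norm_num) (by norm_num)
    (expn_ge (by norm_num) (by norm_num)) (expn_le (by norm_num) (by norm_num) (by norm_num)) (by norm_num)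
    (by norm_num) (by norm_num) (by norm_num) (by norm_num) (by norm_num) (by norm_num)
  have hy2 : sy κ t ≤ 0.265 := syR_le hD 1.1 1.25 0.6074 0.265 1.30343 0.2668 0.27632 0.31402 hk1 hk2 (by linarith) (by norm_num) (by norm_num)
    (expn_ge (by norm_num) (by norm_num)) (by norm_num) (by norm_num) (Or.inr ((mul_le_mul_of_nonneg_left (expn_le (E := 1.30344) (by norm_num) (by norm_num) (by norm_num)) (by norm_num)).trans (by norm_num))) (by norm_num) (by norm_num) (by norm_num)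
  exact H.x1lo hD (ε := 0.045) (c := 0.4829) (d := 1.0146) (l := 0.9515) (by norm_num) (JB6_k1a hD H.hβ H.hk1 H.hk2 (by linarith) (by linarith) H.ble H.bc')
    (V1lo6 hD 0.0364 0.4712 0.6075 _ 0.1485 0.4829 (by norm_num) ha (by linarith) (k3 B) rfl (fq B) (by norm_num) (fg B) (by norm_num))
    (D_up6 hD 1.1 1.25 0.209 0.265 0.8114 0.76721 1.0146 hk1 hk2 (by norm_num) hy1 hy2 (by norm_num) (expm_le (by norm_num) (by norm_num) (by norm_num)) (expm_le (by norm_num) (by norm_num) (by norm_num)) (by norm_num) (by norm_num) (by norm_num) (by norm_num)) (by norm_num) (by norm_num)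


theorem y0w (H : D6 β r t κ s h T) (B : BX6 1.1 1.25 0.49774 0.4878 10.965 0.10032 5.4413 β r κ T) (h1 : 0.45 ≤ s) (h2 : s ≤ 0.58) :
    eN r κ * (0.8502 * Real.exp (-(T * (0.5467 * (s - 1) ^ 2)))) ≤ ‖Xf β r h t 0‖ := by
  have hr := rgL (a := (-1)) (b1 := 0.4398) (b2 := 0.576) H.h1 H.h2 h1 h2 (by norm_num) (by norm_num) (by norm_num)
  have e : (s + -1) * h = (t - h) + κ := by rw [H.a0]; ring
  rw [e] at hr
  obtain ⟨ha, hb⟩ := hr
  have hD := H.dom' (t' := t - h) (by linarith) (by linarith)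
  have hk1 := B.hk1
  have hk2 := B.hk2
  have hk0 := H.k0
  have hy1 : -0.311 ≤ sy κ (t - h) := syL_ge hD 1.1 1.25 0.576 0.311 0.73271 0.73272 0.1926 0.18229 0.20716 hk1 hk2 (by linarith) (by norm_num) (by norm_num) (by norm_num)
    (expm_ge (by norm_num) (by norm_num) (by norm_num) (by norm_num)) (expm_le (by norm_num) (by norm_num) (by norm_num)) (by norm_num)
    (by norm_num) (by norm_num) (by norm_num) (by norm_num) (by norm_num) (by norm_num)
  have hy2 : sy κ (t - h) ≤ -0.223 := syL_le hD 1.1 1.25 0.4398 0.223 0.80011 0.80012 0.14273 0.16221 hk1 hk2 (by linarith) (by norm_num) (by norm_num) (by norm_num)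
    (expm_ge (by norm_num) (by norm_num) (by norm_num) (by norm_num)) (expm_le (by norm_num) (by norm_num) (by norm_num)) (by norm_num)
    (by norm_num) (by norm_num) (by norm_num) (by norm_num) (by norm_num) (by norm_num)
  exact H.x0lo hD (ε := 0.095) (c := 0.5467) (d := 1.2833) (l := 0.8502) (by norm_num) (by
      rcases le_total ((t - h) + κ) (-0.45) with g | g
      · exact JB6_k0e hD H.hβ H.hk1 H.hk2 (by linarith) (by linarith) H.ble H.bc'
      · exact (JB6_k0a hD H.hβ H.hk1 H.hk2 (by linarith) (by linarith) H.ble H.bc').trans (by norm_num))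
    (V0_lo hD 0.5467 0.576 0.0673 0.1452 0.0927 0.49774 (by linarith) (by linarith) (by norm_num) (fa1 B) (fa2 B) (fa3 B) (fa4 H B) (by norm_num) (by norm_num) (by norm_num) (by norm_num) (by norm_num))
    (D_up6 hD 1.1 1.25 (-0.311) (-0.223) 1.36479 1.24983 1.2833 hk1 hk2 (by norm_num) hy1 hy2 (by norm_num) (by rw [neg_neg]; exact expn_le (by norm_num) (by norm_num) (by norm_num)) (by rw [neg_neg]; exact expn_le (by norm_num) (by norm_num) (by norm_num)) (by norm_num) (by norm_num) (by norm_num) (by norm_num)) (by norm_num) (by norm_num)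


theorem tw2 (H : D6 β r t κ s h T) (B : BX6 1.1 1.25 0.49774 0.4878 10.965 0.10032 5.4413 β r κ T) (h1 : 0.45 ≤ s) (h2 : s ≤ 0.58) :
    ‖Xf β r h (t) 2‖ ≤ (0.02883 + 0.00067) * ‖Xf β r h t 1‖ ∧
    r * ‖Xf β r h (t) 2‖ ≤ (2.3368 * 5.4413 * 0.02883 + 10.965 * 0.00067) * ‖Xf β r h t 1‖ := by
  have hr := rgR (a := 1) (τ1 := 1.5184) (τm := 1.6546) H.h1 H.h2 h1 h2 (by norm_num) (by norm_num) (by norm_num)
  have e : s + ((2 : ℤ) : ℝ) - 1 = s + 1 := by push_cast; ring
  have e2 := H.ang 2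
  rw [e] at e2
  have ha : 1.5184 ≤ (t + (((2 : ℤ) : ℝ) - 1) * h) + κ := by rw [e2]; exact hr.1
  have hb : (t + (((2 : ℤ) : ℝ) - 1) * h) + κ ≤ 1.6546 := by rw [e2]; exact hr.2
  have hD := H.dom' (t' := t + (((2 : ℤ) : ℝ) - 1) * h) (by linarith) (by linarith)
  exact cellTW (k := 2) (Y := ‖Xf β r h t 1‖) (g := 0.4829 * s ^ 2) 0.3724 0.445 0.6673 0.64163 0.30275 1.144 1.3621 0.935 0.8569 1.1336 1.1 1.25 0.10032 0.3804 0.25 0.2337 10.965 0.9515 0.68518 5.4413 0.024196 0.02883 1.09663 0.16245 0.752 0.9193 3.3114 0.00065011 0.00067 2.3368 1.09662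
    H.hβ H.hκ H.hs H.hT H.hq2 (by norm_num) hD (VR_box6 hD 0.62 0.3724 1.1 0.49774 0.4878 1.5184 1.6546 _ _ _ _ _ ha hb (by norm_num) B.hk1 B.hψ B.hψ1 (by norm_num) (by norm_num) (by norm_num) rfl rfl (by norm_num) rfl rfl rfl (by norm_num) (by norm_num)) B.hk1 B.hk2 (by rw [e]; linarith [hr.1]) (by rw [e]; linarith [hr.2])
    B.hR B.hb B.hT (y1w H B (by linarith) (by linarith)) (by positivity) (gA (by norm_num) (by linarith) (by linarith : s ≤ 0.58) (by norm_num))
    (by rw [e]; exact qB (s1 := 0.45) (s2 := 0.58) (by norm_num) (by norm_num) h1 h2 (le_refl _) (by norm_num) (by norm_num) (by norm_num))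
    (y_right_90 hD (by linarith [B.hk1]) H.hk2 (by linarith))
    (by norm_num) (by norm_num) (by norm_num) (by norm_num) (by norm_num) (expn 0 0.4449 (by norm_num) (by norm_num) (E := 0.64163) (by norm_num) (by norm_num)) (expn 1 0.1949 (by norm_num) (by norm_num) (E := 0.30275) (by norm_num) (by norm_num)) (by norm_num) (by norm_num) (by norm_num) (by norm_num) (by norm_num) (by norm_num) (by norm_num) (by norm_num) (by norm_num) (by norm_num) (by norm_num) (by norm_num) (by norm_num) (by norm_num) (by norm_num) (by norm_num) (by norm_num) (by norm_num) (by norm_num) (by norm_num) (by norm_num)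
    (expn 3 0.7282 (by norm_num) (by norm_num) (E := 0.024196) (by norm_num) (by norm_num)) (by norm_num) (by norm_num) (by norm_num) (by norm_num) (by norm_num) (by norm_num) (by norm_num) (by norm_num) (by norm_num) H.hq1 (by norm_num) (by norm_num)
    (expn 7 0.3388 (by norm_num) (by norm_num) (E := 0.00065011) (by norm_num) (by norm_num)) (by norm_num) (by norm_num)


theorem tw2s (H : D6 β r t κ s h T) (B : BX6 1.1 1.25 0.49774 0.4878 10.965 0.10032 5.4413 β r κ T) (h1 : 0.45 ≤ s) (h2 : s ≤ 0.58) :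
    ‖Xf β r h (t + β) 2‖ ≤ (0.03152 + 0.00067) * ‖Xf β r h t 1‖ ∧
    r * ‖Xf β r h (t + β) 2‖ ≤ (2.3368 * 5.4413 * 0.03152 + 10.965 * 0.00067) * ‖Xf β r h t 1‖ := by
  obtain ⟨hs5, hs6⟩ := H.bh (b := 0.0958) B.hb (by norm_num)
  have hr := rgR (a := 1) (τ1 := 1.5184) (τm := 1.7549) H.h1 H.h2 (by linarith : 0.45 ≤ s + β / h) (by linarith : s + β / h ≤ 0.6758) (by norm_num) (by norm_num) (by norm_num)
  have e : s + β / h + ((2 : ℤ) : ℝ) - 1 = s + β / h + 1 := by push_cast; ring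
  have e2 := H.shift.ang 2
  rw [e] at e2
  have ha : 1.5184 ≤ (t + β + (((2 : ℤ) : ℝ) - 1) * h) + κ := by rw [e2]; exact hr.1
  have hb : (t + β + (((2 : ℤ) : ℝ) - 1) * h) + κ ≤ 1.7549 := by rw [e2]; exact hr.2
  have hD := H.dom' (t' := t + β + (((2 : ℤ) : ℝ) - 1) * h) (by linarith) (by linarith)
  exact cellTW (k := 2) (Y := ‖Xf β r h t 1‖) (g := 0.4829 * s ^ 2) 0.3644 0.445 0.6673 0.64163 0.30275 1.144 1.3621 0.935 0.8569 1.1336 1.1 1.25 0.10032 0.3804 0.25 0.2337 10.965 0.9515 0.66836 5.4413 0.026449 0.03152 1.09663 0.16245 0.752 0.9193 3.3114 0.00065011 0.00067 2.3368 1.09662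
    H.hβ H.hκ H.shift.hs H.hT H.hq2 (by norm_num) hD (VR_box6 hD 0.6 0.3644 1.1 0.49774 0.4878 1.5184 1.7549 _ _ _ _ _ ha hb (by norm_num) B.hk1 B.hψ B.hψ1 (by norm_num) (by norm_num) (by norm_num) rfl rfl (by norm_num) rfl rfl rfl (by norm_num) (by norm_num)) B.hk1 B.hk2 (by rw [e]; linarith [hr.1]) (by rw [e]; linarith [hr.2])
    B.hR B.hb B.hT (y1w H B (by linarith) (by linarith)) (by positivity) (gA (by norm_num) (by linarith) (by linarith : s ≤ 0.58) (by norm_num))
    (by rw [e]; exact qB (s1 := 0.45) (s2 := 0.58) (by norm_num) (by norm_num) h1 h2 hs5 (by norm_num) (by norm_num) (by norm_num))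
    (y_right_90 hD (by linarith [B.hk1]) H.hk2 (by linarith))
    (by norm_num) (by norm_num) (by norm_num) (by norm_num) (by norm_num) (expn 0 0.4449 (by norm_num) (by norm_num) (E := 0.64163) (by norm_num) (by norm_num)) (expn 1 0.1949 (by norm_num) (by norm_num) (E := 0.30275) (by norm_num) (by norm_num)) (by norm_num) (by norm_num) (by norm_num) (by norm_num) (by norm_num) (by norm_num) (by norm_num) (by norm_num) (by norm_num) (by norm_num) (by norm_num) (by norm_num) (by norm_num) (by norm_num) (by norm_num) (by norm_num) (by norm_num) (by norm_num) (by norm_num) (by norm_num) (by norm_num)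
    (expn 3 0.6367 (by norm_num) (by norm_num) (E := 0.026449) (by norm_num) (by norm_num)) (by norm_num) (by norm_num) (by norm_num) (by norm_num) (by norm_num) (by norm_num) (by norm_num) (by norm_num) (by norm_num) H.hq1 (by norm_num) (by norm_num)
    (expn 7 0.3388 (by norm_num) (by norm_num) (E := 0.00065011) (by norm_num) (by norm_num)) (by norm_num) (by norm_num)


theorem twm1 (H : D6 β r t κ s h T) (B : BX6 1.1 1.25 0.49774 0.4878 10.965 0.10032 5.4413 β r κ T) (h1 : 0.45 ≤ s) (h2 : s ≤ 0.58) :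
    ‖Xf β r h (t) (-1)‖ ≤ (0.00975 + 0.000179) * ‖Xf β r h t 0‖ ∧
    r * ‖Xf β r h (t) (-1)‖ ≤ (2.3368 * 5.4413 * 0.00975 + 10.965 * 0.000179) * ‖Xf β r h t 0‖ := by
  have hr := rgL (a := (-2)) (b1 := 1.487) (b2 := 1.6232) H.h1 H.h2 h1 h2 (by norm_num) (by norm_num) (by norm_num)
  have e : s + ((-1 : ℤ) : ℝ) - 1 = s + (-2) := by push_cast; ring
  exact cellLW (k := -1) (Y := ‖Xf β r h t 0‖) (g := 0.5467 * (s - 1) ^ 2) 0.97 0.4975 1.1 1.25 0.49774 0.4878 1.487 1.6232 _ _ _ _ _ 3.49655 1.1332 10.965 0.10032 0.3804 0 0.8507 0.8502 0.90672 5.4413 0.0073109 0.00975 1.09663 0.16538 0.6719 0.9179 3.3114 0.000042556 0.000179 2.3368 1.09662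
    H.hβ H.hκ H.hs H.hT H.h0 H.hq2 (by norm_num) B.hk1 B.hk2 B.hψ B.hψ1 (by rw [e]; exact hr.1) (by rw [e]; exact hr.2)
    B.hR B.hb B.hT (y0w H B (by linarith) (by linarith)) (by positivity) (gD (by norm_num) (by linarith : 0.45 ≤ s) (by linarith) (by norm_num))
    (by rw [e]; exact qC (s1 := 0.45) (s2 := 0.58) (b := 0) (by norm_num) (by norm_num) h1 h2 (by linarith) (by norm_num) (by norm_num) (by norm_num))
    (by norm_num) (by norm_num) (by norm_num) (by norm_num) rfl rfl (by norm_num) rfl rfl rfl (by norm_num) (by norm_num) (by norm_num) (by norm_num) (by norm_num) (by norm_num) (by norm_num) (by norm_num) (by norm_num) (by norm_num) (by norm_num) (by norm_num) (by norm_num) (by norm_num) (by norm_num) (by norm_num) (by norm_num) (by norm_num)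
    (expn 4 0.9337 (by norm_num) (by norm_num) (E := 0.0073109) (by norm_num) (by norm_num)) (by norm_num) (by norm_num) (by norm_num) (by norm_num) (by norm_num) (by norm_num) (by norm_num) (by norm_num) (by norm_num) H.hq1 (by norm_num) (by norm_num)
    (expn 10 0.0647 (by norm_num) (by norm_num) (E := 0.000042556) (by norm_num) (by norm_num)) (by norm_num) (by norm_num)


theorem twm1s (H : D6 β r t κ s h T) (B : BX6 1.1 1.25 0.49774 0.4878 10.965 0.10032 5.4413 β r κ T) (h1 : 0.45 ≤ s) (h2 : s ≤ 0.58) :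
    ‖Xf β r h (t + β) (-1)‖ ≤ (0.02083 + 0.000178) * ‖Xf β r h t 0‖ ∧
    r * ‖Xf β r h (t + β) (-1)‖ ≤ (2.3368 * 5.4413 * 0.02083 + 10.965 * 0.000178) * ‖Xf β r h t 0‖ := by
  obtain ⟨hs5, hs6⟩ := H.bh (b := 0.0958) B.hb (by norm_num)
  have hr := rgL (a := (-2)) (b1 := 1.3866) (b2 := 1.6232) H.h1 H.h2 (by linarith : 0.45 ≤ s + β / h) (by linarith : s + β / h ≤ 0.6758) (by norm_num) (by norm_num) (by norm_num)
  have e : s + β / h + ((-1 : ℤ) : ℝ) - 1 = s + β / h + (-2) := by push_cast; ring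
  exact cellLW (k := -1) (Y := ‖Xf β r h t 0‖) (g := 0.5467 * (s - 1) ^ 2) 0.95 0.4934 1.1 1.25 0.49774 0.4878 1.3866 1.6232 _ _ _ _ _ 3.17508 1.1609 10.965 0.10032 0.3804 0 0.8445 0.8502 0.76874 5.4413 0.015255 0.02083 1.09663 0.16538 0.6719 0.9179 3.3114 0.000042556 0.000178 2.3368 1.09662
    H.hβ H.hκ H.shift.hs H.hT H.h0 H.hq2 (by norm_num) B.hk1 B.hk2 B.hψ B.hψ1 (by rw [e]; exact hr.1) (by rw [e]; exact hr.2)
    B.hR B.hb B.hT (y0w H B (by linarith) (by linarith)) (by positivity) (gD (by norm_num) (by linarith : 0.45 ≤ s) (by linarith) (by norm_num))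
    (by rw [e]; exact qC (s1 := 0.45) (s2 := 0.58) (b := 0.0958) (by norm_num) (by norm_num) h1 h2 hs6 (by norm_num) (by norm_num) (by norm_num))
    (by norm_num) (by norm_num) (by norm_num) (by norm_num) rfl rfl (by norm_num) rfl rfl rfl (by norm_num) (by norm_num) (by norm_num) (by norm_num) (by norm_num) (by norm_num) (by norm_num) (by norm_num) (by norm_num) (by norm_num) (by norm_num) (by norm_num) (by norm_num) (by norm_num) (by norm_num) (by norm_num) (by norm_num) (by norm_num)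
    (expn 4 0.1829 (by norm_num) (by norm_num) (E := 0.015255) (by norm_num) (by norm_num)) (by norm_num) (by norm_num) (by norm_num) (by norm_num) (by norm_num) (by norm_num) (by norm_num) (by norm_num) (by norm_num) H.hq1 (by norm_num) (by norm_num)
    (expn 10 0.0647 (by norm_num) (by norm_num) (E := 0.000042556) (by norm_num) (by norm_num)) (by norm_num) (by norm_num)


theorem twm2 (H : D6 β r t κ s h T) (B : BX6 1.1 1.25 0.49774 0.4878 10.965 0.10032 5.4413 β r κ T) (h1 : 0.45 ≤ s) (h2 : s ≤ 0.58) :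
    ‖Xf β r h (t) (-2)‖ ≤ (0.00001 + 0.000178) * ‖Xf β r h t 0‖ ∧
    r * ‖Xf β r h (t) (-2)‖ ≤ (2.3368 * 5.4413 * 0.00001 + 10.965 * 0.000178) * ‖Xf β r h t 0‖ := by
  have hr := rgL (a := (-3)) (b1 := 2.5342) (b2 := 2.6704) H.h1 H.h2 h1 h2 (by norm_num) (by norm_num) (by norm_num)
  have e : s + ((-2 : ℤ) : ℝ) - 1 = s + (-3) := by push_cast; ring
  exact cellLW (k := -2) (Y := ‖Xf β r h t 0‖) (g := 0.5467 * (s - 1) ^ 2) 0.53 0.3909 1.1 1.25 0.49774 0.4878 2.5342 2.6704 _ _ _ _ _ 3.33806 1.1465 10.965 0.10032 0.3804 0 0.848 0.8502 2.19282 5.4413 0.0000066793 0.00001 1.09663 0.16538 0.6719 0.9179 3.3114 0.000042556 0.000178 2.3368 1.09662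
    H.hβ H.hκ H.hs H.hT H.h0 H.hq2 (by norm_num) B.hk1 B.hk2 B.hψ B.hψ1 (by rw [e]; exact hr.1) (by rw [e]; exact hr.2)
    B.hR B.hb B.hT (y0w H B (by linarith) (by linarith)) (by positivity) (gD (by norm_num) (by linarith : 0.45 ≤ s) (by linarith) (by norm_num))
    (by rw [e]; exact qC (s1 := 0.45) (s2 := 0.58) (b := 0) (by norm_num) (by norm_num) h1 h2 (by linarith) (by norm_num) (by norm_num) (by norm_num))
    (by norm_num) (by norm_num) (by norm_num) (by norm_num) rfl rfl (by norm_num) rfl rfl rfl (by norm_num) (by norm_num) (by norm_num) (by norm_num) (by norm_num) (by norm_num) (by norm_num) (by norm_num) (by norm_num) (by norm_num) (by norm_num) (by norm_num) (by norm_num) (by norm_num) (by norm_num) (by norm_num) (by norm_num) (by norm_num)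
    (expn 11 0.9317 (by norm_num) (by norm_num) (E := 0.0000066793) (by norm_num) (by norm_num)) (by norm_num) (by norm_num) (by norm_num) (by norm_num) (by norm_num) (by norm_num) (by norm_num) (by norm_num) (by norm_num) H.hq1 (by norm_num) (by norm_num)
    (expn 10 0.0647 (by norm_num) (by norm_num) (E := 0.000042556) (by norm_num) (by norm_num)) (by norm_num) (by norm_num)


theorem twm2s (H : D6 β r t κ s h T) (B : BX6 1.1 1.25 0.49774 0.4878 10.965 0.10032 5.4413 β r κ T) (h1 : 0.45 ≤ s) (h2 : s ≤ 0.58) :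
    ‖Xf β r h (t + β) (-2)‖ ≤ (0.00001 + 0.000187) * ‖Xf β r h t 0‖ ∧
    r * ‖Xf β r h (t + β) (-2)‖ ≤ (2.3368 * 5.4413 * 0.00001 + 10.965 * 0.000187) * ‖Xf β r h t 0‖ := by
  obtain ⟨hs5, hs6⟩ := H.bh (b := 0.0958) B.hb (by norm_num)
  have hr := rgL (a := (-3)) (b1 := 2.4338) (b2 := 2.6704) H.h1 H.h2 (by linarith : 0.45 ≤ s + β / h) (by linarith : s + β / h ≤ 0.6758) (by norm_num) (by norm_num) (by norm_num)
  have e : s + β / h + ((-2 : ℤ) : ℝ) - 1 = s + β / h + (-3) := by push_cast; ring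
  exact cellLW (k := -2) (Y := ‖Xf β r h t 0‖) (g := 0.5467 * (s - 1) ^ 2) 0.61 0.4223 1.1 1.25 0.49774 0.4878 2.4338 2.6704 _ _ _ _ _ 3.57436 1.127 10.965 0.10032 0.3804 0 0.8884 0.8502 2.18478 5.4413 0.0000069621 0.00001 1.09663 0.16538 0.6719 0.9179 3.3114 0.000042556 0.000187 2.3368 1.09662
    H.hβ H.hκ H.shift.hs H.hT H.h0 H.hq2 (by norm_num) B.hk1 B.hk2 B.hψ B.hψ1 (by rw [e]; exact hr.1) (by rw [e]; exact hr.2)
    B.hR B.hb B.hT (y0w H B (by linarith) (by linarith)) (by positivity) (gD (by norm_num) (by linarith : 0.45 ≤ s) (by linarith) (by norm_num))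
    (by rw [e]; exact qC (s1 := 0.45) (s2 := 0.58) (b := 0.0958) (by norm_num) (by norm_num) h1 h2 hs6 (by norm_num) (by norm_num) (by norm_num))
    (by norm_num) (by norm_num) (by norm_num) (by norm_num) rfl rfl (by norm_num) rfl rfl rfl (by norm_num) (by norm_num) (by norm_num) (by norm_num) (by norm_num) (by norm_num) (by norm_num) (by norm_num) (by norm_num) (by norm_num) (by norm_num) (by norm_num) (by norm_num) (by norm_num) (by norm_num) (by norm_num) (by norm_num) (by norm_num)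
    (expn 11 0.888 (by norm_num) (by norm_num) (E := 0.0000069621) (by norm_num) (by norm_num)) (by norm_num) (by norm_num) (by norm_num) (by norm_num) (by norm_num) (by norm_num) (by norm_num) (by norm_num) (by norm_num) H.hq1 (by norm_num) (by norm_num)
    (expn 10 0.0647 (by norm_num) (by norm_num) (E := 0.000042556) (by norm_num) (by norm_num)) (by norm_num) (by norm_num)


theorem tw3r (H : D6 β r t κ s h T) (B : BX6 1.1 1.25 0.49774 0.4878 10.965 0.10032 5.4413 β r κ T) (h1 : 0.45 ≤ s) (h2 : s ≤ 0.58) (htp : (s + 2) * h - κ ≤ Real.pi / 2) (htm : (s + 2) * h ≤ 2.821) :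
    ‖Xf β r h (t) 3‖ ≤ (0.00046 + 0.000656) * ‖Xf β r h t 1‖ ∧
    r * ‖Xf β r h (t) 3‖ ≤ (2.3368 * 5.4413 * 0.00046 + 10.965 * 0.000656) * ‖Xf β r h t 1‖ := by
  have hr := rgR (a := 2) (τ1 := 2.5656) (τm := 2.7018) H.h1 H.h2 h1 h2 (by norm_num) (by norm_num) (by norm_num)
  have e : s + ((3 : ℤ) : ℝ) - 1 = s + 2 := by push_cast; ring
  exact cellRW (k := 3) (Y := ‖Xf β r h t 1‖) (g := 0.4829 * s ^ 2) 0.37 0.281 1.1 1.25 0.49774 0.4878 2.5656 2.821 _ _ _ _ _ 0.15794 2.4581 10.965 0.10032 0.3804 0.1206 0.9398 0.9515 1.58891 5.4413 0.00017665 0.00046 1.09663 0.16245 0.752 0.9193 3.3114 0.00015845 0.000656 2.3368 1.09662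
    H.hβ H.hκ H.hs H.hT H.h0 H.hq2 (by norm_num) B.hk1 B.hk2 B.hψ B.hψ1 (by rw [e]; exact htp) (by rw [e]; exact hr.1) (by rw [e]; exact htm)
    B.hR B.hb B.hT (y1w H B (by linarith) (by linarith)) (by positivity) (gA (by norm_num) (by linarith) (by linarith : s ≤ 0.58) (by norm_num))
    (by rw [e]; exact qB (s1 := 0.45) (s2 := 0.58) (by norm_num) (by norm_num) h1 h2 (le_refl _) (by norm_num) (by norm_num) (by norm_num))
    (by norm_num) (by norm_num) (by norm_num) (by norm_num) rfl rfl (by norm_num) rfl rfl rfl (by norm_num) (by norm_num) (by norm_num) (by norm_num) (by norm_num) (by norm_num) (by norm_num) (by norm_num) (by norm_num) (by norm_num) (by norm_num) (by norm_num) (by norm_num) (by norm_num) (by norm_num) (by norm_num) (by norm_num) (by norm_num) (by norm_num)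
    (expn 8 0.6457 (by norm_num) (by norm_num) (E := 0.00017665) (by norm_num) (by norm_num)) (by norm_num) (by norm_num) (by norm_num) (by norm_num) (by norm_num) (by norm_num) (by norm_num) (by norm_num) (by norm_num) H.hq1 (by norm_num) (by norm_num)
    (expn 8 0.7577 (by norm_num) (by norm_num) (E := 0.00015845) (by norm_num) (by norm_num)) (by norm_num) (by norm_num)


theorem tw3u (H : D6 β r t κ s h T) (B : BX6 1.1 1.25 0.49774 0.4878 10.965 0.10032 5.4413 β r κ T) (h1 : 0.45 ≤ s) (h2 : s ≤ 0.58) (htp : Real.pi / 2 ≤ (s + 2) * h - κ) :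
    ‖Xf β r h (t) 3‖ ≤ 0.000552 * ‖Xf β r h t 1‖ ∧
    r * ‖Xf β r h (t) 3‖ ≤ (10.965 * 0.000552) * ‖Xf β r h t 1‖ := by
  have hr := rgR (a := 2) (τ1 := 2.5656) (τm := 2.7018) H.h1 H.h2 h1 h2 (by norm_num) (by norm_num) (by norm_num)
  have e : (s + ((3 : ℤ) : ℝ) - 1) * h + 2 * Real.pi * ((0 : ℤ) : ℝ) = (s + 2) * h := by push_cast; ring
  exact cellUW (k := 3) (Y := ‖Xf β r h t 1‖) (g := 0.4829 * s ^ 2) 0 1.1 1.25 1.5707 2.7018 0.04 10.965 0.10032 0.3804 0.04 1.9178 0.9515 1.09663 0.16245 0.752 0.9193 3.3114 0.000065253 0.000552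
    H.hβ H.hκ H.hs H.hT H.h0 H.hq2 (by norm_num) B.hk1 B.hk2 (by rw [e]; exact le_trans (by have := Real.pi_gt_d6; norm_num at this ⊢; linarith) htp) (by rw [e]; exact hr.2)
    B.hR B.hb (y1w H B (by linarith) (by linarith)) (by positivity) (gA (by norm_num) (by linarith) (by linarith : s ≤ 0.58) (by norm_num))
    (by norm_num) (by norm_num) (by norm_num) (by norm_num) (by norm_num) (by norm_num) (by norm_num) (by norm_num) (by norm_num) (by norm_num) (by norm_num) (by norm_num) (by norm_num) (by norm_num) (by norm_num) (by norm_num) (by norm_num) (by norm_num) (by norm_num) 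
    (expn 9 0.6415 (by norm_num) (by norm_num) (E := 0.000065253) (by norm_num) (by norm_num)) (by norm_num) (by norm_num)


theorem tw3 (H : D6 β r t κ s h T) (B : BX6 1.1 1.25 0.49774 0.4878 10.965 0.10032 5.4413 β r κ T) (h1 : 0.45 ≤ s) (h2 : s ≤ 0.58) :
    ‖Xf β r h (t) 3‖ ≤ 0.00112 * ‖Xf β r h t 1‖ ∧ r * ‖Xf β r h (t) 3‖ ≤ 0.0131 * ‖Xf β r h t 1‖ := by
  have hX0 := norm_nonneg (Xf β r h t 1)
  rcases le_total ((s + 2) * h - κ) (Real.pi / 2) with g | g
  · have h3 := tw3r H B h1 h2 g (by have := Real.pi_lt_d6; have := B.hk2; norm_num at this ⊢; linarith)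
    refine ⟨h3.1.trans (mul_le_mul_of_nonneg_right (by norm_num) hX0), h3.2.trans (mul_le_mul_of_nonneg_right (by norm_num) hX0)⟩
  · have h3 := tw3u H B h1 h2 g
    refine ⟨h3.1.trans (mul_le_mul_of_nonneg_right (by norm_num) hX0), h3.2.trans (mul_le_mul_of_nonneg_right (by norm_num) hX0)⟩


theorem tw3sr (H : D6 β r t κ s h T) (B : BX6 1.1 1.25 0.49774 0.4878 10.965 0.10032 5.4413 β r κ T) (h1 : 0.45 ≤ s) (h2 : s ≤ 0.58) (htp : (s + β / h + 2) * h - κ ≤ Real.pi / 2) (htm : (s + β / h + 2) * h ≤ 2.821) :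
    ‖Xf β r h (t + β) 3‖ ≤ (0.00046 + 0.000656) * ‖Xf β r h t 1‖ ∧
    r * ‖Xf β r h (t + β) 3‖ ≤ (2.3368 * 5.4413 * 0.00046 + 10.965 * 0.000656) * ‖Xf β r h t 1‖ := by
  obtain ⟨hs5, hs6⟩ := H.bh (b := 0.0958) B.hb (by norm_num)
  have hr := rgR (a := 2) (τ1 := 2.5656) (τm := 2.8021) H.h1 H.h2 (by linarith : 0.45 ≤ s + β / h) (by linarith : s + β / h ≤ 0.6758) (by norm_num) (by norm_num) (by norm_num)
  have e : s + β / h + ((3 : ℤ) : ℝ) - 1 = s + β / h + 2 := by push_cast; ring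
  exact cellRW (k := 3) (Y := ‖Xf β r h t 1‖) (g := 0.4829 * s ^ 2) 0.37 0.281 1.1 1.25 0.49774 0.4878 2.5656 2.821 _ _ _ _ _ 0.15794 2.4581 10.965 0.10032 0.3804 0.1206 0.9398 0.9515 1.58891 5.4413 0.00017665 0.00046 1.09663 0.16245 0.752 0.9193 3.3114 0.00015845 0.000656 2.3368 1.09662
    H.hβ H.hκ H.shift.hs H.hT H.h0 H.hq2 (by norm_num) B.hk1 B.hk2 B.hψ B.hψ1 (by rw [e]; exact htp) (by rw [e]; exact hr.1) (by rw [e]; exact htm)
    B.hR B.hb B.hT (y1w H B (by linarith) (by linarith)) (by positivity) (gA (by norm_num) (by linarith) (by linarith : s ≤ 0.58) (by norm_num))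
    (by rw [e]; exact qB (s1 := 0.45) (s2 := 0.58) (by norm_num) (by norm_num) h1 h2 hs5 (by norm_num) (by norm_num) (by norm_num))
    (by norm_num) (by norm_num) (by norm_num) (by norm_num) rfl rfl (by norm_num) rfl rfl rfl (by norm_num) (by norm_num) (by norm_num) (by norm_num) (by norm_num) (by norm_num) (by norm_num) (by norm_num) (by norm_num) (by norm_num) (by norm_num) (by norm_num) (by norm_num) (by norm_num) (by norm_num) (by norm_num) (by norm_num) (by norm_num) (by norm_num)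
    (expn 8 0.6457 (by norm_num) (by norm_num) (E := 0.00017665) (by norm_num) (by norm_num)) (by norm_num) (by norm_num) (by norm_num) (by norm_num) (by norm_num) (by norm_num) (by norm_num) (by norm_num) (by norm_num) H.hq1 (by norm_num) (by norm_num)
    (expn 8 0.7577 (by norm_num) (by norm_num) (E := 0.00015845) (by norm_num) (by norm_num)) (by norm_num) (by norm_num)


theorem tw3su (H : D6 β r t κ s h T) (B : BX6 1.1 1.25 0.49774 0.4878 10.965 0.10032 5.4413 β r κ T) (h1 : 0.45 ≤ s) (h2 : s ≤ 0.58) (htp : Real.pi / 2 ≤ (s + β / h + 2) * h - κ) :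
    ‖Xf β r h (t + β) 3‖ ≤ 0.000552 * ‖Xf β r h t 1‖ ∧
    r * ‖Xf β r h (t + β) 3‖ ≤ (10.965 * 0.000552) * ‖Xf β r h t 1‖ := by
  obtain ⟨hs5, hs6⟩ := H.bh (b := 0.0958) B.hb (by norm_num)
  have hr := rgR (a := 2) (τ1 := 2.5656) (τm := 2.8021) H.h1 H.h2 (by linarith : 0.45 ≤ s + β / h) (by linarith : s + β / h ≤ 0.6758) (by norm_num) (by norm_num) (by norm_num)
  have e : (s + β / h + ((3 : ℤ) : ℝ) - 1) * h + 2 * Real.pi * ((0 : ℤ) : ℝ) = (s + β / h + 2) * h := by push_cast; ring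
  exact cellUW (k := 3) (Y := ‖Xf β r h t 1‖) (g := 0.4829 * s ^ 2) 0 1.1 1.25 1.5707 2.8021 0.04 10.965 0.10032 0.3804 0.04 1.9178 0.9515 1.09663 0.16245 0.752 0.9193 3.3114 0.000065253 0.000552
    H.hβ H.hκ H.shift.hs H.hT H.h0 H.hq2 (by norm_num) B.hk1 B.hk2 (by rw [e]; exact le_trans (by have := Real.pi_gt_d6; norm_num at this ⊢; linarith) htp) (by rw [e]; exact hr.2)
    B.hR B.hb (y1w H B (by linarith) (by linarith)) (by positivity) (gA (by norm_num) (by linarith) (by linarith : s ≤ 0.58) (by norm_num))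
    (by norm_num) (by norm_num) (by norm_num) (by norm_num) (by norm_num) (by norm_num) (by norm_num) (by norm_num) (by norm_num) (by norm_num) (by norm_num) (by norm_num) (by norm_num) (by norm_num) (by norm_num) (by norm_num) (by norm_num) (by norm_num) (by norm_num) 
    (expn 9 0.6415 (by norm_num) (by norm_num) (E := 0.000065253) (by norm_num) (by norm_num)) (by norm_num) (by norm_num)


theorem tw3s (H : D6 β r t κ s h T) (B : BX6 1.1 1.25 0.49774 0.4878 10.965 0.10032 5.4413 β r κ T) (h1 : 0.45 ≤ s) (h2 : s ≤ 0.58) :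
    ‖Xf β r h (t + β) 3‖ ≤ 0.00112 * ‖Xf β r h t 1‖ ∧ r * ‖Xf β r h (t + β) 3‖ ≤ 0.0131 * ‖Xf β r h t 1‖ := by
  have hX0 := norm_nonneg (Xf β r h t 1)
  rcases le_total ((s + β / h + 2) * h - κ) (Real.pi / 2) with g | g
  · have h3 := tw3sr H B h1 h2 g (by have := Real.pi_lt_d6; have := B.hk2; norm_num at this ⊢; linarith)
    refine ⟨h3.1.trans (mul_le_mul_of_nonneg_right (by norm_num) hX0), h3.2.trans (mul_le_mul_of_nonneg_right (by norm_num) hX0)⟩
  · have h3 := tw3su H B h1 h2 g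
    refine ⟨h3.1.trans (mul_le_mul_of_nonneg_right (by norm_num) hX0), h3.2.trans (mul_le_mul_of_nonneg_right (by norm_num) hX0)⟩


theorem win (H : D6 β r t κ s h T) (B : BX6 1.1 1.25 0.49774 0.4878 10.965 0.10032 5.4413 β r κ T) (h1 : 0.45 ≤ s) (h2 : s ≤ 0.58) :
    Win6 β r h t 3.475 0.0295 0.009929 0.00112 0.000188 1.1927 0.607 0.0572 0.0105 := by
  have hk1 := B.hk1
  have hk2 := B.hk2
  have hk0 := H.k0
  have hr := rgR (a := 0) (τ1 := 0.4712) (τm := 0.6075) H.h1 H.h2 h1 h2 (by norm_num) (by norm_num) (by norm_num)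
  rw [add_zero, ← H.hs] at hr
  obtain ⟨ha, hb⟩ := hr
  have hr0 := rgL (a := (-1)) (b1 := 0.4398) (b2 := 0.576) H.h1 H.h2 h1 h2 (by norm_num) (by norm_num) (by norm_num)
  have e0 : (s + -1) * h = (t - h) + κ := by rw [H.a0]; ring
  rw [e0] at hr0
  obtain ⟨ha0, hb0⟩ := hr0
  have hD := H.dom' (t' := t) (by linarith) (by linarith)
  have hy1 : 0.209 ≤ sy κ t := syR_ge hD 1.1 1.25 0.4712 0.209 1.23244 1.23245 0.20606 0.23417 hk1 hk2 (by linarith) (by norm_num) (by norm_num)
    (expn_ge (by norm_num) (by norm_num)) (expn_le (by norm_num) (by norm_num) (by norm_num)) (by norm_num)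
    (by norm_num) (by norm_num) (by norm_num) (by norm_num) (by norm_num) (by norm_num)
  have hy2 : sy κ t ≤ 0.265 := syR_le hD 1.1 1.25 0.6075 0.265 1.30343 0.2668 0.27632 0.31402 hk1 hk2 (by linarith) (by norm_num) (by norm_num)
    (expn_ge (by norm_num) (by norm_num)) (by norm_num) (by norm_num) (Or.inr ((mul_le_mul_of_nonneg_left (expn_le (E := 1.30344) (by norm_num) (by norm_num) (by norm_num)) (by norm_num)).trans (by norm_num))) (by norm_num) (by norm_num) (by norm_num)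
  have hy10 := hy1
  have hy20 := hy2
  clear hy1 hy2
  have hD1 := hD
  clear hD
  have hD := H.dom' (t' := t - h) (by linarith) (by linarith)
  have hy1 : -0.311 ≤ sy κ (t - h) := syL_ge hD 1.1 1.25 0.576 0.311 0.73271 0.73272 0.1926 0.18229 0.20716 hk1 hk2 (by linarith) (by norm_num) (by norm_num) (by norm_num)
    (expm_ge (by norm_num) (by norm_num) (by norm_num) (by norm_num)) (expm_le (by norm_num) (by norm_num) (by norm_num)) (by norm_num)
    (by norm_num) (by norm_num) (by norm_num) (by norm_num) (by norm_num) (by norm_num)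
  have hy2 : sy κ (t - h) ≤ -0.223 := syL_le hD 1.1 1.25 0.4398 0.223 0.80011 0.80012 0.14273 0.16221 hk1 hk2 (by linarith) (by norm_num) (by norm_num) (by norm_num)
    (expm_ge (by norm_num) (by norm_num) (by norm_num) (by norm_num)) (expm_le (by norm_num) (by norm_num) (by norm_num)) (by norm_num)
    (by norm_num) (by norm_num) (by norm_num) (by norm_num) (by norm_num) (by norm_num)
  have hJ1 := JD6c_5 hD1 H.hβ (by linarith) (by linarith) (by linarith) (by linarith) H.ble H.bc'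
  have hJ0 := JD6b_3 hD H.hβ (by linarith) (by linarith) (by linarith) (by linarith) H.ble H.bc'
  have hρ1 := rho_le hD1 (k2 := 1.25) (yl := 0.209) (E := 0.8114) (ρ := 0.6485) hk2 hy10 (expm_le (by norm_num) (by norm_num) (by norm_num)) (by norm_num) (by norm_num) (by norm_num) (by norm_num)
  have hρ0 := rho_le hD (k2 := 1.25) (yl := (-0.311)) (E := 1.36479) (ρ := 0.9408) hk2 hy1 (by rw [neg_neg]; exact expn_le (by norm_num) (by norm_num) (by norm_num)) (by norm_num) (by norm_num) (by norm_num) (by norm_num)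
  have he1 : ‖Ld β r h t 1 - (sg κ t / β + Gc6 κ t)‖ ≤ 0.4276 := (Ld_near (k := 1) (δ := 0.15) (ε := 0.09) (ρ := 0.6485) H.hβ H.hκ (by push_cast; ring) hD1 (by norm_num) (by norm_num) (by norm_num) (by linarith) hJ1 hρ1).trans (by norm_num)
  have he0 : ‖Ld β r h t 0 - (sg κ (t - h) / β + Gc6 κ (t - h))‖ ≤ 0.8553 := (Ld_near (k := 0) (δ := 0.15) (ε := 0.12) (ρ := 0.9408) H.hβ H.hκ (by push_cast; ring) hD (by norm_num) (by norm_num) (by norm_num) (by linarith) hJ0 hρ0).trans (by norm_num)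
  have hg1 := gam_le hD1 (yl := 0.209) (γ := 0.21) hy10 (by norm_num) (by norm_num) (by norm_num)
  have hg0 := gam_le hD (yl := (-0.311)) (γ := 0.4067) hy1 (by norm_num) (by norm_num) (by norm_num)
  have hDl1 : 2.1094 ≤ sD κ t := by
    refine le_trans ?_ (D_lo6 hD1 1.1 1.25 0.209 0.265 0.226 0.79771 0.9545 hk1 hk2 (by norm_num) hy10 hy20 (expm_ge (by norm_num) (by norm_num) (by norm_num) (by norm_num)) (by norm_num) (by norm_num) (by norm_num) (by norm_num) (by norm_num) (by norm_num))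
    nlinarith [pow_le_pow_left₀ (by norm_num) hk1 2]
  have hw1 : (κ * Real.exp (-sy κ t)) ^ 2 ≤ 1.0288 := by
    have h4 : Real.exp (-sy κ t) ≤ 0.8114 := (Real.exp_le_exp.2 (by linarith : -sy κ t ≤ -0.209)).trans (expm_le (by norm_num) (by norm_num) (by norm_num))
    have h3 : κ * Real.exp (-sy κ t) ≤ 1.25 * 0.8114 := mul_le_mul hk2 h4 (Real.exp_pos _).le (by norm_num)
    refine (pow_le_pow_left₀ (by positivity) h3 2).trans (by norm_num)
  have hG1 : -(0.0029 : ℝ) ≤ (Gc6 κ t).im := by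
    refine le_trans ?_ (Gim_ge hD1 hg1 hw1 (by norm_num) (by norm_num : (0:ℝ) < 2.1094) hDl1)
    norm_num
  have hDl0 : 2.444 ≤ sD κ (t - h) := by
    refine le_trans ?_ (D_lo6 hD 1.1 1.25 (-0.311) (-0.223) (-0.223) 1.24982 1.1059 hk1 hk2 (by norm_num) hy1 hy2 (by rw [neg_neg]; exact expn_ge (by norm_num) (by norm_num)) (by norm_num) (by norm_num) (by norm_num) (by norm_num) (by norm_num) (by norm_num))
    nlinarith [pow_le_pow_left₀ (by norm_num) hk1 2]
  have hw0 : 1 ≤ (κ * Real.exp (-sy κ (t - h))) ^ 2 := by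
    have h4 : 1.24982 ≤ Real.exp (-sy κ (t - h)) := le_trans (by rw [neg_neg]; exact expn_ge (by norm_num) (by norm_num)) (Real.exp_le_exp.2 (by linarith : -(-0.223) ≤ -sy κ (t - h)))
    have h3 : 1.1 * 1.24982 ≤ κ * Real.exp (-sy κ (t - h)) := mul_le_mul hk1 h4 (by norm_num) hk0.le
    refine le_trans (by norm_num) (pow_le_pow_left₀ (by norm_num) h3 2)
  have hG0 : (Gc6 κ (t - h)).im ≤ 0.0001 := by
    refine (Gim_le hD hg0 hw0 (by norm_num) (by norm_num : (0:ℝ) < 2.444) hDl0).trans ?_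
    norm_num
  have hsl := slope6 H hD hD1 (c1 := 0.856) (c0 := 1) (g0 := 0.0001) (g1 := 0.0029) (m := 3.475) (T0 := 5.4413) (μ := 0.9164) he0 he1 (pR63_110 hD1 (by linarith) H.hk2 (by linarith) (by linarith))
    (by rw [one_mul]; exact pL_one hD (by linarith) H.hk2 (by linarith) (by linarith)) hG1 hG0 (by linarith) (by norm_num) B.hT (by norm_num) (by norm_num) (by norm_num)
  have hL1 := Ln6 H hD1 (E := 0.8114) he1 hg1 hy10 (expm_le (by norm_num) (by norm_num) (by norm_num))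
  have hL0 := Ln6 H hD (E := 1.36479) he0 hg0 hy1 (by rw [neg_neg]; exact expn_le (by norm_num) (by norm_num) (by norm_num))
  have hds := dist6 H hD hD1 h1 h2 (dy := 0.576) (k1 := 1.1) (lam := 1.0866) (by linarith) hk1 (by norm_num) (by norm_num) (by norm_num)
  have hA := Ldd6 H he0 he1 hg0 hg1 hds
  obtain ⟨l2, l3, lm1, lm2⟩ := Lam6 hA hL0 hL1
  have q2 := tw2 H B h1 h2
  have q2s := tw2s H B h1 h2
  have qm1 := twm1 H B h1 h2
  have qm1s := twm1s H B h1 h2
  have qm2 := twm2 H B h1 h2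
  have qm2s := twm2s H B h1 h2
  have q3 := tw3 H B h1 h2
  have q3s := tw3s H B h1 h2
  have hX1 := norm_nonneg (Xf β r h t 1)
  have hX0 := norm_nonneg (Xf β r h t 0)
  have hYp := lt_of_lt_of_le (mul_pos (eN_pos r κ) (by positivity)) (y0w H B h1 h2)
  refine ⟨norm_pos_iff.1 hYp, q2.1.trans (mul_le_mul_of_nonneg_right (by norm_num) hX1), q3.1.trans (mul_le_mul_of_nonneg_right (by norm_num) hX1),
    qm1.1.trans (mul_le_mul_of_nonneg_right (by norm_num) hX0), qm2.1.trans (mul_le_mul_of_nonneg_right (by norm_num) hX0),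
    wsum6 q2s.2 q2.1 q2.2 (lam := 1.898) (c := 2.5372) (l2.trans (le_of_eq (by ring))) (norm_nonneg _) (by norm_num) (by norm_num) hX1 (by norm_num),
    wsum6 q3s.2 q3.1 q3.2 (lam := 2.9846) (c := 4.4368) (l3.trans (le_of_eq (by ring))) (norm_nonneg _) (by norm_num) (by norm_num) hX1 (by norm_num),
    wsum6 qm1s.2 qm1.1 qm1.2 (lam := 2.45139) (c := 3.1616) (lm1.trans (le_of_eq (by ring))) (norm_nonneg _) (by norm_num) (by norm_num) hX0 (by norm_num),
    wsum6 qm2s.2 qm2.1 qm2.2 (lam := 3.53799) (c := 5.0612) (lm2.trans (le_of_eq (by ring))) (norm_nonneg _) (by norm_num) (by norm_num) hX0 (by norm_num), hsl⟩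


/-- box 1.1 ≤ κ ≤ 1.25 -/
theorem box {p : ℤ} (hp : IsCoprime (6 : ℤ) p) {β r κ : ℝ} (hβ : 0 < β) (hr : 10 ≤ r) (hκ : κ = β * r)
    (hc : 4.9619 * (1 + κ ^ 2) ≤ r) (hk1 : 1.1 ≤ κ) (hk2 : κ ≤ 1.25) : Circ (2 * Real.pi * p / 6 + β) r := by
  refine circ6 hp hβ hr hκ hc (by linarith) (by linarith) (slo := 0.45) (shi := 0.58) (m := 3.475) (E2 := 0.0295) (Em1 := 0.009929) (E3 := 0.00112)
    (Em2 := 0.000188) (W2 := 1.1927) (Wm1 := 0.607) (W3 := 0.0572) (Wm2 := 0.0105) (a := 1.05)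
    (by norm_num) (by norm_num) (by norm_num) (by norm_num) (by norm_num) (by norm_num) (by norm_num) (by norm_num) (by norm_num)
    (by norm_num) (by norm_num) (by norm_num)
    (fun t s h T H h1 h2 => win H (mkB H hk1 hk2) h1 h2) ?_ ?_
  · intro t s h T H h1 h2
    have B := mkB H hk1 hk2
    rcases le_total s 0.25 with g0 | f0
    · exact outL0 H B h1 g0
    rcases le_total s 0.35 with g1 | f1
    · exact outL1 H B f0 g1
    rcases le_total s 0.43 with g2 | f2
    · exact outL2 H B f1 g2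
    exact outL3 H B f2 h2
  · intro t s h T H h1 h2
    have B := mkB H hk1 hk2
    rcases le_total s 0.6 with g0 | f0
    · exact outR0 H B h1 g0
    rcases le_total s 0.65 with g1 | f1
    · exact outR1 H B f0 g1
    rcases le_total s 0.75 with g2 | f2
    · exact outR2 H B f1 g2
    exact outR3 H B f2 h2

end Sok.B6K6
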