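import Pool.Agent.Lib.MP_816dec_an.BDefs

/-!
MP_816dec_an, finite part, row AN1: the rotated coordinate.
-/

set_option autoImplicit false

open Complex Set Filter Topology Metric Finset

namespace SokB

open Sok

theorem cis_add (x y : ℝ) : cis (x + y) = cis x * cis y := by
  unfold cis
  rw [← Complex.exp_add]
  congr 1
  push_cast
  ring

theorem cis_zero : cis 0 = 1 := by
  unfold cis
  simp

theorem norm_cis (x : ℝ) : ‖cis x‖ = 1 := Complex.norm_exp_ofReal_mul_I x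

theorem cis_pow (x : ℝ) (n : ℕ) : cis x ^ n = cis (n * x) := by
  unfold cis
  rw [← Complex.exp_nat_mul]
  congr 1
  push_cast
  ring

theorem cis_neg_mul (x : ℝ) : cis (-x) * cis x = 1 := by
  rw [← cis_add, neg_add_cancel, cis_zero]

theorem tri_cast (n : ℕ) : ((n * (n + 1) / 2 : ℕ) : ℝ) = n * (n + 1) / 2 := by
  rw [Nat.cast_div (Nat.even_mul_succ_self n).two_dvd (by norm_num)]
  push_cast
  ring

theorem tri_cast' (n : ℕ) : ((n * (n - 1) / 2 : ℕ) : ℝ) = n * (n - 1) / 2 := by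
  rcases n with _ | n
  · simp
  · have h := tri_cast n
    rw [Nat.add_sub_cancel, mul_comm (n + 1) n, h]
    push_cast
    ring

theorem ee_cast (i k : ℕ) : (ee i k : ℝ) = ((k : ℝ) - i) * ((k : ℝ) - i - 1) / 2 := by
  unfold ee
  rw [tri_cast]
  unfold je
  split_ifs with h
  · rw [Nat.cast_sub h]
    ring
  · rw [Nat.cast_sub (by omega), Nat.cast_sub (by omega)]
    push_cast
    ring

/-- one term -/
theorem tm_rot (i : ℕ) (α : ℝ) (w : ℂ) (k : ℕ) :
    tm (Complex.exp (α * I)) (w * cis (-(i * α))) k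
      = cis (-((i * (i + 1) / 2 : ℕ) * α)) * tau i α w k := by
  have h1 : Complex.exp (α * I) = cis α := rfl
  unfold tm tau
  rw [h1, mul_pow, cis_pow, cis_pow]
  have h2 : cis (((k * (k - 1) / 2 : ℕ) : ℝ) * α) * cis (k * -(i * α))
      = cis (-((i * (i + 1) / 2 : ℕ) * α)) * cis (ee i k * α) := by
    rw [← cis_add, ← cis_add]
    congr 1
    rw [ee_cast, tri_cast, tri_cast']
    ring
  calc cis (((k * (k - 1) / 2 : ℕ) : ℝ) * α) * (w ^ k * cis (k * -(i * α))) / (k.factorial : ℂ)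
      = (cis (((k * (k - 1) / 2 : ℕ) : ℝ) * α) * cis (k * -(i * α))) * (w ^ k / (k.factorial : ℂ)) := by
        ring
    _ = _ := by rw [h2]; ring

/-- AN1a -/
theorem Fa_rot (i : ℕ) (α : ℝ) (w : ℂ) :
    Fa α (w * cis (-(i * α))) = cis (-((i * (i + 1) / 2 : ℕ) * α)) * ∑' k, tau i α w k := by
  unfold Fa
  rw [F_eq, ← tsum_mul_left]
  exact tsum_congr fun k => tm_rot i α w k

/-- one term of the derivative -/
theorem tm_rot' (i : ℕ) (α : ℝ) (w0 ζ : ℂ) (hw : w0 ≠ 0) (m : ℕ) :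
    tm (Complex.exp (α * I)) (Complex.exp (α * I) * (w0 * (1 + ζ) * cis (-(i * α)))) m =
      cis (i * α) * cis (-((i * (i + 1) / 2 : ℕ) * α)) *
        ((((m + 1 : ℕ) : ℂ) * tau i α w0 (m + 1) * (1 + ζ) ^ (m + 1 - 1)) / w0) := by
  have h1 : Complex.exp (α * I) = cis α := rfl
  unfold tm tau
  rw [h1, mul_pow, mul_pow, mul_pow, cis_pow, cis_pow, cis_pow, Nat.add_sub_cancel]
  have h2 : cis (((m * (m - 1) / 2 : ℕ) : ℝ) * α) * cis (m * α) * cis (m * -(i * α))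
      = cis (i * α) * cis (-((i * (i + 1) / 2 : ℕ) * α)) * cis (ee i (m + 1) * α) := by
    rw [← cis_add, ← cis_add, ← cis_add, ← cis_add]
    congr 1
    rw [ee_cast, tri_cast, tri_cast']
    push_cast
    ring
  have h3 : ((m + 1 : ℕ) : ℂ) ≠ 0 := Nat.cast_ne_zero.2 (Nat.succ_ne_zero m)
  have h4 : (m.factorial : ℂ) ≠ 0 := Nat.cast_ne_zero.2 (Nat.factorial_ne_zero m)
  have h5 : (((m + 1 : ℕ) : ℂ) * (cis (ee i (m + 1) * α) * (w0 ^ (m + 1) / ((m + 1).factorial : ℂ)))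
      * (1 + ζ) ^ m) / w0 = cis (ee i (m + 1) * α) * (w0 ^ m * (1 + ζ) ^ m / (m.factorial : ℂ)) := by
    rw [Nat.factorial_succ, pow_succ]
    push_cast
    push_cast at h3
    field_simp
  rw [h5]
  calc cis (((m * (m - 1) / 2 : ℕ) : ℝ) * α) * (cis (m * α) * (w0 ^ m * (1 + ζ) ^ m * cis (m * -(i * α))))
        / (m.factorial : ℂ)
      = (cis (((m * (m - 1) / 2 : ℕ) : ℝ) * α) * cis (m * α) * cis (m * -(i * α)))
        * (w0 ^ m * (1 + ζ) ^ m / (m.factorial : ℂ)) := by ring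
    _ = _ := by rw [h2]; ring

/-- AN1b -/
theorem Fa_rot' (i : ℕ) (α : ℝ) (w0 ζ : ℂ) (hw : w0 ≠ 0) :
    Fa α (Complex.exp (α * I) * (w0 * (1 + ζ) * cis (-(i * α)))) =
      cis (i * α) * cis (-((i * (i + 1) / 2 : ℕ) * α)) *
        ((∑' k : ℕ, (k : ℂ) * tau i α w0 k * (1 + ζ) ^ (k - 1)) / w0) := by
  obtain ⟨f, hf⟩ : ∃ f : ℕ → ℂ, f = fun k : ℕ => (k : ℂ) * tau i α w0 k * (1 + ζ) ^ (k - 1) := ⟨_, rfl⟩
  obtain ⟨c, hc⟩ : ∃ c : ℂ, c = cis (i * α) * cis (-((i * (i + 1) / 2 : ℕ) * α)) := ⟨_, rfl⟩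
  have hc0 : c ≠ 0 := by
    rw [← norm_pos_iff, hc, norm_mul, norm_cis, norm_cis]
    norm_num
  obtain ⟨z, hz⟩ : ∃ z : ℂ, z = Complex.exp (α * I) * (w0 * (1 + ζ) * cis (-(i * α))) := ⟨_, rfl⟩
  have h1 : ∀ m, tm (Complex.exp (α * I)) z m = c * (f (m + 1) / w0) := by
    intro m
    rw [hz, hc, hf]
    exact tm_rot' i α w0 ζ hw m
  have hs : Summable (tm (Complex.exp (α * I)) z) := summable_tm (norm_ea α).le z
  have hs2 : Summable f := by
    rw [← summable_nat_add_iff 1]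
    have h2 : (fun m => f (m + 1)) = fun m => (w0 / c) * tm (Complex.exp (α * I)) z m := by
      funext m
      rw [h1]
      field_simp
    rw [h2]
    exact hs.mul_left _
  have h3 : ∑' k, f k = ∑' m, f (m + 1) := by
    rw [hs2.tsum_eq_zero_add, hf]
    simp
  unfold Fa
  rw [← hz, F_eq, ← hc, ← hf, h3, ← tsum_div_const, ← tsum_mul_left]
  exact tsum_congr h1

end SokB
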