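import Pool.Agent.Lib.MP_816dec_an.BDefs

/-!
MP_816dec_an, finite part, analysis of one certificate: two-variable Taylor remainder, bounds of the value
and of the derivative.
-/

set_option autoImplicit false

open Complex Set Filter Topology Metric Finset

namespace SokB

open Sok

theorem bn_triangle_sum {A : Type*} [AddCommMonoid A] (f : ℕ → ℕ → A) (M : ℕ) :
    ∑ m ∈ range M, ∑ p ∈ antidiagonal m, f p.1 p.2 = ∑ s ∈ range M, ∑ t ∈ range (M - s), f s t := by
  induction M with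
  | zero => simp
  | succ M ih =>
    rw [sum_range_succ, ih, Finset.Nat.sum_antidiagonal_eq_sum_range_succ (fun i j => f i j) M]
    have h1 : ∑ s ∈ range (M + 1), ∑ t ∈ range (M + 1 - s), f s t
        = ∑ s ∈ range (M + 1), (∑ t ∈ range (M - s), f s t + f s (M - s)) := by
      apply sum_congr rfl
      intro s hs
      have h2 : M + 1 - s = (M - s) + 1 := by
        have := Finset.mem_range.1 hs
        omega
      rw [h2, sum_range_succ]
    rw [h1, sum_add_distrib, sum_range_succ (fun s => ∑ t ∈ range (M - s), f s t) M]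
    simp

theorem bn_cis (x : ℝ) : ‖cis x‖ = 1 := Complex.norm_exp_ofReal_mul_I x

/-- AN2: remainder of the two-variable Taylor expansion (total degree below `M`) -/
theorem taylor2 (M k e : ℕ) (ζ : ℂ) (δ σ h : ℝ) (hζ : ‖ζ‖ ≤ σ) (hδ : |δ| ≤ h) :
    ‖(1 + ζ) ^ k * cis (e * δ) -
      ∑ s ∈ range M, ∑ t ∈ range (M - s), (k.choose s : ℂ) * ζ ^ s * ((e * δ * I) ^ t / (t.factorial : ℂ))‖
      ≤ rM M (k * σ + h * e) := by
  have hσ : 0 ≤ σ := (norm_nonneg ζ).trans hζ
  have hh : 0 ≤ h := (abs_nonneg δ).trans hδ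
  obtain ⟨u, hu⟩ : ∃ u : ℝ, u = k * σ + h * e := ⟨_, rfl⟩
  have hu0 : 0 ≤ u := by rw [hu]; positivity
  obtain ⟨a, ha⟩ : ∃ a : ℕ → ℂ, a = fun s => (k.choose s : ℂ) * ζ ^ s := ⟨_, rfl⟩
  obtain ⟨b, hb⟩ : ∃ b : ℕ → ℂ, b = fun t => ((e * δ * I) ^ t / (t.factorial : ℂ)) := ⟨_, rfl⟩
  have hasum : Summable (fun s => ‖a s‖) := by
    apply summable_of_ne_finset_zero (s := range (k + 1))
    intro s hs
    rw [Finset.mem_range] at hs
    rw [ha]
    simp [Nat.choose_eq_zero_of_lt (by omega : k < s)]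
  have hbsum : Summable (fun t => ‖b t‖) := by
    rw [hb]
    exact NormedSpace.norm_expSeries_div_summable ((e * δ * I : ℂ))
  have hA : ∑' s, a s = (1 + ζ) ^ k := by
    rw [tsum_eq_sum (s := range (k + 1))]
    · rw [add_comm 1 ζ, add_pow]
      apply sum_congr rfl
      intro s hs
      rw [ha]
      simp; ring
    · intro s hs
      rw [Finset.mem_range] at hs
      rw [ha]
      simp [Nat.choose_eq_zero_of_lt (by omega : k < s)]
  have hB : ∑' t, b t = cis (e * δ) := by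
    unfold cis
    rw [Complex.exp_eq_exp_ℂ, NormedSpace.exp_eq_tsum_div, hb]
    congr 1
    funext t
    push_cast
    rfl
  have hprod := tsum_mul_tsum_eq_tsum_sum_antidiagonal_of_summable_norm hasum hbsum
  have hcsum : Summable (fun n => ∑ p ∈ antidiagonal n, a p.1 * b p.2) :=
    (summable_norm_sum_mul_antidiagonal_of_summable_norm hasum hbsum).of_norm
  have hterm : ∀ n, ‖∑ p ∈ antidiagonal n, a p.1 * b p.2‖ ≤ u ^ n / (n.factorial : ℝ) := by
    intro n
    have h1 : ∀ p ∈ antidiagonal n, ‖a p.1 * b p.2‖ ≤ (k * σ) ^ p.1 / (p.1.factorial : ℝ) *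
        ((h * e) ^ p.2 / (p.2.factorial : ℝ)) := by
      intro p _
      rw [norm_mul]
      apply mul_le_mul _ _ (norm_nonneg _) (by positivity)
      · rw [ha]
        simp only [norm_mul, norm_pow, Complex.norm_natCast]
        have h2 : (k.choose p.1 : ℝ) ≤ (k : ℝ) ^ p.1 / (p.1.factorial : ℝ) := Nat.choose_le_pow_div p.1 k
        calc (k.choose p.1 : ℝ) * ‖ζ‖ ^ p.1 ≤ (k : ℝ) ^ p.1 / (p.1.factorial : ℝ) * σ ^ p.1 :=
              mul_le_mul h2 (pow_le_pow_left₀ (norm_nonneg _) hζ _) (by positivity) (by positivity)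
          _ = _ := by rw [mul_pow]; ring
      · rw [hb]
        simp only [norm_div, norm_pow, norm_mul, Complex.norm_natCast, Complex.norm_real, Complex.norm_I,
          mul_one, Real.norm_eq_abs]
        apply div_le_div_of_nonneg_right _ (by positivity)
        apply pow_le_pow_left₀ (by positivity)
        rw [mul_comm]
        exact mul_le_mul_of_nonneg_right hδ (by positivity)
    refine (norm_sum_le _ _).trans ((sum_le_sum h1).trans (le_of_eq ?_))
    rw [hu]
    have h3 : ((k * σ + h * e : ℝ)) ^ n / (n.factorial : ℝ) =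
        ∑ p ∈ antidiagonal n, (k * σ) ^ p.1 / (p.1.factorial : ℝ) * ((h * e) ^ p.2 / (p.2.factorial : ℝ)) := by
      rw [(Commute.all _ _).add_pow', sum_div]
      apply sum_congr rfl
      intro p hp
      rw [HasAntidiagonal.mem_antidiagonal] at hp
      subst hp
      have h4 : (((p.1 + p.2).choose p.1 : ℕ) : ℝ) * (p.1.factorial * p.2.factorial) = ((p.1 + p.2).factorial : ℝ) := by
        have h := Nat.add_choose_mul_factorial_mul_factorial p.1 p.2
        rw [← Nat.choose_symm_add] at h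
        rw [← mul_assoc]
        exact_mod_cast h
      rw [nsmul_eq_mul]
      have h5 : (0:ℝ) < (p.1.factorial : ℝ) := by positivity
      have h6 : (0:ℝ) < (p.2.factorial : ℝ) := by positivity
      have h7 : (0:ℝ) < ((p.1 + p.2).factorial : ℝ) := by positivity
      field_simp
      rw [← h4]
      ring
    rw [h3]
  have hfull : (1 + ζ) ^ k * cis (e * δ) = ∑' n, ∑ p ∈ antidiagonal n, a p.1 * b p.2 := by
    rw [← hA, ← hB, hprod]
  have hfin : ∑ s ∈ range M, ∑ t ∈ range (M - s), (k.choose s : ℂ) * ζ ^ s * ((e * δ * I) ^ t / (t.factorial : ℂ))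
      = ∑ n ∈ range M, ∑ p ∈ antidiagonal n, a p.1 * b p.2 := by
    rw [bn_triangle_sum (fun s t => a s * b t) M, ha, hb]
  rw [hfull, hfin, ← hcsum.sum_add_tsum_nat_add M]
  have h8 : ∑ n ∈ range M, ∑ p ∈ antidiagonal n, a p.1 * b p.2 +
      ∑' n, ∑ p ∈ antidiagonal (n + M), a p.1 * b p.2 - ∑ n ∈ range M, ∑ p ∈ antidiagonal n, a p.1 * b p.2
      = ∑' n, ∑ p ∈ antidiagonal (n + M), a p.1 * b p.2 := by ring
  rw [h8, ← hu]
  have h9 : ∀ n, ‖∑ p ∈ antidiagonal (n + M), a p.1 * b p.2‖ ≤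
      u ^ M / (M.factorial : ℝ) * (u ^ n / (n.factorial : ℝ)) := by
    intro n
    refine (hterm (n + M)).trans ?_
    have h10 : ((n.factorial : ℝ) * (M.factorial : ℝ)) ≤ ((n + M).factorial : ℝ) := by
      exact_mod_cast Nat.le_of_dvd (Nat.factorial_pos _) (Nat.factorial_mul_factorial_dvd_factorial_add n M)
    have h11 : u ^ M / (M.factorial : ℝ) * (u ^ n / (n.factorial : ℝ)) =
        u ^ (n + M) / ((n.factorial : ℝ) * (M.factorial : ℝ)) := by
      rw [pow_add]
      field_simp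
    rw [h11]
    exact div_le_div_of_nonneg_left (by positivity) (by positivity) h10
  have h12 : Summable (fun n => u ^ M / (M.factorial : ℝ) * (u ^ n / (n.factorial : ℝ))) :=
    (Real.summable_pow_div_factorial u).mul_left _
  have h13 : Real.exp u = ∑' n, u ^ n / (n.factorial : ℝ) := by
    rw [Real.exp_eq_exp_ℝ, NormedSpace.exp_eq_tsum_div]
  refine (tsum_of_norm_bounded (h12.hasSum) h9).trans (le_of_eq ?_)
  rw [tsum_mul_left, ← h13]
  rfl

theorem bn_norm_tau (i : ℕ) (α : ℝ) (w : ℂ) (k : ℕ) : ‖tau i α w k‖ = ‖w‖ ^ k / (k.factorial : ℝ) := by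
  unfold tau
  rw [norm_mul, bn_cis, one_mul, norm_div, norm_pow, Complex.norm_natCast]

theorem bn_tau_shift (i : ℕ) (αc δ : ℝ) (w : ℂ) (k : ℕ) :
    tau i (αc + δ) w k = tau i αc w k * cis (ee i k * δ) := by
  unfold tau
  have : cis (ee i k * (αc + δ)) = cis (ee i k * αc) * cis (ee i k * δ) := by
    unfold cis
    rw [← Complex.exp_add]
    congr 1
    push_cast
    ring
  rw [this]
  ring

theorem bn_rM_mono {M : ℕ} {u v : ℝ} (hu : 0 ≤ u) (huv : u ≤ v) : rM M u ≤ rM M v := by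
  unfold rM
  have hv : 0 ≤ v := hu.trans huv
  have h1 : u ^ M ≤ v ^ M := pow_le_pow_left₀ hu huv M
  have h2 : Real.exp u ≤ Real.exp v := Real.exp_le_exp.2 huv
  exact mul_le_mul (div_le_div_of_nonneg_right h1 (by positivity)) h2 (Real.exp_pos _).le (by positivity)

theorem bn_rM_nonneg {M : ℕ} {u : ℝ} (hu : 0 ≤ u) : 0 ≤ rM M u := by
  unfold rM; positivity

/-- geometric tail -/
theorem bn_tail_geom {K : ℕ} {x : ℝ} (hx : 0 ≤ x) (hK : x < K + 1) :
    Summable (fun j : ℕ => x ^ (j + K) / ((j + K).factorial : ℝ)) ∧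
      ∑' j : ℕ, x ^ (j + K) / ((j + K).factorial : ℝ) ≤ x ^ K / (K.factorial : ℝ) / (1 - x / (K + 1)) := by
  have hK1 : (0:ℝ) < K + 1 := by positivity
  have hr0 : 0 ≤ x / (K + 1) := by positivity
  have hr1 : x / (K + 1) < 1 := by rw [div_lt_one hK1]; exact hK
  have h1 : ∀ j : ℕ, x ^ (j + K) / ((j + K).factorial : ℝ) ≤ x ^ K / (K.factorial : ℝ) * (x / (K + 1)) ^ j := by
    intro j
    have h2 : ((K.factorial : ℝ) * (K + 1) ^ j) ≤ ((j + K).factorial : ℝ) := by
      rw [add_comm j K]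
      exact_mod_cast Nat.factorial_mul_pow_le_factorial
    have h3 : x ^ K / (K.factorial : ℝ) * (x / (K + 1)) ^ j = x ^ (j + K) / ((K.factorial : ℝ) * (K + 1) ^ j) := by
      rw [div_pow, pow_add]
      field_simp
    rw [h3]
    exact div_le_div_of_nonneg_left (by positivity) (by positivity) h2
  have h4 : Summable (fun j : ℕ => x ^ K / (K.factorial : ℝ) * (x / (K + 1)) ^ j) :=
    (summable_geometric_of_lt_one hr0 hr1).mul_left _
  have h5 : Summable (fun j : ℕ => x ^ (j + K) / ((j + K).factorial : ℝ)) :=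
    Summable.of_nonneg_of_le (fun j => by positivity) h1 h4
  refine ⟨h5, (h5.tsum_le_tsum h1 h4).trans (le_of_eq ?_)⟩
  rw [tsum_mul_left, tsum_geometric_of_lt_one hr0 hr1]
  rw [div_eq_mul_inv (x ^ K / (K.factorial : ℝ))]

/-- AN3a: value at the centre -/
theorem value_bound (i K M : ℕ) (αc h σ W W' : ℝ) (w0 : ℂ) (hσ : 0 ≤ σ) (hh : 0 ≤ h) (hW : ‖w0‖ ≤ W)
    (hW' : W * (1 + σ) ≤ W') (hK : W' < K + 1) (a : ℕ → ℝ)
    (ha : ∀ t < M, ‖Ac i K αc w0 0 t‖ ≤ a t) (α : ℝ) (hα : |α - αc| ≤ h) :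
    ‖∑' k, tau i α w0 k‖ ≤ ∑ t ∈ range M, a t * (h ^ t / (t.factorial : ℝ)) + Rem i K M W W' σ h := by
  have hW0 : 0 ≤ W := (norm_nonneg _).trans hW
  have hWW' : W ≤ W' := by nlinarith
  have hW'0 : 0 ≤ W' := hW0.trans hWW'
  obtain ⟨δ, hδ⟩ : ∃ δ, δ = α - αc := ⟨_, rfl⟩
  rw [← hδ] at hα
  have hαδ : α = αc + δ := by rw [hδ]; ring
  have hs : Summable (fun k => tau i α w0 k) := by
    apply Summable.of_norm
    have := Real.summable_pow_div_factorial ‖w0‖
    exact this.congr fun k => (bn_norm_tau i α w0 k).symm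
  rw [← hs.sum_add_tsum_nat_add (K + 1)]
  -- tail
  have hK1 : (0:ℝ) < K + 1 := by positivity
  obtain ⟨htg1, htg2⟩ := bn_tail_geom hW'0 hK
  have htail : ‖∑' k, tau i α w0 (k + (K + 1))‖ ≤ W' ^ K / (K.factorial : ℝ) * W' / (1 - W' / (K + 1)) := by
    have h1 : ∀ k, ‖tau i α w0 (k + (K + 1))‖ ≤ W' * (W' ^ (k + K) / ((k + K).factorial : ℝ)) := by
      intro k
      rw [bn_norm_tau]
      have h2 : ‖w0‖ ^ (k + (K + 1)) ≤ W' ^ (k + (K + 1)) := pow_le_pow_left₀ (norm_nonneg _) (hW.trans hWW') _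
      have h3 : ((k + K).factorial : ℝ) ≤ ((k + (K + 1)).factorial : ℝ) := by
        exact_mod_cast Nat.factorial_le (by omega)
      have h4 : (0:ℝ) < ((k + K).factorial : ℝ) := by positivity
      calc ‖w0‖ ^ (k + (K + 1)) / ((k + (K + 1)).factorial : ℝ) ≤ W' ^ (k + (K + 1)) / ((k + K).factorial : ℝ) :=
            div_le_div₀ (pow_nonneg hW'0 _) h2 h4 h3
        _ = _ := by rw [← add_assoc, pow_succ]; ring
    refine (tsum_of_norm_bounded (htg1.mul_left W').hasSum h1).trans ?_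
    rw [tsum_mul_left]
    calc W' * ∑' j : ℕ, W' ^ (j + K) / ((j + K).factorial : ℝ)
        ≤ W' * (W' ^ K / (K.factorial : ℝ) / (1 - W' / (K + 1))) := mul_le_mul_of_nonneg_left htg2 hW'0
      _ = _ := by ring
  -- main part
  obtain ⟨P, hP⟩ : ∃ P : ℕ → ℂ, P = fun k => ∑ t ∈ range M, ((ee i k * δ * I) ^ t / (t.factorial : ℂ)) := ⟨_, rfl⟩
  have hterm : ∀ k, ‖cis (ee i k * δ) - P k‖ ≤ rM M (k * σ + h * ee i k) := by
    intro k
    have h1 := taylor2 M k (ee i k) 0 δ 0 h (by simp) hα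
    have h2 : ∑ s ∈ range M, ∑ t ∈ range (M - s), (k.choose s : ℂ) * 0 ^ s *
        ((ee i k * δ * I) ^ t / (t.factorial : ℂ)) = P k := by
      rw [hP]
      rcases Nat.eq_zero_or_pos M with hM | hM
      · subst hM; simp
      · rw [Finset.sum_eq_single 0]
        · simp
        · intro s _ hs0
          apply Finset.sum_eq_zero
          intro t _
          rw [zero_pow hs0]; ring
        · intro h3
          exact absurd (Finset.mem_range.2 hM) h3
    rw [h2, add_zero, one_pow, one_mul] at h1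
    refine h1.trans (bn_rM_mono (by positivity) ?_)
    have : 0 ≤ (k:ℝ) * σ := by positivity
    linarith
  have hsplit : ∑ k ∈ range (K + 1), tau i α w0 k =
      ∑ t ∈ range M, (δ * I) ^ t / (t.factorial : ℂ) * Ac i K αc w0 0 t +
        ∑ k ∈ range (K + 1), tau i αc w0 k * (cis (ee i k * δ) - P k) := by
    have h1 : ∑ t ∈ range M, (δ * I) ^ t / (t.factorial : ℂ) * Ac i K αc w0 0 t
        = ∑ k ∈ range (K + 1), tau i αc w0 k * P k := by
      unfold Ac
      rw [hP]
      simp only [mul_sum]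
      rw [sum_comm]
      apply sum_congr rfl
      intro k _
      apply sum_congr rfl
      intro t _
      rw [Nat.choose_zero_right, one_mul]
      push_cast
      rw [mul_pow, mul_pow, mul_pow]
      ring
    rw [h1, ← sum_add_distrib]
    apply sum_congr rfl
    intro k _
    rw [hαδ, bn_tau_shift]
    ring
  have hmain : ‖∑ k ∈ range (K + 1), tau i α w0 k‖ ≤ ∑ t ∈ range M, a t * (h ^ t / (t.factorial : ℝ)) +
      ∑ k ∈ range (K + 1), (k + 1) * (W ^ k / (k.factorial : ℝ)) * rM M (k * σ + h * ee i k) := by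
    rw [hsplit]
    refine (norm_add_le _ _).trans (add_le_add ?_ ?_)
    · refine (norm_sum_le _ _).trans (sum_le_sum fun t ht => ?_)
      rw [norm_mul, norm_div, norm_pow, norm_mul, Complex.norm_I, mul_one, Complex.norm_real,
        Complex.norm_natCast, Real.norm_eq_abs, mul_comm]
      apply mul_le_mul (ha t (Finset.mem_range.1 ht)) _ (by positivity)
        ((norm_nonneg _).trans (ha t (Finset.mem_range.1 ht)))
      exact div_le_div_of_nonneg_right (pow_le_pow_left₀ (abs_nonneg _) hα t) (by positivity)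
    · refine (norm_sum_le _ _).trans (sum_le_sum fun k _ => ?_)
      rw [norm_mul, bn_norm_tau]
      apply mul_le_mul _ (hterm k) (norm_nonneg _) (by positivity)
      have h1 : ‖w0‖ ^ k / (k.factorial : ℝ) ≤ W ^ k / (k.factorial : ℝ) :=
        div_le_div_of_nonneg_right (pow_le_pow_left₀ (norm_nonneg _) hW k) (by positivity)
      have h2 : 0 ≤ W ^ k / (k.factorial : ℝ) := by positivity
      have h3 : (0:ℝ) ≤ k := Nat.cast_nonneg k
      nlinarith
  refine (norm_add_le _ _).trans ?_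
  unfold Rem
  linarith

/-- AN3b: variation of the derivative -/
theorem deriv_bound (i K M : ℕ) (αc h σ W W' : ℝ) (w0 L ζ : ℂ) (hσ : 0 ≤ σ) (hh : 0 ≤ h)
    (hM : 0 < M) (hW : ‖w0‖ ≤ W)
    (hW' : W * (1 + σ) ≤ W') (hK : W' < K + 1) (a : ℕ → ℕ → ℝ)
    (ha : ∀ s t, s + t < M → ‖Ac i K αc w0 (s + 1) t - (if s = 0 ∧ t = 0 then L else 0)‖ ≤ a s t)
    (α : ℝ) (hα : |α - αc| ≤ h) (hζ : ‖ζ‖ ≤ σ) :
    ‖∑' k : ℕ, (k : ℂ) * tau i α w0 k * (1 + ζ) ^ (k - 1) - L‖ ≤
      ∑ s ∈ range M, ∑ t ∈ range (M - s), (s + 1) * a s t * (σ ^ s * (h ^ t / (t.factorial : ℝ))) +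
        Rem i K M W W' σ h := by
  have hW0 : 0 ≤ W := (norm_nonneg _).trans hW
  have hWW' : W ≤ W' := by nlinarith
  have hW'0 : 0 ≤ W' := hW0.trans hWW'
  obtain ⟨δ, hδ⟩ : ∃ δ, δ = α - αc := ⟨_, rfl⟩
  rw [← hδ] at hα
  have hαδ : α = αc + δ := by rw [hδ]; ring
  have hζ1 : ‖1 + ζ‖ ≤ 1 + σ := (norm_add_le _ _).trans (by rw [norm_one]; linarith)
  -- bound of a term with k = j + 1
  have hbt : ∀ j : ℕ, ‖((j + 1 : ℕ) : ℂ) * tau i α w0 (j + 1) * (1 + ζ) ^ (j + 1 - 1)‖ ≤
      W' * (W' ^ j / (j.factorial : ℝ)) := by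
    intro j
    rw [norm_mul, norm_mul, bn_norm_tau, Complex.norm_natCast, norm_pow, Nat.add_sub_cancel]
    have h1 : ((j + 1 : ℕ) : ℝ) * (‖w0‖ ^ (j + 1) / ((j + 1).factorial : ℝ)) = ‖w0‖ * (‖w0‖ ^ j / (j.factorial : ℝ)) := by
      rw [Nat.factorial_succ]
      push_cast
      field_simp
      ring
    rw [h1]
    calc ‖w0‖ * (‖w0‖ ^ j / (j.factorial : ℝ)) * ‖1 + ζ‖ ^ j
        = ‖w0‖ * ((‖w0‖ * ‖1 + ζ‖) ^ j / (j.factorial : ℝ)) := by rw [mul_pow]; ring
      _ ≤ W' * (W' ^ j / (j.factorial : ℝ)) := by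
          apply mul_le_mul (hW.trans hWW') _ (by positivity) hW'0
          apply div_le_div_of_nonneg_right _ (by positivity)
          apply pow_le_pow_left₀ (by positivity)
          exact (mul_le_mul hW hζ1 (norm_nonneg _) hW0).trans hW'
  have hs : Summable (fun k : ℕ => (k : ℂ) * tau i α w0 k * (1 + ζ) ^ (k - 1)) := by
    rw [← summable_nat_add_iff 1]
    apply Summable.of_norm
    apply Summable.of_nonneg_of_le (fun j => norm_nonneg _) hbt
    exact (Real.summable_pow_div_factorial W').mul_left W'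
  rw [← hs.sum_add_tsum_nat_add (K + 1)]
  have hK1 : (0:ℝ) < K + 1 := by positivity
  obtain ⟨htg1, htg2⟩ := bn_tail_geom hW'0 hK
  have htail : ‖∑' k : ℕ, ((k + (K + 1) : ℕ) : ℂ) * tau i α w0 (k + (K + 1)) * (1 + ζ) ^ (k + (K + 1) - 1)‖
      ≤ W' ^ K / (K.factorial : ℝ) * W' / (1 - W' / (K + 1)) := by
    have h1 : ∀ k : ℕ, ‖((k + (K + 1) : ℕ) : ℂ) * tau i α w0 (k + (K + 1)) * (1 + ζ) ^ (k + (K + 1) - 1)‖
        ≤ W' * (W' ^ (k + K) / ((k + K).factorial : ℝ)) := fun k => hbt (k + K)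
    refine (tsum_of_norm_bounded (htg1.mul_left W').hasSum h1).trans ?_
    rw [tsum_mul_left]
    calc W' * ∑' j : ℕ, W' ^ (j + K) / ((j + K).factorial : ℝ)
        ≤ W' * (W' ^ K / (K.factorial : ℝ) / (1 - W' / (K + 1))) := mul_le_mul_of_nonneg_left htg2 hW'0
      _ = _ := by ring
  obtain ⟨P, hP⟩ : ∃ P : ℕ → ℂ, P = fun k => ∑ s ∈ range M, ∑ t ∈ range (M - s),
    ((k - 1).choose s : ℂ) * ζ ^ s * ((ee i k * δ * I) ^ t / (t.factorial : ℂ)) := ⟨_, rfl⟩
  have hterm : ∀ k, ‖(1 + ζ) ^ (k - 1) * cis (ee i k * δ) - P k‖ ≤ rM M (k * σ + h * ee i k) := by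
    intro k
    have h1 := taylor2 M (k - 1) (ee i k) ζ δ σ h hζ hα
    rw [hP]
    refine h1.trans (bn_rM_mono (by positivity) ?_)
    have h2 : ((k - 1 : ℕ) : ℝ) ≤ k := by exact_mod_cast Nat.sub_le k 1
    have h3 := mul_le_mul_of_nonneg_right h2 hσ
    linarith
  have hchoose : ∀ k s : ℕ, (k : ℂ) * ((k - 1).choose s : ℂ) = (s + 1) * (k.choose (s + 1) : ℂ) := by
    intro k s
    cases k with
    | zero => simp
    | succ n =>
      rw [Nat.add_sub_cancel]
      have := Nat.add_one_mul_choose_eq n s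
      have h2 : ((n + 1 : ℕ) : ℂ) * (n.choose s : ℂ) = ((n + 1).choose (s + 1) : ℂ) * ((s + 1 : ℕ) : ℂ) := by
        exact_mod_cast this
      rw [h2]
      push_cast
      ring
  have hsplit : ∑ k ∈ range (K + 1), (k : ℂ) * tau i α w0 k * (1 + ζ) ^ (k - 1) - L =
      ∑ s ∈ range M, ∑ t ∈ range (M - s), ((s + 1 : ℂ) * ζ ^ s * ((δ * I) ^ t / (t.factorial : ℂ))) *
          (Ac i K αc w0 (s + 1) t - (if s = 0 ∧ t = 0 then L else 0)) +
        ∑ k ∈ range (K + 1), (k : ℂ) * tau i αc w0 k * ((1 + ζ) ^ (k - 1) * cis (ee i k * δ) - P k) := by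
    have h1 : ∑ s ∈ range M, ∑ t ∈ range (M - s), ((s + 1 : ℂ) * ζ ^ s * ((δ * I) ^ t / (t.factorial : ℂ))) *
          (Ac i K αc w0 (s + 1) t) = ∑ k ∈ range (K + 1), (k : ℂ) * tau i αc w0 k * P k := by
      unfold Ac
      rw [hP]
      simp only [mul_sum]
      have h2 : ∀ s ∈ range M, ∑ t ∈ range (M - s), ∑ k ∈ range (K + 1),
          ((s + 1 : ℂ) * ζ ^ s * ((δ * I) ^ t / (t.factorial : ℂ))) *
            (tau i αc w0 k * ((k.choose (s + 1) * ee i k ^ t : ℕ) : ℂ)) =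
          ∑ k ∈ range (K + 1), ∑ t ∈ range (M - s),
          ((s + 1 : ℂ) * ζ ^ s * ((δ * I) ^ t / (t.factorial : ℂ))) *
            (tau i αc w0 k * ((k.choose (s + 1) * ee i k ^ t : ℕ) : ℂ)) := fun s _ => sum_comm
      rw [sum_congr rfl h2, sum_comm]
      apply sum_congr rfl
      intro k _
      apply sum_congr rfl
      intro s _
      apply sum_congr rfl
      intro t _
      have h3 := hchoose k s
      push_cast
      rw [mul_pow, mul_pow, mul_pow]
      linear_combination (-(tau i αc w0 k * ζ ^ s * (ee i k : ℂ) ^ t * ((δ : ℂ) ^ t * I ^ t / (t.factorial : ℂ)))) * h3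
    have h4 : ∑ s ∈ range M, ∑ t ∈ range (M - s), ((s + 1 : ℂ) * ζ ^ s * ((δ * I) ^ t / (t.factorial : ℂ))) *
          (if s = 0 ∧ t = 0 then L else 0) = L := by
      rw [Finset.sum_eq_single 0]
      · rw [Finset.sum_eq_single 0]
        · simp
        · intro t _ ht
          simp [ht]
        · intro h5
          exact absurd (Finset.mem_range.2 (by omega)) h5
      · intro s _ hs0
        apply Finset.sum_eq_zero
        intro t _
        simp [hs0]
      · intro h5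
        exact absurd (Finset.mem_range.2 hM) h5
    have h6 : ∑ s ∈ range M, ∑ t ∈ range (M - s), ((s + 1 : ℂ) * ζ ^ s * ((δ * I) ^ t / (t.factorial : ℂ))) *
          (Ac i K αc w0 (s + 1) t - (if s = 0 ∧ t = 0 then L else 0)) =
        ∑ k ∈ range (K + 1), (k : ℂ) * tau i αc w0 k * P k - L := by
      simp only [mul_sub, sum_sub_distrib]
      rw [h1, h4]
    rw [h6]
    have h7 : ∑ k ∈ range (K + 1), (k : ℂ) * tau i α w0 k * (1 + ζ) ^ (k - 1) =
        ∑ k ∈ range (K + 1), (k : ℂ) * tau i αc w0 k * P k +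
        ∑ k ∈ range (K + 1), (k : ℂ) * tau i αc w0 k * ((1 + ζ) ^ (k - 1) * cis (ee i k * δ) - P k) := by
      rw [← sum_add_distrib]
      apply sum_congr rfl
      intro k _
      rw [hαδ, bn_tau_shift]
      ring
    rw [h7]
    ring
  have hmain : ‖∑ k ∈ range (K + 1), (k : ℂ) * tau i α w0 k * (1 + ζ) ^ (k - 1) - L‖ ≤
      ∑ s ∈ range M, ∑ t ∈ range (M - s), (s + 1) * a s t * (σ ^ s * (h ^ t / (t.factorial : ℝ))) +
      ∑ k ∈ range (K + 1), (k + 1) * (W ^ k / (k.factorial : ℝ)) * rM M (k * σ + h * ee i k) := by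
    rw [hsplit]
    refine (norm_add_le _ _).trans (add_le_add ?_ ?_)
    · refine (norm_sum_le _ _).trans (sum_le_sum fun s hs => ?_)
      refine (norm_sum_le _ _).trans (sum_le_sum fun t ht => ?_)
      have hst : s + t < M := by
        have h1 := Finset.mem_range.1 hs
        have h2 := Finset.mem_range.1 ht
        omega
      have ha' := ha s t hst
      have ha0 := (norm_nonneg _).trans ha'
      have h1 : ‖(s + 1 : ℂ) * ζ ^ s * ((δ * I) ^ t / (t.factorial : ℂ))‖ ≤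
          (s + 1) * (σ ^ s * (h ^ t / (t.factorial : ℝ))) := by
        have h2 : ‖(s + 1 : ℂ)‖ = s + 1 := by
          have : (s + 1 : ℂ) = ((s + 1 : ℕ) : ℂ) := by push_cast; ring
          rw [this, Complex.norm_natCast]; push_cast; ring
        rw [norm_mul, norm_mul, h2, norm_div, norm_pow, norm_pow, norm_mul, Complex.norm_I, mul_one,
          Complex.norm_real, Complex.norm_natCast, Real.norm_eq_abs, mul_assoc]
        apply mul_le_mul_of_nonneg_left _ (by positivity)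
        apply mul_le_mul (pow_le_pow_left₀ (norm_nonneg _) hζ s) _ (by positivity) (by positivity)
        exact div_le_div_of_nonneg_right (pow_le_pow_left₀ (abs_nonneg _) hα t) (by positivity)
      rw [norm_mul]
      calc _ ≤ (s + 1) * (σ ^ s * (h ^ t / (t.factorial : ℝ))) * a s t :=
            mul_le_mul h1 ha' (norm_nonneg _) (by positivity)
        _ = _ := by ring
    · refine (norm_sum_le _ _).trans (sum_le_sum fun k _ => ?_)
      rw [norm_mul, norm_mul, bn_norm_tau, Complex.norm_natCast]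
      apply mul_le_mul _ (hterm k) (norm_nonneg _) (by positivity)
      have h1 : ‖w0‖ ^ k / (k.factorial : ℝ) ≤ W ^ k / (k.factorial : ℝ) :=
        div_le_div_of_nonneg_right (pow_le_pow_left₀ (norm_nonneg _) hW k) (by positivity)
      have h2 : 0 ≤ W ^ k / (k.factorial : ℝ) := by positivity
      have h3 : (0:ℝ) ≤ k := Nat.cast_nonneg k
      calc (k:ℝ) * (‖w0‖ ^ k / (k.factorial : ℝ)) ≤ k * (W ^ k / (k.factorial : ℝ)) :=
            mul_le_mul_of_nonneg_left h1 h3
        _ ≤ (k + 1) * (W ^ k / (k.factorial : ℝ)) := by nlinarith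
  have hadd : ∑ k ∈ range (K + 1), (k : ℂ) * tau i α w0 k * (1 + ζ) ^ (k - 1) +
      ∑' k : ℕ, ((k + (K + 1) : ℕ) : ℂ) * tau i α w0 (k + (K + 1)) * (1 + ζ) ^ (k + (K + 1) - 1) - L
      = (∑ k ∈ range (K + 1), (k : ℂ) * tau i α w0 k * (1 + ζ) ^ (k - 1) - L) +
      ∑' k : ℕ, ((k + (K + 1) : ℕ) : ℂ) * tau i α w0 (k + (K + 1)) * (1 + ζ) ^ (k + (K + 1) - 1) := by ring
  rw [hadd]
  refine (norm_add_le _ _).trans ?_
  unfold Rem
  linarith

end SokB
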