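import Pool.Agent.Lib.MP_816dec_an.BAn1
import Pool.Agent.Lib.MP_816dec_an.BAn2

/-!
MP_816dec_an, finite part, row AN4: `CertOK` from the bounds.
-/

set_option autoImplicit false

open Complex Set Filter Topology Metric Finset

namespace SokB

open Sok

/-- AN4: from the numbers to `CertOK` -/
theorem certOK_of_bounds (i K M : ℕ) (αc h σ W W' : ℝ) (w0 L : ℂ) (s S η : ℝ) (hM : 0 < M)
    (hw0 : w0 ≠ 0) (hL : L ≠ 0) (hη0 : 0 ≤ η) (hη : η < 1) (hs : 0 ≤ s) (hsS : s < S)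
    (hh : 0 ≤ h) (hσ : S ≤ σ * ‖w0‖) (hW : ‖w0‖ ≤ W) (hW' : W * (1 + σ) ≤ W') (hK : W' < K + 1)
    (a0 : ℕ → ℝ) (ha0 : ∀ t < M, ‖Ac i K αc w0 0 t‖ ≤ a0 t)
    (a : ℕ → ℕ → ℝ)
    (ha : ∀ s t, s + t < M → ‖Ac i K αc w0 (s + 1) t - (if s = 0 ∧ t = 0 then L else 0)‖ ≤ a s t)
    (b0 : (∑ t ∈ range M, a0 t * (h ^ t / (t.factorial : ℝ)) + Rem i K M W W' σ h) * ‖w0‖
      ≤ (1 - η) * ‖L‖ * s)
    (b1 : ∑ s ∈ range M, ∑ t ∈ range (M - s), (s + 1) * a s t * (σ ^ s * (h ^ t / (t.factorial : ℝ))) +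
        Rem i K M W W' σ h ≤ η * ‖L‖) :
    CertOK i αc h w0 L s S η := by
  have hw : 0 < ‖w0‖ := norm_pos_iff.2 hw0
  have hσ0 : 0 ≤ σ := by
    by_contra hc
    push Not at hc
    have : σ * ‖w0‖ < 0 := mul_neg_of_neg_of_pos hc hw
    linarith
  refine ⟨hw0, hL, hη0, hη, hs, hsS, fun α hα => ?_, fun α hα z hz => ?_⟩
  · rw [Fa_rot, norm_mul, norm_cis, one_mul, norm_div]
    have h1 := value_bound i K M αc h σ W W' w0 hσ0 hh hW hW' hK a0 ha0 α hα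
    refine h1.trans ?_
    have h2 : (1 - η) * (‖L‖ / ‖w0‖) * s = (1 - η) * ‖L‖ * s / ‖w0‖ := by ring
    rw [h2, le_div_iff₀ hw]
    exact b0
  · obtain ⟨ζ, hζ⟩ : ∃ ζ : ℂ, ζ = z * cis (i * α) / w0 - 1 := ⟨_, rfl⟩
    have h3 : cis (i * α) * cis (-(i * α)) = 1 := by rw [mul_comm]; exact cis_neg_mul _
    have h4 : w0 * (1 + ζ) * cis (-(i * α)) = z := by
      rw [hζ]
      calc w0 * (1 + (z * cis (i * α) / w0 - 1)) * cis (-(i * α))
          = z * (cis (i * α) * cis (-(i * α))) * (w0 / w0) := by ring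
        _ = z := by rw [h3, div_self hw0, mul_one, mul_one]
    have h5 : z - w0 * cis (-(i * α)) = w0 * ζ * cis (-(i * α)) := by
      rw [← h4]
      ring
    have h6 : ‖ζ‖ ≤ σ := by
      rw [mem_ball, dist_eq_norm, h5, norm_mul, norm_mul, norm_cis, mul_one] at hz
      have h7 : ‖w0‖ * ‖ζ‖ ≤ ‖w0‖ * σ := by
        rw [mul_comm ‖w0‖ σ]
        linarith
      exact le_of_mul_le_mul_left h7 hw
    have h8 := Fa_rot' i α w0 ζ hw0
    rw [h4] at h8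
    rw [h8, ← mul_sub, ← sub_div, norm_mul, norm_mul, norm_cis, norm_cis, norm_div, norm_div, one_mul,
      one_mul]
    have h9 := deriv_bound i K M αc h σ W W' w0 L ζ hσ0 hh hM hW hW' hK a ha α hα h6
    rw [← mul_div_assoc]
    exact div_le_div_of_nonneg_right (h9.trans b1) hw.le

end SokB
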