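import Pool.Agent.Lib.MP_816dec_an.BAn1

/-!
MP_816dec_an, finite part, assembly: from the certificates of all tracks on all intervals to `Reach`.
`RS R0 a N w s` is `Reach` with the centres `w i q ^ (-i)` at `q = exp (i a)`.
-/

set_option autoImplicit false

open Complex Set Filter Topology Metric Finset

namespace SokB

open Sok

/-- rotated form of `Reach` -/
def RS (R0 a : ℝ) (N : ℕ) (w : ℕ → ℂ) (s : ℕ → ℝ) : Prop :=
  Reach R0 a N (fun i => w i * cis (-(i * a))) s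

/-- one interval, all tracks -/
structure PieceOK (R0 a b : ℝ) (N : ℕ) (w : ℕ → ℂ) (s S : ℕ → ℝ) : Prop where
  hab : a ≤ b
  pos : 0 < N
  cert : ∀ i < N, ∃ (αc h : ℝ) (L : ℂ) (η : ℝ), CertOK i αc h (w i) L (s i) (S i) η ∧
    αc - h ≤ a ∧ b ≤ αc + h
  ord : ∀ i, i + 1 < N → ‖w i‖ + s i < ‖w (i + 1)‖ - s (i + 1)
  out : R0 ≤ ‖w (N - 1)‖ - s (N - 1)

theorem norm_rot (w : ℂ) (x : ℝ) : ‖w * cis x‖ = ‖w‖ := by
  rw [norm_mul, norm_cis, mul_one]

theorem continuous_cis : Continuous cis := by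
  unfold cis
  fun_prop

theorem PieceOK.piece {R0 a b : ℝ} {N : ℕ} {w : ℕ → ℂ} {s S : ℕ → ℝ} (P : PieceOK R0 a b N w s S) :
    Piece Fa R0 a b N (fun i α => w i * cis (-(i * α))) s S := by
  have h1 : ∀ i, ∃ p : ℝ × ℝ × ℂ × ℝ, i < N →
      CertOK i p.1 p.2.1 (w i) p.2.2.1 (s i) (S i) p.2.2.2 ∧ p.1 - p.2.1 ≤ a ∧ b ≤ p.1 + p.2.1 := by
    intro i
    by_cases hi : i < N
    · obtain ⟨αc, h, L, η, h2⟩ := P.cert i hi
      exact ⟨(αc, h, L, η), fun _ => h2⟩
    · exact ⟨(0, 0, 0, 0), fun h => absurd h hi⟩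
  choose p hp using h1
  have hα : ∀ i < N, ∀ α ∈ Icc a b, |α - (p i).1| ≤ (p i).2.1 := by
    intro i hi α hα
    obtain ⟨-, h2, h3⟩ := hp i hi
    rw [abs_le]
    constructor
    · linarith [hα.1]
    · linarith [hα.2]
  refine piece_of_bounds (η := fun i => (p i).2.2.2)
    (M := fun i α => cis (i * α) * cis (-((i * (i + 1) / 2 : ℕ) * α)) * ((p i).2.2.1 / w i))
    P.hab P.pos ?_ ?_ ?_ ?_ ?_ ?_ ?_ ?_ ?_ ?_
  · intro i
    exact continuous_const.mul (continuous_cis.comp (by fun_prop))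
  · intro i hi
    exact (hp i hi).1.hs
  · intro i hi
    exact (hp i hi).1.hsS
  · intro i hi
    exact (hp i hi).1.hη0
  · intro i hi
    exact (hp i hi).1.hη
  · intro α _ i hi
    have h2 : cis (i * α) * cis (-((i * (i + 1) / 2 : ℕ) * α)) ≠ 0 := by
      rw [← norm_pos_iff, norm_mul, norm_cis, norm_cis]
      norm_num
    exact mul_ne_zero h2 (div_ne_zero (hp i hi).1.hL (hp i hi).1.hw0)
  · intro α hα1 i hi
    have h2 := (hp i hi).1.h0 α (hα i hi α hα1)
    rw [norm_mul, norm_mul, norm_cis, norm_cis, one_mul, one_mul]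
    exact h2
  · intro α hα1 i hi z hz
    have h2 := (hp i hi).1.h1 α (hα i hi α hα1) z hz
    rw [norm_mul (cis (i * α) * _), norm_mul (cis (i * α)), norm_cis, norm_cis, one_mul, one_mul]
    exact h2
  · intro α _ i hi
    simp only [norm_rot]
    exact P.ord i hi
  · intro α _
    simp only [norm_rot]
    exact P.out

/-- one step, rotated -/
theorem RS.step {R0 a b : ℝ} {N N' : ℕ} {w w' : ℕ → ℂ} {s S s' : ℕ → ℝ} (h : RS R0 b N' w' s')
    (P : PieceOK R0 a b N w s S) (hN : N ≤ N') (hadj : ∀ i < N, ‖w' i - w i‖ + s' i < S i)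
    (hA : ∀ α ∈ Icc a b, GoodOut Fa R0 α) : RS R0 a N w s := by
  have h1 := Reach.step h P.piece hN (fun i hi => ?_) hA
  · exact h1
  · rw [dist_eq_norm, ← sub_mul, norm_rot]
    exact hadj i hi

theorem cis_nat_pi (i : ℕ) : cis (-(i * Real.pi)) = (-1) ^ i := by
  have h1 : cis (-(i * Real.pi)) = (cis (-Real.pi)) ^ i := by
    rw [cis_pow]
    congr 1
    ring
  rw [h1]
  congr 1
  unfold cis
  push_cast
  rw [neg_mul, Complex.exp_neg, Complex.exp_pi_mul_I]
  norm_num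

/-- the start -/
theorem RS.start {R0 : ℝ} {N : ℕ} (hN : 0 < N) (hR : R0 ≤ (2 * N - 1) * Real.pi / 4)
    (hA : GoodOut Fa R0 Real.pi) :
    RS R0 Real.pi N (fun i => ((-((2 * i + 1) * Real.pi / 4) : ℝ) : ℂ)) (fun _ => 0) := by
  have h1 := reach_pi hN hR hA
  unfold RS
  have h2 : (fun i : ℕ => ((-((2 * i + 1) * Real.pi / 4) : ℝ) : ℂ) * cis (-(i * Real.pi))) = z0 := by
    funext i
    rw [cis_nat_pi]
    unfold z0
    push_cast
    ring
  rw [h2]
  exact h1

/-- the whole chain -/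
theorem RS.chain {R0 : ℝ} (J : ℕ) (a : ℕ → ℝ) (N : ℕ → ℕ) (w : ℕ → ℕ → ℂ) (s S : ℕ → ℕ → ℝ)
    (h0 : RS R0 (a 0) (N 0) (w 0) (s 0))
    (hP : ∀ j < J, PieceOK R0 (a (j + 1)) (a j) (N (j + 1)) (w (j + 1)) (s (j + 1)) (S (j + 1)))
    (hN : ∀ j < J, N (j + 1) ≤ N j)
    (hadj : ∀ j < J, ∀ i < N (j + 1), ‖w j i - w (j + 1) i‖ + s j i < S (j + 1) i)
    (hA : ∀ α ∈ Icc (a J) (a 0), GoodOut Fa R0 α) : RS R0 (a J) (N J) (w J) (s J) := by
  have hmono : ∀ j ≤ J, a j ≤ a 0 := by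
    intro j
    induction j with
    | zero => intro _; exact le_rfl
    | succ j ih => intro hj; exact (hP j (by omega)).hab.trans (ih (by omega))
  have hmono2 : ∀ d j, j + d = J → a J ≤ a j := by
    intro d
    induction d with
    | zero =>
      intro j h
      have : j = J := by omega
      rw [this]
    | succ d ih =>
      intro j h
      exact (ih (j + 1) (by omega)).trans (hP j (by omega)).hab
  have key : ∀ j ≤ J, RS R0 (a j) (N j) (w j) (s j) := by
    intro j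
    induction j with
    | zero => intro _; exact h0
    | succ j ih =>
      intro hj
      refine RS.step (ih (by omega)) (hP j (by omega)) (hN j (by omega)) (hadj j (by omega))
        fun α hα => hA α ⟨(hmono2 (J - (j + 1)) (j + 1) (by omega)).trans hα.1,
          hα.2.trans (hmono j (by omega))⟩
  exact key J le_rfl

end SokB
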