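import Pool.Agent.Lib.MP_816dec_an.BSndDefs

/-!
MP_816dec_an, finite part: row LOOP (the main loop of the kernel function).
-/

set_option autoImplicit false

open Complex Finset

namespace SokB

theorem loop_cons {Wx Wy w' sg2 H n : ℕ} {LB : List ℕ} {LT LE : List (ℕ × ℕ)}
    {k Ux Uy V ks ax ay aw rem : ℕ} {c : ℕ → ℕ → ℕ → ℕ → ℕ → Bool}
    (h : loop Wx Wy w' sg2 H (n + 1) LB LT LE k Ux Uy V ks ax ay aw rem c = true) :
    ∃ b LB' t LT' e LE', LB = b :: LB' ∧ LT = t :: LT' ∧ LE = e :: LE' ∧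
      loop Wx Wy w' sg2 H n LB' LT' LE' (k + 1) (gre Ux Uy Wx Wy (2 ^ 112 * (k + 1)))
        (gim Ux Uy Wx Wy (2 ^ 112 * (k + 1))) (V * w' / (65536 * (k + 1)) + 1) (ks + sg2)
        (ax + gre Ux Uy t.1 t.2 (2 ^ 112) * (b * e.2)) (ay + gim Ux Uy t.1 t.2 (2 ^ 112) * (b * e.2))
        (aw + b * e.2) (rem + (k + 1) * V * ((ks + H * e.1) ^ 8 * 2 ^ (3 * (ks + H * e.1) / 4194304 + 1)))
        c = true := by
  rcases LB with _ | ⟨b, LB'⟩
  · exact absurd h (by simp [loop])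
  rcases LT with _ | ⟨t, LT'⟩
  · exact absurd h (by simp [loop])
  rcases LE with _ | ⟨e, LE'⟩
  · exact absurd h (by simp [loop])
  exact ⟨b, LB', t, LT', e, LE', rfl, rfl, rfl, h⟩

theorem drop_cons' {β : Type} {d : β} {l : List β} {i : ℕ} {t : β} {l' : List β} (h : l.drop i = t :: l') :
    t = l.getD i d ∧ l' = l.drop (i + 1) ∧ i < l.length := by
  have hi : i < l.length := by
    by_contra hc
    rw [List.drop_eq_nil_of_le (by omega)] at h
    exact absurd h (by simp)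
  rw [List.drop_eq_getElem_cons hi] at h
  injection h with h1 h2
  refine ⟨?_, h2.symm, hi⟩
  rw [← h1, List.getD_eq_getElem _ _ hi]

theorem loop_aux (Wx Wy w' sg2 H : ℕ) (LB : List ℕ) (LT LE : List (ℕ × ℕ))
    (c : ℕ → ℕ → ℕ → ℕ → ℕ → Bool) (n : ℕ) : ∀ k : ℕ,
    loop Wx Wy w' sg2 H n (LB.drop k) (LT.drop k) (LE.drop k) k (Useq Wx Wy k).1 (Useq Wx Wy k).2
      (Vseq w' k) (k * sg2) (AX Wx Wy LB LT LE k) (AY Wx Wy LB LT LE k) (AW LB LE k) (RM w' sg2 H LE k) c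
      = true →
    (0 < n → k + n ≤ LB.length ∧ k + n ≤ LT.length ∧ k + n ≤ LE.length) ∧
      c (AX Wx Wy LB LT LE (k + n)) (AY Wx Wy LB LT LE (k + n)) (AW LB LE (k + n))
        (RM w' sg2 H LE (k + n)) (Vseq w' (k + n)) = true := by
  induction n with
  | zero =>
    intro k h
    exact ⟨fun h0 => absurd h0 (lt_irrefl _), h⟩
  | succ n ih =>
    intro k h
    obtain ⟨b, LB', t, LT', e, LE', h1, h2, h3, h4⟩ := loop_cons h
    obtain ⟨b1, b2, b3⟩ := drop_cons' (d := 0) h1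
    obtain ⟨t1, t2, t3⟩ := drop_cons' (d := (0, 0)) h2
    obtain ⟨e1, e2, e3⟩ := drop_cons' (d := (0, 0)) h3
    have hAX : AX Wx Wy LB LT LE (k + 1) = AX Wx Wy LB LT LE k +
        gre (Useq Wx Wy k).1 (Useq Wx Wy k).2 t.1 t.2 (2 ^ 112) * (b * e.2) := by
      unfold AX
      rw [sum_range_succ, b1, t1, e1]
    have hAY : AY Wx Wy LB LT LE (k + 1) = AY Wx Wy LB LT LE k +
        gim (Useq Wx Wy k).1 (Useq Wx Wy k).2 t.1 t.2 (2 ^ 112) * (b * e.2) := by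
      unfold AY
      rw [sum_range_succ, b1, t1, e1]
    have hAW : AW LB LE (k + 1) = AW LB LE k + b * e.2 := by
      unfold AW
      rw [sum_range_succ, b1, e1]
    have hRM : RM w' sg2 H LE (k + 1) = RM w' sg2 H LE k + (k + 1) * Vseq w' k *
        ((k * sg2 + H * e.1) ^ 8 * 2 ^ (3 * (k * sg2 + H * e.1) / 4194304 + 1)) := by
      unfold RM
      rw [sum_range_succ, e1]
    have h5 : loop Wx Wy w' sg2 H n (LB.drop (k + 1)) (LT.drop (k + 1)) (LE.drop (k + 1)) (k + 1)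
        (Useq Wx Wy (k + 1)).1 (Useq Wx Wy (k + 1)).2 (Vseq w' (k + 1)) ((k + 1) * sg2)
        (AX Wx Wy LB LT LE (k + 1)) (AY Wx Wy LB LT LE (k + 1)) (AW LB LE (k + 1))
        (RM w' sg2 H LE (k + 1)) c = true := by
      rw [hAX, hAY, hAW, hRM, ← b2, ← t2, ← e2, add_mul, one_mul]
      exact h4
    obtain ⟨i1, i2⟩ := ih (k + 1) h5
    have h6 : k + 1 + n = k + (n + 1) := by ring
    rw [h6] at i1 i2
    refine ⟨fun _ => ?_, i2⟩
    rcases Nat.eq_zero_or_pos n with hn | hn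
    · subst hn
      exact ⟨b3, t3, e3⟩
    · exact i1 hn

/-- LOOP1 -/
theorem loop_spec (Wx Wy w' sg2 H n : ℕ) (LB : List ℕ) (LT LE : List (ℕ × ℕ))
    (c : ℕ → ℕ → ℕ → ℕ → ℕ → Bool)
    (h : loop Wx Wy w' sg2 H n LB LT LE 0 (2 ^ 144 + 2 ^ 112) (2 ^ 144) (2 ^ 64) 0 0 0 0 0 c = true) :
    n ≤ LB.length ∧ n ≤ LT.length ∧ n ≤ LE.length ∧
      c (AX Wx Wy LB LT LE n) (AY Wx Wy LB LT LE n) (AW LB LE n) (RM w' sg2 H LE n) (Vseq w' n) = true := by
  have h1 : AX Wx Wy LB LT LE 0 = 0 := by unfold AX; rw [sum_range_zero]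
  have h2 : AY Wx Wy LB LT LE 0 = 0 := by unfold AY; rw [sum_range_zero]
  have h3 : AW LB LE 0 = 0 := by unfold AW; rw [sum_range_zero]
  have h4 : RM w' sg2 H LE 0 = 0 := by unfold RM; rw [sum_range_zero]
  have h5 := loop_aux Wx Wy w' sg2 H LB LT LE c n 0 (by
    rw [h1, h2, h3, h4, zero_mul]
    exact h)
  rw [Nat.zero_add] at h5
  rcases Nat.eq_zero_or_pos n with hn | hn
  · subst hn
    exact ⟨Nat.zero_le _, Nat.zero_le _, Nat.zero_le _, h5.2⟩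
  · exact ⟨(h5.1 hn).1, (h5.1 hn).2.1, (h5.1 hn).2.2, h5.2⟩

end SokB
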