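import Pool.Agent.Lib.MP_816dec_an.BSndDefs

/-!
MP_816dec_an, finite part, row DIG: digits and Horner sums.
-/

set_option autoImplicit false
set_option exponentiation.threshold 5000

open Complex Finset

namespace SokB

private theorem litX : (2135987035920910082395021706169552114602704522356652769947041607822219725780640550022962086936576 : ℕ)
    = 2 ^ 320 := by rfl

private theorem litC : (22300745198530623141535718272648361505980416 : ℕ) = 2 ^ 144 := by rfl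

private theorem coef_eq (x y w eps : ℕ) : coef x y w eps =
    725 * (((x - 2 ^ 144 * w) + (2 ^ 144 * w - x)) + ((y - 2 ^ 144 * w) + (2 ^ 144 * w - y))) +
    300 * ((((x - 2 ^ 144 * w) + (2 ^ 144 * w - x)) - ((y - 2 ^ 144 * w) + (2 ^ 144 * w - y))) +
      (((y - 2 ^ 144 * w) + (2 ^ 144 * w - y)) - ((x - 2 ^ 144 * w) + (2 ^ 144 * w - x)))) + eps * w := by
  rw [← litC]
  rfl

private theorem abs_nat (x c : ℕ) : (((x - c) + (c - x) : ℕ) : ℝ) = |(x : ℝ) - c| := by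
  rcases le_total x c with h | h
  · rw [Nat.sub_eq_zero_of_le h, zero_add, Nat.cast_sub h, abs_of_nonpos]
    · ring
    · have : (x : ℝ) ≤ c := by exact_mod_cast h
      linarith
  · rw [Nat.sub_eq_zero_of_le h, add_zero, Nat.cast_sub h, abs_of_nonneg]
    have : (c : ℝ) ≤ x := by exact_mod_cast h
    linarith

private theorem norm_le_ab {a b : ℝ} (ha : 0 ≤ a) (hb : 0 ≤ b) :
    1024 * Real.sqrt (a ^ 2 + b ^ 2) ≤ 725 * (a + b) + 300 * |a - b| := by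
  have h1 : (1024 * Real.sqrt (a ^ 2 + b ^ 2)) ^ 2 ≤ (725 * (a + b) + 300 * |a - b|) ^ 2 := by
    rw [mul_pow, Real.sq_sqrt (by positivity)]
    rcases le_total a b with h | h
    · rw [abs_of_nonpos (by linarith)]
      nlinarith [mul_le_mul_of_nonneg_left h ha, mul_nonneg ha hb, sq_nonneg a, sq_nonneg b]
    · rw [abs_of_nonneg (by linarith)]
      nlinarith [mul_le_mul_of_nonneg_left h hb, mul_nonneg ha hb, sq_nonneg a, sq_nonneg b]
  have h2 : 0 ≤ 725 * (a + b) + 300 * |a - b| := by positivity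
  exact (abs_le_of_sq_le_sq' h1 h2).2

/-- DIG4: `coef` bounds the modulus (scaled by 1024) -/
theorem coef_sound (x y w eps : ℕ) :
    1024 * ‖(⟨(x : ℝ) - 2 ^ 144 * w, (y : ℝ) - 2 ^ 144 * w⟩ : ℂ)‖ + eps * w ≤ (coef x y w eps : ℝ) := by
  obtain ⟨c, hc⟩ : ∃ c, c = 2 ^ 144 * w := ⟨_, rfl⟩
  have hcr : (2:ℝ) ^ 144 * w = (c : ℝ) := by rw [hc]; push_cast; ring
  rw [coef_eq, ← hc, hcr]
  obtain ⟨a, ha⟩ : ∃ a, a = |(x : ℝ) - c| := ⟨_, rfl⟩
  obtain ⟨b, hb⟩ : ∃ b, b = |(y : ℝ) - c| := ⟨_, rfl⟩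
  have h1 := norm_le_ab (a := a) (b := b) (by rw [ha]; positivity) (by rw [hb]; positivity)
  have h2 : ‖(⟨(x : ℝ) - c, (y : ℝ) - c⟩ : ℂ)‖ = Real.sqrt (a ^ 2 + b ^ 2) := by
    rw [Complex.norm_def, Complex.normSq_mk, ha, hb, sq_abs, sq_abs]
    congr 1
    ring
  rw [h2]
  push_cast only [Nat.cast_add, Nat.cast_mul]
  have e1 := abs_nat x c
  have e2 := abs_nat y c
  have e3 := abs_nat ((x - c) + (c - x)) ((y - c) + (c - y))
  rw [Nat.cast_add] at e1 e2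
  rw [Nat.cast_add, Nat.cast_add (x - c) (c - x), Nat.cast_add (y - c) (c - y), e1, e2, ← ha, ← hb] at e3
  rw [e1, e2, e3, ← ha, ← hb]
  norm_num
  linarith

/-! ### digits -/

private theorem dig_mod {X : ℕ} (d r : ℕ) (hd : d < X) : (d + X * r) % X = d := by
  rw [Nat.add_mul_mod_self_left, Nat.mod_eq_of_lt hd]

private theorem dig_div {X : ℕ} (d r : ℕ) (hd : d < X) : (d + X * r) / X = r := by
  rw [Nat.add_mul_div_left _ _ (by omega), Nat.div_eq_of_lt hd, zero_add]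

/-- number with digits `d 0, ..., d (m-1)` in base `X` -/
private def num (X : ℕ) (d : ℕ → ℕ) (m : ℕ) : ℕ := ∑ j ∈ range m, d j * X ^ j

private theorem num_succ (X : ℕ) (d : ℕ → ℕ) (m : ℕ) :
    num X d (m + 1) = d 0 + X * num X (fun j => d (j + 1)) m := by
  unfold num
  rw [sum_range_succ', mul_sum, pow_zero, mul_one, add_comm]
  congr 1
  apply sum_congr rfl
  intro j _
  rw [pow_succ]; ring

private theorem num_lt (X : ℕ) (d : ℕ → ℕ) (m : ℕ) (hd : ∀ j < m, d j < X) : num X d m < X ^ m := by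
  induction m generalizing d with
  | zero => simp [num]
  | succ m ih =>
    rw [num_succ, pow_succ]
    have h1 := ih (fun j => d (j + 1)) (fun j hj => hd (j + 1) (by omega))
    have h2 := hd 0 (by omega)
    have h3 : X * (num X (fun j => d (j + 1)) m + 1) ≤ X * X ^ m := Nat.mul_le_mul_left _ h1
    rw [mul_comm (X ^ m) X]
    rw [mul_add, mul_one] at h3
    omega

private theorem hort_zero (H eps t x y w : ℕ) : hort H eps 0 t x y w = 0 := rfl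

private theorem hort_succ (H eps n t x y w : ℕ) : hort H eps (n + 1) t x y w =
    coef (x % 2 ^ 320) (y % 2 ^ 320) (w % 2 ^ 320) eps +
      ((H * hort H eps n (t + 1) (x / 2 ^ 320) (y / 2 ^ 320) (w / 2 ^ 320)) / (2097152 * (t + 1)) + 1) := by
  rw [← litX]
  rfl

private theorem div_succ_ge (a b : ℕ) (hb : 0 < b) : (a : ℝ) / b ≤ ((a / b + 1 : ℕ) : ℝ) := by
  rw [div_le_iff₀ (by exact_mod_cast hb)]
  have h := Nat.lt_div_mul_add (a := a) hb
  have h2 : a ≤ (a / b + 1) * b := by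
    rw [add_mul, one_mul]; omega
  exact_mod_cast h2

private theorem hort_gen (H eps : ℕ) (n : ℕ) : ∀ (t : ℕ) (m : ℕ) (dx dy dw : ℕ → ℕ), n ≤ m →
    (∀ j < m, dx j < 2 ^ 320) → (∀ j < m, dy j < 2 ^ 320) → (∀ j < m, dw j < 2 ^ 320) →
    ∑ j ∈ range n, (coef (dx j) (dy j) (dw j) eps : ℝ) *
        (((H : ℝ) / 2 ^ 21) ^ j * ((t.factorial : ℝ) / ((t + j).factorial : ℝ))) ≤
      (hort H eps n t (num (2 ^ 320) dx m) (num (2 ^ 320) dy m) (num (2 ^ 320) dw m) : ℝ) := by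
  induction n with
  | zero => intro t m dx dy dw _ _ _ _; rw [hort_zero]; simp
  | succ n ih =>
    intro t m dx dy dw hnm hx hy hw
    obtain ⟨m, rfl⟩ : ∃ m', m = m' + 1 := ⟨m - 1, by omega⟩
    rw [hort_succ, num_succ _ dx, num_succ _ dy, num_succ _ dw, dig_mod _ _ (hx 0 (by omega)),
      dig_mod _ _ (hy 0 (by omega)), dig_mod _ _ (hw 0 (by omega)), dig_div _ _ (hx 0 (by omega)),
      dig_div _ _ (hy 0 (by omega)), dig_div _ _ (hw 0 (by omega))]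
    have h1 := ih (t + 1) m (fun j => dx (j + 1)) (fun j => dy (j + 1)) (fun j => dw (j + 1)) (by omega)
      (fun j hj => hx (j + 1) (by omega)) (fun j hj => hy (j + 1) (by omega)) (fun j hj => hw (j + 1) (by omega))
    obtain ⟨Z, hZ⟩ : ∃ Z, Z = hort H eps n (t + 1) (num (2 ^ 320) (fun j => dx (j + 1)) m)
      (num (2 ^ 320) (fun j => dy (j + 1)) m) (num (2 ^ 320) (fun j => dw (j + 1)) m) := ⟨_, rfl⟩
    rw [← hZ] at h1 ⊢
    have h2 := div_succ_ge (H * Z) (2097152 * (t + 1)) (by positivity)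
    have h3 : ((H : ℝ) / 2 ^ 21) / (t + 1) * (Z : ℝ) ≤ ((H * Z / (2097152 * (t + 1)) + 1 : ℕ) : ℝ) := by
      refine le_trans (le_of_eq ?_) h2
      push_cast
      have : (2:ℝ) ^ 21 = 2097152 := by norm_num
      rw [this]
      have h4 : (0:ℝ) < (t:ℝ) + 1 := by positivity
      field_simp
    have h5 : (0:ℝ) ≤ ((H : ℝ) / 2 ^ 21) / (t + 1) := by positivity
    have h6 := mul_le_mul_of_nonneg_left h1 h5
    rw [Nat.cast_add]
    rw [sum_range_succ']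
    have h7 : ∑ k ∈ range n, (coef (dx (k + 1)) (dy (k + 1)) (dw (k + 1)) eps : ℝ) *
        (((H : ℝ) / 2 ^ 21) ^ (k + 1) * ((t.factorial : ℝ) / ((t + (k + 1)).factorial : ℝ))) =
        ((H : ℝ) / 2 ^ 21) / (t + 1) * ∑ j ∈ range n, (coef (dx (j + 1)) (dy (j + 1)) (dw (j + 1)) eps : ℝ) *
        (((H : ℝ) / 2 ^ 21) ^ j * (((t + 1).factorial : ℝ) / ((t + 1 + j).factorial : ℝ))) := by
      rw [mul_sum]
      apply sum_congr rfl
      intro j _
      have e1 : t + (j + 1) = t + 1 + j := by ring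
      rw [e1, Nat.factorial_succ t]
      push_cast
      have h4 : (0:ℝ) < (t:ℝ) + 1 := by positivity
      have h8 : (0:ℝ) < ((t + 1 + j).factorial : ℝ) := by positivity
      rw [pow_succ]
      field_simp
    rw [h7]
    have h9 : (coef (dx 0) (dy 0) (dw 0) eps : ℝ) * (((H : ℝ) / 2 ^ 21) ^ 0 *
        ((t.factorial : ℝ) / ((t + 0).factorial : ℝ))) = (coef (dx 0) (dy 0) (dw 0) eps : ℝ) := by
      have h8 : (0:ℝ) < (t.factorial : ℝ) := by positivity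
      rw [add_zero, div_self h8.ne']
      ring
    rw [h9]
    linarith

/-! ### rows -/

private theorem packed_eq (D : ℕ → ℕ → ℕ) :
    packed D = num ((2 ^ 320) ^ 9) (fun s => num (2 ^ 320) (D s) 9) 9 := by
  unfold packed num
  apply sum_congr rfl
  intro s _
  rw [sum_mul]
  apply sum_congr rfl
  intro t _
  have key : ∀ X : ℕ, D s t * X ^ (9 * s + t) = D s t * X ^ t * (X ^ 9) ^ s := by
    intro X
    rw [pow_add, pow_mul]
    ring
  exact key (2 ^ 320)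

private theorem Y_eq : Y = (2 ^ 320) ^ 9 := by
  rw [← pow_mul]
  rfl

private theorem row_lt (D : ℕ → ℕ → ℕ) (s : ℕ) (hD : ∀ s < 9, ∀ t < 9, D s t < 2 ^ 320) (hs : s < 9) :
    num (2 ^ 320) (D s) 9 < (2 ^ 320) ^ 9 := num_lt _ _ _ (hD s hs)

private theorem packed_mod (D : ℕ → ℕ → ℕ) (hD : ∀ s < 9, ∀ t < 9, D s t < 2 ^ 320) :
    packed D % Y = num (2 ^ 320) (D 0) 9 := by
  rw [packed_eq, Y_eq, num_succ]
  exact dig_mod _ _ (row_lt D 0 hD (by norm_num))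

private theorem packed_div (D : ℕ → ℕ → ℕ) (hD : ∀ s < 9, ∀ t < 9, D s t < 2 ^ 320) :
    packed D / Y = num ((2 ^ 320) ^ 9) (fun s => num (2 ^ 320) (D (s + 1)) 9) 8 := by
  rw [packed_eq, Y_eq, num_succ]
  exact dig_div _ _ (row_lt D 0 hD (by norm_num))

/-- DIG1: value of the Horner sum of the row `0` -/
theorem hort_sound (H eps n : ℕ) (hn : n ≤ 9) (Dx Dy Dw : ℕ → ℕ → ℕ)
    (hx : ∀ s < 9, ∀ t < 9, Dx s t < 2 ^ 320) (hy : ∀ s < 9, ∀ t < 9, Dy s t < 2 ^ 320)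
    (hw : ∀ s < 9, ∀ t < 9, Dw s t < 2 ^ 320) :
    ∑ t ∈ range n, (coef (Dx 0 t) (Dy 0 t) (Dw 0 t) eps : ℝ) *
        (((H : ℝ) / 2 ^ 21) ^ t / (t.factorial : ℝ)) ≤
      (hort H eps n 0 (packed Dx % Y) (packed Dy % Y) (packed Dw % Y) : ℝ) := by
  rw [packed_mod Dx hx, packed_mod Dy hy, packed_mod Dw hw]
  refine le_trans (le_of_eq ?_) (hort_gen H eps n 0 9 (Dx 0) (Dy 0) (Dw 0) hn (hx 0 (by norm_num))
    (hy 0 (by norm_num)) (hw 0 (by norm_num)))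
  apply sum_congr rfl
  intro t _
  rw [Nat.factorial_zero, zero_add, Nat.cast_one, mul_one_div]

private theorem hors_zero (sg H eps s x y w : ℕ) : hors sg H eps 0 s x y w = 0 := rfl

private theorem hors_succ (sg H eps m s x y w : ℕ) : hors sg H eps (m + 1) s x y w =
    (s + 1) * hort H eps (m + 1) 0 (x % Y) (y % Y) (w % Y) +
      ((sg * hors sg H eps m (s + 1) (x / Y) (y / Y) (w / Y)) / 1048576 + 1) := rfl

private theorem hors_gen (sg H eps : ℕ) (n : ℕ) : ∀ (s : ℕ) (m : ℕ) (Dx Dy Dw : ℕ → ℕ → ℕ), n ≤ m → m ≤ 9 →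
    (∀ s < m, ∀ t < 9, Dx s t < 2 ^ 320) → (∀ s < m, ∀ t < 9, Dy s t < 2 ^ 320) →
    (∀ s < m, ∀ t < 9, Dw s t < 2 ^ 320) →
    ∑ j ∈ range n, ∑ t ∈ range (n - j), ((s : ℝ) + j + 1) *
        (coef (Dx j t) (Dy j t) (Dw j t) eps : ℝ) *
        (((sg : ℝ) / 2 ^ 20) ^ j * (((H : ℝ) / 2 ^ 21) ^ t / (t.factorial : ℝ))) ≤
      (hors sg H eps n s (num ((2 ^ 320) ^ 9) (fun s => num (2 ^ 320) (Dx s) 9) m)
        (num ((2 ^ 320) ^ 9) (fun s => num (2 ^ 320) (Dy s) 9) m)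
        (num ((2 ^ 320) ^ 9) (fun s => num (2 ^ 320) (Dw s) 9) m) : ℝ) := by
  induction n with
  | zero => intro s m Dx Dy Dw _ _ _ _ _; rw [hors_zero]; simp
  | succ n ih =>
    intro s m Dx Dy Dw hnm hm9 hx hy hw
    obtain ⟨m, rfl⟩ : ∃ m', m = m' + 1 := ⟨m - 1, by omega⟩
    have rx : num (2 ^ 320) (Dx 0) 9 < (2 ^ 320) ^ 9 := num_lt _ _ _ (hx 0 (by omega))
    have ry : num (2 ^ 320) (Dy 0) 9 < (2 ^ 320) ^ 9 := num_lt _ _ _ (hy 0 (by omega))
    have rw' : num (2 ^ 320) (Dw 0) 9 < (2 ^ 320) ^ 9 := num_lt _ _ _ (hw 0 (by omega))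
    rw [hors_succ, Y_eq, num_succ _ (fun s => num (2 ^ 320) (Dx s) 9), num_succ _ (fun s => num (2 ^ 320) (Dy s) 9),
      num_succ _ (fun s => num (2 ^ 320) (Dw s) 9), dig_mod _ _ rx,
      dig_mod _ _ ry, dig_mod _ _ rw', dig_div _ _ rx, dig_div _ _ ry, dig_div _ _ rw']
    have h1 := ih (s + 1) m (fun j => Dx (j + 1)) (fun j => Dy (j + 1)) (fun j => Dw (j + 1)) (by omega) (by omega)
      (fun j hj => hx (j + 1) (by omega)) (fun j hj => hy (j + 1) (by omega)) (fun j hj => hw (j + 1) (by omega))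
    have h0 := hort_gen H eps (n + 1) 0 9 (Dx 0) (Dy 0) (Dw 0) (by omega) (hx 0 (by omega)) (hy 0 (by omega))
      (hw 0 (by omega))
    obtain ⟨Z, hZ⟩ : ∃ Z, Z = hors sg H eps n (s + 1)
      (num ((2 ^ 320) ^ 9) (fun j => num (2 ^ 320) (Dx (j + 1)) 9) m)
      (num ((2 ^ 320) ^ 9) (fun j => num (2 ^ 320) (Dy (j + 1)) 9) m)
      (num ((2 ^ 320) ^ 9) (fun j => num (2 ^ 320) (Dw (j + 1)) 9) m) := ⟨_, rfl⟩
    obtain ⟨T, hT⟩ : ∃ T, T = hort H eps (n + 1) 0 (num (2 ^ 320) (Dx 0) 9) (num (2 ^ 320) (Dy 0) 9)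
      (num (2 ^ 320) (Dw 0) 9) := ⟨_, rfl⟩
    rw [← hZ] at h1 ⊢
    rw [← hT] at h0 ⊢
    have h2 := div_succ_ge (sg * Z) 1048576 (by norm_num)
    have h3 : ((sg : ℝ) / 2 ^ 20) * (Z : ℝ) ≤ ((sg * Z / 1048576 + 1 : ℕ) : ℝ) := by
      refine le_trans (le_of_eq ?_) h2
      push_cast
      have : (2:ℝ) ^ 20 = 1048576 := by norm_num
      rw [this]
      ring
    have h5 : (0:ℝ) ≤ (sg : ℝ) / 2 ^ 20 := by positivity
    have h6 := mul_le_mul_of_nonneg_left h1 h5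
    have h10 : (0:ℝ) ≤ (s:ℝ) + 1 := by positivity
    have h11 := mul_le_mul_of_nonneg_left h0 h10
    rw [Nat.cast_add, sum_range_succ']
    have h7 : ∑ k ∈ range n, ∑ t ∈ range (n + 1 - (k + 1)), ((s : ℝ) + ((k + 1 : ℕ) : ℝ) + 1) *
        (coef (Dx (k + 1) t) (Dy (k + 1) t) (Dw (k + 1) t) eps : ℝ) *
        (((sg : ℝ) / 2 ^ 20) ^ (k + 1) * (((H : ℝ) / 2 ^ 21) ^ t / (t.factorial : ℝ))) =
        ((sg : ℝ) / 2 ^ 20) * ∑ j ∈ range n, ∑ t ∈ range (n - j), (((s + 1 : ℕ) : ℝ) + j + 1) *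
        (coef (Dx (j + 1) t) (Dy (j + 1) t) (Dw (j + 1) t) eps : ℝ) *
        (((sg : ℝ) / 2 ^ 20) ^ j * (((H : ℝ) / 2 ^ 21) ^ t / (t.factorial : ℝ))) := by
      rw [mul_sum]
      apply sum_congr rfl
      intro j _
      rw [mul_sum, Nat.add_sub_add_right]
      apply sum_congr rfl
      intro t _
      push_cast
      rw [pow_succ]
      ring
    rw [h7]
    have h9 : ∑ t ∈ range (n + 1 - 0), ((s : ℝ) + ((0 : ℕ) : ℝ) + 1) *
        (coef (Dx 0 t) (Dy 0 t) (Dw 0 t) eps : ℝ) *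
        (((sg : ℝ) / 2 ^ 20) ^ 0 * (((H : ℝ) / 2 ^ 21) ^ t / (t.factorial : ℝ))) =
        ((s:ℝ) + 1) * ∑ j ∈ range (n + 1), (coef (Dx 0 j) (Dy 0 j) (Dw 0 j) eps : ℝ) *
        (((H : ℝ) / 2 ^ 21) ^ j * (((0:ℕ).factorial : ℝ) / ((0 + j).factorial : ℝ))) := by
      rw [mul_sum, Nat.sub_zero]
      apply sum_congr rfl
      intro t _
      rw [Nat.factorial_zero, zero_add]
      push_cast
      ring
    rw [h9]
    push_cast at h11 ⊢
    push_cast at h3 h6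
    linarith

/-- DIG2: value of the double Horner sum over the rows `1, ..., 8` -/
theorem hors_sound (sg H eps : ℕ) (Dx Dy Dw : ℕ → ℕ → ℕ)
    (hx : ∀ s < 9, ∀ t < 9, Dx s t < 2 ^ 320) (hy : ∀ s < 9, ∀ t < 9, Dy s t < 2 ^ 320)
    (hw : ∀ s < 9, ∀ t < 9, Dw s t < 2 ^ 320) :
    ∑ s ∈ range 8, ∑ t ∈ range (8 - s), ((s : ℝ) + 1) *
        (coef (Dx (s + 1) t) (Dy (s + 1) t) (Dw (s + 1) t) eps : ℝ) *
        (((sg : ℝ) / 2 ^ 20) ^ s * (((H : ℝ) / 2 ^ 21) ^ t / (t.factorial : ℝ))) ≤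
      (hors sg H eps 8 0 (packed Dx / Y) (packed Dy / Y) (packed Dw / Y) : ℝ) := by
  rw [packed_div Dx hx, packed_div Dy hy, packed_div Dw hw]
  refine le_trans (le_of_eq ?_) (hors_gen sg H eps 8 0 8 (fun s => Dx (s + 1)) (fun s => Dy (s + 1))
    (fun s => Dw (s + 1)) le_rfl (by norm_num) (fun s hs => hx (s + 1) (by omega))
    (fun s hs => hy (s + 1) (by omega)) (fun s hs => hw (s + 1) (by omega)))
  apply sum_congr rfl
  intro s _
  apply sum_congr rfl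
  intro t _
  push_cast
  ring

/-- DIG3 -/
theorem digit10 (D : ℕ → ℕ → ℕ) (hx : ∀ s < 9, ∀ t < 9, D s t < 2 ^ 320) :
    packed D / Y % XX = D 1 0 := by
  have hXX : XX = 2 ^ 320 := rfl
  rw [packed_div D hx, hXX, num_succ, num_succ (2 ^ 320)]
  have h1 : D (0 + 1) 0 + 2 ^ 320 * num (2 ^ 320) (fun j => D (0 + 1) (j + 1)) 8 +
      (2 ^ 320) ^ 9 * num ((2 ^ 320) ^ 9) (fun j => num (2 ^ 320) (D (j + 1 + 1)) 9) 7 =
      D 1 0 + 2 ^ 320 * (num (2 ^ 320) (fun j => D (0 + 1) (j + 1)) 8 +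
      (2 ^ 320) ^ 8 * num ((2 ^ 320) ^ 9) (fun j => num (2 ^ 320) (D (j + 1 + 1)) 9) 7) := by
    rw [zero_add, pow_succ (2 ^ 320) 8]
    ring
  rw [h1]
  exact dig_mod _ _ (hx 1 (by norm_num) 0 (by norm_num))

end SokB
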