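import Pool.Agent.Lib.MP_816dec_an.BSndDefs

/-!
MP_816dec_an, finite part, row TAB: the tables of the kernel functions.
-/

set_option autoImplicit false

open Complex Finset

namespace SokB

private theorem geom_rec (y n : ℕ) :
    (Nat.rec (motive := fun _ => ℕ) 1 (fun _ r => Nat.add (Nat.mul r y) 1) n : ℕ) =
      ∑ t ∈ range (n + 1), y ^ t := by
  induction n with
  | zero => simp
  | succ n ih =>
    show (Nat.rec (motive := fun _ => ℕ) 1 (fun _ r => Nat.add (Nat.mul r y) 1) n : ℕ) * y + 1 = _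
    rw [ih, Finset.sum_range_succ' (fun t => y ^ t) (n + 1), Finset.sum_mul]
    simp only [pow_succ, pow_zero]

private theorem mkE_succ (n j e : ℕ) : mkE (n + 1) j e = (e, Nat.rec (motive := fun _ => ℕ) 1
    (fun _ r => Nat.add (Nat.mul r (Nat.mul e (Nat.pow 2 320))) 1) 8) :: mkE n (j + 1) (e + (j + 1)) :=
  rfl

private theorem mkE_spec (n : ℕ) : ∀ j e : ℕ, e = j * (j + 1) / 2 → (mkE n j e).length = n ∧
    ∀ i < n, (mkE n j e).getD i (0, 0) = ((j + i) * (j + i + 1) / 2,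
      ∑ t ∈ range 9, ((j + i) * (j + i + 1) / 2) ^ t * (2 ^ 320) ^ t) := by
  induction n with
  | zero =>
    intro j e _
    exact ⟨rfl, fun i hi => absurd hi (Nat.not_lt_zero i)⟩
  | succ n ih =>
    intro j e he
    have he' : e + (j + 1) = (j + 1) * (j + 1 + 1) / 2 := by
      have h1 : (j + 1) * (j + 1 + 1) = j * (j + 1) + (j + 1) * 2 := by ring
      rw [h1, Nat.add_mul_div_right _ _ (by norm_num : 0 < 2), he]
    obtain ⟨h1, h2⟩ := ih (j + 1) (e + (j + 1)) he'
    rw [mkE_succ]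
    refine ⟨by rw [List.length_cons, h1], ?_⟩
    intro i hi
    cases i with
    | zero =>
      rw [List.getD_cons_zero, geom_rec]
      simp only [Nat.add_zero]
      rw [← he]
      congr 1
      refine Finset.sum_congr rfl (fun t _ => ?_)
      show (e * 2 ^ 320) ^ t = _
      rw [mul_pow]
    | succ i =>
      rw [List.getD_cons_succ, h2 i (by omega)]
      have h3 : j + 1 + i = j + (i + 1) := by ring
      rw [h3]

/-- TAB1 -/
theorem tabE_spec : tabE.length = 70 ∧ ∀ j < 70, tabE.getD j (0, 0) =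
    (j * (j + 1) / 2, ∑ t ∈ range 9, (j * (j + 1) / 2) ^ t * (2 ^ 320) ^ t) := by
  obtain ⟨h1, h2⟩ := mkE_spec 70 0 0 rfl
  refine ⟨h1, ?_⟩
  intro j hj
  have h3 := h2 j hj
  rw [Nat.zero_add] at h3
  exact h3

private theorem mkB_succ (n b : ℕ) : mkB (n + 1) b =
    b :: mkB n (Nat.mod (Nat.add b (Nat.mul b (Nat.pow 2 2880))) (Nat.pow 2 25920)) :=
  rfl

private theorem sum_lt (Y : ℕ) (c : ℕ → ℕ) (n : ℕ) (hc : ∀ s < n, c s < Y) :
    ∑ s ∈ range n, c s * Y ^ s < Y ^ n := by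
  induction n with
  | zero => simp
  | succ n ih =>
    rw [Finset.sum_range_succ]
    have h1 := ih (fun s hs => hc s (by omega))
    have h2 : c n + 1 ≤ Y := hc n (by omega)
    have h3 : (c n + 1) * Y ^ n ≤ Y * Y ^ n := Nat.mul_le_mul_right _ h2
    rw [pow_succ, mul_comm (Y ^ n) Y]
    nlinarith

private theorem pascal (Y k : ℕ) : ∀ n : ℕ, (∑ s ∈ range (n + 1), k.choose s * Y ^ s) +
    (∑ s ∈ range (n + 1), k.choose s * Y ^ s) * Y =
      (∑ s ∈ range (n + 1), (k + 1).choose s * Y ^ s) + k.choose n * Y ^ (n + 1) := by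
  intro n
  induction n with
  | zero => simp
  | succ n ih =>
    rw [Finset.sum_range_succ (fun s => k.choose s * Y ^ s) (n + 1),
      Finset.sum_range_succ (fun s => (k + 1).choose s * Y ^ s) (n + 1), Nat.choose_succ_succ k n]
    have h1 : (∑ s ∈ range (n + 1), k.choose s * Y ^ s) + k.choose (n + 1) * Y ^ (n + 1) +
        ((∑ s ∈ range (n + 1), k.choose s * Y ^ s) + k.choose (n + 1) * Y ^ (n + 1)) * Y =
        ((∑ s ∈ range (n + 1), k.choose s * Y ^ s) + (∑ s ∈ range (n + 1), k.choose s * Y ^ s) * Y) +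
          k.choose (n + 1) * Y ^ (n + 1) + k.choose (n + 1) * Y ^ (n + 1 + 1) := by
      rw [pow_succ Y (n + 1)]
      ring
    rw [h1, ih]
    ring

private theorem step_mod (Y k : ℕ) (hY : 2 ^ (k + 1) < Y) :
    ((∑ s ∈ range 9, k.choose s * Y ^ s) + (∑ s ∈ range 9, k.choose s * Y ^ s) * Y) % Y ^ 9 =
      ∑ s ∈ range 9, (k + 1).choose s * Y ^ s := by
  rw [pascal Y k 8, Nat.add_mul_mod_self_right]
  apply Nat.mod_eq_of_lt
  refine sum_lt Y (fun s => (k + 1).choose s) 9 (fun s _ => ?_)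
  exact lt_of_le_of_lt (Nat.choose_le_two_pow (k + 1) s) hY

private theorem mkB_spec (n : ℕ) : ∀ k : ℕ, k + n ≤ 100 →
    (mkB n (∑ s ∈ range 9, k.choose s * (2 ^ 2880) ^ s)).length = n ∧
    ∀ i < n, (mkB n (∑ s ∈ range 9, k.choose s * (2 ^ 2880) ^ s)).getD i 0 =
      ∑ s ∈ range 9, (k + i).choose s * (2 ^ 2880) ^ s := by
  induction n with
  | zero =>
    intro k _
    exact ⟨rfl, fun i hi => absurd hi (Nat.not_lt_zero i)⟩
  | succ n ih =>
    intro k hk
    have hlt : 2 ^ (k + 1) < (2 ^ 2880 : ℕ) := Nat.pow_lt_pow_right (by norm_num) (by omega)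
    have h0 : Nat.mod (Nat.add (∑ s ∈ range 9, k.choose s * (2 ^ 2880) ^ s)
        (Nat.mul (∑ s ∈ range 9, k.choose s * (2 ^ 2880) ^ s) (Nat.pow 2 2880))) (Nat.pow 2 25920) =
          ∑ s ∈ range 9, (k + 1).choose s * (2 ^ 2880) ^ s := by
      rw [← step_mod (2 ^ 2880) k hlt, ← pow_mul]
      rfl
    obtain ⟨h1, h2⟩ := ih (k + 1) (by omega)
    rw [mkB_succ, h0]
    refine ⟨by rw [List.length_cons, h1], ?_⟩
    intro i hi
    cases i with
    | zero => rw [List.getD_cons_zero, Nat.add_zero]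
    | succ i =>
      rw [List.getD_cons_succ, h2 i (by omega)]
      have h3 : k + 1 + i = k + (i + 1) := by ring
      rw [h3]

/-- TAB2 -/
theorem tabB_spec : tabB.length = 70 ∧ ∀ k < 70, tabB.getD k 0 =
    ∑ s ∈ range 9, k.choose s * (2 ^ 2880) ^ s := by
  have h0 : ∑ s ∈ range 9, (0 : ℕ).choose s * (2 ^ 2880) ^ s = 1 := by
    rw [Finset.sum_range_succ' _ 8]
    simp [Nat.choose_zero_succ]
  obtain ⟨h1, h2⟩ := mkB_spec 70 0 (by norm_num)
  rw [h0] at h1 h2
  refine ⟨h1, ?_⟩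
  intro k hk
  have h3 := h2 k hk
  rw [Nat.zero_add] at h3
  exact h3

end SokB
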