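import Pool.Agent.Lib.MP_816dec_an.BFP

/-!
MP_816dec_an, finite part: row U (powers and terms). Imports BFP (helper61) for Ap_mul only.
-/

set_option autoImplicit false

open Complex Finset

namespace SokB

private theorem exp_bound_U : Real.exp (37 / 2) ≤ 2 ^ 27 := by
  have h1 : Real.exp (37 / 2) ^ 2 = Real.exp 1 ^ 37 := by
    rw [← Real.exp_nat_mul, ← Real.exp_nat_mul]
    congr 1
    norm_num
  have h2 : Real.exp 1 ^ 37 ≤ (2.7182818286 : ℝ) ^ 37 :=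
    pow_le_pow_left₀ (Real.exp_pos 1).le Real.exp_one_lt_d9.le 37
  have h3 : (2.7182818286 : ℝ) ^ 37 ≤ (2 ^ 27) ^ 2 := by norm_num
  have h4 : Real.exp (37 / 2) ^ 2 ≤ (2 ^ 27 : ℝ) ^ 2 := by rw [h1]; exact h2.trans h3
  exact le_of_sq_le_sq h4 (by norm_num)

private theorem norm_term_U (Wx Wy : ℕ) (hw : ‖cv Wx Wy‖ ≤ 37 / 2) (k : ℕ) :
    ‖cv Wx Wy ^ k / (k.factorial : ℂ)‖ ≤ 2 ^ 27 := by
  rw [norm_div, norm_pow, Complex.norm_natCast]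
  have h1 : ‖cv Wx Wy‖ ^ k / (k.factorial : ℝ) ≤ (37 / 2) ^ k / (k.factorial : ℝ) := by
    gcongr
  have h2 : (37 / 2 : ℝ) ^ k / (k.factorial : ℝ) ≤ Real.exp (37 / 2) :=
    Real.pow_div_factorial_le_exp _ (by norm_num) k
  exact h1.trans (h2.trans exp_bound_U)

/-- the error sequence -/
private def eU : ℕ → ℕ
  | 0 => 0
  | k + 1 => 37 * eU k / (2 * (k + 1)) + 3

private theorem eU_le : ∀ k ≤ 70, eU k ≤ 2 ^ 34 := by decide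

private theorem eU_step (k : ℕ) : (37 / 2 * (eU k : ℝ)) / (k + 1 : ℝ) + 2 ≤ (eU (k + 1) : ℝ) := by
  have h1 : (37 * (eU k : ℝ)) / (2 * ((k : ℝ) + 1)) ≤
      ((37 * eU k / (2 * (k + 1)) : ℕ) : ℝ) + 1 := by
    have := Nat.lt_floor_add_one ((37 * (eU k : ℝ)) / (2 * ((k : ℝ) + 1)))
    have h2 : ⌊(37 * (eU k : ℝ)) / (2 * ((k : ℝ) + 1))⌋₊ = 37 * eU k / (2 * (k + 1)) := by
      have h3 := Nat.floor_div_eq_div (K := ℝ) (37 * eU k) (2 * (k + 1))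
      push_cast at h3
      exact h3
    rw [h2] at this
    exact this.le
  have h4 : (37 / 2 * (eU k : ℝ)) / (k + 1 : ℝ) = (37 * (eU k : ℝ)) / (2 * ((k : ℝ) + 1)) := by
    have : (k : ℝ) + 1 ≠ 0 := by positivity
    field_simp
  have h5 : (eU (k + 1) : ℝ) = ((37 * eU k / (2 * (k + 1)) : ℕ) : ℝ) + 3 := by
    rw [eU]; push_cast; ring
  rw [h4, h5]
  linarith

private theorem Ap_mono {x y : ℕ} {z : ℂ} {ε ε' : ℝ} (h : Ap x y z ε) (hε : ε ≤ ε') : Ap x y z ε' :=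
  le_trans h hε

private theorem U_aux (Wx Wy : ℕ) (hw : ‖cv Wx Wy‖ ≤ 37 / 2) (k : ℕ) (hk : k ≤ 70) :
    Ap (Useq Wx Wy k).1 (Useq Wx Wy k).2 (cv Wx Wy ^ k / (k.factorial : ℂ)) (eU k) := by
  induction k with
  | zero =>
    unfold Ap
    have h1 : cv (Useq Wx Wy 0).1 (Useq Wx Wy 0).2 = 1 := by
      unfold cv Useq
      apply Complex.ext
      · norm_num
      · norm_num
    rw [h1]
    simp [eU]
  | succ k ih =>
    have hk' : k ≤ 70 := by omega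
    have h1 := ih hk'
    have h2 : Ap Wx Wy (cv Wx Wy) 0 := by
      unfold Ap
      simp
    have hn := norm_term_U Wx Wy hw k
    have he : ((eU k : ℕ) : ℝ) ≤ 2 ^ 34 := by exact_mod_cast eU_le k hk'
    have he0 : (0 : ℝ) ≤ (eU k : ℝ) := Nat.cast_nonneg _
    have hb : (‖cv Wx Wy ^ k / (k.factorial : ℂ)‖ + (eU k : ℝ) / 2 ^ 112) *
        (‖cv Wx Wy‖ + 0 / 2 ^ 112) ≤ 2 ^ 32 * ((k + 1 : ℕ) : ℝ) := by
      have a1 : ‖cv Wx Wy ^ k / (k.factorial : ℂ)‖ + (eU k : ℝ) / 2 ^ 112 ≤ 2 ^ 27 + 1 := by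
        have : (eU k : ℝ) / 2 ^ 112 ≤ 1 := by
          rw [div_le_one (by positivity)]
          exact he.trans (by norm_num)
        linarith
      have a2 : ‖cv Wx Wy‖ + 0 / 2 ^ 112 ≤ 37 / 2 := by simpa using hw
      have a3 : (1 : ℝ) ≤ ((k + 1 : ℕ) : ℝ) := by exact_mod_cast Nat.succ_le_succ (Nat.zero_le k)
      calc (‖cv Wx Wy ^ k / (k.factorial : ℂ)‖ + (eU k : ℝ) / 2 ^ 112) * (‖cv Wx Wy‖ + 0 / 2 ^ 112)
          ≤ (2 ^ 27 + 1) * (37 / 2) := by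
            apply mul_le_mul a1 a2 (by positivity) (by norm_num)
        _ ≤ 2 ^ 32 * 1 := by norm_num
        _ ≤ 2 ^ 32 * ((k + 1 : ℕ) : ℝ) := by
            apply mul_le_mul_of_nonneg_left a3 (by positivity)
    have h3 := Ap_mul (d := k + 1) (Nat.succ_pos k) h1 h2 hb
    have h4 : cv Wx Wy ^ k / (k.factorial : ℂ) * cv Wx Wy / ((k + 1 : ℕ) : ℂ) =
        cv Wx Wy ^ (k + 1) / ((k + 1).factorial : ℂ) := by
      rw [Nat.factorial_succ, pow_succ]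
      push_cast
      have b1 : (k.factorial : ℂ) ≠ 0 := by exact_mod_cast Nat.factorial_ne_zero k
      have b2 : (k : ℂ) + 1 ≠ 0 := by exact_mod_cast Nat.succ_ne_zero k
      field_simp
    rw [h4] at h3
    refine Ap_mono h3 ?_
    have h5 := eU_step k
    have h6 : (‖cv Wx Wy ^ k / (k.factorial : ℂ)‖ * 0 + ‖cv Wx Wy‖ * (eU k : ℝ) +
        (eU k : ℝ) * 0 / 2 ^ 112) / ((k + 1 : ℕ) : ℝ) + 2 ≤ (37 / 2 * (eU k : ℝ)) / (k + 1 : ℝ) + 2 := by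
      push_cast
      have : ‖cv Wx Wy ^ k / (k.factorial : ℂ)‖ * 0 + ‖cv Wx Wy‖ * (eU k : ℝ) +
        (eU k : ℝ) * 0 / 2 ^ 112 = ‖cv Wx Wy‖ * (eU k : ℝ) := by ring
      rw [this]
      gcongr
    linarith

/-- U1 -/
theorem U_sound (Wx Wy : ℕ) (hw : ‖cv Wx Wy‖ ≤ 37 / 2) (k : ℕ) (hk : k ≤ 70) :
    Ap (Useq Wx Wy k).1 (Useq Wx Wy k).2 (cv Wx Wy ^ k / (k.factorial : ℂ)) (2 ^ 34) :=
  Ap_mono (U_aux Wx Wy hw k hk) (by exact_mod_cast eU_le k hk)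

private theorem bound_of_Ap {x y : ℕ} {z : ℂ} (h : Ap x y z (2 ^ 60)) (hz : ‖z‖ ≤ 2 ^ 27) :
    x < 2 ^ 145 ∧ y < 2 ^ 145 := by
  unfold Ap at h
  have h1 : ‖cv x y - z‖ ≤ 1 := by
    have : ‖cv x y - z‖ * 2 ^ 112 ≤ 1 * 2 ^ 112 := h.trans (by norm_num)
    exact le_of_mul_le_mul_right this (by norm_num)
  have h2 : ‖cv x y‖ ≤ 2 ^ 28 := by
    calc ‖cv x y‖ = ‖(cv x y - z) + z‖ := by congr 1; ring
      _ ≤ ‖cv x y - z‖ + ‖z‖ := norm_add_le _ _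
      _ ≤ 1 + 2 ^ 27 := add_le_add h1 hz
      _ ≤ 2 ^ 28 := by norm_num
  have h3 : |(cv x y).re| ≤ 2 ^ 28 := (Complex.abs_re_le_norm _).trans h2
  have h4 : |(cv x y).im| ≤ 2 ^ 28 := (Complex.abs_im_le_norm _).trans h2
  have h5 : (cv x y).re = ((x : ℝ) - 2 ^ 144) / 2 ^ 112 := rfl
  have h6 : (cv x y).im = ((y : ℝ) - 2 ^ 144) / 2 ^ 112 := rfl
  rw [h5] at h3
  rw [h6] at h4
  have h7 := (abs_le.1 h3).2
  have h8 := (abs_le.1 h4).2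
  rw [div_le_iff₀ (by positivity)] at h7 h8
  constructor
  · have : (x : ℝ) < 2 ^ 145 := by
      have e : (2 : ℝ) ^ 28 * 2 ^ 112 + 2 ^ 144 < 2 ^ 145 := by norm_num
      linarith
    exact_mod_cast this
  · have : (y : ℝ) < 2 ^ 145 := by
      have e : (2 : ℝ) ^ 28 * 2 ^ 112 + 2 ^ 144 < 2 ^ 145 := by norm_num
      linarith
    exact_mod_cast this

private theorem norm_cis_U (x : ℝ) : ‖cis x‖ = 1 := by
  unfold cis
  exact Complex.norm_exp_ofReal_mul_I x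

/-- U2 -/
theorem tau_sound (Wx Wy i k Tx Ty : ℕ) (α : ℝ) (hw : ‖cv Wx Wy‖ ≤ 37 / 2) (hk : k ≤ 70)
    (hT : Ap Tx Ty (cis (ee i k * α)) (2 ^ 23)) :
    Ap (gre (Useq Wx Wy k).1 (Useq Wx Wy k).2 Tx Ty (2 ^ 112))
      (gim (Useq Wx Wy k).1 (Useq Wx Wy k).2 Tx Ty (2 ^ 112)) (tau i α (cv Wx Wy) k) (2 ^ 60) ∧
    gre (Useq Wx Wy k).1 (Useq Wx Wy k).2 Tx Ty (2 ^ 112) < 2 ^ 145 ∧
    gim (Useq Wx Wy k).1 (Useq Wx Wy k).2 Tx Ty (2 ^ 112) < 2 ^ 145 := by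
  have h1 := U_sound Wx Wy hw k hk
  have hn := norm_term_U Wx Wy hw k
  have hc : ‖cis (ee i k * α)‖ = 1 := norm_cis_U _
  have hb : (‖cv Wx Wy ^ k / (k.factorial : ℂ)‖ + 2 ^ 34 / 2 ^ 112) *
      (‖cis (ee i k * α)‖ + 2 ^ 23 / 2 ^ 112) ≤ 2 ^ 32 * ((1 : ℕ) : ℝ) := by
    rw [hc]
    calc (‖cv Wx Wy ^ k / (k.factorial : ℂ)‖ + 2 ^ 34 / 2 ^ 112) * (1 + 2 ^ 23 / 2 ^ 112)
        ≤ (2 ^ 27 + 2 ^ 34 / 2 ^ 112) * (1 + 2 ^ 23 / 2 ^ 112) := by gcongr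
      _ ≤ 2 ^ 32 * ((1 : ℕ) : ℝ) := by norm_num
  have h3 := Ap_mul (d := 1) Nat.one_pos h1 hT hb
  rw [mul_one] at h3
  have h4 : cv Wx Wy ^ k / (k.factorial : ℂ) * cis (ee i k * α) / ((1 : ℕ) : ℂ) =
      tau i α (cv Wx Wy) k := by
    unfold tau
    rw [Nat.cast_one, div_one, mul_comm]
  rw [h4, hc] at h3
  have h5 : Ap (gre (Useq Wx Wy k).1 (Useq Wx Wy k).2 Tx Ty (2 ^ 112))
      (gim (Useq Wx Wy k).1 (Useq Wx Wy k).2 Tx Ty (2 ^ 112)) (tau i α (cv Wx Wy) k) (2 ^ 60) := by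
    refine Ap_mono h3 ?_
    calc (‖cv Wx Wy ^ k / (k.factorial : ℂ)‖ * 2 ^ 23 + 1 * 2 ^ 34 + 2 ^ 34 * 2 ^ 23 / 2 ^ 112) /
          ((1 : ℕ) : ℝ) + 2
        ≤ (2 ^ 27 * 2 ^ 23 + 1 * 2 ^ 34 + 2 ^ 34 * 2 ^ 23 / 2 ^ 112) / ((1 : ℕ) : ℝ) + 2 := by gcongr
      _ ≤ 2 ^ 60 := by norm_num
  have h6 : ‖tau i α (cv Wx Wy) k‖ ≤ 2 ^ 27 := by
    unfold tau
    rw [norm_mul, hc, one_mul]
    exact hn
  exact ⟨h5, bound_of_Ap h5 h6⟩

/-- U3 -/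
theorem V_sound (w' : ℕ) (W' : ℝ) (h0 : 0 ≤ W') (h : W' ≤ w' / 2 ^ 16) (k : ℕ) :
    2 ^ 64 * (W' ^ k / (k.factorial : ℝ)) ≤ (Vseq w' k : ℝ) := by
  induction k with
  | zero =>
    simp only [pow_zero, Nat.factorial_zero, Nat.cast_one, div_one, mul_one, Vseq]
    norm_num
  | succ k ih =>
    have h1 : 2 ^ 64 * (W' ^ (k + 1) / ((k + 1).factorial : ℝ)) =
        2 ^ 64 * (W' ^ k / (k.factorial : ℝ)) * (W' / ((k : ℝ) + 1)) := by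
      rw [Nat.factorial_succ]
      push_cast
      have b1 : (k.factorial : ℝ) ≠ 0 := by exact_mod_cast Nat.factorial_ne_zero k
      have b2 : (k : ℝ) + 1 ≠ 0 := by positivity
      field_simp
      ring
    have h2 : 2 ^ 64 * (W' ^ k / (k.factorial : ℝ)) * (W' / ((k : ℝ) + 1)) ≤
        (Vseq w' k : ℝ) * ((w' / 2 ^ 16) / ((k : ℝ) + 1)) := by
      apply mul_le_mul ih _ (by positivity) (by positivity)
      gcongr
    have h3 : (Vseq w' k : ℝ) * ((w' / 2 ^ 16) / ((k : ℝ) + 1)) =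
        ((Vseq w' k * w' : ℕ) : ℝ) / ((65536 * (k + 1) : ℕ) : ℝ) := by
      push_cast
      have b2 : (k : ℝ) + 1 ≠ 0 := by positivity
      field_simp
      norm_num
    have h4 : ((Vseq w' k * w' : ℕ) : ℝ) / ((65536 * (k + 1) : ℕ) : ℝ) ≤
        ((Vseq w' k * w' / (65536 * (k + 1)) : ℕ) : ℝ) + 1 := by
      have h5 := Nat.lt_floor_add_one (((Vseq w' k * w' : ℕ) : ℝ) / ((65536 * (k + 1) : ℕ) : ℝ))
      rw [Nat.floor_div_eq_div] at h5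
      exact h5.le
    have h6 : (Vseq w' (k + 1) : ℝ) = ((Vseq w' k * w' / (65536 * (k + 1)) : ℕ) : ℝ) + 1 := by
      rw [Vseq]
      push_cast
      ring
    rw [h1, h6]
    linarith

end SokB
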