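import Pool.Agent.Lib.MP_816dec_an.BAn4
import Pool.Agent.Lib.MP_816dec_an.BLoop
import Pool.Agent.Lib.MP_816dec_an.BRows

/-!
MP_816dec_an, finite part: soundness of the check of one certificate.
-/

set_option autoImplicit false

open Complex Finset

namespace SokB

theorem le1_iff (x y : ℕ) (c : Bool) : le1 x y c = true ↔ x ≤ y ∧ c = true := by
  unfold le1
  rcases h : Nat.ble x y with _ | _
  · simp only [Bool.false_eq_true, false_iff, not_and]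
    intro h1
    rw [← Nat.ble_eq] at h1
    rw [h1] at h
    exact absurd h (by simp)
  · rw [Nat.ble_eq] at h
    simp [h]

theorem ee_le (i k : ℕ) (hi : i ≤ 69) (hk : k ≤ 69) : ee i k ≤ 2415 := by
  have h1 : je i k ≤ 69 := by
    unfold je
    split_ifs <;> omega
  unfold ee
  have h2 : je i k * (je i k + 1) ≤ 69 * 70 := Nat.mul_le_mul h1 (by omega)
  omega

/-- weight -/
def wt (i k s t : ℕ) : ℕ := k.choose s * ee i k ^ t

theorem wt_le (i k s t : ℕ) (hi : i ≤ 69) (hk : k ≤ 69) (ht : t ≤ 8) : wt i k s t ≤ 2 ^ 165 := by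
  unfold wt
  have h1 : k.choose s ≤ 2 ^ 69 :=
    (Nat.choose_le_two_pow k s).trans (Nat.pow_le_pow_right (by norm_num) hk)
  have h2 : ee i k ^ t ≤ 2 ^ 96 := by
    have h3 : ee i k ≤ 2 ^ 12 := (ee_le i k hi hk).trans (by norm_num)
    calc ee i k ^ t ≤ (2 ^ 12) ^ t := Nat.pow_le_pow_left h3 t
      _ = 2 ^ (12 * t) := by rw [← pow_mul]
      _ ≤ 2 ^ 96 := Nat.pow_le_pow_right (by norm_num) (by omega)
  calc k.choose s * ee i k ^ t ≤ 2 ^ 69 * 2 ^ 96 := Nat.mul_le_mul h1 h2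
    _ = 2 ^ 165 := by norm_num

/-- digit sums -/
def Ds (i K : ℕ) (f : ℕ → ℕ) (s t : ℕ) : ℕ := ∑ k ∈ range (K + 1), f k * wt i k s t

theorem Ds_lt (i K : ℕ) (f : ℕ → ℕ) (s t : ℕ) (hi : i ≤ 69) (hK : K ≤ 69) (ht : t ≤ 8)
    (hf : ∀ k ≤ K, f k < 2 ^ 145) : Ds i K f s t < 2 ^ 320 := by
  have h1 : Ds i K f s t ≤ ∑ k ∈ range (K + 1), 2 ^ 145 * 2 ^ 165 := by
    refine sum_le_sum fun k hk => ?_
    rw [mem_range] at hk
    exact Nat.mul_le_mul (hf k (by omega)).le (wt_le i k s t hi (by omega) ht)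
  refine lt_of_le_of_lt h1 ?_
  rw [sum_const, card_range, smul_eq_mul]
  have h2 : (K + 1) * (2 ^ 145 * 2 ^ 165) < 2 ^ 7 * (2 ^ 145 * 2 ^ 165) :=
    Nat.mul_lt_mul_of_pos_right (by omega) (by positivity)
  refine h2.trans_le ?_
  rw [← pow_add, ← pow_add]
  exact Nat.pow_le_pow_right (by norm_num) (by norm_num)

theorem packed_Ds (i K : ℕ) (f : ℕ → ℕ) (LE : List (ℕ × ℕ)) (hK : K ≤ 69)
    (hLE : ∀ k ≤ 69, LE.getD k (0, 0) = (ee i k, ∑ t ∈ range 9, ee i k ^ t * (2 ^ 320) ^ t)) :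
    ∑ k ∈ range (K + 1), f k * (tabB.getD k 0 * (LE.getD k (0, 0)).2) = packed (Ds i K f) := by
  have h1 : ∀ k ∈ range (K + 1), f k * (tabB.getD k 0 * (LE.getD k (0, 0)).2) =
      ∑ s ∈ range 9, ∑ t ∈ range 9, f k * wt i k s t * (2 ^ 320) ^ (9 * s + t) := by
    intro k hk
    rw [mem_range] at hk
    rw [hLE k (by omega), tabB_spec.2 k (by omega), sum_mul_sum, mul_sum]
    refine sum_congr rfl fun s _ => ?_
    rw [mul_sum]
    refine sum_congr rfl fun t _ => ?_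
    unfold wt
    have e : (2 ^ 2880 : ℕ) ^ s = ((2 ^ 320) ^ 9) ^ s := by
      rw [← pow_mul, ← pow_mul, ← pow_mul]
      congr 1
      ring
    rw [pow_add, pow_mul, e]
    ring
  rw [sum_congr rfl h1]
  unfold packed Ds
  rw [sum_comm]
  refine sum_congr rfl fun s _ => ?_
  rw [sum_comm]
  refine sum_congr rfl fun t _ => ?_
  rw [sum_mul]

/-- value of the digit sums -/
noncomputable def Bv (i K : ℕ) (f g : ℕ → ℕ) (s t : ℕ) : ℂ :=
  ∑ k ∈ range (K + 1), cv (f k) (g k) * ((wt i k s t : ℕ) : ℂ)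

theorem Bv_eq (i K : ℕ) (f g : ℕ → ℕ) (s t : ℕ) :
    (⟨(Ds i K f s t : ℝ) - 2 ^ 144 * Ds i K (fun _ => 1) s t,
      (Ds i K g s t : ℝ) - 2 ^ 144 * Ds i K (fun _ => 1) s t⟩ : ℂ) = (2 : ℂ) ^ 112 * Bv i K f g s t := by
  obtain ⟨c, hc⟩ : ∃ c : ℝ, c = 2 ^ 112 := ⟨_, rfl⟩
  have hc0 : c ≠ 0 := by rw [hc]; positivity
  have h2 : ((2 : ℂ) ^ 112) = (c : ℂ) := by rw [hc]; push_cast; rfl
  unfold Bv Ds
  rw [h2, mul_sum]
  apply Complex.ext
  · rw [Complex.re_sum]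
    simp only [Nat.cast_sum, Nat.cast_mul, Nat.cast_one, one_mul]
    rw [mul_sum, ← sum_sub_distrib]
    refine sum_congr rfl fun k _ => ?_
    rw [Complex.re_ofReal_mul]
    have h3 : (cv (f k) (g k) * ((wt i k s t : ℕ) : ℂ)).re = ((f k : ℝ) - 2 ^ 144) / c * (wt i k s t : ℝ) := by
      rw [mul_comm, ← Complex.ofReal_natCast, Complex.re_ofReal_mul, mul_comm, hc]
      rfl
    rw [h3]
    field_simp
  · rw [Complex.im_sum]
    simp only [Nat.cast_sum, Nat.cast_mul, Nat.cast_one, one_mul]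
    rw [mul_sum, ← sum_sub_distrib]
    refine sum_congr rfl fun k _ => ?_
    rw [Complex.im_ofReal_mul]
    have h3 : (cv (f k) (g k) * ((wt i k s t : ℕ) : ℂ)).im = ((g k : ℝ) - 2 ^ 144) / c * (wt i k s t : ℝ) := by
      rw [mul_comm, ← Complex.ofReal_natCast, Complex.im_ofReal_mul, mul_comm, hc]
      rfl
    rw [h3]
    field_simp

theorem Bv_sub (i K : ℕ) (α : ℝ) (w : ℂ) (f g : ℕ → ℕ) (s t : ℕ)
    (h : ∀ k ≤ K, Ap (f k) (g k) (tau i α w k) (2 ^ 60)) :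
    ‖Ac i K α w s t - Bv i K f g s t‖ ≤ (Ds i K (fun _ => 1) s t : ℝ) / 2 ^ 52 := by
  unfold Ac Bv Ds
  rw [← sum_sub_distrib]
  refine (norm_sum_le _ _).trans ?_
  rw [Nat.cast_sum, sum_div]
  refine sum_le_sum fun k hk => ?_
  rw [mem_range] at hk
  have h1 := h k (by omega)
  unfold Ap at h1
  have e : tau i α w k * ((k.choose s * ee i k ^ t : ℕ) : ℂ) - cv (f k) (g k) * ((wt i k s t : ℕ) : ℂ)
      = (tau i α w k - cv (f k) (g k)) * ((wt i k s t : ℕ) : ℂ) := by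
    unfold wt
    ring
  rw [e, norm_mul, Complex.norm_natCast, norm_sub_rev, Nat.cast_mul, Nat.cast_one, one_mul]
  have h2 : ‖cv (f k) (g k) - tau i α w k‖ ≤ 1 / 2 ^ 52 := by
    rw [le_div_iff₀ (by positivity)]
    have h3 : ‖cv (f k) (g k) - tau i α w k‖ * 2 ^ 112 = ‖cv (f k) (g k) - tau i α w k‖ * 2 ^ 52 * 2 ^ 60 := by
      rw [mul_assoc, ← pow_add]
    rw [h3] at h1
    have h4 : (0 : ℝ) < 2 ^ 60 := by positivity
    nlinarith
  calc ‖cv (f k) (g k) - tau i α w k‖ * (wt i k s t : ℝ) ≤ 1 / 2 ^ 52 * (wt i k s t : ℝ) :=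
        mul_le_mul_of_nonneg_right h2 (Nat.cast_nonneg _)
    _ = (wt i k s t : ℝ) / 2 ^ 52 := by ring

/-- the coefficient bound -/
theorem Ac_le (i K : ℕ) (α : ℝ) (w : ℂ) (f g : ℕ → ℕ) (s t : ℕ)
    (h : ∀ k ≤ K, Ap (f k) (g k) (tau i α w k) (2 ^ 60)) :
    ‖Ac i K α w s t‖ ≤
      (coef (Ds i K f s t) (Ds i K g s t) (Ds i K (fun _ => 1) s t) (2 ^ 70) : ℝ) / 2 ^ 122 := by
  have h1 := Bv_sub i K α w f g s t h
  have h2 := coef_sound (Ds i K f s t) (Ds i K g s t) (Ds i K (fun _ => 1) s t) (2 ^ 70)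
  rw [Bv_eq, norm_mul, norm_pow, Complex.norm_ofNat] at h2
  have h3 : ‖Ac i K α w s t‖ ≤ ‖Ac i K α w s t - Bv i K f g s t‖ + ‖Bv i K f g s t‖ := by
    have := norm_add_le (Ac i K α w s t - Bv i K f g s t) (Bv i K f g s t)
    rwa [sub_add_cancel] at this
  rw [le_div_iff₀ (by positivity)]
  rw [Nat.cast_pow, Nat.cast_ofNat] at h2
  have e1 : ((2 : ℝ) ^ 122) = 1024 * 2 ^ 112 := by norm_num
  have e2 : ((2 : ℝ) ^ 122) = 2 ^ 52 * 2 ^ 70 := by norm_num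
  have h4 : ‖Ac i K α w s t - Bv i K f g s t‖ * 2 ^ 122 ≤ 2 ^ 70 * (Ds i K (fun _ => 1) s t : ℝ) := by
    rw [le_div_iff₀ (by positivity)] at h1
    rw [e2, ← mul_assoc]
    have h5 : (0 : ℝ) < 2 ^ 70 := by positivity
    nlinarith
  have h6 : ‖Bv i K f g s t‖ * 2 ^ 122 = 1024 * (2 ^ 112 * ‖Bv i K f g s t‖) := by rw [e1]; ring
  have h7 : (0 : ℝ) < 2 ^ 122 := by positivity
  calc ‖Ac i K α w s t‖ * 2 ^ 122 ≤ (‖Ac i K α w s t - Bv i K f g s t‖ + ‖Bv i K f g s t‖) * 2 ^ 122 :=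
        mul_le_mul_of_nonneg_right h3 h7.le
    _ = ‖Ac i K α w s t - Bv i K f g s t‖ * 2 ^ 122 + ‖Bv i K f g s t‖ * 2 ^ 122 := by ring
    _ ≤ 2 ^ 70 * (Ds i K (fun _ => 1) s t : ℝ) + 1024 * (2 ^ 112 * ‖Bv i K f g s t‖) := by
        rw [h6]; exact add_le_add_left h4 _
    _ ≤ _ := by
        rw [add_comm]
        exact h2

end SokB
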