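import Pool.Agent.Lib.MP_816dec_an.BCertK

/-!
MP_816dec_an, finite part: soundness of the check of one certificate.
-/

set_option autoImplicit false

open Complex Finset

namespace SokB

theorem l2_real (i K : ℕ) (f g : ℕ → ℕ) (l2 : ℕ)
    (hl2 : l2 = sq (ad (Ds i K f 1 0) (2 ^ 144 * Ds i K (fun _ => 1) 1 0)) +
      sq (ad (Ds i K g 1 0) (2 ^ 144 * Ds i K (fun _ => 1) 1 0))) :
    (l2 : ℝ) = (2 ^ 112 * ‖Bv i K f g 1 0‖) ^ 2 := by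
  have e1 := Bv_eq i K f g 1 0
  have e2 : ‖(2 : ℂ) ^ 112 * Bv i K f g 1 0‖ = 2 ^ 112 * ‖Bv i K f g 1 0‖ := by
    rw [norm_mul, norm_pow, Complex.norm_ofNat]
  rw [← e2, ← e1, ← Complex.normSq_eq_norm_sq, Complex.normSq_mk, hl2, Nat.cast_add, ad_sqR, ad_sqR,
    Nat.cast_mul, Nat.cast_pow, Nat.cast_ofNat]
  ring

theorem ne_zero_of_l2 (l2 : ℕ) (L : ℂ) (h : (l2 : ℝ) = (2 ^ 112 * ‖L‖) ^ 2) (h1 : 1 ≤ l2) : L ≠ 0 := by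
  intro hc
  rw [hc, norm_zero, mul_zero] at h
  have : (1 : ℝ) ≤ (l2 : ℝ) := by exact_mod_cast h1
  rw [h] at this
  norm_num at this

theorem RemT_real (i K w' sg H : ℕ) (W : ℝ) (LE : List (ℕ × ℕ)) (hK : K ≤ 69) (hW0 : 0 ≤ W)
    (hW : W ≤ (w' : ℝ) / 2 ^ 16) (hw' : w' + 1 ≤ 65536 * (K + 1))
    (hLE : ∀ k ≤ 69, (LE.getD k (0, 0)).1 = ee i k) :
    Rem i K 8 W ((w' : ℝ) / 2 ^ 16) ((sg : ℝ) / 2 ^ 20) ((H : ℝ) / 2 ^ 21) * 2 ^ 122 ≤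
      ((2 ^ 58 * (RM w' (2 * sg) H LE (K + 1) / (40320 * 2 ^ 168) + 1 +
        (Vseq w' (K + 1) * ((K + 1) * (K + 1)) * 65536 / (65536 * (K + 1) - w') + 1)) : ℕ) : ℝ) := by
  have hRem := Rem_le i K w' sg H W LE hK hW0 hW hw' hLE
  obtain ⟨R, hR⟩ : ∃ R : ℝ, R = Rem i K 8 W ((w' : ℝ) / 2 ^ 16) ((sg : ℝ) / 2 ^ 20)
    ((H : ℝ) / 2 ^ 21) := ⟨_, rfl⟩
  rw [← hR] at hRem ⊢
  have e1 : R * 2 ^ 122 = 2 ^ 58 * (R * 2 ^ 64) := by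
    rw [show (122 : ℕ) = 58 + 64 by norm_num, pow_add]
    ring
  rw [e1, Nat.cast_mul, Nat.cast_pow, Nat.cast_ofNat]
  exact mul_le_mul_of_nonneg_left hRem (by positivity)

theorem g2_real (b2 RemT e l2 : ℕ) (L : ℂ) (hl : (l2 : ℝ) = (2 ^ 112 * ‖L‖) ^ 2)
    (g2 : sq (64 * (b2 + RemT)) ≤ sq (1024 * e) * l2) :
    (64 * ((b2 : ℝ) + RemT)) ^ 2 ≤ (1024 * (e : ℝ)) ^ 2 * (2 ^ 112 * ‖L‖) ^ 2 := by
  have e3 : ((sq (64 * (b2 + RemT)) : ℕ) : ℝ) ≤ ((sq (1024 * e) * l2 : ℕ) : ℝ) := Nat.cast_le.2 g2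
  rw [Nat.cast_mul, sq_cast, sq_cast, hl] at e3
  push_cast at e3
  exact e3

theorem g3_real (c : Cert) (b0 RemT l2 : ℕ) (L : ℂ) (h7 : c.e + 1 ≤ 64)
    (hl : (l2 : ℝ) = (2 ^ 112 * ‖L‖) ^ 2)
    (g3 : sq (64 * (b0 + RemT)) * n2 c ≤ sq ((64 - c.e) * 1024 * c.s) * l2) :
    (64 * ((b0 : ℝ) + RemT)) ^ 2 * (‖wof c‖ * 2 ^ 16) ^ 2 ≤
      ((64 - (c.e : ℝ)) * 1024 * (c.s : ℝ)) ^ 2 * (2 ^ 112 * ‖L‖) ^ 2 := by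
  have e3 : ((sq (64 * (b0 + RemT)) * n2 c : ℕ) : ℝ) ≤ ((sq ((64 - c.e) * 1024 * c.s) * l2 : ℕ) : ℝ) :=
    Nat.cast_le.2 g3
  have e4 : (((64 - c.e : ℕ)) : ℝ) = 64 - (c.e : ℝ) := by
    rw [Nat.cast_sub (by omega)]
    norm_num
  rw [Nat.cast_mul, Nat.cast_mul, sq_cast, sq_cast, hl, ← norm_wof_sq c, ← mul_pow (‖wof c‖),
    Nat.cast_mul ((64 - c.e) * 1024), Nat.cast_mul (64 - c.e), e4] at e3
  push_cast at e3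
  exact e3

/-- CERT -/
theorem certK_sound (i A H : ℕ) (c : Cert) (LT LE : List (ℕ × ℕ))
    (hLT : ∀ k ≤ 69, Ap (LT.getD k (0, 0)).1 (LT.getD k (0, 0)).2 (cis (ee i k * ((A : ℝ) / 2 ^ 21))) (2 ^ 23))
    (hLE : ∀ k ≤ 69, LE.getD k (0, 0) = (ee i k, ∑ t ∈ range 9, ee i k ^ t * (2 ^ 320) ^ t))
    (hi : i ≤ 69) (h : certK LT LE H c = true) :
    ∃ L : ℂ, CertOK i ((A : ℝ) / 2 ^ 21) ((H : ℝ) / 2 ^ 21) (wof c) L ((c.s : ℝ) / 2 ^ 16) ((c.S : ℝ) / 2 ^ 16)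
      ((c.e : ℝ) / 64) ∧ (c.r : ℝ) / 2 ^ 16 ≤ ‖wof c‖ ∧ ‖wof c‖ < ((c.r : ℝ) + 1) / 2 ^ 16 := by
  obtain ⟨h1, h2, h3, h4, h5, h6, h7, h8, h9, h10⟩ := certK_unfold H c LT LE h
  obtain ⟨α, hα⟩ : ∃ α : ℝ, α = (A : ℝ) / 2 ^ 21 := ⟨_, rfl⟩
  rw [← hα] at hLT ⊢
  obtain ⟨hr1, hR1, hR2, hw0, hw185⟩ := centre_facts c h2 h3 h4 h8
  obtain ⟨hwq, hWW⟩ := wq_facts c
  obtain ⟨f, hf⟩ : ∃ f : ℕ → ℕ, f = fun k => gre (Useq (Wxc c) (Wyc c) k).1 (Useq (Wxc c) (Wyc c) k).2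
    (LT.getD k (0, 0)).1 (LT.getD k (0, 0)).2 (2 ^ 112) := ⟨_, rfl⟩
  obtain ⟨g, hg⟩ : ∃ g : ℕ → ℕ, g = fun k => gim (Useq (Wxc c) (Wyc c) k).1 (Useq (Wxc c) (Wyc c) k).2
    (LT.getD k (0, 0)).1 (LT.getD k (0, 0)).2 (2 ^ 112) := ⟨_, rfl⟩
  have hfg : ∀ k ≤ c.K, Ap (f k) (g k) (tau i α (wof c) k) (2 ^ 60) ∧ f k < 2 ^ 145 ∧ g k < 2 ^ 145 := by
    intro k hk
    have := tau_sound (Wxc c) (Wyc c) i k (LT.getD k (0, 0)).1 (LT.getD k (0, 0)).2 α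
      (by rw [cv_wof]; exact hw185) (by omega) (hLT k (by omega))
    rw [cv_wof] at this
    rw [hf, hg]
    exact this
  have hAp : ∀ k ≤ c.K, Ap (f k) (g k) (tau i α (wof c) k) (2 ^ 60) := fun k hk => (hfg k hk).1
  have hX : AX (Wxc c) (Wyc c) tabB LT LE (c.K + 1) = packed (Ds i c.K f) := by
    rw [← packed_Ds i c.K f LE h1 hLE, hf]
    rfl
  have hY : AY (Wxc c) (Wyc c) tabB LT LE (c.K + 1) = packed (Ds i c.K g) := by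
    rw [← packed_Ds i c.K g LE h1 hLE, hg]
    rfl
  have hW : AW tabB LE (c.K + 1) = packed (Ds i c.K (fun _ => 1)) := by
    rw [← packed_Ds i c.K (fun _ => 1) LE h1 hLE]
    unfold AW
    simp only [one_mul]
  have hdxb : ∀ s < 9, ∀ t < 9, Ds i c.K f s t < 2 ^ 320 := fun s _ t ht =>
    Ds_lt i c.K f s t hi h1 (by omega) fun k hk => (hfg k hk).2.1
  have hdyb : ∀ s < 9, ∀ t < 9, Ds i c.K g s t < 2 ^ 320 := fun s _ t ht =>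
    Ds_lt i c.K g s t hi h1 (by omega) fun k hk => (hfg k hk).2.2
  have hdwb : ∀ s < 9, ∀ t < 9, Ds i c.K (fun _ => 1) s t < 2 ^ 320 := fun s _ t ht =>
    Ds_lt i c.K (fun _ => 1) s t hi h1 (by omega) fun k hk => Nat.one_lt_two_pow (by norm_num)
  rw [hX, hY, hW] at h10
  have h11 := final_unfold H (wq c) c _ _ _ _ _ h10
  rw [digit10 _ hdxb, digit10 _ hdyb, digit10 _ hdwb] at h11
  dsimp only at h11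
  have hLE1 : ∀ k ≤ 69, (LE.getD k (0, 0)).1 = ee i k := by
    intro k hk
    rw [hLE k hk]
  have hW00 : (0 : ℝ) ≤ ((c.r : ℝ) + 1) / 2 ^ 16 := div_nonneg (by linarith [(Nat.cast_nonneg c.r : (0 : ℝ) ≤ c.r)])
    (pow_nonneg (by norm_num) _)
  have hRem := RemT_real i c.K (wq c) c.sg H (((c.r : ℝ) + 1) / 2 ^ 16) LE h1 hW00 hWW h9 hLE1
  have q0 := hort_sound H (2 ^ 70) 8 (by norm_num) _ _ _ hdxb hdyb hdwb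
  have q1 := hors_sound c.sg H (2 ^ 70) _ _ _ hdxb hdyb hdwb
  obtain ⟨RemT, hRemT⟩ : ∃ RemT : ℕ, RemT = 2 ^ 58 * (RM (wq c) (2 * c.sg) H LE (c.K + 1) / (40320 * 2 ^ 168) + 1 +
      (Vseq (wq c) (c.K + 1) * ((c.K + 1) * (c.K + 1)) * 65536 / (65536 * (c.K + 1) - wq c) + 1)) := ⟨_, rfl⟩
  rw [← hRemT] at h11 hRem
  obtain ⟨l2, hl2⟩ : ∃ l2 : ℕ, l2 = sq (ad (Ds i c.K f 1 0) (2 ^ 144 * Ds i c.K (fun _ => 1) 1 0)) +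
      sq (ad (Ds i c.K g 1 0) (2 ^ 144 * Ds i c.K (fun _ => 1) 1 0)) := ⟨_, rfl⟩
  rw [← hl2] at h11
  obtain ⟨b0, hb0⟩ : ∃ b0 : ℕ, b0 = hort H (2 ^ 70) 8 0 (packed (Ds i c.K f) % Y) (packed (Ds i c.K g) % Y)
    (packed (Ds i c.K (fun _ => 1)) % Y) := ⟨_, rfl⟩
  obtain ⟨b1, hb1⟩ : ∃ b1 : ℕ, b1 = hors c.sg H (2 ^ 70) 8 0 (packed (Ds i c.K f) / Y) (packed (Ds i c.K g) / Y)
    (packed (Ds i c.K (fun _ => 1)) / Y) := ⟨_, rfl⟩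
  rw [← hb0] at q0 h11
  rw [← hb1] at q1 h11
  obtain ⟨g1, g2, g3⟩ := h11
  have hlr := l2_real i c.K f g l2 hl2
  have hLne := ne_zero_of_l2 l2 _ hlr g1
  have g2' := g2_real _ _ _ _ _ hlr g2
  have g3' := g3_real c _ _ _ _ h7 hlr g3
  refine ⟨Bv i c.K f g 1 0, ?_, hR1, hR2⟩
  exact cert_fin i H c α (Bv i c.K f g 1 0)
    (fun s t => (coef (Ds i c.K f s t) (Ds i c.K g s t) (Ds i c.K (fun _ => 1) s t) (2 ^ 70) : ℝ))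
    (coef (Ds i c.K f 1 0) (Ds i c.K g 1 0) (Ds i c.K (fun _ => 1) 1 0) 0 : ℝ)
    (Ds i c.K (fun _ => 1) 1 0 : ℝ) (b0 : ℝ) (b1 : ℝ)
    ((b1 - coef (Ds i c.K f 1 0) (Ds i c.K g 1 0) (Ds i c.K (fun _ => 1) 1 0) 0 : ℕ) : ℝ) (RemT : ℝ)
    h2 h3 h4 h5 h6 h7 h8 h9 hLne (Nat.cast_nonneg _) (Nat.cast_nonneg _) (Nat.cast_nonneg _)
    (fun s t => Ac_le i c.K α (wof c) f g s t hAp)
    (by
      have e1 := Bv_sub i c.K α (wof c) f g 1 0 hAp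
      refine e1.trans (le_of_eq ?_)
      rw [show (122 : ℕ) = 52 + 70 by rfl, pow_add]
      field_simp)
    (by
      rw [coef_eps, Nat.cast_add, Nat.cast_mul, Nat.cast_pow, Nat.cast_ofNat])
    hRem q0 q1 (sub_le_cast _ _) g2' g3'

end SokB
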