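import Pool.Agent.Lib.MP_816dec_an.BRows

/-!
MP_816dec_an, finite part: the remainder computed by the kernel.
-/

set_option autoImplicit false

open Complex Finset

namespace SokB

theorem div_le_floor (x y : ℕ) (hy : 0 < y) : (x : ℝ) / y ≤ ((x / y : ℕ) : ℝ) + 1 := by
  rw [div_le_iff₀ (by exact_mod_cast hy)]
  have h := Nat.lt_mul_div_succ x hy
  have h2 : (x : ℝ) < (y : ℝ) * (((x / y : ℕ) : ℝ) + 1) := by exact_mod_cast h
  linarith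

/-- `exp u ≤ 2 ^ (⌊3 U / 2^22⌋ + 1)` for `u = U / 2^21` -/
theorem exp_le_pow (U : ℕ) : Real.exp ((U : ℝ) / 2 ^ 21) ≤ ((2 ^ (3 * U / 4194304 + 1) : ℕ) : ℝ) := by
  have h1 := div_le_floor (3 * U) 4194304 (by norm_num)
  have h2 : Real.exp ((U : ℝ) / 2 ^ 21) ≤ Real.exp (Real.log 2 * ((3 * U / 4194304 + 1 : ℕ) : ℝ)) := by
    rw [Real.exp_le_exp]
    have h3 := Real.log_two_gt_d9
    have h5 : (0 : ℝ) ≤ (U : ℝ) := Nat.cast_nonneg U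
    have h4 : (U : ℝ) / 2 ^ 21 ≤ Real.log 2 * ((((3 * U : ℕ) : ℝ)) / ((4194304 : ℕ) : ℝ)) := by
      push_cast
      rw [div_le_iff₀ (by norm_num)]
      nlinarith
    refine h4.trans ?_
    refine mul_le_mul_of_nonneg_left ?_ (by linarith)
    push_cast at h1 ⊢
    exact h1
  refine h2.trans (le_of_eq ?_)
  rw [mul_comm, Real.exp_nat_mul, Real.exp_log (by norm_num)]
  push_cast
  rfl

theorem rM_le (k sg H e : ℕ) :
    rM 8 (k * ((sg : ℝ) / 2 ^ 20) + (H : ℝ) / 2 ^ 21 * e) ≤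
      (((k * (2 * sg) + H * e) ^ 8 * 2 ^ (3 * (k * (2 * sg) + H * e) / 4194304 + 1) : ℕ) : ℝ) /
        ((40320 * 2 ^ 168 : ℕ) : ℝ) := by
  have e1 : (k : ℝ) * ((sg : ℝ) / 2 ^ 20) + (H : ℝ) / 2 ^ 21 * e = ((k * (2 * sg) + H * e : ℕ) : ℝ) / 2 ^ 21 := by
    push_cast
    ring
  rw [e1]
  obtain ⟨U, hU⟩ : ∃ U : ℕ, U = k * (2 * sg) + H * e := ⟨_, rfl⟩
  rw [← hU]
  unfold rM
  have h1 := exp_le_pow U
  have h2 : ((U : ℝ) / 2 ^ 21) ^ 8 / ((Nat.factorial 8 : ℕ) : ℝ) = (U : ℝ) ^ 8 / ((40320 * 2 ^ 168 : ℕ) : ℝ) := by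
    have h3 : Nat.factorial 8 = 40320 := by decide
    rw [h3, div_pow, ← pow_mul, Nat.cast_mul, Nat.cast_pow, Nat.cast_ofNat, Nat.cast_ofNat, div_div,
      mul_comm]
  obtain ⟨D, hD⟩ : ∃ D : ℝ, D = ((40320 * 2 ^ 168 : ℕ) : ℝ) := ⟨_, rfl⟩
  have hD0 : 0 ≤ D := by rw [hD]; exact Nat.cast_nonneg _
  rw [h2, ← hD, Nat.cast_mul, Nat.cast_pow, div_mul_eq_mul_div]
  refine div_le_div_of_nonneg_right ?_ hD0
  exact mul_le_mul_of_nonneg_left h1 (by positivity)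

/-- the remainder -/
theorem Rem_le (i K w' sg H : ℕ) (W : ℝ) (LE : List (ℕ × ℕ)) (hK : K ≤ 69) (hW0 : 0 ≤ W)
    (hW : W ≤ (w' : ℝ) / 2 ^ 16) (hw' : w' + 1 ≤ 65536 * (K + 1))
    (hLE : ∀ k ≤ 69, (LE.getD k (0, 0)).1 = ee i k) :
    Rem i K 8 W ((w' : ℝ) / 2 ^ 16) ((sg : ℝ) / 2 ^ 20) ((H : ℝ) / 2 ^ 21) * 2 ^ 64 ≤
      ((RM w' (2 * sg) H LE (K + 1) / (40320 * 2 ^ 168) + 1 +
        (Vseq w' (K + 1) * ((K + 1) * (K + 1)) * 65536 / (65536 * (K + 1) - w') + 1) : ℕ) : ℝ) := by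
  have hV : ∀ k, 2 ^ 64 * (W ^ k / (k.factorial : ℝ)) ≤ (Vseq w' k : ℝ) := by
    intro k
    refine le_trans ?_ (V_sound w' ((w' : ℝ) / 2 ^ 16) (by positivity) le_rfl k)
    have : W ^ k ≤ ((w' : ℝ) / 2 ^ 16) ^ k := pow_le_pow_left₀ hW0 hW k
    have h2 : (0 : ℝ) < (k.factorial : ℝ) := Nat.cast_pos.2 (Nat.factorial_pos k)
    gcongr
  have h1 : (∑ k ∈ range (K + 1), ((k : ℝ) + 1) * (W ^ k / (k.factorial : ℝ)) *
      rM 8 (k * ((sg : ℝ) / 2 ^ 20) + (H : ℝ) / 2 ^ 21 * ee i k)) * 2 ^ 64 ≤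
      (RM w' (2 * sg) H LE (K + 1) : ℝ) / ((40320 * 2 ^ 168 : ℕ) : ℝ) := by
    unfold RM
    rw [sum_mul, Nat.cast_sum, sum_div]
    refine sum_le_sum fun k hk => ?_
    rw [mem_range] at hk
    rw [hLE k (by omega)]
    have h2 := rM_le k sg H (ee i k)
    have h3 := hV k
    have h4 : (0 : ℝ) ≤ rM 8 (k * ((sg : ℝ) / 2 ^ 20) + (H : ℝ) / 2 ^ 21 * ee i k) := by
      unfold rM
      positivity
    calc ((k : ℝ) + 1) * (W ^ k / (k.factorial : ℝ)) *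
        rM 8 (k * ((sg : ℝ) / 2 ^ 20) + (H : ℝ) / 2 ^ 21 * ee i k) * 2 ^ 64
        = (((k : ℝ) + 1) * (2 ^ 64 * (W ^ k / (k.factorial : ℝ)))) *
          rM 8 (k * ((sg : ℝ) / 2 ^ 20) + (H : ℝ) / 2 ^ 21 * ee i k) := by ring
      _ ≤ (((k : ℝ) + 1) * (Vseq w' k : ℝ)) *
          ((((k * (2 * sg) + H * ee i k) ^ 8 * 2 ^ (3 * (k * (2 * sg) + H * ee i k) / 4194304 + 1) : ℕ) : ℝ) /
            ((40320 * 2 ^ 168 : ℕ) : ℝ)) := by
          gcongr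
      _ = _ := by
          push_cast
          ring
  have hpos : 0 < 65536 * (K + 1) - w' := by omega
  have h5 : ((w' : ℝ) / 2 ^ 16) ^ K / (K.factorial : ℝ) * ((w' : ℝ) / 2 ^ 16) / (1 - ((w' : ℝ) / 2 ^ 16) / (K + 1)) *
      2 ^ 64 ≤ ((Vseq w' (K + 1) * ((K + 1) * (K + 1)) * 65536 : ℕ) : ℝ) / ((65536 * (K + 1) - w' : ℕ) : ℝ) := by
    have h6 := V_sound w' ((w' : ℝ) / 2 ^ 16) (by positivity) le_rfl (K + 1)
    have h7 : ((65536 * (K + 1) - w' : ℕ) : ℝ) = 65536 * ((K : ℝ) + 1) - w' := by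
      rw [Nat.cast_sub (by omega)]
      push_cast
      ring
    have h8 : (0 : ℝ) < 65536 * ((K : ℝ) + 1) - w' := by
      rw [← h7]
      exact_mod_cast hpos
    have h9 : (0 : ℝ) < (K : ℝ) + 1 := by positivity
    have h10 : (0 : ℝ) < (K.factorial : ℝ) := Nat.cast_pos.2 (Nat.factorial_pos K)
    have h11 : 1 - ((w' : ℝ) / 2 ^ 16) / (K + 1) = (65536 * ((K : ℝ) + 1) - w') / (65536 * ((K : ℝ) + 1)) := by
      field_simp
      ring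
    rw [h7, h11, le_div_iff₀ h8]
    rw [Nat.factorial_succ] at h6
    push_cast at h6 ⊢
    have e : ((w' : ℝ) / 2 ^ 16) ^ K / (K.factorial : ℝ) * ((w' : ℝ) / 2 ^ 16) /
        ((65536 * ((K : ℝ) + 1) - w') / (65536 * ((K : ℝ) + 1))) * 2 ^ 64 * (65536 * ((K : ℝ) + 1) - w') =
        (2 ^ 64 * (((w' : ℝ) / 2 ^ 16) ^ (K + 1) / (((K : ℝ) + 1) * (K.factorial : ℝ)))) *
          (((K : ℝ) + 1) * ((K : ℝ) + 1)) * 65536 := by
      field_simp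
      ring
    rw [e]
    gcongr
  have h12 := div_le_floor (RM w' (2 * sg) H LE (K + 1)) (40320 * 2 ^ 168) (by positivity)
  have h13 := div_le_floor (Vseq w' (K + 1) * ((K + 1) * (K + 1)) * 65536) (65536 * (K + 1) - w') hpos
  unfold Rem
  rw [add_mul]
  refine (add_le_add (h1.trans h12) (h5.trans h13)).trans (le_of_eq ?_)
  rw [← Nat.cast_one (R := ℝ), ← Nat.cast_add, ← Nat.cast_add, ← Nat.cast_add]

end SokB
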