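import Pool.Agent.Lib.MP_816dec_an.BCert
import Pool.Agent.Lib.MP_816dec_an.BRem

/-!
MP_816dec_an, finite part: soundness of the check of one certificate, final step.
-/

set_option autoImplicit false

open Complex Finset

namespace SokB

/-- square of the modulus of the centre in units `2^(-32)` -/
def n2 (c : Cert) : ℕ := sq (ad c.a 2097152) + sq (ad c.b 2097152)

/-- the kernel's `w'` -/
def wq (c : Cert) : ℕ := (c.r + 1) * (1048576 + c.sg) / 1048576 + 1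

/-- the kernel's remainder term -/
def RT (H : ℕ) (c : Cert) (LE : List (ℕ × ℕ)) : ℕ :=
  RM (wq c) (2 * c.sg) H LE (c.K + 1) / (40320 * 2 ^ 168) + 1 +
    (Vseq (wq c) (c.K + 1) * ((c.K + 1) * (c.K + 1)) * 65536 / (65536 * (c.K + 1) - wq c) + 1)

/-- real offset coordinates of the centre -/
noncomputable def Wxc (c : Cert) : ℕ := c.a * 2 ^ 96 + (2 ^ 144 - 2 ^ 117)

/-- imaginary offset coordinates of the centre -/
noncomputable def Wyc (c : Cert) : ℕ := c.b * 2 ^ 96 + (2 ^ 144 - 2 ^ 117)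

theorem certK_unfold (H : ℕ) (c : Cert) (LT LE : List (ℕ × ℕ)) (h : certK LT LE H c = true) :
    c.K ≤ 69 ∧ c.r + 1 ≤ 1212416 ∧ sq c.r ≤ n2 c ∧ n2 c + 1 ≤ sq (c.r + 1) ∧
      c.S * 1048576 ≤ c.sg * c.r ∧ c.s + 1 ≤ c.S ∧ c.e + 1 ≤ 64 ∧ 1 ≤ c.r ∧
      wq c + 1 ≤ 65536 * (c.K + 1) ∧
      final H (wq c) c (AX (Wxc c) (Wyc c) tabB LT LE (c.K + 1)) (AY (Wxc c) (Wyc c) tabB LT LE (c.K + 1))
        (AW tabB LE (c.K + 1)) (RM (wq c) (2 * c.sg) H LE (c.K + 1)) (Vseq (wq c) (c.K + 1)) = true := by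
  unfold certK at h
  obtain ⟨h1, h⟩ := (le1_iff _ _ _).1 h
  obtain ⟨h2, h⟩ := (le1_iff _ _ _).1 h
  obtain ⟨h3, h⟩ := (le1_iff _ _ _).1 h
  obtain ⟨h4, h⟩ := (le1_iff _ _ _).1 h
  obtain ⟨h5, h⟩ := (le1_iff _ _ _).1 h
  obtain ⟨h6, h⟩ := (le1_iff _ _ _).1 h
  obtain ⟨h7, h⟩ := (le1_iff _ _ _).1 h
  obtain ⟨h8, h⟩ := (le1_iff _ _ _).1 h
  obtain ⟨h9, h⟩ := (le1_iff _ _ _).1 h
  refine ⟨h1, h2, h3, h4, h5, h6, h7, h8, h9, ?_⟩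
  have h10 := loop_spec (Wxc c) (Wyc c) (wq c) (2 * c.sg) H (c.K + 1) tabB LT LE _ h
  exact h10.2.2.2

/-- digits -/
theorem final_unfold (H w' : ℕ) (c : Cert) (ax ay aw rem V : ℕ) (h : final H w' c ax ay aw rem V = true) :
    let RemT := 2 ^ 58 * (rem / (40320 * 2 ^ 168) + 1 +
      (V * ((c.K + 1) * (c.K + 1)) * 65536 / (65536 * (c.K + 1) - w') + 1))
    let x1 := ax / Y % XX
    let y1 := ay / Y % XX
    let w1 := aw / Y % XX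
    let l2 := sq (ad x1 (2 ^ 144 * w1)) + sq (ad y1 (2 ^ 144 * w1))
    let b0 := hort H (2 ^ 70) 8 0 (ax % Y) (ay % Y) (aw % Y) + RemT
    let b1 := hors c.sg H (2 ^ 70) 8 0 (ax / Y) (ay / Y) (aw / Y) - coef x1 y1 w1 0 + RemT
    1 ≤ l2 ∧ sq (64 * b1) ≤ sq (1024 * c.e) * l2 ∧
      sq (64 * b0) * n2 c ≤ sq ((64 - c.e) * 1024 * c.s) * l2 := by
  intro RemT x1 y1 w1 l2 b0 b1
  unfold final at h
  have e58 : (288230376151711744 : ℕ) = 2 ^ 58 := by norm_num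
  have e70 : (1180591620717411303424 : ℕ) = 2 ^ 70 := by norm_num
  rw [e58, e70] at h
  obtain ⟨h1, h⟩ := (le1_iff _ _ _).1 h
  obtain ⟨h2, h⟩ := (le1_iff _ _ _).1 h
  obtain ⟨h3, -⟩ := (le1_iff _ _ _).1 h
  have eR : Nat.mul (2 ^ 58) (Nat.add (Nat.succ (Nat.succ (Nat.div rem (Nat.mul 40320 (Nat.pow 2 168)))))
    (Nat.div (Nat.mul (Nat.mul V (sq (Nat.succ c.K))) 65536) (Nat.sub (Nat.mul 65536 (Nat.succ c.K)) w'))) = RemT := by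
    show 2 ^ 58 * (rem / (40320 * 2 ^ 168) + 1 + 1 +
      (V * ((c.K + 1) * (c.K + 1)) * 65536 / (65536 * (c.K + 1) - w'))) = RemT
    simp only [RemT]
    ring
  rw [eR] at h2 h3
  exact ⟨h1, h2, h3⟩

theorem ad_sqR (x y : ℕ) : ((sq (ad x y) : ℕ) : ℝ) = ((x : ℝ) - y) ^ 2 := by
  have h : ad x y = x - y + (y - x) := rfl
  have h2 : sq (ad x y) = ad x y * ad x y := rfl
  rw [h2, h]
  rcases le_total x y with h1 | h1
  · rw [Nat.sub_eq_zero_of_le h1, zero_add]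
    push_cast [Nat.cast_sub h1]
    ring
  · rw [Nat.sub_eq_zero_of_le h1, add_zero]
    push_cast [Nat.cast_sub h1]
    ring

theorem norm_wof_sq (c : Cert) : ‖wof c‖ ^ 2 * (2 ^ 16) ^ 2 = (n2 c : ℝ) := by
  unfold n2 wof
  rw [Nat.cast_add, ad_sqR, ad_sqR, ← Complex.normSq_eq_norm_sq, Complex.normSq_mk]
  push_cast
  ring

theorem cv_wof (c : Cert) : cv (Wxc c) (Wyc c) = wof c := by
  have h : ((2 ^ 144 - 2 ^ 117 : ℕ) : ℝ) = 2 ^ 144 - 2 ^ 117 := by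
    rw [Nat.cast_sub (Nat.pow_le_pow_right (by norm_num) (by norm_num)), Nat.cast_pow, Nat.cast_pow,
      Nat.cast_ofNat]
  unfold cv wof Wxc Wyc
  congr 1
  · rw [Nat.cast_add, h, Nat.cast_mul, Nat.cast_pow, Nat.cast_ofNat]
    norm_num
    ring
  · rw [Nat.cast_add, h, Nat.cast_mul, Nat.cast_pow, Nat.cast_ofNat]
    norm_num
    ring

theorem coef_eps (x y w eps : ℕ) : coef x y w eps = coef x y w 0 + eps * w := by
  have h1 : ∀ e, coef x y w e = Nat.add (Nat.mul 725 (Nat.add (ad x (2 ^ 144 * w)) (ad y (2 ^ 144 * w))))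
      (Nat.mul 300 (Nat.add (Nat.sub (ad x (2 ^ 144 * w)) (ad y (2 ^ 144 * w)))
        (Nat.sub (ad y (2 ^ 144 * w)) (ad x (2 ^ 144 * w))))) + e * w := fun e => rfl
  rw [h1, h1, zero_mul, add_zero]

theorem sub_le_cast (a b : ℕ) : (a : ℝ) - b ≤ ((a - b : ℕ) : ℝ) := by
  rcases le_total b a with h | h
  · rw [Nat.cast_sub h]
  · rw [Nat.sub_eq_zero_of_le h, Nat.cast_zero]
    have : (a : ℝ) ≤ b := by exact_mod_cast h
    linarith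

theorem sq_cast (a : ℕ) : ((sq a : ℕ) : ℝ) = (a : ℝ) ^ 2 := by
  have : sq a = a * a := rfl
  rw [this]
  push_cast
  ring

/-- facts on the centre -/
theorem centre_facts (c : Cert) (h2 : c.r + 1 ≤ 1212416) (h3 : sq c.r ≤ n2 c) (h4 : n2 c + 1 ≤ sq (c.r + 1))
    (h8 : 1 ≤ c.r) : (c.r : ℝ) ≤ ‖wof c‖ * 2 ^ 16 ∧ (c.r : ℝ) / 2 ^ 16 ≤ ‖wof c‖ ∧
      ‖wof c‖ < ((c.r : ℝ) + 1) / 2 ^ 16 ∧ wof c ≠ 0 ∧ ‖wof c‖ ≤ 37 / 2 := by
  have hw2 := norm_wof_sq c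
  have hr1 : (c.r : ℝ) ≤ ‖wof c‖ * 2 ^ 16 := by
    have e1 : ((sq c.r : ℕ) : ℝ) ≤ (n2 c : ℝ) := by exact_mod_cast h3
    rw [sq_cast, ← hw2, ← mul_pow] at e1
    exact (pow_le_pow_iff_left₀ (Nat.cast_nonneg _) (by positivity) two_ne_zero).1 e1
  have hr2 : ‖wof c‖ * 2 ^ 16 < (c.r : ℝ) + 1 := by
    have e1 : (n2 c : ℝ) < ((sq (c.r + 1) : ℕ) : ℝ) := by exact_mod_cast h4
    rw [sq_cast, ← hw2, ← mul_pow] at e1
    have e2 := (pow_lt_pow_iff_left₀ (by positivity) (Nat.cast_nonneg _) two_ne_zero).1 e1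
    push_cast at e2
    exact e2
  have hR1 : (c.r : ℝ) / 2 ^ 16 ≤ ‖wof c‖ := by rw [div_le_iff₀ (by positivity)]; exact hr1
  have hR2 : ‖wof c‖ < ((c.r : ℝ) + 1) / 2 ^ 16 := by rw [lt_div_iff₀ (by positivity)]; exact hr2
  have hr0 : (1 : ℝ) ≤ (c.r : ℝ) := by exact_mod_cast h8
  have hwpos : 0 < ‖wof c‖ := by
    refine lt_of_lt_of_le ?_ hR1
    positivity
  refine ⟨hr1, hR1, hR2, norm_pos_iff.1 hwpos, ?_⟩
  refine hR2.le.trans ?_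
  have e1 : (c.r : ℝ) + 1 ≤ 1212416 := by exact_mod_cast h2
  rw [div_le_iff₀ (by positivity)]
  norm_num
  linarith

theorem wq_facts (c : Cert) : ((c.r : ℝ) + 1) / 2 ^ 16 * (1 + (c.sg : ℝ) / 2 ^ 20) ≤ (wq c : ℝ) / 2 ^ 16 ∧
    ((c.r : ℝ) + 1) / 2 ^ 16 ≤ (wq c : ℝ) / 2 ^ 16 := by
  have hwq : ((c.r : ℝ) + 1) / 2 ^ 16 * (1 + (c.sg : ℝ) / 2 ^ 20) ≤ (wq c : ℝ) / 2 ^ 16 := by
    have e1 := div_le_floor ((c.r + 1) * (1048576 + c.sg)) 1048576 (by norm_num)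
    have e2 : (wq c : ℝ) = (((c.r + 1) * (1048576 + c.sg) / 1048576 : ℕ) : ℝ) + 1 := by
      unfold wq
      push_cast
      rfl
    rw [← e2] at e1
    have e3 : ((c.r : ℝ) + 1) / 2 ^ 16 * (1 + (c.sg : ℝ) / 2 ^ 20) =
        (((c.r + 1) * (1048576 + c.sg) : ℕ) : ℝ) / ((1048576 : ℕ) : ℝ) / 2 ^ 16 := by
      push_cast
      ring
    rw [e3]
    gcongr
  refine ⟨hwq, le_trans ?_ hwq⟩
  have hσ0 : (0 : ℝ) ≤ (c.sg : ℝ) / 2 ^ 20 := by positivity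
  have e1 : (0 : ℝ) ≤ ((c.r : ℝ) + 1) / 2 ^ 16 := by positivity
  nlinarith

/-- the real inequalities give `CertOK` -/
theorem cert_fin (i H : ℕ) (c : Cert) (α : ℝ) (L : ℂ) (cf : ℕ → ℕ → ℝ) (c10 d10 b0 b1 b2 RemT : ℝ)
    (h2 : c.r + 1 ≤ 1212416) (h3 : sq c.r ≤ n2 c) (h4 : n2 c + 1 ≤ sq (c.r + 1)) (h5 : c.S * 1048576 ≤ c.sg * c.r)
    (h6 : c.s + 1 ≤ c.S) (h7 : c.e + 1 ≤ 64) (h8 : 1 ≤ c.r) (h9 : wq c + 1 ≤ 65536 * (c.K + 1))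
    (hLne : L ≠ 0) (hb0 : 0 ≤ b0) (hb2 : 0 ≤ b2) (hRT : 0 ≤ RemT)
    (hA : ∀ s t, ‖Ac i c.K α (wof c) s t‖ ≤ cf s t / 2 ^ 122)
    (hA10 : ‖Ac i c.K α (wof c) 1 0 - L‖ ≤ 2 ^ 70 * d10 / 2 ^ 122) (hc10 : cf 1 0 = c10 + 2 ^ 70 * d10)
    (hRR : Rem i c.K 8 (((c.r : ℝ) + 1) / 2 ^ 16) ((wq c : ℝ) / 2 ^ 16) ((c.sg : ℝ) / 2 ^ 20)
      ((H : ℝ) / 2 ^ 21) * 2 ^ 122 ≤ RemT)
    (q0 : ∑ t ∈ range 8, cf 0 t * (((H : ℝ) / 2 ^ 21) ^ t / (t.factorial : ℝ)) ≤ b0)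
    (q1 : ∑ s ∈ range 8, ∑ t ∈ range (8 - s), ((s : ℝ) + 1) * cf (s + 1) t *
        (((c.sg : ℝ) / 2 ^ 20) ^ s * (((H : ℝ) / 2 ^ 21) ^ t / (t.factorial : ℝ))) ≤ b1)
    (q2 : b1 - c10 ≤ b2)
    (g2 : (64 * (b2 + RemT)) ^ 2 ≤ (1024 * (c.e : ℝ)) ^ 2 * (2 ^ 112 * ‖L‖) ^ 2)
    (g3 : (64 * (b0 + RemT)) ^ 2 * (‖wof c‖ * 2 ^ 16) ^ 2 ≤
      ((64 - (c.e : ℝ)) * 1024 * (c.s : ℝ)) ^ 2 * (2 ^ 112 * ‖L‖) ^ 2) :
    CertOK i α ((H : ℝ) / 2 ^ 21) (wof c) L ((c.s : ℝ) / 2 ^ 16) ((c.S : ℝ) / 2 ^ 16) ((c.e : ℝ) / 64) := by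
  obtain ⟨hr1, hR1, hR2, hw0, -⟩ := centre_facts c h2 h3 h4 h8
  obtain ⟨hwq, hWW⟩ := wq_facts c
  have hLn := norm_nonneg L
  have hp122 : (0 : ℝ) < 2 ^ 122 := by positivity
  obtain ⟨R, hR⟩ : ∃ R : ℝ, R = Rem i c.K 8 (((c.r : ℝ) + 1) / 2 ^ 16) ((wq c : ℝ) / 2 ^ 16) ((c.sg : ℝ) / 2 ^ 20)
    ((H : ℝ) / 2 ^ 21) := ⟨_, rfl⟩
  rw [← hR] at hRR
  have h64 : (0 : ℝ) < 64 - (c.e : ℝ) := by
    have : (c.e : ℝ) + 1 ≤ 64 := by exact_mod_cast h7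
    linarith
  refine certOK_of_bounds i c.K 8 α ((H : ℝ) / 2 ^ 21) ((c.sg : ℝ) / 2 ^ 20) (((c.r : ℝ) + 1) / 2 ^ 16)
    ((wq c : ℝ) / 2 ^ 16) (wof c) L ((c.s : ℝ) / 2 ^ 16) ((c.S : ℝ) / 2 ^ 16) ((c.e : ℝ) / 64) (by norm_num) hw0
    hLne (by positivity) ?_ (by positivity) ?_ (by positivity) ?_ hR2.le hwq ?_
    (fun t => cf 0 t / 2 ^ 122) ?_
    (fun s t => if s = 0 ∧ t = 0 then (2 : ℝ) ^ 70 * d10 / 2 ^ 122 else cf (s + 1) t / 2 ^ 122) ?_ ?_ ?_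
  · linarith
  · have : (c.s : ℝ) + 1 ≤ (c.S : ℝ) := by exact_mod_cast h6
    have h0 : (0 : ℝ) < 2 ^ 16 := by positivity
    exact div_lt_div_of_pos_right (by linarith) h0
  · have e1 : (c.S : ℝ) * 1048576 ≤ (c.sg : ℝ) * (c.r : ℝ) := by exact_mod_cast h5
    have e2 : (c.sg : ℝ) * (c.r : ℝ) ≤ (c.sg : ℝ) * (‖wof c‖ * 2 ^ 16) :=
      mul_le_mul_of_nonneg_left hr1 (Nat.cast_nonneg _)
    rw [div_le_iff₀ (by positivity)]
    have e3 : (c.sg : ℝ) / 2 ^ 20 * ‖wof c‖ * 2 ^ 16 = (c.sg : ℝ) * (‖wof c‖ * 2 ^ 16) / 1048576 := by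
      ring
    rw [e3, le_div_iff₀ (by norm_num)]
    linarith
  · have e1 : (wq c : ℝ) + 1 ≤ 65536 * ((c.K : ℝ) + 1) := by exact_mod_cast h9
    rw [div_lt_iff₀ (by positivity)]
    norm_num
    linarith
  · intro t _
    exact hA 0 t
  · intro s t hst
    by_cases hc : s = 0 ∧ t = 0
    · rw [if_pos hc, if_pos hc, hc.1, hc.2]
      exact hA10
    · rw [if_neg hc, if_neg hc, sub_zero]
      exact hA (s + 1) t
  · rw [← hR]
    have e1 : (∑ t ∈ range 8, cf 0 t / 2 ^ 122 *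
        (((H : ℝ) / 2 ^ 21) ^ t / (t.factorial : ℝ))) * 2 ^ 122 ≤ b0 := by
      refine le_trans (le_of_eq ?_) q0
      rw [sum_mul]
      refine sum_congr rfl fun t _ => ?_
      field_simp
    rw [← mul_pow, ← mul_pow] at g3
    have e5 := (pow_le_pow_iff_left₀ (by positivity) (by positivity) two_ne_zero).1 g3
    have e6 : ((∑ t ∈ range 8, cf 0 t / 2 ^ 122 *
        (((H : ℝ) / 2 ^ 21) ^ t / (t.factorial : ℝ))) + R) * 2 ^ 122 ≤ b0 + RemT := by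
      rw [add_mul]
      exact add_le_add e1 hRR
    have e7 := mul_le_mul_of_nonneg_right e6 (show 0 ≤ 64 * (‖wof c‖ * 2 ^ 16) by positivity)
    have e8 : ((1 - (c.e : ℝ) / 64) * ‖L‖ * ((c.s : ℝ) / 2 ^ 16)) * (2 ^ 122 * 64 * 2 ^ 16) =
        (64 - (c.e : ℝ)) * 1024 * c.s * (2 ^ 112 * ‖L‖) := by
      have e9 : (2 : ℝ) ^ 122 = 1024 * 2 ^ 112 := by norm_num
      rw [e9]
      field_simp
    refine le_of_mul_le_mul_right ?_ (show (0 : ℝ) < 2 ^ 122 * 64 * 2 ^ 16 by positivity)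
    rw [e8]
    refine le_trans (le_of_eq ?_) (e7.trans (le_trans (le_of_eq ?_) e5))
    · ring
    · ring
  · rw [← hR]
    have e1 : (∑ s ∈ range 8, ∑ t ∈ range (8 - s), ((s : ℝ) + 1) *
        (if s = 0 ∧ t = 0 then (2 : ℝ) ^ 70 * d10 / 2 ^ 122 else cf (s + 1) t / 2 ^ 122) *
        (((c.sg : ℝ) / 2 ^ 20) ^ s * (((H : ℝ) / 2 ^ 21) ^ t / (t.factorial : ℝ)))) * 2 ^ 122 ≤ b2 := by
      refine le_trans ?_ q2
      have e2 : (∑ s ∈ range 8, ∑ t ∈ range (8 - s), ((s : ℝ) + 1) *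
        (if s = 0 ∧ t = 0 then (2 : ℝ) ^ 70 * d10 / 2 ^ 122 else cf (s + 1) t / 2 ^ 122) *
        (((c.sg : ℝ) / 2 ^ 20) ^ s * (((H : ℝ) / 2 ^ 21) ^ t / (t.factorial : ℝ)))) * 2 ^ 122 =
        (∑ s ∈ range 8, ∑ t ∈ range (8 - s), ((s : ℝ) + 1) * cf (s + 1) t *
        (((c.sg : ℝ) / 2 ^ 20) ^ s * (((H : ℝ) / 2 ^ 21) ^ t / (t.factorial : ℝ)))) -
        ∑ s ∈ range 8, ∑ t ∈ range (8 - s), (if s = 0 ∧ t = 0 then c10 else 0) := by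
        rw [sum_mul, ← sum_sub_distrib]
        refine sum_congr rfl fun s _ => ?_
        rw [sum_mul, ← sum_sub_distrib]
        refine sum_congr rfl fun t _ => ?_
        by_cases hc : s = 0 ∧ t = 0
        · rw [if_pos hc, if_pos hc, hc.1, hc.2, zero_add, hc10]
          simp only [Nat.cast_zero, zero_add, pow_zero, Nat.factorial_zero, Nat.cast_one, div_one, mul_one,
            one_mul]
          rw [div_mul_cancel₀ _ hp122.ne']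
          ring
        · rw [if_neg hc, if_neg hc, sub_zero]
          have e3 : ∀ x y z : ℝ, x * (y / 2 ^ 122) * z * 2 ^ 122 = x * y * z := by
            intro x y z
            field_simp
          rw [e3]
      have e4 : ∑ s ∈ range 8, ∑ t ∈ range (8 - s), (if s = 0 ∧ t = 0 then c10 else 0) = c10 := by
        rw [sum_eq_single 0, sum_eq_single 0]
        · simp
        · intro t _ ht
          simp [ht]
        · intro h0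
          exact absurd (mem_range.2 (by norm_num)) h0
        · intro s _ hs
          simp [hs]
        · intro h0
          exact absurd (mem_range.2 (by norm_num)) h0
      rw [e2, e4]
      linarith
    rw [← mul_pow] at g2
    have e6 := (pow_le_pow_iff_left₀ (by positivity) (by positivity) two_ne_zero).1 g2
    have e9 : (2 : ℝ) ^ 122 = 1024 * 2 ^ 112 := by norm_num
    refine le_of_mul_le_mul_right ?_ (show (0 : ℝ) < 2 ^ 122 * 64 by positivity)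
    have e10 : ((c.e : ℝ) / 64 * ‖L‖) * (2 ^ 122 * 64) = 1024 * c.e * (2 ^ 112 * ‖L‖) := by
      rw [e9]
      field_simp
    rw [e10]
    refine le_trans ?_ e6
    have e11 := mul_le_mul_of_nonneg_right (add_le_add e1 hRR) (show (0 : ℝ) ≤ 64 by norm_num)
    refine le_trans (le_of_eq ?_) (e11.trans (le_of_eq ?_))
    · ring
    · ring

end SokB
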