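import Pool.Agent.Lib.MP_816dec_an.Arc

/-!
MP_816dec_an, finite part, analysis of one certificate: definitions. Track `i` (the zero of index `i`), rotated
coordinate `w = z q ^ i`, centre `w0 q ^ (-i)` with a constant `w0`. Two-variable Taylor expansion in
`ζ` (`w = w0 (1 + ζ)`) and `δ` (`α = αc + δ`).
-/

set_option autoImplicit false

open Complex Set Filter Topology Metric Finset

namespace SokB

open Sok

/-- position of `k` relative to `i` -/
def je (i k : ℕ) : ℕ := if k ≤ i then i - k else k - i - 1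

/-- the exponent `(k - i) (k - i - 1) / 2` -/
def ee (i k : ℕ) : ℕ := je i k * (je i k + 1) / 2

/-- unimodular numbers -/
noncomputable def cis (x : ℝ) : ℂ := Complex.exp (x * I)

/-- k-th term in the rotated coordinate -/
noncomputable def tau (i : ℕ) (α : ℝ) (w : ℂ) (k : ℕ) : ℂ :=
  cis (ee i k * α) * (w ^ k / (k.factorial : ℂ))

/-- Taylor coefficients (up to the factor `1 / t!`), truncated at `k ≤ K` -/
noncomputable def Ac (i K : ℕ) (α : ℝ) (w : ℂ) (s t : ℕ) : ℂ :=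
  ∑ k ∈ range (K + 1), tau i α w k * ((k.choose s * ee i k ^ t : ℕ) : ℂ)

/-- exponential remainder bound -/
noncomputable def rM (M : ℕ) (u : ℝ) : ℝ := u ^ M / (M.factorial : ℝ) * Real.exp u

/-- total remainder (Taylor remainders and tail) -/
noncomputable def Rem (i K M : ℕ) (W W' σ h : ℝ) : ℝ :=
  ∑ k ∈ range (K + 1), (k + 1) * (W ^ k / (k.factorial : ℝ)) * rM M (k * σ + h * ee i k) +
    W' ^ K / (K.factorial : ℝ) * W' / (1 - W' / (K + 1))

/-- what one certificate gives -/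
structure CertOK (i : ℕ) (αc h : ℝ) (w0 L : ℂ) (s S η : ℝ) : Prop where
  hw0 : w0 ≠ 0
  hL : L ≠ 0
  hη0 : 0 ≤ η
  hη : η < 1
  hs : 0 ≤ s
  hsS : s < S
  h0 : ∀ α : ℝ, |α - αc| ≤ h → ‖Fa α (w0 * cis (-(i * α)))‖ ≤ (1 - η) * ‖L / w0‖ * s
  h1 : ∀ α : ℝ, |α - αc| ≤ h → ∀ z ∈ ball (w0 * cis (-(i * α))) S,
    ‖Fa α (Complex.exp (α * I) * z) - cis (i * α) * cis (-((i * (i + 1) / 2 : ℕ) * α)) * (L / w0)‖
      ≤ η * ‖L / w0‖

end SokB
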