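import Pool.Agent.Lib.MP_816dec_an.BSndDefs
import Pool.Agent.Lib.MP_816dec_an.BAn1

/-!
MP_816dec_an, finite part, row FP: fixed point arithmetic.
-/

set_option autoImplicit false

open Complex Finset

namespace SokB

theorem gre_eq (X1 Y1 X2 Y2 D : ℕ) : gre X1 Y1 X2 Y2 D =
    (X1 * X2 + 2 ^ 144 * (Y1 + Y2) + 2 ^ 144 * D - (Y1 * Y2 + 2 ^ 144 * (X1 + X2))) / D := rfl

theorem gim_eq (X1 Y1 X2 Y2 D : ℕ) : gim X1 Y1 X2 Y2 D =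
    (X1 * Y2 + Y1 * X2 + 2 ^ 144 * (D + 2 ^ 145) - 2 ^ 144 * ((X1 + Y2) + (Y1 + X2))) / D := rfl

private theorem floor_real (N D : ℕ) (hD : 0 < D) :
    ((N / D : ℕ) : ℝ) ≤ (N : ℝ) / D ∧ (N : ℝ) / D < ((N / D : ℕ) : ℝ) + 1 := by
  have h1 := Nat.div_add_mod N D
  have h2 := Nat.mod_lt N hD
  have hD' : (0:ℝ) < D := by exact_mod_cast hD
  have h3 : (D : ℝ) * ((N / D : ℕ) : ℝ) + ((N % D : ℕ) : ℝ) = N := by exact_mod_cast h1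
  have h4 : ((N % D : ℕ) : ℝ) < D := by exact_mod_cast h2
  have h5 : (0:ℝ) ≤ ((N % D : ℕ) : ℝ) := Nat.cast_nonneg _
  constructor
  · rw [le_div_iff₀ hD']; nlinarith
  · rw [div_lt_iff₀ hD']; nlinarith

private theorem sub_floor (N M D : ℕ) (hD : 0 < D) {t : ℝ} (ht : (N : ℝ) - M = t + 2 ^ 144 * D)
    (h : |t| ≤ 2 ^ 144 * (D : ℝ)) :
    (((N - M) / D : ℕ) : ℝ) - 2 ^ 144 ≤ t / D ∧ t / D < (((N - M) / D : ℕ) : ℝ) - 2 ^ 144 + 1 := by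
  have hle : M ≤ N := by
    have : (M : ℝ) ≤ N := by
      have := (abs_le.1 h).1
      linarith
    exact_mod_cast this
  have hD' : (0:ℝ) < D := by exact_mod_cast hD
  obtain ⟨h1, h2⟩ := floor_real (N - M) D hD
  rw [Nat.cast_sub hle, ht] at h1 h2
  have e : (t + 2 ^ 144 * (D : ℝ)) / D = t / D + 2 ^ 144 := by
    field_simp
  rw [e] at h1 h2
  constructor <;> linarith

theorem cv_re (x y : ℕ) : (cv x y).re = ((x : ℝ) - 2 ^ 144) / 2 ^ 112 := rfl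
theorem cv_im (x y : ℕ) : (cv x y).im = ((y : ℝ) - 2 ^ 144) / 2 ^ 112 := rfl

/-- the rounding error of one multiplication -/
theorem mul_round {X1 Y1 X2 Y2 d : ℕ} (hd : 0 < d) (hb : ‖cv X1 Y1‖ * ‖cv X2 Y2‖ ≤ 2 ^ 32 * d) :
    ‖cv (gre X1 Y1 X2 Y2 (2 ^ 112 * d)) (gim X1 Y1 X2 Y2 (2 ^ 112 * d)) - cv X1 Y1 * cv X2 Y2 / d‖ * 2 ^ 112 ≤ 2 := by
  obtain ⟨D, hD⟩ : ∃ D : ℕ, D = 2 ^ 112 * d := ⟨_, rfl⟩
  have hD0 : 0 < D := by rw [hD]; positivity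
  have hd' : (0:ℝ) < d := by exact_mod_cast hd
  have hDr : (D : ℝ) = 2 ^ 112 * d := by rw [hD]; push_cast; ring
  have hre := Complex.abs_re_le_norm (cv X1 Y1 * cv X2 Y2)
  have him := Complex.abs_im_le_norm (cv X1 Y1 * cv X2 Y2)
  rw [norm_mul] at hre him
  rw [Complex.mul_re, cv_re, cv_im, cv_re, cv_im] at hre
  rw [Complex.mul_im, cv_re, cv_im, cv_re, cv_im] at him
  have h224 : (2:ℝ) ^ 224 = 2 ^ 112 * 2 ^ 112 := by rw [← pow_add]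
  have k1 : |((X1 : ℝ) - 2 ^ 144) * ((X2 : ℝ) - 2 ^ 144) - ((Y1 : ℝ) - 2 ^ 144) * ((Y2 : ℝ) - 2 ^ 144)| ≤ 2 ^ 144 * (D : ℝ) := by
    have e : ((X1 : ℝ) - 2 ^ 144) * ((X2 : ℝ) - 2 ^ 144) - ((Y1 : ℝ) - 2 ^ 144) * ((Y2 : ℝ) - 2 ^ 144) =
        (((X1 : ℝ) - 2 ^ 144) / 2 ^ 112 * (((X2 : ℝ) - 2 ^ 144) / 2 ^ 112) -
          ((Y1 : ℝ) - 2 ^ 144) / 2 ^ 112 * (((Y2 : ℝ) - 2 ^ 144) / 2 ^ 112)) * 2 ^ 224 := by
      rw [h224]; field_simp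
    rw [e, abs_mul, abs_of_pos (show (0:ℝ) < 2 ^ 224 by positivity), hDr]
    have e2 : (2:ℝ) ^ 144 * (2 ^ 112 * d) = (2 ^ 32 * d) * 2 ^ 224 := by
      rw [show (2:ℝ) ^ 144 * (2 ^ 112 * d) = (2 ^ 144 * 2 ^ 112) * d by ring, show (2:ℝ) ^ 32 * d * 2 ^ 224 = (2 ^ 32 * 2 ^ 224) * d by ring,
        ← pow_add, ← pow_add]
    rw [e2]
    exact mul_le_mul_of_nonneg_right (hre.trans hb) (by positivity)
  have k2 : |((X1 : ℝ) - 2 ^ 144) * ((Y2 : ℝ) - 2 ^ 144) + ((Y1 : ℝ) - 2 ^ 144) * ((X2 : ℝ) - 2 ^ 144)| ≤ 2 ^ 144 * (D : ℝ) := by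
    have e : ((X1 : ℝ) - 2 ^ 144) * ((Y2 : ℝ) - 2 ^ 144) + ((Y1 : ℝ) - 2 ^ 144) * ((X2 : ℝ) - 2 ^ 144) =
        (((X1 : ℝ) - 2 ^ 144) / 2 ^ 112 * (((Y2 : ℝ) - 2 ^ 144) / 2 ^ 112) +
          ((Y1 : ℝ) - 2 ^ 144) / 2 ^ 112 * (((X2 : ℝ) - 2 ^ 144) / 2 ^ 112)) * 2 ^ 224 := by
      rw [h224]; field_simp
    rw [e, abs_mul, abs_of_pos (show (0:ℝ) < 2 ^ 224 by positivity), hDr]
    have e2 : (2:ℝ) ^ 144 * (2 ^ 112 * d) = (2 ^ 32 * d) * 2 ^ 224 := by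
      rw [show (2:ℝ) ^ 144 * (2 ^ 112 * d) = (2 ^ 144 * 2 ^ 112) * d by ring, show (2:ℝ) ^ 32 * d * 2 ^ 224 = (2 ^ 32 * 2 ^ 224) * d by ring,
        ← pow_add, ← pow_add]
    rw [e2]
    exact mul_le_mul_of_nonneg_right (him.trans hb) (by positivity)
  have r1 := sub_floor (X1 * X2 + 2 ^ 144 * (Y1 + Y2) + 2 ^ 144 * D) (Y1 * Y2 + 2 ^ 144 * (X1 + X2)) D hD0
    (t := ((X1 : ℝ) - 2 ^ 144) * ((X2 : ℝ) - 2 ^ 144) - ((Y1 : ℝ) - 2 ^ 144) * ((Y2 : ℝ) - 2 ^ 144))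
    (by push_cast; ring) k1
  have r2 := sub_floor (X1 * Y2 + Y1 * X2 + 2 ^ 144 * (D + 2 ^ 145)) (2 ^ 144 * ((X1 + Y2) + (Y1 + X2))) D hD0
    (t := ((X1 : ℝ) - 2 ^ 144) * ((Y2 : ℝ) - 2 ^ 144) + ((Y1 : ℝ) - 2 ^ 144) * ((X2 : ℝ) - 2 ^ 144))
    (by push_cast; ring) k2
  rw [← gre_eq] at r1
  rw [← gim_eq] at r2
  rw [← hD]
  have hn := Complex.norm_le_abs_re_add_abs_im (cv (gre X1 Y1 X2 Y2 D) (gim X1 Y1 X2 Y2 D) - cv X1 Y1 * cv X2 Y2 / d)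
  have ere : (cv (gre X1 Y1 X2 Y2 D) (gim X1 Y1 X2 Y2 D) - cv X1 Y1 * cv X2 Y2 / d).re =
      (((gre X1 Y1 X2 Y2 D : ℕ) : ℝ) - 2 ^ 144 - (((X1 : ℝ) - 2 ^ 144) * ((X2 : ℝ) - 2 ^ 144) - ((Y1 : ℝ) - 2 ^ 144) * ((Y2 : ℝ) - 2 ^ 144)) / D) / 2 ^ 112 := by
    rw [Complex.sub_re, Complex.div_natCast_re, Complex.mul_re, cv_re, cv_re, cv_re, cv_im, cv_im, hDr]
    field_simp
  have eim : (cv (gre X1 Y1 X2 Y2 D) (gim X1 Y1 X2 Y2 D) - cv X1 Y1 * cv X2 Y2 / d).im =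
      (((gim X1 Y1 X2 Y2 D : ℕ) : ℝ) - 2 ^ 144 - (((X1 : ℝ) - 2 ^ 144) * ((Y2 : ℝ) - 2 ^ 144) + ((Y1 : ℝ) - 2 ^ 144) * ((X2 : ℝ) - 2 ^ 144)) / D) / 2 ^ 112 := by
    rw [Complex.sub_im, Complex.div_natCast_im, Complex.mul_im, cv_im, cv_re, cv_re, cv_im, cv_im, hDr]
    field_simp
  have hp : (0:ℝ) < 2 ^ 112 := by positivity
  have q1 : |(cv (gre X1 Y1 X2 Y2 D) (gim X1 Y1 X2 Y2 D) - cv X1 Y1 * cv X2 Y2 / d).re| * 2 ^ 112 ≤ 1 := by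
    rw [ere, abs_div, abs_of_pos hp, div_mul_cancel₀ _ hp.ne', abs_le]
    constructor <;> linarith [r1.1, r1.2]
  have q2 : |(cv (gre X1 Y1 X2 Y2 D) (gim X1 Y1 X2 Y2 D) - cv X1 Y1 * cv X2 Y2 / d).im| * 2 ^ 112 ≤ 1 := by
    rw [eim, abs_div, abs_of_pos hp, div_mul_cancel₀ _ hp.ne', abs_le]
    constructor <;> linarith [r2.1, r2.2]
  have := mul_le_mul_of_nonneg_right hn hp.le
  linarith

/-- FP1 -/
theorem Ap_mul {X1 Y1 X2 Y2 d : ℕ} {z1 z2 : ℂ} {ε1 ε2 : ℝ} (hd : 0 < d) (h1 : Ap X1 Y1 z1 ε1)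
    (h2 : Ap X2 Y2 z2 ε2) (hb : (‖z1‖ + ε1 / 2 ^ 112) * (‖z2‖ + ε2 / 2 ^ 112) ≤ 2 ^ 32 * d) :
    Ap (gre X1 Y1 X2 Y2 (2 ^ 112 * d)) (gim X1 Y1 X2 Y2 (2 ^ 112 * d)) (z1 * z2 / d)
      ((‖z1‖ * ε2 + ‖z2‖ * ε1 + ε1 * ε2 / 2 ^ 112) / d + 2) := by
  unfold Ap at *
  have hp : (0:ℝ) < 2 ^ 112 := by positivity
  have hd' : (0:ℝ) < d := by exact_mod_cast hd
  have g1 : ‖cv X1 Y1 - z1‖ ≤ ε1 / 2 ^ 112 := by rw [le_div_iff₀ hp]; exact h1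
  have g2 : ‖cv X2 Y2 - z2‖ ≤ ε2 / 2 ^ 112 := by rw [le_div_iff₀ hp]; exact h2
  have n1 : ‖cv X1 Y1‖ ≤ ‖z1‖ + ε1 / 2 ^ 112 := by
    have := norm_add_le z1 (cv X1 Y1 - z1)
    rw [add_sub_cancel] at this
    linarith
  have n2 : ‖cv X2 Y2‖ ≤ ‖z2‖ + ε2 / 2 ^ 112 := by
    have := norm_add_le z2 (cv X2 Y2 - z2)
    rw [add_sub_cancel] at this
    linarith
  have hr := mul_round (X1 := X1) (Y1 := Y1) (X2 := X2) (Y2 := Y2) hd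
    ((mul_le_mul n1 n2 (norm_nonneg _) ((norm_nonneg _).trans n1)).trans hb)
  have e : cv (gre X1 Y1 X2 Y2 (2 ^ 112 * d)) (gim X1 Y1 X2 Y2 (2 ^ 112 * d)) - z1 * z2 / d =
      (cv (gre X1 Y1 X2 Y2 (2 ^ 112 * d)) (gim X1 Y1 X2 Y2 (2 ^ 112 * d)) - cv X1 Y1 * cv X2 Y2 / d) +
      (z1 * (cv X2 Y2 - z2) + (cv X1 Y1 - z1) * cv X2 Y2) / d := by ring
  have hs : ‖(z1 * (cv X2 Y2 - z2) + (cv X1 Y1 - z1) * cv X2 Y2) / d‖ * 2 ^ 112 ≤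
      (‖z1‖ * ε2 + ‖z2‖ * ε1 + ε1 * ε2 / 2 ^ 112) / d := by
    rw [norm_div, Complex.norm_natCast, div_mul_eq_mul_div, div_le_div_iff_of_pos_right hd']
    have t1 : ‖z1 * (cv X2 Y2 - z2) + (cv X1 Y1 - z1) * cv X2 Y2‖ ≤
        ‖z1‖ * (ε2 / 2 ^ 112) + (ε1 / 2 ^ 112) * (‖z2‖ + ε2 / 2 ^ 112) := by
      refine (norm_add_le _ _).trans ?_
      rw [norm_mul, norm_mul]
      exact add_le_add (mul_le_mul_of_nonneg_left g2 (norm_nonneg _))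
        (mul_le_mul g1 n2 (norm_nonneg _) ((norm_nonneg _).trans g1))
    have t2 := mul_le_mul_of_nonneg_right t1 hp.le
    refine t2.trans (le_of_eq ?_)
    field_simp
    ring
  rw [e]
  have := mul_le_mul_of_nonneg_right (norm_add_le (cv (gre X1 Y1 X2 Y2 (2 ^ 112 * d)) (gim X1 Y1 X2 Y2 (2 ^ 112 * d)) - cv X1 Y1 * cv X2 Y2 / d)
    ((z1 * (cv X2 Y2 - z2) + (cv X1 Y1 - z1) * cv X2 Y2) / d)) hp.le
  linarith


theorem Ap.mono {x y : ℕ} {z : ℂ} {ε ε' : ℝ} (h : Ap x y z ε) (hε : ε ≤ ε') : Ap x y z ε' :=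
  le_trans h hε

theorem Ap.norm_le {x y : ℕ} {z : ℂ} {ε : ℝ} (h : Ap x y z ε) : ‖cv x y‖ ≤ ‖z‖ + ε / 2 ^ 112 := by
  have hp : (0:ℝ) < 2 ^ 112 := by positivity
  unfold Ap at h
  have g1 : ‖cv x y - z‖ ≤ ε / 2 ^ 112 := by rw [le_div_iff₀ hp]; exact h
  have := norm_add_le z (cv x y - z)
  rw [add_sub_cancel] at this
  linarith

/-- exact addition -/
theorem cv_add {x y x' y' : ℕ} (h : ‖cv x y‖ + ‖cv x' y'‖ ≤ 2 ^ 32) :
    cv (x + x' - 2 ^ 144) (y + y' - 2 ^ 144) = cv x y + cv x' y' := by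
  have hp : (0:ℝ) < 2 ^ 112 := by positivity
  have key : ∀ a b : ℕ, |((a : ℝ) - 2 ^ 144) / 2 ^ 112| + |((b : ℝ) - 2 ^ 144) / 2 ^ 112| ≤ 2 ^ 32 →
      (((a + b - 2 ^ 144 : ℕ) : ℝ) - 2 ^ 144) / 2 ^ 112 =
        ((a : ℝ) - 2 ^ 144) / 2 ^ 112 + ((b : ℝ) - 2 ^ 144) / 2 ^ 112 := by
    intro a b hab
    have h1 := neg_abs_le (((a : ℝ) - 2 ^ 144) / 2 ^ 112)
    have h2 := neg_abs_le (((b : ℝ) - 2 ^ 144) / 2 ^ 112)
    have h3 : -(2 ^ 32) ≤ ((a : ℝ) - 2 ^ 144) / 2 ^ 112 + ((b : ℝ) - 2 ^ 144) / 2 ^ 112 := by linarith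
    rw [← add_div, le_div_iff₀ hp] at h3
    have h4 : (2:ℝ) ^ 144 = 2 ^ 32 * 2 ^ 112 := by rw [← pow_add]
    have h5 : ((2 ^ 144 : ℕ) : ℝ) ≤ ((a + b : ℕ) : ℝ) := by
      push_cast
      nlinarith
    have h6 : 2 ^ 144 ≤ a + b := by exact_mod_cast h5
    rw [Nat.cast_sub h6]
    push_cast
    ring
  have r1 := Complex.abs_re_le_norm (cv x y)
  have r2 := Complex.abs_re_le_norm (cv x' y')
  have i1 := Complex.abs_im_le_norm (cv x y)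
  have i2 := Complex.abs_im_le_norm (cv x' y')
  rw [cv_re] at r1 r2
  rw [cv_im] at i1 i2
  apply Complex.ext
  · rw [Complex.add_re, cv_re, cv_re, cv_re]
    exact key x x' (by linarith)
  · rw [Complex.add_im, cv_im, cv_im, cv_im]
    exact key y y' (by linarith)

private theorem qsum_succ0 (Wx Wy n : ℕ) : qsum Wx Wy (n + 1) = fun k Ux Uy Sx Sy =>
    qsum Wx Wy n (Nat.succ k)
       (gre Ux Uy Wx Wy (Nat.mul (nat_lit 5192296858534827628530496329220096) (Nat.succ k)))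
       (gim Ux Uy Wx Wy (Nat.mul (nat_lit 5192296858534827628530496329220096) (Nat.succ k)))
       (Nat.sub (Nat.add Sx Ux) (nat_lit 22300745198530623141535718272648361505980416))
       (Nat.sub (Nat.add Sy Uy) (nat_lit 22300745198530623141535718272648361505980416)) := rfl

private theorem lit112 (k : ℕ) : Nat.mul (nat_lit 5192296858534827628530496329220096) (Nat.succ k) = 2 ^ 112 * (k + 1) := by
  have e1 : (2 ^ 112 : ℕ) = 5192296858534827628530496329220096 := by norm_num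
  rw [e1]
  exact Nat.mul_eq

private theorem lit144 (k : ℕ) : Nat.sub k (nat_lit 22300745198530623141535718272648361505980416) = k - 2 ^ 144 := by
  have e1 : (2 ^ 144 : ℕ) = 22300745198530623141535718272648361505980416 := by norm_num
  rw [e1]
  exact Nat.sub_eq

theorem qsum_succ (Wx Wy n k Ux Uy Sx Sy : ℕ) : qsum Wx Wy (n + 1) k Ux Uy Sx Sy =
    qsum Wx Wy n (k + 1) (gre Ux Uy Wx Wy (2 ^ 112 * (k + 1))) (gim Ux Uy Wx Wy (2 ^ 112 * (k + 1)))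
      (Sx + Ux - 2 ^ 144) (Sy + Uy - 2 ^ 144) := by
  rw [qsum_succ0]
  beta_reduce
  rw [lit112, lit144, lit144, Nat.add_eq, Nat.add_eq]

theorem qsum_zero (Wx Wy k Ux Uy Sx Sy : ℕ) : qsum Wx Wy 0 k Ux Uy Sx Sy = (Sx, Sy) := rfl

theorem cv_w (A : ℕ) : cv (2 ^ 144) (2 ^ 144 + A * 2 ^ 91) = ((A : ℝ) / 2 ^ 21 : ℝ) * I := by
  apply Complex.ext
  · rw [cv_re, Complex.re_ofReal_mul, Complex.I_re]
    norm_num
  · rw [cv_im]
    have h : (2:ℝ) ^ 112 = 2 ^ 91 * 2 ^ 21 := by rw [← pow_add]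
    simp only [Complex.mul_im, Complex.ofReal_re, Complex.I_im, Complex.ofReal_im, Complex.I_re]
    push_cast
    rw [h]
    field_simp
    ring

theorem cv_zero : cv (2 ^ 144) (2 ^ 144) = 0 := by
  apply Complex.ext
  · rw [cv_re]; norm_num
  · rw [cv_im]; norm_num

theorem cv_one : cv (2 ^ 144 + 2 ^ 112) (2 ^ 144) = 1 := by
  apply Complex.ext
  · rw [cv_re]; norm_num
  · rw [cv_im]; norm_num

private noncomputable def Eb (k : ℕ) : ℝ := if k = 0 then 0 else if k = 1 then 2 else if k = 2 then 6 else 10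

private theorem Eb_le (k : ℕ) : Eb k ≤ 10 := by
  unfold Eb
  split_ifs <;> norm_num

private theorem Eb_nonneg (k : ℕ) : 0 ≤ Eb k := by
  unfold Eb
  split_ifs <;> norm_num

private theorem Eb_step (k : ℕ) : 63 / 20 * Eb k / ((k + 1 : ℕ) : ℝ) + 2 ≤ Eb (k + 1) := by
  rcases k with _ | _ | _ | k
  · simp [Eb]
  · norm_num [Eb]
  · norm_num [Eb]
  · have h1 : Eb (k + 1 + 1 + 1) = 10 := by simp [Eb]
    have h2 : Eb (k + 1 + 1 + 1 + 1) = 10 := by simp [Eb]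
    rw [h1, h2]
    have h3 : (4:ℝ) ≤ ((k + 1 + 1 + 1 + 1 : ℕ) : ℝ) := by push_cast; linarith [Nat.cast_nonneg (α := ℝ) k]
    have h4 : 63 / 20 * 10 / ((k + 1 + 1 + 1 + 1 : ℕ) : ℝ) ≤ 63 / 20 * 10 / 4 :=
      div_le_div_of_nonneg_left (by norm_num) (by norm_num) h3
    linarith

private theorem exp_lt : Real.exp (63 / 20) ≤ 81 := by
  have h1 : Real.exp (63 / 20) ≤ Real.exp 4 := Real.exp_le_exp.2 (by norm_num)
  have h2 : Real.exp 4 = Real.exp 1 ^ 4 := by rw [← Real.exp_nat_mul]; norm_num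
  have h3 : Real.exp 1 ^ 4 ≤ 3 ^ 4 := pow_le_pow_left₀ (Real.exp_pos 1).le Real.exp_one_lt_three.le 4
  rw [h2] at h1
  linarith

private theorem norm_w {A : ℕ} (hA : A ≤ 6600000) : ‖((((A : ℝ) / 2 ^ 21 : ℝ) : ℂ) * I)‖ ≤ 63 / 20 := by
  rw [norm_mul, Complex.norm_I, mul_one, Complex.norm_real, Real.norm_eq_abs, abs_of_nonneg (by positivity)]
  have : (A : ℝ) ≤ 6600000 := by exact_mod_cast hA
  rw [div_le_iff₀ (by positivity)]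
  norm_num
  linarith

private theorem term_norm {w : ℂ} (hw : ‖w‖ ≤ 63 / 20) (k : ℕ) : ‖w ^ k / (k.factorial : ℂ)‖ ≤ 81 := by
  rw [norm_div, norm_pow, Complex.norm_natCast]
  calc ‖w‖ ^ k / (k.factorial : ℝ) ≤ (63 / 20) ^ k / (k.factorial : ℝ) := by gcongr
    _ ≤ Real.exp (63 / 20) := Real.pow_div_factorial_le_exp _ (by norm_num) k
    _ ≤ 81 := exp_lt

private theorem psum_norm {w : ℂ} (hw : ‖w‖ ≤ 63 / 20) (k : ℕ) :
    ‖∑ j ∈ range k, w ^ j / (j.factorial : ℂ)‖ ≤ 81 := by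
  refine (norm_sum_le _ _).trans ?_
  have : ∀ j ∈ range k, ‖w ^ j / (j.factorial : ℂ)‖ ≤ (63 / 20) ^ j / (j.factorial : ℝ) := by
    intro j _
    rw [norm_div, norm_pow, Complex.norm_natCast]
    gcongr
  refine (Finset.sum_le_sum this).trans ?_
  exact (Real.sum_le_exp_of_nonneg (by norm_num) k).trans exp_lt

private theorem U_small {Wx Wy : ℕ} (hw : ‖cv Wx Wy‖ ≤ 63 / 20) (k : ℕ) :
    Ap (Useq Wx Wy k).1 (Useq Wx Wy k).2 (cv Wx Wy ^ k / (k.factorial : ℂ)) (Eb k) := by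
  induction k with
  | zero =>
    unfold Ap
    rw [Useq, cv_one]
    simp [Eb]
  | succ k ih =>
    have hE := Eb_le k
    have hE0 := Eb_nonneg k
    have ht := term_norm hw k
    have h0 : Ap Wx Wy (cv Wx Wy) 0 := by unfold Ap; simp
    have hb : (‖cv Wx Wy ^ k / (k.factorial : ℂ)‖ + Eb k / 2 ^ 112) * (‖cv Wx Wy‖ + 0 / 2 ^ 112) ≤
        2 ^ 32 * ((k + 1 : ℕ) : ℝ) := by
      have h1 : Eb k / 2 ^ 112 ≤ 10 := by
        refine (div_le_self hE0 ?_).trans hE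
        exact one_le_pow₀ (by norm_num)
      have h2 : (1:ℝ) ≤ ((k + 1 : ℕ) : ℝ) := by push_cast; linarith [Nat.cast_nonneg (α := ℝ) k]
      calc _ ≤ (81 + 10) * (63 / 20 + 0 / 2 ^ 112 : ℝ) := by
            refine mul_le_mul (add_le_add ht h1) (by gcongr) ?_ (by norm_num)
            rw [zero_div, add_zero]; exact norm_nonneg _
        _ ≤ 2 ^ 32 * 1 := by norm_num
        _ ≤ 2 ^ 32 * ((k + 1 : ℕ) : ℝ) := by gcongr
    have h := Ap_mul (Nat.succ_pos k) ih h0 hb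
    have e : cv Wx Wy ^ k / (k.factorial : ℂ) * cv Wx Wy / ((k + 1 : ℕ) : ℂ) =
        cv Wx Wy ^ (k + 1) / ((k + 1).factorial : ℂ) := by
      rw [Nat.factorial_succ, pow_succ]
      push_cast
      field_simp
    rw [Nat.succ_eq_add_one, e] at h
    refine h.mono ?_
    rw [mul_zero, mul_zero, zero_add, zero_div, add_zero]
    refine le_trans ?_ (Eb_step k)
    gcongr

private theorem qsum_sound {Wx Wy : ℕ} (hw : ‖cv Wx Wy‖ ≤ 63 / 20) (n : ℕ) : ∀ (k Sx Sy : ℕ), k + n ≤ 100 →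
    Ap Sx Sy (∑ j ∈ range k, cv Wx Wy ^ j / (j.factorial : ℂ)) (10 * k) →
    Ap (qsum Wx Wy n k (Useq Wx Wy k).1 (Useq Wx Wy k).2 Sx Sy).1
      (qsum Wx Wy n k (Useq Wx Wy k).1 (Useq Wx Wy k).2 Sx Sy).2
      (∑ j ∈ range (k + n), cv Wx Wy ^ j / (j.factorial : ℂ)) (10 * (k + n : ℕ)) := by
  induction n with
  | zero =>
    intro k Sx Sy _ h
    rw [qsum_zero]
    exact h
  | succ n ih =>
    intro k Sx Sy hk h
    rw [qsum_succ]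
    have hU := U_small hw k
    have hU' := hU.mono (Eb_le k)
    have e1 : Useq Wx Wy (k + 1) = (gre (Useq Wx Wy k).1 (Useq Wx Wy k).2 Wx Wy (2 ^ 112 * (k + 1)),
      gim (Useq Wx Wy k).1 (Useq Wx Wy k).2 Wx Wy (2 ^ 112 * (k + 1))) := rfl
    have h1 := ih (k + 1) (Sx + (Useq Wx Wy k).1 - 2 ^ 144) (Sy + (Useq Wx Wy k).2 - 2 ^ 144) (by omega) ?_
    · rw [e1] at h1
      rw [show k + (n + 1) = k + 1 + n by ring]
      exact h1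
    · have hp : (0:ℝ) < 2 ^ 112 := by positivity
      have hkr : (k : ℝ) ≤ 100 := by exact_mod_cast (by omega : k ≤ 100)
      have hp1 : (1:ℝ) ≤ 2 ^ 112 := one_le_pow₀ (by norm_num)
      have n1 : ‖cv Sx Sy‖ ≤ 81 + 1000 := by
        refine h.norm_le.trans (add_le_add (psum_norm hw k) ?_)
        exact (div_le_self (by positivity) hp1).trans (by linarith)
      have n2 : ‖cv (Useq Wx Wy k).1 (Useq Wx Wy k).2‖ ≤ 81 + 10 := by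
        refine hU'.norm_le.trans (add_le_add (term_norm hw k) ?_)
        exact div_le_self (by norm_num) hp1
      unfold Ap
      rw [cv_add (by norm_num; linarith), Finset.sum_range_succ]
      unfold Ap at h hU'
      have e2 : cv Sx Sy + cv (Useq Wx Wy k).1 (Useq Wx Wy k).2 -
          (∑ j ∈ range k, cv Wx Wy ^ j / (j.factorial : ℂ) + cv Wx Wy ^ k / (k.factorial : ℂ)) =
          (cv Sx Sy - ∑ j ∈ range k, cv Wx Wy ^ j / (j.factorial : ℂ)) +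
          (cv (Useq Wx Wy k).1 (Useq Wx Wy k).2 - cv Wx Wy ^ k / (k.factorial : ℂ)) := by ring
      rw [e2]
      have h3 := mul_le_mul_of_nonneg_right (norm_add_le (cv Sx Sy - ∑ j ∈ range k, cv Wx Wy ^ j / (j.factorial : ℂ))
        (cv (Useq Wx Wy k).1 (Useq Wx Wy k).2 - cv Wx Wy ^ k / (k.factorial : ℂ))) hp.le
      push_cast
      linarith

/-- FP2 -/
theorem q_sound (A : ℕ) (hA : A ≤ 6600000) : Ap (qq A).1 (qq A).2 (cis ((A : ℝ) / 2 ^ 21)) (2 ^ 10) := by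
  have hw' := norm_w hA
  have hw : ‖cv (2 ^ 144) (2 ^ 144 + A * 2 ^ 91)‖ ≤ 63 / 20 := by rw [cv_w]; exact hw'
  have h := qsum_sound hw 44 0 (2 ^ 144) (2 ^ 144) (by norm_num) (by
    unfold Ap
    rw [cv_zero]
    simp)
  have e : qsum (2 ^ 144) (2 ^ 144 + A * 2 ^ 91) 44 0 (Useq (2 ^ 144) (2 ^ 144 + A * 2 ^ 91) 0).1
      (Useq (2 ^ 144) (2 ^ 144 + A * 2 ^ 91) 0).2 (2 ^ 144) (2 ^ 144) = qq A := rfl
  rw [e, cv_w] at h
  unfold Ap at h ⊢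
  obtain ⟨w, hwd⟩ : ∃ w : ℂ, w = ((((A : ℝ) / 2 ^ 21 : ℝ) : ℂ) * I) := ⟨_, rfl⟩
  rw [← hwd] at h hw'
  have hc : cis ((A : ℝ) / 2 ^ 21) = exp w := by rw [hwd]; rfl
  have hp : (0:ℝ) < 2 ^ 112 := by positivity
  have hb := Complex.exp_bound' (x := w) (n := 44) (by
    norm_num
    linarith)
  have hb2 : ‖exp w - ∑ m ∈ range 44, w ^ m / (m.factorial : ℂ)‖ * 2 ^ 112 ≤ 500 := by
    have h1 : ‖w‖ ^ 44 / ((44 : ℕ).factorial : ℝ) * 2 ≤ (63 / 20) ^ 44 / ((44 : ℕ).factorial : ℝ) * 2 := by gcongr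
    have h2 : (63 / 20 : ℝ) ^ 44 / ((44 : ℕ).factorial : ℝ) * 2 * 2 ^ 112 ≤ 500 := by
      norm_num [Nat.factorial]
    exact (mul_le_mul_of_nonneg_right (hb.trans h1) hp.le).trans h2
  rw [hc]
  rw [zero_add] at h
  have e3 : cv (qq A).1 (qq A).2 - exp w = (cv (qq A).1 (qq A).2 - ∑ j ∈ range 44, w ^ j / (j.factorial : ℂ)) -
      (exp w - ∑ m ∈ range 44, w ^ m / (m.factorial : ℂ)) := by ring
  rw [e3]
  have h3 := mul_le_mul_of_nonneg_right (norm_sub_le (cv (qq A).1 (qq A).2 - ∑ j ∈ range 44, w ^ j / (j.factorial : ℂ))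
      (exp w - ∑ m ∈ range 44, w ^ m / (m.factorial : ℂ))) hp.le
  norm_num at h h3 hb2 ⊢
  linarith

private theorem Ap_mul1 {X1 Y1 X2 Y2 : ℕ} {x1 x2 : ℝ} {ε1 ε2 : ℝ} (h1 : Ap X1 Y1 (cis x1) ε1)
    (h2 : Ap X2 Y2 (cis x2) ε2) (_he1 : 0 ≤ ε1) (he1' : ε1 ≤ 2 ^ 23) (he2 : 0 ≤ ε2) (he2' : ε2 ≤ 2 ^ 23) :
    Ap (gre X1 Y1 X2 Y2 (2 ^ 112)) (gim X1 Y1 X2 Y2 (2 ^ 112)) (cis (x1 + x2)) (ε1 + ε2 + 3) := by
  have hp : (0:ℝ) < 2 ^ 112 := by positivity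
  have hp1 : (2:ℝ) ^ 46 ≤ 2 ^ 112 := pow_le_pow_right₀ (by norm_num) (by norm_num)
  have hp2 : (2:ℝ) ^ 23 ≤ 2 ^ 112 := pow_le_pow_right₀ (by norm_num) (by norm_num)
  have hb : (‖cis x1‖ + ε1 / 2 ^ 112) * (‖cis x2‖ + ε2 / 2 ^ 112) ≤ 2 ^ 32 * ((1 : ℕ) : ℝ) := by
    rw [norm_cis, norm_cis]
    have t1 : ε1 / 2 ^ 112 ≤ 1 := by rw [div_le_one hp]; linarith
    have t2 : ε2 / 2 ^ 112 ≤ 1 := by rw [div_le_one hp]; linarith
    have t3 : 0 ≤ ε2 / 2 ^ 112 := by positivity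
    calc (1 + ε1 / 2 ^ 112) * (1 + ε2 / 2 ^ 112) ≤ (1 + 1) * (1 + 1) := by
          refine mul_le_mul (by linarith) (by linarith) (by linarith) (by norm_num)
      _ ≤ _ := by norm_num
  have h := Ap_mul one_pos h1 h2 hb
  rw [mul_one, Nat.cast_one, div_one, ← cis_add] at h
  refine h.mono ?_
  rw [norm_cis, norm_cis, Nat.cast_one, div_one]
  have : ε1 * ε2 / 2 ^ 112 ≤ 1 := by
    rw [div_le_one hp]
    calc ε1 * ε2 ≤ 2 ^ 23 * 2 ^ 23 := mul_le_mul he1' he2' he2 (by norm_num)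
      _ = 2 ^ 46 := by rw [← pow_add]
      _ ≤ _ := hp1
  linarith

theorem mkT_succ (qx qy n Tx Ty Qx Qy : ℕ) : mkT qx qy (n + 1) Tx Ty Qx Qy =
    (Tx, Ty) :: mkT qx qy n (gre Tx Ty Qx Qy (2 ^ 112)) (gim Tx Ty Qx Qy (2 ^ 112))
      (gre Qx Qy qx qy (2 ^ 112)) (gim Qx Qy qx qy (2 ^ 112)) := rfl

theorem mkT_zero (qx qy Tx Ty Qx Qy : ℕ) : mkT qx qy 0 Tx Ty Qx Qy = [] := rfl

private theorem mkT_sound {α : ℝ} {qx qy : ℕ} (hq : Ap qx qy (cis α) (2 ^ 10)) (n : ℕ) :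
    ∀ (k Tx Ty Qx Qy : ℕ), k + n ≤ 70 → Ap Tx Ty (cis ((k * (k + 1) / 2 : ℕ) * α)) (72200 * k) →
      Ap Qx Qy (cis ((k + 1 : ℕ) * α)) (1030 * (k + 1 : ℕ)) →
      (mkT qx qy n Tx Ty Qx Qy).length = n ∧ ∀ j < n, Ap ((mkT qx qy n Tx Ty Qx Qy).getD j (0, 0)).1
        ((mkT qx qy n Tx Ty Qx Qy).getD j (0, 0)).2
        (cis (((k + j) * (k + j + 1) / 2 : ℕ) * α)) (2 ^ 23) := by
  induction n with
  | zero =>
    intro k Tx Ty Qx Qy _ _ _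
    rw [mkT_zero]
    exact ⟨rfl, fun j hj => absurd hj (Nat.not_lt_zero j)⟩
  | succ n ih =>
    intro k Tx Ty Qx Qy hk hT hQ
    rw [mkT_succ]
    have hkr : (k : ℝ) ≤ 69 := by exact_mod_cast (by omega : k ≤ 69)
    have hk0 : (0:ℝ) ≤ k := Nat.cast_nonneg k
    have hT' := Ap_mul1 hT hQ (by positivity) (by norm_num; linarith) (by positivity)
      (by push_cast; norm_num; linarith)
    have hQ' := Ap_mul1 hQ hq (by positivity) (by push_cast; norm_num; linarith) (by positivity) (by norm_num)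
    have tri : (k + 1) * (k + 1 + 1) / 2 = k * (k + 1) / 2 + (k + 1) := by
      have : (k + 1) * (k + 1 + 1) = k * (k + 1) + (k + 1) * 2 := by ring
      rw [this, Nat.add_mul_div_right _ _ (by norm_num)]
    have eT : ((k * (k + 1) / 2 : ℕ) : ℝ) * α + ((k + 1 : ℕ) : ℝ) * α = (((k + 1) * (k + 1 + 1) / 2 : ℕ) : ℝ) * α := by
      rw [tri]; push_cast; ring
    have eQ : ((k + 1 : ℕ) : ℝ) * α + α = ((k + 1 + 1 : ℕ) : ℝ) * α := by push_cast; ring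
    rw [eT] at hT'
    rw [eQ] at hQ'
    obtain ⟨h1, h2⟩ := ih (k + 1) _ _ _ _ (by omega) (hT'.mono (by push_cast; linarith))
      (hQ'.mono (by push_cast; norm_num; linarith))
    refine ⟨by rw [List.length_cons, h1], fun j hj => ?_⟩
    rcases j with _ | j
    · rw [List.getD_cons_zero, add_zero]
      exact hT.mono (by norm_num; linarith)
    · rw [List.getD_cons_succ]
      have h3 := h2 j (by omega)
      rw [show k + (j + 1) = k + 1 + j by ring]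
      exact h3

/-- FP3 -/
theorem T_sound (α : ℝ) (qx qy : ℕ) (hq : Ap qx qy (cis α) (2 ^ 10)) : (TT qx qy).length = 70 ∧
    ∀ j < 70, Ap ((TT qx qy).getD j (0, 0)).1 ((TT qx qy).getD j (0, 0)).2
      (cis ((j * (j + 1) / 2 : ℕ) * α)) (2 ^ 23) := by
  have h := mkT_sound hq 70 0 (2 ^ 144 + 2 ^ 112) (2 ^ 144) qx qy (by norm_num) (by
    unfold Ap
    rw [cv_one]
    simp [cis]) (by
    have e : ((0 + 1 : ℕ) : ℝ) * α = α := by push_cast; ring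
    rw [e]
    exact hq.mono (by norm_num))
  refine ⟨h.1, fun j hj => ?_⟩
  have h2 := h.2 j hj
  rw [zero_add] at h2
  exact h2

end SokB
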