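import Pool.Agent.Lib.MP_816dec_an.BCertF
import Pool.Agent.Lib.MP_816dec_an.BAsm

/-!
MP_816dec_an, finite part: row INT (from `intK` to `PieceOK` and one step of `RS`).
-/

set_option autoImplicit false

open Complex Finset

namespace SokB

open Sok

/-- centres of a list of certificates -/
noncomputable def wl (cs : List Cert) (i : ℕ) : ℂ := wof (cs.getD i ⟨0, 0, 0, 0, 0, 0, 0, 0⟩)

/-- inner radii -/
noncomputable def sl (cs : List Cert) (i : ℕ) : ℝ := ((cs.getD i ⟨0, 0, 0, 0, 0, 0, 0, 0⟩).s : ℝ) / 2 ^ 16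

/-- outer radii -/
noncomputable def Sl (cs : List Cert) (i : ℕ) : ℝ := ((cs.getD i ⟨0, 0, 0, 0, 0, 0, 0, 0⟩).S : ℝ) / 2 ^ 16

theorem le1_true {x y : ℕ} {c : Bool} (h : le1 x y c = true) : x ≤ y ∧ c = true := by
  unfold le1 at h
  rcases hb : Nat.ble x y with _ | _
  · rw [hb] at h
    exact absurd h (by simp)
  · rw [hb] at h
    exact ⟨Nat.le_of_ble_eq_true hb, h⟩

theorem brec_true {b c : Bool} (h : (Bool.rec (motive := fun _ => Bool) false c b) = true) :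
    b = true ∧ c = true := by
  rcases b with _ | _
  · exact absurd h (by simp)
  · exact ⟨rfl, h⟩

/-- the reversed lists -/
def Rev {β : Type} (d : β) (l : List β) : ℕ → List β
  | 0 => l
  | i + 1 => l.getD i d :: Rev d l i

theorem Rev_getD {β : Type} (d : β) (l : List β) (i : ℕ) : ∀ k, (Rev d l (i + 1)).getD k d = l.getD (je i k) d := by
  induction i with
  | zero =>
    intro k
    rcases k with _ | k
    · rfl
    · unfold je
      rw [if_neg (by omega)]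
      show (Rev d l 0).getD k d = _
      rfl
  | succ i ih =>
    intro k
    rcases k with _ | k
    · unfold je
      rw [if_pos (by omega)]
      rfl
    · have h1 : (Rev d l (i + 1 + 1)).getD (k + 1) d = (Rev d l (i + 1)).getD k d := rfl
      rw [h1, ih k]
      congr 1
      unfold je
      split_ifs <;> omega

theorem drop_cons {β : Type} {d : β} {l : List β} {i : ℕ} {t : β} {l' : List β} (h : l.drop i = t :: l') :
    t = l.getD i d ∧ l' = l.drop (i + 1) ∧ i < l.length := by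
  have hi : i < l.length := by
    by_contra hc
    rw [List.drop_eq_nil_of_le (by omega)] at h
    exact absurd h (by simp)
  rw [List.drop_eq_getElem_cons hi] at h
  injection h with h1 h2
  refine ⟨?_, h2.symm, hi⟩
  rw [← h1, List.getD_eq_getElem _ _ hi]

theorem certsK_cons {H : ℕ} {c : Cert} {cs ps : List Cert} {RT rT RE rE : List (ℕ × ℕ)} {r0 s0 : ℕ}
    (h : certsK H (c :: cs) ps RT rT RE rE r0 s0 = true) :
    ∃ p ps' t rT' e rE', ps = p :: ps' ∧ rT = t :: rT' ∧ rE = e :: rE' ∧ p.s + 1 ≤ c.S ∧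
      sq (ad c.a p.a) + sq (ad c.b p.b) + 1 ≤ sq (c.S - p.s) ∧ r0 + 1 + s0 + c.s ≤ c.r ∧
      certK (t :: RT) (e :: RE) H c = true ∧ certsK H cs ps' (t :: RT) rT' (e :: RE) rE' c.r c.s = true := by
  rcases ps with _ | ⟨p, ps'⟩
  · exact absurd h (by simp [certsK])
  rcases rT with _ | ⟨t, rT'⟩
  · exact absurd h (by simp [certsK])
  rcases rE with _ | ⟨e, rE'⟩
  · exact absurd h (by simp [certsK])
  refine ⟨p, ps', t, rT', e, rE', rfl, rfl, rfl, ?_⟩
  obtain ⟨h1, h2⟩ := le1_true h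
  obtain ⟨h3, h4⟩ := le1_true h2
  obtain ⟨h5, h6⟩ := le1_true h4
  obtain ⟨h7, h8⟩ := brec_true h6
  exact ⟨h1, h3, h5, h7, h8⟩

theorem ad_sq (x y : ℕ) : ((sq (ad x y) : ℕ) : ℝ) = ((x : ℝ) - y) ^ 2 := by
  unfold sq ad
  show (((x - y + (y - x)) * (x - y + (y - x)) : ℕ) : ℝ) = _
  rcases le_total x y with h | h
  · have h1 : x - y + (y - x) = y - x := by omega
    rw [h1]
    push_cast [Nat.cast_sub h]
    ring
  · have h1 : x - y + (y - x) = x - y := by omega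
    rw [h1]
    push_cast [Nat.cast_sub h]
    ring

theorem adj_sound {c p : Cert} (h1 : p.s + 1 ≤ c.S)
    (h2 : sq (ad c.a p.a) + sq (ad c.b p.b) + 1 ≤ sq (c.S - p.s)) :
    ‖wof p - wof c‖ + (p.s : ℝ) / 2 ^ 16 < (c.S : ℝ) / 2 ^ 16 := by
  have h3 : ((c.a : ℝ) - p.a) ^ 2 + ((c.b : ℝ) - p.b) ^ 2 < ((c.S : ℝ) - p.s) ^ 2 := by
    have h4 : ((sq (ad c.a p.a) + sq (ad c.b p.b) + 1 : ℕ) : ℝ) ≤ ((sq (c.S - p.s) : ℕ) : ℝ) := by
      exact_mod_cast h2
    have h5 : ((sq (c.S - p.s) : ℕ) : ℝ) = ((c.S : ℝ) - p.s) ^ 2 := by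
      unfold sq
      show (((c.S - p.s) * (c.S - p.s) : ℕ) : ℝ) = _
      rw [Nat.cast_mul, Nat.cast_sub (by omega)]
      ring
    rw [h5] at h4
    push_cast at h4
    rw [ad_sq, ad_sq] at h4
    linarith
  have h6 : wof p - wof c = ((((p.a : ℝ) - c.a : ℝ) : ℂ) + (((p.b : ℝ) - c.b : ℝ) : ℂ) * I) / 2 ^ 16 := by
    unfold wof
    apply Complex.ext
    · simp [Complex.div_re, Complex.normSq]
      norm_num
      ring
    · simp [Complex.div_im, Complex.normSq]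
      norm_num
      ring
  have hs : (p.s : ℝ) < c.S := by exact_mod_cast h1
  rw [h6, norm_div, Complex.norm_add_mul_I, norm_pow, Complex.norm_ofNat]
  have h7 : Real.sqrt (((p.a : ℝ) - c.a) ^ 2 + ((p.b : ℝ) - c.b) ^ 2) < (c.S : ℝ) - p.s := by
    rw [Real.sqrt_lt' (by linarith)]
    have e1 : ((p.a : ℝ) - c.a) ^ 2 = ((c.a : ℝ) - p.a) ^ 2 := by ring
    have e2 : ((p.b : ℝ) - c.b) ^ 2 = ((c.b : ℝ) - p.b) ^ 2 := by ring
    rw [e1, e2]
    exact h3
  have h8 := div_lt_div_of_pos_right h7 (show (0:ℝ) < 2 ^ 16 by norm_num)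
  rw [sub_div] at h8
  linarith

/-- the default certificate -/
abbrev c0 : Cert := ⟨0, 0, 0, 0, 0, 0, 0, 0⟩

theorem certsK_sound (H A : ℕ) (T : List (ℕ × ℕ)) (hT : T.length = 70)
    (hT2 : ∀ j < 70, Ap (T.getD j (0, 0)).1 (T.getD j (0, 0)).2
      (cis ((j * (j + 1) / 2 : ℕ) * ((A : ℝ) / 2 ^ 21))) (2 ^ 23)) :
    ∀ (cs : List Cert) (i : ℕ) (ps : List Cert) (r0 s0 : ℕ),
      certsK H cs ps (Rev (0, 0) T i) (T.drop i) (Rev (0, 0) tabE i) (tabE.drop i) r0 s0 = true →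
      cs.length ≤ ps.length ∧
      (∀ j < cs.length, (∃ L : ℂ, CertOK (i + j) ((A : ℝ) / 2 ^ 21) ((H : ℝ) / 2 ^ 21) (wl cs j) L (sl cs j)
        (Sl cs j) (((cs.getD j c0).e : ℝ) / 64)) ∧
        ((cs.getD j c0).r : ℝ) / 2 ^ 16 ≤ ‖wl cs j‖ ∧ ‖wl cs j‖ < (((cs.getD j c0).r : ℝ) + 1) / 2 ^ 16 ∧
        ‖wl ps j - wl cs j‖ + sl ps j < Sl cs j) ∧
      (∀ j, j + 1 < cs.length → (cs.getD j c0).r + 1 + (cs.getD j c0).s + (cs.getD (j + 1) c0).s ≤
        (cs.getD (j + 1) c0).r) ∧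
      (0 < cs.length → r0 + 1 + s0 + (cs.getD 0 c0).s ≤ (cs.getD 0 c0).r) ∧
      (cs.length = 0 → 655360 + s0 ≤ r0) ∧
      (0 < cs.length → 655360 + (cs.getD (cs.length - 1) c0).s ≤ (cs.getD (cs.length - 1) c0).r) := by
  obtain ⟨hE1, hE2⟩ := tabE_spec
  intro cs
  induction cs with
  | nil =>
    intro i ps r0 s0 h
    refine ⟨by simp, fun j hj => by simp at hj, fun j hj => by simp at hj, fun hj => by simp at hj,
      fun _ => ?_, fun hj => by simp at hj⟩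
    exact (le1_true h).1
  | cons c cs ih =>
    intro i ps r0 s0 h
    obtain ⟨p, ps', t, rT', e, rE', rfl, h2, h3, h4, h5, h6, h7, h8⟩ := certsK_cons h
    obtain ⟨k1, k2, k3⟩ := drop_cons (d := (0, 0)) h2
    obtain ⟨m1, m2, m3⟩ := drop_cons (d := (0, 0)) h3
    have e1 : t :: Rev (0, 0) T i = Rev (0, 0) T (i + 1) := by rw [k1]; rfl
    have e2 : e :: Rev (0, 0) tabE i = Rev (0, 0) tabE (i + 1) := by rw [m1]; rfl
    rw [e1, e2] at h7 h8
    rw [k2, m2] at h8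
    obtain ⟨i1, i2, i3, i4, i5, i6⟩ := ih (i + 1) ps' c.r c.s h8
    rw [hT] at k3
    have hje : ∀ k ≤ 69, je i k < 70 := by
      intro k hk
      unfold je
      split_ifs <;> omega
    have hcert := certK_sound i A H c (Rev (0, 0) T (i + 1)) (Rev (0, 0) tabE (i + 1)) (by
      intro k hk
      rw [Rev_getD]
      exact hT2 (je i k) (hje k hk)) (by
      intro k hk
      rw [Rev_getD, hE2 (je i k) (hje k hk)]
      rfl) (by omega) h7
    refine ⟨by simp only [List.length_cons]; omega, ?_, ?_, fun _ => h6, fun hj => by simp at hj, fun _ => ?_⟩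
    · intro j hj
      rcases j with _ | j
      · obtain ⟨L, c1, c2, c3⟩ := hcert
        exact ⟨⟨L, c1⟩, c2, c3, adj_sound h4 h5⟩
      · obtain ⟨⟨L, c1⟩, c2, c3, c4⟩ := i2 j (by simp only [List.length_cons] at hj; omega)
        refine ⟨⟨L, ?_⟩, c2, c3, c4⟩
        rw [show i + (j + 1) = i + 1 + j by ring]
        exact c1
    · intro j hj
      rcases j with _ | j
      · have := i4 (by simp only [List.length_cons] at hj; omega)
        exact this
      · exact i3 j (by simp only [List.length_cons] at hj; omega)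
    · rcases cs with _ | ⟨c', cs'⟩
      · exact i5 rfl
      · exact i6 (by simp)

/-- INT -/
theorem intK_sound (a b : ℕ) (ps cs : List Cert) (h : intK a b ps cs = true) :
    PieceOK 10 ((a : ℝ) / 2 ^ 20) ((b : ℝ) / 2 ^ 20) cs.length (wl cs) (sl cs) (Sl cs) ∧
      cs.length ≤ ps.length ∧ ∀ i < cs.length, ‖wl ps i - wl cs i‖ + sl ps i < Sl cs i := by
  obtain ⟨h1, h2⟩ := le1_true h
  obtain ⟨h3, h4⟩ := le1_true h2
  have h1' : a + 1 ≤ b := h1
  have h3' : a + b ≤ 6600000 := h3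
  have h5 : certsK (b - a) cs ps (TT (qq (a + b)).1 (qq (a + b)).2) (TT (qq (a + b)).1 (qq (a + b)).2)
      tabE tabE 0 0 = true := h4
  obtain ⟨t1, t2⟩ := T_sound (((a + b : ℕ) : ℝ) / 2 ^ 21) (qq (a + b)).1 (qq (a + b)).2
    (q_sound (a + b) h3')
  obtain ⟨i1, i2, i3, i4, i5, i6⟩ := certsK_sound (b - a) (a + b) _ t1 t2 cs 0 ps 0 0 h5
  have hpos : 0 < cs.length := by
    by_contra hc
    have := i5 (by omega)
    omega
  have hH : (((b - a : ℕ) : ℝ)) = (b : ℝ) - a := by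
    rw [Nat.cast_sub (by omega)]
  refine ⟨⟨?_, hpos, ?_, ?_, ?_⟩, i1, fun i hi => (i2 i hi).2.2.2⟩
  · have : (a : ℝ) ≤ b := by exact_mod_cast (by omega : a ≤ b)
    exact div_le_div_of_nonneg_right this (by positivity)
  · intro i hi
    obtain ⟨⟨L, c1⟩, -⟩ := i2 i hi
    rw [Nat.zero_add] at c1
    refine ⟨_, _, L, _, c1, ?_, ?_⟩
    · rw [hH]
      push_cast
      apply le_of_eq
      ring
    · rw [hH]
      push_cast
      apply le_of_eq
      ring
  · intro i hi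
    have e1 := (i2 i (by omega)).2.2.1
    have e2 := (i2 (i + 1) hi).2.1
    have e3 := i3 i hi
    have e4 : ((cs.getD i c0).r : ℝ) + 1 + (cs.getD i c0).s + (cs.getD (i + 1) c0).s ≤
        (cs.getD (i + 1) c0).r := by exact_mod_cast e3
    unfold sl
    have h16 : (0:ℝ) < 2 ^ 16 := by positivity
    have e5 := div_le_div_of_nonneg_right e4 h16.le
    rw [add_div, add_div] at e5
    change ‖wl cs i‖ + ((cs.getD i c0).s : ℝ) / 2 ^ 16 < ‖wl cs (i + 1)‖ - ((cs.getD (i + 1) c0).s : ℝ) / 2 ^ 16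
    linarith
  · have e2 := (i2 (cs.length - 1) (by omega)).2.1
    have e3 : (655360 : ℝ) + (cs.getD (cs.length - 1) c0).s ≤ (cs.getD (cs.length - 1) c0).r := by
      exact_mod_cast i6 hpos
    have h16 : (0:ℝ) < 2 ^ 16 := by positivity
    have e5 := div_le_div_of_nonneg_right e3 h16.le
    rw [add_div] at e5
    unfold sl
    change (10 : ℝ) ≤ ‖wl cs (cs.length - 1)‖ - ((cs.getD (cs.length - 1) c0).s : ℝ) / 2 ^ 16
    have e6 : (655360 : ℝ) / 2 ^ 16 = 10 := by norm_num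
    linarith

theorem intK_lt {a b : ℕ} {ps cs : List Cert} (h : intK a b ps cs = true) : a + 1 ≤ b := (le1_true h).1

theorem runK_cons {I : ℕ × ℕ × List Cert} {J : List (ℕ × ℕ × List Cert)} {b : ℕ} {ps : List Cert}
    (h : runK (I :: J) b ps = true) : I.2.1 = b ∧ intK I.1 I.2.1 ps I.2.2 = true ∧ runK J I.1 I.2.2 = true := by
  obtain ⟨h1, h2⟩ := brec_true h
  obtain ⟨h3, h4⟩ := brec_true h2
  exact ⟨Nat.eq_of_beq_eq_true h1, h3, h4⟩

theorem lastK_le (J : List (ℕ × ℕ × List Cert)) : ∀ (b : ℕ) (ps : List Cert), runK J b ps = true →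
    (lastK J b ps).1 ≤ b := by
  induction J with
  | nil => intro b ps _; exact le_rfl
  | cons I J ih =>
    intro b ps h
    obtain ⟨h1, h2, h3⟩ := runK_cons h
    have h4 := ih I.1 I.2.2 h3
    have h5 := intK_lt h2
    have h6 : lastK (I :: J) b ps = lastK J I.1 I.2.2 := rfl
    rw [h6]
    omega

/-- RUN -/
theorem runK_sound (J : List (ℕ × ℕ × List Cert)) (b : ℕ) (ps : List Cert) (h : runK J b ps = true)
    (hb : 0 < b) (hR : RS 10 ((b : ℝ) / 2 ^ 20) ps.length (wl ps) (sl ps))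
    (hA : ∀ α ∈ Set.Ioc 0 ((b : ℝ) / 2 ^ 20), GoodOut Fa 10 α) (ha : 0 < (lastK J b ps).1) :
    RS 10 (((lastK J b ps).1 : ℝ) / 2 ^ 20) (lastK J b ps).2.length (wl (lastK J b ps).2) (sl (lastK J b ps).2) := by
  induction J generalizing b ps with
  | nil => exact hR
  | cons I J ih =>
    obtain ⟨h1, h2, h3⟩ := runK_cons h
    have h6 : lastK (I :: J) b ps = lastK J I.1 I.2.2 := rfl
    rw [h6] at ha ⊢
    have h7 := lastK_le J I.1 I.2.2 h3
    have hI : 0 < I.1 := by omega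
    obtain ⟨k1, k2, k3⟩ := intK_sound I.1 I.2.1 ps I.2.2 h2
    rw [h1] at k1
    have h5 := intK_lt h2
    have h20 : (0:ℝ) < 2 ^ 20 := by positivity
    have hI0 : (0:ℝ) < (I.1 : ℝ) / 2 ^ 20 := by
      have : (0:ℝ) < (I.1 : ℝ) := by exact_mod_cast hI
      positivity
    have hstep := RS.step hR k1 k2 k3 fun α hα => hA α ⟨hI0.trans_le hα.1, hα.2⟩
    exact ih I.1 I.2.2 h3 hI hstep (fun α hα => hA α ⟨hα.1, hα.2.trans k1.hab⟩) ha

/-- START: first interval, from `α = π` -/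
theorem start_sound (a b : ℕ) (ps cs : List Cert) (h : intK a b ps cs = true)
    (hb : Real.pi ≤ (b : ℝ) / 2 ^ 20) (ha : (a : ℝ) / 2 ^ 20 ≤ Real.pi) (ha0 : 0 < a)
    (hps : ∀ i < cs.length, ‖((-((2 * i + 1) * Real.pi / 4) : ℝ) : ℂ) - wl ps i‖ ≤ sl ps i)
    (hA : ∀ α ∈ Set.Ioc 0 Real.pi, GoodOut Fa 10 α) :
    RS 10 ((a : ℝ) / 2 ^ 20) cs.length (wl cs) (sl cs) := by
  obtain ⟨k1, k2, k3⟩ := intK_sound a b ps cs h
  have P : PieceOK 10 ((a : ℝ) / 2 ^ 20) Real.pi cs.length (wl cs) (sl cs) (Sl cs) := by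
    refine ⟨ha, k1.pos, fun i hi => ?_, k1.ord, k1.out⟩
    obtain ⟨αc, h', L, η, c1, c2, c3⟩ := k1.cert i hi
    exact ⟨αc, h', L, η, c1, c2, hb.trans c3⟩
  have hdist : ∀ i < cs.length, ‖((-((2 * i + 1) * Real.pi / 4) : ℝ) : ℂ) - wl cs i‖ < Sl cs i := by
    intro i hi
    have h1 := k3 i hi
    have h2 := hps i hi
    have h3 : ‖((-((2 * i + 1) * Real.pi / 4) : ℝ) : ℂ) - wl cs i‖ ≤
        ‖((-((2 * i + 1) * Real.pi / 4) : ℝ) : ℂ) - wl ps i‖ + ‖wl ps i - wl cs i‖ := by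
      have := norm_add_le (((-((2 * i + 1) * Real.pi / 4) : ℝ) : ℂ) - wl ps i) (wl ps i - wl cs i)
      rwa [sub_add_sub_cancel] at this
    linarith
  have hz0 : ∀ i : ℕ, z0 i = ((-((2 * i + 1) * Real.pi / 4) : ℝ) : ℂ) * cis (-(i * Real.pi)) := by
    intro i
    rw [cis_nat_pi]
    unfold z0
    push_cast
    ring
  have hN : (10:ℝ) ≤ (2 * cs.length - 1) * Real.pi / 4 := by
    have hP := P.piece
    have hpos := k1.pos
    obtain ⟨i, hi⟩ : ∃ i, i + 1 = cs.length := ⟨cs.length - 1, by omega⟩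
    have hπ : Real.pi ∈ Set.Icc ((a : ℝ) / 2 ^ 20) Real.pi := ⟨ha, le_rfl⟩
    obtain ⟨z, hz1, hz2⟩ := hP.ex Real.pi hπ i (by omega)
    have hb1 : z0 i ∈ Metric.ball (wl cs i * cis (-(i * Real.pi))) (Sl cs i) := by
      rw [Metric.mem_ball, dist_eq_norm, hz0, ← sub_mul, norm_rot]
      exact hdist i (by omega)
    have hb2 : z ∈ Metric.ball (wl cs i * cis (-(i * Real.pi))) (Sl cs i) :=
      lt_of_le_of_lt (Metric.mem_closedBall.1 hz1) (hP.lt i (by omega))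
    have heq := hP.uniq Real.pi hπ i (by omega) z hb2 (z0 i) hb1 hz2 ((Fa_pi_zero_iff _).2 ⟨i, rfl⟩)
    have hout := k1.out
    have hi' : cs.length - 1 = i := by omega
    rw [hi'] at hout
    rw [Metric.mem_closedBall, dist_eq_norm] at hz1
    have h5 := norm_sub_norm_le (wl cs i * cis (-(i * Real.pi))) z
    rw [norm_rot, norm_sub_rev] at h5
    have h6 : ‖z‖ = (2 * i + 1) * Real.pi / 4 := by rw [heq, norm_z0]
    have h7 : (2 * (cs.length : ℝ) - 1) = 2 * i + 1 := by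
      rw [← hi]
      push_cast
      ring
    rw [h7, ← h6]
    linarith
  have hs := RS.start (R0 := 10) (N := cs.length) k1.pos hN (hA Real.pi ⟨Real.pi_pos, le_rfl⟩)
  have ha' : (0:ℝ) < (a : ℝ) / 2 ^ 20 := by
    have : (0:ℝ) < (a : ℝ) := by exact_mod_cast ha0
    positivity
  refine RS.step hs P le_rfl (fun i hi => ?_) fun α hα => hA α ⟨ha'.trans_le hα.1, hα.2⟩
  rw [add_zero]
  exact hdist i hi

/-- END: the last endpoint is below `exp (-1) / 10` -/
theorem end_sound (a : ℕ) (cs : List Cert) (ha : a ≤ 38574)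
    (hR : RS 10 ((a : ℝ) / 2 ^ 20) cs.length (wl cs) (sl cs))
    (hA : ∀ α ∈ Set.Ioc 0 Real.pi, GoodOut Fa 10 α) : ∀ α ∈ Set.Ioc 0 Real.pi, Good Fa α := by
  refine good_arc (R0 := 10) (by norm_num) ?_ hR hA
  have h1 : (a : ℝ) ≤ 38574 := by exact_mod_cast ha
  have h2 := Real.exp_neg_one_gt_d9
  have h3 : (10:ℝ) * ((a : ℝ) / 2 ^ 20) ≤ 10 * (38574 / 2 ^ 20) := by
    have := div_le_div_of_nonneg_right h1 (show (0:ℝ) ≤ 2 ^ 20 by positivity)
    linarith
  refine lt_of_le_of_lt h3 (lt_trans ?_ h2)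
  norm_num

end SokB
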