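import Pool.Agent.Lib.MP_816dec_an.BData00
import Pool.Agent.Lib.MP_816dec_an.BData01
import Pool.Agent.Lib.MP_816dec_an.BData02
import Pool.Agent.Lib.MP_816dec_an.BData03
import Pool.Agent.Lib.MP_816dec_an.BData04
import Pool.Agent.Lib.MP_816dec_an.BData05
import Pool.Agent.Lib.MP_816dec_an.BData06
import Pool.Agent.Lib.MP_816dec_an.BData07
import Pool.Agent.Lib.MP_816dec_an.BData08
import Pool.Agent.Lib.MP_816dec_an.BData09
import Pool.Agent.Lib.MP_816dec_an.BData10
import Pool.Agent.Lib.MP_816dec_an.BData11
import Pool.Agent.Lib.MP_816dec_an.BData12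
import Pool.Agent.Lib.MP_816dec_an.BData13
import Pool.Agent.Lib.MP_816dec_an.BData14
import Pool.Agent.Lib.MP_816dec_an.BInt

/-!
MP_816dec_an, finite part: the whole chain. From `GoodOut Fa 10 α` for all `α` in `(0, π]` (no bad zeros
of modulus at least `10`) to `Good Fa α` for all `α` in `(0, π]`.
-/

set_option autoImplicit false

open Complex Set

namespace SokB

open Sok

/-- state of the chain -/
def StK (b : ℕ) (ps : List Cert) : Prop := RS 10 ((b : ℝ) / 2 ^ 20) ps.length (wl ps) (sl ps)

theorem chunk {J : List (ℕ × ℕ × List Cert)} {b : ℕ} {ps : List Cert} {b' : ℕ} {ps' : List Cert}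
    (hA : ∀ α ∈ Set.Ioc 0 Real.pi, GoodOut Fa 10 α) (h : runK J b ps = true)
    (hl : lastK J b ps = (b', ps')) (hb : 0 < b ∧ 0 < b' ∧ b ≤ 3294198) (hR : StK b ps) : StK b' ps' := by
  have hpi : (b : ℝ) / 2 ^ 20 ≤ Real.pi := by
    have h1 : (b : ℝ) ≤ 3294198 := by exact_mod_cast hb.2.2
    have h2 := Real.pi_gt_d20
    have h3 : (b : ℝ) / 2 ^ 20 ≤ 3294198 / 2 ^ 20 := div_le_div_of_nonneg_right h1 (by positivity)
    refine h3.trans (le_trans ?_ h2.le)
    norm_num
  have h1 := runK_sound J b ps h hb.1 hR (fun α hα => hA α ⟨hα.1, hα.2.trans hpi⟩) (by rw [hl]; exact hb.2.1)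
  rw [hl] at h1
  exact h1

/-- the starting centres -/
theorem start_close (i : ℕ) (hi : i < 12) :
    ‖((-((2 * i + 1) * Real.pi / 4) : ℝ) : ℂ) - wl P000 i‖ ≤ sl P000 i := by
  have h1 := Real.pi_gt_d6
  have h2 := Real.pi_lt_d6
  have key : ∀ (x : ℝ) (c : Cert), c.b = 2097152 → c.s = 2 →
      |x - ((c.a : ℝ) - 2 ^ 21) / 2 ^ 16| ≤ 2 / 2 ^ 16 → ‖(x : ℂ) - wof c‖ ≤ (c.s : ℝ) / 2 ^ 16 := by
    intro x c hb hs hx
    have e : (x : ℂ) - wof c = ((x - ((c.a : ℝ) - 2 ^ 21) / 2 ^ 16 : ℝ) : ℂ) := by
      have e2 : wof c = ((((c.a : ℝ) - 2 ^ 21) / 2 ^ 16 : ℝ) : ℂ) := by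
        unfold wof
        rw [hb]
        refine Complex.ext rfl ?_
        show (((2097152 : ℕ) : ℝ) - 2 ^ 21) / 2 ^ 16 = 0
        norm_num
      rw [e2, Complex.ofReal_sub]
    rw [e, Complex.norm_real, hs, Real.norm_eq_abs]
    exact_mod_cast hx
  interval_cases i <;>
  · refine key _ _ rfl rfl ?_
    simp only [P000, List.getD_cons_zero, List.getD_cons_succ]
    rw [abs_le]
    norm_num
    constructor <;> linarith

theorem s000 (hA : ∀ α ∈ Set.Ioc 0 Real.pi, GoodOut Fa 10 α) : StK 3294095 P001 := by
  refine start_sound 3294095 3294199 P000 P001 R000 ?_ ?_ (by norm_num) (fun i hi => start_close i hi) hA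
  · have h2 := Real.pi_lt_d20
    refine h2.le.trans ?_
    norm_num
  · have h2 := Real.pi_gt_d6
    refine le_trans ?_ h2.le
    norm_num

theorem m00 (hA : ∀ α ∈ Set.Ioc 0 Real.pi, GoodOut Fa 10 α) (h : StK 3294095 P001) : StK 3279295 E0 := by
  have h001 := chunk hA R001 L001 (by norm_num) h
  have h002 := chunk hA R002 L002 (by norm_num) h001
  have h003 := chunk hA R003 L003 (by norm_num) h002
  have h004 := chunk hA R004 L004 (by norm_num) h003
  have h005 := chunk hA R005 L005 (by norm_num) h004
  have h006 := chunk hA R006 L006 (by norm_num) h005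
  have h007 := chunk hA R007 L007 (by norm_num) h006
  have h008 := chunk hA R008 L008 (by norm_num) h007
  have h009 := chunk hA R009 L009 (by norm_num) h008
  have h010 := chunk hA R010 L010 (by norm_num) h009
  exact h010

theorem m01 (hA : ∀ α ∈ Set.Ioc 0 Real.pi, GoodOut Fa 10 α) (h : StK 3279295 P011) : StK 3261479 E1 := by
  have h011 := chunk hA R011 L011 (by norm_num) h
  have h012 := chunk hA R012 L012 (by norm_num) h011
  have h013 := chunk hA R013 L013 (by norm_num) h012
  have h014 := chunk hA R014 L014 (by norm_num) h013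
  have h015 := chunk hA R015 L015 (by norm_num) h014
  have h016 := chunk hA R016 L016 (by norm_num) h015
  have h017 := chunk hA R017 L017 (by norm_num) h016
  have h018 := chunk hA R018 L018 (by norm_num) h017
  have h019 := chunk hA R019 L019 (by norm_num) h018
  have h020 := chunk hA R020 L020 (by norm_num) h019
  have h021 := chunk hA R021 L021 (by norm_num) h020
  exact h021

theorem m02 (hA : ∀ α ∈ Set.Ioc 0 Real.pi, GoodOut Fa 10 α) (h : StK 3261479 P022) : StK 3217439 E2 := by
  have h022 := chunk hA R022 L022 (by norm_num) h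
  have h023 := chunk hA R023 L023 (by norm_num) h022
  have h024 := chunk hA R024 L024 (by norm_num) h023
  have h025 := chunk hA R025 L025 (by norm_num) h024
  have h026 := chunk hA R026 L026 (by norm_num) h025
  have h027 := chunk hA R027 L027 (by norm_num) h026
  have h028 := chunk hA R028 L028 (by norm_num) h027
  have h029 := chunk hA R029 L029 (by norm_num) h028
  have h030 := chunk hA R030 L030 (by norm_num) h029
  have h031 := chunk hA R031 L031 (by norm_num) h030
  have h032 := chunk hA R032 L032 (by norm_num) h031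
  exact h032

theorem m03 (hA : ∀ α ∈ Set.Ioc 0 Real.pi, GoodOut Fa 10 α) (h : StK 3217439 P033) : StK 2730653 E3 := by
  have h033 := chunk hA R033 L033 (by norm_num) h
  have h034 := chunk hA R034 L034 (by norm_num) h033
  have h035 := chunk hA R035 L035 (by norm_num) h034
  have h036 := chunk hA R036 L036 (by norm_num) h035
  have h037 := chunk hA R037 L037 (by norm_num) h036
  have h038 := chunk hA R038 L038 (by norm_num) h037
  have h039 := chunk hA R039 L039 (by norm_num) h038
  have h040 := chunk hA R040 L040 (by norm_num) h039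
  have h041 := chunk hA R041 L041 (by norm_num) h040
  have h042 := chunk hA R042 L042 (by norm_num) h041
  have h043 := chunk hA R043 L043 (by norm_num) h042
  exact h043

theorem m04 (hA : ∀ α ∈ Set.Ioc 0 Real.pi, GoodOut Fa 10 α) (h : StK 2730653 P044) : StK 2242287 E4 := by
  have h044 := chunk hA R044 L044 (by norm_num) h
  have h045 := chunk hA R045 L045 (by norm_num) h044
  have h046 := chunk hA R046 L046 (by norm_num) h045
  have h047 := chunk hA R047 L047 (by norm_num) h046
  have h048 := chunk hA R048 L048 (by norm_num) h047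
  have h049 := chunk hA R049 L049 (by norm_num) h048
  have h050 := chunk hA R050 L050 (by norm_num) h049
  have h051 := chunk hA R051 L051 (by norm_num) h050
  have h052 := chunk hA R052 L052 (by norm_num) h051
  have h053 := chunk hA R053 L053 (by norm_num) h052
  have h054 := chunk hA R054 L054 (by norm_num) h053
  exact h054

theorem m05 (hA : ∀ α ∈ Set.Ioc 0 Real.pi, GoodOut Fa 10 α) (h : StK 2242287 P055) : StK 2115981 E5 := by
  have h055 := chunk hA R055 L055 (by norm_num) h
  have h056 := chunk hA R056 L056 (by norm_num) h055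
  have h057 := chunk hA R057 L057 (by norm_num) h056
  have h058 := chunk hA R058 L058 (by norm_num) h057
  have h059 := chunk hA R059 L059 (by norm_num) h058
  have h060 := chunk hA R060 L060 (by norm_num) h059
  have h061 := chunk hA R061 L061 (by norm_num) h060
  have h062 := chunk hA R062 L062 (by norm_num) h061
  have h063 := chunk hA R063 L063 (by norm_num) h062
  have h064 := chunk hA R064 L064 (by norm_num) h063
  have h065 := chunk hA R065 L065 (by norm_num) h064
  exact h065

theorem m06 (hA : ∀ α ∈ Set.Ioc 0 Real.pi, GoodOut Fa 10 α) (h : StK 2115981 P066) : StK 1616073 E6 := by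
  have h066 := chunk hA R066 L066 (by norm_num) h
  have h067 := chunk hA R067 L067 (by norm_num) h066
  have h068 := chunk hA R068 L068 (by norm_num) h067
  have h069 := chunk hA R069 L069 (by norm_num) h068
  have h070 := chunk hA R070 L070 (by norm_num) h069
  have h071 := chunk hA R071 L071 (by norm_num) h070
  have h072 := chunk hA R072 L072 (by norm_num) h071
  have h073 := chunk hA R073 L073 (by norm_num) h072
  have h074 := chunk hA R074 L074 (by norm_num) h073
  have h075 := chunk hA R075 L075 (by norm_num) h074
  have h076 := chunk hA R076 L076 (by norm_num) h075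
  exact h076

theorem m07 (hA : ∀ α ∈ Set.Ioc 0 Real.pi, GoodOut Fa 10 α) (h : StK 1616073 P077) : StK 1029979 E7 := by
  have h077 := chunk hA R077 L077 (by norm_num) h
  have h078 := chunk hA R078 L078 (by norm_num) h077
  have h079 := chunk hA R079 L079 (by norm_num) h078
  have h080 := chunk hA R080 L080 (by norm_num) h079
  have h081 := chunk hA R081 L081 (by norm_num) h080
  have h082 := chunk hA R082 L082 (by norm_num) h081
  have h083 := chunk hA R083 L083 (by norm_num) h082
  have h084 := chunk hA R084 L084 (by norm_num) h083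
  have h085 := chunk hA R085 L085 (by norm_num) h084
  have h086 := chunk hA R086 L086 (by norm_num) h085
  have h087 := chunk hA R087 L087 (by norm_num) h086
  exact h087

theorem m08 (hA : ∀ α ∈ Set.Ioc 0 Real.pi, GoodOut Fa 10 α) (h : StK 1029979 P088) : StK 274439 E8 := by
  have h088 := chunk hA R088 L088 (by norm_num) h
  have h089 := chunk hA R089 L089 (by norm_num) h088
  have h090 := chunk hA R090 L090 (by norm_num) h089
  have h091 := chunk hA R091 L091 (by norm_num) h090
  have h092 := chunk hA R092 L092 (by norm_num) h091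
  have h093 := chunk hA R093 L093 (by norm_num) h092
  have h094 := chunk hA R094 L094 (by norm_num) h093
  have h095 := chunk hA R095 L095 (by norm_num) h094
  have h096 := chunk hA R096 L096 (by norm_num) h095
  have h097 := chunk hA R097 L097 (by norm_num) h096
  have h098 := chunk hA R098 L098 (by norm_num) h097
  exact h098

theorem m09 (hA : ∀ α ∈ Set.Ioc 0 Real.pi, GoodOut Fa 10 α) (h : StK 274439 P099) : StK 146161 E9 := by
  have h099 := chunk hA R099 L099 (by norm_num) h
  have h100 := chunk hA R100 L100 (by norm_num) h099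
  have h101 := chunk hA R101 L101 (by norm_num) h100
  have h102 := chunk hA R102 L102 (by norm_num) h101
  have h103 := chunk hA R103 L103 (by norm_num) h102
  have h104 := chunk hA R104 L104 (by norm_num) h103
  have h105 := chunk hA R105 L105 (by norm_num) h104
  have h106 := chunk hA R106 L106 (by norm_num) h105
  have h107 := chunk hA R107 L107 (by norm_num) h106
  have h108 := chunk hA R108 L108 (by norm_num) h107
  have h109 := chunk hA R109 L109 (by norm_num) h108
  exact h109

theorem m10 (hA : ∀ α ∈ Set.Ioc 0 Real.pi, GoodOut Fa 10 α) (h : StK 146161 P110) : StK 95155 E10 := by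
  have h110 := chunk hA R110 L110 (by norm_num) h
  have h111 := chunk hA R111 L111 (by norm_num) h110
  have h112 := chunk hA R112 L112 (by norm_num) h111
  have h113 := chunk hA R113 L113 (by norm_num) h112
  have h114 := chunk hA R114 L114 (by norm_num) h113
  have h115 := chunk hA R115 L115 (by norm_num) h114
  have h116 := chunk hA R116 L116 (by norm_num) h115
  have h117 := chunk hA R117 L117 (by norm_num) h116
  have h118 := chunk hA R118 L118 (by norm_num) h117
  have h119 := chunk hA R119 L119 (by norm_num) h118
  have h120 := chunk hA R120 L120 (by norm_num) h119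
  exact h120

theorem m11 (hA : ∀ α ∈ Set.Ioc 0 Real.pi, GoodOut Fa 10 α) (h : StK 95155 P121) : StK 70093 E11 := by
  have h121 := chunk hA R121 L121 (by norm_num) h
  have h122 := chunk hA R122 L122 (by norm_num) h121
  have h123 := chunk hA R123 L123 (by norm_num) h122
  have h124 := chunk hA R124 L124 (by norm_num) h123
  have h125 := chunk hA R125 L125 (by norm_num) h124
  have h126 := chunk hA R126 L126 (by norm_num) h125
  have h127 := chunk hA R127 L127 (by norm_num) h126
  have h128 := chunk hA R128 L128 (by norm_num) h127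
  have h129 := chunk hA R129 L129 (by norm_num) h128
  have h130 := chunk hA R130 L130 (by norm_num) h129
  have h131 := chunk hA R131 L131 (by norm_num) h130
  exact h131

theorem m12 (hA : ∀ α ∈ Set.Ioc 0 Real.pi, GoodOut Fa 10 α) (h : StK 70093 P132) : StK 55277 E12 := by
  have h132 := chunk hA R132 L132 (by norm_num) h
  have h133 := chunk hA R133 L133 (by norm_num) h132
  have h134 := chunk hA R134 L134 (by norm_num) h133
  have h135 := chunk hA R135 L135 (by norm_num) h134
  have h136 := chunk hA R136 L136 (by norm_num) h135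
  have h137 := chunk hA R137 L137 (by norm_num) h136
  have h138 := chunk hA R138 L138 (by norm_num) h137
  have h139 := chunk hA R139 L139 (by norm_num) h138
  have h140 := chunk hA R140 L140 (by norm_num) h139
  have h141 := chunk hA R141 L141 (by norm_num) h140
  have h142 := chunk hA R142 L142 (by norm_num) h141
  exact h142

theorem m13 (hA : ∀ α ∈ Set.Ioc 0 Real.pi, GoodOut Fa 10 α) (h : StK 55277 P143) : StK 44291 E13 := by
  have h143 := chunk hA R143 L143 (by norm_num) h
  have h144 := chunk hA R144 L144 (by norm_num) h143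
  have h145 := chunk hA R145 L145 (by norm_num) h144
  have h146 := chunk hA R146 L146 (by norm_num) h145
  have h147 := chunk hA R147 L147 (by norm_num) h146
  have h148 := chunk hA R148 L148 (by norm_num) h147
  have h149 := chunk hA R149 L149 (by norm_num) h148
  have h150 := chunk hA R150 L150 (by norm_num) h149
  have h151 := chunk hA R151 L151 (by norm_num) h150
  have h152 := chunk hA R152 L152 (by norm_num) h151
  have h153 := chunk hA R153 L153 (by norm_num) h152
  exact h153

theorem m14 (hA : ∀ α ∈ Set.Ioc 0 Real.pi, GoodOut Fa 10 α) (h : StK 44291 P154) : StK 38553 E14 := by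
  have h154 := chunk hA R154 L154 (by norm_num) h
  have h155 := chunk hA R155 L155 (by norm_num) h154
  have h156 := chunk hA R156 L156 (by norm_num) h155
  have h157 := chunk hA R157 L157 (by norm_num) h156
  have h158 := chunk hA R158 L158 (by norm_num) h157
  have h159 := chunk hA R159 L159 (by norm_num) h158
  have h160 := chunk hA R160 L160 (by norm_num) h159
  have h161 := chunk hA R161 L161 (by norm_num) h160
  exact h161

theorem finalSt (hA : ∀ α ∈ Set.Ioc 0 Real.pi, GoodOut Fa 10 α) : StK 38553 E14 := by
  have h00 := m00 hA (s000 hA)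
  have e00 : E0 = P011 := rfl
  rw [e00] at h00
  have h01 := m01 hA h00
  have e01 : E1 = P022 := rfl
  rw [e01] at h01
  have h02 := m02 hA h01
  have e02 : E2 = P033 := rfl
  rw [e02] at h02
  have h03 := m03 hA h02
  have e03 : E3 = P044 := rfl
  rw [e03] at h03
  have h04 := m04 hA h03
  have e04 : E4 = P055 := rfl
  rw [e04] at h04
  have h05 := m05 hA h04
  have e05 : E5 = P066 := rfl
  rw [e05] at h05
  have h06 := m06 hA h05
  have e06 : E6 = P077 := rfl
  rw [e06] at h06
  have h07 := m07 hA h06
  have e07 : E7 = P088 := rfl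
  rw [e07] at h07
  have h08 := m08 hA h07
  have e08 : E8 = P099 := rfl
  rw [e08] at h08
  have h09 := m09 hA h08
  have e09 : E9 = P110 := rfl
  rw [e09] at h09
  have h10 := m10 hA h09
  have e10 : E10 = P121 := rfl
  rw [e10] at h10
  have h11 := m11 hA h10
  have e11 : E11 = P132 := rfl
  rw [e11] at h11
  have h12 := m12 hA h11
  have e12 : E12 = P143 := rfl
  rw [e12] at h12
  have h13 := m13 hA h12
  have e13 : E13 = P154 := rfl
  rw [e13] at h13
  have h14 := m14 hA h13
  exact h14

/-- B, as needed by `SokC.top` -/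
theorem reach_final (hA : ∀ α ∈ Set.Ioc 0 Real.pi, GoodOut Fa 10 α) :
    ∃ (a : ℝ) (N : ℕ) (c : ℕ → ℂ) (s : ℕ → ℝ), Reach 10 a N c s ∧ 10 * a < Real.exp (-1) := by
  refine ⟨_, _, _, _, finalSt hA, ?_⟩
  refine lt_trans ?_ Real.exp_neg_one_gt_d9
  norm_num

/-- the finite part -/
theorem finite_part (hA : ∀ α ∈ Set.Ioc 0 Real.pi, GoodOut Fa 10 α) : ∀ α ∈ Set.Ioc 0 Real.pi, Good Fa α :=
  end_sound 38553 E14 (by norm_num) (finalSt hA) hA

end SokB
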