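import Mathlib.Data.Nat.Notation

/-!
MP_816dec_an, finite part: the functions evaluated by the kernel (natural numbers only, raw recursors
for speed). Fixed point: `x` stands for the real number `(x - 2^144) / 2^112`. Packing base
`X = 2^320`, `Y = X^9`. No proofs in this file.
-/

set_option autoImplicit false

namespace SokB

/-- real part of product, offset form, divided by D -/
def gre (X1 Y1 X2 Y2 D : ℕ) : ℕ :=
  Nat.div (Nat.sub (Nat.add (Nat.add (Nat.mul X1 X2) (Nat.mul (nat_lit 22300745198530623141535718272648361505980416) (Nat.add Y1 Y2)))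
    (Nat.mul (nat_lit 22300745198530623141535718272648361505980416) D))
    (Nat.add (Nat.mul Y1 Y2) (Nat.mul (nat_lit 22300745198530623141535718272648361505980416) (Nat.add X1 X2)))) D

/-- imaginary part of product, offset form, divided by D -/
def gim (X1 Y1 X2 Y2 D : ℕ) : ℕ :=
  Nat.div (Nat.sub (Nat.add (Nat.add (Nat.mul X1 Y2) (Nat.mul Y1 X2)) (Nat.mul (nat_lit 22300745198530623141535718272648361505980416) (Nat.add D (nat_lit 44601490397061246283071436545296723011960832))))
    (Nat.mul (nat_lit 22300745198530623141535718272648361505980416) (Nat.add (Nat.add X1 Y2) (Nat.add Y1 X2)))) D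

/-- sum of w^k/k!, k < n -/
noncomputable def qsum (Wx Wy : ℕ) (n : ℕ) : ℕ → ℕ → ℕ → ℕ → ℕ → ℕ × ℕ :=
  Nat.rec (motive := fun _ => ℕ → ℕ → ℕ → ℕ → ℕ → ℕ × ℕ)
    (fun _ _ _ Sx Sy => (Sx, Sy))
    (fun _ ih k Ux Uy Sx Sy => ih (Nat.succ k)
       (gre Ux Uy Wx Wy (Nat.mul (nat_lit 5192296858534827628530496329220096) (Nat.succ k)))
       (gim Ux Uy Wx Wy (Nat.mul (nat_lit 5192296858534827628530496329220096) (Nat.succ k)))
       (Nat.sub (Nat.add Sx Ux) (nat_lit 22300745198530623141535718272648361505980416))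
       (Nat.sub (Nat.add Sy Uy) (nat_lit 22300745198530623141535718272648361505980416))) n

/-- list of T_j, j < n -/
noncomputable def mkT (qx qy : ℕ) (n : ℕ) : ℕ → ℕ → ℕ → ℕ → List (ℕ × ℕ) :=
  Nat.rec (motive := fun _ => ℕ → ℕ → ℕ → ℕ → List (ℕ × ℕ))
    (fun _ _ _ _ => [])
    (fun _ ih Tx Ty Qx Qy => (Tx, Ty) :: ih
       (gre Tx Ty Qx Qy (nat_lit 5192296858534827628530496329220096))
       (gim Tx Ty Qx Qy (nat_lit 5192296858534827628530496329220096))
       (gre Qx Qy qx qy (nat_lit 5192296858534827628530496329220096))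
       (gim Qx Qy qx qy (nat_lit 5192296858534827628530496329220096))) n

/-- E_j : (e, sum_{t ≤ 8} (e X)^t), e = j (j+1)/2 -/
noncomputable def mkE (n : ℕ) : ℕ → ℕ → List (ℕ × ℕ) :=
  Nat.rec (motive := fun _ => ℕ → ℕ → List (ℕ × ℕ))
    (fun _ _ => [])
    (fun _ ih j e => (e, Nat.rec (motive := fun _ => ℕ) 1
        (fun _ r => Nat.add (Nat.mul r (Nat.mul e (Nat.pow 2 320))) 1) 8) :: ih (Nat.succ j) (Nat.add e (Nat.succ j))) n

/-- B_k = sum_{s ≤ 8} C(k,s) Y^s -/
noncomputable def mkB (n : ℕ) : ℕ → List ℕ :=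
  Nat.rec (motive := fun _ => ℕ → List ℕ)
    (fun _ => [])
    (fun _ ih b => b :: ih (Nat.mod (Nat.add b (Nat.mul b (Nat.pow 2 2880))) (Nat.pow 2 25920))) n

/-- table of the E_j -/
noncomputable def tabE : List (ℕ × ℕ) := mkE 70 0 0
/-- table of the B_k -/
noncomputable def tabB : List ℕ := mkB 70 1

/-- main loop over k (n steps) -/
noncomputable def loop (Wx Wy w' sg2 H : ℕ) (n : ℕ) :
    List ℕ → List (ℕ × ℕ) → List (ℕ × ℕ) → ℕ → ℕ → ℕ → ℕ → ℕ → ℕ → ℕ → ℕ → ℕ → (ℕ → ℕ → ℕ → ℕ → ℕ → Bool) → Bool :=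
  Nat.rec (motive := fun _ => List ℕ → List (ℕ × ℕ) → List (ℕ × ℕ) → ℕ → ℕ → ℕ → ℕ → ℕ → ℕ → ℕ → ℕ → ℕ → (ℕ → ℕ → ℕ → ℕ → ℕ → Bool) → Bool)
    (fun _ _ _ _ _ _ V _ ax ay aw rem c => c ax ay aw rem V)
    (fun _ ih LB LT LE k Ux Uy V ks ax ay aw rem c =>
      List.rec (motive := fun _ => Bool) false (fun b LB' _ =>
       List.rec (motive := fun _ => Bool) false (fun t LT' _ =>
        List.rec (motive := fun _ => Bool) false (fun e LE' _ =>
          ih LB' LT' LE' (Nat.succ k)
           (gre Ux Uy Wx Wy (Nat.mul (nat_lit 5192296858534827628530496329220096) (Nat.succ k)))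
           (gim Ux Uy Wx Wy (Nat.mul (nat_lit 5192296858534827628530496329220096) (Nat.succ k)))
           (Nat.succ (Nat.div (Nat.mul V w') (Nat.mul (nat_lit 65536) (Nat.succ k))))
           (Nat.add ks sg2)
           (Nat.add ax (Nat.mul (gre Ux Uy t.1 t.2 (nat_lit 5192296858534827628530496329220096)) (Nat.mul b e.2)))
           (Nat.add ay (Nat.mul (gim Ux Uy t.1 t.2 (nat_lit 5192296858534827628530496329220096)) (Nat.mul b e.2)))
           (Nat.add aw (Nat.mul b e.2))
           (Nat.add rem (Nat.mul (Nat.mul (Nat.succ k) V) (Nat.mul (Nat.pow (Nat.add ks (Nat.mul H e.1)) (nat_lit 8))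
              (Nat.pow (nat_lit 2) (Nat.succ (Nat.div (Nat.mul (nat_lit 3) (Nat.add ks (Nat.mul H e.1))) (nat_lit 4194304)))))))
           c) LE) LT) LB) n

/-- bound of one coefficient (scaled by 1024), digits at the bottom -/
def coef (x y w : ℕ) (eps : ℕ) : ℕ :=
  Nat.add (Nat.add
    (Nat.mul (nat_lit 725) (Nat.add (Nat.add (Nat.sub x (Nat.mul (nat_lit 22300745198530623141535718272648361505980416) w)) (Nat.sub (Nat.mul (nat_lit 22300745198530623141535718272648361505980416) w) x))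
       (Nat.add (Nat.sub y (Nat.mul (nat_lit 22300745198530623141535718272648361505980416) w)) (Nat.sub (Nat.mul (nat_lit 22300745198530623141535718272648361505980416) w) y))))
    (Nat.mul (nat_lit 300) (Nat.add
      (Nat.sub (Nat.add (Nat.sub x (Nat.mul (nat_lit 22300745198530623141535718272648361505980416) w)) (Nat.sub (Nat.mul (nat_lit 22300745198530623141535718272648361505980416) w) x))
       (Nat.add (Nat.sub y (Nat.mul (nat_lit 22300745198530623141535718272648361505980416) w)) (Nat.sub (Nat.mul (nat_lit 22300745198530623141535718272648361505980416) w) y)))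
      (Nat.sub (Nat.add (Nat.sub y (Nat.mul (nat_lit 22300745198530623141535718272648361505980416) w)) (Nat.sub (Nat.mul (nat_lit 22300745198530623141535718272648361505980416) w) y))
       (Nat.add (Nat.sub x (Nat.mul (nat_lit 22300745198530623141535718272648361505980416) w)) (Nat.sub (Nat.mul (nat_lit 22300745198530623141535718272648361505980416) w) x))))))
    (Nat.mul eps w)

/-- Horner in t -/
noncomputable def hort (H eps : ℕ) (n : ℕ) : ℕ → ℕ → ℕ → ℕ → ℕ :=
  Nat.rec (motive := fun _ => ℕ → ℕ → ℕ → ℕ → ℕ) (fun _ _ _ _ => 0)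
    (fun _ ih t x y w =>
      Nat.add (coef (Nat.mod x (nat_lit 2135987035920910082395021706169552114602704522356652769947041607822219725780640550022962086936576)) (Nat.mod y (nat_lit 2135987035920910082395021706169552114602704522356652769947041607822219725780640550022962086936576)) (Nat.mod w (nat_lit 2135987035920910082395021706169552114602704522356652769947041607822219725780640550022962086936576)) eps)
        (Nat.succ (Nat.div (Nat.mul H (ih (Nat.succ t) (Nat.div x (nat_lit 2135987035920910082395021706169552114602704522356652769947041607822219725780640550022962086936576))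
          (Nat.div y (nat_lit 2135987035920910082395021706169552114602704522356652769947041607822219725780640550022962086936576)) (Nat.div w (nat_lit 2135987035920910082395021706169552114602704522356652769947041607822219725780640550022962086936576))))
          (Nat.mul (nat_lit 2097152) (Nat.succ t))))) n

/-- row base -/
noncomputable def Y : ℕ := Nat.pow 2 2880

/-- Horner in s; rows s+1 -/
noncomputable def hors (sg H eps : ℕ) (n : ℕ) : ℕ → ℕ → ℕ → ℕ → ℕ :=
  Nat.rec (motive := fun _ => ℕ → ℕ → ℕ → ℕ → ℕ) (fun _ _ _ _ => 0)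
    (fun m ih s x y w =>
      Nat.add (Nat.mul (Nat.succ s) (hort H eps (Nat.succ m) 0 (Nat.mod x Y) (Nat.mod y Y) (Nat.mod w Y)))
        (Nat.succ (Nat.div (Nat.mul sg (ih (Nat.succ s) (Nat.div x Y) (Nat.div y Y) (Nat.div w Y)))
          (nat_lit 1048576)))) n


/-- check x <= y, then continue -/
noncomputable def le1 (x y : ℕ) (c : Bool) : Bool := Bool.rec (motive := fun _ => Bool) false c (Nat.ble x y)

/-- a certificate: centre `w0 = ((a - 2^21) + (b - 2^21) I) / 2^16`, `r / 2^16 ≤ |w0| < (r + 1) / 2^16`,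
outer radius `S / 2^16`, inner radius `s / 2^16`, `S / 2^16 ≤ |w0| * sg / 2^20`, truncation `K`,
`η = e / 64` -/
structure Cert where
  a : ℕ
  b : ℕ
  r : ℕ
  S : ℕ
  s : ℕ
  sg : ℕ
  K : ℕ
  e : ℕ

/-- absolute difference -/
def ad (x y : ℕ) : ℕ := Nat.add (Nat.sub x y) (Nat.sub y x)

/-- square -/
def sq (x : ℕ) : ℕ := Nat.mul x x

/-- packing base -/
noncomputable def XX : ℕ := Nat.pow 2 320
/-- offset -/
noncomputable def CC : ℕ := Nat.pow 2 144

/-- the two inequalities of a certificate -/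
noncomputable def final (H w' : ℕ) (c : Cert) (ax ay aw rem V : ℕ) : Bool :=
  (fun RemT : ℕ =>
    (fun x1 y1 w1 : ℕ =>
      (fun l2 b0 b1 : ℕ =>
        le1 1 l2 (le1 (sq (Nat.mul 64 b1)) (Nat.mul (sq (Nat.mul 1024 c.e)) l2)
          (le1 (Nat.mul (sq (Nat.mul 64 b0)) (Nat.add (sq (ad c.a 2097152)) (sq (ad c.b 2097152))))
            (Nat.mul (sq (Nat.mul (Nat.mul (Nat.sub 64 c.e) 1024) c.s)) l2) true)))
      (Nat.add (sq (ad x1 (Nat.mul CC w1))) (sq (ad y1 (Nat.mul CC w1))))
      (Nat.add (hort H 1180591620717411303424 8 0 (Nat.mod ax Y) (Nat.mod ay Y) (Nat.mod aw Y)) RemT)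
      (Nat.add (Nat.sub (hors c.sg H 1180591620717411303424 8 0 (Nat.div ax Y) (Nat.div ay Y) (Nat.div aw Y)) (coef x1 y1 w1 0)) RemT))
    (Nat.mod (Nat.div ax Y) XX) (Nat.mod (Nat.div ay Y) XX) (Nat.mod (Nat.div aw Y) XX))
  (Nat.mul 288230376151711744 (Nat.add (Nat.succ (Nat.succ (Nat.div rem (Nat.mul 40320 (Nat.pow 2 168)))))
    (Nat.div (Nat.mul (Nat.mul V (sq (Nat.succ c.K))) 65536) (Nat.sub (Nat.mul 65536 (Nat.succ c.K)) w'))))

/-- check of one certificate; `LT`, `LE` are the rotated lists -/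
noncomputable def certK (LT LE : List (ℕ × ℕ)) (H : ℕ) (c : Cert) : Bool :=
  le1 c.K 69 (le1 (Nat.succ c.r) 1212416 (le1 (sq c.r) (Nat.add (sq (ad c.a 2097152)) (sq (ad c.b 2097152)))
  (le1 (Nat.succ (Nat.add (sq (ad c.a 2097152)) (sq (ad c.b 2097152)))) (sq (Nat.succ c.r))
  (le1 (Nat.mul c.S 1048576) (Nat.mul c.sg c.r)
  (le1 (Nat.succ c.s) c.S
  (le1 (Nat.succ c.e) 64
  (le1 1 c.r
  ((fun w' : ℕ => le1 (Nat.succ w') (Nat.mul 65536 (Nat.succ c.K))
    (loop (Nat.add (Nat.mul c.a (Nat.pow 2 96)) (Nat.sub (Nat.pow 2 144) (Nat.pow 2 117)))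
     (Nat.add (Nat.mul c.b (Nat.pow 2 96)) (Nat.sub (Nat.pow 2 144) (Nat.pow 2 117))) w' (Nat.mul 2 c.sg) H (Nat.succ c.K)
     tabB LT LE 0 (Nat.add (Nat.pow 2 144) (Nat.pow 2 112)) (Nat.pow 2 144) (Nat.pow 2 64) 0 0 0 0 0
     (final H w' c)))
   (Nat.succ (Nat.div (Nat.mul (Nat.succ c.r) (Nat.add 1048576 c.sg)) 1048576))))))))))

/-- all certificates of one interval -/
noncomputable def certsK (H : ℕ) (cs : List Cert) :
    List Cert → List (ℕ × ℕ) → List (ℕ × ℕ) → List (ℕ × ℕ) → List (ℕ × ℕ) → ℕ → ℕ → Bool :=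
  List.rec (motive := fun _ => List Cert → List (ℕ × ℕ) → List (ℕ × ℕ) → List (ℕ × ℕ) → List (ℕ × ℕ) → ℕ → ℕ → Bool)
    (fun _ _ _ _ _ r0 s0 => le1 (Nat.add 655360 s0) r0 true)
    (fun c _ ih ps RT rT RE rE r0 s0 =>
      List.rec (motive := fun _ => Bool) false (fun p ps' _ =>
       List.rec (motive := fun _ => Bool) false (fun t rT' _ =>
        List.rec (motive := fun _ => Bool) false (fun e rE' _ =>
          le1 (Nat.succ p.s) c.S
          (le1 (Nat.succ (Nat.add (sq (ad c.a p.a)) (sq (ad c.b p.b)))) (sq (Nat.sub c.S p.s))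
          (le1 (Nat.add (Nat.add (Nat.succ r0) s0) c.s) c.r
          (Bool.rec (motive := fun _ => Bool) false
            (ih ps' (t :: RT) rT' (e :: RE) rE' c.r c.s)
            (certK (t :: RT) (e :: RE) H c))))) rE) rT) ps) cs

/-- check of one interval `[a / 2^20, b / 2^20]`; `ps` are the certificates of the previous interval -/
noncomputable def intK (a b : ℕ) (ps cs : List Cert) : Bool :=
  le1 (Nat.succ a) b (le1 (Nat.add a b) 6600000 ((fun A : ℕ => (fun q : ℕ × ℕ => (fun T : List (ℕ × ℕ) =>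
    certsK (Nat.sub b a) cs ps T T tabE tabE 0 0)
    (mkT q.1 q.2 70 (Nat.add (Nat.pow 2 144) (Nat.pow 2 112)) (Nat.pow 2 144) q.1 q.2))
    (qsum (Nat.pow 2 144) (Nat.add (Nat.pow 2 144) (Nat.mul A (Nat.pow 2 91))) 44 0 (Nat.add (Nat.pow 2 144) (Nat.pow 2 112)) (Nat.pow 2 144) (Nat.pow 2 144) (Nat.pow 2 144)))
  (Nat.add a b)))

/-- a list of intervals `(a, b, certificates)`, in the order of decreasing `α` -/
noncomputable def runK (J : List (ℕ × ℕ × List Cert)) : ℕ → List Cert → Bool :=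
  List.rec (motive := fun _ => ℕ → List Cert → Bool) (fun _ _ => true)
    (fun I _ ih b ps => Bool.rec (motive := fun _ => Bool) false
      (Bool.rec (motive := fun _ => Bool) false (ih I.1 I.2.2) (intK I.1 I.2.1 ps I.2.2))
      (Nat.beq I.2.1 b)) J

/-- last endpoint and last certificates -/
def lastK (J : List (ℕ × ℕ × List Cert)) (b : ℕ) (ps : List Cert) : ℕ × List Cert :=
  J.foldl (fun _ I => (I.1, I.2.2)) (b, ps)

end SokB
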