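import Pool.Agent.Lib.MP_816dec_an.BKer
import Pool.Agent.Lib.MP_816dec_an.BDefs

/-!
MP_816dec_an, finite part: definitions used in the soundness proofs of the kernel functions.
-/

set_option autoImplicit false

open Complex Finset

namespace SokB

/-! ### Row FP: fixed point arithmetic -/

/-- the complex number of a pair -/
noncomputable def cv (x y : ℕ) : ℂ := ⟨((x : ℝ) - 2 ^ 144) / 2 ^ 112, ((y : ℝ) - 2 ^ 144) / 2 ^ 112⟩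

/-- `x + i y` approximates `z` up to `ε` units `2^(-112)` -/
def Ap (x y : ℕ) (z : ℂ) (ε : ℝ) : Prop := ‖cv x y - z‖ * 2 ^ 112 ≤ ε

/-- the kernel's `q` for `α = A / 2^21` -/
noncomputable def qq (A : ℕ) : ℕ × ℕ :=
  qsum (2 ^ 144) (2 ^ 144 + A * 2 ^ 91) 44 0 (2 ^ 144 + 2 ^ 112) (2 ^ 144) (2 ^ 144) (2 ^ 144)

/-- the kernel's list `T` -/
noncomputable def TT (qx qy : ℕ) : List (ℕ × ℕ) := mkT qx qy 70 (2 ^ 144 + 2 ^ 112) (2 ^ 144) qx qy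

/-- the sequence `U_k` of the main loop -/
noncomputable def Useq (Wx Wy : ℕ) : ℕ → ℕ × ℕ
  | 0 => (2 ^ 144 + 2 ^ 112, 2 ^ 144)
  | k + 1 => (gre (Useq Wx Wy k).1 (Useq Wx Wy k).2 Wx Wy (2 ^ 112 * (k + 1)),
      gim (Useq Wx Wy k).1 (Useq Wx Wy k).2 Wx Wy (2 ^ 112 * (k + 1)))

/-- the sequence `V_k` of the main loop -/
def Vseq (w' : ℕ) : ℕ → ℕ
  | 0 => 2 ^ 64
  | k + 1 => Vseq w' k * w' / (65536 * (k + 1)) + 1

/-- packed number of a table of digits -/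
def packed (D : ℕ → ℕ → ℕ) : ℕ := ∑ s ∈ range 9, ∑ t ∈ range 9, D s t * (2 ^ 320) ^ (9 * s + t)

/-- accumulated sums -/
noncomputable def AX (Wx Wy : ℕ) (LB : List ℕ) (LT LE : List (ℕ × ℕ)) (k : ℕ) : ℕ :=
  ∑ j ∈ range k, gre (Useq Wx Wy j).1 (Useq Wx Wy j).2 (LT.getD j (0, 0)).1 (LT.getD j (0, 0)).2 (2 ^ 112) *
    (LB.getD j 0 * (LE.getD j (0, 0)).2)

/-- accumulated sums -/
noncomputable def AY (Wx Wy : ℕ) (LB : List ℕ) (LT LE : List (ℕ × ℕ)) (k : ℕ) : ℕ :=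
  ∑ j ∈ range k, gim (Useq Wx Wy j).1 (Useq Wx Wy j).2 (LT.getD j (0, 0)).1 (LT.getD j (0, 0)).2 (2 ^ 112) *
    (LB.getD j 0 * (LE.getD j (0, 0)).2)

/-- accumulated sums -/
def AW (LB : List ℕ) (LE : List (ℕ × ℕ)) (k : ℕ) : ℕ :=
  ∑ j ∈ range k, LB.getD j 0 * (LE.getD j (0, 0)).2

/-- accumulated sums -/
def RM (w' sg2 H : ℕ) (LE : List (ℕ × ℕ)) (k : ℕ) : ℕ :=
  ∑ j ∈ range k, (j + 1) * Vseq w' j * ((j * sg2 + H * (LE.getD j (0, 0)).1) ^ 8 *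
    2 ^ (3 * (j * sg2 + H * (LE.getD j (0, 0)).1) / 4194304 + 1))

/-- the centre of a certificate -/
noncomputable def wof (c : Cert) : ℂ := ⟨((c.a : ℝ) - 2 ^ 21) / 2 ^ 16, ((c.b : ℝ) - 2 ^ 21) / 2 ^ 16⟩

end SokB
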