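import Pool.Agent.Lib.MP_816dec_an.Valley
import Pool.Agent.Lib.MP_816dec_an.Cover

/-!
MP_816dec_an, row A3-Z: the roots of unity themselves (`β = 0`), `b ≥ 3`: the circle `|z| = r`
carries at most one zero, and that zero is simple, for `r ≥ 10` and `√3/2 b² ≤ 2πr`.
Here `F(z; 1) = e^z`, so that the `b` terms of a valley are `exp(r e^{i(θ + kh)})`, `h = 2π/b`.
-/

set_option autoImplicit false

open Complex Set Filter Topology Metric

namespace Sok

namespace Beta0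

theorem F_one (z : ℂ) : F 1 z = Complex.exp z := by
  unfold F
  rw [Complex.exp_eq_exp_ℂ, NormedSpace.exp_eq_tsum_div]
  simp

theorem GW_zero (w : ℂ) : GW 0 w = Complex.exp (Complex.exp w) := by
  unfold GW
  rw [show ((0 : ℝ) : ℂ) * I = 0 by simp, Complex.exp_zero, F_one]

/-- the terms -/
noncomputable def X (b : ℕ) (k : ℤ) (w : ℂ) : ℂ := GW 0 (w + 2 * Real.pi * k / b * I)

theorem X_eq (b : ℕ) (k : ℤ) (w : ℂ) :
    X b k w = Complex.exp (Complex.exp (w + 2 * Real.pi * k / b * I)) := GW_zero _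

theorem X_ne (b : ℕ) (k : ℤ) (w : ℂ) : X b k w ≠ 0 := by
  rw [X_eq]; exact Complex.exp_ne_zero _

theorem arg_re (b : ℕ) (k : ℤ) (w : ℂ) : (w + 2 * Real.pi * k / b * I).re = w.re := by
  have e : (2 * Real.pi * k / b * I : ℂ) = ((2 * Real.pi * k / b : ℝ) : ℂ) * I := by push_cast; ring
  rw [e]; simp

theorem arg_im (b : ℕ) (k : ℤ) (w : ℂ) :
    (w + 2 * Real.pi * k / b * I).im = (w.im + Real.pi / b) + (2 * k - 1) * (Real.pi / b) := by
  have e : (2 * Real.pi * k / b * I : ℂ) = ((2 * Real.pi * k / b : ℝ) : ℂ) * I := by push_cast; ring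
  rw [e]
  simp only [Complex.add_im, Complex.mul_im, Complex.ofReal_re, Complex.ofReal_im, Complex.I_re,
    Complex.I_im]
  ring

theorem norm_X (b : ℕ) (k : ℤ) (w : ℂ) :
    ‖X b k w‖ = Real.exp (Real.exp w.re * Real.cos ((w.im + Real.pi / b) + (2 * k - 1) * (Real.pi / b))) := by
  rw [X_eq, Complex.norm_exp, Complex.exp_re, arg_re, arg_im]

theorem hasDerivAt_X (b : ℕ) (k : ℤ) (w : ℂ) :
    HasDerivAt (X b k) (X b k w * Complex.exp (w + 2 * Real.pi * k / b * I)) w := by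
  have h1 : HasDerivAt (fun w : ℂ => w + 2 * Real.pi * k / b * I) 1 w := (hasDerivAt_id w).add_const _
  have h2 := h1.cexp.cexp
  have e : X b k = fun w => Complex.exp (Complex.exp (w + 2 * Real.pi * k / b * I)) := by
    funext w; exact X_eq b k w
  rw [e]
  refine h2.congr_deriv ?_
  ring

theorem differentiable_X (b : ℕ) (k : ℤ) : Differentiable ℂ (X b k) :=
  fun w => (hasDerivAt_X b k w).differentiableAt

theorem slope_X (b : ℕ) (k : ℤ) (w : ℂ) :
    (deriv (X b k) w / X b k w).im =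
      Real.exp w.re * Real.sin ((w.im + Real.pi / b) + (2 * k - 1) * (Real.pi / b)) := by
  rw [(hasDerivAt_X b k w).deriv, mul_div_cancel_left₀ _ (X_ne b k w), Complex.exp_im, arg_re, arg_im]

/-! ### trigonometry -/

/-- `sin ((j-1)φ) ≤ sin (jφ - s)` -/
theorem sin_step {φ s : ℝ} {j : ℝ} (hj : 1 ≤ j) (hφ : 0 ≤ φ) (hs : 0 ≤ s) (hsφ : s ≤ φ)
    (hn : (2 * j - 1) * φ ≤ Real.pi) : Real.sin ((j - 1) * φ) ≤ Real.sin (j * φ - s) := by
  have e : Real.sin (j * φ - s) - Real.sin ((j - 1) * φ) =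
      2 * Real.sin ((φ - s) / 2) * Real.cos (((2 * j - 1) * φ - s) / 2) := by
    rw [Real.sin_sub_sin]
    congr 2
    · congr 1; ring
    · ring
  have h1 : 0 ≤ Real.sin ((φ - s) / 2) := by
    apply Real.sin_nonneg_of_nonneg_of_le_pi (by linarith)
    nlinarith
  have h2 : 0 ≤ Real.cos (((2 * j - 1) * φ - s) / 2) := by
    apply Real.cos_nonneg_of_neg_pi_div_two_le_of_le
    · have : 0 ≤ (2 * j - 1) * φ - s := by nlinarith
      linarith [Real.pi_pos]
    · linarith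
  have := mul_nonneg (mul_nonneg (by norm_num : (0:ℝ) ≤ 2) h1) h2
  linarith

/-- domination of the far terms on the whole window -/
theorem cos_far {φ s : ℝ} {j : ℝ} (hj : 1 ≤ j) (hφ : 0 ≤ φ) (hs : 0 ≤ s) (hsφ : s ≤ φ)
    (hn : (2 * j - 1) * φ ≤ Real.pi) :
    Real.cos ((2 * j - 1) * φ - s) ≤ Real.cos (φ - s) - 2 * Real.sin ((j - 1) * φ) ^ 2 := by
  have e : Real.cos (φ - s) - Real.cos ((2 * j - 1) * φ - s) =
      2 * Real.sin (j * φ - s) * Real.sin ((j - 1) * φ) := by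
    rw [Real.cos_sub_cos]
    have e1 : (φ - s + ((2 * j - 1) * φ - s)) / 2 = j * φ - s := by ring
    have e2 : (φ - s - ((2 * j - 1) * φ - s)) / 2 = -((j - 1) * φ) := by ring
    rw [e1, e2, Real.sin_neg]; ring
  have h1 := sin_step hj hφ hs hsφ hn
  have h2 : 0 ≤ Real.sin ((j - 1) * φ) := by
    apply Real.sin_nonneg_of_nonneg_of_le_pi
    · exact mul_nonneg (by linarith) hφ
    · nlinarith
  nlinarith

theorem cos_far_add {φ t : ℝ} {j : ℝ} (hj : 1 ≤ j) (hφ : 0 ≤ φ) (ht : |t| ≤ φ)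
    (hn : (2 * j - 1) * φ ≤ Real.pi) :
    Real.cos (t + (2 * j - 1) * φ) ≤ max (Real.cos (t - φ)) (Real.cos (t + φ)) - 2 * Real.sin ((j - 1) * φ) ^ 2 := by
  rcases le_total 0 t with h | h
  · rw [abs_of_nonneg h] at ht
    have h1 := cos_far hj hφ h ht hn
    have h2 : Real.cos (t + (2 * j - 1) * φ) ≤ Real.cos ((2 * j - 1) * φ - t) := by
      have h3 : 0 ≤ Real.sin ((2 * j - 1) * φ) * Real.sin t := by
        apply mul_nonneg
        · exact Real.sin_nonneg_of_nonneg_of_le_pi (mul_nonneg (by linarith) hφ) hn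
        · apply Real.sin_nonneg_of_nonneg_of_le_pi h
          nlinarith
      rw [Real.cos_add, Real.cos_sub]
      nlinarith
    have h3 : Real.cos (φ - t) = Real.cos (t - φ) := by rw [← Real.cos_neg]; congr 1; ring
    rw [h3] at h1
    have := le_max_left (Real.cos (t - φ)) (Real.cos (t + φ))
    linarith
  · rw [abs_of_nonpos h] at ht
    have h1 := cos_far hj hφ (neg_nonneg.2 h) ht hn
    have h2 : (2 * j - 1) * φ - -t = t + (2 * j - 1) * φ := by ring
    have h3 : φ - -t = t + φ := by ring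
    rw [h2, h3] at h1
    have := le_max_right (Real.cos (t - φ)) (Real.cos (t + φ))
    linarith

theorem cos_far_sub {φ t : ℝ} {j : ℝ} (hj : 1 ≤ j) (hφ : 0 ≤ φ) (ht : |t| ≤ φ)
    (hn : (2 * j - 1) * φ ≤ Real.pi) :
    Real.cos (t - (2 * j - 1) * φ) ≤ max (Real.cos (t - φ)) (Real.cos (t + φ)) - 2 * Real.sin ((j - 1) * φ) ^ 2 := by
  have h := cos_far_add (t := -t) hj hφ (by rwa [abs_neg]) hn
  have e1 : Real.cos (-t + (2 * j - 1) * φ) = Real.cos (t - (2 * j - 1) * φ) := by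
    rw [← Real.cos_neg]; congr 1; ring
  have e2 : Real.cos (-t - φ) = Real.cos (t + φ) := by rw [← Real.cos_neg]; congr 1; ring
  have e3 : Real.cos (-t + φ) = Real.cos (t - φ) := by rw [← Real.cos_neg]; congr 1; ring
  rw [e1, e2, e3, max_comm] at h
  exact h

/-- `D = cos φ - cos nφ`, `n = 2j - 1` -/
theorem D_eq (j φ : ℝ) : Real.cos φ - Real.cos ((2 * j - 1) * φ) =
    2 * Real.sin (j * φ) * Real.sin ((j - 1) * φ) := by
  rw [Real.cos_sub_cos]
  have e1 : (φ + (2 * j - 1) * φ) / 2 = j * φ := by ring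
  have e2 : (φ - (2 * j - 1) * φ) / 2 = -((j - 1) * φ) := by ring
  rw [e1, e2, Real.sin_neg]; ring

/-- `0 ≤ n sin φ - sin nφ ≤ 4 i sin φ sin² (iφ)`, `n = 2i + 1` -/
theorem C_bound {φ : ℝ} (hφ : 0 ≤ φ) (i : ℕ) (hn : (i : ℝ) * φ ≤ Real.pi / 2) :
    0 ≤ (2 * i + 1) * Real.sin φ - Real.sin ((2 * i + 1) * φ) ∧
    (2 * i + 1) * Real.sin φ - Real.sin ((2 * i + 1) * φ) ≤ 4 * i * Real.sin φ * Real.sin (i * φ) ^ 2 := by
  induction i with
  | zero => simp
  | succ i ih =>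
    have hi : (i : ℝ) * φ ≤ Real.pi / 2 := by push_cast at hn; nlinarith
    obtain ⟨h0, h1⟩ := ih hi
    have hs : 0 ≤ Real.sin φ := by
      apply Real.sin_nonneg_of_nonneg_of_le_pi hφ
      push_cast at hn
      have : 0 ≤ (i : ℝ) * φ := by positivity
      nlinarith [Real.pi_pos]
    have hmono : Real.sin (i * φ) ≤ Real.sin (((i : ℝ) + 1) * φ) := by
      apply Real.sin_le_sin_of_le_of_le_pi_div_two
      · have : 0 ≤ (i : ℝ) * φ := by positivity
        linarith [Real.pi_pos]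
      · push_cast at hn; exact hn
      · nlinarith
    have hsi : 0 ≤ Real.sin (i * φ) := by
      apply Real.sin_nonneg_of_nonneg_of_le_pi (by positivity)
      linarith [Real.pi_pos]
    -- the step
    have e : Real.sin ((2 * ((i : ℝ) + 1) + 1) * φ) - Real.sin ((2 * i + 1) * φ) =
        2 * Real.sin φ * (1 - 2 * Real.sin (((i : ℝ) + 1) * φ) ^ 2) := by
      rw [Real.sin_sub_sin]
      have e1 : ((2 * ((i : ℝ) + 1) + 1) * φ - (2 * i + 1) * φ) / 2 = φ := by ring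
      have e2 : ((2 * ((i : ℝ) + 1) + 1) * φ + (2 * i + 1) * φ) / 2 = 2 * (((i : ℝ) + 1) * φ) := by ring
      rw [e1, e2, Real.cos_two_mul, Real.cos_sq']; ring
    push_cast
    have hsq : Real.sin (i * φ) ^ 2 ≤ Real.sin (((i : ℝ) + 1) * φ) ^ 2 := by
      apply pow_le_pow_left₀ hsi hmono
    have hm : 0 ≤ (i : ℝ) * Real.sin φ := by positivity
    constructor
    · nlinarith [mul_nonneg hs (sq_nonneg (Real.sin (((i : ℝ) + 1) * φ)))]
    · nlinarith [mul_le_mul_of_nonneg_left hsq hm]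

/-! ### numerical facts -/

/-- the data of the row -/
structure Dat (b : ℕ) (r : ℝ) : Prop where
  hb : 3 ≤ b
  h10 : 10 ≤ r
  hr : Real.sqrt 3 / 2 * (b : ℝ) ^ 2 ≤ 2 * Real.pi * r

theorem sqrt3_lb : (1.732 : ℝ) ≤ Real.sqrt 3 := by
  apply Real.le_sqrt_of_sq_le; norm_num

section Facts

variable {b : ℕ} {r : ℝ}

theorem phi_pos (H : Dat b r) : 0 < Real.pi / b := by
  have := H.hb
  have : (0:ℝ) < b := by exact_mod_cast (by omega : 0 < b)
  exact div_pos Real.pi_pos this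

theorem phi_le (_H : Dat b r) {n : ℕ} (hn : 0 < n) (h : n ≤ b) : Real.pi / b ≤ Real.pi / n := by
  have h1 : (0:ℝ) < n := by exact_mod_cast hn
  have h2 : (n:ℝ) ≤ b := by exact_mod_cast h
  exact div_le_div_of_nonneg_left Real.pi_pos.le h1 h2

/-- `r φ² ≥ 1.36` -/
theorem r_phi_sq (H : Dat b r) : 1.36 ≤ r * (Real.pi / b) ^ 2 := by
  have hb0 : (0:ℝ) < b := by have := H.hb; exact_mod_cast (by omega : 0 < b)
  have h1 := H.hr
  have h2 := sqrt3_lb
  have h3 := Real.pi_gt_d4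
  have h4 : r * (Real.pi / b) ^ 2 = (2 * Real.pi * r) * Real.pi / (2 * b ^ 2) := by field_simp
  rw [h4, le_div_iff₀ (by positivity)]
  have h5 : Real.sqrt 3 / 2 * (b : ℝ) ^ 2 * Real.pi ≤ 2 * Real.pi * r * Real.pi :=
    mul_le_mul_of_nonneg_right h1 Real.pi_pos.le
  have h6 : (1.732 : ℝ) * 3.1415 ≤ Real.sqrt 3 * Real.pi := by
    apply mul_le_mul h2 h3.le (by norm_num) (Real.sqrt_nonneg _)
  have h7 : (0:ℝ) < (b:ℝ) ^ 2 := by positivity
  nlinarith [mul_le_mul_of_nonneg_right h6 h7.le]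

/-- `sin φ ≥ .979 φ` for `b ≥ 9` -/
theorem sin_phi_big (H : Dat b r) (h9 : 9 ≤ b) : 0.9796 * (Real.pi / b) ≤ Real.sin (Real.pi / b) := by
  have h0 := phi_pos H
  have h1 := phi_le H (n := 9) (by norm_num) h9
  have h2 := Real.pi_lt_d4
  obtain ⟨x, hx⟩ : ∃ x, x = Real.pi / (b:ℝ) := ⟨_, rfl⟩
  rw [← hx] at h0 h1 ⊢
  have hx9 : x ≤ 0.34907 := by
    push_cast at h1
    linarith
  have h3 := Real.sin_ge_sub_cube h0.le
  have h4 : x ^ 3 ≤ x * 0.34907 ^ 2 := by
    have : x ^ 2 ≤ 0.34907 ^ 2 := by apply pow_le_pow_left₀ h0.le hx9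
    calc x ^ 3 = x * x ^ 2 := by ring
      _ ≤ _ := mul_le_mul_of_nonneg_left this h0.le
  nlinarith

/-- `sin 2φ ≥ .9187 (2φ)` for `b ≥ 9` -/
theorem sin_2phi_big (H : Dat b r) (h9 : 9 ≤ b) :
    0.9187 * (2 * (Real.pi / b)) ≤ Real.sin (2 * (Real.pi / b)) := by
  have h0 := phi_pos H
  have h1 := phi_le H (n := 9) (by norm_num) h9
  have h2 := Real.pi_lt_d4
  obtain ⟨x, hx⟩ : ∃ x, x = 2 * (Real.pi / (b:ℝ)) := ⟨_, rfl⟩
  rw [← hx]
  have h0' : 0 < x := by linarith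
  have hx9 : x ≤ 0.69814 := by
    push_cast at h1
    linarith
  have h3 := Real.sin_ge_sub_cube h0'.le
  have h4 : x ^ 3 ≤ x * 0.69814 ^ 2 := by
    have : x ^ 2 ≤ 0.69814 ^ 2 := by apply pow_le_pow_left₀ h0'.le hx9
    calc x ^ 3 = x * x ^ 2 := by ring
      _ ≤ _ := mul_le_mul_of_nonneg_left this h0'.le
  nlinarith

theorem sqrt2_lb : (1.4142 : ℝ) ≤ Real.sqrt 2 := by
  apply Real.le_sqrt_of_sq_le; norm_num
theorem sqrt2_ub : Real.sqrt 2 ≤ 1.4143 := by
  apply Real.sqrt_le_iff.2; norm_num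

/-- `sin (π/8)` -/
theorem sin_pi8 : 0.3826 ≤ Real.sin (Real.pi / 8) := by
  rw [Real.sin_pi_div_eight]
  have h1 := sqrt2_ub
  have h2 : (0.7652 : ℝ) ≤ Real.sqrt (2 - Real.sqrt 2) := by
    apply Real.le_sqrt_of_sq_le
    have : (0.7652:ℝ) ^ 2 ≤ 2 - 1.4143 := by norm_num
    linarith
  linarith

theorem sin_phi_small (H : Dat b r) {n : ℕ} (hn : 3 ≤ n) (hbn : b ≤ n) :
    Real.sin (Real.pi / n) ≤ Real.sin (Real.pi / b) := by
  have h0 := phi_pos H
  have h1 := phi_le H (n := 3) (by norm_num) H.hb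
  have h2 : Real.pi / n ≤ Real.pi / b := by
    have h1 : (0:ℝ) < b := by have := H.hb; exact_mod_cast (by omega : 0 < b)
    have h2 : (b:ℝ) ≤ n := by exact_mod_cast hbn
    exact div_le_div_of_nonneg_left Real.pi_pos.le h1 h2
  have hn0 : (0:ℝ) < n := by exact_mod_cast (by omega : 0 < n)
  apply Real.sin_le_sin_of_le_of_le_pi_div_two
  · have : 0 < Real.pi / n := div_pos Real.pi_pos hn0
    linarith [Real.pi_pos]
  · push_cast at h1
    linarith [Real.pi_pos]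
  · exact h2

theorem F1 (H : Dat b r) : 7.5 ≤ 2 * r * Real.sin (Real.pi / b) := by
  have h0 := phi_pos H
  rcases Nat.lt_or_ge b 9 with h | h
  · have h1 := sin_phi_small H (n := 8) (by norm_num) (by omega)
    have h2 := sin_pi8
    push_cast at h1
    have h3 := H.h10
    nlinarith
  · have h1 := sin_phi_big H h
    have h2 := r_phi_sq H
    have h3 := phi_le H (n := 9) (by norm_num) h
    push_cast at h3
    have h4 := Real.pi_lt_d4
    obtain ⟨x, hx⟩ : ∃ x, x = Real.pi / (b:ℝ) := ⟨_, rfl⟩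
    rw [← hx] at h0 h1 h2 h3 ⊢
    have hx9 : x ≤ 0.34907 := by linarith
    have h10 := H.h10
    -- r x ≥ 1.36 / x ≥ 3.896
    have h5 : 3.896 ≤ r * x := by
      by_contra hcon
      push Not at hcon
      have : r * x ^ 2 < 1.36 := by
        calc r * x ^ 2 = (r * x) * x := by ring
          _ ≤ (r * x) * 0.34907 := mul_le_mul_of_nonneg_left hx9 (by positivity)
          _ < 1.36 := by nlinarith
      linarith
    have h6 : r * (0.9796 * x) ≤ r * Real.sin x := mul_le_mul_of_nonneg_left h1 (by linarith)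
    nlinarith

theorem F5 (H : Dat b r) : 2.6 ≤ 2 * r * Real.sin (Real.pi / b) ^ 2 := by
  have h0 := phi_pos H
  rcases Nat.lt_or_ge b 9 with h | h
  · have h1 := sin_phi_small H (n := 8) (by norm_num) (by omega)
    have h2 := sin_pi8
    push_cast at h1
    have h3 := H.h10
    have h4 : (0.3826:ℝ) ^ 2 ≤ Real.sin (Real.pi / b) ^ 2 := pow_le_pow_left₀ (by norm_num) (h2.trans h1) 2
    nlinarith
  · have h1 := sin_phi_big H h
    have h2 := r_phi_sq H
    obtain ⟨x, hx⟩ : ∃ x, x = Real.pi / (b:ℝ) := ⟨_, rfl⟩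
    rw [← hx] at h0 h1 h2 ⊢
    have h10 := H.h10
    have h4 : (0.9796 * x) ^ 2 ≤ Real.sin x ^ 2 := pow_le_pow_left₀ (by positivity) h1 2
    have h5 : r * (0.9796 * x) ^ 2 ≤ r * Real.sin x ^ 2 := mul_le_mul_of_nonneg_left h4 (by linarith)
    nlinarith

theorem F6 (H : Dat b r) : 1.1 * (b:ℝ) ^ 2 ≤ 8 * r := by
  have h1 := H.hr
  have h2 := sqrt3_lb
  have h3 := Real.pi_lt_d4
  have h10 := H.h10
  have hb2 : (0:ℝ) ≤ (b:ℝ) ^ 2 := by positivity
  have h4 : (1.732:ℝ) / 2 * (b:ℝ) ^ 2 ≤ 2 * Real.pi * r := by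
    refine le_trans ?_ h1
    apply mul_le_mul_of_nonneg_right _ hb2
    linarith
  have h5 : 2 * Real.pi * r ≤ 2 * 3.1416 * r := by
    have : 0 ≤ r := by linarith
    nlinarith
  nlinarith

theorem F3 (H : Dat b r) (h5 : 5 ≤ b) : 4.59 ≤ r * Real.sin (2 * (Real.pi / b)) ^ 2 := by
  have h0 := phi_pos H
  rcases Nat.lt_or_ge b 9 with h | h
  · have h1 := phi_le H (n := 5) (by norm_num) h5
    push_cast at h1
    have h2 : Real.pi / 8 ≤ Real.pi / b := by
      have h1 : (0:ℝ) < b := by exact_mod_cast (by omega : 0 < b)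
      have h2 : (b:ℝ) ≤ 8 := by exact_mod_cast (by omega : b ≤ 8)
      exact div_le_div_of_nonneg_left Real.pi_pos.le h1 h2
    have h3 : Real.sin (Real.pi / 4) ≤ Real.sin (2 * (Real.pi / b)) := by
      apply Real.sin_le_sin_of_le_of_le_pi_div_two <;> linarith [Real.pi_pos]
    rw [Real.sin_pi_div_four] at h3
    have h4 : (0.7071:ℝ) ≤ Real.sin (2 * (Real.pi / b)) := by linarith [sqrt2_lb]
    have h5 : (0.7071:ℝ) ^ 2 ≤ Real.sin (2 * (Real.pi / b)) ^ 2 := pow_le_pow_left₀ (by norm_num) h4 2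
    have h10 := H.h10
    nlinarith
  · have h1 := sin_2phi_big H h
    have h2 := r_phi_sq H
    obtain ⟨x, hx⟩ : ∃ x, x = Real.pi / (b:ℝ) := ⟨_, rfl⟩
    rw [← hx] at h0 h1 h2 ⊢
    have h10 := H.h10
    have h4 : (0.9187 * (2 * x)) ^ 2 ≤ Real.sin (2 * x) ^ 2 := pow_le_pow_left₀ (by positivity) h1 2
    have h5 : r * (0.9187 * (2 * x)) ^ 2 ≤ r * Real.sin (2 * x) ^ 2 := mul_le_mul_of_nonneg_left h4 (by linarith)
    nlinarith

theorem F4 (H : Dat b r) (h5 : 5 ≤ b) : 0.795 * b ≤ r * Real.sin (2 * (Real.pi / b)) := by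
  have h0 := phi_pos H
  have hb0 : (0:ℝ) < b := by exact_mod_cast (by omega : 0 < b)
  rcases Nat.lt_or_ge b 9 with h | h
  · have h1 := phi_le H (n := 5) (by norm_num) h5
    push_cast at h1
    have h2b : (b:ℝ) ≤ 8 := by exact_mod_cast (by omega : b ≤ 8)
    have h2 : Real.pi / 8 ≤ Real.pi / b := div_le_div_of_nonneg_left Real.pi_pos.le hb0 h2b
    have h3 : Real.sin (Real.pi / 4) ≤ Real.sin (2 * (Real.pi / b)) := by
      apply Real.sin_le_sin_of_le_of_le_pi_div_two <;> linarith [Real.pi_pos]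
    rw [Real.sin_pi_div_four] at h3
    have h4 : (0.7071:ℝ) ≤ Real.sin (2 * (Real.pi / b)) := by linarith [sqrt2_lb]
    have h10 := H.h10
    nlinarith
  · have h1 := sin_2phi_big H h
    have h10 := H.h10
    have h2 : r * (0.9187 * (2 * (Real.pi / b))) ≤ r * Real.sin (2 * (Real.pi / b)) :=
      mul_le_mul_of_nonneg_left h1 (by linarith)
    refine le_trans ?_ h2
    have h3 : Real.sqrt 3 / 2 * b ≤ 2 * Real.pi * r / b := by
      rw [le_div_iff₀ hb0]
      have := H.hr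
      nlinarith
    have h4 : r * (0.9187 * (2 * (Real.pi / b))) = 0.9187 * (2 * Real.pi * r / b) := by ring
    rw [h4]
    have h5 : (1.732:ℝ) / 2 * b ≤ Real.sqrt 3 / 2 * b := by
      apply mul_le_mul_of_nonneg_right _ hb0.le
      linarith [sqrt3_lb]
    have h6 : (1.732:ℝ) / 2 * b ≤ 2 * Real.pi * r / b := h5.trans h3
    nlinarith

/-- `cos (π/3 + .075) ≥ .43` -/
theorem cos_num1 : 0.43 ≤ Real.cos (Real.pi / 3 + 0.075) := by
  rw [Real.cos_add, Real.cos_pi_div_three, Real.sin_pi_div_three]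
  have h1 := Real.one_sub_sq_div_two_le_cos (x := 0.075)
  have h2 : Real.sin 0.075 ≤ 0.075 := Real.sin_le (by norm_num)
  have h3 : Real.sqrt 3 ≤ 1.7321 := by apply Real.sqrt_le_iff.2; norm_num
  have h4 : 0 ≤ Real.sin 0.075 := by
    apply Real.sin_nonneg_of_nonneg_of_le_pi (by norm_num)
    linarith [Real.pi_gt_three]
  nlinarith

/-- `cos (π/6 + .075) ≥ .82` -/
theorem cos_num2 : 0.82 ≤ Real.cos (Real.pi / 6 + 0.075) := by
  rw [Real.cos_add, Real.cos_pi_div_six, Real.sin_pi_div_six]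
  have h1 := Real.one_sub_sq_div_two_le_cos (x := 0.075)
  have h2 : Real.sin 0.075 ≤ 0.075 := Real.sin_le (by norm_num)
  have h3 := sqrt3_lb
  nlinarith

/-- the exponent of the term `n = 3` -/
theorem F2 (H : Dat b r) :
    4 ≤ 4 * (0.96 * r) * Real.sin (Real.pi / b) ^ 2 * Real.cos (Real.pi / b + 0.075) := by
  have h0 := phi_pos H
  have h10 := H.h10
  have hpi := Real.pi_pos
  have hmono : ∀ {n : ℕ}, 3 ≤ n → n ≤ b → Real.cos (Real.pi / n + 0.075) ≤ Real.cos (Real.pi / b + 0.075) := by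
    intro n hn hnb
    have h1 := phi_le H (n := n) (by omega) hnb
    have h3 : Real.pi / n ≤ Real.pi / 3 := by
      have : (3:ℝ) ≤ n := by exact_mod_cast hn
      exact div_le_div_of_nonneg_left hpi.le (by norm_num) this
    apply Real.cos_le_cos_of_nonneg_of_le_pi (by linarith) _ (by linarith)
    linarith [Real.pi_gt_three]
  rcases Nat.lt_or_ge b 6 with h | h
  · -- 3 ≤ b ≤ 5
    have h1 := sin_phi_small H (n := 6) (by norm_num) (by omega)
    push_cast at h1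
    have h2 := hmono (n := 3) le_rfl H.hb
    push_cast at h2
    have h3 := cos_num1
    rw [Real.sin_pi_div_six] at h1
    have h4 : (1 / 2:ℝ) ^ 2 ≤ Real.sin (Real.pi / b) ^ 2 := pow_le_pow_left₀ (by norm_num) h1 2
    have h5 : (1/2:ℝ) ^ 2 * 0.43 ≤ Real.sin (Real.pi / b) ^ 2 * Real.cos (Real.pi / b + 0.075) :=
      mul_le_mul h4 (h3.trans h2) (by norm_num) (by positivity)
    nlinarith
  rcases Nat.lt_or_ge b 9 with h' | h'
  · have h1 := sin_phi_small H (n := 8) (by norm_num) (by omega)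
    push_cast at h1
    have h2 := hmono (n := 6) (by norm_num) h
    push_cast at h2
    have h3 := cos_num2
    have h4 : (0.3826:ℝ) ^ 2 ≤ Real.sin (Real.pi / b) ^ 2 := pow_le_pow_left₀ (by norm_num) (sin_pi8.trans h1) 2
    have h5 : (0.3826:ℝ) ^ 2 * 0.82 ≤ Real.sin (Real.pi / b) ^ 2 * Real.cos (Real.pi / b + 0.075) :=
      mul_le_mul h4 (h3.trans h2) (by norm_num) (by positivity)
    nlinarith
  · have h1 := F5 H
    have h2 := phi_le H (n := 9) (by norm_num) h'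
    have h3 := Real.pi_lt_d4
    push_cast at h2
    have h4 : 0.91 ≤ Real.cos (Real.pi / b + 0.075) := by
      have h5 := Real.one_sub_sq_div_two_le_cos (x := Real.pi / b + 0.075)
      have h6 : Real.pi / b + 0.075 ≤ 0.4241 := by linarith
      have h7 : (Real.pi / b + 0.075) ^ 2 ≤ 0.4241 ^ 2 := pow_le_pow_left₀ (by linarith) h6 2
      nlinarith
    have h5 : 1.3 * 0.91 ≤ (r * Real.sin (Real.pi / b) ^ 2) * Real.cos (Real.pi / b + 0.075) :=
      mul_le_mul (by linarith) h4 (by norm_num) (by positivity)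
    nlinarith

end Facts

/-! ### exponents -/

section Expo

variable {b : ℕ} {r : ℝ}

theorem n_phi_le (H : Dat b r) {j : ℕ} (hjb : 2 * j ≤ b + 1) : (2 * (j:ℝ) - 1) * (Real.pi / b) ≤ Real.pi := by
  have hb0 : (0:ℝ) < b := by have := H.hb; exact_mod_cast (by omega : 0 < b)
  have h1 : 2 * (j:ℝ) ≤ b + 1 := by exact_mod_cast hjb
  rw [mul_div_assoc', div_le_iff₀ hb0]
  nlinarith [Real.pi_pos]

theorem sin_lin (H : Dat b r) {j : ℕ} (hj : 1 ≤ j) (hjb : 2 * j ≤ b + 1) :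
    2 * ((j:ℝ) - 1) / b ≤ Real.sin (((j:ℝ) - 1) * (Real.pi / b)) := by
  have hb0 : (0:ℝ) < b := by have := H.hb; exact_mod_cast (by omega : 0 < b)
  have h0 := phi_pos H
  have h1 := n_phi_le H hjb
  have hj1 : (1:ℝ) ≤ j := by exact_mod_cast hj
  have h2 := Real.mul_le_sin (x := ((j:ℝ) - 1) * (Real.pi / b)) (mul_nonneg (by linarith) h0.le) (by linarith)
  refine le_trans (le_of_eq ?_) h2
  have := Real.pi_pos
  field_simp

/-- the exponent of the far terms on the whole window -/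
theorem far_exp (H : Dat b r) {j : ℕ} (hj : 2 ≤ j) (hjb : 2 * j ≤ b + 1) :
    2.6 + 1.61 * ((j:ℝ) - 2) ≤ 2 * r * Real.sin (((j:ℝ) - 1) * (Real.pi / b)) ^ 2 := by
  have hb0 : (0:ℝ) < b := by have := H.hb; exact_mod_cast (by omega : 0 < b)
  have hr0 : 0 < r := by have := H.h10; linarith
  rcases Nat.lt_or_ge j 3 with h | h
  · have hj2 : j = 2 := by omega
    subst hj2
    have h1 := F5 H
    push_cast
    have e : ((2:ℝ) - 1) * (Real.pi / b) = Real.pi / b := by ring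
    rw [e]
    linarith
  · have h1 := sin_lin H (by omega : 1 ≤ j) hjb
    have hj3 : (3:ℝ) ≤ j := by exact_mod_cast h
    have h2 : (2 * ((j:ℝ) - 1) / b) ^ 2 ≤ Real.sin (((j:ℝ) - 1) * (Real.pi / b)) ^ 2 :=
      pow_le_pow_left₀ (div_nonneg (by linarith) hb0.le) h1 2
    have h3 : 2 * r * (2 * ((j:ℝ) - 1) / b) ^ 2 ≤ 2 * r * Real.sin (((j:ℝ) - 1) * (Real.pi / b)) ^ 2 :=
      mul_le_mul_of_nonneg_left h2 (by linarith)
    refine le_trans ?_ h3
    have h4 : 2 * r * (2 * ((j:ℝ) - 1) / b) ^ 2 = (8 * r / b ^ 2) * ((j:ℝ) - 1) ^ 2 := by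
      field_simp
      ring
    rw [h4]
    have h5 : 1.1 ≤ 8 * r / b ^ 2 := by
      rw [le_div_iff₀ (by positivity)]
      exact F6 H
    have h6 : 1.1 * ((j:ℝ) - 1) ^ 2 ≤ (8 * r / b ^ 2) * ((j:ℝ) - 1) ^ 2 :=
      mul_le_mul_of_nonneg_right h5 (sq_nonneg _)
    nlinarith

theorem D_lb (H : Dat b r) {j : ℕ} (hj : 3 ≤ j) (hjb : 2 * j ≤ b + 1) :
    4.59 + 1.59 * ((j:ℝ) - 1) ≤ r * (Real.cos (Real.pi / b) - Real.cos ((2 * (j:ℝ) - 1) * (Real.pi / b))) ∧
    2 * Real.sin (((j:ℝ) - 1) * (Real.pi / b)) ^ 2 ≤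
      Real.cos (Real.pi / b) - Real.cos ((2 * (j:ℝ) - 1) * (Real.pi / b)) := by
  have hb0 : (0:ℝ) < b := by have := H.hb; exact_mod_cast (by omega : 0 < b)
  have h0 := phi_pos H
  have hr0 : 0 < r := by have := H.h10; linarith
  have h1 := n_phi_le H hjb
  have hj3 : (3:ℝ) ≤ j := by exact_mod_cast hj
  have hb5 : 5 ≤ b := by omega
  have hF3 := F3 H hb5
  have hF4 := F4 H hb5
  have hlin := sin_lin H (by omega : 1 ≤ j) hjb
  rw [D_eq]
  obtain ⟨x, hx⟩ : ∃ x, x = Real.pi / (b:ℝ) := ⟨_, rfl⟩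
  rw [← hx] at h0 h1 hF3 hF4 hlin ⊢
  have hs2 : 0 ≤ Real.sin (2 * x) := by
    apply Real.sin_nonneg_of_nonneg_of_le_pi (by linarith)
    nlinarith
  have hs1 : Real.sin (2 * x) ≤ Real.sin (((j:ℝ) - 1) * x) := by
    apply Real.sin_le_sin_of_le_of_le_pi_div_two
    · linarith [Real.pi_pos]
    · linarith
    · nlinarith
  have hsj : Real.sin (((j:ℝ) - 1) * x) ≤ Real.sin ((j:ℝ) * x) := by
    have := sin_step (j := (j:ℝ)) (s := 0) (by linarith) h0.le le_rfl h0.le h1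
    rwa [sub_zero] at this
  have hA : 0 ≤ Real.sin (((j:ℝ) - 1) * x) := hs2.trans hs1
  constructor
  · have h2 : 1 / 2 * Real.sin (2 * x) + ((j:ℝ) - 1) / b ≤ Real.sin (((j:ℝ) - 1) * x) := by
      have e : 2 * ((j:ℝ) - 1) / b = 2 * (((j:ℝ) - 1) / b) := by ring
      rw [e] at hlin
      linarith
    have h3 : Real.sin (2 * x) * (1 / 2 * Real.sin (2 * x) + ((j:ℝ) - 1) / b) ≤
        Real.sin ((j:ℝ) * x) * Real.sin (((j:ℝ) - 1) * x) := by
      apply mul_le_mul (hs1.trans hsj) h2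
      · have : 0 ≤ ((j:ℝ) - 1) / b := div_nonneg (by linarith) hb0.le
        linarith
      · exact hA.trans hsj
    have h4 : 0.795 * ((j:ℝ) - 1) ≤ r * Real.sin (2 * x) * (((j:ℝ) - 1) / b) := by
      have h5 : 0.795 ≤ r * Real.sin (2 * x) / b := by
        rw [le_div_iff₀ hb0]; exact hF4
      calc 0.795 * ((j:ℝ) - 1) ≤ r * Real.sin (2 * x) / b * ((j:ℝ) - 1) :=
            mul_le_mul_of_nonneg_right h5 (by linarith)
        _ = _ := by ring
    calc 4.59 + 1.59 * ((j:ℝ) - 1) ≤ r * Real.sin (2 * x) ^ 2 + 2 * (r * Real.sin (2 * x) * (((j:ℝ) - 1) / b)) := by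
          linarith
      _ = 2 * r * (Real.sin (2 * x) * (1 / 2 * Real.sin (2 * x) + ((j:ℝ) - 1) / b)) := by ring
      _ ≤ 2 * r * (Real.sin ((j:ℝ) * x) * Real.sin (((j:ℝ) - 1) * x)) :=
          mul_le_mul_of_nonneg_left h3 (by linarith)
      _ = _ := by ring
  · nlinarith

/-- the exponent of the invariant ratio -/
theorem expo (H : Dat b r) {j : ℕ} (hj : 2 ≤ j) (hjb : 2 * j ≤ b + 1) {t r' : ℝ} (ht : |t| ≤ 0.075)
    (hr' : 0.96 * r ≤ r') :
    r' * (Real.cos (t + (2 * (j:ℝ) - 1) * (Real.pi / b)) + ((j:ℝ) - 1) * Real.cos (t - Real.pi / b) -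
      (j:ℝ) * Real.cos (t + Real.pi / b)) ≤ -(4 + 1.1 * ((j:ℝ) - 2)) := by
  have h0 := phi_pos H
  have hr0 : 0 < r := by have := H.h10; linarith
  have hpi := Real.pi_pos
  rcases Nat.lt_or_ge j 3 with h | h
  · have hj2 : j = 2 := by omega
    subst hj2
    have hF2 := F2 H
    have hphi3 := phi_le H (n := 3) (by norm_num) H.hb
    push_cast at hphi3
    obtain ⟨x, hx⟩ : ∃ x, x = Real.pi / (b:ℝ) := ⟨_, rfl⟩
    rw [← hx] at h0 hF2 hphi3 ⊢
    push_cast
    have e : Real.cos (t + (2 * 2 - 1) * x) + (2 - 1) * Real.cos (t - x) - 2 * Real.cos (t + x) =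
        -(4 * Real.sin x ^ 2 * Real.cos (x + t)) := by
      have e1 : t + (2 * 2 - 1) * x = (x + t) + 2 * x := by ring
      have e2 : t - x = (x + t) - 2 * x := by ring
      have e3 : t + x = x + t := by ring
      rw [e1, e2, e3, Real.cos_add (x + t), Real.cos_sub (x + t), Real.cos_two_mul, Real.cos_sq' x]
      ring
    rw [e]
    have hc : Real.cos (x + 0.075) ≤ Real.cos (x + t) := by
      rw [← Real.cos_abs (x + t)]
      apply Real.cos_le_cos_of_nonneg_of_le_pi (abs_nonneg _)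
      · linarith [Real.pi_gt_three]
      · calc |x + t| ≤ |x| + |t| := abs_add_le _ _
          _ ≤ x + 0.075 := by rw [abs_of_pos h0]; linarith
    have hc0 : 0 ≤ Real.cos (x + 0.075) := by
      apply Real.cos_nonneg_of_neg_pi_div_two_le_of_le <;> linarith [Real.pi_gt_three]
    have h5 : (0.96 * r) * (4 * Real.sin x ^ 2 * Real.cos (x + 0.075)) ≤ r' * (4 * Real.sin x ^ 2 * Real.cos (x + t)) := by
      apply mul_le_mul hr' _ (by positivity) (by linarith)
      apply mul_le_mul_of_nonneg_left hc (by positivity)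
    nlinarith
  · obtain ⟨hD1, hD2⟩ := D_lb H h hjb
    have h1 := n_phi_le H hjb
    have hj3 : (3:ℝ) ≤ j := by exact_mod_cast h
    have hC := C_bound (φ := Real.pi / b) h0.le (j - 1) (by
      rw [Nat.cast_sub (by omega)]
      push_cast
      linarith)
    rw [Nat.cast_sub (by omega : 1 ≤ j)] at hC
    have ht1 := abs_le.1 ht
    obtain ⟨x, hx⟩ : ∃ x, x = Real.pi / (b:ℝ) := ⟨_, rfl⟩
    rw [← hx] at h0 h1 hD1 hD2 hC ⊢
    have en : (2 * ((j:ℝ) - ((1:ℕ):ℝ)) + 1) = 2 * (j:ℝ) - 1 := by push_cast; ring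
    rw [en] at hC
    push_cast at hC
    obtain ⟨D, hD⟩ : ∃ D, D = Real.cos x - Real.cos ((2 * (j:ℝ) - 1) * x) := ⟨_, rfl⟩
    obtain ⟨C, hCd⟩ : ∃ C, C = (2 * (j:ℝ) - 1) * Real.sin x - Real.sin ((2 * (j:ℝ) - 1) * x) := ⟨_, rfl⟩
    rw [← hD] at hD1 hD2
    rw [← hCd] at hC
    obtain ⟨hC0, hC1⟩ := hC
    have e : Real.cos (t + (2 * (j:ℝ) - 1) * x) + ((j:ℝ) - 1) * Real.cos (t - x) - (j:ℝ) * Real.cos (t + x) =
        -(D * Real.cos t - C * Real.sin t) := by
      rw [hD, hCd, Real.cos_add t ((2 * (j:ℝ) - 1) * x), Real.cos_sub, Real.cos_add t x]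
      ring
    rw [e]
    have hD0 : 0 ≤ D := le_trans (by positivity) hD2
    have hsx : Real.sin x ≤ x := Real.sin_le h0.le
    have hsx0 : 0 ≤ Real.sin x := by
      apply Real.sin_nonneg_of_nonneg_of_le_pi h0.le
      nlinarith
    -- C ≤ π D
    have hCD : C ≤ Real.pi * D := by
      have h2 : 2 * (((j:ℝ) - 1) * Real.sin x) ≤ Real.pi := by
        have : ((j:ℝ) - 1) * Real.sin x ≤ ((j:ℝ) - 1) * x := mul_le_mul_of_nonneg_left hsx (by linarith)
        nlinarith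
      have h3 : 4 * ((j:ℝ) - 1) * Real.sin x * Real.sin (((j:ℝ) - 1) * x) ^ 2 ≤
          (2 * (((j:ℝ) - 1) * Real.sin x)) * D := by
        have h4 : 0 ≤ ((j:ℝ) - 1) * Real.sin x := mul_nonneg (by linarith) hsx0
        nlinarith
      exact hC1.trans (h3.trans (mul_le_mul_of_nonneg_right h2 hD0))
    have hct : 0.9971 ≤ Real.cos t := by
      have h5 := Real.one_sub_sq_div_two_le_cos (x := t)
      have : t ^ 2 ≤ 0.075 ^ 2 := sq_le_sq' ht1.1 ht1.2
      nlinarith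
    have hst : |Real.sin t| ≤ 0.075 := by
      refine le_trans ?_ ht
      exact Real.abs_sin_le_abs
    have hkey : 0.761 * D ≤ D * Real.cos t - C * Real.sin t := by
      have h5 : C * Real.sin t ≤ Real.pi * D * 0.075 := by
        calc C * Real.sin t ≤ C * |Real.sin t| := mul_le_mul_of_nonneg_left (le_abs_self _) hC0
          _ ≤ (Real.pi * D) * 0.075 := mul_le_mul hCD hst (abs_nonneg _) (by positivity)
      have h6 : Real.pi * D * 0.075 ≤ 0.2357 * D := by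
        have := Real.pi_lt_d4
        nlinarith
      have h7 : 0.9971 * D ≤ D * Real.cos t := by nlinarith
      linarith
    have h8 : (0.96 * r) * (0.761 * D) ≤ r' * (D * Real.cos t - C * Real.sin t) := by
      apply mul_le_mul hr' hkey (by positivity) (by linarith)
    nlinarith

end Expo

/-! ### exponentials -/

theorem exp_neg4 : Real.exp (-4) ≤ 1 / 50 := by
  rw [Real.exp_neg, inv_eq_one_div]
  apply one_div_le_one_div_of_le (by norm_num)
  have h1 := Real.exp_one_gt_d9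
  have h2 : Real.exp 4 = Real.exp 1 ^ 4 := by rw [← Real.exp_nat_mul]; norm_num
  rw [h2]
  calc (50:ℝ) ≤ 2.7182818283 ^ 4 := by norm_num
    _ ≤ _ := pow_le_pow_left₀ (by norm_num) h1.le 4

theorem exp_neg11 : Real.exp (-1.1) ≤ 1 / 3 := by
  rw [Real.exp_neg, inv_eq_one_div]
  apply one_div_le_one_div_of_le (by norm_num)
  have h1 := Real.exp_one_gt_d9
  have h2 : Real.exp 1.1 ^ 10 = Real.exp 1 ^ 11 := by rw [← Real.exp_nat_mul, ← Real.exp_nat_mul]; norm_num
  have h3 : (3:ℝ) ^ 10 ≤ Real.exp 1.1 ^ 10 := by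
    rw [h2]
    calc (3:ℝ) ^ 10 ≤ 2.7182818283 ^ 11 := by norm_num
      _ ≤ _ := pow_le_pow_left₀ (by norm_num) h1.le 11
  exact (pow_le_pow_iff_left₀ (by norm_num) (Real.exp_pos _).le (by norm_num)).1 h3

theorem exp_neg26 : Real.exp (-2.6) ≤ 0.075 := by
  have h0 : Real.exp (-2.6) = (Real.exp 2.6)⁻¹ := by rw [Real.exp_neg]
  rw [h0, inv_le_comm₀ (Real.exp_pos _) (by norm_num)]
  have h1 := Real.exp_one_gt_d9
  have h2 : Real.exp 2.6 ^ 5 = Real.exp 1 ^ 13 := by rw [← Real.exp_nat_mul, ← Real.exp_nat_mul]; norm_num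
  have h3 : ((0.075:ℝ)⁻¹) ^ 5 ≤ Real.exp 2.6 ^ 5 := by
    rw [h2]
    calc ((0.075:ℝ)⁻¹) ^ 5 ≤ 2.7182818283 ^ 13 := by norm_num
      _ ≤ _ := pow_le_pow_left₀ (by norm_num) h1.le 13
  exact (pow_le_pow_iff_left₀ (by norm_num) (Real.exp_pos _).le (by norm_num)).1 h3

theorem exp_neg161 : Real.exp (-1.61) ≤ 1 / 5 := by
  rw [Real.exp_neg, inv_eq_one_div]
  apply one_div_le_one_div_of_le (by norm_num)
  have h1 := Real.exp_one_gt_d9
  have h2 : Real.exp 1.61 ^ 100 = Real.exp 1 ^ 161 := by rw [← Real.exp_nat_mul, ← Real.exp_nat_mul]; norm_num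
  have h3 : (5:ℝ) ^ 100 ≤ Real.exp 1.61 ^ 100 := by
    rw [h2]
    calc (5:ℝ) ^ 100 ≤ 2.7182818283 ^ 161 := by norm_num
      _ ≤ _ := pow_le_pow_left₀ (by norm_num) h1.le 161
  exact (pow_le_pow_iff_left₀ (by norm_num) (Real.exp_pos _).le (by norm_num)).1 h3

theorem exp_M (i : ℕ) : Real.exp (-(4 + 1.1 * (i:ℝ))) ≤ 1 / 50 * (1 / 3) ^ i := by
  have e : -(4 + 1.1 * (i:ℝ)) = -4 + (i:ℝ) * (-1.1) := by ring
  rw [e, Real.exp_add, Real.exp_nat_mul]
  exact mul_le_mul exp_neg4 (pow_le_pow_left₀ (Real.exp_pos _).le exp_neg11 i) (by positivity) (by norm_num)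

theorem exp_N (i : ℕ) : Real.exp (-(2.6 + 1.61 * (i:ℝ))) ≤ 0.075 * (1 / 5) ^ i := by
  have e : -(2.6 + 1.61 * (i:ℝ)) = -2.6 + (i:ℝ) * (-1.61) := by ring
  rw [e, Real.exp_add, Real.exp_nat_mul]
  exact mul_le_mul exp_neg26 (pow_le_pow_left₀ (Real.exp_pos _).le exp_neg161 i) (by positivity) (by norm_num)

/-! ### sums over the window -/

/-- the window of indices without `0`, `1` -/
noncomputable def S (b : ℕ) : Finset ℤ :=
  ((Finset.Ico (-(((b - 1) / 2 : ℕ) : ℤ)) (-(((b - 1) / 2 : ℕ) : ℤ) + b)).erase 0).erase 1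

theorem S_cases {b : ℕ} (hb : 3 ≤ b) {k : ℤ} (hk : k ∈ S b) :
    ∃ i : ℕ, i < b ∧ 2 * (i + 2) ≤ b + 1 ∧ (k = (i : ℤ) + 2 ∨ k = -1 - (i : ℤ)) := by
  unfold S at hk
  rw [Finset.mem_erase, Finset.mem_erase, Finset.mem_Ico] at hk
  obtain ⟨h1, h0, h2, h3⟩ := hk
  rcases le_or_gt 2 k with h | h
  · refine ⟨(k - 2).toNat, by omega, by omega, Or.inl (by omega)⟩
  · refine ⟨(-1 - k).toNat, by omega, by omega, Or.inr (by omega)⟩

theorem sum_window_split {b : ℕ} (hb : 3 ≤ b) (g : ℤ → ℂ) :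
    ∑ k ∈ Finset.Ico (-(((b - 1) / 2 : ℕ) : ℤ)) (-(((b - 1) / 2 : ℕ) : ℤ) + b), g k =
      g 0 + g 1 + ∑ k ∈ S b, g k := by
  have h0 : (0:ℤ) ∈ Finset.Ico (-(((b - 1) / 2 : ℕ) : ℤ)) (-(((b - 1) / 2 : ℕ) : ℤ) + b) := by
    rw [Finset.mem_Ico]; omega
  have h1 : (1:ℤ) ∈ (Finset.Ico (-(((b - 1) / 2 : ℕ) : ℤ)) (-(((b - 1) / 2 : ℕ) : ℤ) + b)).erase 0 := by
    rw [Finset.mem_erase, Finset.mem_Ico]; omega
  rw [← Finset.add_sum_erase _ g h0, ← Finset.add_sum_erase _ g h1, S, add_assoc]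

theorem sum_S_le {b : ℕ} (hb : 3 ≤ b) (f : ℤ → ℝ) (hf : ∀ k, 0 ≤ f k) :
    ∑ k ∈ S b, f k ≤ ∑ i ∈ Finset.range b, (f ((i:ℤ) + 2) + f (-1 - (i:ℤ))) := by
  obtain ⟨A, hA⟩ : ∃ A : Finset ℤ, A = (Finset.range b).image (fun i : ℕ => (i:ℤ) + 2) := ⟨_, rfl⟩
  obtain ⟨B, hB⟩ : ∃ B : Finset ℤ, B = (Finset.range b).image (fun i : ℕ => -1 - (i:ℤ)) := ⟨_, rfl⟩
  have hsub : S b ⊆ A ∪ B := by
    intro k hk
    obtain ⟨i, hi, _, h⟩ := S_cases hb hk
    rw [Finset.mem_union, hA, hB, Finset.mem_image, Finset.mem_image]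
    rcases h with h | h
    · exact Or.inl ⟨i, Finset.mem_range.2 hi, h.symm⟩
    · exact Or.inr ⟨i, Finset.mem_range.2 hi, h.symm⟩
  have hdis : Disjoint A B := by
    rw [Finset.disjoint_left]
    intro k h1 h2
    rw [hA, Finset.mem_image] at h1
    rw [hB, Finset.mem_image] at h2
    obtain ⟨i, _, hi⟩ := h1
    obtain ⟨i', _, hi'⟩ := h2
    omega
  refine (Finset.sum_le_sum_of_subset_of_nonneg hsub (fun k _ _ => hf k)).trans ?_
  rw [Finset.sum_union hdis, hA, hB, Finset.sum_image (by intro x _ y _ h; simpa using h),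
    Finset.sum_image (by intro x _ y _ h; simpa using h), Finset.sum_add_distrib]

/-- index of a term -/
def idx (k : ℤ) : ℕ := if 2 ≤ k then (k - 2).toNat else (-1 - k).toNat

theorem idx_pos (i : ℕ) : idx ((i:ℤ) + 2) = i := by
  unfold idx
  rw [if_pos (by omega)]; omega

theorem idx_neg (i : ℕ) : idx (-1 - (i:ℤ)) = i := by
  unfold idx
  rw [if_neg (by omega)]; omega

theorem nat_pos (i : ℕ) : ((i:ℤ) + 2).natAbs = i + 2 := by omega

theorem nat_neg (i : ℕ) : (-1 - (i:ℤ)).natAbs = i + 1 := by omega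

/-- the bounds for the invariant ratios -/
noncomputable def Mf (k : ℤ) : ℝ := 1 / 50 * (1 / 3) ^ idx k

theorem geo1 (N : ℕ) : ∑ i ∈ Finset.range N,
    ((((i + 2 : ℕ) : ℝ)) * (1 / 50 * (1 / 3) ^ i) * (63 / 50) ^ (i + 2 + 1) +
      (((i + 1 : ℕ) : ℝ)) * (1 / 50 * (1 / 3) ^ i) * (63 / 50) ^ (i + 1 + 1)) ≤
    0.284 - (0.125 * (N:ℝ) + 0.284) * (0.42 : ℝ) ^ N := by
  induction N with
  | zero => simp
  | succ N ih =>
    rw [Finset.sum_range_succ]
    have hq : (0:ℝ) < 0.42 ^ N := by positivity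
    have e : (1 / 3 : ℝ) ^ N * (63 / 50) ^ N = 0.42 ^ N := by
      rw [← mul_pow]; norm_num
    have e1 : (((N + 2 : ℕ) : ℝ)) * (1 / 50 * (1 / 3) ^ N) * (63 / 50) ^ (N + 2 + 1) +
      (((N + 1 : ℕ) : ℝ)) * (1 / 50 * (1 / 3) ^ N) * (63 / 50) ^ (N + 1 + 1) =
      (((N:ℝ) + 2) * (1 / 50) * (63 / 50) ^ 3 + ((N:ℝ) + 1) * (1 / 50) * (63 / 50) ^ 2) * 0.42 ^ N := by
      rw [← e]
      push_cast
      ring
    rw [e1, pow_succ (0.42:ℝ) N]
    push_cast at ih ⊢
    have hN : (0:ℝ) ≤ N := Nat.cast_nonneg N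
    nlinarith [mul_nonneg hN hq.le]

theorem geo2 (N : ℕ) : ∑ i ∈ Finset.range N,
    (1 / 50 * (1 / 3) ^ i / (1 / 25) * (63 / 50) ^ (i + 2) + 1 / 50 * (1 / 3) ^ i / (1 / 25) * (63 / 50) ^ (i + 1)) ≤
    2.455 - 2.455 * (0.42 : ℝ) ^ N := by
  induction N with
  | zero => simp
  | succ N ih =>
    rw [Finset.sum_range_succ]
    have hq : (0:ℝ) < 0.42 ^ N := by positivity
    have e : (1 / 3 : ℝ) ^ N * (63 / 50) ^ N = 0.42 ^ N := by
      rw [← mul_pow]; norm_num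
    have e1 : (1 / 50 * (1 / 3 : ℝ) ^ N / (1 / 25) * (63 / 50) ^ (N + 2) +
      1 / 50 * (1 / 3) ^ N / (1 / 25) * (63 / 50) ^ (N + 1)) = (25 / 50 * (63 / 50) ^ 2 + 25 / 50 * (63 / 50)) * 0.42 ^ N := by
      rw [← e]
      ring
    rw [e1, pow_succ (0.42:ℝ) N]
    nlinarith

theorem geo3 (N : ℕ) : ∑ i ∈ Finset.range N, (0.075 * (1 / 5 : ℝ) ^ i + 0.075 * (1 / 5) ^ i) ≤
    0.1875 - 0.1875 * (1 / 5 : ℝ) ^ N := by
  induction N with
  | zero => simp
  | succ N ih =>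
    rw [Finset.sum_range_succ]
    have hq : (0:ℝ) < (1 / 5) ^ N := by positivity
    rw [pow_succ]
    nlinarith

/-! ### the theorem -/

section Main

variable {b : ℕ} {r : ℝ}

theorem Mf_nonneg (k : ℤ) : 0 ≤ Mf k := by unfold Mf; positivity

/-- the bounds of the far terms on the whole window -/
noncomputable def Nf (k : ℤ) : ℝ := 0.075 * (1 / 5) ^ idx k

theorem Nf_nonneg (k : ℤ) : 0 ≤ Nf k := by unfold Nf; positivity

theorem expo_S (H : Dat b r) {k : ℤ} (hk : k ∈ S b) {t r' : ℝ} (ht : |t| ≤ 0.075) (hr' : 0.96 * r ≤ r') :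
    Real.exp (r' * (Real.cos (t + (2 * (k:ℝ) - 1) * (Real.pi / b)) + ((k:ℝ) - 1) * Real.cos (t - Real.pi / b) -
      (k:ℝ) * Real.cos (t + Real.pi / b))) ≤ Mf k := by
  obtain ⟨i, hi, hib, h⟩ := S_cases H.hb hk
  rcases h with h | h
  · have h1 := expo H (j := i + 2) (by omega) hib ht hr'
    rw [h]; unfold Mf; rw [idx_pos]
    refine le_trans (Real.exp_le_exp.2 ?_) (exp_M i)
    push_cast at h1 ⊢
    have e : (i:ℝ) + 2 - 2 = i := by ring
    rw [e] at h1
    exact h1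
  · have h1 := expo H (j := i + 2) (by omega) hib (t := -t) (by rwa [abs_neg]) hr'
    rw [h]; unfold Mf; rw [idx_neg]
    refine le_trans (Real.exp_le_exp.2 ?_) (exp_M i)
    push_cast at h1 ⊢
    have e0 : (i:ℝ) + 2 - 2 = i := by ring
    have e1 : Real.cos (-t + (2 * ((i:ℝ) + 2) - 1) * (Real.pi / b)) =
        Real.cos (t + (2 * (-1 - (i:ℝ)) - 1) * (Real.pi / b)) := by
      rw [← Real.cos_neg]; congr 1; ring
    have e2 : Real.cos (-t - Real.pi / b) = Real.cos (t + Real.pi / b) := by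
      rw [← Real.cos_neg]; congr 1; ring
    have e3 : Real.cos (-t + Real.pi / b) = Real.cos (t - Real.pi / b) := by
      rw [← Real.cos_neg]; congr 1; ring
    rw [e1, e2, e3, e0] at h1
    refine le_trans (le_of_eq ?_) h1
    ring

theorem far_S (H : Dat b r) {k : ℤ} (hk : k ∈ S b) {t : ℝ} (ht : |t| ≤ Real.pi / b) :
    Real.exp (r * Real.cos (t + (2 * (k:ℝ) - 1) * (Real.pi / b))) ≤
      Nf k * max (Real.exp (r * Real.cos (t - Real.pi / b))) (Real.exp (r * Real.cos (t + Real.pi / b))) := by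
  have hr0 : 0 < r := by have := H.h10; linarith
  have h0 := phi_pos H
  have hmax : max (Real.exp (r * Real.cos (t - Real.pi / b))) (Real.exp (r * Real.cos (t + Real.pi / b))) =
      Real.exp (r * max (Real.cos (t - Real.pi / b)) (Real.cos (t + Real.pi / b))) := by
    rw [← Real.exp_monotone.map_max]
    congr 1
    exact ((monotone_mul_left_of_nonneg hr0.le).map_max).symm
  rw [hmax]
  obtain ⟨i, hi, hib, h⟩ := S_cases H.hb hk
  have hfar := far_exp H (j := i + 2) (by omega) hib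
  have hn := n_phi_le H hib
  have hj1 : (1:ℝ) ≤ ((i + 2 : ℕ) : ℝ) := by push_cast; have : (0:ℝ) ≤ i := Nat.cast_nonneg i; linarith
  obtain ⟨m, hm⟩ : ∃ m, m = max (Real.cos (t - Real.pi / b)) (Real.cos (t + Real.pi / b)) := ⟨_, rfl⟩
  have hcos : Real.cos (t + (2 * (k:ℝ) - 1) * (Real.pi / b)) ≤
      m - 2 * Real.sin ((((i + 2 : ℕ) : ℝ) - 1) * (Real.pi / b)) ^ 2 := by
    rw [hm]
    rcases h with h | h
    · have h1 := cos_far_add (t := t) hj1 h0.le ht hn
      have e : ((k:ℝ)) = ((i + 2 : ℕ) : ℝ) := by rw [h]; push_cast; ring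
      rw [e]; exact h1
    · have h1 := cos_far_sub (t := t) hj1 h0.le ht hn
      have e : t + (2 * (k:ℝ) - 1) * (Real.pi / b) = t - (2 * ((i + 2 : ℕ) : ℝ) - 1) * (Real.pi / b) := by
        rw [h]; push_cast; ring
      rw [e]; exact h1
  have hidx : Nf k = 0.075 * (1 / 5) ^ i := by
    unfold Nf
    rcases h with h | h
    · rw [h, idx_pos]
    · rw [h, idx_neg]
  rw [← hm, hidx]
  refine le_trans ?_ (mul_le_mul_of_nonneg_right (exp_N i) (Real.exp_pos _).le)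
  rw [← Real.exp_add]
  apply Real.exp_le_exp.2
  have h2 : r * Real.cos (t + (2 * (k:ℝ) - 1) * (Real.pi / b)) ≤
      r * (m - 2 * Real.sin ((((i + 2 : ℕ) : ℝ) - 1) * (Real.pi / b)) ^ 2) :=
    mul_le_mul_of_nonneg_left hcos hr0.le
  have e0 : (((i + 2 : ℕ) : ℝ)) - 2 = i := by push_cast; ring
  rw [e0] at hfar
  linarith

theorem small1 (H : Dat b r) :
    ∑ k ∈ S b, (k.natAbs : ℝ) * Mf k * (63 / 50) ^ (k.natAbs + 1) ≤ 0.284 := by
  refine (sum_S_le H.hb (fun k => (k.natAbs : ℝ) * Mf k * (63 / 50) ^ (k.natAbs + 1))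
    (fun k => by have := Mf_nonneg k; positivity)).trans ?_
  have h := geo1 b
  have e : ∀ i ∈ Finset.range b, ((((i:ℤ) + 2).natAbs : ℝ) * Mf ((i:ℤ) + 2) * (63 / 50) ^ (((i:ℤ) + 2).natAbs + 1) +
      ((-1 - (i:ℤ)).natAbs : ℝ) * Mf (-1 - (i:ℤ)) * (63 / 50) ^ ((-1 - (i:ℤ)).natAbs + 1)) =
      ((((i + 2 : ℕ) : ℝ)) * (1 / 50 * (1 / 3) ^ i) * (63 / 50) ^ (i + 2 + 1) +
      (((i + 1 : ℕ) : ℝ)) * (1 / 50 * (1 / 3) ^ i) * (63 / 50) ^ (i + 1 + 1)) := by
    intro i _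
    rw [nat_pos, nat_neg]
    unfold Mf
    rw [idx_pos, idx_neg]
  rw [Finset.sum_congr rfl e]
  have h2 : (0:ℝ) ≤ (0.125 * (b:ℝ) + 0.284) * 0.42 ^ b := by positivity
  linarith

theorem small2 (H : Dat b r) :
    ∑ k ∈ S b, Mf k / (1 / 25) * (63 / 50) ^ k.natAbs ≤ 2.455 := by
  refine (sum_S_le H.hb (fun k => Mf k / (1 / 25) * (63 / 50) ^ k.natAbs)
    (fun k => by have := Mf_nonneg k; positivity)).trans ?_
  have h := geo2 b
  have e : ∀ i ∈ Finset.range b, (Mf ((i:ℤ) + 2) / (1 / 25) * (63 / 50) ^ ((i:ℤ) + 2).natAbs +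
      Mf (-1 - (i:ℤ)) / (1 / 25) * (63 / 50) ^ (-1 - (i:ℤ)).natAbs) =
      (1 / 50 * (1 / 3) ^ i / (1 / 25) * (63 / 50) ^ (i + 2) + 1 / 50 * (1 / 3) ^ i / (1 / 25) * (63 / 50) ^ (i + 1)) := by
    intro i _
    rw [nat_pos, nat_neg]
    unfold Mf
    rw [idx_pos, idx_neg]
  rw [Finset.sum_congr rfl e]
  have h2 : (0:ℝ) ≤ 2.455 * 0.42 ^ b := by positivity
  linarith

theorem small3 (H : Dat b r) : ∑ k ∈ S b, Nf k ≤ 1 / 5 := by
  refine (sum_S_le H.hb Nf Nf_nonneg).trans ?_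
  have h := geo3 b
  have e : ∀ i ∈ Finset.range b, (Nf ((i:ℤ) + 2) + Nf (-1 - (i:ℤ))) =
      (0.075 * (1 / 5 : ℝ) ^ i + 0.075 * (1 / 5) ^ i) := by
    intro i _
    unfold Nf
    rw [idx_pos, idx_neg]
  rw [Finset.sum_congr rfl e]
  have h2 : (0:ℝ) ≤ 0.1875 * (1 / 5) ^ b := by positivity
  linarith

theorem exp_zpow (y : ℝ) (n : ℤ) : Real.exp y ^ n = Real.exp (n * y) := by
  rw [mul_comm, Real.exp_mul, Real.rpow_intCast]

theorem twoTerm (H : Dat b r) : TwoTerm (X b) (S b) (Real.log r) (-(Real.pi / b) - 0.035)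
    (-(Real.pi / b) + 0.035) (1 / 25) (63 / 50) 7.4 Mf where
  diff k := differentiable_X b k
  one_lt := by norm_num
  rho := by norm_num
  nz0 w _ w' _ := X_ne b 0 w'
  nz1 w _ w' _ := X_ne b 1 w'
  bound w hw w' hw' k hk := by
    have hr0 : 0 < r := by have := H.h10; linarith
    obtain ⟨h1, h2, h3⟩ := hw
    have h4 : ‖w' - w‖ ≤ 1 / 25 := by rw [← dist_eq_norm]; exact mem_closedBall.1 hw'
    have h5 := (Complex.abs_re_le_norm (w' - w)).trans h4
    have h6 := (Complex.abs_im_le_norm (w' - w)).trans h4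
    rw [Complex.sub_re] at h5
    rw [Complex.sub_im] at h6
    rw [abs_le] at h5 h6
    have hr' : 0.96 * r ≤ Real.exp w'.re := by
      have h7 : Real.log r + (-0.04) ≤ w'.re := by rw [← h1]; linarith
      have h8 : (0.96:ℝ) ≤ Real.exp (-0.04) := by
        have := Real.add_one_le_exp (-0.04 : ℝ)
        linarith
      calc 0.96 * r ≤ Real.exp (-0.04) * r := mul_le_mul_of_nonneg_right h8 hr0.le
        _ = Real.exp (Real.log r + (-0.04)) := by rw [Real.exp_add, Real.exp_log hr0, mul_comm]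
        _ ≤ _ := Real.exp_le_exp.2 h7
    have ht : |w'.im + Real.pi / b| ≤ 0.075 := by
      rw [abs_le]
      constructor <;> linarith
    have hE := expo_S H hk ht hr'
    rw [norm_X, norm_X, norm_X, exp_zpow, exp_zpow, ← Real.exp_add, ← Real.exp_add]
    refine le_trans (le_of_eq ?_) hE
    congr 1
    push_cast
    have e0 : w'.im + Real.pi / b + (2 * 0 - 1) * (Real.pi / b) = w'.im + Real.pi / b - Real.pi / b := by ring
    have e1 : w'.im + Real.pi / b + (2 * 1 - 1) * (Real.pi / b) = w'.im + Real.pi / b + Real.pi / b := by ring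
    rw [e0, e1]
    ring
  slope w hw := by
    have hr0 : 0 < r := by have := H.h10; linarith
    have h0 := phi_pos H
    obtain ⟨h1, h2, h3⟩ := hw
    rw [Complex.sub_im, slope_X, slope_X, h1, Real.exp_log hr0]
    obtain ⟨t, ht⟩ : ∃ t, t = w.im + Real.pi / b := ⟨_, rfl⟩
    rw [← ht]
    push_cast
    have e : r * Real.sin (t + (2 * 1 - 1) * (Real.pi / b)) - r * Real.sin (t + (2 * 0 - 1) * (Real.pi / b)) =
        (2 * r * Real.sin (Real.pi / b)) * Real.cos t := by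
      have e1 : t + (2 * 1 - 1) * (Real.pi / b) = t + Real.pi / b := by ring
      have e2 : t + (2 * 0 - 1) * (Real.pi / b) = t - Real.pi / b := by ring
      rw [e1, e2, Real.sin_add, Real.sin_sub]
      ring
    rw [e]
    have hF1 := F1 H
    have ht1 : -0.035 ≤ t := by linarith
    have ht2 : t ≤ 0.035 := by linarith
    have hc : 0.99 ≤ Real.cos t := by
      have h5 := Real.one_sub_sq_div_two_le_cos (x := t)
      have : t ^ 2 ≤ 0.035 ^ 2 := sq_le_sq' ht1 ht2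
      nlinarith
    nlinarith
  small1 := lt_of_le_of_lt (small1 H) (by norm_num)
  small2 := by
    have h1 := small1 H
    have h2 := small2 H
    nlinarith

/-- **A3-Z**: the circles at the roots of unity of order `b ≥ 3` -/
theorem circ_root {p : ℤ} (hb : 3 ≤ b) (hp : IsCoprime (b : ℤ) p) (h10 : 10 ≤ r)
    (hcov : Real.sqrt 3 / 2 * (b : ℝ) ^ 2 ≤ 2 * Real.pi * r) : Circ (2 * Real.pi * p / b) r := by
  have H : Dat b r := ⟨hb, h10, hcov⟩
  have hr0 : 0 < r := by linarith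
  have h0 := phi_pos H
  have hb0 : 0 < b := by omega
  obtain ⟨u', p', hup⟩ := hp
  have hp' : (b : ℤ) ∣ p * p' - 1 := ⟨-u', by linarith⟩
  have hq : ‖ee (p / b) * Complex.exp ((0:ℝ) * I)‖ ≤ 1 := by
    rw [norm_mul, norm_ee, Complex.norm_exp_ofReal_mul_I, one_mul]
  have hFa : Fa (2 * Real.pi * p / b) = F (ee (p / b) * Complex.exp ((0:ℝ) * I)) := by
    funext z
    unfold Fa ee
    rw [Complex.ofReal_zero, zero_mul, Complex.exp_zero, mul_one]
    congr 2
    push_cast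
    ring
  have hF : ∀ w j, F (ee (p / b) * Complex.exp ((0:ℝ) * I)) (pt p b w j) =
      cc p b 0 * tot p p' b (X b) (S b) w j := by
    intro w j
    rw [F_valley hb0 hp' 0 w j (-(((b - 1) / 2 : ℕ) : ℤ)), sum_window_split hb]
    unfold tot X
    rw [add_zero]
  have hpb : 2 * Real.pi / b = 2 * (Real.pi / b) := by ring
  have key := valley_unique hb0 hp' hq (cc_zero_ne hb0 hp') hF (θ0 := -(2 * (Real.pi / b)))
    (η := 1 / 5) (by linarith) (twoTerm H) (by norm_num) ?_ ?_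
  · rw [Real.exp_log hr0] at key
    unfold Circ
    rw [hFa]
    exact ⟨fun z hz hzr => key.1 z hzr hz, fun z w hz hw hzr hwr => key.2 z w hzr hwr hz hw⟩
  · intro w hw
    refine ⟨Or.inl (X_ne b 0 w), ?_⟩
    obtain ⟨h1, h2, h3⟩ := hw
    rw [hpb] at h3
    have ht : |w.im + Real.pi / b| ≤ Real.pi / b := by
      rw [abs_le]; constructor <;> linarith
    have e0 : w.im + Real.pi / b + (2 * ((0:ℤ):ℝ) - 1) * (Real.pi / b) = w.im + Real.pi / b - Real.pi / b := by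
      push_cast; ring
    have e1 : w.im + Real.pi / b + (2 * ((1:ℤ):ℝ) - 1) * (Real.pi / b) = w.im + Real.pi / b + Real.pi / b := by
      push_cast; ring
    rw [norm_X b 0, norm_X b 1, e0, e1, h1, Real.exp_log hr0]
    obtain ⟨mx, hmx⟩ : ∃ mx, mx = max (Real.exp (r * Real.cos (w.im + Real.pi / b - Real.pi / b)))
      (Real.exp (r * Real.cos (w.im + Real.pi / b + Real.pi / b))) := ⟨_, rfl⟩
    have hmx0 : 0 ≤ mx := by rw [hmx]; exact le_max_of_le_left (Real.exp_pos _).le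
    rw [← hmx]
    calc ∑ k ∈ S b, ‖X b k w‖ ≤ ∑ k ∈ S b, Nf k * mx := by
          apply Finset.sum_le_sum
          intro k hk
          rw [norm_X, h1, Real.exp_log hr0, hmx]
          exact far_S H hk ht
      _ = (∑ k ∈ S b, Nf k) * mx := by rw [Finset.sum_mul]
      _ ≤ 1 / 5 * mx := mul_le_mul_of_nonneg_right (small3 H) hmx0
  · intro w hw _ _ ha1 ha2
    obtain ⟨h1, h2, h3⟩ := hw
    rw [hpb] at h3
    have e0 : w.im + Real.pi / b + (2 * ((0:ℤ):ℝ) - 1) * (Real.pi / b) = w.im + Real.pi / b - Real.pi / b := by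
      push_cast; ring
    have e1 : w.im + Real.pi / b + (2 * ((1:ℤ):ℝ) - 1) * (Real.pi / b) = w.im + Real.pi / b + Real.pi / b := by
      push_cast; ring
    rw [norm_div, norm_X b 0, norm_X b 1, e0, e1, h1, Real.exp_log hr0, ← Real.exp_sub] at ha1 ha2
    obtain ⟨t, ht⟩ : ∃ t, t = w.im + Real.pi / b := ⟨_, rfl⟩
    rw [← ht] at ha1 ha2
    have e : r * Real.cos (t + Real.pi / b) - r * Real.cos (t - Real.pi / b) =
        -((2 * r * Real.sin (Real.pi / b)) * Real.sin t) := by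
      rw [Real.cos_add, Real.cos_sub]; ring
    rw [e] at ha1 ha2
    have hF1 := F1 H
    obtain ⟨A, hA⟩ : ∃ A, A = 2 * r * Real.sin (Real.pi / b) := ⟨_, rfl⟩
    rw [← hA] at ha1 ha2 hF1
    -- |A sin t| ≤ .26
    have hup1 : -(A * Real.sin t) ≤ 0.26 := by
      have := Real.add_one_le_exp (-(A * Real.sin t))
      linarith
    have hup2 : A * Real.sin t ≤ 0.26 := by
      have h5 : Real.exp (A * Real.sin t) ≤ 63 / 50 := by
        have h6 : Real.exp (A * Real.sin t) = (Real.exp (-(A * Real.sin t)))⁻¹ := by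
          rw [Real.exp_neg, inv_inv]
        rw [h6]
        exact inv_le_of_inv_le₀ (by norm_num) ha2
      have := Real.add_one_le_exp (A * Real.sin t)
      linarith
    have hphi3 := phi_le H (n := 3) (by norm_num) hb
    push_cast at hphi3
    have ht2 : t ≤ Real.pi / b := by linarith
    have ht1 : -(Real.pi / b) ≤ t := by linarith
    have hpi := Real.pi_pos
    have hsin35 : 0.0349 ≤ Real.sin 0.035 := by
      have := Real.sin_ge_sub_cube (x := 0.035) (by norm_num)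
      norm_num at this ⊢
      linarith
    refine ⟨h1, ?_, ?_⟩
    · by_contra hcon
      push Not at hcon
      have h7 : t < -0.035 := by linarith
      have h8 : Real.sin 0.035 ≤ Real.sin (-t) := by
        apply Real.sin_le_sin_of_le_of_le_pi_div_two <;> linarith
      rw [Real.sin_neg] at h8
      nlinarith
    · by_contra hcon
      push Not at hcon
      have h7 : 0.035 < t := by linarith
      have h8 : Real.sin 0.035 ≤ Real.sin t := by
        apply Real.sin_le_sin_of_le_of_le_pi_div_two <;> linarith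
      nlinarith

end Main

end Beta0

/-- row Z3 of `SokC.top` -/
theorem circ_root_of_unity (b : ℕ) (p : ℤ) (r : ℝ) (hb : 3 ≤ b) (hp : IsCoprime (b : ℤ) p) (hr : 10 ≤ r)
    (h : Real.sqrt 3 / 2 * ((b : ℝ) ^ 2 * (1 + (0 * r) ^ 2)) ≤ 2 * Real.pi * r) :
    Circ (2 * Real.pi * p / b) r := by
  apply Beta0.circ_root hb hp hr
  simpa using h

end Sok
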