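import Pool.Agent.Lib.MP_816dec_an.CU6

/-!
MP_816dec_an, part C, near q = 1: definitions for the window (V contour, Airy function) and frames.
-/

open Complex Set Filter Topology MeasureTheory

namespace Sok

/-- ω = e^(2πi/3) -/
noncomputable def om : ℂ := exp (2 * Real.pi / 3 * I)

/-- h(δ) = e^δ - 1 - δ - δ²/2 -/
noncomputable def hD (d : ℂ) : ℂ := exp d - 1 - d - d ^ 2 / 2

/-- the Airy function Y(ζ) = 2π Ai(-ζ), as an integral over the two rays ω, conj ω -/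
noncomputable def Yf (ζ : ℂ) : ℂ :=
  (1 / I) * (om * (∫ ρ in Ioi (0:ℝ), exp (-((ρ:ℂ) ^ 3 / 3) - om * ρ * ζ))
    - starRingEnd ℂ om * (∫ ρ in Ioi (0:ℝ), exp (-((ρ:ℂ) ^ 3 / 3) - starRingEnd ℂ om * ρ * ζ)))

/-- its derivative -/
noncomputable def Y1f (ζ : ℂ) : ℂ :=
  (1 / I) * (om * (∫ ρ in Ioi (0:ℝ), (-(om * ρ)) * exp (-((ρ:ℂ) ^ 3 / 3) - om * ρ * ζ))
    - starRingEnd ℂ om * (∫ ρ in Ioi (0:ℝ), (-(starRingEnd ℂ om * ρ)) *
        exp (-((ρ:ℂ) ^ 3 / 3) - starRingEnd ℂ om * ρ * ζ)))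

/-- c = (2s)^(1/3), principal -/
noncomputable def cs (s : ℂ) : ℂ := exp (log (2 * s) / 3)

/-- K(s) = (2πs)^(1/2) e^(1/(2s)) / c -/
noncomputable def Ks (s : ℂ) : ℂ := exp (log (2 * Real.pi * s) / 2) * exp (1 / (2 * s)) / cs s

/-- the V contour integral -/
noncomputable def PhiI (s b : ℂ) : ℂ :=
  (1 / I) * (om * (∫ ρ in Ioi (0:ℝ), exp (-(1 / s) * (hD (cs s * om * ρ) + b * (exp (cs s * om * ρ) - 1))))
    - starRingEnd ℂ om * (∫ ρ in Ioi (0:ℝ),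
        exp (-(1 / s) * (hD (cs s * starRingEnd ℂ om * ρ) + b * (exp (cs s * starRingEnd ℂ om * ρ) - 1)))))

/-- strong frame: the N zeros of smallest modulus, simple, with |z_i| < |q| |z_(i+1)| -/
structure Frame (q : ℂ) (N : ℕ) (z : ℕ → ℂ) : Prop where
  zero : ∀ i < N, F q (z i) = 0
  simple : ∀ i < N, F q (q * z i) ≠ 0
  incr : ∀ i, i + 1 < N → ‖z i‖ < ‖q‖ * ‖z (i + 1)‖
  complete : ∀ w, F q w = 0 → (∃ i < N, ‖w‖ ≤ ‖z i‖) → ∃ i < N, w = z i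

/-- there is a strong frame of N zeros -/
def Strong (q : ℂ) (N : ℕ) : Prop := ∃ z : ℕ → ℂ, Frame q N z

/-- region of s: 0 ≤ Re s, s ≠ 0 -/
def HP : Set ℂ := {s | 0 ≤ s.re ∧ s ≠ 0}

end Sok
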