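import Mathlib

/-!
Part C of the proof for Sokal's function: simultaneous approximation on the torus.
-/

set_option autoImplicit false

namespace Sok

/-- Powers of unimodular numbers come back to `1`, simultaneously. -/
theorem dirichlet_pow {k : ℕ} (u : Fin k → ℂ) (hu : ∀ i, ‖u i‖ = 1) (e : ℝ) (he : 0 < e) (M : ℕ) :
    ∃ m, M ≤ m ∧ 1 ≤ m ∧ ∀ i, ‖u i ^ m - 1‖ < e := by
  have hc : IsCompact (Metric.closedBall (0 : Fin k → ℂ) 1) := isCompact_closedBall _ _
  have hx : ∀ n : ℕ, (fun i => u i ^ n) ∈ Metric.closedBall (0 : Fin k → ℂ) 1 := by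
    intro n
    rw [mem_closedBall_zero_iff, pi_norm_le_iff_of_nonneg zero_le_one]
    intro i
    rw [norm_pow, hu i, one_pow]
  obtain ⟨a, -, φ, hφ, hlim⟩ := hc.tendsto_subseq hx
  have hcau := hlim.cauchySeq
  rw [Metric.cauchySeq_iff] at hcau
  obtain ⟨N, hN⟩ := hcau e he
  have h1 : φ N + (M + 1) ≤ φ (N + (M + 1)) := by
    have : ∀ j, φ N + j ≤ φ (N + j) := by
      intro j
      induction j with
      | zero => exact le_rfl
      | succ j ih => exact Nat.succ_le_of_lt (ih.trans_lt (hφ (Nat.lt_succ_self _)))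
    exact this _
  have h2 := hN (N + (M + 1)) (by omega) N le_rfl
  obtain ⟨m, hm⟩ := Nat.exists_eq_add_of_le (le_trans (Nat.le_add_right _ _) h1)
  refine ⟨m, by omega, by omega, fun i => ?_⟩
  have h3 : dist (u i ^ φ (N + (M + 1))) (u i ^ φ N) < e :=
    (dist_le_pi_dist (fun i => u i ^ φ (N + (M + 1))) (fun i => u i ^ φ N) i).trans_lt h2
  rw [hm, pow_add, dist_eq_norm] at h3
  have h4 : u i ^ φ N * u i ^ m - u i ^ φ N = u i ^ φ N * (u i ^ m - 1) := by ring
  rwa [h4, norm_mul, norm_pow, hu i, one_pow, one_mul] at h3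

end Sok
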