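import Pool.Agent.Lib.MP_816dec_an.Disc

/-!
MP_816dec_an: Hurwitz theorem at a simple zero (Newton-Kantorovich), for a filter of entire functions.
-/

open Complex Set Filter Topology Metric

namespace Sok

/-- uniform convergence of functions implies uniform convergence of derivatives (entire functions) -/
theorem tlu_deriv {ι : Type*} {l : Filter ι} {f : ι → ℂ → ℂ} {g : ℂ → ℂ}
    (hf : TendstoLocallyUniformly f g l) (hd : ∀ᶠ i in l, Differentiable ℂ (f i)) :
    TendstoLocallyUniformly (fun i => deriv (f i)) (deriv g) l := by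
  have h1 : TendstoLocallyUniformlyOn f g l univ := tendstoLocallyUniformlyOn_univ.2 hf
  have h2 := h1.deriv (hd.mono fun i hi => hi.differentiableOn) isOpen_univ
  exact tendstoLocallyUniformlyOn_univ.1 h2

/-- Hurwitz at a simple zero -/
theorem hurwitz_simple {ι : Type*} {l : Filter ι} {f : ι → ℂ → ℂ} {g : ℂ → ℂ}
    (hf : TendstoLocallyUniformly f g l) (hd : ∀ᶠ i in l, Differentiable ℂ (f i))
    (hg : Differentiable ℂ g) {a : ℂ} (ha : g a = 0) (ha' : deriv g a ≠ 0) :
    ∃ δ₀ > 0, ∀ δ, 0 < δ → δ ≤ δ₀ → ∀ᶠ i in l, ∃ w ∈ ball a δ, f i w = 0 ∧ deriv (f i) w ≠ 0 ∧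
      ∀ w' ∈ ball a δ, f i w' = 0 → w' = w := by
  obtain ⟨M, hM⟩ : ∃ M, M = deriv g a := ⟨_, rfl⟩
  have hM0 : M ≠ 0 := by rw [hM]; exact ha'
  have hMpos : 0 < ‖M‖ := norm_pos_iff.2 hM0
  have hcont : Continuous (deriv g) := (hg.contDiff (n := 1)).continuous_deriv le_rfl
  have h1 := Metric.continuousAt_iff.1 (hcont.continuousAt (x := a)) (‖M‖ / 4) (by positivity)
  obtain ⟨δ₀, hδ₀, h2⟩ := h1
  refine ⟨δ₀ / 2, by positivity, fun δ hδ hδδ => ?_⟩
  have hder := tlu_deriv hf hd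
  have hK : IsCompact (closedBall a δ) := isCompact_closedBall a δ
  have hu1 : TendstoUniformlyOn f g l (closedBall a δ) :=
    (tendstoLocallyUniformlyOn_iff_tendstoUniformlyOn_of_compact hK).1 hf.tendstoLocallyUniformlyOn
  have hu2 : TendstoUniformlyOn (fun i => deriv (f i)) (deriv g) l (closedBall a δ) :=
    (tendstoLocallyUniformlyOn_iff_tendstoUniformlyOn_of_compact hK).1 hder.tendstoLocallyUniformlyOn
  rw [Metric.tendstoUniformlyOn_iff] at hu1 hu2
  have e1 := hu1 (‖M‖ * δ / 8) (by positivity)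
  have e2 := hu2 (‖M‖ / 4) (by positivity)
  filter_upwards [e1, e2, hd] with i i1 i2 i3
  have hder' : ∀ z ∈ ball a δ, HasDerivAt (f i) (deriv (f i) z) z := fun z _ => (i3 z).hasDerivAt
  have hclose : ∀ z ∈ ball a δ, ‖deriv (f i) z - M‖ ≤ (1 / 2) * ‖M‖ := by
    intro z hz
    have h3 := i2 z (ball_subset_closedBall hz)
    have h4 : dist (deriv g z) (deriv g a) < ‖M‖ / 4 := by
      apply h2
      rw [mem_ball] at hz
      linarith
    rw [dist_eq_norm] at h3 h4
    calc ‖deriv (f i) z - M‖ = ‖(deriv g z - deriv g a) - (deriv g z - deriv (f i) z)‖ := by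
          rw [hM]; congr 1; ring
      _ ≤ ‖deriv g z - deriv g a‖ + ‖deriv g z - deriv (f i) z‖ := norm_sub_le _ _
      _ ≤ _ := by linarith
  have hfa : ‖f i a‖ ≤ (1 - 1 / 2) * ‖M‖ * (δ / 4) := by
    have h3 := i1 a (mem_closedBall_self hδ.le)
    rw [ha, dist_zero_left] at h3
    linarith
  obtain ⟨w, hw, hw0⟩ := disc_exists hM0 (by norm_num) (by norm_num) (by positivity)
    (by linarith : δ / 4 < δ) hder' hclose hfa
  have hwb : w ∈ ball a δ := by
    rw [mem_closedBall] at hw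
    rw [mem_ball]; linarith
  refine ⟨w, hwb, hw0, disc_simple hM0 (by norm_num) hclose hwb, fun w' hw' h0 => ?_⟩
  exact disc_uniq hM0 (by norm_num) hder' hclose hw' hwb h0 hw0

/-- no zeros on a compact set without zeros of the limit -/
theorem hurwitz_compact {ι : Type*} {l : Filter ι} {f : ι → ℂ → ℂ} {g : ℂ → ℂ}
    (hf : TendstoLocallyUniformly f g l) (hg : Continuous g) {K : Set ℂ} (hK : IsCompact K)
    (hne : ∀ z ∈ K, g z ≠ 0) : ∀ᶠ i in l, ∀ z ∈ K, f i z ≠ 0 := by
  rcases K.eq_empty_or_nonempty with h | h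
  · subst h; simp
  · obtain ⟨z0, hz0, hmin⟩ := hK.exists_isMinOn h hg.norm.continuousOn
    have hpos : 0 < ‖g z0‖ := norm_pos_iff.2 (hne z0 hz0)
    have hu1 : TendstoUniformlyOn f g l K :=
      (tendstoLocallyUniformlyOn_iff_tendstoUniformlyOn_of_compact hK).1 hf.tendstoLocallyUniformlyOn
    rw [Metric.tendstoUniformlyOn_iff] at hu1
    filter_upwards [hu1 _ hpos] with i hi z hz h0
    have h1 := hi z hz
    rw [h0, dist_zero_right] at h1
    have h2 : ‖g z0‖ ≤ ‖g z‖ := hmin hz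
    linarith

end Sok
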