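import Mathlib

/-!
MP_816dec_an, b = 1: the left function `C` on the vertical line through the valley direction, the
kernel formula for the square of its modulus, and positivity of the kernel `2 K_{iν}(x)` for `|ν| ≤ x`.
-/

set_option autoImplicit false

open Complex Set Filter Topology MeasureTheory

namespace Sok

namespace CK

/-- rotation of a product integral -/
theorem rot {f g : ℝ → ℂ} (hf : Integrable f) (hg : Integrable g) (hfc : Continuous f)
    (hgc : Continuous g) :
    Integrable (fun p : ℝ × ℝ => f (p.1 + p.2) * g (p.1 - p.2)) (volume.prod volume) ∧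
    ∫ p : ℝ × ℝ, f (p.1 + p.2) * g (p.1 - p.2) ∂(volume.prod volume) =
      (1 / 2 : ℝ) * ((∫ x, f x) * ∫ y, g y) := by
  have hmp : MeasurePreserving (fun p : ℝ × ℝ => (p.1 + p.2, p.2)) (volume.prod volume)
      (volume.prod volume) := measurePreserving_add_prod volume volume
  -- the inner integral
  have hin : ∀ a : ℝ, Integrable (fun y : ℝ => g (a - 2 * y)) := by
    intro a
    have h1 : Integrable (fun y : ℝ => g (a - y)) := hg.comp_sub_left a
    have h2 := h1.comp_mul_left' (R := 2) (by norm_num)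
    exact h2
  have hin' : ∀ a : ℝ, ∫ y : ℝ, g (a - 2 * y) = (1 / 2 : ℝ) * ∫ y, g y := by
    intro a
    have h1 := Measure.integral_comp_mul_left (fun y : ℝ => g (a - y)) 2
    rw [h1, integral_sub_left_eq_self (fun y => g y) volume a]
    simp [abs_of_pos]
  have hin'' : ∀ a : ℝ, ∫ y : ℝ, ‖g (a - 2 * y)‖ = (1 / 2 : ℝ) * ∫ y, ‖g y‖ := by
    intro a
    have h1 := Measure.integral_comp_mul_left (fun y : ℝ => ‖g (a - y)‖) 2
    rw [h1, integral_sub_left_eq_self (fun y => ‖g y‖) volume a]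
    simp [abs_of_pos]
  have hH : Integrable (fun p : ℝ × ℝ => f p.1 * g (p.1 - 2 * p.2)) (volume.prod volume) := by
    rw [integrable_prod_iff]
    · constructor
      · exact Filter.Eventually.of_forall fun a => (hin a).const_mul (f a)
      · have e1 : (fun a : ℝ => ∫ y : ℝ, ‖f a * g (a - 2 * y)‖) =
            fun a => ‖f a‖ * ((1 / 2 : ℝ) * ∫ y, ‖g y‖) := by
          funext a
          simp only [norm_mul]
          rw [integral_const_mul, hin'']
        show Integrable (fun a : ℝ => ∫ y : ℝ, ‖f a * g (a - 2 * y)‖)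
        rw [e1]
        exact hf.norm.mul_const _
    · exact (by fun_prop : Continuous fun p : ℝ × ℝ => f p.1 * g (p.1 - 2 * p.2)).aestronglyMeasurable
  have e0 : (fun p : ℝ × ℝ => f (p.1 + p.2) * g (p.1 - p.2)) =
      (fun p : ℝ × ℝ => f p.1 * g (p.1 - 2 * p.2)) ∘ fun p : ℝ × ℝ => (p.1 + p.2, p.2) := by
    funext p
    simp only [Function.comp]
    congr 2
    ring
  have hme : MeasurableEmbedding (fun p : ℝ × ℝ => (p.1 + p.2, p.2)) := by
    have h1 : (fun p : ℝ × ℝ => (p.1 + p.2, p.2)) =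
        ((Homeomorph.mk (Equiv.mk (fun p : ℝ × ℝ => (p.1 + p.2, p.2)) (fun p => (p.1 - p.2, p.2))
          (fun p => by simp) (fun p => by simp)) (by fun_prop) (by fun_prop) : ℝ × ℝ ≃ₜ ℝ × ℝ)) := rfl
    rw [h1]
    exact Homeomorph.measurableEmbedding _
  constructor
  · rw [e0]
    exact (hmp.integrable_comp_emb hme).2 hH
  · rw [e0]
    have h1 := hmp.integral_comp hme (fun p : ℝ × ℝ => f p.1 * g (p.1 - 2 * p.2))
    refine h1.trans ?_
    rw [integral_prod _ hH]
    simp only [integral_const_mul, hin']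
    rw [integral_mul_const]
    ring

theorem cosh_ge (y : ℝ) : 1 + y ^ 2 / 2 ≤ Real.cosh y := by
  have h1 : Real.cosh y = 1 + 2 * Real.sinh (y / 2) ^ 2 := by
    have h2 := Real.cosh_two_mul (y / 2)
    have h3 := Real.cosh_sq (y / 2)
    have e1 : 2 * (y / 2) = y := by ring
    rw [e1, h3] at h2
    linarith
  have h4 : (y / 2) ^ 2 ≤ Real.sinh (y / 2) ^ 2 := by
    rw [← sq_abs (y / 2), ← sq_abs (Real.sinh (y / 2)), Real.abs_sinh]
    have h5 : |y / 2| ≤ Real.sinh |y / 2| := Real.self_le_sinh_iff.2 (abs_nonneg _)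
    exact pow_le_pow_left₀ (abs_nonneg _) h5 2
  rw [h1]
  nlinarith

/-- the basic integrand -/
noncomputable def kj (k : ℕ) (x ν y : ℝ) : ℝ :=
  Real.cosh y ^ k * (Real.exp (-(x * Real.cosh y)) * Real.cos (ν * y))

theorem continuous_kj (k : ℕ) (x ν : ℝ) : Continuous (kj k x ν) := by
  unfold kj
  have := Real.continuous_cosh
  fun_prop

theorem integrable_cp (k : ℕ) {x : ℝ} (hx : 0 < x) :
    Integrable fun y : ℝ => Real.cosh y ^ k * Real.exp (-(x * Real.cosh y)) := by
  have hc : Continuous fun y : ℝ => Real.cosh y ^ k * Real.exp (-(x * Real.cosh y)) := by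
    have := Real.continuous_cosh
    fun_prop
  have hg : Integrable fun y : ℝ => (k.factorial * (2 / x) ^ k : ℝ) * Real.exp (-(x / 4) * y ^ 2) :=
    (integrable_exp_neg_mul_sq (by positivity)).const_mul _
  refine hg.mono' hc.aestronglyMeasurable (Filter.Eventually.of_forall fun y => ?_)
  have h0 : 0 < Real.cosh y := Real.cosh_pos y
  rw [Real.norm_of_nonneg (by positivity)]
  have h1 : (x / 2 * Real.cosh y) ^ k / (k.factorial : ℝ) ≤ Real.exp (x / 2 * Real.cosh y) :=
    Real.pow_div_factorial_le_exp _ (by positivity) k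
  have hk : (0 : ℝ) < k.factorial := by exact_mod_cast k.factorial_pos
  have h2 : Real.cosh y ^ k ≤ (k.factorial * (2 / x) ^ k : ℝ) * Real.exp (x / 2 * Real.cosh y) := by
    rw [div_le_iff₀ hk, mul_pow] at h1
    have h3 : (2 / x) ^ k * ((x / 2) ^ k * Real.cosh y ^ k) ≤
        (2 / x) ^ k * (Real.exp (x / 2 * Real.cosh y) * (k.factorial : ℝ)) :=
      mul_le_mul_of_nonneg_left h1 (by positivity)
    have e1 : (2 / x) ^ k * ((x / 2) ^ k * Real.cosh y ^ k) = Real.cosh y ^ k := by
      rw [← mul_assoc, ← mul_pow]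
      have : (2 / x * (x / 2) : ℝ) = 1 := by field_simp
      rw [this, one_pow, one_mul]
    rw [e1] at h3
    linarith
  have h4 : Real.exp (x / 2 * Real.cosh y) * Real.exp (-(x * Real.cosh y)) ≤
      Real.exp (-(x / 4) * y ^ 2) := by
    rw [← Real.exp_add]
    apply Real.exp_le_exp.2
    have := mul_le_mul_of_nonneg_left (cosh_ge y) hx.le
    nlinarith
  calc Real.cosh y ^ k * Real.exp (-(x * Real.cosh y))
      ≤ (k.factorial * (2 / x) ^ k : ℝ) * Real.exp (x / 2 * Real.cosh y) * Real.exp (-(x * Real.cosh y)) :=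
        mul_le_mul_of_nonneg_right h2 (Real.exp_pos _).le
    _ = (k.factorial * (2 / x) ^ k : ℝ) * (Real.exp (x / 2 * Real.cosh y) * Real.exp (-(x * Real.cosh y))) := by
        ring
    _ ≤ _ := mul_le_mul_of_nonneg_left h4 (by positivity)

theorem abs_kj_le (k : ℕ) (x ν y : ℝ) : |kj k x ν y| ≤ Real.cosh y ^ k * Real.exp (-(x * Real.cosh y)) := by
  have h0 : 0 < Real.cosh y := Real.cosh_pos y
  rw [kj, abs_mul, abs_mul, abs_of_pos (Real.exp_pos _), abs_of_pos (pow_pos h0 k)]
  have := Real.abs_cos_le_one (ν * y)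
  have h1 : Real.exp (-(x * Real.cosh y)) * |Real.cos (ν * y)| ≤ Real.exp (-(x * Real.cosh y)) * 1 :=
    mul_le_mul_of_nonneg_left this (Real.exp_pos _).le
  rw [mul_one] at h1
  exact mul_le_mul_of_nonneg_left h1 (pow_pos h0 k).le

theorem integrable_kj (k : ℕ) {x : ℝ} (hx : 0 < x) (ν : ℝ) : Integrable (kj k x ν) :=
  (integrable_cp k hx).mono' (continuous_kj k x ν).aestronglyMeasurable
    (Filter.Eventually.of_forall fun y => abs_kj_le k x ν y)

/-- moments -/
noncomputable def KJ (k : ℕ) (x ν : ℝ) : ℝ := ∫ y : ℝ, kj k x ν y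

theorem hasDerivAt_KJ (k : ℕ) {x : ℝ} (hx : 0 < x) (ν : ℝ) :
    HasDerivAt (fun x => KJ k x ν) (-KJ (k + 1) x ν) x := by
  have h := hasDerivAt_integral_of_dominated_loc_of_deriv_le (μ := volume)
    (F := fun x y => kj k x ν y) (F' := fun x y => -kj (k + 1) x ν y) (x₀ := x)
    (s := Metric.ball x (x / 2))
    (bound := fun y => Real.cosh y ^ (k + 1) * Real.exp (-(x / 2 * Real.cosh y)))
    (Metric.ball_mem_nhds x (by positivity))
    (Filter.Eventually.of_forall fun x => (continuous_kj k x ν).aestronglyMeasurable)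
    (integrable_kj k hx ν) (continuous_kj (k + 1) x ν).neg.aestronglyMeasurable
    (Filter.Eventually.of_forall fun y x' hx' => ?_) (integrable_cp (k + 1) (by positivity))
    (Filter.Eventually.of_forall fun y x' _ => ?_)
  · have h2 := h.2
    rw [integral_neg] at h2
    exact h2
  · rw [norm_neg]
    refine (abs_kj_le (k + 1) x' ν y).trans ?_
    have h0 : 0 < Real.cosh y := Real.cosh_pos y
    apply mul_le_mul_of_nonneg_left _ (pow_pos h0 _).le
    apply Real.exp_le_exp.2
    rw [Metric.mem_ball, Real.dist_eq, abs_lt] at hx'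
    have : x / 2 ≤ x' := by linarith [hx'.1]
    have := mul_le_mul_of_nonneg_right this h0.le
    linarith
  · have h1 : HasDerivAt (fun x => kj k x ν y) (Real.cosh y ^ k * ((Real.exp (-(x' * Real.cosh y)) *
        (-(1 * Real.cosh y))) * Real.cos (ν * y))) x' := by
      unfold kj
      exact ((((((hasDerivAt_id x').mul_const (Real.cosh y)).neg).exp).mul_const _).const_mul _)
    refine h1.congr_deriv ?_
    unfold kj
    rw [pow_succ]
    ring

theorem ode {x : ℝ} (hx : 0 < x) (ν : ℝ) :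
    x ^ 2 * (KJ 2 x ν - KJ 0 x ν) - x * KJ 1 x ν + ν ^ 2 * KJ 0 x ν = 0 := by
  have hd : ∀ y : ℝ, HasDerivAt (fun y => -(x * Real.sinh y) * (Real.exp (-(x * Real.cosh y)) * Real.cos (ν * y)) +
      ν * (Real.exp (-(x * Real.cosh y)) * Real.sin (ν * y)))
      (x ^ 2 * (kj 2 x ν y - kj 0 x ν y) - x * kj 1 x ν y + ν ^ 2 * kj 0 x ν y) y := by
    intro y
    have hs := Real.hasDerivAt_sinh y
    have hc := Real.hasDerivAt_cosh y
    have he : HasDerivAt (fun y => Real.exp (-(x * Real.cosh y)))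
        (Real.exp (-(x * Real.cosh y)) * (-(x * Real.sinh y))) y := ((hc.const_mul x).neg).exp
    have hl : HasDerivAt (fun y => ν * y) ν y := by simpa using (hasDerivAt_id y).const_mul ν
    have hcos := hl.cos
    have hsin := hl.sin
    have h1 := ((hs.const_mul x).neg.mul (he.mul hcos)).add ((he.mul hsin).const_mul ν)
    refine h1.congr_deriv ?_
    have h2 := Real.cosh_sq y
    unfold kj
    rw [h2]
    simp only [Pi.mul_apply, Pi.neg_apply]
    ring
  have hint : Integrable fun y => (x ^ 2 * (kj 2 x ν y - kj 0 x ν y) - x * kj 1 x ν y + ν ^ 2 * kj 0 x ν y) :=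
    ((((integrable_kj 2 hx ν).sub (integrable_kj 0 hx ν)).const_mul _).sub
      ((integrable_kj 1 hx ν).const_mul _)).add ((integrable_kj 0 hx ν).const_mul _)
  have hf : Integrable fun y => -(x * Real.sinh y) * (Real.exp (-(x * Real.cosh y)) * Real.cos (ν * y)) +
      ν * (Real.exp (-(x * Real.cosh y)) * Real.sin (ν * y)) := by
    have h1 : Integrable fun y : ℝ => x * (Real.cosh y ^ 1 * Real.exp (-(x * Real.cosh y))) +
        |ν| * (Real.cosh y ^ 0 * Real.exp (-(x * Real.cosh y))) :=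
      ((integrable_cp 1 hx).const_mul x).add ((integrable_cp 0 hx).const_mul |ν|)
    refine h1.mono' ?_ (Filter.Eventually.of_forall fun y => ?_)
    · have c1 := Real.continuous_cosh
      have c2 := Real.continuous_sinh
      exact (by fun_prop : Continuous fun y => -(x * Real.sinh y) * (Real.exp (-(x * Real.cosh y)) * Real.cos (ν * y)) +
        ν * (Real.exp (-(x * Real.cosh y)) * Real.sin (ν * y))).aestronglyMeasurable
    · have hE := Real.exp_pos (-(x * Real.cosh y))
      have hs : |Real.sinh y| ≤ Real.cosh y := by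
        rw [Real.abs_sinh]
        have := Real.sinh_lt_cosh |y|
        rw [Real.cosh_abs] at this
        exact this.le
      refine (norm_add_le _ _).trans (add_le_add ?_ ?_)
      · rw [Real.norm_eq_abs, abs_mul, abs_neg, abs_mul, abs_of_pos hx, abs_mul, abs_of_pos hE, pow_one]
        have h2 : Real.exp (-(x * Real.cosh y)) * |Real.cos (ν * y)| ≤ Real.exp (-(x * Real.cosh y)) * 1 :=
          mul_le_mul_of_nonneg_left (Real.abs_cos_le_one _) hE.le
        rw [mul_one] at h2
        calc x * |Real.sinh y| * (Real.exp (-(x * Real.cosh y)) * |Real.cos (ν * y)|)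
            ≤ x * Real.cosh y * Real.exp (-(x * Real.cosh y)) := by gcongr
          _ = _ := by ring
      · rw [Real.norm_eq_abs, abs_mul, abs_mul, abs_of_pos hE, pow_zero, one_mul]
        have h2 : Real.exp (-(x * Real.cosh y)) * |Real.sin (ν * y)| ≤ Real.exp (-(x * Real.cosh y)) * 1 :=
          mul_le_mul_of_nonneg_left (Real.abs_sin_le_one _) hE.le
        rw [mul_one] at h2
        gcongr
  have h0 := integral_eq_zero_of_hasDerivAt_of_integrable hd hint hf
  have i0 := integrable_kj 0 hx ν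
  have i1 := integrable_kj 1 hx ν
  have i2 := integrable_kj 2 hx ν
  have h1 : ∫ y, (x ^ 2 * (kj 2 x ν y - kj 0 x ν y) - x * kj 1 x ν y + ν ^ 2 * kj 0 x ν y) =
      x ^ 2 * (KJ 2 x ν - KJ 0 x ν) - x * KJ 1 x ν + ν ^ 2 * KJ 0 x ν := by
    have j2 : Integrable fun y => x ^ 2 * (kj 2 x ν y - kj 0 x ν y) := (i2.sub i0).const_mul _
    have j1 : Integrable fun y => x * kj 1 x ν y := i1.const_mul _
    have j0 : Integrable fun y => ν ^ 2 * kj 0 x ν y := i0.const_mul _
    have j3 : Integrable fun y => x ^ 2 * (kj 2 x ν y - kj 0 x ν y) - x * kj 1 x ν y := j2.sub j1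
    rw [integral_add j3 j0, integral_sub j2 j1, integral_const_mul, integral_const_mul,
      integral_const_mul, integral_sub i2 i0]
    rfl
  rw [← h1, h0]

theorem abs_le_cosh (y : ℝ) : |y| ≤ Real.cosh y := by
  have h1 := cosh_ge y
  have h2 : 2 * |y| ≤ 1 + |y| ^ 2 := by nlinarith [sq_nonneg (|y| - 1)]
  rw [← sq_abs] at h1
  nlinarith [abs_nonneg y, sq_nonneg (|y| - 1)]

theorem abs_sinh_le (y : ℝ) : |Real.sinh y| ≤ Real.cosh y := by
  rw [Real.abs_sinh]
  have := Real.sinh_lt_cosh |y|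
  rw [Real.cosh_abs] at this
  exact this.le

theorem sq_le_mul_sinh (y : ℝ) : y ^ 2 ≤ y * Real.sinh y := by
  rcases le_total 0 y with h | h
  · have := Real.self_le_sinh_iff.2 h
    nlinarith
  · have h1 := Real.self_le_sinh_iff.2 (neg_nonneg.2 h)
    rw [Real.sinh_neg] at h1
    nlinarith

theorem integrable_ysinh {x : ℝ} (hx : 0 < x) :
    Integrable fun y : ℝ => y * Real.sinh y * Real.exp (-(x * Real.cosh y)) := by
  refine (integrable_cp 2 hx).mono' ?_ (Filter.Eventually.of_forall fun y => ?_)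
  · have c1 := Real.continuous_cosh
    have c2 := Real.continuous_sinh
    exact (by fun_prop : Continuous fun y : ℝ => y * Real.sinh y * Real.exp (-(x * Real.cosh y))).aestronglyMeasurable
  · rw [Real.norm_eq_abs, abs_mul, abs_mul, abs_of_pos (Real.exp_pos _), pow_two]
    exact mul_le_mul_of_nonneg_right (mul_le_mul (abs_le_cosh y) (abs_sinh_le y) (abs_nonneg _)
      (Real.cosh_pos y).le) (Real.exp_pos _).le

theorem int_ysinh {x : ℝ} (hx : 0 < x) :
    ∫ y : ℝ, y * Real.sinh y * Real.exp (-(x * Real.cosh y)) =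
      (1 / x) * ∫ y : ℝ, Real.exp (-(x * Real.cosh y)) := by
  have i0 : Integrable fun y : ℝ => Real.exp (-(x * Real.cosh y)) := by
    have := integrable_cp 0 hx
    simpa using this
  have i1 := integrable_ysinh hx
  have hd : ∀ y : ℝ, HasDerivAt (fun y => y * Real.exp (-(x * Real.cosh y)))
      (Real.exp (-(x * Real.cosh y)) - x * (y * Real.sinh y * Real.exp (-(x * Real.cosh y)))) y := by
    intro y
    have he : HasDerivAt (fun y => Real.exp (-(x * Real.cosh y)))
        (Real.exp (-(x * Real.cosh y)) * (-(x * Real.sinh y))) y :=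
      (((Real.hasDerivAt_cosh y).const_mul x).neg).exp
    have h1 := (hasDerivAt_id y).mul he
    refine h1.congr_deriv ?_
    simp only [id]
    ring
  have hf : Integrable fun y : ℝ => y * Real.exp (-(x * Real.cosh y)) := by
    refine (integrable_cp 1 hx).mono' ?_ (Filter.Eventually.of_forall fun y => ?_)
    · have c1 := Real.continuous_cosh
      exact (by fun_prop : Continuous fun y : ℝ => y * Real.exp (-(x * Real.cosh y))).aestronglyMeasurable
    · rw [Real.norm_eq_abs, abs_mul, abs_of_pos (Real.exp_pos _), pow_one]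
      exact mul_le_mul_of_nonneg_right (abs_le_cosh y) (Real.exp_pos _).le
  have j1 : Integrable fun y : ℝ => x * (y * Real.sinh y * Real.exp (-(x * Real.cosh y))) := i1.const_mul x
  have h0 := integral_eq_zero_of_hasDerivAt_of_integrable hd (i0.sub j1) hf
  rw [integral_sub i0 j1, integral_const_mul] at h0
  field_simp
  linarith

theorem int_exp_pos {x : ℝ} (hx : 0 < x) : 0 < ∫ y : ℝ, Real.exp (-(x * Real.cosh y)) := by
  have i0 : Integrable fun y : ℝ => Real.exp (-(x * Real.cosh y)) := by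
    have := integrable_cp 0 hx
    simpa using this
  rw [integral_pos_iff_support_of_nonneg (fun y => (Real.exp_pos _).le) i0]
  have : (Function.support fun y : ℝ => Real.exp (-(x * Real.cosh y))) = Set.univ := by
    ext y
    simp [Real.exp_ne_zero]
  rw [this]
  simp

/-- lower bound for large arguments -/
theorem KJ_ge {x : ℝ} (hx : 0 < x) (ν : ℝ) :
    (1 - ν ^ 2 / (2 * x)) * (∫ y : ℝ, Real.exp (-(x * Real.cosh y))) ≤ KJ 0 x ν := by
  have i0 : Integrable fun y : ℝ => Real.exp (-(x * Real.cosh y)) := by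
    have := integrable_cp 0 hx
    simpa using this
  have i1 := integrable_ysinh hx
  have h1 : ∫ y : ℝ, (Real.exp (-(x * Real.cosh y)) - ν ^ 2 / 2 * (y * Real.sinh y * Real.exp (-(x * Real.cosh y))))
      ≤ KJ 0 x ν := by
    refine integral_mono (i0.sub (i1.const_mul _)) (integrable_kj 0 hx ν) fun y => ?_
    have h2 := Real.one_sub_sq_div_two_le_cos (x := ν * y)
    have h3 := sq_le_mul_sinh y
    have hE := Real.exp_pos (-(x * Real.cosh y))
    show Real.exp (-(x * Real.cosh y)) - ν ^ 2 / 2 * (y * Real.sinh y * Real.exp (-(x * Real.cosh y))) ≤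
      Real.cosh y ^ 0 * (Real.exp (-(x * Real.cosh y)) * Real.cos (ν * y))
    rw [pow_zero, one_mul]
    have h4 : 1 - ν ^ 2 / 2 * (y * Real.sinh y) ≤ Real.cos (ν * y) := by
      have : ν ^ 2 / 2 * y ^ 2 ≤ ν ^ 2 / 2 * (y * Real.sinh y) := mul_le_mul_of_nonneg_left h3 (by positivity)
      have e1 : (ν * y) ^ 2 / 2 = ν ^ 2 / 2 * y ^ 2 := by ring
      rw [e1] at h2
      linarith
    have h5 := mul_le_mul_of_nonneg_left h4 hE.le
    nlinarith
  have h6 : ∫ y : ℝ, (Real.exp (-(x * Real.cosh y)) - ν ^ 2 / 2 * (y * Real.sinh y * Real.exp (-(x * Real.cosh y))))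
      = (∫ y : ℝ, Real.exp (-(x * Real.cosh y))) - ν ^ 2 / 2 * ((1 / x) * ∫ y : ℝ, Real.exp (-(x * Real.cosh y))) := by
    have j1 : Integrable fun y : ℝ => ν ^ 2 / 2 * (y * Real.sinh y * Real.exp (-(x * Real.cosh y))) := i1.const_mul _
    rw [integral_sub i0 j1, integral_const_mul, int_ysinh hx]
  rw [h6] at h1
  refine le_trans (le_of_eq ?_) h1
  field_simp

theorem abs_KJ_le (k : ℕ) {x : ℝ} (hx : 1 ≤ x) (ν : ℝ) :
    |KJ k x ν| ≤ Real.exp (-(x - 1)) * ∫ y : ℝ, Real.cosh y ^ k * Real.exp (-(1 * Real.cosh y)) := by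
  have hx0 : 0 < x := by linarith
  refine (abs_integral_le_integral_abs).trans ?_
  rw [← integral_const_mul]
  refine integral_mono (integrable_kj k hx0 ν).abs ((integrable_cp k one_pos).const_mul _) fun y => ?_
  refine (abs_kj_le k x ν y).trans ?_
  have h0 : 0 < Real.cosh y := Real.cosh_pos y
  have h1 : Real.exp (-(x * Real.cosh y)) ≤ Real.exp (-(x - 1)) * Real.exp (-(1 * Real.cosh y)) := by
    rw [← Real.exp_add]
    apply Real.exp_le_exp.2
    have := Real.one_le_cosh y
    nlinarith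
  calc Real.cosh y ^ k * Real.exp (-(x * Real.cosh y))
      ≤ Real.cosh y ^ k * (Real.exp (-(x - 1)) * Real.exp (-(1 * Real.cosh y))) :=
        mul_le_mul_of_nonneg_left h1 (pow_pos h0 k).le
    _ = _ := by ring

/-- the energy `x K(x) K'(x)` -/
noncomputable def En (ν x : ℝ) : ℝ := -(x * KJ 0 x ν * KJ 1 x ν)

theorem hasDerivAt_En {x : ℝ} (hx : 0 < x) (ν : ℝ) :
    HasDerivAt (En ν) (x * KJ 1 x ν ^ 2 + (x - ν ^ 2 / x) * KJ 0 x ν ^ 2) x := by
  have h0 := hasDerivAt_KJ 0 hx ν
  have h1 := hasDerivAt_KJ 1 hx ν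
  have h2 := (((hasDerivAt_id x).mul h0).mul h1).neg
  have h3 := ode hx ν
  refine h2.congr_deriv ?_
  simp only [id, Pi.mul_apply, zero_add]
  have h4 : x * KJ 2 x ν = x * KJ 0 x ν + KJ 1 x ν - ν ^ 2 / x * KJ 0 x ν := by
    field_simp
    linarith
  have e1 : -((1 * KJ 0 x ν + x * -KJ 1 x ν) * KJ 1 x ν + x * KJ 0 x ν * -KJ (1 + 1) x ν) =
      -(KJ 0 x ν * KJ 1 x ν) + x * KJ 1 x ν ^ 2 + (x * KJ 2 x ν) * KJ 0 x ν := by ring_nf
  rw [e1, h4]
  ring

theorem En_tendsto (ν : ℝ) : Tendsto (En ν) atTop (𝓝 0) := by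
  set M0 := ∫ y : ℝ, Real.cosh y ^ 0 * Real.exp (-(1 * Real.cosh y))
  set M1 := ∫ y : ℝ, Real.cosh y ^ 1 * Real.exp (-(1 * Real.cosh y))
  have h1 : Tendsto (fun x : ℝ => (Real.exp 2 * (M0 * M1)) * (x ^ 1 * Real.exp (-2 * x))) atTop (𝓝 0) := by
    have h3 := tendsto_rpow_mul_exp_neg_mul_atTop_nhds_zero 1 2 (by norm_num)
    have h4 := h3.const_mul (Real.exp 2 * (M0 * M1))
    rw [mul_zero] at h4
    refine h4.congr fun x => ?_
    rw [Real.rpow_one, pow_one]
  refine squeeze_zero_norm' ?_ h1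
  filter_upwards [eventually_ge_atTop (1 : ℝ)] with x hx
  have a0 := abs_KJ_le 0 hx ν
  have a1 := abs_KJ_le 1 hx ν
  rw [En, norm_neg, Real.norm_eq_abs, abs_mul, abs_mul, abs_of_nonneg (by linarith : (0 : ℝ) ≤ x)]
  have hM0 : 0 ≤ Real.exp (-(x - 1)) * M0 := (abs_nonneg _).trans a0
  calc x * |KJ 0 x ν| * |KJ 1 x ν| ≤ x * (Real.exp (-(x - 1)) * M0) * (Real.exp (-(x - 1)) * M1) := by
        gcongr
    _ = (x ^ 1 * (M0 * M1)) * (Real.exp (-(x - 1)) * Real.exp (-(x - 1))) := by ring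
    _ = (x ^ 1 * (M0 * M1)) * (Real.exp 2 * Real.exp (-2 * x)) := by
        rw [← Real.exp_add, ← Real.exp_add]
        congr 2
        ring
    _ = _ := by ring

theorem En_nonpos {x ν : ℝ} (hx : 0 < x) (hν : |ν| ≤ x) : En ν x ≤ 0 := by
  have hmono : MonotoneOn (En ν) (Ici x) := by
    refine monotoneOn_of_deriv_nonneg (convex_Ici x) ?_ ?_ ?_
    · intro y hy
      have hy0 : 0 < y := lt_of_lt_of_le hx hy
      exact (hasDerivAt_En hy0 ν).continuousAt.continuousWithinAt
    · rw [interior_Ici]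
      intro y hy
      have hy0 : 0 < y := lt_trans hx hy
      exact (hasDerivAt_En hy0 ν).differentiableAt.differentiableWithinAt
    · rw [interior_Ici]
      intro y hy
      have hy0 : 0 < y := lt_trans hx hy
      rw [(hasDerivAt_En hy0 ν).deriv]
      have h1 : 0 ≤ y - ν ^ 2 / y := by
        rw [sub_nonneg, div_le_iff₀ hy0, ← sq_abs, pow_two]
        have : |ν| ≤ y := hν.trans (le_of_lt hy)
        exact mul_le_mul this this (abs_nonneg _) hy0.le
      positivity
  refine ge_of_tendsto (En_tendsto ν) ?_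
  filter_upwards [eventually_ge_atTop x] with y hy
  exact hmono (mem_Ici.2 le_rfl) hy hy

theorem KJ_pos {x ν : ℝ} (hx : 0 < x) (hν : |ν| ≤ x) : 0 < KJ 0 x ν := by
  -- positive for large arguments
  have hlarge : ∀ X : ℝ, 0 < X → ν ^ 2 / 2 < X → 0 < KJ 0 X ν := by
    intro X hX h1
    have h2 := KJ_ge hX ν
    have h3 := int_exp_pos hX
    refine lt_of_lt_of_le (mul_pos ?_ h3) h2
    rw [sub_pos, div_lt_one (by positivity)]
    linarith
  -- the square is nonincreasing
  have hanti : ∀ a : ℝ, 0 < a → |ν| ≤ a → AntitoneOn (fun y => KJ 0 y ν ^ 2) (Ici a) := by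
    intro a ha hνa
    have hd : ∀ y : ℝ, 0 < y → HasDerivAt (fun y => KJ 0 y ν ^ 2) (2 * (En ν y / y)) y := by
      intro y hy
      have h1 := (hasDerivAt_KJ 0 hy ν).pow 2
      refine h1.congr_deriv ?_
      rw [En]
      field_simp
      ring_nf
    refine antitoneOn_of_deriv_nonpos (convex_Ici a) ?_ ?_ ?_
    · intro y hy
      exact (hd y (lt_of_lt_of_le ha hy)).continuousAt.continuousWithinAt
    · rw [interior_Ici]
      intro y hy
      exact (hd y (lt_trans ha hy)).differentiableAt.differentiableWithinAt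
    · rw [interior_Ici]
      intro y hy
      have hy0 : 0 < y := lt_trans ha hy
      rw [(hd y hy0).deriv]
      have h1 := En_nonpos hy0 (hνa.trans (le_of_lt hy))
      have := div_nonpos_of_nonpos_of_nonneg h1 hy0.le
      linarith
  -- no zero
  have hne : ∀ a : ℝ, 0 < a → |ν| ≤ a → KJ 0 a ν ≠ 0 := by
    intro a ha hνa h0
    have hX : 0 < KJ 0 (max a (ν ^ 2 / 2 + 1)) ν :=
      hlarge _ (lt_max_of_lt_left ha) (lt_max_of_lt_right (by linarith))
    have h1 := hanti a ha hνa (mem_Ici.2 le_rfl) (mem_Ici.2 (le_max_left a (ν ^ 2 / 2 + 1)))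
      (le_max_left _ _)
    simp only at h1
    rw [h0] at h1
    nlinarith
  by_contra hcon
  push Not at hcon
  have hlt : KJ 0 x ν < 0 := lt_of_le_of_ne hcon (hne x hx hν)
  set X := max x (ν ^ 2 / 2 + 1) with hXdef
  have hX : 0 < KJ 0 X ν := hlarge _ (lt_max_of_lt_left hx) (lt_max_of_lt_right (by linarith))
  have hxX : x ≤ X := le_max_left _ _
  have hc : ContinuousOn (fun y => KJ 0 y ν) (Icc x X) := by
    intro y hy
    exact (hasDerivAt_KJ 0 (lt_of_lt_of_le hx hy.1) ν).continuousAt.continuousWithinAt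
  have h1 := intermediate_value_Icc hxX hc
  obtain ⟨y, hy, hy0⟩ := h1 (mem_Icc.2 ⟨hlt.le, hX.le⟩)
  exact hne y (lt_of_lt_of_le hx hy.1) (hν.trans hy.1) hy0

end CK

/-- the integrand on the vertical line through the valley direction -/
noncomputable def cg (b r τ Y : ℝ) : ℂ :=
  cexp (((-(τ * Y / b) - r * Real.exp (-Y) : ℝ) : ℂ) + ((Y ^ 2 / (2 * b) : ℝ) : ℂ) * I)

/-- the integral over the vertical line -/
noncomputable def Cc (b r τ : ℝ) : ℂ := ∫ Y : ℝ, cg b r τ Y

/-- `2 K_{iν}(x)` -/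
noncomputable def KK (x ν : ℝ) : ℝ := ∫ y : ℝ, Real.exp (-(x * Real.cosh y)) * Real.cos (ν * y)

theorem norm_cg (b r τ Y : ℝ) : ‖cg b r τ Y‖ = Real.exp (-(τ * Y / b) - r * Real.exp (-Y)) := by
  rw [cg, Complex.norm_exp]
  congr 1
  rw [Complex.add_re, Complex.ofReal_re, Complex.re_ofReal_mul, Complex.I_re, mul_zero, add_zero]

theorem continuous_cg (b r τ : ℝ) : Continuous (cg b r τ) := by
  unfold cg
  fun_prop

/-- `exp (-c Y - r e^(-Y))` is integrable -/
theorem integrable_env {c r : ℝ} (hc : 0 < c) (hr : 0 < r) :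
    Integrable fun Y : ℝ => Real.exp (-(c * Y) - r * Real.exp (-Y)) := by
  have hcont : Continuous fun Y : ℝ => Real.exp (-(c * Y) - r * Real.exp (-Y)) := by fun_prop
  -- bound by `M * exp (-c |Y|)`
  have hM : ∃ M : ℝ, ∀ Y : ℝ, Y ≤ 0 → Real.exp (-(c * Y) - r * Real.exp (-Y)) ≤ M * Real.exp (c * Y) := by
    -- 2 c u - r e^u is bounded for u >= 0
    refine ⟨Real.exp (2 * c ^ 2 / r * 2), fun Y hY => ?_⟩
    rw [← Real.exp_add]
    apply Real.exp_le_exp.2
    have h1 : 1 + (-Y) + (-Y) ^ 2 / 2 ≤ Real.exp (-Y) := by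
      have := Real.quadratic_le_exp_of_nonneg (x := -Y) (by linarith)
      exact this
    have h2 : r * (1 + (-Y) + (-Y) ^ 2 / 2) ≤ r * Real.exp (-Y) := mul_le_mul_of_nonneg_left h1 hr.le
    have h3 : 2 * c * (-Y) ≤ r * ((-Y) ^ 2 / 2) + 2 * c ^ 2 / r := by
      have h4 : 0 ≤ r / 2 * ((-Y) - 2 * c / r) ^ 2 := by positivity
      have e1 : r / 2 * ((-Y) - 2 * c / r) ^ 2 = r * ((-Y) ^ 2 / 2) + 2 * c ^ 2 / r - 2 * c * (-Y) := by
        field_simp
        ring
      linarith
    have h5 : 0 ≤ 2 * c ^ 2 / r := by positivity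
    nlinarith
  obtain ⟨M, hM⟩ := hM
  have h1 : IntegrableOn (fun Y : ℝ => Real.exp (-(c * Y) - r * Real.exp (-Y))) (Iic 0) := by
    have h2 : IntegrableOn (fun Y : ℝ => M * Real.exp (c * Y)) (Iic 0) :=
      (integrableOn_exp_mul_Iic hc 0).const_mul M
    refine h2.mono' hcont.aestronglyMeasurable ?_
    refine (ae_restrict_iff' measurableSet_Iic).2 (Filter.Eventually.of_forall fun Y hY => ?_)
    rw [Real.norm_of_nonneg (Real.exp_pos _).le]
    exact hM Y hY
  have h2 : IntegrableOn (fun Y : ℝ => Real.exp (-(c * Y) - r * Real.exp (-Y))) (Ioi 0) := by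
    have h3 : IntegrableOn (fun Y : ℝ => Real.exp (-c * Y)) (Ioi 0) := exp_neg_integrableOn_Ioi 0 hc
    refine h3.mono' hcont.aestronglyMeasurable ?_
    refine (ae_restrict_iff' measurableSet_Ioi).2 (Filter.Eventually.of_forall fun Y hY => ?_)
    rw [Real.norm_of_nonneg (Real.exp_pos _).le]
    apply Real.exp_le_exp.2
    have := mul_pos hr (Real.exp_pos (-Y))
    linarith
  have h3 := h1.union h2
  rwa [Iic_union_Ioi, integrableOn_univ] at h3

theorem integrable_cg {b r τ : ℝ} (hb : 0 < b) (hr : 0 < r) (hτ : 0 < τ) : Integrable (cg b r τ) := by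
  have h1 := integrable_env (c := τ / b) (div_pos hτ hb) hr
  refine h1.mono' (continuous_cg b r τ).aestronglyMeasurable (Filter.Eventually.of_forall fun Y => ?_)
  rw [norm_cg]
  apply le_of_eq
  congr 2
  ring

theorem cg_mul_conj (b r τ U y : ℝ) : cg b r τ (U + y) * (starRingEnd ℂ) (cg b r τ (U - y)) =
    cexp (((-(2 * τ * U / b) - 2 * r * Real.exp (-U) * Real.cosh y : ℝ) : ℂ) + ((2 * U / b * y : ℝ) : ℂ) * I) := by
  rw [cg, cg, ← Complex.exp_conj, ← Complex.exp_add]
  congr 1
  simp only [map_add, map_mul, Complex.conj_ofReal, Complex.conj_I]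
  have e1 : Real.exp (-(U + y)) = Real.exp (-U) * Real.exp (-y) := by rw [← Real.exp_add]; congr 1; ring
  have e2 : Real.exp (-(U - y)) = Real.exp (-U) * Real.exp y := by rw [← Real.exp_add]; congr 1; ring
  rw [e1, e2, Real.cosh_eq]
  push_cast
  ring

/-- the kernel formula for the square of the modulus, with integrability -/
theorem normSq_Cc {b r τ : ℝ} (hb : 0 < b) (hr : 0 < r) (hτ : 0 < τ) :
    Integrable (fun U : ℝ => Real.exp (-(2 * τ * U / b)) * KK (2 * r * Real.exp (-U)) (2 * U / b)) ∧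
    ‖Cc b r τ‖ ^ 2 = 2 * ∫ U : ℝ, Real.exp (-(2 * τ * U / b)) * KK (2 * r * Real.exp (-U)) (2 * U / b) := by
  have h1 := integrable_cg hb hr hτ
  have h2 : Integrable fun Y : ℝ => (starRingEnd ℂ) (cg b r τ Y) := by
    refine h1.norm.mono' ?_ (Filter.Eventually.of_forall fun Y => by simp)
    exact (continuous_conj.comp (continuous_cg b r τ)).aestronglyMeasurable
  have h3 := CK.rot h1 h2 (continuous_cg b r τ) (continuous_conj.comp (continuous_cg b r τ))
  have e1 : (∫ x, cg b r τ x) * ∫ y, (starRingEnd ℂ) (cg b r τ y) = ((‖Cc b r τ‖ ^ 2 : ℝ) : ℂ) := by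
    rw [integral_conj]
    show Cc b r τ * (starRingEnd ℂ) (Cc b r τ) = _
    rw [Complex.mul_conj, Complex.normSq_eq_norm_sq]
  rw [e1] at h3
  obtain ⟨h4, h5⟩ := h3
  have h6 : Integrable (fun p : ℝ × ℝ => (cg b r τ (p.1 + p.2) *
      (starRingEnd ℂ) (cg b r τ (p.1 - p.2))).re) (volume.prod volume) := h4.re
  have e2 : ∀ p : ℝ × ℝ, (cg b r τ (p.1 + p.2) * (starRingEnd ℂ) (cg b r τ (p.1 - p.2))).re =
      Real.exp (-(2 * τ * p.1 / b)) * (Real.exp (-(2 * r * Real.exp (-p.1) * Real.cosh p.2)) *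
        Real.cos (2 * p.1 / b * p.2)) := by
    intro p
    rw [cg_mul_conj, Complex.exp_add, ← Complex.ofReal_exp, Complex.re_ofReal_mul,
      Complex.exp_ofReal_mul_I_re, sub_eq_add_neg, Real.exp_add, mul_assoc]
  have e3 : ∀ U : ℝ, ∫ y : ℝ, (cg b r τ (U + y) * (starRingEnd ℂ) (cg b r τ (U - y))).re =
      Real.exp (-(2 * τ * U / b)) * KK (2 * r * Real.exp (-U)) (2 * U / b) := by
    intro U
    rw [KK, ← integral_const_mul]
    refine integral_congr_ae (Filter.Eventually.of_forall fun y => ?_)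
    exact e2 (U, y)
  constructor
  · have h7 := h6.integral_prod_left
    refine h7.congr (Filter.Eventually.of_forall fun U => ?_)
    exact e3 U
  · have h8 : (∫ p : ℝ × ℝ, cg b r τ (p.1 + p.2) * (starRingEnd ℂ) (cg b r τ (p.1 - p.2))
        ∂(volume.prod volume)).re = ∫ p : ℝ × ℝ, (cg b r τ (p.1 + p.2) *
        (starRingEnd ℂ) (cg b r τ (p.1 - p.2))).re ∂(volume.prod volume) := (integral_re h4).symm
    have h9 := integral_prod _ h6
    simp only [e3] at h9
    rw [h5] at h8
    rw [← h9, ← h8, ← Complex.ofReal_mul, Complex.ofReal_re]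
    ring

/-- positivity of the kernel -/
theorem KK_eq_KJ (x ν : ℝ) : KK x ν = CK.KJ 0 x ν := by
  unfold KK CK.KJ CK.kj
  simp only [pow_zero, one_mul]

/-- `K_{iν}(x) > 0` for `x ≥ |ν|` -/
theorem KK_pos {x ν : ℝ} (hx : 0 < x) (hν : |ν| ≤ x) : 0 < KK x ν := by
  rw [KK_eq_KJ]
  exact CK.KJ_pos hx hν

theorem KK_zero_pos {x : ℝ} (hx : 0 < x) : 0 < KK x 0 := KK_pos hx (by simpa using hx.le)

theorem KK_zero (x : ℝ) : KK x 0 = ∫ y : ℝ, Real.exp (-(x * Real.cosh y)) := by
  unfold KK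
  simp

theorem abs_KK_le {x : ℝ} (hx : 0 < x) (ν : ℝ) : |KK x ν| ≤ KK x 0 := by
  rw [KK_zero, KK]
  have i0 : Integrable fun y : ℝ => Real.exp (-(x * Real.cosh y)) := by
    have := CK.integrable_cp 0 hx
    simpa using this
  refine (abs_integral_le_integral_abs).trans ?_
  refine integral_mono_of_nonneg (Filter.Eventually.of_forall fun y => abs_nonneg _) i0
    (Filter.Eventually.of_forall fun y => ?_)
  show |Real.exp (-(x * Real.cosh y)) * Real.cos (ν * y)| ≤ Real.exp (-(x * Real.cosh y))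
  rw [abs_mul, abs_of_pos (Real.exp_pos _)]
  calc Real.exp (-(x * Real.cosh y)) * |Real.cos (ν * y)| ≤ Real.exp (-(x * Real.cosh y)) * 1 :=
        mul_le_mul_of_nonneg_left (Real.abs_cos_le_one _) (Real.exp_pos _).le
    _ = _ := mul_one _

/-- integrability of the envelope -/
theorem integrable_K0 {b r τ : ℝ} (hb : 0 < b) (hr : 0 < r) (hτ : 0 < τ) :
    Integrable (fun U : ℝ => Real.exp (-(2 * τ * U / b)) * KK (2 * r * Real.exp (-U)) 0) := by
  have h1 := integrable_cg hb hr hτ
  have h2 : Integrable fun Y : ℝ => (starRingEnd ℂ) (cg b r τ Y) := by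
    refine h1.norm.mono' ?_ (Filter.Eventually.of_forall fun Y => by simp)
    exact (continuous_conj.comp (continuous_cg b r τ)).aestronglyMeasurable
  have h4 := (CK.rot h1 h2 (continuous_cg b r τ) (continuous_conj.comp (continuous_cg b r τ))).1
  have h7 := h4.norm.integral_prod_left
  refine h7.congr (Filter.Eventually.of_forall fun U => ?_)
  show ∫ y : ℝ, ‖cg b r τ (U + y) * (starRingEnd ℂ) (cg b r τ (U - y))‖ =
    Real.exp (-(2 * τ * U / b)) * KK (2 * r * Real.exp (-U)) 0
  rw [KK_zero, ← integral_const_mul]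
  refine integral_congr_ae (Filter.Eventually.of_forall fun y => ?_)
  show ‖cg b r τ (U + y) * (starRingEnd ℂ) (cg b r τ (U - y))‖ = _
  rw [cg_mul_conj, Complex.norm_exp, Complex.add_re, Complex.ofReal_re, Complex.re_ofReal_mul,
    Complex.I_re, mul_zero, add_zero, sub_eq_add_neg, Real.exp_add]

/-- the integral in the kernel formula -/
noncomputable def JJ (b r τ : ℝ) : ℝ :=
  ∫ U : ℝ, Real.exp (-(2 * τ * U / b)) * KK (2 * r * Real.exp (-U)) (2 * U / b)

theorem integrable_JJ {b r τ : ℝ} (hb : 0 < b) (hr : 0 < r) (hτ : 0 < τ) :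
    Integrable (fun U : ℝ => Real.exp (-(2 * τ * U / b)) * KK (2 * r * Real.exp (-U)) (2 * U / b)) :=
  (normSq_Cc hb hr hτ).1

theorem normSq_Cc_eq {b r τ : ℝ} (hb : 0 < b) (hr : 0 < r) (hτ : 0 < τ) :
    ‖Cc b r τ‖ ^ 2 = 2 * JJ b r τ := (normSq_Cc hb hr hτ).2

/-- a majorant for the first moment, uniform for `τ'` near `τ` -/
theorem moment_env {b r τ τ' : ℝ} (hb : 0 < b) (hr : 0 < r) (hτ : 0 < τ) (h1 : τ / 2 ≤ τ')
    (h2 : τ' ≤ 3 * τ / 2) (U : ℝ) :
    |U| * (Real.exp (-(2 * τ' * U / b)) * KK (2 * r * Real.exp (-U)) 0) ≤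
      (2 * b / τ) * (Real.exp (-(2 * (τ / 4) * U / b)) * KK (2 * r * Real.exp (-U)) 0 +
        Real.exp (-(2 * (7 * τ / 4) * U / b)) * KK (2 * r * Real.exp (-U)) 0) := by
  have hK : 0 < KK (2 * r * Real.exp (-U)) 0 := KK_zero_pos (by positivity)
  have hbU : (2 * b / τ) * Real.exp (τ * |U| / (2 * b)) ≥ |U| := by
    have h3 := Real.add_one_le_exp (τ * |U| / (2 * b))
    have h4 : (2 * b / τ) * (τ * |U| / (2 * b)) = |U| := by field_simp
    have h5 : (2 * b / τ) * (τ * |U| / (2 * b)) ≤ (2 * b / τ) * Real.exp (τ * |U| / (2 * b)) :=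
      mul_le_mul_of_nonneg_left (by linarith) (by positivity)
    linarith
  have hexp : Real.exp (τ * |U| / (2 * b)) * Real.exp (-(2 * τ' * U / b)) ≤
      Real.exp (-(2 * (τ / 4) * U / b)) + Real.exp (-(2 * (7 * τ / 4) * U / b)) := by
    rw [← Real.exp_add]
    rcases le_total 0 U with hU | hU
    · have h6 : τ * |U| / (2 * b) + -(2 * τ' * U / b) ≤ -(2 * (τ / 4) * U / b) := by
        rw [abs_of_nonneg hU]
        have e1 : τ * U / (2 * b) + -(2 * τ' * U / b) = (τ / 2 - 2 * τ') * (U / b) := by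
          field_simp; ring
        have e2 : -(2 * (τ / 4) * U / b) = (-(τ / 2)) * (U / b) := by field_simp; ring
        rw [e1, e2]
        exact mul_le_mul_of_nonneg_right (by linarith) (by positivity)
      have := Real.exp_le_exp.2 h6
      have := Real.exp_pos (-(2 * (7 * τ / 4) * U / b))
      linarith
    · have h6 : τ * |U| / (2 * b) + -(2 * τ' * U / b) ≤ -(2 * (7 * τ / 4) * U / b) := by
        rw [abs_of_nonpos hU]
        have e1 : τ * -U / (2 * b) + -(2 * τ' * U / b) = (τ / 2 + 2 * τ') * (-U / b) := by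
          field_simp; ring
        have e2 : -(2 * (7 * τ / 4) * U / b) = (7 * τ / 2) * (-U / b) := by field_simp; ring
        rw [e1, e2]
        exact mul_le_mul_of_nonneg_right (by linarith) (div_nonneg (by linarith) hb.le)
      have := Real.exp_le_exp.2 h6
      have := Real.exp_pos (-(2 * (τ / 4) * U / b))
      linarith
  calc |U| * (Real.exp (-(2 * τ' * U / b)) * KK (2 * r * Real.exp (-U)) 0)
      ≤ ((2 * b / τ) * Real.exp (τ * |U| / (2 * b))) * (Real.exp (-(2 * τ' * U / b)) *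
          KK (2 * r * Real.exp (-U)) 0) :=
        mul_le_mul_of_nonneg_right hbU (mul_nonneg (Real.exp_pos _).le hK.le)
    _ = (2 * b / τ) * ((Real.exp (τ * |U| / (2 * b)) * Real.exp (-(2 * τ' * U / b))) *
          KK (2 * r * Real.exp (-U)) 0) := by ring
    _ ≤ (2 * b / τ) * ((Real.exp (-(2 * (τ / 4) * U / b)) + Real.exp (-(2 * (7 * τ / 4) * U / b))) *
          KK (2 * r * Real.exp (-U)) 0) :=
        mul_le_mul_of_nonneg_left (mul_le_mul_of_nonneg_right hexp hK.le) (by positivity)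
    _ = _ := by ring

/-- the derivative of the kernel integral in the direction -/
theorem hasDerivAt_JJ {b r τ : ℝ} (hb : 0 < b) (hr : 0 < r) (hτ : 0 < τ) :
    Integrable (fun U : ℝ => U * (Real.exp (-(2 * τ * U / b)) * KK (2 * r * Real.exp (-U)) (2 * U / b))) ∧
    HasDerivAt (fun τ => JJ b r τ)
      (-(2 / b) * ∫ U : ℝ, U * (Real.exp (-(2 * τ * U / b)) * KK (2 * r * Real.exp (-U)) (2 * U / b))) τ := by
  have hI1 := integrable_K0 hb hr (show 0 < τ / 4 by positivity)
  have hI2 := integrable_K0 hb hr (show 0 < 7 * τ / 4 by positivity)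
  have hbd : Integrable fun U : ℝ => (2 / b) * ((2 * b / τ) * (Real.exp (-(2 * (τ / 4) * U / b)) *
      KK (2 * r * Real.exp (-U)) 0 + Real.exp (-(2 * (7 * τ / 4) * U / b)) * KK (2 * r * Real.exp (-U)) 0)) :=
    ((hI1.add hI2).const_mul _).const_mul _
  have hmeas := (integrable_JJ hb hr hτ).aestronglyMeasurable
  have hmeas2 : AEStronglyMeasurable (fun U : ℝ => (-(2 / b) * U) * (Real.exp (-(2 * τ * U / b)) *
      KK (2 * r * Real.exp (-U)) (2 * U / b))) volume :=
    (by fun_prop : Continuous fun U : ℝ => -(2 / b) * U).aestronglyMeasurable.mul hmeas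
  have h := hasDerivAt_integral_of_dominated_loc_of_deriv_le (μ := volume)
    (F := fun τ U => Real.exp (-(2 * τ * U / b)) * KK (2 * r * Real.exp (-U)) (2 * U / b))
    (F' := fun τ U => (-(2 / b) * U) * (Real.exp (-(2 * τ * U / b)) * KK (2 * r * Real.exp (-U)) (2 * U / b)))
    (x₀ := τ) (s := Metric.ball τ (τ / 2)) (bound := fun U : ℝ => (2 / b) * ((2 * b / τ) *
      (Real.exp (-(2 * (τ / 4) * U / b)) *
      KK (2 * r * Real.exp (-U)) 0 + Real.exp (-(2 * (7 * τ / 4) * U / b)) * KK (2 * r * Real.exp (-U)) 0)))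
    (Metric.ball_mem_nhds τ (by positivity)) ?_ (integrable_JJ hb hr hτ) hmeas2
    (Filter.Eventually.of_forall fun U τ' hτ' => ?_) hbd (Filter.Eventually.of_forall fun U τ' _ => ?_)
  · obtain ⟨h1, h2⟩ := h
    have e1 : ∀ U : ℝ, (-(2 / b) * U) * (Real.exp (-(2 * τ * U / b)) * KK (2 * r * Real.exp (-U)) (2 * U / b)) =
        -(2 / b) * (U * (Real.exp (-(2 * τ * U / b)) * KK (2 * r * Real.exp (-U)) (2 * U / b))) :=
      fun U => by ring
    simp only [e1] at h1 h2
    constructor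
    · have h3 := h1.const_mul (-(b / 2))
      refine h3.congr (Filter.Eventually.of_forall fun U => ?_)
      field_simp
    · rw [integral_const_mul] at h2
      exact h2
  · filter_upwards [lt_mem_nhds hτ] with τ' hτ'
    exact (integrable_JJ hb hr hτ').aestronglyMeasurable
  · rw [Metric.mem_ball, Real.dist_eq, abs_lt] at hτ'
    have h3 := moment_env hb hr hτ (by linarith [hτ'.1]) (by linarith [hτ'.2]) (τ' := τ') U
    have h4 := abs_KK_le (x := 2 * r * Real.exp (-U)) (by positivity) (2 * U / b)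
    show ‖(-(2 / b) * U) * (Real.exp (-(2 * τ' * U / b)) * KK (2 * r * Real.exp (-U)) (2 * U / b))‖ ≤ _
    rw [norm_mul, norm_mul, norm_mul, norm_neg, Real.norm_of_nonneg (by positivity : (0:ℝ) ≤ 2 / b),
      Real.norm_of_nonneg (Real.exp_pos _).le, Real.norm_eq_abs, Real.norm_eq_abs, mul_assoc]
    apply mul_le_mul_of_nonneg_left _ (by positivity)
    refine le_trans ?_ h3
    apply mul_le_mul_of_nonneg_left _ (abs_nonneg _)
    exact mul_le_mul_of_nonneg_left h4 (Real.exp_pos _).le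
  · have h1 : HasDerivAt (fun τ : ℝ => -(2 * τ * U / b)) (-(2 * 1 * U / b)) τ' :=
      ((((hasDerivAt_id τ').const_mul 2).mul_const U).div_const b).neg
    have h2 := (h1.exp).mul_const (KK (2 * r * Real.exp (-U)) (2 * U / b))
    refine h2.congr_deriv ?_
    ring

end Sok
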