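import Pool.Agent.Lib.MP_816dec_an.A0Val
import Pool.Agent.Lib.MP_816dec_an.CKer

/-!
MP_816dec_an, b = 1: the connection of `CC` with the integral on the vertical line, and the kernel
formula for `‖CC‖ ^ 2`.
-/

set_option autoImplicit false

open Complex Set Filter Topology MeasureTheory

namespace Sok

theorem gs_eq_cg {β : ℝ} (hβ : 0 < β) (r t Y : ℝ) :
    gs β r t ((Real.pi : ℝ) + Y * I) = cexp (-(I * ((t - Real.pi : ℝ) : ℂ) ^ 2 / (2 * β))) * cg β r (t - Real.pi) Y := by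
  have hb : (β : ℂ) ≠ 0 := by exact_mod_cast hβ.ne'
  have e1 : (r : ℂ) * cexp (I * ((Real.pi : ℝ) + Y * I)) = ((-(r * Real.exp (-Y)) : ℝ) : ℂ) := by
    have e2 : I * (((Real.pi : ℝ) : ℂ) + Y * I) = Real.pi * I + ((-Y : ℝ) : ℂ) := by
      push_cast
      linear_combination (Y : ℂ) * Complex.I_sq
    rw [e2, Complex.exp_add, Complex.exp_pi_mul_I, ← Complex.ofReal_exp]
    push_cast
    ring
  rw [gs, cg, e1, ← Complex.exp_add, ← Complex.exp_add]
  congr 1
  push_cast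
  field_simp
  have := Complex.I_sq
  linear_combination ((-2 * (Real.pi : ℂ) * Y + 2 * t * Y) - I * (Y : ℂ) ^ 2) * this

theorem cF_mul_CC {β r t : ℝ} (hβ : 0 < β) (hr : 0 < r) (ht : Real.pi < t) :
    cF β * CC β r t = -(I * (cexp (-(I * ((t - Real.pi : ℝ) : ℂ) ^ 2 / (2 * β))) * Cc β r (t - Real.pi))) := by
  obtain ⟨P, hP⟩ := exists_prim (gs_diff β r t)
  obtain ⟨V, lL, lR, hV, -⟩ := exists_vals hβ hr hP
  have hInV : InV t 0 Real.pi := by
    have h := inV_center t 0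
    simpa using h
  have h1 := hV.CC0 hβ hr hP
  have h2 := hV.leg hβ hr hP hInV 0
  have h3 := hV.legup hβ hr.le hP ht 0
  have hi1 := hInV.int hβ hr (0 : ℝ)
  have hi2 := int_up hβ hr.le ht (0 : ℝ)
  have hi : Integrable (fun Y : ℝ => gs β r t ((Real.pi : ℝ) + Y * I)) := by
    rw [← integrableOn_univ, ← Iic_union_Ioi (a := (0:ℝ))]
    exact IntegrableOn.union hi1 hi2
  have h4 : cF β * CC β r t = -(I * ((∫ Y in Iic (0 : ℝ), gs β r t ((Real.pi : ℝ) + Y * I)) +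
      ∫ Y in Ioi (0 : ℝ), gs β r t ((Real.pi : ℝ) + Y * I))) := by
    rw [mul_add, h2, h3, ← h1]; ring
  have h5 := integral_add_compl (measurableSet_Iic (a := (0:ℝ))) hi
  rw [compl_Iic] at h5
  rw [h4, h5]
  simp only [gs_eq_cg hβ]
  rw [integral_const_mul]
  rfl

theorem norm_CC_eq {β r t : ℝ} (hβ : 0 < β) (hr : 0 < r) (ht : Real.pi < t) :
    ‖CC β r t‖ = (Real.sqrt (2 * Real.pi * β))⁻¹ * ‖Cc β r (t - Real.pi)‖ := by
  have h := congrArg norm (cF_mul_CC hβ hr ht)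
  have e1 : ‖cexp (-(I * ((t - Real.pi : ℝ) : ℂ) ^ 2 / (2 * β)))‖ = 1 := by
    rw [Complex.norm_exp]
    have e2 : -(I * ((t - Real.pi : ℝ) : ℂ) ^ 2 / (2 * β)) = ((-((t - Real.pi) ^ 2 / (2 * β)) : ℝ) : ℂ) * I := by
      push_cast
      ring
    rw [e2, Complex.re_ofReal_mul, Complex.I_re, mul_zero, Real.exp_zero]
  rw [norm_mul, norm_neg, norm_mul, norm_mul, e1, Complex.norm_I, one_mul, one_mul, norm_cF] at h
  have hs : 0 < Real.sqrt (2 * Real.pi * β) := Real.sqrt_pos.2 (by positivity)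
  rw [← h, inv_mul_cancel_left₀ hs.ne']

/-- **kernel formula for the left function** -/
theorem norm_CC_sq {β r t : ℝ} (hβ : 0 < β) (hr : 0 < r) (ht : Real.pi < t) :
    ‖CC β r t‖ ^ 2 = 1 / (Real.pi * β) * JJ β r (t - Real.pi) := by
  have hpi := Real.pi_pos
  rw [norm_CC_eq hβ hr ht, mul_pow, normSq_Cc_eq hβ hr (by linarith), inv_pow, Real.sq_sqrt (by positivity)]
  field_simp

end Sok
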