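import Pool.Agent.Lib.MP_816dec_an.CDefs

/-!
MP_816dec_an, part C, near q = 1: elementary facts about c = (2s)^(1/3) and upper bounds of v = 1 - u
near the window.
-/

open Complex Set Filter Topology MeasureTheory

namespace Sok

theorem cs_cube {s : ℂ} (hs0 : s ≠ 0) : cs s ^ 3 = 2 * s := by
  unfold cs
  rw [← Complex.exp_nat_mul]
  have : ((3 : ℕ) : ℂ) * (log (2 * s) / 3) = log (2 * s) := by push_cast; ring
  rw [this, Complex.exp_log (by simpa using hs0)]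

theorem cs_ne {s : ℂ} : cs s ≠ 0 := Complex.exp_ne_zero _

theorem norm_cs_sq {s : ℂ} (hs0 : s ≠ 0) : (‖cs s‖ ^ 2) ^ 3 = 4 * ep s ^ 3 := by
  rw [ep_cube]
  have h1 : ‖cs s‖ ^ 3 = 2 * ‖s‖ := by
    rw [← norm_pow, cs_cube hs0, norm_mul]; simp
  calc (‖cs s‖ ^ 2) ^ 3 = (‖cs s‖ ^ 3) ^ 2 := by ring
    _ = 4 * ‖s‖ ^ 2 := by rw [h1]; ring

theorem norm_cs_sq_le {s : ℂ} (hs0 : s ≠ 0) : ‖cs s‖ ^ 2 ≤ 1.6 * ep s := by
  have h1 := norm_cs_sq hs0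
  have he := ep_nonneg s
  by_contra hcon
  push Not at hcon
  have h2 : (1.6 * ep s) ^ 3 < (‖cs s‖ ^ 2) ^ 3 := pow_lt_pow_left₀ hcon (by positivity) (by norm_num)
  have h3 : 0 ≤ ep s ^ 3 := by positivity
  rw [h1] at h2
  nlinarith

theorem norm_cs_sq_ge {s : ℂ} (hs0 : s ≠ 0) : 1.58 * ep s ≤ ‖cs s‖ ^ 2 := by
  have h1 := norm_cs_sq hs0
  have he := ep_pos hs0
  by_contra hcon
  push Not at hcon
  have h2 : (‖cs s‖ ^ 2) ^ 3 < (1.58 * ep s) ^ 3 := pow_lt_pow_left₀ hcon (by positivity) (by norm_num)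
  have h3 : 0 < ep s ^ 3 := by positivity
  rw [h1] at h2
  nlinarith

theorem arg_two_mul {s : ℂ} (hs : 0 ≤ s.re) : |(log (2 * s)).im| ≤ Real.pi / 2 := by
  rw [Complex.log_im]
  apply Complex.abs_arg_le_pi_div_two_iff.2
  simpa using hs

theorem cs_re {s : ℂ} (hs : 0 ≤ s.re) : 0.866 * ‖cs s‖ ≤ (cs s).re := by
  have h1 := arg_two_mul hs
  unfold cs
  rw [Complex.norm_exp, Complex.exp_re]
  have h2 : (log (2 * s) / 3).im = (log (2 * s)).im / 3 := by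
    simp
  rw [h2]
  have h3 : |(log (2 * s)).im / 3| ≤ Real.pi / 6 := by
    rw [abs_div, abs_of_pos (by norm_num : (0:ℝ) < 3)]; linarith
  have h4 : Real.cos (Real.pi / 6) ≤ Real.cos ((log (2 * s)).im / 3) := by
    rw [← Real.cos_abs ((log (2 * s)).im / 3)]
    exact Real.cos_le_cos_of_nonneg_of_le_pi (abs_nonneg _) (by linarith [Real.pi_pos]) h3
  rw [Real.cos_pi_div_six] at h4
  have h5 : 0.866 ≤ Real.sqrt 3 / 2 := by
    have : (1.732:ℝ) ≤ Real.sqrt 3 := by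
      apply Real.le_sqrt_of_sq_le; norm_num
    linarith
  have h6 := Real.exp_pos (log (2 * s) / 3).re
  nlinarith

theorem cs_im {s : ℂ} (hs : 0 ≤ s.re) : |(cs s).im| ≤ ‖cs s‖ / 2 := by
  have h1 := arg_two_mul hs
  unfold cs
  rw [Complex.norm_exp, Complex.exp_im]
  have h2 : (log (2 * s) / 3).im = (log (2 * s)).im / 3 := by
    simp
  rw [h2, abs_mul, abs_of_pos (Real.exp_pos _)]
  have h3 : |(log (2 * s)).im / 3| ≤ Real.pi / 6 := by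
    rw [abs_div, abs_of_pos (by norm_num : (0:ℝ) < 3)]; linarith
  have h4 : |Real.sin ((log (2 * s)).im / 3)| ≤ 1 / 2 := by
    rw [abs_le] at h3 ⊢
    have hp := Real.pi_pos
    constructor
    · have := Real.sin_le_sin_of_le_of_le_pi_div_two (by linarith) (by linarith) h3.1
      rw [Real.sin_neg, Real.sin_pi_div_six] at this
      linarith
    · have := Real.sin_le_sin_of_le_of_le_pi_div_two (by linarith) (by linarith) h3.2
      rw [Real.sin_pi_div_six] at this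
      linarith
  have h6 := Real.exp_pos (log (2 * s) / 3).re
  nlinarith

/-- power series tail: |e^v - 1 - v - v²/2| ≤ e^|v| - 1 - |v| - |v|²/2 -/
theorem norm_exp_tail (v : ℂ) : ‖exp v - 1 - v - v ^ 2 / 2‖ ≤ Real.exp ‖v‖ - 1 - ‖v‖ - ‖v‖ ^ 2 / 2 := by
  have h := Complex.norm_exp_sub_sum_le_exp_norm_sub_sum v 3
  have e1 : exp v - ∑ m ∈ Finset.range 3, v ^ m / (m.factorial : ℂ) = exp v - 1 - v - v ^ 2 / 2 := by
    simp [Finset.sum_range_succ, Nat.factorial]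
    ring
  have e2 : Real.exp ‖v‖ - ∑ m ∈ Finset.range 3, ‖v‖ ^ m / (m.factorial : ℝ)
      = Real.exp ‖v‖ - 1 - ‖v‖ - ‖v‖ ^ 2 / 2 := by
    simp [Finset.sum_range_succ, Nat.factorial]
    ring
  rw [e1, e2] at h
  exact h

/-- for 0 ≤ x ≤ 1.2 the tail is at most 0.29 x² -/
theorem tail_le {x : ℝ} (h0 : 0 ≤ x) (h1 : x ≤ 1.2) : Real.exp x - 1 - x - x ^ 2 / 2 ≤ 0.29 * x ^ 2 := by
  obtain ⟨y, hy⟩ : ∃ y, y = x / 2 := ⟨_, rfl⟩
  have hx : x = 2 * y := by rw [hy]; ring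
  subst hx
  have hy0 : 0 ≤ y := by linarith
  have hy1 : y ≤ 0.6 := by linarith
  have h := Real.exp_bound' (x := y) hy0 (by linarith) (n := 4) (by norm_num)
  have h3 : Real.exp y ≤ 1 + y + y ^ 2 / 2 + y ^ 3 / 6 + y ^ 4 * (5 / 96) := by
    refine h.trans (le_of_eq ?_)
    simp [Finset.sum_range_succ, Nat.factorial]
    ring
  have h4 : Real.exp (2 * y) = Real.exp y * Real.exp y := by rw [← Real.exp_add]; congr 1; ring
  have h5 := Real.exp_pos y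
  have h6 : Real.exp (2 * y) ≤ (1 + y + y ^ 2 / 2 + y ^ 3 / 6 + y ^ 4 * (5 / 96)) ^ 2 := by
    rw [h4, sq]
    exact mul_le_mul h3 h3 h5.le (by positivity)
  have e : (1 + y + y ^ 2 / 2 + y ^ 3 / 6 + y ^ 4 * (5 / 96)) ^ 2
      = 1 + 2 * y + 2 * y ^ 2 + y ^ 2 * (4 / 3 * y + 11 / 16 * y ^ 2 + 13 / 48 * y ^ 3
        + 23 / 288 * y ^ 4 + 5 / 288 * y ^ 5 + 25 / 9216 * y ^ 6) := by ring
  have p2 : y ^ 2 ≤ 0.6 ^ 2 := pow_le_pow_left₀ hy0 hy1 2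
  have p3 : y ^ 3 ≤ 0.6 ^ 3 := pow_le_pow_left₀ hy0 hy1 3
  have p4 : y ^ 4 ≤ 0.6 ^ 4 := pow_le_pow_left₀ hy0 hy1 4
  have p5 : y ^ 5 ≤ 0.6 ^ 5 := pow_le_pow_left₀ hy0 hy1 5
  have p6 : y ^ 6 ≤ 0.6 ^ 6 := pow_le_pow_left₀ hy0 hy1 6
  have h7 : 4 / 3 * y + 11 / 16 * y ^ 2 + 13 / 48 * y ^ 3
        + 23 / 288 * y ^ 4 + 5 / 288 * y ^ 5 + 25 / 9216 * y ^ 6 ≤ 1.16 := by
    norm_num at p2 p3 p4 p5 p6 ⊢
    linarith
  have h8 : 0 ≤ y ^ 2 := by positivity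
  have h9 := mul_le_mul_of_nonneg_left h7 h8
  rw [e] at h6
  nlinarith

end Sok
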