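import Pool.Agent.Lib.MP_816dec_an.CL1

/-!
MP_816dec_an, part C, near q = 1: upper bound and expansion of v = 1 - u near the window.
-/

open Complex Set Filter Topology MeasureTheory

namespace Sok

theorem re_v_nonneg {u : ℂ} (hu : ‖u‖ ≤ 1) : 0 ≤ (1 - u).re := by
  have h1 := Complex.re_le_norm u
  have : (1 - u).re = 1 - u.re := by simp
  rw [this]; linarith

/-- upper bound: |v|² ≤ 5 |E - 1| when E = (1-v)e^v is close to 1 -/
theorem v_upper {u E : ℂ} (hu : ‖u‖ ≤ 1 - ‖1 - u‖ / 2) (hE : E = (1 - (1 - u)) * exp (1 - u))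
    (hE1 : ‖E - 1‖ ≤ 1 / 20) : ‖1 - u‖ ^ 2 ≤ 5 * ‖E - 1‖ := by
  have hu1 : ‖u‖ ≤ 1 := by
    have := norm_nonneg (1 - u)
    linarith
  obtain ⟨v, hv⟩ : ∃ v, v = 1 - u := ⟨_, rfl⟩
  have hre : 0 ≤ v.re := by rw [hv]; exact re_v_nonneg hu1
  rw [← hv] at hu hE ⊢
  have hexpv : ‖exp (-v)‖ ≤ 1 := by
    rw [Complex.norm_exp, neg_re]
    exact Real.exp_le_one_iff.2 (by linarith)
  have hev : exp v * exp (-v) = 1 := by rw [← Complex.exp_add]; simp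
  have hrel : exp (-v) - 1 - (-v) = exp (-v) * (1 - E) := by
    rw [hE]
    linear_combination (1 - v) * hev
  have h12 : ‖v‖ ≤ 1.2 := by
    by_contra hcon
    push Not at hcon
    have hu4 : ‖u‖ ≤ 0.4 := by linarith
    have huE : u = E * exp (-v) := by
      rw [hE]
      have : (1 - v) = u := by rw [hv]; ring
      rw [this]
      linear_combination (-u) * hev
    have h1 : ‖u - exp (-v)‖ ≤ 1 / 20 := by
      have : u - exp (-v) = (E - 1) * exp (-v) := by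
        conv_lhs => rw [huE]
        ring
      rw [this, norm_mul]
      have := norm_nonneg (E - 1)
      nlinarith
    have h2 : exp (-v) = exp (-1) * exp u := by
      rw [← Complex.exp_add, hv]; congr 1; ring
    have h3 : ‖exp (-v) - exp (-1) * (1 + u)‖ ≤ ‖exp (-1)‖ * 0.16 := by
      rw [h2, ← mul_sub, norm_mul]
      apply mul_le_mul_of_nonneg_left _ (norm_nonneg _)
      have h4 := norm_exp_sub_one_sub_leU (B := u) hu1
      have h5 : exp u - (1 + u) = exp u - 1 - u := by ring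
      rw [h5]
      have h6 : ‖u‖ ^ 2 ≤ 0.4 ^ 2 := pow_le_pow_left₀ (norm_nonneg _) hu4 2
      norm_num at h6
      linarith
    have hen : ‖exp (-1 : ℂ)‖ = Real.exp (-1) := by rw [Complex.norm_exp]; simp
    have h7 : ‖exp (-1 : ℂ)‖ ≤ ‖u - exp (-v)‖ + ‖exp (-v) - exp (-1) * (1 + u)‖ + ‖u‖ * ‖1 - exp (-1 : ℂ)‖ := by
      have e : -exp (-1 : ℂ) = (u - exp (-v)) + (exp (-v) - exp (-1) * (1 + u)) - u * (1 - exp (-1)) := by ring
      calc ‖exp (-1 : ℂ)‖ = ‖-exp (-1 : ℂ)‖ := (norm_neg _).symm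
        _ = ‖(u - exp (-v)) + (exp (-v) - exp (-1) * (1 + u)) - u * (1 - exp (-1))‖ := by rw [← e]
        _ ≤ ‖(u - exp (-v)) + (exp (-v) - exp (-1) * (1 + u))‖ + ‖u * (1 - exp (-1))‖ := norm_sub_le _ _
        _ ≤ _ := by
            rw [norm_mul]
            have := norm_add_le (u - exp (-v)) (exp (-v) - exp (-1) * (1 + u))
            linarith
    have h8 : ‖1 - exp (-1 : ℂ)‖ = 1 - Real.exp (-1) := by
      have : (1 : ℂ) - exp (-1 : ℂ) = ((1 - Real.exp (-1) : ℝ) : ℂ) := by push_cast; ring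
      rw [this, Complex.norm_real, Real.norm_eq_abs, abs_of_nonneg]
      have := Real.exp_le_one_iff.2 (by norm_num : (-1:ℝ) ≤ 0)
      linarith
    rw [hen] at h3 h7
    rw [h8] at h7
    have h9 : 0.3678 < Real.exp (-1) := by
      have := Real.exp_neg_one_gt_d9
      linarith
    have h10 : Real.exp (-1) < 0.368 := by
      have := Real.exp_neg_one_lt_d9
      linarith
    nlinarith
  have ht := norm_exp_tail (-v)
  rw [norm_neg] at ht
  have ht2 := tail_le (norm_nonneg v) h12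
  have h1 : ‖v ^ 2 / 2‖ ≤ ‖exp (-v) - 1 - (-v)‖ + ‖exp (-v) - 1 - (-v) - (-v) ^ 2 / 2‖ := by
    calc ‖v ^ 2 / 2‖ = ‖(exp (-v) - 1 - (-v)) - (exp (-v) - 1 - (-v) - (-v) ^ 2 / 2)‖ := by
          congr 1; ring
      _ ≤ _ := norm_sub_le _ _
  have h2 : ‖exp (-v) - 1 - (-v)‖ ≤ ‖E - 1‖ := by
    rw [hrel, norm_mul, ← norm_neg (E - 1)]
    have : -(E - 1) = 1 - E := by ring
    rw [this]
    have := norm_nonneg (1 - E)
    nlinarith
  have h3 : ‖v ^ 2 / 2‖ = ‖v‖ ^ 2 / 2 := by rw [norm_div, norm_pow]; simp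
  rw [h3] at h1
  have h5 := norm_nonneg (E - 1)
  linarith

/-- expansion: v² = 2(1-E) + O(|v|³ + |v||1-E|) -/
theorem v_expand {u E : ℂ} (hu : ‖u‖ ≤ 1) (hE : E = (1 - (1 - u)) * exp (1 - u)) (hv1 : ‖1 - u‖ ≤ 1) :
    ‖(1 - u) ^ 2 + 2 * (E - 1)‖ ≤ 6 * ‖1 - u‖ ^ 3 + 4 * ‖1 - u‖ * ‖E - 1‖ := by
  obtain ⟨v, hv⟩ : ∃ v, v = 1 - u := ⟨_, rfl⟩
  have hre : 0 ≤ v.re := by rw [hv]; exact re_v_nonneg hu
  rw [← hv] at hE hv1 ⊢
  have hev : exp v * exp (-v) = 1 := by rw [← Complex.exp_add]; simp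
  have hrel : exp (-v) - 1 - (-v) = exp (-v) * (1 - E) := by
    rw [hE]
    linear_combination (1 - v) * hev
  have h1 : v ^ 2 + 2 * (E - 1) = -2 * (exp (-v) - 1 - (-v) - (-v) ^ 2 / 2) + 2 * ((exp (-v) - 1) * (1 - E)) := by
    linear_combination 2 * hrel
  have h2 := Complex.norm_exp_sub_sum_le_norm_mul_exp (-v) 3
  have e1 : exp (-v) - ∑ m ∈ Finset.range 3, (-v) ^ m / (m.factorial : ℂ)
      = exp (-v) - 1 - (-v) - (-v) ^ 2 / 2 := by
    simp [Finset.sum_range_succ, Nat.factorial]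
    ring
  rw [e1, norm_neg] at h2
  have h3 : Real.exp ‖v‖ ≤ 3 := by
    have := Real.exp_le_exp.2 hv1
    have := Real.exp_one_lt_d9
    linarith
  have h4 : ‖exp (-v) - 1‖ ≤ 2 * ‖v‖ := by
    have h5 := norm_exp_sub_one_le' (B := -v) (by rw [norm_neg]; exact hv1)
    rw [norm_neg] at h5
    have := norm_nonneg v
    nlinarith
  rw [h1]
  calc ‖-2 * (exp (-v) - 1 - (-v) - (-v) ^ 2 / 2) + 2 * ((exp (-v) - 1) * (1 - E))‖
      ≤ ‖-2 * (exp (-v) - 1 - (-v) - (-v) ^ 2 / 2)‖ + ‖2 * ((exp (-v) - 1) * (1 - E))‖ := norm_add_le _ _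
    _ = 2 * ‖exp (-v) - 1 - (-v) - (-v) ^ 2 / 2‖ + 2 * (‖exp (-v) - 1‖ * ‖E - 1‖) := by
        rw [norm_mul, norm_mul, norm_mul, norm_sub_rev 1 E]
        simp
    _ ≤ 2 * (‖v‖ ^ 3 * 3) + 2 * (2 * ‖v‖ * ‖E - 1‖) := by
        have h6 : ‖exp (-v) - 1 - (-v) - (-v) ^ 2 / 2‖ ≤ ‖v‖ ^ 3 * 3 :=
          h2.trans (mul_le_mul_of_nonneg_left h3 (by positivity))
        have h7 := mul_le_mul_of_nonneg_right h4 (norm_nonneg (E - 1))
        linarith
    _ = _ := by ring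

/-- square root with positive real part close to another one -/
theorem sqrt_close {v p : ℂ} {m d : ℝ} (hm : 0 < m) (hv : 0 ≤ v.re) (hp : m ≤ p.re)
    (h : ‖v ^ 2 - p ^ 2‖ ≤ d) : ‖v - p‖ ≤ d / m := by
  have h1 : m ≤ ‖v + p‖ := by
    have h2 := Complex.re_le_norm (v + p)
    have h3 : (v + p).re = v.re + p.re := by simp
    rw [h3] at h2
    linarith
  have h4 : v ^ 2 - p ^ 2 = (v - p) * (v + p) := by ring
  rw [h4, norm_mul] at h
  rw [le_div_iff₀ hm]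
  have := mul_le_mul_of_nonneg_left h1 (norm_nonneg (v - p))
  linarith

/-- real part of the square root p of -2η when Re η ≤ small -/
theorem sqrt_re {p : ℂ} {k : ℝ} (hp : 0 ≤ p.re) (hk : k ≤ 0.01) (h : -(k * ‖p‖ ^ 2) ≤ (p ^ 2).re) :
    0.7 * ‖p‖ ≤ p.re ∧ |p.im| ≤ 0.715 * ‖p‖ := by
  have h1 : (p ^ 2).re = p.re ^ 2 - p.im ^ 2 := by rw [sq, Complex.mul_re]; ring
  have h2 : ‖p‖ ^ 2 = p.re ^ 2 + p.im ^ 2 := by
    rw [← Complex.normSq_eq_norm_sq, Complex.normSq_apply]; ring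
  have h3 : 0 ≤ ‖p‖ ^ 2 := by positivity
  constructor
  · have h4 : (0.7 * ‖p‖) ^ 2 ≤ p.re ^ 2 := by nlinarith
    exact (abs_le_of_sq_le_sq' h4 hp).2
  · have h4 : p.im ^ 2 ≤ (0.715 * ‖p‖) ^ 2 := by nlinarith
    exact abs_le_of_sq_le_sq h4 (by positivity)

/-- a = p/c has Re a ≥ |a|/5 -/
theorem quot_re {p c : ℂ} (hc : c ≠ 0) (h1 : 0.7 * ‖p‖ ≤ p.re) (h2 : |p.im| ≤ 0.715 * ‖p‖)
    (h3 : 0.866 * ‖c‖ ≤ c.re) (h4 : |c.im| ≤ ‖c‖ / 2) : ‖p / c‖ / 5 ≤ (p / c).re := by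
  have hcn : 0 < ‖c‖ := norm_pos_iff.2 hc
  have e : (p / c).re = (p.re * c.re + p.im * c.im) / ‖c‖ ^ 2 := by
    rw [Complex.div_re, Complex.normSq_eq_norm_sq]; ring
  rw [e, norm_div, div_div, div_le_div_iff₀ (by positivity) (by positivity)]
  have h5 : -(0.715 * ‖p‖ * (‖c‖ / 2)) ≤ p.im * c.im := by
    have h6 : |p.im * c.im| ≤ 0.715 * ‖p‖ * (‖c‖ / 2) := by
      rw [abs_mul]
      exact mul_le_mul h2 h4 (abs_nonneg _) (by positivity)
    exact (abs_le.1 h6).1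
  have h7 : 0.7 * ‖p‖ * (0.866 * ‖c‖) ≤ p.re * c.re :=
    mul_le_mul h1 h3 (by positivity) (le_trans (by positivity) h1)
  have h8 : 0 ≤ ‖p‖ * ‖c‖ := by positivity
  have h9 : ‖p‖ * ‖c‖ / 5 ≤ p.re * c.re + p.im * c.im := by nlinarith
  nlinarith

end Sok
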