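import Pool.Agent.Lib.MP_816dec_an.CL2
import Pool.Agent.Lib.MP_816dec_an.CHW

/-!
MP_816dec_an, part C, near q = 1: the boundary layer (6.6).
-/

open Complex Set Filter Topology MeasureTheory

namespace Sok

/-- the scaled function Φ_s(ζ) = K(s) e^((e^η-1)/s) f(η), η = c²ζ/2 -/
noncomputable def PhiF (s ζ : ℂ) : ℂ :=
  Ks s * exp ((exp (cs s ^ 2 / 2 * ζ) - 1) / s) * fS s (cs s ^ 2 / 2 * ζ)

theorem Ks_ne {s : ℂ} : Ks s ≠ 0 := by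
  unfold Ks
  exact div_ne_zero (mul_ne_zero (Complex.exp_ne_zero _) (Complex.exp_ne_zero _)) cs_ne

theorem PhiF_eq_zero_iff {s ζ : ℂ} : PhiF s ζ = 0 ↔ fS s (cs s ^ 2 / 2 * ζ) = 0 := by
  unfold PhiF
  simp [Ks_ne, Complex.exp_ne_zero]

theorem hasDerivAt_PhiF {s : ℂ} (hs : 0 ≤ s.re) (ζ : ℂ) :
    HasDerivAt (PhiF s) (cs s ^ 2 / 2 * (Ks s * exp ((exp (cs s ^ 2 / 2 * ζ) - 1) / s)) *
      (exp (cs s ^ 2 / 2 * ζ) / s * fS s (cs s ^ 2 / 2 * ζ)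
        + zc s (cs s ^ 2 / 2 * ζ) * fS s (cs s ^ 2 / 2 * ζ - s))) ζ := by
  have h1 : HasDerivAt (fun ζ : ℂ => cs s ^ 2 / 2 * ζ) (cs s ^ 2 / 2) ζ := by
    simpa using (hasDerivAt_id ζ).const_mul (cs s ^ 2 / 2)
  have h2 : HasDerivAt (fun ζ : ℂ => exp ((exp (cs s ^ 2 / 2 * ζ) - 1) / s))
      (exp ((exp (cs s ^ 2 / 2 * ζ) - 1) / s) * (exp (cs s ^ 2 / 2 * ζ) * (cs s ^ 2 / 2) / s)) ζ :=
    ((h1.cexp.sub_const 1).div_const s).cexp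
  have h3 : HasDerivAt (fun ζ : ℂ => fS s (cs s ^ 2 / 2 * ζ)) _ ζ :=
    (hasDerivAt_fS hs (cs s ^ 2 / 2 * ζ)).comp ζ h1
  have h4 := (h2.const_mul (Ks s)).mul h3
  refine h4.congr_deriv ?_
  ring

theorem differentiable_PhiF {s : ℂ} (hs : 0 ≤ s.re) : Differentiable ℂ (PhiF s) :=
  fun ζ => (hasDerivAt_PhiF hs ζ).differentiableAt

/-- logarithmic derivative of Φ -/
theorem logDeriv_PhiF {s ζ : ℂ} (hs : 0 ≤ s.re) (hs0 : s ≠ 0) (hf : PhiF s ζ ≠ 0) :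
    cs s * (deriv (PhiF s) ζ / PhiF s ζ) = exp (cs s ^ 2 / 2 * ζ) - US s (cs s ^ 2 / 2 * ζ) := by
  have hf' : fS s (cs s ^ 2 / 2 * ζ) ≠ 0 := fun h => hf (PhiF_eq_zero_iff.2 h)
  rw [(hasDerivAt_PhiF hs ζ).deriv, deriv_eq_US hs0 hf']
  have hc := cs_cube hs0
  have hK : Ks s ≠ 0 := Ks_ne
  have hE : exp ((exp (cs s ^ 2 / 2 * ζ) - 1) / s) ≠ 0 := Complex.exp_ne_zero _
  unfold PhiF
  obtain ⟨f, hfe⟩ : ∃ f, f = fS s (cs s ^ 2 / 2 * ζ) := ⟨_, rfl⟩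
  obtain ⟨U, hU⟩ : ∃ U, U = US s (cs s ^ 2 / 2 * ζ) := ⟨_, rfl⟩
  obtain ⟨E, hEe⟩ : ∃ E, E = exp ((exp (cs s ^ 2 / 2 * ζ) - 1) / s) := ⟨_, rfl⟩
  obtain ⟨e, hee⟩ : ∃ e, e = exp (cs s ^ 2 / 2 * ζ) := ⟨_, rfl⟩
  rw [← hfe] at hf' ⊢
  rw [← hEe] at hE ⊢
  rw [← hee, ← hU]
  have h1 : cs s * (cs s ^ 2 / 2 * (Ks s * E) * (e / s * f + -(1 / s) * (U * f)) / (Ks s * E * f))
      = cs s ^ 3 / (2 * s) * (e - U) := by
    field_simp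
    ring
  rw [h1, hc]
  have h2 : 2 * s / (2 * s) = 1 := div_self (by simpa using hs0)
  rw [h2, one_mul]

/-- uniform convergence of quotients on compact sets -/
theorem quot_unif {ι : Type*} {l : Filter ι} {f f' : ι → ℂ → ℂ} {g g' : ℂ → ℂ} {K : Set ℂ}
    (hK : IsCompact K) (hf : TendstoUniformlyOn f g l K) (hf' : TendstoUniformlyOn f' g' l K)
    (hg : ContinuousOn g K) (hg' : ContinuousOn g' K) (hne : ∀ z ∈ K, g z ≠ 0) {δ : ℝ} (hδ : 0 < δ) :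
    ∀ᶠ i in l, ∀ z ∈ K, f i z ≠ 0 ∧ ‖f' i z / f i z - g' z / g z‖ < δ := by
  rcases K.eq_empty_or_nonempty with h | h
  · subst h; simp
  obtain ⟨z0, hz0, hmin⟩ := hK.exists_isMinOn h hg.norm
  obtain ⟨z1, hz1, hmax⟩ := hK.exists_isMaxOn h hg'.norm
  obtain ⟨m, hm⟩ : ∃ m, m = ‖g z0‖ := ⟨_, rfl⟩
  obtain ⟨M, hM⟩ : ∃ M, M = ‖g' z1‖ := ⟨_, rfl⟩
  have hmpos : 0 < m := by rw [hm]; exact norm_pos_iff.2 (hne z0 hz0)
  have hM0 : 0 ≤ M := by rw [hM]; exact norm_nonneg _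
  rw [Metric.tendstoUniformlyOn_iff] at hf hf'
  obtain ⟨ε, hε⟩ : ∃ ε, ε = min (m / 2) (δ * m / (4 * (1 + M / m))) := ⟨_, rfl⟩
  have hεpos : 0 < ε := by rw [hε]; positivity
  filter_upwards [hf ε hεpos, hf' ε hεpos] with i h1 h2 z hz
  have h3 := h1 z hz
  have h4 := h2 z hz
  rw [dist_eq_norm] at h3 h4
  have h5 : m ≤ ‖g z‖ := by rw [hm]; exact hmin hz
  have h6 : ‖g' z‖ ≤ M := by rw [hM]; exact hmax hz
  have h7 : ε ≤ m / 2 := by rw [hε]; exact min_le_left _ _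
  have h8 : ε * (4 * (1 + M / m)) ≤ δ * m := by
    have : ε ≤ δ * m / (4 * (1 + M / m)) := by rw [hε]; exact min_le_right _ _
    rwa [le_div_iff₀ (by positivity)] at this
  have h9 : m / 2 ≤ ‖f i z‖ := by
    have : ‖g z‖ ≤ ‖g z - f i z‖ + ‖f i z‖ := by
      calc ‖g z‖ = ‖(g z - f i z) + f i z‖ := by congr 1; ring
        _ ≤ _ := norm_add_le _ _
    linarith
  have hfpos : 0 < ‖f i z‖ := by linarith
  have hfne : f i z ≠ 0 := norm_pos_iff.1 hfpos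
  have hgne := hne z hz
  refine ⟨hfne, ?_⟩
  have e : f' i z / f i z - g' z / g z
      = ((g' z / g z) * (g z - f i z) - (g' z - f' i z)) / f i z := by
    field_simp
    ring
  rw [e, norm_div, div_lt_iff₀ hfpos]
  have h10 : ‖g' z / g z‖ ≤ M / m := by
    rw [norm_div]
    exact div_le_div₀ hM0 h6 hmpos h5
  have h11 : ‖(g' z / g z) * (g z - f i z) - (g' z - f' i z)‖ ≤ (M / m) * ε + ε := by
    calc _ ≤ ‖(g' z / g z) * (g z - f i z)‖ + ‖g' z - f' i z‖ := norm_sub_le _ _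
      _ ≤ _ := by
          rw [norm_mul]
          have := mul_le_mul h10 h3.le (norm_nonneg _) (by positivity)
          linarith
  have h12 : δ * (m / 2) ≤ δ * ‖f i z‖ := mul_le_mul_of_nonneg_left h9 hδ.le
  have h13 : (M / m) * ε + ε ≤ δ * m / 4 := by linarith
  have h14 : 0 < δ * m := by positivity
  linarith

theorem US_sub_period (s η : ℂ) (k : ℤ) : US s (η - 2 * Real.pi * k * I) = US s η := by
  unfold US
  have h1 : η - 2 * Real.pi * k * I - 1 - s / 2 = (η - 1 - s / 2) - 2 * Real.pi * k * I := by ring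
  have h2 : η - 2 * Real.pi * k * I - s = (η - s) - 2 * Real.pi * k * I := by ring
  rw [h1, h2, exp_sub_period, fS_sub_period, fS_sub_period]

/-- ep → 0 -/
theorem tendsto_ep : Tendsto ep (𝓝 0) (𝓝 0) := by
  have h : Continuous ep := by
    unfold ep
    exact (continuous_norm).rpow_const (fun x => Or.inr (by norm_num))
  have := h.tendsto 0
  have h0 : ep 0 = 0 := by
    unfold ep
    rw [norm_zero, Real.zero_rpow (by norm_num)]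
  rwa [h0] at this

/-- compact set for the layer -/
def LK (R : ℝ) : Set ℂ := (fun a : ℂ => -a ^ 2) '' {a | 1.2 * R ≤ ‖a‖ ^ 2 ∧ ‖a‖ ^ 2 ≤ 2.6 * R ∧ ‖a‖ / 5 ≤ a.re}

theorem isCompact_LK (R : ℝ) : IsCompact (LK R) := by
  apply IsCompact.image _ (by fun_prop)
  apply Metric.isCompact_of_isClosed_isBounded
  · have h1 : IsClosed {a : ℂ | 1.2 * R ≤ ‖a‖ ^ 2} := isClosed_le (by fun_prop) (by fun_prop)
    have h2 : IsClosed {a : ℂ | ‖a‖ ^ 2 ≤ 2.6 * R} := isClosed_le (by fun_prop) (by fun_prop)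
    have h3 : IsClosed {a : ℂ | ‖a‖ / 5 ≤ a.re} := isClosed_le (by fun_prop) Complex.continuous_re
    exact h1.inter (h2.inter h3)
  · apply (Metric.isBounded_closedBall (x := (0:ℂ)) (r := 2.6 * R + 1)).subset
    rintro a ⟨_, h2, _⟩
    rw [mem_closedBall_zero_iff]
    have := norm_nonneg a
    nlinarith

/-- existence of a square root with nonnegative real part -/
theorem exists_sqrt (w : ℂ) : ∃ p : ℂ, p ^ 2 = w ∧ 0 ≤ p.re := by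
  obtain ⟨p, hp⟩ := IsAlgClosed.exists_pow_nat_eq w (n := 2) (by norm_num)
  rcases le_total 0 p.re with h | h
  · exact ⟨p, hp, h⟩
  · exact ⟨-p, by rw [neg_sq, hp], by simpa using h⟩

/-- v is close to the square root of -2η -/
theorem vp_est {C : ℝ} {s η p : ℂ} {g : ℝ} (hC : 1 ≤ C) (hs0 : s ≠ 0) (hη : η.re ≤ C * ep s)
    (hp2 : p ^ 2 = -2 * η) (hp : 0.9 * g ≤ p.re) (hg0 : 0 < g) (hg6 : g ≤ 1 / 1000000)
    (hηg : ‖η‖ ≤ 2 * g ^ 2) (hCeg : C * ep s ≤ g ^ 2 / 40000) :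
    ‖(1 - uS C s η) - p‖ ≤ g / 1000 := by
  have he := ep_pos hs0
  obtain ⟨u, hu⟩ : ∃ u, u = uS C s η := ⟨_, rfl⟩
  have huG := uS_G hC hs0 hη
  have hEq := exp_eq_uS hC hs0 hη
  rw [← hu] at huG hEq ⊢
  obtain ⟨w, hw⟩ : ∃ w : ℂ, w = η - ((2 * C * ep s : ℝ) : ℂ) := ⟨_, rfl⟩
  rw [← hw] at hEq
  have hCepos : 0 < C * ep s := by positivity
  have hnC : ‖((2 * C * ep s : ℝ) : ℂ)‖ = 2 * (C * ep s) := by
    rw [Complex.norm_real, Real.norm_eq_abs, abs_of_nonneg (by positivity)]; ring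
  have hwn : ‖w‖ ≤ 2.1 * g ^ 2 := by
    have h1 : ‖w‖ ≤ ‖η‖ + 2 * (C * ep s) := by
      rw [hw]
      refine (norm_sub_le _ _).trans (le_of_eq ?_)
      rw [hnC]
    have h2 : 0 ≤ g ^ 2 := by positivity
    linarith
  have hg2s : g ^ 2 ≤ 1 / 1000000 * g := by
    rw [sq]; exact mul_le_mul_of_nonneg_right hg6 hg0.le
  have hg1 : g ^ 2 ≤ 1 / 1000000000000 := by linarith
  have hg2pos : 0 < g ^ 2 := by positivity
  have hw1 : ‖w‖ ≤ 1 := by linarith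
  have hwnn := norm_nonneg w
  have hEw : ‖exp w - 1‖ ≤ 2.2 * g ^ 2 := by
    have h5 := norm_exp_sub_one_le' (B := w) hw1
    have h6 : ‖w‖ * (1 + ‖w‖) ≤ ‖w‖ * (1 + 1 / 1000) := by
      apply mul_le_mul_of_nonneg_left _ hwnn
      linarith
    linarith
  have hg3 : g ^ 3 ≤ 1 / 1000000 * g ^ 2 := by
    have : g ^ 3 = g * g ^ 2 := by ring
    rw [this]
    exact mul_le_mul_of_nonneg_right hg6 (by positivity)
  have hg4 : g ^ 4 ≤ 1 / 1000000 * g ^ 2 := by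
    have : g ^ 4 = g ^ 2 * g ^ 2 := by ring
    rw [this]
    apply mul_le_mul_of_nonneg_right _ (by positivity)
    linarith
  have hEw2 : ‖exp w - 1 - w‖ ≤ 5 * g ^ 4 := by
    have h5 := norm_exp_sub_one_sub_leU (B := w) hw1
    have h6 : ‖w‖ ^ 2 ≤ (2.1 * g ^ 2) ^ 2 := pow_le_pow_left₀ hwnn hwn 2
    have h7 : 0 ≤ g ^ 4 := by positivity
    have h8 : (2.1 * g ^ 2) ^ 2 = 4.41 * g ^ 4 := by ring
    linarith
  have hE1 : ‖exp w - 1‖ ≤ 1 / 20 := by linarith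
  have hvu := v_upper huG hEq hE1
  have hv4 : ‖1 - u‖ ≤ 4 * g := by
    have h1 : ‖1 - u‖ ^ 2 ≤ (4 * g) ^ 2 := by
      have : (4 * g) ^ 2 = 16 * g ^ 2 := by ring
      rw [this]; linarith
    exact (abs_le_of_sq_le_sq' h1 (by positivity)).2
  have hv1 : ‖1 - u‖ ≤ 1 := by linarith
  have hu1 : ‖u‖ ≤ 1 := by
    have := norm_nonneg (1 - u)
    linarith
  have hve := v_expand hu1 hEq hv1
  have hvn := norm_nonneg (1 - u)
  have hv3 : ‖1 - u‖ ^ 3 ≤ 64 * g ^ 3 := by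
    have h1 : ‖1 - u‖ ^ 3 ≤ (4 * g) ^ 3 := pow_le_pow_left₀ (norm_nonneg _) hv4 3
    have h2 : (4 * g) ^ 3 = 64 * g ^ 3 := by ring
    linarith
  have hvE : ‖1 - u‖ * ‖exp w - 1‖ ≤ 9 * g ^ 3 := by
    have h1 := mul_le_mul hv4 hEw (norm_nonneg _) (by positivity)
    have h2 : 0 ≤ g ^ 3 := by positivity
    have h3 : 4 * g * (2.2 * g ^ 2) = 8.8 * g ^ 3 := by ring
    linarith
  have hd : ‖(1 - u) ^ 2 - p ^ 2‖ ≤ 0.0006 * g ^ 2 := by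
    have e : (1 - u) ^ 2 - p ^ 2 = ((1 - u) ^ 2 + 2 * (exp w - 1)) - 2 * (exp w - 1 - w)
        + 2 * ((2 * C * ep s : ℝ) : ℂ) := by
      rw [hp2, hw]; ring
    have h1 : ‖(1 - u) ^ 2 - p ^ 2‖ ≤ ‖(1 - u) ^ 2 + 2 * (exp w - 1)‖ + 2 * ‖exp w - 1 - w‖
        + 2 * (2 * (C * ep s)) := by
      rw [e]
      refine (norm_add_le _ _).trans ?_
      have h2 : ‖2 * ((2 * C * ep s : ℝ) : ℂ)‖ = 2 * (2 * (C * ep s)) := by
        rw [norm_mul, hnC]; simp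
      rw [h2]
      have h3 := norm_sub_le ((1 - u) ^ 2 + 2 * (exp w - 1)) (2 * (exp w - 1 - w))
      have h4 : ‖2 * (exp w - 1 - w)‖ = 2 * ‖exp w - 1 - w‖ := by rw [norm_mul]; simp
      rw [h4] at h3
      linarith
    have h6 : ‖(1 - u) ^ 2 + 2 * (exp w - 1)‖ ≤ 6 * ‖1 - u‖ ^ 3 + 4 * (‖1 - u‖ * ‖exp w - 1‖) := by
      have : 4 * (‖1 - u‖ * ‖exp w - 1‖) = 4 * ‖1 - u‖ * ‖exp w - 1‖ := by ring
      rw [this]; exact hve
    have h7 : ‖(1 - u) ^ 2 + 2 * (exp w - 1)‖ ≤ 420 * g ^ 3 := by linarith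
    linarith
  have hvp := sqrt_close (m := 0.9 * g) (by positivity) (re_v_nonneg hu1) hp hd
  refine hvp.trans ?_
  rw [div_le_iff₀ (by positivity)]
  have : g / 1000 * (0.9 * g) = 0.0009 * g ^ 2 := by ring
  rw [this]
  linarith

/-- U is close to 1 - sqrt(-2η) -/
theorem Up_est {Y : ℂ → ℂ} {RY CY : ℝ}
    (hY : ∀ ζ a : ℂ, a ^ 2 = -ζ → ‖a‖ / 5 ≤ a.re → RY ≤ ‖ζ‖ → Y ζ ≠ 0 ∧ ‖deriv Y ζ / Y ζ - a‖ ≤ CY / ‖ζ‖)
    {R : ℝ} (hR : 40000 ≤ R) (hR1 : RY ≤ R) (hR2 : 4 * CY ≤ R) {s : ℂ}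
    (hs : 0 ≤ s.re) (hs0 : s ≠ 0)
    (hunif : ∀ ζ ∈ LK R, PhiF s ζ ≠ 0 ∧ ‖deriv (PhiF s) ζ / PhiF s ζ - deriv Y ζ / Y ζ‖ < 1 / 4)
    {η p : ℂ} {g : ℝ} (hη1 : R * ep s ≤ ‖η‖) (hη2 : ‖η‖ ≤ 2 * (R * ep s)) (hp2 : p ^ 2 = -2 * η)
    (hp1 : 0.7 * ‖p‖ ≤ p.re) (hpim : |p.im| ≤ 0.715 * ‖p‖) (hg0 : 0 < g) (hg2 : g ^ 2 = R * ep s)
    (hg6 : g ≤ 1 / 1000000) :
    fS s η ≠ 0 ∧ ‖(1 - US s η) - p‖ ≤ 4 * g ^ 2 + g / 300 := by
  have he := ep_pos hs0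
  have hRpos : 0 < R := by linarith
  have hcne : cs s ≠ 0 := cs_ne
  have hcpos : 0 < ‖cs s‖ := norm_pos_iff.2 hcne
  have hare := quot_re hcne hp1 hpim (cs_re hs) (cs_im hs)
  obtain ⟨a, ha⟩ : ∃ a, a = p / cs s := ⟨_, rfl⟩
  rw [← ha] at hare
  obtain ⟨ζ, hζ⟩ : ∃ ζ, ζ = 2 * η / cs s ^ 2 := ⟨_, rfl⟩
  have ha2 : a ^ 2 = -ζ := by
    rw [ha, hζ, div_pow, hp2]; ring
  have hηζ : cs s ^ 2 / 2 * ζ = η := by
    rw [hζ]; field_simp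
  have hζn : ‖ζ‖ = 2 * ‖η‖ / ‖cs s‖ ^ 2 := by
    rw [hζ, norm_div, norm_mul, norm_pow]; simp
  have hc1 := norm_cs_sq_le hs0
  have hc2 := norm_cs_sq_ge hs0
  have hζ1 : 1.25 * R ≤ ‖ζ‖ := by
    rw [hζn, le_div_iff₀ (by positivity)]
    have h1 := mul_le_mul_of_nonneg_left hc1 (by positivity : 0 ≤ 1.25 * R)
    linarith
  have hζ2 : ‖ζ‖ ≤ 2.6 * R := by
    rw [hζn, div_le_iff₀ (by positivity)]
    have h1 := mul_le_mul_of_nonneg_left hc2 (by positivity : 0 ≤ 2.6 * R)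
    have h2 : 0 < R * ep s := by positivity
    linarith
  have haζ : ‖a‖ ^ 2 = ‖ζ‖ := by rw [← norm_pow, ha2, norm_neg]
  have hmem : ζ ∈ LK R := by
    refine ⟨a, ⟨?_, ?_, hare⟩, ?_⟩
    · rw [haζ]; linarith
    · rw [haζ]; exact hζ2
    · show -a ^ 2 = ζ
      rw [ha2]; ring
  obtain ⟨hΦ, hΦq⟩ := hunif ζ hmem
  obtain ⟨hYne, hYq⟩ := hY ζ a ha2 hare (by linarith)
  have hfne : fS s η ≠ 0 := by
    intro h
    apply hΦ
    rw [PhiF_eq_zero_iff, hηζ]; exact h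
  refine ⟨hfne, ?_⟩
  have hlog := logDeriv_PhiF hs hs0 hΦ
  rw [hηζ] at hlog
  -- |c| ≤ g/150
  have hcg : ‖cs s‖ ≤ g / 150 := by
    have h1 : ‖cs s‖ ^ 2 ≤ (g / 150) ^ 2 := by
      rw [div_pow, hg2]
      have : 40000 * ep s ≤ R * ep s := mul_le_mul_of_nonneg_right hR he.le
      linarith
    exact (abs_le_of_sq_le_sq' h1 (by positivity)).2
  -- quotient
  have hq : ‖deriv (PhiF s) ζ / PhiF s ζ - a‖ ≤ 1 / 2 := by
    have h1 : CY / ‖ζ‖ ≤ 1 / 4 := by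
      rw [div_le_iff₀ (by linarith)]
      linarith
    calc ‖deriv (PhiF s) ζ / PhiF s ζ - a‖
        = ‖(deriv (PhiF s) ζ / PhiF s ζ - deriv Y ζ / Y ζ) + (deriv Y ζ / Y ζ - a)‖ := by congr 1; ring
      _ ≤ ‖deriv (PhiF s) ζ / PhiF s ζ - deriv Y ζ / Y ζ‖ + ‖deriv Y ζ / Y ζ - a‖ := norm_add_le _ _
      _ ≤ _ := by linarith
  have hU : US s η = exp η - cs s * (deriv (PhiF s) ζ / PhiF s ζ) := by rw [hlog]; ring
  have hcp : cs s * a = p := by rw [ha]; field_simp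
  have hηg : ‖η‖ ≤ 2 * g ^ 2 := by rw [hg2]; exact hη2
  have hg2s : g ^ 2 ≤ 1 / 1000000 * g := by
    rw [sq]; exact mul_le_mul_of_nonneg_right hg6 hg0.le
  have hη1' : ‖η‖ ≤ 1 := by linarith
  have e : (1 - US s η) - p = cs s * (deriv (PhiF s) ζ / PhiF s ζ - a) - (exp η - 1) := by
    rw [hU, ← hcp]; ring
  have h2 : ‖exp η - 1‖ ≤ 2 * ‖η‖ := by
    have h5 := norm_exp_sub_one_le' (B := η) hη1'
    have h6 := norm_nonneg η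
    have h7 : ‖η‖ * (1 + ‖η‖) ≤ ‖η‖ * 2 := mul_le_mul_of_nonneg_left (by linarith) h6
    linarith
  rw [e]
  calc _ ≤ ‖cs s * (deriv (PhiF s) ζ / PhiF s ζ - a)‖ + ‖exp η - 1‖ := norm_sub_le _ _
    _ ≤ _ := by
        rw [norm_mul]
        have := mul_le_mul hcg hq (norm_nonneg _) (by positivity)
        linarith

/-- the estimate in the layer, k = 0 -/
theorem layer_est {Y : ℂ → ℂ} {RY CY : ℝ}
    (hY : ∀ ζ a : ℂ, a ^ 2 = -ζ → ‖a‖ / 5 ≤ a.re → RY ≤ ‖ζ‖ → Y ζ ≠ 0 ∧ ‖deriv Y ζ / Y ζ - a‖ ≤ CY / ‖ζ‖)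
    {C R : ℝ} (hC : 1 ≤ C) (hR : 40000 * C ≤ R) (hR1 : RY ≤ R) (hR2 : 4 * CY ≤ R) {s : ℂ}
    (hs : 0 ≤ s.re) (hs0 : s ≠ 0) (hRe : R * ep s ≤ 1e-12)
    (hunif : ∀ ζ ∈ LK R, PhiF s ζ ≠ 0 ∧ ‖deriv (PhiF s) ζ / PhiF s ζ - deriv Y ζ / Y ζ‖ < 1 / 4)
    {η : ℂ} (hη : η.re ≤ C * ep s) (hout : Out R s η) (hη2 : ‖η‖ ≤ 2 * R * ep s) :
    fS s η ≠ 0 ∧ ‖US s η - uS C s η‖ < ‖1 - uS C s η‖ / 8 := by
  have he := ep_pos hs0
  have hRpos : 0 < R := by linarith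
  have hη1 : R * ep s ≤ ‖η‖ := by simpa using hout 0
  obtain ⟨p, hp2, hpre⟩ := exists_sqrt (-2 * η)
  have hpn : ‖p‖ ^ 2 = 2 * ‖η‖ := by
    rw [← norm_pow, hp2, norm_mul]; simp
  have hCe : C * ep s ≤ R * ep s / 40000 := by
    have := mul_le_mul_of_nonneg_right hR he.le
    linarith
  have hRep : 0 < R * ep s := by positivity
  obtain ⟨hp1, hpim⟩ := sqrt_re (p := p) (k := 0.01) hpre le_rfl (by
    rw [hp2, hpn]
    have : (-2 * η).re = -2 * η.re := by simp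
    rw [this]
    linarith)
  -- g = sqrt (R ep)
  obtain ⟨g, hg⟩ : ∃ g, g = Real.sqrt (R * ep s) := ⟨_, rfl⟩
  have hg2 : g ^ 2 = R * ep s := by rw [hg]; exact Real.sq_sqrt hRep.le
  have hg0 : 0 < g := by rw [hg]; exact Real.sqrt_pos.2 hRep
  have hg6 : g ≤ 1 / 1000000 := by
    have : g ^ 2 ≤ (1 / 1000000) ^ 2 := by rw [hg2]; norm_num at hRe ⊢; exact hRe
    exact (abs_le_of_sq_le_sq' this (by norm_num)).2
  have hη2' : ‖η‖ ≤ 2 * (R * ep s) := by linarith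
  obtain ⟨hfne, hA⟩ := Up_est hY (by linarith) hR1 hR2 hs hs0 hunif hη1 hη2' hp2 hp1 hpim hg0 hg2 hg6
  refine ⟨hfne, ?_⟩
  have hp14 : 1.4 * g ≤ ‖p‖ := by
    have h1 : (1.4 * g) ^ 2 ≤ ‖p‖ ^ 2 := by
      have h2 : (1.4 * g) ^ 2 = 1.96 * g ^ 2 := by ring
      rw [hpn, h2, hg2]
      linarith
    exact (abs_le_of_sq_le_sq' h1 (norm_nonneg _)).2
  have hvp := vp_est hC hs0 hη hp2 (by linarith) hg0 hg6 (by rw [hg2]; exact hη2') (by rw [hg2]; exact hCe)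
  have hvl := v_lower hC (by linarith) hs0 (by norm_num at hRe ⊢; linarith) hη hout
  have hvlow : g / 9 ≤ ‖1 - uS C s η‖ := by
    have h1 : (g / 9) ^ 2 ≤ ‖1 - uS C s η‖ ^ 2 := by
      have h2 : (g / 9) ^ 2 = g ^ 2 / 81 := by ring
      rw [h2, hg2]
      linarith
    exact (abs_le_of_sq_le_sq' h1 (norm_nonneg _)).2
  have hfin : ‖US s η - uS C s η‖ ≤ ‖(1 - uS C s η) - p‖ + ‖(1 - US s η) - p‖ := by
    have e : US s η - uS C s η = ((1 - uS C s η) - p) - ((1 - US s η) - p) := by ring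
    rw [e]
    exact norm_sub_le _ _
  have hg2s : g ^ 2 ≤ 1 / 1000000 * g := by
    rw [sq]; exact mul_le_mul_of_nonneg_right hg6 hg0.le
  linarith

/-- (6.6) boundary layer -/
theorem layer {Y : ℂ → ℂ} (hYd : Differentiable ℂ Y) (hV : TendstoLocallyUniformly PhiF Y (𝓝[HP] 0))
    {RY CY : ℝ}
    (hY : ∀ ζ a : ℂ, a ^ 2 = -ζ → ‖a‖ / 5 ≤ a.re → RY ≤ ‖ζ‖ → Y ζ ≠ 0 ∧ ‖deriv Y ζ / Y ζ - a‖ ≤ CY / ‖ζ‖)
    {C R : ℝ} (hC : 1 ≤ C) (hR : 40000 * C ≤ R) (hR1 : RY ≤ R) (hR2 : 4 * CY ≤ R) :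
    ∀ᶠ s in 𝓝[HP] 0, R * ep s ≤ 1e-12 ∧ ∀ η : ℂ, η.re ≤ C * ep s → Out R s η →
      (∃ k : ℤ, ‖η - 2 * Real.pi * k * I‖ ≤ 2 * R * ep s) →
      fS s η ≠ 0 ∧ ‖US s η - uS C s η‖ < ‖1 - uS C s η‖ / 8 := by
  have hRpos : 0 < R := by linarith
  have hHP : ∀ᶠ s in 𝓝[HP] (0:ℂ), s ∈ HP := self_mem_nhdsWithin
  have hsmall : ∀ᶠ s in 𝓝[HP] (0:ℂ), R * ep s ≤ 1e-12 := by
    have h1 : Tendsto (fun s => R * ep s) (𝓝[HP] 0) (𝓝 (R * 0)) :=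
      (tendsto_ep.mono_left nhdsWithin_le_nhds).const_mul R
    rw [mul_zero] at h1
    exact (h1.eventually (gt_mem_nhds (by norm_num : (0:ℝ) < 1e-12))).mono fun s hs => hs.le
  have hdiff : ∀ᶠ s in 𝓝[HP] (0:ℂ), Differentiable ℂ (PhiF s) :=
    hHP.mono fun s hs => differentiable_PhiF hs.1
  have hK := isCompact_LK R
  have hu1 : TendstoUniformlyOn PhiF Y (𝓝[HP] 0) (LK R) :=
    (tendstoLocallyUniformlyOn_iff_tendstoUniformlyOn_of_compact hK).1 hV.tendstoLocallyUniformlyOn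
  have hu2 : TendstoUniformlyOn (fun s => deriv (PhiF s)) (deriv Y) (𝓝[HP] 0) (LK R) :=
    (tendstoLocallyUniformlyOn_iff_tendstoUniformlyOn_of_compact hK).1
      (tlu_deriv hV hdiff).tendstoLocallyUniformlyOn
  have hcont : Continuous (deriv Y) := (hYd.contDiff (n := 1)).continuous_deriv le_rfl
  have hne : ∀ ζ ∈ LK R, Y ζ ≠ 0 := by
    rintro ζ ⟨a, ⟨h1, h2, h3⟩, h4⟩
    have h5 : a ^ 2 = -ζ := by rw [← h4]; ring
    refine (hY ζ a h5 h3 ?_).1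
    have : ‖ζ‖ = ‖a‖ ^ 2 := by rw [← norm_pow, h5, norm_neg]
    rw [this]; linarith
  have hq := quot_unif hK hu1 hu2 hYd.continuous.continuousOn hcont.continuousOn hne
    (by norm_num : (0:ℝ) < 1 / 4)
  filter_upwards [hHP, hsmall, hq] with s hs hs2 hs3
  refine ⟨hs2, fun η hη hout ⟨k, hk⟩ => ?_⟩
  have h1 := layer_est hY hC hR hR1 hR2 hs.1 hs.2 hs2 hs3 (η := η - 2 * Real.pi * k * I)
    (by have : (η - 2 * Real.pi * k * I).re = η.re := by simp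
        rw [this]; exact hη) (hout.sub_period k) hk
  rw [fS_sub_period, US_sub_period, uS_add_period] at h1
  exact h1

end Sok
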