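import Mathlib

/-!
Part C of the proof for Sokal's function, Lemma W: a polynomial with a continuous logarithm on a
circle has no zeros in the closed disc.
-/

set_option autoImplicit false

namespace Sok

/-- a continuous real function with integer values is constant -/
theorem int_valued_const {r : ℝ → ℝ} (hr : Continuous r) (h : ∀ x, ∃ n : ℤ, r x = n) (x y : ℝ) :
    r x = r y := by
  have key : ∀ x y, ¬ r x < r y := by
    intro x y hlt
    obtain ⟨n, hn⟩ := h x
    have h1 : (Set.range r).OrdConnected := (isPreconnected_range hr).ordConnected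
    have hm : ∃ m : ℤ, r y = m := h y
    obtain ⟨m, hm⟩ := hm
    have h2 : n < m := by
      rw [hn, hm] at hlt
      exact_mod_cast hlt
    have h3 : (n : ℝ) + 1 ≤ m := by exact_mod_cast h2
    have h4 : (n : ℝ) + 1 / 2 ∈ Set.range r := by
      refine h1.out ⟨x, rfl⟩ ⟨y, rfl⟩ ⟨?_, ?_⟩
      · rw [hn]; linarith
      · rw [hm]; linarith
    obtain ⟨z, hz⟩ := h4
    obtain ⟨l, hl⟩ := h z
    rw [hl] at hz
    have h5 : ((2 * l : ℤ) : ℝ) = ((2 * n + 1 : ℤ) : ℝ) := by
      push_cast
      linarith
    have h6 : 2 * l = 2 * n + 1 := by exact_mod_cast h5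
    omega
  exact le_antisymm (not_lt.1 (key y x)) (not_lt.1 (key x y))

/-- `q ^ k` has no continuous logarithm on a circle unless `k = 0` -/
theorem log_pow_eq_zero {ρ : ℝ} (hρ : 0 < ρ) (L : ℂ → ℂ) (hL : ContinuousOn L (Metric.sphere 0 ρ))
    (k : ℕ) (h : ∀ q : ℂ, ‖q‖ = ρ → Complex.exp (L q) = q ^ k) : k = 0 := by
  set c : ℝ → ℂ := fun t => (ρ : ℂ) * Complex.exp (t * Complex.I) with hc
  have hcn : ∀ t, ‖c t‖ = ρ := by
    intro t
    rw [hc]
    simp only [norm_mul, Complex.norm_exp_ofReal_mul_I, mul_one, Complex.norm_real,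
      Real.norm_eq_abs, abs_of_pos hρ]
  have hcc : Continuous c := by
    rw [hc]
    fun_prop
  set g : ℝ → ℂ := fun t => L (c t) - k * ((Real.log ρ : ℝ) + t * Complex.I) with hg
  have hgc : Continuous g := by
    have h1 : Continuous fun t => L (c t) := by
      rw [← continuousOn_univ]
      refine hL.comp hcc.continuousOn fun t _ => ?_
      rw [mem_sphere_zero_iff_norm]
      exact hcn t
    rw [hg]
    exact h1.sub (by fun_prop)
  have hexp : ∀ t, Complex.exp (g t) = 1 := by
    intro t
    have h1 : c t = Complex.exp ((Real.log ρ : ℝ) + t * Complex.I) := by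
      rw [Complex.exp_add, ← Complex.ofReal_exp, Real.exp_log hρ]
    rw [hg]
    simp only
    rw [Complex.exp_sub, h _ (hcn t), Complex.exp_nat_mul, ← h1]
    exact div_self (pow_ne_zero _ (fun h0 => by
      have := hcn t
      rw [h0, norm_zero] at this
      exact hρ.ne this))
  have hr : Continuous fun t => (g t).im / (2 * Real.pi) := by fun_prop
  have hint : ∀ t, ∃ n : ℤ, (g t).im / (2 * Real.pi) = n := by
    intro t
    obtain ⟨n, hn⟩ := Complex.exp_eq_one_iff.1 (hexp t)
    refine ⟨n, ?_⟩
    rw [hn]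
    have h1 : ((n : ℂ) * (2 * Real.pi * Complex.I)).im = n * (2 * Real.pi) := by
      simp [Complex.mul_im]
    rw [h1]
    field_simp
  have h1 := int_valued_const hr hint 0 (2 * Real.pi)
  have h2 : c (2 * Real.pi) = c 0 := by
    rw [hc]
    simp only
    congr 1
    rw [Complex.ofReal_zero, zero_mul, Complex.exp_zero]
    push_cast
    exact Complex.exp_two_pi_mul_I
  have h3 : (g (2 * Real.pi)).im = (g 0).im - k * (2 * Real.pi) := by
    rw [hg]
    simp only [h2]
    simp [Complex.sub_im, Complex.mul_im]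
  simp only [h3] at h1
  have h4 : (2 * Real.pi) ≠ 0 := by positivity
  field_simp at h1
  have h5 : (k : ℝ) * (2 * Real.pi) = 0 := by linarith
  rcases mul_eq_zero.1 h5 with h6 | h6
  · exact_mod_cast h6
  · exact absurd h6 h4

/-- products of linear factors without zeros on the circle -/
theorem prod_linear {ρ : ℝ} (hρ : 0 < ρ) (s : Multiset ℂ) (hs : ∀ r ∈ s, ‖r‖ ≠ ρ) :
    ∃ (k : ℕ) (c : ℂ) (G : ℂ → ℂ), c ≠ 0 ∧ ContinuousOn G (Metric.sphere 0 ρ) ∧
      (∀ q : ℂ, ‖q‖ = ρ → (s.map fun r => q - r).prod = c * q ^ k * Complex.exp (G q)) ∧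
      (k = 0 → ∀ r ∈ s, ρ < ‖r‖) := by
  induction s using Multiset.induction_on with
  | empty =>
    exact ⟨0, 1, fun _ => 0, one_ne_zero, continuousOn_const, fun q _ => by simp,
      fun _ r hr => absurd hr (Multiset.notMem_zero r)⟩
  | cons r s ih =>
    obtain ⟨k, c, G, hc, hG, h, h0⟩ := ih fun r hr => hs r (Multiset.mem_cons_of_mem hr)
    have hr := hs r (Multiset.mem_cons_self r s)
    rcases lt_or_gt_of_ne hr with hlt | hgt
    · refine ⟨k + 1, c, fun q => G q + Complex.log (1 - r / q), hc, ?_, fun q hq => ?_,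
        fun h => absurd h (Nat.succ_ne_zero k)⟩
      · refine hG.add (ContinuousOn.clog ?_ fun q hq => ?_)
        · refine continuousOn_const.sub (continuousOn_const.div continuousOn_id fun q hq => ?_)
          rw [mem_sphere_zero_iff_norm] at hq
          intro h0
          have h0' : q = 0 := h0
          rw [h0', norm_zero] at hq
          exact hρ.ne hq
        · rw [mem_sphere_zero_iff_norm] at hq
          have h1 : ‖r / q‖ < 1 := by
            rw [norm_div, hq]
            exact (div_lt_one hρ).2 hlt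
          have h2 := Complex.mem_slitPlane_of_norm_lt_one (z := -(r / q)) (by rwa [norm_neg])
          rwa [← sub_eq_add_neg] at h2
      · have hq0 : q ≠ 0 := by
          rintro rfl
          rw [norm_zero] at hq
          exact hρ.ne hq
        have h1 : 1 - r / q ≠ 0 := by
          intro h2
          have h3 : r / q = 1 := (sub_eq_zero.1 h2).symm
          rw [div_eq_one_iff_eq hq0] at h3
          rw [h3] at hlt
          exact hlt.ne hq
        rw [Multiset.map_cons, Multiset.prod_cons, h q hq, Complex.exp_add, Complex.exp_log h1]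
        field_simp
        ring
    · refine ⟨k, c * (-r), fun q => G q + Complex.log (1 - q / r), ?_, ?_, fun q hq => ?_,
        fun hk r' hr' => ?_⟩
      · refine mul_ne_zero hc (neg_ne_zero.2 ?_)
        rintro rfl
        rw [norm_zero] at hgt
        linarith
      · refine hG.add (ContinuousOn.clog ?_ fun q hq => ?_)
        · fun_prop
        · rw [mem_sphere_zero_iff_norm] at hq
          have h1 : ‖q / r‖ < 1 := by
            rw [norm_div, hq]
            exact (div_lt_one (hρ.trans hgt)).2 hgt
          have h2 := Complex.mem_slitPlane_of_norm_lt_one (z := -(q / r)) (by rwa [norm_neg])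
          rwa [← sub_eq_add_neg] at h2
      · have hr0 : r ≠ 0 := by
          rintro rfl
          rw [norm_zero] at hgt
          linarith
        have h1 : 1 - q / r ≠ 0 := by
          intro h2
          have h3 : q / r = 1 := (sub_eq_zero.1 h2).symm
          rw [div_eq_one_iff_eq hr0] at h3
          rw [← h3] at hgt
          exact hgt.ne hq.symm
        rw [Multiset.map_cons, Multiset.prod_cons, h q hq, Complex.exp_add, Complex.exp_log h1]
        field_simp
        ring
      · rcases Multiset.mem_cons.1 hr' with rfl | hr'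
        · exact hgt
        · exact h0 hk r' hr'

/-- Lemma W: a polynomial with a continuous logarithm on a circle has no zeros in the disc. -/
theorem poly_zero_free_of_log {p : Polynomial ℂ} {ρ : ℝ} (hρ : 0 < ρ) (L : ℂ → ℂ)
    (hL : ContinuousOn L (Metric.sphere 0 ρ))
    (h : ∀ q : ℂ, ‖q‖ = ρ → Complex.exp (L q) = p.eval q) (q : ℂ) (hq : ‖q‖ ≤ ρ) :
    p.eval q ≠ 0 := by
  have hne : ∀ q : ℂ, ‖q‖ = ρ → p.eval q ≠ 0 := fun q hq => by
    rw [← h q hq]
    exact Complex.exp_ne_zero _
  have hp0 : p ≠ 0 := by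
    rintro rfl
    refine hne (ρ : ℂ) ?_ Polynomial.eval_zero
    rw [Complex.norm_real, Real.norm_eq_abs, abs_of_pos hρ]
  have hsp : p.Splits := IsAlgClosed.splits p
  have hpe : ∀ q : ℂ, p.eval q = p.leadingCoeff * (p.roots.map fun r => q - r).prod := by
    intro q
    conv_lhs => rw [hsp.eq_prod_roots]
    rw [Polynomial.eval_mul, Polynomial.eval_C, Polynomial.eval_multiset_prod, Multiset.map_map]
    congr 2
    refine Multiset.map_congr rfl fun r _ => ?_
    simp
  have hs : ∀ r ∈ p.roots, ‖r‖ ≠ ρ := by
    intro r hr hrρ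
    exact hne r hrρ ((Polynomial.mem_roots hp0).1 hr)
  obtain ⟨k, c, G, hc, hG, hprod, hk0⟩ := prod_linear hρ p.roots hs
  have hlc : p.leadingCoeff * c ≠ 0 := mul_ne_zero (Polynomial.leadingCoeff_ne_zero.2 hp0) hc
  have hk : k = 0 := by
    refine log_pow_eq_zero hρ (fun q => L q - G q - Complex.log (p.leadingCoeff * c))
      ((hL.sub hG).sub continuousOn_const) k fun q hq => ?_
    rw [Complex.exp_sub, Complex.exp_sub, h q hq, hpe q, hprod q hq, Complex.exp_log hlc]
    have h1 := Complex.exp_ne_zero (G q)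
    have h2 : p.leadingCoeff ≠ 0 := Polynomial.leadingCoeff_ne_zero.2 hp0
    field_simp
  intro h0
  have h1 : q ∈ p.roots := (Polynomial.mem_roots hp0).2 h0
  exact absurd (hk0 hk q h1) (not_lt.2 hq)

end Sok
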