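import Pool.Agent.Lib.MP_816dec_an.CL3

/-!
MP_816dec_an, part C, near q = 1: strong frames near q = 1 (6.8), from the facts on the Airy function.
-/

open Complex Set Filter Topology MeasureTheory

namespace Sok

/-- zeros of an entire function with simple zeros: finite in every disc -/
theorem finite_zeros {Y : ℂ → ℂ} (hYd : Differentiable ℂ Y)
    (hs : ∀ ζ, Y ζ = 0 → deriv Y ζ ≠ 0) (ρ : ℝ) : {ζ : ℂ | Y ζ = 0 ∧ ‖ζ‖ ≤ ρ}.Finite := by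
  by_contra hinf
  have hinf' : {ζ : ℂ | Y ζ = 0 ∧ ‖ζ‖ ≤ ρ}.Infinite := hinf
  have hsub : {ζ : ℂ | Y ζ = 0 ∧ ‖ζ‖ ≤ ρ} ⊆ Metric.closedBall 0 ρ := fun ζ hζ => by
    rw [mem_closedBall_zero_iff]; exact hζ.2
  obtain ⟨a, _, hacc⟩ := hinf'.exists_accPt_of_subset_isCompact (isCompact_closedBall 0 ρ) hsub
  have hfr : ∃ᶠ z in 𝓝[≠] a, Y z = 0 := by
    rw [accPt_iff_frequently_nhdsNE] at hacc
    exact hacc.mono fun z hz => hz.1
  have han : AnalyticOnNhd ℂ Y univ := fun z _ => hYd.analyticAt z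
  have h0 : EqOn Y 0 univ := han.eqOn_zero_of_preconnected_of_frequently_eq_zero isPreconnected_univ
    (mem_univ a) hfr
  have h1 : Y = 0 := funext fun z => h0 (mem_univ z)
  have h2 := hs 0 (by rw [h1]; rfl)
  apply h2
  rw [h1]
  simp

/-- enumeration of the smallest zeros -/
theorem enum_zeros {Y : ℂ → ℂ} (hYd : Differentiable ℂ Y)
    (hY4 : ∀ ζ, Y ζ = 0 → ζ.im = 0 ∧ 0 < ζ.re ∧ deriv Y ζ ≠ 0) (hY5 : {ζ : ℂ | Y ζ = 0}.Infinite) (N : ℕ) :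
    ∃ x : ℕ → ℝ, (∀ j ≤ N, Y (x j) = 0) ∧ (∀ i j, i < j → j ≤ N → x i < x j) ∧
      ∀ ζ, Y ζ = 0 → (∃ j < N, ζ = x j) ∨ x N ≤ ζ.re := by
  obtain ⟨A, hA, hAc⟩ := hY5.exists_subset_card_eq (N + 1)
  obtain ⟨B, hB⟩ : ∃ B : ℝ, ∀ a ∈ A, a.re ≤ B := by
    obtain ⟨B, hB⟩ := (A.image Complex.re).bddAbove
    exact ⟨B, fun a ha => hB (Finset.mem_coe.2 (Finset.mem_image_of_mem _ ha))⟩
  have hreal : ∀ ζ, Y ζ = 0 → ((ζ.re : ℝ) : ℂ) = ζ := fun ζ hζ =>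
    Complex.ext (by simp) (by simp [(hY4 ζ hζ).1])
  have hfin : {x : ℝ | Y x = 0 ∧ x ≤ B}.Finite := by
    have h1 := finite_zeros hYd (fun ζ hζ => (hY4 ζ hζ).2.2) B
    have h2 : {x : ℝ | Y x = 0 ∧ x ≤ B} ⊆ Complex.re '' {ζ : ℂ | Y ζ = 0 ∧ ‖ζ‖ ≤ B} := by
      rintro x ⟨h3, h4⟩
      refine ⟨(x : ℂ), ⟨h3, ?_⟩, by simp⟩
      have := (hY4 x h3).2.1
      rw [Complex.ofReal_re] at this
      rw [Complex.norm_real, Real.norm_eq_abs, abs_of_pos this]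
      exact h4
    exact (h1.image _).subset h2
  obtain ⟨T, hT⟩ : ∃ T : Finset ℝ, ∀ x, x ∈ T ↔ Y x = 0 ∧ x ≤ B := ⟨hfin.toFinset, fun x => by simp⟩
  have hcard : N + 1 ≤ T.card := by
    rw [← hAc]
    apply Finset.card_le_card_of_injOn Complex.re
    · intro a ha
      rw [Finset.mem_coe, hT, hreal a (hA ha)]
      exact ⟨hA ha, hB a ha⟩
    · intro a ha b hb hab
      rw [← hreal a (hA ha), ← hreal b (hA hb)]
      rw [hab]
  obtain ⟨x, hx⟩ : ∃ x : ℕ → ℝ, ∀ j (h : j < T.card), x j = T.orderEmbOfFin rfl ⟨j, h⟩ :=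
    ⟨fun j => if h : j < T.card then T.orderEmbOfFin rfl ⟨j, h⟩ else 0, fun j h => by simp [h]⟩
  have hmem : ∀ j (h : j < T.card), x j ∈ T := fun j h => by
    rw [hx j h]; exact Finset.orderEmbOfFin_mem _ _ _
  refine ⟨x, fun j hj => ((hT _).1 (hmem j (by omega))).1, fun i j hij hj => ?_, fun ζ hζ => ?_⟩
  · rw [hx i (by omega), hx j (by omega)]
    exact (T.orderEmbOfFin rfl).strictMono (by simpa using hij)
  · rcases le_or_gt ζ.re B with h | h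
    · have h1 : ζ.re ∈ T := by
        rw [hT, hreal ζ hζ]; exact ⟨hζ, h⟩
      have h2 : ζ.re ∈ Set.range (T.orderEmbOfFin rfl) := by
        rw [Finset.range_orderEmbOfFin]; exact h1
      obtain ⟨⟨j, hj⟩, h3⟩ := h2
      rw [← hx j hj] at h3
      rcases lt_or_ge j N with h4 | h4
      · left
        exact ⟨j, h4, by rw [h3, hreal ζ hζ]⟩
      · right
        rw [← h3, hx N (by omega), hx j hj]
        exact (T.orderEmbOfFin rfl).monotone (by simpa using h4)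
    · right
      exact ((hT _).1 (hmem N (by omega))).2.trans h.le

theorem norm_zc (s η : ℂ) : ‖zc s η‖ = ‖s‖⁻¹ * Real.exp (η.re - 1 - s.re / 2) := by
  unfold zc
  rw [norm_mul, norm_neg, norm_div, norm_one, Complex.norm_exp, one_div]
  congr 2
  simp

theorem zc_le_iff {s η η' : ℂ} (hs0 : s ≠ 0) : ‖zc s η‖ ≤ ‖zc s η'‖ ↔ η.re ≤ η'.re := by
  rw [norm_zc, norm_zc, mul_le_mul_iff_right₀ (inv_pos.2 (norm_pos_iff.2 hs0)), Real.exp_le_exp]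
  constructor <;> intro h <;> linarith

theorem zc_incr {s η η' : ℂ} (hs0 : s ≠ 0) (h : η.re < η'.re - s.re) :
    ‖zc s η‖ < ‖exp (-s)‖ * ‖zc s η'‖ := by
  rw [norm_zc, norm_zc, Complex.norm_exp]
  have h1 : Real.exp (-s).re * (‖s‖⁻¹ * Real.exp (η'.re - 1 - s.re / 2))
      = ‖s‖⁻¹ * Real.exp ((η'.re - s.re) - 1 - s.re / 2) := by
    have : (η'.re - s.re) - 1 - s.re / 2 = (-s).re + (η'.re - 1 - s.re / 2) := by simp; ring
    rw [this, Real.exp_add]; ring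
  rw [h1, mul_lt_mul_iff_right₀ (inv_pos.2 (norm_pos_iff.2 hs0)), Real.exp_lt_exp]
  linarith

theorem zc_sub_period (s η : ℂ) (k : ℤ) : zc s (η - 2 * Real.pi * k * I) = zc s η := by
  unfold zc
  have : η - 2 * Real.pi * k * I - 1 - s / 2 = (η - 1 - s / 2) - 2 * Real.pi * k * I := by ring
  rw [this, exp_sub_period]

theorem exists_zc {s w : ℂ} (hs0 : s ≠ 0) (hw : w ≠ 0) : ∃ η, zc s η = w := by
  refine ⟨log (-(s * w)) + 1 + s / 2, ?_⟩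
  unfold zc
  have : log (-(s * w)) + 1 + s / 2 - 1 - s / 2 = log (-(s * w)) := by ring
  rw [this, Complex.exp_log (neg_ne_zero.2 (mul_ne_zero hs0 hw))]
  field_simp

theorem simple_of_deriv {s ζ : ℂ} (hs : 0 ≤ s.re) (h0 : PhiF s ζ = 0) (h1 : deriv (PhiF s) ζ ≠ 0) :
    fS s (cs s ^ 2 / 2 * ζ - s) ≠ 0 := by
  intro h
  apply h1
  rw [(hasDerivAt_PhiF hs ζ).deriv, PhiF_eq_zero_iff.1 h0, h]
  ring

/-- the frame for one s -/
theorem frame_of {Y : ℂ → ℂ} {N : ℕ} {x : ℕ → ℝ} {γ δ C R : ℝ} {s : ℂ} (hs : 0 ≤ s.re) (hs0 : s ≠ 0)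
    (hx0 : ∀ j ≤ N, 0 < x j) (hγ0 : 0 < γ) (hγ : ∀ i j, i < j → j ≤ N → γ ≤ x j - x i)
    (hxall : ∀ ζ, Y ζ = 0 → (∃ j < N, ζ = x j) ∨ x N ≤ ζ.re)
    (hδ0 : 0 < δ) (hδ1 : δ ≤ 1) (hδγ : δ ≤ γ / 20) (hC : C = x N + 2) (hR0 : 0 < R)
    (hout : ∀ η : ℂ, η.re ≤ C * ep s → Out R s η → fS s η ≠ 0)
    (hloc : ∀ j < N, ∃ w ∈ Metric.ball (x j : ℂ) δ, PhiF s w = 0 ∧ deriv (PhiF s) w ≠ 0 ∧
      ∀ w' ∈ Metric.ball (x j : ℂ) δ, PhiF s w' = 0 → w' = w)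
    (hK : ∀ ζ, ‖ζ‖ ≤ 1.3 * R → PhiF s ζ = 0 → ∃ ζ', Y ζ' = 0 ∧ ζ'.im = 0 ∧ ζ ∈ Metric.ball ζ' δ)
    (hsm : ‖s‖ ≤ γ / 20 * ep s) : Strong (exp (-s)) N := by
  have he := ep_pos hs0
  have hc1 := norm_cs_sq_le hs0
  have hc2 := norm_cs_sq_ge hs0
  obtain ⟨κ, hκ⟩ : ∃ κ : ℂ, κ = cs s ^ 2 / 2 := ⟨_, rfl⟩
  have hκn : ‖κ‖ = ‖cs s‖ ^ 2 / 2 := by rw [hκ, norm_div, norm_pow]; simp
  have hκ1 : ‖κ‖ ≤ 0.8 * ep s := by rw [hκn]; linarith
  have hκ2 : 0.79 * ep s ≤ ‖κ‖ := by rw [hκn]; linarith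
  have hκpos : 0 < ‖κ‖ := lt_of_lt_of_le (by positivity) hκ2
  have hκ0 : κ ≠ 0 := norm_pos_iff.1 hκpos
  have hκre : 0.49 * ‖κ‖ ≤ κ.re := by
    have h1 : κ.re = ((cs s).re ^ 2 - (cs s).im ^ 2) / 2 := by
      rw [hκ]
      have : ((cs s) ^ 2 / 2).re = ((cs s) ^ 2).re / 2 := by simp
      rw [this, sq, Complex.mul_re]; ring
    have h2 := cs_re hs
    have h3 := cs_im hs
    have h4 := norm_nonneg (cs s)
    have h5 : (0.866 * ‖cs s‖) ^ 2 ≤ (cs s).re ^ 2 := pow_le_pow_left₀ (by positivity) h2 2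
    have h6 : (cs s).im ^ 2 ≤ (‖cs s‖ / 2) ^ 2 := by
      rw [← sq_abs (cs s).im]
      exact pow_le_pow_left₀ (abs_nonneg _) h3 2
    have h7 : (0.866 * ‖cs s‖) ^ 2 = 0.749956 * ‖cs s‖ ^ 2 := by ring
    have h8 : (‖cs s‖ / 2) ^ 2 = 0.25 * ‖cs s‖ ^ 2 := by ring
    have h9 : 0 ≤ ‖cs s‖ ^ 2 := by positivity
    rw [h1, hκn]
    linarith
  have hκre2 : κ.re ≤ ‖κ‖ := Complex.re_le_norm κ
  -- real parts of κ ζ
  have hreal : ∀ (y : ℂ) (ζ : ℂ), y.im = 0 → ζ ∈ Metric.ball y δ →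
      κ.re * y.re - ‖κ‖ * δ ≤ (κ * ζ).re ∧ (κ * ζ).re ≤ κ.re * y.re + ‖κ‖ * δ := by
    intro y ζ hy hζ
    rw [Metric.mem_ball, dist_eq_norm] at hζ
    have h1 : (κ * ζ).re = κ.re * y.re + (κ * (ζ - y)).re := by
      simp only [Complex.mul_re, Complex.sub_re, Complex.sub_im, hy]; ring
    have h2 := Complex.abs_re_le_norm (κ * (ζ - y))
    rw [norm_mul] at h2
    have h3 : ‖κ‖ * ‖ζ - y‖ ≤ ‖κ‖ * δ := mul_le_mul_of_nonneg_left hζ.le hκpos.le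
    have h4 := abs_le.1 (h2.trans h3)
    rw [h1]
    constructor <;> linarith [h4.1, h4.2]
  choose! ζ hζ using hloc
  have hηre : ∀ j < N, (κ * ζ j).re ≤ κ.re * x j + ‖κ‖ * δ ∧ κ.re * x j - ‖κ‖ * δ ≤ (κ * ζ j).re := by
    intro j hj
    have := hreal (x j) (ζ j) (by simp) (hζ j hj).1
    rw [Complex.ofReal_re] at this
    exact ⟨this.2, this.1⟩
  have hgap : ∀ i j, i < j → j ≤ N → κ.re * x i + ‖κ‖ * δ + ‖s‖ < κ.re * x j - ‖κ‖ * δ := by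
    intro i j hij hj
    have h1 := hγ i j hij hj
    have hκrepos : 0 ≤ κ.re := le_trans (by positivity) hκre
    have h2 : 0.49 * ‖κ‖ * γ ≤ κ.re * (x j - x i) :=
      mul_le_mul hκre h1 hγ0.le hκrepos
    have h3 : ‖κ‖ * δ ≤ ‖κ‖ * (γ / 20) := mul_le_mul_of_nonneg_left hδγ hκpos.le
    have h4 : 0.79 * ep s * γ ≤ ‖κ‖ * γ := mul_le_mul_of_nonneg_right hκ2 hγ0.le
    have h5 : 0 < γ * ep s := by positivity
    linarith
  have hηC : ∀ j < N, (κ * ζ j).re ≤ C * ep s := by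
    intro j hj
    have h1 := (hηre j hj).1
    have hxN := hx0 N le_rfl
    have hxj := hx0 j hj.le
    have h2 : x j ≤ x N := by
      have := hγ j N hj le_rfl
      linarith
    have h3 : κ.re * x j ≤ ‖κ‖ * x N := mul_le_mul hκre2 h2 hxj.le hκpos.le
    have h4 : ‖κ‖ * δ ≤ ‖κ‖ * 1 := mul_le_mul_of_nonneg_left hδ1 hκpos.le
    have h5 : ‖κ‖ * (x N + 1) ≤ 0.8 * ep s * (x N + 1) := mul_le_mul_of_nonneg_right hκ1 (by linarith)
    have h6 : 0 < ep s * x N := by positivity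
    rw [hC]
    linarith
  have hfz : ∀ j < N, fS s (κ * ζ j) = 0 := by
    intro j hj
    rw [hκ]
    exact PhiF_eq_zero_iff.1 (hζ j hj).2.1
  refine ⟨fun j => zc s (κ * ζ j), ?_, ?_, ?_, ?_⟩
  · intro j hj
    exact hfz j hj
  · intro j hj
    rw [zc_shift, hκ]
    exact simple_of_deriv hs (hζ j hj).2.1 (hζ j hj).2.2.1
  · intro j hj
    apply zc_incr hs0
    have h1 := (hηre j (by omega)).1
    have h2 := (hηre (j + 1) hj).2
    have h3 := hgap j (j + 1) (by omega) hj.le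
    have h4 := Complex.re_le_norm s
    linarith
  · rintro w hw ⟨i, hi, hwi⟩
    have hw0 : w ≠ 0 := by
      intro h
      rw [h, F_zero] at hw
      exact one_ne_zero hw
    obtain ⟨η0, hη0⟩ := exists_zc hs0 hw0
    have hη0i : η0.re ≤ (κ * ζ i).re := by
      rw [← hη0] at hwi
      exact (zc_le_iff hs0).1 hwi
    have hnout : ¬ Out R s η0 := by
      intro ho
      apply hout η0 (hη0i.trans (hηC i hi)) ho
      show F (exp (-s)) (zc s η0) = 0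
      rw [hη0]; exact hw
    unfold Out at hnout
    push Not at hnout
    obtain ⟨k, hk⟩ := hnout
    obtain ⟨η, hη⟩ : ∃ η, η = η0 - 2 * Real.pi * k * I := ⟨_, rfl⟩
    rw [← hη] at hk
    have hηw : zc s η = w := by rw [hη, zc_sub_period, hη0]
    have hηre0 : η.re = η0.re := by rw [hη]; simp
    obtain ⟨ζ', hζ'⟩ : ∃ ζ', ζ' = η / κ := ⟨_, rfl⟩
    have hκζ' : κ * ζ' = η := by rw [hζ']; field_simp
    have hPhi : PhiF s ζ' = 0 := by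
      rw [PhiF_eq_zero_iff, ← hκ, hκζ']
      show F (exp (-s)) (zc s η) = 0
      rw [hηw]; exact hw
    have hζ'n : ‖ζ'‖ ≤ 1.3 * R := by
      rw [hζ', norm_div, div_le_iff₀ hκpos]
      have h1 := mul_le_mul_of_nonneg_left hκ2 (by positivity : 0 ≤ 1.3 * R)
      have h2 : 0 < R * ep s := by positivity
      linarith
    obtain ⟨y, hy0, hyim, hyb⟩ := hK ζ' hζ'n hPhi
    rcases hxall y hy0 with ⟨j, hj, hyj⟩ | hyN
    · refine ⟨j, hj, ?_⟩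
      rw [hyj] at hyb
      have := (hζ j hj).2.2.2 ζ' hyb hPhi
      show w = zc s (κ * ζ j)
      rw [← this, hκζ', hηw]
    · exfalso
      have h1 := (hreal y ζ' hyim hyb).1
      rw [hκζ', hηre0] at h1
      have hκrepos : 0 ≤ κ.re := le_trans (by positivity) hκre
      have h2 : κ.re * x N ≤ κ.re * y.re := mul_le_mul_of_nonneg_left hyN hκrepos
      have h3 := hgap i N hi le_rfl
      have h4 := (hηre i hi).1
      have h5 := norm_nonneg s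
      linarith

/-- (6.8) in the variable s -/
theorem strong_s {Y : ℂ → ℂ} (hYd : Differentiable ℂ Y) (hV : TendstoLocallyUniformly PhiF Y (𝓝[HP] 0))
    (hY3 : ∃ RY CY : ℝ, ∀ ζ a : ℂ, a ^ 2 = -ζ → ‖a‖ / 5 ≤ a.re → RY ≤ ‖ζ‖ →
      Y ζ ≠ 0 ∧ ‖deriv Y ζ / Y ζ - a‖ ≤ CY / ‖ζ‖)
    (hY4 : ∀ ζ, Y ζ = 0 → ζ.im = 0 ∧ 0 < ζ.re ∧ deriv Y ζ ≠ 0) (hY5 : {ζ : ℂ | Y ζ = 0}.Infinite) (N : ℕ) :
    ∀ᶠ s in 𝓝[HP] 0, Strong (exp (-s)) N := by
  obtain ⟨RY, CY, hY⟩ := hY3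
  obtain ⟨x, hx0, hxm, hxall⟩ := enum_zeros hYd hY4 hY5 N
  have hxpos : ∀ j ≤ N, 0 < x j := fun j hj => by
    have := (hY4 _ (hx0 j hj)).2.1
    simpa using this
  -- gap
  obtain ⟨γ, hγ0, hγ⟩ : ∃ γ > 0, ∀ i j, i < j → j ≤ N → γ ≤ x j - x i := by
    obtain ⟨P, hP⟩ : ∃ P : Finset (ℕ × ℕ), P = ((Finset.range (N + 1) ×ˢ Finset.range (N + 1)).filter
      fun p => p.1 < p.2) := ⟨_, rfl⟩
    rcases P.eq_empty_or_nonempty with h | h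
    · refine ⟨1, one_pos, fun i j hij hj => ?_⟩
      exfalso
      have : (i, j) ∈ P := by
        rw [hP]; simp; omega
      rw [h] at this
      simp at this
    · obtain ⟨p, hp, hmin⟩ := P.exists_min_image (fun p => x p.2 - x p.1) h
      have hp' := hp
      rw [hP] at hp'
      simp at hp'
      refine ⟨x p.2 - x p.1, ?_, fun i j hij hj => ?_⟩
      · have := hxm p.1 p.2 hp'.2 (by omega)
        linarith
      · apply hmin (i, j)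
        rw [hP]; simp; omega
  -- radii for Hurwitz
  have hH : ∀ j ≤ N, ∃ δ₀ > 0, ∀ δ, 0 < δ → δ ≤ δ₀ → ∀ᶠ s in 𝓝[HP] (0:ℂ), ∃ w ∈ Metric.ball (x j : ℂ) δ,
      PhiF s w = 0 ∧ deriv (PhiF s) w ≠ 0 ∧ ∀ w' ∈ Metric.ball (x j : ℂ) δ, PhiF s w' = 0 → w' = w := by
    intro j hj
    have hdiff : ∀ᶠ s in 𝓝[HP] (0:ℂ), Differentiable ℂ (PhiF s) := by
      have hHP : ∀ᶠ s in 𝓝[HP] (0:ℂ), s ∈ HP := self_mem_nhdsWithin
      exact hHP.mono fun s hs => differentiable_PhiF hs.1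
    exact hurwitz_simple hV hdiff hYd (hx0 j hj) (hY4 _ (hx0 j hj)).2.2
  choose! δ₀ hδ₀ hδH using hH
  obtain ⟨δ, hδ0, hδ1, hδγ, hδ2⟩ : ∃ δ > 0, δ ≤ 1 ∧ δ ≤ γ / 20 ∧ ∀ j < N, δ ≤ δ₀ j := by
    obtain ⟨d, hd0, hd⟩ : ∃ d > 0, ∀ j < N, d ≤ δ₀ j := by
      rcases (Finset.range N).eq_empty_or_nonempty with h | h
      · refine ⟨1, one_pos, fun j hj => ?_⟩
        have : j ∈ Finset.range N := Finset.mem_range.2 hj
        rw [h] at this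
        simp at this
      · obtain ⟨j0, hj0, hmin⟩ := (Finset.range N).exists_min_image δ₀ h
        exact ⟨δ₀ j0, hδ₀ j0 (Finset.mem_range.1 hj0).le, fun j hj => hmin j (Finset.mem_range.2 hj)⟩
    refine ⟨min (min d 1) (γ / 20), by positivity, ?_, min_le_right _ _, fun j hj => ?_⟩
    · exact (min_le_left _ _).trans (min_le_right _ _)
    · exact ((min_le_left _ _).trans (min_le_left _ _)).trans (hd j hj)
  obtain ⟨C, hC⟩ : ∃ C, C = x N + 2 := ⟨_, rfl⟩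
  have hC1 : 1 ≤ C := by
    have := hxpos N le_rfl
    rw [hC]; linarith
  obtain ⟨R, hR⟩ : ∃ R, R = max (40000 * C) (max RY (4 * CY)) := ⟨_, rfl⟩
  have hR1 : 40000 * C ≤ R := by rw [hR]; exact le_max_left _ _
  have hR2 : RY ≤ R := by rw [hR]; exact (le_max_left _ _).trans (le_max_right _ _)
  have hR3 : 4 * CY ≤ R := by rw [hR]; exact (le_max_right _ _).trans (le_max_right _ _)
  have hR0 : 0 < R := by linarith
  have hlay := layer hYd hV hY hC1 hR1 hR2 hR3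
  -- Hurwitz on the compact set
  obtain ⟨K, hKd⟩ : ∃ K : Set ℂ, K = Metric.closedBall 0 (1.3 * R) \ ⋃ y ∈ {y : ℂ | Y y = 0}, Metric.ball y δ :=
    ⟨_, rfl⟩
  have hKc : IsCompact K := by
    rw [hKd]
    exact (isCompact_closedBall _ _).diff (isOpen_biUnion fun _ _ => Metric.isOpen_ball)
  have hKne : ∀ z ∈ K, Y z ≠ 0 := by
    intro z hz h0
    rw [hKd] at hz
    apply hz.2
    rw [mem_iUnion₂]
    exact ⟨z, h0, Metric.mem_ball_self hδ0⟩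
  have hKev := hurwitz_compact hV hYd.continuous hKc hKne
  have hHP : ∀ᶠ s in 𝓝[HP] (0:ℂ), s ∈ HP := self_mem_nhdsWithin
  have hep : ∀ᶠ s in 𝓝[HP] (0:ℂ), ep s ≤ (γ / 20) ^ 2 :=
    ((tendsto_ep.mono_left nhdsWithin_le_nhds).eventually
      (gt_mem_nhds (by positivity : (0:ℝ) < (γ / 20) ^ 2))).mono fun s hs => hs.le
  have hloc : ∀ᶠ s in 𝓝[HP] (0:ℂ), ∀ j ∈ Finset.range N, ∃ w ∈ Metric.ball (x j : ℂ) δ,
      PhiF s w = 0 ∧ deriv (PhiF s) w ≠ 0 ∧ ∀ w' ∈ Metric.ball (x j : ℂ) δ, PhiF s w' = 0 → w' = w := by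
    rw [Finset.eventually_all]
    intro j hj
    rw [Finset.mem_range] at hj
    exact hδH j hj.le δ hδ0 (hδ2 j hj)
  filter_upwards [hlay, hKev, hHP, hep, hloc] with s h1 h2 h3 h4 h5
  have he := ep_pos h3.2
  refine frame_of (Y := Y) (x := x) (γ := γ) (δ := δ) (C := C) (R := R) h3.1 h3.2 hxpos hγ0 hγ hxall hδ0 hδ1
    hδγ hC hR0 ?_ (fun j hj => h5 j (Finset.mem_range.2 hj)) ?_ ?_
  · intro η hη hout
    have h6 : R * ep s ≤ 1 := by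
      have := h1.1
      norm_num at this ⊢
      linarith
    exact no_zero_outside hC1 hR1 h3.1 h3.2 h6 h1.2 hη hout
  · intro ζ hζ hz
    by_contra hcon
    push Not at hcon
    apply h2 ζ _ hz
    rw [hKd]
    refine ⟨by rw [mem_closedBall_zero_iff]; exact hζ, ?_⟩
    rw [mem_iUnion₂]
    rintro ⟨y, hy, hyb⟩
    exact hcon y hy (hY4 y hy).1 hyb
  · have h6 : ‖s‖ ^ 2 ≤ (γ / 20 * ep s) ^ 2 := by
      rw [← ep_cube, mul_pow]
      have : ep s ^ 3 = ep s * ep s ^ 2 := by ring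
      rw [this]
      exact mul_le_mul_of_nonneg_right h4 (by positivity)
    exact (abs_le_of_sq_le_sq' h6 (by positivity)).2

/-- (6.8) near q = 1 -/
theorem near_one {Y : ℂ → ℂ} (hYd : Differentiable ℂ Y) (hV : TendstoLocallyUniformly PhiF Y (𝓝[HP] 0))
    (hY3 : ∃ RY CY : ℝ, ∀ ζ a : ℂ, a ^ 2 = -ζ → ‖a‖ / 5 ≤ a.re → RY ≤ ‖ζ‖ →
      Y ζ ≠ 0 ∧ ‖deriv Y ζ / Y ζ - a‖ ≤ CY / ‖ζ‖)
    (hY4 : ∀ ζ, Y ζ = 0 → ζ.im = 0 ∧ 0 < ζ.re ∧ deriv Y ζ ≠ 0) (hY5 : {ζ : ℂ | Y ζ = 0}.Infinite) (N : ℕ) :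
    ∃ ε > 0, ∀ q : ℂ, ‖q‖ ≤ 1 → q ≠ 1 → ‖q - 1‖ < ε → Strong q N := by
  have h1 := strong_s hYd hV hY3 hY4 hY5 N
  have h2 : Tendsto (fun q : ℂ => -log q) (𝓝[{q : ℂ | ‖q‖ ≤ 1 ∧ q ≠ 1}] 1) (𝓝[HP] 0) := by
    rw [tendsto_nhdsWithin_iff]
    constructor
    · have h3 : ContinuousAt (fun q : ℂ => -log q) 1 :=
        (continuousAt_clog (by simp)).neg
      have h4 := h3.tendsto
      simp only [Complex.log_one, neg_zero] at h4
      exact h4.mono_left nhdsWithin_le_nhds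
    · have h5 : ∀ᶠ q in 𝓝[{q : ℂ | ‖q‖ ≤ 1 ∧ q ≠ 1}] (1:ℂ), q ∈ {q : ℂ | ‖q‖ ≤ 1 ∧ q ≠ 1} :=
        self_mem_nhdsWithin
      have h6 : ∀ᶠ q in 𝓝[{q : ℂ | ‖q‖ ≤ 1 ∧ q ≠ 1}] (1:ℂ), q ≠ 0 :=
        nhdsWithin_le_nhds (isOpen_ne.mem_nhds one_ne_zero)
      filter_upwards [h5, h6] with q hq hq0
      refine ⟨?_, ?_⟩
      · rw [neg_re, Complex.log_re]
        have := Real.log_nonpos (norm_nonneg q) hq.1
        linarith
      · intro h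
        apply hq.2
        have h7 : log q = 0 := neg_eq_zero.1 h
        rw [← Complex.exp_log hq0, h7, Complex.exp_zero]
  have h3 := h2.eventually h1
  have h6 : ∀ᶠ q in 𝓝[{q : ℂ | ‖q‖ ≤ 1 ∧ q ≠ 1}] (1:ℂ), q ≠ 0 :=
    nhdsWithin_le_nhds (isOpen_ne.mem_nhds one_ne_zero)
  have h4 := h3.and h6
  obtain ⟨ε, hε, h5⟩ := Metric.eventually_nhds_iff.1 (eventually_nhdsWithin_iff.1 h4)
  refine ⟨ε, hε, fun q hq hq1 hqε => ?_⟩
  have h7 := h5 (y := q) (by rw [dist_eq_norm]; exact hqε) ⟨hq, hq1⟩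
  have h8 : exp (-(-log q)) = q := by rw [neg_neg, Complex.exp_log h7.2]
  have h9 := h7.1
  rw [h8] at h9
  exact h9

end Sok
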