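import Mathlib

/-!
MP_816dec_an (Sokal's function), part C, rows Y1 Y2 Y3: the Airy type function `Y` of (6.3).
-/

set_option autoImplicit false

open Complex Set Filter Topology MeasureTheory

namespace Sok.YA

/-- `e^{2 π i / 3}` -/
noncomputable def om : ℂ := ⟨-1 / 2, Real.sqrt 3 / 2⟩

/-- `e^{- 2 π i / 3}` -/
noncomputable def omb : ℂ := ⟨-1 / 2, -(Real.sqrt 3 / 2)⟩

theorem om_re : om.re = -1 / 2 := rfl
theorem om_im : om.im = Real.sqrt 3 / 2 := rfl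
theorem omb_re : omb.re = -1 / 2 := rfl
theorem omb_im : omb.im = -(Real.sqrt 3 / 2) := rfl

theorem conj_om : (starRingEnd ℂ) om = omb := by
  apply Complex.ext <;> simp [om, omb]

theorem conj_omb : (starRingEnd ℂ) omb = om := by
  apply Complex.ext <;> simp [om, omb]

private theorem s3 : Real.sqrt 3 * Real.sqrt 3 = 3 := Real.mul_self_sqrt (by norm_num)

theorem om_cube : om ^ 3 = 1 := by
  have h := s3
  apply Complex.ext
  · simp [pow_succ, om_re, om_im, Complex.mul_re, Complex.mul_im]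
    nlinarith
  · simp [pow_succ, om_re, om_im, Complex.mul_re, Complex.mul_im]
    ring_nf
    rw [show Real.sqrt 3 ^ 3 = Real.sqrt 3 * (Real.sqrt 3 * Real.sqrt 3) by ring, h]
    ring

theorem omb_cube : omb ^ 3 = 1 := by
  rw [← conj_om, ← map_pow, om_cube, map_one]

theorem norm_om : ‖om‖ = 1 := by
  have h : ‖om‖ ^ 3 = 1 := by rw [← norm_pow, om_cube, norm_one]
  exact (pow_eq_one_iff_of_nonneg (norm_nonneg _) (by norm_num)).mp h

theorem norm_omb : ‖omb‖ = 1 := by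
  rw [← conj_om, RCLike.norm_conj, norm_om]

theorem cub {B ρ : ℝ} (hB : 1 ≤ B) (hρ : 0 ≤ ρ) : B * ρ ≤ ρ ^ 3 / 3 + B ^ 2 := by
  rcases le_total ρ B with h | h
  · have : 0 ≤ ρ ^ 3 := by positivity
    nlinarith
  · have h1 : ρ ≤ ρ ^ 2 / 3 + 1 := by nlinarith [sq_nonneg (ρ - 3 / 2)]
    have h2 : B * ρ ^ 2 ≤ ρ ^ 3 := by nlinarith [sq_nonneg ρ]
    nlinarith [mul_le_mul_of_nonneg_left h1 (by linarith : (0:ℝ) ≤ B)]

/-- the ray integrand -/
noncomputable def rI (w : ℂ) (k : ℕ) (ζ : ℂ) (ρ : ℝ) : ℂ :=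
  w * ((-(ρ * w)) ^ k * Complex.exp (-(ρ ^ 3 / 3 : ℝ) - ζ * (ρ * w)))

/-- the ray integral -/
noncomputable def rJ (w : ℂ) (k : ℕ) (ζ : ℂ) : ℂ := ∫ ρ in Ioi (0:ℝ), rI w k ζ ρ

/-- derivatives of `Y` -/
noncomputable def Yk (k : ℕ) (ζ : ℂ) : ℂ := -I * (rJ om k ζ - rJ omb k ζ)

/-- the Airy type function `Y` -/
noncomputable def Yf (ζ : ℂ) : ℂ := Yk 0 ζ

theorem continuous_rI (w : ℂ) (k : ℕ) (ζ : ℂ) : Continuous (rI w k ζ) := by
  unfold rI
  fun_prop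

theorem norm_rI_le {w : ℂ} (hw : ‖w‖ = 1) (k : ℕ) {ζ : ℂ} {A : ℝ} (hζ : ‖ζ‖ ≤ A) {ρ : ℝ} (hρ : 0 ≤ ρ) :
    ‖rI w k ζ ρ‖ ≤ (k.factorial : ℝ) * Real.exp ((A + 2) ^ 2) * Real.exp (-ρ) := by
  have hA : 0 ≤ A := (norm_nonneg _).trans hζ
  unfold rI
  rw [norm_mul, hw, one_mul, norm_mul, norm_pow, norm_neg, norm_mul, hw, mul_one, Complex.norm_real,
    Real.norm_eq_abs, abs_of_nonneg hρ, Complex.norm_exp]
  have h1 : ρ ^ k ≤ (k.factorial : ℝ) * Real.exp ρ := by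
    have := Real.pow_div_factorial_le_exp ρ hρ k
    rw [div_le_iff₀ (by positivity)] at this
    linarith
  have h2 : (-((ρ ^ 3 / 3 : ℝ) : ℂ) - ζ * (ρ * w)).re ≤ -(ρ ^ 3 / 3) + A * ρ := by
    rw [Complex.sub_re, Complex.neg_re, Complex.ofReal_re]
    have h3 : -(ζ * (ρ * w)).re ≤ A * ρ := by
      have h4 := (neg_le_abs (ζ * (ρ * w)).re).trans (Complex.abs_re_le_norm _)
      rw [norm_mul, norm_mul, hw, mul_one, Complex.norm_real, Real.norm_eq_abs, abs_of_nonneg hρ] at h4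
      exact h4.trans (mul_le_mul_of_nonneg_right hζ hρ)
    linarith
  have h3 := cub (B := A + 2) (by linarith) hρ
  have h4 : Real.exp ((-((ρ ^ 3 / 3 : ℝ) : ℂ) - ζ * (ρ * w)).re) ≤
      Real.exp ((A + 2) ^ 2) * Real.exp (-ρ) * Real.exp (-ρ) := by
    rw [← Real.exp_add, ← Real.exp_add]
    apply Real.exp_le_exp.mpr
    linarith
  have h5 : Real.exp (-ρ) * Real.exp ρ = 1 := by rw [← Real.exp_add]; simp
  calc ρ ^ k * Real.exp ((-((ρ ^ 3 / 3 : ℝ) : ℂ) - ζ * (ρ * w)).re)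
      ≤ ((k.factorial : ℝ) * Real.exp ρ) * (Real.exp ((A + 2) ^ 2) * Real.exp (-ρ) * Real.exp (-ρ)) := by
        gcongr
    _ = (k.factorial : ℝ) * Real.exp ((A + 2) ^ 2) * Real.exp (-ρ) * (Real.exp (-ρ) * Real.exp ρ) := by ring
    _ = _ := by rw [h5, mul_one]

theorem integrableOn_exp_neg : IntegrableOn (fun ρ : ℝ => Real.exp (-ρ)) (Ioi 0) := by
  have := integrableOn_exp_neg_Ioi 0
  simpa using this

theorem integrable_rI {w : ℂ} (hw : ‖w‖ = 1) (k : ℕ) (ζ : ℂ) : IntegrableOn (rI w k ζ) (Ioi 0) := by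
  refine Integrable.mono' (integrableOn_exp_neg.const_mul ((k.factorial : ℝ) * Real.exp ((‖ζ‖ + 2) ^ 2)))
    (continuous_rI w k ζ).aestronglyMeasurable ?_
  refine (ae_restrict_iff' measurableSet_Ioi).mpr (Eventually.of_forall fun ρ hρ => ?_)
  exact norm_rI_le hw k le_rfl (le_of_lt hρ)

theorem hasDerivAt_rJ {w : ℂ} (hw : ‖w‖ = 1) (k : ℕ) (ζ : ℂ) :
    HasDerivAt (rJ w k) (rJ w (k + 1) ζ) ζ := by
  unfold rJ
  have h := hasDerivAt_integral_of_dominated_loc_of_deriv_le (μ := volume.restrict (Ioi (0:ℝ)))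
    (F := fun ζ ρ => rI w k ζ ρ) (F' := fun ζ ρ => rI w (k + 1) ζ ρ) (x₀ := ζ)
    (s := Metric.ball ζ 1)
    (bound := fun ρ => ((k + 1).factorial : ℝ) * Real.exp ((‖ζ‖ + 1 + 2) ^ 2) * Real.exp (-ρ))
    (Metric.ball_mem_nhds ζ one_pos)
    (Eventually.of_forall fun ξ => (continuous_rI w k ξ).aestronglyMeasurable)
    (integrable_rI hw k ζ) (continuous_rI w (k + 1) ζ).aestronglyMeasurable
    ((ae_restrict_iff' measurableSet_Ioi).mpr (Eventually.of_forall fun ρ hρ ξ hξ => ?_))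
    (integrableOn_exp_neg.const_mul _)
    (Eventually.of_forall fun ρ ξ hξ => ?_)
  · exact h.2
  · apply norm_rI_le hw (k + 1) _ (le_of_lt hρ)
    have : ‖ξ - ζ‖ < 1 := by rwa [Metric.mem_ball, dist_eq_norm] at hξ
    calc ‖ξ‖ = ‖ζ + (ξ - ζ)‖ := by congr 1; ring
      _ ≤ ‖ζ‖ + ‖ξ - ζ‖ := norm_add_le _ _
      _ ≤ ‖ζ‖ + 1 := by linarith
  · unfold rI
    have h1 : HasDerivAt (fun ξ : ℂ => -((ρ ^ 3 / 3 : ℝ) : ℂ) - ξ * (ρ * w)) (-(ρ * w)) ξ := by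
      have := ((hasDerivAt_id ξ).mul_const ((ρ:ℂ) * w)).const_sub (-((ρ ^ 3 / 3 : ℝ) : ℂ))
      simpa using this
    have h2 := ((h1.cexp).const_mul ((-((ρ:ℂ) * w)) ^ k)).const_mul w
    refine h2.congr_deriv ?_
    rw [pow_succ]
    ring

theorem hasDerivAt_Yk (k : ℕ) (ζ : ℂ) : HasDerivAt (Yk k) (Yk (k + 1) ζ) ζ := by
  unfold Yk
  exact ((hasDerivAt_rJ norm_om k ζ).sub (hasDerivAt_rJ norm_omb k ζ)).const_mul (-I)

theorem differentiable_Yk (k : ℕ) : Differentiable ℂ (Yk k) := fun ζ => (hasDerivAt_Yk k ζ).differentiableAt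

theorem deriv_Yk (k : ℕ) (ζ : ℂ) : deriv (Yk k) ζ = Yk (k + 1) ζ := (hasDerivAt_Yk k ζ).deriv

theorem differentiable_Yf : Differentiable ℂ Yf := differentiable_Yk 0

theorem deriv_Yf (ζ : ℂ) : deriv Yf ζ = Yk 1 ζ := deriv_Yk 0 ζ

/-- the exponential tends to zero along the ray -/
private theorem tendsto_ray {w : ℂ} (hw : ‖w‖ = 1) (ζ : ℂ) :
    Tendsto (fun ρ : ℝ => Complex.exp (-(ρ ^ 3 / 3 : ℝ) - ζ * (ρ * w))) atTop (𝓝 0) := by
  rw [tendsto_zero_iff_norm_tendsto_zero]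
  have h1 : Tendsto (fun ρ : ℝ => Real.exp ((‖ζ‖ + 2) ^ 2) * Real.exp (-ρ)) atTop (𝓝 0) := by
    have := (Real.tendsto_exp_neg_atTop_nhds_zero).const_mul (Real.exp ((‖ζ‖ + 2) ^ 2))
    simpa using this
  refine squeeze_zero' (Eventually.of_forall fun _ => norm_nonneg _) ?_ h1
  filter_upwards [eventually_ge_atTop 0] with ρ hρ
  have h2 := norm_rI_le hw 0 (le_refl ‖ζ‖) hρ
  unfold rI at h2
  rw [norm_mul, hw, one_mul, pow_zero, one_mul, Nat.factorial_zero, Nat.cast_one, one_mul] at h2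
  exact h2

/-- the equation `Y'' = - ζ Y` -/
theorem Y_ode (ζ : ℂ) : Yk 2 ζ = -ζ * Yf ζ := by
  have key : ∀ w : ℂ, ‖w‖ = 1 → w ^ 3 = 1 → rJ w 2 ζ + ζ * rJ w 0 ζ = 1 := by
    intro w hw hw3
    have hder : ∀ ρ ∈ Ici (0:ℝ), HasDerivAt (fun ρ : ℝ => -Complex.exp (-(ρ ^ 3 / 3 : ℝ) - ζ * (ρ * w)))
        (rI w 2 ζ ρ + ζ * rI w 0 ζ ρ) ρ := by
      intro ρ _
      have h1 : HasDerivAt (fun ρ : ℝ => -((ρ ^ 3 / 3 : ℝ) : ℂ) - ζ * ((ρ:ℂ) * w))
          (-((ρ ^ 2 : ℝ) : ℂ) - ζ * w) ρ := by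
        have h2 : HasDerivAt (fun ρ : ℝ => ρ ^ 3 / 3) (ρ ^ 2) ρ := by
          have := (hasDerivAt_pow 3 ρ).div_const 3
          refine this.congr_deriv ?_
          norm_num
        have h3 : HasDerivAt (fun ρ : ℝ => ζ * ((ρ:ℂ) * w)) (ζ * w) ρ := by
          have := ((Complex.ofRealCLM.hasDerivAt (x := ρ)).mul_const w).const_mul ζ
          simpa using this
        exact (h2.ofReal_comp.neg).sub h3
      refine (h1.cexp.neg).congr_deriv ?_
      unfold rI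
      have e : w * ((-((ρ:ℂ) * w)) ^ 2 * Complex.exp (-((ρ ^ 3 / 3 : ℝ) : ℂ) - ζ * (ρ * w))) =
        (ρ:ℂ) ^ 2 * w ^ 3 * Complex.exp (-((ρ ^ 3 / 3 : ℝ) : ℂ) - ζ * (ρ * w)) := by ring
      rw [e, hw3]
      push_cast
      ring
    have hint : IntegrableOn (fun ρ => rI w 2 ζ ρ + ζ * rI w 0 ζ ρ) (Ioi 0) :=
      (integrable_rI hw 2 ζ).add ((integrable_rI hw 0 ζ).const_mul ζ)
    have h2 := integral_Ioi_of_hasDerivAt_of_tendsto' hder hint (tendsto_ray hw ζ).neg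
    rw [integral_add (integrable_rI hw 2 ζ) ((integrable_rI hw 0 ζ).const_mul ζ),
      integral_const_mul] at h2
    unfold rJ
    rw [h2]
    simp
  have h1 := key om norm_om om_cube
  have h2 := key omb norm_omb omb_cube
  unfold Yf Yk
  linear_combination (-I) * h1 + I * h2

/-- conjugation -/
theorem Yk_conj (k : ℕ) (ζ : ℂ) : Yk k ((starRingEnd ℂ) ζ) = (starRingEnd ℂ) (Yk k ζ) := by
  have key : ∀ w : ℂ, rJ ((starRingEnd ℂ) w) k ((starRingEnd ℂ) ζ) = (starRingEnd ℂ) (rJ w k ζ) := by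
    intro w
    unfold rJ
    rw [← integral_conj]
    congr 1
    funext ρ
    unfold rI
    simp only [map_mul, map_pow, map_neg, ← Complex.exp_conj, map_sub, Complex.conj_ofReal]
  unfold Yk
  rw [map_mul, map_neg, map_sub, Complex.conj_I, ← key, ← key, conj_om, conj_omb]
  ring

/-- the entire integrand -/
noncomputable def fE (k : ℕ) (ζ t : ℂ) : ℂ := (-t) ^ k * Complex.exp (-(t ^ 3 / 3) - ζ * t)

theorem differentiable_fE (k : ℕ) (ζ : ℂ) : Differentiable ℂ (fE k ζ) := by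
  unfold fE
  fun_prop

theorem norm_fE (k : ℕ) (ζ t : ℂ) :
    ‖fE k ζ t‖ = ‖t‖ ^ k * Real.exp ((-(t ^ 3 / 3) - ζ * t).re) := by
  unfold fE
  rw [norm_mul, norm_pow, norm_neg, Complex.norm_exp]

theorem rI_eq {w : ℂ} (hw3 : w ^ 3 = 1) (k : ℕ) (ζ : ℂ) (ρ : ℝ) : rI w k ζ ρ = w * fE k ζ (ρ * w) := by
  unfold rI fE
  congr 3
  push_cast
  rw [mul_pow, hw3, mul_one]

private theorem cube_re (x y : ℝ) : (-(((x:ℂ) + y * I) ^ 3 / 3)).re = -(x ^ 3 - 3 * x * y ^ 2) / 3 := by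
  have : ((x:ℂ) + y * I) ^ 3 = ((x ^ 3 - 3 * x * y ^ 2 : ℝ) : ℂ) + ((3 * x ^ 2 * y - y ^ 3 : ℝ) : ℂ) * I := by
    push_cast
    linear_combination (3 * (x:ℂ) * y ^ 2 + (y:ℂ) ^ 3 * I) * Complex.I_sq
  rw [this, Complex.neg_re]
  have h3 : ∀ z : ℂ, (z / 3).re = z.re / 3 := fun z => by simp
  rw [h3]
  simp only [Complex.add_re, Complex.ofReal_re, Complex.re_ofReal_mul, Complex.I_re, mul_zero, add_zero]
  ring

/-- size of the integrand to the left of the line `Re t = -σ` -/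
private theorem norm_fE_le (k : ℕ) {ζ : ℂ} {σ x R : ℝ} (hσ : 0 < σ) (h1 : σ ≤ x) (h2 : x ^ 2 ≤ R ^ 2 / 2) :
    ‖fE k ζ (-(x:ℂ) + R * I)‖ ≤ ‖(-(x:ℂ) + R * I)‖ ^ k *
      Real.exp (-(2 / 3 * σ * R ^ 2) + ‖ζ‖ * ‖(-(x:ℂ) + R * I)‖) := by
  rw [norm_fE]
  apply mul_le_mul_of_nonneg_left _ (by positivity)
  apply Real.exp_le_exp.mpr
  rw [Complex.sub_re]
  have e1 : (-(x:ℂ) + R * I) = (((-x : ℝ) : ℂ) + R * I) := by push_cast; ring
  have h3 : (-((-(x:ℂ) + R * I) ^ 3 / 3)).re ≤ -(2 / 3 * σ * R ^ 2) := by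
    rw [e1, cube_re]
    nlinarith [mul_nonneg (by linarith : 0 ≤ x - σ) (sq_nonneg R), sq_nonneg x]
  have h4 : -(ζ * (-(x:ℂ) + R * I)).re ≤ ‖ζ‖ * ‖(-(x:ℂ) + R * I)‖ := by
    rw [← norm_mul]
    exact (neg_le_abs _).trans (Complex.abs_re_le_norm _)
  linarith

/-- an elementary limit -/
private theorem tendsto_aux (n : ℕ) {c A : ℝ} (hc : 0 < c) :
    Tendsto (fun ρ : ℝ => ρ ^ n * Real.exp (-(c * ρ ^ 2) + A * ρ)) atTop (𝓝 0) := by
  have h1 : Tendsto (fun ρ : ℝ => ρ ^ n * Real.exp (-ρ)) atTop (𝓝 0) :=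
    Real.tendsto_pow_mul_exp_neg_atTop_nhds_zero n
  have h2 : Tendsto (fun ρ : ℝ => Real.exp ((A + 1) ^ 2 / (4 * c)) * (ρ ^ n * Real.exp (-ρ))) atTop (𝓝 0) := by
    have := h1.const_mul (Real.exp ((A + 1) ^ 2 / (4 * c)))
    simpa using this
  refine squeeze_zero' ?_ ?_ h2
  · filter_upwards [eventually_ge_atTop 0] with ρ hρ
    positivity
  · filter_upwards [eventually_ge_atTop 0] with ρ hρ
    have h3 : Real.exp (-(c * ρ ^ 2) + A * ρ) ≤ Real.exp ((A + 1) ^ 2 / (4 * c)) * Real.exp (-ρ) := by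
      rw [← Real.exp_add]
      apply Real.exp_le_exp.mpr
      have h4 : (A + 1) * ρ ≤ c * ρ ^ 2 + (A + 1) ^ 2 / (4 * c) := by
        have h5 : 0 ≤ (2 * c * ρ - (A + 1)) ^ 2 / (4 * c) := by positivity
        have h6 : (2 * c * ρ - (A + 1)) ^ 2 / (4 * c) = c * ρ ^ 2 - (A + 1) * ρ + (A + 1) ^ 2 / (4 * c) := by
          field_simp
          ring
        linarith
      linarith
    have h4 : 0 ≤ ρ ^ n := by positivity
    calc ρ ^ n * Real.exp (-(c * ρ ^ 2) + A * ρ)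
        ≤ ρ ^ n * (Real.exp ((A + 1) ^ 2 / (4 * c)) * Real.exp (-ρ)) := by gcongr
      _ = _ := by ring

/-- integrals of polynomials times Gaussians -/
theorem integrable_poly_gauss (n : ℕ) {c : ℝ} (hc : 0 < c) (A : ℝ) :
    Integrable (fun τ : ℝ => |τ| ^ n * Real.exp (-(c * τ ^ 2) + A * |τ|)) := by
  have h0 : Integrable (fun τ : ℝ => Real.exp (-(c / 2) * τ ^ 2)) := integrable_exp_neg_mul_sq (by positivity)
  obtain ⟨M, hM⟩ : ∃ M : ℝ, ∀ ρ : ℝ, 0 ≤ ρ → ρ ^ n * Real.exp (-(c / 2 * ρ ^ 2) + A * ρ) ≤ M := by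
    have h1 := tendsto_aux n (A := A) (show 0 < c / 2 by positivity)
    have h2 : Continuous (fun ρ : ℝ => ρ ^ n * Real.exp (-(c / 2 * ρ ^ 2) + A * ρ)) := by fun_prop
    obtain ⟨R, hR⟩ := (h1.eventually (gt_mem_nhds (zero_lt_one))).exists_forall_of_atTop
    obtain ⟨M, hM⟩ := (isCompact_Icc (a := (0:ℝ)) (b := R)).exists_bound_of_continuousOn h2.continuousOn
    refine ⟨max M 1, fun ρ hρ => ?_⟩
    rcases le_total ρ R with h | h
    · exact (le_abs_self _).trans ((hM ρ ⟨hρ, h⟩).trans (le_max_left _ _))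
    · exact (hR ρ h).le.trans (le_max_right _ _)
  refine Integrable.mono' (h0.const_mul M) (by fun_prop) (Eventually.of_forall fun τ => ?_)
  have h3 := hM |τ| (abs_nonneg _)
  have h4 : 0 ≤ Real.exp (-(c / 2) * τ ^ 2) := (Real.exp_pos _).le
  rw [Real.norm_eq_abs, abs_of_nonneg (by positivity)]
  have h5 : Real.exp (-(c * τ ^ 2) + A * |τ|) =
      Real.exp (-(c / 2 * |τ| ^ 2) + A * |τ|) * Real.exp (-(c / 2) * τ ^ 2) := by
    rw [← Real.exp_add, sq_abs]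
    congr 1
    ring
  rw [h5, ← mul_assoc]
  exact mul_le_mul_of_nonneg_right h3 h4

/-- integrability on vertical lines -/
theorem integrable_line (k : ℕ) (ζ : ℂ) {σ : ℝ} (hσ : 0 < σ) :
    Integrable (fun τ : ℝ => fE k ζ (-(σ:ℂ) + τ * I)) := by
  have h1 : Integrable (fun τ : ℝ => ∑ m ∈ Finset.range (k + 1),
      ((Nat.choose k m : ℝ) * σ ^ (k - m) * Real.exp (σ ^ 3 / 3 + ‖ζ‖ * σ)) *
        (|τ| ^ m * Real.exp (-(σ * τ ^ 2) + ‖ζ‖ * |τ|))) := by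
    apply integrable_finsetSum
    intro m _
    exact (integrable_poly_gauss m hσ ‖ζ‖).const_mul _
  have hc : Continuous (fun τ : ℝ => fE k ζ (-(σ:ℂ) + τ * I)) := by
    have := (differentiable_fE k ζ).continuous
    fun_prop
  refine Integrable.mono' h1 hc.aestronglyMeasurable (Eventually.of_forall fun τ => ?_)
  rw [norm_fE]
  have hn : ‖(-(σ:ℂ) + τ * I)‖ ≤ |τ| + σ := by
    refine (norm_add_le _ _).trans ?_
    rw [norm_neg, norm_mul, Complex.norm_I, mul_one, Complex.norm_real, Complex.norm_real,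
      Real.norm_eq_abs, Real.norm_eq_abs, abs_of_pos hσ]
    linarith
  have e1 : (-(σ:ℂ) + τ * I) = (((-σ : ℝ) : ℂ) + τ * I) := by push_cast; ring
  have h2 : (-((-(σ:ℂ) + τ * I) ^ 3 / 3) - ζ * (-(σ:ℂ) + τ * I)).re ≤
      (σ ^ 3 / 3 + ‖ζ‖ * σ) + (-(σ * τ ^ 2) + ‖ζ‖ * |τ|) := by
    rw [Complex.sub_re]
    have h3 : (-((-(σ:ℂ) + τ * I) ^ 3 / 3)).re = σ ^ 3 / 3 - σ * τ ^ 2 := by
      rw [e1, cube_re]; ring
    have h4 : -(ζ * (-(σ:ℂ) + τ * I)).re ≤ ‖ζ‖ * (|τ| + σ) := by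
      refine ((neg_le_abs _).trans (Complex.abs_re_le_norm _)).trans ?_
      rw [norm_mul]
      exact mul_le_mul_of_nonneg_left hn (norm_nonneg _)
    rw [h3]
    linarith
  have h5 : ‖(-(σ:ℂ) + τ * I)‖ ^ k ≤ (|τ| + σ) ^ k := pow_le_pow_left₀ (norm_nonneg _) hn k
  have h6 := Real.exp_le_exp.mpr h2
  rw [Real.exp_add] at h6
  calc _ ≤ (|τ| + σ) ^ k * (Real.exp (σ ^ 3 / 3 + ‖ζ‖ * σ) * Real.exp (-(σ * τ ^ 2) + ‖ζ‖ * |τ|)) := by
        gcongr
    _ = _ := by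
        rw [add_pow, Finset.sum_mul]
        apply Finset.sum_congr rfl
        intro m _
        ring

/-- **the line representation** -/
theorem Yk_line (k : ℕ) (ζ : ℂ) {σ : ℝ} (hσ : 0 < σ) :
    Yk k ζ = ∫ τ : ℝ, fE k ζ (-(σ:ℂ) + τ * I) := by
  obtain ⟨P, hP⟩ : ∃ P : ℂ → ℂ, ∀ x, HasDerivAt P (fE k ζ x) x := by
    obtain ⟨P, hP⟩ := (differentiable_fE k ζ).isExactOn_univ
    exact ⟨P, fun x => hP x (mem_univ x)⟩
  -- rays
  have hray : ∀ w : ℂ, ‖w‖ = 1 → w ^ 3 = 1 → ∃ L : ℂ, Tendsto (fun ρ : ℝ => P (ρ * w)) atTop (𝓝 L) ∧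
      rJ w k ζ = L - P 0 := by
    intro w hw hw3
    have hder : ∀ ρ ∈ Ici (0:ℝ), HasDerivAt (fun ρ : ℝ => P (ρ * w)) (rI w k ζ ρ) ρ := by
      intro ρ _
      have h2 : HasDerivAt (fun ρ : ℝ => (ρ : ℂ) * w) w ρ := by
        simpa using (Complex.ofRealCLM.hasDerivAt (x := ρ)).mul_const w
      have h3 := HasDerivAt.comp ρ (hP ((ρ : ℂ) * w)) h2
      rw [rI_eq hw3, mul_comm w]
      exact h3
    have h1 := tendsto_limUnder_of_hasDerivAt_of_integrableOn_Ioi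
      (fun ρ hρ => hder ρ (Set.mem_Ici.mpr (le_of_lt (Set.mem_Ioi.mp hρ)))) (integrable_rI hw k ζ)
    refine ⟨_, h1, ?_⟩
    have h2 := integral_Ioi_of_hasDerivAt_of_tendsto' hder (integrable_rI hw k ζ) h1
    unfold rJ
    rw [h2]
    simp
  -- the horizontal segments
  have hhor : ∀ w : ℂ, w.re = -1 / 2 → |w.im| = Real.sqrt 3 / 2 → ‖w‖ = 1 →
      Tendsto (fun ρ : ℝ => P (-(σ:ℂ) + (ρ * w.im : ℝ) * I) - P (ρ * w)) atTop (𝓝 0) := by
    intro w hre him hw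
    rw [tendsto_zero_iff_norm_tendsto_zero]
    have hsq : w.im ^ 2 = 3 / 4 := by
      rw [← sq_abs, him, div_pow, Real.sq_sqrt (by norm_num)]
      norm_num
    have h1 := tendsto_aux (k + 1) (A := ‖ζ‖) (c := 1 / 2 * σ) (by positivity)
    refine squeeze_zero' (Eventually.of_forall fun _ => norm_nonneg _) ?_ h1
    filter_upwards [eventually_ge_atTop (2 * σ)] with ρ hρ
    have hρ0 : 0 < ρ := by linarith
    have hseg : ∀ x ∈ Icc (-(ρ / 2)) (-σ), ‖fE k ζ ((x:ℂ) + (ρ * w.im : ℝ) * I)‖ ≤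
        ρ ^ k * Real.exp (-(1 / 2 * σ * ρ ^ 2) + ‖ζ‖ * ρ) := by
      intro x hx
      have e1 : (x:ℂ) + (ρ * w.im : ℝ) * I = -((-x : ℝ) : ℂ) + (ρ * w.im : ℝ) * I := by push_cast; ring
      have hx2 : x ^ 2 ≤ ρ ^ 2 / 4 := by nlinarith [hx.1, hx.2]
      have h2 := norm_fE_le k (ζ := ζ) hσ (x := -x) (R := ρ * w.im) (by linarith [hx.2])
        (by rw [mul_pow, hsq]; nlinarith)
      rw [e1]
      have h3 : ‖(-((-x : ℝ) : ℂ) + (ρ * w.im : ℝ) * I)‖ ≤ ρ := by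
        rw [← e1]
        have h4 : ‖(x:ℂ) + (ρ * w.im : ℝ) * I‖ ^ 2 ≤ ρ ^ 2 := by
          rw [← Complex.normSq_eq_norm_sq, Complex.normSq_add_mul_I, mul_pow, hsq]
          nlinarith
        exact (pow_le_pow_iff_left₀ (norm_nonneg _) hρ0.le (by norm_num)).mp h4
      refine h2.trans ?_
      have h5 : -(2 / 3 * σ * (ρ * w.im) ^ 2) = -(1 / 2 * σ * ρ ^ 2) := by
        rw [mul_pow, hsq]; ring
      rw [h5]
      have h6 : ‖(-((-x : ℝ) : ℂ) + (ρ * w.im : ℝ) * I)‖ ^ k ≤ ρ ^ k := pow_le_pow_left₀ (norm_nonneg _) h3 k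
      have h7 : ‖ζ‖ * ‖(-((-x : ℝ) : ℂ) + (ρ * w.im : ℝ) * I)‖ ≤ ‖ζ‖ * ρ :=
        mul_le_mul_of_nonneg_left h3 (norm_nonneg _)
      gcongr
    have hmv : ‖P (((-σ : ℝ) : ℂ) + (ρ * w.im : ℝ) * I) - P (((-(ρ / 2) : ℝ) : ℂ) + (ρ * w.im : ℝ) * I)‖ ≤
        (ρ ^ k * Real.exp (-(1 / 2 * σ * ρ ^ 2) + ‖ζ‖ * ρ)) * ‖(-σ) - (-(ρ / 2))‖ := by
      apply Convex.norm_image_sub_le_of_norm_hasDerivWithin_le
        (f := fun x : ℝ => P ((x : ℂ) + (ρ * w.im : ℝ) * I))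
        (f' := fun x : ℝ => fE k ζ ((x : ℂ) + (ρ * w.im : ℝ) * I)) (s := Icc (-(ρ / 2)) (-σ))
      · intro x _
        have h2 : HasDerivAt (fun x : ℝ => (x : ℂ) + (ρ * w.im : ℝ) * I) 1 x := by
          simpa using (Complex.ofRealCLM.hasDerivAt (x := x)).add_const (((ρ * w.im : ℝ) : ℂ) * I)
        have h3 := HasDerivAt.comp x (hP ((x : ℂ) + (ρ * w.im : ℝ) * I)) h2
        rw [mul_one] at h3
        exact h3.hasDerivWithinAt
      · exact hseg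
      · exact convex_Icc _ _
      · constructor <;> linarith
      · constructor <;> linarith
    have e2 : (ρ : ℂ) * w = ((-(ρ / 2) : ℝ) : ℂ) + (ρ * w.im : ℝ) * I := by
      apply Complex.ext
      · simp [hre]; ring
      · simp
    have e3 : (-(σ:ℂ) + (ρ * w.im : ℝ) * I) = (((-σ : ℝ) : ℂ) + (ρ * w.im : ℝ) * I) := by push_cast; ring
    rw [e2, e3]
    refine hmv.trans ?_
    have h8 : ‖(-σ) - (-(ρ / 2))‖ ≤ ρ := by
      rw [Real.norm_eq_abs, abs_le]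
      constructor <;> linarith
    calc _ ≤ (ρ ^ k * Real.exp (-(1 / 2 * σ * ρ ^ 2) + ‖ζ‖ * ρ)) * ρ := by gcongr
      _ = _ := by rw [pow_succ]; ring
  obtain ⟨Lp, hLp, hJp⟩ := hray om norm_om om_cube
  obtain ⟨Lm, hLm, hJm⟩ := hray omb norm_omb omb_cube
  have hs3 : 0 < Real.sqrt 3 / 2 := by positivity
  have h1 := hhor om om_re (by rw [om_im, abs_of_pos hs3]) norm_om
  have h2 := hhor omb omb_re (by rw [omb_im, abs_neg, abs_of_pos hs3]) norm_omb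
  have h1' : Tendsto (fun ρ : ℝ => P (-(σ:ℂ) + (ρ * om.im : ℝ) * I)) atTop (𝓝 Lp) := by
    have := h1.add hLp
    simpa using this
  have h2' : Tendsto (fun ρ : ℝ => P (-(σ:ℂ) + (ρ * omb.im : ℝ) * I)) atTop (𝓝 Lm) := by
    have := h2.add hLm
    simpa using this
  -- limits along the vertical line
  have h3 : Tendsto (fun τ : ℝ => P (-(σ:ℂ) + (τ : ℝ) * I)) atTop (𝓝 Lp) := by
    have h4 : Tendsto (fun τ : ℝ => τ * (Real.sqrt 3 / 2)⁻¹) atTop atTop :=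
      tendsto_id.atTop_mul_const (by positivity)
    refine (h1'.comp h4).congr fun τ => ?_
    simp only [Function.comp_apply, om_im]
    rw [mul_assoc, inv_mul_cancel₀ hs3.ne', mul_one]
  have h4 : Tendsto (fun τ : ℝ => P (-(σ:ℂ) + (τ : ℝ) * I)) atBot (𝓝 Lm) := by
    have h5 : Tendsto (fun τ : ℝ => -τ * (Real.sqrt 3 / 2)⁻¹) atBot atTop :=
      tendsto_neg_atBot_atTop.atTop_mul_const (by positivity)
    refine (h2'.comp h5).congr fun τ => ?_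
    simp only [Function.comp_apply, omb_im]
    rw [mul_neg, mul_assoc, inv_mul_cancel₀ hs3.ne', mul_one, neg_neg]
  have h5 := integral_of_hasDerivAt_of_tendsto (f := fun τ : ℝ => P (-(σ:ℂ) + (τ : ℝ) * I))
    (f' := fun τ : ℝ => fE k ζ (-(σ:ℂ) + τ * I) * I) (m := Lm) (n := Lp)
    (by
      intro τ
      have h6 : HasDerivAt (fun τ : ℝ => -(σ:ℂ) + (τ : ℝ) * I) I τ := by
        simpa using ((Complex.ofRealCLM.hasDerivAt (x := τ)).mul_const I).const_add (-(σ:ℂ))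
      exact HasDerivAt.comp τ (hP (-(σ:ℂ) + (τ : ℝ) * I)) h6)
    ((integrable_line k ζ hσ).mul_const I) h4 h3
  rw [integral_mul_const] at h5
  unfold Yk
  rw [hJp, hJm]
  linear_combination I * h5 - (∫ τ : ℝ, fE k ζ (-(σ:ℂ) + τ * I)) * Complex.I_sq

/-! ## the representation through the saddle point -/

/-- the saddle integrand -/
noncomputable def gE (a : ℂ) (τ : ℝ) : ℂ := Complex.exp (-a * τ ^ 2) * Complex.exp (I * (τ ^ 3 / 3 : ℝ))

/-- `G(a) = ∫ exp(-a τ² + i τ³/3)` -/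
noncomputable def GG (a : ℂ) : ℂ := ∫ τ : ℝ, gE a τ

/-- `H(a) = ∫ τ exp(-a τ² + i τ³/3)` -/
noncomputable def HH (a : ℂ) : ℂ := ∫ τ : ℝ, (τ : ℂ) * gE a τ

theorem norm_gE (a : ℂ) (τ : ℝ) : ‖gE a τ‖ = Real.exp (-(a.re * τ ^ 2)) := by
  unfold gE
  rw [norm_mul, mul_comm I, Complex.norm_exp_ofReal_mul_I, mul_one, Complex.norm_exp]
  congr 1
  have : (τ : ℂ) ^ 2 = ((τ ^ 2 : ℝ) : ℂ) := by push_cast; rfl
  rw [this, Complex.re_mul_ofReal, Complex.neg_re]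
  ring

theorem continuous_gE (a : ℂ) : Continuous (gE a) := by
  unfold gE
  fun_prop

theorem integrable_gE {a : ℂ} (ha : 0 < a.re) (n : ℕ) : Integrable (fun τ : ℝ => (τ : ℂ) ^ n * gE a τ) := by
  have h := integrable_poly_gauss n ha 0
  refine Integrable.mono' h ((by have := continuous_gE a; fun_prop : Continuous _).aestronglyMeasurable)
    (Eventually.of_forall fun τ => ?_)
  rw [norm_mul, norm_pow, norm_gE, Complex.norm_real, Real.norm_eq_abs]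
  simp

private theorem fE_saddle (k : ℕ) (a : ℂ) (τ : ℝ) :
    fE k (-a ^ 2) (-a + τ * I) = Complex.exp (-(2 / 3 * a ^ 3)) * ((a - I * τ) ^ k * gE a τ) := by
  unfold fE gE
  have e1 : -(-a + (τ:ℂ) * I) = a - I * τ := by ring
  have e2 : -((-a + (τ:ℂ) * I) ^ 3 / 3) - -a ^ 2 * (-a + τ * I) =
      -(2 / 3 * a ^ 3) + (-a * τ ^ 2 + I * (τ ^ 3 / 3 : ℝ)) := by
    push_cast
    linear_combination (a * (τ:ℂ) ^ 2 - (τ:ℂ) ^ 3 * I / 3) * Complex.I_sq
  rw [e1, e2, Complex.exp_add, Complex.exp_add]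
  ring

theorem Yk_saddle (k : ℕ) {a : ℂ} (ha : 0 < a.re) :
    Yk k (-a ^ 2) = Complex.exp (-(2 / 3 * a ^ 3)) * ∫ τ : ℝ, (a - I * τ) ^ k * gE a τ := by
  rw [Yk_line k _ ha, ← integral_const_mul]
  rw [← integral_sub_right_eq_self (fun τ : ℝ => fE k (-a ^ 2) (-((a.re : ℝ) : ℂ) + τ * I)) a.im]
  apply integral_congr_ae
  refine Eventually.of_forall fun τ => ?_
  simp only
  rw [← fE_saddle]
  congr 1
  apply Complex.ext
  · simp
  · simp
    ring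

theorem Yf_saddle {a : ℂ} (ha : 0 < a.re) : Yf (-a ^ 2) = Complex.exp (-(2 / 3 * a ^ 3)) * GG a := by
  unfold Yf GG
  rw [Yk_saddle 0 ha]
  simp

theorem Y1_saddle {a : ℂ} (ha : 0 < a.re) :
    Yk 1 (-a ^ 2) = Complex.exp (-(2 / 3 * a ^ 3)) * (a * GG a - I * HH a) := by
  rw [Yk_saddle 1 ha]
  congr 1
  unfold GG HH
  have h0 := integrable_gE ha 0
  have h1 := integrable_gE ha 1
  simp only [pow_zero, one_mul, pow_one] at h0 h1
  rw [← integral_const_mul, ← integral_const_mul, ← integral_sub (h0.const_mul a) (h1.const_mul I)]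
  congr 1
  funext τ
  ring

private theorem int_scale (n : ℕ) {r : ℝ} (hr : 0 < r) :
    ∫ τ : ℝ, |τ| ^ n * Real.exp (-(r ^ 2 * τ ^ 2)) =
      (∫ x : ℝ, |x| ^ n * Real.exp (-(x ^ 2))) / r ^ (n + 1) := by
  have h := Measure.integral_comp_mul_left (fun x : ℝ => |x| ^ n * Real.exp (-(x ^ 2))) r
  have h1 : ∀ τ : ℝ, |r * τ| ^ n * Real.exp (-((r * τ) ^ 2)) = r ^ n * (|τ| ^ n * Real.exp (-(r ^ 2 * τ ^ 2))) := by
    intro τ
    rw [abs_mul, abs_of_pos hr, mul_pow, mul_pow]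
    ring
  simp only [h1] at h
  rw [integral_const_mul, abs_of_pos (inv_pos.mpr hr), smul_eq_mul] at h
  have hr' : r ≠ 0 := hr.ne'
  have e : r ^ (n + 1) = r ^ n * r := pow_succ r n
  rw [e, eq_div_iff (by positivity)]
  calc (∫ τ : ℝ, |τ| ^ n * Real.exp (-(r ^ 2 * τ ^ 2))) * (r ^ n * r)
      = r * (r ^ n * ∫ τ : ℝ, |τ| ^ n * Real.exp (-(r ^ 2 * τ ^ 2))) := by ring
    _ = r * (r⁻¹ * ∫ x : ℝ, |x| ^ n * Real.exp (-(x ^ 2))) := by rw [h]
    _ = _ := by rw [← mul_assoc, mul_inv_cancel₀ hr', one_mul]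

private theorem norm_exp_sub_le (τ : ℝ) : ‖Complex.exp (I * (τ ^ 3 / 3 : ℝ)) - 1‖ ≤ |τ| ^ 3 / 3 := by
  refine Real.norm_exp_I_mul_ofReal_sub_one_le.trans ?_
  rw [Real.norm_eq_abs, abs_div, abs_pow]
  norm_num

private theorem norm_exp_neg (a : ℂ) (τ : ℝ) : ‖Complex.exp (-a * (τ:ℂ) ^ 2)‖ = Real.exp (-(a.re * τ ^ 2)) := by
  rw [Complex.norm_exp]
  congr 1
  have : (τ : ℂ) ^ 2 = ((τ ^ 2 : ℝ) : ℂ) := by push_cast; rfl
  rw [this, Complex.re_mul_ofReal, Complex.neg_re]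
  ring

private theorem integrable_gc {a : ℂ} (ha : 0 < a.re) (n : ℕ) :
    Integrable (fun τ : ℝ => (τ : ℂ) ^ n * Complex.exp (-a * (τ:ℂ) ^ 2)) := by
  have h := integrable_poly_gauss n ha 0
  refine Integrable.mono' h ((by fun_prop : Continuous _).aestronglyMeasurable)
    (Eventually.of_forall fun τ => ?_)
  rw [norm_mul, norm_pow, norm_exp_neg, Complex.norm_real, Real.norm_eq_abs]
  simp

/-- the difference to the Gaussian -/
private theorem diff_gauss {a : ℂ} {r : ℝ} (hr : 0 < r) (har : a.re = r ^ 2) (n : ℕ) :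
    ‖(∫ τ : ℝ, (τ : ℂ) ^ n * gE a τ) - ∫ τ : ℝ, (τ : ℂ) ^ n * Complex.exp (-a * (τ:ℂ) ^ 2)‖ ≤
      (∫ x : ℝ, |x| ^ (n + 3) * Real.exp (-(x ^ 2))) / 3 / r ^ (n + 4) := by
  have ha : 0 < a.re := by rw [har]; positivity
  rw [← integral_sub (integrable_gE ha n) (integrable_gc ha n)]
  have h1 : ∀ τ : ℝ, ‖(τ : ℂ) ^ n * gE a τ - (τ : ℂ) ^ n * Complex.exp (-a * (τ:ℂ) ^ 2)‖ ≤
      1 / 3 * (|τ| ^ (n + 3) * Real.exp (-(r ^ 2 * τ ^ 2))) := by
    intro τ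
    have e : (τ : ℂ) ^ n * gE a τ - (τ : ℂ) ^ n * Complex.exp (-a * (τ:ℂ) ^ 2) =
        (τ : ℂ) ^ n * (Complex.exp (-a * (τ:ℂ) ^ 2) * (Complex.exp (I * (τ ^ 3 / 3 : ℝ)) - 1)) := by
      unfold gE; ring
    rw [e, norm_mul, norm_mul, norm_pow, norm_exp_neg, Complex.norm_real, Real.norm_eq_abs, har]
    calc |τ| ^ n * (Real.exp (-(r ^ 2 * τ ^ 2)) * ‖Complex.exp (I * (τ ^ 3 / 3 : ℝ)) - 1‖)
        ≤ |τ| ^ n * (Real.exp (-(r ^ 2 * τ ^ 2)) * (|τ| ^ 3 / 3)) := by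
          gcongr
          exact norm_exp_sub_le τ
      _ = _ := by rw [pow_add]; ring
  have h2 : Integrable (fun τ : ℝ => 1 / 3 * (|τ| ^ (n + 3) * Real.exp (-(r ^ 2 * τ ^ 2)))) := by
    have := integrable_poly_gauss (n + 3) (show 0 < r ^ 2 by positivity) 0
    simp only [zero_mul, add_zero] at this
    exact this.const_mul _
  refine (norm_integral_le_of_norm_le h2 (Eventually.of_forall h1)).trans (le_of_eq ?_)
  rw [integral_const_mul, int_scale (n + 3) hr]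
  ring

private theorem odd_zero (a : ℂ) : ∫ τ : ℝ, (τ : ℂ) ^ 1 * Complex.exp (-a * (τ:ℂ) ^ 2) = 0 := by
  have h := integral_neg_eq_self (fun τ : ℝ => (τ : ℂ) ^ 1 * Complex.exp (-a * (τ:ℂ) ^ 2)) volume
  have h1 : ∀ τ : ℝ, (((-τ : ℝ) : ℂ)) ^ 1 * Complex.exp (-a * (((-τ : ℝ) : ℂ)) ^ 2) =
      -((τ : ℂ) ^ 1 * Complex.exp (-a * (τ:ℂ) ^ 2)) := by
    intro τ
    push_cast
    rw [neg_sq]
    ring
  simp only [h1] at h
  rw [integral_neg] at h
  have h2 : (2 : ℂ) * ∫ τ : ℝ, (τ : ℂ) ^ 1 * Complex.exp (-a * (τ:ℂ) ^ 2) = 0 := by linear_combination -h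
  simpa using h2

/-- **asymptotics** (row Y2), in the variable `a = sqrt (-ζ)` -/
theorem Y_asymp : ∃ C R : ℝ, 0 < C ∧ 0 < R ∧ ∀ a : ℂ, R ≤ ‖a‖ → ‖a‖ ≤ 5 * a.re →
    Yf (-a ^ 2) ≠ 0 ∧ ‖Yk 1 (-a ^ 2) / Yf (-a ^ 2) - a‖ ≤ C / ‖a‖ ^ 2 := by
  obtain ⟨M3, hM3⟩ : ∃ M3, M3 = ∫ x : ℝ, |x| ^ (0 + 3) * Real.exp (-(x ^ 2)) := ⟨_, rfl⟩
  obtain ⟨M4, hM4⟩ : ∃ M4, M4 = ∫ x : ℝ, |x| ^ (1 + 3) * Real.exp (-(x ^ 2)) := ⟨_, rfl⟩
  have hM30 : 0 ≤ M3 := by rw [hM3]; exact integral_nonneg fun x => by positivity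
  have hM40 : 0 ≤ M4 := by rw [hM4]; exact integral_nonneg fun x => by positivity
  refine ⟨200 * M4 + 1, (100 * M3 + 1) ^ 2, by positivity, by positivity, fun a hR ha5 => ?_⟩
  have hR1 : 1 ≤ ‖a‖ := le_trans (one_le_pow₀ (by linarith)) hR
  have ha : 0 < a.re := by linarith
  obtain ⟨m, hm⟩ : ∃ m, m = Real.sqrt ‖a‖ := ⟨_, rfl⟩
  obtain ⟨r, hr⟩ : ∃ r, r = Real.sqrt a.re := ⟨_, rfl⟩
  have hm2 : m ^ 2 = ‖a‖ := by rw [hm, Real.sq_sqrt (norm_nonneg _)]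
  have hr2 : r ^ 2 = a.re := by rw [hr, Real.sq_sqrt ha.le]
  have hr0 : 0 < r := by rw [hr]; exact Real.sqrt_pos.mpr ha
  have hm0 : 0 < m := by rw [hm]; exact Real.sqrt_pos.mpr (by linarith)
  have hmr : m ^ 2 ≤ 5 * r ^ 2 := by rw [hm2, hr2]; exact ha5
  have hmR : 100 * M3 + 1 ≤ m := by
    have : (100 * M3 + 1) ^ 2 ≤ m ^ 2 := by rw [hm2]; exact hR
    exact (pow_le_pow_iff_left₀ (by positivity) hm0.le (by norm_num)).mp this
  have hG := diff_gauss hr0 hr2.symm 0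
  have hH := diff_gauss hr0 hr2.symm 1
  rw [← hM3] at hG
  rw [← hM4, odd_zero, sub_zero] at hH
  simp only [pow_zero, one_mul] at hG
  rw [integral_gaussian_complex ha] at hG
  have hHH : (∫ τ : ℝ, (τ : ℂ) ^ 1 * gE a τ) = HH a := by unfold HH; simp only [pow_one]
  rw [hHH] at hH
  change ‖GG a - _‖ ≤ _ at hG
  -- the main term
  have hmain : ‖((Real.pi : ℂ) / a) ^ (1 / 2 : ℂ)‖ = Real.sqrt Real.pi / m := by
    have h1 : ‖((Real.pi : ℂ) / a) ^ (1 / 2 : ℂ)‖ ^ 2 = (Real.sqrt Real.pi / m) ^ 2 := by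
      rw [← norm_pow, ← Complex.cpow_nat_mul]
      norm_num
      rw [div_pow, hm2, Real.sq_sqrt Real.pi_pos.le, abs_of_pos Real.pi_pos]
    exact (pow_left_inj₀ (norm_nonneg _) (by positivity) (by norm_num)).mp h1
  have hm4 : m ^ 4 ≤ 25 * r ^ 4 := by nlinarith [sq_nonneg (m ^ 2), sq_nonneg (r ^ 2)]
  have hm5 : m ^ 5 ≤ 60 * r ^ 5 := by
    have h1 : m ≤ 12 / 5 * r := by
      have : m ^ 2 ≤ (12 / 5 * r) ^ 2 := by nlinarith [sq_nonneg r]
      exact (pow_le_pow_iff_left₀ hm0.le (by positivity) (by norm_num)).mp this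
    calc m ^ 5 = m ^ 4 * m := by ring
      _ ≤ (25 * r ^ 4) * (12 / 5 * r) := by gcongr
      _ = 60 * r ^ 5 := by ring
  have hpi : 17 / 10 ≤ Real.sqrt Real.pi := by
    apply Real.le_sqrt_of_sq_le
    nlinarith [Real.pi_gt_d2]
  have hGlow : 1 / m ≤ ‖GG a‖ := by
    have h1 : ‖((Real.pi : ℂ) / a) ^ (1 / 2 : ℂ)‖ ≤ ‖GG a‖ + ‖GG a - ((Real.pi : ℂ) / a) ^ (1 / 2 : ℂ)‖ := by
      have := norm_sub_le (GG a) (GG a - ((Real.pi : ℂ) / a) ^ (1 / 2 : ℂ))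
      simpa using this
    rw [hmain] at h1
    have h2 : M3 / 3 / r ^ (0 + 4) ≤ 1 / 10 / m := by
      rw [div_le_div_iff₀ (by positivity) hm0]
      have h3 : M3 ≤ m / 100 := by linarith
      have h4 : m ^ 2 ≤ m ^ 4 := by
        have : 1 ≤ m := by linarith
        nlinarith [sq_nonneg m, one_le_pow₀ (n := 2) this]
      have h5 : M3 / 3 * m ≤ m ^ 2 / 300 := by nlinarith
      have h6 : r ^ (0 + 4) = r ^ 4 := by norm_num
      rw [h6]
      nlinarith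
    have h3 : 17 / 10 / m ≤ Real.sqrt Real.pi / m := by gcongr
    have h4 : (17:ℝ) / 10 / m - 1 / 10 / m = 16 / 10 / m := by ring
    have h5 : (1:ℝ) / m ≤ 16 / 10 / m := by gcongr; norm_num
    linarith
  have hG0 : GG a ≠ 0 := by
    intro h
    rw [h, norm_zero] at hGlow
    have : 0 < 1 / m := by positivity
    linarith
  have hE := Complex.exp_ne_zero (-(2 / 3 * a ^ 3))
  rw [Yf_saddle ha, Y1_saddle ha]
  refine ⟨mul_ne_zero hE hG0, ?_⟩
  have e1 : Complex.exp (-(2 / 3 * a ^ 3)) * (a * GG a - I * HH a) / (Complex.exp (-(2 / 3 * a ^ 3)) * GG a) - a =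
      -(I * (HH a / GG a)) := by
    field_simp
    ring
  rw [e1, norm_neg, norm_mul, Complex.norm_I, one_mul, norm_div, ← hm2]
  have h1 : ‖HH a‖ ≤ 20 * M4 / m ^ 5 := by
    refine hH.trans ?_
    rw [div_le_div_iff₀ (by positivity) (by positivity)]
    have h2 : r ^ (1 + 4) = r ^ 5 := by norm_num
    rw [h2]
    have := mul_le_mul_of_nonneg_left hm5 (by positivity : 0 ≤ M4 / 3)
    linarith
  rw [div_le_div_iff₀ (norm_pos_iff.mpr hG0) (by positivity)]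
  calc ‖HH a‖ * (m ^ 2) ^ 2 ≤ 20 * M4 / m ^ 5 * (m ^ 2) ^ 2 := by gcongr
    _ = 20 * M4 * (1 / m) := by field_simp
    _ ≤ (200 * M4 + 1) * ‖GG a‖ := by
        have h3 : 0 ≤ 1 / m := by positivity
        gcongr
        linarith

/-- exponential bound in the strips `|Im ζ| ≤ b` -/
theorem Yk_bound (k : ℕ) (b : ℝ) : ∃ M : ℝ, ∀ ζ : ℂ, |ζ.im| ≤ b → ‖Yk k ζ‖ ≤ M * Real.exp ζ.re := by
  have hint : Integrable (fun τ : ℝ => ∑ m ∈ Finset.range (k + 1),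
      ((Nat.choose k m : ℝ) * Real.exp (1 / 3)) * (|τ| ^ m * Real.exp (-(1 * τ ^ 2) + b * |τ|))) := by
    apply integrable_finsetSum
    intro m _
    exact (integrable_poly_gauss m one_pos b).const_mul _
  refine ⟨∫ τ : ℝ, ∑ m ∈ Finset.range (k + 1),
      ((Nat.choose k m : ℝ) * Real.exp (1 / 3)) * (|τ| ^ m * Real.exp (-(1 * τ ^ 2) + b * |τ|)), fun ζ hζ => ?_⟩
  · rw [Yk_line k ζ one_pos]
    have h1 : ∀ τ : ℝ, ‖fE k ζ (-((1:ℝ):ℂ) + τ * I)‖ ≤ (∑ m ∈ Finset.range (k + 1),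
      ((Nat.choose k m : ℝ) * Real.exp (1 / 3)) * (|τ| ^ m * Real.exp (-(1 * τ ^ 2) + b * |τ|))) *
        Real.exp ζ.re := by
      intro τ
      rw [norm_fE]
      have hn : ‖(-((1:ℝ):ℂ) + τ * I)‖ ≤ |τ| + 1 := by
        refine (norm_add_le _ _).trans ?_
        rw [norm_neg, norm_mul, Complex.norm_I, mul_one, Complex.norm_real, Complex.norm_real,
          Real.norm_eq_abs, Real.norm_eq_abs]
        norm_num
        linarith
      have e1 : (-((1:ℝ):ℂ) + τ * I) = (((-1 : ℝ) : ℂ) + τ * I) := by push_cast; ring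
      have h2 : (-((-((1:ℝ):ℂ) + τ * I) ^ 3 / 3) - ζ * (-((1:ℝ):ℂ) + τ * I)).re ≤
          1 / 3 + (-(1 * τ ^ 2) + b * |τ|) + ζ.re := by
        rw [Complex.sub_re, e1, cube_re]
        have h3 : (ζ * (((-1 : ℝ) : ℂ) + τ * I)).re = -ζ.re - ζ.im * τ := by
          simp
        rw [h3]
        have h4 : ζ.im * τ ≤ b * |τ| := by
          calc ζ.im * τ ≤ |ζ.im * τ| := le_abs_self _
            _ = |ζ.im| * |τ| := abs_mul _ _
            _ ≤ b * |τ| := by gcongr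
        linarith
      have h5 : ‖(-((1:ℝ):ℂ) + τ * I)‖ ^ k ≤ (|τ| + 1) ^ k := pow_le_pow_left₀ (norm_nonneg _) hn k
      have h6 := Real.exp_le_exp.mpr h2
      rw [Real.exp_add, Real.exp_add] at h6
      calc _ ≤ (|τ| + 1) ^ k * (Real.exp (1 / 3) * Real.exp (-(1 * τ ^ 2) + b * |τ|) * Real.exp ζ.re) := by
            gcongr
        _ = _ := by
            rw [add_pow, Finset.sum_mul, Finset.sum_mul]
            apply Finset.sum_congr rfl
            intro m _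
            rw [one_pow]
            ring
    refine (norm_integral_le_of_norm_le (hint.mul_const (Real.exp ζ.re)) (Eventually.of_forall h1)).trans ?_
    rw [integral_mul_const]

/-! ## zeros of `Y` -/

/-- `Y` does not vanish on a horizontal half line -/
theorem Y_not_zero_left (ζ₀ : ℂ) : ¬ ∀ t : ℝ, t < 0 → Yf (ζ₀ + t) = 0 := by
  intro h
  have hY : AnalyticOnNhd ℂ Yf univ := fun z _ => differentiable_Yf.analyticAt z
  have h0 : AnalyticOnNhd ℂ (fun _ : ℂ => (0:ℂ)) univ := fun z _ => analyticAt_const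
  have hfr : ∃ᶠ z in 𝓝[≠] (ζ₀ + (-1 : ℝ)), Yf z = (fun _ : ℂ => (0:ℂ)) z := by
    have h1 : Tendsto (fun t : ℝ => ζ₀ + ((-1 + t : ℝ) : ℂ)) (𝓝[≠] 0) (𝓝[≠] (ζ₀ + (-1 : ℝ))) := by
      apply tendsto_nhdsWithin_of_tendsto_nhds_of_eventually_within
      · have : Continuous (fun t : ℝ => ζ₀ + ((-1 + t : ℝ) : ℂ)) := by fun_prop
        have h2 := this.tendsto 0
        simp only [add_zero] at h2
        exact h2.mono_left nhdsWithin_le_nhds
      · filter_upwards [self_mem_nhdsWithin] with t ht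
        simp only [mem_compl_iff, mem_singleton_iff] at ht ⊢
        intro h2
        apply ht
        have h3 : ((-1 + t : ℝ) : ℂ) = ((-1 : ℝ) : ℂ) := add_left_cancel h2
        have h4 := Complex.ofReal_injective h3
        linarith
    apply h1.frequently
    apply Eventually.frequently
    have h2 : ∀ᶠ t : ℝ in 𝓝[≠] 0, t < 1 := by
      apply Filter.Eventually.filter_mono nhdsWithin_le_nhds
      exact gt_mem_nhds one_pos
    filter_upwards [h2] with t ht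
    exact h _ (by linarith)
  have h2 := hY.eq_of_frequently_eq h0 hfr
  obtain ⟨C, R, hC, hR, hYa⟩ := Y_asymp
  have h3 := (hYa (R : ℂ) (by simp [abs_of_pos hR]) (by simp [abs_of_pos hR]; linarith)).1
  exact h3 (by rw [h2])

private theorem hasDerivAt_shift (k : ℕ) (ζ₀ : ℂ) (t : ℝ) :
    HasDerivAt (fun t : ℝ => Yk k (ζ₀ + t)) (Yk (k + 1) (ζ₀ + t)) t := by
  have h2 : HasDerivAt (fun t : ℝ => ζ₀ + (t : ℂ)) 1 t := by
    simpa using (Complex.ofRealCLM.hasDerivAt (x := t)).const_add ζ₀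
  have h3 := HasDerivAt.comp t (hasDerivAt_Yk k (ζ₀ + (t : ℂ))) h2
  rw [mul_one] at h3
  exact h3

private theorem hasDerivAt_conj {f : ℝ → ℂ} {f' : ℂ} {t : ℝ} (h : HasDerivAt f f' t) :
    HasDerivAt (fun t => (starRingEnd ℂ) (f t)) ((starRingEnd ℂ) f') t := by
  exact (Complex.conjCLE.toContinuousLinearMap.hasFDerivAt (x := f t)).comp_hasDerivAt t h

/-- the Wronskian like function `g' conj g` and its derivative -/
private theorem hasDerivAt_W (ζ₀ : ℂ) (t : ℝ) :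
    HasDerivAt (fun t : ℝ => Yk 1 (ζ₀ + t) * (starRingEnd ℂ) (Yk 0 (ζ₀ + t)))
      (-(ζ₀ + t) * (Complex.normSq (Yk 0 (ζ₀ + t)) : ℂ) + (Complex.normSq (Yk 1 (ζ₀ + t)) : ℂ)) t := by
  have h := (hasDerivAt_shift 1 ζ₀ t).mul (hasDerivAt_conj (hasDerivAt_shift 0 ζ₀ t))
  refine h.congr_deriv ?_
  have h1 : Yk (1 + 1) (ζ₀ + t) = -(ζ₀ + t) * Yk 0 (ζ₀ + t) := Y_ode _
  rw [h1, zero_add, ← Complex.mul_conj, ← Complex.mul_conj]
  ring

private theorem W_tendsto (ζ₀ : ℂ) :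
    Tendsto (fun t : ℝ => Yk 1 (ζ₀ + t) * (starRingEnd ℂ) (Yk 0 (ζ₀ + t))) atBot (𝓝 0) := by
  obtain ⟨M0, h0⟩ := Yk_bound 0 |ζ₀.im|
  obtain ⟨M1, h1⟩ := Yk_bound 1 |ζ₀.im|
  rw [tendsto_zero_iff_norm_tendsto_zero]
  have h2 : Tendsto (fun t : ℝ => (M1 * M0 * Real.exp (2 * ζ₀.re)) * (Real.exp t * Real.exp t)) atBot (𝓝 0) := by
    have := (Real.tendsto_exp_atBot.mul Real.tendsto_exp_atBot).const_mul (M1 * M0 * Real.exp (2 * ζ₀.re))
    simpa using this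
  refine squeeze_zero (fun _ => norm_nonneg _) (fun t => ?_) h2
  rw [norm_mul, RCLike.norm_conj]
  have h3 := h0 (ζ₀ + t) (by simp)
  have h4 := h1 (ζ₀ + t) (by simp)
  calc ‖Yk 1 (ζ₀ + t)‖ * ‖Yk 0 (ζ₀ + t)‖ ≤ (M1 * Real.exp (ζ₀ + t).re) * (M0 * Real.exp (ζ₀ + t).re) :=
        mul_le_mul h4 h3 (norm_nonneg _) ((norm_nonneg _).trans h4)
    _ = _ := by
        simp only [Complex.add_re, Complex.ofReal_re]
        rw [Real.exp_add, two_mul, Real.exp_add]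
        ring

/-- zeros are real -/
theorem Y_zero_real {ζ₀ : ℂ} (h0 : Yf ζ₀ = 0) : ζ₀.im = 0 := by
  by_contra him
  apply Y_not_zero_left ζ₀
  have hder : ∀ t : ℝ, HasDerivAt (fun t : ℝ => (Yk 1 (ζ₀ + t) * (starRingEnd ℂ) (Yk 0 (ζ₀ + t))).im / ζ₀.im)
      (-(Complex.normSq (Yk 0 (ζ₀ + t)))) t := by
    intro t
    have h1 := (Complex.imCLM.hasFDerivAt.comp_hasDerivAt t (hasDerivAt_W ζ₀ t)).div_const ζ₀.im
    refine h1.congr_deriv ?_
    simp only [Complex.imCLM_apply, Complex.add_im, Complex.ofReal_im, add_zero]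
    rw [Complex.im_mul_ofReal]
    simp only [Complex.neg_im, Complex.add_im, Complex.ofReal_im, add_zero]
    field_simp
  have hanti : Antitone (fun t : ℝ => (Yk 1 (ζ₀ + t) * (starRingEnd ℂ) (Yk 0 (ζ₀ + t))).im / ζ₀.im) := by
    apply antitone_of_deriv_nonpos (fun t => (hder t).differentiableAt)
    intro t
    rw [(hder t).deriv]
    have := Complex.normSq_nonneg (Yk 0 (ζ₀ + t))
    linarith
  have hlim : Tendsto (fun t : ℝ => (Yk 1 (ζ₀ + t) * (starRingEnd ℂ) (Yk 0 (ζ₀ + t))).im / ζ₀.im) atBot (𝓝 0) := by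
    have h1 := ((Complex.continuous_im.tendsto 0).comp (W_tendsto ζ₀)).div_const ζ₀.im
    simpa using h1
  have hz : ∀ t : ℝ, t ≤ 0 → (Yk 1 (ζ₀ + t) * (starRingEnd ℂ) (Yk 0 (ζ₀ + t))).im / ζ₀.im = 0 := by
    intro t ht
    apply le_antisymm (hanti.ge_of_tendsto hlim t)
    have h1 := hanti ht
    simp only at h1
    refine le_trans (le_of_eq ?_) h1
    have h2 : Yk 0 (ζ₀ + ((0:ℝ) : ℂ)) = 0 := by rw [Complex.ofReal_zero, add_zero]; exact h0
    rw [h2]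
    simp
  intro t ht
  have h1 : HasDerivAt (fun t : ℝ => (Yk 1 (ζ₀ + t) * (starRingEnd ℂ) (Yk 0 (ζ₀ + t))).im / ζ₀.im) 0 t := by
    have h2 : (fun _ : ℝ => (0:ℝ)) =ᶠ[𝓝 t]
        (fun t : ℝ => (Yk 1 (ζ₀ + t) * (starRingEnd ℂ) (Yk 0 (ζ₀ + t))).im / ζ₀.im) := by
      filter_upwards [gt_mem_nhds ht] with s hs
      exact (hz s (le_of_lt hs)).symm
    exact (hasDerivAt_const t (0:ℝ)).congr_of_eventuallyEq h2.symm
  have h2 := (hder t).unique h1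
  have h3 : Complex.normSq (Yk 0 (ζ₀ + t)) = 0 := by linarith
  exact Complex.normSq_eq_zero.mp h3

/-- zeros are positive -/
theorem Y_zero_pos {x : ℝ} (h0 : Yf (x : ℂ) = 0) : 0 < x := by
  by_contra hx
  push Not at hx
  apply Y_not_zero_left (x : ℂ)
  have hder : ∀ t : ℝ, HasDerivAt (fun t : ℝ => (Yk 1 ((x:ℂ) + t) * (starRingEnd ℂ) (Yk 0 ((x:ℂ) + t))).re)
      (-(x + t) * (Complex.normSq (Yk 0 ((x:ℂ) + t))) + Complex.normSq (Yk 1 ((x:ℂ) + t))) t := by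
    intro t
    have h1 := (Complex.reCLM.hasFDerivAt.comp_hasDerivAt t (hasDerivAt_W (x:ℂ) t))
    refine h1.congr_deriv ?_
    simp only [Complex.reCLM_apply, Complex.add_re, Complex.ofReal_re]
    rw [Complex.re_mul_ofReal]
    simp
  have hmono : MonotoneOn (fun t : ℝ => (Yk 1 ((x:ℂ) + t) * (starRingEnd ℂ) (Yk 0 ((x:ℂ) + t))).re) (Iic 0) := by
    apply monotoneOn_of_deriv_nonneg (convex_Iic 0)
    · exact fun t _ => (hder t).continuousAt.continuousWithinAt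
    · exact fun t _ => (hder t).differentiableAt.differentiableWithinAt
    · intro t ht
      rw [interior_Iic] at ht
      rw [(hder t).deriv]
      have h1 := Complex.normSq_nonneg (Yk 0 ((x:ℂ) + t))
      have h2 := Complex.normSq_nonneg (Yk 1 ((x:ℂ) + t))
      have h3 : 0 ≤ -(x + t) := by have := Set.mem_Iio.mp ht; linarith
      positivity
  have hlim : Tendsto (fun t : ℝ => (Yk 1 ((x:ℂ) + t) * (starRingEnd ℂ) (Yk 0 ((x:ℂ) + t))).re) atBot (𝓝 0) := by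
    have h1 := ((Complex.continuous_re.tendsto 0).comp (W_tendsto (x:ℂ)))
    rw [Complex.zero_re] at h1
    exact h1
  have hW0 : (Yk 1 ((x:ℂ) + ((0:ℝ):ℂ)) * (starRingEnd ℂ) (Yk 0 ((x:ℂ) + ((0:ℝ):ℂ)))).re = 0 := by
    have h2 : Yk 0 ((x:ℂ) + ((0:ℝ) : ℂ)) = 0 := by rw [Complex.ofReal_zero, add_zero]; exact h0
    rw [h2]
    simp
  have hz : ∀ t : ℝ, t ≤ 0 → (Yk 1 ((x:ℂ) + t) * (starRingEnd ℂ) (Yk 0 ((x:ℂ) + t))).re = 0 := by
    intro t ht
    apply le_antisymm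
    · have h1 := hmono (Set.mem_Iic.mpr ht) (Set.mem_Iic.mpr (le_refl 0)) ht
      simp only at h1
      exact h1.trans (le_of_eq hW0)
    · refine le_of_tendsto hlim ?_
      filter_upwards [eventually_le_atBot t] with s hs
      exact hmono (Set.mem_Iic.mpr (hs.trans ht)) (Set.mem_Iic.mpr ht) hs
  intro t ht
  have h1 : HasDerivAt (fun t : ℝ => (Yk 1 ((x:ℂ) + t) * (starRingEnd ℂ) (Yk 0 ((x:ℂ) + t))).re) 0 t := by
    have h2 : (fun _ : ℝ => (0:ℝ)) =ᶠ[𝓝 t]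
        (fun t : ℝ => (Yk 1 ((x:ℂ) + t) * (starRingEnd ℂ) (Yk 0 ((x:ℂ) + t))).re) := by
      filter_upwards [gt_mem_nhds ht] with s hs
      exact (hz s (le_of_lt hs)).symm
    exact (hasDerivAt_const t (0:ℝ)).congr_of_eventuallyEq h2.symm
  have h2 := (hder t).unique h1
  have h3 := Complex.normSq_nonneg (Yk 0 ((x:ℂ) + t))
  have h4 := Complex.normSq_nonneg (Yk 1 ((x:ℂ) + t))
  have h5 : 0 < -(x + t) := by linarith
  have h6 : Complex.normSq (Yk 0 ((x:ℂ) + t)) = 0 := by nlinarith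
  exact Complex.normSq_eq_zero.mp h6

/-- zeros are simple -/
theorem Y_zero_simple {ζ₀ : ℂ} (h0 : Yf ζ₀ = 0) : Yk 1 ζ₀ ≠ 0 := by
  intro h1
  apply Y_not_zero_left ζ₀
  intro t ht
  have hK : ∀ x ∈ Ico (0:ℝ) (-t), ‖((-Yk 1 (ζ₀ - x), -Yk 2 (ζ₀ - x)) : ℂ × ℂ)‖ ≤
      (1 + ‖ζ₀‖ + |t|) * ‖((Yk 0 (ζ₀ - x), Yk 1 (ζ₀ - x)) : ℂ × ℂ)‖ := by
    intro x hx
    have hn : ‖ζ₀ - x‖ ≤ ‖ζ₀‖ + |t| := by
      refine (norm_sub_le _ _).trans ?_
      rw [Complex.norm_real, Real.norm_eq_abs, abs_of_nonneg hx.1, abs_of_neg ht]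
      linarith [hx.2]
    rw [Prod.norm_def, Prod.norm_def]
    simp only [norm_neg]
    have h2 : Yk 2 (ζ₀ - x) = -(ζ₀ - x) * Yk 0 (ζ₀ - x) := Y_ode _
    rw [h2, norm_mul, norm_neg]
    have h3 := le_max_left ‖Yk 0 (ζ₀ - x)‖ ‖Yk 1 (ζ₀ - x)‖
    have h4 := le_max_right ‖Yk 0 (ζ₀ - x)‖ ‖Yk 1 (ζ₀ - x)‖
    have h5 : 0 ≤ max ‖Yk 0 (ζ₀ - x)‖ ‖Yk 1 (ζ₀ - x)‖ := (norm_nonneg _).trans h3
    have h6 := norm_nonneg ζ₀
    have h7 := abs_nonneg t
    apply max_le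
    · nlinarith
    · calc ‖ζ₀ - x‖ * ‖Yk 0 (ζ₀ - x)‖ ≤ (‖ζ₀‖ + |t|) * max ‖Yk 0 (ζ₀ - x)‖ ‖Yk 1 (ζ₀ - x)‖ := by
            gcongr
        _ ≤ _ := by nlinarith
  have hd : ∀ (k : ℕ) (x : ℝ), HasDerivAt (fun x : ℝ => Yk k (ζ₀ - x)) (-Yk (k + 1) (ζ₀ - x)) x := by
    intro k x
    have h2 : HasDerivAt (fun x : ℝ => ζ₀ - (x : ℂ)) (-1) x := by
      simpa using (Complex.ofRealCLM.hasDerivAt (x := x)).const_sub ζ₀
    have h3 := HasDerivAt.comp x (hasDerivAt_Yk k (ζ₀ - (x : ℂ))) h2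
    rw [mul_neg_one] at h3
    exact h3
  have h2 := eq_zero_of_abs_deriv_le_mul_abs_self_of_eq_zero_right
    (f := fun x : ℝ => ((Yk 0 (ζ₀ - x), Yk 1 (ζ₀ - x)) : ℂ × ℂ))
    (f' := fun x : ℝ => ((-Yk 1 (ζ₀ - x), -Yk 2 (ζ₀ - x)) : ℂ × ℂ)) (a := 0) (b := -t)
    (fun x _ => ((hd 0 x).continuousAt.prodMk (hd 1 x).continuousAt).continuousWithinAt)
    (fun x _ => ((hd 0 x).prodMk (hd 1 x)).hasDerivWithinAt)
    (by
      have e1 : Yk 0 (ζ₀ - ((0:ℝ) : ℂ)) = 0 := by rw [Complex.ofReal_zero, sub_zero]; exact h0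
      have e2 : Yk 1 (ζ₀ - ((0:ℝ) : ℂ)) = 0 := by rw [Complex.ofReal_zero, sub_zero]; exact h1
      simp only [e1, e2]
      rfl) hK (-t) ⟨by linarith, le_refl _⟩
  have h3 := congrArg Prod.fst h2
  simp only [Prod.fst_zero] at h3
  unfold Yf
  rw [← h3]
  congr 1
  push_cast
  ring

/-- solutions of `y'' = -x y` oscillate -/
theorem osc {y y' : ℝ → ℝ} (h1 : ∀ x, HasDerivAt y (y' x) x) (h2 : ∀ x, HasDerivAt y' (-x * y x) x)
    (M : ℝ) : ∃ x, M < x ∧ y x = 0 := by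
  by_contra hcon
  push Not at hcon
  obtain ⟨N, hN⟩ : ∃ N, N = max M 1 := ⟨_, rfl⟩
  have hNM : M ≤ N := by rw [hN]; exact le_max_left _ _
  have hN1 : 1 ≤ N := by rw [hN]; exact le_max_right _ _
  have hne : ∀ x ∈ Ioi N, y x ≠ 0 := fun x hx => hcon x (lt_of_le_of_lt hNM hx)
  have hcont : Continuous y := continuous_iff_continuousAt.mpr fun x => (h1 x).continuousAt
  -- constant sign
  obtain ⟨s, hs⟩ : ∃ s : ℝ, ∀ x ∈ Ioi N, 0 < s * y x := by
    by_cases hpos : 0 < y (N + 1)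
    · refine ⟨1, fun x hx => ?_⟩
      rw [one_mul]
      by_contra hle
      push Not at hle
      have h3 : (0:ℝ) ∈ y '' Ioi N :=
        (isPreconnected_Ioi.image y hcont.continuousOn).ordConnected.out ⟨x, hx, rfl⟩
          ⟨N + 1, by simp, rfl⟩ ⟨hle, hpos.le⟩
      obtain ⟨z, hz, hz0⟩ := h3
      exact hne z hz hz0
    · have hneg : y (N + 1) < 0 := lt_of_le_of_ne (not_lt.mp hpos) (hne _ (by simp))
      refine ⟨-1, fun x hx => ?_⟩
      rw [neg_one_mul]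
      by_contra hle
      push Not at hle
      have h3 : (0:ℝ) ∈ y '' Ioi N :=
        (isPreconnected_Ioi.image y hcont.continuousOn).ordConnected.out
          ⟨N + 1, by simp, rfl⟩ ⟨x, hx, rfl⟩ ⟨hneg.le, by linarith⟩
      obtain ⟨z, hz, hz0⟩ := h3
      exact hne z hz hz0
  -- `z = s y`
  have g1 : ∀ x, HasDerivAt (fun x => s * y x) (s * y' x) x := fun x => (h1 x).const_mul s
  have g2 : ∀ x, HasDerivAt (fun x => s * y' x) (s * (-x * y x)) x := fun x => (h2 x).const_mul s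
  have hlow : ∀ c x₀ : ℝ, N < x₀ → 0 < c → (∀ x, x₀ ≤ x → c ≤ s * y x) → False := by
    intro c x₀ hx₀ hc hcx
    have hanti : AntitoneOn (fun x => s * y' x + c * x) (Ici x₀) := by
      apply antitoneOn_of_deriv_nonpos (convex_Ici x₀)
      · exact fun x _ => ((g2 x).add ((hasDerivAt_id x).const_mul c)).continuousAt.continuousWithinAt
      · exact fun x _ => ((g2 x).add ((hasDerivAt_id x).const_mul c)).differentiableAt.differentiableWithinAt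
      · intro x hx
        rw [interior_Ici] at hx
        have hx' : x₀ < x := hx
        have h3 : HasDerivAt (fun x => s * y' x + c * x) (s * (-x * y x) + c * 1) x :=
          (g2 x).add ((hasDerivAt_id x).const_mul c)
        rw [h3.deriv]
        have h4 := hcx x hx'.le
        have h5 : 1 ≤ x := by linarith
        nlinarith
    -- the derivative becomes very negative
    obtain ⟨x₁, hx₁, hx₁n⟩ : ∃ x₁, x₀ ≤ x₁ ∧ s * y' x₁ ≤ -1 := by
      refine ⟨x₀ + (|s * y' x₀| + 1) / c, ?_, ?_⟩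
      · have : 0 ≤ (|s * y' x₀| + 1) / c := by positivity
        linarith
      · have h3 := hanti (Set.mem_Ici.mpr (le_refl x₀)) (Set.mem_Ici.mpr (show x₀ ≤ x₀ + (|s * y' x₀| + 1) / c by
          have : 0 ≤ (|s * y' x₀| + 1) / c := by positivity
          linarith)) (show x₀ ≤ x₀ + (|s * y' x₀| + 1) / c by
          have : 0 ≤ (|s * y' x₀| + 1) / c := by positivity
          linarith)
        simp only at h3
        have h4 : c * (x₀ + (|s * y' x₀| + 1) / c) = c * x₀ + (|s * y' x₀| + 1) := by field_simp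
        have h5 := le_abs_self (s * y' x₀)
        linarith
    have hanti2 : AntitoneOn (fun x => s * y x + x) (Ici x₁) := by
      apply antitoneOn_of_deriv_nonpos (convex_Ici x₁)
      · exact fun x _ => ((g1 x).add (hasDerivAt_id x)).continuousAt.continuousWithinAt
      · exact fun x _ => ((g1 x).add (hasDerivAt_id x)).differentiableAt.differentiableWithinAt
      · intro x hx
        rw [interior_Ici] at hx
        have hx' : x₁ < x := hx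
        have h3 : HasDerivAt (fun x => s * y x + x) (s * y' x + 1) x := (g1 x).add (hasDerivAt_id x)
        rw [h3.deriv]
        have h4 := hanti (Set.mem_Ici.mpr hx₁) (Set.mem_Ici.mpr (hx₁.trans hx'.le)) hx'.le
        simp only at h4
        nlinarith
    have h3 := hanti2 (Set.mem_Ici.mpr (le_refl x₁)) (Set.mem_Ici.mpr (show x₁ ≤ x₁ + |s * y x₁| + 1 by
      have := abs_nonneg (s * y x₁)
      linarith)) (show x₁ ≤ x₁ + |s * y x₁| + 1 by
      have := abs_nonneg (s * y x₁)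
      linarith)
    simp only at h3
    have h4 := hs (x₁ + |s * y x₁| + 1) (Set.mem_Ioi.mpr (by
      have := abs_nonneg (s * y x₁)
      linarith))
    have h5 := le_abs_self (s * y x₁)
    linarith
  -- `z' ≥ 0`
  have hz' : ∀ x ∈ Ioi N, 0 ≤ s * y' x := by
    intro x₀ hx₀
    by_contra hneg
    push Not at hneg
    have hx₀' : N < x₀ := hx₀
    have hanti : AntitoneOn (fun x => s * y' x) (Ici x₀) := by
      apply antitoneOn_of_deriv_nonpos (convex_Ici x₀)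
      · exact fun x _ => (g2 x).continuousAt.continuousWithinAt
      · exact fun x _ => (g2 x).differentiableAt.differentiableWithinAt
      · intro x hx
        rw [interior_Ici] at hx
        have hx' : x₀ < x := hx
        rw [(g2 x).deriv]
        have h4 := hs x (Set.mem_Ioi.mpr (by linarith))
        have h5 : 1 ≤ x := by linarith
        nlinarith
    have hanti2 : AntitoneOn (fun x => s * y x + (-(s * y' x₀)) * x) (Ici x₀) := by
      apply antitoneOn_of_deriv_nonpos (convex_Ici x₀)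
      · exact fun x _ => ((g1 x).add ((hasDerivAt_id x).const_mul _)).continuousAt.continuousWithinAt
      · exact fun x _ => ((g1 x).add ((hasDerivAt_id x).const_mul _)).differentiableAt.differentiableWithinAt
      · intro x hx
        rw [interior_Ici] at hx
        have hx' : x₀ < x := hx
        have h3 : HasDerivAt (fun x => s * y x + (-(s * y' x₀)) * x) (s * y' x + (-(s * y' x₀)) * 1) x :=
          (g1 x).add ((hasDerivAt_id x).const_mul _)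
        rw [h3.deriv]
        have h4 := hanti (Set.mem_Ici.mpr (le_refl x₀)) (Set.mem_Ici.mpr hx'.le) hx'.le
        simp only at h4
        linarith
    obtain ⟨d, hd⟩ : ∃ d, d = -(s * y' x₀) := ⟨_, rfl⟩
    have hd0 : 0 < d := by rw [hd]; linarith
    rw [← hd] at hanti2
    have hx1 : x₀ ≤ x₀ + (|s * y x₀| + 1) / d := by
      have : 0 ≤ (|s * y x₀| + 1) / d := by positivity
      linarith
    have h3 := hanti2 (Set.mem_Ici.mpr (le_refl x₀)) (Set.mem_Ici.mpr hx1) hx1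
    simp only at h3
    have h4 : d * (x₀ + (|s * y x₀| + 1) / d) = d * x₀ + (|s * y x₀| + 1) := by field_simp
    have h5 := hs (x₀ + (|s * y x₀| + 1) / d) (Set.mem_Ioi.mpr (by linarith))
    have h6 := le_abs_self (s * y x₀)
    linarith
  have hmono : MonotoneOn (fun x => s * y x) (Ici (N + 1)) := by
    apply monotoneOn_of_deriv_nonneg (convex_Ici (N + 1))
    · exact fun x _ => (g1 x).continuousAt.continuousWithinAt
    · exact fun x _ => (g1 x).differentiableAt.differentiableWithinAt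
    · intro x hx
      rw [interior_Ici] at hx
      have hx' : N + 1 < x := hx
      rw [(g1 x).deriv]
      exact hz' x (Set.mem_Ioi.mpr (by linarith))
  exact hlow (s * y (N + 1)) (N + 1) (by linarith) (hs (N + 1) (by simp))
    (fun x hx => hmono (Set.mem_Ici.mpr (le_refl _)) (Set.mem_Ici.mpr hx) hx)

theorem Yk_real (k : ℕ) (x : ℝ) : Yk k (x : ℂ) = ((Yk k (x : ℂ)).re : ℂ) := by
  have h := Yk_conj k (x : ℂ)
  rw [Complex.conj_ofReal] at h
  exact (Complex.conj_eq_iff_re.mp h.symm).symm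

/-- there are arbitrarily large zeros -/
theorem Y_zero_large (M : ℝ) : ∃ x : ℝ, M < x ∧ Yf (x : ℂ) = 0 := by
  have hd : ∀ (k : ℕ) (x : ℝ), HasDerivAt (fun x : ℝ => (Yk k (x:ℂ)).re) ((Yk (k + 1) (x:ℂ)).re) x := by
    intro k x
    have h1 := (hasDerivAt_Yk k (x : ℂ)).comp_ofReal
    exact Complex.reCLM.hasFDerivAt.comp_hasDerivAt x h1
  obtain ⟨x, hx, hx0⟩ := osc (y := fun x : ℝ => (Yk 0 (x:ℂ)).re) (y' := fun x : ℝ => (Yk 1 (x:ℂ)).re)
    (hd 0) (fun x => (hd 1 x).congr_deriv (by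
      have h1 : Yk (1 + 1) (x:ℂ) = -(x:ℂ) * Yk 0 (x:ℂ) := Y_ode _
      rw [h1, ← Complex.ofReal_neg, Complex.re_ofReal_mul])) M
  refine ⟨x, hx, ?_⟩
  unfold Yf
  rw [Yk_real, hx0, Complex.ofReal_zero]

/-! ## enumeration of the zeros -/

/-- the zeros in a bounded interval are finitely many -/
theorem Y_zeros_finite (a b : ℝ) : {x : ℝ | x ∈ Icc a b ∧ Yf (x : ℂ) = 0}.Finite := by
  by_contra hinf
  have hinf' : ((fun x : ℝ => (x : ℂ)) '' {x : ℝ | x ∈ Icc a b ∧ Yf (x : ℂ) = 0}).Infinite :=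
    Set.Infinite.image Complex.ofReal_injective.injOn hinf
  have hcpt : IsCompact ((fun x : ℝ => (x : ℂ)) '' Icc a b) := isCompact_Icc.image Complex.continuous_ofReal
  obtain ⟨z, _, hz⟩ := hinf'.exists_accPt_of_subset_isCompact hcpt (image_mono fun x hx => hx.1)
  have hY : AnalyticOnNhd ℂ Yf univ := fun z _ => differentiable_Yf.analyticAt z
  have h0 : AnalyticOnNhd ℂ (fun _ : ℂ => (0:ℂ)) univ := fun z _ => analyticAt_const
  have hfr : ∃ᶠ w in 𝓝[≠] z, Yf w = (fun _ : ℂ => (0:ℂ)) w := by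
    have h1 := accPt_iff_frequently_nhdsNE.mp hz
    refine h1.mono ?_
    rintro w ⟨x, hx, rfl⟩
    exact hx.2
  have h2 := hY.eq_of_frequently_eq h0 hfr
  exact Y_not_zero_left 0 (fun t _ => by rw [h2])

private theorem enum {S : Set ℝ} (hfin : ∀ R, (S ∩ Iic R).Finite) (hunb : ∀ M : ℝ, ∃ x ∈ S, M < x) :
    ∃ y : ℕ → ℝ, StrictMono y ∧ ∀ x, x ∈ S ↔ ∃ n, x = y n := by
  have hnext : ∀ M : ℝ, ∃ x ∈ S, M < x ∧ ∀ z ∈ S, M < z → x ≤ z := by
    intro M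
    obtain ⟨x₀, hx₀, hMx₀⟩ := hunb M
    have hf : (S ∩ Iic x₀ ∩ Ioi M).Finite := (hfin x₀).subset inter_subset_left
    obtain ⟨x, hx, hmin⟩ := Set.exists_min_image _ id hf ⟨x₀, ⟨hx₀, le_refl x₀⟩, hMx₀⟩
    refine ⟨x, hx.1.1, hx.2, fun z hz hMz => ?_⟩
    rcases le_total z x₀ with h | h
    · exact hmin z ⟨⟨hz, h⟩, hMz⟩
    · exact le_trans hx.1.2 h
  choose nx hnx1 hnx2 hnx3 using hnext
  obtain ⟨x₀, hx₀, _⟩ := hunb 0
  obtain ⟨m, hm, hmin⟩ := Set.exists_min_image _ id (hfin x₀) ⟨x₀, hx₀, le_refl x₀⟩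
  have hmin' : ∀ z ∈ S, m ≤ z := by
    intro z hz
    rcases le_total z x₀ with h | h
    · exact hmin z ⟨hz, h⟩
    · exact le_trans hm.2 h
  obtain ⟨y, hy0, hys⟩ : ∃ y : ℕ → ℝ, y 0 = m ∧ ∀ n, y (n + 1) = nx (y n) :=
    ⟨fun n => Nat.rec m (fun _ x => nx x) n, rfl, fun n => rfl⟩
  have hmono : StrictMono y := strictMono_nat_of_lt_succ fun n => by rw [hys]; exact hnx2 _
  refine ⟨y, hmono, fun x => ⟨fun hx => ?_, ?_⟩⟩
  · by_contra hne
    push Not at hne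
    have hlt : ∀ n, y n < x := by
      intro n
      induction n with
      | zero => exact lt_of_le_of_ne (by rw [hy0]; exact hmin' x hx) (hne 0).symm
      | succ n ih =>
        refine lt_of_le_of_ne ?_ (hne (n + 1)).symm
        rw [hys]
        exact hnx3 _ x hx ih
    have hyS : ∀ n, y n ∈ S := by
      intro n
      cases n with
      | zero => rw [hy0]; exact hm.1
      | succ n => rw [hys]; exact hnx1 _
    have h1 : (range y).Infinite := infinite_range_of_injective hmono.injective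
    apply h1
    apply (hfin x).subset
    rintro _ ⟨n, rfl⟩
    exact ⟨hyS n, (hlt n).le⟩
  · rintro ⟨n, rfl⟩
    cases n with
    | zero => rw [hy0]; exact hm.1
    | succ n => rw [hys]; exact hnx1 _

/-- **the zeros of `Y`** (rows Y1, Y3) -/
theorem Y_zeros : ∃ y : ℕ → ℝ, StrictMono y ∧ (∀ n, 0 < y n) ∧ Tendsto y atTop atTop ∧
    (∀ ζ : ℂ, Yf ζ = 0 ↔ ∃ n, ζ = (y n : ℂ)) ∧ ∀ n, Yk 1 (y n : ℂ) ≠ 0 := by
  obtain ⟨y, hy, hyS⟩ := enum (S := {x : ℝ | Yf (x : ℂ) = 0})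
    (fun R => (Y_zeros_finite 0 R).subset fun x hx => ⟨⟨(Y_zero_pos hx.1).le, hx.2⟩, hx.1⟩)
    (fun M => by
      obtain ⟨x, hx, h0⟩ := Y_zero_large M
      exact ⟨x, h0, hx⟩)
  have hz : ∀ n, Yf (y n : ℂ) = 0 := fun n => (hyS (y n)).mpr ⟨n, rfl⟩
  refine ⟨y, hy, fun n => Y_zero_pos (hz n), ?_, fun ζ => ⟨fun h => ?_, ?_⟩, fun n => Y_zero_simple (hz n)⟩
  · apply tendsto_atTop_atTop_of_monotone hy.monotone
    intro M
    obtain ⟨x, hx, h0⟩ := Y_zero_large M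
    obtain ⟨n, hn⟩ := (hyS x).mp h0
    exact ⟨n, by rw [← hn]; exact hx.le⟩
  · have h1 : ζ = ((ζ.re : ℝ) : ℂ) := Complex.ext (by simp) (by simp [Y_zero_real h])
    rw [h1] at h
    obtain ⟨n, hn⟩ := (hyS ζ.re).mp h
    exact ⟨n, by rw [h1, hn]⟩
  · rintro ⟨n, rfl⟩
    exact hz n

/-- asymptotics in the variable `ζ` (row Y2) -/
theorem Y_asymp' : ∃ C R : ℝ, 0 < C ∧ 0 < R ∧ ∀ ζ : ℂ, R ≤ ‖ζ‖ → |Complex.arg (-ζ)| ≤ 5 * Real.pi / 6 + 1 / 20 →
    Yf ζ ≠ 0 ∧ ‖Yk 1 ζ / Yf ζ - (-ζ) ^ (1 / 2 : ℂ)‖ ≤ C / ‖ζ‖ := by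
  obtain ⟨C, R, hC, hR, h⟩ := Y_asymp
  refine ⟨C, R ^ 2, hC, by positivity, fun ζ hζ harg => ?_⟩
  have hζ0 : 0 < ‖ζ‖ := lt_of_lt_of_le (by positivity) hζ
  have hne : -ζ ≠ 0 := neg_ne_zero.mpr (norm_pos_iff.mp hζ0)
  obtain ⟨a, ha⟩ : ∃ a, a = (-ζ) ^ (1 / 2 : ℂ) := ⟨_, rfl⟩
  have ha2 : a ^ 2 = -ζ := by
    rw [ha, ← Complex.cpow_nat_mul]
    norm_num
  have hζa : ζ = -a ^ 2 := by rw [ha2, neg_neg]
  have hna : ‖a‖ ^ 2 = ‖ζ‖ := by rw [← norm_pow, ha2, norm_neg]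
  have hna0 : 0 < ‖a‖ := by
    rw [norm_pos_iff]
    rintro h0
    rw [h0] at ha2
    apply hne
    rw [← ha2]
    norm_num
  have h1 : R ≤ ‖a‖ := by
    have : R ^ 2 ≤ ‖a‖ ^ 2 := by rw [hna]; exact hζ
    exact (pow_le_pow_iff_left₀ hR.le hna0.le (by norm_num)).mp this
  have hre : a.re = ‖a‖ * Real.cos (Complex.arg (-ζ) / 2) := by
    have h2 : a = Complex.exp (Complex.log (-ζ) * (1 / 2)) := by
      rw [ha, Complex.cpow_def_of_ne_zero hne]
    have h3 : (Complex.log (-ζ) * (1 / 2)).im = Complex.arg (-ζ) / 2 := by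
      simp [Complex.log_im]
      ring
    have h4 := Complex.exp_re (Complex.log (-ζ) * (1 / 2))
    have h5 := Complex.norm_exp (Complex.log (-ζ) * (1 / 2))
    rw [← h2] at h4 h5
    rw [h4, h5, h3]
  have hcos : 1 / 5 ≤ Real.cos (Complex.arg (-ζ) / 2) := by
    have h2 : |Complex.arg (-ζ) / 2| ≤ 5 * Real.pi / 12 + 1 / 40 := by
      rw [abs_div, abs_two]
      linarith
    have h3 : Real.cos (5 * Real.pi / 12 + 1 / 40) ≤ Real.cos (Complex.arg (-ζ) / 2) := by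
      rw [← Real.cos_abs (Complex.arg (-ζ) / 2)]
      apply Real.cos_le_cos_of_nonneg_of_le_pi (abs_nonneg _) _ h2
      have := Real.pi_gt_three
      linarith
    refine le_trans ?_ h3
    have h4 : Real.cos (5 * Real.pi / 12 + 1 / 40) = Real.sin (Real.pi / 12 - 1 / 40) := by
      rw [← Real.cos_pi_div_two_sub]
      congr 1
      ring
    rw [h4]
    obtain ⟨x, hx⟩ : ∃ x, x = Real.pi / 12 - 1 / 40 := ⟨_, rfl⟩
    rw [← hx]
    have hx1 : (236:ℝ) / 1000 ≤ x := by rw [hx]; linarith [Real.pi_gt_d2]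
    have hx2 : x ≤ 238 / 1000 := by rw [hx]; linarith [Real.pi_lt_d2]
    have h5 := Real.sin_gt_sub_cube (x := x) (by linarith)
    nlinarith [pow_le_pow_left₀ (by linarith : (0:ℝ) ≤ x) hx2 3]
  have h2 := h a h1 (by rw [hre]; nlinarith)
  rw [← hζa, hna, ha] at h2
  exact h2

end Sok.YA
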