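import Pool.Agent.Lib.MP_816dec_an.CDefs
import Pool.Agent.Lib.MP_816dec_an.CYA

/-!
MP_816dec_an, part C, rows Y1 - Y5: the Airy type function `Yf` of `CDefs` (bridge to `CYA`).
-/

set_option autoImplicit false

open Complex Set Filter Topology MeasureTheory

namespace Sok

theorem om_eq : om = YA.om := by
  unfold om
  have h1 : (2 * (Real.pi : ℂ) / 3) = ((2 * Real.pi / 3 : ℝ) : ℂ) := by push_cast; ring
  rw [h1]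
  apply Complex.ext
  · rw [Complex.exp_ofReal_mul_I_re, YA.om_re]
    have : 2 * Real.pi / 3 = Real.pi - Real.pi / 3 := by ring
    rw [this, Real.cos_pi_sub, Real.cos_pi_div_three]
    norm_num
  · rw [Complex.exp_ofReal_mul_I_im, YA.om_im]
    have : 2 * Real.pi / 3 = Real.pi - Real.pi / 3 := by ring
    rw [this, Real.sin_pi_sub, Real.sin_pi_div_three]

private theorem ray0 (w ζ : ℂ) :
    w * (∫ ρ in Ioi (0:ℝ), exp (-((ρ:ℂ) ^ 3 / 3) - w * ρ * ζ)) = YA.rJ w 0 ζ := by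
  unfold YA.rJ YA.rI
  rw [← integral_const_mul]
  congr 1
  funext ρ
  rw [pow_zero, one_mul]
  congr 2
  push_cast
  ring

private theorem ray1 (w ζ : ℂ) :
    w * (∫ ρ in Ioi (0:ℝ), (-(w * ρ)) * exp (-((ρ:ℂ) ^ 3 / 3) - w * ρ * ζ)) = YA.rJ w 1 ζ := by
  unfold YA.rJ YA.rI
  rw [← integral_const_mul]
  congr 1
  funext ρ
  rw [pow_one]
  congr 2
  · ring
  · push_cast
    ring_nf

theorem Yf_eq : Yf = YA.Yf := by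
  funext ζ
  unfold Yf YA.Yf YA.Yk
  rw [ray0, ray0, om_eq, YA.conj_om, one_div, Complex.inv_I]

theorem Y1f_eq : Y1f = YA.Yk 1 := by
  funext ζ
  unfold Y1f YA.Yk
  rw [ray1, ray1, om_eq, YA.conj_om, one_div, Complex.inv_I]

theorem norm_om : ‖om‖ = 1 := by rw [om_eq, YA.norm_om]

theorem om_cube : om ^ 3 = 1 := by rw [om_eq, YA.om_cube]

/-- derivative of `Yf` -/
theorem hasDerivAt_Yf (ζ : ℂ) : HasDerivAt Yf (Y1f ζ) ζ := by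
  rw [Yf_eq, Y1f_eq]
  exact YA.hasDerivAt_Yk 0 ζ

theorem differentiable_Yf : Differentiable ℂ Yf := fun ζ => (hasDerivAt_Yf ζ).differentiableAt

theorem deriv_Yf (ζ : ℂ) : deriv Yf ζ = Y1f ζ := (hasDerivAt_Yf ζ).deriv

/-- the differential equation -/
theorem hasDerivAt_Y1f (ζ : ℂ) : HasDerivAt Y1f (-ζ * Yf ζ) ζ := by
  rw [Yf_eq, Y1f_eq, ← YA.Y_ode]
  exact YA.hasDerivAt_Yk 1 ζ

theorem Yf_conj (ζ : ℂ) : Yf ((starRingEnd ℂ) ζ) = (starRingEnd ℂ) (Yf ζ) := by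
  rw [Yf_eq]
  exact YA.Yk_conj 0 ζ

/-- asymptotics in the variable `a = sqrt (-ζ)` -/
theorem Yf_asymp_sqrt : ∃ C R : ℝ, 0 < C ∧ 0 < R ∧ ∀ a : ℂ, R ≤ ‖a‖ → ‖a‖ ≤ 5 * a.re →
    Yf (-a ^ 2) ≠ 0 ∧ ‖Y1f (-a ^ 2) / Yf (-a ^ 2) - a‖ ≤ C / ‖a‖ ^ 2 := by
  rw [Yf_eq, Y1f_eq]
  exact YA.Y_asymp

/-- asymptotics of `Y'/Y` -/
theorem Yf_asymp : ∃ C R : ℝ, 0 < C ∧ 0 < R ∧ ∀ ζ : ℂ, R ≤ ‖ζ‖ →
    |Complex.arg (-ζ)| ≤ 5 * Real.pi / 6 + 1 / 20 →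
    Yf ζ ≠ 0 ∧ ‖Y1f ζ / Yf ζ - (-ζ) ^ (1 / 2 : ℂ)‖ ≤ C / ‖ζ‖ := by
  rw [Yf_eq, Y1f_eq]
  exact YA.Y_asymp'

/-- the zeros of `Yf`: a strictly increasing sequence of positive numbers tending to infinity, all
simple -/
theorem Yf_zeros : ∃ y : ℕ → ℝ, StrictMono y ∧ (∀ n, 0 < y n) ∧ Tendsto y atTop atTop ∧
    (∀ ζ : ℂ, Yf ζ = 0 ↔ ∃ n, ζ = (y n : ℂ)) ∧ ∀ n, Y1f (y n : ℂ) ≠ 0 := by
  rw [Yf_eq, Y1f_eq]
  exact YA.Y_zeros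

end Sok
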