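import Pool.Agent.Lib.MP_816dec_an.CN1
import Pool.Agent.Lib.MP_816dec_an.CY

/-!
MP_816dec_an, part C, near q = 1: claim (5.2) from the convergence of the window function.
-/

open Complex Set Filter Topology MeasureTheory

namespace Sok

theorem near_one_Yf (hV : TendstoLocallyUniformly PhiF Yf (𝓝[HP] 0)) (N : ℕ) :
    ∃ ε > 0, ∀ q : ℂ, ‖q‖ ≤ 1 → q ≠ 1 → ‖q - 1‖ < ε → Strong q N := by
  obtain ⟨y, hymono, hypos, hytop, hyz, hyd⟩ := Yf_zeros
  refine near_one differentiable_Yf hV ?_ ?_ ?_ N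
  · obtain ⟨C, R, hC, hR, h⟩ := Yf_asymp_sqrt
    refine ⟨R ^ 2, C, fun ζ a ha hare hζ => ?_⟩
    have h1 : ‖a‖ ^ 2 = ‖ζ‖ := by rw [← norm_pow, ha, norm_neg]
    have h2 : R ≤ ‖a‖ := by
      rw [← h1] at hζ
      exact (abs_le_of_sq_le_sq' hζ (norm_nonneg _)).2
    have h3 : -a ^ 2 = ζ := by rw [ha, neg_neg]
    have h4 := h a h2 (by linarith)
    rw [h3, h1] at h4
    rw [deriv_Yf]
    exact h4
  · intro ζ hζ
    obtain ⟨n, hn⟩ := (hyz ζ).1 hζ
    rw [hn]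
    refine ⟨by simp, by simpa using hypos n, ?_⟩
    rw [deriv_Yf]
    exact hyd n
  · have h1 : Set.range (fun n => ((y n : ℝ) : ℂ)) ⊆ {ζ : ℂ | Yf ζ = 0} := by
      rintro _ ⟨n, rfl⟩
      exact (hyz _).2 ⟨n, rfl⟩
    apply Set.Infinite.mono h1
    apply Set.infinite_range_of_injective
    intro a b hab
    exact hymono.injective (Complex.ofReal_injective hab)

end Sok
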