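import Pool.Agent.Lib.MP_816dec_an.CV4
import Pool.Agent.Lib.MP_816dec_an.CL3

/-!
MP_816dec_an, part C, rows V2, V3: V2 on the closed half plane, and the locally uniform limit.
-/

open Complex Set Filter Topology MeasureTheory

namespace Sok.CV

theorem HP_slit {s : ℂ} (hs : 0 ≤ s.re) (hs0 : s ≠ 0) {r : ℝ} (hr : 0 < r) : (r:ℂ) * s ∈ slitPlane := by
  rw [Complex.mem_slitPlane_iff]
  rcases hs.eq_or_lt with h | h
  · right
    rw [Complex.im_ofReal_mul]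
    intro h1
    apply hs0
    apply Complex.ext
    · simp [← h]
    · rcases mul_eq_zero.1 h1 with h2 | h2
      · exact absurd h2 hr.ne'
      · simpa using h2
  · left
    rw [Complex.re_ofReal_mul]
    positivity

theorem cont_cs {s : ℂ} (hs : 0 ≤ s.re) (hs0 : s ≠ 0) : ContinuousAt cs s := by
  unfold cs
  have h1 : (2:ℂ) * s ∈ slitPlane := by
    have := HP_slit hs hs0 (r := 2) (by norm_num)
    exact_mod_cast this
  have h2 : ContinuousAt (fun s : ℂ => 2 * s) s := by fun_prop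
  exact ((h2.clog h1).div_const 3).cexp

theorem cont_Ks {s : ℂ} (hs : 0 ≤ s.re) (hs0 : s ≠ 0) : ContinuousAt Ks s := by
  unfold Ks
  have h1 : 2 * (Real.pi:ℂ) * s ∈ slitPlane := by
    have := HP_slit hs hs0 (r := 2 * Real.pi) (by have := Real.pi_pos; positivity)
    have e : (((2 * Real.pi : ℝ)) : ℂ) * s = 2 * (Real.pi:ℂ) * s := by push_cast; ring
    rwa [e] at this
  have h2 : ContinuousAt (fun s : ℂ => 2 * (Real.pi:ℂ) * s) s := by fun_prop
  have h3 : ContinuousAt (fun s : ℂ => exp (log (2 * Real.pi * s) / 2)) s :=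
    ((h2.clog h1).div_const 2).cexp
  have h4 : ContinuousAt (fun s : ℂ => exp (1 / (2 * s))) s := by
    apply ContinuousAt.cexp
    apply ContinuousAt.div continuousAt_const (by fun_prop) (mul_ne_zero two_ne_zero hs0)
  exact (h3.mul h4).div (cont_cs hs hs0) (cs_ne s)

theorem cont_fS {s : ℂ} (hs : 0 ≤ s.re) (hs0 : s ≠ 0) (η : ℂ) :
    ContinuousWithinAt (fun s => fS s η) {s : ℂ | 0 ≤ s.re} s := by
  unfold fS
  have h1 := continuousOn_F (exp (-s), zc s η) (norm_exp_neg_le hs)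
  have h2 : ContinuousAt (fun s : ℂ => (exp (-s), zc s η)) s := by
    unfold zc
    apply ContinuousAt.prodMk
    · fun_prop
    · apply ContinuousAt.mul
      · apply ContinuousAt.neg
        exact ContinuousAt.div continuousAt_const continuousAt_id hs0
      · fun_prop
  exact ContinuousWithinAt.comp (g := fun p : ℂ × ℂ => F p.1 p.2) (f := fun s : ℂ => (exp (-s), zc s η))
    (s := {s : ℂ | 0 ≤ s.re}) (t := {p : ℂ × ℂ | ‖p.1‖ ≤ 1}) (x := s) h1 h2.continuousWithinAt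
    (fun x hx => norm_exp_neg_le hx)

/-- continuity of one ray integral in s -/
theorem cont_ray {s₀ o : ℂ} (hs : 0 ≤ s₀.re) (hs0 : s₀ ≠ 0) (ho3 : o ^ 3 = 1) (ho : ‖o‖ = 1)
    (hre : ∀ s : ℂ, 0 ≤ s.re → (cs s * o).re ≤ 0) (him : ∀ s : ℂ, 0 ≤ s.re → (cs s * o).im ≠ 0) (b : ℂ) :
    Tendsto (fun s => ∫ ρ in Ioi (0:ℝ), exp (-(1 / s) * (hD (cs s * o * ρ) + b * (exp (cs s * o * ρ) - 1))))
      (𝓝[{s : ℂ | 0 < s.re}] s₀)
      (𝓝 (∫ ρ in Ioi (0:ℝ), exp (-(1 / s₀) * (hD (cs s₀ * o * ρ) + b * (exp (cs s₀ * o * ρ) - 1))))) := by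
  obtain ⟨C, hC1, hC⟩ := cv_cubic 0
  obtain ⟨M, hM⟩ : ∃ M : ℝ, M = ‖cs s₀‖ + 1 := ⟨_, rfl⟩
  have hM0 : 0 < M := by rw [hM]; positivity
  have hn0 : 0 < ‖s₀‖ := norm_pos_iff.2 hs0
  obtain ⟨E, hE⟩ : ∃ E : ℝ, E = Real.exp (‖b‖ * 2 / (‖s₀‖ / 2)) := ⟨_, rfl⟩
  have hE0 : 0 < E := by rw [hE]; exact Real.exp_pos _
  have hcs := cont_cs hs hs0
  have ev1 : ∀ᶠ s in 𝓝[{s : ℂ | 0 < s.re}] s₀, ‖cs s‖ < M := by
    apply eventually_nhdsWithin_of_eventually_nhds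
    have h1 : Tendsto (fun s => ‖cs s‖) (𝓝 s₀) (𝓝 ‖cs s₀‖) := hcs.norm
    exact h1.eventually_lt_const (by rw [hM]; linarith)
  have ev2 : ∀ᶠ s in 𝓝[{s : ℂ | 0 < s.re}] s₀, ‖s₀‖ / 2 < ‖s‖ := by
    apply eventually_nhdsWithin_of_eventually_nhds
    have h1 : Tendsto (fun s : ℂ => ‖s‖) (𝓝 s₀) (𝓝 ‖s₀‖) := continuous_norm.continuousAt
    exact h1.eventually_const_lt (by linarith)
  have hcont : ∀ s : ℂ, Continuous (fun ρ : ℝ => exp (-(1 / s) * (hD (cs s * o * ρ) + b * (exp (cs s * o * ρ) - 1)))) := by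
    intro s
    unfold hD
    fun_prop
  apply tendsto_integral_filter_of_dominated_convergence
    (bound := fun ρ => E * (C * Real.exp (-ρ) + Real.exp (-(1 / (2000 * M ^ 2)) * ρ)))
  · exact Eventually.of_forall fun s => (hcont s).aestronglyMeasurable
  · filter_upwards [ev1, ev2, self_mem_nhdsWithin] with s h1 h2 h3
    have h3' : 0 < s.re := h3
    have hs1 : s ≠ 0 := by rintro rfl; simp at h3'
    filter_upwards [ae_restrict_mem measurableSet_Ioi] with ρ hρ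
    have hρ' : 0 < ρ := hρ
    have hw3 : (cs s * o) ^ 3 = 2 * s := by rw [mul_pow, ho3, mul_one, cs_cube hs1]
    have h4 := cv_norm hw3 hs1 (hre s h3'.le) (him s h3'.le) hρ' b
    have hwn : ‖cs s * o‖ = ‖cs s‖ := by rw [norm_mul, ho, mul_one]
    rw [hwn] at h4
    have hcn : 0 < ‖cs s‖ := norm_pos_iff.2 (cs_ne s)
    have h5 : ‖exp (cs s * o * ρ) - 1‖ ≤ 2 := by
      calc ‖exp (cs s * o * ρ) - 1‖ ≤ ‖exp (cs s * o * ρ)‖ + ‖(1:ℂ)‖ := norm_sub_le _ _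
        _ ≤ 1 + 1 := by
          rw [Complex.norm_exp, norm_one]
          have : (cs s * o * (ρ:ℂ)).re ≤ 0 := by
            rw [Complex.re_mul_ofReal]
            exact mul_nonpos_of_nonpos_of_nonneg (hre s h3'.le) hρ'.le
          have := Real.exp_le_one_iff.2 this
          linarith
        _ = 2 := by norm_num
    have h6 : ‖b‖ * ‖exp (cs s * o * ρ) - 1‖ / ‖s‖ ≤ ‖b‖ * 2 / (‖s₀‖ / 2) := by
      apply div_le_div₀ (by positivity) _ (by linarith) h2.le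
      gcongr
    rw [Complex.norm_exp]
    have h7 : Real.exp (-(1 / 2000 * min (ρ ^ 3) (ρ / ‖cs s‖ ^ 2))) ≤
        C * Real.exp (-ρ) + Real.exp (-(1 / (2000 * M ^ 2)) * ρ) := by
      rcases le_total (ρ ^ 3) (ρ / ‖cs s‖ ^ 2) with h | h
      · rw [min_eq_left h]
        have h8 := hC ρ hρ'.le
        have e8 : -ρ ^ 3 / 2000 + 0 * ρ = -(1 / 2000 * ρ ^ 3) := by ring
        rw [e8] at h8
        have := Real.exp_pos (-(1 / (2000 * M ^ 2)) * ρ)
        linarith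
      · rw [min_eq_right h]
        have h8 : -(1 / 2000 * (ρ / ‖cs s‖ ^ 2)) ≤ -(1 / (2000 * M ^ 2)) * ρ := by
          have h9 : ρ / M ^ 2 ≤ ρ / ‖cs s‖ ^ 2 := by
            apply div_le_div_of_nonneg_left hρ'.le (by positivity)
            exact pow_le_pow_left₀ hcn.le h1.le 2
          have e9 : -(1 / (2000 * M ^ 2)) * ρ = -(1 / 2000 * (ρ / M ^ 2)) := by field_simp
          rw [e9]; linarith
        have h10 := Real.exp_le_exp.2 h8
        have := Real.exp_pos (-ρ)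
        nlinarith
    calc Real.exp _ ≤ Real.exp (-(1 / 2000 * min (ρ ^ 3) (ρ / ‖cs s‖ ^ 2)) + ‖b‖ * 2 / (‖s₀‖ / 2)) :=
          Real.exp_le_exp.2 (by linarith)
      _ = E * Real.exp (-(1 / 2000 * min (ρ ^ 3) (ρ / ‖cs s‖ ^ 2))) := by
          rw [Real.exp_add, hE]; ring
      _ ≤ _ := by gcongr
  · apply Integrable.const_mul
    apply Integrable.add
    · exact (integrableOn_exp_neg_Ioi 0).const_mul _
    · exact exp_neg_integrableOn_Ioi 0 (by positivity)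
  · apply Eventually.of_forall
    intro ρ
    apply tendsto_nhdsWithin_of_tendsto_nhds
    have h1 : ContinuousAt (fun s => exp (-(1 / s) * (hD (cs s * o * ρ) + b * (exp (cs s * o * ρ) - 1)))) s₀ := by
      apply ContinuousAt.cexp
      apply ContinuousAt.mul
      · exact (ContinuousAt.div continuousAt_const continuousAt_id hs0).neg
      · have h2 : ContinuousAt (fun s => cs s * o * ρ) s₀ := (hcs.mul_const o).mul_const _
        have h3 : Continuous (fun d : ℂ => hD d + b * (exp d - 1)) := by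
          unfold hD
          fun_prop
        exact h3.continuousAt.comp h2
    exact h1

theorem conj_om_cube : (starRingEnd ℂ om) ^ 3 = 1 := by
  rw [← map_pow, om_cube, map_one]

theorem norm_conj_om : ‖starRingEnd ℂ om‖ = 1 := by
  rw [Complex.norm_conj, norm_om]

/-- V2 -/
theorem V2 {s : ℂ} (hs : 0 ≤ s.re) (hs0 : s ≠ 0) (η : ℂ) :
    Ks s * exp ((exp η - 1) / s) * fS s η = PhiI s (exp η - 1) := by
  have hne : (𝓝[{s : ℂ | 0 < s.re}] s).NeBot := by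
    rw [← mem_closure_iff_nhdsWithin_neBot]
    rw [Complex.closure_setOfPred_lt_re]
    exact hs
  have hR : Tendsto (fun s => PhiI s (exp η - 1)) (𝓝[{s : ℂ | 0 < s.re}] s) (𝓝 (PhiI s (exp η - 1))) := by
    unfold PhiI
    apply Tendsto.const_mul
    apply Tendsto.sub
    · apply Tendsto.const_mul
      exact cont_ray hs hs0 om_cube norm_om (fun s hs => (re_ray hs).1) (fun s hs => (im_ray hs).1.ne') _
    · apply Tendsto.const_mul
      exact cont_ray hs hs0 conj_om_cube norm_conj_om (fun s hs => (re_ray hs).2)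
        (fun s hs => (im_ray hs).2.ne) _
  have hL : Tendsto (fun s => Ks s * exp ((exp η - 1) / s) * fS s η) (𝓝[{s : ℂ | 0 < s.re}] s)
      (𝓝 (Ks s * exp ((exp η - 1) / s) * fS s η)) := by
    apply Tendsto.mul
    · apply Tendsto.mul
      · exact (cont_Ks hs hs0).tendsto.mono_left nhdsWithin_le_nhds
      · have h1 : ContinuousAt (fun s : ℂ => exp ((exp η - 1) / s)) s := by
          apply ContinuousAt.cexp
          exact ContinuousAt.div continuousAt_const continuousAt_id hs0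
        exact h1.tendsto.mono_left nhdsWithin_le_nhds
    · have h1 := cont_fS hs hs0 η
      exact h1.tendsto.mono_left (nhdsWithin_mono _ (fun x (hx : 0 < x.re) => (le_of_lt hx : 0 ≤ x.re)))
  refine tendsto_nhds_unique hL (hR.congr' ?_)
  filter_upwards [self_mem_nhdsWithin] with x hx
  exact (V2_pos hx η).symm

end Sok.CV

namespace Sok

theorem PhiF_eq {s : ℂ} (hs : 0 ≤ s.re) (hs0 : s ≠ 0) (ζ : ℂ) :
    PhiF s ζ = PhiI s (exp (cs s ^ 2 / 2 * ζ) - 1) := by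
  unfold PhiF
  exact CV.V2 hs hs0 _

theorem PhiF_tendsto : TendstoLocallyUniformly PhiF Yf (𝓝[HP] 0) := by
  rw [Metric.tendstoLocallyUniformly_iff]
  intro ε hε x
  refine ⟨Metric.ball x 1, Metric.ball_mem_nhds x one_pos, ?_⟩
  obtain ⟨Z, hZ⟩ : ∃ Z : ℝ, Z = ‖x‖ + 1 := ⟨_, rfl⟩
  have hZ0 : 0 ≤ Z := by rw [hZ]; positivity
  obtain ⟨K, hK0, hK⟩ := CV.cv_ray_limit Z hZ0
  obtain ⟨δ, hδ0, hδ1, hδ2⟩ : ∃ δ : ℝ, 0 < δ ∧ δ ^ 2 * (2000 * (2 * Z + 1)) ≤ 1 ∧ 2 * K * δ < ε := by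
    have h1 : Tendsto (fun d : ℝ => d ^ 2 * (2000 * (2 * Z + 1))) (𝓝 0) (𝓝 0) := by
      have : Continuous (fun d : ℝ => d ^ 2 * (2000 * (2 * Z + 1))) := by fun_prop
      simpa using this.tendsto 0
    have h2 : Tendsto (fun d : ℝ => 2 * K * d) (𝓝 0) (𝓝 0) := by
      have : Continuous (fun d : ℝ => 2 * K * d) := by fun_prop
      simpa using this.tendsto 0
    have h3 := (h1.eventually_lt_const one_pos).and (h2.eventually_lt_const hε)
    rw [Metric.eventually_nhds_iff] at h3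
    obtain ⟨r, hr, h4⟩ := h3
    have h5 := h4 (y := r / 2) (by
      rw [Real.dist_eq, sub_zero, abs_of_pos (by positivity)]; linarith)
    exact ⟨r / 2, by positivity, h5.1.le, h5.2⟩
  have hev : ∀ᶠ s in 𝓝[HP] (0:ℂ), ‖s‖ < δ ^ 3 / 2 := by
    apply eventually_nhdsWithin_of_eventually_nhds
    have h1 : Tendsto (fun s : ℂ => ‖s‖) (𝓝 0) (𝓝 0) := by
      have := continuous_norm.tendsto (0:ℂ)
      simpa using this
    exact h1.eventually_lt_const (by positivity)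
  filter_upwards [hev, self_mem_nhdsWithin] with s hsn hsHP ζ hζ
  obtain ⟨hs, hs0⟩ : 0 ≤ s.re ∧ s ≠ 0 := hsHP
  have hζn : ‖ζ‖ ≤ Z := by
    have h1 : ‖ζ - x‖ < 1 := by simpa [dist_eq_norm] using hζ
    calc ‖ζ‖ = ‖x + (ζ - x)‖ := by ring_nf
      _ ≤ ‖x‖ + ‖ζ - x‖ := norm_add_le _ _
      _ ≤ Z := by rw [hZ]; linarith
  have hcn : ‖cs s‖ < δ := by
    have h1 := CV.norm_cs_cube hs0
    by_contra hcon
    push Not at hcon
    have h2 : δ ^ 3 ≤ ‖cs s‖ ^ 3 := pow_le_pow_left₀ hδ0.le hcon 3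
    linarith
  have hc2 : ‖cs s‖ ^ 2 * (2000 * (2 * Z + 1)) ≤ 1 := by
    refine le_trans ?_ hδ1
    have : ‖cs s‖ ^ 2 ≤ δ ^ 2 := pow_le_pow_left₀ (norm_nonneg _) hcn.le 2
    gcongr
  have k1 := hK s (cs s) om ζ hs0 (CV.cs_cube hs0) CV.om_cube CV.norm_om (CV.re_ray hs).1
    (CV.im_ray hs).1.ne' hc2 hζn
  have k2 := hK s (cs s) (starRingEnd ℂ om) ζ hs0 (CV.cs_cube hs0) CV.conj_om_cube CV.norm_conj_om
    (CV.re_ray hs).2 (CV.im_ray hs).2.ne hc2 hζn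
  rw [dist_comm, dist_eq_norm, PhiF_eq hs hs0]
  unfold PhiI Yf
  obtain ⟨A1, hA1⟩ : ∃ A1 : ℂ, A1 = ∫ ρ in Ioi (0:ℝ), exp (-(1 / s) * (hD (cs s * om * ρ) +
    (exp (cs s ^ 2 / 2 * ζ) - 1) * (exp (cs s * om * ρ) - 1))) := ⟨_, rfl⟩
  obtain ⟨A2, hA2⟩ : ∃ A2 : ℂ, A2 = ∫ ρ in Ioi (0:ℝ), exp (-(1 / s) * (hD (cs s * starRingEnd ℂ om * ρ) +
    (exp (cs s ^ 2 / 2 * ζ) - 1) * (exp (cs s * starRingEnd ℂ om * ρ) - 1))) := ⟨_, rfl⟩
  obtain ⟨B1, hB1⟩ : ∃ B1 : ℂ, B1 = ∫ ρ in Ioi (0:ℝ), exp (-((ρ:ℂ) ^ 3 / 3) - om * ρ * ζ) := ⟨_, rfl⟩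
  obtain ⟨B2, hB2⟩ : ∃ B2 : ℂ, B2 = ∫ ρ in Ioi (0:ℝ), exp (-((ρ:ℂ) ^ 3 / 3) - starRingEnd ℂ om * ρ * ζ) := ⟨_, rfl⟩
  rw [← hA1, ← hB1] at k1
  rw [← hA2, ← hB2] at k2
  rw [← hA1, ← hA2, ← hB1, ← hB2]
  have e1 : 1 / I * (om * A1 - starRingEnd ℂ om * A2) - 1 / I * (om * B1 - starRingEnd ℂ om * B2) =
      1 / I * (om * (A1 - B1) - starRingEnd ℂ om * (A2 - B2)) := by ring
  rw [e1, norm_mul]
  have hI : ‖(1:ℂ) / I‖ = 1 := by simp
  rw [hI, one_mul]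
  calc ‖om * (A1 - B1) - starRingEnd ℂ om * (A2 - B2)‖ ≤ ‖om * (A1 - B1)‖ + ‖starRingEnd ℂ om * (A2 - B2)‖ :=
        norm_sub_le _ _
    _ = ‖A1 - B1‖ + ‖A2 - B2‖ := by
        rw [norm_mul, norm_mul, CV.norm_om, CV.norm_conj_om, one_mul, one_mul]
    _ ≤ K * ‖cs s‖ + K * ‖cs s‖ := add_le_add k1 k2
    _ ≤ 2 * K * δ := by nlinarith
    _ < ε := hδ2

end Sok
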