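import Pool.Agent.Lib.MP_816dec_an.CN2
import Pool.Agent.Lib.MP_816dec_an.CV5

/-!
MP_816dec_an, part C: claim (5.2), strong frames near q = 1.
-/

open Complex Set Filter Topology MeasureTheory

namespace Sok

/-- claim (5.2): for every N, near q = 1 (|q| ≤ 1, q ≠ 1) there is a strong frame of N zeros -/
theorem near_one_final (N : ℕ) :
    ∃ ε > 0, ∀ q : ℂ, ‖q‖ ≤ 1 → q ≠ 1 → ‖q - 1‖ < ε → Strong q N :=
  near_one_Yf PhiF_tendsto N

end Sok
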