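import Mathlib

/-!
MP_816dec_an: bounds for `∫ exp (-x cosh y) cos (ν y) dy`.
-/

set_option autoImplicit false

open Complex Set Filter Topology MeasureTheory

namespace Sok

/-- `2 K_{iν}(x)` -/
noncomputable def KK' (x ν : ℝ) : ℝ := ∫ y : ℝ, Real.exp (-x * Real.cosh y) * Real.cos (ν * y)

theorem cosh_ge (y : ℝ) : 1 + y ^ 2 / 2 ≤ Real.cosh y := by
  have h1 : Real.cosh y = 1 + 2 * Real.sinh (y / 2) ^ 2 := by
    have h2 := Real.cosh_two_mul (y / 2)
    have h3 := Real.cosh_sq (y / 2)
    rw [show 2 * (y / 2) = y by ring] at h2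
    linarith
  have h4 : (y / 2) ^ 2 ≤ Real.sinh (y / 2) ^ 2 := by
    rw [← sq_abs (y / 2), ← sq_abs (Real.sinh (y / 2)), Real.abs_sinh]
    exact pow_le_pow_left₀ (abs_nonneg _) (Real.self_le_sinh_iff.mpr (abs_nonneg _)) 2
  rw [h1]
  nlinarith

theorem exp_cosh_le {x : ℝ} (hx : 0 < x) (y : ℝ) :
    Real.exp (-x * Real.cosh y) ≤ Real.exp (-x) * Real.exp (-(x / 2) * y ^ 2) := by
  rw [← Real.exp_add]
  apply Real.exp_le_exp.mpr
  have := mul_le_mul_of_nonneg_left (cosh_ge y) hx.le
  linarith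

theorem integrable_exp_cosh {x : ℝ} (hx : 0 < x) :
    Integrable (fun y : ℝ => Real.exp (-x * Real.cosh y)) := by
  have h1 : Integrable (fun y : ℝ => Real.exp (-x) * Real.exp (-(x / 2) * y ^ 2)) :=
    (integrable_exp_neg_mul_sq (by linarith)).const_mul _
  refine h1.mono' ?_ ?_
  · exact (by fun_prop : Continuous fun y : ℝ => Real.exp (-x * Real.cosh y)).aestronglyMeasurable
  · exact Filter.Eventually.of_forall fun y => by
      rw [Real.norm_eq_abs, abs_of_pos (Real.exp_pos _)]
      exact exp_cosh_le hx y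

theorem integral_exp_cosh_le {x : ℝ} (hx : 0 < x) :
    ∫ y : ℝ, Real.exp (-x * Real.cosh y) ≤ Real.exp (-x) * Real.sqrt (2 * Real.pi / x) := by
  have h1 : Integrable (fun y : ℝ => Real.exp (-x) * Real.exp (-(x / 2) * y ^ 2)) :=
    (integrable_exp_neg_mul_sq (by linarith)).const_mul _
  calc ∫ y : ℝ, Real.exp (-x * Real.cosh y)
      ≤ ∫ y : ℝ, Real.exp (-x) * Real.exp (-(x / 2) * y ^ 2) :=
        integral_mono (integrable_exp_cosh hx) h1 fun y => exp_cosh_le hx y
    _ = Real.exp (-x) * Real.sqrt (2 * Real.pi / x) := by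
        rw [integral_const_mul, integral_gaussian]
        congr 2
        field_simp

/-- the shifted integrand -/
noncomputable def gKt (x ν a y : ℝ) : ℂ :=
  cexp (-x * Complex.cosh (y + a * I) + I * ν * (y + a * I))

theorem norm_gK (x ν a y : ℝ) :
    ‖gKt x ν a y‖ = Real.exp (-ν * a) * Real.exp (-(x * Real.cos a) * Real.cosh y) := by
  unfold gKt
  rw [Complex.norm_exp, ← Real.exp_add]
  congr 1
  have h1 : (Complex.cosh (y + a * I)).re = Real.cosh y * Real.cos a := by
    rw [Complex.cosh_add, Complex.cosh_mul_I, Complex.sinh_mul_I]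
    simp [← Complex.ofReal_cosh, ← Complex.ofReal_cos, ← Complex.ofReal_sinh, ← Complex.ofReal_sin]
  simp only [Complex.add_re, Complex.mul_re, Complex.neg_re, Complex.ofReal_re, Complex.neg_im,
    Complex.ofReal_im, Complex.I_re, Complex.I_im, Complex.add_im, Complex.mul_im, h1]
  ring

theorem hasDerivAt_gK_y (x ν a y : ℝ) :
    HasDerivAt (fun y : ℝ => gKt x ν a y)
      ((-x * Complex.sinh (y + a * I) + I * ν) * gKt x ν a y) y := by
  unfold gKt
  have h0 : HasDerivAt (fun y : ℝ => ((y : ℂ) + a * I)) 1 y := by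
    simpa using (Complex.ofRealCLM.hasDerivAt (x := y)).add_const ((a : ℂ) * I)
  have h1 : HasDerivAt (fun y : ℝ => -(x : ℂ) * Complex.cosh (y + a * I) + I * ν * (y + a * I))
      (-(x : ℂ) * (Complex.sinh (y + a * I) * 1) + I * ν * 1) y :=
    (((Complex.hasDerivAt_cosh _).comp y h0).const_mul _).add (h0.const_mul _)
  have h2 := h1.cexp
  refine h2.congr_deriv ?_
  ring

theorem hasDerivAt_gK_a (x ν a y : ℝ) :
    HasDerivAt (fun a : ℝ => gKt x ν a y)
      (I * ((-x * Complex.sinh (y + a * I) + I * ν) * gKt x ν a y)) a := by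
  unfold gKt
  have h0 : HasDerivAt (fun a : ℝ => ((y : ℂ) + a * I)) I a := by
    have := ((Complex.ofRealCLM.hasDerivAt (x := a)).mul_const I).const_add (y : ℂ)
    simpa using this
  have h1 : HasDerivAt (fun a : ℝ => -(x : ℂ) * Complex.cosh (y + a * I) + I * ν * (y + a * I))
      (-(x : ℂ) * (Complex.sinh (y + a * I) * I) + I * ν * I) a :=
    (((Complex.hasDerivAt_cosh _).comp a h0).const_mul _).add (h0.const_mul _)
  have h2 := h1.cexp
  refine h2.congr_deriv ?_
  ring

/-- derivative factor -/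
noncomputable def gKt' (x ν a y : ℝ) : ℂ :=
  (-x * Complex.sinh (y + a * I) + I * ν) * gKt x ν a y

theorem norm_sinh_le (a y : ℝ) : ‖Complex.sinh (y + a * I)‖ ≤ Real.cosh y := by
  have h1 : Complex.sinh (y + a * I) =
      ((Real.sinh y * Real.cos a : ℝ) : ℂ) + ((Real.cosh y * Real.sin a : ℝ) : ℂ) * I := by
    rw [Complex.sinh_add, Complex.cosh_mul_I, Complex.sinh_mul_I]
    push_cast
    ring
  rw [h1, Complex.norm_add_mul_I]
  apply Real.sqrt_le_iff.mpr
  refine ⟨(Real.cosh_pos y).le, ?_⟩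
  have h2 := Real.cosh_sq y
  have h3 := Real.sin_sq_add_cos_sq a
  have h4 : Real.cos a ^ 2 ≤ 1 := by nlinarith [sq_nonneg (Real.sin a)]
  have h5 : 0 ≤ Real.sinh y ^ 2 := sq_nonneg _
  nlinarith [sq_nonneg (Real.sin a)]

theorem norm_gK'_le {x ν a y c : ℝ} (hx : 0 < x) (hc : 0 < c) (hca : c ≤ x * Real.cos a)
    (ha : |a| ≤ 2) :
    ‖gKt' x ν a y‖ ≤ (2 * x / c + |ν|) * Real.exp (2 * |ν|) * Real.exp (-(c / 2) * Real.cosh y) := by
  have h0 := Real.cosh_pos y
  have h1 : ‖(-x * Complex.sinh (y + a * I) + I * ν : ℂ)‖ ≤ x * Real.cosh y + |ν| := by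
    refine (norm_add_le _ _).trans ?_
    have e1 : ‖(-x * Complex.sinh (y + a * I) : ℂ)‖ ≤ x * Real.cosh y := by
      rw [norm_mul, norm_neg, Complex.norm_real, Real.norm_eq_abs, abs_of_pos hx]
      exact mul_le_mul_of_nonneg_left (norm_sinh_le a y) hx.le
    have e2 : ‖(I * ν : ℂ)‖ = |ν| := by
      rw [norm_mul, Complex.norm_I, one_mul, Complex.norm_real, Real.norm_eq_abs]
    rw [e2]
    linarith
  have h2 : x * Real.cosh y + |ν| ≤ (2 * x / c + |ν|) * Real.exp (c / 2 * Real.cosh y) := by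
    have e1 : c / 2 * Real.cosh y + 1 ≤ Real.exp (c / 2 * Real.cosh y) := Real.add_one_le_exp _
    have e2 : 0 ≤ c / 2 * Real.cosh y := by positivity
    have e3 : x * Real.cosh y = 2 * x / c * (c / 2 * Real.cosh y) := by
      field_simp
    have e4 : 0 ≤ 2 * x / c := by positivity
    have e5 : 2 * x / c * (c / 2 * Real.cosh y) ≤ 2 * x / c * Real.exp (c / 2 * Real.cosh y) :=
      mul_le_mul_of_nonneg_left (by linarith) e4
    have e6 : |ν| * 1 ≤ |ν| * Real.exp (c / 2 * Real.cosh y) :=
      mul_le_mul_of_nonneg_left (by linarith) (abs_nonneg _)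
    rw [e3]
    linarith
  have h3 : Real.exp (-ν * a) ≤ Real.exp (2 * |ν|) := by
    apply Real.exp_le_exp.mpr
    calc -ν * a ≤ |(-ν) * a| := le_abs_self _
      _ = |ν| * |a| := by rw [abs_mul, abs_neg]
      _ ≤ |ν| * 2 := mul_le_mul_of_nonneg_left ha (abs_nonneg _)
      _ = 2 * |ν| := by ring
  have h4 : Real.exp (-(x * Real.cos a) * Real.cosh y) ≤ Real.exp (-c * Real.cosh y) := by
    apply Real.exp_le_exp.mpr
    have := mul_le_mul_of_nonneg_right hca h0.le
    linarith
  unfold gKt'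
  rw [norm_mul, norm_gK]
  calc ‖(-x * Complex.sinh (y + a * I) + I * ν : ℂ)‖ *
        (Real.exp (-ν * a) * Real.exp (-(x * Real.cos a) * Real.cosh y))
      ≤ ((2 * x / c + |ν|) * Real.exp (c / 2 * Real.cosh y)) *
        (Real.exp (2 * |ν|) * Real.exp (-c * Real.cosh y)) := by
        refine mul_le_mul (h1.trans h2) (mul_le_mul h3 h4 (Real.exp_pos _).le (Real.exp_pos _).le)
          (by positivity) (by positivity)
    _ = (2 * x / c + |ν|) * Real.exp (2 * |ν|) * Real.exp (-(c / 2) * Real.cosh y) := by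
        have : Real.exp (c / 2 * Real.cosh y) * Real.exp (-c * Real.cosh y) =
            Real.exp (-(c / 2) * Real.cosh y) := by
          rw [← Real.exp_add]
          congr 1
          ring
        rw [← this]
        ring

theorem integrable_gK {x ν a : ℝ} (hxa : 0 < x * Real.cos a) : Integrable (fun y => gKt x ν a y) := by
  refine ((integrable_exp_cosh hxa).const_mul (Real.exp (-ν * a))).mono' ?_ ?_
  · have : Continuous fun y => gKt x ν a y := by
      unfold gKt
      fun_prop
    exact this.aestronglyMeasurable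
  · exact Filter.Eventually.of_forall fun y => by rw [norm_gK]

theorem continuous_gK' (x ν a : ℝ) : Continuous fun y => gKt' x ν a y := by
  unfold gKt' gKt
  fun_prop

theorem hasDerivAt_int_gK {x ν a : ℝ} (hx : 0 < x) (ha0 : -(Real.pi / 2) < a)
    (ha1 : a < Real.pi / 2) : HasDerivAt (fun a => ∫ y, gKt x ν a y) 0 a := by
  have hcos : 0 < Real.cos a := Real.cos_pos_of_mem_Ioo ⟨ha0, ha1⟩
  set c : ℝ := x * Real.cos a / 2 with hc
  have hc0 : 0 < c := by positivity
  have hpi : Real.pi < 4 := by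
    have := Real.pi_lt_d2
    linarith
  have hs : {b : ℝ | c < x * Real.cos b ∧ |b| < 2} ∈ 𝓝 a := by
    have h1 : Continuous fun b : ℝ => x * Real.cos b := by fun_prop
    have h2 : Continuous fun b : ℝ => |b| := by fun_prop
    refine (h1.continuousAt.eventually (lt_mem_nhds ?_)).and
      (h2.continuousAt.eventually (gt_mem_nhds ?_))
    · rw [hc]
      have : 0 < x * Real.cos a := by positivity
      linarith
    · rw [abs_lt]
      constructor <;> linarith
  have hbd : Integrable (fun y : ℝ =>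
      (2 * x / c + |ν|) * Real.exp (2 * |ν|) * Real.exp (-(c / 2) * Real.cosh y)) :=
    (integrable_exp_cosh (by linarith : 0 < c / 2)).const_mul _
  have key := hasDerivAt_integral_of_dominated_loc_of_deriv_le (μ := volume)
    (F := fun a y => gKt x ν a y) (F' := fun a y => I * gKt' x ν a y) (x₀ := a) (s := _)
    (bound := fun y => (2 * x / c + |ν|) * Real.exp (2 * |ν|) * Real.exp (-(c / 2) * Real.cosh y))
    hs ?_ ?_ ?_ ?_ hbd ?_
  · have h1 := key.2
    have h2 : ∫ y, I * gKt' x ν a y = 0 := by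
      rw [integral_const_mul]
      have h3 : ∫ y, gKt' x ν a y = 0 := by
        refine integral_eq_zero_of_hasDerivAt_of_integrable
          (fun y => hasDerivAt_gK_y x ν a y) ?_ (integrable_gK (by positivity))
        refine hbd.mono' (continuous_gK' x ν a).aestronglyMeasurable ?_
        exact Filter.Eventually.of_forall fun y => norm_gK'_le hx hc0
          (by rw [hc]; have : 0 < x * Real.cos a := by positivity
              linarith) (by rw [abs_le]; constructor <;> linarith)
      rw [h3, mul_zero]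
    rw [h2] at h1
    exact h1
  · refine Filter.Eventually.of_forall fun b => ?_
    have : Continuous fun y => gKt x ν b y := by
      unfold gKt
      fun_prop
    exact this.aestronglyMeasurable
  · exact integrable_gK (by positivity)
  · exact (continuous_const.mul (continuous_gK' x ν a)).aestronglyMeasurable
  · refine Filter.Eventually.of_forall fun y b hb => ?_
    rw [norm_mul, Complex.norm_I, one_mul]
    exact norm_gK'_le hx hc0 hb.1.le hb.2.le
  · exact Filter.Eventually.of_forall fun y b _ => hasDerivAt_gK_a x ν b y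

theorem int_gK_eq {x ν a : ℝ} (hx : 0 < x) (ha0 : 0 ≤ a) (ha1 : a < Real.pi / 2) :
    ∫ y, gKt x ν a y = ∫ y, gKt x ν 0 y := by
  have hpi := Real.pi_pos
  have h1 : ∀ b ∈ Icc (0 : ℝ) a, HasDerivAt (fun a => ∫ y, gKt x ν a y) 0 b := fun b hb =>
    hasDerivAt_int_gK hx (by linarith [hb.1]) (by linarith [hb.2])
  have h2 : ContinuousOn (fun a => ∫ y, gKt x ν a y) (Icc 0 a) := fun b hb =>
    (h1 b hb).continuousAt.continuousWithinAt
  exact constant_of_has_deriv_right_zero h2
    (fun b hb => (h1 b ⟨hb.1, hb.2.le⟩).hasDerivWithinAt) a ⟨ha0, le_rfl⟩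

theorem KK'_eq {x ν : ℝ} (hx : 0 < x) : KK' x ν = (∫ y, gKt x ν 0 y).re := by
  have h0 : 0 < x * Real.cos 0 := by simpa using hx
  have h1 : ∀ y : ℝ, Real.exp (-x * Real.cosh y) * Real.cos (ν * y) = (gKt x ν 0 y).re := by
    intro y
    unfold gKt
    rw [Complex.exp_re]
    congr 1
    · congr 1
      simp [← Complex.ofReal_cosh]
    · congr 1
      simp [← Complex.ofReal_cosh]
  unfold KK'
  rw [← RCLike.re_eq_complex_re, ← integral_re (integrable_gK h0)]
  exact integral_congr_ae (Filter.Eventually.of_forall fun y => h1 y)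

/-- upper bound with a shift -/
theorem abs_KK'_le {x ν a : ℝ} (hx : 0 < x) (ha0 : 0 ≤ a) (ha1 : a < Real.pi / 2) :
    |KK' x ν| ≤ Real.exp (-ν * a) * (Real.exp (-(x * Real.cos a)) *
      Real.sqrt (2 * Real.pi / (x * Real.cos a))) := by
  have hcos : 0 < Real.cos a := Real.cos_pos_of_mem_Ioo ⟨by linarith [Real.pi_pos], ha1⟩
  have hxa : 0 < x * Real.cos a := by positivity
  rw [KK'_eq hx, ← int_gK_eq hx ha0 ha1]
  calc |(∫ y, gKt x ν a y).re| ≤ ‖∫ y, gKt x ν a y‖ := Complex.abs_re_le_norm _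
    _ ≤ ∫ y, ‖gKt x ν a y‖ := norm_integral_le_integral_norm _
    _ = ∫ y, Real.exp (-ν * a) * Real.exp (-(x * Real.cos a) * Real.cosh y) := by
        simp_rw [norm_gK]
    _ = Real.exp (-ν * a) * ∫ y, Real.exp (-(x * Real.cos a) * Real.cosh y) :=
        integral_const_mul _ _
    _ ≤ _ := mul_le_mul_of_nonneg_left (integral_exp_cosh_le hxa) (Real.exp_pos _).le

end Sok
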