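import Pool.Agent.Lib.MP_816dec_an.CTail1
import Pool.Agent.Lib.MP_816dec_an.CKer

/-!
MP_816dec_an: bounds for `KK x ν = ∫ exp (-x cosh y) cos (ν y) dy`.
-/

set_option autoImplicit false

open Complex Set Filter Topology MeasureTheory

namespace Sok

theorem KK_eq_KK' (x ν : ℝ) : KK x ν = KK' x ν := by
  unfold KK KK'
  simp only [neg_mul]

theorem integrable_exp_cosh' {x : ℝ} (hx : 0 < x) :
    Integrable (fun y : ℝ => Real.exp (-(x * Real.cosh y))) := by
  have := integrable_exp_cosh hx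
  simpa only [neg_mul] using this

theorem integrable_KK {x : ℝ} (hx : 0 < x) (ν : ℝ) :
    Integrable (fun y : ℝ => Real.exp (-(x * Real.cosh y)) * Real.cos (ν * y)) := by
  refine (integrable_exp_cosh' hx).mono' ?_ ?_
  · exact (by fun_prop : Continuous fun y : ℝ =>
      Real.exp (-(x * Real.cosh y)) * Real.cos (ν * y)).aestronglyMeasurable
  · refine Filter.Eventually.of_forall fun y => ?_
    rw [norm_mul, Real.norm_eq_abs, Real.norm_eq_abs, abs_of_pos (Real.exp_pos _)]
    exact mul_le_of_le_one_right (Real.exp_pos _).le (Real.abs_cos_le_one _)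

theorem KK_zero_le {x : ℝ} (hx : 0 < x) :
    KK x 0 ≤ Real.exp (-x) * Real.sqrt (2 * Real.pi / x) := by
  rw [KK_zero]
  have := integral_exp_cosh_le hx
  simpa only [neg_mul] using this

theorem abs_KK_shift {x ν a : ℝ} (hx : 0 < x) (ha0 : 0 ≤ a) (ha1 : a < Real.pi / 2) :
    |KK x ν| ≤ Real.exp (-ν * a) * (Real.exp (-(x * Real.cos a)) *
      Real.sqrt (2 * Real.pi / (x * Real.cos a))) := by
  rw [KK_eq_KK']
  exact abs_KK'_le hx ha0 ha1

theorem KK_nonneg_zero (x : ℝ) : 0 ≤ KK x 0 := by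
  rw [KK_zero]
  exact integral_nonneg fun y => (Real.exp_pos _).le

/-- `∫ y sinh y x exp (-x cosh y) = ∫ exp (-x cosh y)` -/
theorem moment_KK {x : ℝ} (hx : 0 < x) :
    Integrable (fun y : ℝ => y ^ 2 * Real.exp (-(x * Real.cosh y))) ∧
    ∫ y : ℝ, y ^ 2 * Real.exp (-(x * Real.cosh y)) ≤ (1 / x) * KK x 0 := by
  have hcosh : ∀ y : ℝ, y ^ 2 ≤ 2 * Real.cosh y := fun y => by
    have := cosh_ge y
    linarith
  -- domination of `cosh * exp`
  have hdom : ∀ y : ℝ, Real.cosh y ^ 2 * Real.exp (-(x * Real.cosh y)) ≤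
      (16 / x ^ 2) * Real.exp (-(x / 2 * Real.cosh y)) := by
    intro y
    have h0 := Real.cosh_pos y
    have h1 : x / 4 * Real.cosh y ≤ Real.exp (x / 4 * Real.cosh y) := by
      have := Real.add_one_le_exp (x / 4 * Real.cosh y)
      linarith
    have h2 : (x / 4 * Real.cosh y) ^ 2 ≤ Real.exp (x / 4 * Real.cosh y) ^ 2 :=
      pow_le_pow_left₀ (by positivity) h1 2
    have h3 : Real.exp (x / 4 * Real.cosh y) ^ 2 * Real.exp (-(x * Real.cosh y)) =
        Real.exp (-(x / 2 * Real.cosh y)) := by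
      rw [← Real.exp_nat_mul, ← Real.exp_add]
      congr 1
      push_cast
      ring
    rw [← h3]
    have h4 : Real.cosh y ^ 2 = 16 / x ^ 2 * (x / 4 * Real.cosh y) ^ 2 := by
      field_simp
      norm_num
    rw [h4, mul_assoc]
    exact mul_le_mul_of_nonneg_left (mul_le_mul_of_nonneg_right h2 (Real.exp_pos _).le)
      (by positivity)
  have hI : Integrable (fun y : ℝ => (16 / x ^ 2) * Real.exp (-(x / 2 * Real.cosh y))) :=
    (integrable_exp_cosh' (by linarith : 0 < x / 2)).const_mul _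
  have hc1 : ∀ y : ℝ, 1 ≤ Real.cosh y := Real.one_le_cosh
  have hys : ∀ y : ℝ, |y * Real.sinh y| ≤ 2 * Real.cosh y ^ 2 := by
    intro y
    have h0 := hc1 y
    have h1 : |y| ≤ 2 * Real.cosh y := by
      have h2 := cosh_ge y
      have h3 : |y| ≤ 1 + y ^ 2 := by
        rcases abs_cases y with ⟨h, _⟩ | ⟨h, _⟩ <;> rw [h] <;> nlinarith [sq_nonneg (y - 1), sq_nonneg (y + 1), sq_nonneg y]
      linarith
    have h4 : |Real.sinh y| ≤ Real.cosh y := by
      have := Real.cosh_sq y
      apply abs_le_of_sq_le_sq _ (by linarith)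
      linarith
    rw [abs_mul]
    calc |y| * |Real.sinh y| ≤ (2 * Real.cosh y) * Real.cosh y :=
          mul_le_mul h1 h4 (abs_nonneg _) (by linarith)
      _ = 2 * Real.cosh y ^ 2 := by ring
  have hint2 : Integrable (fun y : ℝ => y ^ 2 * Real.exp (-(x * Real.cosh y))) := by
    refine (hI.const_mul 2).mono' ?_ ?_
    · exact (by fun_prop : Continuous fun y : ℝ =>
        y ^ 2 * Real.exp (-(x * Real.cosh y))).aestronglyMeasurable
    · refine Filter.Eventually.of_forall fun y => ?_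
      rw [Real.norm_eq_abs, abs_of_nonneg (by positivity)]
      have h1 : y ^ 2 ≤ 2 * Real.cosh y ^ 2 := by
        have := hcosh y
        have := hc1 y
        nlinarith
      have h2 := hdom y
      have h3 := mul_le_mul_of_nonneg_right h1 (Real.exp_pos (-(x * Real.cosh y))).le
      linarith
  have hintys : Integrable (fun y : ℝ => y * Real.sinh y * Real.exp (-(x * Real.cosh y))) := by
    refine (hI.const_mul 2).mono' ?_ ?_
    · exact (by fun_prop : Continuous fun y : ℝ =>
        y * Real.sinh y * Real.exp (-(x * Real.cosh y))).aestronglyMeasurable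
    · refine Filter.Eventually.of_forall fun y => ?_
      rw [Real.norm_eq_abs, abs_mul, abs_of_pos (Real.exp_pos _)]
      have h2 := hdom y
      have h3 := mul_le_mul_of_nonneg_right (hys y) (Real.exp_pos (-(x * Real.cosh y))).le
      linarith
  have hinty : Integrable (fun y : ℝ => y * Real.exp (-(x * Real.cosh y))) := by
    refine (hI.const_mul 2).mono' ?_ ?_
    · exact (by fun_prop : Continuous fun y : ℝ =>
        y * Real.exp (-(x * Real.cosh y))).aestronglyMeasurable
    · refine Filter.Eventually.of_forall fun y => ?_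
      rw [Real.norm_eq_abs, abs_mul, abs_of_pos (Real.exp_pos _)]
      have h0 := hc1 y
      have h1 : |y| ≤ 2 * Real.cosh y ^ 2 := by
        have h2 := cosh_ge y
        have h3 : |y| ≤ 1 + y ^ 2 := by
          rcases abs_cases y with ⟨h, _⟩ | ⟨h, _⟩ <;> rw [h] <;> nlinarith [sq_nonneg (y - 1), sq_nonneg (y + 1), sq_nonneg y]
        nlinarith
      have h2 := hdom y
      have h3 := mul_le_mul_of_nonneg_right h1 (Real.exp_pos (-(x * Real.cosh y))).le
      linarith
  refine ⟨hint2, ?_⟩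
  have hder : ∀ y : ℝ, HasDerivAt (fun y : ℝ => y * Real.exp (-(x * Real.cosh y)))
      (Real.exp (-(x * Real.cosh y)) - x * (y * Real.sinh y * Real.exp (-(x * Real.cosh y)))) y := by
    intro y
    have h1 : HasDerivAt (fun y : ℝ => Real.exp (-(x * Real.cosh y)))
        (Real.exp (-(x * Real.cosh y)) * -(x * Real.sinh y)) y :=
      (((Real.hasDerivAt_cosh y).const_mul x).neg).exp
    have h2 := (hasDerivAt_id y).mul h1
    refine h2.congr_deriv ?_
    simp only [id]
    ring
  have h1 := integral_eq_zero_of_hasDerivAt_of_integrable hder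
    ((integrable_exp_cosh' hx).sub (hintys.const_mul x)) hinty
  rw [integral_sub (integrable_exp_cosh' hx) (hintys.const_mul x), integral_const_mul] at h1
  have h2 : ∫ y : ℝ, y ^ 2 * Real.exp (-(x * Real.cosh y)) ≤
      ∫ y : ℝ, y * Real.sinh y * Real.exp (-(x * Real.cosh y)) := by
    refine integral_mono hint2 hintys fun y => ?_
    refine mul_le_mul_of_nonneg_right ?_ (Real.exp_pos _).le
    rcases le_total 0 y with h | h
    · nlinarith [Real.self_le_sinh_iff.mpr h]
    · nlinarith [Real.sinh_le_self_iff.mpr h]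
  rw [KK_zero]
  have h3 : ∫ y : ℝ, y * Real.sinh y * Real.exp (-(x * Real.cosh y)) =
      1 / x * ∫ y : ℝ, Real.exp (-(x * Real.cosh y)) := by
    have hx' : x ≠ 0 := hx.ne'
    rw [sub_eq_zero] at h1
    rw [h1]
    field_simp
  linarith

theorem KK_ge_mul {x : ℝ} (hx : 0 < x) (ν : ℝ) : (1 - ν ^ 2 / (2 * x)) * KK x 0 ≤ KK x ν := by
  obtain ⟨h1, h2⟩ := moment_KK hx
  have h3 : ∫ y : ℝ, (Real.exp (-(x * Real.cosh y)) -
      ν ^ 2 / 2 * (y ^ 2 * Real.exp (-(x * Real.cosh y)))) ≤ KK x ν := by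
    unfold KK
    refine integral_mono ((integrable_exp_cosh' hx).sub (h1.const_mul _)) (integrable_KK hx ν)
      fun y => ?_
    show Real.exp (-(x * Real.cosh y)) - ν ^ 2 / 2 * (y ^ 2 * Real.exp (-(x * Real.cosh y))) ≤
      Real.exp (-(x * Real.cosh y)) * Real.cos (ν * y)
    have h4 := Real.one_sub_sq_div_two_le_cos (x := ν * y)
    have h5 := mul_le_mul_of_nonneg_left h4 (Real.exp_pos (-(x * Real.cosh y))).le
    nlinarith
  rw [integral_sub (integrable_exp_cosh' hx) (h1.const_mul _), integral_const_mul, ← KK_zero] at h3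
  have h4 : ν ^ 2 / 2 * ∫ y : ℝ, y ^ 2 * Real.exp (-(x * Real.cosh y)) ≤
      ν ^ 2 / 2 * (1 / x * KK x 0) := mul_le_mul_of_nonneg_left h2 (by positivity)
  have h5 : ν ^ 2 / 2 * (1 / x * KK x 0) = ν ^ 2 / (2 * x) * KK x 0 := by
    field_simp
  rw [h5] at h4
  linarith

/-- lower bound of `K_0` -/
theorem KK_zero_ge {x : ℝ} (hx : 20 ≤ x) :
    0.87 * (Real.exp (-x) * Real.sqrt (2 * Real.pi / x)) ≤ KK x 0 := by
  have hx0 : 0 < x := by linarith
  set c : ℝ := 0.65 * x with hc
  have hc0 : 0 < c := by positivity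
  -- pointwise bound
  have hpt : ∀ y : ℝ, Real.exp (-x) * (Real.exp (-c * y ^ 2) - Real.exp (-(c / 2)) * Real.exp (-(c / 2) * y ^ 2)) ≤
      Real.exp (-(x * Real.cosh y)) := by
    intro y
    rcases le_total (y ^ 2) 1 with h | h
    · have h1 : Real.cosh y ≤ 1 + 0.65 * y ^ 2 := by
        refine (Real.cosh_le_exp_half_sq y).trans ?_
        have h2 : y ^ 2 / 2 ≤ 1 / 2 := by linarith
        have h3 : 0 ≤ y ^ 2 / 2 := by positivity
        have h4 := Real.exp_bound' h3 (by linarith) (n := 4) (by norm_num)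
        simp only [Finset.sum_range_succ, Finset.sum_range_zero, Nat.factorial] at h4
        norm_num at h4
        have h5 : (y ^ 2 / 2) ^ 2 ≤ (1 / 2) * (y ^ 2 / 2) := by nlinarith
        have h6 : (y ^ 2 / 2) ^ 3 ≤ (1 / 4) * (y ^ 2 / 2) := by nlinarith
        have h7 : (y ^ 2 / 2) ^ 4 ≤ (1 / 8) * (y ^ 2 / 2) := by nlinarith
        linarith
      have h2 : Real.exp (-x) * Real.exp (-c * y ^ 2) ≤ Real.exp (-(x * Real.cosh y)) := by
        rw [← Real.exp_add]
        apply Real.exp_le_exp.mpr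
        have := mul_le_mul_of_nonneg_left h1 hx0.le
        rw [hc]
        nlinarith
      have h3 : 0 ≤ Real.exp (-x) * (Real.exp (-(c / 2)) * Real.exp (-(c / 2) * y ^ 2)) := by
        positivity
      rw [mul_sub]
      linarith
    · have h1 : Real.exp (-c * y ^ 2) ≤ Real.exp (-(c / 2)) * Real.exp (-(c / 2) * y ^ 2) := by
        rw [← Real.exp_add]
        apply Real.exp_le_exp.mpr
        nlinarith
      have h2 : Real.exp (-x) * (Real.exp (-c * y ^ 2) -
          Real.exp (-(c / 2)) * Real.exp (-(c / 2) * y ^ 2)) ≤ 0 :=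
        mul_nonpos_of_nonneg_of_nonpos (Real.exp_pos _).le (by linarith)
      exact h2.trans (Real.exp_pos _).le
  have hi1 : Integrable (fun y : ℝ => Real.exp (-c * y ^ 2)) := integrable_exp_neg_mul_sq hc0
  have hi2 : Integrable (fun y : ℝ => Real.exp (-(c / 2)) * Real.exp (-(c / 2) * y ^ 2)) :=
    (integrable_exp_neg_mul_sq (by linarith)).const_mul _
  have h1 := integral_mono ((hi1.sub hi2).const_mul (Real.exp (-x))) (integrable_exp_cosh' hx0) hpt
  have h2 : ∫ y : ℝ, Real.exp (-x) * ((fun y : ℝ => Real.exp (-c * y ^ 2)) y -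
      (fun y : ℝ => Real.exp (-(c / 2)) * Real.exp (-(c / 2) * y ^ 2)) y) =
      Real.exp (-x) * (Real.sqrt (Real.pi / c) -
        Real.exp (-(c / 2)) * Real.sqrt (Real.pi / (c / 2))) := by
    rw [integral_const_mul, integral_sub hi1 hi2, integral_const_mul, integral_gaussian,
      integral_gaussian]
  rw [KK_zero]
  refine le_trans ?_ h1
  have h2' : ∫ y : ℝ, Real.exp (-x) * ((fun y : ℝ => Real.exp (-c * y ^ 2)) y -
      (fun y : ℝ => Real.exp (-(c / 2)) * Real.exp (-(c / 2) * y ^ 2)) y) =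
      ∫ y : ℝ, Real.exp (-x) * (Real.exp (-c * y ^ 2) - Real.exp (-(c / 2)) * Real.exp (-(c / 2) * y ^ 2)) := rfl
  have h3 : ∫ y : ℝ, Real.exp (-x) * ((fun y : ℝ => Real.exp (-c * y ^ 2)) -
      (fun y : ℝ => Real.exp (-(c / 2)) * Real.exp (-(c / 2) * y ^ 2))) y =
      Real.exp (-x) * (Real.sqrt (Real.pi / c) -
        Real.exp (-(c / 2)) * Real.sqrt (Real.pi / (c / 2))) := h2
  rw [h3]
  have e1 : Real.sqrt (Real.pi / c) = Real.sqrt (1 / 1.3) * Real.sqrt (2 * Real.pi / x) := by
    rw [← Real.sqrt_mul (by norm_num)]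
    congr 1
    rw [hc]
    field_simp
    norm_num
  have e2 : Real.sqrt (Real.pi / (c / 2)) = Real.sqrt (2 / 1.3) * Real.sqrt (2 * Real.pi / x) := by
    rw [← Real.sqrt_mul (by norm_num)]
    congr 1
    rw [hc]
    field_simp
    norm_num
  have e3 : (0.875 : ℝ) ≤ Real.sqrt (1 / 1.3) := by
    apply Real.le_sqrt_of_sq_le
    norm_num
  have e4 : Real.sqrt (2 / 1.3) ≤ 1.25 := by
    apply Real.sqrt_le_iff.mpr
    norm_num
  have e5 : Real.exp (-(c / 2)) ≤ 0.003 := by
    have h4 : (6 : ℝ) ≤ c / 2 := by rw [hc]; linarith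
    calc Real.exp (-(c / 2)) ≤ Real.exp (-6) := Real.exp_le_exp.mpr (by linarith)
      _ ≤ 0.003 := by
        rw [Real.exp_neg, inv_le_comm₀ (Real.exp_pos _) (by norm_num)]
        have h5 := Real.exp_one_gt_d9
        have h6 : Real.exp 6 = Real.exp 1 ^ 6 := by
          rw [← Real.exp_nat_mul]
          norm_num
        rw [h6]
        have h7 : (2.7 : ℝ) ^ 6 ≤ Real.exp 1 ^ 6 := pow_le_pow_left₀ (by norm_num) (by linarith) 6
        refine le_trans ?_ h7
        norm_num
  have hs : 0 ≤ Real.sqrt (2 * Real.pi / x) := Real.sqrt_nonneg _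
  have hE := Real.exp_pos (-x)
  rw [e1, e2]
  have h5 : Real.exp (-(c / 2)) * (Real.sqrt (2 / 1.3) * Real.sqrt (2 * Real.pi / x)) ≤
      0.003 * (1.25 * Real.sqrt (2 * Real.pi / x)) := by
    refine mul_le_mul e5 (mul_le_mul_of_nonneg_right e4 hs) (by positivity) (by norm_num)
  have h6 : 0.875 * Real.sqrt (2 * Real.pi / x) ≤
      Real.sqrt (1 / 1.3) * Real.sqrt (2 * Real.pi / x) := mul_le_mul_of_nonneg_right e3 hs
  have h7 : 0.87 * Real.sqrt (2 * Real.pi / x) ≤ Real.sqrt (1 / 1.3) * Real.sqrt (2 * Real.pi / x) -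
      Real.exp (-(c / 2)) * (Real.sqrt (2 / 1.3) * Real.sqrt (2 * Real.pi / x)) := by linarith
  have h8 := mul_le_mul_of_nonneg_left h7 hE.le
  linarith

end Sok
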