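import Pool.Agent.Lib.MP_816dec_an.CTail2
import Pool.Agent.Lib.MP_816dec_an.CKerVal

/-!
MP_816dec_an, `b = 1`, corner: the tail of the kernel integral of `‖CC‖ ^ 2`, its lower bound and the
tangent inequality of its logarithm.
-/

set_option autoImplicit false

open Complex Set Filter Topology MeasureTheory

namespace Sok

namespace CT

/-- the kernel -/
noncomputable def W (b r U : ℝ) : ℝ := KK (2 * r * Real.exp (-U)) (2 * U / b)

/-- the integrand of `JJ` -/
noncomputable def EW (b r τ U : ℝ) : ℝ := Real.exp (-(2 * τ * U / b)) * W b r U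

theorem JJ_eq (b r τ : ℝ) : JJ b r τ = ∫ U : ℝ, EW b r τ U := rfl

theorem integrable_EW {b r τ : ℝ} (hb : 0 < b) (hr : 0 < r) (hτ : 0 < τ) :
    Integrable (EW b r τ) := integrable_JJ hb hr hτ

theorem integrable_UEW {b r τ : ℝ} (hb : 0 < b) (hr : 0 < r) (hτ : 0 < τ) :
    Integrable (fun U => U * EW b r τ U) := (hasDerivAt_JJ hb hr hτ).1

/-- the point `ω` with `ω e^ω = κ` -/
theorem exists_omega {κ : ℝ} (h1 : Real.exp (-1) ≤ κ) (h2 : κ ≤ 0.6) :
    ∃ ω : ℝ, 0 < ω ∧ ω ≤ 0.402 ∧ ω * Real.exp ω = κ ∧ 2.88 * Real.exp ω ≤ 2 * κ + Real.pi := by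
  have hκ : 0 < κ := lt_of_lt_of_le (Real.exp_pos _) h1
  have hexp : (0.6 : ℝ) < 0.402 * Real.exp 0.402 := by
    have h3 := Real.quadratic_le_exp_of_nonneg (x := (0.402 : ℝ)) (by norm_num)
    have h4 := Real.sum_le_exp_of_nonneg (x := (0.402 : ℝ)) (by norm_num) 5
    simp only [Finset.sum_range_succ, Finset.sum_range_zero, Nat.factorial] at h4
    norm_num at h4
    linarith
  have hc : ContinuousOn (fun w : ℝ => w * Real.exp w) (Icc 0 0.402) := by fun_prop
  have hmem : κ ∈ Icc ((0 : ℝ) * Real.exp 0) (0.402 * Real.exp 0.402) := by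
    rw [zero_mul]
    exact ⟨hκ.le, by linarith⟩
  obtain ⟨ω, hω, he⟩ := intermediate_value_Icc (by norm_num : (0 : ℝ) ≤ 0.402) hc hmem
  have hω0 : 0 < ω := by
    rcases eq_or_lt_of_le hω.1 with h | h
    · exfalso
      simp only at he
      rw [← h] at he
      simp at he
      linarith
    · exact h
  refine ⟨ω, hω0, hω.2, he, ?_⟩
  have h5 := Real.exp_bound' hω.1 (by linarith [hω.2]) (n := 4) (by norm_num)
  simp only [Finset.sum_range_succ, Finset.sum_range_zero, Nat.factorial] at h5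
  norm_num at h5
  have hpi := Real.pi_gt_d4
  have he' : ω * Real.exp ω = κ := he
  rw [← he']
  -- (2.88 - 2 ω) e^ω ≤ π
  have h6 : (2.88 - 2 * ω) * Real.exp ω ≤ (2.88 - 2 * ω) *
      (1 + ω + ω ^ 2 / 2 + ω ^ 3 / 6 + ω ^ 4 * 5 / 96) :=
    mul_le_mul_of_nonneg_left h5 (by linarith [hω.2])
  have h7 : (2.88 - 2 * ω) * (1 + ω + ω ^ 2 / 2 + ω ^ 3 / 6 + ω ^ 4 * 5 / 96) ≤ 3.1415 := by
    have ha := hω.1
    have hb := hω.2
    have h8 : (2.88 - 2 * ω) * (1 + ω + ω ^ 2 / 2 + ω ^ 3 / 6 + ω ^ 4 * 5 / 96) =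
        2.88 + 0.88 * ω - 0.56 * ω ^ 2 - 0.52 * ω ^ 3 - (ω ^ 4 * (11 / 60)) - ω ^ 5 * 10 / 96 := by
      ring
    have h9 : 0 ≤ ω ^ 4 := by positivity
    have h10 : 0 ≤ ω ^ 5 := by positivity
    have h11 : 2.88 + 0.88 * ω - 0.56 * ω ^ 2 - 0.52 * ω ^ 3 ≤ 3.1415 := by
      nlinarith [mul_nonneg ha (by linarith : 0 ≤ 0.402 - ω),
        mul_nonneg (mul_nonneg ha ha) (by linarith : 0 ≤ 0.402 - ω)]
    rw [h8]
    linarith
  linarith

/-- positivity of the kernel to the left of `ω` -/
theorem W_pos {b r ω U : ℝ} (hb : 0 < b) (hr : 0 < r) (h1 : Real.exp (-1) ≤ b * r)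
    (hω : ω * Real.exp ω = b * r) (hω0 : 0 < ω) (hU : U ≤ ω) : 0 < W b r U := by
  unfold W
  have hE := Real.exp_pos (-U)
  refine KK_pos (by positivity) ?_
  rw [abs_div, abs_of_pos hb, div_le_iff₀ hb, abs_mul, abs_of_pos (by norm_num : (0 : ℝ) < 2)]
  have key : |U| ≤ b * r * Real.exp (-U) := by
    have e0 : |U| * Real.exp U ≤ b * r := by
      rcases le_total 0 U with h | h
      · rw [abs_of_nonneg h, ← hω]
        exact mul_le_mul hU (Real.exp_le_exp.mpr hU) (Real.exp_pos _).le hω0.le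
      · rw [abs_of_nonpos h]
        have h2 := Real.add_one_le_exp (-U - 1)
        have h3 : -U * Real.exp U ≤ Real.exp (-U - 1) * Real.exp U :=
          mul_le_mul_of_nonneg_right (by linarith) (Real.exp_pos _).le
        have h4 : Real.exp (-U - 1) * Real.exp U = Real.exp (-1) := by
          rw [← Real.exp_add]
          congr 1
          ring
        linarith
    have e1 : |U| = |U| * Real.exp U * Real.exp (-U) := by
      rw [mul_assoc, ← Real.exp_add]
      simp
    rw [e1]
    exact mul_le_mul_of_nonneg_right e0 hE.le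
  nlinarith

/-- upper bound of the kernel for `U ≥ 0` -/
theorem abs_W_le {b r : ℝ} (hb : 0 < b) (hb1 : b ≤ 0.06) (hr : 0 < r)
    (h1 : Real.exp (-1) ≤ b * r) (U : ℝ) :
    |W b r U| ≤ 2.93 * Real.exp (-((Real.pi / b - 2.5) * U)) := by
  have hpi := Real.pi_gt_d4
  have hE := Real.exp_pos (-U)
  have ha0 : (0 : ℝ) ≤ Real.pi / 2 - b := by linarith
  have ha1 : Real.pi / 2 - b < Real.pi / 2 := by linarith
  have h := abs_KK_shift (x := 2 * r * Real.exp (-U)) (ν := 2 * U / b) (a := Real.pi / 2 - b)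
    (by positivity) ha0 ha1
  rw [Real.cos_pi_div_two_sub] at h
  have hsin : 0.999 * b ≤ Real.sin b := by
    have h2 := Real.sin_gt_sub_cube hb
    nlinarith [mul_pos hb hb, mul_nonneg hb.le (mul_nonneg (by linarith : 0 ≤ 0.06 - b) (by linarith : 0 ≤ 0.06 + b))]
  have hsin0 : 0 < Real.sin b := by nlinarith
  have h2 : Real.exp (-(2 * r * Real.exp (-U) * Real.sin b)) ≤ 1 := by
    rw [Real.exp_le_one_iff]
    have : 0 < 2 * r * Real.exp (-U) * Real.sin b := by positivity
    linarith
  have h3 : Real.sqrt (2 * Real.pi / (2 * r * Real.exp (-U) * Real.sin b)) ≤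
      2.93 * Real.exp (U / 2) := by
    rw [Real.sqrt_le_iff]
    refine ⟨by positivity, ?_⟩
    have e1 : (2.93 * Real.exp (U / 2)) ^ 2 = 8.5849 * Real.exp U := by
      rw [mul_pow, ← Real.exp_nat_mul]
      norm_num
      ring_nf
    rw [e1, div_le_iff₀ (by positivity)]
    have e2 : 8.5849 * Real.exp U * (2 * r * Real.exp (-U) * Real.sin b) =
        2 * 8.5849 * (r * Real.sin b) * (Real.exp U * Real.exp (-U)) := by ring
    rw [e2, ← Real.exp_add, add_neg_cancel, Real.exp_zero, mul_one]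
    have e3 : 0.999 * (b * r) ≤ r * Real.sin b := by nlinarith
    have e4 : (0.3678 : ℝ) ≤ Real.exp (-1) := by
      rw [Real.exp_neg, le_inv_comm₀ (by norm_num) (Real.exp_pos _)]
      have := Real.exp_one_lt_d9
      linarith
    have hpi2 := Real.pi_lt_d4
    nlinarith
  have h4 : Real.exp (-(2 * U / b) * (Real.pi / 2 - b)) * Real.exp (U / 2) =
      Real.exp (-((Real.pi / b - 2.5) * U)) := by
    rw [← Real.exp_add]
    congr 1
    field_simp
    ring
  unfold W
  calc |KK (2 * r * Real.exp (-U)) (2 * U / b)| ≤ _ := h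
    _ ≤ Real.exp (-(2 * U / b) * (Real.pi / 2 - b)) * (1 * (2.93 * Real.exp (U / 2))) := by
        refine mul_le_mul_of_nonneg_left ?_ (Real.exp_pos _).le
        exact mul_le_mul h2 h3 (Real.sqrt_nonneg _) (by norm_num)
    _ = 2.93 * (Real.exp (-(2 * U / b) * (Real.pi / 2 - b)) * Real.exp (U / 2)) := by ring
    _ = _ := by rw [h4]

/-- lower bound of the kernel near `0` on the left, with the exponential factor -/
theorem EW_ge {b r τ s : ℝ} (hb : 0 < b) (hr : 10 ≤ r) (hκ : b * r ≤ 0.6) (hτ : b * r ≤ τ)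
    (hs0 : 0 ≤ s) (hs : s ≤ 0.4 * b * Real.sqrt r) :
    1.16 / Real.sqrt r * Real.exp (-(2 * r)) ≤ EW b r τ (-s) := by
  have hr0 : 0 < r := by linarith
  have hsr : Real.sqrt r ^ 2 = r := Real.sq_sqrt hr0.le
  have hsr0 : 0 < Real.sqrt r := Real.sqrt_pos.mpr hr0
  have hsr3 : (3.16 : ℝ) ≤ Real.sqrt r := by
    apply Real.le_sqrt_of_sq_le
    norm_num
    linarith
  have hκ0 : 0 < b * r := by positivity
  -- bounds on `s`
  have hs1 : s * Real.sqrt r ≤ 0.24 := by
    have : s * Real.sqrt r ≤ 0.4 * b * Real.sqrt r * Real.sqrt r :=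
      mul_le_mul_of_nonneg_right hs hsr0.le
    nlinarith
  have hs2 : s ≤ 0.076 := by nlinarith
  have hs3 : s ^ 2 * r ≤ 0.0576 := by
    have : s ^ 2 * r = (s * Real.sqrt r) ^ 2 := by rw [mul_pow, hsr]
    rw [this]
    have h0 : 0 ≤ s * Real.sqrt r := by positivity
    nlinarith
  have hexp : Real.exp s ≤ 1 + s + 0.52 * s ^ 2 := by
    have h5 := Real.exp_bound' hs0 (by linarith) (n := 3) (by norm_num)
    simp only [Finset.sum_range_succ, Finset.sum_range_zero, Nat.factorial] at h5
    norm_num at h5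
    nlinarith [mul_nonneg (sq_nonneg s) (by linarith : 0 ≤ 0.076 - s)]
  set x : ℝ := 2 * r * Real.exp s with hx
  have hx20 : 20 ≤ x := by
    have : (1 : ℝ) ≤ Real.exp s := Real.one_le_exp hs0
    rw [hx]
    nlinarith
  have hx0 : 0 < x := by linarith
  have hxle : x ≤ 2 * r + 2 * r * s + 0.06 := by
    rw [hx]
    have := mul_le_mul_of_nonneg_left hexp (by linarith : 0 ≤ 2 * r)
    nlinarith
  have hxle2 : x ≤ 2.16 * r := by
    nlinarith
  have hW : W b r (-s) = KK x (2 * (-s) / b) := by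
    unfold W
    rw [neg_neg]
  have hν : (2 * (-s) / b) ^ 2 / (2 * x) ≤ 0.16 := by
    have h1 : (2 * (-s) / b) ^ 2 = 4 * s ^ 2 / b ^ 2 := by ring
    have h2 : s ^ 2 ≤ 0.16 * b ^ 2 * r := by
      have h3 : s ^ 2 ≤ (0.4 * b * Real.sqrt r) ^ 2 := pow_le_pow_left₀ hs0 hs 2
      rw [mul_pow, hsr] at h3
      nlinarith
    have h3 : 4 * s ^ 2 / b ^ 2 ≤ 0.64 * r := by
      rw [div_le_iff₀ (by positivity)]
      nlinarith
    rw [h1, div_le_iff₀ (by positivity)]
    have : 2 * r ≤ x := by
      have : (1 : ℝ) ≤ Real.exp s := Real.one_le_exp hs0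
      rw [hx]
      nlinarith
    nlinarith
  have h1 := KK_ge_mul hx0 (2 * (-s) / b)
  have h2 := KK_zero_ge hx20
  have hK0 := KK_nonneg_zero x
  have h3 : 0.84 * (0.87 * (Real.exp (-x) * Real.sqrt (2 * Real.pi / x))) ≤ W b r (-s) := by
    rw [hW]
    refine le_trans ?_ h1
    have h4 : (0.84 : ℝ) ≤ 1 - (2 * (-s) / b) ^ 2 / (2 * x) := by linarith
    exact mul_le_mul h4 h2 (by positivity) (by linarith)
  have h4 : 1.705 / Real.sqrt r ≤ Real.sqrt (2 * Real.pi / x) := by
    apply Real.le_sqrt_of_sq_le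
    rw [div_pow, hsr, div_le_div_iff₀ hr0 hx0]
    have hpi := Real.pi_gt_d4
    nlinarith
  have h5 : Real.exp (2 * r * s) ≤ Real.exp (-(2 * τ * (-s) / b)) := by
    apply Real.exp_le_exp.mpr
    have : -(2 * τ * (-s) / b) = 2 * s * (τ / b) := by ring
    rw [this]
    have h6 : r ≤ τ / b := by
      rw [le_div_iff₀ hb]
      linarith
    nlinarith
  have h6 : 0.9417 * Real.exp (-(2 * r)) ≤ Real.exp (2 * r * s) * Real.exp (-x) := by
    have h7 : (0.9417 : ℝ) ≤ Real.exp (-0.06) := by
      have h8 := Real.exp_bound' (x := (0.06 : ℝ)) (by norm_num) (by norm_num) (n := 3) (by norm_num)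
      rw [Real.exp_neg, le_inv_comm₀ (by norm_num) (Real.exp_pos _)]
      refine h8.trans ?_
      norm_num [Finset.sum_range_succ, Nat.factorial]
    calc 0.9417 * Real.exp (-(2 * r)) ≤ Real.exp (-0.06) * Real.exp (-(2 * r)) :=
          mul_le_mul_of_nonneg_right h7 (Real.exp_pos _).le
      _ = Real.exp (-0.06 + -(2 * r)) := (Real.exp_add _ _).symm
      _ ≤ Real.exp (2 * r * s + -x) := Real.exp_le_exp.mpr (by linarith)
      _ = _ := Real.exp_add _ _
  have hWpos : 0 ≤ W b r (-s) := le_trans (by positivity) h3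
  unfold EW
  calc 1.16 / Real.sqrt r * Real.exp (-(2 * r))
      ≤ 0.84 * 0.87 * (1.705 / Real.sqrt r) * (0.9417 * Real.exp (-(2 * r))) := by
        have e1 : 0.84 * 0.87 * (1.705 / Real.sqrt r) * (0.9417 * Real.exp (-(2 * r))) =
          (0.84 * 0.87 * 1.705 * 0.9417) / Real.sqrt r * Real.exp (-(2 * r)) := by ring
        rw [e1]
        refine mul_le_mul_of_nonneg_right ?_ (Real.exp_pos _).le
        exact div_le_div_of_nonneg_right (by norm_num) hsr0.le
    _ ≤ 0.84 * 0.87 * Real.sqrt (2 * Real.pi / x) * (Real.exp (2 * r * s) * Real.exp (-x)) := by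
        refine mul_le_mul (mul_le_mul_of_nonneg_left h4 (by norm_num)) h6 (by positivity)
          (by positivity)
    _ = Real.exp (2 * r * s) * (0.84 * (0.87 * (Real.exp (-x) * Real.sqrt (2 * Real.pi / x)))) := by
        ring
    _ ≤ Real.exp (2 * r * s) * W b r (-s) := mul_le_mul_of_nonneg_left h3 (Real.exp_pos _).le
    _ ≤ Real.exp (-(2 * τ * (-s) / b)) * W b r (-s) := mul_le_mul_of_nonneg_right h5 hWpos

/-- lower bound of the main part -/
theorem main_ge {b r τ ω : ℝ} (hb : 0 < b) (hr : 10 ≤ r) (h1 : Real.exp (-1) ≤ b * r)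
    (hκ : b * r ≤ 0.6) (hτ : b * r ≤ τ) (hω : ω * Real.exp ω = b * r) (hω0 : 0 < ω) :
    0.46 * b * Real.exp (-(2 * r)) ≤ ∫ U in Iic ω, EW b r τ U := by
  have hr0 : 0 < r := by linarith
  have hκ0 : 0 < b * r := by positivity
  have hτ0 : 0 < τ := by linarith
  have hsr0 : 0 < Real.sqrt r := Real.sqrt_pos.mpr hr0
  set η : ℝ := 0.4 * b * Real.sqrt r with hη
  have hη0 : 0 < η := by positivity
  have hI := integrable_EW hb hr0 hτ0
  have hsub : Icc (-η) 0 ⊆ Iic ω := fun U hU => by
    rw [mem_Iic]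
    linarith [hU.2]
  have h2 : ∫ U in Icc (-η) 0, EW b r τ U ≤ ∫ U in Iic ω, EW b r τ U := by
    refine setIntegral_mono_set hI.integrableOn ?_ hsub.eventuallyLE
    refine (ae_restrict_iff' measurableSet_Iic).mpr (Filter.Eventually.of_forall fun U hU => ?_)
    exact (mul_pos (Real.exp_pos _) (W_pos hb hr0 h1 hω hω0 hU)).le
  have h3 : ∫ U in Icc (-η) 0, (1.16 / Real.sqrt r * Real.exp (-(2 * r))) ≤
      ∫ U in Icc (-η) 0, EW b r τ U := by
    refine setIntegral_mono_on ?_ hI.integrableOn measurableSet_Icc ?_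
    · exact continuous_const.integrableOn_Icc
    · intro U hU
      have := EW_ge hb hr hκ hτ (s := -U) (by linarith [hU.2]) (by linarith [hU.1])
      rwa [neg_neg] at this
  rw [setIntegral_const] at h3
  have h4 : (volume.real (Icc (-η) 0)) = η := by
    rw [Real.volume_real_Icc_of_le (by linarith)]
    ring
  rw [h4, smul_eq_mul] at h3
  refine le_trans ?_ (h3.trans h2)
  have h5 : η * (1.16 / Real.sqrt r * Real.exp (-(2 * r))) =
      0.464 * b * Real.exp (-(2 * r)) := by
    rw [hη]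
    field_simp
    ring
  rw [h5]
  have : 0 < b * Real.exp (-(2 * r)) := by positivity
  nlinarith

/-- `∫_{U > ω} e^{-LU}` -/
theorem int_exp_tail {L ω : ℝ} (hL : 0 < L) :
    IntegrableOn (fun U : ℝ => Real.exp (-(L * U))) (Ioi ω) ∧
    ∫ U in Ioi ω, Real.exp (-(L * U)) = Real.exp (-(L * ω)) / L := by
  have h1 := integrableOn_exp_mul_Ioi (a := -L) (by linarith) ω
  have h2 := integral_exp_mul_Ioi (a := -L) (by linarith) ω
  have e : (fun U : ℝ => Real.exp (-(L * U))) = fun U : ℝ => Real.exp (-L * U) := by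
    funext U
    rw [neg_mul]
  rw [e]
  refine ⟨h1, ?_⟩
  rw [h2]
  rw [neg_mul]
  field_simp

/-- the tail -/
theorem tail_le {b r τ ω : ℝ} (hb : 0 < b) (hr : 10 ≤ r) (h1 : Real.exp (-1) ≤ b * r)
    (hκ : b * r ≤ 0.6) (hτ : b * r ≤ τ) (hω0 : 0 < ω) (hω1 : ω ≤ 0.402)
    (hω2 : 2.88 * Real.exp ω ≤ 2 * (b * r) + Real.pi) (hω : ω * Real.exp ω = b * r) :
    |∫ U in Ioi ω, EW b r τ U| ≤
      5.2 * Real.exp (-(0.88 * r)) * (0.46 * b * Real.exp (-(2 * r))) ∧
    |∫ U in Ioi ω, U * EW b r τ U| ≤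
      0.6 * (5.2 * Real.exp (-(0.88 * r)) * (0.46 * b * Real.exp (-(2 * r)))) := by
  have hr0 : 0 < r := by linarith
  have hκ0 : 0 < b * r := by positivity
  have hb1 : b ≤ 0.06 := by nlinarith
  have hτ0 : 0 < τ := by linarith
  have hpi := Real.pi_gt_d4
  have hI := integrable_EW hb hr0 hτ0
  have hIU := integrable_UEW hb hr0 hτ0
  set L : ℝ := 2 * r + Real.pi / b - 2.5 with hL
  have e4 : (0.3678 : ℝ) ≤ b * r := by
    refine le_trans ?_ h1
    rw [Real.exp_neg, le_inv_comm₀ (by norm_num) (Real.exp_pos _)]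
    have := Real.exp_one_lt_d9
    linarith
  have hbL : 3.72 ≤ b * L := by
    have : b * L = 2 * (b * r) + Real.pi - 2.5 * b := by
      rw [hL]
      field_simp
    rw [this]
    linarith
  have hL0 : 62 ≤ L := by
    by_contra hcon
    rw [not_le] at hcon
    nlinarith
  -- pointwise bound
  have hpt : ∀ U : ℝ, 0 ≤ U → |EW b r τ U| ≤ 2.93 * Real.exp (-(L * U)) := by
    intro U hU
    unfold EW
    rw [abs_mul, abs_of_pos (Real.exp_pos _)]
    have h2 := abs_W_le hb hb1 hr0 h1 U
    have h3 : Real.exp (-(2 * τ * U / b)) ≤ Real.exp (-(2 * r * U)) := by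
      apply Real.exp_le_exp.mpr
      have h4 : r ≤ τ / b := by
        rw [le_div_iff₀ hb]
        linarith
      have h5 : 2 * τ * U / b = 2 * U * (τ / b) := by ring
      rw [h5]
      nlinarith
    calc Real.exp (-(2 * τ * U / b)) * |W b r U|
        ≤ Real.exp (-(2 * r * U)) * (2.93 * Real.exp (-((Real.pi / b - 2.5) * U))) :=
          mul_le_mul h3 h2 (abs_nonneg _) (Real.exp_pos _).le
      _ = 2.93 * Real.exp (-(L * U)) := by
          have : Real.exp (-(2 * r * U)) * Real.exp (-((Real.pi / b - 2.5) * U)) =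
              Real.exp (-(L * U)) := by
            rw [← Real.exp_add]
            congr 1
            rw [hL]
            ring
          rw [← this]
          ring
  -- the main exponential inequality
  have hmain : 2.93 * Real.exp (-(L * ω)) ≤
      8.02 * (Real.exp (-(0.88 * r)) * Real.exp (-(2 * r))) := by
    have h2 : -(L * ω) ≤ 1.005 + (-(0.88 * r) + -(2 * r)) := by
      have h3 : L * ω = (2 * (b * r) + Real.pi) * ω / b - 2.5 * ω := by
        rw [hL]
        field_simp
      have h4 : 2.88 * r ≤ (2 * (b * r) + Real.pi) * ω / b := by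
        rw [le_div_iff₀ hb]
        have h5 := mul_le_mul_of_nonneg_right hω2 hω0.le
        nlinarith
      rw [h3]
      nlinarith
    have h3 : Real.exp (-(L * ω)) ≤ Real.exp 1.005 * (Real.exp (-(0.88 * r)) * Real.exp (-(2 * r))) := by
      rw [← Real.exp_add, ← Real.exp_add]
      exact Real.exp_le_exp.mpr h2
    have h4 : Real.exp 1.005 ≤ 2.733 := by
      have h5 : Real.exp 1.005 = Real.exp 1 * Real.exp 0.005 := by
        rw [← Real.exp_add]
        norm_num
      have h6 := Real.exp_bound' (x := (0.005 : ℝ)) (by norm_num) (by norm_num) (n := 2) (by norm_num)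
      have h7 : Real.exp 0.005 ≤ 1.00502 := by
        refine h6.trans ?_
        norm_num [Finset.sum_range_succ, Nat.factorial]
      have h8 := Real.exp_one_lt_d9
      rw [h5]
      have := mul_le_mul h8.le h7 (Real.exp_pos _).le (by norm_num)
      refine this.trans ?_
      norm_num
    have hpos : 0 < Real.exp (-(0.88 * r)) * Real.exp (-(2 * r)) := by positivity
    nlinarith
  have hEpos : 0 < Real.exp (-(0.88 * r)) * Real.exp (-(2 * r)) := by positivity
  have hbnd : 2.93 * Real.exp (-(L * ω)) / L ≤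
      0.902 * (5.2 * Real.exp (-(0.88 * r)) * (0.46 * b * Real.exp (-(2 * r)))) := by
    rw [div_le_iff₀ (by linarith)]
    refine hmain.trans ?_
    have : 0.902 * (5.2 * Real.exp (-(0.88 * r)) * (0.46 * b * Real.exp (-(2 * r)))) * L =
        2.157584 * (b * L) * (Real.exp (-(0.88 * r)) * Real.exp (-(2 * r))) := by ring
    rw [this]
    refine mul_le_mul_of_nonneg_right ?_ hEpos.le
    linarith
  constructor
  · obtain ⟨i1, i2⟩ := int_exp_tail (L := L) (ω := ω) (by linarith)
    calc |∫ U in Ioi ω, EW b r τ U| ≤ ∫ U in Ioi ω, |EW b r τ U| := abs_integral_le_integral_abs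
      _ ≤ ∫ U in Ioi ω, 2.93 * Real.exp (-(L * U)) := by
          refine setIntegral_mono_on hI.abs.integrableOn (i1.const_mul _) measurableSet_Ioi ?_
          intro U hU
          exact hpt U (hω0.le.trans (le_of_lt hU))
      _ = 2.93 * Real.exp (-(L * ω)) / L := by
          rw [integral_const_mul, i2]
          ring
      _ ≤ 0.902 * (5.2 * Real.exp (-(0.88 * r)) * (0.46 * b * Real.exp (-(2 * r)))) := hbnd
      _ ≤ _ := by
          have : 0 < 5.2 * Real.exp (-(0.88 * r)) * (0.46 * b * Real.exp (-(2 * r))) := by positivity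
          linarith
  · obtain ⟨i1, i2⟩ := int_exp_tail (L := L - 1) (ω := ω) (by linarith)
    have hpt2 : ∀ U : ℝ, 0 ≤ U → |U * EW b r τ U| ≤ 1.08 * Real.exp (-((L - 1) * U)) := by
      intro U hU
      rw [abs_mul, abs_of_nonneg hU]
      have h2 := hpt U hU
      have h3 : U ≤ 0.3679 * Real.exp U := by
        have h4 := Real.add_one_le_exp (U - 1)
        have h5 : Real.exp (U - 1) = Real.exp (-1) * Real.exp U := by
          rw [← Real.exp_add]
          congr 1
          ring
        have h6 : Real.exp (-1) ≤ 0.3679 := by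
          rw [Real.exp_neg, inv_le_comm₀ (Real.exp_pos _) (by norm_num)]
          have := Real.exp_one_gt_d9
          refine le_trans ?_ this.le
          norm_num
        have h7 := Real.exp_pos U
        nlinarith
      calc U * |EW b r τ U| ≤ (0.3679 * Real.exp U) * (2.93 * Real.exp (-(L * U))) :=
            mul_le_mul h3 h2 (abs_nonneg _) (by positivity)
        _ = 1.077947 * (Real.exp U * Real.exp (-(L * U))) := by ring
        _ = 1.077947 * Real.exp (-((L - 1) * U)) := by
            rw [← Real.exp_add]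
            congr 2
            ring
        _ ≤ _ := by
            have := Real.exp_pos (-((L - 1) * U))
            linarith
    calc |∫ U in Ioi ω, U * EW b r τ U| ≤ ∫ U in Ioi ω, |U * EW b r τ U| :=
          abs_integral_le_integral_abs
      _ ≤ ∫ U in Ioi ω, 1.08 * Real.exp (-((L - 1) * U)) := by
          refine setIntegral_mono_on hIU.abs.integrableOn (i1.const_mul _) measurableSet_Ioi ?_
          intro U hU
          exact hpt2 U (hω0.le.trans (le_of_lt hU))
      _ = 1.08 * Real.exp (-((L - 1) * ω)) / (L - 1) := by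
          rw [integral_const_mul, i2]
          ring
      _ ≤ 0.57 * (2.93 * Real.exp (-(L * ω)) / L) := by
          have h2 : Real.exp (-((L - 1) * ω)) = Real.exp ω * Real.exp (-(L * ω)) := by
            rw [← Real.exp_add]
            congr 1
            ring
          have h3 : Real.exp ω ≤ 1.4952 := by
            have h4 : Real.exp ω ≤ Real.exp 0.402 := Real.exp_le_exp.mpr hω1
            have h5 := Real.exp_bound' (x := (0.402 : ℝ)) (by norm_num) (by norm_num) (n := 5)
              (by norm_num)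
            refine h4.trans (h5.trans ?_)
            norm_num [Finset.sum_range_succ, Nat.factorial]
          rw [h2, div_le_iff₀ (by linarith)]
          have h6 : 0.57 * (2.93 * Real.exp (-(L * ω)) / L) * (L - 1) =
              1.6701 * ((L - 1) / L) * Real.exp (-(L * ω)) := by
            ring
          have h7 : 61 / 62 ≤ (L - 1) / L := by
            rw [div_le_div_iff₀ (by norm_num) (by linarith)]
            linarith
          have h8 := Real.exp_pos (-(L * ω))
          rw [h6]
          nlinarith [mul_le_mul_of_nonneg_right h7 h8.le, mul_le_mul_of_nonneg_right h3 h8.le]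
      _ ≤ _ := by
          have : 0 < 5.2 * Real.exp (-(0.88 * r)) * (0.46 * b * Real.exp (-(2 * r))) := by positivity
          linarith

end CT

end Sok
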