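import Pool.Agent.Lib.MP_816dec_an.CTail3

/-!
MP_816dec_an, `b = 1`, corner: the tangent inequality for `log ‖CC‖` and the lower bound of `‖CC‖`.
-/

set_option autoImplicit false

open Complex Set Filter Topology MeasureTheory

namespace Sok

namespace CT

theorem exp_neg_one_ge : (0.3678 : ℝ) ≤ Real.exp (-1) := by
  rw [Real.exp_neg, le_inv_comm₀ (by norm_num) (Real.exp_pos _)]
  have := Real.exp_one_lt_d9
  linarith

/-- crude upper bound of the main part at the axis -/
theorem main_axis_le {b r ω : ℝ} (hb : 0 < b) (hr : 10 ≤ r) (h1 : Real.exp (-1) ≤ b * r)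
    (hκ : b * r ≤ 0.6) (hω0 : 0 < ω) (hω1 : ω ≤ 0.402) :
    ∫ U in Iic ω, EW b r (Real.pi / 2) U ≤ 1.5 * Real.exp (4.2 * r) := by
  have hr0 : 0 < r := by linarith
  have hb1 : b ≤ 0.06 := by nlinarith
  have hpi := Real.pi_gt_d4
  have hpi' := Real.pi_lt_d4
  have hI := integrable_EW hb hr0 (by linarith : 0 < Real.pi / 2)
  have hk := exp_neg_one_ge.trans h1
  have hexp : Real.exp ω ≤ 1.4952 := by
    have h4 : Real.exp ω ≤ Real.exp 0.402 := Real.exp_le_exp.mpr hω1
    have h5 := Real.exp_bound' (x := (0.402 : ℝ)) (by norm_num) (by norm_num) (n := 5)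
      (by norm_num)
    refine h4.trans (h5.trans ?_)
    norm_num [Finset.sum_range_succ, Nat.factorial]
  have h148 : (4.39 : ℝ) ≤ Real.exp 1.48 := by
    have h2 : Real.exp 1.48 = Real.exp 1 * Real.exp 0.48 := by
      rw [← Real.exp_add]
      norm_num
    have h3 := Real.sum_le_exp_of_nonneg (x := (0.48 : ℝ)) (by norm_num) 6
    have h4 := Real.exp_one_gt_d9
    have h5 : (1.6159 : ℝ) ≤ Real.exp 0.48 := by
      refine le_trans ?_ h3
      norm_num [Finset.sum_range_succ, Nat.factorial]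
    rw [h2]
    have := mul_le_mul h4.le h5 (by norm_num) (Real.exp_pos _).le
    refine le_trans ?_ this
    norm_num
  have hpib : Real.pi / b + 1 ≤ 8.7 * r := by
    have : Real.pi / b ≤ 8.5418 * r := by
      rw [div_le_iff₀ hb]
      nlinarith
    linarith
  have hlin : ∀ U : ℝ, -(Real.pi * U / b) - 2 * r * Real.exp (-U) ≤ U + 4.18 * r := by
    intro U
    have h2 : (Real.pi / b + 1) * (1 + -U - 1.48) ≤ 2 * r * Real.exp (-U) := by
      rcases le_total 0 (1 + -U - 1.48) with h | h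
      · have h3 : 1 + (-U - 1.48) ≤ Real.exp (-U - 1.48) := by
          have := Real.add_one_le_exp (-U - 1.48)
          linarith
        have h4 : Real.exp (-U) = Real.exp 1.48 * Real.exp (-U - 1.48) := by
          rw [← Real.exp_add]
          congr 1
          ring
        have h5 : Real.pi / b + 1 ≤ 2 * r * Real.exp 1.48 := by
          have h6 : Real.pi / b + 1 = (Real.pi + b) / b := by field_simp
          rw [h6, div_le_iff₀ hb]
          nlinarith
        have h7 : (Real.pi / b + 1) * (1 + -U - 1.48) ≤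
            2 * r * Real.exp 1.48 * (1 + -U - 1.48) := mul_le_mul_of_nonneg_right h5 h
        have h8 : 2 * r * Real.exp 1.48 * (1 + -U - 1.48) ≤
            2 * r * Real.exp 1.48 * Real.exp (-U - 1.48) :=
          mul_le_mul_of_nonneg_left (by linarith) (by positivity)
        rw [h4]
        linarith
      · have h3 : (Real.pi / b + 1) * (1 + -U - 1.48) ≤ 0 :=
          mul_nonpos_of_nonneg_of_nonpos (by positivity) h
        exact h3.trans (by positivity)
    have h3 : Real.pi * U / b = (Real.pi / b) * U := by ring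
    rw [h3]
    nlinarith
  have hpt : ∀ U ∈ Iic ω, EW b r (Real.pi / 2) U ≤ Real.exp (4.18 * r) * Real.exp (1 * U) := by
    intro U hU
    have hU' : U ≤ ω := hU
    set x : ℝ := 2 * r * Real.exp (-U) with hx
    have hx0 : 0 < x := by positivity
    have h2 : (0.66 : ℝ) ≤ Real.exp (-U) := by
      have h3 : Real.exp (-ω) ≤ Real.exp (-U) := Real.exp_le_exp.mpr (by linarith)
      refine le_trans ?_ h3
      rw [Real.exp_neg, le_inv_comm₀ (by norm_num) (Real.exp_pos _)]
      refine hexp.trans ?_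
      norm_num
    have hx13 : 13 ≤ x := by
      rw [hx]
      nlinarith
    have h3 : Real.sqrt (2 * Real.pi / x) ≤ 1 := by
      rw [Real.sqrt_le_left (by norm_num), one_pow, div_le_one₀ hx0]
      linarith
    have h4 : W b r U ≤ Real.exp (-x) := by
      unfold W
      have h5 := (le_abs_self _).trans (abs_KK_le hx0 (2 * U / b))
      have h6 := KK_zero_le hx0
      have h7 : Real.exp (-x) * Real.sqrt (2 * Real.pi / x) ≤ Real.exp (-x) * 1 :=
        mul_le_mul_of_nonneg_left h3 (Real.exp_pos _).le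
      linarith
    unfold EW
    calc Real.exp (-(2 * (Real.pi / 2) * U / b)) * W b r U
        ≤ Real.exp (-(2 * (Real.pi / 2) * U / b)) * Real.exp (-x) :=
          mul_le_mul_of_nonneg_left h4 (Real.exp_pos _).le
      _ = Real.exp (-(Real.pi * U / b) - 2 * r * Real.exp (-U)) := by
          rw [← Real.exp_add]
          congr 1
          rw [hx]
          ring
      _ ≤ Real.exp (U + 4.18 * r) := Real.exp_le_exp.mpr (hlin U)
      _ = Real.exp (4.18 * r) * Real.exp (1 * U) := by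
          rw [← Real.exp_add]
          congr 1
          ring
  have hi : IntegrableOn (fun U : ℝ => Real.exp (1 * U)) (Iic ω) := integrableOn_exp_mul_Iic one_pos ω
  calc ∫ U in Iic ω, EW b r (Real.pi / 2) U ≤
        ∫ U in Iic ω, Real.exp (4.18 * r) * Real.exp (1 * U) :=
        setIntegral_mono_on hI.integrableOn (hi.const_mul _) measurableSet_Iic hpt
    _ = Real.exp (4.18 * r) * (Real.exp ω) := by
        rw [integral_const_mul, integral_exp_mul_Iic one_pos ω]
        simp
    _ ≤ Real.exp (4.2 * r) * 1.5 := by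
        refine mul_le_mul ?_ (by linarith) (Real.exp_pos _).le (Real.exp_pos _).le
        exact Real.exp_le_exp.mpr (by linarith)
    _ = _ := by ring

/-- the small number -/
theorem small {r : ℝ} (hr : 10 ≤ r) : r * (5.2 * Real.exp (-(0.88 * r))) ≤ 0.008 := by
  have h1 : r * Real.exp (-(0.88 * r)) ≤ 10 * Real.exp (-(0.88 * 10)) := by
    have h2 : r ≤ 10 * Real.exp (0.88 * (r - 10)) := by
      have := Real.add_one_le_exp (0.88 * (r - 10))
      nlinarith
    have h3 : Real.exp (-(0.88 * 10)) = Real.exp (0.88 * (r - 10)) * Real.exp (-(0.88 * r)) := by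
      rw [← Real.exp_add]
      congr 1
      ring
    rw [h3]
    have := mul_le_mul_of_nonneg_right h2 (Real.exp_pos (-(0.88 * r))).le
    linarith
  have h2 : Real.exp (-(0.88 * 10)) ≤ 0.000151 := by
    have h3 : Real.exp (-(0.88 * 10)) = (Real.exp 1 ^ 9)⁻¹ * Real.exp 0.2 := by
      rw [← Real.exp_nat_mul, ← Real.exp_neg, ← Real.exp_add]
      congr 1
      norm_num
    have h4 : Real.exp 0.2 ≤ 1.2215 := by
      have h5 := Real.exp_bound' (x := (0.2 : ℝ)) (by norm_num) (by norm_num) (n := 4) (by norm_num)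
      refine h5.trans ?_
      norm_num [Finset.sum_range_succ, Nat.factorial]
    have h5 : (8100 : ℝ) ≤ Real.exp 1 ^ 9 := by
      have h6 := Real.exp_one_gt_d9
      have h7 : (2.718281 : ℝ) ^ 9 ≤ Real.exp 1 ^ 9 := pow_le_pow_left₀ (by norm_num) (by linarith) 9
      refine le_trans ?_ h7
      norm_num
    have h6 : (Real.exp 1 ^ 9)⁻¹ ≤ (8100 : ℝ)⁻¹ := inv_anti₀ (by norm_num) h5
    rw [h3]
    have := mul_le_mul h6 h4 (Real.exp_pos _).le (by norm_num)
    refine this.trans ?_
    norm_num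
  nlinarith

theorem log_one_sub_ge {d : ℝ} (hd0 : 0 < d) (hd1 : d ≤ 0.0008) : -(2 * d) ≤ Real.log (1 - d) := by
  have h1d : (0 : ℝ) < 1 - d := by linarith
  have h5 := Real.one_sub_inv_le_log_of_pos (x := 1 - d) h1d
  have h6 : 1 - (1 - d)⁻¹ = -(d / (1 - d)) := by
    field_simp
    ring
  rw [h6] at h5
  have h7 : d / (1 - d) ≤ 2 * d := by
    rw [div_le_iff₀ h1d]
    have h8 : 2 * d * (1 - d) - d = d * (1 - 2 * d) := by ring
    have h9 : 0 ≤ d * (1 - 2 * d) := mul_nonneg hd0.le (by linarith)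
    linarith
  linarith

theorem slope_real {P N Mp Mm d D m r b s : ℝ} (hP0 : 0 < P) (hd0 : 0 < d) (hd1 : d ≤ 0.0008)
    (hrd : r * d ≤ 0.008) (hr : 10 ≤ r) (hN : |N| ≤ d * P) (hMm : |Mm| ≤ 0.6 * (d * P))
    (hmP : m * P = Mp) (hb : 0 < b) (hD : D = 2 * s / b) (hD0 : 0 ≤ D) (hDr : D ≤ 6.6 * r)
    (hDm : |D * m| ≤ 7 * r) (hJ : 0 < P + N) :
    s * ((-(2 / b) * (Mp + Mm)) / (P + N)) ≤ -(D * m) + 0.095 := by
  have e1 : s * ((-(2 / b) * (Mp + Mm)) / (P + N)) =
      -(D * m) - (D * Mm - (D * m) * N) / (P + N) := by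
    rw [← hmP, hD]
    field_simp
    ring
  rw [e1]
  have hr0 : 0 < r := by linarith
  have h4 : D * |Mm| ≤ (6.6 * r) * (0.6 * (d * P)) :=
    mul_le_mul hDr hMm (abs_nonneg _) (by positivity)
  have h5 : |D * m| * |N| ≤ (7 * r) * (d * P) :=
    mul_le_mul hDm hN (abs_nonneg _) (by positivity)
  have h6 : (6.6 * r) * (0.6 * (d * P)) + (7 * r) * (d * P) = 10.96 * ((r * d) * P) := by ring
  have h7 : (r * d) * P ≤ 0.008 * P := mul_le_mul_of_nonneg_right hrd hP0.le
  have h2 : |D * Mm - (D * m) * N| ≤ 0.088 * P := by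
    have h8 := abs_sub (D * Mm) ((D * m) * N)
    rw [abs_mul, abs_mul (D * m), abs_of_nonneg hD0] at h8
    linarith
  have h9 := (abs_le.mp hN).1
  have h10 : d * P ≤ 0.0008 * P := mul_le_mul_of_nonneg_right hd1 hP0.le
  have h3 : |(D * Mm - (D * m) * N) / (P + N)| ≤ 0.095 := by
    rw [abs_div, abs_of_pos hJ, div_le_iff₀ hJ]
    refine h2.trans ?_
    linarith
  have h11 := (abs_le.mp h3).1
  linarith

theorem tangent_real {P N Mp Mm Pa Na d D m r b s : ℝ} (hP0 : 0 < P) (hPa0 : 0 < Pa)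
    (hd0 : 0 < d) (hd1 : d ≤ 0.0008)
    (hrd : r * d ≤ 0.008) (hr : 10 ≤ r) (hN : |N| ≤ d * P) (hMm : |Mm| ≤ 0.6 * (d * P))
    (hNa : |Na| ≤ d * Pa)
    (hmP : m * P = Mp) (hb : 0 < b) (hD : D = 2 * s / b) (hD0 : 0 ≤ D) (hDr : D ≤ 6.6 * r)
    (hDm : |D * m| ≤ 7 * r) (hJen : Real.exp (-(D * m)) * P ≤ Pa) :
    Real.log (P + N) + s * ((-(2 / b) * (Mp + Mm)) / (P + N)) - 0.1 ≤ Real.log (Pa + Na) := by
  have h1d : (0 : ℝ) < 1 - d := by linarith
  have h1d' : (0 : ℝ) < 1 + d := by linarith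
  have hNb := abs_le.mp hN
  have hNab := abs_le.mp hNa
  have h10 : d * P ≤ 0.0008 * P := mul_le_mul_of_nonneg_right hd1 hP0.le
  have hJ : 0 < P + N := by linarith [hNb.1]
  have hs := slope_real hP0 hd0 hd1 hrd hr hN hMm hmP hb hD hD0 hDr hDm hJ
  have hlog1 : Real.log P - D * m ≤ Real.log Pa := by
    have h2 := Real.log_le_log (mul_pos (Real.exp_pos _) hP0) hJen
    rw [Real.log_mul (Real.exp_pos _).ne' hP0.ne', Real.log_exp] at h2
    linarith
  have hlog2 : Real.log Pa - 2 * d ≤ Real.log (Pa + Na) := by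
    have h2 : Pa * (1 - d) ≤ Pa + Na := by
      have : Pa * (1 - d) = Pa - d * Pa := by ring
      linarith [hNab.1]
    have h3 := Real.log_le_log (mul_pos hPa0 h1d) h2
    rw [Real.log_mul hPa0.ne' h1d.ne'] at h3
    have h4 := log_one_sub_ge hd0 hd1
    linarith
  have hlog3 : Real.log (P + N) ≤ Real.log P + d := by
    have h2 : P + N ≤ P * (1 + d) := by
      have : P * (1 + d) = P + d * P := by ring
      linarith [hNb.2]
    have h3 := Real.log_le_log hJ h2
    rw [Real.log_mul hP0.ne' h1d'.ne'] at h3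
    have h4 := Real.log_le_sub_one_of_pos h1d'
    linarith
  linarith

/-- growth of the exponent `D m` -/
theorem Dm_le {x c0 b r P Pa : ℝ} (hr : 10 ≤ r) (hk : (0.3678 : ℝ) ≤ b * r)
    (hc0 : c0 = 0.46 * b * Real.exp (-(2 * r))) (hPc : c0 ≤ P) (hJen : Real.exp x * P ≤ Pa)
    (h2 : Pa ≤ 1.5 * Real.exp (4.2 * r)) : x ≤ 7 * r := by
  have hr0 : 0 < r := by linarith
  have h3 : Real.exp x * c0 ≤ 1.5 * Real.exp (4.2 * r) :=
    (mul_le_mul_of_nonneg_left hPc (Real.exp_pos _).le).trans (hJen.trans h2)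
  have h4 : Real.exp x ≤ 9 * r * Real.exp (6.2 * r) := by
    have h5 : Real.exp (6.2 * r) = Real.exp (4.2 * r) * Real.exp (2 * r) := by
      rw [← Real.exp_add]
      congr 1
      ring
    have h6 : Real.exp (2 * r) * Real.exp (-(2 * r)) = 1 := by
      rw [← Real.exp_add]
      simp
    have h7 : (0.3678 / r) ≤ b := by
      rw [div_le_iff₀ hr0]
      exact hk
    have h8 : Real.exp x * (0.46 * (0.3678 / r) * Real.exp (-(2 * r))) ≤
        1.5 * Real.exp (4.2 * r) := by
      refine le_trans ?_ h3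
      refine mul_le_mul_of_nonneg_left ?_ (Real.exp_pos _).le
      rw [hc0]
      refine mul_le_mul_of_nonneg_right ?_ (Real.exp_pos _).le
      linarith
    have h9 : Real.exp x = Real.exp x * (0.46 * (0.3678 / r) * Real.exp (-(2 * r))) *
        (r / (0.46 * 0.3678) * Real.exp (2 * r)) := by
      have : (0.46 * (0.3678 / r) * Real.exp (-(2 * r))) * (r / (0.46 * 0.3678) * Real.exp (2 * r)) =
          Real.exp (2 * r) * Real.exp (-(2 * r)) := by
        field_simp
      rw [mul_assoc, this, h6, mul_one]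
    rw [h9, h5]
    calc Real.exp x * (0.46 * (0.3678 / r) * Real.exp (-(2 * r))) *
          (r / (0.46 * 0.3678) * Real.exp (2 * r))
        ≤ 1.5 * Real.exp (4.2 * r) * (r / (0.46 * 0.3678) * Real.exp (2 * r)) :=
          mul_le_mul_of_nonneg_right h8 (by positivity)
      _ = 1.5 / (0.46 * 0.3678) * (r * (Real.exp (4.2 * r) * Real.exp (2 * r))) := by ring
      _ ≤ 9 * (r * (Real.exp (4.2 * r) * Real.exp (2 * r))) :=
          mul_le_mul_of_nonneg_right (by norm_num) (by positivity)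
      _ = _ := by ring
  have h5 : 9 * r * Real.exp (6.2 * r) ≤ Real.exp (7 * r) := by
    have h6 : Real.exp (7 * r) = Real.exp (0.8 * r) * Real.exp (6.2 * r) := by
      rw [← Real.exp_add]
      congr 1
      ring
    have h7 : 9 * r ≤ Real.exp (0.8 * r) := by
      have h8 : Real.exp (0.8 * r) = Real.exp (0.2 * r) ^ 4 := by
        rw [← Real.exp_nat_mul]
        congr 1
        push_cast
        ring
      have h9 := Real.quadratic_le_exp_of_nonneg (x := 0.2 * r) (by positivity)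
      have h10 : (5 : ℝ) ≤ Real.exp (0.2 * r) := by nlinarith
      have h11 : 0.2 * r ≤ Real.exp (0.2 * r) := by nlinarith
      rw [h8]
      have h12 : (5 : ℝ) ^ 3 ≤ Real.exp (0.2 * r) ^ 3 := pow_le_pow_left₀ (by norm_num) h10 3
      have h13 : Real.exp (0.2 * r) ^ 4 = Real.exp (0.2 * r) ^ 3 * Real.exp (0.2 * r) := by ring
      rw [h13]
      have h14 := mul_le_mul h12 h11 (by positivity) (by positivity)
      linarith
    rw [h6]
    exact mul_le_mul_of_nonneg_right h7 (Real.exp_pos _).le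
  exact Real.exp_le_exp.mp (h4.trans h5)

/-- the mean on the main part is at most `ω` -/
theorem mean_le {b r τ ω : ℝ} (hb : 0 < b) (hr0 : 0 < r) (h1 : Real.exp (-1) ≤ b * r)
    (hτ0 : 0 < τ) (hω : ω * Real.exp ω = b * r) (hω0 : 0 < ω) :
    ∫ U in Iic ω, U * EW b r τ U ≤ ω * ∫ U in Iic ω, EW b r τ U := by
  have hI := integrable_EW hb hr0 hτ0
  have hIU := integrable_UEW hb hr0 hτ0
  rw [← integral_const_mul]
  refine setIntegral_mono_on hIU.integrableOn (hI.integrableOn.const_mul ω) measurableSet_Iic ?_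
  intro U hU
  have hU' : U ≤ ω := hU
  exact mul_le_mul_of_nonneg_right hU' (mul_pos (Real.exp_pos _) (W_pos hb hr0 h1 hω hω0 hU)).le

/-- Jensen on the main part -/
theorem jensen {b r τ ω D m : ℝ} (hb : 0 < b) (hr0 : 0 < r) (h1 : Real.exp (-1) ≤ b * r)
    (hτ0 : 0 < τ) (hω : ω * Real.exp ω = b * r) (hω0 : 0 < ω)
    (hD : D = 2 * (Real.pi / 2 - τ) / b)
    (hm : m * (∫ U in Iic ω, EW b r τ U) = ∫ U in Iic ω, U * EW b r τ U) :
    Real.exp (-(D * m)) * (∫ U in Iic ω, EW b r τ U) ≤ ∫ U in Iic ω, EW b r (Real.pi / 2) U := by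
  have hpi := Real.pi_gt_d4
  have hI := integrable_EW hb hr0 hτ0
  have hIU := integrable_UEW hb hr0 hτ0
  have hIa := integrable_EW hb hr0 (by linarith : 0 < Real.pi / 2)
  have h2 : ∫ U in Iic ω, Real.exp (-(D * m)) * ((1 + D * m) * EW b r τ U - D * (U * EW b r τ U)) ≤
      ∫ U in Iic ω, EW b r (Real.pi / 2) U := by
    refine setIntegral_mono_on ?_ hIa.integrableOn measurableSet_Iic ?_
    · exact ((hI.integrableOn.const_mul _).sub (hIU.integrableOn.const_mul _)).const_mul _
    · intro U hU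
      have hWp := W_pos hb hr0 h1 hω hω0 hU
      have h3 : EW b r (Real.pi / 2) U = Real.exp (-(D * U)) * EW b r τ U := by
        unfold EW
        rw [← mul_assoc, ← Real.exp_add]
        congr 2
        rw [hD]
        field_simp
        ring
      have h4 : Real.exp (-(D * m)) * (1 + D * m - D * U) ≤ Real.exp (-(D * U)) := by
        have h5 := Real.add_one_le_exp (D * m - D * U)
        have h6 : Real.exp (-(D * U)) = Real.exp (-(D * m)) * Real.exp (D * m - D * U) := by
          rw [← Real.exp_add]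
          congr 1
          ring
        rw [h6]
        exact mul_le_mul_of_nonneg_left (by linarith) (Real.exp_pos _).le
      have h7 : 0 < EW b r τ U := mul_pos (Real.exp_pos _) hWp
      rw [h3]
      have h8 := mul_le_mul_of_nonneg_right h4 h7.le
      have h9 : Real.exp (-(D * m)) * ((1 + D * m) * EW b r τ U - D * (U * EW b r τ U)) =
          Real.exp (-(D * m)) * (1 + D * m - D * U) * EW b r τ U := by ring
      rw [h9]
      exact h8
  rw [integral_const_mul, integral_sub (hI.integrableOn.const_mul _)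
    ((hIU.integrableOn).const_mul _), integral_const_mul, integral_const_mul, ← hm] at h2
  refine le_trans (le_of_eq ?_) h2
  ring

/-- **tangent inequality for `log JJ`** and the lower bound -/
theorem tangent {b r τ : ℝ} (hb : 0 < b) (hr : 10 ≤ r) (h1 : Real.exp (-1) ≤ b * r)
    (hκ : b * r ≤ 0.6) (hτ : b * r ≤ τ) (hτ1 : τ ≤ Real.pi / 2) :
    0.45 * b * Real.exp (-(2 * r)) ≤ JJ b r τ ∧
    Real.log (JJ b r τ) + (Real.pi / 2 - τ) *
      ((-(2 / b) * ∫ U : ℝ, U * EW b r τ U) / JJ b r τ) - 0.1 ≤ Real.log (JJ b r (Real.pi / 2)) := by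
  obtain ⟨ω, hω0, hω1, hω, hω2⟩ := exists_omega h1 hκ
  have hr0 : 0 < r := by linarith
  have hκ0 : 0 < b * r := mul_pos hb hr0
  have hτ0 : 0 < τ := by linarith
  have hpi := Real.pi_gt_d4
  have hpi' := Real.pi_lt_d4
  have hk := exp_neg_one_ge.trans h1
  have hp2 : b * r ≤ Real.pi / 2 := by linarith
  have hI := integrable_EW hb hr0 hτ0
  have hIU := integrable_UEW hb hr0 hτ0
  have hIa := integrable_EW hb hr0 (by linarith : 0 < Real.pi / 2)
  have hJ : JJ b r τ = (∫ U in Iic ω, EW b r τ U) + ∫ U in Ioi ω, EW b r τ U := by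
    rw [JJ_eq]
    exact (intervalIntegral.integral_Iic_add_Ioi hI.integrableOn hI.integrableOn).symm
  have hJa : JJ b r (Real.pi / 2) =
      (∫ U in Iic ω, EW b r (Real.pi / 2) U) + ∫ U in Ioi ω, EW b r (Real.pi / 2) U := by
    rw [JJ_eq]
    exact (intervalIntegral.integral_Iic_add_Ioi hIa.integrableOn hIa.integrableOn).symm
  have hM : ∫ U : ℝ, U * EW b r τ U =
      (∫ U in Iic ω, U * EW b r τ U) + ∫ U in Ioi ω, U * EW b r τ U :=
    (intervalIntegral.integral_Iic_add_Ioi hIU.integrableOn hIU.integrableOn).symm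
  have hPc := main_ge hb hr h1 hκ hτ hω hω0
  have hPac := main_ge hb hr h1 hκ hp2 hω hω0
  obtain ⟨hNle, hMmle⟩ := tail_le hb hr h1 hκ hτ hω0 hω1 hω2 hω
  obtain ⟨hNale, -⟩ := tail_le hb hr h1 hκ hp2 hω0 hω1 hω2 hω
  have hmle := mean_le hb hr0 h1 hτ0 hω hω0
  have hax := main_axis_le hb hr h1 hκ hω0 hω1
  have hJen := fun (m : ℝ) hm => jensen (m := m) hb hr0 h1 hτ0 hω hω0 rfl hm
  have hrd : r * (5.2 * Real.exp (-(0.88 * r))) ≤ 0.008 := small hr
  have hd0' : 0 < 5.2 * Real.exp (-(0.88 * r)) := mul_pos (by norm_num) (Real.exp_pos _)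
  have hc00 : 0 < 0.46 * b * Real.exp (-(2 * r)) := mul_pos (mul_pos (by norm_num) hb) (Real.exp_pos _)
  rw [hJ, hJa, hM]
  generalize (∫ U in Iic ω, EW b r τ U) = P at *
  generalize (∫ U in Iic ω, U * EW b r τ U) = Mp at *
  generalize (∫ U in Ioi ω, EW b r τ U) = N at *
  generalize (∫ U in Ioi ω, U * EW b r τ U) = Mm at *
  generalize (∫ U in Iic ω, EW b r (Real.pi / 2) U) = Pa at *
  generalize (∫ U in Ioi ω, EW b r (Real.pi / 2) U) = Na at *
  generalize hd : 5.2 * Real.exp (-(0.88 * r)) = d at *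
  obtain ⟨c0, hc0⟩ : ∃ c0, c0 = 0.46 * b * Real.exp (-(2 * r)) := ⟨_, rfl⟩
  rw [← hc0] at hPc hPac hNle hMmle hNale hc00
  have hP0 : 0 < P := lt_of_lt_of_le hc00 hPc
  have hPa0 : 0 < Pa := lt_of_lt_of_le hc00 hPac
  have hN1 : |N| ≤ d * P := hNle.trans (mul_le_mul_of_nonneg_left hPc hd0'.le)
  have hMm1 : |Mm| ≤ 0.6 * (d * P) := by
    refine hMmle.trans ?_
    have := mul_le_mul_of_nonneg_left hPc hd0'.le
    linarith
  have hNa1 : |Na| ≤ d * Pa := hNale.trans (mul_le_mul_of_nonneg_left hPac hd0'.le)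
  have hd1 : d ≤ 0.0008 := by
    have : 10 * d ≤ r * d := mul_le_mul_of_nonneg_right hr hd0'.le
    linarith
  have hmP : Mp / P * P = Mp := div_mul_cancel₀ _ hP0.ne'
  have hD0 : 0 ≤ 2 * (Real.pi / 2 - τ) / b := div_nonneg (by linarith) hb.le
  have hDr : 2 * (Real.pi / 2 - τ) / b ≤ 6.6 * r := by
    rw [div_le_iff₀ hb]
    have : 6.6 * r * b = 6.6 * (b * r) := by ring
    rw [this]
    linarith
  have hJen' := hJen (Mp / P) hmP
  have hmω : Mp / P ≤ ω := by
    rw [div_le_iff₀ hP0]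
    exact hmle
  generalize Mp / P = m at *
  generalize hDD : 2 * (Real.pi / 2 - τ) / b = D at *
  have hDm1 : D * m ≤ 7 * r := by
    have h3 : D * m ≤ D * ω := mul_le_mul_of_nonneg_left hmω hD0
    have h4 : D * ω ≤ (6.6 * r) * 0.402 := mul_le_mul hDr hω1 hω0.le (by positivity)
    linarith
  have hDm2 : -(D * m) ≤ 7 * r := Dm_le hr hk hc0 hPc hJen' hax
  refine ⟨?_, ?_⟩
  · have h3 : 0.45 * b * Real.exp (-(2 * r)) = 0.45 / 0.46 * c0 := by
      rw [hc0]
      ring
    rw [h3]
    have h4 := (abs_le.mp hN1).1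
    have h5 : d * P ≤ 0.0008 * P := mul_le_mul_of_nonneg_right hd1 hP0.le
    linarith
  · exact tangent_real hP0 hPa0 hd0' hd1 hrd hr hN1 hMm1 hNa1 hmP hb hDD.symm hD0 hDr
      (abs_le.mpr ⟨by linarith, hDm1⟩) hJen'

end CT

end Sok
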