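import Mathlib
import Pool.Agent.Lib.MP_816dec_an.A0Split
import Pool.Agent.Lib.MP_816dec_an.AxisC
import Pool.Agent.Lib.MP_816dec_an.Deriv
import Pool.Agent.Lib.MP_816dec_an.Arc

/-!
MP_816dec_an: corner `b = 1`, `κ ≤ 0.6`: the remainder `T = F - C - A`, crude upper bound of `C`, derivative of `F`
along the circle.
-/

set_option autoImplicit false

open Complex Set Filter Topology

namespace Sok

/-- the remainder -/
noncomputable def TT (β r t : ℝ) : ℂ := Ft β r t - CC β r (t + 2 * Real.pi) - AA β r t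

/-- the factor of the derivative in `t` -/
noncomputable def dF (β r t : ℝ) : ℂ := I * r * cexp (I * (t + β / 2))

theorem norm_dF {β r : ℝ} (hr : 0 ≤ r) (t : ℝ) : ‖dF β r t‖ = r := by
  unfold dF
  have e1 : I * ((t : ℂ) + β / 2) = ((t + β / 2 : ℝ) : ℂ) * I := by push_cast; ring
  rw [norm_mul, norm_mul, Complex.norm_I, one_mul, Complex.norm_real, Real.norm_of_nonneg hr, e1,
    Complex.norm_exp_ofReal_mul_I, mul_one]

theorem dF_add_two_pi (β r t : ℝ) : dF β r (t + 2 * Real.pi) = dF β r t := by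
  unfold dF
  have e1 : I * (((t + 2 * Real.pi : ℝ) : ℂ) + β / 2) = I * (t + β / 2) + 2 * Real.pi * I := by push_cast; ring
  rw [e1, Complex.exp_add, Complex.exp_two_pi_mul_I, mul_one]

theorem Ft_eq_Fa (β r t : ℝ) : Ft β r t = Fa β (r * cexp (I * (t + β / 2))) := by
  unfold Ft Fa
  rw [mul_comm I (β : ℂ)]

theorem Ft_add_two_pi (β r t : ℝ) : Ft β r (t + 2 * Real.pi) = Ft β r t := by
  unfold Ft
  have e1 : I * (((t + 2 * Real.pi : ℝ) : ℂ) + β / 2) = I * (t + β / 2) + 2 * Real.pi * I := by push_cast; ring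
  rw [e1, Complex.exp_add, Complex.exp_two_pi_mul_I, mul_one]

/-- derivative along the circle -/
theorem hasDerivAt_Ft' (β r t : ℝ) :
    HasDerivAt (Ft β r) (dF β r t * deriv (Fa β) (r * cexp (I * (t + β / 2)))) t := by
  have h1 : HasDerivAt (fun s : ℝ => (r : ℂ) * cexp (I * (s + β / 2))) (dF β r t) t := by
    have h2 : HasDerivAt (fun s : ℝ => I * ((s : ℂ) + β / 2)) (I * 1) t := by
      have h3 : HasDerivAt (fun s : ℝ => (s : ℂ)) 1 t := by
        simpa using (hasDerivAt_id t).ofReal_comp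
      exact (h3.add_const _).const_mul I
    have h4 := (h2.cexp).const_mul (r : ℂ)
    refine h4.congr_deriv ?_
    unfold dF
    ring
  have h5 : HasDerivAt (Fa β) (deriv (Fa β) (r * cexp (I * (t + β / 2)))) (r * cexp (I * (t + β / 2))) :=
    (differentiable_Fa β _).hasDerivAt
  have h6 := HasDerivAt.comp t h5 h1
  have e1 : Ft β r = Fa β ∘ (fun s : ℝ => (r : ℂ) * cexp (I * (s + β / 2))) := by
    funext s
    exact Ft_eq_Fa β r s
  rw [e1]
  refine h6.congr_deriv ?_
  ring

theorem deriv_eq_Ft (β r t : ℝ) : deriv (Fa β) (r * cexp (I * (t + β / 2))) = Ft β r (t + β) := by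
  rw [deriv_Fa, Ft_eq_Fa]
  congr 1
  have e1 : cexp ((β : ℂ) * I) * (r * cexp (I * (t + β / 2))) = r * (cexp (I * (t + β / 2)) * cexp ((β : ℂ) * I)) := by
    ring
  rw [e1, ← Complex.exp_add]
  congr 2
  push_cast
  ring

theorem hasDerivAt_Ft_dF (β r t : ℝ) : HasDerivAt (Ft β r) (dF β r t * Ft β r (t + β)) t := by
  rw [← deriv_eq_Ft]
  exact hasDerivAt_Ft' β r t

theorem hasDerivAt_AA_dF {β r : ℝ} (hβ : 0 < β) (hr : 0 < r) (t : ℝ) :
    HasDerivAt (AA β r) (dF β r t * AA β r (t + β)) t := by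
  have h := hasDerivAt_AA hβ hr t
  rwa [← mul_assoc I] at h

theorem hasDerivAt_CC_dF {β r : ℝ} (hβ : 0 < β) (hr : 0 < r) (t : ℝ) :
    HasDerivAt (CC β r) (dF β r t * CC β r (t + β)) t := by
  have h := hasDerivAt_CC hβ hr t
  rwa [← mul_assoc I] at h

/-- derivative of the remainder from the derivatives of the valley functions -/
theorem hasDerivAt_TT {β r t : ℝ} (hA : HasDerivAt (AA β r) (dF β r t * AA β r (t + β)) t)
    (hC : HasDerivAt (fun s => CC β r (s + 2 * Real.pi)) (dF β r t * CC β r (t + β + 2 * Real.pi)) t) :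
    HasDerivAt (TT β r) (dF β r t * TT β r (t + β)) t := by
  have h := ((hasDerivAt_Ft_dF β r t).sub hC).sub hA
  refine h.congr_deriv ?_
  unfold TT
  ring

/-- the remainder is tiny -/
theorem norm_TT_le {β r t : ℝ} (hr : 10 ≤ r) (hβ : 0 < β) (hκ : β * r ≤ 0.6) (ht : t ≤ -(Real.pi / 2) + β) :
    ‖TT β r t‖ ≤ Real.exp (-(4.99 / β)) := by
  have hpi := Real.pi_gt_d4
  have hpi' := Real.pi_lt_d4
  have hβ1 : β ≤ 0.06 := by nlinarith
  have h1 := norm_Ft_sub_two_le (t := t) hβ (by linarith : 0 < r) (y := 2) two_pos (by linarith)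
  refine h1.trans ?_
  have he2 : Real.exp 2 ≤ 7.39 := by
    have h2 := Real.exp_one_lt_d9
    have h3 : Real.exp 2 = Real.exp 1 * Real.exp 1 := by rw [← Real.exp_add]; norm_num
    rw [h3]
    have := Real.exp_pos 1
    nlinarith
  obtain ⟨s, hs⟩ : ∃ s : ℝ, s = Real.sqrt (2 * Real.pi * β) := ⟨_, rfl⟩
  have hsp : 0 < s := by rw [hs]; positivity
  have hss : s * s = 2 * Real.pi * β := by rw [hs]; exact Real.mul_self_sqrt (by positivity)
  have hs1 : s ≤ 1 := by
    have : s * s ≤ 1 := by rw [hss]; nlinarith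
    nlinarith
  rw [← hs]
  have hexp1 : Real.exp (r * Real.exp 2) ≤ Real.exp (4.434 / β) := by
    apply Real.exp_le_exp.2
    rw [le_div_iff₀ hβ]
    have : r * Real.exp 2 * β = (β * r) * Real.exp 2 := by ring
    rw [this]
    nlinarith [Real.exp_pos 2]
  have h3 : β / 2 * Real.exp (r * Real.exp 2) + β / (Real.pi - t) ≤ β * (3 / 4) * Real.exp (4.434 / β) := by
    have h4 : β / (Real.pi - t) ≤ β / 4 := by
      apply div_le_div_of_nonneg_left hβ.le (by norm_num)
      linarith
    have h5 : 1 ≤ Real.exp (4.434 / β) := Real.one_le_exp (by positivity)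
    nlinarith
  have h6 : Real.exp (-((Real.pi - t) * 2 / β)) ≤ Real.exp (-(9.4244 / β) + 2) := by
    apply Real.exp_le_exp.2
    have h7 : 9.4244 - 2 * β ≤ (Real.pi - t) * 2 := by linarith
    have h8 : (9.4244 - 2 * β) / β ≤ (Real.pi - t) * 2 / β := div_le_div_of_nonneg_right h7 hβ.le
    have h9 : (9.4244 - 2 * β) / β = 9.4244 / β - 2 := by field_simp
    linarith
  calc s⁻¹ * ((β / 2 * Real.exp (r * Real.exp 2) + β / (Real.pi - t)) * Real.exp (-((Real.pi - t) * 2 / β)))
      ≤ s⁻¹ * ((β * (3 / 4) * Real.exp (4.434 / β)) * Real.exp (-(9.4244 / β) + 2)) := by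
        apply mul_le_mul_of_nonneg_left _ (inv_pos.2 hsp).le
        exact mul_le_mul h3 h6 (Real.exp_pos _).le (by positivity)
    _ = s⁻¹ * β * (3 / 4) * Real.exp 2 * Real.exp (-(4.9904 / β)) := by
        have e1 : Real.exp (4.434 / β) * Real.exp (-(9.4244 / β) + 2) = Real.exp 2 * Real.exp (-(4.9904 / β)) := by
          rw [← Real.exp_add, ← Real.exp_add]
          congr 1
          ring
        calc _ = s⁻¹ * β * (3 / 4) * (Real.exp (4.434 / β) * Real.exp (-(9.4244 / β) + 2)) := by ring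
          _ = _ := by rw [e1]; ring
    _ ≤ 1 * Real.exp (-(4.99 / β)) := by
        apply mul_le_mul _ _ (Real.exp_pos _).le zero_le_one
        · have h10 : s⁻¹ * β ≤ 0.16 := by
            rw [inv_mul_le_iff₀ hsp]
            nlinarith
          have := Real.exp_pos 2
          nlinarith [inv_pos.2 hsp, mul_pos (inv_pos.2 hsp) hβ]
        · apply Real.exp_le_exp.2
          have : 4.99 / β ≤ 4.9904 / β := div_le_div_of_nonneg_right (by norm_num) hβ.le
          linarith
    _ = _ := one_mul _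

/-- crude upper bound of `C` -/
theorem norm_CC_le_crude {β r t : ℝ} (hr : 10 ≤ r) (hβ : 0 < β) (hκ1 : Real.exp (-1) ≤ β * r)
    (hκ : β * r ≤ 0.6) (ht1 : Real.pi + β * r + β ≤ t) (ht2 : t ≤ 3 * Real.pi / 2 + β) :
    ‖CC β r t‖ ≤ Real.exp (0.97 / β) := by
  have hpi := Real.pi_gt_d4
  have hpi' := Real.pi_lt_d4
  have hβ1 : β ≤ 0.06 := by nlinarith
  have hr0 : 0 < r := by linarith
  obtain ⟨x, hx⟩ : ∃ x : ℝ, x = (t - Real.pi) / β - 1 := ⟨_, rfl⟩
  have hxb : x * β = t - Real.pi - β := by rw [hx]; field_simp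
  have hx1 : r ≤ x := by
    have : r * β ≤ x * β := by rw [hxb]; linarith
    exact le_of_mul_le_mul_right this hβ
  have hx2 : x * β ≤ Real.pi / 2 := by rw [hxb]; linarith
  have h1 := norm_CC_le (t := t) hβ hr0 (S := Real.pi) (by linarith) (by linarith) (by nlinarith)
  rw [Real.cos_pi, neg_neg, mul_one] at h1
  have e1 : (t - Real.pi) / β = 1 + x := by rw [hx]; ring
  rw [e1] at h1
  refine h1.trans ?_
  have hx0 : 0 < x := by linarith
  have hG : 0 < Real.Gamma (1 + x) := Real.Gamma_pos_of_pos (by linarith)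
  have h2 := log_Gamma_one_add_le (x := x) (by linarith)
  -- `log` of the bound
  obtain ⟨s, hs⟩ : ∃ s : ℝ, s = Real.sqrt (2 * Real.pi * β) := ⟨_, rfl⟩
  have hsp : 0 < s := by rw [hs]; positivity
  have hss : s ^ 2 = 2 * Real.pi * β := by rw [hs]; exact Real.sq_sqrt (by positivity)
  rw [← hs]
  have hpos : 0 < s⁻¹ * (Real.Gamma (1 + x) * r ^ (-(1 + x))) := by positivity
  rw [← Real.exp_log hpos]
  apply Real.exp_le_exp.2
  rw [Real.log_mul (inv_pos.2 hsp).ne' (by positivity), Real.log_mul hG.ne' (by positivity), Real.log_inv,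
    Real.log_rpow hr0]
  -- logs
  have hlogs : Real.log s = 1 / 2 * Real.log (2 * Real.pi * β) := by
    rw [← hss, Real.log_pow]; push_cast; ring
  have hlogxr : Real.log x ≤ Real.log r + 1.48 := by
    have h3 : x ≤ r * Real.exp 1.48 := by
      have h4 : x * β ≤ (r * Real.exp 1.48) * β := by
        have h5 : (1:ℝ) + 0.48 + 0.48 ^ 2 / 2 ≤ Real.exp 0.48 := Real.quadratic_le_exp_of_nonneg (by norm_num)
        have h6 : Real.exp 1.48 = Real.exp 1 * Real.exp 0.48 := by rw [← Real.exp_add]; norm_num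
        have h7 : r * Real.exp 1.48 * β = (β * r) * Real.exp 1 * Real.exp 0.48 := by rw [h6]; ring
        rw [h7]
        have h8 : 1 ≤ (β * r) * Real.exp 1 := by
          have h9 := mul_le_mul_of_nonneg_right hκ1 (Real.exp_pos 1).le
          rw [← Real.exp_add] at h9
          simpa using h9
        nlinarith [Real.exp_pos 0.48]
      exact le_of_mul_le_mul_right h4 hβ
    have h5 := Real.log_le_log hx0 h3
    rwa [Real.log_mul hr0.ne' (Real.exp_pos _).ne', Real.log_exp] at h5
  have hlb : Real.log (2 * Real.pi * β) ≥ -Real.log (1 / β) := by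
    rw [Real.log_mul (by positivity) hβ.ne', Real.log_div one_ne_zero hβ.ne', Real.log_one]
    have : 0 ≤ Real.log (2 * Real.pi) := Real.log_nonneg (by linarith)
    linarith
  have hlh : Real.log (1 / β) ≤ 0.2 * (1 / β) := by
    -- `log h ≤ 0.2 h` for `h ≥ 16.6`
    have hb : (16.6 : ℝ) ≤ 1 / β := by
      rw [le_div_iff₀ hβ]; linarith
    have h3 : Real.log (1 / β) ≤ Real.log 16.6 + (1 / β / 16.6 - 1) := by
      have h4 : (0:ℝ) < 1 / β / 16.6 := by positivity
      have h5 := Real.log_le_sub_one_of_pos h4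
      rw [Real.log_div (by positivity) (by norm_num)] at h5
      linarith
    have h4 : Real.log 16.6 ≤ 2.85 := by
      have h5 : Real.log 16.6 = 4 * Real.log 2 + Real.log (1 + 0.0375) := by
        have : (16.6 : ℝ) = 2 ^ 4 * (1 + 0.0375) := by norm_num
        rw [this, Real.log_mul (by norm_num) (by norm_num), Real.log_pow]
        push_cast
        ring
      have h6 := Real.log_two_lt_d9
      have h7 := Real.log_le_sub_one_of_pos (x := 1 + 0.0375) (by norm_num)
      linarith
    have h5 : 1 / β / 16.6 ≤ 0.0603 * (1 / β) := by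
      rw [div_le_iff₀ (by norm_num)]
      nlinarith
    linarith
  have hxh : x ≤ 1.571 * (1 / β) := by
    rw [mul_one_div, le_div_iff₀ hβ]
    linarith
  have hlr : Real.log 10 ≤ Real.log r := Real.log_le_log (by norm_num) hr
  have hl10 : (2.07 : ℝ) ≤ Real.log 10 := by
    have h3 : Real.log 8 ≤ Real.log 10 := Real.log_le_log (by norm_num) (by norm_num)
    have h4 : Real.log 8 = 3 * Real.log 2 := by
      have : (8 : ℝ) = 2 ^ 3 := by norm_num
      rw [this, Real.log_pow]
      push_cast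
      ring
    have := Real.log_two_gt_d9
    linarith
  have hmain : x * Real.log x - x - x * Real.log r ≤ 0.48 * x := by
    nlinarith
  have hhalf : 1 / 2 * Real.log x - Real.log r ≤ 0.74 - 1 / 2 * Real.log r := by linarith
  have e2 : (0.97 : ℝ) / β = 0.97 * (1 / β) := by ring
  rw [hlogs, e2]
  have hb : (16.6 : ℝ) ≤ 1 / β := by
    rw [le_div_iff₀ hβ]; linarith
  nlinarith

end Sok
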