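import Mathlib

/-!
MP_816dec_an: the crossing lemma. `F = A + C + T` on an arc, `log |A| - log |C|` has positive slope where it is
nearly `0`, `T` tiny: at most one zero, and it is simple.
-/

set_option autoImplicit false

open Complex Set Filter Topology

namespace Sok

/-- derivative of `log |f|` -/
theorem hasDerivAt_log_norm {f : ℝ → ℂ} {f' : ℂ} {t : ℝ} (hf : HasDerivAt f f' t) (h0 : f t ≠ 0) :
    HasDerivAt (fun s => Real.log ‖f s‖) (f' / f t).re t := by
  have h1 : HasDerivAt (fun s => Complex.normSq (f s)) (2 * ((f t).re * f'.re + (f t).im * f'.im)) t := by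
    have hre : HasDerivAt (fun s => (f s).re) f'.re t := Complex.reCLM.hasFDerivAt.comp_hasDerivAt t hf
    have him : HasDerivAt (fun s => (f s).im) f'.im t := Complex.imCLM.hasFDerivAt.comp_hasDerivAt t hf
    have := (hre.mul hre).add (him.mul him)
    simp only [Complex.normSq_apply]
    refine this.congr_deriv ?_
    ring
  have h2 : Complex.normSq (f t) ≠ 0 := (Complex.normSq_pos.2 h0).ne'
  have h3 := (h1.log h2).const_mul (1 / 2 : ℝ)
  have e1 : (fun s => Real.log ‖f s‖) = fun s => 1 / 2 * Real.log (Complex.normSq (f s)) := by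
    funext s
    rw [Complex.normSq_eq_norm_sq, Real.log_pow]
    push_cast
    ring
  rw [e1]
  refine h3.congr_deriv ?_
  rw [Complex.div_re]
  field_simp

/-- a function whose derivative is positive at each of its zeros has at most one zero on an interval -/
theorem unique_zero_of_upward {D D' : ℝ → ℝ} {a b : ℝ} (hD : ∀ t ∈ Icc a b, HasDerivAt D (D' t) t)
    (hpos : ∀ t ∈ Icc a b, D t = 0 → 0 < D' t) {s t : ℝ} (hs : s ∈ Icc a b) (ht : t ∈ Icc a b)
    (h0s : D s = 0) (h0t : D t = 0) : s = t := by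
  have key : ∀ s t, s ∈ Icc a b → t ∈ Icc a b → D s = 0 → D t = 0 → s < t → False := by
    intro s t hs ht h0s h0t hst
    have hsub : Icc s t ⊆ Icc a b := Icc_subset_Icc hs.1 ht.2
    have h1 : ∀ x ∈ Icc s t, -D x ≤ 0 := by
      refine image_le_of_deriv_right_lt_deriv_boundary (f := fun x => -D x) (f' := fun x => -D' x)
        (B := fun _ => (0 : ℝ)) (B' := fun _ => 0) ?_ ?_ ?_ ?_ ?_
      · exact fun x hx => (hD x (hsub hx)).neg.continuousAt.continuousWithinAt
      · exact fun x hx => (hD x (hsub ⟨hx.1, hx.2.le⟩)).neg.hasDerivWithinAt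
      · simp [h0s]
      · exact fun x => hasDerivAt_const x _
      · intro x hx hx0
        have := hpos x (hsub ⟨hx.1, hx.2.le⟩) (by linarith)
        linarith
    have h2 := hpos t ht h0t
    have h3 := hD t ht
    rw [hasDerivAt_iff_tendsto_slope] at h3
    have h4 : ∀ᶠ x in 𝓝[≠] t, 0 < slope D t x := h3.eventually (lt_mem_nhds h2)
    have h5 : ∀ᶠ x in 𝓝[<] t, 0 < slope D t x := h4.filter_mono (nhdsWithin_mono _ fun x hx => ne_of_lt hx)
    have h6 : ∀ᶠ x in 𝓝[<] t, x ∈ Ioo s t := Ioo_mem_nhdsLT hst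
    obtain ⟨x, hx5, hx6⟩ := (h5.and h6).exists
    rw [slope_def_field, h0t, sub_zero] at hx5
    have h7 := h1 x ⟨hx6.1.le, hx6.2.le⟩
    have h8 : D x / (x - t) ≤ 0 := div_nonpos_of_nonneg_of_nonpos (by linarith) (by linarith [hx6.2])
    linarith
  rcases lt_trichotomy s t with h | h | h
  · exact (key s t hs ht h0s h0t h).elim
  · exact h
  · exact (key t s ht hs h0t h0s h).elim

/-- crossing lemma for two terms -/
theorem crossing {A G A' G' : ℝ → ℂ} {a b : ℝ} (hA : ∀ t ∈ Icc a b, HasDerivAt A (A' t) t)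
    (hG : ∀ t ∈ Icc a b, HasDerivAt G (G' t) t) (hA0 : ∀ t ∈ Icc a b, A t ≠ 0)
    (hG0 : ∀ t ∈ Icc a b, G t ≠ 0)
    (hs : ∀ t ∈ Icc a b, ‖A t‖ = ‖G t‖ → (G' t / G t).re < (A' t / A t).re) :
    (∀ s ∈ Icc a b, ∀ t ∈ Icc a b, A s + G s = 0 → A t + G t = 0 → s = t) ∧
      ∀ t ∈ Icc a b, A t + G t = 0 → A' t + G' t ≠ 0 := by
  have hD : ∀ t ∈ Icc a b, HasDerivAt (fun x => Real.log ‖A x‖ - Real.log ‖G x‖)
      ((A' t / A t).re - (G' t / G t).re) t := fun t ht =>
    (hasDerivAt_log_norm (hA t ht) (hA0 t ht)).sub (hasDerivAt_log_norm (hG t ht) (hG0 t ht))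
  have hz : ∀ t, A t + G t = 0 → ‖A t‖ = ‖G t‖ := by
    intro t h
    rw [eq_neg_of_add_eq_zero_left h, norm_neg]
  refine ⟨fun s hs' t ht h0s h0t => ?_, fun t ht h0 h1 => ?_⟩
  · refine unique_zero_of_upward hD ?_ hs' ht ?_ ?_
    · intro x hx hx0
      have h1 : Real.log ‖A x‖ = Real.log ‖G x‖ := by linarith
      have h2 : ‖A x‖ = ‖G x‖ :=
        Real.log_injOn_pos (norm_pos_iff.2 (hA0 x hx)) (norm_pos_iff.2 (hG0 x hx)) h1
      linarith [hs x hx h2]
    · simp only [hz s h0s, sub_self]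
    · simp only [hz t h0t, sub_self]
  · have h2 := hs t ht (hz t h0)
    have h3 : A' t / A t = G' t / G t := by
      have e1 : G t = -A t := (neg_eq_of_add_eq_zero_right h0).symm
      have e2 : G' t = -A' t := (neg_eq_of_add_eq_zero_right h1).symm
      rw [e1, e2, neg_div_neg_eq]
    rw [h3] at h2
    exact lt_irrefl _ h2

/-- crossing lemma with a tiny third term -/
theorem crossing3 {A C T A' C' T' : ℝ → ℂ} {a b ε M η δ : ℝ}
    (hA : ∀ t ∈ Icc a b, HasDerivAt A (A' t) t) (hC : ∀ t ∈ Icc a b, HasDerivAt C (C' t) t)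
    (hT : ∀ t ∈ Icc a b, HasDerivAt T (T' t) t)
    (hA0 : ∀ t ∈ Icc a b, A t ≠ 0) (hC0 : ∀ t ∈ Icc a b, C t ≠ 0)
    (bT : ∀ t ∈ Icc a b, ‖T t‖ ≤ ε * ‖C t‖) (bT' : ∀ t ∈ Icc a b, ‖T' t‖ ≤ ε * ‖C t‖)
    (bC' : ∀ t ∈ Icc a b, ‖C' t‖ ≤ M * ‖C t‖) (hε : ε ≤ 1 / 2) (hη : 2 * ε ≤ η)
    (hδ : 2 * ε * (1 + M) < δ)
    (hs : ∀ t ∈ Icc a b, |Real.log ‖A t‖ - Real.log ‖C t‖| ≤ η → δ ≤ (A' t / A t).re - (C' t / C t).re) :
    (∀ s ∈ Icc a b, ∀ t ∈ Icc a b, A s + (C s + T s) = 0 → A t + (C t + T t) = 0 → s = t) ∧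
      ∀ t ∈ Icc a b, A t + (C t + T t) = 0 → A' t + (C' t + T' t) ≠ 0 := by
  rcases lt_or_ge b a with hab | hab
  · exact ⟨fun s hs' => absurd hs'.1 (by have := hs'.2; linarith), fun t ht => absurd ht.1 (by have := ht.2; linarith)⟩
  have hne : (Icc a b).Nonempty := nonempty_Icc.2 hab
  have hε0 : 0 ≤ ε := by
    obtain ⟨x, hx⟩ := hne
    have h1 := (norm_nonneg _).trans (bT x hx)
    exact nonneg_of_mul_nonneg_left h1 (norm_pos_iff.2 (hC0 x hx))
  have hM0 : 0 ≤ M := by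
    obtain ⟨x, hx⟩ := hne
    have h1 := (norm_nonneg _).trans (bC' x hx)
    exact nonneg_of_mul_nonneg_left h1 (norm_pos_iff.2 (hC0 x hx))
  have hlow : ∀ t ∈ Icc a b, ‖C t‖ / 2 ≤ ‖C t + T t‖ := by
    intro t ht
    have h1 := norm_sub_le (C t + T t) (T t)
    rw [add_sub_cancel_right] at h1
    have h2 := bT t ht
    have h3 : ε * ‖C t‖ ≤ 1 / 2 * ‖C t‖ := mul_le_mul_of_nonneg_right hε (norm_nonneg _)
    linarith
  have hG0 : ∀ t ∈ Icc a b, C t + T t ≠ 0 := by
    intro t ht h0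
    have h1 := hlow t ht
    rw [h0, norm_zero] at h1
    have := norm_pos_iff.2 (hC0 t ht)
    linarith
  refine crossing hA (fun t ht => (hC t ht).add (hT t ht)) hA0 hG0 fun t ht hAG => ?_
  have hCp := norm_pos_iff.2 (hC0 t ht)
  have hG := norm_pos_iff.2 (hG0 t ht)
  -- `|log |A| - log |C|| ≤ 2 ε`
  have h1 : |Real.log ‖A t‖ - Real.log ‖C t‖| ≤ η := by
    rw [hAG]
    refine le_trans ?_ hη
    rw [abs_sub_le_iff]
    have h2 := norm_add_le (C t) (T t)
    have h3 := norm_sub_le (C t + T t) (T t)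
    rw [add_sub_cancel_right] at h3
    have h4 := bT t ht
    constructor
    · have h5 : ‖C t + T t‖ ≤ (1 + ε) * ‖C t‖ := by linarith
      have h6 := Real.log_le_log hG h5
      rw [Real.log_mul (by linarith) hCp.ne'] at h6
      have h7 := Real.log_le_sub_one_of_pos (x := 1 + ε) (by linarith)
      linarith
    · have h5 : (1 - ε) * ‖C t‖ ≤ ‖C t + T t‖ := by linarith
      have h6 := Real.log_le_log (by apply mul_pos; linarith; exact hCp) h5
      rw [Real.log_mul (by linarith) hCp.ne'] at h6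
      have h7 := Real.one_sub_inv_le_log_of_pos (x := 1 - ε) (by linarith)
      have h8 : (1 - ε)⁻¹ ≤ 1 + 2 * ε := by
        rw [inv_le_comm₀ (by linarith) (by linarith)]
        rw [inv_eq_one_div, div_le_iff₀ (by linarith)]
        nlinarith
      linarith
  have h2 := hs t ht h1
  -- derivative of `log |C + T|`
  have h3 : (C' t + T' t) / (C t + T t) - C' t / C t = (T' t * C t - C' t * T t) / ((C t + T t) * C t) := by
    rw [div_sub_div _ _ (hG0 t ht) (hC0 t ht)]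
    congr 1
    ring
  have h4 : ‖(C' t + T' t) / (C t + T t) - C' t / C t‖ ≤ 2 * ε * (1 + M) := by
    rw [h3, norm_div, norm_mul, div_le_iff₀ (mul_pos hG hCp)]
    have h5 : ‖T' t * C t - C' t * T t‖ ≤ ε * ‖C t‖ * ‖C t‖ + M * ‖C t‖ * (ε * ‖C t‖) := by
      refine (norm_sub_le _ _).trans ?_
      rw [norm_mul, norm_mul]
      exact add_le_add (mul_le_mul_of_nonneg_right (bT' t ht) hCp.le)
        (mul_le_mul (bC' t ht) (bT t ht) (norm_nonneg _) (by positivity))
    refine h5.trans ?_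
    have h6 : 2 * ε * (1 + M) * (‖C t‖ / 2 * ‖C t‖) ≤ 2 * ε * (1 + M) * (‖C t + T t‖ * ‖C t‖) :=
      mul_le_mul_of_nonneg_left (mul_le_mul_of_nonneg_right (hlow t ht) hCp.le) (by positivity)
    refine le_trans (le_of_eq ?_) h6
    ring
  have h5 := Complex.abs_re_le_norm ((C' t + T' t) / (C t + T t) - C' t / C t)
  rw [Complex.sub_re] at h5
  have h6 := (abs_le.1 (h5.trans h4)).2
  linarith

end Sok
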