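import Pool.Agent.Lib.MP_816dec_an.CTail4
import Pool.Agent.Lib.MP_816dec_an.CKerVal
import Pool.Agent.Lib.MP_816dec_an.CornerB
import Pool.Agent.Lib.MP_816dec_an.Cross

/-!
MP_816dec_an, `b = 1`, corner: lower bound and tangent inequality for `‖CC‖`.
-/

set_option autoImplicit false

open Complex Set Filter Topology MeasureTheory

namespace Sok

/-- lower bound for `‖CC‖` -/
theorem norm_CC_ge_left {β r t : ℝ} (hr : 10 ≤ r) (hβ : 0 < β) (hκ1 : Real.exp (-1) ≤ β * r)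
    (hκ : β * r ≤ 0.6) (ht : t ∈ Icc (Real.pi + β * r) (3 * Real.pi / 2)) :
    0.3 * Real.exp (-r) ≤ ‖CC β r t‖ := by
  have hpi := Real.pi_gt_d4
  have hpi' := Real.pi_lt_d4
  have hr0 : 0 < r := by linarith
  have hκ0 : 0 < β * r := mul_pos hβ hr0
  have h1 := (CT.tangent hβ hr hκ1 hκ (τ := t - Real.pi) (by linarith [ht.1]) (by linarith [ht.2])).1
  have h2 := norm_CC_sq hβ hr0 (t := t) (by linarith [ht.1])
  have h3 : (0.3 * Real.exp (-r)) ^ 2 ≤ ‖CC β r t‖ ^ 2 := by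
    rw [h2, mul_pow, ← Real.exp_nat_mul]
    have h4 : 1 / (Real.pi * β) * (0.45 * β * Real.exp (-(2 * r))) = 0.45 / Real.pi * Real.exp (-(2 * r)) := by
      field_simp
    have h5 : 1 / (Real.pi * β) * (0.45 * β * Real.exp (-(2 * r))) ≤
        1 / (Real.pi * β) * JJ β r (t - Real.pi) :=
      mul_le_mul_of_nonneg_left h1 (by positivity)
    refine le_trans ?_ h5
    rw [h4]
    have h6 : ((2 : ℕ) : ℝ) * -r = -(2 * r) := by push_cast; ring
    rw [h6]
    refine mul_le_mul_of_nonneg_right ?_ (Real.exp_pos _).le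
    rw [le_div_iff₀ Real.pi_pos]
    nlinarith
  exact le_of_sq_le_sq h3 (norm_nonneg _)

/-- logarithmic derivative of `‖CC‖` -/
theorem CC_logDeriv {β r t : ℝ} (hβ : 0 < β) (hr : 0 < r) (ht : Real.pi < t) (h0 : CC β r t ≠ 0) :
    (dF β r t * CC β r (t + β) / CC β r t).re =
      1 / 2 * ((-(2 / β) * ∫ U : ℝ, U * CT.EW β r (t - Real.pi) U) / JJ β r (t - Real.pi)) := by
  have h1 := hasDerivAt_log_norm (hasDerivAt_CC_dF hβ hr t) h0
  have hJpos : ∀ s : ℝ, Real.pi < s → CC β r s ≠ 0 → 0 < JJ β r (s - Real.pi) := by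
    intro s hs hs0
    have h2 := norm_CC_sq hβ hr hs
    have h3 : 0 < ‖CC β r s‖ ^ 2 := by positivity
    rw [h2] at h3
    have h4 : 0 < 1 / (Real.pi * β) := by positivity
    exact (pos_iff_pos_of_mul_pos h3).mp h4
  have hJ := (hasDerivAt_JJ hβ hr (sub_pos.mpr ht)).2
  have hJt := hJpos t ht h0
  have h2 : HasDerivAt (fun s : ℝ => 1 / 2 * (Real.log (1 / (Real.pi * β)) + Real.log (JJ β r (s - Real.pi))))
      (1 / 2 * ((-(2 / β) * ∫ U : ℝ, U * CT.EW β r (t - Real.pi) U) / JJ β r (t - Real.pi))) t := by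
    have h3 : HasDerivAt (fun s : ℝ => JJ β r (s - Real.pi))
        (-(2 / β) * ∫ U : ℝ, U * CT.EW β r (t - Real.pi) U) t := by
      have h4 := HasDerivAt.comp t (h₂ := fun τ => JJ β r τ) (h := fun s : ℝ => s - Real.pi) hJ
        ((hasDerivAt_id t).sub_const Real.pi)
      refine h4.congr_deriv ?_
      rw [mul_one]
      rfl
    exact ((h3.log hJt.ne').const_add _).const_mul _
  have h3 : (fun s : ℝ => Real.log ‖CC β r s‖) =ᶠ[𝓝 t]
      fun s : ℝ => 1 / 2 * (Real.log (1 / (Real.pi * β)) + Real.log (JJ β r (s - Real.pi))) := by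
    have h4 : ∀ᶠ s in 𝓝 t, Real.pi < s := lt_mem_nhds ht
    have h5 : ∀ᶠ s in 𝓝 t, CC β r s ≠ 0 := (hasDerivAt_CC hβ hr t).continuousAt.eventually_ne h0
    filter_upwards [h4, h5] with s hs hs0
    have h6 := norm_CC_sq hβ hr hs
    have h7 := hJpos s hs hs0
    rw [← Real.log_mul (by positivity) h7.ne', ← h6, Real.log_pow]
    push_cast
    ring
  exact h1.unique (h2.congr_of_eventuallyEq h3)

/-- **tangent inequality for `log ‖CC‖`** -/
theorem log_CC_tangent {β r t : ℝ} (hr : 10 ≤ r) (hβ : 0 < β) (hκ1 : Real.exp (-1) ≤ β * r)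
    (hκ : β * r ≤ 0.6) (ht : t ∈ Icc (Real.pi + β * r) (3 * Real.pi / 2)) :
    Real.log ‖CC β r t‖ + (3 * Real.pi / 2 - t) * (dF β r t * CC β r (t + β) / CC β r t).re - 0.05 ≤
      Real.log ‖CC β r (3 * Real.pi / 2)‖ := by
  have hpi := Real.pi_gt_d4
  have hpi' := Real.pi_lt_d4
  have hr0 : 0 < r := by linarith
  have hκ0 : 0 < β * r := mul_pos hβ hr0
  have hne : ∀ s ∈ Icc (Real.pi + β * r) (3 * Real.pi / 2), CC β r s ≠ 0 := by
    intro s hs h
    have := norm_CC_ge_left hr hβ hκ1 hκ hs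
    rw [h, norm_zero] at this
    have := Real.exp_pos (-r)
    linarith
  have hax : 3 * Real.pi / 2 ∈ Icc (Real.pi + β * r) (3 * Real.pi / 2) := ⟨by linarith, le_rfl⟩
  have htg := (CT.tangent hβ hr hκ1 hκ (τ := t - Real.pi) (by linarith [ht.1]) (by linarith [ht.2])).2
  have hlog : ∀ s ∈ Icc (Real.pi + β * r) (3 * Real.pi / 2), Real.log ‖CC β r s‖ =
      1 / 2 * (Real.log (1 / (Real.pi * β)) + Real.log (JJ β r (s - Real.pi))) := by
    intro s hs
    have hs' : Real.pi < s := by linarith [hs.1]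
    have h6 := norm_CC_sq hβ hr0 hs'
    have h7 : 0 < JJ β r (s - Real.pi) := by
      have h3 : 0 < ‖CC β r s‖ ^ 2 := by
        have := norm_pos_iff.mpr (hne s hs)
        positivity
      rw [h6] at h3
      have h4 : 0 < 1 / (Real.pi * β) := by positivity
      exact (pos_iff_pos_of_mul_pos h3).mp h4
    rw [← Real.log_mul (by positivity) h7.ne', ← h6, Real.log_pow]
    push_cast
    ring
  rw [hlog t ht, hlog _ hax, CC_logDeriv hβ hr0 (by linarith [ht.1]) (hne t ht)]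
  have e1 : 3 * Real.pi / 2 - Real.pi = Real.pi / 2 := by ring
  rw [e1]
  have e2 : Real.pi / 2 - (t - Real.pi) = 3 * Real.pi / 2 - t := by ring
  rw [e2] at htg
  generalize ((-(2 / β) * ∫ U : ℝ, U * CT.EW β r (t - Real.pi) U) / JJ β r (t - Real.pi)) = Q at *
  nlinarith [htg]

end Sok
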