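import Mathlib

/-!
MP_816dec_an, part C, near q = 1: the comparison function u, the fixed point of w ↦ X e^w in the
closed unit disc, for |X| < 1/e.
-/

open Complex Set Filter Topology

namespace Sok

/-- the map w ↦ X e^w is a contraction of the closed unit disc -/
theorem expmap_lip {X w w' : ℂ} (hw : ‖w‖ ≤ 1) (hw' : ‖w'‖ ≤ 1) :
    ‖X * exp w' - X * exp w‖ ≤ ‖X‖ * Real.exp 1 * ‖w' - w‖ := by
  rw [← mul_sub, norm_mul, mul_assoc]
  refine mul_le_mul_of_nonneg_left ?_ (norm_nonneg X)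
  have h := Convex.norm_image_sub_le_of_norm_deriv_le (𝕜 := ℂ) (f := exp) (C := Real.exp 1)
    (s := Metric.closedBall (0:ℂ) 1) (x := w) (y := w')
    (fun x _ => Complex.differentiableAt_exp) ?_ (convex_closedBall _ _)
    (by simpa using hw) (by simpa using hw')
  · exact h
  · intro x hx
    rw [Complex.deriv_exp, Complex.norm_exp]
    apply Real.exp_le_exp.2
    have h1 : ‖x‖ ≤ 1 := by simpa using hx
    exact le_trans (Complex.re_le_norm x) h1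

theorem exists_fix {X : ℂ} (hX : ‖X‖ * Real.exp 1 < 1) : ∃ u : ℂ, ‖u‖ ≤ 1 ∧ u = X * exp u := by
  have hmaps : MapsTo (fun w : ℂ => X * exp w) (Metric.closedBall (0:ℂ) 1) (Metric.closedBall (0:ℂ) 1) := by
    intro w hw
    have h1 : ‖w‖ ≤ 1 := by simpa using hw
    have h2 : ‖exp w‖ ≤ Real.exp 1 := by
      rw [Complex.norm_exp]
      exact Real.exp_le_exp.2 (le_trans (Complex.re_le_norm w) h1)
    have h3 : ‖X * exp w‖ ≤ 1 := by
      rw [norm_mul]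
      exact le_trans (mul_le_mul_of_nonneg_left h2 (norm_nonneg X)) hX.le
    simpa using h3
  have hK : (0:ℝ) ≤ ‖X‖ * Real.exp 1 := by positivity
  have hlip : LipschitzOnWith ⟨‖X‖ * Real.exp 1, hK⟩ (fun w : ℂ => X * exp w) (Metric.closedBall (0:ℂ) 1) := by
    apply LipschitzOnWith.of_dist_le_mul
    intro w' hw' w hw
    rw [dist_eq_norm, dist_eq_norm]
    exact expmap_lip (by simpa using hw) (by simpa using hw')
  have hcontr : ContractingWith ⟨‖X‖ * Real.exp 1, hK⟩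
      (hmaps.restrict (fun w : ℂ => X * exp w) (Metric.closedBall (0:ℂ) 1) (Metric.closedBall (0:ℂ) 1)) := by
    refine ⟨?_, ?_⟩
    · exact_mod_cast hX
    · exact hlip.mapsToRestrict hmaps
  have hne : (0:ℂ) ∈ Metric.closedBall (0:ℂ) 1 := by simp
  obtain ⟨u, hu, hfix, -⟩ := ContractingWith.exists_fixedPoint' (s := Metric.closedBall (0:ℂ) 1)
    (Metric.isClosed_closedBall.isComplete) hmaps hcontr hne (edist_ne_top _ _)
  refine ⟨u, by simpa using hu, hfix.symm⟩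

/-- fixed point of w ↦ X e^w in the closed unit disc (|X| < 1/e) -/
noncomputable def uf (X : ℂ) : ℂ :=
  open Classical in if h : ‖X‖ * Real.exp 1 < 1 then (exists_fix h).choose else 0

theorem uf_norm {X : ℂ} (hX : ‖X‖ * Real.exp 1 < 1) : ‖uf X‖ ≤ 1 := by
  unfold uf
  rw [dif_pos hX]
  exact (exists_fix hX).choose_spec.1

theorem uf_eq {X : ℂ} (hX : ‖X‖ * Real.exp 1 < 1) : uf X = X * exp (uf X) := by
  unfold uf
  rw [dif_pos hX]
  exact (exists_fix hX).choose_spec.2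

/-- first estimate of the variation -/
theorem uf_var0 {X X' : ℂ} (hX : ‖X‖ * Real.exp 1 < 1) (hX' : ‖X'‖ * Real.exp 1 < 1) :
    ‖uf X' - uf X‖ * (1 - Real.exp 1 * ‖X‖) ≤ Real.exp 1 * ‖X' - X‖ := by
  have h1 : uf X' - uf X = (X' - X) * exp (uf X') + (X * exp (uf X') - X * exp (uf X)) := by
    conv_lhs => rw [uf_eq hX', uf_eq hX]
    ring
  have h2 : ‖(X' - X) * exp (uf X')‖ ≤ Real.exp 1 * ‖X' - X‖ := by
    rw [norm_mul, mul_comm, Complex.norm_exp]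
    refine mul_le_mul_of_nonneg_right (Real.exp_le_exp.2 ?_) (norm_nonneg _)
    exact le_trans (Complex.re_le_norm _) (uf_norm hX')
  have h3 := expmap_lip (X := X) (uf_norm hX) (uf_norm hX')
  have h4 : ‖uf X' - uf X‖ ≤ Real.exp 1 * ‖X' - X‖ + ‖X‖ * Real.exp 1 * ‖uf X' - uf X‖ := by
    calc ‖uf X' - uf X‖ = ‖(X' - X) * exp (uf X') + (X * exp (uf X') - X * exp (uf X))‖ := by rw [← h1]
      _ ≤ ‖(X' - X) * exp (uf X')‖ + ‖X * exp (uf X') - X * exp (uf X)‖ := norm_add_le _ _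
      _ ≤ _ := add_le_add h2 h3
  nlinarith

/-- exp b ≤ 1 + b + b² style bound for complex numbers of modulus ≤ 1 -/
theorem norm_exp_sub_one_sub_leU {B : ℂ} (hB : ‖B‖ ≤ 1) : ‖exp B - 1 - B‖ ≤ ‖B‖ ^ 2 :=
  Complex.norm_exp_sub_one_sub_id_le hB

theorem norm_exp_sub_one_le' {B : ℂ} (hB : ‖B‖ ≤ 1) : ‖exp B - 1‖ ≤ ‖B‖ * (1 + ‖B‖) := by
  have h1 := norm_exp_sub_one_sub_leU hB
  have h2 : exp B - 1 = (exp B - 1 - B) + B := by ring
  calc ‖exp B - 1‖ = ‖(exp B - 1 - B) + B‖ := by rw [← h2]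
    _ ≤ ‖exp B - 1 - B‖ + ‖B‖ := norm_add_le _ _
    _ ≤ ‖B‖ ^ 2 + ‖B‖ := by linarith
    _ = ‖B‖ * (1 + ‖B‖) := by ring

/-- (VARIATION) second estimate -/
theorem uf_var {X X' : ℂ} {t : ℝ} (hX : ‖X‖ * Real.exp 1 < 1) (hX' : ‖X'‖ * Real.exp 1 < 1)
    (hd : ‖X' - X‖ * Real.exp 1 ≤ t) (hsmall : ‖uf X' - uf X‖ ≤ ‖1 - uf X‖ / 4) :
    ‖1 - uf X‖ * ‖uf X' - uf X‖ ≤ (4 / 3) * t := by
  obtain ⟨u, hu⟩ : ∃ u, u = uf X := ⟨_, rfl⟩
  obtain ⟨u', hu'⟩ : ∃ u', u' = uf X' := ⟨_, rfl⟩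
  have e1 : u = X * exp u := by rw [hu]; exact uf_eq hX
  have e2 : u' = X' * exp u' := by rw [hu']; exact uf_eq hX'
  have n1 : ‖u‖ ≤ 1 := by rw [hu]; exact uf_norm hX
  have n2 : ‖u'‖ ≤ 1 := by rw [hu']; exact uf_norm hX'
  rw [← hu, ← hu'] at hsmall ⊢
  obtain ⟨D, hD⟩ : ∃ D, D = u' - u := ⟨_, rfl⟩
  rw [← hD] at hsmall ⊢
  have hv2 : ‖1 - u‖ ≤ 2 := by
    calc ‖1 - u‖ ≤ ‖(1:ℂ)‖ + ‖u‖ := norm_sub_le _ _
      _ ≤ 2 := by rw [norm_one]; linarith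
  have hD1 : ‖D‖ ≤ 1 := by linarith
  have key : (1 - u) * D = (X' - X) * exp u' + u * (exp D - 1 - D) := by
    have e3 : exp u' = exp u * exp D := by rw [← Complex.exp_add, hD]; congr 1; ring
    have e4 : u * exp D = X * exp u' := by rw [e3]; conv_lhs => rw [e1]
                                           ring
    have e5 : D = X' * exp u' - u := by rw [hD]; conv_lhs => rw [e2]
    linear_combination (-1:ℂ) * e5 - e4 + 2 * e5
  have h1 : ‖(X' - X) * exp u'‖ ≤ t := by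
    rw [norm_mul]
    refine le_trans (mul_le_mul_of_nonneg_left ?_ (norm_nonneg _)) hd
    rw [Complex.norm_exp]
    exact Real.exp_le_exp.2 (le_trans (Complex.re_le_norm _) n2)
  have h2 : ‖u * (exp D - 1 - D)‖ ≤ ‖D‖ ^ 2 := by
    rw [norm_mul]
    calc ‖u‖ * ‖exp D - 1 - D‖ ≤ 1 * ‖D‖ ^ 2 :=
          mul_le_mul n1 (norm_exp_sub_one_sub_leU hD1) (norm_nonneg _) zero_le_one
      _ = ‖D‖ ^ 2 := one_mul _
  have h3 : ‖1 - u‖ * ‖D‖ ≤ t + ‖D‖ ^ 2 := by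
    rw [← norm_mul, key]
    exact le_trans (norm_add_le _ _) (add_le_add h1 h2)
  have h4 : ‖D‖ ^ 2 ≤ (‖1 - u‖ * ‖D‖) / 4 := by
    rw [sq]
    have := mul_le_mul_of_nonneg_right hsmall (norm_nonneg D)
    linarith
  linarith

end Sok
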