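import Pool.Agent.Lib.MP_816dec_an.CU1

/-!
MP_816dec_an, part C, near q = 1: the inequalities |u| ≤ 1 - |1-u|/2 and |1-u|² ≥ min(1,|s|)/37
for the fixed point u of w ↦ e^(s-1) e^w.
-/

open Complex Set Filter Topology

namespace Sok

theorem poly_G {s t : ℝ} (hs : 1 / 3 ≤ s) (hs1 : s ≤ 1) (ht : 0 ≤ t) (h : s * (1 + t + t ^ 2 / 2) ≤ 1) :
    2 * t - 1 + s ^ 2 ≤ 4 * (1 - s) ^ 2 := by
  by_contra hcon
  push Not at hcon
  obtain ⟨w, hw⟩ : ∃ w, w = 1 - s := ⟨_, rfl⟩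
  have hs' : s = 1 - w := by rw [hw]; ring
  subst hs'
  have hw0 : 0 ≤ w := by linarith
  have hw1 : w ≤ 2 / 3 := by linarith
  have hT : w + 3 / 2 * w ^ 2 < t := by nlinarith
  have hT0 : 0 ≤ w + 3 / 2 * w ^ 2 := by positivity
  have h1 : 1 + (w + 3 / 2 * w ^ 2) + (w + 3 / 2 * w ^ 2) ^ 2 / 2 < 1 + t + t ^ 2 / 2 := by nlinarith
  have h2 : (1 - w) * (1 + (w + 3 / 2 * w ^ 2) + (w + 3 / 2 * w ^ 2) ^ 2 / 2) < 1 :=
    lt_of_lt_of_le (mul_lt_mul_of_pos_left h1 (by linarith)) h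
  have h3 : (1 - w) * (1 + (w + 3 / 2 * w ^ 2) + (w + 3 / 2 * w ^ 2) ^ 2 / 2)
      = 1 + w ^ 2 * (1 - w / 2 - 3 / 8 * w ^ 2 - 9 / 8 * w ^ 3) := by ring
  have h4 : 0 ≤ 1 - w / 2 - 3 / 8 * w ^ 2 - 9 / 8 * w ^ 3 := by
    have a1 : w ^ 2 ≤ (2 / 3) ^ 2 := pow_le_pow_left₀ hw0 hw1 2
    have a2 : w ^ 3 ≤ (2 / 3) ^ 3 := pow_le_pow_left₀ hw0 hw1 3
    nlinarith
  have h5 : 0 ≤ w ^ 2 * (1 - w / 2 - 3 / 8 * w ^ 2 - 9 / 8 * w ^ 3) := by positivity
  linarith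

/-- (G): if |u| ≤ 1 and |u| ≤ e^(Re u - 1) then |u| ≤ 1 - |1-u|/2 -/
theorem norm_G {u : ℂ} (h1 : ‖u‖ ≤ 1) (h2 : ‖u‖ ≤ Real.exp (u.re - 1)) : ‖u‖ ≤ 1 - ‖1 - u‖ / 2 := by
  rcases le_total ‖u‖ (1 / 3) with h | h
  · have h3 : ‖1 - u‖ ≤ 1 + ‖u‖ := by
      calc ‖1 - u‖ ≤ ‖(1:ℂ)‖ + ‖u‖ := norm_sub_le _ _
        _ = 1 + ‖u‖ := by rw [norm_one]
    linarith
  · have hre : u.re ≤ 1 := le_trans (Complex.re_le_norm u) h1
    obtain ⟨t, ht⟩ : ∃ t, t = 1 - u.re := ⟨_, rfl⟩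
    have ht0 : 0 ≤ t := by linarith
    have h3 : ‖u‖ * (1 + t + t ^ 2 / 2) ≤ 1 := by
      have h4 := Real.quadratic_le_exp_of_nonneg ht0
      have h5 : ‖u‖ * Real.exp t ≤ 1 := by
        calc ‖u‖ * Real.exp t ≤ Real.exp (u.re - 1) * Real.exp t :=
              mul_le_mul_of_nonneg_right h2 (Real.exp_pos t).le
          _ = 1 := by rw [← Real.exp_add, ht]; simp
      exact le_trans (mul_le_mul_of_nonneg_left h4 (norm_nonneg u)) h5
    have h6 := poly_G h h1 ht0 h3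
    have h7 : ‖1 - u‖ ^ 2 = 2 * t - 1 + ‖u‖ ^ 2 := by
      rw [← Complex.normSq_eq_norm_sq, ← Complex.normSq_eq_norm_sq, Complex.normSq_apply,
        Complex.normSq_apply, ht]
      simp
      ring
    have h8 : ‖1 - u‖ ^ 2 ≤ (2 * (1 - ‖u‖)) ^ 2 := by rw [h7]; nlinarith
    have h9 : ‖1 - u‖ ≤ 2 * (1 - ‖u‖) := by
      exact (abs_le_of_sq_le_sq' h8 (by linarith)).2
    linarith

/-- the function (1-v)e^v - 1 is O(v²) -/
theorem norm_one_sub_mul_exp {v : ℂ} (hv : ‖v‖ ≤ 2) : ‖(1 - v) * exp v - 1‖ ≤ 7.4 * ‖v‖ ^ 2 := by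
  have hder : ∀ x : ℂ, HasDerivAt (fun x : ℂ => (1 - x) * exp x - 1) (-(x * exp x)) x := by
    intro x
    have h1 : HasDerivAt (fun x : ℂ => (1 - x)) (-1) x := by
      simpa using (hasDerivAt_id x).const_sub 1
    have h2 := (h1.mul (Complex.hasDerivAt_exp x)).sub_const 1
    refine h2.congr_deriv ?_
    ring
  have h := Convex.norm_image_sub_le_of_norm_deriv_le (𝕜 := ℂ) (f := fun x : ℂ => (1 - x) * exp x - 1)
    (C := ‖v‖ * Real.exp 2) (s := Metric.closedBall (0:ℂ) ‖v‖) (x := 0) (y := v)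
    (fun x _ => (hder x).differentiableAt) ?_ (convex_closedBall _ _)
    (by simp) (by simp)
  · simp only [sub_zero, Complex.exp_zero, mul_one, sub_self] at h
    refine le_trans h ?_
    have h1 : Real.exp 2 ≤ 7.4 := by
      have h2 : Real.exp 2 = Real.exp 1 * Real.exp 1 := by rw [← Real.exp_add]; norm_num
      have h3 := Real.exp_one_lt_d9
      have h4 := Real.exp_pos 1
      rw [h2]; nlinarith
    have h5 : 0 ≤ ‖v‖ ^ 2 := by positivity
    nlinarith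
  · intro x hx
    rw [(hder x).deriv, norm_neg, norm_mul]
    have hx1 : ‖x‖ ≤ ‖v‖ := by simpa using hx
    refine mul_le_mul hx1 ?_ (norm_nonneg _) (norm_nonneg _)
    rw [Complex.norm_exp]
    exact Real.exp_le_exp.2 (le_trans (Complex.re_le_norm x) (le_trans hx1 hv))

theorem cos_quarter {b : ℝ} (hb : 1 / 4 ≤ |b|) (hb2 : |b| ≤ Real.pi) : 0.03 ≤ 1 - Real.cos b := by
  have h1 : Real.cos b ≤ Real.cos (1 / 4) := by
    rw [← Real.cos_abs b]
    exact Real.cos_le_cos_of_nonneg_of_le_pi (by norm_num) hb2 hb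
  have h2 : Real.cos (1 / 4) ≤ 1 - (1/4)^2 / 2 + (1/4)^4 * (5 / 96) := by
    have h3 := Real.cos_bound (x := 1 / 4) (by rw [abs_of_pos] <;> norm_num)
    have h4 := (abs_le.1 h3).2
    have h5 : |(1/4 : ℝ)| = 1/4 := abs_of_pos (by norm_num)
    rw [h5] at h4
    linarith
  norm_num at h2 ⊢
  linarith

/-- |e^s - 1| ≥ min(1,|s|)/5 for Re s ≤ 0, |Im s| ≤ π -/
theorem norm_exp_sub_one_ge {s : ℂ} (hre : s.re ≤ 0) (him : |s.im| ≤ Real.pi) :
    min 1 ‖s‖ / 5 ≤ ‖exp s - 1‖ := by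
  rcases le_total ‖s‖ (1 / 2) with h | h
  · have h1 := norm_exp_sub_one_sub_leU (B := s) (by linarith)
    have h2 : ‖s‖ ≤ ‖exp s - 1‖ + ‖exp s - 1 - s‖ := by
      calc ‖s‖ = ‖(exp s - 1) - (exp s - 1 - s)‖ := by congr 1; ring
        _ ≤ _ := norm_sub_le _ _
    have h3 : min 1 ‖s‖ = ‖s‖ := min_eq_right (by linarith)
    rw [h3]
    have h4 := norm_nonneg s
    nlinarith
  · have h3 : min 1 ‖s‖ / 5 ≤ 1 / 5 := by
      have := min_le_left 1 ‖s‖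
      linarith
    refine le_trans h3 ?_
    obtain ⟨r, hr⟩ : ∃ r, r = Real.exp s.re := ⟨_, rfl⟩
    have hr0 : 0 < r := by rw [hr]; exact Real.exp_pos _
    have hr1 : r ≤ 1 := by rw [hr]; exact Real.exp_le_one_iff.2 hre
    have hsq : ‖exp s - 1‖ ^ 2 = (1 - r) ^ 2 + 2 * r * (1 - Real.cos s.im) := by
      rw [← Complex.normSq_eq_norm_sq, Complex.normSq_apply]
      simp only [sub_re, one_re, sub_im, one_im, sub_zero, Complex.exp_re, Complex.exp_im]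
      rw [← hr]
      have := Real.sin_sq_add_cos_sq s.im
      linear_combination r ^ 2 * this
    have hgoal : (1 / 5 : ℝ) ^ 2 ≤ ‖exp s - 1‖ ^ 2 := by
      rw [hsq]
      rcases le_total (1 / 4) |s.im| with hb | hb
      · have h5 := cos_quarter hb him
        have h6 := mul_le_mul_of_nonneg_left h5 hr0.le
        nlinarith [sq_nonneg (r - 0.97)]
      · have h6 : 2 / 5 ≤ -s.re := by
          by_contra hcon
          push Not at hcon
          have h7 : ‖s‖ ^ 2 = s.re ^ 2 + s.im ^ 2 := by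
            rw [← Complex.normSq_eq_norm_sq, Complex.normSq_apply]; ring
          have h8 : s.im ^ 2 ≤ (1 / 4) ^ 2 := by
            rw [← sq_abs s.im]
            exact pow_le_pow_left₀ (abs_nonneg _) hb 2
          have h9 : (1 / 2 : ℝ) ^ 2 ≤ ‖s‖ ^ 2 := pow_le_pow_left₀ (by norm_num) h 2
          nlinarith
        have h10 : r ≤ 5 / 7 := by
          have h11 := Real.add_one_le_exp (-s.re)
          have h12 : r * Real.exp (-s.re) = 1 := by rw [hr, ← Real.exp_add]; simp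
          nlinarith
        have h13 := Real.cos_le_one s.im
        have h14 : 0 ≤ 2 * r * (1 - Real.cos s.im) := by
          have : 0 ≤ 1 - Real.cos s.im := by linarith
          positivity
        nlinarith
    exact le_of_sq_le_sq₀ hgoal (norm_nonneg _)
  where
    le_of_sq_le_sq₀ {a b : ℝ} (h : a ^ 2 ≤ b ^ 2) (hb : 0 ≤ b) : a ≤ b := by
      nlinarith [abs_le_of_sq_le_sq h hb, le_abs_self a]

end Sok
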