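import Pool.Agent.Lib.MP_816dec_an.Basic
import Pool.Agent.Lib.MP_816dec_an.CU2

/-!
MP_816dec_an, part C, near q = 1: the function f(η) = F(e^(-s), -(1/s) e^(η-1-s/2)), its logarithmic
derivative U and the functional equation along a chord [η - s, η].
-/

open Complex Set Filter Topology MeasureTheory intervalIntegral

namespace Sok

/-- z(η) = -(1/s) e^(η-1-s/2) -/
noncomputable def zc (s η : ℂ) : ℂ := -(1 / s) * exp (η - 1 - s / 2)

/-- f(η) = F(e^(-s), z(η)) -/
noncomputable def fS (s η : ℂ) : ℂ := F (exp (-s)) (zc s η)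

/-- U(η) = e^(η-1-s/2) f(η-s)/f(η)  ( = - s f'/f ) -/
noncomputable def US (s η : ℂ) : ℂ := exp (η - 1 - s / 2) * fS s (η - s) / fS s η

theorem norm_exp_neg_le {s : ℂ} (hs : 0 ≤ s.re) : ‖exp (-s)‖ ≤ 1 := by
  rw [Complex.norm_exp]
  simpa using hs

theorem zc_shift (s η : ℂ) : exp (-s) * zc s η = zc s (η - s) := by
  unfold zc
  have : exp (η - s - 1 - s / 2) = exp (-s) * exp (η - 1 - s / 2) := by
    rw [← Complex.exp_add]; congr 1; ring
  rw [this]; ring

theorem hasDerivAt_zc (s η : ℂ) : HasDerivAt (zc s) (zc s η) η := by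
  unfold zc
  have h1 : HasDerivAt (fun η : ℂ => η - 1 - s / 2) 1 η := by
    simpa using ((hasDerivAt_id η).sub_const 1).sub_const (s / 2)
  have h2 := (h1.cexp).const_mul (-(1 / s))
  refine h2.congr_deriv ?_
  ring

theorem hasDerivAt_fS {s : ℂ} (hs : 0 ≤ s.re) (η : ℂ) :
    HasDerivAt (fS s) (zc s η * fS s (η - s)) η := by
  have h1 := hasDerivAt_F (norm_exp_neg_le hs) (zc s η)
  have h2 := h1.comp η (hasDerivAt_zc s η)
  rw [zc_shift] at h2
  have h3 : (F (exp (-s)) ∘ zc s) = fS s := by funext x; rfl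
  rw [h3] at h2
  refine h2.congr_deriv ?_
  unfold fS
  ring

theorem continuous_fS {s : ℂ} (hs : 0 ≤ s.re) : Continuous (fS s) :=
  continuous_iff_continuousAt.2 fun η => (hasDerivAt_fS hs η).continuousAt

theorem zc_add_period (s η : ℂ) : zc s (η + 2 * Real.pi * I) = zc s η := by
  unfold zc
  have : η + 2 * Real.pi * I - 1 - s / 2 = (η - 1 - s / 2) + 2 * Real.pi * I := by ring
  rw [this, Complex.exp_add, Complex.exp_two_pi_mul_I, mul_one]

theorem fS_add_period (s η : ℂ) : fS s (η + 2 * Real.pi * I) = fS s η := by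
  unfold fS
  rw [zc_add_period]

/-- f' = - U f / s -/
theorem deriv_eq_US {s η : ℂ} (hs0 : s ≠ 0) (hf : fS s η ≠ 0) :
    zc s η * fS s (η - s) = -(1 / s) * (US s η * fS s η) := by
  unfold US zc
  field_simp

theorem continuousOn_US {s : ℂ} (hs : 0 ≤ s.re) : ContinuousOn (US s) {η | fS s η ≠ 0} := by
  unfold US
  apply ContinuousOn.div
  · apply Continuous.continuousOn
    exact (by fun_prop : Continuous fun η : ℂ => exp (η - 1 - s / 2)).mul
      ((continuous_fS hs).comp (continuous_id.sub continuous_const))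
  · exact (continuous_fS hs).continuousOn
  · intro η hη; exact hη

/-- functional equation along the chord -/
theorem US_chord {s η : ℂ} (hs : 0 ≤ s.re) (hs0 : s ≠ 0)
    (hf : ∀ t ∈ Icc (0:ℝ) 1, fS s (η - (t:ℂ) * s) ≠ 0) :
    US s η = exp (η - 1 - s / 2) * exp (∫ t in (0:ℝ)..1, US s (η - (t:ℂ) * s)) := by
  obtain ⟨g, hg⟩ : ∃ g : ℝ → ℂ, g = fun (t : ℝ) => fS s (η - (t:ℂ) * s) := ⟨_, rfl⟩
  obtain ⟨V, hV⟩ : ∃ V : ℝ → ℂ, V = fun (t : ℝ) => US s (η - (t:ℂ) * s) := ⟨_, rfl⟩
  have hVc : ContinuousOn V (Icc 0 1) := by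
    rw [hV]
    have h1 : ContinuousOn (fun t : ℝ => η - (t:ℂ) * s) (Icc 0 1) := by fun_prop
    exact (continuousOn_US hs).comp h1 (fun t ht => hf t ht)
  have hgd : ∀ t ∈ Icc (0:ℝ) 1, HasDerivAt g (V t * g t) t := by
    intro t ht
    have h1 := hasDerivAt_fS hs (η - (t:ℂ) * s)
    have h2 : HasDerivAt (fun t : ℝ => η - (t:ℂ) * s) (-s) t := by
      have h3 : HasDerivAt (fun t : ℂ => η - t * s) (-s) (t:ℂ) := by
        simpa using ((hasDerivAt_id (t:ℂ)).mul_const s).const_sub η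
      exact h3.comp_ofReal
    have h4 := HasDerivAt.scomp t h1 h2
    have h5 : (fS s ∘ fun t : ℝ => η - (t:ℂ) * s) = g := by rw [hg]; rfl
    rw [h5] at h4
    refine h4.congr_deriv ?_
    rw [smul_eq_mul, deriv_eq_US hs0 (hf t ht), hV, hg]
    simp only
    field_simp
  -- g(t) exp(-∫_0^t V) is constant
  obtain ⟨W, hW⟩ : ∃ W : ℝ → ℂ, W = fun t => ∫ x in (0:ℝ)..t, V x := ⟨_, rfl⟩
  have hWd : ∀ t ∈ Ioo (0:ℝ) 1, HasDerivAt W (V t) t := by
    intro t ht
    rw [hW]
    apply intervalIntegral.integral_hasDerivAt_right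
    · apply ContinuousOn.intervalIntegrable
      rw [uIcc_of_le ht.1.le]
      exact hVc.mono (Icc_subset_Icc le_rfl ht.2.le)
    · exact ContinuousOn.stronglyMeasurableAtFilter isOpen_Ioo (hVc.mono Ioo_subset_Icc_self) t ht
    · exact (hVc.mono Ioo_subset_Icc_self).continuousAt (Ioo_mem_nhds ht.1 ht.2)
  have hWc : ContinuousOn W (Icc 0 1) := by
    rw [hW]
    have hint : IntegrableOn V (Icc 0 1) := hVc.integrableOn_Icc
    have := intervalIntegral.continuousOn_primitive_interval (a := 0) (b := 1) (f := V) (μ := volume)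
      (by rw [uIcc_of_le zero_le_one]; exact hint)
    rwa [uIcc_of_le zero_le_one] at this
  have hgc : ContinuousOn g (Icc 0 1) := fun t ht => (hgd t ht).continuousAt.continuousWithinAt
  obtain ⟨P, hP⟩ : ∃ P : ℝ → ℂ, P = fun t => g t * exp (-W t) := ⟨_, rfl⟩
  have hPc : ContinuousOn P (Icc 0 1) := by
    rw [hP]; exact hgc.mul (hWc.neg.cexp)
  have hPd : ∀ t ∈ Ico (0:ℝ) 1, HasDerivWithinAt P 0 (Ici t) t := by
    intro t ht
    rcases eq_or_lt_of_le ht.1 with h0 | h0
    · -- right derivative at 0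
      subst h0
      have hW0 : HasDerivWithinAt W (V 0) (Ici 0) 0 := by
        rw [hW]
        apply intervalIntegral.integral_hasDerivWithinAt_right
        · simp
        · have h1 : ContinuousWithinAt V (Icc 0 1) 0 := hVc 0 (by simp)
          have h2 := ContinuousOn.stronglyMeasurableAtFilter_nhdsWithin (μ := volume) hVc measurableSet_Icc (0:ℝ)
          have h3 : 𝓝[>] (0:ℝ) ≤ 𝓝[Icc 0 1] 0 := by
            rw [← nhdsWithin_Ioc_eq_nhdsGT (zero_lt_one (α := ℝ))]
            exact nhdsWithin_mono _ Ioc_subset_Icc_self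
          exact h2.filter_mono h3
        · have h1 : ContinuousWithinAt V (Icc 0 1) 0 := hVc 0 (by simp)
          exact (h1.mono_of_mem_nhdsWithin (Icc_mem_nhdsGE zero_lt_one)).mono Ioi_subset_Ici_self
      have hg0 : HasDerivWithinAt g (V 0 * g 0) (Ici 0) 0 := (hgd 0 (by simp)).hasDerivWithinAt
      rw [hP]
      have h5 := hg0.mul (hW0.neg.cexp)
      refine h5.congr_deriv ?_
      simp only [Pi.neg_apply]
      ring
    · rw [hP]
      have h5 := ((hgd t ⟨ht.1, ht.2.le⟩).mul ((hWd t ⟨h0, ht.2⟩).neg.cexp)).hasDerivWithinAt (s := Ici t)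
      refine h5.congr_deriv ?_
      simp only [Pi.neg_apply]
      ring
  have hconst := constant_of_has_deriv_right_zero hPc hPd 1 (by simp)
  have hP0 : P 0 = g 0 := by rw [hP, hW]; simp
  have hP1 : P 1 = g 1 * exp (-W 1) := by rw [hP]
  rw [hP0, hP1] at hconst
  have hg1 : g 1 = g 0 * exp (W 1) := by
    rw [← hconst, mul_assoc, ← Complex.exp_add]; simp
  have hg0 : g 0 = fS s η := by rw [hg]; simp
  have hg1' : g 1 = fS s (η - s) := by rw [hg]; simp
  have hne : fS s η ≠ 0 := by simpa using hf 0 (by simp)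
  have hW1 : W 1 = ∫ t in (0:ℝ)..1, US s (η - (t:ℂ) * s) := by rw [hW, hV]
  rw [← hW1]
  unfold US
  rw [← hg1', hg1, hg0]
  field_simp

end Sok
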