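import Pool.Agent.Lib.MP_816dec_an.CU3

/-!
MP_816dec_an, part C, near q = 1: the contraction step (6.5).
-/

open Complex Set Filter Topology MeasureTheory intervalIntegral

namespace Sok

/-- |s|^(2/3) -/
noncomputable def ep (s : ℂ) : ℝ := ‖s‖ ^ (2 / 3 : ℝ)

theorem ep_nonneg (s : ℂ) : 0 ≤ ep s := Real.rpow_nonneg (norm_nonneg s) _

theorem ep_pos {s : ℂ} (hs : s ≠ 0) : 0 < ep s := Real.rpow_pos_of_pos (norm_pos_iff.2 hs) _

theorem ep_cube (s : ℂ) : ep s ^ 3 = ‖s‖ ^ 2 := by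
  unfold ep
  rw [← Real.rpow_natCast, ← Real.rpow_mul (norm_nonneg s), ← Real.rpow_natCast]
  norm_num

/-- X = exp(η - 1 - 2 C e) -/
noncomputable def Xc (C : ℝ) (s η : ℂ) : ℂ := exp (η - 1 - ((2 * C * ep s : ℝ) : ℂ))

/-- comparison function -/
noncomputable def uS (C : ℝ) (s η : ℂ) : ℂ := uf (Xc C s η)

/-- outside the window -/
def Out (R : ℝ) (s η : ℂ) : Prop := ∀ k : ℤ, R * ep s ≤ ‖η - 2 * Real.pi * k * I‖

theorem norm_Xc (C : ℝ) (s η : ℂ) : ‖Xc C s η‖ * Real.exp 1 = Real.exp (η.re - 2 * C * ep s) := by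
  unfold Xc
  rw [Complex.norm_exp, ← Real.exp_add]
  congr 1
  simp
  ring

theorem norm_Xc_lt {C : ℝ} {s η : ℂ} (hC : 1 ≤ C) (hs0 : s ≠ 0) (hre : η.re ≤ C * ep s) :
    ‖Xc C s η‖ * Real.exp 1 < 1 := by
  rw [norm_Xc, Real.exp_lt_one_iff]
  have := ep_pos hs0
  nlinarith

theorem norm_exp_neg_sub_one_le {w : ℂ} (hw : 0 ≤ w.re) : ‖exp (-w) - 1‖ ≤ ‖w‖ := by
  have h := Convex.norm_image_sub_le_of_norm_deriv_le (𝕜 := ℂ) (f := fun x : ℂ => exp (-x))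
    (C := 1) (s := {x : ℂ | 0 ≤ x.re}) (x := 0) (y := w)
    (fun x _ => by fun_prop) ?_ (convex_halfSpace_re_ge 0) (by simp) hw
  · simpa using h
  · intro x hx
    have h1 : HasDerivAt (fun x : ℂ => exp (-x)) (exp (-x) * (-1)) x := (hasDerivAt_neg x).cexp
    rw [h1.deriv, norm_mul, norm_neg, norm_one, mul_one, Complex.norm_exp, neg_re]
    exact Real.exp_le_one_iff.2 (by simpa using hx)

theorem uS_norm {C : ℝ} {s η : ℂ} (hC : 1 ≤ C) (hs0 : s ≠ 0) (hre : η.re ≤ C * ep s) :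
    ‖uS C s η‖ ≤ 1 := uf_norm (norm_Xc_lt hC hs0 hre)

theorem uS_eq {C : ℝ} {s η : ℂ} (hC : 1 ≤ C) (hs0 : s ≠ 0) (hre : η.re ≤ C * ep s) :
    uS C s η = Xc C s η * exp (uS C s η) := uf_eq (norm_Xc_lt hC hs0 hre)

theorem uS_G {C : ℝ} {s η : ℂ} (hC : 1 ≤ C) (hs0 : s ≠ 0) (hre : η.re ≤ C * ep s) :
    ‖uS C s η‖ ≤ 1 - ‖1 - uS C s η‖ / 2 := by
  apply norm_G (uS_norm hC hs0 hre)
  have h1 := uS_eq hC hs0 hre
  have h2 : ‖uS C s η‖ = ‖Xc C s η‖ * Real.exp (uS C s η).re := by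
    conv_lhs => rw [h1]
    rw [norm_mul, Complex.norm_exp]
  rw [h2, Real.exp_sub]
  have h3 := (norm_Xc_lt hC hs0 hre).le
  have h4 := Real.exp_pos (uS C s η).re
  have h5 := Real.exp_pos 1
  rw [le_div_iff₀ h5]
  nlinarith

theorem one_sub_uS_le {C : ℝ} {s η : ℂ} (hC : 1 ≤ C) (hs0 : s ≠ 0) (hre : η.re ≤ C * ep s) :
    ‖1 - uS C s η‖ ≤ 2 := by
  have h := norm_nonneg (uS C s η)
  have h2 := uS_G hC hs0 hre
  linarith

/-- exp(η - 2Ce) = (1-v)e^v -/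
theorem exp_eq_uS {C : ℝ} {s η : ℂ} (hC : 1 ≤ C) (hs0 : s ≠ 0) (hre : η.re ≤ C * ep s) :
    exp (η - ((2 * C * ep s : ℝ) : ℂ)) = (1 - (1 - uS C s η)) * exp (1 - uS C s η) := by
  have h1 := uS_eq hC hs0 hre
  have h2 : exp (η - ((2 * C * ep s : ℝ) : ℂ)) = exp 1 * Xc C s η := by
    unfold Xc
    rw [← Complex.exp_add]; congr 1; ring
  have h3 : exp (1 - uS C s η) = exp 1 * exp (-uS C s η) := by
    rw [← Complex.exp_add]; congr 1
  have h4 : exp (uS C s η) * exp (-uS C s η) = 1 := by rw [← Complex.exp_add]; simp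
  rw [h2, h3]
  have h5 : (1 - (1 - uS C s η)) = uS C s η := by ring
  rw [h5]
  calc exp 1 * Xc C s η = exp 1 * Xc C s η * (exp (uS C s η) * exp (-uS C s η)) := by rw [h4, mul_one]
    _ = (Xc C s η * exp (uS C s η)) * (exp 1 * exp (-uS C s η)) := by ring
    _ = _ := by rw [← h1]

/-- a representative of the imaginary part -/
theorem exists_rep (η : ℂ) : ∃ k : ℤ, |(η - 2 * Real.pi * k * I).im| ≤ Real.pi := by
  refine ⟨round (η.im / (2 * Real.pi)), ?_⟩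
  have hpi := Real.pi_pos
  have h1 := abs_sub_round (η.im / (2 * Real.pi))
  have h2 : (η - 2 * Real.pi * (round (η.im / (2 * Real.pi)) : ℤ) * I).im
      = 2 * Real.pi * (η.im / (2 * Real.pi) - round (η.im / (2 * Real.pi))) := by
    simp
    field_simp
  rw [h2, abs_mul, abs_of_pos (by positivity : 0 < 2 * Real.pi)]
  nlinarith

theorem exp_sub_period (w : ℂ) (k : ℤ) : exp (w - 2 * Real.pi * k * I) = exp w := by
  have : w - 2 * Real.pi * k * I = w + ((-k : ℤ) : ℂ) * (2 * Real.pi * I) := by push_cast; ring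
  rw [this, Complex.exp_add, Complex.exp_int_mul_two_pi_mul_I, mul_one]

/-- lower bound of |1-u|² outside the window -/
theorem v_lower {C R : ℝ} {s η : ℂ} (hC : 1 ≤ C) (hR : 4 * C ≤ R) (hs0 : s ≠ 0) (hRe : R * ep s ≤ 1)
    (hre : η.re ≤ C * ep s) (hout : Out R s η) : R * ep s ≤ 74 * ‖1 - uS C s η‖ ^ 2 := by
  obtain ⟨k, hk⟩ := exists_rep η
  have he := ep_pos hs0
  obtain ⟨w, hw⟩ : ∃ w : ℂ, w = η - ((2 * C * ep s : ℝ) : ℂ) - 2 * Real.pi * k * I := ⟨_, rfl⟩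
  have hwre : w.re ≤ 0 := by
    rw [hw]
    have : (η - ((2 * C * ep s : ℝ) : ℂ) - 2 * Real.pi * k * I).re = η.re - 2 * C * ep s := by simp
    rw [this]
    nlinarith
  have hwim : |w.im| ≤ Real.pi := by
    have : w.im = (η - 2 * Real.pi * k * I).im := by rw [hw]; simp
    rw [this]; exact hk
  have h1 := norm_exp_sub_one_ge hwre hwim
  have h2 : exp w = (1 - (1 - uS C s η)) * exp (1 - uS C s η) := by
    rw [hw, exp_sub_period, exp_eq_uS hC hs0 hre]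
  rw [h2] at h1
  have h3 := norm_one_sub_mul_exp (one_sub_uS_le hC hs0 hre)
  have h4 : R * ep s / 2 ≤ ‖w‖ := by
    have h5 := hout k
    have h6 : ‖η - 2 * Real.pi * k * I‖ ≤ ‖w‖ + 2 * C * ep s := by
      calc ‖η - 2 * Real.pi * k * I‖ = ‖w + ((2 * C * ep s : ℝ) : ℂ)‖ := by rw [hw]; congr 1; ring
        _ ≤ ‖w‖ + ‖((2 * C * ep s : ℝ) : ℂ)‖ := norm_add_le _ _
        _ = ‖w‖ + 2 * C * ep s := by
            rw [Complex.norm_real, Real.norm_eq_abs, abs_of_nonneg (by positivity)]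
    nlinarith
  have h7 : R * ep s / 2 ≤ min 1 ‖w‖ := le_min (by linarith) h4
  linarith

/-- the abstract one line estimate -/
theorem final_est {u B : ℂ} {b : ℝ} (hb : 0 < b) (hb2 : b ≤ 2) (hu : ‖u‖ ≤ 1 - b / 2)
    (hB : ‖B‖ ≤ b / 8 + b ^ 2 / 100) : ‖u * (exp B - 1)‖ < b / 8 := by
  have hB1 : ‖B‖ ≤ 1 := by nlinarith
  have h1 := norm_exp_sub_one_le' hB1
  have h2 : ‖B‖ * (1 + ‖B‖) ≤ (b / 8 + b ^ 2 / 100) * (1 + (b / 8 + b ^ 2 / 100)) := by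
    have h0 := norm_nonneg B
    apply mul_le_mul hB (by linarith) (by linarith) (by positivity)
  rw [norm_mul]
  have h3 : ‖u‖ * ‖exp B - 1‖ ≤ (1 - b / 2) * ((b / 8 + b ^ 2 / 100) * (1 + (b / 8 + b ^ 2 / 100))) :=
    mul_le_mul hu (h1.trans h2) (norm_nonneg _) (by linarith)
  refine lt_of_le_of_lt h3 ?_
  have h4 : (b / 8 + b ^ 2 / 100) * (1 + (b / 8 + b ^ 2 / 100)) ≤ (b / 8) * (1 + b / 4) := by
    have e : (b / 8) * (1 + b / 4) - (b / 8 + b ^ 2 / 100) * (1 + (b / 8 + b ^ 2 / 100))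
        = b ^ 2 * (1 / 32 - 1 / 100 - 1 / 64 - b * (2 / 800) - b ^ 2 / 10000) := by ring
    have h5 : 0 ≤ b ^ 2 * (1 / 32 - 1 / 100 - 1 / 64 - b * (2 / 800) - b ^ 2 / 10000) := by
      apply mul_nonneg (by positivity)
      nlinarith
    linarith
  have h6 : (1 - b / 2) * ((b / 8 + b ^ 2 / 100) * (1 + (b / 8 + b ^ 2 / 100)))
      ≤ (1 - b / 2) * ((b / 8) * (1 + b / 4)) := mul_le_mul_of_nonneg_left h4 (by linarith)
  refine lt_of_le_of_lt h6 ?_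
  have e : (b / 8) - (1 - b / 2) * ((b / 8) * (1 + b / 4)) = b ^ 2 / 32 + b ^ 3 / 64 := by ring
  have : 0 < b ^ 2 / 32 + b ^ 3 / 64 := by positivity
  linarith

end Sok
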