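import Pool.Agent.Lib.MP_816dec_an.CU4

/-!
MP_816dec_an, part C, near q = 1: contraction (6.5) and first exit (6.7).
-/

open Complex Set Filter Topology MeasureTheory intervalIntegral

namespace Sok

/-- (VARIATION) of the comparison function along the chord -/
theorem uS_var {C R : ℝ} {s η : ℂ} (hC : 1 ≤ C) (hR : 40000 * C ≤ R) (hs : 0 ≤ s.re) (hs0 : s ≠ 0)
    (hRe : R * ep s ≤ 1) (hre : η.re ≤ C * ep s) (hout : Out R s η) {t : ℝ} (ht : t ∈ Icc (0:ℝ) 1) :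
    ‖uS C s (η - (t:ℂ) * s) - uS C s η‖ ≤ ‖1 - uS C s η‖ / 4 ∧
    ‖1 - uS C s η‖ * ‖uS C s (η - (t:ℂ) * s) - uS C s η‖ ≤ (4 / 3) * ‖s‖ := by
  have he := ep_pos hs0
  have hre' : (η - (t:ℂ) * s).re ≤ C * ep s := by
    have : (η - (t:ℂ) * s).re = η.re - t * s.re := by simp
    rw [this]
    have := mul_nonneg ht.1 hs
    linarith
  have hX := norm_Xc_lt hC hs0 hre
  have hX' := norm_Xc_lt hC hs0 hre'
  have hsr : 0 ≤ ((t:ℂ) * s).re := by
    have : ((t:ℂ) * s).re = t * s.re := by simp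
    rw [this]; exact mul_nonneg ht.1 hs
  have hXX : Xc C s (η - (t:ℂ) * s) - Xc C s η = Xc C s η * (exp (-((t:ℂ) * s)) - 1) := by
    unfold Xc
    have : η - (t:ℂ) * s - 1 - ((2 * C * ep s : ℝ) : ℂ)
        = (η - 1 - ((2 * C * ep s : ℝ) : ℂ)) + (-((t:ℂ) * s)) := by ring
    rw [this, Complex.exp_add]
    ring
  have hts : ‖(t:ℂ) * s‖ ≤ ‖s‖ := by
    rw [norm_mul, Complex.norm_real, Real.norm_eq_abs, abs_of_nonneg ht.1]
    have := norm_nonneg s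
    nlinarith [ht.2]
  have hd : ‖Xc C s (η - (t:ℂ) * s) - Xc C s η‖ * Real.exp 1 ≤ ‖s‖ := by
    rw [hXX, norm_mul]
    have h1 := norm_exp_neg_sub_one_le hsr
    have h2 : ‖exp (-((t:ℂ) * s)) - 1‖ ≤ ‖s‖ := h1.trans hts
    calc ‖Xc C s η‖ * ‖exp (-((t:ℂ) * s)) - 1‖ * Real.exp 1
        = (‖Xc C s η‖ * Real.exp 1) * ‖exp (-((t:ℂ) * s)) - 1‖ := by ring
      _ ≤ 1 * ‖s‖ := mul_le_mul hX.le h2 (norm_nonneg _) zero_le_one
      _ = ‖s‖ := one_mul _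
  obtain ⟨b, hb⟩ : ∃ b, b = ‖1 - uS C s η‖ := ⟨_, rfl⟩
  have hvl := v_lower hC (by linarith) hs0 hRe hre hout
  have hb0 : 0 ≤ b := by rw [hb]; exact norm_nonneg _
  rw [← hb] at hvl ⊢
  have hcube := ep_cube s
  obtain ⟨e, hee⟩ : ∃ e, e = ep s := ⟨_, rfl⟩
  rw [← hee] at hvl he hcube hRe
  have heb : 540 * e ≤ b ^ 2 := by
    have h1 : 40000 * e ≤ R * e := mul_le_mul_of_nonneg_right (by linarith) he.le
    linarith
  -- 8 |s| ≤ C e b
  have h8 : 8 * ‖s‖ ≤ C * e * b := by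
    have h1 : (8 * ‖s‖) ^ 2 ≤ (C * e * b) ^ 2 := by
      have h2 : (8 * ‖s‖) ^ 2 = 64 * e ^ 3 := by rw [hcube]; ring
      rw [h2]
      have h3 : 64 * e ^ 3 ≤ e ^ 2 * b ^ 2 := by nlinarith [sq_nonneg e]
      have h4 : e ^ 2 * b ^ 2 ≤ (C * e * b) ^ 2 := by
        have : (C * e * b) ^ 2 = C ^ 2 * (e ^ 2 * b ^ 2) := by ring
        rw [this]
        have hC2 : 1 ≤ C ^ 2 := by nlinarith
        have : 0 ≤ e ^ 2 * b ^ 2 := by positivity
        nlinarith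
      linarith
    exact (abs_le_of_sq_le_sq' h1 (by positivity)).2
  have hCe : C * e ≤ 1 / 2 := by nlinarith
  have h0 := uf_var0 hX hX'
  have h1e : 1 - Real.exp 1 * ‖Xc C s η‖ ≥ C * e / 2 := by
    have h1 : Real.exp 1 * ‖Xc C s η‖ ≤ Real.exp (-(C * e)) := by
      rw [mul_comm, norm_Xc]
      apply Real.exp_le_exp.2
      rw [hee]; linarith
    have hCe0 : 0 ≤ C * e := by positivity
    have h2 : Real.exp (-(C * e)) ≤ 1 - C * e / 2 := by
      have h3 := Real.abs_exp_sub_one_sub_id_le (x := -(C * e)) (by rw [abs_neg, abs_of_nonneg hCe0]; linarith)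
      have h4 := (abs_le.1 h3).2
      nlinarith
    linarith
  have hD0 : ‖uS C s (η - (t:ℂ) * s) - uS C s η‖ ≤ b / 4 := by
    have hCe0 : 0 < C * e := by positivity
    have h2 : ‖uS C s (η - (t:ℂ) * s) - uS C s η‖ * (C * e / 2) ≤ ‖s‖ := by
      calc ‖uS C s (η - (t:ℂ) * s) - uS C s η‖ * (C * e / 2)
          ≤ ‖uS C s (η - (t:ℂ) * s) - uS C s η‖ * (1 - Real.exp 1 * ‖Xc C s η‖) :=
            mul_le_mul_of_nonneg_left h1e (norm_nonneg _)
        _ ≤ Real.exp 1 * ‖Xc C s (η - (t:ℂ) * s) - Xc C s η‖ := h0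
        _ ≤ ‖s‖ := by rw [mul_comm]; exact hd
    have h3 : ‖uS C s (η - (t:ℂ) * s) - uS C s η‖ * (C * e) ≤ (b / 4) * (C * e) := by linarith
    exact le_of_mul_le_mul_right h3 hCe0
  refine ⟨hD0, ?_⟩
  have := uf_var hX hX' hd (by rw [hb] at hD0; exact hD0)
  rw [hb]
  exact this

/-- (6.5) contraction -/
theorem contraction {C R : ℝ} {s η : ℂ} (hC : 1 ≤ C) (hR : 40000 * C ≤ R) (hs : 0 ≤ s.re) (hs0 : s ≠ 0)
    (hRe : R * ep s ≤ 1) (hre : η.re ≤ C * ep s) (hout : Out R s η)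
    (hf : ∀ t ∈ Icc (0:ℝ) 1, fS s (η - (t:ℂ) * s) ≠ 0)
    (hU : ∀ t ∈ Icc (0:ℝ) 1, ‖US s (η - (t:ℂ) * s) - uS C s (η - (t:ℂ) * s)‖
      ≤ ‖1 - uS C s (η - (t:ℂ) * s)‖ / 8) :
    ‖US s η - uS C s η‖ < ‖1 - uS C s η‖ / 8 := by
  have he := ep_pos hs0
  obtain ⟨b, hb⟩ : ∃ b, b = ‖1 - uS C s η‖ := ⟨_, rfl⟩
  have hvl := v_lower hC (by linarith) hs0 hRe hre hout
  have hb0 : 0 ≤ b := by rw [hb]; exact norm_nonneg _
  have hb2 : b ≤ 2 := by rw [hb]; exact one_sub_uS_le hC hs0 hre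
  have hcube := ep_cube s
  rw [← hb] at hvl
  obtain ⟨e, hee⟩ : ∃ e, e = ep s := ⟨_, rfl⟩
  rw [← hee] at hvl he hcube hRe
  have hspos : 0 < ‖s‖ := norm_pos_iff.2 hs0
  have hCeb : 540 * (C * e) ≤ b ^ 2 := by
    have h1 : 40000 * C * e ≤ R * e := mul_le_mul_of_nonneg_right hR he.le
    nlinarith
  have heb : 540 * e ≤ b ^ 2 := by nlinarith
  have hbpos : 0 < b := by
    rcases eq_or_lt_of_le hb0 with h | h
    · exfalso; rw [← h] at heb; nlinarith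
    · exact h
  -- |s| ≤ b³/10000
  have hsb : ‖s‖ ≤ b ^ 3 / 10000 := by
    have h1 : ‖s‖ ^ 2 ≤ (b ^ 3 / 10000) ^ 2 := by
      rw [← hcube]
      have h2 : e ≤ b ^ 2 / 540 := by linarith
      have h3 : e ^ 3 ≤ (b ^ 2 / 540) ^ 3 := pow_le_pow_left₀ he.le h2 3
      have h4 : (b ^ 2 / 540) ^ 3 = b ^ 6 / 157464000 := by ring
      have h5 : (b ^ 3 / 10000) ^ 2 = b ^ 6 / 100000000 := by ring
      have h6 : 0 ≤ b ^ 6 := by positivity
      rw [h5]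
      rw [h4] at h3
      linarith
    exact (abs_le_of_sq_le_sq' h1 (by positivity)).2
  obtain ⟨u, hu⟩ : ∃ u, u = uS C s η := ⟨_, rfl⟩
  obtain ⟨A, hA⟩ : ∃ A : ℂ, A = (∫ t in (0:ℝ)..1, US s (η - (t:ℂ) * s)) - u := ⟨_, rfl⟩
  -- bound of A
  have hVc : ContinuousOn (fun t : ℝ => US s (η - (t:ℂ) * s)) (Icc 0 1) := by
    have h1 : ContinuousOn (fun t : ℝ => η - (t:ℂ) * s) (Icc 0 1) := by fun_prop
    exact (continuousOn_US hs).comp h1 (fun t ht => hf t ht)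
  have hAb : ‖A‖ ≤ b / 8 + (3 / 2) * (‖s‖ / b) := by
    have h1 : A = ∫ t in (0:ℝ)..1, (US s (η - (t:ℂ) * s) - u) := by
      rw [hA, intervalIntegral.integral_sub]
      · simp
      · apply ContinuousOn.intervalIntegrable
        rw [uIcc_of_le zero_le_one]; exact hVc
      · exact intervalIntegrable_const
    rw [h1]
    have h2 := intervalIntegral.norm_integral_le_of_norm_le_const (a := (0:ℝ)) (b := 1)
      (C := b / 8 + (3 / 2) * (‖s‖ / b)) (f := fun t : ℝ => US s (η - (t:ℂ) * s) - u) ?_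
    · simpa using h2
    · intro t ht
      rw [uIoc_of_le zero_le_one] at ht
      have ht' : t ∈ Icc (0:ℝ) 1 := ⟨ht.1.le, ht.2⟩
      obtain ⟨hv1, hv2⟩ := uS_var hC hR hs hs0 (by rw [← hee]; exact hRe) hre hout ht'
      rw [← hb] at hv1 hv2
      obtain ⟨D, hD⟩ : ∃ D, D = ‖uS C s (η - (t:ℂ) * s) - uS C s η‖ := ⟨_, rfl⟩
      rw [← hD] at hv1 hv2
      have hD2 : D ≤ (4 / 3) * (‖s‖ / b) := by
        have : D * b ≤ (4 / 3) * (‖s‖ / b) * b := by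
          have : (4 / 3) * (‖s‖ / b) * b = (4 / 3) * ‖s‖ := by field_simp
          rw [this]; linarith
        exact le_of_mul_le_mul_right this hbpos
      have h3 : ‖1 - uS C s (η - (t:ℂ) * s)‖ ≤ b + D := by
        calc ‖1 - uS C s (η - (t:ℂ) * s)‖
            = ‖(1 - uS C s η) - (uS C s (η - (t:ℂ) * s) - uS C s η)‖ := by congr 1; ring
          _ ≤ ‖1 - uS C s η‖ + ‖uS C s (η - (t:ℂ) * s) - uS C s η‖ := norm_sub_le _ _
          _ = b + D := by rw [← hb, ← hD]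
      have h4 : ‖US s (η - (t:ℂ) * s) - u‖ ≤ (b + D) / 8 + D := by
        calc ‖US s (η - (t:ℂ) * s) - u‖
            = ‖(US s (η - (t:ℂ) * s) - uS C s (η - (t:ℂ) * s)) + (uS C s (η - (t:ℂ) * s) - uS C s η)‖ := by
              rw [hu]; congr 1; ring
          _ ≤ ‖US s (η - (t:ℂ) * s) - uS C s (η - (t:ℂ) * s)‖ + ‖uS C s (η - (t:ℂ) * s) - uS C s η‖ :=
              norm_add_le _ _
          _ ≤ (b + D) / 8 + D := by
              rw [← hD]
              have := hU t ht'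
              linarith
      have h5 : 0 ≤ ‖s‖ / b := by positivity
      linarith
  -- U = u exp B
  obtain ⟨B, hB⟩ : ∃ B : ℂ, B = A + ((2 * C * e : ℝ) : ℂ) - s / 2 := ⟨_, rfl⟩
  have hUB : US s η = u * exp B := by
    rw [US_chord hs hs0 hf]
    have h1 : (∫ t in (0:ℝ)..1, US s (η - (t:ℂ) * s)) = u + A := by rw [hA]; ring
    rw [h1]
    have h2 : u = Xc C s η * exp u := by rw [hu]; exact uS_eq hC hs0 hre
    conv_rhs => rw [h2]
    unfold Xc
    rw [← Complex.exp_add, ← Complex.exp_add, ← Complex.exp_add, hB, ← hee]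
    congr 1
    ring
  have hBb : ‖B‖ ≤ b / 8 + b ^ 2 / 100 := by
    have h1 : ‖B‖ ≤ ‖A‖ + 2 * C * e + ‖s‖ / 2 := by
      rw [hB]
      calc ‖A + ((2 * C * e : ℝ) : ℂ) - s / 2‖ ≤ ‖A + ((2 * C * e : ℝ) : ℂ)‖ + ‖s / 2‖ := norm_sub_le _ _
        _ ≤ ‖A‖ + ‖((2 * C * e : ℝ) : ℂ)‖ + ‖s / 2‖ := by
            have := norm_add_le A ((2 * C * e : ℝ) : ℂ)
            linarith
        _ = ‖A‖ + 2 * C * e + ‖s‖ / 2 := by
            rw [Complex.norm_real, Real.norm_eq_abs, abs_of_nonneg (by positivity), norm_div]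
            simp
    have h2 : ‖s‖ / b ≤ b ^ 2 / 10000 := by
      rw [div_le_iff₀ hbpos]
      calc ‖s‖ ≤ b ^ 3 / 10000 := hsb
        _ = b ^ 2 / 10000 * b := by ring
    have h3 : ‖s‖ ≤ b ^ 2 / 5000 := by
      have : b ^ 3 / 10000 ≤ b ^ 2 / 5000 := by
        have : b ^ 3 = b ^ 2 * b := by ring
        rw [this]
        have : 0 ≤ b ^ 2 := by positivity
        nlinarith
      linarith
    nlinarith
  have hfin := final_est (u := u) hbpos hb2 (by rw [hu, hb]; exact uS_G hC hs0 hre) hBb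
  rw [← hu]
  rw [← hu] at hb
  rw [← hb, hUB]
  have : u * exp B - u = u * (exp B - 1) := by ring
  rw [this]
  exact hfin

end Sok
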