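import Pool.Agent.Lib.MP_816dec_an.CU5

/-!
MP_816dec_an, part C, near q = 1: first exit (6.7): no zero outside the window.
-/

open Complex Set Filter Topology MeasureTheory intervalIntegral

namespace Sok

theorem continuous_Xc (C : ℝ) (s : ℂ) : Continuous (Xc C s) := by unfold Xc; fun_prop

theorem continuousOn_uS {C : ℝ} {s : ℂ} (hC : 1 ≤ C) (hs0 : s ≠ 0) :
    ContinuousOn (uS C s) {η | η.re ≤ C * ep s} := by
  intro η hη
  have hη' : η.re ≤ C * ep s := hη
  have hX := norm_Xc_lt hC hs0 hη'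
  have hpos : 0 < 1 - Real.exp 1 * ‖Xc C s η‖ := by rw [mul_comm]; linarith
  rw [ContinuousWithinAt, tendsto_iff_norm_sub_tendsto_zero]
  have h1 : Tendsto (fun x => Real.exp 1 * ‖Xc C s x - Xc C s η‖ / (1 - Real.exp 1 * ‖Xc C s η‖))
      (𝓝[{η | η.re ≤ C * ep s}] η) (𝓝 0) := by
    have h2 : Tendsto (Xc C s) (𝓝[{η | η.re ≤ C * ep s}] η) (𝓝 (Xc C s η)) :=
      ((continuous_Xc C s).tendsto η).mono_left nhdsWithin_le_nhds
    have h3 := tendsto_iff_norm_sub_tendsto_zero.1 h2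
    have h4 := (h3.const_mul (Real.exp 1)).div_const (1 - Real.exp 1 * ‖Xc C s η‖)
    simpa using h4
  refine squeeze_zero' (Eventually.of_forall fun x => norm_nonneg _) ?_ h1
  filter_upwards [self_mem_nhdsWithin] with x hx
  have h5 := uf_var0 hX (norm_Xc_lt hC hs0 (show x.re ≤ C * ep s from hx))
  rw [le_div_iff₀ hpos]
  exact h5

theorem uS_add_period (C : ℝ) (s η : ℂ) (k : ℤ) : uS C s (η - 2 * Real.pi * k * I) = uS C s η := by
  unfold uS Xc
  have : η - 2 * Real.pi * k * I - 1 - ((2 * C * ep s : ℝ) : ℂ)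
      = (η - 1 - ((2 * C * ep s : ℝ) : ℂ)) - 2 * Real.pi * k * I := by ring
  rw [this, exp_sub_period]

theorem fS_sub_period (s η : ℂ) (k : ℤ) : fS s (η - 2 * Real.pi * k * I) = fS s η := by
  unfold fS zc
  have : η - 2 * Real.pi * k * I - 1 - s / 2 = (η - 1 - s / 2) - 2 * Real.pi * k * I := by ring
  rw [this, exp_sub_period]

/-- the defect function exp(η-1-s/2) f(η-s) - u f = (U - u) f -/
noncomputable def defe (C : ℝ) (s η : ℂ) : ℂ := exp (η - 1 - s / 2) * fS s (η - s) - uS C s η * fS s η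

theorem defe_eq {C : ℝ} {s η : ℂ} (hf : fS s η ≠ 0) : defe C s η = (US s η - uS C s η) * fS s η := by
  unfold defe US
  field_simp

theorem defe_sub_period (C : ℝ) (s η : ℂ) (k : ℤ) :
    defe C s (η - 2 * Real.pi * k * I) = defe C s η := by
  unfold defe
  rw [uS_add_period, fS_sub_period]
  have h1 : η - 2 * Real.pi * k * I - 1 - s / 2 = (η - 1 - s / 2) - 2 * Real.pi * k * I := by ring
  have h2 : η - 2 * Real.pi * k * I - s = (η - s) - 2 * Real.pi * k * I := by ring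
  rw [h1, h2, exp_sub_period, fS_sub_period]

theorem continuousOn_defe {C : ℝ} {s : ℂ} (hC : 1 ≤ C) (hs : 0 ≤ s.re) (hs0 : s ≠ 0) :
    ContinuousOn (defe C s) {η | η.re ≤ C * ep s} := by
  unfold defe
  apply ContinuousOn.sub
  · apply Continuous.continuousOn
    exact (by fun_prop : Continuous fun η : ℂ => exp (η - 1 - s / 2)).mul
      ((continuous_fS hs).comp (continuous_id.sub continuous_const))
  · exact (continuousOn_uS hC hs0).mul (continuous_fS hs).continuousOn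

theorem Out.sub_period {R : ℝ} {s η : ℂ} (h : Out R s η) (k : ℤ) : Out R s (η - 2 * Real.pi * k * I) := by
  intro j
  have h1 := h (j + k)
  have e : η - 2 * Real.pi * k * I - 2 * Real.pi * j * I = η - 2 * Real.pi * ((j + k : ℤ) : ℂ) * I := by
    push_cast; ring
  rw [e]
  exact h1

/-- far to the left everything is fine -/
theorem far_left {C : ℝ} {s : ℂ} (hC : 1 ≤ C) (hs : 0 ≤ s.re) (hs0 : s ≠ 0) :
    ∃ L : ℝ, ∀ η : ℂ, η.re ≤ -L → ‖defe C s η‖ < ‖1 - uS C s η‖ / 8 * ‖fS s η‖ := by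
  have hcont : ContinuousAt (F (exp (-s))) 0 := (hasDerivAt_F (norm_exp_neg_le hs) 0).continuousAt
  rw [Metric.continuousAt_iff] at hcont
  obtain ⟨δ, hδ, hF⟩ := hcont (1 / 2) (by norm_num)
  rw [F_zero] at hF
  have hspos : 0 < ‖s‖ := norm_pos_iff.2 hs0
  have he := ep_pos hs0
  -- choose L
  obtain ⟨L, hL⟩ : ∃ L : ℝ, Real.exp (-L) < min (δ * ‖s‖) (1 / 100) := by
    have hm : 0 < min (δ * ‖s‖) (1 / 100) := lt_min (by positivity) (by norm_num)
    have := Real.tendsto_exp_neg_atTop_nhds_zero.eventually (gt_mem_nhds hm)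
    obtain ⟨L, hL⟩ := this.exists
    exact ⟨L, hL⟩
  obtain ⟨hL1, hL2⟩ := lt_min_iff.1 hL
  refine ⟨max L 0, fun η hη => ?_⟩
  have hη0 : η.re ≤ 0 := by linarith [le_max_right L 0]
  have hηL : η.re ≤ -L := by linarith [le_max_left L 0]
  have hre : η.re ≤ C * ep s := hη0.trans (by positivity)
  have hexpη : Real.exp η.re ≤ Real.exp (-L) := Real.exp_le_exp.2 hηL
  -- f near 1
  have hfne : ∀ ζ : ℂ, ζ.re ≤ -L → ‖fS s ζ - 1‖ < 1 / 2 := by
    intro ζ hζ
    have hz : ‖zc s ζ‖ < δ := by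
      unfold zc
      rw [norm_mul, norm_neg, norm_div, norm_one, Complex.norm_exp]
      have h1 : (ζ - 1 - s / 2).re ≤ -L := by
        have : (ζ - 1 - s / 2).re = ζ.re - 1 - s.re / 2 := by simp
        rw [this]; linarith
      have h2 : Real.exp (ζ - 1 - s / 2).re < δ * ‖s‖ := lt_of_le_of_lt (Real.exp_le_exp.2 h1) hL1
      calc 1 / ‖s‖ * Real.exp (ζ - 1 - s / 2).re < 1 / ‖s‖ * (δ * ‖s‖) :=
            mul_lt_mul_of_pos_left h2 (by positivity)
        _ = δ := by field_simp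
    have := hF (by simpa using hz)
    rw [dist_eq_norm] at this
    exact this
  have hf1 := hfne η hηL
  have hf2 := hfne (η - s) (by
    have : (η - s).re = η.re - s.re := by simp
    rw [this]; linarith)
  have hfa : 1 / 2 ≤ ‖fS s η‖ := by
    have h1 : ‖(1:ℂ)‖ ≤ ‖fS s η‖ + ‖fS s η - 1‖ := by
      calc ‖(1:ℂ)‖ = ‖fS s η - (fS s η - 1)‖ := by congr 1; ring
        _ ≤ _ := norm_sub_le _ _
    rw [norm_one] at h1; linarith
  have hfb : ‖fS s η‖ ≤ 3 / 2 := by
    calc ‖fS s η‖ = ‖(fS s η - 1) + 1‖ := by congr 1; ring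
      _ ≤ ‖fS s η - 1‖ + ‖(1:ℂ)‖ := norm_add_le _ _
      _ ≤ 3 / 2 := by rw [norm_one]; linarith
  have hfc : ‖fS s (η - s)‖ ≤ 3 / 2 := by
    calc ‖fS s (η - s)‖ = ‖(fS s (η - s) - 1) + 1‖ := by congr 1; ring
      _ ≤ ‖fS s (η - s) - 1‖ + ‖(1:ℂ)‖ := norm_add_le _ _
      _ ≤ 3 / 2 := by rw [norm_one]; linarith
  have hu : ‖uS C s η‖ ≤ 1 / 100 := by
    have h1 := uS_eq hC hs0 hre
    have h2 : ‖uS C s η‖ = ‖Xc C s η‖ * Real.exp (uS C s η).re := by
      conv_lhs => rw [h1]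
      rw [norm_mul, Complex.norm_exp]
    have h3 : Real.exp (uS C s η).re ≤ Real.exp 1 :=
      Real.exp_le_exp.2 (le_trans (Complex.re_le_norm _) (uS_norm hC hs0 hre))
    rw [h2]
    calc ‖Xc C s η‖ * Real.exp (uS C s η).re ≤ ‖Xc C s η‖ * Real.exp 1 :=
          mul_le_mul_of_nonneg_left h3 (norm_nonneg _)
      _ = Real.exp (η.re - 2 * C * ep s) := norm_Xc C s η
      _ ≤ Real.exp (-L) := Real.exp_le_exp.2 (by nlinarith)
      _ ≤ 1 / 100 := hL2.le
  have hexp : ‖exp (η - 1 - s / 2)‖ ≤ 1 / 100 := by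
    rw [Complex.norm_exp]
    have h1 : (η - 1 - s / 2).re ≤ -L := by
      have : (η - 1 - s / 2).re = η.re - 1 - s.re / 2 := by simp
      rw [this]; linarith
    exact (Real.exp_le_exp.2 h1).trans hL2.le
  have hd : ‖defe C s η‖ ≤ 3 / 100 := by
    unfold defe
    calc ‖exp (η - 1 - s / 2) * fS s (η - s) - uS C s η * fS s η‖
        ≤ ‖exp (η - 1 - s / 2) * fS s (η - s)‖ + ‖uS C s η * fS s η‖ := norm_sub_le _ _
      _ = ‖exp (η - 1 - s / 2)‖ * ‖fS s (η - s)‖ + ‖uS C s η‖ * ‖fS s η‖ := by rw [norm_mul, norm_mul]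
      _ ≤ (1 / 100) * (3 / 2) + (1 / 100) * (3 / 2) := by
          gcongr
      _ = 3 / 100 := by norm_num
  have hv : 99 / 100 ≤ ‖1 - uS C s η‖ := by
    have h1 : ‖(1:ℂ)‖ ≤ ‖1 - uS C s η‖ + ‖uS C s η‖ := by
      calc ‖(1:ℂ)‖ = ‖(1 - uS C s η) + uS C s η‖ := by congr 1; ring
        _ ≤ _ := norm_add_le _ _
    rw [norm_one] at h1; linarith
  nlinarith

/-- (6.7) first exit: no zero outside the window -/
theorem no_zero_outside {C R : ℝ} {s : ℂ} (hC : 1 ≤ C) (hR : 40000 * C ≤ R) (hs : 0 ≤ s.re)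
    (hs0 : s ≠ 0) (hRe : R * ep s ≤ 1)
    (hlayer : ∀ η : ℂ, η.re ≤ C * ep s → Out R s η → (∃ k : ℤ, ‖η - 2 * Real.pi * k * I‖ ≤ 2 * R * ep s) →
      fS s η ≠ 0 ∧ ‖US s η - uS C s η‖ < ‖1 - uS C s η‖ / 8) {η : ℂ} (hη : η.re ≤ C * ep s)
    (hout : Out R s η) : fS s η ≠ 0 := by
  intro hzero
  have he := ep_pos hs0
  have hspos : 0 < ‖s‖ := norm_pos_iff.2 hs0
  -- the bad set
  obtain ⟨E, hE⟩ : ∃ E : Set ℂ, E = {η | η.re ≤ C * ep s ∧ Out R s η ∧
      ‖1 - uS C s η‖ / 8 * ‖fS s η‖ ≤ ‖defe C s η‖} := ⟨_, rfl⟩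
  have hηE : η ∈ E := by
    rw [hE]; refine ⟨hη, hout, ?_⟩
    rw [hzero]; simp
  have hEper : ∀ η ∈ E, ∀ k : ℤ, η - 2 * Real.pi * k * I ∈ E := by
    intro η hη k
    rw [hE] at hη ⊢
    refine ⟨?_, hη.2.1.sub_period k, ?_⟩
    · have : (η - 2 * Real.pi * k * I).re = η.re := by simp
      rw [this]; exact hη.1
    · rw [uS_add_period, fS_sub_period, defe_sub_period]; exact hη.2.2
  obtain ⟨L, hL⟩ := far_left hC hs hs0 (C := C) (s := s)
  -- closedness
  have hclosed : IsClosed E := by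
    have h1 : IsClosed {η : ℂ | η.re ≤ C * ep s} := isClosed_le Complex.continuous_re continuous_const
    have h2 : IsClosed {η : ℂ | Out R s η} := by
      have : {η : ℂ | Out R s η} = ⋂ k : ℤ, {η : ℂ | R * ep s ≤ ‖η - 2 * Real.pi * k * I‖} := by
        ext x; simp [Out]
      rw [this]
      exact isClosed_iInter fun k => isClosed_le continuous_const (by fun_prop)
    have h3 : ContinuousOn (fun η => ‖1 - uS C s η‖ / 8 * ‖fS s η‖) {η : ℂ | η.re ≤ C * ep s} := by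
      have := continuousOn_uS (C := C) hC hs0
      have h4 := (continuous_fS hs).continuousOn (s := {η : ℂ | η.re ≤ C * ep s})
      fun_prop
    have h4 : ContinuousOn (fun η => ‖defe C s η‖) {η : ℂ | η.re ≤ C * ep s} :=
      (continuousOn_defe hC hs hs0).norm
    have h5 := h1.isClosed_le h3 h4
    have : E = {η | Out R s η} ∩ {x ∈ {η : ℂ | η.re ≤ C * ep s} | ‖1 - uS C s x‖ / 8 * ‖fS s x‖ ≤ ‖defe C s x‖} := by
      rw [hE]; ext x; simp only [mem_setOf_eq, mem_inter_iff]; tauto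
    rw [this]
    exact h2.inter h5
  -- compact part
  obtain ⟨K, hK⟩ : ∃ K : Set ℂ, K = E ∩ (Set.uIcc (-L) (C * ep s) ×ℂ Set.uIcc (-Real.pi) Real.pi) := ⟨_, rfl⟩
  have hKc : IsCompact K := by
    rw [hK]
    exact (isCompact_uIcc.reProdIm isCompact_uIcc).inter_left hclosed
  have hEL : ∀ η ∈ E, -L < η.re := by
    intro η hη
    by_contra hcon
    push Not at hcon
    have := hL η hcon
    rw [hE] at hη
    linarith [hη.2.2]
  have hrep : ∀ η ∈ E, ∃ η' ∈ K, η'.re = η.re := by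
    intro η hη
    obtain ⟨k, hk⟩ := exists_rep η
    refine ⟨η - 2 * Real.pi * k * I, ?_, by simp⟩
    rw [hK]
    refine ⟨hEper η hη k, ?_⟩
    rw [Complex.mem_reProdIm]
    have h1 : (η - 2 * Real.pi * k * I).re = η.re := by simp
    have h2 := hEL η hη
    have h3 : η.re ≤ C * ep s := by rw [hE] at hη; exact hη.1
    refine ⟨?_, ?_⟩
    · rw [h1, uIcc_of_le (by linarith)]; exact ⟨h2.le, h3⟩
    · rw [uIcc_of_le (by linarith [Real.pi_pos])]
      exact abs_le.1 hk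
  have hKne : K.Nonempty := by
    obtain ⟨η', h1, -⟩ := hrep η hηE
    exact ⟨η', h1⟩
  obtain ⟨η₂, hη₂K, hmin⟩ := hKc.exists_isMinOn hKne Complex.continuous_re.continuousOn
  have hη₂E : η₂ ∈ E := by rw [hK] at hη₂K; exact hη₂K.1
  have hminE : ∀ η ∈ E, η₂.re ≤ η.re := by
    intro η hη
    obtain ⟨η', h1, h2⟩ := hrep η hη
    rw [← h2]
    exact hmin h1
  have hη₂E' := hη₂E
  rw [hE] at hη₂E'
  obtain ⟨hη₂re, hη₂out, hη₂bad⟩ := hη₂E'
  -- η₂ is far from the window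
  have hfar : ∀ k : ℤ, 2 * R * ep s < ‖η₂ - 2 * Real.pi * k * I‖ := by
    intro k
    by_contra hcon
    push Not at hcon
    obtain ⟨h1, h2⟩ := hlayer η₂ hη₂re hη₂out ⟨k, hcon⟩
    rw [defe_eq h1, norm_mul] at hη₂bad
    have h3 : 0 < ‖fS s η₂‖ := norm_pos_iff.2 h1
    have h4 := le_of_mul_le_mul_right hη₂bad h3
    linarith
  have hs_le : ‖s‖ ≤ R * ep s := by
    have hcube := ep_cube s
    have he1 : ep s ≤ 1 := by nlinarith
    have h1 : ‖s‖ ^ 2 ≤ (ep s) ^ 2 := by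
      rw [← hcube]
      nlinarith [sq_nonneg (ep s)]
    have h2 : ‖s‖ ≤ ep s := (abs_le_of_sq_le_sq' h1 he.le).2
    have h3 : ep s ≤ R * ep s := by nlinarith
    linarith
  -- chord points
  have hchordout : ∀ t ∈ Icc (0:ℝ) 1, ∀ k : ℤ, R * ep s < ‖η₂ - (t:ℂ) * s - 2 * Real.pi * k * I‖ := by
    intro t ht k
    have h1 := hfar k
    have h2 : ‖(t:ℂ) * s‖ ≤ ‖s‖ := by
      rw [norm_mul, Complex.norm_real, Real.norm_eq_abs, abs_of_nonneg ht.1]
      nlinarith [ht.2]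
    have h3 : ‖η₂ - 2 * Real.pi * k * I‖ ≤ ‖η₂ - (t:ℂ) * s - 2 * Real.pi * k * I‖ + ‖(t:ℂ) * s‖ := by
      calc ‖η₂ - 2 * Real.pi * k * I‖ = ‖(η₂ - (t:ℂ) * s - 2 * Real.pi * k * I) + (t:ℂ) * s‖ := by
            congr 1; ring
        _ ≤ _ := norm_add_le _ _
    linarith
  have hchordre : ∀ t ∈ Icc (0:ℝ) 1, (η₂ - (t:ℂ) * s).re ≤ η₂.re := by
    intro t ht
    have : (η₂ - (t:ℂ) * s).re = η₂.re - t * s.re := by simp
    rw [this]
    have := mul_nonneg ht.1 hs
    linarith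
  -- points strictly to the left are good
  have hleft : ∀ w : ℂ, w.re < η₂.re → Out R s w → ‖defe C s w‖ < ‖1 - uS C s w‖ / 8 * ‖fS s w‖ := by
    intro w hw hwo
    by_contra hcon
    push Not at hcon
    have : w ∈ E := by rw [hE]; exact ⟨by linarith, hwo, hcon⟩
    linarith [hminE w this]
  have hgood : ∀ t ∈ Icc (0:ℝ) 1, fS s (η₂ - (t:ℂ) * s) ≠ 0 ∧
      ‖US s (η₂ - (t:ℂ) * s) - uS C s (η₂ - (t:ℂ) * s)‖ ≤ ‖1 - uS C s (η₂ - (t:ℂ) * s)‖ / 8 := by
    intro t ht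
    obtain ⟨w, hw⟩ : ∃ w : ℂ, w = η₂ - (t:ℂ) * s := ⟨_, rfl⟩
    have hwre : w.re ≤ η₂.re := by rw [hw]; exact hchordre t ht
    have hwout : ∀ k : ℤ, R * ep s < ‖w - 2 * Real.pi * k * I‖ := by rw [hw]; exact hchordout t ht
    rw [← hw]
    have hwC : w.re ≤ C * ep s := hwre.trans hη₂re
    -- a δ such that w - x is Out for 0 ≤ x ≤ δ
    obtain ⟨δ, hδ, hδout⟩ : ∃ δ > 0, ∀ x : ℝ, 0 ≤ x → x ≤ δ → Out R s (w - (x:ℂ)) := by
      have hd : ∃ δ > 0, ∀ k : ℤ, R * ep s + δ ≤ ‖w - 2 * Real.pi * k * I‖ := by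
        -- only finitely many k matter
        by_cases hwbig : ∀ k : ℤ, R * ep s + 1 ≤ ‖w - 2 * Real.pi * k * I‖
        · exact ⟨1, one_pos, hwbig⟩
        · push Not at hwbig
          have hfin : {k : ℤ | ‖w - 2 * Real.pi * k * I‖ < R * ep s + 1}.Finite := by
            apply Set.Finite.subset (Set.finite_Icc (-⌈(R * ep s + 1 + |w.im|)⌉) ⌈(R * ep s + 1 + |w.im|)⌉)
            intro k hk
            have hk' : ‖w - 2 * Real.pi * k * I‖ < R * ep s + 1 := hk
            have h1 := Complex.abs_im_le_norm (w - 2 * Real.pi * k * I)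
            have h2 : (w - 2 * Real.pi * k * I).im = w.im - 2 * Real.pi * k := by simp
            rw [h2] at h1
            have h3 : |(k:ℝ)| ≤ 2 * Real.pi * |(k:ℝ)| := by
              have := Real.pi_gt_three
              have := abs_nonneg (k:ℝ)
              nlinarith
            have h4 : |2 * Real.pi * (k:ℝ)| = 2 * Real.pi * |(k:ℝ)| := by
              rw [abs_mul, abs_of_pos (by positivity : 0 < 2 * Real.pi)]
            have h5 : |2 * Real.pi * (k:ℝ)| ≤ |w.im - 2 * Real.pi * k| + |w.im| := by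
              have := abs_sub_abs_le_abs_sub (2 * Real.pi * (k:ℝ)) w.im
              rw [abs_sub_comm] at this
              linarith
            have h6 : |(k:ℝ)| ≤ R * ep s + 1 + |w.im| := by linarith
            have h7 : |(k:ℝ)| ≤ (⌈(R * ep s + 1 + |w.im|)⌉ : ℝ) := h6.trans (Int.le_ceil _)
            rw [abs_le] at h7
            constructor
            · have := h7.1
              exact_mod_cast this
            · have := h7.2
              exact_mod_cast this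
          obtain ⟨k₀, hk₀, hk₀min⟩ := hfin.exists_minimalFor (fun k : ℤ => ‖w - 2 * Real.pi * k * I‖) _ hwbig
          refine ⟨min 1 (‖w - 2 * Real.pi * k₀ * I‖ - R * ep s), lt_min one_pos (by linarith [hwout k₀]), ?_⟩
          intro k
          by_cases hk : ‖w - 2 * Real.pi * k * I‖ < R * ep s + 1
          · have h8 : ‖w - 2 * Real.pi * k₀ * I‖ ≤ ‖w - 2 * Real.pi * k * I‖ := by
              rcases le_total ‖w - 2 * Real.pi * k₀ * I‖ ‖w - 2 * Real.pi * k * I‖ with h | h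
              · exact h
              · exact hk₀min hk h
            have := min_le_right 1 (‖w - 2 * Real.pi * k₀ * I‖ - R * ep s)
            linarith
          · push Not at hk
            have := min_le_left 1 (‖w - 2 * Real.pi * k₀ * I‖ - R * ep s)
            linarith
      obtain ⟨δ, hδ, hδk⟩ := hd
      refine ⟨δ, hδ, fun x hx0 hxδ k => ?_⟩
      have h1 := hδk k
      have h2 : ‖w - 2 * Real.pi * k * I‖ ≤ ‖w - (x:ℂ) - 2 * Real.pi * k * I‖ + x := by
        calc ‖w - 2 * Real.pi * k * I‖ = ‖(w - (x:ℂ) - 2 * Real.pi * k * I) + (x:ℂ)‖ := by congr 1; ring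
          _ ≤ ‖w - (x:ℂ) - 2 * Real.pi * k * I‖ + ‖(x:ℂ)‖ := norm_add_le _ _
          _ = _ := by rw [Complex.norm_real, Real.norm_eq_abs, abs_of_nonneg hx0]
      linarith
    have hleftx : ∀ x : ℝ, 0 < x → x ≤ δ →
        ‖defe C s (w - (x:ℂ))‖ < ‖1 - uS C s (w - (x:ℂ))‖ / 8 * ‖fS s (w - (x:ℂ))‖ := by
      intro x hx hxδ
      apply hleft _ _ (hδout x hx.le hxδ)
      have : (w - (x:ℂ)).re = w.re - x := by simp
      rw [this]; linarith
    -- limit x → 0
    have hrex : ∀ x : ℝ, 0 ≤ x → (w - (x:ℂ)).re ≤ C * ep s := by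
      intro x hx
      have : (w - (x:ℂ)).re = w.re - x := by simp
      rw [this]; linarith
    have hlim : ‖defe C s w‖ ≤ ‖1 - uS C s w‖ / 8 * ‖fS s w‖ := by
      have hmap : Tendsto (fun x : ℝ => w - (x:ℂ)) (𝓝[>] 0) (𝓝[{η : ℂ | η.re ≤ C * ep s}] w) := by
        apply tendsto_nhdsWithin_of_tendsto_nhds_of_eventually_within
        · have : Continuous (fun x : ℝ => w - (x:ℂ)) := by fun_prop
          have h := (this.tendsto 0).mono_left (nhdsWithin_le_nhds (s := Ioi (0:ℝ)))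
          simpa using h
        · filter_upwards [self_mem_nhdsWithin] with x hx
          exact hrex x (le_of_lt hx)
      have h1 := ((continuousOn_defe hC hs hs0).norm w hwC).tendsto.comp hmap
      have h3 : ContinuousOn (fun η => ‖1 - uS C s η‖ / 8 * ‖fS s η‖) {η : ℂ | η.re ≤ C * ep s} := by
        have := continuousOn_uS (C := C) hC hs0
        have h4 := (continuous_fS hs).continuousOn (s := {η : ℂ | η.re ≤ C * ep s})
        fun_prop
      have h2 := (h3 w hwC).tendsto.comp hmap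
      refine le_of_tendsto_of_tendsto h1 h2 ?_
      have : Ioc (0:ℝ) δ ∈ 𝓝[>] (0:ℝ) := Ioc_mem_nhdsGT hδ
      filter_upwards [this] with x hx
      exact (hleftx x hx.1 hx.2).le
    have hall : ∀ x : ℝ, 0 ≤ x → x ≤ δ →
        ‖defe C s (w - (x:ℂ))‖ ≤ ‖1 - uS C s (w - (x:ℂ))‖ / 8 * ‖fS s (w - (x:ℂ))‖ := by
      intro x hx hxδ
      rcases eq_or_lt_of_le hx with h | h
      · rw [← h]; simpa using hlim
      · exact (hleftx x h hxδ).le
    have hfw : fS s w ≠ 0 := by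
      intro h0
      obtain ⟨g, hg⟩ : ∃ g : ℝ → ℂ, g = fun x : ℝ => fS s (w - (x:ℂ)) := ⟨_, rfl⟩
      have hgd : ∀ x : ℝ, HasDerivAt g (-(zc s (w - (x:ℂ)) * fS s (w - (x:ℂ) - s))) x := by
        intro x
        have h1 := hasDerivAt_fS hs (w - (x:ℂ))
        have h2 : HasDerivAt (fun x : ℝ => w - (x:ℂ)) (-1) x := by
          have h3 : HasDerivAt (fun x : ℂ => w - x) (-1) (x:ℂ) := by
            simpa using (hasDerivAt_id (x:ℂ)).const_sub w
          exact h3.comp_ofReal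
        have h4 := HasDerivAt.scomp x h1 h2
        have h5 : (fS s ∘ fun x : ℝ => w - (x:ℂ)) = g := by rw [hg]; rfl
        rw [h5] at h4
        refine h4.congr_deriv ?_
        rw [smul_eq_mul]; ring
      have hbound : ∀ x ∈ Ico (0:ℝ) δ, ‖-(zc s (w - (x:ℂ)) * fS s (w - (x:ℂ) - s))‖ ≤ 2 / ‖s‖ * ‖g x‖ + 0 := by
        intro x hx
        have h1 := hall x hx.1 hx.2.le
        have h2 := hrex x hx.1
        have h3 := uS_norm hC hs0 h2
        have h4 := one_sub_uS_le hC hs0 h2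
        rw [norm_neg, norm_mul]
        have h5 : exp (w - (x:ℂ) - 1 - s / 2) * fS s (w - (x:ℂ) - s)
            = defe C s (w - (x:ℂ)) + uS C s (w - (x:ℂ)) * fS s (w - (x:ℂ)) := by unfold defe; ring
        have h6 : ‖exp (w - (x:ℂ) - 1 - s / 2) * fS s (w - (x:ℂ) - s)‖ ≤ 2 * ‖fS s (w - (x:ℂ))‖ := by
          rw [h5]
          calc ‖defe C s (w - (x:ℂ)) + uS C s (w - (x:ℂ)) * fS s (w - (x:ℂ))‖
              ≤ ‖defe C s (w - (x:ℂ))‖ + ‖uS C s (w - (x:ℂ)) * fS s (w - (x:ℂ))‖ := norm_add_le _ _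
            _ ≤ ‖1 - uS C s (w - (x:ℂ))‖ / 8 * ‖fS s (w - (x:ℂ))‖ + 1 * ‖fS s (w - (x:ℂ))‖ := by
                rw [norm_mul]
                have := mul_le_mul_of_nonneg_right h3 (norm_nonneg (fS s (w - (x:ℂ))))
                linarith
            _ ≤ 2 * ‖fS s (w - (x:ℂ))‖ := by
                have := norm_nonneg (fS s (w - (x:ℂ)))
                nlinarith
        have h7 : ‖zc s (w - (x:ℂ))‖ * ‖fS s (w - (x:ℂ) - s)‖
            = (1 / ‖s‖) * ‖exp (w - (x:ℂ) - 1 - s / 2) * fS s (w - (x:ℂ) - s)‖ := by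
          unfold zc
          rw [norm_mul, norm_mul, norm_neg, norm_div, norm_one]; ring
        rw [h7, add_zero, hg]
        calc 1 / ‖s‖ * ‖exp (w - (x:ℂ) - 1 - s / 2) * fS s (w - (x:ℂ) - s)‖
            ≤ 1 / ‖s‖ * (2 * ‖fS s (w - (x:ℂ))‖) := mul_le_mul_of_nonneg_left h6 (by positivity)
          _ = 2 / ‖s‖ * ‖fS s (w - (x:ℂ))‖ := by ring
      have hgr := norm_le_gronwallBound_of_norm_deriv_right_le (f := g) (δ := 0) (K := 2 / ‖s‖) (ε := 0)
        (a := 0) (b := δ) (fun x _ => (hgd x).continuousAt.continuousWithinAt)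
        (fun x _ => (hgd x).hasDerivWithinAt) (by rw [hg]; simp [h0]) hbound δ ⟨hδ.le, le_rfl⟩
      have hgδ : g δ = 0 := by
        have : ‖g δ‖ ≤ 0 := by simpa [gronwallBound_ε0_δ0] using hgr
        exact norm_le_zero_iff.1 this
      have := hleftx δ hδ le_rfl
      rw [hg] at hgδ
      simp only at hgδ
      rw [hgδ] at this
      simp at this
      exact absurd this (not_lt.2 (norm_nonneg _))
    refine ⟨hfw, ?_⟩
    rw [defe_eq hfw, norm_mul] at hlim
    exact le_of_mul_le_mul_right hlim (norm_pos_iff.2 hfw)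
  have hcon := contraction hC hR hs hs0 hRe hη₂re hη₂out (fun t ht => (hgood t ht).1)
    (fun t ht => (hgood t ht).2)
  have hf2 : fS s η₂ ≠ 0 := by simpa using (hgood 0 (by simp)).1
  rw [defe_eq hf2, norm_mul] at hη₂bad
  have h3 : 0 < ‖fS s η₂‖ := norm_pos_iff.2 hf2
  have h4 := le_of_mul_le_mul_right hη₂bad h3
  linarith

end Sok
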