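import Mathlib

/-!
MP_816dec_an (Sokal's function), part C, row V1: the key inequality of (6.2).
-/

open Complex Set Filter Topology MeasureTheory

namespace Sok

/-- `(exp δ - 1 - δ - δ²/2)/δ³ = ∫_0^1 (1-t)²/2 e^{tδ} dt` -/
theorem h_rep {δ : ℂ} (hδ : δ ≠ 0) :
    (Complex.exp δ - 1 - δ - δ ^ 2 / 2) / δ ^ 3 =
      ∫ t in (0:ℝ)..1, ((1 - t : ℝ) : ℂ) ^ 2 / 2 * Complex.exp (t * δ) := by
  have hder : ∀ t : ℝ, HasDerivAt (fun t : ℝ => ((1 - t : ℝ) : ℂ) ^ 2 / 2 * Complex.exp (t * δ) / δ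
      + ((1 - t : ℝ) : ℂ) * Complex.exp (t * δ) / δ ^ 2 + Complex.exp (t * δ) / δ ^ 3)
      (((1 - t : ℝ) : ℂ) ^ 2 / 2 * Complex.exp (t * δ)) t := by
    intro t
    have h1 : HasDerivAt (fun t : ℝ => ((1 - t : ℝ) : ℂ)) (-1) t := by
      have := ((hasDerivAt_id t).const_sub 1).ofReal_comp
      simpa using this
    have h2 : HasDerivAt (fun t : ℝ => Complex.exp ((t : ℂ) * δ)) (Complex.exp (t * δ) * δ) t := by
      have h3 : HasDerivAt (fun t : ℝ => (t : ℂ) * δ) δ t := by
        simpa using (Complex.ofRealCLM.hasDerivAt (x := t)).mul_const δ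
      exact h3.cexp
    have h3 := ((((h1.pow 2).div_const 2).mul h2).div_const δ).add
      (((h1.mul h2).div_const (δ ^ 2)).add (h2.div_const (δ ^ 3)))
    have h4 : HasDerivAt (fun t : ℝ => ((1 - t : ℝ) : ℂ) ^ 2 / 2 * Complex.exp (t * δ) / δ
      + (((1 - t : ℝ) : ℂ) * Complex.exp (t * δ) / δ ^ 2 + Complex.exp (t * δ) / δ ^ 3)) _ t := h3
    simp only [← add_assoc] at h4
    refine h4.congr_deriv ?_
    simp only [Pi.pow_apply]
    push_cast
    field_simp
    ring
  rw [intervalIntegral.integral_eq_sub_of_hasDerivAt (fun t _ => hder t)]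
  · push_cast
    simp only [sub_self, one_mul, zero_mul, Complex.exp_zero]
    field_simp
    ring
  · apply Continuous.intervalIntegrable
    fun_prop

theorem re_h {δ : ℂ} (hδ : δ ≠ 0) :
    ((Complex.exp δ - 1 - δ - δ ^ 2 / 2) / δ ^ 3).re =
      ∫ t in (0:ℝ)..1, (1 - t) ^ 2 / 2 * (Real.exp (t * δ.re) * Real.cos (t * δ.im)) := by
  rw [h_rep hδ]
  have h1 := (Complex.reCLM.intervalIntegral_comp_comm (μ := volume) (a := (0:ℝ)) (b := 1)
    (f := fun t : ℝ => ((1 - t : ℝ) : ℂ) ^ 2 / 2 * Complex.exp (t * δ))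
    (by apply Continuous.intervalIntegrable; fun_prop))
  simp only [Complex.reCLM_apply] at h1
  rw [← h1]
  apply intervalIntegral.integral_congr
  intro t _
  simp only
  have e1 : (((1 - t : ℝ) : ℂ) ^ 2 / 2) = (((1 - t) ^ 2 / 2 : ℝ) : ℂ) := by push_cast; ring
  rw [e1, Complex.re_ofReal_mul, Complex.exp_re]
  congr 2
  · simp
  · simp

/-- two integrations by parts -/
theorem parts (a b : ℝ) (hb : b ≠ 0) :
    ∫ t in (0:ℝ)..1, (1 - t) ^ 2 / 2 * (Real.exp (t * (-a)) * Real.cos (t * b)) =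
      1 / (2 * b ^ 2) * ∫ t in (0:ℝ)..1,
        (2 + 4 * a * (1 - t) + a ^ 2 * (1 - t) ^ 2) * Real.exp (t * (-a)) * (1 - Real.cos (t * b)) := by
  have hder : ∀ t : ℝ, HasDerivAt (fun t : ℝ => (1 - t) ^ 2 * Real.exp (t * (-a)) * Real.sin (t * b) / (2 * b)
      - (-2 * (1 - t) - a * (1 - t) ^ 2) * Real.exp (t * (-a)) * (1 - Real.cos (t * b)) / (2 * b ^ 2))
      ((1 - t) ^ 2 / 2 * (Real.exp (t * (-a)) * Real.cos (t * b)) - 1 / (2 * b ^ 2) *
        ((2 + 4 * a * (1 - t) + a ^ 2 * (1 - t) ^ 2) * Real.exp (t * (-a)) * (1 - Real.cos (t * b)))) t := by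
    intro t
    have h1 : HasDerivAt (fun t : ℝ => (1 - t)) (-1) t := by simpa using (hasDerivAt_id t).const_sub 1
    have h2 : HasDerivAt (fun t : ℝ => Real.exp (t * (-a))) (Real.exp (t * (-a)) * (-a)) t := by
      have h3 : HasDerivAt (fun t : ℝ => t * (-a)) (-a) t := by
        simpa using (hasDerivAt_id t).mul_const (-a)
      exact h3.exp
    have h3 : HasDerivAt (fun t : ℝ => t * b) b t := by
      simpa using (hasDerivAt_id t).mul_const b
    have h4 := h3.sin
    have h5 := (h3.cos).const_sub 1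
    have h6 := (((h1.pow 2).mul h2).mul h4).div_const (2 * b)
    have h7 := ((((h1.const_mul (-2)).sub ((h1.pow 2).const_mul a)).mul h2).mul h5).div_const (2 * b ^ 2)
    have h8 : HasDerivAt (fun t : ℝ => (1 - t) ^ 2 * Real.exp (t * (-a)) * Real.sin (t * b) / (2 * b)
      - (-2 * (1 - t) - a * (1 - t) ^ 2) * Real.exp (t * (-a)) * (1 - Real.cos (t * b)) / (2 * b ^ 2)) _ t :=
      h6.sub h7
    refine h8.congr_deriv ?_
    simp only [Pi.pow_apply, Pi.mul_apply, Pi.sub_apply]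
    field_simp
    ring
  have h1 := intervalIntegral.integral_eq_sub_of_hasDerivAt (a := (0:ℝ)) (b := 1) (fun t _ => hder t)
    (by apply Continuous.intervalIntegrable; fun_prop)
  rw [intervalIntegral.integral_sub (by apply Continuous.intervalIntegrable; fun_prop)
    (by apply Continuous.intervalIntegrable; fun_prop), intervalIntegral.integral_const_mul] at h1
  have e0 : ∀ x y : ℝ, x - y = 0 → x = y := fun x y h => by linarith
  apply e0
  rw [h1]
  simp

private theorem int_one_sub_cos {b T : ℝ} (hb : 0 < b) (hT : 0 < T) :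
    T * min (1 / 2) ((b * T) ^ 2 / 15) ≤ ∫ t in (0:ℝ)..T, (1 - Real.cos (t * b)) := by
  rcases le_total (b * T) 2 with hx | hx
  · have h1 : ∫ t in (0:ℝ)..T, (b ^ 2 / 5) * t ^ 2 ≤ ∫ t in (0:ℝ)..T, (1 - Real.cos (t * b)) := by
      apply intervalIntegral.integral_mono_on hT.le
      · apply Continuous.intervalIntegrable; fun_prop
      · apply Continuous.intervalIntegrable; fun_prop
      · intro t ht
        have h2 : |t * b| ≤ Real.pi := by
          rw [abs_of_nonneg (mul_nonneg ht.1 hb.le)]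
          have := Real.pi_gt_three
          nlinarith [ht.2]
        have h3 := Real.cos_le_one_sub_mul_cos_sq h2
        have h4 : (1:ℝ) / 5 ≤ 2 / Real.pi ^ 2 := by
          rw [div_le_div_iff₀ (by norm_num) (by positivity)]
          have := Real.pi_lt_d2
          have := Real.pi_pos
          nlinarith
        have h5 := mul_le_mul_of_nonneg_right h4 (sq_nonneg (t * b))
        nlinarith
    rw [intervalIntegral.integral_const_mul, integral_pow] at h1
    refine le_trans ?_ h1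
    refine le_trans (mul_le_mul_of_nonneg_left (min_le_right _ _) hT.le) (le_of_eq ?_)
    norm_num
    ring
  · have h1 : ∫ t in (0:ℝ)..T, (1 - Real.cos (t * b)) = T - Real.sin (T * b) / b := by
      rw [intervalIntegral.integral_sub (by simp) (by apply Continuous.intervalIntegrable; fun_prop),
        intervalIntegral.integral_comp_mul_right (fun x => Real.cos x) hb.ne']
      simp
      field_simp
    rw [h1]
    refine le_trans (mul_le_mul_of_nonneg_left (min_le_left _ _) hT.le) ?_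
    have h2 : Real.sin (T * b) / b ≤ T / 2 := by
      rw [div_le_iff₀ hb]
      have := Real.sin_le_one (T * b)
      nlinarith
    linarith

/-- **Key inequality** (row V1) -/
theorem key_ineq {δ : ℂ} (hre : δ.re ≤ 0) (him : δ.im ≠ 0) :
    1 / 4000 * min 1 (1 / ‖δ‖ ^ 2) ≤ ((Complex.exp δ - 1 - δ - δ ^ 2 / 2) / δ ^ 3).re := by
  have hδ : δ ≠ 0 := by
    rintro rfl
    exact him rfl
  have hn : 0 < ‖δ‖ := norm_pos_iff.mpr hδ
  obtain ⟨a, ha⟩ : ∃ a, a = - δ.re := ⟨_, rfl⟩
  obtain ⟨b, hb⟩ : ∃ b, b = |δ.im| := ⟨_, rfl⟩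
  have ha0 : 0 ≤ a := by rw [ha]; linarith
  have hb0 : 0 < b := by rw [hb]; exact abs_pos.mpr him
  have haρ : a ≤ ‖δ‖ := by rw [ha]; exact (neg_le_abs _).trans (Complex.abs_re_le_norm δ)
  have hbρ : b ≤ ‖δ‖ := by rw [hb]; exact Complex.abs_im_le_norm δ
  rw [re_h hδ]
  have e1 : ∫ t in (0:ℝ)..1, (1 - t) ^ 2 / 2 * (Real.exp (t * δ.re) * Real.cos (t * δ.im)) =
      ∫ t in (0:ℝ)..1, (1 - t) ^ 2 / 2 * (Real.exp (t * (-a)) * Real.cos (t * b)) := by
    apply intervalIntegral.integral_congr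
    intro t _
    simp only
    rw [ha, neg_neg, hb]
    congr 2
    rcases abs_choice δ.im with h | h
    · rw [h]
    · rw [h, mul_neg, Real.cos_neg]
  rw [e1, parts a b hb0.ne']
  obtain ⟨T, hT⟩ : ∃ T, T = 1 / (2 * (1 + a)) := ⟨_, rfl⟩
  have hT0 : 0 < T := by rw [hT]; positivity
  have hT1 : T ≤ 1 / 2 := by
    rw [hT, div_le_div_iff₀ (by positivity) (by norm_num)]
    linarith
  have haT : a * T ≤ 1 / 2 := by
    rw [hT, mul_one_div, div_le_div_iff₀ (by positivity) (by norm_num)]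
    linarith
  have hnn : ∀ t ∈ Icc (0:ℝ) 1, 0 ≤ (2 + 4 * a * (1 - t) + a ^ 2 * (1 - t) ^ 2) * Real.exp (t * (-a)) *
      (1 - Real.cos (t * b)) := by
    intro t ht
    have h1 : 0 ≤ 1 - t := by linarith [ht.2]
    have h2 : 0 ≤ 1 - Real.cos (t * b) := by linarith [Real.cos_le_one (t * b)]
    positivity
  have hS : (1 + a) ^ 2 / 8 * (T * min (1 / 2) ((b * T) ^ 2 / 15)) ≤ ∫ t in (0:ℝ)..1,
        (2 + 4 * a * (1 - t) + a ^ 2 * (1 - t) ^ 2) * Real.exp (t * (-a)) * (1 - Real.cos (t * b)) := by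
    have h1 : ∫ t in (0:ℝ)..T, (1 + a) ^ 2 / 8 * (1 - Real.cos (t * b)) ≤ ∫ t in (0:ℝ)..T,
        (2 + 4 * a * (1 - t) + a ^ 2 * (1 - t) ^ 2) * Real.exp (t * (-a)) * (1 - Real.cos (t * b)) := by
      apply intervalIntegral.integral_mono_on hT0.le
      · apply Continuous.intervalIntegrable; fun_prop
      · apply Continuous.intervalIntegrable; fun_prop
      · intro t ht
        have h2 : 0 ≤ 1 - Real.cos (t * b) := by linarith [Real.cos_le_one (t * b)]
        apply mul_le_mul_of_nonneg_right _ h2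
        have h3 : (1:ℝ) / 2 ≤ Real.exp (t * (-a)) := by
          have h4 := Real.add_one_le_exp (t * (-a))
          have h5 : t * a ≤ T * a := mul_le_mul_of_nonneg_right ht.2 ha0
          nlinarith
        have h6 : (1:ℝ) / 2 ≤ 1 - t := by linarith [ht.2]
        have h7 : (1 + a) ^ 2 / 4 ≤ 2 + 4 * a * (1 - t) + a ^ 2 * (1 - t) ^ 2 := by
          have h8 : a * (1 / 2) ≤ a * (1 - t) := mul_le_mul_of_nonneg_left h6 ha0
          have h9 : (a * (1 / 2)) ^ 2 ≤ (a * (1 - t)) ^ 2 := by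
            apply pow_le_pow_left₀ (by positivity) h8
          nlinarith
        have h10 : 0 ≤ (1 + a) ^ 2 / 4 := by positivity
        nlinarith
    have h2 : ∫ t in (0:ℝ)..T,
        (2 + 4 * a * (1 - t) + a ^ 2 * (1 - t) ^ 2) * Real.exp (t * (-a)) * (1 - Real.cos (t * b)) ≤
        ∫ t in (0:ℝ)..1,
        (2 + 4 * a * (1 - t) + a ^ 2 * (1 - t) ^ 2) * Real.exp (t * (-a)) * (1 - Real.cos (t * b)) := by
      apply intervalIntegral.integral_mono_interval (le_refl _) hT0.le (by linarith)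
      · refine (ae_restrict_iff' measurableSet_Ioc).mpr (Eventually.of_forall fun t ht => ?_)
        exact hnn t ⟨ht.1.le, ht.2⟩
      · apply Continuous.intervalIntegrable; fun_prop
    refine le_trans ?_ (h1.trans h2)
    rw [intervalIntegral.integral_const_mul]
    exact mul_le_mul_of_nonneg_left (int_one_sub_cos hb0 hT0) (by positivity)
  refine le_trans ?_ (mul_le_mul_of_nonneg_left hS (by positivity))
  have e2 : 1 / (2 * b ^ 2) * ((1 + a) ^ 2 / 8 * (T * min (1 / 2) ((b * T) ^ 2 / 15))) =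
      min ((1 + a) / (64 * b ^ 2)) (1 / (1920 * (1 + a))) := by
    have e3 : 0 ≤ 1 / (2 * b ^ 2) * ((1 + a) ^ 2 / 8 * T) := by positivity
    have e4 : 1 / (2 * b ^ 2) * ((1 + a) ^ 2 / 8 * (T * min (1 / 2) ((b * T) ^ 2 / 15))) =
      1 / (2 * b ^ 2) * ((1 + a) ^ 2 / 8 * T) * min (1 / 2) ((b * T) ^ 2 / 15) := by ring
    rw [e4, mul_min_of_nonneg _ _ e3]
    congr 1
    · rw [hT]
      field_simp
      ring
    · rw [hT]
      field_simp
      ring
  rw [e2]
  apply le_min
  · have h1 : 1 / 64 * (1 / ‖δ‖ ^ 2) ≤ (1 + a) / (64 * b ^ 2) := by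
      rw [div_eq_mul_inv (1 + a), mul_inv, ← one_div (64 : ℝ), ← one_div (b ^ 2)]
      have h2 : 1 / ‖δ‖ ^ 2 ≤ 1 / b ^ 2 := by
        apply one_div_le_one_div_of_le (by positivity)
        exact pow_le_pow_left₀ hb0.le hbρ 2
      have h3 : 0 ≤ 1 / ‖δ‖ ^ 2 := by positivity
      nlinarith
    have h2 : min 1 (1 / ‖δ‖ ^ 2) ≤ 1 / ‖δ‖ ^ 2 := min_le_right _ _
    have h3 : 0 ≤ 1 / ‖δ‖ ^ 2 := by positivity
    refine le_trans ?_ h1
    nlinarith
  · rcases le_total ‖δ‖ 1 with h | h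
    · refine le_trans (mul_le_mul_of_nonneg_left (min_le_left _ _) (by norm_num)) ?_
      rw [mul_one, div_le_div_iff₀ (by norm_num) (by positivity)]
      nlinarith
    · refine le_trans (mul_le_mul_of_nonneg_left (min_le_right _ _) (by norm_num)) ?_
      rw [one_div_mul_one_div, div_le_div_iff₀ (by positivity) (by positivity)]
      nlinarith

end Sok
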