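import Pool.Agent.Lib.MP_816dec_an.CDefs
import Pool.Agent.Lib.MP_816dec_an.V1

/-!
MP_816dec_an, part C, row V2: the V contour representation of F near q = 1, Re s > 0.
-/

open Complex Set Filter Topology MeasureTheory

namespace Sok.CV

/-- limit of a primitive along a ray -/
theorem ray_lim {E P : ℂ → ℂ} (hE : Continuous E) (hP : ∀ x, HasDerivAt P (E x) x) {w : ℂ}
    (hint : IntegrableOn (fun ρ : ℝ => E (w * ρ)) (Ioi 0)) :
    Tendsto (fun R : ℝ => P (w * R)) atTop (𝓝 (P 0 + w * ∫ ρ in Ioi (0:ℝ), E (w * ρ))) := by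
  have hd : ∀ x : ℝ, HasDerivAt (fun ρ : ℝ => P (w * ρ)) (w * E (w * x)) x := by
    intro x
    have h2 : HasDerivAt (fun ρ : ℝ => w * (ρ : ℂ)) w x := by
      have := (Complex.ofRealCLM.hasDerivAt (x := x)).const_mul w
      simpa using this
    have h3 := (hP (w * x)).comp_of_eq x h2 rfl
    refine h3.congr_deriv ?_
    ring
  have hc : Continuous (fun ρ : ℝ => w * E (w * ρ)) := by fun_prop
  have h1 : ∀ R : ℝ, P (w * R) = P 0 + ∫ ρ in (0:ℝ)..R, w * E (w * ρ) := by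
    intro R
    have h4 := intervalIntegral.integral_eq_sub_of_hasDerivAt (fun x _ => hd x)
      (hc.intervalIntegrable 0 R)
    rw [h4]
    simp
  have h2 := intervalIntegral_tendsto_integral_Ioi (μ := volume) (f := fun ρ : ℝ => w * E (w * ρ)) 0
    (hint.const_mul w) (tendsto_id (α := ℝ))
  have h3 : (∫ ρ in Ioi (0:ℝ), w * E (w * ρ)) = w * ∫ ρ in Ioi (0:ℝ), E (w * ρ) := by
    rw [integral_const_mul]
  rw [h3] at h2
  have h4 := h2.const_add (P 0)
  refine h4.congr ?_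
  intro R
  rw [h1 R]
  rfl

/-- the two rays end at the same point -/
theorem seg_lim {E P : ℂ → ℂ} (hP : ∀ x, HasDerivAt P (E x) x) {w w' : ℂ} {κ M : ℝ} (hκ : 0 < κ)
    (hb : ∀ R : ℝ, 0 ≤ R → ∀ t ∈ Icc (0:ℝ) 1,
      ‖E (R * ((1 - t) * w + t * w'))‖ ≤ Real.exp (-κ * R ^ 2 + M * R)) :
    Tendsto (fun R : ℝ => P (w' * R) - P (w * R)) atTop (𝓝 0) := by
  have h1 : ∀ R : ℝ, 0 ≤ R → ‖P (w' * R) - P (w * R)‖ ≤ Real.exp (-κ * R ^ 2 + M * R) * (‖w' - w‖ * R) := by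
    intro R hR
    have h2 := Convex.norm_image_sub_le_of_norm_hasDerivWithin_le (𝕜 := ℂ) (f := P) (f' := E)
      (C := Real.exp (-κ * R ^ 2 + M * R)) (s := segment ℝ (w * R) (w' * R)) (x := w * R) (y := w' * R)
      (fun x _ => (hP x).hasDerivWithinAt) ?_ (convex_segment _ _) (left_mem_segment _ _ _)
      (right_mem_segment _ _ _)
    · refine h2.trans_eq ?_
      have : w' * R - w * R = (w' - w) * R := by ring
      rw [this, norm_mul, Complex.norm_real, Real.norm_of_nonneg hR]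
    · intro x hx
      rw [segment_eq_image] at hx
      obtain ⟨t, ht, rfl⟩ := hx
      have e0 : (1 - t) • (w * (R:ℂ)) + t • (w' * (R:ℂ)) = R * ((1 - t) * w + t * w') := by
        simp only [Complex.real_smul]
        push_cast
        ring
      show ‖E ((1 - t) • (w * (R:ℂ)) + t • (w' * (R:ℂ)))‖ ≤ _
      rw [e0]
      exact hb R hR t ht
  have hlim : Tendsto (fun R : ℝ => Real.exp (-R) * ‖w' - w‖) atTop (𝓝 0) := by
    have := Real.tendsto_exp_neg_atTop_nhds_zero.mul_const ‖w' - w‖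
    simpa using this
  apply squeeze_zero_norm' _ hlim
  obtain ⟨R0, hR0⟩ : ∃ R0 : ℝ, R0 = max 0 ((M + 2) / κ) := ⟨_, rfl⟩
  filter_upwards [eventually_ge_atTop R0] with R hR
  have hR1 : 0 ≤ R := le_trans (by rw [hR0]; exact le_max_left _ _) hR
  have hR2 : (M + 2) / κ ≤ R := le_trans (by rw [hR0]; exact le_max_right _ _) hR
  rw [div_le_iff₀ hκ] at hR2
  have h3 : -κ * R ^ 2 + M * R ≤ -R - R := by nlinarith
  have h4 : R ≤ Real.exp R := by
    have := Real.add_one_le_exp R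
    linarith
  calc ‖P (w' * R) - P (w * R)‖ ≤ Real.exp (-κ * R ^ 2 + M * R) * (‖w' - w‖ * R) := h1 R hR1
    _ ≤ Real.exp (-R - R) * (‖w' - w‖ * Real.exp R) := by gcongr
    _ = Real.exp (-R) * ‖w' - w‖ := by
        have : Real.exp (-R - R) * Real.exp R = Real.exp (-R) := by
          rw [← Real.exp_add]; congr 1; ring
        calc Real.exp (-R - R) * (‖w' - w‖ * Real.exp R) = (Real.exp (-R - R) * Real.exp R) * ‖w' - w‖ := by ring
          _ = _ := by rw [this]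

/-- Gaussian integrand -/
noncomputable def GE (s l : ℂ) (d : ℂ) : ℂ := exp (d ^ 2 / (2 * s) + l * d)

theorem GE_diff (s l : ℂ) : Differentiable ℂ (GE s l) := by
  unfold GE
  fun_prop

theorem GE_ray (s l w : ℂ) (ρ : ℝ) :
    GE s l (w * ρ) = exp (w ^ 2 / (2 * s) * (ρ:ℂ) ^ 2 + l * w * ρ + 0) := by
  unfold GE
  congr 1
  ring

theorem GE_int {s l w : ℂ} (hw : (w ^ 2 / (2 * s)).re < 0) : Integrable (fun ρ : ℝ => GE s l (w * ρ)) := by
  simp_rw [GE_ray]
  exact integrable_cexp_quadratic' hw _ _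

/-- rays in the same sector give the same integral -/
theorem GE_ray_eq {s l w w' : ℂ} (ha : (w ^ 2 / (2 * s)).re < 0) (hb : (w' ^ 2 / (2 * s)).re < 0)
    (hm : (w * w' / (2 * s)).re < 0) :
    w * ∫ ρ in Ioi (0:ℝ), GE s l (w * ρ) = w' * ∫ ρ in Ioi (0:ℝ), GE s l (w' * ρ) := by
  obtain ⟨P, hP'⟩ := (GE_diff s l).isExactOn_univ
  have hP : ∀ x, HasDerivAt P (GE s l x) x := fun x => hP' x (mem_univ x)
  have hE := (GE_diff s l).continuous
  have h1 := ray_lim hE hP (w := w) (GE_int ha).integrableOn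
  have h2 := ray_lim hE hP (w := w') (GE_int hb).integrableOn
  obtain ⟨κ, hκ⟩ : ∃ κ : ℝ, κ = min (-(w ^ 2 / (2 * s)).re) (min (-(w' ^ 2 / (2 * s)).re) (-(w * w' / (2 * s)).re)) :=
    ⟨_, rfl⟩
  have hκ0 : 0 < κ := by
    rw [hκ]
    refine lt_min (by linarith) (lt_min (by linarith) (by linarith))
  have hκa : (w ^ 2 / (2 * s)).re ≤ -κ := by
    have : κ ≤ -(w ^ 2 / (2 * s)).re := by rw [hκ]; exact min_le_left _ _
    linarith
  have hκb : (w' ^ 2 / (2 * s)).re ≤ -κ := by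
    have : κ ≤ -(w' ^ 2 / (2 * s)).re := by rw [hκ]; exact (min_le_right _ _).trans (min_le_left _ _)
    linarith
  have hκm : (w * w' / (2 * s)).re ≤ -κ := by
    have : κ ≤ -(w * w' / (2 * s)).re := by rw [hκ]; exact (min_le_right _ _).trans (min_le_right _ _)
    linarith
  have h3 := seg_lim (E := GE s l) (P := P) hP (w := w) (w' := w') (κ := κ) (M := ‖l‖ * (‖w‖ + ‖w'‖)) hκ0 ?_
  · have h4 : Tendsto (fun R : ℝ => P (w' * R) - P (w * R)) atTop
        (𝓝 ((P 0 + w' * ∫ ρ in Ioi (0:ℝ), GE s l (w' * ρ)) - (P 0 + w * ∫ ρ in Ioi (0:ℝ), GE s l (w * ρ)))) :=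
      h2.sub h1
    have h5 := tendsto_nhds_unique h3 h4
    have h6 : w' * (∫ ρ in Ioi (0:ℝ), GE s l (w' * ρ)) - w * (∫ ρ in Ioi (0:ℝ), GE s l (w * ρ)) = 0 := by
      rw [h5]; ring
    exact (sub_eq_zero.1 h6).symm
  · intro R hR t ht
    unfold GE
    rw [Complex.norm_exp]
    apply Real.exp_le_exp.2
    have e1 : ((R:ℂ) * ((1 - t) * w + t * w')) ^ 2 / (2 * s) =
        ((R ^ 2 * (1 - t) ^ 2 : ℝ) : ℂ) * (w ^ 2 / (2 * s)) + ((R ^ 2 * t ^ 2 : ℝ) : ℂ) * (w' ^ 2 / (2 * s))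
          + ((R ^ 2 * (2 * t * (1 - t)) : ℝ) : ℂ) * (w * w' / (2 * s)) := by
      push_cast
      ring
    rw [e1]
    simp only [Complex.add_re, Complex.re_ofReal_mul]
    have h7 : (l * (R * ((1 - t) * w + t * w'))).re ≤ ‖l‖ * (‖w‖ + ‖w'‖) * R := by
      refine (Complex.re_le_norm _).trans ?_
      rw [norm_mul, norm_mul, Complex.norm_real, Real.norm_of_nonneg hR]
      have h8 : ‖(1 - (t:ℂ)) * w + t * w'‖ ≤ ‖w‖ + ‖w'‖ := by
        calc ‖(1 - (t:ℂ)) * w + t * w'‖ ≤ ‖(1 - (t:ℂ)) * w‖ + ‖(t:ℂ) * w'‖ := norm_add_le _ _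
          _ = (1 - t) * ‖w‖ + t * ‖w'‖ := by
            rw [norm_mul, norm_mul]
            have e2 : (1 - (t:ℂ)) = ((1 - t : ℝ) : ℂ) := by push_cast; ring
            rw [e2, Complex.norm_real, Complex.norm_real, Real.norm_of_nonneg (by linarith [ht.2]),
              Real.norm_of_nonneg ht.1]
          _ ≤ _ := by
            have := norm_nonneg w
            have := norm_nonneg w'
            nlinarith [ht.1, ht.2]
      calc ‖l‖ * (R * ‖(1 - (t:ℂ)) * w + t * w'‖) ≤ ‖l‖ * (R * (‖w‖ + ‖w'‖)) := by gcongr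
        _ = _ := by ring
    have ht0 := ht.1
    have ht1 : 0 ≤ 1 - t := by linarith [ht.2]
    have hR2 : 0 ≤ R ^ 2 := sq_nonneg R
    have a1 : R ^ 2 * (1 - t) ^ 2 * (w ^ 2 / (2 * s)).re ≤ R ^ 2 * (1 - t) ^ 2 * (-κ) :=
      mul_le_mul_of_nonneg_left hκa (by positivity)
    have a2 : R ^ 2 * t ^ 2 * (w' ^ 2 / (2 * s)).re ≤ R ^ 2 * t ^ 2 * (-κ) :=
      mul_le_mul_of_nonneg_left hκb (by positivity)
    have a3 : R ^ 2 * (2 * t * (1 - t)) * (w * w' / (2 * s)).re ≤ R ^ 2 * (2 * t * (1 - t)) * (-κ) :=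
      mul_le_mul_of_nonneg_left hκm (by positivity)
    have a4 : R ^ 2 * (1 - t) ^ 2 * (-κ) + R ^ 2 * t ^ 2 * (-κ) + R ^ 2 * (2 * t * (1 - t)) * (-κ) = -κ * R ^ 2 := by
      ring
    linarith

/-- the full line -/
theorem GE_line {s l : ℂ} (hs : 0 < s.re) :
    (I * ∫ ρ in Ioi (0:ℝ), GE s l (I * ρ)) - (-I) * ∫ ρ in Ioi (0:ℝ), GE s l (-I * ρ) =
      I * (exp (log (2 * Real.pi * s) / 2) * exp (-s * l ^ 2 / 2)) := by
  have hs0 : s ≠ 0 := by rintro rfl; simp at hs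
  have hb : ((I:ℂ) ^ 2 / (2 * s)).re < 0 := by
    have e1 : (I:ℂ) ^ 2 / (2 * s) = -(s⁻¹) * ((1/2 : ℝ) : ℂ) := by
      rw [Complex.I_sq]; push_cast; field_simp
    rw [e1, Complex.re_mul_ofReal, Complex.neg_re, Complex.inv_re]
    have : 0 < s.re / Complex.normSq s := div_pos hs (Complex.normSq_pos.2 hs0)
    linarith
  have hint := GE_int (l := l) hb
  have h1 : (∫ ρ in Ioi (0:ℝ), GE s l (-I * ρ)) = ∫ ρ in Iic (0:ℝ), GE s l (I * ρ) := by
    have := integral_comp_neg_Ioi (E := ℂ) 0 (fun x : ℝ => GE s l (I * x))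
    rw [neg_zero] at this
    rw [← this]
    congr 1
    funext x
    congr 1
    push_cast
    ring
  have h2 : (∫ x : ℝ, GE s l (I * x)) = (∫ x in Iic (0:ℝ), GE s l (I * x)) + ∫ x in Ioi (0:ℝ), GE s l (I * x) := by
    exact (intervalIntegral.integral_Iic_add_Ioi hint.integrableOn hint.integrableOn).symm
  have h3 : (∫ x : ℝ, GE s l (I * x)) = exp (log (2 * Real.pi * s) / 2) * exp (-s * l ^ 2 / 2) := by
    simp_rw [GE_ray]
    rw [integral_cexp_quadratic hb]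
    have e1 : (Real.pi : ℂ) / -((I:ℂ) ^ 2 / (2 * s)) = 2 * Real.pi * s := by
      rw [Complex.I_sq]; field_simp
    have e2 : (0:ℂ) - (l * I) ^ 2 / (4 * ((I:ℂ) ^ 2 / (2 * s))) = -s * l ^ 2 / 2 := by
      rw [mul_pow, Complex.I_sq]; field_simp; ring
    rw [e1, e2]
    congr 1
    rw [Complex.cpow_def_of_ne_zero]
    · congr 1; ring
    · have : (Real.pi : ℂ) ≠ 0 := by exact_mod_cast Real.pi_ne_zero
      exact mul_ne_zero (mul_ne_zero two_ne_zero this) hs0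
  rw [h1, ← h3, h2]
  ring

theorem om_re : om.re = -(1 / 2) := by
  unfold om
  have e : (2 * (Real.pi:ℂ) / 3 * I) = ((2 * Real.pi / 3 : ℝ) : ℂ) * I := by push_cast; ring
  rw [e, Complex.exp_ofReal_mul_I_re]
  have : 2 * Real.pi / 3 = Real.pi - Real.pi / 3 := by ring
  rw [this, Real.cos_pi_sub, Real.cos_pi_div_three]

theorem om_im : om.im = Real.sqrt 3 / 2 := by
  unfold om
  have e : (2 * (Real.pi:ℂ) / 3 * I) = ((2 * Real.pi / 3 : ℝ) : ℂ) * I := by push_cast; ring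
  rw [e, Complex.exp_ofReal_mul_I_im]
  have : 2 * Real.pi / 3 = Real.pi - Real.pi / 3 := by ring
  rw [this, Real.sin_pi_sub, Real.sin_pi_div_three]

theorem om_eq : om = ((-(1 / 2) : ℝ) : ℂ) + ((Real.sqrt 3 / 2 : ℝ) : ℂ) * I := by
  apply Complex.ext
  · simp [om_re]
  · simp [om_im]

theorem sqrt3_sq : Real.sqrt 3 ^ 2 = 3 := Real.sq_sqrt (by norm_num)

theorem om_sq : om ^ 2 = starRingEnd ℂ om := by
  apply Complex.ext
  · rw [pow_two, Complex.mul_re, Complex.conj_re, om_re, om_im]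
    nlinarith [sqrt3_sq]
  · rw [pow_two, Complex.mul_im, Complex.conj_im, om_re, om_im]
    ring

theorem om_conj_sq : (starRingEnd ℂ om) ^ 2 = om := by
  rw [← map_pow, om_sq, Complex.conj_conj]

theorem om_cube : om ^ 3 = 1 := by
  apply Complex.ext
  · have : om ^ 3 = om ^ 2 * om := by ring
    rw [this, om_sq, Complex.mul_re, Complex.conj_re, Complex.conj_im, om_re, om_im]
    norm_num
    nlinarith [sqrt3_sq]
  · have : om ^ 3 = om ^ 2 * om := by ring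
    rw [this, om_sq, Complex.mul_im, Complex.conj_re, Complex.conj_im, om_re, om_im]
    norm_num
    ring

theorem norm_om : ‖om‖ = 1 := by
  unfold om
  have e : (2 * (Real.pi:ℂ) / 3 * I) = ((2 * Real.pi / 3 : ℝ) : ℂ) * I := by push_cast; ring
  rw [e, Complex.norm_exp_ofReal_mul_I]

theorem cs_ne (s : ℂ) : cs s ≠ 0 := by unfold cs; exact Complex.exp_ne_zero _

theorem cs_cube {s : ℂ} (hs : s ≠ 0) : cs s ^ 3 = 2 * s := by
  unfold cs
  rw [← Complex.exp_nat_mul]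
  have : ((3:ℕ):ℂ) * (log (2 * s) / 3) = log (2 * s) := by push_cast; ring
  rw [this, Complex.exp_log (mul_ne_zero two_ne_zero hs)]

theorem norm_cs_cube {s : ℂ} (hs : s ≠ 0) : ‖cs s‖ ^ 3 = 2 * ‖s‖ := by
  rw [← norm_pow, cs_cube hs, norm_mul]
  simp

theorem cs_re_im (s : ℂ) : (cs s).re = Real.exp ((log (2 * s) / 3).re) * Real.cos (arg s / 3) ∧
    (cs s).im = Real.exp ((log (2 * s) / 3).re) * Real.sin (arg s / 3) := by
  have h1 : (log (2 * s) / 3).im = arg s / 3 := by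
    have e : (log (2 * s) / 3) = log (2 * s) * ((1 / 3 : ℝ) : ℂ) := by push_cast; ring
    rw [e, Complex.mul_im]
    have e2 : (2 * s) = ((2:ℝ):ℂ) * s := by push_cast; ring
    rw [Complex.ofReal_im, Complex.ofReal_re, Complex.log_im, e2, Complex.arg_real_mul s (by norm_num)]
    ring
  unfold cs
  rw [Complex.exp_re, Complex.exp_im, h1]
  exact ⟨rfl, rfl⟩

/-- position of c = (2s)^(1/3) for Re s ≥ 0 -/
theorem cs_pos {s : ℂ} (hs : 0 ≤ s.re) : 0 < (cs s).re ∧ 3 * (cs s).im ^ 2 ≤ (cs s).re ^ 2 := by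
  obtain ⟨h1, h2⟩ := cs_re_im s
  obtain ⟨θ, hθ⟩ : ∃ θ : ℝ, θ = arg s / 3 := ⟨_, rfl⟩
  obtain ⟨E, hE⟩ : ∃ E : ℝ, E = Real.exp ((log (2 * s) / 3).re) := ⟨_, rfl⟩
  rw [← hθ, ← hE] at h1 h2
  have hE0 : 0 < E := by rw [hE]; exact Real.exp_pos _
  have habs : |arg s| ≤ Real.pi / 2 := Complex.abs_arg_le_pi_div_two_iff.2 hs
  have hθabs : |θ| ≤ Real.pi / 6 := by
    rw [hθ, abs_div, abs_of_pos (by norm_num : (0:ℝ) < 3)]
    linarith
  have hpi := Real.pi_pos
  have hcos : Real.sqrt 3 / 2 ≤ Real.cos θ := by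
    rw [← Real.cos_pi_div_six, ← Real.cos_abs θ]
    exact Real.cos_le_cos_of_nonneg_of_le_pi (abs_nonneg _) (by linarith) hθabs
  have hs3 : 0 < Real.sqrt 3 := Real.sqrt_pos.2 (by norm_num)
  have hcos0 : 0 < Real.cos θ := by linarith
  have hcs := Real.sin_sq_add_cos_sq θ
  have hsin : Real.sin θ ^ 2 ≤ 1 / 4 := by
    have : (Real.sqrt 3 / 2) ^ 2 ≤ Real.cos θ ^ 2 := pow_le_pow_left₀ (by positivity) hcos 2
    nlinarith [sqrt3_sq]
  refine ⟨by rw [h1]; positivity, ?_⟩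
  rw [h1, h2, mul_pow, mul_pow]
  have : 3 * Real.sin θ ^ 2 ≤ Real.cos θ ^ 2 := by nlinarith
  nlinarith [sq_nonneg E]

/-- strict version for Re s > 0 -/
theorem cs_pos' {s : ℂ} (hs : 0 < s.re) : 0 < (cs s).re ∧ 3 * (cs s).im ^ 2 < (cs s).re ^ 2 := by
  obtain ⟨h1, h2⟩ := cs_re_im s
  obtain ⟨θ, hθ⟩ : ∃ θ : ℝ, θ = arg s / 3 := ⟨_, rfl⟩
  obtain ⟨E, hE⟩ : ∃ E : ℝ, E = Real.exp ((log (2 * s) / 3).re) := ⟨_, rfl⟩
  rw [← hθ, ← hE] at h1 h2
  have hE0 : 0 < E := by rw [hE]; exact Real.exp_pos _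
  have habs : |arg s| < Real.pi / 2 := Complex.abs_arg_lt_pi_div_two_iff.2 (Or.inl hs)
  have hθabs : |θ| < Real.pi / 6 := by
    rw [hθ, abs_div, abs_of_pos (by norm_num : (0:ℝ) < 3)]
    linarith
  have hpi := Real.pi_pos
  have hcos : Real.sqrt 3 / 2 < Real.cos θ := by
    rw [← Real.cos_pi_div_six, ← Real.cos_abs θ]
    exact Real.cos_lt_cos_of_nonneg_of_le_pi (abs_nonneg _) (by linarith) hθabs
  have hs3 : 0 < Real.sqrt 3 := Real.sqrt_pos.2 (by norm_num)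
  have hcos0 : 0 < Real.cos θ := by linarith
  have hcs := Real.sin_sq_add_cos_sq θ
  have hsin : Real.sin θ ^ 2 < 1 / 4 := by
    have : (Real.sqrt 3 / 2) ^ 2 < Real.cos θ ^ 2 := pow_lt_pow_left₀ hcos (by positivity) two_ne_zero
    nlinarith [sqrt3_sq]
  refine ⟨by rw [h1]; positivity, ?_⟩
  rw [h1, h2, mul_pow, mul_pow]
  have : 3 * Real.sin θ ^ 2 < Real.cos θ ^ 2 := by nlinarith
  have hE2 : 0 < E ^ 2 := by positivity
  nlinarith

theorem re_div_sq (z c : ℂ) : (z / c ^ 2).re = (z * (starRingEnd ℂ c) ^ 2).re * (1 / (Complex.normSq c) ^ 2) := by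
  by_cases hc : c = 0
  · simp [hc]
  have hn : (Complex.normSq c : ℂ) ≠ 0 := by
    exact_mod_cast (Complex.normSq_pos.2 hc).ne'
  have e1 : z / c ^ 2 = (z * (starRingEnd ℂ c) ^ 2) * (((1 / (Complex.normSq c) ^ 2 : ℝ)) : ℂ) := by
    push_cast
    rw [Complex.normSq_eq_conj_mul_self]
    have hcc : starRingEnd ℂ c ≠ 0 := by simpa using hc
    field_simp
  rw [e1, Complex.re_mul_ofReal]

theorem re_div_one (z c : ℂ) : (z / c).re = (z * (starRingEnd ℂ c)).re * (1 / (Complex.normSq c)) := by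
  by_cases hc : c = 0
  · simp [hc]
  have hn : (Complex.normSq c : ℂ) ≠ 0 := by
    exact_mod_cast (Complex.normSq_pos.2 hc).ne'
  have e1 : z / c = (z * (starRingEnd ℂ c)) * (((1 / (Complex.normSq c) : ℝ)) : ℂ) := by
    push_cast
    rw [Complex.normSq_eq_conj_mul_self]
    have hcc : starRingEnd ℂ c ≠ 0 := by simpa using hc
    field_simp
  rw [e1, Complex.re_mul_ofReal]

/-- sign conditions for the upper ray -/
theorem sgn_up {s : ℂ} (hs : 0 < s.re) : ((cs s * om) ^ 2 / (2 * s)).re < 0 ∧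
    ((cs s * om) * I / (2 * s)).re < 0 := by
  have hs0 : s ≠ 0 := by rintro rfl; simp at hs
  obtain ⟨c, hc⟩ : ∃ c : ℂ, c = cs s := ⟨_, rfl⟩
  have hc0 : c ≠ 0 := by rw [hc]; exact cs_ne s
  have h3 : 2 * s = c ^ 3 := by rw [hc, cs_cube hs0]
  obtain ⟨hx, hy⟩ := cs_pos' hs
  rw [← hc] at hx hy ⊢
  rw [h3]
  have hn : 0 < Complex.normSq c := Complex.normSq_pos.2 hc0
  obtain ⟨q, hq⟩ : ∃ q : ℝ, q = Real.sqrt 3 := ⟨_, rfl⟩
  have hq0 : 0 < q := by rw [hq]; exact Real.sqrt_pos.2 (by norm_num)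
  have hq2 : q ^ 2 = 3 := by rw [hq]; exact sqrt3_sq
  have habs : (q * c.im) ^ 2 < c.re ^ 2 := by rw [mul_pow, hq2]; exact hy
  have habs2 := abs_lt.1 (abs_lt_of_sq_lt_sq habs hx.le)
  constructor
  · have e1 : (c * om) ^ 2 / c ^ 3 = starRingEnd ℂ om / c := by
      rw [mul_pow, om_sq]; field_simp
    rw [e1, re_div_one]
    apply mul_neg_of_neg_of_pos _ (by positivity)
    rw [Complex.mul_re, Complex.conj_re, Complex.conj_im, Complex.conj_re, Complex.conj_im, om_re, om_im, ← hq]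
    linarith [habs2.1]
  · have e1 : (c * om) * I / c ^ 3 = (om * I) / c ^ 2 := by field_simp
    rw [e1, re_div_sq]
    apply mul_neg_of_neg_of_pos _ (by positivity)
    rw [Complex.mul_re, Complex.mul_I_re, Complex.mul_I_im, om_re, om_im, ← hq, pow_two, Complex.mul_re,
      Complex.mul_im, Complex.conj_re, Complex.conj_im]
    have h5 : 0 < (q / 2) * (c.re ^ 2 - c.im ^ 2) + c.re * c.im := by
      have e5 : (q / 2) * (c.re ^ 2 - c.im ^ 2) + c.re * c.im = (1 / (2 * q)) * ((c.re + q * c.im) * (3 * c.re - q * c.im)) := by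
        field_simp
        nlinarith
      rw [e5]
      apply mul_pos (by positivity)
      apply mul_pos (by linarith [habs2.1]) (by linarith [habs2.2])
    nlinarith

/-- sign conditions for the lower ray -/
theorem sgn_dn {s : ℂ} (hs : 0 < s.re) : ((cs s * starRingEnd ℂ om) ^ 2 / (2 * s)).re < 0 ∧
    ((cs s * starRingEnd ℂ om) * (-I) / (2 * s)).re < 0 := by
  have hs0 : s ≠ 0 := by rintro rfl; simp at hs
  obtain ⟨c, hc⟩ : ∃ c : ℂ, c = cs s := ⟨_, rfl⟩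
  have hc0 : c ≠ 0 := by rw [hc]; exact cs_ne s
  have h3 : 2 * s = c ^ 3 := by rw [hc, cs_cube hs0]
  obtain ⟨hx, hy⟩ := cs_pos' hs
  rw [← hc] at hx hy ⊢
  rw [h3]
  have hn : 0 < Complex.normSq c := Complex.normSq_pos.2 hc0
  obtain ⟨q, hq⟩ : ∃ q : ℝ, q = Real.sqrt 3 := ⟨_, rfl⟩
  have hq0 : 0 < q := by rw [hq]; exact Real.sqrt_pos.2 (by norm_num)
  have hq2 : q ^ 2 = 3 := by rw [hq]; exact sqrt3_sq
  have habs : (q * c.im) ^ 2 < c.re ^ 2 := by rw [mul_pow, hq2]; exact hy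
  have habs2 := abs_lt.1 (abs_lt_of_sq_lt_sq habs hx.le)
  constructor
  · have e1 : (c * starRingEnd ℂ om) ^ 2 / c ^ 3 = om / c := by
      rw [mul_pow, om_conj_sq]; field_simp
    rw [e1, re_div_one]
    apply mul_neg_of_neg_of_pos _ (by positivity)
    rw [Complex.mul_re, Complex.conj_re, Complex.conj_im, om_re, om_im, ← hq]
    linarith [habs2.2]
  · have e1 : (c * starRingEnd ℂ om) * (-I) / c ^ 3 = (starRingEnd ℂ om * (-I)) / c ^ 2 := by field_simp
    rw [e1, re_div_sq]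
    apply mul_neg_of_neg_of_pos _ (by positivity)
    rw [mul_neg, Complex.mul_re, Complex.neg_re, Complex.neg_im, Complex.mul_I_re, Complex.mul_I_im,
      Complex.conj_re, Complex.conj_im, om_re, om_im, ← hq, pow_two, Complex.mul_re,
      Complex.mul_im, Complex.conj_re, Complex.conj_im]
    have h5 : 0 < (q / 2) * (c.re ^ 2 - c.im ^ 2) - c.re * c.im := by
      have e5 : (q / 2) * (c.re ^ 2 - c.im ^ 2) - c.re * c.im = (1 / (2 * q)) * ((c.re - q * c.im) * (3 * c.re + q * c.im)) := by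
        field_simp
        nlinarith
      rw [e5]
      apply mul_pos (by positivity)
      apply mul_pos (by linarith [habs2.2]) (by linarith [habs2.1])
    nlinarith

/-- Re (c ω) ≤ 0 and Re (c conj ω) ≤ 0 -/
theorem re_ray {s : ℂ} (hs : 0 ≤ s.re) : (cs s * om).re ≤ 0 ∧ (cs s * starRingEnd ℂ om).re ≤ 0 := by
  obtain ⟨hx, hy⟩ := cs_pos hs
  obtain ⟨q, hq⟩ : ∃ q : ℝ, q = Real.sqrt 3 := ⟨_, rfl⟩
  have hq0 : 0 < q := by rw [hq]; exact Real.sqrt_pos.2 (by norm_num)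
  have hq2 : q ^ 2 = 3 := by rw [hq]; exact sqrt3_sq
  have habs : (q * (cs s).im) ^ 2 ≤ (cs s).re ^ 2 := by rw [mul_pow, hq2]; exact hy
  have habs2 := abs_le.1 (abs_le_of_sq_le_sq habs hx.le)
  constructor
  · rw [Complex.mul_re, om_re, om_im, ← hq]; linarith [habs2.1]
  · rw [Complex.mul_re, Complex.conj_re, Complex.conj_im, om_re, om_im, ← hq]; linarith [habs2.2]

/-- imaginary parts: the rays stay away from the real axis -/
theorem im_ray {s : ℂ} (hs : 0 ≤ s.re) : 0 < (cs s * om).im ∧ (cs s * starRingEnd ℂ om).im < 0 := by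
  obtain ⟨hx, hy⟩ := cs_pos hs
  obtain ⟨q, hq⟩ : ∃ q : ℝ, q = Real.sqrt 3 := ⟨_, rfl⟩
  have hq0 : 0 < q := by rw [hq]; exact Real.sqrt_pos.2 (by norm_num)
  have hq2 : q ^ 2 = 3 := by rw [hq]; exact sqrt3_sq
  have h1 : |(cs s).im| < q * (cs s).re := by
    apply abs_lt_of_sq_lt_sq _ (by positivity)
    rw [mul_pow, hq2]
    have : 0 < (cs s).re ^ 2 := by positivity
    nlinarith
  have h2 := abs_lt.1 h1
  constructor
  · rw [Complex.mul_im, om_re, om_im, ← hq]; linarith [h2.2]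
  · rw [Complex.mul_im, Complex.conj_re, Complex.conj_im, om_re, om_im, ← hq]; linarith [h2.1]

/-- the Gaussian bracket over the V contour -/
theorem GE_bracket {s l : ℂ} (hs : 0 < s.re) :
    (cs s * om * ∫ ρ in Ioi (0:ℝ), GE s l (cs s * om * ρ)) -
      cs s * starRingEnd ℂ om * ∫ ρ in Ioi (0:ℝ), GE s l (cs s * starRingEnd ℂ om * ρ) =
      I * (exp (log (2 * Real.pi * s) / 2) * exp (-s * l ^ 2 / 2)) := by
  have hs0 : s ≠ 0 := by rintro rfl; simp at hs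
  have hI : ((I:ℂ) ^ 2 / (2 * s)).re < 0 := by
    have e1 : (I:ℂ) ^ 2 / (2 * s) = -(s⁻¹) * ((1/2 : ℝ) : ℂ) := by
      rw [Complex.I_sq]; push_cast; field_simp
    rw [e1, Complex.re_mul_ofReal, Complex.neg_re, Complex.inv_re]
    have : 0 < s.re / Complex.normSq s := div_pos hs (Complex.normSq_pos.2 hs0)
    linarith
  have hI' : ((-I:ℂ) ^ 2 / (2 * s)).re < 0 := by
    rw [neg_sq]; exact hI
  obtain ⟨u1, u2⟩ := sgn_up hs
  obtain ⟨d1, d2⟩ := sgn_dn hs
  rw [GE_ray_eq (l := l) u1 hI u2, GE_ray_eq (l := l) d1 hI' d2]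
  exact GE_line hs

end Sok.CV
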