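import Pool.Agent.Lib.MP_816dec_an.CV2

/-!
MP_816dec_an, part C, row V2 continued: PhiI = Ks exp(..) fS for Re s > 0, and the domination of the
V contour integrand.
-/

open Complex Set Filter Topology MeasureTheory

namespace Sok.CV

theorem GE_shift (s : ℂ) (k : ℕ) (d : ℂ) : GE s (k + 1 / s) d = GE s (1 / s) d * exp (k * d) := by
  unfold GE
  rw [← Complex.exp_add]
  congr 1
  ring

theorem norm_GE_shift_le {s : ℂ} (k : ℕ) {d : ℂ} (hd : d.re ≤ 0) :
    ‖GE s (k + 1 / s) d‖ ≤ ‖GE s (1 / s) d‖ := by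
  rw [GE_shift, norm_mul, Complex.norm_exp]
  have h1 : ((k:ℂ) * d).re ≤ 0 := by
    have : ((k:ℂ) * d).re = k * d.re := by
      have : (k:ℂ) = ((k:ℝ):ℂ) := by push_cast; rfl
      rw [this, Complex.re_ofReal_mul]
    rw [this]
    exact mul_nonpos_of_nonneg_of_nonpos (Nat.cast_nonneg k) hd
  have h2 : Real.exp ((k:ℂ) * d).re ≤ 1 := Real.exp_le_one_iff.2 h1
  exact mul_le_of_le_one_right (norm_nonneg _) h2

theorem integrand_eq {s : ℂ} (hs : s ≠ 0) (η d : ℂ) :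
    exp (-(1 / s) * (hD d + (exp η - 1) * (exp d - 1))) =
      exp (exp η / s) * (exp (-(1 / s) * exp η * exp d) * GE s (1 / s) d) := by
  unfold GE hD
  rw [← Complex.exp_add, ← Complex.exp_add]
  congr 1
  field_simp
  ring

/-- sum over k under the integral along one ray -/
theorem ray_sum {s w : ℂ} (hs : s ≠ 0) (ha : (w ^ 2 / (2 * s)).re < 0) (hre : w.re ≤ 0) (η : ℂ) :
    HasSum (fun k : ℕ => (-(1 / s) * exp η) ^ k / (k.factorial : ℂ) *
      ∫ ρ in Ioi (0:ℝ), GE s (k + 1 / s) (w * ρ))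
      (∫ ρ in Ioi (0:ℝ), exp (-(1 / s) * exp η * exp (w * ρ)) * GE s (1 / s) (w * ρ)) := by
  obtain ⟨Z, hZ⟩ : ∃ Z : ℂ, Z = -(1 / s) * exp η := ⟨_, rfl⟩
  rw [← hZ]
  obtain ⟨T, hT⟩ : ∃ T : ℕ → ℝ → ℂ, T = fun (k : ℕ) (ρ : ℝ) => Z ^ k / (k.factorial : ℂ) * GE s (k + 1 / s) (w * ρ) :=
    ⟨_, rfl⟩
  have hTint : ∀ k, Integrable (T k) (volume.restrict (Ioi (0:ℝ))) := by
    intro k
    rw [hT]
    exact ((GE_int ha).const_mul _).integrableOn
  obtain ⟨G, hG⟩ : ∃ G : ℝ, G = ∫ ρ in Ioi (0:ℝ), ‖GE s (1 / s) (w * ρ)‖ := ⟨_, rfl⟩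
  have hGint : Integrable (fun ρ : ℝ => ‖GE s (1 / s) (w * ρ)‖) (volume.restrict (Ioi (0:ℝ))) :=
    ((GE_int ha).norm).integrableOn
  have hbound : ∀ k, ∫ ρ in Ioi (0:ℝ), ‖T k ρ‖ ≤ ‖Z‖ ^ k / (k.factorial : ℝ) * G := by
    intro k
    rw [hG, ← integral_const_mul]
    apply integral_mono_of_nonneg
    · exact Eventually.of_forall fun _ => norm_nonneg _
    · exact hGint.const_mul _
    · filter_upwards [ae_restrict_mem measurableSet_Ioi] with ρ hρ
      rw [hT]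
      simp only
      rw [norm_mul, norm_div, norm_pow, Complex.norm_natCast]
      have h1 : (w * (ρ:ℂ)).re ≤ 0 := by
        rw [Complex.re_mul_ofReal]
        exact mul_nonpos_of_nonpos_of_nonneg hre (le_of_lt hρ)
      have h2 := norm_GE_shift_le (s := s) k h1
      gcongr
  have hsum : Summable (fun k => ∫ ρ in Ioi (0:ℝ), ‖T k ρ‖) := by
    refine Summable.of_nonneg_of_le (fun k => ?_) hbound ((Real.summable_pow_div_factorial ‖Z‖).mul_right G)
    exact integral_nonneg fun _ => norm_nonneg _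
  have h1 := hasSum_integral_of_summable_integral_norm hTint hsum
  have h2 : ∀ k, (∫ ρ in Ioi (0:ℝ), T k ρ) = Z ^ k / (k.factorial : ℂ) *
      ∫ ρ in Ioi (0:ℝ), GE s (k + 1 / s) (w * ρ) := by
    intro k
    rw [hT, ← integral_const_mul]
  have h3 : ∀ ρ : ℝ, (∑' k, T k ρ) = exp (Z * exp (w * ρ)) * GE s (1 / s) (w * ρ) := by
    intro ρ
    have h4 : HasSum (fun k : ℕ => (Z * exp (w * ρ)) ^ k / (k.factorial : ℂ)) (exp (Z * exp (w * ρ))) := by
      rw [Complex.exp_eq_exp_ℂ]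
      exact NormedSpace.expSeries_div_hasSum_exp (𝔸 := ℂ) (Z * _)
    have h5 := h4.mul_right (GE s (1 / s) (w * ρ))
    rw [← h5.tsum_eq]
    congr 1
    funext k
    rw [hT]
    simp only
    rw [GE_shift, mul_pow, ← Complex.exp_nat_mul]
    ring
  simp_rw [h2, h3] at h1
  exact h1

/-- the coefficient identity -/
theorem tm_id {s : ℂ} (hs : s ≠ 0) (η : ℂ) (k : ℕ) :
    (-(1 / s) * exp η) ^ k / (k.factorial : ℂ) * exp (-s * (k + 1 / s) ^ 2 / 2) =
      exp (-(1 / (2 * s))) * tm (exp (-s)) (zc s η) k := by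
  unfold tm zc
  have h1 : exp (-s) ^ (k * (k - 1) / 2) = exp (-s * ((k:ℂ) * ((k:ℂ) - 1) / 2)) := by
    rw [← Complex.exp_nat_mul]
    congr 1
    rw [← Nat.choose_two_right, Nat.cast_choose_two ℂ k]
    ring
  have h2 : (-(1 / s) * exp (η - 1 - s / 2)) ^ k = (-(1 / s) * exp η) ^ k * exp (k * (-1 - s / 2)) := by
    have : exp (η - 1 - s / 2) = exp η * exp (-1 - s / 2) := by rw [← Complex.exp_add]; congr 1; ring
    rw [this, ← mul_assoc, mul_pow _ (exp (-1 - s / 2)), ← Complex.exp_nat_mul]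
  rw [h1, h2]
  have h3 : exp (-s * (k + 1 / s) ^ 2 / 2) = exp (-(1 / (2 * s))) * exp (-s * ((k:ℂ) * ((k:ℂ) - 1) / 2)) * exp (k * (-1 - s / 2)) := by
    rw [← Complex.exp_add, ← Complex.exp_add]
    congr 1
    field_simp
    ring
  rw [h3]
  ring

/-- V2 for Re s > 0 -/
theorem V2_pos {s : ℂ} (hs : 0 < s.re) (η : ℂ) :
    Ks s * exp ((exp η - 1) / s) * fS s η = PhiI s (exp η - 1) := by
  have hs0 : s ≠ 0 := by rintro rfl; simp at hs
  have hc0 := cs_ne s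
  obtain ⟨u1, -⟩ := sgn_up hs
  obtain ⟨d1, -⟩ := sgn_dn hs
  obtain ⟨ru, rd⟩ := re_ray hs.le
  have h1 := (ray_sum hs0 u1 ru η).mul_left (cs s * om)
  have h2 := (ray_sum hs0 d1 rd η).mul_left (cs s * starRingEnd ℂ om)
  have h3 := h1.sub h2
  have h4 : ∀ k : ℕ, cs s * om * ((-(1 / s) * exp η) ^ k / (k.factorial : ℂ) *
      ∫ ρ in Ioi (0:ℝ), GE s (k + 1 / s) (cs s * om * ρ)) - cs s * starRingEnd ℂ om *
      ((-(1 / s) * exp η) ^ k / (k.factorial : ℂ) *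
      ∫ ρ in Ioi (0:ℝ), GE s (k + 1 / s) (cs s * starRingEnd ℂ om * ρ)) =
      (I * exp (log (2 * Real.pi * s) / 2) * exp (-(1 / (2 * s)))) * tm (exp (-s)) (zc s η) k := by
    intro k
    have h5 := GE_bracket (l := (k:ℂ) + 1 / s) hs
    have h6 := tm_id hs0 η k
    calc _ = (-(1 / s) * exp η) ^ k / (k.factorial : ℂ) * ((cs s * om * ∫ ρ in Ioi (0:ℝ), GE s (k + 1 / s) (cs s * om * ρ)) -
      cs s * starRingEnd ℂ om * ∫ ρ in Ioi (0:ℝ), GE s (k + 1 / s) (cs s * starRingEnd ℂ om * ρ)) := by ring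
      _ = (I * exp (log (2 * Real.pi * s) / 2)) * ((-(1 / s) * exp η) ^ k / (k.factorial : ℂ) * exp (-s * (k + 1 / s) ^ 2 / 2)) := by
          rw [h5]; ring
      _ = _ := by rw [h6]; ring
  simp_rw [h4] at h3
  have h5 : HasSum (fun k => (I * exp (log (2 * Real.pi * s) / 2) * exp (-(1 / (2 * s)))) * tm (exp (-s)) (zc s η) k)
      ((I * exp (log (2 * Real.pi * s) / 2) * exp (-(1 / (2 * s)))) * fS s η) :=
    (summable_tm (norm_exp_neg_le hs.le) _).hasSum.mul_left _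
  have h6 := h3.unique h5
  -- PhiI
  have h7 : PhiI s (exp η - 1) = (1 / I) * (1 / cs s) * exp (exp η / s) *
      (cs s * om * (∫ ρ in Ioi (0:ℝ), exp (-(1 / s) * exp η * exp (cs s * om * ρ)) * GE s (1 / s) (cs s * om * ρ))
      - cs s * starRingEnd ℂ om * (∫ ρ in Ioi (0:ℝ), exp (-(1 / s) * exp η * exp (cs s * starRingEnd ℂ om * ρ)) *
        GE s (1 / s) (cs s * starRingEnd ℂ om * ρ))) := by
    unfold PhiI
    simp_rw [integrand_eq hs0 η]
    rw [integral_const_mul, integral_const_mul]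
    have hI : (I:ℂ) ≠ 0 := I_ne_zero
    field_simp
  rw [h7, h6]
  unfold Ks
  have e1 : exp ((exp η - 1) / s) = exp (exp η / s) * exp (-(1 / s)) := by
    rw [← Complex.exp_add]; congr 1; ring
  have e2 : exp (1 / (2 * s)) * exp (-(1 / s)) = exp (-(1 / (2 * s))) := by
    rw [← Complex.exp_add]; congr 1; field_simp; ring
  rw [e1]
  have hI : (I:ℂ) ≠ 0 := I_ne_zero
  calc _ = exp (log (2 * Real.pi * s) / 2) / cs s * exp (exp η / s) * fS s η * (exp (1 / (2 * s)) * exp (-(1 / s))) := by ring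
    _ = _ := by
      rw [e2]
      field_simp

end Sok.CV
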