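import Pool.Agent.Lib.MP_816dec_an.CV3

/-!
MP_816dec_an, part C, row V3: domination of the V contour integrand and the limit s -> 0.
-/

open Complex Set Filter Topology MeasureTheory

namespace Sok.CV

theorem cv_half_convex (r : ℝ) : Convex ℝ {z : ℂ | z.re ≤ 0 ∧ ‖z‖ ≤ r} := by
  have h1 : Convex ℝ {z : ℂ | z.re ≤ 0} := convex_halfSpace_re_le 0
  have h2 : Convex ℝ (Metric.closedBall (0:ℂ) r) := convex_closedBall _ _
  have h3 : {z : ℂ | z.re ≤ 0 ∧ ‖z‖ ≤ r} = {z : ℂ | z.re ≤ 0} ∩ Metric.closedBall (0:ℂ) r := by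
    ext z
    simp
  rw [h3]
  exact h1.inter h2

/-- mean value step: if f(0)=0, f' = g, |g(x)| ≤ |x|^n on the half plane then |f(z)| ≤ |z|^(n+1) -/
theorem cv_step {f g : ℂ → ℂ} {n : ℕ} (hf : ∀ x, HasDerivAt f (g x) x) (h0 : f 0 = 0)
    (hg : ∀ x : ℂ, x.re ≤ 0 → ‖g x‖ ≤ ‖x‖ ^ n) {z : ℂ} (hz : z.re ≤ 0) : ‖f z‖ ≤ ‖z‖ ^ (n + 1) := by
  have h := Convex.norm_image_sub_le_of_norm_hasDerivWithin_le (𝕜 := ℂ) (f := f) (f' := g)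
    (C := ‖z‖ ^ n) (s := {x : ℂ | x.re ≤ 0 ∧ ‖x‖ ≤ ‖z‖}) (x := 0) (y := z)
    (fun x _ => (hf x).hasDerivWithinAt) ?_ (cv_half_convex _) ⟨by simp, by simp⟩ ⟨hz, le_refl _⟩
  · rw [h0, sub_zero, sub_zero] at h
    rw [pow_succ]
    exact h
  · rintro x ⟨hx1, hx2⟩
    exact (hg x hx1).trans (pow_le_pow_left₀ (norm_nonneg _) hx2 n)

theorem cv_exp1 {z : ℂ} (hz : z.re ≤ 0) : ‖exp z - 1‖ ≤ ‖z‖ := by
  have := cv_step (f := fun z => exp z - 1) (g := exp) (n := 0)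
    (fun x => (Complex.hasDerivAt_exp x).sub_const 1) (by simp)
    (fun x hx => by rw [Complex.norm_exp, pow_zero]; exact Real.exp_le_one_iff.2 hx) hz
  simpa using this

theorem cv_exp2 {z : ℂ} (hz : z.re ≤ 0) : ‖exp z - 1 - z‖ ≤ ‖z‖ ^ 2 := by
  exact cv_step (f := fun z => exp z - 1 - z) (g := fun z => exp z - 1) (n := 1)
    (fun x => ((Complex.hasDerivAt_exp x).sub_const 1).sub (hasDerivAt_id x)) (by simp)
    (fun x hx => by rw [pow_one]; exact cv_exp1 hx) hz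

theorem cv_exp3 {z : ℂ} (hz : z.re ≤ 0) : ‖exp z - 1 - z - z ^ 2 / 2‖ ≤ ‖z‖ ^ 3 := by
  refine cv_step (f := fun z => exp z - 1 - z - z ^ 2 / 2) (g := fun z => exp z - 1 - z) (n := 2)
    (fun x => ?_) (by simp) (fun x hx => cv_exp2 hx) hz
  have h1 := (((Complex.hasDerivAt_exp x).sub_const 1).sub (hasDerivAt_id x)).sub
    ((hasDerivAt_pow 2 x).div_const 2)
  refine h1.congr_deriv ?_
  simp

theorem cv_exp4 {z : ℂ} (hz : z.re ≤ 0) : ‖hD z - z ^ 3 / 6‖ ≤ ‖z‖ ^ 4 := by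
  refine cv_step (f := fun z => hD z - z ^ 3 / 6) (g := fun z => exp z - 1 - z - z ^ 2 / 2) (n := 3)
    (fun x => ?_) (by simp [hD]) (fun x hx => cv_exp3 hx) hz
  unfold hD
  have h1 := ((((Complex.hasDerivAt_exp x).sub_const 1).sub (hasDerivAt_id x)).sub
    ((hasDerivAt_pow 2 x).div_const 2)).sub ((hasDerivAt_pow 3 x).div_const 6)
  refine h1.congr_deriv ?_
  simp
  ring

/-- |e^A - e^B| ≤ |A - B| G if both exponentials are bounded by G -/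
theorem cv_exp_sub {A B : ℂ} {G : ℝ} (hA : Real.exp A.re ≤ G) (hB : Real.exp B.re ≤ G) :
    ‖exp A - exp B‖ ≤ ‖A - B‖ * G := by
  rcases le_total A.re B.re with h | h
  · have h1 : ‖exp (A - B) - 1‖ ≤ ‖A - B‖ := cv_exp1 (by simp; exact h)
    have e1 : exp A - exp B = exp B * (exp (A - B) - 1) := by
      rw [mul_sub, ← Complex.exp_add]; ring_nf
    rw [e1, norm_mul, Complex.norm_exp]
    calc Real.exp B.re * ‖exp (A - B) - 1‖ ≤ G * ‖A - B‖ :=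
          mul_le_mul hB h1 (norm_nonneg _) ((Real.exp_pos _).le.trans hB)
      _ = _ := by ring
  · have h1 : ‖exp (B - A) - 1‖ ≤ ‖B - A‖ := cv_exp1 (by simp; exact h)
    have e1 : exp A - exp B = -(exp A * (exp (B - A) - 1)) := by
      rw [mul_sub, ← Complex.exp_add]; ring_nf
    rw [e1, norm_neg, norm_mul, Complex.norm_exp, norm_sub_rev A B]
    calc Real.exp A.re * ‖exp (B - A) - 1‖ ≤ G * ‖B - A‖ :=
          mul_le_mul hA h1 (norm_nonneg _) ((Real.exp_pos _).le.trans hA)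
      _ = _ := by ring

/-- decay of the main part -/
theorem cv_dom {s w : ℂ} (hw3 : w ^ 3 = 2 * s) (hs : s ≠ 0) (hre : w.re ≤ 0) (him : w.im ≠ 0)
    {ρ : ℝ} (hρ : 0 < ρ) :
    1 / 2000 * min (ρ ^ 3) (ρ / ‖w‖ ^ 2) ≤ ((1 / s) * hD (w * ρ)).re := by
  have hw0 : w ≠ 0 := by rintro rfl; simp at him
  have hn : 0 < ‖w‖ := norm_pos_iff.2 hw0
  have h1 : (w * (ρ:ℂ)).re ≤ 0 := by
    rw [Complex.re_mul_ofReal]; exact mul_nonpos_of_nonpos_of_nonneg hre hρ.le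
  have h2 : (w * (ρ:ℂ)).im ≠ 0 := by
    rw [Complex.im_mul_ofReal]; exact mul_ne_zero him hρ.ne'
  have hkey := key_ineq h1 h2
  have hρc : (ρ:ℂ) ≠ 0 := by exact_mod_cast hρ.ne'
  have e1 : (1 / s) * hD (w * ρ) = ((2 * ρ ^ 3 : ℝ) : ℂ) *
      ((exp (w * ρ) - 1 - w * ρ - (w * ρ) ^ 2 / 2) / (w * ρ) ^ 3) := by
    unfold hD
    push_cast
    rw [mul_pow w (ρ:ℂ) 3, hw3]
    field_simp
  rw [e1, Complex.re_ofReal_mul]
  have hnorm : ‖w * (ρ:ℂ)‖ = ‖w‖ * ρ := by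
    rw [norm_mul, Complex.norm_real, Real.norm_of_nonneg hρ.le]
  rw [hnorm] at hkey
  have e2 : 1 / 2000 * min (ρ ^ 3) (ρ / ‖w‖ ^ 2) = 2 * ρ ^ 3 * (1 / 4000 * min 1 (1 / (‖w‖ * ρ) ^ 2)) := by
    have e3 : min (ρ ^ 3) (ρ / ‖w‖ ^ 2) = ρ ^ 3 * min 1 (1 / (‖w‖ * ρ) ^ 2) := by
      rw [mul_min_of_nonneg _ _ (by positivity)]
      congr 1
      · ring
      · field_simp
    rw [e3]; ring
  rw [e2]
  exact mul_le_mul_of_nonneg_left hkey (by positivity)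

/-- norm of the V contour integrand -/
theorem cv_norm {s w : ℂ} (hw3 : w ^ 3 = 2 * s) (hs : s ≠ 0) (hre : w.re ≤ 0) (him : w.im ≠ 0)
    {ρ : ℝ} (hρ : 0 < ρ) (b : ℂ) :
    (-(1 / s) * (hD (w * ρ) + b * (exp (w * ρ) - 1))).re ≤
      -(1 / 2000 * min (ρ ^ 3) (ρ / ‖w‖ ^ 2)) + ‖b‖ * ‖exp (w * ρ) - 1‖ / ‖s‖ := by
  have h1 := cv_dom hw3 hs hre him hρ
  have e1 : -(1 / s) * (hD (w * ρ) + b * (exp (w * ρ) - 1)) =
      -((1 / s) * hD (w * ρ)) + -(b * (exp (w * ρ) - 1) / s) := by ring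
  rw [e1, Complex.add_re, Complex.neg_re]
  have h2 : (-(b * (exp (w * ρ) - 1) / s)).re ≤ ‖b‖ * ‖exp (w * ρ) - 1‖ / ‖s‖ := by
    refine (Complex.re_le_norm _).trans ?_
    rw [norm_neg, norm_div, norm_mul]
  linarith

/-- exp(-ρ³/2000 + Aρ) ≤ C e^(-ρ) -/
theorem cv_cubic (A : ℝ) : ∃ C : ℝ, 1 ≤ C ∧ ∀ ρ : ℝ, 0 ≤ ρ →
    Real.exp (-ρ ^ 3 / 2000 + A * ρ) ≤ C * Real.exp (-ρ) := by
  obtain ⟨B, hB⟩ : ∃ B : ℝ, B = |A| + 1 := ⟨_, rfl⟩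
  have hB1 : 1 ≤ B := by rw [hB]; have := abs_nonneg A; linarith
  refine ⟨Real.exp (B * (2000 * B)), ?_, ?_⟩
  · apply Real.one_le_exp; positivity
  · intro ρ hρ
    rw [← Real.exp_add]
    apply Real.exp_le_exp.2
    have hA : A ≤ |A| := le_abs_self A
    have h1 : A * ρ ≤ (B - 1) * ρ := by
      apply mul_le_mul_of_nonneg_right _ hρ
      rw [hB]; linarith
    have h2 : -ρ ^ 3 / 2000 + B * ρ ≤ B * (2000 * B) := by
      rcases le_total ρ (2000 * B) with h | h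
      · have h3 : 0 ≤ ρ ^ 3 := by positivity
        nlinarith
      · have h3 : 2000 * B * ρ ≤ ρ ^ 3 := by
          have h4 : 1 ≤ ρ := by nlinarith
          have h5 : 2000 * B * ρ ≤ ρ * ρ := by nlinarith
          have h6 : ρ * ρ ≤ ρ ^ 3 := by nlinarith [mul_nonneg hρ hρ]
          linarith
        nlinarith [mul_nonneg (by linarith : (0:ℝ) ≤ B) (by linarith : (0:ℝ) ≤ B)]
    linarith

/-- the limit s -> 0 along one ray, quantitative -/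
theorem cv_ray_limit (Z : ℝ) (hZ : 0 ≤ Z) : ∃ K : ℝ, 0 ≤ K ∧ ∀ s c o ζ : ℂ, s ≠ 0 → c ^ 3 = 2 * s →
    o ^ 3 = 1 → ‖o‖ = 1 → (c * o).re ≤ 0 → (c * o).im ≠ 0 → ‖c‖ ^ 2 * (2000 * (2 * Z + 1)) ≤ 1 → ‖ζ‖ ≤ Z →
    ‖(∫ ρ in Ioi (0:ℝ), exp (-(1 / s) * (hD (c * o * ρ) + (exp (c ^ 2 / 2 * ζ) - 1) * (exp (c * o * ρ) - 1))))
      - ∫ ρ in Ioi (0:ℝ), exp (-((ρ:ℂ) ^ 3 / 3) - o * ρ * ζ)‖ ≤ K * ‖c‖ := by
  obtain ⟨C, hC1, hC⟩ := cv_cubic (2 * Z)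
  obtain ⟨D, hD0⟩ : ∃ D : ℝ, D = (C + 1) * (768 + 2 * Z ^ 2 + 8 * Z) := ⟨_, rfl⟩
  have hDnn : 0 ≤ D := by rw [hD0]; positivity
  refine ⟨D * 2, by positivity, ?_⟩
  intro s c o ζ hs hc3 ho3 ho hre him hsmall hζ
  have hc0 : c ≠ 0 := by
    rintro rfl; simp at him
  have hcn : 0 < ‖c‖ := norm_pos_iff.2 hc0
  have hw3 : (c * o) ^ 3 = 2 * s := by rw [mul_pow, ho3, mul_one, hc3]
  have hsn : ‖c‖ ^ 3 = 2 * ‖s‖ := by rw [← norm_pow, hc3, norm_mul]; simp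
  have hspos : 0 < ‖s‖ := norm_pos_iff.2 hs
  have hwn : ‖c * o‖ = ‖c‖ := by rw [norm_mul, ho, mul_one]
  have hc2 : ‖c‖ ^ 2 ≤ 1 / 2000 := by nlinarith [sq_nonneg ‖c‖]
  have hc1 : ‖c‖ ≤ 1 := by nlinarith
  have hcZ : ‖c‖ ^ 2 * Z ≤ 1 / 4000 := by nlinarith [sq_nonneg ‖c‖]
  obtain ⟨η, hη⟩ : ∃ η : ℂ, η = c ^ 2 / 2 * ζ := ⟨_, rfl⟩
  have hηn : ‖η‖ ≤ ‖c‖ ^ 2 * Z / 2 := by
    rw [hη, norm_mul, norm_div, norm_pow]
    simp only [Complex.norm_ofNat]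
    have := mul_le_mul_of_nonneg_left hζ (by positivity : 0 ≤ ‖c‖ ^ 2 / 2)
    linarith
  have hη1 : ‖η‖ ≤ 1 := by linarith
  obtain ⟨b, hb⟩ : ∃ b : ℂ, b = exp η - 1 := ⟨_, rfl⟩
  have hbη : ‖b - η‖ ≤ ‖η‖ ^ 2 := by
    rw [hb]
    exact Complex.norm_exp_sub_one_sub_id_le hη1
  have hbn : ‖b‖ ≤ 2 * ‖η‖ := by
    rw [hb]
    exact Complex.norm_exp_sub_one_le hη1
  rw [← hη, ← hb]
  -- pointwise facts
  have hpt : ∀ ρ : ℝ, 0 < ρ →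
      Real.exp ((-(1 / s) * (hD (c * o * ρ) + b * (exp (c * o * ρ) - 1))).re) ≤ (C + 1) * Real.exp (-ρ) ∧
      Real.exp ((-((ρ:ℂ) ^ 3 / 3) - o * ρ * ζ).re) ≤ (C + 1) * Real.exp (-ρ) ∧
      ‖(-(1 / s) * (hD (c * o * ρ) + b * (exp (c * o * ρ) - 1))) - (-((ρ:ℂ) ^ 3 / 3) - o * ρ * ζ)‖ ≤
        ‖c‖ * (2 * ρ ^ 4 + Z ^ 2 * ρ + Z * ρ ^ 2) := by
    intro ρ hρ
    obtain ⟨δ, hδ⟩ : ∃ δ : ℂ, δ = c * o * ρ := ⟨_, rfl⟩
    have hδre : δ.re ≤ 0 := by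
      rw [hδ, Complex.re_mul_ofReal]; exact mul_nonpos_of_nonpos_of_nonneg hre hρ.le
    have hδn : ‖δ‖ = ‖c‖ * ρ := by
      rw [hδ, norm_mul, hwn, Complex.norm_real, Real.norm_of_nonneg hρ.le]
    have hexp1 : ‖exp δ - 1‖ ≤ ‖c‖ * ρ := by rw [← hδn]; exact cv_exp1 hδre
    have hE0 : 0 < Real.exp (-ρ) := Real.exp_pos _
    refine ⟨?_, ?_, ?_⟩
    · have h1 := cv_norm hw3 hs hre him hρ b
      rw [← hδ] at h1 ⊢
      rw [hwn] at h1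
      have h2 : ‖b‖ * ‖exp δ - 1‖ / ‖s‖ ≤ 2 * Z * ρ := by
        rw [div_le_iff₀ hspos]
        calc ‖b‖ * ‖exp δ - 1‖ ≤ (2 * (‖c‖ ^ 2 * Z / 2)) * (‖c‖ * ρ) := by
              apply mul_le_mul _ hexp1 (norm_nonneg _) (by positivity)
              linarith
          _ = Z * ρ * ‖c‖ ^ 3 := by ring
          _ = 2 * Z * ρ * ‖s‖ := by rw [hsn]; ring
      rcases le_total (ρ ^ 3) (ρ / ‖c‖ ^ 2) with h | h
      · rw [min_eq_left h] at h1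
        calc Real.exp _ ≤ Real.exp (-ρ ^ 3 / 2000 + 2 * Z * ρ) := by
              apply Real.exp_le_exp.2; linarith
          _ ≤ C * Real.exp (-ρ) := hC ρ hρ.le
          _ ≤ _ := by nlinarith
      · rw [min_eq_right h] at h1
        have h3 : (2 * Z + 1) * ρ ≤ 1 / 2000 * (ρ / ‖c‖ ^ 2) := by
          have h4 : 1 / 2000 * (ρ / ‖c‖ ^ 2) = ρ / (2000 * ‖c‖ ^ 2) := by field_simp
          rw [h4, le_div_iff₀ (by positivity)]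
          nlinarith
        calc Real.exp _ ≤ Real.exp (-ρ) := by
              apply Real.exp_le_exp.2; linarith
          _ ≤ _ := by nlinarith
    · have h1 : (-((ρ:ℂ) ^ 3 / 3) - o * ρ * ζ).re ≤ -ρ ^ 3 / 2000 + 2 * Z * ρ := by
        have h2 : (-(o * ρ * ζ)).re ≤ ρ * Z := by
          refine (Complex.re_le_norm _).trans ?_
          rw [norm_neg, norm_mul, norm_mul, ho, Complex.norm_real, Real.norm_of_nonneg hρ.le, one_mul]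
          gcongr
        have h3 : (-((ρ:ℂ) ^ 3 / 3)).re = -(ρ ^ 3 / 3) := by
          have : (-((ρ:ℂ) ^ 3 / 3)) = ((-(ρ ^ 3 / 3) : ℝ) : ℂ) := by push_cast; ring
          rw [this, Complex.ofReal_re]
        have h4 : (-((ρ:ℂ) ^ 3 / 3) - o * ρ * ζ).re = (-((ρ:ℂ) ^ 3 / 3)).re + (-(o * ρ * ζ)).re := by
          rw [← Complex.add_re]; congr 1
        rw [h4, h3]
        have h5 : 0 < ρ ^ 3 := by positivity
        have h6 : 0 ≤ Z * ρ := by positivity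
        linarith
      calc Real.exp _ ≤ Real.exp (-ρ ^ 3 / 2000 + 2 * Z * ρ) := Real.exp_le_exp.2 h1
        _ ≤ C * Real.exp (-ρ) := hC ρ hρ.le
        _ ≤ _ := by nlinarith
    · rw [← hδ]
      have e1 : (1 / s) * (δ ^ 3 / 6) = (ρ:ℂ) ^ 3 / 3 := by
        have : δ ^ 3 = 2 * s * (ρ:ℂ) ^ 3 := by rw [hδ, mul_pow, hw3]
        rw [this]; field_simp; ring
      have e2 : (1 / s) * (η * δ) = o * ρ * ζ := by
        rw [hη, hδ]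
        have h5 : c ^ 2 / 2 * ζ * (c * o * ρ) = (c ^ 3) * (o * ρ * ζ) / 2 := by ring
        rw [h5, hc3]; field_simp
      have e3 : (-(1 / s) * (hD δ + b * (exp δ - 1))) - (-((ρ:ℂ) ^ 3 / 3) - o * ρ * ζ) =
          -((1 / s) * ((hD δ - δ ^ 3 / 6) + ((b - η) * (exp δ - 1) + η * (exp δ - 1 - δ)))) := by
        rw [← e1, ← e2]; ring
      rw [e3, norm_neg, norm_mul, norm_div, norm_one]
      have h1 : ‖hD δ - δ ^ 3 / 6‖ ≤ (‖c‖ * ρ) ^ 4 := by rw [← hδn]; exact cv_exp4 hδre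
      have h2 : ‖exp δ - 1 - δ‖ ≤ (‖c‖ * ρ) ^ 2 := by rw [← hδn]; exact cv_exp2 hδre
      have h3 : ‖(b - η) * (exp δ - 1) + η * (exp δ - 1 - δ)‖ ≤
          (‖c‖ ^ 2 * Z / 2) ^ 2 * (‖c‖ * ρ) + (‖c‖ ^ 2 * Z / 2) * (‖c‖ * ρ) ^ 2 := by
        calc _ ≤ ‖(b - η) * (exp δ - 1)‖ + ‖η * (exp δ - 1 - δ)‖ := norm_add_le _ _
          _ = ‖b - η‖ * ‖exp δ - 1‖ + ‖η‖ * ‖exp δ - 1 - δ‖ := by rw [norm_mul, norm_mul]
          _ ≤ _ := by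
            have h4 : ‖b - η‖ ≤ (‖c‖ ^ 2 * Z / 2) ^ 2 :=
              hbη.trans (pow_le_pow_left₀ (norm_nonneg _) hηn 2)
            gcongr
      have h5 : ‖(hD δ - δ ^ 3 / 6) + ((b - η) * (exp δ - 1) + η * (exp δ - 1 - δ))‖ ≤
          (‖c‖ * ρ) ^ 4 + ((‖c‖ ^ 2 * Z / 2) ^ 2 * (‖c‖ * ρ) + (‖c‖ ^ 2 * Z / 2) * (‖c‖ * ρ) ^ 2) := by
        refine (norm_add_le _ _).trans ?_
        gcongr
      have h6 : 1 / ‖s‖ = 2 / ‖c‖ ^ 3 := by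
        rw [hsn]; field_simp
      rw [h6, div_mul_eq_mul_div, div_le_iff₀ (by positivity)]
      have h7 : 2 * ((‖c‖ * ρ) ^ 4 + ((‖c‖ ^ 2 * Z / 2) ^ 2 * (‖c‖ * ρ) + (‖c‖ ^ 2 * Z / 2) * (‖c‖ * ρ) ^ 2)) =
          (‖c‖ * (2 * ρ ^ 4 + ‖c‖ * Z ^ 2 * ρ / 2 + Z * ρ ^ 2)) * ‖c‖ ^ 3 := by ring
      have h8 : ‖c‖ * Z ^ 2 * ρ / 2 ≤ Z ^ 2 * ρ := by
        have : ‖c‖ * (Z ^ 2 * ρ) ≤ 1 * (Z ^ 2 * ρ) := by gcongr
        have h9 : 0 ≤ Z ^ 2 * ρ := by positivity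
        linarith
      calc 2 * _ ≤ 2 * ((‖c‖ * ρ) ^ 4 + ((‖c‖ ^ 2 * Z / 2) ^ 2 * (‖c‖ * ρ) + (‖c‖ ^ 2 * Z / 2) * (‖c‖ * ρ) ^ 2)) := by
            gcongr
        _ = _ := h7
        _ ≤ _ := by gcongr
  -- integrability
  have hI0 : IntegrableOn (fun ρ : ℝ => (C + 1) * Real.exp (-ρ)) (Ioi 0) :=
    (integrableOn_exp_neg_Ioi 0).const_mul _
  have hAc : Continuous (fun ρ : ℝ => exp (-(1 / s) * (hD (c * o * ρ) + b * (exp (c * o * ρ) - 1)))) := by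
    unfold hD
    fun_prop
  have hBc : Continuous (fun ρ : ℝ => exp (-((ρ:ℂ) ^ 3 / 3) - o * ρ * ζ)) := by fun_prop
  have hAi : IntegrableOn (fun ρ : ℝ => exp (-(1 / s) * (hD (c * o * ρ) + b * (exp (c * o * ρ) - 1)))) (Ioi 0) := by
    refine Integrable.mono' hI0 hAc.aestronglyMeasurable ?_
    filter_upwards [ae_restrict_mem measurableSet_Ioi] with ρ hρ
    rw [Complex.norm_exp]
    exact (hpt ρ hρ).1
  have hBi : IntegrableOn (fun ρ : ℝ => exp (-((ρ:ℂ) ^ 3 / 3) - o * ρ * ζ)) (Ioi 0) := by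
    refine Integrable.mono' hI0 hBc.aestronglyMeasurable ?_
    filter_upwards [ae_restrict_mem measurableSet_Ioi] with ρ hρ
    rw [Complex.norm_exp]
    exact (hpt ρ hρ).2.1
  rw [← integral_sub hAi hBi]
  have hfin : IntegrableOn (fun ρ : ℝ => ‖c‖ * D * Real.exp (-(1 / 2) * ρ)) (Ioi 0) :=
    (exp_neg_integrableOn_Ioi 0 (by norm_num : (0:ℝ) < 1 / 2)).const_mul _
  have hle := norm_integral_le_of_norm_le hfin (f := fun ρ : ℝ =>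
    exp (-(1 / s) * (hD (c * o * ρ) + b * (exp (c * o * ρ) - 1))) - exp (-((ρ:ℂ) ^ 3 / 3) - o * ρ * ζ)) ?_
  · refine hle.trans ?_
    rw [integral_const_mul]
    have h1 : ∫ ρ in Ioi (0:ℝ), Real.exp (-(1 / 2) * ρ) = 2 := by
      have := integral_exp_mul_Ioi (a := -(1 / 2)) (by norm_num) 0
      rw [this]; simp
    rw [h1]
    linarith
  · filter_upwards [ae_restrict_mem measurableSet_Ioi] with ρ hρ
    have hρ' : 0 < ρ := hρ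
    obtain ⟨p1, p2, p3⟩ := hpt ρ hρ'
    have h1 := cv_exp_sub p1 p2
    refine h1.trans ?_
    have hE : Real.exp (-ρ) = Real.exp (-(1 / 2) * ρ) * Real.exp (-(ρ / 2)) := by
      rw [← Real.exp_add]; congr 1; ring
    have hpoly : (2 * ρ ^ 4 + Z ^ 2 * ρ + Z * ρ ^ 2) * Real.exp (-(ρ / 2)) ≤ 768 + 2 * Z ^ 2 + 8 * Z := by
      have hx : 0 ≤ ρ / 2 := by positivity
      have g4 := Real.pow_div_factorial_le_exp (ρ / 2) hx 4
      have g2 := Real.pow_div_factorial_le_exp (ρ / 2) hx 2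
      have g1 := Real.pow_div_factorial_le_exp (ρ / 2) hx 1
      norm_num [Nat.factorial] at g4 g2 g1
      have hEpos : 0 < Real.exp (ρ / 2) := Real.exp_pos _
      rw [Real.exp_neg, ← div_eq_mul_inv, div_le_iff₀ hEpos]
      have k4 : 2 * ρ ^ 4 ≤ 768 * Real.exp (ρ / 2) := by nlinarith
      have k2 : Z * ρ ^ 2 ≤ 8 * Z * Real.exp (ρ / 2) := by
        have : ρ ^ 2 ≤ 8 * Real.exp (ρ / 2) := by nlinarith
        have := mul_le_mul_of_nonneg_left this hZ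
        linarith
      have k1 : Z ^ 2 * ρ ≤ 2 * Z ^ 2 * Real.exp (ρ / 2) := by
        have : ρ ≤ 2 * Real.exp (ρ / 2) := by linarith
        have := mul_le_mul_of_nonneg_left this (sq_nonneg Z)
        linarith
      linarith
    calc _ ≤ (‖c‖ * (2 * ρ ^ 4 + Z ^ 2 * ρ + Z * ρ ^ 2)) * ((C + 1) * Real.exp (-ρ)) := by gcongr
      _ = ‖c‖ * ((C + 1) * ((2 * ρ ^ 4 + Z ^ 2 * ρ + Z * ρ ^ 2) * Real.exp (-(ρ / 2)))) * Real.exp (-(1 / 2) * ρ) := by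
          rw [hE]; ring
      _ ≤ ‖c‖ * ((C + 1) * (768 + 2 * Z ^ 2 + 8 * Z)) * Real.exp (-(1 / 2) * ρ) := by gcongr
      _ = _ := by rw [hD0]

end Sok.CV
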