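import Pool.Agent.Lib.MP_816dec_an.Ray

/-!
MP_816dec_an: zero-free arcs by positivity of `|F|² = Σ (2r cos(θ + (n-1)β/2))^n / n!`.
-/

set_option autoImplicit false

open Complex Set Filter Topology

namespace Sok

/-- terms of `|F|²` -/
noncomputable def tC (r β θ : ℝ) (n : ℕ) : ℝ :=
  (2 * r * Real.cos (θ + ((n:ℝ) - 1) * (β / 2))) ^ n / (n.factorial : ℝ)

/-- negative terms sit far out and are small -/
theorem tC_neg {r β θ s c ρ : ℝ} {n₀ : ℕ} (hr : 0 < r) (hβ : 0 < β)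
    (hθ1 : -(Real.pi / 2) ≤ θ) (hθ2 : θ ≤ Real.pi / 2 - c) (hs0 : 0 ≤ s)
    (hs : ∀ u : ℝ, 0 ≤ u → |Real.sin u| ≤ s * (c + u))
    (hρ : Real.exp 1 * s * (β * r) ≤ ρ) (hn₀ : β * ((n₀:ℝ) - 1) ≤ 2 * c) (n : ℕ) (hneg : tC r β θ n < 0) :
    n₀ + 1 ≤ n ∧ -(ρ ^ n) ≤ tC r β θ n := by
  have hρ0 : 0 ≤ ρ := le_trans (by positivity) hρ
  have hfac : (0:ℝ) < (n.factorial : ℝ) := by positivity
  have hn0 : n ≠ 0 := by
    rintro rfl
    unfold tC at hneg
    norm_num at hneg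
  have hn1 : (1:ℝ) ≤ n := by exact_mod_cast Nat.one_le_iff_ne_zero.2 hn0
  obtain ⟨y, hy⟩ : ∃ y, y = ((n:ℝ) - 1) * (β / 2) := ⟨_, rfl⟩
  have hy0 : 0 ≤ y := by rw [hy]; apply mul_nonneg <;> linarith
  have hcs : Real.cos (θ + y) < 0 := by
    by_contra h
    push Not at h
    have : 0 ≤ tC r β θ n := by unfold tC; rw [← hy]; positivity
    linarith
  have hyc : Real.pi / 2 < θ + y := by
    by_contra h
    push Not at h
    have := Real.cos_nonneg_of_neg_pi_div_two_le_of_le (by linarith : -(Real.pi / 2) ≤ θ + y) h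
    linarith
  obtain ⟨u, hu⟩ : ∃ u, u = θ + y - Real.pi / 2 := ⟨_, rfl⟩
  have hu0 : 0 < u := by linarith
  have hcu : c + u ≤ y := by linarith
  have hnn : n₀ + 1 ≤ n := by
    by_contra h
    push Not at h
    have h1 : (n:ℝ) ≤ n₀ := by exact_mod_cast Nat.lt_succ_iff.1 h
    have h2 : β * ((n:ℝ) - 1) ≤ β * ((n₀:ℝ) - 1) := by gcongr
    have h3 : 2 * y = β * ((n:ℝ) - 1) := by rw [hy]; ring
    linarith
  refine ⟨hnn, ?_⟩
  have hcos : |Real.cos (θ + y)| ≤ s * (c + u) := by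
    have e : θ + y = u + Real.pi / 2 := by rw [hu]; ring
    rw [e, Real.cos_add_pi_div_two, abs_neg]
    exact hs u hu0.le
  have hbase : Real.exp 1 * |2 * r * Real.cos (θ + y)| / (n:ℝ) ≤ ρ := by
    rw [div_le_iff₀ (by linarith), abs_mul, abs_of_pos (by positivity : (0:ℝ) < 2 * r)]
    calc Real.exp 1 * (2 * r * |Real.cos (θ + y)|) ≤ Real.exp 1 * (2 * r * (s * y)) := by
          have : s * (c + u) ≤ s * y := by gcongr
          gcongr
          linarith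
      _ = (Real.exp 1 * s * (β * r)) * ((n:ℝ) - 1) := by rw [hy]; ring
      _ ≤ ρ * ((n:ℝ) - 1) := by
          apply mul_le_mul_of_nonneg_right hρ
          linarith
      _ ≤ ρ * n := by gcongr; linarith
  have habs : |tC r β θ n| ≤ ρ ^ n := by
    have e1 : |tC r β θ n| = |2 * r * Real.cos (θ + y)| ^ n / (n.factorial : ℝ) := by
      unfold tC
      rw [abs_div, abs_pow, abs_of_pos hfac, ← hy]
    rw [e1]
    exact (pow_div_factorial_le (abs_nonneg _) hn0).trans (pow_le_pow_left₀ (by positivity) hbase _)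
  have := neg_abs_le (tC r β θ n)
  linarith

/-- General positivity criterion.  `-π/2 ≤ θ ≤ π/2 - c`, `|sin u| ≤ s (c + u)` for `u ≥ 0`,
`e s β r ≤ ρ < 1`, `β (n₀ - 1) ≤ 2 c`: then `|F(re^{iθ})|² ≥ (terms n ≤ n₀) - ρ^(n₀+1)/(1-ρ)`. -/
theorem normSq_ge_sum_sub {r β θ s c ρ : ℝ} {n₀ : ℕ} (hr : 0 < r) (hβ : 0 < β)
    (hθ1 : -(Real.pi / 2) ≤ θ) (hθ2 : θ ≤ Real.pi / 2 - c) (hs0 : 0 ≤ s)
    (hs : ∀ u : ℝ, 0 ≤ u → |Real.sin u| ≤ s * (c + u))
    (hρ : Real.exp 1 * s * (β * r) ≤ ρ) (hρ1 : ρ < 1) (hn₀ : β * ((n₀:ℝ) - 1) ≤ 2 * c) :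
    (∀ j, j < n₀ + 1 → 0 ≤ tC r β θ j) ∧
    (∑ i ∈ Finset.range (n₀ + 1), tC r β θ i) - ρ ^ (n₀ + 1) / (1 - ρ) ≤
      Complex.normSq (F (Complex.exp (β * I)) (r * Complex.exp (θ * I))) := by
  have hρ0 : 0 ≤ ρ := le_trans (by positivity) hρ
  have hlow' := tC_neg hr hβ hθ1 hθ2 hs0 hs hρ hn₀
  have h := normSq_hasSum r β θ
  have e2 : (fun n : ℕ => (2 * r * Real.cos (θ + ((n:ℝ) - 1) * (β / 2))) ^ n / (n.factorial : ℝ)) = tC r β θ := rfl
  rw [e2] at h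
  have hsum := h.summable
  have hnn : ∀ j, j < n₀ + 1 → 0 ≤ tC r β θ j := by
    intro j hj
    by_contra hcc
    push Not at hcc
    have := (hlow' j hcc).1
    omega
  refine ⟨hnn, ?_⟩
  rw [← h.tsum_eq, ← hsum.sum_add_tsum_nat_add (n₀ + 1)]
  have hlow : ∀ j, -(ρ ^ j) ≤ tC r β θ j := by
    intro j
    by_cases hcc : tC r β θ j < 0
    · exact (hlow' j hcc).2
    · push Not at hcc
      refine le_trans ?_ hcc
      rw [neg_nonpos]; positivity
  have e6 : (fun j : ℕ => -(ρ ^ (j + (n₀ + 1)))) = fun j : ℕ => (-(ρ ^ (n₀ + 1))) * ρ ^ j := by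
    funext j; rw [pow_add]; ring
  have hs2 : Summable (fun j : ℕ => -(ρ ^ (j + (n₀ + 1)))) := by
    rw [e6]
    exact (summable_geometric_of_lt_one hρ0 hρ1).mul_left _
  have htail : ∑' j : ℕ, (-(ρ ^ (j + (n₀ + 1)))) ≤ ∑' j : ℕ, tC r β θ (j + (n₀ + 1)) :=
    hs2.tsum_le_tsum (fun j => hlow (j + (n₀ + 1))) ((summable_nat_add_iff (n₀ + 1)).2 hsum)
  have hval : ∑' j : ℕ, (-(ρ ^ (j + (n₀ + 1)))) = -(ρ ^ (n₀ + 1) / (1 - ρ)) := by
    rw [e6, tsum_mul_left, tsum_geometric_of_lt_one hρ0 hρ1]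
    ring
  rw [hval] at htail
  linarith

/-- special case: only the term `n = 0` is used -/
theorem normSq_ge_of_tail {r β θ s c ρ δ : ℝ} {n₀ : ℕ} (hr : 0 < r) (hβ : 0 < β)
    (hθ1 : -(Real.pi / 2) ≤ θ) (hθ2 : θ ≤ Real.pi / 2 - c) (hs0 : 0 ≤ s)
    (hs : ∀ u : ℝ, 0 ≤ u → |Real.sin u| ≤ s * (c + u))
    (hρ : Real.exp 1 * s * (β * r) ≤ ρ) (hρ1 : ρ < 1) (hn₀ : β * ((n₀:ℝ) - 1) ≤ 2 * c)
    (hfin : ρ ^ (n₀ + 1) / (1 - ρ) ≤ 1 - δ) :
    δ ≤ Complex.normSq (F (Complex.exp (β * I)) (r * Complex.exp (θ * I))) := by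
  obtain ⟨hnn, hle⟩ := normSq_ge_sum_sub hr hβ hθ1 hθ2 hs0 hs hρ hρ1 hn₀
  have hfin2 : tC r β θ 0 ≤ ∑ i ∈ Finset.range (n₀ + 1), tC r β θ i :=
    Finset.single_le_sum (f := fun i => tC r β θ i) (fun i hi => hnn i (Finset.mem_range.1 hi))
      (Finset.mem_range.2 (by omega))
  have ht0 : tC r β θ 0 = 1 := by unfold tC; simp
  rw [ht0] at hfin2
  linarith

/-- |sin u| ≤ 0.3384 (π/2 + u) -/
theorem abs_sin_le_lin3 {u : ℝ} (hu : 0 ≤ u) : |Real.sin u| ≤ 0.3384 * (Real.pi / 2 + u) := by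
  have hpi := Real.pi_gt_d4
  have hpi2 := Real.pi_lt_d4
  rcases le_or_gt 1.385 u with h | h
  · refine (Real.abs_sin_le_one u).trans ?_
    linarith
  · have hs : 0 ≤ Real.sin u := Real.sin_nonneg_of_nonneg_of_le_pi hu (by linarith)
    rw [abs_of_nonneg hs]
    have h1 : Real.sin u = Real.cos (Real.pi / 2 - u) := (Real.cos_pi_div_two_sub u).symm
    have h2 := cos_le_quartic (x := Real.pi / 2 - u) (by linarith)
    rw [h1]
    obtain ⟨x, hx⟩ : ∃ x, x = Real.pi / 2 - u := ⟨_, rfl⟩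
    rw [← hx] at h2 ⊢
    have hx1 : x ≤ 1.5708 := by linarith
    have hx0 : 0.18 ≤ x := by linarith
    have hxu : Real.pi / 2 + u = Real.pi - x := by rw [hx]; ring
    rw [hxu]
    rcases le_or_gt x 0.8 with h6 | h6
    · have h7 : x ^ 4 ≤ 0.64 * x ^ 2 := by
        have : x ^ 2 ≤ 0.64 := by nlinarith
        nlinarith [sq_nonneg x]
      nlinarith [sq_nonneg (x - 0.35)]
    · have h3 : x ^ 4 ≤ 2.4675 * x ^ 2 := by
        have : x ^ 2 ≤ 2.4675 := by nlinarith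
        nlinarith [sq_nonneg x]
      nlinarith [sq_nonneg (x - 0.8)]

/-- `r ≥ 10`, `β r ≤ 1`, `-π/2 ≤ θ ≤ 0`: `|F(re^{iθ}; e^{iβ})|² ≥ 1/5` -/
theorem normSq_sector_ge_aux {r β θ : ℝ} (hr : 10 ≤ r) (hβ : 0 < β) (hκ : β * r ≤ 1)
    (hθ1 : -(Real.pi / 2) ≤ θ) (hθ2 : θ ≤ 0) :
    0.2 ≤ Complex.normSq (F (Complex.exp (β * I)) (r * Complex.exp (θ * I))) := by
  have hr0 : 0 < r := by linarith
  have hpi := Real.pi_gt_d4
  have hβ1 : β ≤ 0.1 := by
    have : β * 10 ≤ β * r := by gcongr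
    linarith
  refine normSq_ge_of_tail (s := 0.3384) (c := Real.pi / 2) (ρ := 0.92) (n₀ := 32) hr0 hβ hθ1 (by linarith)
    (by norm_num) (fun u hu => abs_sin_le_lin3 hu) ?_ (by norm_num) ?_ (by norm_num)
  · have h1 := Real.exp_one_lt_d9
    have h2 : Real.exp 1 * 0.3384 ≤ 0.92 := by
      norm_num at h1 ⊢
      linarith
    calc Real.exp 1 * 0.3384 * (β * r) ≤ Real.exp 1 * 0.3384 * 1 := by gcongr
      _ ≤ 0.92 := by rw [mul_one]; exact h2
  · have : β * (((32:ℕ):ℝ) - 1) ≤ 0.1 * 31 := by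
      push_cast
      nlinarith
    linarith

/-- |sin u| ≤ 0.27 (3π/4 + u) -/
theorem abs_sin_le_lin4 {u : ℝ} (hu : 0 ≤ u) : |Real.sin u| ≤ 0.264 * (3 * Real.pi / 4 + u) := by
  have hpi := Real.pi_gt_d4
  have hpi2 := Real.pi_lt_d4
  rcases le_or_gt 1.4321 u with h | h
  · refine (Real.abs_sin_le_one u).trans ?_
    linarith
  · have hs : 0 ≤ Real.sin u := Real.sin_nonneg_of_nonneg_of_le_pi hu (by linarith)
    rw [abs_of_nonneg hs]
    have h1 : Real.sin u = Real.cos (Real.pi / 2 - u) := (Real.cos_pi_div_two_sub u).symm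
    have h2 := cos_le_quartic (x := Real.pi / 2 - u) (by linarith)
    rw [h1]
    obtain ⟨x, hx⟩ : ∃ x, x = Real.pi / 2 - u := ⟨_, rfl⟩
    rw [← hx] at h2 ⊢
    have hx1 : x ≤ 1.5708 := by linarith
    have hx0 : 0.13 ≤ x := by linarith
    have hxu : 3 * Real.pi / 4 + u = 5 * Real.pi / 4 - x := by rw [hx]; ring
    rw [hxu]
    rcases le_or_gt x 0.6 with h6 | h6
    · have h7 : x ^ 4 ≤ 0.36 * x ^ 2 := by
        have : x ^ 2 ≤ 0.36 := by nlinarith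
        nlinarith [sq_nonneg x]
      nlinarith [sq_nonneg (x - 0.27)]
    · have h3 : x ^ 4 ≤ 2.4675 * x ^ 2 := by
        have : x ^ 2 ≤ 2.4675 := by nlinarith
        nlinarith [sq_nonneg x]
      nlinarith [sq_nonneg (x - 0.6)]

/-- case B: `1 ≤ κ ≤ 1.3`, `-π/2 ≤ θ ≤ -π/4` -/
theorem normSq_sector_B {r β θ : ℝ} (hr : 10 ≤ r) (hβ : 0 < β) (hκ1 : 1 ≤ β * r) (hκ : β * r ≤ 1.3)
    (hθ1 : -(Real.pi / 2) ≤ θ) (hθ2 : θ ≤ -(Real.pi / 4)) :
    1 ≤ Complex.normSq (F (Complex.exp (β * I)) (r * Complex.exp (θ * I))) := by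
  have hr0 : 0 < r := by linarith
  have hpi := Real.pi_gt_d4
  have hpi2 := Real.pi_lt_d4
  have hβ1 : β ≤ 0.13 := by
    have : β * 10 ≤ β * r := by gcongr
    linarith
  obtain ⟨hnn, hle⟩ := normSq_ge_sum_sub (s := 0.264) (c := 3 * Real.pi / 4) (ρ := 0.9335) (n₀ := 37) hr0 hβ hθ1
    (by linarith) (by norm_num) (fun u hu => abs_sin_le_lin4 hu) (by
      have h1 := Real.exp_one_lt_d9
      have h2 : Real.exp 1 * 0.264 * 1.3 ≤ 0.9335 := by
        norm_num at h1 ⊢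
        linarith
      calc Real.exp 1 * 0.264 * (β * r) ≤ Real.exp 1 * 0.264 * 1.3 := by gcongr
        _ ≤ 0.9335 := h2) (by norm_num) (by
      have : β * (((37:ℕ):ℝ) - 1) ≤ 0.13 * 36 := by
        push_cast
        nlinarith
      linarith)
  have hfin : tC r β θ 0 + tC r β θ 3 ≤ ∑ i ∈ Finset.range (37 + 1), tC r β θ i := by
    have h1 : ∑ i ∈ ({0, 3} : Finset ℕ), tC r β θ i ≤ ∑ i ∈ Finset.range (37 + 1), tC r β θ i := by
      refine Finset.sum_le_sum_of_subset_of_nonneg ?_ (fun i hi _ => hnn i (Finset.mem_range.1 hi))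
      intro i hi
      simp only [Finset.mem_insert, Finset.mem_singleton] at hi
      rw [Finset.mem_range]; omega
    rw [Finset.sum_pair (by norm_num)] at h1
    exact h1
  have ht0 : tC r β θ 0 = 1 := by unfold tC; simp
  have ht3 : 1.3 ≤ tC r β θ 3 := by
    unfold tC
    have e3 : θ + (((3:ℕ):ℝ) - 1) * (β / 2) = θ + β := by push_cast; ring
    rw [e3]
    have h3 := (Real.sin_gt_sub_cube hβ).le
    have h4 : β ^ 3 / 6 ≤ 0.003 * β := by
      have h5 : β ^ 2 ≤ 0.0169 := by nlinarith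
      have e : β ^ 3 / 6 = β ^ 2 * β / 6 := by ring
      rw [e]
      nlinarith
    have h6 : 0.997 * β ≤ Real.cos (θ + β) := by
      have h7 : 0.997 * β ≤ β - β ^ 3 / 6 := by linarith
      have h8 : Real.sin β ≤ Real.cos (θ + β) := by
        rw [← Real.cos_pi_div_two_sub]
        rw [← Real.cos_abs (θ + β)]
        apply Real.cos_le_cos_of_nonneg_of_le_pi (abs_nonneg _) (by linarith)
        rw [abs_le]
        constructor <;> linarith
      exact h7.trans (h3.trans h8)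
    have h7 : 2 * r * (0.997 * β) ≤ 2 * r * Real.cos (θ + β) := by gcongr
    have h8 : 1.994 ≤ 2 * r * Real.cos (θ + β) := by
      have : 2 * r * (0.997 * β) = 1.994 * (β * r) := by ring
      rw [this] at h7
      nlinarith
    have h9 := pow_le_pow_left₀ (by norm_num) h8 3
    have e5 : ((3:ℕ).factorial : ℝ) = 6 := by norm_num [Nat.factorial]
    rw [e5, le_div_iff₀ (by norm_num)]
    norm_num at h9 ⊢
    linarith
  have hnum : (0.9335:ℝ) ^ (37 + 1) / (1 - 0.9335) ≤ 1.3 := by norm_num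
  rw [ht0] at hfin
  linarith


theorem E_lower (n : ℕ) (hn : 12 ≤ n) :
    133000 * (2.35:ℝ) ^ (n - 12) ≤ (1.414 / 1.2 * n) ^ n / (n.factorial : ℝ) := by
  induction n, hn using Nat.le_induction with
  | base =>
    norm_num [Nat.factorial]
  | succ n hn ih =>
    have hn0 : (0:ℝ) < n := by
      have : 0 < n := by omega
      exact_mod_cast this
    have e1 : n + 1 - 12 = (n - 12) + 1 := by omega
    have e2 : (1.414 / 1.2 * ((n + 1 : ℕ) : ℝ)) ^ (n + 1) / ((n + 1).factorial : ℝ) =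
        ((1.414 / 1.2 * n) ^ n / (n.factorial : ℝ)) * (1.414 / 1.2 * (1 + 1 / (n:ℝ)) ^ n) := by
      rw [Nat.factorial_succ]
      have h1 : (1 + 1 / (n:ℝ)) ^ n = ((n:ℝ) + 1) ^ n / (n:ℝ) ^ n := by
        rw [← div_pow]; congr 1; field_simp
      rw [h1]
      push_cast
      have : (n.factorial : ℝ) ≠ 0 := by positivity
      rw [mul_pow, mul_pow, pow_succ, pow_succ]
      field_simp
    have h2 : 2 ≤ (1 + 1 / (n:ℝ)) ^ n := by
      have := one_add_mul_le_pow (a := 1 / (n:ℝ)) (by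
        have : 0 < 1 / (n:ℝ) := by positivity
        linarith) n
      have h3 : (n:ℝ) * (1 / n) = 1 := by field_simp
      linarith
    rw [e1, e2, pow_succ]
    calc 133000 * ((2.35:ℝ) ^ (n - 12) * 2.35) = (133000 * (2.35:ℝ) ^ (n - 12)) * 2.35 := by ring
      _ ≤ ((1.414 / 1.2 * n) ^ n / (n.factorial : ℝ)) * (1.414 / 1.2 * (1 + 1 / (n:ℝ)) ^ n) := by
          refine mul_le_mul ih ?_ (by norm_num) (by positivity)
          calc (2.35:ℝ) ≤ 1.414 / 1.2 * 2 := by norm_num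
            _ ≤ 1.414 / 1.2 * (1 + 1 / (n:ℝ)) ^ n := by gcongr

/-- case A: `κ ≤ 1.3`, `-π/4 ≤ θ ≤ 0` -/
theorem normSq_sector_A {r β θ : ℝ} (hr : 10 ≤ r) (hβ : 0 < β) (hκ : β * r ≤ 1.3)
    (hθ1 : -(Real.pi / 4) ≤ θ) (hθ2 : θ ≤ 0) :
    1 ≤ Complex.normSq (F (Complex.exp (β * I)) (r * Complex.exp (θ * I))) := by
  have hr0 : 0 < r := by linarith
  have hpi := Real.pi_gt_d4
  have hpi2 := Real.pi_lt_d4
  have hβ1 : β ≤ 0.13 := by
    have : β * 10 ≤ β * r := by gcongr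
    linarith
  obtain ⟨n, hn⟩ : ∃ n, n = ⌊1.2 * r⌋₊ := ⟨_, rfl⟩
  have hn1 : (n:ℝ) ≤ 1.2 * r := by rw [hn]; exact Nat.floor_le (by positivity)
  have hn2 : 1.2 * r < n + 1 := by rw [hn]; exact Nat.lt_floor_add_one _
  have hn12 : 12 ≤ n := by
    rw [hn]; apply Nat.le_floor; push_cast; linarith
  obtain ⟨n2, hn2d⟩ : ∃ n2, n2 = ⌊4.55 * r⌋₊ := ⟨_, rfl⟩
  have hm1 : (n2:ℝ) ≤ 4.55 * r := by rw [hn2d]; exact Nat.floor_le (by positivity)
  have hm2 : 4.55 * r < n2 + 1 := by rw [hn2d]; exact Nat.lt_floor_add_one _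
  have hnn2 : n ≤ n2 := by
    rw [hn2d]; apply Nat.le_floor; linarith
  have hexp := Real.exp_one_lt_d9
  -- negative terms, first bound
  have hneg : ∀ m, tC r β θ m < 0 → 0 + 1 ≤ m ∧ -((1.196:ℝ) ^ m) ≤ tC r β θ m := by
    refine tC_neg (s := 0.3384) (c := Real.pi / 2) (n₀ := 0) hr0 hβ (by linarith) (by linarith)
      (by norm_num) (fun u hu => abs_sin_le_lin3 hu) ?_ ?_
    · have h2 : Real.exp 1 * 0.3384 * 1.3 ≤ 1.196 := by
        norm_num at hexp ⊢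
        linarith
      calc Real.exp 1 * 0.3384 * (β * r) ≤ Real.exp 1 * 0.3384 * 1.3 := by gcongr
        _ ≤ 1.196 := h2
    · push_cast
      nlinarith
  have hlow1 : ∀ m, -((1.196:ℝ) ^ m) ≤ tC r β θ m := by
    intro m
    by_cases h : tC r β θ m < 0
    · exact (hneg m h).2
    · push Not at h
      refine le_trans ?_ h
      rw [neg_nonpos]; positivity
  -- the big term
  have hbig : 133000 * (2.35:ℝ) ^ (n - 12) ≤ tC r β θ n := by
    refine (E_lower n hn12).trans ?_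
    unfold tC
    have hn1' : (1:ℝ) ≤ n := by
      have : 1 ≤ n := by omega
      exact_mod_cast this
    have hy0 : 0 ≤ ((n:ℝ) - 1) * (β / 2) := by apply mul_nonneg <;> linarith
    have hy1 : ((n:ℝ) - 1) * (β / 2) ≤ 0.78 := by
      have : ((n:ℝ) - 1) * (β / 2) ≤ (1.2 * r) * (β / 2) := by
        apply mul_le_mul_of_nonneg_right _ (by positivity)
        linarith
      nlinarith
    have hcos : 0.707 ≤ Real.cos (θ + ((n:ℝ) - 1) * (β / 2)) := by
      have h1 : Real.cos (Real.pi / 4) ≤ Real.cos (θ + ((n:ℝ) - 1) * (β / 2)) := by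
        rw [← Real.cos_abs (θ + _)]
        apply Real.cos_le_cos_of_nonneg_of_le_pi (abs_nonneg _) (by linarith)
        rw [abs_le]; constructor <;> linarith
      rw [Real.cos_pi_div_four] at h1
      have h2 : (1.414:ℝ) ≤ √2 := Real.le_sqrt_of_sq_le (by norm_num)
      linarith
    have hb : 1.414 / 1.2 * (n:ℝ) ≤ 2 * r * Real.cos (θ + ((n:ℝ) - 1) * (β / 2)) := by
      calc 1.414 / 1.2 * (n:ℝ) ≤ 1.414 / 1.2 * (1.2 * r) := by gcongr
        _ = 2 * r * 0.707 := by ring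
        _ ≤ _ := by gcongr
    gcongr
  have h := normSq_hasSum r β θ
  have e2 : (fun n : ℕ => (2 * r * Real.cos (θ + ((n:ℝ) - 1) * (β / 2))) ^ n / (n.factorial : ℝ)) = tC r β θ := rfl
  rw [e2] at h
  have hsum := h.summable
  rw [← h.tsum_eq, ← hsum.sum_add_tsum_nat_add (n2 + 1)]
  -- first part
  have hpart1 : tC r β θ n - (1.196:ℝ) ^ (n2 + 1) / 0.196 ≤ ∑ i ∈ Finset.range (n2 + 1), tC r β θ i := by
    have hmem : n ∈ Finset.range (n2 + 1) := Finset.mem_range.2 (by omega)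
    rw [← Finset.add_sum_erase _ _ hmem]
    have h1 : -(∑ i ∈ Finset.range (n2 + 1), (1.196:ℝ) ^ i) ≤ ∑ i ∈ (Finset.range (n2 + 1)).erase n, tC r β θ i := by
      rw [← Finset.add_sum_erase _ _ hmem, neg_add, ← Finset.sum_neg_distrib]
      have h2 : ∑ i ∈ (Finset.range (n2 + 1)).erase n, -((1.196:ℝ) ^ i) ≤
          ∑ i ∈ (Finset.range (n2 + 1)).erase n, tC r β θ i :=
        Finset.sum_le_sum fun i _ => hlow1 i
      have h3 : (0:ℝ) ≤ (1.196:ℝ) ^ n := by positivity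
      linarith
    have h4 : ∑ i ∈ Finset.range (n2 + 1), (1.196:ℝ) ^ i ≤ (1.196:ℝ) ^ (n2 + 1) / 0.196 := by
      rw [geom_sum_eq (by norm_num), div_le_div_iff₀ (by norm_num) (by norm_num)]
      norm_num
    linarith
  -- tail
  obtain ⟨k, hk⟩ : ∃ k, k = n2 + 1 := ⟨_, rfl⟩
  have hkr : 4.55 * r < k := by rw [hk]; push_cast; exact hm2
  have hk0 : (0:ℝ) < k := by linarith
  have hW : ∀ m : ℕ, (2 * r) ^ (m + k) / ((m + k).factorial : ℝ) ≤ (2 * r) ^ k / (k.factorial : ℝ) * 0.44 ^ m := by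
    intro m
    induction m with
    | zero => simp
    | succ m ih =>
      have e1 : m + 1 + k = (m + k) + 1 := by ring
      rw [e1, Nat.factorial_succ, pow_succ, pow_succ]
      have e3 : (2 * r) ^ (m + k) * (2 * r) / (((m + k + 1) * (m + k).factorial : ℕ) : ℝ) =
          ((2 * r) ^ (m + k) / ((m + k).factorial : ℝ)) * (2 * r / ((m + k + 1 : ℕ) : ℝ)) := by
        push_cast
        have : ((m + k).factorial : ℝ) ≠ 0 := by positivity
        field_simp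
      rw [e3, ← mul_assoc]
      refine mul_le_mul ih ?_ (by positivity) (by positivity)
      rw [div_le_iff₀ (by positivity)]
      push_cast
      have : (0:ℝ) ≤ m := Nat.cast_nonneg m
      linarith
  have hlow2 : ∀ m : ℕ, -((2 * r) ^ k / (k.factorial : ℝ) * 0.44 ^ m) ≤ tC r β θ (m + k) := by
    intro m
    have hab : |tC r β θ (m + k)| ≤ (2 * r) ^ k / (k.factorial : ℝ) * 0.44 ^ m := by
      refine le_trans ?_ (hW m)
      unfold tC
      rw [abs_div, abs_pow, abs_of_pos (by positivity : (0:ℝ) < ((m + k).factorial : ℝ))]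
      refine div_le_div_of_nonneg_right ?_ (by positivity)
      refine pow_le_pow_left₀ (abs_nonneg _) ?_ _
      rw [abs_mul, abs_of_pos (by positivity : (0:ℝ) < 2 * r)]
      calc _ ≤ 2 * r * 1 := by
            gcongr; exact Real.abs_cos_le_one _
        _ = 2 * r := mul_one _
    have := neg_abs_le (tC r β θ (m + k))
    linarith
  have hs2 : HasSum (fun m : ℕ => -((2 * r) ^ k / (k.factorial : ℝ) * (0.44:ℝ) ^ m))
      (-((2 * r) ^ k / (k.factorial : ℝ) * (1 - 0.44)⁻¹)) :=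
    ((hasSum_geometric_of_lt_one (r := (0.44:ℝ)) (by norm_num) (by norm_num)).mul_left _).neg
  have htail : -((2 * r) ^ k / (k.factorial : ℝ) * (1 - 0.44)⁻¹) ≤ ∑' m : ℕ, tC r β θ (m + k) := by
    rw [← hs2.tsum_eq]
    exact hs2.summable.tsum_le_tsum hlow2 ((summable_nat_add_iff k).2 hsum)
  have hXk : (2 * r) ^ k / (k.factorial : ℝ) ≤ (1.196:ℝ) ^ k := by
    refine (pow_div_factorial_le (by positivity) (by omega)).trans ?_
    refine pow_le_pow_left₀ (by positivity) ?_ _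
    rw [div_le_iff₀ hk0]
    calc Real.exp 1 * (2 * r) ≤ 2.7183 * (2 * r) := by
          gcongr; norm_num at hexp ⊢; linarith
      _ ≤ 1.196 * (4.55 * r) := by nlinarith
      _ ≤ 1.196 * k := by gcongr
  -- numbers
  have h5 : 5 * n2 ≤ 19 * (n + 1) := by
    have h6 : (5:ℝ) * n2 ≤ 19 * (n + 1) := by
      have : r ≤ (n + 1) / 1.2 := by rw [le_div_iff₀ (by norm_num)]; linarith
      have h7 : 5 * (4.55 * r) ≤ 5 * (4.55 * ((n + 1) / 1.2)) := by gcongr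
      have h8 : 5 * (4.55 * (((n:ℝ) + 1) / 1.2)) ≤ 19 * (n + 1) := by
        have : (0:ℝ) ≤ n := Nat.cast_nonneg n
        norm_num
        linarith
      linarith
    exact_mod_cast h6
  have h9 : (1.196:ℝ) ^ n2 ≤ 1.975 ^ (n + 1) := by
    have h10 : ((1.196:ℝ) ^ n2) ^ 5 ≤ (1.975 ^ (n + 1)) ^ 5 := by
      calc ((1.196:ℝ) ^ n2) ^ 5 = (1.196:ℝ) ^ (5 * n2) := by rw [← pow_mul, mul_comm]
        _ ≤ (1.196:ℝ) ^ (19 * (n + 1)) := pow_le_pow_right₀ (by norm_num) h5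
        _ = ((1.196:ℝ) ^ 19) ^ (n + 1) := by rw [pow_mul]
        _ ≤ ((1.975:ℝ) ^ 5) ^ (n + 1) := by
            apply pow_le_pow_left₀ (by positivity)
            norm_num
        _ = (1.975 ^ (n + 1)) ^ 5 := by rw [← pow_mul, ← pow_mul, mul_comm]
    exact le_of_pow_le_pow_left₀ (by norm_num) (by positivity) h10
  have h11 : (1.975:ℝ) ^ (n + 1) = 1.975 ^ 13 * 1.975 ^ (n - 12) := by
    rw [← pow_add]; congr 1; omega
  have h12 : (1.196:ℝ) ^ (n2 + 1) ≤ 8400 * 1.975 ^ (n - 12) := by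
    rw [pow_succ]
    calc (1.196:ℝ) ^ n2 * 1.196 ≤ (1.975 ^ 13 * 1.975 ^ (n - 12)) * 1.196 := by
          rw [← h11]; gcongr
      _ = (1.975 ^ 13 * 1.196) * 1.975 ^ (n - 12) := by ring
      _ ≤ 8400 * 1.975 ^ (n - 12) := by
          gcongr
          norm_num
  have h13 : (1.975:ℝ) ^ (n - 12) ≤ 2.35 ^ (n - 12) := pow_le_pow_left₀ (by norm_num) (by norm_num) _
  have h14 : (1:ℝ) ≤ 2.35 ^ (n - 12) := one_le_pow₀ (by norm_num)
  have h15 : (2 * r) ^ k / (k.factorial : ℝ) * (1 - 0.44)⁻¹ ≤ (8400 * 2.35 ^ (n - 12)) * 1.8 := by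
    refine mul_le_mul (hXk.trans ?_) (by norm_num) (by norm_num) (by positivity)
    rw [hk]
    exact h12.trans (by gcongr)
  have h16 : (1.196:ℝ) ^ (n2 + 1) / 0.196 ≤ 43000 * 2.35 ^ (n - 12) := by
    rw [div_le_iff₀ (by norm_num)]
    refine h12.trans ?_
    nlinarith
  rw [← hk] at hpart1 ⊢
  rw [← hk] at h16
  linarith

/-- **Sector.** `r ≥ 10`, `0 < β`, `β r ≤ 1.3`, `-π/2 ≤ θ ≤ 0`: `|F(re^{iθ}; e^{iβ})|² ≥ 1/5` -/
theorem normSq_sector_ge {r β θ : ℝ} (hr : 10 ≤ r) (hβ : 0 < β) (hκ : β * r ≤ 1.3)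
    (hθ1 : -(Real.pi / 2) ≤ θ) (hθ2 : θ ≤ 0) :
    0.2 ≤ Complex.normSq (F (Complex.exp (β * I)) (r * Complex.exp (θ * I))) := by
  rcases le_total (β * r) 1 with h1 | h1
  · exact normSq_sector_ge_aux hr hβ h1 hθ1 hθ2
  · rcases le_total θ (-(Real.pi / 4)) with h2 | h2
    · have := normSq_sector_B hr hβ h1 hκ hθ1 h2
      linarith
    · have := normSq_sector_A hr hβ hκ h2 hθ2
      linarith

/-- **Sector.** `F(re^{iθ}; e^{iβ}) ≠ 0` for `r ≥ 10`, `0 < β`, `β r ≤ 1.3`, `-π/2 ≤ θ ≤ 0` -/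
theorem F_sector_ne_zero {r β θ : ℝ} (hr : 10 ≤ r) (hβ : 0 < β) (hκ : β * r ≤ 1.3)
    (hθ1 : -(Real.pi / 2) ≤ θ) (hθ2 : θ ≤ 0) :
    F (Complex.exp (β * I)) (r * Complex.exp (θ * I)) ≠ 0 := by
  intro h
  have := normSq_sector_ge hr hβ hκ hθ1 hθ2
  rw [h, map_zero] at this
  norm_num at this

end Sok
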