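import Mathlib
import Pool.Agent.Lib.MP_816dec_an.CornerB
import Pool.Agent.Lib.MP_816dec_an.Cross
import Pool.Agent.Lib.MP_816dec_an.Sector
import Pool.Agent.Lib.MP_816dec_an.Cover
import Pool.Agent.Lib.MP_816dec_an.A0Ker

/-!
MP_816dec_an: assembly of the corner `b = 1`, `e^{-1} ≤ κ ≤ 0.6`, `r ≥ 10` (Section 4 of sok_A1corner.md).
-/

set_option autoImplicit false

open Complex Set Filter Topology

namespace Sok

/-- numerical facts about `h = 1/β` -/
theorem corner_num {β r : ℝ} (hr : 10 ≤ r) (hβ : 0 < β) (hκ : β * r ≤ 0.6) :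
    r * Real.exp (-(4.99 / β)) ≤ Real.exp (-(4 / β)) * (0.3 * Real.exp (-r)) ∧
      r * Real.exp (0.97 / β) ≤ Real.exp (2 / β) * (0.3 * Real.exp (-r)) ∧
      2 * Real.exp (-(4 / β)) * (1 + Real.exp (2 / β)) < 0.01 ∧ Real.exp (-(4 / β)) ≤ 0.005 := by
  obtain ⟨h, hh⟩ : ∃ h : ℝ, h = 1 / β := ⟨_, rfl⟩
  have hβ1 : β ≤ 0.06 := by nlinarith
  have hb : (16.6 : ℝ) ≤ h := by
    rw [hh, le_div_iff₀ hβ]; linarith
  have hr1 : r ≤ 0.6 * h := by
    rw [hh, mul_one_div, le_div_iff₀ hβ]; linarith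
  have e1 : ∀ c : ℝ, c / β = c * h := fun c => by rw [hh]; ring
  have hr0 : 0 < r := by linarith
  -- `r ≤ 0.3 exp (0.39 h)` and `r ≤ 0.3 * exp (0.43 h)`
  have h1 : r ≤ 0.3 * Real.exp (0.39 * h) := by
    have h2 : (1 : ℝ) + 0.195 * h + (0.195 * h) ^ 2 / 2 ≤ Real.exp (0.195 * h) :=
      Real.quadratic_le_exp_of_nonneg (by linarith)
    have h3 : Real.exp (0.39 * h) = Real.exp (0.195 * h) * Real.exp (0.195 * h) := by
      rw [← Real.exp_add]; congr 1; ring
    have h4 : 0.5 * h ≤ Real.exp (0.195 * h) := by nlinarith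
    have h5 : 0.5 * h * (0.5 * h) ≤ Real.exp (0.39 * h) := by
      rw [h3]
      exact mul_le_mul h4 h4 (by linarith) (Real.exp_pos _).le
    nlinarith
  have hexpr : Real.exp (-(0.6 * h)) ≤ Real.exp (-r) := Real.exp_le_exp.2 (by linarith)
  have hsmall : ∀ c : ℝ, 1 ≤ c → Real.exp (-(c * h)) ≤ 1 / 154 := by
    intro c hc
    have h2 : (1 : ℝ) + 16.6 + 16.6 ^ 2 / 2 ≤ Real.exp 16.6 := Real.quadratic_le_exp_of_nonneg (by norm_num)
    have h3 : Real.exp (-(c * h)) ≤ Real.exp (-16.6) := Real.exp_le_exp.2 (by nlinarith)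
    refine h3.trans ?_
    rw [Real.exp_neg, inv_le_comm₀ (Real.exp_pos _) (by norm_num)]
    norm_num at h2 ⊢
    linarith
  rw [e1, e1, e1, e1]
  refine ⟨?_, ?_, ?_, ?_⟩
  · calc r * Real.exp (-(4.99 * h)) ≤ 0.3 * Real.exp (0.39 * h) * Real.exp (-(4.99 * h)) :=
        mul_le_mul_of_nonneg_right h1 (Real.exp_pos _).le
      _ = 0.3 * (Real.exp (-(4 * h)) * Real.exp (-(0.6 * h))) := by
        rw [mul_assoc, ← Real.exp_add, ← Real.exp_add]
        congr 2
        ring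
      _ ≤ 0.3 * (Real.exp (-(4 * h)) * Real.exp (-r)) := by
        apply mul_le_mul_of_nonneg_left _ (by norm_num)
        exact mul_le_mul_of_nonneg_left hexpr (Real.exp_pos _).le
      _ = _ := by ring
  · calc r * Real.exp (0.97 * h) ≤ 0.3 * Real.exp (0.39 * h) * Real.exp (0.97 * h) :=
        mul_le_mul_of_nonneg_right h1 (Real.exp_pos _).le
      _ = 0.3 * Real.exp (1.36 * h) := by
        rw [mul_assoc, ← Real.exp_add]
        congr 2
        ring
      _ ≤ 0.3 * Real.exp (2 * h + -(0.6 * h)) := by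
        apply mul_le_mul_of_nonneg_left _ (by norm_num)
        exact Real.exp_le_exp.2 (by linarith)
      _ = 0.3 * (Real.exp (2 * h) * Real.exp (-(0.6 * h))) := by rw [Real.exp_add]
      _ ≤ 0.3 * (Real.exp (2 * h) * Real.exp (-r)) := by
        apply mul_le_mul_of_nonneg_left _ (by norm_num)
        exact mul_le_mul_of_nonneg_left hexpr (Real.exp_pos _).le
      _ = _ := by ring
  · have e2 : 2 * Real.exp (-(4 * h)) * (1 + Real.exp (2 * h)) =
        2 * Real.exp (-(4 * h)) + 2 * Real.exp (-(2 * h)) := by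
      have : Real.exp (-(4 * h)) * Real.exp (2 * h) = Real.exp (-(2 * h)) := by
        rw [← Real.exp_add]; congr 1; ring
      rw [← this]
      ring
    rw [e2]
    have h3 : Real.exp (-(2 * h)) = Real.exp (-(1 * h)) * Real.exp (-(1 * h)) := by
      rw [← Real.exp_add]; congr 1; ring
    have h4 : Real.exp (-(4 * h)) ≤ Real.exp (-(2 * h)) := Real.exp_le_exp.2 (by linarith)
    have h5 := hsmall 1 le_rfl
    have h6 := Real.exp_pos (-(1 * h))
    have h7 : Real.exp (-(2 * h)) ≤ 1 / 154 * (1 / 154) := by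
      rw [h3]
      exact mul_le_mul h5 h5 h6.le (by norm_num)
    norm_num at h7 ⊢
    linarith
  · have h3 : Real.exp (-(4 * h)) ≤ Real.exp (-(2 * h)) := Real.exp_le_exp.2 (by linarith)
    have h4 : Real.exp (-(2 * h)) = Real.exp (-(1 * h)) * Real.exp (-(1 * h)) := by
      rw [← Real.exp_add]; congr 1; ring
    have h5 := hsmall 1 le_rfl
    have h6 := Real.exp_pos (-(1 * h))
    have h7 : Real.exp (-(2 * h)) ≤ 1 / 154 * (1 / 154) := by
      rw [h4]
      exact mul_le_mul h5 h5 h6.le (by norm_num)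
    norm_num at h7 ⊢
    linarith

/-- the arc: at most one zero of `Ft` on `[-π + κ, -π/2]`, simple -/
theorem corner_arc {β r c : ℝ} (hr : 10 ≤ r) (hβ : 0 < β) (hκ1 : Real.exp (-1) ≤ β * r) (hκ : β * r ≤ 0.6)
    (hc : 0.04 ≤ c)
    (hA0 : ∀ t ∈ Icc (-Real.pi + β * r) (-(Real.pi / 2)), AA β r t ≠ 0)
    (hC0 : ∀ t ∈ Icc (Real.pi + β * r) (3 * Real.pi / 2), 0.3 * Real.exp (-r) ≤ ‖CC β r t‖)
    (hs : ∀ t ∈ Icc (-Real.pi + β * r) (-(Real.pi / 2)),
      c ≤ Real.log ‖AA β r t‖ - Real.log ‖CC β r (t + 2 * Real.pi)‖ + (-(Real.pi / 2) - t) *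
        ((dF β r t * AA β r (t + β) / AA β r t).re -
          (dF β r t * CC β r (t + β + 2 * Real.pi) / CC β r (t + 2 * Real.pi)).re)) :
    (∀ s ∈ Icc (-Real.pi + β * r) (-(Real.pi / 2)), ∀ t ∈ Icc (-Real.pi + β * r) (-(Real.pi / 2)),
      Ft β r s = 0 → Ft β r t = 0 → s = t) ∧
      ∀ t ∈ Icc (-Real.pi + β * r) (-(Real.pi / 2)), Ft β r t = 0 →
        deriv (Fa β) (r * cexp (I * (t + β / 2))) ≠ 0 := by
  have hpi := Real.pi_gt_d4
  have hpi' := Real.pi_lt_d4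
  have hβ1 : β ≤ 0.06 := by nlinarith
  have hr0 : 0 < r := by linarith
  obtain ⟨n1, n2, n3, n4⟩ := corner_num hr hβ hκ
  have he1 : (0.36 : ℝ) ≤ Real.exp (-1) := by
    have := Real.exp_neg_one_gt_d9
    linarith
  have hdC' : ∀ t ∈ Icc (-Real.pi + β * r) (-(Real.pi / 2)),
      HasDerivAt (fun s => CC β r (s + 2 * Real.pi)) (dF β r t * CC β r (t + β + 2 * Real.pi)) t := by
    intro t ht
    have h1 := hasDerivAt_CC_dF hβ hr0 (t + 2 * Real.pi)
    rw [dF_add_two_pi] at h1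
    have h2 := h1.comp_add_const t (2 * Real.pi)
    refine h2.congr_deriv ?_
    congr 2
    ring
  have hC0' : ∀ t ∈ Icc (-Real.pi + β * r) (-(Real.pi / 2)),
      0.3 * Real.exp (-r) ≤ ‖CC β r (t + 2 * Real.pi)‖ := by
    intro t ht
    exact hC0 _ ⟨by linarith [ht.1], by linarith [ht.2]⟩
  have hCp : ∀ t ∈ Icc (-Real.pi + β * r) (-(Real.pi / 2)), 0 < ‖CC β r (t + 2 * Real.pi)‖ := fun t ht =>
    lt_of_lt_of_le (by positivity) (hC0' t ht)
  have hsum : ∀ t, AA β r t + (CC β r (t + 2 * Real.pi) + TT β r t) = Ft β r t := by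
    intro t
    unfold TT
    ring
  have hcross := crossing3 (A := AA β r) (C := fun s => CC β r (s + 2 * Real.pi)) (T := TT β r)
    (A' := fun t => dF β r t * AA β r (t + β)) (C' := fun t => dF β r t * CC β r (t + β + 2 * Real.pi))
    (T' := fun t => dF β r t * TT β r (t + β)) (a := -Real.pi + β * r) (b := -(Real.pi / 2))
    (ε := Real.exp (-(4 / β))) (M := Real.exp (2 / β)) (η := 0.01) (δ := 0.01)
    (fun t _ => hasDerivAt_AA_dF hβ hr0 t) hdC' (fun t ht => hasDerivAt_TT (hasDerivAt_AA_dF hβ hr0 t) (hdC' t ht)) hA0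
    (fun t ht => norm_pos_iff.1 (hCp t ht)) ?_ ?_ ?_ (by linarith) (by linarith) n3 ?_
  · refine ⟨fun s hs' t ht h0s h0t => hcross.1 s hs' t ht ?_ ?_, fun t ht h0 hd => hcross.2 t ht ?_ ?_⟩
    · rw [← h0s]; exact hsum s
    · rw [← h0t]; exact hsum t
    · rw [← h0]; exact hsum t
    · have e1 : dF β r t * AA β r (t + β) + (dF β r t * CC β r (t + β + 2 * Real.pi) +
          dF β r t * TT β r (t + β)) = dF β r t * Ft β r (t + β) := by
        rw [← hsum (t + β)]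
        ring
      show dF β r t * AA β r (t + β) + (dF β r t * CC β r (t + β + 2 * Real.pi) +
          dF β r t * TT β r (t + β)) = 0
      rw [e1, ← deriv_eq_Ft, hd, mul_zero]
  · intro t ht
    have h1 := norm_TT_le hr hβ hκ (t := t) (by linarith [ht.2])
    have h2 : Real.exp (-(4.99 / β)) ≤ r * Real.exp (-(4.99 / β)) :=
      le_mul_of_one_le_left (Real.exp_pos _).le (by linarith)
    exact (h1.trans (h2.trans n1)).trans (mul_le_mul_of_nonneg_left (hC0' t ht) (Real.exp_pos _).le)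
  · intro t ht
    rw [norm_mul, norm_dF hr0.le]
    have h1 := norm_TT_le hr hβ hκ (t := t + β) (by linarith [ht.2])
    exact ((mul_le_mul_of_nonneg_left h1 hr0.le).trans n1).trans
      (mul_le_mul_of_nonneg_left (hC0' t ht) (Real.exp_pos _).le)
  · intro t ht
    rw [norm_mul, norm_dF hr0.le]
    have h1 := norm_CC_le_crude hr hβ hκ1 hκ (t := t + β + 2 * Real.pi) (by linarith [ht.1]) (by linarith [ht.2])
    exact ((mul_le_mul_of_nonneg_left h1 hr0.le).trans n2).trans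
      (mul_le_mul_of_nonneg_left (hC0' t ht) (Real.exp_pos _).le)
  · intro t ht h1
    have h2 := hs t ht
    have h3 := (abs_le.1 h1).2
    obtain ⟨S, hS⟩ : ∃ S : ℝ, S = (dF β r t * AA β r (t + β) / AA β r t).re -
          (dF β r t * CC β r (t + β + 2 * Real.pi) / CC β r (t + 2 * Real.pi)).re := ⟨_, rfl⟩
    rw [← hS] at h2
    show 0.01 ≤ (dF β r t * AA β r (t + β) / AA β r t).re -
          (dF β r t * CC β r (t + β + 2 * Real.pi) / CC β r (t + 2 * Real.pi)).re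
    rw [← hS]
    have h4 : 0.03 ≤ (-(Real.pi / 2) - t) * S := by
      have : Real.log ‖AA β r t‖ - Real.log ‖CC β r (t + 2 * Real.pi)‖ ≤ 0.01 := h3
      linarith
    have h5 : 0 ≤ -(Real.pi / 2) - t := by linarith [ht.2]
    have h6 : -(Real.pi / 2) - t ≤ 1.3 := by linarith [ht.1]
    by_contra hS'
    rw [not_le] at hS'
    have h7 : (-(Real.pi / 2) - t) * S ≤ 1.3 * 0.01 := by
      calc (-(Real.pi / 2) - t) * S ≤ (-(Real.pi / 2) - t) * 0.01 := mul_le_mul_of_nonneg_left hS'.le h5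
        _ ≤ 1.3 * 0.01 := mul_le_mul_of_nonneg_right h6 (by norm_num)
    norm_num at h7 h4
    linarith

/-- from the arc to the circle -/
theorem circ_of_arc {β r : ℝ} (hr : 10 ≤ r) (hβ : 0 < β) (hκ : β * r ≤ 1.3)
    {a b : ℝ} (hb : -(Real.pi / 2) - β / 2 ≤ b)
    (hS : ∀ t ∈ Icc (-(β / 2)) (a + 2 * Real.pi), Ft β r t ≠ 0)
    (h1 : ∀ s ∈ Icc a b, ∀ t ∈ Icc a b, Ft β r s = 0 → Ft β r t = 0 → s = t)
    (h2 : ∀ t ∈ Icc a b, Ft β r t = 0 → deriv (Fa β) (r * cexp (I * (t + β / 2))) ≠ 0) :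
    Circ β r := by
  have hpi := Real.pi_pos
  have hr0 : 0 < r := by linarith
  have key : ∀ z : ℂ, Fa β z = 0 → ‖z‖ = r → ∃ t ∈ Icc a b, Ft β r t = 0 ∧ z = r * cexp (I * (t + β / 2)) := by
    intro z hz hzr
    -- representative `t ∈ [-2π - β/2, -β/2)`
    obtain ⟨t, ht, hzt⟩ : ∃ t : ℝ, t ∈ Ico (-(β / 2) - 2 * Real.pi) (-(β / 2)) ∧ z = r * cexp (I * (t + β / 2)) := by
      obtain ⟨φ, hφ⟩ : ∃ φ : ℝ, φ = Complex.arg z := ⟨_, rfl⟩
      have h3 : z = r * cexp (φ * I) := by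
        rw [← hzr, hφ]
        exact (Complex.norm_mul_exp_arg_mul_I z).symm
      have h4 := Complex.neg_pi_lt_arg z
      have h5 := Complex.arg_le_pi z
      rw [← hφ] at h4 h5
      rcases lt_or_ge φ 0 with h | h
      · refine ⟨φ - β / 2, ⟨by linarith, by linarith⟩, ?_⟩
        rw [h3]
        congr 2
        push_cast
        ring
      · refine ⟨φ - β / 2 - 2 * Real.pi, ⟨by linarith, by linarith⟩, ?_⟩
        rw [h3]
        congr 1
        have e1 : I * (((φ - β / 2 - 2 * Real.pi : ℝ) : ℂ) + β / 2) = φ * I - 2 * Real.pi * I := by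
          push_cast; ring
        rw [e1, Complex.exp_sub, Complex.exp_two_pi_mul_I, div_one]
    have hF : Ft β r t = 0 := by rw [Ft_eq_Fa, ← hzt]; exact hz
    rcases lt_or_ge t a with h | h
    · exfalso
      refine hS (t + 2 * Real.pi) ⟨by linarith [ht.1], by linarith⟩ ?_
      rw [Ft_add_two_pi]
      exact hF
    · rcases le_or_gt t b with h' | h'
      · exact ⟨t, ⟨h, h'⟩, hF, hzt⟩
      · exfalso
        refine F_sector_ne_zero (θ := t + β / 2) hr hβ hκ (by linarith) (by linarith [ht.2]) ?_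
        unfold Fa at hz
        rw [hzt] at hz
        rw [← hz]
        congr 3
        push_cast
        ring
  refine ⟨fun z hz hzr => ?_, fun z w hz hw hzr hwr => ?_⟩
  · obtain ⟨t, ht, hF, hzt⟩ := key z hz hzr
    rw [hzt]
    exact h2 t ht hF
  · obtain ⟨t, ht, hF, hzt⟩ := key z hz hzr
    obtain ⟨t', ht', hF', hwt⟩ := key w hw hwr
    rw [hzt, hwt, h1 t ht t' ht' hF hF']

/-- **assembly of the corner** -/
theorem circ_corner_of {β r c : ℝ} (hr : 10 ≤ r) (hβ : 0 < β) (hκ1 : Real.exp (-1) ≤ β * r) (hκ : β * r ≤ 0.6)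
    (hc : 0.04 ≤ c)
    (hS : ∀ t ∈ Icc (-(β / 2)) (Real.pi + β * r), Ft β r t ≠ 0)
    (hA0 : ∀ t ∈ Icc (-Real.pi + β * r) (-(Real.pi / 2)), AA β r t ≠ 0)
    (hC0 : ∀ t ∈ Icc (Real.pi + β * r) (3 * Real.pi / 2), 0.3 * Real.exp (-r) ≤ ‖CC β r t‖)
    (hs : ∀ t ∈ Icc (-Real.pi + β * r) (-(Real.pi / 2)),
      c ≤ Real.log ‖AA β r t‖ - Real.log ‖CC β r (t + 2 * Real.pi)‖ + (-(Real.pi / 2) - t) *
        ((dF β r t * AA β r (t + β) / AA β r t).re -
          (dF β r t * CC β r (t + β + 2 * Real.pi) / CC β r (t + 2 * Real.pi)).re)) :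
    Circ β r := by
  have h := corner_arc hr hβ hκ1 hκ hc hA0 hC0 hs
  have h0 : 0 < β * r := by nlinarith
  refine circ_of_arc hr hβ (by linarith) (a := -Real.pi + β * r) (b := -(Real.pi / 2)) (by linarith)
    ?_ h.1 h.2
  intro t ht
  exact hS t ⟨ht.1, by linarith [ht.2]⟩

/-- the slope hypothesis from the tangent inequalities and the value at the axis -/
theorem corner_slope {β r e : ℝ}
    (hA0 : AA β r (-(Real.pi / 2)) ≠ 0) (hC0 : CC β r (3 * Real.pi / 2) ≠ 0)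
    (hD : 143 / 100 * ‖CC β r (3 * Real.pi / 2)‖ ^ 2 ≤ ‖AA β r (-(Real.pi / 2))‖ ^ 2)
    {t : ℝ}
    (hAT : Real.log ‖AA β r (-(Real.pi / 2))‖ ≤ Real.log ‖AA β r t‖ +
      (-(Real.pi / 2) - t) * (dF β r t * AA β r (t + β) / AA β r t).re)
    (hCT : Real.log ‖CC β r (t + 2 * Real.pi)‖ + (-(Real.pi / 2) - t) *
      (dF β r t * CC β r (t + β + 2 * Real.pi) / CC β r (t + 2 * Real.pi)).re - e ≤
        Real.log ‖CC β r (3 * Real.pi / 2)‖) :
    0.17 - e ≤ Real.log ‖AA β r t‖ - Real.log ‖CC β r (t + 2 * Real.pi)‖ + (-(Real.pi / 2) - t) *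
        ((dF β r t * AA β r (t + β) / AA β r t).re -
          (dF β r t * CC β r (t + β + 2 * Real.pi) / CC β r (t + 2 * Real.pi)).re) := by
  have hAp := norm_pos_iff.2 hA0
  have hCp := norm_pos_iff.2 hC0
  have h1 := Real.log_le_log (by positivity) hD
  rw [Real.log_mul (by norm_num) (by positivity), Real.log_pow, Real.log_pow] at h1
  have h2 : (0.34 : ℝ) ≤ Real.log (143 / 100) := by
    -- `log 1.43 ≥ 0.34`: `exp 0.34 ≤ 1.43`
    rw [Real.le_log_iff_exp_le (by norm_num)]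
    have h3 := Real.exp_bound' (x := 0.34) (by norm_num) (by norm_num) (n := 4) (by norm_num)
    refine h3.trans ?_
    norm_num [Finset.sum_range_succ, Nat.factorial]
  push_cast at h1
  linarith

/-- **the corner**: what remains are the facts about `C` and `F ≠ 0` for `t ∈ [-β/2, π + κ]` -/
theorem circ_corner {β r e : ℝ} (hr : 10 ≤ r) (hβ : 0 < β) (hκ1 : Real.exp (-1) ≤ β * r) (hκ : β * r ≤ 0.6)
    (he : e ≤ 0.13)
    (hS : ∀ t ∈ Icc (-(β / 2)) (Real.pi + β * r), Ft β r t ≠ 0)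
    (hC0 : ∀ t ∈ Icc (Real.pi + β * r) (3 * Real.pi / 2), 0.3 * Real.exp (-r) ≤ ‖CC β r t‖)
    (hCT : ∀ t ∈ Icc (Real.pi + β * r) (3 * Real.pi / 2), Real.log ‖CC β r t‖ + (3 * Real.pi / 2 - t) *
      (dF β r t * CC β r (t + β) / CC β r t).re - e ≤ Real.log ‖CC β r (3 * Real.pi / 2)‖) :
    Circ β r := by
  have hpi := Real.pi_gt_d4
  have hpi' := Real.pi_lt_d4
  have hr0 : 0 < r := by linarith
  have hβ1 : β ≤ 0.06 := by nlinarith
  rcases axis_dichotomy (r := r) hβ (by linarith) (AA_axis hβ hr0) with h | hD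
  · refine circ_of_ne fun z hz => ?_
    exact h z hz.le
  refine circ_corner_of hr hβ hκ1 hκ (c := 0.17 - e) (by linarith) hS
    (fun t ht => AA_ne_zero hβ hr0 ht.2) hC0 fun t ht => ?_
  have hCax : CC β r (3 * Real.pi / 2) ≠ 0 := by
    have h1 := hC0 (3 * Real.pi / 2) ⟨by linarith, le_rfl⟩
    exact norm_pos_iff.1 (lt_of_lt_of_le (by positivity) h1)
  refine corner_slope (AA_ne_zero hβ hr0 le_rfl) hCax hD ?_ ?_
  · have h1 := AA_tangent hβ hr0 ht.2
    rwa [← mul_assoc I] at h1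
  · have h1 := hCT (t + 2 * Real.pi) ⟨by linarith [ht.1], by linarith [ht.2]⟩
    rw [dF_add_two_pi] at h1
    have e1 : 3 * Real.pi / 2 - (t + 2 * Real.pi) = -(Real.pi / 2) - t := by ring
    have e2 : t + 2 * Real.pi + β = t + β + 2 * Real.pi := by ring
    rw [e1, e2] at h1
    exact h1

end Sok
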