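import Mathlib

/-!
MP_816dec_an, b = 1, row A1-K7: existence of the saddle point in the upper half plane.
-/

set_option autoImplicit false

open Set Filter Topology

namespace Sok

theorem exists_mul_exp {y : ℝ} (hy : 0 ≤ y) : ∃ u : ℝ, 0 ≤ u ∧ u * Real.exp u = y := by
  have hc : ContinuousOn (fun u : ℝ => u * Real.exp u) (Icc 0 y) := by fun_prop
  have h := intermediate_value_Icc hy hc
  have h1 : y ∈ Icc ((fun u : ℝ => u * Real.exp u) 0) ((fun u : ℝ => u * Real.exp u) y) := by
    refine ⟨by simpa using hy, ?_⟩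
    show y ≤ y * Real.exp y
    have := Real.one_le_exp hy
    nlinarith
  obtain ⟨u, hu, hu2⟩ := h h1
  exact ⟨u, hu.1, hu2⟩

/-- the saddle `s₀ = φ + iτ` for `-κ ≤ t ≤ π + κ` -/
theorem exists_saddle {κ t : ℝ} (hκ : 0 < κ) (h0 : -κ ≤ t) (h1 : t ≤ Real.pi + κ) :
    ∃ φ τ : ℝ, 0 ≤ φ ∧ φ ≤ Real.pi ∧ 0 ≤ τ ∧ τ * Real.exp τ = κ * Real.sin φ ∧
      t = φ - κ * Real.exp (-τ) * Real.cos φ := by
  obtain ⟨U, hU0, hU⟩ := exists_mul_exp hκ.le
  have hy : ∀ u ∈ Icc 0 U, 0 ≤ u * Real.exp u / κ ∧ u * Real.exp u / κ ≤ 1 := by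
    intro u hu
    refine ⟨div_nonneg (mul_nonneg hu.1 (Real.exp_pos u).le) hκ.le, (div_le_one hκ).2 ?_⟩
    rw [← hU]
    exact mul_le_mul hu.2 (Real.exp_le_exp.2 hu.2) (Real.exp_pos u).le hU0
  have hyc : Continuous fun u : ℝ => Real.arcsin (u * Real.exp u / κ) :=
    Real.continuous_arcsin.comp (by fun_prop)
  have hsc : Continuous fun u : ℝ => Real.cos (Real.arcsin (u * Real.exp u / κ)) :=
    Real.continuous_cos.comp hyc
  have hsin : ∀ u ∈ Icc 0 U, Real.sin (Real.arcsin (u * Real.exp u / κ)) = u * Real.exp u / κ := by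
    intro u hu
    have := hy u hu
    exact Real.sin_arcsin (by linarith [this.1]) this.2
  have hU1 : U * Real.exp U / κ = 1 := by rw [hU]; exact div_self hκ.ne'
  have hpi := Real.pi_pos
  rcases le_total t (Real.pi / 2) with ht | ht
  · have hc : ContinuousOn (fun u : ℝ => Real.arcsin (u * Real.exp u / κ) -
        κ * Real.exp (-u) * Real.cos (Real.arcsin (u * Real.exp u / κ))) (Icc 0 U) := by
      apply Continuous.continuousOn
      exact hyc.sub ((continuous_const.mul (Real.continuous_exp.comp continuous_neg)).mul hsc)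
    have h := intermediate_value_Icc hU0 hc
    have hm : t ∈ Icc ((fun u : ℝ => Real.arcsin (u * Real.exp u / κ) -
        κ * Real.exp (-u) * Real.cos (Real.arcsin (u * Real.exp u / κ))) 0)
        ((fun u : ℝ => Real.arcsin (u * Real.exp u / κ) -
        κ * Real.exp (-u) * Real.cos (Real.arcsin (u * Real.exp u / κ))) U) := by
      refine ⟨?_, ?_⟩
      · simp
        linarith
      · simp only [hU1, Real.arcsin_one, Real.cos_pi_div_two, mul_zero, sub_zero]
        exact ht
    obtain ⟨u, hu, hu2⟩ := h hm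
    refine ⟨Real.arcsin (u * Real.exp u / κ), u, Real.arcsin_nonneg.2 (hy u hu).1, ?_, hu.1, ?_, hu2.symm⟩
    · have := Real.arcsin_le_pi_div_two (u * Real.exp u / κ)
      linarith
    · rw [hsin u hu]
      field_simp
  · have hc : ContinuousOn (fun u : ℝ => (Real.pi - Real.arcsin (u * Real.exp u / κ)) -
        κ * Real.exp (-u) * (-Real.cos (Real.arcsin (u * Real.exp u / κ)))) (Icc 0 U) := by
      apply Continuous.continuousOn
      exact (continuous_const.sub hyc).sub
        ((continuous_const.mul (Real.continuous_exp.comp continuous_neg)).mul hsc.neg)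
    have h := intermediate_value_Icc' hU0 hc
    have hm : t ∈ Icc ((fun u : ℝ => (Real.pi - Real.arcsin (u * Real.exp u / κ)) -
        κ * Real.exp (-u) * (-Real.cos (Real.arcsin (u * Real.exp u / κ)))) U)
        ((fun u : ℝ => (Real.pi - Real.arcsin (u * Real.exp u / κ)) -
        κ * Real.exp (-u) * (-Real.cos (Real.arcsin (u * Real.exp u / κ)))) 0) := by
      refine ⟨?_, ?_⟩
      · simp only [hU1, Real.arcsin_one, Real.cos_pi_div_two, neg_zero, mul_zero, sub_zero]
        linarith
      · simp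
        linarith
    obtain ⟨u, hu, hu2⟩ := h hm
    have h3 := Real.arcsin_le_pi_div_two (u * Real.exp u / κ)
    have h4 := Real.arcsin_nonneg.2 (hy u hu).1
    refine ⟨Real.pi - Real.arcsin (u * Real.exp u / κ), u, by linarith, by linarith, hu.1, ?_, ?_⟩
    · rw [Real.sin_pi_sub, hsin u hu]
      field_simp
    · rw [Real.cos_pi_sub]
      exact hu2.symm

end Sok
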