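import Pool.Agent.Lib.MP_816dec_an.Laplace
import Pool.Agent.Lib.MP_816dec_an.A0F

/-!
MP_816dec_an: the saddle of `GG β z` and the Laplace lemmas on a segment `x0 + t e^{iγ}`, `|t| ≤ T`.
-/

set_option autoImplicit false

open Complex Set Filter Topology MeasureTheory

namespace Sok.W

/-- the phase at the saddle `x0` -/
noncomputable def Psi (x0 u : ℂ) : ℂ := -(I * u ^ 2 / 2) + x0 * (cexp (I * u) - 1 - I * u)

/-- the remainder of the phase after the quadratic term -/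
noncomputable def Rm (x0 : ℂ) (β : ℝ) (u : ℂ) : ℂ := x0 / β * (cexp (I * u) - 1 - I * u + u ^ 2 / 2)

theorem GG_saddle {β : ℝ} (hβ : β ≠ 0) {z x0 : ℂ} (h : x0 = β * (z * cexp (-(I * β / 2)) * cexp (I * x0))) (u : ℂ) :
    GG β z (x0 + u) = GG β z x0 * cexp (Psi x0 u / β) := by
  have hβ' : (β : ℂ) ≠ 0 := by exact_mod_cast hβ
  have h2 : z * cexp (-(I * β / 2)) * cexp (I * x0) = x0 / β := by
    rw [eq_div_iff hβ', mul_comm]; exact h.symm
  have h3 : z * cexp (-(I * β / 2)) * cexp (I * (x0 + u)) = x0 / β * cexp (I * u) := by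
    rw [mul_add, Complex.exp_add, ← mul_assoc, h2]
  unfold GG
  rw [h3, h2, ← Complex.exp_add, ← Complex.exp_add, ← Complex.exp_add]
  congr 1
  unfold Psi
  field_simp
  ring

theorem GG_saddle_value {β : ℝ} (hβ : β ≠ 0) {z x0 : ℂ} (h : x0 = β * (z * cexp (-(I * β / 2)) * cexp (I * x0))) :
    GG β z x0 = cexp ((x0 - I * x0 ^ 2 / 2) / β) := by
  have hβ' : (β : ℂ) ≠ 0 := by exact_mod_cast hβ
  have h2 : z * cexp (-(I * β / 2)) * cexp (I * x0) = x0 / β := by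
    rw [eq_div_iff hβ', mul_comm]; exact h.symm
  unfold GG
  rw [h2, ← Complex.exp_add]
  congr 1
  field_simp
  ring

theorem Psi_line (x0 : ℂ) {β : ℝ} (hβ : β ≠ 0) (γ t : ℝ) :
    Psi x0 (t * cexp (γ * I)) / β =
      -(((I + x0) / β * cexp (2 * γ * I)) / 2) * (t : ℂ) ^ 2 + Rm x0 β (t * cexp (γ * I)) := by
  have hβ' : (β : ℂ) ≠ 0 := by exact_mod_cast hβ
  have e1 : cexp (2 * γ * I) = cexp (γ * I) ^ 2 := by
    rw [← Complex.exp_nat_mul]; congr 1; push_cast; ring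
  unfold Psi Rm
  rw [e1]
  field_simp
  ring

/-- bounds of the Taylor remainders of `e^{iu}` along the segment -/
def SegBd (γ T φ3 φ4 : ℝ) : Prop := ∀ t : ℝ, |t| ≤ T →
  ‖cexp (I * (t * cexp (γ * I))) - 1 - I * (t * cexp (γ * I)) + (t * cexp (γ * I)) ^ 2 / 2‖ ≤ φ3 * |t| ^ 3 ∧
  ‖cexp (I * (t * cexp (γ * I))) - 1 - I * (t * cexp (γ * I)) + (t * cexp (γ * I)) ^ 2 / 2 +
    I * (t * cexp (γ * I)) ^ 3 / 6‖ ≤ φ4 * |t| ^ 4

private theorem norm_u (γ t : ℝ) : ‖I * ((t : ℂ) * cexp (γ * I))‖ = |t| := by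
  rw [norm_mul, norm_mul, Complex.norm_I, Complex.norm_exp_ofReal_mul_I, Complex.norm_real]
  simp

private theorem re_u (γ t : ℝ) : (I * ((t : ℂ) * cexp (γ * I))).re = -(t * Real.sin γ) := by
  rw [Complex.exp_mul_I, ← Complex.ofReal_cos, ← Complex.ofReal_sin]
  simp [Complex.sin_ofReal_re]

theorem segBd_of {γ T X φ3 φ4 : ℝ} (hX : 0 < X) (hT : T * |Real.sin γ| ≤ X)
    (h3 : Real.exp X - 1 - X - X ^ 2 / 2 ≤ φ3 * X ^ 3)
    (h4 : Real.exp X - 1 - X - X ^ 2 / 2 - X ^ 3 / 6 ≤ φ4 * X ^ 4) : SegBd γ T φ3 φ4 := by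
  intro t ht
  have hre : (I * ((t : ℂ) * cexp (γ * I))).re ≤ X := by
    rw [re_u]
    refine le_trans (neg_le_abs _) ?_
    rw [abs_mul]
    exact le_trans (mul_le_mul_of_nonneg_right ht (abs_nonneg _)) hT
  have a3 := norm_exp_sub_sum_mul_le (I * ((t : ℂ) * cexp (γ * I))) 3 hX.le hre 1 (right_mem_Icc.2 zero_le_one)
  have a4 := norm_exp_sub_sum_mul_le (I * ((t : ℂ) * cexp (γ * I))) 4 hX.le hre 1 (right_mem_Icc.2 zero_le_one)
  rw [norm_u] at a3 a4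
  simp only [Complex.ofReal_one, one_mul, Finset.sum_range_succ, Finset.sum_range_zero, Nat.factorial, pow_zero,
    pow_one, zero_add, Nat.cast_one, div_one, mul_one, Nat.succ_eq_add_one] at a3 a4
  constructor
  · have e : cexp (I * (t * cexp (γ * I))) - 1 - I * (t * cexp (γ * I)) + (t * cexp (γ * I)) ^ 2 / 2 =
        cexp (I * (t * cexp (γ * I))) - (1 + I * (t * cexp (γ * I)) + (I * (t * cexp (γ * I))) ^ 2 / ((1 + 1 : ℕ) : ℂ)) := by
      push_cast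
      linear_combination ((t * cexp (γ * I)) ^ 2 / 2) * Complex.I_sq
    rw [e]
    have hX3 : 0 < X ^ 3 := by positivity
    refine le_of_mul_le_mul_left ?_ hX3
    refine a3.trans ?_
    have : 0 ≤ |t| ^ 3 := by positivity
    push_cast
    nlinarith
  · have e : cexp (I * (t * cexp (γ * I))) - 1 - I * (t * cexp (γ * I)) + (t * cexp (γ * I)) ^ 2 / 2 +
        I * (t * cexp (γ * I)) ^ 3 / 6 =
        cexp (I * (t * cexp (γ * I))) - (1 + I * (t * cexp (γ * I)) + (I * (t * cexp (γ * I))) ^ 2 / ((1 + 1 : ℕ) : ℂ) +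
          (I * (t * cexp (γ * I))) ^ 3 / (((2 + 1) * ((1 + 1) : ℕ) : ℕ) : ℂ)) := by
      push_cast
      have h3 : I ^ 3 = -I := by rw [pow_succ, Complex.I_sq]; ring
      linear_combination ((t * cexp (γ * I)) ^ 2 / 2) * Complex.I_sq + ((t * cexp (γ * I)) ^ 3 / 6) * h3
    rw [e]
    have hX3 : 0 < X ^ 4 := by positivity
    refine le_of_mul_le_mul_left ?_ hX3
    refine le_trans ?_ (le_trans a4 ?_)
    · push_cast
      exact le_refl _
    · have : 0 ≤ |t| ^ 4 := by positivity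
      push_cast
      nlinarith

theorem segBd_horizontal (T : ℝ) : SegBd 0 T (1 / 6) (1 / 24) := by
  intro t _
  have hre : Real.exp (I * ((t : ℂ) * cexp ((0 : ℝ) * I))).re ≤ 1 := by
    rw [re_u]; simp
  have a3 := norm_exp_sub_three_le (I * ((t : ℂ) * cexp ((0 : ℝ) * I))) le_rfl hre
  have a4 := norm_exp_sub_four_le (I * ((t : ℂ) * cexp ((0 : ℝ) * I))) le_rfl hre
  rw [norm_u] at a3 a4
  constructor
  · refine le_trans (le_of_eq ?_) (a3.trans (le_of_eq (by ring)))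
    congr 1
    linear_combination ((t * cexp ((0 : ℝ) * I)) ^ 2 / 2) * Complex.I_sq
  · refine le_trans (le_of_eq ?_) (a4.trans (le_of_eq (by ring)))
    congr 1
    have h3 : I ^ 3 = -I := by rw [pow_succ, Complex.I_sq]; ring
    linear_combination ((t * cexp ((0 : ℝ) * I)) ^ 2 / 2) * Complex.I_sq + ((t * cexp ((0 : ℝ) * I)) ^ 3 / 6) * h3

private theorem cont_Rm (x0 : ℂ) (β γ : ℝ) : Continuous (fun t : ℝ => Rm x0 β (t * cexp (γ * I))) := by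
  unfold Rm; fun_prop

/-- **Value on the segment.** `Λ = ((i + x0)/β) e^{2iγ}`, `s = |x0|/β`, `a = re Λ`. -/
theorem sad_value {x0 : ℂ} {β γ T φ3 φ4 c : ℝ} {Λ : ℂ} (hβ : 0 < β) (hΛ : Λ = (I + x0) / β * cexp (2 * γ * I))
    (ha : 0 < Λ.re) (hc : 0 < c) (hc1 : c ≤ 1) (hT : 0 < T) (hφ4 : 0 ≤ φ4) (hseg : SegBd γ T φ3 φ4)
    (hre : ∀ t : ℝ, |t| ≤ T → (Rm x0 β (t * cexp (γ * I))).re ≤ (1 - c) * Λ.re * t ^ 2 / 2) :
    ‖(∫ t in (-T)..T, cexp (Psi x0 (t * cexp (γ * I)) / β)) - (2 * Real.pi / Λ) ^ (1 / 2 : ℂ)‖ ≤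
      3 * Real.sqrt (2 * Real.pi) * (‖x0‖ / β * φ4) / (Λ.re ^ 2 * Real.sqrt Λ.re) +
      15 / 2 * Real.sqrt (2 * Real.pi) * (‖x0‖ / β * φ3) ^ 2 / ((c * Λ.re) ^ 3 * Real.sqrt (c * Λ.re)) +
      2 * (Real.exp (-(Λ.re / 2) * T ^ 2) / (Λ.re * T)) := by
  have h0 : ‖x0 / (β : ℂ)‖ = ‖x0‖ / β := by
    rw [norm_div, Complex.norm_real, Real.norm_eq_abs, abs_of_pos hβ]
  have h := laplace_segment (Λ := Λ) (K := x0 / β * (-(I * cexp (3 * γ * I) / 6))) (c := c)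
    (M3 := ‖x0‖ / β * φ3) (M4 := ‖x0‖ / β * φ4) (T := T) (R := fun t : ℝ => Rm x0 β (t * cexp (γ * I)))
    ha hc hc1 hT (by positivity) (cont_Rm x0 β γ) ?_ ?_ hre
  · refine le_trans (le_of_eq ?_) h
    congr 2
    refine intervalIntegral.integral_congr (fun t _ => ?_)
    show _ = _
    rw [Psi_line x0 hβ.ne', hΛ]
  · intro t ht
    have e : Rm x0 β (t * cexp (γ * I)) - x0 / β * (-(I * cexp (3 * γ * I) / 6)) * (t : ℂ) ^ 3 =
        x0 / β * (cexp (I * (t * cexp (γ * I))) - 1 - I * (t * cexp (γ * I)) + (t * cexp (γ * I)) ^ 2 / 2 +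
          I * (t * cexp (γ * I)) ^ 3 / 6) := by
      have e1 : cexp (3 * γ * I) = cexp (γ * I) ^ 3 := by
        rw [← Complex.exp_nat_mul]; congr 1; push_cast; ring
      unfold Rm
      rw [e1]
      ring
    rw [e, norm_mul, h0]
    calc _ ≤ ‖x0‖ / β * (φ4 * |t| ^ 4) := mul_le_mul_of_nonneg_left (hseg t ht).2 (by positivity)
      _ = _ := by ring
  · intro t ht
    unfold Rm
    rw [norm_mul, h0]
    calc _ ≤ ‖x0‖ / β * (φ3 * |t| ^ 3) := mul_le_mul_of_nonneg_left (hseg t ht).1 (by positivity)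
      _ = _ := by ring

/-- **First moment on the segment.** -/
theorem sad_first {x0 : ℂ} {β γ T φ3 φ4 c : ℝ} {Λ : ℂ} (hβ : 0 < β) (hΛ : Λ = (I + x0) / β * cexp (2 * γ * I))
    (ha : 0 < Λ.re) (hc : 0 < c) (hc1 : c ≤ 1) (hT : 0 < T) (hφ4 : 0 ≤ φ4) (hseg : SegBd γ T φ3 φ4)
    (hre : ∀ t : ℝ, |t| ≤ T → (Rm x0 β (t * cexp (γ * I))).re ≤ (1 - c) * Λ.re * t ^ 2 / 2) :
    ‖∫ t in (-T)..T, (t : ℂ) * cexp (Psi x0 (t * cexp (γ * I)) / β)‖ ≤
      3 * Real.sqrt (2 * Real.pi) * (‖x0‖ / β / 6) / (Λ.re ^ 2 * Real.sqrt Λ.re) + 16 * (‖x0‖ / β * φ4) / Λ.re ^ 3 +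
      48 * (‖x0‖ / β * φ3) ^ 2 / (c * Λ.re) ^ 4 := by
  have h0 : ‖x0 / (β : ℂ)‖ = ‖x0‖ / β := by
    rw [norm_div, Complex.norm_real, Real.norm_eq_abs, abs_of_pos hβ]
  have hK : ‖x0 / (β : ℂ) * (-(I * cexp (3 * γ * I) / 6))‖ = ‖x0‖ / β / 6 := by
    rw [norm_mul, h0, norm_neg, norm_div, norm_mul, Complex.norm_I]
    have : cexp (3 * γ * I) = cexp (((3 * γ : ℝ) : ℂ) * I) := by push_cast; ring_nf
    rw [this, Complex.norm_exp_ofReal_mul_I]
    norm_num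
    ring
  have h := laplace_segment_one (Λ := Λ) (K := x0 / β * (-(I * cexp (3 * γ * I) / 6))) (c := c)
    (M3 := ‖x0‖ / β * φ3) (M4 := ‖x0‖ / β * φ4) (T := T) (R := fun t : ℝ => Rm x0 β (t * cexp (γ * I)))
    ha hc hc1 hT (by positivity) (cont_Rm x0 β γ) ?_ ?_ hre
  · rw [hK] at h
    refine le_trans (le_of_eq ?_) h
    congr 1
    refine intervalIntegral.integral_congr (fun t _ => ?_)
    show _ = _
    rw [Psi_line x0 hβ.ne', hΛ]
  · intro t ht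
    have e : Rm x0 β (t * cexp (γ * I)) - x0 / β * (-(I * cexp (3 * γ * I) / 6)) * (t : ℂ) ^ 3 =
        x0 / β * (cexp (I * (t * cexp (γ * I))) - 1 - I * (t * cexp (γ * I)) + (t * cexp (γ * I)) ^ 2 / 2 +
          I * (t * cexp (γ * I)) ^ 3 / 6) := by
      have e1 : cexp (3 * γ * I) = cexp (γ * I) ^ 3 := by
        rw [← Complex.exp_nat_mul]; congr 1; push_cast; ring
      unfold Rm
      rw [e1]
      ring
    rw [e, norm_mul, h0]
    calc _ ≤ ‖x0‖ / β * (φ4 * |t| ^ 4) := mul_le_mul_of_nonneg_left (hseg t ht).2 (by positivity)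
      _ = _ := by ring
  · intro t ht
    unfold Rm
    rw [norm_mul, h0]
    calc _ ≤ ‖x0‖ / β * (φ3 * |t| ^ 3) := mul_le_mul_of_nonneg_left (hseg t ht).1 (by positivity)
      _ = _ := by ring

/-- the crude sufficient condition for `hre` -/
theorem hre_of {x0 : ℂ} {β γ T φ3 φ4 c a : ℝ} (hβ : 0 < β) (hseg : SegBd γ T φ3 φ4) (hφ3 : 0 ≤ φ3)
    (h : 2 * (‖x0‖ / β) * φ3 * T ≤ (1 - c) * a) (t : ℝ) (ht : |t| ≤ T) :
    (Rm x0 β (t * cexp (γ * I))).re ≤ (1 - c) * a * t ^ 2 / 2 := by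
  have h0 : ‖x0 / (β : ℂ)‖ = ‖x0‖ / β := by
    rw [norm_div, Complex.norm_real, Real.norm_eq_abs, abs_of_pos hβ]
  have h1 : ‖Rm x0 β (t * cexp (γ * I))‖ ≤ ‖x0‖ / β * (φ3 * |t| ^ 3) := by
    unfold Rm
    rw [norm_mul, h0]
    exact mul_le_mul_of_nonneg_left (hseg t ht).1 (by positivity)
  refine (Complex.re_le_norm _).trans (h1.trans ?_)
  have h2 : |t| ^ 3 = |t| * t ^ 2 := by rw [pow_succ, sq_abs]; ring
  rw [h2]
  have h3 : 0 ≤ t ^ 2 := sq_nonneg t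
  have h4 : 0 ≤ ‖x0‖ / β * φ3 := by positivity
  nlinarith [mul_le_mul_of_nonneg_right h h3, mul_le_mul_of_nonneg_left ht (mul_nonneg h4 h3)]

end Sok.W
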