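import Pool.Agent.Lib.MP_816dec_an.A0Val
import Pool.Agent.Lib.MP_816dec_an.SadSeg
import Pool.Agent.Lib.MP_816dec_an.R7Sad

/-!
MP_816dec_an, b = 1, row A1-K7 (first half): lower bound of the left function `CC β r t`
for `9/10 ≤ t ≤ π + κ`, `κ = β r ≤ 3/5`, by the 45 degree segment through the saddle.
-/

set_option autoImplicit false

open Complex Set Filter Topology MeasureTheory

namespace Sok

open W

theorem prim_seg {h P : ℂ → ℂ} (hh : Differentiable ℂ h) (hP : ∀ x, HasDerivAt P (h x) x) (s e : ℂ) (a b : ℝ) :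
    e * ∫ σ in a..b, h (s + σ * e) = P (s + b * e) - P (s + a * e) := by
  have h1 : ∀ σ ∈ uIcc a b, HasDerivAt (fun σ : ℝ => P (s + σ * e)) (e * h (s + σ * e)) σ := by
    intro σ _
    have h2 : HasDerivAt (fun σ : ℝ => s + (σ : ℂ) * e) e σ := by
      have := ((Complex.ofRealCLM.hasDerivAt (x := σ)).mul_const e).const_add s
      simpa using this
    have h3 := HasDerivAt.comp σ (hP (s + (σ : ℂ) * e)) h2
    rw [mul_comm] at h3
    exact h3
  have h4 : IntervalIntegrable (fun σ : ℝ => e * h (s + σ * e)) volume a b := by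
    apply Continuous.intervalIntegrable
    have := hh.continuous
    fun_prop
  have h5 := intervalIntegral.integral_eq_sub_of_hasDerivAt h1 h4
  rw [← h5, intervalIntegral.integral_const_mul]

/-- leg down to the valley -/
theorem leg_down_le {β r t S Y1 : ℝ} (hβ : 0 < β) (hr : 0 < r) {P : ℂ → ℂ}
    (hP : ∀ x, HasDerivAt P (gs β r t x) x) {V : ℤ → ℂ} {lL lR : ℂ} (hV : Vals β r t P V lL lR) {j : ℤ}
    (hS : InV t j S) (hSt : t < S) (hcos : Real.cos S ≤ 0) :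
    ‖P (S + Y1 * I) - V j‖ ≤ ‖gs β r t (S + Y1 * I)‖ * (β / (S - t)) := by
  rw [← hV.leg hβ hr hP hS Y1, norm_mul, Complex.norm_I, one_mul]
  refine (norm_integral_le_integral_norm _).trans ?_
  have hx : 0 < (S - t) / β := div_pos (by linarith) hβ
  have h1 : IntegrableOn (fun Y : ℝ => ‖gs β r t (S + Y1 * I)‖ * Real.exp (-((S - t) / β * Y1)) *
      Real.exp ((S - t) / β * Y)) (Iic Y1) :=
    (integrableOn_exp_mul_Iic hx Y1).const_mul _
  have h2 : ∫ Y in Iic Y1, ‖gs β r t (S + Y * I)‖ ≤ ∫ Y in Iic Y1, ‖gs β r t (S + Y1 * I)‖ *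
      Real.exp (-((S - t) / β * Y1)) * Real.exp ((S - t) / β * Y) := by
    refine setIntegral_mono_on (hS.int hβ hr Y1).norm h1 measurableSet_Iic ?_
    intro Y hY
    rw [norm_gs, norm_gs, ← Real.exp_add, ← Real.exp_add]
    apply Real.exp_le_exp.2
    have h3 : Real.exp (-Y1) ≤ Real.exp (-Y) := Real.exp_le_exp.2 (by linarith [mem_Iic.1 hY])
    have h4 : r * Real.cos S * Real.exp (-Y) ≤ r * Real.cos S * Real.exp (-Y1) := by
      have : r * Real.cos S ≤ 0 := mul_nonpos_of_nonneg_of_nonpos hr.le hcos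
      nlinarith
    have e1 : (S - t) * Y / β = (S - t) / β * Y := by ring
    have e2 : (S - t) * Y1 / β = (S - t) / β * Y1 := by ring
    rw [e1, e2]
    linarith
  refine h2.trans (le_of_eq ?_)
  rw [integral_const_mul, integral_exp_mul_Iic hx]
  have h5 : Real.exp (-((S - t) / β * Y1)) * Real.exp ((S - t) / β * Y1) = 1 := by
    rw [← Real.exp_add]; simp
  have h6 : ((S - t) / β)⁻¹ = β / (S - t) := inv_div _ _
  calc _ = ‖gs β r t (S + Y1 * I)‖ * (Real.exp (-((S - t) / β * Y1)) * Real.exp ((S - t) / β * Y1)) *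
      ((S - t) / β)⁻¹ := by rw [div_eq_mul_inv]; ring
    _ = _ := by rw [h5, h6, mul_one]

/-- leg up -/
theorem leg_up_le {β r t S Y1 ρ : ℝ} (hβ : 0 < β) (hr : 0 ≤ r) {P : ℂ → ℂ}
    (hP : ∀ x, HasDerivAt P (gs β r t x) x) {V : ℤ → ℂ} {lL lR : ℂ} (hV : Vals β r t P V lL lR)
    (hSt : S < t) (hρ : 0 < ρ) (h : ρ + β * r * max 0 (-Real.cos S) * Real.exp (-Y1) ≤ t - S) :
    ‖P (S + Y1 * I) - lL‖ ≤ ‖gs β r t (S + Y1 * I)‖ * (β / ρ) := by
  rw [← norm_neg, neg_sub, ← hV.legup hβ hr hP hSt Y1, norm_mul, Complex.norm_I, one_mul]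
  refine (norm_integral_le_integral_norm _).trans ?_
  have hx : 0 < ρ / β := div_pos hρ hβ
  have h1 : IntegrableOn (fun Y : ℝ => ‖gs β r t (S + Y1 * I)‖ * Real.exp (ρ / β * Y1) *
      Real.exp (-(ρ / β) * Y)) (Ioi Y1) :=
    (exp_neg_integrableOn_Ioi Y1 hx).const_mul _
  have h2 : ∫ Y in Ioi Y1, ‖gs β r t (S + Y * I)‖ ≤ ∫ Y in Ioi Y1, ‖gs β r t (S + Y1 * I)‖ *
      Real.exp (ρ / β * Y1) * Real.exp (-(ρ / β) * Y) := by
    refine setIntegral_mono_on (int_up hβ hr hSt Y1).norm h1 measurableSet_Ioi ?_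
    intro Y hY
    have hY' : Y1 < Y := hY
    rw [norm_gs, norm_gs, ← Real.exp_add, ← Real.exp_add]
    apply Real.exp_le_exp.2
    -- r cos S (e^{-Y} - e^{-Y1}) ≤ r max(0,-cos S) e^{-Y1} (Y - Y1)
    have h3 : Real.exp (-Y1) - Real.exp (-Y) ≤ Real.exp (-Y1) * (Y - Y1) := by
      have h5 := Real.add_one_le_exp (-(Y - Y1))
      have h6 : Real.exp (-Y) = Real.exp (-Y1) * Real.exp (-(Y - Y1)) := by
        rw [← Real.exp_add]; congr 1; ring
      rw [h6]
      have := Real.exp_pos (-Y1)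
      nlinarith
    have h3' : 0 ≤ Real.exp (-Y1) - Real.exp (-Y) := by
      have := Real.exp_le_exp.2 (by linarith : -Y ≤ -Y1)
      linarith
    have h4 : r * Real.cos S * Real.exp (-Y) - r * Real.cos S * Real.exp (-Y1) ≤
        r * max 0 (-Real.cos S) * (Real.exp (-Y1) * (Y - Y1)) := by
      have h7 : -Real.cos S ≤ max 0 (-Real.cos S) := le_max_right _ _
      have h8 : 0 ≤ max 0 (-Real.cos S) := le_max_left _ _
      have h9 : r * (-Real.cos S) * (Real.exp (-Y1) - Real.exp (-Y)) ≤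
          r * max 0 (-Real.cos S) * (Real.exp (-Y1) - Real.exp (-Y)) :=
        mul_le_mul_of_nonneg_right (mul_le_mul_of_nonneg_left h7 hr) h3'
      have h10 : r * max 0 (-Real.cos S) * (Real.exp (-Y1) - Real.exp (-Y)) ≤
          r * max 0 (-Real.cos S) * (Real.exp (-Y1) * (Y - Y1)) :=
        mul_le_mul_of_nonneg_left h3 (mul_nonneg hr h8)
      linarith
    have h5 : ρ / β * (Y - Y1) + r * max 0 (-Real.cos S) * (Real.exp (-Y1) * (Y - Y1)) ≤
        (t - S) / β * (Y - Y1) := by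
      have h6 : ρ / β + r * max 0 (-Real.cos S) * Real.exp (-Y1) ≤ (t - S) / β := by
        rw [le_div_iff₀ hβ]
        have : (ρ / β + r * max 0 (-Real.cos S) * Real.exp (-Y1)) * β =
            ρ + β * r * max 0 (-Real.cos S) * Real.exp (-Y1) := by field_simp
        rw [this]; exact h
      nlinarith
    have e1 : (S - t) * Y / β = -((t - S) / β * Y) := by ring
    have e2 : (S - t) * Y1 / β = -((t - S) / β * Y1) := by ring
    rw [e1, e2]
    nlinarith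
  refine h2.trans (le_of_eq ?_)
  rw [integral_const_mul]
  have h7 : ∫ Y in Ioi Y1, Real.exp (-(ρ / β) * Y) = Real.exp (-(ρ / β) * Y1) / (ρ / β) := by
    rw [integral_exp_mul_Ioi (neg_neg_of_pos hx)]
    rw [neg_div_neg_eq]
  rw [h7]
  have h5 : Real.exp (ρ / β * Y1) * Real.exp (-(ρ / β) * Y1) = 1 := by
    rw [← Real.exp_add]; simp
  have h6 : (ρ / β)⁻¹ = β / ρ := inv_div _ _
  calc _ = ‖gs β r t (S + Y1 * I)‖ * (Real.exp (ρ / β * Y1) * Real.exp (-(ρ / β) * Y1)) *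
      (ρ / β)⁻¹ := by rw [div_eq_mul_inv]; ring
    _ = _ := by rw [h5, h6, mul_one]

theorem segBd_45 : SegBd (-(Real.pi / 4)) 1 (21 / 100) (1 / 20) := by
  have h2 : Real.sqrt 2 ≤ 1.4143 := by
    rw [show (1.4143 : ℝ) = Real.sqrt (1.4143 ^ 2) by rw [Real.sqrt_sq (by norm_num)]]
    exact Real.sqrt_le_sqrt (by norm_num)
  refine segBd_of (X := 7072 / 10000) (by norm_num) ?_ ?_ ?_
  · rw [Real.sin_neg, Real.sin_pi_div_four, abs_neg, abs_of_nonneg (by positivity)]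
    linarith
  · have h := Real.exp_bound' (x := 7072 / 10000) (n := 7) (by norm_num) (by norm_num) (by norm_num)
    simp only [Finset.sum_range_succ, Finset.sum_range_zero, Nat.factorial] at h
    norm_num at h ⊢
    linarith
  · have h := Real.exp_bound' (x := 7072 / 10000) (n := 7) (by norm_num) (by norm_num) (by norm_num)
    simp only [Finset.sum_range_succ, Finset.sum_range_zero, Nat.factorial] at h
    norm_num at h ⊢
    linarith

theorem exp_neg_six_le : Real.exp (-6) ≤ 1 / 400 := by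
  have h1 : (2.718 : ℝ) ≤ Real.exp 1 := by
    have := Real.exp_one_gt_d9
    linarith
  have h2 : Real.exp 6 = Real.exp 1 ^ 6 := by rw [← Real.exp_nat_mul]; norm_num
  have h3 : (400 : ℝ) ≤ Real.exp 6 := by
    rw [h2]
    calc (400 : ℝ) ≤ 2.718 ^ 6 := by norm_num
      _ ≤ Real.exp 1 ^ 6 := pow_le_pow_left₀ (by norm_num) h1 6
  rw [Real.exp_neg, one_div]
  exact inv_anti₀ (by norm_num) h3

theorem R7_err {β ρ a w : ℝ} (hβ : 0 < β) (hβ1 : β ≤ 3 / 50) (hρ0 : 0 < ρ) (hρ1 : ρ ≤ 3 / 5) (ha : 1 / β ≤ a)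
    (hw : w = Real.sqrt (2 * Real.pi * β)) :
    3 * Real.sqrt (2 * Real.pi) * (ρ / β * (1 / 20)) / (a ^ 2 * Real.sqrt a) ≤ 1 / 100 * w ∧
    15 / 2 * Real.sqrt (2 * Real.pi) * (ρ / β * (21 / 100)) ^ 2 /
      ((37 / 50 * a) ^ 3 * Real.sqrt (37 / 50 * a)) ≤ 3 / 100 * w ∧
    2 * (Real.exp (-(a / 2) * 1 ^ 2) / (a * 1)) ≤ 1 / 1000 * w := by
  have hpi := Real.pi_pos
  have hpi3 := Real.pi_gt_three
  have hh : 50 / 3 ≤ 1 / β := by rw [le_div_iff₀ hβ]; linarith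
  have ha0 : 0 < a := by linarith
  have hw0 : 0 < w := by rw [hw]; exact Real.sqrt_pos.2 (by positivity)
  have hw2 : w ^ 2 = 2 * Real.pi * β := by rw [hw]; exact Real.sq_sqrt (by positivity)
  have hβw : β ≤ w / 10 := by
    have h1 : β ^ 2 ≤ (w / 10) ^ 2 := by rw [div_pow, hw2]; nlinarith
    exact (sq_le_sq₀ hβ.le (by positivity)).1 h1
  -- the error terms
  have hexp : Real.exp (-(1 / 2) * (1 / β)) ≤ 1 / 400 := by
    refine le_trans (Real.exp_le_exp.2 ?_) exp_neg_six_le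
    nlinarith
  have hsq2pi : Real.sqrt (2 * Real.pi) * Real.sqrt β = w := by
    rw [hw, ← Real.sqrt_mul (by positivity)]
  have hsqb : 0 < Real.sqrt β := Real.sqrt_pos.2 hβ
  have hsqb2 : Real.sqrt β ^ 2 = β := Real.sq_sqrt hβ.le
  have hsqL : 1 / Real.sqrt β ≤ Real.sqrt a := by
    have : Real.sqrt (1 / β) ≤ Real.sqrt a := Real.sqrt_le_sqrt ha
    rwa [Real.sqrt_div zero_le_one, Real.sqrt_one] at this
  have herr1 : 3 * Real.sqrt (2 * Real.pi) * (ρ / β * (1 / 20)) / (a ^ 2 * Real.sqrt a) ≤ 1 / 100 * w := by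
    have h1 : (1 / β) ^ 2 * (1 / Real.sqrt β) ≤ a ^ 2 * Real.sqrt a :=
      mul_le_mul (pow_le_pow_left₀ (by positivity) ha 2) hsqL (by positivity) (by positivity)
    have h2 : 3 * Real.sqrt (2 * Real.pi) * (ρ / β * (1 / 20)) ≤
        3 * Real.sqrt (2 * Real.pi) * (3 / 5 / β * (1 / 20)) := by gcongr
    have h3 : 3 * Real.sqrt (2 * Real.pi) * (ρ / β * (1 / 20)) / (a ^ 2 * Real.sqrt a) ≤
        3 * Real.sqrt (2 * Real.pi) * (3 / 5 / β * (1 / 20)) / ((1 / β) ^ 2 * (1 / Real.sqrt β)) := by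
      refine div_le_div₀ (by positivity) h2 (by positivity) h1
    refine h3.trans ?_
    have e1 : 3 * Real.sqrt (2 * Real.pi) * (3 / 5 / β * (1 / 20)) / ((1 / β) ^ 2 * (1 / Real.sqrt β)) =
        9 / 100 * β * (Real.sqrt (2 * Real.pi) * Real.sqrt β) := by
      field_simp
      ring
    rw [e1, hsq2pi]
    nlinarith
  have herr2 : 15 / 2 * Real.sqrt (2 * Real.pi) * (ρ / β * (21 / 100)) ^ 2 /
      ((37 / 50 * a) ^ 3 * Real.sqrt (37 / 50 * a)) ≤ 3 / 100 * w := by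
    have hs3 : 43 / 50 * (1 / Real.sqrt β) ≤ Real.sqrt (37 / 50 * a) := by
      have h1 : 43 / 50 * (1 / Real.sqrt β) = Real.sqrt ((43 / 50) ^ 2 * (1 / β)) := by
        rw [Real.sqrt_mul (by norm_num), Real.sqrt_sq (by norm_num), Real.sqrt_div zero_le_one, Real.sqrt_one]
      rw [h1]
      apply Real.sqrt_le_sqrt
      have : (43 / 50 : ℝ) ^ 2 * (1 / β) ≤ 37 / 50 * (1 / β) :=
        mul_le_mul_of_nonneg_right (by norm_num) (by positivity)
      nlinarith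
    have h1 : (37 / 50 * (1 / β)) ^ 3 * (43 / 50 * (1 / Real.sqrt β)) ≤
        (37 / 50 * a) ^ 3 * Real.sqrt (37 / 50 * a) :=
      mul_le_mul (pow_le_pow_left₀ (by positivity) (by nlinarith) 3) hs3 (by positivity) (by positivity)
    have h2 : 15 / 2 * Real.sqrt (2 * Real.pi) * (ρ / β * (21 / 100)) ^ 2 ≤
        15 / 2 * Real.sqrt (2 * Real.pi) * (3 / 5 / β * (21 / 100)) ^ 2 := by gcongr
    have h3 : 15 / 2 * Real.sqrt (2 * Real.pi) * (ρ / β * (21 / 100)) ^ 2 /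
        ((37 / 50 * a) ^ 3 * Real.sqrt (37 / 50 * a)) ≤
        15 / 2 * Real.sqrt (2 * Real.pi) * (3 / 5 / β * (21 / 100)) ^ 2 /
        ((37 / 50 * (1 / β)) ^ 3 * (43 / 50 * (1 / Real.sqrt β))) := by
      refine div_le_div₀ (by positivity) h2 (by positivity) h1
    refine h3.trans ?_
    have e1 : 15 / 2 * Real.sqrt (2 * Real.pi) * (3 / 5 / β * (21 / 100)) ^ 2 /
        ((37 / 50 * (1 / β)) ^ 3 * (43 / 50 * (1 / Real.sqrt β))) =
        (15 / 2 * (3 / 5 * (21 / 100)) ^ 2 / ((37 / 50) ^ 3 * (43 / 50))) * β *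
          (Real.sqrt (2 * Real.pi) * Real.sqrt β) := by
      field_simp
    rw [e1, hsq2pi]
    have e2 : (15 / 2 * (3 / 5 * (21 / 100)) ^ 2 / ((37 / 50) ^ 3 * (43 / 50)) : ℝ) ≤ 1 / 2 := by norm_num
    have h4 : (15 / 2 * (3 / 5 * (21 / 100)) ^ 2 / ((37 / 50) ^ 3 * (43 / 50))) * β ≤ 1 / 2 * (3 / 50) := by
      have h5 : 0 ≤ (15 / 2 * (3 / 5 * (21 / 100)) ^ 2 / ((37 / 50) ^ 3 * (43 / 50)) : ℝ) := by positivity
      exact mul_le_mul e2 hβ1 hβ.le (by norm_num)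
    nlinarith
  have herr3 : 2 * (Real.exp (-(a / 2) * 1 ^ 2) / (a * 1)) ≤ 1 / 1000 * w := by
    have h1 : Real.exp (-(a / 2) * 1 ^ 2) ≤ 1 / 400 := by
      refine le_trans (Real.exp_le_exp.2 ?_) hexp
      linarith
    have h2 : Real.exp (-(a / 2) * 1 ^ 2) / (a * 1) ≤ 1 / 400 / (1 / β) := by
      refine div_le_div₀ (by norm_num) h1 (by positivity) (by linarith)
    have e1 : (1 / 400 / (1 / β) : ℝ) = β / 400 := by field_simp
    rw [e1] at h2
    linarith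
  exact ⟨herr1, herr2, herr3⟩

/-- **Lower bound of the left function.** -/
theorem R7_lower {β r t : ℝ} (hβ : 0 < β) (hr : 10 ≤ r) (hκ : β * r ≤ 3 / 5) (ht0 : 9 / 10 ≤ t)
    (ht1 : t ≤ Real.pi + β * r) : 1 / 2 * Real.exp (-r) ≤ ‖CC β r t‖ := by
  have hr0 : 0 < r := by linarith
  have hκ0 : 0 < β * r := mul_pos hβ hr0
  have hβ1 : β ≤ 3 / 50 := by nlinarith
  obtain ⟨φ, τ, hφ0, hφ1, hτ0, hτe, htφ⟩ := exists_saddle (t := t) hκ0 (by linarith) ht1
  obtain ⟨ρ, hρ⟩ : ∃ ρ : ℝ, ρ = β * r * Real.exp (-τ) := ⟨_, rfl⟩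
  have hρ0 : 0 < ρ := by rw [hρ]; positivity
  have hee : Real.exp (-τ) * Real.exp τ = 1 := by rw [← Real.exp_add]; simp
  have hρκ : ρ ≤ β * r := by
    rw [hρ]
    have : Real.exp (-τ) ≤ 1 := Real.exp_le_one_iff.2 (by linarith)
    nlinarith
  have hρ1 : ρ ≤ 3 / 5 := hρκ.trans hκ
  have hτρ : τ = ρ * Real.sin φ := by
    rw [hρ]
    calc τ = τ * Real.exp τ * Real.exp (-τ) := by rw [mul_assoc, mul_comm (Real.exp τ), hee, mul_one]
      _ = _ := by rw [hτe]; ring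
  obtain ⟨R, hR⟩ : ∃ R : ℝ, R = ρ * Real.cos φ := ⟨_, rfl⟩
  have htR : t = φ - R := by rw [htφ, hR, hρ]
  have hR1 : R ≤ ρ := by rw [hR]; nlinarith [Real.cos_le_one φ]
  have hR2 : -ρ ≤ R := by rw [hR]; nlinarith [Real.neg_one_le_cos φ]
  have hpi := Real.pi_pos
  have hpi3 := Real.pi_gt_three
  obtain ⟨x0, hx0⟩ : ∃ x0 : ℂ, x0 = (R : ℂ) + (τ : ℂ) * I := ⟨_, rfl⟩
  have hx0' : x0 = ρ * cexp (φ * I) := by
    rw [hx0, hR, hτρ, Complex.exp_mul_I, ← Complex.ofReal_cos, ← Complex.ofReal_sin]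
    have : (ρ * Real.sin φ : ℝ) = τ := hτρ.symm
    rw [this, hτρ]
    push_cast
    ring
  have hnx0 : ‖x0‖ = ρ := by
    rw [hx0', norm_mul, Complex.norm_exp_ofReal_mul_I, mul_one, Complex.norm_real, Real.norm_of_nonneg hρ0.le]
  obtain ⟨z, hz⟩ : ∃ z : ℂ, z = r * cexp (I * (t + β / 2)) := ⟨_, rfl⟩
  have hsad : x0 = β * (z * cexp (-(I * β / 2)) * cexp (I * x0)) := by
    have e1 : z * cexp (-(I * β / 2)) * cexp (I * x0) = r * (cexp (-τ) * cexp (φ * I)) := by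
      rw [hz, mul_assoc, mul_assoc, ← Complex.exp_add, ← Complex.exp_add, ← Complex.exp_add]
      congr 2
      rw [hx0, htR]
      push_cast
      linear_combination (τ : ℂ) * Complex.I_sq
    rw [e1]
    nth_rewrite 1 [hx0']
    rw [hρ]
    push_cast
    ring
  have hgs : ∀ u : ℂ, gs β r t (φ + τ * I + u) = GG β z (x0 + u) := by
    intro u
    rw [gs_eq_GG, ← hz]
    congr 1
    rw [hx0, htR]
    push_cast
    ring
  obtain ⟨N0, hN0⟩ : ∃ N0 : ℝ, N0 = ‖GG β z x0‖ := ⟨_, rfl⟩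
  have hN0r : Real.exp (-r) ≤ N0 := by
    rw [hN0, GG_saddle_value hβ.ne' hsad, Complex.norm_exp]
    apply Real.exp_le_exp.2
    have e1 : ((x0 - I * x0 ^ 2 / 2) / (β : ℂ)).re = R * (1 + τ) / β := by
      have e2 : (x0 - I * x0 ^ 2 / 2) / (β : ℂ) =
          ((R * (1 + τ) / β : ℝ) : ℂ) + (((τ - (R ^ 2 - τ ^ 2) / 2) / β : ℝ) : ℂ) * I := by
        have hβ' : (β : ℂ) ≠ 0 := by exact_mod_cast hβ.ne'
        rw [hx0]
        push_cast
        field_simp
        linear_combination (-2 * (R : ℂ) * τ - I * τ ^ 2) * Complex.I_sq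
      rw [e2, Complex.add_re, Complex.ofReal_re, Complex.re_ofReal_mul]
      simp
    rw [e1, le_div_iff₀ hβ]
    have h1 : 1 + τ ≤ Real.exp τ := by linarith [Real.add_one_le_exp τ]
    have h2 : ρ * (1 + τ) ≤ β * r := by
      have : ρ * (1 + τ) ≤ ρ * Real.exp τ := mul_le_mul_of_nonneg_left h1 hρ0.le
      have e3 : ρ * Real.exp τ = β * r := by rw [hρ, mul_assoc, hee, mul_one]
      linarith
    nlinarith
  have hN0p : 0 < N0 := lt_of_lt_of_le (Real.exp_pos _) hN0r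
  -- the direction
  obtain ⟨q, hq⟩ : ∃ q : ℝ, q = Real.sqrt 2 / 2 := ⟨_, rfl⟩
  have hs2 : Real.sqrt 2 ^ 2 = 2 := Real.sq_sqrt (by norm_num)
  have hq1 : 707 / 1000 ≤ q := by
    have : Real.sqrt (1.414 ^ 2) ≤ Real.sqrt 2 := Real.sqrt_le_sqrt (by norm_num)
    rw [Real.sqrt_sq (by norm_num)] at this
    rw [hq]; linarith
  have hq2 : q ≤ 708 / 1000 := by
    have : Real.sqrt 2 ≤ Real.sqrt (1.416 ^ 2) := Real.sqrt_le_sqrt (by norm_num)
    rw [Real.sqrt_sq (by norm_num)] at this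
    rw [hq]; linarith
  obtain ⟨e, he⟩ : ∃ e : ℂ, e = cexp (((-(Real.pi / 4) : ℝ) : ℂ) * I) := ⟨_, rfl⟩
  have heq : e = (q : ℂ) - (q : ℂ) * I := by
    rw [he, Complex.exp_mul_I, ← Complex.ofReal_cos, ← Complex.ofReal_sin, Real.cos_neg, Real.sin_neg,
      Real.cos_pi_div_four, Real.sin_pi_div_four, hq]
    push_cast
    ring
  have hne : ‖e‖ = 1 := by rw [he]; exact Complex.norm_exp_ofReal_mul_I _
  obtain ⟨Λ, hΛ⟩ : ∃ Λ : ℂ, Λ = (I + x0) / β * cexp (2 * ((-(Real.pi / 4) : ℝ) : ℂ) * I) := ⟨_, rfl⟩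
  have hΛ2 : Λ = (((1 + τ) / β : ℝ) : ℂ) + ((-(R / β) : ℝ) : ℂ) * I := by
    have e2 : cexp (2 * ((-(Real.pi / 4) : ℝ) : ℂ) * I) = -I := by
      have : 2 * ((-(Real.pi / 4) : ℝ) : ℂ) * I = -((Real.pi / 2 : ℝ) : ℂ) * I := by push_cast; ring
      rw [this, neg_mul, Complex.exp_neg, Complex.exp_mul_I, ← Complex.ofReal_cos, ← Complex.ofReal_sin]
      simp
    rw [hΛ, e2, hx0]
    have hβ' : (β : ℂ) ≠ 0 := by exact_mod_cast hβ.ne'
    push_cast
    field_simp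
    linear_combination (-1 - (τ : ℂ)) * Complex.I_sq
  have hΛre : Λ.re = (1 + τ) / β := by
    rw [hΛ2, Complex.add_re, Complex.ofReal_re, Complex.re_ofReal_mul]; simp
  have hΛre1 : 1 / β ≤ Λ.re := by
    rw [hΛre]; exact div_le_div_of_nonneg_right (by linarith) hβ.le
  have hh : 50 / 3 ≤ 1 / β := by rw [le_div_iff₀ hβ]; linarith
  have hΛpos : 0 < Λ.re := by linarith
  have hΛn : ‖Λ‖ ≤ 8 / 5 / β := by
    rw [hΛ, norm_mul, norm_div, Complex.norm_real, Real.norm_of_nonneg hβ.le]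
    have e3 : ‖cexp (2 * ((-(Real.pi / 4) : ℝ) : ℂ) * I)‖ = 1 := by
      have : 2 * ((-(Real.pi / 4) : ℝ) : ℂ) * I = ((2 * -(Real.pi / 4) : ℝ) : ℂ) * I := by push_cast; ring
      rw [this]; exact Complex.norm_exp_ofReal_mul_I _
    rw [e3, mul_one]
    apply div_le_div_of_nonneg_right _ hβ.le
    calc ‖I + x0‖ ≤ ‖I‖ + ‖x0‖ := norm_add_le _ _
      _ ≤ 1 + 3 / 5 := by rw [Complex.norm_I, hnx0]; linarith
      _ = 8 / 5 := by norm_num
  have hre := hre_of (x0 := x0) (β := β) (γ := -(Real.pi / 4)) (T := 1) (φ3 := 21 / 100) (φ4 := 1 / 20)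
    (c := 37 / 50) (a := Λ.re) hβ segBd_45 (by norm_num) (by
      rw [hnx0]
      have h1 : 2 * (ρ / β) * (21 / 100) * 1 = (2 * ρ * (21 / 100)) * (1 / β) := by ring
      rw [h1]
      have h2 : (2 * ρ * (21 / 100)) * (1 / β) ≤ (1 - 37 / 50) * (1 / β) :=
        mul_le_mul_of_nonneg_right (by linarith) (by positivity)
      have h3 : (1 - 37 / 50) * (1 / β) ≤ (1 - 37 / 50) * Λ.re := mul_le_mul_of_nonneg_left hΛre1 (by norm_num)
      linarith)
  have hval := sad_value (x0 := x0) (β := β) (γ := -(Real.pi / 4)) (T := 1) (φ3 := 21 / 100) (φ4 := 1 / 20)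
    (c := 37 / 50) (Λ := Λ) hβ hΛ hΛpos (by norm_num) (by norm_num) one_pos (by norm_num) segBd_45
    (fun s hs => by
      have := hre s hs
      exact this)
  rw [hnx0] at hval
  obtain ⟨J, hJ⟩ : ∃ J : ℂ, J = ∫ s in (-(1 : ℝ))..1, cexp (Psi x0 (s * cexp (((-(Real.pi / 4) : ℝ) : ℂ) * I)) / β) := ⟨_, rfl⟩
  rw [← hJ] at hval
  -- the main term
  obtain ⟨w, hw⟩ : ∃ w : ℝ, w = Real.sqrt (2 * Real.pi * β) := ⟨_, rfl⟩
  have hw0 : 0 < w := by rw [hw]; exact Real.sqrt_pos.2 (by positivity)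
  have hw2 : w ^ 2 = 2 * Real.pi * β := by rw [hw]; exact Real.sq_sqrt (by positivity)
  have hβw : β ≤ w / 10 := by
    have h1 : β ^ 2 ≤ (w / 10) ^ 2 := by rw [div_pow, hw2]; nlinarith
    exact (sq_le_sq₀ hβ.le (by positivity)).1 h1
  have hmain : 79 / 100 * w ≤ ‖(2 * (Real.pi : ℂ) / Λ) ^ (1 / 2 : ℂ)‖ := by
    have e1 : (1 / 2 : ℂ) = ((1 / 2 : ℝ) : ℂ) := by push_cast; ring
    have e2 : ‖(2 * (Real.pi : ℂ) / Λ)‖ = 2 * Real.pi / ‖Λ‖ := by
      rw [norm_div, norm_mul, Complex.norm_real, Real.norm_of_nonneg hpi.le]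
      simp
    have hΛn0 : 0 < ‖Λ‖ := lt_of_lt_of_le hΛpos (Complex.re_le_norm Λ)
    rw [e1, Complex.norm_cpow_real, e2, ← Real.sqrt_eq_rpow]
    have h3 : (79 / 100 * w) ^ 2 ≤ 2 * Real.pi / ‖Λ‖ := by
      rw [le_div_iff₀ hΛn0, mul_pow, hw2]
      have h4 : β * ‖Λ‖ ≤ 8 / 5 := by
        have := mul_le_mul_of_nonneg_left hΛn hβ.le
        have e5 : β * (8 / 5 / β) = 8 / 5 := by field_simp
        linarith
      have h5 : Real.pi * (β * ‖Λ‖) ≤ Real.pi * (8 / 5) := mul_le_mul_of_nonneg_left h4 hpi.le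
      nlinarith
    calc 79 / 100 * w = Real.sqrt ((79 / 100 * w) ^ 2) := (Real.sqrt_sq (by positivity)).symm
      _ ≤ _ := Real.sqrt_le_sqrt h3
  obtain ⟨herr1, herr2, herr3⟩ := R7_err hβ hβ1 hρ0 hρ1 hΛre1 hw
  have hJ1 : 74 / 100 * w ≤ ‖J‖ := by
    have h1 := norm_sub_norm_le ((2 * (Real.pi : ℂ) / Λ) ^ (1 / 2 : ℂ)) J
    rw [norm_sub_rev] at h1
    linarith
  -- the primitive
  obtain ⟨P, hP⟩ := exists_prim (gs_diff β r t)
  obtain ⟨V, lL, lR, hV, -⟩ := exists_vals hβ hr0 hP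
  have hC := hV.CC0 hβ hr0 hP
  obtain ⟨s0, hs0⟩ : ∃ s0 : ℂ, s0 = φ + τ * I := ⟨_, rfl⟩
  have hseg := prim_seg (gs_diff β r t) hP s0 e (-1) 1
  have hsegn : ‖P (s0 + ((1 : ℝ) : ℂ) * e) - P (s0 + ((-1 : ℝ) : ℂ) * e)‖ = N0 * ‖J‖ := by
    rw [← hseg, norm_mul, hne, one_mul]
    have h1 : (∫ σ in (-(1 : ℝ))..1, gs β r t (s0 + σ * e)) = GG β z x0 * J := by
      rw [hJ, ← intervalIntegral.integral_const_mul]
      refine intervalIntegral.integral_congr (fun σ _ => ?_)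
      show gs β r t (s0 + σ * e) = _
      rw [hs0, hgs, GG_saddle hβ.ne' hsad, he]
    rw [h1, norm_mul, hN0]
  have hend : ∀ s : ℝ, |s| = 1 → ‖gs β r t (s0 + s * e)‖ ≤ N0 / 400 := by
    intro s hs
    rw [hs0, hgs, GG_saddle hβ.ne' hsad, norm_mul, ← hN0, he, Psi_line x0 hβ.ne']
    have h1 : ‖cexp (-(((I + x0) / β * cexp (2 * ((-(Real.pi / 4) : ℝ) : ℂ) * I)) / 2) * (s : ℂ) ^ 2 +
        Rm x0 β (s * cexp (((-(Real.pi / 4) : ℝ) : ℂ) * I)))‖ ≤ 1 / 400 := by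
      rw [Complex.norm_exp]
      refine le_trans (Real.exp_le_exp.2 ?_) exp_neg_six_le
      rw [← hΛ]
      have h2 : (s : ℂ) ^ 2 = 1 := by
        have : s ^ 2 = 1 := by rw [← sq_abs, hs]; norm_num
        exact_mod_cast this
      rw [h2, mul_one, Complex.add_re]
      have h3 : (-(Λ / 2)).re = -(Λ.re / 2) := by simp
      rw [h3]
      have h4 : ‖Rm x0 β (s * cexp (((-(Real.pi / 4) : ℝ) : ℂ) * I))‖ ≤ ρ / β * (21 / 100) := by
        unfold Rm
        have h0 : ‖x0 / (β : ℂ)‖ = ρ / β := by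
          rw [norm_div, Complex.norm_real, Real.norm_eq_abs, abs_of_pos hβ, hnx0]
        rw [norm_mul, h0]
        have h5 := (segBd_45 s (le_of_eq hs)).1
        rw [hs] at h5
        refine mul_le_mul_of_nonneg_left ?_ (by positivity)
        linarith
      have h6 := (Complex.re_le_norm (Rm x0 β (s * cexp (((-(Real.pi / 4) : ℝ) : ℂ) * I)))).trans h4
      have h7 : ρ / β * (21 / 100) ≤ 3 / 5 * (1 / β) * (21 / 100) := by
        have : ρ / β = ρ * (1 / β) := by ring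
        rw [this]
        have h8 : ρ * (1 / β) ≤ 3 / 5 * (1 / β) := mul_le_mul_of_nonneg_right hρ1 (by positivity)
        linarith
      linarith
    calc N0 * _ ≤ N0 * (1 / 400) := mul_le_mul_of_nonneg_left h1 hN0p.le
      _ = N0 / 400 := by ring
  -- right end
  have hφle : t ≤ Real.pi / 2 → t ≤ φ := by
    intro h
    by_contra hc
    push Not at hc
    have : 0 < Real.cos φ := Real.cos_pos_of_mem_Ioo ⟨by linarith, by linarith⟩
    have h2 : 0 < R := by rw [hR]; positivity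
    linarith
  have hS1lo : Real.pi / 2 < φ + q := by
    rcases le_or_gt t (Real.pi / 2) with h | h
    · have := hφle h
      have hpi4 : Real.pi < 3.1416 := Real.pi_lt_d4
      linarith
    · by_contra hc
      push Not at hc
      have : 0 < Real.cos φ := Real.cos_pos_of_mem_Ioo ⟨by linarith, by linarith⟩
      have h2 : 0 < R := by rw [hR]; positivity
      linarith
  have hS1hi : φ + q < 3 * Real.pi / 2 := by linarith
  have hS1t : 1 / 10 ≤ φ + q - t := by linarith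
  have hInV : InV t 0 (φ + q) := by
    have e1 : (2 * ((0 : ℤ) : ℝ) + 1) * Real.pi = Real.pi := by push_cast; ring
    refine ⟨?_, Or.inl ?_⟩ <;> rw [e1]
    · exact abs_le.2 ⟨by linarith, by linarith⟩
    · exact abs_lt.2 ⟨by linarith, by linarith⟩
  have hcosS1 : Real.cos (φ + q) ≤ 0 := by
    apply Real.cos_nonpos_of_pi_div_two_le_of_le hS1lo.le
    linarith
  have e1 : s0 + ((1 : ℝ) : ℂ) * e = ((φ + q : ℝ) : ℂ) + ((τ - q : ℝ) : ℂ) * I := by
    rw [hs0, heq]; push_cast; ring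
  have e2 : s0 + ((-1 : ℝ) : ℂ) * e = ((φ - q : ℝ) : ℂ) + ((τ + q : ℝ) : ℂ) * I := by
    rw [hs0, heq]; push_cast; ring
  have hdown := leg_down_le (Y1 := τ - q) hβ hr0 hP hV hInV (by linarith) hcosS1
  have hd2 : ‖P (s0 + ((1 : ℝ) : ℂ) * e) - V 0‖ ≤ 1 / 400 * (N0 * w) := by
    rw [e1]
    refine hdown.trans ?_
    have h1 := hend 1 (by norm_num)
    rw [e1] at h1
    have h2 : β / (φ + q - t) ≤ w := by
      rw [div_le_iff₀ (by linarith)]
      nlinarith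
    have h3 : 0 ≤ β / (φ + q - t) := div_nonneg hβ.le (by linarith)
    calc _ ≤ N0 / 400 * w := mul_le_mul h1 h2 h3 (by positivity)
      _ = _ := by ring
  have hup := leg_up_le (S := φ - q) (Y1 := τ + q) (ρ := 1 / 10) hβ hr0.le hP hV (by linarith) (by norm_num) (by
    have hE : Real.exp (-(τ + q)) ≤ 1 / 2 := by
      have h1 : Real.exp (-(τ + q)) ≤ Real.exp (-q) := Real.exp_le_exp.2 (by linarith)
      have h4 : (2 : ℝ) ≤ Real.exp q := by
        have h5 : (2 : ℝ) ≤ Real.exp (707 / 1000) := by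
          have h6 := Real.sum_le_exp_of_nonneg (x := 707 / 1000) (by norm_num) 5
          simp only [Finset.sum_range_succ, Finset.sum_range_zero, Nat.factorial] at h6
          norm_num at h6
          linarith
        exact h5.trans (Real.exp_le_exp.2 hq1)
      have h7 : (Real.exp q)⁻¹ ≤ (2 : ℝ)⁻¹ := inv_anti₀ (by norm_num) h4
      have h8 : Real.exp (-q) = (Real.exp q)⁻¹ := Real.exp_neg q
      linarith
    rcases le_total 0 (Real.cos (φ - q)) with h | h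
    · rw [max_eq_left (by linarith)]
      linarith
    · rw [max_eq_right (by linarith)]
      have h1 : Real.pi / 2 ≤ φ - q := by
        by_contra hc
        push Not at hc
        have : 0 < Real.cos (φ - q) := Real.cos_pos_of_mem_Ioo ⟨by linarith, by linarith⟩
        linarith
      have h2 : Real.cos φ ≤ 0 := Real.cos_nonpos_of_pi_div_two_le_of_le (by linarith) (by linarith)
      have h3 : R ≤ 0 := by rw [hR]; exact mul_nonpos_of_nonneg_of_nonpos hρ0.le h2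
      have h4 := Real.neg_one_le_cos (φ - q)
      have h5 : β * r * -Real.cos (φ - q) ≤ 3 / 5 := by nlinarith
      have h6 : β * r * -Real.cos (φ - q) * Real.exp (-(τ + q)) ≤ 3 / 5 * (1 / 2) :=
        mul_le_mul h5 hE (Real.exp_pos _).le (by norm_num)
      linarith)
  have hu2 : ‖P (s0 + ((-1 : ℝ) : ℂ) * e) - lL‖ ≤ 1 / 400 * (N0 * w) := by
    rw [e2]
    refine hup.trans ?_
    have h1 := hend (-1) (by norm_num)
    rw [e2] at h1
    have h2 : β / (1 / 10) ≤ w := by linarith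
    calc _ ≤ N0 / 400 * w := mul_le_mul h1 h2 (by positivity) (by positivity)
      _ = _ := by ring
  have hfin : 1 / 2 * (N0 * w) ≤ ‖V 0 - lL‖ := by
    have h1 : P (s0 + ((1 : ℝ) : ℂ) * e) - P (s0 + ((-1 : ℝ) : ℂ) * e) =
        (V 0 - lL) + (P (s0 + ((1 : ℝ) : ℂ) * e) - V 0) - (P (s0 + ((-1 : ℝ) : ℂ) * e) - lL) := by ring
    have h2 : ‖P (s0 + ((1 : ℝ) : ℂ) * e) - P (s0 + ((-1 : ℝ) : ℂ) * e)‖ ≤
        ‖V 0 - lL‖ + ‖P (s0 + ((1 : ℝ) : ℂ) * e) - V 0‖ + ‖P (s0 + ((-1 : ℝ) : ℂ) * e) - lL‖ := by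
      rw [h1]
      refine (norm_sub_le _ _).trans ?_
      have := norm_add_le (V 0 - lL) (P (s0 + ((1 : ℝ) : ℂ) * e) - V 0)
      linarith
    rw [hsegn] at h2
    have h3 : N0 * (74 / 100 * w) ≤ N0 * ‖J‖ := mul_le_mul_of_nonneg_left hJ1 hN0p.le
    have h4 : 0 < N0 * w := mul_pos hN0p hw0
    nlinarith
  rw [hC, norm_mul, norm_cF, ← hw] at hfin
  have h1 : w * (1 / 2 * N0) ≤ w * ‖CC β r t‖ := by linarith
  have h2 := le_of_mul_le_mul_left h1 hw0
  linarith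

end Sok
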