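import Pool.Agent.Lib.MP_816dec_an.A0Val
import Pool.Agent.Lib.MP_816dec_an.R7C

/-!
MP_816dec_an, b = 1, row A1-K7 (second half): `‖F - C‖ ≤ (2/5) e^{-r}` for `t ≤ π + κ`, `1/3 ≤ κ ≤ 3/5`.
-/

set_option autoImplicit false

open Complex Set Filter Topology MeasureTheory

namespace Sok

open W

theorem exp_136_le : Real.exp (34 / 25) ≤ 39 / 10 := by
  have h1 : Real.exp (34 / 25) = Real.exp (17 / 25) ^ 2 := by rw [← Real.exp_nat_mul]; norm_num
  have h2 : Real.exp (17 / 25) ≤ 1.974 := by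
    have h := Real.exp_bound' (x := 17 / 25) (n := 8) (by norm_num) (by norm_num) (by norm_num)
    simp only [Finset.sum_range_succ, Finset.sum_range_zero, Nat.factorial] at h
    norm_num at h ⊢
    linarith
  rw [h1]
  calc Real.exp (17 / 25) ^ 2 ≤ 1.974 ^ 2 := pow_le_pow_left₀ (Real.exp_pos _).le h2 2
    _ ≤ _ := by norm_num

theorem le_exp_136 : 389 / 100 ≤ Real.exp (34 / 25) := by
  have h1 : Real.exp (34 / 25) = Real.exp (17 / 25) ^ 2 := by rw [← Real.exp_nat_mul]; norm_num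
  have h2 : 1.9735 ≤ Real.exp (17 / 25) := by
    have h := Real.sum_le_exp_of_nonneg (x := 17 / 25) (by norm_num) 8
    simp only [Finset.sum_range_succ, Finset.sum_range_zero, Nat.factorial] at h
    norm_num at h ⊢
    linarith
  rw [h1]
  calc (389 / 100 : ℝ) ≤ 1.9735 ^ 2 := by norm_num
    _ ≤ _ := pow_le_pow_left₀ (by norm_num) h2 2

theorem caseA {κ u E : ℝ} (hκ0 : 1 / 3 ≤ κ) (hκ1 : κ ≤ 3 / 5) (hu0 : 0 ≤ u) (hu1 : u ≤ Real.pi / 2)
    (hE : 389 / 100 ≤ E) : 346 / 100 * κ - κ * E * Real.cos u - 34 / 25 * u ≤ 0 := by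
  have hpi := Real.pi_gt_d2
  have hpi0 := Real.pi_pos
  have hpi4 := Real.pi_lt_d2
  have h1 : 1 - 2 / Real.pi * u ≤ Real.cos u := by
    have h2 := Real.mul_le_sin (x := Real.pi / 2 - u) (by linarith) (by linarith)
    rw [Real.sin_pi_div_two_sub] at h2
    have e1 : 2 / Real.pi * (Real.pi / 2 - u) = 1 - 2 / Real.pi * u := by field_simp
    linarith
  have h3 : 2 / Real.pi ≤ 64 / 100 := by
    rw [div_le_iff₀ hpi0]; nlinarith
  have h4 : 1 - 64 / 100 * u ≤ Real.cos u := by nlinarith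
  have hc0 : 0 ≤ Real.cos u := Real.cos_nonneg_of_mem_Icc ⟨by linarith, hu1⟩
  have h5 : κ * (389 / 100) * Real.cos u ≤ κ * E * Real.cos u := by
    apply mul_le_mul_of_nonneg_right _ hc0
    nlinarith
  have h6 : κ * (389 / 100) * (1 - 64 / 100 * u) ≤ κ * (389 / 100) * Real.cos u := by
    apply mul_le_mul_of_nonneg_left h4
    positivity
  nlinarith

theorem caseB {κ v E : ℝ} (hκ0 : 1 / 3 ≤ κ) (hκ1 : κ ≤ 3 / 5) (hv0 : -(Real.pi / 2) ≤ v) (hv1 : v ≤ 1)
    (hE : E ≤ 39 / 10) (hE0 : 0 ≤ E) : -(34 / 25) * (v + Real.pi) + 59 / 25 * κ + κ * E * Real.cos v ≤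
      -(6 / 100) - 7 / 10 * (v + 65 / 100) ^ 2 := by
  have hpi := Real.pi_gt_d4
  have hpi4 := Real.pi_lt_d4
  have hc0 : 0 ≤ Real.cos v := Real.cos_nonneg_of_mem_Icc ⟨hv0, by linarith⟩
  have h1 : κ * E ≤ 3 / 5 * (39 / 10) := mul_le_mul hκ1 hE hE0 (by norm_num)
  have h2 : κ * E * Real.cos v ≤ 3 / 5 * (39 / 10) * Real.cos v := mul_le_mul_of_nonneg_right h1 hc0
  rcases le_total (-1) v with h | h
  · have h3 := abs_le.1 (Real.cos_bound (x := v) (abs_le.2 ⟨h, hv1⟩))
    have h4 : |v| ^ 4 ≤ v ^ 2 := by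
      have h5 : |v| ^ 4 = v ^ 2 * v ^ 2 := by
        rw [show (4 : ℕ) = 2 + 2 by norm_num, pow_add, sq_abs]
      have h6 : v ^ 2 ≤ 1 := by nlinarith
      rw [h5]
      nlinarith [sq_nonneg v]
    have h7 : Real.cos v ≤ 1 - v ^ 2 / 2 + v ^ 2 * (5 / 96) := by linarith [h3.2]
    nlinarith [sq_nonneg (v + 646 / 1000)]
  · have h3 : Real.cos v ≤ v + Real.pi / 2 := by
      have h4 : Real.cos v = Real.sin (v + Real.pi / 2) := by rw [Real.sin_add_pi_div_two]
      rw [h4]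
      exact Real.sin_le (by linarith)
    nlinarith

theorem caseC {κ v E : ℝ} (hκ0 : 1 / 3 ≤ κ) (hκ1 : κ ≤ 3 / 5) (hv1 : 1 ≤ v)
    (hE : E ≤ 39 / 10) (hE0 : 0 ≤ E) : -(34 / 25) * (v + Real.pi) + 59 / 25 * κ + κ * E * Real.cos v ≤
      -(12 / 10) - 1 / 10 * v := by
  have hpi := Real.pi_gt_d4
  have h1 : κ * E ≤ 3 / 5 * (39 / 10) := mul_le_mul hκ1 hE hE0 (by norm_num)
  have h0 : 0 ≤ κ * E := mul_nonneg (by linarith) hE0
  have h2 : κ * E * Real.cos v ≤ 3 / 5 * (39 / 10) := by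
    have := Real.cos_le_one v
    nlinarith
  nlinarith

/-- pointwise bound on the line `Im s = -34/25` -/
theorem R7_pointwise {β r t X : ℝ} (hβ : 0 < β) (hr : 10 ≤ r) (hκ0 : 1 / 3 ≤ β * r) (hκ1 : β * r ≤ 3 / 5)
    (ht : t ≤ Real.pi + β * r) (hX : Real.pi < X) :
    Real.exp ((X - t) * (-(34 / 25)) / β + r * Real.cos X * Real.exp (34 / 25)) ≤
      Real.exp (-r + (2 - 11 / 10 * r - (X - Real.pi))) +
      Real.exp (-r + (1 / β) * (-(6 / 100) - 7 / 10 * (X - 2 * Real.pi + 65 / 100) ^ 2)) +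
      Real.exp (-r + (1 / β) * (-(12 / 10) - 1 / 10 * (X - 2 * Real.pi))) := by
  obtain ⟨E, hE⟩ : ∃ E : ℝ, E = Real.exp (34 / 25) := ⟨_, rfl⟩
  have hE1 : E ≤ 39 / 10 := by rw [hE]; exact exp_136_le
  have hE2 : 389 / 100 ≤ E := by rw [hE]; exact le_exp_136
  rw [← hE]
  have hpi0 := Real.pi_pos
  have hpi := Real.pi_gt_d4
  have hpi4 := Real.pi_lt_d4
  have p1 := Real.exp_pos (-r + (2 - 11 / 10 * r - (X - Real.pi)))
  have p2 := Real.exp_pos (-r + (1 / β) * (-(6 / 100) - 7 / 10 * (X - 2 * Real.pi + 65 / 100) ^ 2))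
  have p3 := Real.exp_pos (-r + (1 / β) * (-(12 / 10) - 1 / 10 * (X - 2 * Real.pi)))
  have hr0 : 0 < r := by linarith
  have hcos : Real.cos X = Real.cos (X - 2 * Real.pi) := (Real.cos_sub_two_pi X).symm
  have hcos2 : Real.cos X = -Real.cos (X - Real.pi) := by rw [Real.cos_sub_pi]; ring
  -- multiply everything by β
  have key : ∀ g : ℝ, -(34 / 25) * (X - Real.pi) + 59 / 25 * (β * r) + β * r * E * Real.cos X ≤ g →
      (X - t) * (-(34 / 25)) / β + r * Real.cos X * E ≤ -r + (1 / β) * g := by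
    intro g hg
    have e1 : (X - t) * (-(34 / 25)) / β + r * Real.cos X * E =
        (1 / β) * ((X - t) * (-(34 / 25)) + β * r * E * Real.cos X) := by field_simp
    have e2 : -r + (1 / β) * g = (1 / β) * (-(β * r) + g) := by field_simp
    rw [e1, e2]
    apply mul_le_mul_of_nonneg_left _ (by positivity)
    linarith
  rcases le_total X (3 * Real.pi / 2) with h | h
  · have h1 := caseA (κ := β * r) (u := X - Real.pi) (E := E) hκ0 hκ1 (by linarith) (by linarith) hE2
    have h2 := key (59 / 25 * (β * r) - 346 / 100 * (β * r)) (by rw [hcos2]; linarith)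
    have e3 : -r + (1 / β) * (59 / 25 * (β * r) - 346 / 100 * (β * r)) = -r + (-(11 / 10) * r) := by
      field_simp
      ring
    rw [e3] at h2
    have h3 : Real.exp ((X - t) * (-(34 / 25)) / β + r * Real.cos X * E) ≤
        Real.exp (-r + (2 - 11 / 10 * r - (X - Real.pi))) := by
      apply Real.exp_le_exp.2
      linarith
    linarith
  · rcases le_total X (2 * Real.pi + 1) with h' | h'
    · have h1 := caseB (κ := β * r) (v := X - 2 * Real.pi) (E := E) hκ0 hκ1 (by linarith) (by linarith) hE1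
        (by linarith)
      have h2 := key (-(6 / 100) - 7 / 10 * (X - 2 * Real.pi + 65 / 100) ^ 2) (by rw [hcos]; linarith)
      have h3 := Real.exp_le_exp.2 h2
      linarith
    · have h1 := caseC (κ := β * r) (v := X - 2 * Real.pi) (E := E) hκ0 hκ1 (by linarith) hE1
        (by linarith)
      have h2 := key (-(12 / 10) - 1 / 10 * (X - 2 * Real.pi)) (by rw [hcos]; linarith)
      have h3 := Real.exp_le_exp.2 h2
      linarith

theorem R7_upper {β r t : ℝ} (hβ : 0 < β) (hr : 10 ≤ r) (hκ0 : 1 / 3 ≤ β * r) (hκ1 : β * r ≤ 3 / 5)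
    (ht : t ≤ Real.pi + β * r) : ‖Ft β r t - CC β r t‖ ≤ 2 / 5 * Real.exp (-r) := by
  have hr0 : 0 < r := by linarith
  have hβ1 : β ≤ 3 / 50 := by nlinarith
  have hpi0 := Real.pi_pos
  have hpi := Real.pi_gt_d4
  have hpi4 := Real.pi_lt_d4
  have hh : 50 / 3 ≤ 1 / β := by rw [le_div_iff₀ hβ]; linarith
  obtain ⟨w, hw⟩ : ∃ w : ℝ, w = Real.sqrt (2 * Real.pi * β) := ⟨_, rfl⟩
  have hw0 : 0 < w := by rw [hw]; exact Real.sqrt_pos.2 (by positivity)
  have hw2 : w ^ 2 = 2 * Real.pi * β := by rw [hw]; exact Real.sq_sqrt (by positivity)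
  have hβw : β ≤ w / 10 := by
    have h1 : β ^ 2 ≤ (w / 10) ^ 2 := by rw [div_pow, hw2]; nlinarith
    exact (sq_le_sq₀ hβ.le (by positivity)).1 h1
  have hwr : 1 ≤ w * r := by
    have h1 : (1 : ℝ) ^ 2 ≤ (w * r) ^ 2 := by
      rw [mul_pow, hw2]
      have h2 : 2 * Real.pi * β * r ^ 2 = 2 * Real.pi * (β * r) * r := by ring
      rw [h2]
      have h3 : 2 ≤ 2 * Real.pi * (β * r) := by nlinarith
      nlinarith
    exact (sq_le_sq₀ (by norm_num) (by positivity)).1 h1
  obtain ⟨P, hP⟩ := exists_prim (gs_diff β r t)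
  obtain ⟨V, lL, lR, hV, hF⟩ := exists_vals hβ hr0 hP
  have hC := hV.CC0 hβ hr0 hP
  have hInV : InV t 0 Real.pi := by
    have := inV_center t 0
    simpa using this
  have hY0 : (((-(34 / 25) : ℝ) : ℂ)) = -(34 / 25) := by push_cast; ring
  have hright := hV.liner hβ hr0.le hP (Y := -(34 / 25)) (by norm_num) Real.pi
  have hleg := hV.leg hβ hr0 hP hInV (-(34 / 25))
  have heq : cF β * (Ft β r t - CC β r t) =
      (∫ X in Ioi Real.pi, gs β r t (X + ((-(34 / 25) : ℝ) : ℂ) * I)) +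
      I * ∫ Y in Iic (-(34 / 25) : ℝ), gs β r t ((Real.pi : ℝ) + Y * I) := by
    rw [hright, hleg, mul_sub, ← hC]
    have h1 : cF β * Ft β r t = lR - lL := by
      rw [hF, Ft, cF]
    rw [h1]
    ring
  -- the horizontal part
  have iA : IntegrableOn (fun X : ℝ => Real.exp (-r + (2 - 11 / 10 * r - (X - Real.pi)))) (Ioi Real.pi) := by
    have h1 := (exp_neg_integrableOn_Ioi Real.pi one_pos).const_mul (Real.exp (-r + (2 - 11 / 10 * r + Real.pi)))
    refine h1.congr (Filter.Eventually.of_forall fun X => ?_)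
    simp only
    rw [← Real.exp_add]
    congr 1
    ring
  have vA : ∫ X in Ioi Real.pi, Real.exp (-r + (2 - 11 / 10 * r - (X - Real.pi))) =
      Real.exp (-r) * Real.exp (2 - 11 / 10 * r) := by
    have h1 : ∀ X : ℝ, Real.exp (-r + (2 - 11 / 10 * r - (X - Real.pi))) =
        Real.exp (-r + (2 - 11 / 10 * r + Real.pi)) * Real.exp (-X) := by
      intro X; rw [← Real.exp_add]; congr 1; ring
    simp only [h1]
    rw [integral_const_mul, integral_exp_neg_Ioi, ← Real.exp_add, ← Real.exp_add]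
    congr 1
    ring
  have iB : Integrable (fun X : ℝ => Real.exp (-r + (1 / β) * (-(6 / 100) - 7 / 10 * (X - 2 * Real.pi + 65 / 100) ^ 2))) := by
    have h1 := ((integrable_exp_neg_mul_sq (b := 7 / 10 * (1 / β)) (by positivity)).comp_add_right
      (-(2 * Real.pi) + 65 / 100)).const_mul (Real.exp (-r + (1 / β) * (-(6 / 100))))
    refine h1.congr (Filter.Eventually.of_forall fun X => ?_)
    simp only
    rw [← Real.exp_add]
    congr 1
    ring
  have vB : ∫ X : ℝ, Real.exp (-r + (1 / β) * (-(6 / 100) - 7 / 10 * (X - 2 * Real.pi + 65 / 100) ^ 2)) =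
      Real.exp (-r) * Real.exp ((1 / β) * (-(6 / 100))) * Real.sqrt (Real.pi / (7 / 10 * (1 / β))) := by
    have h1 : ∀ X : ℝ, Real.exp (-r + (1 / β) * (-(6 / 100) - 7 / 10 * (X - 2 * Real.pi + 65 / 100) ^ 2)) =
        Real.exp (-r + (1 / β) * (-(6 / 100))) *
          (fun y : ℝ => Real.exp (-(7 / 10 * (1 / β)) * y ^ 2)) (X + (-(2 * Real.pi) + 65 / 100)) := by
      intro X; simp only; rw [← Real.exp_add]; congr 1; ring
    simp only [h1]
    rw [integral_const_mul]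
    have h2 := integral_add_right_eq_self (μ := volume) (fun y : ℝ => Real.exp (-(7 / 10 * (1 / β)) * y ^ 2))
      (-(2 * Real.pi) + 65 / 100)
    rw [h2, integral_gaussian, ← Real.exp_add]
  have iC : IntegrableOn (fun X : ℝ => Real.exp (-r + (1 / β) * (-(12 / 10) - 1 / 10 * (X - 2 * Real.pi)))) (Ioi Real.pi) := by
    have h1 := (exp_neg_integrableOn_Ioi Real.pi (b := 1 / 10 * (1 / β)) (by positivity)).const_mul
      (Real.exp (-r + (1 / β) * (-(12 / 10) + 1 / 5 * Real.pi)))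
    refine h1.congr (Filter.Eventually.of_forall fun X => ?_)
    simp only
    rw [← Real.exp_add]
    congr 1
    ring
  have vC : ∫ X in Ioi Real.pi, Real.exp (-r + (1 / β) * (-(12 / 10) - 1 / 10 * (X - 2 * Real.pi))) =
      Real.exp (-r) * Real.exp ((1 / β) * (-(12 / 10) + 1 / 10 * Real.pi)) * (10 * β) := by
    have h1 : ∀ X : ℝ, Real.exp (-r + (1 / β) * (-(12 / 10) - 1 / 10 * (X - 2 * Real.pi))) =
        Real.exp (-r + (1 / β) * (-(12 / 10) + 1 / 5 * Real.pi)) * Real.exp (-(1 / 10 * (1 / β)) * X) := by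
      intro X; rw [← Real.exp_add]; congr 1; ring
    simp only [h1]
    rw [integral_const_mul, integral_exp_mul_Ioi (by
      have : 0 < 1 / 10 * (1 / β) := by positivity
      linarith)]
    rw [mul_div_assoc', mul_neg, ← Real.exp_add, neg_div_neg_eq, ← Real.exp_add]
    have e1 : -r + 1 / β * (-(12 / 10) + 1 / 5 * Real.pi) + -(1 / 10 * (1 / β)) * Real.pi =
        -r + 1 / β * (-(12 / 10) + 1 / 10 * Real.pi) := by ring
    rw [e1]
    field_simp
  have hH : ‖∫ X in Ioi Real.pi, gs β r t (X + ((-(34 / 25) : ℝ) : ℂ) * I)‖ ≤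
      Real.exp (-r) * Real.exp (2 - 11 / 10 * r) +
      Real.exp (-r) * Real.exp ((1 / β) * (-(6 / 100))) * Real.sqrt (Real.pi / (7 / 10 * (1 / β))) +
      Real.exp (-r) * Real.exp ((1 / β) * (-(12 / 10) + 1 / 10 * Real.pi)) * (10 * β) := by
    refine (norm_integral_le_integral_norm _).trans ?_
    have h1 : ∫ X in Ioi Real.pi, ‖gs β r t (X + ((-(34 / 25) : ℝ) : ℂ) * I)‖ ≤ ∫ X in Ioi Real.pi,
        ((Real.exp (-r + (2 - 11 / 10 * r - (X - Real.pi))) +
      Real.exp (-r + (1 / β) * (-(6 / 100) - 7 / 10 * (X - 2 * Real.pi + 65 / 100) ^ 2))) +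
      Real.exp (-r + (1 / β) * (-(12 / 10) - 1 / 10 * (X - 2 * Real.pi)))) := by
      refine setIntegral_mono_on (gs_int_right hβ hr0.le (by norm_num) Real.pi).norm
        ((iA.add iB.integrableOn).add iC) measurableSet_Ioi ?_
      intro X hX
      rw [norm_gs, neg_neg]
      exact R7_pointwise hβ hr hκ0 hκ1 ht hX
    refine h1.trans ?_
    have eAB := integral_add (μ := volume.restrict (Ioi Real.pi)) iA iB.integrableOn
    have eABC : ∫ X in Ioi Real.pi,
        ((Real.exp (-r + (2 - 11 / 10 * r - (X - Real.pi))) +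
      Real.exp (-r + (1 / β) * (-(6 / 100) - 7 / 10 * (X - 2 * Real.pi + 65 / 100) ^ 2))) +
      Real.exp (-r + (1 / β) * (-(12 / 10) - 1 / 10 * (X - 2 * Real.pi)))) =
      (∫ X in Ioi Real.pi, (Real.exp (-r + (2 - 11 / 10 * r - (X - Real.pi))) +
      Real.exp (-r + (1 / β) * (-(6 / 100) - 7 / 10 * (X - 2 * Real.pi + 65 / 100) ^ 2)))) +
      ∫ X in Ioi Real.pi, Real.exp (-r + (1 / β) * (-(12 / 10) - 1 / 10 * (X - 2 * Real.pi))) :=
      integral_add (iA.add iB.integrableOn) iC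
    rw [eABC, eAB, vA, vC]
    have h2 : ∫ X in Ioi Real.pi, Real.exp (-r + (1 / β) * (-(6 / 100) - 7 / 10 * (X - 2 * Real.pi + 65 / 100) ^ 2)) ≤
        ∫ X : ℝ, Real.exp (-r + (1 / β) * (-(6 / 100) - 7 / 10 * (X - 2 * Real.pi + 65 / 100) ^ 2)) :=
      setIntegral_le_integral iB (Filter.Eventually.of_forall fun X => (Real.exp_pos _).le)
    rw [vB] at h2
    linarith
  -- the leg
  have hL : ‖I * ∫ Y in Iic (-(34 / 25) : ℝ), gs β r t ((Real.pi : ℝ) + Y * I)‖ ≤
      Real.exp (-r) * Real.exp (-(13 / 10) * r) := by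
    rw [norm_mul, Complex.norm_I, one_mul]
    refine (norm_integral_le_integral_norm _).trans ?_
    have h98 : 0 < 98 / 100 * r := by positivity
    have i1 : IntegrableOn (fun Y : ℝ => Real.exp (-r) * Real.exp (98 / 100 * r * Y)) (Iic (-(34 / 25) : ℝ)) :=
      (integrableOn_exp_mul_Iic h98 _).const_mul _
    have h1 : ∫ Y in Iic (-(34 / 25) : ℝ), ‖gs β r t ((Real.pi : ℝ) + Y * I)‖ ≤
        ∫ Y in Iic (-(34 / 25) : ℝ), Real.exp (-r) * Real.exp (98 / 100 * r * Y) := by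
      refine setIntegral_mono_on (hInV.int hβ hr0 _).norm i1 measurableSet_Iic ?_
      intro Y hY
      have hY' : Y ≤ -(34 / 25) := hY
      rw [norm_gs, Real.cos_pi, ← Real.exp_add]
      apply Real.exp_le_exp.2
      have h2 : (Real.pi - t) * Y / β ≤ -(r * Y) := by
        rw [div_le_iff₀ hβ]
        nlinarith
      have h3 : 1 + (-Y) + (-Y) ^ 2 / 2 + (-Y) ^ 3 / 6 ≤ Real.exp (-Y) := by
        have := Real.sum_le_exp_of_nonneg (x := -Y) (by linarith) 4
        simp only [Finset.sum_range_succ, Finset.sum_range_zero, Nat.factorial] at this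
        norm_num at this
        linarith
      have h4 : -(98 / 100) * Y ≤ (-Y) ^ 2 / 2 + (-Y) ^ 3 / 6 := by
        have h5 : 0 ≤ -Y - 34 / 25 := by linarith
        nlinarith [mul_nonneg h5 h5, mul_nonneg (mul_nonneg h5 h5) h5]
      nlinarith
    refine h1.trans ?_
    rw [integral_const_mul, integral_exp_mul_Iic h98]
    apply mul_le_mul_of_nonneg_left _ (Real.exp_pos _).le
    rw [div_le_iff₀ h98]
    have h2 : Real.exp (98 / 100 * r * -(34 / 25)) ≤ Real.exp (-(13 / 10) * r) := by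
      apply Real.exp_le_exp.2; nlinarith
    have h3 := Real.exp_pos (-(13 / 10) * r)
    nlinarith
  -- numbers
  have nA : Real.exp (2 - 11 / 10 * r) ≤ 1 / 40 * w := by
    have h1 : r / 10 ≤ Real.exp (r / 10 - 1) := by
      have := Real.add_one_le_exp (r / 10 - 1); linarith
    have h2 : r * Real.exp (2 - 11 / 10 * r) ≤ 10 * Real.exp (1 - r) := by
      have e1 : Real.exp (1 - r) = Real.exp (r / 10 - 1) * Real.exp (2 - 11 / 10 * r) := by
        rw [← Real.exp_add]; congr 1; ring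
      rw [e1]
      have := Real.exp_pos (2 - 11 / 10 * r)
      nlinarith
    have h3 : Real.exp (1 - r) ≤ 1 / 400 := le_trans (Real.exp_le_exp.2 (by linarith)) exp_neg_six_le
    have h4 : Real.exp (2 - 11 / 10 * r) * 1 ≤ Real.exp (2 - 11 / 10 * r) * (w * r) :=
      mul_le_mul_of_nonneg_left hwr (Real.exp_pos _).le
    nlinarith
  have nB : Real.exp ((1 / β) * (-(6 / 100))) * Real.sqrt (Real.pi / (7 / 10 * (1 / β))) ≤ 34 / 100 * w := by
    have h1 : Real.exp ((1 / β) * (-(6 / 100))) ≤ 2 / 5 := by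
      have h2 : Real.exp ((1 / β) * (-(6 / 100))) ≤ Real.exp (-1) := Real.exp_le_exp.2 (by nlinarith)
      have h3 : Real.exp (-1) ≤ 2 / 5 := by
        rw [Real.exp_neg]
        have := Real.exp_one_gt_d9
        rw [inv_le_comm₀ (Real.exp_pos 1) (by norm_num)]
        linarith
      linarith
    have h4 : Real.sqrt (Real.pi / (7 / 10 * (1 / β))) ≤ 85 / 100 * w := by
      have h5 : Real.pi / (7 / 10 * (1 / β)) ≤ (85 / 100 * w) ^ 2 := by
        rw [mul_pow, hw2]
        have e1 : Real.pi / (7 / 10 * (1 / β)) = 10 / 7 * (Real.pi * β) := by field_simp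
        rw [e1]
        have : 0 < Real.pi * β := by positivity
        nlinarith
      calc _ ≤ Real.sqrt ((85 / 100 * w) ^ 2) := Real.sqrt_le_sqrt h5
        _ = _ := Real.sqrt_sq (by positivity)
    calc _ ≤ 2 / 5 * (85 / 100 * w) := mul_le_mul h1 h4 (Real.sqrt_nonneg _) (by norm_num)
      _ = _ := by ring
  have nC : Real.exp ((1 / β) * (-(12 / 10) + 1 / 10 * Real.pi)) * (10 * β) ≤ 1 / 400 * w := by
    have h1 : Real.exp ((1 / β) * (-(12 / 10) + 1 / 10 * Real.pi)) ≤ 1 / 400 :=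
      le_trans (Real.exp_le_exp.2 (by nlinarith)) exp_neg_six_le
    calc _ ≤ 1 / 400 * w := mul_le_mul h1 (by linarith) (by positivity) (by norm_num)
      _ = _ := by ring
  have nL : Real.exp (-(13 / 10) * r) ≤ 1 / 40 * w := by
    refine le_trans (Real.exp_le_exp.2 ?_) nA
    linarith
  have hfin : w * ‖Ft β r t - CC β r t‖ ≤ w * (2 / 5 * Real.exp (-r)) := by
    have h1 : w * ‖Ft β r t - CC β r t‖ = ‖cF β * (Ft β r t - CC β r t)‖ := by
      rw [norm_mul, norm_cF, hw]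
    rw [h1, heq]
    refine (norm_add_le _ _).trans ?_
    have hE := Real.exp_pos (-r)
    have g1 := mul_le_mul_of_nonneg_left nA hE.le
    have g2 := mul_le_mul_of_nonneg_left nB hE.le
    have g3 := mul_le_mul_of_nonneg_left nC hE.le
    have g4 := mul_le_mul_of_nonneg_left nL hE.le
    have g5 : 0 < Real.exp (-r) * w := mul_pos hE hw0
    linarith
  exact le_of_mul_le_mul_left hfin hw0

/-- **Row A1-K7.** No zero for `9/10 ≤ t ≤ π + κ`, `1/3 ≤ κ ≤ 3/5`. -/
theorem Ft_ne_zero_of_mem {β r t : ℝ} (hβ : 0 < β) (hr : 10 ≤ r) (hκ0 : 1 / 3 ≤ β * r) (hκ1 : β * r ≤ 3 / 5)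
    (ht0 : 9 / 10 ≤ t) (ht1 : t ≤ Real.pi + β * r) : Ft β r t ≠ 0 := by
  intro h
  have h1 := R7_upper hβ hr hκ0 hκ1 ht1
  have h2 := R7_lower hβ hr hκ1 ht0 ht1
  rw [h, zero_sub, norm_neg] at h1
  have := Real.exp_pos (-r)
  linarith

end Sok
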