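import Mathlib
import Pool.Agent.Lib.MP_816dec_an.Sector
import Pool.Agent.Lib.MP_816dec_an.CornerB

/-!
MP_816dec_an: the zero-free sector extended to `θ ≤ 1.05` for `κ ≤ 0.6`.
-/

set_option autoImplicit false

open Complex Set Filter Topology

namespace Sok

/-- `|sin u| ≤ 0.556 (0.52 + u)` -/
theorem abs_sin_le_lin5 {u : ℝ} (hu : 0 ≤ u) : |Real.sin u| ≤ 0.556 * (0.52 + u) := by
  have hpi := Real.pi_gt_d4
  have hpi2 := Real.pi_lt_d4
  rcases le_or_gt 1.2787 u with h | h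
  · refine (Real.abs_sin_le_one u).trans ?_
    linarith
  · have hs : 0 ≤ Real.sin u := Real.sin_nonneg_of_nonneg_of_le_pi hu (by linarith)
    rw [abs_of_nonneg hs]
    have h1 : Real.sin u = Real.cos (Real.pi / 2 - u) := (Real.cos_pi_div_two_sub u).symm
    have h2 := cos_le_quartic (x := Real.pi / 2 - u) (by linarith)
    rw [h1]
    obtain ⟨x, hx⟩ : ∃ x, x = Real.pi / 2 - u := ⟨_, rfl⟩
    rw [← hx] at h2 ⊢
    have hx1 : x ≤ 1.5708 := by linarith
    have hx0 : 0.29 ≤ x := by linarith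
    have hxu : 2.0907 - x ≤ 0.52 + u := by rw [hx]; linarith
    have hgoal : 1 - x ^ 2 / 2 + x ^ 4 / 24 ≤ 0.556 * (2.0907 - x) := by
      rcases le_or_gt x 0.7 with h6 | h6
      · have h7 : x ^ 4 ≤ 0.49 * x ^ 2 := by
          have : x ^ 2 ≤ 0.49 := by nlinarith
          nlinarith [sq_nonneg x]
        nlinarith [sq_nonneg (x - 0.58)]
      · rcases le_or_gt x 0.8 with h8 | h8
        · have h7 : x ^ 4 ≤ 0.64 * x ^ 2 := by
            have : x ^ 2 ≤ 0.64 := by nlinarith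
            nlinarith [sq_nonneg x]
          nlinarith [sq_nonneg (x - 0.7)]
        · rcases le_or_gt x 1 with h9 | h9
          · have h7 : x ^ 4 ≤ x ^ 2 := by
              have : x ^ 2 ≤ 1 := by nlinarith
              nlinarith [sq_nonneg x]
            nlinarith [sq_nonneg (x - 0.8)]
          · have h3 : x ^ 4 ≤ 2.4675 * x ^ 2 := by
              have : x ^ 2 ≤ 2.4675 := by nlinarith
              nlinarith [sq_nonneg x]
            nlinarith [sq_nonneg (x - 1)]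
    linarith

/-- `κ ≤ 0.6`, `-π/2 ≤ θ ≤ 1.05`: `|F|² ≥ 5` for `θ ≥ 0` -/
theorem normSq_sector2_ge {r β θ : ℝ} (hr : 10 ≤ r) (hβ : 0 < β) (hκ : β * r ≤ 0.6)
    (hθ1 : 0 ≤ θ) (hθ2 : θ ≤ 1.05) :
    5 ≤ Complex.normSq (F (Complex.exp (β * I)) (r * Complex.exp (θ * I))) := by
  have hr0 : 0 < r := by linarith
  have hpi := Real.pi_gt_d4
  have hpi' := Real.pi_lt_d4
  have hβ1 : β ≤ 0.06 := by nlinarith
  have hA : Real.exp 1 * 0.556 * (β * r) ≤ 0.91 := by
    have h1 := Real.exp_one_lt_d9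
    have h2 : Real.exp 1 * 0.556 ≤ 1.5115 := by
      norm_num at h1 ⊢
      linarith
    have h3 : 0 ≤ β * r := by positivity
    nlinarith [Real.exp_pos 1]
  have hB : β * (((18:ℕ):ℝ) - 1) ≤ 2 * 0.52 := by
    have : β * (((18:ℕ):ℝ) - 1) ≤ 0.06 * 17 := by
      push_cast
      nlinarith
    norm_num at this ⊢
    linarith
  obtain ⟨hnn, hle⟩ := normSq_ge_sum_sub (s := 0.556) (c := 0.52) (ρ := 0.91) (n₀ := 18) hr0 hβ (by linarith)
    (by linarith) (by norm_num) (fun u hu => abs_sin_le_lin5 hu) (θ := θ) hA (by norm_num) hB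
  have h1 : tC r β θ 0 + tC r β θ 1 ≤ ∑ i ∈ Finset.range (18 + 1), tC r β θ i := by
    have h2 : ∑ i ∈ Finset.range 2, tC r β θ i ≤ ∑ i ∈ Finset.range (18 + 1), tC r β θ i := by
      apply Finset.sum_le_sum_of_subset_of_nonneg
      · intro i hi
        rw [Finset.mem_range] at hi ⊢
        omega
      · intro i hi _
        exact hnn i (Finset.mem_range.1 hi)
    rw [Finset.sum_range_succ, Finset.sum_range_succ, Finset.sum_range_zero, zero_add] at h2
    exact h2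
  have ht0 : tC r β θ 0 = 1 := by unfold tC; simp
  have ht1 : tC r β θ 1 = 2 * r * Real.cos θ := by unfold tC; simp
  have hcos : 0.44 ≤ Real.cos θ := by
    have := Real.one_sub_sq_div_two_le_cos (x := θ)
    nlinarith
  rw [ht0, ht1] at h1
  have h3 : 20 * 0.44 ≤ 2 * r * Real.cos θ := by nlinarith
  have h4 : (0.91 : ℝ) ^ (18 + 1) / (1 - 0.91) ≤ 2 := by norm_num
  linarith

/-- `Ft ≠ 0` on `[-(β/2), 1]` for `κ ≤ 0.6` -/
theorem Ft_sector2_ne_zero {r β t : ℝ} (hr : 10 ≤ r) (hβ : 0 < β) (hκ : β * r ≤ 0.6)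
    (h1 : -(β / 2) ≤ t) (h2 : t ≤ 1) : Ft β r t ≠ 0 := by
  intro h
  have hβ1 : β ≤ 0.06 := by nlinarith
  have h3 := normSq_sector2_ge (θ := t + β / 2) hr hβ hκ (by linarith) (by linarith)
  rw [Ft_eq_Fa] at h
  unfold Fa at h
  have e1 : (r : ℂ) * cexp (((t + β / 2 : ℝ) : ℂ) * I) = r * cexp (I * (t + β / 2)) := by
    congr 2
    push_cast
    ring
  rw [e1, h, map_zero] at h3
  norm_num at h3

end Sok
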