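import Pool.Agent.Lib.MP_816dec_an.Corner
import Pool.Agent.Lib.MP_816dec_an.CTail5
import Pool.Agent.Lib.MP_816dec_an.Sector2
import Pool.Agent.Lib.MP_816dec_an.R7A

/-!
MP_816dec_an: `b = 1`, `κ = β r ∈ [1/e, 0.6]`, `r ≥ 10`: complete.
-/

set_option autoImplicit false

open Complex Set Filter Topology

namespace Sok

/-- row C1 -/
theorem circ_C1 {β r : ℝ} (hr : 10 ≤ r) (hβ : 0 < β) (hκ1 : Real.exp (-1) ≤ β * r)
    (hκ : β * r ≤ 0.6) : Circ β r := by
  have he := CT.exp_neg_one_ge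
  refine circ_corner (e := 0.05) hr hβ hκ1 hκ (by norm_num) ?_ ?_ ?_
  · intro t ht
    rcases le_total t 1 with h | h
    · exact Ft_sector2_ne_zero hr hβ hκ ht.1 h
    · exact Ft_ne_zero_of_mem hβ hr (by linarith) (by linarith) (by linarith) ht.2
  · intro t ht
    exact norm_CC_ge_left hr hβ hκ1 hκ ht
  · intro t ht
    exact log_CC_tangent hr hβ hκ1 hκ ht

end Sok
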