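import Pool.Agent.Lib.MP_816dec_an.Basic

/-!
MP_816dec_an (A3, row L1): decomposition of `F(z; exp(2πip/b + iβ))` into the `b` rotated copies of
`F(z; exp(iβ))`.  The coefficients are `c₀ e(Q(j))` with a real quadratic polynomial `Q`.
-/

set_option autoImplicit false

open Complex Set Filter Topology

namespace Sok

/-- `e(x) = exp(2πix)` -/
noncomputable def ee (x : ℝ) : ℂ := Complex.exp (2 * Real.pi * x * Complex.I)

theorem ee_add (x y : ℝ) : ee (x + y) = ee x * ee y := by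
  unfold ee; rw [← Complex.exp_add]; congr 1; push_cast; ring

theorem ee_zero : ee 0 = 1 := by unfold ee; simp

theorem ee_ne_zero (x : ℝ) : ee x ≠ 0 := Complex.exp_ne_zero _

theorem norm_ee (x : ℝ) : ‖ee x‖ = 1 := by
  unfold ee
  have h : (2 * Real.pi * x * Complex.I : ℂ) = ((2 * Real.pi * x : ℝ) : ℂ) * Complex.I := by push_cast; ring
  rw [h, Complex.norm_exp_ofReal_mul_I]

theorem ee_neg (x : ℝ) : ee (-x) = (ee x)⁻¹ := by
  unfold ee; rw [← Complex.exp_neg]; congr 1; push_cast; ring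

theorem ee_sub (x y : ℝ) : ee (x - y) = ee x / ee y := by
  rw [sub_eq_add_neg, ee_add, ee_neg, div_eq_mul_inv]

theorem ee_int (n : ℤ) : ee (n : ℝ) = 1 := by
  unfold ee
  rw [Complex.exp_eq_one_iff]
  exact ⟨n, by push_cast; ring⟩

theorem ee_add_int (x : ℝ) (n : ℤ) : ee (x + n) = ee x := by rw [ee_add, ee_int, mul_one]

theorem ee_pow (x : ℝ) (n : ℕ) : ee x ^ n = ee (n * x) := by
  unfold ee; rw [← Complex.exp_nat_mul]; congr 1; push_cast; ring

theorem ee_zpow (x : ℝ) (n : ℤ) : ee x ^ n = ee (n * x) := by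
  unfold ee; rw [← Complex.exp_int_mul]; congr 1; push_cast; ring

theorem ee_eq_one_iff (x : ℝ) : ee x = 1 ↔ ∃ n : ℤ, x = n := by
  constructor
  · intro h
    unfold ee at h
    rw [Complex.exp_eq_one_iff] at h
    obtain ⟨n, hn⟩ := h
    refine ⟨n, ?_⟩
    have hpi : (Real.pi : ℂ) ≠ 0 := by exact_mod_cast Real.pi_ne_zero
    have h2 : (2 * Real.pi * Complex.I : ℂ) * (x : ℂ) = (2 * Real.pi * Complex.I : ℂ) * (n : ℂ) := by
      rw [mul_comm _ (n : ℂ), ← hn]; ring
    have h3 : (2 * Real.pi * Complex.I : ℂ) ≠ 0 := by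
      simp [Complex.I_ne_zero, Real.pi_ne_zero]
    have h4 := mul_left_cancel₀ h3 h2
    exact_mod_cast h4
  · rintro ⟨n, rfl⟩; exact ee_int n

theorem ee_eq_of_sub_int {x y : ℝ} (n : ℤ) (h : x - y = n) : ee x = ee y := by
  have : x = y + n := by linarith
  rw [this, ee_add_int]

/-- shift invariance of sums over a period -/
theorem sum_shift_one88 {g : ℤ → ℂ} {b : ℕ} (hg : ∀ n, g (n + b) = g n) :
    ∑ n ∈ Finset.range b, g ((n : ℤ) + 1) = ∑ n ∈ Finset.range b, g (n : ℤ) := by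
  have h1 := Finset.sum_range_succ (fun n : ℕ => g (n : ℤ)) b
  have h2 := Finset.sum_range_succ' (fun n : ℕ => g (n : ℤ)) b
  have h3 : g (b : ℤ) = g 0 := by have := hg 0; rwa [zero_add] at this
  simp only [Nat.cast_add, Nat.cast_one, Nat.cast_zero] at h1 h2
  rw [h1, h3] at h2
  exact (add_right_cancel h2).symm

theorem sum_shift88 {g : ℤ → ℂ} {b : ℕ} (hg : ∀ n, g (n + b) = g n) (a : ℤ) :
    ∑ n ∈ Finset.range b, g ((n : ℤ) + a) = ∑ n ∈ Finset.range b, g (n : ℤ) := by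
  induction a using Int.induction_on with
  | zero => simp
  | succ i hi =>
    have h1 := sum_shift_one88 (g := fun n => g (n + i)) (b := b) (by intro n; show g (n + b + i) = g (n + i); rw [← hg (n + i)]; congr 1; ring)
    rw [← hi, ← h1]
    apply Finset.sum_congr rfl
    intro n _
    congr 1; ring
  | pred i hi =>
    have h1 := sum_shift_one88 (g := fun n => g (n + (-(i:ℤ) - 1))) (b := b)
      (by intro n; show g (n + b + (-(i:ℤ) - 1)) = g (n + (-(i:ℤ) - 1)); rw [← hg (n + (-(i:ℤ) - 1))]; congr 1; ring)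
    rw [← hi, ← h1]
    apply Finset.sum_congr rfl
    intro n _
    congr 1; ring

/-- orthogonality -/
theorem sum_ee {b : ℕ} (hb : 0 < b) (m : ℤ) :
    ∑ l ∈ Finset.range b, ee ((l : ℝ) * m / b) = if (b : ℤ) ∣ m then (b : ℂ) else 0 := by
  have hb' : (b : ℝ) ≠ 0 := by positivity
  have e1 : ∀ l ∈ Finset.range b, ee ((l : ℝ) * m / b) = ee ((m : ℝ) / b) ^ l := by
    intro l _; rw [ee_pow]; congr 1; ring
  rw [Finset.sum_congr rfl e1]
  split_ifs with h
  · obtain ⟨k, rfl⟩ := h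
    have e2 : ee (((b * k : ℤ) : ℝ) / b) = 1 := by
      rw [ee_eq_one_iff]; exact ⟨k, by push_cast; field_simp⟩
    rw [e2]; simp
  · have e2 : ee ((m : ℝ) / b) ≠ 1 := by
      intro h1
      rw [ee_eq_one_iff] at h1
      obtain ⟨n, hn⟩ := h1
      apply h
      refine ⟨n, ?_⟩
      have : (m : ℝ) = b * n := by rw [← hn]; field_simp
      exact_mod_cast this
    have e3 : ee ((m : ℝ) / b) ^ b = 1 := by
      rw [ee_pow, ee_eq_one_iff]; exact ⟨m, by field_simp⟩
    have e4 := geom_sum_mul (ee ((m : ℝ) / b)) b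
    rw [e3, sub_self] at e4
    exact (mul_eq_zero.1 e4).resolve_right (sub_ne_zero.2 e2)

/-- the shift `ε = p(b-1)/2` -/
noncomputable def eps (p : ℤ) (b : ℕ) : ℝ := p * ((b : ℝ) - 1) / 2

/-- `f(n) = e((p n(n-1)/2 - ε n)/b)` -/
noncomputable def ff (p : ℤ) (b : ℕ) (n : ℤ) : ℂ :=
  ee ((p * ((n : ℝ) * (n - 1) / 2) - eps p b * n) / b)

theorem ff_zero (p : ℤ) (b : ℕ) : ff p b 0 = 1 := by
  unfold ff; simp [ee_zero]

theorem ff_add (p : ℤ) (b : ℕ) (n a : ℤ) :
    ff p b (n + a) = ff p b n * ee ((p * n * a : ℝ) / b) * ff p b a := by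
  unfold ff
  rw [← ee_add, ← ee_add]
  congr 1
  push_cast
  ring

theorem ff_period {p : ℤ} {b : ℕ} (hb : 0 < b) (n : ℤ) : ff p b (n + b) = ff p b n := by
  have hb' : (b : ℝ) ≠ 0 := by positivity
  unfold ff
  apply ee_eq_of_sub_int (p * n)
  unfold eps
  push_cast
  field_simp
  ring

/-- Fourier coefficients -/
noncomputable def cc (p : ℤ) (b : ℕ) (l : ℤ) : ℂ :=
  (1 / (b : ℂ)) * ∑ n ∈ Finset.range b, ff p b (n : ℤ) * ee (-((l : ℝ) * n / b))

theorem cc_aux_period {p : ℤ} {b : ℕ} (hb : 0 < b) (l : ℤ) (n : ℤ) :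
    ff p b (n + b) * ee (-((l : ℝ) * ((n + b : ℤ) : ℝ) / b)) = ff p b n * ee (-((l : ℝ) * (n : ℝ) / b)) := by
  have hb' : (b : ℝ) ≠ 0 := by positivity
  rw [ff_period hb]
  congr 1
  apply ee_eq_of_sub_int (-l)
  push_cast
  field_simp
  ring

theorem cc_period {p : ℤ} {b : ℕ} (hb : 0 < b) (l k : ℤ) : cc p b (l + b * k) = cc p b l := by
  have hb' : (b : ℝ) ≠ 0 := by positivity
  unfold cc
  congr 1
  apply Finset.sum_congr rfl
  intro n _
  congr 1
  apply ee_eq_of_sub_int (-(k * n))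
  push_cast
  field_simp
  ring

theorem cc_shift {p : ℤ} {b : ℕ} (hb : 0 < b) (l a : ℤ) :
    cc p b l = ff p b a * ee (-((l : ℝ) * a / b)) * cc p b (l - p * a) := by
  have hb' : (b : ℝ) ≠ 0 := by positivity
  unfold cc
  have h1 := sum_shift88 (g := fun n => ff p b n * ee (-((l : ℝ) * (n : ℝ) / b))) (b := b)
    (fun n => cc_aux_period hb l n) a
  have e0 : ∀ n ∈ Finset.range b, ff p b ((n : ℕ) : ℤ) * ee (-((l : ℝ) * (n : ℝ) / b)) =
      (fun n : ℤ => ff p b n * ee (-((l : ℝ) * (n : ℝ) / b))) (n : ℤ) := by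
    intro n _; simp
  rw [Finset.sum_congr rfl e0]
  rw [← h1, mul_left_comm (ff p b a * ee (-((l : ℝ) * a / b)))]
  congr 1
  rw [Finset.mul_sum]
  apply Finset.sum_congr rfl
  intro n _
  rw [ff_add]
  have e1 : ee (-((l : ℝ) * (((n : ℤ) + a : ℤ) : ℝ) / b)) * ee ((p * (n : ℤ) * a : ℝ) / b) =
      ee (-((l : ℝ) * a / b)) * ee (-(((l - p * a : ℤ) : ℝ) * n / b)) := by
    rw [← ee_add, ← ee_add]
    congr 1
    push_cast
    ring
  calc ff p b (n : ℤ) * ee ((p * (n : ℤ) * a : ℝ) / b) * ff p b a * ee (-((l : ℝ) * (((n : ℤ) + a : ℤ) : ℝ) / b))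
      = ff p b (n : ℤ) * ff p b a * (ee (-((l : ℝ) * (((n : ℤ) + a : ℤ) : ℝ) / b)) * ee ((p * (n : ℤ) * a : ℝ) / b)) := by ring
    _ = _ := by rw [e1]; ring

theorem ff_eq_sum {p : ℤ} {b : ℕ} (hb : 0 < b) (n : ℤ) :
    ff p b n = ∑ l ∈ Finset.range b, cc p b (l : ℤ) * ee ((l : ℝ) * n / b) := by
  have hb' : (b : ℝ) ≠ 0 := by positivity
  have hbc : (b : ℂ) ≠ 0 := by exact_mod_cast hb.ne'
  have e1 : ∀ l ∈ Finset.range b, cc p b (l : ℤ) * ee ((l : ℝ) * n / b) =
      ∑ m ∈ Finset.range b, (1 / (b : ℂ)) * (ff p b (m : ℤ) * ee ((l : ℝ) * ((n - m : ℤ) : ℝ) / b)) := by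
    intro l _
    unfold cc
    rw [mul_assoc, Finset.sum_mul, Finset.mul_sum]
    apply Finset.sum_congr rfl
    intro m _
    rw [mul_assoc, ← ee_add]
    congr 3
    push_cast
    ring
  rw [Finset.sum_congr rfl e1, Finset.sum_comm]
  have e2 : ∀ m ∈ Finset.range b, ∑ l ∈ Finset.range b,
      (1 / (b : ℂ)) * (ff p b (m : ℤ) * ee ((l : ℝ) * ((n - m : ℤ) : ℝ) / b)) =
      if (b : ℤ) ∣ n - m then ff p b (m : ℤ) else 0 := by
    intro m _
    rw [← Finset.mul_sum, ← Finset.mul_sum, sum_ee hb]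
    split_ifs
    · field_simp
    · simp
  rw [Finset.sum_congr rfl e2]
  have hbz : (0 : ℤ) < b := by exact_mod_cast hb
  obtain ⟨m0, hm0⟩ : ∃ m0 : ℕ, (m0 : ℤ) = n % b := ⟨(n % b).toNat, Int.toNat_of_nonneg (Int.emod_nonneg n hbz.ne')⟩
  have hm0lt : m0 < b := by
    have := Int.emod_lt_of_pos n hbz
    rw [← hm0] at this
    exact_mod_cast this
  have hdvd : (b : ℤ) ∣ n - m0 := by
    rw [hm0]
    exact Int.dvd_self_sub_emod
  rw [Finset.sum_eq_single_of_mem m0 (Finset.mem_range.2 hm0lt)]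
  · rw [if_pos hdvd]
    obtain ⟨k, hk⟩ := hdvd
    have hn : n = m0 + b * k := by linarith
    rw [hn]
    have hper : ∀ (j : ℤ), ff p b (m0 + b * j) = ff p b m0 := by
      intro j
      unfold ff
      apply ee_eq_of_sub_int (p * m0 * j + p * (b * (j * (j - 1) / 2)))
      have hj : (((j * (j - 1) / 2 : ℤ)) : ℝ) = (j : ℝ) * (j - 1) / 2 := by
        have h2 : (2 : ℤ) ∣ j * (j - 1) := by
          have := Int.even_mul_pred_self j
          exact this.two_dvd
        rw [Int.cast_div h2 (by norm_num)]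
        push_cast; ring
      unfold eps
      push_cast
      rw [hj]
      field_simp
      ring
    exact hper k
  · intro m hm hne
    rw [if_neg]
    intro hdvd2
    apply hne
    have h3 : (b : ℤ) ∣ (m : ℤ) - m0 := by
      have := dvd_sub hdvd hdvd2
      have e : n - (m0 : ℤ) - (n - m) = m - m0 := by ring
      rwa [e] at this
    have h4 : (m : ℤ) - m0 = 0 := by
      apply Int.eq_zero_of_abs_lt_dvd h3
      rw [abs_lt]
      have := Finset.mem_range.1 hm
      constructor <;> omega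
    have : (m : ℤ) = m0 := by linarith
    exact_mod_cast this

/-- the decomposition -/
theorem F_decomp88 {p : ℤ} {b : ℕ} (hb : 0 < b) (β : ℝ) (z : ℂ) :
    F (ee (p / b) * Complex.exp (β * I)) z =
      ∑ l ∈ Finset.range b, cc p b (l : ℤ) * F (Complex.exp (β * I)) (ee ((l + eps p b) / b) * z) := by
  have hb' : (b : ℝ) ≠ 0 := by positivity
  have hq : ‖Complex.exp (β * I)‖ ≤ 1 := by rw [Complex.norm_exp_ofReal_mul_I]
  have h1 : ∀ n : ℕ, tm (ee (p / b) * Complex.exp (β * I)) z n =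
      ∑ l ∈ Finset.range b, cc p b (l : ℤ) * tm (Complex.exp (β * I)) (ee ((l + eps p b) / b) * z) n := by
    intro n
    unfold tm
    have e1 : (ee (p / b)) ^ (n * (n - 1) / 2) = ff p b n * ee (eps p b * n / b) := by
      rw [ee_pow]
      unfold ff
      rw [← ee_add]
      congr 1
      have hT : (((n * (n - 1) / 2 : ℕ)) : ℝ) = (n : ℝ) * (n - 1) / 2 := by
        rcases n with _ | n
        · simp
        · rw [Nat.add_sub_cancel]
          have h2 : 2 ∣ (n + 1) * n := by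
            rw [mul_comm]; exact (Nat.even_mul_succ_self n).two_dvd
          rw [Nat.cast_div h2 (by norm_num)]
          push_cast; ring
      rw [hT]
      push_cast
      ring
    rw [mul_pow, e1, ff_eq_sum hb]
    rw [Finset.sum_mul, Finset.sum_mul, Finset.sum_mul, Finset.sum_div]
    apply Finset.sum_congr rfl
    intro l _
    have e2 : (ee ((l + eps p b) / b) * z) ^ n = ee ((l : ℝ) * n / b) * ee (eps p b * n / b) * z ^ n := by
      rw [mul_pow, ee_pow, ← ee_add]
      congr 2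
      ring
    rw [e2]
    push_cast
    ring
  rw [F_eq]
  rw [tsum_congr h1, Summable.tsum_finsetSum]
  · apply Finset.sum_congr rfl
    intro l _
    rw [tsum_mul_left, F_eq]
  · intro l _
    exact (summable_tm hq _).mul_left _

/-- the quadratic phase: `γ(j) = e(-p p' (p' j² + b j)/(2b))`, `p p' ≡ 1 mod b` -/
noncomputable def gam (p p' : ℤ) (b : ℕ) (j : ℤ) : ℂ := ee (-(p * p' * (p' * (j : ℝ) ^ 2 + b * j)) / (2 * b))

theorem norm_gam (p p' : ℤ) (b : ℕ) (j : ℤ) : ‖gam p p' b j‖ = 1 := norm_ee _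

theorem gam_ne_zero (p p' : ℤ) (b : ℕ) (j : ℤ) : gam p p' b j ≠ 0 := ee_ne_zero _

theorem cc_eq_gam {p p' : ℤ} {b : ℕ} (hb : 0 < b) (hp : (b : ℤ) ∣ p * p' - 1) (j : ℤ) :
    cc p b j = cc p b 0 * gam p p' b j := by
  have hb' : (b : ℝ) ≠ 0 := by positivity
  obtain ⟨k, hk⟩ := hp
  have h1 : p * (p' * j) = j + b * (k * j) := by
    have : p * p' = 1 + b * k := by linarith
    calc p * (p' * j) = (p * p') * j := by ring
      _ = _ := by rw [this]; ring
  have h2 := cc_shift (p := p) hb (p * (p' * j)) (p' * j)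
  rw [sub_self, h1, cc_period hb] at h2
  rw [h2, mul_comm (cc p b 0)]
  congr 1
  rw [← h1]
  unfold ff gam eps
  rw [← ee_add]
  congr 1
  push_cast
  field_simp
  ring

theorem cc_zero_ne {p p' : ℤ} {b : ℕ} (hb : 0 < b) (hp : (b : ℤ) ∣ p * p' - 1) : cc p b 0 ≠ 0 := by
  intro h
  have h1 := ff_eq_sum (p := p) hb 0
  rw [ff_zero] at h1
  have h2 : ∀ l ∈ Finset.range b, cc p b (l : ℤ) * ee ((l : ℝ) * ((0 : ℤ) : ℝ) / b) = 0 := by
    intro l _
    rw [cc_eq_gam hb hp, h, zero_mul, zero_mul]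
  rw [Finset.sum_eq_zero h2] at h1
  exact one_ne_zero h1

/-- sum over any window of `b` consecutive integers -/
theorem sum_window {g : ℤ → ℂ} {b : ℕ} (hg : ∀ n, g (n + b) = g n) (a : ℤ) :
    ∑ n ∈ Finset.Ico a (a + b), g n = ∑ n ∈ Finset.range b, g (n : ℤ) := by
  rw [← sum_shift88 hg a]
  symm
  apply Finset.sum_bij (fun (n : ℕ) _ => (n : ℤ) + a)
  · intro n hn
    rw [Finset.mem_range] at hn
    rw [Finset.mem_Ico]
    constructor <;> omega
  · intro n _ m _ h
    have : (n : ℤ) = m := by linarith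
    exact_mod_cast this
  · intro m hm
    rw [Finset.mem_Ico] at hm
    refine ⟨(m - a).toNat, ?_, ?_⟩
    · rw [Finset.mem_range]; omega
    · rw [Int.toNat_of_nonneg (by omega)]; ring
  · intro n _; rfl

/-- the copy of `F` on the logarithmic plane -/
noncomputable def GW (β : ℝ) (w : ℂ) : ℂ := F (Complex.exp (β * I)) (Complex.exp w)

theorem norm_expI (β : ℝ) : ‖Complex.exp (β * I)‖ ≤ 1 := by rw [Complex.norm_exp_ofReal_mul_I]

theorem hasDerivAt_GW (β : ℝ) (w : ℂ) :
    HasDerivAt (GW β) (Complex.exp w * GW β (w + β * I)) w := by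
  have h1 := hasDerivAt_F (norm_expI β) (Complex.exp w)
  have h2 := h1.comp w (Complex.hasDerivAt_exp w)
  have h3 : GW β (w + β * I) = F (Complex.exp (β * I)) (Complex.exp (β * I) * Complex.exp w) := by
    unfold GW; rw [← Complex.exp_add, add_comm]
  rw [h3, mul_comm]
  exact h2

theorem differentiable_GW (β : ℝ) : Differentiable ℂ (GW β) := fun w => (hasDerivAt_GW β w).differentiableAt

theorem GW_period (β : ℝ) (w : ℂ) (n : ℤ) : GW β (w + 2 * Real.pi * n * I) = GW β w := by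
  unfold GW
  rw [Complex.exp_add]
  have : Complex.exp (2 * Real.pi * n * I) = 1 := by
    rw [Complex.exp_eq_one_iff]; exact ⟨n, by ring⟩
  rw [this, mul_one]

/-- the point of the circle belonging to the valley `j` and the logarithmic variable `w` -/
noncomputable def pt (p : ℤ) (b : ℕ) (w : ℂ) (j : ℤ) : ℂ := Complex.exp w * ee (-((j : ℝ) + eps p b) / b)

theorem F_valley {p p' : ℤ} {b : ℕ} (hb : 0 < b) (hp : (b : ℤ) ∣ p * p' - 1) (β : ℝ) (w : ℂ) (j a : ℤ) :
    F (ee (p / b) * Complex.exp (β * I)) (pt p b w j) =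
      cc p b 0 * ∑ k ∈ Finset.Ico a (a + b), gam p p' b (j + k) * GW β (w + 2 * Real.pi * k / b * I) := by
  have hb' : (b : ℝ) ≠ 0 := by positivity
  have hbc : (b : ℂ) ≠ 0 := by exact_mod_cast hb.ne'
  rw [F_decomp88 hb]
  -- g n = cc n * F_β(ee((n+eps)/b) z)
  obtain ⟨g, hg⟩ : ∃ g : ℤ → ℂ, g = fun n => cc p b n *
      F (Complex.exp (β * I)) (ee (((n : ℝ) + eps p b) / b) * pt p b w j) := ⟨_, rfl⟩
  have hper : ∀ n, g (n + b) = g n := by
    intro n
    rw [hg]
    show cc p b (n + b) * _ = cc p b n * _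
    have e1 : cc p b (n + b) = cc p b n := by
      have := cc_period (p := p) hb n 1
      rwa [mul_one] at this
    have e2 : ee ((((n + b : ℤ) : ℝ) + eps p b) / b) = ee (((n : ℝ) + eps p b) / b) := by
      apply ee_eq_of_sub_int 1
      push_cast
      field_simp
      ring
    rw [e1, e2]
  have h1 : ∑ l ∈ Finset.range b, cc p b (l : ℤ) * F (Complex.exp (β * I)) (ee ((l + eps p b) / b) * pt p b w j)
      = ∑ l ∈ Finset.range b, g (l : ℤ) := by
    rw [hg]; apply Finset.sum_congr rfl; intro l _; simp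
  rw [h1, ← sum_window hper (j + a)]
  have h2 : ∑ n ∈ Finset.Ico (j + a) (j + a + b), g n = ∑ k ∈ Finset.Ico a (a + b), g (j + k) := by
    rw [← Finset.sum_image (f := g) (g := fun k => j + k)]
    · congr 1
      ext n
      simp only [Finset.mem_Ico, Finset.mem_image]
      constructor
      · intro h; exact ⟨n - j, by constructor <;> omega, by ring⟩
      · rintro ⟨k, hk, rfl⟩; constructor <;> omega
    · intro x _ y _ h
      have h' : j + x = j + y := h
      linarith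
  rw [h2, Finset.mul_sum]
  apply Finset.sum_congr rfl
  intro k _
  rw [hg]
  show cc p b (j + k) * F (Complex.exp (β * I)) (ee ((((j + k : ℤ) : ℝ) + eps p b) / b) * pt p b w j) = _
  rw [cc_eq_gam hb hp]
  rw [mul_assoc]
  congr 2
  unfold GW pt
  congr 1
  have e3 : ee ((((j + k : ℤ) : ℝ) + eps p b) / b) * (Complex.exp w * ee (-((j : ℝ) + eps p b) / b)) =
      Complex.exp w * ee ((k : ℝ) / b) := by
    rw [mul_left_comm, ← ee_add]
    congr 2
    push_cast
    ring
  rw [e3, Complex.exp_add]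
  congr 1
  unfold ee
  congr 1
  push_cast
  ring

theorem gam_rel (p p' : ℤ) (b : ℕ) (j k : ℤ) :
    gam p p' b (j + k) * gam p p' b j ^ (k - 1) * gam p p' b (j + 1) ^ (-k) =
      ee (-(p * p' * p' * ((k : ℝ) * (k - 1))) / (2 * b)) := by
  unfold gam
  rw [ee_zpow, ee_zpow, ← ee_add, ← ee_add]
  congr 1
  push_cast
  ring

theorem gam_ratio_inj {p p' : ℤ} {b : ℕ} (hb : 0 < b) (hp : (b : ℤ) ∣ p * p' - 1) {j j' : ℤ}
    (h : gam p p' b (j + 1) / gam p p' b j = gam p p' b (j' + 1) / gam p p' b j') : (b : ℤ) ∣ j - j' := by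
  have hb' : (b : ℝ) ≠ 0 := by positivity
  unfold gam at h
  rw [← ee_sub, ← ee_sub] at h
  have h1 := div_eq_one_iff_eq (ee_ne_zero _) |>.2 h
  rw [← ee_sub, ee_eq_one_iff] at h1
  obtain ⟨n, hn⟩ := h1
  have h2 : (p * p' * p' * (j - j') : ℝ) = -(n * b : ℝ) := by
    push_cast at hn
    field_simp at hn
    linear_combination (-1 / 2 : ℝ) * hn
  have h3 : p * p' * p' * (j - j') = -(n * b) := by exact_mod_cast h2
  have h4 : (b : ℤ) ∣ p * p' * p' * (j - j') := ⟨-n, by rw [h3]; ring⟩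
  -- p p' ≡ 1, multiply by p
  obtain ⟨k, hk⟩ := hp
  have h5 : p * p' = 1 + b * k := by linarith
  have h6 : (b : ℤ) ∣ p * (p * p' * p' * (j - j')) := h4.mul_left p
  have h7 : p * (p * p' * p' * (j - j')) = (1 + b * k) * (1 + b * k) * (j - j') := by
    rw [← h5]; ring
  rw [h7] at h6
  have h8 : (1 + (b : ℤ) * k) * (1 + b * k) * (j - j') = (j - j') + b * ((2 * k + b * k * k) * (j - j')) := by ring
  rw [h8] at h6
  exact (Int.dvd_add_left (Dvd.intro _ rfl)).1 h6

theorem pt_eq {p : ℤ} {b : ℕ} (hb : 0 < b) (w : ℂ) {j j' : ℤ} (h : (b : ℤ) ∣ j - j') :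
    pt p b w j = pt p b w j' := by
  have hb' : (b : ℝ) ≠ 0 := by positivity
  obtain ⟨k, hk⟩ := h
  unfold pt
  congr 1
  apply ee_eq_of_sub_int (-k)
  have : (j : ℝ) = j' + b * k := by
    have : j = j' + b * k := by linarith
    rw [this]; push_cast; ring
  rw [this]
  push_cast
  field_simp
  ring

end Sok
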