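import Mathlib

/-!
MP_816dec_an, finite part: the disc lemma (Newton-Kantorovich) and persistence of zeros.
-/

set_option autoImplicit false

open Complex Set Filter Topology Metric

namespace Sok

/-- if `f'` is close to `M` on a ball then `f` is almost linear there -/
theorem disc_lip {f f' : ℂ → ℂ} {c M : ℂ} {S η : ℝ}
    (hf : ∀ z ∈ ball c S, HasDerivAt f (f' z) z) (h1 : ∀ z ∈ ball c S, ‖f' z - M‖ ≤ η * ‖M‖)
    {z w : ℂ} (hz : z ∈ ball c S) (hw : w ∈ ball c S) :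
    ‖(f w - f z) - M * (w - z)‖ ≤ η * ‖M‖ * ‖w - z‖ := by
  have h2 : ∀ u ∈ ball c S, HasDerivWithinAt (fun u => f u - M * u) (f' u - M) (ball c S) u := by
    intro u hu
    have h3 := (hf u hu).sub ((hasDerivAt_id u).const_mul M)
    rw [mul_one] at h3
    exact h3.hasDerivWithinAt
  have h3 := (convex_ball c S).norm_image_sub_le_of_norm_hasDerivWithin_le h2 h1 hz hw
  have h4 : (f w - f z) - M * (w - z) = (f w - M * w) - (f z - M * z) := by ring
  rw [h4]
  exact h3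

/-- at most one zero in the big ball -/
theorem disc_uniq {f f' : ℂ → ℂ} {c M : ℂ} {S η : ℝ} (hM : M ≠ 0) (hη : η < 1)
    (hf : ∀ z ∈ ball c S, HasDerivAt f (f' z) z) (h1 : ∀ z ∈ ball c S, ‖f' z - M‖ ≤ η * ‖M‖)
    {z w : ℂ} (hz : z ∈ ball c S) (hw : w ∈ ball c S) (hz0 : f z = 0) (hw0 : f w = 0) : z = w := by
  have h2 := disc_lip hf h1 hz hw
  rw [hz0, hw0, sub_zero, zero_sub, norm_neg, norm_mul] at h2
  by_contra hne
  have h3 : 0 < ‖w - z‖ := norm_pos_iff.2 (sub_ne_zero.2 (Ne.symm hne))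
  have h4 : 0 < ‖M‖ := norm_pos_iff.2 hM
  have h5 : η * ‖M‖ * ‖w - z‖ < 1 * ‖M‖ * ‖w - z‖ := by
    have := mul_lt_mul_of_pos_right (mul_lt_mul_of_pos_right hη h4) h3
    exact this
  rw [one_mul] at h5
  linarith

/-- zeros in the big ball are simple -/
theorem disc_simple {f' : ℂ → ℂ} {c M : ℂ} {S η : ℝ} (hM : M ≠ 0) (hη : η < 1)
    (h1 : ∀ z ∈ ball c S, ‖f' z - M‖ ≤ η * ‖M‖) {z : ℂ} (hz : z ∈ ball c S) : f' z ≠ 0 := by
  intro h
  have h2 := h1 z hz
  rw [h, zero_sub, norm_neg] at h2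
  have h4 : 0 < ‖M‖ := norm_pos_iff.2 hM
  nlinarith

/-- a zero in the small ball -/
theorem disc_exists {f f' : ℂ → ℂ} {c M : ℂ} {s S η : ℝ} (hM : M ≠ 0) (hη0 : 0 ≤ η) (hη : η < 1)
    (hs : 0 ≤ s) (hsS : s < S)
    (hf : ∀ z ∈ ball c S, HasDerivAt f (f' z) z) (h1 : ∀ z ∈ ball c S, ‖f' z - M‖ ≤ η * ‖M‖)
    (h0 : ‖f c‖ ≤ (1 - η) * ‖M‖ * s) : ∃ z ∈ closedBall c s, f z = 0 := by
  have hM' : 0 < ‖M‖ := norm_pos_iff.2 hM
  have hsub : ∀ z ∈ closedBall c s, z ∈ ball c S := fun z hz =>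
    lt_of_le_of_lt (mem_closedBall.1 hz) hsS
  have hcS : c ∈ ball c S := mem_ball_self (lt_of_le_of_lt hs hsS)
  let T : ℂ → ℂ := fun z => z - f z / M
  have hT : ∀ z ∈ ball c S, ∀ w ∈ ball c S, ‖T w - T z‖ ≤ η * ‖w - z‖ := by
    intro z hz w hw
    have h2 := disc_lip hf h1 hz hw
    have h3 : T w - T z = -(((f w - f z) - M * (w - z)) / M) := by
      simp only [T]
      field_simp
      ring
    rw [h3, norm_neg, norm_div, div_le_iff₀ hM']
    calc ‖(f w - f z) - M * (w - z)‖ ≤ η * ‖M‖ * ‖w - z‖ := h2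
      _ = _ := by ring
  have hTc : ‖T c - c‖ ≤ (1 - η) * s := by
    have h3 : T c - c = -(f c / M) := by simp only [T]; ring
    rw [h3, norm_neg, norm_div, div_le_iff₀ hM']
    calc ‖f c‖ ≤ (1 - η) * ‖M‖ * s := h0
      _ = _ := by ring
  have hmaps : MapsTo T (closedBall c s) (closedBall c s) := by
    intro z hz
    rw [mem_closedBall, dist_eq_norm] at hz ⊢
    have h3 := hT c hcS z (hsub z (by rw [mem_closedBall, dist_eq_norm]; exact hz))
    calc ‖T z - c‖ = ‖(T z - T c) + (T c - c)‖ := by congr 1; ring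
      _ ≤ ‖T z - T c‖ + ‖T c - c‖ := norm_add_le _ _
      _ ≤ η * ‖z - c‖ + (1 - η) * s := add_le_add h3 hTc
      _ ≤ η * s + (1 - η) * s := by
          have := mul_le_mul_of_nonneg_left hz hη0
          linarith
      _ = s := by ring
  -- contraction
  have hcontr : ContractingWith ⟨η, hη0⟩ (hmaps.restrict T (closedBall c s) (closedBall c s)) := by
    refine ⟨by exact_mod_cast hη, ?_⟩
    refine LipschitzWith.of_dist_le_mul fun x y => ?_
    rw [Subtype.dist_eq, Subtype.dist_eq, dist_eq_norm, dist_eq_norm]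
    exact hT y.1 (hsub _ y.2) x.1 (hsub _ x.2)
  obtain ⟨z, hz, hfix, -⟩ := ContractingWith.exists_fixedPoint' (s := closedBall c s)
    isClosed_closedBall.isComplete hmaps hcontr (mem_closedBall_self hs) (edist_ne_top _ _)
  refine ⟨z, hz, ?_⟩
  have h5 : T z = z := hfix
  simp only [T] at h5
  have h6 : f z / M = 0 := by
    have := sub_eq_self.1 h5
    exact this
  rcases div_eq_zero_iff.1 h6 with h7 | h7
  · exact h7
  · exact absurd h7 hM

/-- zeros persist (Hurwitz) -/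
theorem zero_persists {f : ℝ → ℂ → ℂ} (hf : Continuous (fun p : ℝ × ℂ => f p.1 p.2))
    (hd : ∀ α, Differentiable ℂ (f α)) {α₀ : ℝ} {z₀ : ℂ} (h0 : f α₀ z₀ = 0) (hne : ∃ w, f α₀ w ≠ 0)
    {ε : ℝ} (hε : 0 < ε) : ∀ᶠ α in 𝓝 α₀, ∃ z ∈ ball z₀ ε, f α z = 0 := by
  -- a circle without zeros
  have hiso : ∀ᶠ z in 𝓝[≠] z₀, f α₀ z ≠ 0 := by
    have han : AnalyticOnNhd ℂ (f α₀) univ := (hd α₀).differentiableOn.analyticOnNhd isOpen_univ
    rcases (han z₀ (mem_univ _)).eventually_eq_zero_or_eventually_ne_zero with h | h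
    · exfalso
      obtain ⟨w, hw⟩ := hne
      exact hw (han.eqOn_zero_of_preconnected_of_eventuallyEq_zero isPreconnected_univ (mem_univ z₀) h
        (mem_univ w))
    · exact h
  obtain ⟨r, hr0, hrε, hr⟩ : ∃ r, 0 < r ∧ r < ε ∧ ∀ z ∈ sphere z₀ r, f α₀ z ≠ 0 := by
    rw [eventually_nhdsWithin_iff, Metric.eventually_nhds_iff] at hiso
    obtain ⟨δ, hδ, h⟩ := hiso
    refine ⟨min δ ε / 2, by positivity, ?_, ?_⟩
    · have := min_le_right δ ε
      linarith
    · intro z hz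
      rw [mem_sphere] at hz
      refine h ?_ ?_
      · rw [hz]
        have := min_le_left δ ε
        linarith
      · rintro rfl
        rw [dist_self] at hz
        have : 0 < min δ ε := lt_min hδ hε
        linarith
  -- the minimum on the circle
  have hcomp : IsCompact (sphere z₀ r) := isCompact_sphere _ _
  have hcont : ContinuousOn (fun z => ‖f α₀ z‖) (sphere z₀ r) := ((hd α₀).continuous.norm).continuousOn
  have hnonempty : (sphere z₀ r).Nonempty := NormedSpace.sphere_nonempty.2 hr0.le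
  obtain ⟨zm, hzm, hmin⟩ := hcomp.exists_isMinOn hnonempty hcont
  have hm : 0 < ‖f α₀ zm‖ := norm_pos_iff.2 (hr zm hzm)
  set m := ‖f α₀ zm‖ with hmdef
  -- uniform closeness on the closed ball
  have hunif : ∀ᶠ α in 𝓝 α₀, ∀ z ∈ closedBall z₀ r, ‖f α z - f α₀ z‖ < m / 2 := by
    have hK : IsCompact (closedBall z₀ r) := isCompact_closedBall _ _
    have hg : Continuous (fun p : ℝ × ℂ => ‖f p.1 p.2 - f α₀ p.2‖) := by
      have h2 : Continuous (fun p : ℝ × ℂ => f α₀ p.2) := (hd α₀).continuous.comp continuous_snd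
      exact (hf.sub h2).norm
    have hev : ∀ z ∈ closedBall z₀ r, ∀ᶠ p in 𝓝 ((α₀, z) : ℝ × ℂ), ‖f p.1 p.2 - f α₀ p.2‖ < m / 2 := by
      intro z _
      refine hg.continuousAt.eventually_lt continuousAt_const ?_
      show ‖f α₀ z - f α₀ z‖ < m / 2
      rw [sub_self, norm_zero]
      positivity
    have := hK.eventually_forall_of_forall_eventually (x₀ := α₀) (P := fun α z => ‖f α z - f α₀ z‖ < m / 2)
      (fun z hz => hev z hz)
    exact this
  refine hunif.mono fun α hα => ?_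
  by_contra hcon
  push Not at hcon
  -- no zero in the closed ball
  have hne' : ∀ z ∈ closedBall z₀ r, f α z ≠ 0 := fun z hz =>
    hcon z (lt_of_le_of_lt (mem_closedBall.1 hz) hrε)
  have hdcc : DiffContOnCl ℂ (fun z => (f α z)⁻¹) (ball z₀ r) := by
    refine DiffContOnCl.inv (hd α).diffContOnCl ?_
    intro z hz
    rw [closure_ball z₀ hr0.ne'] at hz
    exact hne' z hz
  have hbound : ∀ z ∈ frontier (ball z₀ r), ‖(f α z)⁻¹‖ ≤ (m / 2)⁻¹ := by
    intro z hz
    rw [frontier_ball z₀ hr0.ne'] at hz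
    rw [norm_inv]
    refine inv_anti₀ (by positivity) ?_
    have h1 : m ≤ ‖f α₀ z‖ := hmin hz
    have h2 := hα z (sphere_subset_closedBall hz)
    have h3 : ‖f α₀ z‖ ≤ ‖f α z‖ + ‖f α z - f α₀ z‖ := by
      have := norm_sub_le (f α z) (f α z - f α₀ z)
      rw [sub_sub_cancel] at this
      exact this
    linarith
  have h3 := Complex.norm_le_of_forall_mem_frontier_norm_le isBounded_ball hdcc hbound
    (subset_closure (mem_ball_self hr0))
  rw [norm_inv] at h3
  have h4 := hα z₀ (mem_closedBall_self hr0.le)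
  rw [h0, sub_zero] at h4
  have h5 : 0 < ‖f α z₀‖ := norm_pos_iff.2 (hne' z₀ (mem_closedBall_self hr0.le))
  have h6 : m / 2 ≤ ‖f α z₀‖ := (inv_le_inv₀ h5 (by positivity)).1 h3
  linarith

end Sok
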