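import Pool.Agent.Lib.MP_816dec_an.A0F

/-!
MP_816dec_an: upper bounds for the primitive `P` of `GG β z` along horizontal and vertical pieces,
the two tails, and closed forms on pieces where the cosine is not positive.
-/

set_option autoImplicit false

open Complex Set Filter Topology MeasureTheory

namespace Sok

/-- modulus of the integrand, `t = θ - β / 2` -/
noncomputable def EF (β r t X Y : ℝ) : ℝ :=
  Real.exp (X * Y / β + r * Real.exp (-Y) * Real.cos (X + t))

theorem EF_pos (β r t X Y : ℝ) : 0 < EF β r t X Y := Real.exp_pos _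

theorem norm_GG_polar (β r θ X Y : ℝ) :
    ‖GG β (r * cexp (I * θ)) (X + Y * I)‖ = EF β r (θ - β / 2) X Y := by
  rw [norm_GG, EF]
  congr 2
  have h1 : (r : ℂ) * cexp (I * θ) * cexp (-(I * β / 2)) * cexp (I * X) =
      (r : ℂ) * cexp (((X + (θ - β / 2) : ℝ) : ℂ) * I) := by
    rw [mul_assoc, mul_assoc, ← Complex.exp_add, ← Complex.exp_add]
    congr 2
    push_cast
    ring
  rw [h1, Complex.re_ofReal_mul, Complex.exp_ofReal_mul_I_re]
  ring

theorem continuous_EF_X (β r t Y : ℝ) : Continuous fun X : ℝ => EF β r t X Y := by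
  unfold EF; fun_prop

theorem continuous_EF_Y (β r t X : ℝ) : Continuous fun Y : ℝ => EF β r t X Y := by
  unfold EF; fun_prop

section Pieces

variable {β r θ : ℝ} {P : ℂ → ℂ} {lL lR : ℂ}

/-- horizontal pieces -/
theorem bd_hor (hP : ∀ x, HasDerivAt P (GG β (r * cexp (I * θ)) x) x) {a b : ℝ} (hab : a ≤ b) (Y : ℝ) :
    ‖P (b + Y * I) - P (a + Y * I)‖ ≤ ∫ X in a..b, EF β r (θ - β / 2) X Y := by
  rw [← prim_hor (kr_GG _).diff hP]
  refine (intervalIntegral.norm_integral_le_integral_norm hab).trans (le_of_eq ?_)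
  refine intervalIntegral.integral_congr fun X _ => ?_
  exact norm_GG_polar β r θ X Y

/-- vertical pieces -/
theorem bd_ver (hP : ∀ x, HasDerivAt P (GG β (r * cexp (I * θ)) x) x) {a b : ℝ} (hab : a ≤ b) (X : ℝ) :
    ‖P (X + b * I) - P (X + a * I)‖ ≤ ∫ Y in a..b, EF β r (θ - β / 2) X Y := by
  rw [← prim_ver (kr_GG _).diff hP, norm_mul, Complex.norm_I, one_mul]
  refine (intervalIntegral.norm_integral_le_integral_norm hab).trans (le_of_eq ?_)
  refine intervalIntegral.integral_congr fun Y _ => ?_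
  exact norm_GG_polar β r θ X Y

theorem EF_le (hr : 0 ≤ r) (β t X Y : ℝ) : EF β r t X Y ≤ Real.exp (r * Real.exp (-Y)) * Real.exp (X * Y / β) := by
  rw [EF, ← Real.exp_add]
  apply Real.exp_le_exp.2
  have h1 : r * Real.exp (-Y) * Real.cos (X + t) ≤ r * Real.exp (-Y) * 1 :=
    mul_le_mul_of_nonneg_left (Real.cos_le_one _) (by positivity)
  linarith

theorem int_EF_X (hβ : 0 < β) (hr : 0 ≤ r) (t : ℝ) {Y : ℝ} (hY : Y < 0) (a : ℝ) :
    IntegrableOn (fun X : ℝ => EF β r t X Y) (Ioi a) := by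
  have h1 : IntegrableOn (fun X : ℝ => Real.exp (r * Real.exp (-Y)) * Real.exp (Y / β * X)) (Ioi a) :=
    (integrableOn_exp_mul_Ioi (div_neg_of_neg_of_pos hY hβ) a).const_mul _
  refine h1.mono' (continuous_EF_X β r t Y).aestronglyMeasurable (Filter.Eventually.of_forall fun X => ?_)
  rw [Real.norm_of_nonneg (EF_pos _ _ _ _ _).le]
  have := EF_le hr β t X Y
  rwa [mul_comm X Y, ← div_mul_eq_mul_div] at this

theorem int_EF_Y (hβ : 0 < β) (hr : 0 ≤ r) (t : ℝ) {X : ℝ} (hX : X < 0) (a : ℝ) :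
    IntegrableOn (fun Y : ℝ => EF β r t X Y) (Ioi a) := by
  have h1 : IntegrableOn (fun Y : ℝ => Real.exp (r * Real.exp (-a)) * Real.exp (X / β * Y)) (Ioi a) :=
    (integrableOn_exp_mul_Ioi (div_neg_of_neg_of_pos hX hβ) a).const_mul _
  refine h1.mono' (continuous_EF_Y β r t X).aestronglyMeasurable ?_
  refine (ae_restrict_iff' measurableSet_Ioi).2 (Filter.Eventually.of_forall fun Y hY => ?_)
  rw [Real.norm_of_nonneg (EF_pos _ _ _ _ _).le]
  have h2 := EF_le hr β t X Y
  rw [← div_mul_eq_mul_div] at h2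
  refine h2.trans ?_
  have h3 : Real.exp (r * Real.exp (-Y)) ≤ Real.exp (r * Real.exp (-a)) := by
    apply Real.exp_le_exp.2
    apply mul_le_mul_of_nonneg_left _ hr
    apply Real.exp_le_exp.2
    have := mem_Ioi.1 hY
    linarith
  exact mul_le_mul_of_nonneg_right h3 (Real.exp_pos _).le

/-- the primitive at the height `Y > 0` is close to its left limit -/
theorem bd_left (hβ : 0 < β) (hr : 0 ≤ r) (hP : ∀ x, HasDerivAt P (GG β (r * cexp (I * θ)) x) x)
    (hl : Lim P lL lR) (X : ℝ) {Y : ℝ} (hY : 0 < Y) :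
    ‖P (X + Y * I) - lL‖ ≤ Real.exp (r * Real.exp (-Y)) * (β / Y * Real.exp (X * Y / β)) := by
  have h1 : Tendsto (fun X' : ℝ => ‖P (X + Y * I) - P (X' + Y * I)‖) atBot (𝓝 ‖P (X + Y * I) - lL‖) :=
    ((tendsto_const_nhds).sub (hl.left Y hY)).norm
  refine le_of_tendsto h1 ?_
  filter_upwards [eventually_le_atBot X] with X' hX'
  refine (bd_hor hP hX' Y).trans ?_
  have hc : 0 < Y / β := div_pos hY hβ
  have h2 : ∫ x in X'..X, EF β r (θ - β / 2) x Y ≤
      ∫ x in X'..X, Real.exp (r * Real.exp (-Y)) * Real.exp (x * (Y / β)) := by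
    refine intervalIntegral.integral_mono_on hX' ((continuous_EF_X _ _ _ _).intervalIntegrable _ _)
      ((by fun_prop : Continuous fun x : ℝ => Real.exp (r * Real.exp (-Y)) * Real.exp (x * (Y / β))).intervalIntegrable _ _)
      (fun x _ => ?_)
    have := EF_le hr β (θ - β / 2) x Y
    rwa [mul_div_assoc] at this
  refine h2.trans ?_
  rw [intervalIntegral.integral_const_mul, intervalIntegral.integral_comp_mul_right _ hc.ne', integral_exp]
  apply mul_le_mul_of_nonneg_left _ (Real.exp_pos _).le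
  rw [smul_eq_mul, mul_div_assoc, inv_div]
  apply mul_le_mul_of_nonneg_left _ (by positivity)
  have := Real.exp_pos (X' * (Y / β))
  linarith

theorem tendsto_up (hβ : 0 < β) (hr : 0 ≤ r) (hP : ∀ x, HasDerivAt P (GG β (r * cexp (I * θ)) x) x)
    (hl : Lim P lL lR) {X : ℝ} (hX : X < 0) :
    Tendsto (fun Y : ℝ => P (X + Y * I)) atTop (𝓝 lL) := by
  rw [tendsto_iff_norm_sub_tendsto_zero]
  have h1 : Tendsto (fun Y : ℝ => Real.exp r * (β * Real.exp (Y * (X / β)))) atTop (𝓝 0) := by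
    have h2 : Tendsto (fun Y : ℝ => Y * (X / β)) atTop atBot :=
      tendsto_id.atTop_mul_const_of_neg (div_neg_of_neg_of_pos hX hβ)
    have h3 := (Real.tendsto_exp_atBot.comp h2).const_mul β |>.const_mul (Real.exp r)
    simpa using h3
  refine squeeze_zero' (Filter.Eventually.of_forall fun _ => norm_nonneg _) ?_ h1
  filter_upwards [eventually_ge_atTop (1 : ℝ)] with Y hY
  refine (bd_left hβ hr hP hl X (by linarith)).trans ?_
  have h3 : Real.exp (r * Real.exp (-Y)) ≤ Real.exp r := by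
    apply Real.exp_le_exp.2
    have : Real.exp (-Y) ≤ 1 := Real.exp_le_one_iff.2 (by linarith)
    nlinarith
  have h4 : β / Y ≤ β := div_le_self hβ.le hY
  have h5 : Real.exp (X * Y / β) = Real.exp (Y * (X / β)) := by congr 1; ring
  rw [h5]
  gcongr

/-- **left tail**: from `lL` down the vertical line `X < 0` -/
theorem bd_LT (hβ : 0 < β) (hr : 0 ≤ r) (hP : ∀ x, HasDerivAt P (GG β (r * cexp (I * θ)) x) x)
    (hl : Lim P lL lR) {X : ℝ} (hX : X < 0) (Y₀ : ℝ) :
    ‖P (X + Y₀ * I) - lL‖ ≤ ∫ Y in Ioi Y₀, EF β r (θ - β / 2) X Y := by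
  have h1 : Tendsto (fun Y : ℝ => ‖P (X + Y₀ * I) - P (X + Y * I)‖) atTop (𝓝 ‖P (X + Y₀ * I) - lL‖) :=
    ((tendsto_const_nhds).sub (tendsto_up hβ hr hP hl hX)).norm
  refine le_of_tendsto h1 ?_
  filter_upwards [eventually_ge_atTop Y₀] with Y hY
  rw [norm_sub_rev]
  refine (bd_ver hP hY X).trans ?_
  rw [intervalIntegral.integral_of_le hY]
  exact setIntegral_mono_set (int_EF_Y hβ hr _ hX Y₀)
    (Filter.Eventually.of_forall fun Y => (EF_pos _ _ _ _ _).le) (Ioc_subset_Ioi_self.eventuallyLE)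

/-- **right tail**: along the horizontal line of height `-y < 0` to `lR` -/
theorem bd_RT (hβ : 0 < β) (hr : 0 ≤ r) (hP : ∀ x, HasDerivAt P (GG β (r * cexp (I * θ)) x) x)
    (hl : Lim P lL lR) (X₀ : ℝ) {Y : ℝ} (hY : Y < 0) :
    ‖lR - P (X₀ + Y * I)‖ ≤ ∫ X in Ioi X₀, EF β r (θ - β / 2) X Y := by
  have h1 : Tendsto (fun X : ℝ => ‖P (X + Y * I) - P (X₀ + Y * I)‖) atTop (𝓝 ‖lR - P (X₀ + Y * I)‖) :=
    ((hl.right Y hY).sub tendsto_const_nhds).norm
  refine le_of_tendsto h1 ?_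
  filter_upwards [eventually_ge_atTop X₀] with X hX
  refine (bd_hor hP hX Y).trans ?_
  rw [intervalIntegral.integral_of_le hX]
  exact setIntegral_mono_set (int_EF_X hβ hr _ hY X₀)
    (Filter.Eventually.of_forall fun X => (EF_pos _ _ _ _ _).le) (Ioc_subset_Ioi_self.eventuallyLE)

/-- closed form of the left tail on a vertical line where the cosine is not positive -/
theorem int_LT_neg (hβ : 0 < β) (hr : 0 ≤ r) {t X : ℝ} (hX : X < 0) (hc : Real.cos (X + t) ≤ 0) (Y₀ : ℝ) :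
    ∫ Y in Ioi Y₀, EF β r t X Y ≤ β / (-X) * Real.exp (X * Y₀ / β) := by
  have h0 : X / β < 0 := div_neg_of_neg_of_pos hX hβ
  have h1 : ∫ Y in Ioi Y₀, EF β r t X Y ≤ ∫ Y in Ioi Y₀, Real.exp (X / β * Y) := by
    refine setIntegral_mono_on (int_EF_Y hβ hr _ hX Y₀) (integrableOn_exp_mul_Ioi h0 Y₀) measurableSet_Ioi
      (fun Y _ => ?_)
    rw [EF]
    apply Real.exp_le_exp.2
    have h2 : r * Real.exp (-Y) * Real.cos (X + t) ≤ 0 :=
      mul_nonpos_of_nonneg_of_nonpos (by positivity) hc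
    have h3 : X * Y / β = X / β * Y := by ring
    linarith
  refine h1.trans (le_of_eq ?_)
  rw [integral_exp_mul_Ioi h0]
  have h2 : X / β * Y₀ = X * Y₀ / β := by ring
  rw [h2]
  field_simp

end Pieces

end Sok
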