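import Pool.Agent.Lib.MP_816dec_an.Far2

/-!
MP_816dec_an: closed upper bounds for `F_β` without singularities at `t = ±π/2`
(helper6's (HU) and (UD)).
-/

set_option autoImplicit false

open Complex Set Filter Topology MeasureTheory

namespace Sok

section

variable {β r t : ℝ}

private theorem C0_bump' (hβ : 0 < β) (hr : 0 < r) {n0 : ℝ} (hn : 0 < n0) :
    C0 β * Real.sqrt (3 * Real.pi / (r * n0)) = Real.sqrt (3 / (2 * (β * r) * n0)) := by
  have hpi := Real.pi_pos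
  rw [C0, one_div, ← Real.sqrt_inv, ← Real.sqrt_mul (by positivity)]
  congr 1
  field_simp

/-- a vertical leg on a line where the cosine is not positive, any sign of `X`: length times maximum -/
theorem int_leg_max (hr : 0 ≤ r) {X a b M : ℝ} (hab : a ≤ b) (hc : Real.cos (X + t) ≤ 0)
    (hM : ∀ Y ∈ Icc a b, Real.exp (X * Y / β) ≤ M) :
    ∫ Y in a..b, EF β r t X Y ≤ (b - a) * M := by
  have h1 : ∫ Y in a..b, EF β r t X Y ≤ ∫ _Y in a..b, M := by
    refine intervalIntegral.integral_mono_on hab ((continuous_EF_Y _ _ _ _).intervalIntegrable _ _)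
      (by simp) (fun Y hY => ?_)
    refine le_trans ?_ (hM Y hY)
    rw [EF]
    apply Real.exp_le_exp.2
    have h2 : r * Real.exp (-Y) * Real.cos (X + t) ≤ 0 :=
      mul_nonpos_of_nonneg_of_nonpos (by positivity) hc
    linarith
  refine h1.trans (le_of_eq ?_)
  simp

/-- **(HU)**: one bound for `-3π/2 < t ≤ π/2` -/
theorem far_HU (hβ : 0 < β) (hr : 0 < r) (ht : -(3 * Real.pi / 2) < t) (ht' : t ≤ Real.pi / 2)
    {v w : ℝ} (hv : -1 ≤ v) (hw : -(Real.pi / 2) < w) (hw' : w < Real.pi / 2)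
    (hvw : β * r * Real.sin w = v * Real.exp v) :
    ‖F (cexp (I * β)) (r * cexp (I * ((t + β / 2 : ℝ) : ℂ)))‖ ≤
      Real.sqrt (3 / (2 * (β * r) * (Real.exp (-v) * Real.cos w))) *
        Real.exp (r * (Real.exp (-v) * Real.cos w + v * (w - t) / (β * r))) +
      C0 β * (β / (3 * Real.pi / 2 + t) + Real.pi / r +
        |v| * max 1 (Real.exp (-(v * (Real.pi / 2 + t) / β))) +
        (1 + v) * Real.exp (v * (Real.pi / 2 - t) / β) +
        β * Real.exp (-((Real.pi / 2 - t) / β)) + HUMP β r t) := by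
  have hpi := Real.pi_pos
  obtain ⟨P, lL, lR, hP, hl, hF⟩ := exists_F_lim hβ ((r : ℂ) * cexp (I * ((t + β / 2 : ℝ) : ℂ)))
  have et : t + β / 2 - β / 2 = t := by ring
  rw [norm_F_eq_C0 hβ hF]
  obtain ⟨X1, hX1⟩ : ∃ X1, X1 = -(3 * Real.pi / 2) - t := ⟨_, rfl⟩
  obtain ⟨X2, hX2⟩ : ∃ X2, X2 = -(Real.pi / 2) - t := ⟨_, rfl⟩
  obtain ⟨X3, hX3⟩ : ∃ X3, X3 = Real.pi / 2 - t := ⟨_, rfl⟩
  obtain ⟨X4, hX4⟩ : ∃ X4, X4 = 3 * Real.pi / 2 - t := ⟨_, rfl⟩
  have hX1n : X1 < 0 := by linarith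
  have hX3p : 0 ≤ X3 := by linarith
  have hcs : ∀ s, Real.cos (-(3 * Real.pi / 2) + s) = -Real.sin s := fun s => by
    have : -(3 * Real.pi / 2) + s = s + Real.pi / 2 - 2 * Real.pi := by ring
    rw [this, Real.cos_sub_two_pi, Real.cos_add_pi_div_two]
  have hc1 : Real.cos (X1 + t) ≤ 0 := by
    have : X1 + t = -(3 * Real.pi / 2) + 0 := by rw [hX1]; ring
    rw [this, hcs, Real.sin_zero, neg_zero]
  have hc2 : Real.cos (X2 + t) ≤ 0 := by
    have : X2 + t = -(Real.pi / 2) := by rw [hX2]; ring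
    rw [this, Real.cos_neg, Real.cos_pi_div_two]
  have hc3 : Real.cos (X3 + t) ≤ 0 := by
    have : X3 + t = Real.pi / 2 := by rw [hX3]; ring
    rw [this, Real.cos_pi_div_two]
  have b1 : ‖P (X1 + (0:ℝ) * I) - lL‖ ≤ β / (3 * Real.pi / 2 + t) := by
    have h1 := bd_LT hβ hr.le hP hl hX1n 0
    rw [et] at h1
    refine h1.trans ((int_LT_neg hβ hr.le hX1n hc1 0).trans (le_of_eq ?_))
    rw [mul_zero, zero_div, Real.exp_zero, mul_one, hX1]
    congr 1; ring
  have b2 : ‖P (X2 + (0:ℝ) * I) - P (X1 + (0:ℝ) * I)‖ ≤ Real.pi / r := by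
    have h1 := bd_hor hP (by linarith : X1 ≤ X2) 0
    rw [et] at h1
    refine h1.trans ?_
    have h2 : ∫ X in X1..X2, EF β r t X 0 =
        ∫ X in (-(3 * Real.pi / 2) - t)..(-(3 * Real.pi / 2) + Real.pi - t), EF β r t X 0 := by
      rw [hX1, hX2]; congr 1; ring
    rw [h2]
    exact int_axis_h hr hpi.le le_rfl hcs
  have eM : -(v * (Real.pi / 2 + t) / β) = X2 * v / β := by rw [hX2]; ring
  have b3 : ‖P (X2 + v * I) - P (X2 + (0:ℝ) * I)‖ ≤ |v| * max 1 (Real.exp (-(v * (Real.pi / 2 + t) / β))) := by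
    rw [eM]
    rcases le_total 0 v with h0 | h0
    · have h1 := bd_ver hP h0 X2
      rw [et] at h1
      refine h1.trans ((int_leg_max hr.le h0 hc2 (M := max 1 (Real.exp (X2 * v / β))) (fun Y hY => ?_)).trans
        (le_of_eq ?_))
      · rcases le_total 0 X2 with hx | hx
        · refine le_trans (Real.exp_le_exp.2 ?_) (le_max_right _ _)
          exact div_le_div_of_nonneg_right (mul_le_mul_of_nonneg_left hY.2 hx) hβ.le
        · refine le_trans (Real.exp_le_one_iff.2 ?_) (le_max_left _ _)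
          exact div_nonpos_of_nonpos_of_nonneg (mul_nonpos_of_nonpos_of_nonneg hx hY.1) hβ.le
      · rw [sub_zero, abs_of_nonneg h0]
    · have h1 := bd_ver hP h0 X2
      rw [et, norm_sub_rev] at h1
      refine h1.trans ((int_leg_max hr.le h0 hc2 (M := max 1 (Real.exp (X2 * v / β))) (fun Y hY => ?_)).trans
        (le_of_eq ?_))
      · rcases le_total 0 X2 with hx | hx
        · refine le_trans (Real.exp_le_one_iff.2 ?_) (le_max_left _ _)
          exact div_nonpos_of_nonpos_of_nonneg (mul_nonpos_of_nonneg_of_nonpos hx hY.2) hβ.le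
        · refine le_trans (Real.exp_le_exp.2 ?_) (le_max_right _ _)
          exact div_le_div_of_nonneg_right (mul_le_mul_of_nonpos_left hY.1 hx) hβ.le
      · rw [zero_sub, abs_of_nonpos h0]
  have b4 : ‖P (X3 + v * I) - P (X2 + v * I)‖ ≤
      Real.sqrt (3 * Real.pi / (r * (Real.exp (-v) * Real.cos w))) *
        Real.exp (r * (Real.exp (-v) * Real.cos w + v * (w - t) / (β * r))) := by
    have h1 := bd_hor hP (by linarith : X2 ≤ X3) v
    rw [et] at h1
    refine h1.trans ?_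
    rw [hX2, hX3]
    exact int_bump hβ hr hw hw' hvw
  have b5 : ‖P (X3 + v * I) - P (X3 + (-1 : ℝ) * I)‖ ≤ (1 + v) * Real.exp (v * (Real.pi / 2 - t) / β) := by
    have h1 := bd_ver hP hv X3
    rw [et] at h1
    refine h1.trans ((int_leg_max hr.le hv hc3 (M := Real.exp (v * (Real.pi / 2 - t) / β)) (fun Y hY => ?_)).trans
        (le_of_eq ?_))
    · apply Real.exp_le_exp.2
      have e1 : v * (Real.pi / 2 - t) / β = X3 * v / β := by rw [hX3]; ring
      rw [e1]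
      exact div_le_div_of_nonneg_right (mul_le_mul_of_nonneg_left hY.2 hX3p) hβ.le
    · ring
  have b6 : ‖P (X4 + (-1 : ℝ) * I) - P (X3 + (-1 : ℝ) * I)‖ ≤ β * Real.exp (-(X3 / β)) := by
    have h1 := bd_hor hP (by linarith : X3 ≤ X4) (-1)
    rw [et] at h1
    refine h1.trans (int_hneg hβ hr.le (by linarith) (fun X hX => ?_))
    exact Real.cos_nonpos_of_pi_div_two_le_of_le (by linarith [hX.1]) (by linarith [hX.2])
  have b7 : ‖lR - P (X4 + (-1 : ℝ) * I)‖ ≤ HUMP β r t := by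
    have h1 := bd_RT hβ hr.le hP hl X4 (Y := -1) (by norm_num)
    rw [et] at h1
    refine h1.trans ?_
    rw [hX4]
    exact int_hump hβ hr.le
  have hsum : ‖lR - lL‖ ≤ ‖lR - P (X4 + (-1 : ℝ) * I)‖ + ‖P (X4 + (-1 : ℝ) * I) - P (X3 + (-1 : ℝ) * I)‖ +
      ‖P (X3 + v * I) - P (X3 + (-1 : ℝ) * I)‖ + ‖P (X3 + v * I) - P (X2 + v * I)‖ +
      ‖P (X2 + v * I) - P (X2 + (0:ℝ) * I)‖ + ‖P (X2 + (0:ℝ) * I) - P (X1 + (0:ℝ) * I)‖ +
      ‖P (X1 + (0:ℝ) * I) - lL‖ := by
    have e1 : lR - lL = (lR - P (X4 + (-1 : ℝ) * I)) + (P (X4 + (-1 : ℝ) * I) - P (X3 + (-1 : ℝ) * I)) +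
      -(P (X3 + v * I) - P (X3 + (-1 : ℝ) * I)) + (P (X3 + v * I) - P (X2 + v * I)) +
      (P (X2 + v * I) - P (X2 + (0:ℝ) * I)) + (P (X2 + (0:ℝ) * I) - P (X1 + (0:ℝ) * I)) +
      (P (X1 + (0:ℝ) * I) - lL) := by ring
    rw [e1]
    refine (norm_add_le _ _).trans (add_le_add_left ?_ _)
    refine (norm_add_le _ _).trans (add_le_add_left ?_ _)
    refine (norm_add_le _ _).trans (add_le_add_left ?_ _)
    refine (norm_add_le _ _).trans (add_le_add_left ?_ _)
    refine (norm_add_le _ _).trans (add_le_add ?_ (norm_neg _).le)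
    exact norm_add_le _ _
  have hn0 : 0 < Real.exp (-v) * Real.cos w :=
    mul_pos (Real.exp_pos _) (Real.cos_pos_of_mem_Ioo ⟨hw, hw'⟩)
  have hC := C0_pos hβ
  rw [← C0_bump' hβ hr hn0, ← hX3]
  rw [← hX3] at b5
  have hfin := mul_le_mul_of_nonneg_left (hsum.trans (add_le_add (add_le_add (add_le_add (add_le_add
    (add_le_add (add_le_add b7 b6) b5) b4) b3) b2) b1)) hC.le
  refine hfin.trans (le_of_eq ?_)
  ring

/-- the first leg at an angle where the cosine is at most `s` -/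
theorem int_LT_pos (hβ : 0 < β) (hr : 0 ≤ r) {X s : ℝ} (hX : X < 0) (hs : 0 ≤ s) (hc : Real.cos (X + t) ≤ s) :
    ∫ Y in Ioi (0:ℝ), EF β r t X Y ≤ β / (-X) * Real.exp (r * s) := by
  have h0 : X / β < 0 := div_neg_of_neg_of_pos hX hβ
  have h1 : ∫ Y in Ioi (0:ℝ), EF β r t X Y ≤ ∫ Y in Ioi (0:ℝ), Real.exp (r * s) * Real.exp (X / β * Y) := by
    refine setIntegral_mono_on (int_EF_Y hβ hr _ hX 0) ((integrableOn_exp_mul_Ioi h0 0).const_mul _)
      measurableSet_Ioi (fun Y hY => ?_)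
    rw [EF, ← Real.exp_add]
    apply Real.exp_le_exp.2
    have hY0 : 0 < Y := hY
    have h2 : Real.exp (-Y) ≤ 1 := Real.exp_le_one_iff.2 (by linarith)
    have h3 : r * Real.exp (-Y) * Real.cos (X + t) ≤ r * s := by
      calc r * Real.exp (-Y) * Real.cos (X + t) ≤ r * Real.exp (-Y) * s :=
            mul_le_mul_of_nonneg_left hc (by positivity)
        _ = (r * s) * Real.exp (-Y) := by ring
        _ ≤ (r * s) * 1 := mul_le_mul_of_nonneg_left h2 (by positivity)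
        _ = r * s := mul_one _
    have h4 : X * Y / β = X / β * Y := by ring
    linarith
  refine h1.trans (le_of_eq ?_)
  rw [integral_const_mul, integral_exp_mul_Ioi h0, mul_zero, Real.exp_zero]
  field_simp

/-- **(UD)**: left half plane with the first leg at the angle `π/2 - δ` -/
theorem far_UD (hβ : 0 < β) (hr : 0 < r) {δ L : ℝ} (hδ : 0 < δ) (hδ' : δ ≤ Real.pi / 2)
    (ht : Real.pi / 2 - δ < t) (ht' : t < 3 * Real.pi / 2)
    (hL : 1 ≤ L ∨ Real.pi / 2 < t ∧ Real.exp (-(r * |Real.cos t|)) / (r * |Real.cos t|) ≤ L) :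
    ‖F (cexp (I * β)) (r * cexp (I * ((t + β / 2 : ℝ) : ℂ)))‖ ≤
      C0 β * ((β / (t - Real.pi / 2 + δ) + δ) * Real.exp (r * Real.sin δ) +
        (if t ≤ Real.pi then Real.pi / (2 * r) else Real.pi / r) + L + β + HUMP β r t) := by
  have hpi := Real.pi_pos
  obtain ⟨P, lL, lR, hP, hl, hF⟩ := exists_F_lim hβ ((r : ℂ) * cexp (I * ((t + β / 2 : ℝ) : ℂ)))
  have et : t + β / 2 - β / 2 = t := by ring
  rw [norm_F_eq_C0 hβ hF]
  obtain ⟨X0, hX0⟩ : ∃ X0, X0 = Real.pi / 2 - δ - t := ⟨_, rfl⟩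
  obtain ⟨X1, hX1⟩ : ∃ X1, X1 = Real.pi / 2 - t := ⟨_, rfl⟩
  obtain ⟨X2, hX2⟩ : ∃ X2, X2 = max 0 X1 := ⟨_, rfl⟩
  obtain ⟨X4, hX4⟩ : ∃ X4, X4 = 3 * Real.pi / 2 - t := ⟨_, rfl⟩
  have hX0n : X0 < 0 := by linarith
  have hX20 : 0 ≤ X2 := by rw [hX2]; exact le_max_left _ _
  have hX12 : X1 ≤ X2 := by rw [hX2]; exact le_max_right _ _
  have hX24 : X2 ≤ X4 := by rw [hX2]; exact max_le (by linarith) (by linarith)
  have hsd : 0 ≤ Real.sin δ := Real.sin_nonneg_of_nonneg_of_le_pi hδ.le (by linarith)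
  have hc0 : Real.cos (X0 + t) ≤ Real.sin δ := by
    have : X0 + t = Real.pi / 2 - δ := by rw [hX0]; ring
    rw [this, Real.cos_pi_div_two_sub]
  have hc2 : Real.cos (X2 + t) ≤ 0 := by
    apply Real.cos_nonpos_of_pi_div_two_le_of_le (by linarith)
    linarith
  have b0 : ‖P (X0 + (0:ℝ) * I) - lL‖ ≤ β / (t - Real.pi / 2 + δ) * Real.exp (r * Real.sin δ) := by
    have h1 := bd_LT hβ hr.le hP hl hX0n 0
    rw [et] at h1
    refine h1.trans ((int_LT_pos hβ hr.le hX0n hsd hc0).trans (le_of_eq ?_))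
    rw [hX0]
    congr 2; ring
  have b1 : ‖P (X1 + (0:ℝ) * I) - P (X0 + (0:ℝ) * I)‖ ≤ δ * Real.exp (r * Real.sin δ) := by
    have h1 := bd_hor hP (by linarith : X0 ≤ X1) 0
    rw [et] at h1
    refine h1.trans ?_
    have h2 : ∫ X in X0..X1, EF β r t X 0 ≤ ∫ _X in X0..X1, Real.exp (r * Real.sin δ) := by
      refine intervalIntegral.integral_mono_on (by linarith) ((continuous_EF_X _ _ _ _).intervalIntegrable _ _)
        (by simp) (fun X hX => ?_)
      rw [EF]
      apply Real.exp_le_exp.2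
      rw [mul_zero, zero_div, neg_zero, Real.exp_zero, mul_one, zero_add]
      apply mul_le_mul_of_nonneg_left _ hr.le
      rw [← Real.cos_pi_div_two_sub]
      apply Real.cos_le_cos_of_nonneg_of_le_pi (by linarith) (by linarith [hX.2])
      linarith [hX.1]
    refine h2.trans (le_of_eq ?_)
    rw [intervalIntegral.integral_const, smul_eq_mul]
    congr 1
    rw [hX0, hX1]; ring
  have hcs : ∀ s, Real.cos (Real.pi / 2 + s) = -Real.sin s := fun s => by
    rw [add_comm, Real.cos_add_pi_div_two]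
  have b2 : ‖P (X2 + (0:ℝ) * I) - P (X1 + (0:ℝ) * I)‖ ≤
      (if t ≤ Real.pi then Real.pi / (2 * r) else Real.pi / r) := by
    rcases le_total t (Real.pi / 2) with h | h
    · have : X2 = X1 := by rw [hX2]; exact max_eq_right (by linarith)
      rw [this, sub_self, norm_zero, if_pos (by linarith)]
      positivity
    · have h20 : X2 = 0 := by rw [hX2]; exact max_eq_left (by linarith)
      have h1 := bd_hor hP (by linarith : X1 ≤ X2) 0
      rw [et] at h1
      refine h1.trans ?_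
      have e0 : (0:ℝ) = Real.pi / 2 + (t - Real.pi / 2) - t := by ring
      have h2 : ∫ X in X1..X2, EF β r t X 0 =
          ∫ X in (Real.pi / 2 - t)..(Real.pi / 2 + (t - Real.pi / 2) - t), EF β r t X 0 := by
        rw [← hX1, ← e0, h20]
      rw [h2]
      split_ifs with hpt
      · exact int_axis_q hr (by linarith) (by linarith) hcs
      · exact int_axis_h hr (by linarith) (by linarith) hcs
  have b3 : ‖P (X2 + (0:ℝ) * I) - P (X2 + (-1 : ℝ) * I)‖ ≤ L := by
    have h1 := bd_ver hP (by norm_num : (-1:ℝ) ≤ 0) X2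
    rw [et] at h1
    refine h1.trans ?_
    rcases hL with h | ⟨h, h'⟩
    · have := int_leg_one (β := β) (r := r) (t := t) hβ hr.le hX20 (a := -1) (by norm_num) hc2
      linarith
    · have h20 : X2 = 0 := by rw [hX2]; exact max_eq_left (by linarith)
      rw [h20]
      exact (int_leg_zero hr (by norm_num) (Real.cos_neg_of_pi_div_two_lt_of_lt h (by linarith))).trans h'
  have b4 : ‖P (X4 + (-1 : ℝ) * I) - P (X2 + (-1 : ℝ) * I)‖ ≤ β := by
    have h1 := bd_hor hP hX24 (-1)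
    rw [et] at h1
    refine h1.trans ((int_hneg hβ hr.le hX24 (fun X hX => ?_)).trans ?_)
    · exact Real.cos_nonpos_of_pi_div_two_le_of_le (by linarith [hX.1]) (by linarith [hX.2])
    · have : Real.exp (-(X2 / β)) ≤ 1 := Real.exp_le_one_iff.2 (by
        have := div_nonneg hX20 hβ.le
        linarith)
      nlinarith
  have b5 : ‖lR - P (X4 + (-1 : ℝ) * I)‖ ≤ HUMP β r t := by
    have h1 := bd_RT hβ hr.le hP hl X4 (Y := -1) (by norm_num)
    rw [et] at h1
    refine h1.trans ?_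
    rw [hX4]
    exact int_hump hβ hr.le
  have hsum : ‖lR - lL‖ ≤ ‖lR - P (X4 + (-1 : ℝ) * I)‖ + ‖P (X4 + (-1 : ℝ) * I) - P (X2 + (-1 : ℝ) * I)‖ +
      ‖P (X2 + (0:ℝ) * I) - P (X2 + (-1 : ℝ) * I)‖ + ‖P (X2 + (0:ℝ) * I) - P (X1 + (0:ℝ) * I)‖ +
      ‖P (X1 + (0:ℝ) * I) - P (X0 + (0:ℝ) * I)‖ + ‖P (X0 + (0:ℝ) * I) - lL‖ := by
    have e1 : lR - lL = (lR - P (X4 + (-1 : ℝ) * I)) + (P (X4 + (-1 : ℝ) * I) - P (X2 + (-1 : ℝ) * I)) +
      -(P (X2 + (0:ℝ) * I) - P (X2 + (-1 : ℝ) * I)) + (P (X2 + (0:ℝ) * I) - P (X1 + (0:ℝ) * I)) +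
      (P (X1 + (0:ℝ) * I) - P (X0 + (0:ℝ) * I)) + (P (X0 + (0:ℝ) * I) - lL) := by
      ring
    rw [e1]
    refine (norm_add_le _ _).trans (add_le_add_left ?_ _)
    refine (norm_add_le _ _).trans (add_le_add_left ?_ _)
    refine (norm_add_le _ _).trans (add_le_add_left ?_ _)
    refine (norm_add_le _ _).trans (add_le_add ?_ (norm_neg _).le)
    exact norm_add_le _ _
  have hC := C0_pos hβ
  have hfin := mul_le_mul_of_nonneg_left (hsum.trans (add_le_add (add_le_add (add_le_add (add_le_add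
    (add_le_add b5 b4) b3) b2) b1) b0)) hC.le
  refine hfin.trans (le_of_eq ?_)
  ring

end

end Sok
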