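import Pool.Agent.Lib.MP_816dec_an.Far2
import Pool.Agent.Lib.MP_816dec_an.Laplace

/-!
MP_816dec_an: upper bound for `F_β` from the line of direction `(4 - 3 i) / 5` through the saddle, down to the
real axis, then `X = const` down to the height `-1`, then the hump (saddles with `0 < x`, `0 < y`).
-/

set_option autoImplicit false

open Complex Set Filter Topology MeasureTheory

namespace Sok

section

variable {β r t : ℝ}

private theorem prim_line {h P : ℂ → ℂ} (hh : Differentiable ℂ h) (hP : ∀ x, HasDerivAt P (h x) x) (ω p : ℂ) (a b : ℝ) :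
    ω * ∫ s in a..b, h (p + ω * s) = P (p + ω * b) - P (p + ω * a) := by
  have h1 : ∀ s ∈ uIcc a b, HasDerivAt (fun s : ℝ => P (p + ω * s)) (ω * h (p + ω * s)) s := by
    intro s _
    have h2 : HasDerivAt (fun s : ℝ => p + ω * (s : ℂ)) ω s := by
      have := ((Complex.ofRealCLM.hasDerivAt (x := s)).const_mul ω).const_add p
      simpa using this
    have h3 := HasDerivAt.comp s (hP (p + ω * s)) h2
    rw [mul_comm] at h3
    exact h3
  have h4 : IntervalIntegrable (fun s : ℝ => ω * h (p + ω * s)) volume a b := by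
    apply Continuous.intervalIntegrable
    have := hh.continuous
    fun_prop
  rw [← intervalIntegral.integral_const_mul, intervalIntegral.integral_eq_sub_of_hasDerivAt h1 h4]

/-- the exponent on the line -/
private theorem gline {x y s : ℝ} {M : ℝ} (hM1 : 1 ≤ M) (hM : Real.exp (3 * s / 5) ≤ M) :
    (x + 4 * s / 5) * (y - 3 * s / 5) + Real.exp (3 * s / 5) * (x * Real.cos (4 * s / 5) - y * Real.sin (4 * s / 5)) ≤
      x * (1 + y) - (24 + 7 * x + 24 * y) / 50 * s ^ 2 - (117 * x + 44 * y) / 750 * s ^ 3 +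
        Real.sqrt (x ^ 2 + y ^ 2) * M * s ^ 4 / 24 := by
  have hk : ‖(((3 / 5 : ℝ) : ℂ) + ((4 / 5 : ℝ) : ℂ) * I)‖ = 1 := by
    rw [Complex.norm_add_mul_I]
    norm_num
  have h1 := norm_exp_sub_four_le ((((3 / 5 : ℝ) : ℂ) + ((4 / 5 : ℝ) : ℂ) * I) * (s : ℂ)) (M := M) hM1 (by
    have e : ((((3 / 5 : ℝ) : ℂ) + ((4 / 5 : ℝ) : ℂ) * I) * (s : ℂ)).re = 3 * s / 5 := by
      simp; ring
    rw [e]; exact hM)
  rw [norm_mul, hk, one_mul, Complex.norm_real, Real.norm_eq_abs] at h1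
  have e4 : |s| ^ 4 = s ^ 4 := by
    have : |s| ^ 4 = (|s| ^ 2) ^ 2 := by ring
    rw [this, sq_abs]; ring
  rw [e4] at h1
  obtain ⟨R, hR⟩ : ∃ R : ℂ, R = cexp ((((3 / 5 : ℝ) : ℂ) + ((4 / 5 : ℝ) : ℂ) * I) * (s : ℂ)) - 1 -
      ((((3 / 5 : ℝ) : ℂ) + ((4 / 5 : ℝ) : ℂ) * I) * (s : ℂ)) -
      ((((3 / 5 : ℝ) : ℂ) + ((4 / 5 : ℝ) : ℂ) * I) * (s : ℂ)) ^ 2 / 2 -
      ((((3 / 5 : ℝ) : ℂ) + ((4 / 5 : ℝ) : ℂ) * I) * (s : ℂ)) ^ 3 / 6 := ⟨_, rfl⟩
  rw [← hR] at h1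
  have e1 : cexp ((((3 / 5 : ℝ) : ℂ) + ((4 / 5 : ℝ) : ℂ) * I) * (s : ℂ)) =
      ((Real.exp (3 * s / 5) * Real.cos (4 * s / 5) : ℝ) : ℂ) +
        ((Real.exp (3 * s / 5) * Real.sin (4 * s / 5) : ℝ) : ℂ) * I := by
    have e2 : (((3 / 5 : ℝ) : ℂ) + ((4 / 5 : ℝ) : ℂ) * I) * (s : ℂ) = ((3 * s / 5 : ℝ) : ℂ) + ((4 * s / 5 : ℝ) : ℂ) * I := by
      push_cast; ring
    rw [e2, Complex.exp_add, Complex.exp_mul_I, ← Complex.ofReal_exp, ← Complex.ofReal_cos, ← Complex.ofReal_sin]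
    push_cast
    ring
  -- real part of `σ R`
  have h2 : (((x : ℂ) + (y : ℂ) * I) * R).re ≤ Real.sqrt (x ^ 2 + y ^ 2) * (M * (s ^ 4 / 24)) := by
    refine (Complex.re_le_norm _).trans ?_
    rw [norm_mul, Complex.norm_add_mul_I]
    exact mul_le_mul_of_nonneg_left h1 (Real.sqrt_nonneg _)
  have h3 : (((x : ℂ) + (y : ℂ) * I) * R).re =
      Real.exp (3 * s / 5) * (x * Real.cos (4 * s / 5) - y * Real.sin (4 * s / 5)) - x - (3 * x - 4 * y) / 5 * s +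
        (7 * x + 24 * y) / 50 * s ^ 2 + (117 * x + 44 * y) / 750 * s ^ 3 := by
    rw [hR, e1]
    have e5 : ∀ A B : ℝ, (((x : ℂ) + (y : ℂ) * I) * (((A : ℂ) + (B : ℂ) * I) - 1 -
        ((((3 / 5 : ℝ) : ℂ) + ((4 / 5 : ℝ) : ℂ) * I) * (s : ℂ)) -
        ((((3 / 5 : ℝ) : ℂ) + ((4 / 5 : ℝ) : ℂ) * I) * (s : ℂ)) ^ 2 / 2 -
        ((((3 / 5 : ℝ) : ℂ) + ((4 / 5 : ℝ) : ℂ) * I) * (s : ℂ)) ^ 3 / 6)) =
        ((x * A - y * B - x - (3 * x - 4 * y) / 5 * s + (7 * x + 24 * y) / 50 * s ^ 2 +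
          (117 * x + 44 * y) / 750 * s ^ 3 : ℝ) : ℂ) +
        ((x * B + y * A - y - (4 * x + 3 * y) / 5 * s + (7 * y - 24 * x) / 50 * s ^ 2 +
          (117 * y - 44 * x) / 750 * s ^ 3 : ℝ) : ℂ) * I := by
      intro A B
      push_cast
      ring_nf
      simp only [I_sq, I_pow_three, I_pow_four]
      ring
    rw [e5]
    simp only [add_re, ofReal_re, mul_re, I_re, mul_zero, ofReal_im, I_im, mul_one, sub_self, add_zero]
    ring
  rw [h3] at h2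
  nlinarith [h2]

private theorem gauss_half {c T : ℝ} (hβ : 0 < β) (hc : 0 < c) (hT : 0 ≤ T) :
    ∫ s in (0:ℝ)..T, Real.exp (-(c / (2 * β)) * s ^ 2) ≤ Real.sqrt (2 * Real.pi * β) * (1 / 2 * (1 / Real.sqrt c)) := by
  have hb : 0 < c / (2 * β) := by positivity
  have h1 : ∫ s in (0:ℝ)..T, Real.exp (-(c / (2 * β)) * s ^ 2) ≤
      ∫ s in Ioi (0:ℝ), Real.exp (-(c / (2 * β)) * s ^ 2) := by
    rw [intervalIntegral.integral_of_le hT]
    exact setIntegral_mono_set ((integrable_exp_neg_mul_sq hb).integrableOn)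
      (Filter.Eventually.of_forall fun s => (Real.exp_pos _).le) (Ioc_subset_Ioi_self.eventuallyLE)
  refine h1.trans (le_of_eq ?_)
  rw [integral_gaussian_Ioi]
  have hpi := Real.pi_pos
  have e1 : Real.pi / (c / (2 * β)) = (2 * Real.pi * β) / c := by field_simp
  rw [e1, Real.sqrt_div (by positivity)]
  ring

/-- the exponent of `EF` on the line -/
private theorem EF_line (hβ : 0 < β) {x y : ℝ} (hc : β * r * Real.exp (-y) * Real.cos (t + x) = x)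
    (hs : β * r * Real.exp (-y) * Real.sin (t + x) = y) (s : ℝ) :
    EF β r t (x + 4 * s / 5) (y - 3 * s / 5) = Real.exp (((x + 4 * s / 5) * (y - 3 * s / 5) +
      Real.exp (3 * s / 5) * (x * Real.cos (4 * s / 5) - y * Real.sin (4 * s / 5))) / β) := by
  unfold EF
  congr 1
  have e1 : Real.exp (-(y - 3 * s / 5)) = Real.exp (-y) * Real.exp (3 * s / 5) := by
    rw [← Real.exp_add]; congr 1; ring
  have e2 : Real.cos (x + 4 * s / 5 + t) = Real.cos (t + x) * Real.cos (4 * s / 5) - Real.sin (t + x) * Real.sin (4 * s / 5) := by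
    rw [← Real.cos_add]; congr 1; ring
  rw [e1, e2]
  have e3 : r * (Real.exp (-y) * Real.exp (3 * s / 5)) *
      (Real.cos (t + x) * Real.cos (4 * s / 5) - Real.sin (t + x) * Real.sin (4 * s / 5)) =
      Real.exp (3 * s / 5) * ((β * r * Real.exp (-y) * Real.cos (t + x)) * Real.cos (4 * s / 5) -
        (β * r * Real.exp (-y) * Real.sin (t + x)) * Real.sin (4 * s / 5)) / β := by
    field_simp
  rw [e3, hc, hs]
  field_simp

/-- **(T)**: tilted line, with a piece of length `d` of the real axis -/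
theorem far_Td (hβ : 0 < β) (hr : 0 < r) {x y cL cR d : ℝ} (hx : 0 < x) (hy : 0 < y) (hd0 : 0 ≤ d)
    (hd1 : d ≤ Real.pi / 2)
    (hc : β * r * Real.exp (-y) * Real.cos (t + x) = x) (hs : β * r * Real.exp (-y) * Real.sin (t + x) = y)
    (ha1 : Real.pi / 2 - d ≤ t + x + 4 * y / 3) (ha2 : t + x + 4 * y / 3 ≤ 3 * Real.pi / 2)
    (hcL0 : 0 < cL)
    (hcL : cL ≤ (24 + 7 * x + 24 * y) / 25 - (117 * x + 44 * y) / 300 - 25 / 192 * Real.sqrt (x ^ 2 + y ^ 2))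
    (hcR0 : 0 < cR) (hcR : cR ≤ (24 + 7 * x + 24 * y) / 25)
    (hcR2 : cR ≤ (24 + 7 * x + 24 * y) / 25 + (117 * x + 44 * y) / 225 * y -
      Real.sqrt (x ^ 2 + y ^ 2) * Real.exp y * (25 / 108 * y ^ 2)) :
    ‖F (cexp (I * β)) (r * cexp (I * ((t + β / 2 : ℝ) : ℂ)))‖ ≤
      Real.exp (x * (1 + y) / β) * (1 / 2 * (1 / Real.sqrt cL) + 1 / 2 * (1 / Real.sqrt cR)) +
      C0 β * (Real.exp (r * Real.exp (-(y + 3 / 4))) * (β / (y + 3 / 4) * Real.exp ((x - 1) * (y + 3 / 4) / β)) +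
        β / (x + 4 * y / 3) + β * Real.exp (-((x + 4 * y / 3) / β)) + HUMP β r t + d * Real.exp (r * Real.sin d)) := by
  have hpi := Real.pi_pos
  obtain ⟨P, lL, lR, hP, hl, hF⟩ := exists_F_lim hβ ((r : ℂ) * cexp (I * ((t + β / 2 : ℝ) : ℂ)))
  have et : t + β / 2 - β / 2 = t := by ring
  rw [norm_F_eq_C0 hβ hF]
  obtain ⟨X1, hX1⟩ : ∃ X1, X1 = x + 4 * y / 3 := ⟨_, rfl⟩
  obtain ⟨X4, hX4⟩ : ∃ X4, X4 = 3 * Real.pi / 2 - t := ⟨_, rfl⟩
  obtain ⟨X2, hX2⟩ : ∃ X2, X2 = max X1 (Real.pi / 2 - t) := ⟨_, rfl⟩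
  have hX1p : 0 < X1 := by rw [hX1]; positivity
  have h12 : X1 ≤ X2 := by rw [hX2]; exact le_max_left _ _
  have h12' : Real.pi / 2 - t ≤ X2 := by rw [hX2]; exact le_max_right _ _
  have h12d : X2 - X1 ≤ d := by
    rw [hX2, sub_le_iff_le_add]
    exact max_le (by linarith) (by rw [hX1]; linarith)
  have h24 : X2 ≤ X4 := by
    rw [hX2, hX4]
    exact max_le (by rw [hX1]; linarith) (by linarith)
  have hX2p : 0 < X2 := hX1p.trans_le h12
  have hc1 : Real.cos (X2 + t) ≤ 0 :=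
    Real.cos_nonpos_of_pi_div_two_le_of_le (by linarith) (by rw [hX4] at h24; linarith)
  have hsd : 0 ≤ Real.sin d := Real.sin_nonneg_of_nonneg_of_le_pi hd0 (by linarith)
  -- the left tail
  have b1 : ‖P (((x - 1 : ℝ) : ℂ) + ((y + 3 / 4 : ℝ) : ℂ) * I) - lL‖ ≤
      Real.exp (r * Real.exp (-(y + 3 / 4))) * (β / (y + 3 / 4) * Real.exp ((x - 1) * (y + 3 / 4) / β)) :=
    bd_left hβ hr.le hP hl (x - 1) (by positivity)
  -- the line
  obtain ⟨E, hE⟩ : ∃ E, E = Real.exp (x * (1 + y) / β) := ⟨_, rfl⟩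
  have hω : ∀ s : ℝ, ((x : ℂ) + (y : ℂ) * I) + (4 - 3 * I) / 5 * (s : ℂ) =
      ((x + 4 * s / 5 : ℝ) : ℂ) + ((y - 3 * s / 5 : ℝ) : ℂ) * I := by
    intro s; push_cast; ring
  have hωn : ‖((4 - 3 * I) / 5 : ℂ)‖ = 1 := by
    have e : ((4 - 3 * I) / 5 : ℂ) = ((4 / 5 : ℝ) : ℂ) + ((-(3 / 5) : ℝ) : ℂ) * I := by push_cast; ring
    rw [e, Complex.norm_add_mul_I]
    norm_num
  have hseg : ∀ {a b : ℝ}, a ≤ b → ‖P (((x : ℂ) + (y : ℂ) * I) + (4 - 3 * I) / 5 * (b : ℂ)) -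
      P (((x : ℂ) + (y : ℂ) * I) + (4 - 3 * I) / 5 * (a : ℂ))‖ ≤
      ∫ s in a..b, EF β r t (x + 4 * s / 5) (y - 3 * s / 5) := by
    intro a b hab
    rw [← prim_line (kr_GG _).diff hP, norm_mul, hωn, one_mul]
    refine (intervalIntegral.norm_integral_le_integral_norm hab).trans (le_of_eq ?_)
    refine intervalIntegral.integral_congr fun s _ => ?_
    rw [hω, norm_GG_polar, et]
  have hcont : Continuous fun s : ℝ => EF β r t (x + 4 * s / 5) (y - 3 * s / 5) := by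
    unfold EF; fun_prop
  obtain ⟨S, hS⟩ : ∃ S, S = Real.sqrt (x ^ 2 + y ^ 2) := ⟨_, rfl⟩
  have hS0 : 0 ≤ S := by rw [hS]; exact Real.sqrt_nonneg _
  rw [← hS] at hcL hcR2
  have b2 : ‖P (((x : ℂ) + (y : ℂ) * I) + (4 - 3 * I) / 5 * ((5 * y / 3 : ℝ) : ℂ)) -
      P (((x : ℂ) + (y : ℂ) * I) + (4 - 3 * I) / 5 * ((0 : ℝ) : ℂ))‖ ≤
      E * (Real.sqrt (2 * Real.pi * β) * (1 / 2 * (1 / Real.sqrt cR))) := by
    refine (hseg (by positivity)).trans ?_
    refine le_trans ?_ (mul_le_mul_of_nonneg_left (gauss_half hβ hcR0 (by positivity : (0:ℝ) ≤ 5 * y / 3)) (by rw [hE]; positivity))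
    rw [← intervalIntegral.integral_const_mul]
    refine intervalIntegral.integral_mono_on (by positivity) (hcont.intervalIntegrable _ _)
      ((by fun_prop : Continuous fun s : ℝ => E * Real.exp (-(cR / (2 * β)) * s ^ 2)).intervalIntegrable _ _)
      (fun s hs1 => ?_)
    have hs0 : 0 ≤ s := hs1.1
    have hs2 : s ≤ 5 * y / 3 := hs1.2
    rw [EF_line hβ hc hs, hE, ← Real.exp_add]
    apply Real.exp_le_exp.2
    have h1 := gline (x := x) (y := y) (s := s) (M := Real.exp y) (Real.one_le_exp hy.le)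
      (Real.exp_le_exp.2 (by linarith))
    rw [← hS] at h1
    have e1 : x * (1 + y) / β + -(cR / (2 * β)) * s ^ 2 = (x * (1 + y) - cR / 2 * s ^ 2) / β := by field_simp; ring
    rw [e1]
    refine div_le_div_of_nonneg_right (h1.trans ?_) hβ.le
    -- concavity
    obtain ⟨ζ, hζ⟩ : ∃ ζ, ζ = S * Real.exp y / 24 := ⟨_, rfl⟩
    have hζ0 : 0 ≤ ζ := by rw [hζ]; positivity
    obtain ⟨b, hb⟩ : ∃ b, b = (117 * x + 44 * y) / 750 := ⟨_, rfl⟩
    obtain ⟨a, ha⟩ : ∃ a, a = (24 + 7 * x + 24 * y) / 25 := ⟨_, rfl⟩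
    have g1 : cR ≤ a := by rw [ha]; exact hcR
    have g2 : cR ≤ a + 2 * b * (5 * y / 3) - 2 * ζ * (5 * y / 3) ^ 2 := by
      rw [ha, hb, hζ]
      refine hcR2.trans (le_of_eq ?_)
      ring
    have key : 0 ≤ a / 2 + b * s - ζ * s ^ 2 - cR / 2 := by
      have hk : 0 ≤ (5 * y / 3) * (a / 2 + b * s - ζ * s ^ 2 - cR / 2) := by
        have e2 : (5 * y / 3) * (a / 2 + b * s - ζ * s ^ 2 - cR / 2) =
            (5 * y / 3 - s) * ((a - cR) / 2) + s * ((a + 2 * b * (5 * y / 3) - 2 * ζ * (5 * y / 3) ^ 2 - cR) / 2) +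
              ζ * (5 * y / 3) * s * (5 * y / 3 - s) := by ring
        rw [e2]
        have k1 : 0 ≤ (5 * y / 3 - s) * ((a - cR) / 2) := mul_nonneg (by linarith) (by linarith)
        have k2 : 0 ≤ s * ((a + 2 * b * (5 * y / 3) - 2 * ζ * (5 * y / 3) ^ 2 - cR) / 2) :=
          mul_nonneg hs0 (by linarith)
        have k3 : 0 ≤ ζ * (5 * y / 3) * s * (5 * y / 3 - s) :=
          mul_nonneg (mul_nonneg (mul_nonneg hζ0 (by positivity)) hs0) (by linarith)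
        linarith
      exact nonneg_of_mul_nonneg_right hk (by positivity)
    have e3 : x * (1 + y) - (24 + 7 * x + 24 * y) / 50 * s ^ 2 - (117 * x + 44 * y) / 750 * s ^ 3 +
        S * Real.exp y * s ^ 4 / 24 = x * (1 + y) - cR / 2 * s ^ 2 - s ^ 2 * (a / 2 + b * s - ζ * s ^ 2 - cR / 2) := by
      rw [ha, hb, hζ]; ring
    rw [e3]
    have := mul_nonneg (sq_nonneg s) key
    linarith
  have b3 : ‖P (((x : ℂ) + (y : ℂ) * I) + (4 - 3 * I) / 5 * ((0 : ℝ) : ℂ)) -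
      P (((x : ℂ) + (y : ℂ) * I) + (4 - 3 * I) / 5 * ((-(5 / 4) : ℝ) : ℂ))‖ ≤
      E * (Real.sqrt (2 * Real.pi * β) * (1 / 2 * (1 / Real.sqrt cL))) := by
    refine (hseg (by norm_num)).trans ?_
    have hflip : ∫ s in (-(5 / 4) : ℝ)..0, EF β r t (x + 4 * s / 5) (y - 3 * s / 5) =
        ∫ q in (0:ℝ)..(5 / 4), EF β r t (x + 4 * (-q) / 5) (y - 3 * (-q) / 5) := by
      have := intervalIntegral.integral_comp_neg (a := 0) (b := 5 / 4)
        (fun s : ℝ => EF β r t (x + 4 * s / 5) (y - 3 * s / 5))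
      rw [neg_zero] at this
      exact this.symm
    rw [hflip]
    refine le_trans ?_ (mul_le_mul_of_nonneg_left (gauss_half hβ hcL0 (by norm_num : (0:ℝ) ≤ 5 / 4)) (by rw [hE]; positivity))
    rw [← intervalIntegral.integral_const_mul]
    refine intervalIntegral.integral_mono_on (by norm_num)
      ((by unfold EF; fun_prop : Continuous fun q : ℝ => EF β r t (x + 4 * (-q) / 5) (y - 3 * (-q) / 5)).intervalIntegrable _ _)
      ((by fun_prop : Continuous fun s : ℝ => E * Real.exp (-(cL / (2 * β)) * s ^ 2)).intervalIntegrable _ _)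
      (fun q hq => ?_)
    have hq0 : 0 ≤ q := hq.1
    have hq2 : q ≤ 5 / 4 := hq.2
    rw [EF_line hβ hc hs, hE, ← Real.exp_add]
    apply Real.exp_le_exp.2
    have h1 := gline (x := x) (y := y) (s := -q) (M := 1) le_rfl
      (Real.exp_le_one_iff.2 (by linarith))
    rw [← hS] at h1
    have e1 : x * (1 + y) / β + -(cL / (2 * β)) * q ^ 2 = (x * (1 + y) - cL / 2 * q ^ 2) / β := by field_simp; ring
    rw [e1]
    refine div_le_div_of_nonneg_right (h1.trans ?_) hβ.le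
    have hb0 : 0 ≤ (117 * x + 44 * y) / 750 := by positivity
    have k1 : (117 * x + 44 * y) / 750 * q ≤ (117 * x + 44 * y) / 750 * (5 / 4) := mul_le_mul_of_nonneg_left hq2 hb0
    have k2 : S / 24 * q ^ 2 ≤ S / 24 * (5 / 4) ^ 2 :=
      mul_le_mul_of_nonneg_left (pow_le_pow_left₀ hq0 hq2 2) (by positivity)
    have key : 0 ≤ (24 + 7 * x + 24 * y) / 50 - (117 * x + 44 * y) / 750 * q - S / 24 * q ^ 2 - cL / 2 := by
      linarith
    have := mul_nonneg (sq_nonneg q) key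
    nlinarith
  -- the right part
  have b7 : ‖P ((X2 : ℂ) + ((0 : ℝ) : ℂ) * I) - P ((X1 : ℂ) + ((0 : ℝ) : ℂ) * I)‖ ≤ d * Real.exp (r * Real.sin d) := by
    have h1 := bd_hor hP h12 0
    rw [et] at h1
    refine h1.trans ?_
    have h2 : ∫ X in X1..X2, EF β r t X 0 ≤ ∫ _X in X1..X2, Real.exp (r * Real.sin d) := by
      refine intervalIntegral.integral_mono_on h12 ((continuous_EF_X _ _ _ _).intervalIntegrable _ _)
        (by simp) (fun X hX => ?_)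
      rw [EF]
      apply Real.exp_le_exp.2
      rw [mul_zero, zero_div, zero_add, neg_zero, Real.exp_zero, mul_one]
      apply mul_le_mul_of_nonneg_left _ hr.le
      rcases le_total (X + t) (Real.pi / 2) with h5 | h5
      · have h3 : Real.cos (X + t) = Real.sin (Real.pi / 2 - (X + t)) := by rw [Real.sin_pi_div_two_sub]
        rw [h3]
        have h4 : Real.pi / 2 - d ≤ X + t := by rw [hX1] at hX; linarith [hX.1]
        exact Real.sin_le_sin_of_le_of_le_pi_div_two (by linarith) hd1 (by linarith)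
      · refine le_trans (Real.cos_nonpos_of_pi_div_two_le_of_le h5 ?_) hsd
        rw [hX4] at h24
        linarith [hX.2]
    refine h2.trans ?_
    simp only [intervalIntegral.integral_const, smul_eq_mul]
    exact mul_le_mul_of_nonneg_right h12d (Real.exp_pos _).le
  have b4 : ‖P ((X2 : ℂ) + ((0 : ℝ) : ℂ) * I) - P ((X2 : ℂ) + ((-1 : ℝ) : ℂ) * I)‖ ≤ β / X1 := by
    have h1 := bd_ver hP (by norm_num : (-1:ℝ) ≤ 0) X2
    rw [et] at h1
    refine (h1.trans (int_leg hβ hr.le hX2p (by norm_num) hc1)).trans ?_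
    rw [mul_zero, zero_div, Real.exp_zero, mul_one]
    exact div_le_div_of_nonneg_left hβ.le hX1p h12
  have b5 : ‖P ((X4 : ℂ) + ((-1 : ℝ) : ℂ) * I) - P ((X2 : ℂ) + ((-1 : ℝ) : ℂ) * I)‖ ≤ β * Real.exp (-(X1 / β)) := by
    have h1 := bd_hor hP h24 (-1)
    rw [et] at h1
    refine (h1.trans (int_hneg hβ hr.le h24 (fun X hX => ?_))).trans ?_
    · exact Real.cos_nonpos_of_pi_div_two_le_of_le (by linarith [hX.1]) (by rw [hX4] at hX; linarith [hX.2])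
    · apply mul_le_mul_of_nonneg_left _ hβ.le
      apply Real.exp_le_exp.2
      exact neg_le_neg (div_le_div_of_nonneg_right h12 hβ.le)
  have b6 : ‖lR - P ((X4 : ℂ) + ((-1 : ℝ) : ℂ) * I)‖ ≤ HUMP β r t := by
    have h1 := bd_RT hβ hr.le hP hl X4 (Y := -1) (by norm_num)
    rw [et] at h1
    refine h1.trans ?_
    rw [hX4]
    exact int_hump hβ hr.le
  have e0 : ((x : ℂ) + (y : ℂ) * I) + (4 - 3 * I) / 5 * ((5 * y / 3 : ℝ) : ℂ) = (X1 : ℂ) + ((0 : ℝ) : ℂ) * I := by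
    rw [hX1]; push_cast; ring
  have e1 : ((x : ℂ) + (y : ℂ) * I) + (4 - 3 * I) / 5 * ((-(5 / 4) : ℝ) : ℂ) =
      ((x - 1 : ℝ) : ℂ) + ((y + 3 / 4 : ℝ) : ℂ) * I := by
    push_cast; ring
  rw [e0] at b2
  rw [e1] at b3
  obtain ⟨p1, hp1⟩ : ∃ p1, p1 = P (((x - 1 : ℝ) : ℂ) + ((y + 3 / 4 : ℝ) : ℂ) * I) := ⟨_, rfl⟩
  obtain ⟨p2, hp2⟩ : ∃ p2, p2 = P (((x : ℂ) + (y : ℂ) * I) + (4 - 3 * I) / 5 * ((0 : ℝ) : ℂ)) := ⟨_, rfl⟩
  obtain ⟨p3, hp3⟩ : ∃ p3, p3 = P ((X1 : ℂ) + ((0 : ℝ) : ℂ) * I) := ⟨_, rfl⟩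
  obtain ⟨p6, hp6⟩ : ∃ p6, p6 = P ((X2 : ℂ) + ((0 : ℝ) : ℂ) * I) := ⟨_, rfl⟩
  obtain ⟨p4, hp4⟩ : ∃ p4, p4 = P ((X2 : ℂ) + ((-1 : ℝ) : ℂ) * I) := ⟨_, rfl⟩
  obtain ⟨p5, hp5⟩ : ∃ p5, p5 = P ((X4 : ℂ) + ((-1 : ℝ) : ℂ) * I) := ⟨_, rfl⟩
  rw [← hp1] at b1
  rw [← hp1, ← hp2] at b3
  rw [← hp2, ← hp3] at b2
  rw [← hp6, ← hp3] at b7
  rw [← hp6, ← hp4] at b4
  rw [← hp4, ← hp5] at b5
  rw [← hp5] at b6
  have hsum : ‖lR - lL‖ ≤ ‖lR - p5‖ + ‖p5 - p4‖ + ‖p6 - p4‖ + ‖p6 - p3‖ + ‖p3 - p2‖ + ‖p2 - p1‖ + ‖p1 - lL‖ := by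
    have e2 : lR - lL = (lR - p5) + (p5 - p4) + -(p6 - p4) + (p6 - p3) + (p3 - p2) + (p2 - p1) + (p1 - lL) := by ring
    rw [e2]
    refine (norm_add_le _ _).trans ?_
    refine add_le_add_left ((norm_add_le _ _).trans ?_) _
    refine add_le_add_left ((norm_add_le _ _).trans ?_) _
    refine add_le_add_left ((norm_add_le _ _).trans ?_) _
    refine add_le_add_left ((norm_add_le _ _).trans ?_) _
    rw [norm_neg]
    exact add_le_add_left (norm_add_le _ _) _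
  have hC := C0_pos hβ
  have hfin := mul_le_mul_of_nonneg_left (hsum.trans (add_le_add (add_le_add (add_le_add (add_le_add (add_le_add (add_le_add b6 b5) b4) b7) b2) b3) b1)) hC.le
  refine hfin.trans (le_of_eq ?_)
  have hCs : C0 β * Real.sqrt (2 * Real.pi * β) = 1 := by
    unfold C0
    have : 0 < Real.sqrt (2 * Real.pi * β) := Real.sqrt_pos.2 (by positivity)
    field_simp
  rw [← hE, ← hX1]
  linear_combination (E * (1 / 2 * (1 / Real.sqrt cL)) + E * (1 / 2 * (1 / Real.sqrt cR))) * hCs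

/-- **(T)**: tilted line -/
theorem far_T (hβ : 0 < β) (hr : 0 < r) {x y cL cR : ℝ} (hx : 0 < x) (hy : 0 < y)
    (hc : β * r * Real.exp (-y) * Real.cos (t + x) = x) (hs : β * r * Real.exp (-y) * Real.sin (t + x) = y)
    (ha1 : Real.pi / 2 ≤ t + x + 4 * y / 3) (ha2 : t + x + 4 * y / 3 ≤ 3 * Real.pi / 2)
    (hcL0 : 0 < cL)
    (hcL : cL ≤ (24 + 7 * x + 24 * y) / 25 - (117 * x + 44 * y) / 300 - 25 / 192 * Real.sqrt (x ^ 2 + y ^ 2))
    (hcR0 : 0 < cR) (hcR : cR ≤ (24 + 7 * x + 24 * y) / 25)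
    (hcR2 : cR ≤ (24 + 7 * x + 24 * y) / 25 + (117 * x + 44 * y) / 225 * y -
      Real.sqrt (x ^ 2 + y ^ 2) * Real.exp y * (25 / 108 * y ^ 2)) :
    ‖F (cexp (I * β)) (r * cexp (I * ((t + β / 2 : ℝ) : ℂ)))‖ ≤
      Real.exp (x * (1 + y) / β) * (1 / 2 * (1 / Real.sqrt cL) + 1 / 2 * (1 / Real.sqrt cR)) +
      C0 β * (Real.exp (r * Real.exp (-(y + 3 / 4))) * (β / (y + 3 / 4) * Real.exp ((x - 1) * (y + 3 / 4) / β)) +
        β / (x + 4 * y / 3) + β * Real.exp (-((x + 4 * y / 3) / β)) + HUMP β r t) := by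
  have h1 := far_Td hβ hr (d := 0) hx hy le_rfl (by have := Real.pi_pos; positivity) hc hs (by linarith) ha2 hcL0 hcL
    hcR0 hcR hcR2
  rwa [zero_mul, add_zero] at h1

end

end Sok
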