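import Pool.Agent.Lib.MP_816dec_an.SadKK

/-!
MP_816dec_an, b = 1: the identity `XL K1 = L XL KK + L/(1-iL) XL Kq`, `Kq = (e^{iu} - 1 - iu) KK`, and primitives
with all their limits, closed under linear combinations.
-/

set_option autoImplicit false

open Complex Set Filter Topology MeasureTheory

namespace Sok.W

/-- primitive of `h` with its limits; `θ` only controls the vertical legs `Re y = S` -/
structure Pk (θ : ℝ) (h P : ℂ → ℂ) (lL V lR : ℂ) : Prop where
  prim : ∀ x, HasDerivAt P (h x) x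
  diff : Differentiable ℂ h
  left : ∀ (y0 : ℂ) (γ : ℝ), 0 < Real.cos γ → Real.sin γ < 0 →
    Tendsto (fun t : ℝ => P (y0 + t * cexp (γ * I))) atBot (𝓝 lL)
  leftH : ∀ Y : ℝ, 0 < Y → Tendsto (fun X : ℝ => P (X + Y * I)) atBot (𝓝 lL)
  valley : ∀ S : ℝ, Real.pi / 2 ≤ S → S ≤ 3 * Real.pi / 2 → θ < min S Real.pi →
    Tendsto (fun s : ℝ => P (S + s * I)) atBot (𝓝 V)
  right : ∀ Y : ℝ, Y < 0 → Tendsto (fun X : ℝ => P (X + Y * I)) atTop (𝓝 lR)
  iL : IntegrableOn (fun X : ℝ => h (X + (1 : ℝ) * I)) (Iic Real.pi)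
  iV : IntegrableOn (fun s : ℝ => h ((Real.pi : ℝ) + s * I)) (Iic 1)
  iR : IntegrableOn (fun X : ℝ => h (X + (-1 : ℝ) * I)) (Ioi Real.pi)
  XL_eq : XL h = V - lL
  YR_eq : YR h = lR - V

theorem Pk.iV' {θ : ℝ} {h P : ℂ → ℂ} {lL V lR : ℂ} (hp : Pk θ h P lL V lR) :
    IntegrableOn (fun s : ℝ => h ((Real.pi : ℝ) + s * I)) (Iic (-1)) :=
  hp.iV.mono_set (Iic_subset_Iic.2 (by norm_num))

theorem Pk.of_pack {β r θ A : ℝ} (hβ : 0 < β) (hr : 0 < r) {h P : ℂ → ℂ} {lL V lR : ℂ}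
    (hp : Pack h P lL V lR) (hb : BdKK β r θ h A) (hA : 0 ≤ A) : Pk θ h P lL V lR := by
  refine ⟨hp.prim, hp.diff, fun y0 γ hc hs => hp.tendsto_left hβ hb hA y0 hc hs, ?_,
    fun S h1 h2 h3 => hp.tendsto_valley hβ hr hb hA h1 h2 h3, ?_, hp.left_int 1 one_pos _, hp.valley_int _,
    hp.right_int _ (by norm_num) _, hp.XL_eq, hp.YR_eq⟩
  · intro Y hY
    have h1 := intervalIntegral_tendsto_integral_Iic (0 : ℝ) (hp.left_int Y hY 0) tendsto_id
    have h2 := (tendsto_const_nhds (x := P ((0:ℝ) + Y * I))).sub h1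
    rw [hp.left Y hY 0] at h2
    have e : P ((0:ℝ) + Y * I) - (P ((0:ℝ) + Y * I) - lL) = lL := by ring
    rw [e] at h2
    refine h2.congr fun X => ?_
    rw [prim_hor hp.diff hp.prim]
    simp
  · intro Y hY
    have h1 := intervalIntegral_tendsto_integral_Ioi (0 : ℝ) (hp.right_int Y hY 0) tendsto_id
    have h2 := (tendsto_const_nhds (x := P ((0:ℝ) + Y * I))).add h1
    rw [hp.right Y hY 0] at h2
    have e : P ((0:ℝ) + Y * I) + (lR - P ((0:ℝ) + Y * I)) = lR := by ring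
    rw [e] at h2
    refine h2.congr fun X => ?_
    rw [prim_hor hp.diff hp.prim]
    simp

theorem Pk.mono {θ θ' : ℝ} (h : θ ≤ θ') {h' P : ℂ → ℂ} {lL V lR : ℂ} (hp : Pk θ h' P lL V lR) : Pk θ' h' P lL V lR :=
  ⟨hp.prim, hp.diff, hp.left, hp.leftH, fun S h1 h2 h3 => hp.valley S h1 h2 (h.trans_lt h3), hp.right, hp.iL, hp.iV, hp.iR,
    hp.XL_eq, hp.YR_eq⟩

theorem Pk.smul {θ : ℝ} {h P : ℂ → ℂ} {lL V lR : ℂ} (hp : Pk θ h P lL V lR) (c : ℂ) :
    Pk θ (fun y => c * h y) (fun y => c * P y) (c * lL) (c * V) (c * lR) := by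
  refine ⟨fun x => (hp.prim x).const_mul c, hp.diff.const_mul c, fun y0 γ h1 h2 => (hp.left y0 γ h1 h2).const_mul c,
    fun Y hY => (hp.leftH Y hY).const_mul c, fun S h1 h2 h3 => (hp.valley S h1 h2 h3).const_mul c,
    fun Y hY => (hp.right Y hY).const_mul c, hp.iL.const_mul c, hp.iV.const_mul c, hp.iR.const_mul c, ?_, ?_⟩
  · have h1 : XL (fun y => c * h y) = c * XL h := by
      unfold XL
      rw [integral_const_mul, integral_const_mul]
      ring
    rw [h1, hp.XL_eq]; ring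
  · have h1 : YR (fun y => c * h y) = c * YR h := by
      unfold YR
      rw [integral_const_mul, integral_const_mul]
      ring
    rw [h1, hp.YR_eq]; ring

theorem Pk.add {θ : ℝ} {h P : ℂ → ℂ} {lL V lR : ℂ} (hp : Pk θ h P lL V lR) {h' P' : ℂ → ℂ} {lL' V' lR' : ℂ}
    (hp' : Pk θ h' P' lL' V' lR') :
    Pk θ (fun y => h y + h' y) (fun y => P y + P' y) (lL + lL') (V + V') (lR + lR') := by
  refine ⟨fun x => (hp.prim x).add (hp'.prim x), hp.diff.add hp'.diff,
    fun y0 γ h1 h2 => (hp.left y0 γ h1 h2).add (hp'.left y0 γ h1 h2),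
    fun Y hY => (hp.leftH Y hY).add (hp'.leftH Y hY), fun S h1 h2 h3 => (hp.valley S h1 h2 h3).add (hp'.valley S h1 h2 h3),
    fun Y hY => (hp.right Y hY).add (hp'.right Y hY), hp.iL.add hp'.iL, hp.iV.add hp'.iV, hp.iR.add hp'.iR, ?_, ?_⟩
  · have h1 : XL (fun y => h y + h' y) = XL h + XL h' := by
      unfold XL
      rw [integral_add hp.iL hp'.iL, integral_add hp.iV hp'.iV]
      ring
    rw [h1, hp.XL_eq, hp'.XL_eq]; ring
  · have h1 : YR (fun y => h y + h' y) = YR h + YR h' := by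
      unfold YR
      rw [integral_add hp.iR hp'.iR, integral_add hp.iV' hp'.iV']
      ring
    rw [h1, hp.YR_eq, hp'.YR_eq]; ring

/-- `e^{iy} KK_θ = e^{i(θ+β/2)} KK_{θ+β}` -/
theorem exp_mul_KK {β : ℝ} (hβ : β ≠ 0) (r θ : ℝ) (y : ℂ) :
    cexp (I * y) * KK β r θ y = cexp (I * (θ + β / 2)) * KK β r (θ + β) y := by
  have hb : (β : ℂ) ≠ 0 := by exact_mod_cast hβ
  unfold KK
  rw [← Complex.exp_add, ← Complex.exp_add]
  congr 1
  push_cast
  field_simp
  ring

theorem hasDerivAt_KK_y (β r θ : ℝ) (y : ℂ) :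
    HasDerivAt (KK β r θ) ((-(I * (y - θ) / β) + I * (r * cexp (I * y))) * KK β r θ y) y := by
  have h0 : HasDerivAt (fun s : ℂ => (s - (θ : ℂ))) 1 y := (hasDerivAt_id y).sub_const _
  have h1 : HasDerivAt (fun s : ℂ => -(I * (s - (θ : ℂ)) ^ 2 / (2 * β))) (-(I * (y - θ) / β)) y := by
    refine (((h0.pow 2).const_mul I).div_const (2 * (β : ℂ))).neg.congr_deriv ?_
    rcases eq_or_ne (β : ℂ) 0 with hb | hb
    · simp [hb]
    · field_simp
      push_cast
      ring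
  have h2 : HasDerivAt (fun s : ℂ => (r : ℂ) * cexp (I * s)) (r * (cexp (I * y) * I)) y := by
    have := ((hasDerivAt_id y).const_mul I).cexp.const_mul (r : ℂ)
    simpa using this
  refine (h1.add h2).cexp.congr_deriv ?_
  unfold KK
  simp only [Pi.add_apply]
  ring

/-- the decay of `KK` in the three valleys -/
theorem tendsto_KK_left {β r θ : ℝ} (hβ : 0 < β) : Tendsto (fun X : ℝ => KK β r θ (X + (1 : ℝ) * I)) atBot (𝓝 0) := by
  have h3 : Tendsto (fun X : ℝ => Real.exp ((-θ / β + |r|) + 1 / β * X)) atBot (𝓝 0) := by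
    have h4 : Tendsto (fun X : ℝ => (-θ / β + |r|) + 1 / β * X) atBot atBot :=
      tendsto_atBot_add_const_left _ _ (tendsto_id.const_mul_atBot (by positivity))
    exact Real.tendsto_exp_atBot.comp h4
  refine squeeze_zero_norm' (Filter.Eventually.of_forall fun X => ?_) h3
  rw [norm_KK]
  apply Real.exp_le_exp.2
  have h5 : r * Real.exp (-1) * Real.cos X ≤ |r| := by
    refine (le_abs_self _).trans ?_
    rw [abs_mul, abs_mul, Real.abs_exp]
    have h6 : Real.exp (-1) ≤ 1 := Real.exp_le_one_iff.2 (by norm_num)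
    calc |r| * Real.exp (-1) * |Real.cos X| ≤ |r| * 1 * 1 := by
          apply mul_le_mul (mul_le_mul_of_nonneg_left h6 (abs_nonneg r)) (Real.abs_cos_le_one X) (abs_nonneg _)
            (by positivity)
      _ = |r| := by ring
  have e2 : (X - θ) * 1 / β = -θ / β + 1 / β * X := by ring
  linarith

theorem tendsto_KK_right {β r θ : ℝ} (hβ : 0 < β) : Tendsto (fun X : ℝ => KK β r θ (X + (-1 : ℝ) * I)) atTop (𝓝 0) := by
  have h3 : Tendsto (fun X : ℝ => Real.exp ((θ / β + |r| * Real.exp 1) + -(1 / β * X))) atTop (𝓝 0) := by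
    have h4 : Tendsto (fun X : ℝ => (θ / β + |r| * Real.exp 1) + -(1 / β * X)) atTop atBot :=
      tendsto_atBot_add_const_left _ _ (tendsto_neg_atTop_atBot.comp (tendsto_id.const_mul_atTop (by positivity)))
    exact Real.tendsto_exp_atBot.comp h4
  refine squeeze_zero_norm' (Filter.Eventually.of_forall fun X => ?_) h3
  rw [norm_KK]
  apply Real.exp_le_exp.2
  have h5 : r * Real.exp (-(-1)) * Real.cos X ≤ |r| * Real.exp 1 := by
    refine (le_abs_self _).trans ?_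
    rw [abs_mul, abs_mul, Real.abs_exp, neg_neg]
    calc |r| * Real.exp 1 * |Real.cos X| ≤ |r| * Real.exp 1 * 1 :=
          mul_le_mul_of_nonneg_left (Real.abs_cos_le_one X) (by positivity)
      _ = |r| * Real.exp 1 := by ring
  have e2 : (X - θ) * -1 / β = θ / β + -(1 / β * X) := by ring
  rw [e2]
  exact (add_le_add_right h5 _).trans (le_of_eq (by ring))

theorem tendsto_KK_valley {β r θ : ℝ} (hβ : 0 < β) (hr : 0 < r) :
    Tendsto (fun s : ℝ => KK β r θ ((Real.pi : ℝ) + s * I)) atBot (𝓝 0) := by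
  obtain ⟨M, hM, hb⟩ := KK_valley hβ hr (|θ|) 0
  have h3 : Tendsto (fun s : ℝ => M * Real.exp (2 * s)) atBot (𝓝 0) := by
    have h4 : Tendsto (fun s : ℝ => Real.exp (2 * s)) atBot (𝓝 0) :=
      Real.tendsto_exp_atBot.comp (tendsto_id.const_mul_atBot (by norm_num))
    simpa using h4.const_mul M
  refine squeeze_zero_norm' ?_ h3
  filter_upwards [eventually_le_atBot (0 : ℝ)] with s hs
  exact hb θ s le_rfl hs

/-- the derivative of `KK` -/
noncomputable def KD (β r θ : ℝ) (y : ℂ) : ℂ := (-(I * (y - θ) / β) + I * (r * cexp (I * y))) * KK β r θ y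

theorem KD_eq {β : ℝ} (hβ : β ≠ 0) (r θ : ℝ) (y : ℂ) :
    KD β r θ y = -(I / β) * K1 β r θ y + I * r * cexp (I * (θ + β / 2)) * KK β r (θ + β) y := by
  have h := exp_mul_KK hβ r θ y
  unfold KD K1
  linear_combination (I * r) * h

theorem exists_Pk_KK {β r : ℝ} (hβ : 0 < β) (hr : 0 < r) (θ : ℝ) :
    ∃ (P : ℂ → ℂ) (lL V lR : ℂ), Pk θ (KK β r θ) P lL V lR := by
  obtain ⟨P, hP⟩ := exists_prim (differentiable_KK β r θ)
  obtain ⟨lL, V, lR, h, _⟩ := exists_pack hβ hr (θ := θ) zero_le_one (differentiable_KK β r θ) (bd_KK β r θ) hP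
  exact ⟨P, lL, V, lR, Pk.of_pack hβ hr h (bd_KK β r θ) zero_le_one⟩

theorem exists_Pk_K1 {β r : ℝ} (hβ : 0 < β) (hr : 0 < r) (θ : ℝ) :
    ∃ (P : ℂ → ℂ) (lL V lR : ℂ), Pk θ (K1 β r θ) P lL V lR := by
  obtain ⟨P, hP⟩ := exists_prim (differentiable_K1 β r θ)
  obtain ⟨lL, V, lR, h, _⟩ := exists_pack hβ hr (θ := θ) (abs_nonneg θ) (differentiable_K1 β r θ) (bd_K1 β r θ) hP
  exact ⟨P, lL, V, lR, Pk.of_pack hβ hr h (bd_K1 β r θ) (abs_nonneg θ)⟩

theorem XL_add {θ : ℝ} {h P : ℂ → ℂ} {lL V lR : ℂ} (hp : Pk θ h P lL V lR) {h' P' : ℂ → ℂ} {lL' V' lR' : ℂ}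
    (hp' : Pk θ h' P' lL' V' lR') : XL (fun y => h y + h' y) = XL h + XL h' := by
  rw [(hp.add hp').XL_eq, hp.XL_eq, hp'.XL_eq]; ring

theorem YR_add {θ : ℝ} {h P : ℂ → ℂ} {lL V lR : ℂ} (hp : Pk θ h P lL V lR) {h' P' : ℂ → ℂ} {lL' V' lR' : ℂ}
    (hp' : Pk θ h' P' lL' V' lR') : YR (fun y => h y + h' y) = YR h + YR h' := by
  rw [(hp.add hp').YR_eq, hp.YR_eq, hp'.YR_eq]; ring

theorem XL_smul (h : ℂ → ℂ) (c : ℂ) : XL (fun y => c * h y) = c * XL h := by
  unfold XL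
  rw [integral_const_mul, integral_const_mul]
  ring

theorem YR_smul (h : ℂ → ℂ) (c : ℂ) : YR (fun y => c * h y) = c * YR h := by
  unfold YR
  rw [integral_const_mul, integral_const_mul]
  ring

private theorem line_deriv' {f f' : ℂ → ℂ} (hf : ∀ y, HasDerivAt f (f' y) y) (q e : ℂ) (t : ℝ) :
    HasDerivAt (fun t : ℝ => f (q + t * e)) (f' (q + t * e) * e) t := by
  have h1 : HasDerivAt (fun t : ℝ => q + (t : ℂ) * e) e t := by
    have := ((Complex.ofRealCLM.hasDerivAt (x := t)).mul_const e).const_add q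
    simpa using this
  exact (hf _).comp t h1

/-- **integration by parts** -/
theorem XL_ibp {β r : ℝ} (hβ : 0 < β) (hr : 0 < r) (θ : ℝ) :
    XL (K1 β r θ) = β * r * cexp (I * (θ + β / 2)) * XL (KK β r (θ + β)) ∧
    YR (K1 β r θ) = β * r * cexp (I * (θ + β / 2)) * YR (KK β r (θ + β)) := by
  have hβ' : (β : ℂ) ≠ 0 := by exact_mod_cast hβ.ne'
  obtain ⟨P1, l1, V1, r1, h1⟩ := exists_Pk_K1 hβ hr θ
  obtain ⟨P2, l2, V2, r2, h2⟩ := exists_Pk_KK hβ hr (θ + β)
  have h1' := (h1.mono (by linarith : θ ≤ θ + β)).smul (-(I / β))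
  have h2' := h2.smul (I * r * cexp (I * (θ + β / 2)))
  have h3 := h1'.add h2'
  have hKD : (fun y => -(I / β) * K1 β r θ y + I * r * cexp (I * (θ + β / 2)) * KK β r (θ + β) y) = KD β r θ := by
    funext y; exact (KD_eq hβ.ne' r θ y).symm
  have eX := XL_add h1' h2'
  have eY := YR_add h1' h2'
  rw [XL_smul, XL_smul, hKD] at eX
  rw [YR_smul, YR_smul, hKD] at eY
  rw [hKD] at h3
  have hd : ∀ y, HasDerivAt (KK β r θ) (KD β r θ y) y := hasDerivAt_KK_y β r θ
  have hX0 : XL (KD β r θ) = 0 := by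
    unfold XL
    have a1 : ∫ X in Iic Real.pi, KD β r θ (X + (1 : ℝ) * I) = KK β r θ ((Real.pi : ℝ) + (1 : ℝ) * I) - 0 := by
      refine integral_Iic_of_hasDerivAt_of_tendsto' (f := fun X : ℝ => KK β r θ (X + (1 : ℝ) * I)) (fun X _ => ?_)
        h3.iL (tendsto_KK_left hβ)
      have := line_deriv' hd ((1 : ℝ) * I) 1 X
      rw [mul_one, mul_one] at this
      rw [add_comm]
      refine this.congr_of_eventuallyEq (Filter.Eventually.of_forall fun t => ?_)
      show KK β r θ (t + (1 : ℝ) * I) = KK β r θ ((1 : ℝ) * I + t * 1)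
      congr 1; ring
    have a2 : ∫ s in Iic (1 : ℝ), KD β r θ ((Real.pi : ℝ) + s * I) * I = KK β r θ ((Real.pi : ℝ) + (1 : ℝ) * I) - 0 :=
      integral_Iic_of_hasDerivAt_of_tendsto' (f := fun s : ℝ => KK β r θ ((Real.pi : ℝ) + s * I))
        (fun s _ => line_deriv' hd _ I s) (h3.iV.mul_const I) (tendsto_KK_valley hβ hr)
    rw [integral_mul_const] at a2
    rw [a1]
    linear_combination -a2
  have hY0 : YR (KD β r θ) = 0 := by
    unfold YR
    have a1 : ∫ X in Ioi Real.pi, KD β r θ (X + (-1 : ℝ) * I) = 0 - KK β r θ ((Real.pi : ℝ) + (-1 : ℝ) * I) := by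
      refine integral_Ioi_of_hasDerivAt_of_tendsto' (f := fun X : ℝ => KK β r θ (X + (-1 : ℝ) * I)) (fun X _ => ?_)
        h3.iR (tendsto_KK_right hβ)
      have := line_deriv' hd ((-1 : ℝ) * I) 1 X
      rw [mul_one, mul_one] at this
      rw [add_comm]
      refine this.congr_of_eventuallyEq (Filter.Eventually.of_forall fun t => ?_)
      show KK β r θ (t + (-1 : ℝ) * I) = KK β r θ ((-1 : ℝ) * I + t * 1)
      congr 1; ring
    have a2 : ∫ s in Iic (-1 : ℝ), KD β r θ ((Real.pi : ℝ) + s * I) * I = KK β r θ ((Real.pi : ℝ) + (-1 : ℝ) * I) - 0 :=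
      integral_Iic_of_hasDerivAt_of_tendsto' (f := fun s : ℝ => KK β r θ ((Real.pi : ℝ) + s * I))
        (fun s _ => line_deriv' hd _ I s) (h3.iV'.mul_const I) (tendsto_KK_valley hβ hr)
    rw [integral_mul_const] at a2
    rw [a1]
    linear_combination a2
  rw [hX0] at eX
  rw [hY0] at eY
  constructor
  · have : I / β * XL (K1 β r θ) = I * r * cexp (I * (θ + β / 2)) * XL (KK β r (θ + β)) := by linear_combination eX
    have h4 : XL (K1 β r θ) = -(I * β) * (I / β * XL (K1 β r θ)) := by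
      field_simp
      linear_combination (XL (K1 β r θ)) * Complex.I_sq
    rw [h4, this]
    linear_combination (-(β : ℂ) * r * cexp (I * (θ + β / 2)) * XL (KK β r (θ + β))) * Complex.I_sq
  · have : I / β * YR (K1 β r θ) = I * r * cexp (I * (θ + β / 2)) * YR (KK β r (θ + β)) := by linear_combination eY
    have h4 : YR (K1 β r θ) = -(I * β) * (I / β * YR (K1 β r θ)) := by
      field_simp
      linear_combination (YR (K1 β r θ)) * Complex.I_sq
    rw [h4, this]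
    linear_combination (-(β : ℂ) * r * cexp (I * (θ + β / 2)) * YR (KK β r (θ + β))) * Complex.I_sq

/-- the weight -/
noncomputable def mw (u : ℂ) : ℂ := cexp (I * u) - 1 - I * u

/-- the second order integrand -/
noncomputable def Kq (β r θ : ℝ) (L : ℂ) (y : ℂ) : ℂ := mw (y - (θ + L)) * KK β r θ y

theorem Kq_eq {β : ℝ} (hβ : β ≠ 0) (r θ : ℝ) (L y : ℂ) :
    Kq β r θ L y = (cexp (I * (β / 2 - L)) * KK β r (θ + β) y + (-1) * KK β r θ y) + (-I) * KU β r θ L 1 y := by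
  have h := exp_mul_KK hβ r θ y
  have e1 : cexp (I * (y - (θ + L))) = cexp (-(I * (θ + L))) * cexp (I * y) := by
    rw [← Complex.exp_add]; congr 1; ring
  have e2 : cexp (I * (β / 2 - L)) = cexp (-(I * (θ + L))) * cexp (I * (θ + β / 2)) := by
    rw [← Complex.exp_add]; congr 1; ring
  unfold Kq mw KU
  rw [e1, e2]
  linear_combination cexp (-(I * (θ + L))) * h

theorem exists_Pk_KU {β r : ℝ} (hβ : 0 < β) (hr : 0 < r) (θ : ℝ) (L : ℂ) {p : ℕ} (hp : p ≤ 1) :
    ∃ (P : ℂ → ℂ) (lL V lR : ℂ), Pk θ (KU β r θ L p) P lL V lR := by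
  obtain ⟨P, lL, V, lR, h⟩ := exists_pack_KU hβ hr θ L hp
  exact ⟨P, lL, V, lR, Pk.of_pack hβ hr h (bd_KU β r θ L hp) (by positivity)⟩

/-- the second order integrand has a primitive with all limits -/
theorem exists_Pk_Kq {β r : ℝ} (hβ : 0 < β) (hr : 0 < r) (θ : ℝ) (L : ℂ) :
    ∃ (P : ℂ → ℂ) (lL V lR : ℂ), Pk (θ + β) (Kq β r θ L) P lL V lR ∧
      XL (Kq β r θ L) = cexp (I * (β / 2 - L)) * XL (KK β r (θ + β)) - XL (KK β r θ) - I * XL (KU β r θ L 1) ∧
      YR (Kq β r θ L) = cexp (I * (β / 2 - L)) * YR (KK β r (θ + β)) - YR (KK β r θ) - I * YR (KU β r θ L 1) := by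
  obtain ⟨P1, l1, V1, r1, h1⟩ := exists_Pk_KK hβ hr (θ + β)
  obtain ⟨P2, l2, V2, r2, h2⟩ := exists_Pk_KK hβ hr θ
  obtain ⟨P3, l3, V3, r3, h3⟩ := exists_Pk_KU hβ hr θ L (p := 1) le_rfl
  have hle : θ ≤ θ + β := by linarith
  have a1 := h1.smul (cexp (I * (β / 2 - L)))
  have a2 := (h2.mono hle).smul (-1)
  have a3 := (h3.mono hle).smul (-I)
  have h4 := (a1.add a2).add a3
  have e : (fun y => (cexp (I * (β / 2 - L)) * KK β r (θ + β) y + (-1) * KK β r θ y) + (-I) * KU β r θ L 1 y) =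
      Kq β r θ L := by
    funext y; exact (Kq_eq hβ.ne' r θ L y).symm
  have e1 := XL_add (a1.add a2) a3
  have e2 := XL_add a1 a2
  have e3 := YR_add (a1.add a2) a3
  have e4 := YR_add a1 a2
  rw [XL_smul, XL_smul] at e2
  rw [YR_smul, YR_smul] at e4
  rw [XL_smul, e2, e] at e1
  rw [YR_smul, e4, e] at e3
  rw [e] at h4
  refine ⟨_, _, _, _, h4, ?_, ?_⟩
  · rw [e1]; ring
  · rw [e3]; ring

/-- **the second order identity** -/
theorem first_moment {β r θ : ℝ} (hβ : 0 < β) (hr : 0 < r) {L : ℂ} (hs : Sad β r θ L) :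
    (1 - I * L) * (XL (K1 β r θ) - L * XL (KK β r θ)) = L * XL (Kq β r θ L) ∧
    (1 - I * L) * (YR (K1 β r θ) - L * YR (KK β r θ)) = L * YR (Kq β r θ L) := by
  obtain ⟨_, _, _, _, _, hX, hY⟩ := exists_Pk_Kq hβ hr θ L
  obtain ⟨iX, iY⟩ := XL_ibp hβ hr θ
  have e2 : cexp (I * (θ + β / 2)) = cexp (I * (θ + L)) * cexp (I * (β / 2 - L)) := by
    rw [← Complex.exp_add]; congr 1; ring
  have hL : (β : ℂ) * r * cexp (I * (θ + L)) = L := by
    have := hs
    unfold Sad at this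
    rw [mul_assoc]
    exact this.symm
  have kX : XL (K1 β r θ) = XL (KU β r θ L 1) + L * XL (KK β r θ) := XL_K1 hβ hr θ L
  have kY : YR (K1 β r θ) = YR (KU β r θ L 1) + L * YR (KK β r θ) := YR_K1 hβ hr θ L
  rw [e2] at iX iY
  constructor
  · rw [hX]
    have i1 : XL (K1 β r θ) = L * (cexp (I * (β / 2 - L)) * XL (KK β r (θ + β))) := by
      rw [iX]
      linear_combination (cexp (I * (β / 2 - L)) * XL (KK β r (θ + β))) * hL
    linear_combination i1 - I * L * kX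
  · rw [hY]
    have i1 : YR (K1 β r θ) = L * (cexp (I * (β / 2 - L)) * YR (KK β r (θ + β))) := by
      rw [iY]
      linear_combination (cexp (I * (β / 2 - L)) * YR (KK β r (θ + β))) * hL
    linear_combination i1 - I * L * kY

end Sok.W
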