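import Mathlib
import Pool.Agent.Lib.MP_816dec_an.Basic
import Pool.Agent.Lib.MP_816dec_an.A0Prim
import Pool.Agent.Lib.MP_816dec_an.A0F
import Pool.Agent.Lib.MP_816dec_an.Laplace2

/-!
MP_816dec_an, Lemma J (slanted): the saddle point estimate of `F_β` along the direction `(12-5i)/13`.
-/

set_option autoImplicit false

open Complex Set Filter Topology MeasureTheory

namespace Sok

/-- the exponent relative to the saddle -/
noncomputable def Psi (σ u : ℂ) : ℂ := -(I * u ^ 2 / 2) + σ * (cexp (I * u) - 1 - I * u)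

/-- the point of the circle with saddle `σ` -/
noncomputable def zs (β : ℝ) (σ : ℂ) : ℂ := (σ / β) * cexp (-(I * σ) + I * β / 2)

theorem GG_saddle {β : ℝ} (hβ : 0 < β) (σ u : ℂ) :
    GG β (zs β σ) (σ + u) = cexp ((σ - I * σ ^ 2 / 2) / β) * cexp (Psi σ u / β) := by
  have hβ' : (β : ℂ) ≠ 0 := Complex.ofReal_ne_zero.2 hβ.ne'
  have e1 : zs β σ * cexp (-(I * β / 2)) * cexp (I * (σ + u)) = (σ / β) * cexp (I * u) := by
    rw [zs, mul_assoc, mul_assoc, ← Complex.exp_add, ← Complex.exp_add]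
    congr 2
    ring
  rw [GG, e1, ← Complex.exp_add, ← Complex.exp_add, Psi]
  congr 1
  field_simp
  ring

/-- real part of the exponent -/
noncomputable def gre (x y X Y : ℝ) : ℝ :=
  X * Y + Real.exp (-Y) * (x * Real.cos X - y * Real.sin X) - x + x * Y + y * X

theorem re_Psi (x y X Y : ℝ) : (Psi (x + y * I) (X + Y * I)).re = gre x y X Y := by
  have e1 : cexp (I * ((X : ℂ) + Y * I)) = (Real.exp (-Y) : ℝ) * (Real.cos X + Real.sin X * I) := by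
    have : I * ((X : ℂ) + Y * I) = ((-Y : ℝ) : ℂ) + (X : ℂ) * I := by
      push_cast
      linear_combination (Y : ℂ) * Complex.I_sq
    rw [this, Complex.exp_add, Complex.exp_mul_I, ← Complex.ofReal_exp, ← Complex.ofReal_cos, ← Complex.ofReal_sin]
  rw [Psi, e1, gre]
  generalize Real.exp (-Y) = E
  generalize Real.cos X = C
  generalize Real.sin X = S
  simp [pow_two]
  ring

theorem norm_GG_saddle {β : ℝ} (hβ : 0 < β) (x y X Y : ℝ) :
    ‖GG β (zs β (x + y * I)) (((x + X : ℝ) : ℂ) + ((y + Y : ℝ) : ℂ) * I)‖ =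
      ‖cexp (((x + y * I : ℂ) - I * (x + y * I : ℂ) ^ 2 / 2) / β)‖ * Real.exp (gre x y X Y / β) := by
  have e1 : (((x + X : ℝ) : ℂ) + ((y + Y : ℝ) : ℂ) * I) = (x + y * I : ℂ) + (X + Y * I : ℂ) := by
    push_cast; ring
  rw [e1, GG_saddle hβ, norm_mul]
  congr 1
  rw [Complex.norm_exp]
  congr 1
  rw [← re_Psi x y X Y]
  exact Complex.div_ofReal_re _ _


/-! ### the direction `ω = (12-5i)/13` -/

/-- the direction of the segment -/
noncomputable def omJ : ℂ := (12 - 5 * I) / 13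
/-- `i ω` -/
noncomputable def kv : ℂ := (5 + 12 * I) / 13

theorem I_mul_omJ : I * omJ = kv := by
  rw [omJ, kv]
  linear_combination (-5 / 13 : ℂ) * Complex.I_sq

theorem kv_sq : kv ^ 2 = (-119 + 120 * I) / 169 := by
  rw [kv]
  linear_combination (144 / 169 : ℂ) * Complex.I_sq

theorem kv_cube : kv ^ 3 = (-2035 - 828 * I) / 2197 := by
  have h : kv ^ 3 = kv ^ 2 * kv := by ring
  rw [h, kv_sq, kv]
  linear_combination (1440 / 2197 : ℂ) * Complex.I_sq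

theorem omJ_sq : omJ ^ 2 = (119 - 120 * I) / 169 := by
  rw [omJ]
  linear_combination (25 / 169 : ℂ) * Complex.I_sq

theorem norm_kv : ‖kv‖ = 1 := by
  have h : ‖kv‖ ^ 2 = 1 := by
    rw [← Complex.normSq_eq_norm_sq, kv, Complex.normSq_apply]
    simp
    norm_num
  have h0 : 0 ≤ ‖kv‖ := norm_nonneg _
  nlinarith

theorem norm_omJ : ‖omJ‖ = 1 := by
  have h : ‖I * omJ‖ = 1 := by rw [I_mul_omJ]; exact norm_kv
  simpa using h

theorem re_kv_mul (t : ℝ) : (kv * (t : ℂ)).re = 5 * t / 13 := by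
  rw [kv, Complex.re_mul_ofReal]
  simp
  ring

theorem norm_kv_mul (t : ℝ) : ‖kv * (t : ℂ)‖ = |t| := by
  rw [norm_mul, norm_kv, one_mul, Complex.norm_real, Real.norm_eq_abs]

/-- the quadratic coefficient -/
noncomputable def Lam (β : ℝ) (σ : ℂ) : ℂ := omJ ^ 2 * (I + σ) / β
/-- the remainder -/
noncomputable def Rem (β : ℝ) (σ : ℂ) (t : ℝ) : ℂ :=
  (σ / β) * (cexp (kv * t) - 1 - kv * t - (kv * t) ^ 2 / 2)

theorem Psi_line {β : ℝ} (hβ : 0 < β) (σ : ℂ) (t : ℝ) :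
    Psi σ (omJ * t) / β = -(Lam β σ / 2) * (t : ℂ) ^ 2 + Rem β σ t := by
  have hβ' : (β : ℂ) ≠ 0 := Complex.ofReal_ne_zero.2 hβ.ne'
  have e0 : I * (omJ * (t : ℂ)) = kv * t := by rw [← mul_assoc, I_mul_omJ]
  have e1 : omJ ^ 2 = -kv ^ 2 := by rw [omJ_sq, kv_sq]; ring
  rw [Psi, e0, Lam, Rem]
  have e2 : -(I * (omJ * (t : ℂ)) ^ 2 / 2) = -(omJ ^ 2 * I / 2) * (t : ℂ) ^ 2 := by ring
  rw [e2, e1]
  field_simp
  ring

/-- `Re Λ · β` -/
noncomputable def aq (x y : ℝ) : ℝ := (119 * x + 120 * (1 + y)) / 169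

theorem re_Lam {β : ℝ} (x y : ℝ) : (Lam β (x + y * I)).re = aq x y / β := by
  rw [Lam, Complex.div_ofReal_re, omJ_sq, aq]
  congr 1
  simp
  ring

theorem continuous_Rem (β : ℝ) (σ : ℂ) : Continuous (Rem β σ) := by
  unfold Rem
  fun_prop

theorem norm_Rem_pos {β : ℝ} (hβ : 0 < β) (σ : ℂ) (t : ℝ) (h0 : 0 ≤ t) (h1 : t ≤ 1) :
    ‖Rem β σ t‖ ≤ Real.exp (5 / 13) * (‖σ‖ / (6 * β)) * t ^ 3 := by
  have h2 := norm_exp_sub_three_le (kv * (t : ℂ)) (M := Real.exp (5 / 13)) (Real.one_le_exp (by norm_num))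
    (Real.exp_le_exp.2 (by rw [re_kv_mul]; linarith))
  rw [norm_kv_mul, abs_of_nonneg h0] at h2
  rw [Rem, norm_mul, norm_div, Complex.norm_real, Real.norm_eq_abs, abs_of_pos hβ]
  calc ‖σ‖ / β * ‖cexp (kv * t) - 1 - kv * t - (kv * t) ^ 2 / 2‖
      ≤ ‖σ‖ / β * (Real.exp (5 / 13) * (t ^ 3 / 6)) := by gcongr
    _ = _ := by field_simp

theorem norm_Rem_neg {β : ℝ} (hβ : 0 < β) (σ : ℂ) (t : ℝ) (h0 : 0 ≤ t) :
    ‖Rem β σ (-t)‖ ≤ (‖σ‖ / (6 * β)) * t ^ 3 := by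
  have h2 := norm_exp_sub_three_le (kv * ((-t : ℝ) : ℂ)) (M := 1) le_rfl
    (Real.exp_le_one_iff.2 (by rw [re_kv_mul]; linarith))
  rw [norm_kv_mul, abs_neg, abs_of_nonneg h0, one_mul] at h2
  rw [Rem, norm_mul, norm_div, Complex.norm_real, Real.norm_eq_abs, abs_of_pos hβ]
  calc ‖σ‖ / β * ‖cexp (kv * ((-t : ℝ) : ℂ)) - 1 - kv * ((-t : ℝ) : ℂ) - (kv * ((-t : ℝ) : ℂ)) ^ 2 / 2‖
      ≤ ‖σ‖ / β * (t ^ 3 / 6) := by gcongr
    _ = _ := by field_simp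

theorem norm_Rem4_pos {β : ℝ} (hβ : 0 < β) (σ : ℂ) (t : ℝ) (h0 : 0 ≤ t) (h1 : t ≤ 1) :
    ‖Rem β σ t - (σ * kv ^ 3 / (6 * β)) * (t : ℂ) ^ 3‖ ≤ Real.exp (5 / 13) * (‖σ‖ / (24 * β)) * t ^ 4 := by
  have hβ' : (β : ℂ) ≠ 0 := Complex.ofReal_ne_zero.2 hβ.ne'
  have h2 := norm_exp_sub_four_le (kv * (t : ℂ)) (M := Real.exp (5 / 13)) (Real.one_le_exp (by norm_num))
    (Real.exp_le_exp.2 (by rw [re_kv_mul]; linarith))
  rw [norm_kv_mul, abs_of_nonneg h0] at h2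
  have e1 : Rem β σ t - (σ * kv ^ 3 / (6 * β)) * (t : ℂ) ^ 3 =
      (σ / β) * (cexp (kv * t) - 1 - kv * t - (kv * t) ^ 2 / 2 - (kv * t) ^ 3 / 6) := by
    rw [Rem]; field_simp
  rw [e1, norm_mul, norm_div, Complex.norm_real, Real.norm_eq_abs, abs_of_pos hβ]
  calc ‖σ‖ / β * ‖cexp (kv * t) - 1 - kv * t - (kv * t) ^ 2 / 2 - (kv * t) ^ 3 / 6‖
      ≤ ‖σ‖ / β * (Real.exp (5 / 13) * (t ^ 4 / 24)) := by gcongr
    _ = _ := by field_simp

theorem norm_Rem4_neg {β : ℝ} (hβ : 0 < β) (σ : ℂ) (t : ℝ) (h0 : 0 ≤ t) :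
    ‖Rem β σ (-t) - (σ * kv ^ 3 / (6 * β)) * ((-t : ℝ) : ℂ) ^ 3‖ ≤ (‖σ‖ / (24 * β)) * t ^ 4 := by
  have hβ' : (β : ℂ) ≠ 0 := Complex.ofReal_ne_zero.2 hβ.ne'
  have h2 := norm_exp_sub_four_le (kv * ((-t : ℝ) : ℂ)) (M := 1) le_rfl
    (Real.exp_le_one_iff.2 (by rw [re_kv_mul]; linarith))
  rw [norm_kv_mul, abs_neg, abs_of_nonneg h0, one_mul] at h2
  have e1 : Rem β σ (-t) - (σ * kv ^ 3 / (6 * β)) * ((-t : ℝ) : ℂ) ^ 3 =
      (σ / β) * (cexp (kv * ((-t : ℝ) : ℂ)) - 1 - kv * ((-t : ℝ) : ℂ) - (kv * ((-t : ℝ) : ℂ)) ^ 2 / 2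
        - (kv * ((-t : ℝ) : ℂ)) ^ 3 / 6) := by
    rw [Rem]; field_simp
  rw [e1, norm_mul, norm_div, Complex.norm_real, Real.norm_eq_abs, abs_of_pos hβ]
  calc ‖σ‖ / β * ‖cexp (kv * ((-t : ℝ) : ℂ)) - 1 - kv * ((-t : ℝ) : ℂ) - (kv * ((-t : ℝ) : ℂ)) ^ 2 / 2
        - (kv * ((-t : ℝ) : ℂ)) ^ 3 / 6‖
      ≤ ‖σ‖ / β * (t ^ 4 / 24) := by gcongr
    _ = _ := by field_simp

theorem exp_five_thirteen : Real.exp (5 / 13) < 1.4692 := by
  have h := Real.exp_bound' (x := 5 / 13) (by norm_num) (by norm_num) (n := 6) (by norm_num)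
  refine lt_of_le_of_lt h ?_
  norm_num [Finset.sum_range_succ, Nat.factorial]

theorem exp_five_thirteen' : 1.469 < Real.exp (5 / 13) := by
  have h := Real.sum_le_exp_of_nonneg (x := 5 / 13) (by norm_num) 6
  refine lt_of_lt_of_le ?_ h
  norm_num [Finset.sum_range_succ, Nat.factorial]

/-- the central piece -/
theorem central {β x y ρ : ℝ} (hβ : 0 < β) (hx : 0 < x) (hy : y ≤ 2.45 * x) (ha : 0 < aq x y)
    (hρ : ‖(x + y * I : ℂ)‖ ≤ ρ * aq x y) (hρ0 : 0 ≤ ρ) (hρ1 : ρ < 3) :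
    ‖(∫ t in (-1:ℝ)..1, cexp (Psi (x + y * I) (omJ * t) / β)) - (2 * Real.pi / Lam β (x + y * I)) ^ (1 / 2 : ℂ)‖ ≤
      3 / 2 * Real.sqrt (2 * Real.pi) * (ρ * (aq x y / β) / 24 + Real.exp (5 / 13) * (ρ * (aq x y / β) / 24)) /
        ((aq x y / β) ^ 2 * Real.sqrt (aq x y / β)) +
      (15 / 4 * Real.sqrt (2 * Real.pi) * (ρ * (aq x y / β) / 6) ^ 2 /
          (((1 - ρ / 3) * (aq x y / β)) ^ 3 * Real.sqrt ((1 - ρ / 3) * (aq x y / β))) +
      15 / 4 * Real.sqrt (2 * Real.pi) * (Real.exp (5 / 13) * (ρ * (aq x y / β) / 6)) ^ 2 /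
          (((1 - 0.12244 * ρ) * (aq x y / β)) ^ 3 * Real.sqrt ((1 - 0.12244 * ρ) * (aq x y / β)))) +
      2 * (Real.exp (-((aq x y / β) / 2) * 1 ^ 2) / ((aq x y / β) * 1)) := by
  have hL : (Lam β (x + y * I)).re = aq x y / β := re_Lam x y
  have hLpos : 0 < (Lam β (x + y * I)).re := by rw [hL]; positivity
  have hσ : ‖(x + y * I : ℂ)‖ / β ≤ ρ * (aq x y / β) := by
    rw [← mul_div_assoc]
    exact div_le_div_of_nonneg_right hρ hβ.le
  have h6 : ‖(x + y * I : ℂ)‖ / (6 * β) ≤ ρ * (aq x y / β) / 6 := by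
    have : ‖(x + y * I : ℂ)‖ / (6 * β) = ‖(x + y * I : ℂ)‖ / β / 6 := by field_simp
    rw [this]; linarith
  have h24 : ‖(x + y * I : ℂ)‖ / (24 * β) ≤ ρ * (aq x y / β) / 24 := by
    have : ‖(x + y * I : ℂ)‖ / (24 * β) = ‖(x + y * I : ℂ)‖ / β / 24 := by field_simp
    rw [this]; linarith
  have hApos : 0 < aq x y / β := by positivity
  have hE1 := exp_five_thirteen
  have hE0 := Real.exp_pos (5 / 13)
  have hcong : (∫ t in (-1:ℝ)..1, cexp (Psi (x + y * I) (omJ * t) / β)) =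
      ∫ t in (-1:ℝ)..1, cexp (-(Lam β (x + y * I) / 2) * (t : ℂ) ^ 2 + Rem β (x + y * I) t) := by
    refine intervalIntegral.integral_congr (fun t _ => ?_)
    rw [Psi_line hβ]
  rw [hcong]
  have h := laplace_segment2 (Λ := Lam β (x + y * I)) (K := (x + y * I : ℂ) * kv ^ 3 / (6 * β))
    (cL := 1 - ρ / 3) (cR := 1 - 0.12244 * ρ) (M3L := ρ * (aq x y / β) / 6)
    (M3R := Real.exp (5 / 13) * (ρ * (aq x y / β) / 6)) (M4L := ρ * (aq x y / β) / 24)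
    (M4R := Real.exp (5 / 13) * (ρ * (aq x y / β) / 24)) (T := 1) (R := Rem β (x + y * I)) hLpos
    (by linarith) (by linarith) (by linarith) (by nlinarith) one_pos (by positivity) (by positivity)
    (continuous_Rem _ _) ?_ ?_ ?_ ?_ ?_ ?_
  · rw [hL] at h
    exact h
  · intro t h0 h1
    refine (norm_Rem4_neg hβ _ t h0).trans ?_
    have := pow_nonneg h0 4
    exact mul_le_mul_of_nonneg_right h24 this
  · intro t h0 h1
    refine (norm_Rem4_pos hβ _ t h0 h1).trans ?_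
    have := pow_nonneg h0 4
    exact mul_le_mul_of_nonneg_right (mul_le_mul_of_nonneg_left h24 hE0.le) this
  · intro t h0 h1
    refine (norm_Rem_neg hβ _ t h0).trans ?_
    have := pow_nonneg h0 3
    exact mul_le_mul_of_nonneg_right h6 this
  · intro t h0 h1
    refine (norm_Rem_pos hβ _ t h0 h1).trans ?_
    have := pow_nonneg h0 3
    exact mul_le_mul_of_nonneg_right (mul_le_mul_of_nonneg_left h6 hE0.le) this
  · intro t h0 h1
    refine ((Complex.re_le_norm _).trans (norm_Rem_neg hβ _ t h0)).trans ?_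
    rw [hL]
    have h3 : t ^ 3 ≤ t ^ 2 := by nlinarith [pow_nonneg h0 2]
    have h2 := pow_nonneg h0 2
    calc ‖(x + y * I : ℂ)‖ / (6 * β) * t ^ 3 ≤ (ρ * (aq x y / β) / 6) * t ^ 2 := by
          apply mul_le_mul h6 h3 (pow_nonneg h0 3) (by positivity)
      _ = _ := by ring
  · intro t h0 h1
    rw [hL]
    have h4 := norm_Rem4_pos hβ (x + y * I) t h0 h1
    have hK : ((x + y * I : ℂ) * kv ^ 3 / (6 * β) * (t : ℂ) ^ 3).re ≤ 0 := by
      have e1 : ((x + y * I : ℂ) * kv ^ 3 / (6 * β) * (t : ℂ) ^ 3) =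
          ((((-2035 * x + 828 * y) / 2197 * (t ^ 3 / (6 * β)) : ℝ)) : ℂ) +
          (((-2035 * y - 828 * x) / 2197 * (t ^ 3 / (6 * β)) : ℝ) : ℂ) * I := by
        rw [kv_cube]
        push_cast
        have hβ' : (β : ℂ) ≠ 0 := Complex.ofReal_ne_zero.2 hβ.ne'
        field_simp
        linear_combination (-828 * (y : ℂ) * (t : ℂ) ^ 3) * Complex.I_sq
      rw [e1]
      simp only [Complex.add_re, Complex.ofReal_re, Complex.mul_re, Complex.ofReal_im, Complex.I_re, Complex.I_im,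
        mul_zero, zero_mul, sub_zero, add_zero]
      have h5 : 0 ≤ t ^ 3 / (6 * β) := by positivity
      have h6 : (-2035 * x + 828 * y) / 2197 ≤ 0 := by
        apply div_nonpos_of_nonpos_of_nonneg _ (by norm_num)
        nlinarith
      exact mul_nonpos_of_nonpos_of_nonneg h6 h5
    have e2 : (Rem β (x + y * I) t).re = (Rem β (x + y * I) t - (x + y * I : ℂ) * kv ^ 3 / (6 * β) * (t : ℂ) ^ 3).re +
        ((x + y * I : ℂ) * kv ^ 3 / (6 * β) * (t : ℂ) ^ 3).re := by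
      rw [Complex.sub_re]; ring
    rw [e2]
    have h7 := (Complex.re_le_norm _).trans h4
    have h8 : t ^ 4 ≤ t ^ 2 := by
      have h81 : t ^ 2 ≤ 1 := by nlinarith
      have h82 : t ^ 4 = t ^ 2 * t ^ 2 := by ring
      nlinarith [sq_nonneg t]
    have h9 : Real.exp (5 / 13) * (‖(x + y * I : ℂ)‖ / (24 * β)) * t ^ 4 ≤
        1.4692 * (ρ * (aq x y / β) / 24) * t ^ 2 := by
      apply mul_le_mul _ h8 (pow_nonneg h0 4) (by positivity)
      exact mul_le_mul hE1.le h24 (by positivity) (by norm_num)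
    have h10 : 0 ≤ ρ * (aq x y / β) * t ^ 2 := by positivity
    nlinarith


/-! ### the branch of the square root -/

theorem sqrt_re_im {a : ℂ} (ha : 0 < a.re) : 0 < (a ^ (1 / 2 : ℂ)).re ∧ |(a ^ (1 / 2 : ℂ)).im| < (a ^ (1 / 2 : ℂ)).re := by
  have ha0 : a ≠ 0 := by rintro rfl; simp at ha
  have hsq : (a ^ (1 / 2 : ℂ)) ^ 2 = a := by
    rw [← Complex.cpow_nat_mul]
    norm_num
  have h1 : 0 < (a ^ (1 / 2 : ℂ)).re := by
    rw [Complex.cpow_def_of_ne_zero ha0, Complex.exp_re]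
    apply mul_pos (Real.exp_pos _)
    have h2 : (Complex.log a * (1 / 2)).im = a.arg / 2 := by
      have : (Complex.log a * (1 / 2)).im = (Complex.log a).im / 2 := by
        have e : Complex.log a * (1 / 2) = Complex.log a / (2 : ℝ) := by push_cast; ring
        rw [e, Complex.div_ofReal_im]
      rw [this, Complex.log_im]
    rw [h2]
    have h3 := Complex.abs_arg_lt_pi_div_two_iff.2 (Or.inl ha)
    rw [abs_lt] at h3
    have hpi := Real.pi_pos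
    exact Real.cos_pos_of_mem_Ioo ⟨by linarith, by linarith⟩
  refine ⟨h1, ?_⟩
  have h4 : (a ^ (1 / 2 : ℂ)).re ^ 2 - (a ^ (1 / 2 : ℂ)).im ^ 2 = a.re := by
    have := congrArg Complex.re hsq
    rw [pow_two, Complex.mul_re] at this
    linarith [this]
  have h5 : |(a ^ (1 / 2 : ℂ)).im| ^ 2 < (a ^ (1 / 2 : ℂ)).re ^ 2 := by
    rw [sq_abs]; linarith
  exact lt_of_pow_lt_pow_left₀ 2 h1.le h5

theorem sqrt_mul_re_pos {a b : ℂ} (ha : 0 < a.re) (hb : 0 < b.re) :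
    0 < (a ^ (1 / 2 : ℂ) * b ^ (1 / 2 : ℂ)).re := by
  obtain ⟨h1, h2⟩ := sqrt_re_im ha
  obtain ⟨h3, h4⟩ := sqrt_re_im hb
  rw [Complex.mul_re]
  have h5 : (a ^ (1 / 2 : ℂ)).im * (b ^ (1 / 2 : ℂ)).im ≤ |(a ^ (1 / 2 : ℂ)).im| * |(b ^ (1 / 2 : ℂ)).im| := by
    rw [← abs_mul]; exact le_abs_self _
  have h6 : |(a ^ (1 / 2 : ℂ)).im| * |(b ^ (1 / 2 : ℂ)).im| < (a ^ (1 / 2 : ℂ)).re * (b ^ (1 / 2 : ℂ)).re :=
    mul_lt_mul'' h2 h4 (abs_nonneg _) (abs_nonneg _)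
  linarith

theorem sqrt_sq' {a : ℂ} (_ha : 0 < a.re) : (a ^ (1 / 2 : ℂ)) ^ 2 = a := by
  rw [← Complex.cpow_nat_mul]
  norm_num

theorem norm_sqrt {a : ℂ} (ha : 0 < a.re) : ‖a ^ (1 / 2 : ℂ)‖ = Real.sqrt ‖a‖ := by
  have h := congrArg norm (sqrt_sq' ha)
  rw [norm_pow] at h
  rw [← h, Real.sqrt_sq (norm_nonneg _)]

theorem branch {β x y : ℝ} (hβ : 0 < β) (hy : -1 < y) (ha : 0 < aq x y) :
    omJ * (2 * Real.pi / Lam β (x + y * I)) ^ (1 / 2 : ℂ) * (1 - I * (x + y * I : ℂ)) ^ (1 / 2 : ℂ) =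
      (1 - I) * (Real.sqrt (Real.pi * β) : ℝ) := by
  have hL : 0 < (Lam β (x + y * I)).re := by rw [re_Lam]; positivity
  have hL0 : Lam β (x + y * I) ≠ 0 := by intro h; rw [h] at hL; simp at hL
  have hβ' : (β : ℂ) ≠ 0 := Complex.ofReal_ne_zero.2 hβ.ne'
  have hA : 0 < (2 * Real.pi / Lam β (x + y * I)).re := by
    rw [Complex.div_re]
    have h1 : (2 * (Real.pi : ℂ)).re = 2 * Real.pi := by simp
    have h2 : (2 * (Real.pi : ℂ)).im = 0 := by simp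
    rw [h1, h2, zero_mul, zero_div, add_zero]
    have := Complex.normSq_pos.2 hL0
    positivity
  have hD : 0 < (1 - I * (x + y * I : ℂ)).re := by
    have : (1 - I * (x + y * I : ℂ)).re = 1 + y := by simp
    rw [this]; linarith
  have hD0 : (1 - I * (x + y * I : ℂ)) ≠ 0 := by intro h; rw [h] at hD; simp at hD
  set p := (2 * Real.pi / Lam β (x + y * I)) ^ (1 / 2 : ℂ) * (1 - I * (x + y * I : ℂ)) ^ (1 / 2 : ℂ) with hp
  have hpre : 0 < p.re := sqrt_mul_re_pos hA hD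
  have hps : p ^ 2 = (2 * Real.pi / Lam β (x + y * I)) * (1 - I * (x + y * I : ℂ)) := by
    rw [hp, mul_pow, sqrt_sq' hA, sqrt_sq' hD]
  have hom0 : omJ ≠ 0 := by intro h; have := norm_omJ; rw [h] at this; simp at this
  have hsq : (omJ * p) ^ 2 = ((1 - I) * (Real.sqrt (Real.pi * β) : ℝ)) ^ 2 := by
    rw [mul_pow, hps, mul_pow]
    have h1 : ((Real.sqrt (Real.pi * β) : ℝ) : ℂ) ^ 2 = Real.pi * β := by
      rw [← Complex.ofReal_pow, Real.sq_sqrt (by positivity)]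
      push_cast; ring
    rw [h1]
    have h2 : I + (x + y * I : ℂ) = I * (1 - I * (x + y * I : ℂ)) := by
      linear_combination ((x : ℂ) + y * I) * Complex.I_sq
    have h3 : Lam β (x + y * I) = omJ ^ 2 * (I * (1 - I * (x + y * I : ℂ))) / β := by rw [Lam, h2]
    rw [h3]
    have h4 : (1 - I) ^ 2 = -2 * I := by linear_combination Complex.I_sq
    rw [h4]
    have hI : I ≠ 0 := Complex.I_ne_zero
    have h5 : ∀ D : ℂ, D ≠ 0 → omJ ^ 2 * (2 * Real.pi / (omJ ^ 2 * (I * D) / β) * D) = -2 * I * (Real.pi * β) := by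
      intro D hD
      field_simp
      linear_combination Complex.I_sq
    exact h5 _ hD0
  have hfac : (omJ * p - (1 - I) * (Real.sqrt (Real.pi * β) : ℝ)) * (omJ * p + (1 - I) * (Real.sqrt (Real.pi * β) : ℝ)) = 0 := by
    linear_combination hsq
  rcases mul_eq_zero.1 hfac with h | h
  · rw [mul_assoc]
    exact sub_eq_zero.1 h
  · exfalso
    have h5 : omJ * p = -((1 - I) * (Real.sqrt (Real.pi * β) : ℝ)) := by linear_combination h
    have h6 : ((12 + 5 * I) / 13) * omJ = 1 := by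
      rw [omJ]; linear_combination (-25 / 169 : ℂ) * Complex.I_sq
    have h7 : p = -(((17 - 7 * I) / 13) * (Real.sqrt (Real.pi * β) : ℝ)) := by
      calc p = (((12 + 5 * I) / 13) * omJ) * p := by rw [h6, one_mul]
        _ = ((12 + 5 * I) / 13) * (omJ * p) := by ring
        _ = _ := by
          rw [h5]
          linear_combination (5 / 13 * ((Real.sqrt (Real.pi * β) : ℝ) : ℂ)) * Complex.I_sq
    have h8 : p.re = -(17 / 13 * Real.sqrt (Real.pi * β)) := by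
      rw [h7]
      simp
    have h9 : 0 < Real.sqrt (Real.pi * β) := Real.sqrt_pos.2 (by positivity)
    rw [h8] at hpre
    linarith

/-! ### rays and segments -/

theorem ray_left {h P : ℂ → ℂ} (hh : Differentiable ℂ h) (hP : ∀ x, HasDerivAt P (h x) x)
    {lL : ℂ} {X0 Y C k : ℝ} (hl : Tendsto (fun X : ℝ => P (X + Y * I)) atBot (𝓝 lL)) (hk : 0 < k) (hC : 0 ≤ C)
    (hb : ∀ X : ℝ, X ≤ X0 → ‖h (X + Y * I)‖ ≤ C * Real.exp (k * (X - X0))) :
    ‖P (X0 + Y * I) - lL‖ ≤ C / k := by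
  have h1 : Tendsto (fun X : ℝ => ‖P (X0 + Y * I) - P (X + Y * I)‖) atBot (𝓝 ‖P (X0 + Y * I) - lL‖) :=
    (tendsto_const_nhds.sub hl).norm
  refine le_of_tendsto h1 ?_
  filter_upwards [eventually_le_atBot X0] with X hX
  rw [← prim_hor hh hP]
  have hder : ∀ t ∈ uIcc X X0, HasDerivAt (fun t : ℝ => C / k * Real.exp (k * (t - X0))) (C * Real.exp (k * (t - X0))) t := by
    intro t _
    have h2 : HasDerivAt (fun t : ℝ => k * (t - X0)) k t := by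
      simpa using ((hasDerivAt_id t).sub_const X0).const_mul k
    refine (h2.exp.const_mul (C / k)).congr_deriv ?_
    field_simp
  have hcont : Continuous (fun t : ℝ => C * Real.exp (k * (t - X0))) := by fun_prop
  have h3 := intervalIntegral.integral_eq_sub_of_hasDerivAt hder (hcont.intervalIntegrable _ _)
  have h4 : ‖∫ t in X..X0, h (t + Y * I)‖ ≤ ∫ t in X..X0, C * Real.exp (k * (t - X0)) := by
    refine intervalIntegral.norm_integral_le_of_norm_le hX ?_ (hcont.intervalIntegrable _ _)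
    exact Filter.Eventually.of_forall (fun t ht => hb t ht.2)
  refine h4.trans ?_
  rw [h3, sub_self, mul_zero, Real.exp_zero, mul_one]
  have h5 : 0 ≤ C / k * Real.exp (k * (X - X0)) := by positivity
  linarith

theorem seg_right {h P : ℂ → ℂ} (hh : Differentiable ℂ h) (hP : ∀ x, HasDerivAt P (h x) x)
    {X0 X1 Y C k : ℝ} (hk : 0 < k) (hC : 0 ≤ C) (h01 : X0 ≤ X1)
    (hb : ∀ X : ℝ, X0 ≤ X → X ≤ X1 → ‖h (X + Y * I)‖ ≤ C * Real.exp (-k * (X - X0))) :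
    ‖P (X1 + Y * I) - P (X0 + Y * I)‖ ≤ C / k := by
  rw [← prim_hor hh hP]
  have hder : ∀ t ∈ uIcc X0 X1, HasDerivAt (fun t : ℝ => -(C / k) * Real.exp (-k * (t - X0))) (C * Real.exp (-k * (t - X0))) t := by
    intro t _
    have h2 : HasDerivAt (fun t : ℝ => -k * (t - X0)) (-k) t := by
      simpa using ((hasDerivAt_id t).sub_const X0).const_mul (-k)
    refine (h2.exp.const_mul (-(C / k))).congr_deriv ?_
    field_simp
  have hcont : Continuous (fun t : ℝ => C * Real.exp (-k * (t - X0))) := by fun_prop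
  have h3 := intervalIntegral.integral_eq_sub_of_hasDerivAt hder (hcont.intervalIntegrable _ _)
  have h4 : ‖∫ t in X0..X1, h (t + Y * I)‖ ≤ ∫ t in X0..X1, C * Real.exp (-k * (t - X0)) := by
    refine intervalIntegral.norm_integral_le_of_norm_le h01 ?_ (hcont.intervalIntegrable _ _)
    exact Filter.Eventually.of_forall (fun t ht => hb t ht.1.le ht.2)
  refine h4.trans ?_
  rw [h3, sub_self, mul_zero, Real.exp_zero, mul_one]
  have h5 : 0 ≤ C / k * Real.exp (-k * (X1 - X0)) := by positivity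
  linarith

theorem ray_right {h P : ℂ → ℂ} (hh : Differentiable ℂ h) (hP : ∀ x, HasDerivAt P (h x) x)
    {lR : ℂ} {X0 Y C k : ℝ} (hl : Tendsto (fun X : ℝ => P (X + Y * I)) atTop (𝓝 lR)) (hk : 0 < k) (hC : 0 ≤ C)
    (hb : ∀ X : ℝ, X0 ≤ X → ‖h (X + Y * I)‖ ≤ C * Real.exp (-k * (X - X0))) :
    ‖lR - P (X0 + Y * I)‖ ≤ C / k := by
  have h1 : Tendsto (fun X : ℝ => ‖P (X + Y * I) - P (X0 + Y * I)‖) atTop (𝓝 ‖lR - P (X0 + Y * I)‖) :=
    (hl.sub tendsto_const_nhds).norm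
  refine le_of_tendsto h1 ?_
  filter_upwards [eventually_ge_atTop X0] with X hX
  exact seg_right hh hP hk hC hX (fun t h0 _ => hb t h0)

theorem seg_hor {h P : ℂ → ℂ} (hh : Differentiable ℂ h) (hP : ∀ x, HasDerivAt P (h x) x)
    {X0 X1 Y C : ℝ} (h01 : X0 ≤ X1) (hb : ∀ X : ℝ, X0 ≤ X → X ≤ X1 → ‖h (X + Y * I)‖ ≤ C) :
    ‖P (X1 + Y * I) - P (X0 + Y * I)‖ ≤ C * (X1 - X0) := by
  rw [← prim_hor hh hP]
  have := intervalIntegral.norm_integral_le_of_norm_le_const (a := X0) (b := X1) (C := C)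
    (f := fun X : ℝ => h (X + Y * I)) (by
      intro t ht
      rw [uIoc_of_le h01] at ht
      exact hb t ht.1.le ht.2)
  rwa [abs_of_nonneg (by linarith)] at this

theorem seg_ver {h P : ℂ → ℂ} (hh : Differentiable ℂ h) (hP : ∀ x, HasDerivAt P (h x) x)
    {Y0 Y1 X C : ℝ} (h01 : Y1 ≤ Y0) (hb : ∀ Y : ℝ, Y1 ≤ Y → Y ≤ Y0 → ‖h (X + Y * I)‖ ≤ C) :
    ‖P (X + Y1 * I) - P (X + Y0 * I)‖ ≤ C * (Y0 - Y1) := by
  rw [← prim_ver hh hP, norm_mul, Complex.norm_I, one_mul, intervalIntegral.integral_symm, norm_neg]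
  have := intervalIntegral.norm_integral_le_of_norm_le_const (a := Y1) (b := Y0) (C := C)
    (f := fun Y : ℝ => h (X + Y * I)) (by
      intro t ht
      rw [uIoc_of_le h01] at ht
      exact hb t ht.1.le ht.2)
  rwa [abs_of_nonneg (by linarith)] at this

theorem prim_omJ {h P : ℂ → ℂ} (hh : Differentiable ℂ h) (hP : ∀ x, HasDerivAt P (h x) x) (p : ℂ) (a b : ℝ) :
    omJ * ∫ t in a..b, h (p + omJ * t) = P (p + omJ * b) - P (p + omJ * a) := by
  have h1 : ∀ t ∈ uIcc a b, HasDerivAt (fun t : ℝ => P (p + omJ * t)) (omJ * h (p + omJ * t)) t := by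
    intro t _
    have h2 : HasDerivAt (fun t : ℝ => p + omJ * (t : ℂ)) omJ t := by
      have := ((Complex.ofRealCLM.hasDerivAt (x := t)).const_mul omJ).const_add p
      simpa using this
    have h3 := HasDerivAt.comp t (hP (p + omJ * t)) h2
    rw [mul_comm] at h3
    exact h3
  have h4 : IntervalIntegrable (fun t : ℝ => omJ * h (p + omJ * t)) volume a b := by
    apply Continuous.intervalIntegrable
    have := hh.continuous
    fun_prop
  have h5 := intervalIntegral.integral_eq_sub_of_hasDerivAt h1 h4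
  rw [← h5, intervalIntegral.integral_const_mul]


/-! ### pointwise bounds of the exponent -/

theorem norm_GG_line {β : ℝ} (hβ : 0 < β) (σ : ℂ) (t : ℝ) :
    ‖GG β (zs β σ) (σ + omJ * t)‖ =
      ‖cexp ((σ - I * σ ^ 2 / 2) / β)‖ * Real.exp ((Psi σ (omJ * t) / β).re) := by
  rw [GG_saddle hβ, norm_mul, Complex.norm_exp (Psi σ (omJ * t) / β)]

theorem re_line_S1 {β x y ρ τ : ℝ} (hβ : 0 < β) (ha : 0 < aq x y)
    (hρ : ‖(x + y * I : ℂ)‖ ≤ ρ * aq x y) (_hρ0 : 0 ≤ ρ) (hρ1 : ρ ≤ 1.44) (h1 : 1 ≤ τ) (h2 : τ ≤ 171 / 100) :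
    (Psi (x + y * I) (omJ * ((-τ : ℝ) : ℂ)) / β).re ≤ -((aq x y / β) / 2 * (1 - ρ / 3)) := by
  have h0 : 0 ≤ τ := by linarith
  rw [Psi_line hβ, Complex.add_re]
  have h3 := (Complex.re_le_norm _).trans (norm_Rem_neg hβ (x + y * I) τ h0)
  have h6 : ‖(x + y * I : ℂ)‖ / (6 * β) ≤ ρ * (aq x y / β) / 6 := by
    have e : ‖(x + y * I : ℂ)‖ / (6 * β) = ‖(x + y * I : ℂ)‖ / β / 6 := by field_simp
    have e2 : ‖(x + y * I : ℂ)‖ / β ≤ ρ * (aq x y / β) := by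
      rw [← mul_div_assoc]; exact div_le_div_of_nonneg_right hρ hβ.le
    rw [e]; linarith
  have h4 : (-(Lam β (x + y * I) / 2) * ((-τ : ℝ) : ℂ) ^ 2).re = -((aq x y / β) / 2) * τ ^ 2 := by
    rw [← Complex.ofReal_pow, Complex.re_mul_ofReal, ← re_Lam x y]
    simp
  rw [h4]
  have hA : 0 < aq x y / β := by positivity
  have h5 : ‖(x + y * I : ℂ)‖ / (6 * β) * τ ^ 3 ≤ ρ * (aq x y / β) / 6 * τ ^ 3 :=
    mul_le_mul_of_nonneg_right h6 (by positivity)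
  -- polynomial inequality
  have h7 : 1 - ρ / 3 ≤ τ ^ 2 - ρ * τ ^ 3 / 3 := by
    have h8 : ρ / 3 * (τ ^ 2 + τ + 1) ≤ τ + 1 := by
      have h9 : τ ^ 2 + τ + 1 ≤ (τ + 1) * (25 / 12) := by nlinarith
      have h10 : ρ / 3 * (τ ^ 2 + τ + 1) ≤ 1.44 / 3 * ((τ + 1) * (25 / 12)) := by
        apply mul_le_mul _ h9 (by positivity) (by norm_num)
        linarith
      nlinarith
    nlinarith
  nlinarith [mul_le_mul_of_nonneg_left h7 (by positivity : 0 ≤ (aq x y / β) / 2)]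

theorem gre_S2 {x y ym τ : ℝ} (hx : 0 < x) (hm0 : 0 ≤ ym) (hm : -y ≤ ym) (h1 : 171 / 100 ≤ τ) (h2 : τ ≤ 17 / 5) :
    gre x y (-(12 * τ / 13)) (5 * τ / 13) ≤
      -(x - 240 / 169 + (171 / 100) * (240 / 169 - (5 * x + 12 * ym) / 13)) -
        (240 / 169 - (5 * x + 12 * ym) / 13) * (τ - 171 / 100) := by
  rw [gre, Real.cos_neg, Real.sin_neg]
  have hpi := Real.pi_lt_d2
  have hpi' := Real.pi_gt_d2
  have hc : Real.cos (12 * τ / 13) ≤ 0 :=
    Real.cos_nonpos_of_pi_div_two_le_of_le (by linarith) (by linarith)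
  have hs : 0 ≤ Real.sin (12 * τ / 13) := Real.sin_nonneg_of_nonneg_of_le_pi (by linarith) (by linarith)
  have hs1 : Real.sin (12 * τ / 13) ≤ 12 * τ / 13 := Real.sin_le (by linarith)
  have hE := Real.exp_pos (-(5 * τ / 13))
  have hE1 : Real.exp (-(5 * τ / 13)) ≤ 1 := Real.exp_le_one_iff.2 (by linarith)
  have e1 : Real.exp (-(5 * τ / 13)) * (x * Real.cos (12 * τ / 13)) ≤ 0 :=
    mul_nonpos_of_nonneg_of_nonpos hE.le (mul_nonpos_of_nonneg_of_nonpos hx.le hc)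
  have e2 : Real.exp (-(5 * τ / 13)) * (y * Real.sin (12 * τ / 13)) - y * (12 * τ / 13) ≤ ym * (12 * τ / 13) := by
    have h5 : Real.exp (-(5 * τ / 13)) * Real.sin (12 * τ / 13) ≤ 12 * τ / 13 := by
      calc Real.exp (-(5 * τ / 13)) * Real.sin (12 * τ / 13) ≤ 1 * (12 * τ / 13) :=
            mul_le_mul hE1 hs1 hs (by norm_num)
        _ = _ := one_mul _
    have h6 : 0 ≤ Real.exp (-(5 * τ / 13)) * Real.sin (12 * τ / 13) := mul_nonneg hE.le hs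
    rcases le_total 0 y with hy | hy
    · nlinarith
    · nlinarith
  have e3 : 60 / 169 * τ ^ 2 ≥ 60 / 169 * (4 * τ - 4) := by nlinarith [sq_nonneg (τ - 2)]
  nlinarith

theorem exp_neg_17_13 : Real.exp (-(17 / 13)) ≤ 0.2705 := by
  rw [Real.exp_neg]
  have h := Real.sum_le_exp_of_nonneg (x := 17 / 13) (by norm_num) 9
  have h2 : (1 / 0.2705 : ℝ) ≤ Real.exp (17 / 13) := by
    refine le_trans ?_ h
    norm_num [Finset.sum_range_succ, Nat.factorial]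
  have h3 : (0:ℝ) < 1 / 0.2705 := by norm_num
  calc (Real.exp (17 / 13))⁻¹ ≤ (1 / 0.2705 : ℝ)⁻¹ := inv_anti₀ h3 h2
    _ = 0.2705 := by norm_num

theorem lin_trig_le (x y X : ℝ) : x * Real.cos X - y * Real.sin X ≤ ‖(x + y * I : ℂ)‖ := by
  have h1 : x * Real.cos X - y * Real.sin X = ((x + y * I : ℂ) * cexp (X * I)).re := by
    rw [Complex.exp_mul_I, ← Complex.ofReal_cos, ← Complex.ofReal_sin]
    generalize Real.cos X = C
    generalize Real.sin X = S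
    simp
  rw [h1]
  refine (Complex.re_le_norm _).trans ?_
  rw [norm_mul, Complex.norm_exp_ofReal_mul_I, mul_one]

theorem gre_HL {x y ym X : ℝ} (_hx : 0 < x) (_hm0 : 0 ≤ ym) (hm : -y ≤ ym) (h1 : X ≤ -(204 / 65)) :
    gre x y X (17 / 13) ≤ -((204 / 65) * (17 / 13 - ym) - 0.2705 * ‖(x + y * I : ℂ)‖ - 4 * x / 13) +
        (17 / 13 - ym) * (X + 204 / 65) := by
  rw [gre]
  have h2 := lin_trig_le x y X
  have hE := Real.exp_pos (-(17 / 13))
  have hE1 := exp_neg_17_13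
  have hn : 0 ≤ ‖(x + y * I : ℂ)‖ := norm_nonneg _
  have h3 : Real.exp (-(17 / 13)) * (x * Real.cos X - y * Real.sin X) ≤ 0.2705 * ‖(x + y * I : ℂ)‖ := by
    calc Real.exp (-(17 / 13)) * (x * Real.cos X - y * Real.sin X) ≤ Real.exp (-(17 / 13)) * ‖(x + y * I : ℂ)‖ :=
          mul_le_mul_of_nonneg_left h2 hE.le
      _ ≤ _ := mul_le_mul_of_nonneg_right hE1 hn
  nlinarith

theorem cos_12_13 : Real.cos (12 / 13) ≤ 0.6118 := by
  have h := Real.cos_bound (x := 12 / 13) (by rw [abs_of_pos (by norm_num)]; norm_num)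
  rw [abs_of_pos (by norm_num : (0:ℝ) < 12 / 13)] at h
  have h2 := (abs_le.1 h).2
  have h3 : (12 / 13 : ℝ) ^ 4 * (5 / 96) + (1 - (12 / 13) ^ 2 / 2) ≤ 0.6118 := by norm_num
  linarith

theorem gre_H1 {x y ym yp X : ℝ} (hx : 0 < x) (hm0 : 0 ≤ ym) (hm : -y ≤ ym) (hp0 : 0 ≤ yp) (hp : y ≤ yp)
    (h1 : 12 / 13 ≤ X) (h2 : X ≤ Real.pi / 2) :
    gre x y X (-(5 / 13)) ≤ -(60 / 169 + (18 / 13 - 0.8989) * x - 0.5463 * ym - 0.102 * yp) := by
  rw [gre, neg_neg]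
  have hpi := Real.pi_lt_d6
  have hpi' := Real.pi_gt_d6
  have hE1 := exp_five_thirteen
  have hE2 := exp_five_thirteen'
  have hc : Real.cos X ≤ 0.6118 :=
    (Real.cos_le_cos_of_nonneg_of_le_pi (by norm_num) (by linarith) h1).trans cos_12_13
  have hc0 : 0 ≤ Real.cos X := Real.cos_nonneg_of_neg_pi_div_two_le_of_le (by linarith) h2
  have hs1 : Real.sin X ≤ 1 := Real.sin_le_one X
  have hs0 : 0 ≤ Real.sin X := Real.sin_nonneg_of_nonneg_of_le_pi (by linarith) (by linarith)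
  have hs2 : 1 - (Real.pi / 2 - X) ^ 2 / 2 ≤ Real.sin X := by
    rw [← Real.cos_pi_div_two_sub]
    exact Real.one_sub_sq_div_two_le_cos
  have e1 : Real.exp (5 / 13) * (x * Real.cos X) ≤ 0.8989 * x := by
    have : Real.exp (5 / 13) * Real.cos X ≤ 1.4692 * 0.6118 := mul_le_mul hE1.le hc hc0 (by norm_num)
    nlinarith
  have e2 : y * (X - Real.exp (5 / 13) * Real.sin X) ≤ 0.5463 * ym + 0.102 * yp := by
    have h3 : X - Real.exp (5 / 13) * Real.sin X ≤ 0.102 := by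
      have h4 : 1.469 * Real.sin X ≤ Real.exp (5 / 13) * Real.sin X := mul_le_mul_of_nonneg_right hE2.le hs0
      obtain ⟨d, hd⟩ : ∃ d, d = Real.pi / 2 - X := ⟨_, rfl⟩
      rw [← hd] at hs2
      have hd0 : 0 ≤ d := by rw [hd]; linarith
      have hd1 : d ≤ 1 := by rw [hd]; linarith
      have hd2 : d ^ 2 ≤ d := by nlinarith
      nlinarith
    have h5 : -0.5463 ≤ X - Real.exp (5 / 13) * Real.sin X := by
      have h6 : Real.exp (5 / 13) * Real.sin X ≤ 1.4692 * 1 := mul_le_mul hE1.le hs1 hs0 (by norm_num)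
      have : (12 / 13 : ℝ) ≥ 0.923 := by norm_num
      linarith
    rcases le_total 0 y with hy | hy
    · have h7 : y * (X - Real.exp (5 / 13) * Real.sin X) ≤ y * 0.102 := mul_le_mul_of_nonneg_left h3 hy
      nlinarith
    · nlinarith
  nlinarith

theorem gre_V1 {x y ym yp V : ℝ} (hx : 0 < x) (hm0 : 0 ≤ ym) (hm : -y ≤ ym) (hm1 : ym ≤ 0.72) (hp0 : 0 ≤ yp)
    (hp : y ≤ yp) (h1 : 5 / 13 ≤ V) (h2 : V ≤ 1) :
    gre x y (Real.pi / 2) (-V) ≤ -(0.5 + 18 / 13 * x - 0.102 * yp) := by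
  rw [gre, neg_neg, Real.cos_pi_div_two, Real.sin_pi_div_two]
  have hpi := Real.pi_lt_d6
  have hpi' := Real.pi_gt_d6
  have hE2 := exp_five_thirteen'
  have hE3 : Real.exp (5 / 13) ≤ Real.exp V := Real.exp_le_exp.2 h1
  have hE4 : Real.exp V ≤ 1 + V + V ^ 2 := by
    have h := Real.abs_exp_sub_one_sub_id_le (x := V) (by rw [abs_of_nonneg (by linarith)]; exact h2)
    have := (abs_le.1 h).2
    linarith
  rcases le_total 0 y with hy | hy
  · have h3 : y * (Real.pi / 2 - Real.exp V) ≤ 0.102 * yp := by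
      have : Real.pi / 2 - Real.exp V ≤ 0.102 := by linarith
      nlinarith
    nlinarith
  · have h3 : y * (Real.pi / 2 - Real.exp V) ≤ 0.72 * (V ^ 2 + V - 0.57) + 0.03 := by
      have h4 : Real.exp V - Real.pi / 2 ≤ V ^ 2 + V - 0.57 := by linarith
      have h5 : y * (Real.pi / 2 - Real.exp V) = -y * (Real.exp V - Real.pi / 2) := by ring
      rw [h5]
      have h6 : 0 ≤ -y := by linarith
      have h7 : -y ≤ 0.72 := by linarith
      have h8 : -y * (Real.exp V - Real.pi / 2) ≤ -y * (V ^ 2 + V - 0.57) := mul_le_mul_of_nonneg_left h4 h6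
      have h9 : -0.04 ≤ V ^ 2 + V - 0.57 := by nlinarith
      rcases le_total 0 (V ^ 2 + V - 0.57) with hq | hq
      · nlinarith [mul_le_mul_of_nonneg_right h7 hq]
      · nlinarith [mul_nonneg h6 (neg_nonneg.2 hq)]
    nlinarith

theorem gre_H2a {x y ym yp X : ℝ} (hm0 : 0 ≤ ym) (hm : -y ≤ ym) (hp0 : 0 ≤ yp) (hp : y ≤ yp) (hx : 0 < x)
    (h1 : Real.pi / 2 ≤ X) (h2 : X ≤ 3 * Real.pi / 2) :
    gre x y X (-1) ≤ -((Real.pi / 2) * (1 - y) + 2 * x - 2.7183 * (ym + yp)) - (1 - y) * (X - Real.pi / 2) := by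
  rw [gre, neg_neg]
  have hc : Real.cos X ≤ 0 := Real.cos_nonpos_of_pi_div_two_le_of_le h1 (by linarith)
  have hs1 : Real.sin X ≤ 1 := Real.sin_le_one X
  have hs2 : -1 ≤ Real.sin X := Real.neg_one_le_sin X
  have hE := Real.exp_one_lt_d9
  have hE0 := Real.exp_pos 1
  have h3 : x * Real.cos X - y * Real.sin X ≤ ym + yp := by nlinarith
  have h4 : Real.exp 1 * (x * Real.cos X - y * Real.sin X) ≤ 2.7183 * (ym + yp) := by
    calc Real.exp 1 * (x * Real.cos X - y * Real.sin X) ≤ Real.exp 1 * (ym + yp) :=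
          mul_le_mul_of_nonneg_left h3 hE0.le
      _ ≤ _ := mul_le_mul_of_nonneg_right (by linarith) (by linarith)
  nlinarith

theorem gre_H2b {x y X : ℝ} (_hx : 0 < x) :
    gre x y X (-1) ≤ -((3 * Real.pi / 2) * (1 - y) + 2 * x - 2.7183 * ‖(x + y * I : ℂ)‖) -
      (1 - y) * (X - 3 * Real.pi / 2) := by
  rw [gre, neg_neg]
  have h2 := lin_trig_le x y X
  have hE := Real.exp_one_lt_d9
  have hE0 := Real.exp_pos 1
  have hn : 0 ≤ ‖(x + y * I : ℂ)‖ := norm_nonneg _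
  have h4 : Real.exp 1 * (x * Real.cos X - y * Real.sin X) ≤ 2.7183 * ‖(x + y * I : ℂ)‖ := by
    calc Real.exp 1 * (x * Real.cos X - y * Real.sin X) ≤ Real.exp 1 * ‖(x + y * I : ℂ)‖ :=
          mul_le_mul_of_nonneg_left h2 hE0.le
      _ ≤ _ := mul_le_mul_of_nonneg_right (by linarith) hn
  nlinarith


/-! ### assembly -/

theorem seg_omJ_exp {h P : ℂ → ℂ} (hh : Differentiable ℂ h) (hP : ∀ x, HasDerivAt P (h x) x) (p : ℂ)
    {a b C k : ℝ} (hab : a ≤ b) (hk : 0 < k) (hC : 0 ≤ C)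
    (hb : ∀ t : ℝ, a ≤ t → t ≤ b → ‖h (p + omJ * t)‖ ≤ C * Real.exp (k * (t - b))) :
    ‖P (p + omJ * b) - P (p + omJ * a)‖ ≤ C / k := by
  rw [← prim_omJ hh hP, norm_mul, norm_omJ, one_mul]
  have hder : ∀ t ∈ uIcc a b, HasDerivAt (fun t : ℝ => C / k * Real.exp (k * (t - b))) (C * Real.exp (k * (t - b))) t := by
    intro t _
    have h2 : HasDerivAt (fun t : ℝ => k * (t - b)) k t := by
      simpa using ((hasDerivAt_id t).sub_const b).const_mul k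
    refine (h2.exp.const_mul (C / k)).congr_deriv ?_
    field_simp
  have hcont : Continuous (fun t : ℝ => C * Real.exp (k * (t - b))) := by fun_prop
  have h3 := intervalIntegral.integral_eq_sub_of_hasDerivAt hder (hcont.intervalIntegrable _ _)
  have h4 : ‖∫ t in a..b, h (p + omJ * t)‖ ≤ ∫ t in a..b, C * Real.exp (k * (t - b)) := by
    refine intervalIntegral.norm_integral_le_of_norm_le hab ?_ (hcont.intervalIntegrable _ _)
    exact Filter.Eventually.of_forall (fun t ht => hb t ht.1.le ht.2)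
  refine h4.trans ?_
  rw [h3, sub_self, mul_zero, Real.exp_zero, mul_one]
  have h5 : 0 ≤ C / k * Real.exp (k * (a - b)) := by positivity
  linarith

theorem seg_omJ_const {h P : ℂ → ℂ} (hh : Differentiable ℂ h) (hP : ∀ x, HasDerivAt P (h x) x) (p : ℂ)
    {a b C : ℝ} (hab : a ≤ b) (hb : ∀ t : ℝ, a ≤ t → t ≤ b → ‖h (p + omJ * t)‖ ≤ C) :
    ‖P (p + omJ * b) - P (p + omJ * a)‖ ≤ C * (b - a) := by
  rw [← prim_omJ hh hP, norm_mul, norm_omJ, one_mul]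
  have := intervalIntegral.norm_integral_le_of_norm_le_const (a := a) (b := b) (C := C)
    (f := fun t : ℝ => h (p + omJ * t)) (by
      intro t ht
      rw [uIoc_of_le hab] at ht
      exact hb t ht.1.le ht.2)
  rwa [abs_of_nonneg (by linarith)] at this

theorem re_line_eq {β : ℝ} (x y t : ℝ) :
    (Psi (x + y * I) (omJ * t) / β).re = gre x y (12 * t / 13) (-(5 * t / 13)) / β := by
  rw [Complex.div_ofReal_re]
  congr 1
  rw [← re_Psi]
  congr 2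
  rw [omJ]
  push_cast
  ring

/-- the bound of the central piece -/
noncomputable def lapErr (A ρ : ℝ) : ℝ :=
  3 / 2 * Real.sqrt (2 * Real.pi) * (ρ * A / 24 + Real.exp (5 / 13) * (ρ * A / 24)) / (A ^ 2 * Real.sqrt A) +
    (15 / 4 * Real.sqrt (2 * Real.pi) * (ρ * A / 6) ^ 2 / (((1 - ρ / 3) * A) ^ 3 * Real.sqrt ((1 - ρ / 3) * A)) +
    15 / 4 * Real.sqrt (2 * Real.pi) * (Real.exp (5 / 13) * (ρ * A / 6)) ^ 2 /
      (((1 - 0.12244 * ρ) * A) ^ 3 * Real.sqrt ((1 - 0.12244 * ρ) * A))) +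
    2 * (Real.exp (-(A / 2) * 1 ^ 2) / (A * 1))

/-- the sum of the tails -/
noncomputable def tailErr (β x y ym yp s ρ : ℝ) : ℝ :=
  Real.exp (-((aq x y / β) / 2 * (1 - ρ / 3))) * (71 / 100) +
  Real.exp (-(x - 240 / 169 + (171 / 100) * (240 / 169 - (5 * x + 12 * ym) / 13)) / β) /
    ((240 / 169 - (5 * x + 12 * ym) / 13) / β) +
  Real.exp (-((204 / 65) * (17 / 13 - ym) - 0.2705 * s - 4 * x / 13) / β) / ((17 / 13 - ym) / β) +
  Real.exp (-(60 / 169 + (18 / 13 - 0.8989) * x - 0.5463 * ym - 0.102 * yp) / β) * (Real.pi / 2 - 12 / 13) +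
  Real.exp (-(0.5 + 18 / 13 * x - 0.102 * yp) / β) * (8 / 13) +
  Real.exp (-((Real.pi / 2) * (1 - y) + 2 * x - 2.7183 * (ym + yp)) / β) / ((1 - y) / β) +
  Real.exp (-((3 * Real.pi / 2) * (1 - y) + 2 * x - 2.7183 * s) / β) / ((1 - y) / β)

/-- **Lemma J, slanted direction.** -/
theorem J_slant {β x y ym yp ρ : ℝ} (hβ : 0 < β) (hx : 0 < x) (hxy : y ≤ 2.45 * x) (hy1 : y < 1)
    (hm0 : 0 ≤ ym) (hm : -y ≤ ym) (hm1 : ym ≤ 0.72) (hp0 : 0 ≤ yp) (hp : y ≤ yp) (ha : 0 < aq x y)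
    (hρ : ‖(x + y * I : ℂ)‖ ≤ ρ * aq x y) (hρ0 : 0 ≤ ρ) (hρ1 : ρ ≤ 1.44)
    (hsl : 0 < 240 / 169 - (5 * x + 12 * ym) / 13) :
    ‖F (cexp (I * β)) (zs β (x + y * I)) *
        cexp (-(((x + y * I : ℂ) - I * (x + y * I : ℂ) ^ 2 / 2) / β)) * (1 - I * (x + y * I : ℂ)) ^ (1 / 2 : ℂ) - 1‖ ≤
      Real.sqrt (‖1 - I * (x + y * I : ℂ)‖ / (2 * Real.pi * β)) *
        (lapErr (aq x y / β) ρ + tailErr β x y ym yp ‖(x + y * I : ℂ)‖ ρ) := by
  obtain ⟨σ, hσ⟩ : ∃ σ : ℂ, σ = x + y * I := ⟨_, rfl⟩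
  obtain ⟨h, hh⟩ : ∃ h : ℂ → ℂ, h = GG β (zs β σ) := ⟨_, rfl⟩
  obtain ⟨P, lL, lR, hP, hl, hF⟩ := exists_F_lim hβ (zs β σ)
  obtain ⟨E, hE⟩ : ∃ E : ℂ, E = cexp ((σ - I * σ ^ 2 / 2) / β) := ⟨_, rfl⟩
  have hE0 : E ≠ 0 := by rw [hE]; exact Complex.exp_ne_zero _
  have hEn : 0 < ‖E‖ := norm_pos_iff.2 hE0
  have hd : Differentiable ℂ h := by rw [hh]; exact (kr_GG (β := β) (zs β σ)).diff
  have hP' : ∀ x, HasDerivAt P (h x) x := by rw [hh]; exact hP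
  have hA : 0 < aq x y / β := by positivity
  have hpi := Real.pi_gt_d6
  have hpi2 := Real.pi_lt_d6
  -- norms along axis-parallel lines
  have hnorm : ∀ X Y : ℝ, ‖h (((x + X : ℝ) : ℂ) + ((y + Y : ℝ) : ℂ) * I)‖ = ‖E‖ * Real.exp (gre x y X Y / β) := by
    intro X Y
    rw [hh, hE, hσ]
    exact norm_GG_saddle hβ x y X Y
  have hnormX : ∀ X Y : ℝ, ‖h ((X : ℂ) + ((y + Y : ℝ) : ℂ) * I)‖ = ‖E‖ * Real.exp (gre x y (X - x) Y / β) := by
    intro X Y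
    have := hnorm (X - x) Y
    rwa [show x + (X - x) = X by ring] at this
  have hnormL : ∀ t : ℝ, ‖h (σ + omJ * t)‖ = ‖E‖ * Real.exp (gre x y (12 * t / 13) (-(5 * t / 13)) / β) := by
    intro t
    rw [hh, norm_GG_line hβ, ← hE, hσ, re_line_eq]
  -- the pieces
  obtain ⟨p0, hp0'⟩ : ∃ p0 : ℂ, p0 = P (σ + omJ * ((-(17 / 5) : ℝ) : ℂ)) := ⟨_, rfl⟩
  obtain ⟨p1, hp1'⟩ : ∃ p1 : ℂ, p1 = P (σ + omJ * ((-(171 / 100) : ℝ) : ℂ)) := ⟨_, rfl⟩
  obtain ⟨p2, hp2'⟩ : ∃ p2 : ℂ, p2 = P (σ + omJ * ((-1 : ℝ) : ℂ)) := ⟨_, rfl⟩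
  obtain ⟨p3, hp3'⟩ : ∃ p3 : ℂ, p3 = P (σ + omJ * ((1 : ℝ) : ℂ)) := ⟨_, rfl⟩
  obtain ⟨p4, hp4'⟩ : ∃ p4 : ℂ, p4 = P (((x + Real.pi / 2 : ℝ) : ℂ) + ((y + -(5 / 13) : ℝ) : ℂ) * I) := ⟨_, rfl⟩
  obtain ⟨p5, hp5'⟩ : ∃ p5 : ℂ, p5 = P (((x + Real.pi / 2 : ℝ) : ℂ) + ((y + -1 : ℝ) : ℂ) * I) := ⟨_, rfl⟩
  obtain ⟨p6, hp6'⟩ : ∃ p6 : ℂ, p6 = P (((x + 3 * Real.pi / 2 : ℝ) : ℂ) + ((y + -1 : ℝ) : ℂ) * I) := ⟨_, rfl⟩
  have q0 : σ + omJ * ((-(17 / 5) : ℝ) : ℂ) = ((x + -(204 / 65) : ℝ) : ℂ) + ((y + 17 / 13 : ℝ) : ℂ) * I := by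
    rw [hσ, omJ]; push_cast; ring
  have q3 : σ + omJ * ((1 : ℝ) : ℂ) = ((x + 12 / 13 : ℝ) : ℂ) + ((y + -(5 / 13) : ℝ) : ℂ) * I := by
    rw [hσ, omJ]; push_cast; ring
  have hkHL : 0 < (17 / 13 - ym) / β := by
    apply div_pos _ hβ
    linarith
  have hk1 : 0 < (1 - y) / β := div_pos (by linarith) hβ
  have hks : 0 < (240 / 169 - (5 * x + 12 * ym) / 13) / β := div_pos hsl hβ
  -- HL
  have bHL : ‖p0 - lL‖ ≤ ‖E‖ * (Real.exp (-((204 / 65) * (17 / 13 - ym) - 0.2705 * ‖(x + y * I : ℂ)‖ - 4 * x / 13) / β) /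
      ((17 / 13 - ym) / β)) := by
    rw [hp0', q0, ← mul_div_assoc]
    refine ray_left hd hP' (hl.left _ (by linarith)) hkHL (by positivity) ?_
    intro X hX
    rw [hnormX, mul_assoc, ← Real.exp_add]
    refine mul_le_mul_of_nonneg_left (Real.exp_le_exp.2 ?_) hEn.le
    have := gre_HL (X := X - x) hx hm0 hm (by linarith)
    have e1 : -((204 / 65) * (17 / 13 - ym) - 0.2705 * ‖(x + y * I : ℂ)‖ - 4 * x / 13) / β +
        (17 / 13 - ym) / β * (X - (x + -(204 / 65))) =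
        (-((204 / 65) * (17 / 13 - ym) - 0.2705 * ‖(x + y * I : ℂ)‖ - 4 * x / 13) +
        (17 / 13 - ym) * (X - x + 204 / 65)) / β := by ring
    rw [e1]
    exact div_le_div_of_nonneg_right this hβ.le
  -- S2
  have bS2 : ‖p1 - p0‖ ≤ ‖E‖ * (Real.exp (-(x - 240 / 169 + (171 / 100) * (240 / 169 - (5 * x + 12 * ym) / 13)) / β) /
      ((240 / 169 - (5 * x + 12 * ym) / 13) / β)) := by
    rw [hp1', hp0', ← mul_div_assoc]
    refine seg_omJ_exp hd hP' σ (by norm_num) hks (by positivity) ?_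
    intro t h1 h2
    rw [hnormL, mul_assoc, ← Real.exp_add]
    refine mul_le_mul_of_nonneg_left (Real.exp_le_exp.2 ?_) hEn.le
    have := gre_S2 (τ := -t) hx hm0 hm (by linarith) (by linarith)
    have e0 : gre x y (-(12 * -t / 13)) (5 * -t / 13) = gre x y (12 * t / 13) (-(5 * t / 13)) := by
      congr 1 <;> ring
    rw [e0] at this
    have e1 : -(x - 240 / 169 + (171 / 100) * (240 / 169 - (5 * x + 12 * ym) / 13)) / β +
        (240 / 169 - (5 * x + 12 * ym) / 13) / β * (t - -(171 / 100)) =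
        (-(x - 240 / 169 + (171 / 100) * (240 / 169 - (5 * x + 12 * ym) / 13)) -
        (240 / 169 - (5 * x + 12 * ym) / 13) * (-t - 171 / 100)) / β := by ring
    rw [e1]
    exact div_le_div_of_nonneg_right this hβ.le
  -- S1
  have bS1 : ‖p2 - p1‖ ≤ ‖E‖ * (Real.exp (-((aq x y / β) / 2 * (1 - ρ / 3))) * (71 / 100)) := by
    rw [hp2', hp1', ← mul_assoc]
    refine (seg_omJ_const hd hP' σ (C := ‖E‖ * Real.exp (-((aq x y / β) / 2 * (1 - ρ / 3)))) (by norm_num) ?_).trans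
      (le_of_eq ?_)
    · intro t h1 h2
      have e0 : ((t : ℝ) : ℂ) = (((-(-t) : ℝ)) : ℂ) := by simp
      rw [hh, norm_GG_line hβ, ← hE, hσ, e0]
      refine mul_le_mul_of_nonneg_left (Real.exp_le_exp.2 ?_) hEn.le
      exact re_line_S1 hβ ha hρ hρ0 hρ1 (by linarith) (by linarith)
    · ring
  -- H1
  have bH1 : ‖p4 - p3‖ ≤ ‖E‖ * (Real.exp (-(60 / 169 + (18 / 13 - 0.8989) * x - 0.5463 * ym - 0.102 * yp) / β) *
      (Real.pi / 2 - 12 / 13)) := by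
    rw [hp4', hp3', q3, ← mul_assoc]
    refine (seg_hor hd hP' (C := ‖E‖ * Real.exp (-(60 / 169 + (18 / 13 - 0.8989) * x - 0.5463 * ym - 0.102 * yp) / β))
      (by linarith) ?_).trans (le_of_eq ?_)
    · intro X h1 h2
      rw [hnormX]
      refine mul_le_mul_of_nonneg_left (Real.exp_le_exp.2 ?_) hEn.le
      exact div_le_div_of_nonneg_right (gre_H1 hx hm0 hm hp0 hp (by linarith) (by linarith)) hβ.le
    · ring
  -- V1
  have bV1 : ‖p5 - p4‖ ≤ ‖E‖ * (Real.exp (-(0.5 + 18 / 13 * x - 0.102 * yp) / β) * (8 / 13)) := by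
    rw [hp5', hp4', ← mul_assoc]
    refine (seg_ver hd hP' (C := ‖E‖ * Real.exp (-(0.5 + 18 / 13 * x - 0.102 * yp) / β))
      (by linarith) ?_).trans (le_of_eq ?_)
    · intro Y h1 h2
      have e0 : ((Y : ℝ) : ℂ) = ((y + -(y - Y) : ℝ) : ℂ) := by push_cast; ring
      rw [e0, hnorm]
      refine mul_le_mul_of_nonneg_left (Real.exp_le_exp.2 ?_) hEn.le
      exact div_le_div_of_nonneg_right (gre_V1 hx hm0 hm hm1 hp0 hp (by linarith) (by linarith)) hβ.le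
    · ring
  -- H2a
  have bH2a : ‖p6 - p5‖ ≤ ‖E‖ * (Real.exp (-((Real.pi / 2) * (1 - y) + 2 * x - 2.7183 * (ym + yp)) / β) /
      ((1 - y) / β)) := by
    rw [hp6', hp5', ← mul_div_assoc]
    refine seg_right hd hP' hk1 (by positivity) (by linarith) ?_
    intro X h1 h2
    rw [hnormX, mul_assoc, ← Real.exp_add]
    refine mul_le_mul_of_nonneg_left (Real.exp_le_exp.2 ?_) hEn.le
    have := gre_H2a (X := X - x) hm0 hm hp0 hp hx (by linarith) (by linarith)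
    have e1 : -((Real.pi / 2) * (1 - y) + 2 * x - 2.7183 * (ym + yp)) / β + -((1 - y) / β) * (X - (x + Real.pi / 2)) =
        (-((Real.pi / 2) * (1 - y) + 2 * x - 2.7183 * (ym + yp)) - (1 - y) * (X - x - Real.pi / 2)) / β := by ring
    rw [e1]
    exact div_le_div_of_nonneg_right this hβ.le
  -- H2b
  have bH2b : ‖lR - p6‖ ≤ ‖E‖ * (Real.exp (-((3 * Real.pi / 2) * (1 - y) + 2 * x - 2.7183 * ‖(x + y * I : ℂ)‖) / β) /
      ((1 - y) / β)) := by
    rw [hp6', ← mul_div_assoc]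
    refine ray_right hd hP' (hl.right _ (by linarith)) hk1 (by positivity) ?_
    intro X h1
    rw [hnormX, mul_assoc, ← Real.exp_add]
    refine mul_le_mul_of_nonneg_left (Real.exp_le_exp.2 ?_) hEn.le
    have := gre_H2b (X := X - x) (y := y) hx
    have e1 : -((3 * Real.pi / 2) * (1 - y) + 2 * x - 2.7183 * ‖(x + y * I : ℂ)‖) / β +
        -((1 - y) / β) * (X - (x + 3 * Real.pi / 2)) =
        (-((3 * Real.pi / 2) * (1 - y) + 2 * x - 2.7183 * ‖(x + y * I : ℂ)‖) - (1 - y) * (X - x - 3 * Real.pi / 2)) / β := by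
      ring
    rw [e1]
    exact div_le_div_of_nonneg_right this hβ.le
  -- central
  have hcen : p3 - p2 = omJ * (E * ∫ t in (-1:ℝ)..1, cexp (Psi σ (omJ * t) / β)) := by
    rw [hp3', hp2', ← prim_omJ hd hP' σ (-1) 1]
    congr 1
    rw [← intervalIntegral.integral_const_mul]
    refine intervalIntegral.integral_congr (fun t _ => ?_)
    simp only [hh, GG_saddle hβ, hE]
  have bC := central hβ hx hxy ha hρ hρ0 (by linarith)
  rw [← hσ] at bC bHL bH2b ⊢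
  have hbr := branch hβ (x := x) (y := y) (by linarith) ha
  rw [← hσ] at hbr
  obtain ⟨C, hC⟩ : ∃ C : ℂ, C = ∫ t in (-1:ℝ)..1, cexp (Psi σ (omJ * t) / β) := ⟨_, rfl⟩
  obtain ⟨G, hG⟩ : ∃ G : ℂ, G = (2 * Real.pi / Lam β σ) ^ (1 / 2 : ℂ) := ⟨_, rfl⟩
  obtain ⟨D, hD⟩ : ∃ D : ℂ, D = (1 - I * σ) ^ (1 / 2 : ℂ) := ⟨_, rfl⟩
  rw [← hC] at bC hcen
  rw [← hG] at bC hbr
  rw [← hD] at hbr ⊢
  obtain ⟨W, hW⟩ : ∃ W : ℂ, W = (1 - I) * (Real.sqrt (Real.pi * β) : ℝ) := ⟨_, rfl⟩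
  rw [← hW] at hbr hF
  obtain ⟨Fv, hFv⟩ : ∃ Fv : ℂ, Fv = F (cexp (I * β)) (zs β σ) := ⟨_, rfl⟩
  rw [← hFv] at hF ⊢
  have hWn : ‖W‖ = Real.sqrt (2 * Real.pi * β) := by
    rw [hW, norm_mul, Complex.norm_real, Real.norm_eq_abs, abs_of_nonneg (Real.sqrt_nonneg _)]
    have h1 : ‖(1 - I : ℂ)‖ = Real.sqrt 2 := by
      rw [Complex.norm_def, Complex.normSq_apply]
      simp
      norm_num
    rw [h1, ← Real.sqrt_mul (by norm_num)]
    congr 1
    ring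
  have hWpos : 0 < ‖W‖ := by rw [hWn]; exact Real.sqrt_pos.2 (by positivity)
  have hDn : ‖D‖ = Real.sqrt ‖1 - I * σ‖ := by
    rw [hD]
    apply norm_sqrt
    have : (1 - I * σ).re = 1 + y := by rw [hσ]; simp
    rw [this]; linarith
  have hEneg : cexp (-((σ - I * σ ^ 2 / 2) / β)) = E⁻¹ := by rw [Complex.exp_neg, hE]
  rw [hEneg]
  obtain ⟨T, hT⟩ : ∃ T : ℝ, T = tailErr β x y ym yp ‖σ‖ ρ := ⟨_, rfl⟩
  have hT' : T = tailErr β x y ym yp ‖σ‖ ρ := hT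
  rw [tailErr] at hT
  rw [← hT']
  obtain ⟨Rst, hRst⟩ : ∃ Rst : ℂ, Rst = (p0 - lL) + (p1 - p0) + (p2 - p1) + (p4 - p3) + (p5 - p4) + (p6 - p5) + (lR - p6) := ⟨_, rfl⟩
  have hsum : W * Fv = omJ * (E * C) + Rst := by
    rw [← hF, ← hcen, hRst]; ring
  have bR : ‖Rst‖ ≤ ‖E‖ * T := by
    rw [hRst, hT]
    have n1 := norm_add_le ((p0 - lL) + (p1 - p0) + (p2 - p1) + (p4 - p3) + (p5 - p4) + (p6 - p5)) (lR - p6)
    have n2 := norm_add_le ((p0 - lL) + (p1 - p0) + (p2 - p1) + (p4 - p3) + (p5 - p4)) (p6 - p5)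
    have n3 := norm_add_le ((p0 - lL) + (p1 - p0) + (p2 - p1) + (p4 - p3)) (p5 - p4)
    have n4 := norm_add_le ((p0 - lL) + (p1 - p0) + (p2 - p1)) (p4 - p3)
    have n5 := norm_add_le ((p0 - lL) + (p1 - p0)) (p2 - p1)
    have n6 := norm_add_le (p0 - lL) (p1 - p0)
    rw [mul_add, mul_add, mul_add, mul_add, mul_add, mul_add]
    linarith
  have hmain : W * (Fv * E⁻¹ * D - 1) = omJ * (C - G) * D + Rst * E⁻¹ * D := by
    calc W * (Fv * E⁻¹ * D - 1) = (W * Fv) * E⁻¹ * D - W := by ring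
      _ = (omJ * (E * C) + Rst) * E⁻¹ * D - omJ * G * D := by rw [hsum, hbr]
      _ = omJ * C * (E * E⁻¹) * D + Rst * E⁻¹ * D - omJ * G * D := by ring
      _ = _ := by rw [mul_inv_cancel₀ hE0]; ring
  have hn1 : ‖W‖ * ‖Fv * E⁻¹ * D - 1‖ ≤ ‖D‖ * (lapErr (aq x y / β) ρ + T) := by
    rw [← norm_mul, hmain]
    refine (norm_add_le _ _).trans ?_
    have m1 : ‖omJ * (C - G) * D‖ ≤ lapErr (aq x y / β) ρ * ‖D‖ := by
      rw [norm_mul, norm_mul, norm_omJ, one_mul]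
      exact mul_le_mul_of_nonneg_right bC (norm_nonneg _)
    have m2 : ‖Rst * E⁻¹ * D‖ ≤ T * ‖D‖ := by
      rw [norm_mul, norm_mul, norm_inv]
      refine mul_le_mul_of_nonneg_right ?_ (norm_nonneg _)
      rw [← div_eq_mul_inv, div_le_iff₀ hEn]
      linarith
    linarith
  have hn2 : ‖Fv * E⁻¹ * D - 1‖ ≤ ‖D‖ / ‖W‖ * (lapErr (aq x y / β) ρ + T) := by
    rw [div_mul_eq_mul_div, le_div_iff₀ hWpos]
    linarith
  have hn3 : ‖D‖ / ‖W‖ = Real.sqrt (‖1 - I * σ‖ / (2 * Real.pi * β)) := by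
    rw [hDn, hWn, Real.sqrt_div (norm_nonneg _)]
  rw [hn3] at hn2
  exact hn2

end Sok
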