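import Mathlib
import Pool.Agent.Lib.MP_816dec_an.JSlant

/-!
MP_816dec_an: the logarithmic derivative of `F_β` from Lemma J, by Cauchy's estimate in the `σ` plane.
-/

set_option autoImplicit false

open Complex Set Filter Topology MeasureTheory

namespace Sok

theorem norm_qβ (β : ℝ) : ‖cexp (I * β)‖ ≤ 1 := by
  rw [mul_comm, Complex.norm_exp_ofReal_mul_I]

/-- the normalised function -/
noncomputable def HH (β : ℝ) (σ : ℂ) : ℂ :=
  F (cexp (I * β)) (zs β σ) * cexp (-((σ - I * σ ^ 2 / 2) / β)) * (1 - I * σ) ^ (1 / 2 : ℂ)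

theorem hasDerivAt_zs {β : ℝ} (σ : ℂ) :
    HasDerivAt (zs β) ((1 - I * σ) / β * cexp (-(I * σ) + I * β / 2)) σ := by
  have h1 : HasDerivAt (fun s : ℂ => s / (β : ℂ)) (1 / β) σ := (hasDerivAt_id σ).div_const _
  have h2 : HasDerivAt (fun s : ℂ => -(I * s) + I * β / 2) (-(I * 1)) σ :=
    (((hasDerivAt_id σ).const_mul I).neg).add_const _
  have h3 := h1.mul h2.cexp
  have e : (1 / (β : ℂ)) * cexp (-(I * σ) + I * β / 2) +
      σ / (β : ℂ) * (cexp (-(I * σ) + I * β / 2) * -(I * 1)) =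
      (1 - I * σ) / β * cexp (-(I * σ) + I * β / 2) := by ring
  rw [e] at h3
  exact h3

theorem hasDerivAt_HH {β : ℝ} (hβ : 0 < β) {σ : ℂ} (hs : 1 - I * σ ∈ slitPlane) :
    HasDerivAt (HH β) (F (cexp (I * β)) (cexp (I * β) * zs β σ) *
      ((1 - I * σ) / β * cexp (-(I * σ) + I * β / 2)) * cexp (-((σ - I * σ ^ 2 / 2) / β)) *
        (1 - I * σ) ^ (1 / 2 : ℂ) -
      F (cexp (I * β)) (zs β σ) * cexp (-((σ - I * σ ^ 2 / 2) / β)) * (1 - I * σ) ^ (1 / 2 : ℂ) *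
        ((1 - I * σ) / β + (I / 2) / (1 - I * σ))) σ := by
  have hne : (1 - I * σ) ≠ 0 := slitPlane_ne_zero hs
  have hβ' : (β : ℂ) ≠ 0 := by exact_mod_cast hβ.ne'
  have h1 : HasDerivAt (fun s => F (cexp (I * β)) (zs β s))
      (F (cexp (I * β)) (cexp (I * β) * zs β σ) * ((1 - I * σ) / β * cexp (-(I * σ) + I * β / 2))) σ :=
    (hasDerivAt_F (norm_qβ β) (zs β σ)).comp σ (hasDerivAt_zs σ)
  have h2 : HasDerivAt (fun s : ℂ => -((s - I * s ^ 2 / 2) / β)) (-((1 - I * σ) / β)) σ := by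
    have h := ((hasDerivAt_id σ).sub ((((hasDerivAt_id σ).pow 2).const_mul I).div_const 2)).div_const (β : ℂ)
    have h' := h.neg
    refine h'.congr_deriv ?_
    simp
    ring
  have h3 : HasDerivAt (fun s : ℂ => 1 - I * s) (-I) σ := by
    have h := ((hasDerivAt_id σ).const_mul I).const_sub 1
    refine h.congr_deriv ?_
    simp
  have h4 : HasDerivAt (fun s : ℂ => (1 - I * s) ^ (1 / 2 : ℂ))
      ((1 / 2 : ℂ) * (1 - I * σ) ^ ((1 / 2 : ℂ) - 1) * (-I)) σ := h3.cpow_const hs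
  have h5 := (h1.mul h2.cexp).mul h4
  refine h5.congr_deriv ?_
  have e1 : (1 - I * σ) ^ ((1 / 2 : ℂ) - 1) = (1 - I * σ) ^ (1 / 2 : ℂ) / (1 - I * σ) := by
    rw [Complex.cpow_sub _ _ hne, Complex.cpow_one]
  rw [e1]
  simp only [Pi.mul_apply]
  ring

theorem re_pos_slit {σ : ℂ} (h : -1 < σ.im) : 1 - I * σ ∈ slitPlane := by
  left
  simp
  linarith

/-- **Slope from Lemma J.** -/
theorem slope_of_disc {β δ ε : ℝ} {σ : ℂ} (hβ : 0 < β) (hδ : 0 < δ) (hε : ε < 1) (hσ : σ ≠ 0)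
    (him : ∀ s : ℂ, ‖s - σ‖ ≤ δ → -1 < s.im)
    (hJ : ∀ s : ℂ, ‖s - σ‖ ≤ δ → ‖HH β s - 1‖ ≤ ε) :
    F (cexp (I * β)) (zs β σ) ≠ 0 ∧
    ‖zs β σ * F (cexp (I * β)) (cexp (I * β) * zs β σ) / F (cexp (I * β)) (zs β σ) -
      (σ / β + I / 2 * σ / (1 - I * σ) ^ 2)‖ ≤ ‖σ / (1 - I * σ)‖ * (ε / (δ * (1 - ε))) := by
  have hβ' : (β : ℂ) ≠ 0 := by exact_mod_cast hβ.ne'
  have hself : ‖σ - σ‖ ≤ δ := by rw [sub_self, norm_zero]; exact hδ.le
  have hs := re_pos_slit (him σ hself)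
  have hne : (1 - I * σ) ≠ 0 := slitPlane_ne_zero hs
  have hH := hJ σ hself
  have hε0 : 0 ≤ ε := (norm_nonneg _).trans hH
  have hHn : 1 - ε ≤ ‖HH β σ‖ := by
    have h1 := norm_sub_norm_le (1 : ℂ) (1 - HH β σ)
    rw [norm_one, norm_sub_rev 1 (HH β σ)] at h1
    have h2 : (1 : ℂ) - (1 - HH β σ) = HH β σ := by ring
    rw [h2] at h1
    linarith
  have hH0 : HH β σ ≠ 0 := by
    rw [← norm_pos_iff]; linarith
  have hF0 : F (cexp (I * β)) (zs β σ) ≠ 0 := by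
    intro h0
    apply hH0
    rw [HH, h0]; ring
  refine ⟨hF0, ?_⟩
  have hdiff : DifferentiableOn ℂ (HH β) (Metric.closedBall σ δ) := by
    intro s hs'
    rw [Metric.mem_closedBall, dist_eq_norm] at hs'
    exact (hasDerivAt_HH hβ (re_pos_slit (him s hs'))).differentiableAt.differentiableWithinAt
  have hcl : DiffContOnCl ℂ (fun s => HH β s - 1) (Metric.ball σ δ) := by
    apply DifferentiableOn.diffContOnCl
    rw [closure_ball _ hδ.ne']
    exact hdiff.sub_const 1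
  have hC : ∀ s ∈ Metric.sphere σ δ, ‖(fun s => HH β s - 1) s‖ ≤ ε := by
    intro s hs'
    rw [Metric.mem_sphere, dist_eq_norm] at hs'
    exact hJ s hs'.le
  have hder := Complex.norm_deriv_le_of_forall_mem_sphere_norm_le hδ hcl hC
  have hd := (hasDerivAt_HH hβ hs).sub_const 1
  rw [hd.deriv] at hder
  obtain ⟨D', hD'⟩ : ∃ D' : ℂ, D' = F (cexp (I * β)) (cexp (I * β) * zs β σ) *
      ((1 - I * σ) / β * cexp (-(I * σ) + I * β / 2)) * cexp (-((σ - I * σ ^ 2 / 2) / β)) *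
        (1 - I * σ) ^ (1 / 2 : ℂ) -
      F (cexp (I * β)) (zs β σ) * cexp (-((σ - I * σ ^ 2 / 2) / β)) * (1 - I * σ) ^ (1 / 2 : ℂ) *
        ((1 - I * σ) / β + (I / 2) / (1 - I * σ)) := ⟨_, rfl⟩
  rw [← hD'] at hder
  have key : zs β σ * F (cexp (I * β)) (cexp (I * β) * zs β σ) / F (cexp (I * β)) (zs β σ) -
      (σ / β + I / 2 * σ / (1 - I * σ) ^ 2) = σ / (1 - I * σ) * (D' / HH β σ) := by
    have hHH : HH β σ = F (cexp (I * β)) (zs β σ) * cexp (-((σ - I * σ ^ 2 / 2) / β)) *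
      (1 - I * σ) ^ (1 / 2 : ℂ) := rfl
    have e2 : zs β σ = σ / β * cexp (-(I * σ) + I * β / 2) := rfl
    have hq : D' / HH β σ = F (cexp (I * β)) (cexp (I * β) * zs β σ) / F (cexp (I * β)) (zs β σ) *
        ((1 - I * σ) / β * cexp (-(I * σ) + I * β / 2)) -
        ((1 - I * σ) / β + (I / 2) / (1 - I * σ)) := by
      have hD1 : D' = HH β σ * (F (cexp (I * β)) (cexp (I * β) * zs β σ) / F (cexp (I * β)) (zs β σ) *
        ((1 - I * σ) / β * cexp (-(I * σ) + I * β / 2)) -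
        ((1 - I * σ) / β + (I / 2) / (1 - I * σ))) := by
        rw [hD', hHH]
        field_simp
      rw [hD1, mul_div_cancel_left₀ _ hH0]
    rw [hq]
    generalize F (cexp (I * β)) (cexp (I * β) * zs β σ) = B
    generalize F (cexp (I * β)) (zs β σ) = A
    rw [e2]
    obtain ⟨n, hn⟩ : ∃ n : ℂ, n = 1 - I * σ := ⟨_, rfl⟩
    rw [← hn] at hne ⊢
    generalize cexp (-(I * σ) + I * β / 2) = e
    field_simp
  rw [key, norm_mul, norm_div (α := ℂ) D']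
  apply mul_le_mul_of_nonneg_left _ (norm_nonneg _)
  have h1 : 0 < 1 - ε := by linarith
  rw [div_le_div_iff₀ (by linarith) (by positivity)]
  have h3 : ‖D'‖ * δ ≤ ε := by
    rw [le_div_iff₀ hδ] at hder
    exact hder
  nlinarith [norm_nonneg D']

end Sok
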