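import Mathlib
import Pool.Agent.Lib.MP_816dec_an.JSlant
import Pool.Agent.Lib.MP_816dec_an.JS

/-!
MP_816dec_an, Lemma J in the direction `1 - i` (all angles, `|σ| ≤ 0.49`).
-/

set_option autoImplicit false

open Complex Set Filter Topology MeasureTheory

namespace Sok

/-- the remainder on the line `u = (1-i) s` -/
noncomputable def Rem5 (β : ℝ) (σ : ℂ) (s : ℝ) : ℂ :=
  (σ / β) * (cexp ((1 + I) * s) - 1 - (1 + I) * s - ((1 + I) * s) ^ 2 / 2)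

theorem Psi_line5 {β : ℝ} (hβ : 0 < β) (σ : ℂ) (s : ℝ) :
    Psi σ ((1 - I) * s) / β = -((2 * (1 - I * σ) / β) / 2) * (s : ℂ) ^ 2 + Rem5 β σ s := by
  have hβ' : (β : ℂ) ≠ 0 := Complex.ofReal_ne_zero.2 hβ.ne'
  have e0 : I * ((1 - I) * (s : ℂ)) = (1 + I) * s := by linear_combination (-(s : ℂ)) * Complex.I_sq
  rw [Psi, e0, Rem5]
  have e2 : -(I * ((1 - I) * (s : ℂ)) ^ 2 / 2) = -(s : ℂ) ^ 2 := by
    linear_combination ((s : ℂ) ^ 2 - (s : ℂ) ^ 2 * I / 2) * Complex.I_sq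
  rw [e2]
  have e3 : ((1 + I) * (s : ℂ)) ^ 2 / 2 = I * (s : ℂ) ^ 2 := by
    linear_combination ((s : ℂ) ^ 2 / 2) * Complex.I_sq
  rw [e3]
  field_simp
  ring

theorem norm_one_add_I : ‖(1 + I : ℂ)‖ = Real.sqrt 2 := by
  rw [Complex.norm_def, Complex.normSq_apply]
  simp
  norm_num

theorem norm_one_sub_I : ‖(1 - I : ℂ)‖ = Real.sqrt 2 := by
  rw [Complex.norm_def, Complex.normSq_apply]
  simp
  norm_num

theorem norm_w5 (s : ℝ) : ‖(1 + I) * (s : ℂ)‖ = Real.sqrt 2 * |s| := by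
  rw [norm_mul, norm_one_add_I, Complex.norm_real, Real.norm_eq_abs]

theorem re_w5 (s : ℝ) : ((1 + I) * (s : ℂ)).re = s := by simp

theorem continuous_Rem5 (β : ℝ) (σ : ℂ) : Continuous (Rem5 β σ) := by
  unfold Rem5
  fun_prop

theorem sqrt2_sq : Real.sqrt 2 ^ 2 = 2 := Real.sq_sqrt (by norm_num)

theorem sqrt2_lt : Real.sqrt 2 < 1.41422 := by
  rw [Real.sqrt_lt' (by norm_num)]; norm_num

theorem sqrt2_gt : 1.41421 < Real.sqrt 2 := by
  rw [Real.lt_sqrt (by norm_num)]; norm_num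

theorem exp_053 : Real.exp (53 / 100) ≤ 1.7 := by
  have h := Real.exp_bound' (x := 53 / 100) (by norm_num) (by norm_num) (n := 6) (by norm_num)
  refine h.trans ?_
  norm_num [Finset.sum_range_succ, Nat.factorial]

theorem norm_Rem5_neg {β : ℝ} (hβ : 0 < β) (σ : ℂ) (t : ℝ) (h0 : 0 ≤ t) :
    ‖Rem5 β σ (-t)‖ ≤ (‖σ‖ / β) * (Real.sqrt 2 / 3) * t ^ 3 := by
  have h2 := norm_exp_sub_three_le ((1 + I) * ((-t : ℝ) : ℂ)) (M := 1) le_rfl
    (Real.exp_le_one_iff.2 (by rw [re_w5]; linarith))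
  rw [norm_w5, abs_neg, abs_of_nonneg h0, one_mul] at h2
  rw [Rem5, norm_mul, norm_div, Complex.norm_real, Real.norm_eq_abs, abs_of_pos hβ]
  have e3 : (Real.sqrt 2 * t) ^ 3 / 6 = Real.sqrt 2 / 3 * t ^ 3 := by
    calc (Real.sqrt 2 * t) ^ 3 / 6 = Real.sqrt 2 ^ 2 * Real.sqrt 2 * t ^ 3 / 6 := by ring
      _ = _ := by rw [sqrt2_sq]; ring
  rw [e3] at h2
  calc ‖σ‖ / β * ‖cexp ((1 + I) * ((-t : ℝ) : ℂ)) - 1 - (1 + I) * ((-t : ℝ) : ℂ) - ((1 + I) * ((-t : ℝ) : ℂ)) ^ 2 / 2‖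
      ≤ ‖σ‖ / β * (Real.sqrt 2 / 3 * t ^ 3) := by gcongr
    _ = _ := by ring

theorem norm_Rem5_4_neg {β : ℝ} (hβ : 0 < β) (σ : ℂ) (t : ℝ) (h0 : 0 ≤ t) :
    ‖Rem5 β σ (-t) - (σ * (1 + I) ^ 3 / (6 * β)) * ((-t : ℝ) : ℂ) ^ 3‖ ≤ (‖σ‖ / β) / 6 * t ^ 4 := by
  have hβ' : (β : ℂ) ≠ 0 := Complex.ofReal_ne_zero.2 hβ.ne'
  have h2 := norm_exp_sub_four_le ((1 + I) * ((-t : ℝ) : ℂ)) (M := 1) le_rfl
    (Real.exp_le_one_iff.2 (by rw [re_w5]; linarith))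
  rw [norm_w5, abs_neg, abs_of_nonneg h0, one_mul] at h2
  have e1 : Rem5 β σ (-t) - (σ * (1 + I) ^ 3 / (6 * β)) * ((-t : ℝ) : ℂ) ^ 3 =
      (σ / β) * (cexp ((1 + I) * ((-t : ℝ) : ℂ)) - 1 - (1 + I) * ((-t : ℝ) : ℂ) - ((1 + I) * ((-t : ℝ) : ℂ)) ^ 2 / 2
        - ((1 + I) * ((-t : ℝ) : ℂ)) ^ 3 / 6) := by
    rw [Rem5]; field_simp
  rw [e1, norm_mul, norm_div, Complex.norm_real, Real.norm_eq_abs, abs_of_pos hβ]
  have e3 : (Real.sqrt 2 * t) ^ 4 / 24 = 1 / 6 * t ^ 4 := by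
    calc (Real.sqrt 2 * t) ^ 4 / 24 = (Real.sqrt 2 ^ 2) ^ 2 * t ^ 4 / 24 := by ring
      _ = _ := by rw [sqrt2_sq]; ring
  rw [e3] at h2
  calc ‖σ‖ / β * ‖cexp ((1 + I) * ((-t : ℝ) : ℂ)) - 1 - (1 + I) * ((-t : ℝ) : ℂ) - ((1 + I) * ((-t : ℝ) : ℂ)) ^ 2 / 2
        - ((1 + I) * ((-t : ℝ) : ℂ)) ^ 3 / 6‖
      ≤ ‖σ‖ / β * (1 / 6 * t ^ 4) := by gcongr
    _ = _ := by ring

theorem norm_Rem5_4_pos {β : ℝ} (hβ : 0 < β) (σ : ℂ) (t : ℝ) (h0 : 0 ≤ t) (h1 : t ≤ 53 / 100) :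
    ‖Rem5 β σ t - (σ * (1 + I) ^ 3 / (6 * β)) * (t : ℂ) ^ 3‖ ≤ 1.7 * ((‖σ‖ / β) / 6) * t ^ 4 := by
  have hβ' : (β : ℂ) ≠ 0 := Complex.ofReal_ne_zero.2 hβ.ne'
  have h2 := norm_exp_sub_four_le ((1 + I) * (t : ℂ)) (M := 1.7) (by norm_num)
    (by rw [re_w5]; exact (Real.exp_le_exp.2 h1).trans exp_053)
  rw [norm_w5, abs_of_nonneg h0] at h2
  have e1 : Rem5 β σ t - (σ * (1 + I) ^ 3 / (6 * β)) * (t : ℂ) ^ 3 =
      (σ / β) * (cexp ((1 + I) * t) - 1 - (1 + I) * t - ((1 + I) * t) ^ 2 / 2 - ((1 + I) * t) ^ 3 / 6) := by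
    rw [Rem5]; field_simp
  rw [e1, norm_mul, norm_div, Complex.norm_real, Real.norm_eq_abs, abs_of_pos hβ]
  have e3 : (Real.sqrt 2 * t) ^ 4 / 24 = 1 / 6 * t ^ 4 := by
    calc (Real.sqrt 2 * t) ^ 4 / 24 = (Real.sqrt 2 ^ 2) ^ 2 * t ^ 4 / 24 := by ring
      _ = _ := by rw [sqrt2_sq]; ring
  rw [e3] at h2
  calc ‖σ‖ / β * ‖cexp ((1 + I) * t) - 1 - (1 + I) * t - ((1 + I) * t) ^ 2 / 2 - ((1 + I) * t) ^ 3 / 6‖
      ≤ ‖σ‖ / β * (1.7 * (1 / 6 * t ^ 4)) := by gcongr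
    _ = _ := by ring

theorem norm_Rem5_pos {β : ℝ} (hβ : 0 < β) (σ : ℂ) (t : ℝ) (h0 : 0 ≤ t) (h1 : t ≤ 53 / 100) :
    ‖Rem5 β σ t‖ ≤ 1.32 * ((‖σ‖ / β) * (Real.sqrt 2 / 3)) * t ^ 3 := by
  have h2 := norm_Rem5_4_pos hβ σ t h0 h1
  have h3 : ‖(σ * (1 + I) ^ 3 / (6 * β)) * (t : ℂ) ^ 3‖ = (‖σ‖ / β) * (Real.sqrt 2 / 3) * t ^ 3 := by
    rw [norm_mul, norm_div, norm_mul, norm_pow, norm_one_add_I, norm_mul, norm_pow, Complex.norm_real,
      Complex.norm_real, Real.norm_eq_abs, Real.norm_eq_abs, abs_of_pos hβ, abs_of_nonneg h0]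
    have : Real.sqrt 2 ^ 3 = 2 * Real.sqrt 2 := by rw [pow_succ, sqrt2_sq]
    rw [this]
    have h6 : ‖(6:ℂ)‖ = 6 := by simp
    rw [h6]
    field_simp
    ring
  have h4 : ‖Rem5 β σ t‖ ≤ ‖Rem5 β σ t - (σ * (1 + I) ^ 3 / (6 * β)) * (t : ℂ) ^ 3‖ +
      ‖(σ * (1 + I) ^ 3 / (6 * β)) * (t : ℂ) ^ 3‖ := by
    have := norm_add_le (Rem5 β σ t - (σ * (1 + I) ^ 3 / (6 * β)) * (t : ℂ) ^ 3)
      ((σ * (1 + I) ^ 3 / (6 * β)) * (t : ℂ) ^ 3)
    rwa [sub_add_cancel] at this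
  rw [h3] at h4
  refine h4.trans ?_
  have hn : 0 ≤ ‖σ‖ / β := by positivity
  have hs := sqrt2_gt
  have h5 : 1.7 * ((‖σ‖ / β) / 6) * t ^ 4 ≤ 0.32 * ((‖σ‖ / β) * (Real.sqrt 2 / 3)) * t ^ 3 := by
    have h6 : (0:ℝ) ≤ t ^ 3 := by positivity
    have h7 : 1.7 / 6 * t ≤ 0.32 * (Real.sqrt 2 / 3) := by nlinarith
    calc 1.7 * ((‖σ‖ / β) / 6) * t ^ 4 = (‖σ‖ / β) * t ^ 3 * (1.7 / 6 * t) := by ring
      _ ≤ (‖σ‖ / β) * t ^ 3 * (0.32 * (Real.sqrt 2 / 3)) := by gcongr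
      _ = _ := by ring
  nlinarith

/-- the bound of the central piece -/
noncomputable def lap45 (A ρ : ℝ) : ℝ :=
  3 / 2 * Real.sqrt (2 * Real.pi) * (ρ * A / 6 + 1.7 * (ρ * A / 6)) / ((2 * A) ^ 2 * Real.sqrt (2 * A)) +
    (15 / 4 * Real.sqrt (2 * Real.pi) * (ρ * A * (Real.sqrt 2 / 3)) ^ 2 /
        (((1 - ρ / 4) * (2 * A)) ^ 3 * Real.sqrt ((1 - ρ / 4) * (2 * A))) +
    15 / 4 * Real.sqrt (2 * Real.pi) * (1.32 * (ρ * A * (Real.sqrt 2 / 3))) ^ 2 /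
      (((1 - 0.33 * ρ) * (2 * A)) ^ 3 * Real.sqrt ((1 - 0.33 * ρ) * (2 * A)))) +
    2 * (Real.exp (-(2 * A / 2) * (53 / 100) ^ 2) / (2 * A * (53 / 100)))

theorem re_Lam5 {β : ℝ} (σ : ℂ) : (2 * (1 - I * σ) / β).re = 2 * ((1 + σ.im) / β) := by
  have e : (2 * (1 - I * σ) / β).re = (2 * (1 - I * σ)).re / β := Complex.div_ofReal_re _ _
  rw [e]
  simp
  ring

theorem central5 {β ρ : ℝ} {σ : ℂ} (hβ : 0 < β) (hy : -1 < σ.im)
    (hρ : ‖σ‖ ≤ ρ * (1 + σ.im)) (hρ0 : 0 ≤ ρ) (hρ1 : ρ < 3) :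
    ‖(∫ t in (-(53 / 100):ℝ)..(53 / 100), cexp (Psi σ ((1 - I) * t) / β)) -
        (2 * Real.pi / (2 * (1 - I * σ) / β)) ^ (1 / 2 : ℂ)‖ ≤ lap45 ((1 + σ.im) / β) ρ := by
  have hL : (2 * (1 - I * σ) / β).re = 2 * ((1 + σ.im) / β) := re_Lam5 σ
  have hA : 0 < (1 + σ.im) / β := div_pos (by linarith) hβ
  have hσ : ‖σ‖ / β ≤ ρ * ((1 + σ.im) / β) := by
    rw [← mul_div_assoc]
    exact div_le_div_of_nonneg_right hρ hβ.le
  have hcong : (∫ t in (-(53 / 100):ℝ)..(53 / 100), cexp (Psi σ ((1 - I) * t) / β)) =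
      ∫ t in (-(53 / 100):ℝ)..(53 / 100), cexp (-((2 * (1 - I * σ) / β) / 2) * (t : ℂ) ^ 2 + Rem5 β σ t) := by
    refine intervalIntegral.integral_congr (fun t _ => ?_)
    rw [Psi_line5 hβ]
  rw [hcong]
  have hs2 := sqrt2_lt
  have hs0 : 0 < Real.sqrt 2 := by positivity
  have hn : 0 ≤ ‖σ‖ / β := by positivity
  obtain ⟨A, hAd⟩ : ∃ A : ℝ, A = (1 + σ.im) / β := ⟨_, rfl⟩
  rw [← hAd] at hA hσ hL ⊢
  have h := laplace_segment2 (Λ := 2 * (1 - I * σ) / β) (K := σ * (1 + I) ^ 3 / (6 * β))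
    (cL := 1 - ρ / 4) (cR := 1 - 0.33 * ρ) (M3L := ρ * A * (Real.sqrt 2 / 3))
    (M3R := 1.32 * (ρ * A * (Real.sqrt 2 / 3))) (M4L := ρ * A / 6)
    (M4R := 1.7 * (ρ * A / 6)) (T := 53 / 100) (R := Rem5 β σ) (by rw [hL]; positivity)
    (by linarith) (by linarith) (by linarith) (by nlinarith) (by norm_num) (by positivity) (by positivity)
    (continuous_Rem5 _ _) ?_ ?_ ?_ ?_ ?_ ?_
  · rw [hL] at h
    exact h
  · intro t h0 h1
    refine (norm_Rem5_4_neg hβ σ t h0).trans ?_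
    have := pow_nonneg h0 4
    exact mul_le_mul_of_nonneg_right (by linarith) this
  · intro t h0 h1
    refine (norm_Rem5_4_pos hβ σ t h0 h1).trans ?_
    have := pow_nonneg h0 4
    exact mul_le_mul_of_nonneg_right (by linarith) this
  · intro t h0 h1
    refine (norm_Rem5_neg hβ σ t h0).trans ?_
    have := pow_nonneg h0 3
    exact mul_le_mul_of_nonneg_right (mul_le_mul_of_nonneg_right hσ (by positivity)) this
  · intro t h0 h1
    refine (norm_Rem5_pos hβ σ t h0 h1).trans ?_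
    have := pow_nonneg h0 3
    refine mul_le_mul_of_nonneg_right (mul_le_mul_of_nonneg_left ?_ (by norm_num)) this
    exact mul_le_mul_of_nonneg_right hσ (by positivity)
  · intro t h0 h1
    refine ((Complex.re_le_norm _).trans (norm_Rem5_neg hβ _ t h0)).trans ?_
    rw [hL]
    have h3 : t ^ 3 ≤ 53 / 100 * t ^ 2 := by nlinarith [pow_nonneg h0 2]
    have h2 := pow_nonneg h0 2
    calc ‖σ‖ / β * (Real.sqrt 2 / 3) * t ^ 3 ≤ (ρ * A * (1.41422 / 3)) * (53 / 100 * t ^ 2) := by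
          apply mul_le_mul _ h3 (pow_nonneg h0 3) (by positivity)
          exact mul_le_mul hσ (by linarith) (by positivity) (by positivity)
      _ ≤ _ := by
          have : 0 ≤ ρ * A * t ^ 2 := by positivity
          nlinarith
  · intro t h0 h1
    refine ((Complex.re_le_norm _).trans (norm_Rem5_pos hβ _ t h0 h1)).trans ?_
    rw [hL]
    have h3 : t ^ 3 ≤ 53 / 100 * t ^ 2 := by nlinarith [pow_nonneg h0 2]
    have h2 := pow_nonneg h0 2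
    calc 1.32 * (‖σ‖ / β * (Real.sqrt 2 / 3)) * t ^ 3 ≤ (1.32 * (ρ * A * (1.41422 / 3))) * (53 / 100 * t ^ 2) := by
          apply mul_le_mul _ h3 (pow_nonneg h0 3) (by positivity)
          refine mul_le_mul_of_nonneg_left ?_ (by norm_num)
          exact mul_le_mul hσ (by linarith) (by positivity) (by positivity)
      _ ≤ _ := by
          have : 0 ≤ ρ * A * t ^ 2 := by positivity
          nlinarith

theorem branch5 {β : ℝ} {σ : ℂ} (hβ : 0 < β) (hy : -1 < σ.im) :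
    (1 - I) * (2 * Real.pi / (2 * (1 - I * σ) / β)) ^ (1 / 2 : ℂ) * (1 - I * σ) ^ (1 / 2 : ℂ) =
      (1 - I) * (Real.sqrt (Real.pi * β) : ℝ) := by
  have hβ' : (β : ℂ) ≠ 0 := Complex.ofReal_ne_zero.2 hβ.ne'
  have hD : 0 < (1 - I * σ).re := by
    have : (1 - I * σ).re = 1 + σ.im := by simp
    rw [this]; linarith
  have hD0 : (1 - I * σ) ≠ 0 := by intro h; rw [h] at hD; simp at hD
  have hL : 0 < (2 * (1 - I * σ) / β).re := by
    rw [re_Lam5]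
    have : 0 < (1 + σ.im) / β := div_pos (by linarith) hβ
    linarith
  have hL0 : 2 * (1 - I * σ) / β ≠ 0 := by intro h; rw [h] at hL; simp at hL
  have hA : 0 < (2 * Real.pi / (2 * (1 - I * σ) / β)).re := by
    rw [Complex.div_re]
    have h1 : (2 * (Real.pi : ℂ)).re = 2 * Real.pi := by simp
    have h2 : (2 * (Real.pi : ℂ)).im = 0 := by simp
    rw [h1, h2, zero_mul, zero_div, add_zero]
    have := Complex.normSq_pos.2 hL0
    positivity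
  obtain ⟨p, hp⟩ : ∃ p, p = (2 * Real.pi / (2 * (1 - I * σ) / β)) ^ (1 / 2 : ℂ) * (1 - I * σ) ^ (1 / 2 : ℂ) := ⟨_, rfl⟩
  have hpre : 0 < p.re := by rw [hp]; exact sqrt_mul_re_pos hA hD
  have hps : p ^ 2 = ((Real.sqrt (Real.pi * β) : ℝ) : ℂ) ^ 2 := by
    rw [hp, mul_pow, sqrt_sq' hA, sqrt_sq' hD, ← Complex.ofReal_pow, Real.sq_sqrt (by positivity)]
    push_cast
    field_simp
  have hfac : (p - (Real.sqrt (Real.pi * β) : ℝ)) * (p + (Real.sqrt (Real.pi * β) : ℝ)) = 0 := by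
    linear_combination hps
  have hpe : p = (Real.sqrt (Real.pi * β) : ℝ) := by
    rcases mul_eq_zero.1 hfac with h | h
    · exact sub_eq_zero.1 h
    · exfalso
      have h5 : p = -((Real.sqrt (Real.pi * β) : ℝ) : ℂ) := by linear_combination h
      rw [h5] at hpre
      have h9 : 0 ≤ Real.sqrt (Real.pi * β) := Real.sqrt_nonneg _
      simp at hpre
      linarith
  rw [mul_assoc, ← hp, hpe]

/-! ### rays -/

theorem prim_dir {h P : ℂ → ℂ} (hh : Differentiable ℂ h) (hP : ∀ x, HasDerivAt P (h x) x) (d p : ℂ) (a b : ℝ) :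
    d * ∫ t in a..b, h (p + d * t) = P (p + d * b) - P (p + d * a) := by
  have h1 : ∀ t ∈ uIcc a b, HasDerivAt (fun t : ℝ => P (p + d * t)) (d * h (p + d * t)) t := by
    intro t _
    have h2 : HasDerivAt (fun t : ℝ => p + d * (t : ℂ)) d t := by
      have := ((Complex.ofRealCLM.hasDerivAt (x := t)).const_mul d).const_add p
      simpa using this
    have h3 := HasDerivAt.comp t (hP (p + d * t)) h2
    rw [mul_comm] at h3
    exact h3
  have h4 : IntervalIntegrable (fun t : ℝ => d * h (p + d * t)) volume a b := by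
    apply Continuous.intervalIntegrable
    have := hh.continuous
    fun_prop
  have h5 := intervalIntegral.integral_eq_sub_of_hasDerivAt h1 h4
  rw [← h5, intervalIntegral.integral_const_mul]

theorem seg_dir_exp {h P : ℂ → ℂ} (hh : Differentiable ℂ h) (hP : ∀ x, HasDerivAt P (h x) x) (d p : ℂ)
    {a b C k : ℝ} (hab : a ≤ b) (hk : 0 < k) (hC : 0 ≤ C)
    (hb : ∀ t : ℝ, a ≤ t → t ≤ b → ‖h (p + d * t)‖ ≤ C * Real.exp (k * (t - b))) :
    ‖P (p + d * b) - P (p + d * a)‖ ≤ ‖d‖ * (C / k) := by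
  rw [← prim_dir hh hP, norm_mul]
  refine mul_le_mul_of_nonneg_left ?_ (norm_nonneg _)
  have hder : ∀ t ∈ uIcc a b, HasDerivAt (fun t : ℝ => C / k * Real.exp (k * (t - b))) (C * Real.exp (k * (t - b))) t := by
    intro t _
    have h2 : HasDerivAt (fun t : ℝ => k * (t - b)) k t := by
      simpa using ((hasDerivAt_id t).sub_const b).const_mul k
    refine (h2.exp.const_mul (C / k)).congr_deriv ?_
    field_simp
  have hcont : Continuous (fun t : ℝ => C * Real.exp (k * (t - b))) := by fun_prop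
  have h3 := intervalIntegral.integral_eq_sub_of_hasDerivAt hder (hcont.intervalIntegrable _ _)
  have h4 : ‖∫ t in a..b, h (p + d * t)‖ ≤ ∫ t in a..b, C * Real.exp (k * (t - b)) := by
    refine intervalIntegral.norm_integral_le_of_norm_le hab ?_ (hcont.intervalIntegrable _ _)
    exact Filter.Eventually.of_forall (fun t ht => hb t ht.1.le ht.2)
  refine h4.trans ?_
  rw [h3, sub_self, mul_zero, Real.exp_zero, mul_one]
  have h5 : 0 ≤ C / k * Real.exp (k * (a - b)) := by positivity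
  linarith

theorem seg_dir_exp' {h P : ℂ → ℂ} (hh : Differentiable ℂ h) (hP : ∀ x, HasDerivAt P (h x) x) (d p : ℂ)
    {a b C k : ℝ} (hab : a ≤ b) (hk : 0 < k) (hC : 0 ≤ C)
    (hb : ∀ t : ℝ, a ≤ t → t ≤ b → ‖h (p + d * t)‖ ≤ C * Real.exp (-k * (t - a))) :
    ‖P (p + d * b) - P (p + d * a)‖ ≤ ‖d‖ * (C / k) := by
  rw [← prim_dir hh hP, norm_mul]
  refine mul_le_mul_of_nonneg_left ?_ (norm_nonneg _)
  have hder : ∀ t ∈ uIcc a b, HasDerivAt (fun t : ℝ => -(C / k) * Real.exp (-k * (t - a))) (C * Real.exp (-k * (t - a))) t := by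
    intro t _
    have h2 : HasDerivAt (fun t : ℝ => -k * (t - a)) (-k) t := by
      simpa using ((hasDerivAt_id t).sub_const a).const_mul (-k)
    refine (h2.exp.const_mul (-(C / k))).congr_deriv ?_
    field_simp
  have hcont : Continuous (fun t : ℝ => C * Real.exp (-k * (t - a))) := by fun_prop
  have h3 := intervalIntegral.integral_eq_sub_of_hasDerivAt hder (hcont.intervalIntegrable _ _)
  have h4 : ‖∫ t in a..b, h (p + d * t)‖ ≤ ∫ t in a..b, C * Real.exp (-k * (t - a)) := by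
    refine intervalIntegral.norm_integral_le_of_norm_le hab ?_ (hcont.intervalIntegrable _ _)
    exact Filter.Eventually.of_forall (fun t ht => hb t ht.1.le ht.2)
  refine h4.trans ?_
  rw [h3, sub_self, mul_zero, Real.exp_zero, mul_one]
  have h5 : 0 ≤ C / k * Real.exp (-k * (b - a)) := by positivity
  linarith

/-! ### pointwise bounds -/

/-- left part of the line -/
theorem gre5_left (x y t : ℝ) (h0 : 0 ≤ t) :
    gre x y (-t) t ≤ -((1 - ‖(x + y * I : ℂ)‖) * t ^ 2) := by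
  rw [← re_Psi]
  have e0 : I * (((-t : ℝ) : ℂ) + t * I) = (1 + I) * ((-t : ℝ) : ℂ) := by
    push_cast
    linear_combination (t : ℂ) * Complex.I_sq
  have e1 : Psi (x + y * I) (((-t : ℝ) : ℂ) + t * I) = ((-(t ^ 2) : ℝ) : ℂ) +
      (x + y * I) * (cexp ((1 + I) * ((-t : ℝ) : ℂ)) - 1 - (1 + I) * ((-t : ℝ) : ℂ)) := by
    rw [Psi, e0]
    push_cast
    linear_combination ((t : ℂ) ^ 2 * (1 - I / 2)) * Complex.I_sq
  rw [e1, Complex.add_re, Complex.ofReal_re]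
  have h1 := norm_exp_sub_one_sub_le ((1 + I) * ((-t : ℝ) : ℂ)) (M := 1) le_rfl
    (Real.exp_le_one_iff.2 (by rw [re_w5]; linarith))
  rw [norm_w5, abs_neg, abs_of_nonneg h0] at h1
  have e3 : (Real.sqrt 2 * t) ^ 2 / 2 = t ^ 2 := by rw [mul_pow, sqrt2_sq]; ring
  have h2 : ‖cexp ((1 + I) * ((-t : ℝ) : ℂ)) - 1 - (1 + I) * ((-t : ℝ) : ℂ)‖ ≤ t ^ 2 := by
    rw [e3, one_mul] at h1
    exact h1
  have h3 := (Complex.re_le_norm ((x + y * I : ℂ) * (cexp ((1 + I) * ((-t : ℝ) : ℂ)) - 1 - (1 + I) * ((-t : ℝ) : ℂ))))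
  rw [norm_mul] at h3
  have h4 := mul_le_mul_of_nonneg_left h2 (norm_nonneg (x + y * I : ℂ))
  nlinarith

theorem exp_one_bds : 2.7182 < Real.exp 1 ∧ Real.exp 1 < 2.7183 :=
  ⟨lt_trans (by norm_num) Real.exp_one_gt_d9, lt_trans Real.exp_one_lt_d9 (by norm_num)⟩

/-- real and imaginary part of the remainder of the exponential -/
theorem g5_bounds (t : ℝ) (h0 : 0 ≤ t) (h1 : t ≤ 1) :
    |(cexp ((1 + I) * t) - 1 - (1 + I) * t - ((1 + I) * t) ^ 2 / 2).re| ≤ 0.5636 * t ^ 2 ∧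
    |(cexp ((1 + I) * t) - 1 - (1 + I) * t - ((1 + I) * t) ^ 2 / 2).im| ≤ t ^ 2 / 3 := by
  obtain ⟨E1, E2⟩ := exp_one_bds
  have h := norm_exp_sub_sum_le ((1 + I) * (t : ℂ)) 6 (M := 2.7183) (by norm_num)
    (by rw [re_w5]; exact (Real.exp_le_exp.2 h1).trans E2.le) 1 (right_mem_Icc.2 zero_le_one)
  simp only [Complex.ofReal_one, one_mul, Finset.sum_range_succ, Finset.sum_range_zero, Nat.factorial] at h
  rw [norm_w5, abs_of_nonneg h0] at h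
  have e6 : (Real.sqrt 2 * t) ^ 6 = 8 * t ^ 6 := by
    have : (Real.sqrt 2 * t) ^ 6 = (Real.sqrt 2 ^ 2) ^ 3 * t ^ 6 := by ring
    rw [this, sqrt2_sq]; norm_num
  rw [e6] at h
  obtain ⟨G, hG⟩ : ∃ G : ℂ, G = cexp ((1 + I) * t) - 1 - (1 + I) * t - ((1 + I) * t) ^ 2 / 2 := ⟨_, rfl⟩
  rw [← hG]
  obtain ⟨Q, hQ⟩ : ∃ Q : ℂ, Q = ((-(t ^ 3 / 3 + t ^ 4 / 6 + t ^ 5 / 30) : ℝ) : ℂ) + ((t ^ 3 / 3 - t ^ 5 / 30 : ℝ) : ℂ) * I := ⟨_, rfl⟩
  have hI3 : I ^ 3 = -I := by rw [pow_succ, Complex.I_sq]; ring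
  have hI4 : I ^ 4 = 1 := by rw [show (4:ℕ) = 2 * 2 by norm_num, pow_mul, Complex.I_sq]; ring
  have hI5 : I ^ 5 = I := by rw [pow_succ, hI4, one_mul]
  have h' : ‖G - Q‖ ≤ 0.0302034 * t ^ 6 := by
    have e : G - Q = cexp ((1 + I) * (t : ℂ)) - (0 + ((1 + I) * (t : ℂ)) ^ 0 / (1 : ℕ) + ((1 + I) * (t : ℂ)) ^ 1 / ((0 + 1) * 1 : ℕ) +
        ((1 + I) * (t : ℂ)) ^ 2 / ((1 + 1) * ((0 + 1) * 1) : ℕ) + ((1 + I) * (t : ℂ)) ^ 3 / ((2 + 1) * ((1 + 1) * ((0 + 1) * 1)) : ℕ) +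
        ((1 + I) * (t : ℂ)) ^ 4 / ((3 + 1) * ((2 + 1) * ((1 + 1) * ((0 + 1) * 1))) : ℕ) +
        ((1 + I) * (t : ℂ)) ^ 5 / ((4 + 1) * ((3 + 1) * ((2 + 1) * ((1 + 1) * ((0 + 1) * 1)))) : ℕ)) := by
      rw [hG, hQ]
      push_cast
      have w3 : ((1 + I) * (t : ℂ)) ^ 3 = (-2 + 2 * I) * (t : ℂ) ^ 3 := by
        linear_combination ((t : ℂ) ^ 3 * (3 + I)) * Complex.I_sq
      have w4 : ((1 + I) * (t : ℂ)) ^ 4 = -4 * (t : ℂ) ^ 4 := by
        linear_combination ((t : ℂ) ^ 4 * (5 + 4 * I + I ^ 2)) * Complex.I_sq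
      have w5 : ((1 + I) * (t : ℂ)) ^ 5 = (-4 - 4 * I) * (t : ℂ) ^ 5 := by
        have : ((1 + I) * (t : ℂ)) ^ 5 = ((1 + I) * (t : ℂ)) ^ 4 * ((1 + I) * (t : ℂ)) := by ring
        rw [this, w4]; ring
      rw [w3, w4, w5]
      ring
    rw [e]
    refine h.trans ?_
    have : (0:ℝ) ≤ t ^ 6 := by positivity
    norm_num
    nlinarith
  have hre : (G - Q).re = G.re + (t ^ 3 / 3 + t ^ 4 / 6 + t ^ 5 / 30) := by
    rw [hQ, Complex.sub_re, Complex.add_re, Complex.ofReal_re, Complex.re_ofReal_mul, Complex.I_re]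
    ring
  have him : (G - Q).im = G.im - (t ^ 3 / 3 - t ^ 5 / 30) := by
    rw [hQ, Complex.sub_im, Complex.add_im, Complex.ofReal_im, Complex.im_ofReal_mul, Complex.I_im]
    ring
  have b1 := (Complex.abs_re_le_norm (G - Q)).trans h'
  have b2 := (Complex.abs_im_le_norm (G - Q)).trans h'
  rw [hre] at b1
  rw [him] at b2
  have c1 := abs_le.1 b1
  have c2 := abs_le.1 b2
  have t2 : (0:ℝ) ≤ t ^ 2 := by positivity
  have t3 : (0:ℝ) ≤ t ^ 3 := by positivity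
  have t32 : t ^ 3 ≤ t ^ 2 := by nlinarith
  have t43 : t ^ 4 ≤ t ^ 3 := by nlinarith
  have t53 : t ^ 5 ≤ t ^ 3 := by nlinarith [pow_nonneg h0 4]
  have t63 : t ^ 6 ≤ t ^ 3 := by nlinarith [pow_nonneg h0 4, pow_nonneg h0 5]
  have t65 : t ^ 6 ≤ t ^ 5 := by nlinarith [pow_nonneg h0 5]
  have t4 : (0:ℝ) ≤ t ^ 4 := by positivity
  have t5 : (0:ℝ) ≤ t ^ 5 := by positivity
  have t6 : (0:ℝ) ≤ t ^ 6 := by positivity
  constructor
  · rw [abs_le]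
    constructor <;> nlinarith
  · rw [abs_le]
    constructor <;> nlinarith

/-- right part of the line -/
theorem gre5_right (x y t : ℝ) (h0 : 0 ≤ t) (h1 : t ≤ 1) :
    gre x y t (-t) ≤ -((1 + y - 0.5636 * |x| - |y| / 3) * t ^ 2) := by
  rw [← re_Psi]
  obtain ⟨b1, b2⟩ := g5_bounds t h0 h1
  obtain ⟨G, hG⟩ : ∃ G : ℂ, G = cexp ((1 + I) * t) - 1 - (1 + I) * t - ((1 + I) * t) ^ 2 / 2 := ⟨_, rfl⟩
  rw [← hG] at b1 b2
  have e0 : I * ((t : ℂ) + ((-t : ℝ) : ℂ) * I) = (1 + I) * t := by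
    push_cast
    linear_combination (-(t : ℂ)) * Complex.I_sq
  have e1 : Psi (x + y * I) ((t : ℂ) + ((-t : ℝ) : ℂ) * I) = ((-((1 + y) * t ^ 2) : ℝ) : ℂ) + ((x * t ^ 2 : ℝ) : ℂ) * I +
      (x + y * I) * G := by
    rw [Psi, e0, hG]
    push_cast
    linear_combination ((t : ℂ) ^ 2 * (1 - I / 2) + (x + y * I) * (t : ℂ) ^ 2 / 2 + y * (t : ℂ) ^ 2) * Complex.I_sq
  rw [e1, Complex.add_re, Complex.add_re, Complex.ofReal_re, Complex.re_ofReal_mul, Complex.I_re, mul_zero, add_zero]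
  have e2 : ((x + y * I : ℂ) * G).re = x * G.re - y * G.im := by
    rw [Complex.mul_re]; simp
  rw [e2]
  have h3 : x * G.re ≤ |x| * (0.5636 * t ^ 2) := by
    calc x * G.re ≤ |x * G.re| := le_abs_self _
      _ = |x| * |G.re| := abs_mul _ _
      _ ≤ _ := mul_le_mul_of_nonneg_left b1 (abs_nonneg _)
  have h4 : -(y * G.im) ≤ |y| * (t ^ 2 / 3) := by
    calc -(y * G.im) ≤ |y * G.im| := neg_le_abs _
      _ = |y| * |G.im| := abs_mul _ _
      _ ≤ _ := mul_le_mul_of_nonneg_left b2 (abs_nonneg _)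
  nlinarith

/-- the horizontal ray on the left -/
theorem gre5_hl (x y X : ℝ) : gre x y X 1 ≤ -((1 + y) - 0.368 * ‖(x + y * I : ℂ)‖) + (1 + y) * (X + 1) := by
  rw [gre]
  have h2 := lin_trig_le x y X
  have hE := Real.exp_pos (-1)
  have hE1 : Real.exp (-1) ≤ 0.368 := by
    have := Real.exp_neg_one_lt_d9
    linarith
  have hn : 0 ≤ ‖(x + y * I : ℂ)‖ := norm_nonneg _
  have h3 : Real.exp (-1) * (x * Real.cos X - y * Real.sin X) ≤ 0.368 * ‖(x + y * I : ℂ)‖ := by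
    calc Real.exp (-1) * (x * Real.cos X - y * Real.sin X) ≤ Real.exp (-1) * ‖(x + y * I : ℂ)‖ :=
          mul_le_mul_of_nonneg_left h2 hE.le
      _ ≤ _ := mul_le_mul_of_nonneg_right hE1 hn
  nlinarith

theorem polyA {p v : ℝ} (hp1 : 1.570796 < p) (hp2 : p < 1.570797) (hv0 : 0 ≤ v) (hv1 : v ≤ 0.5708) :
    4 + 7.3892 + (p - v) ^ 2 - 4 * 2.7182 * (v - v ^ 3 / 6) - 2 * 2.7182 * (p - v) * (1 - v ^ 2 / 2) ≤
      4.1616 * ((p - v) - 0.2) ^ 2 := by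
  have hv3 : v ^ 3 ≤ 0.5708 * v ^ 2 := by nlinarith [sq_nonneg v]
  have h1 : 0 ≤ v ^ 3 := by positivity
  have h2 : 0 ≤ v ^ 2 := by positivity
  have h3 : p * v ≤ 1.570797 * v := by nlinarith
  have h4 : 1.570796 * v ≤ p * v := by nlinarith
  have h5 : p * v ^ 2 ≤ 1.570797 * v ^ 2 := by nlinarith
  have h6 : 2.4674 ≤ p ^ 2 := by nlinarith
  have h7 : p ^ 2 ≤ 2.46741 := by nlinarith
  nlinarith [mul_nonneg hv0 (sub_nonneg.2 hv1)]

theorem polyB {p v : ℝ} (hp1 : 1.570796 < p) (hp2 : p < 1.570797) (hv0 : 0 ≤ v) (hv1 : v ≤ 1.0293) :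
    4 + 7.3892 + (p + v) ^ 2 + 4 * 2.7183 * v - 2 * 2.7182 * (p + v) * (1 - v ^ 2 / 2) ≤
      4.1616 * ((p + v) - 0.2) ^ 2 := by
  have h2 : 0 ≤ v ^ 2 := by positivity
  have h3 : p * v ≤ 1.570797 * v := by nlinarith
  have h4 : 1.570796 * v ≤ p * v := by nlinarith
  have h5 : p * v ^ 2 ≤ 1.570797 * v ^ 2 := by nlinarith
  have h6 : 2.4674 ≤ p ^ 2 := by nlinarith
  have h7 : p ^ 2 ≤ 2.46741 := by nlinarith
  have h8 : v ^ 3 ≤ 1.0293 * v ^ 2 := by nlinarith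
  nlinarith [mul_nonneg hv0 (sub_nonneg.2 hv1), sq_nonneg (v - 0.3), mul_nonneg (sq_nonneg v) (sub_nonneg.2 hv1),
    mul_nonneg hv0 (sq_nonneg (v - 0.5))]

theorem polyC {p w : ℝ} (hp1 : 3.141592 < p) (hp2 : p < 3.141593) (hw0 : 0 ≤ w) (hw1 : w ≤ 0.5416) :
    4 + 7.3892 + (p - w) ^ 2 + 4 * 2.7183 - 2 * 2.7182 * (p - w) * (0.92 * w) ≤
      4.1616 * ((p - w) - 0.2) ^ 2 := by
  have h2 : 0 ≤ w ^ 2 := by positivity
  have h3 : p * w ≤ 3.141593 * w := by nlinarith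
  have h4 : 3.141592 * w ≤ p * w := by nlinarith
  have h6 : 9.8696 ≤ p ^ 2 := by nlinarith
  have h7 : p ^ 2 ≤ 9.86961 := by nlinarith
  nlinarith [mul_nonneg hw0 (sub_nonneg.2 hw1)]

theorem polyD {X : ℝ} (h1 : 3.1415 ≤ X) (h2 : X ≤ 4.2) :
    4 + 7.3892 + X ^ 2 + 10.8732 + 5.4366 * (X * (X - 3.1415)) ≤ 4.1616 * (X - 0.2) ^ 2 := by
  nlinarith [mul_nonneg (by linarith : 0 ≤ X - 3.1415) (by linarith : 0 ≤ 4.2 - X)]

theorem polyE {X : ℝ} (h1 : 4.2 ≤ X) :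
    4 + 7.3892 + X ^ 2 + 10.8732 + 5.4366 * X ≤ 4.1616 * (X - 0.2) ^ 2 := by
  nlinarith [mul_nonneg (by linarith : 0 ≤ X - 4.2) (by linarith : 0 ≤ X - 4.2)]

theorem trig5 {X : ℝ} (h1 : 1 ≤ X) :
    4 + Real.exp 1 ^ 2 + X ^ 2 - 4 * Real.exp 1 * Real.cos X - 2 * Real.exp 1 * X * Real.sin X ≤
      4.1616 * (X - 0.2) ^ 2 := by
  obtain ⟨E1, E2⟩ := exp_one_bds
  have hp1 := Real.pi_gt_d6
  have hp2 := Real.pi_lt_d6
  obtain ⟨e, he⟩ : ∃ e, e = Real.exp 1 := ⟨_, rfl⟩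
  rw [← he] at E1 E2 ⊢
  have hee : e ^ 2 ≤ 7.3892 := by nlinarith
  have h2e1 : 2 * 2.7182 * X ≤ 2 * e * X := mul_le_mul_of_nonneg_right (by linarith) (by linarith)
  have h2e2 : 2 * e * X ≤ 2 * 2.7183 * X := mul_le_mul_of_nonneg_right (by linarith) (by linarith)
  have h2e0 : 0 ≤ 2 * e * X := by nlinarith
  rcases le_total X (Real.pi / 2) with hA | hA
  · -- piece A
    obtain ⟨v, hv⟩ : ∃ v, v = Real.pi / 2 - X := ⟨_, rfl⟩
    have hv0 : 0 ≤ v := by linarith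
    have hv1 : v ≤ 0.5708 := by linarith
    have hc : v - v ^ 3 / 6 ≤ Real.cos X := by
      rw [← Real.sin_pi_div_two_sub, ← hv]
      rcases hv0.eq_or_lt with h | h
      · rw [← h]; simp
      · exact (Real.sin_gt_sub_cube h).le
    have hs : 1 - v ^ 2 / 2 ≤ Real.sin X := by
      rw [← Real.cos_pi_div_two_sub, ← hv]; exact Real.one_sub_sq_div_two_le_cos
    have hc0 : 0 ≤ v - v ^ 3 / 6 := by nlinarith
    have hs0 : 0 ≤ 1 - v ^ 2 / 2 := by nlinarith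
    have k1 : 4 * 2.7182 * (v - v ^ 3 / 6) ≤ 4 * e * Real.cos X := mul_le_mul (by linarith) hc hc0 (by linarith)
    have k2 : 2 * 2.7182 * X * (1 - v ^ 2 / 2) ≤ 2 * e * X * Real.sin X := mul_le_mul h2e1 hs hs0 h2e0
    have k3 := polyA (p := Real.pi / 2) (by linarith) (by linarith) hv0 hv1
    rw [show Real.pi / 2 - v = X by linarith] at k3
    linarith
  · rcases le_total X 2.6 with hB | hB
    · -- piece B
      obtain ⟨v, hv⟩ : ∃ v, v = X - Real.pi / 2 := ⟨_, rfl⟩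
      have hv0 : 0 ≤ v := by linarith
      have hv1 : v ≤ 1.0293 := by linarith
      have hc : -v ≤ Real.cos X := by
        have e1 : Real.cos X = -Real.sin v := by
          rw [hv, Real.sin_sub_pi_div_two, neg_neg]
        rw [e1]
        have := Real.sin_le hv0
        linarith
      have hs : 1 - v ^ 2 / 2 ≤ Real.sin X := by
        have e1 : Real.sin X = Real.cos v := by rw [hv, Real.cos_sub_pi_div_two]
        rw [e1]; exact Real.one_sub_sq_div_two_le_cos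
      have hs0 : 0 ≤ 1 - v ^ 2 / 2 := by nlinarith
      have k1 : -(4 * 2.7183 * v) ≤ 4 * e * Real.cos X := by nlinarith
      have k2 : 2 * 2.7182 * X * (1 - v ^ 2 / 2) ≤ 2 * e * X * Real.sin X := mul_le_mul h2e1 hs hs0 h2e0
      have k3 := polyB (p := Real.pi / 2) (by linarith) (by linarith) hv0 hv1
      rw [show Real.pi / 2 + v = X by linarith] at k3
      linarith
    · have hc : -1 ≤ Real.cos X := Real.neg_one_le_cos X
      have k1 : -(4 * 2.7183) ≤ 4 * e * Real.cos X := by nlinarith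
      rcases le_total X Real.pi with hC | hC
      · -- piece C
        obtain ⟨w, hw⟩ : ∃ w, w = Real.pi - X := ⟨_, rfl⟩
        have hw0 : 0 ≤ w := by linarith
        have hw1 : w ≤ 0.5416 := by linarith
        have hs : 0.92 * w ≤ Real.sin X := by
          rw [← Real.sin_pi_sub, ← hw]
          rcases hw0.eq_or_lt with h | h
          · rw [← h]; simp
          · have := (Real.sin_gt_sub_cube h).le
            nlinarith [mul_nonneg hw0 (sub_nonneg.2 hw1)]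
        have k2 : 2 * 2.7182 * X * (0.92 * w) ≤ 2 * e * X * Real.sin X := mul_le_mul h2e1 hs (by linarith) h2e0
        have k3 := polyC (p := Real.pi) (by linarith) (by linarith) hw0 hw1
        rw [show Real.pi - w = X by linarith] at k3
        linarith
      · rcases le_total X 4.2 with hD | hD
        · -- piece D
          have hs : -(X - Real.pi) ≤ Real.sin X := by
            have e1 : Real.sin X = -Real.sin (X - Real.pi) := by rw [Real.sin_sub_pi, neg_neg]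
            rw [e1]
            have := Real.sin_le (x := X - Real.pi) (by linarith)
            linarith
          have k2 : -(2 * 2.7183 * X * (X - Real.pi)) ≤ 2 * e * X * Real.sin X := by
            have h4 : 0 ≤ X - Real.pi := by linarith
            have h5 := mul_le_mul_of_nonneg_left hs h2e0
            have h6 := mul_le_mul_of_nonneg_right h2e2 h4
            linarith
          have k3 : X * (X - Real.pi) ≤ X * (X - 3.1415) :=
            mul_le_mul_of_nonneg_left (by linarith) (by linarith)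
          have k4 := polyD (X := X) (by linarith) hD
          linarith
        · -- piece E
          have hs : -1 ≤ Real.sin X := Real.neg_one_le_sin X
          have k2 : -(2 * 2.7183 * X) ≤ 2 * e * X * Real.sin X := by
            have h5 := mul_le_mul_of_nonneg_left hs h2e0
            linarith
          have k4 := polyE hD
          linarith

/-- the horizontal line at height `-1`, `1 ≤ X` -/
theorem gre5_h1 {x y X : ℝ} (h1 : 1 ≤ X) :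
    gre x y X (-1) ≤ -(1 - 1.632 * ‖(x + y * I : ℂ)‖) - (1 - 2.04 * ‖(x + y * I : ℂ)‖) * (X - 1) := by
  rw [gre, neg_neg]
  obtain ⟨n, hnd⟩ : ∃ n, n = ‖(x + y * I : ℂ)‖ := ⟨_, rfl⟩
  have hn0 : 0 ≤ n := by rw [hnd]; exact norm_nonneg _
  have hn2 : n ^ 2 = x ^ 2 + y ^ 2 := by
    rw [hnd, ← Complex.normSq_eq_norm_sq, Complex.normSq_apply]
    simp
    ring
  rw [← hnd]
  have ht := trig5 h1
  have hsc := Real.sin_sq_add_cos_sq X
  obtain ⟨e, he⟩ : ∃ e, e = Real.exp 1 := ⟨_, rfl⟩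
  obtain ⟨c, hc⟩ : ∃ c, c = Real.cos X := ⟨_, rfl⟩
  obtain ⟨s, hs⟩ : ∃ s, s = Real.sin X := ⟨_, rfl⟩
  rw [← he, ← hc, ← hs] at ht ⊢
  rw [← hc, ← hs] at hsc
  have hkey : (e * c - 2) ^ 2 + (X - e * s) ^ 2 ≤ (2.04 * (X - 0.2)) ^ 2 := by
    have : (e * c - 2) ^ 2 + (X - e * s) ^ 2 = 4 + e ^ 2 * (s ^ 2 + c ^ 2) + X ^ 2 - 4 * e * c - 2 * e * X * s := by ring
    rw [this, hsc]
    nlinarith
  have hcs : (x * (e * c - 2) + y * (X - e * s)) ^ 2 ≤ (n * (2.04 * (X - 0.2))) ^ 2 := by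
    rw [mul_pow, hn2]
    have h5 : (x * (e * c - 2) + y * (X - e * s)) ^ 2 ≤ (x ^ 2 + y ^ 2) * ((e * c - 2) ^ 2 + (X - e * s) ^ 2) := by
      nlinarith [sq_nonneg (x * (X - e * s) - y * (e * c - 2))]
    refine h5.trans (mul_le_mul_of_nonneg_left hkey (by positivity))
  have h6 : x * (e * c - 2) + y * (X - e * s) ≤ n * (2.04 * (X - 0.2)) :=
    le_of_abs_le (abs_le_of_sq_le_sq hcs (mul_nonneg hn0 (by nlinarith)))
  nlinarith

/-- far part of the horizontal line -/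
theorem gre5_h2 {x y X : ℝ} (h1 : 5 ≤ X) :
    gre x y X (-1) ≤ -(5 - 9.7183 * ‖(x + y * I : ℂ)‖) - (1 - ‖(x + y * I : ℂ)‖) * (X - 5) := by
  rw [gre, neg_neg]
  have h2 := lin_trig_le x y X
  have hE := Real.exp_one_lt_d9
  have hE0 := Real.exp_pos 1
  have hn : 0 ≤ ‖(x + y * I : ℂ)‖ := norm_nonneg _
  have hx : |x| ≤ ‖(x + y * I : ℂ)‖ := by
    have := Complex.abs_re_le_norm (x + y * I : ℂ)
    simpa using this
  have hy : |y| ≤ ‖(x + y * I : ℂ)‖ := by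
    have := Complex.abs_im_le_norm (x + y * I : ℂ)
    simpa using this
  have hx' := neg_abs_le x
  have hy' := le_abs_self y
  have h4 : Real.exp 1 * (x * Real.cos X - y * Real.sin X) ≤ 2.7183 * ‖(x + y * I : ℂ)‖ := by
    calc Real.exp 1 * (x * Real.cos X - y * Real.sin X) ≤ Real.exp 1 * ‖(x + y * I : ℂ)‖ :=
          mul_le_mul_of_nonneg_left h2 hE0.le
      _ ≤ _ := mul_le_mul_of_nonneg_right (by linarith) hn
  have h5 : y * X ≤ ‖(x + y * I : ℂ)‖ * X := mul_le_mul_of_nonneg_right (by linarith) (by linarith)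
  nlinarith

/-- the sum of the tails -/
noncomputable def tail45 (β x y n : ℝ) : ℝ :=
  Real.sqrt 2 * (Real.exp (-((1 - n) * (53 / 100) ^ 2) / β) / (2 * (1 - n) * (53 / 100) / β)) +
  Real.exp (-((1 + y) - 0.368 * n) / β) / ((1 + y) / β) +
  Real.sqrt 2 * (Real.exp (-((1 + y - 0.5636 * |x| - |y| / 3) * (53 / 100) ^ 2) / β) /
    (2 * (1 + y - 0.5636 * |x| - |y| / 3) * (53 / 100) / β)) +
  4 * Real.exp (-(1 - 1.632 * n) / β) +
  Real.exp (-(5 - 9.7183 * n) / β) / ((1 - n) / β)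

/-- **Lemma J, direction `1 - i`, all angles.** -/
theorem J45 {β x y ρ : ℝ} (hβ : 0 < β) (hn : ‖(x + y * I : ℂ)‖ ≤ 0.49)
    (hρ : ‖(x + y * I : ℂ)‖ ≤ ρ * (1 + y)) (hρ0 : 0 ≤ ρ) (hρ1 : ρ < 3) :
    ‖HH β (x + y * I) - 1‖ ≤
      Real.sqrt (‖1 - I * (x + y * I : ℂ)‖ / (2 * Real.pi * β)) *
        (Real.sqrt 2 * lap45 ((1 + y) / β) ρ + tail45 β x y ‖(x + y * I : ℂ)‖) := by
  have hxn : |x| ≤ ‖(x + y * I : ℂ)‖ := by
    have := Complex.abs_re_le_norm (x + y * I : ℂ)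
    simpa using this
  have hyn : |y| ≤ ‖(x + y * I : ℂ)‖ := by
    have := Complex.abs_im_le_norm (x + y * I : ℂ)
    simpa using this
  have hn2 : ‖(x + y * I : ℂ)‖ ^ 2 = x ^ 2 + y ^ 2 := by
    rw [← Complex.normSq_eq_norm_sq, Complex.normSq_apply]
    simp
    ring
  obtain ⟨n, hnd⟩ : ∃ n, n = ‖(x + y * I : ℂ)‖ := ⟨_, rfl⟩
  have hn0 : 0 ≤ n := by rw [hnd]; exact norm_nonneg _
  have hx0 := abs_nonneg x
  have hy0 := abs_nonneg y
  have hyl := neg_abs_le y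
  have hyu := le_abs_self y
  have hq : 0 < 1 + y - 0.5636 * |x| - |y| / 3 := by
    have h1 : |x| ^ 2 + |y| ^ 2 ≤ 0.49 ^ 2 := by
      rw [sq_abs, sq_abs, ← hn2]
      exact pow_le_pow_left₀ (norm_nonneg _) hn 2
    nlinarith [sq_nonneg (|x| - 0.19), sq_nonneg (|y| - 0.45)]
  have hy1 : -1 < y := by linarith
  obtain ⟨σ, hσ⟩ : ∃ σ : ℂ, σ = x + y * I := ⟨_, rfl⟩
  have him : σ.im = y := by rw [hσ]; simp
  obtain ⟨h, hh⟩ : ∃ h : ℂ → ℂ, h = GG β (zs β σ) := ⟨_, rfl⟩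
  obtain ⟨P, lL, lR, hP, hl, hF⟩ := exists_F_lim hβ (zs β σ)
  obtain ⟨E, hE⟩ : ∃ E : ℂ, E = cexp ((σ - I * σ ^ 2 / 2) / β) := ⟨_, rfl⟩
  have hE0 : E ≠ 0 := by rw [hE]; exact Complex.exp_ne_zero _
  have hEn : 0 < ‖E‖ := norm_pos_iff.2 hE0
  have hd : Differentiable ℂ h := by rw [hh]; exact (kr_GG (β := β) (zs β σ)).diff
  have hP' : ∀ x, HasDerivAt P (h x) x := by rw [hh]; exact hP
  -- norms along axis-parallel lines
  have hnorm : ∀ X Y : ℝ, ‖h (((x + X : ℝ) : ℂ) + ((y + Y : ℝ) : ℂ) * I)‖ = ‖E‖ * Real.exp (gre x y X Y / β) := by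
    intro X Y
    rw [hh, hE, hσ]
    exact norm_GG_saddle hβ x y X Y
  have hnormX : ∀ X Y : ℝ, ‖h ((X : ℂ) + ((y + Y : ℝ) : ℂ) * I)‖ = ‖E‖ * Real.exp (gre x y (X - x) Y / β) := by
    intro X Y
    have := hnorm (X - x) Y
    rwa [show x + (X - x) = X by ring] at this
  have hnormL : ∀ t : ℝ, ‖h (σ + (1 - I) * t)‖ = ‖E‖ * Real.exp (gre x y t (-t) / β) := by
    intro t
    have e : σ + (1 - I) * (t : ℂ) = ((x + t : ℝ) : ℂ) + ((y + -t : ℝ) : ℂ) * I := by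
      rw [hσ]; push_cast; ring
    rw [e, hnorm]
  -- the pieces
  obtain ⟨p1, hp1'⟩ : ∃ p1 : ℂ, p1 = P (σ + (1 - I) * ((-1 : ℝ) : ℂ)) := ⟨_, rfl⟩
  obtain ⟨p2, hp2'⟩ : ∃ p2 : ℂ, p2 = P (σ + (1 - I) * ((-(53 / 100) : ℝ) : ℂ)) := ⟨_, rfl⟩
  obtain ⟨p3, hp3'⟩ : ∃ p3 : ℂ, p3 = P (σ + (1 - I) * ((53 / 100 : ℝ) : ℂ)) := ⟨_, rfl⟩
  obtain ⟨p4, hp4'⟩ : ∃ p4 : ℂ, p4 = P (σ + (1 - I) * ((1 : ℝ) : ℂ)) := ⟨_, rfl⟩
  obtain ⟨p5, hp5'⟩ : ∃ p5 : ℂ, p5 = P (((x + 5 : ℝ) : ℂ) + ((y + -1 : ℝ) : ℂ) * I) := ⟨_, rfl⟩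
  have q1 : σ + (1 - I) * ((-1 : ℝ) : ℂ) = ((x + -1 : ℝ) : ℂ) + ((y + 1 : ℝ) : ℂ) * I := by
    rw [hσ]; push_cast; ring
  have q4 : σ + (1 - I) * ((1 : ℝ) : ℂ) = ((x + 1 : ℝ) : ℂ) + ((y + -1 : ℝ) : ℂ) * I := by
    rw [hσ]; push_cast; ring
  have hkHL : 0 < (1 + y) / β := div_pos (by linarith) hβ
  have hkL : 0 < 2 * (1 - n) * (53 / 100) / β := div_pos (by nlinarith) hβ
  have hkR : 0 < 2 * (1 + y - 0.5636 * |x| - |y| / 3) * (53 / 100) / β := div_pos (by nlinarith) hβ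
  have hkH : 0 < (1 - n) / β := div_pos (by linarith) hβ
  -- HL
  have bHL : ‖p1 - lL‖ ≤ ‖E‖ * (Real.exp (-((1 + y) - 0.368 * n) / β) / ((1 + y) / β)) := by
    rw [hp1', q1, ← mul_div_assoc]
    refine ray_left hd hP' (hl.left _ (by linarith)) hkHL (by positivity) ?_
    intro X hX
    rw [hnormX, mul_assoc, ← Real.exp_add]
    refine mul_le_mul_of_nonneg_left (Real.exp_le_exp.2 ?_) hEn.le
    have := gre5_hl x y (X - x)
    rw [← hnd] at this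
    have e1 : -((1 + y) - 0.368 * n) / β + (1 + y) / β * (X - (x + -1)) =
        (-((1 + y) - 0.368 * n) + (1 + y) * (X - x + 1)) / β := by ring
    rw [e1]
    exact div_le_div_of_nonneg_right this hβ.le
  -- left line
  have bL : ‖p2 - p1‖ ≤ ‖E‖ * (Real.sqrt 2 * (Real.exp (-((1 - n) * (53 / 100) ^ 2) / β) / (2 * (1 - n) * (53 / 100) / β))) := by
    rw [hp2', hp1']
    have hb := seg_dir_exp hd hP' (1 - I) σ (a := -1) (b := -(53 / 100))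
      (C := ‖E‖ * Real.exp (-((1 - n) * (53 / 100) ^ 2) / β)) (k := 2 * (1 - n) * (53 / 100) / β)
      (by norm_num) hkL (by positivity) ?_
    · rw [norm_one_sub_I] at hb
      refine hb.trans (le_of_eq ?_)
      ring
    · intro t h1 h2
      rw [hnormL, mul_assoc, ← Real.exp_add]
      refine mul_le_mul_of_nonneg_left (Real.exp_le_exp.2 ?_) hEn.le
      have := gre5_left x y (-t) (by linarith)
      rw [neg_neg, ← hnd] at this
      have e1 : -((1 - n) * (53 / 100) ^ 2) / β + 2 * (1 - n) * (53 / 100) / β * (t - -(53 / 100)) =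
        (-((1 - n) * (53 / 100) ^ 2) + 2 * (1 - n) * (53 / 100) * (t + 53 / 100)) / β := by ring
      rw [e1]
      refine div_le_div_of_nonneg_right (this.trans ?_) hβ.le
      have h1n : 0 ≤ 1 - n := by linarith
      have h3 : 0 ≤ (1 - n) * (t + 53 / 100) ^ 2 := mul_nonneg h1n (sq_nonneg _)
      nlinarith
  -- right line
  have bR1 : ‖p4 - p3‖ ≤ ‖E‖ * (Real.sqrt 2 * (Real.exp (-((1 + y - 0.5636 * |x| - |y| / 3) * (53 / 100) ^ 2) / β) /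
      (2 * (1 + y - 0.5636 * |x| - |y| / 3) * (53 / 100) / β))) := by
    rw [hp4', hp3']
    obtain ⟨Q, hQ⟩ : ∃ Q : ℝ, Q = 1 + y - 0.5636 * |x| - |y| / 3 := ⟨_, rfl⟩
    rw [← hQ] at hq hkR ⊢
    have hb := seg_dir_exp' hd hP' (1 - I) σ (a := 53 / 100) (b := 1)
      (C := ‖E‖ * Real.exp (-(Q * (53 / 100) ^ 2) / β)) (k := 2 * Q * (53 / 100) / β)
      (by norm_num) hkR (by positivity) ?_
    · rw [norm_one_sub_I] at hb
      refine hb.trans (le_of_eq ?_)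
      ring
    · intro t h1 h2
      rw [hnormL, mul_assoc, ← Real.exp_add]
      refine mul_le_mul_of_nonneg_left (Real.exp_le_exp.2 ?_) hEn.le
      have := gre5_right x y t (by linarith) h2
      rw [← hQ] at this
      have e1 : -(Q * (53 / 100) ^ 2) / β + -(2 * Q * (53 / 100) / β) * (t - 53 / 100) =
        (-(Q * (53 / 100) ^ 2) - 2 * Q * (53 / 100) * (t - 53 / 100)) / β := by ring
      rw [e1]
      refine div_le_div_of_nonneg_right (this.trans ?_) hβ.le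
      have h3 : 0 ≤ Q * (t - 53 / 100) ^ 2 := mul_nonneg hq.le (sq_nonneg _)
      nlinarith
  -- H1
  have bH1 : ‖p5 - p4‖ ≤ ‖E‖ * (4 * Real.exp (-(1 - 1.632 * n) / β)) := by
    rw [hp5', hp4', q4]
    refine (seg_hor hd hP' (C := ‖E‖ * Real.exp (-(1 - 1.632 * n) / β))
      (by linarith) ?_).trans (le_of_eq ?_)
    · intro X h1 h2
      rw [hnormX]
      refine mul_le_mul_of_nonneg_left (Real.exp_le_exp.2 ?_) hEn.le
      refine div_le_div_of_nonneg_right ?_ hβ.le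
      have := gre5_h1 (x := x) (y := y) (X := X - x) (by linarith)
      rw [← hnd] at this
      have h3 : 0 ≤ (1 - 2.04 * n) * (X - x - 1) := mul_nonneg (by linarith) (by linarith)
      linarith
    · ring
  -- H2
  have bH2 : ‖lR - p5‖ ≤ ‖E‖ * (Real.exp (-(5 - 9.7183 * n) / β) / ((1 - n) / β)) := by
    rw [hp5', ← mul_div_assoc]
    refine ray_right hd hP' (hl.right _ (by linarith)) hkH (by positivity) ?_
    intro X h1
    rw [hnormX, mul_assoc, ← Real.exp_add]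
    refine mul_le_mul_of_nonneg_left (Real.exp_le_exp.2 ?_) hEn.le
    have := gre5_h2 (x := x) (y := y) (X := X - x) (by linarith)
    rw [← hnd] at this
    have e1 : -(5 - 9.7183 * n) / β + -((1 - n) / β) * (X - (x + 5)) =
        (-(5 - 9.7183 * n) - (1 - n) * (X - x - 5)) / β := by ring
    rw [e1]
    exact div_le_div_of_nonneg_right this hβ.le
  -- central
  have hcen : p3 - p2 = (1 - I) * (E * ∫ t in (-(53 / 100):ℝ)..(53 / 100), cexp (Psi σ ((1 - I) * t) / β)) := by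
    rw [hp3', hp2', ← prim_dir hd hP' (1 - I) σ (-(53 / 100)) (53 / 100)]
    congr 1
    rw [← intervalIntegral.integral_const_mul]
    refine intervalIntegral.integral_congr (fun t _ => ?_)
    simp only [hh, GG_saddle hβ, hE]
  have bC := central5 (ρ := ρ) (σ := σ) hβ (by rw [him]; exact hy1) (by rw [him, hσ]; exact hρ) hρ0 hρ1
  rw [him] at bC
  rw [← hσ] at hnd ⊢
  rw [← hnd]
  have hbr := branch5 (σ := σ) hβ (by rw [him]; exact hy1)
  obtain ⟨C, hC⟩ : ∃ C : ℂ, C = ∫ t in (-(53 / 100):ℝ)..(53 / 100), cexp (Psi σ ((1 - I) * t) / β) := ⟨_, rfl⟩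
  obtain ⟨G, hG⟩ : ∃ G : ℂ, G = (2 * Real.pi / (2 * (1 - I * σ) / β)) ^ (1 / 2 : ℂ) := ⟨_, rfl⟩
  obtain ⟨D, hD⟩ : ∃ D : ℂ, D = (1 - I * σ) ^ (1 / 2 : ℂ) := ⟨_, rfl⟩
  rw [HH, ← hD]
  rw [← hC] at bC hcen
  rw [← hG] at bC hbr
  rw [← hD] at hbr
  obtain ⟨W, hW⟩ : ∃ W : ℂ, W = (1 - I) * (Real.sqrt (Real.pi * β) : ℝ) := ⟨_, rfl⟩
  rw [← hW] at hbr hF
  obtain ⟨Fv, hFv⟩ : ∃ Fv : ℂ, Fv = F (cexp (I * β)) (zs β σ) := ⟨_, rfl⟩
  rw [← hFv] at hF ⊢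
  have hWn : ‖W‖ = Real.sqrt (2 * Real.pi * β) := by
    rw [hW, norm_mul, Complex.norm_real, Real.norm_eq_abs, abs_of_nonneg (Real.sqrt_nonneg _), norm_one_sub_I,
      ← Real.sqrt_mul (by norm_num)]
    congr 1
    ring
  have hWpos : 0 < ‖W‖ := by rw [hWn]; exact Real.sqrt_pos.2 (by positivity)
  have hDn : ‖D‖ = Real.sqrt ‖1 - I * σ‖ := by
    rw [hD]
    apply norm_sqrt
    have : (1 - I * σ).re = 1 + y := by rw [← him]; simp
    rw [this]; linarith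
  have hEneg : cexp (-((σ - I * σ ^ 2 / 2) / β)) = E⁻¹ := by rw [Complex.exp_neg, hE]
  rw [hEneg]
  obtain ⟨T, hT⟩ : ∃ T : ℝ, T = tail45 β x y n := ⟨_, rfl⟩
  have hT' : T = tail45 β x y n := hT
  rw [tail45] at hT
  rw [← hT']
  obtain ⟨Rst, hRst⟩ : ∃ Rst : ℂ, Rst = (p1 - lL) + (p2 - p1) + (p4 - p3) + (p5 - p4) + (lR - p5) := ⟨_, rfl⟩
  have hsum : W * Fv = (1 - I) * (E * C) + Rst := by
    rw [← hF, ← hcen, hRst]; ring
  have bR : ‖Rst‖ ≤ ‖E‖ * T := by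
    rw [hRst, hT]
    have n1 := norm_add_le ((p1 - lL) + (p2 - p1) + (p4 - p3) + (p5 - p4)) (lR - p5)
    have n2 := norm_add_le ((p1 - lL) + (p2 - p1) + (p4 - p3)) (p5 - p4)
    have n3 := norm_add_le ((p1 - lL) + (p2 - p1)) (p4 - p3)
    have n4 := norm_add_le (p1 - lL) (p2 - p1)
    rw [mul_add, mul_add, mul_add, mul_add]
    linarith
  have hmain : W * (Fv * E⁻¹ * D - 1) = (1 - I) * (C - G) * D + Rst * E⁻¹ * D := by
    calc W * (Fv * E⁻¹ * D - 1) = (W * Fv) * E⁻¹ * D - W := by ring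
      _ = ((1 - I) * (E * C) + Rst) * E⁻¹ * D - (1 - I) * G * D := by rw [hsum, hbr]
      _ = (1 - I) * C * (E * E⁻¹) * D + Rst * E⁻¹ * D - (1 - I) * G * D := by ring
      _ = _ := by rw [mul_inv_cancel₀ hE0]; ring
  have hn1 : ‖W‖ * ‖Fv * E⁻¹ * D - 1‖ ≤ ‖D‖ * (Real.sqrt 2 * lap45 ((1 + y) / β) ρ + T) := by
    rw [← norm_mul, hmain]
    refine (norm_add_le _ _).trans ?_
    have m1 : ‖(1 - I) * (C - G) * D‖ ≤ Real.sqrt 2 * lap45 ((1 + y) / β) ρ * ‖D‖ := by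
      rw [norm_mul, norm_mul, norm_one_sub_I]
      exact mul_le_mul_of_nonneg_right (mul_le_mul_of_nonneg_left bC (Real.sqrt_nonneg _)) (norm_nonneg _)
    have m2 : ‖Rst * E⁻¹ * D‖ ≤ T * ‖D‖ := by
      rw [norm_mul, norm_mul, norm_inv]
      refine mul_le_mul_of_nonneg_right ?_ (norm_nonneg _)
      rw [← div_eq_mul_inv, div_le_iff₀ hEn]
      linarith
    linarith
  have hn2 : ‖Fv * E⁻¹ * D - 1‖ ≤ ‖D‖ / ‖W‖ * (Real.sqrt 2 * lap45 ((1 + y) / β) ρ + T) := by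
    rw [div_mul_eq_mul_div, le_div_iff₀ hWpos]
    linarith
  have hn3 : ‖D‖ / ‖W‖ = Real.sqrt (‖1 - I * σ‖ / (2 * Real.pi * β)) := by
    rw [hDn, hWn, Real.sqrt_div (norm_nonneg _)]
  rw [hn3] at hn2
  exact hn2

end Sok
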