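import Pool.Agent.Lib.MP_816dec_an.JBG

/-!
MP_816dec_an (A3, row R1): tables b = 7, real points.
-/

set_option autoImplicit false
set_option maxHeartbeats 4000000

open Complex Set

namespace Sok

private theorem JB7_k1a_b0_0 {β x y : ℝ} (hβ : 0 < β) (hN : β * 18.518 ≤ 1) (hx1 : 0.1894 ≤ x) (hx2 : x ≤ 0.5351)
    (hy1 : -0 ≤ y) (hy2 : y ≤ 0.139) : ‖HH β (x + y * I) - 1‖ ≤ 0.03 := by
  refine le_epsJ (C := 0.5543) (N0 := 18.518) (J_boxp 0.1894 0.5351 0 0.139 0.139 0.8434 0.5529 1.2585 1.4484 0.4476 4.3033 18.518 0.6556 2.371 1.341 1.2143 0.4216 0.3295 1.0731 3.7899 0.4328 0.748 1.3533 2.9329 0.0004075 0.002241 0.0000003101 0.0000003101 0.0003309 0.000000967 0.0000003101 0.0000003101 0.5543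
    hβ hN hx1 hx2 hy1 hy2 (by norm_num) (by norm_num) (by linarith) (by norm_num) (by norm_num) (by norm_num) (by norm_num) (by norm_num) (by norm_num) (by norm_num) (by norm_num) (by norm_num) (by norm_num) (by norm_num) (by norm_num) (by norm_num) (by norm_num) (by norm_num) (by norm_num) (by norm_num) (by norm_num) (by norm_num) (by norm_num) (by norm_num)
    (cube_sqrt_geJ (s := 0.884) (by norm_num) (by norm_num) (by norm_num) (by norm_num))
    (cube_sqrt_geJ (s := 0.959) (by norm_num) (by norm_num) (by norm_num) (by norm_num))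
    (by norm_num) (by norm_num) (by norm_num) (by norm_num) (by norm_num) (by norm_num) (by norm_num) (by norm_num) (by norm_num) (by norm_num) (by norm_num) (by norm_num) (by norm_num) (by norm_num) (by norm_num) (by norm_num) (by norm_num) (by norm_num)
    (exp_neg_leJ (r := 0.807) 7 (by norm_num) (by norm_num) (by norm_num) (by norm_num))
    (exp_neg_leJ (r := 0.101) 6 (by norm_num) (by norm_num) (by norm_num) (by norm_num))
    (exp_neg_leJ (r := 0.99) 14 (by norm_num) (by norm_num) (by norm_num) (by norm_num))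
    (exp_neg_leJ (r := 0.99) 14 (by norm_num) (by norm_num) (by norm_num) (by norm_num))
    (exp_neg_leJ (r := 0.014) 8 (by norm_num) (by norm_num) (by norm_num) (by norm_num))
    (exp_neg_leJ (r := 0.851) 13 (by norm_num) (by norm_num) (by norm_num) (by norm_num))
    (exp_neg_leJ (r := 0.99) 14 (by norm_num) (by norm_num) (by norm_num) (by norm_num))
    (exp_neg_leJ (r := 0.99) 14 (by norm_num) (by norm_num) (by norm_num) (by norm_num))
    (by norm_num)) (by norm_num) hN hβ.le (by norm_num)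

private theorem JB7_k1a_b0_1 {β x y : ℝ} (hβ : 0 < β) (hN : β * 18.518 ≤ 1) (hx1 : 0.1288 ≤ x) (hx2 : x ≤ 0.4489)
    (hy1 : -0 ≤ y) (hy2 : y ≤ 0.184) : ‖HH β (x + y * I) - 1‖ ≤ 0.03 := by
  refine le_epsJ (C := 0.5354) (N0 := 18.518) (J_boxp 0.1288 0.4489 0 0.184 0.184 0.8007 0.4852 1.2663 1.5706 0.449 4.3033 18.518 0.606 2.203 1.31 1.2474 0.4003 0.3194 1.0523 3.8347 0.3988 0.6595 1.0391 2.7837 0.0006041 0.002709 0.0000003101 0.0000003101 0.0006212 0.000004971 0.0000003101 0.0000003101 0.5354
    hβ hN hx1 hx2 hy1 hy2 (by norm_num) (by norm_num) (by linarith) (by norm_num) (by norm_num) (by norm_num) (by norm_num) (by norm_num) (by norm_num) (by norm_num) (by norm_num) (by norm_num) (by norm_num) (by norm_num) (by norm_num) (by norm_num) (by norm_num) (by norm_num) (by norm_num) (by norm_num) (by norm_num) (by norm_num) (by norm_num) (by norm_num)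
    (cube_sqrt_geJ (s := 0.8933) (by norm_num) (by norm_num) (by norm_num) (by norm_num))
    (cube_sqrt_geJ (s := 0.9621) (by norm_num) (by norm_num) (by norm_num) (by norm_num))
    (by norm_num) (by norm_num) (by norm_num) (by norm_num) (by norm_num) (by norm_num) (by norm_num) (by norm_num) (by norm_num) (by norm_num) (by norm_num) (by norm_num) (by norm_num) (by norm_num) (by norm_num) (by norm_num) (by norm_num) (by norm_num)
    (exp_neg_leJ (r := 0.412) 7 (by norm_num) (by norm_num) (by norm_num) (by norm_num))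
    (exp_neg_leJ (r := 0.914) 5 (by norm_num) (by norm_num) (by norm_num) (by norm_num))
    (exp_neg_leJ (r := 0.99) 14 (by norm_num) (by norm_num) (by norm_num) (by norm_num))
    (exp_neg_leJ (r := 0.99) 14 (by norm_num) (by norm_num) (by norm_num) (by norm_num))
    (exp_neg_leJ (r := 0.384) 7 (by norm_num) (by norm_num) (by norm_num) (by norm_num))
    (exp_neg_leJ (r := 0.212) 12 (by norm_num) (by norm_num) (by norm_num) (by norm_num))
    (exp_neg_leJ (r := 0.99) 14 (by norm_num) (by norm_num) (by norm_num) (by norm_num))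
    (exp_neg_leJ (r := 0.99) 14 (by norm_num) (by norm_num) (by norm_num) (by norm_num))
    (by norm_num)) (by norm_num) hN hβ.le (by norm_num)

private theorem JB7_k1a_b0_2 {β x y : ℝ} (hβ : 0 < β) (hN : β * 18.518 ≤ 1) (hx1 : 0.0967 ≤ x) (hx2 : x ≤ 0.4099)
    (hy1 : -0 ≤ y) (hy2 : y ≤ 0.199) : ‖HH β (x + y * I) - 1‖ ≤ 0.03 := by
  refine le_epsJ (C := 0.5389) (N0 := 18.518) (J_boxp 0.0967 0.4099 0 0.199 0.199 0.7781 0.4557 1.2672 1.6401 0.4491 4.3033 18.518 0.5857 2.139 1.298 1.2624 0.389 0.313 1.0413 3.8547 0.3817 0.6135 0.9105 2.729 0.0007444 0.003044 0.0000003101 0.0000003101 0.000852 0.00001166 0.0000003101 0.0000003101 0.5389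
    hβ hN hx1 hx2 hy1 hy2 (by norm_num) (by norm_num) (by linarith) (by norm_num) (by norm_num) (by norm_num) (by norm_num) (by norm_num) (by norm_num) (by norm_num) (by norm_num) (by norm_num) (by norm_num) (by norm_num) (by norm_num) (by norm_num) (by norm_num) (by norm_num) (by norm_num) (by norm_num) (by norm_num) (by norm_num) (by norm_num) (by norm_num)
    (cube_sqrt_geJ (s := 0.897) (by norm_num) (by norm_num) (by norm_num) (by norm_num))
    (cube_sqrt_geJ (s := 0.9634) (by norm_num) (by norm_num) (by norm_num) (by norm_num))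
    (by norm_num) (by norm_num) (by norm_num) (by norm_num) (by norm_num) (by norm_num) (by norm_num) (by norm_num) (by norm_num) (by norm_num) (by norm_num) (by norm_num) (by norm_num) (by norm_num) (by norm_num) (by norm_num) (by norm_num) (by norm_num)
    (exp_neg_leJ (r := 0.203) 7 (by norm_num) (by norm_num) (by norm_num) (by norm_num))
    (exp_neg_leJ (r := 0.796) 5 (by norm_num) (by norm_num) (by norm_num) (by norm_num))
    (exp_neg_leJ (r := 0.99) 14 (by norm_num) (by norm_num) (by norm_num) (by norm_num))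
    (exp_neg_leJ (r := 0.99) 14 (by norm_num) (by norm_num) (by norm_num) (by norm_num))
    (exp_neg_leJ (r := 0.068) 7 (by norm_num) (by norm_num) (by norm_num) (by norm_num))
    (exp_neg_leJ (r := 0.36) 11 (by norm_num) (by norm_num) (by norm_num) (by norm_num))
    (exp_neg_leJ (r := 0.99) 14 (by norm_num) (by norm_num) (by norm_num) (by norm_num))
    (exp_neg_leJ (r := 0.99) 14 (by norm_num) (by norm_num) (by norm_num) (by norm_num))
    (by norm_num)) (by norm_num) hN hβ.le (by norm_num)

private theorem JB7_k1a_b0_3 {β x y : ℝ} (hβ : 0 < β) (hN : β * 18.518 ≤ 1) (hx1 : 0.0886 ≤ x) (hx2 : x ≤ 0.3953)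
    (hy1 : -0 ≤ y) (hy2 : y ≤ 0.202) : ‖HH β (x + y * I) - 1‖ ≤ 0.03 := by
  refine le_epsJ (C := 0.5307) (N0 := 18.518) (J_boxp 0.0886 0.3953 0 0.202 0.202 0.7724 0.444 1.2654 1.6572 0.4488 4.3033 18.518 0.5749 2.106 1.292 1.268 0.3861 0.3121 1.0386 3.8624 0.3774 0.602 0.8815 2.7305 0.0007857 0.003096 0.0000003101 0.0000003101 0.0009262 0.00001442 0.0000003101 0.0000003101 0.5307
    hβ hN hx1 hx2 hy1 hy2 (by norm_num) (by norm_num) (by linarith) (by norm_num) (by norm_num) (by norm_num) (by norm_num) (by norm_num) (by norm_num) (by norm_num) (by norm_num) (by norm_num) (by norm_num) (by norm_num) (by norm_num) (by norm_num) (by norm_num) (by norm_num) (by norm_num) (by norm_num) (by norm_num) (by norm_num) (by norm_num) (by norm_num)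
    (cube_sqrt_geJ (s := 0.899) (by norm_num) (by norm_num) (by norm_num) (by norm_num))
    (cube_sqrt_geJ (s := 0.9641) (by norm_num) (by norm_num) (by norm_num) (by norm_num))
    (by norm_num) (by norm_num) (by norm_num) (by norm_num) (by norm_num) (by norm_num) (by norm_num) (by norm_num) (by norm_num) (by norm_num) (by norm_num) (by norm_num) (by norm_num) (by norm_num) (by norm_num) (by norm_num) (by norm_num) (by norm_num)
    (exp_neg_leJ (r := 0.149) 7 (by norm_num) (by norm_num) (by norm_num) (by norm_num))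
    (exp_neg_leJ (r := 0.779) 5 (by norm_num) (by norm_num) (by norm_num) (by norm_num))
    (exp_neg_leJ (r := 0.99) 14 (by norm_num) (by norm_num) (by norm_num) (by norm_num))
    (exp_neg_leJ (r := 0.99) 14 (by norm_num) (by norm_num) (by norm_num) (by norm_num))
    (exp_neg_leJ (r := 0.988) 6 (by norm_num) (by norm_num) (by norm_num) (by norm_num))
    (exp_neg_leJ (r := 0.147) 11 (by norm_num) (by norm_num) (by norm_num) (by norm_num))
    (exp_neg_leJ (r := 0.99) 14 (by norm_num) (by norm_num) (by norm_num) (by norm_num))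
    (exp_neg_leJ (r := 0.99) 14 (by norm_num) (by norm_num) (by norm_num) (by norm_num))
    (by norm_num)) (by norm_num) hN hβ.le (by norm_num)

theorem JB7_k1a_c0 {κ t β : ℝ} (h : DomR κ t) (hβ : 0 < β) (hk1 : 0.27 ≤ κ) (hk2 : κ ≤ 0.54)
    (ht1 : 0.04 ≤ t + κ) (ht2 : t + κ ≤ 0.62) (hR0 : β * 10 ≤ κ) (hR : β * (6.75 * (1 + κ ^ 2)) ≤ κ) :
    ‖HH β (sg κ t) - 1‖ ≤ 0.03 := by
  have hN : β * 18.518 ≤ 1 := bNR hβ h.1 hk2 hR0 (by norm_num)
  have hy1 : 0.009 ≤ sy κ t := syR_ge h 0.27 0.54 0.04 0.009 1.00904 1.00905 0.01681 0.03364 hk1 hk2 (by linarith) (by norm_num) (by norm_num)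
    (expn_ge (by norm_num) (by norm_num)) (expn_le (by norm_num) (by norm_num) (by norm_num)) (by norm_num)
    (by norm_num) (by norm_num) (by norm_num) (by norm_num) (by norm_num) (by norm_num)
  have hy2 : sy κ t ≤ 0.202 := syR_le h 0.27 0.54 0.62 0.202 1.22384 0.4577 0.4578 0.91563 hk1 hk2 (by linarith) (by norm_num) (by norm_num)
    (expn_ge (by norm_num) (by norm_num)) (by norm_num) (by norm_num) (Or.inr ((mul_le_mul_of_nonneg_left (expn_le (E := 1.22385) (by norm_num) (by norm_num) (by norm_num)) (by norm_num)).trans (by norm_num))) (by norm_num) (by norm_num) (by norm_num)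
  rcases le_total (sy κ t) 0.139 with f0 | g0
  · have hx1 : 0.1894 ≤ sx κ t := sx_lo h 0.27 0.139 0.139 0.87022 0.1894 hk1 (by norm_num) f0 (abs_le.2 ⟨by linarith, by linarith⟩) (expm_ge (by norm_num) (by norm_num) (by norm_num) (by norm_num)) (by norm_num) (by norm_num)
    have hx2 : sx κ t ≤ 0.5351 := sx_hi h 0.54 0.009 0.009 0.99105 0.5351 hk2 hy1 (by norm_num) (by rw [abs_of_nonneg (by linarith)]; linarith) (expm_le (by norm_num) (by norm_num) (by norm_num)) (by norm_num) (by norm_num)
    exact JB7_k1a_b0_0 hβ hN hx1 hx2 (by linarith) (by linarith)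
  rcases le_total (sy κ t) 0.184 with f1 | g1
  · have hx1 : 0.1288 ≤ sx κ t := sx_lo h 0.27 0.184 0.184 0.83193 0.1288 hk1 (by norm_num) f1 (abs_le.2 ⟨by linarith, by linarith⟩) (expm_ge (by norm_num) (by norm_num) (by norm_num) (by norm_num)) (by norm_num) (by norm_num)
    have hx2 : sx κ t ≤ 0.4489 := sx_hi h 0.54 0.139 0.139 0.87023 0.4489 hk2 g0 (by norm_num) (by rw [abs_of_nonneg (by linarith)]; linarith) (expm_le (by norm_num) (by norm_num) (by norm_num)) (by norm_num) (by norm_num)
    exact JB7_k1a_b0_1 hβ hN hx1 hx2 (by linarith) (by linarith)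
  rcases le_total (sy κ t) 0.199 with f2 | g2
  · have hx1 : 0.0967 ≤ sx κ t := sx_lo h 0.27 0.199 0.199 0.81954 0.0967 hk1 (by norm_num) f2 (abs_le.2 ⟨by linarith, by linarith⟩) (expm_ge (by norm_num) (by norm_num) (by norm_num) (by norm_num)) (by norm_num) (by norm_num)
    have hx2 : sx κ t ≤ 0.4099 := sx_hi h 0.54 0.184 0.184 0.83194 0.4099 hk2 g1 (by norm_num) (by rw [abs_of_nonneg (by linarith)]; linarith) (expm_le (by norm_num) (by norm_num) (by norm_num)) (by norm_num) (by norm_num)
    exact JB7_k1a_b0_2 hβ hN hx1 hx2 (by linarith) (by linarith)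
  have hx1 : 0.0886 ≤ sx κ t := sx_lo h 0.27 0.202 0.202 0.81709 0.0886 hk1 (by norm_num) hy2 (abs_le.2 ⟨by linarith, by linarith⟩) (expm_ge (by norm_num) (by norm_num) (by norm_num) (by norm_num)) (by norm_num) (by norm_num)
  have hx2 : sx κ t ≤ 0.3953 := sx_hi h 0.54 0.199 0.199 0.81955 0.3953 hk2 g2 (by norm_num) (by rw [abs_of_nonneg (by linarith)]; linarith) (expm_le (by norm_num) (by norm_num) (by norm_num)) (by norm_num) (by norm_num)
  exact JB7_k1a_b0_3 hβ hN hx1 hx2 (by linarith) (by linarith)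

private theorem JB7_k1a_b1_0 {β x y : ℝ} (hβ : 0 < β) (hN : β * 14.299 ≤ 1) (hx1 : 0.4879 ≤ x) (hx2 : x ≤ 0.6986)
    (hy1 : -0 ≤ y) (hy2 : y ≤ 0.086) : ‖HH β (x + y * I) - 1‖ ≤ 0.03 := by
  refine le_epsJ (C := 0.4243) (N0 := 14.299) (J_boxp 0.4879 0.6986 0 0.086 0.086 1.0536 0.7039 1.2913 1.0508 0.4534 3.7815 14.299 0.6681 2.416 1.349 1.1514 0.5267 0.4094 1.1752 3.6987 0.5832 1.1667 2.1776 3.3692 0.0005364 0.002874 0.0000003101 0.0000003101 0.0002391 0.0000003101 0.0000003101 0.0000003101 0.4243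
    hβ hN hx1 hx2 hy1 hy2 (by norm_num) (by norm_num) (by linarith) (by norm_num) (by norm_num) (by norm_num) (by norm_num) (by norm_num) (by norm_num) (by norm_num) (by norm_num) (by norm_num) (by norm_num) (by norm_num) (by norm_num) (by norm_num) (by norm_num) (by norm_num) (by norm_num) (by norm_num) (by norm_num) (by norm_num) (by norm_num) (by norm_num)
    (cube_sqrt_geJ (s := 0.8816) (by norm_num) (by norm_num) (by norm_num) (by norm_num))
    (cube_sqrt_geJ (s := 0.9582) (by norm_num) (by norm_num) (by norm_num) (by norm_num))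
    (by norm_num) (by norm_num) (by norm_num) (by norm_num) (by norm_num) (by norm_num) (by norm_num) (by norm_num) (by norm_num) (by norm_num) (by norm_num) (by norm_num) (by norm_num) (by norm_num) (by norm_num) (by norm_num) (by norm_num) (by norm_num)
    (exp_neg_leJ (r := 0.531) 7 (by norm_num) (by norm_num) (by norm_num) (by norm_num))
    (exp_neg_leJ (r := 0.854) 5 (by norm_num) (by norm_num) (by norm_num) (by norm_num))
    (exp_neg_leJ (r := 0.99) 14 (by norm_num) (by norm_num) (by norm_num) (by norm_num))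
    (exp_neg_leJ (r := 0.99) 14 (by norm_num) (by norm_num) (by norm_num) (by norm_num))
    (exp_neg_leJ (r := 0.339) 8 (by norm_num) (by norm_num) (by norm_num) (by norm_num))
    (exp_neg_leJ (r := 0.99) 14 (by norm_num) (by norm_num) (by norm_num) (by norm_num))
    (exp_neg_leJ (r := 0.99) 14 (by norm_num) (by norm_num) (by norm_num) (by norm_num))
    (exp_neg_leJ (r := 0.99) 14 (by norm_num) (by norm_num) (by norm_num) (by norm_num))
    (by norm_num)) (by norm_num) hN hβ.le (by norm_num)

private theorem JB7_k1a_b1_1 {β x y : ℝ} (hβ : 0 < β) (hN : β * 14.299 ≤ 1) (hx1 : 0.4472 ≤ x) (hx2 : x ≤ 0.6458)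
    (hy1 : -0 ≤ y) (hy2 : y ≤ 0.141) : ‖HH β (x + y * I) - 1‖ ≤ 0.03 := by
  refine le_epsJ (C := 0.4229) (N0 := 14.299) (J_boxp 0.4472 0.6458 0 0.141 0.141 1.0249 0.6611 1.3111 1.1036 0.4569 3.7815 14.299 0.6451 2.334 1.334 1.1717 0.5124 0.4022 1.1613 3.7266 0.5578 1.1048 1.8603 3.145 0.0006583 0.003184 0.0000003101 0.0000003101 0.0003451 0.0000003101 0.0000003101 0.0000003101 0.4229
    hβ hN hx1 hx2 hy1 hy2 (by norm_num) (by norm_num) (by linarith) (by norm_num) (by norm_num) (by norm_num) (by norm_num) (by norm_num) (by norm_num) (by norm_num) (by norm_num) (by norm_num) (by norm_num) (by norm_num) (by norm_num) (by norm_num) (by norm_num) (by norm_num) (by norm_num) (by norm_num) (by norm_num) (by norm_num) (by norm_num) (by norm_num)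
    (cube_sqrt_geJ (s := 0.8859) (by norm_num) (by norm_num) (by norm_num) (by norm_num))
    (cube_sqrt_geJ (s := 0.9596) (by norm_num) (by norm_num) (by norm_num) (by norm_num))
    (by norm_num) (by norm_num) (by norm_num) (by norm_num) (by norm_num) (by norm_num) (by norm_num) (by norm_num) (by norm_num) (by norm_num) (by norm_num) (by norm_num) (by norm_num) (by norm_num) (by norm_num) (by norm_num) (by norm_num) (by norm_num)
    (exp_neg_leJ (r := 0.326) 7 (by norm_num) (by norm_num) (by norm_num) (by norm_num))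
    (exp_neg_leJ (r := 0.751) 5 (by norm_num) (by norm_num) (by norm_num) (by norm_num))
    (exp_neg_leJ (r := 0.99) 14 (by norm_num) (by norm_num) (by norm_num) (by norm_num))
    (exp_neg_leJ (r := 0.99) 14 (by norm_num) (by norm_num) (by norm_num) (by norm_num))
    (exp_neg_leJ (r := 0.975) 7 (by norm_num) (by norm_num) (by norm_num) (by norm_num))
    (exp_neg_leJ (r := 0.99) 14 (by norm_num) (by norm_num) (by norm_num) (by norm_num))
    (exp_neg_leJ (r := 0.99) 14 (by norm_num) (by norm_num) (by norm_num) (by norm_num))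
    (exp_neg_leJ (r := 0.99) 14 (by norm_num) (by norm_num) (by norm_num) (by norm_num))
    (by norm_num)) (by norm_num) hN hβ.le (by norm_num)

private theorem JB7_k1a_b1_2 {β x y : ℝ} (hβ : 0 < β) (hN : β * 14.299 ≤ 1) (hx1 : 0.4126 ≤ x) (hx2 : x ≤ 0.6003)
    (hy1 : -0 ≤ y) (hy2 : y ≤ 0.181) : ‖HH β (x + y * I) - 1‖ ≤ 0.03 := by
  refine le_epsJ (C := 0.4243) (N0 := 14.299) (J_boxp 0.4126 0.6003 0 0.181 0.181 1.0005 0.627 1.3249 1.1502 0.4592 3.7815 14.299 0.6267 2.271 1.323 1.1892 0.5002 0.3957 1.1495 3.7498 0.5369 1.0528 1.6195 2.98 0.0007834 0.003492 0.0000003101 0.0000003101 0.0004637 0.0000003101 0.0000003101 0.0000003101 0.4243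
    hβ hN hx1 hx2 hy1 hy2 (by norm_num) (by norm_num) (by linarith) (by norm_num) (by norm_num) (by norm_num) (by norm_num) (by norm_num) (by norm_num) (by norm_num) (by norm_num) (by norm_num) (by norm_num) (by norm_num) (by norm_num) (by norm_num) (by norm_num) (by norm_num) (by norm_num) (by norm_num) (by norm_num) (by norm_num) (by norm_num) (by norm_num)
    (cube_sqrt_geJ (s := 0.8894) (by norm_num) (by norm_num) (by norm_num) (by norm_num))
    (cube_sqrt_geJ (s := 0.9608) (by norm_num) (by norm_num) (by norm_num) (by norm_num))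
    (by norm_num) (by norm_num) (by norm_num) (by norm_num) (by norm_num) (by norm_num) (by norm_num) (by norm_num) (by norm_num) (by norm_num) (by norm_num) (by norm_num) (by norm_num) (by norm_num) (by norm_num) (by norm_num) (by norm_num) (by norm_num)
    (exp_neg_leJ (r := 0.152) 7 (by norm_num) (by norm_num) (by norm_num) (by norm_num))
    (exp_neg_leJ (r := 0.658) 5 (by norm_num) (by norm_num) (by norm_num) (by norm_num))
    (exp_neg_leJ (r := 0.99) 14 (by norm_num) (by norm_num) (by norm_num) (by norm_num))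
    (exp_neg_leJ (r := 0.99) 14 (by norm_num) (by norm_num) (by norm_num) (by norm_num))
    (exp_neg_leJ (r := 0.677) 7 (by norm_num) (by norm_num) (by norm_num) (by norm_num))
    (exp_neg_leJ (r := 0.99) 14 (by norm_num) (by norm_num) (by norm_num) (by norm_num))
    (exp_neg_leJ (r := 0.99) 14 (by norm_num) (by norm_num) (by norm_num) (by norm_num))
    (exp_neg_leJ (r := 0.99) 14 (by norm_num) (by norm_num) (by norm_num) (by norm_num))
    (by norm_num)) (by norm_num) hN hβ.le (by norm_num)

private theorem JB7_k1a_b1_3 {β x y : ℝ} (hβ : 0 < β) (hN : β * 14.299 ≤ 1) (hx1 : 0.3881 ≤ x) (hx2 : x ≤ 0.5642)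
    (hy1 : -0 ≤ y) (hy2 : y ≤ 0.206) : ‖HH β (x + y * I) - 1‖ ≤ 0.03 := by
  refine le_epsJ (C := 0.4221) (N0 := 14.299) (J_boxp 0.3881 0.5642 0 0.206 0.206 0.9833 0.6007 1.3315 1.1835 0.4604 3.7815 14.299 0.611 2.22 1.313 1.2031 0.4916 0.3915 1.1411 3.768 0.5225 1.0163 1.4633 2.8847 0.0008859 0.003707 0.0000003101 0.0000003101 0.0005695 0.0000004886 0.0000003101 0.0000003101 0.4221
    hβ hN hx1 hx2 hy1 hy2 (by norm_num) (by norm_num) (by linarith) (by norm_num) (by norm_num) (by norm_num) (by norm_num) (by norm_num) (by norm_num) (by norm_num) (by norm_num) (by norm_num) (by norm_num) (by norm_num) (by norm_num) (by norm_num) (by norm_num) (by norm_num) (by norm_num) (by norm_num) (by norm_num) (by norm_num) (by norm_num) (by norm_num)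
    (cube_sqrt_geJ (s := 0.8923) (by norm_num) (by norm_num) (by norm_num) (by norm_num))
    (cube_sqrt_geJ (s := 0.9618) (by norm_num) (by norm_num) (by norm_num) (by norm_num))
    (by norm_num) (by norm_num) (by norm_num) (by norm_num) (by norm_num) (by norm_num) (by norm_num) (by norm_num) (by norm_num) (by norm_num) (by norm_num) (by norm_num) (by norm_num) (by norm_num) (by norm_num) (by norm_num) (by norm_num) (by norm_num)
    (exp_neg_leJ (r := 0.029) 7 (by norm_num) (by norm_num) (by norm_num) (by norm_num))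
    (exp_neg_leJ (r := 0.598) 5 (by norm_num) (by norm_num) (by norm_num) (by norm_num))
    (exp_neg_leJ (r := 0.99) 14 (by norm_num) (by norm_num) (by norm_num) (by norm_num))
    (exp_neg_leJ (r := 0.99) 14 (by norm_num) (by norm_num) (by norm_num) (by norm_num))
    (exp_neg_leJ (r := 0.471) 7 (by norm_num) (by norm_num) (by norm_num) (by norm_num))
    (exp_neg_leJ (r := 0.532) 14 (by norm_num) (by norm_num) (by norm_num) (by norm_num))
    (exp_neg_leJ (r := 0.99) 14 (by norm_num) (by norm_num) (by norm_num) (by norm_num))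
    (exp_neg_leJ (r := 0.99) 14 (by norm_num) (by norm_num) (by norm_num) (by norm_num))
    (by norm_num)) (by norm_num) hN hβ.le (by norm_num)

private theorem JB7_k1a_b1_4 {β x y : ℝ} (hβ : 0 < β) (hN : β * 14.299 ≤ 1) (hx1 : 0.3722 ≤ x) (hx2 : x ≤ 0.5399)
    (hy1 : -0 ≤ y) (hy2 : y ≤ 0.221) : ‖HH β (x + y * I) - 1‖ ≤ 0.03 := by
  refine le_epsJ (C := 0.4204) (N0 := 14.299) (J_boxp 0.3722 0.5399 0 0.221 0.221 0.9721 0.5834 1.3351 1.2056 0.461 3.7815 14.299 0.6002 2.185 1.307 1.2124 0.486 0.3888 1.1356 3.7802 0.5132 0.9928 1.3672 2.8292 0.0009625 0.003854 0.0000003101 0.0000003101 0.0006504 0.0000006836 0.0000003101 0.0000003101 0.4204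
    hβ hN hx1 hx2 hy1 hy2 (by norm_num) (by norm_num) (by linarith) (by norm_num) (by norm_num) (by norm_num) (by norm_num) (by norm_num) (by norm_num) (by norm_num) (by norm_num) (by norm_num) (by norm_num) (by norm_num) (by norm_num) (by norm_num) (by norm_num) (by norm_num) (by norm_num) (by norm_num) (by norm_num) (by norm_num) (by norm_num) (by norm_num)
    (cube_sqrt_geJ (s := 0.8943) (by norm_num) (by norm_num) (by norm_num) (by norm_num))
    (cube_sqrt_geJ (s := 0.9625) (by norm_num) (by norm_num) (by norm_num) (by norm_num))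
    (by norm_num) (by norm_num) (by norm_num) (by norm_num) (by norm_num) (by norm_num) (by norm_num) (by norm_num) (by norm_num) (by norm_num) (by norm_num) (by norm_num) (by norm_num) (by norm_num) (by norm_num) (by norm_num) (by norm_num) (by norm_num)
    (exp_neg_leJ (r := 0.949) 6 (by norm_num) (by norm_num) (by norm_num) (by norm_num))
    (exp_neg_leJ (r := 0.559) 5 (by norm_num) (by norm_num) (by norm_num) (by norm_num))
    (exp_neg_leJ (r := 0.99) 14 (by norm_num) (by norm_num) (by norm_num) (by norm_num))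
    (exp_neg_leJ (r := 0.99) 14 (by norm_num) (by norm_num) (by norm_num) (by norm_num))
    (exp_neg_leJ (r := 0.338) 7 (by norm_num) (by norm_num) (by norm_num) (by norm_num))
    (exp_neg_leJ (r := 0.196) 14 (by norm_num) (by norm_num) (by norm_num) (by norm_num))
    (exp_neg_leJ (r := 0.99) 14 (by norm_num) (by norm_num) (by norm_num) (by norm_num))
    (exp_neg_leJ (r := 0.99) 14 (by norm_num) (by norm_num) (by norm_num) (by norm_num))
    (by norm_num)) (by norm_num) hN hβ.le (by norm_num)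

private theorem JB7_k1a_b1_5 {β x y : ℝ} (hβ : 0 < β) (hN : β * 14.299 ≤ 1) (hx1 : 0.3598 ≤ x) (hx2 : x ≤ 0.5246)
    (hy1 : -0 ≤ y) (hy2 : y ≤ 0.232) : ‖HH β (x + y * I) - 1‖ ≤ 0.03 := by
  refine le_epsJ (C := 0.4243) (N0 := 14.299) (J_boxp 0.3598 0.5246 0 0.232 0.232 0.9634 0.5737 1.3391 1.2238 0.4617 3.7815 14.299 0.5955 2.17 1.304 1.2183 0.4816 0.386 1.1314 3.7875 0.5061 0.9745 1.2952 2.779 0.001025 0.004011 0.0000003101 0.0000003101 0.0007202 0.0000008908 0.0000003101 0.0000003101 0.4243
    hβ hN hx1 hx2 hy1 hy2 (by norm_num) (by norm_num) (by linarith) (by norm_num) (by norm_num) (by norm_num) (by norm_num) (by norm_num) (by norm_num) (by norm_num) (by norm_num) (by norm_num) (by norm_num) (by norm_num) (by norm_num) (by norm_num) (by norm_num) (by norm_num) (by norm_num) (by norm_num) (by norm_num) (by norm_num) (by norm_num) (by norm_num)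
    (cube_sqrt_geJ (s := 0.8952) (by norm_num) (by norm_num) (by norm_num) (by norm_num))
    (cube_sqrt_geJ (s := 0.9628) (by norm_num) (by norm_num) (by norm_num) (by norm_num))
    (by norm_num) (by norm_num) (by norm_num) (by norm_num) (by norm_num) (by norm_num) (by norm_num) (by norm_num) (by norm_num) (by norm_num) (by norm_num) (by norm_num) (by norm_num) (by norm_num) (by norm_num) (by norm_num) (by norm_num) (by norm_num)
    (exp_neg_leJ (r := 0.886) 6 (by norm_num) (by norm_num) (by norm_num) (by norm_num))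
    (exp_neg_leJ (r := 0.519) 5 (by norm_num) (by norm_num) (by norm_num) (by norm_num))
    (exp_neg_leJ (r := 0.99) 14 (by norm_num) (by norm_num) (by norm_num) (by norm_num))
    (exp_neg_leJ (r := 0.99) 14 (by norm_num) (by norm_num) (by norm_num) (by norm_num))
    (exp_neg_leJ (r := 0.236) 7 (by norm_num) (by norm_num) (by norm_num) (by norm_num))
    (exp_neg_leJ (r := 0.934) 13 (by norm_num) (by norm_num) (by norm_num) (by norm_num))
    (exp_neg_leJ (r := 0.99) 14 (by norm_num) (by norm_num) (by norm_num) (by norm_num))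
    (exp_neg_leJ (r := 0.99) 14 (by norm_num) (by norm_num) (by norm_num) (by norm_num))
    (by norm_num)) (by norm_num) hN hβ.le (by norm_num)

theorem JB7_k1a_c1 {κ t β : ℝ} (h : DomR κ t) (hβ : 0 < β) (hk1 : 0.54 ≤ κ) (hk2 : κ ≤ 0.71)
    (ht1 : 0.04 ≤ t + κ) (ht2 : t + κ ≤ 0.62) (hR0 : β * 10 ≤ κ) (hR : β * (6.75 * (1 + κ ^ 2)) ≤ κ) :
    ‖HH β (sg κ t) - 1‖ ≤ 0.03 := by
  have hN : β * 14.299 ≤ 1 := bNC hβ h.1 hk2 (by norm_num) (by norm_num) hR (by norm_num)
  have hy1 : 0.016 ≤ sy κ t := syR_ge h 0.54 0.71 0.04 0.016 1.01612 1.01613 0.02289 0.03011 hk1 hk2 (by linarith) (by norm_num) (by norm_num)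
    (expn_ge (by norm_num) (by norm_num)) (expn_le (by norm_num) (by norm_num) (by norm_num)) (by norm_num)
    (by norm_num) (by norm_num) (by norm_num) (by norm_num) (by norm_num) (by norm_num)
  have hy2 : sy κ t ≤ 0.232 := syR_le h 0.54 0.71 0.62 0.232 1.26111 0.4012 0.41208 0.54182 hk1 hk2 (by linarith) (by norm_num) (by norm_num)
    (expn_ge (by norm_num) (by norm_num)) (by norm_num) (by norm_num) (Or.inr ((mul_le_mul_of_nonneg_left (expn_le (E := 1.26112) (by norm_num) (by norm_num) (by norm_num)) (by norm_num)).trans (by norm_num))) (by norm_num) (by norm_num) (by norm_num)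
  rcases le_total (sy κ t) 0.086 with f0 | g0
  · have hx1 : 0.4879 ≤ sx κ t := sx_lo h 0.54 0.086 0.086 0.91759 0.4879 hk1 (by norm_num) f0 (abs_le.2 ⟨by linarith, by linarith⟩) (expm_ge (by norm_num) (by norm_num) (by norm_num) (by norm_num)) (by norm_num) (by norm_num)
    have hx2 : sx κ t ≤ 0.6986 := sx_hi h 0.71 0.016 0.016 0.98413 0.6986 hk2 hy1 (by norm_num) (by rw [abs_of_nonneg (by linarith)]; linarith) (expm_le (by norm_num) (by norm_num) (by norm_num)) (by norm_num) (by norm_num)
    exact JB7_k1a_b1_0 hβ hN hx1 hx2 (by linarith) (by linarith)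
  rcases le_total (sy κ t) 0.141 with f1 | g1
  · have hx1 : 0.4472 ≤ sx κ t := sx_lo h 0.54 0.141 0.141 0.86848 0.4472 hk1 (by norm_num) f1 (abs_le.2 ⟨by linarith, by linarith⟩) (expm_ge (by norm_num) (by norm_num) (by norm_num) (by norm_num)) (by norm_num) (by norm_num)
    have hx2 : sx κ t ≤ 0.6458 := sx_hi h 0.71 0.086 0.086 0.9176 0.6458 hk2 g0 (by norm_num) (by rw [abs_of_nonneg (by linarith)]; linarith) (expm_le (by norm_num) (by norm_num) (by norm_num)) (by norm_num) (by norm_num)
    exact JB7_k1a_b1_1 hβ hN hx1 hx2 (by linarith) (by linarith)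
  rcases le_total (sy κ t) 0.181 with f2 | g2
  · have hx1 : 0.4126 ≤ sx κ t := sx_lo h 0.54 0.181 0.181 0.83443 0.4126 hk1 (by norm_num) f2 (abs_le.2 ⟨by linarith, by linarith⟩) (expm_ge (by norm_num) (by norm_num) (by norm_num) (by norm_num)) (by norm_num) (by norm_num)
    have hx2 : sx κ t ≤ 0.6003 := sx_hi h 0.71 0.141 0.141 0.86849 0.6003 hk2 g1 (by norm_num) (by rw [abs_of_nonneg (by linarith)]; linarith) (expm_le (by norm_num) (by norm_num) (by norm_num)) (by norm_num) (by norm_num)
    exact JB7_k1a_b1_2 hβ hN hx1 hx2 (by linarith) (by linarith)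
  rcases le_total (sy κ t) 0.206 with f3 | g3
  · have hx1 : 0.3881 ≤ sx κ t := sx_lo h 0.54 0.206 0.206 0.81383 0.3881 hk1 (by norm_num) f3 (abs_le.2 ⟨by linarith, by linarith⟩) (expm_ge (by norm_num) (by norm_num) (by norm_num) (by norm_num)) (by norm_num) (by norm_num)
    have hx2 : sx κ t ≤ 0.5642 := sx_hi h 0.71 0.181 0.181 0.83444 0.5642 hk2 g2 (by norm_num) (by rw [abs_of_nonneg (by linarith)]; linarith) (expm_le (by norm_num) (by norm_num) (by norm_num)) (by norm_num) (by norm_num)
    exact JB7_k1a_b1_3 hβ hN hx1 hx2 (by linarith) (by linarith)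
  rcases le_total (sy κ t) 0.221 with f4 | g4
  · have hx1 : 0.3722 ≤ sx κ t := sx_lo h 0.54 0.221 0.221 0.80171 0.3722 hk1 (by norm_num) f4 (abs_le.2 ⟨by linarith, by linarith⟩) (expm_ge (by norm_num) (by norm_num) (by norm_num) (by norm_num)) (by norm_num) (by norm_num)
    have hx2 : sx κ t ≤ 0.5399 := sx_hi h 0.71 0.206 0.206 0.81384 0.5399 hk2 g3 (by norm_num) (by rw [abs_of_nonneg (by linarith)]; linarith) (expm_le (by norm_num) (by norm_num) (by norm_num)) (by norm_num) (by norm_num)
    exact JB7_k1a_b1_4 hβ hN hx1 hx2 (by linarith) (by linarith)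
  have hx1 : 0.3598 ≤ sx κ t := sx_lo h 0.54 0.232 0.232 0.79294 0.3598 hk1 (by norm_num) hy2 (abs_le.2 ⟨by linarith, by linarith⟩) (expm_ge (by norm_num) (by norm_num) (by norm_num) (by norm_num)) (by norm_num) (by norm_num)
  have hx2 : sx κ t ≤ 0.5246 := sx_hi h 0.71 0.221 0.221 0.80172 0.5246 hk2 g4 (by norm_num) (by rw [abs_of_nonneg (by linarith)]; linarith) (expm_le (by norm_num) (by norm_num) (by norm_num)) (by norm_num) (by norm_num)
  exact JB7_k1a_b1_5 hβ hN hx1 hx2 (by linarith) (by linarith)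

private theorem JB7_k1a_b2_0 {β x y : ℝ} (hβ : 0 < β) (hN : β * 13.705 ≤ 1) (hx1 : 0.652 ≤ x) (hx2 : x ≤ 0.8249)
    (hy1 : -0 ≤ y) (hy2 : y ≤ 0.078) : ‖HH β (x + y * I) - 1‖ ≤ 0.03 := by
  refine le_epsJ (C := 0.4076) (N0 := 13.705) (J_boxp 0.652 0.8249 0 0.078 0.078 1.1691 0.8286 1.3575 0.9218 0.4649 3.7021 13.705 0.7088 2.569 1.375 1.1028 0.5845 0.4464 1.2314 3.6261 0.6637 1.3948 2.5401 3.3961 0.0003322 0.002206 0.0000003101 0.0000003101 0.0001122 0.0000003101 0.0000003101 0.0000003101 0.4076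
    hβ hN hx1 hx2 hy1 hy2 (by norm_num) (by norm_num) (by linarith) (by norm_num) (by norm_num) (by norm_num) (by norm_num) (by norm_num) (by norm_num) (by norm_num) (by norm_num) (by norm_num) (by norm_num) (by norm_num) (by norm_num) (by norm_num) (by norm_num) (by norm_num) (by norm_num) (by norm_num) (by norm_num) (by norm_num) (by norm_num) (by norm_num)
    (cube_sqrt_geJ (s := 0.8739) (by norm_num) (by norm_num) (by norm_num) (by norm_num))
    (cube_sqrt_geJ (s := 0.9556) (by norm_num) (by norm_num) (by norm_num) (by norm_num))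
    (by norm_num) (by norm_num) (by norm_num) (by norm_num) (by norm_num) (by norm_num) (by norm_num) (by norm_num) (by norm_num) (by norm_num) (by norm_num) (by norm_num) (by norm_num) (by norm_num) (by norm_num) (by norm_num) (by norm_num) (by norm_num)
    (exp_neg_leJ (r := 0.01) 8 (by norm_num) (by norm_num) (by norm_num) (by norm_num))
    (exp_neg_leJ (r := 0.117) 6 (by norm_num) (by norm_num) (by norm_num) (by norm_num))
    (exp_neg_leJ (r := 0.99) 14 (by norm_num) (by norm_num) (by norm_num) (by norm_num))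
    (exp_neg_leJ (r := 0.99) 14 (by norm_num) (by norm_num) (by norm_num) (by norm_num))
    (exp_neg_leJ (r := 0.096) 9 (by norm_num) (by norm_num) (by norm_num) (by norm_num))
    (exp_neg_leJ (r := 0.99) 14 (by norm_num) (by norm_num) (by norm_num) (by norm_num))
    (exp_neg_leJ (r := 0.99) 14 (by norm_num) (by norm_num) (by norm_num) (by norm_num))
    (exp_neg_leJ (r := 0.99) 14 (by norm_num) (by norm_num) (by norm_num) (by norm_num))
    (by norm_num)) (by norm_num) hN hβ.le (by norm_num)

private theorem JB7_k1a_b2_1 {β x y : ℝ} (hβ : 0 < β) (hN : β * 13.705 ≤ 1) (hx1 : 0.6071 ≤ x) (hx2 : x ≤ 0.7731)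
    (hy1 : -0 ≤ y) (hy2 : y ≤ 0.133) : ‖HH β (x + y * I) - 1‖ ≤ 0.03 := by
  refine le_epsJ (C := 0.4083) (N0 := 13.705) (J_boxp 0.6071 0.7731 0 0.133 0.133 1.1375 0.7845 1.3717 0.9654 0.4673 3.7021 13.705 0.6897 2.496 1.362 1.1227 0.5687 0.4379 1.216 3.654 0.6363 1.327 2.2144 3.167 0.0004128 0.002477 0.0000003101 0.0000003101 0.0001635 0.0000003101 0.0000003101 0.0000003101 0.4083
    hβ hN hx1 hx2 hy1 hy2 (by norm_num) (by norm_num) (by linarith) (by norm_num) (by norm_num) (by norm_num) (by norm_num) (by norm_num) (by norm_num) (by norm_num) (by norm_num) (by norm_num) (by norm_num) (by norm_num) (by norm_num) (by norm_num) (by norm_num) (by norm_num) (by norm_num) (by norm_num) (by norm_num) (by norm_num) (by norm_num) (by norm_num)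
    (cube_sqrt_geJ (s := 0.8775) (by norm_num) (by norm_num) (by norm_num) (by norm_num))
    (cube_sqrt_geJ (s := 0.9568) (by norm_num) (by norm_num) (by norm_num) (by norm_num))
    (by norm_num) (by norm_num) (by norm_num) (by norm_num) (by norm_num) (by norm_num) (by norm_num) (by norm_num) (by norm_num) (by norm_num) (by norm_num) (by norm_num) (by norm_num) (by norm_num) (by norm_num) (by norm_num) (by norm_num) (by norm_num)
    (exp_neg_leJ (r := 0.794) 7 (by norm_num) (by norm_num) (by norm_num) (by norm_num))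
    (exp_neg_leJ (r := 0.001) 6 (by norm_num) (by norm_num) (by norm_num) (by norm_num))
    (exp_neg_leJ (r := 0.99) 14 (by norm_num) (by norm_num) (by norm_num) (by norm_num))
    (exp_neg_leJ (r := 0.99) 14 (by norm_num) (by norm_num) (by norm_num) (by norm_num))
    (exp_neg_leJ (r := 0.72) 8 (by norm_num) (by norm_num) (by norm_num) (by norm_num))
    (exp_neg_leJ (r := 0.99) 14 (by norm_num) (by norm_num) (by norm_num) (by norm_num))
    (exp_neg_leJ (r := 0.99) 14 (by norm_num) (by norm_num) (by norm_num) (by norm_num))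
    (exp_neg_leJ (r := 0.99) 14 (by norm_num) (by norm_num) (by norm_num) (by norm_num))
    (by norm_num)) (by norm_num) hN hβ.le (by norm_num)

private theorem JB7_k1a_b2_2 {β x y : ℝ} (hβ : 0 < β) (hN : β * 13.705 ≤ 1) (hx1 : 0.5669 ≤ x) (hx2 : x ≤ 0.7233)
    (hy1 : -0 ≤ y) (hy2 : y ≤ 0.178) : ‖HH β (x + y * I) - 1‖ ≤ 0.03 := by
  refine le_epsJ (C := 0.4087) (N0 := 13.705) (J_boxp 0.5669 0.7233 0 0.178 0.178 1.1092 0.7449 1.3824 1.0065 0.4691 3.7021 13.705 0.6716 2.429 1.351 1.1419 0.5545 0.4304 1.2023 3.68 0.6122 1.2667 1.941 2.9822 0.0005012 0.002752 0.0000003101 0.0000003101 0.0002272 0.0000003101 0.0000003101 0.0000003101 0.4087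
    hβ hN hx1 hx2 hy1 hy2 (by norm_num) (by norm_num) (by linarith) (by norm_num) (by norm_num) (by norm_num) (by norm_num) (by norm_num) (by norm_num) (by norm_num) (by norm_num) (by norm_num) (by norm_num) (by norm_num) (by norm_num) (by norm_num) (by norm_num) (by norm_num) (by norm_num) (by norm_num) (by norm_num) (by norm_num) (by norm_num) (by norm_num)
    (cube_sqrt_geJ (s := 0.8809) (by norm_num) (by norm_num) (by norm_num) (by norm_num))
    (cube_sqrt_geJ (s := 0.958) (by norm_num) (by norm_num) (by norm_num) (by norm_num))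
    (by norm_num) (by norm_num) (by norm_num) (by norm_num) (by norm_num) (by norm_num) (by norm_num) (by norm_num) (by norm_num) (by norm_num) (by norm_num) (by norm_num) (by norm_num) (by norm_num) (by norm_num) (by norm_num) (by norm_num) (by norm_num)
    (exp_neg_leJ (r := 0.599) 7 (by norm_num) (by norm_num) (by norm_num) (by norm_num))
    (exp_neg_leJ (r := 0.898) 5 (by norm_num) (by norm_num) (by norm_num) (by norm_num))
    (exp_neg_leJ (r := 0.99) 14 (by norm_num) (by norm_num) (by norm_num) (by norm_num))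
    (exp_neg_leJ (r := 0.99) 14 (by norm_num) (by norm_num) (by norm_num) (by norm_num))
    (exp_neg_leJ (r := 0.39) 8 (by norm_num) (by norm_num) (by norm_num) (by norm_num))
    (exp_neg_leJ (r := 0.99) 14 (by norm_num) (by norm_num) (by norm_num) (by norm_num))
    (exp_neg_leJ (r := 0.99) 14 (by norm_num) (by norm_num) (by norm_num) (by norm_num))
    (exp_neg_leJ (r := 0.99) 14 (by norm_num) (by norm_num) (by norm_num) (by norm_num))
    (by norm_num)) (by norm_num) hN hβ.le (by norm_num)

private theorem JB7_k1a_b2_3 {β x y : ℝ} (hβ : 0 < β) (hN : β * 13.705 ≤ 1) (hx1 : 0.5327 ≤ x) (hx2 : x ≤ 0.6802)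
    (hy1 : -0 ≤ y) (hy2 : y ≤ 0.213) : ‖HH β (x + y * I) - 1‖ ≤ 0.03 := by
  refine le_epsJ (C := 0.4108) (N0 := 13.705) (J_boxp 0.5327 0.6802 0 0.213 0.213 1.0851 0.7128 1.3907 1.0434 0.4705 3.7021 13.705 0.6569 2.376 1.342 1.1585 0.5425 0.4237 1.1906 3.702 0.592 1.2158 1.7225 2.8362 0.0005909 0.003014 0.0000003101 0.0000003101 0.0002997 0.0000003101 0.0000003101 0.0000003101 0.4108
    hβ hN hx1 hx2 hy1 hy2 (by norm_num) (by norm_num) (by linarith) (by norm_num) (by norm_num) (by norm_num) (by norm_num) (by norm_num) (by norm_num) (by norm_num) (by norm_num) (by norm_num) (by norm_num) (by norm_num) (by norm_num) (by norm_num) (by norm_num) (by norm_num) (by norm_num) (by norm_num) (by norm_num) (by norm_num) (by norm_num) (by norm_num)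
    (cube_sqrt_geJ (s := 0.8837) (by norm_num) (by norm_num) (by norm_num) (by norm_num))
    (cube_sqrt_geJ (s := 0.9589) (by norm_num) (by norm_num) (by norm_num) (by norm_num))
    (by norm_num) (by norm_num) (by norm_num) (by norm_num) (by norm_num) (by norm_num) (by norm_num) (by norm_num) (by norm_num) (by norm_num) (by norm_num) (by norm_num) (by norm_num) (by norm_num) (by norm_num) (by norm_num) (by norm_num) (by norm_num)
    (exp_neg_leJ (r := 0.434) 7 (by norm_num) (by norm_num) (by norm_num) (by norm_num))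
    (exp_neg_leJ (r := 0.806) 5 (by norm_num) (by norm_num) (by norm_num) (by norm_num))
    (exp_neg_leJ (r := 0.99) 14 (by norm_num) (by norm_num) (by norm_num) (by norm_num))
    (exp_neg_leJ (r := 0.99) 14 (by norm_num) (by norm_num) (by norm_num) (by norm_num))
    (exp_neg_leJ (r := 0.113) 8 (by norm_num) (by norm_num) (by norm_num) (by norm_num))
    (exp_neg_leJ (r := 0.99) 14 (by norm_num) (by norm_num) (by norm_num) (by norm_num))
    (exp_neg_leJ (r := 0.99) 14 (by norm_num) (by norm_num) (by norm_num) (by norm_num))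
    (exp_neg_leJ (r := 0.99) 14 (by norm_num) (by norm_num) (by norm_num) (by norm_num))
    (by norm_num)) (by norm_num) hN hβ.le (by norm_num)

private theorem JB7_k1a_b2_4 {β x y : ℝ} (hβ : 0 < β) (hN : β * 13.705 ≤ 1) (hx1 : 0.5064 ≤ x) (hx2 : x ≤ 0.6446)
    (hy1 : -0 ≤ y) (hy2 : y ≤ 0.238) : ‖HH β (x + y * I) - 1‖ ≤ 0.03 := by
  refine le_epsJ (C := 0.4111) (N0 := 13.705) (J_boxp 0.5064 0.6446 0 0.238 0.238 1.0666 0.6872 1.3958 1.0726 0.4714 3.7021 13.705 0.6443 2.331 1.334 1.1721 0.5332 0.4187 1.1816 3.7199 0.5767 1.1768 1.5627 2.7354 0.0006709 0.003225 0.0000003101 0.0000003101 0.0003706 0.0000003101 0.0000003101 0.0000003101 0.4111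
    hβ hN hx1 hx2 hy1 hy2 (by norm_num) (by norm_num) (by linarith) (by norm_num) (by norm_num) (by norm_num) (by norm_num) (by norm_num) (by norm_num) (by norm_num) (by norm_num) (by norm_num) (by norm_num) (by norm_num) (by norm_num) (by norm_num) (by norm_num) (by norm_num) (by norm_num) (by norm_num) (by norm_num) (by norm_num) (by norm_num) (by norm_num)
    (cube_sqrt_geJ (s := 0.8861) (by norm_num) (by norm_num) (by norm_num) (by norm_num))
    (cube_sqrt_geJ (s := 0.9597) (by norm_num) (by norm_num) (by norm_num) (by norm_num))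
    (by norm_num) (by norm_num) (by norm_num) (by norm_num) (by norm_num) (by norm_num) (by norm_num) (by norm_num) (by norm_num) (by norm_num) (by norm_num) (by norm_num) (by norm_num) (by norm_num) (by norm_num) (by norm_num) (by norm_num) (by norm_num)
    (exp_neg_leJ (r := 0.307) 7 (by norm_num) (by norm_num) (by norm_num) (by norm_num))
    (exp_neg_leJ (r := 0.738) 5 (by norm_num) (by norm_num) (by norm_num) (by norm_num))
    (exp_neg_leJ (r := 0.99) 14 (by norm_num) (by norm_num) (by norm_num) (by norm_num))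
    (exp_neg_leJ (r := 0.99) 14 (by norm_num) (by norm_num) (by norm_num) (by norm_num))
    (exp_neg_leJ (r := 0.903) 7 (by norm_num) (by norm_num) (by norm_num) (by norm_num))
    (exp_neg_leJ (r := 0.99) 14 (by norm_num) (by norm_num) (by norm_num) (by norm_num))
    (exp_neg_leJ (r := 0.99) 14 (by norm_num) (by norm_num) (by norm_num) (by norm_num))
    (exp_neg_leJ (r := 0.99) 14 (by norm_num) (by norm_num) (by norm_num) (by norm_num))
    (by norm_num)) (by norm_num) hN hβ.le (by norm_num)

private theorem JB7_k1a_b2_5 {β x y : ℝ} (hβ : 0 < β) (hN : β * 13.705 ≤ 1) (hx1 : 0.4954 ≤ x) (hx2 : x ≤ 0.6179)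
    (hy1 : -0 ≤ y) (hy2 : y ≤ 0.248) : ‖HH β (x + y * I) - 1‖ ≤ 0.03 := by
  refine le_epsJ (C := 0.398) (N0 := 13.705) (J_boxp 0.4954 0.6179 0 0.248 0.248 1.0588 0.6659 1.3926 1.0832 0.4708 3.7021 13.705 0.629 2.279 1.324 1.1824 0.5293 0.4184 1.1778 3.7338 0.5703 1.1606 1.4978 2.7241 0.0007074 0.003238 0.0000003101 0.0000003101 0.0004043 0.0000003101 0.0000003101 0.0000003101 0.398
    hβ hN hx1 hx2 hy1 hy2 (by norm_num) (by norm_num) (by linarith) (by norm_num) (by norm_num) (by norm_num) (by norm_num) (by norm_num) (by norm_num) (by norm_num) (by norm_num) (by norm_num) (by norm_num) (by norm_num) (by norm_num) (by norm_num) (by norm_num) (by norm_num) (by norm_num) (by norm_num) (by norm_num) (by norm_num) (by norm_num) (by norm_num)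
    (cube_sqrt_geJ (s := 0.889) (by norm_num) (by norm_num) (by norm_num) (by norm_num))
    (cube_sqrt_geJ (s := 0.9607) (by norm_num) (by norm_num) (by norm_num) (by norm_num))
    (by norm_num) (by norm_num) (by norm_num) (by norm_num) (by norm_num) (by norm_num) (by norm_num) (by norm_num) (by norm_num) (by norm_num) (by norm_num) (by norm_num) (by norm_num) (by norm_num) (by norm_num) (by norm_num) (by norm_num) (by norm_num)
    (exp_neg_leJ (r := 0.254) 7 (by norm_num) (by norm_num) (by norm_num) (by norm_num))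
    (exp_neg_leJ (r := 0.734) 5 (by norm_num) (by norm_num) (by norm_num) (by norm_num))
    (exp_neg_leJ (r := 0.99) 14 (by norm_num) (by norm_num) (by norm_num) (by norm_num))
    (exp_neg_leJ (r := 0.99) 14 (by norm_num) (by norm_num) (by norm_num) (by norm_num))
    (exp_neg_leJ (r := 0.815) 7 (by norm_num) (by norm_num) (by norm_num) (by norm_num))
    (exp_neg_leJ (r := 0.99) 14 (by norm_num) (by norm_num) (by norm_num) (by norm_num))
    (exp_neg_leJ (r := 0.99) 14 (by norm_num) (by norm_num) (by norm_num) (by norm_num))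
    (exp_neg_leJ (r := 0.99) 14 (by norm_num) (by norm_num) (by norm_num) (by norm_num))
    (by norm_num)) (by norm_num) hN hβ.le (by norm_num)

theorem JB7_k1a_c2 {κ t β : ℝ} (h : DomR κ t) (hβ : 0 < β) (hk1 : 0.71 ≤ κ) (hk2 : κ ≤ 0.84)
    (ht1 : 0.04 ≤ t + κ) (ht2 : t + κ ≤ 0.62) (hR0 : β * 10 ≤ κ) (hR : β * (6.75 * (1 + κ ^ 2)) ≤ κ) :
    ‖HH β (sg κ t) - 1‖ ≤ 0.03 := by
  have hN : β * 13.705 ≤ 1 := bNC hβ h.1 hk2 (by norm_num) (by norm_num) hR (by norm_num)
  have hy1 : 0.018 ≤ sy κ t := syR_ge h 0.71 0.84 0.04 0.018 1.01816 1.01817 0.02181 0.02582 hk1 hk2 (by linarith) (by norm_num) (by norm_num)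
    (expn_ge (by norm_num) (by norm_num)) (expn_le (by norm_num) (by norm_num) (by norm_num)) (by norm_num)
    (by norm_num) (by norm_num) (by norm_num) (by norm_num) (by norm_num) (by norm_num)
  have hy2 : sy κ t ≤ 0.248 := syR_le h 0.71 0.84 0.62 0.248 1.28145 0.3725 0.37833 0.44761 hk1 hk2 (by linarith) (by norm_num) (by norm_num)
    (expn_ge (by norm_num) (by norm_num)) (by norm_num) (by norm_num) (Or.inr ((mul_le_mul_of_nonneg_left (expn_le (E := 1.28146) (by norm_num) (by norm_num) (by norm_num)) (by norm_num)).trans (by norm_num))) (by norm_num) (by norm_num) (by norm_num)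
  rcases le_total (sy κ t) 0.078 with f0 | g0
  · have hx1 : 0.652 ≤ sx κ t := sx_lo h 0.71 0.078 0.078 0.92496 0.652 hk1 (by norm_num) f0 (abs_le.2 ⟨by linarith, by linarith⟩) (expm_ge (by norm_num) (by norm_num) (by norm_num) (by norm_num)) (by norm_num) (by norm_num)
    have hx2 : sx κ t ≤ 0.8249 := sx_hi h 0.84 0.018 0.018 0.98217 0.8249 hk2 hy1 (by norm_num) (by rw [abs_of_nonneg (by linarith)]; linarith) (expm_le (by norm_num) (by norm_num) (by norm_num)) (by norm_num) (by norm_num)
    exact JB7_k1a_b2_0 hβ hN hx1 hx2 (by linarith) (by linarith)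
  rcases le_total (sy κ t) 0.133 with f1 | g1
  · have hx1 : 0.6071 ≤ sx κ t := sx_lo h 0.71 0.133 0.133 0.87546 0.6071 hk1 (by norm_num) f1 (abs_le.2 ⟨by linarith, by linarith⟩) (expm_ge (by norm_num) (by norm_num) (by norm_num) (by norm_num)) (by norm_num) (by norm_num)
    have hx2 : sx κ t ≤ 0.7731 := sx_hi h 0.84 0.078 0.078 0.92497 0.7731 hk2 g0 (by norm_num) (by rw [abs_of_nonneg (by linarith)]; linarith) (expm_le (by norm_num) (by norm_num) (by norm_num)) (by norm_num) (by norm_num)
    exact JB7_k1a_b2_1 hβ hN hx1 hx2 (by linarith) (by linarith)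
  rcases le_total (sy κ t) 0.178 with f2 | g2
  · have hx1 : 0.5669 ≤ sx κ t := sx_lo h 0.71 0.178 0.178 0.83694 0.5669 hk1 (by norm_num) f2 (abs_le.2 ⟨by linarith, by linarith⟩) (expm_ge (by norm_num) (by norm_num) (by norm_num) (by norm_num)) (by norm_num) (by norm_num)
    have hx2 : sx κ t ≤ 0.7233 := sx_hi h 0.84 0.133 0.133 0.87547 0.7233 hk2 g1 (by norm_num) (by rw [abs_of_nonneg (by linarith)]; linarith) (expm_le (by norm_num) (by norm_num) (by norm_num)) (by norm_num) (by norm_num)
    exact JB7_k1a_b2_2 hβ hN hx1 hx2 (by linarith) (by linarith)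
  rcases le_total (sy κ t) 0.213 with f3 | g3
  · have hx1 : 0.5327 ≤ sx κ t := sx_lo h 0.71 0.213 0.213 0.80815 0.5327 hk1 (by norm_num) f3 (abs_le.2 ⟨by linarith, by linarith⟩) (expm_ge (by norm_num) (by norm_num) (by norm_num) (by norm_num)) (by norm_num) (by norm_num)
    have hx2 : sx κ t ≤ 0.6802 := sx_hi h 0.84 0.178 0.178 0.83695 0.6802 hk2 g2 (by norm_num) (by rw [abs_of_nonneg (by linarith)]; linarith) (expm_le (by norm_num) (by norm_num) (by norm_num)) (by norm_num) (by norm_num)
    exact JB7_k1a_b2_3 hβ hN hx1 hx2 (by linarith) (by linarith)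
  rcases le_total (sy κ t) 0.238 with f4 | g4
  · have hx1 : 0.5064 ≤ sx κ t := sx_lo h 0.71 0.238 0.238 0.7882 0.5064 hk1 (by norm_num) f4 (abs_le.2 ⟨by linarith, by linarith⟩) (expm_ge (by norm_num) (by norm_num) (by norm_num) (by norm_num)) (by norm_num) (by norm_num)
    have hx2 : sx κ t ≤ 0.6446 := sx_hi h 0.84 0.213 0.213 0.80816 0.6446 hk2 g3 (by norm_num) (by rw [abs_of_nonneg (by linarith)]; linarith) (expm_le (by norm_num) (by norm_num) (by norm_num)) (by norm_num) (by norm_num)
    exact JB7_k1a_b2_4 hβ hN hx1 hx2 (by linarith) (by linarith)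
  have hx1 : 0.4954 ≤ sx κ t := sx_lo h 0.71 0.248 0.248 0.78035 0.4954 hk1 (by norm_num) hy2 (abs_le.2 ⟨by linarith, by linarith⟩) (expm_ge (by norm_num) (by norm_num) (by norm_num) (by norm_num)) (by norm_num) (by norm_num)
  have hx2 : sx κ t ≤ 0.6179 := sx_hi h 0.84 0.238 0.238 0.78821 0.6179 hk2 g4 (by norm_num) (by rw [abs_of_nonneg (by linarith)]; linarith) (expm_le (by norm_num) (by norm_num) (by norm_num)) (by norm_num) (by norm_num)
  exact JB7_k1a_b2_5 hβ hN hx1 hx2 (by linarith) (by linarith)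

private theorem JB7_k1a_b3_0 {β x y : ℝ} (hβ : 0 < β) (hN : β * 13.525 ≤ 1) (hx1 : 0.7721 ≤ x) (hx2 : x ≤ 0.9222)
    (hy1 : -0 ≤ y) (hy2 : y ≤ 0.079) : ‖HH β (x + y * I) - 1‖ ≤ 0.03 := by
  refine le_epsJ (C := 0.401) (N0 := 13.525) (J_boxp 0.7721 0.9222 0 0.079 0.079 1.2537 0.9256 1.4194 0.8488 0.4753 3.6777 13.525 0.7383 2.689 1.394 1.0654 0.6268 0.4725 1.2725 3.57 0.7219 1.561 2.776 3.3679 0.0002083 0.001679 0.0000003101 0.0000003101 0.00005761 0.0000003101 0.0000003101 0.0000003101 0.401
    hβ hN hx1 hx2 hy1 hy2 (by norm_num) (by norm_num) (by linarith) (by norm_num) (by norm_num) (by norm_num) (by norm_num) (by norm_num) (by norm_num) (by norm_num) (by norm_num) (by norm_num) (by norm_num) (by norm_num) (by norm_num) (by norm_num) (by norm_num) (by norm_num) (by norm_num) (by norm_num) (by norm_num) (by norm_num) (by norm_num) (by norm_num)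
    (cube_sqrt_geJ (s := 0.8682) (by norm_num) (by norm_num) (by norm_num) (by norm_num))
    (cube_sqrt_geJ (s := 0.9537) (by norm_num) (by norm_num) (by norm_num) (by norm_num))
    (by norm_num) (by norm_num) (by norm_num) (by norm_num) (by norm_num) (by norm_num) (by norm_num) (by norm_num) (by norm_num) (by norm_num) (by norm_num) (by norm_num) (by norm_num) (by norm_num) (by norm_num) (by norm_num) (by norm_num) (by norm_num)
    (exp_neg_leJ (r := 0.477) 8 (by norm_num) (by norm_num) (by norm_num) (by norm_num))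
    (exp_neg_leJ (r := 0.39) 6 (by norm_num) (by norm_num) (by norm_num) (by norm_num))
    (exp_neg_leJ (r := 0.99) 14 (by norm_num) (by norm_num) (by norm_num) (by norm_num))
    (exp_neg_leJ (r := 0.99) 14 (by norm_num) (by norm_num) (by norm_num) (by norm_num))
    (exp_neg_leJ (r := 0.763) 9 (by norm_num) (by norm_num) (by norm_num) (by norm_num))
    (exp_neg_leJ (r := 0.99) 14 (by norm_num) (by norm_num) (by norm_num) (by norm_num))
    (exp_neg_leJ (r := 0.99) 14 (by norm_num) (by norm_num) (by norm_num) (by norm_num))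
    (exp_neg_leJ (r := 0.99) 14 (by norm_num) (by norm_num) (by norm_num) (by norm_num))
    (by norm_num)) (by norm_num) hN hβ.le (by norm_num)

private theorem JB7_k1a_b3_1 {β x y : ℝ} (hβ : 0 < β) (hN : β * 13.525 ≤ 1) (hx1 : 0.7176 ≤ x) (hx2 : x ≤ 0.865)
    (hy1 : -0 ≤ y) (hy2 : y ≤ 0.139) : ‖HH β (x + y * I) - 1‖ ≤ 0.03 := by
  refine le_epsJ (C := 0.4049) (N0 := 13.525) (J_boxp 0.7176 0.865 0 0.139 0.139 1.2153 0.8761 1.4303 0.8927 0.4772 3.6777 13.525 0.7209 2.617 1.382 1.0874 0.6076 0.4616 1.2539 3.601 0.6894 1.4794 2.4097 3.1108 0.0002701 0.001945 0.0000003101 0.0000003101 0.00008926 0.0000003101 0.0000003101 0.0000003101 0.4049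
    hβ hN hx1 hx2 hy1 hy2 (by norm_num) (by norm_num) (by linarith) (by norm_num) (by norm_num) (by norm_num) (by norm_num) (by norm_num) (by norm_num) (by norm_num) (by norm_num) (by norm_num) (by norm_num) (by norm_num) (by norm_num) (by norm_num) (by norm_num) (by norm_num) (by norm_num) (by norm_num) (by norm_num) (by norm_num) (by norm_num) (by norm_num)
    (cube_sqrt_geJ (s := 0.8716) (by norm_num) (by norm_num) (by norm_num) (by norm_num))
    (cube_sqrt_geJ (s := 0.9548) (by norm_num) (by norm_num) (by norm_num) (by norm_num))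
    (by norm_num) (by norm_num) (by norm_num) (by norm_num) (by norm_num) (by norm_num) (by norm_num) (by norm_num) (by norm_num) (by norm_num) (by norm_num) (by norm_num) (by norm_num) (by norm_num) (by norm_num) (by norm_num) (by norm_num) (by norm_num)
    (exp_neg_leJ (r := 0.217) 8 (by norm_num) (by norm_num) (by norm_num) (by norm_num))
    (exp_neg_leJ (r := 0.243) 6 (by norm_num) (by norm_num) (by norm_num) (by norm_num))
    (exp_neg_leJ (r := 0.99) 14 (by norm_num) (by norm_num) (by norm_num) (by norm_num))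
    (exp_neg_leJ (r := 0.99) 14 (by norm_num) (by norm_num) (by norm_num) (by norm_num))
    (exp_neg_leJ (r := 0.324) 9 (by norm_num) (by norm_num) (by norm_num) (by norm_num))
    (exp_neg_leJ (r := 0.99) 14 (by norm_num) (by norm_num) (by norm_num) (by norm_num))
    (exp_neg_leJ (r := 0.99) 14 (by norm_num) (by norm_num) (by norm_num) (by norm_num))
    (exp_neg_leJ (r := 0.99) 14 (by norm_num) (by norm_num) (by norm_num) (by norm_num))
    (by norm_num)) (by norm_num) hN hβ.le (by norm_num)

private theorem JB7_k1a_b3_2 {β x y : ℝ} (hβ : 0 < β) (hN : β * 13.525 ≤ 1) (hx1 : 0.6691 ≤ x) (hx2 : x ≤ 0.8062)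
    (hy1 : -0 ≤ y) (hy2 : y ≤ 0.189) : ‖HH β (x + y * I) - 1‖ ≤ 0.03 := by
  refine le_epsJ (C := 0.404) (N0 := 13.525) (J_boxp 0.6691 0.8062 0 0.189 0.189 1.1812 0.8281 1.4366 0.9337 0.4782 3.6777 13.525 0.7011 2.539 1.37 1.11 0.5905 0.4525 1.2373 3.632 0.6607 1.4071 2.0982 2.9086 0.0003414 0.002199 0.0000003101 0.0000003101 0.0001321 0.0000003101 0.0000003101 0.0000003101 0.404
    hβ hN hx1 hx2 hy1 hy2 (by norm_num) (by norm_num) (by linarith) (by norm_num) (by norm_num) (by norm_num) (by norm_num) (by norm_num) (by norm_num) (by norm_num) (by norm_num) (by norm_num) (by norm_num) (by norm_num) (by norm_num) (by norm_num) (by norm_num) (by norm_num) (by norm_num) (by norm_num) (by norm_num) (by norm_num) (by norm_num) (by norm_num)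
    (cube_sqrt_geJ (s := 0.8753) (by norm_num) (by norm_num) (by norm_num) (by norm_num))
    (cube_sqrt_geJ (s := 0.9561) (by norm_num) (by norm_num) (by norm_num) (by norm_num))
    (by norm_num) (by norm_num) (by norm_num) (by norm_num) (by norm_num) (by norm_num) (by norm_num) (by norm_num) (by norm_num) (by norm_num) (by norm_num) (by norm_num) (by norm_num) (by norm_num) (by norm_num) (by norm_num) (by norm_num) (by norm_num)
    (exp_neg_leJ (r := 0.986) 7 (by norm_num) (by norm_num) (by norm_num) (by norm_num))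
    (exp_neg_leJ (r := 0.12) 6 (by norm_num) (by norm_num) (by norm_num) (by norm_num))
    (exp_neg_leJ (r := 0.99) 14 (by norm_num) (by norm_num) (by norm_num) (by norm_num))
    (exp_neg_leJ (r := 0.99) 14 (by norm_num) (by norm_num) (by norm_num) (by norm_num))
    (exp_neg_leJ (r := 0.935) 8 (by norm_num) (by norm_num) (by norm_num) (by norm_num))
    (exp_neg_leJ (r := 0.99) 14 (by norm_num) (by norm_num) (by norm_num) (by norm_num))
    (exp_neg_leJ (r := 0.99) 14 (by norm_num) (by norm_num) (by norm_num) (by norm_num))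
    (exp_neg_leJ (r := 0.99) 14 (by norm_num) (by norm_num) (by norm_num) (by norm_num))
    (by norm_num)) (by norm_num) hN hβ.le (by norm_num)

private theorem JB7_k1a_b3_3 {β x y : ℝ} (hβ : 0 < β) (hN : β * 13.525 ≤ 1) (hx1 : 0.6275 ≤ x) (hx2 : x ≤ 0.7549)
    (hy1 : -0 ≤ y) (hy2 : y ≤ 0.229) : ‖HH β (x + y * I) - 1‖ ≤ 0.03 := by
  refine le_epsJ (C := 0.4053) (N0 := 13.525) (J_boxp 0.6275 0.7549 0 0.229 0.229 1.1519 0.7889 1.4424 0.9715 0.4792 3.6777 13.525 0.6849 2.478 1.359 1.1297 0.5759 0.4444 1.223 3.6584 0.6364 1.3454 1.8435 2.7435 0.0004149 0.002455 0.0000003101 0.0000003101 0.0001829 0.0000003101 0.0000003101 0.0000003101 0.4053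
    hβ hN hx1 hx2 hy1 hy2 (by norm_num) (by norm_num) (by linarith) (by norm_num) (by norm_num) (by norm_num) (by norm_num) (by norm_num) (by norm_num) (by norm_num) (by norm_num) (by norm_num) (by norm_num) (by norm_num) (by norm_num) (by norm_num) (by norm_num) (by norm_num) (by norm_num) (by norm_num) (by norm_num) (by norm_num) (by norm_num) (by norm_num)
    (cube_sqrt_geJ (s := 0.8784) (by norm_num) (by norm_num) (by norm_num) (by norm_num))
    (cube_sqrt_geJ (s := 0.9571) (by norm_num) (by norm_num) (by norm_num) (by norm_num))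
    (by norm_num) (by norm_num) (by norm_num) (by norm_num) (by norm_num) (by norm_num) (by norm_num) (by norm_num) (by norm_num) (by norm_num) (by norm_num) (by norm_num) (by norm_num) (by norm_num) (by norm_num) (by norm_num) (by norm_num) (by norm_num)
    (exp_neg_leJ (r := 0.789) 7 (by norm_num) (by norm_num) (by norm_num) (by norm_num))
    (exp_neg_leJ (r := 0.01) 6 (by norm_num) (by norm_num) (by norm_num) (by norm_num))
    (exp_neg_leJ (r := 0.99) 14 (by norm_num) (by norm_num) (by norm_num) (by norm_num))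
    (exp_neg_leJ (r := 0.99) 14 (by norm_num) (by norm_num) (by norm_num) (by norm_num))
    (exp_neg_leJ (r := 0.607) 8 (by norm_num) (by norm_num) (by norm_num) (by norm_num))
    (exp_neg_leJ (r := 0.99) 14 (by norm_num) (by norm_num) (by norm_num) (by norm_num))
    (exp_neg_leJ (r := 0.99) 14 (by norm_num) (by norm_num) (by norm_num) (by norm_num))
    (exp_neg_leJ (r := 0.99) 14 (by norm_num) (by norm_num) (by norm_num) (by norm_num))
    (by norm_num)) (by norm_num) hN hβ.le (by norm_num)

private theorem JB7_k1a_b3_4 {β x y : ℝ} (hβ : 0 < β) (hN : β * 13.525 ≤ 1) (hx1 : 0.5966 ≤ x) (hx2 : x ≤ 0.7117)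
    (hy1 : -0 ≤ y) (hy2 : y ≤ 0.257) : ‖HH β (x + y * I) - 1‖ ≤ 0.03 := by
  refine le_epsJ (C := 0.4027) (N0 := 13.525) (J_boxp 0.5966 0.7117 0 0.257 0.257 1.1301 0.7567 1.4445 1.0005 0.4795 3.6777 13.525 0.6696 2.421 1.35 1.1463 0.565 0.4389 1.2125 3.6804 0.6185 1.2998 1.6616 2.6373 0.0004807 0.00265 0.0000003101 0.0000003101 0.0002329 0.0000003101 0.0000003101 0.0000003101 0.4027
    hβ hN hx1 hx2 hy1 hy2 (by norm_num) (by norm_num) (by linarith) (by norm_num) (by norm_num) (by norm_num) (by norm_num) (by norm_num) (by norm_num) (by norm_num) (by norm_num) (by norm_num) (by norm_num) (by norm_num) (by norm_num) (by norm_num) (by norm_num) (by norm_num) (by norm_num) (by norm_num) (by norm_num) (by norm_num) (by norm_num) (by norm_num)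
    (cube_sqrt_geJ (s := 0.8813) (by norm_num) (by norm_num) (by norm_num) (by norm_num))
    (cube_sqrt_geJ (s := 0.9581) (by norm_num) (by norm_num) (by norm_num) (by norm_num))
    (by norm_num) (by norm_num) (by norm_num) (by norm_num) (by norm_num) (by norm_num) (by norm_num) (by norm_num) (by norm_num) (by norm_num) (by norm_num) (by norm_num) (by norm_num) (by norm_num) (by norm_num) (by norm_num) (by norm_num) (by norm_num)
    (exp_neg_leJ (r := 0.641) 7 (by norm_num) (by norm_num) (by norm_num) (by norm_num))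
    (exp_neg_leJ (r := 0.936) 5 (by norm_num) (by norm_num) (by norm_num) (by norm_num))
    (exp_neg_leJ (r := 0.99) 14 (by norm_num) (by norm_num) (by norm_num) (by norm_num))
    (exp_neg_leJ (r := 0.99) 14 (by norm_num) (by norm_num) (by norm_num) (by norm_num))
    (exp_neg_leJ (r := 0.365) 8 (by norm_num) (by norm_num) (by norm_num) (by norm_num))
    (exp_neg_leJ (r := 0.99) 14 (by norm_num) (by norm_num) (by norm_num) (by norm_num))
    (exp_neg_leJ (r := 0.99) 14 (by norm_num) (by norm_num) (by norm_num) (by norm_num))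
    (exp_neg_leJ (r := 0.99) 14 (by norm_num) (by norm_num) (by norm_num) (by norm_num))
    (by norm_num)) (by norm_num) hN hβ.le (by norm_num)

theorem JB7_k1a_c3 {κ t β : ℝ} (h : DomR κ t) (hβ : 0 < β) (hk1 : 0.84 ≤ κ) (hk2 : κ ≤ 0.94)
    (ht1 : 0.04 ≤ t + κ) (ht2 : t + κ ≤ 0.62) (hR0 : β * 10 ≤ κ) (hR : β * (6.75 * (1 + κ ^ 2)) ≤ κ) :
    ‖HH β (sg κ t) - 1‖ ≤ 0.03 := by
  have hN : β * 13.525 ≤ 1 := bNC hβ h.1 hk2 (by norm_num) (by norm_num) hR (by norm_num)
  have hy1 : 0.019 ≤ sy κ t := syR_ge h 0.84 0.94 0.04 0.019 1.01918 1.01919 0.0206 0.02306 hk1 hk2 (by linarith) (by norm_num) (by norm_num)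
    (expn_ge (by norm_num) (by norm_num)) (expn_le (by norm_num) (by norm_num) (by norm_num)) (by norm_num)
    (by norm_num) (by norm_num) (by norm_num) (by norm_num) (by norm_num) (by norm_num)
  have hy2 : sy κ t ≤ 0.257 := syR_le h 0.84 0.94 0.62 0.257 1.29304 0.3429 0.35352 0.39562 hk1 hk2 (by linarith) (by norm_num) (by norm_num)
    (expn_ge (by norm_num) (by norm_num)) (by norm_num) (by norm_num) (Or.inr ((mul_le_mul_of_nonneg_left (expn_le (E := 1.29305) (by norm_num) (by norm_num) (by norm_num)) (by norm_num)).trans (by norm_num))) (by norm_num) (by norm_num) (by norm_num)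
  rcases le_total (sy κ t) 0.079 with f0 | g0
  · have hx1 : 0.7721 ≤ sx κ t := sx_lo h 0.84 0.079 0.079 0.92403 0.7721 hk1 (by norm_num) f0 (abs_le.2 ⟨by linarith, by linarith⟩) (expm_ge (by norm_num) (by norm_num) (by norm_num) (by norm_num)) (by norm_num) (by norm_num)
    have hx2 : sx κ t ≤ 0.9222 := sx_hi h 0.94 0.019 0.019 0.98118 0.9222 hk2 hy1 (by norm_num) (by rw [abs_of_nonneg (by linarith)]; linarith) (expm_le (by norm_num) (by norm_num) (by norm_num)) (by norm_num) (by norm_num)
    exact JB7_k1a_b3_0 hβ hN hx1 hx2 (by linarith) (by linarith)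
  rcases le_total (sy κ t) 0.139 with f1 | g1
  · have hx1 : 0.7176 ≤ sx κ t := sx_lo h 0.84 0.139 0.139 0.87022 0.7176 hk1 (by norm_num) f1 (abs_le.2 ⟨by linarith, by linarith⟩) (expm_ge (by norm_num) (by norm_num) (by norm_num) (by norm_num)) (by norm_num) (by norm_num)
    have hx2 : sx κ t ≤ 0.865 := sx_hi h 0.94 0.079 0.079 0.92404 0.865 hk2 g0 (by norm_num) (by rw [abs_of_nonneg (by linarith)]; linarith) (expm_le (by norm_num) (by norm_num) (by norm_num)) (by norm_num) (by norm_num)
    exact JB7_k1a_b3_1 hβ hN hx1 hx2 (by linarith) (by linarith)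
  rcases le_total (sy κ t) 0.189 with f2 | g2
  · have hx1 : 0.6691 ≤ sx κ t := sx_lo h 0.84 0.189 0.189 0.82778 0.6691 hk1 (by norm_num) f2 (abs_le.2 ⟨by linarith, by linarith⟩) (expm_ge (by norm_num) (by norm_num) (by norm_num) (by norm_num)) (by norm_num) (by norm_num)
    have hx2 : sx κ t ≤ 0.8062 := sx_hi h 0.94 0.139 0.139 0.87023 0.8062 hk2 g1 (by norm_num) (by rw [abs_of_nonneg (by linarith)]; linarith) (expm_le (by norm_num) (by norm_num) (by norm_num)) (by norm_num) (by norm_num)
    exact JB7_k1a_b3_2 hβ hN hx1 hx2 (by linarith) (by linarith)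
  rcases le_total (sy κ t) 0.229 with f3 | g3
  · have hx1 : 0.6275 ≤ sx κ t := sx_lo h 0.84 0.229 0.229 0.79532 0.6275 hk1 (by norm_num) f3 (abs_le.2 ⟨by linarith, by linarith⟩) (expm_ge (by norm_num) (by norm_num) (by norm_num) (by norm_num)) (by norm_num) (by norm_num)
    have hx2 : sx κ t ≤ 0.7549 := sx_hi h 0.94 0.189 0.189 0.82779 0.7549 hk2 g2 (by norm_num) (by rw [abs_of_nonneg (by linarith)]; linarith) (expm_le (by norm_num) (by norm_num) (by norm_num)) (by norm_num) (by norm_num)
    exact JB7_k1a_b3_3 hβ hN hx1 hx2 (by linarith) (by linarith)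
  have hx1 : 0.5966 ≤ sx κ t := sx_lo h 0.84 0.257 0.257 0.77336 0.5966 hk1 (by norm_num) hy2 (abs_le.2 ⟨by linarith, by linarith⟩) (expm_ge (by norm_num) (by norm_num) (by norm_num) (by norm_num)) (by norm_num) (by norm_num)
  have hx2 : sx κ t ≤ 0.7117 := sx_hi h 0.94 0.229 0.229 0.79533 0.7117 hk2 g3 (by norm_num) (by rw [abs_of_nonneg (by linarith)]; linarith) (expm_le (by norm_num) (by norm_num) (by norm_num)) (by norm_num) (by norm_num)
  exact JB7_k1a_b3_4 hβ hN hx1 hx2 (by linarith) (by linarith)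

private theorem JB7_k1a_b4_0 {β x y : ℝ} (hβ : 0 < β) (hN : β * 13.499 ≤ 1) (hx1 : 0.8407 ≤ x) (hx2 : x ≤ 0.981)
    (hy1 : -0 ≤ y) (hy2 : y ≤ 0.104) : ‖HH β (x + y * I) - 1‖ ≤ 0.03 := by
  refine le_epsJ (C := 0.4049) (N0 := 13.499) (J_boxp 0.8407 0.981 0 0.104 0.104 1.302 0.9865 1.4769 0.8181 0.4849 3.6741 13.499 0.7577 2.771 1.407 1.0428 0.6509 0.4865 1.296 3.5354 0.7527 1.6534 2.806 3.2218 0.0001531 0.001407 0.0000003101 0.0000003101 0.00003869 0.0000003101 0.0000003101 0.0000003101 0.4049
    hβ hN hx1 hx2 hy1 hy2 (by norm_num) (by norm_num) (by linarith) (by norm_num) (by norm_num) (by norm_num) (by norm_num) (by norm_num) (by norm_num) (by norm_num) (by norm_num) (by norm_num) (by norm_num) (by norm_num) (by norm_num) (by norm_num) (by norm_num) (by norm_num) (by norm_num) (by norm_num) (by norm_num) (by norm_num) (by norm_num) (by norm_num)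
    (cube_sqrt_geJ (s := 0.8645) (by norm_num) (by norm_num) (by norm_num) (by norm_num))
    (cube_sqrt_geJ (s := 0.9524) (by norm_num) (by norm_num) (by norm_num) (by norm_num))
    (by norm_num) (by norm_num) (by norm_num) (by norm_num) (by norm_num) (by norm_num) (by norm_num) (by norm_num) (by norm_num) (by norm_num) (by norm_num) (by norm_num) (by norm_num) (by norm_num) (by norm_num) (by norm_num) (by norm_num) (by norm_num)
    (exp_neg_leJ (r := 0.786) 8 (by norm_num) (by norm_num) (by norm_num) (by norm_num))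
    (exp_neg_leJ (r := 0.567) 6 (by norm_num) (by norm_num) (by norm_num) (by norm_num))
    (exp_neg_leJ (r := 0.99) 14 (by norm_num) (by norm_num) (by norm_num) (by norm_num))
    (exp_neg_leJ (r := 0.99) 14 (by norm_num) (by norm_num) (by norm_num) (by norm_num))
    (exp_neg_leJ (r := 0.16) 10 (by norm_num) (by norm_num) (by norm_num) (by norm_num))
    (exp_neg_leJ (r := 0.99) 14 (by norm_num) (by norm_num) (by norm_num) (by norm_num))
    (exp_neg_leJ (r := 0.99) 14 (by norm_num) (by norm_num) (by norm_num) (by norm_num))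
    (exp_neg_leJ (r := 0.99) 14 (by norm_num) (by norm_num) (by norm_num) (by norm_num))
    (by norm_num)) (by norm_num) hN hβ.le (by norm_num)

private theorem JB7_k1a_b4_1 {β x y : ℝ} (hβ : 0 < β) (hN : β * 13.499 ≤ 1) (hx1 : 0.7652 ≤ x) (hx2 : x ≤ 0.8953)
    (hy1 : -0 ≤ y) (hy2 : y ≤ 0.179) : ‖HH β (x + y * I) - 1‖ ≤ 0.03 := by
  refine le_epsJ (C := 0.404) (N0 := 13.499) (J_boxp 0.7652 0.8953 0 0.179 0.179 1.2488 0.9131 1.4805 0.8719 0.4855 3.6741 13.499 0.7312 2.659 1.389 1.0757 0.6243 0.4722 1.2702 3.5816 0.7084 1.5412 2.3333 2.9169 0.0002189 0.001706 0.0000003101 0.0000003101 0.00007038 0.0000003101 0.0000003101 0.0000003101 0.404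
    hβ hN hx1 hx2 hy1 hy2 (by norm_num) (by norm_num) (by linarith) (by norm_num) (by norm_num) (by norm_num) (by norm_num) (by norm_num) (by norm_num) (by norm_num) (by norm_num) (by norm_num) (by norm_num) (by norm_num) (by norm_num) (by norm_num) (by norm_num) (by norm_num) (by norm_num) (by norm_num) (by norm_num) (by norm_num) (by norm_num) (by norm_num)
    (cube_sqrt_geJ (s := 0.8696) (by norm_num) (by norm_num) (by norm_num) (by norm_num))
    (cube_sqrt_geJ (s := 0.9541) (by norm_num) (by norm_num) (by norm_num) (by norm_num))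
    (by norm_num) (by norm_num) (by norm_num) (by norm_num) (by norm_num) (by norm_num) (by norm_num) (by norm_num) (by norm_num) (by norm_num) (by norm_num) (by norm_num) (by norm_num) (by norm_num) (by norm_num) (by norm_num) (by norm_num) (by norm_num)
    (exp_neg_leJ (r := 0.427) 8 (by norm_num) (by norm_num) (by norm_num) (by norm_num))
    (exp_neg_leJ (r := 0.374) 6 (by norm_num) (by norm_num) (by norm_num) (by norm_num))
    (exp_neg_leJ (r := 0.99) 14 (by norm_num) (by norm_num) (by norm_num) (by norm_num))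
    (exp_neg_leJ (r := 0.99) 14 (by norm_num) (by norm_num) (by norm_num) (by norm_num))
    (exp_neg_leJ (r := 0.562) 9 (by norm_num) (by norm_num) (by norm_num) (by norm_num))
    (exp_neg_leJ (r := 0.99) 14 (by norm_num) (by norm_num) (by norm_num) (by norm_num))
    (exp_neg_leJ (r := 0.99) 14 (by norm_num) (by norm_num) (by norm_num) (by norm_num))
    (exp_neg_leJ (r := 0.99) 14 (by norm_num) (by norm_num) (by norm_num) (by norm_num))
    (by norm_num)) (by norm_num) hN hβ.le (by norm_num)

private theorem JB7_k1a_b4_2 {β x y : ℝ} (hβ : 0 < β) (hN : β * 13.499 ≤ 1) (hx1 : 0.7005 ≤ x) (hx2 : x ≤ 0.8168)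
    (hy1 : -0 ≤ y) (hy2 : y ≤ 0.239) : ‖HH β (x + y * I) - 1‖ ≤ 0.03 := by
  refine le_epsJ (C := 0.4042) (N0 := 13.499) (J_boxp 0.7005 0.8168 0 0.239 0.239 1.2033 0.8511 1.4841 0.923 0.4861 3.6741 13.499 0.7074 2.564 1.374 1.1059 0.6016 0.4597 1.248 3.6225 0.6708 1.4455 1.9466 2.6733 0.0002976 0.00202 0.0000003101 0.0000003101 0.0001169 0.0000003101 0.0000003101 0.0000003101 0.4042
    hβ hN hx1 hx2 hy1 hy2 (by norm_num) (by norm_num) (by linarith) (by norm_num) (by norm_num) (by norm_num) (by norm_num) (by norm_num) (by norm_num) (by norm_num) (by norm_num) (by norm_num) (by norm_num) (by norm_num) (by norm_num) (by norm_num) (by norm_num) (by norm_num) (by norm_num) (by norm_num) (by norm_num) (by norm_num) (by norm_num) (by norm_num)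
    (cube_sqrt_geJ (s := 0.8741) (by norm_num) (by norm_num) (by norm_num) (by norm_num))
    (cube_sqrt_geJ (s := 0.9557) (by norm_num) (by norm_num) (by norm_num) (by norm_num))
    (by norm_num) (by norm_num) (by norm_num) (by norm_num) (by norm_num) (by norm_num) (by norm_num) (by norm_num) (by norm_num) (by norm_num) (by norm_num) (by norm_num) (by norm_num) (by norm_num) (by norm_num) (by norm_num) (by norm_num) (by norm_num)
    (exp_neg_leJ (r := 0.12) 8 (by norm_num) (by norm_num) (by norm_num) (by norm_num))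
    (exp_neg_leJ (r := 0.205) 6 (by norm_num) (by norm_num) (by norm_num) (by norm_num))
    (exp_neg_leJ (r := 0.99) 14 (by norm_num) (by norm_num) (by norm_num) (by norm_num))
    (exp_neg_leJ (r := 0.99) 14 (by norm_num) (by norm_num) (by norm_num) (by norm_num))
    (exp_neg_leJ (r := 0.055) 9 (by norm_num) (by norm_num) (by norm_num) (by norm_num))
    (exp_neg_leJ (r := 0.99) 14 (by norm_num) (by norm_num) (by norm_num) (by norm_num))
    (exp_neg_leJ (r := 0.99) 14 (by norm_num) (by norm_num) (by norm_num) (by norm_num))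
    (exp_neg_leJ (r := 0.99) 14 (by norm_num) (by norm_num) (by norm_num) (by norm_num))
    (by norm_num)) (by norm_num) hN hβ.le (by norm_num)

private theorem JB7_k1a_b4_3 {β x y : ℝ} (hβ : 0 < β) (hN : β * 13.499 ≤ 1) (hx1 : 0.6753 ≤ x) (hx2 : x ≤ 0.7503)
    (hy1 : -0 ≤ y) (hy2 : y ≤ 0.261) : ‖HH β (x + y * I) - 1‖ ≤ 0.03 := by
  refine le_epsJ (C := 0.3687) (N0 := 13.499) (J_boxp 0.6753 0.7503 0 0.261 0.261 1.1855 0.7944 1.4674 0.9385 0.4833 3.6741 13.499 0.6701 2.423 1.35 1.1315 0.5927 0.4603 1.2394 3.6583 0.6564 1.4084 1.8018 2.6734 0.0003355 0.002004 0.0000003101 0.0000003101 0.0001423 0.0000003101 0.0000003101 0.0000003101 0.3687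
    hβ hN hx1 hx2 hy1 hy2 (by norm_num) (by norm_num) (by linarith) (by norm_num) (by norm_num) (by norm_num) (by norm_num) (by norm_num) (by norm_num) (by norm_num) (by norm_num) (by norm_num) (by norm_num) (by norm_num) (by norm_num) (by norm_num) (by norm_num) (by norm_num) (by norm_num) (by norm_num) (by norm_num) (by norm_num) (by norm_num) (by norm_num)
    (cube_sqrt_geJ (s := 0.8812) (by norm_num) (by norm_num) (by norm_num) (by norm_num))
    (cube_sqrt_geJ (s := 0.958) (by norm_num) (by norm_num) (by norm_num) (by norm_num))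
    (by norm_num) (by norm_num) (by norm_num) (by norm_num) (by norm_num) (by norm_num) (by norm_num) (by norm_num) (by norm_num) (by norm_num) (by norm_num) (by norm_num) (by norm_num) (by norm_num) (by norm_num) (by norm_num) (by norm_num) (by norm_num)
    (exp_neg_leJ (r := 0) 8 (by norm_num) (by norm_num) (by norm_num) (by norm_num))
    (exp_neg_leJ (r := 0.213) 6 (by norm_num) (by norm_num) (by norm_num) (by norm_num))
    (exp_neg_leJ (r := 0.99) 14 (by norm_num) (by norm_num) (by norm_num) (by norm_num))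
    (exp_neg_leJ (r := 0.99) 14 (by norm_num) (by norm_num) (by norm_num) (by norm_num))
    (exp_neg_leJ (r := 0.86) 8 (by norm_num) (by norm_num) (by norm_num) (by norm_num))
    (exp_neg_leJ (r := 0.99) 14 (by norm_num) (by norm_num) (by norm_num) (by norm_num))
    (exp_neg_leJ (r := 0.99) 14 (by norm_num) (by norm_num) (by norm_num) (by norm_num))
    (exp_neg_leJ (r := 0.99) 14 (by norm_num) (by norm_num) (by norm_num) (by norm_num))
    (by norm_num)) (by norm_num) hN hβ.le (by norm_num)

theorem JB7_k1a_c4 {κ t β : ℝ} (h : DomR κ t) (hβ : 0 < β) (hk1 : 0.94 ≤ κ) (hk2 : κ ≤ 1)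
    (ht1 : 0.04 ≤ t + κ) (ht2 : t + κ ≤ 0.62) (hR0 : β * 10 ≤ κ) (hR : β * (6.75 * (1 + κ ^ 2)) ≤ κ) :
    ‖HH β (sg κ t) - 1‖ ≤ 0.03 := by
  have hN : β * 13.499 ≤ 1 := bNC hβ h.1 hk2 (by norm_num) (by norm_num) hR (by norm_num)
  have hy1 : 0.019 ≤ sy κ t := syR_ge h 0.94 1 0.04 0.019 1.01918 1.01919 0.01936 0.02061 hk1 hk2 (by linarith) (by norm_num) (by norm_num)
    (expn_ge (by norm_num) (by norm_num)) (expn_le (by norm_num) (by norm_num) (by norm_num)) (by norm_num)
    (by norm_num) (by norm_num) (by norm_num) (by norm_num) (by norm_num) (by norm_num)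
  have hy2 : sy κ t ≤ 0.261 := syR_le h 0.94 1 0.62 0.261 1.29822 0.3334 0.33883 0.36047 hk1 hk2 (by linarith) (by norm_num) (by norm_num)
    (expn_ge (by norm_num) (by norm_num)) (by norm_num) (by norm_num) (Or.inr ((mul_le_mul_of_nonneg_left (expn_le (E := 1.29823) (by norm_num) (by norm_num) (by norm_num)) (by norm_num)).trans (by norm_num))) (by norm_num) (by norm_num) (by norm_num)
  rcases le_total (sy κ t) 0.104 with f0 | g0
  · have hx1 : 0.8407 ≤ sx κ t := sx_lo h 0.94 0.104 0.104 0.90122 0.8407 hk1 (by norm_num) f0 (abs_le.2 ⟨by linarith, by linarith⟩) (expm_ge (by norm_num) (by norm_num) (by norm_num) (by norm_num)) (by norm_num) (by norm_num)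
    have hx2 : sx κ t ≤ 0.981 := sx_hi h 1 0.019 0.019 0.98118 0.981 hk2 hy1 (by norm_num) (by rw [abs_of_nonneg (by linarith)]; linarith) (expm_le (by norm_num) (by norm_num) (by norm_num)) (by norm_num) (by norm_num)
    exact JB7_k1a_b4_0 hβ hN hx1 hx2 (by linarith) (by linarith)
  rcases le_total (sy κ t) 0.179 with f1 | g1
  · have hx1 : 0.7652 ≤ sx κ t := sx_lo h 0.94 0.179 0.179 0.8361 0.7652 hk1 (by norm_num) f1 (abs_le.2 ⟨by linarith, by linarith⟩) (expm_ge (by norm_num) (by norm_num) (by norm_num) (by norm_num)) (by norm_num) (by norm_num)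
    have hx2 : sx κ t ≤ 0.8953 := sx_hi h 1 0.104 0.104 0.90123 0.8953 hk2 g0 (by norm_num) (by rw [abs_of_nonneg (by linarith)]; linarith) (expm_le (by norm_num) (by norm_num) (by norm_num)) (by norm_num) (by norm_num)
    exact JB7_k1a_b4_1 hβ hN hx1 hx2 (by linarith) (by linarith)
  rcases le_total (sy κ t) 0.239 with f2 | g2
  · have hx1 : 0.7005 ≤ sx κ t := sx_lo h 0.94 0.239 0.239 0.78741 0.7005 hk1 (by norm_num) f2 (abs_le.2 ⟨by linarith, by linarith⟩) (expm_ge (by norm_num) (by norm_num) (by norm_num) (by norm_num)) (by norm_num) (by norm_num)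
    have hx2 : sx κ t ≤ 0.8168 := sx_hi h 1 0.179 0.179 0.83611 0.8168 hk2 g1 (by norm_num) (by rw [abs_of_nonneg (by linarith)]; linarith) (expm_le (by norm_num) (by norm_num) (by norm_num)) (by norm_num) (by norm_num)
    exact JB7_k1a_b4_2 hβ hN hx1 hx2 (by linarith) (by linarith)
  have hx1 : 0.6753 ≤ sx κ t := sx_lo h 0.94 0.261 0.261 0.77028 0.6753 hk1 (by norm_num) hy2 (abs_le.2 ⟨by linarith, by linarith⟩) (expm_ge (by norm_num) (by norm_num) (by norm_num) (by norm_num)) (by norm_num) (by norm_num)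
  have hx2 : sx κ t ≤ 0.7503 := sx_hi h 1 0.239 0.239 0.78742 0.7503 hk2 g2 (by norm_num) (by rw [abs_of_nonneg (by linarith)]; linarith) (expm_le (by norm_num) (by norm_num) (by norm_num)) (by norm_num) (by norm_num)
  exact JB7_k1a_b4_3 hβ hN hx1 hx2 (by linarith) (by linarith)
end Sok
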