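import Pool.Agent.Lib.MP_816dec_an.JBG

/-!
MP_816dec_an (A3, row R1): tables b = 7, real points.
-/

set_option autoImplicit false
set_option maxHeartbeats 4000000

open Complex Set

namespace Sok

private theorem JB7_k1a_b9_0 {β x y : ℝ} (hβ : 0 < β) (hN : β * 13.887 ≤ 1) (hx1 : 1.1895 ≤ x) (hx2 : x ≤ 1.3049)
    (hy1 : -0 ≤ y) (hy2 : y ≤ 0.064) : ‖HH β (x + y * I) - 1‖ ≤ 0.03 := by
  refine le_epsJ (C := 0.4139) (N0 := 13.887) (J_boxp 1.1895 1.3049 0 0.064 0.064 1.5476 1.3065 1.6838 0.674 0.5177 3.7266 13.887 0.8443 3.18 1.466 0.9182 0.7737 0.556 1.4154 3.3492 0.9262 2.1404 3.6752 3.238 0.0000216 0.0004439 0.0000003101 0.0000003101 0.0000026 0.0000003101 0.0000003101 0.0000003101 0.4139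
    hβ hN hx1 hx2 hy1 hy2 (by norm_num) (by norm_num) (by linarith) (by norm_num) (by norm_num) (by norm_num) (by norm_num) (by norm_num) (by norm_num) (by norm_num) (by norm_num) (by norm_num) (by norm_num) (by norm_num) (by norm_num) (by norm_num) (by norm_num) (by norm_num) (by norm_num) (by norm_num) (by norm_num) (by norm_num) (by norm_num) (by norm_num)
    (cube_sqrt_geJ (s := 0.8476) (by norm_num) (by norm_num) (by norm_num) (by norm_num))
    (cube_sqrt_geJ (s := 0.9469) (by norm_num) (by norm_num) (by norm_num) (by norm_num))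
    (by norm_num) (by norm_num) (by norm_num) (by norm_num) (by norm_num) (by norm_num) (by norm_num) (by norm_num) (by norm_num) (by norm_num) (by norm_num) (by norm_num) (by norm_num) (by norm_num) (by norm_num) (by norm_num) (by norm_num) (by norm_num)
    (exp_neg_leJ (r := 0.744) 10 (by norm_num) (by norm_num) (by norm_num) (by norm_num))
    (exp_neg_leJ (r := 0.721) 7 (by norm_num) (by norm_num) (by norm_num) (by norm_num))
    (exp_neg_leJ (r := 0.99) 14 (by norm_num) (by norm_num) (by norm_num) (by norm_num))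
    (exp_neg_leJ (r := 0.99) 14 (by norm_num) (by norm_num) (by norm_num) (by norm_num))
    (exp_neg_leJ (r := 0.862) 12 (by norm_num) (by norm_num) (by norm_num) (by norm_num))
    (exp_neg_leJ (r := 0.99) 14 (by norm_num) (by norm_num) (by norm_num) (by norm_num))
    (exp_neg_leJ (r := 0.99) 14 (by norm_num) (by norm_num) (by norm_num) (by norm_num))
    (exp_neg_leJ (r := 0.99) 14 (by norm_num) (by norm_num) (by norm_num) (by norm_num))
    (by norm_num)) (by norm_num) hN hβ.le (by norm_num)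

private theorem JB7_k1a_b9_1 {β x y : ℝ} (hβ : 0 < β) (hN : β * 13.887 ≤ 1) (hx1 : 1.1336 ≤ x) (hx2 : x ≤ 1.246)
    (hy1 : -0 ≤ y) (hy2 : y ≤ 0.109) : ‖HH β (x + y * I) - 1‖ ≤ 0.03 := by
  refine le_epsJ (C := 0.4112) (N0 := 13.887) (J_boxp 1.1336 1.246 0 0.109 0.109 1.5082 1.2508 1.6681 0.6974 0.5153 3.7266 13.887 0.8294 3.104 1.455 0.9408 0.754 0.5456 1.3963 3.3824 0.8945 2.0584 3.3703 3.0656 0.00002838 0.0005128 0.0000003101 0.0000003101 0.000004034 0.0000003101 0.0000003101 0.0000003101 0.4112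
    hβ hN hx1 hx2 hy1 hy2 (by norm_num) (by norm_num) (by linarith) (by norm_num) (by norm_num) (by norm_num) (by norm_num) (by norm_num) (by norm_num) (by norm_num) (by norm_num) (by norm_num) (by norm_num) (by norm_num) (by norm_num) (by norm_num) (by norm_num) (by norm_num) (by norm_num) (by norm_num) (by norm_num) (by norm_num) (by norm_num) (by norm_num)
    (cube_sqrt_geJ (s := 0.8506) (by norm_num) (by norm_num) (by norm_num) (by norm_num))
    (cube_sqrt_geJ (s := 0.9478) (by norm_num) (by norm_num) (by norm_num) (by norm_num))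
    (by norm_num) (by norm_num) (by norm_num) (by norm_num) (by norm_num) (by norm_num) (by norm_num) (by norm_num) (by norm_num) (by norm_num) (by norm_num) (by norm_num) (by norm_num) (by norm_num) (by norm_num) (by norm_num) (by norm_num) (by norm_num)
    (exp_neg_leJ (r := 0.47) 10 (by norm_num) (by norm_num) (by norm_num) (by norm_num))
    (exp_neg_leJ (r := 0.576) 7 (by norm_num) (by norm_num) (by norm_num) (by norm_num))
    (exp_neg_leJ (r := 0.99) 14 (by norm_num) (by norm_num) (by norm_num) (by norm_num))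
    (exp_neg_leJ (r := 0.99) 14 (by norm_num) (by norm_num) (by norm_num) (by norm_num))
    (exp_neg_leJ (r := 0.421) 12 (by norm_num) (by norm_num) (by norm_num) (by norm_num))
    (exp_neg_leJ (r := 0.99) 14 (by norm_num) (by norm_num) (by norm_num) (by norm_num))
    (exp_neg_leJ (r := 0.99) 14 (by norm_num) (by norm_num) (by norm_num) (by norm_num))
    (exp_neg_leJ (r := 0.99) 14 (by norm_num) (by norm_num) (by norm_num) (by norm_num))
    (by norm_num)) (by norm_num) hN hβ.le (by norm_num)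

private theorem JB7_k1a_b9_2 {β x y : ℝ} (hβ : 0 < β) (hN : β * 13.887 ≤ 1) (hx1 : 1.0777 ≤ x) (hx2 : x ≤ 1.1877)
    (hy1 : -0 ≤ y) (hy2 : y ≤ 0.154) : ‖HH β (x + y * I) - 1‖ ≤ 0.03 := by
  refine le_epsJ (C := 0.4107) (N0 := 13.887) (J_boxp 1.0777 1.1877 0 0.154 0.154 1.4689 1.1977 1.6561 0.7229 0.5134 3.7266 13.887 0.8154 3.035 1.446 0.9633 0.7344 0.5348 1.3771 3.4147 0.8627 1.9764 3.0655 2.8861 0.00003725 0.0005957 0.0000003101 0.0000003101 0.00000629 0.0000003101 0.0000003101 0.0000003101 0.4107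
    hβ hN hx1 hx2 hy1 hy2 (by norm_num) (by norm_num) (by linarith) (by norm_num) (by norm_num) (by norm_num) (by norm_num) (by norm_num) (by norm_num) (by norm_num) (by norm_num) (by norm_num) (by norm_num) (by norm_num) (by norm_num) (by norm_num) (by norm_num) (by norm_num) (by norm_num) (by norm_num) (by norm_num) (by norm_num) (by norm_num) (by norm_num)
    (cube_sqrt_geJ (s := 0.8533) (by norm_num) (by norm_num) (by norm_num) (by norm_num))
    (cube_sqrt_geJ (s := 0.9487) (by norm_num) (by norm_num) (by norm_num) (by norm_num))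
    (by norm_num) (by norm_num) (by norm_num) (by norm_num) (by norm_num) (by norm_num) (by norm_num) (by norm_num) (by norm_num) (by norm_num) (by norm_num) (by norm_num) (by norm_num) (by norm_num) (by norm_num) (by norm_num) (by norm_num) (by norm_num)
    (exp_neg_leJ (r := 0.198) 10 (by norm_num) (by norm_num) (by norm_num) (by norm_num))
    (exp_neg_leJ (r := 0.426) 7 (by norm_num) (by norm_num) (by norm_num) (by norm_num))
    (exp_neg_leJ (r := 0.99) 14 (by norm_num) (by norm_num) (by norm_num) (by norm_num))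
    (exp_neg_leJ (r := 0.99) 14 (by norm_num) (by norm_num) (by norm_num) (by norm_num))
    (exp_neg_leJ (r := 0.98) 11 (by norm_num) (by norm_num) (by norm_num) (by norm_num))
    (exp_neg_leJ (r := 0.99) 14 (by norm_num) (by norm_num) (by norm_num) (by norm_num))
    (exp_neg_leJ (r := 0.99) 14 (by norm_num) (by norm_num) (by norm_num) (by norm_num))
    (exp_neg_leJ (r := 0.99) 14 (by norm_num) (by norm_num) (by norm_num) (by norm_num))
    (by norm_num)) (by norm_num) hN hβ.le (by norm_num)

private theorem JB7_k1a_b9_3 {β x y : ℝ} (hβ : 0 < β) (hN : β * 13.887 ≤ 1) (hx1 : 1.0216 ≤ x) (hx2 : x ≤ 1.1298)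
    (hy1 : -0 ≤ y) (hy2 : y ≤ 0.199) : ‖HH β (x + y * I) - 1‖ ≤ 0.03 := by
  refine le_epsJ (C := 0.4127) (N0 := 13.887) (J_boxp 1.0216 1.1298 0 0.199 0.199 1.4294 1.1472 1.6475 0.7511 0.5121 3.7266 13.887 0.8026 2.974 1.437 0.9855 0.7146 0.5234 1.3579 3.4461 0.8309 1.8942 2.7603 2.6991 0.00004917 0.0006976 0.0000003101 0.0000003101 0.000009755 0.0000003101 0.0000003101 0.0000003101 0.4127
    hβ hN hx1 hx2 hy1 hy2 (by norm_num) (by norm_num) (by linarith) (by norm_num) (by norm_num) (by norm_num) (by norm_num) (by norm_num) (by norm_num) (by norm_num) (by norm_num) (by norm_num) (by norm_num) (by norm_num) (by norm_num) (by norm_num) (by norm_num) (by norm_num) (by norm_num) (by norm_num) (by norm_num) (by norm_num) (by norm_num) (by norm_num)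
    (cube_sqrt_geJ (s := 0.8558) (by norm_num) (by norm_num) (by norm_num) (by norm_num))
    (cube_sqrt_geJ (s := 0.9495) (by norm_num) (by norm_num) (by norm_num) (by norm_num))
    (by norm_num) (by norm_num) (by norm_num) (by norm_num) (by norm_num) (by norm_num) (by norm_num) (by norm_num) (by norm_num) (by norm_num) (by norm_num) (by norm_num) (by norm_num) (by norm_num) (by norm_num) (by norm_num) (by norm_num) (by norm_num)
    (exp_neg_leJ (r := 0.923) 9 (by norm_num) (by norm_num) (by norm_num) (by norm_num))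
    (exp_neg_leJ (r := 0.268) 7 (by norm_num) (by norm_num) (by norm_num) (by norm_num))
    (exp_neg_leJ (r := 0.99) 14 (by norm_num) (by norm_num) (by norm_num) (by norm_num))
    (exp_neg_leJ (r := 0.99) 14 (by norm_num) (by norm_num) (by norm_num) (by norm_num))
    (exp_neg_leJ (r := 0.538) 11 (by norm_num) (by norm_num) (by norm_num) (by norm_num))
    (exp_neg_leJ (r := 0.99) 14 (by norm_num) (by norm_num) (by norm_num) (by norm_num))
    (exp_neg_leJ (r := 0.99) 14 (by norm_num) (by norm_num) (by norm_num) (by norm_num))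
    (exp_neg_leJ (r := 0.99) 14 (by norm_num) (by norm_num) (by norm_num) (by norm_num))
    (by norm_num)) (by norm_num) hN hβ.le (by norm_num)

private theorem JB7_k1a_b9_4 {β x y : ℝ} (hβ : 0 < β) (hN : β * 13.887 ≤ 1) (hx1 : 0.971 ≤ x) (hx2 : x ≤ 1.0717)
    (hy1 : -0 ≤ y) (hy2 : y ≤ 0.239) : ‖HH β (x + y * I) - 1‖ ≤ 0.03 := by
  refine le_epsJ (C := 0.4113) (N0 := 13.887) (J_boxp 0.971 1.0717 0 0.239 0.239 1.3937 1.0981 1.6382 0.778 0.5107 3.7266 13.887 0.788 2.906 1.427 1.0079 0.6968 0.5138 1.3406 3.4773 0.8022 1.82 2.4876 2.5429 0.00006282 0.0007968 0.0000003101 0.0000003101 0.00001452 0.0000003101 0.0000003101 0.0000003101 0.4113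
    hβ hN hx1 hx2 hy1 hy2 (by norm_num) (by norm_num) (by linarith) (by norm_num) (by norm_num) (by norm_num) (by norm_num) (by norm_num) (by norm_num) (by norm_num) (by norm_num) (by norm_num) (by norm_num) (by norm_num) (by norm_num) (by norm_num) (by norm_num) (by norm_num) (by norm_num) (by norm_num) (by norm_num) (by norm_num) (by norm_num) (by norm_num)
    (cube_sqrt_geJ (s := 0.8586) (by norm_num) (by norm_num) (by norm_num) (by norm_num))
    (cube_sqrt_geJ (s := 0.9505) (by norm_num) (by norm_num) (by norm_num) (by norm_num))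
    (by norm_num) (by norm_num) (by norm_num) (by norm_num) (by norm_num) (by norm_num) (by norm_num) (by norm_num) (by norm_num) (by norm_num) (by norm_num) (by norm_num) (by norm_num) (by norm_num) (by norm_num) (by norm_num) (by norm_num) (by norm_num)
    (exp_neg_leJ (r := 0.676) 9 (by norm_num) (by norm_num) (by norm_num) (by norm_num))
    (exp_neg_leJ (r := 0.135) 7 (by norm_num) (by norm_num) (by norm_num) (by norm_num))
    (exp_neg_leJ (r := 0.99) 14 (by norm_num) (by norm_num) (by norm_num) (by norm_num))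
    (exp_neg_leJ (r := 0.99) 14 (by norm_num) (by norm_num) (by norm_num) (by norm_num))
    (exp_neg_leJ (r := 0.14) 11 (by norm_num) (by norm_num) (by norm_num) (by norm_num))
    (exp_neg_leJ (r := 0.99) 14 (by norm_num) (by norm_num) (by norm_num) (by norm_num))
    (exp_neg_leJ (r := 0.99) 14 (by norm_num) (by norm_num) (by norm_num) (by norm_num))
    (exp_neg_leJ (r := 0.99) 14 (by norm_num) (by norm_num) (by norm_num) (by norm_num))
    (by norm_num)) (by norm_num) hN hβ.le (by norm_num)

private theorem JB7_k1a_b9_5 {β x y : ℝ} (hβ : 0 < β) (hN : β * 13.887 ≤ 1) (hx1 : 0.9311 ≤ x) (hx2 : x ≤ 1.0197)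
    (hy1 : -0 ≤ y) (hy2 : y ≤ 0.27) : ‖HH β (x + y * I) - 1‖ ≤ 0.03 := by
  refine le_epsJ (C := 0.4053) (N0 := 13.887) (J_boxp 0.9311 1.0197 0 0.27 0.27 1.3656 1.0549 1.6288 0.7998 0.5092 3.7266 13.887 0.7725 2.836 1.416 1.0279 0.6827 0.5069 1.327 3.505 0.7797 1.7616 2.2748 2.4344 0.00007638 0.0008771 0.0000003101 0.0000003101 0.00001989 0.0000003101 0.0000003101 0.0000003101 0.4053
    hβ hN hx1 hx2 hy1 hy2 (by norm_num) (by norm_num) (by linarith) (by norm_num) (by norm_num) (by norm_num) (by norm_num) (by norm_num) (by norm_num) (by norm_num) (by norm_num) (by norm_num) (by norm_num) (by norm_num) (by norm_num) (by norm_num) (by norm_num) (by norm_num) (by norm_num) (by norm_num) (by norm_num) (by norm_num) (by norm_num) (by norm_num)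
    (cube_sqrt_geJ (s := 0.8616) (by norm_num) (by norm_num) (by norm_num) (by norm_num))
    (cube_sqrt_geJ (s := 0.9515) (by norm_num) (by norm_num) (by norm_num) (by norm_num))
    (by norm_num) (by norm_num) (by norm_num) (by norm_num) (by norm_num) (by norm_num) (by norm_num) (by norm_num) (by norm_num) (by norm_num) (by norm_num) (by norm_num) (by norm_num) (by norm_num) (by norm_num) (by norm_num) (by norm_num) (by norm_num)
    (exp_neg_leJ (r := 0.48) 9 (by norm_num) (by norm_num) (by norm_num) (by norm_num))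
    (exp_neg_leJ (r := 0.039) 7 (by norm_num) (by norm_num) (by norm_num) (by norm_num))
    (exp_neg_leJ (r := 0.99) 14 (by norm_num) (by norm_num) (by norm_num) (by norm_num))
    (exp_neg_leJ (r := 0.99) 14 (by norm_num) (by norm_num) (by norm_num) (by norm_num))
    (exp_neg_leJ (r := 0.827) 10 (by norm_num) (by norm_num) (by norm_num) (by norm_num))
    (exp_neg_leJ (r := 0.99) 14 (by norm_num) (by norm_num) (by norm_num) (by norm_num))
    (exp_neg_leJ (r := 0.99) 14 (by norm_num) (by norm_num) (by norm_num) (by norm_num))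
    (exp_neg_leJ (r := 0.99) 14 (by norm_num) (by norm_num) (by norm_num) (by norm_num))
    (by norm_num)) (by norm_num) hN hβ.le (by norm_num)

theorem JB7_k1a_c9 {κ t β : ℝ} (h : DomR κ t) (hβ : 0 < β) (hk1 : 1.27 ≤ κ) (hk2 : κ ≤ 1.33)
    (ht1 : 0.04 ≤ t + κ) (ht2 : t + κ ≤ 0.62) (hR0 : β * 10 ≤ κ) (hR : β * (6.75 * (1 + κ ^ 2)) ≤ κ) :
    ‖HH β (sg κ t) - 1‖ ≤ 0.03 := by
  have hN : β * 13.887 ≤ 1 := bNC' hβ hk1 (by norm_num) (by norm_num) hR (by norm_num)
  have hy1 : 0.019 ≤ sy κ t := syR_ge h 1.27 1.33 0.04 0.019 1.01918 1.01919 0.01455 0.01525 hk1 hk2 (by linarith) (by norm_num) (by norm_num)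
    (expn_ge (by norm_num) (by norm_num)) (expn_le (by norm_num) (by norm_num) (by norm_num)) (by norm_num)
    (by norm_num) (by norm_num) (by norm_num) (by norm_num) (by norm_num) (by norm_num)
  have hy2 : sy κ t ≤ 0.27 := syR_le h 1.27 1.33 0.62 0.27 1.30996 0.2648 0.26593 0.2785 hk1 hk2 (by linarith) (by norm_num) (by norm_num)
    (expn_ge (by norm_num) (by norm_num)) (by norm_num) (by norm_num) (Or.inr ((mul_le_mul_of_nonneg_left (expn_le (E := 1.30997) (by norm_num) (by norm_num) (by norm_num)) (by norm_num)).trans (by norm_num))) (by norm_num) (by norm_num) (by norm_num)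
  rcases le_total (sy κ t) 0.064 with f0 | g0
  · have hx1 : 1.1895 ≤ sx κ t := sx_lo h 1.27 0.064 0.064 0.938 1.1895 hk1 (by norm_num) f0 (abs_le.2 ⟨by linarith, by linarith⟩) (expm_ge (by norm_num) (by norm_num) (by norm_num) (by norm_num)) (by norm_num) (by norm_num)
    have hx2 : sx κ t ≤ 1.3049 := sx_hi h 1.33 0.019 0.019 0.98118 1.3049 hk2 hy1 (by norm_num) (by rw [abs_of_nonneg (by linarith)]; linarith) (expm_le (by norm_num) (by norm_num) (by norm_num)) (by norm_num) (by norm_num)
    exact JB7_k1a_b9_0 hβ hN hx1 hx2 (by linarith) (by linarith)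
  rcases le_total (sy κ t) 0.109 with f1 | g1
  · have hx1 : 1.1336 ≤ sx κ t := sx_lo h 1.27 0.109 0.109 0.89673 1.1336 hk1 (by norm_num) f1 (abs_le.2 ⟨by linarith, by linarith⟩) (expm_ge (by norm_num) (by norm_num) (by norm_num) (by norm_num)) (by norm_num) (by norm_num)
    have hx2 : sx κ t ≤ 1.246 := sx_hi h 1.33 0.064 0.064 0.93801 1.246 hk2 g0 (by norm_num) (by rw [abs_of_nonneg (by linarith)]; linarith) (expm_le (by norm_num) (by norm_num) (by norm_num)) (by norm_num) (by norm_num)
    exact JB7_k1a_b9_1 hβ hN hx1 hx2 (by linarith) (by linarith)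
  rcases le_total (sy κ t) 0.154 with f2 | g2
  · have hx1 : 1.0777 ≤ sx κ t := sx_lo h 1.27 0.154 0.154 0.85727 1.0777 hk1 (by norm_num) f2 (abs_le.2 ⟨by linarith, by linarith⟩) (expm_ge (by norm_num) (by norm_num) (by norm_num) (by norm_num)) (by norm_num) (by norm_num)
    have hx2 : sx κ t ≤ 1.1877 := sx_hi h 1.33 0.109 0.109 0.89674 1.1877 hk2 g1 (by norm_num) (by rw [abs_of_nonneg (by linarith)]; linarith) (expm_le (by norm_num) (by norm_num) (by norm_num)) (by norm_num) (by norm_num)
    exact JB7_k1a_b9_2 hβ hN hx1 hx2 (by linarith) (by linarith)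
  rcases le_total (sy κ t) 0.199 with f3 | g3
  · have hx1 : 1.0216 ≤ sx κ t := sx_lo h 1.27 0.199 0.199 0.81954 1.0216 hk1 (by norm_num) f3 (abs_le.2 ⟨by linarith, by linarith⟩) (expm_ge (by norm_num) (by norm_num) (by norm_num) (by norm_num)) (by norm_num) (by norm_num)
    have hx2 : sx κ t ≤ 1.1298 := sx_hi h 1.33 0.154 0.154 0.85728 1.1298 hk2 g2 (by norm_num) (by rw [abs_of_nonneg (by linarith)]; linarith) (expm_le (by norm_num) (by norm_num) (by norm_num)) (by norm_num) (by norm_num)
    exact JB7_k1a_b9_3 hβ hN hx1 hx2 (by linarith) (by linarith)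
  rcases le_total (sy κ t) 0.239 with f4 | g4
  · have hx1 : 0.971 ≤ sx κ t := sx_lo h 1.27 0.239 0.239 0.78741 0.971 hk1 (by norm_num) f4 (abs_le.2 ⟨by linarith, by linarith⟩) (expm_ge (by norm_num) (by norm_num) (by norm_num) (by norm_num)) (by norm_num) (by norm_num)
    have hx2 : sx κ t ≤ 1.0717 := sx_hi h 1.33 0.199 0.199 0.81955 1.0717 hk2 g3 (by norm_num) (by rw [abs_of_nonneg (by linarith)]; linarith) (expm_le (by norm_num) (by norm_num) (by norm_num)) (by norm_num) (by norm_num)
    exact JB7_k1a_b9_4 hβ hN hx1 hx2 (by linarith) (by linarith)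
  have hx1 : 0.9311 ≤ sx κ t := sx_lo h 1.27 0.27 0.27 0.76337 0.9311 hk1 (by norm_num) hy2 (abs_le.2 ⟨by linarith, by linarith⟩) (expm_ge (by norm_num) (by norm_num) (by norm_num) (by norm_num)) (by norm_num) (by norm_num)
  have hx2 : sx κ t ≤ 1.0197 := sx_hi h 1.33 0.239 0.239 0.78742 1.0197 hk2 g4 (by norm_num) (by rw [abs_of_nonneg (by linarith)]; linarith) (expm_le (by norm_num) (by norm_num) (by norm_num)) (by norm_num) (by norm_num)
  exact JB7_k1a_b9_5 hβ hN hx1 hx2 (by linarith) (by linarith)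

private theorem JB7_k1a_b10_0 {β x y : ℝ} (hβ : 0 < β) (hN : β * 14.052 ≤ 1) (hx1 : 1.2472 ≤ x) (hx2 : x ≤ 1.3651)
    (hy1 : -0 ≤ y) (hy2 : y ≤ 0.063) : ‖HH β (x + y * I) - 1‖ ≤ 0.03 := by
  refine le_epsJ (C := 0.4214) (N0 := 14.052) (J_boxp 1.2472 1.3651 0 0.063 0.063 1.5882 1.3666 1.7302 0.6572 0.5248 3.7486 14.052 0.8605 3.265 1.477 0.895 0.794 0.5663 1.4352 3.3144 0.9543 2.2204 3.7948 3.1948 0.00001428 0.0003513 0.0000003101 0.0000003101 0.000001502 0.0000003101 0.0000003101 0.0000003101 0.4214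
    hβ hN hx1 hx2 hy1 hy2 (by norm_num) (by norm_num) (by linarith) (by norm_num) (by norm_num) (by norm_num) (by norm_num) (by norm_num) (by norm_num) (by norm_num) (by norm_num) (by norm_num) (by norm_num) (by norm_num) (by norm_num) (by norm_num) (by norm_num) (by norm_num) (by norm_num) (by norm_num) (by norm_num) (by norm_num) (by norm_num) (by norm_num)
    (cube_sqrt_geJ (s := 0.8444) (by norm_num) (by norm_num) (by norm_num) (by norm_num))
    (cube_sqrt_geJ (s := 0.9458) (by norm_num) (by norm_num) (by norm_num) (by norm_num))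
    (by norm_num) (by norm_num) (by norm_num) (by norm_num) (by norm_num) (by norm_num) (by norm_num) (by norm_num) (by norm_num) (by norm_num) (by norm_num) (by norm_num) (by norm_num) (by norm_num) (by norm_num) (by norm_num) (by norm_num) (by norm_num)
    (exp_neg_leJ (r := 0.157) 11 (by norm_num) (by norm_num) (by norm_num) (by norm_num))
    (exp_neg_leJ (r := 0.957) 7 (by norm_num) (by norm_num) (by norm_num) (by norm_num))
    (exp_neg_leJ (r := 0.99) 14 (by norm_num) (by norm_num) (by norm_num) (by norm_num))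
    (exp_neg_leJ (r := 0.99) 14 (by norm_num) (by norm_num) (by norm_num) (by norm_num))
    (exp_neg_leJ (r := 0.409) 13 (by norm_num) (by norm_num) (by norm_num) (by norm_num))
    (exp_neg_leJ (r := 0.99) 14 (by norm_num) (by norm_num) (by norm_num) (by norm_num))
    (exp_neg_leJ (r := 0.99) 14 (by norm_num) (by norm_num) (by norm_num) (by norm_num))
    (exp_neg_leJ (r := 0.99) 14 (by norm_num) (by norm_num) (by norm_num) (by norm_num))
    (by norm_num)) (by norm_num) hN hβ.le (by norm_num)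

private theorem JB7_k1a_b10_1 {β x y : ℝ} (hβ : 0 < β) (hN : β * 14.052 ≤ 1) (hx1 : 1.1889 ≤ x) (hx2 : x ≤ 1.3037)
    (hy1 : -0 ≤ y) (hy2 : y ≤ 0.108) : ‖HH β (x + y * I) - 1‖ ≤ 0.03 := by
  refine le_epsJ (C := 0.4185) (N0 := 14.052) (J_boxp 1.1889 1.3037 0 0.108 0.108 1.5472 1.3082 1.711 0.6797 0.5219 3.7486 14.052 0.8456 3.187 1.467 0.9186 0.7735 0.5555 1.4152 3.3491 0.9214 2.1351 3.4852 3.0249 0.00001908 0.0004083 0.0000003101 0.0000003101 0.000002391 0.0000003101 0.0000003101 0.0000003101 0.4185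
    hβ hN hx1 hx2 hy1 hy2 (by norm_num) (by norm_num) (by linarith) (by norm_num) (by norm_num) (by norm_num) (by norm_num) (by norm_num) (by norm_num) (by norm_num) (by norm_num) (by norm_num) (by norm_num) (by norm_num) (by norm_num) (by norm_num) (by norm_num) (by norm_num) (by norm_num) (by norm_num) (by norm_num) (by norm_num) (by norm_num) (by norm_num)
    (cube_sqrt_geJ (s := 0.8474) (by norm_num) (by norm_num) (by norm_num) (by norm_num))
    (cube_sqrt_geJ (s := 0.9468) (by norm_num) (by norm_num) (by norm_num) (by norm_num))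
    (by norm_num) (by norm_num) (by norm_num) (by norm_num) (by norm_num) (by norm_num) (by norm_num) (by norm_num) (by norm_num) (by norm_num) (by norm_num) (by norm_num) (by norm_num) (by norm_num) (by norm_num) (by norm_num) (by norm_num) (by norm_num)
    (exp_neg_leJ (r := 0.869) 10 (by norm_num) (by norm_num) (by norm_num) (by norm_num))
    (exp_neg_leJ (r := 0.805) 7 (by norm_num) (by norm_num) (by norm_num) (by norm_num))
    (exp_neg_leJ (r := 0.99) 14 (by norm_num) (by norm_num) (by norm_num) (by norm_num))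
    (exp_neg_leJ (r := 0.99) 14 (by norm_num) (by norm_num) (by norm_num) (by norm_num))
    (exp_neg_leJ (r := 0.947) 12 (by norm_num) (by norm_num) (by norm_num) (by norm_num))
    (exp_neg_leJ (r := 0.99) 14 (by norm_num) (by norm_num) (by norm_num) (by norm_num))
    (exp_neg_leJ (r := 0.99) 14 (by norm_num) (by norm_num) (by norm_num) (by norm_num))
    (exp_neg_leJ (r := 0.99) 14 (by norm_num) (by norm_num) (by norm_num) (by norm_num))
    (by norm_num)) (by norm_num) hN hβ.le (by norm_num)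

private theorem JB7_k1a_b10_2 {β x y : ℝ} (hβ : 0 < β) (hN : β * 14.052 ≤ 1) (hx1 : 1.1309 ≤ x) (hx2 : x ≤ 1.2431)
    (hy1 : -0 ≤ y) (hy2 : y ≤ 0.153) : ‖HH β (x + y * I) - 1‖ ≤ 0.03 := by
  refine le_epsJ (C := 0.4176) (N0 := 14.052) (J_boxp 1.1309 1.2431 0 0.153 0.153 1.5063 1.2525 1.6955 0.7044 0.5195 3.7486 14.052 0.8316 3.116 1.457 0.942 0.7531 0.5443 1.3953 3.3828 0.8887 2.0502 3.1762 2.8482 0.00002538 0.0004773 0.0000003101 0.0000003101 0.000003773 0.0000003101 0.0000003101 0.0000003101 0.4176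
    hβ hN hx1 hx2 hy1 hy2 (by norm_num) (by norm_num) (by linarith) (by norm_num) (by norm_num) (by norm_num) (by norm_num) (by norm_num) (by norm_num) (by norm_num) (by norm_num) (by norm_num) (by norm_num) (by norm_num) (by norm_num) (by norm_num) (by norm_num) (by norm_num) (by norm_num) (by norm_num) (by norm_num) (by norm_num) (by norm_num) (by norm_num)
    (cube_sqrt_geJ (s := 0.8501) (by norm_num) (by norm_num) (by norm_num) (by norm_num))
    (cube_sqrt_geJ (s := 0.9477) (by norm_num) (by norm_num) (by norm_num) (by norm_num))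
    (by norm_num) (by norm_num) (by norm_num) (by norm_num) (by norm_num) (by norm_num) (by norm_num) (by norm_num) (by norm_num) (by norm_num) (by norm_num) (by norm_num) (by norm_num) (by norm_num) (by norm_num) (by norm_num) (by norm_num) (by norm_num)
    (exp_neg_leJ (r := 0.582) 10 (by norm_num) (by norm_num) (by norm_num) (by norm_num))
    (exp_neg_leJ (r := 0.648) 7 (by norm_num) (by norm_num) (by norm_num) (by norm_num))
    (exp_neg_leJ (r := 0.99) 14 (by norm_num) (by norm_num) (by norm_num) (by norm_num))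
    (exp_neg_leJ (r := 0.99) 14 (by norm_num) (by norm_num) (by norm_num) (by norm_num))
    (exp_neg_leJ (r := 0.488) 12 (by norm_num) (by norm_num) (by norm_num) (by norm_num))
    (exp_neg_leJ (r := 0.99) 14 (by norm_num) (by norm_num) (by norm_num) (by norm_num))
    (exp_neg_leJ (r := 0.99) 14 (by norm_num) (by norm_num) (by norm_num) (by norm_num))
    (exp_neg_leJ (r := 0.99) 14 (by norm_num) (by norm_num) (by norm_num) (by norm_num))
    (by norm_num)) (by norm_num) hN hβ.le (by norm_num)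

private theorem JB7_k1a_b10_3 {β x y : ℝ} (hβ : 0 < β) (hN : β * 14.052 ≤ 1) (hx1 : 1.0729 ≤ x) (hx2 : x ≤ 1.183)
    (hy1 : -0 ≤ y) (hy2 : y ≤ 0.198) : ‖HH β (x + y * I) - 1‖ ≤ 0.03 := by
  refine le_epsJ (C := 0.4188) (N0 := 14.052) (J_boxp 1.0729 1.183 0 0.198 0.198 1.4655 1.1995 1.6837 0.7314 0.5177 3.7486 14.052 0.8185 3.051 1.448 0.9651 0.7327 0.5328 1.3755 3.4156 0.8559 1.9653 2.8672 2.6643 0.00003381 0.000561 0.0000003101 0.0000003101 0.000005981 0.0000003101 0.0000003101 0.0000003101 0.4188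
    hβ hN hx1 hx2 hy1 hy2 (by norm_num) (by norm_num) (by linarith) (by norm_num) (by norm_num) (by norm_num) (by norm_num) (by norm_num) (by norm_num) (by norm_num) (by norm_num) (by norm_num) (by norm_num) (by norm_num) (by norm_num) (by norm_num) (by norm_num) (by norm_num) (by norm_num) (by norm_num) (by norm_num) (by norm_num) (by norm_num) (by norm_num)
    (cube_sqrt_geJ (s := 0.8527) (by norm_num) (by norm_num) (by norm_num) (by norm_num))
    (cube_sqrt_geJ (s := 0.9485) (by norm_num) (by norm_num) (by norm_num) (by norm_num))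
    (by norm_num) (by norm_num) (by norm_num) (by norm_num) (by norm_num) (by norm_num) (by norm_num) (by norm_num) (by norm_num) (by norm_num) (by norm_num) (by norm_num) (by norm_num) (by norm_num) (by norm_num) (by norm_num) (by norm_num) (by norm_num)
    (exp_neg_leJ (r := 0.295) 10 (by norm_num) (by norm_num) (by norm_num) (by norm_num))
    (exp_neg_leJ (r := 0.486) 7 (by norm_num) (by norm_num) (by norm_num) (by norm_num))
    (exp_neg_leJ (r := 0.99) 14 (by norm_num) (by norm_num) (by norm_num) (by norm_num))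
    (exp_neg_leJ (r := 0.99) 14 (by norm_num) (by norm_num) (by norm_num) (by norm_num))
    (exp_neg_leJ (r := 0.027) 12 (by norm_num) (by norm_num) (by norm_num) (by norm_num))
    (exp_neg_leJ (r := 0.99) 14 (by norm_num) (by norm_num) (by norm_num) (by norm_num))
    (exp_neg_leJ (r := 0.99) 14 (by norm_num) (by norm_num) (by norm_num) (by norm_num))
    (exp_neg_leJ (r := 0.99) 14 (by norm_num) (by norm_num) (by norm_num) (by norm_num))
    (by norm_num)) (by norm_num) hN hβ.le (by norm_num)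

private theorem JB7_k1a_b10_4 {β x y : ℝ} (hβ : 0 < β) (hN : β * 14.052 ≤ 1) (hx1 : 1.0209 ≤ x) (hx2 : x ≤ 1.123)
    (hy1 : -0 ≤ y) (hy2 : y ≤ 0.238) : ‖HH β (x + y * I) - 1‖ ≤ 0.03 := by
  refine le_epsJ (C := 0.4161) (N0 := 14.052) (J_boxp 1.0209 1.123 0 0.238 0.238 1.4289 1.148 1.6715 0.757 0.5158 3.7486 14.052 0.8035 2.978 1.437 0.9881 0.7144 0.523 1.3577 3.448 0.8266 1.8892 2.5917 2.5118 0.00004371 0.0006433 0.0000003101 0.0000003101 0.000009034 0.0000003101 0.0000003101 0.0000003101 0.4161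
    hβ hN hx1 hx2 hy1 hy2 (by norm_num) (by norm_num) (by linarith) (by norm_num) (by norm_num) (by norm_num) (by norm_num) (by norm_num) (by norm_num) (by norm_num) (by norm_num) (by norm_num) (by norm_num) (by norm_num) (by norm_num) (by norm_num) (by norm_num) (by norm_num) (by norm_num) (by norm_num) (by norm_num) (by norm_num) (by norm_num) (by norm_num)
    (cube_sqrt_geJ (s := 0.8556) (by norm_num) (by norm_num) (by norm_num) (by norm_num))
    (cube_sqrt_geJ (s := 0.9495) (by norm_num) (by norm_num) (by norm_num) (by norm_num))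
    (by norm_num) (by norm_num) (by norm_num) (by norm_num) (by norm_num) (by norm_num) (by norm_num) (by norm_num) (by norm_num) (by norm_num) (by norm_num) (by norm_num) (by norm_num) (by norm_num) (by norm_num) (by norm_num) (by norm_num) (by norm_num)
    (exp_neg_leJ (r := 0.038) 10 (by norm_num) (by norm_num) (by norm_num) (by norm_num))
    (exp_neg_leJ (r := 0.349) 7 (by norm_num) (by norm_num) (by norm_num) (by norm_num))
    (exp_neg_leJ (r := 0.99) 14 (by norm_num) (by norm_num) (by norm_num) (by norm_num))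
    (exp_neg_leJ (r := 0.99) 14 (by norm_num) (by norm_num) (by norm_num) (by norm_num))
    (exp_neg_leJ (r := 0.615) 11 (by norm_num) (by norm_num) (by norm_num) (by norm_num))
    (exp_neg_leJ (r := 0.99) 14 (by norm_num) (by norm_num) (by norm_num) (by norm_num))
    (exp_neg_leJ (r := 0.99) 14 (by norm_num) (by norm_num) (by norm_num) (by norm_num))
    (exp_neg_leJ (r := 0.99) 14 (by norm_num) (by norm_num) (by norm_num) (by norm_num))
    (by norm_num)) (by norm_num) hN hβ.le (by norm_num)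

private theorem JB7_k1a_b10_5 {β x y : ℝ} (hβ : 0 < β) (hN : β * 14.052 ≤ 1) (hx1 : 0.9787 ≤ x) (hx2 : x ≤ 1.0695)
    (hy1 : -0 ≤ y) (hy2 : y ≤ 0.27) : ‖HH β (x + y * I) - 1‖ ≤ 0.03 := by
  refine le_epsJ (C := 0.4108) (N0 := 14.052) (J_boxp 0.9787 1.0695 0 0.27 0.27 1.3992 1.1031 1.6604 0.7786 0.5141 3.7486 14.052 0.7884 2.908 1.427 1.0087 0.6995 0.5157 1.3433 3.4766 0.8028 1.8275 2.37 2.3986 0.00005396 0.0007131 0.0000003101 0.0000003101 0.00001263 0.0000003101 0.0000003101 0.0000003101 0.4108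
    hβ hN hx1 hx2 hy1 hy2 (by norm_num) (by norm_num) (by linarith) (by norm_num) (by norm_num) (by norm_num) (by norm_num) (by norm_num) (by norm_num) (by norm_num) (by norm_num) (by norm_num) (by norm_num) (by norm_num) (by norm_num) (by norm_num) (by norm_num) (by norm_num) (by norm_num) (by norm_num) (by norm_num) (by norm_num) (by norm_num) (by norm_num)
    (cube_sqrt_geJ (s := 0.8586) (by norm_num) (by norm_num) (by norm_num) (by norm_num))
    (cube_sqrt_geJ (s := 0.9505) (by norm_num) (by norm_num) (by norm_num) (by norm_num))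
    (by norm_num) (by norm_num) (by norm_num) (by norm_num) (by norm_num) (by norm_num) (by norm_num) (by norm_num) (by norm_num) (by norm_num) (by norm_num) (by norm_num) (by norm_num) (by norm_num) (by norm_num) (by norm_num) (by norm_num) (by norm_num)
    (exp_neg_leJ (r := 0.829) 9 (by norm_num) (by norm_num) (by norm_num) (by norm_num))
    (exp_neg_leJ (r := 0.246) 7 (by norm_num) (by norm_num) (by norm_num) (by norm_num))
    (exp_neg_leJ (r := 0.99) 14 (by norm_num) (by norm_num) (by norm_num) (by norm_num))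
    (exp_neg_leJ (r := 0.99) 14 (by norm_num) (by norm_num) (by norm_num) (by norm_num))
    (exp_neg_leJ (r := 0.28) 11 (by norm_num) (by norm_num) (by norm_num) (by norm_num))
    (exp_neg_leJ (r := 0.99) 14 (by norm_num) (by norm_num) (by norm_num) (by norm_num))
    (exp_neg_leJ (r := 0.99) 14 (by norm_num) (by norm_num) (by norm_num) (by norm_num))
    (exp_neg_leJ (r := 0.99) 14 (by norm_num) (by norm_num) (by norm_num) (by norm_num))
    (by norm_num)) (by norm_num) hN hβ.le (by norm_num)

theorem JB7_k1a_c10 {κ t β : ℝ} (h : DomR κ t) (hβ : 0 < β) (hk1 : 1.33 ≤ κ) (hk2 : κ ≤ 1.39)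
    (ht1 : 0.04 ≤ t + κ) (ht2 : t + κ ≤ 0.62) (hR0 : β * 10 ≤ κ) (hR : β * (6.75 * (1 + κ ^ 2)) ≤ κ) :
    ‖HH β (sg κ t) - 1‖ ≤ 0.03 := by
  have hN : β * 14.052 ≤ 1 := bNC' hβ hk1 (by norm_num) (by norm_num) hR (by norm_num)
  have hy1 : 0.018 ≤ sy κ t := syR_ge h 1.33 1.39 0.04 0.018 1.01816 1.01817 0.01318 0.01378 hk1 hk2 (by linarith) (by norm_num) (by norm_num)
    (expn_ge (by norm_num) (by norm_num)) (expn_le (by norm_num) (by norm_num) (by norm_num)) (by norm_num)
    (by norm_num) (by norm_num) (by norm_num) (by norm_num) (by norm_num) (by norm_num)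
  have hy2 : sy κ t ≤ 0.27 := syR_le h 1.33 1.39 0.62 0.27 1.30996 0.2582 0.25445 0.26594 hk1 hk2 (by linarith) (by norm_num) (by norm_num)
    (expn_ge (by norm_num) (by norm_num)) (by norm_num) (by norm_num) (Or.inr ((mul_le_mul_of_nonneg_left (expn_le (E := 1.30997) (by norm_num) (by norm_num) (by norm_num)) (by norm_num)).trans (by norm_num))) (by norm_num) (by norm_num) (by norm_num)
  rcases le_total (sy κ t) 0.063 with f0 | g0
  · have hx1 : 1.2472 ≤ sx κ t := sx_lo h 1.33 0.063 0.063 0.93894 1.2472 hk1 (by norm_num) f0 (abs_le.2 ⟨by linarith, by linarith⟩) (expm_ge (by norm_num) (by norm_num) (by norm_num) (by norm_num)) (by norm_num) (by norm_num)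
    have hx2 : sx κ t ≤ 1.3651 := sx_hi h 1.39 0.018 0.018 0.98217 1.3651 hk2 hy1 (by norm_num) (by rw [abs_of_nonneg (by linarith)]; linarith) (expm_le (by norm_num) (by norm_num) (by norm_num)) (by norm_num) (by norm_num)
    exact JB7_k1a_b10_0 hβ hN hx1 hx2 (by linarith) (by linarith)
  rcases le_total (sy κ t) 0.108 with f1 | g1
  · have hx1 : 1.1889 ≤ sx κ t := sx_lo h 1.33 0.108 0.108 0.89762 1.1889 hk1 (by norm_num) f1 (abs_le.2 ⟨by linarith, by linarith⟩) (expm_ge (by norm_num) (by norm_num) (by norm_num) (by norm_num)) (by norm_num) (by norm_num)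
    have hx2 : sx κ t ≤ 1.3037 := sx_hi h 1.39 0.063 0.063 0.93895 1.3037 hk2 g0 (by norm_num) (by rw [abs_of_nonneg (by linarith)]; linarith) (expm_le (by norm_num) (by norm_num) (by norm_num)) (by norm_num) (by norm_num)
    exact JB7_k1a_b10_1 hβ hN hx1 hx2 (by linarith) (by linarith)
  rcases le_total (sy κ t) 0.153 with f2 | g2
  · have hx1 : 1.1309 ≤ sx κ t := sx_lo h 1.33 0.153 0.153 0.85812 1.1309 hk1 (by norm_num) f2 (abs_le.2 ⟨by linarith, by linarith⟩) (expm_ge (by norm_num) (by norm_num) (by norm_num) (by norm_num)) (by norm_num) (by norm_num)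
    have hx2 : sx κ t ≤ 1.2431 := sx_hi h 1.39 0.108 0.108 0.89763 1.2431 hk2 g1 (by norm_num) (by rw [abs_of_nonneg (by linarith)]; linarith) (expm_le (by norm_num) (by norm_num) (by norm_num)) (by norm_num) (by norm_num)
    exact JB7_k1a_b10_2 hβ hN hx1 hx2 (by linarith) (by linarith)
  rcases le_total (sy κ t) 0.198 with f3 | g3
  · have hx1 : 1.0729 ≤ sx κ t := sx_lo h 1.33 0.198 0.198 0.82036 1.0729 hk1 (by norm_num) f3 (abs_le.2 ⟨by linarith, by linarith⟩) (expm_ge (by norm_num) (by norm_num) (by norm_num) (by norm_num)) (by norm_num) (by norm_num)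
    have hx2 : sx κ t ≤ 1.183 := sx_hi h 1.39 0.153 0.153 0.85813 1.183 hk2 g2 (by norm_num) (by rw [abs_of_nonneg (by linarith)]; linarith) (expm_le (by norm_num) (by norm_num) (by norm_num)) (by norm_num) (by norm_num)
    exact JB7_k1a_b10_3 hβ hN hx1 hx2 (by linarith) (by linarith)
  rcases le_total (sy κ t) 0.238 with f4 | g4
  · have hx1 : 1.0209 ≤ sx κ t := sx_lo h 1.33 0.238 0.238 0.7882 1.0209 hk1 (by norm_num) f4 (abs_le.2 ⟨by linarith, by linarith⟩) (expm_ge (by norm_num) (by norm_num) (by norm_num) (by norm_num)) (by norm_num) (by norm_num)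
    have hx2 : sx κ t ≤ 1.123 := sx_hi h 1.39 0.198 0.198 0.82037 1.123 hk2 g3 (by norm_num) (by rw [abs_of_nonneg (by linarith)]; linarith) (expm_le (by norm_num) (by norm_num) (by norm_num)) (by norm_num) (by norm_num)
    exact JB7_k1a_b10_4 hβ hN hx1 hx2 (by linarith) (by linarith)
  have hx1 : 0.9787 ≤ sx κ t := sx_lo h 1.33 0.27 0.27 0.76337 0.9787 hk1 (by norm_num) hy2 (abs_le.2 ⟨by linarith, by linarith⟩) (expm_ge (by norm_num) (by norm_num) (by norm_num) (by norm_num)) (by norm_num) (by norm_num)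
  have hx2 : sx κ t ≤ 1.0695 := sx_hi h 1.39 0.238 0.238 0.78821 1.0695 hk2 g4 (by norm_num) (by rw [abs_of_nonneg (by linarith)]; linarith) (expm_le (by norm_num) (by norm_num) (by norm_num)) (by norm_num) (by norm_num)
  exact JB7_k1a_b10_5 hβ hN hx1 hx2 (by linarith) (by linarith)

private theorem JB7_k1b_b0_0 {β x y : ℝ} (hβ : 0 < β) (hN : β * 17.857 ≤ 1) (hx1 : 0.1341 ≤ x) (hx2 : x ≤ 0.4813)
    (hy1 : -0 ≤ y) (hy2 : y ≤ 0.181) : ‖HH β (x + y * I) - 1‖ ≤ 0.035 := by
  refine le_epsJ (C := 0.6061) (N0 := 17.857) (J_boxp 0.1341 0.4813 0 0.181 0.181 0.8044 0.5143 1.2754 1.5654 0.4506 4.2258 17.857 0.6394 2.315 1.331 1.235 0.4021 0.3164 1.0541 3.8169 0.4017 0.6672 1.0625 2.7293 0.0007617 0.003524 0.0000003101 0.0000003101 0.0007671 0.000006713 0.0000003101 0.0000003101 0.6061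
    hβ hN hx1 hx2 hy1 hy2 (by norm_num) (by norm_num) (by linarith) (by norm_num) (by norm_num) (by norm_num) (by norm_num) (by norm_num) (by norm_num) (by norm_num) (by norm_num) (by norm_num) (by norm_num) (by norm_num) (by norm_num) (by norm_num) (by norm_num) (by norm_num) (by norm_num) (by norm_num) (by norm_num) (by norm_num) (by norm_num) (by norm_num)
    (cube_sqrt_geJ (s := 0.887) (by norm_num) (by norm_num) (by norm_num) (by norm_num))
    (cube_sqrt_geJ (s := 0.96) (by norm_num) (by norm_num) (by norm_num) (by norm_num))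
    (by norm_num) (by norm_num) (by norm_num) (by norm_num) (by norm_num) (by norm_num) (by norm_num) (by norm_num) (by norm_num) (by norm_num) (by norm_num) (by norm_num) (by norm_num) (by norm_num) (by norm_num) (by norm_num) (by norm_num) (by norm_num)
    (exp_neg_leJ (r := 0.18) 7 (by norm_num) (by norm_num) (by norm_num) (by norm_num))
    (exp_neg_leJ (r := 0.649) 5 (by norm_num) (by norm_num) (by norm_num) (by norm_num))
    (exp_neg_leJ (r := 0.99) 14 (by norm_num) (by norm_num) (by norm_num) (by norm_num))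
    (exp_neg_leJ (r := 0.99) 14 (by norm_num) (by norm_num) (by norm_num) (by norm_num))
    (exp_neg_leJ (r := 0.173) 7 (by norm_num) (by norm_num) (by norm_num) (by norm_num))
    (exp_neg_leJ (r := 0.914) 11 (by norm_num) (by norm_num) (by norm_num) (by norm_num))
    (exp_neg_leJ (r := 0.99) 14 (by norm_num) (by norm_num) (by norm_num) (by norm_num))
    (exp_neg_leJ (r := 0.99) 14 (by norm_num) (by norm_num) (by norm_num) (by norm_num))
    (by norm_num)) (by norm_num) hN hβ.le (by norm_num)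

private theorem JB7_k1b_b0_1 {β x y : ℝ} (hβ : 0 < β) (hN : β * 17.857 ≤ 1) (hx1 : 0.0914 ≤ x) (hx2 : x ≤ 0.4309)
    (hy1 : -0 ≤ y) (hy2 : y ≤ 0.201) : ‖HH β (x + y * I) - 1‖ ≤ 0.035 := by
  refine le_epsJ (C := 0.6169) (N0 := 17.857) (J_boxp 0.0914 0.4309 0 0.201 0.201 0.7744 0.4755 1.276 1.6576 0.4507 4.2258 17.857 0.6141 2.23 1.315 1.2543 0.3871 0.3079 1.0395 3.8429 0.3789 0.606 0.8914 2.6552 0.0009983 0.004096 0.0000003101 0.0000003101 0.001154 0.00002001 0.0000003101 0.0000003101 0.6169
    hβ hN hx1 hx2 hy1 hy2 (by norm_num) (by norm_num) (by linarith) (by norm_num) (by norm_num) (by norm_num) (by norm_num) (by norm_num) (by norm_num) (by norm_num) (by norm_num) (by norm_num) (by norm_num) (by norm_num) (by norm_num) (by norm_num) (by norm_num) (by norm_num) (by norm_num) (by norm_num) (by norm_num) (by norm_num) (by norm_num) (by norm_num)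
    (cube_sqrt_geJ (s := 0.8917) (by norm_num) (by norm_num) (by norm_num) (by norm_num))
    (cube_sqrt_geJ (s := 0.9616) (by norm_num) (by norm_num) (by norm_num) (by norm_num))
    (by norm_num) (by norm_num) (by norm_num) (by norm_num) (by norm_num) (by norm_num) (by norm_num) (by norm_num) (by norm_num) (by norm_num) (by norm_num) (by norm_num) (by norm_num) (by norm_num) (by norm_num) (by norm_num) (by norm_num) (by norm_num)
    (exp_neg_leJ (r := 0.912) 6 (by norm_num) (by norm_num) (by norm_num) (by norm_num))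
    (exp_neg_leJ (r := 0.498) 5 (by norm_num) (by norm_num) (by norm_num) (by norm_num))
    (exp_neg_leJ (r := 0.99) 14 (by norm_num) (by norm_num) (by norm_num) (by norm_num))
    (exp_neg_leJ (r := 0.99) 14 (by norm_num) (by norm_num) (by norm_num) (by norm_num))
    (exp_neg_leJ (r := 0.766) 6 (by norm_num) (by norm_num) (by norm_num) (by norm_num))
    (exp_neg_leJ (r := 0.821) 10 (by norm_num) (by norm_num) (by norm_num) (by norm_num))
    (exp_neg_leJ (r := 0.99) 14 (by norm_num) (by norm_num) (by norm_num) (by norm_num))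
    (exp_neg_leJ (r := 0.99) 14 (by norm_num) (by norm_num) (by norm_num) (by norm_num))
    (by norm_num)) (by norm_num) hN hβ.le (by norm_num)

private theorem JB7_k1b_b0_2 {β x y : ℝ} (hβ : 0 < β) (hN : β * 17.857 ≤ 1) (hx1 : 0.082 ≤ x) (hx2 : x ≤ 0.4116)
    (hy1 : -0 ≤ y) (hy2 : y ≤ 0.221) (hsl : y ≤ 2.45 * x) : ‖HH β (x + y * I) - 1‖ ≤ 0.035 := by
  refine le_epsJ (C := 0.6246) (N0 := 17.857) (J_boxp 0.082 0.4116 0 0.221 0.221 0.7677 0.4672 1.2886 1.6877 0.4529 4.2258 17.857 0.6086 2.212 1.312 1.2618 0.3838 0.3059 1.0363 3.8511 0.3723 0.5909 0.7868 2.5647 0.001059 0.004246 0.0000003101 0.0000003101 0.001298 0.00002618 0.0000007918 0.0000003101 0.6246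
    hβ hN hx1 hx2 hy1 hy2 (by norm_num) (by norm_num) hsl (by norm_num) (by norm_num) (by norm_num) (by norm_num) (by norm_num) (by norm_num) (by norm_num) (by norm_num) (by norm_num) (by norm_num) (by norm_num) (by norm_num) (by norm_num) (by norm_num) (by norm_num) (by norm_num) (by norm_num) (by norm_num) (by norm_num) (by norm_num) (by norm_num)
    (cube_sqrt_geJ (s := 0.8928) (by norm_num) (by norm_num) (by norm_num) (by norm_num))
    (cube_sqrt_geJ (s := 0.962) (by norm_num) (by norm_num) (by norm_num) (by norm_num))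
    (by norm_num) (by norm_num) (by norm_num) (by norm_num) (by norm_num) (by norm_num) (by norm_num) (by norm_num) (by norm_num) (by norm_num) (by norm_num) (by norm_num) (by norm_num) (by norm_num) (by norm_num) (by norm_num) (by norm_num) (by norm_num)
    (exp_neg_leJ (r := 0.853) 6 (by norm_num) (by norm_num) (by norm_num) (by norm_num))
    (exp_neg_leJ (r := 0.462) 5 (by norm_num) (by norm_num) (by norm_num) (by norm_num))
    (exp_neg_leJ (r := 0.99) 14 (by norm_num) (by norm_num) (by norm_num) (by norm_num))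
    (exp_neg_leJ (r := 0.99) 14 (by norm_num) (by norm_num) (by norm_num) (by norm_num))
    (exp_neg_leJ (r := 0.648) 6 (by norm_num) (by norm_num) (by norm_num) (by norm_num))
    (exp_neg_leJ (r := 0.551) 10 (by norm_num) (by norm_num) (by norm_num) (by norm_num))
    (exp_neg_leJ (r := 0.049) 14 (by norm_num) (by norm_num) (by norm_num) (by norm_num))
    (exp_neg_leJ (r := 0.99) 14 (by norm_num) (by norm_num) (by norm_num) (by norm_num))
    (by norm_num)) (by norm_num) hN hβ.le (by norm_num)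

private theorem JB7_k1b_b0_3 {β x y : ℝ} (hβ : 0 < β) (hN : β * 17.857 ≤ 1) (hx1 : 0.0902 ≤ x) (hx2 : x ≤ 0.3909)
    (hy1 : -0 ≤ y) (hy2 : y ≤ 0.261) (hsl : y ≤ 2.45 * x) : ‖HH β (x + y * I) - 1‖ ≤ 0.035 := by
  refine le_epsJ (C := 0.6206) (N0 := 17.857) (J_boxp 0.0902 0.3909 0 0.261 0.261 0.7735 0.4701 1.3202 1.689 0.4584 4.2258 17.857 0.6078 2.209 1.311 1.2697 0.3867 0.3083 1.0391 3.8567 0.3722 0.5982 0.6316 2.3847 0.001006 0.004068 0.0000003101 0.0000003101 0.0013 0.00002298 0.00001265 0.0000003101 0.6206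
    hβ hN hx1 hx2 hy1 hy2 (by norm_num) (by norm_num) hsl (by norm_num) (by norm_num) (by norm_num) (by norm_num) (by norm_num) (by norm_num) (by norm_num) (by norm_num) (by norm_num) (by norm_num) (by norm_num) (by norm_num) (by norm_num) (by norm_num) (by norm_num) (by norm_num) (by norm_num) (by norm_num) (by norm_num) (by norm_num) (by norm_num)
    (cube_sqrt_geJ (s := 0.8929) (by norm_num) (by norm_num) (by norm_num) (by norm_num))
    (cube_sqrt_geJ (s := 0.962) (by norm_num) (by norm_num) (by norm_num) (by norm_num))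
    (by norm_num) (by norm_num) (by norm_num) (by norm_num) (by norm_num) (by norm_num) (by norm_num) (by norm_num) (by norm_num) (by norm_num) (by norm_num) (by norm_num) (by norm_num) (by norm_num) (by norm_num) (by norm_num) (by norm_num) (by norm_num)
    (exp_neg_leJ (r := 0.905) 6 (by norm_num) (by norm_num) (by norm_num) (by norm_num))
    (exp_neg_leJ (r := 0.505) 5 (by norm_num) (by norm_num) (by norm_num) (by norm_num))
    (exp_neg_leJ (r := 0.99) 14 (by norm_num) (by norm_num) (by norm_num) (by norm_num))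
    (exp_neg_leJ (r := 0.99) 14 (by norm_num) (by norm_num) (by norm_num) (by norm_num))
    (exp_neg_leJ (r := 0.646) 6 (by norm_num) (by norm_num) (by norm_num) (by norm_num))
    (exp_neg_leJ (r := 0.682) 10 (by norm_num) (by norm_num) (by norm_num) (by norm_num))
    (exp_neg_leJ (r := 0.278) 11 (by norm_num) (by norm_num) (by norm_num) (by norm_num))
    (exp_neg_leJ (r := 0.99) 14 (by norm_num) (by norm_num) (by norm_num) (by norm_num))
    (by norm_num)) (by norm_num) hN hβ.le (by norm_num)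

private theorem JB7_k1b_b0_4 {β x y : ℝ} (hβ : 0 < β) (hN : β * 17.857 ≤ 1) (hx1 : 0.1065 ≤ x) (hx2 : x ≤ 0.3435)
    (hy1 : -0 ≤ y) (hy2 : y ≤ 0.281) (hsl : y ≤ 2.45 * x) : ‖HH β (x + y * I) - 1‖ ≤ 0.035 := by
  refine le_epsJ (C := 0.527) (N0 := 17.857) (J_boxp 0.1065 0.3435 0 0.281 0.281 0.785 0.4438 1.3263 1.6559 0.4595 4.2258 17.857 0.5654 2.078 1.286 1.288 0.3924 0.3185 1.0447 3.8784 0.378 0.6187 0.5784 2.3946 0.0009056 0.003393 0.0000003101 0.0000003101 0.001174 0.00001592 0.00003271 0.0000003101 0.527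
    hβ hN hx1 hx2 hy1 hy2 (by norm_num) (by norm_num) hsl (by norm_num) (by norm_num) (by norm_num) (by norm_num) (by norm_num) (by norm_num) (by norm_num) (by norm_num) (by norm_num) (by norm_num) (by norm_num) (by norm_num) (by norm_num) (by norm_num) (by norm_num) (by norm_num) (by norm_num) (by norm_num) (by norm_num) (by norm_num) (by norm_num)
    (cube_sqrt_geJ (s := 0.9008) (by norm_num) (by norm_num) (by norm_num) (by norm_num))
    (cube_sqrt_geJ (s := 0.9647) (by norm_num) (by norm_num) (by norm_num) (by norm_num))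
    (by norm_num) (by norm_num) (by norm_num) (by norm_num) (by norm_num) (by norm_num) (by norm_num) (by norm_num) (by norm_num) (by norm_num) (by norm_num) (by norm_num) (by norm_num) (by norm_num) (by norm_num) (by norm_num) (by norm_num) (by norm_num)
    (exp_neg_leJ (r := 0.007) 7 (by norm_num) (by norm_num) (by norm_num) (by norm_num))
    (exp_neg_leJ (r := 0.687) 5 (by norm_num) (by norm_num) (by norm_num) (by norm_num))
    (exp_neg_leJ (r := 0.99) 14 (by norm_num) (by norm_num) (by norm_num) (by norm_num))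
    (exp_neg_leJ (r := 0.99) 14 (by norm_num) (by norm_num) (by norm_num) (by norm_num))
    (exp_neg_leJ (r := 0.749) 6 (by norm_num) (by norm_num) (by norm_num) (by norm_num))
    (exp_neg_leJ (r := 0.048) 11 (by norm_num) (by norm_num) (by norm_num) (by norm_num))
    (exp_neg_leJ (r := 0.328) 10 (by norm_num) (by norm_num) (by norm_num) (by norm_num))
    (exp_neg_leJ (r := 0.99) 14 (by norm_num) (by norm_num) (by norm_num) (by norm_num))
    (by norm_num)) (by norm_num) hN hβ.le (by norm_num)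

theorem JB7_k1b_c0 {κ t β : ℝ} (h : DomR κ t) (hβ : 0 < β) (hk1 : 0.27 ≤ κ) (hk2 : κ ≤ 0.56)
    (ht1 : 0.6 ≤ t + κ) (ht2 : t + κ ≤ 0.95) (hR0 : β * 10 ≤ κ) (hR : β * (6.75 * (1 + κ ^ 2)) ≤ κ) :
    ‖HH β (sg κ t) - 1‖ ≤ 0.035 := by
  have hN : β * 17.857 ≤ 1 := bNR hβ h.1 hk2 hR0 (by norm_num)
  have hy1 : 0.121 ≤ sy κ t := syR_ge h 0.27 0.56 0.6 0.121 1.12862 1.12863 0.24386 0.5058 hk1 hk2 (by linarith) (by norm_num) (by norm_num)
    (expn_ge (by norm_num) (by norm_num)) (expn_le (by norm_num) (by norm_num) (by norm_num)) (by norm_num)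
    (by norm_num) (by norm_num) (by norm_num) (by norm_num) (by norm_num) (by norm_num)
  have hy2 : sy κ t ≤ 0.281 := syR_le h 0.27 0.56 0.95 0.281 1.32445 0.6366 0.66459 1 hk1 hk2 (by linarith) (by norm_num) (by norm_num)
    (expn_ge (by norm_num) (by norm_num)) (by norm_num) (by norm_num) (Or.inl (by norm_num)) (by norm_num) (by norm_num) (by norm_num)
  rcases le_total (sy κ t) 0.181 with f0 | g0
  · have hx1 : 0.1341 ≤ sx κ t := sx_lo h 0.27 0.181 0.181 0.83443 0.1341 hk1 (by norm_num) f0 (abs_le.2 ⟨by linarith, by linarith⟩) (expm_ge (by norm_num) (by norm_num) (by norm_num) (by norm_num)) (by norm_num) (by norm_num)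
    have hx2 : sx κ t ≤ 0.4813 := sx_hi h 0.56 0.121 0.121 0.88604 0.4813 hk2 hy1 (by norm_num) (by rw [abs_of_nonneg (by linarith)]; linarith) (expm_le (by norm_num) (by norm_num) (by norm_num)) (by norm_num) (by norm_num)
    exact JB7_k1b_b0_0 hβ hN hx1 hx2 (by linarith) (by linarith)
  rcases le_total (sy κ t) 0.201 with f1 | g1
  · have hx1 : 0.0914 ≤ sx κ t := sx_lo h 0.27 0.201 0.201 0.81791 0.0914 hk1 (by norm_num) f1 (abs_le.2 ⟨by linarith, by linarith⟩) (expm_ge (by norm_num) (by norm_num) (by norm_num) (by norm_num)) (by norm_num) (by norm_num)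
    have hx2 : sx κ t ≤ 0.4309 := sx_hi h 0.56 0.181 0.181 0.83444 0.4309 hk2 g0 (by norm_num) (by rw [abs_of_nonneg (by linarith)]; linarith) (expm_le (by norm_num) (by norm_num) (by norm_num)) (by norm_num) (by norm_num)
    exact JB7_k1b_b0_1 hβ hN hx1 hx2 (by linarith) (by linarith)
  rcases le_total (sy κ t) 0.221 with f2 | g2
  · have hsl : sy κ t ≤ 2.45 * sx κ t := sy_slope h 0.27 0.95 0.201 0.81792 hk1 (by norm_num) ht2 (by norm_num) g1 (expm_le (by norm_num) (by norm_num) (by norm_num)) (by norm_num)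
    have hx1 : 0.082 ≤ sx κ t := by linarith
    have hx2 : sx κ t ≤ 0.4116 := sx_hi h 0.56 0.201 0.201 0.81792 0.4116 hk2 g1 (by norm_num) (by rw [abs_of_nonneg (by linarith)]; linarith) (expm_le (by norm_num) (by norm_num) (by norm_num)) (by norm_num) (by norm_num)
    exact JB7_k1b_b0_2 hβ hN hx1 hx2 (by linarith) (by linarith) hsl
  rcases le_total (sy κ t) 0.261 with f3 | g3
  · have hsl : sy κ t ≤ 2.45 * sx κ t := sy_slope h 0.27 0.95 0.221 0.80172 hk1 (by norm_num) ht2 (by norm_num) g2 (expm_le (by norm_num) (by norm_num) (by norm_num)) (by norm_num)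
    have hx1 : 0.0902 ≤ sx κ t := by linarith
    have hx2 : sx κ t ≤ 0.3909 := sx_hi h 0.56 0.221 0.221 0.80172 0.3909 hk2 g2 (by norm_num) (by rw [abs_of_nonneg (by linarith)]; linarith) (expm_le (by norm_num) (by norm_num) (by norm_num)) (by norm_num) (by norm_num)
    exact JB7_k1b_b0_3 hβ hN hx1 hx2 (by linarith) (by linarith) hsl
  have hsl : sy κ t ≤ 2.45 * sx κ t := sy_slope h 0.27 0.95 0.261 0.77029 hk1 (by norm_num) ht2 (by norm_num) g3 (expm_le (by norm_num) (by norm_num) (by norm_num)) (by norm_num)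
  have hx1 : 0.1065 ≤ sx κ t := by linarith
  have hx2 : sx κ t ≤ 0.3435 := sx_hi h 0.56 0.261 0.261 0.77029 0.3435 hk2 g3 (by norm_num) (by rw [abs_of_nonneg (by linarith)]; linarith) (expm_le (by norm_num) (by norm_num) (by norm_num)) (by norm_num) (by norm_num)
  exact JB7_k1b_b0_4 hβ hN hx1 hx2 (by linarith) (by linarith) hsl

private theorem JB7_k1b_b1_0 {β x y : ℝ} (hβ : 0 < β) (hN : β * 14.367 ≤ 1) (hx1 : 0.3394 ≤ x) (hx2 : x ≤ 0.5381)
    (hy1 : -0 ≤ y) (hy2 : y ≤ 0.264) : ‖HH β (x + y * I) - 1‖ ≤ 0.035 := by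
  refine le_epsJ (C := 0.4964) (N0 := 14.367) (J_boxp 0.3394 0.5381 0 0.264 0.264 0.949 0.5994 1.3738 1.2679 0.4676 3.7904 14.367 0.6317 2.288 1.326 1.2131 0.4744 0.3745 1.1244 3.7764 0.4929 0.943 1.1172 2.5175 0.001099 0.004609 0.0000003101 0.0000003101 0.000841 0.000001308 0.0000003101 0.0000003101 0.4964
    hβ hN hx1 hx2 hy1 hy2 (by norm_num) (by norm_num) (by linarith) (by norm_num) (by norm_num) (by norm_num) (by norm_num) (by norm_num) (by norm_num) (by norm_num) (by norm_num) (by norm_num) (by norm_num) (by norm_num) (by norm_num) (by norm_num) (by norm_num) (by norm_num) (by norm_num) (by norm_num) (by norm_num) (by norm_num) (by norm_num) (by norm_num)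
    (cube_sqrt_geJ (s := 0.8885) (by norm_num) (by norm_num) (by norm_num) (by norm_num))
    (cube_sqrt_geJ (s := 0.9605) (by norm_num) (by norm_num) (by norm_num) (by norm_num))
    (by norm_num) (by norm_num) (by norm_num) (by norm_num) (by norm_num) (by norm_num) (by norm_num) (by norm_num) (by norm_num) (by norm_num) (by norm_num) (by norm_num) (by norm_num) (by norm_num) (by norm_num) (by norm_num) (by norm_num) (by norm_num)
    (exp_neg_leJ (r := 0.815) 6 (by norm_num) (by norm_num) (by norm_num) (by norm_num))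
    (exp_neg_leJ (r := 0.38) 5 (by norm_num) (by norm_num) (by norm_num) (by norm_num))
    (exp_neg_leJ (r := 0.99) 14 (by norm_num) (by norm_num) (by norm_num) (by norm_num))
    (exp_neg_leJ (r := 0.99) 14 (by norm_num) (by norm_num) (by norm_num) (by norm_num))
    (exp_neg_leJ (r := 0.081) 7 (by norm_num) (by norm_num) (by norm_num) (by norm_num))
    (exp_neg_leJ (r := 0.548) 13 (by norm_num) (by norm_num) (by norm_num) (by norm_num))
    (exp_neg_leJ (r := 0.99) 14 (by norm_num) (by norm_num) (by norm_num) (by norm_num))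
    (exp_neg_leJ (r := 0.99) 14 (by norm_num) (by norm_num) (by norm_num) (by norm_num))
    (by norm_num)) (by norm_num) hN hβ.le (by norm_num)

private theorem JB7_k1b_b1_1 {β x y : ℝ} (hβ : 0 < β) (hN : β * 14.367 ≤ 1) (hx1 : 0.2962 ≤ x) (hx2 : x ≤ 0.4683)
    (hy1 : -0 ≤ y) (hy2 : y ≤ 0.294) : ‖HH β (x + y * I) - 1‖ ≤ 0.035 := by
  refine le_epsJ (C := 0.4939) (N0 := 14.367) (J_boxp 0.2962 0.4683 0 0.294 0.294 0.9186 0.553 1.3762 1.3325 0.4681 3.7904 14.367 0.6021 2.191 1.308 1.24 0.4592 0.3671 1.1096 3.8104 0.4689 0.8801 0.9021 2.4159 0.001365 0.005124 0.0000003101 0.0000003101 0.001189 0.000003229 0.00000236 0.0000003101 0.4939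
    hβ hN hx1 hx2 hy1 hy2 (by norm_num) (by norm_num) (by linarith) (by norm_num) (by norm_num) (by norm_num) (by norm_num) (by norm_num) (by norm_num) (by norm_num) (by norm_num) (by norm_num) (by norm_num) (by norm_num) (by norm_num) (by norm_num) (by norm_num) (by norm_num) (by norm_num) (by norm_num) (by norm_num) (by norm_num) (by norm_num) (by norm_num)
    (cube_sqrt_geJ (s := 0.894) (by norm_num) (by norm_num) (by norm_num) (by norm_num))
    (cube_sqrt_geJ (s := 0.9624) (by norm_num) (by norm_num) (by norm_num) (by norm_num))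
    (by norm_num) (by norm_num) (by norm_num) (by norm_num) (by norm_num) (by norm_num) (by norm_num) (by norm_num) (by norm_num) (by norm_num) (by norm_num) (by norm_num) (by norm_num) (by norm_num) (by norm_num) (by norm_num) (by norm_num) (by norm_num)
    (exp_neg_leJ (r := 0.597) 6 (by norm_num) (by norm_num) (by norm_num) (by norm_num))
    (exp_neg_leJ (r := 0.274) 5 (by norm_num) (by norm_num) (by norm_num) (by norm_num))
    (exp_neg_leJ (r := 0.99) 14 (by norm_num) (by norm_num) (by norm_num) (by norm_num))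
    (exp_neg_leJ (r := 0.99) 14 (by norm_num) (by norm_num) (by norm_num) (by norm_num))
    (exp_neg_leJ (r := 0.736) 6 (by norm_num) (by norm_num) (by norm_num) (by norm_num))
    (exp_neg_leJ (r := 0.644) 12 (by norm_num) (by norm_num) (by norm_num) (by norm_num))
    (exp_neg_leJ (r := 0.96) 12 (by norm_num) (by norm_num) (by norm_num) (by norm_num))
    (exp_neg_leJ (r := 0.99) 14 (by norm_num) (by norm_num) (by norm_num) (by norm_num))
    (by norm_num)) (by norm_num) hN hβ.le (by norm_num)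

private theorem JB7_k1b_b1_2 {β x y : ℝ} (hβ : 0 < β) (hN : β * 14.367 ≤ 1) (hx1 : 0.2712 ≤ x) (hx2 : x ≤ 0.431)
    (hy1 : -0 ≤ y) (hy2 : y ≤ 0.309) : ‖HH β (x + y * I) - 1‖ ≤ 0.035 := by
  refine le_epsJ (C := 0.5004) (N0 := 14.367) (J_boxp 0.2712 0.431 0 0.309 0.309 0.901 0.5304 1.3782 1.3727 0.4684 3.7904 14.367 0.5887 2.149 1.3 1.2543 0.4504 0.362 1.1011 3.828 0.4552 0.8439 0.7877 2.3566 0.00155 0.005517 0.0000003101 0.0000003101 0.001447 0.000005428 0.00001218 0.0000003101 0.5004
    hβ hN hx1 hx2 hy1 hy2 (by norm_num) (by norm_num) (by linarith) (by norm_num) (by norm_num) (by norm_num) (by norm_num) (by norm_num) (by norm_num) (by norm_num) (by norm_num) (by norm_num) (by norm_num) (by norm_num) (by norm_num) (by norm_num) (by norm_num) (by norm_num) (by norm_num) (by norm_num) (by norm_num) (by norm_num) (by norm_num) (by norm_num)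
    (cube_sqrt_geJ (s := 0.8965) (by norm_num) (by norm_num) (by norm_num) (by norm_num))
    (cube_sqrt_geJ (s := 0.9632) (by norm_num) (by norm_num) (by norm_num) (by norm_num))
    (by norm_num) (by norm_num) (by norm_num) (by norm_num) (by norm_num) (by norm_num) (by norm_num) (by norm_num) (by norm_num) (by norm_num) (by norm_num) (by norm_num) (by norm_num) (by norm_num) (by norm_num) (by norm_num) (by norm_num) (by norm_num)
    (exp_neg_leJ (r := 0.47) 6 (by norm_num) (by norm_num) (by norm_num) (by norm_num))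
    (exp_neg_leJ (r := 0.2) 5 (by norm_num) (by norm_num) (by norm_num) (by norm_num))
    (exp_neg_leJ (r := 0.99) 14 (by norm_num) (by norm_num) (by norm_num) (by norm_num))
    (exp_neg_leJ (r := 0.99) 14 (by norm_num) (by norm_num) (by norm_num) (by norm_num))
    (exp_neg_leJ (r := 0.539) 6 (by norm_num) (by norm_num) (by norm_num) (by norm_num))
    (exp_neg_leJ (r := 0.124) 12 (by norm_num) (by norm_num) (by norm_num) (by norm_num))
    (exp_neg_leJ (r := 0.316) 11 (by norm_num) (by norm_num) (by norm_num) (by norm_num))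
    (exp_neg_leJ (r := 0.99) 14 (by norm_num) (by norm_num) (by norm_num) (by norm_num))
    (by norm_num)) (by norm_num) hN hβ.le (by norm_num)

private theorem JB7_k1b_b1_3 {β x y : ℝ} (hβ : 0 < β) (hN : β * 14.367 ≤ 1) (hx1 : 0.2603 ≤ x) (hx2 : x ≤ 0.4107)
    (hy1 : -0 ≤ y) (hy2 : y ≤ 0.315) : ‖HH β (x + y * I) - 1‖ ≤ 0.035 := by
  refine le_epsJ (C := 0.4983) (N0 := 14.367) (J_boxp 0.2603 0.4107 0 0.315 0.315 0.8933 0.5176 1.3777 1.3903 0.4683 3.7904 14.367 0.5795 2.12 1.294 1.2621 0.4466 0.3603 1.0973 3.8377 0.4493 0.8282 0.7402 2.3413 0.001636 0.005651 0.0000003101 0.0000003101 0.001573 0.00000682 0.0000241 0.0000003101 0.4983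
    hβ hN hx1 hx2 hy1 hy2 (by norm_num) (by norm_num) (by linarith) (by norm_num) (by norm_num) (by norm_num) (by norm_num) (by norm_num) (by norm_num) (by norm_num) (by norm_num) (by norm_num) (by norm_num) (by norm_num) (by norm_num) (by norm_num) (by norm_num) (by norm_num) (by norm_num) (by norm_num) (by norm_num) (by norm_num) (by norm_num) (by norm_num)
    (cube_sqrt_geJ (s := 0.8982) (by norm_num) (by norm_num) (by norm_num) (by norm_num))
    (cube_sqrt_geJ (s := 0.9638) (by norm_num) (by norm_num) (by norm_num) (by norm_num))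
    (by norm_num) (by norm_num) (by norm_num) (by norm_num) (by norm_num) (by norm_num) (by norm_num) (by norm_num) (by norm_num) (by norm_num) (by norm_num) (by norm_num) (by norm_num) (by norm_num) (by norm_num) (by norm_num) (by norm_num) (by norm_num)
    (exp_neg_leJ (r := 0.416) 6 (by norm_num) (by norm_num) (by norm_num) (by norm_num))
    (exp_neg_leJ (r := 0.176) 5 (by norm_num) (by norm_num) (by norm_num) (by norm_num))
    (exp_neg_leJ (r := 0.99) 14 (by norm_num) (by norm_num) (by norm_num) (by norm_num))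
    (exp_neg_leJ (r := 0.99) 14 (by norm_num) (by norm_num) (by norm_num) (by norm_num))
    (exp_neg_leJ (r := 0.455) 6 (by norm_num) (by norm_num) (by norm_num) (by norm_num))
    (exp_neg_leJ (r := 0.898) 11 (by norm_num) (by norm_num) (by norm_num) (by norm_num))
    (exp_neg_leJ (r := 0.634) 10 (by norm_num) (by norm_num) (by norm_num) (by norm_num))
    (exp_neg_leJ (r := 0.99) 14 (by norm_num) (by norm_num) (by norm_num) (by norm_num))
    (by norm_num)) (by norm_num) hN hβ.le (by norm_num)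

theorem JB7_k1b_c1 {κ t β : ℝ} (h : DomR κ t) (hβ : 0 < β) (hk1 : 0.56 ≤ κ) (hk2 : κ ≤ 0.7)
    (ht1 : 0.6 ≤ t + κ) (ht2 : t + κ ≤ 0.95) (hR0 : β * 10 ≤ κ) (hR : β * (6.75 * (1 + κ ^ 2)) ≤ κ) :
    ‖HH β (sg κ t) - 1‖ ≤ 0.035 := by
  have hN : β * 14.367 ≤ 1 := bNC hβ h.1 hk2 (by norm_num) (by norm_num) hR (by norm_num)
  have hy1 : 0.199 ≤ sy κ t := syR_ge h 0.56 0.7 0.6 0.199 1.22018 1.22019 0.34687 0.43361 hk1 hk2 (by linarith) (by norm_num) (by norm_num)
    (expn_ge (by norm_num) (by norm_num)) (expn_le (by norm_num) (by norm_num) (by norm_num)) (by norm_num)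
    (by norm_num) (by norm_num) (by norm_num) (by norm_num) (by norm_num) (by norm_num)
  have hy2 : sy κ t ≤ 0.315 := syR_le h 0.56 0.7 0.95 0.315 1.37025 0.6037 0.61661 0.77078 hk1 hk2 (by linarith) (by norm_num) (by norm_num)
    (expn_ge (by norm_num) (by norm_num)) (by norm_num) (by norm_num) (Or.inr ((mul_le_mul_of_nonneg_left (expn_le (E := 1.37026) (by norm_num) (by norm_num) (by norm_num)) (by norm_num)).trans (by norm_num))) (by norm_num) (by norm_num) (by norm_num)
  rcases le_total (sy κ t) 0.264 with f0 | g0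
  · have hx1 : 0.3394 ≤ sx κ t := sx_lo h 0.56 0.264 0.264 0.76797 0.3394 hk1 (by norm_num) f0 (abs_le.2 ⟨by linarith, by linarith⟩) (expm_ge (by norm_num) (by norm_num) (by norm_num) (by norm_num)) (by norm_num) (by norm_num)
    have hx2 : sx κ t ≤ 0.5381 := sx_hi h 0.7 0.199 0.199 0.81955 0.5381 hk2 hy1 (by norm_num) (by rw [abs_of_nonneg (by linarith)]; linarith) (expm_le (by norm_num) (by norm_num) (by norm_num)) (by norm_num) (by norm_num)
    exact JB7_k1b_b1_0 hβ hN hx1 hx2 (by linarith) (by linarith)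
  rcases le_total (sy κ t) 0.294 with f1 | g1
  · have hx1 : 0.2962 ≤ sx κ t := sx_lo h 0.56 0.294 0.294 0.74527 0.2962 hk1 (by norm_num) f1 (abs_le.2 ⟨by linarith, by linarith⟩) (expm_ge (by norm_num) (by norm_num) (by norm_num) (by norm_num)) (by norm_num) (by norm_num)
    have hx2 : sx κ t ≤ 0.4683 := sx_hi h 0.7 0.264 0.264 0.76798 0.4683 hk2 g0 (by norm_num) (by rw [abs_of_nonneg (by linarith)]; linarith) (expm_le (by norm_num) (by norm_num) (by norm_num)) (by norm_num) (by norm_num)
    exact JB7_k1b_b1_1 hβ hN hx1 hx2 (by linarith) (by linarith)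
  rcases le_total (sy κ t) 0.309 with f2 | g2
  · have hx1 : 0.2712 ≤ sx κ t := sx_lo h 0.56 0.309 0.309 0.73418 0.2712 hk1 (by norm_num) f2 (abs_le.2 ⟨by linarith, by linarith⟩) (expm_ge (by norm_num) (by norm_num) (by norm_num) (by norm_num)) (by norm_num) (by norm_num)
    have hx2 : sx κ t ≤ 0.431 := sx_hi h 0.7 0.294 0.294 0.74528 0.431 hk2 g1 (by norm_num) (by rw [abs_of_nonneg (by linarith)]; linarith) (expm_le (by norm_num) (by norm_num) (by norm_num)) (by norm_num) (by norm_num)
    exact JB7_k1b_b1_2 hβ hN hx1 hx2 (by linarith) (by linarith)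
  have hx1 : 0.2603 ≤ sx κ t := sx_lo h 0.56 0.315 0.315 0.72978 0.2603 hk1 (by norm_num) hy2 (abs_le.2 ⟨by linarith, by linarith⟩) (expm_ge (by norm_num) (by norm_num) (by norm_num) (by norm_num)) (by norm_num) (by norm_num)
  have hx2 : sx κ t ≤ 0.4107 := sx_hi h 0.7 0.309 0.309 0.73419 0.4107 hk2 g2 (by norm_num) (by rw [abs_of_nonneg (by linarith)]; linarith) (expm_le (by norm_num) (by norm_num) (by norm_num)) (by norm_num) (by norm_num)
  exact JB7_k1b_b1_3 hβ hN hx1 hx2 (by linarith) (by linarith)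

private theorem JB7_k1b_b2_0 {β x y : ℝ} (hβ : 0 < β) (hN : β * 13.766 ≤ 1) (hx1 : 0.4513 ≤ x) (hx2 : x ≤ 0.6171)
    (hy1 : -0 ≤ y) (hy2 : y ≤ 0.278) : ‖HH β (x + y * I) - 1‖ ≤ 0.035 := by
  refine le_epsJ (C := 0.4696) (N0 := 13.766) (J_boxp 0.4513 0.6171 0 0.278 0.278 1.0278 0.6769 1.4192 1.1433 0.4753 3.7103 13.766 0.6586 2.382 1.343 1.1827 0.5138 0.401 1.1627 3.7311 0.5458 1.0965 1.2809 2.4647 0.0008486 0.004007 0.0000003101 0.0000003101 0.0005461 0.0000003101 0.0000003101 0.0000003101 0.4696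
    hβ hN hx1 hx2 hy1 hy2 (by norm_num) (by norm_num) (by linarith) (by norm_num) (by norm_num) (by norm_num) (by norm_num) (by norm_num) (by norm_num) (by norm_num) (by norm_num) (by norm_num) (by norm_num) (by norm_num) (by norm_num) (by norm_num) (by norm_num) (by norm_num) (by norm_num) (by norm_num) (by norm_num) (by norm_num) (by norm_num) (by norm_num)
    (cube_sqrt_geJ (s := 0.8834) (by norm_num) (by norm_num) (by norm_num) (by norm_num))
    (cube_sqrt_geJ (s := 0.9588) (by norm_num) (by norm_num) (by norm_num) (by norm_num))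
    (by norm_num) (by norm_num) (by norm_num) (by norm_num) (by norm_num) (by norm_num) (by norm_num) (by norm_num) (by norm_num) (by norm_num) (by norm_num) (by norm_num) (by norm_num) (by norm_num) (by norm_num) (by norm_num) (by norm_num) (by norm_num)
    (exp_neg_leJ (r := 0.072) 7 (by norm_num) (by norm_num) (by norm_num) (by norm_num))
    (exp_neg_leJ (r := 0.52) 5 (by norm_num) (by norm_num) (by norm_num) (by norm_num))
    (exp_neg_leJ (r := 0.99) 14 (by norm_num) (by norm_num) (by norm_num) (by norm_num))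
    (exp_neg_leJ (r := 0.99) 14 (by norm_num) (by norm_num) (by norm_num) (by norm_num))
    (exp_neg_leJ (r := 0.513) 7 (by norm_num) (by norm_num) (by norm_num) (by norm_num))
    (exp_neg_leJ (r := 0.99) 14 (by norm_num) (by norm_num) (by norm_num) (by norm_num))
    (exp_neg_leJ (r := 0.99) 14 (by norm_num) (by norm_num) (by norm_num) (by norm_num))
    (exp_neg_leJ (r := 0.99) 14 (by norm_num) (by norm_num) (by norm_num) (by norm_num))
    (by norm_num)) (by norm_num) hN hβ.le (by norm_num)

private theorem JB7_k1b_b2_1 {β x y : ℝ} (hβ : 0 < β) (hN : β * 13.766 ≤ 1) (hx1 : 0.405 ≤ x) (hx2 : x ≤ 0.5553)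
    (hy1 : -0 ≤ y) (hy2 : y ≤ 0.313) : ‖HH β (x + y * I) - 1‖ ≤ 0.035 := by
  refine le_epsJ (C := 0.4812) (N0 := 13.766) (J_boxp 0.405 0.5553 0 0.313 0.313 0.9952 0.6375 1.4256 1.2027 0.4764 3.7103 13.766 0.6406 2.319 1.332 1.2065 0.4975 0.3913 1.1469 3.7608 0.5198 1.0288 1.0382 2.3142 0.001064 0.004581 0.0000003101 0.0000003101 0.000781 0.0000007072 0.0000006216 0.0000003101 0.4812
    hβ hN hx1 hx2 hy1 hy2 (by norm_num) (by norm_num) (by linarith) (by norm_num) (by norm_num) (by norm_num) (by norm_num) (by norm_num) (by norm_num) (by norm_num) (by norm_num) (by norm_num) (by norm_num) (by norm_num) (by norm_num) (by norm_num) (by norm_num) (by norm_num) (by norm_num) (by norm_num) (by norm_num) (by norm_num) (by norm_num) (by norm_num)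
    (cube_sqrt_geJ (s := 0.8868) (by norm_num) (by norm_num) (by norm_num) (by norm_num))
    (cube_sqrt_geJ (s := 0.9599) (by norm_num) (by norm_num) (by norm_num) (by norm_num))
    (by norm_num) (by norm_num) (by norm_num) (by norm_num) (by norm_num) (by norm_num) (by norm_num) (by norm_num) (by norm_num) (by norm_num) (by norm_num) (by norm_num) (by norm_num) (by norm_num) (by norm_num) (by norm_num) (by norm_num) (by norm_num)
    (exp_neg_leJ (r := 0.848) 6 (by norm_num) (by norm_num) (by norm_num) (by norm_num))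
    (exp_neg_leJ (r := 0.386) 5 (by norm_num) (by norm_num) (by norm_num) (by norm_num))
    (exp_neg_leJ (r := 0.99) 14 (by norm_num) (by norm_num) (by norm_num) (by norm_num))
    (exp_neg_leJ (r := 0.99) 14 (by norm_num) (by norm_num) (by norm_num) (by norm_num))
    (exp_neg_leJ (r := 0.155) 7 (by norm_num) (by norm_num) (by norm_num) (by norm_num))
    (exp_neg_leJ (r := 0.162) 14 (by norm_num) (by norm_num) (by norm_num) (by norm_num))
    (exp_neg_leJ (r := 0.291) 14 (by norm_num) (by norm_num) (by norm_num) (by norm_num))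
    (exp_neg_leJ (r := 0.99) 14 (by norm_num) (by norm_num) (by norm_num) (by norm_num))
    (by norm_num)) (by norm_num) hN hβ.le (by norm_num)

private theorem JB7_k1b_b2_2 {β x y : ℝ} (hβ : 0 < β) (hN : β * 13.766 ≤ 1) (hx1 : 0.3829 ≤ x) (hx2 : x ≤ 0.5115)
    (hy1 : -0 ≤ y) (hy2 : y ≤ 0.328) : ‖HH β (x + y * I) - 1‖ ≤ 0.035 := by
  refine le_epsJ (C := 0.4704) (N0 := 13.766) (J_boxp 0.3829 0.5115 0 0.328 0.328 0.9796 0.6077 1.4232 1.2305 0.476 3.7103 13.766 0.6204 2.25 1.319 1.2233 0.4897 0.3885 1.1393 3.7823 0.5075 0.9967 0.9297 2.2804 0.001183 0.004758 0.0000003101 0.0000003101 0.000928 0.000001102 0.000002771 0.0000003101 0.4704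
    hβ hN hx1 hx2 hy1 hy2 (by norm_num) (by norm_num) (by linarith) (by norm_num) (by norm_num) (by norm_num) (by norm_num) (by norm_num) (by norm_num) (by norm_num) (by norm_num) (by norm_num) (by norm_num) (by norm_num) (by norm_num) (by norm_num) (by norm_num) (by norm_num) (by norm_num) (by norm_num) (by norm_num) (by norm_num) (by norm_num) (by norm_num)
    (cube_sqrt_geJ (s := 0.8906) (by norm_num) (by norm_num) (by norm_num) (by norm_num))
    (cube_sqrt_geJ (s := 0.9612) (by norm_num) (by norm_num) (by norm_num) (by norm_num))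
    (by norm_num) (by norm_num) (by norm_num) (by norm_num) (by norm_num) (by norm_num) (by norm_num) (by norm_num) (by norm_num) (by norm_num) (by norm_num) (by norm_num) (by norm_num) (by norm_num) (by norm_num) (by norm_num) (by norm_num) (by norm_num)
    (exp_neg_leJ (r := 0.741) 6 (by norm_num) (by norm_num) (by norm_num) (by norm_num))
    (exp_neg_leJ (r := 0.348) 5 (by norm_num) (by norm_num) (by norm_num) (by norm_num))
    (exp_neg_leJ (r := 0.99) 14 (by norm_num) (by norm_num) (by norm_num) (by norm_num))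
    (exp_neg_leJ (r := 0.99) 14 (by norm_num) (by norm_num) (by norm_num) (by norm_num))
    (exp_neg_leJ (r := 0.986) 6 (by norm_num) (by norm_num) (by norm_num) (by norm_num))
    (exp_neg_leJ (r := 0.72) 13 (by norm_num) (by norm_num) (by norm_num) (by norm_num))
    (exp_neg_leJ (r := 0.798) 12 (by norm_num) (by norm_num) (by norm_num) (by norm_num))
    (exp_neg_leJ (r := 0.99) 14 (by norm_num) (by norm_num) (by norm_num) (by norm_num))
    (by norm_num)) (by norm_num) hN hβ.le (by norm_num)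

private theorem JB7_k1b_b2_3 {β x y : ℝ} (hβ : 0 < β) (hN : β * 13.766 ≤ 1) (hx1 : 0.3674 ≤ x) (hx2 : x ≤ 0.4913)
    (hy1 : -0 ≤ y) (hy2 : y ≤ 0.338) : ‖HH β (x + y * I) - 1‖ ≤ 0.035 := by
  refine le_epsJ (C := 0.4776) (N0 := 13.766) (J_boxp 0.3674 0.4913 0 0.338 0.338 0.9687 0.5964 1.4254 1.2523 0.4763 3.7103 13.766 0.6157 2.235 1.316 1.2311 0.4843 0.3849 1.134 3.7916 0.499 0.9742 0.8558 2.233 0.001275 0.005002 0.0000003101 0.0000003101 0.001042 0.000001501 0.000007666 0.0000003101 0.4776
    hβ hN hx1 hx2 hy1 hy2 (by norm_num) (by norm_num) (by linarith) (by norm_num) (by norm_num) (by norm_num) (by norm_num) (by norm_num) (by norm_num) (by norm_num) (by norm_num) (by norm_num) (by norm_num) (by norm_num) (by norm_num) (by norm_num) (by norm_num) (by norm_num) (by norm_num) (by norm_num) (by norm_num) (by norm_num) (by norm_num) (by norm_num)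
    (cube_sqrt_geJ (s := 0.8914) (by norm_num) (by norm_num) (by norm_num) (by norm_num))
    (cube_sqrt_geJ (s := 0.9615) (by norm_num) (by norm_num) (by norm_num) (by norm_num))
    (by norm_num) (by norm_num) (by norm_num) (by norm_num) (by norm_num) (by norm_num) (by norm_num) (by norm_num) (by norm_num) (by norm_num) (by norm_num) (by norm_num) (by norm_num) (by norm_num) (by norm_num) (by norm_num) (by norm_num) (by norm_num)
    (exp_neg_leJ (r := 0.666) 6 (by norm_num) (by norm_num) (by norm_num) (by norm_num))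
    (exp_neg_leJ (r := 0.298) 5 (by norm_num) (by norm_num) (by norm_num) (by norm_num))
    (exp_neg_leJ (r := 0.99) 14 (by norm_num) (by norm_num) (by norm_num) (by norm_num))
    (exp_neg_leJ (r := 0.99) 14 (by norm_num) (by norm_num) (by norm_num) (by norm_num))
    (exp_neg_leJ (r := 0.869) 6 (by norm_num) (by norm_num) (by norm_num) (by norm_num))
    (exp_neg_leJ (r := 0.41) 13 (by norm_num) (by norm_num) (by norm_num) (by norm_num))
    (exp_neg_leJ (r := 0.78) 11 (by norm_num) (by norm_num) (by norm_num) (by norm_num))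
    (exp_neg_leJ (r := 0.99) 14 (by norm_num) (by norm_num) (by norm_num) (by norm_num))
    (by norm_num)) (by norm_num) hN hβ.le (by norm_num)

theorem JB7_k1b_c2 {κ t β : ℝ} (h : DomR κ t) (hβ : 0 < β) (hk1 : 0.7 ≤ κ) (hk2 : κ ≤ 0.82)
    (ht1 : 0.6 ≤ t + κ) (ht2 : t + κ ≤ 0.95) (hR0 : β * 10 ≤ κ) (hR : β * (6.75 * (1 + κ ^ 2)) ≤ κ) :
    ‖HH β (sg κ t) - 1‖ ≤ 0.035 := by
  have hN : β * 13.766 ≤ 1 := bNC hβ h.1 hk2 (by norm_num) (by norm_num) hR (by norm_num)
  have hy1 : 0.223 ≤ sy κ t := syR_ge h 0.7 0.82 0.6 0.223 1.24982 1.24983 0.33989 0.39817 hk1 hk2 (by linarith) (by norm_num) (by norm_num)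
    (expn_ge (by norm_num) (by norm_num)) (expn_le (by norm_num) (by norm_num) (by norm_num)) (by norm_num)
    (by norm_num) (by norm_num) (by norm_num) (by norm_num) (by norm_num) (by norm_num)
  have hy2 : sy κ t ≤ 0.338 := syR_le h 0.7 0.82 0.95 0.338 1.40214 0.5614 0.57795 0.67704 hk1 hk2 (by linarith) (by norm_num) (by norm_num)
    (expn_ge (by norm_num) (by norm_num)) (by norm_num) (by norm_num) (Or.inr ((mul_le_mul_of_nonneg_left (expn_le (E := 1.40215) (by norm_num) (by norm_num) (by norm_num)) (by norm_num)).trans (by norm_num))) (by norm_num) (by norm_num) (by norm_num)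
  rcases le_total (sy κ t) 0.278 with f0 | g0
  · have hx1 : 0.4513 ≤ sx κ t := sx_lo h 0.7 0.278 0.278 0.75729 0.4513 hk1 (by norm_num) f0 (abs_le.2 ⟨by linarith, by linarith⟩) (expm_ge (by norm_num) (by norm_num) (by norm_num) (by norm_num)) (by norm_num) (by norm_num)
    have hx2 : sx κ t ≤ 0.6171 := sx_hi h 0.82 0.223 0.223 0.80012 0.6171 hk2 hy1 (by norm_num) (by rw [abs_of_nonneg (by linarith)]; linarith) (expm_le (by norm_num) (by norm_num) (by norm_num)) (by norm_num) (by norm_num)
    exact JB7_k1b_b2_0 hβ hN hx1 hx2 (by linarith) (by linarith)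
  rcases le_total (sy κ t) 0.313 with f1 | g1
  · have hx1 : 0.405 ≤ sx κ t := sx_lo h 0.7 0.313 0.313 0.73124 0.405 hk1 (by norm_num) f1 (abs_le.2 ⟨by linarith, by linarith⟩) (expm_ge (by norm_num) (by norm_num) (by norm_num) (by norm_num)) (by norm_num) (by norm_num)
    have hx2 : sx κ t ≤ 0.5553 := sx_hi h 0.82 0.278 0.278 0.7573 0.5553 hk2 g0 (by norm_num) (by rw [abs_of_nonneg (by linarith)]; linarith) (expm_le (by norm_num) (by norm_num) (by norm_num)) (by norm_num) (by norm_num)
    exact JB7_k1b_b2_1 hβ hN hx1 hx2 (by linarith) (by linarith)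
  rcases le_total (sy κ t) 0.328 with f2 | g2
  · have hx1 : 0.3829 ≤ sx κ t := sx_lo h 0.7 0.328 0.328 0.72036 0.3829 hk1 (by norm_num) f2 (abs_le.2 ⟨by linarith, by linarith⟩) (expm_ge (by norm_num) (by norm_num) (by norm_num) (by norm_num)) (by norm_num) (by norm_num)
    have hx2 : sx κ t ≤ 0.5115 := sx_hi h 0.82 0.313 0.313 0.73125 0.5115 hk2 g1 (by norm_num) (by rw [abs_of_nonneg (by linarith)]; linarith) (expm_le (by norm_num) (by norm_num) (by norm_num)) (by norm_num) (by norm_num)
    exact JB7_k1b_b2_2 hβ hN hx1 hx2 (by linarith) (by linarith)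
  have hx1 : 0.3674 ≤ sx κ t := sx_lo h 0.7 0.338 0.338 0.71319 0.3674 hk1 (by norm_num) hy2 (abs_le.2 ⟨by linarith, by linarith⟩) (expm_ge (by norm_num) (by norm_num) (by norm_num) (by norm_num)) (by norm_num) (by norm_num)
  have hx2 : sx κ t ≤ 0.4913 := sx_hi h 0.82 0.328 0.328 0.72037 0.4913 hk2 g2 (by norm_num) (by rw [abs_of_nonneg (by linarith)]; linarith) (expm_le (by norm_num) (by norm_num) (by norm_num)) (by norm_num) (by norm_num)
  exact JB7_k1b_b2_3 hβ hN hx1 hx2 (by linarith) (by linarith)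
end Sok
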