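import Pool.Agent.Lib.MP_816dec_an.JBG

/-!
MP_816dec_an (A3, row R1): tables b = 7, real points.
-/

set_option autoImplicit false
set_option maxHeartbeats 4000000

open Complex Set

namespace Sok

private theorem JB7_k1b_b3_0 {β x y : ℝ} (hβ : 0 < β) (hN : β * 13.525 ≤ 1) (hx1 : 0.5431 ≤ x) (hx2 : x ≤ 0.7017)
    (hy1 : -0 ≤ y) (hy2 : y ≤ 0.288) : ‖HH β (x + y * I) - 1‖ ≤ 0.035 := by
  refine le_epsJ (C := 0.4707) (N0 := 13.525) (J_boxp 0.5431 0.7017 0 0.288 0.288 1.0924 0.7586 1.4668 1.0608 0.4832 3.6777 13.525 0.6945 2.514 1.365 1.1502 0.5461 0.4197 1.1941 3.683 0.5894 1.2226 1.4216 2.3791 0.00062 0.00343 0.0000003101 0.0000003101 0.0003465 0.0000003101 0.0000003101 0.0000003101 0.4707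
    hβ hN hx1 hx2 hy1 hy2 (by norm_num) (by norm_num) (by linarith) (by norm_num) (by norm_num) (by norm_num) (by norm_num) (by norm_num) (by norm_num) (by norm_num) (by norm_num) (by norm_num) (by norm_num) (by norm_num) (by norm_num) (by norm_num) (by norm_num) (by norm_num) (by norm_num) (by norm_num) (by norm_num) (by norm_num) (by norm_num) (by norm_num)
    (cube_sqrt_geJ (s := 0.8766) (by norm_num) (by norm_num) (by norm_num) (by norm_num))
    (cube_sqrt_geJ (s := 0.9565) (by norm_num) (by norm_num) (by norm_num) (by norm_num))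
    (by norm_num) (by norm_num) (by norm_num) (by norm_num) (by norm_num) (by norm_num) (by norm_num) (by norm_num) (by norm_num) (by norm_num) (by norm_num) (by norm_num) (by norm_num) (by norm_num) (by norm_num) (by norm_num) (by norm_num) (by norm_num)
    (exp_neg_leJ (r := 0.386) 7 (by norm_num) (by norm_num) (by norm_num) (by norm_num))
    (exp_neg_leJ (r := 0.676) 5 (by norm_num) (by norm_num) (by norm_num) (by norm_num))
    (exp_neg_leJ (r := 0.99) 14 (by norm_num) (by norm_num) (by norm_num) (by norm_num))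
    (exp_neg_leJ (r := 0.99) 14 (by norm_num) (by norm_num) (by norm_num) (by norm_num))
    (exp_neg_leJ (r := 0.971) 7 (by norm_num) (by norm_num) (by norm_num) (by norm_num))
    (exp_neg_leJ (r := 0.99) 14 (by norm_num) (by norm_num) (by norm_num) (by norm_num))
    (exp_neg_leJ (r := 0.99) 14 (by norm_num) (by norm_num) (by norm_num) (by norm_num))
    (exp_neg_leJ (r := 0.99) 14 (by norm_num) (by norm_num) (by norm_num) (by norm_num))
    (by norm_num)) (by norm_num) hN hβ.le (by norm_num)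

private theorem JB7_k1b_b3_1 {β x y : ℝ} (hβ : 0 < β) (hN : β * 13.525 ≤ 1) (hx1 : 0.5048 ≤ x) (hx2 : x ≤ 0.6433)
    (hy1 : -0 ≤ y) (hy2 : y ≤ 0.318) : ‖HH β (x + y * I) - 1‖ ≤ 0.035 := by
  refine le_epsJ (C := 0.4669) (N0 := 13.525) (J_boxp 0.5048 0.6433 0 0.318 0.318 1.0655 0.7177 1.4667 1.1012 0.4832 3.6777 13.525 0.6736 2.436 1.352 1.1726 0.5327 0.4131 1.181 3.712 0.5677 1.1665 1.2163 2.2723 0.0007437 0.003748 0.0000003101 0.0000003101 0.0004633 0.0000003101 0.0000003101 0.0000003101 0.4669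
    hβ hN hx1 hx2 hy1 hy2 (by norm_num) (by norm_num) (by linarith) (by norm_num) (by norm_num) (by norm_num) (by norm_num) (by norm_num) (by norm_num) (by norm_num) (by norm_num) (by norm_num) (by norm_num) (by norm_num) (by norm_num) (by norm_num) (by norm_num) (by norm_num) (by norm_num) (by norm_num) (by norm_num) (by norm_num) (by norm_num) (by norm_num)
    (cube_sqrt_geJ (s := 0.8806) (by norm_num) (by norm_num) (by norm_num) (by norm_num))
    (cube_sqrt_geJ (s := 0.9578) (by norm_num) (by norm_num) (by norm_num) (by norm_num))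
    (by norm_num) (by norm_num) (by norm_num) (by norm_num) (by norm_num) (by norm_num) (by norm_num) (by norm_num) (by norm_num) (by norm_num) (by norm_num) (by norm_num) (by norm_num) (by norm_num) (by norm_num) (by norm_num) (by norm_num) (by norm_num)
    (exp_neg_leJ (r := 0.204) 7 (by norm_num) (by norm_num) (by norm_num) (by norm_num))
    (exp_neg_leJ (r := 0.587) 5 (by norm_num) (by norm_num) (by norm_num) (by norm_num))
    (exp_neg_leJ (r := 0.99) 14 (by norm_num) (by norm_num) (by norm_num) (by norm_num))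
    (exp_neg_leJ (r := 0.99) 14 (by norm_num) (by norm_num) (by norm_num) (by norm_num))
    (exp_neg_leJ (r := 0.678) 7 (by norm_num) (by norm_num) (by norm_num) (by norm_num))
    (exp_neg_leJ (r := 0.99) 14 (by norm_num) (by norm_num) (by norm_num) (by norm_num))
    (exp_neg_leJ (r := 0.99) 14 (by norm_num) (by norm_num) (by norm_num) (by norm_num))
    (exp_neg_leJ (r := 0.99) 14 (by norm_num) (by norm_num) (by norm_num) (by norm_num))
    (by norm_num)) (by norm_num) hN hβ.le (by norm_num)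

private theorem JB7_k1b_b3_2 {β x y : ℝ} (hβ : 0 < β) (hN : β * 13.525 ≤ 1) (hx1 : 0.4772 ≤ x) (hx2 : x ≤ 0.6056)
    (hy1 : -0 ≤ y) (hy2 : y ≤ 0.338) : ‖HH β (x + y * I) - 1‖ ≤ 0.035 := by
  refine le_epsJ (C := 0.4722) (N0 := 13.525) (J_boxp 0.4772 0.6056 0 0.338 0.338 1.046 0.6936 1.4687 1.1329 0.4835 3.6777 13.525 0.6631 2.398 1.346 1.1871 0.5229 0.4073 1.1716 3.7301 0.5523 1.1262 1.0754 2.1883 0.0008486 0.004055 0.0000003101 0.0000003101 0.0005706 0.0000003101 0.0000004828 0.0000003101 0.4722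
    hβ hN hx1 hx2 hy1 hy2 (by norm_num) (by norm_num) (by linarith) (by norm_num) (by norm_num) (by norm_num) (by norm_num) (by norm_num) (by norm_num) (by norm_num) (by norm_num) (by norm_num) (by norm_num) (by norm_num) (by norm_num) (by norm_num) (by norm_num) (by norm_num) (by norm_num) (by norm_num) (by norm_num) (by norm_num) (by norm_num) (by norm_num)
    (cube_sqrt_geJ (s := 0.8825) (by norm_num) (by norm_num) (by norm_num) (by norm_num))
    (cube_sqrt_geJ (s := 0.9585) (by norm_num) (by norm_num) (by norm_num) (by norm_num))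
    (by norm_num) (by norm_num) (by norm_num) (by norm_num) (by norm_num) (by norm_num) (by norm_num) (by norm_num) (by norm_num) (by norm_num) (by norm_num) (by norm_num) (by norm_num) (by norm_num) (by norm_num) (by norm_num) (by norm_num) (by norm_num)
    (exp_neg_leJ (r := 0.072) 7 (by norm_num) (by norm_num) (by norm_num) (by norm_num))
    (exp_neg_leJ (r := 0.508) 5 (by norm_num) (by norm_num) (by norm_num) (by norm_num))
    (exp_neg_leJ (r := 0.99) 14 (by norm_num) (by norm_num) (by norm_num) (by norm_num))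
    (exp_neg_leJ (r := 0.99) 14 (by norm_num) (by norm_num) (by norm_num) (by norm_num))
    (exp_neg_leJ (r := 0.469) 7 (by norm_num) (by norm_num) (by norm_num) (by norm_num))
    (exp_neg_leJ (r := 0.99) 14 (by norm_num) (by norm_num) (by norm_num) (by norm_num))
    (exp_neg_leJ (r := 0.544) 14 (by norm_num) (by norm_num) (by norm_num) (by norm_num))
    (exp_neg_leJ (r := 0.99) 14 (by norm_num) (by norm_num) (by norm_num) (by norm_num))
    (by norm_num)) (by norm_num) hN hβ.le (by norm_num)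

private theorem JB7_k1b_b3_3 {β x y : ℝ} (hβ : 0 < β) (hN : β * 13.525 ≤ 1) (hx1 : 0.4627 ≤ x) (hx2 : x ≤ 0.579)
    (hy1 : -0 ≤ y) (hy2 : y ≤ 0.348) : ‖HH β (x + y * I) - 1‖ ≤ 0.035 := by
  refine le_epsJ (C := 0.4673) (N0 := 13.525) (J_boxp 0.4627 0.579 0 0.348 0.348 1.0358 0.6756 1.4671 1.149 0.4833 3.6777 13.525 0.6523 2.359 1.339 1.1974 0.5178 0.4052 1.1666 3.7432 0.5442 1.1051 1.0035 2.1612 0.0009092 0.00417 0.0000003101 0.0000003101 0.0006363 0.0000003239 0.000001277 0.0000003101 0.4673
    hβ hN hx1 hx2 hy1 hy2 (by norm_num) (by norm_num) (by linarith) (by norm_num) (by norm_num) (by norm_num) (by norm_num) (by norm_num) (by norm_num) (by norm_num) (by norm_num) (by norm_num) (by norm_num) (by norm_num) (by norm_num) (by norm_num) (by norm_num) (by norm_num) (by norm_num) (by norm_num) (by norm_num) (by norm_num) (by norm_num) (by norm_num)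
    (cube_sqrt_geJ (s := 0.8846) (by norm_num) (by norm_num) (by norm_num) (by norm_num))
    (cube_sqrt_geJ (s := 0.9592) (by norm_num) (by norm_num) (by norm_num) (by norm_num))
    (by norm_num) (by norm_num) (by norm_num) (by norm_num) (by norm_num) (by norm_num) (by norm_num) (by norm_num) (by norm_num) (by norm_num) (by norm_num) (by norm_num) (by norm_num) (by norm_num) (by norm_num) (by norm_num) (by norm_num) (by norm_num)
    (exp_neg_leJ (r := 0.003) 7 (by norm_num) (by norm_num) (by norm_num) (by norm_num))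
    (exp_neg_leJ (r := 0.48) 5 (by norm_num) (by norm_num) (by norm_num) (by norm_num))
    (exp_neg_leJ (r := 0.99) 14 (by norm_num) (by norm_num) (by norm_num) (by norm_num))
    (exp_neg_leJ (r := 0.99) 14 (by norm_num) (by norm_num) (by norm_num) (by norm_num))
    (exp_neg_leJ (r := 0.36) 7 (by norm_num) (by norm_num) (by norm_num) (by norm_num))
    (exp_neg_leJ (r := 0.946) 14 (by norm_num) (by norm_num) (by norm_num) (by norm_num))
    (exp_neg_leJ (r := 0.572) 13 (by norm_num) (by norm_num) (by norm_num) (by norm_num))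
    (exp_neg_leJ (r := 0.99) 14 (by norm_num) (by norm_num) (by norm_num) (by norm_num))
    (by norm_num)) (by norm_num) hN hβ.le (by norm_num)

private theorem JB7_k1b_b3_4 {β x y : ℝ} (hβ : 0 < β) (hN : β * 13.525 ≤ 1) (hx1 : 0.4552 ≤ x) (hx2 : x ≤ 0.5652)
    (hy1 : -0 ≤ y) (hy2 : y ≤ 0.353) : ‖HH β (x + y * I) - 1‖ ≤ 0.035 := by
  refine le_epsJ (C := 0.4649) (N0 := 13.525) (J_boxp 0.4552 0.5652 0 0.353 0.353 1.0305 0.6664 1.4664 1.1576 0.4831 3.6777 13.525 0.6467 2.34 1.335 1.2027 0.5152 0.4041 1.1641 3.7499 0.5401 1.0942 0.967 2.1476 0.0009446 0.004233 0.0000003101 0.0000003101 0.0006729 0.0000003746 0.000002091 0.0000003101 0.4649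
    hβ hN hx1 hx2 hy1 hy2 (by norm_num) (by norm_num) (by linarith) (by norm_num) (by norm_num) (by norm_num) (by norm_num) (by norm_num) (by norm_num) (by norm_num) (by norm_num) (by norm_num) (by norm_num) (by norm_num) (by norm_num) (by norm_num) (by norm_num) (by norm_num) (by norm_num) (by norm_num) (by norm_num) (by norm_num) (by norm_num) (by norm_num)
    (cube_sqrt_geJ (s := 0.8856) (by norm_num) (by norm_num) (by norm_num) (by norm_num))
    (cube_sqrt_geJ (s := 0.9595) (by norm_num) (by norm_num) (by norm_num) (by norm_num))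
    (by norm_num) (by norm_num) (by norm_num) (by norm_num) (by norm_num) (by norm_num) (by norm_num) (by norm_num) (by norm_num) (by norm_num) (by norm_num) (by norm_num) (by norm_num) (by norm_num) (by norm_num) (by norm_num) (by norm_num) (by norm_num)
    (exp_neg_leJ (r := 0.968) 6 (by norm_num) (by norm_num) (by norm_num) (by norm_num))
    (exp_neg_leJ (r := 0.465) 5 (by norm_num) (by norm_num) (by norm_num) (by norm_num))
    (exp_neg_leJ (r := 0.99) 14 (by norm_num) (by norm_num) (by norm_num) (by norm_num))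
    (exp_neg_leJ (r := 0.99) 14 (by norm_num) (by norm_num) (by norm_num) (by norm_num))
    (exp_neg_leJ (r := 0.304) 7 (by norm_num) (by norm_num) (by norm_num) (by norm_num))
    (exp_neg_leJ (r := 0.799) 14 (by norm_num) (by norm_num) (by norm_num) (by norm_num))
    (exp_neg_leJ (r := 0.078) 13 (by norm_num) (by norm_num) (by norm_num) (by norm_num))
    (exp_neg_leJ (r := 0.99) 14 (by norm_num) (by norm_num) (by norm_num) (by norm_num))
    (by norm_num)) (by norm_num) hN hβ.le (by norm_num)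

private theorem JB7_k1b_b3_5 {β x y : ℝ} (hβ : 0 < β) (hN : β * 13.525 ≤ 1) (hx1 : 0.4507 ≤ x) (hx2 : x ≤ 0.5582)
    (hy1 : -0 ≤ y) (hy2 : y ≤ 0.356) : ‖HH β (x + y * I) - 1‖ ≤ 0.035 := by
  refine le_epsJ (C := 0.4652) (N0 := 13.525) (J_boxp 0.4507 0.5582 0 0.356 0.356 1.0274 0.6621 1.4664 1.1629 0.4831 3.6777 13.525 0.6445 2.332 1.334 1.2054 0.5136 0.4033 1.1625 3.7532 0.5376 1.0877 0.9452 2.1362 0.0009653 0.00428 0.0000003101 0.0000003101 0.0006955 0.0000004088 0.000002812 0.0000003101 0.4652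
    hβ hN hx1 hx2 hy1 hy2 (by norm_num) (by norm_num) (by linarith) (by norm_num) (by norm_num) (by norm_num) (by norm_num) (by norm_num) (by norm_num) (by norm_num) (by norm_num) (by norm_num) (by norm_num) (by norm_num) (by norm_num) (by norm_num) (by norm_num) (by norm_num) (by norm_num) (by norm_num) (by norm_num) (by norm_num) (by norm_num) (by norm_num)
    (cube_sqrt_geJ (s := 0.886) (by norm_num) (by norm_num) (by norm_num) (by norm_num))
    (cube_sqrt_geJ (s := 0.9597) (by norm_num) (by norm_num) (by norm_num) (by norm_num))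
    (by norm_num) (by norm_num) (by norm_num) (by norm_num) (by norm_num) (by norm_num) (by norm_num) (by norm_num) (by norm_num) (by norm_num) (by norm_num) (by norm_num) (by norm_num) (by norm_num) (by norm_num) (by norm_num) (by norm_num) (by norm_num)
    (exp_neg_leJ (r := 0.946) 6 (by norm_num) (by norm_num) (by norm_num) (by norm_num))
    (exp_neg_leJ (r := 0.454) 5 (by norm_num) (by norm_num) (by norm_num) (by norm_num))
    (exp_neg_leJ (r := 0.99) 14 (by norm_num) (by norm_num) (by norm_num) (by norm_num))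
    (exp_neg_leJ (r := 0.99) 14 (by norm_num) (by norm_num) (by norm_num) (by norm_num))
    (exp_neg_leJ (r := 0.271) 7 (by norm_num) (by norm_num) (by norm_num) (by norm_num))
    (exp_neg_leJ (r := 0.711) 14 (by norm_num) (by norm_num) (by norm_num) (by norm_num))
    (exp_neg_leJ (r := 0.783) 12 (by norm_num) (by norm_num) (by norm_num) (by norm_num))
    (exp_neg_leJ (r := 0.99) 14 (by norm_num) (by norm_num) (by norm_num) (by norm_num))
    (by norm_num)) (by norm_num) hN hβ.le (by norm_num)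

theorem JB7_k1b_c3 {κ t β : ℝ} (h : DomR κ t) (hβ : 0 < β) (hk1 : 0.82 ≤ κ) (hk2 : κ ≤ 0.94)
    (ht1 : 0.6 ≤ t + κ) (ht2 : t + κ ≤ 0.95) (hR0 : β * 10 ≤ κ) (hR : β * (6.75 * (1 + κ ^ 2)) ≤ κ) :
    ‖HH β (sg κ t) - 1‖ ≤ 0.035 := by
  have hN : β * 13.525 ≤ 1 := bNC hβ h.1 hk2 (by norm_num) (by norm_num) hR (by norm_num)
  have hy1 : 0.238 ≤ sy κ t := syR_ge h 0.82 0.94 0.6 0.238 1.2687 1.26871 0.32122 0.36824 hk1 hk2 (by linarith) (by norm_num) (by norm_num)
    (expn_ge (by norm_num) (by norm_num)) (expn_le (by norm_num) (by norm_num) (by norm_num)) (by norm_num)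
    (by norm_num) (by norm_num) (by norm_num) (by norm_num) (by norm_num) (by norm_num)
  have hy2 : sy κ t ≤ 0.356 := syR_le h 0.82 0.94 0.95 0.356 1.4276 0.5208 0.54066 0.6198 hk1 hk2 (by linarith) (by norm_num) (by norm_num)
    (expn_ge (by norm_num) (by norm_num)) (by norm_num) (by norm_num) (Or.inr ((mul_le_mul_of_nonneg_left (expn_le (E := 1.42761) (by norm_num) (by norm_num) (by norm_num)) (by norm_num)).trans (by norm_num))) (by norm_num) (by norm_num) (by norm_num)
  rcases le_total (sy κ t) 0.288 with f0 | g0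
  · have hx1 : 0.5431 ≤ sx κ t := sx_lo h 0.82 0.288 0.288 0.74976 0.5431 hk1 (by norm_num) f0 (abs_le.2 ⟨by linarith, by linarith⟩) (expm_ge (by norm_num) (by norm_num) (by norm_num) (by norm_num)) (by norm_num) (by norm_num)
    have hx2 : sx κ t ≤ 0.7017 := sx_hi h 0.94 0.238 0.238 0.78821 0.7017 hk2 hy1 (by norm_num) (by rw [abs_of_nonneg (by linarith)]; linarith) (expm_le (by norm_num) (by norm_num) (by norm_num)) (by norm_num) (by norm_num)
    exact JB7_k1b_b3_0 hβ hN hx1 hx2 (by linarith) (by linarith)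
  rcases le_total (sy κ t) 0.318 with f1 | g1
  · have hx1 : 0.5048 ≤ sx κ t := sx_lo h 0.82 0.318 0.318 0.7276 0.5048 hk1 (by norm_num) f1 (abs_le.2 ⟨by linarith, by linarith⟩) (expm_ge (by norm_num) (by norm_num) (by norm_num) (by norm_num)) (by norm_num) (by norm_num)
    have hx2 : sx κ t ≤ 0.6433 := sx_hi h 0.94 0.288 0.288 0.74977 0.6433 hk2 g0 (by norm_num) (by rw [abs_of_nonneg (by linarith)]; linarith) (expm_le (by norm_num) (by norm_num) (by norm_num)) (by norm_num) (by norm_num)
    exact JB7_k1b_b3_1 hβ hN hx1 hx2 (by linarith) (by linarith)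
  rcases le_total (sy κ t) 0.338 with f2 | g2
  · have hx1 : 0.4772 ≤ sx κ t := sx_lo h 0.82 0.338 0.338 0.71319 0.4772 hk1 (by norm_num) f2 (abs_le.2 ⟨by linarith, by linarith⟩) (expm_ge (by norm_num) (by norm_num) (by norm_num) (by norm_num)) (by norm_num) (by norm_num)
    have hx2 : sx κ t ≤ 0.6056 := sx_hi h 0.94 0.318 0.318 0.72761 0.6056 hk2 g1 (by norm_num) (by rw [abs_of_nonneg (by linarith)]; linarith) (expm_le (by norm_num) (by norm_num) (by norm_num)) (by norm_num) (by norm_num)
    exact JB7_k1b_b3_2 hβ hN hx1 hx2 (by linarith) (by linarith)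
  rcases le_total (sy κ t) 0.348 with f3 | g3
  · have hx1 : 0.4627 ≤ sx κ t := sx_lo h 0.82 0.348 0.348 0.70609 0.4627 hk1 (by norm_num) f3 (abs_le.2 ⟨by linarith, by linarith⟩) (expm_ge (by norm_num) (by norm_num) (by norm_num) (by norm_num)) (by norm_num) (by norm_num)
    have hx2 : sx κ t ≤ 0.579 := sx_hi h 0.94 0.338 0.338 0.7132 0.579 hk2 g2 (by norm_num) (by rw [abs_of_nonneg (by linarith)]; linarith) (expm_le (by norm_num) (by norm_num) (by norm_num)) (by norm_num) (by norm_num)
    exact JB7_k1b_b3_3 hβ hN hx1 hx2 (by linarith) (by linarith)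
  rcases le_total (sy κ t) 0.353 with f4 | g4
  · have hx1 : 0.4552 ≤ sx κ t := sx_lo h 0.82 0.353 0.353 0.70257 0.4552 hk1 (by norm_num) f4 (abs_le.2 ⟨by linarith, by linarith⟩) (expm_ge (by norm_num) (by norm_num) (by norm_num) (by norm_num)) (by norm_num) (by norm_num)
    have hx2 : sx κ t ≤ 0.5652 := sx_hi h 0.94 0.348 0.348 0.7061 0.5652 hk2 g3 (by norm_num) (by rw [abs_of_nonneg (by linarith)]; linarith) (expm_le (by norm_num) (by norm_num) (by norm_num)) (by norm_num) (by norm_num)
    exact JB7_k1b_b3_4 hβ hN hx1 hx2 (by linarith) (by linarith)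
  have hx1 : 0.4507 ≤ sx κ t := sx_lo h 0.82 0.356 0.356 0.70047 0.4507 hk1 (by norm_num) hy2 (abs_le.2 ⟨by linarith, by linarith⟩) (expm_ge (by norm_num) (by norm_num) (by norm_num) (by norm_num)) (by norm_num) (by norm_num)
  have hx2 : sx κ t ≤ 0.5582 := sx_hi h 0.94 0.353 0.353 0.70258 0.5582 hk2 g4 (by norm_num) (by rw [abs_of_nonneg (by linarith)]; linarith) (expm_le (by norm_num) (by norm_num) (by norm_num)) (by norm_num) (by norm_num)
  exact JB7_k1b_b3_5 hβ hN hx1 hx2 (by linarith) (by linarith)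

private theorem JB7_k1b_b4_0 {β x y : ℝ} (hβ : 0 < β) (hN : β * 13.499 ≤ 1) (hx1 : 0.5976 ≤ x) (hx2 : x ≤ 0.7388)
    (hy1 : -0 ≤ y) (hy2 : y ≤ 0.324) : ‖HH β (x + y * I) - 1‖ ≤ 0.035 := by
  refine le_epsJ (C := 0.4721) (N0 := 13.499) (J_boxp 0.5976 0.7388 0 0.324 0.324 1.1308 0.8068 1.5162 1.024 0.4913 3.6741 13.499 0.7135 2.588 1.378 1.1359 0.5653 0.4309 1.2128 3.6585 0.6122 1.2943 1.3762 2.1874 0.000486 0.002985 0.0000003101 0.0000003101 0.0002577 0.0000003101 0.0000003101 0.0000003101 0.4721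
    hβ hN hx1 hx2 hy1 hy2 (by norm_num) (by norm_num) (by linarith) (by norm_num) (by norm_num) (by norm_num) (by norm_num) (by norm_num) (by norm_num) (by norm_num) (by norm_num) (by norm_num) (by norm_num) (by norm_num) (by norm_num) (by norm_num) (by norm_num) (by norm_num) (by norm_num) (by norm_num) (by norm_num) (by norm_num) (by norm_num) (by norm_num)
    (cube_sqrt_geJ (s := 0.873) (by norm_num) (by norm_num) (by norm_num) (by norm_num))
    (cube_sqrt_geJ (s := 0.9553) (by norm_num) (by norm_num) (by norm_num) (by norm_num))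
    (by norm_num) (by norm_num) (by norm_num) (by norm_num) (by norm_num) (by norm_num) (by norm_num) (by norm_num) (by norm_num) (by norm_num) (by norm_num) (by norm_num) (by norm_num) (by norm_num) (by norm_num) (by norm_num) (by norm_num) (by norm_num)
    (exp_neg_leJ (r := 0.63) 7 (by norm_num) (by norm_num) (by norm_num) (by norm_num))
    (exp_neg_leJ (r := 0.816) 5 (by norm_num) (by norm_num) (by norm_num) (by norm_num))
    (exp_neg_leJ (r := 0.99) 14 (by norm_num) (by norm_num) (by norm_num) (by norm_num))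
    (exp_neg_leJ (r := 0.99) 14 (by norm_num) (by norm_num) (by norm_num) (by norm_num))
    (exp_neg_leJ (r := 0.264) 8 (by norm_num) (by norm_num) (by norm_num) (by norm_num))
    (exp_neg_leJ (r := 0.99) 14 (by norm_num) (by norm_num) (by norm_num) (by norm_num))
    (exp_neg_leJ (r := 0.99) 14 (by norm_num) (by norm_num) (by norm_num) (by norm_num))
    (exp_neg_leJ (r := 0.99) 14 (by norm_num) (by norm_num) (by norm_num) (by norm_num))
    (by norm_num)) (by norm_num) hN hβ.le (by norm_num)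

private theorem JB7_k1b_b4_1 {β x y : ℝ} (hβ : 0 < β) (hN : β * 13.499 ≤ 1) (hx1 : 0.5438 ≤ x) (hx2 : x ≤ 0.6467)
    (hy1 : -0 ≤ y) (hy2 : y ≤ 0.363) : ‖HH β (x + y * I) - 1‖ ≤ 0.035 := by
  refine le_epsJ (C := 0.4558) (N0 := 13.499) (J_boxp 0.5438 0.6467 0 0.363 0.363 1.0929 0.7417 1.5087 1.0751 0.4901 3.6741 13.499 0.6787 2.455 1.355 1.1713 0.5464 0.4228 1.1944 3.7045 0.5821 1.2159 1.1013 2.073 0.0006268 0.003326 0.0000003101 0.0000003101 0.0003878 0.0000003101 0.0000003505 0.0000003101 0.4558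
    hβ hN hx1 hx2 hy1 hy2 (by norm_num) (by norm_num) (by linarith) (by norm_num) (by norm_num) (by norm_num) (by norm_num) (by norm_num) (by norm_num) (by norm_num) (by norm_num) (by norm_num) (by norm_num) (by norm_num) (by norm_num) (by norm_num) (by norm_num) (by norm_num) (by norm_num) (by norm_num) (by norm_num) (by norm_num) (by norm_num) (by norm_num)
    (cube_sqrt_geJ (s := 0.8796) (by norm_num) (by norm_num) (by norm_num) (by norm_num))
    (cube_sqrt_geJ (s := 0.9575) (by norm_num) (by norm_num) (by norm_num) (by norm_num))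
    (by norm_num) (by norm_num) (by norm_num) (by norm_num) (by norm_num) (by norm_num) (by norm_num) (by norm_num) (by norm_num) (by norm_num) (by norm_num) (by norm_num) (by norm_num) (by norm_num) (by norm_num) (by norm_num) (by norm_num) (by norm_num)
    (exp_neg_leJ (r := 0.375) 7 (by norm_num) (by norm_num) (by norm_num) (by norm_num))
    (exp_neg_leJ (r := 0.707) 5 (by norm_num) (by norm_num) (by norm_num) (by norm_num))
    (exp_neg_leJ (r := 0.99) 14 (by norm_num) (by norm_num) (by norm_num) (by norm_num))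
    (exp_neg_leJ (r := 0.99) 14 (by norm_num) (by norm_num) (by norm_num) (by norm_num))
    (exp_neg_leJ (r := 0.857) 7 (by norm_num) (by norm_num) (by norm_num) (by norm_num))
    (exp_neg_leJ (r := 0.99) 14 (by norm_num) (by norm_num) (by norm_num) (by norm_num))
    (exp_neg_leJ (r := 0.866) 14 (by norm_num) (by norm_num) (by norm_num) (by norm_num))
    (exp_neg_leJ (r := 0.99) 14 (by norm_num) (by norm_num) (by norm_num) (by norm_num))
    (by norm_num)) (by norm_num) hN hβ.le (by norm_num)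

theorem JB7_k1b_c4 {κ t β : ℝ} (h : DomR κ t) (hβ : 0 < β) (hk1 : 0.94 ≤ κ) (hk2 : κ ≤ 1)
    (ht1 : 0.6 ≤ t + κ) (ht2 : t + κ ≤ 0.95) (hR0 : β * 10 ≤ κ) (hR : β * (6.75 * (1 + κ ^ 2)) ≤ κ) :
    ‖HH β (sg κ t) - 1‖ ≤ 0.035 := by
  have hN : β * 13.499 ≤ 1 := bNC hβ h.1 hk2 (by norm_num) (by norm_num) hR (by norm_num)
  have hy1 : 0.249 ≤ sy κ t := syR_ge h 0.94 1 0.6 0.249 1.28274 1.28275 0.3194 0.3398 hk1 hk2 (by linarith) (by norm_num) (by norm_num)
    (expn_ge (by norm_num) (by norm_num)) (expn_le (by norm_num) (by norm_num) (by norm_num)) (by norm_num)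
    (by norm_num) (by norm_num) (by norm_num) (by norm_num) (by norm_num) (by norm_num)
  have hy2 : sy κ t ≤ 0.363 := syR_le h 0.94 1 0.95 0.363 1.43763 0.5135 0.52185 0.55518 hk1 hk2 (by linarith) (by norm_num) (by norm_num)
    (expn_ge (by norm_num) (by norm_num)) (by norm_num) (by norm_num) (Or.inr ((mul_le_mul_of_nonneg_left (expn_le (E := 1.43764) (by norm_num) (by norm_num) (by norm_num)) (by norm_num)).trans (by norm_num))) (by norm_num) (by norm_num) (by norm_num)
  rcases le_total (sy κ t) 0.324 with f0 | g0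
  · have hx1 : 0.5976 ≤ sx κ t := sx_lo h 0.94 0.324 0.324 0.72325 0.5976 hk1 (by norm_num) f0 (abs_le.2 ⟨by linarith, by linarith⟩) (expm_ge (by norm_num) (by norm_num) (by norm_num) (by norm_num)) (by norm_num) (by norm_num)
    have hx2 : sx κ t ≤ 0.7388 := sx_hi h 1 0.249 0.249 0.77958 0.7388 hk2 hy1 (by norm_num) (by rw [abs_of_nonneg (by linarith)]; linarith) (expm_le (by norm_num) (by norm_num) (by norm_num)) (by norm_num) (by norm_num)
    exact JB7_k1b_b4_0 hβ hN hx1 hx2 (by linarith) (by linarith)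
  have hx1 : 0.5438 ≤ sx κ t := sx_lo h 0.94 0.363 0.363 0.69558 0.5438 hk1 (by norm_num) hy2 (abs_le.2 ⟨by linarith, by linarith⟩) (expm_ge (by norm_num) (by norm_num) (by norm_num) (by norm_num)) (by norm_num) (by norm_num)
  have hx2 : sx κ t ≤ 0.6467 := sx_hi h 1 0.324 0.324 0.72326 0.6467 hk2 g0 (by norm_num) (by rw [abs_of_nonneg (by linarith)]; linarith) (expm_le (by norm_num) (by norm_num) (by norm_num)) (by norm_num) (by norm_num)
  exact JB7_k1b_b4_1 hβ hN hx1 hx2 (by linarith) (by linarith)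

private theorem JB7_k1b_b5_0 {β x y : ℝ} (hβ : 0 < β) (hN : β * 13.499 ≤ 1) (hx1 : 0.6798 ≤ x) (hx2 : x ≤ 0.8321)
    (hy1 : -0 ≤ y) (hy2 : y ≤ 0.298) : ‖HH β (x + y * I) - 1‖ ≤ 0.035 := by
  refine le_epsJ (C := 0.4712) (N0 := 13.499) (J_boxp 0.6798 0.8321 0 0.298 0.298 1.1887 0.8839 1.5419 0.9582 0.4954 3.6741 13.499 0.7436 2.711 1.397 1.1 0.5943 0.447 1.2409 3.609 0.6548 1.4108 1.6521 2.2647 0.0003282 0.002396 0.0000003101 0.0000003101 0.0001453 0.0000003101 0.0000003101 0.0000003101 0.4712
    hβ hN hx1 hx2 hy1 hy2 (by norm_num) (by norm_num) (by linarith) (by norm_num) (by norm_num) (by norm_num) (by norm_num) (by norm_num) (by norm_num) (by norm_num) (by norm_num) (by norm_num) (by norm_num) (by norm_num) (by norm_num) (by norm_num) (by norm_num) (by norm_num) (by norm_num) (by norm_num) (by norm_num) (by norm_num) (by norm_num) (by norm_num)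
    (cube_sqrt_geJ (s := 0.8672) (by norm_num) (by norm_num) (by norm_num) (by norm_num))
    (cube_sqrt_geJ (s := 0.9533) (by norm_num) (by norm_num) (by norm_num) (by norm_num))
    (by norm_num) (by norm_num) (by norm_num) (by norm_num) (by norm_num) (by norm_num) (by norm_num) (by norm_num) (by norm_num) (by norm_num) (by norm_num) (by norm_num) (by norm_num) (by norm_num) (by norm_num) (by norm_num) (by norm_num) (by norm_num)
    (exp_neg_leJ (r := 0.022) 8 (by norm_num) (by norm_num) (by norm_num) (by norm_num))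
    (exp_neg_leJ (r := 0.034) 6 (by norm_num) (by norm_num) (by norm_num) (by norm_num))
    (exp_neg_leJ (r := 0.99) 14 (by norm_num) (by norm_num) (by norm_num) (by norm_num))
    (exp_neg_leJ (r := 0.99) 14 (by norm_num) (by norm_num) (by norm_num) (by norm_num))
    (exp_neg_leJ (r := 0.839) 8 (by norm_num) (by norm_num) (by norm_num) (by norm_num))
    (exp_neg_leJ (r := 0.99) 14 (by norm_num) (by norm_num) (by norm_num) (by norm_num))
    (exp_neg_leJ (r := 0.99) 14 (by norm_num) (by norm_num) (by norm_num) (by norm_num))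
    (exp_neg_leJ (r := 0.99) 14 (by norm_num) (by norm_num) (by norm_num) (by norm_num))
    (by norm_num)) (by norm_num) hN hβ.le (by norm_num)

private theorem JB7_k1b_b5_1 {β x y : ℝ} (hβ : 0 < β) (hN : β * 13.499 ≤ 1) (hx1 : 0.6413 ≤ x) (hx2 : x ≤ 0.7762)
    (hy1 : -0 ≤ y) (hy2 : y ≤ 0.328) : ‖HH β (x + y * I) - 1‖ ≤ 0.035 := by
  refine le_epsJ (C := 0.4668) (N0 := 13.499) (J_boxp 0.6413 0.7762 0 0.328 0.328 1.1616 0.8427 1.5383 0.9907 0.4949 3.6741 13.499 0.7255 2.636 1.385 1.1215 0.5807 0.4403 1.2278 3.6373 0.633 1.3544 1.4465 2.1584 0.0003952 0.002632 0.0000003101 0.0000003101 0.0001948 0.0000003101 0.0000003101 0.0000003101 0.4668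
    hβ hN hx1 hx2 hy1 hy2 (by norm_num) (by norm_num) (by linarith) (by norm_num) (by norm_num) (by norm_num) (by norm_num) (by norm_num) (by norm_num) (by norm_num) (by norm_num) (by norm_num) (by norm_num) (by norm_num) (by norm_num) (by norm_num) (by norm_num) (by norm_num) (by norm_num) (by norm_num) (by norm_num) (by norm_num) (by norm_num) (by norm_num)
    (cube_sqrt_geJ (s := 0.8707) (by norm_num) (by norm_num) (by norm_num) (by norm_num))
    (cube_sqrt_geJ (s := 0.9545) (by norm_num) (by norm_num) (by norm_num) (by norm_num))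
    (by norm_num) (by norm_num) (by norm_num) (by norm_num) (by norm_num) (by norm_num) (by norm_num) (by norm_num) (by norm_num) (by norm_num) (by norm_num) (by norm_num) (by norm_num) (by norm_num) (by norm_num) (by norm_num) (by norm_num) (by norm_num)
    (exp_neg_leJ (r := 0.838) 7 (by norm_num) (by norm_num) (by norm_num) (by norm_num))
    (exp_neg_leJ (r := 0.943) 5 (by norm_num) (by norm_num) (by norm_num) (by norm_num))
    (exp_neg_leJ (r := 0.99) 14 (by norm_num) (by norm_num) (by norm_num) (by norm_num))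
    (exp_neg_leJ (r := 0.99) 14 (by norm_num) (by norm_num) (by norm_num) (by norm_num))
    (exp_neg_leJ (r := 0.544) 8 (by norm_num) (by norm_num) (by norm_num) (by norm_num))
    (exp_neg_leJ (r := 0.99) 14 (by norm_num) (by norm_num) (by norm_num) (by norm_num))
    (exp_neg_leJ (r := 0.99) 14 (by norm_num) (by norm_num) (by norm_num) (by norm_num))
    (exp_neg_leJ (r := 0.99) 14 (by norm_num) (by norm_num) (by norm_num) (by norm_num))
    (by norm_num)) (by norm_num) hN hβ.le (by norm_num)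

private theorem JB7_k1b_b5_2 {β x y : ℝ} (hβ : 0 < β) (hN : β * 13.499 ≤ 1) (hx1 : 0.6143 ≤ x) (hx2 : x ≤ 0.7372)
    (hy1 : -0 ≤ y) (hy2 : y ≤ 0.348) : ‖HH β (x + y * I) - 1‖ ≤ 0.035 := by
  refine le_epsJ (C := 0.4655) (N0 := 13.499) (J_boxp 0.6143 0.7372 0 0.348 0.348 1.1426 0.8153 1.5365 1.015 0.4946 3.6741 13.499 0.7136 2.588 1.378 1.1365 0.5712 0.4354 1.2185 3.6567 0.6179 1.315 1.3067 2.0846 0.0004488 0.00281 0.0000003101 0.0000003101 0.0002386 0.0000003101 0.0000003101 0.0000003101 0.4655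
    hβ hN hx1 hx2 hy1 hy2 (by norm_num) (by norm_num) (by linarith) (by norm_num) (by norm_num) (by norm_num) (by norm_num) (by norm_num) (by norm_num) (by norm_num) (by norm_num) (by norm_num) (by norm_num) (by norm_num) (by norm_num) (by norm_num) (by norm_num) (by norm_num) (by norm_num) (by norm_num) (by norm_num) (by norm_num) (by norm_num) (by norm_num)
    (cube_sqrt_geJ (s := 0.873) (by norm_num) (by norm_num) (by norm_num) (by norm_num))
    (cube_sqrt_geJ (s := 0.9553) (by norm_num) (by norm_num) (by norm_num) (by norm_num))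
    (by norm_num) (by norm_num) (by norm_num) (by norm_num) (by norm_num) (by norm_num) (by norm_num) (by norm_num) (by norm_num) (by norm_num) (by norm_num) (by norm_num) (by norm_num) (by norm_num) (by norm_num) (by norm_num) (by norm_num) (by norm_num)
    (exp_neg_leJ (r := 0.71) 7 (by norm_num) (by norm_num) (by norm_num) (by norm_num))
    (exp_neg_leJ (r := 0.877) 5 (by norm_num) (by norm_num) (by norm_num) (by norm_num))
    (exp_neg_leJ (r := 0.99) 14 (by norm_num) (by norm_num) (by norm_num) (by norm_num))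
    (exp_neg_leJ (r := 0.99) 14 (by norm_num) (by norm_num) (by norm_num) (by norm_num))
    (exp_neg_leJ (r := 0.341) 8 (by norm_num) (by norm_num) (by norm_num) (by norm_num))
    (exp_neg_leJ (r := 0.99) 14 (by norm_num) (by norm_num) (by norm_num) (by norm_num))
    (exp_neg_leJ (r := 0.99) 14 (by norm_num) (by norm_num) (by norm_num) (by norm_num))
    (exp_neg_leJ (r := 0.99) 14 (by norm_num) (by norm_num) (by norm_num) (by norm_num))
    (by norm_num)) (by norm_num) hN hβ.le (by norm_num)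

private theorem JB7_k1b_b5_3 {β x y : ℝ} (hβ : 0 < β) (hN : β * 13.499 ≤ 1) (hx1 : 0.5933 ≤ x) (hx2 : x ≤ 0.7102)
    (hy1 : -0 ≤ y) (hy2 : y ≤ 0.363) : ‖HH β (x + y * I) - 1‖ ≤ 0.035 := by
  refine le_epsJ (C := 0.4694) (N0 := 13.499) (J_boxp 0.5933 0.7102 0 0.363 0.363 1.1278 0.7976 1.537 1.0352 0.4946 3.6741 13.499 0.7073 2.563 1.374 1.1469 0.5638 0.4309 1.2113 3.6698 0.6061 1.2844 1.2003 2.02 0.0004957 0.002985 0.0000003101 0.0000003101 0.00028 0.0000003101 0.0000003101 0.0000003101 0.4694
    hβ hN hx1 hx2 hy1 hy2 (by norm_num) (by norm_num) (by linarith) (by norm_num) (by norm_num) (by norm_num) (by norm_num) (by norm_num) (by norm_num) (by norm_num) (by norm_num) (by norm_num) (by norm_num) (by norm_num) (by norm_num) (by norm_num) (by norm_num) (by norm_num) (by norm_num) (by norm_num) (by norm_num) (by norm_num) (by norm_num) (by norm_num)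
    (cube_sqrt_geJ (s := 0.8742) (by norm_num) (by norm_num) (by norm_num) (by norm_num))
    (cube_sqrt_geJ (s := 0.9557) (by norm_num) (by norm_num) (by norm_num) (by norm_num))
    (by norm_num) (by norm_num) (by norm_num) (by norm_num) (by norm_num) (by norm_num) (by norm_num) (by norm_num) (by norm_num) (by norm_num) (by norm_num) (by norm_num) (by norm_num) (by norm_num) (by norm_num) (by norm_num) (by norm_num) (by norm_num)
    (exp_neg_leJ (r := 0.61) 7 (by norm_num) (by norm_num) (by norm_num) (by norm_num))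
    (exp_neg_leJ (r := 0.816) 5 (by norm_num) (by norm_num) (by norm_num) (by norm_num))
    (exp_neg_leJ (r := 0.99) 14 (by norm_num) (by norm_num) (by norm_num) (by norm_num))
    (exp_neg_leJ (r := 0.99) 14 (by norm_num) (by norm_num) (by norm_num) (by norm_num))
    (exp_neg_leJ (r := 0.181) 8 (by norm_num) (by norm_num) (by norm_num) (by norm_num))
    (exp_neg_leJ (r := 0.99) 14 (by norm_num) (by norm_num) (by norm_num) (by norm_num))
    (exp_neg_leJ (r := 0.99) 14 (by norm_num) (by norm_num) (by norm_num) (by norm_num))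
    (exp_neg_leJ (r := 0.99) 14 (by norm_num) (by norm_num) (by norm_num) (by norm_num))
    (by norm_num)) (by norm_num) hN hβ.le (by norm_num)

private theorem JB7_k1b_b5_4 {β x y : ℝ} (hβ : 0 < β) (hN : β * 13.499 ≤ 1) (hx1 : 0.5861 ≤ x) (hx2 : x ≤ 0.6894)
    (hy1 : -0 ≤ y) (hy2 : y ≤ 0.368) : ‖HH β (x + y * I) - 1‖ ≤ 0.035 := by
  refine le_epsJ (C := 0.4572) (N0 := 13.499) (J_boxp 0.5861 0.6894 0 0.368 0.368 1.1227 0.7815 1.5319 1.0405 0.4938 3.6741 13.499 0.6961 2.52 1.366 1.1549 0.5613 0.431 1.2089 3.6806 0.6021 1.2739 1.1645 2.0258 0.0005128 0.002979 0.0000003101 0.0000003101 0.0002955 0.0000003101 0.0000003101 0.0000003101 0.4572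
    hβ hN hx1 hx2 hy1 hy2 (by norm_num) (by norm_num) (by linarith) (by norm_num) (by norm_num) (by norm_num) (by norm_num) (by norm_num) (by norm_num) (by norm_num) (by norm_num) (by norm_num) (by norm_num) (by norm_num) (by norm_num) (by norm_num) (by norm_num) (by norm_num) (by norm_num) (by norm_num) (by norm_num) (by norm_num) (by norm_num) (by norm_num)
    (cube_sqrt_geJ (s := 0.8763) (by norm_num) (by norm_num) (by norm_num) (by norm_num))
    (cube_sqrt_geJ (s := 0.9564) (by norm_num) (by norm_num) (by norm_num) (by norm_num))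
    (by norm_num) (by norm_num) (by norm_num) (by norm_num) (by norm_num) (by norm_num) (by norm_num) (by norm_num) (by norm_num) (by norm_num) (by norm_num) (by norm_num) (by norm_num) (by norm_num) (by norm_num) (by norm_num) (by norm_num) (by norm_num)
    (exp_neg_leJ (r := 0.576) 7 (by norm_num) (by norm_num) (by norm_num) (by norm_num))
    (exp_neg_leJ (r := 0.818) 5 (by norm_num) (by norm_num) (by norm_num) (by norm_num))
    (exp_neg_leJ (r := 0.99) 14 (by norm_num) (by norm_num) (by norm_num) (by norm_num))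
    (exp_neg_leJ (r := 0.99) 14 (by norm_num) (by norm_num) (by norm_num) (by norm_num))
    (exp_neg_leJ (r := 0.127) 8 (by norm_num) (by norm_num) (by norm_num) (by norm_num))
    (exp_neg_leJ (r := 0.99) 14 (by norm_num) (by norm_num) (by norm_num) (by norm_num))
    (exp_neg_leJ (r := 0.99) 14 (by norm_num) (by norm_num) (by norm_num) (by norm_num))
    (exp_neg_leJ (r := 0.99) 14 (by norm_num) (by norm_num) (by norm_num) (by norm_num))
    (by norm_num)) (by norm_num) hN hβ.le (by norm_num)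

private theorem JB7_k1b_b5_5 {β x y : ℝ} (hβ : 0 < β) (hN : β * 13.499 ≤ 1) (hx1 : 0.5774 ≤ x) (hx2 : x ≤ 0.6823)
    (hy1 : -0 ≤ y) (hy2 : y ≤ 0.374) : ‖HH β (x + y * I) - 1‖ ≤ 0.035 := by
  refine le_epsJ (C := 0.464) (N0 := 13.499) (J_boxp 0.5774 0.6823 0 0.374 0.374 1.1166 0.7781 1.5341 1.0498 0.4942 3.6741 13.499 0.6969 2.523 1.367 1.1576 0.5582 0.4286 1.2059 3.6837 0.5973 1.2613 1.1214 1.9894 0.0005342 0.003078 0.0000003101 0.0000003101 0.0003153 0.0000003101 0.0000003101 0.0000003101 0.464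
    hβ hN hx1 hx2 hy1 hy2 (by norm_num) (by norm_num) (by linarith) (by norm_num) (by norm_num) (by norm_num) (by norm_num) (by norm_num) (by norm_num) (by norm_num) (by norm_num) (by norm_num) (by norm_num) (by norm_num) (by norm_num) (by norm_num) (by norm_num) (by norm_num) (by norm_num) (by norm_num) (by norm_num) (by norm_num) (by norm_num) (by norm_num)
    (cube_sqrt_geJ (s := 0.8761) (by norm_num) (by norm_num) (by norm_num) (by norm_num))
    (cube_sqrt_geJ (s := 0.9563) (by norm_num) (by norm_num) (by norm_num) (by norm_num))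
    (by norm_num) (by norm_num) (by norm_num) (by norm_num) (by norm_num) (by norm_num) (by norm_num) (by norm_num) (by norm_num) (by norm_num) (by norm_num) (by norm_num) (by norm_num) (by norm_num) (by norm_num) (by norm_num) (by norm_num) (by norm_num)
    (exp_neg_leJ (r := 0.535) 7 (by norm_num) (by norm_num) (by norm_num) (by norm_num))
    (exp_neg_leJ (r := 0.785) 5 (by norm_num) (by norm_num) (by norm_num) (by norm_num))
    (exp_neg_leJ (r := 0.99) 14 (by norm_num) (by norm_num) (by norm_num) (by norm_num))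
    (exp_neg_leJ (r := 0.99) 14 (by norm_num) (by norm_num) (by norm_num) (by norm_num))
    (exp_neg_leJ (r := 0.062) 8 (by norm_num) (by norm_num) (by norm_num) (by norm_num))
    (exp_neg_leJ (r := 0.99) 14 (by norm_num) (by norm_num) (by norm_num) (by norm_num))
    (exp_neg_leJ (r := 0.99) 14 (by norm_num) (by norm_num) (by norm_num) (by norm_num))
    (exp_neg_leJ (r := 0.99) 14 (by norm_num) (by norm_num) (by norm_num) (by norm_num))
    (by norm_num)) (by norm_num) hN hβ.le (by norm_num)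

theorem JB7_k1b_c5 {κ t β : ℝ} (h : DomR κ t) (hβ : 0 < β) (hk1 : 1 ≤ κ) (hk2 : κ ≤ 1.12)
    (ht1 : 0.6 ≤ t + κ) (ht2 : t + κ ≤ 0.95) (hR0 : β * 10 ≤ κ) (hR : β * (6.75 * (1 + κ ^ 2)) ≤ κ) :
    ‖HH β (sg κ t) - 1‖ ≤ 0.035 := by
  have hN : β * 13.499 ≤ 1 := bNC' hβ hk1 (by norm_num) (by norm_num) hR (by norm_num)
  have hy1 : 0.253 ≤ sy κ t := syR_ge h 1 1.12 0.6 0.253 1.28788 1.28789 0.29092 0.32584 hk1 hk2 (by linarith) (by norm_num) (by norm_num)
    (expn_ge (by norm_num) (by norm_num)) (expn_le (by norm_num) (by norm_num) (by norm_num)) (by norm_num)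
    (by norm_num) (by norm_num) (by norm_num) (by norm_num) (by norm_num) (by norm_num)
  have hy2 : sy κ t ≤ 0.374 := syR_le h 1 1.12 0.95 0.374 1.45353 0.4853 0.48537 0.54363 hk1 hk2 (by linarith) (by norm_num) (by norm_num)
    (expn_ge (by norm_num) (by norm_num)) (by norm_num) (by norm_num) (Or.inr ((mul_le_mul_of_nonneg_left (expn_le (E := 1.45354) (by norm_num) (by norm_num) (by norm_num)) (by norm_num)).trans (by norm_num))) (by norm_num) (by norm_num) (by norm_num)
  rcases le_total (sy κ t) 0.298 with f0 | g0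
  · have hx1 : 0.6798 ≤ sx κ t := sx_lo h 1 0.298 0.298 0.7423 0.6798 hk1 (by norm_num) f0 (abs_le.2 ⟨by linarith, by linarith⟩) (expm_ge (by norm_num) (by norm_num) (by norm_num) (by norm_num)) (by norm_num) (by norm_num)
    have hx2 : sx κ t ≤ 0.8321 := sx_hi h 1.12 0.253 0.253 0.77647 0.8321 hk2 hy1 (by norm_num) (by rw [abs_of_nonneg (by linarith)]; linarith) (expm_le (by norm_num) (by norm_num) (by norm_num)) (by norm_num) (by norm_num)
    exact JB7_k1b_b5_0 hβ hN hx1 hx2 (by linarith) (by linarith)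
  rcases le_total (sy κ t) 0.328 with f1 | g1
  · have hx1 : 0.6413 ≤ sx κ t := sx_lo h 1 0.328 0.328 0.72036 0.6413 hk1 (by norm_num) f1 (abs_le.2 ⟨by linarith, by linarith⟩) (expm_ge (by norm_num) (by norm_num) (by norm_num) (by norm_num)) (by norm_num) (by norm_num)
    have hx2 : sx κ t ≤ 0.7762 := sx_hi h 1.12 0.298 0.298 0.74231 0.7762 hk2 g0 (by norm_num) (by rw [abs_of_nonneg (by linarith)]; linarith) (expm_le (by norm_num) (by norm_num) (by norm_num)) (by norm_num) (by norm_num)
    exact JB7_k1b_b5_1 hβ hN hx1 hx2 (by linarith) (by linarith)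
  rcases le_total (sy κ t) 0.348 with f2 | g2
  · have hx1 : 0.6143 ≤ sx κ t := sx_lo h 1 0.348 0.348 0.70609 0.6143 hk1 (by norm_num) f2 (abs_le.2 ⟨by linarith, by linarith⟩) (expm_ge (by norm_num) (by norm_num) (by norm_num) (by norm_num)) (by norm_num) (by norm_num)
    have hx2 : sx κ t ≤ 0.7372 := sx_hi h 1.12 0.328 0.328 0.72037 0.7372 hk2 g1 (by norm_num) (by rw [abs_of_nonneg (by linarith)]; linarith) (expm_le (by norm_num) (by norm_num) (by norm_num)) (by norm_num) (by norm_num)
    exact JB7_k1b_b5_2 hβ hN hx1 hx2 (by linarith) (by linarith)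
  rcases le_total (sy κ t) 0.363 with f3 | g3
  · have hx1 : 0.5933 ≤ sx κ t := sx_lo h 1 0.363 0.363 0.69558 0.5933 hk1 (by norm_num) f3 (abs_le.2 ⟨by linarith, by linarith⟩) (expm_ge (by norm_num) (by norm_num) (by norm_num) (by norm_num)) (by norm_num) (by norm_num)
    have hx2 : sx κ t ≤ 0.7102 := sx_hi h 1.12 0.348 0.348 0.7061 0.7102 hk2 g2 (by norm_num) (by rw [abs_of_nonneg (by linarith)]; linarith) (expm_le (by norm_num) (by norm_num) (by norm_num)) (by norm_num) (by norm_num)
    exact JB7_k1b_b5_3 hβ hN hx1 hx2 (by linarith) (by linarith)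
  rcases le_total (sy κ t) 0.368 with f4 | g4
  · have hx1 : 0.5861 ≤ sx κ t := sx_lo h 1 0.368 0.368 0.69211 0.5861 hk1 (by norm_num) f4 (abs_le.2 ⟨by linarith, by linarith⟩) (expm_ge (by norm_num) (by norm_num) (by norm_num) (by norm_num)) (by norm_num) (by norm_num)
    have hx2 : sx κ t ≤ 0.6894 := sx_hi h 1.12 0.363 0.363 0.69559 0.6894 hk2 g3 (by norm_num) (by rw [abs_of_nonneg (by linarith)]; linarith) (expm_le (by norm_num) (by norm_num) (by norm_num)) (by norm_num) (by norm_num)
    exact JB7_k1b_b5_4 hβ hN hx1 hx2 (by linarith) (by linarith)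
  have hx1 : 0.5774 ≤ sx κ t := sx_lo h 1 0.374 0.374 0.68797 0.5774 hk1 (by norm_num) hy2 (abs_le.2 ⟨by linarith, by linarith⟩) (expm_ge (by norm_num) (by norm_num) (by norm_num) (by norm_num)) (by norm_num) (by norm_num)
  have hx2 : sx κ t ≤ 0.6823 := sx_hi h 1.12 0.368 0.368 0.69212 0.6823 hk2 g4 (by norm_num) (by rw [abs_of_nonneg (by linarith)]; linarith) (expm_le (by norm_num) (by norm_num) (by norm_num)) (by norm_num) (by norm_num)
  exact JB7_k1b_b5_5 hβ hN hx1 hx2 (by linarith) (by linarith)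

private theorem JB7_k1b_b6_0 {β x y : ℝ} (hβ : 0 < β) (hN : β * 13.586 ≤ 1) (hx1 : 0.7761 ≤ x) (hx2 : x ≤ 0.9227)
    (hy1 : -0 ≤ y) (hy2 : y ≤ 0.298) : ‖HH β (x + y * I) - 1‖ ≤ 0.035 := by
  refine le_epsJ (C := 0.4677) (N0 := 13.586) (J_boxp 0.7761 0.9227 0 0.298 0.298 1.2565 0.9697 1.5926 0.8961 0.5035 3.686 13.586 0.7718 2.833 1.416 1.0652 0.6282 0.4666 1.2739 3.5579 0.7015 1.5442 1.8447 2.2241 0.0001968 0.001767 0.0000003101 0.0000003101 0.00007266 0.0000003101 0.0000003101 0.0000003101 0.4677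
    hβ hN hx1 hx2 hy1 hy2 (by norm_num) (by norm_num) (by linarith) (by norm_num) (by norm_num) (by norm_num) (by norm_num) (by norm_num) (by norm_num) (by norm_num) (by norm_num) (by norm_num) (by norm_num) (by norm_num) (by norm_num) (by norm_num) (by norm_num) (by norm_num) (by norm_num) (by norm_num) (by norm_num) (by norm_num) (by norm_num) (by norm_num)
    (cube_sqrt_geJ (s := 0.8618) (by norm_num) (by norm_num) (by norm_num) (by norm_num))
    (cube_sqrt_geJ (s := 0.9515) (by norm_num) (by norm_num) (by norm_num) (by norm_num))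
    (by norm_num) (by norm_num) (by norm_num) (by norm_num) (by norm_num) (by norm_num) (by norm_num) (by norm_num) (by norm_num) (by norm_num) (by norm_num) (by norm_num) (by norm_num) (by norm_num) (by norm_num) (by norm_num) (by norm_num) (by norm_num)
    (exp_neg_leJ (r := 0.534) 8 (by norm_num) (by norm_num) (by norm_num) (by norm_num))
    (exp_neg_leJ (r := 0.339) 6 (by norm_num) (by norm_num) (by norm_num) (by norm_num))
    (exp_neg_leJ (r := 0.99) 14 (by norm_num) (by norm_num) (by norm_num) (by norm_num))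
    (exp_neg_leJ (r := 0.99) 14 (by norm_num) (by norm_num) (by norm_num) (by norm_num))
    (exp_neg_leJ (r := 0.53) 9 (by norm_num) (by norm_num) (by norm_num) (by norm_num))
    (exp_neg_leJ (r := 0.99) 14 (by norm_num) (by norm_num) (by norm_num) (by norm_num))
    (exp_neg_leJ (r := 0.99) 14 (by norm_num) (by norm_num) (by norm_num) (by norm_num))
    (exp_neg_leJ (r := 0.99) 14 (by norm_num) (by norm_num) (by norm_num) (by norm_num))
    (by norm_num)) (by norm_num) hN hβ.le (by norm_num)

private theorem JB7_k1b_b6_1 {β x y : ℝ} (hβ : 0 < β) (hN : β * 13.586 ≤ 1) (hx1 : 0.7371 ≤ x) (hx2 : x ≤ 0.8709)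
    (hy1 : -0 ≤ y) (hy2 : y ≤ 0.328) : ‖HH β (x + y * I) - 1‖ ≤ 0.035 := by
  refine le_epsJ (C := 0.4661) (N0 := 13.586) (J_boxp 0.7371 0.8709 0 0.328 0.328 1.229 0.9307 1.5881 0.925 0.5028 3.686 13.586 0.7573 2.769 1.406 1.0851 0.6144 0.4593 1.2605 3.5844 0.6795 1.4871 1.6381 2.1108 0.0002372 0.00195 0.0000003101 0.0000003101 0.00009796 0.0000003101 0.0000003101 0.0000003101 0.4661
    hβ hN hx1 hx2 hy1 hy2 (by norm_num) (by norm_num) (by linarith) (by norm_num) (by norm_num) (by norm_num) (by norm_num) (by norm_num) (by norm_num) (by norm_num) (by norm_num) (by norm_num) (by norm_num) (by norm_num) (by norm_num) (by norm_num) (by norm_num) (by norm_num) (by norm_num) (by norm_num) (by norm_num) (by norm_num) (by norm_num) (by norm_num)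
    (cube_sqrt_geJ (s := 0.8646) (by norm_num) (by norm_num) (by norm_num) (by norm_num))
    (cube_sqrt_geJ (s := 0.9525) (by norm_num) (by norm_num) (by norm_num) (by norm_num))
    (by norm_num) (by norm_num) (by norm_num) (by norm_num) (by norm_num) (by norm_num) (by norm_num) (by norm_num) (by norm_num) (by norm_num) (by norm_num) (by norm_num) (by norm_num) (by norm_num) (by norm_num) (by norm_num) (by norm_num) (by norm_num)
    (exp_neg_leJ (r := 0.347) 8 (by norm_num) (by norm_num) (by norm_num) (by norm_num))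
    (exp_neg_leJ (r := 0.24) 6 (by norm_num) (by norm_num) (by norm_num) (by norm_num))
    (exp_neg_leJ (r := 0.99) 14 (by norm_num) (by norm_num) (by norm_num) (by norm_num))
    (exp_neg_leJ (r := 0.99) 14 (by norm_num) (by norm_num) (by norm_num) (by norm_num))
    (exp_neg_leJ (r := 0.231) 9 (by norm_num) (by norm_num) (by norm_num) (by norm_num))
    (exp_neg_leJ (r := 0.99) 14 (by norm_num) (by norm_num) (by norm_num) (by norm_num))
    (exp_neg_leJ (r := 0.99) 14 (by norm_num) (by norm_num) (by norm_num) (by norm_num))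
    (exp_neg_leJ (r := 0.99) 14 (by norm_num) (by norm_num) (by norm_num) (by norm_num))
    (by norm_num)) (by norm_num) hN hβ.le (by norm_num)

private theorem JB7_k1b_b6_2 {β x y : ℝ} (hβ : 0 < β) (hN : β * 13.586 ≤ 1) (hx1 : 0.7032 ≤ x) (hx2 : x ≤ 0.8309)
    (hy1 : -0 ≤ y) (hy2 : y ≤ 0.353) : ‖HH β (x + y * I) - 1‖ ≤ 0.035 := by
  refine le_epsJ (C := 0.4721) (N0 := 13.586) (J_boxp 0.7032 0.8309 0 0.353 0.353 1.2052 0.9028 1.5878 0.9524 0.5027 3.686 13.586 0.7491 2.734 1.401 1.1005 0.6025 0.4521 1.2489 3.6042 0.6605 1.4376 1.463 2.001 0.0002789 0.002151 0.0000003101 0.0000003101 0.0001273 0.0000003101 0.0000003101 0.0000003101 0.4721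
    hβ hN hx1 hx2 hy1 hy2 (by norm_num) (by norm_num) (by linarith) (by norm_num) (by norm_num) (by norm_num) (by norm_num) (by norm_num) (by norm_num) (by norm_num) (by norm_num) (by norm_num) (by norm_num) (by norm_num) (by norm_num) (by norm_num) (by norm_num) (by norm_num) (by norm_num) (by norm_num) (by norm_num) (by norm_num) (by norm_num) (by norm_num)
    (cube_sqrt_geJ (s := 0.8661) (by norm_num) (by norm_num) (by norm_num) (by norm_num))
    (cube_sqrt_geJ (s := 0.953) (by norm_num) (by norm_num) (by norm_num) (by norm_num))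
    (by norm_num) (by norm_num) (by norm_num) (by norm_num) (by norm_num) (by norm_num) (by norm_num) (by norm_num) (by norm_num) (by norm_num) (by norm_num) (by norm_num) (by norm_num) (by norm_num) (by norm_num) (by norm_num) (by norm_num) (by norm_num)
    (exp_neg_leJ (r := 0.185) 8 (by norm_num) (by norm_num) (by norm_num) (by norm_num))
    (exp_neg_leJ (r := 0.142) 6 (by norm_num) (by norm_num) (by norm_num) (by norm_num))
    (exp_neg_leJ (r := 0.99) 14 (by norm_num) (by norm_num) (by norm_num) (by norm_num))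
    (exp_neg_leJ (r := 0.99) 14 (by norm_num) (by norm_num) (by norm_num) (by norm_num))
    (exp_neg_leJ (r := 0.973) 8 (by norm_num) (by norm_num) (by norm_num) (by norm_num))
    (exp_neg_leJ (r := 0.99) 14 (by norm_num) (by norm_num) (by norm_num) (by norm_num))
    (exp_neg_leJ (r := 0.99) 14 (by norm_num) (by norm_num) (by norm_num) (by norm_num))
    (exp_neg_leJ (r := 0.99) 14 (by norm_num) (by norm_num) (by norm_num) (by norm_num))
    (by norm_num)) (by norm_num) hN hβ.le (by norm_num)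

private theorem JB7_k1b_b6_3 {β x y : ℝ} (hβ : 0 < β) (hN : β * 13.586 ≤ 1) (hx1 : 0.6822 ≤ x) (hx2 : x ≤ 0.7965)
    (hy1 : -0 ≤ y) (hy2 : y ≤ 0.368) : ‖HH β (x + y * I) - 1‖ ≤ 0.035 := by
  refine le_epsJ (C := 0.4659) (N0 := 13.586) (J_boxp 0.6822 0.7965 0 0.368 0.368 1.1904 0.8775 1.583 0.9688 0.502 3.686 13.586 0.7372 2.684 1.393 1.1137 0.5951 0.4489 1.2418 3.6217 0.6488 1.407 1.3567 1.9571 0.0003082 0.002248 0.0000003101 0.0000003101 0.0001489 0.0000003101 0.0000003101 0.0000003101 0.4659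
    hβ hN hx1 hx2 hy1 hy2 (by norm_num) (by norm_num) (by linarith) (by norm_num) (by norm_num) (by norm_num) (by norm_num) (by norm_num) (by norm_num) (by norm_num) (by norm_num) (by norm_num) (by norm_num) (by norm_num) (by norm_num) (by norm_num) (by norm_num) (by norm_num) (by norm_num) (by norm_num) (by norm_num) (by norm_num) (by norm_num) (by norm_num)
    (cube_sqrt_geJ (s := 0.8684) (by norm_num) (by norm_num) (by norm_num) (by norm_num))
    (cube_sqrt_geJ (s := 0.9538) (by norm_num) (by norm_num) (by norm_num) (by norm_num))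
    (by norm_num) (by norm_num) (by norm_num) (by norm_num) (by norm_num) (by norm_num) (by norm_num) (by norm_num) (by norm_num) (by norm_num) (by norm_num) (by norm_num) (by norm_num) (by norm_num) (by norm_num) (by norm_num) (by norm_num) (by norm_num)
    (exp_neg_leJ (r := 0.085) 8 (by norm_num) (by norm_num) (by norm_num) (by norm_num))
    (exp_neg_leJ (r := 0.098) 6 (by norm_num) (by norm_num) (by norm_num) (by norm_num))
    (exp_neg_leJ (r := 0.99) 14 (by norm_num) (by norm_num) (by norm_num) (by norm_num))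
    (exp_neg_leJ (r := 0.99) 14 (by norm_num) (by norm_num) (by norm_num) (by norm_num))
    (exp_neg_leJ (r := 0.814) 8 (by norm_num) (by norm_num) (by norm_num) (by norm_num))
    (exp_neg_leJ (r := 0.99) 14 (by norm_num) (by norm_num) (by norm_num) (by norm_num))
    (exp_neg_leJ (r := 0.99) 14 (by norm_num) (by norm_num) (by norm_num) (by norm_num))
    (exp_neg_leJ (r := 0.99) 14 (by norm_num) (by norm_num) (by norm_num) (by norm_num))
    (by norm_num)) (by norm_num) hN hβ.le (by norm_num)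

private theorem JB7_k1b_b6_4 {β x y : ℝ} (hβ : 0 < β) (hN : β * 13.586 ≤ 1) (hx1 : 0.662 ≤ x) (hx2 : x ≤ 0.7754)
    (hy1 : -0 ≤ y) (hy2 : y ≤ 0.382) : ‖HH β (x + y * I) - 1‖ ≤ 0.035 := by
  refine le_epsJ (C := 0.4742) (N0 := 13.586) (J_boxp 0.662 0.7754 0 0.382 0.382 1.1762 0.8644 1.5847 0.9869 0.5023 3.686 13.586 0.735 2.675 1.392 1.1218 0.588 0.444 1.2348 3.6317 0.6376 1.3776 1.2563 1.8863 0.0003408 0.002401 0.0000003101 0.0000003101 0.0001732 0.0000003101 0.0000003101 0.0000003101 0.4742
    hβ hN hx1 hx2 hy1 hy2 (by norm_num) (by norm_num) (by linarith) (by norm_num) (by norm_num) (by norm_num) (by norm_num) (by norm_num) (by norm_num) (by norm_num) (by norm_num) (by norm_num) (by norm_num) (by norm_num) (by norm_num) (by norm_num) (by norm_num) (by norm_num) (by norm_num) (by norm_num) (by norm_num) (by norm_num) (by norm_num) (by norm_num)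
    (cube_sqrt_geJ (s := 0.8689) (by norm_num) (by norm_num) (by norm_num) (by norm_num))
    (cube_sqrt_geJ (s := 0.9539) (by norm_num) (by norm_num) (by norm_num) (by norm_num))
    (by norm_num) (by norm_num) (by norm_num) (by norm_num) (by norm_num) (by norm_num) (by norm_num) (by norm_num) (by norm_num) (by norm_num) (by norm_num) (by norm_num) (by norm_num) (by norm_num) (by norm_num) (by norm_num) (by norm_num) (by norm_num)
    (exp_neg_leJ (r := 0.988) 7 (by norm_num) (by norm_num) (by norm_num) (by norm_num))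
    (exp_neg_leJ (r := 0.032) 6 (by norm_num) (by norm_num) (by norm_num) (by norm_num))
    (exp_neg_leJ (r := 0.99) 14 (by norm_num) (by norm_num) (by norm_num) (by norm_num))
    (exp_neg_leJ (r := 0.99) 14 (by norm_num) (by norm_num) (by norm_num) (by norm_num))
    (exp_neg_leJ (r := 0.662) 8 (by norm_num) (by norm_num) (by norm_num) (by norm_num))
    (exp_neg_leJ (r := 0.99) 14 (by norm_num) (by norm_num) (by norm_num) (by norm_num))
    (exp_neg_leJ (r := 0.99) 14 (by norm_num) (by norm_num) (by norm_num) (by norm_num))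
    (exp_neg_leJ (r := 0.99) 14 (by norm_num) (by norm_num) (by norm_num) (by norm_num))
    (by norm_num)) (by norm_num) hN hβ.le (by norm_num)

theorem JB7_k1b_c6 {κ t β : ℝ} (h : DomR κ t) (hβ : 0 < β) (hk1 : 1.12 ≤ κ) (hk2 : κ ≤ 1.24)
    (ht1 : 0.6 ≤ t + κ) (ht2 : t + κ ≤ 0.95) (hR0 : β * 10 ≤ κ) (hR : β * (6.75 * (1 + κ ^ 2)) ≤ κ) :
    ‖HH β (sg κ t) - 1‖ ≤ 0.035 := by
  have hN : β * 13.586 ≤ 1 := bNC' hβ hk1 (by norm_num) (by norm_num) hR (by norm_num)
  have hy1 : 0.258 ≤ sy κ t := syR_ge h 1.12 1.24 0.6 0.258 1.29433 1.29434 0.2693 0.29817 hk1 hk2 (by linarith) (by norm_num) (by norm_num)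
    (expn_ge (by norm_num) (by norm_num)) (expn_le (by norm_num) (by norm_num) (by norm_num)) (by norm_num)
    (by norm_num) (by norm_num) (by norm_num) (by norm_num) (by norm_num) (by norm_num)
  have hy2 : sy κ t ≤ 0.382 := syR_le h 1.12 1.24 0.95 0.382 1.46521 0.4392 0.45137 0.49975 hk1 hk2 (by linarith) (by norm_num) (by norm_num)
    (expn_ge (by norm_num) (by norm_num)) (by norm_num) (by norm_num) (Or.inr ((mul_le_mul_of_nonneg_left (expn_le (E := 1.46522) (by norm_num) (by norm_num) (by norm_num)) (by norm_num)).trans (by norm_num))) (by norm_num) (by norm_num) (by norm_num)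
  rcases le_total (sy κ t) 0.298 with f0 | g0
  · have hx1 : 0.7761 ≤ sx κ t := sx_lo h 1.12 0.298 0.298 0.7423 0.7761 hk1 (by norm_num) f0 (abs_le.2 ⟨by linarith, by linarith⟩) (expm_ge (by norm_num) (by norm_num) (by norm_num) (by norm_num)) (by norm_num) (by norm_num)
    have hx2 : sx κ t ≤ 0.9227 := sx_hi h 1.24 0.258 0.258 0.7726 0.9227 hk2 hy1 (by norm_num) (by rw [abs_of_nonneg (by linarith)]; linarith) (expm_le (by norm_num) (by norm_num) (by norm_num)) (by norm_num) (by norm_num)
    exact JB7_k1b_b6_0 hβ hN hx1 hx2 (by linarith) (by linarith)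
  rcases le_total (sy κ t) 0.328 with f1 | g1
  · have hx1 : 0.7371 ≤ sx κ t := sx_lo h 1.12 0.328 0.328 0.72036 0.7371 hk1 (by norm_num) f1 (abs_le.2 ⟨by linarith, by linarith⟩) (expm_ge (by norm_num) (by norm_num) (by norm_num) (by norm_num)) (by norm_num) (by norm_num)
    have hx2 : sx κ t ≤ 0.8709 := sx_hi h 1.24 0.298 0.298 0.74231 0.8709 hk2 g0 (by norm_num) (by rw [abs_of_nonneg (by linarith)]; linarith) (expm_le (by norm_num) (by norm_num) (by norm_num)) (by norm_num) (by norm_num)
    exact JB7_k1b_b6_1 hβ hN hx1 hx2 (by linarith) (by linarith)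
  rcases le_total (sy κ t) 0.353 with f2 | g2
  · have hx1 : 0.7032 ≤ sx κ t := sx_lo h 1.12 0.353 0.353 0.70257 0.7032 hk1 (by norm_num) f2 (abs_le.2 ⟨by linarith, by linarith⟩) (expm_ge (by norm_num) (by norm_num) (by norm_num) (by norm_num)) (by norm_num) (by norm_num)
    have hx2 : sx κ t ≤ 0.8309 := sx_hi h 1.24 0.328 0.328 0.72037 0.8309 hk2 g1 (by norm_num) (by rw [abs_of_nonneg (by linarith)]; linarith) (expm_le (by norm_num) (by norm_num) (by norm_num)) (by norm_num) (by norm_num)
    exact JB7_k1b_b6_2 hβ hN hx1 hx2 (by linarith) (by linarith)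
  rcases le_total (sy κ t) 0.368 with f3 | g3
  · have hx1 : 0.6822 ≤ sx κ t := sx_lo h 1.12 0.368 0.368 0.69211 0.6822 hk1 (by norm_num) f3 (abs_le.2 ⟨by linarith, by linarith⟩) (expm_ge (by norm_num) (by norm_num) (by norm_num) (by norm_num)) (by norm_num) (by norm_num)
    have hx2 : sx κ t ≤ 0.7965 := sx_hi h 1.24 0.353 0.353 0.70258 0.7965 hk2 g2 (by norm_num) (by rw [abs_of_nonneg (by linarith)]; linarith) (expm_le (by norm_num) (by norm_num) (by norm_num)) (by norm_num) (by norm_num)
    exact JB7_k1b_b6_3 hβ hN hx1 hx2 (by linarith) (by linarith)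
  have hx1 : 0.662 ≤ sx κ t := sx_lo h 1.12 0.382 0.382 0.68249 0.662 hk1 (by norm_num) hy2 (abs_le.2 ⟨by linarith, by linarith⟩) (expm_ge (by norm_num) (by norm_num) (by norm_num) (by norm_num)) (by norm_num) (by norm_num)
  have hx2 : sx κ t ≤ 0.7754 := sx_hi h 1.24 0.368 0.368 0.69212 0.7754 hk2 g3 (by norm_num) (by rw [abs_of_nonneg (by linarith)]; linarith) (expm_le (by norm_num) (by norm_num) (by norm_num)) (by norm_num) (by norm_num)
  exact JB7_k1b_b6_4 hβ hN hx1 hx2 (by linarith) (by linarith)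

private theorem JB7_k1b_b7_0 {β x y : ℝ} (hβ : 0 < β) (hN : β * 13.813 ≤ 1) (hx1 : 0.8669 ≤ x) (hx2 : x ≤ 1.0226)
    (hy1 : -0 ≤ y) (hy2 : y ≤ 0.301) : ‖HH β (x + y * I) - 1‖ ≤ 0.035 := by
  refine le_epsJ (C := 0.482) (N0 := 13.813) (J_boxp 0.8669 1.0226 0 0.301 0.301 1.3204 1.066 1.6548 0.8479 0.5132 3.7166 13.813 0.8074 2.997 1.44 1.0268 0.6601 0.4825 1.305 3.5011 0.7453 1.6696 2.0135 2.1298 0.0001098 0.001277 0.0000003101 0.0000003101 0.00003384 0.0000003101 0.0000003101 0.0000003101 0.482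
    hβ hN hx1 hx2 hy1 hy2 (by norm_num) (by norm_num) (by linarith) (by norm_num) (by norm_num) (by norm_num) (by norm_num) (by norm_num) (by norm_num) (by norm_num) (by norm_num) (by norm_num) (by norm_num) (by norm_num) (by norm_num) (by norm_num) (by norm_num) (by norm_num) (by norm_num) (by norm_num) (by norm_num) (by norm_num) (by norm_num) (by norm_num)
    (cube_sqrt_geJ (s := 0.8549) (by norm_num) (by norm_num) (by norm_num) (by norm_num))
    (cube_sqrt_geJ (s := 0.9492) (by norm_num) (by norm_num) (by norm_num) (by norm_num))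
    (by norm_num) (by norm_num) (by norm_num) (by norm_num) (by norm_num) (by norm_num) (by norm_num) (by norm_num) (by norm_num) (by norm_num) (by norm_num) (by norm_num) (by norm_num) (by norm_num) (by norm_num) (by norm_num) (by norm_num) (by norm_num)
    (exp_neg_leJ (r := 0.117) 9 (by norm_num) (by norm_num) (by norm_num) (by norm_num))
    (exp_neg_leJ (r := 0.664) 6 (by norm_num) (by norm_num) (by norm_num) (by norm_num))
    (exp_neg_leJ (r := 0.99) 14 (by norm_num) (by norm_num) (by norm_num) (by norm_num))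
    (exp_neg_leJ (r := 0.99) 14 (by norm_num) (by norm_num) (by norm_num) (by norm_num))
    (exp_neg_leJ (r := 0.294) 10 (by norm_num) (by norm_num) (by norm_num) (by norm_num))
    (exp_neg_leJ (r := 0.99) 14 (by norm_num) (by norm_num) (by norm_num) (by norm_num))
    (exp_neg_leJ (r := 0.99) 14 (by norm_num) (by norm_num) (by norm_num) (by norm_num))
    (exp_neg_leJ (r := 0.99) 14 (by norm_num) (by norm_num) (by norm_num) (by norm_num))
    (by norm_num)) (by norm_num) hN hβ.le (by norm_num)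

private theorem JB7_k1b_b7_1 {β x y : ℝ} (hβ : 0 < β) (hN : β * 13.813 ≤ 1) (hx1 : 0.8267 ≤ x) (hx2 : x ≤ 0.9683)
    (hy1 : -0 ≤ y) (hy2 : y ≤ 0.331) : ‖HH β (x + y * I) - 1‖ ≤ 0.035 := by
  refine le_epsJ (C := 0.4776) (N0 := 13.813) (J_boxp 0.8267 0.9683 0 0.331 0.331 1.2921 1.0234 1.646 0.8736 0.5119 3.7166 13.813 0.7921 2.925 1.43 1.0476 0.646 0.4754 1.2912 3.5293 0.7228 1.6108 1.8044 2.0238 0.0001337 0.001408 0.0000003101 0.0000003101 0.0000463 0.0000003101 0.0000003101 0.0000003101 0.4776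
    hβ hN hx1 hx2 hy1 hy2 (by norm_num) (by norm_num) (by linarith) (by norm_num) (by norm_num) (by norm_num) (by norm_num) (by norm_num) (by norm_num) (by norm_num) (by norm_num) (by norm_num) (by norm_num) (by norm_num) (by norm_num) (by norm_num) (by norm_num) (by norm_num) (by norm_num) (by norm_num) (by norm_num) (by norm_num) (by norm_num) (by norm_num)
    (cube_sqrt_geJ (s := 0.8578) (by norm_num) (by norm_num) (by norm_num) (by norm_num))
    (cube_sqrt_geJ (s := 0.9502) (by norm_num) (by norm_num) (by norm_num) (by norm_num))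
    (by norm_num) (by norm_num) (by norm_num) (by norm_num) (by norm_num) (by norm_num) (by norm_num) (by norm_num) (by norm_num) (by norm_num) (by norm_num) (by norm_num) (by norm_num) (by norm_num) (by norm_num) (by norm_num) (by norm_num) (by norm_num)
    (exp_neg_leJ (r := 0.923) 8 (by norm_num) (by norm_num) (by norm_num) (by norm_num))
    (exp_neg_leJ (r := 0.566) 6 (by norm_num) (by norm_num) (by norm_num) (by norm_num))
    (exp_neg_leJ (r := 0.99) 14 (by norm_num) (by norm_num) (by norm_num) (by norm_num))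
    (exp_neg_leJ (r := 0.99) 14 (by norm_num) (by norm_num) (by norm_num) (by norm_num))
    (exp_neg_leJ (r := 0.984) 9 (by norm_num) (by norm_num) (by norm_num) (by norm_num))
    (exp_neg_leJ (r := 0.99) 14 (by norm_num) (by norm_num) (by norm_num) (by norm_num))
    (exp_neg_leJ (r := 0.99) 14 (by norm_num) (by norm_num) (by norm_num) (by norm_num))
    (exp_neg_leJ (r := 0.99) 14 (by norm_num) (by norm_num) (by norm_num) (by norm_num))
    (by norm_num)) (by norm_num) hN hβ.le (by norm_num)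

private theorem JB7_k1b_b7_2 {β x y : ℝ} (hβ : 0 < β) (hN : β * 13.813 ≤ 1) (hx1 : 0.7922 ≤ x) (hx2 : x ≤ 0.9267)
    (hy1 : -0 ≤ y) (hy2 : y ≤ 0.356) : ‖HH β (x + y * I) - 1‖ ≤ 0.035 := by
  refine le_epsJ (C := 0.4806) (N0 := 13.813) (J_boxp 0.7922 0.9267 0 0.356 0.356 1.2678 0.9928 1.6425 0.8978 0.5113 3.7166 13.813 0.7831 2.883 1.424 1.0636 0.6338 0.4684 1.2794 3.5504 0.7035 1.5605 1.6282 1.9202 0.0001581 0.00155 0.0000003101 0.0000003101 0.00006031 0.0000003101 0.0000003101 0.0000003101 0.4806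
    hβ hN hx1 hx2 hy1 hy2 (by norm_num) (by norm_num) (by linarith) (by norm_num) (by norm_num) (by norm_num) (by norm_num) (by norm_num) (by norm_num) (by norm_num) (by norm_num) (by norm_num) (by norm_num) (by norm_num) (by norm_num) (by norm_num) (by norm_num) (by norm_num) (by norm_num) (by norm_num) (by norm_num) (by norm_num) (by norm_num) (by norm_num)
    (cube_sqrt_geJ (s := 0.8596) (by norm_num) (by norm_num) (by norm_num) (by norm_num))
    (cube_sqrt_geJ (s := 0.9508) (by norm_num) (by norm_num) (by norm_num) (by norm_num))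
    (by norm_num) (by norm_num) (by norm_num) (by norm_num) (by norm_num) (by norm_num) (by norm_num) (by norm_num) (by norm_num) (by norm_num) (by norm_num) (by norm_num) (by norm_num) (by norm_num) (by norm_num) (by norm_num) (by norm_num) (by norm_num)
    (exp_neg_leJ (r := 0.754) 8 (by norm_num) (by norm_num) (by norm_num) (by norm_num))
    (exp_neg_leJ (r := 0.47) 6 (by norm_num) (by norm_num) (by norm_num) (by norm_num))
    (exp_neg_leJ (r := 0.99) 14 (by norm_num) (by norm_num) (by norm_num) (by norm_num))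
    (exp_neg_leJ (r := 0.99) 14 (by norm_num) (by norm_num) (by norm_num) (by norm_num))
    (exp_neg_leJ (r := 0.717) 9 (by norm_num) (by norm_num) (by norm_num) (by norm_num))
    (exp_neg_leJ (r := 0.99) 14 (by norm_num) (by norm_num) (by norm_num) (by norm_num))
    (exp_neg_leJ (r := 0.99) 14 (by norm_num) (by norm_num) (by norm_num) (by norm_num))
    (exp_neg_leJ (r := 0.99) 14 (by norm_num) (by norm_num) (by norm_num) (by norm_num))
    (by norm_num)) (by norm_num) hN hβ.le (by norm_num)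

private theorem JB7_k1b_b7_3 {β x y : ℝ} (hβ : 0 < β) (hN : β * 13.813 ≤ 1) (hx1 : 0.7638 ≤ x) (hx2 : x ≤ 0.8912)
    (hy1 : -0 ≤ y) (hy2 : y ≤ 0.376) : ‖HH β (x + y * I) - 1‖ ≤ 0.035 := by
  refine le_epsJ (C := 0.483) (N0 := 13.813) (J_boxp 0.7638 0.8912 0 0.376 0.376 1.2478 0.9673 1.6394 0.9186 0.5109 3.7166 13.813 0.7753 2.848 1.418 1.0773 0.6238 0.4626 1.2697 3.5682 0.6876 1.5192 1.4856 1.8385 0.0001813 0.001681 0.0000003101 0.0000003101 0.0000751 0.0000003101 0.0000003101 0.0000003101 0.483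
    hβ hN hx1 hx2 hy1 hy2 (by norm_num) (by norm_num) (by linarith) (by norm_num) (by norm_num) (by norm_num) (by norm_num) (by norm_num) (by norm_num) (by norm_num) (by norm_num) (by norm_num) (by norm_num) (by norm_num) (by norm_num) (by norm_num) (by norm_num) (by norm_num) (by norm_num) (by norm_num) (by norm_num) (by norm_num) (by norm_num) (by norm_num)
    (cube_sqrt_geJ (s := 0.8611) (by norm_num) (by norm_num) (by norm_num) (by norm_num))
    (cube_sqrt_geJ (s := 0.9513) (by norm_num) (by norm_num) (by norm_num) (by norm_num))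
    (by norm_num) (by norm_num) (by norm_num) (by norm_num) (by norm_num) (by norm_num) (by norm_num) (by norm_num) (by norm_num) (by norm_num) (by norm_num) (by norm_num) (by norm_num) (by norm_num) (by norm_num) (by norm_num) (by norm_num) (by norm_num)
    (exp_neg_leJ (r := 0.616) 8 (by norm_num) (by norm_num) (by norm_num) (by norm_num))
    (exp_neg_leJ (r := 0.389) 6 (by norm_num) (by norm_num) (by norm_num) (by norm_num))
    (exp_neg_leJ (r := 0.99) 14 (by norm_num) (by norm_num) (by norm_num) (by norm_num))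
    (exp_neg_leJ (r := 0.99) 14 (by norm_num) (by norm_num) (by norm_num) (by norm_num))
    (exp_neg_leJ (r := 0.497) 9 (by norm_num) (by norm_num) (by norm_num) (by norm_num))
    (exp_neg_leJ (r := 0.99) 14 (by norm_num) (by norm_num) (by norm_num) (by norm_num))
    (exp_neg_leJ (r := 0.99) 14 (by norm_num) (by norm_num) (by norm_num) (by norm_num))
    (exp_neg_leJ (r := 0.99) 14 (by norm_num) (by norm_num) (by norm_num) (by norm_num))
    (by norm_num)) (by norm_num) hN hβ.le (by norm_num)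

private theorem JB7_k1b_b7_4 {β x y : ℝ} (hβ : 0 < β) (hN : β * 13.813 ≤ 1) (hx1 : 0.7478 ≤ x) (hx2 : x ≤ 0.8623)
    (hy1 : -0 ≤ y) (hy2 : y ≤ 0.387) : ‖HH β (x + y * I) - 1‖ ≤ 0.035 := by
  refine le_epsJ (C := 0.4745) (N0 := 13.813) (J_boxp 0.7478 0.8623 0 0.387 0.387 1.2366 0.9452 1.6332 0.9294 0.5099 3.7166 13.813 0.7644 2.8 1.411 1.0884 0.6182 0.4607 1.2642 3.5831 0.6787 1.4959 1.4064 1.8147 0.0001958 0.001725 0.0000003101 0.0000003101 0.00008491 0.0000003101 0.0000003101 0.0000003101 0.4745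
    hβ hN hx1 hx2 hy1 hy2 (by norm_num) (by norm_num) (by linarith) (by norm_num) (by norm_num) (by norm_num) (by norm_num) (by norm_num) (by norm_num) (by norm_num) (by norm_num) (by norm_num) (by norm_num) (by norm_num) (by norm_num) (by norm_num) (by norm_num) (by norm_num) (by norm_num) (by norm_num) (by norm_num) (by norm_num) (by norm_num) (by norm_num)
    (cube_sqrt_geJ (s := 0.8632) (by norm_num) (by norm_num) (by norm_num) (by norm_num))
    (cube_sqrt_geJ (s := 0.952) (by norm_num) (by norm_num) (by norm_num) (by norm_num))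
    (by norm_num) (by norm_num) (by norm_num) (by norm_num) (by norm_num) (by norm_num) (by norm_num) (by norm_num) (by norm_num) (by norm_num) (by norm_num) (by norm_num) (by norm_num) (by norm_num) (by norm_num) (by norm_num) (by norm_num) (by norm_num)
    (exp_neg_leJ (r := 0.539) 8 (by norm_num) (by norm_num) (by norm_num) (by norm_num))
    (exp_neg_leJ (r := 0.363) 6 (by norm_num) (by norm_num) (by norm_num) (by norm_num))
    (exp_neg_leJ (r := 0.99) 14 (by norm_num) (by norm_num) (by norm_num) (by norm_num))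
    (exp_neg_leJ (r := 0.99) 14 (by norm_num) (by norm_num) (by norm_num) (by norm_num))
    (exp_neg_leJ (r := 0.374) 9 (by norm_num) (by norm_num) (by norm_num) (by norm_num))
    (exp_neg_leJ (r := 0.99) 14 (by norm_num) (by norm_num) (by norm_num) (by norm_num))
    (exp_neg_leJ (r := 0.99) 14 (by norm_num) (by norm_num) (by norm_num) (by norm_num))
    (exp_neg_leJ (r := 0.99) 14 (by norm_num) (by norm_num) (by norm_num) (by norm_num))
    (by norm_num)) (by norm_num) hN hβ.le (by norm_num)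

theorem JB7_k1b_c7 {κ t β : ℝ} (h : DomR κ t) (hβ : 0 < β) (hk1 : 1.24 ≤ κ) (hk2 : κ ≤ 1.37)
    (ht1 : 0.6 ≤ t + κ) (ht2 : t + κ ≤ 0.95) (hR0 : β * 10 ≤ κ) (hR : β * (6.75 * (1 + κ ^ 2)) ≤ κ) :
    ‖HH β (sg κ t) - 1‖ ≤ 0.035 := by
  have hN : β * 13.813 ≤ 1 := bNC' hβ hk1 (by norm_num) (by norm_num) hR (by norm_num)
  have hy1 : 0.261 ≤ sy κ t := syR_ge h 1.24 1.37 0.6 0.261 1.29822 1.29823 0.24732 0.27326 hk1 hk2 (by linarith) (by norm_num) (by norm_num)
    (expn_ge (by norm_num) (by norm_num)) (expn_le (by norm_num) (by norm_num) (by norm_num)) (by norm_num)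
    (by norm_num) (by norm_num) (by norm_num) (by norm_num) (by norm_num) (by norm_num)
  have hy2 : sy κ t ≤ 0.387 := syR_le h 1.24 1.37 0.95 0.387 1.47255 0.405 0.41596 0.45959 hk1 hk2 (by linarith) (by norm_num) (by norm_num)
    (expn_ge (by norm_num) (by norm_num)) (by norm_num) (by norm_num) (Or.inr ((mul_le_mul_of_nonneg_left (expn_le (E := 1.47256) (by norm_num) (by norm_num) (by norm_num)) (by norm_num)).trans (by norm_num))) (by norm_num) (by norm_num) (by norm_num)
  rcases le_total (sy κ t) 0.301 with f0 | g0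
  · have hx1 : 0.8669 ≤ sx κ t := sx_lo h 1.24 0.301 0.301 0.74007 0.8669 hk1 (by norm_num) f0 (abs_le.2 ⟨by linarith, by linarith⟩) (expm_ge (by norm_num) (by norm_num) (by norm_num) (by norm_num)) (by norm_num) (by norm_num)
    have hx2 : sx κ t ≤ 1.0226 := sx_hi h 1.37 0.261 0.261 0.77029 1.0226 hk2 hy1 (by norm_num) (by rw [abs_of_nonneg (by linarith)]; linarith) (expm_le (by norm_num) (by norm_num) (by norm_num)) (by norm_num) (by norm_num)
    exact JB7_k1b_b7_0 hβ hN hx1 hx2 (by linarith) (by linarith)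
  rcases le_total (sy κ t) 0.331 with f1 | g1
  · have hx1 : 0.8267 ≤ sx κ t := sx_lo h 1.24 0.331 0.331 0.7182 0.8267 hk1 (by norm_num) f1 (abs_le.2 ⟨by linarith, by linarith⟩) (expm_ge (by norm_num) (by norm_num) (by norm_num) (by norm_num)) (by norm_num) (by norm_num)
    have hx2 : sx κ t ≤ 0.9683 := sx_hi h 1.37 0.301 0.301 0.74008 0.9683 hk2 g0 (by norm_num) (by rw [abs_of_nonneg (by linarith)]; linarith) (expm_le (by norm_num) (by norm_num) (by norm_num)) (by norm_num) (by norm_num)
    exact JB7_k1b_b7_1 hβ hN hx1 hx2 (by linarith) (by linarith)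
  rcases le_total (sy κ t) 0.356 with f2 | g2
  · have hx1 : 0.7922 ≤ sx κ t := sx_lo h 1.24 0.356 0.356 0.70047 0.7922 hk1 (by norm_num) f2 (abs_le.2 ⟨by linarith, by linarith⟩) (expm_ge (by norm_num) (by norm_num) (by norm_num) (by norm_num)) (by norm_num) (by norm_num)
    have hx2 : sx κ t ≤ 0.9267 := sx_hi h 1.37 0.331 0.331 0.71821 0.9267 hk2 g1 (by norm_num) (by rw [abs_of_nonneg (by linarith)]; linarith) (expm_le (by norm_num) (by norm_num) (by norm_num)) (by norm_num) (by norm_num)
    exact JB7_k1b_b7_2 hβ hN hx1 hx2 (by linarith) (by linarith)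
  rcases le_total (sy κ t) 0.376 with f3 | g3
  · have hx1 : 0.7638 ≤ sx κ t := sx_lo h 1.24 0.376 0.376 0.6866 0.7638 hk1 (by norm_num) f3 (abs_le.2 ⟨by linarith, by linarith⟩) (expm_ge (by norm_num) (by norm_num) (by norm_num) (by norm_num)) (by norm_num) (by norm_num)
    have hx2 : sx κ t ≤ 0.8912 := sx_hi h 1.37 0.356 0.356 0.70048 0.8912 hk2 g2 (by norm_num) (by rw [abs_of_nonneg (by linarith)]; linarith) (expm_le (by norm_num) (by norm_num) (by norm_num)) (by norm_num) (by norm_num)
    exact JB7_k1b_b7_3 hβ hN hx1 hx2 (by linarith) (by linarith)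
  have hx1 : 0.7478 ≤ sx κ t := sx_lo h 1.24 0.387 0.387 0.67909 0.7478 hk1 (by norm_num) hy2 (abs_le.2 ⟨by linarith, by linarith⟩) (expm_ge (by norm_num) (by norm_num) (by norm_num) (by norm_num)) (by norm_num) (by norm_num)
  have hx2 : sx κ t ≤ 0.8623 := sx_hi h 1.37 0.376 0.376 0.68661 0.8623 hk2 g3 (by norm_num) (by rw [abs_of_nonneg (by linarith)]; linarith) (expm_le (by norm_num) (by norm_num) (by norm_num)) (by norm_num) (by norm_num)
  exact JB7_k1b_b7_4 hβ hN hx1 hx2 (by linarith) (by linarith)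

private theorem JB7_k1b_b8_0 {β x y : ℝ} (hβ : 0 < β) (hN : β * 14.174 ≤ 1) (hx1 : 0.8911 ≤ x) (hx2 : x ≤ 1.0385)
    (hy1 : -0 ≤ y) (hy2 : y ≤ 0.356) : ‖HH β (x + y * I) - 1‖ ≤ 0.035 := by
  refine le_epsJ (C := 0.4951) (N0 := 14.174) (J_boxp 0.8911 1.0385 0 0.356 0.356 1.3375 1.0979 1.708 0.8449 0.5214 3.7649 14.174 0.8209 3.062 1.449 1.0206 0.6687 0.4857 1.3133 3.4876 0.7515 1.6975 1.826 1.8323 0.00007653 0.001027 0.0000003101 0.0000003101 0.0000237 0.0000003101 0.0000003101 0.0000003101 0.4951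
    hβ hN hx1 hx2 hy1 hy2 (by norm_num) (by norm_num) (by linarith) (by norm_num) (by norm_num) (by norm_num) (by norm_num) (by norm_num) (by norm_num) (by norm_num) (by norm_num) (by norm_num) (by norm_num) (by norm_num) (by norm_num) (by norm_num) (by norm_num) (by norm_num) (by norm_num) (by norm_num) (by norm_num) (by norm_num) (by norm_num) (by norm_num)
    (cube_sqrt_geJ (s := 0.8522) (by norm_num) (by norm_num) (by norm_num) (by norm_num))
    (cube_sqrt_geJ (s := 0.9484) (by norm_num) (by norm_num) (by norm_num) (by norm_num))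
    (by norm_num) (by norm_num) (by norm_num) (by norm_num) (by norm_num) (by norm_num) (by norm_num) (by norm_num) (by norm_num) (by norm_num) (by norm_num) (by norm_num) (by norm_num) (by norm_num) (by norm_num) (by norm_num) (by norm_num) (by norm_num)
    (exp_neg_leJ (r := 0.478) 9 (by norm_num) (by norm_num) (by norm_num) (by norm_num))
    (exp_neg_leJ (r := 0.884) 6 (by norm_num) (by norm_num) (by norm_num) (by norm_num))
    (exp_neg_leJ (r := 0.99) 14 (by norm_num) (by norm_num) (by norm_num) (by norm_num))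
    (exp_neg_leJ (r := 0.99) 14 (by norm_num) (by norm_num) (by norm_num) (by norm_num))
    (exp_neg_leJ (r := 0.651) 10 (by norm_num) (by norm_num) (by norm_num) (by norm_num))
    (exp_neg_leJ (r := 0.99) 14 (by norm_num) (by norm_num) (by norm_num) (by norm_num))
    (exp_neg_leJ (r := 0.99) 14 (by norm_num) (by norm_num) (by norm_num) (by norm_num))
    (exp_neg_leJ (r := 0.99) 14 (by norm_num) (by norm_num) (by norm_num) (by norm_num))
    (by norm_num)) (by norm_num) hN hβ.le (by norm_num)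

private theorem JB7_k1b_b8_1 {β x y : ℝ} (hβ : 0 < β) (hN : β * 14.174 ≤ 1) (hx1 : 0.846 ≤ x) (hx2 : x ≤ 0.9063)
    (hy1 : -0 ≤ y) (hy2 : y ≤ 0.387) : ‖HH β (x + y * I) - 1‖ ≤ 0.035 := by
  refine le_epsJ (C := 0.4172) (N0 := 14.174) (J_boxp 0.846 0.9063 0 0.387 0.387 1.3057 0.9855 1.6569 0.8628 0.5136 3.7649 14.174 0.7548 2.758 1.405 1.0715 0.6528 0.4885 1.2978 3.5587 0.7264 1.6319 1.6028 1.9016 0.00009593 0.0009875 0.0000003101 0.0000003101 0.00003381 0.0000003101 0.0000003101 0.0000003101 0.4172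
    hβ hN hx1 hx2 hy1 hy2 (by norm_num) (by norm_num) (by linarith) (by norm_num) (by norm_num) (by norm_num) (by norm_num) (by norm_num) (by norm_num) (by norm_num) (by norm_num) (by norm_num) (by norm_num) (by norm_num) (by norm_num) (by norm_num) (by norm_num) (by norm_num) (by norm_num) (by norm_num) (by norm_num) (by norm_num) (by norm_num) (by norm_num)
    (cube_sqrt_geJ (s := 0.8651) (by norm_num) (by norm_num) (by norm_num) (by norm_num))
    (cube_sqrt_geJ (s := 0.9526) (by norm_num) (by norm_num) (by norm_num) (by norm_num))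
    (by norm_num) (by norm_num) (by norm_num) (by norm_num) (by norm_num) (by norm_num) (by norm_num) (by norm_num) (by norm_num) (by norm_num) (by norm_num) (by norm_num) (by norm_num) (by norm_num) (by norm_num) (by norm_num) (by norm_num) (by norm_num)
    (exp_neg_leJ (r := 0.252) 9 (by norm_num) (by norm_num) (by norm_num) (by norm_num))
    (exp_neg_leJ (r := 0.923) 6 (by norm_num) (by norm_num) (by norm_num) (by norm_num))
    (exp_neg_leJ (r := 0.99) 14 (by norm_num) (by norm_num) (by norm_num) (by norm_num))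
    (exp_neg_leJ (r := 0.99) 14 (by norm_num) (by norm_num) (by norm_num) (by norm_num))
    (exp_neg_leJ (r := 0.295) 10 (by norm_num) (by norm_num) (by norm_num) (by norm_num))
    (exp_neg_leJ (r := 0.99) 14 (by norm_num) (by norm_num) (by norm_num) (by norm_num))
    (exp_neg_leJ (r := 0.99) 14 (by norm_num) (by norm_num) (by norm_num) (by norm_num))
    (exp_neg_leJ (r := 0.99) 14 (by norm_num) (by norm_num) (by norm_num) (by norm_num))
    (by norm_num)) (by norm_num) hN hβ.le (by norm_num)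

theorem JB7_k1b_c8 {κ t β : ℝ} (h : DomR κ t) (hβ : 0 < β) (hk1 : 1.37 ≤ κ) (hk2 : κ ≤ 1.39)
    (ht1 : 0.6 ≤ t + κ) (ht2 : t + κ ≤ 0.95) (hR0 : β * 10 ≤ κ) (hR : β * (6.75 * (1 + κ ^ 2)) ≤ κ) :
    ‖HH β (sg κ t) - 1‖ ≤ 0.035 := by
  have hN : β * 14.174 ≤ 1 := bNC' hβ hk1 (by norm_num) (by norm_num) hR (by norm_num)
  have hy1 : 0.261 ≤ sy κ t := syR_ge h 1.37 1.39 0.6 0.261 1.29822 1.29823 0.24376 0.24733 hk1 hk2 (by linarith) (by norm_num) (by norm_num)
    (expn_ge (by norm_num) (by norm_num)) (expn_le (by norm_num) (by norm_num) (by norm_num)) (by norm_num)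
    (by norm_num) (by norm_num) (by norm_num) (by norm_num) (by norm_num) (by norm_num)
  have hy2 : sy κ t ≤ 0.387 := syR_le h 1.37 1.39 0.95 0.387 1.47255 0.4084 0.40998 0.41598 hk1 hk2 (by linarith) (by norm_num) (by norm_num)
    (expn_ge (by norm_num) (by norm_num)) (by norm_num) (by norm_num) (Or.inr ((mul_le_mul_of_nonneg_left (expn_le (E := 1.47256) (by norm_num) (by norm_num) (by norm_num)) (by norm_num)).trans (by norm_num))) (by norm_num) (by norm_num) (by norm_num)
  rcases le_total (sy κ t) 0.356 with f0 | g0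
  · have hx1 : 0.8911 ≤ sx κ t := sx_lo h 1.37 0.356 0.356 0.70047 0.8911 hk1 (by norm_num) f0 (abs_le.2 ⟨by linarith, by linarith⟩) (expm_ge (by norm_num) (by norm_num) (by norm_num) (by norm_num)) (by norm_num) (by norm_num)
    have hx2 : sx κ t ≤ 1.0385 := sx_hi h 1.39 0.261 0.261 0.77029 1.0385 hk2 hy1 (by norm_num) (by rw [abs_of_nonneg (by linarith)]; linarith) (expm_le (by norm_num) (by norm_num) (by norm_num)) (by norm_num) (by norm_num)
    exact JB7_k1b_b8_0 hβ hN hx1 hx2 (by linarith) (by linarith)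
  have hx1 : 0.846 ≤ sx κ t := sx_lo h 1.37 0.387 0.387 0.67909 0.846 hk1 (by norm_num) hy2 (abs_le.2 ⟨by linarith, by linarith⟩) (expm_ge (by norm_num) (by norm_num) (by norm_num) (by norm_num)) (by norm_num) (by norm_num)
  have hx2 : sx κ t ≤ 0.9063 := sx_hi h 1.39 0.356 0.356 0.70048 0.9063 hk2 g0 (by norm_num) (by rw [abs_of_nonneg (by linarith)]; linarith) (expm_le (by norm_num) (by norm_num) (by norm_num)) (by norm_num) (by norm_num)
  exact JB7_k1b_b8_1 hβ hN hx1 hx2 (by linarith) (by linarith)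
end Sok
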