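import Pool.Agent.Lib.MP_816dec_an.JBG

/-!
MP_816dec_an (A3, row R1): tables b = 7, real points.
-/

set_option autoImplicit false
set_option maxHeartbeats 4000000

open Complex Set

namespace Sok

private theorem JB7_k0a_b0_0 {β x y : ℝ} (hβ : 0 < β) (hN : β * 23.255 ≤ 1) (hx1 : 0.1872 ≤ x) (hx2 : x ≤ 0.5068)
    (hy1 : -0.311 ≤ y) (hy2 : y ≤ -0.296) : ‖HH β (x + y * I) - 1‖ ≤ 0.08 := by
  refine le_epsJ (C := 1.854) (N0 := 23.255) (J_boxp 0.1872 0.5068 0.311 0 (-0.296) 0.621 0.5947 0.8675 1.9033 0.3716 4.8224 23.255 0.9577 3.842 1.548 0.9381 0.3104 0.2113 0.5814 2.8112 0.276 0.7591 1.0997 3.4699 0.0007333 0.007369 0.000001345 0.0000003101 0.001633 0.0000003101 0.0000003101 0.0000003101 1.854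
    hβ hN hx1 hx2 hy1 hy2 (by norm_num) (by norm_num) (by linarith) (by norm_num) (by norm_num) (by norm_num) (by norm_num) (by norm_num) (by norm_num) (by norm_num) (by norm_num) (by norm_num) (by norm_num) (by norm_num) (by norm_num) (by norm_num) (by norm_num) (by norm_num) (by norm_num) (by norm_num) (by norm_num) (by norm_num) (by norm_num) (by norm_num)
    (cube_sqrt_geJ (s := 0.825) (by norm_num) (by norm_num) (by norm_num) (by norm_num))
    (cube_sqrt_geJ (s := 0.9395) (by norm_num) (by norm_num) (by norm_num) (by norm_num))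
    (by norm_num) (by norm_num) (by norm_num) (by norm_num) (by norm_num) (by norm_num) (by norm_num) (by norm_num) (by norm_num) (by norm_num) (by norm_num) (by norm_num) (by norm_num) (by norm_num) (by norm_num) (by norm_num) (by norm_num) (by norm_num)
    (exp_neg_leJ (r := 0.218) 7 (by norm_num) (by norm_num) (by norm_num) (by norm_num))
    (exp_neg_leJ (r := 0.913) 4 (by norm_num) (by norm_num) (by norm_num) (by norm_num))
    (exp_neg_leJ (r := 0.52) 13 (by norm_num) (by norm_num) (by norm_num) (by norm_num))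
    (exp_neg_leJ (r := 0.99) 14 (by norm_num) (by norm_num) (by norm_num) (by norm_num))
    (exp_neg_leJ (r := 0.418) 6 (by norm_num) (by norm_num) (by norm_num) (by norm_num))
    (exp_neg_leJ (r := 0.99) 14 (by norm_num) (by norm_num) (by norm_num) (by norm_num))
    (exp_neg_leJ (r := 0.99) 14 (by norm_num) (by norm_num) (by norm_num) (by norm_num))
    (exp_neg_leJ (r := 0.99) 14 (by norm_num) (by norm_num) (by norm_num) (by norm_num))
    (by norm_num)) (by norm_num) hN hβ.le (by norm_num)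

private theorem JB7_k0a_b0_1 {β x y : ℝ} (hβ : 0 < β) (hN : β * 23.255 ≤ 1) (hx1 : 0.1811 ≤ x) (hx2 : x ≤ 0.5208)
    (hy1 : -0.296 ≤ y) (hy2 : y ≤ -0.251) : ‖HH β (x + y * I) - 1‖ ≤ 0.08 := by
  refine le_epsJ (C := 1.8458) (N0 := 23.255) (J_boxp 0.1811 0.5208 0.296 0 (-0.251) 0.6274 0.5991 0.9123 1.922 0.3811 4.8224 23.255 0.9549 3.824 1.546 0.9465 0.3136 0.2138 0.603 2.8528 0.2812 0.7507 1.1282 3.4457 0.000681 0.006959 0.0000008135 0.0000003101 0.001447 0.0000003101 0.0000003101 0.0000003101 1.8458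
    hβ hN hx1 hx2 hy1 hy2 (by norm_num) (by norm_num) (by linarith) (by norm_num) (by norm_num) (by norm_num) (by norm_num) (by norm_num) (by norm_num) (by norm_num) (by norm_num) (by norm_num) (by norm_num) (by norm_num) (by norm_num) (by norm_num) (by norm_num) (by norm_num) (by norm_num) (by norm_num) (by norm_num) (by norm_num) (by norm_num) (by norm_num)
    (cube_sqrt_geJ (s := 0.8256) (by norm_num) (by norm_num) (by norm_num) (by norm_num))
    (cube_sqrt_geJ (s := 0.9397) (by norm_num) (by norm_num) (by norm_num) (by norm_num))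
    (by norm_num) (by norm_num) (by norm_num) (by norm_num) (by norm_num) (by norm_num) (by norm_num) (by norm_num) (by norm_num) (by norm_num) (by norm_num) (by norm_num) (by norm_num) (by norm_num) (by norm_num) (by norm_num) (by norm_num) (by norm_num)
    (exp_neg_leJ (r := 0.292) 7 (by norm_num) (by norm_num) (by norm_num) (by norm_num))
    (exp_neg_leJ (r := 0.971) 4 (by norm_num) (by norm_num) (by norm_num) (by norm_num))
    (exp_neg_leJ (r := 0.022) 14 (by norm_num) (by norm_num) (by norm_num) (by norm_num))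
    (exp_neg_leJ (r := 0.99) 14 (by norm_num) (by norm_num) (by norm_num) (by norm_num))
    (exp_neg_leJ (r := 0.539) 6 (by norm_num) (by norm_num) (by norm_num) (by norm_num))
    (exp_neg_leJ (r := 0.99) 14 (by norm_num) (by norm_num) (by norm_num) (by norm_num))
    (exp_neg_leJ (r := 0.99) 14 (by norm_num) (by norm_num) (by norm_num) (by norm_num))
    (exp_neg_leJ (r := 0.99) 14 (by norm_num) (by norm_num) (by norm_num) (by norm_num))
    (by norm_num)) (by norm_num) hN hβ.le (by norm_num)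

private theorem JB7_k0a_b0_2 {β x y : ℝ} (hβ : 0 < β) (hN : β * 23.255 ≤ 1) (hx1 : 0.1535 ≤ x) (hx2 : x ≤ 0.546)
    (hy1 : -0.251 ≤ y) (hy2 : y ≤ -0.086) : ‖HH β (x + y * I) - 1‖ ≤ 0.08 := by
  refine le_epsJ (C := 1.8308) (N0 := 23.255) (J_boxp 0.1535 0.546 0.251 0 (-0.086) 0.6399 0.601 1.0647 2.0158 0.4117 4.8224 23.255 0.9393 3.724 1.534 0.9784 0.3199 0.2197 0.6646 2.9858 0.2924 0.7125 1.1954 3.3854 0.000588 0.006043 0.0000003101 0.0000003101 0.001117 0.0000003101 0.0000003101 0.0000003101 1.8308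
    hβ hN hx1 hx2 hy1 hy2 (by norm_num) (by norm_num) (by linarith) (by norm_num) (by norm_num) (by norm_num) (by norm_num) (by norm_num) (by norm_num) (by norm_num) (by norm_num) (by norm_num) (by norm_num) (by norm_num) (by norm_num) (by norm_num) (by norm_num) (by norm_num) (by norm_num) (by norm_num) (by norm_num) (by norm_num) (by norm_num) (by norm_num)
    (cube_sqrt_geJ (s := 0.8287) (by norm_num) (by norm_num) (by norm_num) (by norm_num))
    (cube_sqrt_geJ (s := 0.9407) (by norm_num) (by norm_num) (by norm_num) (by norm_num))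
    (by norm_num) (by norm_num) (by norm_num) (by norm_num) (by norm_num) (by norm_num) (by norm_num) (by norm_num) (by norm_num) (by norm_num) (by norm_num) (by norm_num) (by norm_num) (by norm_num) (by norm_num) (by norm_num) (by norm_num) (by norm_num)
    (exp_neg_leJ (r := 0.439) 7 (by norm_num) (by norm_num) (by norm_num) (by norm_num))
    (exp_neg_leJ (r := 0.109) 5 (by norm_num) (by norm_num) (by norm_num) (by norm_num))
    (exp_neg_leJ (r := 0.99) 14 (by norm_num) (by norm_num) (by norm_num) (by norm_num))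
    (exp_neg_leJ (r := 0.99) 14 (by norm_num) (by norm_num) (by norm_num) (by norm_num))
    (exp_neg_leJ (r := 0.799) 6 (by norm_num) (by norm_num) (by norm_num) (by norm_num))
    (exp_neg_leJ (r := 0.99) 14 (by norm_num) (by norm_num) (by norm_num) (by norm_num))
    (exp_neg_leJ (r := 0.99) 14 (by norm_num) (by norm_num) (by norm_num) (by norm_num))
    (exp_neg_leJ (r := 0.99) 14 (by norm_num) (by norm_num) (by norm_num) (by norm_num))
    (by norm_num)) (by norm_num) hN hβ.le (by norm_num)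

private theorem JB7_k0a_b0_3 {β x y : ℝ} (hβ : 0 < β) (hN : β * 23.255 ≤ 1) (hx1 : 0.2508 ≤ x) (hx2 : x ≤ 0.4687)
    (hy1 : -0.086 ≤ y) (hy2 : y ≤ 0.018) : ‖HH β (x + y * I) - 1‖ ≤ 0.08 := by
  refine le_epsJ (C := 0.3826) (N0 := 23.255) (J_boxp 0.2508 0.4687 0.086 0.018 0.018 0.8255 0.4766 1.1208 1.4116 0.4224 4.8224 23.255 0.5774 2.114 1.293 1.1604 0.4127 0.3333 0.9583 3.561 0.428 0.8454 1.7613 3.8333 0.00006796 0.0004313 0.0000003101 0.0000003101 0.00004773 0.0000003101 0.0000003101 0.0000003101 0.3826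
    hβ hN hx1 hx2 hy1 hy2 (by norm_num) (by norm_num) (by linarith) (by norm_num) (by norm_num) (by norm_num) (by norm_num) (by norm_num) (by norm_num) (by norm_num) (by norm_num) (by norm_num) (by norm_num) (by norm_num) (by norm_num) (by norm_num) (by norm_num) (by norm_num) (by norm_num) (by norm_num) (by norm_num) (by norm_num) (by norm_num) (by norm_num)
    (cube_sqrt_geJ (s := 0.8986) (by norm_num) (by norm_num) (by norm_num) (by norm_num))
    (cube_sqrt_geJ (s := 0.964) (by norm_num) (by norm_num) (by norm_num) (by norm_num))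
    (by norm_num) (by norm_num) (by norm_num) (by norm_num) (by norm_num) (by norm_num) (by norm_num) (by norm_num) (by norm_num) (by norm_num) (by norm_num) (by norm_num) (by norm_num) (by norm_num) (by norm_num) (by norm_num) (by norm_num) (by norm_num)
    (exp_neg_leJ (r := 0.597) 9 (by norm_num) (by norm_num) (by norm_num) (by norm_num))
    (exp_neg_leJ (r := 0.75) 7 (by norm_num) (by norm_num) (by norm_num) (by norm_num))
    (exp_neg_leJ (r := 0.99) 14 (by norm_num) (by norm_num) (by norm_num) (by norm_num))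
    (exp_neg_leJ (r := 0.99) 14 (by norm_num) (by norm_num) (by norm_num) (by norm_num))
    (exp_neg_leJ (r := 0.953) 9 (by norm_num) (by norm_num) (by norm_num) (by norm_num))
    (exp_neg_leJ (r := 0.99) 14 (by norm_num) (by norm_num) (by norm_num) (by norm_num))
    (exp_neg_leJ (r := 0.99) 14 (by norm_num) (by norm_num) (by norm_num) (by norm_num))
    (exp_neg_leJ (r := 0.99) 14 (by norm_num) (by norm_num) (by norm_num) (by norm_num))
    (by norm_num)) (by norm_num) hN hβ.le (by norm_num)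

theorem JB7_k0a_c0 {κ t β : ℝ} (h : DomR κ t) (hβ : 0 < β) (hk1 : 0.27 ≤ κ) (hk2 : κ ≤ 0.43)
    (ht1 : -0.62 ≤ t + κ) (ht2 : t + κ ≤ 0.05) (hR0 : β * 10 ≤ κ) (hR : β * (6.75 * (1 + κ ^ 2)) ≤ κ) :
    ‖HH β (sg κ t) - 1‖ ≤ 0.08 := by
  have hN : β * 23.255 ≤ 1 := bNR hβ h.1 hk2 hR0 (by norm_num)
  have hy1 : -0.311 ≤ sy κ t := syL_ge2 h 0.27 0.43 0.62 0.311 0.73271 0.73272 0.5299 0.52993 0.84399 hk1 hk2 (by linarith) (by norm_num) (by norm_num) (by norm_num)
    (expm_ge (by norm_num) (by norm_num) (by norm_num) (by norm_num)) (expm_le (by norm_num) (by norm_num) (by norm_num)) (by norm_num)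
    (by norm_num) (by norm_num) (by norm_num) (by norm_num) (by norm_num) (by norm_num)
  have hy2 : sy κ t ≤ 0.018 := syR_le h 0.27 0.43 0.05 0.018 1.01816 0.0384 0.04262 0.06788 hk1 hk2 (by linarith) (by norm_num) (by norm_num)
    (expn_ge (by norm_num) (by norm_num)) (by norm_num) (by norm_num) (Or.inr ((mul_le_mul_of_nonneg_left (expn_le (E := 1.01817) (by norm_num) (by norm_num) (by norm_num)) (by norm_num)).trans (by norm_num))) (by norm_num) (by norm_num) (by norm_num)
  rcases le_total (sy κ t) (-0.296) with f0 | g0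
  · have hx1 : 0.1872 ≤ sx κ t := sx_lo h 0.27 (-0.296) 0.311 1.34447 0.1872 hk1 (by norm_num) f0 (abs_le.2 ⟨by linarith, by linarith⟩) (by rw [neg_neg]; exact expn_ge (by norm_num) (by norm_num)) (by norm_num) (by norm_num)
    have hx2 : sx κ t ≤ 0.5068 := sx_hi h 0.43 (-0.311) 0.296 1.36479 0.5068 hk2 hy1 (by norm_num) (by rw [abs_of_nonpos (by linarith)]; linarith) (by rw [neg_neg]; exact expn_le (by norm_num) (by norm_num) (by norm_num)) (by norm_num) (by norm_num)
    exact JB7_k0a_b0_0 hβ hN hx1 hx2 (by linarith) (by linarith)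
  rcases le_total (sy κ t) (-0.251) with f1 | g1
  · have hx1 : 0.1811 ≤ sx κ t := sx_lo h 0.27 (-0.251) 0.296 1.28531 0.1811 hk1 (by norm_num) f1 (abs_le.2 ⟨by linarith, by linarith⟩) (by rw [neg_neg]; exact expn_ge (by norm_num) (by norm_num)) (by norm_num) (by norm_num)
    have hx2 : sx κ t ≤ 0.5208 := sx_hi h 0.43 (-0.296) 0.251 1.34448 0.5208 hk2 g0 (by norm_num) (by rw [abs_of_nonpos (by linarith)]; linarith) (by rw [neg_neg]; exact expn_le (by norm_num) (by norm_num) (by norm_num)) (by norm_num) (by norm_num)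
    exact JB7_k0a_b0_1 hβ hN hx1 hx2 (by linarith) (by linarith)
  rcases le_total (sy κ t) (-0.086) with f2 | g2
  · have hx1 : 0.1535 ≤ sx κ t := sx_lo h 0.27 (-0.086) 0.251 1.0898 0.1535 hk1 (by norm_num) f2 (abs_le.2 ⟨by linarith, by linarith⟩) (by rw [neg_neg]; exact expn_ge (by norm_num) (by norm_num)) (by norm_num) (by norm_num)
    have hx2 : sx κ t ≤ 0.546 := sx_hi h 0.43 (-0.251) 0.086 1.28532 0.546 hk2 g1 (by norm_num) (by rw [abs_of_nonpos (by linarith)]; linarith) (by rw [neg_neg]; exact expn_le (by norm_num) (by norm_num) (by norm_num)) (by norm_num) (by norm_num)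
    exact JB7_k0a_b0_2 hβ hN hx1 hx2 (by linarith) (by linarith)
  have hx1 : 0.2508 ≤ sx κ t := sx_lo h 0.27 0.018 0.086 0.98216 0.2508 hk1 (by norm_num) hy2 (abs_le.2 ⟨by linarith, by linarith⟩) (expm_ge (by norm_num) (by norm_num) (by norm_num) (by norm_num)) (by norm_num) (by norm_num)
  have hx2 : sx κ t ≤ 0.4687 := sx_hi h 0.43 (-0.086) 0 1.08981 0.4687 hk2 g2 (by norm_num) (abs_nonneg _) (by rw [neg_neg]; exact expn_le (by norm_num) (by norm_num) (by norm_num)) (by norm_num) (by norm_num)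
  exact JB7_k0a_b0_3 hβ hN hx1 hx2 (by linarith) (by linarith)

private theorem JB7_k0a_b1_0 {β x y : ℝ} (hβ : 0 < β) (hN : β * 18.181 ≤ 1) (hx1 : 0.4926 ≤ x) (hx2 : x ≤ 0.706)
    (hy1 : -0.359 ≤ y) (hy2 : y ≤ -0.349) : ‖HH β (x + y * I) - 1‖ ≤ 0.08 := by
  refine le_epsJ (C := 1.4189) (N0 := 18.181) (J_boxp 0.4926 0.706 0.359 0 (-0.349) 0.802 0.7921 0.9604 1.3645 0.391 4.264 18.181 0.9877 4.046 1.571 0.8171 0.4009 0.2689 0.6102 2.5459 0.3981 1.182 1.58 3.5441 0.0006838 0.007554 0.00001521 0.0000003101 0.0007195 0.0000003101 0.0000003101 0.0000003101 1.4189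
    hβ hN hx1 hx2 hy1 hy2 (by norm_num) (by norm_num) (by linarith) (by norm_num) (by norm_num) (by norm_num) (by norm_num) (by norm_num) (by norm_num) (by norm_num) (by norm_num) (by norm_num) (by norm_num) (by norm_num) (by norm_num) (by norm_num) (by norm_num) (by norm_num) (by norm_num) (by norm_num) (by norm_num) (by norm_num) (by norm_num) (by norm_num)
    (cube_sqrt_geJ (s := 0.819) (by norm_num) (by norm_num) (by norm_num) (by norm_num))
    (cube_sqrt_geJ (s := 0.9375) (by norm_num) (by norm_num) (by norm_num) (by norm_num))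
    (by norm_num) (by norm_num) (by norm_num) (by norm_num) (by norm_num) (by norm_num) (by norm_num) (by norm_num) (by norm_num) (by norm_num) (by norm_num) (by norm_num) (by norm_num) (by norm_num) (by norm_num) (by norm_num) (by norm_num) (by norm_num)
    (exp_neg_leJ (r := 0.288) 7 (by norm_num) (by norm_num) (by norm_num) (by norm_num))
    (exp_neg_leJ (r := 0.888) 4 (by norm_num) (by norm_num) (by norm_num) (by norm_num))
    (exp_neg_leJ (r := 0.094) 11 (by norm_num) (by norm_num) (by norm_num) (by norm_num))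
    (exp_neg_leJ (r := 0.99) 14 (by norm_num) (by norm_num) (by norm_num) (by norm_num))
    (exp_neg_leJ (r := 0.237) 7 (by norm_num) (by norm_num) (by norm_num) (by norm_num))
    (exp_neg_leJ (r := 0.99) 14 (by norm_num) (by norm_num) (by norm_num) (by norm_num))
    (exp_neg_leJ (r := 0.99) 14 (by norm_num) (by norm_num) (by norm_num) (by norm_num))
    (exp_neg_leJ (r := 0.99) 14 (by norm_num) (by norm_num) (by norm_num) (by norm_num))
    (by norm_num)) (by norm_num) hN hβ.le (by norm_num)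

private theorem JB7_k0a_b1_1 {β x y : ℝ} (hβ : 0 < β) (hN : β * 18.181 ≤ 1) (hx1 : 0.4813 ≤ x) (hx2 : x ≤ 0.7093)
    (hy1 : -0.349 ≤ y) (hy2 : y ≤ -0.324) : ‖HH β (x + y * I) - 1‖ ≤ 0.08 := by
  refine le_epsJ (C := 1.433) (N0 := 18.181) (J_boxp 0.4813 0.7093 0.349 0 (-0.324) 0.8011 0.7906 0.9799 1.3806 0.395 4.264 18.181 0.9869 4.041 1.57 0.8251 0.4005 0.2687 0.6221 2.5767 0.3981 1.1664 1.5846 3.5256 0.0006886 0.007576 0.00001226 0.0000003101 0.0007195 0.0000003101 0.0000003101 0.0000003101 1.433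
    hβ hN hx1 hx2 hy1 hy2 (by norm_num) (by norm_num) (by linarith) (by norm_num) (by norm_num) (by norm_num) (by norm_num) (by norm_num) (by norm_num) (by norm_num) (by norm_num) (by norm_num) (by norm_num) (by norm_num) (by norm_num) (by norm_num) (by norm_num) (by norm_num) (by norm_num) (by norm_num) (by norm_num) (by norm_num) (by norm_num) (by norm_num)
    (cube_sqrt_geJ (s := 0.8191) (by norm_num) (by norm_num) (by norm_num) (by norm_num))
    (cube_sqrt_geJ (s := 0.9376) (by norm_num) (by norm_num) (by norm_num) (by norm_num))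
    (by norm_num) (by norm_num) (by norm_num) (by norm_num) (by norm_num) (by norm_num) (by norm_num) (by norm_num) (by norm_num) (by norm_num) (by norm_num) (by norm_num) (by norm_num) (by norm_num) (by norm_num) (by norm_num) (by norm_num) (by norm_num)
    (exp_neg_leJ (r := 0.281) 7 (by norm_num) (by norm_num) (by norm_num) (by norm_num))
    (exp_neg_leJ (r := 0.885) 4 (by norm_num) (by norm_num) (by norm_num) (by norm_num))
    (exp_neg_leJ (r := 0.31) 11 (by norm_num) (by norm_num) (by norm_num) (by norm_num))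
    (exp_neg_leJ (r := 0.99) 14 (by norm_num) (by norm_num) (by norm_num) (by norm_num))
    (exp_neg_leJ (r := 0.237) 7 (by norm_num) (by norm_num) (by norm_num) (by norm_num))
    (exp_neg_leJ (r := 0.99) 14 (by norm_num) (by norm_num) (by norm_num) (by norm_num))
    (exp_neg_leJ (r := 0.99) 14 (by norm_num) (by norm_num) (by norm_num) (by norm_num))
    (exp_neg_leJ (r := 0.99) 14 (by norm_num) (by norm_num) (by norm_num) (by norm_num))
    (by norm_num)) (by norm_num) hN hβ.le (by norm_num)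

private theorem JB7_k0a_b1_2 {β x y : ℝ} (hβ : 0 < β) (hN : β * 18.181 ≤ 1) (hx1 : 0.4566 ≤ x) (hx2 : x ≤ 0.7132)
    (hy1 : -0.324 ≤ y) (hy2 : y ≤ -0.264) : ‖HH β (x + y * I) - 1‖ ≤ 0.08 := by
  refine le_epsJ (C := 1.4265) (N0 := 18.181) (J_boxp 0.4566 0.7132 0.324 0 (-0.264) 0.8015 0.7834 1.0249 1.4109 0.4039 4.264 18.181 0.9775 3.976 1.563 0.8467 0.4007 0.2701 0.6531 2.6559 0.3998 1.1322 1.6031 3.4957 0.0006858 0.007391 0.000006984 0.0000003101 0.0006976 0.0000003101 0.0000003101 0.0000003101 1.4265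
    hβ hN hx1 hx2 hy1 hy2 (by norm_num) (by norm_num) (by linarith) (by norm_num) (by norm_num) (by norm_num) (by norm_num) (by norm_num) (by norm_num) (by norm_num) (by norm_num) (by norm_num) (by norm_num) (by norm_num) (by norm_num) (by norm_num) (by norm_num) (by norm_num) (by norm_num) (by norm_num) (by norm_num) (by norm_num) (by norm_num) (by norm_num)
    (cube_sqrt_geJ (s := 0.821) (by norm_num) (by norm_num) (by norm_num) (by norm_num))
    (cube_sqrt_geJ (s := 0.9382) (by norm_num) (by norm_num) (by norm_num) (by norm_num))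
    (by norm_num) (by norm_num) (by norm_num) (by norm_num) (by norm_num) (by norm_num) (by norm_num) (by norm_num) (by norm_num) (by norm_num) (by norm_num) (by norm_num) (by norm_num) (by norm_num) (by norm_num) (by norm_num) (by norm_num) (by norm_num)
    (exp_neg_leJ (r := 0.285) 7 (by norm_num) (by norm_num) (by norm_num) (by norm_num))
    (exp_neg_leJ (r := 0.91) 4 (by norm_num) (by norm_num) (by norm_num) (by norm_num))
    (exp_neg_leJ (r := 0.874) 11 (by norm_num) (by norm_num) (by norm_num) (by norm_num))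
    (exp_neg_leJ (r := 0.99) 14 (by norm_num) (by norm_num) (by norm_num) (by norm_num))
    (exp_neg_leJ (r := 0.268) 7 (by norm_num) (by norm_num) (by norm_num) (by norm_num))
    (exp_neg_leJ (r := 0.99) 14 (by norm_num) (by norm_num) (by norm_num) (by norm_num))
    (exp_neg_leJ (r := 0.99) 14 (by norm_num) (by norm_num) (by norm_num) (by norm_num))
    (exp_neg_leJ (r := 0.99) 14 (by norm_num) (by norm_num) (by norm_num) (by norm_num))
    (by norm_num)) (by norm_num) hN hβ.le (by norm_num)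

private theorem JB7_k0a_b1_3 {β x y : ℝ} (hβ : 0 < β) (hN : β * 18.181 ≤ 1) (hx1 : 0.386 ≤ x) (hx2 : x ≤ 0.7113)
    (hy1 : -0.264 ≤ y) (hy2 : y ≤ -0.084) : ‖HH β (x + y * I) - 1‖ ≤ 0.08 := by
  refine le_epsJ (C := 1.4517) (N0 := 18.181) (J_boxp 0.386 0.7113 0.264 0 (-0.084) 0.7944 0.7588 1.1598 1.5211 0.4297 4.264 18.181 0.9552 3.826 1.546 0.9028 0.3971 0.2707 0.7237 2.8514 0.3982 1.0344 1.625 3.4214 0.0007326 0.007311 0.000001932 0.0000003101 0.0007181 0.0000003101 0.0000003101 0.0000003101 1.4517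
    hβ hN hx1 hx2 hy1 hy2 (by norm_num) (by norm_num) (by linarith) (by norm_num) (by norm_num) (by norm_num) (by norm_num) (by norm_num) (by norm_num) (by norm_num) (by norm_num) (by norm_num) (by norm_num) (by norm_num) (by norm_num) (by norm_num) (by norm_num) (by norm_num) (by norm_num) (by norm_num) (by norm_num) (by norm_num) (by norm_num) (by norm_num)
    (cube_sqrt_geJ (s := 0.8255) (by norm_num) (by norm_num) (by norm_num) (by norm_num))
    (cube_sqrt_geJ (s := 0.9397) (by norm_num) (by norm_num) (by norm_num) (by norm_num))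
    (by norm_num) (by norm_num) (by norm_num) (by norm_num) (by norm_num) (by norm_num) (by norm_num) (by norm_num) (by norm_num) (by norm_num) (by norm_num) (by norm_num) (by norm_num) (by norm_num) (by norm_num) (by norm_num) (by norm_num) (by norm_num)
    (exp_neg_leJ (r := 0.219) 7 (by norm_num) (by norm_num) (by norm_num) (by norm_num))
    (exp_neg_leJ (r := 0.921) 4 (by norm_num) (by norm_num) (by norm_num) (by norm_num))
    (exp_neg_leJ (r := 0.157) 13 (by norm_num) (by norm_num) (by norm_num) (by norm_num))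
    (exp_neg_leJ (r := 0.99) 14 (by norm_num) (by norm_num) (by norm_num) (by norm_num))
    (exp_neg_leJ (r := 0.239) 7 (by norm_num) (by norm_num) (by norm_num) (by norm_num))
    (exp_neg_leJ (r := 0.99) 14 (by norm_num) (by norm_num) (by norm_num) (by norm_num))
    (exp_neg_leJ (r := 0.99) 14 (by norm_num) (by norm_num) (by norm_num) (by norm_num))
    (exp_neg_leJ (r := 0.99) 14 (by norm_num) (by norm_num) (by norm_num) (by norm_num))
    (by norm_num)) (by norm_num) hN hβ.le (by norm_num)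

private theorem JB7_k0a_b1_4 {β x y : ℝ} (hβ : 0 < β) (hN : β * 18.181 ≤ 1) (hx1 : 0.4125 ≤ x) (hx2 : x ≤ 0.5982)
    (hy1 : -0.084 ≤ y) (hy2 : y ≤ 0.021) : ‖HH β (x + y * I) - 1‖ ≤ 0.08 := by
  refine le_epsJ (C := 0.4164) (N0 := 18.181) (J_boxp 0.4125 0.5982 0.084 0.021 0.021 0.9408 0.6041 1.1834 1.1922 0.434 4.264 18.181 0.6422 2.324 1.333 1.1125 0.4703 0.3697 1.0168 3.493 0.5073 1.069 2.0772 3.796 0.0001936 0.001207 0.0000003101 0.0000003101 0.00009875 0.0000003101 0.0000003101 0.0000003101 0.4164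
    hβ hN hx1 hx2 hy1 hy2 (by norm_num) (by norm_num) (by linarith) (by norm_num) (by norm_num) (by norm_num) (by norm_num) (by norm_num) (by norm_num) (by norm_num) (by norm_num) (by norm_num) (by norm_num) (by norm_num) (by norm_num) (by norm_num) (by norm_num) (by norm_num) (by norm_num) (by norm_num) (by norm_num) (by norm_num) (by norm_num) (by norm_num)
    (cube_sqrt_geJ (s := 0.8865) (by norm_num) (by norm_num) (by norm_num) (by norm_num))
    (cube_sqrt_geJ (s := 0.9598) (by norm_num) (by norm_num) (by norm_num) (by norm_num))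
    (by norm_num) (by norm_num) (by norm_num) (by norm_num) (by norm_num) (by norm_num) (by norm_num) (by norm_num) (by norm_num) (by norm_num) (by norm_num) (by norm_num) (by norm_num) (by norm_num) (by norm_num) (by norm_num) (by norm_num) (by norm_num)
    (exp_neg_leJ (r := 0.55) 8 (by norm_num) (by norm_num) (by norm_num) (by norm_num))
    (exp_neg_leJ (r := 0.721) 6 (by norm_num) (by norm_num) (by norm_num) (by norm_num))
    (exp_neg_leJ (r := 0.99) 14 (by norm_num) (by norm_num) (by norm_num) (by norm_num))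
    (exp_neg_leJ (r := 0.99) 14 (by norm_num) (by norm_num) (by norm_num) (by norm_num))
    (exp_neg_leJ (r := 0.223) 9 (by norm_num) (by norm_num) (by norm_num) (by norm_num))
    (exp_neg_leJ (r := 0.99) 14 (by norm_num) (by norm_num) (by norm_num) (by norm_num))
    (exp_neg_leJ (r := 0.99) 14 (by norm_num) (by norm_num) (by norm_num) (by norm_num))
    (exp_neg_leJ (r := 0.99) 14 (by norm_num) (by norm_num) (by norm_num) (by norm_num))
    (by norm_num)) (by norm_num) hN hβ.le (by norm_num)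

theorem JB7_k0a_c1 {κ t β : ℝ} (h : DomR κ t) (hβ : 0 < β) (hk1 : 0.43 ≤ κ) (hk2 : κ ≤ 0.55)
    (ht1 : -0.62 ≤ t + κ) (ht2 : t + κ ≤ 0.05) (hR0 : β * 10 ≤ κ) (hR : β * (6.75 * (1 + κ ^ 2)) ≤ κ) :
    ‖HH β (sg κ t) - 1‖ ≤ 0.08 := by
  have hN : β * 18.181 ≤ 1 := bNR hβ h.1 hk2 hR0 (by norm_num)
  have hy1 : -0.359 ≤ sy κ t := syL_ge h 0.43 0.55 0.62 0.359 0.69837 0.69838 0.4452 0.45584 0.58307 hk1 hk2 (by linarith) (by norm_num) (by norm_num) (by norm_num)
    (expm_ge (by norm_num) (by norm_num) (by norm_num) (by norm_num)) (expm_le (by norm_num) (by norm_num) (by norm_num)) (by norm_num)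
    (by norm_num) (by norm_num) (by norm_num) (by norm_num) (by norm_num) (by norm_num)
  have hy2 : sy κ t ≤ 0.021 := syR_le h 0.43 0.55 0.05 0.021 1.02122 0.0362 0.03899 0.04988 hk1 hk2 (by linarith) (by norm_num) (by norm_num)
    (expn_ge (by norm_num) (by norm_num)) (by norm_num) (by norm_num) (Or.inr ((mul_le_mul_of_nonneg_left (expn_le (E := 1.02123) (by norm_num) (by norm_num) (by norm_num)) (by norm_num)).trans (by norm_num))) (by norm_num) (by norm_num) (by norm_num)
  rcases le_total (sy κ t) (-0.349) with f0 | g0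
  · have hx1 : 0.4926 ≤ sx κ t := sx_lo h 0.43 (-0.349) 0.359 1.41764 0.4926 hk1 (by norm_num) f0 (abs_le.2 ⟨by linarith, by linarith⟩) (by rw [neg_neg]; exact expn_ge (by norm_num) (by norm_num)) (by norm_num) (by norm_num)
    have hx2 : sx κ t ≤ 0.706 := sx_hi h 0.55 (-0.359) 0.349 1.4319 0.706 hk2 hy1 (by norm_num) (by rw [abs_of_nonpos (by linarith)]; linarith) (by rw [neg_neg]; exact expn_le (by norm_num) (by norm_num) (by norm_num)) (by norm_num) (by norm_num)
    exact JB7_k0a_b1_0 hβ hN hx1 hx2 (by linarith) (by linarith)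
  rcases le_total (sy κ t) (-0.324) with f1 | g1
  · have hx1 : 0.4813 ≤ sx κ t := sx_lo h 0.43 (-0.324) 0.349 1.38264 0.4813 hk1 (by norm_num) f1 (abs_le.2 ⟨by linarith, by linarith⟩) (by rw [neg_neg]; exact expn_ge (by norm_num) (by norm_num)) (by norm_num) (by norm_num)
    have hx2 : sx κ t ≤ 0.7093 := sx_hi h 0.55 (-0.349) 0.324 1.41765 0.7093 hk2 g0 (by norm_num) (by rw [abs_of_nonpos (by linarith)]; linarith) (by rw [neg_neg]; exact expn_le (by norm_num) (by norm_num) (by norm_num)) (by norm_num) (by norm_num)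
    exact JB7_k0a_b1_1 hβ hN hx1 hx2 (by linarith) (by linarith)
  rcases le_total (sy κ t) (-0.264) with f2 | g2
  · have hx1 : 0.4566 ≤ sx κ t := sx_lo h 0.43 (-0.264) 0.324 1.30212 0.4566 hk1 (by norm_num) f2 (abs_le.2 ⟨by linarith, by linarith⟩) (by rw [neg_neg]; exact expn_ge (by norm_num) (by norm_num)) (by norm_num) (by norm_num)
    have hx2 : sx κ t ≤ 0.7132 := sx_hi h 0.55 (-0.324) 0.264 1.38265 0.7132 hk2 g1 (by norm_num) (by rw [abs_of_nonpos (by linarith)]; linarith) (by rw [neg_neg]; exact expn_le (by norm_num) (by norm_num) (by norm_num)) (by norm_num) (by norm_num)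
    exact JB7_k0a_b1_2 hβ hN hx1 hx2 (by linarith) (by linarith)
  rcases le_total (sy κ t) (-0.084) with f3 | g3
  · have hx1 : 0.386 ≤ sx κ t := sx_lo h 0.43 (-0.084) 0.264 1.08762 0.386 hk1 (by norm_num) f3 (abs_le.2 ⟨by linarith, by linarith⟩) (by rw [neg_neg]; exact expn_ge (by norm_num) (by norm_num)) (by norm_num) (by norm_num)
    have hx2 : sx κ t ≤ 0.7113 := sx_hi h 0.55 (-0.264) 0.084 1.30213 0.7113 hk2 g2 (by norm_num) (by rw [abs_of_nonpos (by linarith)]; linarith) (by rw [neg_neg]; exact expn_le (by norm_num) (by norm_num) (by norm_num)) (by norm_num) (by norm_num)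
    exact JB7_k0a_b1_3 hβ hN hx1 hx2 (by linarith) (by linarith)
  have hx1 : 0.4125 ≤ sx κ t := sx_lo h 0.43 0.021 0.084 0.97921 0.4125 hk1 (by norm_num) hy2 (abs_le.2 ⟨by linarith, by linarith⟩) (expm_ge (by norm_num) (by norm_num) (by norm_num) (by norm_num)) (by norm_num) (by norm_num)
  have hx2 : sx κ t ≤ 0.5982 := sx_hi h 0.55 (-0.084) 0 1.08763 0.5982 hk2 g3 (by norm_num) (abs_nonneg _) (by rw [neg_neg]; exact expn_le (by norm_num) (by norm_num) (by norm_num)) (by norm_num) (by norm_num)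
  exact JB7_k0a_b1_4 hβ hN hx1 hx2 (by linarith) (by linarith)

private theorem JB7_k0a_b2_0 {β x y : ℝ} (hβ : 0 < β) (hN : β * 15.624 ≤ 1) (hx1 : 0.6923 ≤ x) (hx2 : x ≤ 0.8571)
    (hy1 : -0.372 ≤ y) (hy2 : y ≤ -0.357) : ‖HH β (x + y * I) - 1‖ ≤ 0.08 := by
  refine le_epsJ (C := 1.2348) (N0 := 15.624) (J_boxp 0.6923 0.8571 0.372 0 (-0.357) 0.9333 0.9344 1.0715 1.1481 0.413 3.9528 15.624 1.0012 4.143 1.581 0.747 0.4666 0.3109 0.658 2.4201 0.488 1.4585 1.944 3.5567 0.0006824 0.007789 0.00003432 0.0000003101 0.0004889 0.0000003101 0.0000003101 0.0000003101 1.2348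
    hβ hN hx1 hx2 hy1 hy2 (by norm_num) (by norm_num) (by linarith) (by norm_num) (by norm_num) (by norm_num) (by norm_num) (by norm_num) (by norm_num) (by norm_num) (by norm_num) (by norm_num) (by norm_num) (by norm_num) (by norm_num) (by norm_num) (by norm_num) (by norm_num) (by norm_num) (by norm_num) (by norm_num) (by norm_num) (by norm_num) (by norm_num)
    (cube_sqrt_geJ (s := 0.8162) (by norm_num) (by norm_num) (by norm_num) (by norm_num))
    (cube_sqrt_geJ (s := 0.9367) (by norm_num) (by norm_num) (by norm_num) (by norm_num))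
    (by norm_num) (by norm_num) (by norm_num) (by norm_num) (by norm_num) (by norm_num) (by norm_num) (by norm_num) (by norm_num) (by norm_num) (by norm_num) (by norm_num) (by norm_num) (by norm_num) (by norm_num) (by norm_num) (by norm_num) (by norm_num)
    (exp_neg_leJ (r := 0.29) 7 (by norm_num) (by norm_num) (by norm_num) (by norm_num))
    (exp_neg_leJ (r := 0.857) 4 (by norm_num) (by norm_num) (by norm_num) (by norm_num))
    (exp_neg_leJ (r := 0.28) 10 (by norm_num) (by norm_num) (by norm_num) (by norm_num))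
    (exp_neg_leJ (r := 0.99) 14 (by norm_num) (by norm_num) (by norm_num) (by norm_num))
    (exp_neg_leJ (r := 0.624) 7 (by norm_num) (by norm_num) (by norm_num) (by norm_num))
    (exp_neg_leJ (r := 0.99) 14 (by norm_num) (by norm_num) (by norm_num) (by norm_num))
    (exp_neg_leJ (r := 0.99) 14 (by norm_num) (by norm_num) (by norm_num) (by norm_num))
    (exp_neg_leJ (r := 0.99) 14 (by norm_num) (by norm_num) (by norm_num) (by norm_num))
    (by norm_num)) (by norm_num) hN hβ.le (by norm_num)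

private theorem JB7_k0a_b2_1 {β x y : ℝ} (hβ : 0 < β) (hN : β * 15.624 ≤ 1) (hx1 : 0.674 ≤ x) (hx2 : x ≤ 0.8542)
    (hy1 : -0.357 ≤ y) (hy2 : y ≤ -0.327) : ‖HH β (x + y * I) - 1‖ ≤ 0.08 := by
  refine le_epsJ (C := 1.2269) (N0 := 15.624) (J_boxp 0.674 0.8542 0.357 0 (-0.327) 0.9311 0.9259 1.0875 1.1608 0.4161 3.9528 15.624 0.9945 4.095 1.576 0.762 0.4655 0.3112 0.6754 2.4704 0.4873 1.4332 1.9482 3.5432 0.0006948 0.007751 0.00002615 0.0000003101 0.0004943 0.0000003101 0.0000003101 0.0000003101 1.2269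
    hβ hN hx1 hx2 hy1 hy2 (by norm_num) (by norm_num) (by linarith) (by norm_num) (by norm_num) (by norm_num) (by norm_num) (by norm_num) (by norm_num) (by norm_num) (by norm_num) (by norm_num) (by norm_num) (by norm_num) (by norm_num) (by norm_num) (by norm_num) (by norm_num) (by norm_num) (by norm_num) (by norm_num) (by norm_num) (by norm_num) (by norm_num)
    (cube_sqrt_geJ (s := 0.8176) (by norm_num) (by norm_num) (by norm_num) (by norm_num))
    (cube_sqrt_geJ (s := 0.9371) (by norm_num) (by norm_num) (by norm_num) (by norm_num))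
    (by norm_num) (by norm_num) (by norm_num) (by norm_num) (by norm_num) (by norm_num) (by norm_num) (by norm_num) (by norm_num) (by norm_num) (by norm_num) (by norm_num) (by norm_num) (by norm_num) (by norm_num) (by norm_num) (by norm_num) (by norm_num)
    (exp_neg_leJ (r := 0.272) 7 (by norm_num) (by norm_num) (by norm_num) (by norm_num))
    (exp_neg_leJ (r := 0.862) 4 (by norm_num) (by norm_num) (by norm_num) (by norm_num))
    (exp_neg_leJ (r := 0.552) 10 (by norm_num) (by norm_num) (by norm_num) (by norm_num))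
    (exp_neg_leJ (r := 0.99) 14 (by norm_num) (by norm_num) (by norm_num) (by norm_num))
    (exp_neg_leJ (r := 0.613) 7 (by norm_num) (by norm_num) (by norm_num) (by norm_num))
    (exp_neg_leJ (r := 0.99) 14 (by norm_num) (by norm_num) (by norm_num) (by norm_num))
    (exp_neg_leJ (r := 0.99) 14 (by norm_num) (by norm_num) (by norm_num) (by norm_num))
    (exp_neg_leJ (r := 0.99) 14 (by norm_num) (by norm_num) (by norm_num) (by norm_num))
    (by norm_num)) (by norm_num) hN hβ.le (by norm_num)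

private theorem JB7_k0a_b2_2 {β x y : ℝ} (hβ : 0 < β) (hN : β * 15.624 ≤ 1) (hx1 : 0.6315 ≤ x) (hx2 : x ≤ 0.8496)
    (hy1 : -0.327 ≤ y) (hy2 : y ≤ -0.257) : ‖HH β (x + y * I) - 1‖ ≤ 0.08 := by
  refine le_epsJ (C := 1.2462) (N0 := 15.624) (J_boxp 0.6315 0.8496 0.327 0 (-0.257) 0.9225 0.9104 1.1287 1.1991 0.4239 3.9528 15.624 0.9869 4.041 1.57 0.7915 0.4612 0.3095 0.7082 2.5701 0.4831 1.3743 1.9448 3.5003 0.0007429 0.007961 0.00001567 0.0000003101 0.0005279 0.0000003101 0.0000003101 0.0000003101 1.2462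
    hβ hN hx1 hx2 hy1 hy2 (by norm_num) (by norm_num) (by linarith) (by norm_num) (by norm_num) (by norm_num) (by norm_num) (by norm_num) (by norm_num) (by norm_num) (by norm_num) (by norm_num) (by norm_num) (by norm_num) (by norm_num) (by norm_num) (by norm_num) (by norm_num) (by norm_num) (by norm_num) (by norm_num) (by norm_num) (by norm_num) (by norm_num)
    (cube_sqrt_geJ (s := 0.8191) (by norm_num) (by norm_num) (by norm_num) (by norm_num))
    (cube_sqrt_geJ (s := 0.9376) (by norm_num) (by norm_num) (by norm_num) (by norm_num))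
    (by norm_num) (by norm_num) (by norm_num) (by norm_num) (by norm_num) (by norm_num) (by norm_num) (by norm_num) (by norm_num) (by norm_num) (by norm_num) (by norm_num) (by norm_num) (by norm_num) (by norm_num) (by norm_num) (by norm_num) (by norm_num)
    (exp_neg_leJ (r := 0.205) 7 (by norm_num) (by norm_num) (by norm_num) (by norm_num))
    (exp_neg_leJ (r := 0.835) 4 (by norm_num) (by norm_num) (by norm_num) (by norm_num))
    (exp_neg_leJ (r := 0.064) 11 (by norm_num) (by norm_num) (by norm_num) (by norm_num))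
    (exp_neg_leJ (r := 0.99) 14 (by norm_num) (by norm_num) (by norm_num) (by norm_num))
    (exp_neg_leJ (r := 0.547) 7 (by norm_num) (by norm_num) (by norm_num) (by norm_num))
    (exp_neg_leJ (r := 0.99) 14 (by norm_num) (by norm_num) (by norm_num) (by norm_num))
    (exp_neg_leJ (r := 0.99) 14 (by norm_num) (by norm_num) (by norm_num) (by norm_num))
    (exp_neg_leJ (r := 0.99) 14 (by norm_num) (by norm_num) (by norm_num) (by norm_num))
    (by norm_num)) (by norm_num) hN hβ.le (by norm_num)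

private theorem JB7_k0a_b2_3 {β x y : ℝ} (hβ : 0 < β) (hN : β * 15.624 ≤ 1) (hx1 : 0.5355 ≤ x) (hx2 : x ≤ 0.824)
    (hy1 : -0.257 ≤ y) (hy2 : y ≤ -0.077) : ‖HH β (x + y * I) - 1‖ ≤ 0.08 := by
  refine le_epsJ (C := 1.2396) (N0 := 15.624) (J_boxp 0.5355 0.824 0.257 0 (-0.077) 0.9046 0.8632 1.2373 1.2929 0.4438 3.9528 15.624 0.9543 3.82 1.545 0.8659 0.4522 0.3084 0.7859 2.8105 0.4747 1.2414 1.943 3.4366 0.0008546 0.008096 0.000004654 0.0000003101 0.0006017 0.0000003101 0.0000003101 0.0000003101 1.2396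
    hβ hN hx1 hx2 hy1 hy2 (by norm_num) (by norm_num) (by linarith) (by norm_num) (by norm_num) (by norm_num) (by norm_num) (by norm_num) (by norm_num) (by norm_num) (by norm_num) (by norm_num) (by norm_num) (by norm_num) (by norm_num) (by norm_num) (by norm_num) (by norm_num) (by norm_num) (by norm_num) (by norm_num) (by norm_num) (by norm_num) (by norm_num)
    (cube_sqrt_geJ (s := 0.8257) (by norm_num) (by norm_num) (by norm_num) (by norm_num))
    (cube_sqrt_geJ (s := 0.9397) (by norm_num) (by norm_num) (by norm_num) (by norm_num))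
    (by norm_num) (by norm_num) (by norm_num) (by norm_num) (by norm_num) (by norm_num) (by norm_num) (by norm_num) (by norm_num) (by norm_num) (by norm_num) (by norm_num) (by norm_num) (by norm_num) (by norm_num) (by norm_num) (by norm_num) (by norm_num)
    (exp_neg_leJ (r := 0.065) 7 (by norm_num) (by norm_num) (by norm_num) (by norm_num))
    (exp_neg_leJ (r := 0.818) 4 (by norm_num) (by norm_num) (by norm_num) (by norm_num))
    (exp_neg_leJ (r := 0.278) 12 (by norm_num) (by norm_num) (by norm_num) (by norm_num))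
    (exp_neg_leJ (r := 0.99) 14 (by norm_num) (by norm_num) (by norm_num) (by norm_num))
    (exp_neg_leJ (r := 0.416) 7 (by norm_num) (by norm_num) (by norm_num) (by norm_num))
    (exp_neg_leJ (r := 0.99) 14 (by norm_num) (by norm_num) (by norm_num) (by norm_num))
    (exp_neg_leJ (r := 0.99) 14 (by norm_num) (by norm_num) (by norm_num) (by norm_num))
    (exp_neg_leJ (r := 0.99) 14 (by norm_num) (by norm_num) (by norm_num) (by norm_num))
    (by norm_num)) (by norm_num) hN hβ.le (by norm_num)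

private theorem JB7_k0a_b2_4 {β x y : ℝ} (hβ : 0 < β) (hN : β * 15.624 ≤ 1) (hx1 : 0.5319 ≤ x) (hx2 : x ≤ 0.6913)
    (hy1 : -0.077 ≤ y) (hy2 : y ≤ 0.023) : ‖HH β (x + y * I) - 1‖ ≤ 0.08 := by
  refine le_epsJ (C := 0.4237) (N0 := 15.624) (J_boxp 0.5319 0.6913 0.077 0.023 0.023 1.0299 0.6956 1.2347 1.0632 0.4433 3.9528 15.624 0.6755 2.443 1.353 1.0831 0.5149 0.399 1.0688 3.4616 0.5689 1.2341 2.3265 3.7766 0.0003211 0.001964 0.0000003101 0.0000003101 0.0001384 0.0000003101 0.0000003101 0.0000003101 0.4237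
    hβ hN hx1 hx2 hy1 hy2 (by norm_num) (by norm_num) (by linarith) (by norm_num) (by norm_num) (by norm_num) (by norm_num) (by norm_num) (by norm_num) (by norm_num) (by norm_num) (by norm_num) (by norm_num) (by norm_num) (by norm_num) (by norm_num) (by norm_num) (by norm_num) (by norm_num) (by norm_num) (by norm_num) (by norm_num) (by norm_num) (by norm_num)
    (cube_sqrt_geJ (s := 0.8802) (by norm_num) (by norm_num) (by norm_num) (by norm_num))
    (cube_sqrt_geJ (s := 0.9577) (by norm_num) (by norm_num) (by norm_num) (by norm_num))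
    (by norm_num) (by norm_num) (by norm_num) (by norm_num) (by norm_num) (by norm_num) (by norm_num) (by norm_num) (by norm_num) (by norm_num) (by norm_num) (by norm_num) (by norm_num) (by norm_num) (by norm_num) (by norm_num) (by norm_num) (by norm_num)
    (exp_neg_leJ (r := 0.044) 8 (by norm_num) (by norm_num) (by norm_num) (by norm_num))
    (exp_neg_leJ (r := 0.233) 6 (by norm_num) (by norm_num) (by norm_num) (by norm_num))
    (exp_neg_leJ (r := 0.99) 14 (by norm_num) (by norm_num) (by norm_num) (by norm_num))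
    (exp_neg_leJ (r := 0.99) 14 (by norm_num) (by norm_num) (by norm_num) (by norm_num))
    (exp_neg_leJ (r := 0.888) 8 (by norm_num) (by norm_num) (by norm_num) (by norm_num))
    (exp_neg_leJ (r := 0.99) 14 (by norm_num) (by norm_num) (by norm_num) (by norm_num))
    (exp_neg_leJ (r := 0.99) 14 (by norm_num) (by norm_num) (by norm_num) (by norm_num))
    (exp_neg_leJ (r := 0.99) 14 (by norm_num) (by norm_num) (by norm_num) (by norm_num))
    (by norm_num)) (by norm_num) hN hβ.le (by norm_num)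

theorem JB7_k0a_c2 {κ t β : ℝ} (h : DomR κ t) (hβ : 0 < β) (hk1 : 0.55 ≤ κ) (hk2 : κ ≤ 0.64)
    (ht1 : -0.62 ≤ t + κ) (ht2 : t + κ ≤ 0.05) (hR0 : β * 10 ≤ κ) (hR : β * (6.75 * (1 + κ ^ 2)) ≤ κ) :
    ‖HH β (sg κ t) - 1‖ ≤ 0.08 := by
  have hN : β * 15.624 ≤ 1 := bNR hβ h.1 hk2 hR0 (by norm_num)
  have hy1 : -0.372 ≤ sy κ t := syL_ge h 0.55 0.64 0.62 0.372 0.68935 0.68936 0.3897 0.40068 0.46626 hk1 hk2 (by linarith) (by norm_num) (by norm_num) (by norm_num)
    (expm_ge (by norm_num) (by norm_num) (by norm_num) (by norm_num)) (expm_le (by norm_num) (by norm_num) (by norm_num)) (by norm_num)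
    (by norm_num) (by norm_num) (by norm_num) (by norm_num) (by norm_num) (by norm_num)
  have hy2 : sy κ t ≤ 0.023 := syR_le h 0.55 0.64 0.05 0.023 1.02326 0.0352 0.03677 0.0428 hk1 hk2 (by linarith) (by norm_num) (by norm_num)
    (expn_ge (by norm_num) (by norm_num)) (by norm_num) (by norm_num) (Or.inr ((mul_le_mul_of_nonneg_left (expn_le (E := 1.02327) (by norm_num) (by norm_num) (by norm_num)) (by norm_num)).trans (by norm_num))) (by norm_num) (by norm_num) (by norm_num)
  rcases le_total (sy κ t) (-0.357) with f0 | g0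
  · have hx1 : 0.6923 ≤ sx κ t := sx_lo h 0.55 (-0.357) 0.372 1.42903 0.6923 hk1 (by norm_num) f0 (abs_le.2 ⟨by linarith, by linarith⟩) (by rw [neg_neg]; exact expn_ge (by norm_num) (by norm_num)) (by norm_num) (by norm_num)
    have hx2 : sx κ t ≤ 0.8571 := sx_hi h 0.64 (-0.372) 0.357 1.45064 0.8571 hk2 hy1 (by norm_num) (by rw [abs_of_nonpos (by linarith)]; linarith) (by rw [neg_neg]; exact expn_le (by norm_num) (by norm_num) (by norm_num)) (by norm_num) (by norm_num)
    exact JB7_k0a_b2_0 hβ hN hx1 hx2 (by linarith) (by linarith)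
  rcases le_total (sy κ t) (-0.327) with f1 | g1
  · have hx1 : 0.674 ≤ sx κ t := sx_lo h 0.55 (-0.327) 0.357 1.3868 0.674 hk1 (by norm_num) f1 (abs_le.2 ⟨by linarith, by linarith⟩) (by rw [neg_neg]; exact expn_ge (by norm_num) (by norm_num)) (by norm_num) (by norm_num)
    have hx2 : sx κ t ≤ 0.8542 := sx_hi h 0.64 (-0.357) 0.327 1.42904 0.8542 hk2 g0 (by norm_num) (by rw [abs_of_nonpos (by linarith)]; linarith) (by rw [neg_neg]; exact expn_le (by norm_num) (by norm_num) (by norm_num)) (by norm_num) (by norm_num)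
    exact JB7_k0a_b2_1 hβ hN hx1 hx2 (by linarith) (by linarith)
  rcases le_total (sy κ t) (-0.257) with f2 | g2
  · have hx1 : 0.6315 ≤ sx κ t := sx_lo h 0.55 (-0.257) 0.327 1.29304 0.6315 hk1 (by norm_num) f2 (abs_le.2 ⟨by linarith, by linarith⟩) (by rw [neg_neg]; exact expn_ge (by norm_num) (by norm_num)) (by norm_num) (by norm_num)
    have hx2 : sx κ t ≤ 0.8496 := sx_hi h 0.64 (-0.327) 0.257 1.38681 0.8496 hk2 g1 (by norm_num) (by rw [abs_of_nonpos (by linarith)]; linarith) (by rw [neg_neg]; exact expn_le (by norm_num) (by norm_num) (by norm_num)) (by norm_num) (by norm_num)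
    exact JB7_k0a_b2_2 hβ hN hx1 hx2 (by linarith) (by linarith)
  rcases le_total (sy κ t) (-0.077) with f3 | g3
  · have hx1 : 0.5355 ≤ sx κ t := sx_lo h 0.55 (-0.077) 0.257 1.08004 0.5355 hk1 (by norm_num) f3 (abs_le.2 ⟨by linarith, by linarith⟩) (by rw [neg_neg]; exact expn_ge (by norm_num) (by norm_num)) (by norm_num) (by norm_num)
    have hx2 : sx κ t ≤ 0.824 := sx_hi h 0.64 (-0.257) 0.077 1.29305 0.824 hk2 g2 (by norm_num) (by rw [abs_of_nonpos (by linarith)]; linarith) (by rw [neg_neg]; exact expn_le (by norm_num) (by norm_num) (by norm_num)) (by norm_num) (by norm_num)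
    exact JB7_k0a_b2_3 hβ hN hx1 hx2 (by linarith) (by linarith)
  have hx1 : 0.5319 ≤ sx κ t := sx_lo h 0.55 0.023 0.077 0.97726 0.5319 hk1 (by norm_num) hy2 (abs_le.2 ⟨by linarith, by linarith⟩) (expm_ge (by norm_num) (by norm_num) (by norm_num) (by norm_num)) (by norm_num) (by norm_num)
  have hx2 : sx κ t ≤ 0.6913 := sx_hi h 0.64 (-0.077) 0 1.08005 0.6913 hk2 g3 (by norm_num) (abs_nonneg _) (by rw [neg_neg]; exact expn_le (by norm_num) (by norm_num) (by norm_num)) (by norm_num) (by norm_num)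
  exact JB7_k0a_b2_4 hβ hN hx1 hx2 (by linarith) (by linarith)

private theorem JB7_k0a_b3_0 {β x y : ℝ} (hβ : 0 < β) (hN : β * 14.234 ≤ 1) (hx1 : 0.8416 ≤ x) (hx2 : x ≤ 0.9813)
    (hy1 : -0.374 ≤ y) (hy2 : y ≤ -0.364) : ‖HH β (x + y * I) - 1‖ ≤ 0.08 := by
  refine le_epsJ (C := 1.1293) (N0 := 14.234) (J_boxp 0.8416 0.9813 0.374 0 (-0.364) 1.0371 1.0502 1.1694 1.0239 0.4315 3.7728 14.234 1.0127 4.227 1.59 0.6974 0.5185 0.3435 0.706 2.3443 0.5594 1.6652 2.2372 3.5405 0.0006237 0.007546 0.00004323 0.0000003101 0.0003496 0.0000003101 0.0000003101 0.0000003101 1.1293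
    hβ hN hx1 hx2 hy1 hy2 (by norm_num) (by norm_num) (by linarith) (by norm_num) (by norm_num) (by norm_num) (by norm_num) (by norm_num) (by norm_num) (by norm_num) (by norm_num) (by norm_num) (by norm_num) (by norm_num) (by norm_num) (by norm_num) (by norm_num) (by norm_num) (by norm_num) (by norm_num) (by norm_num) (by norm_num) (by norm_num) (by norm_num)
    (cube_sqrt_geJ (s := 0.8139) (by norm_num) (by norm_num) (by norm_num) (by norm_num))
    (cube_sqrt_geJ (s := 0.9359) (by norm_num) (by norm_num) (by norm_num) (by norm_num))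
    (by norm_num) (by norm_num) (by norm_num) (by norm_num) (by norm_num) (by norm_num) (by norm_num) (by norm_num) (by norm_num) (by norm_num) (by norm_num) (by norm_num) (by norm_num) (by norm_num) (by norm_num) (by norm_num) (by norm_num) (by norm_num)
    (exp_neg_leJ (r := 0.38) 7 (by norm_num) (by norm_num) (by norm_num) (by norm_num))
    (exp_neg_leJ (r := 0.889) 4 (by norm_num) (by norm_num) (by norm_num) (by norm_num))
    (exp_neg_leJ (r := 0.049) 10 (by norm_num) (by norm_num) (by norm_num) (by norm_num))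
    (exp_neg_leJ (r := 0.99) 14 (by norm_num) (by norm_num) (by norm_num) (by norm_num))
    (exp_neg_leJ (r := 0.962) 7 (by norm_num) (by norm_num) (by norm_num) (by norm_num))
    (exp_neg_leJ (r := 0.99) 14 (by norm_num) (by norm_num) (by norm_num) (by norm_num))
    (exp_neg_leJ (r := 0.99) 14 (by norm_num) (by norm_num) (by norm_num) (by norm_num))
    (exp_neg_leJ (r := 0.99) 14 (by norm_num) (by norm_num) (by norm_num) (by norm_num))
    (by norm_num)) (by norm_num) hN hβ.le (by norm_num)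

private theorem JB7_k0a_b3_1 {β x y : ℝ} (hβ : 0 < β) (hN : β * 14.234 ≤ 1) (hx1 : 0.8261 ≤ x) (hx2 : x ≤ 0.9774)
    (hy1 : -0.364 ≤ y) (hy2 : y ≤ -0.344) : ‖HH β (x + y * I) - 1‖ ≤ 0.08 := by
  refine le_epsJ (C := 1.1314) (N0 := 14.234) (J_boxp 0.8261 0.9774 0.364 0 (-0.344) 1.0332 1.043 1.1772 1.0332 0.4329 3.7728 14.234 1.0095 4.204 1.587 0.7081 0.5165 0.3427 0.7165 2.3788 0.5574 1.6438 2.2334 3.5291 0.000642 0.007636 0.00003725 0.0000003101 0.0003594 0.0000003101 0.0000003101 0.0000003101 1.1314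
    hβ hN hx1 hx2 hy1 hy2 (by norm_num) (by norm_num) (by linarith) (by norm_num) (by norm_num) (by norm_num) (by norm_num) (by norm_num) (by norm_num) (by norm_num) (by norm_num) (by norm_num) (by norm_num) (by norm_num) (by norm_num) (by norm_num) (by norm_num) (by norm_num) (by norm_num) (by norm_num) (by norm_num) (by norm_num) (by norm_num) (by norm_num)
    (cube_sqrt_geJ (s := 0.8145) (by norm_num) (by norm_num) (by norm_num) (by norm_num))
    (cube_sqrt_geJ (s := 0.9361) (by norm_num) (by norm_num) (by norm_num) (by norm_num))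
    (by norm_num) (by norm_num) (by norm_num) (by norm_num) (by norm_num) (by norm_num) (by norm_num) (by norm_num) (by norm_num) (by norm_num) (by norm_num) (by norm_num) (by norm_num) (by norm_num) (by norm_num) (by norm_num) (by norm_num) (by norm_num)
    (exp_neg_leJ (r := 0.351) 7 (by norm_num) (by norm_num) (by norm_num) (by norm_num))
    (exp_neg_leJ (r := 0.877) 4 (by norm_num) (by norm_num) (by norm_num) (by norm_num))
    (exp_neg_leJ (r := 0.198) 10 (by norm_num) (by norm_num) (by norm_num) (by norm_num))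
    (exp_neg_leJ (r := 0.99) 14 (by norm_num) (by norm_num) (by norm_num) (by norm_num))
    (exp_neg_leJ (r := 0.934) 7 (by norm_num) (by norm_num) (by norm_num) (by norm_num))
    (exp_neg_leJ (r := 0.99) 14 (by norm_num) (by norm_num) (by norm_num) (by norm_num))
    (exp_neg_leJ (r := 0.99) 14 (by norm_num) (by norm_num) (by norm_num) (by norm_num))
    (exp_neg_leJ (r := 0.99) 14 (by norm_num) (by norm_num) (by norm_num) (by norm_num))
    (by norm_num)) (by norm_num) hN hβ.le (by norm_num)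

private theorem JB7_k0a_b3_2 {β x y : ℝ} (hβ : 0 < β) (hN : β * 14.234 ≤ 1) (hx1 : 0.7962 ≤ x) (hx2 : x ≤ 0.9691)
    (hy1 : -0.344 ≤ y) (hy2 : y ≤ -0.304) : ‖HH β (x + y * I) - 1‖ ≤ 0.08 := by
  refine le_epsJ (C := 1.1301) (N0 := 14.234) (J_boxp 0.7962 0.9691 0.344 0 (-0.304) 1.0264 1.0284 1.1932 1.0505 0.4358 3.7728 14.234 1.002 4.149 1.582 0.7298 0.5131 0.3417 0.7378 2.4481 0.5538 1.6024 2.228 3.509 0.0006736 0.007743 0.00002752 0.0000003101 0.0003783 0.0000003101 0.0000003101 0.0000003101 1.1301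
    hβ hN hx1 hx2 hy1 hy2 (by norm_num) (by norm_num) (by linarith) (by norm_num) (by norm_num) (by norm_num) (by norm_num) (by norm_num) (by norm_num) (by norm_num) (by norm_num) (by norm_num) (by norm_num) (by norm_num) (by norm_num) (by norm_num) (by norm_num) (by norm_num) (by norm_num) (by norm_num) (by norm_num) (by norm_num) (by norm_num) (by norm_num)
    (cube_sqrt_geJ (s := 0.816) (by norm_num) (by norm_num) (by norm_num) (by norm_num))
    (cube_sqrt_geJ (s := 0.9366) (by norm_num) (by norm_num) (by norm_num) (by norm_num))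
    (by norm_num) (by norm_num) (by norm_num) (by norm_num) (by norm_num) (by norm_num) (by norm_num) (by norm_num) (by norm_num) (by norm_num) (by norm_num) (by norm_num) (by norm_num) (by norm_num) (by norm_num) (by norm_num) (by norm_num) (by norm_num)
    (exp_neg_leJ (r := 0.303) 7 (by norm_num) (by norm_num) (by norm_num) (by norm_num))
    (exp_neg_leJ (r := 0.863) 4 (by norm_num) (by norm_num) (by norm_num) (by norm_num))
    (exp_neg_leJ (r := 0.501) 10 (by norm_num) (by norm_num) (by norm_num) (by norm_num))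
    (exp_neg_leJ (r := 0.99) 14 (by norm_num) (by norm_num) (by norm_num) (by norm_num))
    (exp_neg_leJ (r := 0.882) 7 (by norm_num) (by norm_num) (by norm_num) (by norm_num))
    (exp_neg_leJ (r := 0.99) 14 (by norm_num) (by norm_num) (by norm_num) (by norm_num))
    (exp_neg_leJ (r := 0.99) 14 (by norm_num) (by norm_num) (by norm_num) (by norm_num))
    (exp_neg_leJ (r := 0.99) 14 (by norm_num) (by norm_num) (by norm_num) (by norm_num))
    (by norm_num)) (by norm_num) hN hβ.le (by norm_num)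

private theorem JB7_k0a_b3_3 {β x y : ℝ} (hβ : 0 < β) (hN : β * 14.234 ≤ 1) (hx1 : 0.7364 ≤ x) (hx2 : x ≤ 0.951)
    (hy1 : -0.304 ≤ y) (hy2 : y ≤ -0.219) : ‖HH β (x + y * I) - 1‖ ≤ 0.08 := by
  refine le_epsJ (C := 1.1268) (N0 := 14.234) (J_boxp 0.7364 0.951 0.304 0 (-0.219) 1.0127 0.9985 1.2306 1.0886 0.4426 3.7728 14.234 0.986 4.035 1.569 0.7737 0.5063 0.3399 0.7805 2.5873 0.5466 1.5196 2.2171 3.4706 0.0007422 0.007937 0.00001498 0.0000003101 0.0004186 0.0000003101 0.0000003101 0.0000003101 1.1268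
    hβ hN hx1 hx2 hy1 hy2 (by norm_num) (by norm_num) (by linarith) (by norm_num) (by norm_num) (by norm_num) (by norm_num) (by norm_num) (by norm_num) (by norm_num) (by norm_num) (by norm_num) (by norm_num) (by norm_num) (by norm_num) (by norm_num) (by norm_num) (by norm_num) (by norm_num) (by norm_num) (by norm_num) (by norm_num) (by norm_num) (by norm_num)
    (cube_sqrt_geJ (s := 0.8193) (by norm_num) (by norm_num) (by norm_num) (by norm_num))
    (cube_sqrt_geJ (s := 0.9376) (by norm_num) (by norm_num) (by norm_num) (by norm_num))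
    (by norm_num) (by norm_num) (by norm_num) (by norm_num) (by norm_num) (by norm_num) (by norm_num) (by norm_num) (by norm_num) (by norm_num) (by norm_num) (by norm_num) (by norm_num) (by norm_num) (by norm_num) (by norm_num) (by norm_num) (by norm_num)
    (exp_neg_leJ (r := 0.206) 7 (by norm_num) (by norm_num) (by norm_num) (by norm_num))
    (exp_neg_leJ (r := 0.838) 4 (by norm_num) (by norm_num) (by norm_num) (by norm_num))
    (exp_neg_leJ (r := 0.109) 11 (by norm_num) (by norm_num) (by norm_num) (by norm_num))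
    (exp_neg_leJ (r := 0.99) 14 (by norm_num) (by norm_num) (by norm_num) (by norm_num))
    (exp_neg_leJ (r := 0.78) 7 (by norm_num) (by norm_num) (by norm_num) (by norm_num))
    (exp_neg_leJ (r := 0.99) 14 (by norm_num) (by norm_num) (by norm_num) (by norm_num))
    (exp_neg_leJ (r := 0.99) 14 (by norm_num) (by norm_num) (by norm_num) (by norm_num))
    (exp_neg_leJ (r := 0.99) 14 (by norm_num) (by norm_num) (by norm_num) (by norm_num))
    (by norm_num)) (by norm_num) hN hβ.le (by norm_num)

private theorem JB7_k0a_b3_4 {β x y : ℝ} (hβ : 0 < β) (hN : β * 14.234 ≤ 1) (hx1 : 0.6013 ≤ x) (hx2 : x ≤ 0.8963)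
    (hy1 : -0.219 ≤ y) (hy2 : y ≤ 0) : ‖HH β (x + y * I) - 1‖ ≤ 0.08 := by
  refine le_epsJ (C := 1.1224) (N0 := 14.234) (J_boxp 0.6013 0.8963 0.219 0 0 0.9779 0.9227 1.3429 1.1984 0.4624 3.7728 14.234 0.9436 3.751 1.537 0.8732 0.4889 0.3351 0.8684 2.8914 0.5274 1.3325 2.1779 3.4065 0.000953 0.0085 0.000004287 0.0000003101 0.0005494 0.0000003101 0.0000003101 0.0000003101 1.1224
    hβ hN hx1 hx2 hy1 hy2 (by norm_num) (by norm_num) (by linarith) (by norm_num) (by norm_num) (by norm_num) (by norm_num) (by norm_num) (by norm_num) (by norm_num) (by norm_num) (by norm_num) (by norm_num) (by norm_num) (by norm_num) (by norm_num) (by norm_num) (by norm_num) (by norm_num) (by norm_num) (by norm_num) (by norm_num) (by norm_num) (by norm_num)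
    (cube_sqrt_geJ (s := 0.8279) (by norm_num) (by norm_num) (by norm_num) (by norm_num))
    (cube_sqrt_geJ (s := 0.9404) (by norm_num) (by norm_num) (by norm_num) (by norm_num))
    (by norm_num) (by norm_num) (by norm_num) (by norm_num) (by norm_num) (by norm_num) (by norm_num) (by norm_num) (by norm_num) (by norm_num) (by norm_num) (by norm_num) (by norm_num) (by norm_num) (by norm_num) (by norm_num) (by norm_num) (by norm_num)
    (exp_neg_leJ (r := 0.959) 6 (by norm_num) (by norm_num) (by norm_num) (by norm_num))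
    (exp_neg_leJ (r := 0.769) 4 (by norm_num) (by norm_num) (by norm_num) (by norm_num))
    (exp_neg_leJ (r := 0.36) 12 (by norm_num) (by norm_num) (by norm_num) (by norm_num))
    (exp_neg_leJ (r := 0.99) 14 (by norm_num) (by norm_num) (by norm_num) (by norm_num))
    (exp_neg_leJ (r := 0.507) 7 (by norm_num) (by norm_num) (by norm_num) (by norm_num))
    (exp_neg_leJ (r := 0.99) 14 (by norm_num) (by norm_num) (by norm_num) (by norm_num))
    (exp_neg_leJ (r := 0.99) 14 (by norm_num) (by norm_num) (by norm_num) (by norm_num))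
    (exp_neg_leJ (r := 0.99) 14 (by norm_num) (by norm_num) (by norm_num) (by norm_num))
    (by norm_num)) (by norm_num) hN hβ.le (by norm_num)

private theorem JB7_k0a_b3_5 {β x y : ℝ} (hβ : 0 < β) (hN : β * 14.234 ≤ 1) (hx1 : 0.6243 ≤ x) (hx2 : x ≤ 0.7201)
    (hy1 : -0 ≤ y) (hy2 : y ≤ 0.024) : ‖HH β (x + y * I) - 1‖ ≤ 0.08 := by
  refine le_epsJ (C := 0.3069) (N0 := 14.234) (J_boxp 0.6243 0.7201 0 0.024 0.024 1.1496 0.7205 1.2519 0.9078 0.4464 3.7728 14.234 0.6268 2.272 1.323 1.1431 0.5747 0.4547 1.2219 3.6876 0.6558 1.3619 2.7163 3.889 0.0002803 0.001547 0.0000003101 0.0000003101 0.00008838 0.0000003101 0.0000003101 0.0000003101 0.3069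
    hβ hN hx1 hx2 hy1 hy2 (by norm_num) (by norm_num) (by linarith) (by norm_num) (by norm_num) (by norm_num) (by norm_num) (by norm_num) (by norm_num) (by norm_num) (by norm_num) (by norm_num) (by norm_num) (by norm_num) (by norm_num) (by norm_num) (by norm_num) (by norm_num) (by norm_num) (by norm_num) (by norm_num) (by norm_num) (by norm_num) (by norm_num)
    (cube_sqrt_geJ (s := 0.8894) (by norm_num) (by norm_num) (by norm_num) (by norm_num))
    (cube_sqrt_geJ (s := 0.9608) (by norm_num) (by norm_num) (by norm_num) (by norm_num))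
    (by norm_num) (by norm_num) (by norm_num) (by norm_num) (by norm_num) (by norm_num) (by norm_num) (by norm_num) (by norm_num) (by norm_num) (by norm_num) (by norm_num) (by norm_num) (by norm_num) (by norm_num) (by norm_num) (by norm_num) (by norm_num)
    (exp_neg_leJ (r := 0.18) 8 (by norm_num) (by norm_num) (by norm_num) (by norm_num))
    (exp_neg_leJ (r := 0.472) 6 (by norm_num) (by norm_num) (by norm_num) (by norm_num))
    (exp_neg_leJ (r := 0.99) 14 (by norm_num) (by norm_num) (by norm_num) (by norm_num))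
    (exp_neg_leJ (r := 0.99) 14 (by norm_num) (by norm_num) (by norm_num) (by norm_num))
    (exp_neg_leJ (r := 0.334) 9 (by norm_num) (by norm_num) (by norm_num) (by norm_num))
    (exp_neg_leJ (r := 0.99) 14 (by norm_num) (by norm_num) (by norm_num) (by norm_num))
    (exp_neg_leJ (r := 0.99) 14 (by norm_num) (by norm_num) (by norm_num) (by norm_num))
    (exp_neg_leJ (r := 0.99) 14 (by norm_num) (by norm_num) (by norm_num) (by norm_num))
    (by norm_num)) (by norm_num) hN hβ.le (by norm_num)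

theorem JB7_k0a_c3 {κ t β : ℝ} (h : DomR κ t) (hβ : 0 < β) (hk1 : 0.64 ≤ κ) (hk2 : κ ≤ 0.72)
    (ht1 : -0.62 ≤ t + κ) (ht2 : t + κ ≤ 0.05) (hR0 : β * 10 ≤ κ) (hR : β * (6.75 * (1 + κ ^ 2)) ≤ κ) :
    ‖HH β (sg κ t) - 1‖ ≤ 0.08 := by
  have hN : β * 14.234 ≤ 1 := bNC hβ h.1 hk2 (by norm_num) (by norm_num) hR (by norm_num)
  have hy1 : -0.374 ≤ sy κ t := syL_ge h 0.64 0.72 0.62 0.374 0.68797 0.68798 0.3648 0.35736 0.40204 hk1 hk2 (by linarith) (by norm_num) (by norm_num) (by norm_num)
    (expm_ge (by norm_num) (by norm_num) (by norm_num) (by norm_num)) (expm_le (by norm_num) (by norm_num) (by norm_num)) (by norm_num)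
    (by norm_num) (by norm_num) (by norm_num) (by norm_num) (by norm_num) (by norm_num)
  have hy2 : sy κ t ≤ 0.024 := syR_le h 0.64 0.72 0.05 0.024 1.02429 0.033 0.03414 0.03842 hk1 hk2 (by linarith) (by norm_num) (by norm_num)
    (expn_ge (by norm_num) (by norm_num)) (by norm_num) (by norm_num) (Or.inr ((mul_le_mul_of_nonneg_left (expn_le (E := 1.0243) (by norm_num) (by norm_num) (by norm_num)) (by norm_num)).trans (by norm_num))) (by norm_num) (by norm_num) (by norm_num)
  rcases le_total (sy κ t) (-0.364) with f0 | g0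
  · have hx1 : 0.8416 ≤ sx κ t := sx_lo h 0.64 (-0.364) 0.374 1.43907 0.8416 hk1 (by norm_num) f0 (abs_le.2 ⟨by linarith, by linarith⟩) (by rw [neg_neg]; exact expn_ge (by norm_num) (by norm_num)) (by norm_num) (by norm_num)
    have hx2 : sx κ t ≤ 0.9813 := sx_hi h 0.72 (-0.374) 0.364 1.45354 0.9813 hk2 hy1 (by norm_num) (by rw [abs_of_nonpos (by linarith)]; linarith) (by rw [neg_neg]; exact expn_le (by norm_num) (by norm_num) (by norm_num)) (by norm_num) (by norm_num)
    exact JB7_k0a_b3_0 hβ hN hx1 hx2 (by linarith) (by linarith)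
  rcases le_total (sy κ t) (-0.344) with f1 | g1
  · have hx1 : 0.8261 ≤ sx κ t := sx_lo h 0.64 (-0.344) 0.364 1.41057 0.8261 hk1 (by norm_num) f1 (abs_le.2 ⟨by linarith, by linarith⟩) (by rw [neg_neg]; exact expn_ge (by norm_num) (by norm_num)) (by norm_num) (by norm_num)
    have hx2 : sx κ t ≤ 0.9774 := sx_hi h 0.72 (-0.364) 0.344 1.43908 0.9774 hk2 g0 (by norm_num) (by rw [abs_of_nonpos (by linarith)]; linarith) (by rw [neg_neg]; exact expn_le (by norm_num) (by norm_num) (by norm_num)) (by norm_num) (by norm_num)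
    exact JB7_k0a_b3_1 hβ hN hx1 hx2 (by linarith) (by linarith)
  rcases le_total (sy κ t) (-0.304) with f2 | g2
  · have hx1 : 0.7962 ≤ sx κ t := sx_lo h 0.64 (-0.304) 0.344 1.35526 0.7962 hk1 (by norm_num) f2 (abs_le.2 ⟨by linarith, by linarith⟩) (by rw [neg_neg]; exact expn_ge (by norm_num) (by norm_num)) (by norm_num) (by norm_num)
    have hx2 : sx κ t ≤ 0.9691 := sx_hi h 0.72 (-0.344) 0.304 1.41058 0.9691 hk2 g1 (by norm_num) (by rw [abs_of_nonpos (by linarith)]; linarith) (by rw [neg_neg]; exact expn_le (by norm_num) (by norm_num) (by norm_num)) (by norm_num) (by norm_num)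
    exact JB7_k0a_b3_2 hβ hN hx1 hx2 (by linarith) (by linarith)
  rcases le_total (sy κ t) (-0.219) with f3 | g3
  · have hx1 : 0.7364 ≤ sx κ t := sx_lo h 0.64 (-0.219) 0.304 1.24483 0.7364 hk1 (by norm_num) f3 (abs_le.2 ⟨by linarith, by linarith⟩) (by rw [neg_neg]; exact expn_ge (by norm_num) (by norm_num)) (by norm_num) (by norm_num)
    have hx2 : sx κ t ≤ 0.951 := sx_hi h 0.72 (-0.304) 0.219 1.35527 0.951 hk2 g2 (by norm_num) (by rw [abs_of_nonpos (by linarith)]; linarith) (by rw [neg_neg]; exact expn_le (by norm_num) (by norm_num) (by norm_num)) (by norm_num) (by norm_num)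
    exact JB7_k0a_b3_3 hβ hN hx1 hx2 (by linarith) (by linarith)
  rcases le_total (sy κ t) 0 with f4 | g4
  · have hx1 : 0.6013 ≤ sx κ t := sx_lo h 0.64 0 0.219 1 0.6013 hk1 (by norm_num) f4 (abs_le.2 ⟨by linarith, by linarith⟩) (by simp) (by norm_num) (by norm_num)
    have hx2 : sx κ t ≤ 0.8963 := sx_hi h 0.72 (-0.219) 0 1.24484 0.8963 hk2 g3 (by norm_num) (abs_nonneg _) (by rw [neg_neg]; exact expn_le (by norm_num) (by norm_num) (by norm_num)) (by norm_num) (by norm_num)
    exact JB7_k0a_b3_4 hβ hN hx1 hx2 (by linarith) (by linarith)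
  have hx1 : 0.6243 ≤ sx κ t := sx_lo h 0.64 0.024 0.024 0.97628 0.6243 hk1 (by norm_num) hy2 (abs_le.2 ⟨by linarith, by linarith⟩) (expm_ge (by norm_num) (by norm_num) (by norm_num) (by norm_num)) (by norm_num) (by norm_num)
  have hx2 : sx κ t ≤ 0.7201 := sx_hi h 0.72 0 0 1 0.7201 hk2 g4 (by norm_num) (abs_nonneg _) (by simp) (by norm_num) (by norm_num)
  exact JB7_k0a_b3_5 hβ hN hx1 hx2 (by linarith) (by linarith)

private theorem JB7_k0a_b4_0 {β x y : ℝ} (hβ : 0 < β) (hN : β * 13.837 ≤ 1) (hx1 : 0.9662 ≤ x) (hx2 : x ≤ 1.1044)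
    (hy1 : -0.374 ≤ y) (hy2 : y ≤ -0.364) : ‖HH β (x + y * I) - 1‖ ≤ 0.08 := by
  refine le_epsJ (C := 1.0924) (N0 := 13.837) (J_boxp 0.9662 1.1044 0.374 0 (-0.364) 1.1248 1.1661 1.2745 0.9464 0.4504 3.7199 13.837 1.0368 4.412 1.609 0.6501 0.5623 0.368 0.7486 2.2751 0.62 1.8378 2.4864 3.4746 0.0004186 0.006146 0.00003174 0.0000003101 0.0001883 0.0000003101 0.0000003101 0.0000003101 1.0924
    hβ hN hx1 hx2 hy1 hy2 (by norm_num) (by norm_num) (by linarith) (by norm_num) (by norm_num) (by norm_num) (by norm_num) (by norm_num) (by norm_num) (by norm_num) (by norm_num) (by norm_num) (by norm_num) (by norm_num) (by norm_num) (by norm_num) (by norm_num) (by norm_num) (by norm_num) (by norm_num) (by norm_num) (by norm_num) (by norm_num) (by norm_num)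
    (cube_sqrt_geJ (s := 0.8089) (by norm_num) (by norm_num) (by norm_num) (by norm_num))
    (cube_sqrt_geJ (s := 0.9343) (by norm_num) (by norm_num) (by norm_num) (by norm_num))
    (by norm_num) (by norm_num) (by norm_num) (by norm_num) (by norm_num) (by norm_num) (by norm_num) (by norm_num) (by norm_num) (by norm_num) (by norm_num) (by norm_num) (by norm_num) (by norm_num) (by norm_num) (by norm_num) (by norm_num) (by norm_num)
    (exp_neg_leJ (r := 0.78) 7 (by norm_num) (by norm_num) (by norm_num) (by norm_num))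
    (exp_neg_leJ (r := 0.092) 5 (by norm_num) (by norm_num) (by norm_num) (by norm_num))
    (exp_neg_leJ (r := 0.358) 10 (by norm_num) (by norm_num) (by norm_num) (by norm_num))
    (exp_neg_leJ (r := 0.99) 14 (by norm_num) (by norm_num) (by norm_num) (by norm_num))
    (exp_neg_leJ (r := 0.578) 8 (by norm_num) (by norm_num) (by norm_num) (by norm_num))
    (exp_neg_leJ (r := 0.99) 14 (by norm_num) (by norm_num) (by norm_num) (by norm_num))
    (exp_neg_leJ (r := 0.99) 14 (by norm_num) (by norm_num) (by norm_num) (by norm_num))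
    (exp_neg_leJ (r := 0.99) 14 (by norm_num) (by norm_num) (by norm_num) (by norm_num))
    (by norm_num)) (by norm_num) hN hβ.le (by norm_num)

private theorem JB7_k0a_b4_1 {β x y : ℝ} (hβ : 0 < β) (hN : β * 13.837 ≤ 1) (hx1 : 0.9481 ≤ x) (hx2 : x ≤ 1.0987)
    (hy1 : -0.364 ≤ y) (hy2 : y ≤ -0.344) : ‖HH β (x + y * I) - 1‖ ≤ 0.08 := by
  refine le_epsJ (C := 1.0977) (N0 := 13.837) (J_boxp 0.9481 1.0987 0.364 0 (-0.344) 1.1191 1.1575 1.2797 0.9556 0.4513 3.7199 13.837 1.0344 4.393 1.607 0.6615 0.5595 0.3666 0.7582 2.3105 0.6166 1.8127 2.4774 3.4618 0.0004351 0.00627 0.0000278 0.0000003101 0.0001974 0.0000003101 0.0000003101 0.0000003101 1.0977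
    hβ hN hx1 hx2 hy1 hy2 (by norm_num) (by norm_num) (by linarith) (by norm_num) (by norm_num) (by norm_num) (by norm_num) (by norm_num) (by norm_num) (by norm_num) (by norm_num) (by norm_num) (by norm_num) (by norm_num) (by norm_num) (by norm_num) (by norm_num) (by norm_num) (by norm_num) (by norm_num) (by norm_num) (by norm_num) (by norm_num) (by norm_num)
    (cube_sqrt_geJ (s := 0.8094) (by norm_num) (by norm_num) (by norm_num) (by norm_num))
    (cube_sqrt_geJ (s := 0.9345) (by norm_num) (by norm_num) (by norm_num) (by norm_num))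
    (by norm_num) (by norm_num) (by norm_num) (by norm_num) (by norm_num) (by norm_num) (by norm_num) (by norm_num) (by norm_num) (by norm_num) (by norm_num) (by norm_num) (by norm_num) (by norm_num) (by norm_num) (by norm_num) (by norm_num) (by norm_num)
    (exp_neg_leJ (r := 0.741) 7 (by norm_num) (by norm_num) (by norm_num) (by norm_num))
    (exp_neg_leJ (r := 0.072) 5 (by norm_num) (by norm_num) (by norm_num) (by norm_num))
    (exp_neg_leJ (r := 0.491) 10 (by norm_num) (by norm_num) (by norm_num) (by norm_num))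
    (exp_neg_leJ (r := 0.99) 14 (by norm_num) (by norm_num) (by norm_num) (by norm_num))
    (exp_neg_leJ (r := 0.531) 8 (by norm_num) (by norm_num) (by norm_num) (by norm_num))
    (exp_neg_leJ (r := 0.99) 14 (by norm_num) (by norm_num) (by norm_num) (by norm_num))
    (exp_neg_leJ (r := 0.99) 14 (by norm_num) (by norm_num) (by norm_num) (by norm_num))
    (exp_neg_leJ (r := 0.99) 14 (by norm_num) (by norm_num) (by norm_num) (by norm_num))
    (by norm_num)) (by norm_num) hN hβ.le (by norm_num)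

private theorem JB7_k0a_b4_2 {β x y : ℝ} (hβ : 0 < β) (hN : β * 13.837 ≤ 1) (hx1 : 0.9131 ≤ x) (hx2 : x ≤ 1.0868)
    (hy1 : -0.344 ≤ y) (hy2 : y ≤ -0.304) : ‖HH β (x + y * I) - 1‖ ≤ 0.08 := by
  refine le_epsJ (C := 1.103) (N0 := 13.837) (J_boxp 0.9131 1.0868 0.344 0 (-0.304) 1.1087 1.14 1.2906 0.9732 0.4533 3.7199 13.837 1.0283 4.346 1.602 0.6845 0.5543 0.3643 0.7778 2.3817 0.6106 1.7642 2.4618 3.4394 0.0004674 0.006474 0.00002122 0.0000003101 0.0002144 0.0000003101 0.0000003101 0.0000003101 1.103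
    hβ hN hx1 hx2 hy1 hy2 (by norm_num) (by norm_num) (by linarith) (by norm_num) (by norm_num) (by norm_num) (by norm_num) (by norm_num) (by norm_num) (by norm_num) (by norm_num) (by norm_num) (by norm_num) (by norm_num) (by norm_num) (by norm_num) (by norm_num) (by norm_num) (by norm_num) (by norm_num) (by norm_num) (by norm_num) (by norm_num) (by norm_num)
    (cube_sqrt_geJ (s := 0.8106) (by norm_num) (by norm_num) (by norm_num) (by norm_num))
    (cube_sqrt_geJ (s := 0.9349) (by norm_num) (by norm_num) (by norm_num) (by norm_num))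
    (by norm_num) (by norm_num) (by norm_num) (by norm_num) (by norm_num) (by norm_num) (by norm_num) (by norm_num) (by norm_num) (by norm_num) (by norm_num) (by norm_num) (by norm_num) (by norm_num) (by norm_num) (by norm_num) (by norm_num) (by norm_num)
    (exp_neg_leJ (r := 0.669) 7 (by norm_num) (by norm_num) (by norm_num) (by norm_num))
    (exp_neg_leJ (r := 0.04) 5 (by norm_num) (by norm_num) (by norm_num) (by norm_num))
    (exp_neg_leJ (r := 0.762) 10 (by norm_num) (by norm_num) (by norm_num) (by norm_num))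
    (exp_neg_leJ (r := 0.99) 14 (by norm_num) (by norm_num) (by norm_num) (by norm_num))
    (exp_neg_leJ (r := 0.448) 8 (by norm_num) (by norm_num) (by norm_num) (by norm_num))
    (exp_neg_leJ (r := 0.99) 14 (by norm_num) (by norm_num) (by norm_num) (by norm_num))
    (exp_neg_leJ (r := 0.99) 14 (by norm_num) (by norm_num) (by norm_num) (by norm_num))
    (exp_neg_leJ (r := 0.99) 14 (by norm_num) (by norm_num) (by norm_num) (by norm_num))
    (by norm_num)) (by norm_num) hN hβ.le (by norm_num)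

private theorem JB7_k0a_b4_3 {β x y : ℝ} (hβ : 0 < β) (hN : β * 13.837 ≤ 1) (hx1 : 0.8479 ≤ x) (hx2 : x ≤ 1.0609)
    (hy1 : -0.304 ≤ y) (hy2 : y ≤ -0.224) : ‖HH β (x + y * I) - 1‖ ≤ 0.08 := by
  refine le_epsJ (C := 1.0945) (N0 := 13.837) (J_boxp 0.8479 1.0609 0.304 0 (-0.224) 1.0912 1.1036 1.3145 1.0059 0.4574 3.7199 13.837 1.0114 4.218 1.589 0.7314 0.5455 0.3616 0.8186 2.525 0.6007 1.674 2.4401 3.4079 0.0005274 0.006718 0.00001206 0.0000003101 0.0002459 0.0000003101 0.0000003101 0.0000003101 1.0945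
    hβ hN hx1 hx2 hy1 hy2 (by norm_num) (by norm_num) (by linarith) (by norm_num) (by norm_num) (by norm_num) (by norm_num) (by norm_num) (by norm_num) (by norm_num) (by norm_num) (by norm_num) (by norm_num) (by norm_num) (by norm_num) (by norm_num) (by norm_num) (by norm_num) (by norm_num) (by norm_num) (by norm_num) (by norm_num) (by norm_num) (by norm_num)
    (cube_sqrt_geJ (s := 0.8141) (by norm_num) (by norm_num) (by norm_num) (by norm_num))
    (cube_sqrt_geJ (s := 0.936) (by norm_num) (by norm_num) (by norm_num) (by norm_num))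
    (by norm_num) (by norm_num) (by norm_num) (by norm_num) (by norm_num) (by norm_num) (by norm_num) (by norm_num) (by norm_num) (by norm_num) (by norm_num) (by norm_num) (by norm_num) (by norm_num) (by norm_num) (by norm_num) (by norm_num) (by norm_num)
    (exp_neg_leJ (r := 0.548) 7 (by norm_num) (by norm_num) (by norm_num) (by norm_num))
    (exp_neg_leJ (r := 0.003) 5 (by norm_num) (by norm_num) (by norm_num) (by norm_num))
    (exp_neg_leJ (r := 0.326) 11 (by norm_num) (by norm_num) (by norm_num) (by norm_num))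
    (exp_neg_leJ (r := 0.99) 14 (by norm_num) (by norm_num) (by norm_num) (by norm_num))
    (exp_neg_leJ (r := 0.311) 8 (by norm_num) (by norm_num) (by norm_num) (by norm_num))
    (exp_neg_leJ (r := 0.99) 14 (by norm_num) (by norm_num) (by norm_num) (by norm_num))
    (exp_neg_leJ (r := 0.99) 14 (by norm_num) (by norm_num) (by norm_num) (by norm_num))
    (exp_neg_leJ (r := 0.99) 14 (by norm_num) (by norm_num) (by norm_num) (by norm_num))
    (by norm_num)) (by norm_num) hN hβ.le (by norm_num)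

private theorem JB7_k0a_b4_4 {β x y : ℝ} (hβ : 0 < β) (hN : β * 13.837 ≤ 1) (hx1 : 0.7104 ≤ x) (hx2 : x ≤ 1.0003)
    (hy1 : -0.224 ≤ y) (hy2 : y ≤ -0.034) : ‖HH β (x + y * I) - 1‖ ≤ 0.08 := by
  refine le_epsJ (C := 1.0944) (N0 := 13.837) (J_boxp 0.7104 1.0003 0.224 0 (-0.034) 1.0512 1.0251 1.3906 1.0942 0.4705 3.7199 13.837 0.9752 3.96 1.561 0.8286 0.5255 0.3547 0.8978 2.816 0.5777 1.4836 2.3826 3.3463 0.0006955 0.007413 0.00000403 0.0000003101 0.0003401 0.0000003101 0.0000003101 0.0000003101 1.0944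
    hβ hN hx1 hx2 hy1 hy2 (by norm_num) (by norm_num) (by linarith) (by norm_num) (by norm_num) (by norm_num) (by norm_num) (by norm_num) (by norm_num) (by norm_num) (by norm_num) (by norm_num) (by norm_num) (by norm_num) (by norm_num) (by norm_num) (by norm_num) (by norm_num) (by norm_num) (by norm_num) (by norm_num) (by norm_num) (by norm_num) (by norm_num)
    (cube_sqrt_geJ (s := 0.8215) (by norm_num) (by norm_num) (by norm_num) (by norm_num))
    (cube_sqrt_geJ (s := 0.9384) (by norm_num) (by norm_num) (by norm_num) (by norm_num))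
    (by norm_num) (by norm_num) (by norm_num) (by norm_num) (by norm_num) (by norm_num) (by norm_num) (by norm_num) (by norm_num) (by norm_num) (by norm_num) (by norm_num) (by norm_num) (by norm_num) (by norm_num) (by norm_num) (by norm_num) (by norm_num)
    (exp_neg_leJ (r := 0.271) 7 (by norm_num) (by norm_num) (by norm_num) (by norm_num))
    (exp_neg_leJ (r := 0.907) 4 (by norm_num) (by norm_num) (by norm_num) (by norm_num))
    (exp_neg_leJ (r := 0.422) 12 (by norm_num) (by norm_num) (by norm_num) (by norm_num))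
    (exp_neg_leJ (r := 0.99) 14 (by norm_num) (by norm_num) (by norm_num) (by norm_num))
    (exp_neg_leJ (r := 0.99) 7 (by norm_num) (by norm_num) (by norm_num) (by norm_num))
    (exp_neg_leJ (r := 0.99) 14 (by norm_num) (by norm_num) (by norm_num) (by norm_num))
    (exp_neg_leJ (r := 0.99) 14 (by norm_num) (by norm_num) (by norm_num) (by norm_num))
    (exp_neg_leJ (r := 0.99) 14 (by norm_num) (by norm_num) (by norm_num) (by norm_num))
    (by norm_num)) (by norm_num) hN hβ.le (by norm_num)

private theorem JB7_k0a_b4_5 {β x y : ℝ} (hβ : 0 < β) (hN : β * 13.837 ≤ 1) (hx1 : 0.702 ≤ x) (hx2 : x ≤ 0.8277)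
    (hy1 : -0.034 ≤ y) (hy2 : y ≤ 0.024) : ‖HH β (x + y * I) - 1‖ ≤ 0.08 := by
  refine le_epsJ (C := 0.3841) (N0 := 13.837) (J_boxp 0.702 0.8277 0.034 0.024 0.024 1.1802 0.8284 1.3167 0.895 0.4578 3.7199 13.837 0.702 2.543 1.37 1.0703 0.59 0.452 1.1949 3.5186 0.6749 1.4695 2.7793 3.7511 0.0002851 0.001923 0.0000003101 0.0000003101 0.00008802 0.0000003101 0.0000003101 0.0000003101 0.3841
    hβ hN hx1 hx2 hy1 hy2 (by norm_num) (by norm_num) (by linarith) (by norm_num) (by norm_num) (by norm_num) (by norm_num) (by norm_num) (by norm_num) (by norm_num) (by norm_num) (by norm_num) (by norm_num) (by norm_num) (by norm_num) (by norm_num) (by norm_num) (by norm_num) (by norm_num) (by norm_num) (by norm_num) (by norm_num) (by norm_num) (by norm_num)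
    (cube_sqrt_geJ (s := 0.8752) (by norm_num) (by norm_num) (by norm_num) (by norm_num))
    (cube_sqrt_geJ (s := 0.956) (by norm_num) (by norm_num) (by norm_num) (by norm_num))
    (by norm_num) (by norm_num) (by norm_num) (by norm_num) (by norm_num) (by norm_num) (by norm_num) (by norm_num) (by norm_num) (by norm_num) (by norm_num) (by norm_num) (by norm_num) (by norm_num) (by norm_num) (by norm_num) (by norm_num) (by norm_num)
    (exp_neg_leJ (r := 0.163) 8 (by norm_num) (by norm_num) (by norm_num) (by norm_num))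
    (exp_neg_leJ (r := 0.254) 6 (by norm_num) (by norm_num) (by norm_num) (by norm_num))
    (exp_neg_leJ (r := 0.99) 14 (by norm_num) (by norm_num) (by norm_num) (by norm_num))
    (exp_neg_leJ (r := 0.99) 14 (by norm_num) (by norm_num) (by norm_num) (by norm_num))
    (exp_neg_leJ (r := 0.338) 9 (by norm_num) (by norm_num) (by norm_num) (by norm_num))
    (exp_neg_leJ (r := 0.99) 14 (by norm_num) (by norm_num) (by norm_num) (by norm_num))
    (exp_neg_leJ (r := 0.99) 14 (by norm_num) (by norm_num) (by norm_num) (by norm_num))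
    (exp_neg_leJ (r := 0.99) 14 (by norm_num) (by norm_num) (by norm_num) (by norm_num))
    (by norm_num)) (by norm_num) hN hβ.le (by norm_num)

theorem JB7_k0a_c4 {κ t β : ℝ} (h : DomR κ t) (hβ : 0 < β) (hk1 : 0.72 ≤ κ) (hk2 : κ ≤ 0.8)
    (ht1 : -0.62 ≤ t + κ) (ht2 : t + κ ≤ 0.05) (hR0 : β * 10 ≤ κ) (hR : β * (6.75 * (1 + κ ^ 2)) ≤ κ) :
    ‖HH β (sg κ t) - 1‖ ≤ 0.08 := by
  have hN : β * 13.837 ≤ 1 := bNC hβ h.1 hk2 (by norm_num) (by norm_num) hR (by norm_num)
  have hy1 : -0.374 ≤ sy κ t := syL_ge h 0.72 0.8 0.62 0.374 0.68797 0.68798 0.3365 0.32162 0.35737 hk1 hk2 (by linarith) (by norm_num) (by norm_num) (by norm_num)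
    (expm_ge (by norm_num) (by norm_num) (by norm_num) (by norm_num)) (expm_le (by norm_num) (by norm_num) (by norm_num)) (by norm_num)
    (by norm_num) (by norm_num) (by norm_num) (by norm_num) (by norm_num) (by norm_num)
  have hy2 : sy κ t ≤ 0.024 := syR_le h 0.72 0.8 0.05 0.024 1.02429 0.0298 0.03072 0.03415 hk1 hk2 (by linarith) (by norm_num) (by norm_num)
    (expn_ge (by norm_num) (by norm_num)) (by norm_num) (by norm_num) (Or.inr ((mul_le_mul_of_nonneg_left (expn_le (E := 1.0243) (by norm_num) (by norm_num) (by norm_num)) (by norm_num)).trans (by norm_num))) (by norm_num) (by norm_num) (by norm_num)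
  rcases le_total (sy κ t) (-0.364) with f0 | g0
  · have hx1 : 0.9662 ≤ sx κ t := sx_lo h 0.72 (-0.364) 0.374 1.43907 0.9662 hk1 (by norm_num) f0 (abs_le.2 ⟨by linarith, by linarith⟩) (by rw [neg_neg]; exact expn_ge (by norm_num) (by norm_num)) (by norm_num) (by norm_num)
    have hx2 : sx κ t ≤ 1.1044 := sx_hi h 0.8 (-0.374) 0.364 1.45354 1.1044 hk2 hy1 (by norm_num) (by rw [abs_of_nonpos (by linarith)]; linarith) (by rw [neg_neg]; exact expn_le (by norm_num) (by norm_num) (by norm_num)) (by norm_num) (by norm_num)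
    exact JB7_k0a_b4_0 hβ hN hx1 hx2 (by linarith) (by linarith)
  rcases le_total (sy κ t) (-0.344) with f1 | g1
  · have hx1 : 0.9481 ≤ sx κ t := sx_lo h 0.72 (-0.344) 0.364 1.41057 0.9481 hk1 (by norm_num) f1 (abs_le.2 ⟨by linarith, by linarith⟩) (by rw [neg_neg]; exact expn_ge (by norm_num) (by norm_num)) (by norm_num) (by norm_num)
    have hx2 : sx κ t ≤ 1.0987 := sx_hi h 0.8 (-0.364) 0.344 1.43908 1.0987 hk2 g0 (by norm_num) (by rw [abs_of_nonpos (by linarith)]; linarith) (by rw [neg_neg]; exact expn_le (by norm_num) (by norm_num) (by norm_num)) (by norm_num) (by norm_num)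
    exact JB7_k0a_b4_1 hβ hN hx1 hx2 (by linarith) (by linarith)
  rcases le_total (sy κ t) (-0.304) with f2 | g2
  · have hx1 : 0.9131 ≤ sx κ t := sx_lo h 0.72 (-0.304) 0.344 1.35526 0.9131 hk1 (by norm_num) f2 (abs_le.2 ⟨by linarith, by linarith⟩) (by rw [neg_neg]; exact expn_ge (by norm_num) (by norm_num)) (by norm_num) (by norm_num)
    have hx2 : sx κ t ≤ 1.0868 := sx_hi h 0.8 (-0.344) 0.304 1.41058 1.0868 hk2 g1 (by norm_num) (by rw [abs_of_nonpos (by linarith)]; linarith) (by rw [neg_neg]; exact expn_le (by norm_num) (by norm_num) (by norm_num)) (by norm_num) (by norm_num)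
    exact JB7_k0a_b4_2 hβ hN hx1 hx2 (by linarith) (by linarith)
  rcases le_total (sy κ t) (-0.224) with f3 | g3
  · have hx1 : 0.8479 ≤ sx κ t := sx_lo h 0.72 (-0.224) 0.304 1.25107 0.8479 hk1 (by norm_num) f3 (abs_le.2 ⟨by linarith, by linarith⟩) (by rw [neg_neg]; exact expn_ge (by norm_num) (by norm_num)) (by norm_num) (by norm_num)
    have hx2 : sx κ t ≤ 1.0609 := sx_hi h 0.8 (-0.304) 0.224 1.35527 1.0609 hk2 g2 (by norm_num) (by rw [abs_of_nonpos (by linarith)]; linarith) (by rw [neg_neg]; exact expn_le (by norm_num) (by norm_num) (by norm_num)) (by norm_num) (by norm_num)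
    exact JB7_k0a_b4_3 hβ hN hx1 hx2 (by linarith) (by linarith)
  rcases le_total (sy κ t) (-0.034) with f4 | g4
  · have hx1 : 0.7104 ≤ sx κ t := sx_lo h 0.72 (-0.034) 0.224 1.03458 0.7104 hk1 (by norm_num) f4 (abs_le.2 ⟨by linarith, by linarith⟩) (by rw [neg_neg]; exact expn_ge (by norm_num) (by norm_num)) (by norm_num) (by norm_num)
    have hx2 : sx κ t ≤ 1.0003 := sx_hi h 0.8 (-0.224) 0.034 1.25108 1.0003 hk2 g3 (by norm_num) (by rw [abs_of_nonpos (by linarith)]; linarith) (by rw [neg_neg]; exact expn_le (by norm_num) (by norm_num) (by norm_num)) (by norm_num) (by norm_num)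
    exact JB7_k0a_b4_4 hβ hN hx1 hx2 (by linarith) (by linarith)
  have hx1 : 0.702 ≤ sx κ t := sx_lo h 0.72 0.024 0.034 0.97628 0.702 hk1 (by norm_num) hy2 (abs_le.2 ⟨by linarith, by linarith⟩) (expm_ge (by norm_num) (by norm_num) (by norm_num) (by norm_num)) (by norm_num) (by norm_num)
  have hx2 : sx κ t ≤ 0.8277 := sx_hi h 0.8 (-0.034) 0 1.03459 0.8277 hk2 g4 (by norm_num) (abs_nonneg _) (by rw [neg_neg]; exact expn_le (by norm_num) (by norm_num) (by norm_num)) (by norm_num) (by norm_num)
  exact JB7_k0a_b4_5 hβ hN hx1 hx2 (by linarith) (by linarith)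
end Sok
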