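import Pool.Agent.Lib.MP_816dec_an.JBG

/-!
MP_816dec_an (A3, row R1): tables b = 7, real points.
-/

set_option autoImplicit false
set_option maxHeartbeats 4000000

open Complex Set

namespace Sok

private theorem JB7_k0a_b5_0 {β x y : ℝ} (hβ : 0 < β) (hN : β * 13.591 ≤ 1) (hx1 : 1.0844 ≤ x) (hx2 : x ≤ 1.2362)
    (hy1 : -0.369 ≤ y) (hy2 : y ≤ -0.359) : ‖HH β (x + y * I) - 1‖ ≤ 0.08 := by
  refine le_epsJ (C := 1.0833) (N0 := 13.591) (J_boxp 1.0844 1.2362 0.369 0 (-0.359) 1.2116 1.2901 1.3926 0.8849 0.4708 3.6866 13.591 1.0648 4.639 1.631 0.604 0.6057 0.3907 0.797 2.2167 0.6801 2.0014 2.7364 3.374 0.0002661 0.004943 0.0000198 0.0000003101 0.00009679 0.0000003101 0.0000003101 0.0000003101 1.0833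
    hβ hN hx1 hx2 hy1 hy2 (by norm_num) (by norm_num) (by linarith) (by norm_num) (by norm_num) (by norm_num) (by norm_num) (by norm_num) (by norm_num) (by norm_num) (by norm_num) (by norm_num) (by norm_num) (by norm_num) (by norm_num) (by norm_num) (by norm_num) (by norm_num) (by norm_num) (by norm_num) (by norm_num) (by norm_num) (by norm_num) (by norm_num)
    (cube_sqrt_geJ (s := 0.8031) (by norm_num) (by norm_num) (by norm_num) (by norm_num))
    (cube_sqrt_geJ (s := 0.9325) (by norm_num) (by norm_num) (by norm_num) (by norm_num))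
    (by norm_num) (by norm_num) (by norm_num) (by norm_num) (by norm_num) (by norm_num) (by norm_num) (by norm_num) (by norm_num) (by norm_num) (by norm_num) (by norm_num) (by norm_num) (by norm_num) (by norm_num) (by norm_num) (by norm_num) (by norm_num)
    (exp_neg_leJ (r := 0.232) 8 (by norm_num) (by norm_num) (by norm_num) (by norm_num))
    (exp_neg_leJ (r := 0.31) 5 (by norm_num) (by norm_num) (by norm_num) (by norm_num))
    (exp_neg_leJ (r := 0.832) 10 (by norm_num) (by norm_num) (by norm_num) (by norm_num))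
    (exp_neg_leJ (r := 0.99) 14 (by norm_num) (by norm_num) (by norm_num) (by norm_num))
    (exp_neg_leJ (r := 0.243) 9 (by norm_num) (by norm_num) (by norm_num) (by norm_num))
    (exp_neg_leJ (r := 0.99) 14 (by norm_num) (by norm_num) (by norm_num) (by norm_num))
    (exp_neg_leJ (r := 0.99) 14 (by norm_num) (by norm_num) (by norm_num) (by norm_num))
    (exp_neg_leJ (r := 0.99) 14 (by norm_num) (by norm_num) (by norm_num) (by norm_num))
    (by norm_num)) (by norm_num) hN hβ.le (by norm_num)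

private theorem JB7_k0a_b5_1 {β x y : ℝ} (hβ : 0 < β) (hN : β * 13.591 ≤ 1) (hx1 : 1.0698 ≤ x) (hx2 : x ≤ 1.2271)
    (hy1 : -0.359 ≤ y) (hy2 : y ≤ -0.344) : ‖HH β (x + y * I) - 1‖ ≤ 0.08 := by
  refine le_epsJ (C := 1.0681) (N0 := 13.591) (J_boxp 1.0698 1.2271 0.359 0 (-0.344) 1.2084 1.2786 1.3915 0.8881 0.4706 3.6866 13.591 1.0581 4.584 1.626 0.6167 0.6041 0.391 0.8078 2.254 0.6785 1.9812 2.7344 3.376 0.000272 0.004923 0.00001714 0.0000003101 0.00009895 0.0000003101 0.0000003101 0.0000003101 1.0681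
    hβ hN hx1 hx2 hy1 hy2 (by norm_num) (by norm_num) (by linarith) (by norm_num) (by norm_num) (by norm_num) (by norm_num) (by norm_num) (by norm_num) (by norm_num) (by norm_num) (by norm_num) (by norm_num) (by norm_num) (by norm_num) (by norm_num) (by norm_num) (by norm_num) (by norm_num) (by norm_num) (by norm_num) (by norm_num) (by norm_num) (by norm_num)
    (cube_sqrt_geJ (s := 0.8045) (by norm_num) (by norm_num) (by norm_num) (by norm_num))
    (cube_sqrt_geJ (s := 0.9329) (by norm_num) (by norm_num) (by norm_num) (by norm_num))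
    (by norm_num) (by norm_num) (by norm_num) (by norm_num) (by norm_num) (by norm_num) (by norm_num) (by norm_num) (by norm_num) (by norm_num) (by norm_num) (by norm_num) (by norm_num) (by norm_num) (by norm_num) (by norm_num) (by norm_num) (by norm_num)
    (exp_neg_leJ (r := 0.21) 8 (by norm_num) (by norm_num) (by norm_num) (by norm_num))
    (exp_neg_leJ (r := 0.314) 5 (by norm_num) (by norm_num) (by norm_num) (by norm_num))
    (exp_neg_leJ (r := 0.978) 10 (by norm_num) (by norm_num) (by norm_num) (by norm_num))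
    (exp_neg_leJ (r := 0.99) 14 (by norm_num) (by norm_num) (by norm_num) (by norm_num))
    (exp_neg_leJ (r := 0.221) 9 (by norm_num) (by norm_num) (by norm_num) (by norm_num))
    (exp_neg_leJ (r := 0.99) 14 (by norm_num) (by norm_num) (by norm_num) (by norm_num))
    (exp_neg_leJ (r := 0.99) 14 (by norm_num) (by norm_num) (by norm_num) (by norm_num))
    (exp_neg_leJ (r := 0.99) 14 (by norm_num) (by norm_num) (by norm_num) (by norm_num))
    (by norm_num)) (by norm_num) hN hβ.le (by norm_num)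

private theorem JB7_k0a_b5_2 {β x y : ℝ} (hβ : 0 < β) (hN : β * 13.591 ≤ 1) (hx1 : 1.0396 ≤ x) (hx2 : x ≤ 1.2156)
    (hy1 : -0.344 ≤ y) (hy2 : y ≤ -0.314) : ‖HH β (x + y * I) - 1‖ ≤ 0.08 := by
  refine le_epsJ (C := 1.0768) (N0 := 13.591) (J_boxp 1.0396 1.2156 0.344 0 (-0.314) 1.1978 1.2634 1.3959 0.9013 0.4714 3.6866 13.591 1.0548 4.556 1.623 0.635 0.5988 0.3883 0.8211 2.3087 0.672 1.9394 2.7148 3.3569 0.0002923 0.005108 0.00001425 0.0000003101 0.0001081 0.0000003101 0.0000003101 0.0000003101 1.0768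
    hβ hN hx1 hx2 hy1 hy2 (by norm_num) (by norm_num) (by linarith) (by norm_num) (by norm_num) (by norm_num) (by norm_num) (by norm_num) (by norm_num) (by norm_num) (by norm_num) (by norm_num) (by norm_num) (by norm_num) (by norm_num) (by norm_num) (by norm_num) (by norm_num) (by norm_num) (by norm_num) (by norm_num) (by norm_num) (by norm_num) (by norm_num)
    (cube_sqrt_geJ (s := 0.8052) (by norm_num) (by norm_num) (by norm_num) (by norm_num))
    (cube_sqrt_geJ (s := 0.9331) (by norm_num) (by norm_num) (by norm_num) (by norm_num))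
    (by norm_num) (by norm_num) (by norm_num) (by norm_num) (by norm_num) (by norm_num) (by norm_num) (by norm_num) (by norm_num) (by norm_num) (by norm_num) (by norm_num) (by norm_num) (by norm_num) (by norm_num) (by norm_num) (by norm_num) (by norm_num)
    (exp_neg_leJ (r := 0.138) 8 (by norm_num) (by norm_num) (by norm_num) (by norm_num))
    (exp_neg_leJ (r := 0.277) 5 (by norm_num) (by norm_num) (by norm_num) (by norm_num))
    (exp_neg_leJ (r := 0.159) 11 (by norm_num) (by norm_num) (by norm_num) (by norm_num))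
    (exp_neg_leJ (r := 0.99) 14 (by norm_num) (by norm_num) (by norm_num) (by norm_num))
    (exp_neg_leJ (r := 0.133) 9 (by norm_num) (by norm_num) (by norm_num) (by norm_num))
    (exp_neg_leJ (r := 0.99) 14 (by norm_num) (by norm_num) (by norm_num) (by norm_num))
    (exp_neg_leJ (r := 0.99) 14 (by norm_num) (by norm_num) (by norm_num) (by norm_num))
    (exp_neg_leJ (r := 0.99) 14 (by norm_num) (by norm_num) (by norm_num) (by norm_num))
    (by norm_num)) (by norm_num) hN hβ.le (by norm_num)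

private theorem JB7_k0a_b5_3 {β x y : ℝ} (hβ : 0 < β) (hN : β * 13.591 ≤ 1) (hx1 : 0.9823 ≤ x) (hx2 : x ≤ 1.1916)
    (hy1 : -0.314 ≤ y) (hy2 : y ≤ -0.254) : ‖HH β (x + y * I) - 1‖ ≤ 0.08 := by
  refine le_epsJ (C := 1.0846) (N0 := 13.591) (J_boxp 0.9823 1.1916 0.314 0 (-0.254) 1.1787 1.2323 1.4059 0.9266 0.4731 3.6866 13.591 1.0455 4.481 1.616 0.6719 0.5893 0.3839 0.8488 2.4186 0.6606 1.8601 2.6817 3.3269 0.0003325 0.005424 0.000009775 0.0000003101 0.0001266 0.0000003101 0.0000003101 0.0000003101 1.0846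
    hβ hN hx1 hx2 hy1 hy2 (by norm_num) (by norm_num) (by linarith) (by norm_num) (by norm_num) (by norm_num) (by norm_num) (by norm_num) (by norm_num) (by norm_num) (by norm_num) (by norm_num) (by norm_num) (by norm_num) (by norm_num) (by norm_num) (by norm_num) (by norm_num) (by norm_num) (by norm_num) (by norm_num) (by norm_num) (by norm_num) (by norm_num)
    (cube_sqrt_geJ (s := 0.8071) (by norm_num) (by norm_num) (by norm_num) (by norm_num))
    (cube_sqrt_geJ (s := 0.9338) (by norm_num) (by norm_num) (by norm_num) (by norm_num))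
    (by norm_num) (by norm_num) (by norm_num) (by norm_num) (by norm_num) (by norm_num) (by norm_num) (by norm_num) (by norm_num) (by norm_num) (by norm_num) (by norm_num) (by norm_num) (by norm_num) (by norm_num) (by norm_num) (by norm_num) (by norm_num)
    (exp_neg_leJ (r := 0.009) 8 (by norm_num) (by norm_num) (by norm_num) (by norm_num))
    (exp_neg_leJ (r := 0.217) 5 (by norm_num) (by norm_num) (by norm_num) (by norm_num))
    (exp_neg_leJ (r := 0.536) 11 (by norm_num) (by norm_num) (by norm_num) (by norm_num))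
    (exp_neg_leJ (r := 0.99) 14 (by norm_num) (by norm_num) (by norm_num) (by norm_num))
    (exp_neg_leJ (r := 0.978) 8 (by norm_num) (by norm_num) (by norm_num) (by norm_num))
    (exp_neg_leJ (r := 0.99) 14 (by norm_num) (by norm_num) (by norm_num) (by norm_num))
    (exp_neg_leJ (r := 0.99) 14 (by norm_num) (by norm_num) (by norm_num) (by norm_num))
    (exp_neg_leJ (r := 0.99) 14 (by norm_num) (by norm_num) (by norm_num) (by norm_num))
    (by norm_num)) (by norm_num) hN hβ.le (by norm_num)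

private theorem JB7_k0a_b5_4 {β x y : ℝ} (hβ : 0 < β) (hN : β * 13.591 ≤ 1) (hx1 : 0.8739 ≤ x) (hx2 : x ≤ 1.1401)
    (hy1 : -0.254 ≤ y) (hy2 : y ≤ -0.129) : ‖HH β (x + y * I) - 1‖ ≤ 0.08 := by
  refine le_epsJ (C := 1.0774) (N0 := 13.591) (J_boxp 0.8739 1.1401 0.254 0 (-0.129) 1.145 1.1681 1.4348 0.9777 0.4779 3.6866 13.591 1.0202 4.284 1.596 0.7471 0.5724 0.3778 0.9064 2.6402 0.6407 1.71 2.628 3.2846 0.000419 0.005894 0.000004471 0.0000003101 0.0001656 0.0000003101 0.0000003101 0.0000003101 1.0774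
    hβ hN hx1 hx2 hy1 hy2 (by norm_num) (by norm_num) (by linarith) (by norm_num) (by norm_num) (by norm_num) (by norm_num) (by norm_num) (by norm_num) (by norm_num) (by norm_num) (by norm_num) (by norm_num) (by norm_num) (by norm_num) (by norm_num) (by norm_num) (by norm_num) (by norm_num) (by norm_num) (by norm_num) (by norm_num) (by norm_num) (by norm_num)
    (cube_sqrt_geJ (s := 0.8123) (by norm_num) (by norm_num) (by norm_num) (by norm_num))
    (cube_sqrt_geJ (s := 0.9354) (by norm_num) (by norm_num) (by norm_num) (by norm_num))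
    (by norm_num) (by norm_num) (by norm_num) (by norm_num) (by norm_num) (by norm_num) (by norm_num) (by norm_num) (by norm_num) (by norm_num) (by norm_num) (by norm_num) (by norm_num) (by norm_num) (by norm_num) (by norm_num) (by norm_num) (by norm_num)
    (exp_neg_leJ (r := 0.779) 7 (by norm_num) (by norm_num) (by norm_num) (by norm_num))
    (exp_neg_leJ (r := 0.134) 5 (by norm_num) (by norm_num) (by norm_num) (by norm_num))
    (exp_neg_leJ (r := 0.318) 12 (by norm_num) (by norm_num) (by norm_num) (by norm_num))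
    (exp_neg_leJ (r := 0.99) 14 (by norm_num) (by norm_num) (by norm_num) (by norm_num))
    (exp_neg_leJ (r := 0.707) 8 (by norm_num) (by norm_num) (by norm_num) (by norm_num))
    (exp_neg_leJ (r := 0.99) 14 (by norm_num) (by norm_num) (by norm_num) (by norm_num))
    (exp_neg_leJ (r := 0.99) 14 (by norm_num) (by norm_num) (by norm_num) (by norm_num))
    (exp_neg_leJ (r := 0.99) 14 (by norm_num) (by norm_num) (by norm_num) (by norm_num))
    (by norm_num)) (by norm_num) hN hβ.le (by norm_num)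

private theorem JB7_k0a_b5_5 {β x y : ℝ} (hβ : 0 < β) (hN : β * 13.591 ≤ 1) (hx1 : 0.7695 ≤ x) (hx2 : x ≤ 1.0126)
    (hy1 : -0.129 ≤ y) (hy2 : y ≤ 0.025) : ‖HH β (x + y * I) - 1‖ ≤ 0.08 := by
  refine le_epsJ (C := 0.7092) (N0 := 13.591) (J_boxp 0.7695 1.0126 0.129 0.025 0.025 1.1602 1.0208 1.4409 0.9606 0.4789 3.6866 13.591 0.8799 3.371 1.491 0.9115 0.58 0.4099 1.068 3.1115 0.6557 1.5629 2.6518 3.3584 0.0003783 0.003812 0.000000497 0.0000003101 0.0001353 0.0000003101 0.0000003101 0.0000003101 0.7092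
    hβ hN hx1 hx2 hy1 hy2 (by norm_num) (by norm_num) (by linarith) (by norm_num) (by norm_num) (by norm_num) (by norm_num) (by norm_num) (by norm_num) (by norm_num) (by norm_num) (by norm_num) (by norm_num) (by norm_num) (by norm_num) (by norm_num) (by norm_num) (by norm_num) (by norm_num) (by norm_num) (by norm_num) (by norm_num) (by norm_num) (by norm_num)
    (cube_sqrt_geJ (s := 0.8406) (by norm_num) (by norm_num) (by norm_num) (by norm_num))
    (cube_sqrt_geJ (s := 0.9445) (by norm_num) (by norm_num) (by norm_num) (by norm_num))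
    (by norm_num) (by norm_num) (by norm_num) (by norm_num) (by norm_num) (by norm_num) (by norm_num) (by norm_num) (by norm_num) (by norm_num) (by norm_num) (by norm_num) (by norm_num) (by norm_num) (by norm_num) (by norm_num) (by norm_num) (by norm_num)
    (exp_neg_leJ (r := 0.882) 7 (by norm_num) (by norm_num) (by norm_num) (by norm_num))
    (exp_neg_leJ (r := 0.57) 5 (by norm_num) (by norm_num) (by norm_num) (by norm_num))
    (exp_neg_leJ (r := 0.515) 14 (by norm_num) (by norm_num) (by norm_num) (by norm_num))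
    (exp_neg_leJ (r := 0.99) 14 (by norm_num) (by norm_num) (by norm_num) (by norm_num))
    (exp_neg_leJ (r := 0.911) 8 (by norm_num) (by norm_num) (by norm_num) (by norm_num))
    (exp_neg_leJ (r := 0.99) 14 (by norm_num) (by norm_num) (by norm_num) (by norm_num))
    (exp_neg_leJ (r := 0.99) 14 (by norm_num) (by norm_num) (by norm_num) (by norm_num))
    (exp_neg_leJ (r := 0.99) 14 (by norm_num) (by norm_num) (by norm_num) (by norm_num))
    (by norm_num)) (by norm_num) hN hβ.le (by norm_num)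

theorem JB7_k0a_c5 {κ t β : ℝ} (h : DomR κ t) (hβ : 0 < β) (hk1 : 0.8 ≤ κ) (hk2 : κ ≤ 0.89)
    (ht1 : -0.62 ≤ t + κ) (ht2 : t + κ ≤ 0.05) (hR0 : β * 10 ≤ κ) (hR : β * (6.75 * (1 + κ ^ 2)) ≤ κ) :
    ‖HH β (sg κ t) - 1‖ ≤ 0.08 := by
  have hN : β * 13.591 ≤ 1 := bNC hβ h.1 hk2 (by norm_num) (by norm_num) hR (by norm_num)
  have hy1 : -0.369 ≤ sy κ t := syL_ge h 0.8 0.89 0.62 0.369 0.69142 0.69143 0.3135 0.28666 0.31893 hk1 hk2 (by linarith) (by norm_num) (by norm_num) (by norm_num)
    (expm_ge (by norm_num) (by norm_num) (by norm_num) (by norm_num)) (expm_le (by norm_num) (by norm_num) (by norm_num)) (by norm_num)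
    (by norm_num) (by norm_num) (by norm_num) (by norm_num) (by norm_num) (by norm_num)
  have hy2 : sy κ t ≤ 0.025 := syR_le h 0.8 0.89 0.05 0.025 1.02531 0.0279 0.0288 0.03205 hk1 hk2 (by linarith) (by norm_num) (by norm_num)
    (expn_ge (by norm_num) (by norm_num)) (by norm_num) (by norm_num) (Or.inr ((mul_le_mul_of_nonneg_left (expn_le (E := 1.02532) (by norm_num) (by norm_num) (by norm_num)) (by norm_num)).trans (by norm_num))) (by norm_num) (by norm_num) (by norm_num)
  rcases le_total (sy κ t) (-0.359) with f0 | g0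
  · have hx1 : 1.0844 ≤ sx κ t := sx_lo h 0.8 (-0.359) 0.369 1.43189 1.0844 hk1 (by norm_num) f0 (abs_le.2 ⟨by linarith, by linarith⟩) (by rw [neg_neg]; exact expn_ge (by norm_num) (by norm_num)) (by norm_num) (by norm_num)
    have hx2 : sx κ t ≤ 1.2362 := sx_hi h 0.89 (-0.369) 0.359 1.44629 1.2362 hk2 hy1 (by norm_num) (by rw [abs_of_nonpos (by linarith)]; linarith) (by rw [neg_neg]; exact expn_le (by norm_num) (by norm_num) (by norm_num)) (by norm_num) (by norm_num)
    exact JB7_k0a_b5_0 hβ hN hx1 hx2 (by linarith) (by linarith)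
  rcases le_total (sy κ t) (-0.344) with f1 | g1
  · have hx1 : 1.0698 ≤ sx κ t := sx_lo h 0.8 (-0.344) 0.359 1.41057 1.0698 hk1 (by norm_num) f1 (abs_le.2 ⟨by linarith, by linarith⟩) (by rw [neg_neg]; exact expn_ge (by norm_num) (by norm_num)) (by norm_num) (by norm_num)
    have hx2 : sx κ t ≤ 1.2271 := sx_hi h 0.89 (-0.359) 0.344 1.4319 1.2271 hk2 g0 (by norm_num) (by rw [abs_of_nonpos (by linarith)]; linarith) (by rw [neg_neg]; exact expn_le (by norm_num) (by norm_num) (by norm_num)) (by norm_num) (by norm_num)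
    exact JB7_k0a_b5_1 hβ hN hx1 hx2 (by linarith) (by linarith)
  rcases le_total (sy κ t) (-0.314) with f2 | g2
  · have hx1 : 1.0396 ≤ sx κ t := sx_lo h 0.8 (-0.314) 0.344 1.36888 1.0396 hk1 (by norm_num) f2 (abs_le.2 ⟨by linarith, by linarith⟩) (by rw [neg_neg]; exact expn_ge (by norm_num) (by norm_num)) (by norm_num) (by norm_num)
    have hx2 : sx κ t ≤ 1.2156 := sx_hi h 0.89 (-0.344) 0.314 1.41058 1.2156 hk2 g1 (by norm_num) (by rw [abs_of_nonpos (by linarith)]; linarith) (by rw [neg_neg]; exact expn_le (by norm_num) (by norm_num) (by norm_num)) (by norm_num) (by norm_num)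
    exact JB7_k0a_b5_2 hβ hN hx1 hx2 (by linarith) (by linarith)
  rcases le_total (sy κ t) (-0.254) with f3 | g3
  · have hx1 : 0.9823 ≤ sx κ t := sx_lo h 0.8 (-0.254) 0.314 1.28917 0.9823 hk1 (by norm_num) f3 (abs_le.2 ⟨by linarith, by linarith⟩) (by rw [neg_neg]; exact expn_ge (by norm_num) (by norm_num)) (by norm_num) (by norm_num)
    have hx2 : sx κ t ≤ 1.1916 := sx_hi h 0.89 (-0.314) 0.254 1.36889 1.1916 hk2 g2 (by norm_num) (by rw [abs_of_nonpos (by linarith)]; linarith) (by rw [neg_neg]; exact expn_le (by norm_num) (by norm_num) (by norm_num)) (by norm_num) (by norm_num)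
    exact JB7_k0a_b5_3 hβ hN hx1 hx2 (by linarith) (by linarith)
  rcases le_total (sy κ t) (-0.129) with f4 | g4
  · have hx1 : 0.8739 ≤ sx κ t := sx_lo h 0.8 (-0.129) 0.254 1.13769 0.8739 hk1 (by norm_num) f4 (abs_le.2 ⟨by linarith, by linarith⟩) (by rw [neg_neg]; exact expn_ge (by norm_num) (by norm_num)) (by norm_num) (by norm_num)
    have hx2 : sx κ t ≤ 1.1401 := sx_hi h 0.89 (-0.254) 0.129 1.28918 1.1401 hk2 g3 (by norm_num) (by rw [abs_of_nonpos (by linarith)]; linarith) (by rw [neg_neg]; exact expn_le (by norm_num) (by norm_num) (by norm_num)) (by norm_num) (by norm_num)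
    exact JB7_k0a_b5_4 hβ hN hx1 hx2 (by linarith) (by linarith)
  have hx1 : 0.7695 ≤ sx κ t := sx_lo h 0.8 0.025 0.129 0.9753 0.7695 hk1 (by norm_num) hy2 (abs_le.2 ⟨by linarith, by linarith⟩) (expm_ge (by norm_num) (by norm_num) (by norm_num) (by norm_num)) (by norm_num) (by norm_num)
  have hx2 : sx κ t ≤ 1.0126 := sx_hi h 0.89 (-0.129) 0 1.1377 1.0126 hk2 g4 (by norm_num) (abs_nonneg _) (by rw [neg_neg]; exact expn_le (by norm_num) (by norm_num) (by norm_num)) (by norm_num) (by norm_num)
  exact JB7_k0a_b5_5 hβ hN hx1 hx2 (by linarith) (by linarith)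

private theorem JB7_k0a_b6_0 {β x y : ℝ} (hβ : 0 < β) (hN : β * 13.5 ≤ 1) (hx1 : 1.2115 ≤ x) (hx2 : x ≤ 1.3764)
    (hy1 : -0.361 ≤ y) (hy2 : y ≤ -0.351) : ‖HH β (x + y * I) - 1‖ ≤ 0.08 := by
  refine le_epsJ (C := 1.0615) (N0 := 13.5) (J_boxp 1.2115 1.3764 0.361 0 (-0.351) 1.3067 1.423 1.5218 0.8259 0.4922 3.6743 13.5 1.0891 4.849 1.651 0.5575 0.6533 0.4161 0.8531 2.1627 0.7462 2.1774 3.0123 3.2669 0.0001482 0.003638 0.000009972 0.0000003101 0.00004221 0.0000003101 0.0000003101 0.0000003101 1.0615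
    hβ hN hx1 hx2 hy1 hy2 (by norm_num) (by norm_num) (by linarith) (by norm_num) (by norm_num) (by norm_num) (by norm_num) (by norm_num) (by norm_num) (by norm_num) (by norm_num) (by norm_num) (by norm_num) (by norm_num) (by norm_num) (by norm_num) (by norm_num) (by norm_num) (by norm_num) (by norm_num) (by norm_num) (by norm_num) (by norm_num) (by norm_num)
    (cube_sqrt_geJ (s := 0.7981) (by norm_num) (by norm_num) (by norm_num) (by norm_num))
    (cube_sqrt_geJ (s := 0.9309) (by norm_num) (by norm_num) (by norm_num) (by norm_num))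
    (by norm_num) (by norm_num) (by norm_num) (by norm_num) (by norm_num) (by norm_num) (by norm_num) (by norm_num) (by norm_num) (by norm_num) (by norm_num) (by norm_num) (by norm_num) (by norm_num) (by norm_num) (by norm_num) (by norm_num) (by norm_num)
    (exp_neg_leJ (r := 0.819) 8 (by norm_num) (by norm_num) (by norm_num) (by norm_num))
    (exp_neg_leJ (r := 0.617) 5 (by norm_num) (by norm_num) (by norm_num) (by norm_num))
    (exp_neg_leJ (r := 0.516) 11 (by norm_num) (by norm_num) (by norm_num) (by norm_num))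
    (exp_neg_leJ (r := 0.99) 14 (by norm_num) (by norm_num) (by norm_num) (by norm_num))
    (exp_neg_leJ (r := 0.073) 10 (by norm_num) (by norm_num) (by norm_num) (by norm_num))
    (exp_neg_leJ (r := 0.99) 14 (by norm_num) (by norm_num) (by norm_num) (by norm_num))
    (exp_neg_leJ (r := 0.99) 14 (by norm_num) (by norm_num) (by norm_num) (by norm_num))
    (exp_neg_leJ (r := 0.99) 14 (by norm_num) (by norm_num) (by norm_num) (by norm_num))
    (by norm_num)) (by norm_num) hN hβ.le (by norm_num)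

private theorem JB7_k0a_b6_1 {β x y : ℝ} (hβ : 0 < β) (hN : β * 13.5 ≤ 1) (hx1 : 1.1884 ≤ x) (hx2 : x ≤ 1.3668)
    (hy1 : -0.351 ≤ y) (hy2 : y ≤ -0.331) : ‖HH β (x + y * I) - 1‖ ≤ 0.08 := by
  refine le_epsJ (C := 1.0702) (N0 := 13.5) (J_boxp 1.1884 1.3668 0.351 0 (-0.331) 1.2976 1.4112 1.5218 0.8346 0.4922 3.6743 13.5 1.0876 4.836 1.65 0.5704 0.6487 0.4135 0.861 2.2002 0.7405 2.1454 2.9933 3.2528 0.0001576 0.003767 0.000008962 0.0000003101 0.00004602 0.0000003101 0.0000003101 0.0000003101 1.0702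
    hβ hN hx1 hx2 hy1 hy2 (by norm_num) (by norm_num) (by linarith) (by norm_num) (by norm_num) (by norm_num) (by norm_num) (by norm_num) (by norm_num) (by norm_num) (by norm_num) (by norm_num) (by norm_num) (by norm_num) (by norm_num) (by norm_num) (by norm_num) (by norm_num) (by norm_num) (by norm_num) (by norm_num) (by norm_num) (by norm_num) (by norm_num)
    (cube_sqrt_geJ (s := 0.7984) (by norm_num) (by norm_num) (by norm_num) (by norm_num))
    (cube_sqrt_geJ (s := 0.931) (by norm_num) (by norm_num) (by norm_num) (by norm_num))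
    (by norm_num) (by norm_num) (by norm_num) (by norm_num) (by norm_num) (by norm_num) (by norm_num) (by norm_num) (by norm_num) (by norm_num) (by norm_num) (by norm_num) (by norm_num) (by norm_num) (by norm_num) (by norm_num) (by norm_num) (by norm_num)
    (exp_neg_leJ (r := 0.757) 8 (by norm_num) (by norm_num) (by norm_num) (by norm_num))
    (exp_neg_leJ (r := 0.582) 5 (by norm_num) (by norm_num) (by norm_num) (by norm_num))
    (exp_neg_leJ (r := 0.623) 11 (by norm_num) (by norm_num) (by norm_num) (by norm_num))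
    (exp_neg_leJ (r := 0.99) 14 (by norm_num) (by norm_num) (by norm_num) (by norm_num))
    (exp_neg_leJ (r := 0.99) 9 (by norm_num) (by norm_num) (by norm_num) (by norm_num))
    (exp_neg_leJ (r := 0.99) 14 (by norm_num) (by norm_num) (by norm_num) (by norm_num))
    (exp_neg_leJ (r := 0.99) 14 (by norm_num) (by norm_num) (by norm_num) (by norm_num))
    (exp_neg_leJ (r := 0.99) 14 (by norm_num) (by norm_num) (by norm_num) (by norm_num))
    (by norm_num)) (by norm_num) hN hβ.le (by norm_num)

private theorem JB7_k0a_b6_2 {β x y : ℝ} (hβ : 0 < β) (hN : β * 13.5 ≤ 1) (hx1 : 1.1498 ≤ x) (hx2 : x ≤ 1.3463)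
    (hy1 : -0.331 ≤ y) (hy2 : y ≤ -0.296) : ‖HH β (x + y * I) - 1‖ ≤ 0.08 := by
  refine le_epsJ (C := 1.0633) (N0 := 13.5) (J_boxp 1.1498 1.3463 0.331 0 (-0.296) 1.2846 1.3864 1.5193 0.8466 0.4918 3.6743 13.5 1.0793 4.763 1.643 0.5967 0.6422 0.4112 0.8793 2.276 0.7326 2.092 2.9705 3.243 0.000172 0.003885 0.000007012 0.0000003101 0.0000508 0.0000003101 0.0000003101 0.0000003101 1.0633
    hβ hN hx1 hx2 hy1 hy2 (by norm_num) (by norm_num) (by linarith) (by norm_num) (by norm_num) (by norm_num) (by norm_num) (by norm_num) (by norm_num) (by norm_num) (by norm_num) (by norm_num) (by norm_num) (by norm_num) (by norm_num) (by norm_num) (by norm_num) (by norm_num) (by norm_num) (by norm_num) (by norm_num) (by norm_num) (by norm_num) (by norm_num)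
    (cube_sqrt_geJ (s := 0.8001) (by norm_num) (by norm_num) (by norm_num) (by norm_num))
    (cube_sqrt_geJ (s := 0.9315) (by norm_num) (by norm_num) (by norm_num) (by norm_num))
    (by norm_num) (by norm_num) (by norm_num) (by norm_num) (by norm_num) (by norm_num) (by norm_num) (by norm_num) (by norm_num) (by norm_num) (by norm_num) (by norm_num) (by norm_num) (by norm_num) (by norm_num) (by norm_num) (by norm_num) (by norm_num)
    (exp_neg_leJ (r := 0.669) 8 (by norm_num) (by norm_num) (by norm_num) (by norm_num))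
    (exp_neg_leJ (r := 0.551) 5 (by norm_num) (by norm_num) (by norm_num) (by norm_num))
    (exp_neg_leJ (r := 0.87) 11 (by norm_num) (by norm_num) (by norm_num) (by norm_num))
    (exp_neg_leJ (r := 0.99) 14 (by norm_num) (by norm_num) (by norm_num) (by norm_num))
    (exp_neg_leJ (r := 0.89) 9 (by norm_num) (by norm_num) (by norm_num) (by norm_num))
    (exp_neg_leJ (r := 0.99) 14 (by norm_num) (by norm_num) (by norm_num) (by norm_num))
    (exp_neg_leJ (r := 0.99) 14 (by norm_num) (by norm_num) (by norm_num) (by norm_num))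
    (exp_neg_leJ (r := 0.99) 14 (by norm_num) (by norm_num) (by norm_num) (by norm_num))
    (by norm_num)) (by norm_num) hN hβ.le (by norm_num)

private theorem JB7_k0a_b6_3 {β x y : ℝ} (hβ : 0 < β) (hN : β * 13.5 ≤ 1) (hx1 : 1.0756 ≤ x) (hx2 : x ≤ 1.3118)
    (hy1 : -0.296 ≤ y) (hy2 : y ≤ -0.226) : ‖HH β (x + y * I) - 1‖ ≤ 0.08 := by
  refine le_epsJ (C := 1.077) (N0 := 13.5) (J_boxp 1.0756 1.3118 0.296 0 (-0.226) 1.2572 1.3448 1.5232 0.8756 0.4924 3.6743 13.5 1.0697 4.681 1.635 0.6423 0.6285 0.4044 0.9092 2.4077 0.7157 1.9892 2.9172 3.2077 0.0002068 0.004259 0.000004672 0.0000003101 0.00006377 0.0000003101 0.0000003101 0.0000003101 1.077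
    hβ hN hx1 hx2 hy1 hy2 (by norm_num) (by norm_num) (by linarith) (by norm_num) (by norm_num) (by norm_num) (by norm_num) (by norm_num) (by norm_num) (by norm_num) (by norm_num) (by norm_num) (by norm_num) (by norm_num) (by norm_num) (by norm_num) (by norm_num) (by norm_num) (by norm_num) (by norm_num) (by norm_num) (by norm_num) (by norm_num) (by norm_num)
    (cube_sqrt_geJ (s := 0.8021) (by norm_num) (by norm_num) (by norm_num) (by norm_num))
    (cube_sqrt_geJ (s := 0.9322) (by norm_num) (by norm_num) (by norm_num) (by norm_num))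
    (by norm_num) (by norm_num) (by norm_num) (by norm_num) (by norm_num) (by norm_num) (by norm_num) (by norm_num) (by norm_num) (by norm_num) (by norm_num) (by norm_num) (by norm_num) (by norm_num) (by norm_num) (by norm_num) (by norm_num) (by norm_num)
    (exp_neg_leJ (r := 0.484) 8 (by norm_num) (by norm_num) (by norm_num) (by norm_num))
    (exp_neg_leJ (r := 0.459) 5 (by norm_num) (by norm_num) (by norm_num) (by norm_num))
    (exp_neg_leJ (r := 0.274) 12 (by norm_num) (by norm_num) (by norm_num) (by norm_num))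
    (exp_neg_leJ (r := 0.99) 14 (by norm_num) (by norm_num) (by norm_num) (by norm_num))
    (exp_neg_leJ (r := 0.661) 9 (by norm_num) (by norm_num) (by norm_num) (by norm_num))
    (exp_neg_leJ (r := 0.99) 14 (by norm_num) (by norm_num) (by norm_num) (by norm_num))
    (exp_neg_leJ (r := 0.99) 14 (by norm_num) (by norm_num) (by norm_num) (by norm_num))
    (exp_neg_leJ (r := 0.99) 14 (by norm_num) (by norm_num) (by norm_num) (by norm_num))
    (by norm_num)) (by norm_num) hN hβ.le (by norm_num)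

private theorem JB7_k0a_b6_4 {β x y : ℝ} (hβ : 0 < β) (hN : β * 13.5 ≤ 1) (hx1 : 0.9382 ≤ x) (hx2 : x ≤ 1.2384)
    (hy1 : -0.226 ≤ y) (hy2 : y ≤ -0.081) : ‖HH β (x + y * I) - 1‖ ≤ 0.08 := by
  refine le_epsJ (C := 1.069) (N0 := 13.5) (J_boxp 0.9382 1.2384 0.226 0 (-0.081) 1.2102 1.2589 1.5422 0.9328 0.4955 3.6743 13.5 1.0403 4.439 1.612 0.7351 0.605 0.3952 0.9727 2.6732 0.6872 1.799 2.8327 3.1664 0.0002839 0.004821 0.000001983 0.0000003101 0.00009356 0.0000003101 0.0000003101 0.0000003101 1.069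
    hβ hN hx1 hx2 hy1 hy2 (by norm_num) (by norm_num) (by linarith) (by norm_num) (by norm_num) (by norm_num) (by norm_num) (by norm_num) (by norm_num) (by norm_num) (by norm_num) (by norm_num) (by norm_num) (by norm_num) (by norm_num) (by norm_num) (by norm_num) (by norm_num) (by norm_num) (by norm_num) (by norm_num) (by norm_num) (by norm_num) (by norm_num)
    (cube_sqrt_geJ (s := 0.8082) (by norm_num) (by norm_num) (by norm_num) (by norm_num))
    (cube_sqrt_geJ (s := 0.9341) (by norm_num) (by norm_num) (by norm_num) (by norm_num))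
    (by norm_num) (by norm_num) (by norm_num) (by norm_num) (by norm_num) (by norm_num) (by norm_num) (by norm_num) (by norm_num) (by norm_num) (by norm_num) (by norm_num) (by norm_num) (by norm_num) (by norm_num) (by norm_num) (by norm_num) (by norm_num)
    (exp_neg_leJ (r := 0.167) 8 (by norm_num) (by norm_num) (by norm_num) (by norm_num))
    (exp_neg_leJ (r := 0.335) 5 (by norm_num) (by norm_num) (by norm_num) (by norm_num))
    (exp_neg_leJ (r := 0.131) 13 (by norm_num) (by norm_num) (by norm_num) (by norm_num))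
    (exp_neg_leJ (r := 0.99) 14 (by norm_num) (by norm_num) (by norm_num) (by norm_num))
    (exp_neg_leJ (r := 0.277) 9 (by norm_num) (by norm_num) (by norm_num) (by norm_num))
    (exp_neg_leJ (r := 0.99) 14 (by norm_num) (by norm_num) (by norm_num) (by norm_num))
    (exp_neg_leJ (r := 0.99) 14 (by norm_num) (by norm_num) (by norm_num) (by norm_num))
    (exp_neg_leJ (r := 0.99) 14 (by norm_num) (by norm_num) (by norm_num) (by norm_num))
    (by norm_num)) (by norm_num) hN hβ.le (by norm_num)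

private theorem JB7_k0a_b6_5 {β x y : ℝ} (hβ : 0 < β) (hN : β * 13.5 ≤ 1) (hx1 : 0.8642 ≤ x) (hx2 : x ≤ 1.0736)
    (hy1 : -0.081 ≤ y) (hy2 : y ≤ 0.025) : ‖HH β (x + y * I) - 1‖ ≤ 0.08 := by
  refine le_epsJ (C := 0.5725) (N0 := 13.5) (J_boxp 0.8642 1.0736 0.081 0.025 0.025 1.261 1.0767 1.4844 0.8605 0.4861 3.6743 13.5 0.8539 3.23 1.472 0.9324 0.6304 0.451 1.1762 3.2283 0.7279 1.694 2.9716 3.3959 0.0002015 0.00227 0.0000003101 0.0000003101 0.00005412 0.0000003101 0.0000003101 0.0000003101 0.5725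
    hβ hN hx1 hx2 hy1 hy2 (by norm_num) (by norm_num) (by linarith) (by norm_num) (by norm_num) (by norm_num) (by norm_num) (by norm_num) (by norm_num) (by norm_num) (by norm_num) (by norm_num) (by norm_num) (by norm_num) (by norm_num) (by norm_num) (by norm_num) (by norm_num) (by norm_num) (by norm_num) (by norm_num) (by norm_num) (by norm_num) (by norm_num)
    (cube_sqrt_geJ (s := 0.8457) (by norm_num) (by norm_num) (by norm_num) (by norm_num))
    (cube_sqrt_geJ (s := 0.9462) (by norm_num) (by norm_num) (by norm_num) (by norm_num))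
    (by norm_num) (by norm_num) (by norm_num) (by norm_num) (by norm_num) (by norm_num) (by norm_num) (by norm_num) (by norm_num) (by norm_num) (by norm_num) (by norm_num) (by norm_num) (by norm_num) (by norm_num) (by norm_num) (by norm_num) (by norm_num)
    (exp_neg_leJ (r := 0.51) 8 (by norm_num) (by norm_num) (by norm_num) (by norm_num))
    (exp_neg_leJ (r := 0.088) 6 (by norm_num) (by norm_num) (by norm_num) (by norm_num))
    (exp_neg_leJ (r := 0.99) 14 (by norm_num) (by norm_num) (by norm_num) (by norm_num))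
    (exp_neg_leJ (r := 0.99) 14 (by norm_num) (by norm_num) (by norm_num) (by norm_num))
    (exp_neg_leJ (r := 0.826) 9 (by norm_num) (by norm_num) (by norm_num) (by norm_num))
    (exp_neg_leJ (r := 0.99) 14 (by norm_num) (by norm_num) (by norm_num) (by norm_num))
    (exp_neg_leJ (r := 0.99) 14 (by norm_num) (by norm_num) (by norm_num) (by norm_num))
    (exp_neg_leJ (r := 0.99) 14 (by norm_num) (by norm_num) (by norm_num) (by norm_num))
    (by norm_num)) (by norm_num) hN hβ.le (by norm_num)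

theorem JB7_k0a_c6 {κ t β : ℝ} (h : DomR κ t) (hβ : 0 < β) (hk1 : 0.89 ≤ κ) (hk2 : κ ≤ 0.99)
    (ht1 : -0.62 ≤ t + κ) (ht2 : t + κ ≤ 0.05) (hR0 : β * 10 ≤ κ) (hR : β * (6.75 * (1 + κ ^ 2)) ≤ κ) :
    ‖HH β (sg κ t) - 1‖ ≤ 0.08 := by
  have hN : β * 13.5 ≤ 1 := bNC hβ h.1 hk2 (by norm_num) (by norm_num) hR (by norm_num)
  have hy1 : -0.361 ≤ sy κ t := syL_ge h 0.89 0.99 0.62 0.361 0.69697 0.69698 0.2684 0.25414 0.28271 hk1 hk2 (by linarith) (by norm_num) (by norm_num) (by norm_num)
    (expm_ge (by norm_num) (by norm_num) (by norm_num) (by norm_num)) (expm_le (by norm_num) (by norm_num) (by norm_num)) (by norm_num)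
    (by norm_num) (by norm_num) (by norm_num) (by norm_num) (by norm_num) (by norm_num)
  have hy2 : sy κ t ≤ 0.025 := syR_le h 0.89 0.99 0.05 0.025 1.02531 0.0251 0.02589 0.02881 hk1 hk2 (by linarith) (by norm_num) (by norm_num)
    (expn_ge (by norm_num) (by norm_num)) (by norm_num) (by norm_num) (Or.inr ((mul_le_mul_of_nonneg_left (expn_le (E := 1.02532) (by norm_num) (by norm_num) (by norm_num)) (by norm_num)).trans (by norm_num))) (by norm_num) (by norm_num) (by norm_num)
  rcases le_total (sy κ t) (-0.351) with f0 | g0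
  · have hx1 : 1.2115 ≤ sx κ t := sx_lo h 0.89 (-0.351) 0.361 1.42048 1.2115 hk1 (by norm_num) f0 (abs_le.2 ⟨by linarith, by linarith⟩) (by rw [neg_neg]; exact expn_ge (by norm_num) (by norm_num)) (by norm_num) (by norm_num)
    have hx2 : sx κ t ≤ 1.3764 := sx_hi h 0.99 (-0.361) 0.351 1.43477 1.3764 hk2 hy1 (by norm_num) (by rw [abs_of_nonpos (by linarith)]; linarith) (by rw [neg_neg]; exact expn_le (by norm_num) (by norm_num) (by norm_num)) (by norm_num) (by norm_num)
    exact JB7_k0a_b6_0 hβ hN hx1 hx2 (by linarith) (by linarith)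
  rcases le_total (sy κ t) (-0.331) with f1 | g1
  · have hx1 : 1.1884 ≤ sx κ t := sx_lo h 0.89 (-0.331) 0.351 1.39235 1.1884 hk1 (by norm_num) f1 (abs_le.2 ⟨by linarith, by linarith⟩) (by rw [neg_neg]; exact expn_ge (by norm_num) (by norm_num)) (by norm_num) (by norm_num)
    have hx2 : sx κ t ≤ 1.3668 := sx_hi h 0.99 (-0.351) 0.331 1.42049 1.3668 hk2 g0 (by norm_num) (by rw [abs_of_nonpos (by linarith)]; linarith) (by rw [neg_neg]; exact expn_le (by norm_num) (by norm_num) (by norm_num)) (by norm_num) (by norm_num)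
    exact JB7_k0a_b6_1 hβ hN hx1 hx2 (by linarith) (by linarith)
  rcases le_total (sy κ t) (-0.296) with f2 | g2
  · have hx1 : 1.1498 ≤ sx κ t := sx_lo h 0.89 (-0.296) 0.331 1.34447 1.1498 hk1 (by norm_num) f2 (abs_le.2 ⟨by linarith, by linarith⟩) (by rw [neg_neg]; exact expn_ge (by norm_num) (by norm_num)) (by norm_num) (by norm_num)
    have hx2 : sx κ t ≤ 1.3463 := sx_hi h 0.99 (-0.331) 0.296 1.39236 1.3463 hk2 g1 (by norm_num) (by rw [abs_of_nonpos (by linarith)]; linarith) (by rw [neg_neg]; exact expn_le (by norm_num) (by norm_num) (by norm_num)) (by norm_num) (by norm_num)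
    exact JB7_k0a_b6_2 hβ hN hx1 hx2 (by linarith) (by linarith)
  rcases le_total (sy κ t) (-0.226) with f3 | g3
  · have hx1 : 1.0756 ≤ sx κ t := sx_lo h 0.89 (-0.226) 0.296 1.25357 1.0756 hk1 (by norm_num) f3 (abs_le.2 ⟨by linarith, by linarith⟩) (by rw [neg_neg]; exact expn_ge (by norm_num) (by norm_num)) (by norm_num) (by norm_num)
    have hx2 : sx κ t ≤ 1.3118 := sx_hi h 0.99 (-0.296) 0.226 1.34448 1.3118 hk2 g2 (by norm_num) (by rw [abs_of_nonpos (by linarith)]; linarith) (by rw [neg_neg]; exact expn_le (by norm_num) (by norm_num) (by norm_num)) (by norm_num) (by norm_num)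
    exact JB7_k0a_b6_3 hβ hN hx1 hx2 (by linarith) (by linarith)
  rcases le_total (sy κ t) (-0.081) with f4 | g4
  · have hx1 : 0.9382 ≤ sx κ t := sx_lo h 0.89 (-0.081) 0.226 1.08437 0.9382 hk1 (by norm_num) f4 (abs_le.2 ⟨by linarith, by linarith⟩) (by rw [neg_neg]; exact expn_ge (by norm_num) (by norm_num)) (by norm_num) (by norm_num)
    have hx2 : sx κ t ≤ 1.2384 := sx_hi h 0.99 (-0.226) 0.081 1.25358 1.2384 hk2 g3 (by norm_num) (by rw [abs_of_nonpos (by linarith)]; linarith) (by rw [neg_neg]; exact expn_le (by norm_num) (by norm_num) (by norm_num)) (by norm_num) (by norm_num)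
    exact JB7_k0a_b6_4 hβ hN hx1 hx2 (by linarith) (by linarith)
  have hx1 : 0.8642 ≤ sx κ t := sx_lo h 0.89 0.025 0.081 0.9753 0.8642 hk1 (by norm_num) hy2 (abs_le.2 ⟨by linarith, by linarith⟩) (expm_ge (by norm_num) (by norm_num) (by norm_num) (by norm_num)) (by norm_num) (by norm_num)
  have hx2 : sx κ t ≤ 1.0736 := sx_hi h 0.99 (-0.081) 0 1.08438 1.0736 hk2 g4 (by norm_num) (abs_nonneg _) (by rw [neg_neg]; exact expn_le (by norm_num) (by norm_num) (by norm_num)) (by norm_num) (by norm_num)
  exact JB7_k0a_b6_5 hβ hN hx1 hx2 (by linarith) (by linarith)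

private theorem JB7_k0a_b7_0 {β x y : ℝ} (hβ : 0 < β) (hN : β * 13.499 ≤ 1) (hx1 : 1.221 ≤ x) (hx2 : x ≤ 1.3957)
    (hy1 : -0.349 ≤ y) (hy2 : y ≤ -0.249) : ‖HH β (x + y * I) - 1‖ ≤ 0.08 := by
  refine le_epsJ (C := 1.0591) (N0 := 13.499) (J_boxp 1.221 1.3957 0.349 0 (-0.249) 1.322 1.4387 1.585 0.8283 0.5023 3.6741 13.499 1.0883 4.842 1.65 0.5611 0.6609 0.4212 0.8753 2.1902 0.7574 2.1906 3.064 3.2432 0.000134 0.003399 0.000007405 0.0000003101 0.00003629 0.0000003101 0.0000003101 0.0000003101 1.0591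
    hβ hN hx1 hx2 hy1 hy2 (by norm_num) (by norm_num) (by linarith) (by norm_num) (by norm_num) (by norm_num) (by norm_num) (by norm_num) (by norm_num) (by norm_num) (by norm_num) (by norm_num) (by norm_num) (by norm_num) (by norm_num) (by norm_num) (by norm_num) (by norm_num) (by norm_num) (by norm_num) (by norm_num) (by norm_num) (by norm_num) (by norm_num)
    (cube_sqrt_geJ (s := 0.7982) (by norm_num) (by norm_num) (by norm_num) (by norm_num))
    (cube_sqrt_geJ (s := 0.9309) (by norm_num) (by norm_num) (by norm_num) (by norm_num))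
    (by norm_num) (by norm_num) (by norm_num) (by norm_num) (by norm_num) (by norm_num) (by norm_num) (by norm_num) (by norm_num) (by norm_num) (by norm_num) (by norm_num) (by norm_num) (by norm_num) (by norm_num) (by norm_num) (by norm_num) (by norm_num)
    (exp_neg_leJ (r := 0.921) 8 (by norm_num) (by norm_num) (by norm_num) (by norm_num))
    (exp_neg_leJ (r := 0.685) 5 (by norm_num) (by norm_num) (by norm_num) (by norm_num))
    (exp_neg_leJ (r := 0.815) 11 (by norm_num) (by norm_num) (by norm_num) (by norm_num))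
    (exp_neg_leJ (r := 0.99) 14 (by norm_num) (by norm_num) (by norm_num) (by norm_num))
    (exp_neg_leJ (r := 0.224) 10 (by norm_num) (by norm_num) (by norm_num) (by norm_num))
    (exp_neg_leJ (r := 0.99) 14 (by norm_num) (by norm_num) (by norm_num) (by norm_num))
    (exp_neg_leJ (r := 0.99) 14 (by norm_num) (by norm_num) (by norm_num) (by norm_num))
    (exp_neg_leJ (r := 0.99) 14 (by norm_num) (by norm_num) (by norm_num) (by norm_num))
    (by norm_num)) (by norm_num) hN hβ.le (by norm_num)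

private theorem JB7_k0a_b7_1 {β x y : ℝ} (hβ : 0 < β) (hN : β * 13.499 ≤ 1) (hx1 : 1.0041 ≤ x) (hx2 : x ≤ 1.282)
    (hy1 : -0.249 ≤ y) (hy2 : y ≤ -0.044) : ‖HH β (x + y * I) - 1‖ ≤ 0.08 := by
  refine le_epsJ (C := 1.0795) (N0 := 13.499) (J_boxp 1.0041 1.282 0.249 0 (-0.044) 1.2402 1.306 1.5993 0.9157 0.5046 3.6741 13.499 1.0531 4.543 1.622 0.6971 0.62 0.4024 0.9589 2.5749 0.7067 1.8902 2.902 3.1702 0.000232 0.00438 0.000002398 0.0000003101 0.00007201 0.0000003101 0.0000003101 0.0000003101 1.0795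
    hβ hN hx1 hx2 hy1 hy2 (by norm_num) (by norm_num) (by linarith) (by norm_num) (by norm_num) (by norm_num) (by norm_num) (by norm_num) (by norm_num) (by norm_num) (by norm_num) (by norm_num) (by norm_num) (by norm_num) (by norm_num) (by norm_num) (by norm_num) (by norm_num) (by norm_num) (by norm_num) (by norm_num) (by norm_num) (by norm_num) (by norm_num)
    (cube_sqrt_geJ (s := 0.8055) (by norm_num) (by norm_num) (by norm_num) (by norm_num))
    (cube_sqrt_geJ (s := 0.9333) (by norm_num) (by norm_num) (by norm_num) (by norm_num))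
    (by norm_num) (by norm_num) (by norm_num) (by norm_num) (by norm_num) (by norm_num) (by norm_num) (by norm_num) (by norm_num) (by norm_num) (by norm_num) (by norm_num) (by norm_num) (by norm_num) (by norm_num) (by norm_num) (by norm_num) (by norm_num)
    (exp_neg_leJ (r := 0.369) 8 (by norm_num) (by norm_num) (by norm_num) (by norm_num))
    (exp_neg_leJ (r := 0.431) 5 (by norm_num) (by norm_num) (by norm_num) (by norm_num))
    (exp_neg_leJ (r := 0.944) 12 (by norm_num) (by norm_num) (by norm_num) (by norm_num))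
    (exp_neg_leJ (r := 0.99) 14 (by norm_num) (by norm_num) (by norm_num) (by norm_num))
    (exp_neg_leJ (r := 0.539) 9 (by norm_num) (by norm_num) (by norm_num) (by norm_num))
    (exp_neg_leJ (r := 0.99) 14 (by norm_num) (by norm_num) (by norm_num) (by norm_num))
    (exp_neg_leJ (r := 0.99) 14 (by norm_num) (by norm_num) (by norm_num) (by norm_num))
    (exp_neg_leJ (r := 0.99) 14 (by norm_num) (by norm_num) (by norm_num) (by norm_num))
    (by norm_num)) (by norm_num) hN hβ.le (by norm_num)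

private theorem JB7_k0a_b7_2 {β x y : ℝ} (hβ : 0 < β) (hN : β * 13.499 ≤ 1) (hx1 : 0.9645 ≤ x) (hx2 : x ≤ 1.045)
    (hy1 : -0.044 ≤ y) (hy2 : y ≤ 0.025) : ‖HH β (x + y * I) - 1‖ ≤ 0.08 := by
  refine le_epsJ (C := 0.3884) (N0 := 13.499) (J_boxp 0.9645 1.045 0.044 0.025 0.025 1.3579 1.046 1.4638 0.7647 0.4827 3.6741 13.499 0.7704 2.827 1.415 0.9775 0.6789 0.5045 1.2689 3.3615 0.7969 1.8329 3.2728 3.6799 0.0001048 0.001105 0.0000003101 0.0000003101 0.00002132 0.0000003101 0.0000003101 0.0000003101 0.3884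
    hβ hN hx1 hx2 hy1 hy2 (by norm_num) (by norm_num) (by linarith) (by norm_num) (by norm_num) (by norm_num) (by norm_num) (by norm_num) (by norm_num) (by norm_num) (by norm_num) (by norm_num) (by norm_num) (by norm_num) (by norm_num) (by norm_num) (by norm_num) (by norm_num) (by norm_num) (by norm_num) (by norm_num) (by norm_num) (by norm_num) (by norm_num)
    (cube_sqrt_geJ (s := 0.862) (by norm_num) (by norm_num) (by norm_num) (by norm_num))
    (cube_sqrt_geJ (s := 0.9516) (by norm_num) (by norm_num) (by norm_num) (by norm_num))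
    (by norm_num) (by norm_num) (by norm_num) (by norm_num) (by norm_num) (by norm_num) (by norm_num) (by norm_num) (by norm_num) (by norm_num) (by norm_num) (by norm_num) (by norm_num) (by norm_num) (by norm_num) (by norm_num) (by norm_num) (by norm_num)
    (exp_neg_leJ (r := 0.164) 9 (by norm_num) (by norm_num) (by norm_num) (by norm_num))
    (exp_neg_leJ (r := 0.81) 6 (by norm_num) (by norm_num) (by norm_num) (by norm_num))
    (exp_neg_leJ (r := 0.99) 14 (by norm_num) (by norm_num) (by norm_num) (by norm_num))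
    (exp_neg_leJ (r := 0.99) 14 (by norm_num) (by norm_num) (by norm_num) (by norm_num))
    (exp_neg_leJ (r := 0.757) 10 (by norm_num) (by norm_num) (by norm_num) (by norm_num))
    (exp_neg_leJ (r := 0.99) 14 (by norm_num) (by norm_num) (by norm_num) (by norm_num))
    (exp_neg_leJ (r := 0.99) 14 (by norm_num) (by norm_num) (by norm_num) (by norm_num))
    (exp_neg_leJ (r := 0.99) 14 (by norm_num) (by norm_num) (by norm_num) (by norm_num))
    (by norm_num)) (by norm_num) hN hβ.le (by norm_num)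

theorem JB7_k0a_c7 {κ t β : ℝ} (h : DomR κ t) (hβ : 0 < β) (hk1 : 0.99 ≤ κ) (hk2 : κ ≤ 1)
    (ht1 : -0.62 ≤ t + κ) (ht2 : t + κ ≤ 0.05) (hR0 : β * 10 ≤ κ) (hR : β * (6.75 * (1 + κ ^ 2)) ≤ κ) :
    ‖HH β (sg κ t) - 1‖ ≤ 0.08 := by
  have hN : β * 13.499 ≤ 1 := bNC hβ h.1 hk2 (by norm_num) (by norm_num) hR (by norm_num)
  have hy1 : -0.349 ≤ sy κ t := syL_ge h 0.99 1 0.62 0.349 0.70539 0.7054 0.2455 0.24618 0.24868 hk1 hk2 (by linarith) (by norm_num) (by norm_num) (by norm_num)
    (expm_ge (by norm_num) (by norm_num) (by norm_num) (by norm_num)) (expm_le (by norm_num) (by norm_num) (by norm_num)) (by norm_num)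
    (by norm_num) (by norm_num) (by norm_num) (by norm_num) (by norm_num) (by norm_num)
  have hy2 : sy κ t ≤ 0.025 := syR_le h 0.99 1 0.05 0.025 1.02531 0.0255 0.02563 0.0259 hk1 hk2 (by linarith) (by norm_num) (by norm_num)
    (expn_ge (by norm_num) (by norm_num)) (by norm_num) (by norm_num) (Or.inr ((mul_le_mul_of_nonneg_left (expn_le (E := 1.02532) (by norm_num) (by norm_num) (by norm_num)) (by norm_num)).trans (by norm_num))) (by norm_num) (by norm_num) (by norm_num)
  rcases le_total (sy κ t) (-0.249) with f0 | g0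
  · have hx1 : 1.221 ≤ sx κ t := sx_lo h 0.99 (-0.249) 0.349 1.28274 1.221 hk1 (by norm_num) f0 (abs_le.2 ⟨by linarith, by linarith⟩) (by rw [neg_neg]; exact expn_ge (by norm_num) (by norm_num)) (by norm_num) (by norm_num)
    have hx2 : sx κ t ≤ 1.3957 := sx_hi h 1 (-0.349) 0.249 1.41765 1.3957 hk2 hy1 (by norm_num) (by rw [abs_of_nonpos (by linarith)]; linarith) (by rw [neg_neg]; exact expn_le (by norm_num) (by norm_num) (by norm_num)) (by norm_num) (by norm_num)
    exact JB7_k0a_b7_0 hβ hN hx1 hx2 (by linarith) (by linarith)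
  rcases le_total (sy κ t) (-0.044) with f1 | g1
  · have hx1 : 1.0041 ≤ sx κ t := sx_lo h 0.99 (-0.044) 0.249 1.04498 1.0041 hk1 (by norm_num) f1 (abs_le.2 ⟨by linarith, by linarith⟩) (by rw [neg_neg]; exact expn_ge (by norm_num) (by norm_num)) (by norm_num) (by norm_num)
    have hx2 : sx κ t ≤ 1.282 := sx_hi h 1 (-0.249) 0.044 1.28275 1.282 hk2 g0 (by norm_num) (by rw [abs_of_nonpos (by linarith)]; linarith) (by rw [neg_neg]; exact expn_le (by norm_num) (by norm_num) (by norm_num)) (by norm_num) (by norm_num)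
    exact JB7_k0a_b7_1 hβ hN hx1 hx2 (by linarith) (by linarith)
  have hx1 : 0.9645 ≤ sx κ t := sx_lo h 0.99 0.025 0.044 0.9753 0.9645 hk1 (by norm_num) hy2 (abs_le.2 ⟨by linarith, by linarith⟩) (expm_ge (by norm_num) (by norm_num) (by norm_num) (by norm_num)) (by norm_num) (by norm_num)
  have hx2 : sx κ t ≤ 1.045 := sx_hi h 1 (-0.044) 0 1.04499 1.045 hk2 g1 (by norm_num) (abs_nonneg _) (by rw [neg_neg]; exact expn_le (by norm_num) (by norm_num) (by norm_num)) (by norm_num) (by norm_num)
  exact JB7_k0a_b7_2 hβ hN hx1 hx2 (by linarith) (by linarith)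

private theorem JB7_k0a_b8_0 {β x y : ℝ} (hβ : 0 < β) (hN : β * 13.499 ≤ 1) (hx1 : 1.351 ≤ x) (hx2 : x ≤ 1.5509)
    (hy1 : -0.348 ≤ y) (hy2 : y ≤ -0.333) : ‖HH β (x + y * I) - 1‖ ≤ 0.08 := by
  refine le_epsJ (C := 1.0762) (N0 := 13.499) (J_boxp 1.351 1.5509 0.348 0 (-0.333) 1.4142 1.5895 1.6883 0.7727 0.5184 3.6741 13.499 1.124 5.172 1.68 0.5023 0.707 0.4421 0.9214 2.1047 0.8211 2.3706 3.3267 3.0933 0.00007173 0.002571 0.00000397 0.0000003101 0.00001536 0.0000003101 0.0000003101 0.0000003101 1.0762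
    hβ hN hx1 hx2 hy1 hy2 (by norm_num) (by norm_num) (by linarith) (by norm_num) (by norm_num) (by norm_num) (by norm_num) (by norm_num) (by norm_num) (by norm_num) (by norm_num) (by norm_num) (by norm_num) (by norm_num) (by norm_num) (by norm_num) (by norm_num) (by norm_num) (by norm_num) (by norm_num) (by norm_num) (by norm_num) (by norm_num) (by norm_num)
    (cube_sqrt_geJ (s := 0.7907) (by norm_num) (by norm_num) (by norm_num) (by norm_num))
    (cube_sqrt_geJ (s := 0.9286) (by norm_num) (by norm_num) (by norm_num) (by norm_num))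
    (by norm_num) (by norm_num) (by norm_num) (by norm_num) (by norm_num) (by norm_num) (by norm_num) (by norm_num) (by norm_num) (by norm_num) (by norm_num) (by norm_num) (by norm_num) (by norm_num) (by norm_num) (by norm_num) (by norm_num) (by norm_num)
    (exp_neg_leJ (r := 0.543) 9 (by norm_num) (by norm_num) (by norm_num) (by norm_num))
    (exp_neg_leJ (r := 0.967) 5 (by norm_num) (by norm_num) (by norm_num) (by norm_num))
    (exp_neg_leJ (r := 0.437) 12 (by norm_num) (by norm_num) (by norm_num) (by norm_num))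
    (exp_neg_leJ (r := 0.99) 14 (by norm_num) (by norm_num) (by norm_num) (by norm_num))
    (exp_neg_leJ (r := 0.084) 11 (by norm_num) (by norm_num) (by norm_num) (by norm_num))
    (exp_neg_leJ (r := 0.99) 14 (by norm_num) (by norm_num) (by norm_num) (by norm_num))
    (exp_neg_leJ (r := 0.99) 14 (by norm_num) (by norm_num) (by norm_num) (by norm_num))
    (exp_neg_leJ (r := 0.99) 14 (by norm_num) (by norm_num) (by norm_num) (by norm_num))
    (by norm_num)) (by norm_num) hN hβ.le (by norm_num)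

private theorem JB7_k0a_b8_1 {β x y : ℝ} (hβ : 0 < β) (hN : β * 13.499 ≤ 1) (hx1 : 1.3193 ≤ x) (hx2 : x ≤ 1.532)
    (hy1 : -0.333 ≤ y) (hy2 : y ≤ -0.308) : ‖HH β (x + y * I) - 1‖ ≤ 0.08 := by
  refine le_epsJ (C := 1.0706) (N0 := 13.499) (J_boxp 1.3193 1.532 0.333 0 (-0.308) 1.4025 1.5678 1.6811 0.7807 0.5173 3.6741 13.499 1.1179 5.114 1.675 0.5235 0.7012 0.4399 0.9342 2.1635 0.8139 2.3267 3.3041 3.0889 0.00007753 0.002645 0.00000334 0.0000003101 0.000017 0.0000003101 0.0000003101 0.0000003101 1.0706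
    hβ hN hx1 hx2 hy1 hy2 (by norm_num) (by norm_num) (by linarith) (by norm_num) (by norm_num) (by norm_num) (by norm_num) (by norm_num) (by norm_num) (by norm_num) (by norm_num) (by norm_num) (by norm_num) (by norm_num) (by norm_num) (by norm_num) (by norm_num) (by norm_num) (by norm_num) (by norm_num) (by norm_num) (by norm_num) (by norm_num) (by norm_num)
    (cube_sqrt_geJ (s := 0.792) (by norm_num) (by norm_num) (by norm_num) (by norm_num))
    (cube_sqrt_geJ (s := 0.929) (by norm_num) (by norm_num) (by norm_num) (by norm_num))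
    (by norm_num) (by norm_num) (by norm_num) (by norm_num) (by norm_num) (by norm_num) (by norm_num) (by norm_num) (by norm_num) (by norm_num) (by norm_num) (by norm_num) (by norm_num) (by norm_num) (by norm_num) (by norm_num) (by norm_num) (by norm_num)
    (exp_neg_leJ (r := 0.465) 9 (by norm_num) (by norm_num) (by norm_num) (by norm_num))
    (exp_neg_leJ (r := 0.938) 5 (by norm_num) (by norm_num) (by norm_num) (by norm_num))
    (exp_neg_leJ (r := 0.61) 12 (by norm_num) (by norm_num) (by norm_num) (by norm_num))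
    (exp_neg_leJ (r := 0.99) 14 (by norm_num) (by norm_num) (by norm_num) (by norm_num))
    (exp_neg_leJ (r := 0.986) 10 (by norm_num) (by norm_num) (by norm_num) (by norm_num))
    (exp_neg_leJ (r := 0.99) 14 (by norm_num) (by norm_num) (by norm_num) (by norm_num))
    (exp_neg_leJ (r := 0.99) 14 (by norm_num) (by norm_num) (by norm_num) (by norm_num))
    (exp_neg_leJ (r := 0.99) 14 (by norm_num) (by norm_num) (by norm_num) (by norm_num))
    (by norm_num)) (by norm_num) hN hβ.le (by norm_num)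

private theorem JB7_k0a_b8_2 {β x y : ℝ} (hβ : 0 < β) (hN : β * 13.499 ≤ 1) (hx1 : 1.2638 ≤ x) (hx2 : x ≤ 1.5012)
    (hy1 : -0.308 ≤ y) (hy2 : y ≤ -0.263) : ‖HH β (x + y * I) - 1‖ ≤ 0.08 := by
  refine le_epsJ (C := 1.0707) (N0 := 13.499) (J_boxp 1.2638 1.5012 0.308 0 (-0.263) 1.3812 1.5325 1.6724 0.7967 0.516 3.6741 13.499 1.1096 5.035 1.668 0.5584 0.6905 0.4351 0.9547 2.261 0.8006 2.2498 3.261 3.0739 0.00008953 0.002821 0.000002537 0.0000003101 0.00002029 0.0000003101 0.0000003101 0.0000003101 1.0707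
    hβ hN hx1 hx2 hy1 hy2 (by norm_num) (by norm_num) (by linarith) (by norm_num) (by norm_num) (by norm_num) (by norm_num) (by norm_num) (by norm_num) (by norm_num) (by norm_num) (by norm_num) (by norm_num) (by norm_num) (by norm_num) (by norm_num) (by norm_num) (by norm_num) (by norm_num) (by norm_num) (by norm_num) (by norm_num) (by norm_num) (by norm_num)
    (cube_sqrt_geJ (s := 0.7938) (by norm_num) (by norm_num) (by norm_num) (by norm_num))
    (cube_sqrt_geJ (s := 0.9295) (by norm_num) (by norm_num) (by norm_num) (by norm_num))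
    (by norm_num) (by norm_num) (by norm_num) (by norm_num) (by norm_num) (by norm_num) (by norm_num) (by norm_num) (by norm_num) (by norm_num) (by norm_num) (by norm_num) (by norm_num) (by norm_num) (by norm_num) (by norm_num) (by norm_num) (by norm_num)
    (exp_neg_leJ (r := 0.321) 9 (by norm_num) (by norm_num) (by norm_num) (by norm_num))
    (exp_neg_leJ (r := 0.873) 5 (by norm_num) (by norm_num) (by norm_num) (by norm_num))
    (exp_neg_leJ (r := 0.887) 12 (by norm_num) (by norm_num) (by norm_num) (by norm_num))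
    (exp_neg_leJ (r := 0.99) 14 (by norm_num) (by norm_num) (by norm_num) (by norm_num))
    (exp_neg_leJ (r := 0.807) 10 (by norm_num) (by norm_num) (by norm_num) (by norm_num))
    (exp_neg_leJ (r := 0.99) 14 (by norm_num) (by norm_num) (by norm_num) (by norm_num))
    (exp_neg_leJ (r := 0.99) 14 (by norm_num) (by norm_num) (by norm_num) (by norm_num))
    (exp_neg_leJ (r := 0.99) 14 (by norm_num) (by norm_num) (by norm_num) (by norm_num))
    (by norm_num)) (by norm_num) hN hβ.le (by norm_num)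

private theorem JB7_k0a_b8_3 {β x y : ℝ} (hβ : 0 < β) (hN : β * 13.499 ≤ 1) (hx1 : 1.1655 ≤ x) (hx2 : x ≤ 1.4461)
    (hy1 : -0.263 ≤ y) (hy2 : y ≤ -0.178) : ‖HH β (x + y * I) - 1‖ ≤ 0.08 := by
  refine le_epsJ (C := 1.0709) (N0 := 13.499) (J_boxp 1.1655 1.4461 0.263 0 (-0.178) 1.3439 1.4699 1.6634 0.8279 0.5146 3.6741 13.499 1.0938 4.891 1.655 0.6211 0.6719 0.4269 0.9921 2.4361 0.7774 2.1137 3.1867 3.0474 0.0001152 0.003149 0.000001528 0.0000003101 0.00002771 0.0000003101 0.0000003101 0.0000003101 1.0709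
    hβ hN hx1 hx2 hy1 hy2 (by norm_num) (by norm_num) (by linarith) (by norm_num) (by norm_num) (by norm_num) (by norm_num) (by norm_num) (by norm_num) (by norm_num) (by norm_num) (by norm_num) (by norm_num) (by norm_num) (by norm_num) (by norm_num) (by norm_num) (by norm_num) (by norm_num) (by norm_num) (by norm_num) (by norm_num) (by norm_num) (by norm_num)
    (cube_sqrt_geJ (s := 0.7971) (by norm_num) (by norm_num) (by norm_num) (by norm_num))
    (cube_sqrt_geJ (s := 0.9306) (by norm_num) (by norm_num) (by norm_num) (by norm_num))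
    (by norm_num) (by norm_num) (by norm_num) (by norm_num) (by norm_num) (by norm_num) (by norm_num) (by norm_num) (by norm_num) (by norm_num) (by norm_num) (by norm_num) (by norm_num) (by norm_num) (by norm_num) (by norm_num) (by norm_num) (by norm_num)
    (exp_neg_leJ (r := 0.069) 9 (by norm_num) (by norm_num) (by norm_num) (by norm_num))
    (exp_neg_leJ (r := 0.762) 5 (by norm_num) (by norm_num) (by norm_num) (by norm_num))
    (exp_neg_leJ (r := 0.392) 13 (by norm_num) (by norm_num) (by norm_num) (by norm_num))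
    (exp_neg_leJ (r := 0.99) 14 (by norm_num) (by norm_num) (by norm_num) (by norm_num))
    (exp_neg_leJ (r := 0.494) 10 (by norm_num) (by norm_num) (by norm_num) (by norm_num))
    (exp_neg_leJ (r := 0.99) 14 (by norm_num) (by norm_num) (by norm_num) (by norm_num))
    (exp_neg_leJ (r := 0.99) 14 (by norm_num) (by norm_num) (by norm_num) (by norm_num))
    (exp_neg_leJ (r := 0.99) 14 (by norm_num) (by norm_num) (by norm_num) (by norm_num))
    (by norm_num)) (by norm_num) hN hβ.le (by norm_num)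

private theorem JB7_k0a_b8_4 {β x y : ℝ} (hβ : 0 < β) (hN : β * 13.499 ≤ 1) (hx1 : 0.984 ≤ x) (hx2 : x ≤ 1.3383)
    (hy1 : -0.178 ≤ y) (hy2 : y ≤ 0) : ‖HH β (x + y * I) - 1‖ ≤ 0.08 := by
  refine le_epsJ (C := 1.0612) (N0 := 13.499) (J_boxp 0.984 1.3383 0.178 0 0 1.2765 1.3501 1.6707 0.8963 0.5157 3.6741 13.499 1.0577 4.58 1.625 0.741 0.6382 0.4132 1.0641 2.7685 0.7357 1.8624 3.0548 3.0101 0.0001815 0.003786 0.0000005779 0.0000003101 0.00004878 0.0000003101 0.0000003101 0.0000003101 1.0612
    hβ hN hx1 hx2 hy1 hy2 (by norm_num) (by norm_num) (by linarith) (by norm_num) (by norm_num) (by norm_num) (by norm_num) (by norm_num) (by norm_num) (by norm_num) (by norm_num) (by norm_num) (by norm_num) (by norm_num) (by norm_num) (by norm_num) (by norm_num) (by norm_num) (by norm_num) (by norm_num) (by norm_num) (by norm_num) (by norm_num) (by norm_num)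
    (cube_sqrt_geJ (s := 0.8046) (by norm_num) (by norm_num) (by norm_num) (by norm_num))
    (cube_sqrt_geJ (s := 0.933) (by norm_num) (by norm_num) (by norm_num) (by norm_num))
    (by norm_num) (by norm_num) (by norm_num) (by norm_num) (by norm_num) (by norm_num) (by norm_num) (by norm_num) (by norm_num) (by norm_num) (by norm_num) (by norm_num) (by norm_num) (by norm_num) (by norm_num) (by norm_num) (by norm_num) (by norm_num)
    (exp_neg_leJ (r := 0.615) 8 (by norm_num) (by norm_num) (by norm_num) (by norm_num))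
    (exp_neg_leJ (r := 0.577) 5 (by norm_num) (by norm_num) (by norm_num) (by norm_num))
    (exp_neg_leJ (r := 0.364) 14 (by norm_num) (by norm_num) (by norm_num) (by norm_num))
    (exp_neg_leJ (r := 0.99) 14 (by norm_num) (by norm_num) (by norm_num) (by norm_num))
    (exp_neg_leJ (r := 0.931) 9 (by norm_num) (by norm_num) (by norm_num) (by norm_num))
    (exp_neg_leJ (r := 0.99) 14 (by norm_num) (by norm_num) (by norm_num) (by norm_num))
    (exp_neg_leJ (r := 0.99) 14 (by norm_num) (by norm_num) (by norm_num) (by norm_num))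
    (exp_neg_leJ (r := 0.99) 14 (by norm_num) (by norm_num) (by norm_num) (by norm_num))
    (by norm_num)) (by norm_num) hN hβ.le (by norm_num)

private theorem JB7_k0a_b8_5 {β x y : ℝ} (hβ : 0 < β) (hN : β * 13.499 ≤ 1) (hx1 : 0.9749 ≤ x) (hx2 : x ≤ 1.1201)
    (hy1 : -0 ≤ y) (hy2 : y ≤ 0.025) : ‖HH β (x + y * I) - 1‖ ≤ 0.08 := by
  refine le_epsJ (C := 0.4145) (N0 := 13.499) (J_boxp 0.9749 1.1201 0 0.025 0.025 1.3965 1.1204 1.5184 0.7467 0.4916 3.6741 13.499 0.8023 2.972 1.437 0.9893 0.6982 0.5115 1.3419 3.4564 0.826 1.8473 3.4132 3.4985 0.00008069 0.001007 0.0000003101 0.0000003101 0.00001438 0.0000003101 0.0000003101 0.0000003101 0.4145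
    hβ hN hx1 hx2 hy1 hy2 (by norm_num) (by norm_num) (by linarith) (by norm_num) (by norm_num) (by norm_num) (by norm_num) (by norm_num) (by norm_num) (by norm_num) (by norm_num) (by norm_num) (by norm_num) (by norm_num) (by norm_num) (by norm_num) (by norm_num) (by norm_num) (by norm_num) (by norm_num) (by norm_num) (by norm_num) (by norm_num) (by norm_num)
    (cube_sqrt_geJ (s := 0.8559) (by norm_num) (by norm_num) (by norm_num) (by norm_num))
    (cube_sqrt_geJ (s := 0.9496) (by norm_num) (by norm_num) (by norm_num) (by norm_num))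
    (by norm_num) (by norm_num) (by norm_num) (by norm_num) (by norm_num) (by norm_num) (by norm_num) (by norm_num) (by norm_num) (by norm_num) (by norm_num) (by norm_num) (by norm_num) (by norm_num) (by norm_num) (by norm_num) (by norm_num) (by norm_num)
    (exp_neg_leJ (r := 0.425) 9 (by norm_num) (by norm_num) (by norm_num) (by norm_num))
    (exp_neg_leJ (r := 0.904) 6 (by norm_num) (by norm_num) (by norm_num) (by norm_num))
    (exp_neg_leJ (r := 0.99) 14 (by norm_num) (by norm_num) (by norm_num) (by norm_num))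
    (exp_neg_leJ (r := 0.99) 14 (by norm_num) (by norm_num) (by norm_num) (by norm_num))
    (exp_neg_leJ (r := 0.15) 11 (by norm_num) (by norm_num) (by norm_num) (by norm_num))
    (exp_neg_leJ (r := 0.99) 14 (by norm_num) (by norm_num) (by norm_num) (by norm_num))
    (exp_neg_leJ (r := 0.99) 14 (by norm_num) (by norm_num) (by norm_num) (by norm_num))
    (exp_neg_leJ (r := 0.99) 14 (by norm_num) (by norm_num) (by norm_num) (by norm_num))
    (by norm_num)) (by norm_num) hN hβ.le (by norm_num)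

theorem JB7_k0a_c8 {κ t β : ℝ} (h : DomR κ t) (hβ : 0 < β) (hk1 : 1 ≤ κ) (hk2 : κ ≤ 1.12)
    (ht1 : -0.62 ≤ t + κ) (ht2 : t + κ ≤ 0.05) (hR0 : β * 10 ≤ κ) (hR : β * (6.75 * (1 + κ ^ 2)) ≤ κ) :
    ‖HH β (sg κ t) - 1‖ ≤ 0.08 := by
  have hN : β * 13.499 ≤ 1 := bNC' hβ hk1 (by norm_num) (by norm_num) hR (by norm_num)
  have hy1 : -0.348 ≤ sy κ t := syL_ge h 1 1.12 0.62 0.348 0.70609 0.7061 0.2325 0.21939 0.24573 hk1 hk2 (by linarith) (by norm_num) (by norm_num) (by norm_num)
    (expm_ge (by norm_num) (by norm_num) (by norm_num) (by norm_num)) (expm_le (by norm_num) (by norm_num) (by norm_num)) (by norm_num)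
    (by norm_num) (by norm_num) (by norm_num) (by norm_num) (by norm_num) (by norm_num)
  have hy2 : sy κ t ≤ 0.025 := syR_le h 1 1.12 0.05 0.025 1.02531 0.0221 0.02288 0.02564 hk1 hk2 (by linarith) (by norm_num) (by norm_num)
    (expn_ge (by norm_num) (by norm_num)) (by norm_num) (by norm_num) (Or.inr ((mul_le_mul_of_nonneg_left (expn_le (E := 1.02532) (by norm_num) (by norm_num) (by norm_num)) (by norm_num)).trans (by norm_num))) (by norm_num) (by norm_num) (by norm_num)
  rcases le_total (sy κ t) (-0.333) with f0 | g0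
  · have hx1 : 1.351 ≤ sx κ t := sx_lo h 1 (-0.333) 0.348 1.39514 1.351 hk1 (by norm_num) f0 (abs_le.2 ⟨by linarith, by linarith⟩) (by rw [neg_neg]; exact expn_ge (by norm_num) (by norm_num)) (by norm_num) (by norm_num)
    have hx2 : sx κ t ≤ 1.5509 := sx_hi h 1.12 (-0.348) 0.333 1.41624 1.5509 hk2 hy1 (by norm_num) (by rw [abs_of_nonpos (by linarith)]; linarith) (by rw [neg_neg]; exact expn_le (by norm_num) (by norm_num) (by norm_num)) (by norm_num) (by norm_num)
    exact JB7_k0a_b8_0 hβ hN hx1 hx2 (by linarith) (by linarith)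
  rcases le_total (sy κ t) (-0.308) with f1 | g1
  · have hx1 : 1.3193 ≤ sx κ t := sx_lo h 1 (-0.308) 0.333 1.3607 1.3193 hk1 (by norm_num) f1 (abs_le.2 ⟨by linarith, by linarith⟩) (by rw [neg_neg]; exact expn_ge (by norm_num) (by norm_num)) (by norm_num) (by norm_num)
    have hx2 : sx κ t ≤ 1.532 := sx_hi h 1.12 (-0.333) 0.308 1.39515 1.532 hk2 g0 (by norm_num) (by rw [abs_of_nonpos (by linarith)]; linarith) (by rw [neg_neg]; exact expn_le (by norm_num) (by norm_num) (by norm_num)) (by norm_num) (by norm_num)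
    exact JB7_k0a_b8_1 hβ hN hx1 hx2 (by linarith) (by linarith)
  rcases le_total (sy κ t) (-0.263) with f2 | g2
  · have hx1 : 1.2638 ≤ sx κ t := sx_lo h 1 (-0.263) 0.308 1.30082 1.2638 hk1 (by norm_num) f2 (abs_le.2 ⟨by linarith, by linarith⟩) (by rw [neg_neg]; exact expn_ge (by norm_num) (by norm_num)) (by norm_num) (by norm_num)
    have hx2 : sx κ t ≤ 1.5012 := sx_hi h 1.12 (-0.308) 0.263 1.36071 1.5012 hk2 g1 (by norm_num) (by rw [abs_of_nonpos (by linarith)]; linarith) (by rw [neg_neg]; exact expn_le (by norm_num) (by norm_num) (by norm_num)) (by norm_num) (by norm_num)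
    exact JB7_k0a_b8_2 hβ hN hx1 hx2 (by linarith) (by linarith)
  rcases le_total (sy κ t) (-0.178) with f3 | g3
  · have hx1 : 1.1655 ≤ sx κ t := sx_lo h 1 (-0.178) 0.263 1.19482 1.1655 hk1 (by norm_num) f3 (abs_le.2 ⟨by linarith, by linarith⟩) (by rw [neg_neg]; exact expn_ge (by norm_num) (by norm_num)) (by norm_num) (by norm_num)
    have hx2 : sx κ t ≤ 1.4461 := sx_hi h 1.12 (-0.263) 0.178 1.30083 1.4461 hk2 g2 (by norm_num) (by rw [abs_of_nonpos (by linarith)]; linarith) (by rw [neg_neg]; exact expn_le (by norm_num) (by norm_num) (by norm_num)) (by norm_num) (by norm_num)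
    exact JB7_k0a_b8_3 hβ hN hx1 hx2 (by linarith) (by linarith)
  rcases le_total (sy κ t) 0 with f4 | g4
  · have hx1 : 0.984 ≤ sx κ t := sx_lo h 1 0 0.178 1 0.984 hk1 (by norm_num) f4 (abs_le.2 ⟨by linarith, by linarith⟩) (by simp) (by norm_num) (by norm_num)
    have hx2 : sx κ t ≤ 1.3383 := sx_hi h 1.12 (-0.178) 0 1.19483 1.3383 hk2 g3 (by norm_num) (abs_nonneg _) (by rw [neg_neg]; exact expn_le (by norm_num) (by norm_num) (by norm_num)) (by norm_num) (by norm_num)
    exact JB7_k0a_b8_4 hβ hN hx1 hx2 (by linarith) (by linarith)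
  have hx1 : 0.9749 ≤ sx κ t := sx_lo h 1 0.025 0.025 0.9753 0.9749 hk1 (by norm_num) hy2 (abs_le.2 ⟨by linarith, by linarith⟩) (expm_ge (by norm_num) (by norm_num) (by norm_num) (by norm_num)) (by norm_num) (by norm_num)
  have hx2 : sx κ t ≤ 1.1201 := sx_hi h 1.12 0 0 1 1.1201 hk2 g4 (by norm_num) (abs_nonneg _) (by simp) (by norm_num) (by norm_num)
  exact JB7_k0a_b8_5 hβ hN hx1 hx2 (by linarith) (by linarith)

private theorem JB7_k0a_b9_0 {β x y : ℝ} (hβ : 0 < β) (hN : β * 13.586 ≤ 1) (hx1 : 1.5107 ≤ x) (hx2 : x ≤ 1.7422)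
    (hy1 : -0.333 ≤ y) (hy2 : y ≤ -0.323) : ‖HH β (x + y * I) - 1‖ ≤ 0.08 := by
  refine le_epsJ (C := 1.0698) (N0 := 13.586) (J_boxp 1.5107 1.7422 0.333 0 (-0.323) 1.5373 1.7738 1.8692 0.7173 0.5455 3.686 13.586 1.1539 5.471 1.705 0.4426 0.7686 0.473 0.9997 2.0431 0.9068 2.5917 3.6869 2.9117 0.00002919 0.00162 0.000001265 0.0000003101 0.000004467 0.0000003101 0.0000003101 0.0000003101 1.0698
    hβ hN hx1 hx2 hy1 hy2 (by norm_num) (by norm_num) (by linarith) (by norm_num) (by norm_num) (by norm_num) (by norm_num) (by norm_num) (by norm_num) (by norm_num) (by norm_num) (by norm_num) (by norm_num) (by norm_num) (by norm_num) (by norm_num) (by norm_num) (by norm_num) (by norm_num) (by norm_num) (by norm_num) (by norm_num) (by norm_num) (by norm_num)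
    (cube_sqrt_geJ (s := 0.7844) (by norm_num) (by norm_num) (by norm_num) (by norm_num))
    (cube_sqrt_geJ (s := 0.9266) (by norm_num) (by norm_num) (by norm_num) (by norm_num))
    (by norm_num) (by norm_num) (by norm_num) (by norm_num) (by norm_num) (by norm_num) (by norm_num) (by norm_num) (by norm_num) (by norm_num) (by norm_num) (by norm_num) (by norm_num) (by norm_num) (by norm_num) (by norm_num) (by norm_num) (by norm_num)
    (exp_neg_leJ (r := 0.442) 10 (by norm_num) (by norm_num) (by norm_num) (by norm_num))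
    (exp_neg_leJ (r := 0.426) 6 (by norm_num) (by norm_num) (by norm_num) (by norm_num))
    (exp_neg_leJ (r := 0.581) 13 (by norm_num) (by norm_num) (by norm_num) (by norm_num))
    (exp_neg_leJ (r := 0.99) 14 (by norm_num) (by norm_num) (by norm_num) (by norm_num))
    (exp_neg_leJ (r := 0.319) 12 (by norm_num) (by norm_num) (by norm_num) (by norm_num))
    (exp_neg_leJ (r := 0.99) 14 (by norm_num) (by norm_num) (by norm_num) (by norm_num))
    (exp_neg_leJ (r := 0.99) 14 (by norm_num) (by norm_num) (by norm_num) (by norm_num))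
    (exp_neg_leJ (r := 0.99) 14 (by norm_num) (by norm_num) (by norm_num) (by norm_num))
    (by norm_num)) (by norm_num) hN hβ.le (by norm_num)

private theorem JB7_k0a_b9_1 {β x y : ℝ} (hβ : 0 < β) (hN : β * 13.586 ≤ 1) (hx1 : 1.4815 ≤ x) (hx2 : x ≤ 1.7279)
    (hy1 : -0.323 ≤ y) (hy2 : y ≤ -0.303) : ‖HH β (x + y * I) - 1‖ ≤ 0.08 := by
  refine le_epsJ (C := 1.0833) (N0 := 13.586) (J_boxp 1.4815 1.7279 0.323 0 (-0.303) 1.5238 1.7579 1.8632 0.7257 0.5446 3.686 13.586 1.1537 5.47 1.705 0.4573 0.7618 0.4688 1.0055 2.0832 0.8981 2.5513 3.6556 2.8966 0.00003203 0.001714 0.000001169 0.0000003101 0.000005026 0.0000003101 0.0000003101 0.0000003101 1.0833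
    hβ hN hx1 hx2 hy1 hy2 (by norm_num) (by norm_num) (by linarith) (by norm_num) (by norm_num) (by norm_num) (by norm_num) (by norm_num) (by norm_num) (by norm_num) (by norm_num) (by norm_num) (by norm_num) (by norm_num) (by norm_num) (by norm_num) (by norm_num) (by norm_num) (by norm_num) (by norm_num) (by norm_num) (by norm_num) (by norm_num) (by norm_num)
    (cube_sqrt_geJ (s := 0.7844) (by norm_num) (by norm_num) (by norm_num) (by norm_num))
    (cube_sqrt_geJ (s := 0.9266) (by norm_num) (by norm_num) (by norm_num) (by norm_num))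
    (by norm_num) (by norm_num) (by norm_num) (by norm_num) (by norm_num) (by norm_num) (by norm_num) (by norm_num) (by norm_num) (by norm_num) (by norm_num) (by norm_num) (by norm_num) (by norm_num) (by norm_num) (by norm_num) (by norm_num) (by norm_num)
    (exp_neg_leJ (r := 0.349) 10 (by norm_num) (by norm_num) (by norm_num) (by norm_num))
    (exp_neg_leJ (r := 0.369) 6 (by norm_num) (by norm_num) (by norm_num) (by norm_num))
    (exp_neg_leJ (r := 0.66) 13 (by norm_num) (by norm_num) (by norm_num) (by norm_num))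
    (exp_neg_leJ (r := 0.99) 14 (by norm_num) (by norm_num) (by norm_num) (by norm_num))
    (exp_neg_leJ (r := 0.201) 12 (by norm_num) (by norm_num) (by norm_num) (by norm_num))
    (exp_neg_leJ (r := 0.99) 14 (by norm_num) (by norm_num) (by norm_num) (by norm_num))
    (exp_neg_leJ (r := 0.99) 14 (by norm_num) (by norm_num) (by norm_num) (by norm_num))
    (exp_neg_leJ (r := 0.99) 14 (by norm_num) (by norm_num) (by norm_num) (by norm_num))
    (by norm_num)) (by norm_num) hN hβ.le (by norm_num)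

private theorem JB7_k0a_b9_2 {β x y : ℝ} (hβ : 0 < β) (hN : β * 13.586 ≤ 1) (hx1 : 1.4325 ≤ x) (hx2 : x ≤ 1.6985)
    (hy1 : -0.303 ≤ y) (hy2 : y ≤ -0.268) : ‖HH β (x + y * I) - 1‖ ≤ 0.08 := by
  refine le_epsJ (C := 1.0849) (N0 := 13.586) (J_boxp 1.4325 1.6985 0.303 0 (-0.268) 1.5035 1.7254 1.8496 0.7378 0.5426 3.686 13.586 1.1476 5.407 1.7 0.4871 0.7517 0.4641 1.0203 2.1638 0.8852 2.4834 3.612 2.8869 0.00003673 0.001828 0.0000009574 0.0000003101 0.000005987 0.0000003101 0.0000003101 0.0000003101 1.0849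
    hβ hN hx1 hx2 hy1 hy2 (by norm_num) (by norm_num) (by linarith) (by norm_num) (by norm_num) (by norm_num) (by norm_num) (by norm_num) (by norm_num) (by norm_num) (by norm_num) (by norm_num) (by norm_num) (by norm_num) (by norm_num) (by norm_num) (by norm_num) (by norm_num) (by norm_num) (by norm_num) (by norm_num) (by norm_num) (by norm_num) (by norm_num)
    (cube_sqrt_geJ (s := 0.7857) (by norm_num) (by norm_num) (by norm_num) (by norm_num))
    (cube_sqrt_geJ (s := 0.927) (by norm_num) (by norm_num) (by norm_num) (by norm_num))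
    (by norm_num) (by norm_num) (by norm_num) (by norm_num) (by norm_num) (by norm_num) (by norm_num) (by norm_num) (by norm_num) (by norm_num) (by norm_num) (by norm_num) (by norm_num) (by norm_num) (by norm_num) (by norm_num) (by norm_num) (by norm_num)
    (exp_neg_leJ (r := 0.212) 10 (by norm_num) (by norm_num) (by norm_num) (by norm_num))
    (exp_neg_leJ (r := 0.305) 6 (by norm_num) (by norm_num) (by norm_num) (by norm_num))
    (exp_neg_leJ (r := 0.861) 13 (by norm_num) (by norm_num) (by norm_num) (by norm_num))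
    (exp_neg_leJ (r := 0.99) 14 (by norm_num) (by norm_num) (by norm_num) (by norm_num))
    (exp_neg_leJ (r := 0.026) 12 (by norm_num) (by norm_num) (by norm_num) (by norm_num))
    (exp_neg_leJ (r := 0.99) 14 (by norm_num) (by norm_num) (by norm_num) (by norm_num))
    (exp_neg_leJ (r := 0.99) 14 (by norm_num) (by norm_num) (by norm_num) (by norm_num))
    (exp_neg_leJ (r := 0.99) 14 (by norm_num) (by norm_num) (by norm_num) (by norm_num))
    (by norm_num)) (by norm_num) hN hβ.le (by norm_num)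

private theorem JB7_k0a_b9_3 {β x y : ℝ} (hβ : 0 < β) (hN : β * 13.586 ≤ 1) (hx1 : 1.3526 ≤ x) (hx2 : x ≤ 1.6473)
    (hy1 : -0.268 ≤ y) (hy2 : y ≤ -0.208) : ‖HH β (x + y * I) - 1‖ ≤ 0.08 := by
  refine le_epsJ (C := 1.0743) (N0 := 13.586) (J_boxp 1.3526 1.6473 0.268 0 (-0.208) 1.4721 1.669 1.8279 0.757 0.5394 3.686 13.586 1.1338 5.268 1.688 0.5391 0.736 0.4578 1.0482 2.3047 0.8655 2.3728 3.5473 2.8804 0.00004602 0.001992 0.0000006542 0.0000003101 0.000007836 0.0000003101 0.0000003101 0.0000003101 1.0743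
    hβ hN hx1 hx2 hy1 hy2 (by norm_num) (by norm_num) (by linarith) (by norm_num) (by norm_num) (by norm_num) (by norm_num) (by norm_num) (by norm_num) (by norm_num) (by norm_num) (by norm_num) (by norm_num) (by norm_num) (by norm_num) (by norm_num) (by norm_num) (by norm_num) (by norm_num) (by norm_num) (by norm_num) (by norm_num) (by norm_num) (by norm_num)
    (cube_sqrt_geJ (s := 0.7887) (by norm_num) (by norm_num) (by norm_num) (by norm_num))
    (cube_sqrt_geJ (s := 0.9279) (by norm_num) (by norm_num) (by norm_num) (by norm_num))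
    (by norm_num) (by norm_num) (by norm_num) (by norm_num) (by norm_num) (by norm_num) (by norm_num) (by norm_num) (by norm_num) (by norm_num) (by norm_num) (by norm_num) (by norm_num) (by norm_num) (by norm_num) (by norm_num) (by norm_num) (by norm_num)
    (exp_neg_leJ (r := 0.99) 9 (by norm_num) (by norm_num) (by norm_num) (by norm_num))
    (exp_neg_leJ (r := 0.219) 6 (by norm_num) (by norm_num) (by norm_num) (by norm_num))
    (exp_neg_leJ (r := 0.24) 14 (by norm_num) (by norm_num) (by norm_num) (by norm_num))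
    (exp_neg_leJ (r := 0.99) 14 (by norm_num) (by norm_num) (by norm_num) (by norm_num))
    (exp_neg_leJ (r := 0.758) 11 (by norm_num) (by norm_num) (by norm_num) (by norm_num))
    (exp_neg_leJ (r := 0.99) 14 (by norm_num) (by norm_num) (by norm_num) (by norm_num))
    (exp_neg_leJ (r := 0.99) 14 (by norm_num) (by norm_num) (by norm_num) (by norm_num))
    (exp_neg_leJ (r := 0.99) 14 (by norm_num) (by norm_num) (by norm_num) (by norm_num))
    (by norm_num)) (by norm_num) hN hβ.le (by norm_num)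

private theorem JB7_k0a_b9_4 {β x y : ℝ} (hβ : 0 < β) (hN : β * 13.586 ≤ 1) (hx1 : 1.2114 ≤ x) (hx2 : x ≤ 1.5609)
    (hy1 : -0.208 ≤ y) (hy2 : y ≤ -0.093) : ‖HH β (x + y * I) - 1‖ ≤ 0.08 := by
  refine le_epsJ (C := 1.0749) (N0 := 13.586) (J_boxp 1.2114 1.5609 0.208 0 (-0.093) 1.4153 1.5747 1.8053 0.798 0.5361 3.686 13.586 1.1127 5.065 1.67 0.6277 0.7076 0.4451 1.0946 2.5451 0.8297 2.1773 3.428 2.8543 0.00006689 0.002365 0.0000003488 0.0000003101 0.00001273 0.0000003101 0.0000003101 0.0000003101 1.0749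
    hβ hN hx1 hx2 hy1 hy2 (by norm_num) (by norm_num) (by linarith) (by norm_num) (by norm_num) (by norm_num) (by norm_num) (by norm_num) (by norm_num) (by norm_num) (by norm_num) (by norm_num) (by norm_num) (by norm_num) (by norm_num) (by norm_num) (by norm_num) (by norm_num) (by norm_num) (by norm_num) (by norm_num) (by norm_num) (by norm_num) (by norm_num)
    (cube_sqrt_geJ (s := 0.7931) (by norm_num) (by norm_num) (by norm_num) (by norm_num))
    (cube_sqrt_geJ (s := 0.9293) (by norm_num) (by norm_num) (by norm_num) (by norm_num))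
    (by norm_num) (by norm_num) (by norm_num) (by norm_num) (by norm_num) (by norm_num) (by norm_num) (by norm_num) (by norm_num) (by norm_num) (by norm_num) (by norm_num) (by norm_num) (by norm_num) (by norm_num) (by norm_num) (by norm_num) (by norm_num)
    (exp_neg_leJ (r := 0.613) 9 (by norm_num) (by norm_num) (by norm_num) (by norm_num))
    (exp_neg_leJ (r := 0.047) 6 (by norm_num) (by norm_num) (by norm_num) (by norm_num))
    (exp_neg_leJ (r := 0.871) 14 (by norm_num) (by norm_num) (by norm_num) (by norm_num))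
    (exp_neg_leJ (r := 0.99) 14 (by norm_num) (by norm_num) (by norm_num) (by norm_num))
    (exp_neg_leJ (r := 0.272) 11 (by norm_num) (by norm_num) (by norm_num) (by norm_num))
    (exp_neg_leJ (r := 0.99) 14 (by norm_num) (by norm_num) (by norm_num) (by norm_num))
    (exp_neg_leJ (r := 0.99) 14 (by norm_num) (by norm_num) (by norm_num) (by norm_num))
    (exp_neg_leJ (r := 0.99) 14 (by norm_num) (by norm_num) (by norm_num) (by norm_num))
    (by norm_num)) (by norm_num) hN hβ.le (by norm_num)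

private theorem JB7_k0a_b9_5 {β x y : ℝ} (hβ : 0 < β) (hN : β * 13.586 ≤ 1) (hx1 : 1.0883 ≤ x) (hx2 : x ≤ 1.3938)
    (hy1 : -0.093 ≤ y) (hy2 : y ≤ 0.025) : ‖HH β (x + y * I) - 1‖ ≤ 0.08 := by
  refine le_epsJ (C := 0.7499) (N0 := 13.586) (J_boxp 1.0883 1.3938 0.093 0.025 0.025 1.4103 1.3969 1.7302 0.7854 0.5248 3.686 13.586 0.9905 4.066 1.573 0.7981 0.7051 0.4723 1.234 3.0055 0.8302 2.0043 3.3872 2.9737 0.0000692 0.001636 0.0000003101 0.0000003101 0.00001264 0.0000003101 0.0000003101 0.0000003101 0.7499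
    hβ hN hx1 hx2 hy1 hy2 (by norm_num) (by norm_num) (by linarith) (by norm_num) (by norm_num) (by norm_num) (by norm_num) (by norm_num) (by norm_num) (by norm_num) (by norm_num) (by norm_num) (by norm_num) (by norm_num) (by norm_num) (by norm_num) (by norm_num) (by norm_num) (by norm_num) (by norm_num) (by norm_num) (by norm_num) (by norm_num) (by norm_num)
    (cube_sqrt_geJ (s := 0.8184) (by norm_num) (by norm_num) (by norm_num) (by norm_num))
    (cube_sqrt_geJ (s := 0.9374) (by norm_num) (by norm_num) (by norm_num) (by norm_num))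
    (by norm_num) (by norm_num) (by norm_num) (by norm_num) (by norm_num) (by norm_num) (by norm_num) (by norm_num) (by norm_num) (by norm_num) (by norm_num) (by norm_num) (by norm_num) (by norm_num) (by norm_num) (by norm_num) (by norm_num) (by norm_num)
    (exp_neg_leJ (r := 0.579) 9 (by norm_num) (by norm_num) (by norm_num) (by norm_num))
    (exp_neg_leJ (r := 0.416) 6 (by norm_num) (by norm_num) (by norm_num) (by norm_num))
    (exp_neg_leJ (r := 0.99) 14 (by norm_num) (by norm_num) (by norm_num) (by norm_num))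
    (exp_neg_leJ (r := 0.99) 14 (by norm_num) (by norm_num) (by norm_num) (by norm_num))
    (exp_neg_leJ (r := 0.279) 11 (by norm_num) (by norm_num) (by norm_num) (by norm_num))
    (exp_neg_leJ (r := 0.99) 14 (by norm_num) (by norm_num) (by norm_num) (by norm_num))
    (exp_neg_leJ (r := 0.99) 14 (by norm_num) (by norm_num) (by norm_num) (by norm_num))
    (exp_neg_leJ (r := 0.99) 14 (by norm_num) (by norm_num) (by norm_num) (by norm_num))
    (by norm_num)) (by norm_num) hN hβ.le (by norm_num)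

theorem JB7_k0a_c9 {κ t β : ℝ} (h : DomR κ t) (hβ : 0 < β) (hk1 : 1.12 ≤ κ) (hk2 : κ ≤ 1.27)
    (ht1 : -0.62 ≤ t + κ) (ht2 : t + κ ≤ 0.05) (hR0 : β * 10 ≤ κ) (hR : β * (6.75 * (1 + κ ^ 2)) ≤ κ) :
    ‖HH β (sg κ t) - 1‖ ≤ 0.08 := by
  have hN : β * 13.586 ≤ 1 := bNC' hβ hk1 (by norm_num) (by norm_num) hR (by norm_num)
  have hy1 : -0.333 ≤ sy κ t := syL_ge h 1.12 1.27 0.62 0.333 0.71677 0.71678 0.1984 0.18794 0.21312 hk1 hk2 (by linarith) (by norm_num) (by norm_num) (by norm_num)
    (expm_ge (by norm_num) (by norm_num) (by norm_num) (by norm_num)) (expm_le (by norm_num) (by norm_num) (by norm_num)) (by norm_num)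
    (by norm_num) (by norm_num) (by norm_num) (by norm_num) (by norm_num) (by norm_num)
  have hy2 : sy κ t ≤ 0.025 := syR_le h 1.12 1.27 0.05 0.025 1.02531 0.0195 0.02018 0.02289 hk1 hk2 (by linarith) (by norm_num) (by norm_num)
    (expn_ge (by norm_num) (by norm_num)) (by norm_num) (by norm_num) (Or.inr ((mul_le_mul_of_nonneg_left (expn_le (E := 1.02532) (by norm_num) (by norm_num) (by norm_num)) (by norm_num)).trans (by norm_num))) (by norm_num) (by norm_num) (by norm_num)
  rcases le_total (sy κ t) (-0.323) with f0 | g0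
  · have hx1 : 1.5107 ≤ sx κ t := sx_lo h 1.12 (-0.323) 0.333 1.38126 1.5107 hk1 (by norm_num) f0 (abs_le.2 ⟨by linarith, by linarith⟩) (by rw [neg_neg]; exact expn_ge (by norm_num) (by norm_num)) (by norm_num) (by norm_num)
    have hx2 : sx κ t ≤ 1.7422 := sx_hi h 1.27 (-0.333) 0.323 1.39515 1.7422 hk2 hy1 (by norm_num) (by rw [abs_of_nonpos (by linarith)]; linarith) (by rw [neg_neg]; exact expn_le (by norm_num) (by norm_num) (by norm_num)) (by norm_num) (by norm_num)
    exact JB7_k0a_b9_0 hβ hN hx1 hx2 (by linarith) (by linarith)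
  rcases le_total (sy κ t) (-0.303) with f1 | g1
  · have hx1 : 1.4815 ≤ sx κ t := sx_lo h 1.12 (-0.303) 0.323 1.35391 1.4815 hk1 (by norm_num) f1 (abs_le.2 ⟨by linarith, by linarith⟩) (by rw [neg_neg]; exact expn_ge (by norm_num) (by norm_num)) (by norm_num) (by norm_num)
    have hx2 : sx κ t ≤ 1.7279 := sx_hi h 1.27 (-0.323) 0.303 1.38127 1.7279 hk2 g0 (by norm_num) (by rw [abs_of_nonpos (by linarith)]; linarith) (by rw [neg_neg]; exact expn_le (by norm_num) (by norm_num) (by norm_num)) (by norm_num) (by norm_num)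
    exact JB7_k0a_b9_1 hβ hN hx1 hx2 (by linarith) (by linarith)
  rcases le_total (sy κ t) (-0.268) with f2 | g2
  · have hx1 : 1.4325 ≤ sx κ t := sx_lo h 1.12 (-0.268) 0.303 1.30734 1.4325 hk1 (by norm_num) f2 (abs_le.2 ⟨by linarith, by linarith⟩) (by rw [neg_neg]; exact expn_ge (by norm_num) (by norm_num)) (by norm_num) (by norm_num)
    have hx2 : sx κ t ≤ 1.6985 := sx_hi h 1.27 (-0.303) 0.268 1.35392 1.6985 hk2 g1 (by norm_num) (by rw [abs_of_nonpos (by linarith)]; linarith) (by rw [neg_neg]; exact expn_le (by norm_num) (by norm_num) (by norm_num)) (by norm_num) (by norm_num)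
    exact JB7_k0a_b9_2 hβ hN hx1 hx2 (by linarith) (by linarith)
  rcases le_total (sy κ t) (-0.208) with f3 | g3
  · have hx1 : 1.3526 ≤ sx κ t := sx_lo h 1.12 (-0.208) 0.268 1.23121 1.3526 hk1 (by norm_num) f3 (abs_le.2 ⟨by linarith, by linarith⟩) (by rw [neg_neg]; exact expn_ge (by norm_num) (by norm_num)) (by norm_num) (by norm_num)
    have hx2 : sx κ t ≤ 1.6473 := sx_hi h 1.27 (-0.268) 0.208 1.30735 1.6473 hk2 g2 (by norm_num) (by rw [abs_of_nonpos (by linarith)]; linarith) (by rw [neg_neg]; exact expn_le (by norm_num) (by norm_num) (by norm_num)) (by norm_num) (by norm_num)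
    exact JB7_k0a_b9_3 hβ hN hx1 hx2 (by linarith) (by linarith)
  rcases le_total (sy κ t) (-0.093) with f4 | g4
  · have hx1 : 1.2114 ≤ sx κ t := sx_lo h 1.12 (-0.093) 0.208 1.09746 1.2114 hk1 (by norm_num) f4 (abs_le.2 ⟨by linarith, by linarith⟩) (by rw [neg_neg]; exact expn_ge (by norm_num) (by norm_num)) (by norm_num) (by norm_num)
    have hx2 : sx κ t ≤ 1.5609 := sx_hi h 1.27 (-0.208) 0.093 1.23122 1.5609 hk2 g3 (by norm_num) (by rw [abs_of_nonpos (by linarith)]; linarith) (by rw [neg_neg]; exact expn_le (by norm_num) (by norm_num) (by norm_num)) (by norm_num) (by norm_num)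
    exact JB7_k0a_b9_4 hβ hN hx1 hx2 (by linarith) (by linarith)
  have hx1 : 1.0883 ≤ sx κ t := sx_lo h 1.12 0.025 0.093 0.9753 1.0883 hk1 (by norm_num) hy2 (abs_le.2 ⟨by linarith, by linarith⟩) (expm_ge (by norm_num) (by norm_num) (by norm_num) (by norm_num)) (by norm_num) (by norm_num)
  have hx2 : sx κ t ≤ 1.3938 := sx_hi h 1.27 (-0.093) 0 1.09747 1.3938 hk2 g4 (by norm_num) (abs_nonneg _) (by rw [neg_neg]; exact expn_le (by norm_num) (by norm_num) (by norm_num)) (by norm_num) (by norm_num)
  exact JB7_k0a_b9_5 hβ hN hx1 hx2 (by linarith) (by linarith)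
end Sok
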