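import Pool.Agent.Lib.MP_816dec_an.JBG

/-!
MP_816dec_an (A3, row R1): tables b = 7, real points.
-/

set_option autoImplicit false
set_option maxHeartbeats 4000000

open Complex Set

namespace Sok

private theorem JB7_k0a_b10_0 {β x y : ℝ} (hβ : 0 < β) (hN : β * 13.887 ≤ 1) (hx1 : 1.6068 ≤ x) (hx2 : x ≤ 1.8858)
    (hy1 : -0.314 ≤ y) (hy2 : y ≤ -0.254) : ‖HH β (x + y * I) - 1‖ ≤ 0.08 := by
  refine le_epsJ (C := 1.104) (N0 := 13.887) (J_boxp 1.6068 1.8858 0.314 0 (-0.254) 1.6185 1.9118 2.028 0.6917 0.5682 3.7266 13.887 1.1813 5.765 1.728 0.4049 0.8092 0.4905 1.0626 2.0212 0.9639 2.7247 3.9307 2.7288 0.00001318 0.001104 0.0000003909 0.0000003101 0.000001539 0.0000003101 0.0000003101 0.0000003101 1.104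
    hβ hN hx1 hx2 hy1 hy2 (by norm_num) (by norm_num) (by linarith) (by norm_num) (by norm_num) (by norm_num) (by norm_num) (by norm_num) (by norm_num) (by norm_num) (by norm_num) (by norm_num) (by norm_num) (by norm_num) (by norm_num) (by norm_num) (by norm_num) (by norm_num) (by norm_num) (by norm_num) (by norm_num) (by norm_num) (by norm_num) (by norm_num)
    (cube_sqrt_geJ (s := 0.7786) (by norm_num) (by norm_num) (by norm_num) (by norm_num))
    (cube_sqrt_geJ (s := 0.9248) (by norm_num) (by norm_num) (by norm_num) (by norm_num))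
    (by norm_num) (by norm_num) (by norm_num) (by norm_num) (by norm_num) (by norm_num) (by norm_num) (by norm_num) (by norm_num) (by norm_num) (by norm_num) (by norm_num) (by norm_num) (by norm_num) (by norm_num) (by norm_num) (by norm_num) (by norm_num)
    (exp_neg_leJ (r := 0.237) 11 (by norm_num) (by norm_num) (by norm_num) (by norm_num))
    (exp_neg_leJ (r := 0.811) 6 (by norm_num) (by norm_num) (by norm_num) (by norm_num))
    (exp_neg_leJ (r := 0.756) 14 (by norm_num) (by norm_num) (by norm_num) (by norm_num))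
    (exp_neg_leJ (r := 0.99) 14 (by norm_num) (by norm_num) (by norm_num) (by norm_num))
    (exp_neg_leJ (r := 0.385) 13 (by norm_num) (by norm_num) (by norm_num) (by norm_num))
    (exp_neg_leJ (r := 0.99) 14 (by norm_num) (by norm_num) (by norm_num) (by norm_num))
    (exp_neg_leJ (r := 0.99) 14 (by norm_num) (by norm_num) (by norm_num) (by norm_num))
    (exp_neg_leJ (r := 0.99) 14 (by norm_num) (by norm_num) (by norm_num) (by norm_num))
    (by norm_num)) (by norm_num) hN hβ.le (by norm_num)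

private theorem JB7_k0a_b10_1 {β x y : ℝ} (hβ : 0 < β) (hN : β * 13.887 ≤ 1) (hx1 : 1.452 ≤ x) (hx2 : x ≤ 1.7858)
    (hy1 : -0.254 ≤ y) (hy2 : y ≤ -0.149) : ‖HH β (x + y * I) - 1‖ ≤ 0.08 := by
  refine le_epsJ (C := 1.1058) (N0 := 13.887) (J_boxp 1.452 1.7858 0.254 0 (-0.149) 1.5521 1.8038 1.9783 0.7274 0.5612 3.7266 13.887 1.1622 5.559 1.712 0.4988 0.776 0.4754 1.1043 2.2695 0.9215 2.5104 3.7842 2.7128 0.00002093 0.00136 0.0000003101 0.0000003101 0.000002776 0.0000003101 0.0000003101 0.0000003101 1.1058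
    hβ hN hx1 hx2 hy1 hy2 (by norm_num) (by norm_num) (by linarith) (by norm_num) (by norm_num) (by norm_num) (by norm_num) (by norm_num) (by norm_num) (by norm_num) (by norm_num) (by norm_num) (by norm_num) (by norm_num) (by norm_num) (by norm_num) (by norm_num) (by norm_num) (by norm_num) (by norm_num) (by norm_num) (by norm_num) (by norm_num) (by norm_num)
    (cube_sqrt_geJ (s := 0.7826) (by norm_num) (by norm_num) (by norm_num) (by norm_num))
    (cube_sqrt_geJ (s := 0.9261) (by norm_num) (by norm_num) (by norm_num) (by norm_num))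
    (by norm_num) (by norm_num) (by norm_num) (by norm_num) (by norm_num) (by norm_num) (by norm_num) (by norm_num) (by norm_num) (by norm_num) (by norm_num) (by norm_num) (by norm_num) (by norm_num) (by norm_num) (by norm_num) (by norm_num) (by norm_num)
    (exp_neg_leJ (r := 0.776) 10 (by norm_num) (by norm_num) (by norm_num) (by norm_num))
    (exp_neg_leJ (r := 0.601) 6 (by norm_num) (by norm_num) (by norm_num) (by norm_num))
    (exp_neg_leJ (r := 0.99) 14 (by norm_num) (by norm_num) (by norm_num) (by norm_num))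
    (exp_neg_leJ (r := 0.99) 14 (by norm_num) (by norm_num) (by norm_num) (by norm_num))
    (exp_neg_leJ (r := 0.796) 12 (by norm_num) (by norm_num) (by norm_num) (by norm_num))
    (exp_neg_leJ (r := 0.99) 14 (by norm_num) (by norm_num) (by norm_num) (by norm_num))
    (exp_neg_leJ (r := 0.99) 14 (by norm_num) (by norm_num) (by norm_num) (by norm_num))
    (exp_neg_leJ (r := 0.99) 14 (by norm_num) (by norm_num) (by norm_num) (by norm_num))
    (by norm_num)) (by norm_num) hN hβ.le (by norm_num)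

private theorem JB7_k0a_b10_2 {β x y : ℝ} (hβ : 0 < β) (hN : β * 13.887 ≤ 1) (hx1 : 1.2296 ≤ x) (hx2 : x ≤ 1.6134)
    (hy1 : -0.149 ≤ y) (hy2 : y ≤ 0.025) : ‖HH β (x + y * I) - 1‖ ≤ 0.08 := by
  refine le_epsJ (C := 1.0042) (N0 := 13.887) (J_boxp 1.2296 1.6134 0.149 0.025 0.025 1.47 1.6203 1.9115 0.7758 0.5516 3.7266 13.887 1.1023 4.968 1.662 0.662 0.7349 0.4649 1.1939 2.7017 0.8683 2.1999 3.5176 2.649 0.00003699 0.001572 0.0000003101 0.0000003101 0.000005799 0.0000003101 0.0000003101 0.0000003101 1.0042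
    hβ hN hx1 hx2 hy1 hy2 (by norm_num) (by norm_num) (by linarith) (by norm_num) (by norm_num) (by norm_num) (by norm_num) (by norm_num) (by norm_num) (by norm_num) (by norm_num) (by norm_num) (by norm_num) (by norm_num) (by norm_num) (by norm_num) (by norm_num) (by norm_num) (by norm_num) (by norm_num) (by norm_num) (by norm_num) (by norm_num) (by norm_num)
    (cube_sqrt_geJ (s := 0.7953) (by norm_num) (by norm_num) (by norm_num) (by norm_num))
    (cube_sqrt_geJ (s := 0.93) (by norm_num) (by norm_num) (by norm_num) (by norm_num))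
    (by norm_num) (by norm_num) (by norm_num) (by norm_num) (by norm_num) (by norm_num) (by norm_num) (by norm_num) (by norm_num) (by norm_num) (by norm_num) (by norm_num) (by norm_num) (by norm_num) (by norm_num) (by norm_num) (by norm_num) (by norm_num)
    (exp_neg_leJ (r := 0.205) 10 (by norm_num) (by norm_num) (by norm_num) (by norm_num))
    (exp_neg_leJ (r := 0.456) 6 (by norm_num) (by norm_num) (by norm_num) (by norm_num))
    (exp_neg_leJ (r := 0.99) 14 (by norm_num) (by norm_num) (by norm_num) (by norm_num))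
    (exp_neg_leJ (r := 0.99) 14 (by norm_num) (by norm_num) (by norm_num) (by norm_num))
    (exp_neg_leJ (r := 0.058) 12 (by norm_num) (by norm_num) (by norm_num) (by norm_num))
    (exp_neg_leJ (r := 0.99) 14 (by norm_num) (by norm_num) (by norm_num) (by norm_num))
    (exp_neg_leJ (r := 0.99) 14 (by norm_num) (by norm_num) (by norm_num) (by norm_num))
    (exp_neg_leJ (r := 0.99) 14 (by norm_num) (by norm_num) (by norm_num) (by norm_num))
    (by norm_num)) (by norm_num) hN hβ.le (by norm_num)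

theorem JB7_k0a_c10 {κ t β : ℝ} (h : DomR κ t) (hβ : 0 < β) (hk1 : 1.27 ≤ κ) (hk2 : κ ≤ 1.39)
    (ht1 : -0.62 ≤ t + κ) (ht2 : t + κ ≤ 0.05) (hR0 : β * 10 ≤ κ) (hR : β * (6.75 * (1 + κ ^ 2)) ≤ κ) :
    ‖HH β (sg κ t) - 1‖ ≤ 0.08 := by
  have hN : β * 13.887 ≤ 1 := bNC' hβ hk1 (by norm_num) (by norm_num) hR (by norm_num)
  have hy1 : -0.314 ≤ sy κ t := syL_ge h 1.27 1.39 0.62 0.314 0.73051 0.73052 0.165 0.16502 0.18062 hk1 hk2 (by linarith) (by norm_num) (by norm_num) (by norm_num)
    (expm_ge (by norm_num) (by norm_num) (by norm_num) (by norm_num)) (expm_le (by norm_num) (by norm_num) (by norm_num)) (by norm_num)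
    (by norm_num) (by norm_num) (by norm_num) (by norm_num) (by norm_num) (by norm_num)
  have hy2 : sy κ t ≤ 0.025 := syR_le h 1.27 1.39 0.05 0.025 1.02531 0.018 0.01844 0.02019 hk1 hk2 (by linarith) (by norm_num) (by norm_num)
    (expn_ge (by norm_num) (by norm_num)) (by norm_num) (by norm_num) (Or.inr ((mul_le_mul_of_nonneg_left (expn_le (E := 1.02532) (by norm_num) (by norm_num) (by norm_num)) (by norm_num)).trans (by norm_num))) (by norm_num) (by norm_num) (by norm_num)
  rcases le_total (sy κ t) (-0.254) with f0 | g0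
  · have hx1 : 1.6068 ≤ sx κ t := sx_lo h 1.27 (-0.254) 0.314 1.28917 1.6068 hk1 (by norm_num) f0 (abs_le.2 ⟨by linarith, by linarith⟩) (by rw [neg_neg]; exact expn_ge (by norm_num) (by norm_num)) (by norm_num) (by norm_num)
    have hx2 : sx κ t ≤ 1.8858 := sx_hi h 1.39 (-0.314) 0.254 1.36889 1.8858 hk2 hy1 (by norm_num) (by rw [abs_of_nonpos (by linarith)]; linarith) (by rw [neg_neg]; exact expn_le (by norm_num) (by norm_num) (by norm_num)) (by norm_num) (by norm_num)
    exact JB7_k0a_b10_0 hβ hN hx1 hx2 (by linarith) (by linarith)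
  rcases le_total (sy κ t) (-0.149) with f1 | g1
  · have hx1 : 1.452 ≤ sx κ t := sx_lo h 1.27 (-0.149) 0.254 1.16067 1.452 hk1 (by norm_num) f1 (abs_le.2 ⟨by linarith, by linarith⟩) (by rw [neg_neg]; exact expn_ge (by norm_num) (by norm_num)) (by norm_num) (by norm_num)
    have hx2 : sx κ t ≤ 1.7858 := sx_hi h 1.39 (-0.254) 0.149 1.28918 1.7858 hk2 g0 (by norm_num) (by rw [abs_of_nonpos (by linarith)]; linarith) (by rw [neg_neg]; exact expn_le (by norm_num) (by norm_num) (by norm_num)) (by norm_num) (by norm_num)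
    exact JB7_k0a_b10_1 hβ hN hx1 hx2 (by linarith) (by linarith)
  have hx1 : 1.2296 ≤ sx κ t := sx_lo h 1.27 0.025 0.149 0.9753 1.2296 hk1 (by norm_num) hy2 (abs_le.2 ⟨by linarith, by linarith⟩) (expm_ge (by norm_num) (by norm_num) (by norm_num) (by norm_num)) (by norm_num) (by norm_num)
  have hx2 : sx κ t ≤ 1.6134 := sx_hi h 1.39 (-0.149) 0 1.16068 1.6134 hk2 g1 (by norm_num) (abs_nonneg _) (by rw [neg_neg]; exact expn_le (by norm_num) (by norm_num) (by norm_num)) (by norm_num) (by norm_num)
  exact JB7_k0a_b10_2 hβ hN hx1 hx2 (by linarith) (by linarith)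
end Sok
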