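import Pool.Agent.Lib.MP_816dec_an.JBG
import Pool.Agent.Lib.MP_816dec_an.JB7ap1
import Pool.Agent.Lib.MP_816dec_an.JB7ap2
import Pool.Agent.Lib.MP_816dec_an.JB7ap3
import Pool.Agent.Lib.MP_816dec_an.JB7ap4
import Pool.Agent.Lib.MP_816dec_an.JB7ap5
import Pool.Agent.Lib.MP_816dec_an.JB7ap6
import Pool.Agent.Lib.MP_816dec_an.JB7ap7

/-!
MP_816dec_an (A3, row R1): tables b = 7, real points.
-/

set_option autoImplicit false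
set_option maxHeartbeats 4000000

open Complex Set

namespace Sok

theorem JB7_k1a {κ t β : ℝ} (h : DomR κ t) (hβ : 0 < β) (hk1 : 0.27 ≤ κ) (hk2 : κ ≤ 1.39)
    (ht1 : 0.04 ≤ t + κ) (ht2 : t + κ ≤ 0.62) (hR0 : β * 10 ≤ κ) (hR : β * (6.75 * (1 + κ ^ 2)) ≤ κ) :
    ‖HH β (sg κ t) - 1‖ ≤ 0.03 := by
  rcases le_total κ 0.54 with f0 | g0
  · exact JB7_k1a_c0 h hβ hk1 f0 ht1 ht2 hR0 hR
  rcases le_total κ 0.71 with f1 | g1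
  · exact JB7_k1a_c1 h hβ g0 f1 ht1 ht2 hR0 hR
  rcases le_total κ 0.84 with f2 | g2
  · exact JB7_k1a_c2 h hβ g1 f2 ht1 ht2 hR0 hR
  rcases le_total κ 0.94 with f3 | g3
  · exact JB7_k1a_c3 h hβ g2 f3 ht1 ht2 hR0 hR
  rcases le_total κ 1 with f4 | g4
  · exact JB7_k1a_c4 h hβ g3 f4 ht1 ht2 hR0 hR
  rcases le_total κ 1.08 with f5 | g5
  · exact JB7_k1a_c5 h hβ g4 f5 ht1 ht2 hR0 hR
  rcases le_total κ 1.15 with f6 | g6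
  · exact JB7_k1a_c6 h hβ g5 f6 ht1 ht2 hR0 hR
  rcases le_total κ 1.21 with f7 | g7
  · exact JB7_k1a_c7 h hβ g6 f7 ht1 ht2 hR0 hR
  rcases le_total κ 1.27 with f8 | g8
  · exact JB7_k1a_c8 h hβ g7 f8 ht1 ht2 hR0 hR
  rcases le_total κ 1.33 with f9 | g9
  · exact JB7_k1a_c9 h hβ g8 f9 ht1 ht2 hR0 hR
  exact JB7_k1a_c10 h hβ g9 hk2 ht1 ht2 hR0 hR

theorem JB7_k1b {κ t β : ℝ} (h : DomR κ t) (hβ : 0 < β) (hk1 : 0.27 ≤ κ) (hk2 : κ ≤ 1.39)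
    (ht1 : 0.6 ≤ t + κ) (ht2 : t + κ ≤ 0.95) (hR0 : β * 10 ≤ κ) (hR : β * (6.75 * (1 + κ ^ 2)) ≤ κ) :
    ‖HH β (sg κ t) - 1‖ ≤ 0.035 := by
  rcases le_total κ 0.56 with f0 | g0
  · exact JB7_k1b_c0 h hβ hk1 f0 ht1 ht2 hR0 hR
  rcases le_total κ 0.7 with f1 | g1
  · exact JB7_k1b_c1 h hβ g0 f1 ht1 ht2 hR0 hR
  rcases le_total κ 0.82 with f2 | g2
  · exact JB7_k1b_c2 h hβ g1 f2 ht1 ht2 hR0 hR
  rcases le_total κ 0.94 with f3 | g3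
  · exact JB7_k1b_c3 h hβ g2 f3 ht1 ht2 hR0 hR
  rcases le_total κ 1 with f4 | g4
  · exact JB7_k1b_c4 h hβ g3 f4 ht1 ht2 hR0 hR
  rcases le_total κ 1.12 with f5 | g5
  · exact JB7_k1b_c5 h hβ g4 f5 ht1 ht2 hR0 hR
  rcases le_total κ 1.24 with f6 | g6
  · exact JB7_k1b_c6 h hβ g5 f6 ht1 ht2 hR0 hR
  rcases le_total κ 1.37 with f7 | g7
  · exact JB7_k1b_c7 h hβ g6 f7 ht1 ht2 hR0 hR
  exact JB7_k1b_c8 h hβ g7 hk2 ht1 ht2 hR0 hR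

theorem JB7_k0a {κ t β : ℝ} (h : DomR κ t) (hβ : 0 < β) (hk1 : 0.27 ≤ κ) (hk2 : κ ≤ 1.39)
    (ht1 : -0.62 ≤ t + κ) (ht2 : t + κ ≤ 0.05) (hR0 : β * 10 ≤ κ) (hR : β * (6.75 * (1 + κ ^ 2)) ≤ κ) :
    ‖HH β (sg κ t) - 1‖ ≤ 0.08 := by
  rcases le_total κ 0.43 with f0 | g0
  · exact JB7_k0a_c0 h hβ hk1 f0 ht1 ht2 hR0 hR
  rcases le_total κ 0.55 with f1 | g1
  · exact JB7_k0a_c1 h hβ g0 f1 ht1 ht2 hR0 hR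
  rcases le_total κ 0.64 with f2 | g2
  · exact JB7_k0a_c2 h hβ g1 f2 ht1 ht2 hR0 hR
  rcases le_total κ 0.72 with f3 | g3
  · exact JB7_k0a_c3 h hβ g2 f3 ht1 ht2 hR0 hR
  rcases le_total κ 0.8 with f4 | g4
  · exact JB7_k0a_c4 h hβ g3 f4 ht1 ht2 hR0 hR
  rcases le_total κ 0.89 with f5 | g5
  · exact JB7_k0a_c5 h hβ g4 f5 ht1 ht2 hR0 hR
  rcases le_total κ 0.99 with f6 | g6
  · exact JB7_k0a_c6 h hβ g5 f6 ht1 ht2 hR0 hR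
  rcases le_total κ 1 with f7 | g7
  · exact JB7_k0a_c7 h hβ g6 f7 ht1 ht2 hR0 hR
  rcases le_total κ 1.12 with f8 | g8
  · exact JB7_k0a_c8 h hβ g7 f8 ht1 ht2 hR0 hR
  rcases le_total κ 1.27 with f9 | g9
  · exact JB7_k0a_c9 h hβ g8 f9 ht1 ht2 hR0 hR
  exact JB7_k0a_c10 h hβ g9 hk2 ht1 ht2 hR0 hR
end Sok
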