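import Pool.Agent.Lib.MP_816dec_an.JBG2

/-!
MP_816dec_an (A3, row R1): tables b = 7, real points.
-/

set_option autoImplicit false
set_option maxHeartbeats 4000000

open Complex Set

namespace Sok

private theorem JB7_k0b_b0_0 {β x y : ℝ} (hβ : 0 < β) (hN : β * 29.411 ≤ 1) (hx1 : 0.0459 ≤ x) (hx2 : x ≤ 0.3406)
    (hy1 : -0.387 ≤ y) (hy2 : y ≤ -0.367) : ‖HH β (x + y * I) - 1‖ ≤ 0.15 := by
  refine le_epsJ (C := 4.0999) (N0 := 29.411) (J_boxp 0.0459 0.3406 0.387 0 (-0.367) 0.4675 0.5156 0.7189 2.6526 0.3383 5.4232 29.411 1.1029 4.973 1.662 0.9318 0.2337 0.1478 0.4131 2.6452 0.1659 0.5635 0.6105 3.4023 0.001038 0.01296 0.000005294 0.0000003101 0.007621 0.0000003101 0.0000003101 0.0000003101 4.0999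
    hβ hN hx1 hx2 hy1 hy2 (by norm_num) (by norm_num) (by linarith) (by norm_num) (by norm_num) (by norm_num) (by norm_num) (by norm_num) (by norm_num) (by norm_num) (by norm_num) (by norm_num) (by norm_num) (by norm_num) (by norm_num) (by norm_num) (by norm_num) (by norm_num) (by norm_num) (by norm_num) (by norm_num) (by norm_num) (by norm_num) (by norm_num)
    (cube_sqrt_geJ (s := 0.7952) (by norm_num) (by norm_num) (by norm_num) (by norm_num))
    (cube_sqrt_geJ (s := 0.93) (by norm_num) (by norm_num) (by norm_num) (by norm_num))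
    (by norm_num) (by norm_num) (by norm_num) (by norm_num) (by norm_num) (by norm_num) (by norm_num) (by norm_num) (by norm_num) (by norm_num) (by norm_num) (by norm_num) (by norm_num) (by norm_num) (by norm_num) (by norm_num) (by norm_num) (by norm_num)
    (exp_neg_leJ (r := 0.873) 6 (by norm_num) (by norm_num) (by norm_num) (by norm_num))
    (exp_neg_leJ (r := 0.346) 4 (by norm_num) (by norm_num) (by norm_num) (by norm_num))
    (exp_neg_leJ (r := 0.149) 12 (by norm_num) (by norm_num) (by norm_num) (by norm_num))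
    (exp_neg_leJ (r := 0.99) 14 (by norm_num) (by norm_num) (by norm_num) (by norm_num))
    (exp_neg_leJ (r := 0.879) 4 (by norm_num) (by norm_num) (by norm_num) (by norm_num))
    (exp_neg_leJ (r := 0.99) 14 (by norm_num) (by norm_num) (by norm_num) (by norm_num))
    (exp_neg_leJ (r := 0.99) 14 (by norm_num) (by norm_num) (by norm_num) (by norm_num))
    (exp_neg_leJ (r := 0.99) 14 (by norm_num) (by norm_num) (by norm_num) (by norm_num))
    (by norm_num)) (by norm_num) hN hβ.le (by norm_num)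

private theorem JB7_k0b_b0_1 {β x y : ℝ} (hβ : 0 < β) (hN : β * 29.411 ≤ 1) (hx1 : 0.037 ≤ x) (hx2 : x ≤ 0.3789)
    (hy1 : -0.367 ≤ y) (hy2 : y ≤ -0.312) : ‖HH β (x + y * I) - 1‖ ≤ 0.15 := by
  refine le_epsJ (C := 4.1801) (N0 := 29.411) (J_boxp 0.037 0.3789 0.367 0 (-0.312) 0.4755 0.5275 0.7855 2.7031 0.3536 5.4232 29.411 1.1094 5.034 1.667 0.9356 0.2377 0.1498 0.4416 2.693 0.1725 0.5512 0.647 3.3521 0.0009243 0.01222 0.000002298 0.0000003101 0.006264 0.0000003101 0.0000003101 0.0000003101 4.1801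
    hβ hN hx1 hx2 hy1 hy2 (by norm_num) (by norm_num) (by linarith) (by norm_num) (by norm_num) (by norm_num) (by norm_num) (by norm_num) (by norm_num) (by norm_num) (by norm_num) (by norm_num) (by norm_num) (by norm_num) (by norm_num) (by norm_num) (by norm_num) (by norm_num) (by norm_num) (by norm_num) (by norm_num) (by norm_num) (by norm_num) (by norm_num)
    (cube_sqrt_geJ (s := 0.7938) (by norm_num) (by norm_num) (by norm_num) (by norm_num))
    (cube_sqrt_geJ (s := 0.9296) (by norm_num) (by norm_num) (by norm_num) (by norm_num))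
    (by norm_num) (by norm_num) (by norm_num) (by norm_num) (by norm_num) (by norm_num) (by norm_num) (by norm_num) (by norm_num) (by norm_num) (by norm_num) (by norm_num) (by norm_num) (by norm_num) (by norm_num) (by norm_num) (by norm_num) (by norm_num)
    (exp_neg_leJ (r := 0.99) 6 (by norm_num) (by norm_num) (by norm_num) (by norm_num))
    (exp_neg_leJ (r := 0.405) 4 (by norm_num) (by norm_num) (by norm_num) (by norm_num))
    (exp_neg_leJ (r := 0.987) 12 (by norm_num) (by norm_num) (by norm_num) (by norm_num))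
    (exp_neg_leJ (r := 0.99) 14 (by norm_num) (by norm_num) (by norm_num) (by norm_num))
    (exp_neg_leJ (r := 0.073) 5 (by norm_num) (by norm_num) (by norm_num) (by norm_num))
    (exp_neg_leJ (r := 0.99) 14 (by norm_num) (by norm_num) (by norm_num) (by norm_num))
    (exp_neg_leJ (r := 0.99) 14 (by norm_num) (by norm_num) (by norm_num) (by norm_num))
    (exp_neg_leJ (r := 0.99) 14 (by norm_num) (by norm_num) (by norm_num) (by norm_num))
    (by norm_num)) (by norm_num) hN hβ.le (by norm_num)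

private theorem JB7_k0b_b0_2 {β x y : ℝ} (hβ : 0 < β) (hN : β * 29.411 ≤ 1) (hx1 : 0.0869 ≤ x) (hx2 : x ≤ 0.4274)
    (hy1 : -0.312 ≤ y) (hy2 : y ≤ -0.182) : ‖HH β (x + y * I) - 1‖ ≤ 0.15 := by
  refine le_epsJ (C := 2.2275) (N0 := 29.411) (J_boxp 0.0869 0.4274 0.312 0 (-0.182) 0.5497 0.5292 0.923 2.3573 0.3833 5.4232 29.411 0.9628 3.876 1.552 0.9677 0.2748 0.1866 0.5455 2.8502 0.2267 0.6203 0.8963 3.4473 0.0003091 0.004137 0.0000003101 0.0000003101 0.001274 0.0000003101 0.0000003101 0.0000003101 2.2275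
    hβ hN hx1 hx2 hy1 hy2 (by norm_num) (by norm_num) (by linarith) (by norm_num) (by norm_num) (by norm_num) (by norm_num) (by norm_num) (by norm_num) (by norm_num) (by norm_num) (by norm_num) (by norm_num) (by norm_num) (by norm_num) (by norm_num) (by norm_num) (by norm_num) (by norm_num) (by norm_num) (by norm_num) (by norm_num) (by norm_num) (by norm_num)
    (cube_sqrt_geJ (s := 0.824) (by norm_num) (by norm_num) (by norm_num) (by norm_num))
    (cube_sqrt_geJ (s := 0.9392) (by norm_num) (by norm_num) (by norm_num) (by norm_num))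
    (by norm_num) (by norm_num) (by norm_num) (by norm_num) (by norm_num) (by norm_num) (by norm_num) (by norm_num) (by norm_num) (by norm_num) (by norm_num) (by norm_num) (by norm_num) (by norm_num) (by norm_num) (by norm_num) (by norm_num) (by norm_num)
    (exp_neg_leJ (r := 0.082) 8 (by norm_num) (by norm_num) (by norm_num) (by norm_num))
    (exp_neg_leJ (r := 0.488) 5 (by norm_num) (by norm_num) (by norm_num) (by norm_num))
    (exp_neg_leJ (r := 0.99) 14 (by norm_num) (by norm_num) (by norm_num) (by norm_num))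
    (exp_neg_leJ (r := 0.99) 14 (by norm_num) (by norm_num) (by norm_num) (by norm_num))
    (exp_neg_leJ (r := 0.667) 6 (by norm_num) (by norm_num) (by norm_num) (by norm_num))
    (exp_neg_leJ (r := 0.99) 14 (by norm_num) (by norm_num) (by norm_num) (by norm_num))
    (exp_neg_leJ (r := 0.99) 14 (by norm_num) (by norm_num) (by norm_num) (by norm_num))
    (exp_neg_leJ (r := 0.99) 14 (by norm_num) (by norm_num) (by norm_num) (by norm_num))
    (by norm_num)) (by norm_num) hN hβ.le (by norm_num)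

theorem JB7_k0b_c0 {κ t β : ℝ} (h : DomR κ t) (hβ : 0 < β) (hk1 : 0.27 ≤ κ) (hk2 : κ ≤ 0.34)
    (ht1 : -0.86 ≤ t + κ) (ht2 : t + κ ≤ -0.6) (hR0 : β * 10 ≤ κ) (hR : β * (6.75 * (1 + κ ^ 2)) ≤ κ) :
    ‖HH β (sg κ t) - 1‖ ≤ 0.15 := by
  have hN : β * 29.411 ≤ 1 := bNR hβ h.1 hk2 hR0 (by norm_num)
  have hy1 : -0.387 ≤ sy κ t := syL_ang2 h 0.27 0.34 0.86 0.883 0.6348 0.7728 0.387 1.47255 0.67909 hk1 hk2 (by linarith) (by norm_num) (by norm_num) (by norm_num) (by norm_num)
    (cos_ge_num (by norm_num) (by norm_num)) (sin_le_num (by norm_num) (by norm_num))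
    (expn_ge (by norm_num) (by norm_num)) (expm_ge (by norm_num) (by norm_num) (by norm_num) (by norm_num)) (by norm_num) (by norm_num) (by norm_num)
    (by norm_num) (by norm_num) (by norm_num)
  have hy2 : sy κ t ≤ -0.182 := syL_le h 0.27 0.34 0.6 0.182 0.8336 0.83361 0.44622 0.56192 hk1 hk2 (by linarith) (by norm_num) (by norm_num) (by norm_num)
    (expm_ge (by norm_num) (by norm_num) (by norm_num) (by norm_num)) (expm_le (by norm_num) (by norm_num) (by norm_num)) (by norm_num)
    (by norm_num) (by norm_num) (by norm_num) (by norm_num) (by norm_num) (by norm_num)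
  rcases le_total (sy κ t) (-0.367) with f0 | g0
  · have hx1 : 0.0459 ≤ sx κ t := sx_lo h 0.27 (-0.367) 0.387 1.44339 0.0459 hk1 (by norm_num) f0 (abs_le.2 ⟨by linarith, by linarith⟩) (by rw [neg_neg]; exact expn_ge (by norm_num) (by norm_num)) (by norm_num) (by norm_num)
    have hx2 : sx κ t ≤ 0.3406 := sx_hi h 0.34 (-0.387) 0.367 1.47256 0.3406 hk2 hy1 (by norm_num) (by rw [abs_of_nonpos (by linarith)]; linarith) (by rw [neg_neg]; exact expn_le (by norm_num) (by norm_num) (by norm_num)) (by norm_num) (by norm_num)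
    exact JB7_k0b_b0_0 hβ hN hx1 hx2 (by linarith) (by linarith)
  rcases le_total (sy κ t) (-0.312) with f1 | g1
  · have hx1 : 0.037 ≤ sx κ t := sx_lo h 0.27 (-0.312) 0.367 1.36615 0.037 hk1 (by norm_num) f1 (abs_le.2 ⟨by linarith, by linarith⟩) (by rw [neg_neg]; exact expn_ge (by norm_num) (by norm_num)) (by norm_num) (by norm_num)
    have hx2 : sx κ t ≤ 0.3789 := sx_hi h 0.34 (-0.367) 0.312 1.4434 0.3789 hk2 g0 (by norm_num) (by rw [abs_of_nonpos (by linarith)]; linarith) (by rw [neg_neg]; exact expn_le (by norm_num) (by norm_num) (by norm_num)) (by norm_num) (by norm_num)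
    exact JB7_k0b_b0_1 hβ hN hx1 hx2 (by linarith) (by linarith)
  have hx1 : 0.0869 ≤ sx κ t := sx_lo h 0.27 (-0.182) 0.312 1.19961 0.0869 hk1 (by norm_num) hy2 (abs_le.2 ⟨by linarith, by linarith⟩) (by rw [neg_neg]; exact expn_ge (by norm_num) (by norm_num)) (by norm_num) (by norm_num)
  have hx2 : sx κ t ≤ 0.4274 := sx_hi h 0.34 (-0.312) 0.182 1.36616 0.4274 hk2 g1 (by norm_num) (by rw [abs_of_nonpos (by linarith)]; linarith) (by rw [neg_neg]; exact expn_le (by norm_num) (by norm_num) (by norm_num)) (by norm_num) (by norm_num)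
  exact JB7_k0b_b0_2 hβ hN hx1 hx2 (by linarith) (by linarith)

private theorem JB7_k0b_b1_0 {β x y : ℝ} (hβ : 0 < β) (hN : β * 24.999 ≤ 1) (hx1 : 0.2581 ≤ x) (hx2 : x ≤ 0.4442)
    (hy1 : -0.477 ≤ y) (hy2 : y ≤ -0.467) : ‖HH β (x + y * I) - 1‖ ≤ 0.15 := by
  refine le_epsJ (C := 3.7049) (N0 := 24.999) (J_boxp 0.2581 0.4442 0.477 0 (-0.467) 0.553 0.6518 0.6939 2.0257 0.3324 4.9999 24.999 1.1787 5.737 1.726 0.8089 0.2764 0.1678 0.3437 2.2941 0.2198 0.8573 0.7902 3.4565 0.001002 0.01509 0.0001857 0.0000003101 0.004113 0.0000003101 0.0000003101 0.0000003101 3.7049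
    hβ hN hx1 hx2 hy1 hy2 (by norm_num) (by norm_num) (by linarith) (by norm_num) (by norm_num) (by norm_num) (by norm_num) (by norm_num) (by norm_num) (by norm_num) (by norm_num) (by norm_num) (by norm_num) (by norm_num) (by norm_num) (by norm_num) (by norm_num) (by norm_num) (by norm_num) (by norm_num) (by norm_num) (by norm_num) (by norm_num) (by norm_num)
    (cube_sqrt_geJ (s := 0.7791) (by norm_num) (by norm_num) (by norm_num) (by norm_num))
    (cube_sqrt_geJ (s := 0.925) (by norm_num) (by norm_num) (by norm_num) (by norm_num))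
    (by norm_num) (by norm_num) (by norm_num) (by norm_num) (by norm_num) (by norm_num) (by norm_num) (by norm_num) (by norm_num) (by norm_num) (by norm_num) (by norm_num) (by norm_num) (by norm_num) (by norm_num) (by norm_num) (by norm_num) (by norm_num)
    (exp_neg_leJ (r := 0.909) 6 (by norm_num) (by norm_num) (by norm_num) (by norm_num))
    (exp_neg_leJ (r := 0.194) 4 (by norm_num) (by norm_num) (by norm_num) (by norm_num))
    (exp_neg_leJ (r := 0.592) 8 (by norm_num) (by norm_num) (by norm_num) (by norm_num))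
    (exp_neg_leJ (r := 0.99) 14 (by norm_num) (by norm_num) (by norm_num) (by norm_num))
    (exp_neg_leJ (r := 0.494) 5 (by norm_num) (by norm_num) (by norm_num) (by norm_num))
    (exp_neg_leJ (r := 0.99) 14 (by norm_num) (by norm_num) (by norm_num) (by norm_num))
    (exp_neg_leJ (r := 0.99) 14 (by norm_num) (by norm_num) (by norm_num) (by norm_num))
    (exp_neg_leJ (r := 0.99) 14 (by norm_num) (by norm_num) (by norm_num) (by norm_num))
    (by norm_num)) (by norm_num) hN hβ.le (by norm_num)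

private theorem JB7_k0b_b1_1 {β x y : ℝ} (hβ : 0 < β) (hN : β * 24.999 ≤ 1) (hx1 : 0.254 ≤ x) (hx2 : x ≤ 0.4554)
    (hy1 : -0.467 ≤ y) (hy2 : y ≤ -0.447) : ‖HH β (x + y * I) - 1‖ ≤ 0.15 := by
  refine le_epsJ (C := 3.6228) (N0 := 24.999) (J_boxp 0.254 0.4554 0.467 0 (-0.447) 0.5573 0.6523 0.7164 2.0345 0.3377 4.9999 24.999 1.1705 5.647 1.719 0.8138 0.2786 0.1699 0.358 2.3219 0.2232 0.8516 0.8092 3.4469 0.0009483 0.01431 0.0001303 0.0000003101 0.003778 0.0000003101 0.0000003101 0.0000003101 3.6228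
    hβ hN hx1 hx2 hy1 hy2 (by norm_num) (by norm_num) (by linarith) (by norm_num) (by norm_num) (by norm_num) (by norm_num) (by norm_num) (by norm_num) (by norm_num) (by norm_num) (by norm_num) (by norm_num) (by norm_num) (by norm_num) (by norm_num) (by norm_num) (by norm_num) (by norm_num) (by norm_num) (by norm_num) (by norm_num) (by norm_num) (by norm_num)
    (cube_sqrt_geJ (s := 0.7809) (by norm_num) (by norm_num) (by norm_num) (by norm_num))
    (cube_sqrt_geJ (s := 0.9255) (by norm_num) (by norm_num) (by norm_num) (by norm_num))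
    (by norm_num) (by norm_num) (by norm_num) (by norm_num) (by norm_num) (by norm_num) (by norm_num) (by norm_num) (by norm_num) (by norm_num) (by norm_num) (by norm_num) (by norm_num) (by norm_num) (by norm_num) (by norm_num) (by norm_num) (by norm_num)
    (exp_neg_leJ (r := 0.964) 6 (by norm_num) (by norm_num) (by norm_num) (by norm_num))
    (exp_neg_leJ (r := 0.247) 4 (by norm_num) (by norm_num) (by norm_num) (by norm_num))
    (exp_neg_leJ (r := 0.949) 8 (by norm_num) (by norm_num) (by norm_num) (by norm_num))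
    (exp_neg_leJ (r := 0.99) 14 (by norm_num) (by norm_num) (by norm_num) (by norm_num))
    (exp_neg_leJ (r := 0.579) 5 (by norm_num) (by norm_num) (by norm_num) (by norm_num))
    (exp_neg_leJ (r := 0.99) 14 (by norm_num) (by norm_num) (by norm_num) (by norm_num))
    (exp_neg_leJ (r := 0.99) 14 (by norm_num) (by norm_num) (by norm_num) (by norm_num))
    (exp_neg_leJ (r := 0.99) 14 (by norm_num) (by norm_num) (by norm_num) (by norm_num))
    (by norm_num)) (by norm_num) hN hβ.le (by norm_num)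

private theorem JB7_k0b_b1_2 {β x y : ℝ} (hβ : 0 < β) (hN : β * 24.999 ≤ 1) (hx1 : 0.2418 ≤ x) (hx2 : x ≤ 0.4792)
    (hy1 : -0.447 ≤ y) (hy2 : y ≤ -0.402) : ‖HH β (x + y * I) - 1‖ ≤ 0.15 := by
  refine le_epsJ (C := 3.6088) (N0 := 24.999) (J_boxp 0.2418 0.4792 0.447 0 (-0.402) 0.5629 0.6554 0.7664 2.073 0.3493 4.9999 24.999 1.1644 5.581 1.714 0.8231 0.2814 0.1722 0.3854 2.3765 0.2282 0.8347 0.8392 3.4141 0.0008815 0.01352 0.0000655 0.0000003101 0.003336 0.0000003101 0.0000003101 0.0000003101 3.6088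
    hβ hN hx1 hx2 hy1 hy2 (by norm_num) (by norm_num) (by linarith) (by norm_num) (by norm_num) (by norm_num) (by norm_num) (by norm_num) (by norm_num) (by norm_num) (by norm_num) (by norm_num) (by norm_num) (by norm_num) (by norm_num) (by norm_num) (by norm_num) (by norm_num) (by norm_num) (by norm_num) (by norm_num) (by norm_num) (by norm_num) (by norm_num)
    (cube_sqrt_geJ (s := 0.7822) (by norm_num) (by norm_num) (by norm_num) (by norm_num))
    (cube_sqrt_geJ (s := 0.9259) (by norm_num) (by norm_num) (by norm_num) (by norm_num))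
    (by norm_num) (by norm_num) (by norm_num) (by norm_num) (by norm_num) (by norm_num) (by norm_num) (by norm_num) (by norm_num) (by norm_num) (by norm_num) (by norm_num) (by norm_num) (by norm_num) (by norm_num) (by norm_num) (by norm_num) (by norm_num)
    (exp_neg_leJ (r := 0.034) 7 (by norm_num) (by norm_num) (by norm_num) (by norm_num))
    (exp_neg_leJ (r := 0.304) 4 (by norm_num) (by norm_num) (by norm_num) (by norm_num))
    (exp_neg_leJ (r := 0.634) 9 (by norm_num) (by norm_num) (by norm_num) (by norm_num))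
    (exp_neg_leJ (r := 0.99) 14 (by norm_num) (by norm_num) (by norm_num) (by norm_num))
    (exp_neg_leJ (r := 0.704) 5 (by norm_num) (by norm_num) (by norm_num) (by norm_num))
    (exp_neg_leJ (r := 0.99) 14 (by norm_num) (by norm_num) (by norm_num) (by norm_num))
    (exp_neg_leJ (r := 0.99) 14 (by norm_num) (by norm_num) (by norm_num) (by norm_num))
    (exp_neg_leJ (r := 0.99) 14 (by norm_num) (by norm_num) (by norm_num) (by norm_num))
    (by norm_num)) (by norm_num) hN hβ.le (by norm_num)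

private theorem JB7_k0b_b1_3 {β x y : ℝ} (hβ : 0 < β) (hN : β * 24.999 ≤ 1) (hx1 : 0.2088 ≤ x) (hx2 : x ≤ 0.5246)
    (hy1 : -0.402 ≤ y) (hy2 : y ≤ -0.287) : ‖HH β (x + y * I) - 1‖ ≤ 0.15 := by
  refine le_epsJ (C := 3.675) (N0 := 24.999) (J_boxp 0.2088 0.5246 0.402 0 (-0.287) 0.5716 0.661 0.8852 2.1772 0.3754 4.9999 24.999 1.1565 5.498 1.707 0.8472 0.2857 0.1756 0.4452 2.5022 0.2368 0.7891 0.8955 3.3329 0.0007912 0.01242 0.00001469 0.0000003101 0.002695 0.0000003101 0.0000003101 0.0000003101 3.675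
    hβ hN hx1 hx2 hy1 hy2 (by norm_num) (by norm_num) (by linarith) (by norm_num) (by norm_num) (by norm_num) (by norm_num) (by norm_num) (by norm_num) (by norm_num) (by norm_num) (by norm_num) (by norm_num) (by norm_num) (by norm_num) (by norm_num) (by norm_num) (by norm_num) (by norm_num) (by norm_num) (by norm_num) (by norm_num) (by norm_num) (by norm_num)
    (cube_sqrt_geJ (s := 0.7839) (by norm_num) (by norm_num) (by norm_num) (by norm_num))
    (cube_sqrt_geJ (s := 0.9264) (by norm_num) (by norm_num) (by norm_num) (by norm_num))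
    (by norm_num) (by norm_num) (by norm_num) (by norm_num) (by norm_num) (by norm_num) (by norm_num) (by norm_num) (by norm_num) (by norm_num) (by norm_num) (by norm_num) (by norm_num) (by norm_num) (by norm_num) (by norm_num) (by norm_num) (by norm_num)
    (exp_neg_leJ (r := 0.142) 7 (by norm_num) (by norm_num) (by norm_num) (by norm_num))
    (exp_neg_leJ (r := 0.389) 4 (by norm_num) (by norm_num) (by norm_num) (by norm_num))
    (exp_neg_leJ (r := 0.129) 11 (by norm_num) (by norm_num) (by norm_num) (by norm_num))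
    (exp_neg_leJ (r := 0.99) 14 (by norm_num) (by norm_num) (by norm_num) (by norm_num))
    (exp_neg_leJ (r := 0.919) 5 (by norm_num) (by norm_num) (by norm_num) (by norm_num))
    (exp_neg_leJ (r := 0.99) 14 (by norm_num) (by norm_num) (by norm_num) (by norm_num))
    (exp_neg_leJ (r := 0.99) 14 (by norm_num) (by norm_num) (by norm_num) (by norm_num))
    (exp_neg_leJ (r := 0.99) 14 (by norm_num) (by norm_num) (by norm_num) (by norm_num))
    (by norm_num)) (by norm_num) hN hβ.le (by norm_num)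

private theorem JB7_k0b_b1_4 {β x y : ℝ} (hβ : 0 < β) (hN : β * 24.999 ≤ 1) (hx1 : 0.3191 ≤ x) (hx2 : x ≤ 0.4794)
    (hy1 : -0.287 ≤ y) (hy2 : y ≤ -0.233) : ‖HH β (x + y * I) - 1‖ ≤ 0.15 := by
  refine le_epsJ (C := 0.764) (N0 := 24.999) (J_boxp 0.3191 0.4794 0.287 0 (-0.233) 0.7309 0.5588 0.9045 1.5221 0.3795 4.9999 24.999 0.7646 2.801 1.411 0.9708 0.3654 0.2723 0.6644 2.9047 0.3532 0.9418 1.4287 3.8313 0.000108 0.001108 0.0000003101 0.0000003101 0.0001467 0.0000003101 0.0000003101 0.0000003101 0.764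
    hβ hN hx1 hx2 hy1 hy2 (by norm_num) (by norm_num) (by linarith) (by norm_num) (by norm_num) (by norm_num) (by norm_num) (by norm_num) (by norm_num) (by norm_num) (by norm_num) (by norm_num) (by norm_num) (by norm_num) (by norm_num) (by norm_num) (by norm_num) (by norm_num) (by norm_num) (by norm_num) (by norm_num) (by norm_num) (by norm_num) (by norm_num)
    (cube_sqrt_geJ (s := 0.8632) (by norm_num) (by norm_num) (by norm_num) (by norm_num))
    (cube_sqrt_geJ (s := 0.952) (by norm_num) (by norm_num) (by norm_num) (by norm_num))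
    (by norm_num) (by norm_num) (by norm_num) (by norm_num) (by norm_num) (by norm_num) (by norm_num) (by norm_num) (by norm_num) (by norm_num) (by norm_num) (by norm_num) (by norm_num) (by norm_num) (by norm_num) (by norm_num) (by norm_num) (by norm_num)
    (exp_neg_leJ (r := 0.134) 9 (by norm_num) (by norm_num) (by norm_num) (by norm_num))
    (exp_neg_leJ (r := 0.807) 6 (by norm_num) (by norm_num) (by norm_num) (by norm_num))
    (exp_neg_leJ (r := 0.99) 14 (by norm_num) (by norm_num) (by norm_num) (by norm_num))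
    (exp_neg_leJ (r := 0.99) 14 (by norm_num) (by norm_num) (by norm_num) (by norm_num))
    (exp_neg_leJ (r := 0.829) 8 (by norm_num) (by norm_num) (by norm_num) (by norm_num))
    (exp_neg_leJ (r := 0.99) 14 (by norm_num) (by norm_num) (by norm_num) (by norm_num))
    (exp_neg_leJ (r := 0.99) 14 (by norm_num) (by norm_num) (by norm_num) (by norm_num))
    (exp_neg_leJ (r := 0.99) 14 (by norm_num) (by norm_num) (by norm_num) (by norm_num))
    (by norm_num)) (by norm_num) hN hβ.le (by norm_num)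

theorem JB7_k0b_c1 {κ t β : ℝ} (h : DomR κ t) (hβ : 0 < β) (hk1 : 0.34 ≤ κ) (hk2 : κ ≤ 0.4)
    (ht1 : -0.86 ≤ t + κ) (ht2 : t + κ ≤ -0.6) (hR0 : β * 10 ≤ κ) (hR : β * (6.75 * (1 + κ ^ 2)) ≤ κ) :
    ‖HH β (sg κ t) - 1‖ ≤ 0.15 := by
  have hN : β * 24.999 ≤ 1 := bNR hβ h.1 hk2 hR0 (by norm_num)
  have hy1 : -0.477 ≤ sy κ t := syL_ang2 h 0.34 0.4 0.86 0.833 0.6726 0.7401 0.477 1.61123 0.62064 hk1 hk2 (by linarith) (by norm_num) (by norm_num) (by norm_num) (by norm_num)
    (cos_ge_num (by norm_num) (by norm_num)) (sin_le_num (by norm_num) (by norm_num))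
    (expn_ge (by norm_num) (by norm_num)) (expm_ge (by norm_num) (by norm_num) (by norm_num) (by norm_num)) (by norm_num) (by norm_num) (by norm_num)
    (by norm_num) (by norm_num) (by norm_num)
  have hy2 : sy κ t ≤ -0.233 := syL_le h 0.34 0.4 0.6 0.233 0.79215 0.79216 0.46142 0.54287 hk1 hk2 (by linarith) (by norm_num) (by norm_num) (by norm_num)
    (expm_ge (by norm_num) (by norm_num) (by norm_num) (by norm_num)) (expm_le (by norm_num) (by norm_num) (by norm_num)) (by norm_num)
    (by norm_num) (by norm_num) (by norm_num) (by norm_num) (by norm_num) (by norm_num)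
  rcases le_total (sy κ t) (-0.467) with f0 | g0
  · have hx1 : 0.2581 ≤ sx κ t := sx_lo h 0.34 (-0.467) 0.477 1.5952 0.2581 hk1 (by norm_num) f0 (abs_le.2 ⟨by linarith, by linarith⟩) (by rw [neg_neg]; exact expn_ge (by norm_num) (by norm_num)) (by norm_num) (by norm_num)
    have hx2 : sx κ t ≤ 0.4442 := sx_hi h 0.4 (-0.477) 0.467 1.61124 0.4442 hk2 hy1 (by norm_num) (by rw [abs_of_nonpos (by linarith)]; linarith) (by rw [neg_neg]; exact expn_le (by norm_num) (by norm_num) (by norm_num)) (by norm_num) (by norm_num)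
    exact JB7_k0b_b1_0 hβ hN hx1 hx2 (by linarith) (by linarith)
  rcases le_total (sy κ t) (-0.447) with f1 | g1
  · have hx1 : 0.254 ≤ sx κ t := sx_lo h 0.34 (-0.447) 0.467 1.56361 0.254 hk1 (by norm_num) f1 (abs_le.2 ⟨by linarith, by linarith⟩) (by rw [neg_neg]; exact expn_ge (by norm_num) (by norm_num)) (by norm_num) (by norm_num)
    have hx2 : sx κ t ≤ 0.4554 := sx_hi h 0.4 (-0.467) 0.447 1.59521 0.4554 hk2 g0 (by norm_num) (by rw [abs_of_nonpos (by linarith)]; linarith) (by rw [neg_neg]; exact expn_le (by norm_num) (by norm_num) (by norm_num)) (by norm_num) (by norm_num)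
    exact JB7_k0b_b1_1 hβ hN hx1 hx2 (by linarith) (by linarith)
  rcases le_total (sy κ t) (-0.402) with f2 | g2
  · have hx1 : 0.2418 ≤ sx κ t := sx_lo h 0.34 (-0.402) 0.447 1.49481 0.2418 hk1 (by norm_num) f2 (abs_le.2 ⟨by linarith, by linarith⟩) (by rw [neg_neg]; exact expn_ge (by norm_num) (by norm_num)) (by norm_num) (by norm_num)
    have hx2 : sx κ t ≤ 0.4792 := sx_hi h 0.4 (-0.447) 0.402 1.56362 0.4792 hk2 g1 (by norm_num) (by rw [abs_of_nonpos (by linarith)]; linarith) (by rw [neg_neg]; exact expn_le (by norm_num) (by norm_num) (by norm_num)) (by norm_num) (by norm_num)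
    exact JB7_k0b_b1_2 hβ hN hx1 hx2 (by linarith) (by linarith)
  rcases le_total (sy κ t) (-0.287) with f3 | g3
  · have hx1 : 0.2088 ≤ sx κ t := sx_lo h 0.34 (-0.287) 0.402 1.33242 0.2088 hk1 (by norm_num) f3 (abs_le.2 ⟨by linarith, by linarith⟩) (by rw [neg_neg]; exact expn_ge (by norm_num) (by norm_num)) (by norm_num) (by norm_num)
    have hx2 : sx κ t ≤ 0.5246 := sx_hi h 0.4 (-0.402) 0.287 1.49482 0.5246 hk2 g2 (by norm_num) (by rw [abs_of_nonpos (by linarith)]; linarith) (by rw [neg_neg]; exact expn_le (by norm_num) (by norm_num) (by norm_num)) (by norm_num) (by norm_num)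
    exact JB7_k0b_b1_3 hβ hN hx1 hx2 (by linarith) (by linarith)
  have hx1 : 0.3191 ≤ sx κ t := sx_lo h 0.34 (-0.233) 0.287 1.26238 0.3191 hk1 (by norm_num) hy2 (abs_le.2 ⟨by linarith, by linarith⟩) (by rw [neg_neg]; exact expn_ge (by norm_num) (by norm_num)) (by norm_num) (by norm_num)
  have hx2 : sx κ t ≤ 0.4794 := sx_hi h 0.4 (-0.287) 0.233 1.33243 0.4794 hk2 g3 (by norm_num) (by rw [abs_of_nonpos (by linarith)]; linarith) (by rw [neg_neg]; exact expn_le (by norm_num) (by norm_num) (by norm_num)) (by norm_num) (by norm_num)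
  exact JB7_k0b_b1_4 hβ hN hx1 hx2 (by linarith) (by linarith)

private theorem JB7_k0b_b2_0 {β x y : ℝ} (hβ : 0 < β) (hN : β * 22.727 ≤ 1) (hx1 : 0.4103 ≤ x) (hx2 : x ≤ 0.5413)
    (hy1 : -0.523 ≤ y) (hy2 : y ≤ -0.508) : ‖HH β (x + y * I) - 1‖ ≤ 0.15 := by
  refine le_epsJ (C := 3.2512) (N0 := 22.727) (J_boxp 0.4103 0.5413 0.523 0 (-0.508) 0.6276 0.7527 0.7315 1.7203 0.3413 4.7673 22.727 1.1994 5.971 1.744 0.7291 0.3137 0.1883 0.3231 2.0925 0.2686 1.0681 0.9696 3.4866 0.0008016 0.01386 0.0006472 0.0000003101 0.002234 0.0000003101 0.0000003101 0.0000003101 3.2512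
    hβ hN hx1 hx2 hy1 hy2 (by norm_num) (by norm_num) (by linarith) (by norm_num) (by norm_num) (by norm_num) (by norm_num) (by norm_num) (by norm_num) (by norm_num) (by norm_num) (by norm_num) (by norm_num) (by norm_num) (by norm_num) (by norm_num) (by norm_num) (by norm_num) (by norm_num) (by norm_num) (by norm_num) (by norm_num) (by norm_num) (by norm_num)
    (cube_sqrt_geJ (s := 0.7747) (by norm_num) (by norm_num) (by norm_num) (by norm_num))
    (cube_sqrt_geJ (s := 0.9236) (by norm_num) (by norm_num) (by norm_num) (by norm_num))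
    (by norm_num) (by norm_num) (by norm_num) (by norm_num) (by norm_num) (by norm_num) (by norm_num) (by norm_num) (by norm_num) (by norm_num) (by norm_num) (by norm_num) (by norm_num) (by norm_num) (by norm_num) (by norm_num) (by norm_num) (by norm_num)
    (exp_neg_leJ (r := 0.129) 7 (by norm_num) (by norm_num) (by norm_num) (by norm_num))
    (exp_neg_leJ (r := 0.279) 4 (by norm_num) (by norm_num) (by norm_num) (by norm_num))
    (exp_neg_leJ (r := 0.343) 7 (by norm_num) (by norm_num) (by norm_num) (by norm_num))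
    (exp_neg_leJ (r := 0.99) 14 (by norm_num) (by norm_num) (by norm_num) (by norm_num))
    (exp_neg_leJ (r := 0.104) 6 (by norm_num) (by norm_num) (by norm_num) (by norm_num))
    (exp_neg_leJ (r := 0.99) 14 (by norm_num) (by norm_num) (by norm_num) (by norm_num))
    (exp_neg_leJ (r := 0.99) 14 (by norm_num) (by norm_num) (by norm_num) (by norm_num))
    (exp_neg_leJ (r := 0.99) 14 (by norm_num) (by norm_num) (by norm_num) (by norm_num))
    (by norm_num)) (by norm_num) hN hβ.le (by norm_num)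

private theorem JB7_k0b_b2_1 {β x y : ℝ} (hβ : 0 < β) (hN : β * 22.727 ≤ 1) (hx1 : 0.3924 ≤ x) (hx2 : x ≤ 0.5577)
    (hy1 : -0.508 ≤ y) (hy2 : y ≤ -0.473) : ‖HH β (x + y * I) - 1‖ ≤ 0.15 := by
  refine le_epsJ (C := 3.409) (N0 := 22.727) (J_boxp 0.3924 0.5577 0.508 0 (-0.473) 0.6256 0.7544 0.7674 1.7704 0.3495 4.7673 22.727 1.2059 6.047 1.75 0.7366 0.3127 0.187 0.3407 2.1341 0.2681 1.0433 0.9746 3.4462 0.0008202 0.01428 0.0004343 0.0000003101 0.002259 0.0000003101 0.0000003101 0.0000003101 3.409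
    hβ hN hx1 hx2 hy1 hy2 (by norm_num) (by norm_num) (by linarith) (by norm_num) (by norm_num) (by norm_num) (by norm_num) (by norm_num) (by norm_num) (by norm_num) (by norm_num) (by norm_num) (by norm_num) (by norm_num) (by norm_num) (by norm_num) (by norm_num) (by norm_num) (by norm_num) (by norm_num) (by norm_num) (by norm_num) (by norm_num) (by norm_num)
    (cube_sqrt_geJ (s := 0.7733) (by norm_num) (by norm_num) (by norm_num) (by norm_num))
    (cube_sqrt_geJ (s := 0.9232) (by norm_num) (by norm_num) (by norm_num) (by norm_num))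
    (by norm_num) (by norm_num) (by norm_num) (by norm_num) (by norm_num) (by norm_num) (by norm_num) (by norm_num) (by norm_num) (by norm_num) (by norm_num) (by norm_num) (by norm_num) (by norm_num) (by norm_num) (by norm_num) (by norm_num) (by norm_num)
    (exp_neg_leJ (r := 0.106) 7 (by norm_num) (by norm_num) (by norm_num) (by norm_num))
    (exp_neg_leJ (r := 0.249) 4 (by norm_num) (by norm_num) (by norm_num) (by norm_num))
    (exp_neg_leJ (r := 0.743) 7 (by norm_num) (by norm_num) (by norm_num) (by norm_num))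
    (exp_neg_leJ (r := 0.99) 14 (by norm_num) (by norm_num) (by norm_num) (by norm_num))
    (exp_neg_leJ (r := 0.093) 6 (by norm_num) (by norm_num) (by norm_num) (by norm_num))
    (exp_neg_leJ (r := 0.99) 14 (by norm_num) (by norm_num) (by norm_num) (by norm_num))
    (exp_neg_leJ (r := 0.99) 14 (by norm_num) (by norm_num) (by norm_num) (by norm_num))
    (exp_neg_leJ (r := 0.99) 14 (by norm_num) (by norm_num) (by norm_num) (by norm_num))
    (by norm_num)) (by norm_num) hN hβ.le (by norm_num)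

private theorem JB7_k0b_b2_2 {β x y : ℝ} (hβ : 0 < β) (hN : β * 22.727 ≤ 1) (hx1 : 0.3667 ≤ x) (hx2 : x ≤ 0.5799)
    (hy1 : -0.473 ≤ y) (hy2 : y ≤ -0.403) : ‖HH β (x + y * I) - 1‖ ≤ 0.15 := by
  refine le_epsJ (C := 3.2686) (N0 := 22.727) (J_boxp 0.3667 0.5799 0.473 0 (-0.403) 0.6324 0.7484 0.8323 1.8141 0.364 4.7673 22.727 1.1835 5.79 1.73 0.7604 0.3161 0.1914 0.3871 2.2387 0.2747 1.0077 1.0183 3.4111 0.0007587 0.01293 0.0001514 0.0000003101 0.001945 0.0000003101 0.0000003101 0.0000003101 3.2686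
    hβ hN hx1 hx2 hy1 hy2 (by norm_num) (by norm_num) (by linarith) (by norm_num) (by norm_num) (by norm_num) (by norm_num) (by norm_num) (by norm_num) (by norm_num) (by norm_num) (by norm_num) (by norm_num) (by norm_num) (by norm_num) (by norm_num) (by norm_num) (by norm_num) (by norm_num) (by norm_num) (by norm_num) (by norm_num) (by norm_num) (by norm_num)
    (cube_sqrt_geJ (s := 0.7781) (by norm_num) (by norm_num) (by norm_num) (by norm_num))
    (cube_sqrt_geJ (s := 0.9247) (by norm_num) (by norm_num) (by norm_num) (by norm_num))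
    (by norm_num) (by norm_num) (by norm_num) (by norm_num) (by norm_num) (by norm_num) (by norm_num) (by norm_num) (by norm_num) (by norm_num) (by norm_num) (by norm_num) (by norm_num) (by norm_num) (by norm_num) (by norm_num) (by norm_num) (by norm_num)
    (exp_neg_leJ (r := 0.184) 7 (by norm_num) (by norm_num) (by norm_num) (by norm_num))
    (exp_neg_leJ (r := 0.349) 4 (by norm_num) (by norm_num) (by norm_num) (by norm_num))
    (exp_neg_leJ (r := 0.797) 8 (by norm_num) (by norm_num) (by norm_num) (by norm_num))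
    (exp_neg_leJ (r := 0.99) 14 (by norm_num) (by norm_num) (by norm_num) (by norm_num))
    (exp_neg_leJ (r := 0.243) 6 (by norm_num) (by norm_num) (by norm_num) (by norm_num))
    (exp_neg_leJ (r := 0.99) 14 (by norm_num) (by norm_num) (by norm_num) (by norm_num))
    (exp_neg_leJ (r := 0.99) 14 (by norm_num) (by norm_num) (by norm_num) (by norm_num))
    (exp_neg_leJ (r := 0.99) 14 (by norm_num) (by norm_num) (by norm_num) (by norm_num))
    (by norm_num)) (by norm_num) hN hβ.le (by norm_num)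

private theorem JB7_k0b_b2_3 {β x y : ℝ} (hβ : 0 < β) (hN : β * 22.727 ≤ 1) (hx1 : 0.3373 ≤ x) (hx2 : x ≤ 0.5992)
    (hy1 : -0.403 ≤ y) (hy2 : y ≤ -0.273) : ‖HH β (x + y * I) - 1‖ ≤ 0.15 := by
  refine le_epsJ (C := 2.4813) (N0 := 22.727) (J_boxp 0.3373 0.5992 0.403 0 (-0.273) 0.6614 0.7222 0.9422 1.8046 0.3873 4.7673 22.727 1.092 4.875 1.653 0.8176 0.3306 0.2103 0.4876 2.4596 0.2987 0.967 1.1498 3.4235 0.0005461 0.008416 0.00001541 0.0000003101 0.001129 0.0000003101 0.0000003101 0.0000003101 2.4813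
    hβ hN hx1 hx2 hy1 hy2 (by norm_num) (by norm_num) (by linarith) (by norm_num) (by norm_num) (by norm_num) (by norm_num) (by norm_num) (by norm_num) (by norm_num) (by norm_num) (by norm_num) (by norm_num) (by norm_num) (by norm_num) (by norm_num) (by norm_num) (by norm_num) (by norm_num) (by norm_num) (by norm_num) (by norm_num) (by norm_num) (by norm_num)
    (cube_sqrt_geJ (s := 0.7974) (by norm_num) (by norm_num) (by norm_num) (by norm_num))
    (cube_sqrt_geJ (s := 0.9307) (by norm_num) (by norm_num) (by norm_num) (by norm_num))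
    (by norm_num) (by norm_num) (by norm_num) (by norm_num) (by norm_num) (by norm_num) (by norm_num) (by norm_num) (by norm_num) (by norm_num) (by norm_num) (by norm_num) (by norm_num) (by norm_num) (by norm_num) (by norm_num) (by norm_num) (by norm_num)
    (exp_neg_leJ (r := 0.513) 7 (by norm_num) (by norm_num) (by norm_num) (by norm_num))
    (exp_neg_leJ (r := 0.779) 4 (by norm_num) (by norm_num) (by norm_num) (by norm_num))
    (exp_neg_leJ (r := 0.081) 11 (by norm_num) (by norm_num) (by norm_num) (by norm_num))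
    (exp_neg_leJ (r := 0.99) 14 (by norm_num) (by norm_num) (by norm_num) (by norm_num))
    (exp_neg_leJ (r := 0.788) 6 (by norm_num) (by norm_num) (by norm_num) (by norm_num))
    (exp_neg_leJ (r := 0.99) 14 (by norm_num) (by norm_num) (by norm_num) (by norm_num))
    (exp_neg_leJ (r := 0.99) 14 (by norm_num) (by norm_num) (by norm_num) (by norm_num))
    (exp_neg_leJ (r := 0.99) 14 (by norm_num) (by norm_num) (by norm_num) (by norm_num))
    (by norm_num)) (by norm_num) hN hβ.le (by norm_num)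

theorem JB7_k0b_c2 {κ t β : ℝ} (h : DomR κ t) (hβ : 0 < β) (hk1 : 0.4 ≤ κ) (hk2 : κ ≤ 0.44)
    (ht1 : -0.86 ≤ t + κ) (ht2 : t + κ ≤ -0.6) (hR0 : β * 10 ≤ κ) (hR : β * (6.75 * (1 + κ ^ 2)) ≤ κ) :
    ‖HH β (sg κ t) - 1‖ ≤ 0.15 := by
  have hN : β * 22.727 ≤ 1 := bNR hβ h.1 hk2 hR0 (by norm_num)
  have hy1 : -0.523 ≤ sy κ t := syL_ang2 h 0.4 0.44 0.86 0.781 0.7102 0.7041 0.523 1.68707 0.59273 hk1 hk2 (by linarith) (by norm_num) (by norm_num) (by norm_num) (by norm_num)
    (cos_ge_num (by norm_num) (by norm_num)) (sin_le_num (by norm_num) (by norm_num))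
    (expn_ge (by norm_num) (by norm_num)) (expm_ge (by norm_num) (by norm_num) (by norm_num) (by norm_num)) (by norm_num) (by norm_num) (by norm_num)
    (by norm_num) (by norm_num) (by norm_num)
  have hy2 : sy κ t ≤ -0.273 := syL_le h 0.4 0.44 0.6 0.273 0.76109 0.7611 0.47222 0.51946 hk1 hk2 (by linarith) (by norm_num) (by norm_num) (by norm_num)
    (expm_ge (by norm_num) (by norm_num) (by norm_num) (by norm_num)) (expm_le (by norm_num) (by norm_num) (by norm_num)) (by norm_num)
    (by norm_num) (by norm_num) (by norm_num) (by norm_num) (by norm_num) (by norm_num)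
  rcases le_total (sy κ t) (-0.508) with f0 | g0
  · have hx1 : 0.4103 ≤ sx κ t := sx_lo h 0.4 (-0.508) 0.523 1.66196 0.4103 hk1 (by norm_num) f0 (abs_le.2 ⟨by linarith, by linarith⟩) (by rw [neg_neg]; exact expn_ge (by norm_num) (by norm_num)) (by norm_num) (by norm_num)
    have hx2 : sx κ t ≤ 0.5413 := sx_hi h 0.44 (-0.523) 0.508 1.68709 0.5413 hk2 hy1 (by norm_num) (by rw [abs_of_nonpos (by linarith)]; linarith) (by rw [neg_neg]; exact expn_le (by norm_num) (by norm_num) (by norm_num)) (by norm_num) (by norm_num)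
    exact JB7_k0b_b2_0 hβ hN hx1 hx2 (by linarith) (by linarith)
  rcases le_total (sy κ t) (-0.473) with f1 | g1
  · have hx1 : 0.3924 ≤ sx κ t := sx_lo h 0.4 (-0.473) 0.508 1.6048 0.3924 hk1 (by norm_num) f1 (abs_le.2 ⟨by linarith, by linarith⟩) (by rw [neg_neg]; exact expn_ge (by norm_num) (by norm_num)) (by norm_num) (by norm_num)
    have hx2 : sx κ t ≤ 0.5577 := sx_hi h 0.44 (-0.508) 0.473 1.66197 0.5577 hk2 g0 (by norm_num) (by rw [abs_of_nonpos (by linarith)]; linarith) (by rw [neg_neg]; exact expn_le (by norm_num) (by norm_num) (by norm_num)) (by norm_num) (by norm_num)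
    exact JB7_k0b_b2_1 hβ hN hx1 hx2 (by linarith) (by linarith)
  rcases le_total (sy κ t) (-0.403) with f2 | g2
  · have hx1 : 0.3667 ≤ sx κ t := sx_lo h 0.4 (-0.403) 0.473 1.4963 0.3667 hk1 (by norm_num) f2 (abs_le.2 ⟨by linarith, by linarith⟩) (by rw [neg_neg]; exact expn_ge (by norm_num) (by norm_num)) (by norm_num) (by norm_num)
    have hx2 : sx κ t ≤ 0.5799 := sx_hi h 0.44 (-0.473) 0.403 1.60481 0.5799 hk2 g1 (by norm_num) (by rw [abs_of_nonpos (by linarith)]; linarith) (by rw [neg_neg]; exact expn_le (by norm_num) (by norm_num) (by norm_num)) (by norm_num) (by norm_num)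
    exact JB7_k0b_b2_2 hβ hN hx1 hx2 (by linarith) (by linarith)
  have hx1 : 0.3373 ≤ sx κ t := sx_lo h 0.4 (-0.273) 0.403 1.3139 0.3373 hk1 (by norm_num) hy2 (abs_le.2 ⟨by linarith, by linarith⟩) (by rw [neg_neg]; exact expn_ge (by norm_num) (by norm_num)) (by norm_num) (by norm_num)
  have hx2 : sx κ t ≤ 0.5992 := sx_hi h 0.44 (-0.403) 0.273 1.49631 0.5992 hk2 g2 (by norm_num) (by rw [abs_of_nonpos (by linarith)]; linarith) (by rw [neg_neg]; exact expn_le (by norm_num) (by norm_num) (by norm_num)) (by norm_num) (by norm_num)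
  exact JB7_k0b_b2_3 hβ hN hx1 hx2 (by linarith) (by linarith)

private theorem JB7_k0b_b3_0 {β x y : ℝ} (hβ : 0 < β) (hN : β * 21.276 ≤ 1) (hx1 : 0.5062 ≤ x) (hx2 : x ≤ 0.6181)
    (hy1 : -0.547 ≤ y) (hy2 : y ≤ -0.527) : ‖HH β (x + y * I) - 1‖ ≤ 0.15 := by
  refine le_epsJ (C := 3.1142) (N0 := 21.276) (J_boxp 0.5062 0.6181 0.547 0 (-0.527) 0.678 0.8254 0.7784 1.5804 0.352 4.6126 21.276 1.2175 6.185 1.76 0.6774 0.3389 0.2014 0.3181 1.9739 0.302 1.2008 1.0961 3.4808 0.0007392 0.01379 0.001153 0.0000003101 0.001621 0.0000003101 0.0000003101 0.0000003101 3.1142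
    hβ hN hx1 hx2 hy1 hy2 (by norm_num) (by norm_num) (by linarith) (by norm_num) (by norm_num) (by norm_num) (by norm_num) (by norm_num) (by norm_num) (by norm_num) (by norm_num) (by norm_num) (by norm_num) (by norm_num) (by norm_num) (by norm_num) (by norm_num) (by norm_num) (by norm_num) (by norm_num) (by norm_num) (by norm_num) (by norm_num) (by norm_num)
    (cube_sqrt_geJ (s := 0.7708) (by norm_num) (by norm_num) (by norm_num) (by norm_num))
    (cube_sqrt_geJ (s := 0.9224) (by norm_num) (by norm_num) (by norm_num) (by norm_num))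
    (by norm_num) (by norm_num) (by norm_num) (by norm_num) (by norm_num) (by norm_num) (by norm_num) (by norm_num) (by norm_num) (by norm_num) (by norm_num) (by norm_num) (by norm_num) (by norm_num) (by norm_num) (by norm_num) (by norm_num) (by norm_num)
    (exp_neg_leJ (r := 0.21) 7 (by norm_num) (by norm_num) (by norm_num) (by norm_num))
    (exp_neg_leJ (r := 0.284) 4 (by norm_num) (by norm_num) (by norm_num) (by norm_num))
    (exp_neg_leJ (r := 0.767) 6 (by norm_num) (by norm_num) (by norm_num) (by norm_num))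
    (exp_neg_leJ (r := 0.99) 14 (by norm_num) (by norm_num) (by norm_num) (by norm_num))
    (exp_neg_leJ (r := 0.425) 6 (by norm_num) (by norm_num) (by norm_num) (by norm_num))
    (exp_neg_leJ (r := 0.99) 14 (by norm_num) (by norm_num) (by norm_num) (by norm_num))
    (exp_neg_leJ (r := 0.99) 14 (by norm_num) (by norm_num) (by norm_num) (by norm_num))
    (exp_neg_leJ (r := 0.99) 14 (by norm_num) (by norm_num) (by norm_num) (by norm_num))
    (by norm_num)) (by norm_num) hN hβ.le (by norm_num)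

private theorem JB7_k0b_b3_1 {β x y : ℝ} (hβ : 0 < β) (hN : β * 21.276 ≤ 1) (hx1 : 0.4847 ≤ x) (hx2 : x ≤ 0.6298)
    (hy1 : -0.527 ≤ y) (hy2 : y ≤ -0.487) : ‖HH β (x + y * I) - 1‖ ≤ 0.15 := by
  refine le_epsJ (C := 3.1489) (N0 := 21.276) (J_boxp 0.4847 0.6298 0.527 0 (-0.487) 0.6771 0.8213 0.8123 1.6177 0.3596 4.6126 21.276 1.213 6.132 1.756 0.6914 0.3385 0.2016 0.3423 2.0342 0.3025 1.1711 1.1075 3.4489 0.0007459 0.01372 0.0006879 0.0000003101 0.001605 0.0000003101 0.0000003101 0.0000003101 3.1489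
    hβ hN hx1 hx2 hy1 hy2 (by norm_num) (by norm_num) (by linarith) (by norm_num) (by norm_num) (by norm_num) (by norm_num) (by norm_num) (by norm_num) (by norm_num) (by norm_num) (by norm_num) (by norm_num) (by norm_num) (by norm_num) (by norm_num) (by norm_num) (by norm_num) (by norm_num) (by norm_num) (by norm_num) (by norm_num) (by norm_num) (by norm_num)
    (cube_sqrt_geJ (s := 0.7717) (by norm_num) (by norm_num) (by norm_num) (by norm_num))
    (cube_sqrt_geJ (s := 0.9227) (by norm_num) (by norm_num) (by norm_num) (by norm_num))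
    (by norm_num) (by norm_num) (by norm_num) (by norm_num) (by norm_num) (by norm_num) (by norm_num) (by norm_num) (by norm_num) (by norm_num) (by norm_num) (by norm_num) (by norm_num) (by norm_num) (by norm_num) (by norm_num) (by norm_num) (by norm_num)
    (exp_neg_leJ (r := 0.201) 7 (by norm_num) (by norm_num) (by norm_num) (by norm_num))
    (exp_neg_leJ (r := 0.289) 4 (by norm_num) (by norm_num) (by norm_num) (by norm_num))
    (exp_neg_leJ (r := 0.282) 7 (by norm_num) (by norm_num) (by norm_num) (by norm_num))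
    (exp_neg_leJ (r := 0.99) 14 (by norm_num) (by norm_num) (by norm_num) (by norm_num))
    (exp_neg_leJ (r := 0.435) 6 (by norm_num) (by norm_num) (by norm_num) (by norm_num))
    (exp_neg_leJ (r := 0.99) 14 (by norm_num) (by norm_num) (by norm_num) (by norm_num))
    (exp_neg_leJ (r := 0.99) 14 (by norm_num) (by norm_num) (by norm_num) (by norm_num))
    (exp_neg_leJ (r := 0.99) 14 (by norm_num) (by norm_num) (by norm_num) (by norm_num))
    (by norm_num)) (by norm_num) hN hβ.le (by norm_num)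

private theorem JB7_k0b_b3_2 {β x y : ℝ} (hβ : 0 < β) (hN : β * 21.276 ≤ 1) (hx1 : 0.4469 ≤ x) (hx2 : x ≤ 0.6477)
    (hy1 : -0.487 ≤ y) (hy2 : y ≤ -0.407) : ‖HH β (x + y * I) - 1‖ ≤ 0.15 := by
  refine le_epsJ (C := 3.0878) (N0 := 21.276) (J_boxp 0.4469 0.6477 0.487 0 (-0.407) 0.6789 0.8104 0.8782 1.6753 0.3739 4.6126 21.276 1.1937 5.905 1.739 0.7214 0.3394 0.2043 0.3925 2.1572 0.306 1.1187 1.1406 3.4029 0.0007311 0.01296 0.0002365 0.0000003101 0.001489 0.0000003101 0.0000003101 0.0000003101 3.0878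
    hβ hN hx1 hx2 hy1 hy2 (by norm_num) (by norm_num) (by linarith) (by norm_num) (by norm_num) (by norm_num) (by norm_num) (by norm_num) (by norm_num) (by norm_num) (by norm_num) (by norm_num) (by norm_num) (by norm_num) (by norm_num) (by norm_num) (by norm_num) (by norm_num) (by norm_num) (by norm_num) (by norm_num) (by norm_num) (by norm_num) (by norm_num)
    (cube_sqrt_geJ (s := 0.7759) (by norm_num) (by norm_num) (by norm_num) (by norm_num))
    (cube_sqrt_geJ (s := 0.924) (by norm_num) (by norm_num) (by norm_num) (by norm_num))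
    (by norm_num) (by norm_num) (by norm_num) (by norm_num) (by norm_num) (by norm_num) (by norm_num) (by norm_num) (by norm_num) (by norm_num) (by norm_num) (by norm_num) (by norm_num) (by norm_num) (by norm_num) (by norm_num) (by norm_num) (by norm_num)
    (exp_neg_leJ (r := 0.221) 7 (by norm_num) (by norm_num) (by norm_num) (by norm_num))
    (exp_neg_leJ (r := 0.346) 4 (by norm_num) (by norm_num) (by norm_num) (by norm_num))
    (exp_neg_leJ (r := 0.35) 8 (by norm_num) (by norm_num) (by norm_num) (by norm_num))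
    (exp_neg_leJ (r := 0.99) 14 (by norm_num) (by norm_num) (by norm_num) (by norm_num))
    (exp_neg_leJ (r := 0.51) 6 (by norm_num) (by norm_num) (by norm_num) (by norm_num))
    (exp_neg_leJ (r := 0.99) 14 (by norm_num) (by norm_num) (by norm_num) (by norm_num))
    (exp_neg_leJ (r := 0.99) 14 (by norm_num) (by norm_num) (by norm_num) (by norm_num))
    (exp_neg_leJ (r := 0.99) 14 (by norm_num) (by norm_num) (by norm_num) (by norm_num))
    (by norm_num)) (by norm_num) hN hβ.le (by norm_num)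

private theorem JB7_k0b_b3_3 {β x y : ℝ} (hβ : 0 < β) (hN : β * 21.276 ≤ 1) (hx1 : 0.4293 ≤ x) (hx2 : x ≤ 0.6411)
    (hy1 : -0.407 ≤ y) (hy2 : y ≤ -0.296) : ‖HH β (x + y * I) - 1‖ ≤ 0.15 := by
  refine le_epsJ (C := 1.9218) (N0 := 21.276) (J_boxp 0.4293 0.6411 0.407 0 (-0.296) 0.7233 0.7594 0.9522 1.5864 0.3893 4.6126 21.276 1.05 4.517 1.619 0.7978 0.3616 0.235 0.5128 2.4241 0.3412 1.0944 1.3229 3.5064 0.0004564 0.00683 0.00001832 0.0000003101 0.0007039 0.0000003101 0.0000003101 0.0000003101 1.9218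
    hβ hN hx1 hx2 hy1 hy2 (by norm_num) (by norm_num) (by linarith) (by norm_num) (by norm_num) (by norm_num) (by norm_num) (by norm_num) (by norm_num) (by norm_num) (by norm_num) (by norm_num) (by norm_num) (by norm_num) (by norm_num) (by norm_num) (by norm_num) (by norm_num) (by norm_num) (by norm_num) (by norm_num) (by norm_num) (by norm_num) (by norm_num)
    (cube_sqrt_geJ (s := 0.8062) (by norm_num) (by norm_num) (by norm_num) (by norm_num))
    (cube_sqrt_geJ (s := 0.9335) (by norm_num) (by norm_num) (by norm_num) (by norm_num))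
    (by norm_num) (by norm_num) (by norm_num) (by norm_num) (by norm_num) (by norm_num) (by norm_num) (by norm_num) (by norm_num) (by norm_num) (by norm_num) (by norm_num) (by norm_num) (by norm_num) (by norm_num) (by norm_num) (by norm_num) (by norm_num)
    (exp_neg_leJ (r := 0.693) 7 (by norm_num) (by norm_num) (by norm_num) (by norm_num))
    (exp_neg_leJ (r := 0.99) 4 (by norm_num) (by norm_num) (by norm_num) (by norm_num))
    (exp_neg_leJ (r := 0.91) 10 (by norm_num) (by norm_num) (by norm_num) (by norm_num))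
    (exp_neg_leJ (r := 0.99) 14 (by norm_num) (by norm_num) (by norm_num) (by norm_num))
    (exp_neg_leJ (r := 0.259) 7 (by norm_num) (by norm_num) (by norm_num) (by norm_num))
    (exp_neg_leJ (r := 0.99) 14 (by norm_num) (by norm_num) (by norm_num) (by norm_num))
    (exp_neg_leJ (r := 0.99) 14 (by norm_num) (by norm_num) (by norm_num) (by norm_num))
    (exp_neg_leJ (r := 0.99) 14 (by norm_num) (by norm_num) (by norm_num) (by norm_num))
    (by norm_num)) (by norm_num) hN hβ.le (by norm_num)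

theorem JB7_k0b_c3 {κ t β : ℝ} (h : DomR κ t) (hβ : 0 < β) (hk1 : 0.44 ≤ κ) (hk2 : κ ≤ 0.47)
    (ht1 : -0.86 ≤ t + κ) (ht2 : t + κ ≤ -0.6) (hR0 : β * 10 ≤ κ) (hR : β * (6.75 * (1 + κ ^ 2)) ≤ κ) :
    ‖HH β (sg κ t) - 1‖ ≤ 0.15 := by
  have hN : β * 21.276 ≤ 1 := bNR hβ h.1 hk2 hR0 (by norm_num)
  have hy1 : -0.547 ≤ sy κ t := syL_ang2 h 0.44 0.47 0.86 0.738 0.7398 0.6729 0.547 1.72805 0.57868 hk1 hk2 (by linarith) (by norm_num) (by norm_num) (by norm_num) (by norm_num)
    (cos_ge_num (by norm_num) (by norm_num)) (sin_le_num (by norm_num) (by norm_num))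
    (expn_ge (by norm_num) (by norm_num)) (expm_ge (by norm_num) (by norm_num) (by norm_num) (by norm_num)) (by norm_num) (by norm_num) (by norm_num)
    (by norm_num) (by norm_num) (by norm_num)
  have hy2 : sy κ t ≤ -0.296 := syL_le h 0.44 0.47 0.6 0.296 0.74378 0.74379 0.46842 0.50037 hk1 hk2 (by linarith) (by norm_num) (by norm_num) (by norm_num)
    (expm_ge (by norm_num) (by norm_num) (by norm_num) (by norm_num)) (expm_le (by norm_num) (by norm_num) (by norm_num)) (by norm_num)
    (by norm_num) (by norm_num) (by norm_num) (by norm_num) (by norm_num) (by norm_num)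
  rcases le_total (sy κ t) (-0.527) with f0 | g0
  · have hx1 : 0.5062 ≤ sx κ t := sx_lo h 0.44 (-0.527) 0.547 1.69384 0.5062 hk1 (by norm_num) f0 (abs_le.2 ⟨by linarith, by linarith⟩) (by rw [neg_neg]; exact expn_ge (by norm_num) (by norm_num)) (by norm_num) (by norm_num)
    have hx2 : sx κ t ≤ 0.6181 := sx_hi h 0.47 (-0.547) 0.527 1.72807 0.6181 hk2 hy1 (by norm_num) (by rw [abs_of_nonpos (by linarith)]; linarith) (by rw [neg_neg]; exact expn_le (by norm_num) (by norm_num) (by norm_num)) (by norm_num) (by norm_num)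
    exact JB7_k0b_b3_0 hβ hN hx1 hx2 (by linarith) (by linarith)
  rcases le_total (sy κ t) (-0.487) with f1 | g1
  · have hx1 : 0.4847 ≤ sx κ t := sx_lo h 0.44 (-0.487) 0.527 1.62742 0.4847 hk1 (by norm_num) f1 (abs_le.2 ⟨by linarith, by linarith⟩) (by rw [neg_neg]; exact expn_ge (by norm_num) (by norm_num)) (by norm_num) (by norm_num)
    have hx2 : sx κ t ≤ 0.6298 := sx_hi h 0.47 (-0.527) 0.487 1.69385 0.6298 hk2 g0 (by norm_num) (by rw [abs_of_nonpos (by linarith)]; linarith) (by rw [neg_neg]; exact expn_le (by norm_num) (by norm_num) (by norm_num)) (by norm_num) (by norm_num)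
    exact JB7_k0b_b3_1 hβ hN hx1 hx2 (by linarith) (by linarith)
  rcases le_total (sy κ t) (-0.407) with f2 | g2
  · have hx1 : 0.4469 ≤ sx κ t := sx_lo h 0.44 (-0.407) 0.487 1.5023 0.4469 hk1 (by norm_num) f2 (abs_le.2 ⟨by linarith, by linarith⟩) (by rw [neg_neg]; exact expn_ge (by norm_num) (by norm_num)) (by norm_num) (by norm_num)
    have hx2 : sx κ t ≤ 0.6477 := sx_hi h 0.47 (-0.487) 0.407 1.62743 0.6477 hk2 g1 (by norm_num) (by rw [abs_of_nonpos (by linarith)]; linarith) (by rw [neg_neg]; exact expn_le (by norm_num) (by norm_num) (by norm_num)) (by norm_num) (by norm_num)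
    exact JB7_k0b_b3_2 hβ hN hx1 hx2 (by linarith) (by linarith)
  have hx1 : 0.4293 ≤ sx κ t := sx_lo h 0.44 (-0.296) 0.407 1.34447 0.4293 hk1 (by norm_num) hy2 (abs_le.2 ⟨by linarith, by linarith⟩) (by rw [neg_neg]; exact expn_ge (by norm_num) (by norm_num)) (by norm_num) (by norm_num)
  have hx2 : sx κ t ≤ 0.6411 := sx_hi h 0.47 (-0.407) 0.296 1.50231 0.6411 hk2 g2 (by norm_num) (by rw [abs_of_nonpos (by linarith)]; linarith) (by rw [neg_neg]; exact expn_le (by norm_num) (by norm_num) (by norm_num)) (by norm_num) (by norm_num)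
  exact JB7_k0b_b3_3 hβ hN hx1 hx2 (by linarith) (by linarith)

private theorem JB7_k0b_b4_0 {β x y : ℝ} (hβ : 0 < β) (hN : β * 19.999 ≤ 1) (hx1 : 0.5925 ≤ x) (hx2 : x ≤ 0.6826)
    (hy1 : -0.565 ≤ y) (hy2 : y ≤ -0.555) : ‖HH β (x + y * I) - 1‖ ≤ 0.15 := by
  refine le_epsJ (C := 2.889) (N0 := 19.999) (J_boxp 0.5925 0.6826 0.565 0 (-0.555) 0.726 0.8861 0.8149 1.4594 0.3602 4.4721 19.999 1.2206 6.223 1.763 0.636 0.3629 0.2153 0.3192 1.8811 0.3341 1.3203 1.2198 3.4884 0.0007053 0.01351 0.001691 0.0000003101 0.001256 0.0000003101 0.0000003101 0.0000003101 2.889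
    hβ hN hx1 hx2 hy1 hy2 (by norm_num) (by norm_num) (by linarith) (by norm_num) (by norm_num) (by norm_num) (by norm_num) (by norm_num) (by norm_num) (by norm_num) (by norm_num) (by norm_num) (by norm_num) (by norm_num) (by norm_num) (by norm_num) (by norm_num) (by norm_num) (by norm_num) (by norm_num) (by norm_num) (by norm_num) (by norm_num) (by norm_num)
    (cube_sqrt_geJ (s := 0.7701) (by norm_num) (by norm_num) (by norm_num) (by norm_num))
    (cube_sqrt_geJ (s := 0.9222) (by norm_num) (by norm_num) (by norm_num) (by norm_num))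
    (by norm_num) (by norm_num) (by norm_num) (by norm_num) (by norm_num) (by norm_num) (by norm_num) (by norm_num) (by norm_num) (by norm_num) (by norm_num) (by norm_num) (by norm_num) (by norm_num) (by norm_num) (by norm_num) (by norm_num) (by norm_num)
    (exp_neg_leJ (r := 0.257) 7 (by norm_num) (by norm_num) (by norm_num) (by norm_num))
    (exp_neg_leJ (r := 0.305) 4 (by norm_num) (by norm_num) (by norm_num) (by norm_num))
    (exp_neg_leJ (r := 0.383) 6 (by norm_num) (by norm_num) (by norm_num) (by norm_num))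
    (exp_neg_leJ (r := 0.99) 14 (by norm_num) (by norm_num) (by norm_num) (by norm_num))
    (exp_neg_leJ (r := 0.681) 6 (by norm_num) (by norm_num) (by norm_num) (by norm_num))
    (exp_neg_leJ (r := 0.99) 14 (by norm_num) (by norm_num) (by norm_num) (by norm_num))
    (exp_neg_leJ (r := 0.99) 14 (by norm_num) (by norm_num) (by norm_num) (by norm_num))
    (exp_neg_leJ (r := 0.99) 14 (by norm_num) (by norm_num) (by norm_num) (by norm_num))
    (by norm_num)) (by norm_num) hN hβ.le (by norm_num)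

private theorem JB7_k0b_b4_1 {β x y : ℝ} (hβ : 0 < β) (hN : β * 19.999 ≤ 1) (hx1 : 0.5796 ≤ x) (hx2 : x ≤ 0.6873)
    (hy1 : -0.555 ≤ y) (hy2 : y ≤ -0.535) : ‖HH β (x + y * I) - 1‖ ≤ 0.15 := by
  refine le_epsJ (C := 2.928) (N0 := 19.999) (J_boxp 0.5796 0.6873 0.555 0 (-0.535) 0.724 0.8835 0.8299 1.4788 0.3635 4.4721 19.999 1.2204 6.221 1.763 0.6434 0.3619 0.2147 0.3306 1.9118 0.3333 1.3025 1.2212 3.4696 0.0007195 0.01367 0.001347 0.0000003101 0.001276 0.0000003101 0.0000003101 0.0000003101 2.928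
    hβ hN hx1 hx2 hy1 hy2 (by norm_num) (by norm_num) (by linarith) (by norm_num) (by norm_num) (by norm_num) (by norm_num) (by norm_num) (by norm_num) (by norm_num) (by norm_num) (by norm_num) (by norm_num) (by norm_num) (by norm_num) (by norm_num) (by norm_num) (by norm_num) (by norm_num) (by norm_num) (by norm_num) (by norm_num) (by norm_num) (by norm_num)
    (cube_sqrt_geJ (s := 0.7701) (by norm_num) (by norm_num) (by norm_num) (by norm_num))
    (cube_sqrt_geJ (s := 0.9222) (by norm_num) (by norm_num) (by norm_num) (by norm_num))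
    (by norm_num) (by norm_num) (by norm_num) (by norm_num) (by norm_num) (by norm_num) (by norm_num) (by norm_num) (by norm_num) (by norm_num) (by norm_num) (by norm_num) (by norm_num) (by norm_num) (by norm_num) (by norm_num) (by norm_num) (by norm_num)
    (exp_neg_leJ (r := 0.237) 7 (by norm_num) (by norm_num) (by norm_num) (by norm_num))
    (exp_neg_leJ (r := 0.293) 4 (by norm_num) (by norm_num) (by norm_num) (by norm_num))
    (exp_neg_leJ (r := 0.611) 6 (by norm_num) (by norm_num) (by norm_num) (by norm_num))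
    (exp_neg_leJ (r := 0.99) 14 (by norm_num) (by norm_num) (by norm_num) (by norm_num))
    (exp_neg_leJ (r := 0.665) 6 (by norm_num) (by norm_num) (by norm_num) (by norm_num))
    (exp_neg_leJ (r := 0.99) 14 (by norm_num) (by norm_num) (by norm_num) (by norm_num))
    (exp_neg_leJ (r := 0.99) 14 (by norm_num) (by norm_num) (by norm_num) (by norm_num))
    (exp_neg_leJ (r := 0.99) 14 (by norm_num) (by norm_num) (by norm_num) (by norm_num))
    (by norm_num)) (by norm_num) hN hβ.le (by norm_num)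

private theorem JB7_k0b_b4_2 {β x y : ℝ} (hβ : 0 < β) (hN : β * 19.999 ≤ 1) (hx1 : 0.5552 ≤ x) (hx2 : x ≤ 0.6956)
    (hy1 : -0.535 ≤ y) (hy2 : y ≤ -0.495) : ‖HH β (x + y * I) - 1‖ ≤ 0.15 := by
  refine le_epsJ (C := 2.9738) (N0 := 19.999) (J_boxp 0.5552 0.6956 0.535 0 (-0.495) 0.7211 0.8776 0.8596 1.5142 0.3699 4.4721 19.999 1.2171 6.18 1.76 0.6587 0.3605 0.2142 0.3538 1.9736 0.3324 1.2687 1.2268 3.4369 0.00074 0.01381 0.0008461 0.0000003101 0.001299 0.0000003101 0.0000003101 0.0000003101 2.9738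
    hβ hN hx1 hx2 hy1 hy2 (by norm_num) (by norm_num) (by linarith) (by norm_num) (by norm_num) (by norm_num) (by norm_num) (by norm_num) (by norm_num) (by norm_num) (by norm_num) (by norm_num) (by norm_num) (by norm_num) (by norm_num) (by norm_num) (by norm_num) (by norm_num) (by norm_num) (by norm_num) (by norm_num) (by norm_num) (by norm_num) (by norm_num)
    (cube_sqrt_geJ (s := 0.7709) (by norm_num) (by norm_num) (by norm_num) (by norm_num))
    (cube_sqrt_geJ (s := 0.9224) (by norm_num) (by norm_num) (by norm_num) (by norm_num))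
    (by norm_num) (by norm_num) (by norm_num) (by norm_num) (by norm_num) (by norm_num) (by norm_num) (by norm_num) (by norm_num) (by norm_num) (by norm_num) (by norm_num) (by norm_num) (by norm_num) (by norm_num) (by norm_num) (by norm_num) (by norm_num)
    (exp_neg_leJ (r := 0.209) 7 (by norm_num) (by norm_num) (by norm_num) (by norm_num))
    (exp_neg_leJ (r := 0.283) 4 (by norm_num) (by norm_num) (by norm_num) (by norm_num))
    (exp_neg_leJ (r := 0.075) 7 (by norm_num) (by norm_num) (by norm_num) (by norm_num))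
    (exp_neg_leJ (r := 0.99) 14 (by norm_num) (by norm_num) (by norm_num) (by norm_num))
    (exp_neg_leJ (r := 0.647) 6 (by norm_num) (by norm_num) (by norm_num) (by norm_num))
    (exp_neg_leJ (r := 0.99) 14 (by norm_num) (by norm_num) (by norm_num) (by norm_num))
    (exp_neg_leJ (r := 0.99) 14 (by norm_num) (by norm_num) (by norm_num) (by norm_num))
    (exp_neg_leJ (r := 0.99) 14 (by norm_num) (by norm_num) (by norm_num) (by norm_num))
    (by norm_num)) (by norm_num) hN hβ.le (by norm_num)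

private theorem JB7_k0b_b4_3 {β x y : ℝ} (hβ : 0 < β) (hN : β * 19.999 ≤ 1) (hx1 : 0.5114 ≤ x) (hx2 : x ≤ 0.7076)
    (hy1 : -0.495 ≤ y) (hy2 : y ≤ -0.415) : ‖HH β (x + y * I) - 1‖ ≤ 0.15 := by
  refine le_epsJ (C := 2.9642) (N0 := 19.999) (J_boxp 0.5114 0.7076 0.495 0 (-0.415) 0.7186 0.8636 0.9182 1.5731 0.3823 4.4721 19.999 1.2018 5.998 1.746 0.691 0.3592 0.2153 0.402 2.0992 0.333 1.208 1.2479 3.3873 0.0007594 0.01351 0.0003227 0.0000003101 0.001284 0.0000003101 0.0000003101 0.0000003101 2.9642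
    hβ hN hx1 hx2 hy1 hy2 (by norm_num) (by norm_num) (by linarith) (by norm_num) (by norm_num) (by norm_num) (by norm_num) (by norm_num) (by norm_num) (by norm_num) (by norm_num) (by norm_num) (by norm_num) (by norm_num) (by norm_num) (by norm_num) (by norm_num) (by norm_num) (by norm_num) (by norm_num) (by norm_num) (by norm_num) (by norm_num) (by norm_num)
    (cube_sqrt_geJ (s := 0.7742) (by norm_num) (by norm_num) (by norm_num) (by norm_num))
    (cube_sqrt_geJ (s := 0.9234) (by norm_num) (by norm_num) (by norm_num) (by norm_num))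
    (by norm_num) (by norm_num) (by norm_num) (by norm_num) (by norm_num) (by norm_num) (by norm_num) (by norm_num) (by norm_num) (by norm_num) (by norm_num) (by norm_num) (by norm_num) (by norm_num) (by norm_num) (by norm_num) (by norm_num) (by norm_num)
    (exp_neg_leJ (r := 0.183) 7 (by norm_num) (by norm_num) (by norm_num) (by norm_num))
    (exp_neg_leJ (r := 0.305) 4 (by norm_num) (by norm_num) (by norm_num) (by norm_num))
    (exp_neg_leJ (r := 0.039) 8 (by norm_num) (by norm_num) (by norm_num) (by norm_num))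
    (exp_neg_leJ (r := 0.99) 14 (by norm_num) (by norm_num) (by norm_num) (by norm_num))
    (exp_neg_leJ (r := 0.659) 6 (by norm_num) (by norm_num) (by norm_num) (by norm_num))
    (exp_neg_leJ (r := 0.99) 14 (by norm_num) (by norm_num) (by norm_num) (by norm_num))
    (exp_neg_leJ (r := 0.99) 14 (by norm_num) (by norm_num) (by norm_num) (by norm_num))
    (exp_neg_leJ (r := 0.99) 14 (by norm_num) (by norm_num) (by norm_num) (by norm_num))
    (by norm_num)) (by norm_num) hN hβ.le (by norm_num)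

private theorem JB7_k0b_b4_4 {β x y : ℝ} (hβ : 0 < β) (hN : β * 19.999 ≤ 1) (hx1 : 0.4882 ≤ x) (hx2 : x ≤ 0.6909)
    (hy1 : -0.415 ≤ y) (hy2 : y ≤ -0.31) : ‖HH β (x + y * I) - 1‖ ≤ 0.15 := by
  refine le_epsJ (C := 1.8757) (N0 := 19.999) (J_boxp 0.4882 0.6909 0.415 0 (-0.31) 0.7591 0.806 0.9765 1.4942 0.3943 4.4721 19.999 1.0618 4.614 1.629 0.7713 0.3795 0.2452 0.5203 2.371 0.3654 1.1759 1.419 3.4975 0.0005062 0.007443 0.00003029 0.0000003101 0.0006709 0.0000003101 0.0000003101 0.0000003101 1.8757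
    hβ hN hx1 hx2 hy1 hy2 (by norm_num) (by norm_num) (by linarith) (by norm_num) (by norm_num) (by norm_num) (by norm_num) (by norm_num) (by norm_num) (by norm_num) (by norm_num) (by norm_num) (by norm_num) (by norm_num) (by norm_num) (by norm_num) (by norm_num) (by norm_num) (by norm_num) (by norm_num) (by norm_num) (by norm_num) (by norm_num) (by norm_num)
    (cube_sqrt_geJ (s := 0.8037) (by norm_num) (by norm_num) (by norm_num) (by norm_num))
    (cube_sqrt_geJ (s := 0.9327) (by norm_num) (by norm_num) (by norm_num) (by norm_num))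
    (by norm_num) (by norm_num) (by norm_num) (by norm_num) (by norm_num) (by norm_num) (by norm_num) (by norm_num) (by norm_num) (by norm_num) (by norm_num) (by norm_num) (by norm_num) (by norm_num) (by norm_num) (by norm_num) (by norm_num) (by norm_num)
    (exp_neg_leJ (r := 0.589) 7 (by norm_num) (by norm_num) (by norm_num) (by norm_num))
    (exp_neg_leJ (r := 0.903) 4 (by norm_num) (by norm_num) (by norm_num) (by norm_num))
    (exp_neg_leJ (r := 0.405) 10 (by norm_num) (by norm_num) (by norm_num) (by norm_num))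
    (exp_neg_leJ (r := 0.99) 14 (by norm_num) (by norm_num) (by norm_num) (by norm_num))
    (exp_neg_leJ (r := 0.307) 7 (by norm_num) (by norm_num) (by norm_num) (by norm_num))
    (exp_neg_leJ (r := 0.99) 14 (by norm_num) (by norm_num) (by norm_num) (by norm_num))
    (exp_neg_leJ (r := 0.99) 14 (by norm_num) (by norm_num) (by norm_num) (by norm_num))
    (exp_neg_leJ (r := 0.99) 14 (by norm_num) (by norm_num) (by norm_num) (by norm_num))
    (by norm_num)) (by norm_num) hN hβ.le (by norm_num)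

theorem JB7_k0b_c4 {κ t β : ℝ} (h : DomR κ t) (hβ : 0 < β) (hk1 : 0.47 ≤ κ) (hk2 : κ ≤ 0.5)
    (ht1 : -0.86 ≤ t + κ) (ht2 : t + κ ≤ -0.6) (hR0 : β * 10 ≤ κ) (hR : β * (6.75 * (1 + κ ^ 2)) ≤ κ) :
    ‖HH β (sg κ t) - 1‖ ≤ 0.15 := by
  have hN : β * 19.999 ≤ 1 := bNR hβ h.1 hk2 hR0 (by norm_num)
  have hy1 : -0.565 ≤ sy κ t := syL_ang2 h 0.47 0.5 0.86 0.697 0.7667 0.642 0.565 1.75944 0.56836 hk1 hk2 (by linarith) (by norm_num) (by norm_num) (by norm_num) (by norm_num)
    (cos_ge_num (by norm_num) (by norm_num)) (sin_le_num (by norm_num) (by norm_num))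
    (expn_ge (by norm_num) (by norm_num)) (expm_ge (by norm_num) (by norm_num) (by norm_num) (by norm_num)) (by norm_num) (by norm_num) (by norm_num)
    (by norm_num) (by norm_num) (by norm_num)
  have hy2 : sy κ t ≤ -0.31 := syL_le h 0.47 0.5 0.6 0.31 0.73344 0.73345 0.45473 0.48377 hk1 hk2 (by linarith) (by norm_num) (by norm_num) (by norm_num)
    (expm_ge (by norm_num) (by norm_num) (by norm_num) (by norm_num)) (expm_le (by norm_num) (by norm_num) (by norm_num)) (by norm_num)
    (by norm_num) (by norm_num) (by norm_num) (by norm_num) (by norm_num) (by norm_num)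
  rcases le_total (sy κ t) (-0.555) with f0 | g0
  · have hx1 : 0.5925 ≤ sx κ t := sx_lo h 0.47 (-0.555) 0.565 1.74193 0.5925 hk1 (by norm_num) f0 (abs_le.2 ⟨by linarith, by linarith⟩) (by rw [neg_neg]; exact expn_ge (by norm_num) (by norm_num)) (by norm_num) (by norm_num)
    have hx2 : sx κ t ≤ 0.6826 := sx_hi h 0.5 (-0.565) 0.555 1.75945 0.6826 hk2 hy1 (by norm_num) (by rw [abs_of_nonpos (by linarith)]; linarith) (by rw [neg_neg]; exact expn_le (by norm_num) (by norm_num) (by norm_num)) (by norm_num) (by norm_num)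
    exact JB7_k0b_b4_0 hβ hN hx1 hx2 (by linarith) (by linarith)
  rcases le_total (sy κ t) (-0.535) with f1 | g1
  · have hx1 : 0.5796 ≤ sx κ t := sx_lo h 0.47 (-0.535) 0.555 1.70744 0.5796 hk1 (by norm_num) f1 (abs_le.2 ⟨by linarith, by linarith⟩) (by rw [neg_neg]; exact expn_ge (by norm_num) (by norm_num)) (by norm_num) (by norm_num)
    have hx2 : sx κ t ≤ 0.6873 := sx_hi h 0.5 (-0.555) 0.535 1.74195 0.6873 hk2 g0 (by norm_num) (by rw [abs_of_nonpos (by linarith)]; linarith) (by rw [neg_neg]; exact expn_le (by norm_num) (by norm_num) (by norm_num)) (by norm_num) (by norm_num)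
    exact JB7_k0b_b4_1 hβ hN hx1 hx2 (by linarith) (by linarith)
  rcases le_total (sy κ t) (-0.495) with f2 | g2
  · have hx1 : 0.5552 ≤ sx κ t := sx_lo h 0.47 (-0.495) 0.535 1.64049 0.5552 hk1 (by norm_num) f2 (abs_le.2 ⟨by linarith, by linarith⟩) (by rw [neg_neg]; exact expn_ge (by norm_num) (by norm_num)) (by norm_num) (by norm_num)
    have hx2 : sx κ t ≤ 0.6956 := sx_hi h 0.5 (-0.535) 0.495 1.70745 0.6956 hk2 g1 (by norm_num) (by rw [abs_of_nonpos (by linarith)]; linarith) (by rw [neg_neg]; exact expn_le (by norm_num) (by norm_num) (by norm_num)) (by norm_num) (by norm_num)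
    exact JB7_k0b_b4_2 hβ hN hx1 hx2 (by linarith) (by linarith)
  rcases le_total (sy κ t) (-0.415) with f3 | g3
  · have hx1 : 0.5114 ≤ sx κ t := sx_lo h 0.47 (-0.415) 0.495 1.51437 0.5114 hk1 (by norm_num) f3 (abs_le.2 ⟨by linarith, by linarith⟩) (by rw [neg_neg]; exact expn_ge (by norm_num) (by norm_num)) (by norm_num) (by norm_num)
    have hx2 : sx κ t ≤ 0.7076 := sx_hi h 0.5 (-0.495) 0.415 1.6405 0.7076 hk2 g2 (by norm_num) (by rw [abs_of_nonpos (by linarith)]; linarith) (by rw [neg_neg]; exact expn_le (by norm_num) (by norm_num) (by norm_num)) (by norm_num) (by norm_num)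
    exact JB7_k0b_b4_3 hβ hN hx1 hx2 (by linarith) (by linarith)
  have hx1 : 0.4882 ≤ sx κ t := sx_lo h 0.47 (-0.31) 0.415 1.36342 0.4882 hk1 (by norm_num) hy2 (abs_le.2 ⟨by linarith, by linarith⟩) (by rw [neg_neg]; exact expn_ge (by norm_num) (by norm_num)) (by norm_num) (by norm_num)
  have hx2 : sx κ t ≤ 0.6909 := sx_hi h 0.5 (-0.415) 0.31 1.51438 0.6909 hk2 g3 (by norm_num) (by rw [abs_of_nonpos (by linarith)]; linarith) (by rw [neg_neg]; exact expn_le (by norm_num) (by norm_num) (by norm_num)) (by norm_num) (by norm_num)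
  exact JB7_k0b_b4_4 hβ hN hx1 hx2 (by linarith) (by linarith)

private theorem JB7_k0b_b5_0 {β x y : ℝ} (hβ : 0 < β) (hN : β * 18.867 ≤ 1) (hx1 : 0.6657 ≤ x) (hx2 : x ≤ 0.7537)
    (hy1 : -0.575 ≤ y) (hy2 : y ≤ -0.565) : ‖HH β (x + y * I) - 1‖ ≤ 0.15 := by
  refine le_epsJ (C := 2.801) (N0 := 18.867) (J_boxp 0.6657 0.7537 0.575 0 (-0.565) 0.7705 0.948 0.8703 1.3794 0.3722 4.3437 18.867 1.2304 6.345 1.771 0.5994 0.3852 0.2272 0.3285 1.8111 0.3642 1.4217 1.339 3.4665 0.0006983 0.01377 0.002036 0.0000003101 0.00104 0.0000003101 0.0000003101 0.0000003101 2.801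
    hβ hN hx1 hx2 hy1 hy2 (by norm_num) (by norm_num) (by linarith) (by norm_num) (by norm_num) (by norm_num) (by norm_num) (by norm_num) (by norm_num) (by norm_num) (by norm_num) (by norm_num) (by norm_num) (by norm_num) (by norm_num) (by norm_num) (by norm_num) (by norm_num) (by norm_num) (by norm_num) (by norm_num) (by norm_num) (by norm_num) (by norm_num)
    (cube_sqrt_geJ (s := 0.768) (by norm_num) (by norm_num) (by norm_num) (by norm_num))
    (cube_sqrt_geJ (s := 0.9216) (by norm_num) (by norm_num) (by norm_num) (by norm_num))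
    (by norm_num) (by norm_num) (by norm_num) (by norm_num) (by norm_num) (by norm_num) (by norm_num) (by norm_num) (by norm_num) (by norm_num) (by norm_num) (by norm_num) (by norm_num) (by norm_num) (by norm_num) (by norm_num) (by norm_num) (by norm_num)
    (exp_neg_leJ (r := 0.267) 7 (by norm_num) (by norm_num) (by norm_num) (by norm_num))
    (exp_neg_leJ (r := 0.286) 4 (by norm_num) (by norm_num) (by norm_num) (by norm_num))
    (exp_neg_leJ (r := 0.197) 6 (by norm_num) (by norm_num) (by norm_num) (by norm_num))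
    (exp_neg_leJ (r := 0.99) 14 (by norm_num) (by norm_num) (by norm_num) (by norm_num))
    (exp_neg_leJ (r := 0.871) 6 (by norm_num) (by norm_num) (by norm_num) (by norm_num))
    (exp_neg_leJ (r := 0.99) 14 (by norm_num) (by norm_num) (by norm_num) (by norm_num))
    (exp_neg_leJ (r := 0.99) 14 (by norm_num) (by norm_num) (by norm_num) (by norm_num))
    (exp_neg_leJ (r := 0.99) 14 (by norm_num) (by norm_num) (by norm_num) (by norm_num))
    (by norm_num)) (by norm_num) hN hβ.le (by norm_num)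

private theorem JB7_k0b_b5_1 {β x y : ℝ} (hβ : 0 < β) (hN : β * 18.867 ≤ 1) (hx1 : 0.6571 ≤ x) (hx2 : x ≤ 0.7531)
    (hy1 : -0.565 ≤ y) (hy2 : y ≤ -0.55) : ‖HH β (x + y * I) - 1‖ ≤ 0.15 := by
  refine le_epsJ (C := 2.7285) (N0 := 18.867) (J_boxp 0.6571 0.7531 0.565 0 (-0.55) 0.7715 0.9415 0.8774 1.3823 0.3737 4.3437 18.867 1.2204 6.221 1.763 0.6089 0.3857 0.2288 0.3413 1.8445 0.3655 1.4098 1.349 3.467 0.0006913 0.01336 0.001599 0.0000003101 0.001016 0.0000003101 0.0000003101 0.0000003101 2.7285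
    hβ hN hx1 hx2 hy1 hy2 (by norm_num) (by norm_num) (by linarith) (by norm_num) (by norm_num) (by norm_num) (by norm_num) (by norm_num) (by norm_num) (by norm_num) (by norm_num) (by norm_num) (by norm_num) (by norm_num) (by norm_num) (by norm_num) (by norm_num) (by norm_num) (by norm_num) (by norm_num) (by norm_num) (by norm_num) (by norm_num) (by norm_num)
    (cube_sqrt_geJ (s := 0.7701) (by norm_num) (by norm_num) (by norm_num) (by norm_num))
    (cube_sqrt_geJ (s := 0.9222) (by norm_num) (by norm_num) (by norm_num) (by norm_num))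
    (by norm_num) (by norm_num) (by norm_num) (by norm_num) (by norm_num) (by norm_num) (by norm_num) (by norm_num) (by norm_num) (by norm_num) (by norm_num) (by norm_num) (by norm_num) (by norm_num) (by norm_num) (by norm_num) (by norm_num) (by norm_num)
    (exp_neg_leJ (r := 0.277) 7 (by norm_num) (by norm_num) (by norm_num) (by norm_num))
    (exp_neg_leJ (r := 0.316) 4 (by norm_num) (by norm_num) (by norm_num) (by norm_num))
    (exp_neg_leJ (r := 0.439) 6 (by norm_num) (by norm_num) (by norm_num) (by norm_num))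
    (exp_neg_leJ (r := 0.99) 14 (by norm_num) (by norm_num) (by norm_num) (by norm_num))
    (exp_neg_leJ (r := 0.895) 6 (by norm_num) (by norm_num) (by norm_num) (by norm_num))
    (exp_neg_leJ (r := 0.99) 14 (by norm_num) (by norm_num) (by norm_num) (by norm_num))
    (exp_neg_leJ (r := 0.99) 14 (by norm_num) (by norm_num) (by norm_num) (by norm_num))
    (exp_neg_leJ (r := 0.99) 14 (by norm_num) (by norm_num) (by norm_num) (by norm_num))
    (by norm_num)) (by norm_num) hN hβ.le (by norm_num)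

private theorem JB7_k0b_b5_2 {β x y : ℝ} (hβ : 0 < β) (hN : β * 18.867 ≤ 1) (hx1 : 0.6362 ≤ x) (hx2 : x ≤ 0.7573)
    (hy1 : -0.55 ≤ y) (hy2 : y ≤ -0.52) : ‖HH β (x + y * I) - 1‖ ≤ 0.15 := by
  refine le_epsJ (C := 2.7774) (N0 := 18.867) (J_boxp 0.6362 0.7573 0.55 0 (-0.52) 0.7675 0.936 0.8967 1.4084 0.3778 4.3437 18.867 1.2196 6.211 1.762 0.6211 0.3837 0.2277 0.3579 1.8917 0.3635 1.3808 1.348 3.4401 0.0007181 0.01363 0.00117 0.0000003101 0.001054 0.0000003101 0.0000003101 0.0000003101 2.7774
    hβ hN hx1 hx2 hy1 hy2 (by norm_num) (by norm_num) (by linarith) (by norm_num) (by norm_num) (by norm_num) (by norm_num) (by norm_num) (by norm_num) (by norm_num) (by norm_num) (by norm_num) (by norm_num) (by norm_num) (by norm_num) (by norm_num) (by norm_num) (by norm_num) (by norm_num) (by norm_num) (by norm_num) (by norm_num) (by norm_num) (by norm_num)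
    (cube_sqrt_geJ (s := 0.7703) (by norm_num) (by norm_num) (by norm_num) (by norm_num))
    (cube_sqrt_geJ (s := 0.9223) (by norm_num) (by norm_num) (by norm_num) (by norm_num))
    (by norm_num) (by norm_num) (by norm_num) (by norm_num) (by norm_num) (by norm_num) (by norm_num) (by norm_num) (by norm_num) (by norm_num) (by norm_num) (by norm_num) (by norm_num) (by norm_num) (by norm_num) (by norm_num) (by norm_num) (by norm_num)
    (exp_neg_leJ (r := 0.239) 7 (by norm_num) (by norm_num) (by norm_num) (by norm_num))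
    (exp_neg_leJ (r := 0.296) 4 (by norm_num) (by norm_num) (by norm_num) (by norm_num))
    (exp_neg_leJ (r := 0.752) 6 (by norm_num) (by norm_num) (by norm_num) (by norm_num))
    (exp_neg_leJ (r := 0.99) 14 (by norm_num) (by norm_num) (by norm_num) (by norm_num))
    (exp_neg_leJ (r := 0.858) 6 (by norm_num) (by norm_num) (by norm_num) (by norm_num))
    (exp_neg_leJ (r := 0.99) 14 (by norm_num) (by norm_num) (by norm_num) (by norm_num))
    (exp_neg_leJ (r := 0.99) 14 (by norm_num) (by norm_num) (by norm_num) (by norm_num))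
    (exp_neg_leJ (r := 0.99) 14 (by norm_num) (by norm_num) (by norm_num) (by norm_num))
    (by norm_num)) (by norm_num) hN hβ.le (by norm_num)

private theorem JB7_k0b_b5_3 {β x y : ℝ} (hβ : 0 < β) (hN : β * 18.867 ≤ 1) (hx1 : 0.6026 ≤ x) (hx2 : x ≤ 0.7606)
    (hy1 : -0.52 ≤ y) (hy2 : y ≤ -0.465) : ‖HH β (x + y * I) - 1‖ ≤ 0.15 := by
  refine le_epsJ (C := 2.7265) (N0 := 18.867) (J_boxp 0.6026 0.7606 0.52 0 (-0.465) 0.7651 0.9214 0.93 1.4411 0.3848 4.3437 18.867 1.2043 6.028 1.748 0.6475 0.3825 0.2289 0.3937 1.9888 0.3636 1.3343 1.3623 3.4126 0.0007348 0.01333 0.0005951 0.0000003101 0.001051 0.0000003101 0.0000003101 0.0000003101 2.7265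
    hβ hN hx1 hx2 hy1 hy2 (by norm_num) (by norm_num) (by linarith) (by norm_num) (by norm_num) (by norm_num) (by norm_num) (by norm_num) (by norm_num) (by norm_num) (by norm_num) (by norm_num) (by norm_num) (by norm_num) (by norm_num) (by norm_num) (by norm_num) (by norm_num) (by norm_num) (by norm_num) (by norm_num) (by norm_num) (by norm_num) (by norm_num)
    (cube_sqrt_geJ (s := 0.7736) (by norm_num) (by norm_num) (by norm_num) (by norm_num))
    (cube_sqrt_geJ (s := 0.9233) (by norm_num) (by norm_num) (by norm_num) (by norm_num))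
    (by norm_num) (by norm_num) (by norm_num) (by norm_num) (by norm_num) (by norm_num) (by norm_num) (by norm_num) (by norm_num) (by norm_num) (by norm_num) (by norm_num) (by norm_num) (by norm_num) (by norm_num) (by norm_num) (by norm_num) (by norm_num)
    (exp_neg_leJ (r := 0.216) 7 (by norm_num) (by norm_num) (by norm_num) (by norm_num))
    (exp_neg_leJ (r := 0.318) 4 (by norm_num) (by norm_num) (by norm_num) (by norm_num))
    (exp_neg_leJ (r := 0.427) 7 (by norm_num) (by norm_num) (by norm_num) (by norm_num))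
    (exp_neg_leJ (r := 0.99) 14 (by norm_num) (by norm_num) (by norm_num) (by norm_num))
    (exp_neg_leJ (r := 0.86) 6 (by norm_num) (by norm_num) (by norm_num) (by norm_num))
    (exp_neg_leJ (r := 0.99) 14 (by norm_num) (by norm_num) (by norm_num) (by norm_num))
    (exp_neg_leJ (r := 0.99) 14 (by norm_num) (by norm_num) (by norm_num) (by norm_num))
    (exp_neg_leJ (r := 0.99) 14 (by norm_num) (by norm_num) (by norm_num) (by norm_num))
    (by norm_num)) (by norm_num) hN hβ.le (by norm_num)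

private theorem JB7_k0b_b5_4 {β x y : ℝ} (hβ : 0 < β) (hN : β * 18.867 ≤ 1) (hx1 : 0.5359 ≤ x) (hx2 : x ≤ 0.7678)
    (hy1 : -0.465 ≤ y) (hy2 : y ≤ -0.35) : ‖HH β (x + y * I) - 1‖ ≤ 0.15 := by
  refine le_epsJ (C := 2.7457) (N0 := 18.867) (J_boxp 0.5359 0.7678 0.465 0 (-0.35) 0.7572 0.8977 1.006 1.5223 0.4002 4.3437 18.867 1.1856 5.814 1.732 0.6955 0.3785 0.2289 0.4577 2.1656 0.3612 1.242 1.3784 3.3436 0.000792 0.01333 0.0001779 0.0000003101 0.0011 0.0000003101 0.0000003101 0.0000003101 2.7457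
    hβ hN hx1 hx2 hy1 hy2 (by norm_num) (by norm_num) (by linarith) (by norm_num) (by norm_num) (by norm_num) (by norm_num) (by norm_num) (by norm_num) (by norm_num) (by norm_num) (by norm_num) (by norm_num) (by norm_num) (by norm_num) (by norm_num) (by norm_num) (by norm_num) (by norm_num) (by norm_num) (by norm_num) (by norm_num) (by norm_num) (by norm_num)
    (cube_sqrt_geJ (s := 0.7776) (by norm_num) (by norm_num) (by norm_num) (by norm_num))
    (cube_sqrt_geJ (s := 0.9245) (by norm_num) (by norm_num) (by norm_num) (by norm_num))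
    (by norm_num) (by norm_num) (by norm_num) (by norm_num) (by norm_num) (by norm_num) (by norm_num) (by norm_num) (by norm_num) (by norm_num) (by norm_num) (by norm_num) (by norm_num) (by norm_num) (by norm_num) (by norm_num) (by norm_num) (by norm_num)
    (exp_neg_leJ (r := 0.141) 7 (by norm_num) (by norm_num) (by norm_num) (by norm_num))
    (exp_neg_leJ (r := 0.318) 4 (by norm_num) (by norm_num) (by norm_num) (by norm_num))
    (exp_neg_leJ (r := 0.635) 8 (by norm_num) (by norm_num) (by norm_num) (by norm_num))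
    (exp_neg_leJ (r := 0.99) 14 (by norm_num) (by norm_num) (by norm_num) (by norm_num))
    (exp_neg_leJ (r := 0.814) 6 (by norm_num) (by norm_num) (by norm_num) (by norm_num))
    (exp_neg_leJ (r := 0.99) 14 (by norm_num) (by norm_num) (by norm_num) (by norm_num))
    (exp_neg_leJ (r := 0.99) 14 (by norm_num) (by norm_num) (by norm_num) (by norm_num))
    (exp_neg_leJ (r := 0.99) 14 (by norm_num) (by norm_num) (by norm_num) (by norm_num))
    (by norm_num)) (by norm_num) hN hβ.le (by norm_num)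

private theorem JB7_k0b_b5_5 {β x y : ℝ} (hβ : 0 < β) (hN : β * 18.867 ≤ 1) (hx1 : 0.5953 ≤ x) (hx2 : x ≤ 0.6793)
    (hy1 : -0.35 ≤ y) (hy2 : y ≤ -0.323) : ‖HH β (x + y * I) - 1‖ ≤ 0.15 := by
  refine le_epsJ (C := 0.8306) (N0 := 18.867) (J_boxp 0.5953 0.6793 0.35 0 (-0.323) 0.8807 0.7642 0.9591 1.185 0.3907 4.3437 18.867 0.8678 3.305 1.482 0.8357 0.4403 0.3129 0.6595 2.5899 0.4529 1.3242 1.8098 3.8253 0.0002468 0.002738 0.00000395 0.0000003101 0.0001948 0.0000003101 0.0000003101 0.0000003101 0.8306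
    hβ hN hx1 hx2 hy1 hy2 (by norm_num) (by norm_num) (by linarith) (by norm_num) (by norm_num) (by norm_num) (by norm_num) (by norm_num) (by norm_num) (by norm_num) (by norm_num) (by norm_num) (by norm_num) (by norm_num) (by norm_num) (by norm_num) (by norm_num) (by norm_num) (by norm_num) (by norm_num) (by norm_num) (by norm_num) (by norm_num) (by norm_num)
    (cube_sqrt_geJ (s := 0.843) (by norm_num) (by norm_num) (by norm_num) (by norm_num))
    (cube_sqrt_geJ (s := 0.9453) (by norm_num) (by norm_num) (by norm_num) (by norm_num))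
    (by norm_num) (by norm_num) (by norm_num) (by norm_num) (by norm_num) (by norm_num) (by norm_num) (by norm_num) (by norm_num) (by norm_num) (by norm_num) (by norm_num) (by norm_num) (by norm_num) (by norm_num) (by norm_num) (by norm_num) (by norm_num)
    (exp_neg_leJ (r := 0.307) 8 (by norm_num) (by norm_num) (by norm_num) (by norm_num))
    (exp_neg_leJ (r := 0.903) 5 (by norm_num) (by norm_num) (by norm_num) (by norm_num))
    (exp_neg_leJ (r := 0.442) 12 (by norm_num) (by norm_num) (by norm_num) (by norm_num))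
    (exp_neg_leJ (r := 0.99) 14 (by norm_num) (by norm_num) (by norm_num) (by norm_num))
    (exp_neg_leJ (r := 0.544) 8 (by norm_num) (by norm_num) (by norm_num) (by norm_num))
    (exp_neg_leJ (r := 0.99) 14 (by norm_num) (by norm_num) (by norm_num) (by norm_num))
    (exp_neg_leJ (r := 0.99) 14 (by norm_num) (by norm_num) (by norm_num) (by norm_num))
    (exp_neg_leJ (r := 0.99) 14 (by norm_num) (by norm_num) (by norm_num) (by norm_num))
    (by norm_num)) (by norm_num) hN hβ.le (by norm_num)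

theorem JB7_k0b_c5 {κ t β : ℝ} (h : DomR κ t) (hβ : 0 < β) (hk1 : 0.5 ≤ κ) (hk2 : κ ≤ 0.53)
    (ht1 : -0.86 ≤ t + κ) (ht2 : t + κ ≤ -0.6) (hR0 : β * 10 ≤ κ) (hR : β * (6.75 * (1 + κ ^ 2)) ≤ κ) :
    ‖HH β (sg κ t) - 1‖ ≤ 0.15 := by
  have hN : β * 18.867 ≤ 1 := bNR hβ h.1 hk2 hR0 (by norm_num)
  have hy1 : -0.575 ≤ sy κ t := syL_ang2 h 0.5 0.53 0.86 0.656 0.7924 0.61 0.575 1.77712 0.5627 hk1 hk2 (by linarith) (by norm_num) (by norm_num) (by norm_num) (by norm_num)
    (cos_ge_num (by norm_num) (by norm_num)) (sin_le_num (by norm_num) (by norm_num))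
    (expn_ge (by norm_num) (by norm_num)) (expm_ge (by norm_num) (by norm_num) (by norm_num) (by norm_num)) (by norm_num) (by norm_num) (by norm_num)
    (by norm_num) (by norm_num) (by norm_num)
  have hy2 : sy κ t ≤ -0.323 := syL_le h 0.5 0.53 0.6 0.323 0.72397 0.72398 0.44121 0.4677 hk1 hk2 (by linarith) (by norm_num) (by norm_num) (by norm_num)
    (expm_ge (by norm_num) (by norm_num) (by norm_num) (by norm_num)) (expm_le (by norm_num) (by norm_num) (by norm_num)) (by norm_num)
    (by norm_num) (by norm_num) (by norm_num) (by norm_num) (by norm_num) (by norm_num)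
  rcases le_total (sy κ t) (-0.565) with f0 | g0
  · have hx1 : 0.6657 ≤ sx κ t := sx_lo h 0.5 (-0.565) 0.575 1.75944 0.6657 hk1 (by norm_num) f0 (abs_le.2 ⟨by linarith, by linarith⟩) (by rw [neg_neg]; exact expn_ge (by norm_num) (by norm_num)) (by norm_num) (by norm_num)
    have hx2 : sx κ t ≤ 0.7537 := sx_hi h 0.53 (-0.575) 0.565 1.77714 0.7537 hk2 hy1 (by norm_num) (by rw [abs_of_nonpos (by linarith)]; linarith) (by rw [neg_neg]; exact expn_le (by norm_num) (by norm_num) (by norm_num)) (by norm_num) (by norm_num)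
    exact JB7_k0b_b5_0 hβ hN hx1 hx2 (by linarith) (by linarith)
  rcases le_total (sy κ t) (-0.55) with f1 | g1
  · have hx1 : 0.6571 ≤ sx κ t := sx_lo h 0.5 (-0.55) 0.565 1.73324 0.6571 hk1 (by norm_num) f1 (abs_le.2 ⟨by linarith, by linarith⟩) (by rw [neg_neg]; exact expn_ge (by norm_num) (by norm_num)) (by norm_num) (by norm_num)
    have hx2 : sx κ t ≤ 0.7531 := sx_hi h 0.53 (-0.565) 0.55 1.75945 0.7531 hk2 g0 (by norm_num) (by rw [abs_of_nonpos (by linarith)]; linarith) (by rw [neg_neg]; exact expn_le (by norm_num) (by norm_num) (by norm_num)) (by norm_num) (by norm_num)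
    exact JB7_k0b_b5_1 hβ hN hx1 hx2 (by linarith) (by linarith)
  rcases le_total (sy κ t) (-0.52) with f2 | g2
  · have hx1 : 0.6362 ≤ sx κ t := sx_lo h 0.5 (-0.52) 0.55 1.68202 0.6362 hk1 (by norm_num) f2 (abs_le.2 ⟨by linarith, by linarith⟩) (by rw [neg_neg]; exact expn_ge (by norm_num) (by norm_num)) (by norm_num) (by norm_num)
    have hx2 : sx κ t ≤ 0.7573 := sx_hi h 0.53 (-0.55) 0.52 1.73326 0.7573 hk2 g1 (by norm_num) (by rw [abs_of_nonpos (by linarith)]; linarith) (by rw [neg_neg]; exact expn_le (by norm_num) (by norm_num) (by norm_num)) (by norm_num) (by norm_num)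
    exact JB7_k0b_b5_2 hβ hN hx1 hx2 (by linarith) (by linarith)
  rcases le_total (sy κ t) (-0.465) with f3 | g3
  · have hx1 : 0.6026 ≤ sx κ t := sx_lo h 0.5 (-0.465) 0.52 1.59201 0.6026 hk1 (by norm_num) f3 (abs_le.2 ⟨by linarith, by linarith⟩) (by rw [neg_neg]; exact expn_ge (by norm_num) (by norm_num)) (by norm_num) (by norm_num)
    have hx2 : sx κ t ≤ 0.7606 := sx_hi h 0.53 (-0.52) 0.465 1.68203 0.7606 hk2 g2 (by norm_num) (by rw [abs_of_nonpos (by linarith)]; linarith) (by rw [neg_neg]; exact expn_le (by norm_num) (by norm_num) (by norm_num)) (by norm_num) (by norm_num)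
    exact JB7_k0b_b5_3 hβ hN hx1 hx2 (by linarith) (by linarith)
  rcases le_total (sy κ t) (-0.35) with f4 | g4
  · have hx1 : 0.5359 ≤ sx κ t := sx_lo h 0.5 (-0.35) 0.465 1.41906 0.5359 hk1 (by norm_num) f4 (abs_le.2 ⟨by linarith, by linarith⟩) (by rw [neg_neg]; exact expn_ge (by norm_num) (by norm_num)) (by norm_num) (by norm_num)
    have hx2 : sx κ t ≤ 0.7678 := sx_hi h 0.53 (-0.465) 0.35 1.59202 0.7678 hk2 g3 (by norm_num) (by rw [abs_of_nonpos (by linarith)]; linarith) (by rw [neg_neg]; exact expn_le (by norm_num) (by norm_num) (by norm_num)) (by norm_num) (by norm_num)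
    exact JB7_k0b_b5_4 hβ hN hx1 hx2 (by linarith) (by linarith)
  have hx1 : 0.5953 ≤ sx κ t := sx_lo h 0.5 (-0.323) 0.35 1.38126 0.5953 hk1 (by norm_num) hy2 (abs_le.2 ⟨by linarith, by linarith⟩) (by rw [neg_neg]; exact expn_ge (by norm_num) (by norm_num)) (by norm_num) (by norm_num)
  have hx2 : sx κ t ≤ 0.6793 := sx_hi h 0.53 (-0.35) 0.323 1.41907 0.6793 hk2 g4 (by norm_num) (by rw [abs_of_nonpos (by linarith)]; linarith) (by rw [neg_neg]; exact expn_le (by norm_num) (by norm_num) (by norm_num)) (by norm_num) (by norm_num)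
  exact JB7_k0b_b5_5 hβ hN hx1 hx2 (by linarith) (by linarith)
end Sok
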