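import Pool.Agent.Lib.MP_816dec_an.JBG2

/-!
MP_816dec_an (A3, row R1): tables b = 7, real points.
-/

set_option autoImplicit false
set_option maxHeartbeats 4000000

open Complex Set

namespace Sok

private theorem JB7_k0b_b6_0 {β x y : ℝ} (hβ : 0 < β) (hN : β * 17.857 ≤ 1) (hx1 : 0.7357 ≤ x) (hx2 : x ≤ 0.8214)
    (hy1 : -0.579 ≤ y) (hy2 : y ≤ -0.569) : ‖HH β (x + y * I) - 1‖ ≤ 0.15 := by
  refine le_epsJ (C := 2.6428) (N0 := 17.857) (J_boxp 0.7357 0.8214 0.579 0 (-0.569) 0.8169 1.005 0.9277 1.3046 0.3843 4.2258 17.857 1.2303 6.344 1.771 0.5697 0.4084 0.2409 0.3461 1.7623 0.396 1.5186 1.4682 3.4516 0.000681 0.01356 0.002071 0.0000003101 0.0008494 0.0000003101 0.0000003101 0.0000003101 2.6428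
    hβ hN hx1 hx2 hy1 hy2 (by norm_num) (by norm_num) (by linarith) (by norm_num) (by norm_num) (by norm_num) (by norm_num) (by norm_num) (by norm_num) (by norm_num) (by norm_num) (by norm_num) (by norm_num) (by norm_num) (by norm_num) (by norm_num) (by norm_num) (by norm_num) (by norm_num) (by norm_num) (by norm_num) (by norm_num) (by norm_num) (by norm_num)
    (cube_sqrt_geJ (s := 0.768) (by norm_num) (by norm_num) (by norm_num) (by norm_num))
    (cube_sqrt_geJ (s := 0.9216) (by norm_num) (by norm_num) (by norm_num) (by norm_num))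
    (by norm_num) (by norm_num) (by norm_num) (by norm_num) (by norm_num) (by norm_num) (by norm_num) (by norm_num) (by norm_num) (by norm_num) (by norm_num) (by norm_num) (by norm_num) (by norm_num) (by norm_num) (by norm_num) (by norm_num) (by norm_num)
    (exp_neg_leJ (r := 0.292) 7 (by norm_num) (by norm_num) (by norm_num) (by norm_num))
    (exp_neg_leJ (r := 0.301) 4 (by norm_num) (by norm_num) (by norm_num) (by norm_num))
    (exp_neg_leJ (r := 0.18) 6 (by norm_num) (by norm_num) (by norm_num) (by norm_num))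
    (exp_neg_leJ (r := 0.99) 14 (by norm_num) (by norm_num) (by norm_num) (by norm_num))
    (exp_neg_leJ (r := 0.071) 7 (by norm_num) (by norm_num) (by norm_num) (by norm_num))
    (exp_neg_leJ (r := 0.99) 14 (by norm_num) (by norm_num) (by norm_num) (by norm_num))
    (exp_neg_leJ (r := 0.99) 14 (by norm_num) (by norm_num) (by norm_num) (by norm_num))
    (exp_neg_leJ (r := 0.99) 14 (by norm_num) (by norm_num) (by norm_num) (by norm_num))
    (by norm_num)) (by norm_num) hN hβ.le (by norm_num)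

private theorem JB7_k0b_b6_1 {β x y : ℝ} (hβ : 0 < β) (hN : β * 17.857 ≤ 1) (hx1 : 0.7258 ≤ x) (hx2 : x ≤ 0.8196)
    (hy1 : -0.569 ≤ y) (hy2 : y ≤ -0.554) : ‖HH β (x + y * I) - 1‖ ≤ 0.15 := by
  refine le_epsJ (C := 2.5826) (N0 := 17.857) (J_boxp 0.7258 0.8196 0.569 0 (-0.554) 0.8171 0.9978 0.9331 1.3079 0.3854 4.2258 17.857 1.2212 6.231 1.763 0.5796 0.4085 0.2422 0.3585 1.7962 0.3967 1.5049 1.4755 3.4513 0.0006797 0.01325 0.001661 0.0000003101 0.0008393 0.0000003101 0.0000003101 0.0000003101 2.5826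
    hβ hN hx1 hx2 hy1 hy2 (by norm_num) (by norm_num) (by linarith) (by norm_num) (by norm_num) (by norm_num) (by norm_num) (by norm_num) (by norm_num) (by norm_num) (by norm_num) (by norm_num) (by norm_num) (by norm_num) (by norm_num) (by norm_num) (by norm_num) (by norm_num) (by norm_num) (by norm_num) (by norm_num) (by norm_num) (by norm_num) (by norm_num)
    (cube_sqrt_geJ (s := 0.77) (by norm_num) (by norm_num) (by norm_num) (by norm_num))
    (cube_sqrt_geJ (s := 0.9222) (by norm_num) (by norm_num) (by norm_num) (by norm_num))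
    (by norm_num) (by norm_num) (by norm_num) (by norm_num) (by norm_num) (by norm_num) (by norm_num) (by norm_num) (by norm_num) (by norm_num) (by norm_num) (by norm_num) (by norm_num) (by norm_num) (by norm_num) (by norm_num) (by norm_num) (by norm_num)
    (exp_neg_leJ (r := 0.294) 7 (by norm_num) (by norm_num) (by norm_num) (by norm_num))
    (exp_neg_leJ (r := 0.324) 4 (by norm_num) (by norm_num) (by norm_num) (by norm_num))
    (exp_neg_leJ (r := 0.401) 6 (by norm_num) (by norm_num) (by norm_num) (by norm_num))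
    (exp_neg_leJ (r := 0.99) 14 (by norm_num) (by norm_num) (by norm_num) (by norm_num))
    (exp_neg_leJ (r := 0.083) 7 (by norm_num) (by norm_num) (by norm_num) (by norm_num))
    (exp_neg_leJ (r := 0.99) 14 (by norm_num) (by norm_num) (by norm_num) (by norm_num))
    (exp_neg_leJ (r := 0.99) 14 (by norm_num) (by norm_num) (by norm_num) (by norm_num))
    (exp_neg_leJ (r := 0.99) 14 (by norm_num) (by norm_num) (by norm_num) (by norm_num))
    (by norm_num)) (by norm_num) hN hβ.le (by norm_num)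

private theorem JB7_k0b_b6_2 {β x y : ℝ} (hβ : 0 < β) (hN : β * 17.857 ≤ 1) (hx1 : 0.7029 ≤ x) (hx2 : x ≤ 0.8217)
    (hy1 : -0.554 ≤ y) (hy2 : y ≤ -0.524) : ‖HH β (x + y * I) - 1‖ ≤ 0.15 := by
  refine le_epsJ (C := 2.6366) (N0 := 17.857) (J_boxp 0.7029 0.8217 0.554 0 (-0.524) 0.8116 0.9911 0.9497 1.3329 0.3888 4.2258 17.857 1.2212 6.231 1.763 0.5926 0.4057 0.2406 0.3744 1.8445 0.3937 1.4732 1.4705 3.4237 0.0007145 0.01363 0.001251 0.0000003101 0.000885 0.0000003101 0.0000003101 0.0000003101 2.6366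
    hβ hN hx1 hx2 hy1 hy2 (by norm_num) (by norm_num) (by linarith) (by norm_num) (by norm_num) (by norm_num) (by norm_num) (by norm_num) (by norm_num) (by norm_num) (by norm_num) (by norm_num) (by norm_num) (by norm_num) (by norm_num) (by norm_num) (by norm_num) (by norm_num) (by norm_num) (by norm_num) (by norm_num) (by norm_num) (by norm_num) (by norm_num)
    (cube_sqrt_geJ (s := 0.77) (by norm_num) (by norm_num) (by norm_num) (by norm_num))
    (cube_sqrt_geJ (s := 0.9222) (by norm_num) (by norm_num) (by norm_num) (by norm_num))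
    (by norm_num) (by norm_num) (by norm_num) (by norm_num) (by norm_num) (by norm_num) (by norm_num) (by norm_num) (by norm_num) (by norm_num) (by norm_num) (by norm_num) (by norm_num) (by norm_num) (by norm_num) (by norm_num) (by norm_num) (by norm_num)
    (exp_neg_leJ (r := 0.244) 7 (by norm_num) (by norm_num) (by norm_num) (by norm_num))
    (exp_neg_leJ (r := 0.296) 4 (by norm_num) (by norm_num) (by norm_num) (by norm_num))
    (exp_neg_leJ (r := 0.685) 6 (by norm_num) (by norm_num) (by norm_num) (by norm_num))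
    (exp_neg_leJ (r := 0.99) 14 (by norm_num) (by norm_num) (by norm_num) (by norm_num))
    (exp_neg_leJ (r := 0.03) 7 (by norm_num) (by norm_num) (by norm_num) (by norm_num))
    (exp_neg_leJ (r := 0.99) 14 (by norm_num) (by norm_num) (by norm_num) (by norm_num))
    (exp_neg_leJ (r := 0.99) 14 (by norm_num) (by norm_num) (by norm_num) (by norm_num))
    (exp_neg_leJ (r := 0.99) 14 (by norm_num) (by norm_num) (by norm_num) (by norm_num))
    (by norm_num)) (by norm_num) hN hβ.le (by norm_num)

private theorem JB7_k0b_b6_3 {β x y : ℝ} (hβ : 0 < β) (hN : β * 17.857 ≤ 1) (hx1 : 0.6656 ≤ x) (hx2 : x ≤ 0.8213)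
    (hy1 : -0.524 ≤ y) (hy2 : y ≤ -0.469) : ‖HH β (x + y * I) - 1‖ ≤ 0.15 := by
  refine le_epsJ (C := 2.609) (N0 := 17.857) (J_boxp 0.6656 0.8213 0.524 0 (-0.469) 0.8066 0.9743 0.9781 1.3653 0.3946 4.2258 17.857 1.208 6.072 1.752 0.6205 0.4032 0.2409 0.409 1.9433 0.392 1.4215 1.4775 3.3948 0.0007474 0.01356 0.0006736 0.0000003101 0.0009243 0.0000003101 0.0000003101 0.0000003101 2.609
    hβ hN hx1 hx2 hy1 hy2 (by norm_num) (by norm_num) (by linarith) (by norm_num) (by norm_num) (by norm_num) (by norm_num) (by norm_num) (by norm_num) (by norm_num) (by norm_num) (by norm_num) (by norm_num) (by norm_num) (by norm_num) (by norm_num) (by norm_num) (by norm_num) (by norm_num) (by norm_num) (by norm_num) (by norm_num) (by norm_num) (by norm_num)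
    (cube_sqrt_geJ (s := 0.7728) (by norm_num) (by norm_num) (by norm_num) (by norm_num))
    (cube_sqrt_geJ (s := 0.923) (by norm_num) (by norm_num) (by norm_num) (by norm_num))
    (by norm_num) (by norm_num) (by norm_num) (by norm_num) (by norm_num) (by norm_num) (by norm_num) (by norm_num) (by norm_num) (by norm_num) (by norm_num) (by norm_num) (by norm_num) (by norm_num) (by norm_num) (by norm_num) (by norm_num) (by norm_num)
    (exp_neg_leJ (r := 0.199) 7 (by norm_num) (by norm_num) (by norm_num) (by norm_num))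
    (exp_neg_leJ (r := 0.301) 4 (by norm_num) (by norm_num) (by norm_num) (by norm_num))
    (exp_neg_leJ (r := 0.303) 7 (by norm_num) (by norm_num) (by norm_num) (by norm_num))
    (exp_neg_leJ (r := 0.99) 14 (by norm_num) (by norm_num) (by norm_num) (by norm_num))
    (exp_neg_leJ (r := 0.99) 6 (by norm_num) (by norm_num) (by norm_num) (by norm_num))
    (exp_neg_leJ (r := 0.99) 14 (by norm_num) (by norm_num) (by norm_num) (by norm_num))
    (exp_neg_leJ (r := 0.99) 14 (by norm_num) (by norm_num) (by norm_num) (by norm_num))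
    (exp_neg_leJ (r := 0.99) 14 (by norm_num) (by norm_num) (by norm_num) (by norm_num))
    (by norm_num)) (by norm_num) hN hβ.le (by norm_num)

private theorem JB7_k0b_b6_4 {β x y : ℝ} (hβ : 0 < β) (hN : β * 17.857 ≤ 1) (hx1 : 0.5918 ≤ x) (hx2 : x ≤ 0.8222)
    (hy1 : -0.469 ≤ y) (hy2 : y ≤ -0.354) : ‖HH β (x + y * I) - 1‖ ≤ 0.15 := by
  refine le_epsJ (C := 2.6645) (N0 := 17.857) (J_boxp 0.5918 0.8222 0.469 0 (-0.354) 0.7937 0.9466 1.0457 1.4462 0.408 4.2258 17.857 1.1927 5.894 1.738 0.6709 0.3968 0.239 0.4705 2.1231 0.3862 1.3194 1.4794 3.3225 0.0008376 0.01403 0.0002247 0.0000003101 0.001015 0.0000003101 0.0000003101 0.0000003101 2.6645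
    hβ hN hx1 hx2 hy1 hy2 (by norm_num) (by norm_num) (by linarith) (by norm_num) (by norm_num) (by norm_num) (by norm_num) (by norm_num) (by norm_num) (by norm_num) (by norm_num) (by norm_num) (by norm_num) (by norm_num) (by norm_num) (by norm_num) (by norm_num) (by norm_num) (by norm_num) (by norm_num) (by norm_num) (by norm_num) (by norm_num) (by norm_num)
    (cube_sqrt_geJ (s := 0.7761) (by norm_num) (by norm_num) (by norm_num) (by norm_num))
    (cube_sqrt_geJ (s := 0.9241) (by norm_num) (by norm_num) (by norm_num) (by norm_num))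
    (by norm_num) (by norm_num) (by norm_num) (by norm_num) (by norm_num) (by norm_num) (by norm_num) (by norm_num) (by norm_num) (by norm_num) (by norm_num) (by norm_num) (by norm_num) (by norm_num) (by norm_num) (by norm_num) (by norm_num) (by norm_num)
    (exp_neg_leJ (r := 0.085) 7 (by norm_num) (by norm_num) (by norm_num) (by norm_num))
    (exp_neg_leJ (r := 0.267) 4 (by norm_num) (by norm_num) (by norm_num) (by norm_num))
    (exp_neg_leJ (r := 0.401) 8 (by norm_num) (by norm_num) (by norm_num) (by norm_num))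
    (exp_neg_leJ (r := 0.99) 14 (by norm_num) (by norm_num) (by norm_num) (by norm_num))
    (exp_neg_leJ (r := 0.896) 6 (by norm_num) (by norm_num) (by norm_num) (by norm_num))
    (exp_neg_leJ (r := 0.99) 14 (by norm_num) (by norm_num) (by norm_num) (by norm_num))
    (exp_neg_leJ (r := 0.99) 14 (by norm_num) (by norm_num) (by norm_num) (by norm_num))
    (exp_neg_leJ (r := 0.99) 14 (by norm_num) (by norm_num) (by norm_num) (by norm_num))
    (by norm_num)) (by norm_num) hN hβ.le (by norm_num)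

private theorem JB7_k0b_b6_5 {β x y : ℝ} (hβ : 0 < β) (hN : β * 17.857 ≤ 1) (hx1 : 0.6491 ≤ x) (hx2 : x ≤ 0.7251)
    (hy1 : -0.354 ≤ y) (hy2 : y ≤ -0.333) : ‖HH β (x + y * I) - 1‖ ≤ 0.15 := by
  refine le_epsJ (C := 0.8298) (N0 := 17.857) (J_boxp 0.6491 0.7251 0.354 0 (-0.333) 0.9157 0.8069 0.9853 1.1329 0.396 4.2258 17.857 0.8812 3.378 1.492 0.8144 0.4578 0.3233 0.6717 2.5517 0.4769 1.3987 1.9066 3.8169 0.0002819 0.003115 0.000006228 0.0000003101 0.0002003 0.0000003101 0.0000003101 0.0000003101 0.8298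
    hβ hN hx1 hx2 hy1 hy2 (by norm_num) (by norm_num) (by linarith) (by norm_num) (by norm_num) (by norm_num) (by norm_num) (by norm_num) (by norm_num) (by norm_num) (by norm_num) (by norm_num) (by norm_num) (by norm_num) (by norm_num) (by norm_num) (by norm_num) (by norm_num) (by norm_num) (by norm_num) (by norm_num) (by norm_num) (by norm_num) (by norm_num)
    (cube_sqrt_geJ (s := 0.8403) (by norm_num) (by norm_num) (by norm_num) (by norm_num))
    (cube_sqrt_geJ (s := 0.9445) (by norm_num) (by norm_num) (by norm_num) (by norm_num))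
    (by norm_num) (by norm_num) (by norm_num) (by norm_num) (by norm_num) (by norm_num) (by norm_num) (by norm_num) (by norm_num) (by norm_num) (by norm_num) (by norm_num) (by norm_num) (by norm_num) (by norm_num) (by norm_num) (by norm_num) (by norm_num)
    (exp_neg_leJ (r := 0.174) 8 (by norm_num) (by norm_num) (by norm_num) (by norm_num))
    (exp_neg_leJ (r := 0.773) 5 (by norm_num) (by norm_num) (by norm_num) (by norm_num))
    (exp_neg_leJ (r := 0.99) 11 (by norm_num) (by norm_num) (by norm_num) (by norm_num))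
    (exp_neg_leJ (r := 0.99) 14 (by norm_num) (by norm_num) (by norm_num) (by norm_num))
    (exp_neg_leJ (r := 0.516) 8 (by norm_num) (by norm_num) (by norm_num) (by norm_num))
    (exp_neg_leJ (r := 0.99) 14 (by norm_num) (by norm_num) (by norm_num) (by norm_num))
    (exp_neg_leJ (r := 0.99) 14 (by norm_num) (by norm_num) (by norm_num) (by norm_num))
    (exp_neg_leJ (r := 0.99) 14 (by norm_num) (by norm_num) (by norm_num) (by norm_num))
    (by norm_num)) (by norm_num) hN hβ.le (by norm_num)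

theorem JB7_k0b_c6 {κ t β : ℝ} (h : DomR κ t) (hβ : 0 < β) (hk1 : 0.53 ≤ κ) (hk2 : κ ≤ 0.56)
    (ht1 : -0.86 ≤ t + κ) (ht2 : t + κ ≤ -0.6) (hR0 : β * 10 ≤ κ) (hR : β * (6.75 * (1 + κ ^ 2)) ≤ κ) :
    ‖HH β (sg κ t) - 1‖ ≤ 0.15 := by
  have hN : β * 17.857 ≤ 1 := bNR hβ h.1 hk2 hR0 (by norm_num)
  have hy1 : -0.579 ≤ sy κ t := syL_ge h 0.53 0.56 0.86 0.579 0.56045 0.56047 0.5712 0.57946 0.61229 hk1 hk2 (by linarith) (by norm_num) (by norm_num) (by norm_num)
    (expm_ge (by norm_num) (by norm_num) (by norm_num) (by norm_num)) (expm_le (by norm_num) (by norm_num) (by norm_num)) (by norm_num)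
    (by norm_num) (by norm_num) (by norm_num) (by norm_num) (by norm_num) (by norm_num)
  have hy2 : sy κ t ≤ -0.333 := syL_le h 0.53 0.56 0.6 0.333 0.71677 0.71678 0.42622 0.45036 hk1 hk2 (by linarith) (by norm_num) (by norm_num) (by norm_num)
    (expm_ge (by norm_num) (by norm_num) (by norm_num) (by norm_num)) (expm_le (by norm_num) (by norm_num) (by norm_num)) (by norm_num)
    (by norm_num) (by norm_num) (by norm_num) (by norm_num) (by norm_num) (by norm_num)
  rcases le_total (sy κ t) (-0.569) with f0 | g0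
  · have hx1 : 0.7357 ≤ sx κ t := sx_lo h 0.53 (-0.569) 0.579 1.76649 0.7357 hk1 (by norm_num) f0 (abs_le.2 ⟨by linarith, by linarith⟩) (by rw [neg_neg]; exact expn_ge (by norm_num) (by norm_num)) (by norm_num) (by norm_num)
    have hx2 : sx κ t ≤ 0.8214 := sx_hi h 0.56 (-0.579) 0.569 1.78426 0.8214 hk2 hy1 (by norm_num) (by rw [abs_of_nonpos (by linarith)]; linarith) (by rw [neg_neg]; exact expn_le (by norm_num) (by norm_num) (by norm_num)) (by norm_num) (by norm_num)
    exact JB7_k0b_b6_0 hβ hN hx1 hx2 (by linarith) (by linarith)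
  rcases le_total (sy κ t) (-0.554) with f1 | g1
  · have hx1 : 0.7258 ≤ sx κ t := sx_lo h 0.53 (-0.554) 0.569 1.74019 0.7258 hk1 (by norm_num) f1 (abs_le.2 ⟨by linarith, by linarith⟩) (by rw [neg_neg]; exact expn_ge (by norm_num) (by norm_num)) (by norm_num) (by norm_num)
    have hx2 : sx κ t ≤ 0.8196 := sx_hi h 0.56 (-0.569) 0.554 1.7665 0.8196 hk2 g0 (by norm_num) (by rw [abs_of_nonpos (by linarith)]; linarith) (by rw [neg_neg]; exact expn_le (by norm_num) (by norm_num) (by norm_num)) (by norm_num) (by norm_num)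
    exact JB7_k0b_b6_1 hβ hN hx1 hx2 (by linarith) (by linarith)
  rcases le_total (sy κ t) (-0.524) with f2 | g2
  · have hx1 : 0.7029 ≤ sx κ t := sx_lo h 0.53 (-0.524) 0.554 1.68876 0.7029 hk1 (by norm_num) f2 (abs_le.2 ⟨by linarith, by linarith⟩) (by rw [neg_neg]; exact expn_ge (by norm_num) (by norm_num)) (by norm_num) (by norm_num)
    have hx2 : sx κ t ≤ 0.8217 := sx_hi h 0.56 (-0.554) 0.524 1.7402 0.8217 hk2 g1 (by norm_num) (by rw [abs_of_nonpos (by linarith)]; linarith) (by rw [neg_neg]; exact expn_le (by norm_num) (by norm_num) (by norm_num)) (by norm_num) (by norm_num)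
    exact JB7_k0b_b6_2 hβ hN hx1 hx2 (by linarith) (by linarith)
  rcases le_total (sy κ t) (-0.469) with f3 | g3
  · have hx1 : 0.6656 ≤ sx κ t := sx_lo h 0.53 (-0.469) 0.524 1.59839 0.6656 hk1 (by norm_num) f3 (abs_le.2 ⟨by linarith, by linarith⟩) (by rw [neg_neg]; exact expn_ge (by norm_num) (by norm_num)) (by norm_num) (by norm_num)
    have hx2 : sx κ t ≤ 0.8213 := sx_hi h 0.56 (-0.524) 0.469 1.68877 0.8213 hk2 g2 (by norm_num) (by rw [abs_of_nonpos (by linarith)]; linarith) (by rw [neg_neg]; exact expn_le (by norm_num) (by norm_num) (by norm_num)) (by norm_num) (by norm_num)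
    exact JB7_k0b_b6_3 hβ hN hx1 hx2 (by linarith) (by linarith)
  rcases le_total (sy κ t) (-0.354) with f4 | g4
  · have hx1 : 0.5918 ≤ sx κ t := sx_lo h 0.53 (-0.354) 0.469 1.42475 0.5918 hk1 (by norm_num) f4 (abs_le.2 ⟨by linarith, by linarith⟩) (by rw [neg_neg]; exact expn_ge (by norm_num) (by norm_num)) (by norm_num) (by norm_num)
    have hx2 : sx κ t ≤ 0.8222 := sx_hi h 0.56 (-0.469) 0.354 1.5984 0.8222 hk2 g3 (by norm_num) (by rw [abs_of_nonpos (by linarith)]; linarith) (by rw [neg_neg]; exact expn_le (by norm_num) (by norm_num) (by norm_num)) (by norm_num) (by norm_num)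
    exact JB7_k0b_b6_4 hβ hN hx1 hx2 (by linarith) (by linarith)
  have hx1 : 0.6491 ≤ sx κ t := sx_lo h 0.53 (-0.333) 0.354 1.39514 0.6491 hk1 (by norm_num) hy2 (abs_le.2 ⟨by linarith, by linarith⟩) (by rw [neg_neg]; exact expn_ge (by norm_num) (by norm_num)) (by norm_num) (by norm_num)
  have hx2 : sx κ t ≤ 0.7251 := sx_hi h 0.56 (-0.354) 0.333 1.42476 0.7251 hk2 g4 (by norm_num) (by rw [abs_of_nonpos (by linarith)]; linarith) (by rw [neg_neg]; exact expn_le (by norm_num) (by norm_num) (by norm_num)) (by norm_num) (by norm_num)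
  exact JB7_k0b_b6_5 hβ hN hx1 hx2 (by linarith) (by linarith)

private theorem JB7_k0b_b7_0 {β x y : ℝ} (hβ : 0 < β) (hN : β * 16.949 ≤ 1) (hx1 : 0.802 ≤ x) (hx2 : x ≤ 0.8857)
    (hy1 : -0.579 ≤ y) (hy2 : y ≤ -0.569) : ‖HH β (x + y * I) - 1‖ ≤ 0.15 := by
  refine le_epsJ (C := 2.467) (N0 := 16.949) (J_boxp 0.802 0.8857 0.579 0 (-0.569) 0.8636 1.0582 0.9851 1.2368 0.396 4.117 16.949 1.2254 6.282 1.767 0.545 0.4317 0.2554 0.3688 1.7282 0.4282 1.6104 1.6008 3.4395 0.0006649 0.0132 0.001931 0.0000003101 0.0007053 0.0000003101 0.0000003101 0.0000003101 2.467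
    hβ hN hx1 hx2 hy1 hy2 (by norm_num) (by norm_num) (by linarith) (by norm_num) (by norm_num) (by norm_num) (by norm_num) (by norm_num) (by norm_num) (by norm_num) (by norm_num) (by norm_num) (by norm_num) (by norm_num) (by norm_num) (by norm_num) (by norm_num) (by norm_num) (by norm_num) (by norm_num) (by norm_num) (by norm_num) (by norm_num) (by norm_num)
    (cube_sqrt_geJ (s := 0.7691) (by norm_num) (by norm_num) (by norm_num) (by norm_num))
    (cube_sqrt_geJ (s := 0.9219) (by norm_num) (by norm_num) (by norm_num) (by norm_num))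
    (by norm_num) (by norm_num) (by norm_num) (by norm_num) (by norm_num) (by norm_num) (by norm_num) (by norm_num) (by norm_num) (by norm_num) (by norm_num) (by norm_num) (by norm_num) (by norm_num) (by norm_num) (by norm_num) (by norm_num) (by norm_num)
    (exp_neg_leJ (r := 0.316) 7 (by norm_num) (by norm_num) (by norm_num) (by norm_num))
    (exp_neg_leJ (r := 0.328) 4 (by norm_num) (by norm_num) (by norm_num) (by norm_num))
    (exp_neg_leJ (r := 0.25) 6 (by norm_num) (by norm_num) (by norm_num) (by norm_num))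
    (exp_neg_leJ (r := 0.99) 14 (by norm_num) (by norm_num) (by norm_num) (by norm_num))
    (exp_neg_leJ (r := 0.257) 7 (by norm_num) (by norm_num) (by norm_num) (by norm_num))
    (exp_neg_leJ (r := 0.99) 14 (by norm_num) (by norm_num) (by norm_num) (by norm_num))
    (exp_neg_leJ (r := 0.99) 14 (by norm_num) (by norm_num) (by norm_num) (by norm_num))
    (exp_neg_leJ (r := 0.99) 14 (by norm_num) (by norm_num) (by norm_num) (by norm_num))
    (by norm_num)) (by norm_num) hN hβ.le (by norm_num)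

private theorem JB7_k0b_b7_1 {β x y : ℝ} (hβ : 0 < β) (hN : β * 16.949 ≤ 1) (hx1 : 0.7851 ≤ x) (hx2 : x ≤ 0.886)
    (hy1 : -0.569 ≤ y) (hy2 : y ≤ -0.549) : ‖HH β (x + y * I) - 1‖ ≤ 0.15 := by
  refine le_epsJ (C := 2.5087) (N0 := 16.949) (J_boxp 0.7851 0.886 0.569 0 (-0.549) 0.8588 1.053 0.9942 1.2529 0.3978 4.117 16.949 1.2262 6.292 1.768 0.5541 0.4293 0.2538 0.3788 1.7609 0.4255 1.587 1.5941 3.4199 0.000692 0.01356 0.001629 0.0000003101 0.0007385 0.0000003101 0.0000003101 0.0000003101 2.5087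
    hβ hN hx1 hx2 hy1 hy2 (by norm_num) (by norm_num) (by linarith) (by norm_num) (by norm_num) (by norm_num) (by norm_num) (by norm_num) (by norm_num) (by norm_num) (by norm_num) (by norm_num) (by norm_num) (by norm_num) (by norm_num) (by norm_num) (by norm_num) (by norm_num) (by norm_num) (by norm_num) (by norm_num) (by norm_num) (by norm_num) (by norm_num)
    (cube_sqrt_geJ (s := 0.7689) (by norm_num) (by norm_num) (by norm_num) (by norm_num))
    (cube_sqrt_geJ (s := 0.9218) (by norm_num) (by norm_num) (by norm_num) (by norm_num))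
    (by norm_num) (by norm_num) (by norm_num) (by norm_num) (by norm_num) (by norm_num) (by norm_num) (by norm_num) (by norm_num) (by norm_num) (by norm_num) (by norm_num) (by norm_num) (by norm_num) (by norm_num) (by norm_num) (by norm_num) (by norm_num)
    (exp_neg_leJ (r := 0.276) 7 (by norm_num) (by norm_num) (by norm_num) (by norm_num))
    (exp_neg_leJ (r := 0.301) 4 (by norm_num) (by norm_num) (by norm_num) (by norm_num))
    (exp_neg_leJ (r := 0.42) 6 (by norm_num) (by norm_num) (by norm_num) (by norm_num))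
    (exp_neg_leJ (r := 0.99) 14 (by norm_num) (by norm_num) (by norm_num) (by norm_num))
    (exp_neg_leJ (r := 0.211) 7 (by norm_num) (by norm_num) (by norm_num) (by norm_num))
    (exp_neg_leJ (r := 0.99) 14 (by norm_num) (by norm_num) (by norm_num) (by norm_num))
    (exp_neg_leJ (r := 0.99) 14 (by norm_num) (by norm_num) (by norm_num) (by norm_num))
    (exp_neg_leJ (r := 0.99) 14 (by norm_num) (by norm_num) (by norm_num) (by norm_num))
    (by norm_num)) (by norm_num) hN hβ.le (by norm_num)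

private theorem JB7_k0b_b7_2 {β x y : ℝ} (hβ : 0 < β) (hN : β * 16.949 ≤ 1) (hx1 : 0.7584 ≤ x) (hx2 : x ≤ 0.8829)
    (hy1 : -0.549 ≤ y) (hy2 : y ≤ -0.514) : ‖HH β (x + y * I) - 1‖ ≤ 0.15 := by
  refine le_epsJ (C := 2.4868) (N0 := 16.949) (J_boxp 0.7584 0.8829 0.549 0 (-0.514) 0.8542 1.0397 1.0079 1.2717 0.4006 4.117 16.949 1.2172 6.182 1.76 0.5737 0.427 0.2538 0.4013 1.8282 0.4234 1.55 1.5951 3.4026 0.0007195 0.01356 0.001115 0.0000003101 0.0007648 0.0000003101 0.0000003101 0.0000003101 2.4868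
    hβ hN hx1 hx2 hy1 hy2 (by norm_num) (by norm_num) (by linarith) (by norm_num) (by norm_num) (by norm_num) (by norm_num) (by norm_num) (by norm_num) (by norm_num) (by norm_num) (by norm_num) (by norm_num) (by norm_num) (by norm_num) (by norm_num) (by norm_num) (by norm_num) (by norm_num) (by norm_num) (by norm_num) (by norm_num) (by norm_num) (by norm_num)
    (cube_sqrt_geJ (s := 0.7708) (by norm_num) (by norm_num) (by norm_num) (by norm_num))
    (cube_sqrt_geJ (s := 0.9224) (by norm_num) (by norm_num) (by norm_num) (by norm_num))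
    (by norm_num) (by norm_num) (by norm_num) (by norm_num) (by norm_num) (by norm_num) (by norm_num) (by norm_num) (by norm_num) (by norm_num) (by norm_num) (by norm_num) (by norm_num) (by norm_num) (by norm_num) (by norm_num) (by norm_num) (by norm_num)
    (exp_neg_leJ (r := 0.237) 7 (by norm_num) (by norm_num) (by norm_num) (by norm_num))
    (exp_neg_leJ (r := 0.301) 4 (by norm_num) (by norm_num) (by norm_num) (by norm_num))
    (exp_neg_leJ (r := 0.801) 6 (by norm_num) (by norm_num) (by norm_num) (by norm_num))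
    (exp_neg_leJ (r := 0.99) 14 (by norm_num) (by norm_num) (by norm_num) (by norm_num))
    (exp_neg_leJ (r := 0.176) 7 (by norm_num) (by norm_num) (by norm_num) (by norm_num))
    (exp_neg_leJ (r := 0.99) 14 (by norm_num) (by norm_num) (by norm_num) (by norm_num))
    (exp_neg_leJ (r := 0.99) 14 (by norm_num) (by norm_num) (by norm_num) (by norm_num))
    (exp_neg_leJ (r := 0.99) 14 (by norm_num) (by norm_num) (by norm_num) (by norm_num))
    (by norm_num)) (by norm_num) hN hβ.le (by norm_num)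

private theorem JB7_k0b_b7_3 {β x y : ℝ} (hβ : 0 < β) (hN : β * 16.949 ≤ 1) (hx1 : 0.711 ≤ x) (hx2 : x ≤ 0.8784)
    (hy1 : -0.514 ≤ y) (hy2 : y ≤ -0.449) : ‖HH β (x + y * I) - 1‖ ≤ 0.15 := by
  refine le_epsJ (C := 2.4737) (N0 := 16.949) (J_boxp 0.711 0.8784 0.514 0 (-0.449) 0.8457 1.0178 1.037 1.3094 0.4063 4.117 16.949 1.2036 6.02 1.748 0.6078 0.4228 0.2532 0.4403 1.9453 0.4195 1.4844 1.5954 3.3674 0.0007725 0.0137 0.0005746 0.0000003101 0.000817 0.0000003101 0.0000003101 0.0000003101 2.4737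
    hβ hN hx1 hx2 hy1 hy2 (by norm_num) (by norm_num) (by linarith) (by norm_num) (by norm_num) (by norm_num) (by norm_num) (by norm_num) (by norm_num) (by norm_num) (by norm_num) (by norm_num) (by norm_num) (by norm_num) (by norm_num) (by norm_num) (by norm_num) (by norm_num) (by norm_num) (by norm_num) (by norm_num) (by norm_num) (by norm_num) (by norm_num)
    (cube_sqrt_geJ (s := 0.7738) (by norm_num) (by norm_num) (by norm_num) (by norm_num))
    (cube_sqrt_geJ (s := 0.9233) (by norm_num) (by norm_num) (by norm_num) (by norm_num))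
    (by norm_num) (by norm_num) (by norm_num) (by norm_num) (by norm_num) (by norm_num) (by norm_num) (by norm_num) (by norm_num) (by norm_num) (by norm_num) (by norm_num) (by norm_num) (by norm_num) (by norm_num) (by norm_num) (by norm_num) (by norm_num)
    (exp_neg_leJ (r := 0.166) 7 (by norm_num) (by norm_num) (by norm_num) (by norm_num))
    (exp_neg_leJ (r := 0.291) 4 (by norm_num) (by norm_num) (by norm_num) (by norm_num))
    (exp_neg_leJ (r := 0.462) 7 (by norm_num) (by norm_num) (by norm_num) (by norm_num))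
    (exp_neg_leJ (r := 0.99) 14 (by norm_num) (by norm_num) (by norm_num) (by norm_num))
    (exp_neg_leJ (r := 0.11) 7 (by norm_num) (by norm_num) (by norm_num) (by norm_num))
    (exp_neg_leJ (r := 0.99) 14 (by norm_num) (by norm_num) (by norm_num) (by norm_num))
    (exp_neg_leJ (r := 0.99) 14 (by norm_num) (by norm_num) (by norm_num) (by norm_num))
    (exp_neg_leJ (r := 0.99) 14 (by norm_num) (by norm_num) (by norm_num) (by norm_num))
    (by norm_num)) (by norm_num) hN hβ.le (by norm_num)

private theorem JB7_k0b_b7_4 {β x y : ℝ} (hβ : 0 < β) (hN : β * 16.949 ≤ 1) (hx1 : 0.647 ≤ x) (hx2 : x ≤ 0.8592)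
    (hy1 : -0.449 ≤ y) (hy2 : y ≤ -0.341) : ‖HH β (x + y * I) - 1‖ ≤ 0.15 := by
  refine le_epsJ (C := 2.1461) (N0 := 16.949) (J_boxp 0.647 0.8592 0.449 0 (-0.341) 0.8468 0.9695 1.0829 1.3355 0.4152 4.117 16.949 1.1449 5.379 1.697 0.6751 0.4233 0.2618 0.521 2.1683 0.4239 1.3958 1.6441 3.3707 0.0007663 0.01184 0.0001466 0.0000003101 0.0007587 0.0000003101 0.0000003101 0.0000003101 2.1461
    hβ hN hx1 hx2 hy1 hy2 (by norm_num) (by norm_num) (by linarith) (by norm_num) (by norm_num) (by norm_num) (by norm_num) (by norm_num) (by norm_num) (by norm_num) (by norm_num) (by norm_num) (by norm_num) (by norm_num) (by norm_num) (by norm_num) (by norm_num) (by norm_num) (by norm_num) (by norm_num) (by norm_num) (by norm_num) (by norm_num) (by norm_num)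
    (cube_sqrt_geJ (s := 0.7863) (by norm_num) (by norm_num) (by norm_num) (by norm_num))
    (cube_sqrt_geJ (s := 0.9272) (by norm_num) (by norm_num) (by norm_num) (by norm_num))
    (by norm_num) (by norm_num) (by norm_num) (by norm_num) (by norm_num) (by norm_num) (by norm_num) (by norm_num) (by norm_num) (by norm_num) (by norm_num) (by norm_num) (by norm_num) (by norm_num) (by norm_num) (by norm_num) (by norm_num) (by norm_num)
    (exp_neg_leJ (r := 0.174) 7 (by norm_num) (by norm_num) (by norm_num) (by norm_num))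
    (exp_neg_leJ (r := 0.437) 4 (by norm_num) (by norm_num) (by norm_num) (by norm_num))
    (exp_neg_leJ (r := 0.83) 8 (by norm_num) (by norm_num) (by norm_num) (by norm_num))
    (exp_neg_leJ (r := 0.99) 14 (by norm_num) (by norm_num) (by norm_num) (by norm_num))
    (exp_neg_leJ (r := 0.184) 7 (by norm_num) (by norm_num) (by norm_num) (by norm_num))
    (exp_neg_leJ (r := 0.99) 14 (by norm_num) (by norm_num) (by norm_num) (by norm_num))
    (exp_neg_leJ (r := 0.99) 14 (by norm_num) (by norm_num) (by norm_num) (by norm_num))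
    (exp_neg_leJ (r := 0.99) 14 (by norm_num) (by norm_num) (by norm_num) (by norm_num))
    (by norm_num)) (by norm_num) hN hβ.le (by norm_num)

theorem JB7_k0b_c7 {κ t β : ℝ} (h : DomR κ t) (hβ : 0 < β) (hk1 : 0.56 ≤ κ) (hk2 : κ ≤ 0.59)
    (ht1 : -0.86 ≤ t + κ) (ht2 : t + κ ≤ -0.6) (hR0 : β * 10 ≤ κ) (hR : β * (6.75 * (1 + κ ^ 2)) ≤ κ) :
    ‖HH β (sg κ t) - 1‖ ≤ 0.15 := by
  have hN : β * 16.949 ≤ 1 := bNR hβ h.1 hk2 hR0 (by norm_num)
  have hy1 : -0.579 ≤ sy κ t := syL_ge h 0.56 0.59 0.86 0.579 0.56045 0.56047 0.5573 0.55 0.57949 hk1 hk2 (by linarith) (by norm_num) (by norm_num) (by norm_num)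
    (expm_ge (by norm_num) (by norm_num) (by norm_num) (by norm_num)) (expm_le (by norm_num) (by norm_num) (by norm_num)) (by norm_num)
    (by norm_num) (by norm_num) (by norm_num) (by norm_num) (by norm_num) (by norm_num)
  have hy2 : sy κ t ≤ -0.341 := syL_le h 0.56 0.59 0.6 0.341 0.71105 0.71106 0.41096 0.43299 hk1 hk2 (by linarith) (by norm_num) (by norm_num) (by norm_num)
    (expm_ge (by norm_num) (by norm_num) (by norm_num) (by norm_num)) (expm_le (by norm_num) (by norm_num) (by norm_num)) (by norm_num)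
    (by norm_num) (by norm_num) (by norm_num) (by norm_num) (by norm_num) (by norm_num)
  rcases le_total (sy κ t) (-0.569) with f0 | g0
  · have hx1 : 0.802 ≤ sx κ t := sx_lo h 0.56 (-0.569) 0.579 1.76649 0.802 hk1 (by norm_num) f0 (abs_le.2 ⟨by linarith, by linarith⟩) (by rw [neg_neg]; exact expn_ge (by norm_num) (by norm_num)) (by norm_num) (by norm_num)
    have hx2 : sx κ t ≤ 0.8857 := sx_hi h 0.59 (-0.579) 0.569 1.78426 0.8857 hk2 hy1 (by norm_num) (by rw [abs_of_nonpos (by linarith)]; linarith) (by rw [neg_neg]; exact expn_le (by norm_num) (by norm_num) (by norm_num)) (by norm_num) (by norm_num)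
    exact JB7_k0b_b7_0 hβ hN hx1 hx2 (by linarith) (by linarith)
  rcases le_total (sy κ t) (-0.549) with f1 | g1
  · have hx1 : 0.7851 ≤ sx κ t := sx_lo h 0.56 (-0.549) 0.569 1.73151 0.7851 hk1 (by norm_num) f1 (abs_le.2 ⟨by linarith, by linarith⟩) (by rw [neg_neg]; exact expn_ge (by norm_num) (by norm_num)) (by norm_num) (by norm_num)
    have hx2 : sx κ t ≤ 0.886 := sx_hi h 0.59 (-0.569) 0.549 1.7665 0.886 hk2 g0 (by norm_num) (by rw [abs_of_nonpos (by linarith)]; linarith) (by rw [neg_neg]; exact expn_le (by norm_num) (by norm_num) (by norm_num)) (by norm_num) (by norm_num)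
    exact JB7_k0b_b7_1 hβ hN hx1 hx2 (by linarith) (by linarith)
  rcases le_total (sy κ t) (-0.514) with f2 | g2
  · have hx1 : 0.7584 ≤ sx κ t := sx_lo h 0.56 (-0.514) 0.549 1.67196 0.7584 hk1 (by norm_num) f2 (abs_le.2 ⟨by linarith, by linarith⟩) (by rw [neg_neg]; exact expn_ge (by norm_num) (by norm_num)) (by norm_num) (by norm_num)
    have hx2 : sx κ t ≤ 0.8829 := sx_hi h 0.59 (-0.549) 0.514 1.73153 0.8829 hk2 g1 (by norm_num) (by rw [abs_of_nonpos (by linarith)]; linarith) (by rw [neg_neg]; exact expn_le (by norm_num) (by norm_num) (by norm_num)) (by norm_num) (by norm_num)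
    exact JB7_k0b_b7_2 hβ hN hx1 hx2 (by linarith) (by linarith)
  rcases le_total (sy κ t) (-0.449) with f3 | g3
  · have hx1 : 0.711 ≤ sx κ t := sx_lo h 0.56 (-0.449) 0.514 1.56674 0.711 hk1 (by norm_num) f3 (abs_le.2 ⟨by linarith, by linarith⟩) (by rw [neg_neg]; exact expn_ge (by norm_num) (by norm_num)) (by norm_num) (by norm_num)
    have hx2 : sx κ t ≤ 0.8784 := sx_hi h 0.59 (-0.514) 0.449 1.67197 0.8784 hk2 g2 (by norm_num) (by rw [abs_of_nonpos (by linarith)]; linarith) (by rw [neg_neg]; exact expn_le (by norm_num) (by norm_num) (by norm_num)) (by norm_num) (by norm_num)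
    exact JB7_k0b_b7_3 hβ hN hx1 hx2 (by linarith) (by linarith)
  have hx1 : 0.647 ≤ sx κ t := sx_lo h 0.56 (-0.341) 0.449 1.40635 0.647 hk1 (by norm_num) hy2 (abs_le.2 ⟨by linarith, by linarith⟩) (by rw [neg_neg]; exact expn_ge (by norm_num) (by norm_num)) (by norm_num) (by norm_num)
  have hx2 : sx κ t ≤ 0.8592 := sx_hi h 0.59 (-0.449) 0.341 1.56675 0.8592 hk2 g3 (by norm_num) (by rw [abs_of_nonpos (by linarith)]; linarith) (by rw [neg_neg]; exact expn_le (by norm_num) (by norm_num) (by norm_num)) (by norm_num) (by norm_num)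
  exact JB7_k0b_b7_4 hβ hN hx1 hx2 (by linarith) (by linarith)

private theorem JB7_k0b_b8_0 {β x y : ℝ} (hβ : 0 < β) (hN : β * 16.129 ≤ 1) (hx1 : 0.8597 ≤ x) (hx2 : x ≤ 0.951)
    (hy1 : -0.578 ≤ y) (hy2 : y ≤ -0.563) : ‖HH β (x + y * I) - 1‖ ≤ 0.15 := by
  refine le_epsJ (C := 2.4016) (N0 := 16.129) (J_boxp 0.8597 0.951 0.578 0 (-0.563) 0.9049 1.1129 1.0466 1.1885 0.4082 4.0161 16.129 1.2299 6.339 1.771 0.5208 0.4524 0.2669 0.3902 1.6964 0.4568 1.6903 1.7189 3.4063 0.0006783 0.01352 0.00185 0.0000003101 0.0006318 0.0000003101 0.0000003101 0.0000003101 2.4016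
    hβ hN hx1 hx2 hy1 hy2 (by norm_num) (by norm_num) (by linarith) (by norm_num) (by norm_num) (by norm_num) (by norm_num) (by norm_num) (by norm_num) (by norm_num) (by norm_num) (by norm_num) (by norm_num) (by norm_num) (by norm_num) (by norm_num) (by norm_num) (by norm_num) (by norm_num) (by norm_num) (by norm_num) (by norm_num) (by norm_num) (by norm_num)
    (cube_sqrt_geJ (s := 0.7681) (by norm_num) (by norm_num) (by norm_num) (by norm_num))
    (cube_sqrt_geJ (s := 0.9216) (by norm_num) (by norm_num) (by norm_num) (by norm_num))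
    (by norm_num) (by norm_num) (by norm_num) (by norm_num) (by norm_num) (by norm_num) (by norm_num) (by norm_num) (by norm_num) (by norm_num) (by norm_num) (by norm_num) (by norm_num) (by norm_num) (by norm_num) (by norm_num) (by norm_num) (by norm_num)
    (exp_neg_leJ (r := 0.296) 7 (by norm_num) (by norm_num) (by norm_num) (by norm_num))
    (exp_neg_leJ (r := 0.304) 4 (by norm_num) (by norm_num) (by norm_num) (by norm_num))
    (exp_neg_leJ (r := 0.293) 6 (by norm_num) (by norm_num) (by norm_num) (by norm_num))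
    (exp_neg_leJ (r := 0.99) 14 (by norm_num) (by norm_num) (by norm_num) (by norm_num))
    (exp_neg_leJ (r := 0.367) 7 (by norm_num) (by norm_num) (by norm_num) (by norm_num))
    (exp_neg_leJ (r := 0.99) 14 (by norm_num) (by norm_num) (by norm_num) (by norm_num))
    (exp_neg_leJ (r := 0.99) 14 (by norm_num) (by norm_num) (by norm_num) (by norm_num))
    (exp_neg_leJ (r := 0.99) 14 (by norm_num) (by norm_num) (by norm_num) (by norm_num))
    (by norm_num)) (by norm_num) hN hβ.le (by norm_num)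

private theorem JB7_k0b_b8_1 {β x y : ℝ} (hβ : 0 < β) (hN : β * 16.129 ≤ 1) (hx1 : 0.839 ≤ x) (hx2 : x ≤ 0.9465)
    (hy1 : -0.563 ≤ y) (hy2 : y ≤ -0.538) : ‖HH β (x + y * I) - 1‖ ≤ 0.15 := by
  refine le_epsJ (C := 2.3772) (N0 := 16.129) (J_boxp 0.839 0.9465 0.563 0 (-0.538) 0.901 1.1013 1.0533 1.2001 0.4095 4.0161 16.129 1.2224 6.246 1.764 0.5363 0.4504 0.2669 0.4068 1.748 0.4549 1.6616 1.7182 3.3964 0.0007004 0.01352 0.001415 0.0000003101 0.0006511 0.0000003101 0.0000003101 0.0000003101 2.3772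
    hβ hN hx1 hx2 hy1 hy2 (by norm_num) (by norm_num) (by linarith) (by norm_num) (by norm_num) (by norm_num) (by norm_num) (by norm_num) (by norm_num) (by norm_num) (by norm_num) (by norm_num) (by norm_num) (by norm_num) (by norm_num) (by norm_num) (by norm_num) (by norm_num) (by norm_num) (by norm_num) (by norm_num) (by norm_num) (by norm_num) (by norm_num)
    (cube_sqrt_geJ (s := 0.7697) (by norm_num) (by norm_num) (by norm_num) (by norm_num))
    (cube_sqrt_geJ (s := 0.9221) (by norm_num) (by norm_num) (by norm_num) (by norm_num))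
    (by norm_num) (by norm_num) (by norm_num) (by norm_num) (by norm_num) (by norm_num) (by norm_num) (by norm_num) (by norm_num) (by norm_num) (by norm_num) (by norm_num) (by norm_num) (by norm_num) (by norm_num) (by norm_num) (by norm_num) (by norm_num)
    (exp_neg_leJ (r := 0.264) 7 (by norm_num) (by norm_num) (by norm_num) (by norm_num))
    (exp_neg_leJ (r := 0.304) 4 (by norm_num) (by norm_num) (by norm_num) (by norm_num))
    (exp_neg_leJ (r := 0.561) 6 (by norm_num) (by norm_num) (by norm_num) (by norm_num))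
    (exp_neg_leJ (r := 0.99) 14 (by norm_num) (by norm_num) (by norm_num) (by norm_num))
    (exp_neg_leJ (r := 0.337) 7 (by norm_num) (by norm_num) (by norm_num) (by norm_num))
    (exp_neg_leJ (r := 0.99) 14 (by norm_num) (by norm_num) (by norm_num) (by norm_num))
    (exp_neg_leJ (r := 0.99) 14 (by norm_num) (by norm_num) (by norm_num) (by norm_num))
    (exp_neg_leJ (r := 0.99) 14 (by norm_num) (by norm_num) (by norm_num) (by norm_num))
    (by norm_num)) (by norm_num) hN hβ.le (by norm_num)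

private theorem JB7_k0b_b8_2 {β x y : ℝ} (hβ : 0 < β) (hN : β * 16.129 ≤ 1) (hx1 : 0.8022 ≤ x) (hx2 : x ≤ 0.9405)
    (hy1 : -0.538 ≤ y) (hy2 : y ≤ -0.493) : ‖HH β (x + y * I) - 1‖ ≤ 0.15 := by
  refine le_epsJ (C := 2.3747) (N0 := 16.129) (J_boxp 0.8022 0.9405 0.538 0 (-0.493) 0.8929 1.0836 1.0685 1.2252 0.4124 4.0161 16.129 1.2136 6.139 1.757 0.5617 0.4464 0.2658 0.4336 1.8331 0.4507 1.6107 1.7126 3.3709 0.0007474 0.01375 0.0009243 0.0000003101 0.0006969 0.0000003101 0.0000003101 0.0000003101 2.3747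
    hβ hN hx1 hx2 hy1 hy2 (by norm_num) (by norm_num) (by linarith) (by norm_num) (by norm_num) (by norm_num) (by norm_num) (by norm_num) (by norm_num) (by norm_num) (by norm_num) (by norm_num) (by norm_num) (by norm_num) (by norm_num) (by norm_num) (by norm_num) (by norm_num) (by norm_num) (by norm_num) (by norm_num) (by norm_num) (by norm_num) (by norm_num)
    (cube_sqrt_geJ (s := 0.7716) (by norm_num) (by norm_num) (by norm_num) (by norm_num))
    (cube_sqrt_geJ (s := 0.9227) (by norm_num) (by norm_num) (by norm_num) (by norm_num))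
    (by norm_num) (by norm_num) (by norm_num) (by norm_num) (by norm_num) (by norm_num) (by norm_num) (by norm_num) (by norm_num) (by norm_num) (by norm_num) (by norm_num) (by norm_num) (by norm_num) (by norm_num) (by norm_num) (by norm_num) (by norm_num)
    (exp_neg_leJ (r := 0.199) 7 (by norm_num) (by norm_num) (by norm_num) (by norm_num))
    (exp_neg_leJ (r := 0.287) 4 (by norm_num) (by norm_num) (by norm_num) (by norm_num))
    (exp_neg_leJ (r := 0.99) 6 (by norm_num) (by norm_num) (by norm_num) (by norm_num))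
    (exp_neg_leJ (r := 0.99) 14 (by norm_num) (by norm_num) (by norm_num) (by norm_num))
    (exp_neg_leJ (r := 0.269) 7 (by norm_num) (by norm_num) (by norm_num) (by norm_num))
    (exp_neg_leJ (r := 0.99) 14 (by norm_num) (by norm_num) (by norm_num) (by norm_num))
    (exp_neg_leJ (r := 0.99) 14 (by norm_num) (by norm_num) (by norm_num) (by norm_num))
    (exp_neg_leJ (r := 0.99) 14 (by norm_num) (by norm_num) (by norm_num) (by norm_num))
    (by norm_num)) (by norm_num) hN hβ.le (by norm_num)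

private theorem JB7_k0b_b8_3 {β x y : ℝ} (hβ : 0 < β) (hN : β * 16.129 ≤ 1) (hx1 : 0.7376 ≤ x) (hx2 : x ≤ 0.9295)
    (hy1 : -0.493 ≤ y) (hy2 : y ≤ -0.408) : ‖HH β (x + y * I) - 1‖ ≤ 0.15 := by
  refine le_epsJ (C := 2.3674) (N0 := 16.129) (J_boxp 0.7376 0.9295 0.493 0 (-0.408) 0.8793 1.0522 1.1021 1.2733 0.4189 4.0161 16.129 1.1967 5.939 1.742 0.6075 0.4396 0.2642 0.4825 1.9862 0.4439 1.5212 1.7057 3.3271 0.0008335 0.01411 0.0004178 0.0000003101 0.0007779 0.0000003101 0.0000003101 0.0000003101 2.3674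
    hβ hN hx1 hx2 hy1 hy2 (by norm_num) (by norm_num) (by linarith) (by norm_num) (by norm_num) (by norm_num) (by norm_num) (by norm_num) (by norm_num) (by norm_num) (by norm_num) (by norm_num) (by norm_num) (by norm_num) (by norm_num) (by norm_num) (by norm_num) (by norm_num) (by norm_num) (by norm_num) (by norm_num) (by norm_num) (by norm_num) (by norm_num)
    (cube_sqrt_geJ (s := 0.7753) (by norm_num) (by norm_num) (by norm_num) (by norm_num))
    (cube_sqrt_geJ (s := 0.9238) (by norm_num) (by norm_num) (by norm_num) (by norm_num))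
    (by norm_num) (by norm_num) (by norm_num) (by norm_num) (by norm_num) (by norm_num) (by norm_num) (by norm_num) (by norm_num) (by norm_num) (by norm_num) (by norm_num) (by norm_num) (by norm_num) (by norm_num) (by norm_num) (by norm_num) (by norm_num)
    (exp_neg_leJ (r := 0.09) 7 (by norm_num) (by norm_num) (by norm_num) (by norm_num))
    (exp_neg_leJ (r := 0.261) 4 (by norm_num) (by norm_num) (by norm_num) (by norm_num))
    (exp_neg_leJ (r := 0.782) 7 (by norm_num) (by norm_num) (by norm_num) (by norm_num))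
    (exp_neg_leJ (r := 0.99) 14 (by norm_num) (by norm_num) (by norm_num) (by norm_num))
    (exp_neg_leJ (r := 0.159) 7 (by norm_num) (by norm_num) (by norm_num) (by norm_num))
    (exp_neg_leJ (r := 0.99) 14 (by norm_num) (by norm_num) (by norm_num) (by norm_num))
    (exp_neg_leJ (r := 0.99) 14 (by norm_num) (by norm_num) (by norm_num) (by norm_num))
    (exp_neg_leJ (r := 0.99) 14 (by norm_num) (by norm_num) (by norm_num) (by norm_num))
    (by norm_num)) (by norm_num) hN hβ.le (by norm_num)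

private theorem JB7_k0b_b8_4 {β x y : ℝ} (hβ : 0 < β) (hN : β * 16.129 ≤ 1) (hx1 : 0.7282 ≤ x) (hx2 : x ≤ 0.8654)
    (hy1 : -0.408 ≤ y) (hy2 : y ≤ -0.347) : ‖HH β (x + y * I) - 1‖ ≤ 0.15 := by
  refine le_epsJ (C := 1.3116) (N0 := 16.129) (J_boxp 0.7282 0.8654 0.408 0 (-0.347) 0.9331 0.9568 1.0842 1.1553 0.4154 4.0161 16.129 1.0254 4.324 1.6 0.7106 0.4665 0.307 0.6135 2.2985 0.4858 1.5082 1.918 3.5676 0.0005401 0.007098 0.00005055 0.0000003101 0.0003964 0.0000003101 0.0000003101 0.0000003101 1.3116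
    hβ hN hx1 hx2 hy1 hy2 (by norm_num) (by norm_num) (by linarith) (by norm_num) (by norm_num) (by norm_num) (by norm_num) (by norm_num) (by norm_num) (by norm_num) (by norm_num) (by norm_num) (by norm_num) (by norm_num) (by norm_num) (by norm_num) (by norm_num) (by norm_num) (by norm_num) (by norm_num) (by norm_num) (by norm_num) (by norm_num) (by norm_num)
    (cube_sqrt_geJ (s := 0.8112) (by norm_num) (by norm_num) (by norm_num) (by norm_num))
    (cube_sqrt_geJ (s := 0.9351) (by norm_num) (by norm_num) (by norm_num) (by norm_num))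
    (by norm_num) (by norm_num) (by norm_num) (by norm_num) (by norm_num) (by norm_num) (by norm_num) (by norm_num) (by norm_num) (by norm_num) (by norm_num) (by norm_num) (by norm_num) (by norm_num) (by norm_num) (by norm_num) (by norm_num) (by norm_num)
    (exp_neg_leJ (r := 0.524) 7 (by norm_num) (by norm_num) (by norm_num) (by norm_num))
    (exp_neg_leJ (r := 0.951) 4 (by norm_num) (by norm_num) (by norm_num) (by norm_num))
    (exp_neg_leJ (r := 0.895) 9 (by norm_num) (by norm_num) (by norm_num) (by norm_num))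
    (exp_neg_leJ (r := 0.99) 14 (by norm_num) (by norm_num) (by norm_num) (by norm_num))
    (exp_neg_leJ (r := 0.835) 7 (by norm_num) (by norm_num) (by norm_num) (by norm_num))
    (exp_neg_leJ (r := 0.99) 14 (by norm_num) (by norm_num) (by norm_num) (by norm_num))
    (exp_neg_leJ (r := 0.99) 14 (by norm_num) (by norm_num) (by norm_num) (by norm_num))
    (exp_neg_leJ (r := 0.99) 14 (by norm_num) (by norm_num) (by norm_num) (by norm_num))
    (by norm_num)) (by norm_num) hN hβ.le (by norm_num)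

theorem JB7_k0b_c8 {κ t β : ℝ} (h : DomR κ t) (hβ : 0 < β) (hk1 : 0.59 ≤ κ) (hk2 : κ ≤ 0.62)
    (ht1 : -0.86 ≤ t + κ) (ht2 : t + κ ≤ -0.6) (hR0 : β * 10 ≤ κ) (hR : β * (6.75 * (1 + κ ^ 2)) ≤ κ) :
    ‖HH β (sg κ t) - 1‖ ≤ 0.15 := by
  have hN : β * 16.129 ≤ 1 := bNR hβ h.1 hk2 hR0 (by norm_num)
  have hy1 : -0.578 ≤ sy κ t := syL_ge h 0.59 0.62 0.86 0.578 0.56101 0.56103 0.5252 0.523 0.54962 hk1 hk2 (by linarith) (by norm_num) (by norm_num) (by norm_num)
    (expm_ge (by norm_num) (by norm_num) (by norm_num) (by norm_num)) (expm_le (by norm_num) (by norm_num) (by norm_num)) (by norm_num)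
    (by norm_num) (by norm_num) (by norm_num) (by norm_num) (by norm_num) (by norm_num)
  have hy2 : sy κ t ≤ -0.347 := syL_le h 0.59 0.62 0.6 0.347 0.7068 0.70681 0.39557 0.41571 hk1 hk2 (by linarith) (by norm_num) (by norm_num) (by norm_num)
    (expm_ge (by norm_num) (by norm_num) (by norm_num) (by norm_num)) (expm_le (by norm_num) (by norm_num) (by norm_num)) (by norm_num)
    (by norm_num) (by norm_num) (by norm_num) (by norm_num) (by norm_num) (by norm_num)
  rcases le_total (sy κ t) (-0.563) with f0 | g0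
  · have hx1 : 0.8597 ≤ sx κ t := sx_lo h 0.59 (-0.563) 0.578 1.75592 0.8597 hk1 (by norm_num) f0 (abs_le.2 ⟨by linarith, by linarith⟩) (by rw [neg_neg]; exact expn_ge (by norm_num) (by norm_num)) (by norm_num) (by norm_num)
    have hx2 : sx κ t ≤ 0.951 := sx_hi h 0.62 (-0.578) 0.563 1.78247 0.951 hk2 hy1 (by norm_num) (by rw [abs_of_nonpos (by linarith)]; linarith) (by rw [neg_neg]; exact expn_le (by norm_num) (by norm_num) (by norm_num)) (by norm_num) (by norm_num)
    exact JB7_k0b_b8_0 hβ hN hx1 hx2 (by linarith) (by linarith)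
  rcases le_total (sy κ t) (-0.538) with f1 | g1
  · have hx1 : 0.839 ≤ sx κ t := sx_lo h 0.59 (-0.538) 0.563 1.71257 0.839 hk1 (by norm_num) f1 (abs_le.2 ⟨by linarith, by linarith⟩) (by rw [neg_neg]; exact expn_ge (by norm_num) (by norm_num)) (by norm_num) (by norm_num)
    have hx2 : sx κ t ≤ 0.9465 := sx_hi h 0.62 (-0.563) 0.538 1.75594 0.9465 hk2 g0 (by norm_num) (by rw [abs_of_nonpos (by linarith)]; linarith) (by rw [neg_neg]; exact expn_le (by norm_num) (by norm_num) (by norm_num)) (by norm_num) (by norm_num)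
    exact JB7_k0b_b8_1 hβ hN hx1 hx2 (by linarith) (by linarith)
  rcases le_total (sy κ t) (-0.493) with f2 | g2
  · have hx1 : 0.8022 ≤ sx κ t := sx_lo h 0.59 (-0.493) 0.538 1.63721 0.8022 hk1 (by norm_num) f2 (abs_le.2 ⟨by linarith, by linarith⟩) (by rw [neg_neg]; exact expn_ge (by norm_num) (by norm_num)) (by norm_num) (by norm_num)
    have hx2 : sx κ t ≤ 0.9405 := sx_hi h 0.62 (-0.538) 0.493 1.71258 0.9405 hk2 g1 (by norm_num) (by rw [abs_of_nonpos (by linarith)]; linarith) (by rw [neg_neg]; exact expn_le (by norm_num) (by norm_num) (by norm_num)) (by norm_num) (by norm_num)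
    exact JB7_k0b_b8_2 hβ hN hx1 hx2 (by linarith) (by linarith)
  rcases le_total (sy κ t) (-0.408) with f3 | g3
  · have hx1 : 0.7376 ≤ sx κ t := sx_lo h 0.59 (-0.408) 0.493 1.5038 0.7376 hk1 (by norm_num) f3 (abs_le.2 ⟨by linarith, by linarith⟩) (by rw [neg_neg]; exact expn_ge (by norm_num) (by norm_num)) (by norm_num) (by norm_num)
    have hx2 : sx κ t ≤ 0.9295 := sx_hi h 0.62 (-0.493) 0.408 1.63723 0.9295 hk2 g2 (by norm_num) (by rw [abs_of_nonpos (by linarith)]; linarith) (by rw [neg_neg]; exact expn_le (by norm_num) (by norm_num) (by norm_num)) (by norm_num) (by norm_num)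
    exact JB7_k0b_b8_3 hβ hN hx1 hx2 (by linarith) (by linarith)
  have hx1 : 0.7282 ≤ sx κ t := sx_lo h 0.59 (-0.347) 0.408 1.41481 0.7282 hk1 (by norm_num) hy2 (abs_le.2 ⟨by linarith, by linarith⟩) (by rw [neg_neg]; exact expn_ge (by norm_num) (by norm_num)) (by norm_num) (by norm_num)
  have hx2 : sx κ t ≤ 0.8654 := sx_hi h 0.62 (-0.408) 0.347 1.50381 0.8654 hk2 g3 (by norm_num) (by rw [abs_of_nonpos (by linarith)]; linarith) (by rw [neg_neg]; exact expn_le (by norm_num) (by norm_num) (by norm_num)) (by norm_num) (by norm_num)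
  exact JB7_k0b_b8_4 hβ hN hx1 hx2 (by linarith) (by linarith)

private theorem JB7_k0b_b9_0 {β x y : ℝ} (hβ : 0 < β) (hN : β * 15.384 ≤ 1) (hx1 : 0.9205 ≤ x) (hx2 : x ≤ 1.0104)
    (hy1 : -0.575 ≤ y) (hy2 : y ≤ -0.56) : ‖HH β (x + y * I) - 1‖ ≤ 0.15 := by
  refine le_epsJ (C := 2.2522) (N0 := 15.384) (J_boxp 0.9205 1.0104 0.575 0 (-0.56) 0.9499 1.1626 1.1021 1.134 0.4189 3.9223 15.384 1.224 6.265 1.766 0.5007 0.4749 0.2811 0.4157 1.6741 0.488 1.7745 1.8486 3.3928 0.0006722 0.01325 0.00167 0.0000003101 0.0005494 0.0000003101 0.0000003101 0.0000003101 2.2522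
    hβ hN hx1 hx2 hy1 hy2 (by norm_num) (by norm_num) (by linarith) (by norm_num) (by norm_num) (by norm_num) (by norm_num) (by norm_num) (by norm_num) (by norm_num) (by norm_num) (by norm_num) (by norm_num) (by norm_num) (by norm_num) (by norm_num) (by norm_num) (by norm_num) (by norm_num) (by norm_num) (by norm_num) (by norm_num) (by norm_num) (by norm_num)
    (cube_sqrt_geJ (s := 0.7694) (by norm_num) (by norm_num) (by norm_num) (by norm_num))
    (cube_sqrt_geJ (s := 0.922) (by norm_num) (by norm_num) (by norm_num) (by norm_num))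
    (by norm_num) (by norm_num) (by norm_num) (by norm_num) (by norm_num) (by norm_num) (by norm_num) (by norm_num) (by norm_num) (by norm_num) (by norm_num) (by norm_num) (by norm_num) (by norm_num) (by norm_num) (by norm_num) (by norm_num) (by norm_num)
    (exp_neg_leJ (r := 0.305) 7 (by norm_num) (by norm_num) (by norm_num) (by norm_num))
    (exp_neg_leJ (r := 0.324) 4 (by norm_num) (by norm_num) (by norm_num) (by norm_num))
    (exp_neg_leJ (r := 0.395) 6 (by norm_num) (by norm_num) (by norm_num) (by norm_num))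
    (exp_neg_leJ (r := 0.99) 14 (by norm_num) (by norm_num) (by norm_num) (by norm_num))
    (exp_neg_leJ (r := 0.507) 7 (by norm_num) (by norm_num) (by norm_num) (by norm_num))
    (exp_neg_leJ (r := 0.99) 14 (by norm_num) (by norm_num) (by norm_num) (by norm_num))
    (exp_neg_leJ (r := 0.99) 14 (by norm_num) (by norm_num) (by norm_num) (by norm_num))
    (exp_neg_leJ (r := 0.99) 14 (by norm_num) (by norm_num) (by norm_num) (by norm_num))
    (by norm_num)) (by norm_num) hN hβ.le (by norm_num)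

private theorem JB7_k0b_b9_1 {β x y : ℝ} (hβ : 0 < β) (hN : β * 15.384 ≤ 1) (hx1 : 0.8983 ≤ x) (hx2 : x ≤ 1.0044)
    (hy1 : -0.56 ≤ y) (hy2 : y ≤ -0.535) : ‖HH β (x + y * I) - 1‖ ≤ 0.15 := by
  refine le_epsJ (C := 2.2348) (N0 := 15.384) (J_boxp 0.8983 1.0044 0.56 0 (-0.535) 0.9449 1.15 1.1069 1.1455 0.4198 3.9223 15.384 1.2171 6.18 1.76 0.5168 0.4724 0.2807 0.4318 1.7264 0.4854 1.7437 1.845 3.3826 0.0006983 0.01333 0.001306 0.0000003101 0.0005718 0.0000003101 0.0000003101 0.0000003101 2.2348
    hβ hN hx1 hx2 hy1 hy2 (by norm_num) (by norm_num) (by linarith) (by norm_num) (by norm_num) (by norm_num) (by norm_num) (by norm_num) (by norm_num) (by norm_num) (by norm_num) (by norm_num) (by norm_num) (by norm_num) (by norm_num) (by norm_num) (by norm_num) (by norm_num) (by norm_num) (by norm_num) (by norm_num) (by norm_num) (by norm_num) (by norm_num)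
    (cube_sqrt_geJ (s := 0.7709) (by norm_num) (by norm_num) (by norm_num) (by norm_num))
    (cube_sqrt_geJ (s := 0.9224) (by norm_num) (by norm_num) (by norm_num) (by norm_num))
    (by norm_num) (by norm_num) (by norm_num) (by norm_num) (by norm_num) (by norm_num) (by norm_num) (by norm_num) (by norm_num) (by norm_num) (by norm_num) (by norm_num) (by norm_num) (by norm_num) (by norm_num) (by norm_num) (by norm_num) (by norm_num)
    (exp_neg_leJ (r := 0.267) 7 (by norm_num) (by norm_num) (by norm_num) (by norm_num))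
    (exp_neg_leJ (r := 0.318) 4 (by norm_num) (by norm_num) (by norm_num) (by norm_num))
    (exp_neg_leJ (r := 0.642) 6 (by norm_num) (by norm_num) (by norm_num) (by norm_num))
    (exp_neg_leJ (r := 0.99) 14 (by norm_num) (by norm_num) (by norm_num) (by norm_num))
    (exp_neg_leJ (r := 0.467) 7 (by norm_num) (by norm_num) (by norm_num) (by norm_num))
    (exp_neg_leJ (r := 0.99) 14 (by norm_num) (by norm_num) (by norm_num) (by norm_num))
    (exp_neg_leJ (r := 0.99) 14 (by norm_num) (by norm_num) (by norm_num) (by norm_num))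
    (exp_neg_leJ (r := 0.99) 14 (by norm_num) (by norm_num) (by norm_num) (by norm_num))
    (by norm_num)) (by norm_num) hN hβ.le (by norm_num)

private theorem JB7_k0b_b9_2 {β x y : ℝ} (hβ : 0 < β) (hN : β * 15.384 ≤ 1) (hx1 : 0.859 ≤ x) (hx2 : x ≤ 0.9959)
    (hy1 : -0.535 ≤ y) (hy2 : y ≤ -0.49) : ‖HH β (x + y * I) - 1‖ ≤ 0.15 := by
  refine le_epsJ (C := 2.2402) (N0 := 15.384) (J_boxp 0.859 0.9959 0.535 0 (-0.49) 0.935 1.1306 1.1189 1.17 0.422 3.9223 15.384 1.2092 6.086 1.753 0.5432 0.4674 0.279 0.4578 1.8128 0.4799 1.6893 1.8344 3.3567 0.0007541 0.01368 0.0008744 0.0000003101 0.0006224 0.0000003101 0.0000003101 0.0000003101 2.2402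
    hβ hN hx1 hx2 hy1 hy2 (by norm_num) (by norm_num) (by linarith) (by norm_num) (by norm_num) (by norm_num) (by norm_num) (by norm_num) (by norm_num) (by norm_num) (by norm_num) (by norm_num) (by norm_num) (by norm_num) (by norm_num) (by norm_num) (by norm_num) (by norm_num) (by norm_num) (by norm_num) (by norm_num) (by norm_num) (by norm_num) (by norm_num)
    (cube_sqrt_geJ (s := 0.7726) (by norm_num) (by norm_num) (by norm_num) (by norm_num))
    (cube_sqrt_geJ (s := 0.923) (by norm_num) (by norm_num) (by norm_num) (by norm_num))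
    (by norm_num) (by norm_num) (by norm_num) (by norm_num) (by norm_num) (by norm_num) (by norm_num) (by norm_num) (by norm_num) (by norm_num) (by norm_num) (by norm_num) (by norm_num) (by norm_num) (by norm_num) (by norm_num) (by norm_num) (by norm_num)
    (exp_neg_leJ (r := 0.19) 7 (by norm_num) (by norm_num) (by norm_num) (by norm_num))
    (exp_neg_leJ (r := 0.292) 4 (by norm_num) (by norm_num) (by norm_num) (by norm_num))
    (exp_neg_leJ (r := 0.042) 7 (by norm_num) (by norm_num) (by norm_num) (by norm_num))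
    (exp_neg_leJ (r := 0.99) 14 (by norm_num) (by norm_num) (by norm_num) (by norm_num))
    (exp_neg_leJ (r := 0.382) 7 (by norm_num) (by norm_num) (by norm_num) (by norm_num))
    (exp_neg_leJ (r := 0.99) 14 (by norm_num) (by norm_num) (by norm_num) (by norm_num))
    (exp_neg_leJ (r := 0.99) 14 (by norm_num) (by norm_num) (by norm_num) (by norm_num))
    (exp_neg_leJ (r := 0.99) 14 (by norm_num) (by norm_num) (by norm_num) (by norm_num))
    (by norm_num)) (by norm_num) hN hβ.le (by norm_num)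

private theorem JB7_k0b_b9_3 {β x y : ℝ} (hβ : 0 < β) (hN : β * 15.384 ≤ 1) (hx1 : 0.7899 ≤ x) (hx2 : x ≤ 0.9807)
    (hy1 : -0.49 ≤ y) (hy2 : y ≤ -0.405) : ‖HH β (x + y * I) - 1‖ ≤ 0.15 := by
  refine le_epsJ (C := 2.2471) (N0 := 15.384) (J_boxp 0.7899 0.9807 0.49 0 (-0.405) 0.9183 1.0963 1.1471 1.2171 0.4273 3.9223 15.384 1.1939 5.907 1.739 0.5906 0.4591 0.2764 0.5052 1.9679 0.471 1.5937 1.8185 3.3118 0.0008571 0.01424 0.0004224 0.0000003101 0.0007138 0.0000003101 0.0000003101 0.0000003101 2.2471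
    hβ hN hx1 hx2 hy1 hy2 (by norm_num) (by norm_num) (by linarith) (by norm_num) (by norm_num) (by norm_num) (by norm_num) (by norm_num) (by norm_num) (by norm_num) (by norm_num) (by norm_num) (by norm_num) (by norm_num) (by norm_num) (by norm_num) (by norm_num) (by norm_num) (by norm_num) (by norm_num) (by norm_num) (by norm_num) (by norm_num) (by norm_num)
    (cube_sqrt_geJ (s := 0.7759) (by norm_num) (by norm_num) (by norm_num) (by norm_num))
    (cube_sqrt_geJ (s := 0.924) (by norm_num) (by norm_num) (by norm_num) (by norm_num))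
    (by norm_num) (by norm_num) (by norm_num) (by norm_num) (by norm_num) (by norm_num) (by norm_num) (by norm_num) (by norm_num) (by norm_num) (by norm_num) (by norm_num) (by norm_num) (by norm_num) (by norm_num) (by norm_num) (by norm_num) (by norm_num)
    (exp_neg_leJ (r := 0.062) 7 (by norm_num) (by norm_num) (by norm_num) (by norm_num))
    (exp_neg_leJ (r := 0.252) 4 (by norm_num) (by norm_num) (by norm_num) (by norm_num))
    (exp_neg_leJ (r := 0.771) 7 (by norm_num) (by norm_num) (by norm_num) (by norm_num))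
    (exp_neg_leJ (r := 0.99) 14 (by norm_num) (by norm_num) (by norm_num) (by norm_num))
    (exp_neg_leJ (r := 0.245) 7 (by norm_num) (by norm_num) (by norm_num) (by norm_num))
    (exp_neg_leJ (r := 0.99) 14 (by norm_num) (by norm_num) (by norm_num) (by norm_num))
    (exp_neg_leJ (r := 0.99) 14 (by norm_num) (by norm_num) (by norm_num) (by norm_num))
    (exp_neg_leJ (r := 0.99) 14 (by norm_num) (by norm_num) (by norm_num) (by norm_num))
    (by norm_num)) (by norm_num) hN hβ.le (by norm_num)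

private theorem JB7_k0b_b9_4 {β x y : ℝ} (hβ : 0 < β) (hN : β * 15.384 ≤ 1) (hx1 : 0.782 ≤ x) (hx2 : x ≤ 0.9092)
    (hy1 : -0.405 ≤ y) (hy2 : y ≤ -0.351) : ‖HH β (x + y * I) - 1‖ ≤ 0.15 := by
  refine le_epsJ (C := 1.2435) (N0 := 15.384) (J_boxp 0.782 0.9092 0.405 0 (-0.351) 0.9731 0.9954 1.1171 1.1011 0.4217 3.9223 15.384 1.023 4.305 1.598 0.6965 0.4865 0.3206 0.6366 2.284 0.5136 1.5827 2.0337 3.5703 0.0005621 0.007232 0.00005592 0.0000003101 0.0003713 0.0000003101 0.0000003101 0.0000003101 1.2435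
    hβ hN hx1 hx2 hy1 hy2 (by norm_num) (by norm_num) (by linarith) (by norm_num) (by norm_num) (by norm_num) (by norm_num) (by norm_num) (by norm_num) (by norm_num) (by norm_num) (by norm_num) (by norm_num) (by norm_num) (by norm_num) (by norm_num) (by norm_num) (by norm_num) (by norm_num) (by norm_num) (by norm_num) (by norm_num) (by norm_num) (by norm_num)
    (cube_sqrt_geJ (s := 0.8117) (by norm_num) (by norm_num) (by norm_num) (by norm_num))
    (cube_sqrt_geJ (s := 0.9352) (by norm_num) (by norm_num) (by norm_num) (by norm_num))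
    (by norm_num) (by norm_num) (by norm_num) (by norm_num) (by norm_num) (by norm_num) (by norm_num) (by norm_num) (by norm_num) (by norm_num) (by norm_num) (by norm_num) (by norm_num) (by norm_num) (by norm_num) (by norm_num) (by norm_num) (by norm_num)
    (exp_neg_leJ (r := 0.484) 7 (by norm_num) (by norm_num) (by norm_num) (by norm_num))
    (exp_neg_leJ (r := 0.932) 4 (by norm_num) (by norm_num) (by norm_num) (by norm_num))
    (exp_neg_leJ (r := 0.793) 9 (by norm_num) (by norm_num) (by norm_num) (by norm_num))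
    (exp_neg_leJ (r := 0.99) 14 (by norm_num) (by norm_num) (by norm_num) (by norm_num))
    (exp_neg_leJ (r := 0.901) 7 (by norm_num) (by norm_num) (by norm_num) (by norm_num))
    (exp_neg_leJ (r := 0.99) 14 (by norm_num) (by norm_num) (by norm_num) (by norm_num))
    (exp_neg_leJ (r := 0.99) 14 (by norm_num) (by norm_num) (by norm_num) (by norm_num))
    (exp_neg_leJ (r := 0.99) 14 (by norm_num) (by norm_num) (by norm_num) (by norm_num))
    (by norm_num)) (by norm_num) hN hβ.le (by norm_num)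

theorem JB7_k0b_c9 {κ t β : ℝ} (h : DomR κ t) (hβ : 0 < β) (hk1 : 0.62 ≤ κ) (hk2 : κ ≤ 0.65)
    (ht1 : -0.86 ≤ t + κ) (ht2 : t + κ ≤ -0.6) (hR0 : β * 10 ≤ κ) (hR : β * (6.75 * (1 + κ ^ 2)) ≤ κ) :
    ‖HH β (sg κ t) - 1‖ ≤ 0.15 := by
  have hN : β * 15.384 ≤ 1 := bNR hβ h.1 hk2 hR0 (by norm_num)
  have hy1 : -0.575 ≤ sy κ t := syL_ge h 0.62 0.65 0.86 0.575 0.5627 0.56271 0.4977 0.49777 0.52187 hk1 hk2 (by linarith) (by norm_num) (by norm_num) (by norm_num)
    (expm_ge (by norm_num) (by norm_num) (by norm_num) (by norm_num)) (expm_le (by norm_num) (by norm_num) (by norm_num)) (by norm_num)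
    (by norm_num) (by norm_num) (by norm_num) (by norm_num) (by norm_num) (by norm_num)
  have hy2 : sy κ t ≤ -0.351 := syL_le h 0.62 0.65 0.6 0.351 0.70398 0.70399 0.38014 0.39855 hk1 hk2 (by linarith) (by norm_num) (by norm_num) (by norm_num)
    (expm_ge (by norm_num) (by norm_num) (by norm_num) (by norm_num)) (expm_le (by norm_num) (by norm_num) (by norm_num)) (by norm_num)
    (by norm_num) (by norm_num) (by norm_num) (by norm_num) (by norm_num) (by norm_num)
  rcases le_total (sy κ t) (-0.56) with f0 | g0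
  · have hx1 : 0.9205 ≤ sx κ t := sx_lo h 0.62 (-0.56) 0.575 1.75066 0.9205 hk1 (by norm_num) f0 (abs_le.2 ⟨by linarith, by linarith⟩) (by rw [neg_neg]; exact expn_ge (by norm_num) (by norm_num)) (by norm_num) (by norm_num)
    have hx2 : sx κ t ≤ 1.0104 := sx_hi h 0.65 (-0.575) 0.56 1.77714 1.0104 hk2 hy1 (by norm_num) (by rw [abs_of_nonpos (by linarith)]; linarith) (by rw [neg_neg]; exact expn_le (by norm_num) (by norm_num) (by norm_num)) (by norm_num) (by norm_num)
    exact JB7_k0b_b9_0 hβ hN hx1 hx2 (by linarith) (by linarith)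
  rcases le_total (sy κ t) (-0.535) with f1 | g1
  · have hx1 : 0.8983 ≤ sx κ t := sx_lo h 0.62 (-0.535) 0.56 1.70744 0.8983 hk1 (by norm_num) f1 (abs_le.2 ⟨by linarith, by linarith⟩) (by rw [neg_neg]; exact expn_ge (by norm_num) (by norm_num)) (by norm_num) (by norm_num)
    have hx2 : sx κ t ≤ 1.0044 := sx_hi h 0.65 (-0.56) 0.535 1.75068 1.0044 hk2 g0 (by norm_num) (by rw [abs_of_nonpos (by linarith)]; linarith) (by rw [neg_neg]; exact expn_le (by norm_num) (by norm_num) (by norm_num)) (by norm_num) (by norm_num)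
    exact JB7_k0b_b9_1 hβ hN hx1 hx2 (by linarith) (by linarith)
  rcases le_total (sy κ t) (-0.49) with f2 | g2
  · have hx1 : 0.859 ≤ sx κ t := sx_lo h 0.62 (-0.49) 0.535 1.63231 0.859 hk1 (by norm_num) f2 (abs_le.2 ⟨by linarith, by linarith⟩) (by rw [neg_neg]; exact expn_ge (by norm_num) (by norm_num)) (by norm_num) (by norm_num)
    have hx2 : sx κ t ≤ 0.9959 := sx_hi h 0.65 (-0.535) 0.49 1.70745 0.9959 hk2 g1 (by norm_num) (by rw [abs_of_nonpos (by linarith)]; linarith) (by rw [neg_neg]; exact expn_le (by norm_num) (by norm_num) (by norm_num)) (by norm_num) (by norm_num)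
    exact JB7_k0b_b9_2 hβ hN hx1 hx2 (by linarith) (by linarith)
  rcases le_total (sy κ t) (-0.405) with f3 | g3
  · have hx1 : 0.7899 ≤ sx κ t := sx_lo h 0.62 (-0.405) 0.49 1.4993 0.7899 hk1 (by norm_num) f3 (abs_le.2 ⟨by linarith, by linarith⟩) (by rw [neg_neg]; exact expn_ge (by norm_num) (by norm_num)) (by norm_num) (by norm_num)
    have hx2 : sx κ t ≤ 0.9807 := sx_hi h 0.65 (-0.49) 0.405 1.63232 0.9807 hk2 g2 (by norm_num) (by rw [abs_of_nonpos (by linarith)]; linarith) (by rw [neg_neg]; exact expn_le (by norm_num) (by norm_num) (by norm_num)) (by norm_num) (by norm_num)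
    exact JB7_k0b_b9_3 hβ hN hx1 hx2 (by linarith) (by linarith)
  have hx1 : 0.782 ≤ sx κ t := sx_lo h 0.62 (-0.351) 0.405 1.42048 0.782 hk1 (by norm_num) hy2 (abs_le.2 ⟨by linarith, by linarith⟩) (by rw [neg_neg]; exact expn_ge (by norm_num) (by norm_num)) (by norm_num) (by norm_num)
  have hx2 : sx κ t ≤ 0.9092 := sx_hi h 0.65 (-0.405) 0.351 1.49931 0.9092 hk2 g3 (by norm_num) (by rw [abs_of_nonpos (by linarith)]; linarith) (by rw [neg_neg]; exact expn_le (by norm_num) (by norm_num) (by norm_num)) (by norm_num) (by norm_num)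
  exact JB7_k0b_b9_4 hβ hN hx1 hx2 (by linarith) (by linarith)

private theorem JB7_k0b_b10_0 {β x y : ℝ} (hβ : 0 < β) (hN : β * 14.492 ≤ 1) (hx1 : 0.9848 ≤ x) (hx2 : x ≤ 1.0841)
    (hy1 : -0.57 ≤ y) (hy2 : y ≤ -0.56) : ‖HH β (x + y * I) - 1‖ ≤ 0.15 := by
  refine le_epsJ (C := 2.1734) (N0 := 14.492) (J_boxp 0.9848 1.0841 0.57 0 (-0.56) 0.9987 1.2249 1.17 1.0838 0.4316 3.8069 14.492 1.2265 6.296 1.768 0.477 0.4993 0.2951 0.4456 1.6503 0.5219 1.8635 1.9908 3.352 0.000721 0.0139 0.00157 0.0000003101 0.0005195 0.0000003101 0.0000003101 0.0000003101 2.1734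
    hβ hN hx1 hx2 hy1 hy2 (by norm_num) (by norm_num) (by linarith) (by norm_num) (by norm_num) (by norm_num) (by norm_num) (by norm_num) (by norm_num) (by norm_num) (by norm_num) (by norm_num) (by norm_num) (by norm_num) (by norm_num) (by norm_num) (by norm_num) (by norm_num) (by norm_num) (by norm_num) (by norm_num) (by norm_num) (by norm_num) (by norm_num)
    (cube_sqrt_geJ (s := 0.7688) (by norm_num) (by norm_num) (by norm_num) (by norm_num))
    (cube_sqrt_geJ (s := 0.9218) (by norm_num) (by norm_num) (by norm_num) (by norm_num))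
    (by norm_num) (by norm_num) (by norm_num) (by norm_num) (by norm_num) (by norm_num) (by norm_num) (by norm_num) (by norm_num) (by norm_num) (by norm_num) (by norm_num) (by norm_num) (by norm_num) (by norm_num) (by norm_num) (by norm_num) (by norm_num)
    (exp_neg_leJ (r := 0.235) 7 (by norm_num) (by norm_num) (by norm_num) (by norm_num))
    (exp_neg_leJ (r := 0.276) 4 (by norm_num) (by norm_num) (by norm_num) (by norm_num))
    (exp_neg_leJ (r := 0.457) 6 (by norm_num) (by norm_num) (by norm_num) (by norm_num))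
    (exp_neg_leJ (r := 0.99) 14 (by norm_num) (by norm_num) (by norm_num) (by norm_num))
    (exp_neg_leJ (r := 0.563) 7 (by norm_num) (by norm_num) (by norm_num) (by norm_num))
    (exp_neg_leJ (r := 0.99) 14 (by norm_num) (by norm_num) (by norm_num) (by norm_num))
    (exp_neg_leJ (r := 0.99) 14 (by norm_num) (by norm_num) (by norm_num) (by norm_num))
    (exp_neg_leJ (r := 0.99) 14 (by norm_num) (by norm_num) (by norm_num) (by norm_num))
    (by norm_num)) (by norm_num) hN hβ.le (by norm_num)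

private theorem JB7_k0b_b10_1 {β x y : ℝ} (hβ : 0 < β) (hN : β * 14.492 ≤ 1) (hx1 : 0.971 ≤ x) (hx2 : x ≤ 1.0781)
    (hy1 : -0.56 ≤ y) (hy2 : y ≤ -0.545) : ‖HH β (x + y * I) - 1‖ ≤ 0.15 := by
  refine le_epsJ (C := 2.1426) (N0 := 14.492) (J_boxp 0.971 1.0781 0.56 0 (-0.545) 0.9961 1.2149 1.1702 1.0882 0.4316 3.8069 14.492 1.2197 6.212 1.762 0.4885 0.498 0.2955 0.4567 1.6862 0.5207 1.8444 1.9904 3.3516 0.0007341 0.01382 0.001337 0.0000003101 0.0005289 0.0000003101 0.0000003101 0.0000003101 2.1426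
    hβ hN hx1 hx2 hy1 hy2 (by norm_num) (by norm_num) (by linarith) (by norm_num) (by norm_num) (by norm_num) (by norm_num) (by norm_num) (by norm_num) (by norm_num) (by norm_num) (by norm_num) (by norm_num) (by norm_num) (by norm_num) (by norm_num) (by norm_num) (by norm_num) (by norm_num) (by norm_num) (by norm_num) (by norm_num) (by norm_num) (by norm_num)
    (cube_sqrt_geJ (s := 0.7703) (by norm_num) (by norm_num) (by norm_num) (by norm_num))
    (cube_sqrt_geJ (s := 0.9223) (by norm_num) (by norm_num) (by norm_num) (by norm_num))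
    (by norm_num) (by norm_num) (by norm_num) (by norm_num) (by norm_num) (by norm_num) (by norm_num) (by norm_num) (by norm_num) (by norm_num) (by norm_num) (by norm_num) (by norm_num) (by norm_num) (by norm_num) (by norm_num) (by norm_num) (by norm_num)
    (exp_neg_leJ (r := 0.217) 7 (by norm_num) (by norm_num) (by norm_num) (by norm_num))
    (exp_neg_leJ (r := 0.282) 4 (by norm_num) (by norm_num) (by norm_num) (by norm_num))
    (exp_neg_leJ (r := 0.618) 6 (by norm_num) (by norm_num) (by norm_num) (by norm_num))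
    (exp_neg_leJ (r := 0.99) 14 (by norm_num) (by norm_num) (by norm_num) (by norm_num))
    (exp_neg_leJ (r := 0.545) 7 (by norm_num) (by norm_num) (by norm_num) (by norm_num))
    (exp_neg_leJ (r := 0.99) 14 (by norm_num) (by norm_num) (by norm_num) (by norm_num))
    (exp_neg_leJ (r := 0.99) 14 (by norm_num) (by norm_num) (by norm_num) (by norm_num))
    (exp_neg_leJ (r := 0.99) 14 (by norm_num) (by norm_num) (by norm_num) (by norm_num))
    (by norm_num)) (by norm_num) hN hβ.le (by norm_num)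

private theorem JB7_k0b_b10_2 {β x y : ℝ} (hβ : 0 < β) (hN : β * 14.492 ≤ 1) (hx1 : 0.9477 ≤ x) (hx2 : x ≤ 1.0704)
    (hy1 : -0.545 ≤ y) (hy2 : y ≤ -0.52) : ‖HH β (x + y * I) - 1‖ ≤ 0.15 := by
  refine le_epsJ (C := 2.128) (N0 := 14.492) (J_boxp 0.9477 1.0704 0.545 0 (-0.52) 0.9903 1.2012 1.1731 1.0991 0.4321 3.8069 14.492 1.213 6.132 1.756 0.5053 0.4951 0.2949 0.4724 1.7394 0.5176 1.8121 1.9846 3.3422 0.0007663 0.01395 0.001066 0.0000003101 0.0005527 0.0000003101 0.0000003101 0.0000003101 2.128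
    hβ hN hx1 hx2 hy1 hy2 (by norm_num) (by norm_num) (by linarith) (by norm_num) (by norm_num) (by norm_num) (by norm_num) (by norm_num) (by norm_num) (by norm_num) (by norm_num) (by norm_num) (by norm_num) (by norm_num) (by norm_num) (by norm_num) (by norm_num) (by norm_num) (by norm_num) (by norm_num) (by norm_num) (by norm_num) (by norm_num) (by norm_num)
    (cube_sqrt_geJ (s := 0.7717) (by norm_num) (by norm_num) (by norm_num) (by norm_num))
    (cube_sqrt_geJ (s := 0.9227) (by norm_num) (by norm_num) (by norm_num) (by norm_num))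
    (by norm_num) (by norm_num) (by norm_num) (by norm_num) (by norm_num) (by norm_num) (by norm_num) (by norm_num) (by norm_num) (by norm_num) (by norm_num) (by norm_num) (by norm_num) (by norm_num) (by norm_num) (by norm_num) (by norm_num) (by norm_num)
    (exp_neg_leJ (r := 0.174) 7 (by norm_num) (by norm_num) (by norm_num) (by norm_num))
    (exp_neg_leJ (r := 0.273) 4 (by norm_num) (by norm_num) (by norm_num) (by norm_num))
    (exp_neg_leJ (r := 0.846) 6 (by norm_num) (by norm_num) (by norm_num) (by norm_num))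
    (exp_neg_leJ (r := 0.99) 14 (by norm_num) (by norm_num) (by norm_num) (by norm_num))
    (exp_neg_leJ (r := 0.501) 7 (by norm_num) (by norm_num) (by norm_num) (by norm_num))
    (exp_neg_leJ (r := 0.99) 14 (by norm_num) (by norm_num) (by norm_num) (by norm_num))
    (exp_neg_leJ (r := 0.99) 14 (by norm_num) (by norm_num) (by norm_num) (by norm_num))
    (exp_neg_leJ (r := 0.99) 14 (by norm_num) (by norm_num) (by norm_num) (by norm_num))
    (by norm_num)) (by norm_num) hN hβ.le (by norm_num)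

private theorem JB7_k0b_b10_3 {β x y : ℝ} (hβ : 0 < β) (hN : β * 14.492 ≤ 1) (hx1 : 0.9066 ≤ x) (hx2 : x ≤ 1.059)
    (hy1 : -0.52 ≤ y) (hy2 : y ≤ -0.475) : ‖HH β (x + y * I) - 1‖ ≤ 0.15 := by
  refine le_epsJ (C := 2.1319) (N0 := 14.492) (J_boxp 0.9066 1.059 0.52 0 (-0.475) 0.9792 1.1798 1.182 1.1221 0.4338 3.8069 14.492 1.2049 6.035 1.749 0.5328 0.4895 0.2929 0.4978 1.8271 0.5113 1.7552 1.9703 3.3182 0.000831 0.01436 0.0007363 0.0000003101 0.0006059 0.0000003101 0.0000003101 0.0000003101 2.1319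
    hβ hN hx1 hx2 hy1 hy2 (by norm_num) (by norm_num) (by linarith) (by norm_num) (by norm_num) (by norm_num) (by norm_num) (by norm_num) (by norm_num) (by norm_num) (by norm_num) (by norm_num) (by norm_num) (by norm_num) (by norm_num) (by norm_num) (by norm_num) (by norm_num) (by norm_num) (by norm_num) (by norm_num) (by norm_num) (by norm_num) (by norm_num)
    (cube_sqrt_geJ (s := 0.7735) (by norm_num) (by norm_num) (by norm_num) (by norm_num))
    (cube_sqrt_geJ (s := 0.9232) (by norm_num) (by norm_num) (by norm_num) (by norm_num))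
    (by norm_num) (by norm_num) (by norm_num) (by norm_num) (by norm_num) (by norm_num) (by norm_num) (by norm_num) (by norm_num) (by norm_num) (by norm_num) (by norm_num) (by norm_num) (by norm_num) (by norm_num) (by norm_num) (by norm_num) (by norm_num)
    (exp_neg_leJ (r := 0.093) 7 (by norm_num) (by norm_num) (by norm_num) (by norm_num))
    (exp_neg_leJ (r := 0.244) 4 (by norm_num) (by norm_num) (by norm_num) (by norm_num))
    (exp_neg_leJ (r := 0.214) 7 (by norm_num) (by norm_num) (by norm_num) (by norm_num))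
    (exp_neg_leJ (r := 0.99) 14 (by norm_num) (by norm_num) (by norm_num) (by norm_num))
    (exp_neg_leJ (r := 0.409) 7 (by norm_num) (by norm_num) (by norm_num) (by norm_num))
    (exp_neg_leJ (r := 0.99) 14 (by norm_num) (by norm_num) (by norm_num) (by norm_num))
    (exp_neg_leJ (r := 0.99) 14 (by norm_num) (by norm_num) (by norm_num) (by norm_num))
    (exp_neg_leJ (r := 0.99) 14 (by norm_num) (by norm_num) (by norm_num) (by norm_num))
    (by norm_num)) (by norm_num) hN hβ.le (by norm_num)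

private theorem JB7_k0b_b10_4 {β x y : ℝ} (hβ : 0 < β) (hN : β * 14.492 ≤ 1) (hx1 : 0.8342 ≤ x) (hx2 : x ≤ 1.0388)
    (hy1 : -0.475 ≤ y) (hy2 : y ≤ -0.39) : ‖HH β (x + y * I) - 1‖ ≤ 0.15 := by
  refine le_epsJ (C := 2.1413) (N0 := 14.492) (J_boxp 0.8342 1.0388 0.475 0 (-0.39) 0.9601 1.1423 1.2047 1.1668 0.4379 3.8069 14.492 1.1898 5.861 1.736 0.5821 0.48 0.2896 0.544 1.9847 0.5007 1.655 1.9479 3.2753 0.0009559 0.01506 0.000378 0.0000003101 0.000706 0.0000003101 0.0000003101 0.0000003101 2.1413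
    hβ hN hx1 hx2 hy1 hy2 (by norm_num) (by norm_num) (by linarith) (by norm_num) (by norm_num) (by norm_num) (by norm_num) (by norm_num) (by norm_num) (by norm_num) (by norm_num) (by norm_num) (by norm_num) (by norm_num) (by norm_num) (by norm_num) (by norm_num) (by norm_num) (by norm_num) (by norm_num) (by norm_num) (by norm_num) (by norm_num) (by norm_num)
    (cube_sqrt_geJ (s := 0.7767) (by norm_num) (by norm_num) (by norm_num) (by norm_num))
    (cube_sqrt_geJ (s := 0.9242) (by norm_num) (by norm_num) (by norm_num) (by norm_num))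
    (by norm_num) (by norm_num) (by norm_num) (by norm_num) (by norm_num) (by norm_num) (by norm_num) (by norm_num) (by norm_num) (by norm_num) (by norm_num) (by norm_num) (by norm_num) (by norm_num) (by norm_num) (by norm_num) (by norm_num) (by norm_num)
    (exp_neg_leJ (r := 0.956) 6 (by norm_num) (by norm_num) (by norm_num) (by norm_num))
    (exp_neg_leJ (r := 0.196) 4 (by norm_num) (by norm_num) (by norm_num) (by norm_num))
    (exp_neg_leJ (r := 0.883) 7 (by norm_num) (by norm_num) (by norm_num) (by norm_num))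
    (exp_neg_leJ (r := 0.99) 14 (by norm_num) (by norm_num) (by norm_num) (by norm_num))
    (exp_neg_leJ (r := 0.256) 7 (by norm_num) (by norm_num) (by norm_num) (by norm_num))
    (exp_neg_leJ (r := 0.99) 14 (by norm_num) (by norm_num) (by norm_num) (by norm_num))
    (exp_neg_leJ (r := 0.99) 14 (by norm_num) (by norm_num) (by norm_num) (by norm_num))
    (exp_neg_leJ (r := 0.99) 14 (by norm_num) (by norm_num) (by norm_num) (by norm_num))
    (by norm_num)) (by norm_num) hN hβ.le (by norm_num)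

private theorem JB7_k0b_b10_5 {β x y : ℝ} (hβ : 0 < β) (hN : β * 14.492 ≤ 1) (hx1 : 0.8399 ≤ x) (hx2 : x ≤ 0.9557)
    (hy1 : -0.39 ≤ y) (hy2 : y ≤ -0.354) : ‖HH β (x + y * I) - 1‖ ≤ 0.15 := by
  refine le_epsJ (C := 1.1245) (N0 := 14.492) (J_boxp 0.8399 0.9557 0.39 0 (-0.354) 1.0245 1.0323 1.1536 1.0358 0.4285 3.8069 14.492 1.0077 4.19 1.586 0.6925 0.5122 0.3401 0.6801 2.3068 0.5499 1.6629 2.1903 3.5857 0.0005981 0.007261 0.00005254 0.0000003101 0.0003472 0.0000003101 0.0000003101 0.0000003101 1.1245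
    hβ hN hx1 hx2 hy1 hy2 (by norm_num) (by norm_num) (by linarith) (by norm_num) (by norm_num) (by norm_num) (by norm_num) (by norm_num) (by norm_num) (by norm_num) (by norm_num) (by norm_num) (by norm_num) (by norm_num) (by norm_num) (by norm_num) (by norm_num) (by norm_num) (by norm_num) (by norm_num) (by norm_num) (by norm_num) (by norm_num) (by norm_num)
    (cube_sqrt_geJ (s := 0.8149) (by norm_num) (by norm_num) (by norm_num) (by norm_num))
    (cube_sqrt_geJ (s := 0.9362) (by norm_num) (by norm_num) (by norm_num) (by norm_num))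
    (by norm_num) (by norm_num) (by norm_num) (by norm_num) (by norm_num) (by norm_num) (by norm_num) (by norm_num) (by norm_num) (by norm_num) (by norm_num) (by norm_num) (by norm_num) (by norm_num) (by norm_num) (by norm_num) (by norm_num) (by norm_num)
    (exp_neg_leJ (r := 0.422) 7 (by norm_num) (by norm_num) (by norm_num) (by norm_num))
    (exp_neg_leJ (r := 0.928) 4 (by norm_num) (by norm_num) (by norm_num) (by norm_num))
    (exp_neg_leJ (r := 0.856) 9 (by norm_num) (by norm_num) (by norm_num) (by norm_num))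
    (exp_neg_leJ (r := 0.99) 14 (by norm_num) (by norm_num) (by norm_num) (by norm_num))
    (exp_neg_leJ (r := 0.969) 7 (by norm_num) (by norm_num) (by norm_num) (by norm_num))
    (exp_neg_leJ (r := 0.99) 14 (by norm_num) (by norm_num) (by norm_num) (by norm_num))
    (exp_neg_leJ (r := 0.99) 14 (by norm_num) (by norm_num) (by norm_num) (by norm_num))
    (exp_neg_leJ (r := 0.99) 14 (by norm_num) (by norm_num) (by norm_num) (by norm_num))
    (by norm_num)) (by norm_num) hN hβ.le (by norm_num)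

theorem JB7_k0b_c10 {κ t β : ℝ} (h : DomR κ t) (hβ : 0 < β) (hk1 : 0.65 ≤ κ) (hk2 : κ ≤ 0.69)
    (ht1 : -0.86 ≤ t + κ) (ht2 : t + κ ≤ -0.6) (hR0 : β * 10 ≤ κ) (hR : β * (6.75 * (1 + κ ^ 2)) ≤ κ) :
    ‖HH β (sg κ t) - 1‖ ≤ 0.15 := by
  have hN : β * 14.492 ≤ 1 := bNR hβ h.1 hk2 hR0 (by norm_num)
  have hy1 : -0.57 ≤ sy κ t := syL_ge h 0.65 0.69 0.86 0.57 0.56552 0.56553 0.4815 0.46716 0.49593 hk1 hk2 (by linarith) (by norm_num) (by norm_num) (by norm_num)
    (expm_ge (by norm_num) (by norm_num) (by norm_num) (by norm_num)) (expm_le (by norm_num) (by norm_num) (by norm_num)) (by norm_num)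
    (by norm_num) (by norm_num) (by norm_num) (by norm_num) (by norm_num) (by norm_num)
  have hy2 : sy κ t ≤ -0.354 := syL_le h 0.65 0.69 0.6 0.354 0.70187 0.70188 0.36008 0.38226 hk1 hk2 (by linarith) (by norm_num) (by norm_num) (by norm_num)
    (expm_ge (by norm_num) (by norm_num) (by norm_num) (by norm_num)) (expm_le (by norm_num) (by norm_num) (by norm_num)) (by norm_num)
    (by norm_num) (by norm_num) (by norm_num) (by norm_num) (by norm_num) (by norm_num)
  rcases le_total (sy κ t) (-0.56) with f0 | g0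
  · have hx1 : 0.9848 ≤ sx κ t := sx_lo h 0.65 (-0.56) 0.57 1.75066 0.9848 hk1 (by norm_num) f0 (abs_le.2 ⟨by linarith, by linarith⟩) (by rw [neg_neg]; exact expn_ge (by norm_num) (by norm_num)) (by norm_num) (by norm_num)
    have hx2 : sx κ t ≤ 1.0841 := sx_hi h 0.69 (-0.57) 0.56 1.76827 1.0841 hk2 hy1 (by norm_num) (by rw [abs_of_nonpos (by linarith)]; linarith) (by rw [neg_neg]; exact expn_le (by norm_num) (by norm_num) (by norm_num)) (by norm_num) (by norm_num)
    exact JB7_k0b_b10_0 hβ hN hx1 hx2 (by linarith) (by linarith)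
  rcases le_total (sy κ t) (-0.545) with f1 | g1
  · have hx1 : 0.971 ≤ sx κ t := sx_lo h 0.65 (-0.545) 0.56 1.7246 0.971 hk1 (by norm_num) f1 (abs_le.2 ⟨by linarith, by linarith⟩) (by rw [neg_neg]; exact expn_ge (by norm_num) (by norm_num)) (by norm_num) (by norm_num)
    have hx2 : sx κ t ≤ 1.0781 := sx_hi h 0.69 (-0.56) 0.545 1.75068 1.0781 hk2 g0 (by norm_num) (by rw [abs_of_nonpos (by linarith)]; linarith) (by rw [neg_neg]; exact expn_le (by norm_num) (by norm_num) (by norm_num)) (by norm_num) (by norm_num)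
    exact JB7_k0b_b10_1 hβ hN hx1 hx2 (by linarith) (by linarith)
  rcases le_total (sy κ t) (-0.52) with f2 | g2
  · have hx1 : 0.9477 ≤ sx κ t := sx_lo h 0.65 (-0.52) 0.545 1.68202 0.9477 hk1 (by norm_num) f2 (abs_le.2 ⟨by linarith, by linarith⟩) (by rw [neg_neg]; exact expn_ge (by norm_num) (by norm_num)) (by norm_num) (by norm_num)
    have hx2 : sx κ t ≤ 1.0704 := sx_hi h 0.69 (-0.545) 0.52 1.72461 1.0704 hk2 g1 (by norm_num) (by rw [abs_of_nonpos (by linarith)]; linarith) (by rw [neg_neg]; exact expn_le (by norm_num) (by norm_num) (by norm_num)) (by norm_num) (by norm_num)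
    exact JB7_k0b_b10_2 hβ hN hx1 hx2 (by linarith) (by linarith)
  rcases le_total (sy κ t) (-0.475) with f3 | g3
  · have hx1 : 0.9066 ≤ sx κ t := sx_lo h 0.65 (-0.475) 0.52 1.60801 0.9066 hk1 (by norm_num) f3 (abs_le.2 ⟨by linarith, by linarith⟩) (by rw [neg_neg]; exact expn_ge (by norm_num) (by norm_num)) (by norm_num) (by norm_num)
    have hx2 : sx κ t ≤ 1.059 := sx_hi h 0.69 (-0.52) 0.475 1.68203 1.059 hk2 g2 (by norm_num) (by rw [abs_of_nonpos (by linarith)]; linarith) (by rw [neg_neg]; exact expn_le (by norm_num) (by norm_num) (by norm_num)) (by norm_num) (by norm_num)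
    exact JB7_k0b_b10_3 hβ hN hx1 hx2 (by linarith) (by linarith)
  rcases le_total (sy κ t) (-0.39) with f4 | g4
  · have hx1 : 0.8342 ≤ sx κ t := sx_lo h 0.65 (-0.39) 0.475 1.47698 0.8342 hk1 (by norm_num) f4 (abs_le.2 ⟨by linarith, by linarith⟩) (by rw [neg_neg]; exact expn_ge (by norm_num) (by norm_num)) (by norm_num) (by norm_num)
    have hx2 : sx κ t ≤ 1.0388 := sx_hi h 0.69 (-0.475) 0.39 1.60802 1.0388 hk2 g3 (by norm_num) (by rw [abs_of_nonpos (by linarith)]; linarith) (by rw [neg_neg]; exact expn_le (by norm_num) (by norm_num) (by norm_num)) (by norm_num) (by norm_num)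
    exact JB7_k0b_b10_4 hβ hN hx1 hx2 (by linarith) (by linarith)
  have hx1 : 0.8399 ≤ sx κ t := sx_lo h 0.65 (-0.354) 0.39 1.42475 0.8399 hk1 (by norm_num) hy2 (abs_le.2 ⟨by linarith, by linarith⟩) (by rw [neg_neg]; exact expn_ge (by norm_num) (by norm_num)) (by norm_num) (by norm_num)
  have hx2 : sx κ t ≤ 0.9557 := sx_hi h 0.69 (-0.39) 0.354 1.47699 0.9557 hk2 g4 (by norm_num) (by rw [abs_of_nonpos (by linarith)]; linarith) (by rw [neg_neg]; exact expn_le (by norm_num) (by norm_num) (by norm_num)) (by norm_num) (by norm_num)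
  exact JB7_k0b_b10_5 hβ hN hx1 hx2 (by linarith) (by linarith)
end Sok
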