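import Pool.Agent.Lib.MP_816dec_an.JBG2

/-!
MP_816dec_an (A3, row R1): tables b = 7, real points.
-/

set_option autoImplicit false
set_option maxHeartbeats 4000000

open Complex Set

namespace Sok

private theorem JB7_k0b_b16_0 {β x y : ℝ} (hβ : 0 < β) (hN : β * 13.685 ≤ 1) (hx1 : 1.7109 ≤ x) (hx2 : x ≤ 2.1421)
    (hy1 : -0.45 ≤ y) (hy2 : y ≤ -0.405) : ‖HH β (x + y * I) - 1‖ ≤ 0.15 := by
  refine le_epsJ (C := 2.0448) (N0 := 13.685) (J_boxp 1.7109 2.1421 0.45 0 (-0.405) 1.5952 2.1889 2.2232 0.7401 0.5949 3.6994 13.685 1.3722 8.499 1.904 0.1808 0.7975 0.4327 0.8836 1.4406 0.9402 2.8689 3.7692 2.1838 0.00001827 0.00269 0.000005605 0.0000003101 0.00000259 0.0000003101 0.0000003101 0.0000003101 2.0448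
    hβ hN hx1 hx2 hy1 hy2 (by norm_num) (by norm_num) (by linarith) (by norm_num) (by norm_num) (by norm_num) (by norm_num) (by norm_num) (by norm_num) (by norm_num) (by norm_num) (by norm_num) (by norm_num) (by norm_num) (by norm_num) (by norm_num) (by norm_num) (by norm_num) (by norm_num) (by norm_num) (by norm_num) (by norm_num) (by norm_num) (by norm_num)
    (cube_sqrt_geJ (s := 0.7366) (by norm_num) (by norm_num) (by norm_num) (by norm_num))
    (cube_sqrt_geJ (s := 0.9121) (by norm_num) (by norm_num) (by norm_num) (by norm_num))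
    (by norm_num) (by norm_num) (by norm_num) (by norm_num) (by norm_num) (by norm_num) (by norm_num) (by norm_num) (by norm_num) (by norm_num) (by norm_num) (by norm_num) (by norm_num) (by norm_num) (by norm_num) (by norm_num) (by norm_num) (by norm_num)
    (exp_neg_leJ (r := 0.913) 10 (by norm_num) (by norm_num) (by norm_num) (by norm_num))
    (exp_neg_leJ (r := 0.921) 5 (by norm_num) (by norm_num) (by norm_num) (by norm_num))
    (exp_neg_leJ (r := 0.092) 12 (by norm_num) (by norm_num) (by norm_num) (by norm_num))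
    (exp_neg_leJ (r := 0.99) 14 (by norm_num) (by norm_num) (by norm_num) (by norm_num))
    (exp_neg_leJ (r := 0.866) 12 (by norm_num) (by norm_num) (by norm_num) (by norm_num))
    (exp_neg_leJ (r := 0.99) 14 (by norm_num) (by norm_num) (by norm_num) (by norm_num))
    (exp_neg_leJ (r := 0.99) 14 (by norm_num) (by norm_num) (by norm_num) (by norm_num))
    (exp_neg_leJ (r := 0.99) 14 (by norm_num) (by norm_num) (by norm_num) (by norm_num))
    (by norm_num)) (by norm_num) hN hβ.le (by norm_num)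

private theorem JB7_k0b_b16_1 {β x y : ℝ} (hβ : 0 < β) (hN : β * 13.685 ≤ 1) (hx1 : 1.599 ≤ x) (hx2 : x ≤ 2.057)
    (hy1 : -0.405 ≤ y) (hy2 : y ≤ -0.335) : ‖HH β (x + y * I) - 1‖ ≤ 0.15 := by
  refine le_epsJ (C := 2.0079) (N0 := 13.685) (J_boxp 1.599 2.057 0.405 0 (-0.335) 1.5484 2.0965 2.1619 0.7632 0.5866 3.6994 13.685 1.354 8.174 1.887 0.2551 0.7741 0.4247 0.9163 1.633 0.9104 2.7139 3.6677 2.2111 0.00002511 0.002996 0.000003586 0.0000003101 0.000003887 0.0000003101 0.0000003101 0.0000003101 2.0079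
    hβ hN hx1 hx2 hy1 hy2 (by norm_num) (by norm_num) (by linarith) (by norm_num) (by norm_num) (by norm_num) (by norm_num) (by norm_num) (by norm_num) (by norm_num) (by norm_num) (by norm_num) (by norm_num) (by norm_num) (by norm_num) (by norm_num) (by norm_num) (by norm_num) (by norm_num) (by norm_num) (by norm_num) (by norm_num) (by norm_num) (by norm_num)
    (cube_sqrt_geJ (s := 0.7407) (by norm_num) (by norm_num) (by norm_num) (by norm_num))
    (cube_sqrt_geJ (s := 0.9133) (by norm_num) (by norm_num) (by norm_num) (by norm_num))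
    (by norm_num) (by norm_num) (by norm_num) (by norm_num) (by norm_num) (by norm_num) (by norm_num) (by norm_num) (by norm_num) (by norm_num) (by norm_num) (by norm_num) (by norm_num) (by norm_num) (by norm_num) (by norm_num) (by norm_num) (by norm_num)
    (exp_neg_leJ (r := 0.593) 10 (by norm_num) (by norm_num) (by norm_num) (by norm_num))
    (exp_neg_leJ (r := 0.812) 5 (by norm_num) (by norm_num) (by norm_num) (by norm_num))
    (exp_neg_leJ (r := 0.539) 12 (by norm_num) (by norm_num) (by norm_num) (by norm_num))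
    (exp_neg_leJ (r := 0.99) 14 (by norm_num) (by norm_num) (by norm_num) (by norm_num))
    (exp_neg_leJ (r := 0.458) 12 (by norm_num) (by norm_num) (by norm_num) (by norm_num))
    (exp_neg_leJ (r := 0.99) 14 (by norm_num) (by norm_num) (by norm_num) (by norm_num))
    (exp_neg_leJ (r := 0.99) 14 (by norm_num) (by norm_num) (by norm_num) (by norm_num))
    (exp_neg_leJ (r := 0.99) 14 (by norm_num) (by norm_num) (by norm_num) (by norm_num))
    (by norm_num)) (by norm_num) hN hβ.le (by norm_num)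

private theorem JB7_k0b_b16_2 {β x y : ℝ} (hβ : 0 < β) (hN : β * 13.685 ≤ 1) (hx1 : 1.5393 ≤ x) (hx2 : x ≤ 1.9216)
    (hy1 : -0.335 ≤ y) (hy2 : y ≤ -0.289) : ‖HH β (x + y * I) - 1‖ ≤ 0.15 := by
  refine le_epsJ (C := 1.454) (N0 := 13.685) (J_boxp 1.5393 1.9216 0.335 0 (-0.289) 1.556 1.9506 2.049 0.7375 0.5711 3.6994 13.685 1.2536 6.645 1.792 0.3718 0.7779 0.4528 1.0064 1.9338 0.9196 2.6313 3.7386 2.4883 0.00002384 0.002038 0.000001046 0.0000003101 0.000003428 0.0000003101 0.0000003101 0.0000003101 1.454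
    hβ hN hx1 hx2 hy1 hy2 (by norm_num) (by norm_num) (by linarith) (by norm_num) (by norm_num) (by norm_num) (by norm_num) (by norm_num) (by norm_num) (by norm_num) (by norm_num) (by norm_num) (by norm_num) (by norm_num) (by norm_num) (by norm_num) (by norm_num) (by norm_num) (by norm_num) (by norm_num) (by norm_num) (by norm_num) (by norm_num) (by norm_num)
    (cube_sqrt_geJ (s := 0.7629) (by norm_num) (by norm_num) (by norm_num) (by norm_num))
    (cube_sqrt_geJ (s := 0.92) (by norm_num) (by norm_num) (by norm_num) (by norm_num))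
    (by norm_num) (by norm_num) (by norm_num) (by norm_num) (by norm_num) (by norm_num) (by norm_num) (by norm_num) (by norm_num) (by norm_num) (by norm_num) (by norm_num) (by norm_num) (by norm_num) (by norm_num) (by norm_num) (by norm_num) (by norm_num)
    (exp_neg_leJ (r := 0.645) 10 (by norm_num) (by norm_num) (by norm_num) (by norm_num))
    (exp_neg_leJ (r := 0.196) 6 (by norm_num) (by norm_num) (by norm_num) (by norm_num))
    (exp_neg_leJ (r := 0.772) 13 (by norm_num) (by norm_num) (by norm_num) (by norm_num))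
    (exp_neg_leJ (r := 0.99) 14 (by norm_num) (by norm_num) (by norm_num) (by norm_num))
    (exp_neg_leJ (r := 0.584) 12 (by norm_num) (by norm_num) (by norm_num) (by norm_num))
    (exp_neg_leJ (r := 0.99) 14 (by norm_num) (by norm_num) (by norm_num) (by norm_num))
    (exp_neg_leJ (r := 0.99) 14 (by norm_num) (by norm_num) (by norm_num) (by norm_num))
    (exp_neg_leJ (r := 0.99) 14 (by norm_num) (by norm_num) (by norm_num) (by norm_num))
    (by norm_num)) (by norm_num) hN hβ.le (by norm_num)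

theorem JB7_k0b_c16 {κ t β : ℝ} (h : DomR κ t) (hβ : 0 < β) (hk1 : 1.18 ≤ κ) (hk2 : κ ≤ 1.39)
    (ht1 : -0.86 ≤ t + κ) (ht2 : t + κ ≤ -0.6) (hR0 : β * 10 ≤ κ) (hR : β * (6.75 * (1 + κ ^ 2)) ≤ κ) :
    ‖HH β (sg κ t) - 1‖ ≤ 0.15 := by
  have hN : β * 13.685 ≤ 1 := bNC' hβ hk1 (by norm_num) (by norm_num) hR (by norm_num)
  have hy1 : -0.45 ≤ sy κ t := syL_ge h 1.18 1.39 0.86 0.45 0.63762 0.63763 0.237 0.20642 0.24317 hk1 hk2 (by linarith) (by norm_num) (by norm_num) (by norm_num)
    (expm_ge (by norm_num) (by norm_num) (by norm_num) (by norm_num)) (expm_le (by norm_num) (by norm_num) (by norm_num)) (by norm_num)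
    (by norm_num) (by norm_num) (by norm_num) (by norm_num) (by norm_num) (by norm_num)
  have hy2 : sy κ t ≤ -0.289 := syL_le h 1.18 1.39 0.6 0.289 0.74901 0.74902 0.15572 0.18345 hk1 hk2 (by linarith) (by norm_num) (by norm_num) (by norm_num)
    (expm_ge (by norm_num) (by norm_num) (by norm_num) (by norm_num)) (expm_le (by norm_num) (by norm_num) (by norm_num)) (by norm_num)
    (by norm_num) (by norm_num) (by norm_num) (by norm_num) (by norm_num) (by norm_num)
  rcases le_total (sy κ t) (-0.405) with f0 | g0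
  · have hx1 : 1.7109 ≤ sx κ t := sx_lo h 1.18 (-0.405) 0.45 1.4993 1.7109 hk1 (by norm_num) f0 (abs_le.2 ⟨by linarith, by linarith⟩) (by rw [neg_neg]; exact expn_ge (by norm_num) (by norm_num)) (by norm_num) (by norm_num)
    have hx2 : sx κ t ≤ 2.1421 := sx_hi h 1.39 (-0.45) 0.405 1.56832 2.1421 hk2 hy1 (by norm_num) (by rw [abs_of_nonpos (by linarith)]; linarith) (by rw [neg_neg]; exact expn_le (by norm_num) (by norm_num) (by norm_num)) (by norm_num) (by norm_num)
    exact JB7_k0b_b16_0 hβ hN hx1 hx2 (by linarith) (by linarith)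
  rcases le_total (sy κ t) (-0.335) with f1 | g1
  · have hx1 : 1.599 ≤ sx κ t := sx_lo h 1.18 (-0.335) 0.405 1.39794 1.599 hk1 (by norm_num) f1 (abs_le.2 ⟨by linarith, by linarith⟩) (by rw [neg_neg]; exact expn_ge (by norm_num) (by norm_num)) (by norm_num) (by norm_num)
    have hx2 : sx κ t ≤ 2.057 := sx_hi h 1.39 (-0.405) 0.335 1.49931 2.057 hk2 g0 (by norm_num) (by rw [abs_of_nonpos (by linarith)]; linarith) (by rw [neg_neg]; exact expn_le (by norm_num) (by norm_num) (by norm_num)) (by norm_num) (by norm_num)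
    exact JB7_k0b_b16_1 hβ hN hx1 hx2 (by linarith) (by linarith)
  have hx1 : 1.5393 ≤ sx κ t := sx_lo h 1.18 (-0.289) 0.335 1.33509 1.5393 hk1 (by norm_num) hy2 (abs_le.2 ⟨by linarith, by linarith⟩) (by rw [neg_neg]; exact expn_ge (by norm_num) (by norm_num)) (by norm_num) (by norm_num)
  have hx2 : sx κ t ≤ 1.9216 := sx_hi h 1.39 (-0.335) 0.289 1.39795 1.9216 hk2 g1 (by norm_num) (by rw [abs_of_nonpos (by linarith)]; linarith) (by rw [neg_neg]; exact expn_le (by norm_num) (by norm_num) (by norm_num)) (by norm_num) (by norm_num)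
  exact JB7_k0b_b16_2 hβ hN hx1 hx2 (by linarith) (by linarith)

private theorem JB7_k2a_b0_0 {β x y : ℝ} (hβ : 0 < β) (hN : β * 21.739 ≤ 1) (hx1 : 0.0914 ≤ x) (hx2 : x ≤ 0.3526)
    (hy1 : -0 ≤ y) (hy2 : y ≤ 0.201) : ‖HH β (x + y * I) - 1‖ ≤ 0.06 := by
  refine le_epsJ (C := 0.393) (N0 := 21.739) (J_boxp 0.0914 0.3526 0 0.201 0.201 0.7744 0.4059 1.2517 1.6418 0.4464 4.6626 21.739 0.5242 1.959 1.262 1.2845 0.3871 0.3195 1.0395 3.8858 0.3789 0.606 0.8914 2.8444 0.0002216 0.0009663 0.0000003101 0.0000003101 0.000265 0.000001902 0.0000003101 0.0000003101 0.393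
    hβ hN hx1 hx2 hy1 hy2 (by norm_num) (by norm_num) (by linarith) (by norm_num) (by norm_num) (by norm_num) (by norm_num) (by norm_num) (by norm_num) (by norm_num) (by norm_num) (by norm_num) (by norm_num) (by norm_num) (by norm_num) (by norm_num) (by norm_num) (by norm_num) (by norm_num) (by norm_num) (by norm_num) (by norm_num) (by norm_num) (by norm_num)
    (cube_sqrt_geJ (s := 0.9084) (by norm_num) (by norm_num) (by norm_num) (by norm_num))
    (cube_sqrt_geJ (s := 0.9673) (by norm_num) (by norm_num) (by norm_num) (by norm_num))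
    (by norm_num) (by norm_num) (by norm_num) (by norm_num) (by norm_num) (by norm_num) (by norm_num) (by norm_num) (by norm_num) (by norm_num) (by norm_num) (by norm_num) (by norm_num) (by norm_num) (by norm_num) (by norm_num) (by norm_num) (by norm_num)
    (exp_neg_leJ (r := 0.415) 8 (by norm_num) (by norm_num) (by norm_num) (by norm_num))
    (exp_neg_leJ (r := 0.945) 6 (by norm_num) (by norm_num) (by norm_num) (by norm_num))
    (exp_neg_leJ (r := 0.99) 14 (by norm_num) (by norm_num) (by norm_num) (by norm_num))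
    (exp_neg_leJ (r := 0.99) 14 (by norm_num) (by norm_num) (by norm_num) (by norm_num))
    (exp_neg_leJ (r := 0.236) 8 (by norm_num) (by norm_num) (by norm_num) (by norm_num))
    (exp_neg_leJ (r := 0.173) 13 (by norm_num) (by norm_num) (by norm_num) (by norm_num))
    (exp_neg_leJ (r := 0.99) 14 (by norm_num) (by norm_num) (by norm_num) (by norm_num))
    (exp_neg_leJ (r := 0.99) 14 (by norm_num) (by norm_num) (by norm_num) (by norm_num))
    (by norm_num)) (by norm_num) hN hβ.le (by norm_num)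

private theorem JB7_k2a_b0_1 {β x y : ℝ} (hβ : 0 < β) (hN : β * 21.739 ≤ 1) (hn : ‖(x + y * I : ℂ)‖ ≤ 0.377) : ‖HH β (x + y * I) - 1‖ ≤ 0.06 := by
  refine le_epsJ (C := 1.2944) (N0 := 21.739) (J45_genN (N := 21.739) (r0 := 4.6626) (f := 2.2707) (n0 := 0.377) (a := 0.623) (wL := 1.776) (wR := 2.181)
    (E1 := 0.02232) (E2 := 0.00002681) (E3 := 0.06256) (E4 := 0.0002334) (E5 := 0.0000003101) hβ (by norm_num) hN
    (by norm_num) (by norm_num) (by norm_num) hn (by norm_num) (by norm_num) (by norm_num)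
    (cube_sqrt_geJ (s := 0.9212) (by norm_num) (by norm_num) (by norm_num) (by norm_num))
    (cube_sqrt_geJ (s := 0.8945) (by norm_num) (by norm_num) (by norm_num) (by norm_num))
    (exp_neg_leJ (r := 0.804) 3 (by norm_num) (by norm_num) (by norm_num) (by norm_num))
    (exp_neg_leJ (r := 0.527) 10 (by norm_num) (by norm_num) (by norm_num) (by norm_num))
    (exp_neg_leJ (r := 0.773) 2 (by norm_num) (by norm_num) (by norm_num) (by norm_num))
    (exp_neg_leJ (r := 0.363) 8 (by norm_num) (by norm_num) (by norm_num) (by norm_num))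
    (exp_neg_leJ (r := 0.99) 14 (by norm_num) (by norm_num) (by norm_num) (by norm_num))
    (by norm_num)) (by norm_num) hN hβ.le (by norm_num)

theorem JB7_k2a_c0 {κ t β : ℝ} (h : DomR κ t) (hβ : 0 < β) (hk1 : 0.27 ≤ κ) (hk2 : κ ≤ 0.46)
    (ht1 : 0.94 ≤ t + κ) (ht2 : t + κ ≤ 1.4) (hR0 : β * 10 ≤ κ) (hR : β * (6.75 * (1 + κ ^ 2)) ≤ κ) :
    ‖HH β (sg κ t) - 1‖ ≤ 0.06 := by
  have hN : β * 21.739 ≤ 1 := bNR hβ h.1 hk2 hR0 (by norm_num)
  have hy1 : 0.166 ≤ sy κ t := syR_ge h 0.27 0.46 0.94 0.166 1.18057 1.18058 0.42603 0.72584 hk1 hk2 (by linarith) (by norm_num) (by norm_num)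
    (expn_ge (by norm_num) (by norm_num)) (expn_le (by norm_num) (by norm_num) (by norm_num)) (by norm_num)
    (by norm_num) (by norm_num) (by norm_num) (by norm_num) (by norm_num) (by norm_num)
  have hy2 : sy κ t ≤ 0.314 := syR_ang2 h 0.27 0.46 1.4 1.204 0.3628 0.9342 0.314 0.73052 1.36888 hk1 hk2 (by linarith) (by norm_num) (by norm_num) (by norm_num)
    (cos_le_num (by norm_num)) (sin_le_num (by norm_num) (by norm_num)) (expm_le (by norm_num) (by norm_num) (by norm_num))
    (expn_ge (by norm_num) (by norm_num)) (by norm_num) (by norm_num) (by norm_num) (by norm_num) (by norm_num)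
  rcases le_total (sy κ t) 0.201 with f0 | g0
  · have hx1 : 0.0914 ≤ sx κ t := sx_lo h 0.27 0.201 0.201 0.81791 0.0914 hk1 (by norm_num) f0 (abs_le.2 ⟨by linarith, by linarith⟩) (expm_ge (by norm_num) (by norm_num) (by norm_num) (by norm_num)) (by norm_num) (by norm_num)
    have hx2 : sx κ t ≤ 0.3526 := sx_hi h 0.46 0.166 0.166 0.84705 0.3526 hk2 hy1 (by norm_num) (by rw [abs_of_nonneg (by linarith)]; linarith) (expm_le (by norm_num) (by norm_num) (by norm_num)) (by norm_num) (by norm_num)
    exact JB7_k2a_b0_0 hβ hN hx1 hx2 (by linarith) (by linarith)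
  exact JB7_k2a_b0_1 hβ hN (norm_sg_le h 0.46 0.201 0.81792 0.377 hk2 g0 (expm_le (by norm_num) (by norm_num) (by norm_num)) (by norm_num))

private theorem JB7_k2a_b1_0 {β x y : ℝ} (hβ : 0 < β) (hN : β * 14.705 ≤ 1) (hx1 : 0.1563 ≤ x) (hx2 : x ≤ 0.4759)
    (hy1 : -0 ≤ y) (hy2 : y ≤ 0.302) : ‖HH β (x + y * I) - 1‖ ≤ 0.06 := by
  refine le_epsJ (C := 0.8319) (N0 := 14.705) (J_boxp 0.1563 0.4759 0 0.302 0.302 0.8201 0.5637 1.3863 1.5854 0.4698 3.8348 14.705 0.6874 2.487 1.361 1.237 0.41 0.316 1.0617 3.8052 0.4001 0.6856 0.588 2.0693 0.002408 0.009606 0.0000003101 0.0000003101 0.002793 0.00004187 0.000176 0.0000003101 0.8319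
    hβ hN hx1 hx2 hy1 hy2 (by norm_num) (by norm_num) (by linarith) (by norm_num) (by norm_num) (by norm_num) (by norm_num) (by norm_num) (by norm_num) (by norm_num) (by norm_num) (by norm_num) (by norm_num) (by norm_num) (by norm_num) (by norm_num) (by norm_num) (by norm_num) (by norm_num) (by norm_num) (by norm_num) (by norm_num) (by norm_num) (by norm_num)
    (cube_sqrt_geJ (s := 0.8779) (by norm_num) (by norm_num) (by norm_num) (by norm_num))
    (cube_sqrt_geJ (s := 0.9569) (by norm_num) (by norm_num) (by norm_num) (by norm_num))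
    (by norm_num) (by norm_num) (by norm_num) (by norm_num) (by norm_num) (by norm_num) (by norm_num) (by norm_num) (by norm_num) (by norm_num) (by norm_num) (by norm_num) (by norm_num) (by norm_num) (by norm_num) (by norm_num) (by norm_num) (by norm_num)
    (exp_neg_leJ (r := 0.029) 6 (by norm_num) (by norm_num) (by norm_num) (by norm_num))
    (exp_neg_leJ (r := 0.646) 4 (by norm_num) (by norm_num) (by norm_num) (by norm_num))
    (exp_neg_leJ (r := 0.99) 14 (by norm_num) (by norm_num) (by norm_num) (by norm_num))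
    (exp_neg_leJ (r := 0.99) 14 (by norm_num) (by norm_num) (by norm_num) (by norm_num))
    (exp_neg_leJ (r := 0.883) 5 (by norm_num) (by norm_num) (by norm_num) (by norm_num))
    (exp_neg_leJ (r := 0.081) 10 (by norm_num) (by norm_num) (by norm_num) (by norm_num))
    (exp_neg_leJ (r := 0.646) 8 (by norm_num) (by norm_num) (by norm_num) (by norm_num))
    (exp_neg_leJ (r := 0.99) 14 (by norm_num) (by norm_num) (by norm_num) (by norm_num))
    (by norm_num)) (by norm_num) hN hβ.le (by norm_num)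

private theorem JB7_k2a_b1_1 {β x y : ℝ} (hβ : 0 < β) (hN : β * 14.705 ≤ 1) (hx1 : 0.1232 ≤ x) (hx2 : x ≤ 0.402)
    (hy1 : -0 ≤ y) (hy2 : y ≤ 0.342) (hsl : y ≤ 2.45 * x) : ‖HH β (x + y * I) - 1‖ ≤ 0.06 := by
  refine le_epsJ (C := 0.8656) (N0 := 14.705) (J_boxp 0.1232 0.402 0 0.342 0.342 0.7968 0.5278 1.401 1.6642 0.4723 3.8348 14.705 0.6624 2.395 1.345 1.2655 0.3983 0.3104 1.0504 3.8376 0.3799 0.6357 0.3502 1.9122 0.002866 0.01043 0.0000003101 0.0000003101 0.003752 0.00008724 0.005806 0.0000003101 0.8656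
    hβ hN hx1 hx2 hy1 hy2 (by norm_num) (by norm_num) hsl (by norm_num) (by norm_num) (by norm_num) (by norm_num) (by norm_num) (by norm_num) (by norm_num) (by norm_num) (by norm_num) (by norm_num) (by norm_num) (by norm_num) (by norm_num) (by norm_num) (by norm_num) (by norm_num) (by norm_num) (by norm_num) (by norm_num) (by norm_num) (by norm_num)
    (cube_sqrt_geJ (s := 0.8827) (by norm_num) (by norm_num) (by norm_num) (by norm_num))
    (cube_sqrt_geJ (s := 0.9585) (by norm_num) (by norm_num) (by norm_num) (by norm_num))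
    (by norm_num) (by norm_num) (by norm_num) (by norm_num) (by norm_num) (by norm_num) (by norm_num) (by norm_num) (by norm_num) (by norm_num) (by norm_num) (by norm_num) (by norm_num) (by norm_num) (by norm_num) (by norm_num) (by norm_num) (by norm_num)
    (exp_neg_leJ (r := 0.857) 5 (by norm_num) (by norm_num) (by norm_num) (by norm_num))
    (exp_neg_leJ (r := 0.564) 4 (by norm_num) (by norm_num) (by norm_num) (by norm_num))
    (exp_neg_leJ (r := 0.99) 14 (by norm_num) (by norm_num) (by norm_num) (by norm_num))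
    (exp_neg_leJ (r := 0.99) 14 (by norm_num) (by norm_num) (by norm_num) (by norm_num))
    (exp_neg_leJ (r := 0.586) 5 (by norm_num) (by norm_num) (by norm_num) (by norm_num))
    (exp_neg_leJ (r := 0.347) 9 (by norm_num) (by norm_num) (by norm_num) (by norm_num))
    (exp_neg_leJ (r := 0.149) 5 (by norm_num) (by norm_num) (by norm_num) (by norm_num))
    (exp_neg_leJ (r := 0.99) 14 (by norm_num) (by norm_num) (by norm_num) (by norm_num))
    (by norm_num)) (by norm_num) hN hβ.le (by norm_num)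

private theorem JB7_k2a_b1_2 {β x y : ℝ} (hβ : 0 < β) (hN : β * 14.705 ≤ 1) (hx1 : 0.1395 ≤ x) (hx2 : x ≤ 0.3412)
    (hy1 : -0 ≤ y) (hy2 : y ≤ 0.377) (hsl : y ≤ 2.45 * x) : ‖HH β (x + y * I) - 1‖ ≤ 0.06 := by
  refine le_epsJ (C := 0.8503) (N0 := 14.705) (J_boxp 0.1395 0.3412 0 0.377 0.377 0.8082 0.5085 1.4187 1.6394 0.4752 3.8348 14.705 0.6292 2.28 1.324 1.2888 0.404 0.3193 1.056 3.8616 0.3843 0.6546 0.2327 1.8323 0.00264 0.009148 0.0000003101 0.0000003101 0.003517 0.00006609 0.03269 0.0000003101 0.8503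
    hβ hN hx1 hx2 hy1 hy2 (by norm_num) (by norm_num) hsl (by norm_num) (by norm_num) (by norm_num) (by norm_num) (by norm_num) (by norm_num) (by norm_num) (by norm_num) (by norm_num) (by norm_num) (by norm_num) (by norm_num) (by norm_num) (by norm_num) (by norm_num) (by norm_num) (by norm_num) (by norm_num) (by norm_num) (by norm_num) (by norm_num)
    (cube_sqrt_geJ (s := 0.8889) (by norm_num) (by norm_num) (by norm_num) (by norm_num))
    (cube_sqrt_geJ (s := 0.9607) (by norm_num) (by norm_num) (by norm_num) (by norm_num))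
    (by norm_num) (by norm_num) (by norm_num) (by norm_num) (by norm_num) (by norm_num) (by norm_num) (by norm_num) (by norm_num) (by norm_num) (by norm_num) (by norm_num) (by norm_num) (by norm_num) (by norm_num) (by norm_num) (by norm_num) (by norm_num)
    (exp_neg_leJ (r := 0.94) 5 (by norm_num) (by norm_num) (by norm_num) (by norm_num))
    (exp_neg_leJ (r := 0.695) 4 (by norm_num) (by norm_num) (by norm_num) (by norm_num))
    (exp_neg_leJ (r := 0.99) 14 (by norm_num) (by norm_num) (by norm_num) (by norm_num))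
    (exp_neg_leJ (r := 0.99) 14 (by norm_num) (by norm_num) (by norm_num) (by norm_num))
    (exp_neg_leJ (r := 0.651) 5 (by norm_num) (by norm_num) (by norm_num) (by norm_num))
    (exp_neg_leJ (r := 0.625) 9 (by norm_num) (by norm_num) (by norm_num) (by norm_num))
    (exp_neg_leJ (r := 0.421) 3 (by norm_num) (by norm_num) (by norm_num) (by norm_num))
    (exp_neg_leJ (r := 0.99) 14 (by norm_num) (by norm_num) (by norm_num) (by norm_num))
    (by norm_num)) (by norm_num) hN hβ.le (by norm_num)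

private theorem JB7_k2a_b1_3 {β x y : ℝ} (hβ : 0 < β) (hN : β * 14.705 ≤ 1) (hx1 : 0.1538 ≤ x) (hx2 : x ≤ 0.2747)
    (hy1 : -0 ≤ y) (hy2 : y ≤ 0.392) (hsl : y ≤ 2.45 * x) : ‖HH β (x + y * I) - 1‖ ≤ 0.06 := by
  refine le_epsJ (C := 0.8133) (N0 := 14.705) (J_boxp 0.1538 0.2747 0 0.392 0.392 0.8183 0.4787 1.4189 1.6092 0.4753 3.8348 14.705 0.585 2.137 1.298 1.3144 0.4091 0.3293 1.0609 3.8901 0.3897 0.6729 0.197 1.8713 0.002442 0.007906 0.0000003101 0.0000003101 0.003251 0.0000506 0.05538 0.0000003101 0.8133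
    hβ hN hx1 hx2 hy1 hy2 (by norm_num) (by norm_num) hsl (by norm_num) (by norm_num) (by norm_num) (by norm_num) (by norm_num) (by norm_num) (by norm_num) (by norm_num) (by norm_num) (by norm_num) (by norm_num) (by norm_num) (by norm_num) (by norm_num) (by norm_num) (by norm_num) (by norm_num) (by norm_num) (by norm_num) (by norm_num) (by norm_num)
    (cube_sqrt_geJ (s := 0.8972) (by norm_num) (by norm_num) (by norm_num) (by norm_num))
    (cube_sqrt_geJ (s := 0.9635) (by norm_num) (by norm_num) (by norm_num) (by norm_num))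
    (by norm_num) (by norm_num) (by norm_num) (by norm_num) (by norm_num) (by norm_num) (by norm_num) (by norm_num) (by norm_num) (by norm_num) (by norm_num) (by norm_num) (by norm_num) (by norm_num) (by norm_num) (by norm_num) (by norm_num) (by norm_num)
    (exp_neg_leJ (r := 0.015) 6 (by norm_num) (by norm_num) (by norm_num) (by norm_num))
    (exp_neg_leJ (r := 0.842) 4 (by norm_num) (by norm_num) (by norm_num) (by norm_num))
    (exp_neg_leJ (r := 0.99) 14 (by norm_num) (by norm_num) (by norm_num) (by norm_num))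
    (exp_neg_leJ (r := 0.99) 14 (by norm_num) (by norm_num) (by norm_num) (by norm_num))
    (exp_neg_leJ (r := 0.73) 5 (by norm_num) (by norm_num) (by norm_num) (by norm_num))
    (exp_neg_leJ (r := 0.894) 9 (by norm_num) (by norm_num) (by norm_num) (by norm_num))
    (exp_neg_leJ (r := 0.896) 2 (by norm_num) (by norm_num) (by norm_num) (by norm_num))
    (exp_neg_leJ (r := 0.99) 14 (by norm_num) (by norm_num) (by norm_num) (by norm_num))
    (by norm_num)) (by norm_num) hN hβ.le (by norm_num)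

private theorem JB7_k2a_b1_4 {β x y : ℝ} (hβ : 0 < β) (hN : β * 14.705 ≤ 1) (hx1 : 0.1599 ≤ x) (hx2 : x ≤ 0.2398)
    (hy1 : -0 ≤ y) (hy2 : y ≤ 0.397) (hsl : y ≤ 2.45 * x) : ‖HH β (x + y * I) - 1‖ ≤ 0.06 := by
  refine le_epsJ (C := 0.793) (N0 := 14.705) (J_boxp 0.1599 0.2398 0 0.397 0.397 0.8226 0.4639 1.4175 1.5959 0.475 3.8348 14.705 0.564 2.073 1.285 1.3278 0.4112 0.3339 1.063 3.9048 0.3922 0.6809 0.1877 1.9001 0.002368 0.007399 0.0000003101 0.0000003101 0.003133 0.00004486 0.06337 0.0000003101 0.793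
    hβ hN hx1 hx2 hy1 hy2 (by norm_num) (by norm_num) hsl (by norm_num) (by norm_num) (by norm_num) (by norm_num) (by norm_num) (by norm_num) (by norm_num) (by norm_num) (by norm_num) (by norm_num) (by norm_num) (by norm_num) (by norm_num) (by norm_num) (by norm_num) (by norm_num) (by norm_num) (by norm_num) (by norm_num) (by norm_num) (by norm_num)
    (cube_sqrt_geJ (s := 0.9011) (by norm_num) (by norm_num) (by norm_num) (by norm_num))
    (cube_sqrt_geJ (s := 0.9648) (by norm_num) (by norm_num) (by norm_num) (by norm_num))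
    (by norm_num) (by norm_num) (by norm_num) (by norm_num) (by norm_num) (by norm_num) (by norm_num) (by norm_num) (by norm_num) (by norm_num) (by norm_num) (by norm_num) (by norm_num) (by norm_num) (by norm_num) (by norm_num) (by norm_num) (by norm_num)
    (exp_neg_leJ (r := 0.046) 6 (by norm_num) (by norm_num) (by norm_num) (by norm_num))
    (exp_neg_leJ (r := 0.909) 4 (by norm_num) (by norm_num) (by norm_num) (by norm_num))
    (exp_neg_leJ (r := 0.99) 14 (by norm_num) (by norm_num) (by norm_num) (by norm_num))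
    (exp_neg_leJ (r := 0.99) 14 (by norm_num) (by norm_num) (by norm_num) (by norm_num))
    (exp_neg_leJ (r := 0.767) 5 (by norm_num) (by norm_num) (by norm_num) (by norm_num))
    (exp_neg_leJ (r := 0.012) 10 (by norm_num) (by norm_num) (by norm_num) (by norm_num))
    (exp_neg_leJ (r := 0.76) 2 (by norm_num) (by norm_num) (by norm_num) (by norm_num))
    (exp_neg_leJ (r := 0.99) 14 (by norm_num) (by norm_num) (by norm_num) (by norm_num))
    (by norm_num)) (by norm_num) hN hβ.le (by norm_num)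

theorem JB7_k2a_c1 {κ t β : ℝ} (h : DomR κ t) (hβ : 0 < β) (hk1 : 0.46 ≤ κ) (hk2 : κ ≤ 0.68)
    (ht1 : 0.94 ≤ t + κ) (ht2 : t + κ ≤ 1.4) (hR0 : β * 10 ≤ κ) (hR : β * (6.75 * (1 + κ ^ 2)) ≤ κ) :
    ‖HH β (sg κ t) - 1‖ ≤ 0.06 := by
  have hN : β * 14.705 ≤ 1 := bNR hβ h.1 hk2 hR0 (by norm_num)
  have hy1 : 0.242 ≤ sy κ t := syR_ge h 0.46 0.68 0.94 0.242 1.27379 1.2738 0.45331 0.67013 hk1 hk2 (by linarith) (by norm_num) (by norm_num)
    (expn_ge (by norm_num) (by norm_num)) (expn_le (by norm_num) (by norm_num) (by norm_num)) (by norm_num)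
    (by norm_num) (by norm_num) (by norm_num) (by norm_num) (by norm_num) (by norm_num)
  have hy2 : sy κ t ≤ 0.397 := syR_le h 0.46 0.68 1.4 0.397 1.48735 0.8354 0.86834 1 hk1 hk2 (by linarith) (by norm_num) (by norm_num)
    (expn_ge (by norm_num) (by norm_num)) (by norm_num) (by norm_num) (Or.inl (by norm_num)) (by norm_num) (by norm_num) (by norm_num)
  rcases le_total (sy κ t) 0.302 with f0 | g0
  · have hx1 : 0.1563 ≤ sx κ t := sx_lo h 0.46 0.302 0.302 0.73933 0.1563 hk1 (by norm_num) f0 (abs_le.2 ⟨by linarith, by linarith⟩) (expm_ge (by norm_num) (by norm_num) (by norm_num) (by norm_num)) (by norm_num) (by norm_num)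
    have hx2 : sx κ t ≤ 0.4759 := sx_hi h 0.68 0.242 0.242 0.78506 0.4759 hk2 hy1 (by norm_num) (by rw [abs_of_nonneg (by linarith)]; linarith) (expm_le (by norm_num) (by norm_num) (by norm_num)) (by norm_num) (by norm_num)
    exact JB7_k2a_b1_0 hβ hN hx1 hx2 (by linarith) (by linarith)
  rcases le_total (sy κ t) 0.342 with f1 | g1
  · have hsl : sy κ t ≤ 2.45 * sx κ t := sy_slope h 0.46 1.4 0.302 0.73934 hk1 (by norm_num) ht2 (by norm_num) g0 (expm_le (by norm_num) (by norm_num) (by norm_num)) (by norm_num)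
    have hx1 : 0.1232 ≤ sx κ t := by linarith
    have hx2 : sx κ t ≤ 0.402 := sx_hi h 0.68 0.302 0.302 0.73934 0.402 hk2 g0 (by norm_num) (by rw [abs_of_nonneg (by linarith)]; linarith) (expm_le (by norm_num) (by norm_num) (by norm_num)) (by norm_num) (by norm_num)
    exact JB7_k2a_b1_1 hβ hN hx1 hx2 (by linarith) (by linarith) hsl
  rcases le_total (sy κ t) 0.377 with f2 | g2
  · have hsl : sy κ t ≤ 2.45 * sx κ t := sy_slope h 0.46 1.4 0.342 0.71035 hk1 (by norm_num) ht2 (by norm_num) g1 (expm_le (by norm_num) (by norm_num) (by norm_num)) (by norm_num)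
    have hx1 : 0.1395 ≤ sx κ t := by linarith
    have hx2 : sx κ t ≤ 0.3412 := sx_hi h 0.68 0.342 0.342 0.71035 0.3412 hk2 g1 (by norm_num) (by rw [abs_of_nonneg (by linarith)]; linarith) (expm_le (by norm_num) (by norm_num) (by norm_num)) (by norm_num) (by norm_num)
    exact JB7_k2a_b1_2 hβ hN hx1 hx2 (by linarith) (by linarith) hsl
  rcases le_total (sy κ t) 0.392 with f3 | g3
  · have hsl : sy κ t ≤ 2.45 * sx κ t := sy_slope h 0.46 1.4 0.377 0.68592 hk1 (by norm_num) ht2 (by norm_num) g2 (expm_le (by norm_num) (by norm_num) (by norm_num)) (by norm_num)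
    have hx1 : 0.1538 ≤ sx κ t := by linarith
    have hx2 : sx κ t ≤ 0.2747 := sx_hi h 0.68 0.377 0.377 0.68592 0.2747 hk2 g2 (by norm_num) (by rw [abs_of_nonneg (by linarith)]; linarith) (expm_le (by norm_num) (by norm_num) (by norm_num)) (by norm_num) (by norm_num)
    exact JB7_k2a_b1_3 hβ hN hx1 hx2 (by linarith) (by linarith) hsl
  have hsl : sy κ t ≤ 2.45 * sx κ t := sy_slope h 0.46 1.4 0.392 0.67571 hk1 (by norm_num) ht2 (by norm_num) g3 (expm_le (by norm_num) (by norm_num) (by norm_num)) (by norm_num)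
  have hx1 : 0.1599 ≤ sx κ t := by linarith
  have hx2 : sx κ t ≤ 0.2398 := sx_hi h 0.68 0.392 0.392 0.67571 0.2398 hk2 g3 (by norm_num) (by rw [abs_of_nonneg (by linarith)]; linarith) (expm_le (by norm_num) (by norm_num) (by norm_num)) (by norm_num) (by norm_num)
  exact JB7_k2a_b1_4 hβ hN hx1 hx2 (by linarith) (by linarith) hsl

private theorem JB7_k2a_b2_0 {β x y : ℝ} (hβ : 0 < β) (hN : β * 14.116 ≤ 1) (hx1 : 0.224 ≤ x) (hx2 : x ≤ 0.4549)
    (hy1 : -0 ≤ y) (hy2 : y ≤ 0.398) : ‖HH β (x + y * I) - 1‖ ≤ 0.06 := by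
  refine le_epsJ (C := 0.8314) (N0 := 14.116) (J_boxp 0.224 0.4549 0 0.398 0.398 0.8677 0.6045 1.4702 1.5002 0.4838 3.7572 14.116 0.6967 2.522 1.367 1.2451 0.4338 0.333 1.0849 3.8006 0.4232 0.7695 0.3116 1.6414 0.002192 0.009103 0.0000003101 0.0000003101 0.002555 0.00001922 0.01231 0.0000003101 0.8314
    hβ hN hx1 hx2 hy1 hy2 (by norm_num) (by norm_num) (by linarith) (by norm_num) (by norm_num) (by norm_num) (by norm_num) (by norm_num) (by norm_num) (by norm_num) (by norm_num) (by norm_num) (by norm_num) (by norm_num) (by norm_num) (by norm_num) (by norm_num) (by norm_num) (by norm_num) (by norm_num) (by norm_num) (by norm_num) (by norm_num) (by norm_num)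
    (cube_sqrt_geJ (s := 0.8762) (by norm_num) (by norm_num) (by norm_num) (by norm_num))
    (cube_sqrt_geJ (s := 0.9563) (by norm_num) (by norm_num) (by norm_num) (by norm_num))
    (by norm_num) (by norm_num) (by norm_num) (by norm_num) (by norm_num) (by norm_num) (by norm_num) (by norm_num) (by norm_num) (by norm_num) (by norm_num) (by norm_num) (by norm_num) (by norm_num) (by norm_num) (by norm_num) (by norm_num) (by norm_num)
    (exp_neg_leJ (r := 0.123) 6 (by norm_num) (by norm_num) (by norm_num) (by norm_num))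
    (exp_neg_leJ (r := 0.7) 4 (by norm_num) (by norm_num) (by norm_num) (by norm_num))
    (exp_neg_leJ (r := 0.99) 14 (by norm_num) (by norm_num) (by norm_num) (by norm_num))
    (exp_neg_leJ (r := 0.99) 14 (by norm_num) (by norm_num) (by norm_num) (by norm_num))
    (exp_neg_leJ (r := 0.973) 5 (by norm_num) (by norm_num) (by norm_num) (by norm_num))
    (exp_neg_leJ (r := 0.862) 10 (by norm_num) (by norm_num) (by norm_num) (by norm_num))
    (exp_neg_leJ (r := 0.398) 4 (by norm_num) (by norm_num) (by norm_num) (by norm_num))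
    (exp_neg_leJ (r := 0.99) 14 (by norm_num) (by norm_num) (by norm_num) (by norm_num))
    (by norm_num)) (by norm_num) hN hβ.le (by norm_num)

private theorem JB7_k2a_b2_1 {β x y : ℝ} (hβ : 0 < β) (hN : β * 14.116 ≤ 1) (hx1 : 0.1949 ≤ x) (hx2 : x ≤ 0.2978)
    (hy1 : -0 ≤ y) (hy2 : y ≤ 0.408) : ‖HH β (x + y * I) - 1‖ ≤ 0.06 := by
  refine le_epsJ (C := 0.7957) (N0 := 14.116) (J_boxp 0.1949 0.2978 0 0.408 0.408 0.8472 0.5052 1.4392 1.5385 0.4786 3.7572 14.116 0.5964 2.173 1.305 1.3055 0.4235 0.3393 1.0749 3.8758 0.408 0.7282 0.2105 1.806 0.002543 0.008332 0.0000003101 0.0000003101 0.003158 0.00003435 0.05142 0.0000003101 0.7957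
    hβ hN hx1 hx2 hy1 hy2 (by norm_num) (by norm_num) (by linarith) (by norm_num) (by norm_num) (by norm_num) (by norm_num) (by norm_num) (by norm_num) (by norm_num) (by norm_num) (by norm_num) (by norm_num) (by norm_num) (by norm_num) (by norm_num) (by norm_num) (by norm_num) (by norm_num) (by norm_num) (by norm_num) (by norm_num) (by norm_num) (by norm_num)
    (cube_sqrt_geJ (s := 0.895) (by norm_num) (by norm_num) (by norm_num) (by norm_num))
    (cube_sqrt_geJ (s := 0.9627) (by norm_num) (by norm_num) (by norm_num) (by norm_num))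
    (by norm_num) (by norm_num) (by norm_num) (by norm_num) (by norm_num) (by norm_num) (by norm_num) (by norm_num) (by norm_num) (by norm_num) (by norm_num) (by norm_num) (by norm_num) (by norm_num) (by norm_num) (by norm_num) (by norm_num) (by norm_num)
    (exp_neg_leJ (r := 0.978) 5 (by norm_num) (by norm_num) (by norm_num) (by norm_num))
    (exp_neg_leJ (r := 0.789) 4 (by norm_num) (by norm_num) (by norm_num) (by norm_num))
    (exp_neg_leJ (r := 0.99) 14 (by norm_num) (by norm_num) (by norm_num) (by norm_num))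
    (exp_neg_leJ (r := 0.99) 14 (by norm_num) (by norm_num) (by norm_num) (by norm_num))
    (exp_neg_leJ (r := 0.759) 5 (by norm_num) (by norm_num) (by norm_num) (by norm_num))
    (exp_neg_leJ (r := 0.279) 10 (by norm_num) (by norm_num) (by norm_num) (by norm_num))
    (exp_neg_leJ (r := 0.971) 2 (by norm_num) (by norm_num) (by norm_num) (by norm_num))
    (exp_neg_leJ (r := 0.99) 14 (by norm_num) (by norm_num) (by norm_num) (by norm_num))
    (by norm_num)) (by norm_num) hN hβ.le (by norm_num)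

theorem JB7_k2a_c2 {κ t β : ℝ} (h : DomR κ t) (hβ : 0 < β) (hk1 : 0.68 ≤ κ) (hk2 : κ ≤ 0.74)
    (ht1 : 0.94 ≤ t + κ) (ht2 : t + κ ≤ 1.4) (hR0 : β * 10 ≤ κ) (hR : β * (6.75 * (1 + κ ^ 2)) ≤ κ) :
    ‖HH β (sg κ t) - 1‖ ≤ 0.06 := by
  have hN : β * 14.116 ≤ 1 := bNC hβ h.1 hk2 (by norm_num) (by norm_num) hR (by norm_num)
  have hy1 : 0.303 ≤ sy κ t := syR_ge h 0.68 0.74 0.94 0.303 1.35391 1.35392 0.55437 0.6033 hk1 hk2 (by linarith) (by norm_num) (by norm_num)
    (expn_ge (by norm_num) (by norm_num)) (expn_le (by norm_num) (by norm_num) (by norm_num)) (by norm_num)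
    (by norm_num) (by norm_num) (by norm_num) (by norm_num) (by norm_num) (by norm_num)
  have hy2 : sy κ t ≤ 0.408 := syR_ang2 h 0.68 0.74 1.4 0.977 0.5607 0.829 0.408 0.66498 1.5038 hk1 hk2 (by linarith) (by norm_num) (by norm_num) (by norm_num)
    (cos_le_num (by norm_num)) (sin_le_num (by norm_num) (by norm_num)) (expm_le (by norm_num) (by norm_num) (by norm_num))
    (expn_ge (by norm_num) (by norm_num)) (by norm_num) (by norm_num) (by norm_num) (by norm_num) (by norm_num)
  rcases le_total (sy κ t) 0.398 with f0 | g0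
  · have hx1 : 0.224 ≤ sx κ t := sx_lo h 0.68 0.398 0.398 0.67166 0.224 hk1 (by norm_num) f0 (abs_le.2 ⟨by linarith, by linarith⟩) (expm_ge (by norm_num) (by norm_num) (by norm_num) (by norm_num)) (by norm_num) (by norm_num)
    have hx2 : sx κ t ≤ 0.4549 := sx_hi h 0.74 0.303 0.303 0.7386 0.4549 hk2 hy1 (by norm_num) (by rw [abs_of_nonneg (by linarith)]; linarith) (expm_le (by norm_num) (by norm_num) (by norm_num)) (by norm_num) (by norm_num)
    exact JB7_k2a_b2_0 hβ hN hx1 hx2 (by linarith) (by linarith)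
  have hx1 : 0.1949 ≤ sx κ t := sx_lo h 0.68 0.408 0.408 0.66497 0.1949 hk1 (by norm_num) hy2 (abs_le.2 ⟨by linarith, by linarith⟩) (expm_ge (by norm_num) (by norm_num) (by norm_num) (by norm_num)) (by norm_num) (by norm_num)
  have hx2 : sx κ t ≤ 0.2978 := sx_hi h 0.74 0.398 0.398 0.67167 0.2978 hk2 g0 (by norm_num) (by rw [abs_of_nonneg (by linarith)]; linarith) (expm_le (by norm_num) (by norm_num) (by norm_num)) (by norm_num) (by norm_num)
  exact JB7_k2a_b2_1 hβ hN hx1 hx2 (by linarith) (by linarith)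

private theorem JB7_k2a_b3_0 {β x y : ℝ} (hβ : 0 < β) (hN : β * 13.837 ≤ 1) (hx1 : 0.2679 ≤ x) (hx2 : x ≤ 0.4903)
    (hy1 : -0 ≤ y) (hy2 : y ≤ 0.411) : ‖HH β (x + y * I) - 1‖ ≤ 0.06 := by
  refine le_epsJ (C := 0.8046) (N0 := 13.837) (J_boxp 0.2679 0.4903 0 0.411 0.411 0.8986 0.6398 1.4938 1.4349 0.4876 3.7199 13.837 0.712 2.582 1.377 1.2315 0.4492 0.3426 1.0999 3.7802 0.4432 0.829 0.3437 1.572 0.002 0.008748 0.0000003101 0.0000003101 0.002173 0.00001045 0.008619 0.0000003101 0.8046
    hβ hN hx1 hx2 hy1 hy2 (by norm_num) (by norm_num) (by linarith) (by norm_num) (by norm_num) (by norm_num) (by norm_num) (by norm_num) (by norm_num) (by norm_num) (by norm_num) (by norm_num) (by norm_num) (by norm_num) (by norm_num) (by norm_num) (by norm_num) (by norm_num) (by norm_num) (by norm_num) (by norm_num) (by norm_num) (by norm_num) (by norm_num)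
    (cube_sqrt_geJ (s := 0.8733) (by norm_num) (by norm_num) (by norm_num) (by norm_num))
    (cube_sqrt_geJ (s := 0.9554) (by norm_num) (by norm_num) (by norm_num) (by norm_num))
    (by norm_num) (by norm_num) (by norm_num) (by norm_num) (by norm_num) (by norm_num) (by norm_num) (by norm_num) (by norm_num) (by norm_num) (by norm_num) (by norm_num) (by norm_num) (by norm_num) (by norm_num) (by norm_num) (by norm_num) (by norm_num)
    (exp_neg_leJ (r := 0.215) 6 (by norm_num) (by norm_num) (by norm_num) (by norm_num))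
    (exp_neg_leJ (r := 0.74) 4 (by norm_num) (by norm_num) (by norm_num) (by norm_num))
    (exp_neg_leJ (r := 0.99) 14 (by norm_num) (by norm_num) (by norm_num) (by norm_num))
    (exp_neg_leJ (r := 0.99) 14 (by norm_num) (by norm_num) (by norm_num) (by norm_num))
    (exp_neg_leJ (r := 0.132) 6 (by norm_num) (by norm_num) (by norm_num) (by norm_num))
    (exp_neg_leJ (r := 0.47) 11 (by norm_num) (by norm_num) (by norm_num) (by norm_num))
    (exp_neg_leJ (r := 0.755) 4 (by norm_num) (by norm_num) (by norm_num) (by norm_num))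
    (exp_neg_leJ (r := 0.99) 14 (by norm_num) (by norm_num) (by norm_num) (by norm_num))
    (by norm_num)) (by norm_num) hN hβ.le (by norm_num)

private theorem JB7_k2a_b3_1 {β x y : ℝ} (hβ : 0 < β) (hN : β * 13.837 ≤ 1) (hx1 : 0.2311 ≤ x) (hx2 : x ≤ 0.3353)
    (hy1 : -0 ≤ y) (hy2 : y ≤ 0.425) : ‖HH β (x + y * I) - 1‖ ≤ 0.06 := by
  refine le_epsJ (C := 0.82) (N0 := 13.837) (J_boxp 0.2311 0.3353 0 0.425 0.425 0.8727 0.5414 1.464 1.4842 0.4828 3.7199 13.837 0.6204 2.25 1.319 1.2911 0.4363 0.3461 1.0873 3.8545 0.4239 0.7766 0.21 1.6999 0.002389 0.008341 0.0000003101 0.0000003101 0.002843 0.00002158 0.05489 0.0000003101 0.82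
    hβ hN hx1 hx2 hy1 hy2 (by norm_num) (by norm_num) (by linarith) (by norm_num) (by norm_num) (by norm_num) (by norm_num) (by norm_num) (by norm_num) (by norm_num) (by norm_num) (by norm_num) (by norm_num) (by norm_num) (by norm_num) (by norm_num) (by norm_num) (by norm_num) (by norm_num) (by norm_num) (by norm_num) (by norm_num) (by norm_num) (by norm_num)
    (cube_sqrt_geJ (s := 0.8906) (by norm_num) (by norm_num) (by norm_num) (by norm_num))
    (cube_sqrt_geJ (s := 0.9612) (by norm_num) (by norm_num) (by norm_num) (by norm_num))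
    (by norm_num) (by norm_num) (by norm_num) (by norm_num) (by norm_num) (by norm_num) (by norm_num) (by norm_num) (by norm_num) (by norm_num) (by norm_num) (by norm_num) (by norm_num) (by norm_num) (by norm_num) (by norm_num) (by norm_num) (by norm_num)
    (exp_neg_leJ (r := 0.037) 6 (by norm_num) (by norm_num) (by norm_num) (by norm_num))
    (exp_neg_leJ (r := 0.788) 4 (by norm_num) (by norm_num) (by norm_num) (by norm_num))
    (exp_neg_leJ (r := 0.99) 14 (by norm_num) (by norm_num) (by norm_num) (by norm_num))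
    (exp_neg_leJ (r := 0.99) 14 (by norm_num) (by norm_num) (by norm_num) (by norm_num))
    (exp_neg_leJ (r := 0.865) 5 (by norm_num) (by norm_num) (by norm_num) (by norm_num))
    (exp_neg_leJ (r := 0.745) 10 (by norm_num) (by norm_num) (by norm_num) (by norm_num))
    (exp_neg_leJ (r := 0.905) 2 (by norm_num) (by norm_num) (by norm_num) (by norm_num))
    (exp_neg_leJ (r := 0.99) 14 (by norm_num) (by norm_num) (by norm_num) (by norm_num))
    (by norm_num)) (by norm_num) hN hβ.le (by norm_num)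

theorem JB7_k2a_c3 {κ t β : ℝ} (h : DomR κ t) (hβ : 0 < β) (hk1 : 0.74 ≤ κ) (hk2 : κ ≤ 0.8)
    (ht1 : 0.94 ≤ t + κ) (ht2 : t + κ ≤ 1.4) (hR0 : β * 10 ≤ κ) (hR : β * (6.75 * (1 + κ ^ 2)) ≤ κ) :
    ‖HH β (sg κ t) - 1‖ ≤ 0.06 := by
  have hN : β * 13.837 ≤ 1 := bNC hβ h.1 hk2 (by norm_num) (by norm_num) hR (by norm_num)
  have hy1 : 0.316 ≤ sy κ t := syR_ge h 0.74 0.8 0.94 0.316 1.37163 1.37164 0.54179 0.58573 hk1 hk2 (by linarith) (by norm_num) (by norm_num)
    (expn_ge (by norm_num) (by norm_num)) (expn_le (by norm_num) (by norm_num) (by norm_num)) (by norm_num)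
    (by norm_num) (by norm_num) (by norm_num) (by norm_num) (by norm_num) (by norm_num)
  have hy2 : sy κ t ≤ 0.425 := syR_ang2 h 0.74 0.8 1.4 0.948 0.5844 0.8124 0.425 0.65378 1.52958 hk1 hk2 (by linarith) (by norm_num) (by norm_num) (by norm_num)
    (cos_le_num (by norm_num)) (sin_le_num (by norm_num) (by norm_num)) (expm_le (by norm_num) (by norm_num) (by norm_num))
    (expn_ge (by norm_num) (by norm_num)) (by norm_num) (by norm_num) (by norm_num) (by norm_num) (by norm_num)
  rcases le_total (sy κ t) 0.411 with f0 | g0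
  · have hx1 : 0.2679 ≤ sx κ t := sx_lo h 0.74 0.411 0.411 0.66298 0.2679 hk1 (by norm_num) f0 (abs_le.2 ⟨by linarith, by linarith⟩) (expm_ge (by norm_num) (by norm_num) (by norm_num) (by norm_num)) (by norm_num) (by norm_num)
    have hx2 : sx κ t ≤ 0.4903 := sx_hi h 0.8 0.316 0.316 0.72906 0.4903 hk2 hy1 (by norm_num) (by rw [abs_of_nonneg (by linarith)]; linarith) (expm_le (by norm_num) (by norm_num) (by norm_num)) (by norm_num) (by norm_num)
    exact JB7_k2a_b3_0 hβ hN hx1 hx2 (by linarith) (by linarith)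
  have hx1 : 0.2311 ≤ sx κ t := sx_lo h 0.74 0.425 0.425 0.65376 0.2311 hk1 (by norm_num) hy2 (abs_le.2 ⟨by linarith, by linarith⟩) (expm_ge (by norm_num) (by norm_num) (by norm_num) (by norm_num)) (by norm_num) (by norm_num)
  have hx2 : sx κ t ≤ 0.3353 := sx_hi h 0.8 0.411 0.411 0.66299 0.3353 hk2 g0 (by norm_num) (by rw [abs_of_nonneg (by linarith)]; linarith) (expm_le (by norm_num) (by norm_num) (by norm_num)) (by norm_num) (by norm_num)
  exact JB7_k2a_b3_1 hβ hN hx1 hx2 (by linarith) (by linarith)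

private theorem JB7_k2a_b4_0 {β x y : ℝ} (hβ : 0 < β) (hN : β * 13.653 ≤ 1) (hx1 : 0.3093 ≤ x) (hx2 : x ≤ 0.5256)
    (hy1 : -0 ≤ y) (hy2 : y ≤ 0.423) : ‖HH β (x + y * I) - 1‖ ≤ 0.06 := by
  refine le_epsJ (C := 0.7834) (N0 := 13.653) (J_boxp 0.3093 0.5256 0 0.423 0.423 0.9278 0.6747 1.517 1.3782 0.4914 3.695 13.653 0.7273 2.643 1.387 1.2179 0.4638 0.3514 1.1141 3.7599 0.4621 0.8851 0.375 1.5034 0.001779 0.008267 0.0000003101 0.0000003101 0.00182 0.00000565 0.005983 0.0000003101 0.7834
    hβ hN hx1 hx2 hy1 hy2 (by norm_num) (by norm_num) (by linarith) (by norm_num) (by norm_num) (by norm_num) (by norm_num) (by norm_num) (by norm_num) (by norm_num) (by norm_num) (by norm_num) (by norm_num) (by norm_num) (by norm_num) (by norm_num) (by norm_num) (by norm_num) (by norm_num) (by norm_num) (by norm_num) (by norm_num) (by norm_num) (by norm_num)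
    (cube_sqrt_geJ (s := 0.8703) (by norm_num) (by norm_num) (by norm_num) (by norm_num))
    (cube_sqrt_geJ (s := 0.9544) (by norm_num) (by norm_num) (by norm_num) (by norm_num))
    (by norm_num) (by norm_num) (by norm_num) (by norm_num) (by norm_num) (by norm_num) (by norm_num) (by norm_num) (by norm_num) (by norm_num) (by norm_num) (by norm_num) (by norm_num) (by norm_num) (by norm_num) (by norm_num) (by norm_num) (by norm_num)
    (exp_neg_leJ (r := 0.332) 6 (by norm_num) (by norm_num) (by norm_num) (by norm_num))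
    (exp_neg_leJ (r := 0.797) 4 (by norm_num) (by norm_num) (by norm_num) (by norm_num))
    (exp_neg_leJ (r := 0.99) 14 (by norm_num) (by norm_num) (by norm_num) (by norm_num))
    (exp_neg_leJ (r := 0.99) 14 (by norm_num) (by norm_num) (by norm_num) (by norm_num))
    (exp_neg_leJ (r := 0.309) 6 (by norm_num) (by norm_num) (by norm_num) (by norm_num))
    (exp_neg_leJ (r := 0.084) 12 (by norm_num) (by norm_num) (by norm_num) (by norm_num))
    (exp_neg_leJ (r := 0.119) 5 (by norm_num) (by norm_num) (by norm_num) (by norm_num))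
    (exp_neg_leJ (r := 0.99) 14 (by norm_num) (by norm_num) (by norm_num) (by norm_num))
    (by norm_num)) (by norm_num) hN hβ.le (by norm_num)

private theorem JB7_k2a_b4_1 {β x y : ℝ} (hβ : 0 < β) (hN : β * 13.653 ≤ 1) (hx1 : 0.268 ≤ x) (hx2 : x ≤ 0.3721)
    (hy1 : -0 ≤ y) (hy2 : y ≤ 0.44) : ‖HH β (x + y * I) - 1‖ ≤ 0.06 := by
  refine le_epsJ (C := 0.8108) (N0 := 13.653) (J_boxp 0.268 0.3721 0 0.44 0.44 0.8987 0.5763 1.4873 1.4315 0.4866 3.695 13.653 0.6413 2.321 1.332 1.277 0.4493 0.3532 1.1 3.8337 0.4403 0.8261 0.2195 1.6082 0.002168 0.008064 0.0000003101 0.0000003101 0.002452 0.00001265 0.05047 0.0000003101 0.8108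
    hβ hN hx1 hx2 hy1 hy2 (by norm_num) (by norm_num) (by linarith) (by norm_num) (by norm_num) (by norm_num) (by norm_num) (by norm_num) (by norm_num) (by norm_num) (by norm_num) (by norm_num) (by norm_num) (by norm_num) (by norm_num) (by norm_num) (by norm_num) (by norm_num) (by norm_num) (by norm_num) (by norm_num) (by norm_num) (by norm_num) (by norm_num)
    (cube_sqrt_geJ (s := 0.8866) (by norm_num) (by norm_num) (by norm_num) (by norm_num))
    (cube_sqrt_geJ (s := 0.9599) (by norm_num) (by norm_num) (by norm_num) (by norm_num))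
    (by norm_num) (by norm_num) (by norm_num) (by norm_num) (by norm_num) (by norm_num) (by norm_num) (by norm_num) (by norm_num) (by norm_num) (by norm_num) (by norm_num) (by norm_num) (by norm_num) (by norm_num) (by norm_num) (by norm_num) (by norm_num)
    (exp_neg_leJ (r := 0.134) 6 (by norm_num) (by norm_num) (by norm_num) (by norm_num))
    (exp_neg_leJ (r := 0.822) 4 (by norm_num) (by norm_num) (by norm_num) (by norm_num))
    (exp_neg_leJ (r := 0.99) 14 (by norm_num) (by norm_num) (by norm_num) (by norm_num))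
    (exp_neg_leJ (r := 0.99) 14 (by norm_num) (by norm_num) (by norm_num) (by norm_num))
    (exp_neg_leJ (r := 0.011) 6 (by norm_num) (by norm_num) (by norm_num) (by norm_num))
    (exp_neg_leJ (r := 0.278) 11 (by norm_num) (by norm_num) (by norm_num) (by norm_num))
    (exp_neg_leJ (r := 0.99) 2 (by norm_num) (by norm_num) (by norm_num) (by norm_num))
    (exp_neg_leJ (r := 0.99) 14 (by norm_num) (by norm_num) (by norm_num) (by norm_num))
    (by norm_num)) (by norm_num) hN hβ.le (by norm_num)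

theorem JB7_k2a_c4 {κ t β : ℝ} (h : DomR κ t) (hβ : 0 < β) (hk1 : 0.8 ≤ κ) (hk2 : κ ≤ 0.86)
    (ht1 : 0.94 ≤ t + κ) (ht2 : t + κ ≤ 1.4) (hR0 : β * 10 ≤ κ) (hR : β * (6.75 * (1 + κ ^ 2)) ≤ κ) :
    ‖HH β (sg κ t) - 1‖ ≤ 0.06 := by
  have hN : β * 13.653 ≤ 1 := bNC hβ h.1 hk2 (by norm_num) (by norm_num) hR (by norm_num)
  have hy1 : 0.328 ≤ sy κ t := syR_ge h 0.8 0.86 0.94 0.328 1.38818 1.38819 0.52944 0.56916 hk1 hk2 (by linarith) (by norm_num) (by norm_num)
    (expn_ge (by norm_num) (by norm_num)) (expn_le (by norm_num) (by norm_num) (by norm_num)) (by norm_num)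
    (by norm_num) (by norm_num) (by norm_num) (by norm_num) (by norm_num) (by norm_num)
  have hy2 : sy κ t ≤ 0.44 := syR_ang2 h 0.8 0.86 1.4 0.917 0.6091 0.7939 0.44 0.64404 1.5527 hk1 hk2 (by linarith) (by norm_num) (by norm_num) (by norm_num)
    (cos_le_num (by norm_num)) (sin_le_num (by norm_num) (by norm_num)) (expm_le (by norm_num) (by norm_num) (by norm_num))
    (expn_ge (by norm_num) (by norm_num)) (by norm_num) (by norm_num) (by norm_num) (by norm_num) (by norm_num)
  rcases le_total (sy κ t) 0.423 with f0 | g0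
  · have hx1 : 0.3093 ≤ sx κ t := sx_lo h 0.8 0.423 0.423 0.65507 0.3093 hk1 (by norm_num) f0 (abs_le.2 ⟨by linarith, by linarith⟩) (expm_ge (by norm_num) (by norm_num) (by norm_num) (by norm_num)) (by norm_num) (by norm_num)
    have hx2 : sx κ t ≤ 0.5256 := sx_hi h 0.86 0.328 0.328 0.72037 0.5256 hk2 hy1 (by norm_num) (by rw [abs_of_nonneg (by linarith)]; linarith) (expm_le (by norm_num) (by norm_num) (by norm_num)) (by norm_num) (by norm_num)
    exact JB7_k2a_b4_0 hβ hN hx1 hx2 (by linarith) (by linarith)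
  have hx1 : 0.268 ≤ sx κ t := sx_lo h 0.8 0.44 0.44 0.64403 0.268 hk1 (by norm_num) hy2 (abs_le.2 ⟨by linarith, by linarith⟩) (expm_ge (by norm_num) (by norm_num) (by norm_num) (by norm_num)) (by norm_num) (by norm_num)
  have hx2 : sx κ t ≤ 0.3721 := sx_hi h 0.86 0.423 0.423 0.65508 0.3721 hk2 g0 (by norm_num) (by rw [abs_of_nonneg (by linarith)]; linarith) (expm_le (by norm_num) (by norm_num) (by norm_num)) (by norm_num) (by norm_num)
  exact JB7_k2a_b4_1 hβ hN hx1 hx2 (by linarith) (by linarith)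

private theorem JB7_k2a_b5_0 {β x y : ℝ} (hβ : 0 < β) (hN : β * 13.546 ≤ 1) (hx1 : 0.3408 ≤ x) (hx2 : x ≤ 0.5624)
    (hy1 : -0 ≤ y) (hy2 : y ≤ 0.438) : ‖HH β (x + y * I) - 1‖ ≤ 0.06 := by
  refine le_epsJ (C := 0.8031) (N0 := 13.546) (J_boxp 0.3408 0.5624 0 0.438 0.438 0.95 0.7129 1.5441 1.342 0.4958 3.6805 13.546 0.7505 2.74 1.402 1.2038 0.4749 0.3561 1.1249 3.7382 0.4758 0.9272 0.3737 1.3919 0.00161 0.008056 0.0000003101 0.0000003101 0.001589 0.000003515 0.006333 0.0000003101 0.8031
    hβ hN hx1 hx2 hy1 hy2 (by norm_num) (by norm_num) (by linarith) (by norm_num) (by norm_num) (by norm_num) (by norm_num) (by norm_num) (by norm_num) (by norm_num) (by norm_num) (by norm_num) (by norm_num) (by norm_num) (by norm_num) (by norm_num) (by norm_num) (by norm_num) (by norm_num) (by norm_num) (by norm_num) (by norm_num) (by norm_num) (by norm_num)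
    (cube_sqrt_geJ (s := 0.8659) (by norm_num) (by norm_num) (by norm_num) (by norm_num))
    (cube_sqrt_geJ (s := 0.9529) (by norm_num) (by norm_num) (by norm_num) (by norm_num))
    (by norm_num) (by norm_num) (by norm_num) (by norm_num) (by norm_num) (by norm_num) (by norm_num) (by norm_num) (by norm_num) (by norm_num) (by norm_num) (by norm_num) (by norm_num) (by norm_num) (by norm_num) (by norm_num) (by norm_num) (by norm_num)
    (exp_neg_leJ (r := 0.432) 6 (by norm_num) (by norm_num) (by norm_num) (by norm_num))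
    (exp_neg_leJ (r := 0.823) 4 (by norm_num) (by norm_num) (by norm_num) (by norm_num))
    (exp_neg_leJ (r := 0.99) 14 (by norm_num) (by norm_num) (by norm_num) (by norm_num))
    (exp_neg_leJ (r := 0.99) 14 (by norm_num) (by norm_num) (by norm_num) (by norm_num))
    (exp_neg_leJ (r := 0.445) 6 (by norm_num) (by norm_num) (by norm_num) (by norm_num))
    (exp_neg_leJ (r := 0.559) 12 (by norm_num) (by norm_num) (by norm_num) (by norm_num))
    (exp_neg_leJ (r := 0.062) 5 (by norm_num) (by norm_num) (by norm_num) (by norm_num))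
    (exp_neg_leJ (r := 0.99) 14 (by norm_num) (by norm_num) (by norm_num) (by norm_num))
    (by norm_num)) (by norm_num) hN hβ.le (by norm_num)

private theorem JB7_k2a_b5_1 {β x y : ℝ} (hβ : 0 < β) (hN : β * 13.546 ≤ 1) (hx1 : 0.3036 ≤ x) (hx2 : x ≤ 0.4008)
    (hy1 : -0 ≤ y) (hy2 : y ≤ 0.454) : ‖HH β (x + y * I) - 1‖ ≤ 0.06 := by
  refine le_epsJ (C := 0.7831) (N0 := 13.546) (J_boxp 0.3036 0.4008 0 0.454 0.454 0.9238 0.6057 1.5083 1.3832 0.49 3.6805 13.546 0.6557 2.371 1.341 1.2659 0.4618 0.3609 1.1122 3.8169 0.4561 0.874 0.2306 1.5335 0.001921 0.007554 0.0000003101 0.0000003101 0.002075 0.000007231 0.04403 0.0000003101 0.7831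
    hβ hN hx1 hx2 hy1 hy2 (by norm_num) (by norm_num) (by linarith) (by norm_num) (by norm_num) (by norm_num) (by norm_num) (by norm_num) (by norm_num) (by norm_num) (by norm_num) (by norm_num) (by norm_num) (by norm_num) (by norm_num) (by norm_num) (by norm_num) (by norm_num) (by norm_num) (by norm_num) (by norm_num) (by norm_num) (by norm_num) (by norm_num)
    (cube_sqrt_geJ (s := 0.8839) (by norm_num) (by norm_num) (by norm_num) (by norm_num))
    (cube_sqrt_geJ (s := 0.959) (by norm_num) (by norm_num) (by norm_num) (by norm_num))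
    (by norm_num) (by norm_num) (by norm_num) (by norm_num) (by norm_num) (by norm_num) (by norm_num) (by norm_num) (by norm_num) (by norm_num) (by norm_num) (by norm_num) (by norm_num) (by norm_num) (by norm_num) (by norm_num) (by norm_num) (by norm_num)
    (exp_neg_leJ (r := 0.255) 6 (by norm_num) (by norm_num) (by norm_num) (by norm_num))
    (exp_neg_leJ (r := 0.888) 4 (by norm_num) (by norm_num) (by norm_num) (by norm_num))
    (exp_neg_leJ (r := 0.99) 14 (by norm_num) (by norm_num) (by norm_num) (by norm_num))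
    (exp_neg_leJ (r := 0.99) 14 (by norm_num) (by norm_num) (by norm_num) (by norm_num))
    (exp_neg_leJ (r := 0.178) 6 (by norm_num) (by norm_num) (by norm_num) (by norm_num))
    (exp_neg_leJ (r := 0.839) 11 (by norm_num) (by norm_num) (by norm_num) (by norm_num))
    (exp_neg_leJ (r := 0.123) 3 (by norm_num) (by norm_num) (by norm_num) (by norm_num))
    (exp_neg_leJ (r := 0.99) 14 (by norm_num) (by norm_num) (by norm_num) (by norm_num))
    (by norm_num)) (by norm_num) hN hβ.le (by norm_num)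

theorem JB7_k2a_c5 {κ t β : ℝ} (h : DomR κ t) (hβ : 0 < β) (hk1 : 0.86 ≤ κ) (hk2 : κ ≤ 0.92)
    (ht1 : 0.94 ≤ t + κ) (ht2 : t + κ ≤ 1.4) (hR0 : β * 10 ≤ κ) (hR : β * (6.75 * (1 + κ ^ 2)) ≤ κ) :
    ‖HH β (sg κ t) - 1‖ ≤ 0.06 := by
  have hN : β * 13.546 ≤ 1 := bNC hβ h.1 hk2 (by norm_num) (by norm_num) hR (by norm_num)
  have hy1 : 0.338 ≤ sy κ t := syR_ge h 0.86 0.92 0.94 0.338 1.40214 1.40215 0.51513 0.55108 hk1 hk2 (by linarith) (by norm_num) (by norm_num)
    (expn_ge (by norm_num) (by norm_num)) (expn_le (by norm_num) (by norm_num) (by norm_num)) (by norm_num)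
    (by norm_num) (by norm_num) (by norm_num) (by norm_num) (by norm_num) (by norm_num)
  have hy2 : sy κ t ≤ 0.454 := syR_ang2 h 0.86 0.92 1.4 0.889 0.6309 0.7766 0.454 0.63509 1.57459 hk1 hk2 (by linarith) (by norm_num) (by norm_num) (by norm_num)
    (cos_le_num (by norm_num)) (sin_le_num (by norm_num) (by norm_num)) (expm_le (by norm_num) (by norm_num) (by norm_num))
    (expn_ge (by norm_num) (by norm_num)) (by norm_num) (by norm_num) (by norm_num) (by norm_num) (by norm_num)
  rcases le_total (sy κ t) 0.438 with f0 | g0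
  · have hx1 : 0.3408 ≤ sx κ t := sx_lo h 0.86 0.438 0.438 0.64532 0.3408 hk1 (by norm_num) f0 (abs_le.2 ⟨by linarith, by linarith⟩) (expm_ge (by norm_num) (by norm_num) (by norm_num) (by norm_num)) (by norm_num) (by norm_num)
    have hx2 : sx κ t ≤ 0.5624 := sx_hi h 0.92 0.338 0.338 0.7132 0.5624 hk2 hy1 (by norm_num) (by rw [abs_of_nonneg (by linarith)]; linarith) (expm_le (by norm_num) (by norm_num) (by norm_num)) (by norm_num) (by norm_num)
    exact JB7_k2a_b5_0 hβ hN hx1 hx2 (by linarith) (by linarith)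
  have hx1 : 0.3036 ≤ sx κ t := sx_lo h 0.86 0.454 0.454 0.63508 0.3036 hk1 (by norm_num) hy2 (abs_le.2 ⟨by linarith, by linarith⟩) (expm_ge (by norm_num) (by norm_num) (by norm_num) (by norm_num)) (by norm_num) (by norm_num)
  have hx2 : sx κ t ≤ 0.4008 := sx_hi h 0.92 0.438 0.438 0.64533 0.4008 hk2 g0 (by norm_num) (by rw [abs_of_nonneg (by linarith)]; linarith) (expm_le (by norm_num) (by norm_num) (by norm_num)) (by norm_num) (by norm_num)
  exact JB7_k2a_b5_1 hβ hN hx1 hx2 (by linarith) (by linarith)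

private theorem JB7_k2a_b6_0 {β x y : ℝ} (hβ : 0 < β) (hN : β * 13.5 ≤ 1) (hx1 : 0.3825 ≤ x) (hx2 : x ≤ 0.6077)
    (hy1 : -0 ≤ y) (hy2 : y ≤ 0.447) : ‖HH β (x + y * I) - 1‖ ≤ 0.06 := by
  refine le_epsJ (C := 0.7906) (N0 := 13.5) (J_boxp 0.3825 0.6077 0 0.447 0.447 0.9793 0.7544 1.5695 1.2928 0.4998 3.6743 13.5 0.7704 2.827 1.415 1.1863 0.4896 0.3639 1.1392 3.713 0.4952 0.984 0.4185 1.3201 0.001349 0.007377 0.0000003101 0.0000003101 0.001251 0.000001704 0.003524 0.0000003101 0.7906
    hβ hN hx1 hx2 hy1 hy2 (by norm_num) (by norm_num) (by linarith) (by norm_num) (by norm_num) (by norm_num) (by norm_num) (by norm_num) (by norm_num) (by norm_num) (by norm_num) (by norm_num) (by norm_num) (by norm_num) (by norm_num) (by norm_num) (by norm_num) (by norm_num) (by norm_num) (by norm_num) (by norm_num) (by norm_num) (by norm_num) (by norm_num)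
    (cube_sqrt_geJ (s := 0.862) (by norm_num) (by norm_num) (by norm_num) (by norm_num))
    (cube_sqrt_geJ (s := 0.9516) (by norm_num) (by norm_num) (by norm_num) (by norm_num))
    (by norm_num) (by norm_num) (by norm_num) (by norm_num) (by norm_num) (by norm_num) (by norm_num) (by norm_num) (by norm_num) (by norm_num) (by norm_num) (by norm_num) (by norm_num) (by norm_num) (by norm_num) (by norm_num) (by norm_num) (by norm_num)
    (exp_neg_leJ (r := 0.609) 6 (by norm_num) (by norm_num) (by norm_num) (by norm_num))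
    (exp_neg_leJ (r := 0.912) 4 (by norm_num) (by norm_num) (by norm_num) (by norm_num))
    (exp_neg_leJ (r := 0.99) 14 (by norm_num) (by norm_num) (by norm_num) (by norm_num))
    (exp_neg_leJ (r := 0.99) 14 (by norm_num) (by norm_num) (by norm_num) (by norm_num))
    (exp_neg_leJ (r := 0.685) 6 (by norm_num) (by norm_num) (by norm_num) (by norm_num))
    (exp_neg_leJ (r := 0.283) 13 (by norm_num) (by norm_num) (by norm_num) (by norm_num))
    (exp_neg_leJ (r := 0.649) 5 (by norm_num) (by norm_num) (by norm_num) (by norm_num))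
    (exp_neg_leJ (r := 0.99) 14 (by norm_num) (by norm_num) (by norm_num) (by norm_num))
    (by norm_num)) (by norm_num) hN hβ.le (by norm_num)

private theorem JB7_k2a_b6_1 {β x y : ℝ} (hβ : 0 < β) (hN : β * 13.5 ≤ 1) (hx1 : 0.35 ≤ x) (hx2 : x ≤ 0.4485)
    (hy1 : -0 ≤ y) (hy2 : y ≤ 0.462) : ‖HH β (x + y * I) - 1‖ ≤ 0.06 := by
  refine le_epsJ (C := 0.687) (N0 := 13.5) (J_boxp 0.35 0.4485 0 0.462 0.462 0.9565 0.6439 1.5293 1.322 0.4934 3.6743 13.5 0.6732 2.434 1.352 1.2476 0.4782 0.3709 1.128 3.7919 0.4779 0.9374 0.2891 1.4847 0.001573 0.006692 0.0000003101 0.0000003101 0.00158 0.000003197 0.02025 0.0000003101 0.687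
    hβ hN hx1 hx2 hy1 hy2 (by norm_num) (by norm_num) (by linarith) (by norm_num) (by norm_num) (by norm_num) (by norm_num) (by norm_num) (by norm_num) (by norm_num) (by norm_num) (by norm_num) (by norm_num) (by norm_num) (by norm_num) (by norm_num) (by norm_num) (by norm_num) (by norm_num) (by norm_num) (by norm_num) (by norm_num) (by norm_num) (by norm_num)
    (cube_sqrt_geJ (s := 0.8806) (by norm_num) (by norm_num) (by norm_num) (by norm_num))
    (cube_sqrt_geJ (s := 0.9579) (by norm_num) (by norm_num) (by norm_num) (by norm_num))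
    (by norm_num) (by norm_num) (by norm_num) (by norm_num) (by norm_num) (by norm_num) (by norm_num) (by norm_num) (by norm_num) (by norm_num) (by norm_num) (by norm_num) (by norm_num) (by norm_num) (by norm_num) (by norm_num) (by norm_num) (by norm_num)
    (exp_neg_leJ (r := 0.455) 6 (by norm_num) (by norm_num) (by norm_num) (by norm_num))
    (exp_neg_leJ (r := 0.007) 5 (by norm_num) (by norm_num) (by norm_num) (by norm_num))
    (exp_neg_leJ (r := 0.99) 14 (by norm_num) (by norm_num) (by norm_num) (by norm_num))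
    (exp_neg_leJ (r := 0.99) 14 (by norm_num) (by norm_num) (by norm_num) (by norm_num))
    (exp_neg_leJ (r := 0.451) 6 (by norm_num) (by norm_num) (by norm_num) (by norm_num))
    (exp_neg_leJ (r := 0.654) 12 (by norm_num) (by norm_num) (by norm_num) (by norm_num))
    (exp_neg_leJ (r := 0.902) 3 (by norm_num) (by norm_num) (by norm_num) (by norm_num))
    (exp_neg_leJ (r := 0.99) 14 (by norm_num) (by norm_num) (by norm_num) (by norm_num))
    (by norm_num)) (by norm_num) hN hβ.le (by norm_num)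

private theorem JB7_k2a_b6_2 {β x y : ℝ} (hβ : 0 < β) (hN : β * 13.5 ≤ 1) (hx1 : 0.3336 ≤ x) (hx2 : x ≤ 0.4191)
    (hy1 : -0 ≤ y) (hy2 : y ≤ 0.469) : ‖HH β (x + y * I) - 1‖ ≤ 0.06 := by
  refine le_epsJ (C := 0.7859) (N0 := 13.5) (J_boxp 0.3336 0.4191 0 0.469 0.469 0.9449 0.629 1.5277 1.3457 0.4931 3.6743 13.5 0.6657 2.407 1.347 1.2589 0.4724 0.3676 1.1224 3.805 0.4692 0.914 0.2263 1.4595 0.001701 0.007021 0.0000003101 0.0000003101 0.001775 0.000004383 0.04713 0.0000003101 0.7859
    hβ hN hx1 hx2 hy1 hy2 (by norm_num) (by norm_num) (by linarith) (by norm_num) (by norm_num) (by norm_num) (by norm_num) (by norm_num) (by norm_num) (by norm_num) (by norm_num) (by norm_num) (by norm_num) (by norm_num) (by norm_num) (by norm_num) (by norm_num) (by norm_num) (by norm_num) (by norm_num) (by norm_num) (by norm_num) (by norm_num) (by norm_num)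
    (cube_sqrt_geJ (s := 0.882) (by norm_num) (by norm_num) (by norm_num) (by norm_num))
    (cube_sqrt_geJ (s := 0.9583) (by norm_num) (by norm_num) (by norm_num) (by norm_num))
    (by norm_num) (by norm_num) (by norm_num) (by norm_num) (by norm_num) (by norm_num) (by norm_num) (by norm_num) (by norm_num) (by norm_num) (by norm_num) (by norm_num) (by norm_num) (by norm_num) (by norm_num) (by norm_num) (by norm_num) (by norm_num)
    (exp_neg_leJ (r := 0.377) 6 (by norm_num) (by norm_num) (by norm_num) (by norm_num))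
    (exp_neg_leJ (r := 0.962) 4 (by norm_num) (by norm_num) (by norm_num) (by norm_num))
    (exp_neg_leJ (r := 0.99) 14 (by norm_num) (by norm_num) (by norm_num) (by norm_num))
    (exp_neg_leJ (r := 0.99) 14 (by norm_num) (by norm_num) (by norm_num) (by norm_num))
    (exp_neg_leJ (r := 0.334) 6 (by norm_num) (by norm_num) (by norm_num) (by norm_num))
    (exp_neg_leJ (r := 0.338) 12 (by norm_num) (by norm_num) (by norm_num) (by norm_num))
    (exp_neg_leJ (r := 0.055) 3 (by norm_num) (by norm_num) (by norm_num) (by norm_num))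
    (exp_neg_leJ (r := 0.99) 14 (by norm_num) (by norm_num) (by norm_num) (by norm_num))
    (by norm_num)) (by norm_num) hN hβ.le (by norm_num)

theorem JB7_k2a_c6 {κ t β : ℝ} (h : DomR κ t) (hβ : 0 < β) (hk1 : 0.92 ≤ κ) (hk2 : κ ≤ 0.99)
    (ht1 : 0.94 ≤ t + κ) (ht2 : t + κ ≤ 1.4) (hR0 : β * 10 ≤ κ) (hR : β * (6.75 * (1 + κ ^ 2)) ≤ κ) :
    ‖HH β (sg κ t) - 1‖ ≤ 0.06 := by
  have hN : β * 13.5 ≤ 1 := bNC hβ h.1 hk2 (by norm_num) (by norm_num) hR (by norm_num)
  have hy1 : 0.347 ≤ sy κ t := syR_ge h 0.92 0.99 0.94 0.347 1.41481 1.41482 0.49589 0.53364 hk1 hk2 (by linarith) (by norm_num) (by norm_num)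
    (expn_ge (by norm_num) (by norm_num)) (expn_le (by norm_num) (by norm_num) (by norm_num)) (by norm_num)
    (by norm_num) (by norm_num) (by norm_num) (by norm_num) (by norm_num) (by norm_num)
  have hy2 : sy κ t ≤ 0.469 := syR_le h 0.92 0.99 1.4 0.469 1.59839 0.7428 0.75721 0.81484 hk1 hk2 (by linarith) (by norm_num) (by norm_num)
    (expn_ge (by norm_num) (by norm_num)) (by norm_num) (by norm_num) (Or.inr ((mul_le_mul_of_nonneg_left (expn_le (E := 1.5984) (by norm_num) (by norm_num) (by norm_num)) (by norm_num)).trans (by norm_num))) (by norm_num) (by norm_num) (by norm_num)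
  rcases le_total (sy κ t) 0.447 with f0 | g0
  · have hx1 : 0.3825 ≤ sx κ t := sx_lo h 0.92 0.447 0.447 0.63954 0.3825 hk1 (by norm_num) f0 (abs_le.2 ⟨by linarith, by linarith⟩) (expm_ge (by norm_num) (by norm_num) (by norm_num) (by norm_num)) (by norm_num) (by norm_num)
    have hx2 : sx κ t ≤ 0.6077 := sx_hi h 0.99 0.347 0.347 0.70681 0.6077 hk2 hy1 (by norm_num) (by rw [abs_of_nonneg (by linarith)]; linarith) (expm_le (by norm_num) (by norm_num) (by norm_num)) (by norm_num) (by norm_num)
    exact JB7_k2a_b6_0 hβ hN hx1 hx2 (by linarith) (by linarith)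
  rcases le_total (sy κ t) 0.462 with f1 | g1
  · have hx1 : 0.35 ≤ sx κ t := sx_lo h 0.92 0.462 0.462 0.63002 0.35 hk1 (by norm_num) f1 (abs_le.2 ⟨by linarith, by linarith⟩) (expm_ge (by norm_num) (by norm_num) (by norm_num) (by norm_num)) (by norm_num) (by norm_num)
    have hx2 : sx κ t ≤ 0.4485 := sx_hi h 0.99 0.447 0.447 0.63955 0.4485 hk2 g0 (by norm_num) (by rw [abs_of_nonneg (by linarith)]; linarith) (expm_le (by norm_num) (by norm_num) (by norm_num)) (by norm_num) (by norm_num)
    exact JB7_k2a_b6_1 hβ hN hx1 hx2 (by linarith) (by linarith)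
  have hx1 : 0.3336 ≤ sx κ t := sx_lo h 0.92 0.469 0.469 0.62562 0.3336 hk1 (by norm_num) hy2 (abs_le.2 ⟨by linarith, by linarith⟩) (expm_ge (by norm_num) (by norm_num) (by norm_num) (by norm_num)) (by norm_num) (by norm_num)
  have hx2 : sx κ t ≤ 0.4191 := sx_hi h 0.99 0.462 0.462 0.63003 0.4191 hk2 g1 (by norm_num) (by rw [abs_of_nonneg (by linarith)]; linarith) (expm_le (by norm_num) (by norm_num) (by norm_num)) (by norm_num) (by norm_num)
  exact JB7_k2a_b6_2 hβ hN hx1 hx2 (by linarith) (by linarith)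

private theorem JB7_k2a_b7_0 {β x y : ℝ} (hβ : 0 < β) (hN : β * 13.499 ≤ 1) (hx1 : 0.4128 ≤ x) (hx2 : x ≤ 0.6033)
    (hy1 : -0 ≤ y) (hy2 : y ≤ 0.465) : ‖HH β (x + y * I) - 1‖ ≤ 0.06 := by
  refine le_epsJ (C := 0.7414) (N0 := 13.499) (J_boxp 0.4128 0.6033 0 0.465 0.465 1.0007 0.7618 1.5844 1.2575 0.5022 3.6741 13.499 0.7613 2.786 1.409 1.188 0.5003 0.3733 1.1495 3.7124 0.5081 1.0241 0.4019 1.2757 0.001169 0.006481 0.0000003101 0.0000003101 0.001054 0.0000009932 0.004406 0.0000003101 0.7414
    hβ hN hx1 hx2 hy1 hy2 (by norm_num) (by norm_num) (by linarith) (by norm_num) (by norm_num) (by norm_num) (by norm_num) (by norm_num) (by norm_num) (by norm_num) (by norm_num) (by norm_num) (by norm_num) (by norm_num) (by norm_num) (by norm_num) (by norm_num) (by norm_num) (by norm_num) (by norm_num) (by norm_num) (by norm_num) (by norm_num) (by norm_num)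
    (cube_sqrt_geJ (s := 0.8638) (by norm_num) (by norm_num) (by norm_num) (by norm_num))
    (cube_sqrt_geJ (s := 0.9522) (by norm_num) (by norm_num) (by norm_num) (by norm_num))
    (by norm_num) (by norm_num) (by norm_num) (by norm_num) (by norm_num) (by norm_num) (by norm_num) (by norm_num) (by norm_num) (by norm_num) (by norm_num) (by norm_num) (by norm_num) (by norm_num) (by norm_num) (by norm_num) (by norm_num) (by norm_num)
    (exp_neg_leJ (r := 0.753) 6 (by norm_num) (by norm_num) (by norm_num) (by norm_num))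
    (exp_neg_leJ (r := 0.039) 5 (by norm_num) (by norm_num) (by norm_num) (by norm_num))
    (exp_neg_leJ (r := 0.99) 14 (by norm_num) (by norm_num) (by norm_num) (by norm_num))
    (exp_neg_leJ (r := 0.99) 14 (by norm_num) (by norm_num) (by norm_num) (by norm_num))
    (exp_neg_leJ (r := 0.858) 6 (by norm_num) (by norm_num) (by norm_num) (by norm_num))
    (exp_neg_leJ (r := 0.824) 13 (by norm_num) (by norm_num) (by norm_num) (by norm_num))
    (exp_neg_leJ (r := 0.425) 5 (by norm_num) (by norm_num) (by norm_num) (by norm_num))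
    (exp_neg_leJ (r := 0.99) 14 (by norm_num) (by norm_num) (by norm_num) (by norm_num))
    (by norm_num)) (by norm_num) hN hβ.le (by norm_num)

theorem JB7_k2a_c7 {κ t β : ℝ} (h : DomR κ t) (hβ : 0 < β) (hk1 : 0.99 ≤ κ) (hk2 : κ ≤ 1)
    (ht1 : 0.94 ≤ t + κ) (ht2 : t + κ ≤ 1.4) (hR0 : β * 10 ≤ κ) (hR : β * (6.75 * (1 + κ ^ 2)) ≤ κ) :
    ‖HH β (sg κ t) - 1‖ ≤ 0.06 := by
  have hN : β * 13.499 ≤ 1 := bNC hβ h.1 hk2 (by norm_num) (by norm_num) hR (by norm_num)
  have hy1 : 0.356 ≤ sy κ t := syR_ge h 0.99 1 0.94 0.356 1.4276 1.42761 0.50822 0.51337 hk1 hk2 (by linarith) (by norm_num) (by norm_num)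
    (expn_ge (by norm_num) (by norm_num)) (expn_le (by norm_num) (by norm_num) (by norm_num)) (by norm_num)
    (by norm_num) (by norm_num) (by norm_num) (by norm_num) (by norm_num) (by norm_num)
  have hy2 : sy κ t ≤ 0.465 := syR_ang2 h 0.99 1 1.4 0.833 0.6732 0.7401 0.465 0.62814 1.59201 hk1 hk2 (by linarith) (by norm_num) (by norm_num) (by norm_num)
    (cos_le_num (by norm_num)) (sin_le_num (by norm_num) (by norm_num)) (expm_le (by norm_num) (by norm_num) (by norm_num))
    (expn_ge (by norm_num) (by norm_num)) (by norm_num) (by norm_num) (by norm_num) (by norm_num) (by norm_num)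
  have hx1 : 0.4128 ≤ sx κ t := sx_lo h 0.99 0.465 0.465 0.62813 0.4128 hk1 (by norm_num) hy2 (abs_le.2 ⟨by linarith, by linarith⟩) (expm_ge (by norm_num) (by norm_num) (by norm_num) (by norm_num)) (by norm_num) (by norm_num)
  have hx2 : sx κ t ≤ 0.6033 := sx_hi h 1 0.356 0.356 0.70048 0.6033 hk2 hy1 (by norm_num) (by rw [abs_of_nonneg (by linarith)]; linarith) (expm_le (by norm_num) (by norm_num) (by norm_num)) (by norm_num) (by norm_num)
  exact JB7_k2a_b7_0 hβ hN hx1 hx2 (by linarith) (by linarith)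

private theorem JB7_k2a_b8_0 {β x y : ℝ} (hβ : 0 < β) (hN : β * 13.499 ≤ 1) (hx1 : 0.4382 ≤ x) (hx2 : x ≤ 0.682)
    (hy1 : -0 ≤ y) (hy2 : y ≤ 0.457) : ‖HH β (x + y * I) - 1‖ ≤ 0.06 := by
  refine le_epsJ (C := 0.8026) (N0 := 13.499) (J_boxp 0.4382 0.682 0 0.457 0.457 1.0186 0.821 1.6088 1.2339 0.5061 3.6741 13.499 0.8061 2.991 1.439 1.1578 0.5092 0.3724 1.1582 3.6722 0.5212 1.0601 0.487 1.2033 0.001038 0.006559 0.0000003101 0.0000003101 0.0008806 0.0000006099 0.001397 0.0000003101 0.8026
    hβ hN hx1 hx2 hy1 hy2 (by norm_num) (by norm_num) (by linarith) (by norm_num) (by norm_num) (by norm_num) (by norm_num) (by norm_num) (by norm_num) (by norm_num) (by norm_num) (by norm_num) (by norm_num) (by norm_num) (by norm_num) (by norm_num) (by norm_num) (by norm_num) (by norm_num) (by norm_num) (by norm_num) (by norm_num) (by norm_num) (by norm_num)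
    (cube_sqrt_geJ (s := 0.8551) (by norm_num) (by norm_num) (by norm_num) (by norm_num))
    (cube_sqrt_geJ (s := 0.9493) (by norm_num) (by norm_num) (by norm_num) (by norm_num))
    (by norm_num) (by norm_num) (by norm_num) (by norm_num) (by norm_num) (by norm_num) (by norm_num) (by norm_num) (by norm_num) (by norm_num) (by norm_num) (by norm_num) (by norm_num) (by norm_num) (by norm_num) (by norm_num) (by norm_num) (by norm_num)
    (exp_neg_leJ (r := 0.873) 6 (by norm_num) (by norm_num) (by norm_num) (by norm_num))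
    (exp_neg_leJ (r := 0.027) 5 (by norm_num) (by norm_num) (by norm_num) (by norm_num))
    (exp_neg_leJ (r := 0.99) 14 (by norm_num) (by norm_num) (by norm_num) (by norm_num))
    (exp_neg_leJ (r := 0.99) 14 (by norm_num) (by norm_num) (by norm_num) (by norm_num))
    (exp_neg_leJ (r := 0.035) 7 (by norm_num) (by norm_num) (by norm_num) (by norm_num))
    (exp_neg_leJ (r := 0.31) 14 (by norm_num) (by norm_num) (by norm_num) (by norm_num))
    (exp_neg_leJ (r := 0.574) 6 (by norm_num) (by norm_num) (by norm_num) (by norm_num))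
    (exp_neg_leJ (r := 0.99) 14 (by norm_num) (by norm_num) (by norm_num) (by norm_num))
    (by norm_num)) (by norm_num) hN hβ.le (by norm_num)

private theorem JB7_k2a_b8_1 {β x y : ℝ} (hβ : 0 < β) (hN : β * 13.499 ≤ 1) (hx1 : 0.386 ≤ x) (hx2 : x ≤ 0.5257)
    (hy1 : -0 ≤ y) (hy2 : y ≤ 0.482) : ‖HH β (x + y * I) - 1‖ ≤ 0.06 := by
  refine le_epsJ (C := 0.7721) (N0 := 13.499) (J_boxp 0.386 0.5257 0 0.482 0.482 0.9818 0.7133 1.5725 1.2891 0.5003 3.6741 13.499 0.7266 2.64 1.386 1.2179 0.4908 0.372 1.1404 3.7494 0.4933 0.9852 0.2754 1.2739 0.001328 0.006598 0.0000003101 0.0000003101 0.001284 0.000001677 0.02433 0.0000003101 0.7721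
    hβ hN hx1 hx2 hy1 hy2 (by norm_num) (by norm_num) (by linarith) (by norm_num) (by norm_num) (by norm_num) (by norm_num) (by norm_num) (by norm_num) (by norm_num) (by norm_num) (by norm_num) (by norm_num) (by norm_num) (by norm_num) (by norm_num) (by norm_num) (by norm_num) (by norm_num) (by norm_num) (by norm_num) (by norm_num) (by norm_num) (by norm_num)
    (cube_sqrt_geJ (s := 0.8705) (by norm_num) (by norm_num) (by norm_num) (by norm_num))
    (cube_sqrt_geJ (s := 0.9544) (by norm_num) (by norm_num) (by norm_num) (by norm_num))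
    (by norm_num) (by norm_num) (by norm_num) (by norm_num) (by norm_num) (by norm_num) (by norm_num) (by norm_num) (by norm_num) (by norm_num) (by norm_num) (by norm_num) (by norm_num) (by norm_num) (by norm_num) (by norm_num) (by norm_num) (by norm_num)
    (exp_neg_leJ (r := 0.625) 6 (by norm_num) (by norm_num) (by norm_num) (by norm_num))
    (exp_neg_leJ (r := 0.021) 5 (by norm_num) (by norm_num) (by norm_num) (by norm_num))
    (exp_neg_leJ (r := 0.99) 14 (by norm_num) (by norm_num) (by norm_num) (by norm_num))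
    (exp_neg_leJ (r := 0.99) 14 (by norm_num) (by norm_num) (by norm_num) (by norm_num))
    (exp_neg_leJ (r := 0.659) 6 (by norm_num) (by norm_num) (by norm_num) (by norm_num))
    (exp_neg_leJ (r := 0.299) 13 (by norm_num) (by norm_num) (by norm_num) (by norm_num))
    (exp_neg_leJ (r := 0.717) 3 (by norm_num) (by norm_num) (by norm_num) (by norm_num))
    (exp_neg_leJ (r := 0.99) 14 (by norm_num) (by norm_num) (by norm_num) (by norm_num))
    (by norm_num)) (by norm_num) hN hβ.le (by norm_num)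

private theorem JB7_k2a_b8_2 {β x y : ℝ} (hβ : 0 < β) (hN : β * 13.499 ≤ 1) (hx1 : 0.3769 ≤ x) (hx2 : x ≤ 0.4787)
    (hy1 : -0 ≤ y) (hy2 : y ≤ 0.486) : ‖HH β (x + y * I) - 1‖ ≤ 0.06 := by
  refine le_epsJ (C := 0.7827) (N0 := 13.499) (J_boxp 0.3769 0.4787 0 0.486 0.486 0.9754 0.6822 1.5613 1.2971 0.4985 3.6741 13.499 0.6995 2.533 1.369 1.236 0.4876 0.3739 1.1372 3.7723 0.4885 0.9722 0.24 1.3213 0.001386 0.006429 0.0000003101 0.0000003101 0.00137 0.000001999 0.03921 0.0000003101 0.7827
    hβ hN hx1 hx2 hy1 hy2 (by norm_num) (by norm_num) (by linarith) (by norm_num) (by norm_num) (by norm_num) (by norm_num) (by norm_num) (by norm_num) (by norm_num) (by norm_num) (by norm_num) (by norm_num) (by norm_num) (by norm_num) (by norm_num) (by norm_num) (by norm_num) (by norm_num) (by norm_num) (by norm_num) (by norm_num) (by norm_num) (by norm_num)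
    (cube_sqrt_geJ (s := 0.8756) (by norm_num) (by norm_num) (by norm_num) (by norm_num))
    (cube_sqrt_geJ (s := 0.9562) (by norm_num) (by norm_num) (by norm_num) (by norm_num))
    (by norm_num) (by norm_num) (by norm_num) (by norm_num) (by norm_num) (by norm_num) (by norm_num) (by norm_num) (by norm_num) (by norm_num) (by norm_num) (by norm_num) (by norm_num) (by norm_num) (by norm_num) (by norm_num) (by norm_num) (by norm_num)
    (exp_neg_leJ (r := 0.582) 6 (by norm_num) (by norm_num) (by norm_num) (by norm_num))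
    (exp_neg_leJ (r := 0.047) 5 (by norm_num) (by norm_num) (by norm_num) (by norm_num))
    (exp_neg_leJ (r := 0.99) 14 (by norm_num) (by norm_num) (by norm_num) (by norm_num))
    (exp_neg_leJ (r := 0.99) 14 (by norm_num) (by norm_num) (by norm_num) (by norm_num))
    (exp_neg_leJ (r := 0.594) 6 (by norm_num) (by norm_num) (by norm_num) (by norm_num))
    (exp_neg_leJ (r := 0.123) 13 (by norm_num) (by norm_num) (by norm_num) (by norm_num))
    (exp_neg_leJ (r := 0.239) 3 (by norm_num) (by norm_num) (by norm_num) (by norm_num))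
    (exp_neg_leJ (r := 0.99) 14 (by norm_num) (by norm_num) (by norm_num) (by norm_num))
    (by norm_num)) (by norm_num) hN hβ.le (by norm_num)

theorem JB7_k2a_c8 {κ t β : ℝ} (h : DomR κ t) (hβ : 0 < β) (hk1 : 1 ≤ κ) (hk2 : κ ≤ 1.1)
    (ht1 : 0.94 ≤ t + κ) (ht2 : t + κ ≤ 1.4) (hR0 : β * 10 ≤ κ) (hR : β * (6.75 * (1 + κ ^ 2)) ≤ κ) :
    ‖HH β (sg κ t) - 1‖ ≤ 0.06 := by
  have hN : β * 13.499 ≤ 1 := bNC' hβ hk1 (by norm_num) (by norm_num) hR (by norm_num)
  have hy1 : 0.357 ≤ sy κ t := syR_ge h 1 1.1 0.94 0.357 1.42903 1.42904 0.46378 0.51017 hk1 hk2 (by linarith) (by norm_num) (by norm_num)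
    (expn_ge (by norm_num) (by norm_num)) (expn_le (by norm_num) (by norm_num) (by norm_num)) (by norm_num)
    (by norm_num) (by norm_num) (by norm_num) (by norm_num) (by norm_num) (by norm_num)
  have hy2 : sy κ t ≤ 0.486 := syR_le h 1 1.1 1.4 0.486 1.62579 0.7063 0.7183 0.79015 hk1 hk2 (by linarith) (by norm_num) (by norm_num)
    (expn_ge (by norm_num) (by norm_num)) (by norm_num) (by norm_num) (Or.inr ((mul_le_mul_of_nonneg_left (expn_le (E := 1.62581) (by norm_num) (by norm_num) (by norm_num)) (by norm_num)).trans (by norm_num))) (by norm_num) (by norm_num) (by norm_num)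
  rcases le_total (sy κ t) 0.457 with f0 | g0
  · have hx1 : 0.4382 ≤ sx κ t := sx_lo h 1 0.457 0.457 0.63318 0.4382 hk1 (by norm_num) f0 (abs_le.2 ⟨by linarith, by linarith⟩) (expm_ge (by norm_num) (by norm_num) (by norm_num) (by norm_num)) (by norm_num) (by norm_num)
    have hx2 : sx κ t ≤ 0.682 := sx_hi h 1.1 0.357 0.357 0.69978 0.682 hk2 hy1 (by norm_num) (by rw [abs_of_nonneg (by linarith)]; linarith) (expm_le (by norm_num) (by norm_num) (by norm_num)) (by norm_num) (by norm_num)
    exact JB7_k2a_b8_0 hβ hN hx1 hx2 (by linarith) (by linarith)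
  rcases le_total (sy κ t) 0.482 with f1 | g1
  · have hx1 : 0.386 ≤ sx κ t := sx_lo h 1 0.482 0.482 0.61754 0.386 hk1 (by norm_num) f1 (abs_le.2 ⟨by linarith, by linarith⟩) (expm_ge (by norm_num) (by norm_num) (by norm_num) (by norm_num)) (by norm_num) (by norm_num)
    have hx2 : sx κ t ≤ 0.5257 := sx_hi h 1.1 0.457 0.457 0.63319 0.5257 hk2 g0 (by norm_num) (by rw [abs_of_nonneg (by linarith)]; linarith) (expm_le (by norm_num) (by norm_num) (by norm_num)) (by norm_num) (by norm_num)
    exact JB7_k2a_b8_1 hβ hN hx1 hx2 (by linarith) (by linarith)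
  have hx1 : 0.3769 ≤ sx κ t := sx_lo h 1 0.486 0.486 0.61508 0.3769 hk1 (by norm_num) hy2 (abs_le.2 ⟨by linarith, by linarith⟩) (expm_ge (by norm_num) (by norm_num) (by norm_num) (by norm_num)) (by norm_num) (by norm_num)
  have hx2 : sx κ t ≤ 0.4787 := sx_hi h 1.1 0.482 0.482 0.61755 0.4787 hk2 g1 (by norm_num) (by rw [abs_of_nonneg (by linarith)]; linarith) (expm_le (by norm_num) (by norm_num) (by norm_num)) (by norm_num) (by norm_num)
  exact JB7_k2a_b8_2 hβ hN hx1 hx2 (by linarith) (by linarith)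
end Sok
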