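import Pool.Agent.Lib.MP_816dec_an.JBG2

/-!
MP_816dec_an (A3, row R1): tables b = 7, real points.
-/

set_option autoImplicit false
set_option maxHeartbeats 4000000

open Complex Set

namespace Sok

private theorem JB7_k2a_b9_0 {β x y : ℝ} (hβ : 0 < β) (hN : β * 13.561 ≤ 1) (hx1 : 0.5256 ≤ x) (hx2 : x ≤ 0.7845)
    (hy1 : -0 ≤ y) (hy2 : y ≤ 0.457) : ‖HH β (x + y * I) - 1‖ ≤ 0.06 := by
  refine le_epsJ (C := 0.7862) (N0 := 13.561) (J_boxp 0.5256 0.7845 0 0.457 0.457 1.0801 0.908 1.6548 1.146 0.5132 3.6826 13.561 0.8407 3.162 1.463 1.1183 0.54 0.3887 1.1882 3.6171 0.5637 1.1811 0.6618 1.1416 0.0006609 0.005139 0.0000003101 0.0000003101 0.0004792 0.0000003101 0.0001271 0.0000003101 0.7862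
    hβ hN hx1 hx2 hy1 hy2 (by norm_num) (by norm_num) (by linarith) (by norm_num) (by norm_num) (by norm_num) (by norm_num) (by norm_num) (by norm_num) (by norm_num) (by norm_num) (by norm_num) (by norm_num) (by norm_num) (by norm_num) (by norm_num) (by norm_num) (by norm_num) (by norm_num) (by norm_num) (by norm_num) (by norm_num) (by norm_num) (by norm_num)
    (cube_sqrt_geJ (s := 0.8483) (by norm_num) (by norm_num) (by norm_num) (by norm_num))
    (cube_sqrt_geJ (s := 0.9471) (by norm_num) (by norm_num) (by norm_num) (by norm_num))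
    (by norm_num) (by norm_num) (by norm_num) (by norm_num) (by norm_num) (by norm_num) (by norm_num) (by norm_num) (by norm_num) (by norm_num) (by norm_num) (by norm_num) (by norm_num) (by norm_num) (by norm_num) (by norm_num) (by norm_num) (by norm_num)
    (exp_neg_leJ (r := 0.322) 7 (by norm_num) (by norm_num) (by norm_num) (by norm_num))
    (exp_neg_leJ (r := 0.271) 5 (by norm_num) (by norm_num) (by norm_num) (by norm_num))
    (exp_neg_leJ (r := 0.99) 14 (by norm_num) (by norm_num) (by norm_num) (by norm_num))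
    (exp_neg_leJ (r := 0.99) 14 (by norm_num) (by norm_num) (by norm_num) (by norm_num))
    (exp_neg_leJ (r := 0.644) 7 (by norm_num) (by norm_num) (by norm_num) (by norm_num))
    (exp_neg_leJ (r := 0.99) 14 (by norm_num) (by norm_num) (by norm_num) (by norm_num))
    (exp_neg_leJ (r := 0.974) 8 (by norm_num) (by norm_num) (by norm_num) (by norm_num))
    (exp_neg_leJ (r := 0.99) 14 (by norm_num) (by norm_num) (by norm_num) (by norm_num))
    (by norm_num)) (by norm_num) hN hβ.le (by norm_num)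

private theorem JB7_k2a_b9_1 {β x y : ℝ} (hβ : 0 < β) (hN : β * 13.561 ≤ 1) (hx1 : 0.4481 ≤ x) (hx2 : x ≤ 0.6463)
    (hy1 : -0 ≤ y) (hy2 : y ≤ 0.497) : ‖HH β (x + y * I) - 1‖ ≤ 0.06 := by
  refine le_epsJ (C := 0.8055) (N0 := 13.561) (J_boxp 0.4481 0.6463 0 0.497 0.497 1.0255 0.8153 1.6306 1.2297 0.5095 3.6826 13.561 0.7951 2.939 1.432 1.1715 0.5127 0.3768 1.1616 3.6847 0.5219 1.0697 0.3352 1.0501 0.0009596 0.006043 0.0000003101 0.0000003101 0.0008444 0.0000005015 0.01063 0.0000006542 0.8055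
    hβ hN hx1 hx2 hy1 hy2 (by norm_num) (by norm_num) (by linarith) (by norm_num) (by norm_num) (by norm_num) (by norm_num) (by norm_num) (by norm_num) (by norm_num) (by norm_num) (by norm_num) (by norm_num) (by norm_num) (by norm_num) (by norm_num) (by norm_num) (by norm_num) (by norm_num) (by norm_num) (by norm_num) (by norm_num) (by norm_num) (by norm_num)
    (cube_sqrt_geJ (s := 0.8573) (by norm_num) (by norm_num) (by norm_num) (by norm_num))
    (cube_sqrt_geJ (s := 0.95) (by norm_num) (by norm_num) (by norm_num) (by norm_num))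
    (by norm_num) (by norm_num) (by norm_num) (by norm_num) (by norm_num) (by norm_num) (by norm_num) (by norm_num) (by norm_num) (by norm_num) (by norm_num) (by norm_num) (by norm_num) (by norm_num) (by norm_num) (by norm_num) (by norm_num) (by norm_num)
    (exp_neg_leJ (r := 0.952) 6 (by norm_num) (by norm_num) (by norm_num) (by norm_num))
    (exp_neg_leJ (r := 0.109) 5 (by norm_num) (by norm_num) (by norm_num) (by norm_num))
    (exp_neg_leJ (r := 0.99) 14 (by norm_num) (by norm_num) (by norm_num) (by norm_num))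
    (exp_neg_leJ (r := 0.99) 14 (by norm_num) (by norm_num) (by norm_num) (by norm_num))
    (exp_neg_leJ (r := 0.077) 7 (by norm_num) (by norm_num) (by norm_num) (by norm_num))
    (exp_neg_leJ (r := 0.506) 14 (by norm_num) (by norm_num) (by norm_num) (by norm_num))
    (exp_neg_leJ (r := 0.545) 4 (by norm_num) (by norm_num) (by norm_num) (by norm_num))
    (exp_neg_leJ (r := 0.24) 14 (by norm_num) (by norm_num) (by norm_num) (by norm_num))
    (by norm_num)) (by norm_num) hN hβ.le (by norm_num)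

private theorem JB7_k2a_b9_2 {β x y : ℝ} (hβ : 0 < β) (hN : β * 13.561 ≤ 1) (hx1 : 0.4308 ≤ x) (hx2 : x ≤ 0.5756)
    (hy1 : -0 ≤ y) (hy2 : y ≤ 0.505) : ‖HH β (x + y * I) - 1‖ ≤ 0.06 := by
  refine le_epsJ (C := 0.8009) (N0 := 13.561) (J_boxp 0.4308 0.5756 0 0.505 0.505 1.0134 0.7658 1.6114 1.2444 0.5065 3.6826 13.561 0.7557 2.762 1.405 1.1987 0.5066 0.379 1.1557 3.7198 0.5127 1.0449 0.2663 1.1124 0.001041 0.005864 0.0000003101 0.0000003101 0.0009596 0.0000007023 0.02704 0.0000003101 0.8009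
    hβ hN hx1 hx2 hy1 hy2 (by norm_num) (by norm_num) (by linarith) (by norm_num) (by norm_num) (by norm_num) (by norm_num) (by norm_num) (by norm_num) (by norm_num) (by norm_num) (by norm_num) (by norm_num) (by norm_num) (by norm_num) (by norm_num) (by norm_num) (by norm_num) (by norm_num) (by norm_num) (by norm_num) (by norm_num) (by norm_num) (by norm_num)
    (cube_sqrt_geJ (s := 0.8649) (by norm_num) (by norm_num) (by norm_num) (by norm_num))
    (cube_sqrt_geJ (s := 0.9526) (by norm_num) (by norm_num) (by norm_num) (by norm_num))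
    (by norm_num) (by norm_num) (by norm_num) (by norm_num) (by norm_num) (by norm_num) (by norm_num) (by norm_num) (by norm_num) (by norm_num) (by norm_num) (by norm_num) (by norm_num) (by norm_num) (by norm_num) (by norm_num) (by norm_num) (by norm_num)
    (exp_neg_leJ (r := 0.87) 6 (by norm_num) (by norm_num) (by norm_num) (by norm_num))
    (exp_neg_leJ (r := 0.139) 5 (by norm_num) (by norm_num) (by norm_num) (by norm_num))
    (exp_neg_leJ (r := 0.99) 14 (by norm_num) (by norm_num) (by norm_num) (by norm_num))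
    (exp_neg_leJ (r := 0.99) 14 (by norm_num) (by norm_num) (by norm_num) (by norm_num))
    (exp_neg_leJ (r := 0.952) 6 (by norm_num) (by norm_num) (by norm_num) (by norm_num))
    (exp_neg_leJ (r := 0.169) 14 (by norm_num) (by norm_num) (by norm_num) (by norm_num))
    (exp_neg_leJ (r := 0.611) 3 (by norm_num) (by norm_num) (by norm_num) (by norm_num))
    (exp_neg_leJ (r := 0.99) 14 (by norm_num) (by norm_num) (by norm_num) (by norm_num))
    (by norm_num)) (by norm_num) hN hβ.le (by norm_num)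

theorem JB7_k2a_c9 {κ t β : ℝ} (h : DomR κ t) (hβ : 0 < β) (hk1 : 1.1 ≤ κ) (hk2 : κ ≤ 1.25)
    (ht1 : 0.94 ≤ t + κ) (ht2 : t + κ ≤ 1.4) (hR0 : β * 10 ≤ κ) (hR : β * (6.75 * (1 + κ ^ 2)) ≤ κ) :
    ‖HH β (sg κ t) - 1‖ ≤ 0.06 := by
  have hN : β * 13.561 ≤ 1 := bNC' hβ hk1 (by norm_num) (by norm_num) hR (by norm_num)
  have hy1 : 0.367 ≤ sy κ t := syR_ge h 1.1 1.25 0.94 0.367 1.44339 1.4434 0.42377 0.48158 hk1 hk2 (by linarith) (by norm_num) (by norm_num)
    (expn_ge (by norm_num) (by norm_num)) (expn_le (by norm_num) (by norm_num) (by norm_num)) (by norm_num)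
    (by norm_num) (by norm_num) (by norm_num) (by norm_num) (by norm_num) (by norm_num)
  have hy2 : sy κ t ≤ 0.505 := syR_le h 1.1 1.25 1.4 0.505 1.65698 0.6465 0.66941 0.76071 hk1 hk2 (by linarith) (by norm_num) (by norm_num)
    (expn_ge (by norm_num) (by norm_num)) (by norm_num) (by norm_num) (Or.inr ((mul_le_mul_of_nonneg_left (expn_le (E := 1.65699) (by norm_num) (by norm_num) (by norm_num)) (by norm_num)).trans (by norm_num))) (by norm_num) (by norm_num) (by norm_num)
  rcases le_total (sy κ t) 0.457 with f0 | g0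
  · have hx1 : 0.5256 ≤ sx κ t := sx_lo h 1.1 0.457 0.457 0.63318 0.5256 hk1 (by norm_num) f0 (abs_le.2 ⟨by linarith, by linarith⟩) (expm_ge (by norm_num) (by norm_num) (by norm_num) (by norm_num)) (by norm_num) (by norm_num)
    have hx2 : sx κ t ≤ 0.7845 := sx_hi h 1.25 0.367 0.367 0.69281 0.7845 hk2 hy1 (by norm_num) (by rw [abs_of_nonneg (by linarith)]; linarith) (expm_le (by norm_num) (by norm_num) (by norm_num)) (by norm_num) (by norm_num)
    exact JB7_k2a_b9_0 hβ hN hx1 hx2 (by linarith) (by linarith)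
  rcases le_total (sy κ t) 0.497 with f1 | g1
  · have hx1 : 0.4481 ≤ sx κ t := sx_lo h 1.1 0.497 0.497 0.60835 0.4481 hk1 (by norm_num) f1 (abs_le.2 ⟨by linarith, by linarith⟩) (expm_ge (by norm_num) (by norm_num) (by norm_num) (by norm_num)) (by norm_num) (by norm_num)
    have hx2 : sx κ t ≤ 0.6463 := sx_hi h 1.25 0.457 0.457 0.63319 0.6463 hk2 g0 (by norm_num) (by rw [abs_of_nonneg (by linarith)]; linarith) (expm_le (by norm_num) (by norm_num) (by norm_num)) (by norm_num) (by norm_num)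
    exact JB7_k2a_b9_1 hβ hN hx1 hx2 (by linarith) (by linarith)
  have hx1 : 0.4308 ≤ sx κ t := sx_lo h 1.1 0.505 0.505 0.6035 0.4308 hk1 (by norm_num) hy2 (abs_le.2 ⟨by linarith, by linarith⟩) (expm_ge (by norm_num) (by norm_num) (by norm_num) (by norm_num)) (by norm_num) (by norm_num)
  have hx2 : sx κ t ≤ 0.5756 := sx_hi h 1.25 0.497 0.497 0.60836 0.5756 hk2 g1 (by norm_num) (by rw [abs_of_nonneg (by linarith)]; linarith) (expm_le (by norm_num) (by norm_num) (by norm_num)) (by norm_num) (by norm_num)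
  exact JB7_k2a_b9_2 hβ hN hx1 hx2 (by linarith) (by linarith)

private theorem JB7_k2a_b10_0 {β x y : ℝ} (hβ : 0 < β) (hN : β * 13.837 ≤ 1) (hx1 : 0.6029 ≤ x) (hx2 : x ≤ 0.8758)
    (hy1 : -0 ≤ y) (hy2 : y ≤ 0.482) : ‖HH β (x + y * I) - 1‖ ≤ 0.06 := by
  refine le_epsJ (C := 0.8081) (N0 := 13.837) (J_boxp 0.6029 0.8758 0 0.482 0.482 1.1345 0.9997 1.7215 1.0858 0.5235 3.7199 13.837 0.8812 3.378 1.492 1.0832 0.5672 0.4006 1.2146 3.5642 0.5987 1.2856 0.7092 0.9291 0.0003913 0.003916 0.0000003101 0.0000003101 0.0002526 0.0000003101 0.00005482 0.000002618 0.8081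
    hβ hN hx1 hx2 hy1 hy2 (by norm_num) (by norm_num) (by linarith) (by norm_num) (by norm_num) (by norm_num) (by norm_num) (by norm_num) (by norm_num) (by norm_num) (by norm_num) (by norm_num) (by norm_num) (by norm_num) (by norm_num) (by norm_num) (by norm_num) (by norm_num) (by norm_num) (by norm_num) (by norm_num) (by norm_num) (by norm_num) (by norm_num)
    (cube_sqrt_geJ (s := 0.8403) (by norm_num) (by norm_num) (by norm_num) (by norm_num))
    (cube_sqrt_geJ (s := 0.9445) (by norm_num) (by norm_num) (by norm_num) (by norm_num))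
    (by norm_num) (by norm_num) (by norm_num) (by norm_num) (by norm_num) (by norm_num) (by norm_num) (by norm_num) (by norm_num) (by norm_num) (by norm_num) (by norm_num) (by norm_num) (by norm_num) (by norm_num) (by norm_num) (by norm_num) (by norm_num)
    (exp_neg_leJ (r := 0.848) 7 (by norm_num) (by norm_num) (by norm_num) (by norm_num))
    (exp_neg_leJ (r := 0.543) 5 (by norm_num) (by norm_num) (by norm_num) (by norm_num))
    (exp_neg_leJ (r := 0.99) 14 (by norm_num) (by norm_num) (by norm_num) (by norm_num))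
    (exp_neg_leJ (r := 0.99) 14 (by norm_num) (by norm_num) (by norm_num) (by norm_num))
    (exp_neg_leJ (r := 0.284) 8 (by norm_num) (by norm_num) (by norm_num) (by norm_num))
    (exp_neg_leJ (r := 0.99) 14 (by norm_num) (by norm_num) (by norm_num) (by norm_num))
    (exp_neg_leJ (r := 0.813) 9 (by norm_num) (by norm_num) (by norm_num) (by norm_num))
    (exp_neg_leJ (r := 0.855) 12 (by norm_num) (by norm_num) (by norm_num) (by norm_num))
    (by norm_num)) (by norm_num) hN hβ.le (by norm_num)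

private theorem JB7_k2a_b10_1 {β x y : ℝ} (hβ : 0 < β) (hN : β * 13.837 ≤ 1) (hx1 : 0.5369 ≤ x) (hx2 : x ≤ 0.7103)
    (hy1 : -0 ≤ y) (hy2 : y ≤ 0.517) : ‖HH β (x + y * I) - 1‖ ≤ 0.06 := by
  refine le_epsJ (C := 0.712) (N0 := 13.837) (J_boxp 0.5369 0.7103 0 0.517 0.517 1.0881 0.8786 1.6751 1.1403 0.5164 3.7199 13.837 0.8075 2.997 1.44 1.1469 0.544 0.3976 1.192 3.6479 0.563 1.1906 0.427 0.9614 0.0005385 0.004084 0.0000003101 0.0000003101 0.0004145 0.0000003101 0.002725 0.000001672 0.712
    hβ hN hx1 hx2 hy1 hy2 (by norm_num) (by norm_num) (by linarith) (by norm_num) (by norm_num) (by norm_num) (by norm_num) (by norm_num) (by norm_num) (by norm_num) (by norm_num) (by norm_num) (by norm_num) (by norm_num) (by norm_num) (by norm_num) (by norm_num) (by norm_num) (by norm_num) (by norm_num) (by norm_num) (by norm_num) (by norm_num) (by norm_num)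
    (cube_sqrt_geJ (s := 0.8548) (by norm_num) (by norm_num) (by norm_num) (by norm_num))
    (cube_sqrt_geJ (s := 0.9492) (by norm_num) (by norm_num) (by norm_num) (by norm_num))
    (by norm_num) (by norm_num) (by norm_num) (by norm_num) (by norm_num) (by norm_num) (by norm_num) (by norm_num) (by norm_num) (by norm_num) (by norm_num) (by norm_num) (by norm_num) (by norm_num) (by norm_num) (by norm_num) (by norm_num) (by norm_num)
    (exp_neg_leJ (r := 0.527) 7 (by norm_num) (by norm_num) (by norm_num) (by norm_num))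
    (exp_neg_leJ (r := 0.501) 5 (by norm_num) (by norm_num) (by norm_num) (by norm_num))
    (exp_neg_leJ (r := 0.99) 14 (by norm_num) (by norm_num) (by norm_num) (by norm_num))
    (exp_neg_leJ (r := 0.99) 14 (by norm_num) (by norm_num) (by norm_num) (by norm_num))
    (exp_neg_leJ (r := 0.79) 7 (by norm_num) (by norm_num) (by norm_num) (by norm_num))
    (exp_neg_leJ (r := 0.99) 14 (by norm_num) (by norm_num) (by norm_num) (by norm_num))
    (exp_neg_leJ (r := 0.908) 5 (by norm_num) (by norm_num) (by norm_num) (by norm_num))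
    (exp_neg_leJ (r := 0.302) 13 (by norm_num) (by norm_num) (by norm_num) (by norm_num))
    (by norm_num)) (by norm_num) hN hβ.le (by norm_num)

theorem JB7_k2a_c10 {κ t β : ℝ} (h : DomR κ t) (hβ : 0 < β) (hk1 : 1.25 ≤ κ) (hk2 : κ ≤ 1.39)
    (ht1 : 0.94 ≤ t + κ) (ht2 : t + κ ≤ 1.4) (hR0 : β * 10 ≤ κ) (hR : β * (6.75 * (1 + κ ^ 2)) ≤ κ) :
    ‖HH β (sg κ t) - 1‖ ≤ 0.06 := by
  have hN : β * 13.837 ≤ 1 := bNC' hβ hk1 (by norm_num) (by norm_num) hR (by norm_num)
  have hy1 : 0.377 ≤ sy κ t := syR_ge h 1.25 1.39 0.94 0.377 1.4579 1.45791 0.39541 0.43971 hk1 hk2 (by linarith) (by norm_num) (by norm_num)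
    (expn_ge (by norm_num) (by norm_num)) (expn_le (by norm_num) (by norm_num) (by norm_num)) (by norm_num)
    (by norm_num) (by norm_num) (by norm_num) (by norm_num) (by norm_num) (by norm_num)
  have hy2 : sy κ t ≤ 0.517 := syR_le h 1.25 1.39 1.4 0.517 1.67698 0.6062 0.62374 0.69361 hk1 hk2 (by linarith) (by norm_num) (by norm_num)
    (expn_ge (by norm_num) (by norm_num)) (by norm_num) (by norm_num) (Or.inr ((mul_le_mul_of_nonneg_left (expn_le (E := 1.67699) (by norm_num) (by norm_num) (by norm_num)) (by norm_num)).trans (by norm_num))) (by norm_num) (by norm_num) (by norm_num)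
  rcases le_total (sy κ t) 0.482 with f0 | g0
  · have hx1 : 0.6029 ≤ sx κ t := sx_lo h 1.25 0.482 0.482 0.61754 0.6029 hk1 (by norm_num) f0 (abs_le.2 ⟨by linarith, by linarith⟩) (expm_ge (by norm_num) (by norm_num) (by norm_num) (by norm_num)) (by norm_num) (by norm_num)
    have hx2 : sx κ t ≤ 0.8758 := sx_hi h 1.39 0.377 0.377 0.68592 0.8758 hk2 hy1 (by norm_num) (by rw [abs_of_nonneg (by linarith)]; linarith) (expm_le (by norm_num) (by norm_num) (by norm_num)) (by norm_num) (by norm_num)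
    exact JB7_k2a_b10_0 hβ hN hx1 hx2 (by linarith) (by linarith)
  have hx1 : 0.5369 ≤ sx κ t := sx_lo h 1.25 0.517 0.517 0.5963 0.5369 hk1 (by norm_num) hy2 (abs_le.2 ⟨by linarith, by linarith⟩) (expm_ge (by norm_num) (by norm_num) (by norm_num) (by norm_num)) (by norm_num) (by norm_num)
  have hx2 : sx κ t ≤ 0.7103 := sx_hi h 1.39 0.482 0.482 0.61755 0.7103 hk2 g0 (by norm_num) (by rw [abs_of_nonneg (by linarith)]; linarith) (expm_le (by norm_num) (by norm_num) (by norm_num)) (by norm_num) (by norm_num)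
  exact JB7_k2a_b10_1 hβ hN hx1 hx2 (by linarith) (by linarith)

private theorem JB7_k2b_b0_0 {β x y : ℝ} (hβ : 0 < β) (hN : β * 19.607 ≤ 1) (hn : ‖(x + y * I : ℂ)‖ ≤ 0.426) : ‖HH β (x + y * I) - 1‖ ≤ 0.15 := by
  refine le_epsJ (C := 2.8685) (N0 := 19.607) (J45_genN (N := 19.607) (r0 := 4.428) (f := 2.1565) (n0 := 0.426) (a := 0.574) (wL := 2.052) (wR := 2.674)
    (E1 := 0.04239) (E2 := 0.0002803) (E3 := 0.1212) (E4 := 0.00255) (E5 := 0.0000003101) hβ (by norm_num) hN
    (by norm_num) (by norm_num) (by norm_num) hn (by norm_num) (by norm_num) (by norm_num)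
    (cube_sqrt_geJ (s := 0.9024) (by norm_num) (by norm_num) (by norm_num) (by norm_num))
    (cube_sqrt_geJ (s := 0.8689) (by norm_num) (by norm_num) (by norm_num) (by norm_num))
    (exp_neg_leJ (r := 0.161) 3 (by norm_num) (by norm_num) (by norm_num) (by norm_num))
    (exp_neg_leJ (r := 0.18) 8 (by norm_num) (by norm_num) (by norm_num) (by norm_num))
    (exp_neg_leJ (r := 0.111) 2 (by norm_num) (by norm_num) (by norm_num) (by norm_num))
    (exp_neg_leJ (r := 0.975) 5 (by norm_num) (by norm_num) (by norm_num) (by norm_num))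
    (exp_neg_leJ (r := 0.99) 14 (by norm_num) (by norm_num) (by norm_num) (by norm_num))
    (by norm_num)) (by norm_num) hN hβ.le (by norm_num)

theorem JB7_k2b_c0 {κ t β : ℝ} (h : DomR κ t) (hβ : 0 < β) (hk1 : 0.27 ≤ κ) (hk2 : κ ≤ 0.51)
    (ht1 : 1.38 ≤ t + κ) (ht2 : t + κ ≤ 1.6) (hR0 : β * 10 ≤ κ) (hR : β * (6.75 * (1 + κ ^ 2)) ≤ κ) :
    ‖HH β (sg κ t) - 1‖ ≤ 0.15 := by
  have hN : β * 19.607 ≤ 1 := bNR hβ h.1 hk2 hR0 (by norm_num)
  have hy1 : 0.18 ≤ sy κ t := syR_ge h 0.27 0.51 1.38 0.18 1.19721 1.19722 0.42254 0.79815 hk1 hk2 (by linarith) (by norm_num) (by norm_num)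
    (expn_ge (by norm_num) (by norm_num)) (expn_le (by norm_num) (by norm_num) (by norm_num)) (by norm_num)
    (by norm_num) (by norm_num) (by norm_num) (by norm_num) (by norm_num) (by norm_num)
  have hy2 : sy κ t ≤ 0.353 := syR_ang2 h 0.27 0.51 1.6 1.387 0.1924 0.9851 0.353 0.70258 1.42333 hk1 hk2 (by linarith) (by norm_num) (by norm_num) (by norm_num)
    (cos_le_num (by norm_num)) (sin_le_num (by norm_num) (by norm_num)) (expm_le (by norm_num) (by norm_num) (by norm_num))
    (expn_ge (by norm_num) (by norm_num)) (by norm_num) (by norm_num) (by norm_num) (by norm_num) (by norm_num)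
  exact JB7_k2b_b0_0 hβ hN (norm_sg_le h 0.51 0.18 0.83528 0.426 hk2 hy1 (expm_le (by norm_num) (by norm_num) (by norm_num)) (by norm_num))

private theorem JB7_k2b_b1_0 {β x y : ℝ} (hβ : 0 < β) (hN : β * 17.857 ≤ 1) (hx1 : 0.1411 ≤ x) (hx2 : x ≤ 0.2849)
    (hy1 : -0 ≤ y) (hy2 : y ≤ 0.336) : ‖HH β (x + y * I) - 1‖ ≤ 0.15 := by
  refine le_epsJ (C := 0.4663) (N0 := 17.857) (J_boxp 0.1411 0.2849 0 0.336 0.336 0.8094 0.4406 1.3661 1.6051 0.4663 4.2258 17.857 0.5444 2.016 1.274 1.3105 0.4046 0.3312 1.0565 3.8972 0.3892 0.661 0.4117 2.2133 0.0007289 0.002709 0.0000003101 0.0000003101 0.0009625 0.000007493 0.000642 0.0000003101 0.4663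
    hβ hN hx1 hx2 hy1 hy2 (by norm_num) (by norm_num) (by linarith) (by norm_num) (by norm_num) (by norm_num) (by norm_num) (by norm_num) (by norm_num) (by norm_num) (by norm_num) (by norm_num) (by norm_num) (by norm_num) (by norm_num) (by norm_num) (by norm_num) (by norm_num) (by norm_num) (by norm_num) (by norm_num) (by norm_num) (by norm_num) (by norm_num)
    (cube_sqrt_geJ (s := 0.9047) (by norm_num) (by norm_num) (by norm_num) (by norm_num))
    (cube_sqrt_geJ (s := 0.966) (by norm_num) (by norm_num) (by norm_num) (by norm_num))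
    (by norm_num) (by norm_num) (by norm_num) (by norm_num) (by norm_num) (by norm_num) (by norm_num) (by norm_num) (by norm_num) (by norm_num) (by norm_num) (by norm_num) (by norm_num) (by norm_num) (by norm_num) (by norm_num) (by norm_num) (by norm_num)
    (exp_neg_leJ (r := 0.224) 7 (by norm_num) (by norm_num) (by norm_num) (by norm_num))
    (exp_neg_leJ (r := 0.914) 5 (by norm_num) (by norm_num) (by norm_num) (by norm_num))
    (exp_neg_leJ (r := 0.99) 14 (by norm_num) (by norm_num) (by norm_num) (by norm_num))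
    (exp_neg_leJ (r := 0.99) 14 (by norm_num) (by norm_num) (by norm_num) (by norm_num))
    (exp_neg_leJ (r := 0.949) 6 (by norm_num) (by norm_num) (by norm_num) (by norm_num))
    (exp_neg_leJ (r := 0.803) 11 (by norm_num) (by norm_num) (by norm_num) (by norm_num))
    (exp_neg_leJ (r := 0.351) 7 (by norm_num) (by norm_num) (by norm_num) (by norm_num))
    (exp_neg_leJ (r := 0.99) 14 (by norm_num) (by norm_num) (by norm_num) (by norm_num))
    (by norm_num)) (by norm_num) hN hβ.le (by norm_num)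

private theorem JB7_k2b_b1_1 {β x y : ℝ} (hβ : 0 < β) (hN : β * 17.857 ≤ 1) (hn : ‖(x + y * I : ℂ)‖ ≤ 0.401) : ‖HH β (x + y * I) - 1‖ ≤ 0.15 := by
  refine le_epsJ (C := 2.4512) (N0 := 17.857) (J45_genN (N := 17.857) (r0 := 4.2258) (f := 2.058) (n0 := 0.401) (a := 0.599) (wL := 1.899) (wR := 2.397)
    (E1 := 0.04959) (E2 := 0.0003157) (E3 := 0.122) (E4 := 0.002092) (E5 := 0.0000003101) hβ (by norm_num) hN
    (by norm_num) (by norm_num) (by norm_num) hn (by norm_num) (by norm_num) (by norm_num)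
    (cube_sqrt_geJ (s := 0.9124) (by norm_num) (by norm_num) (by norm_num) (by norm_num))
    (cube_sqrt_geJ (s := 0.8826) (by norm_num) (by norm_num) (by norm_num) (by norm_num))
    (exp_neg_leJ (r := 0.004) 3 (by norm_num) (by norm_num) (by norm_num) (by norm_num))
    (exp_neg_leJ (r := 0.061) 8 (by norm_num) (by norm_num) (by norm_num) (by norm_num))
    (exp_neg_leJ (r := 0.104) 2 (by norm_num) (by norm_num) (by norm_num) (by norm_num))
    (exp_neg_leJ (r := 0.17) 6 (by norm_num) (by norm_num) (by norm_num) (by norm_num))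
    (exp_neg_leJ (r := 0.99) 14 (by norm_num) (by norm_num) (by norm_num) (by norm_num))
    (by norm_num)) (by norm_num) hN hβ.le (by norm_num)

theorem JB7_k2b_c1 {κ t β : ℝ} (h : DomR κ t) (hβ : 0 < β) (hk1 : 0.51 ≤ κ) (hk2 : κ ≤ 0.56)
    (ht1 : 1.38 ≤ t + κ) (ht2 : t + κ ≤ 1.6) (hR0 : β * 10 ≤ κ) (hR : β * (6.75 * (1 + κ ^ 2)) ≤ κ) :
    ‖HH β (sg κ t) - 1‖ ≤ 0.15 := by
  have hN : β * 17.857 ≤ 1 := bNR hβ h.1 hk2 hR0 (by norm_num)
  have hy1 : 0.301 ≤ sy κ t := syR_ge h 0.51 0.56 1.38 0.301 1.3512 1.35121 0.72626 0.79748 hk1 hk2 (by linarith) (by norm_num) (by norm_num)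
    (expn_ge (by norm_num) (by norm_num)) (expn_le (by norm_num) (by norm_num) (by norm_num)) (by norm_num)
    (by norm_num) (by norm_num) (by norm_num) (by norm_num) (by norm_num) (by norm_num)
  have hy2 : sy κ t ≤ 0.365 := syR_ang2 h 0.51 0.56 1.6 1.217 0.3509 0.9389 0.365 0.6942 1.44051 hk1 hk2 (by linarith) (by norm_num) (by norm_num) (by norm_num)
    (cos_le_num (by norm_num)) (sin_le_num (by norm_num) (by norm_num)) (expm_le (by norm_num) (by norm_num) (by norm_num))
    (expn_ge (by norm_num) (by norm_num)) (by norm_num) (by norm_num) (by norm_num) (by norm_num) (by norm_num)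
  rcases le_total (sy κ t) 0.336 with f0 | g0
  · have hx1 : 0.1411 ≤ sx κ t := sx_lo h 0.51 0.336 0.336 0.71462 0.1411 hk1 (by norm_num) f0 (abs_le.2 ⟨by linarith, by linarith⟩) (expm_ge (by norm_num) (by norm_num) (by norm_num) (by norm_num)) (by norm_num) (by norm_num)
    have hx2 : sx κ t ≤ 0.2849 := sx_hi h 0.56 0.301 0.301 0.74008 0.2849 hk2 hy1 (by norm_num) (by rw [abs_of_nonneg (by linarith)]; linarith) (expm_le (by norm_num) (by norm_num) (by norm_num)) (by norm_num) (by norm_num)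
    exact JB7_k2b_b1_0 hβ hN hx1 hx2 (by linarith) (by linarith)
  exact JB7_k2b_b1_1 hβ hN (norm_sg_le h 0.56 0.336 0.71463 0.401 hk2 g0 (expm_le (by norm_num) (by norm_num) (by norm_num)) (by norm_num))

private theorem JB7_k2b_b2_0 {β x y : ℝ} (hβ : 0 < β) (hN : β * 17.543 ≤ 1) (hx1 : 0.1551 ≤ x) (hx2 : x ≤ 0.255)
    (hy1 : -0 ≤ y) (hy2 : y ≤ 0.359) : ‖HH β (x + y * I) - 1‖ ≤ 0.15 := by
  refine le_epsJ (C := 0.4594) (N0 := 17.543) (J_boxp 0.1551 0.255 0 0.359 0.359 0.8192 0.4404 1.3828 1.586 0.4692 4.1885 17.543 0.5376 1.997 1.27 1.322 0.4095 0.3361 1.0613 3.9065 0.3937 0.6781 0.3411 2.1335 0.0007594 0.002757 0.0000003101 0.0000003101 0.001005 0.000006841 0.00253 0.0000003101 0.4594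
    hβ hN hx1 hx2 hy1 hy2 (by norm_num) (by norm_num) (by linarith) (by norm_num) (by norm_num) (by norm_num) (by norm_num) (by norm_num) (by norm_num) (by norm_num) (by norm_num) (by norm_num) (by norm_num) (by norm_num) (by norm_num) (by norm_num) (by norm_num) (by norm_num) (by norm_num) (by norm_num) (by norm_num) (by norm_num) (by norm_num) (by norm_num)
    (cube_sqrt_geJ (s := 0.9059) (by norm_num) (by norm_num) (by norm_num) (by norm_num))
    (cube_sqrt_geJ (s := 0.9665) (by norm_num) (by norm_num) (by norm_num) (by norm_num))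
    (by norm_num) (by norm_num) (by norm_num) (by norm_num) (by norm_num) (by norm_num) (by norm_num) (by norm_num) (by norm_num) (by norm_num) (by norm_num) (by norm_num) (by norm_num) (by norm_num) (by norm_num) (by norm_num) (by norm_num) (by norm_num)
    (exp_neg_leJ (r := 0.183) 7 (by norm_num) (by norm_num) (by norm_num) (by norm_num))
    (exp_neg_leJ (r := 0.896) 5 (by norm_num) (by norm_num) (by norm_num) (by norm_num))
    (exp_neg_leJ (r := 0.99) 14 (by norm_num) (by norm_num) (by norm_num) (by norm_num))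
    (exp_neg_leJ (r := 0.99) 14 (by norm_num) (by norm_num) (by norm_num) (by norm_num))
    (exp_neg_leJ (r := 0.906) 6 (by norm_num) (by norm_num) (by norm_num) (by norm_num))
    (exp_neg_leJ (r := 0.895) 11 (by norm_num) (by norm_num) (by norm_num) (by norm_num))
    (exp_neg_leJ (r := 0.983) 5 (by norm_num) (by norm_num) (by norm_num) (by norm_num))
    (exp_neg_leJ (r := 0.99) 14 (by norm_num) (by norm_num) (by norm_num) (by norm_num))
    (by norm_num)) (by norm_num) hN hβ.le (by norm_num)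

private theorem JB7_k2b_b2_1 {β x y : ℝ} (hβ : 0 < β) (hN : β * 17.543 ≤ 1) (hn : ‖(x + y * I : ℂ)‖ ≤ 0.399) : ‖HH β (x + y * I) - 1‖ ≤ 0.15 := by
  refine le_epsJ (C := 2.4734) (N0 := 17.543) (J45_genN (N := 17.543) (r0 := 4.1885) (f := 2.0398) (n0 := 0.399) (a := 0.601) (wL := 1.888) (wR := 2.377)
    (E1 := 0.05193) (E2 := 0.0003479) (E3 := 0.1249) (E4 := 0.002201) (E5 := 0.0000003101) hβ (by norm_num) hN
    (by norm_num) (by norm_num) (by norm_num) hn (by norm_num) (by norm_num) (by norm_num)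
    (cube_sqrt_geJ (s := 0.9132) (by norm_num) (by norm_num) (by norm_num) (by norm_num))
    (cube_sqrt_geJ (s := 0.8836) (by norm_num) (by norm_num) (by norm_num) (by norm_num))
    (exp_neg_leJ (r := 0.961) 2 (by norm_num) (by norm_num) (by norm_num) (by norm_num))
    (exp_neg_leJ (r := 0.967) 7 (by norm_num) (by norm_num) (by norm_num) (by norm_num))
    (exp_neg_leJ (r := 0.081) 2 (by norm_num) (by norm_num) (by norm_num) (by norm_num))
    (exp_neg_leJ (r := 0.119) 6 (by norm_num) (by norm_num) (by norm_num) (by norm_num))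
    (exp_neg_leJ (r := 0.99) 14 (by norm_num) (by norm_num) (by norm_num) (by norm_num))
    (by norm_num)) (by norm_num) hN hβ.le (by norm_num)

theorem JB7_k2b_c2 {κ t β : ℝ} (h : DomR κ t) (hβ : 0 < β) (hk1 : 0.56 ≤ κ) (hk2 : κ ≤ 0.57)
    (ht1 : 1.38 ≤ t + κ) (ht2 : t + κ ≤ 1.6) (hR0 : β * 10 ≤ κ) (hR : β * (6.75 * (1 + κ ^ 2)) ≤ κ) :
    ‖HH β (sg κ t) - 1‖ ≤ 0.15 := by
  have hN : β * 17.543 ≤ 1 := bNR hβ h.1 hk2 hR0 (by norm_num)
  have hy1 : 0.324 ≤ sy κ t := syR_ge h 0.56 0.57 1.38 0.324 1.38264 1.38265 0.78592 0.79997 hk1 hk2 (by linarith) (by norm_num) (by norm_num)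
    (expn_ge (by norm_num) (by norm_num)) (expn_le (by norm_num) (by norm_num) (by norm_num)) (by norm_num)
    (by norm_num) (by norm_num) (by norm_num) (by norm_num) (by norm_num) (by norm_num)
  have hy2 : sy κ t ≤ 0.367 := syR_ang2 h 0.56 0.57 1.6 1.19 0.3756 0.9291 0.367 0.69281 1.44339 hk1 hk2 (by linarith) (by norm_num) (by norm_num) (by norm_num)
    (cos_le_num (by norm_num)) (sin_le_num (by norm_num) (by norm_num)) (expm_le (by norm_num) (by norm_num) (by norm_num))
    (expn_ge (by norm_num) (by norm_num)) (by norm_num) (by norm_num) (by norm_num) (by norm_num) (by norm_num)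
  rcases le_total (sy κ t) 0.359 with f0 | g0
  · have hx1 : 0.1551 ≤ sx κ t := sx_lo h 0.56 0.359 0.359 0.69837 0.1551 hk1 (by norm_num) f0 (abs_le.2 ⟨by linarith, by linarith⟩) (expm_ge (by norm_num) (by norm_num) (by norm_num) (by norm_num)) (by norm_num) (by norm_num)
    have hx2 : sx κ t ≤ 0.255 := sx_hi h 0.57 0.324 0.324 0.72326 0.255 hk2 hy1 (by norm_num) (by rw [abs_of_nonneg (by linarith)]; linarith) (expm_le (by norm_num) (by norm_num) (by norm_num)) (by norm_num) (by norm_num)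
    exact JB7_k2b_b2_0 hβ hN hx1 hx2 (by linarith) (by linarith)
  exact JB7_k2b_b2_1 hβ hN (norm_sg_le h 0.57 0.359 0.69838 0.399 hk2 g0 (expm_le (by norm_num) (by norm_num) (by norm_num)) (by norm_num))

private theorem JB7_k2b_b3_0 {β x y : ℝ} (hβ : 0 < β) (hN : β * 14.174 ≤ 1) (hx1 : 0.1594 ≤ x) (hx2 : x ≤ 0.4111)
    (hy1 : -0 ≤ y) (hy2 : y ≤ 0.363) : ‖HH β (x + y * I) - 1‖ ≤ 0.15 := by
  refine le_epsJ (C := 0.8543) (N0 := 14.174) (J_boxp 0.1594 0.4111 0 0.363 0.363 0.8222 0.5485 1.4237 1.6005 0.4761 3.7649 14.174 0.6672 2.412 1.348 1.262 0.411 0.3196 1.0628 3.8292 0.3954 0.6836 0.3325 1.8294 0.002958 0.01079 0.0000003101 0.0000003101 0.003685 0.00006201 0.008995 0.0000003101 0.8543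
    hβ hN hx1 hx2 hy1 hy2 (by norm_num) (by norm_num) (by linarith) (by norm_num) (by norm_num) (by norm_num) (by norm_num) (by norm_num) (by norm_num) (by norm_num) (by norm_num) (by norm_num) (by norm_num) (by norm_num) (by norm_num) (by norm_num) (by norm_num) (by norm_num) (by norm_num) (by norm_num) (by norm_num) (by norm_num) (by norm_num) (by norm_num)
    (cube_sqrt_geJ (s := 0.8818) (by norm_num) (by norm_num) (by norm_num) (by norm_num))
    (cube_sqrt_geJ (s := 0.9582) (by norm_num) (by norm_num) (by norm_num) (by norm_num))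
    (by norm_num) (by norm_num) (by norm_num) (by norm_num) (by norm_num) (by norm_num) (by norm_num) (by norm_num) (by norm_num) (by norm_num) (by norm_num) (by norm_num) (by norm_num) (by norm_num) (by norm_num) (by norm_num) (by norm_num) (by norm_num)
    (exp_neg_leJ (r := 0.825) 5 (by norm_num) (by norm_num) (by norm_num) (by norm_num))
    (exp_neg_leJ (r := 0.53) 4 (by norm_num) (by norm_num) (by norm_num) (by norm_num))
    (exp_neg_leJ (r := 0.99) 14 (by norm_num) (by norm_num) (by norm_num) (by norm_num))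
    (exp_neg_leJ (r := 0.99) 14 (by norm_num) (by norm_num) (by norm_num) (by norm_num))
    (exp_neg_leJ (r := 0.604) 5 (by norm_num) (by norm_num) (by norm_num) (by norm_num))
    (exp_neg_leJ (r := 0.689) 9 (by norm_num) (by norm_num) (by norm_num) (by norm_num))
    (exp_neg_leJ (r := 0.712) 4 (by norm_num) (by norm_num) (by norm_num) (by norm_num))
    (exp_neg_leJ (r := 0.99) 14 (by norm_num) (by norm_num) (by norm_num) (by norm_num))
    (by norm_num)) (by norm_num) hN hβ.le (by norm_num)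

private theorem JB7_k2b_b3_1 {β x y : ℝ} (hβ : 0 < β) (hN : β * 14.174 ≤ 1) (hx1 : 0.1481 ≤ x) (hx2 : x ≤ 0.3551)
    (hy1 : -0 ≤ y) (hy2 : y ≤ 0.418) (hsl : y ≤ 2.45 * x) : ‖HH β (x + y * I) - 1‖ ≤ 0.15 := by
  refine le_epsJ (C := 1.9776) (N0 := 14.174) (J_boxp 0.1481 0.3551 0 0.418 0.418 0.8143 0.5485 1.4618 1.6454 0.4824 3.7649 14.174 0.6736 2.436 1.352 1.2835 0.4071 0.3157 1.0589 3.8465 0.3843 0.6624 0.074 1.5476 0.003124 0.01141 0.0000003101 0.0000003101 0.00431 0.00008373 0.3507 0.0000003101 1.9776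
    hβ hN hx1 hx2 hy1 hy2 (by norm_num) (by norm_num) hsl (by norm_num) (by norm_num) (by norm_num) (by norm_num) (by norm_num) (by norm_num) (by norm_num) (by norm_num) (by norm_num) (by norm_num) (by norm_num) (by norm_num) (by norm_num) (by norm_num) (by norm_num) (by norm_num) (by norm_num) (by norm_num) (by norm_num) (by norm_num) (by norm_num)
    (cube_sqrt_geJ (s := 0.8806) (by norm_num) (by norm_num) (by norm_num) (by norm_num))
    (cube_sqrt_geJ (s := 0.9578) (by norm_num) (by norm_num) (by norm_num) (by norm_num))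
    (by norm_num) (by norm_num) (by norm_num) (by norm_num) (by norm_num) (by norm_num) (by norm_num) (by norm_num) (by norm_num) (by norm_num) (by norm_num) (by norm_num) (by norm_num) (by norm_num) (by norm_num) (by norm_num) (by norm_num) (by norm_num)
    (exp_neg_leJ (r := 0.77) 5 (by norm_num) (by norm_num) (by norm_num) (by norm_num))
    (exp_neg_leJ (r := 0.474) 4 (by norm_num) (by norm_num) (by norm_num) (by norm_num))
    (exp_neg_leJ (r := 0.99) 14 (by norm_num) (by norm_num) (by norm_num) (by norm_num))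
    (exp_neg_leJ (r := 0.99) 14 (by norm_num) (by norm_num) (by norm_num) (by norm_num))
    (exp_neg_leJ (r := 0.447) 5 (by norm_num) (by norm_num) (by norm_num) (by norm_num))
    (exp_neg_leJ (r := 0.388) 9 (by norm_num) (by norm_num) (by norm_num) (by norm_num))
    (exp_neg_leJ (r := 0.048) 1 (by norm_num) (by norm_num) (by norm_num) (by norm_num))
    (exp_neg_leJ (r := 0.99) 14 (by norm_num) (by norm_num) (by norm_num) (by norm_num))
    (by norm_num)) (by norm_num) hN hβ.le (by norm_num)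

private theorem JB7_k2b_b3_2 {β x y : ℝ} (hβ : 0 < β) (hN : β * 14.174 ≤ 1) (hx1 : 0.1706 ≤ x) (hx2 : x ≤ 0.2372)
    (hy1 : -0 ≤ y) (hy2 : y ≤ 0.428) (hsl : y ≤ 2.45 * x) : ‖HH β (x + y * I) - 1‖ ≤ 0.15 := by
  refine le_epsJ (C := 1.7401) (N0 := 14.174) (J_boxp 0.1706 0.2372 0 0.428 0.428 0.8301 0.4894 1.4476 1.5909 0.48 3.7649 14.174 0.5896 2.152 1.3 1.3288 0.415 0.3334 1.0666 3.8987 0.3942 0.6925 0.0762 1.7061 0.002796 0.008879 0.0000003101 0.0000003101 0.003748 0.00005472 0.3396 0.0000003101 1.7401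
    hβ hN hx1 hx2 hy1 hy2 (by norm_num) (by norm_num) hsl (by norm_num) (by norm_num) (by norm_num) (by norm_num) (by norm_num) (by norm_num) (by norm_num) (by norm_num) (by norm_num) (by norm_num) (by norm_num) (by norm_num) (by norm_num) (by norm_num) (by norm_num) (by norm_num) (by norm_num) (by norm_num) (by norm_num) (by norm_num) (by norm_num)
    (cube_sqrt_geJ (s := 0.8963) (by norm_num) (by norm_num) (by norm_num) (by norm_num))
    (cube_sqrt_geJ (s := 0.9632) (by norm_num) (by norm_num) (by norm_num) (by norm_num))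
    (by norm_num) (by norm_num) (by norm_num) (by norm_num) (by norm_num) (by norm_num) (by norm_num) (by norm_num) (by norm_num) (by norm_num) (by norm_num) (by norm_num) (by norm_num) (by norm_num) (by norm_num) (by norm_num) (by norm_num) (by norm_num)
    (exp_neg_leJ (r := 0.882) 5 (by norm_num) (by norm_num) (by norm_num) (by norm_num))
    (exp_neg_leJ (r := 0.725) 4 (by norm_num) (by norm_num) (by norm_num) (by norm_num))
    (exp_neg_leJ (r := 0.99) 14 (by norm_num) (by norm_num) (by norm_num) (by norm_num))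
    (exp_neg_leJ (r := 0.99) 14 (by norm_num) (by norm_num) (by norm_num) (by norm_num))
    (exp_neg_leJ (r := 0.587) 5 (by norm_num) (by norm_num) (by norm_num) (by norm_num))
    (exp_neg_leJ (r := 0.815) 9 (by norm_num) (by norm_num) (by norm_num) (by norm_num))
    (exp_neg_leJ (r := 0.08) 1 (by norm_num) (by norm_num) (by norm_num) (by norm_num))
    (exp_neg_leJ (r := 0.99) 14 (by norm_num) (by norm_num) (by norm_num) (by norm_num))
    (by norm_num)) (by norm_num) hN hβ.le (by norm_num)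

private theorem JB7_k2b_b3_3 {β x y : ℝ} (hβ : 0 < β) (hN : β * 14.174 ≤ 1) (hx1 : 0.1746 ≤ x) (hx2 : x ≤ 0.208)
    (hy1 : -0 ≤ y) (hy2 : y ≤ 0.433) (hsl : y ≤ 2.45 * x) : ‖HH β (x + y * I) - 1‖ ≤ 0.15 := by
  refine le_epsJ (C := 1.953) (N0 := 14.174) (J_boxp 0.1746 0.208 0 0.433 0.433 0.833 0.4804 1.4481 1.5829 0.4801 3.7649 14.174 0.5768 2.112 1.293 1.3401 0.4164 0.3364 1.068 3.9101 0.3956 0.6975 0.0627 1.715 0.002741 0.008508 0.0000003101 0.0000003101 0.003674 0.000051 0.4124 0.0000003101 1.953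
    hβ hN hx1 hx2 hy1 hy2 (by norm_num) (by norm_num) hsl (by norm_num) (by norm_num) (by norm_num) (by norm_num) (by norm_num) (by norm_num) (by norm_num) (by norm_num) (by norm_num) (by norm_num) (by norm_num) (by norm_num) (by norm_num) (by norm_num) (by norm_num) (by norm_num) (by norm_num) (by norm_num) (by norm_num) (by norm_num) (by norm_num)
    (cube_sqrt_geJ (s := 0.8987) (by norm_num) (by norm_num) (by norm_num) (by norm_num))
    (cube_sqrt_geJ (s := 0.964) (by norm_num) (by norm_num) (by norm_num) (by norm_num))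
    (by norm_num) (by norm_num) (by norm_num) (by norm_num) (by norm_num) (by norm_num) (by norm_num) (by norm_num) (by norm_num) (by norm_num) (by norm_num) (by norm_num) (by norm_num) (by norm_num) (by norm_num) (by norm_num) (by norm_num) (by norm_num)
    (exp_neg_leJ (r := 0.902) 5 (by norm_num) (by norm_num) (by norm_num) (by norm_num))
    (exp_neg_leJ (r := 0.768) 4 (by norm_num) (by norm_num) (by norm_num) (by norm_num))
    (exp_neg_leJ (r := 0.99) 14 (by norm_num) (by norm_num) (by norm_num) (by norm_num))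
    (exp_neg_leJ (r := 0.99) 14 (by norm_num) (by norm_num) (by norm_num) (by norm_num))
    (exp_neg_leJ (r := 0.607) 5 (by norm_num) (by norm_num) (by norm_num) (by norm_num))
    (exp_neg_leJ (r := 0.886) 9 (by norm_num) (by norm_num) (by norm_num) (by norm_num))
    (exp_neg_leJ (r := 0.888) 0 (by norm_num) (by norm_num) (by norm_num) (by norm_num))
    (exp_neg_leJ (r := 0.99) 14 (by norm_num) (by norm_num) (by norm_num) (by norm_num))
    (by norm_num)) (by norm_num) hN hβ.le (by norm_num)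

private theorem JB7_k2b_b3_4 {β x y : ℝ} (hβ : 0 < β) (hN : β * 14.174 ≤ 1) (hx1 : 0.1767 ≤ x) (hx2 : x ≤ 0.1915)
    (hy1 : -0 ≤ y) (hy2 : y ≤ 0.436) (hsl : y ≤ 2.45 * x) : ‖HH β (x + y * I) - 1‖ ≤ 0.15 := by
  refine le_epsJ (C := 2.119) (N0 := 14.174) (J_boxp 0.1767 0.1915 0 0.436 0.436 0.8344 0.4763 1.4488 1.5793 0.4802 3.7649 14.174 0.5709 2.094 1.289 1.3464 0.4171 0.3378 1.0687 3.9163 0.3963 0.7001 0.054 1.7162 0.002717 0.008349 0.0000003101 0.0000003101 0.003638 0.00004917 0.4659 0.0000003101 2.119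
    hβ hN hx1 hx2 hy1 hy2 (by norm_num) (by norm_num) hsl (by norm_num) (by norm_num) (by norm_num) (by norm_num) (by norm_num) (by norm_num) (by norm_num) (by norm_num) (by norm_num) (by norm_num) (by norm_num) (by norm_num) (by norm_num) (by norm_num) (by norm_num) (by norm_num) (by norm_num) (by norm_num) (by norm_num) (by norm_num) (by norm_num)
    (cube_sqrt_geJ (s := 0.8998) (by norm_num) (by norm_num) (by norm_num) (by norm_num))
    (cube_sqrt_geJ (s := 0.9644) (by norm_num) (by norm_num) (by norm_num) (by norm_num))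
    (by norm_num) (by norm_num) (by norm_num) (by norm_num) (by norm_num) (by norm_num) (by norm_num) (by norm_num) (by norm_num) (by norm_num) (by norm_num) (by norm_num) (by norm_num) (by norm_num) (by norm_num) (by norm_num) (by norm_num) (by norm_num)
    (exp_neg_leJ (r := 0.911) 5 (by norm_num) (by norm_num) (by norm_num) (by norm_num))
    (exp_neg_leJ (r := 0.787) 4 (by norm_num) (by norm_num) (by norm_num) (by norm_num))
    (exp_neg_leJ (r := 0.99) 14 (by norm_num) (by norm_num) (by norm_num) (by norm_num))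
    (exp_neg_leJ (r := 0.99) 14 (by norm_num) (by norm_num) (by norm_num) (by norm_num))
    (exp_neg_leJ (r := 0.617) 5 (by norm_num) (by norm_num) (by norm_num) (by norm_num))
    (exp_neg_leJ (r := 0.923) 9 (by norm_num) (by norm_num) (by norm_num) (by norm_num))
    (exp_neg_leJ (r := 0.765) 0 (by norm_num) (by norm_num) (by norm_num) (by norm_num))
    (exp_neg_leJ (r := 0.99) 14 (by norm_num) (by norm_num) (by norm_num) (by norm_num))
    (by norm_num)) (by norm_num) hN hβ.le (by norm_num)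

theorem JB7_k2b_c3 {κ t β : ℝ} (h : DomR κ t) (hβ : 0 < β) (hk1 : 0.57 ≤ κ) (hk2 : κ ≤ 0.73)
    (ht1 : 1.38 ≤ t + κ) (ht2 : t + κ ≤ 1.6) (hR0 : β * 10 ≤ κ) (hR : β * (6.75 * (1 + κ ^ 2)) ≤ κ) :
    ‖HH β (sg κ t) - 1‖ ≤ 0.15 := by
  have hN : β * 14.174 ≤ 1 := bNC hβ h.1 hk2 (by norm_num) (by norm_num) hR (by norm_num)
  have hy1 : 0.328 ≤ sy κ t := syR_ge h 0.57 0.73 1.38 0.328 1.38818 1.38819 0.62373 0.79882 hk1 hk2 (by linarith) (by norm_num) (by norm_num)
    (expn_ge (by norm_num) (by norm_num)) (expn_le (by norm_num) (by norm_num) (by norm_num)) (by norm_num)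
    (by norm_num) (by norm_num) (by norm_num) (by norm_num) (by norm_num) (by norm_num)
  have hy2 : sy κ t ≤ 0.436 := syR_ang2 h 0.57 0.73 1.6 1.175 0.3892 0.9233 0.436 0.64662 1.5465 hk1 hk2 (by linarith) (by norm_num) (by norm_num) (by norm_num)
    (cos_le_num (by norm_num)) (sin_le_num (by norm_num) (by norm_num)) (expm_le (by norm_num) (by norm_num) (by norm_num))
    (expn_ge (by norm_num) (by norm_num)) (by norm_num) (by norm_num) (by norm_num) (by norm_num) (by norm_num)
  rcases le_total (sy κ t) 0.363 with f0 | g0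
  · have hx1 : 0.1594 ≤ sx κ t := sx_lo h 0.57 0.363 0.363 0.69558 0.1594 hk1 (by norm_num) f0 (abs_le.2 ⟨by linarith, by linarith⟩) (expm_ge (by norm_num) (by norm_num) (by norm_num) (by norm_num)) (by norm_num) (by norm_num)
    have hx2 : sx κ t ≤ 0.4111 := sx_hi h 0.73 0.328 0.328 0.72037 0.4111 hk2 hy1 (by norm_num) (by rw [abs_of_nonneg (by linarith)]; linarith) (expm_le (by norm_num) (by norm_num) (by norm_num)) (by norm_num) (by norm_num)
    exact JB7_k2b_b3_0 hβ hN hx1 hx2 (by linarith) (by linarith)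
  rcases le_total (sy κ t) 0.418 with f1 | g1
  · have hsl : sy κ t ≤ 2.45 * sx κ t := sy_slope h 0.57 1.6 0.363 0.69559 hk1 (by norm_num) ht2 (by norm_num) g0 (expm_le (by norm_num) (by norm_num) (by norm_num)) (by norm_num)
    have hx1 : 0.1481 ≤ sx κ t := by linarith
    have hx2 : sx κ t ≤ 0.3551 := sx_hi h 0.73 0.363 0.363 0.69559 0.3551 hk2 g0 (by norm_num) (by rw [abs_of_nonneg (by linarith)]; linarith) (expm_le (by norm_num) (by norm_num) (by norm_num)) (by norm_num) (by norm_num)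
    exact JB7_k2b_b3_1 hβ hN hx1 hx2 (by linarith) (by linarith) hsl
  rcases le_total (sy κ t) 0.428 with f2 | g2
  · have hsl : sy κ t ≤ 2.45 * sx κ t := sy_slope h 0.57 1.6 0.418 0.65837 hk1 (by norm_num) ht2 (by norm_num) g1 (expm_le (by norm_num) (by norm_num) (by norm_num)) (by norm_num)
    have hx1 : 0.1706 ≤ sx κ t := by linarith
    have hx2 : sx κ t ≤ 0.2372 := sx_hi h 0.73 0.418 0.418 0.65837 0.2372 hk2 g1 (by norm_num) (by rw [abs_of_nonneg (by linarith)]; linarith) (expm_le (by norm_num) (by norm_num) (by norm_num)) (by norm_num) (by norm_num)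
    exact JB7_k2b_b3_2 hβ hN hx1 hx2 (by linarith) (by linarith) hsl
  rcases le_total (sy κ t) 0.433 with f3 | g3
  · have hsl : sy κ t ≤ 2.45 * sx κ t := sy_slope h 0.57 1.6 0.428 0.65182 hk1 (by norm_num) ht2 (by norm_num) g2 (expm_le (by norm_num) (by norm_num) (by norm_num)) (by norm_num)
    have hx1 : 0.1746 ≤ sx κ t := by linarith
    have hx2 : sx κ t ≤ 0.208 := sx_hi h 0.73 0.428 0.428 0.65182 0.208 hk2 g2 (by norm_num) (by rw [abs_of_nonneg (by linarith)]; linarith) (expm_le (by norm_num) (by norm_num) (by norm_num)) (by norm_num) (by norm_num)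
    exact JB7_k2b_b3_3 hβ hN hx1 hx2 (by linarith) (by linarith) hsl
  have hsl : sy κ t ≤ 2.45 * sx κ t := sy_slope h 0.57 1.6 0.433 0.64857 hk1 (by norm_num) ht2 (by norm_num) g3 (expm_le (by norm_num) (by norm_num) (by norm_num)) (by norm_num)
  have hx1 : 0.1767 ≤ sx κ t := by linarith
  have hx2 : sx κ t ≤ 0.1915 := sx_hi h 0.73 0.433 0.433 0.64857 0.1915 hk2 g3 (by norm_num) (by rw [abs_of_nonneg (by linarith)]; linarith) (expm_le (by norm_num) (by norm_num) (by norm_num)) (by norm_num) (by norm_num)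
  exact JB7_k2b_b3_4 hβ hN hx1 hx2 (by linarith) (by linarith) hsl

private theorem JB7_k2b_b4_0 {β x y : ℝ} (hβ : 0 < β) (hN : β * 14.011 ≤ 1) (hx1 : 0.1914 ≤ x) (hx2 : x ≤ 0.3298)
    (hy1 : -0 ≤ y) (hy2 : y ≤ 0.433) : ‖HH β (x + y * I) - 1‖ ≤ 0.15 := by
  refine le_epsJ (C := 1.5791) (N0 := 14.011) (J_boxp 0.1914 0.3298 0 0.433 0.433 0.8448 0.5443 1.4705 1.5618 0.4838 3.7432 14.011 0.6443 2.331 1.334 1.2932 0.4223 0.3316 1.0738 3.8554 0.4038 0.7208 0.0963 1.5749 0.002703 0.009606 0.0000003101 0.0000003101 0.003496 0.00004113 0.2596 0.0000003101 1.5791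
    hβ hN hx1 hx2 hy1 hy2 (by norm_num) (by norm_num) (by linarith) (by norm_num) (by norm_num) (by norm_num) (by norm_num) (by norm_num) (by norm_num) (by norm_num) (by norm_num) (by norm_num) (by norm_num) (by norm_num) (by norm_num) (by norm_num) (by norm_num) (by norm_num) (by norm_num) (by norm_num) (by norm_num) (by norm_num) (by norm_num) (by norm_num)
    (cube_sqrt_geJ (s := 0.8861) (by norm_num) (by norm_num) (by norm_num) (by norm_num))
    (cube_sqrt_geJ (s := 0.9597) (by norm_num) (by norm_num) (by norm_num) (by norm_num))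
    (by norm_num) (by norm_num) (by norm_num) (by norm_num) (by norm_num) (by norm_num) (by norm_num) (by norm_num) (by norm_num) (by norm_num) (by norm_num) (by norm_num) (by norm_num) (by norm_num) (by norm_num) (by norm_num) (by norm_num) (by norm_num)
    (exp_neg_leJ (r := 0.916) 5 (by norm_num) (by norm_num) (by norm_num) (by norm_num))
    (exp_neg_leJ (r := 0.646) 4 (by norm_num) (by norm_num) (by norm_num) (by norm_num))
    (exp_neg_leJ (r := 0.99) 14 (by norm_num) (by norm_num) (by norm_num) (by norm_num))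
    (exp_neg_leJ (r := 0.99) 14 (by norm_num) (by norm_num) (by norm_num) (by norm_num))
    (exp_neg_leJ (r := 0.657) 5 (by norm_num) (by norm_num) (by norm_num) (by norm_num))
    (exp_neg_leJ (r := 0.099) 10 (by norm_num) (by norm_num) (by norm_num) (by norm_num))
    (exp_neg_leJ (r := 0.349) 1 (by norm_num) (by norm_num) (by norm_num) (by norm_num))
    (exp_neg_leJ (r := 0.99) 14 (by norm_num) (by norm_num) (by norm_num) (by norm_num))
    (by norm_num)) (by norm_num) hN hβ.le (by norm_num)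

private theorem JB7_k2b_b4_1 {β x y : ℝ} (hβ : 0 < β) (hN : β * 14.011 ≤ 1) (hx1 : 0.1808 ≤ x) (hx2 : x ≤ 0.2356)
    (hy1 : -0 ≤ y) (hy2 : y ≤ 0.436) : ‖HH β (x + y * I) - 1‖ ≤ 0.15 := by
  refine le_epsJ (C := 2.006) (N0 := 14.011) (J_boxp 0.1808 0.2356 0 0.436 0.436 0.8373 0.4956 1.4552 1.5745 0.4813 3.7432 14.011 0.592 2.159 1.302 1.3295 0.4186 0.336 1.0701 3.8975 0.3983 0.7058 0.0622 1.672 0.002843 0.00904 0.0000003101 0.0000003101 0.003774 0.0000509 0.4194 0.0000003101 2.006
    hβ hN hx1 hx2 hy1 hy2 (by norm_num) (by norm_num) (by linarith) (by norm_num) (by norm_num) (by norm_num) (by norm_num) (by norm_num) (by norm_num) (by norm_num) (by norm_num) (by norm_num) (by norm_num) (by norm_num) (by norm_num) (by norm_num) (by norm_num) (by norm_num) (by norm_num) (by norm_num) (by norm_num) (by norm_num) (by norm_num) (by norm_num)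
    (cube_sqrt_geJ (s := 0.8959) (by norm_num) (by norm_num) (by norm_num) (by norm_num))
    (cube_sqrt_geJ (s := 0.963) (by norm_num) (by norm_num) (by norm_num) (by norm_num))
    (by norm_num) (by norm_num) (by norm_num) (by norm_num) (by norm_num) (by norm_num) (by norm_num) (by norm_num) (by norm_num) (by norm_num) (by norm_num) (by norm_num) (by norm_num) (by norm_num) (by norm_num) (by norm_num) (by norm_num) (by norm_num)
    (exp_neg_leJ (r := 0.865) 5 (by norm_num) (by norm_num) (by norm_num) (by norm_num))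
    (exp_neg_leJ (r := 0.707) 4 (by norm_num) (by norm_num) (by norm_num) (by norm_num))
    (exp_neg_leJ (r := 0.99) 14 (by norm_num) (by norm_num) (by norm_num) (by norm_num))
    (exp_neg_leJ (r := 0.99) 14 (by norm_num) (by norm_num) (by norm_num) (by norm_num))
    (exp_neg_leJ (r := 0.58) 5 (by norm_num) (by norm_num) (by norm_num) (by norm_num))
    (exp_neg_leJ (r := 0.888) 9 (by norm_num) (by norm_num) (by norm_num) (by norm_num))
    (exp_neg_leJ (r := 0.871) 0 (by norm_num) (by norm_num) (by norm_num) (by norm_num))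
    (exp_neg_leJ (r := 0.99) 14 (by norm_num) (by norm_num) (by norm_num) (by norm_num))
    (by norm_num)) (by norm_num) hN hβ.le (by norm_num)

theorem JB7_k2b_c4 {κ t β : ℝ} (h : DomR κ t) (hβ : 0 < β) (hk1 : 0.73 ≤ κ) (hk2 : κ ≤ 0.76)
    (ht1 : 1.38 ≤ t + κ) (ht2 : t + κ ≤ 1.6) (hR0 : β * 10 ≤ κ) (hR : β * (6.75 * (1 + κ ^ 2)) ≤ κ) :
    ‖HH β (sg κ t) - 1‖ ≤ 0.15 := by
  have hN : β * 14.011 ≤ 1 := bNC hβ h.1 hk2 (by norm_num) (by norm_num) hR (by norm_num)
  have hy1 : 0.393 ≤ sy κ t := syR_ge h 0.73 0.76 1.38 0.393 1.48141 1.48142 0.76604 0.79754 hk1 hk2 (by linarith) (by norm_num) (by norm_num)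
    (expn_ge (by norm_num) (by norm_num)) (expn_le (by norm_num) (by norm_num) (by norm_num)) (by norm_num)
    (by norm_num) (by norm_num) (by norm_num) (by norm_num) (by norm_num) (by norm_num)
  have hy2 : sy κ t ≤ 0.436 := syR_ang2 h 0.73 0.76 1.6 1.09 0.4648 0.887 0.436 0.64662 1.5465 hk1 hk2 (by linarith) (by norm_num) (by norm_num) (by norm_num)
    (cos_le_num (by norm_num)) (sin_le_num (by norm_num) (by norm_num)) (expm_le (by norm_num) (by norm_num) (by norm_num))
    (expn_ge (by norm_num) (by norm_num)) (by norm_num) (by norm_num) (by norm_num) (by norm_num) (by norm_num)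
  rcases le_total (sy κ t) 0.433 with f0 | g0
  · have hx1 : 0.1914 ≤ sx κ t := sx_lo h 0.73 0.433 0.433 0.64856 0.1914 hk1 (by norm_num) f0 (abs_le.2 ⟨by linarith, by linarith⟩) (expm_ge (by norm_num) (by norm_num) (by norm_num) (by norm_num)) (by norm_num) (by norm_num)
    have hx2 : sx κ t ≤ 0.3298 := sx_hi h 0.76 0.393 0.393 0.67503 0.3298 hk2 hy1 (by norm_num) (by rw [abs_of_nonneg (by linarith)]; linarith) (expm_le (by norm_num) (by norm_num) (by norm_num)) (by norm_num) (by norm_num)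
    exact JB7_k2b_b4_0 hβ hN hx1 hx2 (by linarith) (by linarith)
  have hx1 : 0.1808 ≤ sx κ t := sx_lo h 0.73 0.436 0.436 0.64661 0.1808 hk1 (by norm_num) hy2 (abs_le.2 ⟨by linarith, by linarith⟩) (expm_ge (by norm_num) (by norm_num) (by norm_num) (by norm_num)) (by norm_num) (by norm_num)
  have hx2 : sx κ t ≤ 0.2356 := sx_hi h 0.76 0.433 0.433 0.64857 0.2356 hk2 g0 (by norm_num) (by rw [abs_of_nonneg (by linarith)]; linarith) (expm_le (by norm_num) (by norm_num) (by norm_num)) (by norm_num) (by norm_num)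
  exact JB7_k2b_b4_1 hβ hN hx1 hx2 (by linarith) (by linarith)

private theorem JB7_k2b_b5_0 {β x y : ℝ} (hβ : 0 < β) (hN : β * 13.918 ≤ 1) (hx1 : 0.2079 ≤ x) (hx2 : x ≤ 0.3327)
    (hy1 : -0 ≤ y) (hy2 : y ≤ 0.442) : ‖HH β (x + y * I) - 1‖ ≤ 0.15 := by
  refine le_epsJ (C := 1.6524) (N0 := 13.918) (J_boxp 0.2079 0.3327 0 0.442 0.442 0.8564 0.5533 1.4799 1.535 0.4854 3.7307 13.918 0.6461 2.338 1.335 1.2921 0.4281 0.3359 1.0794 3.8521 0.4109 0.7427 0.0907 1.5411 0.002594 0.009332 0.0000003101 0.0000003101 0.00329 0.00003245 0.2831 0.0000003101 1.6524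
    hβ hN hx1 hx2 hy1 hy2 (by norm_num) (by norm_num) (by linarith) (by norm_num) (by norm_num) (by norm_num) (by norm_num) (by norm_num) (by norm_num) (by norm_num) (by norm_num) (by norm_num) (by norm_num) (by norm_num) (by norm_num) (by norm_num) (by norm_num) (by norm_num) (by norm_num) (by norm_num) (by norm_num) (by norm_num) (by norm_num) (by norm_num)
    (cube_sqrt_geJ (s := 0.8857) (by norm_num) (by norm_num) (by norm_num) (by norm_num))
    (cube_sqrt_geJ (s := 0.9596) (by norm_num) (by norm_num) (by norm_num) (by norm_num))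
    (by norm_num) (by norm_num) (by norm_num) (by norm_num) (by norm_num) (by norm_num) (by norm_num) (by norm_num) (by norm_num) (by norm_num) (by norm_num) (by norm_num) (by norm_num) (by norm_num) (by norm_num) (by norm_num) (by norm_num) (by norm_num)
    (exp_neg_leJ (r := 0.958) 5 (by norm_num) (by norm_num) (by norm_num) (by norm_num))
    (exp_neg_leJ (r := 0.675) 4 (by norm_num) (by norm_num) (by norm_num) (by norm_num))
    (exp_neg_leJ (r := 0.99) 14 (by norm_num) (by norm_num) (by norm_num) (by norm_num))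
    (exp_neg_leJ (r := 0.99) 14 (by norm_num) (by norm_num) (by norm_num) (by norm_num))
    (exp_neg_leJ (r := 0.718) 5 (by norm_num) (by norm_num) (by norm_num) (by norm_num))
    (exp_neg_leJ (r := 0.336) 10 (by norm_num) (by norm_num) (by norm_num) (by norm_num))
    (exp_neg_leJ (r := 0.262) 1 (by norm_num) (by norm_num) (by norm_num) (by norm_num))
    (exp_neg_leJ (r := 0.99) 14 (by norm_num) (by norm_num) (by norm_num) (by norm_num))
    (by norm_num)) (by norm_num) hN hβ.le (by norm_num)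

theorem JB7_k2b_c5 {κ t β : ℝ} (h : DomR κ t) (hβ : 0 < β) (hk1 : 0.76 ≤ κ) (hk2 : κ ≤ 0.78)
    (ht1 : 1.38 ≤ t + κ) (ht2 : t + κ ≤ 1.6) (hR0 : β * 10 ≤ κ) (hR : β * (6.75 * (1 + κ ^ 2)) ≤ κ) :
    ‖HH β (sg κ t) - 1‖ ≤ 0.15 := by
  have hN : β * 13.918 ≤ 1 := bNC hβ h.1 hk2 (by norm_num) (by norm_num) hR (by norm_num)
  have hy1 : 0.402 ≤ sy κ t := syR_ge h 0.76 0.78 1.38 0.402 1.49481 1.49482 0.7704 0.79069 hk1 hk2 (by linarith) (by norm_num) (by norm_num)
    (expn_ge (by norm_num) (by norm_num)) (expn_le (by norm_num) (by norm_num) (by norm_num)) (by norm_num)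
    (by norm_num) (by norm_num) (by norm_num) (by norm_num) (by norm_num) (by norm_num)
  have hy2 : sy κ t ≤ 0.442 := syR_ang2 h 0.76 0.78 1.6 1.078 0.4753 0.8814 0.442 0.64275 1.55581 hk1 hk2 (by linarith) (by norm_num) (by norm_num) (by norm_num)
    (cos_le_num (by norm_num)) (sin_le_num (by norm_num) (by norm_num)) (expm_le (by norm_num) (by norm_num) (by norm_num))
    (expn_ge (by norm_num) (by norm_num)) (by norm_num) (by norm_num) (by norm_num) (by norm_num) (by norm_num)
  have hx1 : 0.2079 ≤ sx κ t := sx_lo h 0.76 0.442 0.442 0.64274 0.2079 hk1 (by norm_num) hy2 (abs_le.2 ⟨by linarith, by linarith⟩) (expm_ge (by norm_num) (by norm_num) (by norm_num) (by norm_num)) (by norm_num) (by norm_num)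
  have hx2 : sx κ t ≤ 0.3327 := sx_hi h 0.78 0.402 0.402 0.66899 0.3327 hk2 hy1 (by norm_num) (by rw [abs_of_nonneg (by linarith)]; linarith) (expm_le (by norm_num) (by norm_num) (by norm_num)) (by norm_num) (by norm_num)
  exact JB7_k2b_b5_0 hβ hN hx1 hx2 (by linarith) (by linarith)

private theorem JB7_k2b_b6_0 {β x y : ℝ} (hβ : 0 < β) (hN : β * 13.837 ≤ 1) (hx1 : 0.2182 ≤ x) (hx2 : x ≤ 0.3435)
    (hy1 : -0 ≤ y) (hy2 : y ≤ 0.448) : ‖HH β (x + y * I) - 1‖ ≤ 0.15 := by
  refine le_epsJ (C := 1.7425) (N0 := 13.837) (J_boxp 0.2182 0.3435 0 0.448 0.448 0.8637 0.5646 1.4882 1.5198 0.4867 3.7199 13.837 0.6537 2.364 1.34 1.288 0.4318 0.3377 1.0829 3.8457 0.4153 0.7564 0.0856 1.5027 0.002553 0.00936 0.000000312 0.0000003101 0.003199 0.0000285 0.3061 0.0000003101 1.7425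
    hβ hN hx1 hx2 hy1 hy2 (by norm_num) (by norm_num) (by linarith) (by norm_num) (by norm_num) (by norm_num) (by norm_num) (by norm_num) (by norm_num) (by norm_num) (by norm_num) (by norm_num) (by norm_num) (by norm_num) (by norm_num) (by norm_num) (by norm_num) (by norm_num) (by norm_num) (by norm_num) (by norm_num) (by norm_num) (by norm_num) (by norm_num)
    (cube_sqrt_geJ (s := 0.8843) (by norm_num) (by norm_num) (by norm_num) (by norm_num))
    (cube_sqrt_geJ (s := 0.9591) (by norm_num) (by norm_num) (by norm_num) (by norm_num))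
    (by norm_num) (by norm_num) (by norm_num) (by norm_num) (by norm_num) (by norm_num) (by norm_num) (by norm_num) (by norm_num) (by norm_num) (by norm_num) (by norm_num) (by norm_num) (by norm_num) (by norm_num) (by norm_num) (by norm_num) (by norm_num)
    (exp_neg_leJ (r := 0.974) 5 (by norm_num) (by norm_num) (by norm_num) (by norm_num))
    (exp_neg_leJ (r := 0.672) 4 (by norm_num) (by norm_num) (by norm_num) (by norm_num))
    (exp_neg_leJ (r := 0.984) 14 (by norm_num) (by norm_num) (by norm_num) (by norm_num))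
    (exp_neg_leJ (r := 0.99) 14 (by norm_num) (by norm_num) (by norm_num) (by norm_num))
    (exp_neg_leJ (r := 0.746) 5 (by norm_num) (by norm_num) (by norm_num) (by norm_num))
    (exp_neg_leJ (r := 0.466) 10 (by norm_num) (by norm_num) (by norm_num) (by norm_num))
    (exp_neg_leJ (r := 0.184) 1 (by norm_num) (by norm_num) (by norm_num) (by norm_num))
    (exp_neg_leJ (r := 0.99) 14 (by norm_num) (by norm_num) (by norm_num) (by norm_num))
    (by norm_num)) (by norm_num) hN hβ.le (by norm_num)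

theorem JB7_k2b_c6 {κ t β : ℝ} (h : DomR κ t) (hβ : 0 < β) (hk1 : 0.78 ≤ κ) (hk2 : κ ≤ 0.8)
    (ht1 : 1.38 ≤ t + κ) (ht2 : t + κ ≤ 1.6) (hR0 : β * 10 ≤ κ) (hR : β * (6.75 * (1 + κ ^ 2)) ≤ κ) :
    ‖HH β (sg κ t) - 1‖ ≤ 0.15 := by
  have hN : β * 13.837 ≤ 1 := bNC hβ h.1 hk2 (by norm_num) (by norm_num) hR (by norm_num)
  have hy1 : 0.407 ≤ sy κ t := syR_ge h 0.78 0.8 1.38 0.407 1.5023 1.50231 0.76429 0.7839 hk1 hk2 (by linarith) (by norm_num) (by norm_num)
    (expn_ge (by norm_num) (by norm_num)) (expn_le (by norm_num) (by norm_num) (by norm_num)) (by norm_num)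
    (by norm_num) (by norm_num) (by norm_num) (by norm_num) (by norm_num) (by norm_num)
  have hy2 : sy κ t ≤ 0.448 := syR_ang2 h 0.78 0.8 1.6 1.067 0.4848 0.8761 0.448 0.63891 1.56517 hk1 hk2 (by linarith) (by norm_num) (by norm_num) (by norm_num)
    (cos_le_num (by norm_num)) (sin_le_num (by norm_num) (by norm_num)) (expm_le (by norm_num) (by norm_num) (by norm_num))
    (expn_ge (by norm_num) (by norm_num)) (by norm_num) (by norm_num) (by norm_num) (by norm_num) (by norm_num)
  have hx1 : 0.2182 ≤ sx κ t := sx_lo h 0.78 0.448 0.448 0.6389 0.2182 hk1 (by norm_num) hy2 (abs_le.2 ⟨by linarith, by linarith⟩) (expm_ge (by norm_num) (by norm_num) (by norm_num) (by norm_num)) (by norm_num) (by norm_num)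
  have hx2 : sx κ t ≤ 0.3435 := sx_hi h 0.8 0.407 0.407 0.66565 0.3435 hk2 hy1 (by norm_num) (by rw [abs_of_nonneg (by linarith)]; linarith) (expm_le (by norm_num) (by norm_num) (by norm_num)) (by norm_num) (by norm_num)
  exact JB7_k2b_b6_0 hβ hN hx1 hx2 (by linarith) (by linarith)

private theorem JB7_k2b_b7_0 {β x y : ℝ} (hβ : 0 < β) (hN : β * 13.766 ≤ 1) (hx1 : 0.228 ≤ x) (hx2 : x ≤ 0.3519)
    (hy1 : -0 ≤ y) (hy2 : y ≤ 0.454) : ‖HH β (x + y * I) - 1‖ ≤ 0.15 := by
  refine le_epsJ (C := 1.853) (N0 := 13.766) (J_boxp 0.228 0.3519 0 0.454 0.454 0.8706 0.5745 1.496 1.5057 0.488 3.7103 13.766 0.6599 2.386 1.344 1.2847 0.4352 0.3395 1.0863 3.8404 0.4194 0.7693 0.0794 1.4671 0.002513 0.009351 0.0000003213 0.0000003101 0.003115 0.00002518 0.3353 0.0000003101 1.853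
    hβ hN hx1 hx2 hy1 hy2 (by norm_num) (by norm_num) (by linarith) (by norm_num) (by norm_num) (by norm_num) (by norm_num) (by norm_num) (by norm_num) (by norm_num) (by norm_num) (by norm_num) (by norm_num) (by norm_num) (by norm_num) (by norm_num) (by norm_num) (by norm_num) (by norm_num) (by norm_num) (by norm_num) (by norm_num) (by norm_num) (by norm_num)
    (cube_sqrt_geJ (s := 0.8831) (by norm_num) (by norm_num) (by norm_num) (by norm_num))
    (cube_sqrt_geJ (s := 0.9587) (by norm_num) (by norm_num) (by norm_num) (by norm_num))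
    (by norm_num) (by norm_num) (by norm_num) (by norm_num) (by norm_num) (by norm_num) (by norm_num) (by norm_num) (by norm_num) (by norm_num) (by norm_num) (by norm_num) (by norm_num) (by norm_num) (by norm_num) (by norm_num) (by norm_num) (by norm_num)
    (exp_neg_leJ (r := 0.99) 5 (by norm_num) (by norm_num) (by norm_num) (by norm_num))
    (exp_neg_leJ (r := 0.673) 4 (by norm_num) (by norm_num) (by norm_num) (by norm_num))
    (exp_neg_leJ (r := 0.954) 14 (by norm_num) (by norm_num) (by norm_num) (by norm_num))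
    (exp_neg_leJ (r := 0.99) 14 (by norm_num) (by norm_num) (by norm_num) (by norm_num))
    (exp_neg_leJ (r := 0.773) 5 (by norm_num) (by norm_num) (by norm_num) (by norm_num))
    (exp_neg_leJ (r := 0.59) 10 (by norm_num) (by norm_num) (by norm_num) (by norm_num))
    (exp_neg_leJ (r := 0.093) 1 (by norm_num) (by norm_num) (by norm_num) (by norm_num))
    (exp_neg_leJ (r := 0.99) 14 (by norm_num) (by norm_num) (by norm_num) (by norm_num))
    (by norm_num)) (by norm_num) hN hβ.le (by norm_num)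

theorem JB7_k2b_c7 {κ t β : ℝ} (h : DomR κ t) (hβ : 0 < β) (hk1 : 0.8 ≤ κ) (hk2 : κ ≤ 0.82)
    (ht1 : 1.38 ≤ t + κ) (ht2 : t + κ ≤ 1.6) (hR0 : β * 10 ≤ κ) (hR : β * (6.75 * (1 + κ ^ 2)) ≤ κ) :
    ‖HH β (sg κ t) - 1‖ ≤ 0.15 := by
  have hN : β * 13.766 ≤ 1 := bNC hβ h.1 hk2 (by norm_num) (by norm_num) hR (by norm_num)
  have hy1 : 0.413 ≤ sy κ t := syR_ge h 0.8 0.82 1.38 0.413 1.51134 1.51135 0.76119 0.78024 hk1 hk2 (by linarith) (by norm_num) (by norm_num)
    (expn_ge (by norm_num) (by norm_num)) (expn_le (by norm_num) (by norm_num) (by norm_num)) (by norm_num)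
    (by norm_num) (by norm_num) (by norm_num) (by norm_num) (by norm_num) (by norm_num)
  have hy2 : sy κ t ≤ 0.454 := syR_ang2 h 0.8 0.82 1.6 1.058 0.4926 0.8717 0.454 0.63509 1.57459 hk1 hk2 (by linarith) (by norm_num) (by norm_num) (by norm_num)
    (cos_le_num (by norm_num)) (sin_le_num (by norm_num) (by norm_num)) (expm_le (by norm_num) (by norm_num) (by norm_num))
    (expn_ge (by norm_num) (by norm_num)) (by norm_num) (by norm_num) (by norm_num) (by norm_num) (by norm_num)
  have hx1 : 0.228 ≤ sx κ t := sx_lo h 0.8 0.454 0.454 0.63508 0.228 hk1 (by norm_num) hy2 (abs_le.2 ⟨by linarith, by linarith⟩) (expm_ge (by norm_num) (by norm_num) (by norm_num) (by norm_num)) (by norm_num) (by norm_num)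
  have hx2 : sx κ t ≤ 0.3519 := sx_hi h 0.82 0.413 0.413 0.66167 0.3519 hk2 hy1 (by norm_num) (by rw [abs_of_nonneg (by linarith)]; linarith) (expm_le (by norm_num) (by norm_num) (by norm_num)) (by norm_num) (by norm_num)
  exact JB7_k2b_b7_0 hβ hN hx1 hx2 (by linarith) (by linarith)

private theorem JB7_k2b_b8_0 {β x y : ℝ} (hβ : 0 < β) (hN : β * 13.705 ≤ 1) (hx1 : 0.2404 ≤ x) (hx2 : x ≤ 0.3622)
    (hy1 : -0 ≤ y) (hy2 : y ≤ 0.459) : ‖HH β (x + y * I) - 1‖ ≤ 0.15 := by
  refine le_epsJ (C := 1.8142) (N0 := 13.705) (J_boxp 0.2404 0.3622 0 0.459 0.459 0.8793 0.5847 1.5033 1.4871 0.4892 3.7021 13.705 0.665 2.405 1.347 1.2808 0.4396 0.3421 1.0905 3.8345 0.4249 0.786 0.0828 1.4406 0.00242 0.009212 0.0000003242 0.0000003101 0.002964 0.00002101 0.3218 0.0000003101 1.8142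
    hβ hN hx1 hx2 hy1 hy2 (by norm_num) (by norm_num) (by linarith) (by norm_num) (by norm_num) (by norm_num) (by norm_num) (by norm_num) (by norm_num) (by norm_num) (by norm_num) (by norm_num) (by norm_num) (by norm_num) (by norm_num) (by norm_num) (by norm_num) (by norm_num) (by norm_num) (by norm_num) (by norm_num) (by norm_num) (by norm_num) (by norm_num)
    (cube_sqrt_geJ (s := 0.8822) (by norm_num) (by norm_num) (by norm_num) (by norm_num))
    (cube_sqrt_geJ (s := 0.9584) (by norm_num) (by norm_num) (by norm_num) (by norm_num))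
    (by norm_num) (by norm_num) (by norm_num) (by norm_num) (by norm_num) (by norm_num) (by norm_num) (by norm_num) (by norm_num) (by norm_num) (by norm_num) (by norm_num) (by norm_num) (by norm_num) (by norm_num) (by norm_num) (by norm_num) (by norm_num)
    (exp_neg_leJ (r := 0.024) 6 (by norm_num) (by norm_num) (by norm_num) (by norm_num))
    (exp_neg_leJ (r := 0.688) 4 (by norm_num) (by norm_num) (by norm_num) (by norm_num))
    (exp_neg_leJ (r := 0.945) 14 (by norm_num) (by norm_num) (by norm_num) (by norm_num))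
    (exp_neg_leJ (r := 0.99) 14 (by norm_num) (by norm_num) (by norm_num) (by norm_num))
    (exp_neg_leJ (r := 0.823) 5 (by norm_num) (by norm_num) (by norm_num) (by norm_num))
    (exp_neg_leJ (r := 0.772) 10 (by norm_num) (by norm_num) (by norm_num) (by norm_num))
    (exp_neg_leJ (r := 0.134) 1 (by norm_num) (by norm_num) (by norm_num) (by norm_num))
    (exp_neg_leJ (r := 0.99) 14 (by norm_num) (by norm_num) (by norm_num) (by norm_num))
    (by norm_num)) (by norm_num) hN hβ.le (by norm_num)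

theorem JB7_k2b_c8 {κ t β : ℝ} (h : DomR κ t) (hβ : 0 < β) (hk1 : 0.82 ≤ κ) (hk2 : κ ≤ 0.84)
    (ht1 : 1.38 ≤ t + κ) (ht2 : t + κ ≤ 1.6) (hR0 : β * 10 ≤ κ) (hR : β * (6.75 * (1 + κ ^ 2)) ≤ κ) :
    ‖HH β (sg κ t) - 1‖ ≤ 0.15 := by
  have hN : β * 13.705 ≤ 1 := bNC hβ h.1 hk2 (by norm_num) (by norm_num) hR (by norm_num)
  have hy1 : 0.418 ≤ sy κ t := syR_ge h 0.82 0.84 1.38 0.418 1.51892 1.51893 0.75584 0.77429 hk1 hk2 (by linarith) (by norm_num) (by norm_num)
    (expn_ge (by norm_num) (by norm_num)) (expn_le (by norm_num) (by norm_num) (by norm_num)) (by norm_num)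
    (by norm_num) (by norm_num) (by norm_num) (by norm_num) (by norm_num) (by norm_num)
  have hy2 : sy κ t ≤ 0.459 := syR_ang2 h 0.82 0.84 1.6 1.044 0.5046 0.8647 0.459 0.63192 1.58248 hk1 hk2 (by linarith) (by norm_num) (by norm_num) (by norm_num)
    (cos_le_num (by norm_num)) (sin_le_num (by norm_num) (by norm_num)) (expm_le (by norm_num) (by norm_num) (by norm_num))
    (expn_ge (by norm_num) (by norm_num)) (by norm_num) (by norm_num) (by norm_num) (by norm_num) (by norm_num)
  have hx1 : 0.2404 ≤ sx κ t := sx_lo h 0.82 0.459 0.459 0.63191 0.2404 hk1 (by norm_num) hy2 (abs_le.2 ⟨by linarith, by linarith⟩) (expm_ge (by norm_num) (by norm_num) (by norm_num) (by norm_num)) (by norm_num) (by norm_num)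
  have hx2 : sx κ t ≤ 0.3622 := sx_hi h 0.84 0.418 0.418 0.65837 0.3622 hk2 hy1 (by norm_num) (by rw [abs_of_nonneg (by linarith)]; linarith) (expm_le (by norm_num) (by norm_num) (by norm_num)) (by norm_num) (by norm_num)
  exact JB7_k2b_b8_0 hβ hN hx1 hx2 (by linarith) (by linarith)

private theorem JB7_k2b_b9_0 {β x y : ℝ} (hβ : 0 < β) (hN : β * 13.653 ≤ 1) (hx1 : 0.2493 ≤ x) (hx2 : x ≤ 0.3741)
    (hy1 : -0 ≤ y) (hy2 : y ≤ 0.465) : ‖HH β (x + y * I) - 1‖ ≤ 0.15 := by
  refine le_epsJ (C := 1.9654) (N0 := 13.653) (J_boxp 0.2493 0.3741 0 0.465 0.465 0.8856 0.5969 1.5121 1.4755 0.4906 3.695 13.653 0.6741 2.438 1.352 1.2762 0.4427 0.3433 1.0936 3.8275 0.4286 0.7977 0.0749 1.397 0.002373 0.009222 0.000000329 0.0000003101 0.002883 0.00001869 0.3599 0.0000003101 1.9654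
    hβ hN hx1 hx2 hy1 hy2 (by norm_num) (by norm_num) (by linarith) (by norm_num) (by norm_num) (by norm_num) (by norm_num) (by norm_num) (by norm_num) (by norm_num) (by norm_num) (by norm_num) (by norm_num) (by norm_num) (by norm_num) (by norm_num) (by norm_num) (by norm_num) (by norm_num) (by norm_num) (by norm_num) (by norm_num) (by norm_num) (by norm_num)
    (cube_sqrt_geJ (s := 0.8805) (by norm_num) (by norm_num) (by norm_num) (by norm_num))
    (cube_sqrt_geJ (s := 0.9578) (by norm_num) (by norm_num) (by norm_num) (by norm_num))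
    (by norm_num) (by norm_num) (by norm_num) (by norm_num) (by norm_num) (by norm_num) (by norm_num) (by norm_num) (by norm_num) (by norm_num) (by norm_num) (by norm_num) (by norm_num) (by norm_num) (by norm_num) (by norm_num) (by norm_num) (by norm_num)
    (exp_neg_leJ (r := 0.044) 6 (by norm_num) (by norm_num) (by norm_num) (by norm_num))
    (exp_neg_leJ (r := 0.687) 4 (by norm_num) (by norm_num) (by norm_num) (by norm_num))
    (exp_neg_leJ (r := 0.93) 14 (by norm_num) (by norm_num) (by norm_num) (by norm_num))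
    (exp_neg_leJ (r := 0.99) 14 (by norm_num) (by norm_num) (by norm_num) (by norm_num))
    (exp_neg_leJ (r := 0.851) 5 (by norm_num) (by norm_num) (by norm_num) (by norm_num))
    (exp_neg_leJ (r := 0.89) 10 (by norm_num) (by norm_num) (by norm_num) (by norm_num))
    (exp_neg_leJ (r := 0.022) 1 (by norm_num) (by norm_num) (by norm_num) (by norm_num))
    (exp_neg_leJ (r := 0.99) 14 (by norm_num) (by norm_num) (by norm_num) (by norm_num))
    (by norm_num)) (by norm_num) hN hβ.le (by norm_num)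

theorem JB7_k2b_c9 {κ t β : ℝ} (h : DomR κ t) (hβ : 0 < β) (hk1 : 0.84 ≤ κ) (hk2 : κ ≤ 0.86)
    (ht1 : 1.38 ≤ t + κ) (ht2 : t + κ ≤ 1.6) (hR0 : β * 10 ≤ κ) (hR : β * (6.75 * (1 + κ ^ 2)) ≤ κ) :
    ‖HH β (sg κ t) - 1‖ ≤ 0.15 := by
  have hN : β * 13.653 ≤ 1 := bNC hβ h.1 hk2 (by norm_num) (by norm_num) hR (by norm_num)
  have hy1 : 0.422 ≤ sy κ t := syR_ge h 0.84 0.86 1.38 0.422 1.525 1.52501 0.74831 0.76614 hk1 hk2 (by linarith) (by norm_num) (by norm_num)
    (expn_ge (by norm_num) (by norm_num)) (expn_le (by norm_num) (by norm_num) (by norm_num)) (by norm_num)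
    (by norm_num) (by norm_num) (by norm_num) (by norm_num) (by norm_num) (by norm_num)
  have hy2 : sy κ t ≤ 0.465 := syR_ang2 h 0.84 0.86 1.6 1.036 0.5114 0.8607 0.465 0.62814 1.59201 hk1 hk2 (by linarith) (by norm_num) (by norm_num) (by norm_num)
    (cos_le_num (by norm_num)) (sin_le_num (by norm_num) (by norm_num)) (expm_le (by norm_num) (by norm_num) (by norm_num))
    (expn_ge (by norm_num) (by norm_num)) (by norm_num) (by norm_num) (by norm_num) (by norm_num) (by norm_num)
  have hx1 : 0.2493 ≤ sx κ t := sx_lo h 0.84 0.465 0.465 0.62813 0.2493 hk1 (by norm_num) hy2 (abs_le.2 ⟨by linarith, by linarith⟩) (expm_ge (by norm_num) (by norm_num) (by norm_num) (by norm_num)) (by norm_num) (by norm_num)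
  have hx2 : sx κ t ≤ 0.3741 := sx_hi h 0.86 0.422 0.422 0.65574 0.3741 hk2 hy1 (by norm_num) (by rw [abs_of_nonneg (by linarith)]; linarith) (expm_le (by norm_num) (by norm_num) (by norm_num)) (by norm_num) (by norm_num)
  exact JB7_k2b_b9_0 hβ hN hx1 hx2 (by linarith) (by linarith)

private theorem JB7_k2b_b10_0 {β x y : ℝ} (hβ : 0 < β) (hN : β * 13.61 ≤ 1) (hx1 : 0.2607 ≤ x) (hx2 : x ≤ 0.3839)
    (hy1 : -0 ≤ y) (hy2 : y ≤ 0.47) : ‖HH β (x + y * I) - 1‖ ≤ 0.15 := by
  refine le_epsJ (C := 1.9569) (N0 := 13.61) (J_boxp 0.2607 0.3839 0 0.47 0.47 0.8936 0.6069 1.5194 1.4593 0.4918 3.6892 13.61 0.6792 2.456 1.356 1.2724 0.4467 0.3456 1.0975 3.8218 0.4337 0.813 0.0762 1.369 0.002291 0.009076 0.0000003271 0.0000003101 0.002741 0.00001567 0.3546 0.0000003101 1.9569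
    hβ hN hx1 hx2 hy1 hy2 (by norm_num) (by norm_num) (by linarith) (by norm_num) (by norm_num) (by norm_num) (by norm_num) (by norm_num) (by norm_num) (by norm_num) (by norm_num) (by norm_num) (by norm_num) (by norm_num) (by norm_num) (by norm_num) (by norm_num) (by norm_num) (by norm_num) (by norm_num) (by norm_num) (by norm_num) (by norm_num) (by norm_num)
    (cube_sqrt_geJ (s := 0.8795) (by norm_num) (by norm_num) (by norm_num) (by norm_num))
    (cube_sqrt_geJ (s := 0.9575) (by norm_num) (by norm_num) (by norm_num) (by norm_num))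
    (by norm_num) (by norm_num) (by norm_num) (by norm_num) (by norm_num) (by norm_num) (by norm_num) (by norm_num) (by norm_num) (by norm_num) (by norm_num) (by norm_num) (by norm_num) (by norm_num) (by norm_num) (by norm_num) (by norm_num) (by norm_num)
    (exp_neg_leJ (r := 0.079) 6 (by norm_num) (by norm_num) (by norm_num) (by norm_num))
    (exp_neg_leJ (r := 0.703) 4 (by norm_num) (by norm_num) (by norm_num) (by norm_num))
    (exp_neg_leJ (r := 0.936) 14 (by norm_num) (by norm_num) (by norm_num) (by norm_num))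
    (exp_neg_leJ (r := 0.99) 14 (by norm_num) (by norm_num) (by norm_num) (by norm_num))
    (exp_neg_leJ (r := 0.902) 5 (by norm_num) (by norm_num) (by norm_num) (by norm_num))
    (exp_neg_leJ (r := 0.064) 11 (by norm_num) (by norm_num) (by norm_num) (by norm_num))
    (exp_neg_leJ (r := 0.037) 1 (by norm_num) (by norm_num) (by norm_num) (by norm_num))
    (exp_neg_leJ (r := 0.99) 14 (by norm_num) (by norm_num) (by norm_num) (by norm_num))
    (by norm_num)) (by norm_num) hN hβ.le (by norm_num)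

theorem JB7_k2b_c10 {κ t β : ℝ} (h : DomR κ t) (hβ : 0 < β) (hk1 : 0.86 ≤ κ) (hk2 : κ ≤ 0.88)
    (ht1 : 1.38 ≤ t + κ) (ht2 : t + κ ≤ 1.6) (hR0 : β * 10 ≤ κ) (hR : β * (6.75 * (1 + κ ^ 2)) ≤ κ) :
    ‖HH β (sg κ t) - 1‖ ≤ 0.15 := by
  have hN : β * 13.61 ≤ 1 := bNC hβ h.1 hk2 (by norm_num) (by norm_num) hR (by norm_num)
  have hy1 : 0.427 ≤ sy κ t := syR_ge h 0.86 0.88 1.38 0.427 1.53265 1.53266 0.74368 0.76099 hk1 hk2 (by linarith) (by norm_num) (by norm_num)
    (expn_ge (by norm_num) (by norm_num)) (expn_le (by norm_num) (by norm_num) (by norm_num)) (by norm_num)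
    (by norm_num) (by norm_num) (by norm_num) (by norm_num) (by norm_num) (by norm_num)
  have hy2 : sy κ t ≤ 0.47 := syR_ang2 h 0.86 0.88 1.6 1.024 0.5216 0.8545 0.47 0.62501 1.59999 hk1 hk2 (by linarith) (by norm_num) (by norm_num) (by norm_num)
    (cos_le_num (by norm_num)) (sin_le_num (by norm_num) (by norm_num)) (expm_le (by norm_num) (by norm_num) (by norm_num))
    (expn_ge (by norm_num) (by norm_num)) (by norm_num) (by norm_num) (by norm_num) (by norm_num) (by norm_num)
  have hx1 : 0.2607 ≤ sx κ t := sx_lo h 0.86 0.47 0.47 0.625 0.2607 hk1 (by norm_num) hy2 (abs_le.2 ⟨by linarith, by linarith⟩) (expm_ge (by norm_num) (by norm_num) (by norm_num) (by norm_num)) (by norm_num) (by norm_num)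
  have hx2 : sx κ t ≤ 0.3839 := sx_hi h 0.88 0.427 0.427 0.65247 0.3839 hk2 hy1 (by norm_num) (by rw [abs_of_nonneg (by linarith)]; linarith) (expm_le (by norm_num) (by norm_num) (by norm_num)) (by norm_num) (by norm_num)
  exact JB7_k2b_b10_0 hβ hN hx1 hx2 (by linarith) (by linarith)

private theorem JB7_k2b_b11_0 {β x y : ℝ} (hβ : 0 < β) (hN : β * 13.574 ≤ 1) (hx1 : 0.2717 ≤ x) (hx2 : x ≤ 0.3935)
    (hy1 : -0 ≤ y) (hy2 : y ≤ 0.475) : ‖HH β (x + y * I) - 1‖ ≤ 0.15 := by
  refine le_epsJ (C := 1.9613) (N0 := 13.574) (J_boxp 0.2717 0.3935 0 0.475 0.475 0.9013 0.6169 1.5266 1.444 0.493 3.6843 13.574 0.6845 2.476 1.359 1.2687 0.4506 0.3478 1.1012 3.8161 0.4385 0.8277 0.0768 1.3403 0.002208 0.008915 0.0000003235 0.0000003101 0.002609 0.00001321 0.3528 0.0000003101 1.9613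
    hβ hN hx1 hx2 hy1 hy2 (by norm_num) (by norm_num) (by linarith) (by norm_num) (by norm_num) (by norm_num) (by norm_num) (by norm_num) (by norm_num) (by norm_num) (by norm_num) (by norm_num) (by norm_num) (by norm_num) (by norm_num) (by norm_num) (by norm_num) (by norm_num) (by norm_num) (by norm_num) (by norm_num) (by norm_num) (by norm_num) (by norm_num)
    (cube_sqrt_geJ (s := 0.8785) (by norm_num) (by norm_num) (by norm_num) (by norm_num))
    (cube_sqrt_geJ (s := 0.9571) (by norm_num) (by norm_num) (by norm_num) (by norm_num))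
    (by norm_num) (by norm_num) (by norm_num) (by norm_num) (by norm_num) (by norm_num) (by norm_num) (by norm_num) (by norm_num) (by norm_num) (by norm_num) (by norm_num) (by norm_num) (by norm_num) (by norm_num) (by norm_num) (by norm_num) (by norm_num)
    (exp_neg_leJ (r := 0.116) 6 (by norm_num) (by norm_num) (by norm_num) (by norm_num))
    (exp_neg_leJ (r := 0.721) 4 (by norm_num) (by norm_num) (by norm_num) (by norm_num))
    (exp_neg_leJ (r := 0.947) 14 (by norm_num) (by norm_num) (by norm_num) (by norm_num))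
    (exp_neg_leJ (r := 0.99) 14 (by norm_num) (by norm_num) (by norm_num) (by norm_num))
    (exp_neg_leJ (r := 0.952) 5 (by norm_num) (by norm_num) (by norm_num) (by norm_num))
    (exp_neg_leJ (r := 0.235) 11 (by norm_num) (by norm_num) (by norm_num) (by norm_num))
    (exp_neg_leJ (r := 0.042) 1 (by norm_num) (by norm_num) (by norm_num) (by norm_num))
    (exp_neg_leJ (r := 0.99) 14 (by norm_num) (by norm_num) (by norm_num) (by norm_num))
    (by norm_num)) (by norm_num) hN hβ.le (by norm_num)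

theorem JB7_k2b_c11 {κ t β : ℝ} (h : DomR κ t) (hβ : 0 < β) (hk1 : 0.88 ≤ κ) (hk2 : κ ≤ 0.9)
    (ht1 : 1.38 ≤ t + κ) (ht2 : t + κ ≤ 1.6) (hR0 : β * 10 ≤ κ) (hR : β * (6.75 * (1 + κ ^ 2)) ≤ κ) :
    ‖HH β (sg κ t) - 1‖ ≤ 0.15 := by
  have hN : β * 13.574 ≤ 1 := bNC hβ h.1 hk2 (by norm_num) (by norm_num) hR (by norm_num)
  have hy1 : 0.432 ≤ sy κ t := syR_ge h 0.88 0.9 1.38 0.432 1.54033 1.54034 0.73935 0.75617 hk1 hk2 (by linarith) (by norm_num) (by norm_num)
    (expn_ge (by norm_num) (by norm_num)) (expn_le (by norm_num) (by norm_num) (by norm_num)) (by norm_num)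
    (by norm_num) (by norm_num) (by norm_num) (by norm_num) (by norm_num) (by norm_num)
  have hy2 : sy κ t ≤ 0.475 := syR_ang2 h 0.88 0.9 1.6 1.012 0.5317 0.8482 0.475 0.62189 1.60801 hk1 hk2 (by linarith) (by norm_num) (by norm_num) (by norm_num)
    (cos_le_num (by norm_num)) (sin_le_num (by norm_num) (by norm_num)) (expm_le (by norm_num) (by norm_num) (by norm_num))
    (expn_ge (by norm_num) (by norm_num)) (by norm_num) (by norm_num) (by norm_num) (by norm_num) (by norm_num)
  have hx1 : 0.2717 ≤ sx κ t := sx_lo h 0.88 0.475 0.475 0.62188 0.2717 hk1 (by norm_num) hy2 (abs_le.2 ⟨by linarith, by linarith⟩) (expm_ge (by norm_num) (by norm_num) (by norm_num) (by norm_num)) (by norm_num) (by norm_num)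
  have hx2 : sx κ t ≤ 0.3935 := sx_hi h 0.9 0.432 0.432 0.64921 0.3935 hk2 hy1 (by norm_num) (by rw [abs_of_nonneg (by linarith)]; linarith) (expm_le (by norm_num) (by norm_num) (by norm_num)) (by norm_num) (by norm_num)
  exact JB7_k2b_b11_0 hβ hN hx1 hx2 (by linarith) (by linarith)
end Sok
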