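import Pool.Agent.Lib.MP_816dec_an.JBG2

/-!
MP_816dec_an (A3, row R1): tables b = 7, real points.
-/

set_option autoImplicit false
set_option maxHeartbeats 4000000

open Complex Set

namespace Sok

private theorem JB7_k2b_b12_0 {β x y : ℝ} (hβ : 0 < β) (hN : β * 13.546 ≤ 1) (hx1 : 0.2823 ≤ x) (hx2 : x ≤ 0.4048)
    (hy1 : -0 ≤ y) (hy2 : y ≤ 0.48) : ‖HH β (x + y * I) - 1‖ ≤ 0.15 := by
  refine le_epsJ (C := 1.9828) (N0 := 13.546) (J_boxp 0.2823 0.4048 0 0.48 0.48 0.9088 0.628 1.5344 1.4298 0.4942 3.6805 13.546 0.6911 2.501 1.363 1.2644 0.4543 0.3497 1.1049 3.8097 0.4431 0.8419 0.0765 1.3077 0.002128 0.008774 0.0000003175 0.0000003101 0.002474 0.00001116 0.3549 0.0000003101 1.9828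
    hβ hN hx1 hx2 hy1 hy2 (by norm_num) (by norm_num) (by linarith) (by norm_num) (by norm_num) (by norm_num) (by norm_num) (by norm_num) (by norm_num) (by norm_num) (by norm_num) (by norm_num) (by norm_num) (by norm_num) (by norm_num) (by norm_num) (by norm_num) (by norm_num) (by norm_num) (by norm_num) (by norm_num) (by norm_num) (by norm_num) (by norm_num)
    (cube_sqrt_geJ (s := 0.8772) (by norm_num) (by norm_num) (by norm_num) (by norm_num))
    (cube_sqrt_geJ (s := 0.9567) (by norm_num) (by norm_num) (by norm_num) (by norm_num))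
    (by norm_num) (by norm_num) (by norm_num) (by norm_num) (by norm_num) (by norm_num) (by norm_num) (by norm_num) (by norm_num) (by norm_num) (by norm_num) (by norm_num) (by norm_num) (by norm_num) (by norm_num) (by norm_num) (by norm_num) (by norm_num)
    (exp_neg_leJ (r := 0.153) 6 (by norm_num) (by norm_num) (by norm_num) (by norm_num))
    (exp_neg_leJ (r := 0.737) 4 (by norm_num) (by norm_num) (by norm_num) (by norm_num))
    (exp_neg_leJ (r := 0.966) 14 (by norm_num) (by norm_num) (by norm_num) (by norm_num))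
    (exp_neg_leJ (r := 0.99) 14 (by norm_num) (by norm_num) (by norm_num) (by norm_num))
    (exp_neg_leJ (r := 0.002) 6 (by norm_num) (by norm_num) (by norm_num) (by norm_num))
    (exp_neg_leJ (r := 0.404) 11 (by norm_num) (by norm_num) (by norm_num) (by norm_num))
    (exp_neg_leJ (r := 0.036) 1 (by norm_num) (by norm_num) (by norm_num) (by norm_num))
    (exp_neg_leJ (r := 0.99) 14 (by norm_num) (by norm_num) (by norm_num) (by norm_num))
    (by norm_num)) (by norm_num) hN hβ.le (by norm_num)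

theorem JB7_k2b_c12 {κ t β : ℝ} (h : DomR κ t) (hβ : 0 < β) (hk1 : 0.9 ≤ κ) (hk2 : κ ≤ 0.92)
    (ht1 : 1.38 ≤ t + κ) (ht2 : t + κ ≤ 1.6) (hR0 : β * 10 ≤ κ) (hR : β * (6.75 * (1 + κ ^ 2)) ≤ κ) :
    ‖HH β (sg κ t) - 1‖ ≤ 0.15 := by
  have hN : β * 13.546 ≤ 1 := bNC hβ h.1 hk2 (by norm_num) (by norm_num) hR (by norm_num)
  have hy1 : 0.436 ≤ sy κ t := syR_ge h 0.9 0.92 1.38 0.436 1.5465 1.54651 0.7329 0.7492 hk1 hk2 (by linarith) (by norm_num) (by norm_num)
    (expn_ge (by norm_num) (by norm_num)) (expn_le (by norm_num) (by norm_num) (by norm_num)) (by norm_num)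
    (by norm_num) (by norm_num) (by norm_num) (by norm_num) (by norm_num) (by norm_num)
  have hy2 : sy κ t ≤ 0.48 := syR_ang2 h 0.9 0.92 1.6 1.002 0.54 0.8428 0.48 0.61879 1.61607 hk1 hk2 (by linarith) (by norm_num) (by norm_num) (by norm_num)
    (cos_le_num (by norm_num)) (sin_le_num (by norm_num) (by norm_num)) (expm_le (by norm_num) (by norm_num) (by norm_num))
    (expn_ge (by norm_num) (by norm_num)) (by norm_num) (by norm_num) (by norm_num) (by norm_num) (by norm_num)
  have hx1 : 0.2823 ≤ sx κ t := sx_lo h 0.9 0.48 0.48 0.61878 0.2823 hk1 (by norm_num) hy2 (abs_le.2 ⟨by linarith, by linarith⟩) (expm_ge (by norm_num) (by norm_num) (by norm_num) (by norm_num)) (by norm_num) (by norm_num)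
  have hx2 : sx κ t ≤ 0.4048 := sx_hi h 0.92 0.436 0.436 0.64662 0.4048 hk2 hy1 (by norm_num) (by rw [abs_of_nonneg (by linarith)]; linarith) (expm_le (by norm_num) (by norm_num) (by norm_num)) (by norm_num) (by norm_num)
  exact JB7_k2b_b12_0 hβ hN hx1 hx2 (by linarith) (by linarith)

private theorem JB7_k2b_b13_0 {β x y : ℝ} (hβ : 0 < β) (hN : β * 13.525 ≤ 1) (hx1 : 0.2926 ≤ x) (hx2 : x ≤ 0.4159)
    (hy1 : -0 ≤ y) (hy2 : y ≤ 0.485) : ‖HH β (x + y * I) - 1‖ ≤ 0.15 := by
  refine le_epsJ (C := 2.0154) (N0 := 13.525) (J_boxp 0.2926 0.4159 0 0.485 0.485 0.916 0.639 1.5422 1.4166 0.4955 3.6777 13.525 0.6976 2.526 1.367 1.2601 0.4579 0.3514 1.1084 3.8033 0.4476 0.8556 0.0757 1.2749 0.002044 0.008644 0.0000003101 0.0000003101 0.002351 0.000009439 0.3596 0.0000003101 2.0154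
    hβ hN hx1 hx2 hy1 hy2 (by norm_num) (by norm_num) (by linarith) (by norm_num) (by norm_num) (by norm_num) (by norm_num) (by norm_num) (by norm_num) (by norm_num) (by norm_num) (by norm_num) (by norm_num) (by norm_num) (by norm_num) (by norm_num) (by norm_num) (by norm_num) (by norm_num) (by norm_num) (by norm_num) (by norm_num) (by norm_num) (by norm_num)
    (cube_sqrt_geJ (s := 0.876) (by norm_num) (by norm_num) (by norm_num) (by norm_num))
    (cube_sqrt_geJ (s := 0.9563) (by norm_num) (by norm_num) (by norm_num) (by norm_num))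
    (by norm_num) (by norm_num) (by norm_num) (by norm_num) (by norm_num) (by norm_num) (by norm_num) (by norm_num) (by norm_num) (by norm_num) (by norm_num) (by norm_num) (by norm_num) (by norm_num) (by norm_num) (by norm_num) (by norm_num) (by norm_num)
    (exp_neg_leJ (r := 0.193) 6 (by norm_num) (by norm_num) (by norm_num) (by norm_num))
    (exp_neg_leJ (r := 0.752) 4 (by norm_num) (by norm_num) (by norm_num) (by norm_num))
    (exp_neg_leJ (r := 0.99) 14 (by norm_num) (by norm_num) (by norm_num) (by norm_num))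
    (exp_neg_leJ (r := 0.99) 14 (by norm_num) (by norm_num) (by norm_num) (by norm_num))
    (exp_neg_leJ (r := 0.053) 6 (by norm_num) (by norm_num) (by norm_num) (by norm_num))
    (exp_neg_leJ (r := 0.571) 11 (by norm_num) (by norm_num) (by norm_num) (by norm_num))
    (exp_neg_leJ (r := 0.023) 1 (by norm_num) (by norm_num) (by norm_num) (by norm_num))
    (exp_neg_leJ (r := 0.99) 14 (by norm_num) (by norm_num) (by norm_num) (by norm_num))
    (by norm_num)) (by norm_num) hN hβ.le (by norm_num)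

theorem JB7_k2b_c13 {κ t β : ℝ} (h : DomR κ t) (hβ : 0 < β) (hk1 : 0.92 ≤ κ) (hk2 : κ ≤ 0.94)
    (ht1 : 1.38 ≤ t + κ) (ht2 : t + κ ≤ 1.6) (hR0 : β * 10 ≤ κ) (hR : β * (6.75 * (1 + κ ^ 2)) ≤ κ) :
    ‖HH β (sg κ t) - 1‖ ≤ 0.15 := by
  have hN : β * 13.525 ≤ 1 := bNC hβ h.1 hk2 (by norm_num) (by norm_num) hR (by norm_num)
  have hy1 : 0.44 ≤ sy κ t := syR_ge h 0.92 0.94 1.38 0.44 1.5527 1.55271 0.72679 0.74261 hk1 hk2 (by linarith) (by norm_num) (by norm_num)
    (expn_ge (by norm_num) (by norm_num)) (expn_le (by norm_num) (by norm_num) (by norm_num)) (by norm_num)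
    (by norm_num) (by norm_num) (by norm_num) (by norm_num) (by norm_num) (by norm_num)
  have hy2 : sy κ t ≤ 0.485 := syR_ang2 h 0.92 0.94 1.6 0.993 0.5475 0.8379 0.485 0.6157 1.62417 hk1 hk2 (by linarith) (by norm_num) (by norm_num) (by norm_num)
    (cos_le_num (by norm_num)) (sin_le_num (by norm_num) (by norm_num)) (expm_le (by norm_num) (by norm_num) (by norm_num))
    (expn_ge (by norm_num) (by norm_num)) (by norm_num) (by norm_num) (by norm_num) (by norm_num) (by norm_num)
  have hx1 : 0.2926 ≤ sx κ t := sx_lo h 0.92 0.485 0.485 0.61569 0.2926 hk1 (by norm_num) hy2 (abs_le.2 ⟨by linarith, by linarith⟩) (expm_ge (by norm_num) (by norm_num) (by norm_num) (by norm_num)) (by norm_num) (by norm_num)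
  have hx2 : sx κ t ≤ 0.4159 := sx_hi h 0.94 0.44 0.44 0.64404 0.4159 hk2 hy1 (by norm_num) (by rw [abs_of_nonneg (by linarith)]; linarith) (expm_le (by norm_num) (by norm_num) (by norm_num)) (by norm_num) (by norm_num)
  exact JB7_k2b_b13_0 hβ hN hx1 hx2 (by linarith) (by linarith)

private theorem JB7_k2b_b14_0 {β x y : ℝ} (hβ : 0 < β) (hN : β * 13.511 ≤ 1) (hx1 : 0.3183 ≤ x) (hx2 : x ≤ 0.4268)
    (hy1 : -0 ≤ y) (hy2 : y ≤ 0.484) : ‖HH β (x + y * I) - 1‖ ≤ 0.15 := by
  refine le_epsJ (C := 1.2943) (N0 := 13.511) (J_boxp 0.3183 0.4268 0 0.484 0.484 0.9341 0.6454 1.5442 1.3765 0.4958 3.6758 13.511 0.691 2.501 1.363 1.2559 0.467 0.3594 1.1172 3.7982 0.4602 0.8913 0.1314 1.3136 0.00182 0.007805 0.0000003101 0.0000003101 0.001996 0.000005892 0.1697 0.0000003101 1.2943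
    hβ hN hx1 hx2 hy1 hy2 (by norm_num) (by norm_num) (by linarith) (by norm_num) (by norm_num) (by norm_num) (by norm_num) (by norm_num) (by norm_num) (by norm_num) (by norm_num) (by norm_num) (by norm_num) (by norm_num) (by norm_num) (by norm_num) (by norm_num) (by norm_num) (by norm_num) (by norm_num) (by norm_num) (by norm_num) (by norm_num) (by norm_num)
    (cube_sqrt_geJ (s := 0.8773) (by norm_num) (by norm_num) (by norm_num) (by norm_num))
    (cube_sqrt_geJ (s := 0.9567) (by norm_num) (by norm_num) (by norm_num) (by norm_num))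
    (by norm_num) (by norm_num) (by norm_num) (by norm_num) (by norm_num) (by norm_num) (by norm_num) (by norm_num) (by norm_num) (by norm_num) (by norm_num) (by norm_num) (by norm_num) (by norm_num) (by norm_num) (by norm_num) (by norm_num) (by norm_num)
    (exp_neg_leJ (r := 0.309) 6 (by norm_num) (by norm_num) (by norm_num) (by norm_num))
    (exp_neg_leJ (r := 0.855) 4 (by norm_num) (by norm_num) (by norm_num) (by norm_num))
    (exp_neg_leJ (r := 0.99) 14 (by norm_num) (by norm_num) (by norm_num) (by norm_num))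
    (exp_neg_leJ (r := 0.99) 14 (by norm_num) (by norm_num) (by norm_num) (by norm_num))
    (exp_neg_leJ (r := 0.217) 6 (by norm_num) (by norm_num) (by norm_num) (by norm_num))
    (exp_neg_leJ (r := 0.042) 12 (by norm_num) (by norm_num) (by norm_num) (by norm_num))
    (exp_neg_leJ (r := 0.775) 1 (by norm_num) (by norm_num) (by norm_num) (by norm_num))
    (exp_neg_leJ (r := 0.99) 14 (by norm_num) (by norm_num) (by norm_num) (by norm_num))
    (by norm_num)) (by norm_num) hN hβ.le (by norm_num)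

private theorem JB7_k2b_b14_1 {β x y : ℝ} (hβ : 0 < β) (hN : β * 13.511 ≤ 1) (hx1 : 0.3025 ≤ x) (hx2 : x ≤ 0.3404)
    (hy1 : -0 ≤ y) (hy2 : y ≤ 0.49) : ‖HH β (x + y * I) - 1‖ ≤ 0.15 := by
  refine le_epsJ (C := 1.9563) (N0 := 13.511) (J_boxp 0.3025 0.3404 0 0.49 0.49 0.923 0.5967 1.5284 1.3942 0.4933 3.6758 13.511 0.6465 2.339 1.335 1.2891 0.4614 0.362 1.1118 3.8379 0.4519 0.8688 0.074 1.3861 0.001964 0.007539 0.0000003101 0.0000003101 0.002232 0.000007993 0.3729 0.0000003101 1.9563
    hβ hN hx1 hx2 hy1 hy2 (by norm_num) (by norm_num) (by linarith) (by norm_num) (by norm_num) (by norm_num) (by norm_num) (by norm_num) (by norm_num) (by norm_num) (by norm_num) (by norm_num) (by norm_num) (by norm_num) (by norm_num) (by norm_num) (by norm_num) (by norm_num) (by norm_num) (by norm_num) (by norm_num) (by norm_num) (by norm_num) (by norm_num)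
    (cube_sqrt_geJ (s := 0.8857) (by norm_num) (by norm_num) (by norm_num) (by norm_num))
    (cube_sqrt_geJ (s := 0.9596) (by norm_num) (by norm_num) (by norm_num) (by norm_num))
    (by norm_num) (by norm_num) (by norm_num) (by norm_num) (by norm_num) (by norm_num) (by norm_num) (by norm_num) (by norm_num) (by norm_num) (by norm_num) (by norm_num) (by norm_num) (by norm_num) (by norm_num) (by norm_num) (by norm_num) (by norm_num)
    (exp_neg_leJ (r := 0.233) 6 (by norm_num) (by norm_num) (by norm_num) (by norm_num))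
    (exp_neg_leJ (r := 0.89) 4 (by norm_num) (by norm_num) (by norm_num) (by norm_num))
    (exp_neg_leJ (r := 0.99) 14 (by norm_num) (by norm_num) (by norm_num) (by norm_num))
    (exp_neg_leJ (r := 0.99) 14 (by norm_num) (by norm_num) (by norm_num) (by norm_num))
    (exp_neg_leJ (r := 0.105) 6 (by norm_num) (by norm_num) (by norm_num) (by norm_num))
    (exp_neg_leJ (r := 0.738) 11 (by norm_num) (by norm_num) (by norm_num) (by norm_num))
    (exp_neg_leJ (r := 0.99) 0 (by norm_num) (by norm_num) (by norm_num) (by norm_num))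
    (exp_neg_leJ (r := 0.99) 14 (by norm_num) (by norm_num) (by norm_num) (by norm_num))
    (by norm_num)) (by norm_num) hN hβ.le (by norm_num)

theorem JB7_k2b_c14 {κ t β : ℝ} (h : DomR κ t) (hβ : 0 < β) (hk1 : 0.94 ≤ κ) (hk2 : κ ≤ 0.96)
    (ht1 : 1.38 ≤ t + κ) (ht2 : t + κ ≤ 1.6) (hR0 : β * 10 ≤ κ) (hR : β * (6.75 * (1 + κ ^ 2)) ≤ κ) :
    ‖HH β (sg κ t) - 1‖ ≤ 0.15 := by
  have hN : β * 13.511 ≤ 1 := bNC hβ h.1 hk2 (by norm_num) (by norm_num) hR (by norm_num)
  have hy1 : 0.444 ≤ sy κ t := syR_ge h 0.94 0.96 1.38 0.444 1.55892 1.55894 0.721 0.73636 hk1 hk2 (by linarith) (by norm_num) (by norm_num)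
    (expn_ge (by norm_num) (by norm_num)) (expn_le (by norm_num) (by norm_num) (by norm_num)) (by norm_num)
    (by norm_num) (by norm_num) (by norm_num) (by norm_num) (by norm_num) (by norm_num)
  have hy2 : sy κ t ≤ 0.49 := syR_ang2 h 0.94 0.96 1.6 0.984 0.555 0.8329 0.49 0.61263 1.63231 hk1 hk2 (by linarith) (by norm_num) (by norm_num) (by norm_num)
    (cos_le_num (by norm_num)) (sin_le_num (by norm_num) (by norm_num)) (expm_le (by norm_num) (by norm_num) (by norm_num))
    (expn_ge (by norm_num) (by norm_num)) (by norm_num) (by norm_num) (by norm_num) (by norm_num) (by norm_num)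
  rcases le_total (sy κ t) 0.484 with f0 | g0
  · have hx1 : 0.3183 ≤ sx κ t := sx_lo h 0.94 0.484 0.484 0.61631 0.3183 hk1 (by norm_num) f0 (abs_le.2 ⟨by linarith, by linarith⟩) (expm_ge (by norm_num) (by norm_num) (by norm_num) (by norm_num)) (by norm_num) (by norm_num)
    have hx2 : sx κ t ≤ 0.4268 := sx_hi h 0.96 0.444 0.444 0.64147 0.4268 hk2 hy1 (by norm_num) (by rw [abs_of_nonneg (by linarith)]; linarith) (expm_le (by norm_num) (by norm_num) (by norm_num)) (by norm_num) (by norm_num)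
    exact JB7_k2b_b14_0 hβ hN hx1 hx2 (by linarith) (by linarith)
  have hx1 : 0.3025 ≤ sx κ t := sx_lo h 0.94 0.49 0.49 0.61262 0.3025 hk1 (by norm_num) hy2 (abs_le.2 ⟨by linarith, by linarith⟩) (expm_ge (by norm_num) (by norm_num) (by norm_num) (by norm_num)) (by norm_num) (by norm_num)
  have hx2 : sx κ t ≤ 0.3404 := sx_hi h 0.96 0.484 0.484 0.61632 0.3404 hk2 g0 (by norm_num) (by rw [abs_of_nonneg (by linarith)]; linarith) (expm_le (by norm_num) (by norm_num) (by norm_num)) (by norm_num) (by norm_num)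
  exact JB7_k2b_b14_1 hβ hN hx1 hx2 (by linarith) (by linarith)

private theorem JB7_k2b_b15_0 {β x y : ℝ} (hβ : 0 < β) (hN : β * 13.502 ≤ 1) (hx1 : 0.3303 ≤ x) (hx2 : x ≤ 0.4375)
    (hy1 : -0 ≤ y) (hy2 : y ≤ 0.488) : ‖HH β (x + y * I) - 1‖ ≤ 0.15 := by
  refine le_epsJ (C := 1.2437) (N0 := 13.502) (J_boxp 0.3303 0.4375 0 0.488 0.488 0.9426 0.6555 1.551 1.3609 0.4969 3.6746 13.502 0.6955 2.518 1.366 1.2518 0.4712 0.362 1.1213 3.7922 0.4656 0.9075 0.1382 1.2913 0.001726 0.007561 0.0000003101 0.0000003101 0.001863 0.000004771 0.1553 0.0000003101 1.2437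
    hβ hN hx1 hx2 hy1 hy2 (by norm_num) (by norm_num) (by linarith) (by norm_num) (by norm_num) (by norm_num) (by norm_num) (by norm_num) (by norm_num) (by norm_num) (by norm_num) (by norm_num) (by norm_num) (by norm_num) (by norm_num) (by norm_num) (by norm_num) (by norm_num) (by norm_num) (by norm_num) (by norm_num) (by norm_num) (by norm_num) (by norm_num)
    (cube_sqrt_geJ (s := 0.8764) (by norm_num) (by norm_num) (by norm_num) (by norm_num))
    (cube_sqrt_geJ (s := 0.9564) (by norm_num) (by norm_num) (by norm_num) (by norm_num))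
    (by norm_num) (by norm_num) (by norm_num) (by norm_num) (by norm_num) (by norm_num) (by norm_num) (by norm_num) (by norm_num) (by norm_num) (by norm_num) (by norm_num) (by norm_num) (by norm_num) (by norm_num) (by norm_num) (by norm_num) (by norm_num)
    (exp_neg_leJ (r := 0.362) 6 (by norm_num) (by norm_num) (by norm_num) (by norm_num))
    (exp_neg_leJ (r := 0.887) 4 (by norm_num) (by norm_num) (by norm_num) (by norm_num))
    (exp_neg_leJ (r := 0.99) 14 (by norm_num) (by norm_num) (by norm_num) (by norm_num))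
    (exp_neg_leJ (r := 0.99) 14 (by norm_num) (by norm_num) (by norm_num) (by norm_num))
    (exp_neg_leJ (r := 0.286) 6 (by norm_num) (by norm_num) (by norm_num) (by norm_num))
    (exp_neg_leJ (r := 0.253) 12 (by norm_num) (by norm_num) (by norm_num) (by norm_num))
    (exp_neg_leJ (r := 0.865) 1 (by norm_num) (by norm_num) (by norm_num) (by norm_num))
    (exp_neg_leJ (r := 0.99) 14 (by norm_num) (by norm_num) (by norm_num) (by norm_num))
    (by norm_num)) (by norm_num) hN hβ.le (by norm_num)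

private theorem JB7_k2b_b15_1 {β x y : ℝ} (hβ : 0 < β) (hN : β * 13.502 ≤ 1) (hx1 : 0.3121 ≤ x) (hx2 : x ≤ 0.3518)
    (hy1 : -0 ≤ y) (hy2 : y ≤ 0.495) : ‖HH β (x + y * I) - 1‖ ≤ 0.15 := by
  refine le_epsJ (C := 2.002) (N0 := 13.502) (J_boxp 0.3121 0.3518 0 0.495 0.495 0.9298 0.6073 1.5359 1.3823 0.4945 3.6746 13.502 0.6532 2.363 1.339 1.2848 0.4648 0.3636 1.1151 3.8316 0.4561 0.8816 0.0718 1.3529 0.001883 0.007399 0.0000003101 0.0000003101 0.002117 0.000006787 0.3807 0.0000003101 2.002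
    hβ hN hx1 hx2 hy1 hy2 (by norm_num) (by norm_num) (by linarith) (by norm_num) (by norm_num) (by norm_num) (by norm_num) (by norm_num) (by norm_num) (by norm_num) (by norm_num) (by norm_num) (by norm_num) (by norm_num) (by norm_num) (by norm_num) (by norm_num) (by norm_num) (by norm_num) (by norm_num) (by norm_num) (by norm_num) (by norm_num) (by norm_num)
    (cube_sqrt_geJ (s := 0.8844) (by norm_num) (by norm_num) (by norm_num) (by norm_num))
    (cube_sqrt_geJ (s := 0.9591) (by norm_num) (by norm_num) (by norm_num) (by norm_num))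
    (by norm_num) (by norm_num) (by norm_num) (by norm_num) (by norm_num) (by norm_num) (by norm_num) (by norm_num) (by norm_num) (by norm_num) (by norm_num) (by norm_num) (by norm_num) (by norm_num) (by norm_num) (by norm_num) (by norm_num) (by norm_num)
    (exp_neg_leJ (r := 0.275) 6 (by norm_num) (by norm_num) (by norm_num) (by norm_num))
    (exp_neg_leJ (r := 0.909) 4 (by norm_num) (by norm_num) (by norm_num) (by norm_num))
    (exp_neg_leJ (r := 0.99) 14 (by norm_num) (by norm_num) (by norm_num) (by norm_num))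
    (exp_neg_leJ (r := 0.99) 14 (by norm_num) (by norm_num) (by norm_num) (by norm_num))
    (exp_neg_leJ (r := 0.158) 6 (by norm_num) (by norm_num) (by norm_num) (by norm_num))
    (exp_neg_leJ (r := 0.903) 11 (by norm_num) (by norm_num) (by norm_num) (by norm_num))
    (exp_neg_leJ (r := 0.969) 0 (by norm_num) (by norm_num) (by norm_num) (by norm_num))
    (exp_neg_leJ (r := 0.99) 14 (by norm_num) (by norm_num) (by norm_num) (by norm_num))
    (by norm_num)) (by norm_num) hN hβ.le (by norm_num)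

theorem JB7_k2b_c15 {κ t β : ℝ} (h : DomR κ t) (hβ : 0 < β) (hk1 : 0.96 ≤ κ) (hk2 : κ ≤ 0.98)
    (ht1 : 1.38 ≤ t + κ) (ht2 : t + κ ≤ 1.6) (hR0 : β * 10 ≤ κ) (hR : β * (6.75 * (1 + κ ^ 2)) ≤ κ) :
    ‖HH β (sg κ t) - 1‖ ≤ 0.15 := by
  have hN : β * 13.502 ≤ 1 := bNC hβ h.1 hk2 (by norm_num) (by norm_num) hR (by norm_num)
  have hy1 : 0.448 ≤ sy κ t := syR_ge h 0.96 0.98 1.38 0.448 1.56517 1.56518 0.7155 0.73042 hk1 hk2 (by linarith) (by norm_num) (by norm_num)
    (expn_ge (by norm_num) (by norm_num)) (expn_le (by norm_num) (by norm_num) (by norm_num)) (by norm_num)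
    (by norm_num) (by norm_num) (by norm_num) (by norm_num) (by norm_num) (by norm_num)
  have hy2 : sy κ t ≤ 0.495 := syR_ang2 h 0.96 0.98 1.6 0.976 0.5616 0.8285 0.495 0.60958 1.64049 hk1 hk2 (by linarith) (by norm_num) (by norm_num) (by norm_num)
    (cos_le_num (by norm_num)) (sin_le_num (by norm_num) (by norm_num)) (expm_le (by norm_num) (by norm_num) (by norm_num))
    (expn_ge (by norm_num) (by norm_num)) (by norm_num) (by norm_num) (by norm_num) (by norm_num) (by norm_num)
  rcases le_total (sy κ t) 0.488 with f0 | g0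
  · have hx1 : 0.3303 ≤ sx κ t := sx_lo h 0.96 0.488 0.488 0.61385 0.3303 hk1 (by norm_num) f0 (abs_le.2 ⟨by linarith, by linarith⟩) (expm_ge (by norm_num) (by norm_num) (by norm_num) (by norm_num)) (by norm_num) (by norm_num)
    have hx2 : sx κ t ≤ 0.4375 := sx_hi h 0.98 0.448 0.448 0.63891 0.4375 hk2 hy1 (by norm_num) (by rw [abs_of_nonneg (by linarith)]; linarith) (expm_le (by norm_num) (by norm_num) (by norm_num)) (by norm_num) (by norm_num)
    exact JB7_k2b_b15_0 hβ hN hx1 hx2 (by linarith) (by linarith)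
  have hx1 : 0.3121 ≤ sx κ t := sx_lo h 0.96 0.495 0.495 0.60957 0.3121 hk1 (by norm_num) hy2 (abs_le.2 ⟨by linarith, by linarith⟩) (expm_ge (by norm_num) (by norm_num) (by norm_num) (by norm_num)) (by norm_num) (by norm_num)
  have hx2 : sx κ t ≤ 0.3518 := sx_hi h 0.98 0.488 0.488 0.61386 0.3518 hk2 g0 (by norm_num) (by rw [abs_of_nonneg (by linarith)]; linarith) (expm_le (by norm_num) (by norm_num) (by norm_num)) (by norm_num) (by norm_num)
  exact JB7_k2b_b15_1 hβ hN hx1 hx2 (by linarith) (by linarith)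

private theorem JB7_k2b_b16_0 {β x y : ℝ} (hβ : 0 < β) (hN : β * 13.499 ≤ 1) (hx1 : 0.324 ≤ x) (hx2 : x ≤ 0.448)
    (hy1 : -0 ≤ y) (hy2 : y ≤ 0.499) : ‖HH β (x + y * I) - 1‖ ≤ 0.15 := by
  refine le_epsJ (C := 2.0111) (N0 := 13.499) (J_boxp 0.324 0.448 0 0.499 0.499 0.9382 0.6707 1.5646 1.3765 0.4991 3.6741 13.499 0.7149 2.593 1.379 1.2478 0.469 0.3573 1.1191 3.7848 0.4615 0.8977 0.0784 1.1855 0.001781 0.008056 0.0000003101 0.0000003101 0.001972 0.000005461 0.3472 0.0000003101 2.0111
    hβ hN hx1 hx2 hy1 hy2 (by norm_num) (by norm_num) (by linarith) (by norm_num) (by norm_num) (by norm_num) (by norm_num) (by norm_num) (by norm_num) (by norm_num) (by norm_num) (by norm_num) (by norm_num) (by norm_num) (by norm_num) (by norm_num) (by norm_num) (by norm_num) (by norm_num) (by norm_num) (by norm_num) (by norm_num) (by norm_num) (by norm_num)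
    (cube_sqrt_geJ (s := 0.8727) (by norm_num) (by norm_num) (by norm_num) (by norm_num))
    (cube_sqrt_geJ (s := 0.9552) (by norm_num) (by norm_num) (by norm_num) (by norm_num))
    (by norm_num) (by norm_num) (by norm_num) (by norm_num) (by norm_num) (by norm_num) (by norm_num) (by norm_num) (by norm_num) (by norm_num) (by norm_num) (by norm_num) (by norm_num) (by norm_num) (by norm_num) (by norm_num) (by norm_num) (by norm_num)
    (exp_neg_leJ (r := 0.331) 6 (by norm_num) (by norm_num) (by norm_num) (by norm_num))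
    (exp_neg_leJ (r := 0.823) 4 (by norm_num) (by norm_num) (by norm_num) (by norm_num))
    (exp_neg_leJ (r := 0.99) 14 (by norm_num) (by norm_num) (by norm_num) (by norm_num))
    (exp_neg_leJ (r := 0.99) 14 (by norm_num) (by norm_num) (by norm_num) (by norm_num))
    (exp_neg_leJ (r := 0.229) 6 (by norm_num) (by norm_num) (by norm_num) (by norm_num))
    (exp_neg_leJ (r := 0.118) 12 (by norm_num) (by norm_num) (by norm_num) (by norm_num))
    (exp_neg_leJ (r := 0.058) 1 (by norm_num) (by norm_num) (by norm_num) (by norm_num))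
    (exp_neg_leJ (r := 0.99) 14 (by norm_num) (by norm_num) (by norm_num) (by norm_num))
    (by norm_num)) (by norm_num) hN hβ.le (by norm_num)

theorem JB7_k2b_c16 {κ t β : ℝ} (h : DomR κ t) (hβ : 0 < β) (hk1 : 0.98 ≤ κ) (hk2 : κ ≤ 1)
    (ht1 : 1.38 ≤ t + κ) (ht2 : t + κ ≤ 1.6) (hR0 : β * 10 ≤ κ) (hR : β * (6.75 * (1 + κ ^ 2)) ≤ κ) :
    ‖HH β (sg κ t) - 1‖ ≤ 0.15 := by
  have hN : β * 13.499 ≤ 1 := bNC hβ h.1 hk2 (by norm_num) (by norm_num) hR (by norm_num)
  have hy1 : 0.452 ≤ sy κ t := syR_ge h 0.98 1 1.38 0.452 1.57145 1.57146 0.71029 0.7248 hk1 hk2 (by linarith) (by norm_num) (by norm_num)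
    (expn_ge (by norm_num) (by norm_num)) (expn_le (by norm_num) (by norm_num) (by norm_num)) (by norm_num)
    (by norm_num) (by norm_num) (by norm_num) (by norm_num) (by norm_num) (by norm_num)
  have hy2 : sy κ t ≤ 0.499 := syR_ang2 h 0.98 1 1.6 0.964 0.5714 0.8217 0.499 0.60714 1.64707 hk1 hk2 (by linarith) (by norm_num) (by norm_num) (by norm_num)
    (cos_le_num (by norm_num)) (sin_le_num (by norm_num) (by norm_num)) (expm_le (by norm_num) (by norm_num) (by norm_num))
    (expn_ge (by norm_num) (by norm_num)) (by norm_num) (by norm_num) (by norm_num) (by norm_num) (by norm_num)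
  have hx1 : 0.324 ≤ sx κ t := sx_lo h 0.98 0.499 0.499 0.60713 0.324 hk1 (by norm_num) hy2 (abs_le.2 ⟨by linarith, by linarith⟩) (expm_ge (by norm_num) (by norm_num) (by norm_num) (by norm_num)) (by norm_num) (by norm_num)
  have hx2 : sx κ t ≤ 0.448 := sx_hi h 1 0.452 0.452 0.63636 0.448 hk2 hy1 (by norm_num) (by rw [abs_of_nonneg (by linarith)]; linarith) (expm_le (by norm_num) (by norm_num) (by norm_num)) (by norm_num) (by norm_num)
  exact JB7_k2b_b16_0 hβ hN hx1 hx2 (by linarith) (by linarith)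

private theorem JB7_k2b_b17_0 {β x y : ℝ} (hβ : 0 < β) (hN : β * 13.499 ≤ 1) (hx1 : 0.3356 ≤ x) (hx2 : x ≤ 0.4583)
    (hy1 : -0 ≤ y) (hy2 : y ≤ 0.503) : ‖HH β (x + y * I) - 1‖ ≤ 0.15 := by
  refine le_epsJ (C := 1.9177) (N0 := 13.499) (J_boxp 0.3356 0.4583 0 0.503 0.503 0.9463 0.6805 1.5714 1.3618 0.5001 3.6741 13.499 0.7192 2.61 1.381 1.2438 0.4731 0.3597 1.1231 3.779 0.4667 0.9133 0.0845 1.1633 0.001686 0.007805 0.0000003101 0.0000003101 0.001839 0.000004427 0.3199 0.0000003101 1.9177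
    hβ hN hx1 hx2 hy1 hy2 (by norm_num) (by norm_num) (by linarith) (by norm_num) (by norm_num) (by norm_num) (by norm_num) (by norm_num) (by norm_num) (by norm_num) (by norm_num) (by norm_num) (by norm_num) (by norm_num) (by norm_num) (by norm_num) (by norm_num) (by norm_num) (by norm_num) (by norm_num) (by norm_num) (by norm_num) (by norm_num) (by norm_num)
    (cube_sqrt_geJ (s := 0.8719) (by norm_num) (by norm_num) (by norm_num) (by norm_num))
    (cube_sqrt_geJ (s := 0.9549) (by norm_num) (by norm_num) (by norm_num) (by norm_num))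
    (by norm_num) (by norm_num) (by norm_num) (by norm_num) (by norm_num) (by norm_num) (by norm_num) (by norm_num) (by norm_num) (by norm_num) (by norm_num) (by norm_num) (by norm_num) (by norm_num) (by norm_num) (by norm_num) (by norm_num) (by norm_num)
    (exp_neg_leJ (r := 0.386) 6 (by norm_num) (by norm_num) (by norm_num) (by norm_num))
    (exp_neg_leJ (r := 0.855) 4 (by norm_num) (by norm_num) (by norm_num) (by norm_num))
    (exp_neg_leJ (r := 0.99) 14 (by norm_num) (by norm_num) (by norm_num) (by norm_num))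
    (exp_neg_leJ (r := 0.99) 14 (by norm_num) (by norm_num) (by norm_num) (by norm_num))
    (exp_neg_leJ (r := 0.299) 6 (by norm_num) (by norm_num) (by norm_num) (by norm_num))
    (exp_neg_leJ (r := 0.328) 12 (by norm_num) (by norm_num) (by norm_num) (by norm_num))
    (exp_neg_leJ (r := 0.14) 1 (by norm_num) (by norm_num) (by norm_num) (by norm_num))
    (exp_neg_leJ (r := 0.99) 14 (by norm_num) (by norm_num) (by norm_num) (by norm_num))
    (by norm_num)) (by norm_num) hN hβ.le (by norm_num)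

theorem JB7_k2b_c17 {κ t β : ℝ} (h : DomR κ t) (hβ : 0 < β) (hk1 : 1 ≤ κ) (hk2 : κ ≤ 1.02)
    (ht1 : 1.38 ≤ t + κ) (ht2 : t + κ ≤ 1.6) (hR0 : β * 10 ≤ κ) (hR : β * (6.75 * (1 + κ ^ 2)) ≤ κ) :
    ‖HH β (sg κ t) - 1‖ ≤ 0.15 := by
  have hN : β * 13.499 ≤ 1 := bNC' hβ hk1 (by norm_num) (by norm_num) hR (by norm_num)
  have hy1 : 0.456 ≤ sy κ t := syR_ge h 1 1.02 1.38 0.456 1.57774 1.57776 0.70534 0.71946 hk1 hk2 (by linarith) (by norm_num) (by norm_num)
    (expn_ge (by norm_num) (by norm_num)) (expn_le (by norm_num) (by norm_num) (by norm_num)) (by norm_num)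
    (by norm_num) (by norm_num) (by norm_num) (by norm_num) (by norm_num) (by norm_num)
  have hy2 : sy κ t ≤ 0.503 := syR_ang2 h 1 1.02 1.6 0.953 0.5803 0.8153 0.503 0.60472 1.65367 hk1 hk2 (by linarith) (by norm_num) (by norm_num) (by norm_num)
    (cos_le_num (by norm_num)) (sin_le_num (by norm_num) (by norm_num)) (expm_le (by norm_num) (by norm_num) (by norm_num))
    (expn_ge (by norm_num) (by norm_num)) (by norm_num) (by norm_num) (by norm_num) (by norm_num) (by norm_num)
  have hx1 : 0.3356 ≤ sx κ t := sx_lo h 1 0.503 0.503 0.60471 0.3356 hk1 (by norm_num) hy2 (abs_le.2 ⟨by linarith, by linarith⟩) (expm_ge (by norm_num) (by norm_num) (by norm_num) (by norm_num)) (by norm_num) (by norm_num)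
  have hx2 : sx κ t ≤ 0.4583 := sx_hi h 1.02 0.456 0.456 0.63382 0.4583 hk2 hy1 (by norm_num) (by rw [abs_of_nonneg (by linarith)]; linarith) (expm_le (by norm_num) (by norm_num) (by norm_num)) (by norm_num) (by norm_num)
  exact JB7_k2b_b17_0 hβ hN hx1 hx2 (by linarith) (by linarith)

private theorem JB7_k2b_b18_0 {β x y : ℝ} (hβ : 0 < β) (hN : β * 13.502 ≤ 1) (hx1 : 0.3469 ≤ x) (hx2 : x ≤ 0.4704)
    (hy1 : -0 ≤ y) (hy2 : y ≤ 0.507) : ‖HH β (x + y * I) - 1‖ ≤ 0.15 := by
  refine le_epsJ (C := 1.8445) (N0 := 13.502) (J_boxp 0.3469 0.4704 0 0.507 0.507 0.9543 0.6917 1.5788 1.3479 0.5013 3.6746 13.502 0.7249 2.633 1.385 1.2391 0.4771 0.3618 1.127 3.7722 0.4718 0.9286 0.0899 1.1366 0.001595 0.007576 0.0000003101 0.0000003101 0.001713 0.000003593 0.2974 0.0000003101 1.8445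
    hβ hN hx1 hx2 hy1 hy2 (by norm_num) (by norm_num) (by linarith) (by norm_num) (by norm_num) (by norm_num) (by norm_num) (by norm_num) (by norm_num) (by norm_num) (by norm_num) (by norm_num) (by norm_num) (by norm_num) (by norm_num) (by norm_num) (by norm_num) (by norm_num) (by norm_num) (by norm_num) (by norm_num) (by norm_num) (by norm_num) (by norm_num)
    (cube_sqrt_geJ (s := 0.8708) (by norm_num) (by norm_num) (by norm_num) (by norm_num))
    (cube_sqrt_geJ (s := 0.9545) (by norm_num) (by norm_num) (by norm_num) (by norm_num))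
    (by norm_num) (by norm_num) (by norm_num) (by norm_num) (by norm_num) (by norm_num) (by norm_num) (by norm_num) (by norm_num) (by norm_num) (by norm_num) (by norm_num) (by norm_num) (by norm_num) (by norm_num) (by norm_num) (by norm_num) (by norm_num)
    (exp_neg_leJ (r := 0.441) 6 (by norm_num) (by norm_num) (by norm_num) (by norm_num))
    (exp_neg_leJ (r := 0.885) 4 (by norm_num) (by norm_num) (by norm_num) (by norm_num))
    (exp_neg_leJ (r := 0.99) 14 (by norm_num) (by norm_num) (by norm_num) (by norm_num))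
    (exp_neg_leJ (r := 0.99) 14 (by norm_num) (by norm_num) (by norm_num) (by norm_num))
    (exp_neg_leJ (r := 0.37) 6 (by norm_num) (by norm_num) (by norm_num) (by norm_num))
    (exp_neg_leJ (r := 0.537) 12 (by norm_num) (by norm_num) (by norm_num) (by norm_num))
    (exp_neg_leJ (r := 0.213) 1 (by norm_num) (by norm_num) (by norm_num) (by norm_num))
    (exp_neg_leJ (r := 0.99) 14 (by norm_num) (by norm_num) (by norm_num) (by norm_num))
    (by norm_num)) (by norm_num) hN hβ.le (by norm_num)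

theorem JB7_k2b_c18 {κ t β : ℝ} (h : DomR κ t) (hβ : 0 < β) (hk1 : 1.02 ≤ κ) (hk2 : κ ≤ 1.04)
    (ht1 : 1.38 ≤ t + κ) (ht2 : t + κ ≤ 1.6) (hR0 : β * 10 ≤ κ) (hR : β * (6.75 * (1 + κ ^ 2)) ≤ κ) :
    ‖HH β (sg κ t) - 1‖ ≤ 0.15 := by
  have hN : β * 13.502 ≤ 1 := bNC' hβ hk1 (by norm_num) (by norm_num) hR (by norm_num)
  have hy1 : 0.459 ≤ sy κ t := syR_ge h 1.02 1.04 1.38 0.459 1.58248 1.5825 0.69842 0.71213 hk1 hk2 (by linarith) (by norm_num) (by norm_num)
    (expn_ge (by norm_num) (by norm_num)) (expn_le (by norm_num) (by norm_num) (by norm_num)) (by norm_num)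
    (by norm_num) (by norm_num) (by norm_num) (by norm_num) (by norm_num) (by norm_num)
  have hy2 : sy κ t ≤ 0.507 := syR_ang2 h 1.02 1.04 1.6 0.942 0.5892 0.8089 0.507 0.60231 1.6603 hk1 hk2 (by linarith) (by norm_num) (by norm_num) (by norm_num)
    (cos_le_num (by norm_num)) (sin_le_num (by norm_num) (by norm_num)) (expm_le (by norm_num) (by norm_num) (by norm_num))
    (expn_ge (by norm_num) (by norm_num)) (by norm_num) (by norm_num) (by norm_num) (by norm_num) (by norm_num)
  have hx1 : 0.3469 ≤ sx κ t := sx_lo h 1.02 0.507 0.507 0.60229 0.3469 hk1 (by norm_num) hy2 (abs_le.2 ⟨by linarith, by linarith⟩) (expm_ge (by norm_num) (by norm_num) (by norm_num) (by norm_num)) (by norm_num) (by norm_num)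
  have hx2 : sx κ t ≤ 0.4704 := sx_hi h 1.04 0.459 0.459 0.63192 0.4704 hk2 hy1 (by norm_num) (by rw [abs_of_nonneg (by linarith)]; linarith) (expm_le (by norm_num) (by norm_num) (by norm_num)) (by norm_num) (by norm_num)
  exact JB7_k2b_b18_0 hβ hN hx1 hx2 (by linarith) (by linarith)

private theorem JB7_k2b_b19_0 {β x y : ℝ} (hβ : 0 < β) (hN : β * 13.51 ≤ 1) (hx1 : 0.3554 ≤ x) (hx2 : x ≤ 0.4804)
    (hy1 : -0 ≤ y) (hy2 : y ≤ 0.512) : ‖HH β (x + y * I) - 1‖ ≤ 0.15 := by
  refine le_epsJ (C := 1.9292) (N0 := 13.51) (J_boxp 0.3554 0.4804 0 0.512 0.512 0.9603 0.7021 1.5865 1.3385 0.5025 3.6756 13.51 0.7312 2.659 1.389 1.2353 0.4801 0.3631 1.1299 3.7664 0.4754 0.9398 0.0855 1.1017 0.001525 0.007428 0.0000003101 0.0000003101 0.001626 0.000003066 0.3151 0.0000003447 1.9292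
    hβ hN hx1 hx2 hy1 hy2 (by norm_num) (by norm_num) (by linarith) (by norm_num) (by norm_num) (by norm_num) (by norm_num) (by norm_num) (by norm_num) (by norm_num) (by norm_num) (by norm_num) (by norm_num) (by norm_num) (by norm_num) (by norm_num) (by norm_num) (by norm_num) (by norm_num) (by norm_num) (by norm_num) (by norm_num) (by norm_num) (by norm_num)
    (cube_sqrt_geJ (s := 0.8696) (by norm_num) (by norm_num) (by norm_num) (by norm_num))
    (cube_sqrt_geJ (s := 0.9541) (by norm_num) (by norm_num) (by norm_num) (by norm_num))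
    (by norm_num) (by norm_num) (by norm_num) (by norm_num) (by norm_num) (by norm_num) (by norm_num) (by norm_num) (by norm_num) (by norm_num) (by norm_num) (by norm_num) (by norm_num) (by norm_num) (by norm_num) (by norm_num) (by norm_num) (by norm_num)
    (exp_neg_leJ (r := 0.486) 6 (by norm_num) (by norm_num) (by norm_num) (by norm_num))
    (exp_neg_leJ (r := 0.905) 4 (by norm_num) (by norm_num) (by norm_num) (by norm_num))
    (exp_neg_leJ (r := 0.99) 14 (by norm_num) (by norm_num) (by norm_num) (by norm_num))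
    (exp_neg_leJ (r := 0.99) 14 (by norm_num) (by norm_num) (by norm_num) (by norm_num))
    (exp_neg_leJ (r := 0.422) 6 (by norm_num) (by norm_num) (by norm_num) (by norm_num))
    (exp_neg_leJ (r := 0.696) 12 (by norm_num) (by norm_num) (by norm_num) (by norm_num))
    (exp_neg_leJ (r := 0.155) 1 (by norm_num) (by norm_num) (by norm_num) (by norm_num))
    (exp_neg_leJ (r := 0.883) 14 (by norm_num) (by norm_num) (by norm_num) (by norm_num))
    (by norm_num)) (by norm_num) hN hβ.le (by norm_num)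

theorem JB7_k2b_c19 {κ t β : ℝ} (h : DomR κ t) (hβ : 0 < β) (hk1 : 1.04 ≤ κ) (hk2 : κ ≤ 1.06)
    (ht1 : 1.38 ≤ t + κ) (ht2 : t + κ ≤ 1.6) (hR0 : β * 10 ≤ κ) (hR : β * (6.75 * (1 + κ ^ 2)) ≤ κ) :
    ‖HH β (sg κ t) - 1‖ ≤ 0.15 := by
  have hN : β * 13.51 ≤ 1 := bNC' hβ hk1 (by norm_num) (by norm_num) hR (by norm_num)
  have hy1 : 0.463 ≤ sy κ t := syR_ge h 1.04 1.06 1.38 0.463 1.58883 1.58884 0.69398 0.70734 hk1 hk2 (by linarith) (by norm_num) (by norm_num)
    (expn_ge (by norm_num) (by norm_num)) (expn_le (by norm_num) (by norm_num) (by norm_num)) (by norm_num)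
    (by norm_num) (by norm_num) (by norm_num) (by norm_num) (by norm_num) (by norm_num)
  have hy2 : sy κ t ≤ 0.512 := syR_ang2 h 1.04 1.06 1.6 0.936 0.594 0.8054 0.512 0.5993 1.66862 hk1 hk2 (by linarith) (by norm_num) (by norm_num) (by norm_num)
    (cos_le_num (by norm_num)) (sin_le_num (by norm_num) (by norm_num)) (expm_le (by norm_num) (by norm_num) (by norm_num))
    (expn_ge (by norm_num) (by norm_num)) (by norm_num) (by norm_num) (by norm_num) (by norm_num) (by norm_num)
  have hx1 : 0.3554 ≤ sx κ t := sx_lo h 1.04 0.512 0.512 0.59929 0.3554 hk1 (by norm_num) hy2 (abs_le.2 ⟨by linarith, by linarith⟩) (expm_ge (by norm_num) (by norm_num) (by norm_num) (by norm_num)) (by norm_num) (by norm_num)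
  have hx2 : sx κ t ≤ 0.4804 := sx_hi h 1.06 0.463 0.463 0.6294 0.4804 hk2 hy1 (by norm_num) (by rw [abs_of_nonneg (by linarith)]; linarith) (expm_le (by norm_num) (by norm_num) (by norm_num)) (by norm_num) (by norm_num)
  exact JB7_k2b_b19_0 hβ hN hx1 hx2 (by linarith) (by linarith)

private theorem JB7_k2b_b20_0 {β x y : ℝ} (hβ : 0 < β) (hN : β * 13.522 ≤ 1) (hx1 : 0.3686 ≤ x) (hx2 : x ≤ 0.4921)
    (hy1 : -0 ≤ y) (hy2 : y ≤ 0.515) : ‖HH β (x + y * I) - 1‖ ≤ 0.15 := by
  refine le_epsJ (C := 1.7302) (N0 := 13.522) (J_boxp 0.3686 0.4921 0 0.515 0.515 0.9696 0.7124 1.593 1.322 0.5036 3.6773 13.522 0.7348 2.674 1.392 1.2308 0.4847 0.366 1.1344 3.76 0.4815 0.9578 0.099 1.086 0.001425 0.007112 0.0000003101 0.0000003101 0.001489 0.000002381 0.2624 0.0000004199 1.7302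
    hβ hN hx1 hx2 hy1 hy2 (by norm_num) (by norm_num) (by linarith) (by norm_num) (by norm_num) (by norm_num) (by norm_num) (by norm_num) (by norm_num) (by norm_num) (by norm_num) (by norm_num) (by norm_num) (by norm_num) (by norm_num) (by norm_num) (by norm_num) (by norm_num) (by norm_num) (by norm_num) (by norm_num) (by norm_num) (by norm_num) (by norm_num)
    (cube_sqrt_geJ (s := 0.8689) (by norm_num) (by norm_num) (by norm_num) (by norm_num))
    (cube_sqrt_geJ (s := 0.9539) (by norm_num) (by norm_num) (by norm_num) (by norm_num))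
    (by norm_num) (by norm_num) (by norm_num) (by norm_num) (by norm_num) (by norm_num) (by norm_num) (by norm_num) (by norm_num) (by norm_num) (by norm_num) (by norm_num) (by norm_num) (by norm_num) (by norm_num) (by norm_num) (by norm_num) (by norm_num)
    (exp_neg_leJ (r := 0.554) 6 (by norm_num) (by norm_num) (by norm_num) (by norm_num))
    (exp_neg_leJ (r := 0.949) 4 (by norm_num) (by norm_num) (by norm_num) (by norm_num))
    (exp_neg_leJ (r := 0.99) 14 (by norm_num) (by norm_num) (by norm_num) (by norm_num))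
    (exp_neg_leJ (r := 0.99) 14 (by norm_num) (by norm_num) (by norm_num) (by norm_num))
    (exp_neg_leJ (r := 0.51) 6 (by norm_num) (by norm_num) (by norm_num) (by norm_num))
    (exp_neg_leJ (r := 0.951) 12 (by norm_num) (by norm_num) (by norm_num) (by norm_num))
    (exp_neg_leJ (r := 0.338) 1 (by norm_num) (by norm_num) (by norm_num) (by norm_num))
    (exp_neg_leJ (r := 0.684) 14 (by norm_num) (by norm_num) (by norm_num) (by norm_num))
    (by norm_num)) (by norm_num) hN hβ.le (by norm_num)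

theorem JB7_k2b_c20 {κ t β : ℝ} (h : DomR κ t) (hβ : 0 < β) (hk1 : 1.06 ≤ κ) (hk2 : κ ≤ 1.08)
    (ht1 : 1.38 ≤ t + κ) (ht2 : t + κ ≤ 1.6) (hR0 : β * 10 ≤ κ) (hR : β * (6.75 * (1 + κ ^ 2)) ≤ κ) :
    ‖HH β (sg κ t) - 1‖ ≤ 0.15 := by
  have hN : β * 13.522 ≤ 1 := bNC' hβ hk1 (by norm_num) (by norm_num) hR (by norm_num)
  have hy1 : 0.466 ≤ sy κ t := syR_ge h 1.06 1.08 1.38 0.466 1.5936 1.59361 0.6876 0.70059 hk1 hk2 (by linarith) (by norm_num) (by norm_num)
    (expn_ge (by norm_num) (by norm_num)) (expn_le (by norm_num) (by norm_num) (by norm_num)) (by norm_num)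
    (by norm_num) (by norm_num) (by norm_num) (by norm_num) (by norm_num) (by norm_num)
  have hy2 : sy κ t ≤ 0.515 := syR_ang2 h 1.06 1.08 1.6 0.923 0.6043 0.7976 0.515 0.59751 1.67363 hk1 hk2 (by linarith) (by norm_num) (by norm_num) (by norm_num)
    (cos_le_num (by norm_num)) (sin_le_num (by norm_num) (by norm_num)) (expm_le (by norm_num) (by norm_num) (by norm_num))
    (expn_ge (by norm_num) (by norm_num)) (by norm_num) (by norm_num) (by norm_num) (by norm_num) (by norm_num)
  have hx1 : 0.3686 ≤ sx κ t := sx_lo h 1.06 0.515 0.515 0.5975 0.3686 hk1 (by norm_num) hy2 (abs_le.2 ⟨by linarith, by linarith⟩) (expm_ge (by norm_num) (by norm_num) (by norm_num) (by norm_num)) (by norm_num) (by norm_num)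
  have hx2 : sx κ t ≤ 0.4921 := sx_hi h 1.08 0.466 0.466 0.62751 0.4921 hk2 hy1 (by norm_num) (by rw [abs_of_nonneg (by linarith)]; linarith) (expm_le (by norm_num) (by norm_num) (by norm_num)) (by norm_num) (by norm_num)
  exact JB7_k2b_b20_0 hβ hN hx1 hx2 (by linarith) (by linarith)

private theorem JB7_k2b_b21_0 {β x y : ℝ} (hβ : 0 < β) (hN : β * 13.539 ≤ 1) (hx1 : 0.3791 ≤ x) (hx2 : x ≤ 0.5122)
    (hy1 : -0 ≤ y) (hy2 : y ≤ 0.519) : ‖HH β (x + y * I) - 1‖ ≤ 0.15 := by
  refine le_epsJ (C := 1.7009) (N0 := 13.539) (J_boxp 0.3791 0.5122 0 0.519 0.519 0.9769 0.7292 1.6031 1.3114 0.5052 3.6796 13.539 0.7465 2.723 1.399 1.2231 0.4884 0.3669 1.138 3.7492 0.4862 0.9719 0.1029 1.0425 0.001345 0.006987 0.0000003101 0.0000003101 0.001386 0.000001931 0.2484 0.000000742 1.7009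
    hβ hN hx1 hx2 hy1 hy2 (by norm_num) (by norm_num) (by linarith) (by norm_num) (by norm_num) (by norm_num) (by norm_num) (by norm_num) (by norm_num) (by norm_num) (by norm_num) (by norm_num) (by norm_num) (by norm_num) (by norm_num) (by norm_num) (by norm_num) (by norm_num) (by norm_num) (by norm_num) (by norm_num) (by norm_num) (by norm_num) (by norm_num)
    (cube_sqrt_geJ (s := 0.8666) (by norm_num) (by norm_num) (by norm_num) (by norm_num))
    (cube_sqrt_geJ (s := 0.9532) (by norm_num) (by norm_num) (by norm_num) (by norm_num))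
    (by norm_num) (by norm_num) (by norm_num) (by norm_num) (by norm_num) (by norm_num) (by norm_num) (by norm_num) (by norm_num) (by norm_num) (by norm_num) (by norm_num) (by norm_num) (by norm_num) (by norm_num) (by norm_num) (by norm_num) (by norm_num)
    (exp_neg_leJ (r := 0.612) 6 (by norm_num) (by norm_num) (by norm_num) (by norm_num))
    (exp_neg_leJ (r := 0.967) 4 (by norm_num) (by norm_num) (by norm_num) (by norm_num))
    (exp_neg_leJ (r := 0.99) 14 (by norm_num) (by norm_num) (by norm_num) (by norm_num))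
    (exp_neg_leJ (r := 0.99) 14 (by norm_num) (by norm_num) (by norm_num) (by norm_num))
    (exp_neg_leJ (r := 0.582) 6 (by norm_num) (by norm_num) (by norm_num) (by norm_num))
    (exp_neg_leJ (r := 0.158) 13 (by norm_num) (by norm_num) (by norm_num) (by norm_num))
    (exp_neg_leJ (r := 0.393) 1 (by norm_num) (by norm_num) (by norm_num) (by norm_num))
    (exp_neg_leJ (r := 0.114) 14 (by norm_num) (by norm_num) (by norm_num) (by norm_num))
    (by norm_num)) (by norm_num) hN hβ.le (by norm_num)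

private theorem JB7_k2b_b21_1 {β x y : ℝ} (hβ : 0 < β) (hN : β * 13.539 ≤ 1) (hx1 : 0.3716 ≤ x) (hx2 : x ≤ 0.4087)
    (hy1 : -0 ≤ y) (hy2 : y ≤ 0.522) : ‖HH β (x + y * I) - 1‖ ≤ 0.15 := by
  refine le_epsJ (C := 2.0182) (N0 := 13.539) (J_boxp 0.3716 0.4087 0 0.522 0.522 0.9717 0.663 1.576 1.3107 0.5009 3.6796 13.539 0.6824 2.468 1.358 1.2629 0.4858 0.3753 1.1354 3.799 0.4822 0.9612 0.075 1.1933 0.001393 0.006214 0.0000003101 0.0000003101 0.001463 0.000002232 0.3625 0.0000003101 2.0182
    hβ hN hx1 hx2 hy1 hy2 (by norm_num) (by norm_num) (by linarith) (by norm_num) (by norm_num) (by norm_num) (by norm_num) (by norm_num) (by norm_num) (by norm_num) (by norm_num) (by norm_num) (by norm_num) (by norm_num) (by norm_num) (by norm_num) (by norm_num) (by norm_num) (by norm_num) (by norm_num) (by norm_num) (by norm_num) (by norm_num) (by norm_num)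
    (cube_sqrt_geJ (s := 0.8789) (by norm_num) (by norm_num) (by norm_num) (by norm_num))
    (cube_sqrt_geJ (s := 0.9573) (by norm_num) (by norm_num) (by norm_num) (by norm_num))
    (by norm_num) (by norm_num) (by norm_num) (by norm_num) (by norm_num) (by norm_num) (by norm_num) (by norm_num) (by norm_num) (by norm_num) (by norm_num) (by norm_num) (by norm_num) (by norm_num) (by norm_num) (by norm_num) (by norm_num) (by norm_num)
    (exp_neg_leJ (r := 0.577) 6 (by norm_num) (by norm_num) (by norm_num) (by norm_num))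
    (exp_neg_leJ (r := 0.081) 5 (by norm_num) (by norm_num) (by norm_num) (by norm_num))
    (exp_neg_leJ (r := 0.99) 14 (by norm_num) (by norm_num) (by norm_num) (by norm_num))
    (exp_neg_leJ (r := 0.99) 14 (by norm_num) (by norm_num) (by norm_num) (by norm_num))
    (exp_neg_leJ (r := 0.528) 6 (by norm_num) (by norm_num) (by norm_num) (by norm_num))
    (exp_neg_leJ (r := 0.013) 13 (by norm_num) (by norm_num) (by norm_num) (by norm_num))
    (exp_neg_leJ (r := 0.015) 1 (by norm_num) (by norm_num) (by norm_num) (by norm_num))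
    (exp_neg_leJ (r := 0.99) 14 (by norm_num) (by norm_num) (by norm_num) (by norm_num))
    (by norm_num)) (by norm_num) hN hβ.le (by norm_num)

theorem JB7_k2b_c21 {κ t β : ℝ} (h : DomR κ t) (hβ : 0 < β) (hk1 : 1.08 ≤ κ) (hk2 : κ ≤ 1.11)
    (ht1 : 1.38 ≤ t + κ) (ht2 : t + κ ≤ 1.6) (hR0 : β * 10 ≤ κ) (hR : β * (6.75 * (1 + κ ^ 2)) ≤ κ) :
    ‖HH β (sg κ t) - 1‖ ≤ 0.15 := by
  have hN : β * 13.539 ≤ 1 := bNC' hβ hk1 (by norm_num) (by norm_num) hR (by norm_num)
  have hy1 : 0.469 ≤ sy κ t := syR_ge h 1.08 1.11 1.38 0.469 1.59839 1.5984 0.67535 0.69413 hk1 hk2 (by linarith) (by norm_num) (by norm_num)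
    (expn_ge (by norm_num) (by norm_num)) (expn_le (by norm_num) (by norm_num) (by norm_num)) (by norm_num)
    (by norm_num) (by norm_num) (by norm_num) (by norm_num) (by norm_num) (by norm_num)
  have hy2 : sy κ t ≤ 0.522 := syR_ang2 h 1.08 1.11 1.6 0.914 0.6114 0.7921 0.522 0.59334 1.68539 hk1 hk2 (by linarith) (by norm_num) (by norm_num) (by norm_num)
    (cos_le_num (by norm_num)) (sin_le_num (by norm_num) (by norm_num)) (expm_le (by norm_num) (by norm_num) (by norm_num))
    (expn_ge (by norm_num) (by norm_num)) (by norm_num) (by norm_num) (by norm_num) (by norm_num) (by norm_num)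
  rcases le_total (sy κ t) 0.519 with f0 | g0
  · have hx1 : 0.3791 ≤ sx κ t := sx_lo h 1.08 0.519 0.519 0.59511 0.3791 hk1 (by norm_num) f0 (abs_le.2 ⟨by linarith, by linarith⟩) (expm_ge (by norm_num) (by norm_num) (by norm_num) (by norm_num)) (by norm_num) (by norm_num)
    have hx2 : sx κ t ≤ 0.5122 := sx_hi h 1.11 0.469 0.469 0.62563 0.5122 hk2 hy1 (by norm_num) (by rw [abs_of_nonneg (by linarith)]; linarith) (expm_le (by norm_num) (by norm_num) (by norm_num)) (by norm_num) (by norm_num)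
    exact JB7_k2b_b21_0 hβ hN hx1 hx2 (by linarith) (by linarith)
  have hx1 : 0.3716 ≤ sx κ t := sx_lo h 1.08 0.522 0.522 0.59333 0.3716 hk1 (by norm_num) hy2 (abs_le.2 ⟨by linarith, by linarith⟩) (expm_ge (by norm_num) (by norm_num) (by norm_num) (by norm_num)) (by norm_num) (by norm_num)
  have hx2 : sx κ t ≤ 0.4087 := sx_hi h 1.11 0.519 0.519 0.59512 0.4087 hk2 g0 (by norm_num) (by rw [abs_of_nonneg (by linarith)]; linarith) (expm_le (by norm_num) (by norm_num) (by norm_num)) (by norm_num) (by norm_num)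
  exact JB7_k2b_b21_1 hβ hN hx1 hx2 (by linarith) (by linarith)

private theorem JB7_k2b_b22_0 {β x y : ℝ} (hβ : 0 < β) (hN : β * 13.573 ≤ 1) (hx1 : 0.3894 ≤ x) (hx2 : x ≤ 0.5282)
    (hy1 : -0 ≤ y) (hy2 : y ≤ 0.527) : ‖HH β (x + y * I) - 1‖ ≤ 0.15 := by
  refine le_epsJ (C := 1.9336) (N0 := 13.573) (J_boxp 0.3894 0.5282 0 0.527 0.527 0.9842 0.7462 1.6158 1.3019 0.5072 3.6842 13.573 0.7582 2.773 1.407 1.2169 0.492 0.3677 1.1415 3.7397 0.4904 0.9854 0.0891 0.9792 0.001261 0.00683 0.0000003101 0.0000003101 0.001288 0.000001556 0.2985 0.000001692 1.9336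
    hβ hN hx1 hx2 hy1 hy2 (by norm_num) (by norm_num) (by linarith) (by norm_num) (by norm_num) (by norm_num) (by norm_num) (by norm_num) (by norm_num) (by norm_num) (by norm_num) (by norm_num) (by norm_num) (by norm_num) (by norm_num) (by norm_num) (by norm_num) (by norm_num) (by norm_num) (by norm_num) (by norm_num) (by norm_num) (by norm_num) (by norm_num)
    (cube_sqrt_geJ (s := 0.8644) (by norm_num) (by norm_num) (by norm_num) (by norm_num))
    (cube_sqrt_geJ (s := 0.9524) (by norm_num) (by norm_num) (by norm_num) (by norm_num))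
    (by norm_num) (by norm_num) (by norm_num) (by norm_num) (by norm_num) (by norm_num) (by norm_num) (by norm_num) (by norm_num) (by norm_num) (by norm_num) (by norm_num) (by norm_num) (by norm_num) (by norm_num) (by norm_num) (by norm_num) (by norm_num)
    (exp_neg_leJ (r := 0.677) 6 (by norm_num) (by norm_num) (by norm_num) (by norm_num))
    (exp_neg_leJ (r := 0.99) 4 (by norm_num) (by norm_num) (by norm_num) (by norm_num))
    (exp_neg_leJ (r := 0.99) 14 (by norm_num) (by norm_num) (by norm_num) (by norm_num))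
    (exp_neg_leJ (r := 0.99) 14 (by norm_num) (by norm_num) (by norm_num) (by norm_num))
    (exp_neg_leJ (r := 0.656) 6 (by norm_num) (by norm_num) (by norm_num) (by norm_num))
    (exp_neg_leJ (r := 0.374) 13 (by norm_num) (by norm_num) (by norm_num) (by norm_num))
    (exp_neg_leJ (r := 0.209) 1 (by norm_num) (by norm_num) (by norm_num) (by norm_num))
    (exp_neg_leJ (r := 0.29) 13 (by norm_num) (by norm_num) (by norm_num) (by norm_num))
    (by norm_num)) (by norm_num) hN hβ.le (by norm_num)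

theorem JB7_k2b_c22 {κ t β : ℝ} (h : DomR κ t) (hβ : 0 < β) (hk1 : 1.11 ≤ κ) (hk2 : κ ≤ 1.14)
    (ht1 : 1.38 ≤ t + κ) (ht2 : t + κ ≤ 1.6) (hR0 : β * 10 ≤ κ) (hR : β * (6.75 * (1 + κ ^ 2)) ≤ κ) :
    ‖HH β (sg κ t) - 1‖ ≤ 0.15 := by
  have hN : β * 13.573 ≤ 1 := bNC' hβ hk1 (by norm_num) (by norm_num) hR (by norm_num)
  have hy1 : 0.474 ≤ sy κ t := syR_ge h 1.11 1.14 1.38 0.474 1.6064 1.60641 0.66792 0.68599 hk1 hk2 (by linarith) (by norm_num) (by norm_num)
    (expn_ge (by norm_num) (by norm_num)) (expn_le (by norm_num) (by norm_num) (by norm_num)) (by norm_num)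
    (by norm_num) (by norm_num) (by norm_num) (by norm_num) (by norm_num) (by norm_num)
  have hy2 : sy κ t ≤ 0.527 := syR_ang2 h 1.11 1.14 1.6 0.899 0.6232 0.7828 0.527 0.59038 1.69384 hk1 hk2 (by linarith) (by norm_num) (by norm_num) (by norm_num)
    (cos_le_num (by norm_num)) (sin_le_num (by norm_num) (by norm_num)) (expm_le (by norm_num) (by norm_num) (by norm_num))
    (expn_ge (by norm_num) (by norm_num)) (by norm_num) (by norm_num) (by norm_num) (by norm_num) (by norm_num)
  have hx1 : 0.3894 ≤ sx κ t := sx_lo h 1.11 0.527 0.527 0.59037 0.3894 hk1 (by norm_num) hy2 (abs_le.2 ⟨by linarith, by linarith⟩) (expm_ge (by norm_num) (by norm_num) (by norm_num) (by norm_num)) (by norm_num) (by norm_num)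
  have hx2 : sx κ t ≤ 0.5282 := sx_hi h 1.14 0.474 0.474 0.62251 0.5282 hk2 hy1 (by norm_num) (by rw [abs_of_nonneg (by linarith)]; linarith) (expm_le (by norm_num) (by norm_num) (by norm_num)) (by norm_num) (by norm_num)
  exact JB7_k2b_b22_0 hβ hN hx1 hx2 (by linarith) (by linarith)

private theorem JB7_k2b_b23_0 {β x y : ℝ} (hβ : 0 < β) (hN : β * 13.616 ≤ 1) (hx1 : 0.4067 ≤ x) (hx2 : x ≤ 0.5457)
    (hy1 : -0 ≤ y) (hy2 : y ≤ 0.532) : ‖HH β (x + y * I) - 1‖ ≤ 0.15 := by
  refine le_epsJ (C := 1.7451) (N0 := 13.616) (J_boxp 0.4067 0.5457 0 0.532 0.532 0.9964 0.7622 1.6263 1.2822 0.5088 3.69 13.616 0.765 2.803 1.411 1.2102 0.4981 0.3711 1.1475 3.73 0.4983 1.0088 0.1023 0.9467 0.001136 0.006397 0.0000003101 0.0000003101 0.001134 0.000001085 0.2486 0.000002529 1.7451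
    hβ hN hx1 hx2 hy1 hy2 (by norm_num) (by norm_num) (by linarith) (by norm_num) (by norm_num) (by norm_num) (by norm_num) (by norm_num) (by norm_num) (by norm_num) (by norm_num) (by norm_num) (by norm_num) (by norm_num) (by norm_num) (by norm_num) (by norm_num) (by norm_num) (by norm_num) (by norm_num) (by norm_num) (by norm_num) (by norm_num) (by norm_num)
    (cube_sqrt_geJ (s := 0.8631) (by norm_num) (by norm_num) (by norm_num) (by norm_num))
    (cube_sqrt_geJ (s := 0.952) (by norm_num) (by norm_num) (by norm_num) (by norm_num))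
    (by norm_num) (by norm_num) (by norm_num) (by norm_num) (by norm_num) (by norm_num) (by norm_num) (by norm_num) (by norm_num) (by norm_num) (by norm_num) (by norm_num) (by norm_num) (by norm_num) (by norm_num) (by norm_num) (by norm_num) (by norm_num)
    (exp_neg_leJ (r := 0.782) 6 (by norm_num) (by norm_num) (by norm_num) (by norm_num))
    (exp_neg_leJ (r := 0.052) 5 (by norm_num) (by norm_num) (by norm_num) (by norm_num))
    (exp_neg_leJ (r := 0.99) 14 (by norm_num) (by norm_num) (by norm_num) (by norm_num))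
    (exp_neg_leJ (r := 0.99) 14 (by norm_num) (by norm_num) (by norm_num) (by norm_num))
    (exp_neg_leJ (r := 0.784) 6 (by norm_num) (by norm_num) (by norm_num) (by norm_num))
    (exp_neg_leJ (r := 0.735) 13 (by norm_num) (by norm_num) (by norm_num) (by norm_num))
    (exp_neg_leJ (r := 0.392) 1 (by norm_num) (by norm_num) (by norm_num) (by norm_num))
    (exp_neg_leJ (r := 0.89) 12 (by norm_num) (by norm_num) (by norm_num) (by norm_num))
    (by norm_num)) (by norm_num) hN hβ.le (by norm_num)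

theorem JB7_k2b_c23 {κ t β : ℝ} (h : DomR κ t) (hβ : 0 < β) (hk1 : 1.14 ≤ κ) (hk2 : κ ≤ 1.17)
    (ht1 : 1.38 ≤ t + κ) (ht2 : t + κ ≤ 1.6) (hR0 : β * 10 ≤ κ) (hR : β * (6.75 * (1 + κ ^ 2)) ≤ κ) :
    ‖HH β (sg κ t) - 1‖ ≤ 0.15 := by
  have hN : β * 13.616 ≤ 1 := bNC' hβ hk1 (by norm_num) (by norm_num) hR (by norm_num)
  have hy1 : 0.478 ≤ sy κ t := syR_ge h 1.14 1.17 1.38 0.478 1.61284 1.61285 0.65892 0.67627 hk1 hk2 (by linarith) (by norm_num) (by norm_num)
    (expn_ge (by norm_num) (by norm_num)) (expn_le (by norm_num) (by norm_num) (by norm_num)) (by norm_num)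
    (by norm_num) (by norm_num) (by norm_num) (by norm_num) (by norm_num) (by norm_num)
  have hy2 : sy κ t ≤ 0.532 := syR_ang2 h 1.14 1.17 1.6 0.885 0.634 0.774 0.532 0.58743 1.70233 hk1 hk2 (by linarith) (by norm_num) (by norm_num) (by norm_num)
    (cos_le_num (by norm_num)) (sin_le_num (by norm_num) (by norm_num)) (expm_le (by norm_num) (by norm_num) (by norm_num))
    (expn_ge (by norm_num) (by norm_num)) (by norm_num) (by norm_num) (by norm_num) (by norm_num) (by norm_num)
  have hx1 : 0.4067 ≤ sx κ t := sx_lo h 1.14 0.532 0.532 0.58742 0.4067 hk1 (by norm_num) hy2 (abs_le.2 ⟨by linarith, by linarith⟩) (expm_ge (by norm_num) (by norm_num) (by norm_num) (by norm_num)) (by norm_num) (by norm_num)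
  have hx2 : sx κ t ≤ 0.5457 := sx_hi h 1.17 0.478 0.478 0.62003 0.5457 hk2 hy1 (by norm_num) (by rw [abs_of_nonneg (by linarith)]; linarith) (expm_le (by norm_num) (by norm_num) (by norm_num)) (by norm_num) (by norm_num)
  exact JB7_k2b_b23_0 hβ hN hx1 hx2 (by linarith) (by linarith)

private theorem JB7_k2b_b24_0 {β x y : ℝ} (hβ : 0 < β) (hN : β * 13.666 ≤ 1) (hx1 : 0.4162 ≤ x) (hx2 : x ≤ 0.571)
    (hy1 : -0 ≤ y) (hy2 : y ≤ 0.54) : ‖HH β (x + y * I) - 1‖ ≤ 0.15 := by
  refine le_epsJ (C := 2.0311) (N0 := 13.666) (J_boxp 0.4162 0.571 0 0.54 0.54 1.0031 0.786 1.6425 1.2757 0.5113 3.6968 13.666 0.7836 2.886 1.424 1.2005 0.5015 0.3705 1.1507 3.7158 0.5021 1.0211 0.087 0.8633 0.001059 0.006327 0.0000003101 0.0000003101 0.00105 0.0000008734 0.3049 0.000007538 2.0311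
    hβ hN hx1 hx2 hy1 hy2 (by norm_num) (by norm_num) (by linarith) (by norm_num) (by norm_num) (by norm_num) (by norm_num) (by norm_num) (by norm_num) (by norm_num) (by norm_num) (by norm_num) (by norm_num) (by norm_num) (by norm_num) (by norm_num) (by norm_num) (by norm_num) (by norm_num) (by norm_num) (by norm_num) (by norm_num) (by norm_num) (by norm_num)
    (cube_sqrt_geJ (s := 0.8595) (by norm_num) (by norm_num) (by norm_num) (by norm_num))
    (cube_sqrt_geJ (s := 0.9508) (by norm_num) (by norm_num) (by norm_num) (by norm_num))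
    (by norm_num) (by norm_num) (by norm_num) (by norm_num) (by norm_num) (by norm_num) (by norm_num) (by norm_num) (by norm_num) (by norm_num) (by norm_num) (by norm_num) (by norm_num) (by norm_num) (by norm_num) (by norm_num) (by norm_num) (by norm_num)
    (exp_neg_leJ (r := 0.853) 6 (by norm_num) (by norm_num) (by norm_num) (by norm_num))
    (exp_neg_leJ (r := 0.063) 5 (by norm_num) (by norm_num) (by norm_num) (by norm_num))
    (exp_neg_leJ (r := 0.99) 14 (by norm_num) (by norm_num) (by norm_num) (by norm_num))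
    (exp_neg_leJ (r := 0.99) 14 (by norm_num) (by norm_num) (by norm_num) (by norm_num))
    (exp_neg_leJ (r := 0.861) 6 (by norm_num) (by norm_num) (by norm_num) (by norm_num))
    (exp_neg_leJ (r := 0.954) 13 (by norm_num) (by norm_num) (by norm_num) (by norm_num))
    (exp_neg_leJ (r := 0.188) 1 (by norm_num) (by norm_num) (by norm_num) (by norm_num))
    (exp_neg_leJ (r := 0.797) 11 (by norm_num) (by norm_num) (by norm_num) (by norm_num))
    (by norm_num)) (by norm_num) hN hβ.le (by norm_num)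

theorem JB7_k2b_c24 {κ t β : ℝ} (h : DomR κ t) (hβ : 0 < β) (hk1 : 1.17 ≤ κ) (hk2 : κ ≤ 1.21)
    (ht1 : 1.38 ≤ t + κ) (ht2 : t + κ ≤ 1.6) (hR0 : β * 10 ≤ κ) (hR : β * (6.75 * (1 + κ ^ 2)) ≤ κ) :
    ‖HH β (sg κ t) - 1‖ ≤ 0.15 := by
  have hN : β * 13.666 ≤ 1 := bNC' hβ hk1 (by norm_num) (by norm_num) hR (by norm_num)
  have hy1 : 0.482 ≤ sy κ t := syR_ge h 1.17 1.21 1.38 0.482 1.6193 1.61931 0.64504 0.66711 hk1 hk2 (by linarith) (by norm_num) (by norm_num)
    (expn_ge (by norm_num) (by norm_num)) (expn_le (by norm_num) (by norm_num) (by norm_num)) (by norm_num)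
    (by norm_num) (by norm_num) (by norm_num) (by norm_num) (by norm_num) (by norm_num)
  have hy2 : sy κ t ≤ 0.54 := syR_ang2 h 1.17 1.21 1.6 0.872 0.6439 0.7657 0.54 0.58275 1.716 hk1 hk2 (by linarith) (by norm_num) (by norm_num) (by norm_num)
    (cos_le_num (by norm_num)) (sin_le_num (by norm_num) (by norm_num)) (expm_le (by norm_num) (by norm_num) (by norm_num))
    (expn_ge (by norm_num) (by norm_num)) (by norm_num) (by norm_num) (by norm_num) (by norm_num) (by norm_num)
  have hx1 : 0.4162 ≤ sx κ t := sx_lo h 1.17 0.54 0.54 0.58274 0.4162 hk1 (by norm_num) hy2 (abs_le.2 ⟨by linarith, by linarith⟩) (expm_ge (by norm_num) (by norm_num) (by norm_num) (by norm_num)) (by norm_num) (by norm_num)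
  have hx2 : sx κ t ≤ 0.571 := sx_hi h 1.21 0.482 0.482 0.61755 0.571 hk2 hy1 (by norm_num) (by rw [abs_of_nonneg (by linarith)]; linarith) (expm_le (by norm_num) (by norm_num) (by norm_num)) (by norm_num) (by norm_num)
  exact JB7_k2b_b24_0 hβ hN hx1 hx2 (by linarith) (by linarith)

private theorem JB7_k2b_b25_0 {β x y : ℝ} (hβ : 0 < β) (hN : β * 13.746 ≤ 1) (hx1 : 0.4488 ≤ x) (hx2 : x ≤ 0.6019)
    (hy1 : -0 ≤ y) (hy2 : y ≤ 0.542) : ‖HH β (x + y * I) - 1‖ ≤ 0.15 := by
  refine le_epsJ (C := 1.3326) (N0 := 13.746) (J_boxp 0.4488 0.6019 0 0.542 0.542 1.026 0.81 1.6554 1.2381 0.5133 3.7076 13.746 0.7895 2.913 1.428 1.1886 0.5129 0.3779 1.1619 3.6998 0.5177 1.0661 0.1436 0.8539 0.0008675 0.00555 0.0000003101 0.0000003101 0.0008121 0.0000004327 0.1395 0.000008001 1.3326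
    hβ hN hx1 hx2 hy1 hy2 (by norm_num) (by norm_num) (by linarith) (by norm_num) (by norm_num) (by norm_num) (by norm_num) (by norm_num) (by norm_num) (by norm_num) (by norm_num) (by norm_num) (by norm_num) (by norm_num) (by norm_num) (by norm_num) (by norm_num) (by norm_num) (by norm_num) (by norm_num) (by norm_num) (by norm_num) (by norm_num) (by norm_num)
    (cube_sqrt_geJ (s := 0.8583) (by norm_num) (by norm_num) (by norm_num) (by norm_num))
    (cube_sqrt_geJ (s := 0.9504) (by norm_num) (by norm_num) (by norm_num) (by norm_num))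
    (by norm_num) (by norm_num) (by norm_num) (by norm_num) (by norm_num) (by norm_num) (by norm_num) (by norm_num) (by norm_num) (by norm_num) (by norm_num) (by norm_num) (by norm_num) (by norm_num) (by norm_num) (by norm_num) (by norm_num) (by norm_num)
    (exp_neg_leJ (r := 0.05) 7 (by norm_num) (by norm_num) (by norm_num) (by norm_num))
    (exp_neg_leJ (r := 0.194) 5 (by norm_num) (by norm_num) (by norm_num) (by norm_num))
    (exp_neg_leJ (r := 0.99) 14 (by norm_num) (by norm_num) (by norm_num) (by norm_num))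
    (exp_neg_leJ (r := 0.99) 14 (by norm_num) (by norm_num) (by norm_num) (by norm_num))
    (exp_neg_leJ (r := 0.116) 7 (by norm_num) (by norm_num) (by norm_num) (by norm_num))
    (exp_neg_leJ (r := 0.654) 14 (by norm_num) (by norm_num) (by norm_num) (by norm_num))
    (exp_neg_leJ (r := 0.973) 1 (by norm_num) (by norm_num) (by norm_num) (by norm_num))
    (exp_neg_leJ (r := 0.737) 11 (by norm_num) (by norm_num) (by norm_num) (by norm_num))
    (by norm_num)) (by norm_num) hN hβ.le (by norm_num)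

private theorem JB7_k2b_b25_1 {β x y : ℝ} (hβ : 0 < β) (hN : β * 13.746 ≤ 1) (hx1 : 0.4323 ≤ x) (hx2 : x ≤ 0.4932)
    (hy1 : -0 ≤ y) (hy2 : y ≤ 0.549) : ‖HH β (x + y * I) - 1‖ ≤ 0.15 := by
  refine le_epsJ (C := 2.0238) (N0 := 13.746) (J_boxp 0.4323 0.4932 0 0.549 0.549 1.0144 0.7381 1.6257 1.248 0.5087 3.7076 13.746 0.7277 2.645 1.387 1.2304 0.5071 0.3841 1.1562 3.7527 0.509 1.0425 0.0806 0.9833 0.0009427 0.005098 0.0000003101 0.0000003101 0.0009243 0.0000005979 0.3306 0.00000135 2.0238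
    hβ hN hx1 hx2 hy1 hy2 (by norm_num) (by norm_num) (by linarith) (by norm_num) (by norm_num) (by norm_num) (by norm_num) (by norm_num) (by norm_num) (by norm_num) (by norm_num) (by norm_num) (by norm_num) (by norm_num) (by norm_num) (by norm_num) (by norm_num) (by norm_num) (by norm_num) (by norm_num) (by norm_num) (by norm_num) (by norm_num) (by norm_num)
    (cube_sqrt_geJ (s := 0.8703) (by norm_num) (by norm_num) (by norm_num) (by norm_num))
    (cube_sqrt_geJ (s := 0.9544) (by norm_num) (by norm_num) (by norm_num) (by norm_num))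
    (by norm_num) (by norm_num) (by norm_num) (by norm_num) (by norm_num) (by norm_num) (by norm_num) (by norm_num) (by norm_num) (by norm_num) (by norm_num) (by norm_num) (by norm_num) (by norm_num) (by norm_num) (by norm_num) (by norm_num) (by norm_num)
    (exp_neg_leJ (r := 0.97) 6 (by norm_num) (by norm_num) (by norm_num) (by norm_num))
    (exp_neg_leJ (r := 0.279) 5 (by norm_num) (by norm_num) (by norm_num) (by norm_num))
    (exp_neg_leJ (r := 0.99) 14 (by norm_num) (by norm_num) (by norm_num) (by norm_num))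
    (exp_neg_leJ (r := 0.99) 14 (by norm_num) (by norm_num) (by norm_num) (by norm_num))
    (exp_neg_leJ (r := 0.99) 6 (by norm_num) (by norm_num) (by norm_num) (by norm_num))
    (exp_neg_leJ (r := 0.33) 14 (by norm_num) (by norm_num) (by norm_num) (by norm_num))
    (exp_neg_leJ (r := 0.107) 1 (by norm_num) (by norm_num) (by norm_num) (by norm_num))
    (exp_neg_leJ (r := 0.516) 13 (by norm_num) (by norm_num) (by norm_num) (by norm_num))
    (by norm_num)) (by norm_num) hN hβ.le (by norm_num)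

theorem JB7_k2b_c25 {κ t β : ℝ} (h : DomR κ t) (hβ : 0 < β) (hk1 : 1.21 ≤ κ) (hk2 : κ ≤ 1.26)
    (ht1 : 1.38 ≤ t + κ) (ht2 : t + κ ≤ 1.6) (hR0 : β * 10 ≤ κ) (hR : β * (6.75 * (1 + κ ^ 2)) ≤ κ) :
    ‖HH β (sg κ t) - 1‖ ≤ 0.15 := by
  have hN : β * 13.746 ≤ 1 := bNC' hβ hk1 (by norm_num) (by norm_num) hR (by norm_num)
  have hy1 : 0.487 ≤ sy κ t := syR_ge h 1.21 1.26 1.38 0.487 1.62742 1.62743 0.62901 0.65501 hk1 hk2 (by linarith) (by norm_num) (by norm_num)
    (expn_ge (by norm_num) (by norm_num)) (expn_le (by norm_num) (by norm_num) (by norm_num)) (by norm_num)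
    (by norm_num) (by norm_num) (by norm_num) (by norm_num) (by norm_num) (by norm_num)
  have hy2 : sy κ t ≤ 0.549 := syR_ang2 h 1.21 1.26 1.6 0.854 0.6576 0.754 0.549 0.57753 1.73151 hk1 hk2 (by linarith) (by norm_num) (by norm_num) (by norm_num)
    (cos_le_num (by norm_num)) (sin_le_num (by norm_num) (by norm_num)) (expm_le (by norm_num) (by norm_num) (by norm_num))
    (expn_ge (by norm_num) (by norm_num)) (by norm_num) (by norm_num) (by norm_num) (by norm_num) (by norm_num)
  rcases le_total (sy κ t) 0.542 with f0 | g0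
  · have hx1 : 0.4488 ≤ sx κ t := sx_lo h 1.21 0.542 0.542 0.58158 0.4488 hk1 (by norm_num) f0 (abs_le.2 ⟨by linarith, by linarith⟩) (expm_ge (by norm_num) (by norm_num) (by norm_num) (by norm_num)) (by norm_num) (by norm_num)
    have hx2 : sx κ t ≤ 0.6019 := sx_hi h 1.26 0.487 0.487 0.61447 0.6019 hk2 hy1 (by norm_num) (by rw [abs_of_nonneg (by linarith)]; linarith) (expm_le (by norm_num) (by norm_num) (by norm_num)) (by norm_num) (by norm_num)
    exact JB7_k2b_b25_0 hβ hN hx1 hx2 (by linarith) (by linarith)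
  have hx1 : 0.4323 ≤ sx κ t := sx_lo h 1.21 0.549 0.549 0.57752 0.4323 hk1 (by norm_num) hy2 (abs_le.2 ⟨by linarith, by linarith⟩) (expm_ge (by norm_num) (by norm_num) (by norm_num) (by norm_num)) (by norm_num) (by norm_num)
  have hx2 : sx κ t ≤ 0.4932 := sx_hi h 1.26 0.542 0.542 0.58159 0.4932 hk2 g0 (by norm_num) (by rw [abs_of_nonneg (by linarith)]; linarith) (expm_le (by norm_num) (by norm_num) (by norm_num)) (by norm_num) (by norm_num)
  exact JB7_k2b_b25_1 hβ hN hx1 hx2 (by linarith) (by linarith)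

private theorem JB7_k2b_b26_0 {β x y : ℝ} (hβ : 0 < β) (hN : β * 13.862 ≤ 1) (hx1 : 0.4685 ≤ x) (hx2 : x ≤ 0.6457)
    (hy1 : -0 ≤ y) (hy2 : y ≤ 0.553) : ‖HH β (x + y * I) - 1‖ ≤ 0.15 := by
  refine le_epsJ (C := 1.4528) (N0 := 13.862) (J_boxp 0.4685 0.6457 0 0.553 0.553 1.0399 0.8502 1.6819 1.223 0.5174 3.7232 13.862 0.8176 3.046 1.447 1.1717 0.5199 0.3782 1.1686 3.6754 0.5261 1.0922 0.1358 0.7322 0.0007422 0.00529 0.0000003101 0.0000003101 0.000681 0.0000003101 0.1527 0.00003912 1.4528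
    hβ hN hx1 hx2 hy1 hy2 (by norm_num) (by norm_num) (by linarith) (by norm_num) (by norm_num) (by norm_num) (by norm_num) (by norm_num) (by norm_num) (by norm_num) (by norm_num) (by norm_num) (by norm_num) (by norm_num) (by norm_num) (by norm_num) (by norm_num) (by norm_num) (by norm_num) (by norm_num) (by norm_num) (by norm_num) (by norm_num) (by norm_num)
    (cube_sqrt_geJ (s := 0.8529) (by norm_num) (by norm_num) (by norm_num) (by norm_num))
    (cube_sqrt_geJ (s := 0.9486) (by norm_num) (by norm_num) (by norm_num) (by norm_num))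
    (by norm_num) (by norm_num) (by norm_num) (by norm_num) (by norm_num) (by norm_num) (by norm_num) (by norm_num) (by norm_num) (by norm_num) (by norm_num) (by norm_num) (by norm_num) (by norm_num) (by norm_num) (by norm_num) (by norm_num) (by norm_num)
    (exp_neg_leJ (r := 0.206) 7 (by norm_num) (by norm_num) (by norm_num) (by norm_num))
    (exp_neg_leJ (r := 0.242) 5 (by norm_num) (by norm_num) (by norm_num) (by norm_num))
    (exp_neg_leJ (r := 0.99) 14 (by norm_num) (by norm_num) (by norm_num) (by norm_num))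
    (exp_neg_leJ (r := 0.99) 14 (by norm_num) (by norm_num) (by norm_num) (by norm_num))
    (exp_neg_leJ (r := 0.292) 7 (by norm_num) (by norm_num) (by norm_num) (by norm_num))
    (exp_neg_leJ (r := 0.99) 14 (by norm_num) (by norm_num) (by norm_num) (by norm_num))
    (exp_neg_leJ (r := 0.882) 1 (by norm_num) (by norm_num) (by norm_num) (by norm_num))
    (exp_neg_leJ (r := 0.149) 10 (by norm_num) (by norm_num) (by norm_num) (by norm_num))
    (by norm_num)) (by norm_num) hN hβ.le (by norm_num)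

private theorem JB7_k2b_b26_1 {β x y : ℝ} (hβ : 0 < β) (hN : β * 13.862 ≤ 1) (hx1 : 0.4544 ≤ x) (hx2 : x ≤ 0.5287)
    (hy1 : -0 ≤ y) (hy2 : y ≤ 0.559) : ‖HH β (x + y * I) - 1‖ ≤ 0.15 := by
  refine le_epsJ (C := 2.0453) (N0 := 13.862) (J_boxp 0.4544 0.5287 0 0.559 0.559 1.03 0.7695 1.6463 1.2275 0.5119 3.7232 13.862 0.7471 2.726 1.4 1.2167 0.5149 0.3867 1.1638 3.7333 0.5187 1.0721 0.0819 0.8951 0.0007952 0.004702 0.0000003101 0.0000003101 0.0007541 0.0000003523 0.3215 0.000004091 2.0453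
    hβ hN hx1 hx2 hy1 hy2 (by norm_num) (by norm_num) (by linarith) (by norm_num) (by norm_num) (by norm_num) (by norm_num) (by norm_num) (by norm_num) (by norm_num) (by norm_num) (by norm_num) (by norm_num) (by norm_num) (by norm_num) (by norm_num) (by norm_num) (by norm_num) (by norm_num) (by norm_num) (by norm_num) (by norm_num) (by norm_num) (by norm_num)
    (cube_sqrt_geJ (s := 0.8665) (by norm_num) (by norm_num) (by norm_num) (by norm_num))
    (cube_sqrt_geJ (s := 0.9531) (by norm_num) (by norm_num) (by norm_num) (by norm_num))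
    (by norm_num) (by norm_num) (by norm_num) (by norm_num) (by norm_num) (by norm_num) (by norm_num) (by norm_num) (by norm_num) (by norm_num) (by norm_num) (by norm_num) (by norm_num) (by norm_num) (by norm_num) (by norm_num) (by norm_num) (by norm_num)
    (exp_neg_leJ (r := 0.137) 7 (by norm_num) (by norm_num) (by norm_num) (by norm_num))
    (exp_neg_leJ (r := 0.36) 5 (by norm_num) (by norm_num) (by norm_num) (by norm_num))
    (exp_neg_leJ (r := 0.99) 14 (by norm_num) (by norm_num) (by norm_num) (by norm_num))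
    (exp_neg_leJ (r := 0.99) 14 (by norm_num) (by norm_num) (by norm_num) (by norm_num))
    (exp_neg_leJ (r := 0.19) 7 (by norm_num) (by norm_num) (by norm_num) (by norm_num))
    (exp_neg_leJ (r := 0.861) 14 (by norm_num) (by norm_num) (by norm_num) (by norm_num))
    (exp_neg_leJ (r := 0.135) 1 (by norm_num) (by norm_num) (by norm_num) (by norm_num))
    (exp_neg_leJ (r := 0.407) 12 (by norm_num) (by norm_num) (by norm_num) (by norm_num))
    (by norm_num)) (by norm_num) hN hβ.le (by norm_num)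

theorem JB7_k2b_c26 {κ t β : ℝ} (h : DomR κ t) (hβ : 0 < β) (hk1 : 1.26 ≤ κ) (hk2 : κ ≤ 1.33)
    (ht1 : 1.38 ≤ t + κ) (ht2 : t + κ ≤ 1.6) (hR0 : β * 10 ≤ κ) (hR : β * (6.75 * (1 + κ ^ 2)) ≤ κ) :
    ‖HH β (sg κ t) - 1‖ ≤ 0.15 := by
  have hN : β * 13.862 ≤ 1 := bNC' hβ hk1 (by norm_num) (by norm_num) hR (by norm_num)
  have hy1 : 0.493 ≤ sy κ t := syR_ge h 1.26 1.33 1.38 0.493 1.63721 1.63723 0.60687 0.6406 hk1 hk2 (by linarith) (by norm_num) (by norm_num)
    (expn_ge (by norm_num) (by norm_num)) (expn_le (by norm_num) (by norm_num) (by norm_num)) (by norm_num)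
    (by norm_num) (by norm_num) (by norm_num) (by norm_num) (by norm_num) (by norm_num)
  have hy2 : sy κ t ≤ 0.559 := syR_le h 1.26 1.33 1.6 0.559 1.74891 0.7248 0.73506 0.77592 hk1 hk2 (by linarith) (by norm_num) (by norm_num)
    (expn_ge (by norm_num) (by norm_num)) (by norm_num) (by norm_num) (Or.inr ((mul_le_mul_of_nonneg_left (expn_le (E := 1.74893) (by norm_num) (by norm_num) (by norm_num)) (by norm_num)).trans (by norm_num))) (by norm_num) (by norm_num) (by norm_num)
  rcases le_total (sy κ t) 0.553 with f0 | g0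
  · have hx1 : 0.4685 ≤ sx κ t := sx_lo h 1.26 0.553 0.553 0.57522 0.4685 hk1 (by norm_num) f0 (abs_le.2 ⟨by linarith, by linarith⟩) (expm_ge (by norm_num) (by norm_num) (by norm_num) (by norm_num)) (by norm_num) (by norm_num)
    have hx2 : sx κ t ≤ 0.6457 := sx_hi h 1.33 0.493 0.493 0.6108 0.6457 hk2 hy1 (by norm_num) (by rw [abs_of_nonneg (by linarith)]; linarith) (expm_le (by norm_num) (by norm_num) (by norm_num)) (by norm_num) (by norm_num)
    exact JB7_k2b_b26_0 hβ hN hx1 hx2 (by linarith) (by linarith)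
  have hx1 : 0.4544 ≤ sx κ t := sx_lo h 1.26 0.559 0.559 0.57178 0.4544 hk1 (by norm_num) hy2 (abs_le.2 ⟨by linarith, by linarith⟩) (expm_ge (by norm_num) (by norm_num) (by norm_num) (by norm_num)) (by norm_num) (by norm_num)
  have hx2 : sx κ t ≤ 0.5287 := sx_hi h 1.33 0.553 0.553 0.57523 0.5287 hk2 g0 (by norm_num) (by rw [abs_of_nonneg (by linarith)]; linarith) (expm_le (by norm_num) (by norm_num) (by norm_num)) (by norm_num) (by norm_num)
  exact JB7_k2b_b26_1 hβ hN hx1 hx2 (by linarith) (by linarith)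

private theorem JB7_k2b_b27_0 {β x y : ℝ} (hβ : 0 < β) (hN : β * 14.052 ≤ 1) (hx1 : 0.5021 ≤ x) (hx2 : x ≤ 0.6789)
    (hy1 : -0 ≤ y) (hy2 : y ≤ 0.565) : ‖HH β (x + y * I) - 1‖ ≤ 0.15 := by
  refine le_epsJ (C := 1.3209) (N0 := 14.052) (J_boxp 0.5021 0.6789 0 0.565 0.565 1.0636 0.8833 1.706 1.1908 0.5211 3.7486 14.052 0.8305 3.11 1.456 1.159 0.5317 0.3845 1.1801 3.6563 0.5412 1.1375 0.1516 0.6528 0.0005695 0.004508 0.0000003101 0.0000003101 0.0004987 0.0000003101 0.1189 0.0001039 1.3209
    hβ hN hx1 hx2 hy1 hy2 (by norm_num) (by norm_num) (by linarith) (by norm_num) (by norm_num) (by norm_num) (by norm_num) (by norm_num) (by norm_num) (by norm_num) (by norm_num) (by norm_num) (by norm_num) (by norm_num) (by norm_num) (by norm_num) (by norm_num) (by norm_num) (by norm_num) (by norm_num) (by norm_num) (by norm_num) (by norm_num) (by norm_num)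
    (cube_sqrt_geJ (s := 0.8503) (by norm_num) (by norm_num) (by norm_num) (by norm_num))
    (cube_sqrt_geJ (s := 0.9477) (by norm_num) (by norm_num) (by norm_num) (by norm_num))
    (by norm_num) (by norm_num) (by norm_num) (by norm_num) (by norm_num) (by norm_num) (by norm_num) (by norm_num) (by norm_num) (by norm_num) (by norm_num) (by norm_num) (by norm_num) (by norm_num) (by norm_num) (by norm_num) (by norm_num) (by norm_num)
    (exp_neg_leJ (r := 0.471) 7 (by norm_num) (by norm_num) (by norm_num) (by norm_num))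
    (exp_neg_leJ (r := 0.402) 5 (by norm_num) (by norm_num) (by norm_num) (by norm_num))
    (exp_neg_leJ (r := 0.99) 14 (by norm_num) (by norm_num) (by norm_num) (by norm_num))
    (exp_neg_leJ (r := 0.99) 14 (by norm_num) (by norm_num) (by norm_num) (by norm_num))
    (exp_neg_leJ (r := 0.604) 7 (by norm_num) (by norm_num) (by norm_num) (by norm_num))
    (exp_neg_leJ (r := 0.99) 14 (by norm_num) (by norm_num) (by norm_num) (by norm_num))
    (exp_neg_leJ (r := 0.13) 2 (by norm_num) (by norm_num) (by norm_num) (by norm_num))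
    (exp_neg_leJ (r := 0.173) 9 (by norm_num) (by norm_num) (by norm_num) (by norm_num))
    (by norm_num)) (by norm_num) hN hβ.le (by norm_num)

theorem JB7_k2b_c27 {κ t β : ℝ} (h : DomR κ t) (hβ : 0 < β) (hk1 : 1.33 ≤ κ) (hk2 : κ ≤ 1.39)
    (ht1 : 1.38 ≤ t + κ) (ht2 : t + κ ≤ 1.6) (hR0 : β * 10 ≤ κ) (hR : β * (6.75 * (1 + κ ^ 2)) ≤ κ) :
    ‖HH β (sg κ t) - 1‖ ≤ 0.15 := by
  have hN : β * 14.052 ≤ 1 := bNC' hβ hk1 (by norm_num) (by norm_num) hR (by norm_num)
  have hy1 : 0.5 ≤ sy κ t := syR_ge h 1.33 1.39 1.38 0.5 1.64871 1.64873 0.59306 0.61983 hk1 hk2 (by linarith) (by norm_num) (by norm_num)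
    (expn_ge (by norm_num) (by norm_num)) (expn_le (by norm_num) (by norm_num) (by norm_num)) (by norm_num)
    (by norm_num) (by norm_num) (by norm_num) (by norm_num) (by norm_num) (by norm_num)
  have hy2 : sy κ t ≤ 0.565 := syR_le h 1.33 1.39 1.6 0.565 1.75944 0.707 0.71516 0.74744 hk1 hk2 (by linarith) (by norm_num) (by norm_num)
    (expn_ge (by norm_num) (by norm_num)) (by norm_num) (by norm_num) (Or.inr ((mul_le_mul_of_nonneg_left (expn_le (E := 1.75945) (by norm_num) (by norm_num) (by norm_num)) (by norm_num)).trans (by norm_num))) (by norm_num) (by norm_num) (by norm_num)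
  have hx1 : 0.5021 ≤ sx κ t := sx_lo h 1.33 0.565 0.565 0.56836 0.5021 hk1 (by norm_num) hy2 (abs_le.2 ⟨by linarith, by linarith⟩) (expm_ge (by norm_num) (by norm_num) (by norm_num) (by norm_num)) (by norm_num) (by norm_num)
  have hx2 : sx κ t ≤ 0.6789 := sx_hi h 1.39 0.5 0.5 0.60654 0.6789 hk2 hy1 (by norm_num) (by rw [abs_of_nonneg (by linarith)]; linarith) (expm_le (by norm_num) (by norm_num) (by norm_num)) (by norm_num) (by norm_num)
  exact JB7_k2b_b27_0 hβ hN hx1 hx2 (by linarith) (by linarith)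
end Sok
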