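import Pool.Agent.Lib.MP_816dec_an.JBG2
import Pool.Agent.Lib.MP_816dec_an.JB7bp1
import Pool.Agent.Lib.MP_816dec_an.JB7bp2
import Pool.Agent.Lib.MP_816dec_an.JB7bp3
import Pool.Agent.Lib.MP_816dec_an.JB7bp4
import Pool.Agent.Lib.MP_816dec_an.JB7bp5
import Pool.Agent.Lib.MP_816dec_an.JB7bp6

/-!
MP_816dec_an (A3, row R1): tables b = 7, real points.
-/

set_option autoImplicit false
set_option maxHeartbeats 4000000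

open Complex Set

namespace Sok

theorem JB7_k0b {κ t β : ℝ} (h : DomR κ t) (hβ : 0 < β) (hk1 : 0.27 ≤ κ) (hk2 : κ ≤ 1.39)
    (ht1 : -0.86 ≤ t + κ) (ht2 : t + κ ≤ -0.6) (hR0 : β * 10 ≤ κ) (hR : β * (6.75 * (1 + κ ^ 2)) ≤ κ) :
    ‖HH β (sg κ t) - 1‖ ≤ 0.15 := by
  rcases le_total κ 0.34 with f0 | g0
  · exact JB7_k0b_c0 h hβ hk1 f0 ht1 ht2 hR0 hR
  rcases le_total κ 0.4 with f1 | g1
  · exact JB7_k0b_c1 h hβ g0 f1 ht1 ht2 hR0 hR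
  rcases le_total κ 0.44 with f2 | g2
  · exact JB7_k0b_c2 h hβ g1 f2 ht1 ht2 hR0 hR
  rcases le_total κ 0.47 with f3 | g3
  · exact JB7_k0b_c3 h hβ g2 f3 ht1 ht2 hR0 hR
  rcases le_total κ 0.5 with f4 | g4
  · exact JB7_k0b_c4 h hβ g3 f4 ht1 ht2 hR0 hR
  rcases le_total κ 0.53 with f5 | g5
  · exact JB7_k0b_c5 h hβ g4 f5 ht1 ht2 hR0 hR
  rcases le_total κ 0.56 with f6 | g6
  · exact JB7_k0b_c6 h hβ g5 f6 ht1 ht2 hR0 hR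
  rcases le_total κ 0.59 with f7 | g7
  · exact JB7_k0b_c7 h hβ g6 f7 ht1 ht2 hR0 hR
  rcases le_total κ 0.62 with f8 | g8
  · exact JB7_k0b_c8 h hβ g7 f8 ht1 ht2 hR0 hR
  rcases le_total κ 0.65 with f9 | g9
  · exact JB7_k0b_c9 h hβ g8 f9 ht1 ht2 hR0 hR
  rcases le_total κ 0.69 with f10 | g10
  · exact JB7_k0b_c10 h hβ g9 f10 ht1 ht2 hR0 hR
  rcases le_total κ 0.74 with f11 | g11
  · exact JB7_k0b_c11 h hβ g10 f11 ht1 ht2 hR0 hR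
  rcases le_total κ 0.81 with f12 | g12
  · exact JB7_k0b_c12 h hβ g11 f12 ht1 ht2 hR0 hR
  rcases le_total κ 0.9 with f13 | g13
  · exact JB7_k0b_c13 h hβ g12 f13 ht1 ht2 hR0 hR
  rcases le_total κ 1 with f14 | g14
  · exact JB7_k0b_c14 h hβ g13 f14 ht1 ht2 hR0 hR
  rcases le_total κ 1.18 with f15 | g15
  · exact JB7_k0b_c15 h hβ g14 f15 ht1 ht2 hR0 hR
  exact JB7_k0b_c16 h hβ g15 hk2 ht1 ht2 hR0 hR

theorem JB7_k2a {κ t β : ℝ} (h : DomR κ t) (hβ : 0 < β) (hk1 : 0.27 ≤ κ) (hk2 : κ ≤ 1.39)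
    (ht1 : 0.94 ≤ t + κ) (ht2 : t + κ ≤ 1.4) (hR0 : β * 10 ≤ κ) (hR : β * (6.75 * (1 + κ ^ 2)) ≤ κ) :
    ‖HH β (sg κ t) - 1‖ ≤ 0.06 := by
  rcases le_total κ 0.46 with f0 | g0
  · exact JB7_k2a_c0 h hβ hk1 f0 ht1 ht2 hR0 hR
  rcases le_total κ 0.68 with f1 | g1
  · exact JB7_k2a_c1 h hβ g0 f1 ht1 ht2 hR0 hR
  rcases le_total κ 0.74 with f2 | g2
  · exact JB7_k2a_c2 h hβ g1 f2 ht1 ht2 hR0 hR
  rcases le_total κ 0.8 with f3 | g3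
  · exact JB7_k2a_c3 h hβ g2 f3 ht1 ht2 hR0 hR
  rcases le_total κ 0.86 with f4 | g4
  · exact JB7_k2a_c4 h hβ g3 f4 ht1 ht2 hR0 hR
  rcases le_total κ 0.92 with f5 | g5
  · exact JB7_k2a_c5 h hβ g4 f5 ht1 ht2 hR0 hR
  rcases le_total κ 0.99 with f6 | g6
  · exact JB7_k2a_c6 h hβ g5 f6 ht1 ht2 hR0 hR
  rcases le_total κ 1 with f7 | g7
  · exact JB7_k2a_c7 h hβ g6 f7 ht1 ht2 hR0 hR
  rcases le_total κ 1.1 with f8 | g8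
  · exact JB7_k2a_c8 h hβ g7 f8 ht1 ht2 hR0 hR
  rcases le_total κ 1.25 with f9 | g9
  · exact JB7_k2a_c9 h hβ g8 f9 ht1 ht2 hR0 hR
  exact JB7_k2a_c10 h hβ g9 hk2 ht1 ht2 hR0 hR

theorem JB7_k2b {κ t β : ℝ} (h : DomR κ t) (hβ : 0 < β) (hk1 : 0.27 ≤ κ) (hk2 : κ ≤ 1.39)
    (ht1 : 1.38 ≤ t + κ) (ht2 : t + κ ≤ 1.6) (hR0 : β * 10 ≤ κ) (hR : β * (6.75 * (1 + κ ^ 2)) ≤ κ) :
    ‖HH β (sg κ t) - 1‖ ≤ 0.15 := by
  rcases le_total κ 0.51 with f0 | g0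
  · exact JB7_k2b_c0 h hβ hk1 f0 ht1 ht2 hR0 hR
  rcases le_total κ 0.56 with f1 | g1
  · exact JB7_k2b_c1 h hβ g0 f1 ht1 ht2 hR0 hR
  rcases le_total κ 0.57 with f2 | g2
  · exact JB7_k2b_c2 h hβ g1 f2 ht1 ht2 hR0 hR
  rcases le_total κ 0.73 with f3 | g3
  · exact JB7_k2b_c3 h hβ g2 f3 ht1 ht2 hR0 hR
  rcases le_total κ 0.76 with f4 | g4
  · exact JB7_k2b_c4 h hβ g3 f4 ht1 ht2 hR0 hR
  rcases le_total κ 0.78 with f5 | g5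
  · exact JB7_k2b_c5 h hβ g4 f5 ht1 ht2 hR0 hR
  rcases le_total κ 0.8 with f6 | g6
  · exact JB7_k2b_c6 h hβ g5 f6 ht1 ht2 hR0 hR
  rcases le_total κ 0.82 with f7 | g7
  · exact JB7_k2b_c7 h hβ g6 f7 ht1 ht2 hR0 hR
  rcases le_total κ 0.84 with f8 | g8
  · exact JB7_k2b_c8 h hβ g7 f8 ht1 ht2 hR0 hR
  rcases le_total κ 0.86 with f9 | g9
  · exact JB7_k2b_c9 h hβ g8 f9 ht1 ht2 hR0 hR
  rcases le_total κ 0.88 with f10 | g10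
  · exact JB7_k2b_c10 h hβ g9 f10 ht1 ht2 hR0 hR
  rcases le_total κ 0.9 with f11 | g11
  · exact JB7_k2b_c11 h hβ g10 f11 ht1 ht2 hR0 hR
  rcases le_total κ 0.92 with f12 | g12
  · exact JB7_k2b_c12 h hβ g11 f12 ht1 ht2 hR0 hR
  rcases le_total κ 0.94 with f13 | g13
  · exact JB7_k2b_c13 h hβ g12 f13 ht1 ht2 hR0 hR
  rcases le_total κ 0.96 with f14 | g14
  · exact JB7_k2b_c14 h hβ g13 f14 ht1 ht2 hR0 hR
  rcases le_total κ 0.98 with f15 | g15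
  · exact JB7_k2b_c15 h hβ g14 f15 ht1 ht2 hR0 hR
  rcases le_total κ 1 with f16 | g16
  · exact JB7_k2b_c16 h hβ g15 f16 ht1 ht2 hR0 hR
  rcases le_total κ 1.02 with f17 | g17
  · exact JB7_k2b_c17 h hβ g16 f17 ht1 ht2 hR0 hR
  rcases le_total κ 1.04 with f18 | g18
  · exact JB7_k2b_c18 h hβ g17 f18 ht1 ht2 hR0 hR
  rcases le_total κ 1.06 with f19 | g19
  · exact JB7_k2b_c19 h hβ g18 f19 ht1 ht2 hR0 hR
  rcases le_total κ 1.08 with f20 | g20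
  · exact JB7_k2b_c20 h hβ g19 f20 ht1 ht2 hR0 hR
  rcases le_total κ 1.11 with f21 | g21
  · exact JB7_k2b_c21 h hβ g20 f21 ht1 ht2 hR0 hR
  rcases le_total κ 1.14 with f22 | g22
  · exact JB7_k2b_c22 h hβ g21 f22 ht1 ht2 hR0 hR
  rcases le_total κ 1.17 with f23 | g23
  · exact JB7_k2b_c23 h hβ g22 f23 ht1 ht2 hR0 hR
  rcases le_total κ 1.21 with f24 | g24
  · exact JB7_k2b_c24 h hβ g23 f24 ht1 ht2 hR0 hR
  rcases le_total κ 1.26 with f25 | g25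
  · exact JB7_k2b_c25 h hβ g24 f25 ht1 ht2 hR0 hR
  rcases le_total κ 1.33 with f26 | g26
  · exact JB7_k2b_c26 h hβ g25 f26 ht1 ht2 hR0 hR
  exact JB7_k2b_c27 h hβ g26 hk2 ht1 ht2 hR0 hR
end Sok
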