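import Pool.Agent.Lib.MP_816dec_an.JBG2

/-!
MP_816dec_an (A3, row R1): tables b = 8, real points.
-/

set_option autoImplicit false
set_option maxHeartbeats 4000000

open Complex Set

namespace Sok

private theorem JB8_k1_b0_0 {β x y : ℝ} (hβ : 0 < β) (hN : β * 21.096 ≤ 1) (hx1 : 0.1446 ≤ x) (hx2 : x ≤ 0.5357)
    (hy1 : -0 ≤ y) (hy2 : y ≤ 0.148) : ‖HH β (x + y * I) - 1‖ ≤ 0.03 := by
  refine le_epsJ (C := 0.617) (N0 := 21.096) (J_boxp 0.1446 0.5357 0 0.148 0.148 0.8118 0.5558 1.2669 1.5389 0.4491 4.5931 21.096 0.6847 2.477 1.359 1.214 0.4058 0.3132 1.0577 3.7889 0.4101 0.6851 1.2251 2.793 0.0001917 0.001352 0.0000003101 0.0000003101 0.0001751 0.0000005293 0.0000003101 0.0000003101 0.617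
    hβ hN hx1 hx2 hy1 hy2 (by norm_num) (by norm_num) (by linarith) (by norm_num) (by norm_num) (by norm_num) (by norm_num) (by norm_num) (by norm_num) (by norm_num) (by norm_num) (by norm_num) (by norm_num) (by norm_num) (by norm_num) (by norm_num) (by norm_num) (by norm_num) (by norm_num) (by norm_num) (by norm_num) (by norm_num) (by norm_num) (by norm_num)
    (cube_sqrt_geJ (s := 0.8785) (by norm_num) (by norm_num) (by norm_num) (by norm_num))
    (cube_sqrt_geJ (s := 0.9571) (by norm_num) (by norm_num) (by norm_num) (by norm_num))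
    (by norm_num) (by norm_num) (by norm_num) (by norm_num) (by norm_num) (by norm_num) (by norm_num) (by norm_num) (by norm_num) (by norm_num) (by norm_num) (by norm_num) (by norm_num) (by norm_num) (by norm_num) (by norm_num) (by norm_num) (by norm_num)
    (exp_neg_leJ (r := 0.56) 8 (by norm_num) (by norm_num) (by norm_num) (by norm_num))
    (exp_neg_leJ (r := 0.607) 6 (by norm_num) (by norm_num) (by norm_num) (by norm_num))
    (exp_neg_leJ (r := 0.99) 14 (by norm_num) (by norm_num) (by norm_num) (by norm_num))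
    (exp_neg_leJ (r := 0.99) 14 (by norm_num) (by norm_num) (by norm_num) (by norm_num))
    (exp_neg_leJ (r := 0.651) 8 (by norm_num) (by norm_num) (by norm_num) (by norm_num))
    (exp_neg_leJ (r := 0.452) 14 (by norm_num) (by norm_num) (by norm_num) (by norm_num))
    (exp_neg_leJ (r := 0.99) 14 (by norm_num) (by norm_num) (by norm_num) (by norm_num))
    (exp_neg_leJ (r := 0.99) 14 (by norm_num) (by norm_num) (by norm_num) (by norm_num))
    (by norm_num)) (by norm_num) hN hβ.le (by norm_num)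

private theorem JB8_k1_b0_1 {β x y : ℝ} (hβ : 0 < β) (hN : β * 21.096 ≤ 1) (hx1 : 0.0604 ≤ x) (hx2 : x ≤ 0.4416)
    (hy1 : -0 ≤ y) (hy2 : y ≤ 0.193) (hsl : y ≤ 2.45 * x) : ‖HH β (x + y * I) - 1‖ ≤ 0.03 := by
  refine le_epsJ (C := 0.6299) (N0 := 21.096) (J_boxp 0.0604 0.4416 0 0.193 0.193 0.7525 0.482 1.2722 1.7279 0.45 4.5931 21.096 0.6406 2.319 1.332 1.2502 0.3762 0.2959 1.0289 3.8378 0.3646 0.5639 0.8637 2.6132 0.0003587 0.001946 0.0000003101 0.0000003101 0.0004573 0.000006834 0.0000003101 0.0000003101 0.6299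
    hβ hN hx1 hx2 hy1 hy2 (by norm_num) (by norm_num) hsl (by norm_num) (by norm_num) (by norm_num) (by norm_num) (by norm_num) (by norm_num) (by norm_num) (by norm_num) (by norm_num) (by norm_num) (by norm_num) (by norm_num) (by norm_num) (by norm_num) (by norm_num) (by norm_num) (by norm_num) (by norm_num) (by norm_num) (by norm_num) (by norm_num)
    (cube_sqrt_geJ (s := 0.8868) (by norm_num) (by norm_num) (by norm_num) (by norm_num))
    (cube_sqrt_geJ (s := 0.9599) (by norm_num) (by norm_num) (by norm_num) (by norm_num))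
    (by norm_num) (by norm_num) (by norm_num) (by norm_num) (by norm_num) (by norm_num) (by norm_num) (by norm_num) (by norm_num) (by norm_num) (by norm_num) (by norm_num) (by norm_num) (by norm_num) (by norm_num) (by norm_num) (by norm_num) (by norm_num)
    (exp_neg_leJ (r := 0.936) 7 (by norm_num) (by norm_num) (by norm_num) (by norm_num))
    (exp_neg_leJ (r := 0.242) 6 (by norm_num) (by norm_num) (by norm_num) (by norm_num))
    (exp_neg_leJ (r := 0.99) 14 (by norm_num) (by norm_num) (by norm_num) (by norm_num))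
    (exp_neg_leJ (r := 0.99) 14 (by norm_num) (by norm_num) (by norm_num) (by norm_num))
    (exp_neg_leJ (r := 0.691) 7 (by norm_num) (by norm_num) (by norm_num) (by norm_num))
    (exp_neg_leJ (r := 0.896) 11 (by norm_num) (by norm_num) (by norm_num) (by norm_num))
    (exp_neg_leJ (r := 0.99) 14 (by norm_num) (by norm_num) (by norm_num) (by norm_num))
    (exp_neg_leJ (r := 0.99) 14 (by norm_num) (by norm_num) (by norm_num) (by norm_num))
    (by norm_num)) (by norm_num) hN hβ.le (by norm_num)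

private theorem JB8_k1_b0_2 {β x y : ℝ} (hβ : 0 < β) (hN : β * 21.096 ≤ 1) (hx1 : 0.0787 ≤ x) (hx2 : x ≤ 0.4013)
    (hy1 : -0 ≤ y) (hy2 : y ≤ 0.249) (hsl : y ≤ 2.45 * x) : ‖HH β (x + y * I) - 1‖ ≤ 0.03 := by
  refine le_epsJ (C := 0.5736) (N0 := 21.096) (J_boxp 0.0787 0.4013 0 0.249 0.249 0.7654 0.4723 1.3119 1.7105 0.457 4.5931 21.096 0.6171 2.24 1.317 1.2657 0.3826 0.3039 1.0352 3.8529 0.3678 0.5835 0.6601 2.4123 0.0003125 0.001644 0.0000003101 0.0000003101 0.0004274 0.000004512 0.0000008987 0.0000003101 0.5736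
    hβ hN hx1 hx2 hy1 hy2 (by norm_num) (by norm_num) hsl (by norm_num) (by norm_num) (by norm_num) (by norm_num) (by norm_num) (by norm_num) (by norm_num) (by norm_num) (by norm_num) (by norm_num) (by norm_num) (by norm_num) (by norm_num) (by norm_num) (by norm_num) (by norm_num) (by norm_num) (by norm_num) (by norm_num) (by norm_num) (by norm_num)
    (cube_sqrt_geJ (s := 0.8912) (by norm_num) (by norm_num) (by norm_num) (by norm_num))
    (cube_sqrt_geJ (s := 0.9614) (by norm_num) (by norm_num) (by norm_num) (by norm_num))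
    (by norm_num) (by norm_num) (by norm_num) (by norm_num) (by norm_num) (by norm_num) (by norm_num) (by norm_num) (by norm_num) (by norm_num) (by norm_num) (by norm_num) (by norm_num) (by norm_num) (by norm_num) (by norm_num) (by norm_num) (by norm_num)
    (exp_neg_leJ (r := 0.071) 8 (by norm_num) (by norm_num) (by norm_num) (by norm_num))
    (exp_neg_leJ (r := 0.411) 6 (by norm_num) (by norm_num) (by norm_num) (by norm_num))
    (exp_neg_leJ (r := 0.99) 14 (by norm_num) (by norm_num) (by norm_num) (by norm_num))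
    (exp_neg_leJ (r := 0.99) 14 (by norm_num) (by norm_num) (by norm_num) (by norm_num))
    (exp_neg_leJ (r := 0.759) 7 (by norm_num) (by norm_num) (by norm_num) (by norm_num))
    (exp_neg_leJ (r := 0.309) 12 (by norm_num) (by norm_num) (by norm_num) (by norm_num))
    (exp_neg_leJ (r := 0.925) 13 (by norm_num) (by norm_num) (by norm_num) (by norm_num))
    (exp_neg_leJ (r := 0.99) 14 (by norm_num) (by norm_num) (by norm_num) (by norm_num))
    (by norm_num)) (by norm_num) hN hβ.le (by norm_num)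

private theorem JB8_k1_c0 {κ t β : ℝ} (h : DomR κ t) (hβ : 0 < β) (hk1 : 0.24 ≤ κ) (hk2 : κ ≤ 0.54)
    (ht1 : 0.039 ≤ t + κ) (ht2 : t + κ ≤ 0.825) (hR0 : β * 10 ≤ κ) (hR : β * (8.82 * (1 + κ ^ 2)) ≤ κ) :
    ‖HH β (sg κ t) - 1‖ ≤ 0.03 := by
  have hN : β * 21.096 ≤ 1 := bNC hβ h.1 hk2 (by norm_num) (by norm_num) hR (by norm_num)
  have hy1 : 0.008 ≤ sy κ t := syR_ge h 0.24 0.54 0.039 0.008 1.00803 1.00804 0.01493 0.03361 hk1 hk2 (by linarith) (by norm_num) (by norm_num)
    (expn_ge (by norm_num) (by norm_num)) (expn_le (by norm_num) (by norm_num) (by norm_num)) (by norm_num)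
    (by norm_num) (by norm_num) (by norm_num) (by norm_num) (by norm_num) (by norm_num)
  have hy2 : sy κ t ≤ 0.249 := syR_le h 0.24 0.54 0.825 0.249 1.28274 0.5914 0.59148 1 hk1 hk2 (by linarith) (by norm_num) (by norm_num)
    (expn_ge (by norm_num) (by norm_num)) (by norm_num) (by norm_num) (Or.inl (by norm_num)) (by norm_num) (by norm_num) (by norm_num)
  rcases le_total (sy κ t) 0.148 with f0 | g0
  · have hx1 : 0.1446 ≤ sx κ t := sx_lo h 0.24 0.148 0.148 0.86243 0.1446 hk1 (by norm_num) f0 (abs_le.2 ⟨by linarith, by linarith⟩) (expm_ge (by norm_num) (by norm_num) (by norm_num) (by norm_num)) (by norm_num) (by norm_num)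
    have hx2 : sx κ t ≤ 0.5357 := sx_hi h 0.54 0.008 0.008 0.99204 0.5357 hk2 hy1 (by norm_num) (by rw [abs_of_nonneg (by linarith)]; linarith) (expm_le (by norm_num) (by norm_num) (by norm_num)) (by norm_num) (by norm_num)
    exact JB8_k1_b0_0 hβ hN hx1 hx2 (by linarith) (by linarith)
  rcases le_total (sy κ t) 0.193 with f1 | g1
  · have hsl : sy κ t ≤ 2.45 * sx κ t := sy_slope h 0.24 0.825 0.148 0.86244 hk1 (by norm_num) ht2 (by norm_num) g0 (expm_le (by norm_num) (by norm_num) (by norm_num)) (by norm_num)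
    have hx1 : 0.0604 ≤ sx κ t := by linarith
    have hx2 : sx κ t ≤ 0.4416 := sx_hi h 0.54 0.148 0.148 0.86244 0.4416 hk2 g0 (by norm_num) (by rw [abs_of_nonneg (by linarith)]; linarith) (expm_le (by norm_num) (by norm_num) (by norm_num)) (by norm_num) (by norm_num)
    exact JB8_k1_b0_1 hβ hN hx1 hx2 (by linarith) (by linarith) hsl
  have hsl : sy κ t ≤ 2.45 * sx κ t := sy_slope h 0.24 0.825 0.193 0.82449 hk1 (by norm_num) ht2 (by norm_num) g1 (expm_le (by norm_num) (by norm_num) (by norm_num)) (by norm_num)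
  have hx1 : 0.0787 ≤ sx κ t := by linarith
  have hx2 : sx κ t ≤ 0.4013 := sx_hi h 0.54 0.193 0.193 0.82449 0.4013 hk2 g1 (by norm_num) (by rw [abs_of_nonneg (by linarith)]; linarith) (expm_le (by norm_num) (by norm_num) (by norm_num)) (by norm_num) (by norm_num)
  exact JB8_k1_b0_2 hβ hN hx1 hx2 (by linarith) (by linarith) hsl

private theorem JB8_k1_b1_0 {β x y : ℝ} (hβ : 0 < β) (hN : β * 18.132 ≤ 1) (hx1 : 0.4629 ≤ x) (hx2 : x ≤ 0.7773)
    (hy1 : -0 ≤ y) (hy2 : y ≤ 0.121) : ‖HH β (x + y * I) - 1‖ ≤ 0.03 := by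
  refine le_epsJ (C := 0.5411) (N0 := 18.132) (J_boxp 0.4629 0.7773 0 0.121 0.121 1.036 0.7867 1.3642 1.1077 0.466 4.2582 18.132 0.7594 2.778 1.408 1.1211 0.5179 0.3868 1.1667 3.6521 0.5675 1.1285 1.9775 2.9292 0.00008357 0.0009002 0.0000003101 0.0000003101 0.00003401 0.0000003101 0.0000003101 0.0000003101 0.5411
    hβ hN hx1 hx2 hy1 hy2 (by norm_num) (by norm_num) (by linarith) (by norm_num) (by norm_num) (by norm_num) (by norm_num) (by norm_num) (by norm_num) (by norm_num) (by norm_num) (by norm_num) (by norm_num) (by norm_num) (by norm_num) (by norm_num) (by norm_num) (by norm_num) (by norm_num) (by norm_num) (by norm_num) (by norm_num) (by norm_num) (by norm_num)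
    (cube_sqrt_geJ (s := 0.8642) (by norm_num) (by norm_num) (by norm_num) (by norm_num))
    (cube_sqrt_geJ (s := 0.9523) (by norm_num) (by norm_num) (by norm_num) (by norm_num))
    (by norm_num) (by norm_num) (by norm_num) (by norm_num) (by norm_num) (by norm_num) (by norm_num) (by norm_num) (by norm_num) (by norm_num) (by norm_num) (by norm_num) (by norm_num) (by norm_num) (by norm_num) (by norm_num) (by norm_num) (by norm_num)
    (exp_neg_leJ (r := 0.39) 9 (by norm_num) (by norm_num) (by norm_num) (by norm_num))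
    (exp_neg_leJ (r := 0.013) 7 (by norm_num) (by norm_num) (by norm_num) (by norm_num))
    (exp_neg_leJ (r := 0.99) 14 (by norm_num) (by norm_num) (by norm_num) (by norm_num))
    (exp_neg_leJ (r := 0.99) 14 (by norm_num) (by norm_num) (by norm_num) (by norm_num))
    (exp_neg_leJ (r := 0.289) 10 (by norm_num) (by norm_num) (by norm_num) (by norm_num))
    (exp_neg_leJ (r := 0.99) 14 (by norm_num) (by norm_num) (by norm_num) (by norm_num))
    (exp_neg_leJ (r := 0.99) 14 (by norm_num) (by norm_num) (by norm_num) (by norm_num))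
    (exp_neg_leJ (r := 0.99) 14 (by norm_num) (by norm_num) (by norm_num) (by norm_num))
    (by norm_num)) (by norm_num) hN hβ.le (by norm_num)

private theorem JB8_k1_b1_1 {β x y : ℝ} (hβ : 0 < β) (hN : β * 18.132 ≤ 1) (hx1 : 0.3932 ≤ x) (hx2 : x ≤ 0.6895)
    (hy1 : -0 ≤ y) (hy2 : y ≤ 0.201) : ‖HH β (x + y * I) - 1‖ ≤ 0.03 := by
  refine le_epsJ (C := 0.5403) (N0 := 18.132) (J_boxp 0.3932 0.6895 0 0.201 0.201 0.9869 0.7183 1.3849 1.2004 0.4695 4.2582 18.132 0.7279 2.646 1.387 1.1549 0.4934 0.3737 1.1428 3.6976 0.5255 1.0239 1.495 2.5988 0.0001307 0.001144 0.0000003101 0.0000003101 0.00007281 0.0000003101 0.0000003101 0.0000003101 0.5403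
    hβ hN hx1 hx2 hy1 hy2 (by norm_num) (by norm_num) (by linarith) (by norm_num) (by norm_num) (by norm_num) (by norm_num) (by norm_num) (by norm_num) (by norm_num) (by norm_num) (by norm_num) (by norm_num) (by norm_num) (by norm_num) (by norm_num) (by norm_num) (by norm_num) (by norm_num) (by norm_num) (by norm_num) (by norm_num) (by norm_num) (by norm_num)
    (cube_sqrt_geJ (s := 0.8702) (by norm_num) (by norm_num) (by norm_num) (by norm_num))
    (cube_sqrt_geJ (s := 0.9543) (by norm_num) (by norm_num) (by norm_num) (by norm_num))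
    (by norm_num) (by norm_num) (by norm_num) (by norm_num) (by norm_num) (by norm_num) (by norm_num) (by norm_num) (by norm_num) (by norm_num) (by norm_num) (by norm_num) (by norm_num) (by norm_num) (by norm_num) (by norm_num) (by norm_num) (by norm_num)
    (exp_neg_leJ (r := 0.946) 8 (by norm_num) (by norm_num) (by norm_num) (by norm_num))
    (exp_neg_leJ (r := 0.775) 6 (by norm_num) (by norm_num) (by norm_num) (by norm_num))
    (exp_neg_leJ (r := 0.99) 14 (by norm_num) (by norm_num) (by norm_num) (by norm_num))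
    (exp_neg_leJ (r := 0.99) 14 (by norm_num) (by norm_num) (by norm_num) (by norm_num))
    (exp_neg_leJ (r := 0.528) 9 (by norm_num) (by norm_num) (by norm_num) (by norm_num))
    (exp_neg_leJ (r := 0.99) 14 (by norm_num) (by norm_num) (by norm_num) (by norm_num))
    (exp_neg_leJ (r := 0.99) 14 (by norm_num) (by norm_num) (by norm_num) (by norm_num))
    (exp_neg_leJ (r := 0.99) 14 (by norm_num) (by norm_num) (by norm_num) (by norm_num))
    (by norm_num)) (by norm_num) hN hβ.le (by norm_num)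

private theorem JB8_k1_b1_2 {β x y : ℝ} (hβ : 0 < β) (hN : β * 18.132 ≤ 1) (hx1 : 0.3369 ≤ x) (hx2 : x ≤ 0.6141)
    (hy1 : -0 ≤ y) (hy2 : y ≤ 0.251) : ‖HH β (x + y * I) - 1‖ ≤ 0.03 := by
  refine le_epsJ (C := 0.5377) (N0 := 18.132) (J_boxp 0.3369 0.6141 0 0.251 0.251 0.9472 0.6635 1.3936 1.2806 0.471 4.2582 18.132 0.7005 2.537 1.369 1.1839 0.4735 0.363 1.1236 3.7357 0.493 0.9408 1.1679 2.3995 0.000187 0.001387 0.0000003101 0.0000003101 0.0001316 0.0000003101 0.0000003101 0.0000003101 0.5377
    hβ hN hx1 hx2 hy1 hy2 (by norm_num) (by norm_num) (by linarith) (by norm_num) (by norm_num) (by norm_num) (by norm_num) (by norm_num) (by norm_num) (by norm_num) (by norm_num) (by norm_num) (by norm_num) (by norm_num) (by norm_num) (by norm_num) (by norm_num) (by norm_num) (by norm_num) (by norm_num) (by norm_num) (by norm_num) (by norm_num) (by norm_num)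
    (cube_sqrt_geJ (s := 0.8754) (by norm_num) (by norm_num) (by norm_num) (by norm_num))
    (cube_sqrt_geJ (s := 0.9561) (by norm_num) (by norm_num) (by norm_num) (by norm_num))
    (by norm_num) (by norm_num) (by norm_num) (by norm_num) (by norm_num) (by norm_num) (by norm_num) (by norm_num) (by norm_num) (by norm_num) (by norm_num) (by norm_num) (by norm_num) (by norm_num) (by norm_num) (by norm_num) (by norm_num) (by norm_num)
    (exp_neg_leJ (r := 0.585) 8 (by norm_num) (by norm_num) (by norm_num) (by norm_num))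
    (exp_neg_leJ (r := 0.581) 6 (by norm_num) (by norm_num) (by norm_num) (by norm_num))
    (exp_neg_leJ (r := 0.99) 14 (by norm_num) (by norm_num) (by norm_num) (by norm_num))
    (exp_neg_leJ (r := 0.99) 14 (by norm_num) (by norm_num) (by norm_num) (by norm_num))
    (exp_neg_leJ (r := 0.939) 8 (by norm_num) (by norm_num) (by norm_num) (by norm_num))
    (exp_neg_leJ (r := 0.99) 14 (by norm_num) (by norm_num) (by norm_num) (by norm_num))
    (exp_neg_leJ (r := 0.99) 14 (by norm_num) (by norm_num) (by norm_num) (by norm_num))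
    (exp_neg_leJ (r := 0.99) 14 (by norm_num) (by norm_num) (by norm_num) (by norm_num))
    (by norm_num)) (by norm_num) hN hβ.le (by norm_num)

private theorem JB8_k1_b1_3 {β x y : ℝ} (hβ : 0 < β) (hN : β * 18.132 ≤ 1) (hx1 : 0.2954 ≤ x) (hx2 : x ≤ 0.5611)
    (hy1 : -0 ≤ y) (hy2 : y ≤ 0.281) : ‖HH β (x + y * I) - 1‖ ≤ 0.03 := by
  refine le_epsJ (C := 0.5437) (N0 := 18.132) (J_boxp 0.2954 0.5611 0 0.281 0.281 0.918 0.6276 1.3985 1.3446 0.4718 4.2582 18.132 0.6837 2.473 1.359 1.2043 0.4589 0.3543 1.1094 3.7617 0.4698 0.8803 0.9562 2.2727 0.0002437 0.001623 0.0000003101 0.0000003101 0.0001999 0.0000003101 0.0000003101 0.0000003101 0.5437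
    hβ hN hx1 hx2 hy1 hy2 (by norm_num) (by norm_num) (by linarith) (by norm_num) (by norm_num) (by norm_num) (by norm_num) (by norm_num) (by norm_num) (by norm_num) (by norm_num) (by norm_num) (by norm_num) (by norm_num) (by norm_num) (by norm_num) (by norm_num) (by norm_num) (by norm_num) (by norm_num) (by norm_num) (by norm_num) (by norm_num) (by norm_num)
    (cube_sqrt_geJ (s := 0.8786) (by norm_num) (by norm_num) (by norm_num) (by norm_num))
    (cube_sqrt_geJ (s := 0.9572) (by norm_num) (by norm_num) (by norm_num) (by norm_num))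
    (by norm_num) (by norm_num) (by norm_num) (by norm_num) (by norm_num) (by norm_num) (by norm_num) (by norm_num) (by norm_num) (by norm_num) (by norm_num) (by norm_num) (by norm_num) (by norm_num) (by norm_num) (by norm_num) (by norm_num) (by norm_num)
    (exp_neg_leJ (r := 0.32) 8 (by norm_num) (by norm_num) (by norm_num) (by norm_num))
    (exp_neg_leJ (r := 0.424) 6 (by norm_num) (by norm_num) (by norm_num) (by norm_num))
    (exp_neg_leJ (r := 0.99) 14 (by norm_num) (by norm_num) (by norm_num) (by norm_num))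
    (exp_neg_leJ (r := 0.99) 14 (by norm_num) (by norm_num) (by norm_num) (by norm_num))
    (exp_neg_leJ (r := 0.518) 8 (by norm_num) (by norm_num) (by norm_num) (by norm_num))
    (exp_neg_leJ (r := 0.99) 14 (by norm_num) (by norm_num) (by norm_num) (by norm_num))
    (exp_neg_leJ (r := 0.99) 14 (by norm_num) (by norm_num) (by norm_num) (by norm_num))
    (exp_neg_leJ (r := 0.99) 14 (by norm_num) (by norm_num) (by norm_num) (by norm_num))
    (by norm_num)) (by norm_num) hN hβ.le (by norm_num)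

private theorem JB8_k1_b1_4 {β x y : ℝ} (hβ : 0 < β) (hN : β * 18.132 ≤ 1) (hx1 : 0.2714 ≤ x) (hx2 : x ≤ 0.5262)
    (hy1 : -0 ≤ y) (hy2 : y ≤ 0.296) : ‖HH β (x + y * I) - 1‖ ≤ 0.03 := by
  refine le_epsJ (C := 0.541) (N0 := 18.132) (J_boxp 0.2714 0.5262 0 0.296 0.296 0.9011 0.6038 1.3988 1.3827 0.4719 4.2582 18.132 0.6701 2.423 1.35 1.2177 0.4505 0.3499 1.1011 3.7789 0.4566 0.8455 0.8439 2.2188 0.0002836 0.001758 0.0000003101 0.0000003101 0.0002538 0.0000003101 0.0000003101 0.0000003101 0.541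
    hβ hN hx1 hx2 hy1 hy2 (by norm_num) (by norm_num) (by linarith) (by norm_num) (by norm_num) (by norm_num) (by norm_num) (by norm_num) (by norm_num) (by norm_num) (by norm_num) (by norm_num) (by norm_num) (by norm_num) (by norm_num) (by norm_num) (by norm_num) (by norm_num) (by norm_num) (by norm_num) (by norm_num) (by norm_num) (by norm_num) (by norm_num)
    (cube_sqrt_geJ (s := 0.8812) (by norm_num) (by norm_num) (by norm_num) (by norm_num))
    (cube_sqrt_geJ (s := 0.958) (by norm_num) (by norm_num) (by norm_num) (by norm_num))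
    (by norm_num) (by norm_num) (by norm_num) (by norm_num) (by norm_num) (by norm_num) (by norm_num) (by norm_num) (by norm_num) (by norm_num) (by norm_num) (by norm_num) (by norm_num) (by norm_num) (by norm_num) (by norm_num) (by norm_num) (by norm_num)
    (exp_neg_leJ (r := 0.168) 8 (by norm_num) (by norm_num) (by norm_num) (by norm_num))
    (exp_neg_leJ (r := 0.344) 6 (by norm_num) (by norm_num) (by norm_num) (by norm_num))
    (exp_neg_leJ (r := 0.99) 14 (by norm_num) (by norm_num) (by norm_num) (by norm_num))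
    (exp_neg_leJ (r := 0.99) 14 (by norm_num) (by norm_num) (by norm_num) (by norm_num))
    (exp_neg_leJ (r := 0.279) 8 (by norm_num) (by norm_num) (by norm_num) (by norm_num))
    (exp_neg_leJ (r := 0.99) 14 (by norm_num) (by norm_num) (by norm_num) (by norm_num))
    (exp_neg_leJ (r := 0.99) 14 (by norm_num) (by norm_num) (by norm_num) (by norm_num))
    (exp_neg_leJ (r := 0.99) 14 (by norm_num) (by norm_num) (by norm_num) (by norm_num))
    (by norm_num)) (by norm_num) hN hβ.le (by norm_num)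

private theorem JB8_k1_b1_5 {β x y : ℝ} (hβ : 0 < β) (hN : β * 18.132 ≤ 1) (hx1 : 0.2628 ≤ x) (hx2 : x ≤ 0.5076)
    (hy1 : -0 ≤ y) (hy2 : y ≤ 0.301) : ‖HH β (x + y * I) - 1‖ ≤ 0.03 := by
  refine le_epsJ (C := 0.53) (N0 := 18.132) (J_boxp 0.2628 0.5076 0 0.301 0.301 0.8951 0.5902 1.3966 1.3955 0.4715 4.2582 18.132 0.6594 2.385 1.343 1.2248 0.4475 0.3491 1.0982 3.7883 0.4519 0.8331 0.8053 2.215 0.0002994 0.001784 0.0000003101 0.0000003101 0.0002766 0.0000003101 0.0000004561 0.0000003101 0.53
    hβ hN hx1 hx2 hy1 hy2 (by norm_num) (by norm_num) (by linarith) (by norm_num) (by norm_num) (by norm_num) (by norm_num) (by norm_num) (by norm_num) (by norm_num) (by norm_num) (by norm_num) (by norm_num) (by norm_num) (by norm_num) (by norm_num) (by norm_num) (by norm_num) (by norm_num) (by norm_num) (by norm_num) (by norm_num) (by norm_num) (by norm_num)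
    (cube_sqrt_geJ (s := 0.8832) (by norm_num) (by norm_num) (by norm_num) (by norm_num))
    (cube_sqrt_geJ (s := 0.9587) (by norm_num) (by norm_num) (by norm_num) (by norm_num))
    (by norm_num) (by norm_num) (by norm_num) (by norm_num) (by norm_num) (by norm_num) (by norm_num) (by norm_num) (by norm_num) (by norm_num) (by norm_num) (by norm_num) (by norm_num) (by norm_num) (by norm_num) (by norm_num) (by norm_num) (by norm_num)
    (exp_neg_leJ (r := 0.114) 8 (by norm_num) (by norm_num) (by norm_num) (by norm_num))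
    (exp_neg_leJ (r := 0.329) 6 (by norm_num) (by norm_num) (by norm_num) (by norm_num))
    (exp_neg_leJ (r := 0.99) 14 (by norm_num) (by norm_num) (by norm_num) (by norm_num))
    (exp_neg_leJ (r := 0.99) 14 (by norm_num) (by norm_num) (by norm_num) (by norm_num))
    (exp_neg_leJ (r := 0.193) 8 (by norm_num) (by norm_num) (by norm_num) (by norm_num))
    (exp_neg_leJ (r := 0.99) 14 (by norm_num) (by norm_num) (by norm_num) (by norm_num))
    (exp_neg_leJ (r := 0.601) 14 (by norm_num) (by norm_num) (by norm_num) (by norm_num))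
    (exp_neg_leJ (r := 0.99) 14 (by norm_num) (by norm_num) (by norm_num) (by norm_num))
    (by norm_num)) (by norm_num) hN hβ.le (by norm_num)

private theorem JB8_k1_c1 {κ t β : ℝ} (h : DomR κ t) (hβ : 0 < β) (hk1 : 0.54 ≤ κ) (hk2 : κ ≤ 0.79)
    (ht1 : 0.039 ≤ t + κ) (ht2 : t + κ ≤ 0.825) (hR0 : β * 10 ≤ κ) (hR : β * (8.82 * (1 + κ ^ 2)) ≤ κ) :
    ‖HH β (sg κ t) - 1‖ ≤ 0.03 := by
  have hN : β * 18.132 ≤ 1 := bNC hβ h.1 hk2 (by norm_num) (by norm_num) hR (by norm_num)
  have hy1 : 0.016 ≤ sy κ t := syR_ge h 0.54 0.79 0.039 0.016 1.01612 1.01613 0.02057 0.03011 hk1 hk2 (by linarith) (by norm_num) (by norm_num)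
    (expn_ge (by norm_num) (by norm_num)) (expn_le (by norm_num) (by norm_num) (by norm_num)) (by norm_num)
    (by norm_num) (by norm_num) (by norm_num) (by norm_num) (by norm_num) (by norm_num)
  have hy2 : sy κ t ≤ 0.301 := syR_le h 0.54 0.79 0.825 0.301 1.3512 0.5148 0.51482 0.75318 hk1 hk2 (by linarith) (by norm_num) (by norm_num)
    (expn_ge (by norm_num) (by norm_num)) (by norm_num) (by norm_num) (Or.inr ((mul_le_mul_of_nonneg_left (expn_le (E := 1.35121) (by norm_num) (by norm_num) (by norm_num)) (by norm_num)).trans (by norm_num))) (by norm_num) (by norm_num) (by norm_num)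
  rcases le_total (sy κ t) 0.121 with f0 | g0
  · have hx1 : 0.4629 ≤ sx κ t := sx_lo h 0.54 0.121 0.121 0.88603 0.4629 hk1 (by norm_num) f0 (abs_le.2 ⟨by linarith, by linarith⟩) (expm_ge (by norm_num) (by norm_num) (by norm_num) (by norm_num)) (by norm_num) (by norm_num)
    have hx2 : sx κ t ≤ 0.7773 := sx_hi h 0.79 0.016 0.016 0.98413 0.7773 hk2 hy1 (by norm_num) (by rw [abs_of_nonneg (by linarith)]; linarith) (expm_le (by norm_num) (by norm_num) (by norm_num)) (by norm_num) (by norm_num)
    exact JB8_k1_b1_0 hβ hN hx1 hx2 (by linarith) (by linarith)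
  rcases le_total (sy κ t) 0.201 with f1 | g1
  · have hx1 : 0.3932 ≤ sx κ t := sx_lo h 0.54 0.201 0.201 0.81791 0.3932 hk1 (by norm_num) f1 (abs_le.2 ⟨by linarith, by linarith⟩) (expm_ge (by norm_num) (by norm_num) (by norm_num) (by norm_num)) (by norm_num) (by norm_num)
    have hx2 : sx κ t ≤ 0.6895 := sx_hi h 0.79 0.121 0.121 0.88604 0.6895 hk2 g0 (by norm_num) (by rw [abs_of_nonneg (by linarith)]; linarith) (expm_le (by norm_num) (by norm_num) (by norm_num)) (by norm_num) (by norm_num)
    exact JB8_k1_b1_1 hβ hN hx1 hx2 (by linarith) (by linarith)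
  rcases le_total (sy κ t) 0.251 with f2 | g2
  · have hx1 : 0.3369 ≤ sx κ t := sx_lo h 0.54 0.251 0.251 0.77802 0.3369 hk1 (by norm_num) f2 (abs_le.2 ⟨by linarith, by linarith⟩) (expm_ge (by norm_num) (by norm_num) (by norm_num) (by norm_num)) (by norm_num) (by norm_num)
    have hx2 : sx κ t ≤ 0.6141 := sx_hi h 0.79 0.201 0.201 0.81792 0.6141 hk2 g1 (by norm_num) (by rw [abs_of_nonneg (by linarith)]; linarith) (expm_le (by norm_num) (by norm_num) (by norm_num)) (by norm_num) (by norm_num)
    exact JB8_k1_b1_2 hβ hN hx1 hx2 (by linarith) (by linarith)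
  rcases le_total (sy κ t) 0.281 with f3 | g3
  · have hx1 : 0.2954 ≤ sx κ t := sx_lo h 0.54 0.281 0.281 0.75502 0.2954 hk1 (by norm_num) f3 (abs_le.2 ⟨by linarith, by linarith⟩) (expm_ge (by norm_num) (by norm_num) (by norm_num) (by norm_num)) (by norm_num) (by norm_num)
    have hx2 : sx κ t ≤ 0.5611 := sx_hi h 0.79 0.251 0.251 0.77803 0.5611 hk2 g2 (by norm_num) (by rw [abs_of_nonneg (by linarith)]; linarith) (expm_le (by norm_num) (by norm_num) (by norm_num)) (by norm_num) (by norm_num)
    exact JB8_k1_b1_3 hβ hN hx1 hx2 (by linarith) (by linarith)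
  rcases le_total (sy κ t) 0.296 with f4 | g4
  · have hx1 : 0.2714 ≤ sx κ t := sx_lo h 0.54 0.296 0.296 0.74378 0.2714 hk1 (by norm_num) f4 (abs_le.2 ⟨by linarith, by linarith⟩) (expm_ge (by norm_num) (by norm_num) (by norm_num) (by norm_num)) (by norm_num) (by norm_num)
    have hx2 : sx κ t ≤ 0.5262 := sx_hi h 0.79 0.281 0.281 0.75503 0.5262 hk2 g3 (by norm_num) (by rw [abs_of_nonneg (by linarith)]; linarith) (expm_le (by norm_num) (by norm_num) (by norm_num)) (by norm_num) (by norm_num)
    exact JB8_k1_b1_4 hβ hN hx1 hx2 (by linarith) (by linarith)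
  have hx1 : 0.2628 ≤ sx κ t := sx_lo h 0.54 0.301 0.301 0.74007 0.2628 hk1 (by norm_num) hy2 (abs_le.2 ⟨by linarith, by linarith⟩) (expm_ge (by norm_num) (by norm_num) (by norm_num) (by norm_num)) (by norm_num) (by norm_num)
  have hx2 : sx κ t ≤ 0.5076 := sx_hi h 0.79 0.296 0.296 0.74379 0.5076 hk2 g4 (by norm_num) (by rw [abs_of_nonneg (by linarith)]; linarith) (expm_le (by norm_num) (by norm_num) (by norm_num)) (by norm_num) (by norm_num)
  exact JB8_k1_b1_5 hβ hN hx1 hx2 (by linarith) (by linarith)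

private theorem JB8_k1_b2_0 {β x y : ℝ} (hβ : 0 < β) (hN : β * 17.639 ≤ 1) (hx1 : 0.7051 ≤ x) (hx2 : x ≤ 0.9821)
    (hy1 : -0 ≤ y) (hy2 : y ≤ 0.103) : ‖HH β (x + y * I) - 1‖ ≤ 0.03 := by
  refine le_epsJ (C := 0.5226) (N0 := 17.639) (J_boxp 0.7051 0.9821 0 0.103 0.103 1.2065 0.9875 1.4769 0.9171 0.4849 4.1999 17.639 0.8185 3.051 1.448 1.0423 0.6032 0.4386 1.2496 3.5348 0.687 1.4657 2.5391 2.9526 0.00002398 0.0004373 0.0000003101 0.0000003101 0.000005466 0.0000003101 0.0000003101 0.0000003101 0.5226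
    hβ hN hx1 hx2 hy1 hy2 (by norm_num) (by norm_num) (by linarith) (by norm_num) (by norm_num) (by norm_num) (by norm_num) (by norm_num) (by norm_num) (by norm_num) (by norm_num) (by norm_num) (by norm_num) (by norm_num) (by norm_num) (by norm_num) (by norm_num) (by norm_num) (by norm_num) (by norm_num) (by norm_num) (by norm_num) (by norm_num) (by norm_num)
    (cube_sqrt_geJ (s := 0.8527) (by norm_num) (by norm_num) (by norm_num) (by norm_num))
    (cube_sqrt_geJ (s := 0.9485) (by norm_num) (by norm_num) (by norm_num) (by norm_num))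
    (by norm_num) (by norm_num) (by norm_num) (by norm_num) (by norm_num) (by norm_num) (by norm_num) (by norm_num) (by norm_num) (by norm_num) (by norm_num) (by norm_num) (by norm_num) (by norm_num) (by norm_num) (by norm_num) (by norm_num) (by norm_num)
    (exp_neg_leJ (r := 0.639) 10 (by norm_num) (by norm_num) (by norm_num) (by norm_num))
    (exp_neg_leJ (r := 0.736) 7 (by norm_num) (by norm_num) (by norm_num) (by norm_num))
    (exp_neg_leJ (r := 0.99) 14 (by norm_num) (by norm_num) (by norm_num) (by norm_num))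
    (exp_neg_leJ (r := 0.99) 14 (by norm_num) (by norm_num) (by norm_num) (by norm_num))
    (exp_neg_leJ (r := 0.117) 12 (by norm_num) (by norm_num) (by norm_num) (by norm_num))
    (exp_neg_leJ (r := 0.99) 14 (by norm_num) (by norm_num) (by norm_num) (by norm_num))
    (exp_neg_leJ (r := 0.99) 14 (by norm_num) (by norm_num) (by norm_num) (by norm_num))
    (exp_neg_leJ (r := 0.99) 14 (by norm_num) (by norm_num) (by norm_num) (by norm_num))
    (by norm_num)) (by norm_num) hN hβ.le (by norm_num)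

private theorem JB8_k1_b2_1 {β x y : ℝ} (hβ : 0 < β) (hN : β * 17.639 ≤ 1) (hx1 : 0.627 ≤ x) (hx2 : x ≤ 0.8963)
    (hy1 : -0 ≤ y) (hy2 : y ≤ 0.188) : ‖HH β (x + y * I) - 1‖ ≤ 0.03 := by
  refine le_epsJ (C := 0.5288) (N0 := 17.639) (J_boxp 0.627 0.8963 0 0.188 0.188 1.1515 0.9159 1.4882 0.9873 0.4867 4.1999 17.639 0.7954 2.94 1.432 1.0753 0.5757 0.423 1.2229 3.5806 0.6403 1.3489 2.0183 2.5905 0.00003893 0.0005752 0.0000003101 0.0000003101 0.00001245 0.0000003101 0.0000003101 0.0000003101 0.5288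
    hβ hN hx1 hx2 hy1 hy2 (by norm_num) (by norm_num) (by linarith) (by norm_num) (by norm_num) (by norm_num) (by norm_num) (by norm_num) (by norm_num) (by norm_num) (by norm_num) (by norm_num) (by norm_num) (by norm_num) (by norm_num) (by norm_num) (by norm_num) (by norm_num) (by norm_num) (by norm_num) (by norm_num) (by norm_num) (by norm_num) (by norm_num)
    (cube_sqrt_geJ (s := 0.8572) (by norm_num) (by norm_num) (by norm_num) (by norm_num))
    (cube_sqrt_geJ (s := 0.95) (by norm_num) (by norm_num) (by norm_num) (by norm_num))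
    (by norm_num) (by norm_num) (by norm_num) (by norm_num) (by norm_num) (by norm_num) (by norm_num) (by norm_num) (by norm_num) (by norm_num) (by norm_num) (by norm_num) (by norm_num) (by norm_num) (by norm_num) (by norm_num) (by norm_num) (by norm_num)
    (exp_neg_leJ (r := 0.154) 10 (by norm_num) (by norm_num) (by norm_num) (by norm_num))
    (exp_neg_leJ (r := 0.461) 7 (by norm_num) (by norm_num) (by norm_num) (by norm_num))
    (exp_neg_leJ (r := 0.99) 14 (by norm_num) (by norm_num) (by norm_num) (by norm_num))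
    (exp_neg_leJ (r := 0.99) 14 (by norm_num) (by norm_num) (by norm_num) (by norm_num))
    (exp_neg_leJ (r := 0.294) 11 (by norm_num) (by norm_num) (by norm_num) (by norm_num))
    (exp_neg_leJ (r := 0.99) 14 (by norm_num) (by norm_num) (by norm_num) (by norm_num))
    (exp_neg_leJ (r := 0.99) 14 (by norm_num) (by norm_num) (by norm_num) (by norm_num))
    (exp_neg_leJ (r := 0.99) 14 (by norm_num) (by norm_num) (by norm_num) (by norm_num))
    (by norm_num)) (by norm_num) hN hβ.le (by norm_num)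

private theorem JB8_k1_b2_2 {β x y : ℝ} (hβ : 0 < β) (hN : β * 17.639 ≤ 1) (hx1 : 0.5587 ≤ x) (hx2 : x ≤ 0.8071)
    (hy1 : -0 ≤ y) (hy2 : y ≤ 0.253) : ‖HH β (x + y * I) - 1‖ ≤ 0.03 := by
  refine le_epsJ (C := 0.5218) (N0 := 17.639) (J_boxp 0.5587 0.8071 0 0.253 0.253 1.1034 0.8459 1.4905 1.0534 0.4871 4.1999 17.639 0.7667 2.81 1.413 1.1096 0.5516 0.4107 1.1995 3.6269 0.6005 1.2477 1.6029 2.3379 0.00005959 0.0007145 0.0000003101 0.0000003101 0.00002513 0.0000003101 0.0000003101 0.0000003101 0.5218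
    hβ hN hx1 hx2 hy1 hy2 (by norm_num) (by norm_num) (by linarith) (by norm_num) (by norm_num) (by norm_num) (by norm_num) (by norm_num) (by norm_num) (by norm_num) (by norm_num) (by norm_num) (by norm_num) (by norm_num) (by norm_num) (by norm_num) (by norm_num) (by norm_num) (by norm_num) (by norm_num) (by norm_num) (by norm_num) (by norm_num) (by norm_num)
    (cube_sqrt_geJ (s := 0.8628) (by norm_num) (by norm_num) (by norm_num) (by norm_num))
    (cube_sqrt_geJ (s := 0.9519) (by norm_num) (by norm_num) (by norm_num) (by norm_num))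
    (by norm_num) (by norm_num) (by norm_num) (by norm_num) (by norm_num) (by norm_num) (by norm_num) (by norm_num) (by norm_num) (by norm_num) (by norm_num) (by norm_num) (by norm_num) (by norm_num) (by norm_num) (by norm_num) (by norm_num) (by norm_num)
    (exp_neg_leJ (r := 0.729) 9 (by norm_num) (by norm_num) (by norm_num) (by norm_num))
    (exp_neg_leJ (r := 0.244) 7 (by norm_num) (by norm_num) (by norm_num) (by norm_num))
    (exp_neg_leJ (r := 0.99) 14 (by norm_num) (by norm_num) (by norm_num) (by norm_num))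
    (exp_neg_leJ (r := 0.99) 14 (by norm_num) (by norm_num) (by norm_num) (by norm_num))
    (exp_neg_leJ (r := 0.592) 10 (by norm_num) (by norm_num) (by norm_num) (by norm_num))
    (exp_neg_leJ (r := 0.99) 14 (by norm_num) (by norm_num) (by norm_num) (by norm_num))
    (exp_neg_leJ (r := 0.99) 14 (by norm_num) (by norm_num) (by norm_num) (by norm_num))
    (exp_neg_leJ (r := 0.99) 14 (by norm_num) (by norm_num) (by norm_num) (by norm_num))
    (by norm_num)) (by norm_num) hN hβ.le (by norm_num)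

private theorem JB8_k1_b2_3 {β x y : ℝ} (hβ : 0 < β) (hN : β * 17.639 ≤ 1) (hx1 : 0.505 ≤ x) (hx2 : x ≤ 0.7341)
    (hy1 : -0 ≤ y) (hy2 : y ≤ 0.298) : ‖HH β (x + y * I) - 1‖ ≤ 0.03 := by
  refine le_epsJ (C := 0.5168) (N0 := 17.639) (J_boxp 0.505 0.7341 0 0.298 0.298 1.0656 0.7923 1.4913 1.1102 0.4872 4.1999 17.639 0.7436 2.711 1.397 1.1377 0.5327 0.4007 1.1811 3.6639 0.5699 1.1688 1.3025 2.1641 0.00008307 0.0008528 0.0000003101 0.0000003101 0.0000431 0.0000003101 0.0000003101 0.0000003101 0.5168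
    hβ hN hx1 hx2 hy1 hy2 (by norm_num) (by norm_num) (by linarith) (by norm_num) (by norm_num) (by norm_num) (by norm_num) (by norm_num) (by norm_num) (by norm_num) (by norm_num) (by norm_num) (by norm_num) (by norm_num) (by norm_num) (by norm_num) (by norm_num) (by norm_num) (by norm_num) (by norm_num) (by norm_num) (by norm_num) (by norm_num) (by norm_num)
    (cube_sqrt_geJ (s := 0.8672) (by norm_num) (by norm_num) (by norm_num) (by norm_num))
    (cube_sqrt_geJ (s := 0.9533) (by norm_num) (by norm_num) (by norm_num) (by norm_num))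
    (by norm_num) (by norm_num) (by norm_num) (by norm_num) (by norm_num) (by norm_num) (by norm_num) (by norm_num) (by norm_num) (by norm_num) (by norm_num) (by norm_num) (by norm_num) (by norm_num) (by norm_num) (by norm_num) (by norm_num) (by norm_num)
    (exp_neg_leJ (r := 0.396) 9 (by norm_num) (by norm_num) (by norm_num) (by norm_num))
    (exp_neg_leJ (r := 0.067) 7 (by norm_num) (by norm_num) (by norm_num) (by norm_num))
    (exp_neg_leJ (r := 0.99) 14 (by norm_num) (by norm_num) (by norm_num) (by norm_num))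
    (exp_neg_leJ (r := 0.99) 14 (by norm_num) (by norm_num) (by norm_num) (by norm_num))
    (exp_neg_leJ (r := 0.052) 10 (by norm_num) (by norm_num) (by norm_num) (by norm_num))
    (exp_neg_leJ (r := 0.99) 14 (by norm_num) (by norm_num) (by norm_num) (by norm_num))
    (exp_neg_leJ (r := 0.99) 14 (by norm_num) (by norm_num) (by norm_num) (by norm_num))
    (exp_neg_leJ (r := 0.99) 14 (by norm_num) (by norm_num) (by norm_num) (by norm_num))
    (by norm_num)) (by norm_num) hN hβ.le (by norm_num)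

private theorem JB8_k1_b2_4 {β x y : ℝ} (hβ : 0 < β) (hN : β * 17.639 ≤ 1) (hx1 : 0.4664 ≤ x) (hx2 : x ≤ 0.6799)
    (hy1 : -0 ≤ y) (hy2 : y ≤ 0.327) : ‖HH β (x + y * I) - 1‖ ≤ 0.03 := by
  refine le_epsJ (C := 0.5137) (N0 := 17.639) (J_boxp 0.4664 0.6799 0 0.327 0.327 1.0384 0.7545 1.4911 1.1541 0.4872 4.1999 17.639 0.7266 2.64 1.386 1.1586 0.5191 0.3934 1.1679 3.6908 0.5482 1.1124 1.1009 2.053 0.0001056 0.000972 0.0000003101 0.0000003101 0.00006326 0.0000003101 0.0000003101 0.0000003101 0.5137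
    hβ hN hx1 hx2 hy1 hy2 (by norm_num) (by norm_num) (by linarith) (by norm_num) (by norm_num) (by norm_num) (by norm_num) (by norm_num) (by norm_num) (by norm_num) (by norm_num) (by norm_num) (by norm_num) (by norm_num) (by norm_num) (by norm_num) (by norm_num) (by norm_num) (by norm_num) (by norm_num) (by norm_num) (by norm_num) (by norm_num) (by norm_num)
    (cube_sqrt_geJ (s := 0.8705) (by norm_num) (by norm_num) (by norm_num) (by norm_num))
    (cube_sqrt_geJ (s := 0.9544) (by norm_num) (by norm_num) (by norm_num) (by norm_num))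
    (by norm_num) (by norm_num) (by norm_num) (by norm_num) (by norm_num) (by norm_num) (by norm_num) (by norm_num) (by norm_num) (by norm_num) (by norm_num) (by norm_num) (by norm_num) (by norm_num) (by norm_num) (by norm_num) (by norm_num) (by norm_num)
    (exp_neg_leJ (r := 0.156) 9 (by norm_num) (by norm_num) (by norm_num) (by norm_num))
    (exp_neg_leJ (r := 0.939) 6 (by norm_num) (by norm_num) (by norm_num) (by norm_num))
    (exp_neg_leJ (r := 0.99) 14 (by norm_num) (by norm_num) (by norm_num) (by norm_num))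
    (exp_neg_leJ (r := 0.99) 14 (by norm_num) (by norm_num) (by norm_num) (by norm_num))
    (exp_neg_leJ (r := 0.669) 9 (by norm_num) (by norm_num) (by norm_num) (by norm_num))
    (exp_neg_leJ (r := 0.99) 14 (by norm_num) (by norm_num) (by norm_num) (by norm_num))
    (exp_neg_leJ (r := 0.99) 14 (by norm_num) (by norm_num) (by norm_num) (by norm_num))
    (exp_neg_leJ (r := 0.99) 14 (by norm_num) (by norm_num) (by norm_num) (by norm_num))
    (by norm_num)) (by norm_num) hN hβ.le (by norm_num)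

private theorem JB8_k1_c2 {κ t β : ℝ} (h : DomR κ t) (hβ : 0 < β) (hk1 : 0.79 ≤ κ) (hk2 : κ ≤ 1)
    (ht1 : 0.039 ≤ t + κ) (ht2 : t + κ ≤ 0.825) (hR0 : β * 10 ≤ κ) (hR : β * (8.82 * (1 + κ ^ 2)) ≤ κ) :
    ‖HH β (sg κ t) - 1‖ ≤ 0.03 := by
  have hN : β * 17.639 ≤ 1 := bNC hβ h.1 hk2 (by norm_num) (by norm_num) hR (by norm_num)
  have hy1 : 0.018 ≤ sy κ t := syR_ge h 0.79 1 0.039 0.018 1.01816 1.01817 0.01832 0.0232 hk1 hk2 (by linarith) (by norm_num) (by norm_num)
    (expn_ge (by norm_num) (by norm_num)) (expn_le (by norm_num) (by norm_num) (by norm_num)) (by norm_num)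
    (by norm_num) (by norm_num) (by norm_num) (by norm_num) (by norm_num) (by norm_num)
  have hy2 : sy κ t ≤ 0.327 := syR_le h 0.79 1 0.825 0.327 1.3868 0.4434 0.45348 0.57404 hk1 hk2 (by linarith) (by norm_num) (by norm_num)
    (expn_ge (by norm_num) (by norm_num)) (by norm_num) (by norm_num) (Or.inr ((mul_le_mul_of_nonneg_left (expn_le (E := 1.38681) (by norm_num) (by norm_num) (by norm_num)) (by norm_num)).trans (by norm_num))) (by norm_num) (by norm_num) (by norm_num)
  rcases le_total (sy κ t) 0.103 with f0 | g0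
  · have hx1 : 0.7051 ≤ sx κ t := sx_lo h 0.79 0.103 0.103 0.90212 0.7051 hk1 (by norm_num) f0 (abs_le.2 ⟨by linarith, by linarith⟩) (expm_ge (by norm_num) (by norm_num) (by norm_num) (by norm_num)) (by norm_num) (by norm_num)
    have hx2 : sx κ t ≤ 0.9821 := sx_hi h 1 0.018 0.018 0.98217 0.9821 hk2 hy1 (by norm_num) (by rw [abs_of_nonneg (by linarith)]; linarith) (expm_le (by norm_num) (by norm_num) (by norm_num)) (by norm_num) (by norm_num)
    exact JB8_k1_b2_0 hβ hN hx1 hx2 (by linarith) (by linarith)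
  rcases le_total (sy κ t) 0.188 with f1 | g1
  · have hx1 : 0.627 ≤ sx κ t := sx_lo h 0.79 0.188 0.188 0.82861 0.627 hk1 (by norm_num) f1 (abs_le.2 ⟨by linarith, by linarith⟩) (expm_ge (by norm_num) (by norm_num) (by norm_num) (by norm_num)) (by norm_num) (by norm_num)
    have hx2 : sx κ t ≤ 0.8963 := sx_hi h 1 0.103 0.103 0.90213 0.8963 hk2 g0 (by norm_num) (by rw [abs_of_nonneg (by linarith)]; linarith) (expm_le (by norm_num) (by norm_num) (by norm_num)) (by norm_num) (by norm_num)
    exact JB8_k1_b2_1 hβ hN hx1 hx2 (by linarith) (by linarith)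
  rcases le_total (sy κ t) 0.253 with f2 | g2
  · have hx1 : 0.5587 ≤ sx κ t := sx_lo h 0.79 0.253 0.253 0.77646 0.5587 hk1 (by norm_num) f2 (abs_le.2 ⟨by linarith, by linarith⟩) (expm_ge (by norm_num) (by norm_num) (by norm_num) (by norm_num)) (by norm_num) (by norm_num)
    have hx2 : sx κ t ≤ 0.8071 := sx_hi h 1 0.188 0.188 0.82862 0.8071 hk2 g1 (by norm_num) (by rw [abs_of_nonneg (by linarith)]; linarith) (expm_le (by norm_num) (by norm_num) (by norm_num)) (by norm_num) (by norm_num)
    exact JB8_k1_b2_2 hβ hN hx1 hx2 (by linarith) (by linarith)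
  rcases le_total (sy κ t) 0.298 with f3 | g3
  · have hx1 : 0.505 ≤ sx κ t := sx_lo h 0.79 0.298 0.298 0.7423 0.505 hk1 (by norm_num) f3 (abs_le.2 ⟨by linarith, by linarith⟩) (expm_ge (by norm_num) (by norm_num) (by norm_num) (by norm_num)) (by norm_num) (by norm_num)
    have hx2 : sx κ t ≤ 0.7341 := sx_hi h 1 0.253 0.253 0.77647 0.7341 hk2 g2 (by norm_num) (by rw [abs_of_nonneg (by linarith)]; linarith) (expm_le (by norm_num) (by norm_num) (by norm_num)) (by norm_num) (by norm_num)
    exact JB8_k1_b2_3 hβ hN hx1 hx2 (by linarith) (by linarith)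
  have hx1 : 0.4664 ≤ sx κ t := sx_lo h 0.79 0.327 0.327 0.72108 0.4664 hk1 (by norm_num) hy2 (abs_le.2 ⟨by linarith, by linarith⟩) (expm_ge (by norm_num) (by norm_num) (by norm_num) (by norm_num)) (by norm_num) (by norm_num)
  have hx2 : sx κ t ≤ 0.6799 := sx_hi h 1 0.298 0.298 0.74231 0.6799 hk2 g3 (by norm_num) (by rw [abs_of_nonneg (by linarith)]; linarith) (expm_le (by norm_num) (by norm_num) (by norm_num)) (by norm_num) (by norm_num)
  exact JB8_k1_b2_4 hβ hN hx1 hx2 (by linarith) (by linarith)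

private theorem JB8_k1_b3_0 {β x y : ℝ} (hβ : 0 < β) (hN : β * 17.639 ≤ 1) (hx1 : 0.9155 ≤ x) (hx2 : x ≤ 1.1773)
    (hy1 : -0 ≤ y) (hy2 : y ≤ 0.084) : ‖HH β (x + y * I) - 1‖ ≤ 0.03 := by
  refine le_epsJ (C := 0.5278) (N0 := 17.639) (J_boxp 0.9155 1.1773 0 0.084 0.084 1.3547 1.1803 1.6004 0.8024 0.5047 4.1999 17.639 0.8713 3.324 1.485 0.9673 0.6773 0.4806 1.3216 3.4226 0.7911 1.759 3.0414 2.9388 0.000006505 0.0002083 0.0000003101 0.0000003101 0.0000008734 0.0000003101 0.0000003101 0.0000003101 0.5278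
    hβ hN hx1 hx2 hy1 hy2 (by norm_num) (by norm_num) (by linarith) (by norm_num) (by norm_num) (by norm_num) (by norm_num) (by norm_num) (by norm_num) (by norm_num) (by norm_num) (by norm_num) (by norm_num) (by norm_num) (by norm_num) (by norm_num) (by norm_num) (by norm_num) (by norm_num) (by norm_num) (by norm_num) (by norm_num) (by norm_num) (by norm_num)
    (cube_sqrt_geJ (s := 0.8423) (by norm_num) (by norm_num) (by norm_num) (by norm_num))
    (cube_sqrt_geJ (s := 0.9451) (by norm_num) (by norm_num) (by norm_num) (by norm_num))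
    (by norm_num) (by norm_num) (by norm_num) (by norm_num) (by norm_num) (by norm_num) (by norm_num) (by norm_num) (by norm_num) (by norm_num) (by norm_num) (by norm_num) (by norm_num) (by norm_num) (by norm_num) (by norm_num) (by norm_num) (by norm_num)
    (exp_neg_leJ (r := 0.946) 11 (by norm_num) (by norm_num) (by norm_num) (by norm_num))
    (exp_neg_leJ (r := 0.477) 8 (by norm_num) (by norm_num) (by norm_num) (by norm_num))
    (exp_neg_leJ (r := 0.99) 14 (by norm_num) (by norm_num) (by norm_num) (by norm_num))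
    (exp_neg_leJ (r := 0.99) 14 (by norm_num) (by norm_num) (by norm_num) (by norm_num))
    (exp_neg_leJ (r := 0.954) 13 (by norm_num) (by norm_num) (by norm_num) (by norm_num))
    (exp_neg_leJ (r := 0.99) 14 (by norm_num) (by norm_num) (by norm_num) (by norm_num))
    (exp_neg_leJ (r := 0.99) 14 (by norm_num) (by norm_num) (by norm_num) (by norm_num))
    (exp_neg_leJ (r := 0.99) 14 (by norm_num) (by norm_num) (by norm_num) (by norm_num))
    (by norm_num)) (by norm_num) hN hβ.le (by norm_num)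

private theorem JB8_k1_b3_1 {β x y : ℝ} (hβ : 0 < β) (hN : β * 17.639 ≤ 1) (hx1 : 0.8485 ≤ x) (hx2 : x ≤ 1.1002)
    (hy1 : -0 ≤ y) (hy2 : y ≤ 0.149) : ‖HH β (x + y * I) - 1‖ ≤ 0.03 := by
  refine le_epsJ (C := 0.5217) (N0 := 17.639) (J_boxp 0.8485 1.1002 0 0.149 0.149 1.3075 1.1103 1.5908 0.8437 0.5032 4.1999 17.639 0.8492 3.206 1.469 0.9969 0.6537 0.4686 1.2987 3.4652 0.7519 1.6596 2.6286 2.6888 0.000009834 0.0002574 0.0000003101 0.0000003101 0.00000174 0.0000003101 0.0000003101 0.0000003101 0.5217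
    hβ hN hx1 hx2 hy1 hy2 (by norm_num) (by norm_num) (by linarith) (by norm_num) (by norm_num) (by norm_num) (by norm_num) (by norm_num) (by norm_num) (by norm_num) (by norm_num) (by norm_num) (by norm_num) (by norm_num) (by norm_num) (by norm_num) (by norm_num) (by norm_num) (by norm_num) (by norm_num) (by norm_num) (by norm_num) (by norm_num) (by norm_num)
    (cube_sqrt_geJ (s := 0.8467) (by norm_num) (by norm_num) (by norm_num) (by norm_num))
    (cube_sqrt_geJ (s := 0.9465) (by norm_num) (by norm_num) (by norm_num) (by norm_num))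
    (by norm_num) (by norm_num) (by norm_num) (by norm_num) (by norm_num) (by norm_num) (by norm_num) (by norm_num) (by norm_num) (by norm_num) (by norm_num) (by norm_num) (by norm_num) (by norm_num) (by norm_num) (by norm_num) (by norm_num) (by norm_num)
    (exp_neg_leJ (r := 0.53) 11 (by norm_num) (by norm_num) (by norm_num) (by norm_num))
    (exp_neg_leJ (r := 0.265) 8 (by norm_num) (by norm_num) (by norm_num) (by norm_num))
    (exp_neg_leJ (r := 0.99) 14 (by norm_num) (by norm_num) (by norm_num) (by norm_num))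
    (exp_neg_leJ (r := 0.99) 14 (by norm_num) (by norm_num) (by norm_num) (by norm_num))
    (exp_neg_leJ (r := 0.262) 13 (by norm_num) (by norm_num) (by norm_num) (by norm_num))
    (exp_neg_leJ (r := 0.99) 14 (by norm_num) (by norm_num) (by norm_num) (by norm_num))
    (exp_neg_leJ (r := 0.99) 14 (by norm_num) (by norm_num) (by norm_num) (by norm_num))
    (exp_neg_leJ (r := 0.99) 14 (by norm_num) (by norm_num) (by norm_num) (by norm_num))
    (by norm_num)) (by norm_num) hN hβ.le (by norm_num)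

private theorem JB8_k1_b3_2 {β x y : ℝ} (hβ : 0 < β) (hN : β * 17.639 ≤ 1) (hx1 : 0.7784 ≤ x) (hx2 : x ≤ 1.0231)
    (hy1 : -0 ≤ y) (hy2 : y ≤ 0.214) : ‖HH β (x + y * I) - 1‖ ≤ 0.03 := by
  refine le_epsJ (C := 0.5251) (N0 := 17.639) (J_boxp 0.7784 1.0231 0 0.214 0.214 1.2581 1.0453 1.5877 0.893 0.5027 4.1999 17.639 0.8309 3.112 1.456 1.0266 0.629 0.4548 1.2747 3.5065 0.7112 1.5559 2.2096 2.419 0.00001521 0.0003282 0.0000003101 0.0000003101 0.000003568 0.0000003101 0.0000003101 0.0000003101 0.5251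
    hβ hN hx1 hx2 hy1 hy2 (by norm_num) (by norm_num) (by linarith) (by norm_num) (by norm_num) (by norm_num) (by norm_num) (by norm_num) (by norm_num) (by norm_num) (by norm_num) (by norm_num) (by norm_num) (by norm_num) (by norm_num) (by norm_num) (by norm_num) (by norm_num) (by norm_num) (by norm_num) (by norm_num) (by norm_num) (by norm_num) (by norm_num)
    (cube_sqrt_geJ (s := 0.8503) (by norm_num) (by norm_num) (by norm_num) (by norm_num))
    (cube_sqrt_geJ (s := 0.9477) (by norm_num) (by norm_num) (by norm_num) (by norm_num))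
    (by norm_num) (by norm_num) (by norm_num) (by norm_num) (by norm_num) (by norm_num) (by norm_num) (by norm_num) (by norm_num) (by norm_num) (by norm_num) (by norm_num) (by norm_num) (by norm_num) (by norm_num) (by norm_num) (by norm_num) (by norm_num)
    (exp_neg_leJ (r := 0.094) 11 (by norm_num) (by norm_num) (by norm_num) (by norm_num))
    (exp_neg_leJ (r := 0.022) 8 (by norm_num) (by norm_num) (by norm_num) (by norm_num))
    (exp_neg_leJ (r := 0.99) 14 (by norm_num) (by norm_num) (by norm_num) (by norm_num))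
    (exp_neg_leJ (r := 0.99) 14 (by norm_num) (by norm_num) (by norm_num) (by norm_num))
    (exp_neg_leJ (r := 0.544) 12 (by norm_num) (by norm_num) (by norm_num) (by norm_num))
    (exp_neg_leJ (r := 0.99) 14 (by norm_num) (by norm_num) (by norm_num) (by norm_num))
    (exp_neg_leJ (r := 0.99) 14 (by norm_num) (by norm_num) (by norm_num) (by norm_num))
    (exp_neg_leJ (r := 0.99) 14 (by norm_num) (by norm_num) (by norm_num) (by norm_num))
    (by norm_num)) (by norm_num) hN hβ.le (by norm_num)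

private theorem JB8_k1_b3_3 {β x y : ℝ} (hβ : 0 < β) (hN : β * 17.639 ≤ 1) (hx1 : 0.7152 ≤ x) (hx2 : x ≤ 0.9449)
    (hy1 : -0 ≤ y) (hy2 : y ≤ 0.269) : ‖HH β (x + y * I) - 1‖ ≤ 0.03 := by
  refine le_epsJ (C := 0.5217) (N0 := 17.639) (J_boxp 0.7152 0.9449 0 0.269 0.269 1.2136 0.9825 1.5822 0.9409 0.5019 4.1999 17.639 0.8096 3.007 1.442 1.0566 0.6067 0.443 1.2531 3.5476 0.6749 1.4628 1.8473 2.2042 0.00002255 0.0004047 0.0000003101 0.0000003101 0.00000678 0.0000003101 0.0000003101 0.0000003101 0.5217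
    hβ hN hx1 hx2 hy1 hy2 (by norm_num) (by norm_num) (by linarith) (by norm_num) (by norm_num) (by norm_num) (by norm_num) (by norm_num) (by norm_num) (by norm_num) (by norm_num) (by norm_num) (by norm_num) (by norm_num) (by norm_num) (by norm_num) (by norm_num) (by norm_num) (by norm_num) (by norm_num) (by norm_num) (by norm_num) (by norm_num) (by norm_num)
    (cube_sqrt_geJ (s := 0.8544) (by norm_num) (by norm_num) (by norm_num) (by norm_num))
    (cube_sqrt_geJ (s := 0.9491) (by norm_num) (by norm_num) (by norm_num) (by norm_num))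
    (by norm_num) (by norm_num) (by norm_num) (by norm_num) (by norm_num) (by norm_num) (by norm_num) (by norm_num) (by norm_num) (by norm_num) (by norm_num) (by norm_num) (by norm_num) (by norm_num) (by norm_num) (by norm_num) (by norm_num) (by norm_num)
    (exp_neg_leJ (r := 0.701) 10 (by norm_num) (by norm_num) (by norm_num) (by norm_num))
    (exp_neg_leJ (r := 0.814) 7 (by norm_num) (by norm_num) (by norm_num) (by norm_num))
    (exp_neg_leJ (r := 0.99) 14 (by norm_num) (by norm_num) (by norm_num) (by norm_num))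
    (exp_neg_leJ (r := 0.99) 14 (by norm_num) (by norm_num) (by norm_num) (by norm_num))
    (exp_neg_leJ (r := 0.904) 11 (by norm_num) (by norm_num) (by norm_num) (by norm_num))
    (exp_neg_leJ (r := 0.99) 14 (by norm_num) (by norm_num) (by norm_num) (by norm_num))
    (exp_neg_leJ (r := 0.99) 14 (by norm_num) (by norm_num) (by norm_num) (by norm_num))
    (exp_neg_leJ (r := 0.99) 14 (by norm_num) (by norm_num) (by norm_num) (by norm_num))
    (by norm_num)) (by norm_num) hN hβ.le (by norm_num)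

private theorem JB8_k1_b3_4 {β x y : ℝ} (hβ : 0 < β) (hN : β * 17.639 ≤ 1) (hx1 : 0.6595 ≤ x) (hx2 : x ≤ 0.8767)
    (hy1 : -0 ≤ y) (hy2 : y ≤ 0.314) : ‖HH β (x + y * I) - 1‖ ≤ 0.03 := by
  refine le_epsJ (C := 0.5237) (N0 := 17.639) (J_boxp 0.6595 0.8767 0 0.314 0.314 1.1744 0.9313 1.5797 0.9876 0.5015 4.1999 17.639 0.7931 2.93 1.43 1.0829 0.5871 0.4319 1.234 3.5824 0.6433 1.3811 1.5429 2.0199 0.00003184 0.0004918 0.0000003101 0.0000003101 0.00001181 0.0000003101 0.0000003101 0.0000003101 0.5237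
    hβ hN hx1 hx2 hy1 hy2 (by norm_num) (by norm_num) (by linarith) (by norm_num) (by norm_num) (by norm_num) (by norm_num) (by norm_num) (by norm_num) (by norm_num) (by norm_num) (by norm_num) (by norm_num) (by norm_num) (by norm_num) (by norm_num) (by norm_num) (by norm_num) (by norm_num) (by norm_num) (by norm_num) (by norm_num) (by norm_num) (by norm_num)
    (cube_sqrt_geJ (s := 0.8576) (by norm_num) (by norm_num) (by norm_num) (by norm_num))
    (cube_sqrt_geJ (s := 0.9502) (by norm_num) (by norm_num) (by norm_num) (by norm_num))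
    (by norm_num) (by norm_num) (by norm_num) (by norm_num) (by norm_num) (by norm_num) (by norm_num) (by norm_num) (by norm_num) (by norm_num) (by norm_num) (by norm_num) (by norm_num) (by norm_num) (by norm_num) (by norm_num) (by norm_num) (by norm_num)
    (exp_neg_leJ (r := 0.355) 10 (by norm_num) (by norm_num) (by norm_num) (by norm_num))
    (exp_neg_leJ (r := 0.618) 7 (by norm_num) (by norm_num) (by norm_num) (by norm_num))
    (exp_neg_leJ (r := 0.99) 14 (by norm_num) (by norm_num) (by norm_num) (by norm_num))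
    (exp_neg_leJ (r := 0.99) 14 (by norm_num) (by norm_num) (by norm_num) (by norm_num))
    (exp_neg_leJ (r := 0.347) 11 (by norm_num) (by norm_num) (by norm_num) (by norm_num))
    (exp_neg_leJ (r := 0.99) 14 (by norm_num) (by norm_num) (by norm_num) (by norm_num))
    (exp_neg_leJ (r := 0.99) 14 (by norm_num) (by norm_num) (by norm_num) (by norm_num))
    (exp_neg_leJ (r := 0.99) 14 (by norm_num) (by norm_num) (by norm_num) (by norm_num))
    (by norm_num)) (by norm_num) hN hβ.le (by norm_num)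

private theorem JB8_k1_b3_5 {β x y : ℝ} (hβ : 0 < β) (hN : β * 17.639 ≤ 1) (hx1 : 0.6239 ≤ x) (hx2 : x ≤ 0.8185)
    (hy1 : -0 ≤ y) (hy2 : y ≤ 0.341) : ‖HH β (x + y * I) - 1‖ ≤ 0.03 := by
  refine le_epsJ (C := 0.5075) (N0 := 17.639) (J_boxp 0.6239 0.8185 0 0.341 0.341 1.1493 0.8867 1.5711 1.0174 0.5001 4.1999 17.639 0.7716 2.832 1.416 1.1053 0.5746 0.4268 1.2218 3.6124 0.6232 1.329 1.3559 1.9427 0.00003967 0.000538 0.0000003101 0.0000003101 0.00001693 0.0000003101 0.0000003101 0.0000003101 0.5075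
    hβ hN hx1 hx2 hy1 hy2 (by norm_num) (by norm_num) (by linarith) (by norm_num) (by norm_num) (by norm_num) (by norm_num) (by norm_num) (by norm_num) (by norm_num) (by norm_num) (by norm_num) (by norm_num) (by norm_num) (by norm_num) (by norm_num) (by norm_num) (by norm_num) (by norm_num) (by norm_num) (by norm_num) (by norm_num) (by norm_num) (by norm_num)
    (cube_sqrt_geJ (s := 0.8618) (by norm_num) (by norm_num) (by norm_num) (by norm_num))
    (cube_sqrt_geJ (s := 0.9515) (by norm_num) (by norm_num) (by norm_num) (by norm_num))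
    (by norm_num) (by norm_num) (by norm_num) (by norm_num) (by norm_num) (by norm_num) (by norm_num) (by norm_num) (by norm_num) (by norm_num) (by norm_num) (by norm_num) (by norm_num) (by norm_num) (by norm_num) (by norm_num) (by norm_num) (by norm_num)
    (exp_neg_leJ (r := 0.135) 10 (by norm_num) (by norm_num) (by norm_num) (by norm_num))
    (exp_neg_leJ (r := 0.528) 7 (by norm_num) (by norm_num) (by norm_num) (by norm_num))
    (exp_neg_leJ (r := 0.99) 14 (by norm_num) (by norm_num) (by norm_num) (by norm_num))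
    (exp_neg_leJ (r := 0.99) 14 (by norm_num) (by norm_num) (by norm_num) (by norm_num))
    (exp_neg_leJ (r := 0.99) 10 (by norm_num) (by norm_num) (by norm_num) (by norm_num))
    (exp_neg_leJ (r := 0.99) 14 (by norm_num) (by norm_num) (by norm_num) (by norm_num))
    (exp_neg_leJ (r := 0.99) 14 (by norm_num) (by norm_num) (by norm_num) (by norm_num))
    (exp_neg_leJ (r := 0.99) 14 (by norm_num) (by norm_num) (by norm_num) (by norm_num))
    (by norm_num)) (by norm_num) hN hβ.le (by norm_num)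

private theorem JB8_k1_c3 {κ t β : ℝ} (h : DomR κ t) (hβ : 0 < β) (hk1 : 1 ≤ κ) (hk2 : κ ≤ 1.2)
    (ht1 : 0.039 ≤ t + κ) (ht2 : t + κ ≤ 0.825) (hR0 : β * 10 ≤ κ) (hR : β * (8.82 * (1 + κ ^ 2)) ≤ κ) :
    ‖HH β (sg κ t) - 1‖ ≤ 0.03 := by
  have hN : β * 17.639 ≤ 1 := bNC' hβ hk1 (by norm_num) (by norm_num) hR (by norm_num)
  have hy1 : 0.019 ≤ sy κ t := syR_ge h 1 1.2 0.039 0.019 1.01918 1.01919 0.01613 0.01937 hk1 hk2 (by linarith) (by norm_num) (by norm_num)
    (expn_ge (by norm_num) (by norm_num)) (expn_le (by norm_num) (by norm_num) (by norm_num)) (by norm_num)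
    (by norm_num) (by norm_num) (by norm_num) (by norm_num) (by norm_num) (by norm_num)
  have hy2 : sy κ t ≤ 0.341 := syR_le h 1 1.2 0.825 0.341 1.40635 0.3796 0.39963 0.47957 hk1 hk2 (by linarith) (by norm_num) (by norm_num)
    (expn_ge (by norm_num) (by norm_num)) (by norm_num) (by norm_num) (Or.inr ((mul_le_mul_of_nonneg_left (expn_le (E := 1.40636) (by norm_num) (by norm_num) (by norm_num)) (by norm_num)).trans (by norm_num))) (by norm_num) (by norm_num) (by norm_num)
  rcases le_total (sy κ t) 0.084 with f0 | g0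
  · have hx1 : 0.9155 ≤ sx κ t := sx_lo h 1 0.084 0.084 0.91943 0.9155 hk1 (by norm_num) f0 (abs_le.2 ⟨by linarith, by linarith⟩) (expm_ge (by norm_num) (by norm_num) (by norm_num) (by norm_num)) (by norm_num) (by norm_num)
    have hx2 : sx κ t ≤ 1.1773 := sx_hi h 1.2 0.019 0.019 0.98118 1.1773 hk2 hy1 (by norm_num) (by rw [abs_of_nonneg (by linarith)]; linarith) (expm_le (by norm_num) (by norm_num) (by norm_num)) (by norm_num) (by norm_num)
    exact JB8_k1_b3_0 hβ hN hx1 hx2 (by linarith) (by linarith)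
  rcases le_total (sy κ t) 0.149 with f1 | g1
  · have hx1 : 0.8485 ≤ sx κ t := sx_lo h 1 0.149 0.149 0.86156 0.8485 hk1 (by norm_num) f1 (abs_le.2 ⟨by linarith, by linarith⟩) (expm_ge (by norm_num) (by norm_num) (by norm_num) (by norm_num)) (by norm_num) (by norm_num)
    have hx2 : sx κ t ≤ 1.1002 := sx_hi h 1.2 0.084 0.084 0.91944 1.1002 hk2 g0 (by norm_num) (by rw [abs_of_nonneg (by linarith)]; linarith) (expm_le (by norm_num) (by norm_num) (by norm_num)) (by norm_num) (by norm_num)
    exact JB8_k1_b3_1 hβ hN hx1 hx2 (by linarith) (by linarith)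
  rcases le_total (sy κ t) 0.214 with f2 | g2
  · have hx1 : 0.7784 ≤ sx κ t := sx_lo h 1 0.214 0.214 0.80734 0.7784 hk1 (by norm_num) f2 (abs_le.2 ⟨by linarith, by linarith⟩) (expm_ge (by norm_num) (by norm_num) (by norm_num) (by norm_num)) (by norm_num) (by norm_num)
    have hx2 : sx κ t ≤ 1.0231 := sx_hi h 1.2 0.149 0.149 0.86157 1.0231 hk2 g1 (by norm_num) (by rw [abs_of_nonneg (by linarith)]; linarith) (expm_le (by norm_num) (by norm_num) (by norm_num)) (by norm_num) (by norm_num)
    exact JB8_k1_b3_2 hβ hN hx1 hx2 (by linarith) (by linarith)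
  rcases le_total (sy κ t) 0.269 with f3 | g3
  · have hx1 : 0.7152 ≤ sx κ t := sx_lo h 1 0.269 0.269 0.76414 0.7152 hk1 (by norm_num) f3 (abs_le.2 ⟨by linarith, by linarith⟩) (expm_ge (by norm_num) (by norm_num) (by norm_num) (by norm_num)) (by norm_num) (by norm_num)
    have hx2 : sx κ t ≤ 0.9449 := sx_hi h 1.2 0.214 0.214 0.80735 0.9449 hk2 g2 (by norm_num) (by rw [abs_of_nonneg (by linarith)]; linarith) (expm_le (by norm_num) (by norm_num) (by norm_num)) (by norm_num) (by norm_num)
    exact JB8_k1_b3_3 hβ hN hx1 hx2 (by linarith) (by linarith)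
  rcases le_total (sy κ t) 0.314 with f4 | g4
  · have hx1 : 0.6595 ≤ sx κ t := sx_lo h 1 0.314 0.314 0.73051 0.6595 hk1 (by norm_num) f4 (abs_le.2 ⟨by linarith, by linarith⟩) (expm_ge (by norm_num) (by norm_num) (by norm_num) (by norm_num)) (by norm_num) (by norm_num)
    have hx2 : sx κ t ≤ 0.8767 := sx_hi h 1.2 0.269 0.269 0.76415 0.8767 hk2 g3 (by norm_num) (by rw [abs_of_nonneg (by linarith)]; linarith) (expm_le (by norm_num) (by norm_num) (by norm_num)) (by norm_num) (by norm_num)
    exact JB8_k1_b3_4 hβ hN hx1 hx2 (by linarith) (by linarith)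
  have hx1 : 0.6239 ≤ sx κ t := sx_lo h 1 0.341 0.341 0.71105 0.6239 hk1 (by norm_num) hy2 (abs_le.2 ⟨by linarith, by linarith⟩) (expm_ge (by norm_num) (by norm_num) (by norm_num) (by norm_num)) (by norm_num) (by norm_num)
  have hx2 : sx κ t ≤ 0.8185 := sx_hi h 1.2 0.314 0.314 0.73052 0.8185 hk2 g4 (by norm_num) (by rw [abs_of_nonneg (by linarith)]; linarith) (expm_le (by norm_num) (by norm_num) (by norm_num)) (by norm_num) (by norm_num)
  exact JB8_k1_b3_5 hβ hN hx1 hx2 (by linarith) (by linarith)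

private theorem JB8_k1_b4_0 {β x y : ℝ} (hβ : 0 < β) (hN : β * 17.933 ≤ 1) (hx1 : 1.1131 ≤ x) (hx2 : x ≤ 1.3651)
    (hy1 : -0 ≤ y) (hy2 : y ≤ 0.073) : ‖HH β (x + y * I) - 1‖ ≤ 0.03 := by
  refine le_epsJ (C := 0.5358) (N0 := 17.933) (J_boxp 1.1131 1.3651 0 0.073 0.073 1.4938 1.3671 1.7364 0.7218 0.5257 4.2348 17.933 0.9152 3.575 1.516 0.895 0.7468 0.519 1.3893 3.3143 0.8882 2.0337 3.4838 2.8781 0.000001528 0.00009079 0.0000003101 0.0000003101 0.0000003101 0.0000003101 0.0000003101 0.0000003101 0.5358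
    hβ hN hx1 hx2 hy1 hy2 (by norm_num) (by norm_num) (by linarith) (by norm_num) (by norm_num) (by norm_num) (by norm_num) (by norm_num) (by norm_num) (by norm_num) (by norm_num) (by norm_num) (by norm_num) (by norm_num) (by norm_num) (by norm_num) (by norm_num) (by norm_num) (by norm_num) (by norm_num) (by norm_num) (by norm_num) (by norm_num) (by norm_num)
    (cube_sqrt_geJ (s := 0.8336) (by norm_num) (by norm_num) (by norm_num) (by norm_num))
    (cube_sqrt_geJ (s := 0.9423) (by norm_num) (by norm_num) (by norm_num) (by norm_num))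
    (by norm_num) (by norm_num) (by norm_num) (by norm_num) (by norm_num) (by norm_num) (by norm_num) (by norm_num) (by norm_num) (by norm_num) (by norm_num) (by norm_num) (by norm_num) (by norm_num) (by norm_num) (by norm_num) (by norm_num) (by norm_num)
    (exp_neg_leJ (r := 0.392) 13 (by norm_num) (by norm_num) (by norm_num) (by norm_num))
    (exp_neg_leJ (r := 0.307) 9 (by norm_num) (by norm_num) (by norm_num) (by norm_num))
    (exp_neg_leJ (r := 0.99) 14 (by norm_num) (by norm_num) (by norm_num) (by norm_num))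
    (exp_neg_leJ (r := 0.99) 14 (by norm_num) (by norm_num) (by norm_num) (by norm_num))
    (exp_neg_leJ (r := 0.99) 14 (by norm_num) (by norm_num) (by norm_num) (by norm_num))
    (exp_neg_leJ (r := 0.99) 14 (by norm_num) (by norm_num) (by norm_num) (by norm_num))
    (exp_neg_leJ (r := 0.99) 14 (by norm_num) (by norm_num) (by norm_num) (by norm_num))
    (exp_neg_leJ (r := 0.99) 14 (by norm_num) (by norm_num) (by norm_num) (by norm_num))
    (by norm_num)) (by norm_num) hN hβ.le (by norm_num)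

private theorem JB8_k1_b4_1 {β x y : ℝ} (hβ : 0 < β) (hN : β * 17.933 ≤ 1) (hx1 : 1.042 ≤ x) (hx2 : x ≤ 1.2901)
    (hy1 : -0 ≤ y) (hy2 : y ≤ 0.133) : ‖HH β (x + y * I) - 1‖ ≤ 0.03 := by
  refine le_epsJ (C := 0.535) (N0 := 17.933) (J_boxp 1.042 1.2901 0 0.133 0.133 1.4437 1.297 1.717 0.7554 0.5228 4.2348 17.933 0.8984 3.476 1.504 0.9239 0.7218 0.5056 1.3649 3.3563 0.8475 1.9292 3.0842 2.6437 0.000002398 0.0001156 0.0000003101 0.0000003101 0.0000003101 0.0000003101 0.0000003101 0.0000003101 0.535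
    hβ hN hx1 hx2 hy1 hy2 (by norm_num) (by norm_num) (by linarith) (by norm_num) (by norm_num) (by norm_num) (by norm_num) (by norm_num) (by norm_num) (by norm_num) (by norm_num) (by norm_num) (by norm_num) (by norm_num) (by norm_num) (by norm_num) (by norm_num) (by norm_num) (by norm_num) (by norm_num) (by norm_num) (by norm_num) (by norm_num) (by norm_num)
    (cube_sqrt_geJ (s := 0.8369) (by norm_num) (by norm_num) (by norm_num) (by norm_num))
    (cube_sqrt_geJ (s := 0.9433) (by norm_num) (by norm_num) (by norm_num) (by norm_num))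
    (by norm_num) (by norm_num) (by norm_num) (by norm_num) (by norm_num) (by norm_num) (by norm_num) (by norm_num) (by norm_num) (by norm_num) (by norm_num) (by norm_num) (by norm_num) (by norm_num) (by norm_num) (by norm_num) (by norm_num) (by norm_num)
    (exp_neg_leJ (r := 0.944) 12 (by norm_num) (by norm_num) (by norm_num) (by norm_num))
    (exp_neg_leJ (r := 0.066) 9 (by norm_num) (by norm_num) (by norm_num) (by norm_num))
    (exp_neg_leJ (r := 0.99) 14 (by norm_num) (by norm_num) (by norm_num) (by norm_num))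
    (exp_neg_leJ (r := 0.99) 14 (by norm_num) (by norm_num) (by norm_num) (by norm_num))
    (exp_neg_leJ (r := 0.99) 14 (by norm_num) (by norm_num) (by norm_num) (by norm_num))
    (exp_neg_leJ (r := 0.99) 14 (by norm_num) (by norm_num) (by norm_num) (by norm_num))
    (exp_neg_leJ (r := 0.99) 14 (by norm_num) (by norm_num) (by norm_num) (by norm_num))
    (exp_neg_leJ (r := 0.99) 14 (by norm_num) (by norm_num) (by norm_num) (by norm_num))
    (by norm_num)) (by norm_num) hN hβ.le (by norm_num)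

private theorem JB8_k1_b4_2 {β x y : ℝ} (hβ : 0 < β) (hN : β * 17.933 ≤ 1) (hx1 : 0.9703 ≤ x) (hx2 : x ≤ 1.2097)
    (hy1 : -0 ≤ y) (hy2 : y ≤ 0.193) : ‖HH β (x + y * I) - 1‖ ≤ 0.03 := by
  refine le_epsJ (C := 0.5321) (N0 := 17.933) (J_boxp 0.9703 1.2097 0 0.193 0.193 1.3932 1.225 1.6991 0.7927 0.5201 4.2348 17.933 0.8793 3.368 1.49 0.9548 0.6965 0.4924 1.3404 3.4005 0.8066 1.8238 2.6835 2.4133 0.000003765 0.0001466 0.0000003101 0.0000003101 0.000000523 0.0000003101 0.0000003101 0.0000003101 0.5321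
    hβ hN hx1 hx2 hy1 hy2 (by norm_num) (by norm_num) (by linarith) (by norm_num) (by norm_num) (by norm_num) (by norm_num) (by norm_num) (by norm_num) (by norm_num) (by norm_num) (by norm_num) (by norm_num) (by norm_num) (by norm_num) (by norm_num) (by norm_num) (by norm_num) (by norm_num) (by norm_num) (by norm_num) (by norm_num) (by norm_num) (by norm_num)
    (cube_sqrt_geJ (s := 0.8407) (by norm_num) (by norm_num) (by norm_num) (by norm_num))
    (cube_sqrt_geJ (s := 0.9446) (by norm_num) (by norm_num) (by norm_num) (by norm_num))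
    (by norm_num) (by norm_num) (by norm_num) (by norm_num) (by norm_num) (by norm_num) (by norm_num) (by norm_num) (by norm_num) (by norm_num) (by norm_num) (by norm_num) (by norm_num) (by norm_num) (by norm_num) (by norm_num) (by norm_num) (by norm_num)
    (exp_neg_leJ (r := 0.49) 12 (by norm_num) (by norm_num) (by norm_num) (by norm_num))
    (exp_neg_leJ (r := 0.83) 8 (by norm_num) (by norm_num) (by norm_num) (by norm_num))
    (exp_neg_leJ (r := 0.99) 14 (by norm_num) (by norm_num) (by norm_num) (by norm_num))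
    (exp_neg_leJ (r := 0.99) 14 (by norm_num) (by norm_num) (by norm_num) (by norm_num))
    (exp_neg_leJ (r := 0.464) 14 (by norm_num) (by norm_num) (by norm_num) (by norm_num))
    (exp_neg_leJ (r := 0.99) 14 (by norm_num) (by norm_num) (by norm_num) (by norm_num))
    (exp_neg_leJ (r := 0.99) 14 (by norm_num) (by norm_num) (by norm_num) (by norm_num))
    (exp_neg_leJ (r := 0.99) 14 (by norm_num) (by norm_num) (by norm_num) (by norm_num))
    (by norm_num)) (by norm_num) hN hβ.le (by norm_num)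

private theorem JB8_k1_b4_3 {β x y : ℝ} (hβ : 0 < β) (hN : β * 17.933 ≤ 1) (hx1 : 0.8967 ≤ x) (hx2 : x ≤ 1.1297)
    (hy1 : -0 ≤ y) (hy2 : y ≤ 0.253) : ‖HH β (x + y * I) - 1‖ ≤ 0.03 := by
  refine le_epsJ (C := 0.5367) (N0 := 17.933) (J_boxp 0.8967 1.1297 0 0.253 0.253 1.3414 1.1577 1.6871 0.8361 0.5182 4.2348 17.933 0.8631 3.279 1.479 0.9856 0.6706 0.4777 1.3152 3.4433 0.7647 1.7157 2.2789 2.1663 0.000005993 0.0001906 0.0000003101 0.0000003101 0.000001109 0.0000003101 0.0000003101 0.0000003101 0.5367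
    hβ hN hx1 hx2 hy1 hy2 (by norm_num) (by norm_num) (by linarith) (by norm_num) (by norm_num) (by norm_num) (by norm_num) (by norm_num) (by norm_num) (by norm_num) (by norm_num) (by norm_num) (by norm_num) (by norm_num) (by norm_num) (by norm_num) (by norm_num) (by norm_num) (by norm_num) (by norm_num) (by norm_num) (by norm_num) (by norm_num) (by norm_num)
    (cube_sqrt_geJ (s := 0.8439) (by norm_num) (by norm_num) (by norm_num) (by norm_num))
    (cube_sqrt_geJ (s := 0.9456) (by norm_num) (by norm_num) (by norm_num) (by norm_num))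
    (by norm_num) (by norm_num) (by norm_num) (by norm_num) (by norm_num) (by norm_num) (by norm_num) (by norm_num) (by norm_num) (by norm_num) (by norm_num) (by norm_num) (by norm_num) (by norm_num) (by norm_num) (by norm_num) (by norm_num) (by norm_num)
    (exp_neg_leJ (r := 0.025) 12 (by norm_num) (by norm_num) (by norm_num) (by norm_num))
    (exp_neg_leJ (r := 0.566) 8 (by norm_num) (by norm_num) (by norm_num) (by norm_num))
    (exp_neg_leJ (r := 0.99) 14 (by norm_num) (by norm_num) (by norm_num) (by norm_num))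
    (exp_neg_leJ (r := 0.99) 14 (by norm_num) (by norm_num) (by norm_num) (by norm_num))
    (exp_neg_leJ (r := 0.713) 13 (by norm_num) (by norm_num) (by norm_num) (by norm_num))
    (exp_neg_leJ (r := 0.99) 14 (by norm_num) (by norm_num) (by norm_num) (by norm_num))
    (exp_neg_leJ (r := 0.99) 14 (by norm_num) (by norm_num) (by norm_num) (by norm_num))
    (exp_neg_leJ (r := 0.99) 14 (by norm_num) (by norm_num) (by norm_num) (by norm_num))
    (by norm_num)) (by norm_num) hN hβ.le (by norm_num)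

private theorem JB8_k1_b4_4 {β x y : ℝ} (hβ : 0 < β) (hN : β * 17.933 ≤ 1) (hx1 : 0.8329 ≤ x) (hx2 : x ≤ 1.0493)
    (hy1 : -0 ≤ y) (hy2 : y ≤ 0.303) : ‖HH β (x + y * I) - 1‖ ≤ 0.03 := by
  refine le_epsJ (C := 0.5308) (N0 := 17.933) (J_boxp 0.8329 1.0493 0 0.303 0.303 1.2965 1.0922 1.673 0.8762 0.5161 4.2348 17.933 0.8425 3.171 1.464 1.0165 0.6482 0.4661 1.2933 3.4858 0.7286 1.6223 1.9369 1.9812 0.000008954 0.0002346 0.0000003101 0.0000003101 0.000002119 0.0000003101 0.0000003101 0.0000003101 0.5308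
    hβ hN hx1 hx2 hy1 hy2 (by norm_num) (by norm_num) (by linarith) (by norm_num) (by norm_num) (by norm_num) (by norm_num) (by norm_num) (by norm_num) (by norm_num) (by norm_num) (by norm_num) (by norm_num) (by norm_num) (by norm_num) (by norm_num) (by norm_num) (by norm_num) (by norm_num) (by norm_num) (by norm_num) (by norm_num) (by norm_num) (by norm_num)
    (cube_sqrt_geJ (s := 0.848) (by norm_num) (by norm_num) (by norm_num) (by norm_num))
    (cube_sqrt_geJ (s := 0.947) (by norm_num) (by norm_num) (by norm_num) (by norm_num))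
    (by norm_num) (by norm_num) (by norm_num) (by norm_num) (by norm_num) (by norm_num) (by norm_num) (by norm_num) (by norm_num) (by norm_num) (by norm_num) (by norm_num) (by norm_num) (by norm_num) (by norm_num) (by norm_num) (by norm_num) (by norm_num)
    (exp_neg_leJ (r := 0.624) 11 (by norm_num) (by norm_num) (by norm_num) (by norm_num))
    (exp_neg_leJ (r := 0.358) 8 (by norm_num) (by norm_num) (by norm_num) (by norm_num))
    (exp_neg_leJ (r := 0.99) 14 (by norm_num) (by norm_num) (by norm_num) (by norm_num))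
    (exp_neg_leJ (r := 0.99) 14 (by norm_num) (by norm_num) (by norm_num) (by norm_num))
    (exp_neg_leJ (r := 0.065) 13 (by norm_num) (by norm_num) (by norm_num) (by norm_num))
    (exp_neg_leJ (r := 0.99) 14 (by norm_num) (by norm_num) (by norm_num) (by norm_num))
    (exp_neg_leJ (r := 0.99) 14 (by norm_num) (by norm_num) (by norm_num) (by norm_num))
    (exp_neg_leJ (r := 0.99) 14 (by norm_num) (by norm_num) (by norm_num) (by norm_num))
    (by norm_num)) (by norm_num) hN hβ.le (by norm_num)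

private theorem JB8_k1_b4_5 {β x y : ℝ} (hβ : 0 < β) (hN : β * 17.933 ≤ 1) (hx1 : 0.7766 ≤ x) (hx2 : x ≤ 0.981)
    (hy1 : -0 ≤ y) (hy2 : y ≤ 0.345) : ‖HH β (x + y * I) - 1‖ ≤ 0.03 := by
  refine le_epsJ (C := 0.5323) (N0 := 17.933) (J_boxp 0.7766 0.981 0 0.345 0.345 1.2568 1.0399 1.6648 0.9158 0.5148 4.2348 17.933 0.8275 3.095 1.454 1.0428 0.6283 0.455 1.2741 3.521 0.697 1.5401 1.6441 1.8128 0.00001279 0.0002862 0.0000003101 0.0000003101 0.000003732 0.0000003101 0.0000003101 0.0000003101 0.5323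
    hβ hN hx1 hx2 hy1 hy2 (by norm_num) (by norm_num) (by linarith) (by norm_num) (by norm_num) (by norm_num) (by norm_num) (by norm_num) (by norm_num) (by norm_num) (by norm_num) (by norm_num) (by norm_num) (by norm_num) (by norm_num) (by norm_num) (by norm_num) (by norm_num) (by norm_num) (by norm_num) (by norm_num) (by norm_num) (by norm_num) (by norm_num)
    (cube_sqrt_geJ (s := 0.8509) (by norm_num) (by norm_num) (by norm_num) (by norm_num))
    (cube_sqrt_geJ (s := 0.9479) (by norm_num) (by norm_num) (by norm_num) (by norm_num))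
    (by norm_num) (by norm_num) (by norm_num) (by norm_num) (by norm_num) (by norm_num) (by norm_num) (by norm_num) (by norm_num) (by norm_num) (by norm_num) (by norm_num) (by norm_num) (by norm_num) (by norm_num) (by norm_num) (by norm_num) (by norm_num)
    (exp_neg_leJ (r := 0.267) 11 (by norm_num) (by norm_num) (by norm_num) (by norm_num))
    (exp_neg_leJ (r := 0.159) 8 (by norm_num) (by norm_num) (by norm_num) (by norm_num))
    (exp_neg_leJ (r := 0.99) 14 (by norm_num) (by norm_num) (by norm_num) (by norm_num))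
    (exp_neg_leJ (r := 0.99) 14 (by norm_num) (by norm_num) (by norm_num) (by norm_num))
    (exp_neg_leJ (r := 0.499) 12 (by norm_num) (by norm_num) (by norm_num) (by norm_num))
    (exp_neg_leJ (r := 0.99) 14 (by norm_num) (by norm_num) (by norm_num) (by norm_num))
    (exp_neg_leJ (r := 0.99) 14 (by norm_num) (by norm_num) (by norm_num) (by norm_num))
    (exp_neg_leJ (r := 0.99) 14 (by norm_num) (by norm_num) (by norm_num) (by norm_num))
    (by norm_num)) (by norm_num) hN hβ.le (by norm_num)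

private theorem JB8_k1_c4 {κ t β : ℝ} (h : DomR κ t) (hβ : 0 < β) (hk1 : 1.2 ≤ κ) (hk2 : κ ≤ 1.39)
    (ht1 : 0.039 ≤ t + κ) (ht2 : t + κ ≤ 0.825) (hR0 : β * 10 ≤ κ) (hR : β * (8.82 * (1 + κ ^ 2)) ≤ κ) :
    ‖HH β (sg κ t) - 1‖ ≤ 0.03 := by
  have hN : β * 17.933 ≤ 1 := bNC' hβ hk1 (by norm_num) (by norm_num) hR (by norm_num)
  have hy1 : 0.018 ≤ sy κ t := syR_ge h 1.2 1.39 0.039 0.018 1.01816 1.01817 0.01318 0.01528 hk1 hk2 (by linarith) (by norm_num) (by norm_num)
    (expn_ge (by norm_num) (by norm_num)) (expn_le (by norm_num) (by norm_num) (by norm_num)) (by norm_num)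
    (by norm_num) (by norm_num) (by norm_num) (by norm_num) (by norm_num) (by norm_num)
  have hy2 : sy κ t ≤ 0.345 := syR_le h 1.2 1.39 0.825 0.345 1.41198 0.3411 0.35045 0.40595 hk1 hk2 (by linarith) (by norm_num) (by norm_num)
    (expn_ge (by norm_num) (by norm_num)) (by norm_num) (by norm_num) (Or.inr ((mul_le_mul_of_nonneg_left (expn_le (E := 1.41199) (by norm_num) (by norm_num) (by norm_num)) (by norm_num)).trans (by norm_num))) (by norm_num) (by norm_num) (by norm_num)
  rcases le_total (sy κ t) 0.073 with f0 | g0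
  · have hx1 : 1.1131 ≤ sx κ t := sx_lo h 1.2 0.073 0.073 0.9296 1.1131 hk1 (by norm_num) f0 (abs_le.2 ⟨by linarith, by linarith⟩) (expm_ge (by norm_num) (by norm_num) (by norm_num) (by norm_num)) (by norm_num) (by norm_num)
    have hx2 : sx κ t ≤ 1.3651 := sx_hi h 1.39 0.018 0.018 0.98217 1.3651 hk2 hy1 (by norm_num) (by rw [abs_of_nonneg (by linarith)]; linarith) (expm_le (by norm_num) (by norm_num) (by norm_num)) (by norm_num) (by norm_num)
    exact JB8_k1_b4_0 hβ hN hx1 hx2 (by linarith) (by linarith)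
  rcases le_total (sy κ t) 0.133 with f1 | g1
  · have hx1 : 1.042 ≤ sx κ t := sx_lo h 1.2 0.133 0.133 0.87546 1.042 hk1 (by norm_num) f1 (abs_le.2 ⟨by linarith, by linarith⟩) (expm_ge (by norm_num) (by norm_num) (by norm_num) (by norm_num)) (by norm_num) (by norm_num)
    have hx2 : sx κ t ≤ 1.2901 := sx_hi h 1.39 0.073 0.073 0.92961 1.2901 hk2 g0 (by norm_num) (by rw [abs_of_nonneg (by linarith)]; linarith) (expm_le (by norm_num) (by norm_num) (by norm_num)) (by norm_num) (by norm_num)
    exact JB8_k1_b4_1 hβ hN hx1 hx2 (by linarith) (by linarith)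
  rcases le_total (sy κ t) 0.193 with f2 | g2
  · have hx1 : 0.9703 ≤ sx κ t := sx_lo h 1.2 0.193 0.193 0.82448 0.9703 hk1 (by norm_num) f2 (abs_le.2 ⟨by linarith, by linarith⟩) (expm_ge (by norm_num) (by norm_num) (by norm_num) (by norm_num)) (by norm_num) (by norm_num)
    have hx2 : sx κ t ≤ 1.2097 := sx_hi h 1.39 0.133 0.133 0.87547 1.2097 hk2 g1 (by norm_num) (by rw [abs_of_nonneg (by linarith)]; linarith) (expm_le (by norm_num) (by norm_num) (by norm_num)) (by norm_num) (by norm_num)
    exact JB8_k1_b4_2 hβ hN hx1 hx2 (by linarith) (by linarith)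
  rcases le_total (sy κ t) 0.253 with f3 | g3
  · have hx1 : 0.8967 ≤ sx κ t := sx_lo h 1.2 0.253 0.253 0.77646 0.8967 hk1 (by norm_num) f3 (abs_le.2 ⟨by linarith, by linarith⟩) (expm_ge (by norm_num) (by norm_num) (by norm_num) (by norm_num)) (by norm_num) (by norm_num)
    have hx2 : sx κ t ≤ 1.1297 := sx_hi h 1.39 0.193 0.193 0.82449 1.1297 hk2 g2 (by norm_num) (by rw [abs_of_nonneg (by linarith)]; linarith) (expm_le (by norm_num) (by norm_num) (by norm_num)) (by norm_num) (by norm_num)
    exact JB8_k1_b4_3 hβ hN hx1 hx2 (by linarith) (by linarith)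
  rcases le_total (sy κ t) 0.303 with f4 | g4
  · have hx1 : 0.8329 ≤ sx κ t := sx_lo h 1.2 0.303 0.303 0.73859 0.8329 hk1 (by norm_num) f4 (abs_le.2 ⟨by linarith, by linarith⟩) (expm_ge (by norm_num) (by norm_num) (by norm_num) (by norm_num)) (by norm_num) (by norm_num)
    have hx2 : sx κ t ≤ 1.0493 := sx_hi h 1.39 0.253 0.253 0.77647 1.0493 hk2 g3 (by norm_num) (by rw [abs_of_nonneg (by linarith)]; linarith) (expm_le (by norm_num) (by norm_num) (by norm_num)) (by norm_num) (by norm_num)
    exact JB8_k1_b4_4 hβ hN hx1 hx2 (by linarith) (by linarith)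
  have hx1 : 0.7766 ≤ sx κ t := sx_lo h 1.2 0.345 0.345 0.70822 0.7766 hk1 (by norm_num) hy2 (abs_le.2 ⟨by linarith, by linarith⟩) (expm_ge (by norm_num) (by norm_num) (by norm_num) (by norm_num)) (by norm_num) (by norm_num)
  have hx2 : sx κ t ≤ 0.981 := sx_hi h 1.39 0.303 0.303 0.7386 0.981 hk2 g4 (by norm_num) (by rw [abs_of_nonneg (by linarith)]; linarith) (expm_le (by norm_num) (by norm_num) (by norm_num)) (by norm_num) (by norm_num)
  exact JB8_k1_b4_5 hβ hN hx1 hx2 (by linarith) (by linarith)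

theorem JB8_k1 {κ t β : ℝ} (h : DomR κ t) (hβ : 0 < β) (hk1 : 0.24 ≤ κ) (hk2 : κ ≤ 1.39)
    (ht1 : 0.039 ≤ t + κ) (ht2 : t + κ ≤ 0.825) (hR0 : β * 10 ≤ κ) (hR : β * (8.82 * (1 + κ ^ 2)) ≤ κ) :
    ‖HH β (sg κ t) - 1‖ ≤ 0.03 := by
  rcases le_total κ 0.54 with f0 | g0
  · exact JB8_k1_c0 h hβ hk1 f0 ht1 ht2 hR0 hR
  rcases le_total κ 0.79 with f1 | g1
  · exact JB8_k1_c1 h hβ g0 f1 ht1 ht2 hR0 hR
  rcases le_total κ 1 with f2 | g2
  · exact JB8_k1_c2 h hβ g1 f2 ht1 ht2 hR0 hR
  rcases le_total κ 1.2 with f3 | g3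
  · exact JB8_k1_c3 h hβ g2 f3 ht1 ht2 hR0 hR
  exact JB8_k1_c4 h hβ g3 hk2 ht1 ht2 hR0 hR

private theorem JB8_k2_b0_0 {β x y : ℝ} (hβ : 0 < β) (hN : β * 21.096 ≤ 1) (hx1 : 0.0563 ≤ x) (hx2 : x ≤ 0.4497)
    (hy1 : -0 ≤ y) (hy2 : y ≤ 0.293) (hsl : y ≤ 2.45 * x) : ‖HH β (x + y * I) - 1‖ ≤ 0.04 := by
  refine le_epsJ (C := 0.8343) (N0 := 21.096) (J_boxp 0.0563 0.4497 0 0.293 0.293 0.7497 0.5368 1.369 1.8025 0.4668 4.5931 21.096 0.7161 2.598 1.379 1.2471 0.3748 0.2853 1.0275 3.8205 0.3524 0.548 0.4266 1.9848 0.0003695 0.002435 0.0000003101 0.0000003101 0.0005909 0.000009544 0.0001251 0.0000003101 0.8343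
    hβ hN hx1 hx2 hy1 hy2 (by norm_num) (by norm_num) hsl (by norm_num) (by norm_num) (by norm_num) (by norm_num) (by norm_num) (by norm_num) (by norm_num) (by norm_num) (by norm_num) (by norm_num) (by norm_num) (by norm_num) (by norm_num) (by norm_num) (by norm_num) (by norm_num) (by norm_num) (by norm_num) (by norm_num) (by norm_num) (by norm_num)
    (cube_sqrt_geJ (s := 0.8725) (by norm_num) (by norm_num) (by norm_num) (by norm_num))
    (cube_sqrt_geJ (s := 0.9551) (by norm_num) (by norm_num) (by norm_num) (by norm_num))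
    (by norm_num) (by norm_num) (by norm_num) (by norm_num) (by norm_num) (by norm_num) (by norm_num) (by norm_num) (by norm_num) (by norm_num) (by norm_num) (by norm_num) (by norm_num) (by norm_num) (by norm_num) (by norm_num) (by norm_num) (by norm_num)
    (exp_neg_leJ (r := 0.906) 7 (by norm_num) (by norm_num) (by norm_num) (by norm_num))
    (exp_neg_leJ (r := 0.018) 6 (by norm_num) (by norm_num) (by norm_num) (by norm_num))
    (exp_neg_leJ (r := 0.99) 14 (by norm_num) (by norm_num) (by norm_num) (by norm_num))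
    (exp_neg_leJ (r := 0.99) 14 (by norm_num) (by norm_num) (by norm_num) (by norm_num))
    (exp_neg_leJ (r := 0.434) 7 (by norm_num) (by norm_num) (by norm_num) (by norm_num))
    (exp_neg_leJ (r := 0.56) 11 (by norm_num) (by norm_num) (by norm_num) (by norm_num))
    (exp_neg_leJ (r := 0.99) 8 (by norm_num) (by norm_num) (by norm_num) (by norm_num))
    (exp_neg_leJ (r := 0.99) 14 (by norm_num) (by norm_num) (by norm_num) (by norm_num))
    (by norm_num)) (by norm_num) hN hβ.le (by norm_num)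

private theorem JB8_k2_b0_1 {β x y : ℝ} (hβ : 0 < β) (hN : β * 21.096 ≤ 1) (hx1 : 0.1195 ≤ x) (hx2 : x ≤ 0.2765)
    (hy1 : -0 ≤ y) (hy2 : y ≤ 0.327) (hsl : y ≤ 2.45 * x) : ‖HH β (x + y * I) - 1‖ ≤ 0.04 := by
  refine le_epsJ (C := 0.4183) (N0 := 21.096) (J_boxp 0.1195 0.2765 0 0.327 0.327 0.7942 0.4283 1.3556 1.6451 0.4645 4.5931 21.096 0.5393 2.002 1.271 1.3137 0.397 0.3257 1.0491 3.9032 0.3797 0.6321 0.4071 2.2459 0.0002306 0.001041 0.0000003101 0.0000003101 0.0003322 0.000001619 0.0001864 0.0000003101 0.4183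
    hβ hN hx1 hx2 hy1 hy2 (by norm_num) (by norm_num) hsl (by norm_num) (by norm_num) (by norm_num) (by norm_num) (by norm_num) (by norm_num) (by norm_num) (by norm_num) (by norm_num) (by norm_num) (by norm_num) (by norm_num) (by norm_num) (by norm_num) (by norm_num) (by norm_num) (by norm_num) (by norm_num) (by norm_num) (by norm_num) (by norm_num)
    (cube_sqrt_geJ (s := 0.9056) (by norm_num) (by norm_num) (by norm_num) (by norm_num))
    (cube_sqrt_geJ (s := 0.9664) (by norm_num) (by norm_num) (by norm_num) (by norm_num))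
    (by norm_num) (by norm_num) (by norm_num) (by norm_num) (by norm_num) (by norm_num) (by norm_num) (by norm_num) (by norm_num) (by norm_num) (by norm_num) (by norm_num) (by norm_num) (by norm_num) (by norm_num) (by norm_num) (by norm_num) (by norm_num)
    (exp_neg_leJ (r := 0.375) 8 (by norm_num) (by norm_num) (by norm_num) (by norm_num))
    (exp_neg_leJ (r := 0.87) 6 (by norm_num) (by norm_num) (by norm_num) (by norm_num))
    (exp_neg_leJ (r := 0.99) 14 (by norm_num) (by norm_num) (by norm_num) (by norm_num))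
    (exp_neg_leJ (r := 0.99) 14 (by norm_num) (by norm_num) (by norm_num) (by norm_num))
    (exp_neg_leJ (r := 0.01) 8 (by norm_num) (by norm_num) (by norm_num) (by norm_num))
    (exp_neg_leJ (r := 0.334) 13 (by norm_num) (by norm_num) (by norm_num) (by norm_num))
    (exp_neg_leJ (r := 0.588) 8 (by norm_num) (by norm_num) (by norm_num) (by norm_num))
    (exp_neg_leJ (r := 0.99) 14 (by norm_num) (by norm_num) (by norm_num) (by norm_num))
    (by norm_num)) (by norm_num) hN hβ.le (by norm_num)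

private theorem JB8_k2_c0 {κ t β : ℝ} (h : DomR κ t) (hβ : 0 < β) (hk1 : 0.24 ≤ κ) (hk2 : κ ≤ 0.54)
    (ht1 : 0.82 ≤ t + κ) (ht2 : t + κ ≤ 1.25) (hR0 : β * 10 ≤ κ) (hR : β * (8.82 * (1 + κ ^ 2)) ≤ κ) :
    ‖HH β (sg κ t) - 1‖ ≤ 0.04 := by
  have hN : β * 21.096 ≤ 1 := bNC hβ h.1 hk2 (by norm_num) (by norm_num) hR (by norm_num)
  have hy1 : 0.138 ≤ sy κ t := syR_ge h 0.24 0.54 0.82 0.138 1.14797 1.14798 0.29337 0.66009 hk1 hk2 (by linarith) (by norm_num) (by norm_num)
    (expn_ge (by norm_num) (by norm_num)) (expn_le (by norm_num) (by norm_num) (by norm_num)) (by norm_num)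
    (by norm_num) (by norm_num) (by norm_num) (by norm_num) (by norm_num) (by norm_num)
  have hy2 : sy κ t ≤ 0.327 := syR_le h 0.24 0.54 1.25 0.327 1.3868 0.8264 0.83978 1 hk1 hk2 (by linarith) (by norm_num) (by norm_num)
    (expn_ge (by norm_num) (by norm_num)) (by norm_num) (by norm_num) (Or.inl (by norm_num)) (by norm_num) (by norm_num) (by norm_num)
  rcases le_total (sy κ t) 0.293 with f0 | g0
  · have hsl : sy κ t ≤ 2.45 * sx κ t := sy_slope h 0.24 1.25 0.138 0.8711 hk1 (by norm_num) ht2 (by norm_num) hy1 (expm_le (by norm_num) (by norm_num) (by norm_num)) (by norm_num)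
    have hx1 : 0.0563 ≤ sx κ t := by linarith
    have hx2 : sx κ t ≤ 0.4497 := sx_hi h 0.54 0.138 0.138 0.8711 0.4497 hk2 hy1 (by norm_num) (by rw [abs_of_nonneg (by linarith)]; linarith) (expm_le (by norm_num) (by norm_num) (by norm_num)) (by norm_num) (by norm_num)
    exact JB8_k2_b0_0 hβ hN hx1 hx2 (by linarith) (by linarith) hsl
  have hsl : sy κ t ≤ 2.45 * sx κ t := sy_slope h 0.24 1.25 0.293 0.74603 hk1 (by norm_num) ht2 (by norm_num) g0 (expm_le (by norm_num) (by norm_num) (by norm_num)) (by norm_num)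
  have hx1 : 0.1195 ≤ sx κ t := by linarith
  have hx2 : sx κ t ≤ 0.2765 := sx_hi h 0.54 0.293 0.293 0.74603 0.2765 hk2 g0 (by norm_num) (by rw [abs_of_nonneg (by linarith)]; linarith) (expm_le (by norm_num) (by norm_num) (by norm_num)) (by norm_num) (by norm_num)
  exact JB8_k2_b0_1 hβ hN hx1 hx2 (by linarith) (by linarith) hsl

private theorem JB8_k2_b1_0 {β x y : ℝ} (hβ : 0 < β) (hN : β * 18.245 ≤ 1) (hx1 : 0.2286 ≤ x) (hx2 : x ≤ 0.5518)
    (hy1 : -0 ≤ y) (hy2 : y ≤ 0.319) : ‖HH β (x + y * I) - 1‖ ≤ 0.04 := by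
  refine le_epsJ (C := 0.7066) (N0 := 18.245) (J_boxp 0.2286 0.5518 0 0.319 0.319 0.871 0.6374 1.4298 1.471 0.4771 4.2715 18.245 0.7319 2.662 1.39 1.2078 0.4354 0.3292 1.0865 3.7619 0.4335 0.7839 0.6597 1.9334 0.0003562 0.002464 0.0000003101 0.0000003101 0.0003684 0.0000006148 0.000005928 0.0000003101 0.7066
    hβ hN hx1 hx2 hy1 hy2 (by norm_num) (by norm_num) (by linarith) (by norm_num) (by norm_num) (by norm_num) (by norm_num) (by norm_num) (by norm_num) (by norm_num) (by norm_num) (by norm_num) (by norm_num) (by norm_num) (by norm_num) (by norm_num) (by norm_num) (by norm_num) (by norm_num) (by norm_num) (by norm_num) (by norm_num) (by norm_num) (by norm_num)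
    (cube_sqrt_geJ (s := 0.8695) (by norm_num) (by norm_num) (by norm_num) (by norm_num))
    (cube_sqrt_geJ (s := 0.9541) (by norm_num) (by norm_num) (by norm_num) (by norm_num))
    (by norm_num) (by norm_num) (by norm_num) (by norm_num) (by norm_num) (by norm_num) (by norm_num) (by norm_num) (by norm_num) (by norm_num) (by norm_num) (by norm_num) (by norm_num) (by norm_num) (by norm_num) (by norm_num) (by norm_num) (by norm_num)
    (exp_neg_leJ (r := 0.943) 7 (by norm_num) (by norm_num) (by norm_num) (by norm_num))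
    (exp_neg_leJ (r := 0.006) 6 (by norm_num) (by norm_num) (by norm_num) (by norm_num))
    (exp_neg_leJ (r := 0.99) 14 (by norm_num) (by norm_num) (by norm_num) (by norm_num))
    (exp_neg_leJ (r := 0.99) 14 (by norm_num) (by norm_num) (by norm_num) (by norm_num))
    (exp_neg_leJ (r := 0.909) 7 (by norm_num) (by norm_num) (by norm_num) (by norm_num))
    (exp_neg_leJ (r := 0.302) 14 (by norm_num) (by norm_num) (by norm_num) (by norm_num))
    (exp_neg_leJ (r := 0.036) 12 (by norm_num) (by norm_num) (by norm_num) (by norm_num))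
    (exp_neg_leJ (r := 0.99) 14 (by norm_num) (by norm_num) (by norm_num) (by norm_num))
    (by norm_num)) (by norm_num) hN hβ.le (by norm_num)

private theorem JB8_k2_b1_1 {β x y : ℝ} (hβ : 0 < β) (hN : β * 18.245 ≤ 1) (hx1 : 0.1679 ≤ x) (hx2 : x ≤ 0.4599)
    (hy1 : -0 ≤ y) (hy2 : y ≤ 0.344) : ‖HH β (x + y * I) - 1‖ ≤ 0.04 := by
  refine le_epsJ (C := 0.7007) (N0 := 18.245) (J_boxp 0.1679 0.4599 0 0.344 0.344 0.8282 0.5744 1.4206 1.5814 0.4755 4.2715 18.245 0.6936 2.51 1.365 1.2432 0.414 0.3183 1.0657 3.8072 0.4014 0.6973 0.431 1.8655 0.0005247 0.003011 0.0000003101 0.0000003101 0.0006603 0.000002988 0.0003855 0.0000003101 0.7007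
    hβ hN hx1 hx2 hy1 hy2 (by norm_num) (by norm_num) (by linarith) (by norm_num) (by norm_num) (by norm_num) (by norm_num) (by norm_num) (by norm_num) (by norm_num) (by norm_num) (by norm_num) (by norm_num) (by norm_num) (by norm_num) (by norm_num) (by norm_num) (by norm_num) (by norm_num) (by norm_num) (by norm_num) (by norm_num) (by norm_num) (by norm_num)
    (cube_sqrt_geJ (s := 0.8768) (by norm_num) (by norm_num) (by norm_num) (by norm_num))
    (cube_sqrt_geJ (s := 0.9565) (by norm_num) (by norm_num) (by norm_num) (by norm_num))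
    (by norm_num) (by norm_num) (by norm_num) (by norm_num) (by norm_num) (by norm_num) (by norm_num) (by norm_num) (by norm_num) (by norm_num) (by norm_num) (by norm_num) (by norm_num) (by norm_num) (by norm_num) (by norm_num) (by norm_num) (by norm_num)
    (exp_neg_leJ (r := 0.553) 7 (by norm_num) (by norm_num) (by norm_num) (by norm_num))
    (exp_neg_leJ (r := 0.807) 5 (by norm_num) (by norm_num) (by norm_num) (by norm_num))
    (exp_neg_leJ (r := 0.99) 14 (by norm_num) (by norm_num) (by norm_num) (by norm_num))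
    (exp_neg_leJ (r := 0.99) 14 (by norm_num) (by norm_num) (by norm_num) (by norm_num))
    (exp_neg_leJ (r := 0.323) 7 (by norm_num) (by norm_num) (by norm_num) (by norm_num))
    (exp_neg_leJ (r := 0.722) 12 (by norm_num) (by norm_num) (by norm_num) (by norm_num))
    (exp_neg_leJ (r := 0.863) 7 (by norm_num) (by norm_num) (by norm_num) (by norm_num))
    (exp_neg_leJ (r := 0.99) 14 (by norm_num) (by norm_num) (by norm_num) (by norm_num))
    (by norm_num)) (by norm_num) hN hβ.le (by norm_num)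

private theorem JB8_k2_b1_2 {β x y : ℝ} (hβ : 0 < β) (hN : β * 18.245 ≤ 1) (hx1 : 0.1404 ≤ x) (hx2 : x ≤ 0.4239)
    (hy1 : -0 ≤ y) (hy2 : y ≤ 0.354) (hsl : y ≤ 2.45 * x) : ‖HH β (x + y * I) - 1‖ ≤ 0.04 := by
  refine le_epsJ (C := 0.7215) (N0 := 18.245) (J_boxp 0.1404 0.4239 0 0.354 0.354 0.8089 0.5523 1.4189 1.6374 0.4753 4.2715 18.245 0.6828 2.47 1.358 1.257 0.4044 0.3123 1.0563 3.8243 0.3871 0.6582 0.3331 1.8234 0.0006249 0.003359 0.0000003101 0.0000003101 0.0008571 0.000006096 0.002296 0.0000003101 0.7215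
    hβ hN hx1 hx2 hy1 hy2 (by norm_num) (by norm_num) hsl (by norm_num) (by norm_num) (by norm_num) (by norm_num) (by norm_num) (by norm_num) (by norm_num) (by norm_num) (by norm_num) (by norm_num) (by norm_num) (by norm_num) (by norm_num) (by norm_num) (by norm_num) (by norm_num) (by norm_num) (by norm_num) (by norm_num) (by norm_num) (by norm_num)
    (cube_sqrt_geJ (s := 0.8788) (by norm_num) (by norm_num) (by norm_num) (by norm_num))
    (cube_sqrt_geJ (s := 0.9572) (by norm_num) (by norm_num) (by norm_num) (by norm_num))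
    (by norm_num) (by norm_num) (by norm_num) (by norm_num) (by norm_num) (by norm_num) (by norm_num) (by norm_num) (by norm_num) (by norm_num) (by norm_num) (by norm_num) (by norm_num) (by norm_num) (by norm_num) (by norm_num) (by norm_num) (by norm_num)
    (exp_neg_leJ (r := 0.378) 7 (by norm_num) (by norm_num) (by norm_num) (by norm_num))
    (exp_neg_leJ (r := 0.697) 5 (by norm_num) (by norm_num) (by norm_num) (by norm_num))
    (exp_neg_leJ (r := 0.99) 14 (by norm_num) (by norm_num) (by norm_num) (by norm_num))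
    (exp_neg_leJ (r := 0.99) 14 (by norm_num) (by norm_num) (by norm_num) (by norm_num))
    (exp_neg_leJ (r := 0.062) 7 (by norm_num) (by norm_num) (by norm_num) (by norm_num))
    (exp_neg_leJ (r := 0.008) 12 (by norm_num) (by norm_num) (by norm_num) (by norm_num))
    (exp_neg_leJ (r := 0.077) 6 (by norm_num) (by norm_num) (by norm_num) (by norm_num))
    (exp_neg_leJ (r := 0.99) 14 (by norm_num) (by norm_num) (by norm_num) (by norm_num))
    (by norm_num)) (by norm_num) hN hβ.le (by norm_num)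

private theorem JB8_k2_b1_3 {β x y : ℝ} (hβ : 0 < β) (hN : β * 18.245 ≤ 1) (hx1 : 0.1444 ≤ x) (hx2 : x ≤ 0.4084)
    (hy1 : -0 ≤ y) (hy2 : y ≤ 0.369) (hsl : y ≤ 2.45 * x) : ‖HH β (x + y * I) - 1‖ ≤ 0.04 := by
  refine le_epsJ (C := 0.7228) (N0 := 18.245) (J_boxp 0.1444 0.4084 0 0.369 0.369 0.8117 0.5505 1.4287 1.6345 0.4769 4.2715 18.245 0.6783 2.453 1.355 1.263 0.4058 0.314 1.0577 3.8295 0.3875 0.6623 0.2768 1.7657 0.0006095 0.003257 0.0000003101 0.0000003101 0.0008511 0.000005655 0.00641 0.0000003101 0.7228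
    hβ hN hx1 hx2 hy1 hy2 (by norm_num) (by norm_num) hsl (by norm_num) (by norm_num) (by norm_num) (by norm_num) (by norm_num) (by norm_num) (by norm_num) (by norm_num) (by norm_num) (by norm_num) (by norm_num) (by norm_num) (by norm_num) (by norm_num) (by norm_num) (by norm_num) (by norm_num) (by norm_num) (by norm_num) (by norm_num) (by norm_num)
    (cube_sqrt_geJ (s := 0.8797) (by norm_num) (by norm_num) (by norm_num) (by norm_num))
    (cube_sqrt_geJ (s := 0.9575) (by norm_num) (by norm_num) (by norm_num) (by norm_num))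
    (by norm_num) (by norm_num) (by norm_num) (by norm_num) (by norm_num) (by norm_num) (by norm_num) (by norm_num) (by norm_num) (by norm_num) (by norm_num) (by norm_num) (by norm_num) (by norm_num) (by norm_num) (by norm_num) (by norm_num) (by norm_num)
    (exp_neg_leJ (r := 0.403) 7 (by norm_num) (by norm_num) (by norm_num) (by norm_num))
    (exp_neg_leJ (r := 0.728) 5 (by norm_num) (by norm_num) (by norm_num) (by norm_num))
    (exp_neg_leJ (r := 0.99) 14 (by norm_num) (by norm_num) (by norm_num) (by norm_num))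
    (exp_neg_leJ (r := 0.99) 14 (by norm_num) (by norm_num) (by norm_num) (by norm_num))
    (exp_neg_leJ (r := 0.069) 7 (by norm_num) (by norm_num) (by norm_num) (by norm_num))
    (exp_neg_leJ (r := 0.083) 12 (by norm_num) (by norm_num) (by norm_num) (by norm_num))
    (exp_neg_leJ (r := 0.05) 5 (by norm_num) (by norm_num) (by norm_num) (by norm_num))
    (exp_neg_leJ (r := 0.99) 14 (by norm_num) (by norm_num) (by norm_num) (by norm_num))
    (by norm_num)) (by norm_num) hN hβ.le (by norm_num)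

private theorem JB8_k2_b1_4 {β x y : ℝ} (hβ : 0 < β) (hN : β * 18.245 ≤ 1) (hx1 : 0.1506 ≤ x) (hx2 : x ≤ 0.3838)
    (hy1 : -0 ≤ y) (hy2 : y ≤ 0.384) (hsl : y ≤ 2.45 * x) : ‖HH β (x + y * I) - 1‖ ≤ 0.04 := by
  refine le_epsJ (C := 0.7241) (N0 := 18.245) (J_boxp 0.1506 0.3838 0 0.384 0.384 0.8161 0.543 1.4363 1.6256 0.4782 4.2715 18.245 0.6654 2.406 1.347 1.2725 0.408 0.3175 1.0598 3.8391 0.389 0.6693 0.2249 1.7278 0.0005856 0.003057 0.0000003101 0.0000003101 0.0008276 0.000004976 0.01653 0.0000003101 0.7241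
    hβ hN hx1 hx2 hy1 hy2 (by norm_num) (by norm_num) hsl (by norm_num) (by norm_num) (by norm_num) (by norm_num) (by norm_num) (by norm_num) (by norm_num) (by norm_num) (by norm_num) (by norm_num) (by norm_num) (by norm_num) (by norm_num) (by norm_num) (by norm_num) (by norm_num) (by norm_num) (by norm_num) (by norm_num) (by norm_num) (by norm_num)
    (cube_sqrt_geJ (s := 0.8821) (by norm_num) (by norm_num) (by norm_num) (by norm_num))
    (cube_sqrt_geJ (s := 0.9583) (by norm_num) (by norm_num) (by norm_num) (by norm_num))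
    (by norm_num) (by norm_num) (by norm_num) (by norm_num) (by norm_num) (by norm_num) (by norm_num) (by norm_num) (by norm_num) (by norm_num) (by norm_num) (by norm_num) (by norm_num) (by norm_num) (by norm_num) (by norm_num) (by norm_num) (by norm_num)
    (exp_neg_leJ (r := 0.443) 7 (by norm_num) (by norm_num) (by norm_num) (by norm_num))
    (exp_neg_leJ (r := 0.792) 5 (by norm_num) (by norm_num) (by norm_num) (by norm_num))
    (exp_neg_leJ (r := 0.99) 14 (by norm_num) (by norm_num) (by norm_num) (by norm_num))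
    (exp_neg_leJ (r := 0.99) 14 (by norm_num) (by norm_num) (by norm_num) (by norm_num))
    (exp_neg_leJ (r := 0.097) 7 (by norm_num) (by norm_num) (by norm_num) (by norm_num))
    (exp_neg_leJ (r := 0.211) 12 (by norm_num) (by norm_num) (by norm_num) (by norm_num))
    (exp_neg_leJ (r := 0.103) 4 (by norm_num) (by norm_num) (by norm_num) (by norm_num))
    (exp_neg_leJ (r := 0.99) 14 (by norm_num) (by norm_num) (by norm_num) (by norm_num))
    (by norm_num)) (by norm_num) hN hβ.le (by norm_num)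

private theorem JB8_k2_b1_5 {β x y : ℝ} (hβ : 0 < β) (hN : β * 18.245 ≤ 1) (hx1 : 0.1567 ≤ x) (hx2 : x ≤ 0.3573)
    (hy1 : -0 ≤ y) (hy2 : y ≤ 0.394) (hsl : y ≤ 2.45 * x) : ‖HH β (x + y * I) - 1‖ ≤ 0.04 := by
  refine le_epsJ (C := 0.7269) (N0 := 18.245) (J_boxp 0.1567 0.3573 0 0.394 0.394 0.8203 0.5319 1.4391 1.6147 0.4786 4.2715 18.245 0.6485 2.346 1.336 1.2826 0.4101 0.3214 1.0619 3.8503 0.3909 0.6767 0.1942 1.723 0.0005633 0.002849 0.0000003101 0.0000003101 0.0008 0.000004348 0.02894 0.0000003101 0.7269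
    hβ hN hx1 hx2 hy1 hy2 (by norm_num) (by norm_num) hsl (by norm_num) (by norm_num) (by norm_num) (by norm_num) (by norm_num) (by norm_num) (by norm_num) (by norm_num) (by norm_num) (by norm_num) (by norm_num) (by norm_num) (by norm_num) (by norm_num) (by norm_num) (by norm_num) (by norm_num) (by norm_num) (by norm_num) (by norm_num) (by norm_num)
    (cube_sqrt_geJ (s := 0.8853) (by norm_num) (by norm_num) (by norm_num) (by norm_num))
    (cube_sqrt_geJ (s := 0.9594) (by norm_num) (by norm_num) (by norm_num) (by norm_num))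
    (by norm_num) (by norm_num) (by norm_num) (by norm_num) (by norm_num) (by norm_num) (by norm_num) (by norm_num) (by norm_num) (by norm_num) (by norm_num) (by norm_num) (by norm_num) (by norm_num) (by norm_num) (by norm_num) (by norm_num) (by norm_num)
    (exp_neg_leJ (r := 0.482) 7 (by norm_num) (by norm_num) (by norm_num) (by norm_num))
    (exp_neg_leJ (r := 0.863) 5 (by norm_num) (by norm_num) (by norm_num) (by norm_num))
    (exp_neg_leJ (r := 0.99) 14 (by norm_num) (by norm_num) (by norm_num) (by norm_num))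
    (exp_neg_leJ (r := 0.99) 14 (by norm_num) (by norm_num) (by norm_num) (by norm_num))
    (exp_neg_leJ (r := 0.131) 7 (by norm_num) (by norm_num) (by norm_num) (by norm_num))
    (exp_neg_leJ (r := 0.346) 12 (by norm_num) (by norm_num) (by norm_num) (by norm_num))
    (exp_neg_leJ (r := 0.543) 3 (by norm_num) (by norm_num) (by norm_num) (by norm_num))
    (exp_neg_leJ (r := 0.99) 14 (by norm_num) (by norm_num) (by norm_num) (by norm_num))
    (by norm_num)) (by norm_num) hN hβ.le (by norm_num)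

private theorem JB8_k2_c1 {κ t β : ℝ} (h : DomR κ t) (hβ : 0 < β) (hk1 : 0.54 ≤ κ) (hk2 : κ ≤ 0.77)
    (ht1 : 0.82 ≤ t + κ) (ht2 : t + κ ≤ 1.25) (hR0 : β * 10 ≤ κ) (hR : β * (8.82 * (1 + κ ^ 2)) ≤ κ) :
    ‖HH β (sg κ t) - 1‖ ≤ 0.04 := by
  have hN : β * 18.245 ≤ 1 := bNC hβ h.1 hk2 (by norm_num) (by norm_num) hR (by norm_num)
  have hy1 : 0.244 ≤ sy κ t := syR_ge h 0.54 0.77 0.82 0.244 1.27634 1.27635 0.40445 0.57673 hk1 hk2 (by linarith) (by norm_num) (by norm_num)
    (expn_ge (by norm_num) (by norm_num)) (expn_le (by norm_num) (by norm_num) (by norm_num)) (by norm_num)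
    (by norm_num) (by norm_num) (by norm_num) (by norm_num) (by norm_num) (by norm_num)
  have hy2 : sy κ t ≤ 0.394 := syR_le h 0.54 0.77 1.25 0.394 1.4829 0.7386 0.75878 1 hk1 hk2 (by linarith) (by norm_num) (by norm_num)
    (expn_ge (by norm_num) (by norm_num)) (by norm_num) (by norm_num) (Or.inl (by norm_num)) (by norm_num) (by norm_num) (by norm_num)
  rcases le_total (sy κ t) 0.319 with f0 | g0
  · have hx1 : 0.2286 ≤ sx κ t := sx_lo h 0.54 0.319 0.319 0.72687 0.2286 hk1 (by norm_num) f0 (abs_le.2 ⟨by linarith, by linarith⟩) (expm_ge (by norm_num) (by norm_num) (by norm_num) (by norm_num)) (by norm_num) (by norm_num)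
    have hx2 : sx κ t ≤ 0.5518 := sx_hi h 0.77 0.244 0.244 0.78349 0.5518 hk2 hy1 (by norm_num) (by rw [abs_of_nonneg (by linarith)]; linarith) (expm_le (by norm_num) (by norm_num) (by norm_num)) (by norm_num) (by norm_num)
    exact JB8_k2_b1_0 hβ hN hx1 hx2 (by linarith) (by linarith)
  rcases le_total (sy κ t) 0.344 with f1 | g1
  · have hx1 : 0.1679 ≤ sx κ t := sx_lo h 0.54 0.344 0.344 0.70892 0.1679 hk1 (by norm_num) f1 (abs_le.2 ⟨by linarith, by linarith⟩) (expm_ge (by norm_num) (by norm_num) (by norm_num) (by norm_num)) (by norm_num) (by norm_num)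
    have hx2 : sx κ t ≤ 0.4599 := sx_hi h 0.77 0.319 0.319 0.72688 0.4599 hk2 g0 (by norm_num) (by rw [abs_of_nonneg (by linarith)]; linarith) (expm_le (by norm_num) (by norm_num) (by norm_num)) (by norm_num) (by norm_num)
    exact JB8_k2_b1_1 hβ hN hx1 hx2 (by linarith) (by linarith)
  rcases le_total (sy κ t) 0.354 with f2 | g2
  · have hsl : sy κ t ≤ 2.45 * sx κ t := sy_slope h 0.54 1.25 0.344 0.70893 hk1 (by norm_num) ht2 (by norm_num) g1 (expm_le (by norm_num) (by norm_num) (by norm_num)) (by norm_num)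
    have hx1 : 0.1404 ≤ sx κ t := by linarith
    have hx2 : sx κ t ≤ 0.4239 := sx_hi h 0.77 0.344 0.344 0.70893 0.4239 hk2 g1 (by norm_num) (by rw [abs_of_nonneg (by linarith)]; linarith) (expm_le (by norm_num) (by norm_num) (by norm_num)) (by norm_num) (by norm_num)
    exact JB8_k2_b1_2 hβ hN hx1 hx2 (by linarith) (by linarith) hsl
  rcases le_total (sy κ t) 0.369 with f3 | g3
  · have hsl : sy κ t ≤ 2.45 * sx κ t := sy_slope h 0.54 1.25 0.354 0.70188 hk1 (by norm_num) ht2 (by norm_num) g2 (expm_le (by norm_num) (by norm_num) (by norm_num)) (by norm_num)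
    have hx1 : 0.1444 ≤ sx κ t := by linarith
    have hx2 : sx κ t ≤ 0.4084 := sx_hi h 0.77 0.354 0.354 0.70188 0.4084 hk2 g2 (by norm_num) (by rw [abs_of_nonneg (by linarith)]; linarith) (expm_le (by norm_num) (by norm_num) (by norm_num)) (by norm_num) (by norm_num)
    exact JB8_k2_b1_3 hβ hN hx1 hx2 (by linarith) (by linarith) hsl
  rcases le_total (sy κ t) 0.384 with f4 | g4
  · have hsl : sy κ t ≤ 2.45 * sx κ t := sy_slope h 0.54 1.25 0.369 0.69143 hk1 (by norm_num) ht2 (by norm_num) g3 (expm_le (by norm_num) (by norm_num) (by norm_num)) (by norm_num)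
    have hx1 : 0.1506 ≤ sx κ t := by linarith
    have hx2 : sx κ t ≤ 0.3838 := sx_hi h 0.77 0.369 0.369 0.69143 0.3838 hk2 g3 (by norm_num) (by rw [abs_of_nonneg (by linarith)]; linarith) (expm_le (by norm_num) (by norm_num) (by norm_num)) (by norm_num) (by norm_num)
    exact JB8_k2_b1_4 hβ hN hx1 hx2 (by linarith) (by linarith) hsl
  have hsl : sy κ t ≤ 2.45 * sx κ t := sy_slope h 0.54 1.25 0.384 0.68114 hk1 (by norm_num) ht2 (by norm_num) g4 (expm_le (by norm_num) (by norm_num) (by norm_num)) (by norm_num)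
  have hx1 : 0.1567 ≤ sx κ t := by linarith
  have hx2 : sx κ t ≤ 0.3573 := sx_hi h 0.77 0.384 0.384 0.68114 0.3573 hk2 g4 (by norm_num) (by rw [abs_of_nonneg (by linarith)]; linarith) (expm_le (by norm_num) (by norm_num) (by norm_num)) (by norm_num) (by norm_num)
  exact JB8_k2_b1_5 hβ hN hx1 hx2 (by linarith) (by linarith) hsl

private theorem JB8_k2_b2_0 {β x y : ℝ} (hβ : 0 < β) (hN : β * 17.663 ≤ 1) (hx1 : 0.359 ≤ x) (hx2 : x ≤ 0.6454)
    (hy1 : -0 ≤ y) (hy2 : y ≤ 0.383) : ‖HH β (x + y * I) - 1‖ ≤ 0.04 := by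
  refine le_epsJ (C := 0.7016) (N0 := 17.663) (J_boxp 0.359 0.6454 0 0.383 0.383 0.9628 0.7505 1.5262 1.3077 0.4929 4.2028 17.663 0.7795 2.867 1.421 1.1718 0.4813 0.3563 1.1311 3.7025 0.4903 0.958 0.646 1.5852 0.0002034 0.00185 0.0000003101 0.0000003101 0.0001735 0.0000003101 0.00001109 0.0000003101 0.7016
    hβ hN hx1 hx2 hy1 hy2 (by norm_num) (by norm_num) (by linarith) (by norm_num) (by norm_num) (by norm_num) (by norm_num) (by norm_num) (by norm_num) (by norm_num) (by norm_num) (by norm_num) (by norm_num) (by norm_num) (by norm_num) (by norm_num) (by norm_num) (by norm_num) (by norm_num) (by norm_num) (by norm_num) (by norm_num) (by norm_num) (by norm_num)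
    (cube_sqrt_geJ (s := 0.8603) (by norm_num) (by norm_num) (by norm_num) (by norm_num))
    (cube_sqrt_geJ (s := 0.951) (by norm_num) (by norm_num) (by norm_num) (by norm_num))
    (by norm_num) (by norm_num) (by norm_num) (by norm_num) (by norm_num) (by norm_num) (by norm_num) (by norm_num) (by norm_num) (by norm_num) (by norm_num) (by norm_num) (by norm_num) (by norm_num) (by norm_num) (by norm_num) (by norm_num) (by norm_num)
    (exp_neg_leJ (r := 0.501) 8 (by norm_num) (by norm_num) (by norm_num) (by norm_num))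
    (exp_neg_leJ (r := 0.293) 6 (by norm_num) (by norm_num) (by norm_num) (by norm_num))
    (exp_neg_leJ (r := 0.99) 14 (by norm_num) (by norm_num) (by norm_num) (by norm_num))
    (exp_neg_leJ (r := 0.99) 14 (by norm_num) (by norm_num) (by norm_num) (by norm_num))
    (exp_neg_leJ (r := 0.66) 8 (by norm_num) (by norm_num) (by norm_num) (by norm_num))
    (exp_neg_leJ (r := 0.99) 14 (by norm_num) (by norm_num) (by norm_num) (by norm_num))
    (exp_neg_leJ (r := 0.41) 11 (by norm_num) (by norm_num) (by norm_num) (by norm_num))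
    (exp_neg_leJ (r := 0.99) 14 (by norm_num) (by norm_num) (by norm_num) (by norm_num))
    (by norm_num)) (by norm_num) hN hβ.le (by norm_num)

private theorem JB8_k2_b2_1 {β x y : ℝ} (hβ : 0 < β) (hN : β * 17.663 ≤ 1) (hx1 : 0.2868 ≤ x) (hx2 : x ≤ 0.5224)
    (hy1 : -0 ≤ y) (hy2 : y ≤ 0.418) : ‖HH β (x + y * I) - 1‖ ≤ 0.04 := by
  refine le_epsJ (C := 0.6845) (N0 := 17.663) (J_boxp 0.2868 0.5224 0 0.418 0.418 0.912 0.6691 1.5112 1.4115 0.4905 4.2028 17.663 0.7337 2.669 1.391 1.2191 0.4559 0.3444 1.1064 3.7624 0.4516 0.8544 0.3514 1.4972 0.0003185 0.002282 0.0000003101 0.0000003101 0.0003448 0.0000003101 0.002018 0.0000003101 0.6845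
    hβ hN hx1 hx2 hy1 hy2 (by norm_num) (by norm_num) (by linarith) (by norm_num) (by norm_num) (by norm_num) (by norm_num) (by norm_num) (by norm_num) (by norm_num) (by norm_num) (by norm_num) (by norm_num) (by norm_num) (by norm_num) (by norm_num) (by norm_num) (by norm_num) (by norm_num) (by norm_num) (by norm_num) (by norm_num) (by norm_num) (by norm_num)
    (cube_sqrt_geJ (s := 0.8691) (by norm_num) (by norm_num) (by norm_num) (by norm_num))
    (cube_sqrt_geJ (s := 0.954) (by norm_num) (by norm_num) (by norm_num) (by norm_num))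
    (by norm_num) (by norm_num) (by norm_num) (by norm_num) (by norm_num) (by norm_num) (by norm_num) (by norm_num) (by norm_num) (by norm_num) (by norm_num) (by norm_num) (by norm_num) (by norm_num) (by norm_num) (by norm_num) (by norm_num) (by norm_num)
    (exp_neg_leJ (r := 0.052) 8 (by norm_num) (by norm_num) (by norm_num) (by norm_num))
    (exp_neg_leJ (r := 0.083) 6 (by norm_num) (by norm_num) (by norm_num) (by norm_num))
    (exp_neg_leJ (r := 0.99) 14 (by norm_num) (by norm_num) (by norm_num) (by norm_num))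
    (exp_neg_leJ (r := 0.99) 14 (by norm_num) (by norm_num) (by norm_num) (by norm_num))
    (exp_neg_leJ (r := 0.976) 7 (by norm_num) (by norm_num) (by norm_num) (by norm_num))
    (exp_neg_leJ (r := 0.99) 14 (by norm_num) (by norm_num) (by norm_num) (by norm_num))
    (exp_neg_leJ (r := 0.206) 6 (by norm_num) (by norm_num) (by norm_num) (by norm_num))
    (exp_neg_leJ (r := 0.99) 14 (by norm_num) (by norm_num) (by norm_num) (by norm_num))
    (by norm_num)) (by norm_num) hN hβ.le (by norm_num)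

private theorem JB8_k2_b2_2 {β x y : ℝ} (hβ : 0 < β) (hN : β * 17.663 ≤ 1) (hx1 : 0.2747 ≤ x) (hx2 : x ≤ 0.4653)
    (hy1 : -0 ≤ y) (hy2 : y ≤ 0.423) : ‖HH β (x + y * I) - 1‖ ≤ 0.04 := by
  refine le_epsJ (C := 0.6296) (N0 := 17.663) (J_boxp 0.2747 0.4653 0 0.423 0.423 0.9034 0.6289 1.4972 1.4251 0.4882 4.2028 17.663 0.6962 2.52 1.366 1.2411 0.4516 0.3468 1.1023 3.7908 0.4453 0.8372 0.3058 1.5587 0.0003448 0.002188 0.0000003101 0.0000003101 0.0003848 0.0000003791 0.004513 0.0000003101 0.6296
    hβ hN hx1 hx2 hy1 hy2 (by norm_num) (by norm_num) (by linarith) (by norm_num) (by norm_num) (by norm_num) (by norm_num) (by norm_num) (by norm_num) (by norm_num) (by norm_num) (by norm_num) (by norm_num) (by norm_num) (by norm_num) (by norm_num) (by norm_num) (by norm_num) (by norm_num) (by norm_num) (by norm_num) (by norm_num) (by norm_num) (by norm_num)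
    (cube_sqrt_geJ (s := 0.8763) (by norm_num) (by norm_num) (by norm_num) (by norm_num))
    (cube_sqrt_geJ (s := 0.9564) (by norm_num) (by norm_num) (by norm_num) (by norm_num))
    (by norm_num) (by norm_num) (by norm_num) (by norm_num) (by norm_num) (by norm_num) (by norm_num) (by norm_num) (by norm_num) (by norm_num) (by norm_num) (by norm_num) (by norm_num) (by norm_num) (by norm_num) (by norm_num) (by norm_num) (by norm_num)
    (exp_neg_leJ (r := 0.976) 7 (by norm_num) (by norm_num) (by norm_num) (by norm_num))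
    (exp_neg_leJ (r := 0.125) 6 (by norm_num) (by norm_num) (by norm_num) (by norm_num))
    (exp_neg_leJ (r := 0.99) 14 (by norm_num) (by norm_num) (by norm_num) (by norm_num))
    (exp_neg_leJ (r := 0.99) 14 (by norm_num) (by norm_num) (by norm_num) (by norm_num))
    (exp_neg_leJ (r := 0.865) 7 (by norm_num) (by norm_num) (by norm_num) (by norm_num))
    (exp_neg_leJ (r := 0.787) 14 (by norm_num) (by norm_num) (by norm_num) (by norm_num))
    (exp_neg_leJ (r := 0.401) 5 (by norm_num) (by norm_num) (by norm_num) (by norm_num))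
    (exp_neg_leJ (r := 0.99) 14 (by norm_num) (by norm_num) (by norm_num) (by norm_num))
    (by norm_num)) (by norm_num) hN hβ.le (by norm_num)

private theorem JB8_k2_b2_3 {β x y : ℝ} (hβ : 0 < β) (hN : β * 17.663 ≤ 1) (hx1 : 0.2568 ≤ x) (hx2 : x ≤ 0.4565)
    (hy1 : -0 ≤ y) (hy2 : y ≤ 0.43) : ‖HH β (x + y * I) - 1‖ ≤ 0.04 := by
  refine le_epsJ (C := 0.7004) (N0 := 17.663) (J_boxp 0.2568 0.4565 0 0.43 0.43 0.8908 0.6272 1.5011 1.4573 0.4888 4.2028 17.663 0.7041 2.551 1.372 1.2445 0.4453 0.3408 1.0961 3.794 0.4359 0.8117 0.24 1.4945 0.0003848 0.002433 0.0000003101 0.0000003101 0.0004537 0.0000005937 0.01443 0.0000003101 0.7004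
    hβ hN hx1 hx2 hy1 hy2 (by norm_num) (by norm_num) (by linarith) (by norm_num) (by norm_num) (by norm_num) (by norm_num) (by norm_num) (by norm_num) (by norm_num) (by norm_num) (by norm_num) (by norm_num) (by norm_num) (by norm_num) (by norm_num) (by norm_num) (by norm_num) (by norm_num) (by norm_num) (by norm_num) (by norm_num) (by norm_num) (by norm_num)
    (cube_sqrt_geJ (s := 0.8748) (by norm_num) (by norm_num) (by norm_num) (by norm_num))
    (cube_sqrt_geJ (s := 0.9559) (by norm_num) (by norm_num) (by norm_num) (by norm_num))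
    (by norm_num) (by norm_num) (by norm_num) (by norm_num) (by norm_num) (by norm_num) (by norm_num) (by norm_num) (by norm_num) (by norm_num) (by norm_num) (by norm_num) (by norm_num) (by norm_num) (by norm_num) (by norm_num) (by norm_num) (by norm_num)
    (exp_neg_leJ (r := 0.865) 7 (by norm_num) (by norm_num) (by norm_num) (by norm_num))
    (exp_neg_leJ (r := 0.019) 6 (by norm_num) (by norm_num) (by norm_num) (by norm_num))
    (exp_neg_leJ (r := 0.99) 14 (by norm_num) (by norm_num) (by norm_num) (by norm_num))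
    (exp_neg_leJ (r := 0.99) 14 (by norm_num) (by norm_num) (by norm_num) (by norm_num))
    (exp_neg_leJ (r := 0.699) 7 (by norm_num) (by norm_num) (by norm_num) (by norm_num))
    (exp_neg_leJ (r := 0.337) 14 (by norm_num) (by norm_num) (by norm_num) (by norm_num))
    (exp_neg_leJ (r := 0.239) 4 (by norm_num) (by norm_num) (by norm_num) (by norm_num))
    (exp_neg_leJ (r := 0.99) 14 (by norm_num) (by norm_num) (by norm_num) (by norm_num))
    (by norm_num)) (by norm_num) hN hβ.le (by norm_num)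

private theorem JB8_k2_c2 {κ t β : ℝ} (h : DomR κ t) (hβ : 0 < β) (hk1 : 0.77 ≤ κ) (hk2 : κ ≤ 0.95)
    (ht1 : 0.82 ≤ t + κ) (ht2 : t + κ ≤ 1.25) (hR0 : β * 10 ≤ κ) (hR : β * (8.82 * (1 + κ ^ 2)) ≤ κ) :
    ‖HH β (sg κ t) - 1‖ ≤ 0.04 := by
  have hN : β * 17.663 ≤ 1 := bNC hβ h.1 hk2 (by norm_num) (by norm_num) hR (by norm_num)
  have hy1 : 0.293 ≤ sy κ t := syR_ge h 0.77 0.95 0.82 0.293 1.34044 1.34045 0.41341 0.51007 hk1 hk2 (by linarith) (by norm_num) (by norm_num)
    (expn_ge (by norm_num) (by norm_num)) (expn_le (by norm_num) (by norm_num) (by norm_num)) (by norm_num)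
    (by norm_num) (by norm_num) (by norm_num) (by norm_num) (by norm_num) (by norm_num)
  have hy2 : sy κ t ≤ 0.43 := syR_le h 0.77 0.95 1.25 0.43 1.53725 0.6822 0.6958 0.85847 hk1 hk2 (by linarith) (by norm_num) (by norm_num)
    (expn_ge (by norm_num) (by norm_num)) (by norm_num) (by norm_num) (Or.inr ((mul_le_mul_of_nonneg_left (expn_le (E := 1.53726) (by norm_num) (by norm_num) (by norm_num)) (by norm_num)).trans (by norm_num))) (by norm_num) (by norm_num) (by norm_num)
  rcases le_total (sy κ t) 0.383 with f0 | g0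
  · have hx1 : 0.359 ≤ sx κ t := sx_lo h 0.77 0.383 0.383 0.68181 0.359 hk1 (by norm_num) f0 (abs_le.2 ⟨by linarith, by linarith⟩) (expm_ge (by norm_num) (by norm_num) (by norm_num) (by norm_num)) (by norm_num) (by norm_num)
    have hx2 : sx κ t ≤ 0.6454 := sx_hi h 0.95 0.293 0.293 0.74603 0.6454 hk2 hy1 (by norm_num) (by rw [abs_of_nonneg (by linarith)]; linarith) (expm_le (by norm_num) (by norm_num) (by norm_num)) (by norm_num) (by norm_num)
    exact JB8_k2_b2_0 hβ hN hx1 hx2 (by linarith) (by linarith)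
  rcases le_total (sy κ t) 0.418 with f1 | g1
  · have hx1 : 0.2868 ≤ sx κ t := sx_lo h 0.77 0.418 0.418 0.65836 0.2868 hk1 (by norm_num) f1 (abs_le.2 ⟨by linarith, by linarith⟩) (expm_ge (by norm_num) (by norm_num) (by norm_num) (by norm_num)) (by norm_num) (by norm_num)
    have hx2 : sx κ t ≤ 0.5224 := sx_hi h 0.95 0.383 0.383 0.68182 0.5224 hk2 g0 (by norm_num) (by rw [abs_of_nonneg (by linarith)]; linarith) (expm_le (by norm_num) (by norm_num) (by norm_num)) (by norm_num) (by norm_num)
    exact JB8_k2_b2_1 hβ hN hx1 hx2 (by linarith) (by linarith)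
  rcases le_total (sy κ t) 0.423 with f2 | g2
  · have hx1 : 0.2747 ≤ sx κ t := sx_lo h 0.77 0.423 0.423 0.65507 0.2747 hk1 (by norm_num) f2 (abs_le.2 ⟨by linarith, by linarith⟩) (expm_ge (by norm_num) (by norm_num) (by norm_num) (by norm_num)) (by norm_num) (by norm_num)
    have hx2 : sx κ t ≤ 0.4653 := sx_hi h 0.95 0.418 0.418 0.65837 0.4653 hk2 g1 (by norm_num) (by rw [abs_of_nonneg (by linarith)]; linarith) (expm_le (by norm_num) (by norm_num) (by norm_num)) (by norm_num) (by norm_num)
    exact JB8_k2_b2_2 hβ hN hx1 hx2 (by linarith) (by linarith)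
  have hx1 : 0.2568 ≤ sx κ t := sx_lo h 0.77 0.43 0.43 0.6505 0.2568 hk1 (by norm_num) hy2 (abs_le.2 ⟨by linarith, by linarith⟩) (expm_ge (by norm_num) (by norm_num) (by norm_num) (by norm_num)) (by norm_num) (by norm_num)
  have hx2 : sx κ t ≤ 0.4565 := sx_hi h 0.95 0.423 0.423 0.65508 0.4565 hk2 g2 (by norm_num) (by rw [abs_of_nonneg (by linarith)]; linarith) (expm_le (by norm_num) (by norm_num) (by norm_num)) (by norm_num) (by norm_num)
  exact JB8_k2_b2_3 hβ hN hx1 hx2 (by linarith) (by linarith)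

private theorem JB8_k2_b3_0 {β x y : ℝ} (hβ : 0 < β) (hN : β * 17.639 ≤ 1) (hx1 : 0.4289 ≤ x) (hx2 : x ≤ 0.6545)
    (hy1 : -0 ≤ y) (hy2 : y ≤ 0.438) : ‖HH β (x + y * I) - 1‖ ≤ 0.04 := by
  refine le_epsJ (C := 0.6491) (N0 := 17.639) (J_boxp 0.4289 0.6545 0 0.438 0.438 1.012 0.7876 1.58 1.2347 0.5015 4.1999 17.639 0.7783 2.862 1.42 1.1683 0.5059 0.3747 1.155 3.6897 0.5186 1.0491 0.5499 1.365 0.0001337 0.001349 0.0000003101 0.0000003101 0.0001066 0.0000003101 0.0000614 0.0000003101 0.6491
    hβ hN hx1 hx2 hy1 hy2 (by norm_num) (by norm_num) (by linarith) (by norm_num) (by norm_num) (by norm_num) (by norm_num) (by norm_num) (by norm_num) (by norm_num) (by norm_num) (by norm_num) (by norm_num) (by norm_num) (by norm_num) (by norm_num) (by norm_num) (by norm_num) (by norm_num) (by norm_num) (by norm_num) (by norm_num) (by norm_num) (by norm_num)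
    (cube_sqrt_geJ (s := 0.8605) (by norm_num) (by norm_num) (by norm_num) (by norm_num))
    (cube_sqrt_geJ (s := 0.9511) (by norm_num) (by norm_num) (by norm_num) (by norm_num))
    (by norm_num) (by norm_num) (by norm_num) (by norm_num) (by norm_num) (by norm_num) (by norm_num) (by norm_num) (by norm_num) (by norm_num) (by norm_num) (by norm_num) (by norm_num) (by norm_num) (by norm_num) (by norm_num) (by norm_num) (by norm_num)
    (exp_neg_leJ (r := 0.923) 8 (by norm_num) (by norm_num) (by norm_num) (by norm_num))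
    (exp_neg_leJ (r := 0.609) 6 (by norm_num) (by norm_num) (by norm_num) (by norm_num))
    (exp_neg_leJ (r := 0.99) 14 (by norm_num) (by norm_num) (by norm_num) (by norm_num))
    (exp_neg_leJ (r := 0.99) 14 (by norm_num) (by norm_num) (by norm_num) (by norm_num))
    (exp_neg_leJ (r := 0.147) 9 (by norm_num) (by norm_num) (by norm_num) (by norm_num))
    (exp_neg_leJ (r := 0.99) 14 (by norm_num) (by norm_num) (by norm_num) (by norm_num))
    (exp_neg_leJ (r := 0.699) 9 (by norm_num) (by norm_num) (by norm_num) (by norm_num))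
    (exp_neg_leJ (r := 0.99) 14 (by norm_num) (by norm_num) (by norm_num) (by norm_num))
    (by norm_num)) (by norm_num) hN hβ.le (by norm_num)

private theorem JB8_k2_c3 {κ t β : ℝ} (h : DomR κ t) (hβ : 0 < β) (hk1 : 0.95 ≤ κ) (hk2 : κ ≤ 1)
    (ht1 : 0.82 ≤ t + κ) (ht2 : t + κ ≤ 1.25) (hR0 : β * 10 ≤ κ) (hR : β * (8.82 * (1 + κ ^ 2)) ≤ κ) :
    ‖HH β (sg κ t) - 1‖ ≤ 0.04 := by
  have hN : β * 17.639 ≤ 1 := bNC hβ h.1 hk2 (by norm_num) (by norm_num) hR (by norm_num)
  have hy1 : 0.318 ≤ sy κ t := syR_ge h 0.95 1 0.82 0.318 1.37437 1.37438 0.43704 0.46006 hk1 hk2 (by linarith) (by norm_num) (by norm_num)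
    (expn_ge (by norm_num) (by norm_num)) (expn_le (by norm_num) (by norm_num) (by norm_num)) (by norm_num)
    (by norm_num) (by norm_num) (by norm_num) (by norm_num) (by norm_num) (by norm_num)
  have hy2 : sy κ t ≤ 0.438 := syR_le h 0.95 1 1.25 0.438 1.5496 0.6697 0.67872 0.71446 hk1 hk2 (by linarith) (by norm_num) (by norm_num)
    (expn_ge (by norm_num) (by norm_num)) (by norm_num) (by norm_num) (Or.inr ((mul_le_mul_of_nonneg_left (expn_le (E := 1.54961) (by norm_num) (by norm_num) (by norm_num)) (by norm_num)).trans (by norm_num))) (by norm_num) (by norm_num) (by norm_num)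
  have hx1 : 0.4289 ≤ sx κ t := sx_lo h 0.95 0.438 0.438 0.64532 0.4289 hk1 (by norm_num) hy2 (abs_le.2 ⟨by linarith, by linarith⟩) (expm_ge (by norm_num) (by norm_num) (by norm_num) (by norm_num)) (by norm_num) (by norm_num)
  have hx2 : sx κ t ≤ 0.6545 := sx_hi h 1 0.318 0.318 0.72761 0.6545 hk2 hy1 (by norm_num) (by rw [abs_of_nonneg (by linarith)]; linarith) (expm_le (by norm_num) (by norm_num) (by norm_num)) (by norm_num) (by norm_num)
  exact JB8_k2_b3_0 hβ hN hx1 hx2 (by linarith) (by linarith)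

private theorem JB8_k2_b4_0 {β x y : ℝ} (hβ : 0 < β) (hN : β * 17.639 ≤ 1) (hx1 : 0.5565 ≤ x) (hx2 : x ≤ 0.8454)
    (hy1 : -0 ≤ y) (hy2 : y ≤ 0.388) : ‖HH β (x + y * I) - 1‖ ≤ 0.04 := by
  refine le_epsJ (C := 0.6887) (N0 := 17.639) (J_boxp 0.5565 0.8454 0 0.388 0.388 1.1019 0.9302 1.6252 1.1022 0.5086 4.1999 17.639 0.8442 3.18 1.466 1.0949 0.5509 0.3959 1.1987 3.5923 0.5857 1.2309 1.0195 1.4682 0.00006031 0.0009307 0.0000003101 0.0000003101 0.00003261 0.0000003101 0.0000003101 0.0000003101 0.6887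
    hβ hN hx1 hx2 hy1 hy2 (by norm_num) (by norm_num) (by linarith) (by norm_num) (by norm_num) (by norm_num) (by norm_num) (by norm_num) (by norm_num) (by norm_num) (by norm_num) (by norm_num) (by norm_num) (by norm_num) (by norm_num) (by norm_num) (by norm_num) (by norm_num) (by norm_num) (by norm_num) (by norm_num) (by norm_num) (by norm_num) (by norm_num)
    (cube_sqrt_geJ (s := 0.8477) (by norm_num) (by norm_num) (by norm_num) (by norm_num))
    (cube_sqrt_geJ (s := 0.9469) (by norm_num) (by norm_num) (by norm_num) (by norm_num))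
    (by norm_num) (by norm_num) (by norm_num) (by norm_num) (by norm_num) (by norm_num) (by norm_num) (by norm_num) (by norm_num) (by norm_num) (by norm_num) (by norm_num) (by norm_num) (by norm_num) (by norm_num) (by norm_num) (by norm_num) (by norm_num)
    (exp_neg_leJ (r := 0.717) 9 (by norm_num) (by norm_num) (by norm_num) (by norm_num))
    (exp_neg_leJ (r := 0.983) 6 (by norm_num) (by norm_num) (by norm_num) (by norm_num))
    (exp_neg_leJ (r := 0.99) 14 (by norm_num) (by norm_num) (by norm_num) (by norm_num))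
    (exp_neg_leJ (r := 0.99) 14 (by norm_num) (by norm_num) (by norm_num) (by norm_num))
    (exp_neg_leJ (r := 0.331) 10 (by norm_num) (by norm_num) (by norm_num) (by norm_num))
    (exp_neg_leJ (r := 0.99) 14 (by norm_num) (by norm_num) (by norm_num) (by norm_num))
    (exp_neg_leJ (r := 0.99) 14 (by norm_num) (by norm_num) (by norm_num) (by norm_num))
    (exp_neg_leJ (r := 0.99) 14 (by norm_num) (by norm_num) (by norm_num) (by norm_num))
    (by norm_num)) (by norm_num) hN hβ.le (by norm_num)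

private theorem JB8_k2_b4_1 {β x y : ℝ} (hβ : 0 < β) (hN : β * 17.639 ≤ 1) (hx1 : 0.4916 ≤ x) (hx2 : x ≤ 0.7541)
    (hy1 : -0 ≤ y) (hy2 : y ≤ 0.428) : ‖HH β (x + y * I) - 1‖ ≤ 0.04 := by
  refine le_epsJ (C := 0.69) (N0 := 17.639) (J_boxp 0.4916 0.7541 0 0.428 0.428 1.0562 0.8671 1.6149 1.1708 0.507 4.1999 17.639 0.821 3.063 1.449 1.13 0.528 0.3835 1.1765 3.6375 0.5501 1.137 0.7182 1.3214 0.00009025 0.001156 0.0000003101 0.0000003101 0.00006115 0.0000003101 0.000003153 0.0000003101 0.69
    hβ hN hx1 hx2 hy1 hy2 (by norm_num) (by norm_num) (by linarith) (by norm_num) (by norm_num) (by norm_num) (by norm_num) (by norm_num) (by norm_num) (by norm_num) (by norm_num) (by norm_num) (by norm_num) (by norm_num) (by norm_num) (by norm_num) (by norm_num) (by norm_num) (by norm_num) (by norm_num) (by norm_num) (by norm_num) (by norm_num) (by norm_num)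
    (cube_sqrt_geJ (s := 0.8522) (by norm_num) (by norm_num) (by norm_num) (by norm_num))
    (cube_sqrt_geJ (s := 0.9484) (by norm_num) (by norm_num) (by norm_num) (by norm_num))
    (by norm_num) (by norm_num) (by norm_num) (by norm_num) (by norm_num) (by norm_num) (by norm_num) (by norm_num) (by norm_num) (by norm_num) (by norm_num) (by norm_num) (by norm_num) (by norm_num) (by norm_num) (by norm_num) (by norm_num) (by norm_num)
    (exp_neg_leJ (r := 0.313) 9 (by norm_num) (by norm_num) (by norm_num) (by norm_num))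
    (exp_neg_leJ (r := 0.764) 6 (by norm_num) (by norm_num) (by norm_num) (by norm_num))
    (exp_neg_leJ (r := 0.99) 14 (by norm_num) (by norm_num) (by norm_num) (by norm_num))
    (exp_neg_leJ (r := 0.99) 14 (by norm_num) (by norm_num) (by norm_num) (by norm_num))
    (exp_neg_leJ (r := 0.703) 9 (by norm_num) (by norm_num) (by norm_num) (by norm_num))
    (exp_neg_leJ (r := 0.99) 14 (by norm_num) (by norm_num) (by norm_num) (by norm_num))
    (exp_neg_leJ (r := 0.668) 12 (by norm_num) (by norm_num) (by norm_num) (by norm_num))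
    (exp_neg_leJ (r := 0.99) 14 (by norm_num) (by norm_num) (by norm_num) (by norm_num))
    (by norm_num)) (by norm_num) hN hβ.le (by norm_num)

private theorem JB8_k2_b4_2 {β x y : ℝ} (hβ : 0 < β) (hN : β * 17.639 ≤ 1) (hx1 : 0.446 ≤ x) (hx2 : x ≤ 0.6934)
    (hy1 : -0 ≤ y) (hy2 : y ≤ 0.453) : ‖HH β (x + y * I) - 1‖ ≤ 0.04 := by
  refine le_epsJ (C := 0.7028) (N0 := 17.639) (J_boxp 0.446 0.6934 0 0.453 0.453 1.0241 0.8283 1.61 1.2244 0.5063 4.1999 17.639 0.8089 3.004 1.441 1.1534 0.512 0.3739 1.1609 3.6667 0.5254 1.0713 0.5197 1.2179 0.0001197 0.001368 0.0000003101 0.0000003101 0.0000945 0.0000003101 0.0001046 0.0000003101 0.7028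
    hβ hN hx1 hx2 hy1 hy2 (by norm_num) (by norm_num) (by linarith) (by norm_num) (by norm_num) (by norm_num) (by norm_num) (by norm_num) (by norm_num) (by norm_num) (by norm_num) (by norm_num) (by norm_num) (by norm_num) (by norm_num) (by norm_num) (by norm_num) (by norm_num) (by norm_num) (by norm_num) (by norm_num) (by norm_num) (by norm_num) (by norm_num)
    (cube_sqrt_geJ (s := 0.8546) (by norm_num) (by norm_num) (by norm_num) (by norm_num))
    (cube_sqrt_geJ (s := 0.9491) (by norm_num) (by norm_num) (by norm_num) (by norm_num))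
    (by norm_num) (by norm_num) (by norm_num) (by norm_num) (by norm_num) (by norm_num) (by norm_num) (by norm_num) (by norm_num) (by norm_num) (by norm_num) (by norm_num) (by norm_num) (by norm_num) (by norm_num) (by norm_num) (by norm_num) (by norm_num)
    (exp_neg_leJ (r := 0.031) 9 (by norm_num) (by norm_num) (by norm_num) (by norm_num))
    (exp_neg_leJ (r := 0.595) 6 (by norm_num) (by norm_num) (by norm_num) (by norm_num))
    (exp_neg_leJ (r := 0.99) 14 (by norm_num) (by norm_num) (by norm_num) (by norm_num))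
    (exp_neg_leJ (r := 0.99) 14 (by norm_num) (by norm_num) (by norm_num) (by norm_num))
    (exp_neg_leJ (r := 0.267) 9 (by norm_num) (by norm_num) (by norm_num) (by norm_num))
    (exp_neg_leJ (r := 0.99) 14 (by norm_num) (by norm_num) (by norm_num) (by norm_num))
    (exp_neg_leJ (r := 0.166) 9 (by norm_num) (by norm_num) (by norm_num) (by norm_num))
    (exp_neg_leJ (r := 0.99) 14 (by norm_num) (by norm_num) (by norm_num) (by norm_num))
    (by norm_num)) (by norm_num) hN hβ.le (by norm_num)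

private theorem JB8_k2_b4_3 {β x y : ℝ} (hβ : 0 < β) (hN : β * 17.639 ≤ 1) (hx1 : 0.4263 ≤ x) (hx2 : x ≤ 0.6529)
    (hy1 : -0 ≤ y) (hy2 : y ≤ 0.463) : ‖HH β (x + y * I) - 1‖ ≤ 0.04 := by
  refine le_epsJ (C := 0.686) (N0 := 17.639) (J_boxp 0.4263 0.6529 0 0.463 0.463 1.0102 0.8005 1.6021 1.2467 0.505 4.1999 17.639 0.7925 2.927 1.43 1.169 0.505 0.3716 1.1542 3.6867 0.5148 1.043 0.4374 1.2069 0.0001358 0.001425 0.0000003101 0.0000003101 0.000114 0.0000003101 0.0004465 0.0000003101 0.686
    hβ hN hx1 hx2 hy1 hy2 (by norm_num) (by norm_num) (by linarith) (by norm_num) (by norm_num) (by norm_num) (by norm_num) (by norm_num) (by norm_num) (by norm_num) (by norm_num) (by norm_num) (by norm_num) (by norm_num) (by norm_num) (by norm_num) (by norm_num) (by norm_num) (by norm_num) (by norm_num) (by norm_num) (by norm_num) (by norm_num) (by norm_num)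
    (cube_sqrt_geJ (s := 0.8578) (by norm_num) (by norm_num) (by norm_num) (by norm_num))
    (cube_sqrt_geJ (s := 0.9502) (by norm_num) (by norm_num) (by norm_num) (by norm_num))
    (by norm_num) (by norm_num) (by norm_num) (by norm_num) (by norm_num) (by norm_num) (by norm_num) (by norm_num) (by norm_num) (by norm_num) (by norm_num) (by norm_num) (by norm_num) (by norm_num) (by norm_num) (by norm_num) (by norm_num) (by norm_num)
    (exp_neg_leJ (r := 0.907) 8 (by norm_num) (by norm_num) (by norm_num) (by norm_num))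
    (exp_neg_leJ (r := 0.554) 6 (by norm_num) (by norm_num) (by norm_num) (by norm_num))
    (exp_neg_leJ (r := 0.99) 14 (by norm_num) (by norm_num) (by norm_num) (by norm_num))
    (exp_neg_leJ (r := 0.99) 14 (by norm_num) (by norm_num) (by norm_num) (by norm_num))
    (exp_neg_leJ (r := 0.08) 9 (by norm_num) (by norm_num) (by norm_num) (by norm_num))
    (exp_neg_leJ (r := 0.99) 14 (by norm_num) (by norm_num) (by norm_num) (by norm_num))
    (exp_neg_leJ (r := 0.715) 7 (by norm_num) (by norm_num) (by norm_num) (by norm_num))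
    (exp_neg_leJ (r := 0.99) 14 (by norm_num) (by norm_num) (by norm_num) (by norm_num))
    (by norm_num)) (by norm_num) hN hβ.le (by norm_num)

private theorem JB8_k2_b4_4 {β x y : ℝ} (hβ : 0 < β) (hN : β * 17.639 ≤ 1) (hx1 : 0.4161 ≤ x) (hx2 : x ≤ 0.6361)
    (hy1 : -0 ≤ y) (hy2 : y ≤ 0.468) : ‖HH β (x + y * I) - 1‖ ≤ 0.04 := by
  refine le_epsJ (C := 0.6864) (N0 := 17.639) (J_boxp 0.4161 0.6361 0 0.468 0.468 1.003 0.7898 1.5999 1.2593 0.5047 4.1999 17.639 0.7875 2.904 1.427 1.1754 0.5014 0.3698 1.1507 3.6947 0.5093 1.0284 0.3956 1.1921 0.0001446 0.001472 0.0000003101 0.0000003101 0.000126 0.0000003101 0.0009363 0.0000003101 0.6864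
    hβ hN hx1 hx2 hy1 hy2 (by norm_num) (by norm_num) (by linarith) (by norm_num) (by norm_num) (by norm_num) (by norm_num) (by norm_num) (by norm_num) (by norm_num) (by norm_num) (by norm_num) (by norm_num) (by norm_num) (by norm_num) (by norm_num) (by norm_num) (by norm_num) (by norm_num) (by norm_num) (by norm_num) (by norm_num) (by norm_num) (by norm_num)
    (cube_sqrt_geJ (s := 0.8587) (by norm_num) (by norm_num) (by norm_num) (by norm_num))
    (cube_sqrt_geJ (s := 0.9505) (by norm_num) (by norm_num) (by norm_num) (by norm_num))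
    (by norm_num) (by norm_num) (by norm_num) (by norm_num) (by norm_num) (by norm_num) (by norm_num) (by norm_num) (by norm_num) (by norm_num) (by norm_num) (by norm_num) (by norm_num) (by norm_num) (by norm_num) (by norm_num) (by norm_num) (by norm_num)
    (exp_neg_leJ (r := 0.844) 8 (by norm_num) (by norm_num) (by norm_num) (by norm_num))
    (exp_neg_leJ (r := 0.522) 6 (by norm_num) (by norm_num) (by norm_num) (by norm_num))
    (exp_neg_leJ (r := 0.99) 14 (by norm_num) (by norm_num) (by norm_num) (by norm_num))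
    (exp_neg_leJ (r := 0.99) 14 (by norm_num) (by norm_num) (by norm_num) (by norm_num))
    (exp_neg_leJ (r := 0.983) 8 (by norm_num) (by norm_num) (by norm_num) (by norm_num))
    (exp_neg_leJ (r := 0.99) 14 (by norm_num) (by norm_num) (by norm_num) (by norm_num))
    (exp_neg_leJ (r := 0.977) 6 (by norm_num) (by norm_num) (by norm_num) (by norm_num))
    (exp_neg_leJ (r := 0.99) 14 (by norm_num) (by norm_num) (by norm_num) (by norm_num))
    (by norm_num)) (by norm_num) hN hβ.le (by norm_num)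

private theorem JB8_k2_c4 {κ t β : ℝ} (h : DomR κ t) (hβ : 0 < β) (hk1 : 1 ≤ κ) (hk2 : κ ≤ 1.25)
    (ht1 : 0.82 ≤ t + κ) (ht2 : t + κ ≤ 1.25) (hR0 : β * 10 ≤ κ) (hR : β * (8.82 * (1 + κ ^ 2)) ≤ κ) :
    ‖HH β (sg κ t) - 1‖ ≤ 0.04 := by
  have hN : β * 17.639 ≤ 1 := bNC' hβ hk1 (by norm_num) (by norm_num) hR (by norm_num)
  have hy1 : 0.323 ≤ sy κ t := syR_ge h 1 1.25 0.82 0.323 1.38126 1.38127 0.35691 0.44616 hk1 hk2 (by linarith) (by norm_num) (by norm_num)
    (expn_ge (by norm_num) (by norm_num)) (expn_le (by norm_num) (by norm_num) (by norm_num)) (by norm_num)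
    (by norm_num) (by norm_num) (by norm_num) (by norm_num) (by norm_num) (by norm_num)
  have hy2 : sy κ t ≤ 0.468 := syR_le h 1 1.25 1.25 0.468 1.59679 0.5729 0.59783 0.74731 hk1 hk2 (by linarith) (by norm_num) (by norm_num)
    (expn_ge (by norm_num) (by norm_num)) (by norm_num) (by norm_num) (Or.inr ((mul_le_mul_of_nonneg_left (expn_le (E := 1.5968) (by norm_num) (by norm_num) (by norm_num)) (by norm_num)).trans (by norm_num))) (by norm_num) (by norm_num) (by norm_num)
  rcases le_total (sy κ t) 0.388 with f0 | g0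
  · have hx1 : 0.5565 ≤ sx κ t := sx_lo h 1 0.388 0.388 0.67841 0.5565 hk1 (by norm_num) f0 (abs_le.2 ⟨by linarith, by linarith⟩) (expm_ge (by norm_num) (by norm_num) (by norm_num) (by norm_num)) (by norm_num) (by norm_num)
    have hx2 : sx κ t ≤ 0.8454 := sx_hi h 1.25 0.323 0.323 0.72398 0.8454 hk2 hy1 (by norm_num) (by rw [abs_of_nonneg (by linarith)]; linarith) (expm_le (by norm_num) (by norm_num) (by norm_num)) (by norm_num) (by norm_num)
    exact JB8_k2_b4_0 hβ hN hx1 hx2 (by linarith) (by linarith)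
  rcases le_total (sy κ t) 0.428 with f1 | g1
  · have hx1 : 0.4916 ≤ sx κ t := sx_lo h 1 0.428 0.428 0.65181 0.4916 hk1 (by norm_num) f1 (abs_le.2 ⟨by linarith, by linarith⟩) (expm_ge (by norm_num) (by norm_num) (by norm_num) (by norm_num)) (by norm_num) (by norm_num)
    have hx2 : sx κ t ≤ 0.7541 := sx_hi h 1.25 0.388 0.388 0.67842 0.7541 hk2 g0 (by norm_num) (by rw [abs_of_nonneg (by linarith)]; linarith) (expm_le (by norm_num) (by norm_num) (by norm_num)) (by norm_num) (by norm_num)
    exact JB8_k2_b4_1 hβ hN hx1 hx2 (by linarith) (by linarith)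
  rcases le_total (sy κ t) 0.453 with f2 | g2
  · have hx1 : 0.446 ≤ sx κ t := sx_lo h 1 0.453 0.453 0.63571 0.446 hk1 (by norm_num) f2 (abs_le.2 ⟨by linarith, by linarith⟩) (expm_ge (by norm_num) (by norm_num) (by norm_num) (by norm_num)) (by norm_num) (by norm_num)
    have hx2 : sx κ t ≤ 0.6934 := sx_hi h 1.25 0.428 0.428 0.65182 0.6934 hk2 g1 (by norm_num) (by rw [abs_of_nonneg (by linarith)]; linarith) (expm_le (by norm_num) (by norm_num) (by norm_num)) (by norm_num) (by norm_num)
    exact JB8_k2_b4_2 hβ hN hx1 hx2 (by linarith) (by linarith)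
  rcases le_total (sy κ t) 0.463 with f3 | g3
  · have hx1 : 0.4263 ≤ sx κ t := sx_lo h 1 0.463 0.463 0.62939 0.4263 hk1 (by norm_num) f3 (abs_le.2 ⟨by linarith, by linarith⟩) (expm_ge (by norm_num) (by norm_num) (by norm_num) (by norm_num)) (by norm_num) (by norm_num)
    have hx2 : sx κ t ≤ 0.6529 := sx_hi h 1.25 0.453 0.453 0.63572 0.6529 hk2 g2 (by norm_num) (by rw [abs_of_nonneg (by linarith)]; linarith) (expm_le (by norm_num) (by norm_num) (by norm_num)) (by norm_num) (by norm_num)
    exact JB8_k2_b4_3 hβ hN hx1 hx2 (by linarith) (by linarith)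
  have hx1 : 0.4161 ≤ sx κ t := sx_lo h 1 0.468 0.468 0.62625 0.4161 hk1 (by norm_num) hy2 (abs_le.2 ⟨by linarith, by linarith⟩) (expm_ge (by norm_num) (by norm_num) (by norm_num) (by norm_num)) (by norm_num) (by norm_num)
  have hx2 : sx κ t ≤ 0.6361 := sx_hi h 1.25 0.463 0.463 0.6294 0.6361 hk2 g3 (by norm_num) (by rw [abs_of_nonneg (by linarith)]; linarith) (expm_le (by norm_num) (by norm_num) (by norm_num)) (by norm_num) (by norm_num)
  exact JB8_k2_b4_4 hβ hN hx1 hx2 (by linarith) (by linarith)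

private theorem JB8_k2_b5_0 {β x y : ℝ} (hβ : 0 < β) (hN : β * 18.08 ≤ 1) (hx1 : 0.6594 ≤ x) (hx2 : x ≤ 0.9306)
    (hy1 : -0 ≤ y) (hy2 : y ≤ 0.449) : ‖HH β (x + y * I) - 1‖ ≤ 0.04 := by
  refine le_epsJ (C := 0.7046) (N0 := 18.08) (J_boxp 0.6594 0.9306 0 0.449 0.449 1.1743 1.0333 1.7221 1.0313 0.5236 4.2521 18.08 0.88 3.372 1.491 1.0621 0.5871 0.4149 1.234 3.5382 0.6295 1.3672 0.9637 1.1063 0.00002459 0.0005527 0.0000003101 0.0000003101 0.00001142 0.0000003101 0.0000003101 0.0000003101 0.7046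
    hβ hN hx1 hx2 hy1 hy2 (by norm_num) (by norm_num) (by linarith) (by norm_num) (by norm_num) (by norm_num) (by norm_num) (by norm_num) (by norm_num) (by norm_num) (by norm_num) (by norm_num) (by norm_num) (by norm_num) (by norm_num) (by norm_num) (by norm_num) (by norm_num) (by norm_num) (by norm_num) (by norm_num) (by norm_num) (by norm_num) (by norm_num)
    (cube_sqrt_geJ (s := 0.8406) (by norm_num) (by norm_num) (by norm_num) (by norm_num))
    (cube_sqrt_geJ (s := 0.9445) (by norm_num) (by norm_num) (by norm_num) (by norm_num))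
    (by norm_num) (by norm_num) (by norm_num) (by norm_num) (by norm_num) (by norm_num) (by norm_num) (by norm_num) (by norm_num) (by norm_num) (by norm_num) (by norm_num) (by norm_num) (by norm_num) (by norm_num) (by norm_num) (by norm_num) (by norm_num)
    (exp_neg_leJ (r := 0.614) 10 (by norm_num) (by norm_num) (by norm_num) (by norm_num))
    (exp_neg_leJ (r := 0.501) 7 (by norm_num) (by norm_num) (by norm_num) (by norm_num))
    (exp_neg_leJ (r := 0.99) 14 (by norm_num) (by norm_num) (by norm_num) (by norm_num))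
    (exp_neg_leJ (r := 0.99) 14 (by norm_num) (by norm_num) (by norm_num) (by norm_num))
    (exp_neg_leJ (r := 0.381) 11 (by norm_num) (by norm_num) (by norm_num) (by norm_num))
    (exp_neg_leJ (r := 0.99) 14 (by norm_num) (by norm_num) (by norm_num) (by norm_num))
    (exp_neg_leJ (r := 0.99) 14 (by norm_num) (by norm_num) (by norm_num) (by norm_num))
    (exp_neg_leJ (r := 0.99) 14 (by norm_num) (by norm_num) (by norm_num) (by norm_num))
    (by norm_num)) (by norm_num) hN hβ.le (by norm_num)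

private theorem JB8_k2_b5_1 {β x y : ℝ} (hβ : 0 < β) (hN : β * 18.08 ≤ 1) (hx1 : 0.6118 ≤ x) (hx2 : x ≤ 0.7652)
    (hy1 : -0 ≤ y) (hy2 : y ≤ 0.477) : ‖HH β (x + y * I) - 1‖ ≤ 0.04 := by
  refine le_epsJ (C := 0.5576) (N0 := 18.08) (J_boxp 0.6118 0.7652 0 0.477 0.477 1.1408 0.9017 1.6635 1.0586 0.5146 4.2521 18.08 0.7905 2.918 1.429 1.1258 0.5703 0.42 1.2177 3.6247 0.6035 1.2984 0.7484 1.2369 0.00003327 0.0005042 0.0000003101 0.0000003101 0.00001831 0.0000003101 0.00000133 0.0000003101 0.5576
    hβ hN hx1 hx2 hy1 hy2 (by norm_num) (by norm_num) (by linarith) (by norm_num) (by norm_num) (by norm_num) (by norm_num) (by norm_num) (by norm_num) (by norm_num) (by norm_num) (by norm_num) (by norm_num) (by norm_num) (by norm_num) (by norm_num) (by norm_num) (by norm_num) (by norm_num) (by norm_num) (by norm_num) (by norm_num) (by norm_num) (by norm_num)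
    (cube_sqrt_geJ (s := 0.8581) (by norm_num) (by norm_num) (by norm_num) (by norm_num))
    (cube_sqrt_geJ (s := 0.9503) (by norm_num) (by norm_num) (by norm_num) (by norm_num))
    (by norm_num) (by norm_num) (by norm_num) (by norm_num) (by norm_num) (by norm_num) (by norm_num) (by norm_num) (by norm_num) (by norm_num) (by norm_num) (by norm_num) (by norm_num) (by norm_num) (by norm_num) (by norm_num) (by norm_num) (by norm_num)
    (exp_neg_leJ (r := 0.311) 10 (by norm_num) (by norm_num) (by norm_num) (by norm_num))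
    (exp_neg_leJ (r := 0.593) 7 (by norm_num) (by norm_num) (by norm_num) (by norm_num))
    (exp_neg_leJ (r := 0.99) 14 (by norm_num) (by norm_num) (by norm_num) (by norm_num))
    (exp_neg_leJ (r := 0.99) 14 (by norm_num) (by norm_num) (by norm_num) (by norm_num))
    (exp_neg_leJ (r := 0.911) 10 (by norm_num) (by norm_num) (by norm_num) (by norm_num))
    (exp_neg_leJ (r := 0.99) 14 (by norm_num) (by norm_num) (by norm_num) (by norm_num))
    (exp_neg_leJ (r := 0.531) 13 (by norm_num) (by norm_num) (by norm_num) (by norm_num))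
    (exp_neg_leJ (r := 0.99) 14 (by norm_num) (by norm_num) (by norm_num) (by norm_num))
    (by norm_num)) (by norm_num) hN hβ.le (by norm_num)

private theorem JB8_k2_c5 {κ t β : ℝ} (h : DomR κ t) (hβ : 0 < β) (hk1 : 1.25 ≤ κ) (hk2 : κ ≤ 1.39)
    (ht1 : 0.82 ≤ t + κ) (ht2 : t + κ ≤ 1.25) (hR0 : β * 10 ≤ κ) (hR : β * (8.82 * (1 + κ ^ 2)) ≤ κ) :
    ‖HH β (sg κ t) - 1‖ ≤ 0.04 := by
  have hN : β * 18.08 ≤ 1 := bNC' hβ hk1 (by norm_num) (by norm_num) hR (by norm_num)
  have hy1 : 0.339 ≤ sy κ t := syR_ge h 1.25 1.39 0.82 0.339 1.40354 1.40355 0.3423 0.38065 hk1 hk2 (by linarith) (by norm_num) (by norm_num)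
    (expn_ge (by norm_num) (by norm_num)) (expn_le (by norm_num) (by norm_num) (by norm_num)) (by norm_num)
    (by norm_num) (by norm_num) (by norm_num) (by norm_num) (by norm_num) (by norm_num)
  have hy2 : sy κ t ≤ 0.477 := syR_le h 1.25 1.39 1.25 0.477 1.61123 0.5425 0.55291 0.61485 hk1 hk2 (by linarith) (by norm_num) (by norm_num)
    (expn_ge (by norm_num) (by norm_num)) (by norm_num) (by norm_num) (Or.inr ((mul_le_mul_of_nonneg_left (expn_le (E := 1.61124) (by norm_num) (by norm_num) (by norm_num)) (by norm_num)).trans (by norm_num))) (by norm_num) (by norm_num) (by norm_num)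
  rcases le_total (sy κ t) 0.449 with f0 | g0
  · have hx1 : 0.6594 ≤ sx κ t := sx_lo h 1.25 0.449 0.449 0.63826 0.6594 hk1 (by norm_num) f0 (abs_le.2 ⟨by linarith, by linarith⟩) (expm_ge (by norm_num) (by norm_num) (by norm_num) (by norm_num)) (by norm_num) (by norm_num)
    have hx2 : sx κ t ≤ 0.9306 := sx_hi h 1.39 0.339 0.339 0.71249 0.9306 hk2 hy1 (by norm_num) (by rw [abs_of_nonneg (by linarith)]; linarith) (expm_le (by norm_num) (by norm_num) (by norm_num)) (by norm_num) (by norm_num)
    exact JB8_k2_b5_0 hβ hN hx1 hx2 (by linarith) (by linarith)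
  have hx1 : 0.6118 ≤ sx κ t := sx_lo h 1.25 0.477 0.477 0.62064 0.6118 hk1 (by norm_num) hy2 (abs_le.2 ⟨by linarith, by linarith⟩) (expm_ge (by norm_num) (by norm_num) (by norm_num) (by norm_num)) (by norm_num) (by norm_num)
  have hx2 : sx κ t ≤ 0.7652 := sx_hi h 1.39 0.449 0.449 0.63827 0.7652 hk2 g0 (by norm_num) (by rw [abs_of_nonneg (by linarith)]; linarith) (expm_le (by norm_num) (by norm_num) (by norm_num)) (by norm_num) (by norm_num)
  exact JB8_k2_b5_1 hβ hN hx1 hx2 (by linarith) (by linarith)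

theorem JB8_k2 {κ t β : ℝ} (h : DomR κ t) (hβ : 0 < β) (hk1 : 0.24 ≤ κ) (hk2 : κ ≤ 1.39)
    (ht1 : 0.82 ≤ t + κ) (ht2 : t + κ ≤ 1.25) (hR0 : β * 10 ≤ κ) (hR : β * (8.82 * (1 + κ ^ 2)) ≤ κ) :
    ‖HH β (sg κ t) - 1‖ ≤ 0.04 := by
  rcases le_total κ 0.54 with f0 | g0
  · exact JB8_k2_c0 h hβ hk1 f0 ht1 ht2 hR0 hR
  rcases le_total κ 0.77 with f1 | g1
  · exact JB8_k2_c1 h hβ g0 f1 ht1 ht2 hR0 hR
  rcases le_total κ 0.95 with f2 | g2
  · exact JB8_k2_c2 h hβ g1 f2 ht1 ht2 hR0 hR
  rcases le_total κ 1 with f3 | g3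
  · exact JB8_k2_c3 h hβ g2 f3 ht1 ht2 hR0 hR
  rcases le_total κ 1.25 with f4 | g4
  · exact JB8_k2_c4 h hβ g3 f4 ht1 ht2 hR0 hR
  exact JB8_k2_c5 h hβ g4 hk2 ht1 ht2 hR0 hR

end Sok
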