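import Pool.Agent.Lib.MP_816dec_an.JBG2

/-!
MP_816dec_an (A3, row R1): tables b = 8, real points.
-/

set_option autoImplicit false
set_option maxHeartbeats 4000000

open Complex Set

namespace Sok

private theorem JB8_k0_b0_0 {β x y : ℝ} (hβ : 0 < β) (hN : β * 29.411 ≤ 1) (hx1 : 0.0619 ≤ x) (hx2 : x ≤ 0.3602)
    (hy1 : -0.317 ≤ y) (hy2 : y ≤ -0.297) : ‖HH β (x + y * I) - 1‖ ≤ 0.07 := by
  refine le_epsJ (C := 1.928) (N0 := 29.411) (J_boxp 0.0619 0.3602 0.317 0 (-0.297) 0.5285 0.4799 0.79 2.3134 0.3546 5.4232 29.411 0.9081 3.533 1.511 0.9889 0.2642 0.1842 0.5291 2.8686 0.2119 0.5857 0.8327 3.5313 0.0004228 0.004441 0.0000003101 0.0000003101 0.001966 0.0000003101 0.0000003101 0.0000003101 1.928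
    hβ hN hx1 hx2 hy1 hy2 (by norm_num) (by norm_num) (by linarith) (by norm_num) (by norm_num) (by norm_num) (by norm_num) (by norm_num) (by norm_num) (by norm_num) (by norm_num) (by norm_num) (by norm_num) (by norm_num) (by norm_num) (by norm_num) (by norm_num) (by norm_num) (by norm_num) (by norm_num) (by norm_num) (by norm_num) (by norm_num) (by norm_num)
    (cube_sqrt_geJ (s := 0.835) (by norm_num) (by norm_num) (by norm_num) (by norm_num))
    (cube_sqrt_geJ (s := 0.9427) (by norm_num) (by norm_num) (by norm_num) (by norm_num))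
    (by norm_num) (by norm_num) (by norm_num) (by norm_num) (by norm_num) (by norm_num) (by norm_num) (by norm_num) (by norm_num) (by norm_num) (by norm_num) (by norm_num) (by norm_num) (by norm_num) (by norm_num) (by norm_num) (by norm_num) (by norm_num)
    (exp_neg_leJ (r := 0.77) 7 (by norm_num) (by norm_num) (by norm_num) (by norm_num))
    (exp_neg_leJ (r := 0.417) 5 (by norm_num) (by norm_num) (by norm_num) (by norm_num))
    (exp_neg_leJ (r := 0.99) 14 (by norm_num) (by norm_num) (by norm_num) (by norm_num))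
    (exp_neg_leJ (r := 0.99) 14 (by norm_num) (by norm_num) (by norm_num) (by norm_num))
    (exp_neg_leJ (r := 0.232) 6 (by norm_num) (by norm_num) (by norm_num) (by norm_num))
    (exp_neg_leJ (r := 0.99) 14 (by norm_num) (by norm_num) (by norm_num) (by norm_num))
    (exp_neg_leJ (r := 0.99) 14 (by norm_num) (by norm_num) (by norm_num) (by norm_num))
    (exp_neg_leJ (r := 0.99) 14 (by norm_num) (by norm_num) (by norm_num) (by norm_num))
    (by norm_num)) (by norm_num) hN hβ.le (by norm_num)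

private theorem JB8_k0_b0_1 {β x y : ℝ} (hβ : 0 < β) (hN : β * 29.411 ≤ 1) (hx1 : 0.0582 ≤ x) (hx2 : x ≤ 0.3945)
    (hy1 : -0.297 ≤ y) (hy2 : y ≤ -0.232) : ‖HH β (x + y * I) - 1‖ ≤ 0.07 := by
  refine le_epsJ (C := 1.9547) (N0 := 29.411) (J_boxp 0.0582 0.3945 0.297 0 (-0.232) 0.5401 0.4939 0.8634 2.341 0.3707 5.4232 29.411 0.9145 3.571 1.516 0.9942 0.27 0.1877 0.5594 2.917 0.221 0.5805 0.8797 3.4859 0.0003573 0.004007 0.0000003101 0.0000003101 0.001506 0.0000003101 0.0000003101 0.0000003101 1.9547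
    hβ hN hx1 hx2 hy1 hy2 (by norm_num) (by norm_num) (by linarith) (by norm_num) (by norm_num) (by norm_num) (by norm_num) (by norm_num) (by norm_num) (by norm_num) (by norm_num) (by norm_num) (by norm_num) (by norm_num) (by norm_num) (by norm_num) (by norm_num) (by norm_num) (by norm_num) (by norm_num) (by norm_num) (by norm_num) (by norm_num) (by norm_num)
    (cube_sqrt_geJ (s := 0.8337) (by norm_num) (by norm_num) (by norm_num) (by norm_num))
    (cube_sqrt_geJ (s := 0.9423) (by norm_num) (by norm_num) (by norm_num) (by norm_num))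
    (by norm_num) (by norm_num) (by norm_num) (by norm_num) (by norm_num) (by norm_num) (by norm_num) (by norm_num) (by norm_num) (by norm_num) (by norm_num) (by norm_num) (by norm_num) (by norm_num) (by norm_num) (by norm_num) (by norm_num) (by norm_num)
    (exp_neg_leJ (r := 0.94) 7 (by norm_num) (by norm_num) (by norm_num) (by norm_num))
    (exp_neg_leJ (r := 0.52) 5 (by norm_num) (by norm_num) (by norm_num) (by norm_num))
    (exp_neg_leJ (r := 0.99) 14 (by norm_num) (by norm_num) (by norm_num) (by norm_num))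
    (exp_neg_leJ (r := 0.99) 14 (by norm_num) (by norm_num) (by norm_num) (by norm_num))
    (exp_neg_leJ (r := 0.499) 6 (by norm_num) (by norm_num) (by norm_num) (by norm_num))
    (exp_neg_leJ (r := 0.99) 14 (by norm_num) (by norm_num) (by norm_num) (by norm_num))
    (exp_neg_leJ (r := 0.99) 14 (by norm_num) (by norm_num) (by norm_num) (by norm_num))
    (exp_neg_leJ (r := 0.99) 14 (by norm_num) (by norm_num) (by norm_num) (by norm_num))
    (by norm_num)) (by norm_num) hN hβ.le (by norm_num)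

private theorem JB8_k0_b0_2 {β x y : ℝ} (hβ : 0 < β) (hN : β * 29.411 ≤ 1) (hx1 : 0.0479 ≤ x) (hx2 : x ≤ 0.4288)
    (hy1 : -0.232 ≤ y) (hy2 : y ≤ 0.013) : ‖HH β (x + y * I) - 1‖ ≤ 0.07 := by
  refine le_epsJ (C := 1.556) (N0 := 29.411) (J_boxp 0.0479 0.4288 0.232 0.013 0.013 0.579 0.4876 1.1001 2.3807 0.4185 5.4232 29.411 0.8422 3.17 1.464 1.041 0.2894 0.2082 0.6584 3.1121 0.2502 0.5649 0.98 3.4211 0.0002013 0.002192 0.0000003101 0.0000003101 0.0006376 0.0000003101 0.0000003101 0.0000003101 1.556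
    hβ hN hx1 hx2 hy1 hy2 (by norm_num) (by norm_num) (by linarith) (by norm_num) (by norm_num) (by norm_num) (by norm_num) (by norm_num) (by norm_num) (by norm_num) (by norm_num) (by norm_num) (by norm_num) (by norm_num) (by norm_num) (by norm_num) (by norm_num) (by norm_num) (by norm_num) (by norm_num) (by norm_num) (by norm_num) (by norm_num) (by norm_num)
    (cube_sqrt_geJ (s := 0.848) (by norm_num) (by norm_num) (by norm_num) (by norm_num))
    (cube_sqrt_geJ (s := 0.947) (by norm_num) (by norm_num) (by norm_num) (by norm_num))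
    (by norm_num) (by norm_num) (by norm_num) (by norm_num) (by norm_num) (by norm_num) (by norm_num) (by norm_num) (by norm_num) (by norm_num) (by norm_num) (by norm_num) (by norm_num) (by norm_num) (by norm_num) (by norm_num) (by norm_num) (by norm_num)
    (exp_neg_leJ (r := 0.511) 8 (by norm_num) (by norm_num) (by norm_num) (by norm_num))
    (exp_neg_leJ (r := 0.123) 6 (by norm_num) (by norm_num) (by norm_num) (by norm_num))
    (exp_neg_leJ (r := 0.99) 14 (by norm_num) (by norm_num) (by norm_num) (by norm_num))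
    (exp_neg_leJ (r := 0.99) 14 (by norm_num) (by norm_num) (by norm_num) (by norm_num))
    (exp_neg_leJ (r := 0.358) 7 (by norm_num) (by norm_num) (by norm_num) (by norm_num))
    (exp_neg_leJ (r := 0.99) 14 (by norm_num) (by norm_num) (by norm_num) (by norm_num))
    (exp_neg_leJ (r := 0.99) 14 (by norm_num) (by norm_num) (by norm_num) (by norm_num))
    (exp_neg_leJ (r := 0.99) 14 (by norm_num) (by norm_num) (by norm_num) (by norm_num))
    (by norm_num)) (by norm_num) hN hβ.le (by norm_num)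

theorem JB8_k0_c0 {κ t β : ℝ} (h : DomR κ t) (hβ : 0 < β) (hk1 : 0.24 ≤ κ) (hk2 : κ ≤ 0.34)
    (ht1 : -0.7465 ≤ t + κ) (ht2 : t + κ ≤ 0.04) (hR0 : β * 10 ≤ κ) (hR : β * (8.82 * (1 + κ ^ 2)) ≤ κ) :
    ‖HH β (sg κ t) - 1‖ ≤ 0.07 := by
  have hN : β * 29.411 ≤ 1 := bNR hβ h.1 hk2 hR0 (by norm_num)
  have hy1 : -0.317 ≤ sy κ t := syL_ang2 h 0.24 0.34 0.7465 0.746 0.7344 0.6788 0.317 1.373 0.72833 hk1 hk2 (by linarith) (by norm_num) (by norm_num) (by norm_num) (by norm_num)
    (cos_ge_num (by norm_num) (by norm_num)) (sin_le_num (by norm_num) (by norm_num))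
    (expn_ge (by norm_num) (by norm_num)) (expm_ge (by norm_num) (by norm_num) (by norm_num) (by norm_num)) (by norm_num) (by norm_num) (by norm_num)
    (by norm_num) (by norm_num) (by norm_num)
  have hy2 : sy κ t ≤ 0.013 := syR_le h 0.24 0.34 0.04 0.013 1.01308 0.0346 0.03873 0.05488 hk1 hk2 (by linarith) (by norm_num) (by norm_num)
    (expn_ge (by norm_num) (by norm_num)) (by norm_num) (by norm_num) (Or.inr ((mul_le_mul_of_nonneg_left (expn_le (E := 1.01309) (by norm_num) (by norm_num) (by norm_num)) (by norm_num)).trans (by norm_num))) (by norm_num) (by norm_num) (by norm_num)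
  rcases le_total (sy κ t) (-0.297) with f0 | g0
  · have hx1 : 0.0619 ≤ sx κ t := sx_lo h 0.24 (-0.297) 0.317 1.34581 0.0619 hk1 (by norm_num) f0 (abs_le.2 ⟨by linarith, by linarith⟩) (by rw [neg_neg]; exact expn_ge (by norm_num) (by norm_num)) (by norm_num) (by norm_num)
    have hx2 : sx κ t ≤ 0.3602 := sx_hi h 0.34 (-0.317) 0.297 1.37301 0.3602 hk2 hy1 (by norm_num) (by rw [abs_of_nonpos (by linarith)]; linarith) (by rw [neg_neg]; exact expn_le (by norm_num) (by norm_num) (by norm_num)) (by norm_num) (by norm_num)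
    exact JB8_k0_b0_0 hβ hN hx1 hx2 (by linarith) (by linarith)
  rcases le_total (sy κ t) (-0.232) with f1 | g1
  · have hx1 : 0.0582 ≤ sx κ t := sx_lo h 0.24 (-0.232) 0.297 1.26111 0.0582 hk1 (by norm_num) f1 (abs_le.2 ⟨by linarith, by linarith⟩) (by rw [neg_neg]; exact expn_ge (by norm_num) (by norm_num)) (by norm_num) (by norm_num)
    have hx2 : sx κ t ≤ 0.3945 := sx_hi h 0.34 (-0.297) 0.232 1.34582 0.3945 hk2 g0 (by norm_num) (by rw [abs_of_nonpos (by linarith)]; linarith) (by rw [neg_neg]; exact expn_le (by norm_num) (by norm_num) (by norm_num)) (by norm_num) (by norm_num)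
    exact JB8_k0_b0_1 hβ hN hx1 hx2 (by linarith) (by linarith)
  have hx1 : 0.0479 ≤ sx κ t := sx_lo h 0.24 0.013 0.232 0.98708 0.0479 hk1 (by norm_num) hy2 (abs_le.2 ⟨by linarith, by linarith⟩) (expm_ge (by norm_num) (by norm_num) (by norm_num) (by norm_num)) (by norm_num) (by norm_num)
  have hx2 : sx κ t ≤ 0.4288 := sx_hi h 0.34 (-0.232) 0 1.26112 0.4288 hk2 g1 (by norm_num) (abs_nonneg _) (by rw [neg_neg]; exact expn_le (by norm_num) (by norm_num) (by norm_num)) (by norm_num) (by norm_num)
  exact JB8_k0_b0_2 hβ hN hx1 hx2 (by linarith) (by linarith)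

private theorem JB8_k0_b1_0 {β x y : ℝ} (hβ : 0 < β) (hN : β * 25.128 ≤ 1) (hx1 : 0.2947 ≤ x) (hx2 : x ≤ 0.4833)
    (hy1 : -0.393 ≤ y) (hy2 : y ≤ -0.368) : ‖HH β (x + y * I) - 1‖ ≤ 0.07 := by
  refine le_epsJ (C := 1.7029) (N0 := 25.128) (J_boxp 0.2947 0.4833 0.393 0 (-0.368) 0.6385 0.623 0.7957 1.7484 0.3559 5.0128 25.128 0.9758 3.964 1.562 0.8714 0.3192 0.2154 0.4888 2.5534 0.2834 0.908 1.0918 3.6079 0.0003289 0.004464 0.000004635 0.0000003101 0.000808 0.0000003101 0.0000003101 0.0000003101 1.7029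
    hβ hN hx1 hx2 hy1 hy2 (by norm_num) (by norm_num) (by linarith) (by norm_num) (by norm_num) (by norm_num) (by norm_num) (by norm_num) (by norm_num) (by norm_num) (by norm_num) (by norm_num) (by norm_num) (by norm_num) (by norm_num) (by norm_num) (by norm_num) (by norm_num) (by norm_num) (by norm_num) (by norm_num) (by norm_num) (by norm_num) (by norm_num)
    (cube_sqrt_geJ (s := 0.8214) (by norm_num) (by norm_num) (by norm_num) (by norm_num))
    (cube_sqrt_geJ (s := 0.9383) (by norm_num) (by norm_num) (by norm_num) (by norm_num))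
    (by norm_num) (by norm_num) (by norm_num) (by norm_num) (by norm_num) (by norm_num) (by norm_num) (by norm_num) (by norm_num) (by norm_num) (by norm_num) (by norm_num) (by norm_num) (by norm_num) (by norm_num) (by norm_num) (by norm_num) (by norm_num)
    (exp_neg_leJ (r := 0.02) 8 (by norm_num) (by norm_num) (by norm_num) (by norm_num))
    (exp_neg_leJ (r := 0.412) 5 (by norm_num) (by norm_num) (by norm_num) (by norm_num))
    (exp_neg_leJ (r := 0.282) 12 (by norm_num) (by norm_num) (by norm_num) (by norm_num))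
    (exp_neg_leJ (r := 0.99) 14 (by norm_num) (by norm_num) (by norm_num) (by norm_num))
    (exp_neg_leJ (r := 0.121) 7 (by norm_num) (by norm_num) (by norm_num) (by norm_num))
    (exp_neg_leJ (r := 0.99) 14 (by norm_num) (by norm_num) (by norm_num) (by norm_num))
    (exp_neg_leJ (r := 0.99) 14 (by norm_num) (by norm_num) (by norm_num) (by norm_num))
    (exp_neg_leJ (r := 0.99) 14 (by norm_num) (by norm_num) (by norm_num) (by norm_num))
    (by norm_num)) (by norm_num) hN hβ.le (by norm_num)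

private theorem JB8_k0_b1_1 {β x y : ℝ} (hβ : 0 < β) (hN : β * 25.128 ≤ 1) (hx1 : 0.2765 ≤ x) (hx2 : x ≤ 0.5091)
    (hy1 : -0.368 ≤ y) (hy2 : y ≤ -0.303) : ‖HH β (x + y * I) - 1‖ ≤ 0.07 := by
  refine le_epsJ (C := 1.7495) (N0 := 25.128) (J_boxp 0.2765 0.5091 0.368 0 (-0.303) 0.6434 0.6282 0.8632 1.8003 0.3707 5.0128 25.128 0.9764 3.968 1.562 0.8846 0.3216 0.2169 0.522 2.6226 0.2882 0.8828 1.1233 3.5574 0.0003094 0.004297 0.000002013 0.0000003101 0.0007167 0.0000003101 0.0000003101 0.0000003101 1.7495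
    hβ hN hx1 hx2 hy1 hy2 (by norm_num) (by norm_num) (by linarith) (by norm_num) (by norm_num) (by norm_num) (by norm_num) (by norm_num) (by norm_num) (by norm_num) (by norm_num) (by norm_num) (by norm_num) (by norm_num) (by norm_num) (by norm_num) (by norm_num) (by norm_num) (by norm_num) (by norm_num) (by norm_num) (by norm_num) (by norm_num) (by norm_num)
    (cube_sqrt_geJ (s := 0.8212) (by norm_num) (by norm_num) (by norm_num) (by norm_num))
    (cube_sqrt_geJ (s := 0.9383) (by norm_num) (by norm_num) (by norm_num) (by norm_num))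
    (by norm_num) (by norm_num) (by norm_num) (by norm_num) (by norm_num) (by norm_num) (by norm_num) (by norm_num) (by norm_num) (by norm_num) (by norm_num) (by norm_num) (by norm_num) (by norm_num) (by norm_num) (by norm_num) (by norm_num) (by norm_num)
    (exp_neg_leJ (r := 0.081) 8 (by norm_num) (by norm_num) (by norm_num) (by norm_num))
    (exp_neg_leJ (r := 0.45) 5 (by norm_num) (by norm_num) (by norm_num) (by norm_num))
    (exp_neg_leJ (r := 0.116) 13 (by norm_num) (by norm_num) (by norm_num) (by norm_num))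
    (exp_neg_leJ (r := 0.99) 14 (by norm_num) (by norm_num) (by norm_num) (by norm_num))
    (exp_neg_leJ (r := 0.241) 7 (by norm_num) (by norm_num) (by norm_num) (by norm_num))
    (exp_neg_leJ (r := 0.99) 14 (by norm_num) (by norm_num) (by norm_num) (by norm_num))
    (exp_neg_leJ (r := 0.99) 14 (by norm_num) (by norm_num) (by norm_num) (by norm_num))
    (exp_neg_leJ (r := 0.99) 14 (by norm_num) (by norm_num) (by norm_num) (by norm_num))
    (by norm_num)) (by norm_num) hN hβ.le (by norm_num)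

private theorem JB8_k0_b1_2 {β x y : ℝ} (hβ : 0 < β) (hN : β * 25.128 ≤ 1) (hx1 : 0.2272 ≤ x) (hx2 : x ≤ 0.5445)
    (hy1 : -0.303 ≤ y) (hy2 : y ≤ -0.108) : ‖HH β (x + y * I) - 1‖ ≤ 0.07 := by
  refine le_epsJ (C := 1.7348) (N0 := 25.128) (J_boxp 0.2272 0.5445 0.303 0 (-0.108) 0.6548 0.6232 1.0451 1.9294 0.4079 5.0128 25.128 0.9518 3.804 1.543 0.931 0.3273 0.2235 0.6077 2.817 0.2998 0.8145 1.2014 3.4724 0.0002682 0.003641 0.0000003101 0.0000003101 0.0005353 0.0000003101 0.0000003101 0.0000003101 1.7348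
    hβ hN hx1 hx2 hy1 hy2 (by norm_num) (by norm_num) (by linarith) (by norm_num) (by norm_num) (by norm_num) (by norm_num) (by norm_num) (by norm_num) (by norm_num) (by norm_num) (by norm_num) (by norm_num) (by norm_num) (by norm_num) (by norm_num) (by norm_num) (by norm_num) (by norm_num) (by norm_num) (by norm_num) (by norm_num) (by norm_num) (by norm_num)
    (cube_sqrt_geJ (s := 0.8262) (by norm_num) (by norm_num) (by norm_num) (by norm_num))
    (cube_sqrt_geJ (s := 0.9399) (by norm_num) (by norm_num) (by norm_num) (by norm_num))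
    (by norm_num) (by norm_num) (by norm_num) (by norm_num) (by norm_num) (by norm_num) (by norm_num) (by norm_num) (by norm_num) (by norm_num) (by norm_num) (by norm_num) (by norm_num) (by norm_num) (by norm_num) (by norm_num) (by norm_num) (by norm_num)
    (exp_neg_leJ (r := 0.224) 8 (by norm_num) (by norm_num) (by norm_num) (by norm_num))
    (exp_neg_leJ (r := 0.616) 5 (by norm_num) (by norm_num) (by norm_num) (by norm_num))
    (exp_neg_leJ (r := 0.99) 14 (by norm_num) (by norm_num) (by norm_num) (by norm_num))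
    (exp_neg_leJ (r := 0.99) 14 (by norm_num) (by norm_num) (by norm_num) (by norm_num))
    (exp_neg_leJ (r := 0.533) 7 (by norm_num) (by norm_num) (by norm_num) (by norm_num))
    (exp_neg_leJ (r := 0.99) 14 (by norm_num) (by norm_num) (by norm_num) (by norm_num))
    (exp_neg_leJ (r := 0.99) 14 (by norm_num) (by norm_num) (by norm_num) (by norm_num))
    (exp_neg_leJ (r := 0.99) 14 (by norm_num) (by norm_num) (by norm_num) (by norm_num))
    (by norm_num)) (by norm_num) hN hβ.le (by norm_num)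

private theorem JB8_k0_b1_3 {β x y : ℝ} (hβ : 0 < β) (hN : β * 25.128 ≤ 1) (hx1 : 0.3173 ≤ x) (hx2 : x ≤ 0.4568)
    (hy1 : -0.108 ≤ y) (hy2 : y ≤ 0.014) : ‖HH β (x + y * I) - 1‖ ≤ 0.07 := by
  refine le_epsJ (C := 0.3177) (N0 := 25.128) (J_boxp 0.3173 0.4568 0.108 0.014 0.014 0.8567 0.4694 1.1122 1.33 0.4208 5.0128 25.128 0.548 2.026 1.276 1.1447 0.4283 0.3501 0.9464 3.4976 0.4487 0.9379 1.8516 4.0047 0.00002122 0.0001514 0.0000003101 0.0000003101 0.0000127 0.0000003101 0.0000003101 0.0000003101 0.3177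
    hβ hN hx1 hx2 hy1 hy2 (by norm_num) (by norm_num) (by linarith) (by norm_num) (by norm_num) (by norm_num) (by norm_num) (by norm_num) (by norm_num) (by norm_num) (by norm_num) (by norm_num) (by norm_num) (by norm_num) (by norm_num) (by norm_num) (by norm_num) (by norm_num) (by norm_num) (by norm_num) (by norm_num) (by norm_num) (by norm_num) (by norm_num)
    (cube_sqrt_geJ (s := 0.904) (by norm_num) (by norm_num) (by norm_num) (by norm_num))
    (cube_sqrt_geJ (s := 0.9658) (by norm_num) (by norm_num) (by norm_num) (by norm_num))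
    (by norm_num) (by norm_num) (by norm_num) (by norm_num) (by norm_num) (by norm_num) (by norm_num) (by norm_num) (by norm_num) (by norm_num) (by norm_num) (by norm_num) (by norm_num) (by norm_num) (by norm_num) (by norm_num) (by norm_num) (by norm_num)
    (exp_neg_leJ (r := 0.762) 10 (by norm_num) (by norm_num) (by norm_num) (by norm_num))
    (exp_neg_leJ (r := 0.797) 8 (by norm_num) (by norm_num) (by norm_num) (by norm_num))
    (exp_neg_leJ (r := 0.99) 14 (by norm_num) (by norm_num) (by norm_num) (by norm_num))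
    (exp_neg_leJ (r := 0.99) 14 (by norm_num) (by norm_num) (by norm_num) (by norm_num))
    (exp_neg_leJ (r := 0.274) 11 (by norm_num) (by norm_num) (by norm_num) (by norm_num))
    (exp_neg_leJ (r := 0.99) 14 (by norm_num) (by norm_num) (by norm_num) (by norm_num))
    (exp_neg_leJ (r := 0.99) 14 (by norm_num) (by norm_num) (by norm_num) (by norm_num))
    (exp_neg_leJ (r := 0.99) 14 (by norm_num) (by norm_num) (by norm_num) (by norm_num))
    (by norm_num)) (by norm_num) hN hβ.le (by norm_num)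

theorem JB8_k0_c1 {κ t β : ℝ} (h : DomR κ t) (hβ : 0 < β) (hk1 : 0.34 ≤ κ) (hk2 : κ ≤ 0.41)
    (ht1 : -0.7465 ≤ t + κ) (ht2 : t + κ ≤ 0.04) (hR0 : β * 10 ≤ κ) (hR : β * (8.82 * (1 + κ ^ 2)) ≤ κ) :
    ‖HH β (sg κ t) - 1‖ ≤ 0.07 := by
  have hN : β * 25.128 ≤ 1 := bNC hβ h.1 hk2 (by norm_num) (by norm_num) hR (by norm_num)
  have hy1 : -0.393 ≤ sy κ t := syL_ang2 h 0.34 0.41 0.7465 0.703 0.7629 0.6466 0.393 1.48141 0.67502 hk1 hk2 (by linarith) (by norm_num) (by norm_num) (by norm_num) (by norm_num)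
    (cos_ge_num (by norm_num) (by norm_num)) (sin_le_num (by norm_num) (by norm_num))
    (expn_ge (by norm_num) (by norm_num)) (expm_ge (by norm_num) (by norm_num) (by norm_num) (by norm_num)) (by norm_num) (by norm_num) (by norm_num)
    (by norm_num) (by norm_num) (by norm_num)
  have hy2 : sy κ t ≤ 0.014 := syR_le h 0.34 0.41 0.04 0.014 1.01409 0.0328 0.03462 0.04176 hk1 hk2 (by linarith) (by norm_num) (by norm_num)
    (expn_ge (by norm_num) (by norm_num)) (by norm_num) (by norm_num) (Or.inr ((mul_le_mul_of_nonneg_left (expn_le (E := 1.0141) (by norm_num) (by norm_num) (by norm_num)) (by norm_num)).trans (by norm_num))) (by norm_num) (by norm_num) (by norm_num)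
  rcases le_total (sy κ t) (-0.368) with f0 | g0
  · have hx1 : 0.2947 ≤ sx κ t := sx_lo h 0.34 (-0.368) 0.393 1.44484 0.2947 hk1 (by norm_num) f0 (abs_le.2 ⟨by linarith, by linarith⟩) (by rw [neg_neg]; exact expn_ge (by norm_num) (by norm_num)) (by norm_num) (by norm_num)
    have hx2 : sx κ t ≤ 0.4833 := sx_hi h 0.41 (-0.393) 0.368 1.48142 0.4833 hk2 hy1 (by norm_num) (by rw [abs_of_nonpos (by linarith)]; linarith) (by rw [neg_neg]; exact expn_le (by norm_num) (by norm_num) (by norm_num)) (by norm_num) (by norm_num)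
    exact JB8_k0_b1_0 hβ hN hx1 hx2 (by linarith) (by linarith)
  rcases le_total (sy κ t) (-0.303) with f1 | g1
  · have hx1 : 0.2765 ≤ sx κ t := sx_lo h 0.34 (-0.303) 0.368 1.35391 0.2765 hk1 (by norm_num) f1 (abs_le.2 ⟨by linarith, by linarith⟩) (by rw [neg_neg]; exact expn_ge (by norm_num) (by norm_num)) (by norm_num) (by norm_num)
    have hx2 : sx κ t ≤ 0.5091 := sx_hi h 0.41 (-0.368) 0.303 1.44485 0.5091 hk2 g0 (by norm_num) (by rw [abs_of_nonpos (by linarith)]; linarith) (by rw [neg_neg]; exact expn_le (by norm_num) (by norm_num) (by norm_num)) (by norm_num) (by norm_num)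
    exact JB8_k0_b1_1 hβ hN hx1 hx2 (by linarith) (by linarith)
  rcases le_total (sy κ t) (-0.108) with f2 | g2
  · have hx1 : 0.2272 ≤ sx κ t := sx_lo h 0.34 (-0.108) 0.303 1.11404 0.2272 hk1 (by norm_num) f2 (abs_le.2 ⟨by linarith, by linarith⟩) (by rw [neg_neg]; exact expn_ge (by norm_num) (by norm_num)) (by norm_num) (by norm_num)
    have hx2 : sx κ t ≤ 0.5445 := sx_hi h 0.41 (-0.303) 0.108 1.35392 0.5445 hk2 g1 (by norm_num) (by rw [abs_of_nonpos (by linarith)]; linarith) (by rw [neg_neg]; exact expn_le (by norm_num) (by norm_num) (by norm_num)) (by norm_num) (by norm_num)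
    exact JB8_k0_b1_2 hβ hN hx1 hx2 (by linarith) (by linarith)
  have hx1 : 0.3173 ≤ sx κ t := sx_lo h 0.34 0.014 0.108 0.98609 0.3173 hk1 (by norm_num) hy2 (abs_le.2 ⟨by linarith, by linarith⟩) (expm_ge (by norm_num) (by norm_num) (by norm_num) (by norm_num)) (by norm_num) (by norm_num)
  have hx2 : sx κ t ≤ 0.4568 := sx_hi h 0.41 (-0.108) 0 1.11405 0.4568 hk2 g2 (by norm_num) (abs_nonneg _) (by rw [neg_neg]; exact expn_le (by norm_num) (by norm_num) (by norm_num)) (by norm_num) (by norm_num)
  exact JB8_k0_b1_3 hβ hN hx1 hx2 (by linarith) (by linarith)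

private theorem JB8_k0_b2_0 {β x y : ℝ} (hβ : 0 < β) (hN : β * 22.911 ≤ 1) (hx1 : 0.4557 ≤ x) (hx2 : x ≤ 0.5858)
    (hy1 : -0.439 ≤ y) (hy2 : y ≤ -0.434) : ‖HH β (x + y * I) - 1‖ ≤ 0.07 := by
  refine le_epsJ (C := 1.5982) (N0 := 22.911) (J_boxp 0.4557 0.5858 0.439 0 (-0.434) 0.7192 0.7321 0.8146 1.4798 0.3601 4.7866 22.911 1.018 4.267 1.594 0.7895 0.3595 0.2375 0.4713 2.348 0.3365 1.1309 1.2887 3.6334 0.000265 0.004336 0.00002049 0.0000003101 0.0004492 0.0000003101 0.0000003101 0.0000003101 1.5982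
    hβ hN hx1 hx2 hy1 hy2 (by norm_num) (by norm_num) (by linarith) (by norm_num) (by norm_num) (by norm_num) (by norm_num) (by norm_num) (by norm_num) (by norm_num) (by norm_num) (by norm_num) (by norm_num) (by norm_num) (by norm_num) (by norm_num) (by norm_num) (by norm_num) (by norm_num) (by norm_num) (by norm_num) (by norm_num) (by norm_num) (by norm_num)
    (cube_sqrt_geJ (s := 0.8128) (by norm_num) (by norm_num) (by norm_num) (by norm_num))
    (cube_sqrt_geJ (s := 0.9356) (by norm_num) (by norm_num) (by norm_num) (by norm_num))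
    (by norm_num) (by norm_num) (by norm_num) (by norm_num) (by norm_num) (by norm_num) (by norm_num) (by norm_num) (by norm_num) (by norm_num) (by norm_num) (by norm_num) (by norm_num) (by norm_num) (by norm_num) (by norm_num) (by norm_num) (by norm_num)
    (exp_neg_leJ (r := 0.236) 8 (by norm_num) (by norm_num) (by norm_num) (by norm_num))
    (exp_neg_leJ (r := 0.441) 5 (by norm_num) (by norm_num) (by norm_num) (by norm_num))
    (exp_neg_leJ (r := 0.797) 10 (by norm_num) (by norm_num) (by norm_num) (by norm_num))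
    (exp_neg_leJ (r := 0.99) 14 (by norm_num) (by norm_num) (by norm_num) (by norm_num))
    (exp_neg_leJ (r := 0.709) 7 (by norm_num) (by norm_num) (by norm_num) (by norm_num))
    (exp_neg_leJ (r := 0.99) 14 (by norm_num) (by norm_num) (by norm_num) (by norm_num))
    (exp_neg_leJ (r := 0.99) 14 (by norm_num) (by norm_num) (by norm_num) (by norm_num))
    (exp_neg_leJ (r := 0.99) 14 (by norm_num) (by norm_num) (by norm_num) (by norm_num))
    (by norm_num)) (by norm_num) hN hβ.le (by norm_num)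

private theorem JB8_k0_b2_1 {β x y : ℝ} (hβ : 0 < β) (hN : β * 22.911 ≤ 1) (hx1 : 0.4518 ≤ x) (hx2 : x ≤ 0.5886)
    (hy1 : -0.434 ≤ y) (hy2 : y ≤ -0.424) : ‖HH β (x + y * I) - 1‖ ≤ 0.07 := by
  refine le_epsJ (C := 1.5942) (N0 := 22.911) (J_boxp 0.4518 0.5886 0.434 0 (-0.424) 0.72 0.7314 0.8236 1.4855 0.3621 4.7866 22.911 1.0159 4.251 1.592 0.7931 0.3599 0.238 0.4778 2.363 0.3373 1.1255 1.2945 3.6275 0.0002626 0.004289 0.00001768 0.0000003101 0.0004412 0.0000003101 0.0000003101 0.0000003101 1.5942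
    hβ hN hx1 hx2 hy1 hy2 (by norm_num) (by norm_num) (by linarith) (by norm_num) (by norm_num) (by norm_num) (by norm_num) (by norm_num) (by norm_num) (by norm_num) (by norm_num) (by norm_num) (by norm_num) (by norm_num) (by norm_num) (by norm_num) (by norm_num) (by norm_num) (by norm_num) (by norm_num) (by norm_num) (by norm_num) (by norm_num) (by norm_num)
    (cube_sqrt_geJ (s := 0.8132) (by norm_num) (by norm_num) (by norm_num) (by norm_num))
    (cube_sqrt_geJ (s := 0.9357) (by norm_num) (by norm_num) (by norm_num) (by norm_num))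
    (by norm_num) (by norm_num) (by norm_num) (by norm_num) (by norm_num) (by norm_num) (by norm_num) (by norm_num) (by norm_num) (by norm_num) (by norm_num) (by norm_num) (by norm_num) (by norm_num) (by norm_num) (by norm_num) (by norm_num) (by norm_num)
    (exp_neg_leJ (r := 0.245) 8 (by norm_num) (by norm_num) (by norm_num) (by norm_num))
    (exp_neg_leJ (r := 0.452) 5 (by norm_num) (by norm_num) (by norm_num) (by norm_num))
    (exp_neg_leJ (r := 0.946) 10 (by norm_num) (by norm_num) (by norm_num) (by norm_num))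
    (exp_neg_leJ (r := 0.99) 14 (by norm_num) (by norm_num) (by norm_num) (by norm_num))
    (exp_neg_leJ (r := 0.727) 7 (by norm_num) (by norm_num) (by norm_num) (by norm_num))
    (exp_neg_leJ (r := 0.99) 14 (by norm_num) (by norm_num) (by norm_num) (by norm_num))
    (exp_neg_leJ (r := 0.99) 14 (by norm_num) (by norm_num) (by norm_num) (by norm_num))
    (exp_neg_leJ (r := 0.99) 14 (by norm_num) (by norm_num) (by norm_num) (by norm_num))
    (by norm_num)) (by norm_num) hN hβ.le (by norm_num)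

private theorem JB8_k0_b2_2 {β x y : ℝ} (hβ : 0 < β) (hN : β * 22.911 ≤ 1) (hx1 : 0.4442 ≤ x) (hx2 : x ≤ 0.5938)
    (hy1 : -0.424 ≤ y) (hy2 : y ≤ -0.404) : ‖HH β (x + y * I) - 1‖ ≤ 0.07 := by
  refine le_epsJ (C := 1.5828) (N0 := 22.911) (J_boxp 0.4442 0.5938 0.424 0 (-0.404) 0.7217 0.7297 0.8414 1.4962 0.366 4.7866 22.911 1.0111 4.215 1.589 0.8003 0.3608 0.2392 0.491 2.3933 0.3391 1.115 1.3065 3.6169 0.0002572 0.00417 0.00001303 0.0000003101 0.0004232 0.0000003101 0.0000003101 0.0000003101 1.5828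
    hβ hN hx1 hx2 hy1 hy2 (by norm_num) (by norm_num) (by linarith) (by norm_num) (by norm_num) (by norm_num) (by norm_num) (by norm_num) (by norm_num) (by norm_num) (by norm_num) (by norm_num) (by norm_num) (by norm_num) (by norm_num) (by norm_num) (by norm_num) (by norm_num) (by norm_num) (by norm_num) (by norm_num) (by norm_num) (by norm_num) (by norm_num)
    (cube_sqrt_geJ (s := 0.8142) (by norm_num) (by norm_num) (by norm_num) (by norm_num))
    (cube_sqrt_geJ (s := 0.936) (by norm_num) (by norm_num) (by norm_num) (by norm_num))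
    (by norm_num) (by norm_num) (by norm_num) (by norm_num) (by norm_num) (by norm_num) (by norm_num) (by norm_num) (by norm_num) (by norm_num) (by norm_num) (by norm_num) (by norm_num) (by norm_num) (by norm_num) (by norm_num) (by norm_num) (by norm_num)
    (exp_neg_leJ (r := 0.266) 8 (by norm_num) (by norm_num) (by norm_num) (by norm_num))
    (exp_neg_leJ (r := 0.48) 5 (by norm_num) (by norm_num) (by norm_num) (by norm_num))
    (exp_neg_leJ (r := 0.249) 11 (by norm_num) (by norm_num) (by norm_num) (by norm_num))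
    (exp_neg_leJ (r := 0.99) 14 (by norm_num) (by norm_num) (by norm_num) (by norm_num))
    (exp_neg_leJ (r := 0.769) 7 (by norm_num) (by norm_num) (by norm_num) (by norm_num))
    (exp_neg_leJ (r := 0.99) 14 (by norm_num) (by norm_num) (by norm_num) (by norm_num))
    (exp_neg_leJ (r := 0.99) 14 (by norm_num) (by norm_num) (by norm_num) (by norm_num))
    (exp_neg_leJ (r := 0.99) 14 (by norm_num) (by norm_num) (by norm_num) (by norm_num))
    (by norm_num)) (by norm_num) hN hβ.le (by norm_num)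

private theorem JB8_k0_b2_3 {β x y : ℝ} (hβ : 0 < β) (hN : β * 22.911 ≤ 1) (hx1 : 0.4259 ≤ x) (hx2 : x ≤ 0.6056)
    (hy1 : -0.404 ≤ y) (hy2 : y ≤ -0.359) : ‖HH β (x + y * I) - 1‖ ≤ 0.07 := by
  refine le_epsJ (C := 1.5961) (N0 := 22.911) (J_boxp 0.4259 0.6056 0.404 0 (-0.359) 0.723 0.728 0.8819 1.5276 0.3747 4.7866 22.911 1.007 4.185 1.585 0.8142 0.3614 0.2401 0.5163 2.4529 0.3411 1.0897 1.3243 3.5849 0.0002536 0.004088 0.00000731 0.0000003101 0.0004047 0.0000003101 0.0000003101 0.0000003101 1.5961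
    hβ hN hx1 hx2 hy1 hy2 (by norm_num) (by norm_num) (by linarith) (by norm_num) (by norm_num) (by norm_num) (by norm_num) (by norm_num) (by norm_num) (by norm_num) (by norm_num) (by norm_num) (by norm_num) (by norm_num) (by norm_num) (by norm_num) (by norm_num) (by norm_num) (by norm_num) (by norm_num) (by norm_num) (by norm_num) (by norm_num) (by norm_num)
    (cube_sqrt_geJ (s := 0.815) (by norm_num) (by norm_num) (by norm_num) (by norm_num))
    (cube_sqrt_geJ (s := 0.9363) (by norm_num) (by norm_num) (by norm_num) (by norm_num))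
    (by norm_num) (by norm_num) (by norm_num) (by norm_num) (by norm_num) (by norm_num) (by norm_num) (by norm_num) (by norm_num) (by norm_num) (by norm_num) (by norm_num) (by norm_num) (by norm_num) (by norm_num) (by norm_num) (by norm_num) (by norm_num)
    (exp_neg_leJ (r := 0.28) 8 (by norm_num) (by norm_num) (by norm_num) (by norm_num))
    (exp_neg_leJ (r := 0.5) 5 (by norm_num) (by norm_num) (by norm_num) (by norm_num))
    (exp_neg_leJ (r := 0.828) 11 (by norm_num) (by norm_num) (by norm_num) (by norm_num))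
    (exp_neg_leJ (r := 0.99) 14 (by norm_num) (by norm_num) (by norm_num) (by norm_num))
    (exp_neg_leJ (r := 0.814) 7 (by norm_num) (by norm_num) (by norm_num) (by norm_num))
    (exp_neg_leJ (r := 0.99) 14 (by norm_num) (by norm_num) (by norm_num) (by norm_num))
    (exp_neg_leJ (r := 0.99) 14 (by norm_num) (by norm_num) (by norm_num) (by norm_num))
    (exp_neg_leJ (r := 0.99) 14 (by norm_num) (by norm_num) (by norm_num) (by norm_num))
    (by norm_num)) (by norm_num) hN hβ.le (by norm_num)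

private theorem JB8_k0_b2_4 {β x y : ℝ} (hβ : 0 < β) (hN : β * 22.911 ≤ 1) (hx1 : 0.3879 ≤ x) (hx2 : x ≤ 0.6233)
    (hy1 : -0.359 ≤ y) (hy2 : y ≤ -0.254) : ‖HH β (x + y * I) - 1‖ ≤ 0.07 := by
  refine le_epsJ (C := 1.5667) (N0 := 22.911) (J_boxp 0.3879 0.6233 0.359 0 (-0.254) 0.7282 0.7193 0.9722 1.5868 0.3934 4.7866 22.911 0.9878 4.047 1.571 0.849 0.364 0.2442 0.5743 2.591 0.3473 1.037 1.3706 3.5326 0.0002391 0.003722 0.000001932 0.0000003101 0.0003517 0.0000003101 0.0000003101 0.0000003101 1.5667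
    hβ hN hx1 hx2 hy1 hy2 (by norm_num) (by norm_num) (by linarith) (by norm_num) (by norm_num) (by norm_num) (by norm_num) (by norm_num) (by norm_num) (by norm_num) (by norm_num) (by norm_num) (by norm_num) (by norm_num) (by norm_num) (by norm_num) (by norm_num) (by norm_num) (by norm_num) (by norm_num) (by norm_num) (by norm_num) (by norm_num) (by norm_num)
    (cube_sqrt_geJ (s := 0.8189) (by norm_num) (by norm_num) (by norm_num) (by norm_num))
    (cube_sqrt_geJ (s := 0.9375) (by norm_num) (by norm_num) (by norm_num) (by norm_num))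
    (by norm_num) (by norm_num) (by norm_num) (by norm_num) (by norm_num) (by norm_num) (by norm_num) (by norm_num) (by norm_num) (by norm_num) (by norm_num) (by norm_num) (by norm_num) (by norm_num) (by norm_num) (by norm_num) (by norm_num) (by norm_num)
    (exp_neg_leJ (r := 0.339) 8 (by norm_num) (by norm_num) (by norm_num) (by norm_num))
    (exp_neg_leJ (r := 0.594) 5 (by norm_num) (by norm_num) (by norm_num) (by norm_num))
    (exp_neg_leJ (r := 0.157) 13 (by norm_num) (by norm_num) (by norm_num) (by norm_num))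
    (exp_neg_leJ (r := 0.99) 14 (by norm_num) (by norm_num) (by norm_num) (by norm_num))
    (exp_neg_leJ (r := 0.956) 7 (by norm_num) (by norm_num) (by norm_num) (by norm_num))
    (exp_neg_leJ (r := 0.99) 14 (by norm_num) (by norm_num) (by norm_num) (by norm_num))
    (exp_neg_leJ (r := 0.99) 14 (by norm_num) (by norm_num) (by norm_num) (by norm_num))
    (exp_neg_leJ (r := 0.99) 14 (by norm_num) (by norm_num) (by norm_num) (by norm_num))
    (by norm_num)) (by norm_num) hN hβ.le (by norm_num)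

private theorem JB8_k0_b2_5 {β x y : ℝ} (hβ : 0 < β) (hN : β * 22.911 ≤ 1) (hx1 : 0.3135 ≤ x) (hx2 : x ≤ 0.606)
    (hy1 : -0.254 ≤ y) (hy2 : y ≤ 0.016) : ‖HH β (x + y * I) - 1‖ ≤ 0.07 := by
  refine le_epsJ (C := 1.1879) (N0 := 22.911) (J_boxp 0.3135 0.606 0.254 0.016 0.016 0.7504 0.6571 1.1831 1.6733 0.434 4.7866 22.911 0.8757 3.348 1.488 0.9525 0.3751 0.2656 0.7146 2.9427 0.3669 0.9324 1.4386 3.4775 0.0001855 0.002277 0.0000003101 0.0000003101 0.0002236 0.0000003101 0.0000003101 0.0000003101 1.1879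
    hβ hN hx1 hx2 hy1 hy2 (by norm_num) (by norm_num) (by linarith) (by norm_num) (by norm_num) (by norm_num) (by norm_num) (by norm_num) (by norm_num) (by norm_num) (by norm_num) (by norm_num) (by norm_num) (by norm_num) (by norm_num) (by norm_num) (by norm_num) (by norm_num) (by norm_num) (by norm_num) (by norm_num) (by norm_num) (by norm_num) (by norm_num)
    (cube_sqrt_geJ (s := 0.8414) (by norm_num) (by norm_num) (by norm_num) (by norm_num))
    (cube_sqrt_geJ (s := 0.9448) (by norm_num) (by norm_num) (by norm_num) (by norm_num))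
    (by norm_num) (by norm_num) (by norm_num) (by norm_num) (by norm_num) (by norm_num) (by norm_num) (by norm_num) (by norm_num) (by norm_num) (by norm_num) (by norm_num) (by norm_num) (by norm_num) (by norm_num) (by norm_num) (by norm_num) (by norm_num)
    (exp_neg_leJ (r := 0.593) 8 (by norm_num) (by norm_num) (by norm_num) (by norm_num))
    (exp_neg_leJ (r := 0.085) 6 (by norm_num) (by norm_num) (by norm_num) (by norm_num))
    (exp_neg_leJ (r := 0.99) 14 (by norm_num) (by norm_num) (by norm_num) (by norm_num))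
    (exp_neg_leJ (r := 0.99) 14 (by norm_num) (by norm_num) (by norm_num) (by norm_num))
    (exp_neg_leJ (r := 0.406) 8 (by norm_num) (by norm_num) (by norm_num) (by norm_num))
    (exp_neg_leJ (r := 0.99) 14 (by norm_num) (by norm_num) (by norm_num) (by norm_num))
    (exp_neg_leJ (r := 0.99) 14 (by norm_num) (by norm_num) (by norm_num) (by norm_num))
    (exp_neg_leJ (r := 0.99) 14 (by norm_num) (by norm_num) (by norm_num) (by norm_num))
    (by norm_num)) (by norm_num) hN hβ.le (by norm_num)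

theorem JB8_k0_c2 {κ t β : ℝ} (h : DomR κ t) (hβ : 0 < β) (hk1 : 0.41 ≤ κ) (hk2 : κ ≤ 0.47)
    (ht1 : -0.7465 ≤ t + κ) (ht2 : t + κ ≤ 0.04) (hR0 : β * 10 ≤ κ) (hR : β * (8.82 * (1 + κ ^ 2)) ≤ κ) :
    ‖HH β (sg κ t) - 1‖ ≤ 0.07 := by
  have hN : β * 22.911 ≤ 1 := bNC hβ h.1 hk2 (by norm_num) (by norm_num) hR (by norm_num)
  have hy1 : -0.439 ≤ sy κ t := syL_ge2 h 0.41 0.47 0.7465 0.439 0.64468 0.64469 0.5801 0.60215 0.6903 hk1 hk2 (by linarith) (by norm_num) (by norm_num) (by norm_num)
    (expm_ge (by norm_num) (by norm_num) (by norm_num) (by norm_num)) (expm_le (by norm_num) (by norm_num) (by norm_num)) (by norm_num)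
    (by norm_num) (by norm_num) (by norm_num) (by norm_num) (by norm_num) (by norm_num)
  have hy2 : sy κ t ≤ 0.016 := syR_le h 0.41 0.47 0.04 0.016 1.01612 0.0333 0.03459 0.03966 hk1 hk2 (by linarith) (by norm_num) (by norm_num)
    (expn_ge (by norm_num) (by norm_num)) (by norm_num) (by norm_num) (Or.inr ((mul_le_mul_of_nonneg_left (expn_le (E := 1.01613) (by norm_num) (by norm_num) (by norm_num)) (by norm_num)).trans (by norm_num))) (by norm_num) (by norm_num) (by norm_num)
  rcases le_total (sy κ t) (-0.434) with f0 | g0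
  · have hx1 : 0.4557 ≤ sx κ t := sx_lo h 0.41 (-0.434) 0.439 1.54341 0.4557 hk1 (by norm_num) f0 (abs_le.2 ⟨by linarith, by linarith⟩) (by rw [neg_neg]; exact expn_ge (by norm_num) (by norm_num)) (by norm_num) (by norm_num)
    have hx2 : sx κ t ≤ 0.5858 := sx_hi h 0.47 (-0.439) 0.434 1.55116 0.5858 hk2 hy1 (by norm_num) (by rw [abs_of_nonpos (by linarith)]; linarith) (by rw [neg_neg]; exact expn_le (by norm_num) (by norm_num) (by norm_num)) (by norm_num) (by norm_num)
    exact JB8_k0_b2_0 hβ hN hx1 hx2 (by linarith) (by linarith)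
  rcases le_total (sy κ t) (-0.424) with f1 | g1
  · have hx1 : 0.4518 ≤ sx κ t := sx_lo h 0.41 (-0.424) 0.434 1.52806 0.4518 hk1 (by norm_num) f1 (abs_le.2 ⟨by linarith, by linarith⟩) (by rw [neg_neg]; exact expn_ge (by norm_num) (by norm_num)) (by norm_num) (by norm_num)
    have hx2 : sx κ t ≤ 0.5886 := sx_hi h 0.47 (-0.434) 0.424 1.54342 0.5886 hk2 g0 (by norm_num) (by rw [abs_of_nonpos (by linarith)]; linarith) (by rw [neg_neg]; exact expn_le (by norm_num) (by norm_num) (by norm_num)) (by norm_num) (by norm_num)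
    exact JB8_k0_b2_1 hβ hN hx1 hx2 (by linarith) (by linarith)
  rcases le_total (sy κ t) (-0.404) with f2 | g2
  · have hx1 : 0.4442 ≤ sx κ t := sx_lo h 0.41 (-0.404) 0.424 1.4978 0.4442 hk1 (by norm_num) f2 (abs_le.2 ⟨by linarith, by linarith⟩) (by rw [neg_neg]; exact expn_ge (by norm_num) (by norm_num)) (by norm_num) (by norm_num)
    have hx2 : sx κ t ≤ 0.5938 := sx_hi h 0.47 (-0.424) 0.404 1.52807 0.5938 hk2 g1 (by norm_num) (by rw [abs_of_nonpos (by linarith)]; linarith) (by rw [neg_neg]; exact expn_le (by norm_num) (by norm_num) (by norm_num)) (by norm_num) (by norm_num)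
    exact JB8_k0_b2_2 hβ hN hx1 hx2 (by linarith) (by linarith)
  rcases le_total (sy κ t) (-0.359) with f3 | g3
  · have hx1 : 0.4259 ≤ sx κ t := sx_lo h 0.41 (-0.359) 0.404 1.43189 0.4259 hk1 (by norm_num) f3 (abs_le.2 ⟨by linarith, by linarith⟩) (by rw [neg_neg]; exact expn_ge (by norm_num) (by norm_num)) (by norm_num) (by norm_num)
    have hx2 : sx κ t ≤ 0.6056 := sx_hi h 0.47 (-0.404) 0.359 1.49781 0.6056 hk2 g2 (by norm_num) (by rw [abs_of_nonpos (by linarith)]; linarith) (by rw [neg_neg]; exact expn_le (by norm_num) (by norm_num) (by norm_num)) (by norm_num) (by norm_num)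
    exact JB8_k0_b2_3 hβ hN hx1 hx2 (by linarith) (by linarith)
  rcases le_total (sy κ t) (-0.254) with f4 | g4
  · have hx1 : 0.3879 ≤ sx κ t := sx_lo h 0.41 (-0.254) 0.359 1.28917 0.3879 hk1 (by norm_num) f4 (abs_le.2 ⟨by linarith, by linarith⟩) (by rw [neg_neg]; exact expn_ge (by norm_num) (by norm_num)) (by norm_num) (by norm_num)
    have hx2 : sx κ t ≤ 0.6233 := sx_hi h 0.47 (-0.359) 0.254 1.4319 0.6233 hk2 g3 (by norm_num) (by rw [abs_of_nonpos (by linarith)]; linarith) (by rw [neg_neg]; exact expn_le (by norm_num) (by norm_num) (by norm_num)) (by norm_num) (by norm_num)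
    exact JB8_k0_b2_4 hβ hN hx1 hx2 (by linarith) (by linarith)
  have hx1 : 0.3135 ≤ sx κ t := sx_lo h 0.41 0.016 0.254 0.98412 0.3135 hk1 (by norm_num) hy2 (abs_le.2 ⟨by linarith, by linarith⟩) (expm_ge (by norm_num) (by norm_num) (by norm_num) (by norm_num)) (by norm_num) (by norm_num)
  have hx2 : sx κ t ≤ 0.606 := sx_hi h 0.47 (-0.254) 0 1.28918 0.606 hk2 g4 (by norm_num) (abs_nonneg _) (by rw [neg_neg]; exact expn_le (by norm_num) (by norm_num) (by norm_num)) (by norm_num) (by norm_num)
  exact JB8_k0_b2_5 hβ hN hx1 hx2 (by linarith) (by linarith)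

private theorem JB8_k0_b3_0 {β x y : ℝ} (hβ : 0 < β) (hN : β * 21.792 ≤ 1) (hx1 : 0.5708 ≤ x) (hx2 : x ≤ 0.6734)
    (hy1 : -0.457 ≤ y) (hy2 : y ≤ -0.442) : ‖HH β (x + y * I) - 1‖ ≤ 0.07 := by
  refine le_epsJ (C := 1.4881) (N0 := 21.792) (J_boxp 0.5708 0.6734 0.457 0 (-0.442) 0.7874 0.8139 0.8746 1.3385 0.3731 4.6682 21.792 1.0337 4.388 1.606 0.7392 0.3936 0.258 0.4823 2.2425 0.3826 1.2903 1.47 3.6412 0.0001885 0.00362 0.00002727 0.0000003101 0.0002395 0.0000003101 0.0000003101 0.0000003101 1.4881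
    hβ hN hx1 hx2 hy1 hy2 (by norm_num) (by norm_num) (by linarith) (by norm_num) (by norm_num) (by norm_num) (by norm_num) (by norm_num) (by norm_num) (by norm_num) (by norm_num) (by norm_num) (by norm_num) (by norm_num) (by norm_num) (by norm_num) (by norm_num) (by norm_num) (by norm_num) (by norm_num) (by norm_num) (by norm_num) (by norm_num) (by norm_num)
    (cube_sqrt_geJ (s := 0.8095) (by norm_num) (by norm_num) (by norm_num) (by norm_num))
    (cube_sqrt_geJ (s := 0.9345) (by norm_num) (by norm_num) (by norm_num) (by norm_num))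
    (by norm_num) (by norm_num) (by norm_num) (by norm_num) (by norm_num) (by norm_num) (by norm_num) (by norm_num) (by norm_num) (by norm_num) (by norm_num) (by norm_num) (by norm_num) (by norm_num) (by norm_num) (by norm_num) (by norm_num) (by norm_num)
    (exp_neg_leJ (r := 0.577) 8 (by norm_num) (by norm_num) (by norm_num) (by norm_num))
    (exp_neg_leJ (r := 0.622) 5 (by norm_num) (by norm_num) (by norm_num) (by norm_num))
    (exp_neg_leJ (r := 0.51) 10 (by norm_num) (by norm_num) (by norm_num) (by norm_num))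
    (exp_neg_leJ (r := 0.99) 14 (by norm_num) (by norm_num) (by norm_num) (by norm_num))
    (exp_neg_leJ (r := 0.337) 8 (by norm_num) (by norm_num) (by norm_num) (by norm_num))
    (exp_neg_leJ (r := 0.99) 14 (by norm_num) (by norm_num) (by norm_num) (by norm_num))
    (exp_neg_leJ (r := 0.99) 14 (by norm_num) (by norm_num) (by norm_num) (by norm_num))
    (exp_neg_leJ (r := 0.99) 14 (by norm_num) (by norm_num) (by norm_num) (by norm_num))
    (by norm_num)) (by norm_num) hN hβ.le (by norm_num)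

private theorem JB8_k0_b3_1 {β x y : ℝ} (hβ : 0 < β) (hN : β * 21.792 ≤ 1) (hx1 : 0.5551 ≤ x) (hx2 : x ≤ 0.6782)
    (hy1 : -0.442 ≤ y) (hy2 : y ≤ -0.412) : ‖HH β (x + y * I) - 1‖ ≤ 0.07 := by
  refine le_epsJ (C := 1.4887) (N0 := 21.792) (J_boxp 0.5551 0.6782 0.442 0 (-0.412) 0.787 0.8096 0.8977 1.3571 0.378 4.6682 21.792 1.0288 4.35 1.603 0.7512 0.3934 0.2585 0.5006 2.2892 0.3831 1.2685 1.4794 3.6215 0.0001894 0.00358 0.00001834 0.0000003101 0.0002369 0.0000003101 0.0000003101 0.0000003101 1.4887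
    hβ hN hx1 hx2 hy1 hy2 (by norm_num) (by norm_num) (by linarith) (by norm_num) (by norm_num) (by norm_num) (by norm_num) (by norm_num) (by norm_num) (by norm_num) (by norm_num) (by norm_num) (by norm_num) (by norm_num) (by norm_num) (by norm_num) (by norm_num) (by norm_num) (by norm_num) (by norm_num) (by norm_num) (by norm_num) (by norm_num) (by norm_num)
    (cube_sqrt_geJ (s := 0.8105) (by norm_num) (by norm_num) (by norm_num) (by norm_num))
    (cube_sqrt_geJ (s := 0.9348) (by norm_num) (by norm_num) (by norm_num) (by norm_num))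
    (by norm_num) (by norm_num) (by norm_num) (by norm_num) (by norm_num) (by norm_num) (by norm_num) (by norm_num) (by norm_num) (by norm_num) (by norm_num) (by norm_num) (by norm_num) (by norm_num) (by norm_num) (by norm_num) (by norm_num) (by norm_num)
    (exp_neg_leJ (r := 0.572) 8 (by norm_num) (by norm_num) (by norm_num) (by norm_num))
    (exp_neg_leJ (r := 0.633) 5 (by norm_num) (by norm_num) (by norm_num) (by norm_num))
    (exp_neg_leJ (r := 0.909) 10 (by norm_num) (by norm_num) (by norm_num) (by norm_num))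
    (exp_neg_leJ (r := 0.99) 14 (by norm_num) (by norm_num) (by norm_num) (by norm_num))
    (exp_neg_leJ (r := 0.348) 8 (by norm_num) (by norm_num) (by norm_num) (by norm_num))
    (exp_neg_leJ (r := 0.99) 14 (by norm_num) (by norm_num) (by norm_num) (by norm_num))
    (exp_neg_leJ (r := 0.99) 14 (by norm_num) (by norm_num) (by norm_num) (by norm_num))
    (exp_neg_leJ (r := 0.99) 14 (by norm_num) (by norm_num) (by norm_num) (by norm_num))
    (by norm_num)) (by norm_num) hN hβ.le (by norm_num)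

private theorem JB8_k0_b3_2 {β x y : ℝ} (hβ : 0 < β) (hN : β * 21.792 ≤ 1) (hx1 : 0.5219 ≤ x) (hx2 : x ≤ 0.6875)
    (hy1 : -0.412 ≤ y) (hy2 : y ≤ -0.347) : ‖HH β (x + y * I) - 1‖ ≤ 0.07 := by
  refine le_epsJ (C := 1.5037) (N0 := 21.792) (J_boxp 0.5219 0.6875 0.412 0 (-0.347) 0.785 0.8015 0.9482 1.4001 0.3885 4.6682 21.792 1.0211 4.291 1.596 0.7753 0.3924 0.2589 0.5366 2.3827 0.3834 1.2226 1.4945 3.5771 0.0001935 0.003552 0.000008359 0.0000003101 0.0002353 0.0000003101 0.0000003101 0.0000003101 1.5037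
    hβ hN hx1 hx2 hy1 hy2 (by norm_num) (by norm_num) (by linarith) (by norm_num) (by norm_num) (by norm_num) (by norm_num) (by norm_num) (by norm_num) (by norm_num) (by norm_num) (by norm_num) (by norm_num) (by norm_num) (by norm_num) (by norm_num) (by norm_num) (by norm_num) (by norm_num) (by norm_num) (by norm_num) (by norm_num) (by norm_num) (by norm_num)
    (cube_sqrt_geJ (s := 0.8121) (by norm_num) (by norm_num) (by norm_num) (by norm_num))
    (cube_sqrt_geJ (s := 0.9354) (by norm_num) (by norm_num) (by norm_num) (by norm_num))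
    (by norm_num) (by norm_num) (by norm_num) (by norm_num) (by norm_num) (by norm_num) (by norm_num) (by norm_num) (by norm_num) (by norm_num) (by norm_num) (by norm_num) (by norm_num) (by norm_num) (by norm_num) (by norm_num) (by norm_num) (by norm_num)
    (exp_neg_leJ (r := 0.551) 8 (by norm_num) (by norm_num) (by norm_num) (by norm_num))
    (exp_neg_leJ (r := 0.641) 5 (by norm_num) (by norm_num) (by norm_num) (by norm_num))
    (exp_neg_leJ (r := 0.693) 11 (by norm_num) (by norm_num) (by norm_num) (by norm_num))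
    (exp_neg_leJ (r := 0.99) 14 (by norm_num) (by norm_num) (by norm_num) (by norm_num))
    (exp_neg_leJ (r := 0.355) 8 (by norm_num) (by norm_num) (by norm_num) (by norm_num))
    (exp_neg_leJ (r := 0.99) 14 (by norm_num) (by norm_num) (by norm_num) (by norm_num))
    (exp_neg_leJ (r := 0.99) 14 (by norm_num) (by norm_num) (by norm_num) (by norm_num))
    (exp_neg_leJ (r := 0.99) 14 (by norm_num) (by norm_num) (by norm_num) (by norm_num))
    (by norm_num)) (by norm_num) hN hβ.le (by norm_num)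

private theorem JB8_k0_b3_3 {β x y : ℝ} (hβ : 0 < β) (hN : β * 21.792 ≤ 1) (hx1 : 0.4515 ≤ x) (hx2 : x ≤ 0.6956)
    (hy1 : -0.347 ≤ y) (hy2 : y ≤ -0.192) : ‖HH β (x + y * I) - 1‖ ≤ 0.07 := by
  refine le_epsJ (C := 1.493) (N0 := 21.792) (J_boxp 0.4515 0.6956 0.347 0 (-0.192) 0.7815 0.7774 1.0662 1.4947 0.412 4.6682 21.792 0.9948 4.097 1.576 0.8322 0.3907 0.2611 0.6151 2.5907 0.3847 1.1251 1.5304 3.5018 0.0002007 0.003386 0.00000151 0.0000003101 0.0002288 0.0000003101 0.0000003101 0.0000003101 1.493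
    hβ hN hx1 hx2 hy1 hy2 (by norm_num) (by norm_num) (by linarith) (by norm_num) (by norm_num) (by norm_num) (by norm_num) (by norm_num) (by norm_num) (by norm_num) (by norm_num) (by norm_num) (by norm_num) (by norm_num) (by norm_num) (by norm_num) (by norm_num) (by norm_num) (by norm_num) (by norm_num) (by norm_num) (by norm_num) (by norm_num) (by norm_num)
    (cube_sqrt_geJ (s := 0.8175) (by norm_num) (by norm_num) (by norm_num) (by norm_num))
    (cube_sqrt_geJ (s := 0.9371) (by norm_num) (by norm_num) (by norm_num) (by norm_num))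
    (by norm_num) (by norm_num) (by norm_num) (by norm_num) (by norm_num) (by norm_num) (by norm_num) (by norm_num) (by norm_num) (by norm_num) (by norm_num) (by norm_num) (by norm_num) (by norm_num) (by norm_num) (by norm_num) (by norm_num) (by norm_num)
    (exp_neg_leJ (r := 0.514) 8 (by norm_num) (by norm_num) (by norm_num) (by norm_num))
    (exp_neg_leJ (r := 0.689) 5 (by norm_num) (by norm_num) (by norm_num) (by norm_num))
    (exp_neg_leJ (r := 0.404) 13 (by norm_num) (by norm_num) (by norm_num) (by norm_num))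
    (exp_neg_leJ (r := 0.99) 14 (by norm_num) (by norm_num) (by norm_num) (by norm_num))
    (exp_neg_leJ (r := 0.383) 8 (by norm_num) (by norm_num) (by norm_num) (by norm_num))
    (exp_neg_leJ (r := 0.99) 14 (by norm_num) (by norm_num) (by norm_num) (by norm_num))
    (exp_neg_leJ (r := 0.99) 14 (by norm_num) (by norm_num) (by norm_num) (by norm_num))
    (exp_neg_leJ (r := 0.99) 14 (by norm_num) (by norm_num) (by norm_num) (by norm_num))
    (by norm_num)) (by norm_num) hN hβ.le (by norm_num)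

private theorem JB8_k0_b3_4 {β x y : ℝ} (hβ : 0 < β) (hN : β * 21.792 ≤ 1) (hx1 : 0.4208 ≤ x) (hx2 : x ≤ 0.618)
    (hy1 : -0.192 ≤ y) (hy2 : y ≤ 0.016) : ‖HH β (x + y * I) - 1‖ ≤ 0.07 := by
  refine le_epsJ (C := 0.6254) (N0 := 21.792) (J_boxp 0.4208 0.618 0.192 0.016 0.016 0.87 0.6472 1.1892 1.3439 0.4351 4.6682 21.792 0.744 2.712 1.398 1.0051 0.4349 0.3271 0.8492 3.1363 0.4528 1.081 1.8217 3.719 0.00007661 0.0008024 0.0000003101 0.0000003101 0.00005197 0.0000003101 0.0000003101 0.0000003101 0.6254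
    hβ hN hx1 hx2 hy1 hy2 (by norm_num) (by norm_num) (by linarith) (by norm_num) (by norm_num) (by norm_num) (by norm_num) (by norm_num) (by norm_num) (by norm_num) (by norm_num) (by norm_num) (by norm_num) (by norm_num) (by norm_num) (by norm_num) (by norm_num) (by norm_num) (by norm_num) (by norm_num) (by norm_num) (by norm_num) (by norm_num) (by norm_num)
    (cube_sqrt_geJ (s := 0.8671) (by norm_num) (by norm_num) (by norm_num) (by norm_num))
    (cube_sqrt_geJ (s := 0.9533) (by norm_num) (by norm_num) (by norm_num) (by norm_num))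
    (by norm_num) (by norm_num) (by norm_num) (by norm_num) (by norm_num) (by norm_num) (by norm_num) (by norm_num) (by norm_num) (by norm_num) (by norm_num) (by norm_num) (by norm_num) (by norm_num) (by norm_num) (by norm_num) (by norm_num) (by norm_num)
    (exp_neg_leJ (r := 0.477) 9 (by norm_num) (by norm_num) (by norm_num) (by norm_num))
    (exp_neg_leJ (r := 0.128) 7 (by norm_num) (by norm_num) (by norm_num) (by norm_num))
    (exp_neg_leJ (r := 0.99) 14 (by norm_num) (by norm_num) (by norm_num) (by norm_num))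
    (exp_neg_leJ (r := 0.99) 14 (by norm_num) (by norm_num) (by norm_num) (by norm_num))
    (exp_neg_leJ (r := 0.867) 9 (by norm_num) (by norm_num) (by norm_num) (by norm_num))
    (exp_neg_leJ (r := 0.99) 14 (by norm_num) (by norm_num) (by norm_num) (by norm_num))
    (exp_neg_leJ (r := 0.99) 14 (by norm_num) (by norm_num) (by norm_num) (by norm_num))
    (exp_neg_leJ (r := 0.99) 14 (by norm_num) (by norm_num) (by norm_num) (by norm_num))
    (by norm_num)) (by norm_num) hN hβ.le (by norm_num)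

theorem JB8_k0_c3 {κ t β : ℝ} (h : DomR κ t) (hβ : 0 < β) (hk1 : 0.47 ≤ κ) (hk2 : κ ≤ 0.51)
    (ht1 : -0.7465 ≤ t + κ) (ht2 : t + κ ≤ 0.04) (hR0 : β * 10 ≤ κ) (hR : β * (8.82 * (1 + κ ^ 2)) ≤ κ) :
    ‖HH β (sg κ t) - 1‖ ≤ 0.07 := by
  have hN : β * 21.792 ≤ 1 := bNC hβ h.1 hk2 (by norm_num) (by norm_num) hR (by norm_num)
  have hy1 : -0.457 ≤ sy κ t := syL_ge h 0.47 0.51 0.7465 0.457 0.63318 0.63319 0.5552 0.56737 0.61568 hk1 hk2 (by linarith) (by norm_num) (by norm_num) (by norm_num)
    (expm_ge (by norm_num) (by norm_num) (by norm_num) (by norm_num)) (expm_le (by norm_num) (by norm_num) (by norm_num)) (by norm_num)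
    (by norm_num) (by norm_num) (by norm_num) (by norm_num) (by norm_num) (by norm_num)
  have hy2 : sy κ t ≤ 0.016 := syR_le h 0.47 0.51 0.04 0.016 1.01612 0.0311 0.03187 0.0346 hk1 hk2 (by linarith) (by norm_num) (by norm_num)
    (expn_ge (by norm_num) (by norm_num)) (by norm_num) (by norm_num) (Or.inr ((mul_le_mul_of_nonneg_left (expn_le (E := 1.01613) (by norm_num) (by norm_num) (by norm_num)) (by norm_num)).trans (by norm_num))) (by norm_num) (by norm_num) (by norm_num)
  rcases le_total (sy κ t) (-0.442) with f0 | g0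
  · have hx1 : 0.5708 ≤ sx κ t := sx_lo h 0.47 (-0.442) 0.457 1.55581 0.5708 hk1 (by norm_num) f0 (abs_le.2 ⟨by linarith, by linarith⟩) (by rw [neg_neg]; exact expn_ge (by norm_num) (by norm_num)) (by norm_num) (by norm_num)
    have hx2 : sx κ t ≤ 0.6734 := sx_hi h 0.51 (-0.457) 0.442 1.57933 0.6734 hk2 hy1 (by norm_num) (by rw [abs_of_nonpos (by linarith)]; linarith) (by rw [neg_neg]; exact expn_le (by norm_num) (by norm_num) (by norm_num)) (by norm_num) (by norm_num)
    exact JB8_k0_b3_0 hβ hN hx1 hx2 (by linarith) (by linarith)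
  rcases le_total (sy κ t) (-0.412) with f1 | g1
  · have hx1 : 0.5551 ≤ sx κ t := sx_lo h 0.47 (-0.412) 0.442 1.50983 0.5551 hk1 (by norm_num) f1 (abs_le.2 ⟨by linarith, by linarith⟩) (by rw [neg_neg]; exact expn_ge (by norm_num) (by norm_num)) (by norm_num) (by norm_num)
    have hx2 : sx κ t ≤ 0.6782 := sx_hi h 0.51 (-0.442) 0.412 1.55582 0.6782 hk2 g0 (by norm_num) (by rw [abs_of_nonpos (by linarith)]; linarith) (by rw [neg_neg]; exact expn_le (by norm_num) (by norm_num) (by norm_num)) (by norm_num) (by norm_num)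
    exact JB8_k0_b3_1 hβ hN hx1 hx2 (by linarith) (by linarith)
  rcases le_total (sy κ t) (-0.347) with f2 | g2
  · have hx1 : 0.5219 ≤ sx κ t := sx_lo h 0.47 (-0.347) 0.412 1.41481 0.5219 hk1 (by norm_num) f2 (abs_le.2 ⟨by linarith, by linarith⟩) (by rw [neg_neg]; exact expn_ge (by norm_num) (by norm_num)) (by norm_num) (by norm_num)
    have hx2 : sx κ t ≤ 0.6875 := sx_hi h 0.51 (-0.412) 0.347 1.50984 0.6875 hk2 g1 (by norm_num) (by rw [abs_of_nonpos (by linarith)]; linarith) (by rw [neg_neg]; exact expn_le (by norm_num) (by norm_num) (by norm_num)) (by norm_num) (by norm_num)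
    exact JB8_k0_b3_2 hβ hN hx1 hx2 (by linarith) (by linarith)
  rcases le_total (sy κ t) (-0.192) with f3 | g3
  · have hx1 : 0.4515 ≤ sx κ t := sx_lo h 0.47 (-0.192) 0.347 1.21167 0.4515 hk1 (by norm_num) f3 (abs_le.2 ⟨by linarith, by linarith⟩) (by rw [neg_neg]; exact expn_ge (by norm_num) (by norm_num)) (by norm_num) (by norm_num)
    have hx2 : sx κ t ≤ 0.6956 := sx_hi h 0.51 (-0.347) 0.192 1.41482 0.6956 hk2 g2 (by norm_num) (by rw [abs_of_nonpos (by linarith)]; linarith) (by rw [neg_neg]; exact expn_le (by norm_num) (by norm_num) (by norm_num)) (by norm_num) (by norm_num)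
    exact JB8_k0_b3_3 hβ hN hx1 hx2 (by linarith) (by linarith)
  have hx1 : 0.4208 ≤ sx κ t := sx_lo h 0.47 0.016 0.192 0.98412 0.4208 hk1 (by norm_num) hy2 (abs_le.2 ⟨by linarith, by linarith⟩) (expm_ge (by norm_num) (by norm_num) (by norm_num) (by norm_num)) (by norm_num) (by norm_num)
  have hx2 : sx κ t ≤ 0.618 := sx_hi h 0.51 (-0.192) 0 1.21168 0.618 hk2 g3 (by norm_num) (abs_nonneg _) (by rw [neg_neg]; exact expn_le (by norm_num) (by norm_num) (by norm_num)) (by norm_num) (by norm_num)
  exact JB8_k0_b3_4 hβ hN hx1 hx2 (by linarith) (by linarith)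

private theorem JB8_k0_b4_0 {β x y : ℝ} (hβ : 0 < β) (hN : β * 20.887 ≤ 1) (hx1 : 0.6565 ≤ x) (hx2 : x ≤ 0.7494)
    (hy1 : -0.468 ≤ y) (hy2 : y ≤ -0.458) : ‖HH β (x + y * I) - 1‖ ≤ 0.07 := by
  refine le_epsJ (C := 1.4517) (N0 := 20.887) (J_boxp 0.6565 0.7494 0.468 0 (-0.458) 0.84 0.8836 0.9249 1.2492 0.3837 4.5703 20.887 1.052 4.533 1.621 0.6998 0.4199 0.2727 0.4942 2.1657 0.4182 1.4089 1.6115 3.6232 0.0001556 0.003366 0.00003291 0.0000003101 0.0001612 0.0000003101 0.0000003101 0.0000003101 1.4517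
    hβ hN hx1 hx2 hy1 hy2 (by norm_num) (by norm_num) (by linarith) (by norm_num) (by norm_num) (by norm_num) (by norm_num) (by norm_num) (by norm_num) (by norm_num) (by norm_num) (by norm_num) (by norm_num) (by norm_num) (by norm_num) (by norm_num) (by norm_num) (by norm_num) (by norm_num) (by norm_num) (by norm_num) (by norm_num) (by norm_num) (by norm_num)
    (cube_sqrt_geJ (s := 0.8058) (by norm_num) (by norm_num) (by norm_num) (by norm_num))
    (cube_sqrt_geJ (s := 0.9333) (by norm_num) (by norm_num) (by norm_num) (by norm_num))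
    (by norm_num) (by norm_num) (by norm_num) (by norm_num) (by norm_num) (by norm_num) (by norm_num) (by norm_num) (by norm_num) (by norm_num) (by norm_num) (by norm_num) (by norm_num) (by norm_num) (by norm_num) (by norm_num) (by norm_num) (by norm_num)
    (exp_neg_leJ (r := 0.77) 8 (by norm_num) (by norm_num) (by norm_num) (by norm_num))
    (exp_neg_leJ (r := 0.695) 5 (by norm_num) (by norm_num) (by norm_num) (by norm_num))
    (exp_neg_leJ (r := 0.322) 10 (by norm_num) (by norm_num) (by norm_num) (by norm_num))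
    (exp_neg_leJ (r := 0.99) 14 (by norm_num) (by norm_num) (by norm_num) (by norm_num))
    (exp_neg_leJ (r := 0.734) 8 (by norm_num) (by norm_num) (by norm_num) (by norm_num))
    (exp_neg_leJ (r := 0.99) 14 (by norm_num) (by norm_num) (by norm_num) (by norm_num))
    (exp_neg_leJ (r := 0.99) 14 (by norm_num) (by norm_num) (by norm_num) (by norm_num))
    (exp_neg_leJ (r := 0.99) 14 (by norm_num) (by norm_num) (by norm_num) (by norm_num))
    (by norm_num)) (by norm_num) hN hβ.le (by norm_num)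

private theorem JB8_k0_b4_1 {β x y : ℝ} (hβ : 0 < β) (hN : β * 20.887 ≤ 1) (hx1 : 0.644 ≤ x) (hx2 : x ≤ 0.7512)
    (hy1 : -0.458 ≤ y) (hy2 : y ≤ -0.438) : ‖HH β (x + y * I) - 1‖ ≤ 0.07 := by
  refine le_epsJ (C := 1.458) (N0 := 20.887) (J_boxp 0.644 0.7512 0.458 0 (-0.438) 0.8383 0.8799 0.9382 1.262 0.3865 4.5703 20.887 1.0497 4.515 1.619 0.7084 0.4191 0.2724 0.5057 2.1975 0.4176 1.3916 1.6137 3.6082 0.0001582 0.003386 0.00002589 0.0000003101 0.0001632 0.0000003101 0.0000003101 0.0000003101 1.458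
    hβ hN hx1 hx2 hy1 hy2 (by norm_num) (by norm_num) (by linarith) (by norm_num) (by norm_num) (by norm_num) (by norm_num) (by norm_num) (by norm_num) (by norm_num) (by norm_num) (by norm_num) (by norm_num) (by norm_num) (by norm_num) (by norm_num) (by norm_num) (by norm_num) (by norm_num) (by norm_num) (by norm_num) (by norm_num) (by norm_num) (by norm_num)
    (cube_sqrt_geJ (s := 0.8062) (by norm_num) (by norm_num) (by norm_num) (by norm_num))
    (cube_sqrt_geJ (s := 0.9335) (by norm_num) (by norm_num) (by norm_num) (by norm_num))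
    (by norm_num) (by norm_num) (by norm_num) (by norm_num) (by norm_num) (by norm_num) (by norm_num) (by norm_num) (by norm_num) (by norm_num) (by norm_num) (by norm_num) (by norm_num) (by norm_num) (by norm_num) (by norm_num) (by norm_num) (by norm_num)
    (exp_neg_leJ (r := 0.753) 8 (by norm_num) (by norm_num) (by norm_num) (by norm_num))
    (exp_neg_leJ (r := 0.689) 5 (by norm_num) (by norm_num) (by norm_num) (by norm_num))
    (exp_neg_leJ (r := 0.562) 10 (by norm_num) (by norm_num) (by norm_num) (by norm_num))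
    (exp_neg_leJ (r := 0.99) 14 (by norm_num) (by norm_num) (by norm_num) (by norm_num))
    (exp_neg_leJ (r := 0.722) 8 (by norm_num) (by norm_num) (by norm_num) (by norm_num))
    (exp_neg_leJ (r := 0.99) 14 (by norm_num) (by norm_num) (by norm_num) (by norm_num))
    (exp_neg_leJ (r := 0.99) 14 (by norm_num) (by norm_num) (by norm_num) (by norm_num))
    (exp_neg_leJ (r := 0.99) 14 (by norm_num) (by norm_num) (by norm_num) (by norm_num))
    (by norm_num)) (by norm_num) hN hβ.le (by norm_num)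

private theorem JB8_k0_b4_2 {β x y : ℝ} (hβ : 0 < β) (hN : β * 20.887 ≤ 1) (hx1 : 0.6202 ≤ x) (hx2 : x ≤ 0.7537)
    (hy1 : -0.438 ≤ y) (hy2 : y ≤ -0.398) : ‖HH β (x + y * I) - 1‖ ≤ 0.07 := by
  refine le_epsJ (C := 1.4597) (N0 := 20.887) (J_boxp 0.6202 0.7537 0.438 0 (-0.398) 0.8357 0.8718 0.9647 1.2857 0.3919 4.5703 20.887 1.0432 4.462 1.614 0.7259 0.4178 0.2725 0.5292 2.2617 0.4169 1.3587 1.6204 3.5826 0.0001625 0.003379 0.00001584 0.0000003101 0.0001656 0.0000003101 0.0000003101 0.0000003101 1.4597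
    hβ hN hx1 hx2 hy1 hy2 (by norm_num) (by norm_num) (by linarith) (by norm_num) (by norm_num) (by norm_num) (by norm_num) (by norm_num) (by norm_num) (by norm_num) (by norm_num) (by norm_num) (by norm_num) (by norm_num) (by norm_num) (by norm_num) (by norm_num) (by norm_num) (by norm_num) (by norm_num) (by norm_num) (by norm_num) (by norm_num) (by norm_num)
    (cube_sqrt_geJ (s := 0.8076) (by norm_num) (by norm_num) (by norm_num) (by norm_num))
    (cube_sqrt_geJ (s := 0.9339) (by norm_num) (by norm_num) (by norm_num) (by norm_num))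
    (by norm_num) (by norm_num) (by norm_num) (by norm_num) (by norm_num) (by norm_num) (by norm_num) (by norm_num) (by norm_num) (by norm_num) (by norm_num) (by norm_num) (by norm_num) (by norm_num) (by norm_num) (by norm_num) (by norm_num) (by norm_num)
    (exp_neg_leJ (r := 0.726) 8 (by norm_num) (by norm_num) (by norm_num) (by norm_num))
    (exp_neg_leJ (r := 0.691) 5 (by norm_num) (by norm_num) (by norm_num) (by norm_num))
    (exp_neg_leJ (r := 0.053) 11 (by norm_num) (by norm_num) (by norm_num) (by norm_num))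
    (exp_neg_leJ (r := 0.99) 14 (by norm_num) (by norm_num) (by norm_num) (by norm_num))
    (exp_neg_leJ (r := 0.707) 8 (by norm_num) (by norm_num) (by norm_num) (by norm_num))
    (exp_neg_leJ (r := 0.99) 14 (by norm_num) (by norm_num) (by norm_num) (by norm_num))
    (exp_neg_leJ (r := 0.99) 14 (by norm_num) (by norm_num) (by norm_num) (by norm_num))
    (exp_neg_leJ (r := 0.99) 14 (by norm_num) (by norm_num) (by norm_num) (by norm_num))
    (by norm_num)) (by norm_num) hN hβ.le (by norm_num)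

private theorem JB8_k0_b4_3 {β x y : ℝ} (hβ : 0 < β) (hN : β * 20.887 ≤ 1) (hx1 : 0.5727 ≤ x) (hx2 : x ≤ 0.7567)
    (hy1 : -0.398 ≤ y) (hy2 : y ≤ -0.313) : ‖HH β (x + y * I) - 1‖ ≤ 0.07 := by
  refine le_epsJ (C := 1.4607) (N0 := 20.887) (J_boxp 0.5727 0.7567 0.398 0 (-0.313) 0.8307 0.855 1.0221 1.3354 0.4034 4.5703 20.887 1.0293 4.354 1.603 0.7616 0.4153 0.2728 0.576 2.3909 0.4157 1.2929 1.6342 3.5333 0.0001711 0.003359 0.000005963 0.0000003101 0.0001698 0.0000003101 0.0000003101 0.0000003101 1.4607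
    hβ hN hx1 hx2 hy1 hy2 (by norm_num) (by norm_num) (by linarith) (by norm_num) (by norm_num) (by norm_num) (by norm_num) (by norm_num) (by norm_num) (by norm_num) (by norm_num) (by norm_num) (by norm_num) (by norm_num) (by norm_num) (by norm_num) (by norm_num) (by norm_num) (by norm_num) (by norm_num) (by norm_num) (by norm_num) (by norm_num) (by norm_num)
    (cube_sqrt_geJ (s := 0.8104) (by norm_num) (by norm_num) (by norm_num) (by norm_num))
    (cube_sqrt_geJ (s := 0.9348) (by norm_num) (by norm_num) (by norm_num) (by norm_num))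
    (by norm_num) (by norm_num) (by norm_num) (by norm_num) (by norm_num) (by norm_num) (by norm_num) (by norm_num) (by norm_num) (by norm_num) (by norm_num) (by norm_num) (by norm_num) (by norm_num) (by norm_num) (by norm_num) (by norm_num) (by norm_num)
    (exp_neg_leJ (r := 0.674) 8 (by norm_num) (by norm_num) (by norm_num) (by norm_num))
    (exp_neg_leJ (r := 0.697) 5 (by norm_num) (by norm_num) (by norm_num) (by norm_num))
    (exp_neg_leJ (r := 0.03) 12 (by norm_num) (by norm_num) (by norm_num) (by norm_num))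
    (exp_neg_leJ (r := 0.99) 14 (by norm_num) (by norm_num) (by norm_num) (by norm_num))
    (exp_neg_leJ (r := 0.682) 8 (by norm_num) (by norm_num) (by norm_num) (by norm_num))
    (exp_neg_leJ (r := 0.99) 14 (by norm_num) (by norm_num) (by norm_num) (by norm_num))
    (exp_neg_leJ (r := 0.99) 14 (by norm_num) (by norm_num) (by norm_num) (by norm_num))
    (exp_neg_leJ (r := 0.99) 14 (by norm_num) (by norm_num) (by norm_num) (by norm_num))
    (by norm_num)) (by norm_num) hN hβ.le (by norm_num)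

private theorem JB8_k0_b4_4 {β x y : ℝ} (hβ : 0 < β) (hN : β * 20.887 ≤ 1) (hx1 : 0.4673 ≤ x) (hx2 : x ≤ 0.7458)
    (hy1 : -0.313 ≤ y) (hy2 : y ≤ -0.098) : ‖HH β (x + y * I) - 1‖ ≤ 0.07 := by
  refine le_epsJ (C := 1.4442) (N0 := 20.887) (J_boxp 0.4673 0.7458 0.313 0 (-0.098) 0.8168 0.8089 1.1704 1.4656 0.4316 4.5703 20.887 0.9904 4.066 1.573 0.8443 0.4083 0.2735 0.6741 2.6735 0.411 1.147 1.6544 3.4478 0.0001979 0.003309 0.0000007684 0.0000003101 0.0001872 0.0000003101 0.0000003101 0.0000003101 1.4442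
    hβ hN hx1 hx2 hy1 hy2 (by norm_num) (by norm_num) (by linarith) (by norm_num) (by norm_num) (by norm_num) (by norm_num) (by norm_num) (by norm_num) (by norm_num) (by norm_num) (by norm_num) (by norm_num) (by norm_num) (by norm_num) (by norm_num) (by norm_num) (by norm_num) (by norm_num) (by norm_num) (by norm_num) (by norm_num) (by norm_num) (by norm_num)
    (cube_sqrt_geJ (s := 0.8184) (by norm_num) (by norm_num) (by norm_num) (by norm_num))
    (cube_sqrt_geJ (s := 0.9374) (by norm_num) (by norm_num) (by norm_num) (by norm_num))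
    (by norm_num) (by norm_num) (by norm_num) (by norm_num) (by norm_num) (by norm_num) (by norm_num) (by norm_num) (by norm_num) (by norm_num) (by norm_num) (by norm_num) (by norm_num) (by norm_num) (by norm_num) (by norm_num) (by norm_num) (by norm_num)
    (exp_neg_leJ (r := 0.528) 8 (by norm_num) (by norm_num) (by norm_num) (by norm_num))
    (exp_neg_leJ (r := 0.712) 5 (by norm_num) (by norm_num) (by norm_num) (by norm_num))
    (exp_neg_leJ (r := 0.079) 14 (by norm_num) (by norm_num) (by norm_num) (by norm_num))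
    (exp_neg_leJ (r := 0.99) 14 (by norm_num) (by norm_num) (by norm_num) (by norm_num))
    (exp_neg_leJ (r := 0.584) 8 (by norm_num) (by norm_num) (by norm_num) (by norm_num))
    (exp_neg_leJ (r := 0.99) 14 (by norm_num) (by norm_num) (by norm_num) (by norm_num))
    (exp_neg_leJ (r := 0.99) 14 (by norm_num) (by norm_num) (by norm_num) (by norm_num))
    (exp_neg_leJ (r := 0.99) 14 (by norm_num) (by norm_num) (by norm_num) (by norm_num))
    (by norm_num)) (by norm_num) hN hβ.le (by norm_num)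

private theorem JB8_k0_b4_5 {β x y : ℝ} (hβ : 0 < β) (hN : β * 20.887 ≤ 1) (hx1 : 0.4917 ≤ x) (hx2 : x ≤ 0.6067)
    (hy1 : -0.098 ≤ y) (hy2 : y ≤ 0.017) : ‖HH β (x + y * I) - 1‖ ≤ 0.07 := by
  refine le_epsJ (C := 0.3452) (N0 := 20.887) (J_boxp 0.4917 0.6067 0.098 0.017 0.017 0.9866 0.6146 1.1843 1.1106 0.4342 4.5703 20.887 0.623 2.259 1.321 1.0963 0.4932 0.3908 1.0219 3.4436 0.5385 1.179 2.2147 3.9447 0.00003361 0.0002853 0.0000003101 0.0000003101 0.00001305 0.0000003101 0.0000003101 0.0000003101 0.3452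
    hβ hN hx1 hx2 hy1 hy2 (by norm_num) (by norm_num) (by linarith) (by norm_num) (by norm_num) (by norm_num) (by norm_num) (by norm_num) (by norm_num) (by norm_num) (by norm_num) (by norm_num) (by norm_num) (by norm_num) (by norm_num) (by norm_num) (by norm_num) (by norm_num) (by norm_num) (by norm_num) (by norm_num) (by norm_num) (by norm_num) (by norm_num)
    (cube_sqrt_geJ (s := 0.8901) (by norm_num) (by norm_num) (by norm_num) (by norm_num))
    (cube_sqrt_geJ (s := 0.9611) (by norm_num) (by norm_num) (by norm_num) (by norm_num))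
    (by norm_num) (by norm_num) (by norm_num) (by norm_num) (by norm_num) (by norm_num) (by norm_num) (by norm_num) (by norm_num) (by norm_num) (by norm_num) (by norm_num) (by norm_num) (by norm_num) (by norm_num) (by norm_num) (by norm_num) (by norm_num)
    (exp_neg_leJ (r := 0.301) 10 (by norm_num) (by norm_num) (by norm_num) (by norm_num))
    (exp_neg_leJ (r := 0.162) 8 (by norm_num) (by norm_num) (by norm_num) (by norm_num))
    (exp_neg_leJ (r := 0.99) 14 (by norm_num) (by norm_num) (by norm_num) (by norm_num))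
    (exp_neg_leJ (r := 0.99) 14 (by norm_num) (by norm_num) (by norm_num) (by norm_num))
    (exp_neg_leJ (r := 0.247) 11 (by norm_num) (by norm_num) (by norm_num) (by norm_num))
    (exp_neg_leJ (r := 0.99) 14 (by norm_num) (by norm_num) (by norm_num) (by norm_num))
    (exp_neg_leJ (r := 0.99) 14 (by norm_num) (by norm_num) (by norm_num) (by norm_num))
    (exp_neg_leJ (r := 0.99) 14 (by norm_num) (by norm_num) (by norm_num) (by norm_num))
    (by norm_num)) (by norm_num) hN hβ.le (by norm_num)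

theorem JB8_k0_c4 {κ t β : ℝ} (h : DomR κ t) (hβ : 0 < β) (hk1 : 0.51 ≤ κ) (hk2 : κ ≤ 0.55)
    (ht1 : -0.7465 ≤ t + κ) (ht2 : t + κ ≤ 0.04) (hR0 : β * 10 ≤ κ) (hR : β * (8.82 * (1 + κ ^ 2)) ≤ κ) :
    ‖HH β (sg κ t) - 1‖ ≤ 0.07 := by
  have hN : β * 20.887 ≤ 1 := bNC hβ h.1 hk2 (by norm_num) (by norm_num) hR (by norm_num)
  have hy1 : -0.468 ≤ sy κ t := syL_ge h 0.51 0.55 0.7465 0.468 0.62625 0.62626 0.5224 0.53288 0.57469 hk1 hk2 (by linarith) (by norm_num) (by norm_num) (by norm_num)
    (expm_ge (by norm_num) (by norm_num) (by norm_num) (by norm_num)) (expm_le (by norm_num) (by norm_num) (by norm_num)) (by norm_num)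
    (by norm_num) (by norm_num) (by norm_num) (by norm_num) (by norm_num) (by norm_num)
  have hy2 : sy κ t ≤ 0.017 := syR_le h 0.51 0.55 0.04 0.017 1.01714 0.0308 0.03143 0.03391 hk1 hk2 (by linarith) (by norm_num) (by norm_num)
    (expn_ge (by norm_num) (by norm_num)) (by norm_num) (by norm_num) (Or.inr ((mul_le_mul_of_nonneg_left (expn_le (E := 1.01715) (by norm_num) (by norm_num) (by norm_num)) (by norm_num)).trans (by norm_num))) (by norm_num) (by norm_num) (by norm_num)
  rcases le_total (sy κ t) (-0.458) with f0 | g0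
  · have hx1 : 0.6565 ≤ sx κ t := sx_lo h 0.51 (-0.458) 0.468 1.5809 0.6565 hk1 (by norm_num) f0 (abs_le.2 ⟨by linarith, by linarith⟩) (by rw [neg_neg]; exact expn_ge (by norm_num) (by norm_num)) (by norm_num) (by norm_num)
    have hx2 : sx κ t ≤ 0.7494 := sx_hi h 0.55 (-0.468) 0.458 1.5968 0.7494 hk2 hy1 (by norm_num) (by rw [abs_of_nonpos (by linarith)]; linarith) (by rw [neg_neg]; exact expn_le (by norm_num) (by norm_num) (by norm_num)) (by norm_num) (by norm_num)
    exact JB8_k0_b4_0 hβ hN hx1 hx2 (by linarith) (by linarith)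
  rcases le_total (sy κ t) (-0.438) with f1 | g1
  · have hx1 : 0.644 ≤ sx κ t := sx_lo h 0.51 (-0.438) 0.458 1.5496 0.644 hk1 (by norm_num) f1 (abs_le.2 ⟨by linarith, by linarith⟩) (by rw [neg_neg]; exact expn_ge (by norm_num) (by norm_num)) (by norm_num) (by norm_num)
    have hx2 : sx κ t ≤ 0.7512 := sx_hi h 0.55 (-0.458) 0.438 1.58091 0.7512 hk2 g0 (by norm_num) (by rw [abs_of_nonpos (by linarith)]; linarith) (by rw [neg_neg]; exact expn_le (by norm_num) (by norm_num) (by norm_num)) (by norm_num) (by norm_num)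
    exact JB8_k0_b4_1 hβ hN hx1 hx2 (by linarith) (by linarith)
  rcases le_total (sy κ t) (-0.398) with f2 | g2
  · have hx1 : 0.6202 ≤ sx κ t := sx_lo h 0.51 (-0.398) 0.438 1.48884 0.6202 hk1 (by norm_num) f2 (abs_le.2 ⟨by linarith, by linarith⟩) (by rw [neg_neg]; exact expn_ge (by norm_num) (by norm_num)) (by norm_num) (by norm_num)
    have hx2 : sx κ t ≤ 0.7537 := sx_hi h 0.55 (-0.438) 0.398 1.54961 0.7537 hk2 g1 (by norm_num) (by rw [abs_of_nonpos (by linarith)]; linarith) (by rw [neg_neg]; exact expn_le (by norm_num) (by norm_num) (by norm_num)) (by norm_num) (by norm_num)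
    exact JB8_k0_b4_2 hβ hN hx1 hx2 (by linarith) (by linarith)
  rcases le_total (sy κ t) (-0.313) with f3 | g3
  · have hx1 : 0.5727 ≤ sx κ t := sx_lo h 0.51 (-0.313) 0.398 1.36752 0.5727 hk1 (by norm_num) f3 (abs_le.2 ⟨by linarith, by linarith⟩) (by rw [neg_neg]; exact expn_ge (by norm_num) (by norm_num)) (by norm_num) (by norm_num)
    have hx2 : sx κ t ≤ 0.7567 := sx_hi h 0.55 (-0.398) 0.313 1.48885 0.7567 hk2 g2 (by norm_num) (by rw [abs_of_nonpos (by linarith)]; linarith) (by rw [neg_neg]; exact expn_le (by norm_num) (by norm_num) (by norm_num)) (by norm_num) (by norm_num)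
    exact JB8_k0_b4_3 hβ hN hx1 hx2 (by linarith) (by linarith)
  rcases le_total (sy κ t) (-0.098) with f4 | g4
  · have hx1 : 0.4673 ≤ sx κ t := sx_lo h 0.51 (-0.098) 0.313 1.10296 0.4673 hk1 (by norm_num) f4 (abs_le.2 ⟨by linarith, by linarith⟩) (by rw [neg_neg]; exact expn_ge (by norm_num) (by norm_num)) (by norm_num) (by norm_num)
    have hx2 : sx κ t ≤ 0.7458 := sx_hi h 0.55 (-0.313) 0.098 1.36753 0.7458 hk2 g3 (by norm_num) (by rw [abs_of_nonpos (by linarith)]; linarith) (by rw [neg_neg]; exact expn_le (by norm_num) (by norm_num) (by norm_num)) (by norm_num) (by norm_num)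
    exact JB8_k0_b4_4 hβ hN hx1 hx2 (by linarith) (by linarith)
  have hx1 : 0.4917 ≤ sx κ t := sx_lo h 0.51 0.017 0.098 0.98314 0.4917 hk1 (by norm_num) hy2 (abs_le.2 ⟨by linarith, by linarith⟩) (expm_ge (by norm_num) (by norm_num) (by norm_num) (by norm_num)) (by norm_num) (by norm_num)
  have hx2 : sx κ t ≤ 0.6067 := sx_hi h 0.55 (-0.098) 0 1.10297 0.6067 hk2 g4 (by norm_num) (abs_nonneg _) (by rw [neg_neg]; exact expn_le (by norm_num) (by norm_num) (by norm_num)) (by norm_num) (by norm_num)
  exact JB8_k0_b4_5 hβ hN hx1 hx2 (by linarith) (by linarith)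
end Sok
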