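import Pool.Agent.Lib.MP_816dec_an.JBG2

/-!
MP_816dec_an (A3, row R1): tables b = 8, real points.
-/

set_option autoImplicit false
set_option maxHeartbeats 4000000

open Complex Set

namespace Sok

private theorem JB8_k0_b5_0 {β x y : ℝ} (hβ : 0 < β) (hN : β * 20.322 ≤ 1) (hx1 : 0.724 ≤ x) (hx2 : x ≤ 0.8127)
    (hy1 : -0.472 ≤ y) (hy2 : y ≤ -0.452) : ‖HH β (x + y * I) - 1‖ ≤ 0.07 := by
  refine le_epsJ (C := 1.414) (N0 := 20.322) (J_boxp 0.724 0.8127 0.472 0 (-0.452) 0.8847 0.9399 0.9802 1.1898 0.395 4.508 20.322 1.0624 4.619 1.629 0.6718 0.4423 0.2856 0.511 2.1184 0.4488 1.5024 1.7356 3.6051 0.0001254 0.003023 0.00003093 0.0000003101 0.0001095 0.0000003101 0.0000003101 0.0000003101 1.414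
    hβ hN hx1 hx2 hy1 hy2 (by norm_num) (by norm_num) (by linarith) (by norm_num) (by norm_num) (by norm_num) (by norm_num) (by norm_num) (by norm_num) (by norm_num) (by norm_num) (by norm_num) (by norm_num) (by norm_num) (by norm_num) (by norm_num) (by norm_num) (by norm_num) (by norm_num) (by norm_num) (by norm_num) (by norm_num) (by norm_num) (by norm_num)
    (cube_sqrt_geJ (s := 0.8036) (by norm_num) (by norm_num) (by norm_num) (by norm_num))
    (cube_sqrt_geJ (s := 0.9326) (by norm_num) (by norm_num) (by norm_num) (by norm_num))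
    (by norm_num) (by norm_num) (by norm_num) (by norm_num) (by norm_num) (by norm_num) (by norm_num) (by norm_num) (by norm_num) (by norm_num) (by norm_num) (by norm_num) (by norm_num) (by norm_num) (by norm_num) (by norm_num) (by norm_num) (by norm_num)
    (exp_neg_leJ (r := 0.988) 8 (by norm_num) (by norm_num) (by norm_num) (by norm_num))
    (exp_neg_leJ (r := 0.803) 5 (by norm_num) (by norm_num) (by norm_num) (by norm_num))
    (exp_neg_leJ (r := 0.384) 10 (by norm_num) (by norm_num) (by norm_num) (by norm_num))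
    (exp_neg_leJ (r := 0.99) 14 (by norm_num) (by norm_num) (by norm_num) (by norm_num))
    (exp_neg_leJ (r := 0.12) 9 (by norm_num) (by norm_num) (by norm_num) (by norm_num))
    (exp_neg_leJ (r := 0.99) 14 (by norm_num) (by norm_num) (by norm_num) (by norm_num))
    (exp_neg_leJ (r := 0.99) 14 (by norm_num) (by norm_num) (by norm_num) (by norm_num))
    (exp_neg_leJ (r := 0.99) 14 (by norm_num) (by norm_num) (by norm_num) (by norm_num))
    (by norm_num)) (by norm_num) hN hβ.le (by norm_num)

private theorem JB8_k0_b5_1 {β x y : ℝ} (hβ : 0 < β) (hN : β * 20.322 ≤ 1) (hx1 : 0.7015 ≤ x) (hx2 : x ≤ 0.8105)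
    (hy1 : -0.452 ≤ y) (hy2 : y ≤ -0.417) : ‖HH β (x + y * I) - 1‖ ≤ 0.07 := by
  refine le_epsJ (C := 1.387) (N0 := 20.322) (J_boxp 0.7015 0.8105 0.452 0 (-0.417) 0.883 0.9281 0.9984 1.2043 0.3987 4.508 20.322 1.0511 4.526 1.62 0.6911 0.4414 0.2868 0.5349 2.1851 0.4488 1.4713 1.745 3.5922 0.0001276 0.002949 0.00001906 0.0000003101 0.0001095 0.0000003101 0.0000003101 0.0000003101 1.387
    hβ hN hx1 hx2 hy1 hy2 (by norm_num) (by norm_num) (by linarith) (by norm_num) (by norm_num) (by norm_num) (by norm_num) (by norm_num) (by norm_num) (by norm_num) (by norm_num) (by norm_num) (by norm_num) (by norm_num) (by norm_num) (by norm_num) (by norm_num) (by norm_num) (by norm_num) (by norm_num) (by norm_num) (by norm_num) (by norm_num) (by norm_num)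
    (cube_sqrt_geJ (s := 0.8059) (by norm_num) (by norm_num) (by norm_num) (by norm_num))
    (cube_sqrt_geJ (s := 0.9334) (by norm_num) (by norm_num) (by norm_num) (by norm_num))
    (by norm_num) (by norm_num) (by norm_num) (by norm_num) (by norm_num) (by norm_num) (by norm_num) (by norm_num) (by norm_num) (by norm_num) (by norm_num) (by norm_num) (by norm_num) (by norm_num) (by norm_num) (by norm_num) (by norm_num) (by norm_num)
    (exp_neg_leJ (r := 0.97) 8 (by norm_num) (by norm_num) (by norm_num) (by norm_num))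
    (exp_neg_leJ (r := 0.828) 5 (by norm_num) (by norm_num) (by norm_num) (by norm_num))
    (exp_neg_leJ (r := 0.87) 10 (by norm_num) (by norm_num) (by norm_num) (by norm_num))
    (exp_neg_leJ (r := 0.99) 14 (by norm_num) (by norm_num) (by norm_num) (by norm_num))
    (exp_neg_leJ (r := 0.12) 9 (by norm_num) (by norm_num) (by norm_num) (by norm_num))
    (exp_neg_leJ (r := 0.99) 14 (by norm_num) (by norm_num) (by norm_num) (by norm_num))
    (exp_neg_leJ (r := 0.99) 14 (by norm_num) (by norm_num) (by norm_num) (by norm_num))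
    (exp_neg_leJ (r := 0.99) 14 (by norm_num) (by norm_num) (by norm_num) (by norm_num))
    (by norm_num)) (by norm_num) hN hβ.le (by norm_num)

private theorem JB8_k0_b5_2 {β x y : ℝ} (hβ : 0 < β) (hN : β * 20.322 ≤ 1) (hx1 : 0.6523 ≤ x) (hx2 : x ≤ 0.811)
    (hy1 : -0.417 ≤ y) (hy2 : y ≤ -0.342) : ‖HH β (x + y * I) - 1‖ ≤ 0.07 := by
  refine le_epsJ (C := 1.4204) (N0 := 20.322) (J_boxp 0.6523 0.811 0.417 0 (-0.342) 0.8732 0.912 1.0444 1.2525 0.4078 4.508 20.322 1.0445 4.473 1.615 0.7232 0.4365 0.2845 0.5733 2.2991 0.444 1.4031 1.7417 3.5376 0.0001409 0.00309 0.000008725 0.0000003101 0.0001208 0.0000003101 0.0000003101 0.0000003101 1.4204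
    hβ hN hx1 hx2 hy1 hy2 (by norm_num) (by norm_num) (by linarith) (by norm_num) (by norm_num) (by norm_num) (by norm_num) (by norm_num) (by norm_num) (by norm_num) (by norm_num) (by norm_num) (by norm_num) (by norm_num) (by norm_num) (by norm_num) (by norm_num) (by norm_num) (by norm_num) (by norm_num) (by norm_num) (by norm_num) (by norm_num) (by norm_num)
    (cube_sqrt_geJ (s := 0.8073) (by norm_num) (by norm_num) (by norm_num) (by norm_num))
    (cube_sqrt_geJ (s := 0.9338) (by norm_num) (by norm_num) (by norm_num) (by norm_num))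
    (by norm_num) (by norm_num) (by norm_num) (by norm_num) (by norm_num) (by norm_num) (by norm_num) (by norm_num) (by norm_num) (by norm_num) (by norm_num) (by norm_num) (by norm_num) (by norm_num) (by norm_num) (by norm_num) (by norm_num) (by norm_num)
    (exp_neg_leJ (r := 0.87) 8 (by norm_num) (by norm_num) (by norm_num) (by norm_num))
    (exp_neg_leJ (r := 0.781) 5 (by norm_num) (by norm_num) (by norm_num) (by norm_num))
    (exp_neg_leJ (r := 0.65) 11 (by norm_num) (by norm_num) (by norm_num) (by norm_num))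
    (exp_neg_leJ (r := 0.99) 14 (by norm_num) (by norm_num) (by norm_num) (by norm_num))
    (exp_neg_leJ (r := 0.022) 9 (by norm_num) (by norm_num) (by norm_num) (by norm_num))
    (exp_neg_leJ (r := 0.99) 14 (by norm_num) (by norm_num) (by norm_num) (by norm_num))
    (exp_neg_leJ (r := 0.99) 14 (by norm_num) (by norm_num) (by norm_num) (by norm_num))
    (exp_neg_leJ (r := 0.99) 14 (by norm_num) (by norm_num) (by norm_num) (by norm_num))
    (by norm_num)) (by norm_num) hN hβ.le (by norm_num)

private theorem JB8_k0_b5_3 {β x y : ℝ} (hβ : 0 < β) (hN : β * 20.322 ≤ 1) (hx1 : 0.5565 ≤ x) (hx2 : x ≤ 0.7982)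
    (hy1 : -0.342 ≤ y) (hy2 : y ≤ -0.172) : ‖HH β (x + y * I) - 1‖ ≤ 0.07 := by
  refine le_epsJ (C := 1.3966) (N0 := 20.322) (J_boxp 0.5565 0.7982 0.342 0 (-0.172) 0.859 0.8684 1.1501 1.3471 0.4279 4.508 20.322 1.011 4.215 1.589 0.7974 0.4294 0.2847 0.6589 2.5502 0.4384 1.2705 1.754 3.4645 0.0001625 0.003078 0.000001531 0.0000003101 0.0001355 0.0000003101 0.0000003101 0.0000003101 1.3966
    hβ hN hx1 hx2 hy1 hy2 (by norm_num) (by norm_num) (by linarith) (by norm_num) (by norm_num) (by norm_num) (by norm_num) (by norm_num) (by norm_num) (by norm_num) (by norm_num) (by norm_num) (by norm_num) (by norm_num) (by norm_num) (by norm_num) (by norm_num) (by norm_num) (by norm_num) (by norm_num) (by norm_num) (by norm_num) (by norm_num) (by norm_num)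
    (cube_sqrt_geJ (s := 0.8142) (by norm_num) (by norm_num) (by norm_num) (by norm_num))
    (cube_sqrt_geJ (s := 0.936) (by norm_num) (by norm_num) (by norm_num) (by norm_num))
    (by norm_num) (by norm_num) (by norm_num) (by norm_num) (by norm_num) (by norm_num) (by norm_num) (by norm_num) (by norm_num) (by norm_num) (by norm_num) (by norm_num) (by norm_num) (by norm_num) (by norm_num) (by norm_num) (by norm_num) (by norm_num)
    (exp_neg_leJ (r := 0.726) 8 (by norm_num) (by norm_num) (by norm_num) (by norm_num))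
    (exp_neg_leJ (r := 0.785) 5 (by norm_num) (by norm_num) (by norm_num) (by norm_num))
    (exp_neg_leJ (r := 0.39) 13 (by norm_num) (by norm_num) (by norm_num) (by norm_num))
    (exp_neg_leJ (r := 0.99) 14 (by norm_num) (by norm_num) (by norm_num) (by norm_num))
    (exp_neg_leJ (r := 0.909) 8 (by norm_num) (by norm_num) (by norm_num) (by norm_num))
    (exp_neg_leJ (r := 0.99) 14 (by norm_num) (by norm_num) (by norm_num) (by norm_num))
    (exp_neg_leJ (r := 0.99) 14 (by norm_num) (by norm_num) (by norm_num) (by norm_num))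
    (exp_neg_leJ (r := 0.99) 14 (by norm_num) (by norm_num) (by norm_num) (by norm_num))
    (by norm_num)) (by norm_num) hN hβ.le (by norm_num)

private theorem JB8_k0_b5_4 {β x y : ℝ} (hβ : 0 < β) (hN : β * 20.322 ≤ 1) (hx1 : 0.512 ≤ x) (hx2 : x ≤ 0.6889)
    (hy1 : -0.172 ≤ y) (hy2 : y ≤ 0.018) : ‖HH β (x + y * I) - 1‖ ≤ 0.07 := by
  refine le_epsJ (C := 0.5644) (N0 := 20.322) (J_boxp 0.512 0.6889 0.172 0.018 0.018 0.9484 0.7101 1.2292 1.2004 0.4424 4.508 20.322 0.7488 2.733 1.401 0.9963 0.4741 0.3558 0.912 3.1602 0.5079 1.207 2.0499 3.721 0.0000655 0.0007246 0.0000003101 0.0000003101 0.00003294 0.0000003101 0.0000003101 0.0000003101 0.5644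
    hβ hN hx1 hx2 hy1 hy2 (by norm_num) (by norm_num) (by linarith) (by norm_num) (by norm_num) (by norm_num) (by norm_num) (by norm_num) (by norm_num) (by norm_num) (by norm_num) (by norm_num) (by norm_num) (by norm_num) (by norm_num) (by norm_num) (by norm_num) (by norm_num) (by norm_num) (by norm_num) (by norm_num) (by norm_num) (by norm_num) (by norm_num)
    (cube_sqrt_geJ (s := 0.8662) (by norm_num) (by norm_num) (by norm_num) (by norm_num))
    (cube_sqrt_geJ (s := 0.953) (by norm_num) (by norm_num) (by norm_num) (by norm_num))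
    (by norm_num) (by norm_num) (by norm_num) (by norm_num) (by norm_num) (by norm_num) (by norm_num) (by norm_num) (by norm_num) (by norm_num) (by norm_num) (by norm_num) (by norm_num) (by norm_num) (by norm_num) (by norm_num) (by norm_num) (by norm_num)
    (exp_neg_leJ (r := 0.634) 9 (by norm_num) (by norm_num) (by norm_num) (by norm_num))
    (exp_neg_leJ (r := 0.23) 7 (by norm_num) (by norm_num) (by norm_num) (by norm_num))
    (exp_neg_leJ (r := 0.99) 14 (by norm_num) (by norm_num) (by norm_num) (by norm_num))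
    (exp_neg_leJ (r := 0.99) 14 (by norm_num) (by norm_num) (by norm_num) (by norm_num))
    (exp_neg_leJ (r := 0.321) 10 (by norm_num) (by norm_num) (by norm_num) (by norm_num))
    (exp_neg_leJ (r := 0.99) 14 (by norm_num) (by norm_num) (by norm_num) (by norm_num))
    (exp_neg_leJ (r := 0.99) 14 (by norm_num) (by norm_num) (by norm_num) (by norm_num))
    (exp_neg_leJ (r := 0.99) 14 (by norm_num) (by norm_num) (by norm_num) (by norm_num))
    (by norm_num)) (by norm_num) hN hβ.le (by norm_num)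

theorem JB8_k0_c5 {κ t β : ℝ} (h : DomR κ t) (hβ : 0 < β) (hk1 : 0.55 ≤ κ) (hk2 : κ ≤ 0.58)
    (ht1 : -0.7465 ≤ t + κ) (ht2 : t + κ ≤ 0.04) (hR0 : β * 10 ≤ κ) (hR : β * (8.82 * (1 + κ ^ 2)) ≤ κ) :
    ‖HH β (sg κ t) - 1‖ ≤ 0.07 := by
  have hN : β * 20.322 ≤ 1 := bNC hβ h.1 hk2 (by norm_num) (by norm_num) hR (by norm_num)
  have hy1 : -0.472 ≤ sy κ t := syL_ge h 0.55 0.58 0.7465 0.472 0.62375 0.62376 0.5006 0.5076 0.5353 hk1 hk2 (by linarith) (by norm_num) (by norm_num) (by norm_num)
    (expm_ge (by norm_num) (by norm_num) (by norm_num) (by norm_num)) (expm_le (by norm_num) (by norm_num) (by norm_num)) (by norm_num)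
    (by norm_num) (by norm_num) (by norm_num) (by norm_num) (by norm_num) (by norm_num)
  have hy2 : sy κ t ≤ 0.018 := syR_le h 0.55 0.58 0.04 0.018 1.01816 0.0311 0.03159 0.03333 hk1 hk2 (by linarith) (by norm_num) (by norm_num)
    (expn_ge (by norm_num) (by norm_num)) (by norm_num) (by norm_num) (Or.inr ((mul_le_mul_of_nonneg_left (expn_le (E := 1.01817) (by norm_num) (by norm_num) (by norm_num)) (by norm_num)).trans (by norm_num))) (by norm_num) (by norm_num) (by norm_num)
  rcases le_total (sy κ t) (-0.452) with f0 | g0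
  · have hx1 : 0.724 ≤ sx κ t := sx_lo h 0.55 (-0.452) 0.472 1.57145 0.724 hk1 (by norm_num) f0 (abs_le.2 ⟨by linarith, by linarith⟩) (by rw [neg_neg]; exact expn_ge (by norm_num) (by norm_num)) (by norm_num) (by norm_num)
    have hx2 : sx κ t ≤ 0.8127 := sx_hi h 0.58 (-0.472) 0.452 1.6032 0.8127 hk2 hy1 (by norm_num) (by rw [abs_of_nonpos (by linarith)]; linarith) (by rw [neg_neg]; exact expn_le (by norm_num) (by norm_num) (by norm_num)) (by norm_num) (by norm_num)
    exact JB8_k0_b5_0 hβ hN hx1 hx2 (by linarith) (by linarith)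
  rcases le_total (sy κ t) (-0.417) with f1 | g1
  · have hx1 : 0.7015 ≤ sx κ t := sx_lo h 0.55 (-0.417) 0.452 1.5174 0.7015 hk1 (by norm_num) f1 (abs_le.2 ⟨by linarith, by linarith⟩) (by rw [neg_neg]; exact expn_ge (by norm_num) (by norm_num)) (by norm_num) (by norm_num)
    have hx2 : sx κ t ≤ 0.8105 := sx_hi h 0.58 (-0.452) 0.417 1.57146 0.8105 hk2 g0 (by norm_num) (by rw [abs_of_nonpos (by linarith)]; linarith) (by rw [neg_neg]; exact expn_le (by norm_num) (by norm_num) (by norm_num)) (by norm_num) (by norm_num)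
    exact JB8_k0_b5_1 hβ hN hx1 hx2 (by linarith) (by linarith)
  rcases le_total (sy κ t) (-0.342) with f2 | g2
  · have hx1 : 0.6523 ≤ sx κ t := sx_lo h 0.55 (-0.342) 0.417 1.40776 0.6523 hk1 (by norm_num) f2 (abs_le.2 ⟨by linarith, by linarith⟩) (by rw [neg_neg]; exact expn_ge (by norm_num) (by norm_num)) (by norm_num) (by norm_num)
    have hx2 : sx κ t ≤ 0.811 := sx_hi h 0.58 (-0.417) 0.342 1.51741 0.811 hk2 g1 (by norm_num) (by rw [abs_of_nonpos (by linarith)]; linarith) (by rw [neg_neg]; exact expn_le (by norm_num) (by norm_num) (by norm_num)) (by norm_num) (by norm_num)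
    exact JB8_k0_b5_2 hβ hN hx1 hx2 (by linarith) (by linarith)
  rcases le_total (sy κ t) (-0.172) with f3 | g3
  · have hx1 : 0.5565 ≤ sx κ t := sx_lo h 0.55 (-0.172) 0.342 1.18767 0.5565 hk1 (by norm_num) f3 (abs_le.2 ⟨by linarith, by linarith⟩) (by rw [neg_neg]; exact expn_ge (by norm_num) (by norm_num)) (by norm_num) (by norm_num)
    have hx2 : sx κ t ≤ 0.7982 := sx_hi h 0.58 (-0.342) 0.172 1.40777 0.7982 hk2 g2 (by norm_num) (by rw [abs_of_nonpos (by linarith)]; linarith) (by rw [neg_neg]; exact expn_le (by norm_num) (by norm_num) (by norm_num)) (by norm_num) (by norm_num)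
    exact JB8_k0_b5_3 hβ hN hx1 hx2 (by linarith) (by linarith)
  have hx1 : 0.512 ≤ sx κ t := sx_lo h 0.55 0.018 0.172 0.98216 0.512 hk1 (by norm_num) hy2 (abs_le.2 ⟨by linarith, by linarith⟩) (expm_ge (by norm_num) (by norm_num) (by norm_num) (by norm_num)) (by norm_num) (by norm_num)
  have hx2 : sx κ t ≤ 0.6889 := sx_hi h 0.58 (-0.172) 0 1.18768 0.6889 hk2 g3 (by norm_num) (abs_nonneg _) (by rw [neg_neg]; exact expn_le (by norm_num) (by norm_num) (by norm_num)) (by norm_num) (by norm_num)
  exact JB8_k0_b5_4 hβ hN hx1 hx2 (by linarith) (by linarith)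

private theorem JB8_k0_b6_0 {β x y : ℝ} (hβ : 0 < β) (hN : β * 19.839 ≤ 1) (hx1 : 0.7806 ≤ x) (hx2 : x ≤ 0.8684)
    (hy1 : -0.474 ≤ y) (hy2 : y ≤ -0.454) : ‖HH β (x + y * I) - 1‖ ≤ 0.07 := by
  refine le_epsJ (C := 1.3874) (N0 := 19.839) (J_boxp 0.7806 0.8684 0.474 0 (-0.454) 0.9231 0.9894 1.0258 1.142 0.4041 4.4541 19.839 1.0719 4.7 1.637 0.6485 0.4615 0.2966 0.5272 2.0816 0.4752 1.5808 1.8434 3.5838 0.0001057 0.00279 0.0000287 0.0000003101 0.00008053 0.0000003101 0.0000003101 0.0000003101 1.3874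
    hβ hN hx1 hx2 hy1 hy2 (by norm_num) (by norm_num) (by linarith) (by norm_num) (by norm_num) (by norm_num) (by norm_num) (by norm_num) (by norm_num) (by norm_num) (by norm_num) (by norm_num) (by norm_num) (by norm_num) (by norm_num) (by norm_num) (by norm_num) (by norm_num) (by norm_num) (by norm_num) (by norm_num) (by norm_num) (by norm_num) (by norm_num)
    (cube_sqrt_geJ (s := 0.8016) (by norm_num) (by norm_num) (by norm_num) (by norm_num))
    (cube_sqrt_geJ (s := 0.932) (by norm_num) (by norm_num) (by norm_num) (by norm_num))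
    (by norm_num) (by norm_num) (by norm_num) (by norm_num) (by norm_num) (by norm_num) (by norm_num) (by norm_num) (by norm_num) (by norm_num) (by norm_num) (by norm_num) (by norm_num) (by norm_num) (by norm_num) (by norm_num) (by norm_num) (by norm_num)
    (exp_neg_leJ (r := 0.155) 9 (by norm_num) (by norm_num) (by norm_num) (by norm_num))
    (exp_neg_leJ (r := 0.884) 5 (by norm_num) (by norm_num) (by norm_num) (by norm_num))
    (exp_neg_leJ (r := 0.459) 10 (by norm_num) (by norm_num) (by norm_num) (by norm_num))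
    (exp_neg_leJ (r := 0.99) 14 (by norm_num) (by norm_num) (by norm_num) (by norm_num))
    (exp_neg_leJ (r := 0.427) 9 (by norm_num) (by norm_num) (by norm_num) (by norm_num))
    (exp_neg_leJ (r := 0.99) 14 (by norm_num) (by norm_num) (by norm_num) (by norm_num))
    (exp_neg_leJ (r := 0.99) 14 (by norm_num) (by norm_num) (by norm_num) (by norm_num))
    (exp_neg_leJ (r := 0.99) 14 (by norm_num) (by norm_num) (by norm_num) (by norm_num))
    (by norm_num)) (by norm_num) hN hβ.le (by norm_num)

private theorem JB8_k0_b6_1 {β x y : ℝ} (hβ : 0 < β) (hN : β * 19.839 ≤ 1) (hx1 : 0.756 ≤ x) (hx2 : x ≤ 0.8643)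
    (hy1 : -0.454 ≤ y) (hy2 : y ≤ -0.419) : ‖HH β (x + y * I) - 1‖ ≤ 0.07 := by
  refine le_epsJ (C := 1.3644) (N0 := 19.839) (J_boxp 0.756 0.8643 0.454 0 (-0.419) 0.92 0.9763 1.0415 1.1566 0.4072 4.4541 19.839 1.0612 4.609 1.628 0.6686 0.4599 0.2972 0.5504 2.1492 0.4742 1.5467 1.8485 3.5702 0.0001092 0.002757 0.00001816 0.0000003101 0.00008216 0.0000003101 0.0000003101 0.0000003101 1.3644
    hβ hN hx1 hx2 hy1 hy2 (by norm_num) (by norm_num) (by linarith) (by norm_num) (by norm_num) (by norm_num) (by norm_num) (by norm_num) (by norm_num) (by norm_num) (by norm_num) (by norm_num) (by norm_num) (by norm_num) (by norm_num) (by norm_num) (by norm_num) (by norm_num) (by norm_num) (by norm_num) (by norm_num) (by norm_num) (by norm_num) (by norm_num)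
    (cube_sqrt_geJ (s := 0.8039) (by norm_num) (by norm_num) (by norm_num) (by norm_num))
    (cube_sqrt_geJ (s := 0.9327) (by norm_num) (by norm_num) (by norm_num) (by norm_num))
    (by norm_num) (by norm_num) (by norm_num) (by norm_num) (by norm_num) (by norm_num) (by norm_num) (by norm_num) (by norm_num) (by norm_num) (by norm_num) (by norm_num) (by norm_num) (by norm_num) (by norm_num) (by norm_num) (by norm_num) (by norm_num)
    (exp_neg_leJ (r := 0.123) 9 (by norm_num) (by norm_num) (by norm_num) (by norm_num))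
    (exp_neg_leJ (r := 0.896) 5 (by norm_num) (by norm_num) (by norm_num) (by norm_num))
    (exp_neg_leJ (r := 0.919) 10 (by norm_num) (by norm_num) (by norm_num) (by norm_num))
    (exp_neg_leJ (r := 0.99) 14 (by norm_num) (by norm_num) (by norm_num) (by norm_num))
    (exp_neg_leJ (r := 0.407) 9 (by norm_num) (by norm_num) (by norm_num) (by norm_num))
    (exp_neg_leJ (r := 0.99) 14 (by norm_num) (by norm_num) (by norm_num) (by norm_num))
    (exp_neg_leJ (r := 0.99) 14 (by norm_num) (by norm_num) (by norm_num) (by norm_num))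
    (exp_neg_leJ (r := 0.99) 14 (by norm_num) (by norm_num) (by norm_num) (by norm_num))
    (by norm_num)) (by norm_num) hN hβ.le (by norm_num)

private theorem JB8_k0_b6_2 {β x y : ℝ} (hβ : 0 < β) (hN : β * 19.839 ≤ 1) (hx1 : 0.7074 ≤ x) (hx2 : x ≤ 0.8594)
    (hy1 : -0.419 ≤ y) (hy2 : y ≤ -0.349) : ‖HH β (x + y * I) - 1‖ ≤ 0.07 := by
  refine le_epsJ (C := 1.3698) (N0 := 19.839) (J_boxp 0.7074 0.8594 0.419 0 (-0.349) 0.9106 0.9562 1.0782 1.195 0.4143 4.4541 19.839 1.0501 4.518 1.619 0.7028 0.4552 0.2959 0.589 2.266 0.4697 1.4794 1.8465 3.5276 0.0001198 0.002829 0.000008426 0.0000003101 0.0000898 0.0000003101 0.0000003101 0.0000003101 1.3698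
    hβ hN hx1 hx2 hy1 hy2 (by norm_num) (by norm_num) (by linarith) (by norm_num) (by norm_num) (by norm_num) (by norm_num) (by norm_num) (by norm_num) (by norm_num) (by norm_num) (by norm_num) (by norm_num) (by norm_num) (by norm_num) (by norm_num) (by norm_num) (by norm_num) (by norm_num) (by norm_num) (by norm_num) (by norm_num) (by norm_num) (by norm_num)
    (cube_sqrt_geJ (s := 0.8062) (by norm_num) (by norm_num) (by norm_num) (by norm_num))
    (cube_sqrt_geJ (s := 0.9335) (by norm_num) (by norm_num) (by norm_num) (by norm_num))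
    (by norm_num) (by norm_num) (by norm_num) (by norm_num) (by norm_num) (by norm_num) (by norm_num) (by norm_num) (by norm_num) (by norm_num) (by norm_num) (by norm_num) (by norm_num) (by norm_num) (by norm_num) (by norm_num) (by norm_num) (by norm_num)
    (exp_neg_leJ (r := 0.03) 9 (by norm_num) (by norm_num) (by norm_num) (by norm_num))
    (exp_neg_leJ (r := 0.87) 5 (by norm_num) (by norm_num) (by norm_num) (by norm_num))
    (exp_neg_leJ (r := 0.685) 11 (by norm_num) (by norm_num) (by norm_num) (by norm_num))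
    (exp_neg_leJ (r := 0.99) 14 (by norm_num) (by norm_num) (by norm_num) (by norm_num))
    (exp_neg_leJ (r := 0.318) 9 (by norm_num) (by norm_num) (by norm_num) (by norm_num))
    (exp_neg_leJ (r := 0.99) 14 (by norm_num) (by norm_num) (by norm_num) (by norm_num))
    (exp_neg_leJ (r := 0.99) 14 (by norm_num) (by norm_num) (by norm_num) (by norm_num))
    (exp_neg_leJ (r := 0.99) 14 (by norm_num) (by norm_num) (by norm_num) (by norm_num))
    (by norm_num)) (by norm_num) hN hβ.le (by norm_num)

private theorem JB8_k0_b6_3 {β x y : ℝ} (hβ : 0 < β) (hN : β * 19.839 ≤ 1) (hx1 : 0.6116 ≤ x) (hx2 : x ≤ 0.8428)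
    (hy1 : -0.349 ≤ y) (hy2 : y ≤ -0.194) : ‖HH β (x + y * I) - 1‖ ≤ 0.07 := by
  refine le_epsJ (C := 1.362) (N0 := 19.839) (J_boxp 0.6116 0.8428 0.349 0 (-0.194) 0.8929 0.9123 1.1662 1.28 0.4309 4.4541 19.839 1.0218 4.296 1.597 0.7738 0.4464 0.2943 0.6667 2.5027 0.4614 1.3468 1.8452 3.4553 0.0001428 0.00292 0.000001804 0.0000003101 0.000106 0.0000003101 0.0000003101 0.0000003101 1.362
    hβ hN hx1 hx2 hy1 hy2 (by norm_num) (by norm_num) (by linarith) (by norm_num) (by norm_num) (by norm_num) (by norm_num) (by norm_num) (by norm_num) (by norm_num) (by norm_num) (by norm_num) (by norm_num) (by norm_num) (by norm_num) (by norm_num) (by norm_num) (by norm_num) (by norm_num) (by norm_num) (by norm_num) (by norm_num) (by norm_num) (by norm_num)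
    (cube_sqrt_geJ (s := 0.812) (by norm_num) (by norm_num) (by norm_num) (by norm_num))
    (cube_sqrt_geJ (s := 0.9353) (by norm_num) (by norm_num) (by norm_num) (by norm_num))
    (by norm_num) (by norm_num) (by norm_num) (by norm_num) (by norm_num) (by norm_num) (by norm_num) (by norm_num) (by norm_num) (by norm_num) (by norm_num) (by norm_num) (by norm_num) (by norm_num) (by norm_num) (by norm_num) (by norm_num) (by norm_num)
    (exp_neg_leJ (r := 0.856) 8 (by norm_num) (by norm_num) (by norm_num) (by norm_num))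
    (exp_neg_leJ (r := 0.838) 5 (by norm_num) (by norm_num) (by norm_num) (by norm_num))
    (exp_neg_leJ (r := 0.226) 13 (by norm_num) (by norm_num) (by norm_num) (by norm_num))
    (exp_neg_leJ (r := 0.99) 14 (by norm_num) (by norm_num) (by norm_num) (by norm_num))
    (exp_neg_leJ (r := 0.153) 9 (by norm_num) (by norm_num) (by norm_num) (by norm_num))
    (exp_neg_leJ (r := 0.99) 14 (by norm_num) (by norm_num) (by norm_num) (by norm_num))
    (exp_neg_leJ (r := 0.99) 14 (by norm_num) (by norm_num) (by norm_num) (by norm_num))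
    (exp_neg_leJ (r := 0.99) 14 (by norm_num) (by norm_num) (by norm_num) (by norm_num))
    (by norm_num)) (by norm_num) hN hβ.le (by norm_num)

private theorem JB8_k0_b6_4 {β x y : ℝ} (hβ : 0 < β) (hN : β * 19.839 ≤ 1) (hx1 : 0.5356 ≤ x) (hx2 : x ≤ 0.7407)
    (hy1 : -0.194 ≤ y) (hy2 : y ≤ 0.018) : ‖HH β (x + y * I) - 1‖ ≤ 0.07 := by
  refine le_epsJ (C := 0.6829) (N0 := 19.839) (J_boxp 0.5356 0.7407 0.194 0.018 0.018 0.9494 0.7657 1.259 1.213 0.4477 4.4541 19.839 0.8066 2.993 1.44 0.9561 0.4746 0.347 0.8854 3.0602 0.5073 1.2397 2.0373 3.617 0.0000815 0.001027 0.0000003101 0.0000003101 0.00004259 0.0000003101 0.0000003101 0.0000003101 0.6829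
    hβ hN hx1 hx2 hy1 hy2 (by norm_num) (by norm_num) (by linarith) (by norm_num) (by norm_num) (by norm_num) (by norm_num) (by norm_num) (by norm_num) (by norm_num) (by norm_num) (by norm_num) (by norm_num) (by norm_num) (by norm_num) (by norm_num) (by norm_num) (by norm_num) (by norm_num) (by norm_num) (by norm_num) (by norm_num) (by norm_num) (by norm_num)
    (cube_sqrt_geJ (s := 0.855) (by norm_num) (by norm_num) (by norm_num) (by norm_num))
    (cube_sqrt_geJ (s := 0.9493) (by norm_num) (by norm_num) (by norm_num) (by norm_num))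
    (by norm_num) (by norm_num) (by norm_num) (by norm_num) (by norm_num) (by norm_num) (by norm_num) (by norm_num) (by norm_num) (by norm_num) (by norm_num) (by norm_num) (by norm_num) (by norm_num) (by norm_num) (by norm_num) (by norm_num) (by norm_num)
    (exp_neg_leJ (r := 0.415) 9 (by norm_num) (by norm_num) (by norm_num) (by norm_num))
    (exp_neg_leJ (r := 0.884) 6 (by norm_num) (by norm_num) (by norm_num) (by norm_num))
    (exp_neg_leJ (r := 0.99) 14 (by norm_num) (by norm_num) (by norm_num) (by norm_num))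
    (exp_neg_leJ (r := 0.99) 14 (by norm_num) (by norm_num) (by norm_num) (by norm_num))
    (exp_neg_leJ (r := 0.064) 10 (by norm_num) (by norm_num) (by norm_num) (by norm_num))
    (exp_neg_leJ (r := 0.99) 14 (by norm_num) (by norm_num) (by norm_num) (by norm_num))
    (exp_neg_leJ (r := 0.99) 14 (by norm_num) (by norm_num) (by norm_num) (by norm_num))
    (exp_neg_leJ (r := 0.99) 14 (by norm_num) (by norm_num) (by norm_num) (by norm_num))
    (by norm_num)) (by norm_num) hN hβ.le (by norm_num)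

theorem JB8_k0_c6 {κ t β : ℝ} (h : DomR κ t) (hβ : 0 < β) (hk1 : 0.58 ≤ κ) (hk2 : κ ≤ 0.61)
    (ht1 : -0.7465 ≤ t + κ) (ht2 : t + κ ≤ 0.04) (hR0 : β * 10 ≤ κ) (hR : β * (8.82 * (1 + κ ^ 2)) ≤ κ) :
    ‖HH β (sg κ t) - 1‖ ≤ 0.07 := by
  have hN : β * 19.839 ≤ 1 := bNC hβ h.1 hk2 (by norm_num) (by norm_num) hR (by norm_num)
  have hy1 : -0.474 ≤ sy κ t := syL_ge h 0.58 0.61 0.7465 0.474 0.6225 0.62251 0.4774 0.48371 0.50875 hk1 hk2 (by linarith) (by norm_num) (by norm_num) (by norm_num)
    (expm_ge (by norm_num) (by norm_num) (by norm_num) (by norm_num)) (expm_le (by norm_num) (by norm_num) (by norm_num)) (by norm_num)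
    (by norm_num) (by norm_num) (by norm_num) (by norm_num) (by norm_num) (by norm_num)
  have hy2 : sy κ t ≤ 0.018 := syR_le h 0.58 0.61 0.04 0.018 1.01816 0.0296 0.03004 0.0316 hk1 hk2 (by linarith) (by norm_num) (by norm_num)
    (expn_ge (by norm_num) (by norm_num)) (by norm_num) (by norm_num) (Or.inr ((mul_le_mul_of_nonneg_left (expn_le (E := 1.01817) (by norm_num) (by norm_num) (by norm_num)) (by norm_num)).trans (by norm_num))) (by norm_num) (by norm_num) (by norm_num)
  rcases le_total (sy κ t) (-0.454) with f0 | g0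
  · have hx1 : 0.7806 ≤ sx κ t := sx_lo h 0.58 (-0.454) 0.474 1.57459 0.7806 hk1 (by norm_num) f0 (abs_le.2 ⟨by linarith, by linarith⟩) (by rw [neg_neg]; exact expn_ge (by norm_num) (by norm_num)) (by norm_num) (by norm_num)
    have hx2 : sx κ t ≤ 0.8684 := sx_hi h 0.61 (-0.474) 0.454 1.60641 0.8684 hk2 hy1 (by norm_num) (by rw [abs_of_nonpos (by linarith)]; linarith) (by rw [neg_neg]; exact expn_le (by norm_num) (by norm_num) (by norm_num)) (by norm_num) (by norm_num)
    exact JB8_k0_b6_0 hβ hN hx1 hx2 (by linarith) (by linarith)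
  rcases le_total (sy κ t) (-0.419) with f1 | g1
  · have hx1 : 0.756 ≤ sx κ t := sx_lo h 0.58 (-0.419) 0.454 1.52043 0.756 hk1 (by norm_num) f1 (abs_le.2 ⟨by linarith, by linarith⟩) (by rw [neg_neg]; exact expn_ge (by norm_num) (by norm_num)) (by norm_num) (by norm_num)
    have hx2 : sx κ t ≤ 0.8643 := sx_hi h 0.61 (-0.454) 0.419 1.5746 0.8643 hk2 g0 (by norm_num) (by rw [abs_of_nonpos (by linarith)]; linarith) (by rw [neg_neg]; exact expn_le (by norm_num) (by norm_num) (by norm_num)) (by norm_num) (by norm_num)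
    exact JB8_k0_b6_1 hβ hN hx1 hx2 (by linarith) (by linarith)
  rcases le_total (sy κ t) (-0.349) with f2 | g2
  · have hx1 : 0.7074 ≤ sx κ t := sx_lo h 0.58 (-0.349) 0.419 1.41764 0.7074 hk1 (by norm_num) f2 (abs_le.2 ⟨by linarith, by linarith⟩) (by rw [neg_neg]; exact expn_ge (by norm_num) (by norm_num)) (by norm_num) (by norm_num)
    have hx2 : sx κ t ≤ 0.8594 := sx_hi h 0.61 (-0.419) 0.349 1.52045 0.8594 hk2 g1 (by norm_num) (by rw [abs_of_nonpos (by linarith)]; linarith) (by rw [neg_neg]; exact expn_le (by norm_num) (by norm_num) (by norm_num)) (by norm_num) (by norm_num)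
    exact JB8_k0_b6_2 hβ hN hx1 hx2 (by linarith) (by linarith)
  rcases le_total (sy κ t) (-0.194) with f3 | g3
  · have hx1 : 0.6116 ≤ sx κ t := sx_lo h 0.58 (-0.194) 0.349 1.21409 0.6116 hk1 (by norm_num) f3 (abs_le.2 ⟨by linarith, by linarith⟩) (by rw [neg_neg]; exact expn_ge (by norm_num) (by norm_num)) (by norm_num) (by norm_num)
    have hx2 : sx κ t ≤ 0.8428 := sx_hi h 0.61 (-0.349) 0.194 1.41765 0.8428 hk2 g2 (by norm_num) (by rw [abs_of_nonpos (by linarith)]; linarith) (by rw [neg_neg]; exact expn_le (by norm_num) (by norm_num) (by norm_num)) (by norm_num) (by norm_num)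
    exact JB8_k0_b6_3 hβ hN hx1 hx2 (by linarith) (by linarith)
  have hx1 : 0.5356 ≤ sx κ t := sx_lo h 0.58 0.018 0.194 0.98216 0.5356 hk1 (by norm_num) hy2 (abs_le.2 ⟨by linarith, by linarith⟩) (expm_ge (by norm_num) (by norm_num) (by norm_num) (by norm_num)) (by norm_num) (by norm_num)
  have hx2 : sx κ t ≤ 0.7407 := sx_hi h 0.61 (-0.194) 0 1.2141 0.7407 hk2 g3 (by norm_num) (abs_nonneg _) (by rw [neg_neg]; exact expn_le (by norm_num) (by norm_num) (by norm_num)) (by norm_num) (by norm_num)
  exact JB8_k0_b6_4 hβ hN hx1 hx2 (by linarith) (by linarith)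

private theorem JB8_k0_b7_0 {β x y : ℝ} (hβ : 0 < β) (hN : β * 19.426 ≤ 1) (hx1 : 0.8353 ≤ x) (hx2 : x ≤ 0.9225)
    (hy1 : -0.474 ≤ y) (hy2 : y ≤ -0.454) : ‖HH β (x + y * I) - 1‖ ≤ 0.07 := by
  refine le_epsJ (C := 1.3533) (N0 := 19.426) (J_boxp 0.8353 0.9225 0.474 0 (-0.454) 0.9616 1.0372 1.072 1.0981 0.4131 4.4075 19.426 1.0787 4.758 1.642 0.6277 0.4807 0.3079 0.546 2.0521 0.5018 1.6565 1.9528 3.5632 0.00008802 0.002535 0.00002478 0.0000003101 0.00005854 0.0000003101 0.0000003101 0.0000003101 1.3533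
    hβ hN hx1 hx2 hy1 hy2 (by norm_num) (by norm_num) (by linarith) (by norm_num) (by norm_num) (by norm_num) (by norm_num) (by norm_num) (by norm_num) (by norm_num) (by norm_num) (by norm_num) (by norm_num) (by norm_num) (by norm_num) (by norm_num) (by norm_num) (by norm_num) (by norm_num) (by norm_num) (by norm_num) (by norm_num) (by norm_num) (by norm_num)
    (cube_sqrt_geJ (s := 0.8002) (by norm_num) (by norm_num) (by norm_num) (by norm_num))
    (cube_sqrt_geJ (s := 0.9316) (by norm_num) (by norm_num) (by norm_num) (by norm_num))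
    (by norm_num) (by norm_num) (by norm_num) (by norm_num) (by norm_num) (by norm_num) (by norm_num) (by norm_num) (by norm_num) (by norm_num) (by norm_num) (by norm_num) (by norm_num) (by norm_num) (by norm_num) (by norm_num) (by norm_num) (by norm_num)
    (exp_neg_leJ (r := 0.338) 9 (by norm_num) (by norm_num) (by norm_num) (by norm_num))
    (exp_neg_leJ (r := 0.981) 5 (by norm_num) (by norm_num) (by norm_num) (by norm_num))
    (exp_neg_leJ (r := 0.606) 10 (by norm_num) (by norm_num) (by norm_num) (by norm_num))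
    (exp_neg_leJ (r := 0.99) 14 (by norm_num) (by norm_num) (by norm_num) (by norm_num))
    (exp_neg_leJ (r := 0.747) 9 (by norm_num) (by norm_num) (by norm_num) (by norm_num))
    (exp_neg_leJ (r := 0.99) 14 (by norm_num) (by norm_num) (by norm_num) (by norm_num))
    (exp_neg_leJ (r := 0.99) 14 (by norm_num) (by norm_num) (by norm_num) (by norm_num))
    (exp_neg_leJ (r := 0.99) 14 (by norm_num) (by norm_num) (by norm_num) (by norm_num))
    (by norm_num)) (by norm_num) hN hβ.le (by norm_num)

private theorem JB8_k0_b7_1 {β x y : ℝ} (hβ : 0 < β) (hN : β * 19.426 ≤ 1) (hx1 : 0.8087 ≤ x) (hx2 : x ≤ 0.9166)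
    (hy1 : -0.454 ≤ y) (hy2 : y ≤ -0.419) : ‖HH β (x + y * I) - 1‖ ≤ 0.07 := by
  refine le_epsJ (C := 1.3349) (N0 := 19.426) (J_boxp 0.8087 0.9166 0.454 0 (-0.419) 0.9571 1.0229 1.0853 1.1126 0.4157 4.4075 19.426 1.0688 4.673 1.634 0.6485 0.4785 0.308 0.5684 2.1205 0.4998 1.6197 1.9539 3.5489 0.00009189 0.00253 0.00001604 0.0000003101 0.00006079 0.0000003101 0.0000003101 0.0000003101 1.3349
    hβ hN hx1 hx2 hy1 hy2 (by norm_num) (by norm_num) (by linarith) (by norm_num) (by norm_num) (by norm_num) (by norm_num) (by norm_num) (by norm_num) (by norm_num) (by norm_num) (by norm_num) (by norm_num) (by norm_num) (by norm_num) (by norm_num) (by norm_num) (by norm_num) (by norm_num) (by norm_num) (by norm_num) (by norm_num) (by norm_num) (by norm_num)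
    (cube_sqrt_geJ (s := 0.8023) (by norm_num) (by norm_num) (by norm_num) (by norm_num))
    (cube_sqrt_geJ (s := 0.9322) (by norm_num) (by norm_num) (by norm_num) (by norm_num))
    (by norm_num) (by norm_num) (by norm_num) (by norm_num) (by norm_num) (by norm_num) (by norm_num) (by norm_num) (by norm_num) (by norm_num) (by norm_num) (by norm_num) (by norm_num) (by norm_num) (by norm_num) (by norm_num) (by norm_num) (by norm_num)
    (exp_neg_leJ (r := 0.295) 9 (by norm_num) (by norm_num) (by norm_num) (by norm_num))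
    (exp_neg_leJ (r := 0.983) 5 (by norm_num) (by norm_num) (by norm_num) (by norm_num))
    (exp_neg_leJ (r := 0.041) 11 (by norm_num) (by norm_num) (by norm_num) (by norm_num))
    (exp_neg_leJ (r := 0.99) 14 (by norm_num) (by norm_num) (by norm_num) (by norm_num))
    (exp_neg_leJ (r := 0.709) 9 (by norm_num) (by norm_num) (by norm_num) (by norm_num))
    (exp_neg_leJ (r := 0.99) 14 (by norm_num) (by norm_num) (by norm_num) (by norm_num))
    (exp_neg_leJ (r := 0.99) 14 (by norm_num) (by norm_num) (by norm_num) (by norm_num))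
    (exp_neg_leJ (r := 0.99) 14 (by norm_num) (by norm_num) (by norm_num) (by norm_num))
    (by norm_num)) (by norm_num) hN hβ.le (by norm_num)

private theorem JB8_k0_b7_2 {β x y : ℝ} (hβ : 0 < β) (hN : β * 19.426 ≤ 1) (hx1 : 0.7564 ≤ x) (hx2 : x ≤ 0.9084)
    (hy1 : -0.419 ≤ y) (hy2 : y ≤ -0.349) : ‖HH β (x + y * I) - 1‖ ≤ 0.07 := by
  refine le_epsJ (C := 1.3455) (N0 := 19.426) (J_boxp 0.7564 0.9084 0.419 0 (-0.349) 0.9451 1.0004 1.1176 1.1507 0.4218 4.4075 19.426 1.0586 4.588 1.626 0.6839 0.4725 0.3058 0.6058 2.239 0.4935 1.5473 1.9445 3.5055 0.0001033 0.00264 0.000007758 0.0000003101 0.00006871 0.0000003101 0.0000003101 0.0000003101 1.3455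
    hβ hN hx1 hx2 hy1 hy2 (by norm_num) (by norm_num) (by linarith) (by norm_num) (by norm_num) (by norm_num) (by norm_num) (by norm_num) (by norm_num) (by norm_num) (by norm_num) (by norm_num) (by norm_num) (by norm_num) (by norm_num) (by norm_num) (by norm_num) (by norm_num) (by norm_num) (by norm_num) (by norm_num) (by norm_num) (by norm_num) (by norm_num)
    (cube_sqrt_geJ (s := 0.8044) (by norm_num) (by norm_num) (by norm_num) (by norm_num))
    (cube_sqrt_geJ (s := 0.9329) (by norm_num) (by norm_num) (by norm_num) (by norm_num))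
    (by norm_num) (by norm_num) (by norm_num) (by norm_num) (by norm_num) (by norm_num) (by norm_num) (by norm_num) (by norm_num) (by norm_num) (by norm_num) (by norm_num) (by norm_num) (by norm_num) (by norm_num) (by norm_num) (by norm_num) (by norm_num)
    (exp_neg_leJ (r := 0.178) 9 (by norm_num) (by norm_num) (by norm_num) (by norm_num))
    (exp_neg_leJ (r := 0.94) 5 (by norm_num) (by norm_num) (by norm_num) (by norm_num))
    (exp_neg_leJ (r := 0.768) 11 (by norm_num) (by norm_num) (by norm_num) (by norm_num))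
    (exp_neg_leJ (r := 0.99) 14 (by norm_num) (by norm_num) (by norm_num) (by norm_num))
    (exp_neg_leJ (r := 0.586) 9 (by norm_num) (by norm_num) (by norm_num) (by norm_num))
    (exp_neg_leJ (r := 0.99) 14 (by norm_num) (by norm_num) (by norm_num) (by norm_num))
    (exp_neg_leJ (r := 0.99) 14 (by norm_num) (by norm_num) (by norm_num) (by norm_num))
    (exp_neg_leJ (r := 0.99) 14 (by norm_num) (by norm_num) (by norm_num) (by norm_num))
    (by norm_num)) (by norm_num) hN hβ.le (by norm_num)

private theorem JB8_k0_b7_3 {β x y : ℝ} (hβ : 0 < β) (hN : β * 19.426 ≤ 1) (hx1 : 0.6532 ≤ x) (hx2 : x ≤ 0.8864)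
    (hy1 : -0.349 ≤ y) (hy2 : y ≤ -0.194) : ‖HH β (x + y * I) - 1‖ ≤ 0.07 := by
  refine le_epsJ (C := 1.3541) (N0 := 19.426) (J_boxp 0.6532 0.8864 0.349 0 (-0.194) 0.9221 0.9527 1.1981 1.2362 0.4367 4.4075 19.426 1.0332 4.384 1.606 0.757 0.461 0.3022 0.6809 2.4783 0.4816 1.4044 1.9284 3.4287 0.0001295 0.002829 0.000001802 0.0000003101 0.00008654 0.0000003101 0.0000003101 0.0000003101 1.3541
    hβ hN hx1 hx2 hy1 hy2 (by norm_num) (by norm_num) (by linarith) (by norm_num) (by norm_num) (by norm_num) (by norm_num) (by norm_num) (by norm_num) (by norm_num) (by norm_num) (by norm_num) (by norm_num) (by norm_num) (by norm_num) (by norm_num) (by norm_num) (by norm_num) (by norm_num) (by norm_num) (by norm_num) (by norm_num) (by norm_num) (by norm_num)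
    (cube_sqrt_geJ (s := 0.8096) (by norm_num) (by norm_num) (by norm_num) (by norm_num))
    (cube_sqrt_geJ (s := 0.9346) (by norm_num) (by norm_num) (by norm_num) (by norm_num))
    (by norm_num) (by norm_num) (by norm_num) (by norm_num) (by norm_num) (by norm_num) (by norm_num) (by norm_num) (by norm_num) (by norm_num) (by norm_num) (by norm_num) (by norm_num) (by norm_num) (by norm_num) (by norm_num) (by norm_num) (by norm_num)
    (exp_neg_leJ (r := 0.955) 8 (by norm_num) (by norm_num) (by norm_num) (by norm_num))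
    (exp_neg_leJ (r := 0.87) 5 (by norm_num) (by norm_num) (by norm_num) (by norm_num))
    (exp_neg_leJ (r := 0.227) 13 (by norm_num) (by norm_num) (by norm_num) (by norm_num))
    (exp_neg_leJ (r := 0.99) 14 (by norm_num) (by norm_num) (by norm_num) (by norm_num))
    (exp_neg_leJ (r := 0.355) 9 (by norm_num) (by norm_num) (by norm_num) (by norm_num))
    (exp_neg_leJ (r := 0.99) 14 (by norm_num) (by norm_num) (by norm_num) (by norm_num))
    (exp_neg_leJ (r := 0.99) 14 (by norm_num) (by norm_num) (by norm_num) (by norm_num))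
    (exp_neg_leJ (r := 0.99) 14 (by norm_num) (by norm_num) (by norm_num) (by norm_num))
    (by norm_num)) (by norm_num) hN hβ.le (by norm_num)

private theorem JB8_k0_b7_4 {β x y : ℝ} (hβ : 0 < β) (hN : β * 19.426 ≤ 1) (hx1 : 0.5668 ≤ x) (hx2 : x ≤ 0.7771)
    (hy1 : -0.194 ≤ y) (hy2 : y ≤ 0.018) : ‖HH β (x + y * I) - 1‖ ≤ 0.07 := by
  refine le_epsJ (C := 0.7017) (N0 := 19.426) (J_boxp 0.5668 0.7771 0.194 0.018 0.018 0.9714 0.801 1.2808 1.1821 0.4515 4.4075 19.426 0.8246 3.081 1.452 0.9421 0.4856 0.3521 0.896 3.0395 0.5225 1.2829 2.0997 3.5835 0.00008005 0.001074 0.0000003101 0.0000003101 0.00003908 0.0000003101 0.0000003101 0.0000003101 0.7017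
    hβ hN hx1 hx2 hy1 hy2 (by norm_num) (by norm_num) (by linarith) (by norm_num) (by norm_num) (by norm_num) (by norm_num) (by norm_num) (by norm_num) (by norm_num) (by norm_num) (by norm_num) (by norm_num) (by norm_num) (by norm_num) (by norm_num) (by norm_num) (by norm_num) (by norm_num) (by norm_num) (by norm_num) (by norm_num) (by norm_num) (by norm_num)
    (cube_sqrt_geJ (s := 0.8515) (by norm_num) (by norm_num) (by norm_num) (by norm_num))
    (cube_sqrt_geJ (s := 0.9481) (by norm_num) (by norm_num) (by norm_num) (by norm_num))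
    (by norm_num) (by norm_num) (by norm_num) (by norm_num) (by norm_num) (by norm_num) (by norm_num) (by norm_num) (by norm_num) (by norm_num) (by norm_num) (by norm_num) (by norm_num) (by norm_num) (by norm_num) (by norm_num) (by norm_num) (by norm_num)
    (exp_neg_leJ (r := 0.433) 9 (by norm_num) (by norm_num) (by norm_num) (by norm_num))
    (exp_neg_leJ (r := 0.839) 6 (by norm_num) (by norm_num) (by norm_num) (by norm_num))
    (exp_neg_leJ (r := 0.99) 14 (by norm_num) (by norm_num) (by norm_num) (by norm_num))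
    (exp_neg_leJ (r := 0.99) 14 (by norm_num) (by norm_num) (by norm_num) (by norm_num))
    (exp_neg_leJ (r := 0.15) 10 (by norm_num) (by norm_num) (by norm_num) (by norm_num))
    (exp_neg_leJ (r := 0.99) 14 (by norm_num) (by norm_num) (by norm_num) (by norm_num))
    (exp_neg_leJ (r := 0.99) 14 (by norm_num) (by norm_num) (by norm_num) (by norm_num))
    (exp_neg_leJ (r := 0.99) 14 (by norm_num) (by norm_num) (by norm_num) (by norm_num))
    (by norm_num)) (by norm_num) hN hβ.le (by norm_num)

theorem JB8_k0_c7 {κ t β : ℝ} (h : DomR κ t) (hβ : 0 < β) (hk1 : 0.61 ≤ κ) (hk2 : κ ≤ 0.64)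
    (ht1 : -0.7465 ≤ t + κ) (ht2 : t + κ ≤ 0.04) (hR0 : β * 10 ≤ κ) (hR : β * (8.82 * (1 + κ ^ 2)) ≤ κ) :
    ‖HH β (sg κ t) - 1‖ ≤ 0.07 := by
  have hN : β * 19.426 ≤ 1 := bNC hβ h.1 hk2 (by norm_num) (by norm_num) hR (by norm_num)
  have hy1 : -0.474 ≤ sy κ t := syL_ge h 0.61 0.64 0.7465 0.474 0.6225 0.62251 0.4667 0.46103 0.48373 hk1 hk2 (by linarith) (by norm_num) (by norm_num) (by norm_num)
    (expm_ge (by norm_num) (by norm_num) (by norm_num) (by norm_num)) (expm_le (by norm_num) (by norm_num) (by norm_num)) (by norm_num)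
    (by norm_num) (by norm_num) (by norm_num) (by norm_num) (by norm_num) (by norm_num)
  have hy2 : sy κ t ≤ 0.018 := syR_le h 0.61 0.64 0.04 0.018 1.01816 0.0282 0.02863 0.03005 hk1 hk2 (by linarith) (by norm_num) (by norm_num)
    (expn_ge (by norm_num) (by norm_num)) (by norm_num) (by norm_num) (Or.inr ((mul_le_mul_of_nonneg_left (expn_le (E := 1.01817) (by norm_num) (by norm_num) (by norm_num)) (by norm_num)).trans (by norm_num))) (by norm_num) (by norm_num) (by norm_num)
  rcases le_total (sy κ t) (-0.454) with f0 | g0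
  · have hx1 : 0.8353 ≤ sx κ t := sx_lo h 0.61 (-0.454) 0.474 1.57459 0.8353 hk1 (by norm_num) f0 (abs_le.2 ⟨by linarith, by linarith⟩) (by rw [neg_neg]; exact expn_ge (by norm_num) (by norm_num)) (by norm_num) (by norm_num)
    have hx2 : sx κ t ≤ 0.9225 := sx_hi h 0.64 (-0.474) 0.454 1.60641 0.9225 hk2 hy1 (by norm_num) (by rw [abs_of_nonpos (by linarith)]; linarith) (by rw [neg_neg]; exact expn_le (by norm_num) (by norm_num) (by norm_num)) (by norm_num) (by norm_num)
    exact JB8_k0_b7_0 hβ hN hx1 hx2 (by linarith) (by linarith)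
  rcases le_total (sy κ t) (-0.419) with f1 | g1
  · have hx1 : 0.8087 ≤ sx κ t := sx_lo h 0.61 (-0.419) 0.454 1.52043 0.8087 hk1 (by norm_num) f1 (abs_le.2 ⟨by linarith, by linarith⟩) (by rw [neg_neg]; exact expn_ge (by norm_num) (by norm_num)) (by norm_num) (by norm_num)
    have hx2 : sx κ t ≤ 0.9166 := sx_hi h 0.64 (-0.454) 0.419 1.5746 0.9166 hk2 g0 (by norm_num) (by rw [abs_of_nonpos (by linarith)]; linarith) (by rw [neg_neg]; exact expn_le (by norm_num) (by norm_num) (by norm_num)) (by norm_num) (by norm_num)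
    exact JB8_k0_b7_1 hβ hN hx1 hx2 (by linarith) (by linarith)
  rcases le_total (sy κ t) (-0.349) with f2 | g2
  · have hx1 : 0.7564 ≤ sx κ t := sx_lo h 0.61 (-0.349) 0.419 1.41764 0.7564 hk1 (by norm_num) f2 (abs_le.2 ⟨by linarith, by linarith⟩) (by rw [neg_neg]; exact expn_ge (by norm_num) (by norm_num)) (by norm_num) (by norm_num)
    have hx2 : sx κ t ≤ 0.9084 := sx_hi h 0.64 (-0.419) 0.349 1.52045 0.9084 hk2 g1 (by norm_num) (by rw [abs_of_nonpos (by linarith)]; linarith) (by rw [neg_neg]; exact expn_le (by norm_num) (by norm_num) (by norm_num)) (by norm_num) (by norm_num)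
    exact JB8_k0_b7_2 hβ hN hx1 hx2 (by linarith) (by linarith)
  rcases le_total (sy κ t) (-0.194) with f3 | g3
  · have hx1 : 0.6532 ≤ sx κ t := sx_lo h 0.61 (-0.194) 0.349 1.21409 0.6532 hk1 (by norm_num) f3 (abs_le.2 ⟨by linarith, by linarith⟩) (by rw [neg_neg]; exact expn_ge (by norm_num) (by norm_num)) (by norm_num) (by norm_num)
    have hx2 : sx κ t ≤ 0.8864 := sx_hi h 0.64 (-0.349) 0.194 1.41765 0.8864 hk2 g2 (by norm_num) (by rw [abs_of_nonpos (by linarith)]; linarith) (by rw [neg_neg]; exact expn_le (by norm_num) (by norm_num) (by norm_num)) (by norm_num) (by norm_num)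
    exact JB8_k0_b7_3 hβ hN hx1 hx2 (by linarith) (by linarith)
  have hx1 : 0.5668 ≤ sx κ t := sx_lo h 0.61 0.018 0.194 0.98216 0.5668 hk1 (by norm_num) hy2 (abs_le.2 ⟨by linarith, by linarith⟩) (expm_ge (by norm_num) (by norm_num) (by norm_num) (by norm_num)) (by norm_num) (by norm_num)
  have hx2 : sx κ t ≤ 0.7771 := sx_hi h 0.64 (-0.194) 0 1.2141 0.7771 hk2 g3 (by norm_num) (abs_nonneg _) (by rw [neg_neg]; exact expn_le (by norm_num) (by norm_num) (by norm_num)) (by norm_num) (by norm_num)
  exact JB8_k0_b7_4 hβ hN hx1 hx2 (by linarith) (by linarith)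

private theorem JB8_k0_b8_0 {β x y : ℝ} (hβ : 0 < β) (hN : β * 18.968 ≤ 1) (hx1 : 0.9007 ≤ x) (hx2 : x ≤ 0.989)
    (hy1 : -0.474 ≤ y) (hy2 : y ≤ -0.464) : ‖HH β (x + y * I) - 1‖ ≤ 0.07 := by
  refine le_epsJ (C := 1.3216) (N0 := 18.968) (J_boxp 0.9007 0.989 0.474 0 (-0.464) 1.0077 1.0968 1.125 1.0486 0.4232 4.3553 18.968 1.0885 4.844 1.65 0.6021 0.5038 0.321 0.5684 2.0155 0.5335 1.7471 2.0836 3.532 0.0000708 0.00227 0.00002082 0.0000003101 0.00004031 0.0000003101 0.0000003101 0.0000003101 1.3216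
    hβ hN hx1 hx2 hy1 hy2 (by norm_num) (by norm_num) (by linarith) (by norm_num) (by norm_num) (by norm_num) (by norm_num) (by norm_num) (by norm_num) (by norm_num) (by norm_num) (by norm_num) (by norm_num) (by norm_num) (by norm_num) (by norm_num) (by norm_num) (by norm_num) (by norm_num) (by norm_num) (by norm_num) (by norm_num) (by norm_num) (by norm_num)
    (cube_sqrt_geJ (s := 0.7982) (by norm_num) (by norm_num) (by norm_num) (by norm_num))
    (cube_sqrt_geJ (s := 0.9309) (by norm_num) (by norm_num) (by norm_num) (by norm_num))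
    (by norm_num) (by norm_num) (by norm_num) (by norm_num) (by norm_num) (by norm_num) (by norm_num) (by norm_num) (by norm_num) (by norm_num) (by norm_num) (by norm_num) (by norm_num) (by norm_num) (by norm_num) (by norm_num) (by norm_num) (by norm_num)
    (exp_neg_leJ (r := 0.556) 9 (by norm_num) (by norm_num) (by norm_num) (by norm_num))
    (exp_neg_leJ (r := 0.088) 6 (by norm_num) (by norm_num) (by norm_num) (by norm_num))
    (exp_neg_leJ (r := 0.781) 10 (by norm_num) (by norm_num) (by norm_num) (by norm_num))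
    (exp_neg_leJ (r := 0.99) 14 (by norm_num) (by norm_num) (by norm_num) (by norm_num))
    (exp_neg_leJ (r := 0.119) 10 (by norm_num) (by norm_num) (by norm_num) (by norm_num))
    (exp_neg_leJ (r := 0.99) 14 (by norm_num) (by norm_num) (by norm_num) (by norm_num))
    (exp_neg_leJ (r := 0.99) 14 (by norm_num) (by norm_num) (by norm_num) (by norm_num))
    (exp_neg_leJ (r := 0.99) 14 (by norm_num) (by norm_num) (by norm_num) (by norm_num))
    (by norm_num)) (by norm_num) hN hβ.le (by norm_num)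

private theorem JB8_k0_b8_1 {β x y : ℝ} (hβ : 0 < β) (hN : β * 18.968 ≤ 1) (hx1 : 0.8888 ≤ x) (hx2 : x ≤ 0.9839)
    (hy1 : -0.464 ≤ y) (hy2 : y ≤ -0.449) : ‖HH β (x + y * I) - 1‖ ≤ 0.07 := by
  refine le_epsJ (C := 1.2986) (N0 := 18.968) (J_boxp 0.8888 0.9839 0.464 0 (-0.449) 1.0064 1.0879 1.1277 1.0519 0.4237 4.3553 18.968 1.081 4.778 1.644 0.6133 0.5031 0.3218 0.5801 2.0508 0.5332 1.7306 2.087 3.5324 0.0000718 0.002237 0.00001666 0.0000003101 0.00004055 0.0000003101 0.0000003101 0.0000003101 1.2986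
    hβ hN hx1 hx2 hy1 hy2 (by norm_num) (by norm_num) (by linarith) (by norm_num) (by norm_num) (by norm_num) (by norm_num) (by norm_num) (by norm_num) (by norm_num) (by norm_num) (by norm_num) (by norm_num) (by norm_num) (by norm_num) (by norm_num) (by norm_num) (by norm_num) (by norm_num) (by norm_num) (by norm_num) (by norm_num) (by norm_num) (by norm_num)
    (cube_sqrt_geJ (s := 0.7997) (by norm_num) (by norm_num) (by norm_num) (by norm_num))
    (cube_sqrt_geJ (s := 0.9314) (by norm_num) (by norm_num) (by norm_num) (by norm_num))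
    (by norm_num) (by norm_num) (by norm_num) (by norm_num) (by norm_num) (by norm_num) (by norm_num) (by norm_num) (by norm_num) (by norm_num) (by norm_num) (by norm_num) (by norm_num) (by norm_num) (by norm_num) (by norm_num) (by norm_num) (by norm_num)
    (exp_neg_leJ (r := 0.542) 9 (by norm_num) (by norm_num) (by norm_num) (by norm_num))
    (exp_neg_leJ (r := 0.103) 6 (by norm_num) (by norm_num) (by norm_num) (by norm_num))
    (exp_neg_leJ (r := 0.003) 11 (by norm_num) (by norm_num) (by norm_num) (by norm_num))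
    (exp_neg_leJ (r := 0.99) 14 (by norm_num) (by norm_num) (by norm_num) (by norm_num))
    (exp_neg_leJ (r := 0.113) 10 (by norm_num) (by norm_num) (by norm_num) (by norm_num))
    (exp_neg_leJ (r := 0.99) 14 (by norm_num) (by norm_num) (by norm_num) (by norm_num))
    (exp_neg_leJ (r := 0.99) 14 (by norm_num) (by norm_num) (by norm_num) (by norm_num))
    (exp_neg_leJ (r := 0.99) 14 (by norm_num) (by norm_num) (by norm_num) (by norm_num))
    (by norm_num)) (by norm_num) hN hβ.le (by norm_num)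

private theorem JB8_k0_b8_2 {β x y : ℝ} (hβ : 0 < β) (hN : β * 18.968 ≤ 1) (hx1 : 0.8632 ≤ x) (hx2 : x ≤ 0.9796)
    (hy1 : -0.449 ≤ y) (hy2 : y ≤ -0.419) : ‖HH β (x + y * I) - 1‖ ≤ 0.07 := by
  refine le_epsJ (C := 1.313) (N0 := 18.968) (J_boxp 0.8632 0.9796 0.449 0 (-0.419) 0.999 1.0776 1.139 1.0689 0.4258 4.3553 18.968 1.0787 4.758 1.642 0.6288 0.4994 0.3198 0.595 2.102 0.529 1.6951 2.0765 3.5092 0.00007699 0.002323 0.00001257 0.0000003101 0.00004389 0.0000003101 0.0000003101 0.0000003101 1.313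
    hβ hN hx1 hx2 hy1 hy2 (by norm_num) (by norm_num) (by linarith) (by norm_num) (by norm_num) (by norm_num) (by norm_num) (by norm_num) (by norm_num) (by norm_num) (by norm_num) (by norm_num) (by norm_num) (by norm_num) (by norm_num) (by norm_num) (by norm_num) (by norm_num) (by norm_num) (by norm_num) (by norm_num) (by norm_num) (by norm_num) (by norm_num)
    (cube_sqrt_geJ (s := 0.8002) (by norm_num) (by norm_num) (by norm_num) (by norm_num))
    (cube_sqrt_geJ (s := 0.9316) (by norm_num) (by norm_num) (by norm_num) (by norm_num))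
    (by norm_num) (by norm_num) (by norm_num) (by norm_num) (by norm_num) (by norm_num) (by norm_num) (by norm_num) (by norm_num) (by norm_num) (by norm_num) (by norm_num) (by norm_num) (by norm_num) (by norm_num) (by norm_num) (by norm_num) (by norm_num)
    (exp_neg_leJ (r := 0.472) 9 (by norm_num) (by norm_num) (by norm_num) (by norm_num))
    (exp_neg_leJ (r := 0.065) 6 (by norm_num) (by norm_num) (by norm_num) (by norm_num))
    (exp_neg_leJ (r := 0.285) 11 (by norm_num) (by norm_num) (by norm_num) (by norm_num))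
    (exp_neg_leJ (r := 0.99) 14 (by norm_num) (by norm_num) (by norm_num) (by norm_num))
    (exp_neg_leJ (r := 0.034) 10 (by norm_num) (by norm_num) (by norm_num) (by norm_num))
    (exp_neg_leJ (r := 0.99) 14 (by norm_num) (by norm_num) (by norm_num) (by norm_num))
    (exp_neg_leJ (r := 0.99) 14 (by norm_num) (by norm_num) (by norm_num) (by norm_num))
    (exp_neg_leJ (r := 0.99) 14 (by norm_num) (by norm_num) (by norm_num) (by norm_num))
    (by norm_num)) (by norm_num) hN hβ.le (by norm_num)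

private theorem JB8_k0_b8_3 {β x y : ℝ} (hβ : 0 < β) (hN : β * 18.968 ≤ 1) (hx1 : 0.815 ≤ x) (hx2 : x ≤ 0.9696)
    (hy1 : -0.419 ≤ y) (hy2 : y ≤ -0.359) : ‖HH β (x + y * I) - 1‖ ≤ 0.07 := by
  refine le_epsJ (C := 1.3262) (N0 := 18.968) (J_boxp 0.815 0.9696 0.419 0 (-0.359) 0.9864 1.0563 1.1624 1.1006 0.4302 4.3553 18.968 1.0709 4.691 1.636 0.6604 0.4931 0.3171 0.6258 2.205 0.5219 1.6284 2.0617 3.4707 0.00008671 0.002445 0.000007012 0.0000003101 0.00005035 0.0000003101 0.0000003101 0.0000003101 1.3262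
    hβ hN hx1 hx2 hy1 hy2 (by norm_num) (by norm_num) (by linarith) (by norm_num) (by norm_num) (by norm_num) (by norm_num) (by norm_num) (by norm_num) (by norm_num) (by norm_num) (by norm_num) (by norm_num) (by norm_num) (by norm_num) (by norm_num) (by norm_num) (by norm_num) (by norm_num) (by norm_num) (by norm_num) (by norm_num) (by norm_num) (by norm_num)
    (cube_sqrt_geJ (s := 0.8018) (by norm_num) (by norm_num) (by norm_num) (by norm_num))
    (cube_sqrt_geJ (s := 0.9321) (by norm_num) (by norm_num) (by norm_num) (by norm_num))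
    (by norm_num) (by norm_num) (by norm_num) (by norm_num) (by norm_num) (by norm_num) (by norm_num) (by norm_num) (by norm_num) (by norm_num) (by norm_num) (by norm_num) (by norm_num) (by norm_num) (by norm_num) (by norm_num) (by norm_num) (by norm_num)
    (exp_neg_leJ (r := 0.353) 9 (by norm_num) (by norm_num) (by norm_num) (by norm_num))
    (exp_neg_leJ (r := 0.014) 6 (by norm_num) (by norm_num) (by norm_num) (by norm_num))
    (exp_neg_leJ (r := 0.87) 11 (by norm_num) (by norm_num) (by norm_num) (by norm_num))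
    (exp_neg_leJ (r := 0.99) 14 (by norm_num) (by norm_num) (by norm_num) (by norm_num))
    (exp_neg_leJ (r := 0.899) 9 (by norm_num) (by norm_num) (by norm_num) (by norm_num))
    (exp_neg_leJ (r := 0.99) 14 (by norm_num) (by norm_num) (by norm_num) (by norm_num))
    (exp_neg_leJ (r := 0.99) 14 (by norm_num) (by norm_num) (by norm_num) (by norm_num))
    (exp_neg_leJ (r := 0.99) 14 (by norm_num) (by norm_num) (by norm_num) (by norm_num))
    (by norm_num)) (by norm_num) hN hβ.le (by norm_num)

private theorem JB8_k0_b8_4 {β x y : ℝ} (hβ : 0 < β) (hN : β * 18.968 ≤ 1) (hx1 : 0.7246 ≤ x) (hx2 : x ≤ 0.9452)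
    (hy1 : -0.359 ≤ y) (hy2 : y ≤ -0.234) : ‖HH β (x + y * I) - 1‖ ≤ 0.07 := by
  refine le_epsJ (C := 1.3188) (N0 := 18.968) (J_boxp 0.7246 0.9452 0.359 0 (-0.234) 0.9653 1.0111 1.2167 1.1631 0.4401 4.3553 18.968 1.0475 4.497 1.617 0.7251 0.4826 0.3141 0.6896 2.4131 0.5108 1.5032 2.044 3.4128 0.000106 0.002596 0.000002087 0.0000003101 0.00006207 0.0000003101 0.0000003101 0.0000003101 1.3188
    hβ hN hx1 hx2 hy1 hy2 (by norm_num) (by norm_num) (by linarith) (by norm_num) (by norm_num) (by norm_num) (by norm_num) (by norm_num) (by norm_num) (by norm_num) (by norm_num) (by norm_num) (by norm_num) (by norm_num) (by norm_num) (by norm_num) (by norm_num) (by norm_num) (by norm_num) (by norm_num) (by norm_num) (by norm_num) (by norm_num) (by norm_num)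
    (cube_sqrt_geJ (s := 0.8067) (by norm_num) (by norm_num) (by norm_num) (by norm_num))
    (cube_sqrt_geJ (s := 0.9336) (by norm_num) (by norm_num) (by norm_num) (by norm_num))
    (by norm_num) (by norm_num) (by norm_num) (by norm_num) (by norm_num) (by norm_num) (by norm_num) (by norm_num) (by norm_num) (by norm_num) (by norm_num) (by norm_num) (by norm_num) (by norm_num) (by norm_num) (by norm_num) (by norm_num) (by norm_num)
    (exp_neg_leJ (r := 0.153) 9 (by norm_num) (by norm_num) (by norm_num) (by norm_num))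
    (exp_neg_leJ (r := 0.957) 5 (by norm_num) (by norm_num) (by norm_num) (by norm_num))
    (exp_neg_leJ (r := 0.08) 13 (by norm_num) (by norm_num) (by norm_num) (by norm_num))
    (exp_neg_leJ (r := 0.99) 14 (by norm_num) (by norm_num) (by norm_num) (by norm_num))
    (exp_neg_leJ (r := 0.688) 9 (by norm_num) (by norm_num) (by norm_num) (by norm_num))
    (exp_neg_leJ (r := 0.99) 14 (by norm_num) (by norm_num) (by norm_num) (by norm_num))
    (exp_neg_leJ (r := 0.99) 14 (by norm_num) (by norm_num) (by norm_num) (by norm_num))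
    (exp_neg_leJ (r := 0.99) 14 (by norm_num) (by norm_num) (by norm_num) (by norm_num))
    (by norm_num)) (by norm_num) hN hβ.le (by norm_num)

private theorem JB8_k0_b8_5 {β x y : ℝ} (hβ : 0 < β) (hN : β * 18.968 ≤ 1) (hx1 : 0.5827 ≤ x) (hx2 : x ≤ 0.8593)
    (hy1 : -0.234 ≤ y) (hy2 : y ≤ 0.019) : ‖HH β (x + y * I) - 1‖ ≤ 0.07 := by
  refine le_epsJ (C := 1.0195) (N0 := 18.968) (J_boxp 0.5827 0.8593 0.234 0.019 0.019 0.9542 0.8906 1.333 1.2387 0.4607 4.3553 18.968 0.9334 3.687 1.53 0.8736 0.477 0.3286 0.8383 2.8644 0.5082 1.3048 2.0185 3.367 0.0001178 0.001966 0.0000003101 0.0000003101 0.00006518 0.0000003101 0.0000003101 0.0000003101 1.0195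
    hβ hN hx1 hx2 hy1 hy2 (by norm_num) (by norm_num) (by linarith) (by norm_num) (by norm_num) (by norm_num) (by norm_num) (by norm_num) (by norm_num) (by norm_num) (by norm_num) (by norm_num) (by norm_num) (by norm_num) (by norm_num) (by norm_num) (by norm_num) (by norm_num) (by norm_num) (by norm_num) (by norm_num) (by norm_num) (by norm_num) (by norm_num)
    (cube_sqrt_geJ (s := 0.8299) (by norm_num) (by norm_num) (by norm_num) (by norm_num))
    (cube_sqrt_geJ (s := 0.9411) (by norm_num) (by norm_num) (by norm_num) (by norm_num))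
    (by norm_num) (by norm_num) (by norm_num) (by norm_num) (by norm_num) (by norm_num) (by norm_num) (by norm_num) (by norm_num) (by norm_num) (by norm_num) (by norm_num) (by norm_num) (by norm_num) (by norm_num) (by norm_num) (by norm_num) (by norm_num)
    (exp_neg_leJ (r := 0.047) 9 (by norm_num) (by norm_num) (by norm_num) (by norm_num))
    (exp_neg_leJ (r := 0.232) 6 (by norm_num) (by norm_num) (by norm_num) (by norm_num))
    (exp_neg_leJ (r := 0.99) 14 (by norm_num) (by norm_num) (by norm_num) (by norm_num))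
    (exp_neg_leJ (r := 0.99) 14 (by norm_num) (by norm_num) (by norm_num) (by norm_num))
    (exp_neg_leJ (r := 0.639) 9 (by norm_num) (by norm_num) (by norm_num) (by norm_num))
    (exp_neg_leJ (r := 0.99) 14 (by norm_num) (by norm_num) (by norm_num) (by norm_num))
    (exp_neg_leJ (r := 0.99) 14 (by norm_num) (by norm_num) (by norm_num) (by norm_num))
    (exp_neg_leJ (r := 0.99) 14 (by norm_num) (by norm_num) (by norm_num) (by norm_num))
    (by norm_num)) (by norm_num) hN hβ.le (by norm_num)

theorem JB8_k0_c8 {κ t β : ℝ} (h : DomR κ t) (hβ : 0 < β) (hk1 : 0.64 ≤ κ) (hk2 : κ ≤ 0.68)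
    (ht1 : -0.7465 ≤ t + κ) (ht2 : t + κ ≤ 0.04) (hR0 : β * 10 ≤ κ) (hR : β * (8.82 * (1 + κ ^ 2)) ≤ κ) :
    ‖HH β (sg κ t) - 1‖ ≤ 0.07 := by
  have hN : β * 18.968 ≤ 1 := bNC hβ h.1 hk2 (by norm_num) (by norm_num) hR (by norm_num)
  have hy1 : -0.474 ≤ sy κ t := syL_ge h 0.64 0.68 0.7465 0.474 0.6225 0.62251 0.4474 0.43391 0.46105 hk1 hk2 (by linarith) (by norm_num) (by norm_num) (by norm_num)
    (expm_ge (by norm_num) (by norm_num) (by norm_num) (by norm_num)) (expm_le (by norm_num) (by norm_num) (by norm_num)) (by norm_num)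
    (by norm_num) (by norm_num) (by norm_num) (by norm_num) (by norm_num) (by norm_num)
  have hy2 : sy κ t ≤ 0.019 := syR_le h 0.64 0.68 0.04 0.019 1.01918 0.028 0.02847 0.03026 hk1 hk2 (by linarith) (by norm_num) (by norm_num)
    (expn_ge (by norm_num) (by norm_num)) (by norm_num) (by norm_num) (Or.inr ((mul_le_mul_of_nonneg_left (expn_le (E := 1.01919) (by norm_num) (by norm_num) (by norm_num)) (by norm_num)).trans (by norm_num))) (by norm_num) (by norm_num) (by norm_num)
  rcases le_total (sy κ t) (-0.464) with f0 | g0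
  · have hx1 : 0.9007 ≤ sx κ t := sx_lo h 0.64 (-0.464) 0.474 1.59042 0.9007 hk1 (by norm_num) f0 (abs_le.2 ⟨by linarith, by linarith⟩) (by rw [neg_neg]; exact expn_ge (by norm_num) (by norm_num)) (by norm_num) (by norm_num)
    have hx2 : sx κ t ≤ 0.989 := sx_hi h 0.68 (-0.474) 0.464 1.60641 0.989 hk2 hy1 (by norm_num) (by rw [abs_of_nonpos (by linarith)]; linarith) (by rw [neg_neg]; exact expn_le (by norm_num) (by norm_num) (by norm_num)) (by norm_num) (by norm_num)
    exact JB8_k0_b8_0 hβ hN hx1 hx2 (by linarith) (by linarith)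
  rcases le_total (sy κ t) (-0.449) with f1 | g1
  · have hx1 : 0.8888 ≤ sx κ t := sx_lo h 0.64 (-0.449) 0.464 1.56674 0.8888 hk1 (by norm_num) f1 (abs_le.2 ⟨by linarith, by linarith⟩) (by rw [neg_neg]; exact expn_ge (by norm_num) (by norm_num)) (by norm_num) (by norm_num)
    have hx2 : sx κ t ≤ 0.9839 := sx_hi h 0.68 (-0.464) 0.449 1.59043 0.9839 hk2 g0 (by norm_num) (by rw [abs_of_nonpos (by linarith)]; linarith) (by rw [neg_neg]; exact expn_le (by norm_num) (by norm_num) (by norm_num)) (by norm_num) (by norm_num)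
    exact JB8_k0_b8_1 hβ hN hx1 hx2 (by linarith) (by linarith)
  rcases le_total (sy κ t) (-0.419) with f2 | g2
  · have hx1 : 0.8632 ≤ sx κ t := sx_lo h 0.64 (-0.419) 0.449 1.52043 0.8632 hk1 (by norm_num) f2 (abs_le.2 ⟨by linarith, by linarith⟩) (by rw [neg_neg]; exact expn_ge (by norm_num) (by norm_num)) (by norm_num) (by norm_num)
    have hx2 : sx κ t ≤ 0.9796 := sx_hi h 0.68 (-0.449) 0.419 1.56675 0.9796 hk2 g1 (by norm_num) (by rw [abs_of_nonpos (by linarith)]; linarith) (by rw [neg_neg]; exact expn_le (by norm_num) (by norm_num) (by norm_num)) (by norm_num) (by norm_num)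
    exact JB8_k0_b8_2 hβ hN hx1 hx2 (by linarith) (by linarith)
  rcases le_total (sy κ t) (-0.359) with f3 | g3
  · have hx1 : 0.815 ≤ sx κ t := sx_lo h 0.64 (-0.359) 0.419 1.43189 0.815 hk1 (by norm_num) f3 (abs_le.2 ⟨by linarith, by linarith⟩) (by rw [neg_neg]; exact expn_ge (by norm_num) (by norm_num)) (by norm_num) (by norm_num)
    have hx2 : sx κ t ≤ 0.9696 := sx_hi h 0.68 (-0.419) 0.359 1.52045 0.9696 hk2 g2 (by norm_num) (by rw [abs_of_nonpos (by linarith)]; linarith) (by rw [neg_neg]; exact expn_le (by norm_num) (by norm_num) (by norm_num)) (by norm_num) (by norm_num)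
    exact JB8_k0_b8_3 hβ hN hx1 hx2 (by linarith) (by linarith)
  rcases le_total (sy κ t) (-0.234) with f4 | g4
  · have hx1 : 0.7246 ≤ sx κ t := sx_lo h 0.64 (-0.234) 0.359 1.26364 0.7246 hk1 (by norm_num) f4 (abs_le.2 ⟨by linarith, by linarith⟩) (by rw [neg_neg]; exact expn_ge (by norm_num) (by norm_num)) (by norm_num) (by norm_num)
    have hx2 : sx κ t ≤ 0.9452 := sx_hi h 0.68 (-0.359) 0.234 1.4319 0.9452 hk2 g3 (by norm_num) (by rw [abs_of_nonpos (by linarith)]; linarith) (by rw [neg_neg]; exact expn_le (by norm_num) (by norm_num) (by norm_num)) (by norm_num) (by norm_num)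
    exact JB8_k0_b8_4 hβ hN hx1 hx2 (by linarith) (by linarith)
  have hx1 : 0.5827 ≤ sx κ t := sx_lo h 0.64 0.019 0.234 0.98117 0.5827 hk1 (by norm_num) hy2 (abs_le.2 ⟨by linarith, by linarith⟩) (expm_ge (by norm_num) (by norm_num) (by norm_num) (by norm_num)) (by norm_num) (by norm_num)
  have hx2 : sx κ t ≤ 0.8593 := sx_hi h 0.68 (-0.234) 0 1.26365 0.8593 hk2 g4 (by norm_num) (abs_nonneg _) (by rw [neg_neg]; exact expn_le (by norm_num) (by norm_num) (by norm_num)) (by norm_num) (by norm_num)
  exact JB8_k0_b8_5 hβ hN hx1 hx2 (by linarith) (by linarith)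

private theorem JB8_k0_b9_0 {β x y : ℝ} (hβ : 0 < β) (hN : β * 18.6 ≤ 1) (hx1 : 0.9706 ≤ x) (hx2 : x ≤ 1.0579)
    (hy1 : -0.472 ≤ y) (hy2 : y ≤ -0.462) : ‖HH β (x + y * I) - 1‖ ≤ 0.07 := by
  refine le_epsJ (C := 1.276) (N0 := 18.6) (J_boxp 0.9706 1.0579 0.472 0 (-0.462) 1.0583 1.1585 1.1869 1.0007 0.4347 4.3128 18.6 1.0947 4.899 1.655 0.5775 0.5291 0.336 0.5954 1.9839 0.5686 1.8439 2.2288 3.5041 0.00005332 0.001933 0.00001552 0.0000003101 0.00002556 0.0000003101 0.0000003101 0.0000003101 1.276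
    hβ hN hx1 hx2 hy1 hy2 (by norm_num) (by norm_num) (by linarith) (by norm_num) (by norm_num) (by norm_num) (by norm_num) (by norm_num) (by norm_num) (by norm_num) (by norm_num) (by norm_num) (by norm_num) (by norm_num) (by norm_num) (by norm_num) (by norm_num) (by norm_num) (by norm_num) (by norm_num) (by norm_num) (by norm_num) (by norm_num) (by norm_num)
    (cube_sqrt_geJ (s := 0.7969) (by norm_num) (by norm_num) (by norm_num) (by norm_num))
    (cube_sqrt_geJ (s := 0.9305) (by norm_num) (by norm_num) (by norm_num) (by norm_num))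
    (by norm_num) (by norm_num) (by norm_num) (by norm_num) (by norm_num) (by norm_num) (by norm_num) (by norm_num) (by norm_num) (by norm_num) (by norm_num) (by norm_num) (by norm_num) (by norm_num) (by norm_num) (by norm_num) (by norm_num) (by norm_num)
    (exp_neg_leJ (r := 0.841) 9 (by norm_num) (by norm_num) (by norm_num) (by norm_num))
    (exp_neg_leJ (r := 0.249) 6 (by norm_num) (by norm_num) (by norm_num) (by norm_num))
    (exp_neg_leJ (r := 0.074) 11 (by norm_num) (by norm_num) (by norm_num) (by norm_num))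
    (exp_neg_leJ (r := 0.99) 14 (by norm_num) (by norm_num) (by norm_num) (by norm_num))
    (exp_neg_leJ (r := 0.575) 10 (by norm_num) (by norm_num) (by norm_num) (by norm_num))
    (exp_neg_leJ (r := 0.99) 14 (by norm_num) (by norm_num) (by norm_num) (by norm_num))
    (exp_neg_leJ (r := 0.99) 14 (by norm_num) (by norm_num) (by norm_num) (by norm_num))
    (exp_neg_leJ (r := 0.99) 14 (by norm_num) (by norm_num) (by norm_num) (by norm_num))
    (by norm_num)) (by norm_num) hN hβ.le (by norm_num)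

private theorem JB8_k0_b9_1 {β x y : ℝ} (hβ : 0 < β) (hN : β * 18.6 ≤ 1) (hx1 : 0.9517 ≤ x) (hx2 : x ≤ 1.0539)
    (hy1 : -0.462 ≤ y) (hy2 : y ≤ -0.442) : ‖HH β (x + y * I) - 1‖ ≤ 0.07 := by
  refine le_epsJ (C := 1.2891) (N0 := 18.6) (J_boxp 0.9517 1.0539 0.462 0 (-0.442) 1.0521 1.1508 1.1926 1.012 0.4357 4.3128 18.6 1.0939 4.892 1.655 0.5883 0.526 0.3342 0.6048 2.0186 0.5648 1.8177 2.2182 3.4872 0.00005648 0.001998 0.00001303 0.0000003101 0.00002741 0.0000003101 0.0000003101 0.0000003101 1.2891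
    hβ hN hx1 hx2 hy1 hy2 (by norm_num) (by norm_num) (by linarith) (by norm_num) (by norm_num) (by norm_num) (by norm_num) (by norm_num) (by norm_num) (by norm_num) (by norm_num) (by norm_num) (by norm_num) (by norm_num) (by norm_num) (by norm_num) (by norm_num) (by norm_num) (by norm_num) (by norm_num) (by norm_num) (by norm_num) (by norm_num) (by norm_num)
    (cube_sqrt_geJ (s := 0.797) (by norm_num) (by norm_num) (by norm_num) (by norm_num))
    (cube_sqrt_geJ (s := 0.9306) (by norm_num) (by norm_num) (by norm_num) (by norm_num))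
    (by norm_num) (by norm_num) (by norm_num) (by norm_num) (by norm_num) (by norm_num) (by norm_num) (by norm_num) (by norm_num) (by norm_num) (by norm_num) (by norm_num) (by norm_num) (by norm_num) (by norm_num) (by norm_num) (by norm_num) (by norm_num)
    (exp_neg_leJ (r := 0.783) 9 (by norm_num) (by norm_num) (by norm_num) (by norm_num))
    (exp_neg_leJ (r := 0.216) 6 (by norm_num) (by norm_num) (by norm_num) (by norm_num))
    (exp_neg_leJ (r := 0.249) 11 (by norm_num) (by norm_num) (by norm_num) (by norm_num))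
    (exp_neg_leJ (r := 0.99) 14 (by norm_num) (by norm_num) (by norm_num) (by norm_num))
    (exp_neg_leJ (r := 0.505) 10 (by norm_num) (by norm_num) (by norm_num) (by norm_num))
    (exp_neg_leJ (r := 0.99) 14 (by norm_num) (by norm_num) (by norm_num) (by norm_num))
    (exp_neg_leJ (r := 0.99) 14 (by norm_num) (by norm_num) (by norm_num) (by norm_num))
    (exp_neg_leJ (r := 0.99) 14 (by norm_num) (by norm_num) (by norm_num) (by norm_num))
    (by norm_num)) (by norm_num) hN hβ.le (by norm_num)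

private theorem JB8_k0_b9_2 {β x y : ℝ} (hβ : 0 < β) (hN : β * 18.6 ≤ 1) (hx1 : 0.9209 ≤ x) (hx2 : x ≤ 1.0437)
    (hy1 : -0.442 ≤ y) (hy2 : y ≤ -0.407) : ‖HH β (x + y * I) - 1‖ ≤ 0.07 := by
  refine le_epsJ (C := 1.2774) (N0 := 18.6) (J_boxp 0.9209 1.0437 0.442 0 (-0.407) 1.0446 1.1335 1.2004 1.0263 0.4371 4.3128 18.6 1.0852 4.814 1.648 0.6106 0.5222 0.3333 0.6258 2.0891 0.5608 1.775 2.211 3.4727 0.00006061 0.002032 0.000008821 0.0000003101 0.00002954 0.0000003101 0.0000003101 0.0000003101 1.2774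
    hβ hN hx1 hx2 hy1 hy2 (by norm_num) (by norm_num) (by linarith) (by norm_num) (by norm_num) (by norm_num) (by norm_num) (by norm_num) (by norm_num) (by norm_num) (by norm_num) (by norm_num) (by norm_num) (by norm_num) (by norm_num) (by norm_num) (by norm_num) (by norm_num) (by norm_num) (by norm_num) (by norm_num) (by norm_num) (by norm_num) (by norm_num)
    (cube_sqrt_geJ (s := 0.7989) (by norm_num) (by norm_num) (by norm_num) (by norm_num))
    (cube_sqrt_geJ (s := 0.9311) (by norm_num) (by norm_num) (by norm_num) (by norm_num))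
    (by norm_num) (by norm_num) (by norm_num) (by norm_num) (by norm_num) (by norm_num) (by norm_num) (by norm_num) (by norm_num) (by norm_num) (by norm_num) (by norm_num) (by norm_num) (by norm_num) (by norm_num) (by norm_num) (by norm_num) (by norm_num)
    (exp_neg_leJ (r := 0.712) 9 (by norm_num) (by norm_num) (by norm_num) (by norm_num))
    (exp_neg_leJ (r := 0.199) 6 (by norm_num) (by norm_num) (by norm_num) (by norm_num))
    (exp_neg_leJ (r := 0.639) 11 (by norm_num) (by norm_num) (by norm_num) (by norm_num))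
    (exp_neg_leJ (r := 0.99) 14 (by norm_num) (by norm_num) (by norm_num) (by norm_num))
    (exp_neg_leJ (r := 0.43) 10 (by norm_num) (by norm_num) (by norm_num) (by norm_num))
    (exp_neg_leJ (r := 0.99) 14 (by norm_num) (by norm_num) (by norm_num) (by norm_num))
    (exp_neg_leJ (r := 0.99) 14 (by norm_num) (by norm_num) (by norm_num) (by norm_num))
    (exp_neg_leJ (r := 0.99) 14 (by norm_num) (by norm_num) (by norm_num) (by norm_num))
    (by norm_num)) (by norm_num) hN hβ.le (by norm_num)

private theorem JB8_k0_b9_3 {β x y : ℝ} (hβ : 0 < β) (hN : β * 18.6 ≤ 1) (hx1 : 0.8611 ≤ x) (hx2 : x ≤ 1.0279)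
    (hy1 : -0.407 ≤ y) (hy2 : y ≤ -0.337) : ‖HH β (x + y * I) - 1‖ ≤ 0.07 := by
  refine le_epsJ (C := 1.2931) (N0 := 18.6) (J_boxp 0.8611 1.0279 0.407 0 (-0.337) 1.0274 1.1056 1.2232 1.0621 0.4413 4.3128 18.6 1.0762 4.737 1.64 0.649 0.5136 0.3294 0.6606 2.2114 0.5509 1.6922 2.1865 3.4289 0.00007108 0.002186 0.000004612 0.0000003101 0.0000355 0.0000003101 0.0000003101 0.0000003101 1.2931
    hβ hN hx1 hx2 hy1 hy2 (by norm_num) (by norm_num) (by linarith) (by norm_num) (by norm_num) (by norm_num) (by norm_num) (by norm_num) (by norm_num) (by norm_num) (by norm_num) (by norm_num) (by norm_num) (by norm_num) (by norm_num) (by norm_num) (by norm_num) (by norm_num) (by norm_num) (by norm_num) (by norm_num) (by norm_num) (by norm_num) (by norm_num)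
    (cube_sqrt_geJ (s := 0.8007) (by norm_num) (by norm_num) (by norm_num) (by norm_num))
    (cube_sqrt_geJ (s := 0.9317) (by norm_num) (by norm_num) (by norm_num) (by norm_num))
    (by norm_num) (by norm_num) (by norm_num) (by norm_num) (by norm_num) (by norm_num) (by norm_num) (by norm_num) (by norm_num) (by norm_num) (by norm_num) (by norm_num) (by norm_num) (by norm_num) (by norm_num) (by norm_num) (by norm_num) (by norm_num)
    (exp_neg_leJ (r := 0.552) 9 (by norm_num) (by norm_num) (by norm_num) (by norm_num))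
    (exp_neg_leJ (r := 0.126) 6 (by norm_num) (by norm_num) (by norm_num) (by norm_num))
    (exp_neg_leJ (r := 0.287) 12 (by norm_num) (by norm_num) (by norm_num) (by norm_num))
    (exp_neg_leJ (r := 0.99) 14 (by norm_num) (by norm_num) (by norm_num) (by norm_num))
    (exp_neg_leJ (r := 0.246) 10 (by norm_num) (by norm_num) (by norm_num) (by norm_num))
    (exp_neg_leJ (r := 0.99) 14 (by norm_num) (by norm_num) (by norm_num) (by norm_num))
    (exp_neg_leJ (r := 0.99) 14 (by norm_num) (by norm_num) (by norm_num) (by norm_num))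
    (exp_neg_leJ (r := 0.99) 14 (by norm_num) (by norm_num) (by norm_num) (by norm_num))
    (by norm_num)) (by norm_num) hN hβ.le (by norm_num)

private theorem JB8_k0_b9_4 {β x y : ℝ} (hβ : 0 < β) (hN : β * 18.6 ≤ 1) (hx1 : 0.7473 ≤ x) (hx2 : x ≤ 0.9911)
    (hy1 : -0.337 ≤ y) (hy2 : y ≤ -0.187) : ‖HH β (x + y * I) - 1‖ ≤ 0.07 := by
  refine le_epsJ (C := 1.2958) (N0 := 18.6) (J_boxp 0.7473 0.9911 0.337 0 (-0.187) 0.9969 1.0469 1.2819 1.1375 0.4517 4.3128 18.6 1.0502 4.519 1.62 0.7278 0.4984 0.3239 0.7321 2.4583 0.5339 1.5347 2.1492 3.3609 0.00009422 0.00242 0.000001221 0.0000003101 0.00004883 0.0000003101 0.0000003101 0.0000003101 1.2958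
    hβ hN hx1 hx2 hy1 hy2 (by norm_num) (by norm_num) (by linarith) (by norm_num) (by norm_num) (by norm_num) (by norm_num) (by norm_num) (by norm_num) (by norm_num) (by norm_num) (by norm_num) (by norm_num) (by norm_num) (by norm_num) (by norm_num) (by norm_num) (by norm_num) (by norm_num) (by norm_num) (by norm_num) (by norm_num) (by norm_num) (by norm_num)
    (cube_sqrt_geJ (s := 0.8061) (by norm_num) (by norm_num) (by norm_num) (by norm_num))
    (cube_sqrt_geJ (s := 0.9334) (by norm_num) (by norm_num) (by norm_num) (by norm_num))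
    (by norm_num) (by norm_num) (by norm_num) (by norm_num) (by norm_num) (by norm_num) (by norm_num) (by norm_num) (by norm_num) (by norm_num) (by norm_num) (by norm_num) (by norm_num) (by norm_num) (by norm_num) (by norm_num) (by norm_num) (by norm_num)
    (exp_neg_leJ (r := 0.27) 9 (by norm_num) (by norm_num) (by norm_num) (by norm_num))
    (exp_neg_leJ (r := 0.024) 6 (by norm_num) (by norm_num) (by norm_num) (by norm_num))
    (exp_neg_leJ (r := 0.617) 13 (by norm_num) (by norm_num) (by norm_num) (by norm_num))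
    (exp_neg_leJ (r := 0.99) 14 (by norm_num) (by norm_num) (by norm_num) (by norm_num))
    (exp_neg_leJ (r := 0.93) 9 (by norm_num) (by norm_num) (by norm_num) (by norm_num))
    (exp_neg_leJ (r := 0.99) 14 (by norm_num) (by norm_num) (by norm_num) (by norm_num))
    (exp_neg_leJ (r := 0.99) 14 (by norm_num) (by norm_num) (by norm_num) (by norm_num))
    (exp_neg_leJ (r := 0.99) 14 (by norm_num) (by norm_num) (by norm_num) (by norm_num))
    (by norm_num)) (by norm_num) hN hβ.le (by norm_num)

private theorem JB8_k0_b9_5 {β x y : ℝ} (hβ : 0 < β) (hN : β * 18.6 ≤ 1) (hx1 : 0.6404 ≤ x) (hx2 : x ≤ 0.8681)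
    (hy1 : -0.187 ≤ y) (hy2 : y ≤ 0.019) : ‖HH β (x + y * I) - 1‖ ≤ 0.07 := by
  refine le_epsJ (C := 0.7367) (N0 := 18.6) (J_boxp 0.6404 0.8681 0.187 0.019 0.019 1.0282 0.8881 1.3387 1.1098 0.4616 4.3128 18.6 0.8638 3.283 1.479 0.9136 0.514 0.366 0.9323 3.0099 0.5619 1.3847 2.2616 3.4892 0.00007052 0.001108 0.0000003101 0.0000003101 0.00002893 0.0000003101 0.0000003101 0.0000003101 0.7367
    hβ hN hx1 hx2 hy1 hy2 (by norm_num) (by norm_num) (by linarith) (by norm_num) (by norm_num) (by norm_num) (by norm_num) (by norm_num) (by norm_num) (by norm_num) (by norm_num) (by norm_num) (by norm_num) (by norm_num) (by norm_num) (by norm_num) (by norm_num) (by norm_num) (by norm_num) (by norm_num) (by norm_num) (by norm_num) (by norm_num) (by norm_num)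
    (cube_sqrt_geJ (s := 0.8438) (by norm_num) (by norm_num) (by norm_num) (by norm_num))
    (cube_sqrt_geJ (s := 0.9456) (by norm_num) (by norm_num) (by norm_num) (by norm_num))
    (by norm_num) (by norm_num) (by norm_num) (by norm_num) (by norm_num) (by norm_num) (by norm_num) (by norm_num) (by norm_num) (by norm_num) (by norm_num) (by norm_num) (by norm_num) (by norm_num) (by norm_num) (by norm_num) (by norm_num) (by norm_num)
    (exp_neg_leJ (r := 0.56) 9 (by norm_num) (by norm_num) (by norm_num) (by norm_num))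
    (exp_neg_leJ (r := 0.807) 6 (by norm_num) (by norm_num) (by norm_num) (by norm_num))
    (exp_neg_leJ (r := 0.99) 14 (by norm_num) (by norm_num) (by norm_num) (by norm_num))
    (exp_neg_leJ (r := 0.99) 14 (by norm_num) (by norm_num) (by norm_num) (by norm_num))
    (exp_neg_leJ (r := 0.451) 10 (by norm_num) (by norm_num) (by norm_num) (by norm_num))
    (exp_neg_leJ (r := 0.99) 14 (by norm_num) (by norm_num) (by norm_num) (by norm_num))
    (exp_neg_leJ (r := 0.99) 14 (by norm_num) (by norm_num) (by norm_num) (by norm_num))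
    (exp_neg_leJ (r := 0.99) 14 (by norm_num) (by norm_num) (by norm_num) (by norm_num))
    (by norm_num)) (by norm_num) hN hβ.le (by norm_num)

theorem JB8_k0_c9 {κ t β : ℝ} (h : DomR κ t) (hβ : 0 < β) (hk1 : 0.68 ≤ κ) (hk2 : κ ≤ 0.72)
    (ht1 : -0.7465 ≤ t + κ) (ht2 : t + κ ≤ 0.04) (hR0 : β * 10 ≤ κ) (hR : β * (8.82 * (1 + κ ^ 2)) ≤ κ) :
    ‖HH β (sg κ t) - 1‖ ≤ 0.07 := by
  have hN : β * 18.6 ≤ 1 := bNC hβ h.1 hk2 (by norm_num) (by norm_num) hR (by norm_num)
  have hy1 : -0.472 ≤ sy κ t := syL_ge h 0.68 0.72 0.7465 0.472 0.62375 0.62376 0.4209 0.4089 0.43297 hk1 hk2 (by linarith) (by norm_num) (by norm_num) (by norm_num)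
    (expm_ge (by norm_num) (by norm_num) (by norm_num) (by norm_num)) (expm_le (by norm_num) (by norm_num) (by norm_num)) (by norm_num)
    (by norm_num) (by norm_num) (by norm_num) (by norm_num) (by norm_num) (by norm_num)
  have hy2 : sy κ t ≤ 0.019 := syR_le h 0.68 0.72 0.04 0.019 1.01918 0.0264 0.02689 0.02848 hk1 hk2 (by linarith) (by norm_num) (by norm_num)
    (expn_ge (by norm_num) (by norm_num)) (by norm_num) (by norm_num) (Or.inr ((mul_le_mul_of_nonneg_left (expn_le (E := 1.01919) (by norm_num) (by norm_num) (by norm_num)) (by norm_num)).trans (by norm_num))) (by norm_num) (by norm_num) (by norm_num)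
  rcases le_total (sy κ t) (-0.462) with f0 | g0
  · have hx1 : 0.9706 ≤ sx κ t := sx_lo h 0.68 (-0.462) 0.472 1.58724 0.9706 hk1 (by norm_num) f0 (abs_le.2 ⟨by linarith, by linarith⟩) (by rw [neg_neg]; exact expn_ge (by norm_num) (by norm_num)) (by norm_num) (by norm_num)
    have hx2 : sx κ t ≤ 1.0579 := sx_hi h 0.72 (-0.472) 0.462 1.6032 1.0579 hk2 hy1 (by norm_num) (by rw [abs_of_nonpos (by linarith)]; linarith) (by rw [neg_neg]; exact expn_le (by norm_num) (by norm_num) (by norm_num)) (by norm_num) (by norm_num)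
    exact JB8_k0_b9_0 hβ hN hx1 hx2 (by linarith) (by linarith)
  rcases le_total (sy κ t) (-0.442) with f1 | g1
  · have hx1 : 0.9517 ≤ sx κ t := sx_lo h 0.68 (-0.442) 0.462 1.55581 0.9517 hk1 (by norm_num) f1 (abs_le.2 ⟨by linarith, by linarith⟩) (by rw [neg_neg]; exact expn_ge (by norm_num) (by norm_num)) (by norm_num) (by norm_num)
    have hx2 : sx κ t ≤ 1.0539 := sx_hi h 0.72 (-0.462) 0.442 1.58725 1.0539 hk2 g0 (by norm_num) (by rw [abs_of_nonpos (by linarith)]; linarith) (by rw [neg_neg]; exact expn_le (by norm_num) (by norm_num) (by norm_num)) (by norm_num) (by norm_num)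
    exact JB8_k0_b9_1 hβ hN hx1 hx2 (by linarith) (by linarith)
  rcases le_total (sy κ t) (-0.407) with f2 | g2
  · have hx1 : 0.9209 ≤ sx κ t := sx_lo h 0.68 (-0.407) 0.442 1.5023 0.9209 hk1 (by norm_num) f2 (abs_le.2 ⟨by linarith, by linarith⟩) (by rw [neg_neg]; exact expn_ge (by norm_num) (by norm_num)) (by norm_num) (by norm_num)
    have hx2 : sx κ t ≤ 1.0437 := sx_hi h 0.72 (-0.442) 0.407 1.55582 1.0437 hk2 g1 (by norm_num) (by rw [abs_of_nonpos (by linarith)]; linarith) (by rw [neg_neg]; exact expn_le (by norm_num) (by norm_num) (by norm_num)) (by norm_num) (by norm_num)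
    exact JB8_k0_b9_2 hβ hN hx1 hx2 (by linarith) (by linarith)
  rcases le_total (sy κ t) (-0.337) with f3 | g3
  · have hx1 : 0.8611 ≤ sx κ t := sx_lo h 0.68 (-0.337) 0.407 1.40073 0.8611 hk1 (by norm_num) f3 (abs_le.2 ⟨by linarith, by linarith⟩) (by rw [neg_neg]; exact expn_ge (by norm_num) (by norm_num)) (by norm_num) (by norm_num)
    have hx2 : sx κ t ≤ 1.0279 := sx_hi h 0.72 (-0.407) 0.337 1.50231 1.0279 hk2 g2 (by norm_num) (by rw [abs_of_nonpos (by linarith)]; linarith) (by rw [neg_neg]; exact expn_le (by norm_num) (by norm_num) (by norm_num)) (by norm_num) (by norm_num)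
    exact JB8_k0_b9_3 hβ hN hx1 hx2 (by linarith) (by linarith)
  rcases le_total (sy κ t) (-0.187) with f4 | g4
  · have hx1 : 0.7473 ≤ sx κ t := sx_lo h 0.68 (-0.187) 0.337 1.20562 0.7473 hk1 (by norm_num) f4 (abs_le.2 ⟨by linarith, by linarith⟩) (by rw [neg_neg]; exact expn_ge (by norm_num) (by norm_num)) (by norm_num) (by norm_num)
    have hx2 : sx κ t ≤ 0.9911 := sx_hi h 0.72 (-0.337) 0.187 1.40074 0.9911 hk2 g3 (by norm_num) (by rw [abs_of_nonpos (by linarith)]; linarith) (by rw [neg_neg]; exact expn_le (by norm_num) (by norm_num) (by norm_num)) (by norm_num) (by norm_num)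
    exact JB8_k0_b9_4 hβ hN hx1 hx2 (by linarith) (by linarith)
  have hx1 : 0.6404 ≤ sx κ t := sx_lo h 0.68 0.019 0.187 0.98117 0.6404 hk1 (by norm_num) hy2 (abs_le.2 ⟨by linarith, by linarith⟩) (expm_ge (by norm_num) (by norm_num) (by norm_num) (by norm_num)) (by norm_num) (by norm_num)
  have hx2 : sx κ t ≤ 0.8681 := sx_hi h 0.72 (-0.187) 0 1.20563 0.8681 hk2 g4 (by norm_num) (abs_nonneg _) (by rw [neg_neg]; exact expn_le (by norm_num) (by norm_num) (by norm_num)) (by norm_num) (by norm_num)
  exact JB8_k0_b9_5 hβ hN hx1 hx2 (by linarith) (by linarith)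
end Sok
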