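import Pool.Agent.Lib.MP_816dec_an.JBG2

/-!
MP_816dec_an (A3, row R1): tables b = 8, real points.
-/

set_option autoImplicit false
set_option maxHeartbeats 4000000

open Complex Set

namespace Sok

private theorem JB8_k0_b10_0 {β x y : ℝ} (hβ : 0 < β) (hN : β * 18.308 ≤ 1) (hx1 : 1.0321 ≤ x) (hx2 : x ≤ 1.1268)
    (hy1 : -0.469 ≤ y) (hy2 : y ≤ -0.454) : ‖HH β (x + y * I) - 1‖ ≤ 0.07 := by
  refine le_epsJ (C := 1.2646) (N0 := 18.308) (J_boxp 1.0321 1.1268 0.469 0 (-0.454) 1.1037 1.2206 1.2522 0.9651 0.4465 4.2788 18.308 1.106 5.002 1.665 0.5538 0.5518 0.3484 0.6212 1.9553 0.6001 1.929 2.36 3.4583 0.000041 0.001699 0.00001152 0.0000003101 0.000017 0.0000003101 0.0000003101 0.0000003101 1.2646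
    hβ hN hx1 hx2 hy1 hy2 (by norm_num) (by norm_num) (by linarith) (by norm_num) (by norm_num) (by norm_num) (by norm_num) (by norm_num) (by norm_num) (by norm_num) (by norm_num) (by norm_num) (by norm_num) (by norm_num) (by norm_num) (by norm_num) (by norm_num) (by norm_num) (by norm_num) (by norm_num) (by norm_num) (by norm_num) (by norm_num) (by norm_num)
    (cube_sqrt_geJ (s := 0.7945) (by norm_num) (by norm_num) (by norm_num) (by norm_num))
    (cube_sqrt_geJ (s := 0.9298) (by norm_num) (by norm_num) (by norm_num) (by norm_num))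
    (by norm_num) (by norm_num) (by norm_num) (by norm_num) (by norm_num) (by norm_num) (by norm_num) (by norm_num) (by norm_num) (by norm_num) (by norm_num) (by norm_num) (by norm_num) (by norm_num) (by norm_num) (by norm_num) (by norm_num) (by norm_num)
    (exp_neg_leJ (r := 0.102) 10 (by norm_num) (by norm_num) (by norm_num) (by norm_num))
    (exp_neg_leJ (r := 0.378) 6 (by norm_num) (by norm_num) (by norm_num) (by norm_num))
    (exp_neg_leJ (r := 0.372) 11 (by norm_num) (by norm_num) (by norm_num) (by norm_num))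
    (exp_neg_leJ (r := 0.99) 14 (by norm_num) (by norm_num) (by norm_num) (by norm_num))
    (exp_neg_leJ (r := 0.986) 10 (by norm_num) (by norm_num) (by norm_num) (by norm_num))
    (exp_neg_leJ (r := 0.99) 14 (by norm_num) (by norm_num) (by norm_num) (by norm_num))
    (exp_neg_leJ (r := 0.99) 14 (by norm_num) (by norm_num) (by norm_num) (by norm_num))
    (exp_neg_leJ (r := 0.99) 14 (by norm_num) (by norm_num) (by norm_num) (by norm_num))
    (by norm_num)) (by norm_num) hN hβ.le (by norm_num)

private theorem JB8_k0_b10_1 {β x y : ℝ} (hβ : 0 < β) (hN : β * 18.308 ≤ 1) (hx1 : 1.0082 ≤ x) (hx2 : x ≤ 1.1172)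
    (hy1 : -0.454 ≤ y) (hy2 : y ≤ -0.429) : ‖HH β (x + y * I) - 1‖ ≤ 0.07 := by
  refine le_epsJ (C := 1.2522) (N0 := 18.308) (J_boxp 1.0082 1.1172 0.454 0 (-0.429) 1.0976 1.206 1.2547 0.9742 0.4469 4.2788 18.308 1.0988 4.936 1.659 0.5713 0.5487 0.3477 0.6367 2.0093 0.5967 1.8959 2.3529 3.4502 0.00004341 0.001721 0.000008673 0.0000003101 0.00001807 0.0000003101 0.0000003101 0.0000003101 1.2522
    hβ hN hx1 hx2 hy1 hy2 (by norm_num) (by norm_num) (by linarith) (by norm_num) (by norm_num) (by norm_num) (by norm_num) (by norm_num) (by norm_num) (by norm_num) (by norm_num) (by norm_num) (by norm_num) (by norm_num) (by norm_num) (by norm_num) (by norm_num) (by norm_num) (by norm_num) (by norm_num) (by norm_num) (by norm_num) (by norm_num) (by norm_num)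
    (cube_sqrt_geJ (s := 0.796) (by norm_num) (by norm_num) (by norm_num) (by norm_num))
    (cube_sqrt_geJ (s := 0.9303) (by norm_num) (by norm_num) (by norm_num) (by norm_num))
    (by norm_num) (by norm_num) (by norm_num) (by norm_num) (by norm_num) (by norm_num) (by norm_num) (by norm_num) (by norm_num) (by norm_num) (by norm_num) (by norm_num) (by norm_num) (by norm_num) (by norm_num) (by norm_num) (by norm_num) (by norm_num)
    (exp_neg_leJ (r := 0.045) 10 (by norm_num) (by norm_num) (by norm_num) (by norm_num))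
    (exp_neg_leJ (r := 0.365) 6 (by norm_num) (by norm_num) (by norm_num) (by norm_num))
    (exp_neg_leJ (r := 0.656) 11 (by norm_num) (by norm_num) (by norm_num) (by norm_num))
    (exp_neg_leJ (r := 0.99) 14 (by norm_num) (by norm_num) (by norm_num) (by norm_num))
    (exp_neg_leJ (r := 0.924) 10 (by norm_num) (by norm_num) (by norm_num) (by norm_num))
    (exp_neg_leJ (r := 0.99) 14 (by norm_num) (by norm_num) (by norm_num) (by norm_num))
    (exp_neg_leJ (r := 0.99) 14 (by norm_num) (by norm_num) (by norm_num) (by norm_num))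
    (exp_neg_leJ (r := 0.99) 14 (by norm_num) (by norm_num) (by norm_num) (by norm_num))
    (by norm_num)) (by norm_num) hN hβ.le (by norm_num)

private theorem JB8_k0_b10_2 {β x y : ℝ} (hβ : 0 < β) (hN : β * 18.308 ≤ 1) (hx1 : 0.9603 ≤ x) (hx2 : x ≤ 1.104)
    (hy1 : -0.429 ≤ y) (hy2 : y ≤ -0.379) : ‖HH β (x + y * I) - 1‖ ≤ 0.07 := by
  refine le_epsJ (C := 1.2764) (N0 := 18.308) (J_boxp 0.9603 1.104 0.429 0 (-0.379) 1.0816 1.1845 1.2667 1.0006 0.4491 4.2788 18.308 1.0952 4.904 1.656 0.5995 0.5407 0.3433 0.6598 2.0976 0.587 1.8296 2.3251 3.4128 0.00005035 0.001865 0.000005678 0.0000003101 0.00002156 0.0000003101 0.0000003101 0.0000003101 1.2764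
    hβ hN hx1 hx2 hy1 hy2 (by norm_num) (by norm_num) (by linarith) (by norm_num) (by norm_num) (by norm_num) (by norm_num) (by norm_num) (by norm_num) (by norm_num) (by norm_num) (by norm_num) (by norm_num) (by norm_num) (by norm_num) (by norm_num) (by norm_num) (by norm_num) (by norm_num) (by norm_num) (by norm_num) (by norm_num) (by norm_num) (by norm_num)
    (cube_sqrt_geJ (s := 0.7968) (by norm_num) (by norm_num) (by norm_num) (by norm_num))
    (cube_sqrt_geJ (s := 0.9305) (by norm_num) (by norm_num) (by norm_num) (by norm_num))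
    (by norm_num) (by norm_num) (by norm_num) (by norm_num) (by norm_num) (by norm_num) (by norm_num) (by norm_num) (by norm_num) (by norm_num) (by norm_num) (by norm_num) (by norm_num) (by norm_num) (by norm_num) (by norm_num) (by norm_num) (by norm_num)
    (exp_neg_leJ (r := 0.899) 9 (by norm_num) (by norm_num) (by norm_num) (by norm_num))
    (exp_neg_leJ (r := 0.285) 6 (by norm_num) (by norm_num) (by norm_num) (by norm_num))
    (exp_neg_leJ (r := 0.079) 12 (by norm_num) (by norm_num) (by norm_num) (by norm_num))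
    (exp_neg_leJ (r := 0.99) 14 (by norm_num) (by norm_num) (by norm_num) (by norm_num))
    (exp_neg_leJ (r := 0.746) 10 (by norm_num) (by norm_num) (by norm_num) (by norm_num))
    (exp_neg_leJ (r := 0.99) 14 (by norm_num) (by norm_num) (by norm_num) (by norm_num))
    (exp_neg_leJ (r := 0.99) 14 (by norm_num) (by norm_num) (by norm_num) (by norm_num))
    (exp_neg_leJ (r := 0.99) 14 (by norm_num) (by norm_num) (by norm_num) (by norm_num))
    (by norm_num)) (by norm_num) hN hβ.le (by norm_num)

private theorem JB8_k0_b10_3 {β x y : ℝ} (hβ : 0 < β) (hN : β * 18.308 ≤ 1) (hx1 : 0.8781 ≤ x) (hx2 : x ≤ 1.0733)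
    (hy1 : -0.379 ≤ y) (hy2 : y ≤ -0.284) : ‖HH β (x + y * I) - 1‖ ≤ 0.07 := by
  refine le_epsJ (C := 1.2596) (N0 := 18.308) (J_boxp 0.8781 1.0733 0.379 0 (-0.284) 1.0592 1.1383 1.2903 1.0421 0.4532 4.2788 18.308 1.0747 4.723 1.639 0.6574 0.5295 0.3398 0.7106 2.2765 0.5744 1.7158 2.2966 3.374 0.0000617 0.001988 0.000002241 0.0000003101 0.00002711 0.0000003101 0.0000003101 0.0000003101 1.2596
    hβ hN hx1 hx2 hy1 hy2 (by norm_num) (by norm_num) (by linarith) (by norm_num) (by norm_num) (by norm_num) (by norm_num) (by norm_num) (by norm_num) (by norm_num) (by norm_num) (by norm_num) (by norm_num) (by norm_num) (by norm_num) (by norm_num) (by norm_num) (by norm_num) (by norm_num) (by norm_num) (by norm_num) (by norm_num) (by norm_num) (by norm_num)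
    (cube_sqrt_geJ (s := 0.8011) (by norm_num) (by norm_num) (by norm_num) (by norm_num))
    (cube_sqrt_geJ (s := 0.9318) (by norm_num) (by norm_num) (by norm_num) (by norm_num))
    (by norm_num) (by norm_num) (by norm_num) (by norm_num) (by norm_num) (by norm_num) (by norm_num) (by norm_num) (by norm_num) (by norm_num) (by norm_num) (by norm_num) (by norm_num) (by norm_num) (by norm_num) (by norm_num) (by norm_num) (by norm_num)
    (exp_neg_leJ (r := 0.694) 9 (by norm_num) (by norm_num) (by norm_num) (by norm_num))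
    (exp_neg_leJ (r := 0.221) 6 (by norm_num) (by norm_num) (by norm_num) (by norm_num))
    (exp_neg_leJ (r := 0.009) 13 (by norm_num) (by norm_num) (by norm_num) (by norm_num))
    (exp_neg_leJ (r := 0.99) 14 (by norm_num) (by norm_num) (by norm_num) (by norm_num))
    (exp_neg_leJ (r := 0.516) 10 (by norm_num) (by norm_num) (by norm_num) (by norm_num))
    (exp_neg_leJ (r := 0.99) 14 (by norm_num) (by norm_num) (by norm_num) (by norm_num))
    (exp_neg_leJ (r := 0.99) 14 (by norm_num) (by norm_num) (by norm_num) (by norm_num))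
    (exp_neg_leJ (r := 0.99) 14 (by norm_num) (by norm_num) (by norm_num) (by norm_num))
    (by norm_num)) (by norm_num) hN hβ.le (by norm_num)

private theorem JB8_k0_b10_4 {β x y : ℝ} (hβ : 0 < β) (hN : β * 18.308 ≤ 1) (hx1 : 0.7131 ≤ x) (hx2 : x ≤ 1.0076)
    (hy1 : -0.284 ≤ y) (hy2 : y ≤ -0.064) : ‖HH β (x + y * I) - 1‖ ≤ 0.07 := by
  refine le_epsJ (C := 1.2644) (N0 := 18.308) (J_boxp 0.7131 1.0076 0.284 0 (-0.064) 1.0105 1.0469 1.3753 1.1546 0.4679 4.2788 18.308 1.0361 4.407 1.608 0.7704 0.5052 0.3307 0.8041 2.6196 0.5462 1.4873 2.2249 3.2925 0.00009621 0.002349 0.0000004048 0.0000003101 0.00004602 0.0000003101 0.0000003101 0.0000003101 1.2644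
    hβ hN hx1 hx2 hy1 hy2 (by norm_num) (by norm_num) (by linarith) (by norm_num) (by norm_num) (by norm_num) (by norm_num) (by norm_num) (by norm_num) (by norm_num) (by norm_num) (by norm_num) (by norm_num) (by norm_num) (by norm_num) (by norm_num) (by norm_num) (by norm_num) (by norm_num) (by norm_num) (by norm_num) (by norm_num) (by norm_num) (by norm_num)
    (cube_sqrt_geJ (s := 0.809) (by norm_num) (by norm_num) (by norm_num) (by norm_num))
    (cube_sqrt_geJ (s := 0.9344) (by norm_num) (by norm_num) (by norm_num) (by norm_num))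
    (by norm_num) (by norm_num) (by norm_num) (by norm_num) (by norm_num) (by norm_num) (by norm_num) (by norm_num) (by norm_num) (by norm_num) (by norm_num) (by norm_num) (by norm_num) (by norm_num) (by norm_num) (by norm_num) (by norm_num) (by norm_num)
    (exp_neg_leJ (r := 0.249) 9 (by norm_num) (by norm_num) (by norm_num) (by norm_num))
    (exp_neg_leJ (r := 0.054) 6 (by norm_num) (by norm_num) (by norm_num) (by norm_num))
    (exp_neg_leJ (r := 0.721) 14 (by norm_num) (by norm_num) (by norm_num) (by norm_num))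
    (exp_neg_leJ (r := 0.99) 14 (by norm_num) (by norm_num) (by norm_num) (by norm_num))
    (exp_neg_leJ (r := 0.99) 9 (by norm_num) (by norm_num) (by norm_num) (by norm_num))
    (exp_neg_leJ (r := 0.99) 14 (by norm_num) (by norm_num) (by norm_num) (by norm_num))
    (exp_neg_leJ (r := 0.99) 14 (by norm_num) (by norm_num) (by norm_num) (by norm_num))
    (exp_neg_leJ (r := 0.99) 14 (by norm_num) (by norm_num) (by norm_num) (by norm_num))
    (by norm_num)) (by norm_num) hN hβ.le (by norm_num)

private theorem JB8_k0_b10_5 {β x y : ℝ} (hβ : 0 < β) (hN : β * 18.308 ≤ 1) (hx1 : 0.7035 ≤ x) (hx2 : x ≤ 0.8103)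
    (hy1 : -0.064 ≤ y) (hy2 : y ≤ 0.019) : ‖HH β (x + y * I) - 1‖ ≤ 0.07 := by
  refine le_epsJ (C := 0.3633) (N0 := 18.308) (J_boxp 0.7035 0.8103 0.064 0.019 0.019 1.1599 0.8129 1.302 0.9135 0.4553 4.2788 18.308 0.7009 2.538 1.369 1.0493 0.5799 0.4444 1.148 3.434 0.6598 1.4721 2.7222 3.8198 0.00002454 0.0002929 0.0000003101 0.0000003101 0.000005678 0.0000003101 0.0000003101 0.0000003101 0.3633
    hβ hN hx1 hx2 hy1 hy2 (by norm_num) (by norm_num) (by linarith) (by norm_num) (by norm_num) (by norm_num) (by norm_num) (by norm_num) (by norm_num) (by norm_num) (by norm_num) (by norm_num) (by norm_num) (by norm_num) (by norm_num) (by norm_num) (by norm_num) (by norm_num) (by norm_num) (by norm_num) (by norm_num) (by norm_num) (by norm_num) (by norm_num)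
    (cube_sqrt_geJ (s := 0.8754) (by norm_num) (by norm_num) (by norm_num) (by norm_num))
    (cube_sqrt_geJ (s := 0.9561) (by norm_num) (by norm_num) (by norm_num) (by norm_num))
    (by norm_num) (by norm_num) (by norm_num) (by norm_num) (by norm_num) (by norm_num) (by norm_num) (by norm_num) (by norm_num) (by norm_num) (by norm_num) (by norm_num) (by norm_num) (by norm_num) (by norm_num) (by norm_num) (by norm_num) (by norm_num)
    (exp_neg_leJ (r := 0.616) 10 (by norm_num) (by norm_num) (by norm_num) (by norm_num))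
    (exp_neg_leJ (r := 0.136) 8 (by norm_num) (by norm_num) (by norm_num) (by norm_num))
    (exp_neg_leJ (r := 0.99) 14 (by norm_num) (by norm_num) (by norm_num) (by norm_num))
    (exp_neg_leJ (r := 0.99) 14 (by norm_num) (by norm_num) (by norm_num) (by norm_num))
    (exp_neg_leJ (r := 0.079) 12 (by norm_num) (by norm_num) (by norm_num) (by norm_num))
    (exp_neg_leJ (r := 0.99) 14 (by norm_num) (by norm_num) (by norm_num) (by norm_num))
    (exp_neg_leJ (r := 0.99) 14 (by norm_num) (by norm_num) (by norm_num) (by norm_num))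
    (exp_neg_leJ (r := 0.99) 14 (by norm_num) (by norm_num) (by norm_num) (by norm_num))
    (by norm_num)) (by norm_num) hN hβ.le (by norm_num)

theorem JB8_k0_c10 {κ t β : ℝ} (h : DomR κ t) (hβ : 0 < β) (hk1 : 0.72 ≤ κ) (hk2 : κ ≤ 0.76)
    (ht1 : -0.7465 ≤ t + κ) (ht2 : t + κ ≤ 0.04) (hR0 : β * 10 ≤ κ) (hR : β * (8.82 * (1 + κ ^ 2)) ≤ κ) :
    ‖HH β (sg κ t) - 1‖ ≤ 0.07 := by
  have hN : β * 18.308 ≤ 1 := bNC hβ h.1 hk2 (by norm_num) (by norm_num) hR (by norm_num)
  have hy1 : -0.469 ≤ sy κ t := syL_ge h 0.72 0.76 0.7465 0.469 0.62562 0.62563 0.3842 0.38607 0.40753 hk1 hk2 (by linarith) (by norm_num) (by norm_num) (by norm_num)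
    (expm_ge (by norm_num) (by norm_num) (by norm_num) (by norm_num)) (expm_le (by norm_num) (by norm_num) (by norm_num)) (by norm_num)
    (by norm_num) (by norm_num) (by norm_num) (by norm_num) (by norm_num) (by norm_num)
  have hy2 : sy κ t ≤ 0.019 := syR_le h 0.72 0.76 0.04 0.019 1.01918 0.0251 0.02547 0.0269 hk1 hk2 (by linarith) (by norm_num) (by norm_num)
    (expn_ge (by norm_num) (by norm_num)) (by norm_num) (by norm_num) (Or.inr ((mul_le_mul_of_nonneg_left (expn_le (E := 1.01919) (by norm_num) (by norm_num) (by norm_num)) (by norm_num)).trans (by norm_num))) (by norm_num) (by norm_num) (by norm_num)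
  rcases le_total (sy κ t) (-0.454) with f0 | g0
  · have hx1 : 1.0321 ≤ sx κ t := sx_lo h 0.72 (-0.454) 0.469 1.57459 1.0321 hk1 (by norm_num) f0 (abs_le.2 ⟨by linarith, by linarith⟩) (by rw [neg_neg]; exact expn_ge (by norm_num) (by norm_num)) (by norm_num) (by norm_num)
    have hx2 : sx κ t ≤ 1.1268 := sx_hi h 0.76 (-0.469) 0.454 1.5984 1.1268 hk2 hy1 (by norm_num) (by rw [abs_of_nonpos (by linarith)]; linarith) (by rw [neg_neg]; exact expn_le (by norm_num) (by norm_num) (by norm_num)) (by norm_num) (by norm_num)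
    exact JB8_k0_b10_0 hβ hN hx1 hx2 (by linarith) (by linarith)
  rcases le_total (sy κ t) (-0.429) with f1 | g1
  · have hx1 : 1.0082 ≤ sx κ t := sx_lo h 0.72 (-0.429) 0.454 1.53572 1.0082 hk1 (by norm_num) f1 (abs_le.2 ⟨by linarith, by linarith⟩) (by rw [neg_neg]; exact expn_ge (by norm_num) (by norm_num)) (by norm_num) (by norm_num)
    have hx2 : sx κ t ≤ 1.1172 := sx_hi h 0.76 (-0.454) 0.429 1.5746 1.1172 hk2 g0 (by norm_num) (by rw [abs_of_nonpos (by linarith)]; linarith) (by rw [neg_neg]; exact expn_le (by norm_num) (by norm_num) (by norm_num)) (by norm_num) (by norm_num)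
    exact JB8_k0_b10_1 hβ hN hx1 hx2 (by linarith) (by linarith)
  rcases le_total (sy κ t) (-0.379) with f2 | g2
  · have hx1 : 0.9603 ≤ sx κ t := sx_lo h 0.72 (-0.379) 0.429 1.46082 0.9603 hk1 (by norm_num) f2 (abs_le.2 ⟨by linarith, by linarith⟩) (by rw [neg_neg]; exact expn_ge (by norm_num) (by norm_num)) (by norm_num) (by norm_num)
    have hx2 : sx κ t ≤ 1.104 := sx_hi h 0.76 (-0.429) 0.379 1.53573 1.104 hk2 g1 (by norm_num) (by rw [abs_of_nonpos (by linarith)]; linarith) (by rw [neg_neg]; exact expn_le (by norm_num) (by norm_num) (by norm_num)) (by norm_num) (by norm_num)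
    exact JB8_k0_b10_2 hβ hN hx1 hx2 (by linarith) (by linarith)
  rcases le_total (sy κ t) (-0.284) with f3 | g3
  · have hx1 : 0.8781 ≤ sx κ t := sx_lo h 0.72 (-0.284) 0.379 1.32843 0.8781 hk1 (by norm_num) f3 (abs_le.2 ⟨by linarith, by linarith⟩) (by rw [neg_neg]; exact expn_ge (by norm_num) (by norm_num)) (by norm_num) (by norm_num)
    have hx2 : sx κ t ≤ 1.0733 := sx_hi h 0.76 (-0.379) 0.284 1.46083 1.0733 hk2 g2 (by norm_num) (by rw [abs_of_nonpos (by linarith)]; linarith) (by rw [neg_neg]; exact expn_le (by norm_num) (by norm_num) (by norm_num)) (by norm_num) (by norm_num)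
    exact JB8_k0_b10_3 hβ hN hx1 hx2 (by linarith) (by linarith)
  rcases le_total (sy κ t) (-0.064) with f4 | g4
  · have hx1 : 0.7131 ≤ sx κ t := sx_lo h 0.72 (-0.064) 0.284 1.06609 0.7131 hk1 (by norm_num) f4 (abs_le.2 ⟨by linarith, by linarith⟩) (by rw [neg_neg]; exact expn_ge (by norm_num) (by norm_num)) (by norm_num) (by norm_num)
    have hx2 : sx κ t ≤ 1.0076 := sx_hi h 0.76 (-0.284) 0.064 1.32844 1.0076 hk2 g3 (by norm_num) (by rw [abs_of_nonpos (by linarith)]; linarith) (by rw [neg_neg]; exact expn_le (by norm_num) (by norm_num) (by norm_num)) (by norm_num) (by norm_num)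
    exact JB8_k0_b10_4 hβ hN hx1 hx2 (by linarith) (by linarith)
  have hx1 : 0.7035 ≤ sx κ t := sx_lo h 0.72 0.019 0.064 0.98117 0.7035 hk1 (by norm_num) hy2 (abs_le.2 ⟨by linarith, by linarith⟩) (expm_ge (by norm_num) (by norm_num) (by norm_num) (by norm_num)) (by norm_num) (by norm_num)
  have hx2 : sx κ t ≤ 0.8103 := sx_hi h 0.76 (-0.064) 0 1.0661 0.8103 hk2 g4 (by norm_num) (abs_nonneg _) (by rw [neg_neg]; exact expn_le (by norm_num) (by norm_num) (by norm_num)) (by norm_num) (by norm_num)
  exact JB8_k0_b10_5 hβ hN hx1 hx2 (by linarith) (by linarith)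

private theorem JB8_k0_b11_0 {β x y : ℝ} (hβ : 0 < β) (hN : β * 18.033 ≤ 1) (hx1 : 1.103 ≤ x) (hx2 : x ≤ 1.2056)
    (hy1 : -0.464 ≤ y) (hy2 : y ≤ -0.454) : ‖HH β (x + y * I) - 1‖ ≤ 0.07 := by
  refine le_epsJ (C := 1.241) (N0 := 18.033) (J_boxp 1.103 1.2056 0.464 0 (-0.454) 1.1572 1.2919 1.3235 0.9242 0.459 4.2466 18.033 1.1165 5.101 1.673 0.5281 0.5785 0.3632 0.6534 1.9274 0.6372 2.0272 2.5154 3.4063 0.00002948 0.001432 0.000007651 0.0000003101 0.00001024 0.0000003101 0.0000003101 0.0000003101 1.241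
    hβ hN hx1 hx2 hy1 hy2 (by norm_num) (by norm_num) (by linarith) (by norm_num) (by norm_num) (by norm_num) (by norm_num) (by norm_num) (by norm_num) (by norm_num) (by norm_num) (by norm_num) (by norm_num) (by norm_num) (by norm_num) (by norm_num) (by norm_num) (by norm_num) (by norm_num) (by norm_num) (by norm_num) (by norm_num) (by norm_num) (by norm_num)
    (cube_sqrt_geJ (s := 0.7923) (by norm_num) (by norm_num) (by norm_num) (by norm_num))
    (cube_sqrt_geJ (s := 0.9291) (by norm_num) (by norm_num) (by norm_num) (by norm_num))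
    (by norm_num) (by norm_num) (by norm_num) (by norm_num) (by norm_num) (by norm_num) (by norm_num) (by norm_num) (by norm_num) (by norm_num) (by norm_num) (by norm_num) (by norm_num) (by norm_num) (by norm_num) (by norm_num) (by norm_num) (by norm_num)
    (exp_neg_leJ (r := 0.432) 10 (by norm_num) (by norm_num) (by norm_num) (by norm_num))
    (exp_neg_leJ (r := 0.549) 6 (by norm_num) (by norm_num) (by norm_num) (by norm_num))
    (exp_neg_leJ (r := 0.782) 11 (by norm_num) (by norm_num) (by norm_num) (by norm_num))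
    (exp_neg_leJ (r := 0.99) 14 (by norm_num) (by norm_num) (by norm_num) (by norm_num))
    (exp_neg_leJ (r := 0.49) 11 (by norm_num) (by norm_num) (by norm_num) (by norm_num))
    (exp_neg_leJ (r := 0.99) 14 (by norm_num) (by norm_num) (by norm_num) (by norm_num))
    (exp_neg_leJ (r := 0.99) 14 (by norm_num) (by norm_num) (by norm_num) (by norm_num))
    (exp_neg_leJ (r := 0.99) 14 (by norm_num) (by norm_num) (by norm_num) (by norm_num))
    (by norm_num)) (by norm_num) hN hβ.le (by norm_num)

private theorem JB8_k0_b11_1 {β x y : ℝ} (hβ : 0 < β) (hN : β * 18.033 ≤ 1) (hx1 : 1.0815 ≤ x) (hx2 : x ≤ 1.1994)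
    (hy1 : -0.454 ≤ y) (hy2 : y ≤ -0.434) : ‖HH β (x + y * I) - 1‖ ≤ 0.07 := by
  refine le_epsJ (C := 1.2549) (N0 := 18.033) (J_boxp 1.0815 1.1994 0.454 0 (-0.434) 1.1492 1.2825 1.3263 0.9349 0.4595 4.2466 18.033 1.116 5.096 1.673 0.5397 0.5745 0.3608 0.6618 1.9633 0.6323 1.9974 2.4995 3.3888 0.00003171 0.001495 0.000006582 0.0000003101 0.00001118 0.0000003101 0.0000003101 0.0000003101 1.2549
    hβ hN hx1 hx2 hy1 hy2 (by norm_num) (by norm_num) (by linarith) (by norm_num) (by norm_num) (by norm_num) (by norm_num) (by norm_num) (by norm_num) (by norm_num) (by norm_num) (by norm_num) (by norm_num) (by norm_num) (by norm_num) (by norm_num) (by norm_num) (by norm_num) (by norm_num) (by norm_num) (by norm_num) (by norm_num) (by norm_num) (by norm_num)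
    (cube_sqrt_geJ (s := 0.7924) (by norm_num) (by norm_num) (by norm_num) (by norm_num))
    (cube_sqrt_geJ (s := 0.9291) (by norm_num) (by norm_num) (by norm_num) (by norm_num))
    (by norm_num) (by norm_num) (by norm_num) (by norm_num) (by norm_num) (by norm_num) (by norm_num) (by norm_num) (by norm_num) (by norm_num) (by norm_num) (by norm_num) (by norm_num) (by norm_num) (by norm_num) (by norm_num) (by norm_num) (by norm_num)
    (exp_neg_leJ (r := 0.359) 10 (by norm_num) (by norm_num) (by norm_num) (by norm_num))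
    (exp_neg_leJ (r := 0.506) 6 (by norm_num) (by norm_num) (by norm_num) (by norm_num))
    (exp_neg_leJ (r := 0.934) 11 (by norm_num) (by norm_num) (by norm_num) (by norm_num))
    (exp_neg_leJ (r := 0.99) 14 (by norm_num) (by norm_num) (by norm_num) (by norm_num))
    (exp_neg_leJ (r := 0.402) 11 (by norm_num) (by norm_num) (by norm_num) (by norm_num))
    (exp_neg_leJ (r := 0.99) 14 (by norm_num) (by norm_num) (by norm_num) (by norm_num))
    (exp_neg_leJ (r := 0.99) 14 (by norm_num) (by norm_num) (by norm_num) (by norm_num))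
    (exp_neg_leJ (r := 0.99) 14 (by norm_num) (by norm_num) (by norm_num) (by norm_num))
    (by norm_num)) (by norm_num) hN hβ.le (by norm_num)

private theorem JB8_k0_b11_2 {β x y : ℝ} (hβ : 0 < β) (hN : β * 18.033 ≤ 1) (hx1 : 1.0462 ≤ x) (hx2 : x ≤ 1.1848)
    (hy1 : -0.434 ≤ y) (hy2 : y ≤ -0.399) : ‖HH β (x + y * I) - 1‖ ≤ 0.07 := by
  refine le_epsJ (C := 1.2487) (N0 := 18.033) (J_boxp 1.0462 1.1848 0.434 0 (-0.399) 1.1385 1.2618 1.3286 0.9489 0.4599 4.2466 18.033 1.1084 5.025 1.667 0.5638 0.5692 0.3589 0.6813 2.0361 0.626 1.9485 2.4833 3.3745 0.00003487 0.001547 0.000004621 0.0000003101 0.00001253 0.0000003101 0.0000003101 0.0000003101 1.2487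
    hβ hN hx1 hx2 hy1 hy2 (by norm_num) (by norm_num) (by linarith) (by norm_num) (by norm_num) (by norm_num) (by norm_num) (by norm_num) (by norm_num) (by norm_num) (by norm_num) (by norm_num) (by norm_num) (by norm_num) (by norm_num) (by norm_num) (by norm_num) (by norm_num) (by norm_num) (by norm_num) (by norm_num) (by norm_num) (by norm_num) (by norm_num)
    (cube_sqrt_geJ (s := 0.794) (by norm_num) (by norm_num) (by norm_num) (by norm_num))
    (cube_sqrt_geJ (s := 0.9296) (by norm_num) (by norm_num) (by norm_num) (by norm_num))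
    (by norm_num) (by norm_num) (by norm_num) (by norm_num) (by norm_num) (by norm_num) (by norm_num) (by norm_num) (by norm_num) (by norm_num) (by norm_num) (by norm_num) (by norm_num) (by norm_num) (by norm_num) (by norm_num) (by norm_num) (by norm_num)
    (exp_neg_leJ (r := 0.264) 10 (by norm_num) (by norm_num) (by norm_num) (by norm_num))
    (exp_neg_leJ (r := 0.472) 6 (by norm_num) (by norm_num) (by norm_num) (by norm_num))
    (exp_neg_leJ (r := 0.285) 12 (by norm_num) (by norm_num) (by norm_num) (by norm_num))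
    (exp_neg_leJ (r := 0.99) 14 (by norm_num) (by norm_num) (by norm_num) (by norm_num))
    (exp_neg_leJ (r := 0.288) 11 (by norm_num) (by norm_num) (by norm_num) (by norm_num))
    (exp_neg_leJ (r := 0.99) 14 (by norm_num) (by norm_num) (by norm_num) (by norm_num))
    (exp_neg_leJ (r := 0.99) 14 (by norm_num) (by norm_num) (by norm_num) (by norm_num))
    (exp_neg_leJ (r := 0.99) 14 (by norm_num) (by norm_num) (by norm_num) (by norm_num))
    (by norm_num)) (by norm_num) hN hβ.le (by norm_num)

private theorem JB8_k0_b11_3 {β x y : ℝ} (hβ : 0 < β) (hN : β * 18.033 ≤ 1) (hx1 : 0.9835 ≤ x) (hx2 : x ≤ 1.1601)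
    (hy1 : -0.399 ≤ y) (hy2 : y ≤ -0.334) : ‖HH β (x + y * I) - 1‖ ≤ 0.07 := by
  refine le_epsJ (C := 1.2456) (N0 := 18.033) (J_boxp 0.9835 1.1601 0.399 0 (-0.334) 1.1192 1.2268 1.3377 0.9769 0.4615 4.2466 18.033 1.0962 4.913 1.657 0.6056 0.5595 0.3551 0.7151 2.163 0.6147 1.8617 2.453 3.3442 0.00004154 0.001657 0.000002517 0.0000003101 0.00001536 0.0000003101 0.0000003101 0.0000003101 1.2456
    hβ hN hx1 hx2 hy1 hy2 (by norm_num) (by norm_num) (by linarith) (by norm_num) (by norm_num) (by norm_num) (by norm_num) (by norm_num) (by norm_num) (by norm_num) (by norm_num) (by norm_num) (by norm_num) (by norm_num) (by norm_num) (by norm_num) (by norm_num) (by norm_num) (by norm_num) (by norm_num) (by norm_num) (by norm_num) (by norm_num) (by norm_num)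
    (cube_sqrt_geJ (s := 0.7966) (by norm_num) (by norm_num) (by norm_num) (by norm_num))
    (cube_sqrt_geJ (s := 0.9304) (by norm_num) (by norm_num) (by norm_num) (by norm_num))
    (by norm_num) (by norm_num) (by norm_num) (by norm_num) (by norm_num) (by norm_num) (by norm_num) (by norm_num) (by norm_num) (by norm_num) (by norm_num) (by norm_num) (by norm_num) (by norm_num) (by norm_num) (by norm_num) (by norm_num) (by norm_num)
    (exp_neg_leJ (r := 0.089) 10 (by norm_num) (by norm_num) (by norm_num) (by norm_num))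
    (exp_neg_leJ (r := 0.403) 6 (by norm_num) (by norm_num) (by norm_num) (by norm_num))
    (exp_neg_leJ (r := 0.895) 12 (by norm_num) (by norm_num) (by norm_num) (by norm_num))
    (exp_neg_leJ (r := 0.99) 14 (by norm_num) (by norm_num) (by norm_num) (by norm_num))
    (exp_neg_leJ (r := 0.084) 11 (by norm_num) (by norm_num) (by norm_num) (by norm_num))
    (exp_neg_leJ (r := 0.99) 14 (by norm_num) (by norm_num) (by norm_num) (by norm_num))
    (exp_neg_leJ (r := 0.99) 14 (by norm_num) (by norm_num) (by norm_num) (by norm_num))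
    (exp_neg_leJ (r := 0.99) 14 (by norm_num) (by norm_num) (by norm_num) (by norm_num))
    (by norm_num)) (by norm_num) hN hβ.le (by norm_num)

private theorem JB8_k0_b11_4 {β x y : ℝ} (hβ : 0 < β) (hN : β * 18.033 ≤ 1) (hx1 : 0.865 ≤ x) (hx2 : x ≤ 1.1136)
    (hy1 : -0.334 ≤ y) (hy2 : y ≤ -0.199) : ‖HH β (x + y * I) - 1‖ ≤ 0.07 := by
  refine le_epsJ (C := 1.2565) (N0 := 18.033) (J_boxp 0.865 1.1136 0.334 0 (-0.199) 1.0819 1.1627 1.3718 1.0408 0.4673 4.2466 18.033 1.0747 4.723 1.639 0.6835 0.5409 0.3471 0.7771 2.3987 0.5927 1.6976 2.3927 3.2815 0.00005813 0.001914 0.0000008208 0.0000003101 0.00002284 0.0000003101 0.0000003101 0.0000003101 1.2565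
    hβ hN hx1 hx2 hy1 hy2 (by norm_num) (by norm_num) (by linarith) (by norm_num) (by norm_num) (by norm_num) (by norm_num) (by norm_num) (by norm_num) (by norm_num) (by norm_num) (by norm_num) (by norm_num) (by norm_num) (by norm_num) (by norm_num) (by norm_num) (by norm_num) (by norm_num) (by norm_num) (by norm_num) (by norm_num) (by norm_num) (by norm_num)
    (cube_sqrt_geJ (s := 0.8011) (by norm_num) (by norm_num) (by norm_num) (by norm_num))
    (cube_sqrt_geJ (s := 0.9318) (by norm_num) (by norm_num) (by norm_num) (by norm_num))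
    (by norm_num) (by norm_num) (by norm_num) (by norm_num) (by norm_num) (by norm_num) (by norm_num) (by norm_num) (by norm_num) (by norm_num) (by norm_num) (by norm_num) (by norm_num) (by norm_num) (by norm_num) (by norm_num) (by norm_num) (by norm_num)
    (exp_neg_leJ (r := 0.754) 9 (by norm_num) (by norm_num) (by norm_num) (by norm_num))
    (exp_neg_leJ (r := 0.259) 6 (by norm_num) (by norm_num) (by norm_num) (by norm_num))
    (exp_neg_leJ (r := 0.013) 14 (by norm_num) (by norm_num) (by norm_num) (by norm_num))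
    (exp_neg_leJ (r := 0.99) 14 (by norm_num) (by norm_num) (by norm_num) (by norm_num))
    (exp_neg_leJ (r := 0.688) 10 (by norm_num) (by norm_num) (by norm_num) (by norm_num))
    (exp_neg_leJ (r := 0.99) 14 (by norm_num) (by norm_num) (by norm_num) (by norm_num))
    (exp_neg_leJ (r := 0.99) 14 (by norm_num) (by norm_num) (by norm_num) (by norm_num))
    (exp_neg_leJ (r := 0.99) 14 (by norm_num) (by norm_num) (by norm_num) (by norm_num))
    (by norm_num)) (by norm_num) hN hβ.le (by norm_num)

private theorem JB8_k0_b11_5 {β x y : ℝ} (hβ : 0 < β) (hN : β * 18.033 ≤ 1) (hx1 : 0.7178 ≤ x) (hx2 : x ≤ 0.9884)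
    (hy1 : -0.199 ≤ y) (hy2 : y ≤ 0.02) : ‖HH β (x + y * I) - 1‖ ≤ 0.07 := by
  refine le_epsJ (C := 0.8806) (N0 := 18.033) (J_boxp 0.7178 0.9884 0.199 0.02 0.02 1.0741 1.0083 1.4204 1.0707 0.4755 4.2466 18.033 0.9388 3.721 1.534 0.8562 0.537 0.3689 0.9398 2.9027 0.5929 1.4918 2.3795 3.3125 0.00006238 0.001293 0.0000003101 0.0000003101 0.00002277 0.0000003101 0.0000003101 0.0000003101 0.8806
    hβ hN hx1 hx2 hy1 hy2 (by norm_num) (by norm_num) (by linarith) (by norm_num) (by norm_num) (by norm_num) (by norm_num) (by norm_num) (by norm_num) (by norm_num) (by norm_num) (by norm_num) (by norm_num) (by norm_num) (by norm_num) (by norm_num) (by norm_num) (by norm_num) (by norm_num) (by norm_num) (by norm_num) (by norm_num) (by norm_num) (by norm_num)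
    (cube_sqrt_geJ (s := 0.8288) (by norm_num) (by norm_num) (by norm_num) (by norm_num))
    (cube_sqrt_geJ (s := 0.9407) (by norm_num) (by norm_num) (by norm_num) (by norm_num))
    (by norm_num) (by norm_num) (by norm_num) (by norm_num) (by norm_num) (by norm_num) (by norm_num) (by norm_num) (by norm_num) (by norm_num) (by norm_num) (by norm_num) (by norm_num) (by norm_num) (by norm_num) (by norm_num) (by norm_num) (by norm_num)
    (exp_neg_leJ (r := 0.683) 9 (by norm_num) (by norm_num) (by norm_num) (by norm_num))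
    (exp_neg_leJ (r := 0.652) 6 (by norm_num) (by norm_num) (by norm_num) (by norm_num))
    (exp_neg_leJ (r := 0.99) 14 (by norm_num) (by norm_num) (by norm_num) (by norm_num))
    (exp_neg_leJ (r := 0.99) 14 (by norm_num) (by norm_num) (by norm_num) (by norm_num))
    (exp_neg_leJ (r := 0.691) 10 (by norm_num) (by norm_num) (by norm_num) (by norm_num))
    (exp_neg_leJ (r := 0.99) 14 (by norm_num) (by norm_num) (by norm_num) (by norm_num))
    (exp_neg_leJ (r := 0.99) 14 (by norm_num) (by norm_num) (by norm_num) (by norm_num))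
    (exp_neg_leJ (r := 0.99) 14 (by norm_num) (by norm_num) (by norm_num) (by norm_num))
    (by norm_num)) (by norm_num) hN hβ.le (by norm_num)

theorem JB8_k0_c11 {κ t β : ℝ} (h : DomR κ t) (hβ : 0 < β) (hk1 : 0.76 ≤ κ) (hk2 : κ ≤ 0.81)
    (ht1 : -0.7465 ≤ t + κ) (ht2 : t + κ ≤ 0.04) (hR0 : β * 10 ≤ κ) (hR : β * (8.82 * (1 + κ ^ 2)) ≤ κ) :
    ‖HH β (sg κ t) - 1‖ ≤ 0.07 := by
  have hN : β * 18.033 ≤ 1 := bNC hβ h.1 hk2 (by norm_num) (by norm_num) hR (by norm_num)
  have hy1 : -0.464 ≤ sy κ t := syL_ge h 0.76 0.81 0.7465 0.464 0.62876 0.62877 0.3621 0.36017 0.38389 hk1 hk2 (by linarith) (by norm_num) (by norm_num) (by norm_num)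
    (expm_ge (by norm_num) (by norm_num) (by norm_num) (by norm_num)) (expm_le (by norm_num) (by norm_num) (by norm_num)) (by norm_num)
    (by norm_num) (by norm_num) (by norm_num) (by norm_num) (by norm_num) (by norm_num)
  have hy2 : sy κ t ≤ 0.02 := syR_le h 0.76 0.81 0.04 0.02 1.0202 0.0247 0.02519 0.02685 hk1 hk2 (by linarith) (by norm_num) (by norm_num)
    (expn_ge (by norm_num) (by norm_num)) (by norm_num) (by norm_num) (Or.inr ((mul_le_mul_of_nonneg_left (expn_le (E := 1.02021) (by norm_num) (by norm_num) (by norm_num)) (by norm_num)).trans (by norm_num))) (by norm_num) (by norm_num) (by norm_num)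
  rcases le_total (sy κ t) (-0.454) with f0 | g0
  · have hx1 : 1.103 ≤ sx κ t := sx_lo h 0.76 (-0.454) 0.464 1.57459 1.103 hk1 (by norm_num) f0 (abs_le.2 ⟨by linarith, by linarith⟩) (by rw [neg_neg]; exact expn_ge (by norm_num) (by norm_num)) (by norm_num) (by norm_num)
    have hx2 : sx κ t ≤ 1.2056 := sx_hi h 0.81 (-0.464) 0.454 1.59043 1.2056 hk2 hy1 (by norm_num) (by rw [abs_of_nonpos (by linarith)]; linarith) (by rw [neg_neg]; exact expn_le (by norm_num) (by norm_num) (by norm_num)) (by norm_num) (by norm_num)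
    exact JB8_k0_b11_0 hβ hN hx1 hx2 (by linarith) (by linarith)
  rcases le_total (sy κ t) (-0.434) with f1 | g1
  · have hx1 : 1.0815 ≤ sx κ t := sx_lo h 0.76 (-0.434) 0.454 1.54341 1.0815 hk1 (by norm_num) f1 (abs_le.2 ⟨by linarith, by linarith⟩) (by rw [neg_neg]; exact expn_ge (by norm_num) (by norm_num)) (by norm_num) (by norm_num)
    have hx2 : sx κ t ≤ 1.1994 := sx_hi h 0.81 (-0.454) 0.434 1.5746 1.1994 hk2 g0 (by norm_num) (by rw [abs_of_nonpos (by linarith)]; linarith) (by rw [neg_neg]; exact expn_le (by norm_num) (by norm_num) (by norm_num)) (by norm_num) (by norm_num)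
    exact JB8_k0_b11_1 hβ hN hx1 hx2 (by linarith) (by linarith)
  rcases le_total (sy κ t) (-0.399) with f2 | g2
  · have hx1 : 1.0462 ≤ sx κ t := sx_lo h 0.76 (-0.399) 0.434 1.49033 1.0462 hk1 (by norm_num) f2 (abs_le.2 ⟨by linarith, by linarith⟩) (by rw [neg_neg]; exact expn_ge (by norm_num) (by norm_num)) (by norm_num) (by norm_num)
    have hx2 : sx κ t ≤ 1.1848 := sx_hi h 0.81 (-0.434) 0.399 1.54342 1.1848 hk2 g1 (by norm_num) (by rw [abs_of_nonpos (by linarith)]; linarith) (by rw [neg_neg]; exact expn_le (by norm_num) (by norm_num) (by norm_num)) (by norm_num) (by norm_num)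
    exact JB8_k0_b11_2 hβ hN hx1 hx2 (by linarith) (by linarith)
  rcases le_total (sy κ t) (-0.334) with f3 | g3
  · have hx1 : 0.9835 ≤ sx κ t := sx_lo h 0.76 (-0.334) 0.399 1.39654 0.9835 hk1 (by norm_num) f3 (abs_le.2 ⟨by linarith, by linarith⟩) (by rw [neg_neg]; exact expn_ge (by norm_num) (by norm_num)) (by norm_num) (by norm_num)
    have hx2 : sx κ t ≤ 1.1601 := sx_hi h 0.81 (-0.399) 0.334 1.49034 1.1601 hk2 g2 (by norm_num) (by rw [abs_of_nonpos (by linarith)]; linarith) (by rw [neg_neg]; exact expn_le (by norm_num) (by norm_num) (by norm_num)) (by norm_num) (by norm_num)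
    exact JB8_k0_b11_3 hβ hN hx1 hx2 (by linarith) (by linarith)
  rcases le_total (sy κ t) (-0.199) with f4 | g4
  · have hx1 : 0.865 ≤ sx κ t := sx_lo h 0.76 (-0.199) 0.334 1.22018 0.865 hk1 (by norm_num) f4 (abs_le.2 ⟨by linarith, by linarith⟩) (by rw [neg_neg]; exact expn_ge (by norm_num) (by norm_num)) (by norm_num) (by norm_num)
    have hx2 : sx κ t ≤ 1.1136 := sx_hi h 0.81 (-0.334) 0.199 1.39655 1.1136 hk2 g3 (by norm_num) (by rw [abs_of_nonpos (by linarith)]; linarith) (by rw [neg_neg]; exact expn_le (by norm_num) (by norm_num) (by norm_num)) (by norm_num) (by norm_num)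
    exact JB8_k0_b11_4 hβ hN hx1 hx2 (by linarith) (by linarith)
  have hx1 : 0.7178 ≤ sx κ t := sx_lo h 0.76 0.02 0.199 0.98019 0.7178 hk1 (by norm_num) hy2 (abs_le.2 ⟨by linarith, by linarith⟩) (expm_ge (by norm_num) (by norm_num) (by norm_num) (by norm_num)) (by norm_num) (by norm_num)
  have hx2 : sx κ t ≤ 0.9884 := sx_hi h 0.81 (-0.199) 0 1.22019 0.9884 hk2 g4 (by norm_num) (abs_nonneg _) (by rw [neg_neg]; exact expn_le (by norm_num) (by norm_num) (by norm_num)) (by norm_num) (by norm_num)
  exact JB8_k0_b11_5 hβ hN hx1 hx2 (by linarith) (by linarith)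

private theorem JB8_k0_b12_0 {β x y : ℝ} (hβ : 0 < β) (hN : β * 17.811 ≤ 1) (hx1 : 1.1802 ≤ x) (hx2 : x ≤ 1.2982)
    (hy1 : -0.456 ≤ y) (hy2 : y ≤ -0.446) : ‖HH β (x + y * I) - 1‖ ≤ 0.07 := by
  refine le_epsJ (C := 1.2287) (N0 := 17.811) (J_boxp 1.1802 1.2982 0.456 0 (-0.446) 1.2173 1.376 1.4115 0.8846 0.474 4.2204 17.811 1.1304 5.234 1.685 0.4998 0.6086 0.3793 0.6924 1.9013 0.6791 2.1341 2.6915 3.3321 0.00001966 0.001167 0.000004409 0.0000003101 0.000005588 0.0000003101 0.0000003101 0.0000003101 1.2287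
    hβ hN hx1 hx2 hy1 hy2 (by norm_num) (by norm_num) (by linarith) (by norm_num) (by norm_num) (by norm_num) (by norm_num) (by norm_num) (by norm_num) (by norm_num) (by norm_num) (by norm_num) (by norm_num) (by norm_num) (by norm_num) (by norm_num) (by norm_num) (by norm_num) (by norm_num) (by norm_num) (by norm_num) (by norm_num) (by norm_num) (by norm_num)
    (cube_sqrt_geJ (s := 0.7894) (by norm_num) (by norm_num) (by norm_num) (by norm_num))
    (cube_sqrt_geJ (s := 0.9282) (by norm_num) (by norm_num) (by norm_num) (by norm_num))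
    (by norm_num) (by norm_num) (by norm_num) (by norm_num) (by norm_num) (by norm_num) (by norm_num) (by norm_num) (by norm_num) (by norm_num) (by norm_num) (by norm_num) (by norm_num) (by norm_num) (by norm_num) (by norm_num) (by norm_num) (by norm_num)
    (exp_neg_leJ (r := 0.839) 10 (by norm_num) (by norm_num) (by norm_num) (by norm_num))
    (exp_neg_leJ (r := 0.755) 6 (by norm_num) (by norm_num) (by norm_num) (by norm_num))
    (exp_neg_leJ (r := 0.332) 12 (by norm_num) (by norm_num) (by norm_num) (by norm_num))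
    (exp_neg_leJ (r := 0.99) 14 (by norm_num) (by norm_num) (by norm_num) (by norm_num))
    (exp_neg_leJ (r := 0.095) 12 (by norm_num) (by norm_num) (by norm_num) (by norm_num))
    (exp_neg_leJ (r := 0.99) 14 (by norm_num) (by norm_num) (by norm_num) (by norm_num))
    (exp_neg_leJ (r := 0.99) 14 (by norm_num) (by norm_num) (by norm_num) (by norm_num))
    (exp_neg_leJ (r := 0.99) 14 (by norm_num) (by norm_num) (by norm_num) (by norm_num))
    (by norm_num)) (by norm_num) hN hβ.le (by norm_num)

private theorem JB8_k0_b12_1 {β x y : ℝ} (hβ : 0 < β) (hN : β * 17.811 ≤ 1) (hx1 : 1.1572 ≤ x) (hx2 : x ≤ 1.2905)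
    (hy1 : -0.446 ≤ y) (hy2 : y ≤ -0.426) : ‖HH β (x + y * I) - 1‖ ≤ 0.07 := by
  refine le_epsJ (C := 1.2436) (N0 := 17.811) (J_boxp 1.1572 1.2905 0.446 0 (-0.426) 1.2082 1.3654 1.4124 0.8949 0.4742 4.2204 17.811 1.1302 5.233 1.685 0.512 0.604 0.3765 0.7004 1.9379 0.6734 2.1022 2.6727 3.3149 0.00002132 0.001226 0.000003826 0.0000003101 0.000006228 0.0000003101 0.0000003101 0.0000003101 1.2436
    hβ hN hx1 hx2 hy1 hy2 (by norm_num) (by norm_num) (by linarith) (by norm_num) (by norm_num) (by norm_num) (by norm_num) (by norm_num) (by norm_num) (by norm_num) (by norm_num) (by norm_num) (by norm_num) (by norm_num) (by norm_num) (by norm_num) (by norm_num) (by norm_num) (by norm_num) (by norm_num) (by norm_num) (by norm_num) (by norm_num) (by norm_num)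
    (cube_sqrt_geJ (s := 0.7894) (by norm_num) (by norm_num) (by norm_num) (by norm_num))
    (cube_sqrt_geJ (s := 0.9282) (by norm_num) (by norm_num) (by norm_num) (by norm_num))
    (by norm_num) (by norm_num) (by norm_num) (by norm_num) (by norm_num) (by norm_num) (by norm_num) (by norm_num) (by norm_num) (by norm_num) (by norm_num) (by norm_num) (by norm_num) (by norm_num) (by norm_num) (by norm_num) (by norm_num) (by norm_num)
    (exp_neg_leJ (r := 0.757) 10 (by norm_num) (by norm_num) (by norm_num) (by norm_num))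
    (exp_neg_leJ (r := 0.705) 6 (by norm_num) (by norm_num) (by norm_num) (by norm_num))
    (exp_neg_leJ (r := 0.474) 12 (by norm_num) (by norm_num) (by norm_num) (by norm_num))
    (exp_neg_leJ (r := 0.99) 14 (by norm_num) (by norm_num) (by norm_num) (by norm_num))
    (exp_neg_leJ (r := 0.99) 11 (by norm_num) (by norm_num) (by norm_num) (by norm_num))
    (exp_neg_leJ (r := 0.99) 14 (by norm_num) (by norm_num) (by norm_num) (by norm_num))
    (exp_neg_leJ (r := 0.99) 14 (by norm_num) (by norm_num) (by norm_num) (by norm_num))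
    (exp_neg_leJ (r := 0.99) 14 (by norm_num) (by norm_num) (by norm_num) (by norm_num))
    (by norm_num)) (by norm_num) hN hβ.le (by norm_num)

private theorem JB8_k0_b12_2 {β x y : ℝ} (hβ : 0 < β) (hN : β * 17.811 ≤ 1) (hx1 : 1.1192 ≤ x) (hx2 : x ≤ 1.2735)
    (hy1 : -0.426 ≤ y) (hy2 : y ≤ -0.391) : ‖HH β (x + y * I) - 1‖ ≤ 0.07 := by
  refine le_epsJ (C := 1.2404) (N0 := 17.811) (J_boxp 1.1192 1.2735 0.426 0 (-0.391) 1.1956 1.3429 1.4117 0.9089 0.4741 4.2204 17.811 1.1233 5.165 1.679 0.537 0.5977 0.3739 0.7189 2.012 0.6659 2.0496 2.6511 3.3 0.00002384 0.001284 0.000002754 0.0000003101 0.000007082 0.0000003101 0.0000003101 0.0000003101 1.2404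
    hβ hN hx1 hx2 hy1 hy2 (by norm_num) (by norm_num) (by linarith) (by norm_num) (by norm_num) (by norm_num) (by norm_num) (by norm_num) (by norm_num) (by norm_num) (by norm_num) (by norm_num) (by norm_num) (by norm_num) (by norm_num) (by norm_num) (by norm_num) (by norm_num) (by norm_num) (by norm_num) (by norm_num) (by norm_num) (by norm_num) (by norm_num)
    (cube_sqrt_geJ (s := 0.7909) (by norm_num) (by norm_num) (by norm_num) (by norm_num))
    (cube_sqrt_geJ (s := 0.9286) (by norm_num) (by norm_num) (by norm_num) (by norm_num))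
    (by norm_num) (by norm_num) (by norm_num) (by norm_num) (by norm_num) (by norm_num) (by norm_num) (by norm_num) (by norm_num) (by norm_num) (by norm_num) (by norm_num) (by norm_num) (by norm_num) (by norm_num) (by norm_num) (by norm_num) (by norm_num)
    (exp_neg_leJ (r := 0.645) 10 (by norm_num) (by norm_num) (by norm_num) (by norm_num))
    (exp_neg_leJ (r := 0.659) 6 (by norm_num) (by norm_num) (by norm_num) (by norm_num))
    (exp_neg_leJ (r := 0.804) 12 (by norm_num) (by norm_num) (by norm_num) (by norm_num))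
    (exp_neg_leJ (r := 0.99) 14 (by norm_num) (by norm_num) (by norm_num) (by norm_num))
    (exp_neg_leJ (r := 0.86) 11 (by norm_num) (by norm_num) (by norm_num) (by norm_num))
    (exp_neg_leJ (r := 0.99) 14 (by norm_num) (by norm_num) (by norm_num) (by norm_num))
    (exp_neg_leJ (r := 0.99) 14 (by norm_num) (by norm_num) (by norm_num) (by norm_num))
    (exp_neg_leJ (r := 0.99) 14 (by norm_num) (by norm_num) (by norm_num) (by norm_num))
    (by norm_num)) (by norm_num) hN hβ.le (by norm_num)

private theorem JB8_k0_b12_3 {β x y : ℝ} (hβ : 0 < β) (hN : β * 17.811 ≤ 1) (hx1 : 1.0518 ≤ x) (hx2 : x ≤ 1.2443)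
    (hy1 : -0.391 ≤ y) (hy2 : y ≤ -0.326) : ‖HH β (x + y * I) - 1‖ ≤ 0.07 := by
  refine le_epsJ (C := 1.2415) (N0 := 17.811) (J_boxp 1.0518 1.2443 0.391 0 (-0.326) 1.173 1.3043 1.4152 0.9365 0.4746 4.2204 17.811 1.112 5.058 1.67 0.5806 0.5864 0.3691 0.7511 2.1413 0.6523 1.9563 2.6114 3.2702 0.00002913 0.001397 0.000001551 0.0000003101 0.000009007 0.0000003101 0.0000003101 0.0000003101 1.2415
    hβ hN hx1 hx2 hy1 hy2 (by norm_num) (by norm_num) (by linarith) (by norm_num) (by norm_num) (by norm_num) (by norm_num) (by norm_num) (by norm_num) (by norm_num) (by norm_num) (by norm_num) (by norm_num) (by norm_num) (by norm_num) (by norm_num) (by norm_num) (by norm_num) (by norm_num) (by norm_num) (by norm_num) (by norm_num) (by norm_num) (by norm_num)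
    (cube_sqrt_geJ (s := 0.7933) (by norm_num) (by norm_num) (by norm_num) (by norm_num))
    (cube_sqrt_geJ (s := 0.9294) (by norm_num) (by norm_num) (by norm_num) (by norm_num))
    (by norm_num) (by norm_num) (by norm_num) (by norm_num) (by norm_num) (by norm_num) (by norm_num) (by norm_num) (by norm_num) (by norm_num) (by norm_num) (by norm_num) (by norm_num) (by norm_num) (by norm_num) (by norm_num) (by norm_num) (by norm_num)
    (exp_neg_leJ (r := 0.444) 10 (by norm_num) (by norm_num) (by norm_num) (by norm_num))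
    (exp_neg_leJ (r := 0.574) 6 (by norm_num) (by norm_num) (by norm_num) (by norm_num))
    (exp_neg_leJ (r := 0.377) 13 (by norm_num) (by norm_num) (by norm_num) (by norm_num))
    (exp_neg_leJ (r := 0.99) 14 (by norm_num) (by norm_num) (by norm_num) (by norm_num))
    (exp_neg_leJ (r := 0.618) 11 (by norm_num) (by norm_num) (by norm_num) (by norm_num))
    (exp_neg_leJ (r := 0.99) 14 (by norm_num) (by norm_num) (by norm_num) (by norm_num))
    (exp_neg_leJ (r := 0.99) 14 (by norm_num) (by norm_num) (by norm_num) (by norm_num))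
    (exp_neg_leJ (r := 0.99) 14 (by norm_num) (by norm_num) (by norm_num) (by norm_num))
    (by norm_num)) (by norm_num) hN hβ.le (by norm_num)

private theorem JB8_k0_b12_4 {β x y : ℝ} (hβ : 0 < β) (hN : β * 17.811 ≤ 1) (hx1 : 0.9298 ≤ x) (hx2 : x ≤ 1.1893)
    (hy1 : -0.326 ≤ y) (hy2 : y ≤ -0.196) : ‖HH β (x + y * I) - 1‖ ≤ 0.07 := by
  refine le_epsJ (C := 1.2384) (N0 := 17.811) (J_boxp 0.9298 1.1893 0.326 0 (-0.196) 1.1332 1.2332 1.4356 0.9933 0.478 4.2204 17.811 1.0883 4.842 1.65 0.6617 0.5665 0.361 0.8119 2.3814 0.6285 1.7874 2.5441 3.2194 0.00004154 0.001615 0.000000525 0.0000003101 0.00001376 0.0000003101 0.0000003101 0.0000003101 1.2384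
    hβ hN hx1 hx2 hy1 hy2 (by norm_num) (by norm_num) (by linarith) (by norm_num) (by norm_num) (by norm_num) (by norm_num) (by norm_num) (by norm_num) (by norm_num) (by norm_num) (by norm_num) (by norm_num) (by norm_num) (by norm_num) (by norm_num) (by norm_num) (by norm_num) (by norm_num) (by norm_num) (by norm_num) (by norm_num) (by norm_num) (by norm_num)
    (cube_sqrt_geJ (s := 0.7982) (by norm_num) (by norm_num) (by norm_num) (by norm_num))
    (cube_sqrt_geJ (s := 0.9309) (by norm_num) (by norm_num) (by norm_num) (by norm_num))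
    (by norm_num) (by norm_num) (by norm_num) (by norm_num) (by norm_num) (by norm_num) (by norm_num) (by norm_num) (by norm_num) (by norm_num) (by norm_num) (by norm_num) (by norm_num) (by norm_num) (by norm_num) (by norm_num) (by norm_num) (by norm_num)
    (exp_neg_leJ (r := 0.089) 10 (by norm_num) (by norm_num) (by norm_num) (by norm_num))
    (exp_neg_leJ (r := 0.429) 6 (by norm_num) (by norm_num) (by norm_num) (by norm_num))
    (exp_neg_leJ (r := 0.46) 14 (by norm_num) (by norm_num) (by norm_num) (by norm_num))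
    (exp_neg_leJ (r := 0.99) 14 (by norm_num) (by norm_num) (by norm_num) (by norm_num))
    (exp_neg_leJ (r := 0.194) 11 (by norm_num) (by norm_num) (by norm_num) (by norm_num))
    (exp_neg_leJ (r := 0.99) 14 (by norm_num) (by norm_num) (by norm_num) (by norm_num))
    (exp_neg_leJ (r := 0.99) 14 (by norm_num) (by norm_num) (by norm_num) (by norm_num))
    (exp_neg_leJ (r := 0.99) 14 (by norm_num) (by norm_num) (by norm_num) (by norm_num))
    (by norm_num)) (by norm_num) hN hβ.le (by norm_num)

private theorem JB8_k0_b12_5 {β x y : ℝ} (hβ : 0 < β) (hN : β * 17.811 ≤ 1) (hx1 : 0.7693 ≤ x) (hx2 : x ≤ 1.0584)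
    (hy1 : -0.196 ≤ y) (hy2 : y ≤ 0.02) : ‖HH β (x + y * I) - 1‖ ≤ 0.07 := by
  refine le_epsJ (C := 0.9185) (N0 := 17.811) (J_boxp 0.7693 1.0584 0.196 0.02 0.02 1.1125 1.0764 1.47 1.0333 0.4837 4.2204 17.811 0.9676 3.908 1.555 0.8321 0.5562 0.3768 0.9622 2.8721 0.6195 1.5631 2.4907 3.2304 0.00005 0.001219 0.0000003101 0.0000003101 0.00001616 0.0000003101 0.0000003101 0.0000003101 0.9185
    hβ hN hx1 hx2 hy1 hy2 (by norm_num) (by norm_num) (by linarith) (by norm_num) (by norm_num) (by norm_num) (by norm_num) (by norm_num) (by norm_num) (by norm_num) (by norm_num) (by norm_num) (by norm_num) (by norm_num) (by norm_num) (by norm_num) (by norm_num) (by norm_num) (by norm_num) (by norm_num) (by norm_num) (by norm_num) (by norm_num) (by norm_num)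
    (cube_sqrt_geJ (s := 0.823) (by norm_num) (by norm_num) (by norm_num) (by norm_num))
    (cube_sqrt_geJ (s := 0.9388) (by norm_num) (by norm_num) (by norm_num) (by norm_num))
    (by norm_num) (by norm_num) (by norm_num) (by norm_num) (by norm_num) (by norm_num) (by norm_num) (by norm_num) (by norm_num) (by norm_num) (by norm_num) (by norm_num) (by norm_num) (by norm_num) (by norm_num) (by norm_num) (by norm_num) (by norm_num)
    (exp_neg_leJ (r := 0.906) 9 (by norm_num) (by norm_num) (by norm_num) (by norm_num))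
    (exp_neg_leJ (r := 0.711) 6 (by norm_num) (by norm_num) (by norm_num) (by norm_num))
    (exp_neg_leJ (r := 0.99) 14 (by norm_num) (by norm_num) (by norm_num) (by norm_num))
    (exp_neg_leJ (r := 0.99) 14 (by norm_num) (by norm_num) (by norm_num) (by norm_num))
    (exp_neg_leJ (r := 0.033) 11 (by norm_num) (by norm_num) (by norm_num) (by norm_num))
    (exp_neg_leJ (r := 0.99) 14 (by norm_num) (by norm_num) (by norm_num) (by norm_num))
    (exp_neg_leJ (r := 0.99) 14 (by norm_num) (by norm_num) (by norm_num) (by norm_num))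
    (exp_neg_leJ (r := 0.99) 14 (by norm_num) (by norm_num) (by norm_num) (by norm_num))
    (by norm_num)) (by norm_num) hN hβ.le (by norm_num)

theorem JB8_k0_c12 {κ t β : ℝ} (h : DomR κ t) (hβ : 0 < β) (hk1 : 0.81 ≤ κ) (hk2 : κ ≤ 0.87)
    (ht1 : -0.7465 ≤ t + κ) (ht2 : t + κ ≤ 0.04) (hR0 : β * 10 ≤ κ) (hR : β * (8.82 * (1 + κ ^ 2)) ≤ κ) :
    ‖HH β (sg κ t) - 1‖ ≤ 0.07 := by
  have hN : β * 17.811 ≤ 1 := bNC hβ h.1 hk2 (by norm_num) (by norm_num) hR (by norm_num)
  have hy1 : -0.456 ≤ sy κ t := syL_ge h 0.81 0.87 0.7465 0.456 0.63381 0.63382 0.3445 0.3322 0.35682 hk1 hk2 (by linarith) (by norm_num) (by norm_num) (by norm_num)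
    (expm_ge (by norm_num) (by norm_num) (by norm_num) (by norm_num)) (expm_le (by norm_num) (by norm_num) (by norm_num)) (by norm_num)
    (by norm_num) (by norm_num) (by norm_num) (by norm_num) (by norm_num) (by norm_num)
  have hy2 : sy κ t ≤ 0.02 := syR_le h 0.81 0.87 0.04 0.02 1.0202 0.023 0.02345 0.0252 hk1 hk2 (by linarith) (by norm_num) (by norm_num)
    (expn_ge (by norm_num) (by norm_num)) (by norm_num) (by norm_num) (Or.inr ((mul_le_mul_of_nonneg_left (expn_le (E := 1.02021) (by norm_num) (by norm_num) (by norm_num)) (by norm_num)).trans (by norm_num))) (by norm_num) (by norm_num) (by norm_num)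
  rcases le_total (sy κ t) (-0.446) with f0 | g0
  · have hx1 : 1.1802 ≤ sx κ t := sx_lo h 0.81 (-0.446) 0.456 1.56205 1.1802 hk1 (by norm_num) f0 (abs_le.2 ⟨by linarith, by linarith⟩) (by rw [neg_neg]; exact expn_ge (by norm_num) (by norm_num)) (by norm_num) (by norm_num)
    have hx2 : sx κ t ≤ 1.2982 := sx_hi h 0.87 (-0.456) 0.446 1.57776 1.2982 hk2 hy1 (by norm_num) (by rw [abs_of_nonpos (by linarith)]; linarith) (by rw [neg_neg]; exact expn_le (by norm_num) (by norm_num) (by norm_num)) (by norm_num) (by norm_num)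
    exact JB8_k0_b12_0 hβ hN hx1 hx2 (by linarith) (by linarith)
  rcases le_total (sy κ t) (-0.426) with f1 | g1
  · have hx1 : 1.1572 ≤ sx κ t := sx_lo h 0.81 (-0.426) 0.446 1.53112 1.1572 hk1 (by norm_num) f1 (abs_le.2 ⟨by linarith, by linarith⟩) (by rw [neg_neg]; exact expn_ge (by norm_num) (by norm_num)) (by norm_num) (by norm_num)
    have hx2 : sx κ t ≤ 1.2905 := sx_hi h 0.87 (-0.446) 0.426 1.56206 1.2905 hk2 g0 (by norm_num) (by rw [abs_of_nonpos (by linarith)]; linarith) (by rw [neg_neg]; exact expn_le (by norm_num) (by norm_num) (by norm_num)) (by norm_num) (by norm_num)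
    exact JB8_k0_b12_1 hβ hN hx1 hx2 (by linarith) (by linarith)
  rcases le_total (sy κ t) (-0.391) with f2 | g2
  · have hx1 : 1.1192 ≤ sx κ t := sx_lo h 0.81 (-0.391) 0.426 1.47845 1.1192 hk1 (by norm_num) f2 (abs_le.2 ⟨by linarith, by linarith⟩) (by rw [neg_neg]; exact expn_ge (by norm_num) (by norm_num)) (by norm_num) (by norm_num)
    have hx2 : sx κ t ≤ 1.2735 := sx_hi h 0.87 (-0.426) 0.391 1.53113 1.2735 hk2 g1 (by norm_num) (by rw [abs_of_nonpos (by linarith)]; linarith) (by rw [neg_neg]; exact expn_le (by norm_num) (by norm_num) (by norm_num)) (by norm_num) (by norm_num)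
    exact JB8_k0_b12_2 hβ hN hx1 hx2 (by linarith) (by linarith)
  rcases le_total (sy κ t) (-0.326) with f3 | g3
  · have hx1 : 1.0518 ≤ sx κ t := sx_lo h 0.81 (-0.326) 0.391 1.38541 1.0518 hk1 (by norm_num) f3 (abs_le.2 ⟨by linarith, by linarith⟩) (by rw [neg_neg]; exact expn_ge (by norm_num) (by norm_num)) (by norm_num) (by norm_num)
    have hx2 : sx κ t ≤ 1.2443 := sx_hi h 0.87 (-0.391) 0.326 1.47846 1.2443 hk2 g2 (by norm_num) (by rw [abs_of_nonpos (by linarith)]; linarith) (by rw [neg_neg]; exact expn_le (by norm_num) (by norm_num) (by norm_num)) (by norm_num) (by norm_num)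
    exact JB8_k0_b12_3 hβ hN hx1 hx2 (by linarith) (by linarith)
  rcases le_total (sy κ t) (-0.196) with f4 | g4
  · have hx1 : 0.9298 ≤ sx κ t := sx_lo h 0.81 (-0.196) 0.326 1.21652 0.9298 hk1 (by norm_num) f4 (abs_le.2 ⟨by linarith, by linarith⟩) (by rw [neg_neg]; exact expn_ge (by norm_num) (by norm_num)) (by norm_num) (by norm_num)
    have hx2 : sx κ t ≤ 1.1893 := sx_hi h 0.87 (-0.326) 0.196 1.38542 1.1893 hk2 g3 (by norm_num) (by rw [abs_of_nonpos (by linarith)]; linarith) (by rw [neg_neg]; exact expn_le (by norm_num) (by norm_num) (by norm_num)) (by norm_num) (by norm_num)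
    exact JB8_k0_b12_4 hβ hN hx1 hx2 (by linarith) (by linarith)
  have hx1 : 0.7693 ≤ sx κ t := sx_lo h 0.81 0.02 0.196 0.98019 0.7693 hk1 (by norm_num) hy2 (abs_le.2 ⟨by linarith, by linarith⟩) (expm_ge (by norm_num) (by norm_num) (by norm_num) (by norm_num)) (by norm_num) (by norm_num)
  have hx2 : sx κ t ≤ 1.0584 := sx_hi h 0.87 (-0.196) 0 1.21653 1.0584 hk2 g4 (by norm_num) (abs_nonneg _) (by rw [neg_neg]; exact expn_le (by norm_num) (by norm_num) (by norm_num)) (by norm_num) (by norm_num)
  exact JB8_k0_b12_5 hβ hN hx1 hx2 (by linarith) (by linarith)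

private theorem JB8_k0_b13_0 {β x y : ℝ} (hβ : 0 < β) (hN : β * 17.673 ≤ 1) (hx1 : 1.2622 ≤ x) (hx2 : x ≤ 1.4037)
    (hy1 : -0.446 ≤ y) (hy2 : y ≤ -0.431) : ‖HH β (x + y * I) - 1‖ ≤ 0.07 := by
  refine le_epsJ (C := 1.2343) (N0 := 17.673) (J_boxp 1.2622 1.4037 0.446 0 (-0.431) 1.2821 1.4729 1.5147 0.8478 0.491 4.204 17.673 1.1489 5.42 1.701 0.4685 0.641 0.3955 0.7363 1.874 0.7244 2.2476 2.8827 3.2327 0.00001204 0.0009253 0.000002234 0.0000003101 0.00000276 0.0000003101 0.0000003101 0.0000003101 1.2343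
    hβ hN hx1 hx2 hy1 hy2 (by norm_num) (by norm_num) (by linarith) (by norm_num) (by norm_num) (by norm_num) (by norm_num) (by norm_num) (by norm_num) (by norm_num) (by norm_num) (by norm_num) (by norm_num) (by norm_num) (by norm_num) (by norm_num) (by norm_num) (by norm_num) (by norm_num) (by norm_num) (by norm_num) (by norm_num) (by norm_num) (by norm_num)
    (cube_sqrt_geJ (s := 0.7855) (by norm_num) (by norm_num) (by norm_num) (by norm_num))
    (cube_sqrt_geJ (s := 0.9269) (by norm_num) (by norm_num) (by norm_num) (by norm_num))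
    (by norm_num) (by norm_num) (by norm_num) (by norm_num) (by norm_num) (by norm_num) (by norm_num) (by norm_num) (by norm_num) (by norm_num) (by norm_num) (by norm_num) (by norm_num) (by norm_num) (by norm_num) (by norm_num) (by norm_num) (by norm_num)
    (exp_neg_leJ (r := 0.328) 11 (by norm_num) (by norm_num) (by norm_num) (by norm_num))
    (exp_neg_leJ (r := 0.989) 6 (by norm_num) (by norm_num) (by norm_num) (by norm_num))
    (exp_neg_leJ (r := 0.012) 13 (by norm_num) (by norm_num) (by norm_num) (by norm_num))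
    (exp_neg_leJ (r := 0.99) 14 (by norm_num) (by norm_num) (by norm_num) (by norm_num))
    (exp_neg_leJ (r := 0.802) 12 (by norm_num) (by norm_num) (by norm_num) (by norm_num))
    (exp_neg_leJ (r := 0.99) 14 (by norm_num) (by norm_num) (by norm_num) (by norm_num))
    (exp_neg_leJ (r := 0.99) 14 (by norm_num) (by norm_num) (by norm_num) (by norm_num))
    (exp_neg_leJ (r := 0.99) 14 (by norm_num) (by norm_num) (by norm_num) (by norm_num))
    (by norm_num)) (by norm_num) hN hβ.le (by norm_num)

private theorem JB8_k0_b13_1 {β x y : ℝ} (hβ : 0 < β) (hN : β * 17.673 ≤ 1) (hx1 : 1.2325 ≤ x) (hx2 : x ≤ 1.3884)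
    (hy1 : -0.431 ≤ y) (hy2 : y ≤ -0.406) : ‖HH β (x + y * I) - 1‖ ≤ 0.07 := by
  refine le_epsJ (C := 1.2287) (N0 := 17.673) (J_boxp 1.2325 1.3884 0.431 0 (-0.406) 1.2718 1.4538 1.5102 0.8569 0.4903 4.204 17.673 1.1432 5.362 1.696 0.4882 0.6358 0.3935 0.7498 1.931 0.7182 2.2065 2.8641 3.2252 0.0000132 0.0009577 0.000001759 0.0000003101 0.000003078 0.0000003101 0.0000003101 0.0000003101 1.2287
    hβ hN hx1 hx2 hy1 hy2 (by norm_num) (by norm_num) (by linarith) (by norm_num) (by norm_num) (by norm_num) (by norm_num) (by norm_num) (by norm_num) (by norm_num) (by norm_num) (by norm_num) (by norm_num) (by norm_num) (by norm_num) (by norm_num) (by norm_num) (by norm_num) (by norm_num) (by norm_num) (by norm_num) (by norm_num) (by norm_num) (by norm_num)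
    (cube_sqrt_geJ (s := 0.7867) (by norm_num) (by norm_num) (by norm_num) (by norm_num))
    (cube_sqrt_geJ (s := 0.9273) (by norm_num) (by norm_num) (by norm_num) (by norm_num))
    (by norm_num) (by norm_num) (by norm_num) (by norm_num) (by norm_num) (by norm_num) (by norm_num) (by norm_num) (by norm_num) (by norm_num) (by norm_num) (by norm_num) (by norm_num) (by norm_num) (by norm_num) (by norm_num) (by norm_num) (by norm_num)
    (exp_neg_leJ (r := 0.236) 11 (by norm_num) (by norm_num) (by norm_num) (by norm_num))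
    (exp_neg_leJ (r := 0.954) 6 (by norm_num) (by norm_num) (by norm_num) (by norm_num))
    (exp_neg_leJ (r := 0.251) 13 (by norm_num) (by norm_num) (by norm_num) (by norm_num))
    (exp_neg_leJ (r := 0.99) 14 (by norm_num) (by norm_num) (by norm_num) (by norm_num))
    (exp_neg_leJ (r := 0.692) 12 (by norm_num) (by norm_num) (by norm_num) (by norm_num))
    (exp_neg_leJ (r := 0.99) 14 (by norm_num) (by norm_num) (by norm_num) (by norm_num))
    (exp_neg_leJ (r := 0.99) 14 (by norm_num) (by norm_num) (by norm_num) (by norm_num))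
    (exp_neg_leJ (r := 0.99) 14 (by norm_num) (by norm_num) (by norm_num) (by norm_num))
    (by norm_num)) (by norm_num) hN hβ.le (by norm_num)

private theorem JB8_k0_b13_2 {β x y : ℝ} (hβ : 0 < β) (hN : β * 17.673 ≤ 1) (hx1 : 1.1803 ≤ x) (hx2 : x ≤ 1.3638)
    (hy1 : -0.406 ≤ y) (hy2 : y ≤ -0.361) : ‖HH β (x + y * I) - 1‖ ≤ 0.07 := by
  refine le_epsJ (C := 1.2316) (N0 := 17.673) (J_boxp 1.1803 1.3638 0.406 0 (-0.361) 1.2528 1.423 1.5061 0.8752 0.4896 4.204 17.673 1.1359 5.289 1.69 0.5208 0.6263 0.3892 0.7714 2.0253 0.7065 2.1342 2.8276 3.2045 0.00001561 0.001033 0.000001203 0.0000003101 0.000003784 0.0000003101 0.0000003101 0.0000003101 1.2316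
    hβ hN hx1 hx2 hy1 hy2 (by norm_num) (by norm_num) (by linarith) (by norm_num) (by norm_num) (by norm_num) (by norm_num) (by norm_num) (by norm_num) (by norm_num) (by norm_num) (by norm_num) (by norm_num) (by norm_num) (by norm_num) (by norm_num) (by norm_num) (by norm_num) (by norm_num) (by norm_num) (by norm_num) (by norm_num) (by norm_num) (by norm_num)
    (cube_sqrt_geJ (s := 0.7882) (by norm_num) (by norm_num) (by norm_num) (by norm_num))
    (cube_sqrt_geJ (s := 0.9278) (by norm_num) (by norm_num) (by norm_num) (by norm_num))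
    (by norm_num) (by norm_num) (by norm_num) (by norm_num) (by norm_num) (by norm_num) (by norm_num) (by norm_num) (by norm_num) (by norm_num) (by norm_num) (by norm_num) (by norm_num) (by norm_num) (by norm_num) (by norm_num) (by norm_num) (by norm_num)
    (exp_neg_leJ (r := 0.068) 11 (by norm_num) (by norm_num) (by norm_num) (by norm_num))
    (exp_neg_leJ (r := 0.878) 6 (by norm_num) (by norm_num) (by norm_num) (by norm_num))
    (exp_neg_leJ (r := 0.632) 13 (by norm_num) (by norm_num) (by norm_num) (by norm_num))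
    (exp_neg_leJ (r := 0.99) 14 (by norm_num) (by norm_num) (by norm_num) (by norm_num))
    (exp_neg_leJ (r := 0.485) 12 (by norm_num) (by norm_num) (by norm_num) (by norm_num))
    (exp_neg_leJ (r := 0.99) 14 (by norm_num) (by norm_num) (by norm_num) (by norm_num))
    (exp_neg_leJ (r := 0.99) 14 (by norm_num) (by norm_num) (by norm_num) (by norm_num))
    (exp_neg_leJ (r := 0.99) 14 (by norm_num) (by norm_num) (by norm_num) (by norm_num))
    (by norm_num)) (by norm_num) hN hβ.le (by norm_num)

private theorem JB8_k0_b13_3 {β x y : ℝ} (hβ : 0 < β) (hN : β * 17.673 ≤ 1) (hx1 : 1.0882 ≤ x) (hx2 : x ≤ 1.3202)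
    (hy1 : -0.361 ≤ y) (hy2 : y ≤ -0.276) : ‖HH β (x + y * I) - 1‖ ≤ 0.07 := by
  refine le_epsJ (C := 1.2364) (N0 := 17.673) (J_boxp 1.0882 1.3202 0.361 0 (-0.276) 1.2199 1.3687 1.5057 0.9108 0.4896 4.204 17.673 1.122 5.153 1.678 0.5791 0.6099 0.3818 0.8109 2.1947 0.6863 2.0067 2.7657 3.1679 0.00002088 0.001176 0.0000005973 0.0000003101 0.000005407 0.0000003101 0.0000003101 0.0000003101 1.2364
    hβ hN hx1 hx2 hy1 hy2 (by norm_num) (by norm_num) (by linarith) (by norm_num) (by norm_num) (by norm_num) (by norm_num) (by norm_num) (by norm_num) (by norm_num) (by norm_num) (by norm_num) (by norm_num) (by norm_num) (by norm_num) (by norm_num) (by norm_num) (by norm_num) (by norm_num) (by norm_num) (by norm_num) (by norm_num) (by norm_num) (by norm_num)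
    (cube_sqrt_geJ (s := 0.7912) (by norm_num) (by norm_num) (by norm_num) (by norm_num))
    (cube_sqrt_geJ (s := 0.9287) (by norm_num) (by norm_num) (by norm_num) (by norm_num))
    (by norm_num) (by norm_num) (by norm_num) (by norm_num) (by norm_num) (by norm_num) (by norm_num) (by norm_num) (by norm_num) (by norm_num) (by norm_num) (by norm_num) (by norm_num) (by norm_num) (by norm_num) (by norm_num) (by norm_num) (by norm_num)
    (exp_neg_leJ (r := 0.778) 10 (by norm_num) (by norm_num) (by norm_num) (by norm_num))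
    (exp_neg_leJ (r := 0.747) 6 (by norm_num) (by norm_num) (by norm_num) (by norm_num))
    (exp_neg_leJ (r := 0.331) 14 (by norm_num) (by norm_num) (by norm_num) (by norm_num))
    (exp_neg_leJ (r := 0.99) 14 (by norm_num) (by norm_num) (by norm_num) (by norm_num))
    (exp_neg_leJ (r := 0.128) 12 (by norm_num) (by norm_num) (by norm_num) (by norm_num))
    (exp_neg_leJ (r := 0.99) 14 (by norm_num) (by norm_num) (by norm_num) (by norm_num))
    (exp_neg_leJ (r := 0.99) 14 (by norm_num) (by norm_num) (by norm_num) (by norm_num))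
    (exp_neg_leJ (r := 0.99) 14 (by norm_num) (by norm_num) (by norm_num) (by norm_num))
    (by norm_num)) (by norm_num) hN hβ.le (by norm_num)

private theorem JB8_k0_b13_4 {β x y : ℝ} (hβ : 0 < β) (hN : β * 17.673 ≤ 1) (hx1 : 0.922 ≤ x) (hx2 : x ≤ 1.2347)
    (hy1 : -0.276 ≤ y) (hy2 : y ≤ -0.101) : ‖HH β (x + y * I) - 1‖ ≤ 0.07 := by
  refine le_epsJ (C := 1.2223) (N0 := 17.673) (J_boxp 0.922 1.2347 0.276 0 (-0.101) 1.1633 1.2652 1.5274 0.9851 0.4931 4.204 17.673 1.0876 4.836 1.65 0.6904 0.5816 0.3707 0.8882 2.5157 0.652 1.7766 2.6644 3.1169 0.00003439 0.00143 0.0000003101 0.0000003101 0.000009912 0.0000003101 0.0000003101 0.0000003101 1.2223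
    hβ hN hx1 hx2 hy1 hy2 (by norm_num) (by norm_num) (by linarith) (by norm_num) (by norm_num) (by norm_num) (by norm_num) (by norm_num) (by norm_num) (by norm_num) (by norm_num) (by norm_num) (by norm_num) (by norm_num) (by norm_num) (by norm_num) (by norm_num) (by norm_num) (by norm_num) (by norm_num) (by norm_num) (by norm_num) (by norm_num) (by norm_num)
    (cube_sqrt_geJ (s := 0.7984) (by norm_num) (by norm_num) (by norm_num) (by norm_num))
    (cube_sqrt_geJ (s := 0.931) (by norm_num) (by norm_num) (by norm_num) (by norm_num))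
    (by norm_num) (by norm_num) (by norm_num) (by norm_num) (by norm_num) (by norm_num) (by norm_num) (by norm_num) (by norm_num) (by norm_num) (by norm_num) (by norm_num) (by norm_num) (by norm_num) (by norm_num) (by norm_num) (by norm_num) (by norm_num)
    (exp_neg_leJ (r := 0.278) 10 (by norm_num) (by norm_num) (by norm_num) (by norm_num))
    (exp_neg_leJ (r := 0.551) 6 (by norm_num) (by norm_num) (by norm_num) (by norm_num))
    (exp_neg_leJ (r := 0.99) 14 (by norm_num) (by norm_num) (by norm_num) (by norm_num))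
    (exp_neg_leJ (r := 0.99) 14 (by norm_num) (by norm_num) (by norm_num) (by norm_num))
    (exp_neg_leJ (r := 0.522) 11 (by norm_num) (by norm_num) (by norm_num) (by norm_num))
    (exp_neg_leJ (r := 0.99) 14 (by norm_num) (by norm_num) (by norm_num) (by norm_num))
    (exp_neg_leJ (r := 0.99) 14 (by norm_num) (by norm_num) (by norm_num) (by norm_num))
    (exp_neg_leJ (r := 0.99) 14 (by norm_num) (by norm_num) (by norm_num) (by norm_num))
    (by norm_num)) (by norm_num) hN hβ.le (by norm_num)

private theorem JB8_k0_b13_5 {β x y : ℝ} (hβ : 0 < β) (hN : β * 17.673 ≤ 1) (hx1 : 0.8467 ≤ x) (hx2 : x ≤ 1.04)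
    (hy1 : -0.101 ≤ y) (hy2 : y ≤ 0.02) : ‖HH β (x + y * I) - 1‖ ≤ 0.07 := by
  refine le_epsJ (C := 0.543) (N0 := 17.673) (J_boxp 0.8467 1.04 0.101 0.02 0.02 1.2345 1.0449 1.4568 0.88 0.4816 4.204 17.673 0.8465 3.192 1.467 0.9268 0.6172 0.443 1.1386 3.1845 0.709 1.6703 2.9037 3.4709 0.00001838 0.0003987 0.0000003101 0.0000003101 0.000003618 0.0000003101 0.0000003101 0.0000003101 0.543
    hβ hN hx1 hx2 hy1 hy2 (by norm_num) (by norm_num) (by linarith) (by norm_num) (by norm_num) (by norm_num) (by norm_num) (by norm_num) (by norm_num) (by norm_num) (by norm_num) (by norm_num) (by norm_num) (by norm_num) (by norm_num) (by norm_num) (by norm_num) (by norm_num) (by norm_num) (by norm_num) (by norm_num) (by norm_num) (by norm_num) (by norm_num)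
    (cube_sqrt_geJ (s := 0.8472) (by norm_num) (by norm_num) (by norm_num) (by norm_num))
    (cube_sqrt_geJ (s := 0.9467) (by norm_num) (by norm_num) (by norm_num) (by norm_num))
    (by norm_num) (by norm_num) (by norm_num) (by norm_num) (by norm_num) (by norm_num) (by norm_num) (by norm_num) (by norm_num) (by norm_num) (by norm_num) (by norm_num) (by norm_num) (by norm_num) (by norm_num) (by norm_num) (by norm_num) (by norm_num)
    (exp_neg_leJ (r := 0.907) 10 (by norm_num) (by norm_num) (by norm_num) (by norm_num))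
    (exp_neg_leJ (r := 0.829) 7 (by norm_num) (by norm_num) (by norm_num) (by norm_num))
    (exp_neg_leJ (r := 0.99) 14 (by norm_num) (by norm_num) (by norm_num) (by norm_num))
    (exp_neg_leJ (r := 0.99) 14 (by norm_num) (by norm_num) (by norm_num) (by norm_num))
    (exp_neg_leJ (r := 0.53) 12 (by norm_num) (by norm_num) (by norm_num) (by norm_num))
    (exp_neg_leJ (r := 0.99) 14 (by norm_num) (by norm_num) (by norm_num) (by norm_num))
    (exp_neg_leJ (r := 0.99) 14 (by norm_num) (by norm_num) (by norm_num) (by norm_num))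
    (exp_neg_leJ (r := 0.99) 14 (by norm_num) (by norm_num) (by norm_num) (by norm_num))
    (by norm_num)) (by norm_num) hN hβ.le (by norm_num)

theorem JB8_k0_c13 {κ t β : ℝ} (h : DomR κ t) (hβ : 0 < β) (hk1 : 0.87 ≤ κ) (hk2 : κ ≤ 0.94)
    (ht1 : -0.7465 ≤ t + κ) (ht2 : t + κ ≤ 0.04) (hR0 : β * 10 ≤ κ) (hR : β * (8.82 * (1 + κ ^ 2)) ≤ κ) :
    ‖HH β (sg κ t) - 1‖ ≤ 0.07 := by
  have hN : β * 17.673 ≤ 1 := bNC hβ h.1 hk2 (by norm_num) (by norm_num) hR (by norm_num)
  have hy1 : -0.446 ≤ sy κ t := syL_ge h 0.87 0.94 0.7465 0.446 0.64018 0.64019 0.32 0.30374 0.32819 hk1 hk2 (by linarith) (by norm_num) (by norm_num) (by norm_num)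
    (expm_ge (by norm_num) (by norm_num) (by norm_num) (by norm_num)) (expm_le (by norm_num) (by norm_num) (by norm_num)) (by norm_num)
    (by norm_num) (by norm_num) (by norm_num) (by norm_num) (by norm_num) (by norm_num)
  have hy2 : sy κ t ≤ 0.02 := syR_le h 0.87 0.94 0.04 0.02 1.0202 0.0212 0.0217 0.02346 hk1 hk2 (by linarith) (by norm_num) (by norm_num)
    (expn_ge (by norm_num) (by norm_num)) (by norm_num) (by norm_num) (Or.inr ((mul_le_mul_of_nonneg_left (expn_le (E := 1.02021) (by norm_num) (by norm_num) (by norm_num)) (by norm_num)).trans (by norm_num))) (by norm_num) (by norm_num) (by norm_num)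
  rcases le_total (sy κ t) (-0.431) with f0 | g0
  · have hx1 : 1.2622 ≤ sx κ t := sx_lo h 0.87 (-0.431) 0.446 1.53879 1.2622 hk1 (by norm_num) f0 (abs_le.2 ⟨by linarith, by linarith⟩) (by rw [neg_neg]; exact expn_ge (by norm_num) (by norm_num)) (by norm_num) (by norm_num)
    have hx2 : sx κ t ≤ 1.4037 := sx_hi h 0.94 (-0.446) 0.431 1.56206 1.4037 hk2 hy1 (by norm_num) (by rw [abs_of_nonpos (by linarith)]; linarith) (by rw [neg_neg]; exact expn_le (by norm_num) (by norm_num) (by norm_num)) (by norm_num) (by norm_num)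
    exact JB8_k0_b13_0 hβ hN hx1 hx2 (by linarith) (by linarith)
  rcases le_total (sy κ t) (-0.406) with f1 | g1
  · have hx1 : 1.2325 ≤ sx κ t := sx_lo h 0.87 (-0.406) 0.431 1.5008 1.2325 hk1 (by norm_num) f1 (abs_le.2 ⟨by linarith, by linarith⟩) (by rw [neg_neg]; exact expn_ge (by norm_num) (by norm_num)) (by norm_num) (by norm_num)
    have hx2 : sx κ t ≤ 1.3884 := sx_hi h 0.94 (-0.431) 0.406 1.5388 1.3884 hk2 g0 (by norm_num) (by rw [abs_of_nonpos (by linarith)]; linarith) (by rw [neg_neg]; exact expn_le (by norm_num) (by norm_num) (by norm_num)) (by norm_num) (by norm_num)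
    exact JB8_k0_b13_1 hβ hN hx1 hx2 (by linarith) (by linarith)
  rcases le_total (sy κ t) (-0.361) with f2 | g2
  · have hx1 : 1.1803 ≤ sx κ t := sx_lo h 0.87 (-0.361) 0.406 1.43476 1.1803 hk1 (by norm_num) f2 (abs_le.2 ⟨by linarith, by linarith⟩) (by rw [neg_neg]; exact expn_ge (by norm_num) (by norm_num)) (by norm_num) (by norm_num)
    have hx2 : sx κ t ≤ 1.3638 := sx_hi h 0.94 (-0.406) 0.361 1.50081 1.3638 hk2 g1 (by norm_num) (by rw [abs_of_nonpos (by linarith)]; linarith) (by rw [neg_neg]; exact expn_le (by norm_num) (by norm_num) (by norm_num)) (by norm_num) (by norm_num)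
    exact JB8_k0_b13_2 hβ hN hx1 hx2 (by linarith) (by linarith)
  rcases le_total (sy κ t) (-0.276) with f3 | g3
  · have hx1 : 1.0882 ≤ sx κ t := sx_lo h 0.87 (-0.276) 0.361 1.31784 1.0882 hk1 (by norm_num) f3 (abs_le.2 ⟨by linarith, by linarith⟩) (by rw [neg_neg]; exact expn_ge (by norm_num) (by norm_num)) (by norm_num) (by norm_num)
    have hx2 : sx κ t ≤ 1.3202 := sx_hi h 0.94 (-0.361) 0.276 1.43477 1.3202 hk2 g2 (by norm_num) (by rw [abs_of_nonpos (by linarith)]; linarith) (by rw [neg_neg]; exact expn_le (by norm_num) (by norm_num) (by norm_num)) (by norm_num) (by norm_num)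
    exact JB8_k0_b13_3 hβ hN hx1 hx2 (by linarith) (by linarith)
  rcases le_total (sy κ t) (-0.101) with f4 | g4
  · have hx1 : 0.922 ≤ sx κ t := sx_lo h 0.87 (-0.101) 0.276 1.10627 0.922 hk1 (by norm_num) f4 (abs_le.2 ⟨by linarith, by linarith⟩) (by rw [neg_neg]; exact expn_ge (by norm_num) (by norm_num)) (by norm_num) (by norm_num)
    have hx2 : sx κ t ≤ 1.2347 := sx_hi h 0.94 (-0.276) 0.101 1.31785 1.2347 hk2 g3 (by norm_num) (by rw [abs_of_nonpos (by linarith)]; linarith) (by rw [neg_neg]; exact expn_le (by norm_num) (by norm_num) (by norm_num)) (by norm_num) (by norm_num)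
    exact JB8_k0_b13_4 hβ hN hx1 hx2 (by linarith) (by linarith)
  have hx1 : 0.8467 ≤ sx κ t := sx_lo h 0.87 0.02 0.101 0.98019 0.8467 hk1 (by norm_num) hy2 (abs_le.2 ⟨by linarith, by linarith⟩) (expm_ge (by norm_num) (by norm_num) (by norm_num) (by norm_num)) (by norm_num) (by norm_num)
  have hx2 : sx κ t ≤ 1.04 := sx_hi h 0.94 (-0.101) 0 1.10628 1.04 hk2 g4 (by norm_num) (abs_nonneg _) (by rw [neg_neg]; exact expn_le (by norm_num) (by norm_num) (by norm_num)) (by norm_num) (by norm_num)
  exact JB8_k0_b13_5 hβ hN hx1 hx2 (by linarith) (by linarith)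

private theorem JB8_k0_b14_0 {β x y : ℝ} (hβ : 0 < β) (hN : β * 17.639 ≤ 1) (hx1 : 1.3319 ≤ x) (hx2 : x ≤ 1.491)
    (hy1 : -0.434 ≤ y) (hy2 : y ≤ -0.399) : ‖HH β (x + y * I) - 1‖ ≤ 0.07 := by
  refine le_epsJ (C := 1.2202) (N0 := 17.639) (J_boxp 1.3319 1.491 0.434 0 (-0.399) 1.3397 1.5529 1.6076 0.8177 0.5059 4.1999 17.639 1.1592 5.527 1.709 0.446 0.6698 0.411 0.7791 1.8632 0.7648 2.3441 3.0547 3.1546 0.000007412 0.0007109 0.000001078 0.0000003101 0.000001385 0.0000003101 0.0000003101 0.0000003101 1.2202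
    hβ hN hx1 hx2 hy1 hy2 (by norm_num) (by norm_num) (by linarith) (by norm_num) (by norm_num) (by norm_num) (by norm_num) (by norm_num) (by norm_num) (by norm_num) (by norm_num) (by norm_num) (by norm_num) (by norm_num) (by norm_num) (by norm_num) (by norm_num) (by norm_num) (by norm_num) (by norm_num) (by norm_num) (by norm_num) (by norm_num) (by norm_num)
    (cube_sqrt_geJ (s := 0.7833) (by norm_num) (by norm_num) (by norm_num) (by norm_num))
    (cube_sqrt_geJ (s := 0.9263) (by norm_num) (by norm_num) (by norm_num) (by norm_num))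
    (by norm_num) (by norm_num) (by norm_num) (by norm_num) (by norm_num) (by norm_num) (by norm_num) (by norm_num) (by norm_num) (by norm_num) (by norm_num) (by norm_num) (by norm_num) (by norm_num) (by norm_num) (by norm_num) (by norm_num) (by norm_num)
    (exp_neg_leJ (r := 0.814) 11 (by norm_num) (by norm_num) (by norm_num) (by norm_num))
    (exp_neg_leJ (r := 0.249) 7 (by norm_num) (by norm_num) (by norm_num) (by norm_num))
    (exp_neg_leJ (r := 0.742) 13 (by norm_num) (by norm_num) (by norm_num) (by norm_num))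
    (exp_neg_leJ (r := 0.99) 14 (by norm_num) (by norm_num) (by norm_num) (by norm_num))
    (exp_neg_leJ (r := 0.49) 13 (by norm_num) (by norm_num) (by norm_num) (by norm_num))
    (exp_neg_leJ (r := 0.99) 14 (by norm_num) (by norm_num) (by norm_num) (by norm_num))
    (exp_neg_leJ (r := 0.99) 14 (by norm_num) (by norm_num) (by norm_num) (by norm_num))
    (exp_neg_leJ (r := 0.99) 14 (by norm_num) (by norm_num) (by norm_num) (by norm_num))
    (by norm_num)) (by norm_num) hN hβ.le (by norm_num)

private theorem JB8_k0_b14_1 {β x y : ℝ} (hβ : 0 < β) (hN : β * 17.639 ≤ 1) (hx1 : 1.2575 ≤ x) (hx2 : x ≤ 1.4513)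
    (hy1 : -0.399 ≤ y) (hy2 : y ≤ -0.339) : ‖HH β (x + y * I) - 1‖ ≤ 0.07 := by
  refine le_epsJ (C := 1.2142) (N0 := 17.639) (J_boxp 1.2575 1.4513 0.399 0 (-0.339) 1.3122 1.5052 1.5948 0.8402 0.5039 4.1999 17.639 1.1471 5.402 1.699 0.4936 0.656 0.4052 0.8089 1.9981 0.7478 2.2411 3.001 3.1355 0.000009439 0.0007873 0.0000006361 0.0000003101 0.00000187 0.0000003101 0.0000003101 0.0000003101 1.2142
    hβ hN hx1 hx2 hy1 hy2 (by norm_num) (by norm_num) (by linarith) (by norm_num) (by norm_num) (by norm_num) (by norm_num) (by norm_num) (by norm_num) (by norm_num) (by norm_num) (by norm_num) (by norm_num) (by norm_num) (by norm_num) (by norm_num) (by norm_num) (by norm_num) (by norm_num) (by norm_num) (by norm_num) (by norm_num) (by norm_num) (by norm_num)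
    (cube_sqrt_geJ (s := 0.7858) (by norm_num) (by norm_num) (by norm_num) (by norm_num))
    (cube_sqrt_geJ (s := 0.9271) (by norm_num) (by norm_num) (by norm_num) (by norm_num))
    (by norm_num) (by norm_num) (by norm_num) (by norm_num) (by norm_num) (by norm_num) (by norm_num) (by norm_num) (by norm_num) (by norm_num) (by norm_num) (by norm_num) (by norm_num) (by norm_num) (by norm_num) (by norm_num) (by norm_num) (by norm_num)
    (exp_neg_leJ (r := 0.571) 11 (by norm_num) (by norm_num) (by norm_num) (by norm_num))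
    (exp_neg_leJ (r := 0.147) 7 (by norm_num) (by norm_num) (by norm_num) (by norm_num))
    (exp_neg_leJ (r := 0.268) 14 (by norm_num) (by norm_num) (by norm_num) (by norm_num))
    (exp_neg_leJ (r := 0.99) 14 (by norm_num) (by norm_num) (by norm_num) (by norm_num))
    (exp_neg_leJ (r := 0.19) 13 (by norm_num) (by norm_num) (by norm_num) (by norm_num))
    (exp_neg_leJ (r := 0.99) 14 (by norm_num) (by norm_num) (by norm_num) (by norm_num))
    (exp_neg_leJ (r := 0.99) 14 (by norm_num) (by norm_num) (by norm_num) (by norm_num))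
    (exp_neg_leJ (r := 0.99) 14 (by norm_num) (by norm_num) (by norm_num) (by norm_num))
    (by norm_num)) (by norm_num) hN hβ.le (by norm_num)

private theorem JB8_k0_b14_2 {β x y : ℝ} (hβ : 0 < β) (hN : β * 17.639 ≤ 1) (hx1 : 1.126 ≤ x) (hx2 : x ≤ 1.3856)
    (hy1 : -0.339 ≤ y) (hy2 : y ≤ -0.224) : ‖HH β (x + y * I) - 1‖ ≤ 0.07 := by
  refine le_epsJ (C := 1.23) (N0 := 17.639) (J_boxp 1.126 1.3856 0.339 0 (-0.224) 1.2622 1.4265 1.5882 0.8888 0.5028 4.1999 17.639 1.1302 5.233 1.685 0.5742 0.631 0.3933 0.8586 2.2279 0.7167 2.059 2.9011 3.0864 0.00001467 0.0009739 0.0000003101 0.0000003101 0.000003239 0.0000003101 0.0000003101 0.0000003101 1.23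
    hβ hN hx1 hx2 hy1 hy2 (by norm_num) (by norm_num) (by linarith) (by norm_num) (by norm_num) (by norm_num) (by norm_num) (by norm_num) (by norm_num) (by norm_num) (by norm_num) (by norm_num) (by norm_num) (by norm_num) (by norm_num) (by norm_num) (by norm_num) (by norm_num) (by norm_num) (by norm_num) (by norm_num) (by norm_num) (by norm_num) (by norm_num)
    (cube_sqrt_geJ (s := 0.7894) (by norm_num) (by norm_num) (by norm_num) (by norm_num))
    (cube_sqrt_geJ (s := 0.9282) (by norm_num) (by norm_num) (by norm_num) (by norm_num))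
    (by norm_num) (by norm_num) (by norm_num) (by norm_num) (by norm_num) (by norm_num) (by norm_num) (by norm_num) (by norm_num) (by norm_num) (by norm_num) (by norm_num) (by norm_num) (by norm_num) (by norm_num) (by norm_num) (by norm_num) (by norm_num)
    (exp_neg_leJ (r := 0.13) 11 (by norm_num) (by norm_num) (by norm_num) (by norm_num))
    (exp_neg_leJ (r := 0.937) 6 (by norm_num) (by norm_num) (by norm_num) (by norm_num))
    (exp_neg_leJ (r := 0.99) 14 (by norm_num) (by norm_num) (by norm_num) (by norm_num))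
    (exp_neg_leJ (r := 0.99) 14 (by norm_num) (by norm_num) (by norm_num) (by norm_num))
    (exp_neg_leJ (r := 0.641) 12 (by norm_num) (by norm_num) (by norm_num) (by norm_num))
    (exp_neg_leJ (r := 0.99) 14 (by norm_num) (by norm_num) (by norm_num) (by norm_num))
    (exp_neg_leJ (r := 0.99) 14 (by norm_num) (by norm_num) (by norm_num) (by norm_num))
    (exp_neg_leJ (r := 0.99) 14 (by norm_num) (by norm_num) (by norm_num) (by norm_num))
    (by norm_num)) (by norm_num) hN hβ.le (by norm_num)

private theorem JB8_k0_b14_3 {β x y : ℝ} (hβ : 0 < β) (hN : β * 17.639 ≤ 1) (hx1 : 0.8937 ≤ x) (hx2 : x ≤ 1.2511)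
    (hy1 : -0.224 ≤ y) (hy2 : y ≤ 0.02) : ‖HH β (x + y * I) - 1‖ ≤ 0.07 := by
  refine le_epsJ (C := 1.191) (N0 := 17.639) (J_boxp 0.8937 1.2511 0.224 0.02 0.02 1.1802 1.271 1.6143 0.991 0.5069 4.1999 17.639 1.077 4.743 1.641 0.7321 0.59 0.3782 0.9606 2.6723 0.6647 1.7353 2.6634 2.9502 0.00003023 0.001268 0.0000003101 0.0000003101 0.000008105 0.0000003101 0.0000003101 0.0000003101 1.191
    hβ hN hx1 hx2 hy1 hy2 (by norm_num) (by norm_num) (by linarith) (by norm_num) (by norm_num) (by norm_num) (by norm_num) (by norm_num) (by norm_num) (by norm_num) (by norm_num) (by norm_num) (by norm_num) (by norm_num) (by norm_num) (by norm_num) (by norm_num) (by norm_num) (by norm_num) (by norm_num) (by norm_num) (by norm_num) (by norm_num) (by norm_num)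
    (cube_sqrt_geJ (s := 0.8006) (by norm_num) (by norm_num) (by norm_num) (by norm_num))
    (cube_sqrt_geJ (s := 0.9317) (by norm_num) (by norm_num) (by norm_num) (by norm_num))
    (by norm_num) (by norm_num) (by norm_num) (by norm_num) (by norm_num) (by norm_num) (by norm_num) (by norm_num) (by norm_num) (by norm_num) (by norm_num) (by norm_num) (by norm_num) (by norm_num) (by norm_num) (by norm_num) (by norm_num) (by norm_num)
    (exp_neg_leJ (r := 0.407) 10 (by norm_num) (by norm_num) (by norm_num) (by norm_num))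
    (exp_neg_leJ (r := 0.671) 6 (by norm_num) (by norm_num) (by norm_num) (by norm_num))
    (exp_neg_leJ (r := 0.99) 14 (by norm_num) (by norm_num) (by norm_num) (by norm_num))
    (exp_neg_leJ (r := 0.99) 14 (by norm_num) (by norm_num) (by norm_num) (by norm_num))
    (exp_neg_leJ (r := 0.724) 11 (by norm_num) (by norm_num) (by norm_num) (by norm_num))
    (exp_neg_leJ (r := 0.99) 14 (by norm_num) (by norm_num) (by norm_num) (by norm_num))
    (exp_neg_leJ (r := 0.99) 14 (by norm_num) (by norm_num) (by norm_num) (by norm_num))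
    (exp_neg_leJ (r := 0.99) 14 (by norm_num) (by norm_num) (by norm_num) (by norm_num))
    (by norm_num)) (by norm_num) hN hβ.le (by norm_num)

theorem JB8_k0_c14 {κ t β : ℝ} (h : DomR κ t) (hβ : 0 < β) (hk1 : 0.94 ≤ κ) (hk2 : κ ≤ 1)
    (ht1 : -0.7465 ≤ t + κ) (ht2 : t + κ ≤ 0.04) (hR0 : β * 10 ≤ κ) (hR : β * (8.82 * (1 + κ ^ 2)) ≤ κ) :
    ‖HH β (sg κ t) - 1‖ ≤ 0.07 := by
  have hN : β * 17.639 ≤ 1 := bNC hβ h.1 hk2 (by norm_num) (by norm_num) hR (by norm_num)
  have hy1 : -0.434 ≤ sy κ t := syL_ge h 0.94 1 0.7465 0.434 0.64791 0.64792 0.2841 0.28119 0.29915 hk1 hk2 (by linarith) (by norm_num) (by norm_num) (by norm_num)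
    (expm_ge (by norm_num) (by norm_num) (by norm_num) (by norm_num)) (expm_le (by norm_num) (by norm_num) (by norm_num)) (by norm_num)
    (by norm_num) (by norm_num) (by norm_num) (by norm_num) (by norm_num) (by norm_num)
  have hy2 : sy κ t ≤ 0.02 := syR_le h 0.94 1 0.04 0.02 1.0202 0.02 0.0204 0.02171 hk1 hk2 (by linarith) (by norm_num) (by norm_num)
    (expn_ge (by norm_num) (by norm_num)) (by norm_num) (by norm_num) (Or.inr ((mul_le_mul_of_nonneg_left (expn_le (E := 1.02021) (by norm_num) (by norm_num) (by norm_num)) (by norm_num)).trans (by norm_num))) (by norm_num) (by norm_num) (by norm_num)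
  rcases le_total (sy κ t) (-0.399) with f0 | g0
  · have hx1 : 1.3319 ≤ sx κ t := sx_lo h 0.94 (-0.399) 0.434 1.49033 1.3319 hk1 (by norm_num) f0 (abs_le.2 ⟨by linarith, by linarith⟩) (by rw [neg_neg]; exact expn_ge (by norm_num) (by norm_num)) (by norm_num) (by norm_num)
    have hx2 : sx κ t ≤ 1.491 := sx_hi h 1 (-0.434) 0.399 1.54342 1.491 hk2 hy1 (by norm_num) (by rw [abs_of_nonpos (by linarith)]; linarith) (by rw [neg_neg]; exact expn_le (by norm_num) (by norm_num) (by norm_num)) (by norm_num) (by norm_num)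
    exact JB8_k0_b14_0 hβ hN hx1 hx2 (by linarith) (by linarith)
  rcases le_total (sy κ t) (-0.339) with f1 | g1
  · have hx1 : 1.2575 ≤ sx κ t := sx_lo h 0.94 (-0.339) 0.399 1.40354 1.2575 hk1 (by norm_num) f1 (abs_le.2 ⟨by linarith, by linarith⟩) (by rw [neg_neg]; exact expn_ge (by norm_num) (by norm_num)) (by norm_num) (by norm_num)
    have hx2 : sx κ t ≤ 1.4513 := sx_hi h 1 (-0.399) 0.339 1.49034 1.4513 hk2 g0 (by norm_num) (by rw [abs_of_nonpos (by linarith)]; linarith) (by rw [neg_neg]; exact expn_le (by norm_num) (by norm_num) (by norm_num)) (by norm_num) (by norm_num)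
    exact JB8_k0_b14_1 hβ hN hx1 hx2 (by linarith) (by linarith)
  rcases le_total (sy κ t) (-0.224) with f2 | g2
  · have hx1 : 1.126 ≤ sx κ t := sx_lo h 0.94 (-0.224) 0.339 1.25107 1.126 hk1 (by norm_num) f2 (abs_le.2 ⟨by linarith, by linarith⟩) (by rw [neg_neg]; exact expn_ge (by norm_num) (by norm_num)) (by norm_num) (by norm_num)
    have hx2 : sx κ t ≤ 1.3856 := sx_hi h 1 (-0.339) 0.224 1.40355 1.3856 hk2 g1 (by norm_num) (by rw [abs_of_nonpos (by linarith)]; linarith) (by rw [neg_neg]; exact expn_le (by norm_num) (by norm_num) (by norm_num)) (by norm_num) (by norm_num)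
    exact JB8_k0_b14_2 hβ hN hx1 hx2 (by linarith) (by linarith)
  have hx1 : 0.8937 ≤ sx κ t := sx_lo h 0.94 0.02 0.224 0.98019 0.8937 hk1 (by norm_num) hy2 (abs_le.2 ⟨by linarith, by linarith⟩) (expm_ge (by norm_num) (by norm_num) (by norm_num) (by norm_num)) (by norm_num) (by norm_num)
  have hx2 : sx κ t ≤ 1.2511 := sx_hi h 1 (-0.224) 0 1.25108 1.2511 hk2 g2 (by norm_num) (abs_nonneg _) (by rw [neg_neg]; exact expn_le (by norm_num) (by norm_num) (by norm_num)) (by norm_num) (by norm_num)
  exact JB8_k0_b14_3 hβ hN hx1 hx2 (by linarith) (by linarith)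
end Sok
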