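import Pool.Agent.Lib.MP_816dec_an.JBG2

/-!
MP_816dec_an (A3, row R1): tables b = 8, real points.
-/

set_option autoImplicit false
set_option maxHeartbeats 4000000

open Complex Set

namespace Sok

private theorem JB8_k0_b15_0 {β x y : ℝ} (hβ : 0 < β) (hN : β * 17.639 ≤ 1) (hx1 : 1.443 ≤ x) (hx2 : x ≤ 1.6289)
    (hy1 : -0.423 ≤ y) (hy2 : y ≤ -0.408) : ‖HH β (x + y * I) - 1‖ ≤ 0.07 := by
  refine le_epsJ (C := 1.2196) (N0 := 17.639) (J_boxp 1.443 1.6289 0.423 0 (-0.408) 1.4257 1.683 1.7332 0.7734 0.5253 4.1999 17.639 1.1805 5.757 1.728 0.4031 0.7128 0.4323 0.8345 1.8201 0.8248 2.4979 3.3068 3.0232 0.000003466 0.0004884 0.0000004056 0.0000003101 0.0000004809 0.0000003101 0.0000003101 0.0000003101 1.2196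
    hβ hN hx1 hx2 hy1 hy2 (by norm_num) (by norm_num) (by linarith) (by norm_num) (by norm_num) (by norm_num) (by norm_num) (by norm_num) (by norm_num) (by norm_num) (by norm_num) (by norm_num) (by norm_num) (by norm_num) (by norm_num) (by norm_num) (by norm_num) (by norm_num) (by norm_num) (by norm_num) (by norm_num) (by norm_num) (by norm_num) (by norm_num)
    (cube_sqrt_geJ (s := 0.7787) (by norm_num) (by norm_num) (by norm_num) (by norm_num))
    (cube_sqrt_geJ (s := 0.9249) (by norm_num) (by norm_num) (by norm_num) (by norm_num))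
    (by norm_num) (by norm_num) (by norm_num) (by norm_num) (by norm_num) (by norm_num) (by norm_num) (by norm_num) (by norm_num) (by norm_num) (by norm_num) (by norm_num) (by norm_num) (by norm_num) (by norm_num) (by norm_num) (by norm_num) (by norm_num)
    (exp_neg_leJ (r := 0.573) 12 (by norm_num) (by norm_num) (by norm_num) (by norm_num))
    (exp_neg_leJ (r := 0.625) 7 (by norm_num) (by norm_num) (by norm_num) (by norm_num))
    (exp_neg_leJ (r := 0.719) 14 (by norm_num) (by norm_num) (by norm_num) (by norm_num))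
    (exp_neg_leJ (r := 0.99) 14 (by norm_num) (by norm_num) (by norm_num) (by norm_num))
    (exp_neg_leJ (r := 0.548) 14 (by norm_num) (by norm_num) (by norm_num) (by norm_num))
    (exp_neg_leJ (r := 0.99) 14 (by norm_num) (by norm_num) (by norm_num) (by norm_num))
    (exp_neg_leJ (r := 0.99) 14 (by norm_num) (by norm_num) (by norm_num) (by norm_num))
    (exp_neg_leJ (r := 0.99) 14 (by norm_num) (by norm_num) (by norm_num) (by norm_num))
    (by norm_num)) (by norm_num) hN hβ.le (by norm_num)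

private theorem JB8_k0_b15_1 {β x y : ℝ} (hβ : 0 < β) (hN : β * 17.639 ≤ 1) (hx1 : 1.4087 ≤ x) (hx2 : x ≤ 1.6093)
    (hy1 : -0.408 ≤ y) (hy2 : y ≤ -0.383) : ‖HH β (x + y * I) - 1‖ ≤ 0.07 := by
  refine le_epsJ (C := 1.2177) (N0 := 17.639) (J_boxp 1.4087 1.6093 0.408 0 (-0.383) 1.4122 1.6603 1.7236 0.7824 0.5238 4.1999 17.639 1.1757 5.703 1.723 0.4245 0.706 0.4293 0.8464 1.8793 0.8163 2.4505 3.279 3.0163 0.000003907 0.0005149 0.0000003293 0.0000003101 0.0000005586 0.0000003101 0.0000003101 0.0000003101 1.2177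
    hβ hN hx1 hx2 hy1 hy2 (by norm_num) (by norm_num) (by linarith) (by norm_num) (by norm_num) (by norm_num) (by norm_num) (by norm_num) (by norm_num) (by norm_num) (by norm_num) (by norm_num) (by norm_num) (by norm_num) (by norm_num) (by norm_num) (by norm_num) (by norm_num) (by norm_num) (by norm_num) (by norm_num) (by norm_num) (by norm_num) (by norm_num)
    (cube_sqrt_geJ (s := 0.7798) (by norm_num) (by norm_num) (by norm_num) (by norm_num))
    (cube_sqrt_geJ (s := 0.9252) (by norm_num) (by norm_num) (by norm_num) (by norm_num))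
    (by norm_num) (by norm_num) (by norm_num) (by norm_num) (by norm_num) (by norm_num) (by norm_num) (by norm_num) (by norm_num) (by norm_num) (by norm_num) (by norm_num) (by norm_num) (by norm_num) (by norm_num) (by norm_num) (by norm_num) (by norm_num)
    (exp_neg_leJ (r := 0.453) 12 (by norm_num) (by norm_num) (by norm_num) (by norm_num))
    (exp_neg_leJ (r := 0.572) 7 (by norm_num) (by norm_num) (by norm_num) (by norm_num))
    (exp_neg_leJ (r := 0.929) 14 (by norm_num) (by norm_num) (by norm_num) (by norm_num))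
    (exp_neg_leJ (r := 0.99) 14 (by norm_num) (by norm_num) (by norm_num) (by norm_num))
    (exp_neg_leJ (r := 0.398) 14 (by norm_num) (by norm_num) (by norm_num) (by norm_num))
    (exp_neg_leJ (r := 0.99) 14 (by norm_num) (by norm_num) (by norm_num) (by norm_num))
    (exp_neg_leJ (r := 0.99) 14 (by norm_num) (by norm_num) (by norm_num) (by norm_num))
    (exp_neg_leJ (r := 0.99) 14 (by norm_num) (by norm_num) (by norm_num) (by norm_num))
    (by norm_num)) (by norm_num) hN hβ.le (by norm_num)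

private theorem JB8_k0_b15_2 {β x y : ℝ} (hβ : 0 < β) (hN : β * 17.639 ≤ 1) (hx1 : 1.3488 ≤ x) (hx2 : x ≤ 1.5776)
    (hy1 : -0.383 ≤ y) (hy2 : y ≤ -0.338) : ‖HH β (x + y * I) - 1‖ ≤ 0.07 := by
  refine le_epsJ (C := 1.2268) (N0 := 17.639) (J_boxp 1.3488 1.5776 0.383 0 (-0.338) 1.3878 1.6235 1.7109 0.8001 0.5219 4.1999 17.639 1.1699 5.641 1.718 0.4598 0.6938 0.4233 0.8654 1.9775 0.8009 2.3675 3.2271 2.9965 0.000004848 0.0005723 0.0000003101 0.0000003101 0.0000007324 0.0000003101 0.0000003101 0.0000003101 1.2268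
    hβ hN hx1 hx2 hy1 hy2 (by norm_num) (by norm_num) (by linarith) (by norm_num) (by norm_num) (by norm_num) (by norm_num) (by norm_num) (by norm_num) (by norm_num) (by norm_num) (by norm_num) (by norm_num) (by norm_num) (by norm_num) (by norm_num) (by norm_num) (by norm_num) (by norm_num) (by norm_num) (by norm_num) (by norm_num) (by norm_num) (by norm_num)
    (cube_sqrt_geJ (s := 0.781) (by norm_num) (by norm_num) (by norm_num) (by norm_num))
    (cube_sqrt_geJ (s := 0.9256) (by norm_num) (by norm_num) (by norm_num) (by norm_num))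
    (by norm_num) (by norm_num) (by norm_num) (by norm_num) (by norm_num) (by norm_num) (by norm_num) (by norm_num) (by norm_num) (by norm_num) (by norm_num) (by norm_num) (by norm_num) (by norm_num) (by norm_num) (by norm_num) (by norm_num) (by norm_num)
    (exp_neg_leJ (r := 0.237) 12 (by norm_num) (by norm_num) (by norm_num) (by norm_num))
    (exp_neg_leJ (r := 0.466) 7 (by norm_num) (by norm_num) (by norm_num) (by norm_num))
    (exp_neg_leJ (r := 0.99) 14 (by norm_num) (by norm_num) (by norm_num) (by norm_num))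
    (exp_neg_leJ (r := 0.99) 14 (by norm_num) (by norm_num) (by norm_num) (by norm_num))
    (exp_neg_leJ (r := 0.127) 14 (by norm_num) (by norm_num) (by norm_num) (by norm_num))
    (exp_neg_leJ (r := 0.99) 14 (by norm_num) (by norm_num) (by norm_num) (by norm_num))
    (exp_neg_leJ (r := 0.99) 14 (by norm_num) (by norm_num) (by norm_num) (by norm_num))
    (exp_neg_leJ (r := 0.99) 14 (by norm_num) (by norm_num) (by norm_num) (by norm_num))
    (by norm_num)) (by norm_num) hN hβ.le (by norm_num)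

private theorem JB8_k0_b15_3 {β x y : ℝ} (hβ : 0 < β) (hN : β * 17.639 ≤ 1) (hx1 : 1.2494 ≤ x) (hx2 : x ≤ 1.5207)
    (hy1 : -0.338 ≤ y) (hy2 : y ≤ -0.258) : ‖HH β (x + y * I) - 1‖ ≤ 0.07 := by
  refine le_epsJ (C := 1.2198) (N0 := 17.639) (J_boxp 1.2494 1.5207 0.338 0 (-0.258) 1.3498 1.5579 1.6921 0.8295 0.519 4.1999 17.639 1.1542 5.475 1.705 0.5232 0.6748 0.4152 0.9024 2.154 0.7772 2.2299 3.1507 2.976 0.000006793 0.0006603 0.0000003101 0.0000003101 0.000001114 0.0000003101 0.0000003101 0.0000003101 1.2198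
    hβ hN hx1 hx2 hy1 hy2 (by norm_num) (by norm_num) (by linarith) (by norm_num) (by norm_num) (by norm_num) (by norm_num) (by norm_num) (by norm_num) (by norm_num) (by norm_num) (by norm_num) (by norm_num) (by norm_num) (by norm_num) (by norm_num) (by norm_num) (by norm_num) (by norm_num) (by norm_num) (by norm_num) (by norm_num) (by norm_num) (by norm_num)
    (cube_sqrt_geJ (s := 0.7843) (by norm_num) (by norm_num) (by norm_num) (by norm_num))
    (cube_sqrt_geJ (s := 0.9266) (by norm_num) (by norm_num) (by norm_num) (by norm_num))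
    (by norm_num) (by norm_num) (by norm_num) (by norm_num) (by norm_num) (by norm_num) (by norm_num) (by norm_num) (by norm_num) (by norm_num) (by norm_num) (by norm_num) (by norm_num) (by norm_num) (by norm_num) (by norm_num) (by norm_num) (by norm_num)
    (exp_neg_leJ (r := 0.902) 11 (by norm_num) (by norm_num) (by norm_num) (by norm_num))
    (exp_neg_leJ (r := 0.323) 7 (by norm_num) (by norm_num) (by norm_num) (by norm_num))
    (exp_neg_leJ (r := 0.99) 14 (by norm_num) (by norm_num) (by norm_num) (by norm_num))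
    (exp_neg_leJ (r := 0.99) 14 (by norm_num) (by norm_num) (by norm_num) (by norm_num))
    (exp_neg_leJ (r := 0.709) 13 (by norm_num) (by norm_num) (by norm_num) (by norm_num))
    (exp_neg_leJ (r := 0.99) 14 (by norm_num) (by norm_num) (by norm_num) (by norm_num))
    (exp_neg_leJ (r := 0.99) 14 (by norm_num) (by norm_num) (by norm_num) (by norm_num))
    (exp_neg_leJ (r := 0.99) 14 (by norm_num) (by norm_num) (by norm_num) (by norm_num))
    (by norm_num)) (by norm_num) hN hβ.le (by norm_num)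

private theorem JB8_k0_b15_4 {β x y : ℝ} (hβ : 0 < β) (hN : β * 17.639 ≤ 1) (hx1 : 1.0723 ≤ x) (hx2 : x ≤ 1.4204)
    (hy1 : -0.258 ≤ y) (hy2 : y ≤ -0.098) : ‖HH β (x + y * I) - 1‖ ≤ 0.07 := by
  refine le_epsJ (C := 1.2213) (N0 := 17.639) (J_boxp 1.0723 1.4204 0.258 0 (-0.098) 1.2819 1.4437 1.6826 0.8938 0.5175 4.1999 17.639 1.1263 5.195 1.682 0.6356 0.6409 0.4003 0.968 2.4668 0.7349 1.9847 3.0139 2.9322 0.00001233 0.0008588 0.0000003101 0.0000003101 0.000002356 0.0000003101 0.0000003101 0.0000003101 1.2213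
    hβ hN hx1 hx2 hy1 hy2 (by norm_num) (by norm_num) (by linarith) (by norm_num) (by norm_num) (by norm_num) (by norm_num) (by norm_num) (by norm_num) (by norm_num) (by norm_num) (by norm_num) (by norm_num) (by norm_num) (by norm_num) (by norm_num) (by norm_num) (by norm_num) (by norm_num) (by norm_num) (by norm_num) (by norm_num) (by norm_num) (by norm_num)
    (cube_sqrt_geJ (s := 0.7902) (by norm_num) (by norm_num) (by norm_num) (by norm_num))
    (cube_sqrt_geJ (s := 0.9284) (by norm_num) (by norm_num) (by norm_num) (by norm_num))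
    (by norm_num) (by norm_num) (by norm_num) (by norm_num) (by norm_num) (by norm_num) (by norm_num) (by norm_num) (by norm_num) (by norm_num) (by norm_num) (by norm_num) (by norm_num) (by norm_num) (by norm_num) (by norm_num) (by norm_num) (by norm_num)
    (exp_neg_leJ (r := 0.304) 11 (by norm_num) (by norm_num) (by norm_num) (by norm_num))
    (exp_neg_leJ (r := 0.06) 7 (by norm_num) (by norm_num) (by norm_num) (by norm_num))
    (exp_neg_leJ (r := 0.99) 14 (by norm_num) (by norm_num) (by norm_num) (by norm_num))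
    (exp_neg_leJ (r := 0.99) 14 (by norm_num) (by norm_num) (by norm_num) (by norm_num))
    (exp_neg_leJ (r := 0.962) 12 (by norm_num) (by norm_num) (by norm_num) (by norm_num))
    (exp_neg_leJ (r := 0.99) 14 (by norm_num) (by norm_num) (by norm_num) (by norm_num))
    (exp_neg_leJ (r := 0.99) 14 (by norm_num) (by norm_num) (by norm_num) (by norm_num))
    (exp_neg_leJ (r := 0.99) 14 (by norm_num) (by norm_num) (by norm_num) (by norm_num))
    (by norm_num)) (by norm_num) hN hβ.le (by norm_num)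

private theorem JB8_k0_b15_5 {β x y : ℝ} (hβ : 0 < β) (hN : β * 17.639 ≤ 1) (hx1 : 0.9752 ≤ x) (hx2 : x ≤ 1.2133)
    (hy1 : -0.098 ≤ y) (hy2 : y ≤ 0.02) : ‖HH β (x + y * I) - 1‖ ≤ 0.07 := by
  refine le_epsJ (C := 0.6201) (N0 := 17.639) (J_boxp 0.9752 1.2133 0.098 0.02 0.02 1.3271 1.2173 1.5851 0.8236 0.5023 4.1999 17.639 0.9173 3.588 1.518 0.863 0.6635 0.4606 1.1874 3.0939 0.7731 1.8482 3.1689 3.2592 0.000008276 0.0002964 0.0000003101 0.0000003101 0.000001198 0.0000003101 0.0000003101 0.0000003101 0.6201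
    hβ hN hx1 hx2 hy1 hy2 (by norm_num) (by norm_num) (by linarith) (by norm_num) (by norm_num) (by norm_num) (by norm_num) (by norm_num) (by norm_num) (by norm_num) (by norm_num) (by norm_num) (by norm_num) (by norm_num) (by norm_num) (by norm_num) (by norm_num) (by norm_num) (by norm_num) (by norm_num) (by norm_num) (by norm_num) (by norm_num) (by norm_num)
    (cube_sqrt_geJ (s := 0.8332) (by norm_num) (by norm_num) (by norm_num) (by norm_num))
    (cube_sqrt_geJ (s := 0.9421) (by norm_num) (by norm_num) (by norm_num) (by norm_num))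
    (by norm_num) (by norm_num) (by norm_num) (by norm_num) (by norm_num) (by norm_num) (by norm_num) (by norm_num) (by norm_num) (by norm_num) (by norm_num) (by norm_num) (by norm_num) (by norm_num) (by norm_num) (by norm_num) (by norm_num) (by norm_num)
    (exp_neg_leJ (r := 0.703) 11 (by norm_num) (by norm_num) (by norm_num) (by norm_num))
    (exp_neg_leJ (r := 0.124) 8 (by norm_num) (by norm_num) (by norm_num) (by norm_num))
    (exp_neg_leJ (r := 0.99) 14 (by norm_num) (by norm_num) (by norm_num) (by norm_num))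
    (exp_neg_leJ (r := 0.99) 14 (by norm_num) (by norm_num) (by norm_num) (by norm_num))
    (exp_neg_leJ (r := 0.636) 13 (by norm_num) (by norm_num) (by norm_num) (by norm_num))
    (exp_neg_leJ (r := 0.99) 14 (by norm_num) (by norm_num) (by norm_num) (by norm_num))
    (exp_neg_leJ (r := 0.99) 14 (by norm_num) (by norm_num) (by norm_num) (by norm_num))
    (exp_neg_leJ (r := 0.99) 14 (by norm_num) (by norm_num) (by norm_num) (by norm_num))
    (by norm_num)) (by norm_num) hN hβ.le (by norm_num)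

theorem JB8_k0_c15 {κ t β : ℝ} (h : DomR κ t) (hβ : 0 < β) (hk1 : 1 ≤ κ) (hk2 : κ ≤ 1.1)
    (ht1 : -0.7465 ≤ t + κ) (ht2 : t + κ ≤ 0.04) (hR0 : β * 10 ≤ κ) (hR : β * (8.82 * (1 + κ ^ 2)) ≤ κ) :
    ‖HH β (sg κ t) - 1‖ ≤ 0.07 := by
  have hN : β * 17.639 ≤ 1 := bNC' hβ hk1 (by norm_num) (by norm_num) hR (by norm_num)
  have hy1 : -0.423 ≤ sy κ t := syL_ge h 1 1.1 0.7465 0.423 0.65507 0.65508 0.2686 0.2519 0.2771 hk1 hk2 (by linarith) (by norm_num) (by norm_num) (by norm_num)
    (expm_ge (by norm_num) (by norm_num) (by norm_num) (by norm_num)) (expm_le (by norm_num) (by norm_num) (by norm_num)) (by norm_num)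
    (by norm_num) (by norm_num) (by norm_num) (by norm_num) (by norm_num) (by norm_num)
  have hy2 : sy κ t ≤ 0.02 := syR_le h 1 1.1 0.04 0.02 1.0202 0.018 0.01854 0.02041 hk1 hk2 (by linarith) (by norm_num) (by norm_num)
    (expn_ge (by norm_num) (by norm_num)) (by norm_num) (by norm_num) (Or.inr ((mul_le_mul_of_nonneg_left (expn_le (E := 1.02021) (by norm_num) (by norm_num) (by norm_num)) (by norm_num)).trans (by norm_num))) (by norm_num) (by norm_num) (by norm_num)
  rcases le_total (sy κ t) (-0.408) with f0 | g0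
  · have hx1 : 1.443 ≤ sx κ t := sx_lo h 1 (-0.408) 0.423 1.5038 1.443 hk1 (by norm_num) f0 (abs_le.2 ⟨by linarith, by linarith⟩) (by rw [neg_neg]; exact expn_ge (by norm_num) (by norm_num)) (by norm_num) (by norm_num)
    have hx2 : sx κ t ≤ 1.6289 := sx_hi h 1.1 (-0.423) 0.408 1.52654 1.6289 hk2 hy1 (by norm_num) (by rw [abs_of_nonpos (by linarith)]; linarith) (by rw [neg_neg]; exact expn_le (by norm_num) (by norm_num) (by norm_num)) (by norm_num) (by norm_num)
    exact JB8_k0_b15_0 hβ hN hx1 hx2 (by linarith) (by linarith)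
  rcases le_total (sy κ t) (-0.383) with f1 | g1
  · have hx1 : 1.4087 ≤ sx κ t := sx_lo h 1 (-0.383) 0.408 1.46667 1.4087 hk1 (by norm_num) f1 (abs_le.2 ⟨by linarith, by linarith⟩) (by rw [neg_neg]; exact expn_ge (by norm_num) (by norm_num)) (by norm_num) (by norm_num)
    have hx2 : sx κ t ≤ 1.6093 := sx_hi h 1.1 (-0.408) 0.383 1.50381 1.6093 hk2 g0 (by norm_num) (by rw [abs_of_nonpos (by linarith)]; linarith) (by rw [neg_neg]; exact expn_le (by norm_num) (by norm_num) (by norm_num)) (by norm_num) (by norm_num)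
    exact JB8_k0_b15_1 hβ hN hx1 hx2 (by linarith) (by linarith)
  rcases le_total (sy κ t) (-0.338) with f2 | g2
  · have hx1 : 1.3488 ≤ sx κ t := sx_lo h 1 (-0.338) 0.383 1.40214 1.3488 hk1 (by norm_num) f2 (abs_le.2 ⟨by linarith, by linarith⟩) (by rw [neg_neg]; exact expn_ge (by norm_num) (by norm_num)) (by norm_num) (by norm_num)
    have hx2 : sx κ t ≤ 1.5776 := sx_hi h 1.1 (-0.383) 0.338 1.46668 1.5776 hk2 g1 (by norm_num) (by rw [abs_of_nonpos (by linarith)]; linarith) (by rw [neg_neg]; exact expn_le (by norm_num) (by norm_num) (by norm_num)) (by norm_num) (by norm_num)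
    exact JB8_k0_b15_2 hβ hN hx1 hx2 (by linarith) (by linarith)
  rcases le_total (sy κ t) (-0.258) with f3 | g3
  · have hx1 : 1.2494 ≤ sx κ t := sx_lo h 1 (-0.258) 0.338 1.29433 1.2494 hk1 (by norm_num) f3 (abs_le.2 ⟨by linarith, by linarith⟩) (by rw [neg_neg]; exact expn_ge (by norm_num) (by norm_num)) (by norm_num) (by norm_num)
    have hx2 : sx κ t ≤ 1.5207 := sx_hi h 1.1 (-0.338) 0.258 1.40215 1.5207 hk2 g2 (by norm_num) (by rw [abs_of_nonpos (by linarith)]; linarith) (by rw [neg_neg]; exact expn_le (by norm_num) (by norm_num) (by norm_num)) (by norm_num) (by norm_num)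
    exact JB8_k0_b15_3 hβ hN hx1 hx2 (by linarith) (by linarith)
  rcases le_total (sy κ t) (-0.098) with f4 | g4
  · have hx1 : 1.0723 ≤ sx κ t := sx_lo h 1 (-0.098) 0.258 1.10296 1.0723 hk1 (by norm_num) f4 (abs_le.2 ⟨by linarith, by linarith⟩) (by rw [neg_neg]; exact expn_ge (by norm_num) (by norm_num)) (by norm_num) (by norm_num)
    have hx2 : sx κ t ≤ 1.4204 := sx_hi h 1.1 (-0.258) 0.098 1.29434 1.4204 hk2 g3 (by norm_num) (by rw [abs_of_nonpos (by linarith)]; linarith) (by rw [neg_neg]; exact expn_le (by norm_num) (by norm_num) (by norm_num)) (by norm_num) (by norm_num)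
    exact JB8_k0_b15_4 hβ hN hx1 hx2 (by linarith) (by linarith)
  have hx1 : 0.9752 ≤ sx κ t := sx_lo h 1 0.02 0.098 0.98019 0.9752 hk1 (by norm_num) hy2 (abs_le.2 ⟨by linarith, by linarith⟩) (expm_ge (by norm_num) (by norm_num) (by norm_num) (by norm_num)) (by norm_num) (by norm_num)
  have hx2 : sx κ t ≤ 1.2133 := sx_hi h 1.1 (-0.098) 0 1.10297 1.2133 hk2 g4 (by norm_num) (abs_nonneg _) (by rw [neg_neg]; exact expn_le (by norm_num) (by norm_num) (by norm_num)) (by norm_num) (by norm_num)
  exact JB8_k0_b15_5 hβ hN hx1 hx2 (by linarith) (by linarith)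

private theorem JB8_k0_b16_0 {β x y : ℝ} (hβ : 0 < β) (hN : β * 17.72 ≤ 1) (hx1 : 1.5748 ≤ x) (hx2 : x ≤ 1.8042)
    (hy1 : -0.406 ≤ y) (hy2 : y ≤ -0.391) : ‖HH β (x + y * I) - 1‖ ≤ 0.07 := by
  refine le_epsJ (C := 1.2374) (N0 := 17.72) (J_boxp 1.5748 1.8042 0.406 0 (-0.391) 1.5306 1.8494 1.9043 0.7288 0.5506 4.2096 17.72 1.2083 6.075 1.752 0.3514 0.7652 0.457 0.9064 1.7745 0.8981 2.6804 3.6166 2.8344 0.000001293 0.0003042 0.0000003101 0.0000003101 0.0000003101 0.0000003101 0.0000003101 0.0000003101 1.2374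
    hβ hN hx1 hx2 hy1 hy2 (by norm_num) (by norm_num) (by linarith) (by norm_num) (by norm_num) (by norm_num) (by norm_num) (by norm_num) (by norm_num) (by norm_num) (by norm_num) (by norm_num) (by norm_num) (by norm_num) (by norm_num) (by norm_num) (by norm_num) (by norm_num) (by norm_num) (by norm_num) (by norm_num) (by norm_num) (by norm_num) (by norm_num)
    (cube_sqrt_geJ (s := 0.7728) (by norm_num) (by norm_num) (by norm_num) (by norm_num))
    (cube_sqrt_geJ (s := 0.923) (by norm_num) (by norm_num) (by norm_num) (by norm_num))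
    (by norm_num) (by norm_num) (by norm_num) (by norm_num) (by norm_num) (by norm_num) (by norm_num) (by norm_num) (by norm_num) (by norm_num) (by norm_num) (by norm_num) (by norm_num) (by norm_num) (by norm_num) (by norm_num) (by norm_num) (by norm_num)
    (exp_neg_leJ (r := 0.559) 13 (by norm_num) (by norm_num) (by norm_num) (by norm_num))
    (exp_neg_leJ (r := 0.098) 8 (by norm_num) (by norm_num) (by norm_num) (by norm_num))
    (exp_neg_leJ (r := 0.99) 14 (by norm_num) (by norm_num) (by norm_num) (by norm_num))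
    (exp_neg_leJ (r := 0.99) 14 (by norm_num) (by norm_num) (by norm_num) (by norm_num))
    (exp_neg_leJ (r := 0.99) 14 (by norm_num) (by norm_num) (by norm_num) (by norm_num))
    (exp_neg_leJ (r := 0.99) 14 (by norm_num) (by norm_num) (by norm_num) (by norm_num))
    (exp_neg_leJ (r := 0.99) 14 (by norm_num) (by norm_num) (by norm_num) (by norm_num))
    (exp_neg_leJ (r := 0.99) 14 (by norm_num) (by norm_num) (by norm_num) (by norm_num))
    (by norm_num)) (by norm_num) hN hβ.le (by norm_num)

private theorem JB8_k0_b16_1 {β x y : ℝ} (hβ : 0 < β) (hN : β * 17.72 ≤ 1) (hx1 : 1.5371 ≤ x) (hx2 : x ≤ 1.7813)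
    (hy1 : -0.391 ≤ y) (hy2 : y ≤ -0.366) : ‖HH β (x + y * I) - 1‖ ≤ 0.07 := by
  refine le_epsJ (C := 1.2382) (N0 := 17.72) (J_boxp 1.5371 1.7813 0.391 0 (-0.366) 1.5147 1.8238 1.8908 0.7377 0.5486 4.2096 17.72 1.2041 6.025 1.748 0.374 0.7573 0.4533 0.9172 1.8355 0.888 2.6282 3.582 2.8286 0.000001487 0.000325 0.0000003101 0.0000003101 0.0000003101 0.0000003101 0.0000003101 0.0000003101 1.2382
    hβ hN hx1 hx2 hy1 hy2 (by norm_num) (by norm_num) (by linarith) (by norm_num) (by norm_num) (by norm_num) (by norm_num) (by norm_num) (by norm_num) (by norm_num) (by norm_num) (by norm_num) (by norm_num) (by norm_num) (by norm_num) (by norm_num) (by norm_num) (by norm_num) (by norm_num) (by norm_num) (by norm_num) (by norm_num) (by norm_num) (by norm_num)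
    (cube_sqrt_geJ (s := 0.7737) (by norm_num) (by norm_num) (by norm_num) (by norm_num))
    (cube_sqrt_geJ (s := 0.9233) (by norm_num) (by norm_num) (by norm_num) (by norm_num))
    (by norm_num) (by norm_num) (by norm_num) (by norm_num) (by norm_num) (by norm_num) (by norm_num) (by norm_num) (by norm_num) (by norm_num) (by norm_num) (by norm_num) (by norm_num) (by norm_num) (by norm_num) (by norm_num) (by norm_num) (by norm_num)
    (exp_neg_leJ (r := 0.419) 13 (by norm_num) (by norm_num) (by norm_num) (by norm_num))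
    (exp_neg_leJ (r := 0.032) 8 (by norm_num) (by norm_num) (by norm_num) (by norm_num))
    (exp_neg_leJ (r := 0.99) 14 (by norm_num) (by norm_num) (by norm_num) (by norm_num))
    (exp_neg_leJ (r := 0.99) 14 (by norm_num) (by norm_num) (by norm_num) (by norm_num))
    (exp_neg_leJ (r := 0.99) 14 (by norm_num) (by norm_num) (by norm_num) (by norm_num))
    (exp_neg_leJ (r := 0.99) 14 (by norm_num) (by norm_num) (by norm_num) (by norm_num))
    (exp_neg_leJ (r := 0.99) 14 (by norm_num) (by norm_num) (by norm_num) (by norm_num))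
    (exp_neg_leJ (r := 0.99) 14 (by norm_num) (by norm_num) (by norm_num) (by norm_num))
    (by norm_num)) (by norm_num) hN hβ.le (by norm_num)

private theorem JB8_k0_b16_2 {β x y : ℝ} (hβ : 0 < β) (hN : β * 17.72 ≤ 1) (hx1 : 1.4793 ≤ x) (hx2 : x ≤ 1.7434)
    (hy1 : -0.366 ≤ y) (hy2 : y ≤ -0.326) : ‖HH β (x + y * I) - 1‖ ≤ 0.07 := by
  refine le_epsJ (C := 1.2259) (N0 := 17.72) (J_boxp 1.4793 1.7434 0.366 0 (-0.326) 1.4918 1.7815 1.8692 0.7504 0.5455 4.2096 17.72 1.1942 5.911 1.739 0.4117 0.7458 0.4489 0.9369 1.9371 0.8736 2.5482 3.5344 2.828 0.000001824 0.0003524 0.0000003101 0.0000003101 0.0000003101 0.0000003101 0.0000003101 0.0000003101 1.2259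
    hβ hN hx1 hx2 hy1 hy2 (by norm_num) (by norm_num) (by linarith) (by norm_num) (by norm_num) (by norm_num) (by norm_num) (by norm_num) (by norm_num) (by norm_num) (by norm_num) (by norm_num) (by norm_num) (by norm_num) (by norm_num) (by norm_num) (by norm_num) (by norm_num) (by norm_num) (by norm_num) (by norm_num) (by norm_num) (by norm_num) (by norm_num)
    (cube_sqrt_geJ (s := 0.7758) (by norm_num) (by norm_num) (by norm_num) (by norm_num))
    (cube_sqrt_geJ (s := 0.924) (by norm_num) (by norm_num) (by norm_num) (by norm_num))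
    (by norm_num) (by norm_num) (by norm_num) (by norm_num) (by norm_num) (by norm_num) (by norm_num) (by norm_num) (by norm_num) (by norm_num) (by norm_num) (by norm_num) (by norm_num) (by norm_num) (by norm_num) (by norm_num) (by norm_num) (by norm_num)
    (exp_neg_leJ (r := 0.215) 13 (by norm_num) (by norm_num) (by norm_num) (by norm_num))
    (exp_neg_leJ (r := 0.954) 7 (by norm_num) (by norm_num) (by norm_num) (by norm_num))
    (exp_neg_leJ (r := 0.99) 14 (by norm_num) (by norm_num) (by norm_num) (by norm_num))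
    (exp_neg_leJ (r := 0.99) 14 (by norm_num) (by norm_num) (by norm_num) (by norm_num))
    (exp_neg_leJ (r := 0.99) 14 (by norm_num) (by norm_num) (by norm_num) (by norm_num))
    (exp_neg_leJ (r := 0.99) 14 (by norm_num) (by norm_num) (by norm_num) (by norm_num))
    (exp_neg_leJ (r := 0.99) 14 (by norm_num) (by norm_num) (by norm_num) (by norm_num))
    (exp_neg_leJ (r := 0.99) 14 (by norm_num) (by norm_num) (by norm_num) (by norm_num))
    (by norm_num)) (by norm_num) hN hβ.le (by norm_num)

private theorem JB8_k0_b16_3 {β x y : ℝ} (hβ : 0 < β) (hN : β * 17.72 ≤ 1) (hx1 : 1.383 ≤ x) (hx2 : x ≤ 1.6848)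
    (hy1 : -0.326 ≤ y) (hy2 : y ≤ -0.256) : ‖HH β (x + y * I) - 1‖ ≤ 0.07 := by
  refine le_epsJ (C := 1.2247) (N0 := 17.72) (J_boxp 1.383 1.6848 0.326 0 (-0.256) 1.4524 1.7161 1.8418 0.7754 0.5415 4.2096 17.72 1.1816 5.769 1.729 0.4711 0.7261 0.4401 0.9671 2.0983 0.8486 2.4149 3.4505 2.8132 0.00000259 0.0004112 0.0000003101 0.0000003101 0.0000003101 0.0000003101 0.0000003101 0.0000003101 1.2247
    hβ hN hx1 hx2 hy1 hy2 (by norm_num) (by norm_num) (by linarith) (by norm_num) (by norm_num) (by norm_num) (by norm_num) (by norm_num) (by norm_num) (by norm_num) (by norm_num) (by norm_num) (by norm_num) (by norm_num) (by norm_num) (by norm_num) (by norm_num) (by norm_num) (by norm_num) (by norm_num) (by norm_num) (by norm_num) (by norm_num) (by norm_num)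
    (cube_sqrt_geJ (s := 0.7785) (by norm_num) (by norm_num) (by norm_num) (by norm_num))
    (cube_sqrt_geJ (s := 0.9248) (by norm_num) (by norm_num) (by norm_num) (by norm_num))
    (by norm_num) (by norm_num) (by norm_num) (by norm_num) (by norm_num) (by norm_num) (by norm_num) (by norm_num) (by norm_num) (by norm_num) (by norm_num) (by norm_num) (by norm_num) (by norm_num) (by norm_num) (by norm_num) (by norm_num) (by norm_num)
    (exp_neg_leJ (r := 0.866) 12 (by norm_num) (by norm_num) (by norm_num) (by norm_num))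
    (exp_neg_leJ (r := 0.798) 7 (by norm_num) (by norm_num) (by norm_num) (by norm_num))
    (exp_neg_leJ (r := 0.99) 14 (by norm_num) (by norm_num) (by norm_num) (by norm_num))
    (exp_neg_leJ (r := 0.99) 14 (by norm_num) (by norm_num) (by norm_num) (by norm_num))
    (exp_neg_leJ (r := 0.99) 14 (by norm_num) (by norm_num) (by norm_num) (by norm_num))
    (exp_neg_leJ (r := 0.99) 14 (by norm_num) (by norm_num) (by norm_num) (by norm_num))
    (exp_neg_leJ (r := 0.99) 14 (by norm_num) (by norm_num) (by norm_num) (by norm_num))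
    (exp_neg_leJ (r := 0.99) 14 (by norm_num) (by norm_num) (by norm_num) (by norm_num))
    (by norm_num)) (by norm_num) hN hβ.le (by norm_num)

private theorem JB8_k0_b16_4 {β x y : ℝ} (hβ : 0 < β) (hN : β * 17.72 ≤ 1) (hx1 : 1.2148 ≤ x) (hx2 : x ≤ 1.5843)
    (hy1 : -0.256 ≤ y) (hy2 : y ≤ -0.121) : ‖HH β (x + y * I) - 1‖ ≤ 0.07 := by
  refine le_epsJ (C := 1.2332) (N0 := 17.72) (J_boxp 1.2148 1.5843 0.256 0 (-0.121) 1.3836 1.6049 1.8119 0.8271 0.5371 4.2096 17.72 1.16 5.535 1.71 0.5744 0.6917 0.4243 1.02 2.379 0.8052 2.182 3.3044 2.7791 0.000004757 0.0005434 0.0000003101 0.0000003101 0.0000006361 0.0000003101 0.0000003101 0.0000003101 1.2332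
    hβ hN hx1 hx2 hy1 hy2 (by norm_num) (by norm_num) (by linarith) (by norm_num) (by norm_num) (by norm_num) (by norm_num) (by norm_num) (by norm_num) (by norm_num) (by norm_num) (by norm_num) (by norm_num) (by norm_num) (by norm_num) (by norm_num) (by norm_num) (by norm_num) (by norm_num) (by norm_num) (by norm_num) (by norm_num) (by norm_num) (by norm_num)
    (cube_sqrt_geJ (s := 0.7831) (by norm_num) (by norm_num) (by norm_num) (by norm_num))
    (cube_sqrt_geJ (s := 0.9262) (by norm_num) (by norm_num) (by norm_num) (by norm_num))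
    (by norm_num) (by norm_num) (by norm_num) (by norm_num) (by norm_num) (by norm_num) (by norm_num) (by norm_num) (by norm_num) (by norm_num) (by norm_num) (by norm_num) (by norm_num) (by norm_num) (by norm_num) (by norm_num) (by norm_num) (by norm_num)
    (exp_neg_leJ (r := 0.256) 12 (by norm_num) (by norm_num) (by norm_num) (by norm_num))
    (exp_neg_leJ (r := 0.518) 7 (by norm_num) (by norm_num) (by norm_num) (by norm_num))
    (exp_neg_leJ (r := 0.99) 14 (by norm_num) (by norm_num) (by norm_num) (by norm_num))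
    (exp_neg_leJ (r := 0.99) 14 (by norm_num) (by norm_num) (by norm_num) (by norm_num))
    (exp_neg_leJ (r := 0.268) 14 (by norm_num) (by norm_num) (by norm_num) (by norm_num))
    (exp_neg_leJ (r := 0.99) 14 (by norm_num) (by norm_num) (by norm_num) (by norm_num))
    (exp_neg_leJ (r := 0.99) 14 (by norm_num) (by norm_num) (by norm_num) (by norm_num))
    (exp_neg_leJ (r := 0.99) 14 (by norm_num) (by norm_num) (by norm_num) (by norm_num))
    (by norm_num)) (by norm_num) hN hβ.le (by norm_num)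

private theorem JB8_k0_b16_5 {β x y : ℝ} (hβ : 0 < β) (hN : β * 17.72 ≤ 1) (hx1 : 1.0713 ≤ x) (hx2 : x ≤ 1.3883)
    (hy1 : -0.121 ≤ y) (hy2 : y ≤ 0.02) : ‖HH β (x + y * I) - 1‖ ≤ 0.07 := by
  refine le_epsJ (C := 0.7955) (N0 := 17.72) (J_boxp 1.0713 1.3883 0.121 0.02 0.02 1.3784 1.3936 1.7228 0.8111 0.5237 4.2096 17.72 1.0111 4.215 1.589 0.7744 0.6891 0.4569 1.184 2.9202 0.8072 1.9812 3.2986 2.9722 0.000004981 0.0003048 0.0000003101 0.0000003101 0.0000006142 0.0000003101 0.0000003101 0.0000003101 0.7955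
    hβ hN hx1 hx2 hy1 hy2 (by norm_num) (by norm_num) (by linarith) (by norm_num) (by norm_num) (by norm_num) (by norm_num) (by norm_num) (by norm_num) (by norm_num) (by norm_num) (by norm_num) (by norm_num) (by norm_num) (by norm_num) (by norm_num) (by norm_num) (by norm_num) (by norm_num) (by norm_num) (by norm_num) (by norm_num) (by norm_num) (by norm_num)
    (cube_sqrt_geJ (s := 0.8142) (by norm_num) (by norm_num) (by norm_num) (by norm_num))
    (cube_sqrt_geJ (s := 0.936) (by norm_num) (by norm_num) (by norm_num) (by norm_num))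
    (by norm_num) (by norm_num) (by norm_num) (by norm_num) (by norm_num) (by norm_num) (by norm_num) (by norm_num) (by norm_num) (by norm_num) (by norm_num) (by norm_num) (by norm_num) (by norm_num) (by norm_num) (by norm_num) (by norm_num) (by norm_num)
    (exp_neg_leJ (r := 0.21) 12 (by norm_num) (by norm_num) (by norm_num) (by norm_num))
    (exp_neg_leJ (r := 0.096) 8 (by norm_num) (by norm_num) (by norm_num) (by norm_num))
    (exp_neg_leJ (r := 0.99) 14 (by norm_num) (by norm_num) (by norm_num) (by norm_num))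
    (exp_neg_leJ (r := 0.99) 14 (by norm_num) (by norm_num) (by norm_num) (by norm_num))
    (exp_neg_leJ (r := 0.303) 14 (by norm_num) (by norm_num) (by norm_num) (by norm_num))
    (exp_neg_leJ (r := 0.99) 14 (by norm_num) (by norm_num) (by norm_num) (by norm_num))
    (exp_neg_leJ (r := 0.99) 14 (by norm_num) (by norm_num) (by norm_num) (by norm_num))
    (exp_neg_leJ (r := 0.99) 14 (by norm_num) (by norm_num) (by norm_num) (by norm_num))
    (by norm_num)) (by norm_num) hN hβ.le (by norm_num)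

theorem JB8_k0_c16 {κ t β : ℝ} (h : DomR κ t) (hβ : 0 < β) (hk1 : 1.1 ≤ κ) (hk2 : κ ≤ 1.23)
    (ht1 : -0.7465 ≤ t + κ) (ht2 : t + κ ≤ 0.04) (hR0 : β * 10 ≤ κ) (hR : β * (8.82 * (1 + κ ^ 2)) ≤ κ) :
    ‖HH β (sg κ t) - 1‖ ≤ 0.07 := by
  have hN : β * 17.72 ≤ 1 := bNC' hβ hk1 (by norm_num) (by norm_num) hR (by norm_num)
  have hy1 : -0.406 ≤ sy κ t := syL_ge h 1.1 1.23 0.7465 0.406 0.66631 0.66632 0.2242 0.21993 0.24594 hk1 hk2 (by linarith) (by norm_num) (by norm_num) (by norm_num)
    (expm_ge (by norm_num) (by norm_num) (by norm_num) (by norm_num)) (expm_le (by norm_num) (by norm_num) (by norm_num)) (by norm_num)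
    (by norm_num) (by norm_num) (by norm_num) (by norm_num) (by norm_num) (by norm_num)
  have hy2 : sy κ t ≤ 0.02 := syR_le h 1.1 1.23 0.04 0.02 1.0202 0.016 0.01658 0.01855 hk1 hk2 (by linarith) (by norm_num) (by norm_num)
    (expn_ge (by norm_num) (by norm_num)) (by norm_num) (by norm_num) (Or.inr ((mul_le_mul_of_nonneg_left (expn_le (E := 1.02021) (by norm_num) (by norm_num) (by norm_num)) (by norm_num)).trans (by norm_num))) (by norm_num) (by norm_num) (by norm_num)
  rcases le_total (sy κ t) (-0.391) with f0 | g0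
  · have hx1 : 1.5748 ≤ sx κ t := sx_lo h 1.1 (-0.391) 0.406 1.47845 1.5748 hk1 (by norm_num) f0 (abs_le.2 ⟨by linarith, by linarith⟩) (by rw [neg_neg]; exact expn_ge (by norm_num) (by norm_num)) (by norm_num) (by norm_num)
    have hx2 : sx κ t ≤ 1.8042 := sx_hi h 1.23 (-0.406) 0.391 1.50081 1.8042 hk2 hy1 (by norm_num) (by rw [abs_of_nonpos (by linarith)]; linarith) (by rw [neg_neg]; exact expn_le (by norm_num) (by norm_num) (by norm_num)) (by norm_num) (by norm_num)
    exact JB8_k0_b16_0 hβ hN hx1 hx2 (by linarith) (by linarith)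
  rcases le_total (sy κ t) (-0.366) with f1 | g1
  · have hx1 : 1.5371 ≤ sx κ t := sx_lo h 1.1 (-0.366) 0.391 1.44195 1.5371 hk1 (by norm_num) f1 (abs_le.2 ⟨by linarith, by linarith⟩) (by rw [neg_neg]; exact expn_ge (by norm_num) (by norm_num)) (by norm_num) (by norm_num)
    have hx2 : sx κ t ≤ 1.7813 := sx_hi h 1.23 (-0.391) 0.366 1.47846 1.7813 hk2 g0 (by norm_num) (by rw [abs_of_nonpos (by linarith)]; linarith) (by rw [neg_neg]; exact expn_le (by norm_num) (by norm_num) (by norm_num)) (by norm_num) (by norm_num)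
    exact JB8_k0_b16_1 hβ hN hx1 hx2 (by linarith) (by linarith)
  rcases le_total (sy κ t) (-0.326) with f2 | g2
  · have hx1 : 1.4793 ≤ sx κ t := sx_lo h 1.1 (-0.326) 0.366 1.38541 1.4793 hk1 (by norm_num) f2 (abs_le.2 ⟨by linarith, by linarith⟩) (by rw [neg_neg]; exact expn_ge (by norm_num) (by norm_num)) (by norm_num) (by norm_num)
    have hx2 : sx κ t ≤ 1.7434 := sx_hi h 1.23 (-0.366) 0.326 1.44196 1.7434 hk2 g1 (by norm_num) (by rw [abs_of_nonpos (by linarith)]; linarith) (by rw [neg_neg]; exact expn_le (by norm_num) (by norm_num) (by norm_num)) (by norm_num) (by norm_num)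
    exact JB8_k0_b16_2 hβ hN hx1 hx2 (by linarith) (by linarith)
  rcases le_total (sy κ t) (-0.256) with f3 | g3
  · have hx1 : 1.383 ≤ sx κ t := sx_lo h 1.1 (-0.256) 0.326 1.29175 1.383 hk1 (by norm_num) f3 (abs_le.2 ⟨by linarith, by linarith⟩) (by rw [neg_neg]; exact expn_ge (by norm_num) (by norm_num)) (by norm_num) (by norm_num)
    have hx2 : sx κ t ≤ 1.6848 := sx_hi h 1.23 (-0.326) 0.256 1.38542 1.6848 hk2 g2 (by norm_num) (by rw [abs_of_nonpos (by linarith)]; linarith) (by rw [neg_neg]; exact expn_le (by norm_num) (by norm_num) (by norm_num)) (by norm_num) (by norm_num)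
    exact JB8_k0_b16_3 hβ hN hx1 hx2 (by linarith) (by linarith)
  rcases le_total (sy κ t) (-0.121) with f4 | g4
  · have hx1 : 1.2148 ≤ sx κ t := sx_lo h 1.1 (-0.121) 0.256 1.12862 1.2148 hk1 (by norm_num) f4 (abs_le.2 ⟨by linarith, by linarith⟩) (by rw [neg_neg]; exact expn_ge (by norm_num) (by norm_num)) (by norm_num) (by norm_num)
    have hx2 : sx κ t ≤ 1.5843 := sx_hi h 1.23 (-0.256) 0.121 1.29176 1.5843 hk2 g3 (by norm_num) (by rw [abs_of_nonpos (by linarith)]; linarith) (by rw [neg_neg]; exact expn_le (by norm_num) (by norm_num) (by norm_num)) (by norm_num) (by norm_num)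
    exact JB8_k0_b16_4 hβ hN hx1 hx2 (by linarith) (by linarith)
  have hx1 : 1.0713 ≤ sx κ t := sx_lo h 1.1 0.02 0.121 0.98019 1.0713 hk1 (by norm_num) hy2 (abs_le.2 ⟨by linarith, by linarith⟩) (expm_ge (by norm_num) (by norm_num) (by norm_num) (by norm_num)) (by norm_num) (by norm_num)
  have hx2 : sx κ t ≤ 1.3883 := sx_hi h 1.23 (-0.121) 0 1.12863 1.3883 hk2 g4 (by norm_num) (abs_nonneg _) (by rw [neg_neg]; exact expn_le (by norm_num) (by norm_num) (by norm_num)) (by norm_num) (by norm_num)
  exact JB8_k0_b16_5 hβ hN hx1 hx2 (by linarith) (by linarith)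

private theorem JB8_k0_b17_0 {β x y : ℝ} (hβ : 0 < β) (hN : β * 18.019 ≤ 1) (hx1 : 1.7279 ≤ x) (hx2 : x ≤ 2.0081)
    (hy1 : -0.384 ≤ y) (hy2 : y ≤ -0.364) : ‖HH β (x + y * I) - 1‖ ≤ 0.07 := by
  refine le_epsJ (C := 1.2488) (N0 := 18.019) (J_boxp 1.7279 2.0081 0.384 0 (-0.364) 1.654 2.0445 2.1065 0.6824 0.5791 4.2449 18.019 1.2361 6.417 1.777 0.2933 0.8269 0.4862 0.9936 1.728 0.9845 2.8924 3.9826 2.6103 0.0000003393 0.0001571 0.0000003101 0.0000003101 0.0000003101 0.0000003101 0.0000003101 0.0000003101 1.2488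
    hβ hN hx1 hx2 hy1 hy2 (by norm_num) (by norm_num) (by linarith) (by norm_num) (by norm_num) (by norm_num) (by norm_num) (by norm_num) (by norm_num) (by norm_num) (by norm_num) (by norm_num) (by norm_num) (by norm_num) (by norm_num) (by norm_num) (by norm_num) (by norm_num) (by norm_num) (by norm_num) (by norm_num) (by norm_num) (by norm_num) (by norm_num)
    (cube_sqrt_geJ (s := 0.7667) (by norm_num) (by norm_num) (by norm_num) (by norm_num))
    (cube_sqrt_geJ (s := 0.9212) (by norm_num) (by norm_num) (by norm_num) (by norm_num))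
    (by norm_num) (by norm_num) (by norm_num) (by norm_num) (by norm_num) (by norm_num) (by norm_num) (by norm_num) (by norm_num) (by norm_num) (by norm_num) (by norm_num) (by norm_num) (by norm_num) (by norm_num) (by norm_num) (by norm_num) (by norm_num)
    (exp_neg_leJ (r := 0.899) 14 (by norm_num) (by norm_num) (by norm_num) (by norm_num))
    (exp_neg_leJ (r := 0.76) 8 (by norm_num) (by norm_num) (by norm_num) (by norm_num))
    (exp_neg_leJ (r := 0.99) 14 (by norm_num) (by norm_num) (by norm_num) (by norm_num))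
    (exp_neg_leJ (r := 0.99) 14 (by norm_num) (by norm_num) (by norm_num) (by norm_num))
    (exp_neg_leJ (r := 0.99) 14 (by norm_num) (by norm_num) (by norm_num) (by norm_num))
    (exp_neg_leJ (r := 0.99) 14 (by norm_num) (by norm_num) (by norm_num) (by norm_num))
    (exp_neg_leJ (r := 0.99) 14 (by norm_num) (by norm_num) (by norm_num) (by norm_num))
    (exp_neg_leJ (r := 0.99) 14 (by norm_num) (by norm_num) (by norm_num) (by norm_num))
    (by norm_num)) (by norm_num) hN hβ.le (by norm_num)

private theorem JB8_k0_b17_1 {β x y : ℝ} (hβ : 0 < β) (hN : β * 18.019 ≤ 1) (hx1 : 1.6787 ≤ x) (hx2 : x ≤ 1.9723)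
    (hy1 : -0.364 ≤ y) (hy2 : y ≤ -0.334) : ‖HH β (x + y * I) - 1‖ ≤ 0.07 := by
  refine le_epsJ (C := 1.2358) (N0 := 18.019) (J_boxp 1.6787 1.9723 0.364 0 (-0.334) 1.6336 2.0057 2.0818 0.6911 0.5757 4.2449 18.019 1.2278 6.313 1.769 0.3255 0.8167 0.4825 1.0083 1.8123 0.9715 2.8243 3.9386 2.6174 0.0000004068 0.0001678 0.0000003101 0.0000003101 0.0000003101 0.0000003101 0.0000003101 0.0000003101 1.2358
    hβ hN hx1 hx2 hy1 hy2 (by norm_num) (by norm_num) (by linarith) (by norm_num) (by norm_num) (by norm_num) (by norm_num) (by norm_num) (by norm_num) (by norm_num) (by norm_num) (by norm_num) (by norm_num) (by norm_num) (by norm_num) (by norm_num) (by norm_num) (by norm_num) (by norm_num) (by norm_num) (by norm_num) (by norm_num) (by norm_num) (by norm_num)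
    (cube_sqrt_geJ (s := 0.7685) (by norm_num) (by norm_num) (by norm_num) (by norm_num))
    (cube_sqrt_geJ (s := 0.9217) (by norm_num) (by norm_num) (by norm_num) (by norm_num))
    (by norm_num) (by norm_num) (by norm_num) (by norm_num) (by norm_num) (by norm_num) (by norm_num) (by norm_num) (by norm_num) (by norm_num) (by norm_num) (by norm_num) (by norm_num) (by norm_num) (by norm_num) (by norm_num) (by norm_num) (by norm_num)
    (exp_neg_leJ (r := 0.716) 14 (by norm_num) (by norm_num) (by norm_num) (by norm_num))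
    (exp_neg_leJ (r := 0.694) 8 (by norm_num) (by norm_num) (by norm_num) (by norm_num))
    (exp_neg_leJ (r := 0.99) 14 (by norm_num) (by norm_num) (by norm_num) (by norm_num))
    (exp_neg_leJ (r := 0.99) 14 (by norm_num) (by norm_num) (by norm_num) (by norm_num))
    (exp_neg_leJ (r := 0.99) 14 (by norm_num) (by norm_num) (by norm_num) (by norm_num))
    (exp_neg_leJ (r := 0.99) 14 (by norm_num) (by norm_num) (by norm_num) (by norm_num))
    (exp_neg_leJ (r := 0.99) 14 (by norm_num) (by norm_num) (by norm_num) (by norm_num))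
    (exp_neg_leJ (r := 0.99) 14 (by norm_num) (by norm_num) (by norm_num) (by norm_num))
    (by norm_num)) (by norm_num) hN hβ.le (by norm_num)

private theorem JB8_k0_b17_2 {β x y : ℝ} (hβ : 0 < β) (hN : β * 18.019 ≤ 1) (hx1 : 1.5911 ≤ x) (hx2 : x ≤ 1.9211)
    (hy1 : -0.334 ≤ y) (hy2 : y ≤ -0.279) : ‖HH β (x + y * I) - 1‖ ≤ 0.07 := by
  refine le_epsJ (C := 1.2613) (N0 := 18.019) (J_boxp 1.5911 1.9211 0.334 0 (-0.279) 1.5932 1.95 2.052 0.7124 0.5715 4.2449 18.019 1.224 6.265 1.766 0.3729 0.7965 0.4715 1.0257 1.9373 0.9453 2.703 3.8449 2.5936 0.0000005849 0.0002046 0.0000003101 0.0000003101 0.0000003101 0.0000003101 0.0000003101 0.0000003101 1.2613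
    hβ hN hx1 hx2 hy1 hy2 (by norm_num) (by norm_num) (by linarith) (by norm_num) (by norm_num) (by norm_num) (by norm_num) (by norm_num) (by norm_num) (by norm_num) (by norm_num) (by norm_num) (by norm_num) (by norm_num) (by norm_num) (by norm_num) (by norm_num) (by norm_num) (by norm_num) (by norm_num) (by norm_num) (by norm_num) (by norm_num) (by norm_num)
    (cube_sqrt_geJ (s := 0.7694) (by norm_num) (by norm_num) (by norm_num) (by norm_num))
    (cube_sqrt_geJ (s := 0.922) (by norm_num) (by norm_num) (by norm_num) (by norm_num))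
    (by norm_num) (by norm_num) (by norm_num) (by norm_num) (by norm_num) (by norm_num) (by norm_num) (by norm_num) (by norm_num) (by norm_num) (by norm_num) (by norm_num) (by norm_num) (by norm_num) (by norm_num) (by norm_num) (by norm_num) (by norm_num)
    (exp_neg_leJ (r := 0.352) 14 (by norm_num) (by norm_num) (by norm_num) (by norm_num))
    (exp_neg_leJ (r := 0.495) 8 (by norm_num) (by norm_num) (by norm_num) (by norm_num))
    (exp_neg_leJ (r := 0.99) 14 (by norm_num) (by norm_num) (by norm_num) (by norm_num))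
    (exp_neg_leJ (r := 0.99) 14 (by norm_num) (by norm_num) (by norm_num) (by norm_num))
    (exp_neg_leJ (r := 0.99) 14 (by norm_num) (by norm_num) (by norm_num) (by norm_num))
    (exp_neg_leJ (r := 0.99) 14 (by norm_num) (by norm_num) (by norm_num) (by norm_num))
    (exp_neg_leJ (r := 0.99) 14 (by norm_num) (by norm_num) (by norm_num) (by norm_num))
    (exp_neg_leJ (r := 0.99) 14 (by norm_num) (by norm_num) (by norm_num) (by norm_num))
    (by norm_num)) (by norm_num) hN hβ.le (by norm_num)

private theorem JB8_k0_b17_3 {β x y : ℝ} (hβ : 0 < β) (hN : β * 18.019 ≤ 1) (hx1 : 1.4519 ≤ x) (hx2 : x ≤ 1.8281)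
    (hy1 : -0.279 ≤ y) (hy2 : y ≤ -0.184) : ‖HH β (x + y * I) - 1‖ ≤ 0.07 := by
  refine le_epsJ (C := 1.2527) (N0 := 18.019) (J_boxp 1.4519 1.8281 0.279 0 (-0.184) 1.5342 1.8493 2.002 0.7446 0.5645 4.2449 18.019 1.2054 6.041 1.749 0.4594 0.767 0.4588 1.0648 2.1657 0.9078 2.5103 3.716 2.5889 0.0000009971 0.0002569 0.0000003101 0.0000003101 0.0000003101 0.0000003101 0.0000003101 0.0000003101 1.2527
    hβ hN hx1 hx2 hy1 hy2 (by norm_num) (by norm_num) (by linarith) (by norm_num) (by norm_num) (by norm_num) (by norm_num) (by norm_num) (by norm_num) (by norm_num) (by norm_num) (by norm_num) (by norm_num) (by norm_num) (by norm_num) (by norm_num) (by norm_num) (by norm_num) (by norm_num) (by norm_num) (by norm_num) (by norm_num) (by norm_num) (by norm_num)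
    (cube_sqrt_geJ (s := 0.7734) (by norm_num) (by norm_num) (by norm_num) (by norm_num))
    (cube_sqrt_geJ (s := 0.9232) (by norm_num) (by norm_num) (by norm_num) (by norm_num))
    (by norm_num) (by norm_num) (by norm_num) (by norm_num) (by norm_num) (by norm_num) (by norm_num) (by norm_num) (by norm_num) (by norm_num) (by norm_num) (by norm_num) (by norm_num) (by norm_num) (by norm_num) (by norm_num) (by norm_num) (by norm_num)
    (exp_neg_leJ (r := 0.82) 13 (by norm_num) (by norm_num) (by norm_num) (by norm_num))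
    (exp_neg_leJ (r := 0.267) 8 (by norm_num) (by norm_num) (by norm_num) (by norm_num))
    (exp_neg_leJ (r := 0.99) 14 (by norm_num) (by norm_num) (by norm_num) (by norm_num))
    (exp_neg_leJ (r := 0.99) 14 (by norm_num) (by norm_num) (by norm_num) (by norm_num))
    (exp_neg_leJ (r := 0.99) 14 (by norm_num) (by norm_num) (by norm_num) (by norm_num))
    (exp_neg_leJ (r := 0.99) 14 (by norm_num) (by norm_num) (by norm_num) (by norm_num))
    (exp_neg_leJ (r := 0.99) 14 (by norm_num) (by norm_num) (by norm_num) (by norm_num))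
    (exp_neg_leJ (r := 0.99) 14 (by norm_num) (by norm_num) (by norm_num) (by norm_num))
    (by norm_num)) (by norm_num) hN hβ.le (by norm_num)

private theorem JB8_k0_b17_4 {β x y : ℝ} (hβ : 0 < β) (hN : β * 18.019 ≤ 1) (hx1 : 1.2161 ≤ x) (hx2 : x ≤ 1.6709)
    (hy1 : -0.184 ≤ y) (hy2 : y ≤ 0) : ‖HH β (x + y * I) - 1‖ ≤ 0.07 := by
  refine le_epsJ (C := 1.2429) (N0 := 18.019) (J_boxp 1.2161 1.6709 0.184 0 0 1.4357 1.6811 1.9473 0.8112 0.5568 4.2449 18.019 1.171 5.652 1.719 0.6076 0.7178 0.4376 1.1341 2.5578 0.8451 2.1838 3.5027 2.5745 0.000002422 0.0003772 0.0000003101 0.0000003101 0.0000003101 0.0000003101 0.0000003101 0.0000003101 1.2429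
    hβ hN hx1 hx2 hy1 hy2 (by norm_num) (by norm_num) (by linarith) (by norm_num) (by norm_num) (by norm_num) (by norm_num) (by norm_num) (by norm_num) (by norm_num) (by norm_num) (by norm_num) (by norm_num) (by norm_num) (by norm_num) (by norm_num) (by norm_num) (by norm_num) (by norm_num) (by norm_num) (by norm_num) (by norm_num) (by norm_num) (by norm_num)
    (cube_sqrt_geJ (s := 0.7808) (by norm_num) (by norm_num) (by norm_num) (by norm_num))
    (cube_sqrt_geJ (s := 0.9255) (by norm_num) (by norm_num) (by norm_num) (by norm_num))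
    (by norm_num) (by norm_num) (by norm_num) (by norm_num) (by norm_num) (by norm_num) (by norm_num) (by norm_num) (by norm_num) (by norm_num) (by norm_num) (by norm_num) (by norm_num) (by norm_num) (by norm_num) (by norm_num) (by norm_num) (by norm_num)
    (exp_neg_leJ (r := 0.934) 12 (by norm_num) (by norm_num) (by norm_num) (by norm_num))
    (exp_neg_leJ (r := 0.885) 7 (by norm_num) (by norm_num) (by norm_num) (by norm_num))
    (exp_neg_leJ (r := 0.99) 14 (by norm_num) (by norm_num) (by norm_num) (by norm_num))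
    (exp_neg_leJ (r := 0.99) 14 (by norm_num) (by norm_num) (by norm_num) (by norm_num))
    (exp_neg_leJ (r := 0.99) 14 (by norm_num) (by norm_num) (by norm_num) (by norm_num))
    (exp_neg_leJ (r := 0.99) 14 (by norm_num) (by norm_num) (by norm_num) (by norm_num))
    (exp_neg_leJ (r := 0.99) 14 (by norm_num) (by norm_num) (by norm_num) (by norm_num))
    (exp_neg_leJ (r := 0.99) 14 (by norm_num) (by norm_num) (by norm_num) (by norm_num))
    (by norm_num)) (by norm_num) hN hβ.le (by norm_num)

private theorem JB8_k0_b17_5 {β x y : ℝ} (hβ : 0 < β) (hN : β * 18.019 ≤ 1) (hx1 : 1.2054 ≤ x) (hx2 : x ≤ 1.3901)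
    (hy1 : -0 ≤ y) (hy2 : y ≤ 0.02) : ‖HH β (x + y * I) - 1‖ ≤ 0.07 := by
  refine le_epsJ (C := 0.4678) (N0 := 18.019) (J_boxp 1.2054 1.3901 0 0.02 0.02 1.5588 1.3903 1.7242 0.6747 0.5239 4.2449 18.019 0.892 3.439 1.5 0.8854 0.7793 0.5476 1.4209 3.3003 0.9384 2.1669 3.8957 3.2494 0.0000007974 0.00005197 0.0000003101 0.0000003101 0.0000003101 0.0000003101 0.0000003101 0.0000003101 0.4678
    hβ hN hx1 hx2 hy1 hy2 (by norm_num) (by norm_num) (by linarith) (by norm_num) (by norm_num) (by norm_num) (by norm_num) (by norm_num) (by norm_num) (by norm_num) (by norm_num) (by norm_num) (by norm_num) (by norm_num) (by norm_num) (by norm_num) (by norm_num) (by norm_num) (by norm_num) (by norm_num) (by norm_num) (by norm_num) (by norm_num) (by norm_num)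
    (cube_sqrt_geJ (s := 0.8382) (by norm_num) (by norm_num) (by norm_num) (by norm_num))
    (cube_sqrt_geJ (s := 0.9438) (by norm_num) (by norm_num) (by norm_num) (by norm_num))
    (by norm_num) (by norm_num) (by norm_num) (by norm_num) (by norm_num) (by norm_num) (by norm_num) (by norm_num) (by norm_num) (by norm_num) (by norm_num) (by norm_num) (by norm_num) (by norm_num) (by norm_num) (by norm_num) (by norm_num) (by norm_num)
    (exp_neg_leJ (r := 0.042) 14 (by norm_num) (by norm_num) (by norm_num) (by norm_num))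
    (exp_neg_leJ (r := 0.867) 9 (by norm_num) (by norm_num) (by norm_num) (by norm_num))
    (exp_neg_leJ (r := 0.99) 14 (by norm_num) (by norm_num) (by norm_num) (by norm_num))
    (exp_neg_leJ (r := 0.99) 14 (by norm_num) (by norm_num) (by norm_num) (by norm_num))
    (exp_neg_leJ (r := 0.99) 14 (by norm_num) (by norm_num) (by norm_num) (by norm_num))
    (exp_neg_leJ (r := 0.99) 14 (by norm_num) (by norm_num) (by norm_num) (by norm_num))
    (exp_neg_leJ (r := 0.99) 14 (by norm_num) (by norm_num) (by norm_num) (by norm_num))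
    (exp_neg_leJ (r := 0.99) 14 (by norm_num) (by norm_num) (by norm_num) (by norm_num))
    (by norm_num)) (by norm_num) hN hβ.le (by norm_num)

theorem JB8_k0_c17 {κ t β : ℝ} (h : DomR κ t) (hβ : 0 < β) (hk1 : 1.23 ≤ κ) (hk2 : κ ≤ 1.39)
    (ht1 : -0.7465 ≤ t + κ) (ht2 : t + κ ≤ 0.04) (hR0 : β * 10 ≤ κ) (hR : β * (8.82 * (1 + κ ^ 2)) ≤ κ) :
    ‖HH β (sg κ t) - 1‖ ≤ 0.07 := by
  have hN : β * 18.019 ≤ 1 := bNC' hβ hk1 (by norm_num) (by norm_num) hR (by norm_num)
  have hy1 : -0.384 ≤ sy κ t := syL_ge h 1.23 1.39 0.7465 0.384 0.68113 0.68114 0.1902 0.18816 0.21265 hk1 hk2 (by linarith) (by norm_num) (by norm_num) (by norm_num)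
    (expm_ge (by norm_num) (by norm_num) (by norm_num) (by norm_num)) (expm_le (by norm_num) (by norm_num) (by norm_num)) (by norm_num)
    (by norm_num) (by norm_num) (by norm_num) (by norm_num) (by norm_num) (by norm_num)
  have hy2 : sy κ t ≤ 0.02 := syR_le h 1.23 1.39 0.04 0.02 1.0202 0.0141 0.01467 0.01659 hk1 hk2 (by linarith) (by norm_num) (by norm_num)
    (expn_ge (by norm_num) (by norm_num)) (by norm_num) (by norm_num) (Or.inr ((mul_le_mul_of_nonneg_left (expn_le (E := 1.02021) (by norm_num) (by norm_num) (by norm_num)) (by norm_num)).trans (by norm_num))) (by norm_num) (by norm_num) (by norm_num)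
  rcases le_total (sy κ t) (-0.364) with f0 | g0
  · have hx1 : 1.7279 ≤ sx κ t := sx_lo h 1.23 (-0.364) 0.384 1.43907 1.7279 hk1 (by norm_num) f0 (abs_le.2 ⟨by linarith, by linarith⟩) (by rw [neg_neg]; exact expn_ge (by norm_num) (by norm_num)) (by norm_num) (by norm_num)
    have hx2 : sx κ t ≤ 2.0081 := sx_hi h 1.39 (-0.384) 0.364 1.46815 2.0081 hk2 hy1 (by norm_num) (by rw [abs_of_nonpos (by linarith)]; linarith) (by rw [neg_neg]; exact expn_le (by norm_num) (by norm_num) (by norm_num)) (by norm_num) (by norm_num)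
    exact JB8_k0_b17_0 hβ hN hx1 hx2 (by linarith) (by linarith)
  rcases le_total (sy κ t) (-0.334) with f1 | g1
  · have hx1 : 1.6787 ≤ sx κ t := sx_lo h 1.23 (-0.334) 0.364 1.39654 1.6787 hk1 (by norm_num) f1 (abs_le.2 ⟨by linarith, by linarith⟩) (by rw [neg_neg]; exact expn_ge (by norm_num) (by norm_num)) (by norm_num) (by norm_num)
    have hx2 : sx κ t ≤ 1.9723 := sx_hi h 1.39 (-0.364) 0.334 1.43908 1.9723 hk2 g0 (by norm_num) (by rw [abs_of_nonpos (by linarith)]; linarith) (by rw [neg_neg]; exact expn_le (by norm_num) (by norm_num) (by norm_num)) (by norm_num) (by norm_num)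
    exact JB8_k0_b17_1 hβ hN hx1 hx2 (by linarith) (by linarith)
  rcases le_total (sy κ t) (-0.279) with f2 | g2
  · have hx1 : 1.5911 ≤ sx κ t := sx_lo h 1.23 (-0.279) 0.334 1.3218 1.5911 hk1 (by norm_num) f2 (abs_le.2 ⟨by linarith, by linarith⟩) (by rw [neg_neg]; exact expn_ge (by norm_num) (by norm_num)) (by norm_num) (by norm_num)
    have hx2 : sx κ t ≤ 1.9211 := sx_hi h 1.39 (-0.334) 0.279 1.39655 1.9211 hk2 g1 (by norm_num) (by rw [abs_of_nonpos (by linarith)]; linarith) (by rw [neg_neg]; exact expn_le (by norm_num) (by norm_num) (by norm_num)) (by norm_num) (by norm_num)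
    exact JB8_k0_b17_2 hβ hN hx1 hx2 (by linarith) (by linarith)
  rcases le_total (sy κ t) (-0.184) with f3 | g3
  · have hx1 : 1.4519 ≤ sx κ t := sx_lo h 1.23 (-0.184) 0.279 1.20201 1.4519 hk1 (by norm_num) f3 (abs_le.2 ⟨by linarith, by linarith⟩) (by rw [neg_neg]; exact expn_ge (by norm_num) (by norm_num)) (by norm_num) (by norm_num)
    have hx2 : sx κ t ≤ 1.8281 := sx_hi h 1.39 (-0.279) 0.184 1.32181 1.8281 hk2 g2 (by norm_num) (by rw [abs_of_nonpos (by linarith)]; linarith) (by rw [neg_neg]; exact expn_le (by norm_num) (by norm_num) (by norm_num)) (by norm_num) (by norm_num)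
    exact JB8_k0_b17_3 hβ hN hx1 hx2 (by linarith) (by linarith)
  rcases le_total (sy κ t) 0 with f4 | g4
  · have hx1 : 1.2161 ≤ sx κ t := sx_lo h 1.23 0 0.184 1 1.2161 hk1 (by norm_num) f4 (abs_le.2 ⟨by linarith, by linarith⟩) (by simp) (by norm_num) (by norm_num)
    have hx2 : sx κ t ≤ 1.6709 := sx_hi h 1.39 (-0.184) 0 1.20202 1.6709 hk2 g3 (by norm_num) (abs_nonneg _) (by rw [neg_neg]; exact expn_le (by norm_num) (by norm_num) (by norm_num)) (by norm_num) (by norm_num)
    exact JB8_k0_b17_4 hβ hN hx1 hx2 (by linarith) (by linarith)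
  have hx1 : 1.2054 ≤ sx κ t := sx_lo h 1.23 0.02 0.02 0.98019 1.2054 hk1 (by norm_num) hy2 (abs_le.2 ⟨by linarith, by linarith⟩) (expm_ge (by norm_num) (by norm_num) (by norm_num) (by norm_num)) (by norm_num) (by norm_num)
  have hx2 : sx κ t ≤ 1.3901 := sx_hi h 1.39 0 0 1 1.3901 hk2 g4 (by norm_num) (abs_nonneg _) (by simp) (by norm_num) (by norm_num)
  exact JB8_k0_b17_5 hβ hN hx1 hx2 (by linarith) (by linarith)
end Sok
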