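import Pool.Agent.Lib.MP_816dec_an.JBG2
import Pool.Agent.Lib.MP_816dec_an.JB8bp1
import Pool.Agent.Lib.MP_816dec_an.JB8bp2
import Pool.Agent.Lib.MP_816dec_an.JB8bp3
import Pool.Agent.Lib.MP_816dec_an.JB8bp4

/-!
MP_816dec_an (A3, row R1): tables b = 8, real points.
-/

set_option autoImplicit false
set_option maxHeartbeats 4000000

open Complex Set

namespace Sok

theorem JB8_k0 {κ t β : ℝ} (h : DomR κ t) (hβ : 0 < β) (hk1 : 0.24 ≤ κ) (hk2 : κ ≤ 1.39)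
    (ht1 : -0.7465 ≤ t + κ) (ht2 : t + κ ≤ 0.04) (hR0 : β * 10 ≤ κ) (hR : β * (8.82 * (1 + κ ^ 2)) ≤ κ) :
    ‖HH β (sg κ t) - 1‖ ≤ 0.07 := by
  rcases le_total κ 0.34 with f0 | g0
  · exact JB8_k0_c0 h hβ hk1 f0 ht1 ht2 hR0 hR
  rcases le_total κ 0.41 with f1 | g1
  · exact JB8_k0_c1 h hβ g0 f1 ht1 ht2 hR0 hR
  rcases le_total κ 0.47 with f2 | g2
  · exact JB8_k0_c2 h hβ g1 f2 ht1 ht2 hR0 hR
  rcases le_total κ 0.51 with f3 | g3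
  · exact JB8_k0_c3 h hβ g2 f3 ht1 ht2 hR0 hR
  rcases le_total κ 0.55 with f4 | g4
  · exact JB8_k0_c4 h hβ g3 f4 ht1 ht2 hR0 hR
  rcases le_total κ 0.58 with f5 | g5
  · exact JB8_k0_c5 h hβ g4 f5 ht1 ht2 hR0 hR
  rcases le_total κ 0.61 with f6 | g6
  · exact JB8_k0_c6 h hβ g5 f6 ht1 ht2 hR0 hR
  rcases le_total κ 0.64 with f7 | g7
  · exact JB8_k0_c7 h hβ g6 f7 ht1 ht2 hR0 hR
  rcases le_total κ 0.68 with f8 | g8
  · exact JB8_k0_c8 h hβ g7 f8 ht1 ht2 hR0 hR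
  rcases le_total κ 0.72 with f9 | g9
  · exact JB8_k0_c9 h hβ g8 f9 ht1 ht2 hR0 hR
  rcases le_total κ 0.76 with f10 | g10
  · exact JB8_k0_c10 h hβ g9 f10 ht1 ht2 hR0 hR
  rcases le_total κ 0.81 with f11 | g11
  · exact JB8_k0_c11 h hβ g10 f11 ht1 ht2 hR0 hR
  rcases le_total κ 0.87 with f12 | g12
  · exact JB8_k0_c12 h hβ g11 f12 ht1 ht2 hR0 hR
  rcases le_total κ 0.94 with f13 | g13
  · exact JB8_k0_c13 h hβ g12 f13 ht1 ht2 hR0 hR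
  rcases le_total κ 1 with f14 | g14
  · exact JB8_k0_c14 h hβ g13 f14 ht1 ht2 hR0 hR
  rcases le_total κ 1.1 with f15 | g15
  · exact JB8_k0_c15 h hβ g14 f15 ht1 ht2 hR0 hR
  rcases le_total κ 1.23 with f16 | g16
  · exact JB8_k0_c16 h hβ g15 f16 ht1 ht2 hR0 hR
  exact JB8_k0_c17 h hβ g16 hk2 ht1 ht2 hR0 hR
end Sok
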