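import Pool.Agent.Lib.MP_816dec_an.JBG2

/-!
MP_816dec_an (A3, row R1): tables b = 8, discs.
-/

set_option autoImplicit false
set_option maxHeartbeats 4000000

open Complex Set

namespace Sok

private theorem JB8_S1_b0_0 {β x y : ℝ} (hβ : 0 < β) (hN : β * 28.571 ≤ 1) (hx1 : 0.0872 ≤ x) (hx2 : x ≤ 0.4204)
    (hy1 : -0.033 ≤ y) (hy2 : y ≤ 0.207) : ‖HH β (x + y * I) - 1‖ ≤ 0.05 := by
  refine le_epsJ (C := 0.5476) (N0 := 28.571) (J_boxp 0.0872 0.4204 0.033 0.207 0.207 0.748 0.4686 1.2782 1.7477 0.4511 5.3452 28.571 0.6265 2.271 1.323 1.2279 0.3739 0.2958 0.986 3.7444 0.3582 0.5996 0.7675 2.6372 0.00002298 0.0002138 0.0000003101 0.0000003101 0.00003593 0.0000003101 0.0000003101 0.0000003101 0.5476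
    hβ hN hx1 hx2 hy1 hy2 (by norm_num) (by norm_num) (by linarith) (by norm_num) (by norm_num) (by norm_num) (by norm_num) (by norm_num) (by norm_num) (by norm_num) (by norm_num) (by norm_num) (by norm_num) (by norm_num) (by norm_num) (by norm_num) (by norm_num) (by norm_num) (by norm_num) (by norm_num) (by norm_num) (by norm_num) (by norm_num) (by norm_num)
    (cube_sqrt_geJ (s := 0.8894) (by norm_num) (by norm_num) (by norm_num) (by norm_num))
    (cube_sqrt_geJ (s := 0.9608) (by norm_num) (by norm_num) (by norm_num) (by norm_num))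
    (by norm_num) (by norm_num) (by norm_num) (by norm_num) (by norm_num) (by norm_num) (by norm_num) (by norm_num) (by norm_num) (by norm_num) (by norm_num) (by norm_num) (by norm_num) (by norm_num) (by norm_num) (by norm_num) (by norm_num) (by norm_num)
    (exp_neg_leJ (r := 0.682) 10 (by norm_num) (by norm_num) (by norm_num) (by norm_num))
    (exp_neg_leJ (r := 0.451) 8 (by norm_num) (by norm_num) (by norm_num) (by norm_num))
    (exp_neg_leJ (r := 0.99) 14 (by norm_num) (by norm_num) (by norm_num) (by norm_num))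
    (exp_neg_leJ (r := 0.99) 14 (by norm_num) (by norm_num) (by norm_num) (by norm_num))
    (exp_neg_leJ (r := 0.234) 10 (by norm_num) (by norm_num) (by norm_num) (by norm_num))
    (exp_neg_leJ (r := 0.99) 14 (by norm_num) (by norm_num) (by norm_num) (by norm_num))
    (exp_neg_leJ (r := 0.99) 14 (by norm_num) (by norm_num) (by norm_num) (by norm_num))
    (exp_neg_leJ (r := 0.99) 14 (by norm_num) (by norm_num) (by norm_num) (by norm_num))
    (by norm_num)) (by norm_num) hN hβ.le (by norm_num)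

private theorem JB8_S1_b0_1 {β x y : ℝ} (hβ : 0 < β) (hN : β * 28.571 ≤ 1) (hn : ‖(x + y * I : ℂ)‖ ≤ 0.415) : ‖HH β (x + y * I) - 1‖ ≤ 0.05 := by
  refine le_epsJ (C := 1.3256) (N0 := 28.571) (J45_genN (N := 28.571) (r0 := 5.3452) (f := 2.6032) (n0 := 0.415) (a := 0.585) (wL := 1.981) (wR := 2.544)
    (E1 := 0.009158) (E2 := 0.00000433) (E3 := 0.04065) (E4 := 0.00009905) (E5 := 0.0000003101) hβ (by norm_num) hN
    (by norm_num) (by norm_num) (by norm_num) hn (by norm_num) (by norm_num) (by norm_num)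
    (cube_sqrt_geJ (s := 0.907) (by norm_num) (by norm_num) (by norm_num) (by norm_num))
    (cube_sqrt_geJ (s := 0.8751) (by norm_num) (by norm_num) (by norm_num) (by norm_num))
    (exp_neg_leJ (r := 0.694) 4 (by norm_num) (by norm_num) (by norm_num) (by norm_num))
    (exp_neg_leJ (r := 0.35) 12 (by norm_num) (by norm_num) (by norm_num) (by norm_num))
    (exp_neg_leJ (r := 0.203) 3 (by norm_num) (by norm_num) (by norm_num) (by norm_num))
    (exp_neg_leJ (r := 0.22) 9 (by norm_num) (by norm_num) (by norm_num) (by norm_num))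
    (exp_neg_leJ (r := 0.99) 14 (by norm_num) (by norm_num) (by norm_num) (by norm_num))
    (by norm_num)) (by norm_num) hN hβ.le (by norm_num)

private theorem JB8_S1_c0 {κ t β : ℝ} (h : DomR κ t) (hβ : 0 < β) (hk1 : 0.24 ≤ κ) (hk2 : κ ≤ 0.35)
    (ht1 : 0.33 ≤ t + κ) (ht2 : t + κ ≤ 0.471) (hR0 : β * 10 ≤ κ) (hR : β * (8.82 * (1 + κ ^ 2)) ≤ κ) :
    ∀ s : ℂ, ‖s - sg κ t‖ ≤ 0.1 → ‖HH β s - 1‖ ≤ 0.05 := by
  have hN : β * 28.571 ≤ 1 := bNR hβ h.1 hk2 hR0 (by norm_num)
  have hy1 : 0.067 ≤ sy κ t := syR_ge h 0.24 0.35 0.33 0.067 1.06929 1.0693 0.20469 0.29852 hk1 hk2 (by linarith) (by norm_num) (by norm_num)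
    (expn_ge (by norm_num) (by norm_num)) (expn_le (by norm_num) (by norm_num) (by norm_num)) (by norm_num)
    (by norm_num) (by norm_num) (by norm_num) (by norm_num) (by norm_num) (by norm_num)
  have hy2 : sy κ t ≤ 0.123 := syR_le h 0.24 0.35 0.471 0.123 1.13088 0.3822 0.39742 0.57959 hk1 hk2 (by linarith) (by norm_num) (by norm_num)
    (expn_ge (by norm_num) (by norm_num)) (by norm_num) (by norm_num) (Or.inr ((mul_le_mul_of_nonneg_left (expn_le (E := 1.13089) (by norm_num) (by norm_num) (by norm_num)) (by norm_num)).trans (by norm_num))) (by norm_num) (by norm_num) (by norm_num)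
  intro s hs
  have hs' : ‖s - ((sx κ t : ℂ) + (sy κ t : ℂ) * I)‖ ≤ 0.1 := hs
  obtain ⟨es, ⟨s1, s2⟩, ⟨s3, s4⟩⟩ := disc_split hs'
  rcases le_total (sy κ t) 0.107 with f0 | g0
  · have hx1 : 0.1872 ≤ sx κ t := sx_lo h 0.24 0.107 0.107 0.89852 0.1872 hk1 (by norm_num) f0 (abs_le.2 ⟨by linarith, by linarith⟩) (expm_ge (by norm_num) (by norm_num) (by norm_num) (by norm_num)) (by norm_num) (by norm_num)
    have hx2 : sx κ t ≤ 0.3204 := sx_hi h 0.35 0.067 0.067 0.9352 0.3204 hk2 hy1 (by norm_num) (by rw [abs_of_nonneg (by linarith)]; linarith) (expm_le (by norm_num) (by norm_num) (by norm_num)) (by norm_num) (by norm_num)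
    rw [es]
    exact JB8_S1_b0_0 hβ hN (by linarith) (by linarith) (by linarith) (by linarith)
  rw [es]
  refine JB8_S1_b0_1 hβ hN ?_
  rw [← es]
  exact disc_norm hs' (norm_sg_le h 0.35 0.107 0.89853 (0.415 - 0.1) hk2 g0 (expm_le (by norm_num) (by norm_num) (by norm_num)) (by norm_num))

private theorem JB8_S1_b1_0 {β x y : ℝ} (hβ : 0 < β) (hN : β * 19.839 ≤ 1) (hx1 : 0.1824 ≤ x) (hx2 : x ≤ 0.6502)
    (hy1 : -0.01 ≤ y) (hy2 : y ≤ 0.225) : ‖HH β (x + y * I) - 1‖ ≤ 0.05 := by
  refine le_epsJ (C := 0.9741) (N0 := 19.839) (J_boxp 0.1824 0.6502 0.01 0.225 0.225 0.8313 0.6881 1.3869 1.5538 0.4699 4.4541 19.839 0.8278 3.096 1.454 1.1608 0.4156 0.3009 1.0549 3.6865 0.4152 0.7296 0.9432 2.1462 0.0002626 0.002566 0.0000003101 0.0000003101 0.0002647 0.0000005178 0.0000003101 0.0000003101 0.9741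
    hβ hN hx1 hx2 hy1 hy2 (by norm_num) (by norm_num) (by linarith) (by norm_num) (by norm_num) (by norm_num) (by norm_num) (by norm_num) (by norm_num) (by norm_num) (by norm_num) (by norm_num) (by norm_num) (by norm_num) (by norm_num) (by norm_num) (by norm_num) (by norm_num) (by norm_num) (by norm_num) (by norm_num) (by norm_num) (by norm_num) (by norm_num)
    (cube_sqrt_geJ (s := 0.8509) (by norm_num) (by norm_num) (by norm_num) (by norm_num))
    (cube_sqrt_geJ (s := 0.9479) (by norm_num) (by norm_num) (by norm_num) (by norm_num))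
    (by norm_num) (by norm_num) (by norm_num) (by norm_num) (by norm_num) (by norm_num) (by norm_num) (by norm_num) (by norm_num) (by norm_num) (by norm_num) (by norm_num) (by norm_num) (by norm_num) (by norm_num) (by norm_num) (by norm_num) (by norm_num)
    (exp_neg_leJ (r := 0.245) 8 (by norm_num) (by norm_num) (by norm_num) (by norm_num))
    (exp_neg_leJ (r := 0.969) 5 (by norm_num) (by norm_num) (by norm_num) (by norm_num))
    (exp_neg_leJ (r := 0.99) 14 (by norm_num) (by norm_num) (by norm_num) (by norm_num))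
    (exp_neg_leJ (r := 0.99) 14 (by norm_num) (by norm_num) (by norm_num) (by norm_num))
    (exp_neg_leJ (r := 0.237) 8 (by norm_num) (by norm_num) (by norm_num) (by norm_num))
    (exp_neg_leJ (r := 0.474) 14 (by norm_num) (by norm_num) (by norm_num) (by norm_num))
    (exp_neg_leJ (r := 0.99) 14 (by norm_num) (by norm_num) (by norm_num) (by norm_num))
    (exp_neg_leJ (r := 0.99) 14 (by norm_num) (by norm_num) (by norm_num) (by norm_num))
    (by norm_num)) (by norm_num) hN hβ.le (by norm_num)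

private theorem JB8_S1_b1_1 {β x y : ℝ} (hβ : 0 < β) (hN : β * 19.839 ≤ 1) (hx1 : 0.1565 ≤ x) (hx2 : x ≤ 0.6237)
    (hy1 : -0 ≤ y) (hy2 : y ≤ 0.255) : ‖HH β (x + y * I) - 1‖ ≤ 0.05 := by
  refine le_epsJ (C := 0.9879) (N0 := 19.839) (J_boxp 0.1565 0.6237 0 0.255 0.255 0.8202 0.6739 1.4015 1.5938 0.4723 4.4541 19.839 0.8217 3.066 1.45 1.1802 0.41 0.2977 1.0618 3.7299 0.405 0.6906 0.79 1.9916 0.0002937 0.00273 0.0000003101 0.0000003101 0.0003243 0.000001124 0.0000003101 0.0000003101 0.9879
    hβ hN hx1 hx2 hy1 hy2 (by norm_num) (by norm_num) (by linarith) (by norm_num) (by norm_num) (by norm_num) (by norm_num) (by norm_num) (by norm_num) (by norm_num) (by norm_num) (by norm_num) (by norm_num) (by norm_num) (by norm_num) (by norm_num) (by norm_num) (by norm_num) (by norm_num) (by norm_num) (by norm_num) (by norm_num) (by norm_num) (by norm_num)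
    (cube_sqrt_geJ (s := 0.8521) (by norm_num) (by norm_num) (by norm_num) (by norm_num))
    (cube_sqrt_geJ (s := 0.9483) (by norm_num) (by norm_num) (by norm_num) (by norm_num))
    (by norm_num) (by norm_num) (by norm_num) (by norm_num) (by norm_num) (by norm_num) (by norm_num) (by norm_num) (by norm_num) (by norm_num) (by norm_num) (by norm_num) (by norm_num) (by norm_num) (by norm_num) (by norm_num) (by norm_num) (by norm_num)
    (exp_neg_leJ (r := 0.133) 8 (by norm_num) (by norm_num) (by norm_num) (by norm_num))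
    (exp_neg_leJ (r := 0.906) 5 (by norm_num) (by norm_num) (by norm_num) (by norm_num))
    (exp_neg_leJ (r := 0.99) 14 (by norm_num) (by norm_num) (by norm_num) (by norm_num))
    (exp_neg_leJ (r := 0.99) 14 (by norm_num) (by norm_num) (by norm_num) (by norm_num))
    (exp_neg_leJ (r := 0.034) 8 (by norm_num) (by norm_num) (by norm_num) (by norm_num))
    (exp_neg_leJ (r := 0.7) 13 (by norm_num) (by norm_num) (by norm_num) (by norm_num))
    (exp_neg_leJ (r := 0.99) 14 (by norm_num) (by norm_num) (by norm_num) (by norm_num))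
    (exp_neg_leJ (r := 0.99) 14 (by norm_num) (by norm_num) (by norm_num) (by norm_num))
    (by norm_num)) (by norm_num) hN hβ.le (by norm_num)

private theorem JB8_S1_b1_2 {β x y : ℝ} (hβ : 0 < β) (hN : β * 19.839 ≤ 1) (hx1 : 0.1414 ≤ x) (hx2 : x ≤ 0.5989)
    (hy1 : -0 ≤ y) (hy2 : y ≤ 0.27) : ‖HH β (x + y * I) - 1‖ ≤ 0.05 := by
  refine le_epsJ (C := 0.9856) (N0 := 19.839) (J_boxp 0.1414 0.5989 0 0.27 0.27 0.8096 0.657 1.4042 1.6268 0.4728 4.4541 19.839 0.8116 3.017 1.443 1.1897 0.4047 0.2952 1.0566 3.7421 0.3961 0.6682 0.6954 1.9367 0.0003263 0.002869 0.0000003101 0.0000003101 0.0003874 0.00000175 0.000001022 0.0000003101 0.9856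
    hβ hN hx1 hx2 hy1 hy2 (by norm_num) (by norm_num) (by linarith) (by norm_num) (by norm_num) (by norm_num) (by norm_num) (by norm_num) (by norm_num) (by norm_num) (by norm_num) (by norm_num) (by norm_num) (by norm_num) (by norm_num) (by norm_num) (by norm_num) (by norm_num) (by norm_num) (by norm_num) (by norm_num) (by norm_num) (by norm_num) (by norm_num)
    (cube_sqrt_geJ (s := 0.854) (by norm_num) (by norm_num) (by norm_num) (by norm_num))
    (cube_sqrt_geJ (s := 0.949) (by norm_num) (by norm_num) (by norm_num) (by norm_num))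
    (by norm_num) (by norm_num) (by norm_num) (by norm_num) (by norm_num) (by norm_num) (by norm_num) (by norm_num) (by norm_num) (by norm_num) (by norm_num) (by norm_num) (by norm_num) (by norm_num) (by norm_num) (by norm_num) (by norm_num) (by norm_num)
    (exp_neg_leJ (r := 0.028) 8 (by norm_num) (by norm_num) (by norm_num) (by norm_num))
    (exp_neg_leJ (r := 0.856) 5 (by norm_num) (by norm_num) (by norm_num) (by norm_num))
    (exp_neg_leJ (r := 0.99) 14 (by norm_num) (by norm_num) (by norm_num) (by norm_num))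
    (exp_neg_leJ (r := 0.99) 14 (by norm_num) (by norm_num) (by norm_num) (by norm_num))
    (exp_neg_leJ (r := 0.858) 7 (by norm_num) (by norm_num) (by norm_num) (by norm_num))
    (exp_neg_leJ (r := 0.256) 13 (by norm_num) (by norm_num) (by norm_num) (by norm_num))
    (exp_neg_leJ (r := 0.796) 13 (by norm_num) (by norm_num) (by norm_num) (by norm_num))
    (exp_neg_leJ (r := 0.99) 14 (by norm_num) (by norm_num) (by norm_num) (by norm_num))
    (by norm_num)) (by norm_num) hN hβ.le (by norm_num)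

private theorem JB8_S1_b1_3 {β x y : ℝ} (hβ : 0 < β) (hN : β * 19.839 ≤ 1) (hx1 : 0.1371 ≤ x) (hx2 : x ≤ 0.5858)
    (hy1 : -0 ≤ y) (hy2 : y ≤ 0.274) : ‖HH β (x + y * I) - 1‖ ≤ 0.05 := by
  refine le_epsJ (C := 0.965) (N0 := 19.839) (J_boxp 0.1371 0.5858 0 0.274 0.274 0.8065 0.6468 1.4023 1.635 0.4725 4.4541 19.839 0.802 2.971 1.436 1.1948 0.4032 0.2954 1.0552 3.7489 0.3936 0.6618 0.6697 1.9369 0.0003401 0.002857 0.0000003101 0.0000003101 0.0004071 0.000001987 0.000001699 0.0000003101 0.965
    hβ hN hx1 hx2 hy1 hy2 (by norm_num) (by norm_num) (by linarith) (by norm_num) (by norm_num) (by norm_num) (by norm_num) (by norm_num) (by norm_num) (by norm_num) (by norm_num) (by norm_num) (by norm_num) (by norm_num) (by norm_num) (by norm_num) (by norm_num) (by norm_num) (by norm_num) (by norm_num) (by norm_num) (by norm_num) (by norm_num) (by norm_num)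
    (cube_sqrt_geJ (s := 0.8559) (by norm_num) (by norm_num) (by norm_num) (by norm_num))
    (cube_sqrt_geJ (s := 0.9496) (by norm_num) (by norm_num) (by norm_num) (by norm_num))
    (by norm_num) (by norm_num) (by norm_num) (by norm_num) (by norm_num) (by norm_num) (by norm_num) (by norm_num) (by norm_num) (by norm_num) (by norm_num) (by norm_num) (by norm_num) (by norm_num) (by norm_num) (by norm_num) (by norm_num) (by norm_num)
    (exp_neg_leJ (r := 0.99) 7 (by norm_num) (by norm_num) (by norm_num) (by norm_num))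
    (exp_neg_leJ (r := 0.86) 5 (by norm_num) (by norm_num) (by norm_num) (by norm_num))
    (exp_neg_leJ (r := 0.99) 14 (by norm_num) (by norm_num) (by norm_num) (by norm_num))
    (exp_neg_leJ (r := 0.99) 14 (by norm_num) (by norm_num) (by norm_num) (by norm_num))
    (exp_neg_leJ (r := 0.808) 7 (by norm_num) (by norm_num) (by norm_num) (by norm_num))
    (exp_neg_leJ (r := 0.129) 13 (by norm_num) (by norm_num) (by norm_num) (by norm_num))
    (exp_neg_leJ (r := 0.286) 13 (by norm_num) (by norm_num) (by norm_num) (by norm_num))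
    (exp_neg_leJ (r := 0.99) 14 (by norm_num) (by norm_num) (by norm_num) (by norm_num))
    (by norm_num)) (by norm_num) hN hβ.le (by norm_num)

private theorem JB8_S1_c1 {κ t β : ℝ} (h : DomR κ t) (hβ : 0 < β) (hk1 : 0.35 ≤ κ) (hk2 : κ ≤ 0.61)
    (ht1 : 0.33 ≤ t + κ) (ht2 : t + κ ≤ 0.471) (hR0 : β * 10 ≤ κ) (hR : β * (8.82 * (1 + κ ^ 2)) ≤ κ) :
    ∀ s : ℂ, ‖s - sg κ t‖ ≤ 0.1 → ‖HH β s - 1‖ ≤ 0.05 := by
  have hN : β * 19.839 ≤ 1 := bNC hβ h.1 hk2 (by norm_num) (by norm_num) hR (by norm_num)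
  have hy1 : 0.09 ≤ sy κ t := syR_ge h 0.35 0.61 0.33 0.09 1.09417 1.09418 0.16143 0.28137 hk1 hk2 (by linarith) (by norm_num) (by norm_num)
    (expn_ge (by norm_num) (by norm_num)) (expn_le (by norm_num) (by norm_num) (by norm_num)) (by norm_num)
    (by norm_num) (by norm_num) (by norm_num) (by norm_num) (by norm_num) (by norm_num)
  have hy2 : sy κ t ≤ 0.174 := syR_le h 0.35 0.61 0.471 0.174 1.19005 0.3184 0.33945 0.59163 hk1 hk2 (by linarith) (by norm_num) (by norm_num)
    (expn_ge (by norm_num) (by norm_num)) (by norm_num) (by norm_num) (Or.inr ((mul_le_mul_of_nonneg_left (expn_le (E := 1.19006) (by norm_num) (by norm_num) (by norm_num)) (by norm_num)).trans (by norm_num))) (by norm_num) (by norm_num) (by norm_num)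
  intro s hs
  have hs' : ‖s - ((sx κ t : ℂ) + (sy κ t : ℂ) * I)‖ ≤ 0.1 := hs
  obtain ⟨es, ⟨s1, s2⟩, ⟨s3, s4⟩⟩ := disc_split hs'
  rcases le_total (sy κ t) 0.125 with f0 | g0
  · have hx1 : 0.2824 ≤ sx κ t := sx_lo h 0.35 0.125 0.125 0.88249 0.2824 hk1 (by norm_num) f0 (abs_le.2 ⟨by linarith, by linarith⟩) (expm_ge (by norm_num) (by norm_num) (by norm_num) (by norm_num)) (by norm_num) (by norm_num)
    have hx2 : sx κ t ≤ 0.5502 := sx_hi h 0.61 0.09 0.09 0.91394 0.5502 hk2 hy1 (by norm_num) (by rw [abs_of_nonneg (by linarith)]; linarith) (expm_le (by norm_num) (by norm_num) (by norm_num)) (by norm_num) (by norm_num)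
    rw [es]
    exact JB8_S1_b1_0 hβ hN (by linarith) (by linarith) (by linarith) (by linarith)
  rcases le_total (sy κ t) 0.155 with f1 | g1
  · have hx1 : 0.2565 ≤ sx κ t := sx_lo h 0.35 0.155 0.155 0.85641 0.2565 hk1 (by norm_num) f1 (abs_le.2 ⟨by linarith, by linarith⟩) (expm_ge (by norm_num) (by norm_num) (by norm_num) (by norm_num)) (by norm_num) (by norm_num)
    have hx2 : sx κ t ≤ 0.5237 := sx_hi h 0.61 0.125 0.125 0.8825 0.5237 hk2 g0 (by norm_num) (by rw [abs_of_nonneg (by linarith)]; linarith) (expm_le (by norm_num) (by norm_num) (by norm_num)) (by norm_num) (by norm_num)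
    rw [es]
    exact JB8_S1_b1_1 hβ hN (by linarith) (by linarith) (by linarith) (by linarith)
  rcases le_total (sy κ t) 0.17 with f2 | g2
  · have hx1 : 0.2414 ≤ sx κ t := sx_lo h 0.35 0.17 0.17 0.84366 0.2414 hk1 (by norm_num) f2 (abs_le.2 ⟨by linarith, by linarith⟩) (expm_ge (by norm_num) (by norm_num) (by norm_num) (by norm_num)) (by norm_num) (by norm_num)
    have hx2 : sx κ t ≤ 0.4989 := sx_hi h 0.61 0.155 0.155 0.85642 0.4989 hk2 g1 (by norm_num) (by rw [abs_of_nonneg (by linarith)]; linarith) (expm_le (by norm_num) (by norm_num) (by norm_num)) (by norm_num) (by norm_num)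
    rw [es]
    exact JB8_S1_b1_2 hβ hN (by linarith) (by linarith) (by linarith) (by linarith)
  have hx1 : 0.2371 ≤ sx κ t := sx_lo h 0.35 0.174 0.174 0.84029 0.2371 hk1 (by norm_num) hy2 (abs_le.2 ⟨by linarith, by linarith⟩) (expm_ge (by norm_num) (by norm_num) (by norm_num) (by norm_num)) (by norm_num) (by norm_num)
  have hx2 : sx κ t ≤ 0.4858 := sx_hi h 0.61 0.17 0.17 0.84367 0.4858 hk2 g2 (by norm_num) (by rw [abs_of_nonneg (by linarith)]; linarith) (expm_le (by norm_num) (by norm_num) (by norm_num)) (by norm_num) (by norm_num)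
  rw [es]
  exact JB8_S1_b1_3 hβ hN (by linarith) (by linarith) (by linarith) (by linarith)

private theorem JB8_S1_b2_0 {β x y : ℝ} (hβ : 0 < β) (hN : β * 17.873 ≤ 1) (hx1 : 0.4005 ≤ x) (hx2 : x ≤ 0.8369)
    (hy1 : -0 ≤ y) (hy2 : y ≤ 0.253) : ‖HH β (x + y * I) - 1‖ ≤ 0.05 := by
  refine le_epsJ (C := 0.8858) (N0 := 17.873) (J_boxp 0.4005 0.8369 0 0.253 0.253 0.992 0.8744 1.5068 1.2424 0.4898 4.2277 17.873 0.8815 3.38 1.492 1.0982 0.4959 0.3502 1.1453 3.6101 0.5237 1.0287 1.2865 1.944 0.0001419 0.001914 0.0000003101 0.0000003101 0.00008611 0.0000003101 0.0000003101 0.0000003101 0.8858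
    hβ hN hx1 hx2 hy1 hy2 (by norm_num) (by norm_num) (by linarith) (by norm_num) (by norm_num) (by norm_num) (by norm_num) (by norm_num) (by norm_num) (by norm_num) (by norm_num) (by norm_num) (by norm_num) (by norm_num) (by norm_num) (by norm_num) (by norm_num) (by norm_num) (by norm_num) (by norm_num) (by norm_num) (by norm_num) (by norm_num) (by norm_num)
    (cube_sqrt_geJ (s := 0.8403) (by norm_num) (by norm_num) (by norm_num) (by norm_num))
    (cube_sqrt_geJ (s := 0.9444) (by norm_num) (by norm_num) (by norm_num) (by norm_num))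
    (by norm_num) (by norm_num) (by norm_num) (by norm_num) (by norm_num) (by norm_num) (by norm_num) (by norm_num) (by norm_num) (by norm_num) (by norm_num) (by norm_num) (by norm_num) (by norm_num) (by norm_num) (by norm_num) (by norm_num) (by norm_num)
    (exp_neg_leJ (r := 0.863) 8 (by norm_num) (by norm_num) (by norm_num) (by norm_num))
    (exp_neg_leJ (r := 0.259) 6 (by norm_num) (by norm_num) (by norm_num) (by norm_num))
    (exp_neg_leJ (r := 0.99) 14 (by norm_num) (by norm_num) (by norm_num) (by norm_num))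
    (exp_neg_leJ (r := 0.99) 14 (by norm_num) (by norm_num) (by norm_num) (by norm_num))
    (exp_neg_leJ (r := 0.36) 9 (by norm_num) (by norm_num) (by norm_num) (by norm_num))
    (exp_neg_leJ (r := 0.99) 14 (by norm_num) (by norm_num) (by norm_num) (by norm_num))
    (exp_neg_leJ (r := 0.99) 14 (by norm_num) (by norm_num) (by norm_num) (by norm_num))
    (exp_neg_leJ (r := 0.99) 14 (by norm_num) (by norm_num) (by norm_num) (by norm_num))
    (by norm_num)) (by norm_num) hN hβ.le (by norm_num)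

private theorem JB8_S1_b2_1 {β x y : ℝ} (hβ : 0 < β) (hN : β * 17.873 ≤ 1) (hx1 : 0.383 ≤ x) (hx2 : x ≤ 0.8132)
    (hy1 : -0 ≤ y) (hy2 : y ≤ 0.273) : ‖HH β (x + y * I) - 1‖ ≤ 0.05 := by
  refine le_epsJ (C := 0.8922) (N0 := 17.873) (J_boxp 0.383 0.8132 0 0.273 0.273 0.9797 0.8579 1.5106 1.2675 0.4904 4.2277 17.873 0.8757 3.348 1.488 1.1073 0.4898 0.3468 1.1393 3.6218 0.5132 1.0024 1.1658 1.8596 0.0001581 0.002034 0.0000003101 0.0000003101 0.000104 0.0000003101 0.0000003101 0.0000003101 0.8922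
    hβ hN hx1 hx2 hy1 hy2 (by norm_num) (by norm_num) (by linarith) (by norm_num) (by norm_num) (by norm_num) (by norm_num) (by norm_num) (by norm_num) (by norm_num) (by norm_num) (by norm_num) (by norm_num) (by norm_num) (by norm_num) (by norm_num) (by norm_num) (by norm_num) (by norm_num) (by norm_num) (by norm_num) (by norm_num) (by norm_num) (by norm_num)
    (cube_sqrt_geJ (s := 0.8414) (by norm_num) (by norm_num) (by norm_num) (by norm_num))
    (cube_sqrt_geJ (s := 0.9448) (by norm_num) (by norm_num) (by norm_num) (by norm_num))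
    (by norm_num) (by norm_num) (by norm_num) (by norm_num) (by norm_num) (by norm_num) (by norm_num) (by norm_num) (by norm_num) (by norm_num) (by norm_num) (by norm_num) (by norm_num) (by norm_num) (by norm_num) (by norm_num) (by norm_num) (by norm_num)
    (exp_neg_leJ (r := 0.754) 8 (by norm_num) (by norm_num) (by norm_num) (by norm_num))
    (exp_neg_leJ (r := 0.198) 6 (by norm_num) (by norm_num) (by norm_num) (by norm_num))
    (exp_neg_leJ (r := 0.99) 14 (by norm_num) (by norm_num) (by norm_num) (by norm_num))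
    (exp_neg_leJ (r := 0.99) 14 (by norm_num) (by norm_num) (by norm_num) (by norm_num))
    (exp_neg_leJ (r := 0.172) 9 (by norm_num) (by norm_num) (by norm_num) (by norm_num))
    (exp_neg_leJ (r := 0.99) 14 (by norm_num) (by norm_num) (by norm_num) (by norm_num))
    (exp_neg_leJ (r := 0.99) 14 (by norm_num) (by norm_num) (by norm_num) (by norm_num))
    (exp_neg_leJ (r := 0.99) 14 (by norm_num) (by norm_num) (by norm_num) (by norm_num))
    (by norm_num)) (by norm_num) hN hβ.le (by norm_num)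

private theorem JB8_S1_b2_2 {β x y : ℝ} (hβ : 0 < β) (hN : β * 17.873 ≤ 1) (hx1 : 0.3738 ≤ x) (hx2 : x ≤ 0.7938)
    (hy1 : -0 ≤ y) (hy2 : y ≤ 0.283) : ‖HH β (x + y * I) - 1‖ ≤ 0.05 := by
  refine le_epsJ (C := 0.8779) (N0 := 17.873) (J_boxp 0.3738 0.7938 0 0.283 0.283 0.9732 0.8428 1.5088 1.2795 0.4901 4.2277 17.873 0.8661 3.296 1.481 1.1148 0.4865 0.3461 1.1362 3.6319 0.5077 0.9887 1.1045 1.8351 0.0001676 0.002061 0.0000003101 0.0000003101 0.0001147 0.0000003101 0.0000003101 0.0000003101 0.8779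
    hβ hN hx1 hx2 hy1 hy2 (by norm_num) (by norm_num) (by linarith) (by norm_num) (by norm_num) (by norm_num) (by norm_num) (by norm_num) (by norm_num) (by norm_num) (by norm_num) (by norm_num) (by norm_num) (by norm_num) (by norm_num) (by norm_num) (by norm_num) (by norm_num) (by norm_num) (by norm_num) (by norm_num) (by norm_num) (by norm_num) (by norm_num)
    (cube_sqrt_geJ (s := 0.8433) (by norm_num) (by norm_num) (by norm_num) (by norm_num))
    (cube_sqrt_geJ (s := 0.9454) (by norm_num) (by norm_num) (by norm_num) (by norm_num))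
    (by norm_num) (by norm_num) (by norm_num) (by norm_num) (by norm_num) (by norm_num) (by norm_num) (by norm_num) (by norm_num) (by norm_num) (by norm_num) (by norm_num) (by norm_num) (by norm_num) (by norm_num) (by norm_num) (by norm_num) (by norm_num)
    (exp_neg_leJ (r := 0.695) 8 (by norm_num) (by norm_num) (by norm_num) (by norm_num))
    (exp_neg_leJ (r := 0.185) 6 (by norm_num) (by norm_num) (by norm_num) (by norm_num))
    (exp_neg_leJ (r := 0.99) 14 (by norm_num) (by norm_num) (by norm_num) (by norm_num))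
    (exp_neg_leJ (r := 0.99) 14 (by norm_num) (by norm_num) (by norm_num) (by norm_num))
    (exp_neg_leJ (r := 0.074) 9 (by norm_num) (by norm_num) (by norm_num) (by norm_num))
    (exp_neg_leJ (r := 0.99) 14 (by norm_num) (by norm_num) (by norm_num) (by norm_num))
    (exp_neg_leJ (r := 0.99) 14 (by norm_num) (by norm_num) (by norm_num) (by norm_num))
    (exp_neg_leJ (r := 0.99) 14 (by norm_num) (by norm_num) (by norm_num) (by norm_num))
    (by norm_num)) (by norm_num) hN hβ.le (by norm_num)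

private theorem JB8_S1_b2_3 {β x y : ℝ} (hβ : 0 < β) (hN : β * 17.873 ≤ 1) (hx1 : 0.3644 ≤ x) (hx2 : x ≤ 0.7838)
    (hy1 : -0 ≤ y) (hy2 : y ≤ 0.293) : ‖HH β (x + y * I) - 1‖ ≤ 0.05 := by
  refine le_epsJ (C := 0.8891) (N0 := 17.873) (J_boxp 0.3644 0.7838 0 0.293 0.293 0.9666 0.8368 1.5121 1.294 0.4906 4.2277 17.873 0.8658 3.294 1.481 1.1186 0.4832 0.3438 1.133 3.6366 0.5021 0.9746 1.0428 1.7855 0.0001777 0.002147 0.0000003101 0.0000003101 0.0001271 0.0000003101 0.0000003101 0.0000003101 0.8891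
    hβ hN hx1 hx2 hy1 hy2 (by norm_num) (by norm_num) (by linarith) (by norm_num) (by norm_num) (by norm_num) (by norm_num) (by norm_num) (by norm_num) (by norm_num) (by norm_num) (by norm_num) (by norm_num) (by norm_num) (by norm_num) (by norm_num) (by norm_num) (by norm_num) (by norm_num) (by norm_num) (by norm_num) (by norm_num) (by norm_num) (by norm_num)
    (cube_sqrt_geJ (s := 0.8434) (by norm_num) (by norm_num) (by norm_num) (by norm_num))
    (cube_sqrt_geJ (s := 0.9455) (by norm_num) (by norm_num) (by norm_num) (by norm_num))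
    (by norm_num) (by norm_num) (by norm_num) (by norm_num) (by norm_num) (by norm_num) (by norm_num) (by norm_num) (by norm_num) (by norm_num) (by norm_num) (by norm_num) (by norm_num) (by norm_num) (by norm_num) (by norm_num) (by norm_num) (by norm_num)
    (exp_neg_leJ (r := 0.636) 8 (by norm_num) (by norm_num) (by norm_num) (by norm_num))
    (exp_neg_leJ (r := 0.144) 6 (by norm_num) (by norm_num) (by norm_num) (by norm_num))
    (exp_neg_leJ (r := 0.99) 14 (by norm_num) (by norm_num) (by norm_num) (by norm_num))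
    (exp_neg_leJ (r := 0.99) 14 (by norm_num) (by norm_num) (by norm_num) (by norm_num))
    (exp_neg_leJ (r := 0.974) 8 (by norm_num) (by norm_num) (by norm_num) (by norm_num))
    (exp_neg_leJ (r := 0.99) 14 (by norm_num) (by norm_num) (by norm_num) (by norm_num))
    (exp_neg_leJ (r := 0.99) 14 (by norm_num) (by norm_num) (by norm_num) (by norm_num))
    (exp_neg_leJ (r := 0.99) 14 (by norm_num) (by norm_num) (by norm_num) (by norm_num))
    (by norm_num)) (by norm_num) hN hβ.le (by norm_num)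

private theorem JB8_S1_b2_4 {β x y : ℝ} (hβ : 0 < β) (hN : β * 17.873 ≤ 1) (hx1 : 0.3586 ≤ x) (hx2 : x ≤ 0.7738)
    (hy1 : -0 ≤ y) (hy2 : y ≤ 0.299) : ‖HH β (x + y * I) - 1‖ ≤ 0.05 := by
  refine le_epsJ (C := 0.8864) (N0 := 17.873) (J_boxp 0.3586 0.7738 0 0.299 0.299 0.9625 0.8296 1.5121 1.3023 0.4906 4.2277 17.873 0.862 3.274 1.478 1.1225 0.4812 0.3429 1.131 3.6416 0.4987 0.966 1.0054 1.7652 0.0001842 0.002181 0.0000003101 0.0000003101 0.000135 0.0000003101 0.0000003101 0.0000003101 0.8864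
    hβ hN hx1 hx2 hy1 hy2 (by norm_num) (by norm_num) (by linarith) (by norm_num) (by norm_num) (by norm_num) (by norm_num) (by norm_num) (by norm_num) (by norm_num) (by norm_num) (by norm_num) (by norm_num) (by norm_num) (by norm_num) (by norm_num) (by norm_num) (by norm_num) (by norm_num) (by norm_num) (by norm_num) (by norm_num) (by norm_num) (by norm_num)
    (cube_sqrt_geJ (s := 0.8441) (by norm_num) (by norm_num) (by norm_num) (by norm_num))
    (cube_sqrt_geJ (s := 0.9457) (by norm_num) (by norm_num) (by norm_num) (by norm_num))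
    (by norm_num) (by norm_num) (by norm_num) (by norm_num) (by norm_num) (by norm_num) (by norm_num) (by norm_num) (by norm_num) (by norm_num) (by norm_num) (by norm_num) (by norm_num) (by norm_num) (by norm_num) (by norm_num) (by norm_num) (by norm_num)
    (exp_neg_leJ (r := 0.6) 8 (by norm_num) (by norm_num) (by norm_num) (by norm_num))
    (exp_neg_leJ (r := 0.128) 6 (by norm_num) (by norm_num) (by norm_num) (by norm_num))
    (exp_neg_leJ (r := 0.99) 14 (by norm_num) (by norm_num) (by norm_num) (by norm_num))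
    (exp_neg_leJ (r := 0.99) 14 (by norm_num) (by norm_num) (by norm_num) (by norm_num))
    (exp_neg_leJ (r := 0.913) 8 (by norm_num) (by norm_num) (by norm_num) (by norm_num))
    (exp_neg_leJ (r := 0.99) 14 (by norm_num) (by norm_num) (by norm_num) (by norm_num))
    (exp_neg_leJ (r := 0.99) 14 (by norm_num) (by norm_num) (by norm_num) (by norm_num))
    (exp_neg_leJ (r := 0.99) 14 (by norm_num) (by norm_num) (by norm_num) (by norm_num))
    (by norm_num)) (by norm_num) hN hβ.le (by norm_num)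

private theorem JB8_S1_c2 {κ t β : ℝ} (h : DomR κ t) (hβ : 0 < β) (hk1 : 0.61 ≤ κ) (hk2 : κ ≤ 0.85)
    (ht1 : 0.33 ≤ t + κ) (ht2 : t + κ ≤ 0.471) (hR0 : β * 10 ≤ κ) (hR : β * (8.82 * (1 + κ ^ 2)) ≤ κ) :
    ∀ s : ℂ, ‖s - sg κ t‖ ≤ 0.1 → ‖HH β s - 1‖ ≤ 0.05 := by
  have hN : β * 17.873 ≤ 1 := bNC hβ h.1 hk2 (by norm_num) (by norm_num) hR (by norm_num)
  have hy1 : 0.128 ≤ sy κ t := syR_ge h 0.61 0.85 0.33 0.128 1.13655 1.13656 0.17115 0.2385 hk1 hk2 (by linarith) (by norm_num) (by norm_num)
    (expn_ge (by norm_num) (by norm_num)) (expn_le (by norm_num) (by norm_num) (by norm_num)) (by norm_num)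
    (by norm_num) (by norm_num) (by norm_num) (by norm_num) (by norm_num) (by norm_num)
  have hy2 : sy κ t ≤ 0.199 := syR_le h 0.61 0.85 0.471 0.199 1.22018 0.2762 0.28566 0.39807 hk1 hk2 (by linarith) (by norm_num) (by norm_num)
    (expn_ge (by norm_num) (by norm_num)) (by norm_num) (by norm_num) (Or.inr ((mul_le_mul_of_nonneg_left (expn_le (E := 1.22019) (by norm_num) (by norm_num) (by norm_num)) (by norm_num)).trans (by norm_num))) (by norm_num) (by norm_num) (by norm_num)
  intro s hs
  have hs' : ‖s - ((sx κ t : ℂ) + (sy κ t : ℂ) * I)‖ ≤ 0.1 := hs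
  obtain ⟨es, ⟨s1, s2⟩, ⟨s3, s4⟩⟩ := disc_split hs'
  rcases le_total (sy κ t) 0.153 with f0 | g0
  · have hx1 : 0.5005 ≤ sx κ t := sx_lo h 0.61 0.153 0.153 0.85812 0.5005 hk1 (by norm_num) f0 (abs_le.2 ⟨by linarith, by linarith⟩) (expm_ge (by norm_num) (by norm_num) (by norm_num) (by norm_num)) (by norm_num) (by norm_num)
    have hx2 : sx κ t ≤ 0.7369 := sx_hi h 0.85 0.128 0.128 0.87986 0.7369 hk2 hy1 (by norm_num) (by rw [abs_of_nonneg (by linarith)]; linarith) (expm_le (by norm_num) (by norm_num) (by norm_num)) (by norm_num) (by norm_num)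
    rw [es]
    exact JB8_S1_b2_0 hβ hN (by linarith) (by linarith) (by linarith) (by linarith)
  rcases le_total (sy κ t) 0.173 with f1 | g1
  · have hx1 : 0.483 ≤ sx κ t := sx_lo h 0.61 0.173 0.173 0.84113 0.483 hk1 (by norm_num) f1 (abs_le.2 ⟨by linarith, by linarith⟩) (expm_ge (by norm_num) (by norm_num) (by norm_num) (by norm_num)) (by norm_num) (by norm_num)
    have hx2 : sx κ t ≤ 0.7132 := sx_hi h 0.85 0.153 0.153 0.85813 0.7132 hk2 g0 (by norm_num) (by rw [abs_of_nonneg (by linarith)]; linarith) (expm_le (by norm_num) (by norm_num) (by norm_num)) (by norm_num) (by norm_num)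
    rw [es]
    exact JB8_S1_b2_1 hβ hN (by linarith) (by linarith) (by linarith) (by linarith)
  rcases le_total (sy κ t) 0.183 with f2 | g2
  · have hx1 : 0.4738 ≤ sx κ t := sx_lo h 0.61 0.183 0.183 0.83276 0.4738 hk1 (by norm_num) f2 (abs_le.2 ⟨by linarith, by linarith⟩) (expm_ge (by norm_num) (by norm_num) (by norm_num) (by norm_num)) (by norm_num) (by norm_num)
    have hx2 : sx κ t ≤ 0.6938 := sx_hi h 0.85 0.173 0.173 0.84114 0.6938 hk2 g1 (by norm_num) (by rw [abs_of_nonneg (by linarith)]; linarith) (expm_le (by norm_num) (by norm_num) (by norm_num)) (by norm_num) (by norm_num)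
    rw [es]
    exact JB8_S1_b2_2 hβ hN (by linarith) (by linarith) (by linarith) (by linarith)
  rcases le_total (sy κ t) 0.193 with f3 | g3
  · have hx1 : 0.4644 ≤ sx κ t := sx_lo h 0.61 0.193 0.193 0.82448 0.4644 hk1 (by norm_num) f3 (abs_le.2 ⟨by linarith, by linarith⟩) (expm_ge (by norm_num) (by norm_num) (by norm_num) (by norm_num)) (by norm_num) (by norm_num)
    have hx2 : sx κ t ≤ 0.6838 := sx_hi h 0.85 0.183 0.183 0.83277 0.6838 hk2 g2 (by norm_num) (by rw [abs_of_nonneg (by linarith)]; linarith) (expm_le (by norm_num) (by norm_num) (by norm_num)) (by norm_num) (by norm_num)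
    rw [es]
    exact JB8_S1_b2_3 hβ hN (by linarith) (by linarith) (by linarith) (by linarith)
  have hx1 : 0.4586 ≤ sx κ t := sx_lo h 0.61 0.199 0.199 0.81954 0.4586 hk1 (by norm_num) hy2 (abs_le.2 ⟨by linarith, by linarith⟩) (expm_ge (by norm_num) (by norm_num) (by norm_num) (by norm_num)) (by norm_num) (by norm_num)
  have hx2 : sx κ t ≤ 0.6738 := sx_hi h 0.85 0.193 0.193 0.82449 0.6738 hk2 g3 (by norm_num) (by rw [abs_of_nonneg (by linarith)]; linarith) (expm_le (by norm_num) (by norm_num) (by norm_num)) (by norm_num) (by norm_num)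
  rw [es]
  exact JB8_S1_b2_4 hβ hN (by linarith) (by linarith) (by linarith) (by linarith)

private theorem JB8_S1_b3_0 {β x y : ℝ} (hβ : 0 < β) (hN : β * 17.639 ≤ 1) (hx1 : 0.5593 ≤ x) (hx2 : x ≤ 0.9528)
    (hy1 : -0 ≤ y) (hy2 : y ≤ 0.307) : ‖HH β (x + y * I) - 1‖ ≤ 0.05 := by
  refine le_epsJ (C := 0.8222) (N0 := 17.639) (J_boxp 0.5593 0.9528 0 0.307 0.307 1.1038 1.0011 1.6175 1.0967 0.5074 4.1999 17.639 0.907 3.526 1.51 1.0536 0.5518 0.385 1.1997 3.5401 0.5953 1.2431 1.3725 1.6627 0.00005936 0.001126 0.0000003101 0.0000003101 0.00002755 0.0000003101 0.0000003101 0.0000003101 0.8222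
    hβ hN hx1 hx2 hy1 hy2 (by norm_num) (by norm_num) (by linarith) (by norm_num) (by norm_num) (by norm_num) (by norm_num) (by norm_num) (by norm_num) (by norm_num) (by norm_num) (by norm_num) (by norm_num) (by norm_num) (by norm_num) (by norm_num) (by norm_num) (by norm_num) (by norm_num) (by norm_num) (by norm_num) (by norm_num) (by norm_num) (by norm_num)
    (cube_sqrt_geJ (s := 0.8352) (by norm_num) (by norm_num) (by norm_num) (by norm_num))
    (cube_sqrt_geJ (s := 0.9428) (by norm_num) (by norm_num) (by norm_num) (by norm_num))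
    (by norm_num) (by norm_num) (by norm_num) (by norm_num) (by norm_num) (by norm_num) (by norm_num) (by norm_num) (by norm_num) (by norm_num) (by norm_num) (by norm_num) (by norm_num) (by norm_num) (by norm_num) (by norm_num) (by norm_num) (by norm_num)
    (exp_neg_leJ (r := 0.733) 9 (by norm_num) (by norm_num) (by norm_num) (by norm_num))
    (exp_neg_leJ (r := 0.791) 6 (by norm_num) (by norm_num) (by norm_num) (by norm_num))
    (exp_neg_leJ (r := 0.99) 14 (by norm_num) (by norm_num) (by norm_num) (by norm_num))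
    (exp_neg_leJ (r := 0.99) 14 (by norm_num) (by norm_num) (by norm_num) (by norm_num))
    (exp_neg_leJ (r := 0.5) 10 (by norm_num) (by norm_num) (by norm_num) (by norm_num))
    (exp_neg_leJ (r := 0.99) 14 (by norm_num) (by norm_num) (by norm_num) (by norm_num))
    (exp_neg_leJ (r := 0.99) 14 (by norm_num) (by norm_num) (by norm_num) (by norm_num))
    (exp_neg_leJ (r := 0.99) 14 (by norm_num) (by norm_num) (by norm_num) (by norm_num))
    (by norm_num)) (by norm_num) hN hβ.le (by norm_num)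

private theorem JB8_S1_c3 {κ t β : ℝ} (h : DomR κ t) (hβ : 0 < β) (hk1 : 0.85 ≤ κ) (hk2 : κ ≤ 1)
    (ht1 : 0.33 ≤ t + κ) (ht2 : t + κ ≤ 0.471) (hR0 : β * 10 ≤ κ) (hR : β * (8.82 * (1 + κ ^ 2)) ≤ κ) :
    ∀ s : ℂ, ‖s - sg κ t‖ ≤ 0.1 → ‖HH β s - 1‖ ≤ 0.05 := by
  have hN : β * 17.639 ≤ 1 := bNC hβ h.1 hk2 (by norm_num) (by norm_num) hR (by norm_num)
  have hy1 : 0.145 ≤ sy κ t := syR_ge h 0.85 1 0.33 0.145 1.15603 1.15604 0.16762 0.19721 hk1 hk2 (by linarith) (by norm_num) (by norm_num)
    (expn_ge (by norm_num) (by norm_num)) (expn_le (by norm_num) (by norm_num) (by norm_num)) (by norm_num)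
    (by norm_num) (by norm_num) (by norm_num) (by norm_num) (by norm_num) (by norm_num)
  have hy2 : sy κ t ≤ 0.207 := syR_le h 0.85 1 0.471 0.207 1.22998 0.2508 0.2546 0.29954 hk1 hk2 (by linarith) (by norm_num) (by norm_num)
    (expn_ge (by norm_num) (by norm_num)) (by norm_num) (by norm_num) (Or.inr ((mul_le_mul_of_nonneg_left (expn_le (E := 1.22999) (by norm_num) (by norm_num) (by norm_num)) (by norm_num)).trans (by norm_num))) (by norm_num) (by norm_num) (by norm_num)
  intro s hs
  have hs' : ‖s - ((sx κ t : ℂ) + (sy κ t : ℂ) * I)‖ ≤ 0.1 := hs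
  obtain ⟨es, ⟨s1, s2⟩, ⟨s3, s4⟩⟩ := disc_split hs'
  have hx1 : 0.6593 ≤ sx κ t := sx_lo h 0.85 0.207 0.207 0.81301 0.6593 hk1 (by norm_num) hy2 (abs_le.2 ⟨by linarith, by linarith⟩) (expm_ge (by norm_num) (by norm_num) (by norm_num) (by norm_num)) (by norm_num) (by norm_num)
  have hx2 : sx κ t ≤ 0.8528 := sx_hi h 1 0.145 0.145 0.86503 0.8528 hk2 hy1 (by norm_num) (by rw [abs_of_nonneg (by linarith)]; linarith) (expm_le (by norm_num) (by norm_num) (by norm_num)) (by norm_num) (by norm_num)
  rw [es]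
  exact JB8_S1_b3_0 hβ hN (by linarith) (by linarith) (by linarith) (by linarith)

private theorem JB8_S1_b4_0 {β x y : ℝ} (hβ : 0 < β) (hN : β * 17.639 ≤ 1) (hx1 : 0.7316 ≤ x) (hx2 : x ≤ 1.1654)
    (hy1 : -0 ≤ y) (hy2 : y ≤ 0.265) : ‖HH β (x + y * I) - 1‖ ≤ 0.05 := by
  refine le_epsJ (C := 0.8677) (N0 := 17.639) (J_boxp 0.7316 1.1654 0 0.265 0.265 1.2252 1.1952 1.72 0.9671 0.5233 4.1999 17.639 0.9756 3.963 1.561 0.9718 0.6125 0.4133 1.2587 3.4222 0.6833 1.4859 1.8973 1.6776 0.00002037 0.0006824 0.0000003101 0.0000003101 0.000005833 0.0000003101 0.0000003101 0.0000003101 0.8677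
    hβ hN hx1 hx2 hy1 hy2 (by norm_num) (by norm_num) (by linarith) (by norm_num) (by norm_num) (by norm_num) (by norm_num) (by norm_num) (by norm_num) (by norm_num) (by norm_num) (by norm_num) (by norm_num) (by norm_num) (by norm_num) (by norm_num) (by norm_num) (by norm_num) (by norm_num) (by norm_num) (by norm_num) (by norm_num) (by norm_num) (by norm_num)
    (cube_sqrt_geJ (s := 0.8214) (by norm_num) (by norm_num) (by norm_num) (by norm_num))
    (cube_sqrt_geJ (s := 0.9383) (by norm_num) (by norm_num) (by norm_num) (by norm_num))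
    (by norm_num) (by norm_num) (by norm_num) (by norm_num) (by norm_num) (by norm_num) (by norm_num) (by norm_num) (by norm_num) (by norm_num) (by norm_num) (by norm_num) (by norm_num) (by norm_num) (by norm_num) (by norm_num) (by norm_num) (by norm_num)
    (exp_neg_leJ (r := 0.803) 10 (by norm_num) (by norm_num) (by norm_num) (by norm_num))
    (exp_neg_leJ (r := 0.29) 7 (by norm_num) (by norm_num) (by norm_num) (by norm_num))
    (exp_neg_leJ (r := 0.99) 14 (by norm_num) (by norm_num) (by norm_num) (by norm_num))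
    (exp_neg_leJ (r := 0.99) 14 (by norm_num) (by norm_num) (by norm_num) (by norm_num))
    (exp_neg_leJ (r := 0.052) 12 (by norm_num) (by norm_num) (by norm_num) (by norm_num))
    (exp_neg_leJ (r := 0.99) 14 (by norm_num) (by norm_num) (by norm_num) (by norm_num))
    (exp_neg_leJ (r := 0.99) 14 (by norm_num) (by norm_num) (by norm_num) (by norm_num))
    (exp_neg_leJ (r := 0.99) 14 (by norm_num) (by norm_num) (by norm_num) (by norm_num))
    (by norm_num)) (by norm_num) hN hβ.le (by norm_num)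

private theorem JB8_S1_b4_1 {β x y : ℝ} (hβ : 0 < β) (hN : β * 17.639 ≤ 1) (hx1 : 0.7156 ≤ x) (hx2 : x ≤ 1.147)
    (hy1 : -0 ≤ y) (hy2 : y ≤ 0.28) : ‖HH β (x + y * I) - 1‖ ≤ 0.05 := by
  refine le_epsJ (C := 0.8734) (N0 := 17.639) (J_boxp 0.7156 1.147 0 0.28 0.28 1.2139 1.1807 1.7188 0.9803 0.5231 4.1999 17.639 0.9727 3.943 1.559 0.9789 0.6069 0.4101 1.2532 3.4318 0.674 1.4622 1.8009 1.6144 0.00002246 0.0007224 0.0000003101 0.0000003101 0.000006888 0.0000003101 0.0000003101 0.0000003101 0.8734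
    hβ hN hx1 hx2 hy1 hy2 (by norm_num) (by norm_num) (by linarith) (by norm_num) (by norm_num) (by norm_num) (by norm_num) (by norm_num) (by norm_num) (by norm_num) (by norm_num) (by norm_num) (by norm_num) (by norm_num) (by norm_num) (by norm_num) (by norm_num) (by norm_num) (by norm_num) (by norm_num) (by norm_num) (by norm_num) (by norm_num) (by norm_num)
    (cube_sqrt_geJ (s := 0.822) (by norm_num) (by norm_num) (by norm_num) (by norm_num))
    (cube_sqrt_geJ (s := 0.9385) (by norm_num) (by norm_num) (by norm_num) (by norm_num))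
    (by norm_num) (by norm_num) (by norm_num) (by norm_num) (by norm_num) (by norm_num) (by norm_num) (by norm_num) (by norm_num) (by norm_num) (by norm_num) (by norm_num) (by norm_num) (by norm_num) (by norm_num) (by norm_num) (by norm_num) (by norm_num)
    (exp_neg_leJ (r := 0.705) 10 (by norm_num) (by norm_num) (by norm_num) (by norm_num))
    (exp_neg_leJ (r := 0.233) 7 (by norm_num) (by norm_num) (by norm_num) (by norm_num))
    (exp_neg_leJ (r := 0.99) 14 (by norm_num) (by norm_num) (by norm_num) (by norm_num))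
    (exp_neg_leJ (r := 0.99) 14 (by norm_num) (by norm_num) (by norm_num) (by norm_num))
    (exp_neg_leJ (r := 0.888) 11 (by norm_num) (by norm_num) (by norm_num) (by norm_num))
    (exp_neg_leJ (r := 0.99) 14 (by norm_num) (by norm_num) (by norm_num) (by norm_num))
    (exp_neg_leJ (r := 0.99) 14 (by norm_num) (by norm_num) (by norm_num) (by norm_num))
    (exp_neg_leJ (r := 0.99) 14 (by norm_num) (by norm_num) (by norm_num) (by norm_num))
    (by norm_num)) (by norm_num) hN hβ.le (by norm_num)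

private theorem JB8_S1_b4_2 {β x y : ℝ} (hβ : 0 < β) (hN : β * 17.639 ≤ 1) (hx1 : 0.6993 ≤ x) (hx2 : x ≤ 1.1285)
    (hy1 : -0 ≤ y) (hy2 : y ≤ 0.295) : ‖HH β (x + y * I) - 1‖ ≤ 0.05 := by
  refine le_epsJ (C := 0.8806) (N0 := 17.639) (J_boxp 0.6993 1.1285 0 0.295 0.295 1.2024 1.1665 1.7178 0.9941 0.5229 4.1999 17.639 0.9702 3.926 1.557 0.986 0.6011 0.4067 1.2476 3.4413 0.6646 1.4381 1.704 1.5497 0.00002488 0.0007671 0.0000003101 0.0000003101 0.000008121 0.0000003101 0.0000003101 0.0000003101 0.8806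
    hβ hN hx1 hx2 hy1 hy2 (by norm_num) (by norm_num) (by linarith) (by norm_num) (by norm_num) (by norm_num) (by norm_num) (by norm_num) (by norm_num) (by norm_num) (by norm_num) (by norm_num) (by norm_num) (by norm_num) (by norm_num) (by norm_num) (by norm_num) (by norm_num) (by norm_num) (by norm_num) (by norm_num) (by norm_num) (by norm_num) (by norm_num)
    (cube_sqrt_geJ (s := 0.8225) (by norm_num) (by norm_num) (by norm_num) (by norm_num))
    (cube_sqrt_geJ (s := 0.9387) (by norm_num) (by norm_num) (by norm_num) (by norm_num))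
    (by norm_num) (by norm_num) (by norm_num) (by norm_num) (by norm_num) (by norm_num) (by norm_num) (by norm_num) (by norm_num) (by norm_num) (by norm_num) (by norm_num) (by norm_num) (by norm_num) (by norm_num) (by norm_num) (by norm_num) (by norm_num)
    (exp_neg_leJ (r := 0.602) 10 (by norm_num) (by norm_num) (by norm_num) (by norm_num))
    (exp_neg_leJ (r := 0.173) 7 (by norm_num) (by norm_num) (by norm_num) (by norm_num))
    (exp_neg_leJ (r := 0.99) 14 (by norm_num) (by norm_num) (by norm_num) (by norm_num))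
    (exp_neg_leJ (r := 0.99) 14 (by norm_num) (by norm_num) (by norm_num) (by norm_num))
    (exp_neg_leJ (r := 0.722) 11 (by norm_num) (by norm_num) (by norm_num) (by norm_num))
    (exp_neg_leJ (r := 0.99) 14 (by norm_num) (by norm_num) (by norm_num) (by norm_num))
    (exp_neg_leJ (r := 0.99) 14 (by norm_num) (by norm_num) (by norm_num) (by norm_num))
    (exp_neg_leJ (r := 0.99) 14 (by norm_num) (by norm_num) (by norm_num) (by norm_num))
    (by norm_num)) (by norm_num) hN hβ.le (by norm_num)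

private theorem JB8_S1_b4_3 {β x y : ℝ} (hβ : 0 < β) (hN : β * 17.639 ≤ 1) (hx1 : 0.6884 ≤ x) (hx2 : x ≤ 1.1099)
    (hy1 : -0 ≤ y) (hy2 : y ≤ 0.305) : ‖HH β (x + y * I) - 1‖ ≤ 0.05 := by
  refine le_epsJ (C := 0.8722) (N0 := 17.639) (J_boxp 0.6884 1.1099 0 0.305 0.305 1.1947 1.1511 1.7132 1.0024 0.5222 4.1999 17.639 0.9636 3.882 1.552 0.9932 0.5973 0.4054 1.2439 3.4512 0.6582 1.422 1.6393 1.5226 0.0000266 0.0007849 0.0000003101 0.0000003101 0.000009088 0.0000003101 0.0000003101 0.0000003101 0.8722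
    hβ hN hx1 hx2 hy1 hy2 (by norm_num) (by norm_num) (by linarith) (by norm_num) (by norm_num) (by norm_num) (by norm_num) (by norm_num) (by norm_num) (by norm_num) (by norm_num) (by norm_num) (by norm_num) (by norm_num) (by norm_num) (by norm_num) (by norm_num) (by norm_num) (by norm_num) (by norm_num) (by norm_num) (by norm_num) (by norm_num) (by norm_num)
    (cube_sqrt_geJ (s := 0.8238) (by norm_num) (by norm_num) (by norm_num) (by norm_num))
    (cube_sqrt_geJ (s := 0.9391) (by norm_num) (by norm_num) (by norm_num) (by norm_num))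
    (by norm_num) (by norm_num) (by norm_num) (by norm_num) (by norm_num) (by norm_num) (by norm_num) (by norm_num) (by norm_num) (by norm_num) (by norm_num) (by norm_num) (by norm_num) (by norm_num) (by norm_num) (by norm_num) (by norm_num) (by norm_num)
    (exp_neg_leJ (r := 0.535) 10 (by norm_num) (by norm_num) (by norm_num) (by norm_num))
    (exp_neg_leJ (r := 0.15) 7 (by norm_num) (by norm_num) (by norm_num) (by norm_num))
    (exp_neg_leJ (r := 0.99) 14 (by norm_num) (by norm_num) (by norm_num) (by norm_num))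
    (exp_neg_leJ (r := 0.99) 14 (by norm_num) (by norm_num) (by norm_num) (by norm_num))
    (exp_neg_leJ (r := 0.609) 11 (by norm_num) (by norm_num) (by norm_num) (by norm_num))
    (exp_neg_leJ (r := 0.99) 14 (by norm_num) (by norm_num) (by norm_num) (by norm_num))
    (exp_neg_leJ (r := 0.99) 14 (by norm_num) (by norm_num) (by norm_num) (by norm_num))
    (exp_neg_leJ (r := 0.99) 14 (by norm_num) (by norm_num) (by norm_num) (by norm_num))
    (by norm_num)) (by norm_num) hN hβ.le (by norm_num)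

private theorem JB8_S1_b4_4 {β x y : ℝ} (hβ : 0 < β) (hN : β * 17.639 ≤ 1) (hx1 : 0.6806 ≤ x) (hx2 : x ≤ 1.0975)
    (hy1 : -0 ≤ y) (hy2 : y ≤ 0.312) : ‖HH β (x + y * I) - 1‖ ≤ 0.05 := by
  refine le_epsJ (C := 0.8679) (N0 := 17.639) (J_boxp 0.6806 1.0975 0 0.312 0.312 1.1892 1.141 1.7106 1.0086 0.5218 4.1999 17.639 0.9595 3.854 1.549 0.998 0.5945 0.4044 1.2412 3.4578 0.6537 1.4105 1.5937 1.5015 0.00002793 0.0007984 0.0000003101 0.0000003101 0.000009834 0.0000003101 0.0000003101 0.0000003101 0.8679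
    hβ hN hx1 hx2 hy1 hy2 (by norm_num) (by norm_num) (by linarith) (by norm_num) (by norm_num) (by norm_num) (by norm_num) (by norm_num) (by norm_num) (by norm_num) (by norm_num) (by norm_num) (by norm_num) (by norm_num) (by norm_num) (by norm_num) (by norm_num) (by norm_num) (by norm_num) (by norm_num) (by norm_num) (by norm_num) (by norm_num) (by norm_num)
    (cube_sqrt_geJ (s := 0.8247) (by norm_num) (by norm_num) (by norm_num) (by norm_num))
    (cube_sqrt_geJ (s := 0.9394) (by norm_num) (by norm_num) (by norm_num) (by norm_num))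
    (by norm_num) (by norm_num) (by norm_num) (by norm_num) (by norm_num) (by norm_num) (by norm_num) (by norm_num) (by norm_num) (by norm_num) (by norm_num) (by norm_num) (by norm_num) (by norm_num) (by norm_num) (by norm_num) (by norm_num) (by norm_num)
    (exp_neg_leJ (r := 0.486) 10 (by norm_num) (by norm_num) (by norm_num) (by norm_num))
    (exp_neg_leJ (r := 0.133) 7 (by norm_num) (by norm_num) (by norm_num) (by norm_num))
    (exp_neg_leJ (r := 0.99) 14 (by norm_num) (by norm_num) (by norm_num) (by norm_num))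
    (exp_neg_leJ (r := 0.99) 14 (by norm_num) (by norm_num) (by norm_num) (by norm_num))
    (exp_neg_leJ (r := 0.53) 11 (by norm_num) (by norm_num) (by norm_num) (by norm_num))
    (exp_neg_leJ (r := 0.99) 14 (by norm_num) (by norm_num) (by norm_num) (by norm_num))
    (exp_neg_leJ (r := 0.99) 14 (by norm_num) (by norm_num) (by norm_num) (by norm_num))
    (exp_neg_leJ (r := 0.99) 14 (by norm_num) (by norm_num) (by norm_num) (by norm_num))
    (by norm_num)) (by norm_num) hN hβ.le (by norm_num)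

private theorem JB8_S1_c4 {κ t β : ℝ} (h : DomR κ t) (hβ : 0 < β) (hk1 : 1 ≤ κ) (hk2 : κ ≤ 1.25)
    (ht1 : 0.33 ≤ t + κ) (ht2 : t + κ ≤ 0.471) (hR0 : β * 10 ≤ κ) (hR : β * (8.82 * (1 + κ ^ 2)) ≤ κ) :
    ∀ s : ℂ, ‖s - sg κ t‖ ≤ 0.1 → ‖HH β s - 1‖ ≤ 0.05 := by
  have hN : β * 17.639 ≤ 1 := bNC' hβ hk1 (by norm_num) (by norm_num) hR (by norm_num)
  have hy1 : 0.15 ≤ sy κ t := syR_ge h 1 1.25 0.33 0.15 1.16183 1.16184 0.13941 0.17428 hk1 hk2 (by linarith) (by norm_num) (by norm_num)
    (expn_ge (by norm_num) (by norm_num)) (expn_le (by norm_num) (by norm_num) (by norm_num)) (by norm_num)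
    (by norm_num) (by norm_num) (by norm_num) (by norm_num) (by norm_num) (by norm_num)
  have hy2 : sy κ t ≤ 0.212 := syR_le h 1 1.25 0.471 0.212 1.23614 0.2096 0.20964 0.26207 hk1 hk2 (by linarith) (by norm_num) (by norm_num)
    (expn_ge (by norm_num) (by norm_num)) (by norm_num) (by norm_num) (Or.inr ((mul_le_mul_of_nonneg_left (expn_le (E := 1.23615) (by norm_num) (by norm_num) (by norm_num)) (by norm_num)).trans (by norm_num))) (by norm_num) (by norm_num) (by norm_num)
  intro s hs
  have hs' : ‖s - ((sx κ t : ℂ) + (sy κ t : ℂ) * I)‖ ≤ 0.1 := hs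
  obtain ⟨es, ⟨s1, s2⟩, ⟨s3, s4⟩⟩ := disc_split hs'
  rcases le_total (sy κ t) 0.165 with f0 | g0
  · have hx1 : 0.8316 ≤ sx κ t := sx_lo h 1 0.165 0.165 0.84789 0.8316 hk1 (by norm_num) f0 (abs_le.2 ⟨by linarith, by linarith⟩) (expm_ge (by norm_num) (by norm_num) (by norm_num) (by norm_num)) (by norm_num) (by norm_num)
    have hx2 : sx κ t ≤ 1.0654 := sx_hi h 1.25 0.15 0.15 0.86071 1.0654 hk2 hy1 (by norm_num) (by rw [abs_of_nonneg (by linarith)]; linarith) (expm_le (by norm_num) (by norm_num) (by norm_num)) (by norm_num) (by norm_num)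
    rw [es]
    exact JB8_S1_b4_0 hβ hN (by linarith) (by linarith) (by linarith) (by linarith)
  rcases le_total (sy κ t) 0.18 with f1 | g1
  · have hx1 : 0.8156 ≤ sx κ t := sx_lo h 1 0.18 0.18 0.83527 0.8156 hk1 (by norm_num) f1 (abs_le.2 ⟨by linarith, by linarith⟩) (expm_ge (by norm_num) (by norm_num) (by norm_num) (by norm_num)) (by norm_num) (by norm_num)
    have hx2 : sx κ t ≤ 1.047 := sx_hi h 1.25 0.165 0.165 0.8479 1.047 hk2 g0 (by norm_num) (by rw [abs_of_nonneg (by linarith)]; linarith) (expm_le (by norm_num) (by norm_num) (by norm_num)) (by norm_num) (by norm_num)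
    rw [es]
    exact JB8_S1_b4_1 hβ hN (by linarith) (by linarith) (by linarith) (by linarith)
  rcases le_total (sy κ t) 0.195 with f2 | g2
  · have hx1 : 0.7993 ≤ sx κ t := sx_lo h 1 0.195 0.195 0.82283 0.7993 hk1 (by norm_num) f2 (abs_le.2 ⟨by linarith, by linarith⟩) (expm_ge (by norm_num) (by norm_num) (by norm_num) (by norm_num)) (by norm_num) (by norm_num)
    have hx2 : sx κ t ≤ 1.0285 := sx_hi h 1.25 0.18 0.18 0.83528 1.0285 hk2 g1 (by norm_num) (by rw [abs_of_nonneg (by linarith)]; linarith) (expm_le (by norm_num) (by norm_num) (by norm_num)) (by norm_num) (by norm_num)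
    rw [es]
    exact JB8_S1_b4_2 hβ hN (by linarith) (by linarith) (by linarith) (by linarith)
  rcases le_total (sy κ t) 0.205 with f3 | g3
  · have hx1 : 0.7884 ≤ sx κ t := sx_lo h 1 0.205 0.205 0.81464 0.7884 hk1 (by norm_num) f3 (abs_le.2 ⟨by linarith, by linarith⟩) (expm_ge (by norm_num) (by norm_num) (by norm_num) (by norm_num)) (by norm_num) (by norm_num)
    have hx2 : sx κ t ≤ 1.0099 := sx_hi h 1.25 0.195 0.195 0.82284 1.0099 hk2 g2 (by norm_num) (by rw [abs_of_nonneg (by linarith)]; linarith) (expm_le (by norm_num) (by norm_num) (by norm_num)) (by norm_num) (by norm_num)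
    rw [es]
    exact JB8_S1_b4_3 hβ hN (by linarith) (by linarith) (by linarith) (by linarith)
  have hx1 : 0.7806 ≤ sx κ t := sx_lo h 1 0.212 0.212 0.80896 0.7806 hk1 (by norm_num) hy2 (abs_le.2 ⟨by linarith, by linarith⟩) (expm_ge (by norm_num) (by norm_num) (by norm_num) (by norm_num)) (by norm_num) (by norm_num)
  have hx2 : sx κ t ≤ 0.9975 := sx_hi h 1.25 0.205 0.205 0.81465 0.9975 hk2 g3 (by norm_num) (by rw [abs_of_nonneg (by linarith)]; linarith) (expm_le (by norm_num) (by norm_num) (by norm_num)) (by norm_num) (by norm_num)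
  rw [es]
  exact JB8_S1_b4_4 hβ hN (by linarith) (by linarith) (by linarith) (by linarith)

private theorem JB8_S1_b5_0 {β x y : ℝ} (hβ : 0 < β) (hN : β * 18.08 ≤ 1) (hx1 : 0.8887 ≤ x) (hx2 : x ≤ 1.287)
    (hy1 : -0 ≤ y) (hy2 : y ≤ 0.312) : ‖HH β (x + y * I) - 1‖ ≤ 0.05 := by
  refine le_epsJ (C := 0.8151) (N0 := 18.08) (J_boxp 0.8887 1.287 0 0.312 0.312 1.3358 1.3243 1.8379 0.8782 0.5409 4.2521 18.08 0.9914 4.073 1.573 0.9251 0.6678 0.4471 1.3124 3.3499 0.7548 1.6986 2.0099 1.4194 0.000005712 0.0003088 0.0000003101 0.0000003101 0.000001186 0.0000003101 0.0000003101 0.0000003101 0.8151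
    hβ hN hx1 hx2 hy1 hy2 (by norm_num) (by norm_num) (by linarith) (by norm_num) (by norm_num) (by norm_num) (by norm_num) (by norm_num) (by norm_num) (by norm_num) (by norm_num) (by norm_num) (by norm_num) (by norm_num) (by norm_num) (by norm_num) (by norm_num) (by norm_num) (by norm_num) (by norm_num) (by norm_num) (by norm_num) (by norm_num) (by norm_num)
    (cube_sqrt_geJ (s := 0.8182) (by norm_num) (by norm_num) (by norm_num) (by norm_num))
    (cube_sqrt_geJ (s := 0.9373) (by norm_num) (by norm_num) (by norm_num) (by norm_num))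
    (by norm_num) (by norm_num) (by norm_num) (by norm_num) (by norm_num) (by norm_num) (by norm_num) (by norm_num) (by norm_num) (by norm_num) (by norm_num) (by norm_num) (by norm_num) (by norm_num) (by norm_num) (by norm_num) (by norm_num) (by norm_num)
    (exp_neg_leJ (r := 0.073) 12 (by norm_num) (by norm_num) (by norm_num) (by norm_num))
    (exp_neg_leJ (r := 0.083) 8 (by norm_num) (by norm_num) (by norm_num) (by norm_num))
    (exp_neg_leJ (r := 0.99) 14 (by norm_num) (by norm_num) (by norm_num) (by norm_num))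
    (exp_neg_leJ (r := 0.99) 14 (by norm_num) (by norm_num) (by norm_num) (by norm_num))
    (exp_neg_leJ (r := 0.646) 13 (by norm_num) (by norm_num) (by norm_num) (by norm_num))
    (exp_neg_leJ (r := 0.99) 14 (by norm_num) (by norm_num) (by norm_num) (by norm_num))
    (exp_neg_leJ (r := 0.99) 14 (by norm_num) (by norm_num) (by norm_num) (by norm_num))
    (exp_neg_leJ (r := 0.99) 14 (by norm_num) (by norm_num) (by norm_num) (by norm_num))
    (by norm_num)) (by norm_num) hN hβ.le (by norm_num)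

private theorem JB8_S1_c5 {κ t β : ℝ} (h : DomR κ t) (hβ : 0 < β) (hk1 : 1.25 ≤ κ) (hk2 : κ ≤ 1.39)
    (ht1 : 0.33 ≤ t + κ) (ht2 : t + κ ≤ 0.471) (hR0 : β * 10 ≤ κ) (hR : β * (8.82 * (1 + κ ^ 2)) ≤ κ) :
    ∀ s : ℂ, ‖s - sg κ t‖ ≤ 0.1 → ‖HH β s - 1‖ ≤ 0.05 := by
  have hN : β * 18.08 ≤ 1 := bNC' hβ hk1 (by norm_num) (by norm_num) hR (by norm_num)
  have hy1 : 0.15 ≤ sy κ t := syR_ge h 1.25 1.39 0.33 0.15 1.16183 1.16184 0.12537 0.13943 hk1 hk2 (by linarith) (by norm_num) (by norm_num)
    (expn_ge (by norm_num) (by norm_num)) (expn_le (by norm_num) (by norm_num) (by norm_num)) (by norm_num)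
    (by norm_num) (by norm_num) (by norm_num) (by norm_num) (by norm_num) (by norm_num)
  have hy2 : sy κ t ≤ 0.212 := syR_le h 1.25 1.39 0.471 0.212 1.23614 0.1938 0.18853 0.20966 hk1 hk2 (by linarith) (by norm_num) (by norm_num)
    (expn_ge (by norm_num) (by norm_num)) (by norm_num) (by norm_num) (Or.inr ((mul_le_mul_of_nonneg_left (expn_le (E := 1.23615) (by norm_num) (by norm_num) (by norm_num)) (by norm_num)).trans (by norm_num))) (by norm_num) (by norm_num) (by norm_num)
  intro s hs
  have hs' : ‖s - ((sx κ t : ℂ) + (sy κ t : ℂ) * I)‖ ≤ 0.1 := hs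
  obtain ⟨es, ⟨s1, s2⟩, ⟨s3, s4⟩⟩ := disc_split hs'
  have hx1 : 0.9887 ≤ sx κ t := sx_lo h 1.25 0.212 0.212 0.80896 0.9887 hk1 (by norm_num) hy2 (abs_le.2 ⟨by linarith, by linarith⟩) (expm_ge (by norm_num) (by norm_num) (by norm_num) (by norm_num)) (by norm_num) (by norm_num)
  have hx2 : sx κ t ≤ 1.187 := sx_hi h 1.39 0.15 0.15 0.86071 1.187 hk2 hy1 (by norm_num) (by rw [abs_of_nonneg (by linarith)]; linarith) (expm_le (by norm_num) (by norm_num) (by norm_num)) (by norm_num) (by norm_num)
  rw [es]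
  exact JB8_S1_b5_0 hβ hN (by linarith) (by linarith) (by linarith) (by linarith)

theorem JB8_S1 {κ t β : ℝ} (h : DomR κ t) (hβ : 0 < β) (hk1 : 0.24 ≤ κ) (hk2 : κ ≤ 1.39)
    (ht1 : 0.33 ≤ t + κ) (ht2 : t + κ ≤ 0.471) (hR0 : β * 10 ≤ κ) (hR : β * (8.82 * (1 + κ ^ 2)) ≤ κ) :
    ∀ s : ℂ, ‖s - sg κ t‖ ≤ 0.1 → ‖HH β s - 1‖ ≤ 0.05 := by
  rcases le_total κ 0.35 with f0 | g0
  · exact JB8_S1_c0 h hβ hk1 f0 ht1 ht2 hR0 hR
  rcases le_total κ 0.61 with f1 | g1
  · exact JB8_S1_c1 h hβ g0 f1 ht1 ht2 hR0 hR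
  rcases le_total κ 0.85 with f2 | g2
  · exact JB8_S1_c2 h hβ g1 f2 ht1 ht2 hR0 hR
  rcases le_total κ 1 with f3 | g3
  · exact JB8_S1_c3 h hβ g2 f3 ht1 ht2 hR0 hR
  rcases le_total κ 1.25 with f4 | g4
  · exact JB8_S1_c4 h hβ g3 f4 ht1 ht2 hR0 hR
  exact JB8_S1_c5 h hβ g4 hk2 ht1 ht2 hR0 hR

private theorem JB8_S0_b0_0 {β x y : ℝ} (hβ : 0 < β) (hN : β * 26.562 ≤ 1) (hx1 : 0.1132 ≤ x) (hx2 : x ≤ 0.5267)
    (hy1 : -0.287 ≤ y) (hy2 : y ≤ -0.067) : ‖HH β (x + y * I) - 1‖ ≤ 0.1 := by
  refine le_epsJ (C := 2.608) (N0 := 26.562) (J_boxp 0.1132 0.5267 0.287 0 (-0.067) 0.5859 0.5999 1.0715 2.3082 0.413 5.1539 26.562 1.0239 4.312 1.599 0.9526 0.2929 0.1929 0.594 2.879 0.2532 0.6567 1.0169 3.3077 0.0004186 0.005959 0.0000003101 0.0000003101 0.001202 0.0000003101 0.0000003101 0.0000003101 2.608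
    hβ hN hx1 hx2 hy1 hy2 (by norm_num) (by norm_num) (by linarith) (by norm_num) (by norm_num) (by norm_num) (by norm_num) (by norm_num) (by norm_num) (by norm_num) (by norm_num) (by norm_num) (by norm_num) (by norm_num) (by norm_num) (by norm_num) (by norm_num) (by norm_num) (by norm_num) (by norm_num) (by norm_num) (by norm_num) (by norm_num) (by norm_num)
    (cube_sqrt_geJ (s := 0.8116) (by norm_num) (by norm_num) (by norm_num) (by norm_num))
    (cube_sqrt_geJ (s := 0.9352) (by norm_num) (by norm_num) (by norm_num) (by norm_num))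
    (by norm_num) (by norm_num) (by norm_num) (by norm_num) (by norm_num) (by norm_num) (by norm_num) (by norm_num) (by norm_num) (by norm_num) (by norm_num) (by norm_num) (by norm_num) (by norm_num) (by norm_num) (by norm_num) (by norm_num) (by norm_num)
    (exp_neg_leJ (r := 0.78) 7 (by norm_num) (by norm_num) (by norm_num) (by norm_num))
    (exp_neg_leJ (r := 0.123) 5 (by norm_num) (by norm_num) (by norm_num) (by norm_num))
    (exp_neg_leJ (r := 0.99) 14 (by norm_num) (by norm_num) (by norm_num) (by norm_num))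
    (exp_neg_leJ (r := 0.99) 14 (by norm_num) (by norm_num) (by norm_num) (by norm_num))
    (exp_neg_leJ (r := 0.725) 6 (by norm_num) (by norm_num) (by norm_num) (by norm_num))
    (exp_neg_leJ (r := 0.99) 14 (by norm_num) (by norm_num) (by norm_num) (by norm_num))
    (exp_neg_leJ (r := 0.99) 14 (by norm_num) (by norm_num) (by norm_num) (by norm_num))
    (exp_neg_leJ (r := 0.99) 14 (by norm_num) (by norm_num) (by norm_num) (by norm_num))
    (by norm_num)) (by norm_num) hN hβ.le (by norm_num)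

private theorem JB8_S0_b0_1 {β x y : ℝ} (hβ : 0 < β) (hN : β * 26.562 ≤ 1) (hx1 : 0.0999 ≤ x) (hx2 : x ≤ 0.5416)
    (hy1 : -0.267 ≤ y) (hy2 : y ≤ 0.018) : ‖HH β (x + y * I) - 1‖ ≤ 0.1 := by
  refine le_epsJ (C := 2.6491) (N0 := 26.562) (J_boxp 0.0999 0.5416 0.267 0.018 0.018 0.5908 0.6039 1.1532 2.3648 0.4285 5.1539 26.562 1.0222 4.299 1.597 0.9653 0.2953 0.1947 0.621 2.9361 0.2558 0.6364 0.9675 3.1855 0.0003932 0.005679 0.0000003101 0.0000003101 0.001123 0.0000003101 0.0000003101 0.0000003101 2.6491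
    hβ hN hx1 hx2 hy1 hy2 (by norm_num) (by norm_num) (by linarith) (by norm_num) (by norm_num) (by norm_num) (by norm_num) (by norm_num) (by norm_num) (by norm_num) (by norm_num) (by norm_num) (by norm_num) (by norm_num) (by norm_num) (by norm_num) (by norm_num) (by norm_num) (by norm_num) (by norm_num) (by norm_num) (by norm_num) (by norm_num) (by norm_num)
    (cube_sqrt_geJ (s := 0.8119) (by norm_num) (by norm_num) (by norm_num) (by norm_num))
    (cube_sqrt_geJ (s := 0.9353) (by norm_num) (by norm_num) (by norm_num) (by norm_num))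
    (by norm_num) (by norm_num) (by norm_num) (by norm_num) (by norm_num) (by norm_num) (by norm_num) (by norm_num) (by norm_num) (by norm_num) (by norm_num) (by norm_num) (by norm_num) (by norm_num) (by norm_num) (by norm_num) (by norm_num) (by norm_num)
    (exp_neg_leJ (r := 0.843) 7 (by norm_num) (by norm_num) (by norm_num) (by norm_num))
    (exp_neg_leJ (r := 0.171) 5 (by norm_num) (by norm_num) (by norm_num) (by norm_num))
    (exp_neg_leJ (r := 0.99) 14 (by norm_num) (by norm_num) (by norm_num) (by norm_num))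
    (exp_neg_leJ (r := 0.99) 14 (by norm_num) (by norm_num) (by norm_num) (by norm_num))
    (exp_neg_leJ (r := 0.794) 6 (by norm_num) (by norm_num) (by norm_num) (by norm_num))
    (exp_neg_leJ (r := 0.99) 14 (by norm_num) (by norm_num) (by norm_num) (by norm_num))
    (exp_neg_leJ (r := 0.99) 14 (by norm_num) (by norm_num) (by norm_num) (by norm_num))
    (exp_neg_leJ (r := 0.99) 14 (by norm_num) (by norm_num) (by norm_num) (by norm_num))
    (by norm_num)) (by norm_num) hN hβ.le (by norm_num)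

private theorem JB8_S0_b0_2 {β x y : ℝ} (hβ : 0 < β) (hN : β * 26.562 ≤ 1) (hx1 : 0.1461 ≤ x) (hx2 : x ≤ 0.5051)
    (hy1 : -0.182 ≤ y) (hy2 : y ≤ 0.022) : ‖HH β (x + y * I) - 1‖ ≤ 0.1 := by
  refine le_epsJ (C := 1.0118) (N0 := 26.562) (J_boxp 0.1461 0.5051 0.182 0.022 0.022 0.6837 0.5369 1.1401 1.8888 0.426 5.1539 26.562 0.7853 2.893 1.425 1.0578 0.3418 0.2523 0.771 3.2322 0.3243 0.7 1.2738 3.4411 0.0001142 0.001231 0.0000003101 0.0000003101 0.0001817 0.0000003101 0.0000003101 0.0000003101 1.0118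
    hβ hN hx1 hx2 hy1 hy2 (by norm_num) (by norm_num) (by linarith) (by norm_num) (by norm_num) (by norm_num) (by norm_num) (by norm_num) (by norm_num) (by norm_num) (by norm_num) (by norm_num) (by norm_num) (by norm_num) (by norm_num) (by norm_num) (by norm_num) (by norm_num) (by norm_num) (by norm_num) (by norm_num) (by norm_num) (by norm_num) (by norm_num)
    (cube_sqrt_geJ (s := 0.8592) (by norm_num) (by norm_num) (by norm_num) (by norm_num))
    (cube_sqrt_geJ (s := 0.9507) (by norm_num) (by norm_num) (by norm_num) (by norm_num))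
    (by norm_num) (by norm_num) (by norm_num) (by norm_num) (by norm_num) (by norm_num) (by norm_num) (by norm_num) (by norm_num) (by norm_num) (by norm_num) (by norm_num) (by norm_num) (by norm_num) (by norm_num) (by norm_num) (by norm_num) (by norm_num)
    (exp_neg_leJ (r := 0.078) 9 (by norm_num) (by norm_num) (by norm_num) (by norm_num))
    (exp_neg_leJ (r := 0.701) 6 (by norm_num) (by norm_num) (by norm_num) (by norm_num))
    (exp_neg_leJ (r := 0.99) 14 (by norm_num) (by norm_num) (by norm_num) (by norm_num))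
    (exp_neg_leJ (r := 0.99) 14 (by norm_num) (by norm_num) (by norm_num) (by norm_num))
    (exp_neg_leJ (r := 0.614) 8 (by norm_num) (by norm_num) (by norm_num) (by norm_num))
    (exp_neg_leJ (r := 0.99) 14 (by norm_num) (by norm_num) (by norm_num) (by norm_num))
    (exp_neg_leJ (r := 0.99) 14 (by norm_num) (by norm_num) (by norm_num) (by norm_num))
    (exp_neg_leJ (r := 0.99) 14 (by norm_num) (by norm_num) (by norm_num) (by norm_num))
    (by norm_num)) (by norm_num) hN hβ.le (by norm_num)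

private theorem JB8_S0_c0 {κ t β : ℝ} (h : DomR κ t) (hβ : 0 < β) (hk1 : 0.24 ≤ κ) (hk2 : κ ≤ 0.38)
    (ht1 : -0.4555 ≤ t + κ) (ht2 : t + κ ≤ -0.314) (hR0 : β * 10 ≤ κ) (hR : β * (8.82 * (1 + κ ^ 2)) ≤ κ) :
    ∀ s : ℂ, ‖s - sg κ t‖ ≤ 0.1 → ‖HH β s - 1‖ ≤ 0.1 := by
  have hN : β * 26.562 ≤ 1 := bNC hβ h.1 hk2 (by norm_num) (by norm_num) hR (by norm_num)
  have hy1 : -0.187 ≤ sy κ t := syL_ge h 0.24 0.38 0.4555 0.187 0.82944 0.82945 0.3883 0.40817 0.64628 hk1 hk2 (by linarith) (by norm_num) (by norm_num) (by norm_num)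
    (expm_ge (by norm_num) (by norm_num) (by norm_num) (by norm_num)) (expm_le (by norm_num) (by norm_num) (by norm_num)) (by norm_num)
    (by norm_num) (by norm_num) (by norm_num) (by norm_num) (by norm_num) (by norm_num)
  have hy2 : sy κ t ≤ -0.078 := syL_le h 0.24 0.38 0.314 0.078 0.92496 0.92497 0.18986 0.30062 hk1 hk2 (by linarith) (by norm_num) (by norm_num) (by norm_num)
    (expm_ge (by norm_num) (by norm_num) (by norm_num) (by norm_num)) (expm_le (by norm_num) (by norm_num) (by norm_num)) (by norm_num)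
    (by norm_num) (by norm_num) (by norm_num) (by norm_num) (by norm_num) (by norm_num)
  intro s hs
  have hs' : ‖s - ((sx κ t : ℂ) + (sy κ t : ℂ) * I)‖ ≤ 0.1 := hs
  obtain ⟨es, ⟨s1, s2⟩, ⟨s3, s4⟩⟩ := disc_split hs'
  rcases le_total (sy κ t) (-0.167) with f0 | g0
  · have hx1 : 0.2132 ≤ sx κ t := sx_lo h 0.24 (-0.167) 0.187 1.18175 0.2132 hk1 (by norm_num) f0 (abs_le.2 ⟨by linarith, by linarith⟩) (by rw [neg_neg]; exact expn_ge (by norm_num) (by norm_num)) (by norm_num) (by norm_num)
    have hx2 : sx κ t ≤ 0.4267 := sx_hi h 0.38 (-0.187) 0.167 1.20563 0.4267 hk2 hy1 (by norm_num) (by rw [abs_of_nonpos (by linarith)]; linarith) (by rw [neg_neg]; exact expn_le (by norm_num) (by norm_num) (by norm_num)) (by norm_num) (by norm_num)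
    rw [es]
    exact JB8_S0_b0_0 hβ hN (by linarith) (by linarith) (by linarith) (by linarith)
  rcases le_total (sy κ t) (-0.082) with f1 | g1
  · have hx1 : 0.1999 ≤ sx κ t := sx_lo h 0.24 (-0.082) 0.167 1.08545 0.1999 hk1 (by norm_num) f1 (abs_le.2 ⟨by linarith, by linarith⟩) (by rw [neg_neg]; exact expn_ge (by norm_num) (by norm_num)) (by norm_num) (by norm_num)
    have hx2 : sx κ t ≤ 0.4416 := sx_hi h 0.38 (-0.167) 0.082 1.18176 0.4416 hk2 g0 (by norm_num) (by rw [abs_of_nonpos (by linarith)]; linarith) (by rw [neg_neg]; exact expn_le (by norm_num) (by norm_num) (by norm_num)) (by norm_num) (by norm_num)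
    rw [es]
    exact JB8_S0_b0_1 hβ hN (by linarith) (by linarith) (by linarith) (by linarith)
  have hx1 : 0.2461 ≤ sx κ t := sx_lo h 0.24 (-0.078) 0.082 1.08112 0.2461 hk1 (by norm_num) hy2 (abs_le.2 ⟨by linarith, by linarith⟩) (by rw [neg_neg]; exact expn_ge (by norm_num) (by norm_num)) (by norm_num) (by norm_num)
  have hx2 : sx κ t ≤ 0.4051 := sx_hi h 0.38 (-0.082) 0.078 1.08546 0.4051 hk2 g1 (by norm_num) (by rw [abs_of_nonpos (by linarith)]; linarith) (by rw [neg_neg]; exact expn_le (by norm_num) (by norm_num) (by norm_num)) (by norm_num) (by norm_num)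
  rw [es]
  exact JB8_S0_b0_2 hβ hN (by linarith) (by linarith) (by linarith) (by linarith)

private theorem JB8_S0_b1_0 {β x y : ℝ} (hβ : 0 < β) (hN : β * 22.608 ≤ 1) (hx1 : 0.3086 ≤ x) (hx2 : x ≤ 0.6646)
    (hy1 : -0.323 ≤ y) (hy2 : y ≤ -0.103) : ‖HH β (x + y * I) - 1‖ ≤ 0.1 := by
  refine le_epsJ (C := 2.2249) (N0 := 22.608) (J_boxp 0.3086 0.6646 0.323 0 (-0.103) 0.698 0.739 1.1164 1.8119 0.4216 4.7548 22.608 1.0588 4.589 1.626 0.8663 0.3489 0.2258 0.604 2.686 0.3284 0.9272 1.3098 3.3204 0.0003765 0.006073 0.000001175 0.0000003101 0.0005969 0.0000003101 0.0000003101 0.0000003101 2.2249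
    hβ hN hx1 hx2 hy1 hy2 (by norm_num) (by norm_num) (by linarith) (by norm_num) (by norm_num) (by norm_num) (by norm_num) (by norm_num) (by norm_num) (by norm_num) (by norm_num) (by norm_num) (by norm_num) (by norm_num) (by norm_num) (by norm_num) (by norm_num) (by norm_num) (by norm_num) (by norm_num) (by norm_num) (by norm_num) (by norm_num) (by norm_num)
    (cube_sqrt_geJ (s := 0.8044) (by norm_num) (by norm_num) (by norm_num) (by norm_num))
    (cube_sqrt_geJ (s := 0.9329) (by norm_num) (by norm_num) (by norm_num) (by norm_num))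
    (by norm_num) (by norm_num) (by norm_num) (by norm_num) (by norm_num) (by norm_num) (by norm_num) (by norm_num) (by norm_num) (by norm_num) (by norm_num) (by norm_num) (by norm_num) (by norm_num) (by norm_num) (by norm_num) (by norm_num) (by norm_num)
    (exp_neg_leJ (r := 0.887) 7 (by norm_num) (by norm_num) (by norm_num) (by norm_num))
    (exp_neg_leJ (r := 0.104) 5 (by norm_num) (by norm_num) (by norm_num) (by norm_num))
    (exp_neg_leJ (r := 0.655) 13 (by norm_num) (by norm_num) (by norm_num) (by norm_num))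
    (exp_neg_leJ (r := 0.99) 14 (by norm_num) (by norm_num) (by norm_num) (by norm_num))
    (exp_neg_leJ (r := 0.424) 7 (by norm_num) (by norm_num) (by norm_num) (by norm_num))
    (exp_neg_leJ (r := 0.99) 14 (by norm_num) (by norm_num) (by norm_num) (by norm_num))
    (exp_neg_leJ (r := 0.99) 14 (by norm_num) (by norm_num) (by norm_num) (by norm_num))
    (exp_neg_leJ (r := 0.99) 14 (by norm_num) (by norm_num) (by norm_num) (by norm_num))
    (by norm_num)) (by norm_num) hN hβ.le (by norm_num)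

private theorem JB8_S0_b1_1 {β x y : ℝ} (hβ : 0 < β) (hN : β * 22.608 ≤ 1) (hx1 : 0.2885 ≤ x) (hx2 : x ≤ 0.6704)
    (hy1 : -0.303 ≤ y) (hy2 : y ≤ -0.043) : ‖HH β (x + y * I) - 1‖ ≤ 0.1 := by
  refine le_epsJ (C := 2.2469) (N0 := 22.608) (J_boxp 0.2885 0.6704 0.303 0 (-0.043) 0.698 0.7357 1.1685 1.8537 0.4313 4.7548 22.608 1.0541 4.551 1.623 0.8825 0.3489 0.2263 0.6287 2.7479 0.3296 0.8994 1.324 3.2892 0.0003765 0.006001 0.0000006721 0.0000003101 0.000581 0.0000003101 0.0000003101 0.0000003101 2.2469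
    hβ hN hx1 hx2 hy1 hy2 (by norm_num) (by norm_num) (by linarith) (by norm_num) (by norm_num) (by norm_num) (by norm_num) (by norm_num) (by norm_num) (by norm_num) (by norm_num) (by norm_num) (by norm_num) (by norm_num) (by norm_num) (by norm_num) (by norm_num) (by norm_num) (by norm_num) (by norm_num) (by norm_num) (by norm_num) (by norm_num) (by norm_num)
    (cube_sqrt_geJ (s := 0.8053) (by norm_num) (by norm_num) (by norm_num) (by norm_num))
    (cube_sqrt_geJ (s := 0.9332) (by norm_num) (by norm_num) (by norm_num) (by norm_num))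
    (by norm_num) (by norm_num) (by norm_num) (by norm_num) (by norm_num) (by norm_num) (by norm_num) (by norm_num) (by norm_num) (by norm_num) (by norm_num) (by norm_num) (by norm_num) (by norm_num) (by norm_num) (by norm_num) (by norm_num) (by norm_num)
    (exp_neg_leJ (r := 0.887) 7 (by norm_num) (by norm_num) (by norm_num) (by norm_num))
    (exp_neg_leJ (r := 0.116) 5 (by norm_num) (by norm_num) (by norm_num) (by norm_num))
    (exp_neg_leJ (r := 0.213) 14 (by norm_num) (by norm_num) (by norm_num) (by norm_num))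
    (exp_neg_leJ (r := 0.99) 14 (by norm_num) (by norm_num) (by norm_num) (by norm_num))
    (exp_neg_leJ (r := 0.451) 7 (by norm_num) (by norm_num) (by norm_num) (by norm_num))
    (exp_neg_leJ (r := 0.99) 14 (by norm_num) (by norm_num) (by norm_num) (by norm_num))
    (exp_neg_leJ (r := 0.99) 14 (by norm_num) (by norm_num) (by norm_num) (by norm_num))
    (exp_neg_leJ (r := 0.99) 14 (by norm_num) (by norm_num) (by norm_num) (by norm_num))
    (by norm_num)) (by norm_num) hN hβ.le (by norm_num)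

private theorem JB8_S0_b1_2 {β x y : ℝ} (hβ : 0 < β) (hN : β * 22.608 ≤ 1) (hx1 : 0.3034 ≤ x) (hx2 : x ≤ 0.6409)
    (hy1 : -0.243 ≤ y) (hy2 : y ≤ -0.019) : ‖HH β (x + y * I) - 1‖ ≤ 0.1 := by
  refine le_epsJ (C := 1.3182) (N0 := 22.608) (J_boxp 0.3034 0.6409 0.243 0 (-0.019) 0.7511 0.6855 1.1718 1.663 0.4319 4.7548 22.608 0.9127 3.56 1.515 0.9493 0.3755 0.2612 0.7285 2.9588 0.3696 0.92 1.5169 3.4555 0.0002058 0.002733 0.0000003101 0.0000003101 0.0002353 0.0000003101 0.0000003101 0.0000003101 1.3182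
    hβ hN hx1 hx2 hy1 hy2 (by norm_num) (by norm_num) (by linarith) (by norm_num) (by norm_num) (by norm_num) (by norm_num) (by norm_num) (by norm_num) (by norm_num) (by norm_num) (by norm_num) (by norm_num) (by norm_num) (by norm_num) (by norm_num) (by norm_num) (by norm_num) (by norm_num) (by norm_num) (by norm_num) (by norm_num) (by norm_num) (by norm_num)
    (cube_sqrt_geJ (s := 0.8341) (by norm_num) (by norm_num) (by norm_num) (by norm_num))
    (cube_sqrt_geJ (s := 0.9424) (by norm_num) (by norm_num) (by norm_num) (by norm_num))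
    (by norm_num) (by norm_num) (by norm_num) (by norm_num) (by norm_num) (by norm_num) (by norm_num) (by norm_num) (by norm_num) (by norm_num) (by norm_num) (by norm_num) (by norm_num) (by norm_num) (by norm_num) (by norm_num) (by norm_num) (by norm_num)
    (exp_neg_leJ (r := 0.489) 8 (by norm_num) (by norm_num) (by norm_num) (by norm_num))
    (exp_neg_leJ (r := 0.905) 5 (by norm_num) (by norm_num) (by norm_num) (by norm_num))
    (exp_neg_leJ (r := 0.99) 14 (by norm_num) (by norm_num) (by norm_num) (by norm_num))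
    (exp_neg_leJ (r := 0.99) 14 (by norm_num) (by norm_num) (by norm_num) (by norm_num))
    (exp_neg_leJ (r := 0.355) 8 (by norm_num) (by norm_num) (by norm_num) (by norm_num))
    (exp_neg_leJ (r := 0.99) 14 (by norm_num) (by norm_num) (by norm_num) (by norm_num))
    (exp_neg_leJ (r := 0.99) 14 (by norm_num) (by norm_num) (by norm_num) (by norm_num))
    (exp_neg_leJ (r := 0.99) 14 (by norm_num) (by norm_num) (by norm_num) (by norm_num))
    (by norm_num)) (by norm_num) hN hβ.le (by norm_num)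

private theorem JB8_S0_c1 {κ t β : ℝ} (h : DomR κ t) (hβ : 0 < β) (hk1 : 0.38 ≤ κ) (hk2 : κ ≤ 0.48)
    (ht1 : -0.4555 ≤ t + κ) (ht2 : t + κ ≤ -0.314) (hR0 : β * 10 ≤ κ) (hR : β * (8.82 * (1 + κ ^ 2)) ≤ κ) :
    ∀ s : ℂ, ‖s - sg κ t‖ ≤ 0.1 → ‖HH β s - 1‖ ≤ 0.1 := by
  have hN : β * 22.608 ≤ 1 := bNC hβ h.1 hk2 (by norm_num) (by norm_num) hR (by norm_num)
  have hy1 : -0.223 ≤ sy κ t := syL_ge h 0.38 0.48 0.4555 0.223 0.80011 0.80012 0.3554 0.37171 0.46955 hk1 hk2 (by linarith) (by norm_num) (by norm_num) (by norm_num)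
    (expm_ge (by norm_num) (by norm_num) (by norm_num) (by norm_num)) (expm_le (by norm_num) (by norm_num) (by norm_num)) (by norm_num)
    (by norm_num) (by norm_num) (by norm_num) (by norm_num) (by norm_num) (by norm_num)
  have hy2 : sy κ t ≤ -0.119 := syL_le h 0.38 0.48 0.314 0.119 0.8878 0.88781 0.2201 0.27803 hk1 hk2 (by linarith) (by norm_num) (by norm_num) (by norm_num)
    (expm_ge (by norm_num) (by norm_num) (by norm_num) (by norm_num)) (expm_le (by norm_num) (by norm_num) (by norm_num)) (by norm_num)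
    (by norm_num) (by norm_num) (by norm_num) (by norm_num) (by norm_num) (by norm_num)
  intro s hs
  have hs' : ‖s - ((sx κ t : ℂ) + (sy κ t : ℂ) * I)‖ ≤ 0.1 := hs
  obtain ⟨es, ⟨s1, s2⟩, ⟨s3, s4⟩⟩ := disc_split hs'
  rcases le_total (sy κ t) (-0.203) with f0 | g0
  · have hx1 : 0.4086 ≤ sx κ t := sx_lo h 0.38 (-0.203) 0.223 1.22507 0.4086 hk1 (by norm_num) f0 (abs_le.2 ⟨by linarith, by linarith⟩) (by rw [neg_neg]; exact expn_ge (by norm_num) (by norm_num)) (by norm_num) (by norm_num)
    have hx2 : sx κ t ≤ 0.5646 := sx_hi h 0.48 (-0.223) 0.203 1.24983 0.5646 hk2 hy1 (by norm_num) (by rw [abs_of_nonpos (by linarith)]; linarith) (by rw [neg_neg]; exact expn_le (by norm_num) (by norm_num) (by norm_num)) (by norm_num) (by norm_num)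
    rw [es]
    exact JB8_S0_b1_0 hβ hN (by linarith) (by linarith) (by linarith) (by linarith)
  rcases le_total (sy κ t) (-0.143) with f1 | g1
  · have hx1 : 0.3885 ≤ sx κ t := sx_lo h 0.38 (-0.143) 0.203 1.15372 0.3885 hk1 (by norm_num) f1 (abs_le.2 ⟨by linarith, by linarith⟩) (by rw [neg_neg]; exact expn_ge (by norm_num) (by norm_num)) (by norm_num) (by norm_num)
    have hx2 : sx κ t ≤ 0.5704 := sx_hi h 0.48 (-0.203) 0.143 1.22508 0.5704 hk2 g0 (by norm_num) (by rw [abs_of_nonpos (by linarith)]; linarith) (by rw [neg_neg]; exact expn_le (by norm_num) (by norm_num) (by norm_num)) (by norm_num) (by norm_num)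
    rw [es]
    exact JB8_S0_b1_1 hβ hN (by linarith) (by linarith) (by linarith) (by linarith)
  have hx1 : 0.4034 ≤ sx κ t := sx_lo h 0.38 (-0.119) 0.143 1.12636 0.4034 hk1 (by norm_num) hy2 (abs_le.2 ⟨by linarith, by linarith⟩) (by rw [neg_neg]; exact expn_ge (by norm_num) (by norm_num)) (by norm_num) (by norm_num)
  have hx2 : sx κ t ≤ 0.5409 := sx_hi h 0.48 (-0.143) 0.119 1.15373 0.5409 hk2 g1 (by norm_num) (by rw [abs_of_nonpos (by linarith)]; linarith) (by rw [neg_neg]; exact expn_le (by norm_num) (by norm_num) (by norm_num)) (by norm_num) (by norm_num)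
  rw [es]
  exact JB8_S0_b1_2 hβ hN (by linarith) (by linarith) (by linarith) (by linarith)

private theorem JB8_S0_b2_0 {β x y : ℝ} (hβ : 0 < β) (hN : β * 20.501 ≤ 1) (hx1 : 0.4586 ≤ x) (hx2 : x ≤ 0.7872)
    (hy1 : -0.344 ≤ y) (hy2 : y ≤ -0.139) : ‖HH β (x + y * I) - 1‖ ≤ 0.1 := by
  refine le_epsJ (C := 2.0388) (N0 := 20.501) (J_boxp 0.4586 0.7872 0.344 0 (-0.139) 0.7887 0.8591 1.1667 1.5421 0.431 4.5279 20.501 1.0893 4.851 1.651 0.7998 0.3943 0.2511 0.6222 2.5499 0.3898 1.1349 1.5528 3.294 0.0003088 0.005817 0.000002892 0.0000003101 0.0003401 0.0000003101 0.0000003101 0.0000003101 2.0388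
    hβ hN hx1 hx2 hy1 hy2 (by norm_num) (by norm_num) (by linarith) (by norm_num) (by norm_num) (by norm_num) (by norm_num) (by norm_num) (by norm_num) (by norm_num) (by norm_num) (by norm_num) (by norm_num) (by norm_num) (by norm_num) (by norm_num) (by norm_num) (by norm_num) (by norm_num) (by norm_num) (by norm_num) (by norm_num) (by norm_num) (by norm_num)
    (cube_sqrt_geJ (s := 0.798) (by norm_num) (by norm_num) (by norm_num) (by norm_num))
    (cube_sqrt_geJ (s := 0.9309) (by norm_num) (by norm_num) (by norm_num) (by norm_num))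
    (by norm_num) (by norm_num) (by norm_num) (by norm_num) (by norm_num) (by norm_num) (by norm_num) (by norm_num) (by norm_num) (by norm_num) (by norm_num) (by norm_num) (by norm_num) (by norm_num) (by norm_num) (by norm_num) (by norm_num) (by norm_num)
    (exp_neg_leJ (r := 0.083) 8 (by norm_num) (by norm_num) (by norm_num) (by norm_num))
    (exp_neg_leJ (r := 0.147) 5 (by norm_num) (by norm_num) (by norm_num) (by norm_num))
    (exp_neg_leJ (r := 0.755) 12 (by norm_num) (by norm_num) (by norm_num) (by norm_num))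
    (exp_neg_leJ (r := 0.99) 14 (by norm_num) (by norm_num) (by norm_num) (by norm_num))
    (exp_neg_leJ (r := 0.99) 7 (by norm_num) (by norm_num) (by norm_num) (by norm_num))
    (exp_neg_leJ (r := 0.99) 14 (by norm_num) (by norm_num) (by norm_num) (by norm_num))
    (exp_neg_leJ (r := 0.99) 14 (by norm_num) (by norm_num) (by norm_num) (by norm_num))
    (exp_neg_leJ (r := 0.99) 14 (by norm_num) (by norm_num) (by norm_num) (by norm_num))
    (by norm_num)) (by norm_num) hN hβ.le (by norm_num)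

private theorem JB8_S0_b2_1 {β x y : ℝ} (hβ : 0 < β) (hN : β * 20.501 ≤ 1) (hx1 : 0.4541 ≤ x) (hx2 : x ≤ 0.7868)
    (hy1 : -0.339 ≤ y) (hy2 : y ≤ -0.129) : ‖HH β (x + y * I) - 1‖ ≤ 0.1 := by
  refine le_epsJ (C := 2.0249) (N0 := 20.501) (J_boxp 0.4541 0.7868 0.339 0 (-0.129) 0.789 0.8568 1.1738 1.546 0.4323 4.5279 20.501 1.086 4.822 1.648 0.8045 0.3944 0.2516 0.6286 2.5663 0.3903 1.1287 1.5573 3.2912 0.0003082 0.005754 0.000002539 0.0000003101 0.0003352 0.0000003101 0.0000003101 0.0000003101 2.0249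
    hβ hN hx1 hx2 hy1 hy2 (by norm_num) (by norm_num) (by linarith) (by norm_num) (by norm_num) (by norm_num) (by norm_num) (by norm_num) (by norm_num) (by norm_num) (by norm_num) (by norm_num) (by norm_num) (by norm_num) (by norm_num) (by norm_num) (by norm_num) (by norm_num) (by norm_num) (by norm_num) (by norm_num) (by norm_num) (by norm_num) (by norm_num)
    (cube_sqrt_geJ (s := 0.7987) (by norm_num) (by norm_num) (by norm_num) (by norm_num))
    (cube_sqrt_geJ (s := 0.9311) (by norm_num) (by norm_num) (by norm_num) (by norm_num))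
    (by norm_num) (by norm_num) (by norm_num) (by norm_num) (by norm_num) (by norm_num) (by norm_num) (by norm_num) (by norm_num) (by norm_num) (by norm_num) (by norm_num) (by norm_num) (by norm_num) (by norm_num) (by norm_num) (by norm_num) (by norm_num)
    (exp_neg_leJ (r := 0.085) 8 (by norm_num) (by norm_num) (by norm_num) (by norm_num))
    (exp_neg_leJ (r := 0.158) 5 (by norm_num) (by norm_num) (by norm_num) (by norm_num))
    (exp_neg_leJ (r := 0.886) 12 (by norm_num) (by norm_num) (by norm_num) (by norm_num))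
    (exp_neg_leJ (r := 0.99) 14 (by norm_num) (by norm_num) (by norm_num) (by norm_num))
    (exp_neg_leJ (r := 0.001) 8 (by norm_num) (by norm_num) (by norm_num) (by norm_num))
    (exp_neg_leJ (r := 0.99) 14 (by norm_num) (by norm_num) (by norm_num) (by norm_num))
    (exp_neg_leJ (r := 0.99) 14 (by norm_num) (by norm_num) (by norm_num) (by norm_num))
    (exp_neg_leJ (r := 0.99) 14 (by norm_num) (by norm_num) (by norm_num) (by norm_num))
    (by norm_num)) (by norm_num) hN hβ.le (by norm_num)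

private theorem JB8_S0_b2_2 {β x y : ℝ} (hβ : 0 < β) (hN : β * 20.501 ≤ 1) (hx1 : 0.4422 ≤ x) (hx2 : x ≤ 0.7871)
    (hy1 : -0.329 ≤ y) (hy2 : y ≤ -0.104) : ‖HH β (x + y * I) - 1‖ ≤ 0.1 := by
  refine le_epsJ (C := 2.0292) (N0 := 20.501) (J_boxp 0.4422 0.7871 0.329 0 (-0.104) 0.7878 0.8531 1.1927 1.5619 0.4357 4.5279 20.501 1.0829 4.795 1.646 0.8136 0.3938 0.2517 0.6403 2.5986 0.39 1.1122 1.5607 3.2775 0.0003119 0.005742 0.000001993 0.0000003101 0.0003401 0.0000003101 0.0000003101 0.0000003101 2.0292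
    hβ hN hx1 hx2 hy1 hy2 (by norm_num) (by norm_num) (by linarith) (by norm_num) (by norm_num) (by norm_num) (by norm_num) (by norm_num) (by norm_num) (by norm_num) (by norm_num) (by norm_num) (by norm_num) (by norm_num) (by norm_num) (by norm_num) (by norm_num) (by norm_num) (by norm_num) (by norm_num) (by norm_num) (by norm_num) (by norm_num) (by norm_num)
    (cube_sqrt_geJ (s := 0.7993) (by norm_num) (by norm_num) (by norm_num) (by norm_num))
    (cube_sqrt_geJ (s := 0.9313) (by norm_num) (by norm_num) (by norm_num) (by norm_num))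
    (by norm_num) (by norm_num) (by norm_num) (by norm_num) (by norm_num) (by norm_num) (by norm_num) (by norm_num) (by norm_num) (by norm_num) (by norm_num) (by norm_num) (by norm_num) (by norm_num) (by norm_num) (by norm_num) (by norm_num) (by norm_num)
    (exp_neg_leJ (r := 0.073) 8 (by norm_num) (by norm_num) (by norm_num) (by norm_num))
    (exp_neg_leJ (r := 0.16) 5 (by norm_num) (by norm_num) (by norm_num) (by norm_num))
    (exp_neg_leJ (r := 0.126) 13 (by norm_num) (by norm_num) (by norm_num) (by norm_num))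
    (exp_neg_leJ (r := 0.99) 14 (by norm_num) (by norm_num) (by norm_num) (by norm_num))
    (exp_neg_leJ (r := 0.99) 7 (by norm_num) (by norm_num) (by norm_num) (by norm_num))
    (exp_neg_leJ (r := 0.99) 14 (by norm_num) (by norm_num) (by norm_num) (by norm_num))
    (exp_neg_leJ (r := 0.99) 14 (by norm_num) (by norm_num) (by norm_num) (by norm_num))
    (exp_neg_leJ (r := 0.99) 14 (by norm_num) (by norm_num) (by norm_num) (by norm_num))
    (by norm_num)) (by norm_num) hN hβ.le (by norm_num)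

private theorem JB8_S0_b2_3 {β x y : ℝ} (hβ : 0 < β) (hN : β * 20.501 ≤ 1) (hx1 : 0.4136 ≤ x) (hx2 : x ≤ 0.7847)
    (hy1 : -0.304 ≤ y) (hy2 : y ≤ -0.041) : ‖HH β (x + y * I) - 1‖ ≤ 0.1 := by
  refine le_epsJ (C := 2.0157) (N0 := 20.501) (J_boxp 0.4136 0.7847 0.304 0 (-0.041) 0.7854 0.8416 1.2392 1.5994 0.4442 4.5279 20.501 1.0716 4.697 1.637 0.8376 0.3926 0.2524 0.67 2.6809 0.3898 1.0726 1.5715 3.2515 0.0003198 0.005662 0.000001085 0.0000003101 0.0003401 0.0000003101 0.0000003101 0.0000003101 2.0157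
    hβ hN hx1 hx2 hy1 hy2 (by norm_num) (by norm_num) (by linarith) (by norm_num) (by norm_num) (by norm_num) (by norm_num) (by norm_num) (by norm_num) (by norm_num) (by norm_num) (by norm_num) (by norm_num) (by norm_num) (by norm_num) (by norm_num) (by norm_num) (by norm_num) (by norm_num) (by norm_num) (by norm_num) (by norm_num) (by norm_num) (by norm_num)
    (cube_sqrt_geJ (s := 0.8017) (by norm_num) (by norm_num) (by norm_num) (by norm_num))
    (cube_sqrt_geJ (s := 0.932) (by norm_num) (by norm_num) (by norm_num) (by norm_num))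
    (by norm_num) (by norm_num) (by norm_num) (by norm_num) (by norm_num) (by norm_num) (by norm_num) (by norm_num) (by norm_num) (by norm_num) (by norm_num) (by norm_num) (by norm_num) (by norm_num) (by norm_num) (by norm_num) (by norm_num) (by norm_num)
    (exp_neg_leJ (r := 0.048) 8 (by norm_num) (by norm_num) (by norm_num) (by norm_num))
    (exp_neg_leJ (r := 0.174) 5 (by norm_num) (by norm_num) (by norm_num) (by norm_num))
    (exp_neg_leJ (r := 0.735) 13 (by norm_num) (by norm_num) (by norm_num) (by norm_num))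
    (exp_neg_leJ (r := 0.99) 14 (by norm_num) (by norm_num) (by norm_num) (by norm_num))
    (exp_neg_leJ (r := 0.99) 7 (by norm_num) (by norm_num) (by norm_num) (by norm_num))
    (exp_neg_leJ (r := 0.99) 14 (by norm_num) (by norm_num) (by norm_num) (by norm_num))
    (exp_neg_leJ (r := 0.99) 14 (by norm_num) (by norm_num) (by norm_num) (by norm_num))
    (exp_neg_leJ (r := 0.99) 14 (by norm_num) (by norm_num) (by norm_num) (by norm_num))
    (by norm_num)) (by norm_num) hN hβ.le (by norm_num)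

private theorem JB8_S0_c2 {κ t β : ℝ} (h : DomR κ t) (hβ : 0 < β) (hk1 : 0.48 ≤ κ) (hk2 : κ ≤ 0.57)
    (ht1 : -0.4555 ≤ t + κ) (ht2 : t + κ ≤ -0.314) (hR0 : β * 10 ≤ κ) (hR : β * (8.82 * (1 + κ ^ 2)) ≤ κ) :
    ∀ s : ℂ, ‖s - sg κ t‖ ≤ 0.1 → ‖HH β s - 1‖ ≤ 0.1 := by
  have hN : β * 20.501 ≤ 1 := bNC hβ h.1 hk2 (by norm_num) (by norm_num) hR (by norm_num)
  have hy1 : -0.244 ≤ sy κ t := syL_ge h 0.48 0.57 0.4555 0.244 0.78348 0.78349 0.3196 0.33538 0.39828 hk1 hk2 (by linarith) (by norm_num) (by norm_num) (by norm_num)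
    (expm_ge (by norm_num) (by norm_num) (by norm_num) (by norm_num)) (expm_le (by norm_num) (by norm_num) (by norm_num)) (by norm_num)
    (by norm_num) (by norm_num) (by norm_num) (by norm_num) (by norm_num) (by norm_num)
  have hy2 : sy κ t ≤ -0.141 := syL_le h 0.48 0.57 0.314 0.141 0.86848 0.86849 0.21483 0.25512 hk1 hk2 (by linarith) (by norm_num) (by norm_num) (by norm_num)
    (expm_ge (by norm_num) (by norm_num) (by norm_num) (by norm_num)) (expm_le (by norm_num) (by norm_num) (by norm_num)) (by norm_num)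
    (by norm_num) (by norm_num) (by norm_num) (by norm_num) (by norm_num) (by norm_num)
  intro s hs
  have hs' : ‖s - ((sx κ t : ℂ) + (sy κ t : ℂ) * I)‖ ≤ 0.1 := hs
  obtain ⟨es, ⟨s1, s2⟩, ⟨s3, s4⟩⟩ := disc_split hs'
  rcases le_total (sy κ t) (-0.239) with f0 | g0
  · have hx1 : 0.5586 ≤ sx κ t := sx_lo h 0.48 (-0.239) 0.244 1.26997 0.5586 hk1 (by norm_num) f0 (abs_le.2 ⟨by linarith, by linarith⟩) (by rw [neg_neg]; exact expn_ge (by norm_num) (by norm_num)) (by norm_num) (by norm_num)
    have hx2 : sx κ t ≤ 0.6872 := sx_hi h 0.57 (-0.244) 0.239 1.27635 0.6872 hk2 hy1 (by norm_num) (by rw [abs_of_nonpos (by linarith)]; linarith) (by rw [neg_neg]; exact expn_le (by norm_num) (by norm_num) (by norm_num)) (by norm_num) (by norm_num)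
    rw [es]
    exact JB8_S0_b2_0 hβ hN (by linarith) (by linarith) (by linarith) (by linarith)
  rcases le_total (sy κ t) (-0.229) with f1 | g1
  · have hx1 : 0.5541 ≤ sx κ t := sx_lo h 0.48 (-0.229) 0.239 1.25734 0.5541 hk1 (by norm_num) f1 (abs_le.2 ⟨by linarith, by linarith⟩) (by rw [neg_neg]; exact expn_ge (by norm_num) (by norm_num)) (by norm_num) (by norm_num)
    have hx2 : sx κ t ≤ 0.6868 := sx_hi h 0.57 (-0.239) 0.229 1.26998 0.6868 hk2 g0 (by norm_num) (by rw [abs_of_nonpos (by linarith)]; linarith) (by rw [neg_neg]; exact expn_le (by norm_num) (by norm_num) (by norm_num)) (by norm_num) (by norm_num)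
    rw [es]
    exact JB8_S0_b2_1 hβ hN (by linarith) (by linarith) (by linarith) (by linarith)
  rcases le_total (sy κ t) (-0.204) with f2 | g2
  · have hx1 : 0.5422 ≤ sx κ t := sx_lo h 0.48 (-0.204) 0.229 1.22629 0.5422 hk1 (by norm_num) f2 (abs_le.2 ⟨by linarith, by linarith⟩) (by rw [neg_neg]; exact expn_ge (by norm_num) (by norm_num)) (by norm_num) (by norm_num)
    have hx2 : sx κ t ≤ 0.6871 := sx_hi h 0.57 (-0.229) 0.204 1.25735 0.6871 hk2 g1 (by norm_num) (by rw [abs_of_nonpos (by linarith)]; linarith) (by rw [neg_neg]; exact expn_le (by norm_num) (by norm_num) (by norm_num)) (by norm_num) (by norm_num)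
    rw [es]
    exact JB8_S0_b2_2 hβ hN (by linarith) (by linarith) (by linarith) (by linarith)
  have hx1 : 0.5136 ≤ sx κ t := sx_lo h 0.48 (-0.141) 0.204 1.15142 0.5136 hk1 (by norm_num) hy2 (abs_le.2 ⟨by linarith, by linarith⟩) (by rw [neg_neg]; exact expn_ge (by norm_num) (by norm_num)) (by norm_num) (by norm_num)
  have hx2 : sx κ t ≤ 0.6847 := sx_hi h 0.57 (-0.204) 0.141 1.2263 0.6847 hk2 g2 (by norm_num) (by rw [abs_of_nonpos (by linarith)]; linarith) (by rw [neg_neg]; exact expn_le (by norm_num) (by norm_num) (by norm_num)) (by norm_num) (by norm_num)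
  rw [es]
  exact JB8_S0_b2_3 hβ hN (by linarith) (by linarith) (by linarith) (by linarith)

private theorem JB8_S0_b3_0 {β x y : ℝ} (hβ : 0 < β) (hN : β * 19.302 ≤ 1) (hx1 : 0.5856 ≤ x) (hx2 : x ≤ 0.9002)
    (hy1 : -0.354 ≤ y) (hy2 : y ≤ -0.149) : ‖HH β (x + y * I) - 1‖ ≤ 0.1 := by
  refine le_epsJ (C := 1.8967) (N0 := 19.302) (J_boxp 0.5856 0.9002 0.354 0 (-0.149) 0.871 0.9674 1.2388 1.3693 0.4441 4.3935 19.302 1.1107 5.046 1.669 0.7471 0.4354 0.2742 0.6499 2.4544 0.446 1.3108 1.7796 3.2536 0.000224 0.005032 0.000003568 0.0000003101 0.0001828 0.0000003101 0.0000003101 0.0000003101 1.8967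
    hβ hN hx1 hx2 hy1 hy2 (by norm_num) (by norm_num) (by linarith) (by norm_num) (by norm_num) (by norm_num) (by norm_num) (by norm_num) (by norm_num) (by norm_num) (by norm_num) (by norm_num) (by norm_num) (by norm_num) (by norm_num) (by norm_num) (by norm_num) (by norm_num) (by norm_num) (by norm_num) (by norm_num) (by norm_num) (by norm_num) (by norm_num)
    (cube_sqrt_geJ (s := 0.7935) (by norm_num) (by norm_num) (by norm_num) (by norm_num))
    (cube_sqrt_geJ (s := 0.9295) (by norm_num) (by norm_num) (by norm_num) (by norm_num))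
    (by norm_num) (by norm_num) (by norm_num) (by norm_num) (by norm_num) (by norm_num) (by norm_num) (by norm_num) (by norm_num) (by norm_num) (by norm_num) (by norm_num) (by norm_num) (by norm_num) (by norm_num) (by norm_num) (by norm_num) (by norm_num)
    (exp_neg_leJ (r := 0.404) 8 (by norm_num) (by norm_num) (by norm_num) (by norm_num))
    (exp_neg_leJ (r := 0.292) 5 (by norm_num) (by norm_num) (by norm_num) (by norm_num))
    (exp_neg_leJ (r := 0.544) 12 (by norm_num) (by norm_num) (by norm_num) (by norm_num))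
    (exp_neg_leJ (r := 0.99) 14 (by norm_num) (by norm_num) (by norm_num) (by norm_num))
    (exp_neg_leJ (r := 0.608) 8 (by norm_num) (by norm_num) (by norm_num) (by norm_num))
    (exp_neg_leJ (r := 0.99) 14 (by norm_num) (by norm_num) (by norm_num) (by norm_num))
    (exp_neg_leJ (r := 0.99) 14 (by norm_num) (by norm_num) (by norm_num) (by norm_num))
    (exp_neg_leJ (r := 0.99) 14 (by norm_num) (by norm_num) (by norm_num) (by norm_num))
    (by norm_num)) (by norm_num) hN hβ.le (by norm_num)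

private theorem JB8_S0_b3_1 {β x y : ℝ} (hβ : 0 < β) (hN : β * 19.302 ≤ 1) (hx1 : 0.5797 ≤ x) (hx2 : x ≤ 0.8988)
    (hy1 : -0.349 ≤ y) (hy2 : y ≤ -0.139) : ‖HH β (x + y * I) - 1‖ ≤ 0.1 := by
  refine le_epsJ (C := 1.8879) (N0 := 19.302) (J_boxp 0.5797 0.8988 0.349 0 (-0.139) 0.8704 0.9642 1.2447 1.3739 0.4451 4.3935 19.302 1.1078 5.019 1.666 0.7522 0.4351 0.2744 0.6558 2.4714 0.4459 1.3026 1.7814 3.2505 0.0002254 0.005012 0.000003184 0.0000003101 0.0001831 0.0000003101 0.0000003101 0.0000003101 1.8879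
    hβ hN hx1 hx2 hy1 hy2 (by norm_num) (by norm_num) (by linarith) (by norm_num) (by norm_num) (by norm_num) (by norm_num) (by norm_num) (by norm_num) (by norm_num) (by norm_num) (by norm_num) (by norm_num) (by norm_num) (by norm_num) (by norm_num) (by norm_num) (by norm_num) (by norm_num) (by norm_num) (by norm_num) (by norm_num) (by norm_num) (by norm_num)
    (cube_sqrt_geJ (s := 0.7941) (by norm_num) (by norm_num) (by norm_num) (by norm_num))
    (cube_sqrt_geJ (s := 0.9297) (by norm_num) (by norm_num) (by norm_num) (by norm_num))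
    (by norm_num) (by norm_num) (by norm_num) (by norm_num) (by norm_num) (by norm_num) (by norm_num) (by norm_num) (by norm_num) (by norm_num) (by norm_num) (by norm_num) (by norm_num) (by norm_num) (by norm_num) (by norm_num) (by norm_num) (by norm_num)
    (exp_neg_leJ (r := 0.398) 8 (by norm_num) (by norm_num) (by norm_num) (by norm_num))
    (exp_neg_leJ (r := 0.296) 5 (by norm_num) (by norm_num) (by norm_num) (by norm_num))
    (exp_neg_leJ (r := 0.658) 12 (by norm_num) (by norm_num) (by norm_num) (by norm_num))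
    (exp_neg_leJ (r := 0.99) 14 (by norm_num) (by norm_num) (by norm_num) (by norm_num))
    (exp_neg_leJ (r := 0.606) 8 (by norm_num) (by norm_num) (by norm_num) (by norm_num))
    (exp_neg_leJ (r := 0.99) 14 (by norm_num) (by norm_num) (by norm_num) (by norm_num))
    (exp_neg_leJ (r := 0.99) 14 (by norm_num) (by norm_num) (by norm_num) (by norm_num))
    (exp_neg_leJ (r := 0.99) 14 (by norm_num) (by norm_num) (by norm_num) (by norm_num))
    (by norm_num)) (by norm_num) hN hβ.le (by norm_num)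

private theorem JB8_S0_b3_2 {β x y : ℝ} (hβ : 0 < β) (hN : β * 19.302 ≤ 1) (hx1 : 0.5643 ≤ x) (hx2 : x ≤ 0.8973)
    (hy1 : -0.339 ≤ y) (hy2 : y ≤ -0.114) : ‖HH β (x + y * I) - 1‖ ≤ 0.1 := by
  refine le_epsJ (C := 1.9112) (N0 := 19.302) (J_boxp 0.5643 0.8973 0.339 0 (-0.114) 0.8666 0.9593 1.2611 1.3921 0.4481 4.3935 19.302 1.107 5.012 1.666 0.762 0.4332 0.2734 0.6663 2.5046 0.4439 1.2813 1.7777 3.233 0.0002339 0.005108 0.000002606 0.0000003101 0.0001902 0.0000003101 0.0000003101 0.0000003101 1.9112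
    hβ hN hx1 hx2 hy1 hy2 (by norm_num) (by norm_num) (by linarith) (by norm_num) (by norm_num) (by norm_num) (by norm_num) (by norm_num) (by norm_num) (by norm_num) (by norm_num) (by norm_num) (by norm_num) (by norm_num) (by norm_num) (by norm_num) (by norm_num) (by norm_num) (by norm_num) (by norm_num) (by norm_num) (by norm_num) (by norm_num) (by norm_num)
    (cube_sqrt_geJ (s := 0.7943) (by norm_num) (by norm_num) (by norm_num) (by norm_num))
    (cube_sqrt_geJ (s := 0.9297) (by norm_num) (by norm_num) (by norm_num) (by norm_num))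
    (by norm_num) (by norm_num) (by norm_num) (by norm_num) (by norm_num) (by norm_num) (by norm_num) (by norm_num) (by norm_num) (by norm_num) (by norm_num) (by norm_num) (by norm_num) (by norm_num) (by norm_num) (by norm_num) (by norm_num) (by norm_num)
    (exp_neg_leJ (r := 0.361) 8 (by norm_num) (by norm_num) (by norm_num) (by norm_num))
    (exp_neg_leJ (r := 0.277) 5 (by norm_num) (by norm_num) (by norm_num) (by norm_num))
    (exp_neg_leJ (r := 0.86) 12 (by norm_num) (by norm_num) (by norm_num) (by norm_num))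
    (exp_neg_leJ (r := 0.99) 14 (by norm_num) (by norm_num) (by norm_num) (by norm_num))
    (exp_neg_leJ (r := 0.568) 8 (by norm_num) (by norm_num) (by norm_num) (by norm_num))
    (exp_neg_leJ (r := 0.99) 14 (by norm_num) (by norm_num) (by norm_num) (by norm_num))
    (exp_neg_leJ (r := 0.99) 14 (by norm_num) (by norm_num) (by norm_num) (by norm_num))
    (exp_neg_leJ (r := 0.99) 14 (by norm_num) (by norm_num) (by norm_num) (by norm_num))
    (by norm_num)) (by norm_num) hN hβ.le (by norm_num)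

private theorem JB8_S0_b3_3 {β x y : ℝ} (hβ : 0 < β) (hN : β * 19.302 ≤ 1) (hx1 : 0.5302 ≤ x) (hx2 : x ≤ 0.8901)
    (hy1 : -0.314 ≤ y) (hy2 : y ≤ -0.055) : ‖HH β (x + y * I) - 1‖ ≤ 0.1 := by
  refine le_epsJ (C := 1.9106) (N0 := 19.302) (J_boxp 0.5302 0.8901 0.314 0 (-0.055) 0.8604 0.9439 1.2982 1.4277 0.4546 4.3935 19.302 1.0971 4.921 1.657 0.7879 0.4301 0.2728 0.6941 2.5894 0.441 1.2341 1.7775 3.2066 0.0002483 0.00517 0.00000152 0.0000003101 0.0002011 0.0000003101 0.0000003101 0.0000003101 1.9106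
    hβ hN hx1 hx2 hy1 hy2 (by norm_num) (by norm_num) (by linarith) (by norm_num) (by norm_num) (by norm_num) (by norm_num) (by norm_num) (by norm_num) (by norm_num) (by norm_num) (by norm_num) (by norm_num) (by norm_num) (by norm_num) (by norm_num) (by norm_num) (by norm_num) (by norm_num) (by norm_num) (by norm_num) (by norm_num) (by norm_num) (by norm_num)
    (cube_sqrt_geJ (s := 0.7964) (by norm_num) (by norm_num) (by norm_num) (by norm_num))
    (cube_sqrt_geJ (s := 0.9304) (by norm_num) (by norm_num) (by norm_num) (by norm_num))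
    (by norm_num) (by norm_num) (by norm_num) (by norm_num) (by norm_num) (by norm_num) (by norm_num) (by norm_num) (by norm_num) (by norm_num) (by norm_num) (by norm_num) (by norm_num) (by norm_num) (by norm_num) (by norm_num) (by norm_num) (by norm_num)
    (exp_neg_leJ (r := 0.301) 8 (by norm_num) (by norm_num) (by norm_num) (by norm_num))
    (exp_neg_leJ (r := 0.265) 5 (by norm_num) (by norm_num) (by norm_num) (by norm_num))
    (exp_neg_leJ (r := 0.397) 13 (by norm_num) (by norm_num) (by norm_num) (by norm_num))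
    (exp_neg_leJ (r := 0.99) 14 (by norm_num) (by norm_num) (by norm_num) (by norm_num))
    (exp_neg_leJ (r := 0.512) 8 (by norm_num) (by norm_num) (by norm_num) (by norm_num))
    (exp_neg_leJ (r := 0.99) 14 (by norm_num) (by norm_num) (by norm_num) (by norm_num))
    (exp_neg_leJ (r := 0.99) 14 (by norm_num) (by norm_num) (by norm_num) (by norm_num))
    (exp_neg_leJ (r := 0.99) 14 (by norm_num) (by norm_num) (by norm_num) (by norm_num))
    (by norm_num)) (by norm_num) hN hβ.le (by norm_num)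

private theorem JB8_S0_c3 {κ t β : ℝ} (h : DomR κ t) (hβ : 0 < β) (hk1 : 0.57 ≤ κ) (hk2 : κ ≤ 0.65)
    (ht1 : -0.4555 ≤ t + κ) (ht2 : t + κ ≤ -0.314) (hR0 : β * 10 ≤ κ) (hR : β * (8.82 * (1 + κ ^ 2)) ≤ κ) :
    ∀ s : ℂ, ‖s - sg κ t‖ ≤ 0.1 → ‖HH β s - 1‖ ≤ 0.1 := by
  have hN : β * 19.302 ≤ 1 := bNC hβ h.1 hk2 (by norm_num) (by norm_num) hR (by norm_num)
  have hy1 : -0.254 ≤ sy κ t := syL_ge h 0.57 0.65 0.4555 0.254 0.77569 0.7757 0.296 0.30311 0.34567 hk1 hk2 (by linarith) (by norm_num) (by norm_num) (by norm_num)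
    (expm_ge (by norm_num) (by norm_num) (by norm_num) (by norm_num)) (expm_le (by norm_num) (by norm_num) (by norm_num)) (by norm_num)
    (by norm_num) (by norm_num) (by norm_num) (by norm_num) (by norm_num) (by norm_num)
  have hy2 : sy κ t ≤ -0.155 := syL_le h 0.57 0.65 0.314 0.155 0.85641 0.85642 0.20422 0.23289 hk1 hk2 (by linarith) (by norm_num) (by norm_num) (by norm_num)
    (expm_ge (by norm_num) (by norm_num) (by norm_num) (by norm_num)) (expm_le (by norm_num) (by norm_num) (by norm_num)) (by norm_num)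
    (by norm_num) (by norm_num) (by norm_num) (by norm_num) (by norm_num) (by norm_num)
  intro s hs
  have hs' : ‖s - ((sx κ t : ℂ) + (sy κ t : ℂ) * I)‖ ≤ 0.1 := hs
  obtain ⟨es, ⟨s1, s2⟩, ⟨s3, s4⟩⟩ := disc_split hs'
  rcases le_total (sy κ t) (-0.249) with f0 | g0
  · have hx1 : 0.6856 ≤ sx κ t := sx_lo h 0.57 (-0.249) 0.254 1.28274 0.6856 hk1 (by norm_num) f0 (abs_le.2 ⟨by linarith, by linarith⟩) (by rw [neg_neg]; exact expn_ge (by norm_num) (by norm_num)) (by norm_num) (by norm_num)
    have hx2 : sx κ t ≤ 0.8002 := sx_hi h 0.65 (-0.254) 0.249 1.28918 0.8002 hk2 hy1 (by norm_num) (by rw [abs_of_nonpos (by linarith)]; linarith) (by rw [neg_neg]; exact expn_le (by norm_num) (by norm_num) (by norm_num)) (by norm_num) (by norm_num)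
    rw [es]
    exact JB8_S0_b3_0 hβ hN (by linarith) (by linarith) (by linarith) (by linarith)
  rcases le_total (sy κ t) (-0.239) with f1 | g1
  · have hx1 : 0.6797 ≤ sx κ t := sx_lo h 0.57 (-0.239) 0.249 1.26997 0.6797 hk1 (by norm_num) f1 (abs_le.2 ⟨by linarith, by linarith⟩) (by rw [neg_neg]; exact expn_ge (by norm_num) (by norm_num)) (by norm_num) (by norm_num)
    have hx2 : sx κ t ≤ 0.7988 := sx_hi h 0.65 (-0.249) 0.239 1.28275 0.7988 hk2 g0 (by norm_num) (by rw [abs_of_nonpos (by linarith)]; linarith) (by rw [neg_neg]; exact expn_le (by norm_num) (by norm_num) (by norm_num)) (by norm_num) (by norm_num)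
    rw [es]
    exact JB8_S0_b3_1 hβ hN (by linarith) (by linarith) (by linarith) (by linarith)
  rcases le_total (sy κ t) (-0.214) with f2 | g2
  · have hx1 : 0.6643 ≤ sx κ t := sx_lo h 0.57 (-0.214) 0.239 1.23862 0.6643 hk1 (by norm_num) f2 (abs_le.2 ⟨by linarith, by linarith⟩) (by rw [neg_neg]; exact expn_ge (by norm_num) (by norm_num)) (by norm_num) (by norm_num)
    have hx2 : sx κ t ≤ 0.7973 := sx_hi h 0.65 (-0.239) 0.214 1.26998 0.7973 hk2 g1 (by norm_num) (by rw [abs_of_nonpos (by linarith)]; linarith) (by rw [neg_neg]; exact expn_le (by norm_num) (by norm_num) (by norm_num)) (by norm_num) (by norm_num)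
    rw [es]
    exact JB8_S0_b3_2 hβ hN (by linarith) (by linarith) (by linarith) (by linarith)
  have hx1 : 0.6302 ≤ sx κ t := sx_lo h 0.57 (-0.155) 0.214 1.16765 0.6302 hk1 (by norm_num) hy2 (abs_le.2 ⟨by linarith, by linarith⟩) (by rw [neg_neg]; exact expn_ge (by norm_num) (by norm_num)) (by norm_num) (by norm_num)
  have hx2 : sx κ t ≤ 0.7901 := sx_hi h 0.65 (-0.214) 0.155 1.23863 0.7901 hk2 g2 (by norm_num) (by rw [abs_of_nonpos (by linarith)]; linarith) (by rw [neg_neg]; exact expn_le (by norm_num) (by norm_num) (by norm_num)) (by norm_num) (by norm_num)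
  rw [es]
  exact JB8_S0_b3_3 hβ hN (by linarith) (by linarith) (by linarith) (by linarith)

private theorem JB8_S0_b4_0 {β x y : ℝ} (hβ : 0 < β) (hN : β * 18.52 ≤ 1) (hx1 : 0.6969 ≤ x) (hx2 : x ≤ 1.0111)
    (hy1 : -0.359 ≤ y) (hy2 : y ≤ -0.154) : ‖HH β (x + y * I) - 1‖ ≤ 0.1 := by
  refine le_epsJ (C := 1.8265) (N0 := 18.52) (J_boxp 0.6969 1.0111 0.359 0 (-0.154) 0.9458 1.073 1.3184 1.2484 0.4581 4.3035 18.52 1.1345 5.275 1.688 0.6998 0.4728 0.294 0.6801 2.376 0.4974 1.4649 1.9886 3.1891 0.0001577 0.004323 0.000003391 0.0000003101 0.00009994 0.0000003101 0.0000003101 0.0000003101 1.8265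
    hβ hN hx1 hx2 hy1 hy2 (by norm_num) (by norm_num) (by linarith) (by norm_num) (by norm_num) (by norm_num) (by norm_num) (by norm_num) (by norm_num) (by norm_num) (by norm_num) (by norm_num) (by norm_num) (by norm_num) (by norm_num) (by norm_num) (by norm_num) (by norm_num) (by norm_num) (by norm_num) (by norm_num) (by norm_num) (by norm_num) (by norm_num)
    (cube_sqrt_geJ (s := 0.7885) (by norm_num) (by norm_num) (by norm_num) (by norm_num))
    (cube_sqrt_geJ (s := 0.9279) (by norm_num) (by norm_num) (by norm_num) (by norm_num))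
    (by norm_num) (by norm_num) (by norm_num) (by norm_num) (by norm_num) (by norm_num) (by norm_num) (by norm_num) (by norm_num) (by norm_num) (by norm_num) (by norm_num) (by norm_num) (by norm_num) (by norm_num) (by norm_num) (by norm_num) (by norm_num)
    (exp_neg_leJ (r := 0.756) 8 (by norm_num) (by norm_num) (by norm_num) (by norm_num))
    (exp_neg_leJ (r := 0.444) 5 (by norm_num) (by norm_num) (by norm_num) (by norm_num))
    (exp_neg_leJ (r := 0.595) 12 (by norm_num) (by norm_num) (by norm_num) (by norm_num))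
    (exp_neg_leJ (r := 0.99) 14 (by norm_num) (by norm_num) (by norm_num) (by norm_num))
    (exp_neg_leJ (r := 0.211) 9 (by norm_num) (by norm_num) (by norm_num) (by norm_num))
    (exp_neg_leJ (r := 0.99) 14 (by norm_num) (by norm_num) (by norm_num) (by norm_num))
    (exp_neg_leJ (r := 0.99) 14 (by norm_num) (by norm_num) (by norm_num) (by norm_num))
    (exp_neg_leJ (r := 0.99) 14 (by norm_num) (by norm_num) (by norm_num) (by norm_num))
    (by norm_num)) (by norm_num) hN hβ.le (by norm_num)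

private theorem JB8_S0_b4_1 {β x y : ℝ} (hβ : 0 < β) (hN : β * 18.52 ≤ 1) (hx1 : 0.6897 ≤ x) (hx2 : x ≤ 1.009)
    (hy1 : -0.354 ≤ y) (hy2 : y ≤ -0.144) : ‖HH β (x + y * I) - 1‖ ≤ 0.1 := by
  refine le_epsJ (C := 1.8242) (N0 := 18.52) (J_boxp 0.6897 1.009 0.354 0 (-0.144) 0.9443 1.0693 1.3232 1.2536 0.459 4.3035 18.52 1.1324 5.254 1.687 0.7052 0.4721 0.2939 0.6855 2.3934 0.4966 1.4549 1.9878 3.1848 0.0001598 0.004327 0.000003069 0.0000003101 0.0001014 0.0000003101 0.0000003101 0.0000003101 1.8242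
    hβ hN hx1 hx2 hy1 hy2 (by norm_num) (by norm_num) (by linarith) (by norm_num) (by norm_num) (by norm_num) (by norm_num) (by norm_num) (by norm_num) (by norm_num) (by norm_num) (by norm_num) (by norm_num) (by norm_num) (by norm_num) (by norm_num) (by norm_num) (by norm_num) (by norm_num) (by norm_num) (by norm_num) (by norm_num) (by norm_num) (by norm_num)
    (cube_sqrt_geJ (s := 0.789) (by norm_num) (by norm_num) (by norm_num) (by norm_num))
    (cube_sqrt_geJ (s := 0.928) (by norm_num) (by norm_num) (by norm_num) (by norm_num))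
    (by norm_num) (by norm_num) (by norm_num) (by norm_num) (by norm_num) (by norm_num) (by norm_num) (by norm_num) (by norm_num) (by norm_num) (by norm_num) (by norm_num) (by norm_num) (by norm_num) (by norm_num) (by norm_num) (by norm_num) (by norm_num)
    (exp_neg_leJ (r := 0.743) 8 (by norm_num) (by norm_num) (by norm_num) (by norm_num))
    (exp_neg_leJ (r := 0.443) 5 (by norm_num) (by norm_num) (by norm_num) (by norm_num))
    (exp_neg_leJ (r := 0.695) 12 (by norm_num) (by norm_num) (by norm_num) (by norm_num))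
    (exp_neg_leJ (r := 0.99) 14 (by norm_num) (by norm_num) (by norm_num) (by norm_num))
    (exp_neg_leJ (r := 0.197) 9 (by norm_num) (by norm_num) (by norm_num) (by norm_num))
    (exp_neg_leJ (r := 0.99) 14 (by norm_num) (by norm_num) (by norm_num) (by norm_num))
    (exp_neg_leJ (r := 0.99) 14 (by norm_num) (by norm_num) (by norm_num) (by norm_num))
    (exp_neg_leJ (r := 0.99) 14 (by norm_num) (by norm_num) (by norm_num) (by norm_num))
    (by norm_num)) (by norm_num) hN hβ.le (by norm_num)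

private theorem JB8_S0_b4_2 {β x y : ℝ} (hβ : 0 < β) (hN : β * 18.52 ≤ 1) (hx1 : 0.6757 ≤ x) (hx2 : x ≤ 1.0045)
    (hy1 : -0.344 ≤ y) (hy2 : y ≤ -0.124) : ‖HH β (x + y * I) - 1‖ ≤ 0.1 := by
  refine le_epsJ (C := 1.817) (N0 := 18.52) (J_boxp 0.6757 1.0045 0.344 0 (-0.124) 0.9415 1.0618 1.3329 1.2638 0.4606 4.3035 18.52 1.1278 5.209 1.683 0.7162 0.4707 0.2937 0.6965 2.4282 0.4953 1.4355 1.987 3.1772 0.000164 0.004345 0.000002507 0.0000003101 0.000104 0.0000003101 0.0000003101 0.0000003101 1.817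
    hβ hN hx1 hx2 hy1 hy2 (by norm_num) (by norm_num) (by linarith) (by norm_num) (by norm_num) (by norm_num) (by norm_num) (by norm_num) (by norm_num) (by norm_num) (by norm_num) (by norm_num) (by norm_num) (by norm_num) (by norm_num) (by norm_num) (by norm_num) (by norm_num) (by norm_num) (by norm_num) (by norm_num) (by norm_num) (by norm_num) (by norm_num)
    (cube_sqrt_geJ (s := 0.7899) (by norm_num) (by norm_num) (by norm_num) (by norm_num))
    (cube_sqrt_geJ (s := 0.9283) (by norm_num) (by norm_num) (by norm_num) (by norm_num))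
    (by norm_num) (by norm_num) (by norm_num) (by norm_num) (by norm_num) (by norm_num) (by norm_num) (by norm_num) (by norm_num) (by norm_num) (by norm_num) (by norm_num) (by norm_num) (by norm_num) (by norm_num) (by norm_num) (by norm_num) (by norm_num)
    (exp_neg_leJ (r := 0.717) 8 (by norm_num) (by norm_num) (by norm_num) (by norm_num))
    (exp_neg_leJ (r := 0.439) 5 (by norm_num) (by norm_num) (by norm_num) (by norm_num))
    (exp_neg_leJ (r := 0.899) 12 (by norm_num) (by norm_num) (by norm_num) (by norm_num))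
    (exp_neg_leJ (r := 0.99) 14 (by norm_num) (by norm_num) (by norm_num) (by norm_num))
    (exp_neg_leJ (r := 0.172) 9 (by norm_num) (by norm_num) (by norm_num) (by norm_num))
    (exp_neg_leJ (r := 0.99) 14 (by norm_num) (by norm_num) (by norm_num) (by norm_num))
    (exp_neg_leJ (r := 0.99) 14 (by norm_num) (by norm_num) (by norm_num) (by norm_num))
    (exp_neg_leJ (r := 0.99) 14 (by norm_num) (by norm_num) (by norm_num) (by norm_num))
    (by norm_num)) (by norm_num) hN hβ.le (by norm_num)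

private theorem JB8_S0_b4_3 {β x y : ℝ} (hβ : 0 < β) (hN : β * 18.52 ≤ 1) (hx1 : 0.6444 ≤ x) (hx2 : x ≤ 0.9956)
    (hy1 : -0.324 ≤ y) (hy2 : y ≤ -0.079) : ‖HH β (x + y * I) - 1‖ ≤ 0.1 := by
  refine le_epsJ (C := 1.8267) (N0 := 18.52) (J_boxp 0.6444 0.9956 0.324 0 (-0.079) 0.9337 1.047 1.3563 1.2909 0.4647 4.3035 18.52 1.1214 5.147 1.677 0.7381 0.4668 0.2923 0.7174 2.4977 0.491 1.3922 1.9787 3.1548 0.0001762 0.004459 0.000001699 0.0000003101 0.0001125 0.0000003101 0.0000003101 0.0000003101 1.8267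
    hβ hN hx1 hx2 hy1 hy2 (by norm_num) (by norm_num) (by linarith) (by norm_num) (by norm_num) (by norm_num) (by norm_num) (by norm_num) (by norm_num) (by norm_num) (by norm_num) (by norm_num) (by norm_num) (by norm_num) (by norm_num) (by norm_num) (by norm_num) (by norm_num) (by norm_num) (by norm_num) (by norm_num) (by norm_num) (by norm_num) (by norm_num)
    (cube_sqrt_geJ (s := 0.7913) (by norm_num) (by norm_num) (by norm_num) (by norm_num))
    (cube_sqrt_geJ (s := 0.9288) (by norm_num) (by norm_num) (by norm_num) (by norm_num))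
    (by norm_num) (by norm_num) (by norm_num) (by norm_num) (by norm_num) (by norm_num) (by norm_num) (by norm_num) (by norm_num) (by norm_num) (by norm_num) (by norm_num) (by norm_num) (by norm_num) (by norm_num) (by norm_num) (by norm_num) (by norm_num)
    (exp_neg_leJ (r := 0.645) 8 (by norm_num) (by norm_num) (by norm_num) (by norm_num))
    (exp_neg_leJ (r := 0.413) 5 (by norm_num) (by norm_num) (by norm_num) (by norm_num))
    (exp_neg_leJ (r := 0.286) 13 (by norm_num) (by norm_num) (by norm_num) (by norm_num))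
    (exp_neg_leJ (r := 0.99) 14 (by norm_num) (by norm_num) (by norm_num) (by norm_num))
    (exp_neg_leJ (r := 0.093) 9 (by norm_num) (by norm_num) (by norm_num) (by norm_num))
    (exp_neg_leJ (r := 0.99) 14 (by norm_num) (by norm_num) (by norm_num) (by norm_num))
    (exp_neg_leJ (r := 0.99) 14 (by norm_num) (by norm_num) (by norm_num) (by norm_num))
    (exp_neg_leJ (r := 0.99) 14 (by norm_num) (by norm_num) (by norm_num) (by norm_num))
    (by norm_num)) (by norm_num) hN hβ.le (by norm_num)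

private theorem JB8_S0_b4_4 {β x y : ℝ} (hβ : 0 < β) (hN : β * 18.52 ≤ 1) (hx1 : 0.6446 ≤ x) (hx2 : x ≤ 0.9576)
    (hy1 : -0.279 ≤ y) (hy2 : y ≤ -0.064) : ‖HH β (x + y * I) - 1‖ ≤ 0.1 := by
  refine le_epsJ (C := 1.3345) (N0 := 18.52) (J_boxp 0.6446 0.9576 0.279 0 (-0.064) 0.9658 0.9975 1.3391 1.2193 0.4617 4.3035 18.52 1.0329 4.381 1.606 0.7942 0.4828 0.3166 0.7885 2.664 0.5157 1.3925 2.1014 3.2897 0.0001313 0.002849 0.0000004552 0.0000003101 0.00007123 0.0000003101 0.0000003101 0.0000003101 1.3345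
    hβ hN hx1 hx2 hy1 hy2 (by norm_num) (by norm_num) (by linarith) (by norm_num) (by norm_num) (by norm_num) (by norm_num) (by norm_num) (by norm_num) (by norm_num) (by norm_num) (by norm_num) (by norm_num) (by norm_num) (by norm_num) (by norm_num) (by norm_num) (by norm_num) (by norm_num) (by norm_num) (by norm_num) (by norm_num) (by norm_num) (by norm_num)
    (cube_sqrt_geJ (s := 0.8097) (by norm_num) (by norm_num) (by norm_num) (by norm_num))
    (cube_sqrt_geJ (s := 0.9346) (by norm_num) (by norm_num) (by norm_num) (by norm_num))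
    (by norm_num) (by norm_num) (by norm_num) (by norm_num) (by norm_num) (by norm_num) (by norm_num) (by norm_num) (by norm_num) (by norm_num) (by norm_num) (by norm_num) (by norm_num) (by norm_num) (by norm_num) (by norm_num) (by norm_num) (by norm_num)
    (exp_neg_leJ (r := 0.941) 8 (by norm_num) (by norm_num) (by norm_num) (by norm_num))
    (exp_neg_leJ (r := 0.863) 5 (by norm_num) (by norm_num) (by norm_num) (by norm_num))
    (exp_neg_leJ (r := 0.603) 14 (by norm_num) (by norm_num) (by norm_num) (by norm_num))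
    (exp_neg_leJ (r := 0.99) 14 (by norm_num) (by norm_num) (by norm_num) (by norm_num))
    (exp_neg_leJ (r := 0.55) 9 (by norm_num) (by norm_num) (by norm_num) (by norm_num))
    (exp_neg_leJ (r := 0.99) 14 (by norm_num) (by norm_num) (by norm_num) (by norm_num))
    (exp_neg_leJ (r := 0.99) 14 (by norm_num) (by norm_num) (by norm_num) (by norm_num))
    (exp_neg_leJ (r := 0.99) 14 (by norm_num) (by norm_num) (by norm_num) (by norm_num))
    (by norm_num)) (by norm_num) hN hβ.le (by norm_num)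

private theorem JB8_S0_c4 {κ t β : ℝ} (h : DomR κ t) (hβ : 0 < β) (hk1 : 0.65 ≤ κ) (hk2 : κ ≤ 0.73)
    (ht1 : -0.4555 ≤ t + κ) (ht2 : t + κ ≤ -0.314) (hR0 : β * 10 ≤ κ) (hR : β * (8.82 * (1 + κ ^ 2)) ≤ κ) :
    ∀ s : ℂ, ‖s - sg κ t‖ ≤ 0.1 → ‖HH β s - 1‖ ≤ 0.1 := by
  have hN : β * 18.52 ≤ 1 := bNC hβ h.1 hk2 (by norm_num) (by norm_num) hR (by norm_num)
  have hy1 : -0.259 ≤ sy κ t := syL_ge h 0.65 0.73 0.4555 0.259 0.77182 0.77183 0.2653 0.27383 0.30755 hk1 hk2 (by linarith) (by norm_num) (by norm_num) (by norm_num)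
    (expm_ge (by norm_num) (by norm_num) (by norm_num) (by norm_num)) (expm_le (by norm_num) (by norm_num) (by norm_num)) (by norm_num)
    (by norm_num) (by norm_num) (by norm_num) (by norm_num) (by norm_num) (by norm_num)
  have hy2 : sy κ t ≤ -0.164 := syL_le h 0.65 0.73 0.314 0.164 0.84874 0.84875 0.19067 0.21415 hk1 hk2 (by linarith) (by norm_num) (by norm_num) (by norm_num)
    (expm_ge (by norm_num) (by norm_num) (by norm_num) (by norm_num)) (expm_le (by norm_num) (by norm_num) (by norm_num)) (by norm_num)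
    (by norm_num) (by norm_num) (by norm_num) (by norm_num) (by norm_num) (by norm_num)
  intro s hs
  have hs' : ‖s - ((sx κ t : ℂ) + (sy κ t : ℂ) * I)‖ ≤ 0.1 := hs
  obtain ⟨es, ⟨s1, s2⟩, ⟨s3, s4⟩⟩ := disc_split hs'
  rcases le_total (sy κ t) (-0.254) with f0 | g0
  · have hx1 : 0.7969 ≤ sx κ t := sx_lo h 0.65 (-0.254) 0.259 1.28917 0.7969 hk1 (by norm_num) f0 (abs_le.2 ⟨by linarith, by linarith⟩) (by rw [neg_neg]; exact expn_ge (by norm_num) (by norm_num)) (by norm_num) (by norm_num)
    have hx2 : sx κ t ≤ 0.9111 := sx_hi h 0.73 (-0.259) 0.254 1.29564 0.9111 hk2 hy1 (by norm_num) (by rw [abs_of_nonpos (by linarith)]; linarith) (by rw [neg_neg]; exact expn_le (by norm_num) (by norm_num) (by norm_num)) (by norm_num) (by norm_num)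
    rw [es]
    exact JB8_S0_b4_0 hβ hN (by linarith) (by linarith) (by linarith) (by linarith)
  rcases le_total (sy κ t) (-0.244) with f1 | g1
  · have hx1 : 0.7897 ≤ sx κ t := sx_lo h 0.65 (-0.244) 0.254 1.27634 0.7897 hk1 (by norm_num) f1 (abs_le.2 ⟨by linarith, by linarith⟩) (by rw [neg_neg]; exact expn_ge (by norm_num) (by norm_num)) (by norm_num) (by norm_num)
    have hx2 : sx κ t ≤ 0.909 := sx_hi h 0.73 (-0.254) 0.244 1.28918 0.909 hk2 g0 (by norm_num) (by rw [abs_of_nonpos (by linarith)]; linarith) (by rw [neg_neg]; exact expn_le (by norm_num) (by norm_num) (by norm_num)) (by norm_num) (by norm_num)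
    rw [es]
    exact JB8_S0_b4_1 hβ hN (by linarith) (by linarith) (by linarith) (by linarith)
  rcases le_total (sy κ t) (-0.224) with f2 | g2
  · have hx1 : 0.7757 ≤ sx κ t := sx_lo h 0.65 (-0.224) 0.244 1.25107 0.7757 hk1 (by norm_num) f2 (abs_le.2 ⟨by linarith, by linarith⟩) (by rw [neg_neg]; exact expn_ge (by norm_num) (by norm_num)) (by norm_num) (by norm_num)
    have hx2 : sx κ t ≤ 0.9045 := sx_hi h 0.73 (-0.244) 0.224 1.27635 0.9045 hk2 g1 (by norm_num) (by rw [abs_of_nonpos (by linarith)]; linarith) (by rw [neg_neg]; exact expn_le (by norm_num) (by norm_num) (by norm_num)) (by norm_num) (by norm_num)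
    rw [es]
    exact JB8_S0_b4_2 hβ hN (by linarith) (by linarith) (by linarith) (by linarith)
  rcases le_total (sy κ t) (-0.179) with f3 | g3
  · have hx1 : 0.7444 ≤ sx κ t := sx_lo h 0.65 (-0.179) 0.224 1.19602 0.7444 hk1 (by norm_num) f3 (abs_le.2 ⟨by linarith, by linarith⟩) (by rw [neg_neg]; exact expn_ge (by norm_num) (by norm_num)) (by norm_num) (by norm_num)
    have hx2 : sx κ t ≤ 0.8956 := sx_hi h 0.73 (-0.224) 0.179 1.25108 0.8956 hk2 g2 (by norm_num) (by rw [abs_of_nonpos (by linarith)]; linarith) (by rw [neg_neg]; exact expn_le (by norm_num) (by norm_num) (by norm_num)) (by norm_num) (by norm_num)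
    rw [es]
    exact JB8_S0_b4_3 hβ hN (by linarith) (by linarith) (by linarith) (by linarith)
  have hx1 : 0.7446 ≤ sx κ t := sx_lo h 0.65 (-0.164) 0.179 1.17821 0.7446 hk1 (by norm_num) hy2 (abs_le.2 ⟨by linarith, by linarith⟩) (by rw [neg_neg]; exact expn_ge (by norm_num) (by norm_num)) (by norm_num) (by norm_num)
  have hx2 : sx κ t ≤ 0.8576 := sx_hi h 0.73 (-0.179) 0.164 1.19603 0.8576 hk2 g3 (by norm_num) (by rw [abs_of_nonpos (by linarith)]; linarith) (by rw [neg_neg]; exact expn_le (by norm_num) (by norm_num) (by norm_num)) (by norm_num) (by norm_num)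
  rw [es]
  exact JB8_S0_b4_4 hβ hN (by linarith) (by linarith) (by linarith) (by linarith)

private theorem JB8_S0_b5_0 {β x y : ℝ} (hβ : 0 < β) (hN : β * 18.033 ≤ 1) (hx1 : 0.7998 ≤ x) (hx2 : x ≤ 1.1196)
    (hy1 : -0.359 ≤ y) (hy2 : y ≤ -0.149) : ‖HH β (x + y * I) - 1‖ ≤ 0.1 := by
  refine le_epsJ (C := 1.7666) (N0 := 18.033) (J_boxp 0.7998 1.1196 0.359 0 (-0.149) 1.0183 1.1758 1.4064 1.1541 0.4732 4.2466 18.033 1.1547 5.48 1.705 0.6581 0.5091 0.3131 0.7153 2.3148 0.5473 1.6074 2.1944 3.1155 0.0001031 0.003534 0.000002507 0.0000003101 0.00005186 0.0000003101 0.0000003101 0.0000003101 1.7666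
    hβ hN hx1 hx2 hy1 hy2 (by norm_num) (by norm_num) (by linarith) (by norm_num) (by norm_num) (by norm_num) (by norm_num) (by norm_num) (by norm_num) (by norm_num) (by norm_num) (by norm_num) (by norm_num) (by norm_num) (by norm_num) (by norm_num) (by norm_num) (by norm_num) (by norm_num) (by norm_num) (by norm_num) (by norm_num) (by norm_num) (by norm_num)
    (cube_sqrt_geJ (s := 0.7842) (by norm_num) (by norm_num) (by norm_num) (by norm_num))
    (cube_sqrt_geJ (s := 0.9266) (by norm_num) (by norm_num) (by norm_num) (by norm_num))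
    (by norm_num) (by norm_num) (by norm_num) (by norm_num) (by norm_num) (by norm_num) (by norm_num) (by norm_num) (by norm_num) (by norm_num) (by norm_num) (by norm_num) (by norm_num) (by norm_num) (by norm_num) (by norm_num) (by norm_num) (by norm_num)
    (exp_neg_leJ (r := 0.18) 9 (by norm_num) (by norm_num) (by norm_num) (by norm_num))
    (exp_neg_leJ (r := 0.646) 5 (by norm_num) (by norm_num) (by norm_num) (by norm_num))
    (exp_neg_leJ (r := 0.899) 12 (by norm_num) (by norm_num) (by norm_num) (by norm_num))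
    (exp_neg_leJ (r := 0.99) 14 (by norm_num) (by norm_num) (by norm_num) (by norm_num))
    (exp_neg_leJ (r := 0.869) 9 (by norm_num) (by norm_num) (by norm_num) (by norm_num))
    (exp_neg_leJ (r := 0.99) 14 (by norm_num) (by norm_num) (by norm_num) (by norm_num))
    (exp_neg_leJ (r := 0.99) 14 (by norm_num) (by norm_num) (by norm_num) (by norm_num))
    (exp_neg_leJ (r := 0.99) 14 (by norm_num) (by norm_num) (by norm_num) (by norm_num))
    (by norm_num)) (by norm_num) hN hβ.le (by norm_num)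

private theorem JB8_S0_b5_1 {β x y : ℝ} (hβ : 0 < β) (hN : β * 18.033 ≤ 1) (hx1 : 0.7834 ≤ x) (hx2 : x ≤ 1.1135)
    (hy1 : -0.349 ≤ y) (hy2 : y ≤ -0.129) : ‖HH β (x + y * I) - 1‖ ≤ 0.1 := by
  refine le_epsJ (C := 1.7676) (N0 := 18.033) (J_boxp 0.7834 1.1135 0.349 0 (-0.129) 1.0138 1.167 1.4137 1.1648 0.4744 4.2466 18.033 1.1512 5.443 1.703 0.6696 0.5068 0.3123 0.7255 2.3505 0.5448 1.5847 2.1888 3.1066 0.0001074 0.003587 0.000002083 0.0000003101 0.00005423 0.0000003101 0.0000003101 0.0000003101 1.7676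
    hβ hN hx1 hx2 hy1 hy2 (by norm_num) (by norm_num) (by linarith) (by norm_num) (by norm_num) (by norm_num) (by norm_num) (by norm_num) (by norm_num) (by norm_num) (by norm_num) (by norm_num) (by norm_num) (by norm_num) (by norm_num) (by norm_num) (by norm_num) (by norm_num) (by norm_num) (by norm_num) (by norm_num) (by norm_num) (by norm_num) (by norm_num)
    (cube_sqrt_geJ (s := 0.785) (by norm_num) (by norm_num) (by norm_num) (by norm_num))
    (cube_sqrt_geJ (s := 0.9268) (by norm_num) (by norm_num) (by norm_num) (by norm_num))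
    (by norm_num) (by norm_num) (by norm_num) (by norm_num) (by norm_num) (by norm_num) (by norm_num) (by norm_num) (by norm_num) (by norm_num) (by norm_num) (by norm_num) (by norm_num) (by norm_num) (by norm_num) (by norm_num) (by norm_num) (by norm_num)
    (exp_neg_leJ (r := 0.139) 9 (by norm_num) (by norm_num) (by norm_num) (by norm_num))
    (exp_neg_leJ (r := 0.631) 5 (by norm_num) (by norm_num) (by norm_num) (by norm_num))
    (exp_neg_leJ (r := 0.082) 13 (by norm_num) (by norm_num) (by norm_num) (by norm_num))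
    (exp_neg_leJ (r := 0.99) 14 (by norm_num) (by norm_num) (by norm_num) (by norm_num))
    (exp_neg_leJ (r := 0.824) 9 (by norm_num) (by norm_num) (by norm_num) (by norm_num))
    (exp_neg_leJ (r := 0.99) 14 (by norm_num) (by norm_num) (by norm_num) (by norm_num))
    (exp_neg_leJ (r := 0.99) 14 (by norm_num) (by norm_num) (by norm_num) (by norm_num))
    (exp_neg_leJ (r := 0.99) 14 (by norm_num) (by norm_num) (by norm_num) (by norm_num))
    (by norm_num)) (by norm_num) hN hβ.le (by norm_num)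

private theorem JB8_S0_b5_2 {β x y : ℝ} (hβ : 0 < β) (hN : β * 18.033 ≤ 1) (hx1 : 0.747 ≤ x) (hx2 : x ≤ 1.1017)
    (hy1 : -0.329 ≤ y) (hy2 : y ≤ -0.084) : ‖HH β (x + y * I) - 1‖ ≤ 0.1 := by
  refine le_epsJ (C := 1.7937) (N0 := 18.033) (J_boxp 0.747 1.1017 0.329 0 (-0.084) 1.0024 1.1498 1.4328 1.1927 0.4776 4.2466 18.033 1.1471 5.402 1.699 0.6926 0.5011 0.3095 0.7446 2.4215 0.5381 1.5343 2.1703 3.0805 0.0001191 0.003771 0.000001475 0.0000003101 0.00006115 0.0000003101 0.0000003101 0.0000003101 1.7937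
    hβ hN hx1 hx2 hy1 hy2 (by norm_num) (by norm_num) (by linarith) (by norm_num) (by norm_num) (by norm_num) (by norm_num) (by norm_num) (by norm_num) (by norm_num) (by norm_num) (by norm_num) (by norm_num) (by norm_num) (by norm_num) (by norm_num) (by norm_num) (by norm_num) (by norm_num) (by norm_num) (by norm_num) (by norm_num) (by norm_num) (by norm_num)
    (cube_sqrt_geJ (s := 0.7858) (by norm_num) (by norm_num) (by norm_num) (by norm_num))
    (cube_sqrt_geJ (s := 0.9271) (by norm_num) (by norm_num) (by norm_num) (by norm_num))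
    (by norm_num) (by norm_num) (by norm_num) (by norm_num) (by norm_num) (by norm_num) (by norm_num) (by norm_num) (by norm_num) (by norm_num) (by norm_num) (by norm_num) (by norm_num) (by norm_num) (by norm_num) (by norm_num) (by norm_num) (by norm_num)
    (exp_neg_leJ (r := 0.036) 9 (by norm_num) (by norm_num) (by norm_num) (by norm_num))
    (exp_neg_leJ (r := 0.581) 5 (by norm_num) (by norm_num) (by norm_num) (by norm_num))
    (exp_neg_leJ (r := 0.427) 13 (by norm_num) (by norm_num) (by norm_num) (by norm_num))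
    (exp_neg_leJ (r := 0.99) 14 (by norm_num) (by norm_num) (by norm_num) (by norm_num))
    (exp_neg_leJ (r := 0.703) 9 (by norm_num) (by norm_num) (by norm_num) (by norm_num))
    (exp_neg_leJ (r := 0.99) 14 (by norm_num) (by norm_num) (by norm_num) (by norm_num))
    (exp_neg_leJ (r := 0.99) 14 (by norm_num) (by norm_num) (by norm_num) (by norm_num))
    (exp_neg_leJ (r := 0.99) 14 (by norm_num) (by norm_num) (by norm_num) (by norm_num))
    (by norm_num)) (by norm_num) hN hβ.le (by norm_num)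

private theorem JB8_S0_b5_3 {β x y : ℝ} (hβ : 0 < β) (hN : β * 18.033 ≤ 1) (hx1 : 0.7437 ≤ x) (hx2 : x ≤ 1.0591)
    (hy1 : -0.284 ≤ y) (hy2 : y ≤ -0.068) : ‖HH β (x + y * I) - 1‖ ≤ 0.1 := by
  refine le_epsJ (C := 1.3349) (N0 := 18.033) (J_boxp 0.7437 1.0591 0.284 0 (-0.068) 1.032 1.0966 1.4108 1.133 0.4739 4.2466 18.033 1.0626 4.621 1.629 0.7506 0.5159 0.3332 0.8145 2.5903 0.5611 1.5297 2.2861 3.2186 0.00009116 0.00246 0.0000004187 0.0000003101 0.00004035 0.0000003101 0.0000003101 0.0000003101 1.3349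
    hβ hN hx1 hx2 hy1 hy2 (by norm_num) (by norm_num) (by linarith) (by norm_num) (by norm_num) (by norm_num) (by norm_num) (by norm_num) (by norm_num) (by norm_num) (by norm_num) (by norm_num) (by norm_num) (by norm_num) (by norm_num) (by norm_num) (by norm_num) (by norm_num) (by norm_num) (by norm_num) (by norm_num) (by norm_num) (by norm_num) (by norm_num)
    (cube_sqrt_geJ (s := 0.8036) (by norm_num) (by norm_num) (by norm_num) (by norm_num))
    (cube_sqrt_geJ (s := 0.9326) (by norm_num) (by norm_num) (by norm_num) (by norm_num))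
    (by norm_num) (by norm_num) (by norm_num) (by norm_num) (by norm_num) (by norm_num) (by norm_num) (by norm_num) (by norm_num) (by norm_num) (by norm_num) (by norm_num) (by norm_num) (by norm_num) (by norm_num) (by norm_num) (by norm_num) (by norm_num)
    (exp_neg_leJ (r := 0.303) 9 (by norm_num) (by norm_num) (by norm_num) (by norm_num))
    (exp_neg_leJ (r := 0.008) 6 (by norm_num) (by norm_num) (by norm_num) (by norm_num))
    (exp_neg_leJ (r := 0.687) 14 (by norm_num) (by norm_num) (by norm_num) (by norm_num))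
    (exp_neg_leJ (r := 0.99) 14 (by norm_num) (by norm_num) (by norm_num) (by norm_num))
    (exp_neg_leJ (r := 0.118) 10 (by norm_num) (by norm_num) (by norm_num) (by norm_num))
    (exp_neg_leJ (r := 0.99) 14 (by norm_num) (by norm_num) (by norm_num) (by norm_num))
    (exp_neg_leJ (r := 0.99) 14 (by norm_num) (by norm_num) (by norm_num) (by norm_num))
    (exp_neg_leJ (r := 0.99) 14 (by norm_num) (by norm_num) (by norm_num) (by norm_num))
    (by norm_num)) (by norm_num) hN hβ.le (by norm_num)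

private theorem JB8_S0_c5 {κ t β : ℝ} (h : DomR κ t) (hβ : 0 < β) (hk1 : 0.73 ≤ κ) (hk2 : κ ≤ 0.81)
    (ht1 : -0.4555 ≤ t + κ) (ht2 : t + κ ≤ -0.314) (hR0 : β * 10 ≤ κ) (hR : β * (8.82 * (1 + κ ^ 2)) ≤ κ) :
    ∀ s : ℂ, ‖s - sg κ t‖ ≤ 0.1 → ‖HH β s - 1‖ ≤ 0.1 := by
  have hN : β * 18.033 ≤ 1 := bNC hβ h.1 hk2 (by norm_num) (by norm_num) hR (by norm_num)
  have hy1 : -0.259 ≤ sy κ t := syL_ge h 0.73 0.81 0.4555 0.259 0.77182 0.77183 0.258 0.24679 0.27385 hk1 hk2 (by linarith) (by norm_num) (by norm_num) (by norm_num)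
    (expm_ge (by norm_num) (by norm_num) (by norm_num) (by norm_num)) (expm_le (by norm_num) (by norm_num) (by norm_num)) (by norm_num)
    (by norm_num) (by norm_num) (by norm_num) (by norm_num) (by norm_num) (by norm_num)
  have hy2 : sy κ t ≤ -0.168 := syL_le h 0.73 0.81 0.314 0.168 0.84535 0.84536 0.17533 0.19455 hk1 hk2 (by linarith) (by norm_num) (by norm_num) (by norm_num)
    (expm_ge (by norm_num) (by norm_num) (by norm_num) (by norm_num)) (expm_le (by norm_num) (by norm_num) (by norm_num)) (by norm_num)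
    (by norm_num) (by norm_num) (by norm_num) (by norm_num) (by norm_num) (by norm_num)
  intro s hs
  have hs' : ‖s - ((sx κ t : ℂ) + (sy κ t : ℂ) * I)‖ ≤ 0.1 := hs
  obtain ⟨es, ⟨s1, s2⟩, ⟨s3, s4⟩⟩ := disc_split hs'
  rcases le_total (sy κ t) (-0.249) with f0 | g0
  · have hx1 : 0.8998 ≤ sx κ t := sx_lo h 0.73 (-0.249) 0.259 1.28274 0.8998 hk1 (by norm_num) f0 (abs_le.2 ⟨by linarith, by linarith⟩) (by rw [neg_neg]; exact expn_ge (by norm_num) (by norm_num)) (by norm_num) (by norm_num)
    have hx2 : sx κ t ≤ 1.0196 := sx_hi h 0.81 (-0.259) 0.249 1.29564 1.0196 hk2 hy1 (by norm_num) (by rw [abs_of_nonpos (by linarith)]; linarith) (by rw [neg_neg]; exact expn_le (by norm_num) (by norm_num) (by norm_num)) (by norm_num) (by norm_num)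
    rw [es]
    exact JB8_S0_b5_0 hβ hN (by linarith) (by linarith) (by linarith) (by linarith)
  rcases le_total (sy κ t) (-0.229) with f1 | g1
  · have hx1 : 0.8834 ≤ sx κ t := sx_lo h 0.73 (-0.229) 0.249 1.25734 0.8834 hk1 (by norm_num) f1 (abs_le.2 ⟨by linarith, by linarith⟩) (by rw [neg_neg]; exact expn_ge (by norm_num) (by norm_num)) (by norm_num) (by norm_num)
    have hx2 : sx κ t ≤ 1.0135 := sx_hi h 0.81 (-0.249) 0.229 1.28275 1.0135 hk2 g0 (by norm_num) (by rw [abs_of_nonpos (by linarith)]; linarith) (by rw [neg_neg]; exact expn_le (by norm_num) (by norm_num) (by norm_num)) (by norm_num) (by norm_num)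
    rw [es]
    exact JB8_S0_b5_1 hβ hN (by linarith) (by linarith) (by linarith) (by linarith)
  rcases le_total (sy κ t) (-0.184) with f2 | g2
  · have hx1 : 0.847 ≤ sx κ t := sx_lo h 0.73 (-0.184) 0.229 1.20201 0.847 hk1 (by norm_num) f2 (abs_le.2 ⟨by linarith, by linarith⟩) (by rw [neg_neg]; exact expn_ge (by norm_num) (by norm_num)) (by norm_num) (by norm_num)
    have hx2 : sx κ t ≤ 1.0017 := sx_hi h 0.81 (-0.229) 0.184 1.25735 1.0017 hk2 g1 (by norm_num) (by rw [abs_of_nonpos (by linarith)]; linarith) (by rw [neg_neg]; exact expn_le (by norm_num) (by norm_num) (by norm_num)) (by norm_num) (by norm_num)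
    rw [es]
    exact JB8_S0_b5_2 hβ hN (by linarith) (by linarith) (by linarith) (by linarith)
  have hx1 : 0.8437 ≤ sx κ t := sx_lo h 0.73 (-0.168) 0.184 1.18293 0.8437 hk1 (by norm_num) hy2 (abs_le.2 ⟨by linarith, by linarith⟩) (by rw [neg_neg]; exact expn_ge (by norm_num) (by norm_num)) (by norm_num) (by norm_num)
  have hx2 : sx κ t ≤ 0.9591 := sx_hi h 0.81 (-0.184) 0.168 1.20202 0.9591 hk2 g2 (by norm_num) (by rw [abs_of_nonpos (by linarith)]; linarith) (by rw [neg_neg]; exact expn_le (by norm_num) (by norm_num) (by norm_num)) (by norm_num) (by norm_num)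
  rw [es]
  exact JB8_S0_b5_3 hβ hN (by linarith) (by linarith) (by linarith) (by linarith)

private theorem JB8_S0_b6_0 {β x y : ℝ} (hβ : 0 < β) (hN : β * 17.737 ≤ 1) (hx1 : 0.9062 ≤ x) (hx2 : x ≤ 1.2392)
    (hy1 : -0.359 ≤ y) (hy2 : y ≤ -0.149) : ‖HH β (x + y * I) - 1‖ ≤ 0.1 := by
  refine le_epsJ (C := 1.745) (N0 := 17.737) (J_boxp 0.9062 1.2392 0.359 0 (-0.149) 1.0932 1.2902 1.5033 1.0727 0.4892 4.2116 17.737 1.1803 5.754 1.727 0.6121 0.5465 0.3315 0.7518 2.2471 0.599 1.7547 2.4072 3.0173 0.00006177 0.002804 0.000001619 0.0000003101 0.00002434 0.0000003101 0.0000003101 0.0000003101 1.745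
    hβ hN hx1 hx2 hy1 hy2 (by norm_num) (by norm_num) (by linarith) (by norm_num) (by norm_num) (by norm_num) (by norm_num) (by norm_num) (by norm_num) (by norm_num) (by norm_num) (by norm_num) (by norm_num) (by norm_num) (by norm_num) (by norm_num) (by norm_num) (by norm_num) (by norm_num) (by norm_num) (by norm_num) (by norm_num) (by norm_num) (by norm_num)
    (cube_sqrt_geJ (s := 0.7788) (by norm_num) (by norm_num) (by norm_num) (by norm_num))
    (cube_sqrt_geJ (s := 0.9249) (by norm_num) (by norm_num) (by norm_num) (by norm_num))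
    (by norm_num) (by norm_num) (by norm_num) (by norm_num) (by norm_num) (by norm_num) (by norm_num) (by norm_num) (by norm_num) (by norm_num) (by norm_num) (by norm_num) (by norm_num) (by norm_num) (by norm_num) (by norm_num) (by norm_num) (by norm_num)
    (exp_neg_leJ (r := 0.693) 9 (by norm_num) (by norm_num) (by norm_num) (by norm_num))
    (exp_neg_leJ (r := 0.879) 5 (by norm_num) (by norm_num) (by norm_num) (by norm_num))
    (exp_neg_leJ (r := 0.334) 13 (by norm_num) (by norm_num) (by norm_num) (by norm_num))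
    (exp_neg_leJ (r := 0.99) 14 (by norm_num) (by norm_num) (by norm_num) (by norm_num))
    (exp_neg_leJ (r := 0.624) 10 (by norm_num) (by norm_num) (by norm_num) (by norm_num))
    (exp_neg_leJ (r := 0.99) 14 (by norm_num) (by norm_num) (by norm_num) (by norm_num))
    (exp_neg_leJ (r := 0.99) 14 (by norm_num) (by norm_num) (by norm_num) (by norm_num))
    (exp_neg_leJ (r := 0.99) 14 (by norm_num) (by norm_num) (by norm_num) (by norm_num))
    (by norm_num)) (by norm_num) hN hβ.le (by norm_num)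

private theorem JB8_S0_b6_1 {β x y : ℝ} (hβ : 0 < β) (hN : β * 17.737 ≤ 1) (hx1 : 0.8875 ≤ x) (hx2 : x ≤ 1.2316)
    (hy1 : -0.349 ≤ y) (hy2 : y ≤ -0.129) : ‖HH β (x + y * I) - 1‖ ≤ 0.1 := by
  refine le_epsJ (C := 1.7514) (N0 := 17.737) (J_boxp 0.8875 1.2316 0.349 0 (-0.129) 1.0871 1.2801 1.5085 1.0836 0.49 4.2116 17.737 1.1776 5.724 1.725 0.6242 0.5435 0.3301 0.7611 2.2835 0.5954 1.7288 2.397 3.0074 0.00006511 0.002874 0.000001373 0.0000003101 0.00002595 0.0000003101 0.0000003101 0.0000003101 1.7514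
    hβ hN hx1 hx2 hy1 hy2 (by norm_num) (by norm_num) (by linarith) (by norm_num) (by norm_num) (by norm_num) (by norm_num) (by norm_num) (by norm_num) (by norm_num) (by norm_num) (by norm_num) (by norm_num) (by norm_num) (by norm_num) (by norm_num) (by norm_num) (by norm_num) (by norm_num) (by norm_num) (by norm_num) (by norm_num) (by norm_num) (by norm_num)
    (cube_sqrt_geJ (s := 0.7794) (by norm_num) (by norm_num) (by norm_num) (by norm_num))
    (cube_sqrt_geJ (s := 0.9251) (by norm_num) (by norm_num) (by norm_num) (by norm_num))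
    (by norm_num) (by norm_num) (by norm_num) (by norm_num) (by norm_num) (by norm_num) (by norm_num) (by norm_num) (by norm_num) (by norm_num) (by norm_num) (by norm_num) (by norm_num) (by norm_num) (by norm_num) (by norm_num) (by norm_num) (by norm_num)
    (exp_neg_leJ (r := 0.64) 9 (by norm_num) (by norm_num) (by norm_num) (by norm_num))
    (exp_neg_leJ (r := 0.854) 5 (by norm_num) (by norm_num) (by norm_num) (by norm_num))
    (exp_neg_leJ (r := 0.499) 13 (by norm_num) (by norm_num) (by norm_num) (by norm_num))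
    (exp_neg_leJ (r := 0.99) 14 (by norm_num) (by norm_num) (by norm_num) (by norm_num))
    (exp_neg_leJ (r := 0.56) 10 (by norm_num) (by norm_num) (by norm_num) (by norm_num))
    (exp_neg_leJ (r := 0.99) 14 (by norm_num) (by norm_num) (by norm_num) (by norm_num))
    (exp_neg_leJ (r := 0.99) 14 (by norm_num) (by norm_num) (by norm_num) (by norm_num))
    (exp_neg_leJ (r := 0.99) 14 (by norm_num) (by norm_num) (by norm_num) (by norm_num))
    (by norm_num)) (by norm_num) hN hβ.le (by norm_num)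

private theorem JB8_S0_b6_2 {β x y : ℝ} (hβ : 0 < β) (hN : β * 17.737 ≤ 1) (hx1 : 0.8513 ≤ x) (hx2 : x ≤ 1.2158)
    (hy1 : -0.329 ≤ y) (hy2 : y ≤ -0.089) : ‖HH β (x + y * I) - 1‖ ≤ 0.1 := by
  refine le_epsJ (C := 1.7555) (N0 := 17.737) (J_boxp 0.8513 1.2158 0.329 0 (-0.089) 1.0758 1.2596 1.5193 1.1047 0.4918 4.2116 17.737 1.1709 5.651 1.719 0.6488 0.5378 0.3279 0.7803 2.3567 0.5887 1.6787 2.3789 2.9907 0.00007208 0.002988 0.0000009776 0.0000003101 0.00002922 0.0000003101 0.0000003101 0.0000003101 1.7555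
    hβ hN hx1 hx2 hy1 hy2 (by norm_num) (by norm_num) (by linarith) (by norm_num) (by norm_num) (by norm_num) (by norm_num) (by norm_num) (by norm_num) (by norm_num) (by norm_num) (by norm_num) (by norm_num) (by norm_num) (by norm_num) (by norm_num) (by norm_num) (by norm_num) (by norm_num) (by norm_num) (by norm_num) (by norm_num) (by norm_num) (by norm_num)
    (cube_sqrt_geJ (s := 0.7808) (by norm_num) (by norm_num) (by norm_num) (by norm_num))
    (cube_sqrt_geJ (s := 0.9255) (by norm_num) (by norm_num) (by norm_num) (by norm_num))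
    (by norm_num) (by norm_num) (by norm_num) (by norm_num) (by norm_num) (by norm_num) (by norm_num) (by norm_num) (by norm_num) (by norm_num) (by norm_num) (by norm_num) (by norm_num) (by norm_num) (by norm_num) (by norm_num) (by norm_num) (by norm_num)
    (exp_neg_leJ (r := 0.538) 9 (by norm_num) (by norm_num) (by norm_num) (by norm_num))
    (exp_neg_leJ (r := 0.815) 5 (by norm_num) (by norm_num) (by norm_num) (by norm_num))
    (exp_neg_leJ (r := 0.84) 13 (by norm_num) (by norm_num) (by norm_num) (by norm_num))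
    (exp_neg_leJ (r := 0.99) 14 (by norm_num) (by norm_num) (by norm_num) (by norm_num))
    (exp_neg_leJ (r := 0.441) 10 (by norm_num) (by norm_num) (by norm_num) (by norm_num))
    (exp_neg_leJ (r := 0.99) 14 (by norm_num) (by norm_num) (by norm_num) (by norm_num))
    (exp_neg_leJ (r := 0.99) 14 (by norm_num) (by norm_num) (by norm_num) (by norm_num))
    (exp_neg_leJ (r := 0.99) 14 (by norm_num) (by norm_num) (by norm_num) (by norm_num))
    (by norm_num)) (by norm_num) hN hβ.le (by norm_num)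

private theorem JB8_S0_b6_3 {β x y : ℝ} (hβ : 0 < β) (hN : β * 17.737 ≤ 1) (hx1 : 0.8413 ≤ x) (hx2 : x ≤ 1.1739)
    (hy1 : -0.289 ≤ y) (hy2 : y ≤ -0.07) : ‖HH β (x + y * I) - 1‖ ≤ 0.1 := by
  refine le_epsJ (C := 1.3884) (N0 := 17.737) (J_boxp 0.8413 1.1739 0.289 0 (-0.07) 1.0972 1.209 1.4977 1.0649 0.4883 4.2116 17.737 1.1019 4.964 1.661 0.7018 0.5485 0.347 0.84 2.5088 0.6057 1.6648 2.4677 3.1082 0.00005965 0.002125 0.0000003393 0.0000003101 0.00002162 0.0000003101 0.0000003101 0.0000003101 1.3884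
    hβ hN hx1 hx2 hy1 hy2 (by norm_num) (by norm_num) (by linarith) (by norm_num) (by norm_num) (by norm_num) (by norm_num) (by norm_num) (by norm_num) (by norm_num) (by norm_num) (by norm_num) (by norm_num) (by norm_num) (by norm_num) (by norm_num) (by norm_num) (by norm_num) (by norm_num) (by norm_num) (by norm_num) (by norm_num) (by norm_num) (by norm_num)
    (cube_sqrt_geJ (s := 0.7954) (by norm_num) (by norm_num) (by norm_num) (by norm_num))
    (cube_sqrt_geJ (s := 0.93) (by norm_num) (by norm_num) (by norm_num) (by norm_num))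
    (by norm_num) (by norm_num) (by norm_num) (by norm_num) (by norm_num) (by norm_num) (by norm_num) (by norm_num) (by norm_num) (by norm_num) (by norm_num) (by norm_num) (by norm_num) (by norm_num) (by norm_num) (by norm_num) (by norm_num) (by norm_num)
    (exp_neg_leJ (r := 0.728) 9 (by norm_num) (by norm_num) (by norm_num) (by norm_num))
    (exp_neg_leJ (r := 0.154) 6 (by norm_num) (by norm_num) (by norm_num) (by norm_num))
    (exp_neg_leJ (r := 0.899) 14 (by norm_num) (by norm_num) (by norm_num) (by norm_num))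
    (exp_neg_leJ (r := 0.99) 14 (by norm_num) (by norm_num) (by norm_num) (by norm_num))
    (exp_neg_leJ (r := 0.743) 10 (by norm_num) (by norm_num) (by norm_num) (by norm_num))
    (exp_neg_leJ (r := 0.99) 14 (by norm_num) (by norm_num) (by norm_num) (by norm_num))
    (exp_neg_leJ (r := 0.99) 14 (by norm_num) (by norm_num) (by norm_num) (by norm_num))
    (exp_neg_leJ (r := 0.99) 14 (by norm_num) (by norm_num) (by norm_num) (by norm_num))
    (by norm_num)) (by norm_num) hN hβ.le (by norm_num)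

private theorem JB8_S0_c6 {κ t β : ℝ} (h : DomR κ t) (hβ : 0 < β) (hk1 : 0.81 ≤ κ) (hk2 : κ ≤ 0.9)
    (ht1 : -0.4555 ≤ t + κ) (ht2 : t + κ ≤ -0.314) (hR0 : β * 10 ≤ κ) (hR : β * (8.82 * (1 + κ ^ 2)) ≤ κ) :
    ∀ s : ℂ, ‖s - sg κ t‖ ≤ 0.1 → ‖HH β s - 1‖ ≤ 0.1 := by
  have hN : β * 17.737 ≤ 1 := bNC hβ h.1 hk2 (by norm_num) (by norm_num) hR (by norm_num)
  have hy1 : -0.259 ≤ sy κ t := syL_ge h 0.81 0.9 0.4555 0.259 0.77182 0.77183 0.2365 0.22211 0.2468 hk1 hk2 (by linarith) (by norm_num) (by norm_num) (by norm_num)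
    (expm_ge (by norm_num) (by norm_num) (by norm_num) (by norm_num)) (expm_le (by norm_num) (by norm_num) (by norm_num)) (by norm_num)
    (by norm_num) (by norm_num) (by norm_num) (by norm_num) (by norm_num) (by norm_num)
  have hy2 : sy κ t ≤ -0.17 := syL_le h 0.81 0.9 0.314 0.17 0.84366 0.84367 0.15935 0.17707 hk1 hk2 (by linarith) (by norm_num) (by norm_num) (by norm_num)
    (expm_ge (by norm_num) (by norm_num) (by norm_num) (by norm_num)) (expm_le (by norm_num) (by norm_num) (by norm_num)) (by norm_num)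
    (by norm_num) (by norm_num) (by norm_num) (by norm_num) (by norm_num) (by norm_num)
  intro s hs
  have hs' : ‖s - ((sx κ t : ℂ) + (sy κ t : ℂ) * I)‖ ≤ 0.1 := hs
  obtain ⟨es, ⟨s1, s2⟩, ⟨s3, s4⟩⟩ := disc_split hs'
  rcases le_total (sy κ t) (-0.249) with f0 | g0
  · have hx1 : 1.0062 ≤ sx κ t := sx_lo h 0.81 (-0.249) 0.259 1.28274 1.0062 hk1 (by norm_num) f0 (abs_le.2 ⟨by linarith, by linarith⟩) (by rw [neg_neg]; exact expn_ge (by norm_num) (by norm_num)) (by norm_num) (by norm_num)
    have hx2 : sx κ t ≤ 1.1392 := sx_hi h 0.9 (-0.259) 0.249 1.29564 1.1392 hk2 hy1 (by norm_num) (by rw [abs_of_nonpos (by linarith)]; linarith) (by rw [neg_neg]; exact expn_le (by norm_num) (by norm_num) (by norm_num)) (by norm_num) (by norm_num)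
    rw [es]
    exact JB8_S0_b6_0 hβ hN (by linarith) (by linarith) (by linarith) (by linarith)
  rcases le_total (sy κ t) (-0.229) with f1 | g1
  · have hx1 : 0.9875 ≤ sx κ t := sx_lo h 0.81 (-0.229) 0.249 1.25734 0.9875 hk1 (by norm_num) f1 (abs_le.2 ⟨by linarith, by linarith⟩) (by rw [neg_neg]; exact expn_ge (by norm_num) (by norm_num)) (by norm_num) (by norm_num)
    have hx2 : sx κ t ≤ 1.1316 := sx_hi h 0.9 (-0.249) 0.229 1.28275 1.1316 hk2 g0 (by norm_num) (by rw [abs_of_nonpos (by linarith)]; linarith) (by rw [neg_neg]; exact expn_le (by norm_num) (by norm_num) (by norm_num)) (by norm_num) (by norm_num)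
    rw [es]
    exact JB8_S0_b6_1 hβ hN (by linarith) (by linarith) (by linarith) (by linarith)
  rcases le_total (sy κ t) (-0.189) with f2 | g2
  · have hx1 : 0.9513 ≤ sx κ t := sx_lo h 0.81 (-0.189) 0.229 1.20804 0.9513 hk1 (by norm_num) f2 (abs_le.2 ⟨by linarith, by linarith⟩) (by rw [neg_neg]; exact expn_ge (by norm_num) (by norm_num)) (by norm_num) (by norm_num)
    have hx2 : sx κ t ≤ 1.1158 := sx_hi h 0.9 (-0.229) 0.189 1.25735 1.1158 hk2 g1 (by norm_num) (by rw [abs_of_nonpos (by linarith)]; linarith) (by rw [neg_neg]; exact expn_le (by norm_num) (by norm_num) (by norm_num)) (by norm_num) (by norm_num)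
    rw [es]
    exact JB8_S0_b6_2 hβ hN (by linarith) (by linarith) (by linarith) (by linarith)
  have hx1 : 0.9413 ≤ sx κ t := sx_lo h 0.81 (-0.17) 0.189 1.1853 0.9413 hk1 (by norm_num) hy2 (abs_le.2 ⟨by linarith, by linarith⟩) (by rw [neg_neg]; exact expn_ge (by norm_num) (by norm_num)) (by norm_num) (by norm_num)
  have hx2 : sx κ t ≤ 1.0739 := sx_hi h 0.9 (-0.189) 0.17 1.20805 1.0739 hk2 g2 (by norm_num) (by rw [abs_of_nonpos (by linarith)]; linarith) (by rw [neg_neg]; exact expn_le (by norm_num) (by norm_num) (by norm_num)) (by norm_num) (by norm_num)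
  rw [es]
  exact JB8_S0_b6_3 hβ hN (by linarith) (by linarith) (by linarith) (by linarith)

private theorem JB8_S0_b7_0 {β x y : ℝ} (hβ : 0 < β) (hN : β * 17.639 ≤ 1) (hx1 : 1.0162 ≤ x) (hx2 : x ≤ 1.3691)
    (hy1 : -0.356 ≤ y) (hy2 : y ≤ -0.141) : ‖HH β (x + y * I) - 1‖ ≤ 0.1 := by
  refine le_epsJ (C := 1.7331) (N0 := 17.639) (J_boxp 1.0162 1.3691 0.356 0 (-0.141) 1.1728 1.4147 1.6163 1.001 0.5072 4.1999 17.639 1.2063 6.051 1.75 0.5649 0.5863 0.3506 0.7942 2.1829 0.6541 1.907 2.6353 2.8989 0.00003229 0.002063 0.000000825 0.0000003101 0.000009765 0.0000003101 0.0000003101 0.0000003101 1.7331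
    hβ hN hx1 hx2 hy1 hy2 (by norm_num) (by norm_num) (by linarith) (by norm_num) (by norm_num) (by norm_num) (by norm_num) (by norm_num) (by norm_num) (by norm_num) (by norm_num) (by norm_num) (by norm_num) (by norm_num) (by norm_num) (by norm_num) (by norm_num) (by norm_num) (by norm_num) (by norm_num) (by norm_num) (by norm_num) (by norm_num) (by norm_num)
    (cube_sqrt_geJ (s := 0.7732) (by norm_num) (by norm_num) (by norm_num) (by norm_num))
    (cube_sqrt_geJ (s := 0.9232) (by norm_num) (by norm_num) (by norm_num) (by norm_num))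
    (by norm_num) (by norm_num) (by norm_num) (by norm_num) (by norm_num) (by norm_num) (by norm_num) (by norm_num) (by norm_num) (by norm_num) (by norm_num) (by norm_num) (by norm_num) (by norm_num) (by norm_num) (by norm_num) (by norm_num) (by norm_num)
    (exp_neg_leJ (r := 0.341) 10 (by norm_num) (by norm_num) (by norm_num) (by norm_num))
    (exp_neg_leJ (r := 0.184) 6 (by norm_num) (by norm_num) (by norm_num) (by norm_num))
    (exp_neg_leJ (r := 0.008) 14 (by norm_num) (by norm_num) (by norm_num) (by norm_num))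
    (exp_neg_leJ (r := 0.99) 14 (by norm_num) (by norm_num) (by norm_num) (by norm_num))
    (exp_neg_leJ (r := 0.537) 11 (by norm_num) (by norm_num) (by norm_num) (by norm_num))
    (exp_neg_leJ (r := 0.99) 14 (by norm_num) (by norm_num) (by norm_num) (by norm_num))
    (exp_neg_leJ (r := 0.99) 14 (by norm_num) (by norm_num) (by norm_num) (by norm_num))
    (exp_neg_leJ (r := 0.99) 14 (by norm_num) (by norm_num) (by norm_num) (by norm_num))
    (by norm_num)) (by norm_num) hN hβ.le (by norm_num)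

private theorem JB8_S0_b7_1 {β x y : ℝ} (hβ : 0 < β) (hN : β * 17.639 ≤ 1) (hx1 : 0.9849 ≤ x) (hx2 : x ≤ 1.355)
    (hy1 : -0.341 ≤ y) (hy2 : y ≤ -0.111) : ‖HH β (x + y * I) - 1‖ ≤ 0.1 := by
  refine le_epsJ (C := 1.7484) (N0 := 17.639) (J_boxp 0.9849 1.355 0.341 0 (-0.111) 1.1614 1.3973 1.6207 1.0172 0.5079 4.1999 17.639 1.2032 6.015 1.747 0.5841 0.5806 0.3478 0.8071 2.239 0.6471 1.8637 2.6135 2.8836 0.00003568 0.002168 0.0000006568 0.0000003101 0.00001105 0.0000003101 0.0000003101 0.0000003101 1.7484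
    hβ hN hx1 hx2 hy1 hy2 (by norm_num) (by norm_num) (by linarith) (by norm_num) (by norm_num) (by norm_num) (by norm_num) (by norm_num) (by norm_num) (by norm_num) (by norm_num) (by norm_num) (by norm_num) (by norm_num) (by norm_num) (by norm_num) (by norm_num) (by norm_num) (by norm_num) (by norm_num) (by norm_num) (by norm_num) (by norm_num) (by norm_num)
    (cube_sqrt_geJ (s := 0.7739) (by norm_num) (by norm_num) (by norm_num) (by norm_num))
    (cube_sqrt_geJ (s := 0.9234) (by norm_num) (by norm_num) (by norm_num) (by norm_num))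
    (by norm_num) (by norm_num) (by norm_num) (by norm_num) (by norm_num) (by norm_num) (by norm_num) (by norm_num) (by norm_num) (by norm_num) (by norm_num) (by norm_num) (by norm_num) (by norm_num) (by norm_num) (by norm_num) (by norm_num) (by norm_num)
    (exp_neg_leJ (r := 0.241) 10 (by norm_num) (by norm_num) (by norm_num) (by norm_num))
    (exp_neg_leJ (r := 0.134) 6 (by norm_num) (by norm_num) (by norm_num) (by norm_num))
    (exp_neg_leJ (r := 0.236) 14 (by norm_num) (by norm_num) (by norm_num) (by norm_num))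
    (exp_neg_leJ (r := 0.99) 14 (by norm_num) (by norm_num) (by norm_num) (by norm_num))
    (exp_neg_leJ (r := 0.414) 11 (by norm_num) (by norm_num) (by norm_num) (by norm_num))
    (exp_neg_leJ (r := 0.99) 14 (by norm_num) (by norm_num) (by norm_num) (by norm_num))
    (exp_neg_leJ (r := 0.99) 14 (by norm_num) (by norm_num) (by norm_num) (by norm_num))
    (exp_neg_leJ (r := 0.99) 14 (by norm_num) (by norm_num) (by norm_num) (by norm_num))
    (by norm_num)) (by norm_num) hN hβ.le (by norm_num)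

private theorem JB8_S0_b7_2 {β x y : ℝ} (hβ : 0 < β) (hN : β * 17.639 ≤ 1) (hx1 : 0.9435 ≤ x) (hx2 : x ≤ 1.3235)
    (hy1 : -0.311 ≤ y) (hy2 : y ≤ -0.068) : ‖HH β (x + y * I) - 1‖ ≤ 0.1 := by
  refine le_epsJ (C := 1.6493) (N0 := 17.639) (J_boxp 0.9435 1.3235 0.311 0 (-0.068) 1.1535 1.3596 1.6188 1.027 0.5076 4.1999 17.639 1.1787 5.737 1.726 0.624 0.5767 0.3501 0.8403 2.353 0.6434 1.8063 2.6123 2.9032 0.00003823 0.002081 0.0000003661 0.0000003101 0.0000118 0.0000003101 0.0000003101 0.0000003101 1.6493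
    hβ hN hx1 hx2 hy1 hy2 (by norm_num) (by norm_num) (by linarith) (by norm_num) (by norm_num) (by norm_num) (by norm_num) (by norm_num) (by norm_num) (by norm_num) (by norm_num) (by norm_num) (by norm_num) (by norm_num) (by norm_num) (by norm_num) (by norm_num) (by norm_num) (by norm_num) (by norm_num) (by norm_num) (by norm_num) (by norm_num) (by norm_num)
    (cube_sqrt_geJ (s := 0.7791) (by norm_num) (by norm_num) (by norm_num) (by norm_num))
    (cube_sqrt_geJ (s := 0.925) (by norm_num) (by norm_num) (by norm_num) (by norm_num))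
    (by norm_num) (by norm_num) (by norm_num) (by norm_num) (by norm_num) (by norm_num) (by norm_num) (by norm_num) (by norm_num) (by norm_num) (by norm_num) (by norm_num) (by norm_num) (by norm_num) (by norm_num) (by norm_num) (by norm_num) (by norm_num)
    (exp_neg_leJ (r := 0.172) 10 (by norm_num) (by norm_num) (by norm_num) (by norm_num))
    (exp_neg_leJ (r := 0.175) 6 (by norm_num) (by norm_num) (by norm_num) (by norm_num))
    (exp_neg_leJ (r := 0.822) 14 (by norm_num) (by norm_num) (by norm_num) (by norm_num))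
    (exp_neg_leJ (r := 0.99) 14 (by norm_num) (by norm_num) (by norm_num) (by norm_num))
    (exp_neg_leJ (r := 0.348) 11 (by norm_num) (by norm_num) (by norm_num) (by norm_num))
    (exp_neg_leJ (r := 0.99) 14 (by norm_num) (by norm_num) (by norm_num) (by norm_num))
    (exp_neg_leJ (r := 0.99) 14 (by norm_num) (by norm_num) (by norm_num) (by norm_num))
    (exp_neg_leJ (r := 0.99) 14 (by norm_num) (by norm_num) (by norm_num) (by norm_num))
    (by norm_num)) (by norm_num) hN hβ.le (by norm_num)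

private theorem JB8_S0_c7 {κ t β : ℝ} (h : DomR κ t) (hβ : 0 < β) (hk1 : 0.9 ≤ κ) (hk2 : κ ≤ 1)
    (ht1 : -0.4555 ≤ t + κ) (ht2 : t + κ ≤ -0.314) (hR0 : β * 10 ≤ κ) (hR : β * (8.82 * (1 + κ ^ 2)) ≤ κ) :
    ∀ s : ℂ, ‖s - sg κ t‖ ≤ 0.1 → ‖HH β s - 1‖ ≤ 0.1 := by
  have hN : β * 17.639 ≤ 1 := bNC hβ h.1 hk2 (by norm_num) (by norm_num) hR (by norm_num)
  have hy1 : -0.256 ≤ sy κ t := syL_ge h 0.9 1 0.4555 0.256 0.77414 0.77415 0.2128 0.19817 0.22021 hk1 hk2 (by linarith) (by norm_num) (by norm_num) (by norm_num)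
    (expm_ge (by norm_num) (by norm_num) (by norm_num) (by norm_num)) (expm_le (by norm_num) (by norm_num) (by norm_num)) (by norm_num)
    (by norm_num) (by norm_num) (by norm_num) (by norm_num) (by norm_num) (by norm_num)
  have hy2 : sy κ t ≤ -0.168 := syL_le h 0.9 1 0.314 0.168 0.84535 0.84536 0.14201 0.15781 hk1 hk2 (by linarith) (by norm_num) (by norm_num) (by norm_num)
    (expm_ge (by norm_num) (by norm_num) (by norm_num) (by norm_num)) (expm_le (by norm_num) (by norm_num) (by norm_num)) (by norm_num)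
    (by norm_num) (by norm_num) (by norm_num) (by norm_num) (by norm_num) (by norm_num)
  intro s hs
  have hs' : ‖s - ((sx κ t : ℂ) + (sy κ t : ℂ) * I)‖ ≤ 0.1 := hs
  obtain ⟨es, ⟨s1, s2⟩, ⟨s3, s4⟩⟩ := disc_split hs'
  rcases le_total (sy κ t) (-0.241) with f0 | g0
  · have hx1 : 1.1162 ≤ sx κ t := sx_lo h 0.9 (-0.241) 0.256 1.27252 1.1162 hk1 (by norm_num) f0 (abs_le.2 ⟨by linarith, by linarith⟩) (by rw [neg_neg]; exact expn_ge (by norm_num) (by norm_num)) (by norm_num) (by norm_num)
    have hx2 : sx κ t ≤ 1.2691 := sx_hi h 1 (-0.256) 0.241 1.29176 1.2691 hk2 hy1 (by norm_num) (by rw [abs_of_nonpos (by linarith)]; linarith) (by rw [neg_neg]; exact expn_le (by norm_num) (by norm_num) (by norm_num)) (by norm_num) (by norm_num)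
    rw [es]
    exact JB8_S0_b7_0 hβ hN (by linarith) (by linarith) (by linarith) (by linarith)
  rcases le_total (sy κ t) (-0.211) with f1 | g1
  · have hx1 : 1.0849 ≤ sx κ t := sx_lo h 0.9 (-0.211) 0.241 1.23491 1.0849 hk1 (by norm_num) f1 (abs_le.2 ⟨by linarith, by linarith⟩) (by rw [neg_neg]; exact expn_ge (by norm_num) (by norm_num)) (by norm_num) (by norm_num)
    have hx2 : sx κ t ≤ 1.255 := sx_hi h 1 (-0.241) 0.211 1.27253 1.255 hk2 g0 (by norm_num) (by rw [abs_of_nonpos (by linarith)]; linarith) (by rw [neg_neg]; exact expn_le (by norm_num) (by norm_num) (by norm_num)) (by norm_num) (by norm_num)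
    rw [es]
    exact JB8_S0_b7_1 hβ hN (by linarith) (by linarith) (by linarith) (by linarith)
  have hx1 : 1.0435 ≤ sx κ t := sx_lo h 0.9 (-0.168) 0.211 1.18293 1.0435 hk1 (by norm_num) hy2 (abs_le.2 ⟨by linarith, by linarith⟩) (by rw [neg_neg]; exact expn_ge (by norm_num) (by norm_num)) (by norm_num) (by norm_num)
  have hx2 : sx κ t ≤ 1.2235 := sx_hi h 1 (-0.211) 0.168 1.23492 1.2235 hk2 g1 (by norm_num) (by rw [abs_of_nonpos (by linarith)]; linarith) (by rw [neg_neg]; exact expn_le (by norm_num) (by norm_num) (by norm_num)) (by norm_num) (by norm_num)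
  rw [es]
  exact JB8_S0_b7_2 hβ hN (by linarith) (by linarith) (by linarith) (by linarith)

private theorem JB8_S0_b8_0 {β x y : ℝ} (hβ : 0 < β) (hN : β * 17.639 ≤ 1) (hx1 : 1.154 ≤ x) (hx2 : x ≤ 1.5445)
    (hy1 : -0.351 ≤ y) (hy2 : y ≤ -0.146) : ‖HH β (x + y * I) - 1‖ ≤ 0.1 := by
  refine le_epsJ (C := 1.7618) (N0 := 17.639) (J_boxp 1.154 1.5445 0.351 0 (-0.146) 1.2734 1.5839 1.7649 0.9246 0.53 4.1999 17.639 1.2439 6.518 1.784 0.502 0.6366 0.3727 0.8492 2.0988 0.7237 2.0978 2.9245 2.7145 0.0000133 0.001397 0.0000003135 0.0000003101 0.000002863 0.0000003101 0.0000003101 0.0000003101 1.7618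
    hβ hN hx1 hx2 hy1 hy2 (by norm_num) (by norm_num) (by linarith) (by norm_num) (by norm_num) (by norm_num) (by norm_num) (by norm_num) (by norm_num) (by norm_num) (by norm_num) (by norm_num) (by norm_num) (by norm_num) (by norm_num) (by norm_num) (by norm_num) (by norm_num) (by norm_num) (by norm_num) (by norm_num) (by norm_num) (by norm_num) (by norm_num)
    (cube_sqrt_geJ (s := 0.765) (by norm_num) (by norm_num) (by norm_num) (by norm_num))
    (cube_sqrt_geJ (s := 0.9207) (by norm_num) (by norm_num) (by norm_num) (by norm_num))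
    (by norm_num) (by norm_num) (by norm_num) (by norm_num) (by norm_num) (by norm_num) (by norm_num) (by norm_num) (by norm_num) (by norm_num) (by norm_num) (by norm_num) (by norm_num) (by norm_num) (by norm_num) (by norm_num) (by norm_num) (by norm_num)
    (exp_neg_leJ (r := 0.228) 11 (by norm_num) (by norm_num) (by norm_num) (by norm_num))
    (exp_neg_leJ (r := 0.574) 6 (by norm_num) (by norm_num) (by norm_num) (by norm_num))
    (exp_neg_leJ (r := 0.979) 14 (by norm_num) (by norm_num) (by norm_num) (by norm_num))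
    (exp_neg_leJ (r := 0.99) 14 (by norm_num) (by norm_num) (by norm_num) (by norm_num))
    (exp_neg_leJ (r := 0.765) 12 (by norm_num) (by norm_num) (by norm_num) (by norm_num))
    (exp_neg_leJ (r := 0.99) 14 (by norm_num) (by norm_num) (by norm_num) (by norm_num))
    (exp_neg_leJ (r := 0.99) 14 (by norm_num) (by norm_num) (by norm_num) (by norm_num))
    (exp_neg_leJ (r := 0.99) 14 (by norm_num) (by norm_num) (by norm_num) (by norm_num))
    (by norm_num)) (by norm_num) hN hβ.le (by norm_num)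

private theorem JB8_S0_b8_1 {β x y : ℝ} (hβ : 0 < β) (hN : β * 17.639 ≤ 1) (hx1 : 1.1485 ≤ x) (hx2 : x ≤ 1.5379)
    (hy1 : -0.346 ≤ y) (hy2 : y ≤ -0.141) : ‖HH β (x + y * I) - 1‖ ≤ 0.1 := by
  refine le_epsJ (C := 1.7337) (N0 := 17.639) (J_boxp 1.1485 1.5379 0.346 0 (-0.141) 1.273 1.5764 1.7616 0.9241 0.5295 4.1999 17.639 1.2384 6.447 1.779 0.5092 0.6364 0.3737 0.8552 2.1186 0.7238 2.0902 2.9271 2.7239 0.00001334 0.001374 0.0000003101 0.0000003101 0.000002857 0.0000003101 0.0000003101 0.0000003101 1.7337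
    hβ hN hx1 hx2 hy1 hy2 (by norm_num) (by norm_num) (by linarith) (by norm_num) (by norm_num) (by norm_num) (by norm_num) (by norm_num) (by norm_num) (by norm_num) (by norm_num) (by norm_num) (by norm_num) (by norm_num) (by norm_num) (by norm_num) (by norm_num) (by norm_num) (by norm_num) (by norm_num) (by norm_num) (by norm_num) (by norm_num) (by norm_num)
    (cube_sqrt_geJ (s := 0.7662) (by norm_num) (by norm_num) (by norm_num) (by norm_num))
    (cube_sqrt_geJ (s := 0.921) (by norm_num) (by norm_num) (by norm_num) (by norm_num))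
    (by norm_num) (by norm_num) (by norm_num) (by norm_num) (by norm_num) (by norm_num) (by norm_num) (by norm_num) (by norm_num) (by norm_num) (by norm_num) (by norm_num) (by norm_num) (by norm_num) (by norm_num) (by norm_num) (by norm_num) (by norm_num)
    (exp_neg_leJ (r := 0.225) 11 (by norm_num) (by norm_num) (by norm_num) (by norm_num))
    (exp_neg_leJ (r := 0.591) 6 (by norm_num) (by norm_num) (by norm_num) (by norm_num))
    (exp_neg_leJ (r := 0.99) 14 (by norm_num) (by norm_num) (by norm_num) (by norm_num))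
    (exp_neg_leJ (r := 0.99) 14 (by norm_num) (by norm_num) (by norm_num) (by norm_num))
    (exp_neg_leJ (r := 0.767) 12 (by norm_num) (by norm_num) (by norm_num) (by norm_num))
    (exp_neg_leJ (r := 0.99) 14 (by norm_num) (by norm_num) (by norm_num) (by norm_num))
    (exp_neg_leJ (r := 0.99) 14 (by norm_num) (by norm_num) (by norm_num) (by norm_num))
    (exp_neg_leJ (r := 0.99) 14 (by norm_num) (by norm_num) (by norm_num) (by norm_num))
    (by norm_num)) (by norm_num) hN hβ.le (by norm_num)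

private theorem JB8_S0_b8_2 {β x y : ℝ} (hβ : 0 < β) (hN : β * 17.639 ≤ 1) (hx1 : 1.1365 ≤ x) (hx2 : x ≤ 1.5322)
    (hy1 : -0.341 ≤ y) (hy2 : y ≤ -0.131) : ‖HH β (x + y * I) - 1‖ ≤ 0.1 := by
  refine le_epsJ (C := 1.7419) (N0 := 17.639) (J_boxp 1.1365 1.5322 0.341 0 (-0.131) 1.2681 1.5697 1.7615 0.9295 0.5295 4.1999 17.639 1.2379 6.44 1.778 0.516 0.634 0.3724 0.859 2.1378 0.7207 2.0736 2.9167 2.7181 0.00001391 0.001406 0.0000003101 0.0000003101 0.000003018 0.0000003101 0.0000003101 0.0000003101 1.7419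
    hβ hN hx1 hx2 hy1 hy2 (by norm_num) (by norm_num) (by linarith) (by norm_num) (by norm_num) (by norm_num) (by norm_num) (by norm_num) (by norm_num) (by norm_num) (by norm_num) (by norm_num) (by norm_num) (by norm_num) (by norm_num) (by norm_num) (by norm_num) (by norm_num) (by norm_num) (by norm_num) (by norm_num) (by norm_num) (by norm_num) (by norm_num)
    (cube_sqrt_geJ (s := 0.7663) (by norm_num) (by norm_num) (by norm_num) (by norm_num))
    (cube_sqrt_geJ (s := 0.9211) (by norm_num) (by norm_num) (by norm_num) (by norm_num))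
    (by norm_num) (by norm_num) (by norm_num) (by norm_num) (by norm_num) (by norm_num) (by norm_num) (by norm_num) (by norm_num) (by norm_num) (by norm_num) (by norm_num) (by norm_num) (by norm_num) (by norm_num) (by norm_num) (by norm_num) (by norm_num)
    (exp_neg_leJ (r := 0.183) 11 (by norm_num) (by norm_num) (by norm_num) (by norm_num))
    (exp_neg_leJ (r := 0.568) 6 (by norm_num) (by norm_num) (by norm_num) (by norm_num))
    (exp_neg_leJ (r := 0.99) 14 (by norm_num) (by norm_num) (by norm_num) (by norm_num))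
    (exp_neg_leJ (r := 0.99) 14 (by norm_num) (by norm_num) (by norm_num) (by norm_num))
    (exp_neg_leJ (r := 0.712) 12 (by norm_num) (by norm_num) (by norm_num) (by norm_num))
    (exp_neg_leJ (r := 0.99) 14 (by norm_num) (by norm_num) (by norm_num) (by norm_num))
    (exp_neg_leJ (r := 0.99) 14 (by norm_num) (by norm_num) (by norm_num) (by norm_num))
    (exp_neg_leJ (r := 0.99) 14 (by norm_num) (by norm_num) (by norm_num) (by norm_num))
    (by norm_num)) (by norm_num) hN hβ.le (by norm_num)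

private theorem JB8_S0_b8_3 {β x y : ℝ} (hβ : 0 < β) (hN : β * 17.639 ≤ 1) (hx1 : 1.1131 ≤ x) (hx2 : x ≤ 1.5207)
    (hy1 : -0.331 ≤ y) (hy2 : y ≤ -0.111) : ‖HH β (x + y * I) - 1‖ ≤ 0.1 := by
  refine le_epsJ (C := 1.7558) (N0 := 17.639) (J_boxp 1.1131 1.5207 0.331 0 (-0.111) 1.2588 1.5564 1.7615 0.9398 0.5295 4.1999 17.639 1.2365 6.422 1.777 0.5296 0.6293 0.3699 0.8668 2.1763 0.7148 2.0412 2.8971 2.7075 0.00001512 0.001469 0.0000003101 0.0000003101 0.000003347 0.0000003101 0.0000003101 0.0000003101 1.7558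
    hβ hN hx1 hx2 hy1 hy2 (by norm_num) (by norm_num) (by linarith) (by norm_num) (by norm_num) (by norm_num) (by norm_num) (by norm_num) (by norm_num) (by norm_num) (by norm_num) (by norm_num) (by norm_num) (by norm_num) (by norm_num) (by norm_num) (by norm_num) (by norm_num) (by norm_num) (by norm_num) (by norm_num) (by norm_num) (by norm_num) (by norm_num)
    (cube_sqrt_geJ (s := 0.7667) (by norm_num) (by norm_num) (by norm_num) (by norm_num))
    (cube_sqrt_geJ (s := 0.9211) (by norm_num) (by norm_num) (by norm_num) (by norm_num))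
    (by norm_num) (by norm_num) (by norm_num) (by norm_num) (by norm_num) (by norm_num) (by norm_num) (by norm_num) (by norm_num) (by norm_num) (by norm_num) (by norm_num) (by norm_num) (by norm_num) (by norm_num) (by norm_num) (by norm_num) (by norm_num)
    (exp_neg_leJ (r := 0.1) 11 (by norm_num) (by norm_num) (by norm_num) (by norm_num))
    (exp_neg_leJ (r := 0.524) 6 (by norm_num) (by norm_num) (by norm_num) (by norm_num))
    (exp_neg_leJ (r := 0.99) 14 (by norm_num) (by norm_num) (by norm_num) (by norm_num))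
    (exp_neg_leJ (r := 0.99) 14 (by norm_num) (by norm_num) (by norm_num) (by norm_num))
    (exp_neg_leJ (r := 0.608) 12 (by norm_num) (by norm_num) (by norm_num) (by norm_num))
    (exp_neg_leJ (r := 0.99) 14 (by norm_num) (by norm_num) (by norm_num) (by norm_num))
    (exp_neg_leJ (r := 0.99) 14 (by norm_num) (by norm_num) (by norm_num) (by norm_num))
    (exp_neg_leJ (r := 0.99) 14 (by norm_num) (by norm_num) (by norm_num) (by norm_num))
    (by norm_num)) (by norm_num) hN hβ.le (by norm_num)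

private theorem JB8_S0_b8_4 {β x y : ℝ} (hβ : 0 < β) (hN : β * 17.639 ≤ 1) (hx1 : 1.0736 ≤ x) (hx2 : x ≤ 1.4968)
    (hy1 : -0.311 ≤ y) (hy2 : y ≤ -0.076) : ‖HH β (x + y * I) - 1‖ ≤ 0.1 := by
  refine le_epsJ (C := 1.7429) (N0 := 17.639) (J_boxp 1.0736 1.4968 0.311 0 (-0.076) 1.2451 1.5288 1.7591 0.9547 0.5292 4.1999 17.639 1.2279 6.314 1.769 0.5573 0.6225 0.3677 0.8848 2.2539 0.7065 1.9865 2.8725 2.7035 0.0000171 0.001527 0.0000003101 0.0000003101 0.000003876 0.0000003101 0.0000003101 0.0000003101 1.7429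
    hβ hN hx1 hx2 hy1 hy2 (by norm_num) (by norm_num) (by linarith) (by norm_num) (by norm_num) (by norm_num) (by norm_num) (by norm_num) (by norm_num) (by norm_num) (by norm_num) (by norm_num) (by norm_num) (by norm_num) (by norm_num) (by norm_num) (by norm_num) (by norm_num) (by norm_num) (by norm_num) (by norm_num) (by norm_num) (by norm_num) (by norm_num)
    (cube_sqrt_geJ (s := 0.7685) (by norm_num) (by norm_num) (by norm_num) (by norm_num))
    (cube_sqrt_geJ (s := 0.9217) (by norm_num) (by norm_num) (by norm_num) (by norm_num))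
    (by norm_num) (by norm_num) (by norm_num) (by norm_num) (by norm_num) (by norm_num) (by norm_num) (by norm_num) (by norm_num) (by norm_num) (by norm_num) (by norm_num) (by norm_num) (by norm_num) (by norm_num) (by norm_num) (by norm_num) (by norm_num)
    (exp_neg_leJ (r := 0.98) 10 (by norm_num) (by norm_num) (by norm_num) (by norm_num))
    (exp_neg_leJ (r := 0.485) 6 (by norm_num) (by norm_num) (by norm_num) (by norm_num))
    (exp_neg_leJ (r := 0.99) 14 (by norm_num) (by norm_num) (by norm_num) (by norm_num))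
    (exp_neg_leJ (r := 0.99) 14 (by norm_num) (by norm_num) (by norm_num) (by norm_num))
    (exp_neg_leJ (r := 0.461) 12 (by norm_num) (by norm_num) (by norm_num) (by norm_num))
    (exp_neg_leJ (r := 0.99) 14 (by norm_num) (by norm_num) (by norm_num) (by norm_num))
    (exp_neg_leJ (r := 0.99) 14 (by norm_num) (by norm_num) (by norm_num) (by norm_num))
    (exp_neg_leJ (r := 0.99) 14 (by norm_num) (by norm_num) (by norm_num) (by norm_num))
    (by norm_num)) (by norm_num) hN hβ.le (by norm_num)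

private theorem JB8_S0_b8_5 {β x y : ℝ} (hβ : 0 < β) (hN : β * 17.639 ≤ 1) (hx1 : 1.0637 ≤ x) (hx2 : x ≤ 1.4496)
    (hy1 : -0.276 ≤ y) (hy2 : y ≤ -0.063) : ‖HH β (x + y * I) - 1‖ ≤ 0.1 := by
  refine le_epsJ (C := 1.4266) (N0 := 17.639) (J_boxp 1.0637 1.4496 0.276 0 (-0.063) 1.263 1.4757 1.7261 0.9257 0.5242 4.1999 17.639 1.1685 5.626 1.717 0.6078 0.6314 0.3855 0.9367 2.3927 0.7209 1.9728 2.9478 2.8281 0.00001457 0.001117 0.0000003101 0.0000003101 0.000003009 0.0000003101 0.0000003101 0.0000003101 1.4266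
    hβ hN hx1 hx2 hy1 hy2 (by norm_num) (by norm_num) (by linarith) (by norm_num) (by norm_num) (by norm_num) (by norm_num) (by norm_num) (by norm_num) (by norm_num) (by norm_num) (by norm_num) (by norm_num) (by norm_num) (by norm_num) (by norm_num) (by norm_num) (by norm_num) (by norm_num) (by norm_num) (by norm_num) (by norm_num) (by norm_num) (by norm_num)
    (cube_sqrt_geJ (s := 0.7813) (by norm_num) (by norm_num) (by norm_num) (by norm_num))
    (cube_sqrt_geJ (s := 0.9257) (by norm_num) (by norm_num) (by norm_num) (by norm_num))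
    (by norm_num) (by norm_num) (by norm_num) (by norm_num) (by norm_num) (by norm_num) (by norm_num) (by norm_num) (by norm_num) (by norm_num) (by norm_num) (by norm_num) (by norm_num) (by norm_num) (by norm_num) (by norm_num) (by norm_num) (by norm_num)
    (exp_neg_leJ (r := 0.137) 11 (by norm_num) (by norm_num) (by norm_num) (by norm_num))
    (exp_neg_leJ (r := 0.799) 6 (by norm_num) (by norm_num) (by norm_num) (by norm_num))
    (exp_neg_leJ (r := 0.99) 14 (by norm_num) (by norm_num) (by norm_num) (by norm_num))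
    (exp_neg_leJ (r := 0.99) 14 (by norm_num) (by norm_num) (by norm_num) (by norm_num))
    (exp_neg_leJ (r := 0.715) 12 (by norm_num) (by norm_num) (by norm_num) (by norm_num))
    (exp_neg_leJ (r := 0.99) 14 (by norm_num) (by norm_num) (by norm_num) (by norm_num))
    (exp_neg_leJ (r := 0.99) 14 (by norm_num) (by norm_num) (by norm_num) (by norm_num))
    (exp_neg_leJ (r := 0.99) 14 (by norm_num) (by norm_num) (by norm_num) (by norm_num))
    (by norm_num)) (by norm_num) hN hβ.le (by norm_num)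

private theorem JB8_S0_c8 {κ t β : ℝ} (h : DomR κ t) (hβ : 0 < β) (hk1 : 1 ≤ κ) (hk2 : κ ≤ 1.14)
    (ht1 : -0.4555 ≤ t + κ) (ht2 : t + κ ≤ -0.314) (hR0 : β * 10 ≤ κ) (hR : β * (8.82 * (1 + κ ^ 2)) ≤ κ) :
    ∀ s : ℂ, ‖s - sg κ t‖ ≤ 0.1 → ‖HH β s - 1‖ ≤ 0.1 := by
  have hN : β * 17.639 ≤ 1 := bNC' hβ hk1 (by norm_num) (by norm_num) hR (by norm_num)
  have hy1 : -0.251 ≤ sy κ t := syL_ge h 1 1.14 0.4555 0.251 0.77802 0.77803 0.1792 0.1713 0.19529 hk1 hk2 (by linarith) (by norm_num) (by norm_num) (by norm_num)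
    (expm_ge (by norm_num) (by norm_num) (by norm_num) (by norm_num)) (expm_le (by norm_num) (by norm_num) (by norm_num)) (by norm_num)
    (by norm_num) (by norm_num) (by norm_num) (by norm_num) (by norm_num) (by norm_num)
  have hy2 : sy κ t ≤ -0.163 := syL_le h 1 1.14 0.314 0.163 0.84959 0.8496 0.12147 0.13849 hk1 hk2 (by linarith) (by norm_num) (by norm_num) (by norm_num)
    (expm_ge (by norm_num) (by norm_num) (by norm_num) (by norm_num)) (expm_le (by norm_num) (by norm_num) (by norm_num)) (by norm_num)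
    (by norm_num) (by norm_num) (by norm_num) (by norm_num) (by norm_num) (by norm_num)
  intro s hs
  have hs' : ‖s - ((sx κ t : ℂ) + (sy κ t : ℂ) * I)‖ ≤ 0.1 := hs
  obtain ⟨es, ⟨s1, s2⟩, ⟨s3, s4⟩⟩ := disc_split hs'
  rcases le_total (sy κ t) (-0.246) with f0 | g0
  · have hx1 : 1.254 ≤ sx κ t := sx_lo h 1 (-0.246) 0.251 1.27889 1.254 hk1 (by norm_num) f0 (abs_le.2 ⟨by linarith, by linarith⟩) (by rw [neg_neg]; exact expn_ge (by norm_num) (by norm_num)) (by norm_num) (by norm_num)
    have hx2 : sx κ t ≤ 1.4445 := sx_hi h 1.14 (-0.251) 0.246 1.28532 1.4445 hk2 hy1 (by norm_num) (by rw [abs_of_nonpos (by linarith)]; linarith) (by rw [neg_neg]; exact expn_le (by norm_num) (by norm_num) (by norm_num)) (by norm_num) (by norm_num)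
    rw [es]
    exact JB8_S0_b8_0 hβ hN (by linarith) (by linarith) (by linarith) (by linarith)
  rcases le_total (sy κ t) (-0.241) with f1 | g1
  · have hx1 : 1.2485 ≤ sx κ t := sx_lo h 1 (-0.241) 0.246 1.27252 1.2485 hk1 (by norm_num) f1 (abs_le.2 ⟨by linarith, by linarith⟩) (by rw [neg_neg]; exact expn_ge (by norm_num) (by norm_num)) (by norm_num) (by norm_num)
    have hx2 : sx κ t ≤ 1.4379 := sx_hi h 1.14 (-0.246) 0.241 1.2789 1.4379 hk2 g0 (by norm_num) (by rw [abs_of_nonpos (by linarith)]; linarith) (by rw [neg_neg]; exact expn_le (by norm_num) (by norm_num) (by norm_num)) (by norm_num) (by norm_num)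
    rw [es]
    exact JB8_S0_b8_1 hβ hN (by linarith) (by linarith) (by linarith) (by linarith)
  rcases le_total (sy κ t) (-0.231) with f2 | g2
  · have hx1 : 1.2365 ≤ sx κ t := sx_lo h 1 (-0.231) 0.241 1.25985 1.2365 hk1 (by norm_num) f2 (abs_le.2 ⟨by linarith, by linarith⟩) (by rw [neg_neg]; exact expn_ge (by norm_num) (by norm_num)) (by norm_num) (by norm_num)
    have hx2 : sx κ t ≤ 1.4322 := sx_hi h 1.14 (-0.241) 0.231 1.27253 1.4322 hk2 g1 (by norm_num) (by rw [abs_of_nonpos (by linarith)]; linarith) (by rw [neg_neg]; exact expn_le (by norm_num) (by norm_num) (by norm_num)) (by norm_num) (by norm_num)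
    rw [es]
    exact JB8_S0_b8_2 hβ hN (by linarith) (by linarith) (by linarith) (by linarith)
  rcases le_total (sy κ t) (-0.211) with f3 | g3
  · have hx1 : 1.2131 ≤ sx κ t := sx_lo h 1 (-0.211) 0.231 1.23491 1.2131 hk1 (by norm_num) f3 (abs_le.2 ⟨by linarith, by linarith⟩) (by rw [neg_neg]; exact expn_ge (by norm_num) (by norm_num)) (by norm_num) (by norm_num)
    have hx2 : sx κ t ≤ 1.4207 := sx_hi h 1.14 (-0.231) 0.211 1.25986 1.4207 hk2 g2 (by norm_num) (by rw [abs_of_nonpos (by linarith)]; linarith) (by rw [neg_neg]; exact expn_le (by norm_num) (by norm_num) (by norm_num)) (by norm_num) (by norm_num)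
    rw [es]
    exact JB8_S0_b8_3 hβ hN (by linarith) (by linarith) (by linarith) (by linarith)
  rcases le_total (sy κ t) (-0.176) with f4 | g4
  · have hx1 : 1.1736 ≤ sx κ t := sx_lo h 1 (-0.176) 0.211 1.19243 1.1736 hk1 (by norm_num) f4 (abs_le.2 ⟨by linarith, by linarith⟩) (by rw [neg_neg]; exact expn_ge (by norm_num) (by norm_num)) (by norm_num) (by norm_num)
    have hx2 : sx κ t ≤ 1.3968 := sx_hi h 1.14 (-0.211) 0.176 1.23492 1.3968 hk2 g3 (by norm_num) (by rw [abs_of_nonpos (by linarith)]; linarith) (by rw [neg_neg]; exact expn_le (by norm_num) (by norm_num) (by norm_num)) (by norm_num) (by norm_num)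
    rw [es]
    exact JB8_S0_b8_4 hβ hN (by linarith) (by linarith) (by linarith) (by linarith)
  have hx1 : 1.1637 ≤ sx κ t := sx_lo h 1 (-0.163) 0.176 1.17703 1.1637 hk1 (by norm_num) hy2 (abs_le.2 ⟨by linarith, by linarith⟩) (by rw [neg_neg]; exact expn_ge (by norm_num) (by norm_num)) (by norm_num) (by norm_num)
  have hx2 : sx κ t ≤ 1.3496 := sx_hi h 1.14 (-0.176) 0.163 1.19244 1.3496 hk2 g4 (by norm_num) (by rw [abs_of_nonpos (by linarith)]; linarith) (by rw [neg_neg]; exact expn_le (by norm_num) (by norm_num) (by norm_num)) (by norm_num) (by norm_num)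
  rw [es]
  exact JB8_S0_b8_5 hβ hN (by linarith) (by linarith) (by linarith) (by linarith)

private theorem JB8_S0_b9_0 {β x y : ℝ} (hβ : 0 < β) (hN : β * 17.791 ≤ 1) (hx1 : 1.3158 ≤ x) (hx2 : x ≤ 1.751)
    (hy1 : -0.341 ≤ y) (hy2 : y ≤ -0.131) : ‖HH β (x + y * I) - 1‖ ≤ 0.1 := by
  refine le_epsJ (C := 1.7732) (N0 := 17.791) (J_boxp 1.3158 1.751 0.341 0 (-0.131) 1.3944 1.7839 1.9548 0.8492 0.5578 4.218 17.791 1.2794 7 1.816 0.4318 0.6971 0.3998 0.9204 2.0126 0.8078 2.3218 3.2753 2.4945 0.000004111 0.0008153 0.0000003101 0.0000003101 0.0000005739 0.0000003101 0.0000003101 0.0000003101 1.7732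
    hβ hN hx1 hx2 hy1 hy2 (by norm_num) (by norm_num) (by linarith) (by norm_num) (by norm_num) (by norm_num) (by norm_num) (by norm_num) (by norm_num) (by norm_num) (by norm_num) (by norm_num) (by norm_num) (by norm_num) (by norm_num) (by norm_num) (by norm_num) (by norm_num) (by norm_num) (by norm_num) (by norm_num) (by norm_num) (by norm_num) (by norm_num)
    (cube_sqrt_geJ (s := 0.7573) (by norm_num) (by norm_num) (by norm_num) (by norm_num))
    (cube_sqrt_geJ (s := 0.9183) (by norm_num) (by norm_num) (by norm_num) (by norm_num))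
    (by norm_num) (by norm_num) (by norm_num) (by norm_num) (by norm_num) (by norm_num) (by norm_num) (by norm_num) (by norm_num) (by norm_num) (by norm_num) (by norm_num) (by norm_num) (by norm_num) (by norm_num) (by norm_num) (by norm_num) (by norm_num)
    (exp_neg_leJ (r := 0.402) 12 (by norm_num) (by norm_num) (by norm_num) (by norm_num))
    (exp_neg_leJ (r := 0.112) 7 (by norm_num) (by norm_num) (by norm_num) (by norm_num))
    (exp_neg_leJ (r := 0.99) 14 (by norm_num) (by norm_num) (by norm_num) (by norm_num))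
    (exp_neg_leJ (r := 0.99) 14 (by norm_num) (by norm_num) (by norm_num) (by norm_num))
    (exp_neg_leJ (r := 0.371) 14 (by norm_num) (by norm_num) (by norm_num) (by norm_num))
    (exp_neg_leJ (r := 0.99) 14 (by norm_num) (by norm_num) (by norm_num) (by norm_num))
    (exp_neg_leJ (r := 0.99) 14 (by norm_num) (by norm_num) (by norm_num) (by norm_num))
    (exp_neg_leJ (r := 0.99) 14 (by norm_num) (by norm_num) (by norm_num) (by norm_num))
    (by norm_num)) (by norm_num) hN hβ.le (by norm_num)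

private theorem JB8_S0_b9_1 {β x y : ℝ} (hβ : 0 < β) (hN : β * 17.791 ≤ 1) (hx1 : 1.2958 ≤ x) (hx2 : x ≤ 1.7363)
    (hy1 : -0.331 ≤ y) (hy2 : y ≤ -0.116) : ‖HH β (x + y * I) - 1‖ ≤ 0.1 := by
  refine le_epsJ (C := 1.7575) (N0 := 17.791) (J_boxp 1.2958 1.7363 0.331 0 (-0.116) 1.3874 1.7676 1.9484 0.8542 0.5569 4.218 17.791 1.2741 6.925 1.811 0.4467 0.6936 0.399 0.9293 2.0529 0.8035 2.2941 3.2625 2.4988 0.000004378 0.0008268 0.0000003101 0.0000003101 0.0000006192 0.0000003101 0.0000003101 0.0000003101 1.7575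
    hβ hN hx1 hx2 hy1 hy2 (by norm_num) (by norm_num) (by linarith) (by norm_num) (by norm_num) (by norm_num) (by norm_num) (by norm_num) (by norm_num) (by norm_num) (by norm_num) (by norm_num) (by norm_num) (by norm_num) (by norm_num) (by norm_num) (by norm_num) (by norm_num) (by norm_num) (by norm_num) (by norm_num) (by norm_num) (by norm_num) (by norm_num)
    (cube_sqrt_geJ (s := 0.7584) (by norm_num) (by norm_num) (by norm_num) (by norm_num))
    (cube_sqrt_geJ (s := 0.9186) (by norm_num) (by norm_num) (by norm_num) (by norm_num))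
    (by norm_num) (by norm_num) (by norm_num) (by norm_num) (by norm_num) (by norm_num) (by norm_num) (by norm_num) (by norm_num) (by norm_num) (by norm_num) (by norm_num) (by norm_num) (by norm_num) (by norm_num) (by norm_num) (by norm_num) (by norm_num)
    (exp_neg_leJ (r := 0.339) 12 (by norm_num) (by norm_num) (by norm_num) (by norm_num))
    (exp_neg_leJ (r := 0.098) 7 (by norm_num) (by norm_num) (by norm_num) (by norm_num))
    (exp_neg_leJ (r := 0.99) 14 (by norm_num) (by norm_num) (by norm_num) (by norm_num))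
    (exp_neg_leJ (r := 0.99) 14 (by norm_num) (by norm_num) (by norm_num) (by norm_num))
    (exp_neg_leJ (r := 0.295) 14 (by norm_num) (by norm_num) (by norm_num) (by norm_num))
    (exp_neg_leJ (r := 0.99) 14 (by norm_num) (by norm_num) (by norm_num) (by norm_num))
    (exp_neg_leJ (r := 0.99) 14 (by norm_num) (by norm_num) (by norm_num) (by norm_num))
    (exp_neg_leJ (r := 0.99) 14 (by norm_num) (by norm_num) (by norm_num) (by norm_num))
    (by norm_num)) (by norm_num) hN hβ.le (by norm_num)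

private theorem JB8_S0_b9_2 {β x y : ℝ} (hβ : 0 < β) (hN : β * 17.791 ≤ 1) (hx1 : 1.2629 ≤ x) (hx2 : x ≤ 1.7146)
    (hy1 : -0.316 ≤ y) (hy2 : y ≤ -0.091) : ‖HH β (x + y * I) - 1‖ ≤ 0.1 := by
  refine le_epsJ (C := 1.7493) (N0 := 17.791) (J_boxp 1.2629 1.7146 0.316 0 (-0.091) 1.3749 1.7435 1.9407 0.8642 0.5558 4.218 17.791 1.2681 6.841 1.806 0.4689 0.6874 0.3968 0.9417 2.1132 0.7958 2.2486 3.2375 2.4985 0.000004887 0.0008597 0.0000003101 0.0000003101 0.0000007101 0.0000003101 0.0000003101 0.0000003101 1.7493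
    hβ hN hx1 hx2 hy1 hy2 (by norm_num) (by norm_num) (by linarith) (by norm_num) (by norm_num) (by norm_num) (by norm_num) (by norm_num) (by norm_num) (by norm_num) (by norm_num) (by norm_num) (by norm_num) (by norm_num) (by norm_num) (by norm_num) (by norm_num) (by norm_num) (by norm_num) (by norm_num) (by norm_num) (by norm_num) (by norm_num) (by norm_num)
    (cube_sqrt_geJ (s := 0.7598) (by norm_num) (by norm_num) (by norm_num) (by norm_num))
    (cube_sqrt_geJ (s := 0.919) (by norm_num) (by norm_num) (by norm_num) (by norm_num))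
    (by norm_num) (by norm_num) (by norm_num) (by norm_num) (by norm_num) (by norm_num) (by norm_num) (by norm_num) (by norm_num) (by norm_num) (by norm_num) (by norm_num) (by norm_num) (by norm_num) (by norm_num) (by norm_num) (by norm_num) (by norm_num)
    (exp_neg_leJ (r := 0.229) 12 (by norm_num) (by norm_num) (by norm_num) (by norm_num))
    (exp_neg_leJ (r := 0.059) 7 (by norm_num) (by norm_num) (by norm_num) (by norm_num))
    (exp_neg_leJ (r := 0.99) 14 (by norm_num) (by norm_num) (by norm_num) (by norm_num))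
    (exp_neg_leJ (r := 0.99) 14 (by norm_num) (by norm_num) (by norm_num) (by norm_num))
    (exp_neg_leJ (r := 0.158) 14 (by norm_num) (by norm_num) (by norm_num) (by norm_num))
    (exp_neg_leJ (r := 0.99) 14 (by norm_num) (by norm_num) (by norm_num) (by norm_num))
    (exp_neg_leJ (r := 0.99) 14 (by norm_num) (by norm_num) (by norm_num) (by norm_num))
    (exp_neg_leJ (r := 0.99) 14 (by norm_num) (by norm_num) (by norm_num) (by norm_num))
    (by norm_num)) (by norm_num) hN hβ.le (by norm_num)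

private theorem JB8_S0_b9_3 {β x y : ℝ} (hβ : 0 < β) (hN : β * 17.791 ≤ 1) (hx1 : 1.2173 ≤ x) (hx2 : x ≤ 1.6782)
    (hy1 : -0.291 ≤ y) (hy2 : y ≤ -0.055) : ‖HH β (x + y * I) - 1‖ ≤ 0.1 := by
  refine le_epsJ (C := 1.6926) (N0 := 17.791) (J_boxp 1.2173 1.6782 0.291 0 (-0.055) 1.3605 1.7033 1.926 0.8746 0.5537 4.218 17.791 1.252 6.623 1.791 0.506 0.6802 0.3963 0.9656 2.2137 0.7873 2.1854 3.2142 2.5166 0.000005555 0.0008675 0.0000003101 0.0000003101 0.0000008266 0.0000003101 0.0000003101 0.0000003101 1.6926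
    hβ hN hx1 hx2 hy1 hy2 (by norm_num) (by norm_num) (by linarith) (by norm_num) (by norm_num) (by norm_num) (by norm_num) (by norm_num) (by norm_num) (by norm_num) (by norm_num) (by norm_num) (by norm_num) (by norm_num) (by norm_num) (by norm_num) (by norm_num) (by norm_num) (by norm_num) (by norm_num) (by norm_num) (by norm_num) (by norm_num) (by norm_num)
    (cube_sqrt_geJ (s := 0.7633) (by norm_num) (by norm_num) (by norm_num) (by norm_num))
    (cube_sqrt_geJ (s := 0.9201) (by norm_num) (by norm_num) (by norm_num) (by norm_num))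
    (by norm_num) (by norm_num) (by norm_num) (by norm_num) (by norm_num) (by norm_num) (by norm_num) (by norm_num) (by norm_num) (by norm_num) (by norm_num) (by norm_num) (by norm_num) (by norm_num) (by norm_num) (by norm_num) (by norm_num) (by norm_num)
    (exp_neg_leJ (r := 0.101) 12 (by norm_num) (by norm_num) (by norm_num) (by norm_num))
    (exp_neg_leJ (r := 0.05) 7 (by norm_num) (by norm_num) (by norm_num) (by norm_num))
    (exp_neg_leJ (r := 0.99) 14 (by norm_num) (by norm_num) (by norm_num) (by norm_num))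
    (exp_neg_leJ (r := 0.99) 14 (by norm_num) (by norm_num) (by norm_num) (by norm_num))
    (exp_neg_leJ (r := 0.006) 14 (by norm_num) (by norm_num) (by norm_num) (by norm_num))
    (exp_neg_leJ (r := 0.99) 14 (by norm_num) (by norm_num) (by norm_num) (by norm_num))
    (exp_neg_leJ (r := 0.99) 14 (by norm_num) (by norm_num) (by norm_num) (by norm_num))
    (exp_neg_leJ (r := 0.99) 14 (by norm_num) (by norm_num) (by norm_num) (by norm_num))
    (by norm_num)) (by norm_num) hN hβ.le (by norm_num)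

private theorem JB8_S0_c9 {κ t β : ℝ} (h : DomR κ t) (hβ : 0 < β) (hk1 : 1.14 ≤ κ) (hk2 : κ ≤ 1.31)
    (ht1 : -0.4555 ≤ t + κ) (ht2 : t + κ ≤ -0.314) (hR0 : β * 10 ≤ κ) (hR : β * (8.82 * (1 + κ ^ 2)) ≤ κ) :
    ∀ s : ℂ, ‖s - sg κ t‖ ≤ 0.1 → ‖HH β s - 1‖ ≤ 0.1 := by
  have hN : β * 17.791 ≤ 1 := bNC' hβ hk1 (by norm_num) (by norm_num) hR (by norm_num)
  have hy1 : -0.241 ≤ sy κ t := syL_ge h 1.14 1.31 0.4555 0.241 0.78584 0.78585 0.1481 0.14457 0.16614 hk1 hk2 (by linarith) (by norm_num) (by norm_num) (by norm_num)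
    (expm_ge (by norm_num) (by norm_num) (by norm_num) (by norm_num)) (expm_le (by norm_num) (by norm_num) (by norm_num)) (by norm_num)
    (by norm_num) (by norm_num) (by norm_num) (by norm_num) (by norm_num) (by norm_num)
  have hy2 : sy κ t ≤ -0.155 := syL_le h 1.14 1.31 0.314 0.155 0.85641 0.85642 0.10133 0.11645 hk1 hk2 (by linarith) (by norm_num) (by norm_num) (by norm_num)
    (expm_ge (by norm_num) (by norm_num) (by norm_num) (by norm_num)) (expm_le (by norm_num) (by norm_num) (by norm_num)) (by norm_num)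
    (by norm_num) (by norm_num) (by norm_num) (by norm_num) (by norm_num) (by norm_num)
  intro s hs
  have hs' : ‖s - ((sx κ t : ℂ) + (sy κ t : ℂ) * I)‖ ≤ 0.1 := hs
  obtain ⟨es, ⟨s1, s2⟩, ⟨s3, s4⟩⟩ := disc_split hs'
  rcases le_total (sy κ t) (-0.231) with f0 | g0
  · have hx1 : 1.4158 ≤ sx κ t := sx_lo h 1.14 (-0.231) 0.241 1.25985 1.4158 hk1 (by norm_num) f0 (abs_le.2 ⟨by linarith, by linarith⟩) (by rw [neg_neg]; exact expn_ge (by norm_num) (by norm_num)) (by norm_num) (by norm_num)
    have hx2 : sx κ t ≤ 1.651 := sx_hi h 1.31 (-0.241) 0.231 1.27253 1.651 hk2 hy1 (by norm_num) (by rw [abs_of_nonpos (by linarith)]; linarith) (by rw [neg_neg]; exact expn_le (by norm_num) (by norm_num) (by norm_num)) (by norm_num) (by norm_num)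
    rw [es]
    exact JB8_S0_b9_0 hβ hN (by linarith) (by linarith) (by linarith) (by linarith)
  rcases le_total (sy κ t) (-0.216) with f1 | g1
  · have hx1 : 1.3958 ≤ sx κ t := sx_lo h 1.14 (-0.216) 0.231 1.2411 1.3958 hk1 (by norm_num) f1 (abs_le.2 ⟨by linarith, by linarith⟩) (by rw [neg_neg]; exact expn_ge (by norm_num) (by norm_num)) (by norm_num) (by norm_num)
    have hx2 : sx κ t ≤ 1.6363 := sx_hi h 1.31 (-0.231) 0.216 1.25986 1.6363 hk2 g0 (by norm_num) (by rw [abs_of_nonpos (by linarith)]; linarith) (by rw [neg_neg]; exact expn_le (by norm_num) (by norm_num) (by norm_num)) (by norm_num) (by norm_num)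
    rw [es]
    exact JB8_S0_b9_1 hβ hN (by linarith) (by linarith) (by linarith) (by linarith)
  rcases le_total (sy κ t) (-0.191) with f2 | g2
  · have hx1 : 1.3629 ≤ sx κ t := sx_lo h 1.14 (-0.191) 0.216 1.21045 1.3629 hk1 (by norm_num) f2 (abs_le.2 ⟨by linarith, by linarith⟩) (by rw [neg_neg]; exact expn_ge (by norm_num) (by norm_num)) (by norm_num) (by norm_num)
    have hx2 : sx κ t ≤ 1.6146 := sx_hi h 1.31 (-0.216) 0.191 1.24111 1.6146 hk2 g1 (by norm_num) (by rw [abs_of_nonpos (by linarith)]; linarith) (by rw [neg_neg]; exact expn_le (by norm_num) (by norm_num) (by norm_num)) (by norm_num) (by norm_num)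
    rw [es]
    exact JB8_S0_b9_2 hβ hN (by linarith) (by linarith) (by linarith) (by linarith)
  have hx1 : 1.3173 ≤ sx κ t := sx_lo h 1.14 (-0.155) 0.191 1.16765 1.3173 hk1 (by norm_num) hy2 (abs_le.2 ⟨by linarith, by linarith⟩) (by rw [neg_neg]; exact expn_ge (by norm_num) (by norm_num)) (by norm_num) (by norm_num)
  have hx2 : sx κ t ≤ 1.5782 := sx_hi h 1.31 (-0.191) 0.155 1.21046 1.5782 hk2 g2 (by norm_num) (by rw [abs_of_nonpos (by linarith)]; linarith) (by rw [neg_neg]; exact expn_le (by norm_num) (by norm_num) (by norm_num)) (by norm_num) (by norm_num)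
  rw [es]
  exact JB8_S0_b9_3 hβ hN (by linarith) (by linarith) (by linarith) (by linarith)

private theorem JB8_S0_b10_0 {β x y : ℝ} (hβ : 0 < β) (hN : β * 18.287 ≤ 1) (hx1 : 1.4065 ≤ x) (hx2 : x ≤ 1.8377)
    (hy1 : -0.327 ≤ y) (hy2 : y ≤ -0.051) : ‖HH β (x + y * I) - 1‖ ≤ 0.1 := by
  refine le_epsJ (C := 1.642) (N0 := 18.287) (J_boxp 1.4065 1.8377 0.327 0 (-0.051) 1.4682 1.8666 2.0683 0.8085 0.5738 4.2764 18.287 1.2714 6.888 1.809 0.4114 0.734 0.4229 0.9735 2.0075 0.8595 2.4474 3.4948 2.4511 0.000001483 0.0004386 0.0000003101 0.0000003101 0.0000003101 0.0000003101 0.0000003101 0.0000003101 1.642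
    hβ hN hx1 hx2 hy1 hy2 (by norm_num) (by norm_num) (by linarith) (by norm_num) (by norm_num) (by norm_num) (by norm_num) (by norm_num) (by norm_num) (by norm_num) (by norm_num) (by norm_num) (by norm_num) (by norm_num) (by norm_num) (by norm_num) (by norm_num) (by norm_num) (by norm_num) (by norm_num) (by norm_num) (by norm_num) (by norm_num) (by norm_num)
    (cube_sqrt_geJ (s := 0.759) (by norm_num) (by norm_num) (by norm_num) (by norm_num))
    (cube_sqrt_geJ (s := 0.9188) (by norm_num) (by norm_num) (by norm_num) (by norm_num))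
    (by norm_num) (by norm_num) (by norm_num) (by norm_num) (by norm_num) (by norm_num) (by norm_num) (by norm_num) (by norm_num) (by norm_num) (by norm_num) (by norm_num) (by norm_num) (by norm_num) (by norm_num) (by norm_num) (by norm_num) (by norm_num)
    (exp_neg_leJ (r := 0.422) 13 (by norm_num) (by norm_num) (by norm_num) (by norm_num))
    (exp_neg_leJ (r := 0.733) 7 (by norm_num) (by norm_num) (by norm_num) (by norm_num))
    (exp_neg_leJ (r := 0.99) 14 (by norm_num) (by norm_num) (by norm_num) (by norm_num))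
    (exp_neg_leJ (r := 0.99) 14 (by norm_num) (by norm_num) (by norm_num) (by norm_num))
    (exp_neg_leJ (r := 0.99) 14 (by norm_num) (by norm_num) (by norm_num) (by norm_num))
    (exp_neg_leJ (r := 0.99) 14 (by norm_num) (by norm_num) (by norm_num) (by norm_num))
    (exp_neg_leJ (r := 0.99) 14 (by norm_num) (by norm_num) (by norm_num) (by norm_num))
    (exp_neg_leJ (r := 0.99) 14 (by norm_num) (by norm_num) (by norm_num) (by norm_num))
    (by norm_num)) (by norm_num) hN hβ.le (by norm_num)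

private theorem JB8_S0_c10 {κ t β : ℝ} (h : DomR κ t) (hβ : 0 < β) (hk1 : 1.31 ≤ κ) (hk2 : κ ≤ 1.39)
    (ht1 : -0.4555 ≤ t + κ) (ht2 : t + κ ≤ -0.314) (hR0 : β * 10 ≤ κ) (hR : β * (8.82 * (1 + κ ^ 2)) ≤ κ) :
    ∀ s : ℂ, ‖s - sg κ t‖ ≤ 0.1 → ‖HH β s - 1‖ ≤ 0.1 := by
  have hN : β * 18.287 ≤ 1 := bNC' hβ hk1 (by norm_num) (by norm_num) hR (by norm_num)
  have hy1 : -0.227 ≤ sy κ t := syL_ge h 1.31 1.39 0.4555 0.227 0.79692 0.79693 0.1281 0.13014 0.1381 hk1 hk2 (by linarith) (by norm_num) (by norm_num) (by norm_num)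
    (expm_ge (by norm_num) (by norm_num) (by norm_num) (by norm_num)) (expm_le (by norm_num) (by norm_num) (by norm_num)) (by norm_num)
    (by norm_num) (by norm_num) (by norm_num) (by norm_num) (by norm_num) (by norm_num)
  have hy2 : sy κ t ≤ -0.151 := syL_le h 1.31 1.39 0.314 0.151 0.85984 0.85985 0.0934 0.09912 hk1 hk2 (by linarith) (by norm_num) (by norm_num) (by norm_num)
    (expm_ge (by norm_num) (by norm_num) (by norm_num) (by norm_num)) (expm_le (by norm_num) (by norm_num) (by norm_num)) (by norm_num)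
    (by norm_num) (by norm_num) (by norm_num) (by norm_num) (by norm_num) (by norm_num)
  intro s hs
  have hs' : ‖s - ((sx κ t : ℂ) + (sy κ t : ℂ) * I)‖ ≤ 0.1 := hs
  obtain ⟨es, ⟨s1, s2⟩, ⟨s3, s4⟩⟩ := disc_split hs'
  have hx1 : 1.5065 ≤ sx κ t := sx_lo h 1.31 (-0.151) 0.227 1.16299 1.5065 hk1 (by norm_num) hy2 (abs_le.2 ⟨by linarith, by linarith⟩) (by rw [neg_neg]; exact expn_ge (by norm_num) (by norm_num)) (by norm_num) (by norm_num)
  have hx2 : sx κ t ≤ 1.7377 := sx_hi h 1.39 (-0.227) 0.151 1.25483 1.7377 hk2 hy1 (by norm_num) (by rw [abs_of_nonpos (by linarith)]; linarith) (by rw [neg_neg]; exact expn_le (by norm_num) (by norm_num) (by norm_num)) (by norm_num) (by norm_num)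
  rw [es]
  exact JB8_S0_b10_0 hβ hN (by linarith) (by linarith) (by linarith) (by linarith)

theorem JB8_S0 {κ t β : ℝ} (h : DomR κ t) (hβ : 0 < β) (hk1 : 0.24 ≤ κ) (hk2 : κ ≤ 1.39)
    (ht1 : -0.4555 ≤ t + κ) (ht2 : t + κ ≤ -0.314) (hR0 : β * 10 ≤ κ) (hR : β * (8.82 * (1 + κ ^ 2)) ≤ κ) :
    ∀ s : ℂ, ‖s - sg κ t‖ ≤ 0.1 → ‖HH β s - 1‖ ≤ 0.1 := by
  rcases le_total κ 0.38 with f0 | g0
  · exact JB8_S0_c0 h hβ hk1 f0 ht1 ht2 hR0 hR
  rcases le_total κ 0.48 with f1 | g1
  · exact JB8_S0_c1 h hβ g0 f1 ht1 ht2 hR0 hR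
  rcases le_total κ 0.57 with f2 | g2
  · exact JB8_S0_c2 h hβ g1 f2 ht1 ht2 hR0 hR
  rcases le_total κ 0.65 with f3 | g3
  · exact JB8_S0_c3 h hβ g2 f3 ht1 ht2 hR0 hR
  rcases le_total κ 0.73 with f4 | g4
  · exact JB8_S0_c4 h hβ g3 f4 ht1 ht2 hR0 hR
  rcases le_total κ 0.81 with f5 | g5
  · exact JB8_S0_c5 h hβ g4 f5 ht1 ht2 hR0 hR
  rcases le_total κ 0.9 with f6 | g6
  · exact JB8_S0_c6 h hβ g5 f6 ht1 ht2 hR0 hR
  rcases le_total κ 1 with f7 | g7
  · exact JB8_S0_c7 h hβ g6 f7 ht1 ht2 hR0 hR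
  rcases le_total κ 1.14 with f8 | g8
  · exact JB8_S0_c8 h hβ g7 f8 ht1 ht2 hR0 hR
  rcases le_total κ 1.31 with f9 | g9
  · exact JB8_S0_c9 h hβ g8 f9 ht1 ht2 hR0 hR
  exact JB8_S0_c10 h hβ g9 hk2 ht1 ht2 hR0 hR

end Sok
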