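import Pool.Agent.Lib.MP_816dec_an.JBG2

/-!
MP_816dec_an (A3, row R1): b = 8, copy 2 of the window.
-/

set_option autoImplicit false
set_option maxHeartbeats 4000000

open Complex Set

namespace Sok

private theorem JB8_k2w_b0_0 {β x y : ℝ} (hβ : 0 < β) (hN : β * 20.501 ≤ 1) (hx1 : 0.0734 ≤ x) (hx2 : x ≤ 0.4408)
    (hy1 : -0 ≤ y) (hy2 : y ≤ 0.347) (hsl : y ≤ 2.45 * x) : ‖HH β (x + y * I) - 1‖ ≤ 0.05 := by
  refine le_epsJ (C := 0.9185) (N0 := 20.501) (J_boxp 0.0734 0.4408 0 0.347 0.347 0.7617 0.561 1.4173 1.7909 0.475 4.5279 20.501 0.7366 2.681 1.393 1.2505 0.3808 0.2873 1.0334 3.8167 0.3552 0.5662 0.2292 1.6988 0.0004079 0.002776 0.0000003101 0.0000003101 0.0006886 0.000009107 0.009121 0.0000003101 0.9185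
    hβ hN hx1 hx2 hy1 hy2 (by norm_num) (by norm_num) hsl (by norm_num) (by norm_num) (by norm_num) (by norm_num) (by norm_num) (by norm_num) (by norm_num) (by norm_num) (by norm_num) (by norm_num) (by norm_num) (by norm_num) (by norm_num) (by norm_num) (by norm_num) (by norm_num) (by norm_num) (by norm_num) (by norm_num) (by norm_num) (by norm_num)
    (cube_sqrt_geJ (s := 0.8686) (by norm_num) (by norm_num) (by norm_num) (by norm_num))
    (cube_sqrt_geJ (s := 0.9538) (by norm_num) (by norm_num) (by norm_num) (by norm_num))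
    (by norm_num) (by norm_num) (by norm_num) (by norm_num) (by norm_num) (by norm_num) (by norm_num) (by norm_num) (by norm_num) (by norm_num) (by norm_num) (by norm_num) (by norm_num) (by norm_num) (by norm_num) (by norm_num) (by norm_num) (by norm_num)
    (exp_neg_leJ (r := 0.806) 7 (by norm_num) (by norm_num) (by norm_num) (by norm_num))
    (exp_neg_leJ (r := 0.889) 5 (by norm_num) (by norm_num) (by norm_num) (by norm_num))
    (exp_neg_leJ (r := 0.99) 14 (by norm_num) (by norm_num) (by norm_num) (by norm_num))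
    (exp_neg_leJ (r := 0.99) 14 (by norm_num) (by norm_num) (by norm_num) (by norm_num))
    (exp_neg_leJ (r := 0.281) 7 (by norm_num) (by norm_num) (by norm_num) (by norm_num))
    (exp_neg_leJ (r := 0.607) 11 (by norm_num) (by norm_num) (by norm_num) (by norm_num))
    (exp_neg_leJ (r := 0.698) 4 (by norm_num) (by norm_num) (by norm_num) (by norm_num))
    (exp_neg_leJ (r := 0.99) 14 (by norm_num) (by norm_num) (by norm_num) (by norm_num))
    (by norm_num)) (by norm_num) hN hβ.le (by norm_num)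

private theorem JB8_k2w_c0 {κ t β : ℝ} (h : DomR κ t) (hβ : 0 < β) (hk1 : 0.27 ≤ κ) (hk2 : κ ≤ 0.57)
    (ht1 : 1.24 ≤ t + κ) (ht2 : t + κ ≤ 1.31) (hR0 : β * 10 ≤ κ) (hR : β * (8.82 * (1 + κ ^ 2)) ≤ κ) :
    ‖HH β (sg κ t) - 1‖ ≤ 0.05 := by
  have hN : β * 20.501 ≤ 1 := bNC hβ h.1 hk2 (by norm_num) (by norm_num) hR (by norm_num)
  have hy1 : 0.18 ≤ sy κ t := syR_ge h 0.27 0.57 1.24 0.18 1.19721 1.19722 0.37806 0.79815 hk1 hk2 (by linarith) (by norm_num) (by norm_num)
    (expn_ge (by norm_num) (by norm_num)) (expn_le (by norm_num) (by norm_num) (by norm_num)) (by norm_num)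
    (by norm_num) (by norm_num) (by norm_num) (by norm_num) (by norm_num) (by norm_num)
  have hy2 : sy κ t ≤ 0.347 := syR_le h 0.27 0.57 1.31 0.347 1.41481 0.8381 0.86129 1 hk1 hk2 (by linarith) (by norm_num) (by norm_num)
    (expn_ge (by norm_num) (by norm_num)) (by norm_num) (by norm_num) (Or.inl (by norm_num)) (by norm_num) (by norm_num) (by norm_num)
  have hsl : sy κ t ≤ 2.45 * sx κ t := sy_slope h 0.27 1.31 0.18 0.83528 hk1 (by norm_num) ht2 (by norm_num) hy1 (expm_le (by norm_num) (by norm_num) (by norm_num)) (by norm_num)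
  have hx1 : 0.0734 ≤ sx κ t := by linarith
  have hx2 : sx κ t ≤ 0.4408 := sx_hi h 0.57 0.18 0.18 0.83528 0.4408 hk2 hy1 (by norm_num) (by rw [abs_of_nonneg (by linarith)]; linarith) (expm_le (by norm_num) (by norm_num) (by norm_num)) (by norm_num) (by norm_num)
  exact JB8_k2w_b0_0 hβ hN hx1 hx2 (by linarith) (by linarith) hsl

private theorem JB8_k2w_b1_0 {β x y : ℝ} (hβ : 0 < β) (hN : β * 18.132 ≤ 1) (hx1 : 0.1384 ≤ x) (hx2 : x ≤ 0.4707)
    (hy1 : -0 ≤ y) (hy2 : y ≤ 0.369) (hsl : y ≤ 2.45 * x) : ‖HH β (x + y * I) - 1‖ ≤ 0.05 := by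
  refine le_epsJ (C := 0.8897) (N0 := 18.132) (J_boxp 0.1384 0.4707 0 0.369 0.369 0.8075 0.5981 1.4477 1.6582 0.4801 4.2582 18.132 0.7407 2.698 1.395 1.239 0.4037 0.304 1.0556 3.7975 0.3846 0.6539 0.2648 1.6243 0.0006629 0.004039 0.0000003101 0.0000003101 0.00094 0.00000711 0.008234 0.0000003101 0.8897
    hβ hN hx1 hx2 hy1 hy2 (by norm_num) (by norm_num) hsl (by norm_num) (by norm_num) (by norm_num) (by norm_num) (by norm_num) (by norm_num) (by norm_num) (by norm_num) (by norm_num) (by norm_num) (by norm_num) (by norm_num) (by norm_num) (by norm_num) (by norm_num) (by norm_num) (by norm_num) (by norm_num) (by norm_num) (by norm_num) (by norm_num)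
    (cube_sqrt_geJ (s := 0.8678) (by norm_num) (by norm_num) (by norm_num) (by norm_num))
    (cube_sqrt_geJ (s := 0.9535) (by norm_num) (by norm_num) (by norm_num) (by norm_num))
    (by norm_num) (by norm_num) (by norm_num) (by norm_num) (by norm_num) (by norm_num) (by norm_num) (by norm_num) (by norm_num) (by norm_num) (by norm_num) (by norm_num) (by norm_num) (by norm_num) (by norm_num) (by norm_num) (by norm_num) (by norm_num)
    (exp_neg_leJ (r := 0.319) 7 (by norm_num) (by norm_num) (by norm_num) (by norm_num))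
    (exp_neg_leJ (r := 0.512) 5 (by norm_num) (by norm_num) (by norm_num) (by norm_num))
    (exp_neg_leJ (r := 0.99) 14 (by norm_num) (by norm_num) (by norm_num) (by norm_num))
    (exp_neg_leJ (r := 0.99) 14 (by norm_num) (by norm_num) (by norm_num) (by norm_num))
    (exp_neg_leJ (r := 0.973) 6 (by norm_num) (by norm_num) (by norm_num) (by norm_num))
    (exp_neg_leJ (r := 0.856) 11 (by norm_num) (by norm_num) (by norm_num) (by norm_num))
    (exp_neg_leJ (r := 0.801) 4 (by norm_num) (by norm_num) (by norm_num) (by norm_num))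
    (exp_neg_leJ (r := 0.99) 14 (by norm_num) (by norm_num) (by norm_num) (by norm_num))
    (by norm_num)) (by norm_num) hN hβ.le (by norm_num)

private theorem JB8_k2w_b1_1 {β x y : ℝ} (hβ : 0 < β) (hN : β * 18.132 ≤ 1) (hx1 : 0.1506 ≤ x) (hx2 : x ≤ 0.4028)
    (hy1 : -0 ≤ y) (hy2 : y ≤ 0.394) (hsl : y ≤ 2.45 * x) : ‖HH β (x + y * I) - 1‖ ≤ 0.05 := by
  refine le_epsJ (C := 0.8534) (N0 := 18.132) (J_boxp 0.1506 0.4028 0 0.394 0.394 0.8161 0.5635 1.4511 1.634 0.4806 4.2582 18.132 0.6905 2.499 1.363 1.2651 0.408 0.3141 1.0598 3.8277 0.3879 0.6683 0.182 1.6249 0.0006132 0.003366 0.0000003101 0.0000003101 0.0008823 0.000005466 0.03689 0.0000003101 0.8534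
    hβ hN hx1 hx2 hy1 hy2 (by norm_num) (by norm_num) hsl (by norm_num) (by norm_num) (by norm_num) (by norm_num) (by norm_num) (by norm_num) (by norm_num) (by norm_num) (by norm_num) (by norm_num) (by norm_num) (by norm_num) (by norm_num) (by norm_num) (by norm_num) (by norm_num) (by norm_num) (by norm_num) (by norm_num) (by norm_num) (by norm_num)
    (cube_sqrt_geJ (s := 0.8774) (by norm_num) (by norm_num) (by norm_num) (by norm_num))
    (cube_sqrt_geJ (s := 0.9567) (by norm_num) (by norm_num) (by norm_num) (by norm_num))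
    (by norm_num) (by norm_num) (by norm_num) (by norm_num) (by norm_num) (by norm_num) (by norm_num) (by norm_num) (by norm_num) (by norm_num) (by norm_num) (by norm_num) (by norm_num) (by norm_num) (by norm_num) (by norm_num) (by norm_num) (by norm_num)
    (exp_neg_leJ (r := 0.397) 7 (by norm_num) (by norm_num) (by norm_num) (by norm_num))
    (exp_neg_leJ (r := 0.695) 5 (by norm_num) (by norm_num) (by norm_num) (by norm_num))
    (exp_neg_leJ (r := 0.99) 14 (by norm_num) (by norm_num) (by norm_num) (by norm_num))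
    (exp_neg_leJ (r := 0.99) 14 (by norm_num) (by norm_num) (by norm_num) (by norm_num))
    (exp_neg_leJ (r := 0.033) 7 (by norm_num) (by norm_num) (by norm_num) (by norm_num))
    (exp_neg_leJ (r := 0.117) 12 (by norm_num) (by norm_num) (by norm_num) (by norm_num))
    (exp_neg_leJ (r := 0.3) 3 (by norm_num) (by norm_num) (by norm_num) (by norm_num))
    (exp_neg_leJ (r := 0.99) 14 (by norm_num) (by norm_num) (by norm_num) (by norm_num))
    (by norm_num)) (by norm_num) hN hβ.le (by norm_num)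

private theorem JB8_k2w_b1_2 {β x y : ℝ} (hβ : 0 < β) (hN : β * 18.132 ≤ 1) (hx1 : 0.1608 ≤ x) (hx2 : x ≤ 0.3586)
    (hy1 : -0 ≤ y) (hy2 : y ≤ 0.404) (hsl : y ≤ 2.45 * x) : ‖HH β (x + y * I) - 1‖ ≤ 0.05 := by
  refine le_epsJ (C := 0.8354) (N0 := 18.132) (J_boxp 0.1608 0.3586 0 0.404 0.404 0.8232 0.5402 1.4491 1.6118 0.4803 4.2582 18.132 0.6563 2.374 1.341 1.2821 0.4115 0.3215 1.0633 3.8476 0.3919 0.6814 0.1595 1.6615 0.0005752 0.002946 0.0000003101 0.0000003101 0.000821 0.000004309 0.0556 0.0000003101 0.8354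
    hβ hN hx1 hx2 hy1 hy2 (by norm_num) (by norm_num) hsl (by norm_num) (by norm_num) (by norm_num) (by norm_num) (by norm_num) (by norm_num) (by norm_num) (by norm_num) (by norm_num) (by norm_num) (by norm_num) (by norm_num) (by norm_num) (by norm_num) (by norm_num) (by norm_num) (by norm_num) (by norm_num) (by norm_num) (by norm_num) (by norm_num)
    (cube_sqrt_geJ (s := 0.8838) (by norm_num) (by norm_num) (by norm_num) (by norm_num))
    (cube_sqrt_geJ (s := 0.9589) (by norm_num) (by norm_num) (by norm_num) (by norm_num))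
    (by norm_num) (by norm_num) (by norm_num) (by norm_num) (by norm_num) (by norm_num) (by norm_num) (by norm_num) (by norm_num) (by norm_num) (by norm_num) (by norm_num) (by norm_num) (by norm_num) (by norm_num) (by norm_num) (by norm_num) (by norm_num)
    (exp_neg_leJ (r := 0.461) 7 (by norm_num) (by norm_num) (by norm_num) (by norm_num))
    (exp_neg_leJ (r := 0.829) 5 (by norm_num) (by norm_num) (by norm_num) (by norm_num))
    (exp_neg_leJ (r := 0.99) 14 (by norm_num) (by norm_num) (by norm_num) (by norm_num))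
    (exp_neg_leJ (r := 0.99) 14 (by norm_num) (by norm_num) (by norm_num) (by norm_num))
    (exp_neg_leJ (r := 0.105) 7 (by norm_num) (by norm_num) (by norm_num) (by norm_num))
    (exp_neg_leJ (r := 0.355) 12 (by norm_num) (by norm_num) (by norm_num) (by norm_num))
    (exp_neg_leJ (r := 0.892) 2 (by norm_num) (by norm_num) (by norm_num) (by norm_num))
    (exp_neg_leJ (r := 0.99) 14 (by norm_num) (by norm_num) (by norm_num) (by norm_num))
    (by norm_num)) (by norm_num) hN hβ.le (by norm_num)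

private theorem JB8_k2w_b1_3 {β x y : ℝ} (hβ : 0 < β) (hN : β * 18.132 ≤ 1) (hx1 : 0.1648 ≤ x) (hx2 : x ≤ 0.3391)
    (hy1 : -0 ≤ y) (hy2 : y ≤ 0.41) (hsl : y ≤ 2.45 * x) : ‖HH β (x + y * I) - 1‖ ≤ 0.05 := by
  refine le_epsJ (C := 0.882) (N0 := 18.132) (J_boxp 0.1648 0.3391 0 0.41 0.41 0.8261 0.5321 1.4503 1.604 0.4805 4.2582 18.132 0.6442 2.331 1.334 1.2896 0.413 0.3243 1.0646 3.8558 0.3932 0.6863 0.1418 1.6633 0.0005599 0.002801 0.0000003101 0.0000003101 0.0008016 0.000003946 0.07649 0.0000003101 0.882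
    hβ hN hx1 hx2 hy1 hy2 (by norm_num) (by norm_num) hsl (by norm_num) (by norm_num) (by norm_num) (by norm_num) (by norm_num) (by norm_num) (by norm_num) (by norm_num) (by norm_num) (by norm_num) (by norm_num) (by norm_num) (by norm_num) (by norm_num) (by norm_num) (by norm_num) (by norm_num) (by norm_num) (by norm_num) (by norm_num) (by norm_num)
    (cube_sqrt_geJ (s := 0.8861) (by norm_num) (by norm_num) (by norm_num) (by norm_num))
    (cube_sqrt_geJ (s := 0.9597) (by norm_num) (by norm_num) (by norm_num) (by norm_num))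
    (by norm_num) (by norm_num) (by norm_num) (by norm_num) (by norm_num) (by norm_num) (by norm_num) (by norm_num) (by norm_num) (by norm_num) (by norm_num) (by norm_num) (by norm_num) (by norm_num) (by norm_num) (by norm_num) (by norm_num) (by norm_num)
    (exp_neg_leJ (r := 0.488) 7 (by norm_num) (by norm_num) (by norm_num) (by norm_num))
    (exp_neg_leJ (r := 0.88) 5 (by norm_num) (by norm_num) (by norm_num) (by norm_num))
    (exp_neg_leJ (r := 0.99) 14 (by norm_num) (by norm_num) (by norm_num) (by norm_num))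
    (exp_neg_leJ (r := 0.99) 14 (by norm_num) (by norm_num) (by norm_num) (by norm_num))
    (exp_neg_leJ (r := 0.129) 7 (by norm_num) (by norm_num) (by norm_num) (by norm_num))
    (exp_neg_leJ (r := 0.443) 12 (by norm_num) (by norm_num) (by norm_num) (by norm_num))
    (exp_neg_leJ (r := 0.571) 2 (by norm_num) (by norm_num) (by norm_num) (by norm_num))
    (exp_neg_leJ (r := 0.99) 14 (by norm_num) (by norm_num) (by norm_num) (by norm_num))
    (by norm_num)) (by norm_num) hN hβ.le (by norm_num)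

private theorem JB8_k2w_c1 {κ t β : ℝ} (h : DomR κ t) (hβ : 0 < β) (hk1 : 0.57 ≤ κ) (hk2 : κ ≤ 0.79)
    (ht1 : 1.24 ≤ t + κ) (ht2 : t + κ ≤ 1.31) (hR0 : β * 10 ≤ κ) (hR : β * (8.82 * (1 + κ ^ 2)) ≤ κ) :
    ‖HH β (sg κ t) - 1‖ ≤ 0.05 := by
  have hN : β * 18.132 ≤ 1 := bNC hβ h.1 hk2 (by norm_num) (by norm_num) hR (by norm_num)
  have hy1 : 0.324 ≤ sy κ t := syR_ge h 0.57 0.79 1.24 0.324 1.38264 1.38265 0.56705 0.78593 hk1 hk2 (by linarith) (by norm_num) (by norm_num)
    (expn_ge (by norm_num) (by norm_num)) (expn_le (by norm_num) (by norm_num) (by norm_num)) (by norm_num)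
    (by norm_num) (by norm_num) (by norm_num) (by norm_num) (by norm_num) (by norm_num)
  have hy2 : sy κ t ≤ 0.41 := syR_le h 0.57 0.79 1.31 0.41 1.50681 0.7638 0.78201 1 hk1 hk2 (by linarith) (by norm_num) (by norm_num)
    (expn_ge (by norm_num) (by norm_num)) (by norm_num) (by norm_num) (Or.inl (by norm_num)) (by norm_num) (by norm_num) (by norm_num)
  rcases le_total (sy κ t) 0.369 with f0 | g0
  · have hsl : sy κ t ≤ 2.45 * sx κ t := sy_slope h 0.57 1.31 0.324 0.72326 hk1 (by norm_num) ht2 (by norm_num) hy1 (expm_le (by norm_num) (by norm_num) (by norm_num)) (by norm_num)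
    have hx1 : 0.1384 ≤ sx κ t := sx_lo h 0.57 0.369 0.369 0.69142 0.1384 hk1 (by norm_num) f0 (abs_le.2 ⟨by linarith, by linarith⟩) (expm_ge (by norm_num) (by norm_num) (by norm_num) (by norm_num)) (by norm_num) (by norm_num)
    have hx2 : sx κ t ≤ 0.4707 := sx_hi h 0.79 0.324 0.324 0.72326 0.4707 hk2 hy1 (by norm_num) (by rw [abs_of_nonneg (by linarith)]; linarith) (expm_le (by norm_num) (by norm_num) (by norm_num)) (by norm_num) (by norm_num)
    exact JB8_k2w_b1_0 hβ hN hx1 hx2 (by linarith) (by linarith) hsl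
  rcases le_total (sy κ t) 0.394 with f1 | g1
  · have hsl : sy κ t ≤ 2.45 * sx κ t := sy_slope h 0.57 1.31 0.369 0.69143 hk1 (by norm_num) ht2 (by norm_num) g0 (expm_le (by norm_num) (by norm_num) (by norm_num)) (by norm_num)
    have hx1 : 0.1506 ≤ sx κ t := by linarith
    have hx2 : sx κ t ≤ 0.4028 := sx_hi h 0.79 0.369 0.369 0.69143 0.4028 hk2 g0 (by norm_num) (by rw [abs_of_nonneg (by linarith)]; linarith) (expm_le (by norm_num) (by norm_num) (by norm_num)) (by norm_num) (by norm_num)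
    exact JB8_k2w_b1_1 hβ hN hx1 hx2 (by linarith) (by linarith) hsl
  rcases le_total (sy κ t) 0.404 with f2 | g2
  · have hsl : sy κ t ≤ 2.45 * sx κ t := sy_slope h 0.57 1.31 0.394 0.67436 hk1 (by norm_num) ht2 (by norm_num) g1 (expm_le (by norm_num) (by norm_num) (by norm_num)) (by norm_num)
    have hx1 : 0.1608 ≤ sx κ t := by linarith
    have hx2 : sx κ t ≤ 0.3586 := sx_hi h 0.79 0.394 0.394 0.67436 0.3586 hk2 g1 (by norm_num) (by rw [abs_of_nonneg (by linarith)]; linarith) (expm_le (by norm_num) (by norm_num) (by norm_num)) (by norm_num) (by norm_num)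
    exact JB8_k2w_b1_2 hβ hN hx1 hx2 (by linarith) (by linarith) hsl
  have hsl : sy κ t ≤ 2.45 * sx κ t := sy_slope h 0.57 1.31 0.404 0.66765 hk1 (by norm_num) ht2 (by norm_num) g2 (expm_le (by norm_num) (by norm_num) (by norm_num)) (by norm_num)
  have hx1 : 0.1648 ≤ sx κ t := by linarith
  have hx2 : sx κ t ≤ 0.3391 := sx_hi h 0.79 0.404 0.404 0.66765 0.3391 hk2 g2 (by norm_num) (by rw [abs_of_nonneg (by linarith)]; linarith) (expm_le (by norm_num) (by norm_num) (by norm_num)) (by norm_num) (by norm_num)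
  exact JB8_k2w_b1_3 hβ hN hx1 hx2 (by linarith) (by linarith) hsl

private theorem JB8_k2w_b2_0 {β x y : ℝ} (hβ : 0 < β) (hN : β * 17.663 ≤ 1) (hx1 : 0.2635 ≤ x) (hx2 : x ≤ 0.5162)
    (hy1 : -0 ≤ y) (hy2 : y ≤ 0.437) : ‖HH β (x + y * I) - 1‖ ≤ 0.05 := by
  refine le_epsJ (C := 0.8255) (N0 := 17.663) (J_boxp 0.2635 0.5162 0 0.437 0.437 0.8956 0.6764 1.527 1.458 0.493 4.2028 17.663 0.7553 2.76 1.405 1.2215 0.4477 0.335 1.0984 3.7623 0.4384 0.8202 0.2234 1.3412 0.0003691 0.002701 0.0000003101 0.0000003101 0.0004343 0.0000005111 0.01941 0.0000003101 0.8255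
    hβ hN hx1 hx2 hy1 hy2 (by norm_num) (by norm_num) (by linarith) (by norm_num) (by norm_num) (by norm_num) (by norm_num) (by norm_num) (by norm_num) (by norm_num) (by norm_num) (by norm_num) (by norm_num) (by norm_num) (by norm_num) (by norm_num) (by norm_num) (by norm_num) (by norm_num) (by norm_num) (by norm_num) (by norm_num) (by norm_num) (by norm_num)
    (cube_sqrt_geJ (s := 0.865) (by norm_num) (by norm_num) (by norm_num) (by norm_num))
    (cube_sqrt_geJ (s := 0.9526) (by norm_num) (by norm_num) (by norm_num) (by norm_num))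
    (by norm_num) (by norm_num) (by norm_num) (by norm_num) (by norm_num) (by norm_num) (by norm_num) (by norm_num) (by norm_num) (by norm_num) (by norm_num) (by norm_num) (by norm_num) (by norm_num) (by norm_num) (by norm_num) (by norm_num) (by norm_num)
    (exp_neg_leJ (r := 0.907) 7 (by norm_num) (by norm_num) (by norm_num) (by norm_num))
    (exp_neg_leJ (r := 0.917) 5 (by norm_num) (by norm_num) (by norm_num) (by norm_num))
    (exp_neg_leJ (r := 0.99) 14 (by norm_num) (by norm_num) (by norm_num) (by norm_num))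
    (exp_neg_leJ (r := 0.99) 14 (by norm_num) (by norm_num) (by norm_num) (by norm_num))
    (exp_neg_leJ (r := 0.743) 7 (by norm_num) (by norm_num) (by norm_num) (by norm_num))
    (exp_neg_leJ (r := 0.487) 14 (by norm_num) (by norm_num) (by norm_num) (by norm_num))
    (exp_neg_leJ (r := 0.945) 3 (by norm_num) (by norm_num) (by norm_num) (by norm_num))
    (exp_neg_leJ (r := 0.99) 14 (by norm_num) (by norm_num) (by norm_num) (by norm_num))
    (by norm_num)) (by norm_num) hN hβ.le (by norm_num)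

private theorem JB8_k2w_b2_1 {β x y : ℝ} (hβ : 0 < β) (hN : β * 17.663 ≤ 1) (hx1 : 0.2471 ≤ x) (hx2 : x ≤ 0.4309)
    (hy1 : -0 ≤ y) (hy2 : y ≤ 0.443) : ‖HH β (x + y * I) - 1‖ ≤ 0.05 := by
  refine le_epsJ (C := 0.8524) (N0 := 17.663) (J_boxp 0.2471 0.4309 0 0.443 0.443 0.884 0.618 1.506 1.4766 0.4896 4.2028 17.663 0.6991 2.532 1.368 1.2543 0.4419 0.3389 1.0928 3.8043 0.4298 0.7969 0.1648 1.4389 0.0004083 0.002525 0.0000003101 0.0000003101 0.0005052 0.0000007715 0.05462 0.0000003101 0.8524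
    hβ hN hx1 hx2 hy1 hy2 (by norm_num) (by norm_num) (by linarith) (by norm_num) (by norm_num) (by norm_num) (by norm_num) (by norm_num) (by norm_num) (by norm_num) (by norm_num) (by norm_num) (by norm_num) (by norm_num) (by norm_num) (by norm_num) (by norm_num) (by norm_num) (by norm_num) (by norm_num) (by norm_num) (by norm_num) (by norm_num) (by norm_num)
    (cube_sqrt_geJ (s := 0.8757) (by norm_num) (by norm_num) (by norm_num) (by norm_num))
    (cube_sqrt_geJ (s := 0.9562) (by norm_num) (by norm_num) (by norm_num) (by norm_num))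
    (by norm_num) (by norm_num) (by norm_num) (by norm_num) (by norm_num) (by norm_num) (by norm_num) (by norm_num) (by norm_num) (by norm_num) (by norm_num) (by norm_num) (by norm_num) (by norm_num) (by norm_num) (by norm_num) (by norm_num) (by norm_num)
    (exp_neg_leJ (r := 0.805) 7 (by norm_num) (by norm_num) (by norm_num) (by norm_num))
    (exp_neg_leJ (r := 0.985) 5 (by norm_num) (by norm_num) (by norm_num) (by norm_num))
    (exp_neg_leJ (r := 0.99) 14 (by norm_num) (by norm_num) (by norm_num) (by norm_num))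
    (exp_neg_leJ (r := 0.99) 14 (by norm_num) (by norm_num) (by norm_num) (by norm_num))
    (exp_neg_leJ (r := 0.591) 7 (by norm_num) (by norm_num) (by norm_num) (by norm_num))
    (exp_neg_leJ (r := 0.075) 14 (by norm_num) (by norm_num) (by norm_num) (by norm_num))
    (exp_neg_leJ (r := 0.91) 2 (by norm_num) (by norm_num) (by norm_num) (by norm_num))
    (exp_neg_leJ (r := 0.99) 14 (by norm_num) (by norm_num) (by norm_num) (by norm_num))
    (by norm_num)) (by norm_num) hN hβ.le (by norm_num)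

private theorem JB8_k2w_c2 {κ t β : ℝ} (h : DomR κ t) (hβ : 0 < β) (hk1 : 0.79 ≤ κ) (hk2 : κ ≤ 0.95)
    (ht1 : 1.24 ≤ t + κ) (ht2 : t + κ ≤ 1.31) (hR0 : β * 10 ≤ κ) (hR : β * (8.82 * (1 + κ ^ 2)) ≤ κ) :
    ‖HH β (sg κ t) - 1‖ ≤ 0.05 := by
  have hN : β * 17.663 ≤ 1 := bNC hβ h.1 hk2 (by norm_num) (by norm_num) hR (by norm_num)
  have hy1 : 0.387 ≤ sy κ t := syR_ge h 0.79 0.95 1.24 0.387 1.47255 1.47256 0.59987 0.72137 hk1 hk2 (by linarith) (by norm_num) (by norm_num)
    (expn_ge (by norm_num) (by norm_num)) (expn_le (by norm_num) (by norm_num) (by norm_num)) (by norm_num)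
    (by norm_num) (by norm_num) (by norm_num) (by norm_num) (by norm_num) (by norm_num)
  have hy2 : sy κ t ≤ 0.443 := syR_le h 0.79 0.95 1.31 0.443 1.55737 0.7017 0.72622 0.87332 hk1 hk2 (by linarith) (by norm_num) (by norm_num)
    (expn_ge (by norm_num) (by norm_num)) (by norm_num) (by norm_num) (Or.inr ((mul_le_mul_of_nonneg_left (expn_le (E := 1.55738) (by norm_num) (by norm_num) (by norm_num)) (by norm_num)).trans (by norm_num))) (by norm_num) (by norm_num) (by norm_num)
  rcases le_total (sy κ t) 0.437 with f0 | g0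
  · have hx1 : 0.2635 ≤ sx κ t := sx_lo h 0.79 0.437 0.437 0.64597 0.2635 hk1 (by norm_num) f0 (abs_le.2 ⟨by linarith, by linarith⟩) (expm_ge (by norm_num) (by norm_num) (by norm_num) (by norm_num)) (by norm_num) (by norm_num)
    have hx2 : sx κ t ≤ 0.5162 := sx_hi h 0.95 0.387 0.387 0.6791 0.5162 hk2 hy1 (by norm_num) (by rw [abs_of_nonneg (by linarith)]; linarith) (expm_le (by norm_num) (by norm_num) (by norm_num)) (by norm_num) (by norm_num)
    exact JB8_k2w_b2_0 hβ hN hx1 hx2 (by linarith) (by linarith)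
  have hx1 : 0.2471 ≤ sx κ t := sx_lo h 0.79 0.443 0.443 0.6421 0.2471 hk1 (by norm_num) hy2 (abs_le.2 ⟨by linarith, by linarith⟩) (expm_ge (by norm_num) (by norm_num) (by norm_num) (by norm_num)) (by norm_num) (by norm_num)
  have hx2 : sx κ t ≤ 0.4309 := sx_hi h 0.95 0.437 0.437 0.64598 0.4309 hk2 g0 (by norm_num) (by rw [abs_of_nonneg (by linarith)]; linarith) (expm_le (by norm_num) (by norm_num) (by norm_num)) (by norm_num) (by norm_num)
  exact JB8_k2w_b2_1 hβ hN hx1 hx2 (by linarith) (by linarith)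

private theorem JB8_k2w_b3_0 {β x y : ℝ} (hβ : 0 < β) (hN : β * 17.639 ≤ 1) (hx1 : 0.4014 ≤ x) (hx2 : x ≤ 0.5053)
    (hy1 : -0 ≤ y) (hy2 : y ≤ 0.452) : ‖HH β (x + y * I) - 1‖ ≤ 0.05 := by
  refine le_epsJ (C := 0.4972) (N0 := 17.639) (J_boxp 0.4014 0.5053 0 0.452 0.452 0.9927 0.678 1.5375 1.2537 0.4947 4.1999 17.639 0.683 2.47 1.358 1.2257 0.4963 0.3833 1.1456 3.7652 0.5038 1.0096 0.4348 1.542 0.0001581 0.00116 0.0000003101 0.0000003101 0.0001387 0.0000003101 0.0004674 0.0000003101 0.4972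
    hβ hN hx1 hx2 hy1 hy2 (by norm_num) (by norm_num) (by linarith) (by norm_num) (by norm_num) (by norm_num) (by norm_num) (by norm_num) (by norm_num) (by norm_num) (by norm_num) (by norm_num) (by norm_num) (by norm_num) (by norm_num) (by norm_num) (by norm_num) (by norm_num) (by norm_num) (by norm_num) (by norm_num) (by norm_num) (by norm_num) (by norm_num)
    (cube_sqrt_geJ (s := 0.8788) (by norm_num) (by norm_num) (by norm_num) (by norm_num))
    (cube_sqrt_geJ (s := 0.9572) (by norm_num) (by norm_num) (by norm_num) (by norm_num))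
    (by norm_num) (by norm_num) (by norm_num) (by norm_num) (by norm_num) (by norm_num) (by norm_num) (by norm_num) (by norm_num) (by norm_num) (by norm_num) (by norm_num) (by norm_num) (by norm_num) (by norm_num) (by norm_num) (by norm_num) (by norm_num)
    (exp_neg_leJ (r := 0.754) 8 (by norm_num) (by norm_num) (by norm_num) (by norm_num))
    (exp_neg_leJ (r := 0.761) 6 (by norm_num) (by norm_num) (by norm_num) (by norm_num))
    (exp_neg_leJ (r := 0.99) 14 (by norm_num) (by norm_num) (by norm_num) (by norm_num))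
    (exp_neg_leJ (r := 0.99) 14 (by norm_num) (by norm_num) (by norm_num) (by norm_num))
    (exp_neg_leJ (r := 0.886) 8 (by norm_num) (by norm_num) (by norm_num) (by norm_num))
    (exp_neg_leJ (r := 0.99) 14 (by norm_num) (by norm_num) (by norm_num) (by norm_num))
    (exp_neg_leJ (r := 0.669) 7 (by norm_num) (by norm_num) (by norm_num) (by norm_num))
    (exp_neg_leJ (r := 0.99) 14 (by norm_num) (by norm_num) (by norm_num) (by norm_num))
    (by norm_num)) (by norm_num) hN hβ.le (by norm_num)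

private theorem JB8_k2w_c3 {κ t β : ℝ} (h : DomR κ t) (hβ : 0 < β) (hk1 : 0.95 ≤ κ) (hk2 : κ ≤ 1)
    (ht1 : 1.24 ≤ t + κ) (ht2 : t + κ ≤ 1.31) (hR0 : β * 10 ≤ κ) (hR : β * (8.82 * (1 + κ ^ 2)) ≤ κ) :
    ‖HH β (sg κ t) - 1‖ ≤ 0.05 := by
  have hN : β * 17.639 ≤ 1 := bNC hβ h.1 hk2 (by norm_num) (by norm_num) hR (by norm_num)
  have hy1 : 0.42 ≤ sy κ t := syR_ge h 0.95 1 1.24 0.42 1.52196 1.52197 0.63922 0.67288 hk1 hk2 (by linarith) (by norm_num) (by norm_num)
    (expn_ge (by norm_num) (by norm_num)) (expn_le (by norm_num) (by norm_num) (by norm_num)) (by norm_num)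
    (by norm_num) (by norm_num) (by norm_num) (by norm_num) (by norm_num) (by norm_num)
  have hy2 : sy κ t ≤ 0.452 := syR_le h 0.95 1 1.31 0.452 1.57145 0.7009 0.71029 0.74769 hk1 hk2 (by linarith) (by norm_num) (by norm_num)
    (expn_ge (by norm_num) (by norm_num)) (by norm_num) (by norm_num) (Or.inr ((mul_le_mul_of_nonneg_left (expn_le (E := 1.57146) (by norm_num) (by norm_num) (by norm_num)) (by norm_num)).trans (by norm_num))) (by norm_num) (by norm_num) (by norm_num)
  have hx1 : 0.4014 ≤ sx κ t := sx_lo h 0.95 0.452 0.452 0.63635 0.4014 hk1 (by norm_num) hy2 (abs_le.2 ⟨by linarith, by linarith⟩) (expm_ge (by norm_num) (by norm_num) (by norm_num) (by norm_num)) (by norm_num) (by norm_num)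
  have hx2 : sx κ t ≤ 0.5053 := sx_hi h 1 0.42 0.42 0.65705 0.5053 hk2 hy1 (by norm_num) (by rw [abs_of_nonneg (by linarith)]; linarith) (expm_le (by norm_num) (by norm_num) (by norm_num)) (by norm_num) (by norm_num)
  exact JB8_k2w_b3_0 hβ hN hx1 hx2 (by linarith) (by linarith)

private theorem JB8_k2w_b4_0 {β x y : ℝ} (hβ : 0 < β) (hN : β * 17.639 ≤ 1) (hx1 : 0.4161 ≤ x) (hx2 : x ≤ 0.7238)
    (hy1 : -0 ≤ y) (hy2 : y ≤ 0.468) : ‖HH β (x + y * I) - 1‖ ≤ 0.05 := by
  refine le_epsJ (C := 0.8571) (N0 := 17.639) (J_boxp 0.4161 0.7238 0 0.468 0.468 1.003 0.862 1.6368 1.2737 0.5104 4.1999 17.639 0.8595 3.26 1.476 1.1417 0.5014 0.3578 1.1507 3.6482 0.5093 1.0284 0.3956 0.9958 0.0001446 0.001817 0.0000003101 0.0000003101 0.000126 0.0000003101 0.0009363 0.0000003101 0.8571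
    hβ hN hx1 hx2 hy1 hy2 (by norm_num) (by norm_num) (by linarith) (by norm_num) (by norm_num) (by norm_num) (by norm_num) (by norm_num) (by norm_num) (by norm_num) (by norm_num) (by norm_num) (by norm_num) (by norm_num) (by norm_num) (by norm_num) (by norm_num) (by norm_num) (by norm_num) (by norm_num) (by norm_num) (by norm_num) (by norm_num) (by norm_num)
    (cube_sqrt_geJ (s := 0.8446) (by norm_num) (by norm_num) (by norm_num) (by norm_num))
    (cube_sqrt_geJ (s := 0.9459) (by norm_num) (by norm_num) (by norm_num) (by norm_num))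
    (by norm_num) (by norm_num) (by norm_num) (by norm_num) (by norm_num) (by norm_num) (by norm_num) (by norm_num) (by norm_num) (by norm_num) (by norm_num) (by norm_num) (by norm_num) (by norm_num) (by norm_num) (by norm_num) (by norm_num) (by norm_num)
    (exp_neg_leJ (r := 0.844) 8 (by norm_num) (by norm_num) (by norm_num) (by norm_num))
    (exp_neg_leJ (r := 0.311) 6 (by norm_num) (by norm_num) (by norm_num) (by norm_num))
    (exp_neg_leJ (r := 0.99) 14 (by norm_num) (by norm_num) (by norm_num) (by norm_num))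
    (exp_neg_leJ (r := 0.99) 14 (by norm_num) (by norm_num) (by norm_num) (by norm_num))
    (exp_neg_leJ (r := 0.983) 8 (by norm_num) (by norm_num) (by norm_num) (by norm_num))
    (exp_neg_leJ (r := 0.99) 14 (by norm_num) (by norm_num) (by norm_num) (by norm_num))
    (exp_neg_leJ (r := 0.977) 6 (by norm_num) (by norm_num) (by norm_num) (by norm_num))
    (exp_neg_leJ (r := 0.99) 14 (by norm_num) (by norm_num) (by norm_num) (by norm_num))
    (by norm_num)) (by norm_num) hN hβ.le (by norm_num)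

private theorem JB8_k2w_b4_1 {β x y : ℝ} (hβ : 0 < β) (hN : β * 17.639 ≤ 1) (hx1 : 0.3837 ≤ x) (hx2 : x ≤ 0.6586)
    (hy1 : -0 ≤ y) (hy2 : y ≤ 0.483) : ‖HH β (x + y * I) - 1‖ ≤ 0.05 := by
  refine le_epsJ (C := 0.8588) (N0 := 17.639) (J_boxp 0.3837 0.6586 0 0.483 0.483 0.9802 0.8168 1.6227 1.3127 0.5082 4.1999 17.639 0.8333 3.124 1.458 1.1668 0.49 0.3539 1.1396 3.6805 0.4921 0.982 0.2665 0.9832 0.0001765 0.001946 0.0000003101 0.0000003101 0.0001701 0.0000003101 0.009103 0.0000003101 0.8588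
    hβ hN hx1 hx2 hy1 hy2 (by norm_num) (by norm_num) (by linarith) (by norm_num) (by norm_num) (by norm_num) (by norm_num) (by norm_num) (by norm_num) (by norm_num) (by norm_num) (by norm_num) (by norm_num) (by norm_num) (by norm_num) (by norm_num) (by norm_num) (by norm_num) (by norm_num) (by norm_num) (by norm_num) (by norm_num) (by norm_num) (by norm_num)
    (cube_sqrt_geJ (s := 0.8498) (by norm_num) (by norm_num) (by norm_num) (by norm_num))
    (cube_sqrt_geJ (s := 0.9476) (by norm_num) (by norm_num) (by norm_num) (by norm_num))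
    (by norm_num) (by norm_num) (by norm_num) (by norm_num) (by norm_num) (by norm_num) (by norm_num) (by norm_num) (by norm_num) (by norm_num) (by norm_num) (by norm_num) (by norm_num) (by norm_num) (by norm_num) (by norm_num) (by norm_num) (by norm_num)
    (exp_neg_leJ (r := 0.643) 8 (by norm_num) (by norm_num) (by norm_num) (by norm_num))
    (exp_neg_leJ (r := 0.242) 6 (by norm_num) (by norm_num) (by norm_num) (by norm_num))
    (exp_neg_leJ (r := 0.99) 14 (by norm_num) (by norm_num) (by norm_num) (by norm_num))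
    (exp_neg_leJ (r := 0.99) 14 (by norm_num) (by norm_num) (by norm_num) (by norm_num))
    (exp_neg_leJ (r := 0.68) 8 (by norm_num) (by norm_num) (by norm_num) (by norm_num))
    (exp_neg_leJ (r := 0.99) 14 (by norm_num) (by norm_num) (by norm_num) (by norm_num))
    (exp_neg_leJ (r := 0.7) 4 (by norm_num) (by norm_num) (by norm_num) (by norm_num))
    (exp_neg_leJ (r := 0.99) 14 (by norm_num) (by norm_num) (by norm_num) (by norm_num))
    (by norm_num)) (by norm_num) hN hβ.le (by norm_num)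

private theorem JB8_k2w_b4_2 {β x y : ℝ} (hβ : 0 < β) (hN : β * 17.639 ≤ 1) (hx1 : 0.3769 ≤ x) (hx2 : x ≤ 0.6326)
    (hy1 : -0 ≤ y) (hy2 : y ≤ 0.486) : ‖HH β (x + y * I) - 1‖ ≤ 0.05 := by
  refine le_epsJ (C := 0.8506) (N0 := 17.639) (J_boxp 0.3769 0.6326 0 0.486 0.486 0.9754 0.7978 1.6151 1.3193 0.5071 4.1999 17.639 0.818 3.048 1.447 1.1768 0.4876 0.3547 1.1372 3.6936 0.4885 0.9722 0.24 1.0071 0.0001842 0.001919 0.0000003101 0.0000003101 0.0001813 0.0000003101 0.01451 0.0000003101 0.8506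
    hβ hN hx1 hx2 hy1 hy2 (by norm_num) (by norm_num) (by linarith) (by norm_num) (by norm_num) (by norm_num) (by norm_num) (by norm_num) (by norm_num) (by norm_num) (by norm_num) (by norm_num) (by norm_num) (by norm_num) (by norm_num) (by norm_num) (by norm_num) (by norm_num) (by norm_num) (by norm_num) (by norm_num) (by norm_num) (by norm_num) (by norm_num)
    (cube_sqrt_geJ (s := 0.8528) (by norm_num) (by norm_num) (by norm_num) (by norm_num))
    (cube_sqrt_geJ (s := 0.9486) (by norm_num) (by norm_num) (by norm_num) (by norm_num))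
    (by norm_num) (by norm_num) (by norm_num) (by norm_num) (by norm_num) (by norm_num) (by norm_num) (by norm_num) (by norm_num) (by norm_num) (by norm_num) (by norm_num) (by norm_num) (by norm_num) (by norm_num) (by norm_num) (by norm_num) (by norm_num)
    (exp_neg_leJ (r := 0.6) 8 (by norm_num) (by norm_num) (by norm_num) (by norm_num))
    (exp_neg_leJ (r := 0.256) 6 (by norm_num) (by norm_num) (by norm_num) (by norm_num))
    (exp_neg_leJ (r := 0.99) 14 (by norm_num) (by norm_num) (by norm_num) (by norm_num))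
    (exp_neg_leJ (r := 0.99) 14 (by norm_num) (by norm_num) (by norm_num) (by norm_num))
    (exp_neg_leJ (r := 0.616) 8 (by norm_num) (by norm_num) (by norm_num) (by norm_num))
    (exp_neg_leJ (r := 0.99) 14 (by norm_num) (by norm_num) (by norm_num) (by norm_num))
    (exp_neg_leJ (r := 0.233) 4 (by norm_num) (by norm_num) (by norm_num) (by norm_num))
    (exp_neg_leJ (r := 0.99) 14 (by norm_num) (by norm_num) (by norm_num) (by norm_num))
    (by norm_num)) (by norm_num) hN hβ.le (by norm_num)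

private theorem JB8_k2w_c4 {κ t β : ℝ} (h : DomR κ t) (hβ : 0 < β) (hk1 : 1 ≤ κ) (hk2 : κ ≤ 1.29)
    (ht1 : 1.24 ≤ t + κ) (ht2 : t + κ ≤ 1.31) (hR0 : β * 10 ≤ κ) (hR : β * (8.82 * (1 + κ ^ 2)) ≤ κ) :
    ‖HH β (sg κ t) - 1‖ ≤ 0.05 := by
  have hN : β * 17.639 ≤ 1 := bNC' hβ hk1 (by norm_num) (by norm_num) hR (by norm_num)
  have hy1 : 0.428 ≤ sy κ t := syR_ge h 1 1.29 1.24 0.428 1.53418 1.53419 0.50901 0.65664 hk1 hk2 (by linarith) (by norm_num) (by norm_num)
    (expn_ge (by norm_num) (by norm_num)) (expn_le (by norm_num) (by norm_num) (by norm_num)) (by norm_num)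
    (by norm_num) (by norm_num) (by norm_num) (by norm_num) (by norm_num) (by norm_num)
  have hy2 : sy κ t ≤ 0.486 := syR_le h 1 1.29 1.31 0.486 1.62579 0.6124 0.6125 0.79015 hk1 hk2 (by linarith) (by norm_num) (by norm_num)
    (expn_ge (by norm_num) (by norm_num)) (by norm_num) (by norm_num) (Or.inr ((mul_le_mul_of_nonneg_left (expn_le (E := 1.62581) (by norm_num) (by norm_num) (by norm_num)) (by norm_num)).trans (by norm_num))) (by norm_num) (by norm_num) (by norm_num)
  rcases le_total (sy κ t) 0.468 with f0 | g0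
  · have hx1 : 0.4161 ≤ sx κ t := sx_lo h 1 0.468 0.468 0.62625 0.4161 hk1 (by norm_num) f0 (abs_le.2 ⟨by linarith, by linarith⟩) (expm_ge (by norm_num) (by norm_num) (by norm_num) (by norm_num)) (by norm_num) (by norm_num)
    have hx2 : sx κ t ≤ 0.7238 := sx_hi h 1.29 0.428 0.428 0.65182 0.7238 hk2 hy1 (by norm_num) (by rw [abs_of_nonneg (by linarith)]; linarith) (expm_le (by norm_num) (by norm_num) (by norm_num)) (by norm_num) (by norm_num)
    exact JB8_k2w_b4_0 hβ hN hx1 hx2 (by linarith) (by linarith)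
  rcases le_total (sy κ t) 0.483 with f1 | g1
  · have hx1 : 0.3837 ≤ sx κ t := sx_lo h 1 0.483 0.483 0.61692 0.3837 hk1 (by norm_num) f1 (abs_le.2 ⟨by linarith, by linarith⟩) (expm_ge (by norm_num) (by norm_num) (by norm_num) (by norm_num)) (by norm_num) (by norm_num)
    have hx2 : sx κ t ≤ 0.6586 := sx_hi h 1.29 0.468 0.468 0.62626 0.6586 hk2 g0 (by norm_num) (by rw [abs_of_nonneg (by linarith)]; linarith) (expm_le (by norm_num) (by norm_num) (by norm_num)) (by norm_num) (by norm_num)
    exact JB8_k2w_b4_1 hβ hN hx1 hx2 (by linarith) (by linarith)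
  have hx1 : 0.3769 ≤ sx κ t := sx_lo h 1 0.486 0.486 0.61508 0.3769 hk1 (by norm_num) hy2 (abs_le.2 ⟨by linarith, by linarith⟩) (expm_ge (by norm_num) (by norm_num) (by norm_num) (by norm_num)) (by norm_num) (by norm_num)
  have hx2 : sx κ t ≤ 0.6326 := sx_hi h 1.29 0.483 0.483 0.61694 0.6326 hk2 g1 (by norm_num) (by rw [abs_of_nonneg (by linarith)]; linarith) (expm_le (by norm_num) (by norm_num) (by norm_num)) (by norm_num) (by norm_num)
  exact JB8_k2w_b4_2 hβ hN hx1 hx2 (by linarith) (by linarith)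

private theorem JB8_k2w_b5_0 {β x y : ℝ} (hβ : 0 < β) (hN : β * 18.215 ≤ 1) (hx1 : 0.6128 ≤ x) (hx2 : x ≤ 0.7424)
    (hy1 : -0 ≤ y) (hy2 : y ≤ 0.494) : ‖HH β (x + y * I) - 1‖ ≤ 0.05 := by
  refine le_epsJ (C := 0.5417) (N0 := 18.215) (J_boxp 0.6128 0.7424 0 0.494 0.494 1.1415 0.8918 1.6683 1.0591 0.5153 4.268 18.215 0.7813 2.875 1.422 1.1345 0.5707 0.4221 1.218 3.6344 0.6022 1.2981 0.6775 1.1857 0.00003059 0.0004587 0.0000003101 0.0000003101 0.00001729 0.0000003101 0.000004374 0.0000003101 0.5417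
    hβ hN hx1 hx2 hy1 hy2 (by norm_num) (by norm_num) (by linarith) (by norm_num) (by norm_num) (by norm_num) (by norm_num) (by norm_num) (by norm_num) (by norm_num) (by norm_num) (by norm_num) (by norm_num) (by norm_num) (by norm_num) (by norm_num) (by norm_num) (by norm_num) (by norm_num) (by norm_num) (by norm_num) (by norm_num) (by norm_num) (by norm_num)
    (cube_sqrt_geJ (s := 0.8599) (by norm_num) (by norm_num) (by norm_num) (by norm_num))
    (cube_sqrt_geJ (s := 0.9509) (by norm_num) (by norm_num) (by norm_num) (by norm_num))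
    (by norm_num) (by norm_num) (by norm_num) (by norm_num) (by norm_num) (by norm_num) (by norm_num) (by norm_num) (by norm_num) (by norm_num) (by norm_num) (by norm_num) (by norm_num) (by norm_num) (by norm_num) (by norm_num) (by norm_num) (by norm_num)
    (exp_neg_leJ (r := 0.395) 10 (by norm_num) (by norm_num) (by norm_num) (by norm_num))
    (exp_neg_leJ (r := 0.688) 7 (by norm_num) (by norm_num) (by norm_num) (by norm_num))
    (exp_neg_leJ (r := 0.99) 14 (by norm_num) (by norm_num) (by norm_num) (by norm_num))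
    (exp_neg_leJ (r := 0.99) 14 (by norm_num) (by norm_num) (by norm_num) (by norm_num))
    (exp_neg_leJ (r := 0.969) 10 (by norm_num) (by norm_num) (by norm_num) (by norm_num))
    (exp_neg_leJ (r := 0.99) 14 (by norm_num) (by norm_num) (by norm_num) (by norm_num))
    (exp_neg_leJ (r := 0.34) 12 (by norm_num) (by norm_num) (by norm_num) (by norm_num))
    (exp_neg_leJ (r := 0.99) 14 (by norm_num) (by norm_num) (by norm_num) (by norm_num))
    (by norm_num)) (by norm_num) hN hβ.le (by norm_num)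

private theorem JB8_k2w_c5 {κ t β : ℝ} (h : DomR κ t) (hβ : 0 < β) (hk1 : 1.29 ≤ κ) (hk2 : κ ≤ 1.39)
    (ht1 : 1.24 ≤ t + κ) (ht2 : t + κ ≤ 1.31) (hR0 : β * 10 ≤ κ) (hR : β * (8.82 * (1 + κ ^ 2)) ≤ κ) :
    ‖HH β (sg κ t) - 1‖ ≤ 0.05 := by
  have hN : β * 18.215 ≤ 1 := bNC' hβ hk1 (by norm_num) (by norm_num) hR (by norm_num)
  have hy1 : 0.463 ≤ sy κ t := syR_ge h 1.29 1.39 1.24 0.463 1.58883 1.58884 0.52922 0.57026 hk1 hk2 (by linarith) (by norm_num) (by norm_num)
    (expn_ge (by norm_num) (by norm_num)) (expn_le (by norm_num) (by norm_num) (by norm_num)) (by norm_num)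
    (by norm_num) (by norm_num) (by norm_num) (by norm_num) (by norm_num) (by norm_num)
  have hy2 : sy κ t ≤ 0.494 := syR_le h 1.29 1.39 1.31 0.494 1.63885 0.5711 0.58244 0.6276 hk1 hk2 (by linarith) (by norm_num) (by norm_num)
    (expn_ge (by norm_num) (by norm_num)) (by norm_num) (by norm_num) (Or.inr ((mul_le_mul_of_nonneg_left (expn_le (E := 1.63886) (by norm_num) (by norm_num) (by norm_num)) (by norm_num)).trans (by norm_num))) (by norm_num) (by norm_num) (by norm_num)
  have hx1 : 0.6128 ≤ sx κ t := sx_lo h 1.29 0.494 0.494 0.61018 0.6128 hk1 (by norm_num) hy2 (abs_le.2 ⟨by linarith, by linarith⟩) (expm_ge (by norm_num) (by norm_num) (by norm_num) (by norm_num)) (by norm_num) (by norm_num)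
  have hx2 : sx κ t ≤ 0.7424 := sx_hi h 1.39 0.463 0.463 0.6294 0.7424 hk2 hy1 (by norm_num) (by rw [abs_of_nonneg (by linarith)]; linarith) (expm_le (by norm_num) (by norm_num) (by norm_num)) (by norm_num) (by norm_num)
  exact JB8_k2w_b5_0 hβ hN hx1 hx2 (by linarith) (by linarith)

theorem JB8_k2w {κ t β : ℝ} (h : DomR κ t) (hβ : 0 < β) (hk1 : 0.27 ≤ κ) (hk2 : κ ≤ 1.39)
    (ht1 : 1.24 ≤ t + κ) (ht2 : t + κ ≤ 1.31) (hR0 : β * 10 ≤ κ) (hR : β * (8.82 * (1 + κ ^ 2)) ≤ κ) :
    ‖HH β (sg κ t) - 1‖ ≤ 0.05 := by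
  rcases le_total κ 0.57 with f0 | g0
  · exact JB8_k2w_c0 h hβ hk1 f0 ht1 ht2 hR0 hR
  rcases le_total κ 0.79 with f1 | g1
  · exact JB8_k2w_c1 h hβ g0 f1 ht1 ht2 hR0 hR
  rcases le_total κ 0.95 with f2 | g2
  · exact JB8_k2w_c2 h hβ g1 f2 ht1 ht2 hR0 hR
  rcases le_total κ 1 with f3 | g3
  · exact JB8_k2w_c3 h hβ g2 f3 ht1 ht2 hR0 hR
  rcases le_total κ 1.29 with f4 | g4
  · exact JB8_k2w_c4 h hβ g3 f4 ht1 ht2 hR0 hR
  exact JB8_k2w_c5 h hβ g4 hk2 ht1 ht2 hR0 hR

end Sok
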