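import Mathlib
import Pool.Agent.Lib.MP_816dec_an.J45

/-!
MP_816dec_an: numerical corollaries of Lemma J in the direction `1 - i`, part 1.
-/

set_option autoImplicit false

open Complex Set Filter Topology MeasureTheory

namespace Sok

theorem sqrtExpJ {β c N r0 : ℝ} (hβ : 0 < β) (hN : 0 < N) (hβ1 : β * N ≤ 1) (hr : N ≤ r0 ^ 2) (hr0 : 0 ≤ r0)
    (hc : 1 / (2 * N) ≤ c) :
    Real.sqrt (1 / β) * Real.exp (-c / β) ≤ r0 * Real.exp (-(N * c)) := by
  obtain ⟨t, ht⟩ : ∃ t, t = 1 / (N * β) := ⟨_, rfl⟩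
  have ht1 : 1 ≤ t := by
    rw [ht, le_div_iff₀ (by positivity)]; linarith
  have e1 : 1 / β = N * t := by rw [ht]; field_simp
  have e2 : -c / β = -(N * c * t) := by
    have : -c / β = -(c * (1 / β)) := by ring
    rw [this, e1]; ring
  rw [e1, e2, Real.sqrt_mul hN.le]
  have h1 : Real.sqrt N ≤ r0 := by
    rw [Real.sqrt_le_left hr0]; exact hr
  have h2 : Real.sqrt t ≤ Real.exp ((t - 1) / 2) := by
    rw [Real.sqrt_le_left (Real.exp_pos _).le, ← Real.exp_nat_mul]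
    have := Real.add_one_le_exp (t - 1)
    refine le_trans (by linarith) (this.trans (Real.exp_le_exp.2 ?_))
    push_cast; linarith
  have hNc : 1 / 2 ≤ N * c := by
    rw [div_le_iff₀ (by positivity)] at hc
    linarith
  have h3 : Real.exp ((t - 1) / 2) * Real.exp (-(N * c * t)) ≤ Real.exp (-(N * c)) := by
    rw [← Real.exp_add]
    apply Real.exp_le_exp.2
    have := mul_nonneg (sub_nonneg.2 ht1) (sub_nonneg.2 hNc)
    linarith
  calc Real.sqrt N * Real.sqrt t * Real.exp (-(N * c * t)) ≤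
        r0 * Real.exp ((t - 1) / 2) * Real.exp (-(N * c * t)) := by gcongr
    _ = r0 * (Real.exp ((t - 1) / 2) * Real.exp (-(N * c * t))) := by ring
    _ ≤ _ := by gcongr

theorem sqrtExpJ' {β c N r0 : ℝ} (hβ : 0 < β) (hN : 0 < N) (hβ1 : β * N ≤ 1) (hr : N ≤ r0 ^ 2) (hr0 : 0 ≤ r0)
    (hc : 3 / (2 * N) ≤ c) :
    Real.sqrt (1 / β) * Real.exp (-c / β) ≤ β * (N * r0 * Real.exp (-(N * c))) := by
  obtain ⟨t, ht⟩ : ∃ t, t = 1 / (N * β) := ⟨_, rfl⟩
  have ht1 : 1 ≤ t := by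
    rw [ht, le_div_iff₀ (by positivity)]; linarith
  have hc' : 1 / (2 * N) ≤ c - 1 / N := by
    have : 3 / (2 * N) = 1 / (2 * N) + 1 / N := by field_simp; norm_num
    linarith
  have h1 := sqrtExpJ (c := c - 1 / N) hβ hN hβ1 hr hr0 hc'
  have e1 : Real.exp (-c / β) = Real.exp (-(c - 1 / N) / β) * Real.exp (-t) := by
    rw [← Real.exp_add]; congr 1; rw [ht]; field_simp; ring
  have h2 : Real.exp (-t) ≤ β * N * Real.exp (-1) := by
    have h3 := Real.add_one_le_exp (t - 1)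
    have h4 : t * Real.exp (-t) ≤ Real.exp (-1) := by
      have : Real.exp (-1) = Real.exp (t - 1) * Real.exp (-t) := by rw [← Real.exp_add]; congr 1; ring
      rw [this]
      exact mul_le_mul_of_nonneg_right (by linarith) (Real.exp_pos _).le
    have h5 : t * (β * N) = 1 := by rw [ht]; field_simp
    calc Real.exp (-t) = (β * N) * (t * Real.exp (-t)) := by
          rw [← mul_assoc, mul_comm (β * N) t, h5, one_mul]
      _ ≤ _ := mul_le_mul_of_nonneg_left h4 (by positivity)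
  rw [e1]
  have e3 : Real.exp (-(N * (c - 1 / N))) * Real.exp (-1) = Real.exp (-(N * c)) := by
    rw [← Real.exp_add]; congr 1; field_simp; ring
  calc Real.sqrt (1 / β) * (Real.exp (-(c - 1 / N) / β) * Real.exp (-t)) =
        (Real.sqrt (1 / β) * Real.exp (-(c - 1 / N) / β)) * Real.exp (-t) := by ring
    _ ≤ (r0 * Real.exp (-(N * (c - 1 / N)))) * (β * N * Real.exp (-1)) := by gcongr
    _ = β * (N * r0 * (Real.exp (-(N * (c - 1 / N))) * Real.exp (-1))) := by ring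
    _ = _ := by rw [e3]

theorem sqrt_exp_bd {β c : ℝ} (hβ : 0 < β) (hβ1 : β ≤ 1 / 38) (hc : 1 / 76 ≤ c) :
    Real.sqrt (1 / β) * Real.exp (-c / β) ≤ 6.1645 * Real.exp (-(38 * c)) :=
  sqrtExpJ hβ (by norm_num) (by linarith) (by norm_num) (by norm_num) (by norm_num; linarith)

theorem sqrt_exp_bd' {β c : ℝ} (hβ : 0 < β) (hβ1 : β ≤ 1 / 38) (hc : 3 / 76 ≤ c) :
    Real.sqrt (1 / β) * Real.exp (-c / β) ≤ β * (38 * 6.1645 * Real.exp (-(38 * c))) :=
  sqrtExpJ' hβ (by norm_num) (by linarith) (by norm_num) (by norm_num) (by norm_num; linarith)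

/-- `|1 - iσ| (1-n)^4 ≤ (1+y)^5` -/
theorem normD_bound {x y a : ℝ} (ha : 0 < a) (hn : ‖(x + y * I : ℂ)‖ ≤ 1 - a) (h5 : 1 - a ≤ 4 * a) :
    ‖1 - I * (x + y * I : ℂ)‖ * a ^ 4 ≤ (1 + y) ^ 5 ∧ a ≤ 1 + y ∧ ‖1 - I * (x + y * I : ℂ)‖ ≤ 2 - a := by
  have hn0 : 0 ≤ ‖(x + y * I : ℂ)‖ := norm_nonneg _
  have hn2 : ‖(x + y * I : ℂ)‖ ^ 2 = x ^ 2 + y ^ 2 := by
    rw [← Complex.normSq_eq_norm_sq, Complex.normSq_apply]
    simp
    ring
  have hD2 : ‖1 - I * (x + y * I : ℂ)‖ ^ 2 = (1 + y) ^ 2 + x ^ 2 := by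
    rw [← Complex.normSq_eq_norm_sq, Complex.normSq_apply]
    simp
    ring
  have hy : |y| ≤ ‖(x + y * I : ℂ)‖ := by
    have := Complex.abs_im_le_norm (x + y * I : ℂ)
    simpa using this
  have hyl := neg_abs_le y
  have hd : a ≤ 1 + y := by linarith
  refine ⟨?_, hd, ?_⟩
  · obtain ⟨u, hu⟩ : ∃ u, u = 1 + y - a := ⟨_, rfl⟩
    have hu0 : 0 ≤ u := by linarith
    have hd' : 1 + y = a + u := by linarith
    have hx2 : x ^ 2 ≤ 8 * a * u := by
      have h1 : x ^ 2 + y ^ 2 ≤ (1 - a) ^ 2 := by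
        rw [← hn2]; exact pow_le_pow_left₀ hn0 hn 2
      have hy' : y = a + u - 1 := by linarith
      rw [hy'] at h1
      have h2 := mul_nonneg hu0 (sub_nonneg.2 h5)
      have h3 := sq_nonneg u
      linarith
    have h8 : a ^ 8 + 8 * a ^ 7 * u ≤ (a + u) ^ 8 := by
      have p2 : a ^ 2 + 2 * a * u ≤ (a + u) ^ 2 := by
        have e : (a + u) ^ 2 = a ^ 2 + 2 * a * u + u ^ 2 := by ring
        have := sq_nonneg u
        linarith
      have p4 : a ^ 4 + 4 * a ^ 3 * u ≤ (a + u) ^ 4 := by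
        have : (a + u) ^ 4 = ((a + u) ^ 2) ^ 2 := by ring
        rw [this]
        have h0 : 0 ≤ a ^ 2 + 2 * a * u := by positivity
        have h1 := pow_le_pow_left₀ h0 p2 2
        have e : (a ^ 2 + 2 * a * u) ^ 2 = a ^ 4 + 4 * a ^ 3 * u + 4 * (a * u) ^ 2 := by ring
        have h2 := sq_nonneg (a * u)
        linarith
      have : (a + u) ^ 8 = ((a + u) ^ 4) ^ 2 := by ring
      rw [this]
      have h0 : 0 ≤ a ^ 4 + 4 * a ^ 3 * u := by positivity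
      have h1 := pow_le_pow_left₀ h0 p4 2
      have e : (a ^ 4 + 4 * a ^ 3 * u) ^ 2 = a ^ 8 + 8 * a ^ 7 * u + 16 * (a ^ 3 * u) ^ 2 := by ring
      have h2 := sq_nonneg (a ^ 3 * u)
      linarith
    have hsq : (‖1 - I * (x + y * I : ℂ)‖ * a ^ 4) ^ 2 ≤ ((1 + y) ^ 5) ^ 2 := by
      rw [mul_pow, hD2, hd']
      have h1 : (a + u) ^ 2 * (a ^ 8 + 8 * a ^ 7 * u) ≤ (a + u) ^ 2 * (a + u) ^ 8 :=
        mul_le_mul_of_nonneg_left h8 (by positivity)
      have h2 : x ^ 2 * a ^ 8 ≤ 8 * a * u * a ^ 8 := mul_le_mul_of_nonneg_right hx2 (by positivity)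
      have h3 : 8 * a * u * a ^ 8 ≤ (a + u) ^ 2 * (8 * a ^ 7 * u) := by
        have h4 : a ^ 2 ≤ (a + u) ^ 2 := pow_le_pow_left₀ ha.le (by linarith) 2
        calc 8 * a * u * a ^ 8 = a ^ 2 * (8 * a ^ 7 * u) := by ring
          _ ≤ _ := mul_le_mul_of_nonneg_right h4 (by positivity)
      calc ((a + u) ^ 2 + x ^ 2) * (a ^ 4) ^ 2 = (a + u) ^ 2 * a ^ 8 + x ^ 2 * a ^ 8 := by ring
        _ ≤ (a + u) ^ 2 * a ^ 8 + (a + u) ^ 2 * (8 * a ^ 7 * u) := by linarith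
        _ = (a + u) ^ 2 * (a ^ 8 + 8 * a ^ 7 * u) := by ring
        _ ≤ (a + u) ^ 2 * (a + u) ^ 8 := h1
        _ = _ := by ring
    exact le_of_sq_le_sq hsq (pow_nonneg (by linarith) 5)
  · have := norm_sub_le (1 : ℂ) (I * (x + y * I : ℂ))
    rw [norm_one, norm_mul, Complex.norm_I, one_mul] at this
    linarith

end Sok
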