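import Mathlib
import Pool.Agent.Lib.MP_816dec_an.JNumA

/-!
MP_816dec_an: numerical corollaries of Lemma J in the direction `1 - i`, part 2.
-/

set_option autoImplicit false
set_option maxHeartbeats 4000000

open Complex Set Filter Topology MeasureTheory

namespace Sok

private theorem hid_45 {β d D : ℝ} (hβ : 0 < β) (hd0 : 0 < d) (hD0 : 0 ≤ D) :
    Real.sqrt (D / (2 * Real.pi * β)) * Real.sqrt 2 * Real.sqrt (2 * Real.pi) =
      Real.sqrt (D / d) * Real.sqrt (2 * (d / β)) := by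
  have hpi := Real.pi_pos
  rw [← Real.sqrt_mul (by positivity), ← Real.sqrt_mul (by positivity), ← Real.sqrt_mul (by positivity)]
  congr 1
  field_simp

private theorem L1_45 {β n n0 a d k sD ρ A : ℝ} (hβ : 0 < β) (ha0 : 0 < a) (hd0 : 0 < d) (hn0 : 0 ≤ n)
    (hn : n ≤ n0) (hρ : ρ = n / d) (hA : A = d / β) (hkd : k ≤ d ^ 2 / a ^ 2)
    (hid : sD * Real.sqrt 2 * Real.sqrt (2 * Real.pi) = k * Real.sqrt (2 * A)) :
    sD * (Real.sqrt 2 * (3 / 2 * Real.sqrt (2 * Real.pi) * (ρ * A / 6 + 1.7 * (ρ * A / 6)) /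
      ((2 * A) ^ 2 * Real.sqrt (2 * A)))) ≤ 27 / 160 * (n0 / a ^ 2) * β := by
  have hA0 : 0 < A := by rw [hA]; positivity
  have hρ0 : 0 ≤ ρ := by rw [hρ]; positivity
  have hsA : 0 < Real.sqrt (2 * A) := Real.sqrt_pos.2 (by positivity)
  have e : sD * (Real.sqrt 2 * (3 / 2 * Real.sqrt (2 * Real.pi) * (ρ * A / 6 + 1.7 * (ρ * A / 6)) /
      ((2 * A) ^ 2 * Real.sqrt (2 * A)))) =
      (sD * Real.sqrt 2 * Real.sqrt (2 * Real.pi)) * (3 / 2 * (ρ * A / 6 + 1.7 * (ρ * A / 6)) /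
      ((2 * A) ^ 2 * Real.sqrt (2 * A))) := by ring
  rw [e, hid]
  have e2 : k * Real.sqrt (2 * A) * (3 / 2 * (ρ * A / 6 + 1.7 * (ρ * A / 6)) / ((2 * A) ^ 2 * Real.sqrt (2 * A))) =
      27 / 160 * (ρ / A * k) := by
    field_simp
    ring
  rw [e2]
  have h1 : ρ / A * k ≤ n0 / a ^ 2 * β := by
    have h2 : ρ / A * k ≤ ρ / A * (d ^ 2 / a ^ 2) := mul_le_mul_of_nonneg_left hkd (by positivity)
    have h3 : ρ / A * (d ^ 2 / a ^ 2) = n / a ^ 2 * β := by rw [hρ, hA]; field_simp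
    rw [h3] at h2
    refine h2.trans ?_
    gcongr
  linarith

private theorem L2_45 {β n n0 a d k sD ρ A : ℝ} (hβ : 0 < β) (ha0 : 0 < a) (hd0 : 0 < d) (hn0 : 0 ≤ n)
    (hn : n ≤ n0) (hda : a ≤ d) (hρ : ρ = n / d) (hA : A = d / β) (_hk0 : 0 ≤ k) (hkd : k ≤ d ^ 2 / a ^ 2)
    (hid : sD * Real.sqrt 2 * Real.sqrt (2 * Real.pi) = k * Real.sqrt (2 * A))
    (c w f : ℝ) (hc : 0 < c) (_hw : 0 ≤ w) (_hf : 0 ≤ f) (hcw : 1 ≤ w * (c ^ 3 * Real.sqrt c)) :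
    sD * (Real.sqrt 2 * (15 / 4 * Real.sqrt (2 * Real.pi) * (f * (ρ * A * (Real.sqrt 2 / 3))) ^ 2 /
        ((c * (2 * A)) ^ 3 * Real.sqrt (c * (2 * A))))) ≤ 5 / 48 * (n0 ^ 2 / a ^ 3) * (f ^ 2 * w) * β := by
  have hA0 : 0 < A := by rw [hA]; positivity
  have hρ0 : 0 ≤ ρ := by rw [hρ]; positivity
  have hsA : 0 < Real.sqrt (2 * A) := Real.sqrt_pos.2 (by positivity)
  have hsc : 0 < Real.sqrt c := Real.sqrt_pos.2 hc
  have e : sD * (Real.sqrt 2 * (15 / 4 * Real.sqrt (2 * Real.pi) * (f * (ρ * A * (Real.sqrt 2 / 3))) ^ 2 /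
      ((c * (2 * A)) ^ 3 * Real.sqrt (c * (2 * A))))) =
      (sD * Real.sqrt 2 * Real.sqrt (2 * Real.pi)) * (15 / 4 * (f * (ρ * A * (Real.sqrt 2 / 3))) ^ 2 /
      ((c * (2 * A)) ^ 3 * Real.sqrt (c * (2 * A)))) := by ring
  rw [e, hid, Real.sqrt_mul hc.le]
  have e2 : k * Real.sqrt (2 * A) * (15 / 4 * (f * (ρ * A * (Real.sqrt 2 / 3))) ^ 2 /
      ((c * (2 * A)) ^ 3 * (Real.sqrt c * Real.sqrt (2 * A)))) =
      5 / 48 * (ρ ^ 2 / A * k) * (f ^ 2 * (1 / (c ^ 3 * Real.sqrt c))) := by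
    have h22 : (Real.sqrt 2) ^ 2 = 2 := sqrt2_sq
    have : (f * (ρ * A * (Real.sqrt 2 / 3))) ^ 2 = f ^ 2 * ρ ^ 2 * A ^ 2 * (Real.sqrt 2) ^ 2 / 9 := by ring
    rw [this, h22]
    field_simp
    ring
  rw [e2]
  have h1 : ρ ^ 2 / A * k ≤ n0 ^ 2 / a ^ 3 * β := by
    have h2 : ρ ^ 2 / A * k ≤ ρ ^ 2 / A * (d ^ 2 / a ^ 2) := mul_le_mul_of_nonneg_left hkd (by positivity)
    have h3 : ρ ^ 2 / A * (d ^ 2 / a ^ 2) = n ^ 2 / (d * a ^ 2) * β := by rw [hρ, hA]; field_simp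
    rw [h3] at h2
    refine h2.trans ?_
    have h4 : n ^ 2 / (d * a ^ 2) ≤ n0 ^ 2 / a ^ 3 := by
      have : a ^ 3 ≤ d * a ^ 2 := by
        have := mul_le_mul_of_nonneg_right hda (sq_nonneg a)
        linarith [pow_succ' a 2]
      gcongr
    exact mul_le_mul_of_nonneg_right h4 hβ.le
  have h5 : 1 / (c ^ 3 * Real.sqrt c) ≤ w := by
    rw [div_le_iff₀ (by positivity)]; exact hcw
  calc 5 / 48 * (ρ ^ 2 / A * k) * (f ^ 2 * (1 / (c ^ 3 * Real.sqrt c))) ≤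
        5 / 48 * (n0 ^ 2 / a ^ 3 * β) * (f ^ 2 * w) := by gcongr
    _ = _ := by ring

private theorem T0_45 {β a d sD f E1 A : ℝ} (hβ : 0 < β) (ha0 : 0 < a) (hda : a ≤ d) (hA : A = d / β)
    (hsf : 0 ≤ f) (hE : 0 ≤ E1)
    (h1 : sD * Real.exp (-(d * (53 / 100) ^ 2) / β) ≤ f * E1) :
    sD * (Real.sqrt 2 * (2 * (Real.exp (-(2 * A / 2) * (53 / 100) ^ 2) / (2 * A * (53 / 100))))) ≤
      f * (1.41422 / (a * (53 / 100)) * E1) * β := by
  have hd0 : 0 < d := ha0.trans_le hda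
  have hs2 : Real.sqrt 2 ≤ 1.41422 := sqrt2_lt.le
  have e1 : -(2 * A / 2) * (53 / 100) ^ 2 = -(d * (53 / 100) ^ 2) / β := by rw [hA]; field_simp
  have e2 : sD * (Real.sqrt 2 * (2 * (Real.exp (-(2 * A / 2) * (53 / 100) ^ 2) / (2 * A * (53 / 100))))) =
      (sD * Real.exp (-(d * (53 / 100) ^ 2) / β)) * (Real.sqrt 2 * (β / (d * (53 / 100)))) := by
    rw [e1, hA]; field_simp
  rw [e2]
  have h2 : Real.sqrt 2 * (β / (d * (53 / 100))) ≤ 1.41422 * (β / (a * (53 / 100))) := by gcongr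
  calc (sD * Real.exp (-(d * (53 / 100) ^ 2) / β)) * (Real.sqrt 2 * (β / (d * (53 / 100)))) ≤
        (f * E1) * (1.41422 * (β / (a * (53 / 100)))) := by gcongr
    _ = _ := by ring

/-- Gaussian tail with rate `q` -/
private theorem TG_45 {β q q0 sD f E : ℝ} (hβ : 0 < β) (hq0 : 0 < q0) (hq : q0 ≤ q) (hsf : 0 ≤ f) (hE : 0 ≤ E)
    (h1 : sD * Real.exp (-(q * (53 / 100) ^ 2) / β) ≤ f * E) :
    sD * (Real.sqrt 2 * (Real.exp (-(q * (53 / 100) ^ 2) / β) / (2 * q * (53 / 100) / β))) ≤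
      f * (1.41422 / (2 * q0 * (53 / 100)) * E) * β := by
  have hqp : 0 < q := hq0.trans_le hq
  have hs2 : Real.sqrt 2 ≤ 1.41422 := sqrt2_lt.le
  have e2 : sD * (Real.sqrt 2 * (Real.exp (-(q * (53 / 100) ^ 2) / β) / (2 * q * (53 / 100) / β))) =
      (sD * Real.exp (-(q * (53 / 100) ^ 2) / β)) * (Real.sqrt 2 * (β / (2 * q * (53 / 100)))) := by
    field_simp
  rw [e2]
  have h2 : Real.sqrt 2 * (β / (2 * q * (53 / 100))) ≤ 1.41422 * (β / (2 * q0 * (53 / 100))) := by gcongr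
  calc (sD * Real.exp (-(q * (53 / 100) ^ 2) / β)) * (Real.sqrt 2 * (β / (2 * q * (53 / 100)))) ≤
        (f * E) * (1.41422 * (β / (2 * q0 * (53 / 100)))) := by gcongr
    _ = _ := by ring

/-- exponential tail -/
private theorem TE_45 {β c q q0 sD f E : ℝ} (hβ : 0 < β) (hq0 : 0 < q0) (hq : q0 ≤ q) (hsf : 0 ≤ f) (hE : 0 ≤ E)
    (h1 : sD * Real.exp (-c / β) ≤ f * E) :
    sD * (Real.exp (-c / β) / (q / β)) ≤ f * (1 / q0 * E) * β := by
  have hqp : 0 < q := hq0.trans_le hq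
  have e2 : sD * (Real.exp (-c / β) / (q / β)) = (sD * Real.exp (-c / β)) * (β / q) := by
    field_simp
  rw [e2]
  calc (sD * Real.exp (-c / β)) * (β / q) ≤ (f * E) * (β / q0) := by gcongr
    _ = _ := by ring

private theorem q_45 {x y n n0 d : ℝ} (hd : d = 1 + y) (hn0 : 0 ≤ n) (hn : n ≤ n0) (hn2 : n ^ 2 = x ^ 2 + y ^ 2) :
    1 - 1.4476 * n0 ≤ d - 0.5636 * |x| - |y| / 3 := by
  have h1 : (4 / 3 * |y| + 0.5636 * |x|) ^ 2 ≤ (1.4476 * n) ^ 2 := by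
    have e : (1.4476 * n) ^ 2 = 1.4476 ^ 2 * (|x| ^ 2 + |y| ^ 2) := by
      rw [mul_pow, hn2, sq_abs, sq_abs]
    rw [e]
    have h2 := sq_nonneg (0.5636 * |y| - 4 / 3 * |x|)
    have h3 := sq_nonneg (|x|)
    have h4 := sq_nonneg (|y|)
    linarith
  have h2 : 4 / 3 * |y| + 0.5636 * |x| ≤ 1.4476 * n := le_of_abs_le (abs_le_of_sq_le_sq h1 (by positivity))
  have h3 := neg_abs_le y
  rw [hd]
  linarith

/-- the bound of J45 as `β` times a constant, `β N ≤ 1` -/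
theorem J45_genN {β x y n0 a wL wR E1 E2 E3 E4 E5 C N r0 f : ℝ} (hβ : 0 < β) (hN8 : 8 ≤ N) (hβ1 : β * N ≤ 1)
    (hr : N ≤ r0 ^ 2) (hr0 : 0 ≤ r0) (hf : 0.487 * r0 ≤ f)
    (hn : ‖(x + y * I : ℂ)‖ ≤ n0) (h0 : 0 < n0) (h49 : n0 ≤ 0.49) (ha : a = 1 - n0)
    (hwL : 1 ≤ wL * ((1 - n0 / a / 4) ^ 3 * Real.sqrt (1 - n0 / a / 4)))
    (hwR : 1 ≤ wR * ((1 - 0.33 * (n0 / a)) ^ 3 * Real.sqrt (1 - 0.33 * (n0 / a))))
    (hE1 : Real.exp (-(N * (a * (53 / 100) ^ 2))) ≤ E1)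
    (hE2 : Real.exp (-(N * (a - 0.368 * n0))) ≤ E2)
    (hE3 : Real.exp (-(N * ((1 - 1.4476 * n0) * (53 / 100) ^ 2))) ≤ E3)
    (hE4 : Real.exp (-(N * (1 - 1.632 * n0))) ≤ E4)
    (hE5 : Real.exp (-(N * (5 - 9.7183 * n0))) ≤ E5)
    (hC : 27 / 160 * (n0 / a ^ 2) + 5 / 48 * (n0 ^ 2 / a ^ 3) * (wL + 1.7424 * wR) +
      f * (1.41422 / (a * (53 / 100)) * E1 + 1.41422 / (2 * a * (53 / 100)) * E1 + 1 / a * E2 +
        1.41422 / (2 * (1 - 1.4476 * n0) * (53 / 100)) * E3 + 4 * N * E4 + 1 / a * E5) ≤ C) :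
    ‖HH β (x + y * I) - 1‖ ≤ C * β := by
  have ha0 : 0 < a := by rw [ha]; linarith
  have ha51 : 0.51 ≤ a := by rw [ha]; linarith
  have ha1 : a < 1 := by rw [ha]; linarith
  have hna : 1 - a = n0 := by rw [ha]; ring
  have hN0 : 0 < N := by linarith
  have hf0 : 0 ≤ f := le_trans (by positivity) hf
  obtain ⟨hD5, hda, hD2⟩ := normD_bound (x := x) (y := y) ha0 (by rw [hna]; exact hn) (by linarith)
  obtain ⟨n, hnd⟩ : ∃ n, n = ‖(x + y * I : ℂ)‖ := ⟨_, rfl⟩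
  obtain ⟨D, hD⟩ : ∃ D, D = ‖1 - I * (x + y * I : ℂ)‖ := ⟨_, rfl⟩
  obtain ⟨d, hd⟩ : ∃ d, d = 1 + y := ⟨_, rfl⟩
  have hn0 : 0 ≤ n := by rw [hnd]; exact norm_nonneg _
  have hD0 : 0 ≤ D := by rw [hD]; exact norm_nonneg _
  have hd0 : 0 < d := by rw [hd]; linarith
  have hn2 : n ^ 2 = x ^ 2 + y ^ 2 := by
    rw [hnd, ← Complex.normSq_eq_norm_sq, Complex.normSq_apply]
    simp
    ring
  have hβ8 : β ≤ 1 / 8 := by
    have := mul_le_mul_of_nonneg_left hN8 hβ.le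
    linarith
  rw [← hnd] at hn
  rw [← hd] at hda
  have hJ := J45 (β := β) (x := x) (y := y) (ρ := n / d) hβ (by linarith)
    (by rw [← hnd, ← hd, div_mul_cancel₀ _ hd0.ne']) (by positivity) (by
      rw [div_lt_iff₀ hd0]
      linarith)
  rw [← hnd, ← hD, ← hd, lap45, tail45, ← hd] at hJ
  rw [← hD, ← hd] at hD5
  rw [← hD] at hD2
  refine hJ.trans ?_
  clear hJ
  -- prefactors
  obtain ⟨A, hA⟩ : ∃ A, A = d / β := ⟨_, rfl⟩
  have hA0 : 0 < A := by rw [hA]; positivity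
  obtain ⟨k, hk⟩ : ∃ k, k = Real.sqrt (D / d) := ⟨_, rfl⟩
  have hk0 : 0 ≤ k := by rw [hk]; exact Real.sqrt_nonneg _
  have hkd : k ≤ d ^ 2 / a ^ 2 := by
    rw [hk, Real.sqrt_le_left (by positivity), div_pow, div_le_div_iff₀ hd0 (by positivity)]
    calc D * (a ^ 2) ^ 2 = D * a ^ 4 := by ring
      _ ≤ d ^ 5 := hD5
      _ = _ := by ring
  obtain ⟨sD, hsD⟩ : ∃ sD, sD = Real.sqrt (D / (2 * Real.pi * β)) := ⟨_, rfl⟩
  have hsD0 : 0 ≤ sD := by rw [hsD]; exact Real.sqrt_nonneg _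
  obtain ⟨r1, hr1⟩ : ∃ r1, r1 = Real.sqrt (1 / β) := ⟨_, rfl⟩
  have hr10 : 0 ≤ r1 := by rw [hr1]; exact Real.sqrt_nonneg _
  have hpi := Real.pi_gt_d6
  have hsD1 : sD ≤ 0.487 * r1 := by
    rw [hsD, hr1, Real.sqrt_le_left (by positivity), mul_pow, Real.sq_sqrt (by positivity)]
    rw [div_le_iff₀ (by positivity)]
    have : 0.487 ^ 2 * (1 / β) * (2 * Real.pi * β) = 0.487 ^ 2 * 2 * Real.pi := by field_simp
    rw [this]
    linarith
  have hid : sD * Real.sqrt 2 * Real.sqrt (2 * Real.pi) = k * Real.sqrt (2 * A) := by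
    rw [hsD, hk, hA]; exact hid_45 hβ hd0 hD0
  rw [← hsD, ← hA]
  obtain ⟨ρ, hρ⟩ : ∃ ρ, ρ = n / d := ⟨_, rfl⟩
  have hρ0 : 0 ≤ ρ := by rw [hρ]; positivity
  have hρ1 : ρ ≤ n0 / a := by
    rw [hρ, div_le_div_iff₀ hd0 ha0]
    exact mul_le_mul hn hda ha0.le h0.le
  rw [← hρ]
  have L1 := L1_45 hβ ha0 hd0 hn0 hn hρ hA hkd hid
  have L2 := L2_45 hβ ha0 hd0 hn0 hn hda hρ hA hk0 hkd hid
  have hn0a : n0 / a ≤ 0.9608 := by
    rw [div_le_iff₀ ha0, ha]; linarith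
  have hcL : 0 < 1 - n0 / a / 4 := by linarith
  have hcR : 0 < 1 - 0.33 * (n0 / a) := by linarith
  have wpos : ∀ w c : ℝ, 0 < c → 1 ≤ w * (c ^ 3 * Real.sqrt c) → 0 ≤ w := by
    intro w c hc h
    have : 0 < c ^ 3 * Real.sqrt c := mul_pos (by positivity) (Real.sqrt_pos.2 hc)
    by_contra hneg
    have := mul_neg_of_neg_of_pos (not_le.1 hneg) this
    linarith
  have mono : ∀ w c c' : ℝ, 0 < c → c ≤ c' → 1 ≤ w * (c ^ 3 * Real.sqrt c) → 1 ≤ w * (c' ^ 3 * Real.sqrt c') := by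
    intro w c c' hc hcc h
    have hw := wpos w c hc h
    refine h.trans (mul_le_mul_of_nonneg_left ?_ hw)
    exact mul_le_mul (pow_le_pow_left₀ hc.le hcc 3) (Real.sqrt_le_sqrt hcc) (Real.sqrt_nonneg _) (by
      have := hc.trans_le hcc
      positivity)
  have L2a := L2 (1 - ρ / 4) wL 1 (by linarith) (wpos _ _ hcL hwL) (by norm_num)
    (mono wL (1 - n0 / a / 4) (1 - ρ / 4) hcL (by linarith) hwL)
  have L2b := L2 (1 - 0.33 * ρ) wR 1.32 (by linarith) (wpos _ _ hcR hwR) (by norm_num)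
    (mono wR (1 - 0.33 * (n0 / a)) (1 - 0.33 * ρ) hcR (by linarith) hwR)
  rw [one_mul] at L2a
  have h1N : 1 / (2 * N) ≤ 1 / 16 := by
    apply one_div_le_one_div_of_le <;> linarith
  have h3N : 3 / (2 * N) ≤ 3 / 16 := by
    have : 3 / (2 * N) = 3 * (1 / (2 * N)) := by ring
    rw [this]; linarith
  -- exponential terms
  have EX : ∀ c c0 E : ℝ, 1 / (2 * N) ≤ c0 → c0 ≤ c → Real.exp (-(N * c0)) ≤ E →
      sD * Real.exp (-c / β) ≤ f * E := by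
    intro c c0 E h1 h2 h3
    have h4 : Real.exp (-c / β) ≤ Real.exp (-c0 / β) := by
      apply Real.exp_le_exp.2
      exact div_le_div_of_nonneg_right (by linarith) hβ.le
    have h5 := sqrtExpJ hβ hN0 hβ1 hr hr0 h1
    rw [← hr1] at h5
    calc sD * Real.exp (-c / β) ≤ (0.487 * r1) * Real.exp (-c0 / β) := by gcongr
      _ = 0.487 * (r1 * Real.exp (-c0 / β)) := by ring
      _ ≤ 0.487 * (r0 * E) := by
          refine mul_le_mul_of_nonneg_left (h5.trans ?_) (by norm_num)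
          exact mul_le_mul_of_nonneg_left h3 hr0
      _ = (0.487 * r0) * E := by ring
      _ ≤ f * E := mul_le_mul_of_nonneg_right hf ((Real.exp_pos _).le.trans h3)
  have EX' : ∀ c c0 E : ℝ, 3 / (2 * N) ≤ c0 → c0 ≤ c → Real.exp (-(N * c0)) ≤ E →
      sD * Real.exp (-c / β) ≤ f * (N * E) * β := by
    intro c c0 E h1 h2 h3
    have h4 : Real.exp (-c / β) ≤ Real.exp (-c0 / β) := by
      apply Real.exp_le_exp.2
      exact div_le_div_of_nonneg_right (by linarith) hβ.le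
    have h5 := sqrtExpJ' hβ hN0 hβ1 hr hr0 h1
    rw [← hr1] at h5
    have hE : 0 ≤ E := (Real.exp_pos _).le.trans h3
    calc sD * Real.exp (-c / β) ≤ (0.487 * r1) * Real.exp (-c0 / β) := by gcongr
      _ = 0.487 * (r1 * Real.exp (-c0 / β)) := by ring
      _ ≤ 0.487 * (β * (N * r0 * E)) := by
          refine mul_le_mul_of_nonneg_left (h5.trans ?_) (by norm_num)
          refine mul_le_mul_of_nonneg_left ?_ hβ.le
          exact mul_le_mul_of_nonneg_left h3 (by positivity)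
      _ = (0.487 * r0) * (β * (N * E)) := by ring
      _ ≤ f * (β * (N * E)) := mul_le_mul_of_nonneg_right hf (by positivity)
      _ = _ := by ring
  have hE10 : 0 ≤ E1 := (Real.exp_pos _).le.trans hE1
  have hE20 : 0 ≤ E2 := (Real.exp_pos _).le.trans hE2
  have hE30 : 0 ≤ E3 := (Real.exp_pos _).le.trans hE3
  have hE50 : 0 ≤ E5 := (Real.exp_pos _).le.trans hE5
  have hna' : a ≤ 1 - n := by linarith
  have hq := q_45 hd hn0 hn hn2
  have hQ029 : 0.29 ≤ 1 - 1.4476 * n0 := by linarith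
  have T0 := T0_45 (f := f) (E1 := E1) hβ ha0 hda hA hf0 hE10
    (EX (d * (53 / 100) ^ 2) (a * (53 / 100) ^ 2) E1 (by linarith) (by linarith) hE1)
  have T1 := TG_45 (f := f) (E := E1) hβ ha0 hna' hf0 hE10
    (EX ((1 - n) * (53 / 100) ^ 2) (a * (53 / 100) ^ 2) E1 (by linarith) (by linarith) hE1)
  have T2 := TE_45 (f := f) (E := E2) hβ ha0 hda hf0 hE20
    (EX (d - 0.368 * n) (a - 0.368 * n0) E2 (by linarith) (by linarith) hE2)
  have T3 := TG_45 (f := f) (E := E3) hβ (by linarith) hq hf0 hE30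
    (EX ((d - 0.5636 * |x| - |y| / 3) * (53 / 100) ^ 2) ((1 - 1.4476 * n0) * (53 / 100) ^ 2) E3
      (by linarith) (by linarith) hE3)
  have T4 : sD * (4 * Real.exp (-(1 - 1.632 * n) / β)) ≤ f * (4 * N * E4) * β := by
    have h1 := EX' (1 - 1.632 * n) (1 - 1.632 * n0) E4 (by linarith) (by linarith) hE4
    linarith
  have T5 := TE_45 (f := f) (E := E5) hβ ha0 hna' hf0 hE50
    (EX (5 - 9.7183 * n) (5 - 9.7183 * n0) E5 (by linarith) (by linarith) hE5)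
  have hfin := mul_le_mul_of_nonneg_right hC hβ.le
  refine le_trans ?_ hfin
  rw [← hA] at T2
  have hsum := add_le_add (add_le_add (add_le_add (add_le_add (add_le_add (add_le_add (add_le_add (add_le_add L1 L2a) L2b)
    T0) T1) T2) T3) T4) T5
  refine (le_of_eq ?_).trans (hsum.trans (le_of_eq ?_))
  · simp only [mul_add]
    ring
  · ring

/-- the bound of J45 as `β` times a constant -/
theorem J45_gen {β x y n0 a wL wR E1 E2 E3 E4 E5 C : ℝ} (hβ : 0 < β) (hβ1 : β ≤ 1 / 38)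
    (hn : ‖(x + y * I : ℂ)‖ ≤ n0) (h0 : 0 < n0) (h49 : n0 ≤ 0.49) (ha : a = 1 - n0)
    (hwL : 1 ≤ wL * ((1 - n0 / a / 4) ^ 3 * Real.sqrt (1 - n0 / a / 4)))
    (hwR : 1 ≤ wR * ((1 - 0.33 * (n0 / a)) ^ 3 * Real.sqrt (1 - 0.33 * (n0 / a))))
    (hE1 : Real.exp (-(38 * (a * (53 / 100) ^ 2))) ≤ E1)
    (hE2 : Real.exp (-(38 * (a - 0.368 * n0))) ≤ E2)
    (hE3 : Real.exp (-(38 * ((1 - 1.4476 * n0) * (53 / 100) ^ 2))) ≤ E3)
    (hE4 : Real.exp (-(38 * (1 - 1.632 * n0))) ≤ E4)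
    (hE5 : Real.exp (-(38 * (5 - 9.7183 * n0))) ≤ E5)
    (hC : 27 / 160 * (n0 / a ^ 2) + 5 / 48 * (n0 ^ 2 / a ^ 3) * (wL + 1.7424 * wR) +
      3.0022 * (1.41422 / (a * (53 / 100)) * E1 + 1.41422 / (2 * a * (53 / 100)) * E1 + 1 / a * E2 +
        1.41422 / (2 * (1 - 1.4476 * n0) * (53 / 100)) * E3 + 152 * E4 + 1 / a * E5) ≤ C) :
    ‖HH β (x + y * I) - 1‖ ≤ C * β :=
  J45_genN (N := 38) (r0 := 6.1645) (f := 3.0022) hβ (by norm_num) (by linarith) (by norm_num) (by norm_num)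
    (by norm_num) hn h0 h49 ha hwL hwR hE1 hE2 hE3 hE4 hE5 (by
      have : (4 * 38 : ℝ) = 152 := by norm_num
      rw [this]; exact hC)

end Sok
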