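import Mathlib
import Pool.Agent.Lib.MP_816dec_an.JNum

/-!
MP_816dec_an: closed bounds for all angles, `|σ| ≤ 0.36, 0.42, 0.49`.
-/

set_option autoImplicit false

open Complex Set

namespace Sok

/-- lower bound of `c^3 √c` -/
theorem cube_sqrt_geJ {c s w : ℝ} (_hs0 : 0 ≤ s) (hs : s ^ 2 ≤ c) (hw : 0 ≤ w) (h : 1 ≤ w * (c ^ 3 * s)) :
    1 ≤ w * (c ^ 3 * Real.sqrt c) := by
  have hc : 0 ≤ c := (sq_nonneg s).trans hs
  have h1 : s ≤ Real.sqrt c := Real.le_sqrt_of_sq_le hs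
  refine h.trans (mul_le_mul_of_nonneg_left ?_ hw)
  exact mul_le_mul_of_nonneg_left h1 (pow_nonneg hc 3)

/-- upper bound of `exp(-t)` by a power of `e` and a Taylor polynomial -/
theorem exp_neg_leJ {t r E : ℝ} (k : ℕ) (hr : 0 ≤ r) (ht : (k : ℝ) + r ≤ t) (hE : 0 < E)
    (h : 1 ≤ E * (2.7182818 ^ k * (1 + r + r ^ 2 / 2 + r ^ 3 / 6 + r ^ 4 / 24))) : Real.exp (-t) ≤ E := by
  have h1 : (2.7182818 : ℝ) ^ k ≤ Real.exp k := by
    have : Real.exp (k : ℝ) = Real.exp 1 ^ k := by rw [← Real.exp_nat_mul, mul_one]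
    rw [this]
    exact pow_le_pow_left₀ (by norm_num) (lt_trans (by norm_num) Real.exp_one_gt_d9).le k
  have h2 : 1 + r + r ^ 2 / 2 + r ^ 3 / 6 + r ^ 4 / 24 ≤ Real.exp r := by
    have := Real.sum_le_exp_of_nonneg hr 5
    simp only [Finset.sum_range_succ, Finset.sum_range_zero, Nat.factorial] at this
    norm_num at this
    linarith
  have h3 : 2.7182818 ^ k * (1 + r + r ^ 2 / 2 + r ^ 3 / 6 + r ^ 4 / 24) ≤ Real.exp t := by
    refine le_trans ?_ (Real.exp_le_exp.2 ht)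
    rw [Real.exp_add]
    exact mul_le_mul h1 h2 (by positivity) (Real.exp_pos _).le
  rw [Real.exp_neg, inv_le_iff_one_le_mul₀ (Real.exp_pos t)]
  exact h.trans (mul_le_mul_of_nonneg_left h3 hE.le)

/-- all angles, `|σ| ≤ 0.49` -/
theorem J45_49 {β x y : ℝ} (hβ : 0 < β) (hβ1 : β ≤ 1 / 38) (hn : ‖(x + y * I : ℂ)‖ ≤ 0.49) :
    ‖HH β (x + y * I) - 1‖ ≤ 3.1 * β := by
  refine J45_gen (n0 := 0.49) (a := 0.51) (wL := 2.62) (wR := 3.82) (E1 := 0.00433) (E2 := 0.00001)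
    (E3 := 0.0451) (E4 := 0.000497) (E5 := 0.00012) hβ hβ1 hn (by norm_num) (by norm_num) (by norm_num) ?_ ?_ ?_ ?_ ?_ ?_ ?_ ?_
  · exact cube_sqrt_geJ (s := 0.871) (by norm_num) (by norm_num) (by norm_num) (by norm_num)
  · exact cube_sqrt_geJ (s := 0.826) (by norm_num) (by norm_num) (by norm_num) (by norm_num)
  · exact exp_neg_leJ (r := 0.443) 5 (by norm_num) (by norm_num) (by norm_num) (by norm_num)
  · exact exp_neg_leJ (r := 0.5) 12 (by norm_num) (by norm_num) (by norm_num) (by norm_num)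
  · exact exp_neg_leJ (r := 0.1) 3 (by norm_num) (by norm_num) (by norm_num) (by norm_num)
  · exact exp_neg_leJ (r := 0.61) 7 (by norm_num) (by norm_num) (by norm_num) (by norm_num)
  · exact exp_neg_leJ (r := 0.04) 9 (by norm_num) (by norm_num) (by norm_num) (by norm_num)
  · norm_num

/-- all angles, `|σ| ≤ 0.42` -/
theorem J45_42 {β x y : ℝ} (hβ : 0 < β) (hβ1 : β ≤ 1 / 38) (hn : ‖(x + y * I : ℂ)‖ ≤ 0.42) :
    ‖HH β (x + y * I) - 1‖ ≤ 1.05 * β := by
  refine J45_gen (n0 := 0.42) (a := 0.58) (wL := 2.02) (wR := 2.61) (E1 := 0.00206) (E2 := 0.00001)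
    (E3 := 0.01525) (E4 := 0.0000066) (E5 := 0.00012) hβ hβ1 hn (by norm_num) (by norm_num) (by norm_num) ?_ ?_ ?_ ?_ ?_ ?_ ?_ ?_
  · exact cube_sqrt_geJ (s := 0.904) (by norm_num) (by norm_num) (by norm_num) (by norm_num)
  · exact cube_sqrt_geJ (s := 0.872) (by norm_num) (by norm_num) (by norm_num) (by norm_num)
  · exact exp_neg_leJ (r := 0.19) 6 (by norm_num) (by norm_num) (by norm_num) (by norm_num)
  · exact exp_neg_leJ (r := 0.5) 12 (by norm_num) (by norm_num) (by norm_num) (by norm_num)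
  · exact exp_neg_leJ (r := 0.184) 4 (by norm_num) (by norm_num) (by norm_num) (by norm_num)
  · exact exp_neg_leJ (r := 0.94) 11 (by norm_num) (by norm_num) (by norm_num) (by norm_num)
  · exact exp_neg_leJ (r := 0.04) 9 (by norm_num) (by norm_num) (by norm_num) (by norm_num)
  · norm_num

/-- all angles, `|σ| ≤ 0.36` -/
theorem J45_36 {β x y : ℝ} (hβ : 0 < β) (hβ1 : β ≤ 1 / 38) (hn : ‖(x + y * I : ℂ)‖ ≤ 0.36) :
    ‖HH β (x + y * I) - 1‖ ≤ 0.5 * β := by
  refine J45_gen (n0 := 0.36) (a := 0.64) (wL := 1.703) (wR := 2.055) (E1 := 0.00109) (E2 := 0.00001)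
    (E3 := 0.00607) (E4 := 0.0000002) (E5 := 0.0000002) hβ hβ1 hn (by norm_num) (by norm_num) (by norm_num) ?_ ?_ ?_ ?_ ?_ ?_ ?_ ?_
  · exact cube_sqrt_geJ (s := 0.927) (by norm_num) (by norm_num) (by norm_num) (by norm_num)
  · exact cube_sqrt_geJ (s := 0.9024) (by norm_num) (by norm_num) (by norm_num) (by norm_num)
  · exact exp_neg_leJ (r := 0.83) 6 (by norm_num) (by norm_num) (by norm_num) (by norm_num)
  · exact exp_neg_leJ (r := 0.5) 12 (by norm_num) (by norm_num) (by norm_num) (by norm_num)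
  · exact exp_neg_leJ (r := 0.11) 5 (by norm_num) (by norm_num) (by norm_num) (by norm_num)
  · exact exp_neg_leJ (r := 0.67) 15 (by norm_num) (by norm_num) (by norm_num) (by norm_num)
  · exact exp_neg_leJ (r := 0.5) 15 (by norm_num) (by norm_num) (by norm_num) (by norm_num)
  · norm_num

end Sok
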