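import Mathlib
import Pool.Agent.Lib.MP_816dec_an.JNum2

/-!
MP_816dec_an: closed bounds for all angles, `β ≤ 1/25`.
-/

set_option autoImplicit false

open Complex Set

namespace Sok

/-- all angles, `|σ| ≤ 0.36`, `β ≤ 1/25` -/
theorem J45_36b {β x y : ℝ} (hβ : 0 < β) (hβ1 : β ≤ 1 / 25) (hn : ‖(x + y * I : ℂ)‖ ≤ 0.36) :
    ‖HH β (x + y * I) - 1‖ ≤ 0.85 * β := by
  refine J45_genN (N := 25) (r0 := 5) (f := 2.435) (n0 := 0.36) (a := 0.64) (wL := 1.703) (wR := 2.055)
    (E1 := 0.0113) (E2 := 0.00001) (E3 := 0.0349) (E4 := 0.00004) (E5 := 0.0000002) hβ (by norm_num) (by linarith)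
    (by norm_num) (by norm_num) (by norm_num) hn (by norm_num) (by norm_num) (by norm_num) ?_ ?_ ?_ ?_ ?_ ?_ ?_ ?_
  · exact cube_sqrt_geJ (s := 0.927) (by norm_num) (by norm_num) (by norm_num) (by norm_num)
  · exact cube_sqrt_geJ (s := 0.9024) (by norm_num) (by norm_num) (by norm_num) (by norm_num)
  · exact exp_neg_leJ (r := 0.49) 4 (by norm_num) (by norm_num) (by norm_num) (by norm_num)
  · exact exp_neg_leJ (r := 0.6) 12 (by norm_num) (by norm_num) (by norm_num) (by norm_num)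
  · exact exp_neg_leJ (r := 0.36) 3 (by norm_num) (by norm_num) (by norm_num) (by norm_num)
  · exact exp_neg_leJ (r := 0.31) 10 (by norm_num) (by norm_num) (by norm_num) (by norm_num)
  · exact exp_neg_leJ (r := 0.5) 15 (by norm_num) (by norm_num) (by norm_num) (by norm_num)
  · norm_num

/-- all angles, `|σ| ≤ 0.30`, `β ≤ 1/25` -/
theorem J45_30b {β x y : ℝ} (hβ : 0 < β) (hβ1 : β ≤ 1 / 25) (hn : ‖(x + y * I : ℂ)‖ ≤ 0.30) :
    ‖HH β (x + y * I) - 1‖ ≤ 0.45 * β := by
  refine J45_genN (N := 25) (r0 := 5) (f := 2.435) (n0 := 0.30) (a := 0.70) (wL := 1.49) (wR := 1.71)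
    (E1 := 0.00737) (E2 := 0.00001) (E3 := 0.0190) (E4 := 0.000004) (E5 := 0.0000002) hβ (by norm_num) (by linarith)
    (by norm_num) (by norm_num) (by norm_num) hn (by norm_num) (by norm_num) (by norm_num) ?_ ?_ ?_ ?_ ?_ ?_ ?_ ?_
  · exact cube_sqrt_geJ (s := 0.9448) (by norm_num) (by norm_num) (by norm_num) (by norm_num)
  · exact cube_sqrt_geJ (s := 0.9265) (by norm_num) (by norm_num) (by norm_num) (by norm_num)
  · exact exp_neg_leJ (r := 0.914) 4 (by norm_num) (by norm_num) (by norm_num) (by norm_num)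
  · exact exp_neg_leJ (r := 0.6) 14 (by norm_num) (by norm_num) (by norm_num) (by norm_num)
  · exact exp_neg_leJ (r := 0.97) 3 (by norm_num) (by norm_num) (by norm_num) (by norm_num)
  · exact exp_neg_leJ (r := 0.74) 12 (by norm_num) (by norm_num) (by norm_num) (by norm_num)
  · exact exp_neg_leJ (r := 0.5) 15 (by norm_num) (by norm_num) (by norm_num) (by norm_num)
  · norm_num

end Sok
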