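import Mathlib

/-!
MP_816dec_an (Sokal's function), row R1-GEO: geometry of the saddle.

For `κ > 0` the saddle `σ = x + i y`, `x > 0`, of the angle `t` is given by
`x = √(κ² e^{-2y} - y²)`, `t = arctan (y / x) - x`.
-/

set_option autoImplicit false

open Set Filter Topology Real

namespace Sok

/-- the square of `x` -/
noncomputable def gk (κ y : ℝ) : ℝ := κ ^ 2 * exp (-2 * y) - y ^ 2

/-- `x` as a function of `y` -/
noncomputable def Xk (κ y : ℝ) : ℝ := sqrt (gk κ y)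

/-- the angle as a function of `y` -/
noncomputable def Tk (κ y : ℝ) : ℝ := arctan (y / Xk κ y) - Xk κ y

/-- admissible `y` -/
def Iy (κ y : ℝ) : Prop := |y| * exp y < κ ∧ (exp (-1) < κ ∨ -1 < y)

/-- admissible angles -/
def DomR (κ t : ℝ) : Prop := 0 < κ ∧ t < π / 2 ∧ (exp (-1) < κ ∨ -(π / 2) < t)

theorem Iy.kpos {κ y : ℝ} (h : Iy κ y) : 0 < κ :=
  lt_of_le_of_lt (mul_nonneg (abs_nonneg _) (exp_pos _).le) h.1

theorem Iy.gpos {κ y : ℝ} (h : Iy κ y) : 0 < gk κ y := by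
  have h1 := h.1
  have h2 : |y| < κ * exp (-y) := by
    have h3 := mul_lt_mul_of_pos_right h1 (exp_pos (-y))
    rwa [mul_assoc, ← exp_add, add_neg_cancel, exp_zero, mul_one] at h3
  have h3 : |y| ^ 2 < (κ * exp (-y)) ^ 2 := by
    apply pow_lt_pow_left₀ h2 (abs_nonneg _) (by norm_num)
  rw [sq_abs, mul_pow, ← exp_nat_mul] at h3
  unfold gk
  have e : ((2 : ℕ) : ℝ) * -y = -2 * y := by push_cast; ring
  rw [e] at h3
  linarith

theorem Iy.xpos {κ y : ℝ} (h : Iy κ y) : 0 < Xk κ y := sqrt_pos.2 h.gpos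

theorem Iy.xsq {κ y : ℝ} (h : Iy κ y) : Xk κ y ^ 2 = gk κ y := sq_sqrt h.gpos.le

/-- `s e^{-s} ≤ e^{-1}` -/
theorem mul_exp_neg_le (s : ℝ) : s * exp (-s) ≤ exp (-1) := by
  have h1 := add_one_le_exp (s - 1)
  have h2 : s ≤ exp (s - 1) := by linarith
  calc s * exp (-s) ≤ exp (s - 1) * exp (-s) := mul_le_mul_of_nonneg_right h2 (exp_pos _).le
    _ = exp (-1) := by rw [← exp_add]; congr 1; ring

/-- `s e^{-s}` is increasing on `[0,1]` -/
theorem mul_exp_neg_mono {s s' : ℝ} (h0 : 0 ≤ s) (h : s ≤ s') (h1 : s' ≤ 1) :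
    s * exp (-s) ≤ s' * exp (-s') := by
  rcases eq_or_lt_of_le h0 with h2 | h2
  · rw [← h2]
    simp
    exact mul_nonneg (h0.trans h) (exp_pos _).le
  -- log (s'/s) ≥ s' - s
  have hs' : 0 < s' := lt_of_lt_of_le h2 h
  have h3 : 1 - s / s' ≤ log (s' / s) := by
    have h4 := one_sub_inv_le_log_of_pos (div_pos hs' h2)
    rwa [inv_div] at h4
  have h4 : s' - s ≤ log (s' / s) := by
    refine le_trans ?_ h3
    have : 1 - s / s' = (s' - s) / s' := by field_simp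
    rw [this, le_div_iff₀ hs']
    nlinarith
  have h5 : exp (s' - s) ≤ s' / s := by
    calc exp (s' - s) ≤ exp (log (s' / s)) := exp_le_exp.2 h4
      _ = s' / s := exp_log (div_pos hs' h2)
  rw [le_div_iff₀ h2] at h5
  calc s * exp (-s) = (exp (s' - s) * s) * exp (-s') := by
        rw [mul_comm (exp (s' - s)) s, mul_assoc, ← exp_add]
        congr 2
        ring
    _ ≤ s' * exp (-s') := mul_le_mul_of_nonneg_right h5 (exp_pos _).le

/-- `s e^{-s}` is strictly increasing on `[0,1]` -/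
theorem mul_exp_neg_lt {s s' : ℝ} (h0 : 0 ≤ s) (h : s < s') (h1 : s' ≤ 1) :
    s * exp (-s) < s' * exp (-s') := by
  rcases eq_or_lt_of_le h0 with h2 | h2
  · rw [← h2]
    simp
    exact mul_pos (lt_of_le_of_lt h0 h) (exp_pos _)
  have hs' : 0 < s' := h2.trans h
  -- exp (s' - s) < s'/s
  have h3 : exp (-(s' - s)) > s / s' := by
    have h4 := add_one_lt_exp (x := -(s' - s)) (by linarith)
    have h5 : s / s' ≤ 1 - (s' - s) := by
      rw [div_le_iff₀ hs']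
      nlinarith
    linarith
  have h4 : s < s' * exp (-(s' - s)) := by
    have := mul_lt_mul_of_pos_left h3 hs'
    rwa [mul_div_cancel₀ _ hs'.ne'] at this
  calc s * exp (-s) < (s' * exp (-(s' - s))) * exp (-s) := mul_lt_mul_of_pos_right h4 (exp_pos _)
    _ = s' * exp (-s') := by rw [mul_assoc, ← exp_add]; congr 2; ring

theorem Iy.between {κ a b y : ℝ} (ha : Iy κ a) (hb : Iy κ b) (h1 : a ≤ y) (h2 : y ≤ b) : Iy κ y := by
  have hk := ha.kpos
  refine ⟨?_, ?_⟩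
  · rcases le_total 0 y with h | h
    · rw [abs_of_nonneg h]
      have h3 := hb.1
      rw [abs_of_nonneg (h.trans h2)] at h3
      exact lt_of_le_of_lt (mul_le_mul h2 (exp_le_exp.2 h2) (exp_pos _).le (h.trans h2)) h3
    · rw [abs_of_nonpos h]
      rcases ha.2 with h3 | h3
      · have h4 := mul_exp_neg_le (-y)
        rw [neg_neg] at h4
        exact lt_of_le_of_lt h4 h3
      · have h4 := mul_exp_neg_mono (s := -y) (s' := -a) (by linarith) (by linarith) (by linarith)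
        rw [neg_neg, neg_neg] at h4
        have h5 := ha.1
        rw [abs_of_nonpos (h1.trans h)] at h5
        exact lt_of_le_of_lt h4 h5
  · rcases ha.2 with h3 | h3
    · exact Or.inl h3
    · exact Or.inr (by linarith)

theorem Iy.zero {κ : ℝ} (h : 0 < κ) : Iy κ 0 := ⟨by simpa using h, Or.inr (by norm_num)⟩

theorem hasStrictDerivAt_gk (κ y : ℝ) :
    HasStrictDerivAt (gk κ) (-2 * (gk κ y + y ^ 2 + y)) y := by
  have h1 : HasStrictDerivAt (fun y : ℝ => -2 * y) (-2 * 1) y := (hasStrictDerivAt_id y).const_mul _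
  have h2 := (h1.exp).const_mul (κ ^ 2)
  have h3 : HasStrictDerivAt (fun y : ℝ => y ^ 2) (2 * y) y := by
    simpa using hasStrictDerivAt_pow 2 y
  have h4 := h2.sub h3
  have e : κ ^ 2 * (exp (-2 * y) * (-2 * 1)) - 2 * y = -2 * (gk κ y + y ^ 2 + y) := by
    unfold gk; ring
  rw [e] at h4
  exact h4

theorem hasStrictDerivAt_Xk {κ y : ℝ} (h : Iy κ y) :
    HasStrictDerivAt (Xk κ) (-(Xk κ y ^ 2 + y ^ 2 + y) / Xk κ y) y := by
  have h1 := (hasStrictDerivAt_gk κ y).sqrt h.gpos.ne'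
  have e : -2 * (gk κ y + y ^ 2 + y) / (2 * sqrt (gk κ y)) = -(Xk κ y ^ 2 + y ^ 2 + y) / Xk κ y := by
    rw [h.xsq]
    have hx : sqrt (gk κ y) = Xk κ y := rfl
    rw [hx]
    have := h.xpos.ne'
    field_simp
  rw [e] at h1
  exact h1

/-- `dt/dy = D² / x` -/
theorem hasStrictDerivAt_Tk {κ y : ℝ} (h : Iy κ y) :
    HasStrictDerivAt (Tk κ) ((Xk κ y ^ 2 + (1 + y) ^ 2) / Xk κ y) y := by
  have hx := h.xpos
  have h1 : HasStrictDerivAt (fun y : ℝ => y / Xk κ y)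
      ((1 * Xk κ y - y * (-(Xk κ y ^ 2 + y ^ 2 + y) / Xk κ y)) / Xk κ y ^ 2) y :=
    (hasStrictDerivAt_id y).div (hasStrictDerivAt_Xk h) hx.ne'
  have h2 := h1.arctan
  have h3 := h2.sub (hasStrictDerivAt_Xk h)
  have e : (1 / (1 + (y / Xk κ y) ^ 2)) * ((1 * Xk κ y - y * (-(Xk κ y ^ 2 + y ^ 2 + y) / Xk κ y)) /
      Xk κ y ^ 2) - -(Xk κ y ^ 2 + y ^ 2 + y) / Xk κ y = (Xk κ y ^ 2 + (1 + y) ^ 2) / Xk κ y := by
    have h4 : 0 < Xk κ y ^ 2 + y ^ 2 := by positivity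
    have h5 : 1 + (y / Xk κ y) ^ 2 = (Xk κ y ^ 2 + y ^ 2) / Xk κ y ^ 2 := by field_simp
    rw [h5]
    field_simp
    ring
  rw [e] at h3
  exact h3

theorem Tk_strictMono {κ a b : ℝ} (ha : Iy κ a) (hb : Iy κ b) (hab : a < b) : Tk κ a < Tk κ b := by
  have h1 : StrictMonoOn (Tk κ) (Icc a b) := by
    apply strictMonoOn_of_deriv_pos (convex_Icc a b)
    · intro y hy
      exact (hasStrictDerivAt_Tk (ha.between hb hy.1 hy.2)).hasDerivAt.continuousAt.continuousWithinAt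
    · intro y hy
      rw [interior_Icc] at hy
      have hI := ha.between hb hy.1.le hy.2.le
      rw [(hasStrictDerivAt_Tk hI).hasDerivAt.deriv]
      have := hI.xpos
      positivity
  exact h1 (left_mem_Icc.2 hab.le) (right_mem_Icc.2 hab.le) hab

theorem Tk_inj {κ a b : ℝ} (ha : Iy κ a) (hb : Iy κ b) (h : Tk κ a = Tk κ b) : a = b := by
  rcases lt_trichotomy a b with h1 | h1 | h1
  · exact absurd h (Tk_strictMono ha hb h1).ne
  · exact h1
  · exact absurd h (Tk_strictMono hb ha h1).ne'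

/-- the right end: angles close to `π/2` are reached -/
theorem exists_above {κ t : ℝ} (hk : 0 < κ) (ht : t < π / 2) : ∃ y, 0 ≤ y ∧ Iy κ y ∧ t < Tk κ y := by
  -- the end point `y* e^{y*} = κ`
  obtain ⟨z, hz, hze⟩ : ∃ z ∈ Icc 0 κ, z * exp z = κ := by
    have hc : ContinuousOn (fun z : ℝ => z * exp z) (Icc 0 κ) := by fun_prop
    have h1 : κ ∈ Icc ((fun z : ℝ => z * exp z) 0) ((fun z : ℝ => z * exp z) κ) := by
      refine ⟨by simpa using hk.le, ?_⟩
      have := add_one_le_exp κ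
      show κ ≤ κ * exp κ
      nlinarith
    obtain ⟨z, hz, he⟩ := intermediate_value_Icc hk.le hc h1
    exact ⟨z, hz, he⟩
  have hz0 : 0 < z := by
    rcases eq_or_lt_of_le hz.1 with h | h
    · rw [← h] at hze; simp at hze; linarith
    · exact h
  have hIy : ∀ y, 0 ≤ y → y < z → Iy κ y := by
    intro y h0 h1
    refine ⟨?_, Or.inr (by linarith)⟩
    rw [abs_of_nonneg h0, ← hze]
    exact mul_lt_mul'' h1 (exp_lt_exp.2 h1) h0 (exp_pos _).le
  have hmem : ∀ᶠ y in 𝓝[<] z, 0 ≤ y ∧ y < z := by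
    have h1 : Ioo 0 z ∈ 𝓝[<] z := Ioo_mem_nhdsLT hz0
    filter_upwards [h1] with y hy
    exact ⟨hy.1.le, hy.2⟩
  have hX0 : Xk κ z = 0 := by
    unfold Xk gk
    have : κ ^ 2 * exp (-2 * z) - z ^ 2 = 0 := by
      have h1 : κ * exp (-z) = z := by
        rw [← hze, mul_assoc, ← exp_add, add_neg_cancel, exp_zero, mul_one]
      have h2 : exp (-2 * z) = exp (-z) ^ 2 := by rw [← exp_nat_mul]; congr 1; push_cast; ring
      rw [h2, ← mul_pow, h1, sub_self]
    rw [this, sqrt_zero]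
  have hXc : Continuous (Xk κ) := by
    unfold Xk gk
    fun_prop
  have h1 : Tendsto (Xk κ) (𝓝[<] z) (𝓝[>] 0) := by
    rw [tendsto_nhdsWithin_iff]
    constructor
    · rw [← hX0]
      exact hXc.continuousAt.tendsto.mono_left nhdsWithin_le_nhds
    · filter_upwards [hmem] with y hy
      exact (hIy y hy.1 hy.2).xpos
  have h2 : Tendsto (fun y => y * (Xk κ y)⁻¹) (𝓝[<] z) atTop :=
    (tendsto_id.mono_left nhdsWithin_le_nhds).pos_mul_atTop hz0 (tendsto_inv_nhdsGT_zero.comp h1)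
  have h3 : Tendsto (Tk κ) (𝓝[<] z) (𝓝 (π / 2)) := by
    have h4 := (tendsto_nhds_of_tendsto_nhdsWithin tendsto_arctan_atTop).comp h2
    have h5 := h4.sub (tendsto_nhds_of_tendsto_nhdsWithin h1)
    rw [sub_zero] at h5
    exact h5
  obtain ⟨y, hy, hyt⟩ := (hmem.and (h3.eventually (lt_mem_nhds ht))).exists
  exact ⟨y, hy.1, hIy y hy.1 hy.2, hyt⟩

/-- the left end -/
theorem exists_below {κ t : ℝ} (h : DomR κ t) : ∃ y, y ≤ 0 ∧ Iy κ y ∧ Tk κ y < t := by
  obtain ⟨hk, ht, h⟩ := h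
  by_cases hke : exp (-1) < κ
  · -- `y → -∞`
    have hA : 0 < κ ^ 2 - exp (-1) ^ 2 := by
      have := pow_lt_pow_left₀ hke (exp_pos _).le (by norm_num : (2 : ℕ) ≠ 0)
      linarith
    obtain ⟨A, hAd⟩ : ∃ A : ℝ, A = sqrt (κ ^ 2 - exp (-1) ^ 2) := ⟨_, rfl⟩
    have hA0 : 0 < A := by rw [hAd]; exact sqrt_pos.2 hA
    have hA2 : A ^ 2 = κ ^ 2 - exp (-1) ^ 2 := by rw [hAd]; exact sq_sqrt hA.le
    obtain ⟨s, hs0, hs⟩ : ∃ s : ℝ, 0 ≤ s ∧ π / 2 - t ≤ A * s :=
      ⟨max 0 ((π / 2 - t) / A), le_max_left _ _, by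
        have := le_max_right 0 ((π / 2 - t) / A)
        rw [div_le_iff₀ hA0] at this
        linarith⟩
    have hI : Iy κ (-s) := by
      refine ⟨?_, Or.inl hke⟩
      rw [abs_neg, abs_of_nonneg hs0]
      exact lt_of_le_of_lt (mul_exp_neg_le s) hke
    refine ⟨-s, by linarith, hI, ?_⟩
    have hx : A * exp s ≤ Xk κ (-s) := by
      apply le_sqrt_of_sq_le
      unfold gk
      have h1 : s ≤ exp (-1) * exp s := by
        have h2 := mul_exp_neg_le s
        have h3 := mul_le_mul_of_nonneg_right h2 (exp_pos s).le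
        rwa [mul_assoc, ← exp_add, neg_add_cancel, exp_zero, mul_one] at h3
      have h2 : s ^ 2 ≤ (exp (-1) * exp s) ^ 2 := pow_le_pow_left₀ hs0 h1 2
      have h3 : exp (-2 * -s) = exp s ^ 2 := by rw [← exp_nat_mul]; congr 1; push_cast; ring
      rw [h3, mul_pow, hA2]
      nlinarith
    have h2 : s < exp s := by linarith [add_one_le_exp s]
    have h3 : A * s < Xk κ (-s) := lt_of_lt_of_le (mul_lt_mul_of_pos_left h2 hA0) hx
    have h4 := arctan_lt_pi_div_two (-s / Xk κ (-s))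
    unfold Tk
    linarith
  · -- `y → y_* ∈ [-1, 0)`
    push Not at hke
    have ht' : -(π / 2) < t := by
      rcases h with h | h
      · exact absurd h (not_lt.2 hke)
      · exact h
    obtain ⟨z, hz, hze⟩ : ∃ z ∈ Icc (0 : ℝ) 1, z * exp (-z) = κ := by
      have hc : ContinuousOn (fun z : ℝ => z * exp (-z)) (Icc 0 1) := by fun_prop
      have h1 : κ ∈ Icc ((fun z : ℝ => z * exp (-z)) 0) ((fun z : ℝ => z * exp (-z)) 1) := by
        refine ⟨by simpa using hk.le, by simpa using hke⟩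
      obtain ⟨z, hz, he⟩ := intermediate_value_Icc zero_le_one hc h1
      exact ⟨z, hz, he⟩
    have hz0 : 0 < z := by
      rcases eq_or_lt_of_le hz.1 with h | h
      · rw [← h] at hze; simp at hze; linarith
      · exact h
    have hIy : ∀ y, y ≤ 0 → -z < y → Iy κ y := by
      intro y h0 h1
      refine ⟨?_, Or.inr (by linarith [hz.2])⟩
      rw [abs_of_nonpos h0]
      have h2 := mul_exp_neg_lt (s := -y) (s' := z) (by linarith) (by linarith) hz.2
      rw [neg_neg, hze] at h2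
      exact h2
    have hmem : ∀ᶠ y in 𝓝[>] (-z), y ≤ 0 ∧ -z < y := by
      have h1 : Ioo (-z) 0 ∈ 𝓝[>] (-z) := Ioo_mem_nhdsGT (by linarith)
      filter_upwards [h1] with y hy
      exact ⟨hy.2.le, hy.1⟩
    have hX0 : Xk κ (-z) = 0 := by
      unfold Xk gk
      have : κ ^ 2 * exp (-2 * -z) - (-z) ^ 2 = 0 := by
        have h1 : κ * exp z = z := by
          rw [← hze, mul_assoc, ← exp_add, neg_add_cancel, exp_zero, mul_one]
        have h2 : exp (-2 * -z) = exp z ^ 2 := by rw [← exp_nat_mul]; congr 1; push_cast; ring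
        rw [h2, ← mul_pow, h1]; ring
      rw [this, sqrt_zero]
    have hXc : Continuous (Xk κ) := by
      unfold Xk gk
      fun_prop
    have h1 : Tendsto (Xk κ) (𝓝[>] (-z)) (𝓝[>] 0) := by
      rw [tendsto_nhdsWithin_iff]
      constructor
      · rw [← hX0]
        exact hXc.continuousAt.tendsto.mono_left nhdsWithin_le_nhds
      · filter_upwards [hmem] with y hy
        exact (hIy y hy.1 hy.2).xpos
    have h2 : Tendsto (fun y => y * (Xk κ y)⁻¹) (𝓝[>] (-z)) atBot :=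
      (tendsto_id.mono_left nhdsWithin_le_nhds).neg_mul_atTop (by linarith : -z < 0)
        (tendsto_inv_nhdsGT_zero.comp h1)
    have h3 : Tendsto (Tk κ) (𝓝[>] (-z)) (𝓝 (-(π / 2))) := by
      have h4 := (tendsto_nhds_of_tendsto_nhdsWithin tendsto_arctan_atBot).comp h2
      have h5 := h4.sub (tendsto_nhds_of_tendsto_nhdsWithin h1)
      rw [sub_zero] at h5
      exact h5
    obtain ⟨y, hy, hyt⟩ := (hmem.and (h3.eventually (gt_mem_nhds ht'))).exists
    exact ⟨y, hy.1, hIy y hy.1 hy.2, hyt⟩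

theorem exists_y {κ t : ℝ} (h : DomR κ t) : ∃ y, Iy κ y ∧ Tk κ y = t := by
  obtain ⟨b, hb0, hb, hbt⟩ := exists_above h.1 h.2.1
  obtain ⟨a, ha0, ha, hat⟩ := exists_below h
  have hab : a ≤ b := ha0.trans hb0
  have hc : ContinuousOn (Tk κ) (Icc a b) := fun y hy =>
    (hasStrictDerivAt_Tk (ha.between hb hy.1 hy.2)).hasDerivAt.continuousAt.continuousWithinAt
  obtain ⟨y, hy, he⟩ := intermediate_value_Icc hab hc ⟨hat.le, hbt.le⟩
  exact ⟨y, ha.between hb hy.1 hy.2, he⟩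

open Classical in
/-- the imaginary part of the saddle -/
noncomputable def sy (κ t : ℝ) : ℝ := if h : ∃ y, Iy κ y ∧ Tk κ y = t then h.choose else 0

/-- the real part of the saddle -/
noncomputable def sx (κ t : ℝ) : ℝ := Xk κ (sy κ t)

theorem sy_spec {κ t : ℝ} (h : DomR κ t) : Iy κ (sy κ t) ∧ Tk κ (sy κ t) = t := by
  have h1 := exists_y h
  unfold sy
  rw [dif_pos h1]
  exact h1.choose_spec

theorem sy_eq {κ y : ℝ} (h : Iy κ y) : sy κ (Tk κ y) = y := by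
  have h1 : ∃ y', Iy κ y' ∧ Tk κ y' = Tk κ y := ⟨y, h, rfl⟩
  unfold sy
  rw [dif_pos h1]
  exact Tk_inj h1.choose_spec.1 h h1.choose_spec.2

theorem eventually_Iy {κ y : ℝ} (h : Iy κ y) : ∀ᶠ y' in 𝓝 y, Iy κ y' := by
  have h1 : ∀ᶠ y' in 𝓝 y, |y'| * exp y' < κ := by
    have hc : Continuous (fun y' : ℝ => |y'| * exp y') := by fun_prop
    exact hc.continuousAt.eventually (gt_mem_nhds h.1)
  rcases h.2 with h2 | h2
  · filter_upwards [h1] with y' hy'
    exact ⟨hy', Or.inl h2⟩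
  · filter_upwards [h1, lt_mem_nhds h2] with y' hy' hy2
    exact ⟨hy', Or.inr hy2⟩

theorem sx_pos {κ t : ℝ} (h : DomR κ t) : 0 < sx κ t := (sy_spec h).1.xpos

theorem hasStrictDerivAt_sy {κ t : ℝ} (h : DomR κ t) :
    HasStrictDerivAt (sy κ) (sx κ t / (sx κ t ^ 2 + (1 + sy κ t) ^ 2)) t := by
  obtain ⟨hI, ht⟩ := sy_spec h
  have hx := sx_pos h
  have h1 := hasStrictDerivAt_Tk hI
  have hx' : 0 < Xk κ (sy κ t) := hx
  have hne : (Xk κ (sy κ t) ^ 2 + (1 + sy κ t) ^ 2) / Xk κ (sy κ t) ≠ 0 := by positivity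
  have h2 := h1.to_local_left_inverse hne (g := sy κ) (by
    filter_upwards [eventually_Iy hI] with y hy
    exact sy_eq hy)
  rw [ht, inv_div] at h2
  exact h2

theorem hasStrictDerivAt_sx {κ t : ℝ} (h : DomR κ t) :
    HasStrictDerivAt (sx κ) (-(sx κ t ^ 2 + sy κ t ^ 2 + sy κ t) / (sx κ t ^ 2 + (1 + sy κ t) ^ 2)) t := by
  obtain ⟨hI, ht⟩ := sy_spec h
  have hx := sx_pos h
  have h1 := (hasStrictDerivAt_Xk hI).comp t (hasStrictDerivAt_sy h)
  have e : -(Xk κ (sy κ t) ^ 2 + sy κ t ^ 2 + sy κ t) / Xk κ (sy κ t) *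
      (sx κ t / (sx κ t ^ 2 + (1 + sy κ t) ^ 2)) =
      -(sx κ t ^ 2 + sy κ t ^ 2 + sy κ t) / (sx κ t ^ 2 + (1 + sy κ t) ^ 2) := by
    have hX : Xk κ (sy κ t) = sx κ t := rfl
    rw [hX]
    field_simp
  rw [e] at h1
  exact h1

/-- the exponent `β/κ · Re Φ` at the saddle -/
noncomputable def sE (κ t : ℝ) : ℝ := sx κ t * (1 + sy κ t) / κ

theorem hasStrictDerivAt_sE {κ t : ℝ} (h : DomR κ t) : HasStrictDerivAt (sE κ) (-(sy κ t / κ)) t := by
  have hx := sx_pos h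
  have hk := h.1
  have h1 := ((hasStrictDerivAt_sx h).mul ((hasStrictDerivAt_sy h).const_add 1)).div_const κ
  have e : (-(sx κ t ^ 2 + sy κ t ^ 2 + sy κ t) / (sx κ t ^ 2 + (1 + sy κ t) ^ 2) * (1 + sy κ t) +
      sx κ t * (sx κ t / (sx κ t ^ 2 + (1 + sy κ t) ^ 2))) / κ = -(sy κ t / κ) := by
    have : 0 < sx κ t ^ 2 + (1 + sy κ t) ^ 2 := by positivity
    field_simp
    ring
  rw [e] at h1
  exact h1

/-- `|σ|² = κ² e^{-2y}` -/
theorem s_sq {κ t : ℝ} (h : DomR κ t) : sx κ t ^ 2 + sy κ t ^ 2 = κ ^ 2 * exp (-2 * sy κ t) := by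
  have := (sy_spec h).1.xsq
  unfold gk at this
  unfold sx
  linarith

theorem s_norm {κ t : ℝ} (h : DomR κ t) : sqrt (sx κ t ^ 2 + sy κ t ^ 2) = κ * exp (-sy κ t) := by
  rw [s_sq h]
  have e : κ ^ 2 * exp (-2 * sy κ t) = (κ * exp (-sy κ t)) ^ 2 := by
    rw [mul_pow, ← exp_nat_mul]; congr 2; push_cast; ring
  rw [e, sqrt_sq (mul_nonneg h.1.le (exp_pos _).le)]

theorem s_arctan {κ t : ℝ} (h : DomR κ t) : arctan (sy κ t / sx κ t) = t + sx κ t := by
  have := (sy_spec h).2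
  unfold Tk at this
  unfold sx
  linarith

theorem s_angle {κ t : ℝ} (h : DomR κ t) : -(π / 2) < t + sx κ t ∧ t + sx κ t < π / 2 := by
  rw [← s_arctan h]
  exact ⟨neg_pi_div_two_lt_arctan _, arctan_lt_pi_div_two _⟩

/-- saddle data: `x = κ e^{-y} cos (t + x)`, `y = κ e^{-y} sin (t + x)` -/
theorem s_data {κ t : ℝ} (h : DomR κ t) :
    sx κ t = κ * exp (-sy κ t) * cos (t + sx κ t) ∧ sy κ t = κ * exp (-sy κ t) * sin (t + sx κ t) := by
  have hx := sx_pos h
  rw [← s_norm h, ← s_arctan h, cos_arctan, sin_arctan]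
  have h1 : sqrt (1 + (sy κ t / sx κ t) ^ 2) = sqrt (sx κ t ^ 2 + sy κ t ^ 2) / sx κ t := by
    rw [show 1 + (sy κ t / sx κ t) ^ 2 = (sx κ t ^ 2 + sy κ t ^ 2) / sx κ t ^ 2 by field_simp]
    rw [sqrt_div (by positivity), sqrt_sq hx.le]
  have h2 : 0 < sqrt (sx κ t ^ 2 + sy κ t ^ 2) := sqrt_pos.2 (by positivity)
  rw [h1]
  constructor
  · field_simp
  · field_simp

/-- uniqueness: any saddle data is the saddle -/
theorem s_unique {κ t x y : ℝ} (hk : 0 < κ) (hx : 0 < x) (h1 : x = κ * exp (-y) * cos (t + x))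
    (h2 : y = κ * exp (-y) * sin (t + x)) (h3 : -(π / 2) < t + x) (h4 : t + x < π / 2)
    (h5 : exp (-1) < κ ∨ -1 < y) : sx κ t = x ∧ sy κ t = y := by
  have hexp := exp_pos (-y)
  have hs : x ^ 2 + y ^ 2 = κ ^ 2 * exp (-2 * y) := by
    have e : exp (-2 * y) = exp (-y) ^ 2 := by rw [← exp_nat_mul]; congr 1; push_cast; ring
    have h6 := sin_sq_add_cos_sq (t + x)
    rw [e]
    calc x ^ 2 + y ^ 2 = (κ * exp (-y) * cos (t + x)) ^ 2 + (κ * exp (-y) * sin (t + x)) ^ 2 := by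
          rw [← h1, ← h2]
      _ = κ ^ 2 * exp (-y) ^ 2 * (sin (t + x) ^ 2 + cos (t + x) ^ 2) := by ring
      _ = _ := by rw [h6, mul_one]
  have hI : Iy κ y := by
    refine ⟨?_, h5⟩
    have h6 : y ^ 2 < (κ * exp (-y)) ^ 2 := by
      have e : exp (-2 * y) = exp (-y) ^ 2 := by rw [← exp_nat_mul]; congr 1; push_cast; ring
      rw [mul_pow, ← e, ← hs]
      have := pow_pos hx 2
      linarith
    have h7 : |y| < κ * exp (-y) := abs_lt_of_sq_lt_sq h6 (by positivity)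
    have h8 := mul_lt_mul_of_pos_right h7 (exp_pos y)
    rwa [mul_assoc, ← exp_add, neg_add_cancel, exp_zero, mul_one] at h8
  have hX : Xk κ y = x := by
    unfold Xk gk
    rw [← hs, show x ^ 2 + y ^ 2 - y ^ 2 = x ^ 2 by ring, sqrt_sq hx.le]
  have hT : Tk κ y = t := by
    unfold Tk
    rw [hX]
    have hc : 0 < cos (t + x) := cos_pos_of_mem_Ioo ⟨h3, h4⟩
    have h6 : y / x = tan (t + x) := by
      rw [tan_eq_sin_div_cos, div_eq_div_iff hx.ne' hc.ne']
      linear_combination cos (t + x) * h2 - sin (t + x) * h1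
    rw [h6, arctan_tan h3 h4]
    ring
  have h6 := sy_eq hI
  rw [hT] at h6
  refine ⟨?_, h6⟩
  unfold sx
  rw [h6, hX]

theorem s_complex {κ t : ℝ} (h : DomR κ t) :
    ((sx κ t : ℂ) + (sy κ t : ℂ) * Complex.I) =
      ((κ * exp (-sy κ t) : ℝ) : ℂ) * Complex.exp (((t + sx κ t : ℝ) : ℂ) * Complex.I) := by
  obtain ⟨h1, h2⟩ := s_data h
  rw [Complex.exp_mul_I, ← Complex.ofReal_cos, ← Complex.ofReal_sin]
  rw [mul_add, ← mul_assoc, ← Complex.ofReal_mul, ← Complex.ofReal_mul, ← h1, ← h2]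

/-- the point `z` of the saddle -/
theorem s_point {κ t β : ℝ} (h : DomR κ t) (hβ : β ≠ 0) :
    (((sx κ t : ℂ) + (sy κ t : ℂ) * Complex.I) / β) *
      Complex.exp (-(Complex.I * ((sx κ t : ℂ) + (sy κ t : ℂ) * Complex.I)) + Complex.I * β / 2) =
      ((κ / β : ℝ) : ℂ) * Complex.exp (((t + β / 2 : ℝ) : ℂ) * Complex.I) := by
  rw [s_complex h]
  nth_rewrite 2 [← s_complex h]
  have hb : (β : ℂ) ≠ 0 := by exact_mod_cast hβ
  have e1 : (-(Complex.I * ((sx κ t : ℂ) + (sy κ t : ℂ) * Complex.I)) + Complex.I * β / 2) =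
      ((sy κ t : ℝ) : ℂ) + (((β / 2 - sx κ t : ℝ) : ℂ) * Complex.I) := by
    push_cast
    linear_combination (-(sy κ t : ℂ)) * Complex.I_mul_I
  rw [e1, Complex.exp_add]
  have e2 : ((κ * exp (-sy κ t) : ℝ) : ℂ) = (κ : ℂ) * Complex.exp (-((sy κ t : ℝ) : ℂ)) := by
    push_cast; rfl
  rw [e2]
  have e3 : Complex.exp (-((sy κ t : ℝ) : ℂ)) * Complex.exp ((sy κ t : ℝ) : ℂ) = 1 := by
    rw [← Complex.exp_add, neg_add_cancel, Complex.exp_zero]
  have e4 : Complex.exp (((t + β / 2 : ℝ) : ℂ) * Complex.I) =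
      Complex.exp (((t + sx κ t : ℝ) : ℂ) * Complex.I) * Complex.exp (((β / 2 - sx κ t : ℝ) : ℂ) * Complex.I) := by
    rw [← Complex.exp_add]
    congr 1
    push_cast
    ring
  rw [e4]
  have e5 : ((κ / β : ℝ) : ℂ) = (κ : ℂ) / β := by push_cast; rfl
  rw [e5]
  linear_combination ((κ : ℂ) / β) * Complex.exp (((t + sx κ t : ℝ) : ℂ) * Complex.I) *
    Complex.exp (((β / 2 - sx κ t : ℝ) : ℂ) * Complex.I) * e3

end Sok
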