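import Pool.Agent.Lib.MP_816dec_an.R1Asm
import Pool.Agent.Lib.MP_816dec_an.R1Geo
import Pool.Agent.Lib.MP_816dec_an.JS

/-!
MP_816dec_an (A3, row R1): the copies `XX β b k w` in terms of the saddle data.
-/

set_option autoImplicit false

open Complex Set Filter Topology Metric

namespace Sok

/-- the parameter `κ` of the point `w` -/
noncomputable def kp (β : ℝ) (w : ℂ) : ℝ := β * Real.exp w.re

/-- the angle of the copy `k` -/
noncomputable def tk (β : ℝ) (b : ℕ) (k : ℤ) (w : ℂ) : ℝ := w.im + 2 * Real.pi * k / b - β / 2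

/-- the saddle -/
noncomputable def sg (κ t : ℝ) : ℂ := (sx κ t : ℂ) + (sy κ t : ℂ) * I

/-- `|1 - i σ|²` -/
noncomputable def sD (κ t : ℝ) : ℝ := sx κ t ^ 2 + (1 + sy κ t) ^ 2

theorem XX_eq_F (β : ℝ) (b : ℕ) (k : ℤ) (w : ℂ) :
    XX β b k w = F (cexp (I * β)) ((Real.exp w.re : ℝ) * cexp (I * ((tk β b k w + β / 2 : ℝ) : ℂ))) := by
  unfold XX GW
  congr 1
  · rw [mul_comm]
  · have e : w + 2 * Real.pi * k / b * I = (w.re : ℂ) + I * ((tk β b k w + β / 2 : ℝ) : ℂ) := by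
      unfold tk
      conv_lhs => rw [← Complex.re_add_im w]
      push_cast
      ring
    rw [e, Complex.exp_add, Complex.ofReal_exp]

theorem XX_eq_zs {β : ℝ} (hβ : 0 < β) {b : ℕ} {k : ℤ} {w : ℂ} (h : DomR (kp β w) (tk β b k w)) :
    XX β b k w = F (cexp (I * β)) (zs β (sg (kp β w) (tk β b k w))) := by
  rw [XX_eq_F]
  congr 1
  have h1 := s_point h hβ.ne'
  have e : kp β w / β = Real.exp w.re := by unfold kp; field_simp
  rw [e] at h1
  rw [mul_comm I, ← h1]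
  rfl

theorem sD_pos {κ t : ℝ} (h : DomR κ t) : 0 < sD κ t := by
  have := sx_pos h
  unfold sD
  positivity

theorem norm_one_sub_sg {κ t : ℝ} : ‖1 - I * sg κ t‖ = Real.sqrt (sD κ t) := by
  rw [Complex.norm_def]
  congr 1
  unfold sg sD
  rw [Complex.normSq_apply]
  simp
  ring

theorem one_sub_sg_ne {κ t : ℝ} (h : DomR κ t) : 1 - I * sg κ t ≠ 0 := by
  rw [← norm_pos_iff, norm_one_sub_sg]
  exact Real.sqrt_pos.2 (sD_pos h)

theorem norm_cpow_half (z : ℂ) : ‖z ^ (1 / 2 : ℂ)‖ = Real.sqrt ‖z‖ := by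
  have e : (1 / 2 : ℂ) = ((1 / 2 : ℝ) : ℂ) := by push_cast; rfl
  rw [e, Complex.norm_cpow_real, Real.sqrt_eq_rpow]

theorem norm_HH {κ t β : ℝ} (h : DomR κ t) (hβ : 0 < β) :
    ‖HH β (sg κ t)‖ = ‖F (cexp (I * β)) (zs β (sg κ t))‖ * Real.exp (-(κ / β * sE κ t)) *
      Real.sqrt (Real.sqrt (sD κ t)) := by
  have hk := h.1
  unfold HH
  rw [norm_mul, norm_mul, norm_cpow_half, norm_one_sub_sg, Complex.norm_exp]
  congr 3
  unfold sg sE
  have e : (-(((sx κ t : ℂ) + (sy κ t : ℂ) * I - I * ((sx κ t : ℂ) + (sy κ t : ℂ) * I) ^ 2 / 2) / (β : ℂ))) =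
      ((-(sx κ t * (1 + sy κ t) / β) : ℝ) : ℂ) +
        ((-((sy κ t - (sx κ t ^ 2 - sy κ t ^ 2) / 2) / β) : ℝ) : ℂ) * I := by
    push_cast
    ring_nf
    simp only [I_sq, I_pow_three]
    ring
  rw [e]
  simp only [add_re, ofReal_re, mul_re, I_re, mul_zero, ofReal_im, I_im, mul_one, sub_self, add_zero]
  field_simp

/-- the normalised size of the copy -/
noncomputable def sQ (β κ t : ℝ) : ℝ := Real.exp (κ / β * sE κ t) / Real.sqrt (Real.sqrt (sD κ t))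

theorem sQ_pos {β κ t : ℝ} (h : DomR κ t) : 0 < sQ β κ t :=
  div_pos (Real.exp_pos _) (Real.sqrt_pos.2 (Real.sqrt_pos.2 (sD_pos h)))

theorem norm_F_eq {κ t β : ℝ} (h : DomR κ t) (hβ : 0 < β) :
    ‖F (cexp (I * β)) (zs β (sg κ t))‖ = ‖HH β (sg κ t)‖ * sQ β κ t := by
  rw [norm_HH h hβ]
  unfold sQ
  have h1 : 0 < Real.sqrt (Real.sqrt (sD κ t)) := Real.sqrt_pos.2 (Real.sqrt_pos.2 (sD_pos h))
  have h2 : Real.exp (-(κ / β * sE κ t)) * Real.exp (κ / β * sE κ t) = 1 := by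
    rw [← Real.exp_add, neg_add_cancel, Real.exp_zero]
  generalize Real.exp (κ / β * sE κ t) = e2 at h2 ⊢
  generalize Real.exp (-(κ / β * sE κ t)) = e1 at h2 ⊢
  generalize Real.sqrt (Real.sqrt (sD κ t)) = S at h1 ⊢
  field_simp
  linear_combination (-‖F (cexp (I * β)) (zs β (sg κ t))‖) * h2

theorem norm_XX_le {β : ℝ} (hβ : 0 < β) {b : ℕ} {k : ℤ} {w : ℂ} (h : DomR (kp β w) (tk β b k w)) {ε : ℝ}
    (hJ : ‖HH β (sg (kp β w) (tk β b k w)) - 1‖ ≤ ε) :
    ‖XX β b k w‖ ≤ (1 + ε) * sQ β (kp β w) (tk β b k w) := by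
  rw [XX_eq_zs hβ h, norm_F_eq h hβ]
  apply mul_le_mul_of_nonneg_right _ (sQ_pos h).le
  have h1 := norm_add_le (HH β (sg (kp β w) (tk β b k w)) - 1) 1
  rw [sub_add_cancel, norm_one] at h1
  linarith

theorem le_norm_XX {β : ℝ} (hβ : 0 < β) {b : ℕ} {k : ℤ} {w : ℂ} (h : DomR (kp β w) (tk β b k w)) {ε : ℝ}
    (hJ : ‖HH β (sg (kp β w) (tk β b k w)) - 1‖ ≤ ε) :
    (1 - ε) * sQ β (kp β w) (tk β b k w) ≤ ‖XX β b k w‖ := by
  rw [XX_eq_zs hβ h, norm_F_eq h hβ]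
  apply mul_le_mul_of_nonneg_right _ (sQ_pos h).le
  have h1 := norm_sub_norm_le 1 (1 - HH β (sg (kp β w) (tk β b k w)))
  rw [norm_one, norm_sub_rev 1] at h1
  have h2 : (1 : ℂ) - (1 - HH β (sg (kp β w) (tk β b k w))) = HH β (sg (kp β w) (tk β b k w)) := by ring
  rw [h2] at h1
  linarith

theorem hasDerivAt_XX (β : ℝ) (b : ℕ) (k : ℤ) (w : ℂ) :
    HasDerivAt (XX β b k) (cexp (w + 2 * Real.pi * k / b * I) * GW β (w + 2 * Real.pi * k / b * I + β * I)) w := by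
  have h1 : HasDerivAt (fun w : ℂ => w + 2 * Real.pi * k / b * I) 1 w := (hasDerivAt_id w).add_const _
  have h2 := (hasDerivAt_GW β (w + 2 * Real.pi * k / b * I)).comp w h1
  rw [mul_one] at h2
  exact h2

theorem differentiable_XX (β : ℝ) (b : ℕ) (k : ℤ) : Differentiable ℂ (XX β b k) :=
  fun w => (hasDerivAt_XX β b k w).differentiableAt

/-- the logarithmic derivative of a copy -/
theorem logDeriv_XX {β : ℝ} (hβ : 0 < β) {b : ℕ} {k : ℤ} {w : ℂ} (h : DomR (kp β w) (tk β b k w)) :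
    deriv (XX β b k) w / XX β b k w =
      zs β (sg (kp β w) (tk β b k w)) * F (cexp (I * β)) (cexp (I * β) * zs β (sg (kp β w) (tk β b k w))) /
        F (cexp (I * β)) (zs β (sg (kp β w) (tk β b k w))) := by
  have hz : cexp (w + 2 * Real.pi * k / b * I) = zs β (sg (kp β w) (tk β b k w)) := by
    have h1 := s_point h hβ.ne'
    have e : kp β w / β = Real.exp w.re := by unfold kp; field_simp
    rw [e] at h1
    have h2 : zs β (sg (kp β w) (tk β b k w)) =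
        ((Real.exp w.re : ℝ) : ℂ) * cexp (((tk β b k w + β / 2 : ℝ) : ℂ) * I) := h1
    rw [h2, Complex.ofReal_exp, ← Complex.exp_add]
    congr 1
    unfold tk
    conv_lhs => rw [← Complex.re_add_im w]
    push_cast
    ring
  have h3 : GW β (w + 2 * Real.pi * k / b * I + β * I) =
      F (cexp (I * β)) (cexp (I * β) * zs β (sg (kp β w) (tk β b k w))) := by
    unfold GW
    rw [Complex.exp_add, hz, mul_comm (β : ℂ) I, mul_comm (zs _ _)]
  rw [(hasDerivAt_XX β b k w).deriv, h3, hz, XX_eq_zs hβ h]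

/-- imaginary part of the logarithmic derivative -/
theorem im_logDeriv {β δ ε : ℝ} (hβ : 0 < β) {b : ℕ} {k : ℤ} {w : ℂ} (h : DomR (kp β w) (tk β b k w))
    (hδ : 0 < δ) (hε : ε < 1)
    (him : ∀ s : ℂ, ‖s - sg (kp β w) (tk β b k w)‖ ≤ δ → -1 < s.im)
    (hJ : ∀ s : ℂ, ‖s - sg (kp β w) (tk β b k w)‖ ≤ δ → ‖HH β s - 1‖ ≤ ε) :
    |(deriv (XX β b k) w / XX β b k w).im - (sy (kp β w) (tk β b k w) / β +
      (I / 2 * sg (kp β w) (tk β b k w) / (1 - I * sg (kp β w) (tk β b k w)) ^ 2).im)| ≤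
      ‖sg (kp β w) (tk β b k w) / (1 - I * sg (kp β w) (tk β b k w))‖ * (ε / (δ * (1 - ε))) := by
  have hs0 : sg (kp β w) (tk β b k w) ≠ 0 := by
    intro h0
    have h1 := congrArg Complex.re h0
    unfold sg at h1
    simp at h1
    exact absurd h1 (sx_pos h).ne'
  obtain ⟨-, h2⟩ := slope_of_disc hβ hδ hε hs0 him hJ
  rw [logDeriv_XX hβ h]
  have h3 := (Complex.abs_im_le_norm _).trans h2
  rw [Complex.sub_im, Complex.add_im] at h3
  have e : (sg (kp β w) (tk β b k w) / (β : ℂ)).im = sy (kp β w) (tk β b k w) / β := by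
    rw [Complex.div_ofReal_im]
    congr 1
    unfold sg
    simp
  rw [e] at h3
  exact h3

end Sok
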