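import Pool.Agent.Lib.MP_816dec_an.R1Ineq3

/-!
MP_816dec_an (Sokal's function), row R1: tables for `sp`, bounds of `x² + (1+y)²`.
-/

set_option autoImplicit false

open Set Filter Topology Real

namespace Sok

/-- `κ(3-κ²) ≤ χ(1+κ²)²` on `[k1,k2]` from two numeric checks -/
theorem chi_box {κ : ℝ} (k0 k1 k2 χ : ℝ) (h0 : 0 ≤ κ) (h1 : k1 ≤ κ) (h2 : κ ≤ k2) (h12 : k1 < k2) (hk0 : 0 ≤ k0)
    (hχ : 0 ≤ χ)
    (e1 : 3 * k0 - k0 ^ 3 + (3 - 3 * k0 ^ 2) * (k1 - k0) ≤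
      χ * ((1 + k0 ^ 2) ^ 2 + 4 * k0 * (1 + k0 ^ 2) * (k1 - k0)))
    (e2 : 3 * k0 - k0 ^ 3 + (3 - 3 * k0 ^ 2) * (k2 - k0) ≤
      χ * ((1 + k0 ^ 2) ^ 2 + 4 * k0 * (1 + k0 ^ 2) * (k2 - k0))) :
    κ * (3 - κ ^ 2) ≤ χ * (1 + κ ^ 2) ^ 2 := by
  have g1 : κ * (3 - κ ^ 2) ≤ 3 * k0 - k0 ^ 3 + (3 - 3 * k0 ^ 2) * (κ - k0) := by
    have e : 3 * k0 - k0 ^ 3 + (3 - 3 * k0 ^ 2) * (κ - k0) - κ * (3 - κ ^ 2) = (κ - k0) ^ 2 * (κ + 2 * k0) := by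
      ring
    have : 0 ≤ (κ - k0) ^ 2 * (κ + 2 * k0) := by positivity
    linarith
  have g2 : (1 + k0 ^ 2) ^ 2 + 4 * k0 * (1 + k0 ^ 2) * (κ - k0) ≤ (1 + κ ^ 2) ^ 2 := by
    have e : (1 + κ ^ 2) ^ 2 - ((1 + k0 ^ 2) ^ 2 + 4 * k0 * (1 + k0 ^ 2) * (κ - k0)) =
        (κ - k0) ^ 2 * (κ ^ 2 + 2 * κ * k0 + 3 * k0 ^ 2 + 2) := by ring
    have : 0 ≤ (κ - k0) ^ 2 * (κ ^ 2 + 2 * κ * k0 + 3 * k0 ^ 2 + 2) := by positivity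
    linarith
  have g3 := mul_le_mul_of_nonneg_left g2 hχ
  -- linear interpolation
  have g4 : (k2 - k1) * (3 * k0 - k0 ^ 3 + (3 - 3 * k0 ^ 2) * (κ - k0)) ≤
      (k2 - k1) * (χ * ((1 + k0 ^ 2) ^ 2 + 4 * k0 * (1 + k0 ^ 2) * (κ - k0))) := by
    have a1 := mul_le_mul_of_nonneg_left e1 (sub_nonneg.2 h2)
    have a2 := mul_le_mul_of_nonneg_left e2 (sub_nonneg.2 h1)
    linarith only [a1, a2]
  have g5 := le_of_mul_le_mul_left g4 (sub_pos.2 h12)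
  linarith

/-- `κ²(1+κ²/6) ≤ μ(1+κ²)³` on `[k1,k2]` -/
theorem mu_box {κ : ℝ} (u0 k1 k2 μ : ℝ) (h1 : k1 ≤ κ) (h2 : κ ≤ k2) (hk1 : 0 ≤ k1) (h12 : k1 < k2)
    (hu0 : 0 ≤ u0) (hμ : 0 ≤ μ)
    (e1 : k1 ^ 2 + k1 ^ 4 / 6 ≤ μ * ((1 + u0) ^ 3 + 3 * (1 + u0) ^ 2 * (k1 ^ 2 - u0)))
    (e2 : k2 ^ 2 + k2 ^ 4 / 6 ≤ μ * ((1 + u0) ^ 3 + 3 * (1 + u0) ^ 2 * (k2 ^ 2 - u0))) :
    κ ^ 2 * (1 + κ ^ 2 / 6) ≤ μ * (1 + κ ^ 2) ^ 3 := by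
  obtain ⟨u, hu⟩ : ∃ u, u = κ ^ 2 := ⟨_, rfl⟩
  rw [← hu]
  have hu1 : k1 ^ 2 ≤ u := by rw [hu]; exact pow_le_pow_left₀ hk1 h1 2
  have hu2 : u ≤ k2 ^ 2 := by rw [hu]; exact pow_le_pow_left₀ (hk1.trans h1) h2 2
  have hu0' : 0 ≤ u := by rw [hu]; positivity
  have h12' : k1 ^ 2 < k2 ^ 2 := pow_lt_pow_left₀ h12 hk1 (by norm_num)
  have g2 : (1 + u0) ^ 3 + 3 * (1 + u0) ^ 2 * (u - u0) ≤ (1 + u) ^ 3 := by
    have e : (1 + u) ^ 3 - ((1 + u0) ^ 3 + 3 * (1 + u0) ^ 2 * (u - u0)) = (u - u0) ^ 2 * (u + 2 * u0 + 3) := by ring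
    have : 0 ≤ (u - u0) ^ 2 * (u + 2 * u0 + 3) := by positivity
    linarith
  have g3 := mul_le_mul_of_nonneg_left g2 hμ
  have g4 : (k2 ^ 2 - k1 ^ 2) * (u * (1 + u / 6)) ≤
      (k2 ^ 2 - k1 ^ 2) * (μ * ((1 + u0) ^ 3 + 3 * (1 + u0) ^ 2 * (u - u0))) := by
    have a1 := mul_le_mul_of_nonneg_left e1 (sub_nonneg.2 hu2)
    have a2 := mul_le_mul_of_nonneg_left e2 (sub_nonneg.2 hu1)
    have a3 : (k2 ^ 2 - k1 ^ 2) * (u ^ 2 / 6) ≤ (k2 ^ 2 - u) * (k1 ^ 4 / 6) + (u - k1 ^ 2) * (k2 ^ 4 / 6) := by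
      have e : (k2 ^ 2 - u) * (k1 ^ 4 / 6) + (u - k1 ^ 2) * (k2 ^ 4 / 6) - (k2 ^ 2 - k1 ^ 2) * (u ^ 2 / 6) =
          (u - k1 ^ 2) * (k2 ^ 2 - u) * ((k2 ^ 2 - k1 ^ 2) / 6) := by ring
      have : 0 ≤ (u - k1 ^ 2) * (k2 ^ 2 - u) * ((k2 ^ 2 - k1 ^ 2) / 6) :=
        mul_nonneg (mul_nonneg (sub_nonneg.2 hu1) (sub_nonneg.2 hu2)) (by linarith)
      linarith
    linarith only [a1, a2, a3]
  have g5 := le_of_mul_le_mul_left g4 (sub_pos.2 h12')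
  exact g5.trans g3

/-- `μ(1+κ²)³ ≤ κ²(1+κ²/6-5w/12)` on `[k1,k2]` -/
theorem mul_box {κ : ℝ} (u0 k1 k2 μ w : ℝ) (h1 : k1 ≤ κ) (h2 : κ ≤ k2) (hk1 : 0 ≤ k1) (h12 : k1 < k2)
    (hμ : 0 ≤ μ)
    (e1 : μ * (1 + k1 ^ 2) ^ 3 ≤ u0 * (1 - 5 * w / 12) + u0 ^ 2 / 6 + (1 - 5 * w / 12 + u0 / 3) * (k1 ^ 2 - u0))
    (e2 : μ * (1 + k2 ^ 2) ^ 3 ≤ u0 * (1 - 5 * w / 12) + u0 ^ 2 / 6 + (1 - 5 * w / 12 + u0 / 3) * (k2 ^ 2 - u0)) :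
    μ * (1 + κ ^ 2) ^ 3 ≤ κ ^ 2 * (1 + κ ^ 2 / 6 - 5 * w / 12) := by
  obtain ⟨u, hu⟩ : ∃ u, u = κ ^ 2 := ⟨_, rfl⟩
  rw [← hu]
  have hu1 : k1 ^ 2 ≤ u := by rw [hu]; exact pow_le_pow_left₀ hk1 h1 2
  have hu2 : u ≤ k2 ^ 2 := by rw [hu]; exact pow_le_pow_left₀ (hk1.trans h1) h2 2
  have h12' : k1 ^ 2 < k2 ^ 2 := pow_lt_pow_left₀ h12 hk1 (by norm_num)
  obtain ⟨a, ha⟩ : ∃ a, a = k1 ^ 2 := ⟨_, rfl⟩
  obtain ⟨b, hb⟩ : ∃ b, b = k2 ^ 2 := ⟨_, rfl⟩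
  rw [← ha] at hu1 h12' e1
  rw [← hb] at hu2 h12' e2
  have ha0 : 0 ≤ a := by rw [ha]; positivity
  have g2 : u0 * (1 - 5 * w / 12) + u0 ^ 2 / 6 + (1 - 5 * w / 12 + u0 / 3) * (u - u0) ≤
      u * (1 + u / 6 - 5 * w / 12) := by
    have e : u * (1 + u / 6 - 5 * w / 12) -
        (u0 * (1 - 5 * w / 12) + u0 ^ 2 / 6 + (1 - 5 * w / 12 + u0 / 3) * (u - u0)) = (u - u0) ^ 2 / 6 := by ring
    have : 0 ≤ (u - u0) ^ 2 / 6 := by positivity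
    linarith
  have g4 : (b - a) * (μ * (1 + u) ^ 3) ≤
      (b - a) * (u0 * (1 - 5 * w / 12) + u0 ^ 2 / 6 + (1 - 5 * w / 12 + u0 / 3) * (u - u0)) := by
    have a1 := mul_le_mul_of_nonneg_left e1 (sub_nonneg.2 hu2)
    have a2 := mul_le_mul_of_nonneg_left e2 (sub_nonneg.2 hu1)
    have a3 : (b - a) * (1 + u) ^ 3 ≤ (b - u) * (1 + a) ^ 3 + (u - a) * (1 + b) ^ 3 := by
      have e : (b - u) * (1 + a) ^ 3 + (u - a) * (1 + b) ^ 3 - (b - a) * (1 + u) ^ 3 =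
          (u - a) * (b - u) * ((b - a) * (a + b + u + 3)) := by ring
      have : 0 ≤ (u - a) * (b - u) * ((b - a) * (a + b + u + 3)) :=
        mul_nonneg (mul_nonneg (sub_nonneg.2 hu1) (sub_nonneg.2 hu2))
          (mul_nonneg (by linarith) (by linarith))
      linarith
    have a4 := mul_le_mul_of_nonneg_left a3 hμ
    linarith only [a1, a2, a4]
  have g5 := le_of_mul_le_mul_left g4 (sub_pos.2 h12')
  exact g5.trans g2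

/-! ### `D² = x² + (1+y)²` -/

/-- right, upper bound; `s = (t+κ)/(1+κ²)`, `κ ≤ 1` -/
theorem DR_le {κ t s : ℝ} (h : DomR κ t) (hs : s = (t + κ) / (1 + κ ^ 2)) (ht : 0 ≤ t + κ) (hk1 : κ ≤ 1) :
    sx κ t ^ 2 + (1 + sy κ t) ^ 2 ≤ 1 + κ ^ 2 + 2 * (κ * s) * (1 - κ ^ 2) + 2 * κ ^ 2 * (κ * s) ^ 2 := by
  have hk := h.1
  have hp := spR_le h ht (by nlinarith)
  rw [← hs] at hp
  have hp0 := sp_nonneg h ht
  have hy : sy κ t ≤ κ * s := by rw [sy_eq_sp h]; exact mul_le_mul_of_nonneg_left hp hk.le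
  have hy0 := sy_nonneg h ht
  rw [sD_eq' h]
  obtain ⟨y, hyy⟩ : ∃ y, y = sy κ t := ⟨_, rfl⟩
  rw [← hyy] at hy hy0 ⊢
  have h1 := r1_exp_le2 (z := -2 * y) (by linarith)
  have h2 := mul_le_mul_of_nonneg_left h1 (sq_nonneg κ)
  have hk2 : κ ^ 2 ≤ 1 := by nlinarith
  have h3 : y * (1 - κ ^ 2) ≤ κ * s * (1 - κ ^ 2) := mul_le_mul_of_nonneg_right hy (by linarith)
  have h4 : y ^ 2 ≤ (κ * s) ^ 2 := pow_le_pow_left₀ hy0 hy 2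
  have h5 := mul_le_mul_of_nonneg_left h4 (sq_nonneg κ)
  linarith only [h2, h3, h5]

/-- right, `κ ≥ 1` -/
theorem DR_le' {κ t s : ℝ} (h : DomR κ t) (hs : s = (t + κ) / (1 + κ ^ 2)) (ht : 0 ≤ t + κ) (hk1 : 1 ≤ κ)
    (hk3 : κ ^ 2 ≤ 3) :
    sx κ t ^ 2 + (1 + sy κ t) ^ 2 ≤ 1 + κ ^ 2 + 2 * κ ^ 2 * (κ * s) ^ 2 := by
  have hk := h.1
  have hp := spR_le h ht hk3
  rw [← hs] at hp
  have hy : sy κ t ≤ κ * s := by rw [sy_eq_sp h]; exact mul_le_mul_of_nonneg_left hp hk.le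
  have hy0 := sy_nonneg h ht
  rw [sD_eq' h]
  obtain ⟨y, hyy⟩ : ∃ y, y = sy κ t := ⟨_, rfl⟩
  rw [← hyy] at hy hy0 ⊢
  have h1 := r1_exp_le2 (z := -2 * y) (by linarith)
  have h2 := mul_le_mul_of_nonneg_left h1 (sq_nonneg κ)
  have hk2 : 1 ≤ κ ^ 2 := by nlinarith
  have h3 : 0 ≤ y * (κ ^ 2 - 1) := mul_nonneg hy0 (by linarith)
  have h4 : y ^ 2 ≤ (κ * s) ^ 2 := pow_le_pow_left₀ hy0 hy 2
  have h5 := mul_le_mul_of_nonneg_left h4 (sq_nonneg κ)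
  linarith only [h2, h3, h5]

/-- `κ ≤ 1`, `τ ≥ 0` -/
theorem DR_ge {κ t : ℝ} (h : DomR κ t) (ht : 0 ≤ t + κ) (hk1 : κ ≤ 1) :
    1 + κ ^ 2 ≤ sx κ t ^ 2 + (1 + sy κ t) ^ 2 := by
  have hk := h.1
  have hy0 := sy_nonneg h ht
  rw [sD_eq' h]
  have h1 := add_one_le_exp (-2 * sy κ t)
  have h2 := mul_le_mul_of_nonneg_left h1 (sq_nonneg κ)
  have hk2 : κ ^ 2 ≤ 1 := by nlinarith
  have h3 : 0 ≤ sy κ t * (1 - κ ^ 2) := mul_nonneg hy0 (by linarith)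
  linarith only [h2, h3]

/-- any `κ`, any side -/
theorem D_ge_log {κ t : ℝ} (h : DomR κ t) : 2 + 2 * log κ ≤ sx κ t ^ 2 + (1 + sy κ t) ^ 2 := by
  have hk := h.1
  rw [sD_eq' h]
  have h1 := add_one_le_exp (2 * log κ - 2 * sy κ t)
  have h2 : exp (2 * log κ - 2 * sy κ t) = κ ^ 2 * exp (-2 * sy κ t) := by
    have e : 2 * log κ - 2 * sy κ t = 2 * log κ + -2 * sy κ t := by ring
    rw [e, exp_add]
    congr 1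
    have e1 : exp (2 * log κ) = exp (log κ) ^ 2 := by rw [← exp_nat_mul]; congr 1
    rw [e1, exp_log hk]
  rw [h2] at h1
  linarith

/-- left, lower bound from `|p| ≤ P`, `κ ≤ 1` -/
theorem DL_ge {κ t P : ℝ} (h : DomR κ t) (ht : t + κ ≤ 0) (hk1 : κ ≤ 1) (hP : -P ≤ sp κ t) :
    1 + κ ^ 2 - 2 * (κ * P) * (1 - κ ^ 2) ≤ sx κ t ^ 2 + (1 + sy κ t) ^ 2 := by
  have hk := h.1
  have hy : -(κ * P) ≤ sy κ t := by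
    rw [sy_eq_sp h]
    have := mul_le_mul_of_nonneg_left hP hk.le
    linarith
  rw [sD_eq' h]
  have h1 := add_one_le_exp (-2 * sy κ t)
  have h2 := mul_le_mul_of_nonneg_left h1 (sq_nonneg κ)
  have hk2 : κ ^ 2 ≤ 1 := by nlinarith
  have h3 : -(κ * P) * (1 - κ ^ 2) ≤ sy κ t * (1 - κ ^ 2) := mul_le_mul_of_nonneg_right hy (by linarith)
  linarith only [h2, h3]

/-- left, lower bound with the quadratic term, `z0 ≤ -y ≤ κ P` -/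
theorem DL_ge2 {κ t P z0 : ℝ} (h : DomR κ t) (hk1 : κ ≤ 1) (hP : -P ≤ sp κ t) (hz : z0 ≤ -sy κ t) (hz0 : 0 ≤ z0) :
    1 + κ ^ 2 - 2 * (κ * P) * (1 - κ ^ 2) + 2 * κ ^ 2 * z0 ^ 2 ≤ sx κ t ^ 2 + (1 + sy κ t) ^ 2 := by
  have hk := h.1
  have hy : -(κ * P) ≤ sy κ t := by
    rw [sy_eq_sp h]
    have := mul_le_mul_of_nonneg_left hP hk.le
    linarith
  rw [sD_eq' h]
  have h1 := quadratic_le_exp_of_nonneg (x := -2 * sy κ t) (by linarith)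
  have h2 := mul_le_mul_of_nonneg_left h1 (sq_nonneg κ)
  have hk2 : κ ^ 2 ≤ 1 := by nlinarith
  have h3 : -(κ * P) * (1 - κ ^ 2) ≤ sy κ t * (1 - κ ^ 2) := mul_le_mul_of_nonneg_right hy (by linarith)
  have h4 : z0 ^ 2 ≤ (-sy κ t) ^ 2 := pow_le_pow_left₀ hz0 hz 2
  have h5 := mul_le_mul_of_nonneg_left h4 (sq_nonneg κ)
  linarith only [h2, h3, h5]

/-- left, `κ ≥ 1` -/
theorem DL_ge' {κ t : ℝ} (h : DomR κ t) (ht : t + κ ≤ 0) (hk1 : 1 ≤ κ) :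
    1 + κ ^ 2 ≤ sx κ t ^ 2 + (1 + sy κ t) ^ 2 := by
  have hk := h.1
  have hy := sy_nonpos h ht
  rw [sD_eq' h]
  have h1 := add_one_le_exp (-2 * sy κ t)
  have h2 := mul_le_mul_of_nonneg_left h1 (sq_nonneg κ)
  have hk2 : 1 ≤ κ ^ 2 := by nlinarith
  have h3 : 0 ≤ -sy κ t * (κ ^ 2 - 1) := mul_nonneg (by linarith) (by linarith)
  linarith only [h2, h3]

/-- upper bound from `|y| ≤ Y` on the left -/
theorem DL_le {κ t Y : ℝ} (h : DomR κ t) (hy0 : sy κ t ≤ 0) (hY : -Y ≤ sy κ t) :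
    sx κ t ^ 2 + (1 + sy κ t) ^ 2 ≤ max (1 + κ ^ 2) (κ ^ 2 * exp (2 * Y) + 1 - 2 * Y) := by
  -- convexity of `κ² e^{2Y} + 1 - 2Y`
  have hk := h.1
  rw [sD_eq' h]
  obtain ⟨z, hz⟩ : ∃ z, z = -sy κ t := ⟨_, rfl⟩
  have e1 : κ ^ 2 * exp (-2 * sy κ t) + 1 + 2 * sy κ t = κ ^ 2 * exp (2 * z) + 1 - 2 * z := by rw [hz]; ring_nf
  rw [e1]
  have hz0 : 0 ≤ z := by rw [hz]; linarith
  have hzY : z ≤ Y := by rw [hz]; linarith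
  rcases le_total (κ ^ 2 * exp (2 * z)) 1 with h1 | h1
  · -- below the minimum: compare with `z = 0`
    refine le_trans ?_ (le_max_left _ _)
    have h2 := add_one_le_exp (-(2 * z))
    have h3 : exp (2 * z) * exp (-(2 * z)) = 1 := by rw [← exp_add, add_neg_cancel, exp_zero]
    have h4 : κ ^ 2 * exp (2 * z) * (1 - 2 * z) ≤ κ ^ 2 := by
      have h5 := mul_le_mul_of_nonneg_left h2 (by positivity : 0 ≤ κ ^ 2 * exp (2 * z))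
      have h6 : κ ^ 2 * exp (2 * z) * exp (-(2 * z)) = κ ^ 2 := by rw [mul_assoc, h3, mul_one]
      rw [h6] at h5
      linarith
    nlinarith
  · refine le_trans ?_ (le_max_right _ _)
    have h2 := add_one_le_exp (2 * Y - 2 * z)
    have h3 : exp (2 * Y) = exp (2 * z) * exp (2 * Y - 2 * z) := by rw [← exp_add]; congr 1; ring
    have h4 := mul_le_mul_of_nonneg_left h2 (by positivity : 0 ≤ κ ^ 2 * exp (2 * z))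
    rw [h3]
    nlinarith

end Sok
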