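import Pool.Agent.Lib.MP_816dec_an.JBoxP
import Pool.Agent.Lib.MP_816dec_an.JNum3
import Pool.Agent.Lib.MP_816dec_an.R1Ineq4
import Pool.Agent.Lib.MP_816dec_an.R1Br

/-!
MP_816dec_an (A3, row R1, one fixed `b`): generic lemmas for the tables `‖HH - 1‖ ≤ ε` on the saddle curve.
-/

set_option autoImplicit false
set_option maxHeartbeats 4000000

open Complex Set

namespace Sok

/-! ### bounds of `sy` on a cell -/

private theorem quart {q q0 : ℝ} (hq : 0 ≤ q) (h0 : 0 ≤ q0) : 4 * q0 ^ 3 * q - 3 * q0 ^ 4 ≤ q ^ 4 := by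
  have e : q ^ 4 - (4 * q0 ^ 3 * q - 3 * q0 ^ 4) = (q - q0) ^ 2 * (q ^ 2 + 2 * q * q0 + 3 * q0 ^ 2) := by ring
  have : 0 ≤ (q - q0) ^ 2 * (q ^ 2 + 2 * q * q0 + 3 * q0 ^ 2) := mul_nonneg (sq_nonneg _) (by positivity)
  linarith

private theorem quad {q q0 : ℝ} : 2 * q0 * q - q0 ^ 2 ≤ q ^ 2 := by nlinarith [sq_nonneg (q - q0)]

private theorem aff {α s q q1 q2 : ℝ} (h1 : q1 ≤ q) (h2 : q ≤ q2) (hL1 : 0 ≤ α + s * q1) (hL2 : 0 ≤ α + s * q2) :
    0 ≤ α + s * q := by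
  rcases le_total 0 s with h | h
  · have := mul_le_mul_of_nonneg_left h1 h
    linarith
  · have := mul_le_mul_of_nonpos_left h2 h
    linarith

private theorem chord2 {q q1 q2 : ℝ} (h1 : q1 ≤ q) (h2 : q ≤ q2) : q ^ 2 ≤ (q1 + q2) * q - q1 * q2 := by
  nlinarith [mul_nonneg (sub_nonneg.2 h1) (sub_nonneg.2 h2)]

private theorem chord4 {q q1 q2 : ℝ} (h0 : 0 ≤ q1) (h1 : q1 ≤ q) (h2 : q ≤ q2) :
    q ^ 4 ≤ (q1 ^ 2 + q2 ^ 2) * ((q1 + q2) * q - q1 * q2) - q1 ^ 2 * q2 ^ 2 := by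
  have h3 := chord2 h1 h2
  have h4 : q1 ^ 2 ≤ q ^ 2 := pow_le_pow_left₀ h0 h1 2
  have h5 : q ^ 2 ≤ q2 ^ 2 := pow_le_pow_left₀ (h0.trans h1) h2 2
  have h6 := chord2 h4 h5
  have h7 := mul_le_mul_of_nonneg_left h3 (by positivity : 0 ≤ q1 ^ 2 + q2 ^ 2)
  have e : q ^ 4 = (q ^ 2) ^ 2 := by ring
  rw [e]
  linarith

/-- left side, lower bound `-Y ≤ y` on a cell -/
theorem syL_ge {κ t : ℝ} (h : DomR κ t) (k1 k2 T Y El Eu q0 q1 q2 : ℝ) (hk1 : k1 ≤ κ) (hk2 : κ ≤ k2) (hT : -T ≤ t + κ)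
    (hk10 : 0 < k1) (hY0 : 0 < Y) (hY1 : Y ≤ 0.83) (hEl : El ≤ Real.exp (-Y)) (hEu : Real.exp (-Y) ≤ Eu) (_hEl0 : 0 < El)
    (hq1 : q1 * k2 ≤ Y * El) (hq2 : Y * Eu ≤ q2 * k1) (hq28 : q2 ≤ 4 / 5) (hq0 : 0 ≤ q0)
    (hL1 : T * q1 ≤ (1 - Y / 2) * (2 * q0 * q1 - q0 ^ 2) + (1 / 6 - Y / 5) * (4 * q0 ^ 3 * q1 - 3 * q0 ^ 4) + Y * (1 - Eu))
    (hL2 : T * q2 ≤ (1 - Y / 2) * (2 * q0 * q2 - q0 ^ 2) + (1 / 6 - Y / 5) * (4 * q0 ^ 3 * q2 - 3 * q0 ^ 4) + Y * (1 - Eu)) :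
    -Y ≤ sy κ t := by
  have hk := h.1
  have he := Real.exp_pos (-Y)
  obtain ⟨q, hq⟩ : ∃ q, q = Y * Real.exp (-Y) / κ := ⟨_, rfl⟩
  have hqk : q * κ = Y * Real.exp (-Y) := by rw [hq]; field_simp
  have hqp : 0 < q := by rw [hq]; positivity
  have hqq1 : q1 ≤ q := by
    rw [hq, le_div_iff₀ hk]
    rcases le_total 0 q1 with h0 | h0
    · calc q1 * κ ≤ q1 * k2 := mul_le_mul_of_nonneg_left hk2 h0
        _ ≤ Y * El := hq1
        _ ≤ _ := mul_le_mul_of_nonneg_left hEl hY0.le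
    · exact (mul_nonpos_of_nonpos_of_nonneg h0 hk.le).trans (by positivity)
  have hqq2 : q ≤ q2 := by
    rw [hq, div_le_iff₀ hk]
    have h2 : 0 ≤ q2 := by
      by_contra hneg
      have h3 := mul_neg_of_neg_of_pos (not_le.1 hneg) hk10
      have : 0 < Y * Eu := mul_pos hY0 (he.trans_le hEu)
      linarith
    calc Y * Real.exp (-Y) ≤ Y * Eu := mul_le_mul_of_nonneg_left hEu hY0.le
      _ ≤ q2 * k1 := hq2
      _ ≤ _ := mul_le_mul_of_nonneg_left hk1 h2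
  have hL : T * q ≤ (1 - Y / 2) * (2 * q0 * q - q0 ^ 2) + (1 / 6 - Y / 5) * (4 * q0 ^ 3 * q - 3 * q0 ^ 4) + Y * (1 - Eu) := by
    have := aff (α := -(1 - Y / 2) * q0 ^ 2 - (1 / 6 - Y / 5) * (3 * q0 ^ 4) + Y * (1 - Eu))
      (s := (1 - Y / 2) * (2 * q0) + (1 / 6 - Y / 5) * (4 * q0 ^ 3) - T) hqq1 hqq2 (by linarith) (by linarith)
    linarith
  have h2 := mul_le_mul_of_nonneg_left (quad (q := q) (q0 := q0)) (by linarith : 0 ≤ 1 - Y / 2)
  have h4 := mul_le_mul_of_nonneg_left (quart hqp.le hq0) (by linarith : 0 ≤ 1 / 6 - Y / 5)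
  have hmain : T * q + Y * Real.exp (-Y) ≤ q ^ 2 + q ^ 4 / 6 + Y * (1 - q ^ 2 / 2 - q ^ 4 / 5) := by
    have := mul_le_mul_of_nonneg_left hEu hY0.le
    linarith
  have hq45 : q ≤ 4 / 5 := hqq2.trans hq28
  have hS := r1_sqrt_ge (q := q) (by rw [abs_of_pos hqp]; exact hq45)
  have hA := r1_arcsin_ge hqp.le (by linarith)
  have hp : -(Y / κ) ≤ sp κ t := by
    have e1 : κ * -(Y / κ) = -Y := by field_simp
    have e2 : -(Y / κ) * Real.exp (κ * -(Y / κ)) = -q := by rw [e1, hq]; ring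
    apply sp_ge_of h
    · rw [e1, abs_neg, abs_of_pos (by positivity)]
      have : Y / κ * Real.exp (-Y) = q := by rw [hq]; ring
      rw [this]; linarith
    · right; rw [e1]; linarith
    · rw [e2, e1, neg_neg, Real.arcsin_neg, neg_sq]
      have hx : κ * Real.exp Y * q = Y := by
        rw [hq]
        have : Real.exp Y * Real.exp (-Y) = 1 := by rw [← Real.exp_add]; simp
        calc κ * Real.exp Y * (Y * Real.exp (-Y) / κ) = Y * (Real.exp Y * Real.exp (-Y)) := by field_simp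
          _ = Y := by rw [this, mul_one]
      have h5 : (T + κ) * q ≤ (Real.arcsin q + κ * Real.exp Y * Real.sqrt (1 - q ^ 2)) * q := by
        have e3 : (Real.arcsin q + κ * Real.exp Y * Real.sqrt (1 - q ^ 2)) * q =
            Real.arcsin q * q + (κ * Real.exp Y * q) * Real.sqrt (1 - q ^ 2) := by ring
        rw [e3, hx]
        have h6 : (q + q ^ 3 / 6) * q ≤ Real.arcsin q * q := mul_le_mul_of_nonneg_right hA hqp.le
        have h7 := mul_le_mul_of_nonneg_left hS hY0.le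
        linarith
      have h6 := le_of_mul_le_mul_right h5 hqp
      linarith
  rw [sy_eq_sp h]
  have := mul_le_mul_of_nonneg_left hp hk.le
  have e1 : κ * -(Y / κ) = -Y := by field_simp
  linarith

/-- left side, upper bound `y ≤ -Y` on a cell -/
theorem syL_le {κ t : ℝ} (h : DomR κ t) (k1 k2 T Y El Eu q1 q2 : ℝ) (hk1 : k1 ≤ κ) (hk2 : κ ≤ k2) (hT : t + κ ≤ -T)
    (hk10 : 0 < k1) (hY0 : 0 < Y) (hY1 : Y ≤ 0.83) (hEl : El ≤ Real.exp (-Y)) (hEu : Real.exp (-Y) ≤ Eu) (_hEl0 : 0 < El)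
    (hq10 : 0 ≤ q1) (hq1 : q1 * k2 ≤ Y * El) (hq2 : Y * Eu ≤ q2 * k1) (hq28 : q2 ≤ 4 / 5)
    (hL1 : (1 - Y / 2) * q1 ^ 2 + (1 / 6 - Y / 8 + 0.17 * q2 ^ 2) * q1 ^ 4 + Y * (1 - El) ≤ T * q1)
    (hL2 : (1 - Y / 2) * q2 ^ 2 + (1 / 6 - Y / 8 + 0.17 * q2 ^ 2) * q2 ^ 4 + Y * (1 - El) ≤ T * q2) :
    sy κ t ≤ -Y := by
  have hk := h.1
  have he := Real.exp_pos (-Y)
  obtain ⟨q, hq⟩ : ∃ q, q = Y * Real.exp (-Y) / κ := ⟨_, rfl⟩
  have hqk : q * κ = Y * Real.exp (-Y) := by rw [hq]; field_simp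
  have hqp : 0 < q := by rw [hq]; positivity
  have hqq1 : q1 ≤ q := by
    rw [hq, le_div_iff₀ hk]
    calc q1 * κ ≤ q1 * k2 := mul_le_mul_of_nonneg_left hk2 hq10
        _ ≤ Y * El := hq1
        _ ≤ _ := mul_le_mul_of_nonneg_left hEl hY0.le
  have h20 : 0 ≤ q2 := by
    by_contra hneg
    have h3 := mul_neg_of_neg_of_pos (not_le.1 hneg) hk10
    have : 0 < Y * Eu := mul_pos hY0 (he.trans_le hEu)
    linarith
  have hqq2 : q ≤ q2 := by
    rw [hq, div_le_iff₀ hk]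
    calc Y * Real.exp (-Y) ≤ Y * Eu := mul_le_mul_of_nonneg_left hEu hY0.le
      _ ≤ q2 * k1 := hq2
      _ ≤ _ := mul_le_mul_of_nonneg_left hk1 h20
  have hq45 : q ≤ 4 / 5 := hqq2.trans hq28
  obtain ⟨c, hc⟩ : ∃ c, c = 1 / 6 - Y / 8 + 0.17 * q2 ^ 2 := ⟨_, rfl⟩
  have hc0 : 0 ≤ c := by rw [hc]; nlinarith [sq_nonneg q2]
  rw [← hc] at hL1 hL2
  have h2 := mul_le_mul_of_nonneg_left (chord2 hqq1 hqq2) (by linarith : 0 ≤ 1 - Y / 2)
  have h4 := mul_le_mul_of_nonneg_left (chord4 hq10 hqq1 hqq2) hc0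
  have hL : (1 - Y / 2) * q ^ 2 + c * q ^ 4 + Y * (1 - El) ≤ T * q := by
    have := aff (α := (1 - Y / 2) * (q1 * q2) + c * ((q1 ^ 2 + q2 ^ 2) * (q1 * q2) + q1 ^ 2 * q2 ^ 2) - Y * (1 - El))
      (s := T - (1 - Y / 2) * (q1 + q2) - c * ((q1 ^ 2 + q2 ^ 2) * (q1 + q2))) hqq1 hqq2 (by nlinarith) (by nlinarith)
    linarith
  have h6 : q ^ 6 ≤ q2 ^ 2 * q ^ 4 := by
    have : q ^ 2 ≤ q2 ^ 2 := pow_le_pow_left₀ hqp.le hqq2 2
    have e : q ^ 6 = q ^ 2 * q ^ 4 := by ring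
    rw [e]
    exact mul_le_mul_of_nonneg_right this (by positivity)
  have hmain : q ^ 2 + q ^ 4 / 6 + 0.17 * q ^ 6 + Y * (1 - q ^ 2 / 2 - q ^ 4 / 8) ≤ T * q + Y * Real.exp (-Y) := by
    have := mul_le_mul_of_nonneg_left hEl hY0.le
    rw [hc] at hL
    linarith
  have hS := r1_sqrt_le (q := q) (by rw [abs_of_pos hqp]; linarith)
  have hA := r1_arcsin_le hqp.le hq45
  have hp : sp κ t ≤ -(Y / κ) := by
    have e1 : κ * -(Y / κ) = -Y := by field_simp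
    have e2 : -(Y / κ) * Real.exp (κ * -(Y / κ)) = -q := by rw [e1, hq]; ring
    apply sp_le_of h
    · rw [e1, abs_neg, abs_of_pos (by positivity)]
      have : Y / κ * Real.exp (-Y) = q := by rw [hq]; ring
      rw [this]; linarith
    · right; rw [e1]; linarith
    · rw [e2, e1, neg_neg, Real.arcsin_neg, neg_sq]
      have hx : κ * Real.exp Y * q = Y := by
        rw [hq]
        have : Real.exp Y * Real.exp (-Y) = 1 := by rw [← Real.exp_add]; simp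
        calc κ * Real.exp Y * (Y * Real.exp (-Y) / κ) = Y * (Real.exp Y * Real.exp (-Y)) := by field_simp
          _ = Y := by rw [this, mul_one]
      have h5 : (Real.arcsin q + κ * Real.exp Y * Real.sqrt (1 - q ^ 2)) * q ≤ (T + κ) * q := by
        have e3 : (Real.arcsin q + κ * Real.exp Y * Real.sqrt (1 - q ^ 2)) * q =
            Real.arcsin q * q + (κ * Real.exp Y * q) * Real.sqrt (1 - q ^ 2) := by ring
        rw [e3, hx]
        have h6 : Real.arcsin q * q ≤ (q + q ^ 3 / 6 + 0.17 * q ^ 5) * q := mul_le_mul_of_nonneg_right hA hqp.le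
        have h7 := mul_le_mul_of_nonneg_left hS hY0.le
        linarith
      have h6 := le_of_mul_le_mul_right h5 hqp
      linarith
  rw [sy_eq_sp h]
  have := mul_le_mul_of_nonneg_left hp hk.le
  have e1 : κ * -(Y / κ) = -Y := by field_simp
  linarith

/-- right side, upper bound `y ≤ Y` on a cell -/
theorem syR_le {κ t : ℝ} (h : DomR κ t) (k1 k2 T Y El q0 q1 q2 : ℝ) (hk1 : k1 ≤ κ) (hk2 : κ ≤ k2) (hT : t + κ ≤ T)
    (hk10 : 0 < k1) (hY0 : 0 < Y) (hEl : El ≤ Real.exp Y) (_hEl0 : 0 < El)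
    (hq1 : q1 * k2 ≤ Y * El) (hq2 : 1 ≤ q2 ∨ Y * Real.exp Y ≤ q2 * k1) (hq0 : 0 ≤ q0)
    (hL1 : T * q1 ≤ (1 + Y / 2) * (2 * q0 * q1 - q0 ^ 2) + (1 / 6 + Y / 8) * (4 * q0 ^ 3 * q1 - 3 * q0 ^ 4) + Y * (El - 1))
    (hL2 : T * q2 ≤ (1 + Y / 2) * (2 * q0 * q2 - q0 ^ 2) + (1 / 6 + Y / 8) * (4 * q0 ^ 3 * q2 - 3 * q0 ^ 4) + Y * (El - 1)) :
    sy κ t ≤ Y := by
  have hk := h.1
  have he := Real.exp_pos Y
  by_contra hcon
  push Not at hcon
  obtain ⟨q, hq⟩ : ∃ q, q = Y * Real.exp Y / κ := ⟨_, rfl⟩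
  have hqp : 0 < q := by rw [hq]; positivity
  -- `q < 1`
  have hq1' : q < 1 := by
    rw [hq, div_lt_one hk]
    obtain ⟨hI, _⟩ := sy_spec h
    refine lt_of_lt_of_le ?_ hI.1.le
    have h1 : |sy κ t| = sy κ t := abs_of_pos (hY0.trans hcon)
    rw [h1]
    exact mul_lt_mul'' hcon (Real.exp_lt_exp.2 hcon) hY0.le he.le
  have hqq1 : q1 ≤ q := by
    rw [hq, le_div_iff₀ hk]
    rcases le_total 0 q1 with h0 | h0
    · calc q1 * κ ≤ q1 * k2 := mul_le_mul_of_nonneg_left hk2 h0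
        _ ≤ Y * El := hq1
        _ ≤ _ := mul_le_mul_of_nonneg_left hEl hY0.le
    · exact (mul_nonpos_of_nonpos_of_nonneg h0 hk.le).trans (by positivity)
  have hqq2 : q ≤ q2 := by
    rcases hq2 with h1 | h1
    · linarith
    · rw [hq, div_le_iff₀ hk]
      have h2 : 0 ≤ q2 := by
        by_contra hneg
        have h3 := mul_neg_of_neg_of_pos (not_le.1 hneg) hk10
        have : 0 < Y * Real.exp Y := by positivity
        linarith
      exact h1.trans (mul_le_mul_of_nonneg_left hk1 h2)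
  have hL : T * q ≤ (1 + Y / 2) * (2 * q0 * q - q0 ^ 2) + (1 / 6 + Y / 8) * (4 * q0 ^ 3 * q - 3 * q0 ^ 4) + Y * (El - 1) := by
    have := aff (α := -(1 + Y / 2) * q0 ^ 2 - (1 / 6 + Y / 8) * (3 * q0 ^ 4) + Y * (El - 1))
      (s := (1 + Y / 2) * (2 * q0) + (1 / 6 + Y / 8) * (4 * q0 ^ 3) - T) hqq1 hqq2 (by linarith) (by linarith)
    linarith
  have h2 := mul_le_mul_of_nonneg_left (quad (q := q) (q0 := q0)) (by linarith : 0 ≤ 1 + Y / 2)
  have h4 := mul_le_mul_of_nonneg_left (quart hqp.le hq0) (by linarith : 0 ≤ 1 / 6 + Y / 8)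
  have hmain : T * q + Y * (1 - q ^ 2 / 2 - q ^ 4 / 8) ≤ q ^ 2 + q ^ 4 / 6 + Y * Real.exp Y := by
    have := mul_le_mul_of_nonneg_left hEl hY0.le
    linarith
  have hS := r1_sqrt_le (q := q) (by rw [abs_of_pos hqp]; exact hq1'.le)
  have hA := r1_arcsin_ge hqp.le hq1'.le
  have hp : sp κ t ≤ Y / κ := by
    have e1 : κ * (Y / κ) = Y := by field_simp
    have e2 : Y / κ * Real.exp (κ * (Y / κ)) = q := by rw [e1, hq]; ring
    apply sp_le_of h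
    · rw [abs_of_pos (by positivity), e2]; exact hq1'
    · right; rw [e1]; linarith
    · rw [e2, e1]
      have hx : κ * Real.exp (-Y) * q = Y := by
        rw [hq]
        have : Real.exp (-Y) * Real.exp Y = 1 := by rw [← Real.exp_add]; simp
        calc κ * Real.exp (-Y) * (Y * Real.exp Y / κ) = Y * (Real.exp (-Y) * Real.exp Y) := by field_simp
          _ = Y := by rw [this, mul_one]
      have hk3 : κ * q = Y * Real.exp Y := by rw [hq]; field_simp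
      have h5 : (T - κ) * q ≤ (Real.arcsin q - κ * Real.exp (-Y) * Real.sqrt (1 - q ^ 2)) * q := by
        have e3 : (Real.arcsin q - κ * Real.exp (-Y) * Real.sqrt (1 - q ^ 2)) * q =
            Real.arcsin q * q - (κ * Real.exp (-Y) * q) * Real.sqrt (1 - q ^ 2) := by ring
        rw [e3, hx]
        have h6 : (q + q ^ 3 / 6) * q ≤ Real.arcsin q * q := mul_le_mul_of_nonneg_right hA hqp.le
        have h7 := mul_le_mul_of_nonneg_left hS hY0.le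
        linarith
      have h6 := le_of_mul_le_mul_right h5 hqp
      linarith
  rw [sy_eq_sp h] at hcon
  have := mul_le_mul_of_nonneg_left hp hk.le
  have e1 : κ * (Y / κ) = Y := by field_simp
  linarith

/-- right side, lower bound `Y ≤ y` on a cell -/
theorem syR_ge {κ t : ℝ} (h : DomR κ t) (k1 k2 T Y El Eu q1 q2 : ℝ) (hk1 : k1 ≤ κ) (hk2 : κ ≤ k2) (hT : T ≤ t + κ)
    (hk10 : 0 < k1) (hY0 : 0 < Y) (hEl : El ≤ Real.exp Y) (hEu : Real.exp Y ≤ Eu) (_hEl0 : 0 < El)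
    (hq10 : 0 ≤ q1) (hq1 : q1 * k2 ≤ Y * El) (hq2 : Y * Eu ≤ q2 * k1) (hq28 : q2 ≤ 4 / 5)
    (hL1 : (1 + Y / 2) * q1 ^ 2 + (1 / 6 + Y / 5 + 0.17 * q2 ^ 2) * q1 ^ 4 + Y * (Eu - 1) ≤ T * q1)
    (hL2 : (1 + Y / 2) * q2 ^ 2 + (1 / 6 + Y / 5 + 0.17 * q2 ^ 2) * q2 ^ 4 + Y * (Eu - 1) ≤ T * q2) :
    Y ≤ sy κ t := by
  have hk := h.1
  have he := Real.exp_pos Y
  obtain ⟨q, hq⟩ : ∃ q, q = Y * Real.exp Y / κ := ⟨_, rfl⟩
  have hqp : 0 < q := by rw [hq]; positivity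
  have hqq1 : q1 ≤ q := by
    rw [hq, le_div_iff₀ hk]
    calc q1 * κ ≤ q1 * k2 := mul_le_mul_of_nonneg_left hk2 hq10
        _ ≤ Y * El := hq1
        _ ≤ _ := mul_le_mul_of_nonneg_left hEl hY0.le
  have h20 : 0 ≤ q2 := by
    by_contra hneg
    have h3 := mul_neg_of_neg_of_pos (not_le.1 hneg) hk10
    have : 0 < Y * Eu := mul_pos hY0 (he.trans_le hEu)
    linarith
  have hqq2 : q ≤ q2 := by
    rw [hq, div_le_iff₀ hk]
    calc Y * Real.exp Y ≤ Y * Eu := mul_le_mul_of_nonneg_left hEu hY0.le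
      _ ≤ q2 * k1 := hq2
      _ ≤ _ := mul_le_mul_of_nonneg_left hk1 h20
  have hq45 : q ≤ 4 / 5 := hqq2.trans hq28
  obtain ⟨c, hc⟩ : ∃ c, c = 1 / 6 + Y / 5 + 0.17 * q2 ^ 2 := ⟨_, rfl⟩
  have hc0 : 0 ≤ c := by rw [hc]; positivity
  rw [← hc] at hL1 hL2
  have h2 := mul_le_mul_of_nonneg_left (chord2 hqq1 hqq2) (by linarith : 0 ≤ 1 + Y / 2)
  have h4 := mul_le_mul_of_nonneg_left (chord4 hq10 hqq1 hqq2) hc0
  have hL : (1 + Y / 2) * q ^ 2 + c * q ^ 4 + Y * (Eu - 1) ≤ T * q := by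
    have := aff (α := (1 + Y / 2) * (q1 * q2) + c * ((q1 ^ 2 + q2 ^ 2) * (q1 * q2) + q1 ^ 2 * q2 ^ 2) - Y * (Eu - 1))
      (s := T - (1 + Y / 2) * (q1 + q2) - c * ((q1 ^ 2 + q2 ^ 2) * (q1 + q2))) hqq1 hqq2 (by nlinarith) (by nlinarith)
    linarith
  have h6 : q ^ 6 ≤ q2 ^ 2 * q ^ 4 := by
    have : q ^ 2 ≤ q2 ^ 2 := pow_le_pow_left₀ hqp.le hqq2 2
    have e : q ^ 6 = q ^ 2 * q ^ 4 := by ring
    rw [e]
    exact mul_le_mul_of_nonneg_right this (by positivity)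
  have hmain : q ^ 2 + q ^ 4 / 6 + 0.17 * q ^ 6 + Y * Real.exp Y ≤ T * q + Y * (1 - q ^ 2 / 2 - q ^ 4 / 5) := by
    have := mul_le_mul_of_nonneg_left hEu hY0.le
    rw [hc] at hL
    linarith
  have hS := r1_sqrt_ge (q := q) (by rw [abs_of_pos hqp]; exact hq45)
  have hA := r1_arcsin_le hqp.le hq45
  have hp : Y / κ ≤ sp κ t := by
    have e1 : κ * (Y / κ) = Y := by field_simp
    have e2 : Y / κ * Real.exp (κ * (Y / κ)) = q := by rw [e1, hq]; ring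
    apply sp_ge_of h
    · rw [abs_of_pos (by positivity), e2]; linarith
    · right; rw [e1]; linarith
    · rw [e2, e1]
      have hx : κ * Real.exp (-Y) * q = Y := by
        rw [hq]
        have : Real.exp (-Y) * Real.exp Y = 1 := by rw [← Real.exp_add]; simp
        calc κ * Real.exp (-Y) * (Y * Real.exp Y / κ) = Y * (Real.exp (-Y) * Real.exp Y) := by field_simp
          _ = Y := by rw [this, mul_one]
      have hk3 : κ * q = Y * Real.exp Y := by rw [hq]; field_simp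
      have h5 : (Real.arcsin q - κ * Real.exp (-Y) * Real.sqrt (1 - q ^ 2)) * q ≤ (T - κ) * q := by
        have e3 : (Real.arcsin q - κ * Real.exp (-Y) * Real.sqrt (1 - q ^ 2)) * q =
            Real.arcsin q * q - (κ * Real.exp (-Y) * q) * Real.sqrt (1 - q ^ 2) := by ring
        rw [e3, hx]
        have h6 : Real.arcsin q * q ≤ (q + q ^ 3 / 6 + 0.17 * q ^ 5) * q := mul_le_mul_of_nonneg_right hA hqp.le
        have h7 := mul_le_mul_of_nonneg_left hS hY0.le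
        linarith
      have h6 := le_of_mul_le_mul_right h5 hqp
      linarith
  rw [sy_eq_sp h]
  have := mul_le_mul_of_nonneg_left hp hk.le
  have e1 : κ * (Y / κ) = Y := by field_simp
  linarith

/-! ### `x` bounds and `β N0 ≤ 1` -/

theorem sx_lo {κ t : ℝ} (h : DomR κ t) (k1 yb s E x1 : ℝ) (hk1 : k1 ≤ κ) (hk10 : 0 ≤ k1) (hyb : sy κ t ≤ yb)
    (hys : |sy κ t| ≤ s) (hE : E ≤ Real.exp (-yb)) (hE0 : 0 ≤ E) (hx1 : x1 ^ 2 + s ^ 2 ≤ (k1 * E) ^ 2) : x1 ≤ sx κ t := by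
  have hk := h.1
  have hx := sx_pos h
  have h1 := s_sq h
  have h2 : Real.exp (-2 * sy κ t) = Real.exp (-sy κ t) ^ 2 := by rw [← Real.exp_nat_mul]; congr 1; push_cast; ring
  have h3 : E ≤ Real.exp (-sy κ t) := hE.trans (Real.exp_le_exp.2 (by linarith))
  have h4 : k1 * E ≤ κ * Real.exp (-sy κ t) := mul_le_mul hk1 h3 hE0 hk.le
  have h5 : (k1 * E) ^ 2 ≤ (κ * Real.exp (-sy κ t)) ^ 2 := pow_le_pow_left₀ (by positivity) h4 2
  have h6 : sy κ t ^ 2 ≤ s ^ 2 := by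
    rw [← sq_abs]; exact pow_le_pow_left₀ (abs_nonneg _) hys 2
  rw [h2] at h1
  by_contra hcon
  push Not at hcon
  have h7 : sx κ t ^ 2 < x1 ^ 2 := by nlinarith
  nlinarith

theorem sx_hi {κ t : ℝ} (h : DomR κ t) (k2 ya s E x2 : ℝ) (hk2 : κ ≤ k2) (hya : ya ≤ sy κ t)
    (hs0 : 0 ≤ s) (hys : s ≤ |sy κ t|) (hE : Real.exp (-ya) ≤ E) (hx20 : 0 ≤ x2) (hx2 : (k2 * E) ^ 2 ≤ x2 ^ 2 + s ^ 2) :
    sx κ t ≤ x2 := by
  have hk := h.1
  have hx := sx_pos h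
  have h1 := s_sq h
  have h2 : Real.exp (-2 * sy κ t) = Real.exp (-sy κ t) ^ 2 := by rw [← Real.exp_nat_mul]; congr 1; push_cast; ring
  have h3 : Real.exp (-sy κ t) ≤ E := (Real.exp_le_exp.2 (by linarith)).trans hE
  have h4 : κ * Real.exp (-sy κ t) ≤ k2 * E := mul_le_mul hk2 h3 (Real.exp_pos _).le (hk.le.trans hk2)
  have h5 : (κ * Real.exp (-sy κ t)) ^ 2 ≤ (k2 * E) ^ 2 := pow_le_pow_left₀ (by positivity) h4 2
  have h6 : s ^ 2 ≤ sy κ t ^ 2 := by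
    rw [← sq_abs (sy κ t)]; exact pow_le_pow_left₀ hs0 hys 2
  rw [h2] at h1
  apply le_of_sq_le_sq _ hx20
  nlinarith

theorem bNR {β κ k2 R0 N0 : ℝ} (hβ : 0 < β) (hκ : 0 < κ) (hk2 : κ ≤ k2) (hR : β * R0 ≤ κ) (hN : N0 * k2 ≤ R0) :
    β * N0 ≤ 1 := by
  have hk : 0 < k2 := hκ.trans_le hk2
  have h1 : β * N0 * k2 ≤ k2 := by
    calc β * N0 * k2 = β * (N0 * k2) := by ring
      _ ≤ β * R0 := mul_le_mul_of_nonneg_left hN hβ.le
      _ ≤ κ := hR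
      _ ≤ k2 := hk2
  have h2 : (β * N0) * k2 ≤ 1 * k2 := by linarith
  exact le_of_mul_le_mul_right h2 hk

theorem bNC {β κ k2 c N0 : ℝ} (hβ : 0 < β) (hκ : 0 < κ) (hk2 : κ ≤ k2) (hk1 : k2 ≤ 1) (hc : 0 ≤ c)
    (hR : β * (c * (1 + κ ^ 2)) ≤ κ) (hN : N0 * k2 ≤ c * (1 + k2 ^ 2)) : β * N0 ≤ 1 := by
  have hk : 0 < k2 := hκ.trans_le hk2
  have h1 : κ * (1 + k2 ^ 2) ≤ k2 * (1 + κ ^ 2) := by
    have : 0 ≤ (k2 - κ) * (1 - κ * k2) := mul_nonneg (by linarith) (by nlinarith)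
    nlinarith
  have h2 : N0 * κ * k2 ≤ c * (1 + κ ^ 2) * k2 := by
    calc N0 * κ * k2 = (N0 * k2) * κ := by ring
      _ ≤ (c * (1 + k2 ^ 2)) * κ := mul_le_mul_of_nonneg_right hN hκ.le
      _ = c * (κ * (1 + k2 ^ 2)) := by ring
      _ ≤ c * (k2 * (1 + κ ^ 2)) := mul_le_mul_of_nonneg_left h1 hc
      _ = _ := by ring
  have h3 : N0 * κ ≤ c * (1 + κ ^ 2) := le_of_mul_le_mul_right h2 hk
  have h4 : (β * N0) * κ ≤ 1 * κ := by
    have := mul_le_mul_of_nonneg_left h3 hβ.le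
    linarith
  exact le_of_mul_le_mul_right h4 hκ

theorem bNC' {β κ k1 c N0 : ℝ} (hβ : 0 < β) (hk1 : k1 ≤ κ) (hk11 : 1 ≤ k1) (hc : 0 ≤ c)
    (hR : β * (c * (1 + κ ^ 2)) ≤ κ) (hN : N0 * k1 ≤ c * (1 + k1 ^ 2)) : β * N0 ≤ 1 := by
  have hκ : 0 < κ := by linarith
  have hk : 0 < k1 := by linarith
  have h1 : κ * (1 + k1 ^ 2) ≤ k1 * (1 + κ ^ 2) := by
    have : 0 ≤ (κ - k1) * (κ * k1 - 1) := mul_nonneg (by linarith) (by nlinarith)
    nlinarith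
  have h2 : N0 * κ * k1 ≤ c * (1 + κ ^ 2) * k1 := by
    calc N0 * κ * k1 = (N0 * k1) * κ := by ring
      _ ≤ (c * (1 + k1 ^ 2)) * κ := mul_le_mul_of_nonneg_right hN hκ.le
      _ = c * (κ * (1 + k1 ^ 2)) := by ring
      _ ≤ c * (k1 * (1 + κ ^ 2)) := mul_le_mul_of_nonneg_left h1 hc
      _ = _ := by ring
  have h3 : N0 * κ ≤ c * (1 + κ ^ 2) := le_of_mul_le_mul_right h2 hk
  have h4 : (β * N0) * κ ≤ 1 * κ := by
    have := mul_le_mul_of_nonneg_left h3 hβ.le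
    linarith
  exact le_of_mul_le_mul_right h4 hκ

theorem bN2 {β κ c N0 : ℝ} (hβ : 0 < β) (hκ : 0 < κ) (hc : 0 ≤ c)
    (hR : β * (c * (1 + κ ^ 2)) ≤ κ) (hN : N0 ≤ 2 * c) : β * N0 ≤ 1 := by
  have h3 : N0 * κ ≤ c * (1 + κ ^ 2) := by
    calc N0 * κ ≤ (2 * c) * κ := mul_le_mul_of_nonneg_right hN hκ.le
      _ = c * (2 * κ) := by ring
      _ ≤ c * (1 + κ ^ 2) := mul_le_mul_of_nonneg_left (by nlinarith [sq_nonneg (κ - 1)]) hc
  have h4 : (β * N0) * κ ≤ 1 * κ := by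
    have := mul_le_mul_of_nonneg_left h3 hβ.le
    linarith
  exact le_of_mul_le_mul_right h4 hκ

theorem le_epsJ {H C β N0 ε : ℝ} (h : H ≤ C * β) (hC : C ≤ ε * N0) (hN : β * N0 ≤ 1) (hβ : 0 ≤ β) (hε : 0 ≤ ε) : H ≤ ε := by
  have h1 : C * β ≤ ε * N0 * β := mul_le_mul_of_nonneg_right hC hβ
  have h2 : ε * (β * N0) ≤ ε * 1 := mul_le_mul_of_nonneg_left hN hε
  linarith

theorem norm_sg {κ t : ℝ} (h : DomR κ t) : ‖((sx κ t : ℂ) + (sy κ t : ℂ) * I)‖ = κ * Real.exp (-sy κ t) := by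
  have h1 := s_norm h
  rw [← h1]
  rw [show ((sx κ t : ℂ) + (sy κ t : ℂ) * I) = ⟨sx κ t, sy κ t⟩ from by apply Complex.ext <;> simp]
  rw [Complex.norm_def, Complex.normSq_mk]
  congr 1
  ring

theorem norm_sg_le {κ t : ℝ} (h : DomR κ t) (k2 ya E n0 : ℝ) (hk2 : κ ≤ k2) (hya : ya ≤ sy κ t) (hE : Real.exp (-ya) ≤ E)
    (hn : k2 * E ≤ n0) : ‖((sx κ t : ℂ) + (sy κ t : ℂ) * I)‖ ≤ n0 := by
  rw [norm_sg h]
  refine le_trans ?_ hn
  have h3 : Real.exp (-sy κ t) ≤ E := (Real.exp_le_exp.2 (by linarith)).trans hE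
  exact mul_le_mul hk2 h3 (Real.exp_pos _).le (h.1.le.trans hk2)

/-- numerical bounds of `exp` -/
theorem expn_le {x E : ℝ} (h0 : 0 ≤ x) (h1 : x ≤ 1)
    (h : 1 + x + x ^ 2 / 2 + x ^ 3 / 6 + x ^ 4 / 24 + x ^ 5 / 120 + x ^ 6 / 720 + x ^ 7 / 5040 + x ^ 8 * (1 / 40320) * (9 / 8) ≤ E) :
    Real.exp x ≤ E := by
  refine le_trans ?_ h
  have h2 := Real.exp_bound' h0 h1 (n := 8) (by norm_num)
  simp only [Finset.sum_range_succ, Finset.sum_range_zero, Nat.factorial] at h2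
  norm_num at h2
  linarith

theorem expn_ge {x E : ℝ} (h0 : 0 ≤ x)
    (h : E ≤ 1 + x + x ^ 2 / 2 + x ^ 3 / 6 + x ^ 4 / 24 + x ^ 5 / 120 + x ^ 6 / 720) : E ≤ Real.exp x := by
  refine h.trans ?_
  have h2 := Real.sum_le_exp_of_nonneg h0 7
  simp only [Finset.sum_range_succ, Finset.sum_range_zero, Nat.factorial] at h2
  norm_num at h2
  linarith

theorem expm_le {x E : ℝ} (h0 : 0 ≤ x) (hE : 0 < E)
    (h : 1 ≤ E * (1 + x + x ^ 2 / 2 + x ^ 3 / 6 + x ^ 4 / 24 + x ^ 5 / 120 + x ^ 6 / 720)) : Real.exp (-x) ≤ E := by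
  rw [Real.exp_neg, inv_le_comm₀ (Real.exp_pos _) hE]
  apply expn_ge h0
  rw [inv_le_iff_one_le_mul₀ hE]
  linarith

theorem expm_ge {x E : ℝ} (h0 : 0 ≤ x) (h1 : x ≤ 1) (hE : 0 < E)
    (h : E * (1 + x + x ^ 2 / 2 + x ^ 3 / 6 + x ^ 4 / 24 + x ^ 5 / 120 + x ^ 6 / 720 + x ^ 7 / 5040 +
      x ^ 8 * (1 / 40320) * (9 / 8)) ≤ 1) : E ≤ Real.exp (-x) := by
  rw [Real.exp_neg, le_inv_comm₀ hE (Real.exp_pos _)]
  apply expn_le h0 h1
  rw [le_inv_comm₀ _ hE] <;> first | positivity | skip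
  rw [inv_eq_one_div, div_eq_mul_inv, one_mul]
  rw [← one_div, le_div_iff₀ (by positivity)]
  exact h

/-! ### further certificates -/

theorem r1_sqrt_ge9 {q : ℝ} (hq : |q| ≤ 9 / 10) : 1 - q ^ 2 / 2 - q ^ 4 / 4 ≤ Real.sqrt (1 - q ^ 2) := by
  apply Real.le_sqrt_of_sq_le
  have hq2 : q ^ 2 ≤ 81 / 100 := by rw [← sq_abs]; nlinarith [abs_nonneg q]
  have h0 : 0 ≤ q ^ 2 := sq_nonneg q
  have e : 1 - q ^ 2 - (1 - q ^ 2 / 2 - q ^ 4 / 4) ^ 2 =
      (q ^ 2) ^ 2 * (1 / 4 - q ^ 2 / 4 - (q ^ 2) ^ 2 / 16) := by ring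
  have h1 : 0 ≤ 1 / 4 - q ^ 2 / 4 - (q ^ 2) ^ 2 / 16 := by nlinarith
  nlinarith [mul_nonneg (sq_nonneg (q ^ 2)) h1]

theorem r1_arcsin_ge5 {q : ℝ} (h0 : 0 ≤ q) (h1 : q ≤ 1) : q + q ^ 3 / 6 + 3 * q ^ 5 / 40 ≤ Real.arcsin q := by
  have hd : ∀ y : ℝ, 0 ≤ y → y < 1 → HasDerivAt (fun q : ℝ => Real.arcsin q - (q + q ^ 3 / 6 + 3 * q ^ 5 / 40))
      (1 / Real.sqrt (1 - y ^ 2) - (1 + y ^ 2 / 2 + 3 * y ^ 4 / 8)) y := by
    intro y hy0 hy1
    refine ((Real.hasDerivAt_arcsin (by linarith) (by linarith)).fun_sub (((hasDerivAt_id' y).fun_add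
      ((hasDerivAt_pow 3 y).div_const 6)).fun_add (((hasDerivAt_pow 5 y).const_mul 3).div_const 40))).congr_deriv ?_
    push_cast
    ring
  have h : MonotoneOn (fun q : ℝ => Real.arcsin q - (q + q ^ 3 / 6 + 3 * q ^ 5 / 40)) (Icc 0 1) := by
    apply monotoneOn_of_deriv_nonneg (convex_Icc 0 1)
    · exact (Real.continuous_arcsin.sub (by fun_prop)).continuousOn
    · intro y hy
      rw [interior_Icc] at hy
      exact (hd y hy.1.le hy.2).differentiableAt.differentiableWithinAt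
    · intro y hy
      rw [interior_Icc] at hy
      rw [(hd y hy.1.le hy.2).deriv]
      have hy2 : y ^ 2 < 1 := by nlinarith [hy.1, hy.2]
      have hs : 0 < Real.sqrt (1 - y ^ 2) := Real.sqrt_pos.2 (by linarith)
      have h3 := r1_sqrt_le (q := y) (by rw [abs_of_pos hy.1]; exact hy.2.le)
      have h4 : 1 + y ^ 2 / 2 + 3 * y ^ 4 / 8 ≤ 1 / Real.sqrt (1 - y ^ 2) := by
        rw [le_div_iff₀ hs]
        have h5 := mul_le_mul_of_nonneg_left h3 (by positivity : 0 ≤ 1 + y ^ 2 / 2 + 3 * y ^ 4 / 8)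
        refine h5.trans ?_
        have e : (1 + y ^ 2 / 2 + 3 * y ^ 4 / 8) * (1 - y ^ 2 / 2 - y ^ 4 / 8) =
            1 - ((y ^ 3) ^ 2 / 4 + 3 * (y ^ 4) ^ 2 / 64) := by ring
        rw [e]
        have := sq_nonneg (y ^ 3)
        have := sq_nonneg (y ^ 4)
        linarith
      linarith
  have := h (left_mem_Icc.2 (by norm_num)) (mem_Icc.2 ⟨h0, h1⟩) h0
  simp at this
  linarith

private theorem six {q q0 : ℝ} (hq : 0 ≤ q) (h0 : 0 ≤ q0) : 6 * q0 ^ 5 * q - 5 * q0 ^ 6 ≤ q ^ 6 := by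
  have e : q ^ 6 - (6 * q0 ^ 5 * q - 5 * q0 ^ 6) =
      (q - q0) ^ 2 * (q ^ 4 + 2 * q ^ 3 * q0 + 3 * q ^ 2 * q0 ^ 2 + 4 * q * q0 ^ 3 + 5 * q0 ^ 4) := by ring
  have : 0 ≤ (q - q0) ^ 2 * (q ^ 4 + 2 * q ^ 3 * q0 + 3 * q ^ 2 * q0 ^ 2 + 4 * q * q0 ^ 3 + 5 * q0 ^ 4) :=
    mul_nonneg (sq_nonneg _) (by positivity)
  linarith

/-- left side, lower bound `-Y ≤ y`, large `q` -/
theorem syL_ge2 {κ t : ℝ} (h : DomR κ t) (k1 k2 T Y El Eu q0 q1 q2 : ℝ) (hk1 : k1 ≤ κ) (hk2 : κ ≤ k2) (hT : -T ≤ t + κ)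
    (hk10 : 0 < k1) (hY0 : 0 < Y) (hY1 : Y ≤ 0.66) (hEl : El ≤ Real.exp (-Y)) (hEu : Real.exp (-Y) ≤ Eu) (_hEl0 : 0 < El)
    (hq1 : q1 * k2 ≤ Y * El) (hq2 : Y * Eu ≤ q2 * k1) (hq28 : q2 ≤ 9 / 10) (hq0 : 0 ≤ q0)
    (hL1 : T * q1 ≤ (1 - Y / 2) * (2 * q0 * q1 - q0 ^ 2) + (1 / 6 - Y / 4) * (4 * q0 ^ 3 * q1 - 3 * q0 ^ 4) +
      3 / 40 * (6 * q0 ^ 5 * q1 - 5 * q0 ^ 6) + Y * (1 - Eu))
    (hL2 : T * q2 ≤ (1 - Y / 2) * (2 * q0 * q2 - q0 ^ 2) + (1 / 6 - Y / 4) * (4 * q0 ^ 3 * q2 - 3 * q0 ^ 4) +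
      3 / 40 * (6 * q0 ^ 5 * q2 - 5 * q0 ^ 6) + Y * (1 - Eu)) :
    -Y ≤ sy κ t := by
  have hk := h.1
  have he := Real.exp_pos (-Y)
  obtain ⟨q, hq⟩ : ∃ q, q = Y * Real.exp (-Y) / κ := ⟨_, rfl⟩
  have hqp : 0 < q := by rw [hq]; positivity
  have hqq1 : q1 ≤ q := by
    rw [hq, le_div_iff₀ hk]
    rcases le_total 0 q1 with h0 | h0
    · calc q1 * κ ≤ q1 * k2 := mul_le_mul_of_nonneg_left hk2 h0
        _ ≤ Y * El := hq1
        _ ≤ _ := mul_le_mul_of_nonneg_left hEl hY0.le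
    · exact (mul_nonpos_of_nonpos_of_nonneg h0 hk.le).trans (by positivity)
  have hqq2 : q ≤ q2 := by
    rw [hq, div_le_iff₀ hk]
    have h2 : 0 ≤ q2 := by
      by_contra hneg
      have h3 := mul_neg_of_neg_of_pos (not_le.1 hneg) hk10
      have : 0 < Y * Eu := mul_pos hY0 (he.trans_le hEu)
      linarith
    calc Y * Real.exp (-Y) ≤ Y * Eu := mul_le_mul_of_nonneg_left hEu hY0.le
      _ ≤ q2 * k1 := hq2
      _ ≤ _ := mul_le_mul_of_nonneg_left hk1 h2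
  have hL : T * q ≤ (1 - Y / 2) * (2 * q0 * q - q0 ^ 2) + (1 / 6 - Y / 4) * (4 * q0 ^ 3 * q - 3 * q0 ^ 4) +
      3 / 40 * (6 * q0 ^ 5 * q - 5 * q0 ^ 6) + Y * (1 - Eu) := by
    have := aff (α := -(1 - Y / 2) * q0 ^ 2 - (1 / 6 - Y / 4) * (3 * q0 ^ 4) - 3 / 8 * q0 ^ 6 + Y * (1 - Eu))
      (s := (1 - Y / 2) * (2 * q0) + (1 / 6 - Y / 4) * (4 * q0 ^ 3) + 9 / 20 * q0 ^ 5 - T) hqq1 hqq2 (by linarith) (by linarith)
    linarith
  have h2 := mul_le_mul_of_nonneg_left (quad (q := q) (q0 := q0)) (by linarith : 0 ≤ 1 - Y / 2)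
  have h4 := mul_le_mul_of_nonneg_left (quart hqp.le hq0) (by linarith : 0 ≤ 1 / 6 - Y / 4)
  have h6' := six hqp.le hq0
  have hmain : T * q + Y * Real.exp (-Y) ≤ q ^ 2 + q ^ 4 / 6 + 3 * q ^ 6 / 40 + Y * (1 - q ^ 2 / 2 - q ^ 4 / 4) := by
    have := mul_le_mul_of_nonneg_left hEu hY0.le
    linarith
  have hq45 : q ≤ 9 / 10 := hqq2.trans hq28
  have hS := r1_sqrt_ge9 (q := q) (by rw [abs_of_pos hqp]; exact hq45)
  have hA := r1_arcsin_ge5 hqp.le (by linarith)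
  have hp : -(Y / κ) ≤ sp κ t := by
    have e1 : κ * -(Y / κ) = -Y := by field_simp
    have e2 : -(Y / κ) * Real.exp (κ * -(Y / κ)) = -q := by rw [e1, hq]; ring
    apply sp_ge_of h
    · rw [e1, abs_neg, abs_of_pos (by positivity)]
      have : Y / κ * Real.exp (-Y) = q := by rw [hq]; ring
      rw [this]; linarith
    · right; rw [e1]; linarith
    · rw [e2, e1, neg_neg, Real.arcsin_neg, neg_sq]
      have hx : κ * Real.exp Y * q = Y := by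
        rw [hq]
        have : Real.exp Y * Real.exp (-Y) = 1 := by rw [← Real.exp_add]; simp
        calc κ * Real.exp Y * (Y * Real.exp (-Y) / κ) = Y * (Real.exp Y * Real.exp (-Y)) := by field_simp
          _ = Y := by rw [this, mul_one]
      have hk3 : κ * q = Y * Real.exp (-Y) := by rw [hq]; field_simp
      have h5 : (T + κ) * q ≤ (Real.arcsin q + κ * Real.exp Y * Real.sqrt (1 - q ^ 2)) * q := by
        have e3 : (Real.arcsin q + κ * Real.exp Y * Real.sqrt (1 - q ^ 2)) * q =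
            Real.arcsin q * q + (κ * Real.exp Y * q) * Real.sqrt (1 - q ^ 2) := by ring
        rw [e3, hx]
        have h6 : (q + q ^ 3 / 6 + 3 * q ^ 5 / 40) * q ≤ Real.arcsin q * q := mul_le_mul_of_nonneg_right hA hqp.le
        have h7 := mul_le_mul_of_nonneg_left hS hY0.le
        linarith
      have h6 := le_of_mul_le_mul_right h5 hqp
      linarith
  rw [sy_eq_sp h]
  have := mul_le_mul_of_nonneg_left hp hk.le
  have e1 : κ * -(Y / κ) = -Y := by field_simp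
  linarith

/-- left side, lower bound by the angle, `κ ≤ 0.36` -/
theorem syL_ang {κ t : ℝ} (h : DomR κ t) (k2 T A cl su Y El : ℝ) (hk2 : κ ≤ k2) (hk36 : k2 ≤ 0.36) (hT : -T ≤ t + κ)
    (hA0 : 0 < A) (hA1 : A ≤ 1.57) (hcl : cl ≤ Real.cos A) (hsu : Real.sin A ≤ su) (hAT : T ≤ A - k2 * (1 - cl))
    (hEl : El ≤ Real.exp (-Y)) (hY0 : 0 ≤ Y) (hY : k2 * su ≤ Y * El) : -Y ≤ sy κ t := by
  have hk := h.1
  have hpi := Real.pi_gt_d6
  by_contra hcon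
  push Not at hcon
  have hy0 : sy κ t < 0 := by linarith
  obtain ⟨hI, _⟩ := sy_spec h
  have he1 : 0.3678 ≤ Real.exp (-1) := by
    have := Real.exp_one_lt_d9
    rw [Real.exp_neg, le_inv_comm₀ (by norm_num) (Real.exp_pos _)]
    refine this.le.trans (by norm_num)
  have hy1 : -1 < sy κ t := by
    rcases hI.2 with h1 | h1
    · linarith
    · exact h1
  obtain ⟨α, hα⟩ : ∃ α, α = -sa κ t := ⟨_, rfl⟩
  have hab := abs_lt.1 (sa_abs h)
  have hE := Real.exp_pos (sy κ t)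
  have hsin := sin_sa h
  have hp : sp κ t < 0 := by unfold sp; exact div_neg_of_neg_of_pos hy0 hk
  have hsneg : Real.sin (sa κ t) < 0 := by rw [hsin]; exact mul_neg_of_neg_of_pos hp hE
  have hα0 : 0 < α := by
    by_contra hc
    push Not at hc
    have : 0 ≤ Real.sin (sa κ t) := Real.sin_nonneg_of_nonneg_of_le_pi (by linarith) (by linarith)
    linarith
  have hα2 : α < Real.pi / 2 := by rw [hα]; linarith
  have hcosα : 0 ≤ Real.cos α := Real.cos_nonneg_of_neg_pi_div_two_le_of_le (by linarith) (by linarith)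
  have hsub := sa_sub h
  have hcc : Real.cos (sa κ t) = Real.cos α := by rw [hα, Real.cos_neg]
  rw [hcc] at hsub
  have h1e : 1 ≤ Real.exp (-sy κ t) := Real.one_le_exp (by linarith)
  have hx : κ * Real.cos α ≤ κ * (Real.exp (-sy κ t) * Real.cos α) := by
    apply mul_le_mul_of_nonneg_left _ hk.le
    calc Real.cos α = 1 * Real.cos α := (one_mul _).symm
      _ ≤ _ := mul_le_mul_of_nonneg_right h1e hcosα
  have hb : α - κ * (1 - Real.cos α) ≤ T := by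
    have : α = -t - κ * (Real.exp (-sy κ t) * Real.cos α) := by rw [← hsub, hα]; ring
    linarith
  have hAα : α ≤ A := by
    by_contra hc
    push Not at hc
    have h2 : Real.cos A - Real.cos α ≤ α - A := by
      have h3 := Real.abs_cos_sub_cos_le A α
      have h4 := le_abs_self (Real.cos A - Real.cos α)
      have h5 : |A - α| = α - A := by rw [abs_sub_comm]; exact abs_of_pos (by linarith)
      linarith
    have hc1 : Real.cos A ≤ 1 := Real.cos_le_one A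
    have h3 : κ * (Real.cos A - Real.cos α) ≤ κ * (α - A) := mul_le_mul_of_nonneg_left h2 hk.le
    have h4 : κ * (1 - Real.cos A) ≤ k2 * (1 - cl) := mul_le_mul hk2 (by linarith) (by linarith) (by linarith)
    have h5 : 0 < (1 - κ) * (α - A) := mul_pos (by linarith) (by linarith)
    linarith
  have hs : Real.sin α ≤ su :=
    (Real.sin_le_sin_of_le_of_le_pi_div_two (by linarith) (by linarith) hAα).trans hsu
  have hs0 : 0 ≤ Real.sin α := Real.sin_nonneg_of_nonneg_of_le_pi hα0.le (by linarith)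
  have hkey : -sy κ t * Real.exp (-(-sy κ t)) ≤ Y * Real.exp (-Y) := by
    have e : -sy κ t * Real.exp (-(-sy κ t)) = κ * Real.sin α := by
      rw [neg_neg, hα, Real.sin_neg, hsin]
      unfold sp
      field_simp
    rw [e]
    calc κ * Real.sin α ≤ k2 * su := mul_le_mul hk2 hs hs0 (by linarith)
      _ ≤ Y * El := hY
      _ ≤ _ := mul_le_mul_of_nonneg_left hEl hY0
  have := mul_exp_neg_lt hY0 (by linarith : Y < -sy κ t) (by linarith)
  linarith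

theorem syR_triv {κ t : ℝ} (h : DomR κ t) (k2 Y El : ℝ) (hk2 : κ ≤ k2) (hY0 : 0 < Y) (hEl : El ≤ Real.exp Y)
    (hY : k2 ≤ Y * El) : sy κ t ≤ Y := by
  by_contra hcon
  push Not at hcon
  obtain ⟨hI, _⟩ := sy_spec h
  have h1 : |sy κ t| = sy κ t := abs_of_pos (hY0.trans hcon)
  have h2 := hI.1
  rw [h1] at h2
  have h3 : Y * Real.exp Y < sy κ t * Real.exp (sy κ t) :=
    mul_lt_mul'' hcon (Real.exp_lt_exp.2 hcon) hY0.le (Real.exp_pos _).le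
  have h4 := mul_le_mul_of_nonneg_left hEl hY0.le
  linarith

theorem cos_ge_num {A c : ℝ} (hA : 0 ≤ A) (h : c ≤ 1 - A ^ 2 / 2 + A ^ 4 / 24 - A ^ 6 / 720) : c ≤ Real.cos A :=
  h.trans (r1_cos_ge6 hA)

theorem sin_le_num {A c : ℝ} (hA : 0 ≤ A) (h : A - A ^ 3 / 6 + A ^ 5 / 120 ≤ c) : Real.sin A ≤ c :=
  (r1_sin_le5 hA).trans h

theorem disc_split {s : ℂ} {κ t δ : ℝ} (hs : ‖s - ((sx κ t : ℂ) + (sy κ t : ℂ) * I)‖ ≤ δ) :
    (s = (s.re : ℂ) + (s.im : ℂ) * I) ∧ (sx κ t - δ ≤ s.re ∧ s.re ≤ sx κ t + δ) ∧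
      (sy κ t - δ ≤ s.im ∧ s.im ≤ sy κ t + δ) := by
  have h1 := (Complex.abs_re_le_norm _).trans hs
  have h2 := (Complex.abs_im_le_norm _).trans hs
  simp at h1 h2
  obtain ⟨a1, a2⟩ := abs_le.1 h1
  obtain ⟨b1, b2⟩ := abs_le.1 h2
  exact ⟨(Complex.re_add_im s).symm, ⟨by linarith, by linarith⟩, ⟨by linarith, by linarith⟩⟩

theorem disc_norm {s : ℂ} {κ t δ n0 : ℝ} (hs : ‖s - ((sx κ t : ℂ) + (sy κ t : ℂ) * I)‖ ≤ δ)
    (hn : ‖((sx κ t : ℂ) + (sy κ t : ℂ) * I)‖ ≤ n0 - δ) : ‖s‖ ≤ n0 := by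
  have := norm_sub_norm_le s ((sx κ t : ℂ) + (sy κ t : ℂ) * I)
  linarith

/-- slope certificate `y ≤ 2.45 x` -/
theorem sy_slope {κ t : ℝ} (h : DomR κ t) (k1 T ya E : ℝ) (hk1 : k1 ≤ κ) (hk10 : 0 ≤ k1) (hT : t + κ ≤ T) (hya0 : 0 ≤ ya)
    (hya : ya ≤ sy κ t) (hE : Real.exp (-ya) ≤ E) (hA : T ≤ 1.183 + k1 * (1 - 0.382 * E)) :
    sy κ t ≤ 2.45 * sx κ t := by
  have hk := h.1
  have hpi := Real.pi_gt_d6
  have hab := abs_lt.1 (sa_abs h)
  obtain ⟨α, hα⟩ : ∃ α, α = sa κ t := ⟨_, rfl⟩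
  have hE0 := Real.exp_pos (-sy κ t)
  have hcos : sx κ t = κ * (Real.exp (-sy κ t) * Real.cos α) := by
    rw [hα, ← sx_eq h]; field_simp
  have hsin : sy κ t = κ * (Real.exp (-sy κ t) * Real.sin α) := by
    have := sp_eq h
    rw [hα, ← this]
    unfold sp
    field_simp
  have hcosp : 0 < Real.cos α := by rw [hα]; exact cos_sa_pos h
  have hcA : 0.378 ≤ Real.cos 1.183 := cos_ge_num (by norm_num) (by norm_num)
  have hcA2 : Real.cos 1.183 ≤ 0.382 := (r1_cos_le 1.183).trans (by norm_num)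
  have hEE : Real.exp (-sy κ t) ≤ E := (Real.exp_le_exp.2 (by linarith)).trans hE
  have hαA : α ≤ 1.183 := by
    by_contra hc
    push Not at hc
    have h1 : Real.cos α ≤ Real.cos 1.183 := by
      apply Real.cos_le_cos_of_nonneg_of_le_pi (by norm_num) (by linarith) hc.le
    have h2 : Real.exp (-sy κ t) * Real.cos α ≤ E * 0.382 := mul_le_mul hEE (h1.trans hcA2) hcosp.le (hE0.le.trans hEE)
    have h3 : α = t + κ * (Real.exp (-sy κ t) * Real.cos α) := by rw [← hcos, hα]; rfl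
    have h4 : κ * (Real.exp (-sy κ t) * Real.cos α) ≤ κ * (E * 0.382) := mul_le_mul_of_nonneg_left h2 hk.le
    rcases le_total 0 (1 - 0.382 * E) with h5 | h5
    · have := mul_le_mul_of_nonneg_right hk1 h5
      linarith
    · have h6 : Real.exp (-sy κ t) ≤ 1 := by
        apply Real.exp_le_one_iff.2; linarith
      have h7 : Real.exp (-sy κ t) * Real.cos α ≤ 1 * 0.382 := mul_le_mul h6 (h1.trans hcA2) hcosp.le (by norm_num)
      have h8 : κ * (Real.exp (-sy κ t) * Real.cos α) ≤ κ * (1 * 0.382) := mul_le_mul_of_nonneg_left h7 hk.le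
      have h9 : k1 * (1 - 0.382 * E) ≤ 0 := mul_nonpos_of_nonneg_of_nonpos hk10 h5
      nlinarith
  have hsc : Real.sin α ≤ 2.45 * Real.cos α := by
    have h1 : 0.378 ≤ Real.cos α := by
      rcases le_total 0 α with h2 | h2
      · exact hcA.trans (Real.cos_le_cos_of_nonneg_of_le_pi h2 (by linarith) hαA)
      · have h3 : 0 ≤ Real.sin (-α) ∨ True := Or.inr trivial
        have h4 : -α ≤ Real.pi / 2 := by rw [hα]; linarith
        by_contra hc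
        push Not at hc
        have hy0 : 0 ≤ sy κ t := hya0.trans hya
        have h5 : Real.sin α ≤ 0 := Real.sin_nonpos_of_nonpos_of_neg_pi_le h2 (by linarith)
        have h6 : 0 ≤ Real.sin α := by
          by_contra hneg
          push Not at hneg
          have : κ * (Real.exp (-sy κ t) * Real.sin α) < 0 := mul_neg_of_pos_of_neg hk (mul_neg_of_pos_of_neg hE0 hneg)
          linarith
        have h7 : Real.sin α = 0 := le_antisymm h5 h6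
        have h8 := Real.sin_sq_add_cos_sq α
        rw [h7] at h8
        nlinarith
    have h2 := Real.sin_sq_add_cos_sq α
    nlinarith
  rw [hsin, hcos]
  have := mul_le_mul_of_nonneg_left hsc (by positivity : 0 ≤ κ * Real.exp (-sy κ t))
  linarith

end Sok
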