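import Pool.Agent.Lib.MP_816dec_an.JBG

/-!
MP_816dec_an (A3, row R1, one fixed `b`): angle certificates for the bounds of `sy`.
-/

set_option autoImplicit false
set_option maxHeartbeats 4000000

open Complex Set

namespace Sok

private theorem mono_ang {c A a : ℝ} (hc : 0 ≤ c) (hA : 0 ≤ A) (hAa : A ≤ a) (ha : a ≤ Real.pi / 2) (h1 : c * Real.sin a ≤ 1) :
    A + c * Real.cos A ≤ a + c * Real.cos a := by
  -- `cos A - cos a = ∫ sin ≤ (a - A) sin a`
  have h2 : Real.cos A - Real.cos a ≤ (a - A) * Real.sin a := by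
    have e : Real.cos A - Real.cos a = 2 * Real.sin ((a + A) / 2) * Real.sin ((a - A) / 2) := by
      rw [Real.cos_sub_cos]
      have : (A - a) / 2 = -((a - A) / 2) := by ring
      rw [this, Real.sin_neg, add_comm A a]
      ring
    have hs1 : Real.sin ((a + A) / 2) ≤ Real.sin a :=
      Real.sin_le_sin_of_le_of_le_pi_div_two (by linarith) (by linarith) (by linarith)
    have hs2 : Real.sin ((a - A) / 2) ≤ (a - A) / 2 := Real.sin_le (by linarith)
    have hs3 : 0 ≤ Real.sin ((a - A) / 2) :=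
      Real.sin_nonneg_of_nonneg_of_le_pi (by linarith) (by linarith [Real.pi_pos])
    have hs4 : 0 ≤ Real.sin a := Real.sin_nonneg_of_nonneg_of_le_pi (by linarith) (by linarith [Real.pi_pos])
    rw [e]
    calc 2 * Real.sin ((a + A) / 2) * Real.sin ((a - A) / 2) ≤ 2 * Real.sin a * ((a - A) / 2) := by gcongr
      _ = _ := by ring
  have h3 : c * (Real.cos A - Real.cos a) ≤ c * ((a - A) * Real.sin a) := mul_le_mul_of_nonneg_left h2 hc
  have h4 : (a - A) * (c * Real.sin a) ≤ (a - A) * 1 := mul_le_mul_of_nonneg_left h1 (by linarith)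
  linarith

/-- left side, lower bound, angle form -/
theorem syL_ang2 {κ t : ℝ} (h : DomR κ t) (k1 k2 T A cl su Y E El : ℝ) (hk1 : k1 ≤ κ) (hk2 : κ ≤ k2) (hT : -T ≤ t + κ)
    (hk10 : 0 < k1) (hA0 : 0 ≤ A) (hA1 : A ≤ 1.57) (hcl0 : 0 ≤ cl) (hcl : cl ≤ Real.cos A) (hsu : Real.sin A ≤ su)
    (hE : E ≤ Real.exp Y) (hEl : El ≤ Real.exp (-Y)) (hE0 : 0 ≤ E) (hY0 : 0 < Y) (hY1 : Y < 1)
    (hT1 : T + k1 ≤ A + k1 * (E * cl)) (hT2 : T + k2 ≤ A + k2 * (E * cl)) (hY : k2 * su ≤ Y * El) : -Y ≤ sy κ t := by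
  have hk := h.1
  have hpi := Real.pi_gt_d6
  have he := Real.exp_pos (-Y)
  obtain ⟨q, hq⟩ : ∃ q, q = Y * Real.exp (-Y) / κ := ⟨_, rfl⟩
  have hqk : q * κ = Y * Real.exp (-Y) := by rw [hq]; field_simp
  have hqp : 0 < q := by rw [hq]; positivity
  have hTk : T + κ ≤ A + κ * (E * cl) := by
    obtain ⟨w, hw⟩ : ∃ w, w = 1 - E * cl := ⟨_, rfl⟩
    have a1 : T - A + k1 * w ≤ 0 := by rw [hw]; linarith
    have a2 : T - A + k2 * w ≤ 0 := by rw [hw]; linarith
    have a3 : T - A + κ * w ≤ 0 := by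
      rcases le_total 0 w with h5 | h5
      · have := mul_le_mul_of_nonneg_right hk2 h5
        linarith
      · have := mul_le_mul_of_nonpos_right hk1 h5
        linarith
    rw [hw] at a3
    linarith
  rcases lt_or_ge q 1 with hq1 | hq1
  · have hp : -(Y / κ) ≤ sp κ t := by
      have e1 : κ * -(Y / κ) = -Y := by field_simp
      have e2 : -(Y / κ) * Real.exp (κ * -(Y / κ)) = -q := by rw [e1, hq]; ring
      apply sp_ge_of h
      · rw [e1, abs_neg, abs_of_pos (by positivity)]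
        have : Y / κ * Real.exp (-Y) = q := by rw [hq]; ring
        rw [this]; exact hq1
      · right; rw [e1]; linarith
      · rw [e2, e1, neg_neg, Real.arcsin_neg, neg_sq, ← Real.cos_arcsin]
        obtain ⟨a, ha⟩ : ∃ a, a = Real.arcsin q := ⟨_, rfl⟩
        rw [← ha]
        have hsa : Real.sin a = q := by rw [ha, Real.sin_arcsin (by linarith) hq1.le]
        have ha2 : a ≤ Real.pi / 2 := by rw [ha]; exact Real.arcsin_le_pi_div_two q
        have hAq : Real.sin A ≤ q := by
          rw [hq, le_div_iff₀ hk]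
          have hsA : 0 ≤ Real.sin A := Real.sin_nonneg_of_nonneg_of_le_pi hA0 (by linarith)
          calc Real.sin A * κ ≤ su * k2 := mul_le_mul hsu hk2 hk.le (hsA.trans hsu)
            _ = k2 * su := mul_comm _ _
            _ ≤ Y * El := hY
            _ ≤ _ := mul_le_mul_of_nonneg_left hEl hY0.le
        have hAa : A ≤ a := by
          rw [ha, ← Real.arcsin_sin (x := A) (by linarith) (by linarith)]
          exact Real.monotone_arcsin hAq
        have hx : κ * Real.exp Y * q = Y := by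
          rw [hq]
          have : Real.exp Y * Real.exp (-Y) = 1 := by rw [← Real.exp_add]; simp
          calc κ * Real.exp Y * (Y * Real.exp (-Y) / κ) = Y * (Real.exp Y * Real.exp (-Y)) := by field_simp
            _ = Y := by rw [this, mul_one]
        have h5 := mono_ang (c := κ * Real.exp Y) (by positivity) hA0 hAa ha2 (by rw [hsa, hx]; exact hY1.le)
        have h6 : κ * (E * cl) ≤ κ * (Real.exp Y * Real.cos A) :=
          mul_le_mul_of_nonneg_left (mul_le_mul hE hcl hcl0 (Real.exp_pos _).le) hk.le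
        linarith
    rw [sy_eq_sp h]
    have := mul_le_mul_of_nonneg_left hp hk.le
    have e1 : κ * -(Y / κ) = -Y := by field_simp
    linarith
  · -- `κ ≤ Y e^{-Y} ≤ e^{-1}`
    have hκ1 : κ ≤ Y * Real.exp (-Y) := by
      rw [← hqk]
      nlinarith
    have hκ2 : κ ≤ Real.exp (-1) := hκ1.trans (mul_exp_neg_le Y)
    obtain ⟨hI, _⟩ := sy_spec h
    have hy1 : -1 < sy κ t := by
      rcases hI.2 with h1 | h1
      · linarith
      · exact h1
    by_contra hcon
    push Not at hcon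
    have h1 : |sy κ t| = -sy κ t := abs_of_neg (by linarith)
    have h2 := hI.1
    rw [h1] at h2
    have h3 := mul_exp_neg_lt hY0.le (by linarith : Y < -sy κ t) (by linarith)
    rw [neg_neg] at h3
    linarith

/-- right side, upper bound, angle form -/
theorem syR_ang2 {κ t : ℝ} (h : DomR κ t) (k1 k2 T A cA su Y E El : ℝ) (hk1 : k1 ≤ κ) (hk2 : κ ≤ k2) (hT : t + κ ≤ T)
    (_hk10 : 0 < k1) (hA0 : 0 ≤ A) (hA1 : A ≤ 1.57) (hcA : Real.cos A ≤ cA) (hsu : Real.sin A ≤ su)
    (hE : Real.exp (-Y) ≤ E) (hEl : El ≤ Real.exp Y) (hY0 : 0 < Y) (hY1 : Y ≤ 1) (hE1 : E * cA ≤ 1)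
    (hTA : T ≤ A + k1 * (1 - E * cA)) (hY : k2 * su ≤ Y * El) : sy κ t ≤ Y := by
  have hk := h.1
  have hpi := Real.pi_gt_d6
  by_contra hcon
  push Not at hcon
  obtain ⟨hI, _⟩ := sy_spec h
  have hYk : Y * Real.exp Y < κ := by
    have h1 : |sy κ t| = sy κ t := abs_of_pos (hY0.trans hcon)
    have h2 := hI.1
    rw [h1] at h2
    have h4 : Y * Real.exp Y < sy κ t * Real.exp (sy κ t) :=
      mul_lt_mul'' hcon (Real.exp_lt_exp.2 hcon) hY0.le (Real.exp_pos _).le
    linarith
  obtain ⟨q, hq⟩ : ∃ q, q = Y * Real.exp Y / κ := ⟨_, rfl⟩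
  have hqp : 0 < q := by rw [hq]; positivity
  have hq1 : q < 1 := by rw [hq, div_lt_one hk]; exact hYk
  have hp : sp κ t ≤ Y / κ := by
    have e1 : κ * (Y / κ) = Y := by field_simp
    have e2 : Y / κ * Real.exp (κ * (Y / κ)) = q := by rw [e1, hq]; ring
    apply sp_le_of h
    · rw [abs_of_pos (by positivity), e2]; exact hq1
    · right; rw [e1]; linarith
    · rw [e2, e1, ← Real.cos_arcsin]
      obtain ⟨a, ha⟩ : ∃ a, a = Real.arcsin q := ⟨_, rfl⟩
      rw [← ha]
      have ha2 : a ≤ Real.pi / 2 := by rw [ha]; exact Real.arcsin_le_pi_div_two q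
      have hAq : Real.sin A ≤ q := by
        rw [hq, le_div_iff₀ hk]
        have hsA : 0 ≤ Real.sin A := Real.sin_nonneg_of_nonneg_of_le_pi hA0 (by linarith)
        calc Real.sin A * κ ≤ su * k2 := mul_le_mul hsu hk2 hk.le (hsA.trans hsu)
          _ = k2 * su := mul_comm _ _
          _ ≤ Y * El := hY
          _ ≤ _ := mul_le_mul_of_nonneg_left hEl hY0.le
      have hAa : A ≤ a := by
        rw [ha, ← Real.arcsin_sin (x := A) (by linarith) (by linarith)]
        exact Real.monotone_arcsin hAq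
      have hca : Real.cos a ≤ Real.cos A := Real.cos_le_cos_of_nonneg_of_le_pi hA0 (by linarith) hAa
      have hcA0 : 0 ≤ Real.cos a := by rw [ha]; exact Real.cos_arcsin_nonneg q
      have h6 : κ * Real.exp (-Y) * Real.cos a ≤ κ * (E * cA) := by
        rw [mul_assoc]
        exact mul_le_mul_of_nonneg_left (mul_le_mul hE (hca.trans hcA) hcA0 ((Real.exp_pos _).le.trans hE)) hk.le
      have h7 := mul_le_mul_of_nonneg_right hk1 (by linarith : 0 ≤ 1 - E * cA)
      linarith
  rw [sy_eq_sp h] at hcon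
  have := mul_le_mul_of_nonneg_left hp hk.le
  have e1 : κ * (Y / κ) = Y := by field_simp
  linarith

theorem cos_le_num {A c : ℝ} (h : 1 - A ^ 2 / 2 + A ^ 4 / 24 ≤ c) : Real.cos A ≤ c := (r1_cos_le A).trans h

end Sok
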