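import Mathlib
import Pool.Agent.Lib.MP_816dec_an.JNum2

/-!
MP_816dec_an: Lemma J (slanted) on a box of the `σ` plane, with explicit numbers; pointwise condition `y ≤ 2.45 x`.
-/

set_option autoImplicit false
set_option maxHeartbeats 4000000

open Complex Set Filter Topology MeasureTheory

namespace Sok

private theorem sqrt_exp_bdP {β c N0 r0 : ℝ} (hβ : 0 < β) (hN0 : 0 < N0) (hr0 : 0 ≤ r0) (hr : N0 ≤ r0 ^ 2)
    (hβ1 : β * N0 ≤ 1) (hc : 1 ≤ 2 * (N0 * c)) :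
    Real.sqrt (1 / β) * Real.exp (-c / β) ≤ r0 * Real.exp (-(N0 * c)) := by
  obtain ⟨t, ht⟩ : ∃ t, t = 1 / (N0 * β) := ⟨_, rfl⟩
  have ht1 : 1 ≤ t := by
    rw [ht, le_div_iff₀ (by positivity)]; linarith
  have e1 : 1 / β = N0 * t := by rw [ht]; field_simp
  have e2 : -c / β = -(N0 * c * t) := by
    have : -c / β = -(c * (1 / β)) := by ring
    rw [this, e1]; ring
  rw [e1, e2, Real.sqrt_mul hN0.le]
  have h1 : Real.sqrt N0 ≤ r0 := by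
    rw [Real.sqrt_le_left hr0]; exact hr
  have h2 : Real.sqrt t ≤ Real.exp ((t - 1) / 2) := by
    rw [Real.sqrt_le_left (Real.exp_pos _).le, ← Real.exp_nat_mul]
    have := Real.add_one_le_exp (t - 1)
    refine le_trans (by linarith) (this.trans (Real.exp_le_exp.2 ?_))
    push_cast; linarith
  have h3 : Real.exp ((t - 1) / 2) * Real.exp (-(N0 * c * t)) ≤ Real.exp (-(N0 * c)) := by
    rw [← Real.exp_add]
    apply Real.exp_le_exp.2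
    nlinarith
  calc Real.sqrt N0 * Real.sqrt t * Real.exp (-(N0 * c * t)) ≤
        r0 * Real.exp ((t - 1) / 2) * Real.exp (-(N0 * c * t)) := by gcongr
    _ = r0 * (Real.exp ((t - 1) / 2) * Real.exp (-(N0 * c * t))) := by ring
    _ ≤ _ := by gcongr

private theorem sqrt_exp_bdP' {β c N0 r0 : ℝ} (hβ : 0 < β) (hN0 : 0 < N0) (hr0 : 0 ≤ r0) (hr : N0 ≤ r0 ^ 2)
    (hβ1 : β * N0 ≤ 1) (hc : 3 ≤ 2 * (N0 * c)) :
    Real.sqrt (1 / β) * Real.exp (-c / β) ≤ β * (N0 * r0 * Real.exp (-(N0 * c))) := by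
  obtain ⟨t, ht⟩ : ∃ t, t = 1 / (N0 * β) := ⟨_, rfl⟩
  have ht1 : 1 ≤ t := by
    rw [ht, le_div_iff₀ (by positivity)]; linarith
  have hN1 : N0 * (c - 1 / N0) = N0 * c - 1 := by field_simp
  have h1 := sqrt_exp_bdP (c := c - 1 / N0) hβ hN0 hr0 hr hβ1 (by rw [hN1]; linarith)
  rw [hN1] at h1
  have e1 : Real.exp (-c / β) = Real.exp (-(c - 1 / N0) / β) * Real.exp (-t) := by
    rw [← Real.exp_add]; congr 1; rw [ht]; field_simp; ring
  have h2 : Real.exp (-t) ≤ β * N0 * Real.exp (-1) := by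
    have h3 := Real.add_one_le_exp (t - 1)
    have h4 : t * Real.exp (-t) ≤ Real.exp (-1) := by
      have : Real.exp (-1) = Real.exp (t - 1) * Real.exp (-t) := by rw [← Real.exp_add]; congr 1; ring
      rw [this]
      exact mul_le_mul_of_nonneg_right (by linarith) (Real.exp_pos _).le
    have h5 : t * (β * N0) = 1 := by rw [ht]; field_simp
    calc Real.exp (-t) = (β * N0) * (t * Real.exp (-t)) := by
          rw [← mul_assoc, mul_comm (β * N0) t, h5, one_mul]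
      _ ≤ _ := mul_le_mul_of_nonneg_left h4 (by positivity)
  rw [e1]
  have e3 : Real.exp (-(N0 * c - 1)) * Real.exp (-1) = Real.exp (-(N0 * c)) := by
    rw [← Real.exp_add]; congr 1; ring
  calc Real.sqrt (1 / β) * (Real.exp (-(c - 1 / N0) / β) * Real.exp (-t)) =
        (Real.sqrt (1 / β) * Real.exp (-(c - 1 / N0) / β)) * Real.exp (-t) := by ring
    _ ≤ (r0 * Real.exp (-(N0 * c - 1))) * (β * N0 * Real.exp (-1)) := by gcongr
    _ = β * (N0 * r0 * (Real.exp (-(N0 * c - 1)) * Real.exp (-1))) := by ring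
    _ = _ := by rw [e3]

private theorem wpos' {w c : ℝ} (hc : 0 < c) (h : 1 ≤ w * (c ^ 3 * Real.sqrt c)) : 0 ≤ w := by
  have : 0 < c ^ 3 * Real.sqrt c := mul_pos (by positivity) (Real.sqrt_pos.2 hc)
  by_contra hneg
  have := mul_neg_of_neg_of_pos (not_le.1 hneg) this
  linarith

/-- the Laplace part -/
private theorem lap_part {β a D a0 D1 k1 ρ wL wR : ℝ} (hβ : 0 < β) (ha0 : 0 < a0) (ha : a0 ≤ a) (hD0 : 0 ≤ D) (hD : D ≤ D1)
    (hk1 : 0 ≤ k1) (hk : D1 ≤ k1 ^ 2 * a0 ^ 3) (hρ0 : 0 ≤ ρ) (hρ1 : ρ ≤ 1.44)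
    (hwL : 1 ≤ wL * ((1 - ρ / 3) ^ 3 * Real.sqrt (1 - ρ / 3)))
    (hwR : 1 ≤ wR * ((1 - 0.12244 * ρ) ^ 3 * Real.sqrt (1 - 0.12244 * ρ))) :
    Real.sqrt (D / (2 * Real.pi * β)) * (lapErr (a / β) ρ - 2 * (Real.exp (-((a / β) / 2) * 1 ^ 2) / ((a / β) * 1))) ≤
      k1 * (0.15433 * ρ + 5 / 48 * ρ ^ 2 * (wL + 2.1586 * wR)) * β := by
  have hap : 0 < a := ha0.trans_le ha
  obtain ⟨A, hA⟩ : ∃ A, A = a / β := ⟨_, rfl⟩
  have hA0 : 0 < A := by rw [hA]; positivity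
  obtain ⟨sD, hsD⟩ : ∃ sD, sD = Real.sqrt (D / (2 * Real.pi * β)) := ⟨_, rfl⟩
  have hsD0 : 0 ≤ sD := by rw [hsD]; exact Real.sqrt_nonneg _
  obtain ⟨k, hkd⟩ : ∃ k, k = Real.sqrt (D / a) := ⟨_, rfl⟩
  have hk0 : 0 ≤ k := by rw [hkd]; exact Real.sqrt_nonneg _
  have hid : sD * Real.sqrt (2 * Real.pi) = k * Real.sqrt A := by
    rw [hsD, hkd, ← Real.sqrt_mul (by positivity), ← Real.sqrt_mul (by positivity)]
    congr 1
    rw [hA]
    field_simp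
  have hkA : k / A ≤ k1 * β := by
    have h1 : k ≤ k1 * a0 := by
      rw [hkd, Real.sqrt_le_left (by positivity), div_le_iff₀ hap]
      calc D ≤ D1 := hD
        _ ≤ k1 ^ 2 * a0 ^ 3 := hk
        _ = (k1 * a0) ^ 2 * a0 := by ring
        _ ≤ _ := mul_le_mul_of_nonneg_left ha (by positivity)
    rw [hA, div_div_eq_mul_div, div_le_iff₀ hap]
    calc k * β ≤ (k1 * a0) * β := mul_le_mul_of_nonneg_right h1 hβ.le
      _ ≤ (k1 * a) * β := by gcongr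
      _ = _ := by ring
  have hsA : 0 < Real.sqrt A := Real.sqrt_pos.2 hA0
  have hcL : 0 < 1 - ρ / 3 := by linarith
  have hcR : 0 < 1 - 0.12244 * ρ := by linarith
  have hE1 := exp_five_thirteen
  have hE0 := Real.exp_pos (5 / 13)
  obtain ⟨e5, he5⟩ : ∃ e5, e5 = Real.exp (5 / 13) := ⟨_, rfl⟩
  rw [← he5] at hE1 hE0
  have T1 : sD * (3 / 2 * Real.sqrt (2 * Real.pi) * (ρ * A / 24 + e5 * (ρ * A / 24)) / (A ^ 2 * Real.sqrt A)) ≤
      k1 * (0.15433 * ρ) * β := by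
    have e : sD * (3 / 2 * Real.sqrt (2 * Real.pi) * (ρ * A / 24 + e5 * (ρ * A / 24)) / (A ^ 2 * Real.sqrt A)) =
        (sD * Real.sqrt (2 * Real.pi)) * (3 / 2 * (ρ * A / 24 + e5 * (ρ * A / 24)) / (A ^ 2 * Real.sqrt A)) := by ring
    have e2 : k * Real.sqrt A * (3 / 2 * (ρ * A / 24 + e5 * (ρ * A / 24)) / (A ^ 2 * Real.sqrt A)) =
        (k / A) * ((1 + e5) / 16 * ρ) := by field_simp; ring
    rw [e, hid, e2]
    calc (k / A) * ((1 + e5) / 16 * ρ) ≤ (k1 * β) * (0.15433 * ρ) := by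
          apply mul_le_mul hkA _ (by positivity) (by positivity)
          apply mul_le_mul_of_nonneg_right _ hρ0
          linarith
      _ = _ := by ring
  have T2 : ∀ c w f g : ℝ, 0 < c → 0 ≤ f → f ^ 2 ≤ g → 0 ≤ w → 1 ≤ w * (c ^ 3 * Real.sqrt c) →
      sD * (15 / 4 * Real.sqrt (2 * Real.pi) * (f * (ρ * A / 6)) ^ 2 / ((c * A) ^ 3 * Real.sqrt (c * A))) ≤
        k1 * (5 / 48 * ρ ^ 2 * (g * w)) * β := by
    intro c w f g hc hf hg hw hcw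
    have hsc : 0 < Real.sqrt c := Real.sqrt_pos.2 hc
    have e : sD * (15 / 4 * Real.sqrt (2 * Real.pi) * (f * (ρ * A / 6)) ^ 2 / ((c * A) ^ 3 * Real.sqrt (c * A))) =
        (sD * Real.sqrt (2 * Real.pi)) * (15 / 4 * (f * (ρ * A / 6)) ^ 2 / ((c * A) ^ 3 * Real.sqrt (c * A))) := by ring
    have e2 : k * Real.sqrt A * (15 / 4 * (f * (ρ * A / 6)) ^ 2 / ((c * A) ^ 3 * (Real.sqrt c * Real.sqrt A))) =
        (k / A) * (5 / 48 * ρ ^ 2 * (f ^ 2 * (1 / (c ^ 3 * Real.sqrt c)))) := by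
      field_simp; ring
    rw [e, hid, Real.sqrt_mul hc.le, e2]
    have h5 : 1 / (c ^ 3 * Real.sqrt c) ≤ w := by
      rw [div_le_iff₀ (by positivity)]; exact hcw
    have hg0 : 0 ≤ g := (sq_nonneg f).trans hg
    calc (k / A) * (5 / 48 * ρ ^ 2 * (f ^ 2 * (1 / (c ^ 3 * Real.sqrt c)))) ≤
          (k1 * β) * (5 / 48 * ρ ^ 2 * (g * w)) := by gcongr
      _ = _ := by ring
  have T2a := T2 (1 - ρ / 3) wL 1 1 hcL (by norm_num) (by norm_num) (wpos' hcL hwL) hwL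
  have T2b := T2 (1 - 0.12244 * ρ) wR e5 2.1586 hcR hE0.le (by nlinarith) (wpos' hcR hwR) hwR
  rw [one_mul] at T2a
  rw [← hsD, ← hA, lapErr, ← he5]
  have hsum := add_le_add (add_le_add T1 T2a) T2b
  refine (le_of_eq ?_).trans (hsum.trans (le_of_eq ?_))
  · ring
  · ring

/-- **Lemma J (slanted) on a box.** -/
theorem J_boxp {β x y : ℝ} (x1 x2 ym yp yt a0 s1 D1 k1 f1 r0 N0 ρ wL wR m0 c0 c1 c2 c3 c4 c5 c6 c7 E0 E1 E2 E3 E4 E5 E6 E7 C : ℝ)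
    (hβ : 0 < β) (hβ1 : β * N0 ≤ 1) (hx1 : x1 ≤ x) (hx2 : x ≤ x2) (hy1 : -ym ≤ y) (hy2' : y ≤ yt) (hytp : yt ≤ yp)
    (hx10 : 0 < x1) (hxy : y ≤ 2.45 * x) (hyp1 : yp < 1) (hm0 : 0 ≤ ym) (hm1 : ym ≤ 0.72) (hp0 : 0 ≤ yp)
    (ha0 : a0 ≤ (119 * x1 + 120 * (1 - ym)) / 169) (ha00 : 0 < a0)
    (hs1a : x2 ^ 2 + ym ^ 2 ≤ s1 ^ 2) (hs1b : x2 ^ 2 + yp ^ 2 ≤ s1 ^ 2) (hs10 : 0 ≤ s1)
    (hρ : s1 ≤ ρ * a0) (hρ0 : 0 ≤ ρ) (hρ1 : ρ ≤ 1.44)
    (hD1 : (1 + yt) ^ 2 + x2 ^ 2 ≤ D1 ^ 2) (hD10 : 0 ≤ D1)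
    (hk1 : 0 ≤ k1) (hk : D1 ≤ k1 ^ 2 * a0 ^ 3) (hf1 : 0 ≤ f1) (hf : D1 ≤ f1 ^ 2 * 6.28318)
    (hr0 : 0 ≤ r0) (hr : N0 ≤ r0 ^ 2) (hN0 : 0 < N0)
    (hwL : 1 ≤ wL * ((1 - ρ / 3) ^ 3 * Real.sqrt (1 - ρ / 3)))
    (hwR : 1 ≤ wR * ((1 - 0.12244 * ρ) ^ 3 * Real.sqrt (1 - 0.12244 * ρ)))
    (hm : m0 ≤ 240 / 169 - (5 * x2 + 12 * ym) / 13) (hm00 : 0 < m0)
    (hc0 : c0 ≤ a0 / 2) (hc1 : c1 ≤ a0 / 2 * (1 - ρ / 3))
    (hc2 : c2 ≤ x1 - 240 / 169 + (171 / 100) * (240 / 169 - (5 * x1 + 12 * ym) / 13))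
    (hc3 : c3 ≤ (204 / 65) * (17 / 13 - ym) - 0.2705 * s1 - 4 * x2 / 13)
    (hc4 : c4 ≤ 60 / 169 + (18 / 13 - 0.8989) * x1 - 0.5463 * ym - 0.102 * yp)
    (hc5 : c5 ≤ 0.5 + 18 / 13 * x1 - 0.102 * yp)
    (hc6 : c6 ≤ 1.5707 * (1 - yp) + 2 * x1 - 2.7183 * (ym + yp))
    (hc7 : c7 ≤ 4.7121 * (1 - yp) + 2 * x1 - 2.7183 * s1)
    (hn0 : 1 ≤ 2 * (N0 * c0)) (hn1 : 3 ≤ 2 * (N0 * c1)) (hn2 : 1 ≤ 2 * (N0 * c2)) (hn3 : 1 ≤ 2 * (N0 * c3))
    (hn4 : 3 ≤ 2 * (N0 * c4)) (hn5 : 3 ≤ 2 * (N0 * c5)) (hn6 : 1 ≤ 2 * (N0 * c6)) (hn7 : 1 ≤ 2 * (N0 * c7))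
    (hE0 : Real.exp (-(N0 * c0)) ≤ E0) (hE1 : Real.exp (-(N0 * c1)) ≤ E1) (hE2 : Real.exp (-(N0 * c2)) ≤ E2)
    (hE3 : Real.exp (-(N0 * c3)) ≤ E3) (hE4 : Real.exp (-(N0 * c4)) ≤ E4) (hE5 : Real.exp (-(N0 * c5)) ≤ E5)
    (hE6 : Real.exp (-(N0 * c6)) ≤ E6) (hE7 : Real.exp (-(N0 * c7)) ≤ E7)
    (hC : k1 * (0.15433 * ρ + 5 / 48 * ρ ^ 2 * (wL + 2.1586 * wR)) +
      f1 * r0 * (2 / a0 * E0 + N0 * 0.71 * E1 + 1 / m0 * E2 + 1 / (17 / 13 - ym) * E3 + N0 * 0.6478 * E4 +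
        N0 * (8 / 13) * E5 + 1 / (1 - yp) * E6 + 1 / (1 - yp) * E7) ≤ C) :
    ‖HH β (x + y * I) - 1‖ ≤ C * β := by
  have hx0 : 0 < x := by linarith
  have hy2 : y ≤ yp := hy2'.trans hytp
  obtain ⟨s, hsd⟩ : ∃ s, s = ‖(x + y * I : ℂ)‖ := ⟨_, rfl⟩
  obtain ⟨D, hD⟩ : ∃ D, D = ‖1 - I * (x + y * I : ℂ)‖ := ⟨_, rfl⟩
  have hs0 : 0 ≤ s := by rw [hsd]; exact norm_nonneg _
  have hD0 : 0 ≤ D := by rw [hD]; exact norm_nonneg _
  have hs2 : s ^ 2 = x ^ 2 + y ^ 2 := by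
    rw [hsd, ← Complex.normSq_eq_norm_sq, Complex.normSq_apply]
    simp
    ring
  have hD2 : D ^ 2 = (1 + y) ^ 2 + x ^ 2 := by
    rw [hD, ← Complex.normSq_eq_norm_sq, Complex.normSq_apply]
    simp
    ring
  have hss : s ≤ s1 := by
    apply le_of_sq_le_sq _ hs10
    rw [hs2]
    have h1 : x ^ 2 ≤ x2 ^ 2 := pow_le_pow_left₀ hx0.le hx2 2
    rcases le_total 0 y with h | h
    · have h2 : y ^ 2 ≤ yp ^ 2 := pow_le_pow_left₀ h hy2 2
      linarith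
    · have h2 : y ^ 2 ≤ ym ^ 2 := by nlinarith
      linarith
  have hDD : D ≤ D1 := by
    apply le_of_sq_le_sq _ hD10
    rw [hD2]
    refine le_trans ?_ hD1
    have h1 : x ^ 2 ≤ x2 ^ 2 := pow_le_pow_left₀ hx0.le hx2 2
    have h2 : (1 + y) ^ 2 ≤ (1 + yt) ^ 2 := pow_le_pow_left₀ (by linarith) (by linarith) 2
    linarith
  obtain ⟨a, had⟩ : ∃ a, a = aq x y := ⟨_, rfl⟩
  have haa : a0 ≤ a := by
    rw [had, aq]
    refine ha0.trans ?_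
    apply div_le_div_of_nonneg_right _ (by norm_num)
    linarith
  have ha : 0 < a := ha00.trans_le haa
  have hmx : m0 ≤ 240 / 169 - (5 * x + 12 * ym) / 13 := by linarith
  have hJ := J_slant (β := β) (x := x) (y := y) (ym := ym) (yp := yp) (ρ := ρ) hβ hx0 hxy (by linarith)
    hm0 (by linarith) hm1 hp0 hy2 (by rw [← had]; exact ha) (by
      rw [← hsd, ← had]
      exact (hss.trans hρ).trans (mul_le_mul_of_nonneg_left haa hρ0)) hρ0 hρ1 (by linarith)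
  have hHH : HH β (x + y * I) = F (cexp (I * β)) (zs β (x + y * I)) *
        cexp (-(((x + y * I : ℂ) - I * (x + y * I : ℂ) ^ 2 / 2) / β)) * (1 - I * (x + y * I : ℂ)) ^ (1 / 2 : ℂ) := rfl
  rw [← hHH, ← hsd, ← hD, ← had] at hJ
  refine hJ.trans ?_
  have hL := lap_part hβ ha00 haa hD0 hDD hk1 hk hρ0 hρ1 hwL hwR
  obtain ⟨sD, hsD⟩ : ∃ sD, sD = Real.sqrt (D / (2 * Real.pi * β)) := ⟨_, rfl⟩
  have hsD0 : 0 ≤ sD := by rw [hsD]; exact Real.sqrt_nonneg _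
  obtain ⟨r1, hr1⟩ : ∃ r1, r1 = Real.sqrt (1 / β) := ⟨_, rfl⟩
  have hr10 : 0 ≤ r1 := by rw [hr1]; exact Real.sqrt_nonneg _
  have hpi := Real.pi_gt_d6
  have hpi2 := Real.pi_lt_d6
  have hsD1 : sD ≤ f1 * r1 := by
    rw [hsD, hr1, Real.sqrt_le_left (by positivity), mul_pow, Real.sq_sqrt (by positivity)]
    rw [div_le_iff₀ (by positivity)]
    have : f1 ^ 2 * (1 / β) * (2 * Real.pi * β) = f1 ^ 2 * (2 * Real.pi) := by field_simp
    rw [this]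
    refine (hDD.trans hf).trans (mul_le_mul_of_nonneg_left ?_ (sq_nonneg _))
    linarith
  rw [← hsD] at hL ⊢
  have EX : ∀ c c' E : ℝ, 1 ≤ 2 * (N0 * c') → c' ≤ c → Real.exp (-(N0 * c')) ≤ E →
      sD * Real.exp (-c / β) ≤ f1 * r0 * E := by
    intro c c' E h1 h2 h3
    have h4 : Real.exp (-c / β) ≤ Real.exp (-c' / β) := by
      apply Real.exp_le_exp.2
      exact div_le_div_of_nonneg_right (by linarith) hβ.le
    have h5 := sqrt_exp_bdP hβ hN0 hr0 hr hβ1 h1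
    rw [← hr1] at h5
    calc sD * Real.exp (-c / β) ≤ (f1 * r1) * Real.exp (-c' / β) := by gcongr
      _ = f1 * (r1 * Real.exp (-c' / β)) := by ring
      _ ≤ f1 * (r0 * E) := by
          refine mul_le_mul_of_nonneg_left (h5.trans ?_) hf1
          exact mul_le_mul_of_nonneg_left h3 hr0
      _ = _ := by ring
  have EX' : ∀ c c' E : ℝ, 3 ≤ 2 * (N0 * c') → c' ≤ c → Real.exp (-(N0 * c')) ≤ E →
      sD * Real.exp (-c / β) ≤ f1 * r0 * (N0 * E) * β := by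
    intro c c' E h1 h2 h3
    have h4 : Real.exp (-c / β) ≤ Real.exp (-c' / β) := by
      apply Real.exp_le_exp.2
      exact div_le_div_of_nonneg_right (by linarith) hβ.le
    have h5 := sqrt_exp_bdP' hβ hN0 hr0 hr hβ1 h1
    rw [← hr1] at h5
    calc sD * Real.exp (-c / β) ≤ (f1 * r1) * Real.exp (-c' / β) := by gcongr
      _ = f1 * (r1 * Real.exp (-c' / β)) := by ring
      _ ≤ f1 * (β * (N0 * r0 * E)) := by
          refine mul_le_mul_of_nonneg_left (h5.trans ?_) hf1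
          refine mul_le_mul_of_nonneg_left ?_ hβ.le
          exact mul_le_mul_of_nonneg_left h3 (by positivity)
      _ = _ := by ring
  have pos : ∀ {c E : ℝ}, Real.exp (-(N0 * c)) ≤ E → 0 ≤ E := fun h => (Real.exp_pos _).le.trans h
  -- a term `sD * (exp(-c/β) / (m/β))`
  have DV : ∀ c c' E m m' : ℝ, 1 ≤ 2 * (N0 * c') → c' ≤ c → Real.exp (-(N0 * c')) ≤ E → 0 < m' → m' ≤ m →
      sD * (Real.exp (-c / β) / (m / β)) ≤ f1 * r0 * (1 / m' * E) * β := by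
    intro c c' E m m' h1 h2 h3 h4 h5
    have h6 := EX c c' E h1 h2 h3
    have hE := pos h3
    have hm' : 0 < m := h4.trans_le h5
    have e : sD * (Real.exp (-c / β) / (m / β)) = (sD * Real.exp (-c / β)) * (β / m) := by field_simp
    rw [e]
    calc (sD * Real.exp (-c / β)) * (β / m) ≤ (f1 * r0 * E) * (β / m') := by gcongr
      _ = _ := by ring
  have U0 : sD * (2 * (Real.exp (-((a / β) / 2) * 1 ^ 2) / ((a / β) * 1))) ≤ f1 * r0 * (2 / a0 * E0) * β := by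
    have h1 := DV (a / 2) c0 E0 a a0 hn0 (by linarith) hE0 ha00 haa
    have e : sD * (2 * (Real.exp (-((a / β) / 2) * 1 ^ 2) / ((a / β) * 1))) =
        2 * (sD * (Real.exp (-(a / 2) / β) / (a / β))) := by
      have : -((a / β) / 2) * 1 ^ 2 = -(a / 2) / β := by ring
      rw [this, mul_one]; ring
    rw [e]
    calc 2 * (sD * (Real.exp (-(a / 2) / β) / (a / β))) ≤ 2 * (f1 * r0 * (1 / a0 * E0) * β) := by linarith
      _ = _ := by ring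
  have hcL : 0 < 1 - ρ / 3 := by linarith
  have U1 : sD * (Real.exp (-((a / β) / 2 * (1 - ρ / 3))) * (71 / 100)) ≤ f1 * r0 * (N0 * 0.71 * E1) * β := by
    have h0 : c1 ≤ a / 2 * (1 - ρ / 3) := hc1.trans (mul_le_mul_of_nonneg_right (by linarith) hcL.le)
    have h1 := EX' (a / 2 * (1 - ρ / 3)) c1 E1 hn1 h0 hE1
    have e : -((a / β) / 2 * (1 - ρ / 3)) = -(a / 2 * (1 - ρ / 3)) / β := by ring
    rw [e]
    calc sD * (Real.exp (-(a / 2 * (1 - ρ / 3)) / β) * (71 / 100)) =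
          (sD * Real.exp (-(a / 2 * (1 - ρ / 3)) / β)) * (71 / 100) := by ring
      _ ≤ (f1 * r0 * (N0 * E1) * β) * (71 / 100) := by gcongr
      _ = _ := by ring
  have U2 : sD * (Real.exp (-(x - 240 / 169 + (171 / 100) * (240 / 169 - (5 * x + 12 * ym) / 13)) / β) /
      ((240 / 169 - (5 * x + 12 * ym) / 13) / β)) ≤ f1 * r0 * (1 / m0 * E2) * β :=
    DV _ c2 E2 _ m0 hn2 (by linarith) hE2 hm00 hmx
  have U3 : sD * (Real.exp (-((204 / 65) * (17 / 13 - ym) - 0.2705 * s - 4 * x / 13) / β) / ((17 / 13 - ym) / β)) ≤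
      f1 * r0 * (1 / (17 / 13 - ym) * E3) * β :=
    DV _ c3 E3 _ _ hn3 (by linarith) hE3 (by linarith) le_rfl
  have U4 : sD * (Real.exp (-(60 / 169 + (18 / 13 - 0.8989) * x - 0.5463 * ym - 0.102 * yp) / β) *
      (Real.pi / 2 - 12 / 13)) ≤ f1 * r0 * (N0 * 0.6478 * E4) * β := by
    have h1 := EX' (60 / 169 + (18 / 13 - 0.8989) * x - 0.5463 * ym - 0.102 * yp) c4 E4 hn4 (by linarith) hE4
    have hE := pos hE4
    calc sD * (Real.exp (-(60 / 169 + (18 / 13 - 0.8989) * x - 0.5463 * ym - 0.102 * yp) / β) * (Real.pi / 2 - 12 / 13)) =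
          (sD * Real.exp (-(60 / 169 + (18 / 13 - 0.8989) * x - 0.5463 * ym - 0.102 * yp) / β)) * (Real.pi / 2 - 12 / 13) := by
          ring
      _ ≤ (f1 * r0 * (N0 * E4) * β) * 0.6478 := by
          apply mul_le_mul h1 (by linarith) (by linarith) (by positivity)
      _ = _ := by ring
  have U5 : sD * (Real.exp (-(0.5 + 18 / 13 * x - 0.102 * yp) / β) * (8 / 13)) ≤ f1 * r0 * (N0 * (8 / 13) * E5) * β := by
    have h1 := EX' (0.5 + 18 / 13 * x - 0.102 * yp) c5 E5 hn5 (by linarith) hE5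
    calc sD * (Real.exp (-(0.5 + 18 / 13 * x - 0.102 * yp) / β) * (8 / 13)) =
          (sD * Real.exp (-(0.5 + 18 / 13 * x - 0.102 * yp) / β)) * (8 / 13) := by ring
      _ ≤ (f1 * r0 * (N0 * E5) * β) * (8 / 13) := by gcongr
      _ = _ := by ring
  have hy1' : 0 < 1 - yp := by linarith
  have U6 : sD * (Real.exp (-((Real.pi / 2) * (1 - y) + 2 * x - 2.7183 * (ym + yp)) / β) / ((1 - y) / β)) ≤
      f1 * r0 * (1 / (1 - yp) * E6) * β := by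
    refine DV _ c6 E6 _ _ hn6 (hc6.trans ?_) hE6 hy1' (by linarith)
    have : 1.5707 * (1 - yp) ≤ Real.pi / 2 * (1 - y) := mul_le_mul (by linarith) (by linarith) hy1'.le (by linarith)
    linarith
  have U7 : sD * (Real.exp (-((3 * Real.pi / 2) * (1 - y) + 2 * x - 2.7183 * s) / β) / ((1 - y) / β)) ≤
      f1 * r0 * (1 / (1 - yp) * E7) * β := by
    refine DV _ c7 E7 _ _ hn7 (hc7.trans ?_) hE7 hy1' (by linarith)
    have : 4.7121 * (1 - yp) ≤ 3 * Real.pi / 2 * (1 - y) := mul_le_mul (by linarith) (by linarith) hy1'.le (by linarith)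
    linarith
  have hfin := mul_le_mul_of_nonneg_right hC hβ.le
  refine le_trans ?_ hfin
  have hsum := add_le_add (add_le_add (add_le_add (add_le_add (add_le_add (add_le_add (add_le_add (add_le_add hL U0) U1)
    U2) U3) U4) U5) U6) U7
  rw [tailErr, ← had]
  refine (le_of_eq ?_).trans (hsum.trans (le_of_eq ?_))
  · ring
  · ring

end Sok
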