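import Mathlib
import Pool.Agent.Lib.MP_816dec_an.JBox
import Pool.Agent.Lib.MP_816dec_an.JNum3

/-!
MP_816dec_an: rectangles containing the discs of radius `0.15` around the saddles, `κ ≤ 0.73`.
-/

set_option autoImplicit false
set_option maxHeartbeats 4000000

open Complex Set

namespace Sok

private theorem epsOf {β C N ε v : ℝ} (hβ : 0 < β) (hN : β * N ≤ 1) (hε : 0 ≤ ε) (hC : C ≤ ε * N) (h : v ≤ C * β) : v ≤ ε := by
  have h1 : C * β ≤ ε * N * β := mul_le_mul_of_nonneg_right hC hβ.le
  have h2 : ε * (β * N) ≤ ε * 1 := mul_le_mul_of_nonneg_left hN hε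
  linarith

private theorem bxa0 {β x y : ℝ} (hβ : 0 < β) (hN : β * 29.4 ≤ 1) (hx1 : 0.1 ≤ x) (hx2 : x ≤ 0.29)
    (hy1 : -0.345 ≤ y) (hy2 : y ≤ -0.25) : ‖HH β (x + y * I) - 1‖ ≤ 1.5759 * β := by
  refine J_box 0.1 0.29 0.345 0 (-0.25) 0.5355 0.4507 0.8042 2.2885 0.3578 5.4222 29.4 0.8417 3.167 1.464 0.9901 0.2677 0.1926 0.4979 2.8102 0.2151 0.6384 0.8328 3.6869 0.0003829 0.003478 0.0000004396 0.0000003101 0.001795 0.0000003101 0.0000003101 0.0000003101 1.5759
    hβ hN hx1 hx2 hy1 hy2 (by norm_num) (by norm_num) (by norm_num) (by norm_num) (by norm_num) (by norm_num) (by norm_num) (by norm_num) (by norm_num) (by norm_num) (by norm_num) (by norm_num) (by norm_num) (by norm_num) (by norm_num) (by norm_num) (by norm_num) (by norm_num) (by norm_num) (by norm_num) (by norm_num) (by norm_num) (by norm_num) (by norm_num)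
    (cube_sqrt_geJ (s := 0.8481) (by norm_num) (by norm_num) (by norm_num) (by norm_num))
    (cube_sqrt_geJ (s := 0.947) (by norm_num) (by norm_num) (by norm_num) (by norm_num))
    (by norm_num) (by norm_num) (by norm_num) (by norm_num) (by norm_num) (by norm_num) (by norm_num) (by norm_num) (by norm_num) (by norm_num) (by norm_num) (by norm_num) (by norm_num) (by norm_num) (by norm_num) (by norm_num) (by norm_num) (by norm_num)
    (exp_neg_leJ (r := 0.87) 7 (by norm_num) (by norm_num) (by norm_num) (by norm_num))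
    (exp_neg_leJ (r := 0.662) 5 (by norm_num) (by norm_num) (by norm_num) (by norm_num))
    (exp_neg_leJ (r := 0.638) 14 (by norm_num) (by norm_num) (by norm_num) (by norm_num))
    (exp_neg_leJ (r := 0.99) 14 (by norm_num) (by norm_num) (by norm_num) (by norm_num))
    (exp_neg_leJ (r := 0.323) 6 (by norm_num) (by norm_num) (by norm_num) (by norm_num))
    (exp_neg_leJ (r := 0.99) 14 (by norm_num) (by norm_num) (by norm_num) (by norm_num))
    (exp_neg_leJ (r := 0.99) 14 (by norm_num) (by norm_num) (by norm_num) (by norm_num))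
    (exp_neg_leJ (r := 0.99) 14 (by norm_num) (by norm_num) (by norm_num) (by norm_num))
    (by norm_num)

private theorem bxa1 {β x y : ℝ} (hβ : 0 < β) (hN : β * 29.4 ≤ 1) (hx1 : 0.29 ≤ x) (hx2 : x ≤ 0.55)
    (hy1 : -0.345 ≤ y) (hy2 : y ≤ -0.25) : ‖HH β (x + y * I) - 1‖ ≤ 1.5841 * β := by
  refine J_box 0.29 0.55 0.345 0 (-0.25) 0.6692 0.6493 0.9301 1.7617 0.3848 5.4222 29.4 0.9703 3.926 1.557 0.8901 0.3345 0.2263 0.5629 2.6765 0.3074 0.9015 1.2128 3.5271 0.00005369 0.001291 0.0000003101 0.0000003101 0.000119 0.0000003101 0.0000003101 0.0000003101 1.5841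
    hβ hN hx1 hx2 hy1 hy2 (by norm_num) (by norm_num) (by norm_num) (by norm_num) (by norm_num) (by norm_num) (by norm_num) (by norm_num) (by norm_num) (by norm_num) (by norm_num) (by norm_num) (by norm_num) (by norm_num) (by norm_num) (by norm_num) (by norm_num) (by norm_num) (by norm_num) (by norm_num) (by norm_num) (by norm_num) (by norm_num) (by norm_num)
    (cube_sqrt_geJ (s := 0.8225) (by norm_num) (by norm_num) (by norm_num) (by norm_num))
    (cube_sqrt_geJ (s := 0.9387) (by norm_num) (by norm_num) (by norm_num) (by norm_num))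
    (by norm_num) (by norm_num) (by norm_num) (by norm_num) (by norm_num) (by norm_num) (by norm_num) (by norm_num) (by norm_num) (by norm_num) (by norm_num) (by norm_num) (by norm_num) (by norm_num) (by norm_num) (by norm_num) (by norm_num) (by norm_num)
    (exp_neg_leJ (r := 0.834) 9 (by norm_num) (by norm_num) (by norm_num) (by norm_num))
    (exp_neg_leJ (r := 0.653) 6 (by norm_num) (by norm_num) (by norm_num) (by norm_num))
    (exp_neg_leJ (r := 0.99) 14 (by norm_num) (by norm_num) (by norm_num) (by norm_num))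
    (exp_neg_leJ (r := 0.99) 14 (by norm_num) (by norm_num) (by norm_num) (by norm_num))
    (exp_neg_leJ (r := 0.037) 9 (by norm_num) (by norm_num) (by norm_num) (by norm_num))
    (exp_neg_leJ (r := 0.99) 14 (by norm_num) (by norm_num) (by norm_num) (by norm_num))
    (exp_neg_leJ (r := 0.99) 14 (by norm_num) (by norm_num) (by norm_num) (by norm_num))
    (exp_neg_leJ (r := 0.99) 14 (by norm_num) (by norm_num) (by norm_num) (by norm_num))
    (by norm_num)

private theorem bxa2 {β x y : ℝ} (hβ : 0 < β) (hN : β * 29.4 ≤ 1) (hx1 : 0.55 ≤ x) (hx2 : x ≤ 0.67)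
    (hy1 : -0.345 ≤ y) (hy2 : y ≤ -0.25) : ‖HH β (x + y * I) - 1‖ ≤ 0.8684 * β := by
  refine J_box 0.55 0.67 0.345 0 (-0.25) 0.8523 0.7537 1.0057 1.2746 0.4001 5.4222 29.4 0.8844 3.396 1.494 0.8439 0.4261 0.3005 0.6519 2.6113 0.4336 1.2615 1.7328 3.7633 0.000003629 0.000146 0.0000003101 0.0000003101 0.000002915 0.0000003101 0.0000003101 0.0000003101 0.8684
    hβ hN hx1 hx2 hy1 hy2 (by norm_num) (by norm_num) (by norm_num) (by norm_num) (by norm_num) (by norm_num) (by norm_num) (by norm_num) (by norm_num) (by norm_num) (by norm_num) (by norm_num) (by norm_num) (by norm_num) (by norm_num) (by norm_num) (by norm_num) (by norm_num) (by norm_num) (by norm_num) (by norm_num) (by norm_num) (by norm_num) (by norm_num)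
    (cube_sqrt_geJ (s := 0.8397) (by norm_num) (by norm_num) (by norm_num) (by norm_num))
    (cube_sqrt_geJ (s := 0.9443) (by norm_num) (by norm_num) (by norm_num) (by norm_num))
    (by norm_num) (by norm_num) (by norm_num) (by norm_num) (by norm_num) (by norm_num) (by norm_num) (by norm_num) (by norm_num) (by norm_num) (by norm_num) (by norm_num) (by norm_num) (by norm_num) (by norm_num) (by norm_num) (by norm_num) (by norm_num)
    (exp_neg_leJ (r := 0.527) 12 (by norm_num) (by norm_num) (by norm_num) (by norm_num))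
    (exp_neg_leJ (r := 0.834) 8 (by norm_num) (by norm_num) (by norm_num) (by norm_num))
    (exp_neg_leJ (r := 0.99) 14 (by norm_num) (by norm_num) (by norm_num) (by norm_num))
    (exp_neg_leJ (r := 0.99) 14 (by norm_num) (by norm_num) (by norm_num) (by norm_num))
    (exp_neg_leJ (r := 0.747) 12 (by norm_num) (by norm_num) (by norm_num) (by norm_num))
    (exp_neg_leJ (r := 0.99) 14 (by norm_num) (by norm_num) (by norm_num) (by norm_num))
    (exp_neg_leJ (r := 0.99) 14 (by norm_num) (by norm_num) (by norm_num) (by norm_num))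
    (exp_neg_leJ (r := 0.99) 14 (by norm_num) (by norm_num) (by norm_num) (by norm_num))
    (by norm_num)

theorem JD1_a {β x y : ℝ} (hβ : 0 < β) (hN : β * 29.4 ≤ 1) (hx1 : 0.1 ≤ x) (hx2 : x ≤ 0.67) (hy1 : -0.345 ≤ y) (hy2 : y ≤ -0.25) :
    ‖HH β (x + y * I) - 1‖ ≤ 0.055 := by
  have hym : -0.345 ≤ y := by linarith
  rcases le_total x 0.29 with f0 | g0
  · exact epsOf hβ hN (by norm_num) (by norm_num) (bxa0 hβ hN hx1 f0 hym hy2)
  rcases le_total x 0.55 with f1 | g1
  · exact epsOf hβ hN (by norm_num) (by norm_num) (bxa1 hβ hN g0 f1 hym hy2)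
  exact epsOf hβ hN (by norm_num) (by norm_num) (bxa2 hβ hN g1 hx2 hym hy2)

private theorem bxb0 {β x y : ℝ} (hβ : 0 < β) (hN : β * 29.4 ≤ 1) (hx1 : 0.25 ≤ x) (hx2 : x ≤ 0.63)
    (hy1 : -0.25 ≤ y) (hy2 : y ≤ 0) : ‖HH β (x + y * I) - 1‖ ≤ 1.5596 * β := by
  refine J_box 0.25 0.63 0.25 0 0 0.7085 0.6778 1.182 1.8231 0.4338 5.4222 29.4 0.9567 3.836 1.547 0.947 0.3542 0.2412 0.6992 2.9423 0.3398 0.8461 1.3911 3.3696 0.00003005 0.0008326 0.0000003101 0.0000003101 0.00004602 0.0000003101 0.0000003101 0.0000003101 1.5596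
    hβ hN hx1 hx2 hy1 hy2 (by norm_num) (by norm_num) (by norm_num) (by norm_num) (by norm_num) (by norm_num) (by norm_num) (by norm_num) (by norm_num) (by norm_num) (by norm_num) (by norm_num) (by norm_num) (by norm_num) (by norm_num) (by norm_num) (by norm_num) (by norm_num) (by norm_num) (by norm_num) (by norm_num) (by norm_num) (by norm_num) (by norm_num)
    (cube_sqrt_geJ (s := 0.8252) (by norm_num) (by norm_num) (by norm_num) (by norm_num))
    (cube_sqrt_geJ (s := 0.9396) (by norm_num) (by norm_num) (by norm_num) (by norm_num))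
    (by norm_num) (by norm_num) (by norm_num) (by norm_num) (by norm_num) (by norm_num) (by norm_num) (by norm_num) (by norm_num) (by norm_num) (by norm_num) (by norm_num) (by norm_num) (by norm_num) (by norm_num) (by norm_num) (by norm_num) (by norm_num)
    (exp_neg_leJ (r := 0.413) 10 (by norm_num) (by norm_num) (by norm_num) (by norm_num))
    (exp_neg_leJ (r := 0.091) 7 (by norm_num) (by norm_num) (by norm_num) (by norm_num))
    (exp_neg_leJ (r := 0.99) 14 (by norm_num) (by norm_num) (by norm_num) (by norm_num))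
    (exp_neg_leJ (r := 0.99) 14 (by norm_num) (by norm_num) (by norm_num) (by norm_num))
    (exp_neg_leJ (r := 0.99) 9 (by norm_num) (by norm_num) (by norm_num) (by norm_num))
    (exp_neg_leJ (r := 0.99) 14 (by norm_num) (by norm_num) (by norm_num) (by norm_num))
    (exp_neg_leJ (r := 0.99) 14 (by norm_num) (by norm_num) (by norm_num) (by norm_num))
    (exp_neg_leJ (r := 0.99) 14 (by norm_num) (by norm_num) (by norm_num) (by norm_num))
    (by norm_num)

private theorem bxb1 {β x y : ℝ} (hβ : 0 < β) (hN : β * 29.4 ≤ 1) (hx1 : 0.63 ≤ x) (hx2 : x ≤ 0.67)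
    (hy1 : -0.25 ≤ y) (hy2 : y ≤ 0) : ‖HH β (x + y * I) - 1‖ ≤ 0.4904 * β := by
  refine J_box 0.63 0.67 0.25 0 0 0.9761 0.7152 1.2038 1.1378 0.4378 5.4222 29.4 0.7328 2.666 1.39 0.9316 0.488 0.3688 0.8293 2.9199 0.5244 1.3723 2.1511 4.0279 0.0000005878 0.0000196 0.0000003101 0.0000003101 0.0000003101 0.0000003101 0.0000003101 0.0000003101 0.4904
    hβ hN hx1 hx2 hy1 hy2 (by norm_num) (by norm_num) (by norm_num) (by norm_num) (by norm_num) (by norm_num) (by norm_num) (by norm_num) (by norm_num) (by norm_num) (by norm_num) (by norm_num) (by norm_num) (by norm_num) (by norm_num) (by norm_num) (by norm_num) (by norm_num) (by norm_num) (by norm_num) (by norm_num) (by norm_num) (by norm_num) (by norm_num)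
    (cube_sqrt_geJ (s := 0.8693) (by norm_num) (by norm_num) (by norm_num) (by norm_num))
    (cube_sqrt_geJ (s := 0.954) (by norm_num) (by norm_num) (by norm_num) (by norm_num))
    (by norm_num) (by norm_num) (by norm_num) (by norm_num) (by norm_num) (by norm_num) (by norm_num) (by norm_num) (by norm_num) (by norm_num) (by norm_num) (by norm_num) (by norm_num) (by norm_num) (by norm_num) (by norm_num) (by norm_num) (by norm_num)
    (exp_neg_leJ (r := 0.347) 14 (by norm_num) (by norm_num) (by norm_num) (by norm_num))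
    (exp_neg_leJ (r := 0.842) 10 (by norm_num) (by norm_num) (by norm_num) (by norm_num))
    (exp_neg_leJ (r := 0.99) 14 (by norm_num) (by norm_num) (by norm_num) (by norm_num))
    (exp_neg_leJ (r := 0.99) 14 (by norm_num) (by norm_num) (by norm_num) (by norm_num))
    (exp_neg_leJ (r := 0.99) 14 (by norm_num) (by norm_num) (by norm_num) (by norm_num))
    (exp_neg_leJ (r := 0.99) 14 (by norm_num) (by norm_num) (by norm_num) (by norm_num))
    (exp_neg_leJ (r := 0.99) 14 (by norm_num) (by norm_num) (by norm_num) (by norm_num))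
    (exp_neg_leJ (r := 0.99) 14 (by norm_num) (by norm_num) (by norm_num) (by norm_num))
    (by norm_num)

theorem JD1_b {β x y : ℝ} (hβ : 0 < β) (hN : β * 29.4 ≤ 1) (hx1 : 0.25 ≤ x) (hx2 : x ≤ 0.67) (hy1 : -0.25 ≤ y) (hy2 : y ≤ 0) :
    ‖HH β (x + y * I) - 1‖ ≤ 0.055 := by
  have hym : -0.25 ≤ y := by linarith
  rcases le_total x 0.63 with f0 | g0
  · exact epsOf hβ hN (by norm_num) (by norm_num) (bxb0 hβ hN hx1 f0 hym hy2)
  exact epsOf hβ hN (by norm_num) (by norm_num) (bxb1 hβ hN g0 hx2 hym hy2)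

private theorem bxc0 {β x y : ℝ} (hβ : 0 < β) (hN : β * 29.4 ≤ 1) (hx1 : 0.219 ≤ x) (hx2 : x ≤ 0.67)
    (hy1 : -0 ≤ y) (hy2 : y ≤ 0.285) : ‖HH β (x + y * I) - 1‖ ≤ 0.9026 * β := by
  refine J_box 0.219 0.67 0 0.285 0.285 0.8642 0.7281 1.4492 1.4985 0.4803 5.4222 29.4 0.8426 3.171 1.464 1.1624 0.432 0.3107 1.0832 3.701 0.4323 0.7741 0.7863 1.8279 0.000003054 0.000108 0.0000003101 0.0000003101 0.000003027 0.0000003101 0.0000003101 0.0000003101 0.9026
    hβ hN hx1 hx2 hy1 hy2 (by norm_num) (by norm_num) (by norm_num) (by norm_num) (by norm_num) (by norm_num) (by norm_num) (by norm_num) (by norm_num) (by norm_num) (by norm_num) (by norm_num) (by norm_num) (by norm_num) (by norm_num) (by norm_num) (by norm_num) (by norm_num) (by norm_num) (by norm_num) (by norm_num) (by norm_num) (by norm_num) (by norm_num)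
    (cube_sqrt_geJ (s := 0.848) (by norm_num) (by norm_num) (by norm_num) (by norm_num))
    (cube_sqrt_geJ (s := 0.947) (by norm_num) (by norm_num) (by norm_num) (by norm_num))
    (by norm_num) (by norm_num) (by norm_num) (by norm_num) (by norm_num) (by norm_num) (by norm_num) (by norm_num) (by norm_num) (by norm_num) (by norm_num) (by norm_num) (by norm_num) (by norm_num) (by norm_num) (by norm_num) (by norm_num) (by norm_num)
    (exp_neg_leJ (r := 0.7) 12 (by norm_num) (by norm_num) (by norm_num) (by norm_num))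
    (exp_neg_leJ (r := 0.134) 9 (by norm_num) (by norm_num) (by norm_num) (by norm_num))
    (exp_neg_leJ (r := 0.99) 14 (by norm_num) (by norm_num) (by norm_num) (by norm_num))
    (exp_neg_leJ (r := 0.99) 14 (by norm_num) (by norm_num) (by norm_num) (by norm_num))
    (exp_neg_leJ (r := 0.709) 12 (by norm_num) (by norm_num) (by norm_num) (by norm_num))
    (exp_neg_leJ (r := 0.99) 14 (by norm_num) (by norm_num) (by norm_num) (by norm_num))
    (exp_neg_leJ (r := 0.99) 14 (by norm_num) (by norm_num) (by norm_num) (by norm_num))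
    (exp_neg_leJ (r := 0.99) 14 (by norm_num) (by norm_num) (by norm_num) (by norm_num))
    (by norm_num)

theorem JD1_c {β x y : ℝ} (hβ : 0 < β) (hN : β * 29.4 ≤ 1) (hx1 : 0.219 ≤ x) (hx2 : x ≤ 0.67) (hy1 : 0 ≤ y) (hy2 : y ≤ 0.285) :
    ‖HH β (x + y * I) - 1‖ ≤ 0.055 := by
  have hym : -0 ≤ y := by linarith
  exact epsOf hβ hN (by norm_num) (by norm_num) (bxc0 hβ hN hx1 hx2 hym hy2)

private theorem bxd0 {β x y : ℝ} (hβ : 0 < β) (hN : β * 23.3 ≤ 1) (hx1 : 0.3 ≤ x) (hx2 : x ≤ 0.34)
    (hy1 : -0.386 ≤ y) (hy2 : y ≤ -0.3) : ‖HH β (x + y * I) - 1‖ ≤ 1.0235 * β := by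
  refine J_box 0.3 0.34 0.386 0 (-0.3) 0.6472 0.5144 0.7783 1.6944 0.352 4.8271 23.3 0.7949 2.938 1.432 0.933 0.3235 0.2378 0.5016 2.6489 0.2898 0.9153 1.1214 3.9138 0.0005332 0.003928 0.000008409 0.0000003101 0.00117 0.0000003101 0.0000003101 0.0000003101 1.0235
    hβ hN hx1 hx2 hy1 hy2 (by norm_num) (by norm_num) (by norm_num) (by norm_num) (by norm_num) (by norm_num) (by norm_num) (by norm_num) (by norm_num) (by norm_num) (by norm_num) (by norm_num) (by norm_num) (by norm_num) (by norm_num) (by norm_num) (by norm_num) (by norm_num) (by norm_num) (by norm_num) (by norm_num) (by norm_num) (by norm_num) (by norm_num)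
    (cube_sqrt_geJ (s := 0.8573) (by norm_num) (by norm_num) (by norm_num) (by norm_num))
    (cube_sqrt_geJ (s := 0.95) (by norm_num) (by norm_num) (by norm_num) (by norm_num))
    (by norm_num) (by norm_num) (by norm_num) (by norm_num) (by norm_num) (by norm_num) (by norm_num) (by norm_num) (by norm_num) (by norm_num) (by norm_num) (by norm_num) (by norm_num) (by norm_num) (by norm_num) (by norm_num) (by norm_num) (by norm_num)
    (exp_neg_leJ (r := 0.537) 7 (by norm_num) (by norm_num) (by norm_num) (by norm_num))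
    (exp_neg_leJ (r := 0.54) 5 (by norm_num) (by norm_num) (by norm_num) (by norm_num))
    (exp_neg_leJ (r := 0.687) 11 (by norm_num) (by norm_num) (by norm_num) (by norm_num))
    (exp_neg_leJ (r := 0.99) 14 (by norm_num) (by norm_num) (by norm_num) (by norm_num))
    (exp_neg_leJ (r := 0.752) 6 (by norm_num) (by norm_num) (by norm_num) (by norm_num))
    (exp_neg_leJ (r := 0.99) 14 (by norm_num) (by norm_num) (by norm_num) (by norm_num))
    (exp_neg_leJ (r := 0.99) 14 (by norm_num) (by norm_num) (by norm_num) (by norm_num))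
    (exp_neg_leJ (r := 0.99) 14 (by norm_num) (by norm_num) (by norm_num) (by norm_num))
    (by norm_num)

private theorem bxd1 {β x y : ℝ} (hβ : 0 < β) (hN : β * 23.3 ≤ 1) (hx1 : 0.34 ≤ x) (hx2 : x ≤ 0.4)
    (hy1 : -0.386 ≤ y) (hy2 : y ≤ -0.3) : ‖HH β (x + y * I) - 1‖ ≤ 1.0311 * β := by
  refine J_box 0.34 0.4 0.386 0 (-0.3) 0.6753 0.5559 0.8063 1.6181 0.3583 4.8271 23.3 0.8232 3.074 1.451 0.9099 0.3376 0.2449 0.5153 2.6192 0.3093 0.9707 1.2014 3.8809 0.0003844 0.003329 0.000006108 0.0000003101 0.0007422 0.0000003101 0.0000003101 0.0000003101 1.0311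
    hβ hN hx1 hx2 hy1 hy2 (by norm_num) (by norm_num) (by norm_num) (by norm_num) (by norm_num) (by norm_num) (by norm_num) (by norm_num) (by norm_num) (by norm_num) (by norm_num) (by norm_num) (by norm_num) (by norm_num) (by norm_num) (by norm_num) (by norm_num) (by norm_num) (by norm_num) (by norm_num) (by norm_num) (by norm_num) (by norm_num) (by norm_num)
    (cube_sqrt_geJ (s := 0.8518) (by norm_num) (by norm_num) (by norm_num) (by norm_num))
    (cube_sqrt_geJ (s := 0.9482) (by norm_num) (by norm_num) (by norm_num) (by norm_num))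
    (by norm_num) (by norm_num) (by norm_num) (by norm_num) (by norm_num) (by norm_num) (by norm_num) (by norm_num) (by norm_num) (by norm_num) (by norm_num) (by norm_num) (by norm_num) (by norm_num) (by norm_num) (by norm_num) (by norm_num) (by norm_num)
    (exp_neg_leJ (r := 0.866) 7 (by norm_num) (by norm_num) (by norm_num) (by norm_num))
    (exp_neg_leJ (r := 0.706) 5 (by norm_num) (by norm_num) (by norm_num) (by norm_num))
    (exp_neg_leJ (r := 0.006) 12 (by norm_num) (by norm_num) (by norm_num) (by norm_num))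
    (exp_neg_leJ (r := 0.99) 14 (by norm_num) (by norm_num) (by norm_num) (by norm_num))
    (exp_neg_leJ (r := 0.206) 7 (by norm_num) (by norm_num) (by norm_num) (by norm_num))
    (exp_neg_leJ (r := 0.99) 14 (by norm_num) (by norm_num) (by norm_num) (by norm_num))
    (exp_neg_leJ (r := 0.99) 14 (by norm_num) (by norm_num) (by norm_num) (by norm_num))
    (exp_neg_leJ (r := 0.99) 14 (by norm_num) (by norm_num) (by norm_num) (by norm_num))
    (by norm_num)

private theorem bxd2 {β x y : ℝ} (hβ : 0 < β) (hN : β * 23.3 ≤ 1) (hx1 : 0.4 ≤ x) (hx2 : x ≤ 0.48)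
    (hy1 : -0.386 ≤ y) (hy2 : y ≤ -0.3) : ‖HH β (x + y * I) - 1‖ ≤ 1.0371 * β := by
  refine J_box 0.4 0.48 0.386 0 (-0.3) 0.7176 0.616 0.8488 1.5156 0.3676 4.8271 23.3 0.8585 3.255 1.476 0.8791 0.3587 0.2561 0.5359 2.5783 0.3384 1.0538 1.3214 3.8376 0.0002348 0.002571 0.00000378 0.0000003101 0.0003776 0.0000003101 0.0000003101 0.0000003101 1.0371
    hβ hN hx1 hx2 hy1 hy2 (by norm_num) (by norm_num) (by norm_num) (by norm_num) (by norm_num) (by norm_num) (by norm_num) (by norm_num) (by norm_num) (by norm_num) (by norm_num) (by norm_num) (by norm_num) (by norm_num) (by norm_num) (by norm_num) (by norm_num) (by norm_num) (by norm_num) (by norm_num) (by norm_num) (by norm_num) (by norm_num) (by norm_num)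
    (cube_sqrt_geJ (s := 0.8448) (by norm_num) (by norm_num) (by norm_num) (by norm_num))
    (cube_sqrt_geJ (s := 0.9459) (by norm_num) (by norm_num) (by norm_num) (by norm_num))
    (by norm_num) (by norm_num) (by norm_num) (by norm_num) (by norm_num) (by norm_num) (by norm_num) (by norm_num) (by norm_num) (by norm_num) (by norm_num) (by norm_num) (by norm_num) (by norm_num) (by norm_num) (by norm_num) (by norm_num) (by norm_num)
    (exp_neg_leJ (r := 0.357) 8 (by norm_num) (by norm_num) (by norm_num) (by norm_num))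
    (exp_neg_leJ (r := 0.967) 5 (by norm_num) (by norm_num) (by norm_num) (by norm_num))
    (exp_neg_leJ (r := 0.486) 12 (by norm_num) (by norm_num) (by norm_num) (by norm_num))
    (exp_neg_leJ (r := 0.99) 14 (by norm_num) (by norm_num) (by norm_num) (by norm_num))
    (exp_neg_leJ (r := 0.884) 7 (by norm_num) (by norm_num) (by norm_num) (by norm_num))
    (exp_neg_leJ (r := 0.99) 14 (by norm_num) (by norm_num) (by norm_num) (by norm_num))
    (exp_neg_leJ (r := 0.99) 14 (by norm_num) (by norm_num) (by norm_num) (by norm_num))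
    (exp_neg_leJ (r := 0.99) 14 (by norm_num) (by norm_num) (by norm_num) (by norm_num))
    (by norm_num)

private theorem bxd3 {β x y : ℝ} (hβ : 0 < β) (hN : β * 23.3 ≤ 1) (hx1 : 0.48 ≤ x) (hx2 : x ≤ 0.57)
    (hy1 : -0.386 ≤ y) (hy2 : y ≤ -0.3) : ‖HH β (x + y * I) - 1‖ ≤ 1.0164 * β := by
  refine J_box 0.48 0.57 0.386 0 (-0.3) 0.7739 0.6885 0.9028 1.3957 0.3791 4.8271 23.3 0.8897 3.426 1.498 0.8445 0.3869 0.2721 0.5633 2.531 0.3773 1.1646 1.4814 3.8005 0.0001217 0.001767 0.000001997 0.0000003101 0.0001524 0.0000003101 0.0000003101 0.0000003101 1.0164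
    hβ hN hx1 hx2 hy1 hy2 (by norm_num) (by norm_num) (by norm_num) (by norm_num) (by norm_num) (by norm_num) (by norm_num) (by norm_num) (by norm_num) (by norm_num) (by norm_num) (by norm_num) (by norm_num) (by norm_num) (by norm_num) (by norm_num) (by norm_num) (by norm_num) (by norm_num) (by norm_num) (by norm_num) (by norm_num) (by norm_num) (by norm_num)
    (cube_sqrt_geJ (s := 0.8387) (by norm_num) (by norm_num) (by norm_num) (by norm_num))
    (cube_sqrt_geJ (s := 0.9439) (by norm_num) (by norm_num) (by norm_num) (by norm_num))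
    (by norm_num) (by norm_num) (by norm_num) (by norm_num) (by norm_num) (by norm_num) (by norm_num) (by norm_num) (by norm_num) (by norm_num) (by norm_num) (by norm_num) (by norm_num) (by norm_num) (by norm_num) (by norm_num) (by norm_num) (by norm_num)
    (exp_neg_leJ (r := 0.014) 9 (by norm_num) (by norm_num) (by norm_num) (by norm_num))
    (exp_neg_leJ (r := 0.339) 6 (by norm_num) (by norm_num) (by norm_num) (by norm_num))
    (exp_neg_leJ (r := 0.124) 13 (by norm_num) (by norm_num) (by norm_num) (by norm_num))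
    (exp_neg_leJ (r := 0.99) 14 (by norm_num) (by norm_num) (by norm_num) (by norm_num))
    (exp_neg_leJ (r := 0.791) 8 (by norm_num) (by norm_num) (by norm_num) (by norm_num))
    (exp_neg_leJ (r := 0.99) 14 (by norm_num) (by norm_num) (by norm_num) (by norm_num))
    (exp_neg_leJ (r := 0.99) 14 (by norm_num) (by norm_num) (by norm_num) (by norm_num))
    (exp_neg_leJ (r := 0.99) 14 (by norm_num) (by norm_num) (by norm_num) (by norm_num))
    (by norm_num)

private theorem bxd4 {β x y : ℝ} (hβ : 0 < β) (hN : β * 23.3 ≤ 1) (hx1 : 0.57 ≤ x) (hx2 : x ≤ 0.68)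
    (hy1 : -0.386 ≤ y) (hy2 : y ≤ -0.3) : ‖HH β (x + y * I) - 1‖ ≤ 1.0453 * β := by
  refine J_box 0.57 0.68 0.386 0 (-0.3) 0.8373 0.782 0.976 1.2895 0.3942 4.8271 23.3 0.934 3.69 1.53 0.8022 0.4186 0.2883 0.5941 2.4719 0.421 1.2892 1.6614 3.7263 0.00005819 0.001212 0.0000009756 0.0000003101 0.00005504 0.0000003101 0.0000003101 0.0000003101 1.0453
    hβ hN hx1 hx2 hy1 hy2 (by norm_num) (by norm_num) (by norm_num) (by norm_num) (by norm_num) (by norm_num) (by norm_num) (by norm_num) (by norm_num) (by norm_num) (by norm_num) (by norm_num) (by norm_num) (by norm_num) (by norm_num) (by norm_num) (by norm_num) (by norm_num) (by norm_num) (by norm_num) (by norm_num) (by norm_num) (by norm_num) (by norm_num)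
    (cube_sqrt_geJ (s := 0.8298) (by norm_num) (by norm_num) (by norm_num) (by norm_num))
    (cube_sqrt_geJ (s := 0.941) (by norm_num) (by norm_num) (by norm_num) (by norm_num))
    (by norm_num) (by norm_num) (by norm_num) (by norm_num) (by norm_num) (by norm_num) (by norm_num) (by norm_num) (by norm_num) (by norm_num) (by norm_num) (by norm_num) (by norm_num) (by norm_num) (by norm_num) (by norm_num) (by norm_num) (by norm_num)
    (exp_neg_leJ (r := 0.753) 9 (by norm_num) (by norm_num) (by norm_num) (by norm_num))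
    (exp_neg_leJ (r := 0.717) 6 (by norm_num) (by norm_num) (by norm_num) (by norm_num))
    (exp_neg_leJ (r := 0.842) 13 (by norm_num) (by norm_num) (by norm_num) (by norm_num))
    (exp_neg_leJ (r := 0.99) 14 (by norm_num) (by norm_num) (by norm_num) (by norm_num))
    (exp_neg_leJ (r := 0.809) 9 (by norm_num) (by norm_num) (by norm_num) (by norm_num))
    (exp_neg_leJ (r := 0.99) 14 (by norm_num) (by norm_num) (by norm_num) (by norm_num))
    (exp_neg_leJ (r := 0.99) 14 (by norm_num) (by norm_num) (by norm_num) (by norm_num))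
    (exp_neg_leJ (r := 0.99) 14 (by norm_num) (by norm_num) (by norm_num) (by norm_num))
    (by norm_num)

private theorem bxd5 {β x y : ℝ} (hβ : 0 < β) (hN : β * 23.3 ≤ 1) (hx1 : 0.68 ≤ x) (hx2 : x ≤ 0.8)
    (hy1 : -0.386 ≤ y) (hy2 : y ≤ -0.3) : ‖HH β (x + y * I) - 1‖ ≤ 1.0467 * β := by
  refine J_box 0.68 0.8 0.386 0 (-0.3) 0.9147 0.8883 1.0631 1.1787 0.4114 4.8271 23.3 0.9712 3.933 1.558 0.7561 0.4573 0.3092 0.6317 2.4062 0.4744 1.4415 1.8814 3.6574 0.0000236 0.0007437 0.000000406 0.0000003101 0.00001584 0.0000003101 0.0000003101 0.0000003101 1.0467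
    hβ hN hx1 hx2 hy1 hy2 (by norm_num) (by norm_num) (by norm_num) (by norm_num) (by norm_num) (by norm_num) (by norm_num) (by norm_num) (by norm_num) (by norm_num) (by norm_num) (by norm_num) (by norm_num) (by norm_num) (by norm_num) (by norm_num) (by norm_num) (by norm_num) (by norm_num) (by norm_num) (by norm_num) (by norm_num) (by norm_num) (by norm_num)
    (cube_sqrt_geJ (s := 0.8223) (by norm_num) (by norm_num) (by norm_num) (by norm_num))
    (cube_sqrt_geJ (s := 0.9386) (by norm_num) (by norm_num) (by norm_num) (by norm_num))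
    (by norm_num) (by norm_num) (by norm_num) (by norm_num) (by norm_num) (by norm_num) (by norm_num) (by norm_num) (by norm_num) (by norm_num) (by norm_num) (by norm_num) (by norm_num) (by norm_num) (by norm_num) (by norm_num) (by norm_num) (by norm_num)
    (exp_neg_leJ (r := 0.655) 10 (by norm_num) (by norm_num) (by norm_num) (by norm_num))
    (exp_neg_leJ (r := 0.204) 7 (by norm_num) (by norm_num) (by norm_num) (by norm_num))
    (exp_neg_leJ (r := 0.718) 14 (by norm_num) (by norm_num) (by norm_num) (by norm_num))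
    (exp_neg_leJ (r := 0.99) 14 (by norm_num) (by norm_num) (by norm_num) (by norm_num))
    (exp_neg_leJ (r := 0.053) 11 (by norm_num) (by norm_num) (by norm_num) (by norm_num))
    (exp_neg_leJ (r := 0.99) 14 (by norm_num) (by norm_num) (by norm_num) (by norm_num))
    (exp_neg_leJ (r := 0.99) 14 (by norm_num) (by norm_num) (by norm_num) (by norm_num))
    (exp_neg_leJ (r := 0.99) 14 (by norm_num) (by norm_num) (by norm_num) (by norm_num))
    (by norm_num)

private theorem bxd6 {β x y : ℝ} (hβ : 0 < β) (hN : β * 23.3 ≤ 1) (hx1 : 0.8 ≤ x) (hx2 : x ≤ 0.92)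
    (hy1 : -0.386 ≤ y) (hy2 : y ≤ -0.3) : ‖HH β (x + y * I) - 1‖ ≤ 1.0228 * β := by
  refine J_box 0.8 0.92 0.386 0 (-0.3) 0.9992 0.9977 1.1561 1.0766 0.429 4.8271 23.3 0.9985 4.123 1.579 0.7099 0.4995 0.3333 0.6728 2.3397 0.5327 1.6076 2.1214 3.6 0.000008829 0.0004249 0.0000003101 0.0000003101 0.000004074 0.0000003101 0.0000003101 0.0000003101 1.0228
    hβ hN hx1 hx2 hy1 hy2 (by norm_num) (by norm_num) (by norm_num) (by norm_num) (by norm_num) (by norm_num) (by norm_num) (by norm_num) (by norm_num) (by norm_num) (by norm_num) (by norm_num) (by norm_num) (by norm_num) (by norm_num) (by norm_num) (by norm_num) (by norm_num) (by norm_num) (by norm_num) (by norm_num) (by norm_num) (by norm_num) (by norm_num)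
    (cube_sqrt_geJ (s := 0.8168) (by norm_num) (by norm_num) (by norm_num) (by norm_num))
    (cube_sqrt_geJ (s := 0.9368) (by norm_num) (by norm_num) (by norm_num) (by norm_num))
    (by norm_num) (by norm_num) (by norm_num) (by norm_num) (by norm_num) (by norm_num) (by norm_num) (by norm_num) (by norm_num) (by norm_num) (by norm_num) (by norm_num) (by norm_num) (by norm_num) (by norm_num) (by norm_num) (by norm_num) (by norm_num)
    (exp_neg_leJ (r := 0.638) 11 (by norm_num) (by norm_num) (by norm_num) (by norm_num))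
    (exp_neg_leJ (r := 0.765) 7 (by norm_num) (by norm_num) (by norm_num) (by norm_num))
    (exp_neg_leJ (r := 0.99) 14 (by norm_num) (by norm_num) (by norm_num) (by norm_num))
    (exp_neg_leJ (r := 0.99) 14 (by norm_num) (by norm_num) (by norm_num) (by norm_num))
    (exp_neg_leJ (r := 0.411) 12 (by norm_num) (by norm_num) (by norm_num) (by norm_num))
    (exp_neg_leJ (r := 0.99) 14 (by norm_num) (by norm_num) (by norm_num) (by norm_num))
    (exp_neg_leJ (r := 0.99) 14 (by norm_num) (by norm_num) (by norm_num) (by norm_num))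
    (exp_neg_leJ (r := 0.99) 14 (by norm_num) (by norm_num) (by norm_num) (by norm_num))
    (by norm_num)

private theorem bxd7 {β x y : ℝ} (hβ : 0 < β) (hN : β * 23.3 ≤ 1) (hx1 : 0.92 ≤ x) (hx2 : x ≤ 1.045)
    (hy1 : -0.386 ≤ y) (hy2 : y ≤ -0.3) : ‖HH β (x + y * I) - 1‖ ≤ 1.0208 * β := by
  refine J_box 0.92 1.045 0.386 0 (-0.3) 1.0837 1.1141 1.2578 0.9942 0.4475 4.8271 23.3 1.0281 4.344 1.602 0.6618 0.5418 0.3561 0.7139 2.2697 0.591 1.7738 2.3614 3.5236 0.000003297 0.0002493 0.0000003101 0.0000003101 0.000001048 0.0000003101 0.0000003101 0.0000003101 1.0208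
    hβ hN hx1 hx2 hy1 hy2 (by norm_num) (by norm_num) (by norm_num) (by norm_num) (by norm_num) (by norm_num) (by norm_num) (by norm_num) (by norm_num) (by norm_num) (by norm_num) (by norm_num) (by norm_num) (by norm_num) (by norm_num) (by norm_num) (by norm_num) (by norm_num) (by norm_num) (by norm_num) (by norm_num) (by norm_num) (by norm_num) (by norm_num)
    (cube_sqrt_geJ (s := 0.8107) (by norm_num) (by norm_num) (by norm_num) (by norm_num))
    (cube_sqrt_geJ (s := 0.9349) (by norm_num) (by norm_num) (by norm_num) (by norm_num))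
    (by norm_num) (by norm_num) (by norm_num) (by norm_num) (by norm_num) (by norm_num) (by norm_num) (by norm_num) (by norm_num) (by norm_num) (by norm_num) (by norm_num) (by norm_num) (by norm_num) (by norm_num) (by norm_num) (by norm_num) (by norm_num)
    (exp_neg_leJ (r := 0.623) 12 (by norm_num) (by norm_num) (by norm_num) (by norm_num))
    (exp_neg_leJ (r := 0.297) 8 (by norm_num) (by norm_num) (by norm_num) (by norm_num))
    (exp_neg_leJ (r := 0.99) 14 (by norm_num) (by norm_num) (by norm_num) (by norm_num))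
    (exp_neg_leJ (r := 0.99) 14 (by norm_num) (by norm_num) (by norm_num) (by norm_num))
    (exp_neg_leJ (r := 0.77) 13 (by norm_num) (by norm_num) (by norm_num) (by norm_num))
    (exp_neg_leJ (r := 0.99) 14 (by norm_num) (by norm_num) (by norm_num) (by norm_num))
    (exp_neg_leJ (r := 0.99) 14 (by norm_num) (by norm_num) (by norm_num) (by norm_num))
    (exp_neg_leJ (r := 0.99) 14 (by norm_num) (by norm_num) (by norm_num) (by norm_num))
    (by norm_num)

theorem JD1_d {β x y : ℝ} (hβ : 0 < β) (hN : β * 23.3 ≤ 1) (hx1 : 0.3 ≤ x) (hx2 : x ≤ 1.045) (hy1 : -0.386 ≤ y) (hy2 : y ≤ -0.3) :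
    ‖HH β (x + y * I) - 1‖ ≤ 0.045 := by
  have hym : -0.386 ≤ y := by linarith
  rcases le_total x 0.34 with f0 | g0
  · exact epsOf hβ hN (by norm_num) (by norm_num) (bxd0 hβ hN hx1 f0 hym hy2)
  rcases le_total x 0.4 with f1 | g1
  · exact epsOf hβ hN (by norm_num) (by norm_num) (bxd1 hβ hN g0 f1 hym hy2)
  rcases le_total x 0.48 with f2 | g2
  · exact epsOf hβ hN (by norm_num) (by norm_num) (bxd2 hβ hN g1 f2 hym hy2)
  rcases le_total x 0.57 with f3 | g3
  · exact epsOf hβ hN (by norm_num) (by norm_num) (bxd3 hβ hN g2 f3 hym hy2)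
  rcases le_total x 0.68 with f4 | g4
  · exact epsOf hβ hN (by norm_num) (by norm_num) (bxd4 hβ hN g3 f4 hym hy2)
  rcases le_total x 0.8 with f5 | g5
  · exact epsOf hβ hN (by norm_num) (by norm_num) (bxd5 hβ hN g4 f5 hym hy2)
  rcases le_total x 0.92 with f6 | g6
  · exact epsOf hβ hN (by norm_num) (by norm_num) (bxd6 hβ hN g5 f6 hym hy2)
  exact epsOf hβ hN (by norm_num) (by norm_num) (bxd7 hβ hN g6 hx2 hym hy2)

private theorem bxe0 {β x y : ℝ} (hβ : 0 < β) (hN : β * 23.3 ≤ 1) (hx1 : 0.22 ≤ x) (hx2 : x ≤ 0.4)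
    (hy1 : -0.3 ≤ y) (hy2 : y ≤ -0.1) : ‖HH β (x + y * I) - 1‖ ≤ 1.0432 * β := by
  refine J_box 0.22 0.4 0.3 0 (-0.1) 0.6519 0.5001 0.9849 1.8855 0.396 4.8271 23.3 0.7672 2.812 1.413 0.9893 0.3259 0.2425 0.61 2.9042 0.2979 0.8046 1.1952 3.7926 0.0005042 0.00352 0.0000006727 0.0000003101 0.0009701 0.0000003101 0.0000003101 0.0000003101 1.0432
    hβ hN hx1 hx2 hy1 hy2 (by norm_num) (by norm_num) (by norm_num) (by norm_num) (by norm_num) (by norm_num) (by norm_num) (by norm_num) (by norm_num) (by norm_num) (by norm_num) (by norm_num) (by norm_num) (by norm_num) (by norm_num) (by norm_num) (by norm_num) (by norm_num) (by norm_num) (by norm_num) (by norm_num) (by norm_num) (by norm_num) (by norm_num)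
    (cube_sqrt_geJ (s := 0.8627) (by norm_num) (by norm_num) (by norm_num) (by norm_num))
    (cube_sqrt_geJ (s := 0.9518) (by norm_num) (by norm_num) (by norm_num) (by norm_num))
    (by norm_num) (by norm_num) (by norm_num) (by norm_num) (by norm_num) (by norm_num) (by norm_num) (by norm_num) (by norm_num) (by norm_num) (by norm_num) (by norm_num) (by norm_num) (by norm_num) (by norm_num) (by norm_num) (by norm_num) (by norm_num)
    (exp_neg_leJ (r := 0.593) 7 (by norm_num) (by norm_num) (by norm_num) (by norm_num))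
    (exp_neg_leJ (r := 0.65) 5 (by norm_num) (by norm_num) (by norm_num) (by norm_num))
    (exp_neg_leJ (r := 0.212) 14 (by norm_num) (by norm_num) (by norm_num) (by norm_num))
    (exp_neg_leJ (r := 0.99) 14 (by norm_num) (by norm_num) (by norm_num) (by norm_num))
    (exp_neg_leJ (r := 0.941) 6 (by norm_num) (by norm_num) (by norm_num) (by norm_num))
    (exp_neg_leJ (r := 0.99) 14 (by norm_num) (by norm_num) (by norm_num) (by norm_num))
    (exp_neg_leJ (r := 0.99) 14 (by norm_num) (by norm_num) (by norm_num) (by norm_num))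
    (exp_neg_leJ (r := 0.99) 14 (by norm_num) (by norm_num) (by norm_num) (by norm_num))
    (by norm_num)

private theorem bxe1 {β x y : ℝ} (hβ : 0 < β) (hN : β * 23.3 ≤ 1) (hx1 : 0.4 ≤ x) (hx2 : x ≤ 0.6)
    (hy1 : -0.3 ≤ y) (hy2 : y ≤ -0.1) : ‖HH β (x + y * I) - 1‖ ≤ 1.0143 * β := by
  refine J_box 0.4 0.6 0.3 0 (-0.1) 0.7786 0.6709 1.0817 1.5139 0.415 4.8271 23.3 0.8617 3.272 1.478 0.9124 0.3892 0.2774 0.6716 2.7965 0.3854 1.0538 1.5552 3.6883 0.0001153 0.001561 0.0000003101 0.0000003101 0.0001265 0.0000003101 0.0000003101 0.0000003101 1.0143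
    hβ hN hx1 hx2 hy1 hy2 (by norm_num) (by norm_num) (by norm_num) (by norm_num) (by norm_num) (by norm_num) (by norm_num) (by norm_num) (by norm_num) (by norm_num) (by norm_num) (by norm_num) (by norm_num) (by norm_num) (by norm_num) (by norm_num) (by norm_num) (by norm_num) (by norm_num) (by norm_num) (by norm_num) (by norm_num) (by norm_num) (by norm_num)
    (cube_sqrt_geJ (s := 0.8442) (by norm_num) (by norm_num) (by norm_num) (by norm_num))
    (cube_sqrt_geJ (s := 0.9457) (by norm_num) (by norm_num) (by norm_num) (by norm_num))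
    (by norm_num) (by norm_num) (by norm_num) (by norm_num) (by norm_num) (by norm_num) (by norm_num) (by norm_num) (by norm_num) (by norm_num) (by norm_num) (by norm_num) (by norm_num) (by norm_num) (by norm_num) (by norm_num) (by norm_num) (by norm_num)
    (exp_neg_leJ (r := 0.068) 9 (by norm_num) (by norm_num) (by norm_num) (by norm_num))
    (exp_neg_leJ (r := 0.463) 6 (by norm_num) (by norm_num) (by norm_num) (by norm_num))
    (exp_neg_leJ (r := 0.99) 14 (by norm_num) (by norm_num) (by norm_num) (by norm_num))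
    (exp_neg_leJ (r := 0.99) 14 (by norm_num) (by norm_num) (by norm_num) (by norm_num))
    (exp_neg_leJ (r := 0.979) 8 (by norm_num) (by norm_num) (by norm_num) (by norm_num))
    (exp_neg_leJ (r := 0.99) 14 (by norm_num) (by norm_num) (by norm_num) (by norm_num))
    (exp_neg_leJ (r := 0.99) 14 (by norm_num) (by norm_num) (by norm_num) (by norm_num))
    (exp_neg_leJ (r := 0.99) 14 (by norm_num) (by norm_num) (by norm_num) (by norm_num))
    (by norm_num)

private theorem bxe2 {β x y : ℝ} (hβ : 0 < β) (hN : β * 23.3 ≤ 1) (hx1 : 0.6 ≤ x) (hx2 : x ≤ 0.82)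
    (hy1 : -0.3 ≤ y) (hy2 : y ≤ -0.1) : ‖HH β (x + y * I) - 1‖ ≤ 1.0443 * β := by
  refine J_box 0.6 0.82 0.3 0 (-0.1) 0.9195 0.8732 1.2176 1.2515 0.4403 4.8271 23.3 0.9497 3.79 1.542 0.8278 0.4597 0.3142 0.7401 2.674 0.4825 1.3307 1.9552 3.5384 0.00002232 0.0006622 0.0000003101 0.0000003101 0.00001312 0.0000003101 0.0000003101 0.0000003101 1.0443
    hβ hN hx1 hx2 hy1 hy2 (by norm_num) (by norm_num) (by norm_num) (by norm_num) (by norm_num) (by norm_num) (by norm_num) (by norm_num) (by norm_num) (by norm_num) (by norm_num) (by norm_num) (by norm_num) (by norm_num) (by norm_num) (by norm_num) (by norm_num) (by norm_num) (by norm_num) (by norm_num) (by norm_num) (by norm_num) (by norm_num) (by norm_num)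
    (cube_sqrt_geJ (s := 0.8267) (by norm_num) (by norm_num) (by norm_num) (by norm_num))
    (cube_sqrt_geJ (s := 0.94) (by norm_num) (by norm_num) (by norm_num) (by norm_num))
    (by norm_num) (by norm_num) (by norm_num) (by norm_num) (by norm_num) (by norm_num) (by norm_num) (by norm_num) (by norm_num) (by norm_num) (by norm_num) (by norm_num) (by norm_num) (by norm_num) (by norm_num) (by norm_num) (by norm_num) (by norm_num)
    (exp_neg_leJ (r := 0.711) 10 (by norm_num) (by norm_num) (by norm_num) (by norm_num))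
    (exp_neg_leJ (r := 0.32) 7 (by norm_num) (by norm_num) (by norm_num) (by norm_num))
    (exp_neg_leJ (r := 0.99) 14 (by norm_num) (by norm_num) (by norm_num) (by norm_num))
    (exp_neg_leJ (r := 0.99) 14 (by norm_num) (by norm_num) (by norm_num) (by norm_num))
    (exp_neg_leJ (r := 0.242) 11 (by norm_num) (by norm_num) (by norm_num) (by norm_num))
    (exp_neg_leJ (r := 0.99) 14 (by norm_num) (by norm_num) (by norm_num) (by norm_num))
    (exp_neg_leJ (r := 0.99) 14 (by norm_num) (by norm_num) (by norm_num) (by norm_num))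
    (exp_neg_leJ (r := 0.99) 14 (by norm_num) (by norm_num) (by norm_num) (by norm_num))
    (by norm_num)

private theorem bxe3 {β x y : ℝ} (hβ : 0 < β) (hN : β * 23.3 ≤ 1) (hx1 : 0.82 ≤ x) (hx2 : x ≤ 1.045)
    (hy1 : -0.3 ≤ y) (hy2 : y ≤ -0.1) : ‖HH β (x + y * I) - 1‖ ≤ 1.0356 * β := by
  refine J_box 0.82 1.045 0.3 0 (-0.1) 1.0744 1.0873 1.3792 1.0546 0.4686 4.8271 23.3 1.0121 4.223 1.59 0.7412 0.5371 0.3559 0.8154 2.5469 0.5894 1.6353 2.3952 3.3964 0.000003676 0.0002506 0.0000003101 0.0000003101 0.000001088 0.0000003101 0.0000003101 0.0000003101 1.0356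
    hβ hN hx1 hx2 hy1 hy2 (by norm_num) (by norm_num) (by norm_num) (by norm_num) (by norm_num) (by norm_num) (by norm_num) (by norm_num) (by norm_num) (by norm_num) (by norm_num) (by norm_num) (by norm_num) (by norm_num) (by norm_num) (by norm_num) (by norm_num) (by norm_num) (by norm_num) (by norm_num) (by norm_num) (by norm_num) (by norm_num) (by norm_num)
    (cube_sqrt_geJ (s := 0.814) (by norm_num) (by norm_num) (by norm_num) (by norm_num))
    (cube_sqrt_geJ (s := 0.9359) (by norm_num) (by norm_num) (by norm_num) (by norm_num))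
    (by norm_num) (by norm_num) (by norm_num) (by norm_num) (by norm_num) (by norm_num) (by norm_num) (by norm_num) (by norm_num) (by norm_num) (by norm_num) (by norm_num) (by norm_num) (by norm_num) (by norm_num) (by norm_num) (by norm_num) (by norm_num)
    (exp_neg_leJ (r := 0.514) 12 (by norm_num) (by norm_num) (by norm_num) (by norm_num))
    (exp_neg_leJ (r := 0.292) 8 (by norm_num) (by norm_num) (by norm_num) (by norm_num))
    (exp_neg_leJ (r := 0.99) 14 (by norm_num) (by norm_num) (by norm_num) (by norm_num))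
    (exp_neg_leJ (r := 0.99) 14 (by norm_num) (by norm_num) (by norm_num) (by norm_num))
    (exp_neg_leJ (r := 0.733) 13 (by norm_num) (by norm_num) (by norm_num) (by norm_num))
    (exp_neg_leJ (r := 0.99) 14 (by norm_num) (by norm_num) (by norm_num) (by norm_num))
    (exp_neg_leJ (r := 0.99) 14 (by norm_num) (by norm_num) (by norm_num) (by norm_num))
    (exp_neg_leJ (r := 0.99) 14 (by norm_num) (by norm_num) (by norm_num) (by norm_num))
    (by norm_num)

theorem JD1_e {β x y : ℝ} (hβ : 0 < β) (hN : β * 23.3 ≤ 1) (hx1 : 0.22 ≤ x) (hx2 : x ≤ 1.045) (hy1 : -0.3 ≤ y) (hy2 : y ≤ -0.1) :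
    ‖HH β (x + y * I) - 1‖ ≤ 0.045 := by
  have hym : -0.3 ≤ y := by linarith
  rcases le_total x 0.4 with f0 | g0
  · exact epsOf hβ hN (by norm_num) (by norm_num) (bxe0 hβ hN hx1 f0 hym hy2)
  rcases le_total x 0.6 with f1 | g1
  · exact epsOf hβ hN (by norm_num) (by norm_num) (bxe1 hβ hN g0 f1 hym hy2)
  rcases le_total x 0.82 with f2 | g2
  · exact epsOf hβ hN (by norm_num) (by norm_num) (bxe2 hβ hN g1 f2 hym hy2)
  exact epsOf hβ hN (by norm_num) (by norm_num) (bxe3 hβ hN g2 hx2 hym hy2)

private theorem bxf0 {β x y : ℝ} (hβ : 0 < β) (hN : β * 23.3 ≤ 1) (hx1 : 0.22 ≤ x) (hx2 : x ≤ 0.57)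
    (hy1 : -0.1 ≤ y) (hy2 : y ≤ 0.325) : ‖HH β (x + y * I) - 1‖ ≤ 1.0239 * β := by
  refine J_box 0.22 0.57 0.1 0.325 0.325 0.7939 0.6562 1.4425 1.6979 0.4792 4.8271 23.3 0.8266 3.091 1.453 1.1085 0.3969 0.2875 0.9257 3.4374 0.3741 0.7714 0.3449 1.8369 0.00009641 0.001235 0.0000003101 0.0000003101 0.0001641 0.0000003101 0.0003237 0.0000003101 1.0239
    hβ hN hx1 hx2 hy1 hy2 (by norm_num) (by norm_num) (by norm_num) (by norm_num) (by norm_num) (by norm_num) (by norm_num) (by norm_num) (by norm_num) (by norm_num) (by norm_num) (by norm_num) (by norm_num) (by norm_num) (by norm_num) (by norm_num) (by norm_num) (by norm_num) (by norm_num) (by norm_num) (by norm_num) (by norm_num) (by norm_num) (by norm_num)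
    (cube_sqrt_geJ (s := 0.8511) (by norm_num) (by norm_num) (by norm_num) (by norm_num))
    (cube_sqrt_geJ (s := 0.948) (by norm_num) (by norm_num) (by norm_num) (by norm_num))
    (by norm_num) (by norm_num) (by norm_num) (by norm_num) (by norm_num) (by norm_num) (by norm_num) (by norm_num) (by norm_num) (by norm_num) (by norm_num) (by norm_num) (by norm_num) (by norm_num) (by norm_num) (by norm_num) (by norm_num) (by norm_num)
    (exp_neg_leJ (r := 0.247) 9 (by norm_num) (by norm_num) (by norm_num) (by norm_num))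
    (exp_neg_leJ (r := 0.698) 6 (by norm_num) (by norm_num) (by norm_num) (by norm_num))
    (exp_neg_leJ (r := 0.99) 14 (by norm_num) (by norm_num) (by norm_num) (by norm_num))
    (exp_neg_leJ (r := 0.99) 14 (by norm_num) (by norm_num) (by norm_num) (by norm_num))
    (exp_neg_leJ (r := 0.716) 8 (by norm_num) (by norm_num) (by norm_num) (by norm_num))
    (exp_neg_leJ (r := 0.99) 14 (by norm_num) (by norm_num) (by norm_num) (by norm_num))
    (exp_neg_leJ (r := 0.036) 8 (by norm_num) (by norm_num) (by norm_num) (by norm_num))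
    (exp_neg_leJ (r := 0.99) 14 (by norm_num) (by norm_num) (by norm_num) (by norm_num))
    (by norm_num)

private theorem bxf1 {β x y : ℝ} (hβ : 0 < β) (hN : β * 23.3 ≤ 1) (hx1 : 0.57 ≤ x) (hx2 : x ≤ 0.95)
    (hy1 : -0.1 ≤ y) (hy2 : y ≤ 0.325) : ‖HH β (x + y * I) - 1‖ ≤ 1.0366 * β := by
  refine J_box 0.57 0.95 0.1 0.325 0.325 1.0404 1.0041 1.6304 1.2033 0.5094 4.8271 23.3 0.9652 3.892 1.554 0.9624 0.5201 0.3528 1.0455 3.2263 0.5441 1.256 1.0449 1.5912 0.000005461 0.0002693 0.0000003101 0.0000003101 0.000003125 0.0000003101 0.0000003101 0.0000003101 1.0366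
    hβ hN hx1 hx2 hy1 hy2 (by norm_num) (by norm_num) (by norm_num) (by norm_num) (by norm_num) (by norm_num) (by norm_num) (by norm_num) (by norm_num) (by norm_num) (by norm_num) (by norm_num) (by norm_num) (by norm_num) (by norm_num) (by norm_num) (by norm_num) (by norm_num) (by norm_num) (by norm_num) (by norm_num) (by norm_num) (by norm_num) (by norm_num)
    (cube_sqrt_geJ (s := 0.8235) (by norm_num) (by norm_num) (by norm_num) (by norm_num))
    (cube_sqrt_geJ (s := 0.939) (by norm_num) (by norm_num) (by norm_num) (by norm_num))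
    (by norm_num) (by norm_num) (by norm_num) (by norm_num) (by norm_num) (by norm_num) (by norm_num) (by norm_num) (by norm_num) (by norm_num) (by norm_num) (by norm_num) (by norm_num) (by norm_num) (by norm_num) (by norm_num) (by norm_num) (by norm_num)
    (exp_neg_leJ (r := 0.118) 12 (by norm_num) (by norm_num) (by norm_num) (by norm_num))
    (exp_neg_leJ (r := 0.22) 8 (by norm_num) (by norm_num) (by norm_num) (by norm_num))
    (exp_neg_leJ (r := 0.99) 14 (by norm_num) (by norm_num) (by norm_num) (by norm_num))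
    (exp_neg_leJ (r := 0.99) 14 (by norm_num) (by norm_num) (by norm_num) (by norm_num))
    (exp_neg_leJ (r := 0.677) 12 (by norm_num) (by norm_num) (by norm_num) (by norm_num))
    (exp_neg_leJ (r := 0.99) 14 (by norm_num) (by norm_num) (by norm_num) (by norm_num))
    (exp_neg_leJ (r := 0.99) 14 (by norm_num) (by norm_num) (by norm_num) (by norm_num))
    (exp_neg_leJ (r := 0.99) 14 (by norm_num) (by norm_num) (by norm_num) (by norm_num))
    (by norm_num)

private theorem bxf2 {β x y : ℝ} (hβ : 0 < β) (hN : β * 23.3 ≤ 1) (hx1 : 0.95 ≤ x) (hx2 : x ≤ 1.045)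
    (hy1 : -0.1 ≤ y) (hy2 : y ≤ 0.325) : ‖HH β (x + y * I) - 1‖ ≤ 0.5116 * β := by
  refine J_box 0.95 1.045 0.1 0.325 0.325 1.3079 1.0944 1.6875 0.8685 0.5183 4.8271 23.3 0.8368 3.142 1.46 0.9258 0.6539 0.4715 1.1756 3.1727 0.7286 1.7822 1.8049 2.1057 0.0000003101 0.00001702 0.0000003101 0.0000003101 0.0000003101 0.0000003101 0.0000003101 0.0000003101 0.5116
    hβ hN hx1 hx2 hy1 hy2 (by norm_num) (by norm_num) (by norm_num) (by norm_num) (by norm_num) (by norm_num) (by norm_num) (by norm_num) (by norm_num) (by norm_num) (by norm_num) (by norm_num) (by norm_num) (by norm_num) (by norm_num) (by norm_num) (by norm_num) (by norm_num) (by norm_num) (by norm_num) (by norm_num) (by norm_num) (by norm_num) (by norm_num)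
    (cube_sqrt_geJ (s := 0.8491) (by norm_num) (by norm_num) (by norm_num) (by norm_num))
    (cube_sqrt_geJ (s := 0.9473) (by norm_num) (by norm_num) (by norm_num) (by norm_num))
    (by norm_num) (by norm_num) (by norm_num) (by norm_num) (by norm_num) (by norm_num) (by norm_num) (by norm_num) (by norm_num) (by norm_num) (by norm_num) (by norm_num) (by norm_num) (by norm_num) (by norm_num) (by norm_num) (by norm_num) (by norm_num)
    (exp_neg_leJ (r := 0.99) 14 (by norm_num) (by norm_num) (by norm_num) (by norm_num))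
    (exp_neg_leJ (r := 0.985) 10 (by norm_num) (by norm_num) (by norm_num) (by norm_num))
    (exp_neg_leJ (r := 0.99) 14 (by norm_num) (by norm_num) (by norm_num) (by norm_num))
    (exp_neg_leJ (r := 0.99) 14 (by norm_num) (by norm_num) (by norm_num) (by norm_num))
    (exp_neg_leJ (r := 0.99) 14 (by norm_num) (by norm_num) (by norm_num) (by norm_num))
    (exp_neg_leJ (r := 0.99) 14 (by norm_num) (by norm_num) (by norm_num) (by norm_num))
    (exp_neg_leJ (r := 0.99) 14 (by norm_num) (by norm_num) (by norm_num) (by norm_num))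
    (exp_neg_leJ (r := 0.99) 14 (by norm_num) (by norm_num) (by norm_num) (by norm_num))
    (by norm_num)

theorem JD1_f {β x y : ℝ} (hβ : 0 < β) (hN : β * 23.3 ≤ 1) (hx1 : 0.22 ≤ x) (hx2 : x ≤ 1.045) (hy1 : -0.1 ≤ y) (hy2 : y ≤ 0.325) :
    ‖HH β (x + y * I) - 1‖ ≤ 0.045 := by
  have hym : -0.1 ≤ y := by linarith
  rcases le_total x 0.57 with f0 | g0
  · exact epsOf hβ hN (by norm_num) (by norm_num) (bxf0 hβ hN hx1 f0 hym hy2)
  rcases le_total x 0.95 with f1 | g1
  · exact epsOf hβ hN (by norm_num) (by norm_num) (bxf1 hβ hN g0 f1 hym hy2)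
  exact epsOf hβ hN (by norm_num) (by norm_num) (bxf2 hβ hN g1 hx2 hym hy2)

/-- discs of radius `0.15` around the saddles, `κ ≤ 0.455` (`β ≤ 1/29.4`) -/
theorem JD_I {β x y : ℝ} (hβ : 0 < β) (hN : β * 29.4 ≤ 1) (hx1 : 0 ≤ x) (hx2 : x ≤ 0.67) (hy1 : -0.345 ≤ y) (hy2 : y ≤ 0.285) :
    ‖HH β (x + y * I) - 1‖ ≤ 0.055 := by
  rcases le_total ‖(x + y * I : ℂ)‖ 0.36 with h | h
  · refine (J45_36b hβ (by linarith) h).trans ?_
    linarith
  · have hn2 : ‖(x + y * I : ℂ)‖ ^ 2 = x ^ 2 + y ^ 2 := by
      rw [← Complex.normSq_eq_norm_sq, Complex.normSq_apply]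
      simp
      ring
    have h2 : (0.36 : ℝ) ^ 2 ≤ x ^ 2 + y ^ 2 := by
      rw [← hn2]; exact pow_le_pow_left₀ (by norm_num) h 2
    rcases le_total y (-0.25) with a | a
    · refine JD1_a hβ hN ?_ hx2 hy1 a
      by_contra hc
      push Not at hc
      nlinarith
    rcases le_total y 0 with b | b
    · refine JD1_b hβ hN ?_ hx2 a b
      by_contra hc
      push Not at hc
      nlinarith
    · refine JD1_c hβ hN ?_ hx2 b hy2
      by_contra hc
      push Not at hc
      nlinarith

/-- discs of radius `0.15` around the saddles, `0.455 ≤ κ ≤ 0.73` (`β ≤ 1/23.3`) -/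
theorem JD_II {β x y : ℝ} (hβ : 0 < β) (hN : β * 23.3 ≤ 1) (hx1 : 0.22 ≤ x) (hx1' : y ≤ -0.3 → 0.3 ≤ x) (hx2 : x ≤ 1.045)
    (hy1 : -0.386 ≤ y) (hy2 : y ≤ 0.325) :
    ‖HH β (x + y * I) - 1‖ ≤ 0.045 := by
  rcases le_total y (-0.3) with a | a
  · exact JD1_d hβ hN (hx1' a) hx2 hy1 a
  rcases le_total y (-0.1) with b | b
  · exact JD1_e hβ hN hx1 hx2 a b
  · exact JD1_f hβ hN hx1 hx2 b hy2

end Sok
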