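import Mathlib
import Pool.Agent.Lib.MP_816dec_an.JBox

/-!
MP_816dec_an: rectangles containing the discs of radius `0.15` around the saddles, `0.73 ≤ κ ≤ 1.39`.
-/

set_option autoImplicit false
set_option maxHeartbeats 4000000

open Complex Set

namespace Sok

private theorem epsOf {β C N ε v : ℝ} (hβ : 0 < β) (hN : β * N ≤ 1) (hε : 0 ≤ ε) (hC : C ≤ ε * N) (h : v ≤ C * β) : v ≤ ε := by
  have h1 : C * β ≤ ε * N * β := mul_le_mul_of_nonneg_right hC hβ.le
  have h2 : ε * (β * N) ≤ ε * 1 := mul_le_mul_of_nonneg_left hN hε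
  linarith

private theorem bxa0 {β x y : ℝ} (hβ : 0 < β) (hN : β * 22.2 ≤ 1) (hx1 : 0.58 ≤ x) (hx2 : x ≤ 0.62)
    (hy1 : -0.386 ≤ y) (hy2 : y ≤ -0.33) : ‖HH β (x + y * I) - 1‖ ≤ 0.8255 * β := by
  refine J_box 0.58 0.62 0.386 0 (-0.33) 0.8443 0.7304 0.9129 1.2316 0.3812 4.7117 22.2 0.8651 3.29 1.48 0.8253 0.4221 0.3004 0.5975 2.5043 0.4258 1.303 1.6814 3.8866 0.00008525 0.001272 0.000001736 0.0000003101 0.00007855 0.0000003101 0.0000003101 0.0000003101 0.8255
    hβ hN hx1 hx2 hy1 hy2 (by norm_num) (by norm_num) (by norm_num) (by norm_num) (by norm_num) (by norm_num) (by norm_num) (by norm_num) (by norm_num) (by norm_num) (by norm_num) (by norm_num) (by norm_num) (by norm_num) (by norm_num) (by norm_num) (by norm_num) (by norm_num) (by norm_num) (by norm_num) (by norm_num) (by norm_num) (by norm_num) (by norm_num)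
    (cube_sqrt_geJ (s := 0.8435) (by norm_num) (by norm_num) (by norm_num) (by norm_num))
    (cube_sqrt_geJ (s := 0.9455) (by norm_num) (by norm_num) (by norm_num) (by norm_num))
    (by norm_num) (by norm_num) (by norm_num) (by norm_num) (by norm_num) (by norm_num) (by norm_num) (by norm_num) (by norm_num) (by norm_num) (by norm_num) (by norm_num) (by norm_num) (by norm_num) (by norm_num) (by norm_num) (by norm_num) (by norm_num)
    (exp_neg_leJ (r := 0.37) 9 (by norm_num) (by norm_num) (by norm_num) (by norm_num))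
    (exp_neg_leJ (r := 0.668) 6 (by norm_num) (by norm_num) (by norm_num) (by norm_num))
    (exp_neg_leJ (r := 0.264) 13 (by norm_num) (by norm_num) (by norm_num) (by norm_num))
    (exp_neg_leJ (r := 0.99) 14 (by norm_num) (by norm_num) (by norm_num) (by norm_num))
    (exp_neg_leJ (r := 0.452) 9 (by norm_num) (by norm_num) (by norm_num) (by norm_num))
    (exp_neg_leJ (r := 0.99) 14 (by norm_num) (by norm_num) (by norm_num) (by norm_num))
    (exp_neg_leJ (r := 0.99) 14 (by norm_num) (by norm_num) (by norm_num) (by norm_num))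
    (exp_neg_leJ (r := 0.99) 14 (by norm_num) (by norm_num) (by norm_num) (by norm_num))
    (by norm_num)

private theorem bxa1 {β x y : ℝ} (hβ : 0 < β) (hN : β * 22.2 ≤ 1) (hx1 : 0.62 ≤ x) (hx2 : x ≤ 0.66)
    (hy1 : -0.386 ≤ y) (hy2 : y ≤ -0.33) : ‖HH β (x + y * I) - 1‖ ≤ 0.8179 * β := by
  refine J_box 0.62 0.66 0.386 0 (-0.33) 0.8725 0.7646 0.9405 1.19 0.3869 4.7117 22.2 0.8764 3.352 1.488 0.8099 0.4362 0.3088 0.6112 2.4827 0.4453 1.3584 1.7614 3.8736 0.00006238 0.001057 0.000001282 0.0000003101 0.00005105 0.0000003101 0.0000003101 0.0000003101 0.8179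
    hβ hN hx1 hx2 hy1 hy2 (by norm_num) (by norm_num) (by norm_num) (by norm_num) (by norm_num) (by norm_num) (by norm_num) (by norm_num) (by norm_num) (by norm_num) (by norm_num) (by norm_num) (by norm_num) (by norm_num) (by norm_num) (by norm_num) (by norm_num) (by norm_num) (by norm_num) (by norm_num) (by norm_num) (by norm_num) (by norm_num) (by norm_num)
    (cube_sqrt_geJ (s := 0.8413) (by norm_num) (by norm_num) (by norm_num) (by norm_num))
    (cube_sqrt_geJ (s := 0.9448) (by norm_num) (by norm_num) (by norm_num) (by norm_num))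
    (by norm_num) (by norm_num) (by norm_num) (by norm_num) (by norm_num) (by norm_num) (by norm_num) (by norm_num) (by norm_num) (by norm_num) (by norm_num) (by norm_num) (by norm_num) (by norm_num) (by norm_num) (by norm_num) (by norm_num) (by norm_num)
    (exp_neg_leJ (r := 0.683) 9 (by norm_num) (by norm_num) (by norm_num) (by norm_num))
    (exp_neg_leJ (r := 0.855) 6 (by norm_num) (by norm_num) (by norm_num) (by norm_num))
    (exp_neg_leJ (r := 0.568) 13 (by norm_num) (by norm_num) (by norm_num) (by norm_num))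
    (exp_neg_leJ (r := 0.99) 14 (by norm_num) (by norm_num) (by norm_num) (by norm_num))
    (exp_neg_leJ (r := 0.885) 9 (by norm_num) (by norm_num) (by norm_num) (by norm_num))
    (exp_neg_leJ (r := 0.99) 14 (by norm_num) (by norm_num) (by norm_num) (by norm_num))
    (exp_neg_leJ (r := 0.99) 14 (by norm_num) (by norm_num) (by norm_num) (by norm_num))
    (exp_neg_leJ (r := 0.99) 14 (by norm_num) (by norm_num) (by norm_num) (by norm_num))
    (by norm_num)

private theorem bxa2 {β x y : ℝ} (hβ : 0 < β) (hN : β * 22.2 ≤ 1) (hx1 : 0.66 ≤ x) (hx2 : x ≤ 0.71)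
    (hy1 : -0.386 ≤ y) (hy2 : y ≤ -0.33) : ‖HH β (x + y * I) - 1‖ ≤ 0.8389 * β := by
  refine J_box 0.66 0.71 0.386 0 (-0.33) 0.9007 0.8082 0.9763 1.156 0.3942 4.7117 22.2 0.8974 3.47 1.503 0.7907 0.4503 0.3156 0.6249 2.4556 0.4647 1.4138 1.8414 3.8351 0.00004602 0.0009065 0.0000009471 0.0000003101 0.00003311 0.0000003101 0.0000003101 0.0000003101 0.8389
    hβ hN hx1 hx2 hy1 hy2 (by norm_num) (by norm_num) (by norm_num) (by norm_num) (by norm_num) (by norm_num) (by norm_num) (by norm_num) (by norm_num) (by norm_num) (by norm_num) (by norm_num) (by norm_num) (by norm_num) (by norm_num) (by norm_num) (by norm_num) (by norm_num) (by norm_num) (by norm_num) (by norm_num) (by norm_num) (by norm_num) (by norm_num)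
    (cube_sqrt_geJ (s := 0.8371) (by norm_num) (by norm_num) (by norm_num) (by norm_num))
    (cube_sqrt_geJ (s := 0.9434) (by norm_num) (by norm_num) (by norm_num) (by norm_num))
    (by norm_num) (by norm_num) (by norm_num) (by norm_num) (by norm_num) (by norm_num) (by norm_num) (by norm_num) (by norm_num) (by norm_num) (by norm_num) (by norm_num) (by norm_num) (by norm_num) (by norm_num) (by norm_num) (by norm_num) (by norm_num)
    (exp_neg_leJ (r := 0.99) 9 (by norm_num) (by norm_num) (by norm_num) (by norm_num))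
    (exp_neg_leJ (r := 0.006) 7 (by norm_num) (by norm_num) (by norm_num) (by norm_num))
    (exp_neg_leJ (r := 0.872) 13 (by norm_num) (by norm_num) (by norm_num) (by norm_num))
    (exp_neg_leJ (r := 0.99) 14 (by norm_num) (by norm_num) (by norm_num) (by norm_num))
    (exp_neg_leJ (r := 0.316) 10 (by norm_num) (by norm_num) (by norm_num) (by norm_num))
    (exp_neg_leJ (r := 0.99) 14 (by norm_num) (by norm_num) (by norm_num) (by norm_num))
    (exp_neg_leJ (r := 0.99) 14 (by norm_num) (by norm_num) (by norm_num) (by norm_num))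
    (exp_neg_leJ (r := 0.99) 14 (by norm_num) (by norm_num) (by norm_num) (by norm_num))
    (by norm_num)

private theorem bxa3 {β x y : ℝ} (hβ : 0 < β) (hN : β * 22.2 ≤ 1) (hx1 : 0.71 ≤ x) (hx2 : x ≤ 0.76)
    (hy1 : -0.386 ≤ y) (hy2 : y ≤ -0.33) : ‖HH β (x + y * I) - 1‖ ≤ 0.8335 * β := by
  refine J_box 0.71 0.76 0.386 0 (-0.33) 0.9359 0.8525 1.0132 1.1118 0.4016 4.7117 22.2 0.9109 3.55 1.513 0.7715 0.4679 0.3258 0.642 2.4282 0.489 1.483 1.9414 3.8147 0.00003084 0.0007231 0.0000006464 0.0000003101 0.00001935 0.0000003101 0.0000003101 0.0000003101 0.8335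
    hβ hN hx1 hx2 hy1 hy2 (by norm_num) (by norm_num) (by norm_num) (by norm_num) (by norm_num) (by norm_num) (by norm_num) (by norm_num) (by norm_num) (by norm_num) (by norm_num) (by norm_num) (by norm_num) (by norm_num) (by norm_num) (by norm_num) (by norm_num) (by norm_num) (by norm_num) (by norm_num) (by norm_num) (by norm_num) (by norm_num) (by norm_num)
    (cube_sqrt_geJ (s := 0.8344) (by norm_num) (by norm_num) (by norm_num) (by norm_num))
    (cube_sqrt_geJ (s := 0.9425) (by norm_num) (by norm_num) (by norm_num) (by norm_num))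
    (by norm_num) (by norm_num) (by norm_num) (by norm_num) (by norm_num) (by norm_num) (by norm_num) (by norm_num) (by norm_num) (by norm_num) (by norm_num) (by norm_num) (by norm_num) (by norm_num) (by norm_num) (by norm_num) (by norm_num) (by norm_num)
    (exp_neg_leJ (r := 0.387) 10 (by norm_num) (by norm_num) (by norm_num) (by norm_num))
    (exp_neg_leJ (r := 0.232) 7 (by norm_num) (by norm_num) (by norm_num) (by norm_num))
    (exp_neg_leJ (r := 0.252) 14 (by norm_num) (by norm_num) (by norm_num) (by norm_num))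
    (exp_neg_leJ (r := 0.99) 14 (by norm_num) (by norm_num) (by norm_num) (by norm_num))
    (exp_neg_leJ (r := 0.855) 10 (by norm_num) (by norm_num) (by norm_num) (by norm_num))
    (exp_neg_leJ (r := 0.99) 14 (by norm_num) (by norm_num) (by norm_num) (by norm_num))
    (exp_neg_leJ (r := 0.99) 14 (by norm_num) (by norm_num) (by norm_num) (by norm_num))
    (exp_neg_leJ (r := 0.99) 14 (by norm_num) (by norm_num) (by norm_num) (by norm_num))
    (by norm_num)

private theorem bxa4 {β x y : ℝ} (hβ : 0 < β) (hN : β * 22.2 ≤ 1) (hx1 : 0.76 ≤ x) (hx2 : x ≤ 0.81)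
    (hy1 : -0.386 ≤ y) (hy2 : y ≤ -0.33) : ‖HH β (x + y * I) - 1‖ ≤ 0.83 * β := by
  refine J_box 0.76 0.81 0.386 0 (-0.33) 0.9711 0.8973 1.0512 1.0714 0.4091 4.7117 22.2 0.9241 3.629 1.523 0.7522 0.4855 0.3359 0.6591 2.4007 0.5133 1.5523 2.0414 3.7929 0.00002088 0.0005781 0.0000004423 0.0000003101 0.00001126 0.0000003101 0.0000003101 0.0000003101 0.83
    hβ hN hx1 hx2 hy1 hy2 (by norm_num) (by norm_num) (by norm_num) (by norm_num) (by norm_num) (by norm_num) (by norm_num) (by norm_num) (by norm_num) (by norm_num) (by norm_num) (by norm_num) (by norm_num) (by norm_num) (by norm_num) (by norm_num) (by norm_num) (by norm_num) (by norm_num) (by norm_num) (by norm_num) (by norm_num) (by norm_num) (by norm_num)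
    (cube_sqrt_geJ (s := 0.8318) (by norm_num) (by norm_num) (by norm_num) (by norm_num))
    (cube_sqrt_geJ (s := 0.9417) (by norm_num) (by norm_num) (by norm_num) (by norm_num))
    (by norm_num) (by norm_num) (by norm_num) (by norm_num) (by norm_num) (by norm_num) (by norm_num) (by norm_num) (by norm_num) (by norm_num) (by norm_num) (by norm_num) (by norm_num) (by norm_num) (by norm_num) (by norm_num) (by norm_num) (by norm_num)
    (exp_neg_leJ (r := 0.778) 10 (by norm_num) (by norm_num) (by norm_num) (by norm_num))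
    (exp_neg_leJ (r := 0.456) 7 (by norm_num) (by norm_num) (by norm_num) (by norm_num))
    (exp_neg_leJ (r := 0.632) 14 (by norm_num) (by norm_num) (by norm_num) (by norm_num))
    (exp_neg_leJ (r := 0.99) 14 (by norm_num) (by norm_num) (by norm_num) (by norm_num))
    (exp_neg_leJ (r := 0.395) 11 (by norm_num) (by norm_num) (by norm_num) (by norm_num))
    (exp_neg_leJ (r := 0.99) 14 (by norm_num) (by norm_num) (by norm_num) (by norm_num))
    (exp_neg_leJ (r := 0.99) 14 (by norm_num) (by norm_num) (by norm_num) (by norm_num))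
    (exp_neg_leJ (r := 0.99) 14 (by norm_num) (by norm_num) (by norm_num) (by norm_num))
    (by norm_num)

private theorem bxa5 {β x y : ℝ} (hβ : 0 < β) (hN : β * 22.2 ≤ 1) (hx1 : 0.81 ≤ x) (hx2 : x ≤ 0.86)
    (hy1 : -0.386 ≤ y) (hy2 : y ≤ -0.33) : ‖HH β (x + y * I) - 1‖ ≤ 0.8275 * β := by
  refine J_box 0.81 0.86 0.386 0 (-0.33) 1.0063 0.9427 1.0902 1.0344 0.4166 4.7117 22.2 0.9368 3.708 1.532 0.733 0.5031 0.346 0.6762 2.373 0.5375 1.6215 2.1414 3.7695 0.00001412 0.0004619 0.0000003101 0.0000003101 0.000006595 0.0000003101 0.0000003101 0.0000003101 0.8275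
    hβ hN hx1 hx2 hy1 hy2 (by norm_num) (by norm_num) (by norm_num) (by norm_num) (by norm_num) (by norm_num) (by norm_num) (by norm_num) (by norm_num) (by norm_num) (by norm_num) (by norm_num) (by norm_num) (by norm_num) (by norm_num) (by norm_num) (by norm_num) (by norm_num) (by norm_num) (by norm_num) (by norm_num) (by norm_num) (by norm_num) (by norm_num)
    (cube_sqrt_geJ (s := 0.8292) (by norm_num) (by norm_num) (by norm_num) (by norm_num))
    (cube_sqrt_geJ (s := 0.9409) (by norm_num) (by norm_num) (by norm_num) (by norm_num))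
    (by norm_num) (by norm_num) (by norm_num) (by norm_num) (by norm_num) (by norm_num) (by norm_num) (by norm_num) (by norm_num) (by norm_num) (by norm_num) (by norm_num) (by norm_num) (by norm_num) (by norm_num) (by norm_num) (by norm_num) (by norm_num)
    (exp_neg_leJ (r := 0.168) 11 (by norm_num) (by norm_num) (by norm_num) (by norm_num))
    (exp_neg_leJ (r := 0.681) 7 (by norm_num) (by norm_num) (by norm_num) (by norm_num))
    (exp_neg_leJ (r := 0.99) 14 (by norm_num) (by norm_num) (by norm_num) (by norm_num))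
    (exp_neg_leJ (r := 0.99) 14 (by norm_num) (by norm_num) (by norm_num) (by norm_num))
    (exp_neg_leJ (r := 0.932) 11 (by norm_num) (by norm_num) (by norm_num) (by norm_num))
    (exp_neg_leJ (r := 0.99) 14 (by norm_num) (by norm_num) (by norm_num) (by norm_num))
    (exp_neg_leJ (r := 0.99) 14 (by norm_num) (by norm_num) (by norm_num) (by norm_num))
    (exp_neg_leJ (r := 0.99) 14 (by norm_num) (by norm_num) (by norm_num) (by norm_num))
    (by norm_num)

private theorem bxa6 {β x y : ℝ} (hβ : 0 < β) (hN : β * 22.2 ≤ 1) (hx1 : 0.86 ≤ x) (hx2 : x ≤ 0.91)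
    (hy1 : -0.386 ≤ y) (hy2 : y ≤ -0.33) : ‖HH β (x + y * I) - 1‖ ≤ 0.8264 * β := by
  refine J_box 0.86 0.91 0.386 0 (-0.33) 1.0415 0.9885 1.1301 1.0002 0.4242 4.7117 22.2 0.9492 3.787 1.542 0.7138 0.5207 0.3559 0.6933 2.3453 0.5618 1.6907 2.2414 3.745 0.000009553 0.0003717 0.0000003101 0.0000003101 0.000003837 0.0000003101 0.0000003101 0.0000003101 0.8264
    hβ hN hx1 hx2 hy1 hy2 (by norm_num) (by norm_num) (by norm_num) (by norm_num) (by norm_num) (by norm_num) (by norm_num) (by norm_num) (by norm_num) (by norm_num) (by norm_num) (by norm_num) (by norm_num) (by norm_num) (by norm_num) (by norm_num) (by norm_num) (by norm_num) (by norm_num) (by norm_num) (by norm_num) (by norm_num) (by norm_num) (by norm_num)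
    (cube_sqrt_geJ (s := 0.8268) (by norm_num) (by norm_num) (by norm_num) (by norm_num))
    (cube_sqrt_geJ (s := 0.94) (by norm_num) (by norm_num) (by norm_num) (by norm_num))
    (by norm_num) (by norm_num) (by norm_num) (by norm_num) (by norm_num) (by norm_num) (by norm_num) (by norm_num) (by norm_num) (by norm_num) (by norm_num) (by norm_num) (by norm_num) (by norm_num) (by norm_num) (by norm_num) (by norm_num) (by norm_num)
    (exp_neg_leJ (r := 0.559) 11 (by norm_num) (by norm_num) (by norm_num) (by norm_num))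
    (exp_neg_leJ (r := 0.9) 7 (by norm_num) (by norm_num) (by norm_num) (by norm_num))
    (exp_neg_leJ (r := 0.99) 14 (by norm_num) (by norm_num) (by norm_num) (by norm_num))
    (exp_neg_leJ (r := 0.99) 14 (by norm_num) (by norm_num) (by norm_num) (by norm_num))
    (exp_neg_leJ (r := 0.471) 12 (by norm_num) (by norm_num) (by norm_num) (by norm_num))
    (exp_neg_leJ (r := 0.99) 14 (by norm_num) (by norm_num) (by norm_num) (by norm_num))
    (exp_neg_leJ (r := 0.99) 14 (by norm_num) (by norm_num) (by norm_num) (by norm_num))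
    (exp_neg_leJ (r := 0.99) 14 (by norm_num) (by norm_num) (by norm_num) (by norm_num))
    (by norm_num)

private theorem bxa7 {β x y : ℝ} (hβ : 0 < β) (hN : β * 22.2 ≤ 1) (hx1 : 0.91 ≤ x) (hx2 : x ≤ 0.96)
    (hy1 : -0.386 ≤ y) (hy2 : y ≤ -0.33) : ‖HH β (x + y * I) - 1‖ ≤ 0.8251 * β := by
  refine J_box 0.91 0.96 0.386 0 (-0.33) 1.0767 1.0347 1.1707 0.9685 0.4317 4.7117 22.2 0.961 3.864 1.55 0.6945 0.5383 0.3658 0.7104 2.3174 0.5861 1.7599 2.3414 3.7194 0.000006479 0.0002976 0.0000003101 0.0000003101 0.000002236 0.0000003101 0.0000003101 0.0000003101 0.8251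
    hβ hN hx1 hx2 hy1 hy2 (by norm_num) (by norm_num) (by norm_num) (by norm_num) (by norm_num) (by norm_num) (by norm_num) (by norm_num) (by norm_num) (by norm_num) (by norm_num) (by norm_num) (by norm_num) (by norm_num) (by norm_num) (by norm_num) (by norm_num) (by norm_num) (by norm_num) (by norm_num) (by norm_num) (by norm_num) (by norm_num) (by norm_num)
    (cube_sqrt_geJ (s := 0.8244) (by norm_num) (by norm_num) (by norm_num) (by norm_num))
    (cube_sqrt_geJ (s := 0.9393) (by norm_num) (by norm_num) (by norm_num) (by norm_num))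
    (by norm_num) (by norm_num) (by norm_num) (by norm_num) (by norm_num) (by norm_num) (by norm_num) (by norm_num) (by norm_num) (by norm_num) (by norm_num) (by norm_num) (by norm_num) (by norm_num) (by norm_num) (by norm_num) (by norm_num) (by norm_num)
    (exp_neg_leJ (r := 0.95) 11 (by norm_num) (by norm_num) (by norm_num) (by norm_num))
    (exp_neg_leJ (r := 0.12) 8 (by norm_num) (by norm_num) (by norm_num) (by norm_num))
    (exp_neg_leJ (r := 0.99) 14 (by norm_num) (by norm_num) (by norm_num) (by norm_num))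
    (exp_neg_leJ (r := 0.99) 14 (by norm_num) (by norm_num) (by norm_num) (by norm_num))
    (exp_neg_leJ (r := 0.011) 13 (by norm_num) (by norm_num) (by norm_num) (by norm_num))
    (exp_neg_leJ (r := 0.99) 14 (by norm_num) (by norm_num) (by norm_num) (by norm_num))
    (exp_neg_leJ (r := 0.99) 14 (by norm_num) (by norm_num) (by norm_num) (by norm_num))
    (exp_neg_leJ (r := 0.99) 14 (by norm_num) (by norm_num) (by norm_num) (by norm_num))
    (by norm_num)

private theorem bxa8 {β x y : ℝ} (hβ : 0 < β) (hN : β * 22.2 ≤ 1) (hx1 : 0.96 ≤ x) (hx2 : x ≤ 1.01)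
    (hy1 : -0.386 ≤ y) (hy2 : y ≤ -0.33) : ‖HH β (x + y * I) - 1‖ ≤ 0.8249 * β := by
  refine J_box 0.96 1.01 0.386 0 (-0.33) 1.1119 1.0813 1.2121 0.9391 0.4393 4.7117 22.2 0.9725 3.942 1.559 0.6753 0.5559 0.3757 0.7276 2.2894 0.6104 1.8292 2.4414 3.6928 0.000004374 0.0002388 0.0000003101 0.0000003101 0.000001305 0.0000003101 0.0000003101 0.0000003101 0.8249
    hβ hN hx1 hx2 hy1 hy2 (by norm_num) (by norm_num) (by norm_num) (by norm_num) (by norm_num) (by norm_num) (by norm_num) (by norm_num) (by norm_num) (by norm_num) (by norm_num) (by norm_num) (by norm_num) (by norm_num) (by norm_num) (by norm_num) (by norm_num) (by norm_num) (by norm_num) (by norm_num) (by norm_num) (by norm_num) (by norm_num) (by norm_num)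
    (cube_sqrt_geJ (s := 0.822) (by norm_num) (by norm_num) (by norm_num) (by norm_num))
    (cube_sqrt_geJ (s := 0.9385) (by norm_num) (by norm_num) (by norm_num) (by norm_num))
    (by norm_num) (by norm_num) (by norm_num) (by norm_num) (by norm_num) (by norm_num) (by norm_num) (by norm_num) (by norm_num) (by norm_num) (by norm_num) (by norm_num) (by norm_num) (by norm_num) (by norm_num) (by norm_num) (by norm_num) (by norm_num)
    (exp_neg_leJ (r := 0.34) 12 (by norm_num) (by norm_num) (by norm_num) (by norm_num))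
    (exp_neg_leJ (r := 0.34) 8 (by norm_num) (by norm_num) (by norm_num) (by norm_num))
    (exp_neg_leJ (r := 0.99) 14 (by norm_num) (by norm_num) (by norm_num) (by norm_num))
    (exp_neg_leJ (r := 0.99) 14 (by norm_num) (by norm_num) (by norm_num) (by norm_num))
    (exp_neg_leJ (r := 0.55) 13 (by norm_num) (by norm_num) (by norm_num) (by norm_num))
    (exp_neg_leJ (r := 0.99) 14 (by norm_num) (by norm_num) (by norm_num) (by norm_num))
    (exp_neg_leJ (r := 0.99) 14 (by norm_num) (by norm_num) (by norm_num) (by norm_num))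
    (exp_neg_leJ (r := 0.99) 14 (by norm_num) (by norm_num) (by norm_num) (by norm_num))
    (by norm_num)

private theorem bxa9 {β x y : ℝ} (hβ : 0 < β) (hN : β * 22.2 ≤ 1) (hx1 : 1.01 ≤ x) (hx2 : x ≤ 1.06)
    (hy1 : -0.386 ≤ y) (hy2 : y ≤ -0.33) : ‖HH β (x + y * I) - 1‖ ≤ 0.8244 * β := by
  refine J_box 1.01 1.06 0.386 0 (-0.33) 1.1471 1.1281 1.254 0.9115 0.4468 4.7117 22.2 0.9835 4.017 1.567 0.6561 0.5735 0.3855 0.7447 2.2613 0.6347 1.8984 2.5414 3.6655 0.000002961 0.0001921 0.0000003101 0.0000003101 0.00000076 0.0000003101 0.0000003101 0.0000003101 0.8244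
    hβ hN hx1 hx2 hy1 hy2 (by norm_num) (by norm_num) (by norm_num) (by norm_num) (by norm_num) (by norm_num) (by norm_num) (by norm_num) (by norm_num) (by norm_num) (by norm_num) (by norm_num) (by norm_num) (by norm_num) (by norm_num) (by norm_num) (by norm_num) (by norm_num) (by norm_num) (by norm_num) (by norm_num) (by norm_num) (by norm_num) (by norm_num)
    (cube_sqrt_geJ (s := 0.8198) (by norm_num) (by norm_num) (by norm_num) (by norm_num))
    (cube_sqrt_geJ (s := 0.9378) (by norm_num) (by norm_num) (by norm_num) (by norm_num))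
    (by norm_num) (by norm_num) (by norm_num) (by norm_num) (by norm_num) (by norm_num) (by norm_num) (by norm_num) (by norm_num) (by norm_num) (by norm_num) (by norm_num) (by norm_num) (by norm_num) (by norm_num) (by norm_num) (by norm_num) (by norm_num)
    (exp_neg_leJ (r := 0.731) 12 (by norm_num) (by norm_num) (by norm_num) (by norm_num))
    (exp_neg_leJ (r := 0.558) 8 (by norm_num) (by norm_num) (by norm_num) (by norm_num))
    (exp_neg_leJ (r := 0.99) 14 (by norm_num) (by norm_num) (by norm_num) (by norm_num))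
    (exp_neg_leJ (r := 0.99) 14 (by norm_num) (by norm_num) (by norm_num) (by norm_num))
    (exp_neg_leJ (r := 0.09) 14 (by norm_num) (by norm_num) (by norm_num) (by norm_num))
    (exp_neg_leJ (r := 0.99) 14 (by norm_num) (by norm_num) (by norm_num) (by norm_num))
    (exp_neg_leJ (r := 0.99) 14 (by norm_num) (by norm_num) (by norm_num) (by norm_num))
    (exp_neg_leJ (r := 0.99) 14 (by norm_num) (by norm_num) (by norm_num) (by norm_num))
    (by norm_num)

private theorem bxa10 {β x y : ℝ} (hβ : 0 < β) (hN : β * 22.2 ≤ 1) (hx1 : 1.06 ≤ x) (hx2 : x ≤ 1.11)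
    (hy1 : -0.386 ≤ y) (hy2 : y ≤ -0.33) : ‖HH β (x + y * I) - 1‖ ≤ 0.8246 * β := by
  refine J_box 1.06 1.11 0.386 0 (-0.33) 1.1823 1.1753 1.2966 0.8858 0.4543 4.7117 22.2 0.9941 4.092 1.576 0.6368 0.5911 0.3952 0.7618 2.2332 0.659 1.9676 2.6414 3.6372 0.000002001 0.0001551 0.0000003101 0.0000003101 0.0000004436 0.0000003101 0.0000003101 0.0000003101 0.8246
    hβ hN hx1 hx2 hy1 hy2 (by norm_num) (by norm_num) (by norm_num) (by norm_num) (by norm_num) (by norm_num) (by norm_num) (by norm_num) (by norm_num) (by norm_num) (by norm_num) (by norm_num) (by norm_num) (by norm_num) (by norm_num) (by norm_num) (by norm_num) (by norm_num) (by norm_num) (by norm_num) (by norm_num) (by norm_num) (by norm_num) (by norm_num)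
    (cube_sqrt_geJ (s := 0.8177) (by norm_num) (by norm_num) (by norm_num) (by norm_num))
    (cube_sqrt_geJ (s := 0.9371) (by norm_num) (by norm_num) (by norm_num) (by norm_num))
    (by norm_num) (by norm_num) (by norm_num) (by norm_num) (by norm_num) (by norm_num) (by norm_num) (by norm_num) (by norm_num) (by norm_num) (by norm_num) (by norm_num) (by norm_num) (by norm_num) (by norm_num) (by norm_num) (by norm_num) (by norm_num)
    (exp_neg_leJ (r := 0.122) 13 (by norm_num) (by norm_num) (by norm_num) (by norm_num))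
    (exp_neg_leJ (r := 0.773) 8 (by norm_num) (by norm_num) (by norm_num) (by norm_num))
    (exp_neg_leJ (r := 0.99) 14 (by norm_num) (by norm_num) (by norm_num) (by norm_num))
    (exp_neg_leJ (r := 0.99) 14 (by norm_num) (by norm_num) (by norm_num) (by norm_num))
    (exp_neg_leJ (r := 0.629) 14 (by norm_num) (by norm_num) (by norm_num) (by norm_num))
    (exp_neg_leJ (r := 0.99) 14 (by norm_num) (by norm_num) (by norm_num) (by norm_num))
    (exp_neg_leJ (r := 0.99) 14 (by norm_num) (by norm_num) (by norm_num) (by norm_num))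
    (exp_neg_leJ (r := 0.99) 14 (by norm_num) (by norm_num) (by norm_num) (by norm_num))
    (by norm_num)

private theorem bxa11 {β x y : ℝ} (hβ : 0 < β) (hN : β * 22.2 ≤ 1) (hx1 : 1.11 ≤ x) (hx2 : x ≤ 1.16)
    (hy1 : -0.386 ≤ y) (hy2 : y ≤ -0.33) : ‖HH β (x + y * I) - 1‖ ≤ 0.8241 * β := by
  refine J_box 1.11 1.16 0.386 0 (-0.33) 1.2175 1.2226 1.3396 0.8616 0.4618 4.7117 22.2 1.0042 4.165 1.583 0.6176 0.6087 0.4049 0.7789 2.205 0.6833 2.0369 2.7414 3.6087 0.000001354 0.0001254 0.0000003101 0.0000003101 0.0000003101 0.0000003101 0.0000003101 0.0000003101 0.8241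
    hβ hN hx1 hx2 hy1 hy2 (by norm_num) (by norm_num) (by norm_num) (by norm_num) (by norm_num) (by norm_num) (by norm_num) (by norm_num) (by norm_num) (by norm_num) (by norm_num) (by norm_num) (by norm_num) (by norm_num) (by norm_num) (by norm_num) (by norm_num) (by norm_num) (by norm_num) (by norm_num) (by norm_num) (by norm_num) (by norm_num) (by norm_num)
    (cube_sqrt_geJ (s := 0.8156) (by norm_num) (by norm_num) (by norm_num) (by norm_num))
    (cube_sqrt_geJ (s := 0.9365) (by norm_num) (by norm_num) (by norm_num) (by norm_num))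
    (by norm_num) (by norm_num) (by norm_num) (by norm_num) (by norm_num) (by norm_num) (by norm_num) (by norm_num) (by norm_num) (by norm_num) (by norm_num) (by norm_num) (by norm_num) (by norm_num) (by norm_num) (by norm_num) (by norm_num) (by norm_num)
    (exp_neg_leJ (r := 0.513) 13 (by norm_num) (by norm_num) (by norm_num) (by norm_num))
    (exp_neg_leJ (r := 0.988) 8 (by norm_num) (by norm_num) (by norm_num) (by norm_num))
    (exp_neg_leJ (r := 0.99) 14 (by norm_num) (by norm_num) (by norm_num) (by norm_num))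
    (exp_neg_leJ (r := 0.99) 14 (by norm_num) (by norm_num) (by norm_num) (by norm_num))
    (exp_neg_leJ (r := 0.99) 14 (by norm_num) (by norm_num) (by norm_num) (by norm_num))
    (exp_neg_leJ (r := 0.99) 14 (by norm_num) (by norm_num) (by norm_num) (by norm_num))
    (exp_neg_leJ (r := 0.99) 14 (by norm_num) (by norm_num) (by norm_num) (by norm_num))
    (exp_neg_leJ (r := 0.99) 14 (by norm_num) (by norm_num) (by norm_num) (by norm_num))
    (by norm_num)

private theorem bxa12 {β x y : ℝ} (hβ : 0 < β) (hN : β * 22.2 ≤ 1) (hx1 : 1.16 ≤ x) (hx2 : x ≤ 1.21)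
    (hy1 : -0.386 ≤ y) (hy2 : y ≤ -0.33) : ‖HH β (x + y * I) - 1‖ ≤ 0.8239 * β := by
  refine J_box 1.16 1.21 0.386 0 (-0.33) 1.2527 1.2701 1.3832 0.8389 0.4692 4.7117 22.2 1.0139 4.236 1.591 0.5984 0.6263 0.4146 0.796 2.1768 0.7075 2.1061 2.8414 3.5795 0.0000009185 0.0001007 0.0000003101 0.0000003101 0.0000003101 0.0000003101 0.0000003101 0.0000003101 0.8239
    hβ hN hx1 hx2 hy1 hy2 (by norm_num) (by norm_num) (by norm_num) (by norm_num) (by norm_num) (by norm_num) (by norm_num) (by norm_num) (by norm_num) (by norm_num) (by norm_num) (by norm_num) (by norm_num) (by norm_num) (by norm_num) (by norm_num) (by norm_num) (by norm_num) (by norm_num) (by norm_num) (by norm_num) (by norm_num) (by norm_num) (by norm_num)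
    (cube_sqrt_geJ (s := 0.8136) (by norm_num) (by norm_num) (by norm_num) (by norm_num))
    (cube_sqrt_geJ (s := 0.9358) (by norm_num) (by norm_num) (by norm_num) (by norm_num))
    (by norm_num) (by norm_num) (by norm_num) (by norm_num) (by norm_num) (by norm_num) (by norm_num) (by norm_num) (by norm_num) (by norm_num) (by norm_num) (by norm_num) (by norm_num) (by norm_num) (by norm_num) (by norm_num) (by norm_num) (by norm_num)
    (exp_neg_leJ (r := 0.903) 13 (by norm_num) (by norm_num) (by norm_num) (by norm_num))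
    (exp_neg_leJ (r := 0.204) 9 (by norm_num) (by norm_num) (by norm_num) (by norm_num))
    (exp_neg_leJ (r := 0.99) 14 (by norm_num) (by norm_num) (by norm_num) (by norm_num))
    (exp_neg_leJ (r := 0.99) 14 (by norm_num) (by norm_num) (by norm_num) (by norm_num))
    (exp_neg_leJ (r := 0.99) 14 (by norm_num) (by norm_num) (by norm_num) (by norm_num))
    (exp_neg_leJ (r := 0.99) 14 (by norm_num) (by norm_num) (by norm_num) (by norm_num))
    (exp_neg_leJ (r := 0.99) 14 (by norm_num) (by norm_num) (by norm_num) (by norm_num))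
    (exp_neg_leJ (r := 0.99) 14 (by norm_num) (by norm_num) (by norm_num) (by norm_num))
    (by norm_num)

private theorem bxa13 {β x y : ℝ} (hβ : 0 < β) (hN : β * 22.2 ≤ 1) (hx1 : 1.21 ≤ x) (hx2 : x ≤ 1.26)
    (hy1 : -0.386 ≤ y) (hy2 : y ≤ -0.33) : ‖HH β (x + y * I) - 1‖ ≤ 0.8236 * β := by
  refine J_box 1.21 1.26 0.386 0 (-0.33) 1.2879 1.3178 1.4271 0.8174 0.4766 4.7117 22.2 1.0233 4.307 1.598 0.5791 0.6439 0.4242 0.8131 2.1485 0.7318 2.1753 2.9414 3.5499 0.0000006198 0.00008134 0.0000003101 0.0000003101 0.0000003101 0.0000003101 0.0000003101 0.0000003101 0.8236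
    hβ hN hx1 hx2 hy1 hy2 (by norm_num) (by norm_num) (by norm_num) (by norm_num) (by norm_num) (by norm_num) (by norm_num) (by norm_num) (by norm_num) (by norm_num) (by norm_num) (by norm_num) (by norm_num) (by norm_num) (by norm_num) (by norm_num) (by norm_num) (by norm_num) (by norm_num) (by norm_num) (by norm_num) (by norm_num) (by norm_num) (by norm_num)
    (cube_sqrt_geJ (s := 0.8117) (by norm_num) (by norm_num) (by norm_num) (by norm_num))
    (cube_sqrt_geJ (s := 0.9352) (by norm_num) (by norm_num) (by norm_num) (by norm_num))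
    (by norm_num) (by norm_num) (by norm_num) (by norm_num) (by norm_num) (by norm_num) (by norm_num) (by norm_num) (by norm_num) (by norm_num) (by norm_num) (by norm_num) (by norm_num) (by norm_num) (by norm_num) (by norm_num) (by norm_num) (by norm_num)
    (exp_neg_leJ (r := 0.294) 14 (by norm_num) (by norm_num) (by norm_num) (by norm_num))
    (exp_neg_leJ (r := 0.417) 9 (by norm_num) (by norm_num) (by norm_num) (by norm_num))
    (exp_neg_leJ (r := 0.99) 14 (by norm_num) (by norm_num) (by norm_num) (by norm_num))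
    (exp_neg_leJ (r := 0.99) 14 (by norm_num) (by norm_num) (by norm_num) (by norm_num))
    (exp_neg_leJ (r := 0.99) 14 (by norm_num) (by norm_num) (by norm_num) (by norm_num))
    (exp_neg_leJ (r := 0.99) 14 (by norm_num) (by norm_num) (by norm_num) (by norm_num))
    (exp_neg_leJ (r := 0.99) 14 (by norm_num) (by norm_num) (by norm_num) (by norm_num))
    (exp_neg_leJ (r := 0.99) 14 (by norm_num) (by norm_num) (by norm_num) (by norm_num))
    (by norm_num)

private theorem bxa14 {β x y : ℝ} (hβ : 0 < β) (hN : β * 22.2 ≤ 1) (hx1 : 1.26 ≤ x) (hx2 : x ≤ 1.32)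
    (hy1 : -0.386 ≤ y) (hy2 : y ≤ -0.33) : ‖HH β (x + y * I) - 1‖ ≤ 0.8427 * β := by
  refine J_box 1.26 1.32 0.386 0 (-0.33) 1.3231 1.3753 1.4804 0.7995 0.4855 4.7117 22.2 1.0395 4.433 1.611 0.5561 0.6615 0.4323 0.8303 2.1145 0.7561 2.2446 3.0414 3.4936 0.0000004195 0.00006796 0.0000003101 0.0000003101 0.0000003101 0.0000003101 0.0000003101 0.0000003101 0.8427
    hβ hN hx1 hx2 hy1 hy2 (by norm_num) (by norm_num) (by norm_num) (by norm_num) (by norm_num) (by norm_num) (by norm_num) (by norm_num) (by norm_num) (by norm_num) (by norm_num) (by norm_num) (by norm_num) (by norm_num) (by norm_num) (by norm_num) (by norm_num) (by norm_num) (by norm_num) (by norm_num) (by norm_num) (by norm_num) (by norm_num) (by norm_num)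
    (cube_sqrt_geJ (s := 0.8083) (by norm_num) (by norm_num) (by norm_num) (by norm_num))
    (cube_sqrt_geJ (s := 0.9341) (by norm_num) (by norm_num) (by norm_num) (by norm_num))
    (by norm_num) (by norm_num) (by norm_num) (by norm_num) (by norm_num) (by norm_num) (by norm_num) (by norm_num) (by norm_num) (by norm_num) (by norm_num) (by norm_num) (by norm_num) (by norm_num) (by norm_num) (by norm_num) (by norm_num) (by norm_num)
    (exp_neg_leJ (r := 0.685) 14 (by norm_num) (by norm_num) (by norm_num) (by norm_num))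
    (exp_neg_leJ (r := 0.597) 9 (by norm_num) (by norm_num) (by norm_num) (by norm_num))
    (exp_neg_leJ (r := 0.99) 14 (by norm_num) (by norm_num) (by norm_num) (by norm_num))
    (exp_neg_leJ (r := 0.99) 14 (by norm_num) (by norm_num) (by norm_num) (by norm_num))
    (exp_neg_leJ (r := 0.99) 14 (by norm_num) (by norm_num) (by norm_num) (by norm_num))
    (exp_neg_leJ (r := 0.99) 14 (by norm_num) (by norm_num) (by norm_num) (by norm_num))
    (exp_neg_leJ (r := 0.99) 14 (by norm_num) (by norm_num) (by norm_num) (by norm_num))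
    (exp_neg_leJ (r := 0.99) 14 (by norm_num) (by norm_num) (by norm_num) (by norm_num))
    (by norm_num)

private theorem bxa15 {β x y : ℝ} (hβ : 0 < β) (hN : β * 22.2 ≤ 1) (hx1 : 1.32 ≤ x) (hx2 : x ≤ 1.38)
    (hy1 : -0.386 ≤ y) (hy2 : y ≤ -0.33) : ‖HH β (x + y * I) - 1‖ ≤ 0.8413 * β := by
  refine J_box 1.32 1.38 0.386 0 (-0.33) 1.3654 1.433 1.5341 0.7764 0.4942 4.7117 22.2 1.0496 4.514 1.619 0.533 0.6826 0.4438 0.8508 2.0804 0.7853 2.3276 3.1614 3.4567 0.0000003101 0.00005275 0.0000003101 0.0000003101 0.0000003101 0.0000003101 0.0000003101 0.0000003101 0.8413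
    hβ hN hx1 hx2 hy1 hy2 (by norm_num) (by norm_num) (by norm_num) (by norm_num) (by norm_num) (by norm_num) (by norm_num) (by norm_num) (by norm_num) (by norm_num) (by norm_num) (by norm_num) (by norm_num) (by norm_num) (by norm_num) (by norm_num) (by norm_num) (by norm_num) (by norm_num) (by norm_num) (by norm_num) (by norm_num) (by norm_num) (by norm_num)
    (cube_sqrt_geJ (s := 0.8063) (by norm_num) (by norm_num) (by norm_num) (by norm_num))
    (cube_sqrt_geJ (s := 0.9335) (by norm_num) (by norm_num) (by norm_num) (by norm_num))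
    (by norm_num) (by norm_num) (by norm_num) (by norm_num) (by norm_num) (by norm_num) (by norm_num) (by norm_num) (by norm_num) (by norm_num) (by norm_num) (by norm_num) (by norm_num) (by norm_num) (by norm_num) (by norm_num) (by norm_num) (by norm_num)
    (exp_neg_leJ (r := 0.99) 14 (by norm_num) (by norm_num) (by norm_num) (by norm_num))
    (exp_neg_leJ (r := 0.852) 9 (by norm_num) (by norm_num) (by norm_num) (by norm_num))
    (exp_neg_leJ (r := 0.99) 14 (by norm_num) (by norm_num) (by norm_num) (by norm_num))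
    (exp_neg_leJ (r := 0.99) 14 (by norm_num) (by norm_num) (by norm_num) (by norm_num))
    (exp_neg_leJ (r := 0.99) 14 (by norm_num) (by norm_num) (by norm_num) (by norm_num))
    (exp_neg_leJ (r := 0.99) 14 (by norm_num) (by norm_num) (by norm_num) (by norm_num))
    (exp_neg_leJ (r := 0.99) 14 (by norm_num) (by norm_num) (by norm_num) (by norm_num))
    (exp_neg_leJ (r := 0.99) 14 (by norm_num) (by norm_num) (by norm_num) (by norm_num))
    (by norm_num)

private theorem bxa16 {β x y : ℝ} (hβ : 0 < β) (hN : β * 22.2 ≤ 1) (hx1 : 1.38 ≤ x) (hx2 : x ≤ 1.44)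
    (hy1 : -0.386 ≤ y) (hy2 : y ≤ -0.33) : ‖HH β (x + y * I) - 1‖ ≤ 0.8398 * β := by
  refine J_box 1.38 1.44 0.386 0 (-0.33) 1.4076 1.4909 1.5883 0.7547 0.5028 4.7117 22.2 1.0592 4.593 1.627 0.5099 0.7037 0.4553 0.8713 2.0463 0.8144 2.4107 3.2814 3.4193 0.0000003101 0.0000408 0.0000003101 0.0000003101 0.0000003101 0.0000003101 0.0000003101 0.0000003101 0.8398
    hβ hN hx1 hx2 hy1 hy2 (by norm_num) (by norm_num) (by norm_num) (by norm_num) (by norm_num) (by norm_num) (by norm_num) (by norm_num) (by norm_num) (by norm_num) (by norm_num) (by norm_num) (by norm_num) (by norm_num) (by norm_num) (by norm_num) (by norm_num) (by norm_num) (by norm_num) (by norm_num) (by norm_num) (by norm_num) (by norm_num) (by norm_num)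
    (cube_sqrt_geJ (s := 0.8043) (by norm_num) (by norm_num) (by norm_num) (by norm_num))
    (cube_sqrt_geJ (s := 0.9329) (by norm_num) (by norm_num) (by norm_num) (by norm_num))
    (by norm_num) (by norm_num) (by norm_num) (by norm_num) (by norm_num) (by norm_num) (by norm_num) (by norm_num) (by norm_num) (by norm_num) (by norm_num) (by norm_num) (by norm_num) (by norm_num) (by norm_num) (by norm_num) (by norm_num) (by norm_num)
    (exp_neg_leJ (r := 0.99) 14 (by norm_num) (by norm_num) (by norm_num) (by norm_num))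
    (exp_neg_leJ (r := 0.107) 10 (by norm_num) (by norm_num) (by norm_num) (by norm_num))
    (exp_neg_leJ (r := 0.99) 14 (by norm_num) (by norm_num) (by norm_num) (by norm_num))
    (exp_neg_leJ (r := 0.99) 14 (by norm_num) (by norm_num) (by norm_num) (by norm_num))
    (exp_neg_leJ (r := 0.99) 14 (by norm_num) (by norm_num) (by norm_num) (by norm_num))
    (exp_neg_leJ (r := 0.99) 14 (by norm_num) (by norm_num) (by norm_num) (by norm_num))
    (exp_neg_leJ (r := 0.99) 14 (by norm_num) (by norm_num) (by norm_num) (by norm_num))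
    (exp_neg_leJ (r := 0.99) 14 (by norm_num) (by norm_num) (by norm_num) (by norm_num))
    (by norm_num)

private theorem bxa17 {β x y : ℝ} (hβ : 0 < β) (hN : β * 22.2 ≤ 1) (hx1 : 1.44 ≤ x) (hx2 : x ≤ 1.5)
    (hy1 : -0.386 ≤ y) (hy2 : y ≤ -0.33) : ‖HH β (x + y * I) - 1‖ ≤ 0.8377 * β := by
  refine J_box 1.44 1.5 0.386 0 (-0.33) 1.4499 1.5489 1.6429 0.7342 0.5114 4.7117 22.2 1.0683 4.669 1.634 0.4868 0.7249 0.4667 0.8919 2.0121 0.8435 2.4938 3.4014 3.3817 0.0000003101 0.00003168 0.0000003101 0.0000003101 0.0000003101 0.0000003101 0.0000003101 0.0000003101 0.8377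
    hβ hN hx1 hx2 hy1 hy2 (by norm_num) (by norm_num) (by norm_num) (by norm_num) (by norm_num) (by norm_num) (by norm_num) (by norm_num) (by norm_num) (by norm_num) (by norm_num) (by norm_num) (by norm_num) (by norm_num) (by norm_num) (by norm_num) (by norm_num) (by norm_num) (by norm_num) (by norm_num) (by norm_num) (by norm_num) (by norm_num) (by norm_num)
    (cube_sqrt_geJ (s := 0.8024) (by norm_num) (by norm_num) (by norm_num) (by norm_num))
    (cube_sqrt_geJ (s := 0.9323) (by norm_num) (by norm_num) (by norm_num) (by norm_num))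
    (by norm_num) (by norm_num) (by norm_num) (by norm_num) (by norm_num) (by norm_num) (by norm_num) (by norm_num) (by norm_num) (by norm_num) (by norm_num) (by norm_num) (by norm_num) (by norm_num) (by norm_num) (by norm_num) (by norm_num) (by norm_num)
    (exp_neg_leJ (r := 0.99) 14 (by norm_num) (by norm_num) (by norm_num) (by norm_num))
    (exp_neg_leJ (r := 0.36) 10 (by norm_num) (by norm_num) (by norm_num) (by norm_num))
    (exp_neg_leJ (r := 0.99) 14 (by norm_num) (by norm_num) (by norm_num) (by norm_num))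
    (exp_neg_leJ (r := 0.99) 14 (by norm_num) (by norm_num) (by norm_num) (by norm_num))
    (exp_neg_leJ (r := 0.99) 14 (by norm_num) (by norm_num) (by norm_num) (by norm_num))
    (exp_neg_leJ (r := 0.99) 14 (by norm_num) (by norm_num) (by norm_num) (by norm_num))
    (exp_neg_leJ (r := 0.99) 14 (by norm_num) (by norm_num) (by norm_num) (by norm_num))
    (exp_neg_leJ (r := 0.99) 14 (by norm_num) (by norm_num) (by norm_num) (by norm_num))
    (by norm_num)

private theorem bxa18 {β x y : ℝ} (hβ : 0 < β) (hN : β * 22.2 ≤ 1) (hx1 : 1.5 ≤ x) (hx2 : x ≤ 1.56)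
    (hy1 : -0.386 ≤ y) (hy2 : y ≤ -0.33) : ‖HH β (x + y * I) - 1‖ ≤ 0.8359 * β := by
  refine J_box 1.5 1.56 0.386 0 (-0.33) 1.4921 1.6071 1.6978 0.715 0.5199 4.7117 22.2 1.0771 4.744 1.641 0.4638 0.746 0.4781 0.9124 1.9779 0.8727 2.5769 3.5214 3.3435 0.0000003101 0.00002461 0.0000003101 0.0000003101 0.0000003101 0.0000003101 0.0000003101 0.0000003101 0.8359
    hβ hN hx1 hx2 hy1 hy2 (by norm_num) (by norm_num) (by norm_num) (by norm_num) (by norm_num) (by norm_num) (by norm_num) (by norm_num) (by norm_num) (by norm_num) (by norm_num) (by norm_num) (by norm_num) (by norm_num) (by norm_num) (by norm_num) (by norm_num) (by norm_num) (by norm_num) (by norm_num) (by norm_num) (by norm_num) (by norm_num) (by norm_num)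
    (cube_sqrt_geJ (s := 0.8006) (by norm_num) (by norm_num) (by norm_num) (by norm_num))
    (cube_sqrt_geJ (s := 0.9317) (by norm_num) (by norm_num) (by norm_num) (by norm_num))
    (by norm_num) (by norm_num) (by norm_num) (by norm_num) (by norm_num) (by norm_num) (by norm_num) (by norm_num) (by norm_num) (by norm_num) (by norm_num) (by norm_num) (by norm_num) (by norm_num) (by norm_num) (by norm_num) (by norm_num) (by norm_num)
    (exp_neg_leJ (r := 0.99) 14 (by norm_num) (by norm_num) (by norm_num) (by norm_num))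
    (exp_neg_leJ (r := 0.613) 10 (by norm_num) (by norm_num) (by norm_num) (by norm_num))
    (exp_neg_leJ (r := 0.99) 14 (by norm_num) (by norm_num) (by norm_num) (by norm_num))
    (exp_neg_leJ (r := 0.99) 14 (by norm_num) (by norm_num) (by norm_num) (by norm_num))
    (exp_neg_leJ (r := 0.99) 14 (by norm_num) (by norm_num) (by norm_num) (by norm_num))
    (exp_neg_leJ (r := 0.99) 14 (by norm_num) (by norm_num) (by norm_num) (by norm_num))
    (exp_neg_leJ (r := 0.99) 14 (by norm_num) (by norm_num) (by norm_num) (by norm_num))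
    (exp_neg_leJ (r := 0.99) 14 (by norm_num) (by norm_num) (by norm_num) (by norm_num))
    (by norm_num)

private theorem bxa19 {β x y : ℝ} (hβ : 0 < β) (hN : β * 22.2 ≤ 1) (hx1 : 1.56 ≤ x) (hx2 : x ≤ 1.62)
    (hy1 : -0.386 ≤ y) (hy2 : y ≤ -0.33) : ‖HH β (x + y * I) - 1‖ ≤ 0.8335 * β := by
  refine J_box 1.56 1.62 0.386 0 (-0.33) 1.5344 1.6654 1.7531 0.6967 0.5283 4.7117 22.2 1.0854 4.817 1.648 0.4407 0.7671 0.4896 0.9329 1.9437 0.9018 2.6599 3.6414 3.305 0.0000003101 0.00001908 0.0000003101 0.0000003101 0.0000003101 0.0000003101 0.0000003101 0.0000003101 0.8335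
    hβ hN hx1 hx2 hy1 hy2 (by norm_num) (by norm_num) (by norm_num) (by norm_num) (by norm_num) (by norm_num) (by norm_num) (by norm_num) (by norm_num) (by norm_num) (by norm_num) (by norm_num) (by norm_num) (by norm_num) (by norm_num) (by norm_num) (by norm_num) (by norm_num) (by norm_num) (by norm_num) (by norm_num) (by norm_num) (by norm_num) (by norm_num)
    (cube_sqrt_geJ (s := 0.7988) (by norm_num) (by norm_num) (by norm_num) (by norm_num))
    (cube_sqrt_geJ (s := 0.9311) (by norm_num) (by norm_num) (by norm_num) (by norm_num))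
    (by norm_num) (by norm_num) (by norm_num) (by norm_num) (by norm_num) (by norm_num) (by norm_num) (by norm_num) (by norm_num) (by norm_num) (by norm_num) (by norm_num) (by norm_num) (by norm_num) (by norm_num) (by norm_num) (by norm_num) (by norm_num)
    (exp_neg_leJ (r := 0.99) 14 (by norm_num) (by norm_num) (by norm_num) (by norm_num))
    (exp_neg_leJ (r := 0.869) 10 (by norm_num) (by norm_num) (by norm_num) (by norm_num))
    (exp_neg_leJ (r := 0.99) 14 (by norm_num) (by norm_num) (by norm_num) (by norm_num))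
    (exp_neg_leJ (r := 0.99) 14 (by norm_num) (by norm_num) (by norm_num) (by norm_num))
    (exp_neg_leJ (r := 0.99) 14 (by norm_num) (by norm_num) (by norm_num) (by norm_num))
    (exp_neg_leJ (r := 0.99) 14 (by norm_num) (by norm_num) (by norm_num) (by norm_num))
    (exp_neg_leJ (r := 0.99) 14 (by norm_num) (by norm_num) (by norm_num) (by norm_num))
    (exp_neg_leJ (r := 0.99) 14 (by norm_num) (by norm_num) (by norm_num) (by norm_num))
    (by norm_num)

private theorem bxa20 {β x y : ℝ} (hβ : 0 < β) (hN : β * 22.2 ≤ 1) (hx1 : 1.62 ≤ x) (hx2 : x ≤ 1.68)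
    (hy1 : -0.386 ≤ y) (hy2 : y ≤ -0.33) : ‖HH β (x + y * I) - 1‖ ≤ 0.8309 * β := by
  refine J_box 1.62 1.68 0.386 0 (-0.33) 1.5766 1.7238 1.8087 0.6794 0.5366 4.7117 22.2 1.0934 4.887 1.654 0.4176 0.7882 0.5009 0.9535 1.9094 0.931 2.743 3.7614 3.2662 0.0000003101 0.00001483 0.0000003101 0.0000003101 0.0000003101 0.0000003101 0.0000003101 0.0000003101 0.8309
    hβ hN hx1 hx2 hy1 hy2 (by norm_num) (by norm_num) (by norm_num) (by norm_num) (by norm_num) (by norm_num) (by norm_num) (by norm_num) (by norm_num) (by norm_num) (by norm_num) (by norm_num) (by norm_num) (by norm_num) (by norm_num) (by norm_num) (by norm_num) (by norm_num) (by norm_num) (by norm_num) (by norm_num) (by norm_num) (by norm_num) (by norm_num)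
    (cube_sqrt_geJ (s := 0.7972) (by norm_num) (by norm_num) (by norm_num) (by norm_num))
    (cube_sqrt_geJ (s := 0.9306) (by norm_num) (by norm_num) (by norm_num) (by norm_num))
    (by norm_num) (by norm_num) (by norm_num) (by norm_num) (by norm_num) (by norm_num) (by norm_num) (by norm_num) (by norm_num) (by norm_num) (by norm_num) (by norm_num) (by norm_num) (by norm_num) (by norm_num) (by norm_num) (by norm_num) (by norm_num)
    (exp_neg_leJ (r := 0.99) 14 (by norm_num) (by norm_num) (by norm_num) (by norm_num))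
    (exp_neg_leJ (r := 0.119) 11 (by norm_num) (by norm_num) (by norm_num) (by norm_num))
    (exp_neg_leJ (r := 0.99) 14 (by norm_num) (by norm_num) (by norm_num) (by norm_num))
    (exp_neg_leJ (r := 0.99) 14 (by norm_num) (by norm_num) (by norm_num) (by norm_num))
    (exp_neg_leJ (r := 0.99) 14 (by norm_num) (by norm_num) (by norm_num) (by norm_num))
    (exp_neg_leJ (r := 0.99) 14 (by norm_num) (by norm_num) (by norm_num) (by norm_num))
    (exp_neg_leJ (r := 0.99) 14 (by norm_num) (by norm_num) (by norm_num) (by norm_num))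
    (exp_neg_leJ (r := 0.99) 14 (by norm_num) (by norm_num) (by norm_num) (by norm_num))
    (by norm_num)

private theorem bxa21 {β x y : ℝ} (hβ : 0 < β) (hN : β * 22.2 ≤ 1) (hx1 : 1.68 ≤ x) (hx2 : x ≤ 1.74)
    (hy1 : -0.386 ≤ y) (hy2 : y ≤ -0.33) : ‖HH β (x + y * I) - 1‖ ≤ 0.8283 * β := by
  refine J_box 1.68 1.74 0.386 0 (-0.33) 1.6189 1.7824 1.8646 0.663 0.5448 4.7117 22.2 1.101 4.956 1.661 0.3945 0.8094 0.5123 0.974 1.8751 0.9601 2.8261 3.8814 3.227 0.0000003101 0.00001151 0.0000003101 0.0000003101 0.0000003101 0.0000003101 0.0000003101 0.0000003101 0.8283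
    hβ hN hx1 hx2 hy1 hy2 (by norm_num) (by norm_num) (by norm_num) (by norm_num) (by norm_num) (by norm_num) (by norm_num) (by norm_num) (by norm_num) (by norm_num) (by norm_num) (by norm_num) (by norm_num) (by norm_num) (by norm_num) (by norm_num) (by norm_num) (by norm_num) (by norm_num) (by norm_num) (by norm_num) (by norm_num) (by norm_num) (by norm_num)
    (cube_sqrt_geJ (s := 0.7956) (by norm_num) (by norm_num) (by norm_num) (by norm_num))
    (cube_sqrt_geJ (s := 0.9301) (by norm_num) (by norm_num) (by norm_num) (by norm_num))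
    (by norm_num) (by norm_num) (by norm_num) (by norm_num) (by norm_num) (by norm_num) (by norm_num) (by norm_num) (by norm_num) (by norm_num) (by norm_num) (by norm_num) (by norm_num) (by norm_num) (by norm_num) (by norm_num) (by norm_num) (by norm_num)
    (exp_neg_leJ (r := 0.99) 14 (by norm_num) (by norm_num) (by norm_num) (by norm_num))
    (exp_neg_leJ (r := 0.373) 11 (by norm_num) (by norm_num) (by norm_num) (by norm_num))
    (exp_neg_leJ (r := 0.99) 14 (by norm_num) (by norm_num) (by norm_num) (by norm_num))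
    (exp_neg_leJ (r := 0.99) 14 (by norm_num) (by norm_num) (by norm_num) (by norm_num))
    (exp_neg_leJ (r := 0.99) 14 (by norm_num) (by norm_num) (by norm_num) (by norm_num))
    (exp_neg_leJ (r := 0.99) 14 (by norm_num) (by norm_num) (by norm_num) (by norm_num))
    (exp_neg_leJ (r := 0.99) 14 (by norm_num) (by norm_num) (by norm_num) (by norm_num))
    (exp_neg_leJ (r := 0.99) 14 (by norm_num) (by norm_num) (by norm_num) (by norm_num))
    (by norm_num)

private theorem bxa22 {β x y : ℝ} (hβ : 0 < β) (hN : β * 22.2 ≤ 1) (hx1 : 1.74 ≤ x) (hx2 : x ≤ 1.81)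
    (hy1 : -0.386 ≤ y) (hy2 : y ≤ -0.33) : ‖HH β (x + y * I) - 1‖ ≤ 0.8415 * β := by
  refine J_box 1.74 1.81 0.386 0 (-0.33) 1.6611 1.8508 1.9301 0.649 0.5543 4.7117 22.2 1.1143 5.08 1.672 0.3676 0.8305 0.522 0.9946 1.8351 0.9893 2.9092 4.0014 3.161 0.0000003101 0.000009281 0.0000003101 0.0000003101 0.0000003101 0.0000003101 0.0000003101 0.0000003101 0.8415
    hβ hN hx1 hx2 hy1 hy2 (by norm_num) (by norm_num) (by norm_num) (by norm_num) (by norm_num) (by norm_num) (by norm_num) (by norm_num) (by norm_num) (by norm_num) (by norm_num) (by norm_num) (by norm_num) (by norm_num) (by norm_num) (by norm_num) (by norm_num) (by norm_num) (by norm_num) (by norm_num) (by norm_num) (by norm_num) (by norm_num) (by norm_num)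
    (cube_sqrt_geJ (s := 0.7928) (by norm_num) (by norm_num) (by norm_num) (by norm_num))
    (cube_sqrt_geJ (s := 0.9292) (by norm_num) (by norm_num) (by norm_num) (by norm_num))
    (by norm_num) (by norm_num) (by norm_num) (by norm_num) (by norm_num) (by norm_num) (by norm_num) (by norm_num) (by norm_num) (by norm_num) (by norm_num) (by norm_num) (by norm_num) (by norm_num) (by norm_num) (by norm_num) (by norm_num) (by norm_num)
    (exp_neg_leJ (r := 0.99) 14 (by norm_num) (by norm_num) (by norm_num) (by norm_num))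
    (exp_neg_leJ (r := 0.588) 11 (by norm_num) (by norm_num) (by norm_num) (by norm_num))
    (exp_neg_leJ (r := 0.99) 14 (by norm_num) (by norm_num) (by norm_num) (by norm_num))
    (exp_neg_leJ (r := 0.99) 14 (by norm_num) (by norm_num) (by norm_num) (by norm_num))
    (exp_neg_leJ (r := 0.99) 14 (by norm_num) (by norm_num) (by norm_num) (by norm_num))
    (exp_neg_leJ (r := 0.99) 14 (by norm_num) (by norm_num) (by norm_num) (by norm_num))
    (exp_neg_leJ (r := 0.99) 14 (by norm_num) (by norm_num) (by norm_num) (by norm_num))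
    (exp_neg_leJ (r := 0.99) 14 (by norm_num) (by norm_num) (by norm_num) (by norm_num))
    (by norm_num)

private theorem bxa23 {β x y : ℝ} (hβ : 0 < β) (hN : β * 22.2 ≤ 1) (hx1 : 1.81 ≤ x) (hx2 : x ≤ 1.845)
    (hy1 : -0.386 ≤ y) (hy2 : y ≤ -0.33) : ‖HH β (x + y * I) - 1‖ ≤ 0.7849 * β := by
  refine J_box 1.81 1.845 0.386 0 (-0.33) 1.7104 1.885 1.9629 0.6264 0.559 4.7117 22.2 1.1021 4.967 1.662 0.3541 0.8551 0.541 1.0185 1.8151 1.0233 3.0061 4.1414 3.2081 0.0000003101 0.000006084 0.0000003101 0.0000003101 0.0000003101 0.0000003101 0.0000003101 0.0000003101 0.7849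
    hβ hN hx1 hx2 hy1 hy2 (by norm_num) (by norm_num) (by norm_num) (by norm_num) (by norm_num) (by norm_num) (by norm_num) (by norm_num) (by norm_num) (by norm_num) (by norm_num) (by norm_num) (by norm_num) (by norm_num) (by norm_num) (by norm_num) (by norm_num) (by norm_num) (by norm_num) (by norm_num) (by norm_num) (by norm_num) (by norm_num) (by norm_num)
    (cube_sqrt_geJ (s := 0.7953) (by norm_num) (by norm_num) (by norm_num) (by norm_num))
    (cube_sqrt_geJ (s := 0.93) (by norm_num) (by norm_num) (by norm_num) (by norm_num))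
    (by norm_num) (by norm_num) (by norm_num) (by norm_num) (by norm_num) (by norm_num) (by norm_num) (by norm_num) (by norm_num) (by norm_num) (by norm_num) (by norm_num) (by norm_num) (by norm_num) (by norm_num) (by norm_num) (by norm_num) (by norm_num)
    (exp_neg_leJ (r := 0.99) 14 (by norm_num) (by norm_num) (by norm_num) (by norm_num))
    (exp_neg_leJ (r := 0.01) 12 (by norm_num) (by norm_num) (by norm_num) (by norm_num))
    (exp_neg_leJ (r := 0.99) 14 (by norm_num) (by norm_num) (by norm_num) (by norm_num))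
    (exp_neg_leJ (r := 0.99) 14 (by norm_num) (by norm_num) (by norm_num) (by norm_num))
    (exp_neg_leJ (r := 0.99) 14 (by norm_num) (by norm_num) (by norm_num) (by norm_num))
    (exp_neg_leJ (r := 0.99) 14 (by norm_num) (by norm_num) (by norm_num) (by norm_num))
    (exp_neg_leJ (r := 0.99) 14 (by norm_num) (by norm_num) (by norm_num) (by norm_num))
    (exp_neg_leJ (r := 0.99) 14 (by norm_num) (by norm_num) (by norm_num) (by norm_num))
    (by norm_num)

theorem JD2_a {β x y : ℝ} (hβ : 0 < β) (hN : β * 22.2 ≤ 1) (hx1 : 0.58 ≤ x) (hx2 : x ≤ 1.845) (hy1 : -0.386 ≤ y) (hy2 : y ≤ -0.33) :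
    ‖HH β (x + y * I) - 1‖ ≤ 0.038 := by
  have hym : -0.386 ≤ y := by linarith
  rcases le_total x 0.62 with f0 | g0
  · exact epsOf hβ hN (by norm_num) (by norm_num) (bxa0 hβ hN hx1 f0 hym hy2)
  rcases le_total x 0.66 with f1 | g1
  · exact epsOf hβ hN (by norm_num) (by norm_num) (bxa1 hβ hN g0 f1 hym hy2)
  rcases le_total x 0.71 with f2 | g2
  · exact epsOf hβ hN (by norm_num) (by norm_num) (bxa2 hβ hN g1 f2 hym hy2)
  rcases le_total x 0.76 with f3 | g3
  · exact epsOf hβ hN (by norm_num) (by norm_num) (bxa3 hβ hN g2 f3 hym hy2)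
  rcases le_total x 0.81 with f4 | g4
  · exact epsOf hβ hN (by norm_num) (by norm_num) (bxa4 hβ hN g3 f4 hym hy2)
  rcases le_total x 0.86 with f5 | g5
  · exact epsOf hβ hN (by norm_num) (by norm_num) (bxa5 hβ hN g4 f5 hym hy2)
  rcases le_total x 0.91 with f6 | g6
  · exact epsOf hβ hN (by norm_num) (by norm_num) (bxa6 hβ hN g5 f6 hym hy2)
  rcases le_total x 0.96 with f7 | g7
  · exact epsOf hβ hN (by norm_num) (by norm_num) (bxa7 hβ hN g6 f7 hym hy2)
  rcases le_total x 1.01 with f8 | g8
  · exact epsOf hβ hN (by norm_num) (by norm_num) (bxa8 hβ hN g7 f8 hym hy2)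
  rcases le_total x 1.06 with f9 | g9
  · exact epsOf hβ hN (by norm_num) (by norm_num) (bxa9 hβ hN g8 f9 hym hy2)
  rcases le_total x 1.11 with f10 | g10
  · exact epsOf hβ hN (by norm_num) (by norm_num) (bxa10 hβ hN g9 f10 hym hy2)
  rcases le_total x 1.16 with f11 | g11
  · exact epsOf hβ hN (by norm_num) (by norm_num) (bxa11 hβ hN g10 f11 hym hy2)
  rcases le_total x 1.21 with f12 | g12
  · exact epsOf hβ hN (by norm_num) (by norm_num) (bxa12 hβ hN g11 f12 hym hy2)
  rcases le_total x 1.26 with f13 | g13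
  · exact epsOf hβ hN (by norm_num) (by norm_num) (bxa13 hβ hN g12 f13 hym hy2)
  rcases le_total x 1.32 with f14 | g14
  · exact epsOf hβ hN (by norm_num) (by norm_num) (bxa14 hβ hN g13 f14 hym hy2)
  rcases le_total x 1.38 with f15 | g15
  · exact epsOf hβ hN (by norm_num) (by norm_num) (bxa15 hβ hN g14 f15 hym hy2)
  rcases le_total x 1.44 with f16 | g16
  · exact epsOf hβ hN (by norm_num) (by norm_num) (bxa16 hβ hN g15 f16 hym hy2)
  rcases le_total x 1.5 with f17 | g17
  · exact epsOf hβ hN (by norm_num) (by norm_num) (bxa17 hβ hN g16 f17 hym hy2)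
  rcases le_total x 1.56 with f18 | g18
  · exact epsOf hβ hN (by norm_num) (by norm_num) (bxa18 hβ hN g17 f18 hym hy2)
  rcases le_total x 1.62 with f19 | g19
  · exact epsOf hβ hN (by norm_num) (by norm_num) (bxa19 hβ hN g18 f19 hym hy2)
  rcases le_total x 1.68 with f20 | g20
  · exact epsOf hβ hN (by norm_num) (by norm_num) (bxa20 hβ hN g19 f20 hym hy2)
  rcases le_total x 1.74 with f21 | g21
  · exact epsOf hβ hN (by norm_num) (by norm_num) (bxa21 hβ hN g20 f21 hym hy2)
  rcases le_total x 1.81 with f22 | g22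
  · exact epsOf hβ hN (by norm_num) (by norm_num) (bxa22 hβ hN g21 f22 hym hy2)
  exact epsOf hβ hN (by norm_num) (by norm_num) (bxa23 hβ hN g22 hx2 hym hy2)

private theorem bxb0 {β x y : ℝ} (hβ : 0 < β) (hN : β * 22.2 ≤ 1) (hx1 : 0.44 ≤ x) (hx2 : x ≤ 0.55)
    (hy1 : -0.33 ≤ y) (hy2 : y ≤ -0.2) : ‖HH β (x + y * I) - 1‖ ≤ 0.8417 * β := by
  refine J_box 0.44 0.55 0.33 0 (-0.2) 0.7855 0.6415 0.9709 1.4154 0.3931 4.7117 22.2 0.8167 3.042 1.447 0.9039 0.3927 0.2858 0.638 2.7256 0.3884 1.1092 1.5536 3.8483 0.000164 0.001758 0.0000007065 0.0000003101 0.0001802 0.0000003101 0.0000003101 0.0000003101 0.8417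
    hβ hN hx1 hx2 hy1 hy2 (by norm_num) (by norm_num) (by norm_num) (by norm_num) (by norm_num) (by norm_num) (by norm_num) (by norm_num) (by norm_num) (by norm_num) (by norm_num) (by norm_num) (by norm_num) (by norm_num) (by norm_num) (by norm_num) (by norm_num) (by norm_num) (by norm_num) (by norm_num) (by norm_num) (by norm_num) (by norm_num) (by norm_num)
    (cube_sqrt_geJ (s := 0.853) (by norm_num) (by norm_num) (by norm_num) (by norm_num))
    (cube_sqrt_geJ (s := 0.9486) (by norm_num) (by norm_num) (by norm_num) (by norm_num))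
    (by norm_num) (by norm_num) (by norm_num) (by norm_num) (by norm_num) (by norm_num) (by norm_num) (by norm_num) (by norm_num) (by norm_num) (by norm_num) (by norm_num) (by norm_num) (by norm_num) (by norm_num) (by norm_num) (by norm_num) (by norm_num)
    (exp_neg_leJ (r := 0.717) 8 (by norm_num) (by norm_num) (by norm_num) (by norm_num))
    (exp_neg_leJ (r := 0.344) 6 (by norm_num) (by norm_num) (by norm_num) (by norm_num))
    (exp_neg_leJ (r := 0.163) 14 (by norm_num) (by norm_num) (by norm_num) (by norm_num))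
    (exp_neg_leJ (r := 0.99) 14 (by norm_num) (by norm_num) (by norm_num) (by norm_num))
    (exp_neg_leJ (r := 0.622) 8 (by norm_num) (by norm_num) (by norm_num) (by norm_num))
    (exp_neg_leJ (r := 0.99) 14 (by norm_num) (by norm_num) (by norm_num) (by norm_num))
    (exp_neg_leJ (r := 0.99) 14 (by norm_num) (by norm_num) (by norm_num) (by norm_num))
    (exp_neg_leJ (r := 0.99) 14 (by norm_num) (by norm_num) (by norm_num) (by norm_num))
    (by norm_num)

private theorem bxb1 {β x y : ℝ} (hβ : 0 < β) (hN : β * 22.2 ≤ 1) (hx1 : 0.55 ≤ x) (hx2 : x ≤ 0.66)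
    (hy1 : -0.33 ≤ y) (hy2 : y ≤ -0.2) : ‖HH β (x + y * I) - 1‖ ≤ 0.8228 * β := by
  refine J_box 0.55 0.66 0.33 0 (-0.2) 0.863 0.738 1.0372 1.2704 0.4063 4.7117 22.2 0.8552 3.237 1.473 0.8616 0.4314 0.3084 0.6756 2.6657 0.4418 1.2615 1.7736 3.8059 0.00006933 0.001066 0.0000003101 0.0000003101 0.00005515 0.0000003101 0.0000003101 0.0000003101 0.8228
    hβ hN hx1 hx2 hy1 hy2 (by norm_num) (by norm_num) (by norm_num) (by norm_num) (by norm_num) (by norm_num) (by norm_num) (by norm_num) (by norm_num) (by norm_num) (by norm_num) (by norm_num) (by norm_num) (by norm_num) (by norm_num) (by norm_num) (by norm_num) (by norm_num) (by norm_num) (by norm_num) (by norm_num) (by norm_num) (by norm_num) (by norm_num)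
    (cube_sqrt_geJ (s := 0.8455) (by norm_num) (by norm_num) (by norm_num) (by norm_num))
    (cube_sqrt_geJ (s := 0.9461) (by norm_num) (by norm_num) (by norm_num) (by norm_num))
    (by norm_num) (by norm_num) (by norm_num) (by norm_num) (by norm_num) (by norm_num) (by norm_num) (by norm_num) (by norm_num) (by norm_num) (by norm_num) (by norm_num) (by norm_num) (by norm_num) (by norm_num) (by norm_num) (by norm_num) (by norm_num)
    (exp_neg_leJ (r := 0.577) 9 (by norm_num) (by norm_num) (by norm_num) (by norm_num))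
    (exp_neg_leJ (r := 0.846) 6 (by norm_num) (by norm_num) (by norm_num) (by norm_num))
    (exp_neg_leJ (r := 0.99) 14 (by norm_num) (by norm_num) (by norm_num) (by norm_num))
    (exp_neg_leJ (r := 0.99) 14 (by norm_num) (by norm_num) (by norm_num) (by norm_num))
    (exp_neg_leJ (r := 0.807) 9 (by norm_num) (by norm_num) (by norm_num) (by norm_num))
    (exp_neg_leJ (r := 0.99) 14 (by norm_num) (by norm_num) (by norm_num) (by norm_num))
    (exp_neg_leJ (r := 0.99) 14 (by norm_num) (by norm_num) (by norm_num) (by norm_num))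
    (exp_neg_leJ (r := 0.99) 14 (by norm_num) (by norm_num) (by norm_num) (by norm_num))
    (by norm_num)

private theorem bxb2 {β x y : ℝ} (hβ : 0 < β) (hN : β * 22.2 ≤ 1) (hx1 : 0.66 ≤ x) (hx2 : x ≤ 0.78)
    (hy1 : -0.33 ≤ y) (hy2 : y ≤ -0.2) : ‖HH β (x + y * I) - 1‖ ≤ 0.8431 * β := by
  refine J_box 0.66 0.78 0.33 0 (-0.2) 0.9404 0.847 1.1174 1.1592 0.4218 4.7117 22.2 0.9007 3.489 1.506 0.8155 0.4701 0.329 0.7133 2.5993 0.4953 1.4138 1.9936 3.7296 0.00002936 0.0006736 0.0000003101 0.0000003101 0.00001693 0.0000003101 0.0000003101 0.0000003101 0.8431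
    hβ hN hx1 hx2 hy1 hy2 (by norm_num) (by norm_num) (by norm_num) (by norm_num) (by norm_num) (by norm_num) (by norm_num) (by norm_num) (by norm_num) (by norm_num) (by norm_num) (by norm_num) (by norm_num) (by norm_num) (by norm_num) (by norm_num) (by norm_num) (by norm_num) (by norm_num) (by norm_num) (by norm_num) (by norm_num) (by norm_num) (by norm_num)
    (cube_sqrt_geJ (s := 0.8365) (by norm_num) (by norm_num) (by norm_num) (by norm_num))
    (cube_sqrt_geJ (s := 0.9432) (by norm_num) (by norm_num) (by norm_num) (by norm_num))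
    (by norm_num) (by norm_num) (by norm_num) (by norm_num) (by norm_num) (by norm_num) (by norm_num) (by norm_num) (by norm_num) (by norm_num) (by norm_num) (by norm_num) (by norm_num) (by norm_num) (by norm_num) (by norm_num) (by norm_num) (by norm_num)
    (exp_neg_leJ (r := 0.436) 10 (by norm_num) (by norm_num) (by norm_num) (by norm_num))
    (exp_neg_leJ (r := 0.303) 7 (by norm_num) (by norm_num) (by norm_num) (by norm_num))
    (exp_neg_leJ (r := 0.99) 14 (by norm_num) (by norm_num) (by norm_num) (by norm_num))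
    (exp_neg_leJ (r := 0.99) 14 (by norm_num) (by norm_num) (by norm_num) (by norm_num))
    (exp_neg_leJ (r := 0.99) 10 (by norm_num) (by norm_num) (by norm_num) (by norm_num))
    (exp_neg_leJ (r := 0.99) 14 (by norm_num) (by norm_num) (by norm_num) (by norm_num))
    (exp_neg_leJ (r := 0.99) 14 (by norm_num) (by norm_num) (by norm_num) (by norm_num))
    (exp_neg_leJ (r := 0.99) 14 (by norm_num) (by norm_num) (by norm_num) (by norm_num))
    (by norm_num)

private theorem bxb3 {β x y : ℝ} (hβ : 0 < β) (hN : β * 22.2 ≤ 1) (hx1 : 0.78 ≤ x) (hx2 : x ≤ 0.9)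
    (hy1 : -0.33 ≤ y) (hy2 : y ≤ -0.2) : ‖HH β (x + y * I) - 1‖ ≤ 0.8411 * β := by
  refine J_box 0.78 0.9 0.33 0 (-0.2) 1.0249 0.9586 1.2042 1.0577 0.4378 4.7117 22.2 0.9354 3.699 1.531 0.7693 0.5124 0.3526 0.7543 2.5322 0.5536 1.5799 2.2336 3.6663 0.00001148 0.0003995 0.0000003101 0.0000003101 0.000004603 0.0000003101 0.0000003101 0.0000003101 0.8411
    hβ hN hx1 hx2 hy1 hy2 (by norm_num) (by norm_num) (by norm_num) (by norm_num) (by norm_num) (by norm_num) (by norm_num) (by norm_num) (by norm_num) (by norm_num) (by norm_num) (by norm_num) (by norm_num) (by norm_num) (by norm_num) (by norm_num) (by norm_num) (by norm_num) (by norm_num) (by norm_num) (by norm_num) (by norm_num) (by norm_num) (by norm_num)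
    (cube_sqrt_geJ (s := 0.8295) (by norm_num) (by norm_num) (by norm_num) (by norm_num))
    (cube_sqrt_geJ (s := 0.9409) (by norm_num) (by norm_num) (by norm_num) (by norm_num))
    (by norm_num) (by norm_num) (by norm_num) (by norm_num) (by norm_num) (by norm_num) (by norm_num) (by norm_num) (by norm_num) (by norm_num) (by norm_num) (by norm_num) (by norm_num) (by norm_num) (by norm_num) (by norm_num) (by norm_num) (by norm_num)
    (exp_neg_leJ (r := 0.375) 11 (by norm_num) (by norm_num) (by norm_num) (by norm_num))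
    (exp_neg_leJ (r := 0.827) 7 (by norm_num) (by norm_num) (by norm_num) (by norm_num))
    (exp_neg_leJ (r := 0.99) 14 (by norm_num) (by norm_num) (by norm_num) (by norm_num))
    (exp_neg_leJ (r := 0.99) 14 (by norm_num) (by norm_num) (by norm_num) (by norm_num))
    (exp_neg_leJ (r := 0.289) 12 (by norm_num) (by norm_num) (by norm_num) (by norm_num))
    (exp_neg_leJ (r := 0.99) 14 (by norm_num) (by norm_num) (by norm_num) (by norm_num))
    (exp_neg_leJ (r := 0.99) 14 (by norm_num) (by norm_num) (by norm_num) (by norm_num))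
    (exp_neg_leJ (r := 0.99) 14 (by norm_num) (by norm_num) (by norm_num) (by norm_num))
    (by norm_num)

private theorem bxb4 {β x y : ℝ} (hβ : 0 < β) (hN : β * 22.2 ≤ 1) (hx1 : 0.9 ≤ x) (hx2 : x ≤ 1.02)
    (hy1 : -0.33 ≤ y) (hy2 : y ≤ -0.2) : ‖HH β (x + y * I) - 1‖ ≤ 0.8413 * β := by
  refine J_box 0.9 1.02 0.33 0 (-0.2) 1.1094 1.0721 1.2964 0.9744 0.4543 4.7117 22.2 0.9664 3.9 1.555 0.7231 0.5546 0.376 0.7954 2.4646 0.6118 1.7461 2.4736 3.5978 0.000004498 0.0002372 0.0000003101 0.0000003101 0.000001265 0.0000003101 0.0000003101 0.0000003101 0.8413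
    hβ hN hx1 hx2 hy1 hy2 (by norm_num) (by norm_num) (by norm_num) (by norm_num) (by norm_num) (by norm_num) (by norm_num) (by norm_num) (by norm_num) (by norm_num) (by norm_num) (by norm_num) (by norm_num) (by norm_num) (by norm_num) (by norm_num) (by norm_num) (by norm_num) (by norm_num) (by norm_num) (by norm_num) (by norm_num) (by norm_num) (by norm_num)
    (cube_sqrt_geJ (s := 0.8233) (by norm_num) (by norm_num) (by norm_num) (by norm_num))
    (cube_sqrt_geJ (s := 0.9389) (by norm_num) (by norm_num) (by norm_num) (by norm_num))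
    (by norm_num) (by norm_num) (by norm_num) (by norm_num) (by norm_num) (by norm_num) (by norm_num) (by norm_num) (by norm_num) (by norm_num) (by norm_num) (by norm_num) (by norm_num) (by norm_num) (by norm_num) (by norm_num) (by norm_num) (by norm_num)
    (exp_neg_leJ (r := 0.312) 12 (by norm_num) (by norm_num) (by norm_num) (by norm_num))
    (exp_neg_leJ (r := 0.347) 8 (by norm_num) (by norm_num) (by norm_num) (by norm_num))
    (exp_neg_leJ (r := 0.99) 14 (by norm_num) (by norm_num) (by norm_num) (by norm_num))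
    (exp_neg_leJ (r := 0.99) 14 (by norm_num) (by norm_num) (by norm_num) (by norm_num))
    (exp_neg_leJ (r := 0.581) 13 (by norm_num) (by norm_num) (by norm_num) (by norm_num))
    (exp_neg_leJ (r := 0.99) 14 (by norm_num) (by norm_num) (by norm_num) (by norm_num))
    (exp_neg_leJ (r := 0.99) 14 (by norm_num) (by norm_num) (by norm_num) (by norm_num))
    (exp_neg_leJ (r := 0.99) 14 (by norm_num) (by norm_num) (by norm_num) (by norm_num))
    (by norm_num)

private theorem bxb5 {β x y : ℝ} (hβ : 0 < β) (hN : β * 22.2 ≤ 1) (hx1 : 1.02 ≤ x) (hx2 : x ≤ 1.14)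
    (hy1 : -0.33 ≤ y) (hy2 : y ≤ -0.2) : ‖HH β (x + y * I) - 1‖ ≤ 0.842 * β := by
  refine J_box 1.02 1.14 0.33 0 (-0.2) 1.1939 1.1869 1.3927 0.9047 0.4709 4.7117 22.2 0.9942 4.093 1.576 0.677 0.5969 0.3991 0.8365 2.3966 0.6701 1.9123 2.7136 3.5257 0.000001759 0.0001423 0.0000003101 0.0000003101 0.0000003471 0.0000003101 0.0000003101 0.0000003101 0.842
    hβ hN hx1 hx2 hy1 hy2 (by norm_num) (by norm_num) (by norm_num) (by norm_num) (by norm_num) (by norm_num) (by norm_num) (by norm_num) (by norm_num) (by norm_num) (by norm_num) (by norm_num) (by norm_num) (by norm_num) (by norm_num) (by norm_num) (by norm_num) (by norm_num) (by norm_num) (by norm_num) (by norm_num) (by norm_num) (by norm_num) (by norm_num)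
    (cube_sqrt_geJ (s := 0.8176) (by norm_num) (by norm_num) (by norm_num) (by norm_num))
    (cube_sqrt_geJ (s := 0.9371) (by norm_num) (by norm_num) (by norm_num) (by norm_num))
    (by norm_num) (by norm_num) (by norm_num) (by norm_num) (by norm_num) (by norm_num) (by norm_num) (by norm_num) (by norm_num) (by norm_num) (by norm_num) (by norm_num) (by norm_num) (by norm_num) (by norm_num) (by norm_num) (by norm_num) (by norm_num)
    (exp_neg_leJ (r := 0.251) 13 (by norm_num) (by norm_num) (by norm_num) (by norm_num))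
    (exp_neg_leJ (r := 0.86) 8 (by norm_num) (by norm_num) (by norm_num) (by norm_num))
    (exp_neg_leJ (r := 0.99) 14 (by norm_num) (by norm_num) (by norm_num) (by norm_num))
    (exp_neg_leJ (r := 0.99) 14 (by norm_num) (by norm_num) (by norm_num) (by norm_num))
    (exp_neg_leJ (r := 0.876) 14 (by norm_num) (by norm_num) (by norm_num) (by norm_num))
    (exp_neg_leJ (r := 0.99) 14 (by norm_num) (by norm_num) (by norm_num) (by norm_num))
    (exp_neg_leJ (r := 0.99) 14 (by norm_num) (by norm_num) (by norm_num) (by norm_num))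
    (exp_neg_leJ (r := 0.99) 14 (by norm_num) (by norm_num) (by norm_num) (by norm_num))
    (by norm_num)

private theorem bxb6 {β x y : ℝ} (hβ : 0 < β) (hN : β * 22.2 ≤ 1) (hx1 : 1.14 ≤ x) (hx2 : x ≤ 1.26)
    (hy1 : -0.33 ≤ y) (hy2 : y ≤ -0.2) : ‖HH β (x + y * I) - 1‖ ≤ 0.8415 * β := by
  refine J_box 1.14 1.26 0.33 0 (-0.2) 1.2784 1.3025 1.4926 0.8453 0.4874 4.7117 22.2 1.0189 4.274 1.595 0.6308 0.6391 0.4221 0.8776 2.3284 0.7284 2.0784 2.9536 3.4515 0.0000006891 0.00008525 0.0000003101 0.0000003101 0.0000003101 0.0000003101 0.0000003101 0.0000003101 0.8415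
    hβ hN hx1 hx2 hy1 hy2 (by norm_num) (by norm_num) (by norm_num) (by norm_num) (by norm_num) (by norm_num) (by norm_num) (by norm_num) (by norm_num) (by norm_num) (by norm_num) (by norm_num) (by norm_num) (by norm_num) (by norm_num) (by norm_num) (by norm_num) (by norm_num) (by norm_num) (by norm_num) (by norm_num) (by norm_num) (by norm_num) (by norm_num)
    (cube_sqrt_geJ (s := 0.8126) (by norm_num) (by norm_num) (by norm_num) (by norm_num))
    (cube_sqrt_geJ (s := 0.9355) (by norm_num) (by norm_num) (by norm_num) (by norm_num))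
    (by norm_num) (by norm_num) (by norm_num) (by norm_num) (by norm_num) (by norm_num) (by norm_num) (by norm_num) (by norm_num) (by norm_num) (by norm_num) (by norm_num) (by norm_num) (by norm_num) (by norm_num) (by norm_num) (by norm_num) (by norm_num)
    (exp_neg_leJ (r := 0.188) 14 (by norm_num) (by norm_num) (by norm_num) (by norm_num))
    (exp_neg_leJ (r := 0.37) 9 (by norm_num) (by norm_num) (by norm_num) (by norm_num))
    (exp_neg_leJ (r := 0.99) 14 (by norm_num) (by norm_num) (by norm_num) (by norm_num))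
    (exp_neg_leJ (r := 0.99) 14 (by norm_num) (by norm_num) (by norm_num) (by norm_num))
    (exp_neg_leJ (r := 0.99) 14 (by norm_num) (by norm_num) (by norm_num) (by norm_num))
    (exp_neg_leJ (r := 0.99) 14 (by norm_num) (by norm_num) (by norm_num) (by norm_num))
    (exp_neg_leJ (r := 0.99) 14 (by norm_num) (by norm_num) (by norm_num) (by norm_num))
    (exp_neg_leJ (r := 0.99) 14 (by norm_num) (by norm_num) (by norm_num) (by norm_num))
    (by norm_num)

private theorem bxb7 {β x y : ℝ} (hβ : 0 < β) (hN : β * 22.2 ≤ 1) (hx1 : 1.26 ≤ x) (hx2 : x ≤ 1.38)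
    (hy1 : -0.33 ≤ y) (hy2 : y ≤ -0.2) : ‖HH β (x + y * I) - 1‖ ≤ 0.8402 * β := by
  refine J_box 1.26 1.38 0.33 0 (-0.2) 1.3629 1.419 1.5952 0.7939 0.5039 4.7117 22.2 1.0412 4.447 1.612 0.5847 0.6814 0.4449 0.9186 2.2599 0.7867 2.2446 3.1936 3.3748 0.0000003101 0.00005151 0.0000003101 0.0000003101 0.0000003101 0.0000003101 0.0000003101 0.0000003101 0.8402
    hβ hN hx1 hx2 hy1 hy2 (by norm_num) (by norm_num) (by norm_num) (by norm_num) (by norm_num) (by norm_num) (by norm_num) (by norm_num) (by norm_num) (by norm_num) (by norm_num) (by norm_num) (by norm_num) (by norm_num) (by norm_num) (by norm_num) (by norm_num) (by norm_num) (by norm_num) (by norm_num) (by norm_num) (by norm_num) (by norm_num) (by norm_num)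
    (cube_sqrt_geJ (s := 0.808) (by norm_num) (by norm_num) (by norm_num) (by norm_num))
    (cube_sqrt_geJ (s := 0.934) (by norm_num) (by norm_num) (by norm_num) (by norm_num))
    (by norm_num) (by norm_num) (by norm_num) (by norm_num) (by norm_num) (by norm_num) (by norm_num) (by norm_num) (by norm_num) (by norm_num) (by norm_num) (by norm_num) (by norm_num) (by norm_num) (by norm_num) (by norm_num) (by norm_num) (by norm_num)
    (exp_neg_leJ (r := 0.99) 14 (by norm_num) (by norm_num) (by norm_num) (by norm_num))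
    (exp_neg_leJ (r := 0.876) 9 (by norm_num) (by norm_num) (by norm_num) (by norm_num))
    (exp_neg_leJ (r := 0.99) 14 (by norm_num) (by norm_num) (by norm_num) (by norm_num))
    (exp_neg_leJ (r := 0.99) 14 (by norm_num) (by norm_num) (by norm_num) (by norm_num))
    (exp_neg_leJ (r := 0.99) 14 (by norm_num) (by norm_num) (by norm_num) (by norm_num))
    (exp_neg_leJ (r := 0.99) 14 (by norm_num) (by norm_num) (by norm_num) (by norm_num))
    (exp_neg_leJ (r := 0.99) 14 (by norm_num) (by norm_num) (by norm_num) (by norm_num))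
    (exp_neg_leJ (r := 0.99) 14 (by norm_num) (by norm_num) (by norm_num) (by norm_num))
    (by norm_num)

private theorem bxb8 {β x y : ℝ} (hβ : 0 < β) (hN : β * 22.2 ≤ 1) (hx1 : 1.38 ≤ x) (hx2 : x ≤ 1.5)
    (hy1 : -0.33 ≤ y) (hy2 : y ≤ -0.2) : ‖HH β (x + y * I) - 1‖ ≤ 0.8374 * β := by
  refine J_box 1.38 1.5 0.33 0 (-0.2) 1.4474 1.5359 1.7001 0.7488 0.5202 4.7117 22.2 1.0612 4.609 1.628 0.5385 0.7236 0.4677 0.9597 2.1914 0.845 2.4107 3.4336 3.297 0.0000003101 0.00003099 0.0000003101 0.0000003101 0.0000003101 0.0000003101 0.0000003101 0.0000003101 0.8374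
    hβ hN hx1 hx2 hy1 hy2 (by norm_num) (by norm_num) (by norm_num) (by norm_num) (by norm_num) (by norm_num) (by norm_num) (by norm_num) (by norm_num) (by norm_num) (by norm_num) (by norm_num) (by norm_num) (by norm_num) (by norm_num) (by norm_num) (by norm_num) (by norm_num) (by norm_num) (by norm_num) (by norm_num) (by norm_num) (by norm_num) (by norm_num)
    (cube_sqrt_geJ (s := 0.8039) (by norm_num) (by norm_num) (by norm_num) (by norm_num))
    (cube_sqrt_geJ (s := 0.9327) (by norm_num) (by norm_num) (by norm_num) (by norm_num))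
    (by norm_num) (by norm_num) (by norm_num) (by norm_num) (by norm_num) (by norm_num) (by norm_num) (by norm_num) (by norm_num) (by norm_num) (by norm_num) (by norm_num) (by norm_num) (by norm_num) (by norm_num) (by norm_num) (by norm_num) (by norm_num)
    (exp_neg_leJ (r := 0.99) 14 (by norm_num) (by norm_num) (by norm_num) (by norm_num))
    (exp_neg_leJ (r := 0.382) 10 (by norm_num) (by norm_num) (by norm_num) (by norm_num))
    (exp_neg_leJ (r := 0.99) 14 (by norm_num) (by norm_num) (by norm_num) (by norm_num))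
    (exp_neg_leJ (r := 0.99) 14 (by norm_num) (by norm_num) (by norm_num) (by norm_num))
    (exp_neg_leJ (r := 0.99) 14 (by norm_num) (by norm_num) (by norm_num) (by norm_num))
    (exp_neg_leJ (r := 0.99) 14 (by norm_num) (by norm_num) (by norm_num) (by norm_num))
    (exp_neg_leJ (r := 0.99) 14 (by norm_num) (by norm_num) (by norm_num) (by norm_num))
    (exp_neg_leJ (r := 0.99) 14 (by norm_num) (by norm_num) (by norm_num) (by norm_num))
    (by norm_num)

private theorem bxb9 {β x y : ℝ} (hβ : 0 < β) (hN : β * 22.2 ≤ 1) (hx1 : 1.5 ≤ x) (hx2 : x ≤ 1.62)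
    (hy1 : -0.33 ≤ y) (hy2 : y ≤ -0.2) : ‖HH β (x + y * I) - 1‖ ≤ 0.8338 * β := by
  refine J_box 1.5 1.62 0.33 0 (-0.2) 1.5319 1.6533 1.8068 0.709 0.5363 4.7117 22.2 1.0793 4.763 1.643 0.4924 0.7659 0.4903 1.0008 2.1227 0.9033 2.5769 3.6736 3.2179 0.0000003101 0.0000188 0.0000003101 0.0000003101 0.0000003101 0.0000003101 0.0000003101 0.0000003101 0.8338
    hβ hN hx1 hx2 hy1 hy2 (by norm_num) (by norm_num) (by norm_num) (by norm_num) (by norm_num) (by norm_num) (by norm_num) (by norm_num) (by norm_num) (by norm_num) (by norm_num) (by norm_num) (by norm_num) (by norm_num) (by norm_num) (by norm_num) (by norm_num) (by norm_num) (by norm_num) (by norm_num) (by norm_num) (by norm_num) (by norm_num) (by norm_num)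
    (cube_sqrt_geJ (s := 0.8001) (by norm_num) (by norm_num) (by norm_num) (by norm_num))
    (cube_sqrt_geJ (s := 0.9315) (by norm_num) (by norm_num) (by norm_num) (by norm_num))
    (by norm_num) (by norm_num) (by norm_num) (by norm_num) (by norm_num) (by norm_num) (by norm_num) (by norm_num) (by norm_num) (by norm_num) (by norm_num) (by norm_num) (by norm_num) (by norm_num) (by norm_num) (by norm_num) (by norm_num) (by norm_num)
    (exp_neg_leJ (r := 0.99) 14 (by norm_num) (by norm_num) (by norm_num) (by norm_num))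
    (exp_neg_leJ (r := 0.884) 10 (by norm_num) (by norm_num) (by norm_num) (by norm_num))
    (exp_neg_leJ (r := 0.99) 14 (by norm_num) (by norm_num) (by norm_num) (by norm_num))
    (exp_neg_leJ (r := 0.99) 14 (by norm_num) (by norm_num) (by norm_num) (by norm_num))
    (exp_neg_leJ (r := 0.99) 14 (by norm_num) (by norm_num) (by norm_num) (by norm_num))
    (exp_neg_leJ (r := 0.99) 14 (by norm_num) (by norm_num) (by norm_num) (by norm_num))
    (exp_neg_leJ (r := 0.99) 14 (by norm_num) (by norm_num) (by norm_num) (by norm_num))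
    (exp_neg_leJ (r := 0.99) 14 (by norm_num) (by norm_num) (by norm_num) (by norm_num))
    (by norm_num)

private theorem bxb10 {β x y : ℝ} (hβ : 0 < β) (hN : β * 22.2 ≤ 1) (hx1 : 1.62 ≤ x) (hx2 : x ≤ 1.74)
    (hy1 : -0.33 ≤ y) (hy2 : y ≤ -0.2) : ‖HH β (x + y * I) - 1‖ ≤ 0.829 * β := by
  refine J_box 1.62 1.74 0.33 0 (-0.2) 1.6164 1.7711 1.9151 0.6734 0.5521 4.7117 22.2 1.0958 4.909 1.656 0.4462 0.8081 0.5129 1.0419 2.0539 0.9616 2.743 3.9136 3.1377 0.0000003101 0.00001136 0.0000003101 0.0000003101 0.0000003101 0.0000003101 0.0000003101 0.0000003101 0.829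
    hβ hN hx1 hx2 hy1 hy2 (by norm_num) (by norm_num) (by norm_num) (by norm_num) (by norm_num) (by norm_num) (by norm_num) (by norm_num) (by norm_num) (by norm_num) (by norm_num) (by norm_num) (by norm_num) (by norm_num) (by norm_num) (by norm_num) (by norm_num) (by norm_num) (by norm_num) (by norm_num) (by norm_num) (by norm_num) (by norm_num) (by norm_num)
    (cube_sqrt_geJ (s := 0.7967) (by norm_num) (by norm_num) (by norm_num) (by norm_num))
    (cube_sqrt_geJ (s := 0.9304) (by norm_num) (by norm_num) (by norm_num) (by norm_num))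
    (by norm_num) (by norm_num) (by norm_num) (by norm_num) (by norm_num) (by norm_num) (by norm_num) (by norm_num) (by norm_num) (by norm_num) (by norm_num) (by norm_num) (by norm_num) (by norm_num) (by norm_num) (by norm_num) (by norm_num) (by norm_num)
    (exp_neg_leJ (r := 0.99) 14 (by norm_num) (by norm_num) (by norm_num) (by norm_num))
    (exp_neg_leJ (r := 0.386) 11 (by norm_num) (by norm_num) (by norm_num) (by norm_num))
    (exp_neg_leJ (r := 0.99) 14 (by norm_num) (by norm_num) (by norm_num) (by norm_num))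
    (exp_neg_leJ (r := 0.99) 14 (by norm_num) (by norm_num) (by norm_num) (by norm_num))
    (exp_neg_leJ (r := 0.99) 14 (by norm_num) (by norm_num) (by norm_num) (by norm_num))
    (exp_neg_leJ (r := 0.99) 14 (by norm_num) (by norm_num) (by norm_num) (by norm_num))
    (exp_neg_leJ (r := 0.99) 14 (by norm_num) (by norm_num) (by norm_num) (by norm_num))
    (exp_neg_leJ (r := 0.99) 14 (by norm_num) (by norm_num) (by norm_num) (by norm_num))
    (by norm_num)

private theorem bxb11 {β x y : ℝ} (hβ : 0 < β) (hN : β * 22.2 ≤ 1) (hx1 : 1.74 ≤ x) (hx2 : x ≤ 1.845)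
    (hy1 : -0.33 ≤ y) (hy2 : y ≤ -0.2) : ‖HH β (x + y * I) - 1‖ ≤ 0.8006 * β := by
  refine J_box 1.74 1.845 0.33 0 (-0.2) 1.7009 1.8743 2.011 0.6393 0.5658 4.7117 22.2 1.102 4.965 1.661 0.4058 0.8504 0.538 1.083 1.9937 1.0198 2.9092 4.1536 3.0971 0.0000003101 0.000006524 0.0000003101 0.0000003101 0.0000003101 0.0000003101 0.0000003101 0.0000003101 0.8006
    hβ hN hx1 hx2 hy1 hy2 (by norm_num) (by norm_num) (by norm_num) (by norm_num) (by norm_num) (by norm_num) (by norm_num) (by norm_num) (by norm_num) (by norm_num) (by norm_num) (by norm_num) (by norm_num) (by norm_num) (by norm_num) (by norm_num) (by norm_num) (by norm_num) (by norm_num) (by norm_num) (by norm_num) (by norm_num) (by norm_num) (by norm_num)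
    (cube_sqrt_geJ (s := 0.7954) (by norm_num) (by norm_num) (by norm_num) (by norm_num))
    (cube_sqrt_geJ (s := 0.93) (by norm_num) (by norm_num) (by norm_num) (by norm_num))
    (by norm_num) (by norm_num) (by norm_num) (by norm_num) (by norm_num) (by norm_num) (by norm_num) (by norm_num) (by norm_num) (by norm_num) (by norm_num) (by norm_num) (by norm_num) (by norm_num) (by norm_num) (by norm_num) (by norm_num) (by norm_num)
    (exp_neg_leJ (r := 0.99) 14 (by norm_num) (by norm_num) (by norm_num) (by norm_num))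
    (exp_neg_leJ (r := 0.943) 11 (by norm_num) (by norm_num) (by norm_num) (by norm_num))
    (exp_neg_leJ (r := 0.99) 14 (by norm_num) (by norm_num) (by norm_num) (by norm_num))
    (exp_neg_leJ (r := 0.99) 14 (by norm_num) (by norm_num) (by norm_num) (by norm_num))
    (exp_neg_leJ (r := 0.99) 14 (by norm_num) (by norm_num) (by norm_num) (by norm_num))
    (exp_neg_leJ (r := 0.99) 14 (by norm_num) (by norm_num) (by norm_num) (by norm_num))
    (exp_neg_leJ (r := 0.99) 14 (by norm_num) (by norm_num) (by norm_num) (by norm_num))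
    (exp_neg_leJ (r := 0.99) 14 (by norm_num) (by norm_num) (by norm_num) (by norm_num))
    (by norm_num)

theorem JD2_b {β x y : ℝ} (hβ : 0 < β) (hN : β * 22.2 ≤ 1) (hx1 : 0.44 ≤ x) (hx2 : x ≤ 1.845) (hy1 : -0.33 ≤ y) (hy2 : y ≤ -0.2) :
    ‖HH β (x + y * I) - 1‖ ≤ 0.038 := by
  have hym : -0.33 ≤ y := by linarith
  rcases le_total x 0.55 with f0 | g0
  · exact epsOf hβ hN (by norm_num) (by norm_num) (bxb0 hβ hN hx1 f0 hym hy2)
  rcases le_total x 0.66 with f1 | g1
  · exact epsOf hβ hN (by norm_num) (by norm_num) (bxb1 hβ hN g0 f1 hym hy2)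
  rcases le_total x 0.78 with f2 | g2
  · exact epsOf hβ hN (by norm_num) (by norm_num) (bxb2 hβ hN g1 f2 hym hy2)
  rcases le_total x 0.9 with f3 | g3
  · exact epsOf hβ hN (by norm_num) (by norm_num) (bxb3 hβ hN g2 f3 hym hy2)
  rcases le_total x 1.02 with f4 | g4
  · exact epsOf hβ hN (by norm_num) (by norm_num) (bxb4 hβ hN g3 f4 hym hy2)
  rcases le_total x 1.14 with f5 | g5
  · exact epsOf hβ hN (by norm_num) (by norm_num) (bxb5 hβ hN g4 f5 hym hy2)
  rcases le_total x 1.26 with f6 | g6
  · exact epsOf hβ hN (by norm_num) (by norm_num) (bxb6 hβ hN g5 f6 hym hy2)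
  rcases le_total x 1.38 with f7 | g7
  · exact epsOf hβ hN (by norm_num) (by norm_num) (bxb7 hβ hN g6 f7 hym hy2)
  rcases le_total x 1.5 with f8 | g8
  · exact epsOf hβ hN (by norm_num) (by norm_num) (bxb8 hβ hN g7 f8 hym hy2)
  rcases le_total x 1.62 with f9 | g9
  · exact epsOf hβ hN (by norm_num) (by norm_num) (bxb9 hβ hN g8 f9 hym hy2)
  rcases le_total x 1.74 with f10 | g10
  · exact epsOf hβ hN (by norm_num) (by norm_num) (bxb10 hβ hN g9 f10 hym hy2)
  exact epsOf hβ hN (by norm_num) (by norm_num) (bxb11 hβ hN g10 hx2 hym hy2)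

private theorem bxc0 {β x y : ℝ} (hβ : 0 < β) (hN : β * 22.2 ≤ 1) (hx1 : 0.44 ≤ x) (hx2 : x ≤ 0.62)
    (hy1 : -0.2 ≤ y) (hy2 : y ≤ 0.345) : ‖HH β (x + y * I) - 1‖ ≤ 0.8329 * β := by
  refine J_box 0.44 0.62 0.2 0.345 0.345 0.8778 0.7096 1.4811 1.4798 0.4856 4.7117 22.2 0.8084 3.002 1.441 0.997 0.4388 0.3206 0.8432 3.0937 0.4242 1.074 0.4273 2.0375 0.00005889 0.0008113 0.0000003101 0.0000003101 0.00008134 0.0000003101 0.00007592 0.0000003101 0.8329
    hβ hN hx1 hx2 hy1 hy2 (by norm_num) (by norm_num) (by norm_num) (by norm_num) (by norm_num) (by norm_num) (by norm_num) (by norm_num) (by norm_num) (by norm_num) (by norm_num) (by norm_num) (by norm_num) (by norm_num) (by norm_num) (by norm_num) (by norm_num) (by norm_num) (by norm_num) (by norm_num) (by norm_num) (by norm_num) (by norm_num) (by norm_num)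
    (cube_sqrt_geJ (s := 0.8547) (by norm_num) (by norm_num) (by norm_num) (by norm_num))
    (cube_sqrt_geJ (s := 0.9492) (by norm_num) (by norm_num) (by norm_num) (by norm_num))
    (by norm_num) (by norm_num) (by norm_num) (by norm_num) (by norm_num) (by norm_num) (by norm_num) (by norm_num) (by norm_num) (by norm_num) (by norm_num) (by norm_num) (by norm_num) (by norm_num) (by norm_num) (by norm_num) (by norm_num) (by norm_num)
    (exp_neg_leJ (r := 0.741) 9 (by norm_num) (by norm_num) (by norm_num) (by norm_num))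
    (exp_neg_leJ (r := 0.117) 7 (by norm_num) (by norm_num) (by norm_num) (by norm_num))
    (exp_neg_leJ (r := 0.99) 14 (by norm_num) (by norm_num) (by norm_num) (by norm_num))
    (exp_neg_leJ (r := 0.99) 14 (by norm_num) (by norm_num) (by norm_num) (by norm_num))
    (exp_neg_leJ (r := 0.417) 9 (by norm_num) (by norm_num) (by norm_num) (by norm_num))
    (exp_neg_leJ (r := 0.99) 14 (by norm_num) (by norm_num) (by norm_num) (by norm_num))
    (exp_neg_leJ (r := 0.486) 9 (by norm_num) (by norm_num) (by norm_num) (by norm_num))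
    (exp_neg_leJ (r := 0.99) 14 (by norm_num) (by norm_num) (by norm_num) (by norm_num))
    (by norm_num)

private theorem bxc1 {β x y : ℝ} (hβ : 0 < β) (hN : β * 22.2 ≤ 1) (hx1 : 0.62 ≤ x) (hx2 : x ≤ 0.81)
    (hy1 : -0.2 ≤ y) (hy2 : y ≤ 0.345) : ‖HH β (x + y * I) - 1‖ ≤ 0.8365 * β := by
  refine J_box 0.62 0.81 0.2 0.345 0.345 1.0046 0.8805 1.5701 1.2445 0.4999 4.7117 22.2 0.8765 3.352 1.488 0.9239 0.5022 0.3555 0.9048 2.989 0.5117 1.3232 0.7873 1.9329 0.00001441 0.0003746 0.0000003101 0.0000003101 0.00001167 0.0000003101 0.0000003101 0.0000003101 0.8365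
    hβ hN hx1 hx2 hy1 hy2 (by norm_num) (by norm_num) (by norm_num) (by norm_num) (by norm_num) (by norm_num) (by norm_num) (by norm_num) (by norm_num) (by norm_num) (by norm_num) (by norm_num) (by norm_num) (by norm_num) (by norm_num) (by norm_num) (by norm_num) (by norm_num) (by norm_num) (by norm_num) (by norm_num) (by norm_num) (by norm_num) (by norm_num)
    (cube_sqrt_geJ (s := 0.8413) (by norm_num) (by norm_num) (by norm_num) (by norm_num))
    (cube_sqrt_geJ (s := 0.9448) (by norm_num) (by norm_num) (by norm_num) (by norm_num))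
    (by norm_num) (by norm_num) (by norm_num) (by norm_num) (by norm_num) (by norm_num) (by norm_num) (by norm_num) (by norm_num) (by norm_num) (by norm_num) (by norm_num) (by norm_num) (by norm_num) (by norm_num) (by norm_num) (by norm_num) (by norm_num)
    (exp_neg_leJ (r := 0.148) 11 (by norm_num) (by norm_num) (by norm_num) (by norm_num))
    (exp_neg_leJ (r := 0.892) 7 (by norm_num) (by norm_num) (by norm_num) (by norm_num))
    (exp_neg_leJ (r := 0.99) 14 (by norm_num) (by norm_num) (by norm_num) (by norm_num))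
    (exp_neg_leJ (r := 0.99) 14 (by norm_num) (by norm_num) (by norm_num) (by norm_num))
    (exp_neg_leJ (r := 0.359) 11 (by norm_num) (by norm_num) (by norm_num) (by norm_num))
    (exp_neg_leJ (r := 0.99) 14 (by norm_num) (by norm_num) (by norm_num) (by norm_num))
    (exp_neg_leJ (r := 0.99) 14 (by norm_num) (by norm_num) (by norm_num) (by norm_num))
    (exp_neg_leJ (r := 0.99) 14 (by norm_num) (by norm_num) (by norm_num) (by norm_num))
    (by norm_num)

private theorem bxc2 {β x y : ℝ} (hβ : 0 < β) (hN : β * 22.2 ≤ 1) (hx1 : 0.81 ≤ x) (hx2 : x ≤ 1)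
    (hy1 : -0.2 ≤ y) (hy2 : y ≤ 0.345) : ‖HH β (x + y * I) - 1‖ ≤ 0.8264 * β := by
  refine J_box 0.81 1 0.2 0.345 0.345 1.1384 1.0579 1.6761 1.0659 0.5165 4.7117 22.2 0.9293 3.661 1.527 0.8508 0.5691 0.3928 0.9698 2.8825 0.604 1.5863 1.1673 1.8307 0.000003261 0.0001635 0.0000003101 0.0000003101 0.000001504 0.0000003101 0.0000003101 0.0000003101 0.8264
    hβ hN hx1 hx2 hy1 hy2 (by norm_num) (by norm_num) (by norm_num) (by norm_num) (by norm_num) (by norm_num) (by norm_num) (by norm_num) (by norm_num) (by norm_num) (by norm_num) (by norm_num) (by norm_num) (by norm_num) (by norm_num) (by norm_num) (by norm_num) (by norm_num) (by norm_num) (by norm_num) (by norm_num) (by norm_num) (by norm_num) (by norm_num)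
    (cube_sqrt_geJ (s := 0.8308) (by norm_num) (by norm_num) (by norm_num) (by norm_num))
    (cube_sqrt_geJ (s := 0.9413) (by norm_num) (by norm_num) (by norm_num) (by norm_num))
    (by norm_num) (by norm_num) (by norm_num) (by norm_num) (by norm_num) (by norm_num) (by norm_num) (by norm_num) (by norm_num) (by norm_num) (by norm_num) (by norm_num) (by norm_num) (by norm_num) (by norm_num) (by norm_num) (by norm_num) (by norm_num)
    (exp_neg_leJ (r := 0.634) 12 (by norm_num) (by norm_num) (by norm_num) (by norm_num))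
    (exp_neg_leJ (r := 0.72) 8 (by norm_num) (by norm_num) (by norm_num) (by norm_num))
    (exp_neg_leJ (r := 0.99) 14 (by norm_num) (by norm_num) (by norm_num) (by norm_num))
    (exp_neg_leJ (r := 0.99) 14 (by norm_num) (by norm_num) (by norm_num) (by norm_num))
    (exp_neg_leJ (r := 0.408) 13 (by norm_num) (by norm_num) (by norm_num) (by norm_num))
    (exp_neg_leJ (r := 0.99) 14 (by norm_num) (by norm_num) (by norm_num) (by norm_num))
    (exp_neg_leJ (r := 0.99) 14 (by norm_num) (by norm_num) (by norm_num) (by norm_num))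
    (exp_neg_leJ (r := 0.99) 14 (by norm_num) (by norm_num) (by norm_num) (by norm_num))
    (by norm_num)

private theorem bxc3 {β x y : ℝ} (hβ : 0 < β) (hN : β * 22.2 ≤ 1) (hx1 : 1 ≤ x) (hx2 : x ≤ 1.2)
    (hy1 : -0.2 ≤ y) (hy2 : y ≤ 0.345) : ‖HH β (x + y * I) - 1‖ ≤ 0.8386 * β := by
  refine J_box 1 1.2 0.2 0.345 0.345 1.2721 1.2487 1.8026 0.9358 0.5357 4.7117 22.2 0.9817 4.004 1.566 0.7739 0.636 0.4279 1.0348 2.7694 0.6962 1.8494 1.5473 1.692 0.0000007383 0.00007495 0.0000003101 0.0000003101 0.0000003101 0.0000003101 0.0000003101 0.0000003101 0.8386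
    hβ hN hx1 hx2 hy1 hy2 (by norm_num) (by norm_num) (by norm_num) (by norm_num) (by norm_num) (by norm_num) (by norm_num) (by norm_num) (by norm_num) (by norm_num) (by norm_num) (by norm_num) (by norm_num) (by norm_num) (by norm_num) (by norm_num) (by norm_num) (by norm_num) (by norm_num) (by norm_num) (by norm_num) (by norm_num) (by norm_num) (by norm_num)
    (cube_sqrt_geJ (s := 0.8202) (by norm_num) (by norm_num) (by norm_num) (by norm_num))
    (cube_sqrt_geJ (s := 0.9379) (by norm_num) (by norm_num) (by norm_num) (by norm_num))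
    (by norm_num) (by norm_num) (by norm_num) (by norm_num) (by norm_num) (by norm_num) (by norm_num) (by norm_num) (by norm_num) (by norm_num) (by norm_num) (by norm_num) (by norm_num) (by norm_num) (by norm_num) (by norm_num) (by norm_num) (by norm_num)
    (exp_neg_leJ (r := 0.119) 14 (by norm_num) (by norm_num) (by norm_num) (by norm_num))
    (exp_neg_leJ (r := 0.499) 9 (by norm_num) (by norm_num) (by norm_num) (by norm_num))
    (exp_neg_leJ (r := 0.99) 14 (by norm_num) (by norm_num) (by norm_num) (by norm_num))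
    (exp_neg_leJ (r := 0.99) 14 (by norm_num) (by norm_num) (by norm_num) (by norm_num))
    (exp_neg_leJ (r := 0.99) 14 (by norm_num) (by norm_num) (by norm_num) (by norm_num))
    (exp_neg_leJ (r := 0.99) 14 (by norm_num) (by norm_num) (by norm_num) (by norm_num))
    (exp_neg_leJ (r := 0.99) 14 (by norm_num) (by norm_num) (by norm_num) (by norm_num))
    (exp_neg_leJ (r := 0.99) 14 (by norm_num) (by norm_num) (by norm_num) (by norm_num))
    (by norm_num)

private theorem bxc4 {β x y : ℝ} (hβ : 0 < β) (hN : β * 22.2 ≤ 1) (hx1 : 1.2 ≤ x) (hx2 : x ≤ 1.4)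
    (hy1 : -0.2 ≤ y) (hy2 : y ≤ 0.345) : ‖HH β (x + y * I) - 1‖ ≤ 0.8278 * β := by
  refine J_box 1.2 1.4 0.2 0.345 0.345 1.413 1.4419 1.9414 0.8296 0.5559 4.7117 22.2 1.0205 4.286 1.596 0.697 0.7064 0.4661 1.1033 2.6556 0.7934 2.1263 1.9473 1.5669 0.0000003101 0.0000321 0.0000003101 0.0000003101 0.0000003101 0.0000003101 0.0000003101 0.0000003101 0.8278
    hβ hN hx1 hx2 hy1 hy2 (by norm_num) (by norm_num) (by norm_num) (by norm_num) (by norm_num) (by norm_num) (by norm_num) (by norm_num) (by norm_num) (by norm_num) (by norm_num) (by norm_num) (by norm_num) (by norm_num) (by norm_num) (by norm_num) (by norm_num) (by norm_num) (by norm_num) (by norm_num) (by norm_num) (by norm_num) (by norm_num) (by norm_num)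
    (cube_sqrt_geJ (s := 0.8123) (by norm_num) (by norm_num) (by norm_num) (by norm_num))
    (cube_sqrt_geJ (s := 0.9354) (by norm_num) (by norm_num) (by norm_num) (by norm_num))
    (by norm_num) (by norm_num) (by norm_num) (by norm_num) (by norm_num) (by norm_num) (by norm_num) (by norm_num) (by norm_num) (by norm_num) (by norm_num) (by norm_num) (by norm_num) (by norm_num) (by norm_num) (by norm_num) (by norm_num) (by norm_num)
    (exp_neg_leJ (r := 0.99) 14 (by norm_num) (by norm_num) (by norm_num) (by norm_num))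
    (exp_neg_leJ (r := 0.347) 10 (by norm_num) (by norm_num) (by norm_num) (by norm_num))
    (exp_neg_leJ (r := 0.99) 14 (by norm_num) (by norm_num) (by norm_num) (by norm_num))
    (exp_neg_leJ (r := 0.99) 14 (by norm_num) (by norm_num) (by norm_num) (by norm_num))
    (exp_neg_leJ (r := 0.99) 14 (by norm_num) (by norm_num) (by norm_num) (by norm_num))
    (exp_neg_leJ (r := 0.99) 14 (by norm_num) (by norm_num) (by norm_num) (by norm_num))
    (exp_neg_leJ (r := 0.99) 14 (by norm_num) (by norm_num) (by norm_num) (by norm_num))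
    (exp_neg_leJ (r := 0.99) 14 (by norm_num) (by norm_num) (by norm_num) (by norm_num))
    (by norm_num)

private theorem bxc5 {β x y : ℝ} (hβ : 0 < β) (hN : β * 22.2 ≤ 1) (hx1 : 1.4 ≤ x) (hx2 : x ≤ 1.61)
    (hy1 : -0.2 ≤ y) (hy2 : y ≤ 0.345) : ‖HH β (x + y * I) - 1‖ ≤ 0.8327 * β := by
  refine J_box 1.4 1.61 0.2 0.345 0.345 1.5538 1.6466 2.0979 0.7479 0.5779 4.7117 22.2 1.0598 4.598 1.627 0.6162 0.7768 0.5024 1.1718 2.5356 0.8905 2.4032 2.3473 1.4104 0.0000003101 0.00001434 0.0000003101 0.0000003101 0.0000003101 0.0000003101 0.0000003101 0.0000003101 0.8327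
    hβ hN hx1 hx2 hy1 hy2 (by norm_num) (by norm_num) (by norm_num) (by norm_num) (by norm_num) (by norm_num) (by norm_num) (by norm_num) (by norm_num) (by norm_num) (by norm_num) (by norm_num) (by norm_num) (by norm_num) (by norm_num) (by norm_num) (by norm_num) (by norm_num) (by norm_num) (by norm_num) (by norm_num) (by norm_num) (by norm_num) (by norm_num)
    (cube_sqrt_geJ (s := 0.8041) (by norm_num) (by norm_num) (by norm_num) (by norm_num))
    (cube_sqrt_geJ (s := 0.9328) (by norm_num) (by norm_num) (by norm_num) (by norm_num))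
    (by norm_num) (by norm_num) (by norm_num) (by norm_num) (by norm_num) (by norm_num) (by norm_num) (by norm_num) (by norm_num) (by norm_num) (by norm_num) (by norm_num) (by norm_num) (by norm_num) (by norm_num) (by norm_num) (by norm_num) (by norm_num)
    (exp_neg_leJ (r := 0.99) 14 (by norm_num) (by norm_num) (by norm_num) (by norm_num))
    (exp_neg_leJ (r := 0.153) 11 (by norm_num) (by norm_num) (by norm_num) (by norm_num))
    (exp_neg_leJ (r := 0.99) 14 (by norm_num) (by norm_num) (by norm_num) (by norm_num))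
    (exp_neg_leJ (r := 0.99) 14 (by norm_num) (by norm_num) (by norm_num) (by norm_num))
    (exp_neg_leJ (r := 0.99) 14 (by norm_num) (by norm_num) (by norm_num) (by norm_num))
    (exp_neg_leJ (r := 0.99) 14 (by norm_num) (by norm_num) (by norm_num) (by norm_num))
    (exp_neg_leJ (r := 0.99) 14 (by norm_num) (by norm_num) (by norm_num) (by norm_num))
    (exp_neg_leJ (r := 0.99) 14 (by norm_num) (by norm_num) (by norm_num) (by norm_num))
    (by norm_num)

private theorem bxc6 {β x y : ℝ} (hβ : 0 < β) (hN : β * 22.2 ≤ 1) (hx1 : 1.61 ≤ x) (hx2 : x ≤ 1.83)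
    (hy1 : -0.2 ≤ y) (hy2 : y ≤ 0.345) : ‖HH β (x + y * I) - 1‖ ≤ 0.8324 * β := by
  refine J_box 1.61 1.83 0.2 0.345 0.345 1.7017 1.8623 2.2712 0.6789 0.6013 4.7117 22.2 1.0944 4.897 1.655 0.5316 0.8508 0.5404 1.2437 2.4096 0.9925 2.694 2.7673 1.2441 0.0000003101 0.000006228 0.0000003101 0.0000003101 0.0000003101 0.0000003101 0.0000003101 0.0000003101 0.8324
    hβ hN hx1 hx2 hy1 hy2 (by norm_num) (by norm_num) (by norm_num) (by norm_num) (by norm_num) (by norm_num) (by norm_num) (by norm_num) (by norm_num) (by norm_num) (by norm_num) (by norm_num) (by norm_num) (by norm_num) (by norm_num) (by norm_num) (by norm_num) (by norm_num) (by norm_num) (by norm_num) (by norm_num) (by norm_num) (by norm_num) (by norm_num)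
    (cube_sqrt_geJ (s := 0.7969) (by norm_num) (by norm_num) (by norm_num) (by norm_num))
    (cube_sqrt_geJ (s := 0.9305) (by norm_num) (by norm_num) (by norm_num) (by norm_num))
    (by norm_num) (by norm_num) (by norm_num) (by norm_num) (by norm_num) (by norm_num) (by norm_num) (by norm_num) (by norm_num) (by norm_num) (by norm_num) (by norm_num) (by norm_num) (by norm_num) (by norm_num) (by norm_num) (by norm_num) (by norm_num)
    (exp_neg_leJ (r := 0.99) 14 (by norm_num) (by norm_num) (by norm_num) (by norm_num))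
    (exp_neg_leJ (r := 0.99) 11 (by norm_num) (by norm_num) (by norm_num) (by norm_num))
    (exp_neg_leJ (r := 0.99) 14 (by norm_num) (by norm_num) (by norm_num) (by norm_num))
    (exp_neg_leJ (r := 0.99) 14 (by norm_num) (by norm_num) (by norm_num) (by norm_num))
    (exp_neg_leJ (r := 0.99) 14 (by norm_num) (by norm_num) (by norm_num) (by norm_num))
    (exp_neg_leJ (r := 0.99) 14 (by norm_num) (by norm_num) (by norm_num) (by norm_num))
    (exp_neg_leJ (r := 0.99) 14 (by norm_num) (by norm_num) (by norm_num) (by norm_num))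
    (exp_neg_leJ (r := 0.99) 14 (by norm_num) (by norm_num) (by norm_num) (by norm_num))
    (by norm_num)

private theorem bxc7 {β x y : ℝ} (hβ : 0 < β) (hN : β * 22.2 ≤ 1) (hx1 : 1.83 ≤ x) (hx2 : x ≤ 1.845)
    (hy1 : -0.2 ≤ y) (hy2 : y ≤ 0.345) : ‖HH β (x + y * I) - 1‖ ≤ 0.5796 * β := by
  refine J_box 1.83 1.845 0.2 0.345 0.345 1.8566 1.877 2.2833 0.5974 0.6029 4.7117 22.2 1.011 4.215 1.589 0.5258 0.9282 0.6154 1.319 2.401 1.0994 2.9986 3.2073 1.6441 0.0000003101 0.000001168 0.0000003101 0.0000003101 0.0000003101 0.0000003101 0.0000003101 0.0000003101 0.5796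
    hβ hN hx1 hx2 hy1 hy2 (by norm_num) (by norm_num) (by norm_num) (by norm_num) (by norm_num) (by norm_num) (by norm_num) (by norm_num) (by norm_num) (by norm_num) (by norm_num) (by norm_num) (by norm_num) (by norm_num) (by norm_num) (by norm_num) (by norm_num) (by norm_num) (by norm_num) (by norm_num) (by norm_num) (by norm_num) (by norm_num) (by norm_num)
    (cube_sqrt_geJ (s := 0.8142) (by norm_num) (by norm_num) (by norm_num) (by norm_num))
    (cube_sqrt_geJ (s := 0.936) (by norm_num) (by norm_num) (by norm_num) (by norm_num))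
    (by norm_num) (by norm_num) (by norm_num) (by norm_num) (by norm_num) (by norm_num) (by norm_num) (by norm_num) (by norm_num) (by norm_num) (by norm_num) (by norm_num) (by norm_num) (by norm_num) (by norm_num) (by norm_num) (by norm_num) (by norm_num)
    (exp_neg_leJ (r := 0.99) 14 (by norm_num) (by norm_num) (by norm_num) (by norm_num))
    (exp_neg_leJ (r := 0.661) 13 (by norm_num) (by norm_num) (by norm_num) (by norm_num))
    (exp_neg_leJ (r := 0.99) 14 (by norm_num) (by norm_num) (by norm_num) (by norm_num))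
    (exp_neg_leJ (r := 0.99) 14 (by norm_num) (by norm_num) (by norm_num) (by norm_num))
    (exp_neg_leJ (r := 0.99) 14 (by norm_num) (by norm_num) (by norm_num) (by norm_num))
    (exp_neg_leJ (r := 0.99) 14 (by norm_num) (by norm_num) (by norm_num) (by norm_num))
    (exp_neg_leJ (r := 0.99) 14 (by norm_num) (by norm_num) (by norm_num) (by norm_num))
    (exp_neg_leJ (r := 0.99) 14 (by norm_num) (by norm_num) (by norm_num) (by norm_num))
    (by norm_num)

theorem JD2_c {β x y : ℝ} (hβ : 0 < β) (hN : β * 22.2 ≤ 1) (hx1 : 0.44 ≤ x) (hx2 : x ≤ 1.845) (hy1 : -0.2 ≤ y) (hy2 : y ≤ 0.345) :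
    ‖HH β (x + y * I) - 1‖ ≤ 0.038 := by
  have hym : -0.2 ≤ y := by linarith
  rcases le_total x 0.62 with f0 | g0
  · exact epsOf hβ hN (by norm_num) (by norm_num) (bxc0 hβ hN hx1 f0 hym hy2)
  rcases le_total x 0.81 with f1 | g1
  · exact epsOf hβ hN (by norm_num) (by norm_num) (bxc1 hβ hN g0 f1 hym hy2)
  rcases le_total x 1 with f2 | g2
  · exact epsOf hβ hN (by norm_num) (by norm_num) (bxc2 hβ hN g1 f2 hym hy2)
  rcases le_total x 1.2 with f3 | g3
  · exact epsOf hβ hN (by norm_num) (by norm_num) (bxc3 hβ hN g2 f3 hym hy2)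
  rcases le_total x 1.4 with f4 | g4
  · exact epsOf hβ hN (by norm_num) (by norm_num) (bxc4 hβ hN g3 f4 hym hy2)
  rcases le_total x 1.61 with f5 | g5
  · exact epsOf hβ hN (by norm_num) (by norm_num) (bxc5 hβ hN g4 f5 hym hy2)
  rcases le_total x 1.83 with f6 | g6
  · exact epsOf hβ hN (by norm_num) (by norm_num) (bxc6 hβ hN g5 f6 hym hy2)
  exact epsOf hβ hN (by norm_num) (by norm_num) (bxc7 hβ hN g6 hx2 hym hy2)

/-- discs of radius `0.15` around the saddles, `0.73 ≤ κ ≤ 1.39` (`β ≤ 1/22.2`) -/
theorem JD_III {β x y : ℝ} (hβ : 0 < β) (hN : β * 22.2 ≤ 1) (hx1 : 0.44 ≤ x) (hx1' : y ≤ -0.33 → 0.58 ≤ x) (hx2 : x ≤ 1.845)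
    (hy1 : -0.386 ≤ y) (hy2 : y ≤ 0.345) :
    ‖HH β (x + y * I) - 1‖ ≤ 0.038 := by
  rcases le_total y (-0.33) with a | a
  · exact JD2_a hβ hN (hx1' a) hx2 hy1 a
  rcases le_total y (-0.2) with b | b
  · exact JD2_b hβ hN hx1 hx2 a b
  · exact JD2_c hβ hN hx1 hx2 b hy2

end Sok
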