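import Pool.Agent.Lib.MP_816dec_an.JBG2

/-!
MP_816dec_an (A3, row R1): the copy `-1` on the outer segment, `b ≥ 9`.
-/

set_option autoImplicit false
set_option maxHeartbeats 4000000

open Complex Set

namespace Sok

private theorem JM1_b0_0 {β x y : ℝ} (hβ : 0 < β) (hN : β * 33.428 ≤ 1) (hx1 : 0.136 ≤ x) (hx2 : x ≤ 0.4203)
    (hy1 : -0.403 ≤ y) (hy2 : y ≤ -0.383) : ‖HH β (x + y * I) - 1‖ ≤ 0.1 := by
  refine le_epsJ (C := 3.3028) (N0 := 33.428) (J_boxp 0.136 0.4203 0.403 0 (-0.383) 0.5196 0.5823 0.7466 2.307 0.3448 5.7817 33.428 1.1207 5.141 1.677 0.8864 0.2597 0.1627 0.4187 2.5525 0.2009 0.6883 0.7472 3.4012 0.00017 0.004349 0.0000008429 0.0000003101 0.001214 0.0000003101 0.0000003101 0.0000003101 3.3028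
    hβ hN hx1 hx2 hy1 hy2 (by norm_num) (by norm_num) (by linarith) (by norm_num) (by norm_num) (by norm_num) (by norm_num) (by norm_num) (by norm_num) (by norm_num) (by norm_num) (by norm_num) (by norm_num) (by norm_num) (by norm_num) (by norm_num) (by norm_num) (by norm_num) (by norm_num) (by norm_num) (by norm_num) (by norm_num) (by norm_num) (by norm_num)
    (cube_sqrt_geJ (s := 0.7914) (by norm_num) (by norm_num) (by norm_num) (by norm_num))
    (cube_sqrt_geJ (s := 0.9288) (by norm_num) (by norm_num) (by norm_num) (by norm_num))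
    (by norm_num) (by norm_num) (by norm_num) (by norm_num) (by norm_num) (by norm_num) (by norm_num) (by norm_num) (by norm_num) (by norm_num) (by norm_num) (by norm_num) (by norm_num) (by norm_num) (by norm_num) (by norm_num) (by norm_num) (by norm_num)
    (exp_neg_leJ (r := 0.681) 8 (by norm_num) (by norm_num) (by norm_num) (by norm_num))
    (exp_neg_leJ (r := 0.438) 5 (by norm_num) (by norm_num) (by norm_num) (by norm_num))
    (exp_neg_leJ (r := 0.99) 13 (by norm_num) (by norm_num) (by norm_num) (by norm_num))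
    (exp_neg_leJ (r := 0.99) 14 (by norm_num) (by norm_num) (by norm_num) (by norm_num))
    (exp_neg_leJ (r := 0.715) 6 (by norm_num) (by norm_num) (by norm_num) (by norm_num))
    (exp_neg_leJ (r := 0.99) 14 (by norm_num) (by norm_num) (by norm_num) (by norm_num))
    (exp_neg_leJ (r := 0.99) 14 (by norm_num) (by norm_num) (by norm_num) (by norm_num))
    (exp_neg_leJ (r := 0.99) 14 (by norm_num) (by norm_num) (by norm_num) (by norm_num))
    (by norm_num)) (by norm_num) hN hβ.le (by norm_num)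

private theorem JM1_b0_1 {β x y : ℝ} (hβ : 0 < β) (hN : β * 33.428 ≤ 1) (hx1 : 0.1304 ≤ x) (hx2 : x ≤ 0.447)
    (hy1 : -0.383 ≤ y) (hy2 : y ≤ -0.333) : ‖HH β (x + y * I) - 1‖ ≤ 0.1 := by
  refine le_epsJ (C := 3.2112) (N0 := 33.428) (J_boxp 0.1304 0.447 0.383 0 (-0.333) 0.5299 0.5887 0.803 2.3231 0.3575 5.7817 33.428 1.111 5.049 1.669 0.8946 0.2649 0.1668 0.4483 2.6053 0.2091 0.6805 0.7903 3.3726 0.000143 0.003793 0.0000003116 0.0000003101 0.0009253 0.0000003101 0.0000003101 0.0000003101 3.2112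
    hβ hN hx1 hx2 hy1 hy2 (by norm_num) (by norm_num) (by linarith) (by norm_num) (by norm_num) (by norm_num) (by norm_num) (by norm_num) (by norm_num) (by norm_num) (by norm_num) (by norm_num) (by norm_num) (by norm_num) (by norm_num) (by norm_num) (by norm_num) (by norm_num) (by norm_num) (by norm_num) (by norm_num) (by norm_num) (by norm_num) (by norm_num)
    (cube_sqrt_geJ (s := 0.7935) (by norm_num) (by norm_num) (by norm_num) (by norm_num))
    (cube_sqrt_geJ (s := 0.9294) (by norm_num) (by norm_num) (by norm_num) (by norm_num))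
    (by norm_num) (by norm_num) (by norm_num) (by norm_num) (by norm_num) (by norm_num) (by norm_num) (by norm_num) (by norm_num) (by norm_num) (by norm_num) (by norm_num) (by norm_num) (by norm_num) (by norm_num) (by norm_num) (by norm_num) (by norm_num)
    (exp_neg_leJ (r := 0.855) 8 (by norm_num) (by norm_num) (by norm_num) (by norm_num))
    (exp_neg_leJ (r := 0.575) 5 (by norm_num) (by norm_num) (by norm_num) (by norm_num))
    (exp_neg_leJ (r := 0.985) 14 (by norm_num) (by norm_num) (by norm_num) (by norm_num))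
    (exp_neg_leJ (r := 0.99) 14 (by norm_num) (by norm_num) (by norm_num) (by norm_num))
    (exp_neg_leJ (r := 0.989) 6 (by norm_num) (by norm_num) (by norm_num) (by norm_num))
    (exp_neg_leJ (r := 0.99) 14 (by norm_num) (by norm_num) (by norm_num) (by norm_num))
    (exp_neg_leJ (r := 0.99) 14 (by norm_num) (by norm_num) (by norm_num) (by norm_num))
    (exp_neg_leJ (r := 0.99) 14 (by norm_num) (by norm_num) (by norm_num) (by norm_num))
    (by norm_num)) (by norm_num) hN hβ.le (by norm_num)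

private theorem JM1_b0_2 {β x y : ℝ} (hβ : 0 < β) (hN : β * 33.428 ≤ 1) (hx1 : 0.1467 ≤ x) (hx2 : x ≤ 0.4792)
    (hy1 : -0.333 ≤ y) (hy2 : y ≤ -0.227) : ‖HH β (x + y * I) - 1‖ ≤ 0.1 := by
  refine le_epsJ (C := 2.217) (N0 := 33.428) (J_boxp 0.1467 0.4792 0.333 0 (-0.227) 0.5769 0.5836 0.9095 2.1765 0.3805 5.7817 33.428 1.0117 4.22 1.589 0.9284 0.2884 0.1911 0.5328 2.7537 0.2443 0.7031 0.9589 3.4191 0.00006511 0.001682 0.0000003101 0.0000003101 0.0002842 0.0000003101 0.0000003101 0.0000003101 2.217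
    hβ hN hx1 hx2 hy1 hy2 (by norm_num) (by norm_num) (by linarith) (by norm_num) (by norm_num) (by norm_num) (by norm_num) (by norm_num) (by norm_num) (by norm_num) (by norm_num) (by norm_num) (by norm_num) (by norm_num) (by norm_num) (by norm_num) (by norm_num) (by norm_num) (by norm_num) (by norm_num) (by norm_num) (by norm_num) (by norm_num) (by norm_num)
    (cube_sqrt_geJ (s := 0.8141) (by norm_num) (by norm_num) (by norm_num) (by norm_num))
    (cube_sqrt_geJ (s := 0.936) (by norm_num) (by norm_num) (by norm_num) (by norm_num))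
    (by norm_num) (by norm_num) (by norm_num) (by norm_num) (by norm_num) (by norm_num) (by norm_num) (by norm_num) (by norm_num) (by norm_num) (by norm_num) (by norm_num) (by norm_num) (by norm_num) (by norm_num) (by norm_num) (by norm_num) (by norm_num)
    (exp_neg_leJ (r := 0.64) 9 (by norm_num) (by norm_num) (by norm_num) (by norm_num))
    (exp_neg_leJ (r := 0.388) 6 (by norm_num) (by norm_num) (by norm_num) (by norm_num))
    (exp_neg_leJ (r := 0.99) 14 (by norm_num) (by norm_num) (by norm_num) (by norm_num))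
    (exp_neg_leJ (r := 0.99) 14 (by norm_num) (by norm_num) (by norm_num) (by norm_num))
    (exp_neg_leJ (r := 0.166) 8 (by norm_num) (by norm_num) (by norm_num) (by norm_num))
    (exp_neg_leJ (r := 0.99) 14 (by norm_num) (by norm_num) (by norm_num) (by norm_num))
    (exp_neg_leJ (r := 0.99) 14 (by norm_num) (by norm_num) (by norm_num) (by norm_num))
    (exp_neg_leJ (r := 0.99) 14 (by norm_num) (by norm_num) (by norm_num) (by norm_num))
    (by norm_num)) (by norm_num) hN hβ.le (by norm_num)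

private theorem JM1_c0 {κ t β : ℝ} (h : DomR κ t) (hβ : 0 < β) (hk1 : 0.29 ≤ κ) (hk2 : κ ≤ 0.38)
    (ht1 : -0.803 ≤ t + κ) (ht2 : t + κ ≤ -0.677) (hR0 : β * 11.1 ≤ κ) (hR : β * (11.1 * (1 + κ ^ 2)) ≤ κ) :
    ‖HH β (sg κ t) - 1‖ ≤ 0.1 := by
  have hN : β * 33.428 ≤ 1 := bNC hβ h.1 hk2 (by norm_num) (by norm_num) hR (by norm_num)
  have hy1 : -0.403 ≤ sy κ t := syL_ang2 h 0.29 0.38 0.803 0.787 0.7059 0.7083 0.403 1.4963 0.66831 hk1 hk2 (by linarith) (by norm_num) (by norm_num) (by norm_num) (by norm_num)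
    (cos_ge_num (by norm_num) (by norm_num)) (sin_le_num (by norm_num) (by norm_num))
    (expn_ge (by norm_num) (by norm_num)) (expm_ge (by norm_num) (by norm_num) (by norm_num) (by norm_num)) (by norm_num) (by norm_num) (by norm_num)
    (by norm_num) (by norm_num) (by norm_num)
  have hy2 : sy κ t ≤ -0.227 := syL_le h 0.29 0.38 0.677 0.227 0.79692 0.79693 0.47605 0.62381 hk1 hk2 (by linarith) (by norm_num) (by norm_num) (by norm_num)
    (expm_ge (by norm_num) (by norm_num) (by norm_num) (by norm_num)) (expm_le (by norm_num) (by norm_num) (by norm_num)) (by norm_num)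
    (by norm_num) (by norm_num) (by norm_num) (by norm_num) (by norm_num) (by norm_num)
  rcases le_total (sy κ t) (-0.383) with f0 | g0
  · have hx1 : 0.136 ≤ sx κ t := sx_lo h 0.29 (-0.383) 0.403 1.46667 0.136 hk1 (by norm_num) f0 (abs_le.2 ⟨by linarith, by linarith⟩) (by rw [neg_neg]; exact expn_ge (by norm_num) (by norm_num)) (by norm_num) (by norm_num)
    have hx2 : sx κ t ≤ 0.4203 := sx_hi h 0.38 (-0.403) 0.383 1.49631 0.4203 hk2 hy1 (by norm_num) (by rw [abs_of_nonpos (by linarith)]; linarith) (by rw [neg_neg]; exact expn_le (by norm_num) (by norm_num) (by norm_num)) (by norm_num) (by norm_num)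
    exact JM1_b0_0 hβ hN hx1 hx2 (by linarith) (by linarith)
  rcases le_total (sy κ t) (-0.333) with f1 | g1
  · have hx1 : 0.1304 ≤ sx κ t := sx_lo h 0.29 (-0.333) 0.383 1.39514 0.1304 hk1 (by norm_num) f1 (abs_le.2 ⟨by linarith, by linarith⟩) (by rw [neg_neg]; exact expn_ge (by norm_num) (by norm_num)) (by norm_num) (by norm_num)
    have hx2 : sx κ t ≤ 0.447 := sx_hi h 0.38 (-0.383) 0.333 1.46668 0.447 hk2 g0 (by norm_num) (by rw [abs_of_nonpos (by linarith)]; linarith) (by rw [neg_neg]; exact expn_le (by norm_num) (by norm_num) (by norm_num)) (by norm_num) (by norm_num)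
    exact JM1_b0_1 hβ hN hx1 hx2 (by linarith) (by linarith)
  have hx1 : 0.1467 ≤ sx κ t := sx_lo h 0.29 (-0.227) 0.333 1.25482 0.1467 hk1 (by norm_num) hy2 (abs_le.2 ⟨by linarith, by linarith⟩) (by rw [neg_neg]; exact expn_ge (by norm_num) (by norm_num)) (by norm_num) (by norm_num)
  have hx2 : sx κ t ≤ 0.4792 := sx_hi h 0.38 (-0.333) 0.227 1.39515 0.4792 hk2 g1 (by norm_num) (by rw [abs_of_nonpos (by linarith)]; linarith) (by rw [neg_neg]; exact expn_le (by norm_num) (by norm_num) (by norm_num)) (by norm_num) (by norm_num)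
  exact JM1_b0_2 hβ hN hx1 hx2 (by linarith) (by linarith)

private theorem JM1_b1_0 {β x y : ℝ} (hβ : 0 < β) (hN : β * 30.111 ≤ 1) (hx1 : 0.3468 ≤ x) (hx2 : x ≤ 0.5575)
    (hy1 : -0.47 ≤ y) (hy2 : y ≤ -0.43) : ‖HH β (x + y * I) - 1‖ ≤ 0.1 := by
  refine le_epsJ (C := 2.9623) (N0 := 30.111) (J_boxp 0.3468 0.5575 0.47 0 (-0.43) 0.6205 0.7292 0.7974 1.827 0.3563 5.4874 30.111 1.1752 5.698 1.723 0.7718 0.3102 0.1887 0.3851 2.2602 0.2667 0.9801 0.9866 3.4235 0.00008785 0.003413 0.000009216 0.0000003101 0.0003256 0.0000003101 0.0000003101 0.0000003101 2.9623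
    hβ hN hx1 hx2 hy1 hy2 (by norm_num) (by norm_num) (by linarith) (by norm_num) (by norm_num) (by norm_num) (by norm_num) (by norm_num) (by norm_num) (by norm_num) (by norm_num) (by norm_num) (by norm_num) (by norm_num) (by norm_num) (by norm_num) (by norm_num) (by norm_num) (by norm_num) (by norm_num) (by norm_num) (by norm_num) (by norm_num) (by norm_num)
    (cube_sqrt_geJ (s := 0.7799) (by norm_num) (by norm_num) (by norm_num) (by norm_num))
    (cube_sqrt_geJ (s := 0.9252) (by norm_num) (by norm_num) (by norm_num) (by norm_num))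
    (by norm_num) (by norm_num) (by norm_num) (by norm_num) (by norm_num) (by norm_num) (by norm_num) (by norm_num) (by norm_num) (by norm_num) (by norm_num) (by norm_num) (by norm_num) (by norm_num) (by norm_num) (by norm_num) (by norm_num) (by norm_num)
    (exp_neg_leJ (r := 0.34) 9 (by norm_num) (by norm_num) (by norm_num) (by norm_num))
    (exp_neg_leJ (r := 0.681) 5 (by norm_num) (by norm_num) (by norm_num) (by norm_num))
    (exp_neg_leJ (r := 0.595) 11 (by norm_num) (by norm_num) (by norm_num) (by norm_num))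
    (exp_neg_leJ (r := 0.99) 14 (by norm_num) (by norm_num) (by norm_num) (by norm_num))
    (exp_neg_leJ (r := 0.03) 8 (by norm_num) (by norm_num) (by norm_num) (by norm_num))
    (exp_neg_leJ (r := 0.99) 14 (by norm_num) (by norm_num) (by norm_num) (by norm_num))
    (exp_neg_leJ (r := 0.99) 14 (by norm_num) (by norm_num) (by norm_num) (by norm_num))
    (exp_neg_leJ (r := 0.99) 14 (by norm_num) (by norm_num) (by norm_num) (by norm_num))
    (by norm_num)) (by norm_num) hN hβ.le (by norm_num)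

private theorem JM1_b1_1 {β x y : ℝ} (hβ : 0 < β) (hN : β * 30.111 ≤ 1) (hx1 : 0.3164 ≤ x) (hx2 : x ≤ 0.5848)
    (hy1 : -0.43 ≤ y) (hy2 : y ≤ -0.34) : ‖HH β (x + y * I) - 1‖ ≤ 0.1 := by
  refine le_epsJ (C := 2.9013) (N0 := 30.111) (J_boxp 0.3164 0.5848 0.43 0 (-0.34) 0.6275 0.7259 0.8819 1.8893 0.3747 5.4874 30.111 1.1569 5.502 1.707 0.7982 0.3137 0.1927 0.4378 2.3783 0.2738 0.938 1.0346 3.3716 0.0000791 0.003026 0.000001885 0.0000003101 0.0002629 0.0000003101 0.0000003101 0.0000003101 2.9013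
    hβ hN hx1 hx2 hy1 hy2 (by norm_num) (by norm_num) (by linarith) (by norm_num) (by norm_num) (by norm_num) (by norm_num) (by norm_num) (by norm_num) (by norm_num) (by norm_num) (by norm_num) (by norm_num) (by norm_num) (by norm_num) (by norm_num) (by norm_num) (by norm_num) (by norm_num) (by norm_num) (by norm_num) (by norm_num) (by norm_num) (by norm_num)
    (cube_sqrt_geJ (s := 0.7838) (by norm_num) (by norm_num) (by norm_num) (by norm_num))
    (cube_sqrt_geJ (s := 0.9264) (by norm_num) (by norm_num) (by norm_num) (by norm_num))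
    (by norm_num) (by norm_num) (by norm_num) (by norm_num) (by norm_num) (by norm_num) (by norm_num) (by norm_num) (by norm_num) (by norm_num) (by norm_num) (by norm_num) (by norm_num) (by norm_num) (by norm_num) (by norm_num) (by norm_num) (by norm_num)
    (exp_neg_leJ (r := 0.445) 9 (by norm_num) (by norm_num) (by norm_num) (by norm_num))
    (exp_neg_leJ (r := 0.802) 5 (by norm_num) (by norm_num) (by norm_num) (by norm_num))
    (exp_neg_leJ (r := 0.182) 13 (by norm_num) (by norm_num) (by norm_num) (by norm_num))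
    (exp_neg_leJ (r := 0.99) 14 (by norm_num) (by norm_num) (by norm_num) (by norm_num))
    (exp_neg_leJ (r := 0.244) 8 (by norm_num) (by norm_num) (by norm_num) (by norm_num))
    (exp_neg_leJ (r := 0.99) 14 (by norm_num) (by norm_num) (by norm_num) (by norm_num))
    (exp_neg_leJ (r := 0.99) 14 (by norm_num) (by norm_num) (by norm_num) (by norm_num))
    (exp_neg_leJ (r := 0.99) 14 (by norm_num) (by norm_num) (by norm_num) (by norm_num))
    (by norm_num)) (by norm_num) hN hβ.le (by norm_num)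

private theorem JM1_b1_2 {β x y : ℝ} (hβ : 0 < β) (hN : β * 30.111 ≤ 1) (hx1 : 0.3875 ≤ x) (hx2 : x ≤ 0.5377)
    (hy1 : -0.34 ≤ y) (hy2 : y ≤ -0.305) : ‖HH β (x + y * I) - 1‖ ≤ 0.1 := by
  refine le_epsJ (C := 0.936) (N0 := 30.111) (J_boxp 0.3875 0.5377 0.34 0 (-0.305) 0.7414 0.6362 0.8788 1.4685 0.374 5.4874 30.111 0.8582 3.253 1.475 0.8994 0.3706 0.2646 0.6042 2.6995 0.3575 1.0365 1.4214 3.7577 0.00001425 0.0003479 0.0000003101 0.0000003101 0.00002118 0.0000003101 0.0000003101 0.0000003101 0.936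
    hβ hN hx1 hx2 hy1 hy2 (by norm_num) (by norm_num) (by linarith) (by norm_num) (by norm_num) (by norm_num) (by norm_num) (by norm_num) (by norm_num) (by norm_num) (by norm_num) (by norm_num) (by norm_num) (by norm_num) (by norm_num) (by norm_num) (by norm_num) (by norm_num) (by norm_num) (by norm_num) (by norm_num) (by norm_num) (by norm_num) (by norm_num)
    (cube_sqrt_geJ (s := 0.8449) (by norm_num) (by norm_num) (by norm_num) (by norm_num))
    (cube_sqrt_geJ (s := 0.946) (by norm_num) (by norm_num) (by norm_num) (by norm_num))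
    (by norm_num) (by norm_num) (by norm_num) (by norm_num) (by norm_num) (by norm_num) (by norm_num) (by norm_num) (by norm_num) (by norm_num) (by norm_num) (by norm_num) (by norm_num) (by norm_num) (by norm_num) (by norm_num) (by norm_num) (by norm_num)
    (exp_neg_leJ (r := 0.159) 11 (by norm_num) (by norm_num) (by norm_num) (by norm_num))
    (exp_neg_leJ (r := 0.967) 7 (by norm_num) (by norm_num) (by norm_num) (by norm_num))
    (exp_neg_leJ (r := 0.99) 14 (by norm_num) (by norm_num) (by norm_num) (by norm_num))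
    (exp_neg_leJ (r := 0.99) 14 (by norm_num) (by norm_num) (by norm_num) (by norm_num))
    (exp_neg_leJ (r := 0.764) 10 (by norm_num) (by norm_num) (by norm_num) (by norm_num))
    (exp_neg_leJ (r := 0.99) 14 (by norm_num) (by norm_num) (by norm_num) (by norm_num))
    (exp_neg_leJ (r := 0.99) 14 (by norm_num) (by norm_num) (by norm_num) (by norm_num))
    (exp_neg_leJ (r := 0.99) 14 (by norm_num) (by norm_num) (by norm_num) (by norm_num))
    (by norm_num)) (by norm_num) hN hβ.le (by norm_num)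

private theorem JM1_c1 {κ t β : ℝ} (h : DomR κ t) (hβ : 0 < β) (hk1 : 0.38 ≤ κ) (hk2 : κ ≤ 0.44)
    (ht1 : -0.803 ≤ t + κ) (ht2 : t + κ ≤ -0.677) (hR0 : β * 11.1 ≤ κ) (hR : β * (11.1 * (1 + κ ^ 2)) ≤ κ) :
    ‖HH β (sg κ t) - 1‖ ≤ 0.1 := by
  have hN : β * 30.111 ≤ 1 := bNC hβ h.1 hk2 (by norm_num) (by norm_num) hR (by norm_num)
  have hy1 : -0.47 ≤ sy κ t := syL_ang2 h 0.38 0.44 0.803 0.73 0.7451 0.6669 0.47 1.59999 0.625 hk1 hk2 (by linarith) (by norm_num) (by norm_num) (by norm_num) (by norm_num)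
    (cos_ge_num (by norm_num) (by norm_num)) (sin_le_num (by norm_num) (by norm_num))
    (expn_ge (by norm_num) (by norm_num)) (expm_ge (by norm_num) (by norm_num) (by norm_num) (by norm_num)) (by norm_num) (by norm_num) (by norm_num)
    (by norm_num) (by norm_num) (by norm_num)
  have hy2 : sy κ t ≤ -0.305 := syL_le h 0.38 0.44 0.677 0.305 0.73712 0.73713 0.51095 0.59165 hk1 hk2 (by linarith) (by norm_num) (by norm_num) (by norm_num)
    (expm_ge (by norm_num) (by norm_num) (by norm_num) (by norm_num)) (expm_le (by norm_num) (by norm_num) (by norm_num)) (by norm_num)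
    (by norm_num) (by norm_num) (by norm_num) (by norm_num) (by norm_num) (by norm_num)
  rcases le_total (sy κ t) (-0.43) with f0 | g0
  · have hx1 : 0.3468 ≤ sx κ t := sx_lo h 0.38 (-0.43) 0.47 1.53725 0.3468 hk1 (by norm_num) f0 (abs_le.2 ⟨by linarith, by linarith⟩) (by rw [neg_neg]; exact expn_ge (by norm_num) (by norm_num)) (by norm_num) (by norm_num)
    have hx2 : sx κ t ≤ 0.5575 := sx_hi h 0.44 (-0.47) 0.43 1.6 0.5575 hk2 hy1 (by norm_num) (by rw [abs_of_nonpos (by linarith)]; linarith) (by rw [neg_neg]; exact expn_le (by norm_num) (by norm_num) (by norm_num)) (by norm_num) (by norm_num)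
    exact JM1_b1_0 hβ hN hx1 hx2 (by linarith) (by linarith)
  rcases le_total (sy κ t) (-0.34) with f1 | g1
  · have hx1 : 0.3164 ≤ sx κ t := sx_lo h 0.38 (-0.34) 0.43 1.40494 0.3164 hk1 (by norm_num) f1 (abs_le.2 ⟨by linarith, by linarith⟩) (by rw [neg_neg]; exact expn_ge (by norm_num) (by norm_num)) (by norm_num) (by norm_num)
    have hx2 : sx κ t ≤ 0.5848 := sx_hi h 0.44 (-0.43) 0.34 1.53726 0.5848 hk2 g0 (by norm_num) (by rw [abs_of_nonpos (by linarith)]; linarith) (by rw [neg_neg]; exact expn_le (by norm_num) (by norm_num) (by norm_num)) (by norm_num) (by norm_num)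
    exact JM1_b1_1 hβ hN hx1 hx2 (by linarith) (by linarith)
  have hx1 : 0.3875 ≤ sx κ t := sx_lo h 0.38 (-0.305) 0.34 1.35662 0.3875 hk1 (by norm_num) hy2 (abs_le.2 ⟨by linarith, by linarith⟩) (by rw [neg_neg]; exact expn_ge (by norm_num) (by norm_num)) (by norm_num) (by norm_num)
  have hx2 : sx κ t ≤ 0.5377 := sx_hi h 0.44 (-0.34) 0.305 1.40495 0.5377 hk2 g1 (by norm_num) (by rw [abs_of_nonpos (by linarith)]; linarith) (by rw [neg_neg]; exact expn_le (by norm_num) (by norm_num) (by norm_num)) (by norm_num) (by norm_num)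
  exact JM1_b1_2 hβ hN hx1 hx2 (by linarith) (by linarith)

private theorem JM1_b2_0 {β x y : ℝ} (hβ : 0 < β) (hN : β * 27.749 ≤ 1) (hx1 : 0.5006 ≤ x) (hx2 : x ≤ 0.6766)
    (hy1 : -0.509 ≤ y) (hy2 : y ≤ -0.484) : ‖HH β (x + y * I) - 1‖ ≤ 0.1 := by
  refine le_epsJ (C := 2.7642) (N0 := 27.749) (J_boxp 0.5006 0.6766 0.509 0 (-0.484) 0.7011 0.8467 0.851 1.5715 0.3681 5.2678 27.749 1.2077 6.068 1.751 0.69 0.3505 0.2094 0.3762 2.0694 0.3201 1.1931 1.1882 3.4117 0.00005977 0.003002 0.00002928 0.0000003101 0.0001392 0.0000003101 0.0000003101 0.0000003101 2.7642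
    hβ hN hx1 hx2 hy1 hy2 (by norm_num) (by norm_num) (by linarith) (by norm_num) (by norm_num) (by norm_num) (by norm_num) (by norm_num) (by norm_num) (by norm_num) (by norm_num) (by norm_num) (by norm_num) (by norm_num) (by norm_num) (by norm_num) (by norm_num) (by norm_num) (by norm_num) (by norm_num) (by norm_num) (by norm_num) (by norm_num) (by norm_num)
    (cube_sqrt_geJ (s := 0.7729) (by norm_num) (by norm_num) (by norm_num) (by norm_num))
    (cube_sqrt_geJ (s := 0.9231) (by norm_num) (by norm_num) (by norm_num) (by norm_num))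
    (by norm_num) (by norm_num) (by norm_num) (by norm_num) (by norm_num) (by norm_num) (by norm_num) (by norm_num) (by norm_num) (by norm_num) (by norm_num) (by norm_num) (by norm_num) (by norm_num) (by norm_num) (by norm_num) (by norm_num) (by norm_num)
    (exp_neg_leJ (r := 0.726) 9 (by norm_num) (by norm_num) (by norm_num) (by norm_num))
    (exp_neg_leJ (r := 0.81) 5 (by norm_num) (by norm_num) (by norm_num) (by norm_num))
    (exp_neg_leJ (r := 0.439) 10 (by norm_num) (by norm_num) (by norm_num) (by norm_num))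
    (exp_neg_leJ (r := 0.99) 14 (by norm_num) (by norm_num) (by norm_num) (by norm_num))
    (exp_neg_leJ (r := 0.882) 8 (by norm_num) (by norm_num) (by norm_num) (by norm_num))
    (exp_neg_leJ (r := 0.99) 14 (by norm_num) (by norm_num) (by norm_num) (by norm_num))
    (exp_neg_leJ (r := 0.99) 14 (by norm_num) (by norm_num) (by norm_num) (by norm_num))
    (exp_neg_leJ (r := 0.99) 14 (by norm_num) (by norm_num) (by norm_num) (by norm_num))
    (by norm_num)) (by norm_num) hN hβ.le (by norm_num)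

private theorem JM1_b2_1 {β x y : ℝ} (hβ : 0 < β) (hN : β * 27.749 ≤ 1) (hx1 : 0.4763 ≤ x) (hx2 : x ≤ 0.6855)
    (hy1 : -0.484 ≤ y) (hy2 : y ≤ -0.434) : ‖HH β (x + y * I) - 1‖ ≤ 0.1 := by
  refine le_epsJ (C := 2.7298) (N0 := 27.749) (J_boxp 0.4763 0.6855 0.484 0 (-0.434) 0.7017 0.8392 0.889 1.6041 0.3762 5.2678 27.749 1.196 5.932 1.741 0.7096 0.3508 0.2109 0.4073 2.1471 0.3219 1.1594 1.2076 3.3835 0.0000593 0.00288 0.00001235 0.0000003101 0.0001325 0.0000003101 0.0000003101 0.0000003101 2.7298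
    hβ hN hx1 hx2 hy1 hy2 (by norm_num) (by norm_num) (by linarith) (by norm_num) (by norm_num) (by norm_num) (by norm_num) (by norm_num) (by norm_num) (by norm_num) (by norm_num) (by norm_num) (by norm_num) (by norm_num) (by norm_num) (by norm_num) (by norm_num) (by norm_num) (by norm_num) (by norm_num) (by norm_num) (by norm_num) (by norm_num) (by norm_num)
    (cube_sqrt_geJ (s := 0.7754) (by norm_num) (by norm_num) (by norm_num) (by norm_num))
    (cube_sqrt_geJ (s := 0.9238) (by norm_num) (by norm_num) (by norm_num) (by norm_num))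
    (by norm_num) (by norm_num) (by norm_num) (by norm_num) (by norm_num) (by norm_num) (by norm_num) (by norm_num) (by norm_num) (by norm_num) (by norm_num) (by norm_num) (by norm_num) (by norm_num) (by norm_num) (by norm_num) (by norm_num) (by norm_num)
    (exp_neg_leJ (r := 0.734) 9 (by norm_num) (by norm_num) (by norm_num) (by norm_num))
    (exp_neg_leJ (r := 0.852) 5 (by norm_num) (by norm_num) (by norm_num) (by norm_num))
    (exp_neg_leJ (r := 0.302) 11 (by norm_num) (by norm_num) (by norm_num) (by norm_num))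
    (exp_neg_leJ (r := 0.99) 14 (by norm_num) (by norm_num) (by norm_num) (by norm_num))
    (exp_neg_leJ (r := 0.932) 8 (by norm_num) (by norm_num) (by norm_num) (by norm_num))
    (exp_neg_leJ (r := 0.99) 14 (by norm_num) (by norm_num) (by norm_num) (by norm_num))
    (exp_neg_leJ (r := 0.99) 14 (by norm_num) (by norm_num) (by norm_num) (by norm_num))
    (exp_neg_leJ (r := 0.99) 14 (by norm_num) (by norm_num) (by norm_num) (by norm_num))
    (by norm_num)) (by norm_num) hN hβ.le (by norm_num)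

private theorem JM1_b2_2 {β x y : ℝ} (hβ : 0 < β) (hN : β * 27.749 ≤ 1) (hx1 : 0.448 ≤ x) (hx2 : x ≤ 0.6883)
    (hy1 : -0.434 ≤ y) (hy2 : y ≤ -0.349) : ‖HH β (x + y * I) - 1‖ ≤ 0.1 := by
  refine le_epsJ (C := 2.2834) (N0 := 27.749) (J_boxp 0.448 0.6883 0.434 0 (-0.349) 0.7173 0.8138 0.9474 1.6022 0.3884 5.2678 27.749 1.1346 5.276 1.688 0.7547 0.3586 0.223 0.4765 2.3101 0.3355 1.1203 1.2869 3.3959 0.00004787 0.002054 0.000001811 0.0000003101 0.00009061 0.0000003101 0.0000003101 0.0000003101 2.2834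
    hβ hN hx1 hx2 hy1 hy2 (by norm_num) (by norm_num) (by linarith) (by norm_num) (by norm_num) (by norm_num) (by norm_num) (by norm_num) (by norm_num) (by norm_num) (by norm_num) (by norm_num) (by norm_num) (by norm_num) (by norm_num) (by norm_num) (by norm_num) (by norm_num) (by norm_num) (by norm_num) (by norm_num) (by norm_num) (by norm_num) (by norm_num)
    (cube_sqrt_geJ (s := 0.7885) (by norm_num) (by norm_num) (by norm_num) (by norm_num))
    (cube_sqrt_geJ (s := 0.9279) (by norm_num) (by norm_num) (by norm_num) (by norm_num))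
    (by norm_num) (by norm_num) (by norm_num) (by norm_num) (by norm_num) (by norm_num) (by norm_num) (by norm_num) (by norm_num) (by norm_num) (by norm_num) (by norm_num) (by norm_num) (by norm_num) (by norm_num) (by norm_num) (by norm_num) (by norm_num)
    (exp_neg_leJ (r := 0.95) 9 (by norm_num) (by norm_num) (by norm_num) (by norm_num))
    (exp_neg_leJ (r := 0.188) 6 (by norm_num) (by norm_num) (by norm_num) (by norm_num))
    (exp_neg_leJ (r := 0.222) 13 (by norm_num) (by norm_num) (by norm_num) (by norm_num))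
    (exp_neg_leJ (r := 0.99) 14 (by norm_num) (by norm_num) (by norm_num) (by norm_num))
    (exp_neg_leJ (r := 0.309) 9 (by norm_num) (by norm_num) (by norm_num) (by norm_num))
    (exp_neg_leJ (r := 0.99) 14 (by norm_num) (by norm_num) (by norm_num) (by norm_num))
    (exp_neg_leJ (r := 0.99) 14 (by norm_num) (by norm_num) (by norm_num) (by norm_num))
    (exp_neg_leJ (r := 0.99) 14 (by norm_num) (by norm_num) (by norm_num) (by norm_num))
    (by norm_num)) (by norm_num) hN hβ.le (by norm_num)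

private theorem JM1_c2 {κ t β : ℝ} (h : DomR κ t) (hβ : 0 < β) (hk1 : 0.44 ≤ κ) (hk2 : κ ≤ 0.5)
    (ht1 : -0.803 ≤ t + κ) (ht2 : t + κ ≤ -0.677) (hR0 : β * 11.1 ≤ κ) (hR : β * (11.1 * (1 + κ ^ 2)) ≤ κ) :
    ‖HH β (sg κ t) - 1‖ ≤ 0.1 := by
  have hN : β * 27.749 ≤ 1 := bNC hβ h.1 hk2 (by norm_num) (by norm_num) hR (by norm_num)
  have hy1 : -0.509 ≤ sy κ t := syL_ge2 h 0.44 0.5 0.803 0.509 0.60109 0.6011 0.5979 0.6119 0.69537 hk1 hk2 (by linarith) (by norm_num) (by norm_num) (by norm_num)
    (expm_ge (by norm_num) (by norm_num) (by norm_num) (by norm_num)) (expm_le (by norm_num) (by norm_num) (by norm_num)) (by norm_num)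
    (by norm_num) (by norm_num) (by norm_num) (by norm_num) (by norm_num) (by norm_num)
  have hy2 : sy κ t ≤ -0.349 := syL_le h 0.44 0.5 0.677 0.349 0.70539 0.7054 0.49236 0.55952 hk1 hk2 (by linarith) (by norm_num) (by norm_num) (by norm_num)
    (expm_ge (by norm_num) (by norm_num) (by norm_num) (by norm_num)) (expm_le (by norm_num) (by norm_num) (by norm_num)) (by norm_num)
    (by norm_num) (by norm_num) (by norm_num) (by norm_num) (by norm_num) (by norm_num)
  rcases le_total (sy κ t) (-0.484) with f0 | g0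
  · have hx1 : 0.5006 ≤ sx κ t := sx_lo h 0.44 (-0.484) 0.509 1.62255 0.5006 hk1 (by norm_num) f0 (abs_le.2 ⟨by linarith, by linarith⟩) (by rw [neg_neg]; exact expn_ge (by norm_num) (by norm_num)) (by norm_num) (by norm_num)
    have hx2 : sx κ t ≤ 0.6766 := sx_hi h 0.5 (-0.509) 0.484 1.66363 0.6766 hk2 hy1 (by norm_num) (by rw [abs_of_nonpos (by linarith)]; linarith) (by rw [neg_neg]; exact expn_le (by norm_num) (by norm_num) (by norm_num)) (by norm_num) (by norm_num)
    exact JM1_b2_0 hβ hN hx1 hx2 (by linarith) (by linarith)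
  rcases le_total (sy κ t) (-0.434) with f1 | g1
  · have hx1 : 0.4763 ≤ sx κ t := sx_lo h 0.44 (-0.434) 0.484 1.54341 0.4763 hk1 (by norm_num) f1 (abs_le.2 ⟨by linarith, by linarith⟩) (by rw [neg_neg]; exact expn_ge (by norm_num) (by norm_num)) (by norm_num) (by norm_num)
    have hx2 : sx κ t ≤ 0.6855 := sx_hi h 0.5 (-0.484) 0.434 1.62256 0.6855 hk2 g0 (by norm_num) (by rw [abs_of_nonpos (by linarith)]; linarith) (by rw [neg_neg]; exact expn_le (by norm_num) (by norm_num) (by norm_num)) (by norm_num) (by norm_num)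
    exact JM1_b2_1 hβ hN hx1 hx2 (by linarith) (by linarith)
  have hx1 : 0.448 ≤ sx κ t := sx_lo h 0.44 (-0.349) 0.434 1.41764 0.448 hk1 (by norm_num) hy2 (abs_le.2 ⟨by linarith, by linarith⟩) (by rw [neg_neg]; exact expn_ge (by norm_num) (by norm_num)) (by norm_num) (by norm_num)
  have hx2 : sx κ t ≤ 0.6883 := sx_hi h 0.5 (-0.434) 0.349 1.54342 0.6883 hk2 g1 (by norm_num) (by rw [abs_of_nonpos (by linarith)]; linarith) (by rw [neg_neg]; exact expn_le (by norm_num) (by norm_num) (by norm_num)) (by norm_num) (by norm_num)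
  exact JM1_b2_2 hβ hN hx1 hx2 (by linarith) (by linarith)

private theorem JM1_b3_0 {β x y : ℝ} (hβ : 0 < β) (hN : β * 26.037 ≤ 1) (hx1 : 0.6295 ≤ x) (hx2 : x ≤ 0.8055)
    (hy1 : -0.522 ≤ y) (hy2 : y ≤ -0.492) : ‖HH β (x + y * I) - 1‖ ≤ 0.1 := by
  refine le_epsJ (C := 2.5926) (N0 := 26.037) (J_boxp 0.6295 0.8055 0.522 0 (-0.492) 0.7826 0.9599 0.9524 1.4097 0.3894 5.1027 26.037 1.2266 6.297 1.768 0.6284 0.3912 0.2313 0.3998 1.9583 0.3756 1.3716 1.4107 3.3618 0.00003774 0.002425 0.00003017 0.0000003101 0.00005671 0.0000003101 0.0000003101 0.0000003101 2.5926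
    hβ hN hx1 hx2 hy1 hy2 (by norm_num) (by norm_num) (by linarith) (by norm_num) (by norm_num) (by norm_num) (by norm_num) (by norm_num) (by norm_num) (by norm_num) (by norm_num) (by norm_num) (by norm_num) (by norm_num) (by norm_num) (by norm_num) (by norm_num) (by norm_num) (by norm_num) (by norm_num) (by norm_num) (by norm_num) (by norm_num) (by norm_num)
    (cube_sqrt_geJ (s := 0.7688) (by norm_num) (by norm_num) (by norm_num) (by norm_num))
    (cube_sqrt_geJ (s := 0.9218) (by norm_num) (by norm_num) (by norm_num) (by norm_num))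
    (by norm_num) (by norm_num) (by norm_num) (by norm_num) (by norm_num) (by norm_num) (by norm_num) (by norm_num) (by norm_num) (by norm_num) (by norm_num) (by norm_num) (by norm_num) (by norm_num) (by norm_num) (by norm_num) (by norm_num) (by norm_num)
    (exp_neg_leJ (r := 0.185) 10 (by norm_num) (by norm_num) (by norm_num) (by norm_num))
    (exp_neg_leJ (r := 0.022) 6 (by norm_num) (by norm_num) (by norm_num) (by norm_num))
    (exp_neg_leJ (r := 0.409) 10 (by norm_num) (by norm_num) (by norm_num) (by norm_num))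
    (exp_neg_leJ (r := 0.99) 14 (by norm_num) (by norm_num) (by norm_num) (by norm_num))
    (exp_neg_leJ (r := 0.779) 9 (by norm_num) (by norm_num) (by norm_num) (by norm_num))
    (exp_neg_leJ (r := 0.99) 14 (by norm_num) (by norm_num) (by norm_num) (by norm_num))
    (exp_neg_leJ (r := 0.99) 14 (by norm_num) (by norm_num) (by norm_num) (by norm_num))
    (exp_neg_leJ (r := 0.99) 14 (by norm_num) (by norm_num) (by norm_num) (by norm_num))
    (by norm_num)) (by norm_num) hN hβ.le (by norm_num)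

private theorem JM1_b3_1 {β x y : ℝ} (hβ : 0 < β) (hN : β * 26.037 ≤ 1) (hx1 : 0.5925 ≤ x) (hx2 : x ≤ 0.8077)
    (hy1 : -0.492 ≤ y) (hy2 : y ≤ -0.432) : ‖HH β (x + y * I) - 1‖ ≤ 0.1 := by
  refine le_epsJ (C := 2.5871) (N0 := 26.037) (J_boxp 0.5925 0.8077 0.492 0 (-0.432) 0.7779 0.9458 0.9875 1.4484 0.3965 5.1027 26.037 1.2159 6.166 1.759 0.6553 0.3889 0.2313 0.4344 2.0556 0.374 1.3203 1.4182 3.3261 0.00004007 0.002425 0.00001226 0.0000003101 0.00005912 0.0000003101 0.0000003101 0.0000003101 2.5871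
    hβ hN hx1 hx2 hy1 hy2 (by norm_num) (by norm_num) (by linarith) (by norm_num) (by norm_num) (by norm_num) (by norm_num) (by norm_num) (by norm_num) (by norm_num) (by norm_num) (by norm_num) (by norm_num) (by norm_num) (by norm_num) (by norm_num) (by norm_num) (by norm_num) (by norm_num) (by norm_num) (by norm_num) (by norm_num) (by norm_num) (by norm_num)
    (cube_sqrt_geJ (s := 0.7711) (by norm_num) (by norm_num) (by norm_num) (by norm_num))
    (cube_sqrt_geJ (s := 0.9225) (by norm_num) (by norm_num) (by norm_num) (by norm_num))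
    (by norm_num) (by norm_num) (by norm_num) (by norm_num) (by norm_num) (by norm_num) (by norm_num) (by norm_num) (by norm_num) (by norm_num) (by norm_num) (by norm_num) (by norm_num) (by norm_num) (by norm_num) (by norm_num) (by norm_num) (by norm_num)
    (exp_neg_leJ (r := 0.125) 10 (by norm_num) (by norm_num) (by norm_num) (by norm_num))
    (exp_neg_leJ (r := 0.022) 6 (by norm_num) (by norm_num) (by norm_num) (by norm_num))
    (exp_neg_leJ (r := 0.31) 11 (by norm_num) (by norm_num) (by norm_num) (by norm_num))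
    (exp_neg_leJ (r := 0.99) 14 (by norm_num) (by norm_num) (by norm_num) (by norm_num))
    (exp_neg_leJ (r := 0.737) 9 (by norm_num) (by norm_num) (by norm_num) (by norm_num))
    (exp_neg_leJ (r := 0.99) 14 (by norm_num) (by norm_num) (by norm_num) (by norm_num))
    (exp_neg_leJ (r := 0.99) 14 (by norm_num) (by norm_num) (by norm_num) (by norm_num))
    (exp_neg_leJ (r := 0.99) 14 (by norm_num) (by norm_num) (by norm_num) (by norm_num))
    (by norm_num)) (by norm_num) hN hβ.le (by norm_num)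

private theorem JM1_b3_2 {β x y : ℝ} (hβ : 0 < β) (hN : β * 26.037 ≤ 1) (hx1 : 0.5907 ≤ x) (hx2 : x ≤ 0.7739)
    (hy1 : -0.432 ≤ y) (hy2 : y ≤ -0.381) : ‖HH β (x + y * I) - 1‖ ≤ 0.1 := by
  refine le_epsJ (C := 1.6321) (N0 := 26.037) (J_boxp 0.5907 0.7739 0.432 0 (-0.381) 0.8192 0.8864 0.9911 1.3427 0.3972 5.1027 26.037 1.0821 4.788 1.645 0.7236 0.4095 0.2618 0.5285 2.2704 0.4059 1.3178 1.5777 3.4839 0.00002344 0.001098 0.000001059 0.0000003101 0.00002574 0.0000003101 0.0000003101 0.0000003101 1.6321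
    hβ hN hx1 hx2 hy1 hy2 (by norm_num) (by norm_num) (by linarith) (by norm_num) (by norm_num) (by norm_num) (by norm_num) (by norm_num) (by norm_num) (by norm_num) (by norm_num) (by norm_num) (by norm_num) (by norm_num) (by norm_num) (by norm_num) (by norm_num) (by norm_num) (by norm_num) (by norm_num) (by norm_num) (by norm_num) (by norm_num) (by norm_num)
    (cube_sqrt_geJ (s := 0.7995) (by norm_num) (by norm_num) (by norm_num) (by norm_num))
    (cube_sqrt_geJ (s := 0.9314) (by norm_num) (by norm_num) (by norm_num) (by norm_num))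
    (by norm_num) (by norm_num) (by norm_num) (by norm_num) (by norm_num) (by norm_num) (by norm_num) (by norm_num) (by norm_num) (by norm_num) (by norm_num) (by norm_num) (by norm_num) (by norm_num) (by norm_num) (by norm_num) (by norm_num) (by norm_num)
    (exp_neg_leJ (r := 0.662) 10 (by norm_num) (by norm_num) (by norm_num) (by norm_num))
    (exp_neg_leJ (r := 0.816) 6 (by norm_num) (by norm_num) (by norm_num) (by norm_num))
    (exp_neg_leJ (r := 0.76) 13 (by norm_num) (by norm_num) (by norm_num) (by norm_num))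
    (exp_neg_leJ (r := 0.99) 14 (by norm_num) (by norm_num) (by norm_num) (by norm_num))
    (exp_neg_leJ (r := 0.568) 10 (by norm_num) (by norm_num) (by norm_num) (by norm_num))
    (exp_neg_leJ (r := 0.99) 14 (by norm_num) (by norm_num) (by norm_num) (by norm_num))
    (exp_neg_leJ (r := 0.99) 14 (by norm_num) (by norm_num) (by norm_num) (by norm_num))
    (exp_neg_leJ (r := 0.99) 14 (by norm_num) (by norm_num) (by norm_num) (by norm_num))
    (by norm_num)) (by norm_num) hN hβ.le (by norm_num)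

private theorem JM1_c3 {κ t β : ℝ} (h : DomR κ t) (hβ : 0 < β) (hk1 : 0.5 ≤ κ) (hk2 : κ ≤ 0.56)
    (ht1 : -0.803 ≤ t + κ) (ht2 : t + κ ≤ -0.677) (hR0 : β * 11.1 ≤ κ) (hR : β * (11.1 * (1 + κ ^ 2)) ≤ κ) :
    ‖HH β (sg κ t) - 1‖ ≤ 0.1 := by
  have hN : β * 26.037 ≤ 1 := bNC hβ h.1 hk2 (by norm_num) (by norm_num) hR (by norm_num)
  have hy1 : -0.522 ≤ sy κ t := syL_ge h 0.5 0.56 0.803 0.522 0.59333 0.59334 0.5475 0.55306 0.61945 hk1 hk2 (by linarith) (by norm_num) (by norm_num) (by norm_num)
    (expm_ge (by norm_num) (by norm_num) (by norm_num) (by norm_num)) (expm_le (by norm_num) (by norm_num) (by norm_num)) (by norm_num)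
    (by norm_num) (by norm_num) (by norm_num) (by norm_num) (by norm_num) (by norm_num)
  have hy2 : sy κ t ≤ -0.381 := syL_le h 0.5 0.56 0.677 0.381 0.68317 0.68318 0.46479 0.52059 hk1 hk2 (by linarith) (by norm_num) (by norm_num) (by norm_num)
    (expm_ge (by norm_num) (by norm_num) (by norm_num) (by norm_num)) (expm_le (by norm_num) (by norm_num) (by norm_num)) (by norm_num)
    (by norm_num) (by norm_num) (by norm_num) (by norm_num) (by norm_num) (by norm_num)
  rcases le_total (sy κ t) (-0.492) with f0 | g0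
  · have hx1 : 0.6295 ≤ sx κ t := sx_lo h 0.5 (-0.492) 0.522 1.63558 0.6295 hk1 (by norm_num) f0 (abs_le.2 ⟨by linarith, by linarith⟩) (by rw [neg_neg]; exact expn_ge (by norm_num) (by norm_num)) (by norm_num) (by norm_num)
    have hx2 : sx κ t ≤ 0.8055 := sx_hi h 0.56 (-0.522) 0.492 1.6854 0.8055 hk2 hy1 (by norm_num) (by rw [abs_of_nonpos (by linarith)]; linarith) (by rw [neg_neg]; exact expn_le (by norm_num) (by norm_num) (by norm_num)) (by norm_num) (by norm_num)
    exact JM1_b3_0 hβ hN hx1 hx2 (by linarith) (by linarith)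
  rcases le_total (sy κ t) (-0.432) with f1 | g1
  · have hx1 : 0.5925 ≤ sx κ t := sx_lo h 0.5 (-0.432) 0.492 1.54033 0.5925 hk1 (by norm_num) f1 (abs_le.2 ⟨by linarith, by linarith⟩) (by rw [neg_neg]; exact expn_ge (by norm_num) (by norm_num)) (by norm_num) (by norm_num)
    have hx2 : sx κ t ≤ 0.8077 := sx_hi h 0.56 (-0.492) 0.432 1.63559 0.8077 hk2 g0 (by norm_num) (by rw [abs_of_nonpos (by linarith)]; linarith) (by rw [neg_neg]; exact expn_le (by norm_num) (by norm_num) (by norm_num)) (by norm_num) (by norm_num)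
    exact JM1_b3_1 hβ hN hx1 hx2 (by linarith) (by linarith)
  have hx1 : 0.5907 ≤ sx κ t := sx_lo h 0.5 (-0.381) 0.432 1.46374 0.5907 hk1 (by norm_num) hy2 (abs_le.2 ⟨by linarith, by linarith⟩) (by rw [neg_neg]; exact expn_ge (by norm_num) (by norm_num)) (by norm_num) (by norm_num)
  have hx2 : sx κ t ≤ 0.7739 := sx_hi h 0.56 (-0.432) 0.381 1.54034 0.7739 hk2 g1 (by norm_num) (by rw [abs_of_nonpos (by linarith)]; linarith) (by rw [neg_neg]; exact expn_le (by norm_num) (by norm_num) (by norm_num)) (by norm_num) (by norm_num)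
  exact JM1_b3_2 hβ hN hx1 hx2 (by linarith) (by linarith)

private theorem JM1_b4_0 {β x y : ℝ} (hβ : 0 < β) (hN : β * 24.447 ≤ 1) (hx1 : 0.7646 ≤ x) (hx2 : x ≤ 0.9562)
    (hy1 : -0.524 ≤ y) (hy2 : y ≤ -0.504) : ‖HH β (x + y * I) - 1‖ ≤ 0.1 := by
  refine le_epsJ (C := 2.4289) (N0 := 24.447) (J_boxp 0.7646 0.9562 0.524 0 (-0.504) 0.8763 1.0904 1.0772 1.2653 0.4141 4.9444 24.447 1.2444 6.524 1.784 0.5686 0.4381 0.2564 0.4428 1.8704 0.4401 1.5586 1.6755 3.2772 0.00002234 0.001897 0.00001993 0.0000003101 0.00002128 0.0000003101 0.0000003101 0.0000003101 2.4289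
    hβ hN hx1 hx2 hy1 hy2 (by norm_num) (by norm_num) (by linarith) (by norm_num) (by norm_num) (by norm_num) (by norm_num) (by norm_num) (by norm_num) (by norm_num) (by norm_num) (by norm_num) (by norm_num) (by norm_num) (by norm_num) (by norm_num) (by norm_num) (by norm_num) (by norm_num) (by norm_num) (by norm_num) (by norm_num) (by norm_num) (by norm_num)
    (cube_sqrt_geJ (s := 0.7649) (by norm_num) (by norm_num) (by norm_num) (by norm_num))
    (cube_sqrt_geJ (s := 0.9206) (by norm_num) (by norm_num) (by norm_num) (by norm_num))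
    (by norm_num) (by norm_num) (by norm_num) (by norm_num) (by norm_num) (by norm_num) (by norm_num) (by norm_num) (by norm_num) (by norm_num) (by norm_num) (by norm_num) (by norm_num) (by norm_num) (by norm_num) (by norm_num) (by norm_num) (by norm_num)
    (exp_neg_leJ (r := 0.71) 10 (by norm_num) (by norm_num) (by norm_num) (by norm_num))
    (exp_neg_leJ (r := 0.268) 6 (by norm_num) (by norm_num) (by norm_num) (by norm_num))
    (exp_neg_leJ (r := 0.825) 10 (by norm_num) (by norm_num) (by norm_num) (by norm_num))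
    (exp_neg_leJ (r := 0.99) 14 (by norm_num) (by norm_num) (by norm_num) (by norm_num))
    (exp_neg_leJ (r := 0.759) 10 (by norm_num) (by norm_num) (by norm_num) (by norm_num))
    (exp_neg_leJ (r := 0.99) 14 (by norm_num) (by norm_num) (by norm_num) (by norm_num))
    (exp_neg_leJ (r := 0.99) 14 (by norm_num) (by norm_num) (by norm_num) (by norm_num))
    (exp_neg_leJ (r := 0.99) 14 (by norm_num) (by norm_num) (by norm_num) (by norm_num))
    (by norm_num)) (by norm_num) hN hβ.le (by norm_num)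

private theorem JM1_b4_1 {β x y : ℝ} (hβ : 0 < β) (hN : β * 24.447 ≤ 1) (hx1 : 0.7397 ≤ x) (hx2 : x ≤ 0.95)
    (hy1 : -0.504 ≤ y) (hy2 : y ≤ -0.469) : ‖HH β (x + y * I) - 1‖ ≤ 0.1 := by
  refine le_epsJ (C := 2.3718) (N0 := 24.447) (J_boxp 0.7397 0.95 0.504 0 (-0.469) 0.873 1.0755 1.0884 1.2791 0.4163 4.9444 24.447 1.232 6.365 1.773 0.5895 0.4364 0.2572 0.4659 1.9391 0.4389 1.5241 1.68 3.2679 0.0000233 0.001861 0.00001133 0.0000003101 0.00002193 0.0000003101 0.0000003101 0.0000003101 2.3718
    hβ hN hx1 hx2 hy1 hy2 (by norm_num) (by norm_num) (by linarith) (by norm_num) (by norm_num) (by norm_num) (by norm_num) (by norm_num) (by norm_num) (by norm_num) (by norm_num) (by norm_num) (by norm_num) (by norm_num) (by norm_num) (by norm_num) (by norm_num) (by norm_num) (by norm_num) (by norm_num) (by norm_num) (by norm_num) (by norm_num) (by norm_num)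
    (cube_sqrt_geJ (s := 0.7676) (by norm_num) (by norm_num) (by norm_num) (by norm_num))
    (cube_sqrt_geJ (s := 0.9214) (by norm_num) (by norm_num) (by norm_num) (by norm_num))
    (by norm_num) (by norm_num) (by norm_num) (by norm_num) (by norm_num) (by norm_num) (by norm_num) (by norm_num) (by norm_num) (by norm_num) (by norm_num) (by norm_num) (by norm_num) (by norm_num) (by norm_num) (by norm_num) (by norm_num) (by norm_num)
    (exp_neg_leJ (r := 0.668) 10 (by norm_num) (by norm_num) (by norm_num) (by norm_num))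
    (exp_neg_leJ (r := 0.287) 6 (by norm_num) (by norm_num) (by norm_num) (by norm_num))
    (exp_neg_leJ (r := 0.389) 11 (by norm_num) (by norm_num) (by norm_num) (by norm_num))
    (exp_neg_leJ (r := 0.99) 14 (by norm_num) (by norm_num) (by norm_num) (by norm_num))
    (exp_neg_leJ (r := 0.729) 10 (by norm_num) (by norm_num) (by norm_num) (by norm_num))
    (exp_neg_leJ (r := 0.99) 14 (by norm_num) (by norm_num) (by norm_num) (by norm_num))
    (exp_neg_leJ (r := 0.99) 14 (by norm_num) (by norm_num) (by norm_num) (by norm_num))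
    (exp_neg_leJ (r := 0.99) 14 (by norm_num) (by norm_num) (by norm_num) (by norm_num))
    (by norm_num)) (by norm_num) hN hβ.le (by norm_num)

private theorem JM1_b4_2 {β x y : ℝ} (hβ : 0 < β) (hN : β * 24.447 ≤ 1) (hx1 : 0.6923 ≤ x) (hx2 : x ≤ 0.9412)
    (hy1 : -0.469 ≤ y) (hy2 : y ≤ -0.401) : ‖HH β (x + y * I) - 1‖ ≤ 0.1 := by
  refine le_epsJ (C := 2.3351) (N0 := 24.447) (J_boxp 0.6923 0.9412 0.469 0 (-0.401) 0.8645 1.0516 1.1157 1.3141 0.4214 4.9444 24.447 1.2165 6.173 1.759 0.6251 0.4322 0.2569 0.5049 2.0581 0.435 1.4585 1.6804 3.2381 0.00002582 0.001874 0.000004361 0.0000003101 0.0000241 0.0000003101 0.0000003101 0.0000003101 2.3351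
    hβ hN hx1 hx2 hy1 hy2 (by norm_num) (by norm_num) (by linarith) (by norm_num) (by norm_num) (by norm_num) (by norm_num) (by norm_num) (by norm_num) (by norm_num) (by norm_num) (by norm_num) (by norm_num) (by norm_num) (by norm_num) (by norm_num) (by norm_num) (by norm_num) (by norm_num) (by norm_num) (by norm_num) (by norm_num) (by norm_num) (by norm_num)
    (cube_sqrt_geJ (s := 0.771) (by norm_num) (by norm_num) (by norm_num) (by norm_num))
    (cube_sqrt_geJ (s := 0.9225) (by norm_num) (by norm_num) (by norm_num) (by norm_num))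
    (by norm_num) (by norm_num) (by norm_num) (by norm_num) (by norm_num) (by norm_num) (by norm_num) (by norm_num) (by norm_num) (by norm_num) (by norm_num) (by norm_num) (by norm_num) (by norm_num) (by norm_num) (by norm_num) (by norm_num) (by norm_num)
    (exp_neg_leJ (r := 0.565) 10 (by norm_num) (by norm_num) (by norm_num) (by norm_num))
    (exp_neg_leJ (r := 0.28) 6 (by norm_num) (by norm_num) (by norm_num) (by norm_num))
    (exp_neg_leJ (r := 0.343) 12 (by norm_num) (by norm_num) (by norm_num) (by norm_num))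
    (exp_neg_leJ (r := 0.99) 14 (by norm_num) (by norm_num) (by norm_num) (by norm_num))
    (exp_neg_leJ (r := 0.634) 10 (by norm_num) (by norm_num) (by norm_num) (by norm_num))
    (exp_neg_leJ (r := 0.99) 14 (by norm_num) (by norm_num) (by norm_num) (by norm_num))
    (exp_neg_leJ (r := 0.99) 14 (by norm_num) (by norm_num) (by norm_num) (by norm_num))
    (exp_neg_leJ (r := 0.99) 14 (by norm_num) (by norm_num) (by norm_num) (by norm_num))
    (by norm_num)) (by norm_num) hN hβ.le (by norm_num)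

private theorem JM1_c4 {κ t β : ℝ} (h : DomR κ t) (hβ : 0 < β) (hk1 : 0.56 ≤ κ) (hk2 : κ ≤ 0.64)
    (ht1 : -0.803 ≤ t + κ) (ht2 : t + κ ≤ -0.677) (hR0 : β * 11.1 ≤ κ) (hR : β * (11.1 * (1 + κ ^ 2)) ≤ κ) :
    ‖HH β (sg κ t) - 1‖ ≤ 0.1 := by
  have hN : β * 24.447 ≤ 1 := bNC hβ h.1 hk2 (by norm_num) (by norm_num) hR (by norm_num)
  have hy1 : -0.524 ≤ sy κ t := syL_ge h 0.56 0.64 0.803 0.524 0.59214 0.59215 0.5194 0.48481 0.55409 hk1 hk2 (by linarith) (by norm_num) (by norm_num) (by norm_num)
    (expm_ge (by norm_num) (by norm_num) (by norm_num) (by norm_num)) (expm_le (by norm_num) (by norm_num) (by norm_num)) (by norm_num)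
    (by norm_num) (by norm_num) (by norm_num) (by norm_num) (by norm_num) (by norm_num)
  have hy2 : sy κ t ≤ -0.401 := syL_le h 0.56 0.64 0.677 0.401 0.66965 0.66966 0.41957 0.47953 hk1 hk2 (by linarith) (by norm_num) (by norm_num) (by norm_num)
    (expm_ge (by norm_num) (by norm_num) (by norm_num) (by norm_num)) (expm_le (by norm_num) (by norm_num) (by norm_num)) (by norm_num)
    (by norm_num) (by norm_num) (by norm_num) (by norm_num) (by norm_num) (by norm_num)
  rcases le_total (sy κ t) (-0.504) with f0 | g0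
  · have hx1 : 0.7646 ≤ sx κ t := sx_lo h 0.56 (-0.504) 0.524 1.65532 0.7646 hk1 (by norm_num) f0 (abs_le.2 ⟨by linarith, by linarith⟩) (by rw [neg_neg]; exact expn_ge (by norm_num) (by norm_num)) (by norm_num) (by norm_num)
    have hx2 : sx κ t ≤ 0.9562 := sx_hi h 0.64 (-0.524) 0.504 1.68877 0.9562 hk2 hy1 (by norm_num) (by rw [abs_of_nonpos (by linarith)]; linarith) (by rw [neg_neg]; exact expn_le (by norm_num) (by norm_num) (by norm_num)) (by norm_num) (by norm_num)
    exact JM1_b4_0 hβ hN hx1 hx2 (by linarith) (by linarith)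
  rcases le_total (sy κ t) (-0.469) with f1 | g1
  · have hx1 : 0.7397 ≤ sx κ t := sx_lo h 0.56 (-0.469) 0.504 1.59839 0.7397 hk1 (by norm_num) f1 (abs_le.2 ⟨by linarith, by linarith⟩) (by rw [neg_neg]; exact expn_ge (by norm_num) (by norm_num)) (by norm_num) (by norm_num)
    have hx2 : sx κ t ≤ 0.95 := sx_hi h 0.64 (-0.504) 0.469 1.65533 0.95 hk2 g0 (by norm_num) (by rw [abs_of_nonpos (by linarith)]; linarith) (by rw [neg_neg]; exact expn_le (by norm_num) (by norm_num) (by norm_num)) (by norm_num) (by norm_num)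
    exact JM1_b4_1 hβ hN hx1 hx2 (by linarith) (by linarith)
  have hx1 : 0.6923 ≤ sx κ t := sx_lo h 0.56 (-0.401) 0.469 1.49331 0.6923 hk1 (by norm_num) hy2 (abs_le.2 ⟨by linarith, by linarith⟩) (by rw [neg_neg]; exact expn_ge (by norm_num) (by norm_num)) (by norm_num) (by norm_num)
  have hx2 : sx κ t ≤ 0.9412 := sx_hi h 0.64 (-0.469) 0.401 1.5984 0.9412 hk2 g1 (by norm_num) (by rw [abs_of_nonpos (by linarith)]; linarith) (by rw [neg_neg]; exact expn_le (by norm_num) (by norm_num) (by norm_num)) (by norm_num) (by norm_num)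
  exact JM1_b4_2 hβ hN hx1 hx2 (by linarith) (by linarith)

private theorem JM1_b5_0 {β x y : ℝ} (hβ : 0 < β) (hN : β * 23.308 ≤ 1) (hx1 : 0.9133 ≤ x) (hx2 : x ≤ 1.1255)
    (hy1 : -0.522 ≤ y) (hy2 : y ≤ -0.497) : ‖HH β (x + y * I) - 1‖ ≤ 0.1 := by
  refine le_epsJ (C := 2.2878) (N0 := 23.308) (J_boxp 0.9133 1.1255 0.522 0 (-0.497) 0.9825 1.2407 1.2328 1.1402 0.443 4.8279 23.308 1.2628 6.769 1.801 0.5053 0.4912 0.2844 0.4969 1.7839 0.5134 1.7645 1.9783 3.1661 0.00001068 0.001324 0.000009346 0.0000003101 0.000006377 0.0000003101 0.0000003101 0.0000003101 2.2878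
    hβ hN hx1 hx2 hy1 hy2 (by norm_num) (by norm_num) (by linarith) (by norm_num) (by norm_num) (by norm_num) (by norm_num) (by norm_num) (by norm_num) (by norm_num) (by norm_num) (by norm_num) (by norm_num) (by norm_num) (by norm_num) (by norm_num) (by norm_num) (by norm_num) (by norm_num) (by norm_num) (by norm_num) (by norm_num) (by norm_num) (by norm_num)
    (cube_sqrt_geJ (s := 0.7609) (by norm_num) (by norm_num) (by norm_num) (by norm_num))
    (cube_sqrt_geJ (s := 0.9194) (by norm_num) (by norm_num) (by norm_num) (by norm_num))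
    (by norm_num) (by norm_num) (by norm_num) (by norm_num) (by norm_num) (by norm_num) (by norm_num) (by norm_num) (by norm_num) (by norm_num) (by norm_num) (by norm_num) (by norm_num) (by norm_num) (by norm_num) (by norm_num) (by norm_num) (by norm_num)
    (exp_neg_leJ (r := 0.448) 11 (by norm_num) (by norm_num) (by norm_num) (by norm_num))
    (exp_neg_leJ (r := 0.628) 6 (by norm_num) (by norm_num) (by norm_num) (by norm_num))
    (exp_neg_leJ (r := 0.581) 11 (by norm_num) (by norm_num) (by norm_num) (by norm_num))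
    (exp_neg_leJ (r := 0.99) 14 (by norm_num) (by norm_num) (by norm_num) (by norm_num))
    (exp_neg_leJ (r := 0.966) 11 (by norm_num) (by norm_num) (by norm_num) (by norm_num))
    (exp_neg_leJ (r := 0.99) 14 (by norm_num) (by norm_num) (by norm_num) (by norm_num))
    (exp_neg_leJ (r := 0.99) 14 (by norm_num) (by norm_num) (by norm_num) (by norm_num))
    (exp_neg_leJ (r := 0.99) 14 (by norm_num) (by norm_num) (by norm_num) (by norm_num))
    (by norm_num)) (by norm_num) hN hβ.le (by norm_num)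

private theorem JM1_b5_1 {β x y : ℝ} (hβ : 0 < β) (hN : β * 23.308 ≤ 1) (hx1 : 0.8685 ≤ x) (hx2 : x ≤ 1.1137)
    (hy1 : -0.497 ≤ y) (hy2 : y ≤ -0.447) : ‖HH β (x + y * I) - 1‖ ≤ 0.1 := by
  refine le_epsJ (C := 2.3257) (N0 := 23.308) (J_boxp 0.8685 1.1137 0.497 0 (-0.447) 0.9687 1.2196 1.2435 1.1697 0.4449 4.8279 23.308 1.2591 6.719 1.797 0.533 0.4843 0.281 0.521 1.8717 0.5053 1.7025 1.9567 3.1338 0.00001253 0.001432 0.000005326 0.0000003101 0.000007689 0.0000003101 0.0000003101 0.0000003101 2.3257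
    hβ hN hx1 hx2 hy1 hy2 (by norm_num) (by norm_num) (by linarith) (by norm_num) (by norm_num) (by norm_num) (by norm_num) (by norm_num) (by norm_num) (by norm_num) (by norm_num) (by norm_num) (by norm_num) (by norm_num) (by norm_num) (by norm_num) (by norm_num) (by norm_num) (by norm_num) (by norm_num) (by norm_num) (by norm_num) (by norm_num) (by norm_num)
    (cube_sqrt_geJ (s := 0.7617) (by norm_num) (by norm_num) (by norm_num) (by norm_num))
    (cube_sqrt_geJ (s := 0.9196) (by norm_num) (by norm_num) (by norm_num) (by norm_num))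
    (by norm_num) (by norm_num) (by norm_num) (by norm_num) (by norm_num) (by norm_num) (by norm_num) (by norm_num) (by norm_num) (by norm_num) (by norm_num) (by norm_num) (by norm_num) (by norm_num) (by norm_num) (by norm_num) (by norm_num) (by norm_num)
    (exp_neg_leJ (r := 0.288) 11 (by norm_num) (by norm_num) (by norm_num) (by norm_num))
    (exp_neg_leJ (r := 0.549) 6 (by norm_num) (by norm_num) (by norm_num) (by norm_num))
    (exp_neg_leJ (r := 0.143) 12 (by norm_num) (by norm_num) (by norm_num) (by norm_num))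
    (exp_neg_leJ (r := 0.99) 14 (by norm_num) (by norm_num) (by norm_num) (by norm_num))
    (exp_neg_leJ (r := 0.777) 11 (by norm_num) (by norm_num) (by norm_num) (by norm_num))
    (exp_neg_leJ (r := 0.99) 14 (by norm_num) (by norm_num) (by norm_num) (by norm_num))
    (exp_neg_leJ (r := 0.99) 14 (by norm_num) (by norm_num) (by norm_num) (by norm_num))
    (exp_neg_leJ (r := 0.99) 14 (by norm_num) (by norm_num) (by norm_num) (by norm_num))
    (by norm_num)) (by norm_num) hN hβ.le (by norm_num)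

private theorem JM1_b5_2 {β x y : ℝ} (hβ : 0 < β) (hN : β * 23.308 ≤ 1) (hx1 : 0.8566 ≤ x) (hx2 : x ≤ 1.0645)
    (hy1 : -0.447 ≤ y) (hy2 : y ≤ -0.412) : ‖HH β (x + y * I) - 1‖ ≤ 0.1 := by
  refine le_epsJ (C := 1.6605) (N0 := 23.308) (J_boxp 0.8566 1.0645 0.447 0 (-0.412) 0.9958 1.1546 1.2162 1.1098 0.44 4.8279 23.308 1.1595 5.53 1.71 0.598 0.4978 0.3054 0.5959 2.0613 0.5268 1.686 2.0688 3.2867 0.000009152 0.0008104 0.0000009313 0.0000003101 0.000004654 0.0000003101 0.0000003101 0.0000003101 1.6605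
    hβ hN hx1 hx2 hy1 hy2 (by norm_num) (by norm_num) (by linarith) (by norm_num) (by norm_num) (by norm_num) (by norm_num) (by norm_num) (by norm_num) (by norm_num) (by norm_num) (by norm_num) (by norm_num) (by norm_num) (by norm_num) (by norm_num) (by norm_num) (by norm_num) (by norm_num) (by norm_num) (by norm_num) (by norm_num) (by norm_num) (by norm_num)
    (cube_sqrt_geJ (s := 0.7832) (by norm_num) (by norm_num) (by norm_num) (by norm_num))
    (cube_sqrt_geJ (s := 0.9262) (by norm_num) (by norm_num) (by norm_num) (by norm_num))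
    (by norm_num) (by norm_num) (by norm_num) (by norm_num) (by norm_num) (by norm_num) (by norm_num) (by norm_num) (by norm_num) (by norm_num) (by norm_num) (by norm_num) (by norm_num) (by norm_num) (by norm_num) (by norm_num) (by norm_num) (by norm_num)
    (exp_neg_leJ (r := 0.602) 11 (by norm_num) (by norm_num) (by norm_num) (by norm_num))
    (exp_neg_leJ (r := 0.118) 7 (by norm_num) (by norm_num) (by norm_num) (by norm_num))
    (exp_neg_leJ (r := 0.889) 13 (by norm_num) (by norm_num) (by norm_num) (by norm_num))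
    (exp_neg_leJ (r := 0.99) 14 (by norm_num) (by norm_num) (by norm_num) (by norm_num))
    (exp_neg_leJ (r := 0.278) 12 (by norm_num) (by norm_num) (by norm_num) (by norm_num))
    (exp_neg_leJ (r := 0.99) 14 (by norm_num) (by norm_num) (by norm_num) (by norm_num))
    (exp_neg_leJ (r := 0.99) 14 (by norm_num) (by norm_num) (by norm_num) (by norm_num))
    (exp_neg_leJ (r := 0.99) 14 (by norm_num) (by norm_num) (by norm_num) (by norm_num))
    (by norm_num)) (by norm_num) hN hβ.le (by norm_num)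

private theorem JM1_c5 {κ t β : ℝ} (h : DomR κ t) (hβ : 0 < β) (hk1 : 0.64 ≤ κ) (hk2 : κ ≤ 0.73)
    (ht1 : -0.803 ≤ t + κ) (ht2 : t + κ ≤ -0.677) (hR0 : β * 11.1 ≤ κ) (hR : β * (11.1 * (1 + κ ^ 2)) ≤ κ) :
    ‖HH β (sg κ t) - 1‖ ≤ 0.1 := by
  have hN : β * 23.308 ≤ 1 := bNC hβ h.1 hk2 (by norm_num) (by norm_num) hR (by norm_num)
  have hy1 : -0.522 ≤ sy κ t := syL_ge h 0.64 0.73 0.803 0.522 0.59333 0.59334 0.474 0.42427 0.48395 hk1 hk2 (by linarith) (by norm_num) (by norm_num) (by norm_num)
    (expm_ge (by norm_num) (by norm_num) (by norm_num) (by norm_num)) (expm_le (by norm_num) (by norm_num) (by norm_num)) (by norm_num)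
    (by norm_num) (by norm_num) (by norm_num) (by norm_num) (by norm_num) (by norm_num)
  have hy2 : sy κ t ≤ -0.412 := syL_le h 0.64 0.73 0.677 0.412 0.66232 0.66233 0.3738 0.42638 hk1 hk2 (by linarith) (by norm_num) (by norm_num) (by norm_num)
    (expm_ge (by norm_num) (by norm_num) (by norm_num) (by norm_num)) (expm_le (by norm_num) (by norm_num) (by norm_num)) (by norm_num)
    (by norm_num) (by norm_num) (by norm_num) (by norm_num) (by norm_num) (by norm_num)
  rcases le_total (sy κ t) (-0.497) with f0 | g0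
  · have hx1 : 0.9133 ≤ sx κ t := sx_lo h 0.64 (-0.497) 0.522 1.64378 0.9133 hk1 (by norm_num) f0 (abs_le.2 ⟨by linarith, by linarith⟩) (by rw [neg_neg]; exact expn_ge (by norm_num) (by norm_num)) (by norm_num) (by norm_num)
    have hx2 : sx κ t ≤ 1.1255 := sx_hi h 0.73 (-0.522) 0.497 1.6854 1.1255 hk2 hy1 (by norm_num) (by rw [abs_of_nonpos (by linarith)]; linarith) (by rw [neg_neg]; exact expn_le (by norm_num) (by norm_num) (by norm_num)) (by norm_num) (by norm_num)
    exact JM1_b5_0 hβ hN hx1 hx2 (by linarith) (by linarith)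
  rcases le_total (sy κ t) (-0.447) with f1 | g1
  · have hx1 : 0.8685 ≤ sx κ t := sx_lo h 0.64 (-0.447) 0.497 1.56361 0.8685 hk1 (by norm_num) f1 (abs_le.2 ⟨by linarith, by linarith⟩) (by rw [neg_neg]; exact expn_ge (by norm_num) (by norm_num)) (by norm_num) (by norm_num)
    have hx2 : sx κ t ≤ 1.1137 := sx_hi h 0.73 (-0.497) 0.447 1.64379 1.1137 hk2 g0 (by norm_num) (by rw [abs_of_nonpos (by linarith)]; linarith) (by rw [neg_neg]; exact expn_le (by norm_num) (by norm_num) (by norm_num)) (by norm_num) (by norm_num)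
    exact JM1_b5_1 hβ hN hx1 hx2 (by linarith) (by linarith)
  have hx1 : 0.8566 ≤ sx κ t := sx_lo h 0.64 (-0.412) 0.447 1.50983 0.8566 hk1 (by norm_num) hy2 (abs_le.2 ⟨by linarith, by linarith⟩) (by rw [neg_neg]; exact expn_ge (by norm_num) (by norm_num)) (by norm_num) (by norm_num)
  have hx2 : sx κ t ≤ 1.0645 := sx_hi h 0.73 (-0.447) 0.412 1.56362 1.0645 hk2 g1 (by norm_num) (by rw [abs_of_nonpos (by linarith)]; linarith) (by rw [neg_neg]; exact expn_le (by norm_num) (by norm_num) (by norm_num)) (by norm_num) (by norm_num)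
  exact JM1_b5_2 hβ hN hx1 hx2 (by linarith) (by linarith)

private theorem JM1_b6_0 {β x y : ℝ} (hβ : 0 < β) (hN : β * 22.493 ≤ 1) (hx1 : 1.0777 ≤ x) (hx2 : x ≤ 1.3292)
    (hy1 : -0.511 ≤ y) (hy2 : y ≤ -0.491) : ‖HH β (x + y * I) - 1‖ ≤ 0.1 := by
  refine le_epsJ (C := 2.193) (N0 := 22.493) (J_boxp 1.0777 1.3292 0.511 0 (-0.491) 1.106 1.4241 1.4234 1.0258 0.476 4.7427 22.493 1.2877 7.12 1.824 0.4371 0.5529 0.3156 0.5705 1.7061 0.5993 1.9921 2.337 2.9963 0.000003974 0.0008268 0.000002679 0.0000003101 0.000001399 0.0000003101 0.0000003101 0.0000003101 2.193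
    hβ hN hx1 hx2 hy1 hy2 (by norm_num) (by norm_num) (by linarith) (by norm_num) (by norm_num) (by norm_num) (by norm_num) (by norm_num) (by norm_num) (by norm_num) (by norm_num) (by norm_num) (by norm_num) (by norm_num) (by norm_num) (by norm_num) (by norm_num) (by norm_num) (by norm_num) (by norm_num) (by norm_num) (by norm_num) (by norm_num) (by norm_num)
    (cube_sqrt_geJ (s := 0.7554) (by norm_num) (by norm_num) (by norm_num) (by norm_num))
    (cube_sqrt_geJ (s := 0.9177) (by norm_num) (by norm_num) (by norm_num) (by norm_num))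
    (by norm_num) (by norm_num) (by norm_num) (by norm_num) (by norm_num) (by norm_num) (by norm_num) (by norm_num) (by norm_num) (by norm_num) (by norm_num) (by norm_num) (by norm_num) (by norm_num) (by norm_num) (by norm_num) (by norm_num) (by norm_num)
    (exp_neg_leJ (r := 0.436) 12 (by norm_num) (by norm_num) (by norm_num) (by norm_num))
    (exp_neg_leJ (r := 0.098) 7 (by norm_num) (by norm_num) (by norm_num) (by norm_num))
    (exp_neg_leJ (r := 0.832) 12 (by norm_num) (by norm_num) (by norm_num) (by norm_num))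
    (exp_neg_leJ (r := 0.99) 14 (by norm_num) (by norm_num) (by norm_num) (by norm_num))
    (exp_neg_leJ (r := 0.48) 13 (by norm_num) (by norm_num) (by norm_num) (by norm_num))
    (exp_neg_leJ (r := 0.99) 14 (by norm_num) (by norm_num) (by norm_num) (by norm_num))
    (exp_neg_leJ (r := 0.99) 14 (by norm_num) (by norm_num) (by norm_num) (by norm_num))
    (exp_neg_leJ (r := 0.99) 14 (by norm_num) (by norm_num) (by norm_num) (by norm_num))
    (by norm_num)) (by norm_num) hN hβ.le (by norm_num)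

private theorem JM1_b6_1 {β x y : ℝ} (hβ : 0 < β) (hN : β * 22.493 ≤ 1) (hx1 : 1.0355 ≤ x) (hx2 : x ≤ 1.3136)
    (hy1 : -0.491 ≤ y) (hy2 : y ≤ -0.451) : ‖HH β (x + y * I) - 1‖ ≤ 0.1 := by
  refine le_epsJ (C := 2.2321) (N0 := 22.493) (J_boxp 1.0355 1.3136 0.491 0 (-0.451) 1.0905 1.4024 1.4238 1.0479 0.4761 4.7427 22.493 1.2861 7.096 1.822 0.4616 0.5452 0.3115 0.5877 1.7796 0.5897 1.9337 2.307 2.9709 0.000004724 0.0009065 0.000001816 0.0000003101 0.000001736 0.0000003101 0.0000003101 0.0000003101 2.2321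
    hβ hN hx1 hx2 hy1 hy2 (by norm_num) (by norm_num) (by linarith) (by norm_num) (by norm_num) (by norm_num) (by norm_num) (by norm_num) (by norm_num) (by norm_num) (by norm_num) (by norm_num) (by norm_num) (by norm_num) (by norm_num) (by norm_num) (by norm_num) (by norm_num) (by norm_num) (by norm_num) (by norm_num) (by norm_num) (by norm_num) (by norm_num)
    (cube_sqrt_geJ (s := 0.7558) (by norm_num) (by norm_num) (by norm_num) (by norm_num))
    (cube_sqrt_geJ (s := 0.9178) (by norm_num) (by norm_num) (by norm_num) (by norm_num))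
    (by norm_num) (by norm_num) (by norm_num) (by norm_num) (by norm_num) (by norm_num) (by norm_num) (by norm_num) (by norm_num) (by norm_num) (by norm_num) (by norm_num) (by norm_num) (by norm_num) (by norm_num) (by norm_num) (by norm_num) (by norm_num)
    (exp_neg_leJ (r := 0.263) 12 (by norm_num) (by norm_num) (by norm_num) (by norm_num))
    (exp_neg_leJ (r := 0.006) 7 (by norm_num) (by norm_num) (by norm_num) (by norm_num))
    (exp_neg_leJ (r := 0.219) 13 (by norm_num) (by norm_num) (by norm_num) (by norm_num))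
    (exp_neg_leJ (r := 0.99) 14 (by norm_num) (by norm_num) (by norm_num) (by norm_num))
    (exp_neg_leJ (r := 0.264) 13 (by norm_num) (by norm_num) (by norm_num) (by norm_num))
    (exp_neg_leJ (r := 0.99) 14 (by norm_num) (by norm_num) (by norm_num) (by norm_num))
    (exp_neg_leJ (r := 0.99) 14 (by norm_num) (by norm_num) (by norm_num) (by norm_num))
    (exp_neg_leJ (r := 0.99) 14 (by norm_num) (by norm_num) (by norm_num) (by norm_num))
    (by norm_num)) (by norm_num) hN hβ.le (by norm_num)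

private theorem JM1_b6_2 {β x y : ℝ} (hβ : 0 < β) (hN : β * 22.493 ≤ 1) (hx1 : 0.9924 ≤ x) (hx2 : x ≤ 1.2728)
    (hy1 : -0.451 ≤ y) (hy2 : y ≤ -0.401) : ‖HH β (x + y * I) - 1‖ ≤ 0.1 := by
  refine le_epsJ (C := 1.9545) (N0 := 22.493) (J_boxp 0.9924 1.2728 0.451 0 (-0.401) 1.0886 1.3504 1.4068 1.0443 0.4732 4.7427 22.493 1.2405 6.473 1.781 0.5142 0.5442 0.3192 0.6361 1.9317 0.5906 1.874 2.3295 3.0261 0.000004834 0.0007625 0.0000006118 0.0000003101 0.000001702 0.0000003101 0.0000003101 0.0000003101 1.9545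
    hβ hN hx1 hx2 hy1 hy2 (by norm_num) (by norm_num) (by linarith) (by norm_num) (by norm_num) (by norm_num) (by norm_num) (by norm_num) (by norm_num) (by norm_num) (by norm_num) (by norm_num) (by norm_num) (by norm_num) (by norm_num) (by norm_num) (by norm_num) (by norm_num) (by norm_num) (by norm_num) (by norm_num) (by norm_num) (by norm_num) (by norm_num)
    (cube_sqrt_geJ (s := 0.7658) (by norm_num) (by norm_num) (by norm_num) (by norm_num))
    (cube_sqrt_geJ (s := 0.9209) (by norm_num) (by norm_num) (by norm_num) (by norm_num))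
    (by norm_num) (by norm_num) (by norm_num) (by norm_num) (by norm_num) (by norm_num) (by norm_num) (by norm_num) (by norm_num) (by norm_num) (by norm_num) (by norm_num) (by norm_num) (by norm_num) (by norm_num) (by norm_num) (by norm_num) (by norm_num)
    (exp_neg_leJ (r := 0.24) 12 (by norm_num) (by norm_num) (by norm_num) (by norm_num))
    (exp_neg_leJ (r := 0.179) 7 (by norm_num) (by norm_num) (by norm_num) (by norm_num))
    (exp_neg_leJ (r := 0.307) 14 (by norm_num) (by norm_num) (by norm_num) (by norm_num))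
    (exp_neg_leJ (r := 0.99) 14 (by norm_num) (by norm_num) (by norm_num) (by norm_num))
    (exp_neg_leJ (r := 0.284) 13 (by norm_num) (by norm_num) (by norm_num) (by norm_num))
    (exp_neg_leJ (r := 0.99) 14 (by norm_num) (by norm_num) (by norm_num) (by norm_num))
    (exp_neg_leJ (r := 0.99) 14 (by norm_num) (by norm_num) (by norm_num) (by norm_num))
    (exp_neg_leJ (r := 0.99) 14 (by norm_num) (by norm_num) (by norm_num) (by norm_num))
    (by norm_num)) (by norm_num) hN hβ.le (by norm_num)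

private theorem JM1_c6 {κ t β : ℝ} (h : DomR κ t) (hβ : 0 < β) (hk1 : 0.73 ≤ κ) (hk2 : κ ≤ 0.85)
    (ht1 : -0.803 ≤ t + κ) (ht2 : t + κ ≤ -0.677) (hR0 : β * 11.1 ≤ κ) (hR : β * (11.1 * (1 + κ ^ 2)) ≤ κ) :
    ‖HH β (sg κ t) - 1‖ ≤ 0.1 := by
  have hN : β * 22.493 ≤ 1 := bNC hβ h.1 hk2 (by norm_num) (by norm_num) hR (by norm_num)
  have hy1 : -0.511 ≤ sy κ t := syL_ge h 0.73 0.85 0.803 0.511 0.59989 0.5999 0.3952 0.36063 0.41994 hk1 hk2 (by linarith) (by norm_num) (by norm_num) (by norm_num)
    (expm_ge (by norm_num) (by norm_num) (by norm_num) (by norm_num)) (expm_le (by norm_num) (by norm_num) (by norm_num)) (by norm_num)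
    (by norm_num) (by norm_num) (by norm_num) (by norm_num) (by norm_num) (by norm_num)
  have hy2 : sy κ t ≤ -0.401 := syL_le h 0.73 0.85 0.677 0.401 0.66965 0.66966 0.31591 0.36786 hk1 hk2 (by linarith) (by norm_num) (by norm_num) (by norm_num)
    (expm_ge (by norm_num) (by norm_num) (by norm_num) (by norm_num)) (expm_le (by norm_num) (by norm_num) (by norm_num)) (by norm_num)
    (by norm_num) (by norm_num) (by norm_num) (by norm_num) (by norm_num) (by norm_num)
  rcases le_total (sy κ t) (-0.491) with f0 | g0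
  · have hx1 : 1.0777 ≤ sx κ t := sx_lo h 0.73 (-0.491) 0.511 1.63394 1.0777 hk1 (by norm_num) f0 (abs_le.2 ⟨by linarith, by linarith⟩) (by rw [neg_neg]; exact expn_ge (by norm_num) (by norm_num)) (by norm_num) (by norm_num)
    have hx2 : sx κ t ≤ 1.3292 := sx_hi h 0.85 (-0.511) 0.491 1.66696 1.3292 hk2 hy1 (by norm_num) (by rw [abs_of_nonpos (by linarith)]; linarith) (by rw [neg_neg]; exact expn_le (by norm_num) (by norm_num) (by norm_num)) (by norm_num) (by norm_num)
    exact JM1_b6_0 hβ hN hx1 hx2 (by linarith) (by linarith)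
  rcases le_total (sy κ t) (-0.451) with f1 | g1
  · have hx1 : 1.0355 ≤ sx κ t := sx_lo h 0.73 (-0.451) 0.491 1.56988 1.0355 hk1 (by norm_num) f1 (abs_le.2 ⟨by linarith, by linarith⟩) (by rw [neg_neg]; exact expn_ge (by norm_num) (by norm_num)) (by norm_num) (by norm_num)
    have hx2 : sx κ t ≤ 1.3136 := sx_hi h 0.85 (-0.491) 0.451 1.63395 1.3136 hk2 g0 (by norm_num) (by rw [abs_of_nonpos (by linarith)]; linarith) (by rw [neg_neg]; exact expn_le (by norm_num) (by norm_num) (by norm_num)) (by norm_num) (by norm_num)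
    exact JM1_b6_1 hβ hN hx1 hx2 (by linarith) (by linarith)
  have hx1 : 0.9924 ≤ sx κ t := sx_lo h 0.73 (-0.401) 0.451 1.49331 0.9924 hk1 (by norm_num) hy2 (abs_le.2 ⟨by linarith, by linarith⟩) (by rw [neg_neg]; exact expn_ge (by norm_num) (by norm_num)) (by norm_num) (by norm_num)
  have hx2 : sx κ t ≤ 1.2728 := sx_hi h 0.85 (-0.451) 0.401 1.56989 1.2728 hk2 g1 (by norm_num) (by rw [abs_of_nonpos (by linarith)]; linarith) (by rw [neg_neg]; exact expn_le (by norm_num) (by norm_num) (by norm_num)) (by norm_num) (by norm_num)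
  exact JM1_b6_2 hβ hN hx1 hx2 (by linarith) (by linarith)

private theorem JM1_b7_0 {β x y : ℝ} (hβ : 0 < β) (hN : β * 22.199 ≤ 1) (hx1 : 1.2448 ≤ x) (hx2 : x ≤ 1.5649)
    (hy1 : -0.488 ≤ y) (hy2 : y ≤ -0.453) : ‖HH β (x + y * I) - 1‖ ≤ 0.1 := by
  refine le_epsJ (C := 2.1858) (N0 := 22.199) (J_boxp 1.2448 1.5649 0.488 0 (-0.453) 1.24 1.6393 1.6578 0.9325 0.5137 4.7116 22.199 1.3221 7.644 1.856 0.3677 0.6199 0.3467 0.664 1.6476 0.693 2.2235 2.7337 2.7455 0.000001058 0.000455 0.0000003972 0.0000003101 0.0000003101 0.0000003101 0.0000003101 0.0000003101 2.1858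
    hβ hN hx1 hx2 hy1 hy2 (by norm_num) (by norm_num) (by linarith) (by norm_num) (by norm_num) (by norm_num) (by norm_num) (by norm_num) (by norm_num) (by norm_num) (by norm_num) (by norm_num) (by norm_num) (by norm_num) (by norm_num) (by norm_num) (by norm_num) (by norm_num) (by norm_num) (by norm_num) (by norm_num) (by norm_num) (by norm_num) (by norm_num)
    (cube_sqrt_geJ (s := 0.7478) (by norm_num) (by norm_num) (by norm_num) (by norm_num))
    (cube_sqrt_geJ (s := 0.9154) (by norm_num) (by norm_num) (by norm_num) (by norm_num))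
    (by norm_num) (by norm_num) (by norm_num) (by norm_num) (by norm_num) (by norm_num) (by norm_num) (by norm_num) (by norm_num) (by norm_num) (by norm_num) (by norm_num) (by norm_num) (by norm_num) (by norm_num) (by norm_num) (by norm_num) (by norm_num)
    (exp_neg_leJ (r := 0.761) 13 (by norm_num) (by norm_num) (by norm_num) (by norm_num))
    (exp_neg_leJ (r := 0.696) 7 (by norm_num) (by norm_num) (by norm_num) (by norm_num))
    (exp_neg_leJ (r := 0.74) 14 (by norm_num) (by norm_num) (by norm_num) (by norm_num))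
    (exp_neg_leJ (r := 0.99) 14 (by norm_num) (by norm_num) (by norm_num) (by norm_num))
    (exp_neg_leJ (r := 0.99) 14 (by norm_num) (by norm_num) (by norm_num) (by norm_num))
    (exp_neg_leJ (r := 0.99) 14 (by norm_num) (by norm_num) (by norm_num) (by norm_num))
    (exp_neg_leJ (r := 0.99) 14 (by norm_num) (by norm_num) (by norm_num) (by norm_num))
    (exp_neg_leJ (r := 0.99) 14 (by norm_num) (by norm_num) (by norm_num) (by norm_num))
    (by norm_num)) (by norm_num) hN hβ.le (by norm_num)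

private theorem JM1_b7_1 {β x y : ℝ} (hβ : 0 < β) (hN : β * 22.199 ≤ 1) (hx1 : 1.1681 ≤ x) (hx2 : x ≤ 1.5245)
    (hy1 : -0.453 ≤ y) (hy2 : y ≤ -0.388) : ‖HH β (x + y * I) - 1‖ ≤ 0.1 := by
  refine le_epsJ (C := 2.2027) (N0 := 22.199) (J_boxp 1.1681 1.5245 0.453 0 (-0.388) 1.2109 1.5904 1.6428 0.962 0.5114 4.7116 22.199 1.3135 7.508 1.848 0.4156 0.6054 0.3403 0.693 1.7831 0.6749 2.1173 2.6755 2.7251 0.000001458 0.0005242 0.0000003101 0.0000003101 0.0000003126 0.0000003101 0.0000003101 0.0000003101 2.2027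
    hβ hN hx1 hx2 hy1 hy2 (by norm_num) (by norm_num) (by linarith) (by norm_num) (by norm_num) (by norm_num) (by norm_num) (by norm_num) (by norm_num) (by norm_num) (by norm_num) (by norm_num) (by norm_num) (by norm_num) (by norm_num) (by norm_num) (by norm_num) (by norm_num) (by norm_num) (by norm_num) (by norm_num) (by norm_num) (by norm_num) (by norm_num)
    (cube_sqrt_geJ (s := 0.7497) (by norm_num) (by norm_num) (by norm_num) (by norm_num))
    (cube_sqrt_geJ (s := 0.916) (by norm_num) (by norm_num) (by norm_num) (by norm_num))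
    (by norm_num) (by norm_num) (by norm_num) (by norm_num) (by norm_num) (by norm_num) (by norm_num) (by norm_num) (by norm_num) (by norm_num) (by norm_num) (by norm_num) (by norm_num) (by norm_num) (by norm_num) (by norm_num) (by norm_num) (by norm_num)
    (exp_neg_leJ (r := 0.439) 13 (by norm_num) (by norm_num) (by norm_num) (by norm_num))
    (exp_neg_leJ (r := 0.554) 7 (by norm_num) (by norm_num) (by norm_num) (by norm_num))
    (exp_neg_leJ (r := 0.99) 14 (by norm_num) (by norm_num) (by norm_num) (by norm_num))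
    (exp_neg_leJ (r := 0.99) 14 (by norm_num) (by norm_num) (by norm_num) (by norm_num))
    (exp_neg_leJ (r := 0.982) 14 (by norm_num) (by norm_num) (by norm_num) (by norm_num))
    (exp_neg_leJ (r := 0.99) 14 (by norm_num) (by norm_num) (by norm_num) (by norm_num))
    (exp_neg_leJ (r := 0.99) 14 (by norm_num) (by norm_num) (by norm_num) (by norm_num))
    (exp_neg_leJ (r := 0.99) 14 (by norm_num) (by norm_num) (by norm_num) (by norm_num))
    (by norm_num)) (by norm_num) hN hβ.le (by norm_num)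

private theorem JM1_b7_2 {β x y : ℝ} (hβ : 0 < β) (hN : β * 22.199 ≤ 1) (hx1 : 1.1821 ≤ x) (hx2 : x ≤ 1.424)
    (hy1 : -0.388 ≤ y) (hy2 : y ≤ -0.381) : ‖HH β (x + y * I) - 1‖ ≤ 0.1 := by
  refine le_epsJ (C := 1.3119) (N0 := 22.199) (J_boxp 1.1821 1.424 0.388 0 (-0.381) 1.2669 1.476 1.5528 0.8739 0.4972 4.7116 22.199 1.1651 5.589 1.714 0.5142 0.6334 0.3874 0.8004 2.049 0.7172 2.1367 2.8801 3.064 0.0000007832 0.0001844 0.0000003101 0.0000003101 0.0000003101 0.0000003101 0.0000003101 0.0000003101 1.3119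
    hβ hN hx1 hx2 hy1 hy2 (by norm_num) (by norm_num) (by linarith) (by norm_num) (by norm_num) (by norm_num) (by norm_num) (by norm_num) (by norm_num) (by norm_num) (by norm_num) (by norm_num) (by norm_num) (by norm_num) (by norm_num) (by norm_num) (by norm_num) (by norm_num) (by norm_num) (by norm_num) (by norm_num) (by norm_num) (by norm_num) (by norm_num)
    (cube_sqrt_geJ (s := 0.782) (by norm_num) (by norm_num) (by norm_num) (by norm_num))
    (cube_sqrt_geJ (s := 0.9259) (by norm_num) (by norm_num) (by norm_num) (by norm_num))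
    (by norm_num) (by norm_num) (by norm_num) (by norm_num) (by norm_num) (by norm_num) (by norm_num) (by norm_num) (by norm_num) (by norm_num) (by norm_num) (by norm_num) (by norm_num) (by norm_num) (by norm_num) (by norm_num) (by norm_num) (by norm_num)
    (exp_neg_leJ (r := 0.06) 14 (by norm_num) (by norm_num) (by norm_num) (by norm_num))
    (exp_neg_leJ (r := 0.599) 8 (by norm_num) (by norm_num) (by norm_num) (by norm_num))
    (exp_neg_leJ (r := 0.99) 14 (by norm_num) (by norm_num) (by norm_num) (by norm_num))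
    (exp_neg_leJ (r := 0.99) 14 (by norm_num) (by norm_num) (by norm_num) (by norm_num))
    (exp_neg_leJ (r := 0.99) 14 (by norm_num) (by norm_num) (by norm_num) (by norm_num))
    (exp_neg_leJ (r := 0.99) 14 (by norm_num) (by norm_num) (by norm_num) (by norm_num))
    (exp_neg_leJ (r := 0.99) 14 (by norm_num) (by norm_num) (by norm_num) (by norm_num))
    (exp_neg_leJ (r := 0.99) 14 (by norm_num) (by norm_num) (by norm_num) (by norm_num))
    (by norm_num)) (by norm_num) hN hβ.le (by norm_num)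

private theorem JM1_c7 {κ t β : ℝ} (h : DomR κ t) (hβ : 0 < β) (hk1 : 0.85 ≤ κ) (hk2 : κ ≤ 1)
    (ht1 : -0.803 ≤ t + κ) (ht2 : t + κ ≤ -0.677) (hR0 : β * 11.1 ≤ κ) (hR : β * (11.1 * (1 + κ ^ 2)) ≤ κ) :
    ‖HH β (sg κ t) - 1‖ ≤ 0.1 := by
  have hN : β * 22.199 ≤ 1 := bNC hβ h.1 hk2 (by norm_num) (by norm_num) hR (by norm_num)
  have hy1 : -0.488 ≤ sy κ t := syL_ge h 0.85 1 0.803 0.488 0.61385 0.61386 0.3303 0.29955 0.35243 hk1 hk2 (by linarith) (by norm_num) (by norm_num) (by norm_num)
    (expm_ge (by norm_num) (by norm_num) (by norm_num) (by norm_num)) (expm_le (by norm_num) (by norm_num) (by norm_num)) (by norm_num)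
    (by norm_num) (by norm_num) (by norm_num) (by norm_num) (by norm_num) (by norm_num)
  have hy2 : sy κ t ≤ -0.381 := syL_le h 0.85 1 0.677 0.381 0.68317 0.68318 0.26028 0.30623 hk1 hk2 (by linarith) (by norm_num) (by norm_num) (by norm_num)
    (expm_ge (by norm_num) (by norm_num) (by norm_num) (by norm_num)) (expm_le (by norm_num) (by norm_num) (by norm_num)) (by norm_num)
    (by norm_num) (by norm_num) (by norm_num) (by norm_num) (by norm_num) (by norm_num)
  rcases le_total (sy κ t) (-0.453) with f0 | g0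
  · have hx1 : 1.2448 ≤ sx κ t := sx_lo h 0.85 (-0.453) 0.488 1.57302 1.2448 hk1 (by norm_num) f0 (abs_le.2 ⟨by linarith, by linarith⟩) (by rw [neg_neg]; exact expn_ge (by norm_num) (by norm_num)) (by norm_num) (by norm_num)
    have hx2 : sx κ t ≤ 1.5649 := sx_hi h 1 (-0.488) 0.453 1.62906 1.5649 hk2 hy1 (by norm_num) (by rw [abs_of_nonpos (by linarith)]; linarith) (by rw [neg_neg]; exact expn_le (by norm_num) (by norm_num) (by norm_num)) (by norm_num) (by norm_num)
    exact JM1_b7_0 hβ hN hx1 hx2 (by linarith) (by linarith)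
  rcases le_total (sy κ t) (-0.388) with f1 | g1
  · have hx1 : 1.1681 ≤ sx κ t := sx_lo h 0.85 (-0.388) 0.453 1.47402 1.1681 hk1 (by norm_num) f1 (abs_le.2 ⟨by linarith, by linarith⟩) (by rw [neg_neg]; exact expn_ge (by norm_num) (by norm_num)) (by norm_num) (by norm_num)
    have hx2 : sx κ t ≤ 1.5245 := sx_hi h 1 (-0.453) 0.388 1.57303 1.5245 hk2 g0 (by norm_num) (by rw [abs_of_nonpos (by linarith)]; linarith) (by rw [neg_neg]; exact expn_le (by norm_num) (by norm_num) (by norm_num)) (by norm_num) (by norm_num)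
    exact JM1_b7_1 hβ hN hx1 hx2 (by linarith) (by linarith)
  have hx1 : 1.1821 ≤ sx κ t := sx_lo h 0.85 (-0.381) 0.388 1.46374 1.1821 hk1 (by norm_num) hy2 (abs_le.2 ⟨by linarith, by linarith⟩) (by rw [neg_neg]; exact expn_ge (by norm_num) (by norm_num)) (by norm_num) (by norm_num)
  have hx2 : sx κ t ≤ 1.424 := sx_hi h 1 (-0.388) 0.381 1.47403 1.424 hk2 g1 (by norm_num) (by rw [abs_of_nonpos (by linarith)]; linarith) (by rw [neg_neg]; exact expn_le (by norm_num) (by norm_num) (by norm_num)) (by norm_num) (by norm_num)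
  exact JM1_b7_2 hβ hN hx1 hx2 (by linarith) (by linarith)

private theorem JM1_b8_0 {β x y : ℝ} (hβ : 0 < β) (hN : β * 22.199 ≤ 1) (hx1 : 1.479 ≤ x) (hx2 : x ≤ 1.8928)
    (hy1 : -0.457 ≤ y) (hy2 : y ≤ -0.437) : ‖HH β (x + y * I) - 1‖ ≤ 0.1 := by
  refine le_epsJ (C := 2.1738) (N0 := 22.199) (J_boxp 1.479 1.8928 0.457 0 (-0.437) 1.4269 1.9472 1.9748 0.8245 0.5607 4.7116 22.199 1.3647 8.363 1.897 0.2702 0.7134 0.3889 0.7932 1.5607 0.8237 2.5478 3.2864 2.377 0.0000003101 0.0001783 0.0000003101 0.0000003101 0.0000003101 0.0000003101 0.0000003101 0.0000003101 2.1738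
    hβ hN hx1 hx2 hy1 hy2 (by norm_num) (by norm_num) (by linarith) (by norm_num) (by norm_num) (by norm_num) (by norm_num) (by norm_num) (by norm_num) (by norm_num) (by norm_num) (by norm_num) (by norm_num) (by norm_num) (by norm_num) (by norm_num) (by norm_num) (by norm_num) (by norm_num) (by norm_num) (by norm_num) (by norm_num) (by norm_num) (by norm_num)
    (cube_sqrt_geJ (s := 0.7383) (by norm_num) (by norm_num) (by norm_num) (by norm_num))
    (cube_sqrt_geJ (s := 0.9126) (by norm_num) (by norm_num) (by norm_num) (by norm_num))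
    (by norm_num) (by norm_num) (by norm_num) (by norm_num) (by norm_num) (by norm_num) (by norm_num) (by norm_num) (by norm_num) (by norm_num) (by norm_num) (by norm_num) (by norm_num) (by norm_num) (by norm_num) (by norm_num) (by norm_num) (by norm_num)
    (exp_neg_leJ (r := 0.99) 14 (by norm_num) (by norm_num) (by norm_num) (by norm_num))
    (exp_neg_leJ (r := 0.633) 8 (by norm_num) (by norm_num) (by norm_num) (by norm_num))
    (exp_neg_leJ (r := 0.99) 14 (by norm_num) (by norm_num) (by norm_num) (by norm_num))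
    (exp_neg_leJ (r := 0.99) 14 (by norm_num) (by norm_num) (by norm_num) (by norm_num))
    (exp_neg_leJ (r := 0.99) 14 (by norm_num) (by norm_num) (by norm_num) (by norm_num))
    (exp_neg_leJ (r := 0.99) 14 (by norm_num) (by norm_num) (by norm_num) (by norm_num))
    (exp_neg_leJ (r := 0.99) 14 (by norm_num) (by norm_num) (by norm_num) (by norm_num))
    (exp_neg_leJ (r := 0.99) 14 (by norm_num) (by norm_num) (by norm_num) (by norm_num))
    (by norm_num)) (by norm_num) hN hβ.le (by norm_num)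

private theorem JM1_b8_1 {β x y : ℝ} (hβ : 0 < β) (hN : β * 22.199 ≤ 1) (hx1 : 1.4295 ≤ x) (hx2 : x ≤ 1.8612)
    (hy1 : -0.437 ≤ y) (hy2 : y ≤ -0.402) : ‖HH β (x + y * I) - 1‖ ≤ 0.1 := by
  refine le_epsJ (C := 2.1793) (N0 := 22.199) (J_boxp 1.4295 1.8612 0.437 0 (-0.402) 1.4063 1.9119 1.955 0.8385 0.5579 4.7116 22.199 1.3596 8.273 1.892 0.3008 0.7031 0.3844 0.8078 1.6427 0.8106 2.4793 3.2418 2.3739 0.0000003101 0.000197 0.0000003101 0.0000003101 0.0000003101 0.0000003101 0.0000003101 0.0000003101 2.1793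
    hβ hN hx1 hx2 hy1 hy2 (by norm_num) (by norm_num) (by linarith) (by norm_num) (by norm_num) (by norm_num) (by norm_num) (by norm_num) (by norm_num) (by norm_num) (by norm_num) (by norm_num) (by norm_num) (by norm_num) (by norm_num) (by norm_num) (by norm_num) (by norm_num) (by norm_num) (by norm_num) (by norm_num) (by norm_num) (by norm_num) (by norm_num)
    (cube_sqrt_geJ (s := 0.7394) (by norm_num) (by norm_num) (by norm_num) (by norm_num))
    (cube_sqrt_geJ (s := 0.9129) (by norm_num) (by norm_num) (by norm_num) (by norm_num))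
    (by norm_num) (by norm_num) (by norm_num) (by norm_num) (by norm_num) (by norm_num) (by norm_num) (by norm_num) (by norm_num) (by norm_num) (by norm_num) (by norm_num) (by norm_num) (by norm_num) (by norm_num) (by norm_num) (by norm_num) (by norm_num)
    (exp_neg_leJ (r := 0.99) 14 (by norm_num) (by norm_num) (by norm_num) (by norm_num))
    (exp_neg_leJ (r := 0.533) 8 (by norm_num) (by norm_num) (by norm_num) (by norm_num))
    (exp_neg_leJ (r := 0.99) 14 (by norm_num) (by norm_num) (by norm_num) (by norm_num))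
    (exp_neg_leJ (r := 0.99) 14 (by norm_num) (by norm_num) (by norm_num) (by norm_num))
    (exp_neg_leJ (r := 0.99) 14 (by norm_num) (by norm_num) (by norm_num) (by norm_num))
    (exp_neg_leJ (r := 0.99) 14 (by norm_num) (by norm_num) (by norm_num) (by norm_num))
    (exp_neg_leJ (r := 0.99) 14 (by norm_num) (by norm_num) (by norm_num) (by norm_num))
    (exp_neg_leJ (r := 0.99) 14 (by norm_num) (by norm_num) (by norm_num) (by norm_num))
    (by norm_num)) (by norm_num) hN hβ.le (by norm_num)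

private theorem JM1_b8_2 {β x y : ℝ} (hβ : 0 < β) (hN : β * 22.199 ≤ 1) (hx1 : 1.3564 ≤ x) (hx2 : x ≤ 1.8056)
    (hy1 : -0.402 ≤ y) (hy2 : y ≤ -0.347) : ‖HH β (x + y * I) - 1‖ ≤ 0.1 := by
  refine le_epsJ (C := 2.1064) (N0 := 22.199) (J_boxp 1.3564 1.8056 0.402 0 (-0.347) 1.3797 1.8499 1.9201 0.8551 0.5529 4.7116 22.199 1.3408 7.95 1.874 0.3545 0.6898 0.3815 0.838 1.7865 0.7942 2.378 3.1907 2.3963 0.0000003101 0.0002102 0.0000003101 0.0000003101 0.0000003101 0.0000003101 0.0000003101 0.0000003101 2.1064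
    hβ hN hx1 hx2 hy1 hy2 (by norm_num) (by norm_num) (by linarith) (by norm_num) (by norm_num) (by norm_num) (by norm_num) (by norm_num) (by norm_num) (by norm_num) (by norm_num) (by norm_num) (by norm_num) (by norm_num) (by norm_num) (by norm_num) (by norm_num) (by norm_num) (by norm_num) (by norm_num) (by norm_num) (by norm_num) (by norm_num) (by norm_num)
    (cube_sqrt_geJ (s := 0.7436) (by norm_num) (by norm_num) (by norm_num) (by norm_num))
    (cube_sqrt_geJ (s := 0.9142) (by norm_num) (by norm_num) (by norm_num) (by norm_num))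
    (by norm_num) (by norm_num) (by norm_num) (by norm_num) (by norm_num) (by norm_num) (by norm_num) (by norm_num) (by norm_num) (by norm_num) (by norm_num) (by norm_num) (by norm_num) (by norm_num) (by norm_num) (by norm_num) (by norm_num) (by norm_num)
    (exp_neg_leJ (r := 0.99) 14 (by norm_num) (by norm_num) (by norm_num) (by norm_num))
    (exp_neg_leJ (r := 0.468) 8 (by norm_num) (by norm_num) (by norm_num) (by norm_num))
    (exp_neg_leJ (r := 0.99) 14 (by norm_num) (by norm_num) (by norm_num) (by norm_num))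
    (exp_neg_leJ (r := 0.99) 14 (by norm_num) (by norm_num) (by norm_num) (by norm_num))
    (exp_neg_leJ (r := 0.99) 14 (by norm_num) (by norm_num) (by norm_num) (by norm_num))
    (exp_neg_leJ (r := 0.99) 14 (by norm_num) (by norm_num) (by norm_num) (by norm_num))
    (exp_neg_leJ (r := 0.99) 14 (by norm_num) (by norm_num) (by norm_num) (by norm_num))
    (exp_neg_leJ (r := 0.99) 14 (by norm_num) (by norm_num) (by norm_num) (by norm_num))
    (by norm_num)) (by norm_num) hN hβ.le (by norm_num)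

private theorem JM1_c8 {κ t β : ℝ} (h : DomR κ t) (hβ : 0 < β) (hk1 : 1 ≤ κ) (hk2 : κ ≤ 1.23)
    (ht1 : -0.803 ≤ t + κ) (ht2 : t + κ ≤ -0.677) (hR0 : β * 11.1 ≤ κ) (hR : β * (11.1 * (1 + κ ^ 2)) ≤ κ) :
    ‖HH β (sg κ t) - 1‖ ≤ 0.1 := by
  have hN : β * 22.199 ≤ 1 := bNC' hβ hk1 (by norm_num) (by norm_num) hR (by norm_num)
  have hy1 : -0.457 ≤ sy κ t := syL_ge h 1 1.23 0.803 0.457 0.63318 0.63319 0.2713 0.23525 0.28937 hk1 hk2 (by linarith) (by norm_num) (by norm_num) (by norm_num)
    (expm_ge (by norm_num) (by norm_num) (by norm_num) (by norm_num)) (expm_le (by norm_num) (by norm_num) (by norm_num)) (by norm_num)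
    (by norm_num) (by norm_num) (by norm_num) (by norm_num) (by norm_num) (by norm_num)
  have hy2 : sy κ t ≤ -0.347 := syL_le h 1 1.23 0.677 0.347 0.7068 0.70681 0.19939 0.24527 hk1 hk2 (by linarith) (by norm_num) (by norm_num) (by norm_num)
    (expm_ge (by norm_num) (by norm_num) (by norm_num) (by norm_num)) (expm_le (by norm_num) (by norm_num) (by norm_num)) (by norm_num)
    (by norm_num) (by norm_num) (by norm_num) (by norm_num) (by norm_num) (by norm_num)
  rcases le_total (sy κ t) (-0.437) with f0 | g0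
  · have hx1 : 1.479 ≤ sx κ t := sx_lo h 1 (-0.437) 0.457 1.54805 1.479 hk1 (by norm_num) f0 (abs_le.2 ⟨by linarith, by linarith⟩) (by rw [neg_neg]; exact expn_ge (by norm_num) (by norm_num)) (by norm_num) (by norm_num)
    have hx2 : sx κ t ≤ 1.8928 := sx_hi h 1.23 (-0.457) 0.437 1.57933 1.8928 hk2 hy1 (by norm_num) (by rw [abs_of_nonpos (by linarith)]; linarith) (by rw [neg_neg]; exact expn_le (by norm_num) (by norm_num) (by norm_num)) (by norm_num) (by norm_num)
    exact JM1_b8_0 hβ hN hx1 hx2 (by linarith) (by linarith)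
  rcases le_total (sy κ t) (-0.402) with f1 | g1
  · have hx1 : 1.4295 ≤ sx κ t := sx_lo h 1 (-0.402) 0.437 1.49481 1.4295 hk1 (by norm_num) f1 (abs_le.2 ⟨by linarith, by linarith⟩) (by rw [neg_neg]; exact expn_ge (by norm_num) (by norm_num)) (by norm_num) (by norm_num)
    have hx2 : sx κ t ≤ 1.8612 := sx_hi h 1.23 (-0.437) 0.402 1.54806 1.8612 hk2 g0 (by norm_num) (by rw [abs_of_nonpos (by linarith)]; linarith) (by rw [neg_neg]; exact expn_le (by norm_num) (by norm_num) (by norm_num)) (by norm_num) (by norm_num)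
    exact JM1_b8_1 hβ hN hx1 hx2 (by linarith) (by linarith)
  have hx1 : 1.3564 ≤ sx κ t := sx_lo h 1 (-0.347) 0.402 1.41481 1.3564 hk1 (by norm_num) hy2 (abs_le.2 ⟨by linarith, by linarith⟩) (by rw [neg_neg]; exact expn_ge (by norm_num) (by norm_num)) (by norm_num) (by norm_num)
  have hx2 : sx κ t ≤ 1.8056 := sx_hi h 1.23 (-0.402) 0.347 1.49482 1.8056 hk2 g1 (by norm_num) (by rw [abs_of_nonpos (by linarith)]; linarith) (by rw [neg_neg]; exact expn_le (by norm_num) (by norm_num) (by norm_num)) (by norm_num) (by norm_num)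
  exact JM1_b8_2 hβ hN hx1 hx2 (by linarith) (by linarith)

private theorem JM1_b9_0 {β x y : ℝ} (hβ : 0 < β) (hN : β * 22.677 ≤ 1) (hx1 : 1.6517 ≤ x) (hx2 : x ≤ 2.0734)
    (hy1 : -0.412 ≤ y) (hy2 : y ≤ -0.325) : ‖HH β (x + y * I) - 1‖ ≤ 0.1 := by
  refine le_epsJ (C := 1.8087) (N0 := 22.677) (J_boxp 1.6517 2.0734 0.412 0 (-0.325) 1.5805 2.114 2.1806 0.7432 0.5892 4.7621 22.677 1.3376 7.895 1.871 0.2423 0.7902 0.4379 0.9233 1.6012 0.9322 2.7869 3.7541 2.269 0.0000003101 0.00004883 0.0000003101 0.0000003101 0.0000003101 0.0000003101 0.0000003101 0.0000003101 1.8087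
    hβ hN hx1 hx2 hy1 hy2 (by norm_num) (by norm_num) (by linarith) (by norm_num) (by norm_num) (by norm_num) (by norm_num) (by norm_num) (by norm_num) (by norm_num) (by norm_num) (by norm_num) (by norm_num) (by norm_num) (by norm_num) (by norm_num) (by norm_num) (by norm_num) (by norm_num) (by norm_num) (by norm_num) (by norm_num) (by norm_num) (by norm_num)
    (cube_sqrt_geJ (s := 0.7444) (by norm_num) (by norm_num) (by norm_num) (by norm_num))
    (cube_sqrt_geJ (s := 0.9144) (by norm_num) (by norm_num) (by norm_num) (by norm_num))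
    (by norm_num) (by norm_num) (by norm_num) (by norm_num) (by norm_num) (by norm_num) (by norm_num) (by norm_num) (by norm_num) (by norm_num) (by norm_num) (by norm_num) (by norm_num) (by norm_num) (by norm_num) (by norm_num) (by norm_num) (by norm_num)
    (exp_neg_leJ (r := 0.99) 14 (by norm_num) (by norm_num) (by norm_num) (by norm_num))
    (exp_neg_leJ (r := 0.93) 9 (by norm_num) (by norm_num) (by norm_num) (by norm_num))
    (exp_neg_leJ (r := 0.99) 14 (by norm_num) (by norm_num) (by norm_num) (by norm_num))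
    (exp_neg_leJ (r := 0.99) 14 (by norm_num) (by norm_num) (by norm_num) (by norm_num))
    (exp_neg_leJ (r := 0.99) 14 (by norm_num) (by norm_num) (by norm_num) (by norm_num))
    (exp_neg_leJ (r := 0.99) 14 (by norm_num) (by norm_num) (by norm_num) (by norm_num))
    (exp_neg_leJ (r := 0.99) 14 (by norm_num) (by norm_num) (by norm_num) (by norm_num))
    (exp_neg_leJ (r := 0.99) 14 (by norm_num) (by norm_num) (by norm_num) (by norm_num))
    (by norm_num)) (by norm_num) hN hβ.le (by norm_num)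

private theorem JM1_c9 {κ t β : ℝ} (h : DomR κ t) (hβ : 0 < β) (hk1 : 1.23 ≤ κ) (hk2 : κ ≤ 1.39)
    (ht1 : -0.803 ≤ t + κ) (ht2 : t + κ ≤ -0.677) (hR0 : β * 11.1 ≤ κ) (hR : β * (11.1 * (1 + κ ^ 2)) ≤ κ) :
    ‖HH β (sg κ t) - 1‖ ≤ 0.1 := by
  have hN : β * 22.677 ≤ 1 := bNC' hβ hk1 (by norm_num) (by norm_num) hR (by norm_num)
  have hy1 : -0.412 ≤ sy κ t := syL_ge h 1.23 1.39 0.803 0.412 0.66232 0.66233 0.2048 0.19631 0.22186 hk1 hk2 (by linarith) (by norm_num) (by norm_num) (by norm_num)
    (expm_ge (by norm_num) (by norm_num) (by norm_num) (by norm_num)) (expm_le (by norm_num) (by norm_num) (by norm_num)) (by norm_num)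
    (by norm_num) (by norm_num) (by norm_num) (by norm_num) (by norm_num) (by norm_num)
  have hy2 : sy κ t ≤ -0.325 := syL_le h 1.23 1.39 0.677 0.325 0.72252 0.72253 0.16893 0.19092 hk1 hk2 (by linarith) (by norm_num) (by norm_num) (by norm_num)
    (expm_ge (by norm_num) (by norm_num) (by norm_num) (by norm_num)) (expm_le (by norm_num) (by norm_num) (by norm_num)) (by norm_num)
    (by norm_num) (by norm_num) (by norm_num) (by norm_num) (by norm_num) (by norm_num)
  have hx1 : 1.6517 ≤ sx κ t := sx_lo h 1.23 (-0.325) 0.412 1.38403 1.6517 hk1 (by norm_num) hy2 (abs_le.2 ⟨by linarith, by linarith⟩) (by rw [neg_neg]; exact expn_ge (by norm_num) (by norm_num)) (by norm_num) (by norm_num)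
  have hx2 : sx κ t ≤ 2.0734 := sx_hi h 1.39 (-0.412) 0.325 1.50984 2.0734 hk2 hy1 (by norm_num) (by rw [abs_of_nonpos (by linarith)]; linarith) (by rw [neg_neg]; exact expn_le (by norm_num) (by norm_num) (by norm_num)) (by norm_num) (by norm_num)
  exact JM1_b9_0 hβ hN hx1 hx2 (by linarith) (by linarith)

theorem JM1 {κ t β : ℝ} (h : DomR κ t) (hβ : 0 < β) (hk1 : 0.29 ≤ κ) (hk2 : κ ≤ 1.39)
    (ht1 : -0.803 ≤ t + κ) (ht2 : t + κ ≤ -0.677) (hR0 : β * 11.1 ≤ κ) (hR : β * (11.1 * (1 + κ ^ 2)) ≤ κ) :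
    ‖HH β (sg κ t) - 1‖ ≤ 0.1 := by
  rcases le_total κ 0.38 with f0 | g0
  · exact JM1_c0 h hβ hk1 f0 ht1 ht2 hR0 hR
  rcases le_total κ 0.44 with f1 | g1
  · exact JM1_c1 h hβ g0 f1 ht1 ht2 hR0 hR
  rcases le_total κ 0.5 with f2 | g2
  · exact JM1_c2 h hβ g1 f2 ht1 ht2 hR0 hR
  rcases le_total κ 0.56 with f3 | g3
  · exact JM1_c3 h hβ g2 f3 ht1 ht2 hR0 hR
  rcases le_total κ 0.64 with f4 | g4
  · exact JM1_c4 h hβ g3 f4 ht1 ht2 hR0 hR
  rcases le_total κ 0.73 with f5 | g5
  · exact JM1_c5 h hβ g4 f5 ht1 ht2 hR0 hR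
  rcases le_total κ 0.85 with f6 | g6
  · exact JM1_c6 h hβ g5 f6 ht1 ht2 hR0 hR
  rcases le_total κ 1 with f7 | g7
  · exact JM1_c7 h hβ g6 f7 ht1 ht2 hR0 hR
  rcases le_total κ 1.23 with f8 | g8
  · exact JM1_c8 h hβ g7 f8 ht1 ht2 hR0 hR
  exact JM1_c9 h hβ g8 hk2 ht1 ht2 hR0 hR

end Sok
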