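import Mathlib
import Pool.Agent.Lib.MP_816dec_an.JBox

/-!
MP_816dec_an: `‖HH - 1‖ ≤ 0.05` for `R ≥ 11.1 (1+κ²)`, `-0.42 ≤ y ≤ -0.37`.
-/

set_option autoImplicit false
set_option maxHeartbeats 4000000

open Complex Set

namespace Sok

/-- `β N0 ≤ 1` from `R ≥ c (1+κ²)` -/
private theorem bN {β x y κ : ℝ} (c s1 w K N0 x2 ym : ℝ) (hc : 0 < c) (hβ : 0 < β) (hx : 0 < x)
    (hκ : κ = ‖(x + y * I : ℂ)‖ * Real.exp y) (hκ0 : 0 < κ) (hR : β * (c * (1 + κ ^ 2)) ≤ κ)
    (hx2 : x ≤ x2) (hy : |y| ≤ ym) (hw : Real.exp y ≤ w) (hs : x2 ^ 2 + ym ^ 2 ≤ s1 ^ 2) (hs0 : 0 ≤ s1)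
    (hK : s1 * w ≤ K) (hK0 : 0 < K) (hK1 : K ≤ 1) (hN : N0 * K ≤ c * (1 + K ^ 2)) : β * N0 ≤ 1 := by
  have hn2 : ‖(x + y * I : ℂ)‖ ^ 2 = x ^ 2 + y ^ 2 := by
    rw [← Complex.normSq_eq_norm_sq, Complex.normSq_apply]
    simp
    ring
  have hn : ‖(x + y * I : ℂ)‖ ≤ s1 := by
    apply le_of_sq_le_sq _ hs0
    rw [hn2]
    have h1 : x ^ 2 ≤ x2 ^ 2 := pow_le_pow_left₀ hx.le hx2 2
    have h2 : y ^ 2 ≤ ym ^ 2 := by
      rw [← sq_abs y]; exact pow_le_pow_left₀ (abs_nonneg y) hy 2
    linarith
  have hκK : κ ≤ K := by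
    rw [hκ]
    refine le_trans ?_ hK
    exact mul_le_mul hn hw (Real.exp_pos _).le hs0
  have h1 : κ * (1 + K ^ 2) ≤ K * (1 + κ ^ 2) := by
    have h3 : 0 ≤ 1 - κ * K := by nlinarith
    have := mul_nonneg (sub_nonneg.2 hκK) h3
    linarith
  have h2 : N0 * κ ≤ c * (1 + κ ^ 2) := by
    have h3 : N0 * K * κ ≤ c * (1 + K ^ 2) * κ := mul_le_mul_of_nonneg_right hN hκ0.le
    have h4 : N0 * κ * K ≤ c * (1 + κ ^ 2) * K := by
      have := mul_le_mul_of_nonneg_left h1 hc.le
      linarith
    exact le_of_mul_le_mul_right h4 hK0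
  have h5 : β * (N0 * κ) ≤ κ := (mul_le_mul_of_nonneg_left h2 hβ.le).trans hR
  have h6 : (β * N0) * κ ≤ 1 * κ := by linarith
  exact le_of_mul_le_mul_right h6 hκ0

private theorem bN20 {β κ c N : ℝ} (hc : 0 < c) (hN : N = 2 * c) (hβ : 0 < β) (hκ0 : 0 < κ)
    (hR : β * (c * (1 + κ ^ 2)) ≤ κ) : β * N ≤ 1 := by
  have h2 : N * κ ≤ c * (1 + κ ^ 2) := by
    rw [hN]
    have := mul_nonneg hc.le (sq_nonneg (κ - 1))
    linarith
  have h5 : β * (N * κ) ≤ κ := (mul_le_mul_of_nonneg_left h2 hβ.le).trans hR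
  have h6 : (β * N) * κ ≤ 1 * κ := by linarith
  exact le_of_mul_le_mul_right h6 hκ0

private theorem epsOf {β C N ε v : ℝ} (hβ : 0 < β) (hN : β * N ≤ 1) (hε : 0 ≤ ε) (hC : C ≤ ε * N) (h : v ≤ C * β) : v ≤ ε := by
  have h1 : C * β ≤ ε * N * β := mul_le_mul_of_nonneg_right hC hβ.le
  have h2 : ε * (β * N) ≤ ε * 1 := mul_le_mul_of_nonneg_left hN hε
  linarith

private theorem exp_wc : Real.exp (-0.37) ≤ 0.6908 := by
  rw [Real.exp_neg, inv_le_comm₀ (Real.exp_pos _) (by norm_num)]
  have h := Real.sum_le_exp_of_nonneg (x := 0.37) (by norm_num) 7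
  refine le_trans ?_ h
  norm_num [Finset.sum_range_succ, Nat.factorial]

private theorem bxc0 {β x y : ℝ} (hβ : 0 < β) (hN : β * 38.1 ≤ 1) (hx1 : 0.125 ≤ x) (hx2 : x ≤ 0.2)
    (hy1 : -0.42 ≤ y) (hy2 : y ≤ -0.37) : ‖HH β (x + y * I) - 1‖ ≤ 1.8957 * β := by
  refine J_box 0.125 0.2 0.42 0 (-0.37) 0.4998 0.4652 0.661 2.301 0.3244 6.1726 38.1 0.9308 3.67 1.528 0.9555 0.2498 0.1723 0.3881 2.5986 0.1862 0.673 0.679 3.6975 0.00007361 0.001411 0.0000003794 0.0000003101 0.0008301 0.0000003101 0.0000003101 0.0000003101 1.8957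
    hβ hN hx1 hx2 hy1 hy2 (by norm_num) (by norm_num) (by norm_num) (by norm_num) (by norm_num) (by norm_num) (by norm_num) (by norm_num) (by norm_num) (by norm_num) (by norm_num) (by norm_num) (by norm_num) (by norm_num) (by norm_num) (by norm_num) (by norm_num) (by norm_num) (by norm_num) (by norm_num) (by norm_num) (by norm_num) (by norm_num) (by norm_num)
    (cube_sqrt_geJ (s := 0.8305) (by norm_num) (by norm_num) (by norm_num) (by norm_num))
    (cube_sqrt_geJ (s := 0.9412) (by norm_num) (by norm_num) (by norm_num) (by norm_num))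
    (by norm_num) (by norm_num) (by norm_num) (by norm_num) (by norm_num) (by norm_num) (by norm_num) (by norm_num) (by norm_num) (by norm_num) (by norm_num) (by norm_num) (by norm_num) (by norm_num) (by norm_num) (by norm_num) (by norm_num) (by norm_num)
    (exp_neg_leJ (r := 0.517) 9 (by norm_num) (by norm_num) (by norm_num) (by norm_num))
    (exp_neg_leJ (r := 0.564) 6 (by norm_num) (by norm_num) (by norm_num) (by norm_num))
    (exp_neg_leJ (r := 0.786) 14 (by norm_num) (by norm_num) (by norm_num) (by norm_num))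
    (exp_neg_leJ (r := 0.99) 14 (by norm_num) (by norm_num) (by norm_num) (by norm_num))
    (exp_neg_leJ (r := 0.094) 7 (by norm_num) (by norm_num) (by norm_num) (by norm_num))
    (exp_neg_leJ (r := 0.99) 14 (by norm_num) (by norm_num) (by norm_num) (by norm_num))
    (exp_neg_leJ (r := 0.99) 14 (by norm_num) (by norm_num) (by norm_num) (by norm_num))
    (exp_neg_leJ (r := 0.99) 14 (by norm_num) (by norm_num) (by norm_num) (by norm_num))
    (by norm_num)

private theorem bxc1 {β x y : ℝ} (hβ : 0 < β) (hN : β * 34.77 ≤ 1) (hx1 : 0.2 ≤ x) (hx2 : x ≤ 0.31)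
    (hy1 : -0.42 ≤ y) (hy2 : y ≤ -0.37) : ‖HH β (x + y * I) - 1‖ ≤ 1.7282 * β := by
  refine J_box 0.2 0.31 0.42 0 (-0.37) 0.5526 0.5221 0.7022 2.04 0.3344 5.8967 34.77 0.9449 3.759 1.538 0.9131 0.2762 0.1892 0.4137 2.5493 0.2227 0.7769 0.829 3.6928 0.00006756 0.001392 0.0000005665 0.0000003101 0.0004343 0.0000003101 0.0000003101 0.0000003101 1.7282
    hβ hN hx1 hx2 hy1 hy2 (by norm_num) (by norm_num) (by norm_num) (by norm_num) (by norm_num) (by norm_num) (by norm_num) (by norm_num) (by norm_num) (by norm_num) (by norm_num) (by norm_num) (by norm_num) (by norm_num) (by norm_num) (by norm_num) (by norm_num) (by norm_num) (by norm_num) (by norm_num) (by norm_num) (by norm_num) (by norm_num) (by norm_num)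
    (cube_sqrt_geJ (s := 0.8276) (by norm_num) (by norm_num) (by norm_num) (by norm_num))
    (cube_sqrt_geJ (s := 0.9403) (by norm_num) (by norm_num) (by norm_num) (by norm_num))
    (by norm_num) (by norm_num) (by norm_num) (by norm_num) (by norm_num) (by norm_num) (by norm_num) (by norm_num) (by norm_num) (by norm_num) (by norm_num) (by norm_num) (by norm_num) (by norm_num) (by norm_num) (by norm_num) (by norm_num) (by norm_num)
    (exp_neg_leJ (r := 0.603) 9 (by norm_num) (by norm_num) (by norm_num) (by norm_num))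
    (exp_neg_leJ (r := 0.578) 6 (by norm_num) (by norm_num) (by norm_num) (by norm_num))
    (exp_neg_leJ (r := 0.384) 14 (by norm_num) (by norm_num) (by norm_num) (by norm_num))
    (exp_neg_leJ (r := 0.99) 14 (by norm_num) (by norm_num) (by norm_num) (by norm_num))
    (exp_neg_leJ (r := 0.743) 7 (by norm_num) (by norm_num) (by norm_num) (by norm_num))
    (exp_neg_leJ (r := 0.99) 14 (by norm_num) (by norm_num) (by norm_num) (by norm_num))
    (exp_neg_leJ (r := 0.99) 14 (by norm_num) (by norm_num) (by norm_num) (by norm_num))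
    (exp_neg_leJ (r := 0.99) 14 (by norm_num) (by norm_num) (by norm_num) (by norm_num))
    (by norm_num)

private theorem bxc2 {β x y : ℝ} (hβ : 0 < β) (hN : β * 31.2 ≤ 1) (hx1 : 0.31 ≤ x) (hx2 : x ≤ 0.435)
    (hy1 : -0.42 ≤ y) (hy2 : y ≤ -0.37) : ‖HH β (x + y * I) - 1‖ ≤ 1.5292 * β := by
  refine J_box 0.31 0.435 0.42 0 (-0.37) 0.6301 0.6047 0.7656 1.7494 0.3491 5.5857 31.2 0.9597 3.856 1.549 0.8651 0.315 0.2142 0.4514 2.4885 0.2761 0.9292 1.049 3.6883 0.00005407 0.001253 0.0000007654 0.0000003101 0.0001817 0.0000003101 0.0000003101 0.0000003101 1.5292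
    hβ hN hx1 hx2 hy1 hy2 (by norm_num) (by norm_num) (by norm_num) (by norm_num) (by norm_num) (by norm_num) (by norm_num) (by norm_num) (by norm_num) (by norm_num) (by norm_num) (by norm_num) (by norm_num) (by norm_num) (by norm_num) (by norm_num) (by norm_num) (by norm_num) (by norm_num) (by norm_num) (by norm_num) (by norm_num) (by norm_num) (by norm_num)
    (cube_sqrt_geJ (s := 0.8246) (by norm_num) (by norm_num) (by norm_num) (by norm_num))
    (cube_sqrt_geJ (s := 0.9394) (by norm_num) (by norm_num) (by norm_num) (by norm_num))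
    (by norm_num) (by norm_num) (by norm_num) (by norm_num) (by norm_num) (by norm_num) (by norm_num) (by norm_num) (by norm_num) (by norm_num) (by norm_num) (by norm_num) (by norm_num) (by norm_num) (by norm_num) (by norm_num) (by norm_num) (by norm_num)
    (exp_neg_leJ (r := 0.827) 9 (by norm_num) (by norm_num) (by norm_num) (by norm_num))
    (exp_neg_leJ (r := 0.683) 6 (by norm_num) (by norm_num) (by norm_num) (by norm_num))
    (exp_neg_leJ (r := 0.083) 14 (by norm_num) (by norm_num) (by norm_num) (by norm_num))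
    (exp_neg_leJ (r := 0.99) 14 (by norm_num) (by norm_num) (by norm_num) (by norm_num))
    (exp_neg_leJ (r := 0.614) 8 (by norm_num) (by norm_num) (by norm_num) (by norm_num))
    (exp_neg_leJ (r := 0.99) 14 (by norm_num) (by norm_num) (by norm_num) (by norm_num))
    (exp_neg_leJ (r := 0.99) 14 (by norm_num) (by norm_num) (by norm_num) (by norm_num))
    (exp_neg_leJ (r := 0.99) 14 (by norm_num) (by norm_num) (by norm_num) (by norm_num))
    (by norm_num)

private theorem bxc3 {β x y : ℝ} (hβ : 0 < β) (hN : β * 28.21 ≤ 1) (hx1 : 0.435 ≤ x) (hx2 : x ≤ 0.565)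
    (hy1 : -0.42 ≤ y) (hy2 : y ≤ -0.37) : ‖HH β (x + y * I) - 1‖ ≤ 1.3915 * β := by
  refine J_box 0.435 0.565 0.42 0 (-0.37) 0.7181 0.7041 0.8463 1.5118 0.3671 5.3114 28.21 0.9806 3.997 1.565 0.8151 0.359 0.2416 0.4942 2.4216 0.3368 1.1023 1.299 3.6681 0.00003999 0.001099 0.0000008846 0.0000003101 0.0000748 0.0000003101 0.0000003101 0.0000003101 1.3915
    hβ hN hx1 hx2 hy1 hy2 (by norm_num) (by norm_num) (by norm_num) (by norm_num) (by norm_num) (by norm_num) (by norm_num) (by norm_num) (by norm_num) (by norm_num) (by norm_num) (by norm_num) (by norm_num) (by norm_num) (by norm_num) (by norm_num) (by norm_num) (by norm_num) (by norm_num) (by norm_num) (by norm_num) (by norm_num) (by norm_num) (by norm_num)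
    (cube_sqrt_geJ (s := 0.8204) (by norm_num) (by norm_num) (by norm_num) (by norm_num))
    (cube_sqrt_geJ (s := 0.938) (by norm_num) (by norm_num) (by norm_num) (by norm_num))
    (by norm_num) (by norm_num) (by norm_num) (by norm_num) (by norm_num) (by norm_num) (by norm_num) (by norm_num) (by norm_num) (by norm_num) (by norm_num) (by norm_num) (by norm_num) (by norm_num) (by norm_num) (by norm_num) (by norm_num) (by norm_num)
    (exp_neg_leJ (r := 0.127) 10 (by norm_num) (by norm_num) (by norm_num) (by norm_num))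
    (exp_neg_leJ (r := 0.815) 6 (by norm_num) (by norm_num) (by norm_num) (by norm_num))
    (exp_neg_leJ (r := 0.941) 13 (by norm_num) (by norm_num) (by norm_num) (by norm_num))
    (exp_neg_leJ (r := 0.99) 14 (by norm_num) (by norm_num) (by norm_num) (by norm_num))
    (exp_neg_leJ (r := 0.501) 9 (by norm_num) (by norm_num) (by norm_num) (by norm_num))
    (exp_neg_leJ (r := 0.99) 14 (by norm_num) (by norm_num) (by norm_num) (by norm_num))
    (exp_neg_leJ (r := 0.99) 14 (by norm_num) (by norm_num) (by norm_num) (by norm_num))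
    (exp_neg_leJ (r := 0.99) 14 (by norm_num) (by norm_num) (by norm_num) (by norm_num))
    (by norm_num)

private theorem bxc4 {β x y : ℝ} (hβ : 0 < β) (hN : β * 26.01 ≤ 1) (hx1 : 0.565 ≤ x) (hx2 : x ≤ 0.695)
    (hy1 : -0.42 ≤ y) (hy2 : y ≤ -0.37) : ‖HH β (x + y * I) - 1‖ ≤ 1.2955 * β := by
  refine J_box 0.565 0.695 0.42 0 (-0.37) 0.8096 0.8121 0.9381 1.3296 0.3864 5.1001 26.01 1.0031 4.157 1.583 0.7651 0.4047 0.2694 0.5387 2.3524 0.4 1.2823 1.559 3.6345 0.00002684 0.0009056 0.0000008225 0.0000003101 0.00003035 0.0000003101 0.0000003101 0.0000003101 1.2955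
    hβ hN hx1 hx2 hy1 hy2 (by norm_num) (by norm_num) (by norm_num) (by norm_num) (by norm_num) (by norm_num) (by norm_num) (by norm_num) (by norm_num) (by norm_num) (by norm_num) (by norm_num) (by norm_num) (by norm_num) (by norm_num) (by norm_num) (by norm_num) (by norm_num) (by norm_num) (by norm_num) (by norm_num) (by norm_num) (by norm_num) (by norm_num)
    (cube_sqrt_geJ (s := 0.8158) (by norm_num) (by norm_num) (by norm_num) (by norm_num))
    (cube_sqrt_geJ (s := 0.9365) (by norm_num) (by norm_num) (by norm_num) (by norm_num))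
    (by norm_num) (by norm_num) (by norm_num) (by norm_num) (by norm_num) (by norm_num) (by norm_num) (by norm_num) (by norm_num) (by norm_num) (by norm_num) (by norm_num) (by norm_num) (by norm_num) (by norm_num) (by norm_num) (by norm_num) (by norm_num)
    (exp_neg_leJ (r := 0.526) 10 (by norm_num) (by norm_num) (by norm_num) (by norm_num))
    (exp_neg_leJ (r := 0.007) 7 (by norm_num) (by norm_num) (by norm_num) (by norm_num))
    (exp_neg_leJ (r := 0.011) 14 (by norm_num) (by norm_num) (by norm_num) (by norm_num))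
    (exp_neg_leJ (r := 0.99) 14 (by norm_num) (by norm_num) (by norm_num) (by norm_num))
    (exp_neg_leJ (r := 0.403) 10 (by norm_num) (by norm_num) (by norm_num) (by norm_num))
    (exp_neg_leJ (r := 0.99) 14 (by norm_num) (by norm_num) (by norm_num) (by norm_num))
    (exp_neg_leJ (r := 0.99) 14 (by norm_num) (by norm_num) (by norm_num) (by norm_num))
    (exp_neg_leJ (r := 0.99) 14 (by norm_num) (by norm_num) (by norm_num) (by norm_num))
    (by norm_num)

private theorem bxc5 {β x y : ℝ} (hβ : 0 < β) (hN : β * 24.5 ≤ 1) (hx1 : 0.695 ≤ x) (hx2 : x ≤ 0.82)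
    (hy1 : -0.42 ≤ y) (hy2 : y ≤ -0.37) : ‖HH β (x + y * I) - 1‖ ≤ 1.2156 * β := by
  refine J_box 0.695 0.82 0.42 0 (-0.37) 0.9012 0.9214 1.0341 1.1887 0.4057 4.9498 24.5 1.0225 4.301 1.598 0.717 0.4505 0.297 0.5832 2.2844 0.4631 1.4623 1.819 3.5974 0.0000161 0.000692 0.0000006235 0.0000003101 0.00001183 0.0000003101 0.0000003101 0.0000003101 1.2156
    hβ hN hx1 hx2 hy1 hy2 (by norm_num) (by norm_num) (by norm_num) (by norm_num) (by norm_num) (by norm_num) (by norm_num) (by norm_num) (by norm_num) (by norm_num) (by norm_num) (by norm_num) (by norm_num) (by norm_num) (by norm_num) (by norm_num) (by norm_num) (by norm_num) (by norm_num) (by norm_num) (by norm_num) (by norm_num) (by norm_num) (by norm_num)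
    (cube_sqrt_geJ (s := 0.8118) (by norm_num) (by norm_num) (by norm_num) (by norm_num))
    (cube_sqrt_geJ (s := 0.9353) (by norm_num) (by norm_num) (by norm_num) (by norm_num))
    (by norm_num) (by norm_num) (by norm_num) (by norm_num) (by norm_num) (by norm_num) (by norm_num) (by norm_num) (by norm_num) (by norm_num) (by norm_num) (by norm_num) (by norm_num) (by norm_num) (by norm_num) (by norm_num) (by norm_num) (by norm_num)
    (exp_neg_leJ (r := 0.037) 11 (by norm_num) (by norm_num) (by norm_num) (by norm_num))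
    (exp_neg_leJ (r := 0.276) 7 (by norm_num) (by norm_num) (by norm_num) (by norm_num))
    (exp_neg_leJ (r := 0.288) 14 (by norm_num) (by norm_num) (by norm_num) (by norm_num))
    (exp_neg_leJ (r := 0.99) 14 (by norm_num) (by norm_num) (by norm_num) (by norm_num))
    (exp_neg_leJ (r := 0.345) 11 (by norm_num) (by norm_num) (by norm_num) (by norm_num))
    (exp_neg_leJ (r := 0.99) 14 (by norm_num) (by norm_num) (by norm_num) (by norm_num))
    (exp_neg_leJ (r := 0.99) 14 (by norm_num) (by norm_num) (by norm_num) (by norm_num))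
    (exp_neg_leJ (r := 0.99) 14 (by norm_num) (by norm_num) (by norm_num) (by norm_num))
    (by norm_num)

private theorem bxc6 {β x y : ℝ} (hβ : 0 < β) (hN : β * 23.5 ≤ 1) (hx1 : 0.82 ≤ x) (hx2 : x ≤ 0.94)
    (hy1 : -0.42 ≤ y) (hy2 : y ≤ -0.37) : ‖HH β (x + y * I) - 1‖ ≤ 1.1583 * β := by
  refine J_box 0.82 0.94 0.42 0 (-0.37) 0.9892 1.0296 1.1316 1.0813 0.4244 4.8477 23.5 1.0409 4.444 1.612 0.6708 0.4945 0.3229 0.626 2.2182 0.5238 1.6353 2.069 3.5533 0.000008989 0.0005067 0.0000004092 0.0000003101 0.000004512 0.0000003101 0.0000003101 0.0000003101 1.1583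
    hβ hN hx1 hx2 hy1 hy2 (by norm_num) (by norm_num) (by norm_num) (by norm_num) (by norm_num) (by norm_num) (by norm_num) (by norm_num) (by norm_num) (by norm_num) (by norm_num) (by norm_num) (by norm_num) (by norm_num) (by norm_num) (by norm_num) (by norm_num) (by norm_num) (by norm_num) (by norm_num) (by norm_num) (by norm_num) (by norm_num) (by norm_num)
    (cube_sqrt_geJ (s := 0.8081) (by norm_num) (by norm_num) (by norm_num) (by norm_num))
    (cube_sqrt_geJ (s := 0.9341) (by norm_num) (by norm_num) (by norm_num) (by norm_num))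
    (by norm_num) (by norm_num) (by norm_num) (by norm_num) (by norm_num) (by norm_num) (by norm_num) (by norm_num) (by norm_num) (by norm_num) (by norm_num) (by norm_num) (by norm_num) (by norm_num) (by norm_num) (by norm_num) (by norm_num) (by norm_num)
    (exp_neg_leJ (r := 0.62) 11 (by norm_num) (by norm_num) (by norm_num) (by norm_num))
    (exp_neg_leJ (r := 0.588) 7 (by norm_num) (by norm_num) (by norm_num) (by norm_num))
    (exp_neg_leJ (r := 0.71) 14 (by norm_num) (by norm_num) (by norm_num) (by norm_num))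
    (exp_neg_leJ (r := 0.99) 14 (by norm_num) (by norm_num) (by norm_num) (by norm_num))
    (exp_neg_leJ (r := 0.309) 12 (by norm_num) (by norm_num) (by norm_num) (by norm_num))
    (exp_neg_leJ (r := 0.99) 14 (by norm_num) (by norm_num) (by norm_num) (by norm_num))
    (exp_neg_leJ (r := 0.99) 14 (by norm_num) (by norm_num) (by norm_num) (by norm_num))
    (exp_neg_leJ (r := 0.99) 14 (by norm_num) (by norm_num) (by norm_num) (by norm_num))
    (by norm_num)

private theorem bxc7 {β x y : ℝ} (hβ : 0 < β) (hN : β * 22.83 ≤ 1) (hx1 : 0.94 ≤ x) (hx2 : x ≤ 1.06)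
    (hy1 : -0.42 ≤ y) (hy2 : y ≤ -0.37) : ‖HH β (x + y * I) - 1‖ ≤ 1.13 * β := by
  refine J_box 0.94 1.06 0.42 0 (-0.37) 1.0737 1.1402 1.2331 0.9982 0.4431 4.7781 22.83 1.062 4.616 1.629 0.6247 0.5368 0.3468 0.667 2.1514 0.5821 1.8015 2.309 3.4926 0.000004762 0.0003655 0.0000003101 0.0000003101 0.000001694 0.0000003101 0.0000003101 0.0000003101 1.13
    hβ hN hx1 hx2 hy1 hy2 (by norm_num) (by norm_num) (by norm_num) (by norm_num) (by norm_num) (by norm_num) (by norm_num) (by norm_num) (by norm_num) (by norm_num) (by norm_num) (by norm_num) (by norm_num) (by norm_num) (by norm_num) (by norm_num) (by norm_num) (by norm_num) (by norm_num) (by norm_num) (by norm_num) (by norm_num) (by norm_num) (by norm_num)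
    (cube_sqrt_geJ (s := 0.8037) (by norm_num) (by norm_num) (by norm_num) (by norm_num))
    (cube_sqrt_geJ (s := 0.9327) (by norm_num) (by norm_num) (by norm_num) (by norm_num))
    (by norm_num) (by norm_num) (by norm_num) (by norm_num) (by norm_num) (by norm_num) (by norm_num) (by norm_num) (by norm_num) (by norm_num) (by norm_num) (by norm_num) (by norm_num) (by norm_num) (by norm_num) (by norm_num) (by norm_num) (by norm_num)
    (exp_neg_leJ (r := 0.255) 12 (by norm_num) (by norm_num) (by norm_num) (by norm_num))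
    (exp_neg_leJ (r := 0.917) 7 (by norm_num) (by norm_num) (by norm_num) (by norm_num))
    (exp_neg_leJ (r := 0.99) 14 (by norm_num) (by norm_num) (by norm_num) (by norm_num))
    (exp_neg_leJ (r := 0.99) 14 (by norm_num) (by norm_num) (by norm_num) (by norm_num))
    (exp_neg_leJ (r := 0.289) 13 (by norm_num) (by norm_num) (by norm_num) (by norm_num))
    (exp_neg_leJ (r := 0.99) 14 (by norm_num) (by norm_num) (by norm_num) (by norm_num))
    (exp_neg_leJ (r := 0.99) 14 (by norm_num) (by norm_num) (by norm_num) (by norm_num))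
    (exp_neg_leJ (r := 0.99) 14 (by norm_num) (by norm_num) (by norm_num) (by norm_num))
    (by norm_num)

private theorem bxc8 {β x y : ℝ} (hβ : 0 < β) (hN : β * 22.42 ≤ 1) (hx1 : 1.06 ≤ x) (hx2 : x ≤ 1.185)
    (hy1 : -0.42 ≤ y) (hy2 : y ≤ -0.37) : ‖HH β (x + y * I) - 1‖ ≤ 1.1203 * β := by
  refine J_box 1.06 1.185 0.42 0 (-0.37) 1.1582 1.2573 1.3421 0.9295 0.4622 4.735 22.42 1.0856 4.818 1.648 0.5766 0.579 0.3695 0.7081 2.0812 0.6404 1.9676 2.549 3.4143 0.000002312 0.0002526 0.0000003101 0.0000003101 0.000000582 0.0000003101 0.0000003101 0.0000003101 1.1203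
    hβ hN hx1 hx2 hy1 hy2 (by norm_num) (by norm_num) (by norm_num) (by norm_num) (by norm_num) (by norm_num) (by norm_num) (by norm_num) (by norm_num) (by norm_num) (by norm_num) (by norm_num) (by norm_num) (by norm_num) (by norm_num) (by norm_num) (by norm_num) (by norm_num) (by norm_num) (by norm_num) (by norm_num) (by norm_num) (by norm_num) (by norm_num)
    (cube_sqrt_geJ (s := 0.7988) (by norm_num) (by norm_num) (by norm_num) (by norm_num))
    (cube_sqrt_geJ (s := 0.9311) (by norm_num) (by norm_num) (by norm_num) (by norm_num))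
    (by norm_num) (by norm_num) (by norm_num) (by norm_num) (by norm_num) (by norm_num) (by norm_num) (by norm_num) (by norm_num) (by norm_num) (by norm_num) (by norm_num) (by norm_num) (by norm_num) (by norm_num) (by norm_num) (by norm_num) (by norm_num)
    (exp_neg_leJ (r := 0.981) 12 (by norm_num) (by norm_num) (by norm_num) (by norm_num))
    (exp_neg_leJ (r := 0.284) 8 (by norm_num) (by norm_num) (by norm_num) (by norm_num))
    (exp_neg_leJ (r := 0.99) 14 (by norm_num) (by norm_num) (by norm_num) (by norm_num))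
    (exp_neg_leJ (r := 0.99) 14 (by norm_num) (by norm_num) (by norm_num) (by norm_num))
    (exp_neg_leJ (r := 0.357) 14 (by norm_num) (by norm_num) (by norm_num) (by norm_num))
    (exp_neg_leJ (r := 0.99) 14 (by norm_num) (by norm_num) (by norm_num) (by norm_num))
    (exp_neg_leJ (r := 0.99) 14 (by norm_num) (by norm_num) (by norm_num) (by norm_num))
    (exp_neg_leJ (r := 0.99) 14 (by norm_num) (by norm_num) (by norm_num) (by norm_num))
    (by norm_num)

private theorem bxc9 {β x y : ℝ} (hβ : 0 < β) (hN : β * 22.22 ≤ 1) (hx1 : 1.185 ≤ x) (hx2 : x ≤ 1.315)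
    (hy1 : -0.42 ≤ y) (hy2 : y ≤ -0.37) : ‖HH β (x + y * I) - 1‖ ≤ 1.1103 * β := by
  refine J_box 1.185 1.315 0.42 0 (-0.37) 1.2462 1.3805 1.4582 0.8681 0.4818 4.7139 22.22 1.1078 5.019 1.666 0.5266 0.623 0.393 0.7509 2.0079 0.7011 2.1407 2.799 3.3294 0.0000009747 0.0001615 0.0000003101 0.0000003101 0.0000003101 0.0000003101 0.0000003101 0.0000003101 1.1103
    hβ hN hx1 hx2 hy1 hy2 (by norm_num) (by norm_num) (by norm_num) (by norm_num) (by norm_num) (by norm_num) (by norm_num) (by norm_num) (by norm_num) (by norm_num) (by norm_num) (by norm_num) (by norm_num) (by norm_num) (by norm_num) (by norm_num) (by norm_num) (by norm_num) (by norm_num) (by norm_num) (by norm_num) (by norm_num) (by norm_num) (by norm_num)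
    (cube_sqrt_geJ (s := 0.7941) (by norm_num) (by norm_num) (by norm_num) (by norm_num))
    (cube_sqrt_geJ (s := 0.9297) (by norm_num) (by norm_num) (by norm_num) (by norm_num))
    (by norm_num) (by norm_num) (by norm_num) (by norm_num) (by norm_num) (by norm_num) (by norm_num) (by norm_num) (by norm_num) (by norm_num) (by norm_num) (by norm_num) (by norm_num) (by norm_num) (by norm_num) (by norm_num) (by norm_num) (by norm_num)
    (exp_neg_leJ (r := 0.843) 13 (by norm_num) (by norm_num) (by norm_num) (by norm_num))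
    (exp_neg_leJ (r := 0.732) 8 (by norm_num) (by norm_num) (by norm_num) (by norm_num))
    (exp_neg_leJ (r := 0.99) 14 (by norm_num) (by norm_num) (by norm_num) (by norm_num))
    (exp_neg_leJ (r := 0.99) 14 (by norm_num) (by norm_num) (by norm_num) (by norm_num))
    (exp_neg_leJ (r := 0.99) 14 (by norm_num) (by norm_num) (by norm_num) (by norm_num))
    (exp_neg_leJ (r := 0.99) 14 (by norm_num) (by norm_num) (by norm_num) (by norm_num))
    (exp_neg_leJ (r := 0.99) 14 (by norm_num) (by norm_num) (by norm_num) (by norm_num))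
    (exp_neg_leJ (r := 0.99) 14 (by norm_num) (by norm_num) (by norm_num) (by norm_num))
    (by norm_num)

private theorem bxc10 {β x y : ℝ} (hβ : 0 < β) (hN : β * 22.2 ≤ 1) (hx1 : 1.315 ≤ x) (hx2 : x ≤ 1.45)
    (hy1 : -0.42 ≤ y) (hy2 : y ≤ -0.37) : ‖HH β (x + y * I) - 1‖ ≤ 1.0995 * β := by
  refine J_box 1.315 1.45 0.42 0 (-0.37) 1.3377 1.5097 1.581 0.8127 0.5017 4.7117 22.2 1.1286 5.217 1.683 0.4747 0.6688 0.4172 0.7954 1.9314 0.7642 2.3207 3.059 3.2382 0.0000003572 0.00009507 0.0000003101 0.0000003101 0.0000003101 0.0000003101 0.0000003101 0.0000003101 1.0995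
    hβ hN hx1 hx2 hy1 hy2 (by norm_num) (by norm_num) (by norm_num) (by norm_num) (by norm_num) (by norm_num) (by norm_num) (by norm_num) (by norm_num) (by norm_num) (by norm_num) (by norm_num) (by norm_num) (by norm_num) (by norm_num) (by norm_num) (by norm_num) (by norm_num) (by norm_num) (by norm_num) (by norm_num) (by norm_num) (by norm_num) (by norm_num)
    (cube_sqrt_geJ (s := 0.7898) (by norm_num) (by norm_num) (by norm_num) (by norm_num))
    (cube_sqrt_geJ (s := 0.9283) (by norm_num) (by norm_num) (by norm_num) (by norm_num))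
    (by norm_num) (by norm_num) (by norm_num) (by norm_num) (by norm_num) (by norm_num) (by norm_num) (by norm_num) (by norm_num) (by norm_num) (by norm_num) (by norm_num) (by norm_num) (by norm_num) (by norm_num) (by norm_num) (by norm_num) (by norm_num)
    (exp_neg_leJ (r := 0.847) 14 (by norm_num) (by norm_num) (by norm_num) (by norm_num))
    (exp_neg_leJ (r := 0.261) 9 (by norm_num) (by norm_num) (by norm_num) (by norm_num))
    (exp_neg_leJ (r := 0.99) 14 (by norm_num) (by norm_num) (by norm_num) (by norm_num))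
    (exp_neg_leJ (r := 0.99) 14 (by norm_num) (by norm_num) (by norm_num) (by norm_num))
    (exp_neg_leJ (r := 0.99) 14 (by norm_num) (by norm_num) (by norm_num) (by norm_num))
    (exp_neg_leJ (r := 0.99) 14 (by norm_num) (by norm_num) (by norm_num) (by norm_num))
    (exp_neg_leJ (r := 0.99) 14 (by norm_num) (by norm_num) (by norm_num) (by norm_num))
    (exp_neg_leJ (r := 0.99) 14 (by norm_num) (by norm_num) (by norm_num) (by norm_num))
    (by norm_num)

private theorem bxc11 {β x y : ℝ} (hβ : 0 < β) (hN : β * 22.2 ≤ 1) (hx1 : 1.45 ≤ x) (hx2 : x ≤ 1.595)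
    (hy1 : -0.42 ≤ y) (hy2 : y ≤ -0.37) : ‖HH β (x + y * I) - 1‖ ≤ 1.0992 * β := by
  refine J_box 1.45 1.595 0.42 0 (-0.37) 1.4328 1.6494 1.715 0.7636 0.5225 4.7117 22.2 1.1512 5.443 1.703 0.4189 0.7163 0.4414 0.8416 1.849 0.8298 2.5076 3.329 3.1285 0.0000003101 0.00005559 0.0000003101 0.0000003101 0.0000003101 0.0000003101 0.0000003101 0.0000003101 1.0992
    hβ hN hx1 hx2 hy1 hy2 (by norm_num) (by norm_num) (by norm_num) (by norm_num) (by norm_num) (by norm_num) (by norm_num) (by norm_num) (by norm_num) (by norm_num) (by norm_num) (by norm_num) (by norm_num) (by norm_num) (by norm_num) (by norm_num) (by norm_num) (by norm_num) (by norm_num) (by norm_num) (by norm_num) (by norm_num) (by norm_num) (by norm_num)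
    (cube_sqrt_geJ (s := 0.785) (by norm_num) (by norm_num) (by norm_num) (by norm_num))
    (cube_sqrt_geJ (s := 0.9268) (by norm_num) (by norm_num) (by norm_num) (by norm_num))
    (by norm_num) (by norm_num) (by norm_num) (by norm_num) (by norm_num) (by norm_num) (by norm_num) (by norm_num) (by norm_num) (by norm_num) (by norm_num) (by norm_num) (by norm_num) (by norm_num) (by norm_num) (by norm_num) (by norm_num) (by norm_num)
    (exp_neg_leJ (r := 0.99) 14 (by norm_num) (by norm_num) (by norm_num) (by norm_num))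
    (exp_neg_leJ (r := 0.799) 9 (by norm_num) (by norm_num) (by norm_num) (by norm_num))
    (exp_neg_leJ (r := 0.99) 14 (by norm_num) (by norm_num) (by norm_num) (by norm_num))
    (exp_neg_leJ (r := 0.99) 14 (by norm_num) (by norm_num) (by norm_num) (by norm_num))
    (exp_neg_leJ (r := 0.99) 14 (by norm_num) (by norm_num) (by norm_num) (by norm_num))
    (exp_neg_leJ (r := 0.99) 14 (by norm_num) (by norm_num) (by norm_num) (by norm_num))
    (exp_neg_leJ (r := 0.99) 14 (by norm_num) (by norm_num) (by norm_num) (by norm_num))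
    (exp_neg_leJ (r := 0.99) 14 (by norm_num) (by norm_num) (by norm_num) (by norm_num))
    (by norm_num)

private theorem bxc12 {β x y : ℝ} (hβ : 0 < β) (hN : β * 22.2 ≤ 1) (hx1 : 1.595 ≤ x) (hx2 : x ≤ 1.755)
    (hy1 : -0.42 ≤ y) (hy2 : y ≤ -0.37) : ‖HH β (x + y * I) - 1‖ ≤ 1.1065 * β := by
  refine J_box 1.595 1.755 0.42 0 (-0.37) 1.5349 1.8046 1.8647 0.7181 0.5448 4.7117 22.2 1.1758 5.705 1.724 0.3574 0.7674 0.4666 0.8913 1.7578 0.9002 2.7084 3.619 2.9966 0.0000003101 0.00003174 0.0000003101 0.0000003101 0.0000003101 0.0000003101 0.0000003101 0.0000003101 1.1065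
    hβ hN hx1 hx2 hy1 hy2 (by norm_num) (by norm_num) (by norm_num) (by norm_num) (by norm_num) (by norm_num) (by norm_num) (by norm_num) (by norm_num) (by norm_num) (by norm_num) (by norm_num) (by norm_num) (by norm_num) (by norm_num) (by norm_num) (by norm_num) (by norm_num) (by norm_num) (by norm_num) (by norm_num) (by norm_num) (by norm_num) (by norm_num)
    (cube_sqrt_geJ (s := 0.7797) (by norm_num) (by norm_num) (by norm_num) (by norm_num))
    (cube_sqrt_geJ (s := 0.9252) (by norm_num) (by norm_num) (by norm_num) (by norm_num))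
    (by norm_num) (by norm_num) (by norm_num) (by norm_num) (by norm_num) (by norm_num) (by norm_num) (by norm_num) (by norm_num) (by norm_num) (by norm_num) (by norm_num) (by norm_num) (by norm_num) (by norm_num) (by norm_num) (by norm_num) (by norm_num)
    (exp_neg_leJ (r := 0.99) 14 (by norm_num) (by norm_num) (by norm_num) (by norm_num))
    (exp_neg_leJ (r := 0.358) 10 (by norm_num) (by norm_num) (by norm_num) (by norm_num))
    (exp_neg_leJ (r := 0.99) 14 (by norm_num) (by norm_num) (by norm_num) (by norm_num))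
    (exp_neg_leJ (r := 0.99) 14 (by norm_num) (by norm_num) (by norm_num) (by norm_num))
    (exp_neg_leJ (r := 0.99) 14 (by norm_num) (by norm_num) (by norm_num) (by norm_num))
    (exp_neg_leJ (r := 0.99) 14 (by norm_num) (by norm_num) (by norm_num) (by norm_num))
    (exp_neg_leJ (r := 0.99) 14 (by norm_num) (by norm_num) (by norm_num) (by norm_num))
    (exp_neg_leJ (r := 0.99) 14 (by norm_num) (by norm_num) (by norm_num) (by norm_num))
    (by norm_num)

private theorem bxc13 {β x y : ℝ} (hβ : 0 < β) (hN : β * 22.2 ≤ 1) (hx1 : 1.755 ≤ x) (hx2 : x ≤ 1.93)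
    (hy1 : -0.42 ≤ y) (hy2 : y ≤ -0.37) : ‖HH β (x + y * I) - 1‖ ≤ 1.107 * β := by
  refine J_box 1.755 1.93 0.42 0 (-0.37) 1.6476 1.9752 2.0303 0.6738 0.5685 4.7117 22.2 1.1989 5.965 1.744 0.2901 0.8237 0.4945 0.946 1.6578 0.978 2.9299 3.939 2.8529 0.0000003101 0.00001715 0.0000003101 0.0000003101 0.0000003101 0.0000003101 0.0000003101 0.0000003101 1.107
    hβ hN hx1 hx2 hy1 hy2 (by norm_num) (by norm_num) (by norm_num) (by norm_num) (by norm_num) (by norm_num) (by norm_num) (by norm_num) (by norm_num) (by norm_num) (by norm_num) (by norm_num) (by norm_num) (by norm_num) (by norm_num) (by norm_num) (by norm_num) (by norm_num) (by norm_num) (by norm_num) (by norm_num) (by norm_num) (by norm_num) (by norm_num)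
    (cube_sqrt_geJ (s := 0.7748) (by norm_num) (by norm_num) (by norm_num) (by norm_num))
    (cube_sqrt_geJ (s := 0.9236) (by norm_num) (by norm_num) (by norm_num) (by norm_num))
    (by norm_num) (by norm_num) (by norm_num) (by norm_num) (by norm_num) (by norm_num) (by norm_num) (by norm_num) (by norm_num) (by norm_num) (by norm_num) (by norm_num) (by norm_num) (by norm_num) (by norm_num) (by norm_num) (by norm_num) (by norm_num)
    (exp_neg_leJ (r := 0.99) 14 (by norm_num) (by norm_num) (by norm_num) (by norm_num))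
    (exp_neg_leJ (r := 0.977) 10 (by norm_num) (by norm_num) (by norm_num) (by norm_num))
    (exp_neg_leJ (r := 0.99) 14 (by norm_num) (by norm_num) (by norm_num) (by norm_num))
    (exp_neg_leJ (r := 0.99) 14 (by norm_num) (by norm_num) (by norm_num) (by norm_num))
    (exp_neg_leJ (r := 0.99) 14 (by norm_num) (by norm_num) (by norm_num) (by norm_num))
    (exp_neg_leJ (r := 0.99) 14 (by norm_num) (by norm_num) (by norm_num) (by norm_num))
    (exp_neg_leJ (r := 0.99) 14 (by norm_num) (by norm_num) (by norm_num) (by norm_num))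
    (exp_neg_leJ (r := 0.99) 14 (by norm_num) (by norm_num) (by norm_num) (by norm_num))
    (by norm_num)

private theorem bxc14 {β x y : ℝ} (hβ : 0 < β) (hN : β * 22.2 ≤ 1) (hx1 : 1.93 ≤ x) (hx2 : x ≤ 2.12)
    (hy1 : -0.42 ≤ y) (hy2 : y ≤ -0.37) : ‖HH β (x + y * I) - 1‖ ≤ 1.1018 * β := by
  refine J_box 1.93 2.12 0.42 0 (-0.37) 1.7708 2.1613 2.2117 0.6312 0.5933 4.7117 22.2 1.2206 6.223 1.763 0.217 0.8853 0.5251 1.0059 1.549 1.063 3.1723 4.289 2.697 0.0000003101 0.000008664 0.0000003101 0.0000003101 0.0000003101 0.0000003101 0.0000003101 0.0000003101 1.1018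
    hβ hN hx1 hx2 hy1 hy2 (by norm_num) (by norm_num) (by norm_num) (by norm_num) (by norm_num) (by norm_num) (by norm_num) (by norm_num) (by norm_num) (by norm_num) (by norm_num) (by norm_num) (by norm_num) (by norm_num) (by norm_num) (by norm_num) (by norm_num) (by norm_num) (by norm_num) (by norm_num) (by norm_num) (by norm_num) (by norm_num) (by norm_num)
    (cube_sqrt_geJ (s := 0.7701) (by norm_num) (by norm_num) (by norm_num) (by norm_num))
    (cube_sqrt_geJ (s := 0.9222) (by norm_num) (by norm_num) (by norm_num) (by norm_num))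
    (by norm_num) (by norm_num) (by norm_num) (by norm_num) (by norm_num) (by norm_num) (by norm_num) (by norm_num) (by norm_num) (by norm_num) (by norm_num) (by norm_num) (by norm_num) (by norm_num) (by norm_num) (by norm_num) (by norm_num) (by norm_num)
    (exp_neg_leJ (r := 0.99) 14 (by norm_num) (by norm_num) (by norm_num) (by norm_num))
    (exp_neg_leJ (r := 0.657) 11 (by norm_num) (by norm_num) (by norm_num) (by norm_num))
    (exp_neg_leJ (r := 0.99) 14 (by norm_num) (by norm_num) (by norm_num) (by norm_num))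
    (exp_neg_leJ (r := 0.99) 14 (by norm_num) (by norm_num) (by norm_num) (by norm_num))
    (exp_neg_leJ (r := 0.99) 14 (by norm_num) (by norm_num) (by norm_num) (by norm_num))
    (exp_neg_leJ (r := 0.99) 14 (by norm_num) (by norm_num) (by norm_num) (by norm_num))
    (exp_neg_leJ (r := 0.99) 14 (by norm_num) (by norm_num) (by norm_num) (by norm_num))
    (exp_neg_leJ (r := 0.99) 14 (by norm_num) (by norm_num) (by norm_num) (by norm_num))
    (by norm_num)

theorem JN2_c {β x y κ : ℝ} (hβ : 0 < β) (hx : 0 < x) (hκ : κ = ‖(x + y * I : ℂ)‖ * Real.exp y)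
    (hκ0 : 0 < κ) (hR : β * (11.1 * (1 + κ ^ 2)) ≤ κ) (hx1 : 0.125 ≤ x) (hx2 : x ≤ 2.12) (hy1 : -0.42 ≤ y) (hy2 : y ≤ -0.37) :
    ‖HH β (x + y * I) - 1‖ ≤ 0.05 := by
  have hw : Real.exp y ≤ 0.6908 := (Real.exp_le_exp.2 hy2).trans exp_wc
  have hya : |y| ≤ 0.42 := by rw [abs_le]; constructor <;> linarith
  have hym : -0.42 ≤ y := by linarith
  have h20 := bN20 (N := 22.2) (by norm_num) (by norm_num) hβ hκ0 hR
  rcases le_total x 0.2 with f0 | g0
  · exact epsOf hβ (bN 11.1 0.4652 0.6908 0.3214 38.1 0.2 0.42 (by norm_num) hβ hx hκ hκ0 hR f0 hya hw (by norm_num) (by norm_num) (by norm_num) (by norm_num) (by norm_num) (by norm_num)) (by norm_num) (by norm_num) (bxc0 hβ (bN 11.1 0.4652 0.6908 0.3214 38.1 0.2 0.42 (by norm_num) hβ hx hκ hκ0 hR f0 hya hw (by norm_num) (by norm_num) (by norm_num) (by norm_num) (by norm_num) (by norm_num)) hx1 f0 hym hy2)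
  rcases le_total x 0.31 with f1 | g1
  · exact epsOf hβ (bN 11.1 0.5221 0.6908 0.3607 34.77 0.31 0.42 (by norm_num) hβ hx hκ hκ0 hR f1 hya hw (by norm_num) (by norm_num) (by norm_num) (by norm_num) (by norm_num) (by norm_num)) (by norm_num) (by norm_num) (bxc1 hβ (bN 11.1 0.5221 0.6908 0.3607 34.77 0.31 0.42 (by norm_num) hβ hx hκ hκ0 hR f1 hya hw (by norm_num) (by norm_num) (by norm_num) (by norm_num) (by norm_num) (by norm_num)) g0 f1 hym hy2)
  rcases le_total x 0.435 with f2 | g2
  · exact epsOf hβ (bN 11.1 0.6047 0.6908 0.4178 31.2 0.435 0.42 (by norm_num) hβ hx hκ hκ0 hR f2 hya hw (by norm_num) (by norm_num) (by norm_num) (by norm_num) (by norm_num) (by norm_num)) (by norm_num) (by norm_num) (bxc2 hβ (bN 11.1 0.6047 0.6908 0.4178 31.2 0.435 0.42 (by norm_num) hβ hx hκ hκ0 hR f2 hya hw (by norm_num) (by norm_num) (by norm_num) (by norm_num) (by norm_num) (by norm_num)) g1 f2 hym hy2)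
  rcases le_total x 0.565 with f3 | g3
  · exact epsOf hβ (bN 11.1 0.7041 0.6908 0.4864 28.21 0.565 0.42 (by norm_num) hβ hx hκ hκ0 hR f3 hya hw (by norm_num) (by norm_num) (by norm_num) (by norm_num) (by norm_num) (by norm_num)) (by norm_num) (by norm_num) (bxc3 hβ (bN 11.1 0.7041 0.6908 0.4864 28.21 0.565 0.42 (by norm_num) hβ hx hκ hκ0 hR f3 hya hw (by norm_num) (by norm_num) (by norm_num) (by norm_num) (by norm_num) (by norm_num)) g2 f3 hym hy2)
  rcases le_total x 0.695 with f4 | g4
  · exact epsOf hβ (bN 11.1 0.8121 0.6908 0.561 26.01 0.695 0.42 (by norm_num) hβ hx hκ hκ0 hR f4 hya hw (by norm_num) (by norm_num) (by norm_num) (by norm_num) (by norm_num) (by norm_num)) (by norm_num) (by norm_num) (bxc4 hβ (bN 11.1 0.8121 0.6908 0.561 26.01 0.695 0.42 (by norm_num) hβ hx hκ hκ0 hR f4 hya hw (by norm_num) (by norm_num) (by norm_num) (by norm_num) (by norm_num) (by norm_num)) g3 f4 hym hy2)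
  rcases le_total x 0.82 with f5 | g5
  · exact epsOf hβ (bN 11.1 0.9214 0.6908 0.6366 24.5 0.82 0.42 (by norm_num) hβ hx hκ hκ0 hR f5 hya hw (by norm_num) (by norm_num) (by norm_num) (by norm_num) (by norm_num) (by norm_num)) (by norm_num) (by norm_num) (bxc5 hβ (bN 11.1 0.9214 0.6908 0.6366 24.5 0.82 0.42 (by norm_num) hβ hx hκ hκ0 hR f5 hya hw (by norm_num) (by norm_num) (by norm_num) (by norm_num) (by norm_num) (by norm_num)) g4 f5 hym hy2)
  rcases le_total x 0.94 with f6 | g6
  · exact epsOf hβ (bN 11.1 1.0296 0.6908 0.7113 23.5 0.94 0.42 (by norm_num) hβ hx hκ hκ0 hR f6 hya hw (by norm_num) (by norm_num) (by norm_num) (by norm_num) (by norm_num) (by norm_num)) (by norm_num) (by norm_num) (bxc6 hβ (bN 11.1 1.0296 0.6908 0.7113 23.5 0.94 0.42 (by norm_num) hβ hx hκ hκ0 hR f6 hya hw (by norm_num) (by norm_num) (by norm_num) (by norm_num) (by norm_num) (by norm_num)) g5 f6 hym hy2)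
  rcases le_total x 1.06 with f7 | g7
  · exact epsOf hβ (bN 11.1 1.1402 0.6908 0.7877 22.83 1.06 0.42 (by norm_num) hβ hx hκ hκ0 hR f7 hya hw (by norm_num) (by norm_num) (by norm_num) (by norm_num) (by norm_num) (by norm_num)) (by norm_num) (by norm_num) (bxc7 hβ (bN 11.1 1.1402 0.6908 0.7877 22.83 1.06 0.42 (by norm_num) hβ hx hκ hκ0 hR f7 hya hw (by norm_num) (by norm_num) (by norm_num) (by norm_num) (by norm_num) (by norm_num)) g6 f7 hym hy2)
  rcases le_total x 1.185 with f8 | g8
  · exact epsOf hβ (bN 11.1 1.2573 0.6908 0.8686 22.42 1.185 0.42 (by norm_num) hβ hx hκ hκ0 hR f8 hya hw (by norm_num) (by norm_num) (by norm_num) (by norm_num) (by norm_num) (by norm_num)) (by norm_num) (by norm_num) (bxc8 hβ (bN 11.1 1.2573 0.6908 0.8686 22.42 1.185 0.42 (by norm_num) hβ hx hκ hκ0 hR f8 hya hw (by norm_num) (by norm_num) (by norm_num) (by norm_num) (by norm_num) (by norm_num)) g7 f8 hym hy2)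
  rcases le_total x 1.315 with f9 | g9
  · exact epsOf hβ (bN 11.1 1.3805 0.6908 0.9537 22.22 1.315 0.42 (by norm_num) hβ hx hκ hκ0 hR f9 hya hw (by norm_num) (by norm_num) (by norm_num) (by norm_num) (by norm_num) (by norm_num)) (by norm_num) (by norm_num) (bxc9 hβ (bN 11.1 1.3805 0.6908 0.9537 22.22 1.315 0.42 (by norm_num) hβ hx hκ hκ0 hR f9 hya hw (by norm_num) (by norm_num) (by norm_num) (by norm_num) (by norm_num) (by norm_num)) g8 f9 hym hy2)
  rcases le_total x 1.45 with f10 | g10
  · exact epsOf hβ h20 (by norm_num) (by norm_num) (bxc10 hβ h20 g9 f10 hym hy2)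
  rcases le_total x 1.595 with f11 | g11
  · exact epsOf hβ h20 (by norm_num) (by norm_num) (bxc11 hβ h20 g10 f11 hym hy2)
  rcases le_total x 1.755 with f12 | g12
  · exact epsOf hβ h20 (by norm_num) (by norm_num) (bxc12 hβ h20 g11 f12 hym hy2)
  rcases le_total x 1.93 with f13 | g13
  · exact epsOf hβ h20 (by norm_num) (by norm_num) (bxc13 hβ h20 g12 f13 hym hy2)
  exact epsOf hβ h20 (by norm_num) (by norm_num) (bxc14 hβ h20 g13 hx2 hym hy2)

end Sok
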