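import Mathlib
import Pool.Agent.Lib.MP_816dec_an.JBox

/-!
MP_816dec_an: `‖HH - 1‖ ≤ 0.05` for `R ≥ 11.1 (1+κ²)`, `-0.37 ≤ y ≤ -0.325`.
-/

set_option autoImplicit false
set_option maxHeartbeats 4000000

open Complex Set

namespace Sok

/-- `β N0 ≤ 1` from `R ≥ c (1+κ²)` -/
private theorem bN {β x y κ : ℝ} (c s1 w K N0 x2 ym : ℝ) (hc : 0 < c) (hβ : 0 < β) (hx : 0 < x)
    (hκ : κ = ‖(x + y * I : ℂ)‖ * Real.exp y) (hκ0 : 0 < κ) (hR : β * (c * (1 + κ ^ 2)) ≤ κ)
    (hx2 : x ≤ x2) (hy : |y| ≤ ym) (hw : Real.exp y ≤ w) (hs : x2 ^ 2 + ym ^ 2 ≤ s1 ^ 2) (hs0 : 0 ≤ s1)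
    (hK : s1 * w ≤ K) (hK0 : 0 < K) (hK1 : K ≤ 1) (hN : N0 * K ≤ c * (1 + K ^ 2)) : β * N0 ≤ 1 := by
  have hn2 : ‖(x + y * I : ℂ)‖ ^ 2 = x ^ 2 + y ^ 2 := by
    rw [← Complex.normSq_eq_norm_sq, Complex.normSq_apply]
    simp
    ring
  have hn : ‖(x + y * I : ℂ)‖ ≤ s1 := by
    apply le_of_sq_le_sq _ hs0
    rw [hn2]
    have h1 : x ^ 2 ≤ x2 ^ 2 := pow_le_pow_left₀ hx.le hx2 2
    have h2 : y ^ 2 ≤ ym ^ 2 := by
      rw [← sq_abs y]; exact pow_le_pow_left₀ (abs_nonneg y) hy 2
    linarith
  have hκK : κ ≤ K := by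
    rw [hκ]
    refine le_trans ?_ hK
    exact mul_le_mul hn hw (Real.exp_pos _).le hs0
  have h1 : κ * (1 + K ^ 2) ≤ K * (1 + κ ^ 2) := by
    have h3 : 0 ≤ 1 - κ * K := by nlinarith
    have := mul_nonneg (sub_nonneg.2 hκK) h3
    linarith
  have h2 : N0 * κ ≤ c * (1 + κ ^ 2) := by
    have h3 : N0 * K * κ ≤ c * (1 + K ^ 2) * κ := mul_le_mul_of_nonneg_right hN hκ0.le
    have h4 : N0 * κ * K ≤ c * (1 + κ ^ 2) * K := by
      have := mul_le_mul_of_nonneg_left h1 hc.le
      linarith
    exact le_of_mul_le_mul_right h4 hK0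
  have h5 : β * (N0 * κ) ≤ κ := (mul_le_mul_of_nonneg_left h2 hβ.le).trans hR
  have h6 : (β * N0) * κ ≤ 1 * κ := by linarith
  exact le_of_mul_le_mul_right h6 hκ0

private theorem bN20 {β κ c N : ℝ} (hc : 0 < c) (hN : N = 2 * c) (hβ : 0 < β) (hκ0 : 0 < κ)
    (hR : β * (c * (1 + κ ^ 2)) ≤ κ) : β * N ≤ 1 := by
  have h2 : N * κ ≤ c * (1 + κ ^ 2) := by
    rw [hN]
    have := mul_nonneg hc.le (sq_nonneg (κ - 1))
    linarith
  have h5 : β * (N * κ) ≤ κ := (mul_le_mul_of_nonneg_left h2 hβ.le).trans hR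
  have h6 : (β * N) * κ ≤ 1 * κ := by linarith
  exact le_of_mul_le_mul_right h6 hκ0

private theorem epsOf {β C N ε v : ℝ} (hβ : 0 < β) (hN : β * N ≤ 1) (hε : 0 ≤ ε) (hC : C ≤ ε * N) (h : v ≤ C * β) : v ≤ ε := by
  have h1 : C * β ≤ ε * N * β := mul_le_mul_of_nonneg_right hC hβ.le
  have h2 : ε * (β * N) ≤ ε * 1 := mul_le_mul_of_nonneg_left hN hε
  linarith

private theorem exp_wd : Real.exp (-0.325) ≤ 0.7226 := by
  rw [Real.exp_neg, inv_le_comm₀ (Real.exp_pos _) (by norm_num)]
  have h := Real.sum_le_exp_of_nonneg (x := 0.325) (by norm_num) 7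
  refine le_trans ?_ h
  norm_num [Finset.sum_range_succ, Nat.factorial]

private theorem bxd0 {β x y : ℝ} (hβ : 0 < β) (hN : β * 34.95 ≤ 1) (hx1 : 0.13 ≤ x) (hx2 : x ≤ 0.33)
    (hy1 : -0.37 ≤ y) (hy2 : y ≤ -0.325) : ‖HH β (x + y * I) - 1‖ ≤ 1.7421 * β := by
  refine J_box 0.13 0.33 0.37 0 (-0.325) 0.5388 0.4958 0.7514 2.1918 0.3459 5.9119 34.95 0.9202 3.605 1.52 0.9516 0.2693 0.1867 0.4687 2.7072 0.216 0.6799 0.8249 3.6243 0.00008175 0.001467 0.0000003101 0.0000003101 0.0005268 0.0000003101 0.0000003101 0.0000003101 1.7421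
    hβ hN hx1 hx2 hy1 hy2 (by norm_num) (by norm_num) (by norm_num) (by norm_num) (by norm_num) (by norm_num) (by norm_num) (by norm_num) (by norm_num) (by norm_num) (by norm_num) (by norm_num) (by norm_num) (by norm_num) (by norm_num) (by norm_num) (by norm_num) (by norm_num) (by norm_num) (by norm_num) (by norm_num) (by norm_num) (by norm_num) (by norm_num)
    (cube_sqrt_geJ (s := 0.8326) (by norm_num) (by norm_num) (by norm_num) (by norm_num))
    (cube_sqrt_geJ (s := 0.9419) (by norm_num) (by norm_num) (by norm_num) (by norm_num))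
    (by norm_num) (by norm_num) (by norm_num) (by norm_num) (by norm_num) (by norm_num) (by norm_num) (by norm_num) (by norm_num) (by norm_num) (by norm_num) (by norm_num) (by norm_num) (by norm_num) (by norm_num) (by norm_num) (by norm_num) (by norm_num)
    (exp_neg_leJ (r := 0.412) 9 (by norm_num) (by norm_num) (by norm_num) (by norm_num))
    (exp_neg_leJ (r := 0.525) 6 (by norm_num) (by norm_num) (by norm_num) (by norm_num))
    (exp_neg_leJ (r := 0.99) 14 (by norm_num) (by norm_num) (by norm_num) (by norm_num))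
    (exp_neg_leJ (r := 0.99) 14 (by norm_num) (by norm_num) (by norm_num) (by norm_num))
    (exp_neg_leJ (r := 0.549) 7 (by norm_num) (by norm_num) (by norm_num) (by norm_num))
    (exp_neg_leJ (r := 0.99) 14 (by norm_num) (by norm_num) (by norm_num) (by norm_num))
    (exp_neg_leJ (r := 0.99) 14 (by norm_num) (by norm_num) (by norm_num) (by norm_num))
    (exp_neg_leJ (r := 0.99) 14 (by norm_num) (by norm_num) (by norm_num) (by norm_num))
    (by norm_num)

private theorem bxd1 {β x y : ℝ} (hβ : 0 < β) (hN : β * 28.83 ≤ 1) (hx1 : 0.33 ≤ x) (hx2 : x ≤ 0.535)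
    (hy1 : -0.37 ≤ y) (hy2 : y ≤ -0.325) : ‖HH β (x + y * I) - 1‖ ≤ 1.4358 * β := by
  refine J_box 0.33 0.535 0.37 0 (-0.325) 0.6797 0.6505 0.8614 1.6563 0.3703 5.3694 28.83 0.9571 3.838 1.548 0.8728 0.3398 0.2314 0.5372 2.6023 0.3131 0.9569 1.2249 3.6038 0.00005576 0.001268 0.0000003101 0.0000003101 0.0001203 0.0000003101 0.0000003101 0.0000003101 1.4358
    hβ hN hx1 hx2 hy1 hy2 (by norm_num) (by norm_num) (by norm_num) (by norm_num) (by norm_num) (by norm_num) (by norm_num) (by norm_num) (by norm_num) (by norm_num) (by norm_num) (by norm_num) (by norm_num) (by norm_num) (by norm_num) (by norm_num) (by norm_num) (by norm_num) (by norm_num) (by norm_num) (by norm_num) (by norm_num) (by norm_num) (by norm_num)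
    (cube_sqrt_geJ (s := 0.8252) (by norm_num) (by norm_num) (by norm_num) (by norm_num))
    (cube_sqrt_geJ (s := 0.9395) (by norm_num) (by norm_num) (by norm_num) (by norm_num))
    (by norm_num) (by norm_num) (by norm_num) (by norm_num) (by norm_num) (by norm_num) (by norm_num) (by norm_num) (by norm_num) (by norm_num) (by norm_num) (by norm_num) (by norm_num) (by norm_num) (by norm_num) (by norm_num) (by norm_num) (by norm_num)
    (exp_neg_leJ (r := 0.796) 9 (by norm_num) (by norm_num) (by norm_num) (by norm_num))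
    (exp_neg_leJ (r := 0.671) 6 (by norm_num) (by norm_num) (by norm_num) (by norm_num))
    (exp_neg_leJ (r := 0.99) 14 (by norm_num) (by norm_num) (by norm_num) (by norm_num))
    (exp_neg_leJ (r := 0.99) 14 (by norm_num) (by norm_num) (by norm_num) (by norm_num))
    (exp_neg_leJ (r := 0.026) 9 (by norm_num) (by norm_num) (by norm_num) (by norm_num))
    (exp_neg_leJ (r := 0.99) 14 (by norm_num) (by norm_num) (by norm_num) (by norm_num))
    (exp_neg_leJ (r := 0.99) 14 (by norm_num) (by norm_num) (by norm_num) (by norm_num))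
    (exp_neg_leJ (r := 0.99) 14 (by norm_num) (by norm_num) (by norm_num) (by norm_num))
    (by norm_num)

private theorem bxd2 {β x y : ℝ} (hβ : 0 < β) (hN : β * 25.33 ≤ 1) (hx1 : 0.535 ≤ x) (hx2 : x ≤ 0.73)
    (hy1 : -0.37 ≤ y) (hy2 : y ≤ -0.325) : ‖HH β (x + y * I) - 1‖ ≤ 1.2653 * β := by
  refine J_box 0.535 0.73 0.37 0 (-0.325) 0.824 0.8185 0.9943 1.3332 0.3979 5.0329 25.33 0.9934 4.087 1.575 0.7978 0.4119 0.2755 0.6073 2.4968 0.4127 1.2407 1.6349 3.5571 0.00002945 0.0009353 0.0000003101 0.0000003101 0.00002887 0.0000003101 0.0000003101 0.0000003101 1.2653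
    hβ hN hx1 hx2 hy1 hy2 (by norm_num) (by norm_num) (by norm_num) (by norm_num) (by norm_num) (by norm_num) (by norm_num) (by norm_num) (by norm_num) (by norm_num) (by norm_num) (by norm_num) (by norm_num) (by norm_num) (by norm_num) (by norm_num) (by norm_num) (by norm_num) (by norm_num) (by norm_num) (by norm_num) (by norm_num) (by norm_num) (by norm_num)
    (cube_sqrt_geJ (s := 0.8178) (by norm_num) (by norm_num) (by norm_num) (by norm_num))
    (cube_sqrt_geJ (s := 0.9372) (by norm_num) (by norm_num) (by norm_num) (by norm_num))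
    (by norm_num) (by norm_num) (by norm_num) (by norm_num) (by norm_num) (by norm_num) (by norm_num) (by norm_num) (by norm_num) (by norm_num) (by norm_num) (by norm_num) (by norm_num) (by norm_num) (by norm_num) (by norm_num) (by norm_num) (by norm_num)
    (exp_neg_leJ (r := 0.433) 10 (by norm_num) (by norm_num) (by norm_num) (by norm_num))
    (exp_neg_leJ (r := 0.978) 6 (by norm_num) (by norm_num) (by norm_num) (by norm_num))
    (exp_neg_leJ (r := 0.99) 14 (by norm_num) (by norm_num) (by norm_num) (by norm_num))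
    (exp_neg_leJ (r := 0.99) 14 (by norm_num) (by norm_num) (by norm_num) (by norm_num))
    (exp_neg_leJ (r := 0.453) 10 (by norm_num) (by norm_num) (by norm_num) (by norm_num))
    (exp_neg_leJ (r := 0.99) 14 (by norm_num) (by norm_num) (by norm_num) (by norm_num))
    (exp_neg_leJ (r := 0.99) 14 (by norm_num) (by norm_num) (by norm_num) (by norm_num))
    (exp_neg_leJ (r := 0.99) 14 (by norm_num) (by norm_num) (by norm_num) (by norm_num))
    (by norm_num)

private theorem bxd3 {β x y : ℝ} (hβ : 0 < β) (hN : β * 23.47 ≤ 1) (hx1 : 0.73 ≤ x) (hx2 : x ≤ 0.915)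
    (hy1 : -0.37 ≤ y) (hy2 : y ≤ -0.325) : ‖HH β (x + y * I) - 1‖ ≤ 1.1682 * β := by
  refine J_box 0.73 0.915 0.37 0 (-0.325) 0.9613 0.987 1.1371 1.1314 0.4255 4.8446 23.47 1.0268 4.334 1.601 0.7266 0.4806 0.3161 0.6741 2.3943 0.5074 1.5107 2.0249 3.4891 0.00001264 0.0006004 0.0000003101 0.0000003101 0.000006753 0.0000003101 0.0000003101 0.0000003101 1.1682
    hβ hN hx1 hx2 hy1 hy2 (by norm_num) (by norm_num) (by norm_num) (by norm_num) (by norm_num) (by norm_num) (by norm_num) (by norm_num) (by norm_num) (by norm_num) (by norm_num) (by norm_num) (by norm_num) (by norm_num) (by norm_num) (by norm_num) (by norm_num) (by norm_num) (by norm_num) (by norm_num) (by norm_num) (by norm_num) (by norm_num) (by norm_num)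
    (cube_sqrt_geJ (s := 0.811) (by norm_num) (by norm_num) (by norm_num) (by norm_num))
    (cube_sqrt_geJ (s := 0.935) (by norm_num) (by norm_num) (by norm_num) (by norm_num))
    (by norm_num) (by norm_num) (by norm_num) (by norm_num) (by norm_num) (by norm_num) (by norm_num) (by norm_num) (by norm_num) (by norm_num) (by norm_num) (by norm_num) (by norm_num) (by norm_num) (by norm_num) (by norm_num) (by norm_num) (by norm_num)
    (exp_neg_leJ (r := 0.279) 11 (by norm_num) (by norm_num) (by norm_num) (by norm_num))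
    (exp_neg_leJ (r := 0.418) 7 (by norm_num) (by norm_num) (by norm_num) (by norm_num))
    (exp_neg_leJ (r := 0.99) 14 (by norm_num) (by norm_num) (by norm_num) (by norm_num))
    (exp_neg_leJ (r := 0.99) 14 (by norm_num) (by norm_num) (by norm_num) (by norm_num))
    (exp_neg_leJ (r := 0.908) 11 (by norm_num) (by norm_num) (by norm_num) (by norm_num))
    (exp_neg_leJ (r := 0.99) 14 (by norm_num) (by norm_num) (by norm_num) (by norm_num))
    (exp_neg_leJ (r := 0.99) 14 (by norm_num) (by norm_num) (by norm_num) (by norm_num))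
    (exp_neg_leJ (r := 0.99) 14 (by norm_num) (by norm_num) (by norm_num) (by norm_num))
    (by norm_num)

private theorem bxd4 {β x y : ℝ} (hβ : 0 < β) (hN : β * 22.56 ≤ 1) (hx1 : 0.915 ≤ x) (hx2 : x ≤ 1.095)
    (hy1 : -0.37 ≤ y) (hy2 : y ≤ -0.325) : ‖HH β (x + y * I) - 1‖ ≤ 1.1158 * β := by
  refine J_box 0.915 1.095 0.37 0 (-0.325) 1.0916 1.1559 1.2864 0.9945 0.4525 4.7498 22.56 1.059 4.591 1.626 0.6574 0.5457 0.3531 0.7374 2.2933 0.5973 1.7669 2.3949 3.4 0.000004507 0.0003486 0.0000003101 0.0000003101 0.000001406 0.0000003101 0.0000003101 0.0000003101 1.1158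
    hβ hN hx1 hx2 hy1 hy2 (by norm_num) (by norm_num) (by norm_num) (by norm_num) (by norm_num) (by norm_num) (by norm_num) (by norm_num) (by norm_num) (by norm_num) (by norm_num) (by norm_num) (by norm_num) (by norm_num) (by norm_num) (by norm_num) (by norm_num) (by norm_num) (by norm_num) (by norm_num) (by norm_num) (by norm_num) (by norm_num) (by norm_num)
    (cube_sqrt_geJ (s := 0.8043) (by norm_num) (by norm_num) (by norm_num) (by norm_num))
    (cube_sqrt_geJ (s := 0.9329) (by norm_num) (by norm_num) (by norm_num) (by norm_num))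
    (by norm_num) (by norm_num) (by norm_num) (by norm_num) (by norm_num) (by norm_num) (by norm_num) (by norm_num) (by norm_num) (by norm_num) (by norm_num) (by norm_num) (by norm_num) (by norm_num) (by norm_num) (by norm_num) (by norm_num) (by norm_num)
    (exp_neg_leJ (r := 0.31) 12 (by norm_num) (by norm_num) (by norm_num) (by norm_num))
    (exp_neg_leJ (r := 0.965) 7 (by norm_num) (by norm_num) (by norm_num) (by norm_num))
    (exp_neg_leJ (r := 0.99) 14 (by norm_num) (by norm_num) (by norm_num) (by norm_num))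
    (exp_neg_leJ (r := 0.99) 14 (by norm_num) (by norm_num) (by norm_num) (by norm_num))
    (exp_neg_leJ (r := 0.475) 13 (by norm_num) (by norm_num) (by norm_num) (by norm_num))
    (exp_neg_leJ (r := 0.99) 14 (by norm_num) (by norm_num) (by norm_num) (by norm_num))
    (exp_neg_leJ (r := 0.99) 14 (by norm_num) (by norm_num) (by norm_num) (by norm_num))
    (exp_neg_leJ (r := 0.99) 14 (by norm_num) (by norm_num) (by norm_num) (by norm_num))
    (by norm_num)

private theorem bxd5 {β x y : ℝ} (hβ : 0 < β) (hN : β * 22.21 ≤ 1) (hx1 : 1.095 ≤ x) (hx2 : x ≤ 1.28)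
    (hy1 : -0.37 ≤ y) (hy2 : y ≤ -0.325) : ‖HH β (x + y * I) - 1‖ ≤ 1.1013 * β := by
  refine J_box 1.095 1.28 0.37 0 (-0.325) 1.2183 1.3325 1.4471 0.8946 0.48 4.7128 22.21 1.0938 4.891 1.655 0.5862 0.6091 0.387 0.799 2.1886 0.6847 2.0161 2.7549 3.2799 0.000001334 0.0001852 0.0000003101 0.0000003101 0.0000003101 0.0000003101 0.0000003101 0.0000003101 1.1013
    hβ hN hx1 hx2 hy1 hy2 (by norm_num) (by norm_num) (by norm_num) (by norm_num) (by norm_num) (by norm_num) (by norm_num) (by norm_num) (by norm_num) (by norm_num) (by norm_num) (by norm_num) (by norm_num) (by norm_num) (by norm_num) (by norm_num) (by norm_num) (by norm_num) (by norm_num) (by norm_num) (by norm_num) (by norm_num) (by norm_num) (by norm_num)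
    (cube_sqrt_geJ (s := 0.7971) (by norm_num) (by norm_num) (by norm_num) (by norm_num))
    (cube_sqrt_geJ (s := 0.9306) (by norm_num) (by norm_num) (by norm_num) (by norm_num))
    (by norm_num) (by norm_num) (by norm_num) (by norm_num) (by norm_num) (by norm_num) (by norm_num) (by norm_num) (by norm_num) (by norm_num) (by norm_num) (by norm_num) (by norm_num) (by norm_num) (by norm_num) (by norm_num) (by norm_num) (by norm_num)
    (exp_neg_leJ (r := 0.528) 13 (by norm_num) (by norm_num) (by norm_num) (by norm_num))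
    (exp_neg_leJ (r := 0.595) 8 (by norm_num) (by norm_num) (by norm_num) (by norm_num))
    (exp_neg_leJ (r := 0.99) 14 (by norm_num) (by norm_num) (by norm_num) (by norm_num))
    (exp_neg_leJ (r := 0.99) 14 (by norm_num) (by norm_num) (by norm_num) (by norm_num))
    (exp_neg_leJ (r := 0.99) 14 (by norm_num) (by norm_num) (by norm_num) (by norm_num))
    (exp_neg_leJ (r := 0.99) 14 (by norm_num) (by norm_num) (by norm_num) (by norm_num))
    (exp_neg_leJ (r := 0.99) 14 (by norm_num) (by norm_num) (by norm_num) (by norm_num))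
    (exp_neg_leJ (r := 0.99) 14 (by norm_num) (by norm_num) (by norm_num) (by norm_num))
    (by norm_num)

private theorem bxd6 {β x y : ℝ} (hβ : 0 < β) (hN : β * 22.2 ≤ 1) (hx1 : 1.28 ≤ x) (hx2 : x ≤ 1.475)
    (hy1 : -0.37 ≤ y) (hy2 : y ≤ -0.325) : ‖HH β (x + y * I) - 1‖ ≤ 1.0974 * β := by
  refine J_box 1.28 1.475 0.37 0 (-0.325) 1.3486 1.5207 1.6222 0.8133 0.5082 4.7117 22.2 1.1277 5.208 1.683 0.5112 0.6742 0.4208 0.8624 2.0777 0.7746 2.2723 3.1249 3.1383 0.0000003172 0.00008776 0.0000003101 0.0000003101 0.0000003101 0.0000003101 0.0000003101 0.0000003101 1.0974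
    hβ hN hx1 hx2 hy1 hy2 (by norm_num) (by norm_num) (by norm_num) (by norm_num) (by norm_num) (by norm_num) (by norm_num) (by norm_num) (by norm_num) (by norm_num) (by norm_num) (by norm_num) (by norm_num) (by norm_num) (by norm_num) (by norm_num) (by norm_num) (by norm_num) (by norm_num) (by norm_num) (by norm_num) (by norm_num) (by norm_num) (by norm_num)
    (cube_sqrt_geJ (s := 0.7899) (by norm_num) (by norm_num) (by norm_num) (by norm_num))
    (cube_sqrt_geJ (s := 0.9283) (by norm_num) (by norm_num) (by norm_num) (by norm_num))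
    (by norm_num) (by norm_num) (by norm_num) (by norm_num) (by norm_num) (by norm_num) (by norm_num) (by norm_num) (by norm_num) (by norm_num) (by norm_num) (by norm_num) (by norm_num) (by norm_num) (by norm_num) (by norm_num) (by norm_num) (by norm_num)
    (exp_neg_leJ (r := 0.967) 14 (by norm_num) (by norm_num) (by norm_num) (by norm_num))
    (exp_neg_leJ (r := 0.341) 9 (by norm_num) (by norm_num) (by norm_num) (by norm_num))
    (exp_neg_leJ (r := 0.99) 14 (by norm_num) (by norm_num) (by norm_num) (by norm_num))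
    (exp_neg_leJ (r := 0.99) 14 (by norm_num) (by norm_num) (by norm_num) (by norm_num))
    (exp_neg_leJ (r := 0.99) 14 (by norm_num) (by norm_num) (by norm_num) (by norm_num))
    (exp_neg_leJ (r := 0.99) 14 (by norm_num) (by norm_num) (by norm_num) (by norm_num))
    (exp_neg_leJ (r := 0.99) 14 (by norm_num) (by norm_num) (by norm_num) (by norm_num))
    (exp_neg_leJ (r := 0.99) 14 (by norm_num) (by norm_num) (by norm_num) (by norm_num))
    (by norm_num)

private theorem bxd7 {β x y : ℝ} (hβ : 0 < β) (hN : β * 22.2 ≤ 1) (hx1 : 1.475 ≤ x) (hx2 : x ≤ 1.685)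
    (hy1 : -0.37 ≤ y) (hy2 : y ≤ -0.325) : ‖HH β (x + y * I) - 1‖ ≤ 1.1003 * β := by
  refine J_box 1.475 1.685 0.37 0 (-0.325) 1.4859 1.7252 1.8152 0.7439 0.5375 4.7117 22.2 1.1611 5.547 1.711 0.4305 0.7429 0.4554 0.9291 1.9577 0.8693 2.5423 3.5149 2.9724 0.0000003101 0.00004072 0.0000003101 0.0000003101 0.0000003101 0.0000003101 0.0000003101 0.0000003101 1.1003
    hβ hN hx1 hx2 hy1 hy2 (by norm_num) (by norm_num) (by norm_num) (by norm_num) (by norm_num) (by norm_num) (by norm_num) (by norm_num) (by norm_num) (by norm_num) (by norm_num) (by norm_num) (by norm_num) (by norm_num) (by norm_num) (by norm_num) (by norm_num) (by norm_num) (by norm_num) (by norm_num) (by norm_num) (by norm_num) (by norm_num) (by norm_num)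
    (cube_sqrt_geJ (s := 0.7829) (by norm_num) (by norm_num) (by norm_num) (by norm_num))
    (cube_sqrt_geJ (s := 0.9261) (by norm_num) (by norm_num) (by norm_num) (by norm_num))
    (by norm_num) (by norm_num) (by norm_num) (by norm_num) (by norm_num) (by norm_num) (by norm_num) (by norm_num) (by norm_num) (by norm_num) (by norm_num) (by norm_num) (by norm_num) (by norm_num) (by norm_num) (by norm_num) (by norm_num) (by norm_num)
    (exp_neg_leJ (r := 0.99) 14 (by norm_num) (by norm_num) (by norm_num) (by norm_num))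
    (exp_neg_leJ (r := 0.109) 10 (by norm_num) (by norm_num) (by norm_num) (by norm_num))
    (exp_neg_leJ (r := 0.99) 14 (by norm_num) (by norm_num) (by norm_num) (by norm_num))
    (exp_neg_leJ (r := 0.99) 14 (by norm_num) (by norm_num) (by norm_num) (by norm_num))
    (exp_neg_leJ (r := 0.99) 14 (by norm_num) (by norm_num) (by norm_num) (by norm_num))
    (exp_neg_leJ (r := 0.99) 14 (by norm_num) (by norm_num) (by norm_num) (by norm_num))
    (exp_neg_leJ (r := 0.99) 14 (by norm_num) (by norm_num) (by norm_num) (by norm_num))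
    (exp_neg_leJ (r := 0.99) 14 (by norm_num) (by norm_num) (by norm_num) (by norm_num))
    (by norm_num)

private theorem bxd8 {β x y : ℝ} (hβ : 0 < β) (hN : β * 22.2 ≤ 1) (hx1 : 1.685 ≤ x) (hx2 : x ≤ 1.915)
    (hy1 : -0.37 ≤ y) (hy2 : y ≤ -0.325) : ‖HH β (x + y * I) - 1‖ ≤ 1.1054 * β := by
  refine J_box 1.685 1.915 0.37 0 (-0.325) 1.6338 1.9505 2.0305 0.6824 0.5685 4.7117 22.2 1.1939 5.907 1.739 0.342 0.8168 0.4918 1.001 1.826 0.9713 2.833 3.9349 2.78 0.0000003101 0.0000182 0.0000003101 0.0000003101 0.0000003101 0.0000003101 0.0000003101 0.0000003101 1.1054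
    hβ hN hx1 hx2 hy1 hy2 (by norm_num) (by norm_num) (by norm_num) (by norm_num) (by norm_num) (by norm_num) (by norm_num) (by norm_num) (by norm_num) (by norm_num) (by norm_num) (by norm_num) (by norm_num) (by norm_num) (by norm_num) (by norm_num) (by norm_num) (by norm_num) (by norm_num) (by norm_num) (by norm_num) (by norm_num) (by norm_num) (by norm_num)
    (cube_sqrt_geJ (s := 0.7759) (by norm_num) (by norm_num) (by norm_num) (by norm_num))
    (cube_sqrt_geJ (s := 0.924) (by norm_num) (by norm_num) (by norm_num) (by norm_num))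
    (by norm_num) (by norm_num) (by norm_num) (by norm_num) (by norm_num) (by norm_num) (by norm_num) (by norm_num) (by norm_num) (by norm_num) (by norm_num) (by norm_num) (by norm_num) (by norm_num) (by norm_num) (by norm_num) (by norm_num) (by norm_num)
    (exp_neg_leJ (r := 0.99) 14 (by norm_num) (by norm_num) (by norm_num) (by norm_num))
    (exp_neg_leJ (r := 0.917) 10 (by norm_num) (by norm_num) (by norm_num) (by norm_num))
    (exp_neg_leJ (r := 0.99) 14 (by norm_num) (by norm_num) (by norm_num) (by norm_num))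
    (exp_neg_leJ (r := 0.99) 14 (by norm_num) (by norm_num) (by norm_num) (by norm_num))
    (exp_neg_leJ (r := 0.99) 14 (by norm_num) (by norm_num) (by norm_num) (by norm_num))
    (exp_neg_leJ (r := 0.99) 14 (by norm_num) (by norm_num) (by norm_num) (by norm_num))
    (exp_neg_leJ (r := 0.99) 14 (by norm_num) (by norm_num) (by norm_num) (by norm_num))
    (exp_neg_leJ (r := 0.99) 14 (by norm_num) (by norm_num) (by norm_num) (by norm_num))
    (by norm_num)

private theorem bxd9 {β x y : ℝ} (hβ : 0 < β) (hN : β * 22.2 ≤ 1) (hx1 : 1.915 ≤ x) (hx2 : x ≤ 2.02)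
    (hy1 : -0.37 ≤ y) (hy2 : y ≤ -0.325) : ‖HH β (x + y * I) - 1‖ ≤ 0.8534 * β := by
  refine J_box 1.915 2.02 0.37 0 (-0.325) 1.7957 2.0537 2.1298 0.6065 0.5823 4.7117 22.2 1.1437 5.367 1.696 0.3016 0.8978 0.5555 1.0797 1.7658 1.083 3.1515 4.3949 2.9595 0.0000003101 0.000004409 0.0000003101 0.0000003101 0.0000003101 0.0000003101 0.0000003101 0.0000003101 0.8534
    hβ hN hx1 hx2 hy1 hy2 (by norm_num) (by norm_num) (by norm_num) (by norm_num) (by norm_num) (by norm_num) (by norm_num) (by norm_num) (by norm_num) (by norm_num) (by norm_num) (by norm_num) (by norm_num) (by norm_num) (by norm_num) (by norm_num) (by norm_num) (by norm_num) (by norm_num) (by norm_num) (by norm_num) (by norm_num) (by norm_num) (by norm_num)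
    (cube_sqrt_geJ (s := 0.7866) (by norm_num) (by norm_num) (by norm_num) (by norm_num))
    (cube_sqrt_geJ (s := 0.9273) (by norm_num) (by norm_num) (by norm_num) (by norm_num))
    (by norm_num) (by norm_num) (by norm_num) (by norm_num) (by norm_num) (by norm_num) (by norm_num) (by norm_num) (by norm_num) (by norm_num) (by norm_num) (by norm_num) (by norm_num) (by norm_num) (by norm_num) (by norm_num) (by norm_num) (by norm_num)
    (exp_neg_leJ (r := 0.99) 14 (by norm_num) (by norm_num) (by norm_num) (by norm_num))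
    (exp_neg_leJ (r := 0.332) 12 (by norm_num) (by norm_num) (by norm_num) (by norm_num))
    (exp_neg_leJ (r := 0.99) 14 (by norm_num) (by norm_num) (by norm_num) (by norm_num))
    (exp_neg_leJ (r := 0.99) 14 (by norm_num) (by norm_num) (by norm_num) (by norm_num))
    (exp_neg_leJ (r := 0.99) 14 (by norm_num) (by norm_num) (by norm_num) (by norm_num))
    (exp_neg_leJ (r := 0.99) 14 (by norm_num) (by norm_num) (by norm_num) (by norm_num))
    (exp_neg_leJ (r := 0.99) 14 (by norm_num) (by norm_num) (by norm_num) (by norm_num))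
    (exp_neg_leJ (r := 0.99) 14 (by norm_num) (by norm_num) (by norm_num) (by norm_num))
    (by norm_num)

theorem JN2_d {β x y κ : ℝ} (hβ : 0 < β) (hx : 0 < x) (hκ : κ = ‖(x + y * I : ℂ)‖ * Real.exp y)
    (hκ0 : 0 < κ) (hR : β * (11.1 * (1 + κ ^ 2)) ≤ κ) (hx1 : 0.13 ≤ x) (hx2 : x ≤ 2.02) (hy1 : -0.37 ≤ y) (hy2 : y ≤ -0.325) :
    ‖HH β (x + y * I) - 1‖ ≤ 0.05 := by
  have hw : Real.exp y ≤ 0.7226 := (Real.exp_le_exp.2 hy2).trans exp_wd
  have hya : |y| ≤ 0.37 := by rw [abs_le]; constructor <;> linarith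
  have hym : -0.37 ≤ y := by linarith
  have h20 := bN20 (N := 22.2) (by norm_num) (by norm_num) hβ hκ0 hR
  rcases le_total x 0.33 with f0 | g0
  · exact epsOf hβ (bN 11.1 0.4958 0.7226 0.3583 34.95 0.33 0.37 (by norm_num) hβ hx hκ hκ0 hR f0 hya hw (by norm_num) (by norm_num) (by norm_num) (by norm_num) (by norm_num) (by norm_num)) (by norm_num) (by norm_num) (bxd0 hβ (bN 11.1 0.4958 0.7226 0.3583 34.95 0.33 0.37 (by norm_num) hβ hx hκ hκ0 hR f0 hya hw (by norm_num) (by norm_num) (by norm_num) (by norm_num) (by norm_num) (by norm_num)) hx1 f0 hym hy2)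
  rcases le_total x 0.535 with f1 | g1
  · exact epsOf hβ (bN 11.1 0.6505 0.7226 0.4701 28.83 0.535 0.37 (by norm_num) hβ hx hκ hκ0 hR f1 hya hw (by norm_num) (by norm_num) (by norm_num) (by norm_num) (by norm_num) (by norm_num)) (by norm_num) (by norm_num) (bxd1 hβ (bN 11.1 0.6505 0.7226 0.4701 28.83 0.535 0.37 (by norm_num) hβ hx hκ hκ0 hR f1 hya hw (by norm_num) (by norm_num) (by norm_num) (by norm_num) (by norm_num) (by norm_num)) g0 f1 hym hy2)
  rcases le_total x 0.73 with f2 | g2
  · exact epsOf hβ (bN 11.1 0.8185 0.7226 0.5915 25.33 0.73 0.37 (by norm_num) hβ hx hκ hκ0 hR f2 hya hw (by norm_num) (by norm_num) (by norm_num) (by norm_num) (by norm_num) (by norm_num)) (by norm_num) (by norm_num) (bxd2 hβ (bN 11.1 0.8185 0.7226 0.5915 25.33 0.73 0.37 (by norm_num) hβ hx hκ hκ0 hR f2 hya hw (by norm_num) (by norm_num) (by norm_num) (by norm_num) (by norm_num) (by norm_num)) g1 f2 hym hy2)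
  rcases le_total x 0.915 with f3 | g3
  · exact epsOf hβ (bN 11.1 0.987 0.7226 0.7133 23.47 0.915 0.37 (by norm_num) hβ hx hκ hκ0 hR f3 hya hw (by norm_num) (by norm_num) (by norm_num) (by norm_num) (by norm_num) (by norm_num)) (by norm_num) (by norm_num) (bxd3 hβ (bN 11.1 0.987 0.7226 0.7133 23.47 0.915 0.37 (by norm_num) hβ hx hκ hκ0 hR f3 hya hw (by norm_num) (by norm_num) (by norm_num) (by norm_num) (by norm_num) (by norm_num)) g2 f3 hym hy2)
  rcases le_total x 1.095 with f4 | g4
  · exact epsOf hβ (bN 11.1 1.1559 0.7226 0.8353 22.56 1.095 0.37 (by norm_num) hβ hx hκ hκ0 hR f4 hya hw (by norm_num) (by norm_num) (by norm_num) (by norm_num) (by norm_num) (by norm_num)) (by norm_num) (by norm_num) (bxd4 hβ (bN 11.1 1.1559 0.7226 0.8353 22.56 1.095 0.37 (by norm_num) hβ hx hκ hκ0 hR f4 hya hw (by norm_num) (by norm_num) (by norm_num) (by norm_num) (by norm_num) (by norm_num)) g3 f4 hym hy2)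
  rcases le_total x 1.28 with f5 | g5
  · exact epsOf hβ (bN 11.1 1.3325 0.7226 0.9629 22.21 1.28 0.37 (by norm_num) hβ hx hκ hκ0 hR f5 hya hw (by norm_num) (by norm_num) (by norm_num) (by norm_num) (by norm_num) (by norm_num)) (by norm_num) (by norm_num) (bxd5 hβ (bN 11.1 1.3325 0.7226 0.9629 22.21 1.28 0.37 (by norm_num) hβ hx hκ hκ0 hR f5 hya hw (by norm_num) (by norm_num) (by norm_num) (by norm_num) (by norm_num) (by norm_num)) g4 f5 hym hy2)
  rcases le_total x 1.475 with f6 | g6
  · exact epsOf hβ h20 (by norm_num) (by norm_num) (bxd6 hβ h20 g5 f6 hym hy2)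
  rcases le_total x 1.685 with f7 | g7
  · exact epsOf hβ h20 (by norm_num) (by norm_num) (bxd7 hβ h20 g6 f7 hym hy2)
  rcases le_total x 1.915 with f8 | g8
  · exact epsOf hβ h20 (by norm_num) (by norm_num) (bxd8 hβ h20 g7 f8 hym hy2)
  exact epsOf hβ h20 (by norm_num) (by norm_num) (bxd9 hβ h20 g8 hx2 hym hy2)

end Sok
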