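import Mathlib
import Pool.Agent.Lib.MP_816dec_an.JNum2

/-!
MP_816dec_an: helper14's numerical corollary J45_gen for `β ≤ 1/30` (same proof, other constants).
-/

set_option autoImplicit false
set_option maxHeartbeats 4000000

open Complex Set Filter Topology MeasureTheory

namespace Sok

theorem sqrt_exp_bd30 {β c : ℝ} (hβ : 0 < β) (hβ1 : β ≤ 1 / 30) (hc : 1 / 60 ≤ c) :
    Real.sqrt (1 / β) * Real.exp (-c / β) ≤ 5.4773 * Real.exp (-(30 * c)) := by
  obtain ⟨t, ht⟩ : ∃ t, t = 1 / (30 * β) := ⟨_, rfl⟩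
  have ht1 : 1 ≤ t := by
    rw [ht, le_div_iff₀ (by positivity)]; linarith
  have e1 : 1 / β = 30 * t := by rw [ht]; field_simp
  have e2 : -c / β = -(30 * c * t) := by
    have : -c / β = -(c * (1 / β)) := by ring
    rw [this, e1]; ring
  rw [e1, e2, Real.sqrt_mul (by norm_num)]
  have h1 : Real.sqrt 30 ≤ 5.4773 := by
    rw [Real.sqrt_le_left (by norm_num)]; norm_num
  have h2 : Real.sqrt t ≤ Real.exp ((t - 1) / 2) := by
    rw [Real.sqrt_le_left (Real.exp_pos _).le, ← Real.exp_nat_mul]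
    have := Real.add_one_le_exp (t - 1)
    refine le_trans (by linarith) (this.trans (Real.exp_le_exp.2 ?_))
    push_cast; linarith
  have h3 : Real.exp ((t - 1) / 2) * Real.exp (-(30 * c * t)) ≤ Real.exp (-(30 * c)) := by
    rw [← Real.exp_add]
    apply Real.exp_le_exp.2
    nlinarith
  calc Real.sqrt 30 * Real.sqrt t * Real.exp (-(30 * c * t)) ≤
        5.4773 * Real.exp ((t - 1) / 2) * Real.exp (-(30 * c * t)) := by gcongr
    _ = 5.4773 * (Real.exp ((t - 1) / 2) * Real.exp (-(30 * c * t))) := by ring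
    _ ≤ _ := by gcongr

theorem sqrt_exp_bd30' {β c : ℝ} (hβ : 0 < β) (hβ1 : β ≤ 1 / 30) (hc : 3 / 60 ≤ c) :
    Real.sqrt (1 / β) * Real.exp (-c / β) ≤ β * (30 * 5.4773 * Real.exp (-(30 * c))) := by
  obtain ⟨t, ht⟩ : ∃ t, t = 1 / (30 * β) := ⟨_, rfl⟩
  have ht1 : 1 ≤ t := by
    rw [ht, le_div_iff₀ (by positivity)]; linarith
  have h1 := sqrt_exp_bd30 (c := c - 1 / 30) hβ hβ1 (by linarith)
  have e1 : Real.exp (-c / β) = Real.exp (-(c - 1 / 30) / β) * Real.exp (-t) := by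
    rw [← Real.exp_add]; congr 1; rw [ht]; field_simp; ring
  have h2 : Real.exp (-t) ≤ β * 30 * Real.exp (-1) := by
    have h3 := Real.add_one_le_exp (t - 1)
    have h4 : t * Real.exp (-t) ≤ Real.exp (-1) := by
      have : Real.exp (-1) = Real.exp (t - 1) * Real.exp (-t) := by rw [← Real.exp_add]; congr 1; ring
      rw [this]
      exact mul_le_mul_of_nonneg_right (by linarith) (Real.exp_pos _).le
    have h5 : t * (β * 30) = 1 := by rw [ht]; field_simp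
    calc Real.exp (-t) = (β * 30) * (t * Real.exp (-t)) := by
          rw [← mul_assoc, mul_comm (β * 30) t, h5, one_mul]
      _ ≤ _ := mul_le_mul_of_nonneg_left h4 (by positivity)
  rw [e1]
  have e3 : Real.exp (-(30 * (c - 1 / 30))) * Real.exp (-1) = Real.exp (-(30 * c)) := by
    rw [← Real.exp_add]; congr 1; ring
  calc Real.sqrt (1 / β) * (Real.exp (-(c - 1 / 30) / β) * Real.exp (-t)) =
        (Real.sqrt (1 / β) * Real.exp (-(c - 1 / 30) / β)) * Real.exp (-t) := by ring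
    _ ≤ (5.4773 * Real.exp (-(30 * (c - 1 / 30)))) * (β * 30 * Real.exp (-1)) := by gcongr
    _ = β * (30 * 5.4773 * (Real.exp (-(30 * (c - 1 / 30))) * Real.exp (-1))) := by ring
    _ = _ := by rw [e3]

/-- the bound of J45 as `β` times a constant -/
theorem J45_gen30 {β x y n0 a wL wR E1 E2 E3 E4 E5 C : ℝ} (hβ : 0 < β) (hβ1 : β ≤ 1 / 30)
    (hn : ‖(x + y * I : ℂ)‖ ≤ n0) (h0 : 0 < n0) (h49 : n0 ≤ 0.49) (ha : a = 1 - n0)
    (hwL : 1 ≤ wL * ((1 - n0 / a / 4) ^ 3 * Real.sqrt (1 - n0 / a / 4)))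
    (hwR : 1 ≤ wR * ((1 - 0.33 * (n0 / a)) ^ 3 * Real.sqrt (1 - 0.33 * (n0 / a))))
    (hE1 : Real.exp (-(30 * (a * (53 / 100) ^ 2))) ≤ E1)
    (hE2 : Real.exp (-(30 * (a - 0.368 * n0))) ≤ E2)
    (hE3 : Real.exp (-(30 * ((1 - 1.4476 * n0) * (53 / 100) ^ 2))) ≤ E3)
    (hE4 : Real.exp (-(30 * (1 - 1.632 * n0))) ≤ E4)
    (hE5 : Real.exp (-(30 * (5 - 9.7183 * n0))) ≤ E5)
    (hC : 27 / 160 * (n0 / a ^ 2) + 5 / 48 * (n0 ^ 2 / a ^ 3) * (wL + 1.7424 * wR) +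
      2.6675 * (1.41422 / (a * (53 / 100)) * E1 + 1.41422 / (2 * a * (53 / 100)) * E1 + 1 / a * E2 +
        1.41422 / (2 * (1 - 1.4476 * n0) * (53 / 100)) * E3 + 120 * E4 + 1 / a * E5) ≤ C) :
    ‖HH β (x + y * I) - 1‖ ≤ C * β := by
  have ha0 : 0 < a := by rw [ha]; linarith
  have ha1 : a < 1 := by rw [ha]; linarith
  have hna : 1 - a = n0 := by rw [ha]; ring
  obtain ⟨hD5, hda, hD2⟩ := normD_bound (x := x) (y := y) ha0 (by rw [hna]; exact hn) (by linarith)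
  obtain ⟨n, hnd⟩ : ∃ n, n = ‖(x + y * I : ℂ)‖ := ⟨_, rfl⟩
  obtain ⟨D, hD⟩ : ∃ D, D = ‖1 - I * (x + y * I : ℂ)‖ := ⟨_, rfl⟩
  obtain ⟨d, hd⟩ : ∃ d, d = 1 + y := ⟨_, rfl⟩
  have hn0 : 0 ≤ n := by rw [hnd]; exact norm_nonneg _
  have hD0 : 0 ≤ D := by rw [hD]; exact norm_nonneg _
  have hd0 : 0 < d := by rw [hd]; linarith
  have hn2 : n ^ 2 = x ^ 2 + y ^ 2 := by
    rw [hnd, ← Complex.normSq_eq_norm_sq, Complex.normSq_apply]
    simp
    ring
  have hJ := J45 (β := β) (x := x) (y := y) (ρ := n / d) hβ (by linarith)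
    (by rw [← hnd, ← hd, div_mul_cancel₀ _ hd0.ne']) (by positivity) (by
      rw [div_lt_iff₀ hd0]
      rw [← hnd] at hn
      rw [← hd] at hda
      nlinarith)
  rw [← hnd, ← hD, ← hd, lap45, tail45, ← hd] at hJ
  rw [← hD, ← hd] at hD5
  rw [← hD] at hD2
  rw [← hd] at hda
  rw [← hnd] at hn
  refine hJ.trans ?_
  clear hJ
  -- prefactors
  obtain ⟨A, hA⟩ : ∃ A, A = d / β := ⟨_, rfl⟩
  have hA0 : 0 < A := by rw [hA]; positivity
  obtain ⟨k, hk⟩ : ∃ k, k = Real.sqrt (D / d) := ⟨_, rfl⟩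
  have hk0 : 0 ≤ k := by rw [hk]; exact Real.sqrt_nonneg _
  have hkd : k ≤ d ^ 2 / a ^ 2 := by
    rw [hk, Real.sqrt_le_left (by positivity), div_pow, div_le_div_iff₀ hd0 (by positivity)]
    calc D * (a ^ 2) ^ 2 = D * a ^ 4 := by ring
      _ ≤ d ^ 5 := hD5
      _ = _ := by ring
  obtain ⟨sD, hsD⟩ : ∃ sD, sD = Real.sqrt (D / (2 * Real.pi * β)) := ⟨_, rfl⟩
  have hsD0 : 0 ≤ sD := by rw [hsD]; exact Real.sqrt_nonneg _
  obtain ⟨r1, hr1⟩ : ∃ r1, r1 = Real.sqrt (1 / β) := ⟨_, rfl⟩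
  have hr10 : 0 ≤ r1 := by rw [hr1]; exact Real.sqrt_nonneg _
  have hpi := Real.pi_gt_d6
  have hsD1 : sD ≤ 0.487 * r1 := by
    rw [hsD, hr1, Real.sqrt_le_left (by positivity), mul_pow, Real.sq_sqrt (by positivity)]
    rw [div_le_iff₀ (by positivity)]
    have : 0.487 ^ 2 * (1 / β) * (2 * Real.pi * β) = 0.487 ^ 2 * 2 * Real.pi := by field_simp
    rw [this]
    nlinarith
  have hid : sD * Real.sqrt 2 * Real.sqrt (2 * Real.pi) = k * Real.sqrt (2 * A) := by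
    rw [hsD, hk, ← Real.sqrt_mul (by positivity), ← Real.sqrt_mul (by positivity), ← Real.sqrt_mul (by positivity)]
    congr 1
    rw [hA]
    field_simp
  have hs2 : Real.sqrt 2 ≤ 1.41422 := sqrt2_lt.le
  have hs20 : 0 < Real.sqrt 2 := by positivity
  have hsA : 0 < Real.sqrt (2 * A) := Real.sqrt_pos.2 (by positivity)
  rw [← hsD, ← hA]
  obtain ⟨ρ, hρ⟩ : ∃ ρ, ρ = n / d := ⟨_, rfl⟩
  have hρ0 : 0 ≤ ρ := by rw [hρ]; positivity
  have hρ1 : ρ ≤ n0 / a := by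
    rw [hρ, div_le_div_iff₀ hd0 ha0]
    exact mul_le_mul hn hda ha0.le h0.le
  rw [← hρ]
  -- L1
  have L1 : sD * (Real.sqrt 2 * (3 / 2 * Real.sqrt (2 * Real.pi) * (ρ * A / 6 + 1.7 * (ρ * A / 6)) /
      ((2 * A) ^ 2 * Real.sqrt (2 * A)))) ≤ 27 / 160 * (n0 / a ^ 2) * β := by
    have e : sD * (Real.sqrt 2 * (3 / 2 * Real.sqrt (2 * Real.pi) * (ρ * A / 6 + 1.7 * (ρ * A / 6)) /
        ((2 * A) ^ 2 * Real.sqrt (2 * A)))) =
        (sD * Real.sqrt 2 * Real.sqrt (2 * Real.pi)) * (3 / 2 * (ρ * A / 6 + 1.7 * (ρ * A / 6)) /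
        ((2 * A) ^ 2 * Real.sqrt (2 * A))) := by ring
    rw [e, hid]
    have e2 : k * Real.sqrt (2 * A) * (3 / 2 * (ρ * A / 6 + 1.7 * (ρ * A / 6)) / ((2 * A) ^ 2 * Real.sqrt (2 * A))) =
        27 / 160 * (ρ / A * k) := by
      field_simp
      ring
    rw [e2]
    have h1 : ρ / A * k ≤ n0 / a ^ 2 * β := by
      have h2 : ρ / A * k ≤ ρ / A * (d ^ 2 / a ^ 2) := mul_le_mul_of_nonneg_left hkd (by positivity)
      have h3 : ρ / A * (d ^ 2 / a ^ 2) = n / a ^ 2 * β := by rw [hρ, hA]; field_simp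
      rw [h3] at h2
      refine h2.trans ?_
      gcongr
    linarith
  -- L2
  have L2 : ∀ c w f : ℝ, 0 < c → 0 ≤ w → 0 ≤ f → 1 ≤ w * (c ^ 3 * Real.sqrt c) →
      sD * (Real.sqrt 2 * (15 / 4 * Real.sqrt (2 * Real.pi) * (f * (ρ * A * (Real.sqrt 2 / 3))) ^ 2 /
        ((c * (2 * A)) ^ 3 * Real.sqrt (c * (2 * A))))) ≤ 5 / 48 * (n0 ^ 2 / a ^ 3) * (f ^ 2 * w) * β := by
    intro c w f hc hw hf hcw
    have hsc : 0 < Real.sqrt c := Real.sqrt_pos.2 hc
    have e : sD * (Real.sqrt 2 * (15 / 4 * Real.sqrt (2 * Real.pi) * (f * (ρ * A * (Real.sqrt 2 / 3))) ^ 2 /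
        ((c * (2 * A)) ^ 3 * Real.sqrt (c * (2 * A))))) =
        (sD * Real.sqrt 2 * Real.sqrt (2 * Real.pi)) * (15 / 4 * (f * (ρ * A * (Real.sqrt 2 / 3))) ^ 2 /
        ((c * (2 * A)) ^ 3 * Real.sqrt (c * (2 * A)))) := by ring
    rw [e, hid, Real.sqrt_mul hc.le]
    have e2 : k * Real.sqrt (2 * A) * (15 / 4 * (f * (ρ * A * (Real.sqrt 2 / 3))) ^ 2 /
        ((c * (2 * A)) ^ 3 * (Real.sqrt c * Real.sqrt (2 * A)))) =
        5 / 48 * (ρ ^ 2 / A * k) * (f ^ 2 * (1 / (c ^ 3 * Real.sqrt c))) := by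
      have h22 : (Real.sqrt 2) ^ 2 = 2 := sqrt2_sq
      have : (f * (ρ * A * (Real.sqrt 2 / 3))) ^ 2 = f ^ 2 * ρ ^ 2 * A ^ 2 * (Real.sqrt 2) ^ 2 / 9 := by ring
      rw [this, h22]
      field_simp
      ring
    rw [e2]
    have h1 : ρ ^ 2 / A * k ≤ n0 ^ 2 / a ^ 3 * β := by
      have h2 : ρ ^ 2 / A * k ≤ ρ ^ 2 / A * (d ^ 2 / a ^ 2) := mul_le_mul_of_nonneg_left hkd (by positivity)
      have h3 : ρ ^ 2 / A * (d ^ 2 / a ^ 2) = n ^ 2 / (d * a ^ 2) * β := by rw [hρ, hA]; field_simp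
      rw [h3] at h2
      refine h2.trans ?_
      have h4 : n ^ 2 / (d * a ^ 2) ≤ n0 ^ 2 / a ^ 3 := by
        have : a ^ 3 ≤ d * a ^ 2 := by nlinarith [sq_nonneg a]
        gcongr
      exact mul_le_mul_of_nonneg_right h4 hβ.le
    have h5 : 1 / (c ^ 3 * Real.sqrt c) ≤ w := by
      rw [div_le_iff₀ (by positivity)]; exact hcw
    calc 5 / 48 * (ρ ^ 2 / A * k) * (f ^ 2 * (1 / (c ^ 3 * Real.sqrt c))) ≤
          5 / 48 * (n0 ^ 2 / a ^ 3 * β) * (f ^ 2 * w) := by gcongr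
      _ = _ := by ring
  have hn0a : n0 / a ≤ 0.9608 := by
    rw [div_le_iff₀ ha0, ha]; linarith
  have hcL : 0 < 1 - n0 / a / 4 := by linarith
  have hcR : 0 < 1 - 0.33 * (n0 / a) := by linarith
  have wpos : ∀ w c : ℝ, 0 < c → 1 ≤ w * (c ^ 3 * Real.sqrt c) → 0 ≤ w := by
    intro w c hc h
    have : 0 < c ^ 3 * Real.sqrt c := mul_pos (by positivity) (Real.sqrt_pos.2 hc)
    by_contra hneg
    have := mul_neg_of_neg_of_pos (not_le.1 hneg) this
    linarith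
  have mono : ∀ w c c' : ℝ, 0 < c → c ≤ c' → 1 ≤ w * (c ^ 3 * Real.sqrt c) → 1 ≤ w * (c' ^ 3 * Real.sqrt c') := by
    intro w c c' hc hcc h
    have hw := wpos w c hc h
    refine h.trans (mul_le_mul_of_nonneg_left ?_ hw)
    exact mul_le_mul (pow_le_pow_left₀ hc.le hcc 3) (Real.sqrt_le_sqrt hcc) (Real.sqrt_nonneg _) (by
      have := hc.trans_le hcc
      positivity)
  have L2a := L2 (1 - ρ / 4) wL 1 (by linarith) (wpos _ _ hcL hwL) (by norm_num)
    (mono wL (1 - n0 / a / 4) (1 - ρ / 4) hcL (by linarith) hwL)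
  have L2b := L2 (1 - 0.33 * ρ) wR 1.32 (by linarith) (wpos _ _ hcR hwR) (by norm_num)
    (mono wR (1 - 0.33 * (n0 / a)) (1 - 0.33 * ρ) hcR (by linarith) hwR)
  rw [one_mul] at L2a
  -- exponential terms
  have EX : ∀ c c0 E : ℝ, 1 / 60 ≤ c0 → c0 ≤ c → Real.exp (-(30 * c0)) ≤ E →
      sD * Real.exp (-c / β) ≤ 2.6675 * E := by
    intro c c0 E h1 h2 h3
    have h4 : Real.exp (-c / β) ≤ Real.exp (-c0 / β) := by
      apply Real.exp_le_exp.2
      exact div_le_div_of_nonneg_right (by linarith) hβ.le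
    have h5 := sqrt_exp_bd30 hβ hβ1 h1
    rw [← hr1] at h5
    calc sD * Real.exp (-c / β) ≤ (0.487 * r1) * Real.exp (-c0 / β) := by gcongr
      _ = 0.487 * (r1 * Real.exp (-c0 / β)) := by ring
      _ ≤ 0.487 * (5.4773 * E) := by
          refine mul_le_mul_of_nonneg_left (h5.trans ?_) (by norm_num)
          exact mul_le_mul_of_nonneg_left h3 (by norm_num)
      _ ≤ 2.6675 * E := by
          have : 0 ≤ E := (Real.exp_pos _).le.trans h3
          linarith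
  have EX' : ∀ c c0 E : ℝ, 3 / 60 ≤ c0 → c0 ≤ c → Real.exp (-(30 * c0)) ≤ E →
      sD * Real.exp (-c / β) ≤ 2.6675 * (30 * E) * β := by
    intro c c0 E h1 h2 h3
    have h4 : Real.exp (-c / β) ≤ Real.exp (-c0 / β) := by
      apply Real.exp_le_exp.2
      exact div_le_div_of_nonneg_right (by linarith) hβ.le
    have h5 := sqrt_exp_bd30' hβ hβ1 h1
    rw [← hr1] at h5
    have hE : 0 ≤ E := (Real.exp_pos _).le.trans h3
    calc sD * Real.exp (-c / β) ≤ (0.487 * r1) * Real.exp (-c0 / β) := by gcongr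
      _ = 0.487 * (r1 * Real.exp (-c0 / β)) := by ring
      _ ≤ 0.487 * (β * (30 * 5.4773 * E)) := by
          refine mul_le_mul_of_nonneg_left (h5.trans ?_) (by norm_num)
          refine mul_le_mul_of_nonneg_left ?_ hβ.le
          exact mul_le_mul_of_nonneg_left h3 (by norm_num)
      _ ≤ _ := by
          have : 0 ≤ E * β := by positivity
          linarith
  -- T0
  have T0 : sD * (Real.sqrt 2 * (2 * (Real.exp (-(2 * A / 2) * (53 / 100) ^ 2) / (2 * A * (53 / 100))))) ≤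
      2.6675 * (1.41422 / (a * (53 / 100)) * E1) * β := by
    have h1 := EX (d * (53 / 100) ^ 2) (a * (53 / 100) ^ 2) E1 (by linarith) (by linarith) hE1
    have e1 : -(2 * A / 2) * (53 / 100) ^ 2 = -(d * (53 / 100) ^ 2) / β := by rw [hA]; field_simp
    have hE10 : 0 ≤ E1 := (Real.exp_pos _).le.trans hE1
    have e2 : sD * (Real.sqrt 2 * (2 * (Real.exp (-(2 * A / 2) * (53 / 100) ^ 2) / (2 * A * (53 / 100))))) =
        (sD * Real.exp (-(d * (53 / 100) ^ 2) / β)) * (Real.sqrt 2 * (β / (d * (53 / 100)))) := by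
      rw [e1, hA]; field_simp
    rw [e2]
    have h2 : Real.sqrt 2 * (β / (d * (53 / 100))) ≤ 1.41422 * (β / (a * (53 / 100))) := by gcongr
    calc (sD * Real.exp (-(d * (53 / 100) ^ 2) / β)) * (Real.sqrt 2 * (β / (d * (53 / 100)))) ≤
          (2.6675 * E1) * (1.41422 * (β / (a * (53 / 100)))) := by gcongr
      _ = _ := by ring
  have T1 : sD * (Real.sqrt 2 * (Real.exp (-((1 - n) * (53 / 100) ^ 2) / β) / (2 * (1 - n) * (53 / 100) / β))) ≤
      2.6675 * (1.41422 / (2 * a * (53 / 100)) * E1) * β := by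
    have hna' : a ≤ 1 - n := by linarith
    have h1 := EX ((1 - n) * (53 / 100) ^ 2) (a * (53 / 100) ^ 2) E1 (by linarith) (by linarith) hE1
    have hE10 : 0 ≤ E1 := (Real.exp_pos _).le.trans hE1
    have hn1 : 0 < 1 - n := by linarith
    have e2 : sD * (Real.sqrt 2 * (Real.exp (-((1 - n) * (53 / 100) ^ 2) / β) / (2 * (1 - n) * (53 / 100) / β))) =
        (sD * Real.exp (-((1 - n) * (53 / 100) ^ 2) / β)) * (Real.sqrt 2 * (β / (2 * (1 - n) * (53 / 100)))) := by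
      field_simp
    rw [e2]
    have h2 : Real.sqrt 2 * (β / (2 * (1 - n) * (53 / 100))) ≤ 1.41422 * (β / (2 * a * (53 / 100))) := by gcongr
    calc (sD * Real.exp (-((1 - n) * (53 / 100) ^ 2) / β)) * (Real.sqrt 2 * (β / (2 * (1 - n) * (53 / 100)))) ≤
          (2.6675 * E1) * (1.41422 * (β / (2 * a * (53 / 100)))) := by gcongr
      _ = _ := by ring
  have T2 : sD * (Real.exp (-(d - 0.368 * n) / β) / (d / β)) ≤ 2.6675 * (1 / a * E2) * β := by
    have h1 := EX (d - 0.368 * n) (a - 0.368 * n0) E2 (by linarith) (by linarith) hE2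
    have hE20 : 0 ≤ E2 := (Real.exp_pos _).le.trans hE2
    have e2 : sD * (Real.exp (-(d - 0.368 * n) / β) / (d / β)) =
        (sD * Real.exp (-(d - 0.368 * n) / β)) * (β / d) := by
      field_simp
    rw [e2]
    calc (sD * Real.exp (-(d - 0.368 * n) / β)) * (β / d) ≤ (2.6675 * E2) * (β / a) := by gcongr
      _ = _ := by ring
  have hq0 : 0 < 1 - 1.4476 * n0 := by linarith
  have hq : 1 - 1.4476 * n0 ≤ d - 0.5636 * |x| - |y| / 3 := by
    have h1 : (4 / 3 * |y| + 0.5636 * |x|) ^ 2 ≤ (1.4476 * n) ^ 2 := by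
      have : (1.4476 * n) ^ 2 = 1.4476 ^ 2 * (|x| ^ 2 + |y| ^ 2) := by
        rw [mul_pow, hn2, sq_abs, sq_abs]
      rw [this]
      nlinarith [sq_nonneg (0.5636 * |y| - 4 / 3 * |x|), sq_nonneg (|x|), sq_nonneg (|y|)]
    have h2 : 4 / 3 * |y| + 0.5636 * |x| ≤ 1.4476 * n := le_of_abs_le (abs_le_of_sq_le_sq h1 (by positivity))
    have h3 := neg_abs_le y
    rw [hd]
    nlinarith
  have T3 : sD * (Real.sqrt 2 * (Real.exp (-((d - 0.5636 * |x| - |y| / 3) * (53 / 100) ^ 2) / β) /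
      (2 * (d - 0.5636 * |x| - |y| / 3) * (53 / 100) / β))) ≤
      2.6675 * (1.41422 / (2 * (1 - 1.4476 * n0) * (53 / 100)) * E3) * β := by
    obtain ⟨Q, hQ⟩ : ∃ Q, Q = d - 0.5636 * |x| - |y| / 3 := ⟨_, rfl⟩
    rw [← hQ] at hq ⊢
    obtain ⟨Q0, hQ0⟩ : ∃ Q0, Q0 = 1 - 1.4476 * n0 := ⟨_, rfl⟩
    have hQ029 : 0.29 ≤ Q0 := by rw [hQ0]; linarith
    rw [← hQ0] at hq hq0 hE3 ⊢
    have h1 := EX (Q * (53 / 100) ^ 2) (Q0 * (53 / 100) ^ 2) E3 (by linarith) (by linarith) hE3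
    have hE30 : 0 ≤ E3 := (Real.exp_pos _).le.trans hE3
    have hQp : 0 < Q := hq0.trans_le hq
    have e2 : sD * (Real.sqrt 2 * (Real.exp (-(Q * (53 / 100) ^ 2) / β) / (2 * Q * (53 / 100) / β))) =
        (sD * Real.exp (-(Q * (53 / 100) ^ 2) / β)) * (Real.sqrt 2 * (β / (2 * Q * (53 / 100)))) := by
      field_simp
    rw [e2]
    have h2 : Real.sqrt 2 * (β / (2 * Q * (53 / 100))) ≤ 1.41422 * (β / (2 * Q0 * (53 / 100))) := by gcongr
    calc (sD * Real.exp (-(Q * (53 / 100) ^ 2) / β)) * (Real.sqrt 2 * (β / (2 * Q * (53 / 100)))) ≤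
          (2.6675 * E3) * (1.41422 * (β / (2 * Q0 * (53 / 100)))) := by gcongr
      _ = _ := by ring
  have T4 : sD * (4 * Real.exp (-(1 - 1.632 * n) / β)) ≤ 2.6675 * (120 * E4) * β := by
    have h1 := EX' (1 - 1.632 * n) (1 - 1.632 * n0) E4 (by linarith) (by linarith) hE4
    linarith
  have T5 : sD * (Real.exp (-(5 - 9.7183 * n) / β) / ((1 - n) / β)) ≤ 2.6675 * (1 / a * E5) * β := by
    have h1 := EX (5 - 9.7183 * n) (5 - 9.7183 * n0) E5 (by linarith) (by linarith) hE5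
    have hE50 : 0 ≤ E5 := (Real.exp_pos _).le.trans hE5
    have hn1 : 0 < 1 - n := by linarith
    have hna' : a ≤ 1 - n := by linarith
    have e2 : sD * (Real.exp (-(5 - 9.7183 * n) / β) / ((1 - n) / β)) =
        (sD * Real.exp (-(5 - 9.7183 * n) / β)) * (β / (1 - n)) := by
      field_simp
    rw [e2]
    calc (sD * Real.exp (-(5 - 9.7183 * n) / β)) * (β / (1 - n)) ≤ (2.6675 * E5) * (β / a) := by gcongr
      _ = _ := by ring
  have hfin := mul_le_mul_of_nonneg_right hC hβ.le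
  refine le_trans ?_ hfin
  rw [← hA] at T2
  have hsum := add_le_add (add_le_add (add_le_add (add_le_add (add_le_add (add_le_add (add_le_add (add_le_add L1 L2a) L2b)
    T0) T1) T2) T3) T4) T5
  refine (le_of_eq ?_).trans (hsum.trans (le_of_eq ?_))
  · simp only [mul_add]
    ring
  · ring

/-- all angles, `|σ| ≤ 0.49`, `β ≤ 1/30` -/
theorem J45_49_30 {β x y : ℝ} (hβ : 0 < β) (hβ1 : β ≤ 1 / 30) (hn : ‖(x + y * I : ℂ)‖ ≤ 0.49) :
    ‖HH β (x + y * I) - 1‖ ≤ 4.22 * β := by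
  refine J45_gen30 (n0 := 0.49) (a := 0.51) (wL := 2.62) (wR := 3.82) (E1 := 0.0137) (E2 := 0.00006)
    (E3 := 0.0866) (E4 := 0.00247) (E5 := 0.0008) hβ hβ1 hn (by norm_num) (by norm_num) (by norm_num) ?_ ?_ ?_ ?_ ?_ ?_ ?_ ?_
  · exact cube_sqrt_geJ (s := 0.871) (by norm_num) (by norm_num) (by norm_num) (by norm_num)
  · exact cube_sqrt_geJ (s := 0.826) (by norm_num) (by norm_num) (by norm_num) (by norm_num)
  · exact exp_neg_leJ (r := 0.297) 4 (by norm_num) (by norm_num) (by norm_num) (by norm_num)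
  · exact exp_neg_leJ (r := 0.89) 9 (by norm_num) (by norm_num) (by norm_num) (by norm_num)
  · exact exp_neg_leJ (r := 0.449) 2 (by norm_num) (by norm_num) (by norm_num) (by norm_num)
  · exact exp_neg_leJ (r := 0.009) 6 (by norm_num) (by norm_num) (by norm_num) (by norm_num)
  · exact exp_neg_leJ (r := 0.14) 7 (by norm_num) (by norm_num) (by norm_num) (by norm_num)
  · norm_num

end Sok
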