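import Mathlib
import Pool.Agent.Lib.MP_816dec_an.JBox

/-!
MP_816dec_an: `‖HH - 1‖ ≤ 0.034` for `R ≥ 10.4 (1+κ²)`, `-0.325 ≤ y ≤ -0.25`.
-/

set_option autoImplicit false
set_option maxHeartbeats 4000000

open Complex Set

namespace Sok

/-- `β N0 ≤ 1` from `R ≥ c (1+κ²)` -/
private theorem bN {β x y κ : ℝ} (c s1 w K N0 x2 ym : ℝ) (hc : 0 < c) (hβ : 0 < β) (hx : 0 < x)
    (hκ : κ = ‖(x + y * I : ℂ)‖ * Real.exp y) (hκ0 : 0 < κ) (hR : β * (c * (1 + κ ^ 2)) ≤ κ)
    (hx2 : x ≤ x2) (hy : |y| ≤ ym) (hw : Real.exp y ≤ w) (hs : x2 ^ 2 + ym ^ 2 ≤ s1 ^ 2) (hs0 : 0 ≤ s1)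
    (hK : s1 * w ≤ K) (hK0 : 0 < K) (hK1 : K ≤ 1) (hN : N0 * K ≤ c * (1 + K ^ 2)) : β * N0 ≤ 1 := by
  have hn2 : ‖(x + y * I : ℂ)‖ ^ 2 = x ^ 2 + y ^ 2 := by
    rw [← Complex.normSq_eq_norm_sq, Complex.normSq_apply]
    simp
    ring
  have hn : ‖(x + y * I : ℂ)‖ ≤ s1 := by
    apply le_of_sq_le_sq _ hs0
    rw [hn2]
    have h1 : x ^ 2 ≤ x2 ^ 2 := pow_le_pow_left₀ hx.le hx2 2
    have h2 : y ^ 2 ≤ ym ^ 2 := by
      rw [← sq_abs y]; exact pow_le_pow_left₀ (abs_nonneg y) hy 2
    linarith
  have hκK : κ ≤ K := by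
    rw [hκ]
    refine le_trans ?_ hK
    exact mul_le_mul hn hw (Real.exp_pos _).le hs0
  have h1 : κ * (1 + K ^ 2) ≤ K * (1 + κ ^ 2) := by
    have h3 : 0 ≤ 1 - κ * K := by nlinarith
    have := mul_nonneg (sub_nonneg.2 hκK) h3
    linarith
  have h2 : N0 * κ ≤ c * (1 + κ ^ 2) := by
    have h3 : N0 * K * κ ≤ c * (1 + K ^ 2) * κ := mul_le_mul_of_nonneg_right hN hκ0.le
    have h4 : N0 * κ * K ≤ c * (1 + κ ^ 2) * K := by
      have := mul_le_mul_of_nonneg_left h1 hc.le
      linarith
    exact le_of_mul_le_mul_right h4 hK0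
  have h5 : β * (N0 * κ) ≤ κ := (mul_le_mul_of_nonneg_left h2 hβ.le).trans hR
  have h6 : (β * N0) * κ ≤ 1 * κ := by linarith
  exact le_of_mul_le_mul_right h6 hκ0

private theorem bN20 {β κ c N : ℝ} (hc : 0 < c) (hN : N = 2 * c) (hβ : 0 < β) (hκ0 : 0 < κ)
    (hR : β * (c * (1 + κ ^ 2)) ≤ κ) : β * N ≤ 1 := by
  have h2 : N * κ ≤ c * (1 + κ ^ 2) := by
    rw [hN]
    have := mul_nonneg hc.le (sq_nonneg (κ - 1))
    linarith
  have h5 : β * (N * κ) ≤ κ := (mul_le_mul_of_nonneg_left h2 hβ.le).trans hR
  have h6 : (β * N) * κ ≤ 1 * κ := by linarith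
  exact le_of_mul_le_mul_right h6 hκ0

private theorem epsOf {β C N ε v : ℝ} (hβ : 0 < β) (hN : β * N ≤ 1) (hε : 0 ≤ ε) (hC : C ≤ ε * N) (h : v ≤ C * β) : v ≤ ε := by
  have h1 : C * β ≤ ε * N * β := mul_le_mul_of_nonneg_right hC hβ.le
  have h2 : ε * (β * N) ≤ ε * 1 := mul_le_mul_of_nonneg_left hN hε
  linarith

private theorem exp_wa : Real.exp (-0.29) ≤ 0.7483 := by
  rw [Real.exp_neg, inv_le_comm₀ (Real.exp_pos _) (by norm_num)]
  have h := Real.sum_le_exp_of_nonneg (x := 0.29) (by norm_num) 7
  refine le_trans ?_ h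
  norm_num [Finset.sum_range_succ, Nat.factorial]

private theorem bxa0 {β x y : ℝ} (hβ : 0 < β) (hN : β * 30.97 ≤ 1) (hx1 : 0.22 ≤ x) (hx2 : x ≤ 0.4)
    (hy1 : -0.325 ≤ y) (hy2 : y ≤ -0.29) : ‖HH β (x + y * I) - 1‖ ≤ 1.02 * β := by
  refine J_box 0.22 0.4 0.325 0 (-0.29) 0.6342 0.5154 0.815 1.7875 0.3602 5.5651 30.97 0.8127 3.022 1.444 0.9662 0.317 0.2311 0.5705 2.8216 0.2843 0.8046 1.1272 3.751 0.00005461 0.0007794 0.0000003101 0.0000003101 0.0001504 0.0000003101 0.0000003101 0.0000003101 1.02
    hβ hN hx1 hx2 hy1 hy2 (by norm_num) (by norm_num) (by norm_num) (by norm_num) (by norm_num) (by norm_num) (by norm_num) (by norm_num) (by norm_num) (by norm_num) (by norm_num) (by norm_num) (by norm_num) (by norm_num) (by norm_num) (by norm_num) (by norm_num) (by norm_num) (by norm_num) (by norm_num) (by norm_num) (by norm_num) (by norm_num) (by norm_num)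
    (cube_sqrt_geJ (s := 0.8538) (by norm_num) (by norm_num) (by norm_num) (by norm_num))
    (cube_sqrt_geJ (s := 0.9489) (by norm_num) (by norm_num) (by norm_num) (by norm_num))
    (by norm_num) (by norm_num) (by norm_num) (by norm_num) (by norm_num) (by norm_num) (by norm_num) (by norm_num) (by norm_num) (by norm_num) (by norm_num) (by norm_num) (by norm_num) (by norm_num) (by norm_num) (by norm_num) (by norm_num) (by norm_num)
    (exp_neg_leJ (r := 0.817) 9 (by norm_num) (by norm_num) (by norm_num) (by norm_num))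
    (exp_neg_leJ (r := 0.157) 7 (by norm_num) (by norm_num) (by norm_num) (by norm_num))
    (exp_neg_leJ (r := 0.99) 14 (by norm_num) (by norm_num) (by norm_num) (by norm_num))
    (exp_neg_leJ (r := 0.99) 14 (by norm_num) (by norm_num) (by norm_num) (by norm_num))
    (exp_neg_leJ (r := 0.804) 8 (by norm_num) (by norm_num) (by norm_num) (by norm_num))
    (exp_neg_leJ (r := 0.99) 14 (by norm_num) (by norm_num) (by norm_num) (by norm_num))
    (exp_neg_leJ (r := 0.99) 14 (by norm_num) (by norm_num) (by norm_num) (by norm_num))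
    (exp_neg_leJ (r := 0.99) 14 (by norm_num) (by norm_num) (by norm_num) (by norm_num))
    (by norm_num)

private theorem bxa1 {β x y : ℝ} (hβ : 0 < β) (hN : β * 26.72 ≤ 1) (hx1 : 0.4 ≤ x) (hx2 : x ≤ 0.55)
    (hy1 : -0.325 ≤ y) (hy2 : y ≤ -0.29) : ‖HH β (x + y * I) - 1‖ ≤ 0.8739 * β := by
  refine J_box 0.4 0.55 0.325 0 (-0.29) 0.7609 0.6389 0.8982 1.4279 0.3781 5.1692 26.72 0.8397 3.157 1.463 0.9085 0.3804 0.2739 0.6322 2.742 0.3717 1.0538 1.4872 3.7753 0.00003854 0.0006636 0.0000003101 0.0000003101 0.00004878 0.0000003101 0.0000003101 0.0000003101 0.8739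
    hβ hN hx1 hx2 hy1 hy2 (by norm_num) (by norm_num) (by norm_num) (by norm_num) (by norm_num) (by norm_num) (by norm_num) (by norm_num) (by norm_num) (by norm_num) (by norm_num) (by norm_num) (by norm_num) (by norm_num) (by norm_num) (by norm_num) (by norm_num) (by norm_num) (by norm_num) (by norm_num) (by norm_num) (by norm_num) (by norm_num) (by norm_num)
    (cube_sqrt_geJ (s := 0.8485) (by norm_num) (by norm_num) (by norm_num) (by norm_num))
    (cube_sqrt_geJ (s := 0.9471) (by norm_num) (by norm_num) (by norm_num) (by norm_num))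
    (by norm_num) (by norm_num) (by norm_num) (by norm_num) (by norm_num) (by norm_num) (by norm_num) (by norm_num) (by norm_num) (by norm_num) (by norm_num) (by norm_num) (by norm_num) (by norm_num) (by norm_num) (by norm_num) (by norm_num) (by norm_num)
    (exp_neg_leJ (r := 0.164) 10 (by norm_num) (by norm_num) (by norm_num) (by norm_num))
    (exp_neg_leJ (r := 0.318) 7 (by norm_num) (by norm_num) (by norm_num) (by norm_num))
    (exp_neg_leJ (r := 0.99) 14 (by norm_num) (by norm_num) (by norm_num) (by norm_num))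
    (exp_neg_leJ (r := 0.99) 14 (by norm_num) (by norm_num) (by norm_num) (by norm_num))
    (exp_neg_leJ (r := 0.931) 9 (by norm_num) (by norm_num) (by norm_num) (by norm_num))
    (exp_neg_leJ (r := 0.99) 14 (by norm_num) (by norm_num) (by norm_num) (by norm_num))
    (exp_neg_leJ (r := 0.99) 14 (by norm_num) (by norm_num) (by norm_num) (by norm_num))
    (exp_neg_leJ (r := 0.99) 14 (by norm_num) (by norm_num) (by norm_num) (by norm_num))
    (by norm_num)

private theorem bxa2 {β x y : ℝ} (hβ : 0 < β) (hN : β * 24.3 ≤ 1) (hx1 : 0.55 ≤ x) (hx2 : x ≤ 0.68)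
    (hy1 : -0.325 ≤ y) (hy2 : y ≤ -0.29) : ‖HH β (x + y * I) - 1‖ ≤ 0.8167 * β := by
  refine J_box 0.55 0.68 0.325 0 (-0.29) 0.8665 0.7537 0.9832 1.2294 0.3956 4.9296 24.3 0.8699 3.316 1.484 0.8585 0.4332 0.3076 0.6835 2.671 0.4446 1.2615 1.7872 3.7633 0.00002684 0.0005678 0.0000003101 0.0000003101 0.00002037 0.0000003101 0.0000003101 0.0000003101 0.8167
    hβ hN hx1 hx2 hy1 hy2 (by norm_num) (by norm_num) (by norm_num) (by norm_num) (by norm_num) (by norm_num) (by norm_num) (by norm_num) (by norm_num) (by norm_num) (by norm_num) (by norm_num) (by norm_num) (by norm_num) (by norm_num) (by norm_num) (by norm_num) (by norm_num) (by norm_num) (by norm_num) (by norm_num) (by norm_num) (by norm_num) (by norm_num)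
    (cube_sqrt_geJ (s := 0.8426) (by norm_num) (by norm_num) (by norm_num) (by norm_num))
    (cube_sqrt_geJ (s := 0.9452) (by norm_num) (by norm_num) (by norm_num) (by norm_num))
    (by norm_num) (by norm_num) (by norm_num) (by norm_num) (by norm_num) (by norm_num) (by norm_num) (by norm_num) (by norm_num) (by norm_num) (by norm_num) (by norm_num) (by norm_num) (by norm_num) (by norm_num) (by norm_num) (by norm_num) (by norm_num)
    (exp_neg_leJ (r := 0.526) 10 (by norm_num) (by norm_num) (by norm_num) (by norm_num))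
    (exp_neg_leJ (r := 0.474) 7 (by norm_num) (by norm_num) (by norm_num) (by norm_num))
    (exp_neg_leJ (r := 0.99) 14 (by norm_num) (by norm_num) (by norm_num) (by norm_num))
    (exp_neg_leJ (r := 0.99) 14 (by norm_num) (by norm_num) (by norm_num) (by norm_num))
    (exp_neg_leJ (r := 0.803) 10 (by norm_num) (by norm_num) (by norm_num) (by norm_num))
    (exp_neg_leJ (r := 0.99) 14 (by norm_num) (by norm_num) (by norm_num) (by norm_num))
    (exp_neg_leJ (r := 0.99) 14 (by norm_num) (by norm_num) (by norm_num) (by norm_num))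
    (exp_neg_leJ (r := 0.99) 14 (by norm_num) (by norm_num) (by norm_num) (by norm_num))
    (by norm_num)

private theorem bxa3 {β x y : ℝ} (hβ : 0 < β) (hN : β * 22.91 ≤ 1) (hx1 : 0.68 ≤ x) (hx2 : x ≤ 0.79)
    (hy1 : -0.325 ≤ y) (hy2 : y ≤ -0.29) : ‖HH β (x + y * I) - 1‖ ≤ 0.7734 * β := by
  refine J_box 0.68 0.79 0.325 0 (-0.29) 0.9581 0.8543 1.0622 1.099 0.4112 4.7865 22.91 0.8917 3.437 1.499 0.8162 0.479 0.3366 0.728 2.6099 0.5077 1.4415 2.0472 3.7498 0.00001722 0.0004483 0.0000003101 0.0000003101 0.000008891 0.0000003101 0.0000003101 0.0000003101 0.7734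
    hβ hN hx1 hx2 hy1 hy2 (by norm_num) (by norm_num) (by norm_num) (by norm_num) (by norm_num) (by norm_num) (by norm_num) (by norm_num) (by norm_num) (by norm_num) (by norm_num) (by norm_num) (by norm_num) (by norm_num) (by norm_num) (by norm_num) (by norm_num) (by norm_num) (by norm_num) (by norm_num) (by norm_num) (by norm_num) (by norm_num) (by norm_num)
    (cube_sqrt_geJ (s := 0.8383) (by norm_num) (by norm_num) (by norm_num) (by norm_num))
    (cube_sqrt_geJ (s := 0.9438) (by norm_num) (by norm_num) (by norm_num) (by norm_num))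
    (by norm_num) (by norm_num) (by norm_num) (by norm_num) (by norm_num) (by norm_num) (by norm_num) (by norm_num) (by norm_num) (by norm_num) (by norm_num) (by norm_num) (by norm_num) (by norm_num) (by norm_num) (by norm_num) (by norm_num) (by norm_num)
    (exp_neg_leJ (r := 0.973) 10 (by norm_num) (by norm_num) (by norm_num) (by norm_num))
    (exp_neg_leJ (r := 0.711) 7 (by norm_num) (by norm_num) (by norm_num) (by norm_num))
    (exp_neg_leJ (r := 0.99) 14 (by norm_num) (by norm_num) (by norm_num) (by norm_num))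
    (exp_neg_leJ (r := 0.99) 14 (by norm_num) (by norm_num) (by norm_num) (by norm_num))
    (exp_neg_leJ (r := 0.631) 11 (by norm_num) (by norm_num) (by norm_num) (by norm_num))
    (exp_neg_leJ (r := 0.99) 14 (by norm_num) (by norm_num) (by norm_num) (by norm_num))
    (exp_neg_leJ (r := 0.99) 14 (by norm_num) (by norm_num) (by norm_num) (by norm_num))
    (exp_neg_leJ (r := 0.99) 14 (by norm_num) (by norm_num) (by norm_num) (by norm_num))
    (by norm_num)

private theorem bxa4 {β x y : ℝ} (hβ : 0 < β) (hN : β * 22.11 ≤ 1) (hx1 : 0.79 ≤ x) (hx2 : x ≤ 0.88)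
    (hy1 : -0.325 ≤ y) (hy2 : y ≤ -0.29) : ‖HH β (x + y * I) - 1‖ ≤ 0.737 * β := by
  refine J_box 0.79 0.88 0.325 0 (-0.29) 1.0355 0.9381 1.1308 1.0092 0.4243 4.7022 22.11 0.906 3.52 1.51 0.7816 0.5177 0.3613 0.7657 2.5596 0.5611 1.5938 2.2672 3.742 0.0000107 0.0003408 0.0000003101 0.0000003101 0.000004099 0.0000003101 0.0000003101 0.0000003101 0.737
    hβ hN hx1 hx2 hy1 hy2 (by norm_num) (by norm_num) (by norm_num) (by norm_num) (by norm_num) (by norm_num) (by norm_num) (by norm_num) (by norm_num) (by norm_num) (by norm_num) (by norm_num) (by norm_num) (by norm_num) (by norm_num) (by norm_num) (by norm_num) (by norm_num) (by norm_num) (by norm_num) (by norm_num) (by norm_num) (by norm_num) (by norm_num)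
    (cube_sqrt_geJ (s := 0.8354) (by norm_num) (by norm_num) (by norm_num) (by norm_num))
    (cube_sqrt_geJ (s := 0.9429) (by norm_num) (by norm_num) (by norm_num) (by norm_num))
    (by norm_num) (by norm_num) (by norm_num) (by norm_num) (by norm_num) (by norm_num) (by norm_num) (by norm_num) (by norm_num) (by norm_num) (by norm_num) (by norm_num) (by norm_num) (by norm_num) (by norm_num) (by norm_num) (by norm_num) (by norm_num)
    (exp_neg_leJ (r := 0.446) 11 (by norm_num) (by norm_num) (by norm_num) (by norm_num))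
    (exp_neg_leJ (r := 0.988) 7 (by norm_num) (by norm_num) (by norm_num) (by norm_num))
    (exp_neg_leJ (r := 0.99) 14 (by norm_num) (by norm_num) (by norm_num) (by norm_num))
    (exp_neg_leJ (r := 0.99) 14 (by norm_num) (by norm_num) (by norm_num) (by norm_num))
    (exp_neg_leJ (r := 0.405) 12 (by norm_num) (by norm_num) (by norm_num) (by norm_num))
    (exp_neg_leJ (r := 0.99) 14 (by norm_num) (by norm_num) (by norm_num) (by norm_num))
    (exp_neg_leJ (r := 0.99) 14 (by norm_num) (by norm_num) (by norm_num) (by norm_num))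
    (exp_neg_leJ (r := 0.99) 14 (by norm_num) (by norm_num) (by norm_num) (by norm_num))
    (by norm_num)

private theorem bxa5 {β x y : ℝ} (hβ : 0 < β) (hN : β * 21.59 ≤ 1) (hx1 : 0.88 ≤ x) (hx2 : x ≤ 0.96)
    (hy1 : -0.325 ≤ y) (hy2 : y ≤ -0.29) : ‖HH β (x + y * I) - 1‖ ≤ 0.7241 * β := by
  refine J_box 0.88 0.96 0.325 0 (-0.29) 1.0989 1.0136 1.1941 0.9486 0.436 4.6466 21.59 0.9224 3.619 1.522 0.7508 0.5494 0.3805 0.7965 2.5145 0.6049 1.7184 2.4472 3.7168 0.000007075 0.0002709 0.0000003101 0.0000003101 0.000002131 0.0000003101 0.0000003101 0.0000003101 0.7241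
    hβ hN hx1 hx2 hy1 hy2 (by norm_num) (by norm_num) (by norm_num) (by norm_num) (by norm_num) (by norm_num) (by norm_num) (by norm_num) (by norm_num) (by norm_num) (by norm_num) (by norm_num) (by norm_num) (by norm_num) (by norm_num) (by norm_num) (by norm_num) (by norm_num) (by norm_num) (by norm_num) (by norm_num) (by norm_num) (by norm_num) (by norm_num)
    (cube_sqrt_geJ (s := 0.8321) (by norm_num) (by norm_num) (by norm_num) (by norm_num))
    (cube_sqrt_geJ (s := 0.9418) (by norm_num) (by norm_num) (by norm_num) (by norm_num))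
    (by norm_num) (by norm_num) (by norm_num) (by norm_num) (by norm_num) (by norm_num) (by norm_num) (by norm_num) (by norm_num) (by norm_num) (by norm_num) (by norm_num) (by norm_num) (by norm_num) (by norm_num) (by norm_num) (by norm_num) (by norm_num)
    (exp_neg_leJ (r := 0.861) 11 (by norm_num) (by norm_num) (by norm_num) (by norm_num))
    (exp_neg_leJ (r := 0.214) 8 (by norm_num) (by norm_num) (by norm_num) (by norm_num))
    (exp_neg_leJ (r := 0.99) 14 (by norm_num) (by norm_num) (by norm_num) (by norm_num))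
    (exp_neg_leJ (r := 0.99) 14 (by norm_num) (by norm_num) (by norm_num) (by norm_num))
    (exp_neg_leJ (r := 0.059) 13 (by norm_num) (by norm_num) (by norm_num) (by norm_num))
    (exp_neg_leJ (r := 0.99) 14 (by norm_num) (by norm_num) (by norm_num) (by norm_num))
    (exp_neg_leJ (r := 0.99) 14 (by norm_num) (by norm_num) (by norm_num) (by norm_num))
    (exp_neg_leJ (r := 0.99) 14 (by norm_num) (by norm_num) (by norm_num) (by norm_num))
    (by norm_num)

private theorem bxa6 {β x y : ℝ} (hβ : 0 < β) (hN : β * 21.27 ≤ 1) (hx1 : 0.96 ≤ x) (hx2 : x ≤ 1.03)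
    (hy1 : -0.325 ≤ y) (hy2 : y ≤ -0.29) : ‖HH β (x + y * I) - 1‖ ≤ 0.7112 * β := by
  refine J_box 0.96 1.03 0.325 0 (-0.29) 1.1552 1.0801 1.251 0.9009 0.4463 4.612 21.27 0.935 3.697 1.531 0.7239 0.5775 0.3975 0.8238 2.475 0.6437 1.8292 2.6072 3.696 0.00000463 0.0002131 0.0000003101 0.0000003101 0.000001134 0.0000003101 0.0000003101 0.0000003101 0.7112
    hβ hN hx1 hx2 hy1 hy2 (by norm_num) (by norm_num) (by norm_num) (by norm_num) (by norm_num) (by norm_num) (by norm_num) (by norm_num) (by norm_num) (by norm_num) (by norm_num) (by norm_num) (by norm_num) (by norm_num) (by norm_num) (by norm_num) (by norm_num) (by norm_num) (by norm_num) (by norm_num) (by norm_num) (by norm_num) (by norm_num) (by norm_num)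
    (cube_sqrt_geJ (s := 0.8296) (by norm_num) (by norm_num) (by norm_num) (by norm_num))
    (cube_sqrt_geJ (s := 0.941) (by norm_num) (by norm_num) (by norm_num) (by norm_num))
    (by norm_num) (by norm_num) (by norm_num) (by norm_num) (by norm_num) (by norm_num) (by norm_num) (by norm_num) (by norm_num) (by norm_num) (by norm_num) (by norm_num) (by norm_num) (by norm_num) (by norm_num) (by norm_num) (by norm_num) (by norm_num)
    (exp_neg_leJ (r := 0.283) 12 (by norm_num) (by norm_num) (by norm_num) (by norm_num))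
    (exp_neg_leJ (r := 0.454) 8 (by norm_num) (by norm_num) (by norm_num) (by norm_num))
    (exp_neg_leJ (r := 0.99) 14 (by norm_num) (by norm_num) (by norm_num) (by norm_num))
    (exp_neg_leJ (r := 0.99) 14 (by norm_num) (by norm_num) (by norm_num) (by norm_num))
    (exp_neg_leJ (r := 0.691) 13 (by norm_num) (by norm_num) (by norm_num) (by norm_num))
    (exp_neg_leJ (r := 0.99) 14 (by norm_num) (by norm_num) (by norm_num) (by norm_num))
    (exp_neg_leJ (r := 0.99) 14 (by norm_num) (by norm_num) (by norm_num) (by norm_num))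
    (exp_neg_leJ (r := 0.99) 14 (by norm_num) (by norm_num) (by norm_num) (by norm_num))
    (by norm_num)

private theorem bxa7 {β x y : ℝ} (hβ : 0 < β) (hN : β * 21.07 ≤ 1) (hx1 : 1.03 ≤ x) (hx2 : x ≤ 1.09)
    (hy1 : -0.325 ≤ y) (hy2 : y ≤ -0.29) : ‖HH β (x + y * I) - 1‖ ≤ 0.6984 * β := by
  refine J_box 1.03 1.09 0.325 0 (-0.29) 1.2045 1.1375 1.3009 0.8629 0.4551 4.5903 21.07 0.9444 3.756 1.538 0.7008 0.6022 0.4126 0.8478 2.441 0.6777 1.9261 2.7472 3.68 0.000003091 0.0001679 0.0000003101 0.0000003101 0.0000006291 0.0000003101 0.0000003101 0.0000003101 0.6984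
    hβ hN hx1 hx2 hy1 hy2 (by norm_num) (by norm_num) (by norm_num) (by norm_num) (by norm_num) (by norm_num) (by norm_num) (by norm_num) (by norm_num) (by norm_num) (by norm_num) (by norm_num) (by norm_num) (by norm_num) (by norm_num) (by norm_num) (by norm_num) (by norm_num) (by norm_num) (by norm_num) (by norm_num) (by norm_num) (by norm_num) (by norm_num)
    (cube_sqrt_geJ (s := 0.8277) (by norm_num) (by norm_num) (by norm_num) (by norm_num))
    (cube_sqrt_geJ (s := 0.9404) (by norm_num) (by norm_num) (by norm_num) (by norm_num))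
    (by norm_num) (by norm_num) (by norm_num) (by norm_num) (by norm_num) (by norm_num) (by norm_num) (by norm_num) (by norm_num) (by norm_num) (by norm_num) (by norm_num) (by norm_num) (by norm_num) (by norm_num) (by norm_num) (by norm_num) (by norm_num)
    (exp_neg_leJ (r := 0.688) 12 (by norm_num) (by norm_num) (by norm_num) (by norm_num))
    (exp_neg_leJ (r := 0.693) 8 (by norm_num) (by norm_num) (by norm_num) (by norm_num))
    (exp_neg_leJ (r := 0.99) 14 (by norm_num) (by norm_num) (by norm_num) (by norm_num))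
    (exp_neg_leJ (r := 0.99) 14 (by norm_num) (by norm_num) (by norm_num) (by norm_num))
    (exp_neg_leJ (r := 0.279) 14 (by norm_num) (by norm_num) (by norm_num) (by norm_num))
    (exp_neg_leJ (r := 0.99) 14 (by norm_num) (by norm_num) (by norm_num) (by norm_num))
    (exp_neg_leJ (r := 0.99) 14 (by norm_num) (by norm_num) (by norm_num) (by norm_num))
    (exp_neg_leJ (r := 0.99) 14 (by norm_num) (by norm_num) (by norm_num) (by norm_num))
    (by norm_num)

private theorem bxa8 {β x y : ℝ} (hβ : 0 < β) (hN : β * 20.92 ≤ 1) (hx1 : 1.09 ≤ x) (hx2 : x ≤ 1.15)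
    (hy1 : -0.325 ≤ y) (hy2 : y ≤ -0.29) : ‖HH β (x + y * I) - 1‖ ≤ 0.7029 * β := by
  refine J_box 1.09 1.15 0.325 0 (-0.29) 1.2468 1.1951 1.3516 0.8351 0.4639 4.5739 20.92 0.9586 3.848 1.549 0.6778 0.6233 0.4242 0.8683 2.407 0.7069 2.0092 2.8672 3.6434 0.000002174 0.0001403 0.0000003101 0.0000003101 0.0000003787 0.0000003101 0.0000003101 0.0000003101 0.7029
    hβ hN hx1 hx2 hy1 hy2 (by norm_num) (by norm_num) (by norm_num) (by norm_num) (by norm_num) (by norm_num) (by norm_num) (by norm_num) (by norm_num) (by norm_num) (by norm_num) (by norm_num) (by norm_num) (by norm_num) (by norm_num) (by norm_num) (by norm_num) (by norm_num) (by norm_num) (by norm_num) (by norm_num) (by norm_num) (by norm_num) (by norm_num)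
    (cube_sqrt_geJ (s := 0.8249) (by norm_num) (by norm_num) (by norm_num) (by norm_num))
    (cube_sqrt_geJ (s := 0.9394) (by norm_num) (by norm_num) (by norm_num) (by norm_num))
    (by norm_num) (by norm_num) (by norm_num) (by norm_num) (by norm_num) (by norm_num) (by norm_num) (by norm_num) (by norm_num) (by norm_num) (by norm_num) (by norm_num) (by norm_num) (by norm_num) (by norm_num) (by norm_num) (by norm_num) (by norm_num)
    (exp_neg_leJ (r := 0.039) 13 (by norm_num) (by norm_num) (by norm_num) (by norm_num))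
    (exp_neg_leJ (r := 0.874) 8 (by norm_num) (by norm_num) (by norm_num) (by norm_num))
    (exp_neg_leJ (r := 0.99) 14 (by norm_num) (by norm_num) (by norm_num) (by norm_num))
    (exp_neg_leJ (r := 0.99) 14 (by norm_num) (by norm_num) (by norm_num) (by norm_num))
    (exp_neg_leJ (r := 0.788) 14 (by norm_num) (by norm_num) (by norm_num) (by norm_num))
    (exp_neg_leJ (r := 0.99) 14 (by norm_num) (by norm_num) (by norm_num) (by norm_num))
    (exp_neg_leJ (r := 0.99) 14 (by norm_num) (by norm_num) (by norm_num) (by norm_num))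
    (exp_neg_leJ (r := 0.99) 14 (by norm_num) (by norm_num) (by norm_num) (by norm_num))
    (by norm_num)

private theorem bxa9 {β x y : ℝ} (hβ : 0 < β) (hN : β * 20.84 ≤ 1) (hx1 : 1.15 ≤ x) (hx2 : x ≤ 1.21)
    (hy1 : -0.325 ≤ y) (hy2 : y ≤ -0.29) : ‖HH β (x + y * I) - 1‖ ≤ 0.7069 * β := by
  refine J_box 1.15 1.21 0.325 0 (-0.29) 1.289 1.2529 1.403 0.8094 0.4726 4.5651 20.84 0.972 3.938 1.559 0.6547 0.6444 0.4356 0.8889 2.3729 0.736 2.0923 2.9872 3.6063 0.000001472 0.0001143 0.0000003101 0.0000003101 0.0000003101 0.0000003101 0.0000003101 0.0000003101 0.7069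
    hβ hN hx1 hx2 hy1 hy2 (by norm_num) (by norm_num) (by norm_num) (by norm_num) (by norm_num) (by norm_num) (by norm_num) (by norm_num) (by norm_num) (by norm_num) (by norm_num) (by norm_num) (by norm_num) (by norm_num) (by norm_num) (by norm_num) (by norm_num) (by norm_num) (by norm_num) (by norm_num) (by norm_num) (by norm_num) (by norm_num) (by norm_num)
    (cube_sqrt_geJ (s := 0.8221) (by norm_num) (by norm_num) (by norm_num) (by norm_num))
    (cube_sqrt_geJ (s := 0.9386) (by norm_num) (by norm_num) (by norm_num) (by norm_num))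
    (by norm_num) (by norm_num) (by norm_num) (by norm_num) (by norm_num) (by norm_num) (by norm_num) (by norm_num) (by norm_num) (by norm_num) (by norm_num) (by norm_num) (by norm_num) (by norm_num) (by norm_num) (by norm_num) (by norm_num) (by norm_num)
    (exp_neg_leJ (r := 0.429) 13 (by norm_num) (by norm_num) (by norm_num) (by norm_num))
    (exp_neg_leJ (r := 0.077) 9 (by norm_num) (by norm_num) (by norm_num) (by norm_num))
    (exp_neg_leJ (r := 0.99) 14 (by norm_num) (by norm_num) (by norm_num) (by norm_num))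
    (exp_neg_leJ (r := 0.99) 14 (by norm_num) (by norm_num) (by norm_num) (by norm_num))
    (exp_neg_leJ (r := 0.99) 14 (by norm_num) (by norm_num) (by norm_num) (by norm_num))
    (exp_neg_leJ (r := 0.99) 14 (by norm_num) (by norm_num) (by norm_num) (by norm_num))
    (exp_neg_leJ (r := 0.99) 14 (by norm_num) (by norm_num) (by norm_num) (by norm_num))
    (exp_neg_leJ (r := 0.99) 14 (by norm_num) (by norm_num) (by norm_num) (by norm_num))
    (by norm_num)

private theorem bxa10 {β x y : ℝ} (hβ : 0 < β) (hN : β * 20.8 ≤ 1) (hx1 : 1.21 ≤ x) (hx2 : x ≤ 1.26)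
    (hy1 : -0.325 ≤ y) (hy2 : y ≤ -0.29) : ‖HH β (x + y * I) - 1‖ ≤ 0.6939 * β := by
  refine J_box 1.21 1.26 0.325 0 (-0.29) 1.3313 1.3013 1.4463 0.783 0.4798 4.5608 20.8 0.9775 3.976 1.563 0.6355 0.6656 0.4487 0.9094 2.3444 0.7651 2.1753 3.1072 3.5947 0.0000009737 0.00008855 0.0000003101 0.0000003101 0.0000003101 0.0000003101 0.0000003101 0.0000003101 0.6939
    hβ hN hx1 hx2 hy1 hy2 (by norm_num) (by norm_num) (by norm_num) (by norm_num) (by norm_num) (by norm_num) (by norm_num) (by norm_num) (by norm_num) (by norm_num) (by norm_num) (by norm_num) (by norm_num) (by norm_num) (by norm_num) (by norm_num) (by norm_num) (by norm_num) (by norm_num) (by norm_num) (by norm_num) (by norm_num) (by norm_num) (by norm_num)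
    (cube_sqrt_geJ (s := 0.821) (by norm_num) (by norm_num) (by norm_num) (by norm_num))
    (cube_sqrt_geJ (s := 0.9382) (by norm_num) (by norm_num) (by norm_num) (by norm_num))
    (by norm_num) (by norm_num) (by norm_num) (by norm_num) (by norm_num) (by norm_num) (by norm_num) (by norm_num) (by norm_num) (by norm_num) (by norm_num) (by norm_num) (by norm_num) (by norm_num) (by norm_num) (by norm_num) (by norm_num) (by norm_num)
    (exp_neg_leJ (r := 0.844) 13 (by norm_num) (by norm_num) (by norm_num) (by norm_num))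
    (exp_neg_leJ (r := 0.332) 9 (by norm_num) (by norm_num) (by norm_num) (by norm_num))
    (exp_neg_leJ (r := 0.99) 14 (by norm_num) (by norm_num) (by norm_num) (by norm_num))
    (exp_neg_leJ (r := 0.99) 14 (by norm_num) (by norm_num) (by norm_num) (by norm_num))
    (exp_neg_leJ (r := 0.99) 14 (by norm_num) (by norm_num) (by norm_num) (by norm_num))
    (exp_neg_leJ (r := 0.99) 14 (by norm_num) (by norm_num) (by norm_num) (by norm_num))
    (exp_neg_leJ (r := 0.99) 14 (by norm_num) (by norm_num) (by norm_num) (by norm_num))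
    (exp_neg_leJ (r := 0.99) 14 (by norm_num) (by norm_num) (by norm_num) (by norm_num))
    (by norm_num)

private theorem bxa11 {β x y : ℝ} (hβ : 0 < β) (hN : β * 20.8 ≤ 1) (hx1 : 1.26 ≤ x) (hx2 : x ≤ 1.31)
    (hy1 : -0.325 ≤ y) (hy2 : y ≤ -0.29) : ‖HH β (x + y * I) - 1‖ ≤ 0.6967 * β := by
  refine J_box 1.26 1.31 0.325 0 (-0.29) 1.3665 1.3498 1.4901 0.7642 0.487 4.5608 20.8 0.9878 4.047 1.571 0.6162 0.6832 0.4582 0.9265 2.3159 0.7894 2.2446 3.2072 3.5629 0.0000006741 0.00007266 0.0000003101 0.0000003101 0.0000003101 0.0000003101 0.0000003101 0.0000003101 0.6967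
    hβ hN hx1 hx2 hy1 hy2 (by norm_num) (by norm_num) (by norm_num) (by norm_num) (by norm_num) (by norm_num) (by norm_num) (by norm_num) (by norm_num) (by norm_num) (by norm_num) (by norm_num) (by norm_num) (by norm_num) (by norm_num) (by norm_num) (by norm_num) (by norm_num) (by norm_num) (by norm_num) (by norm_num) (by norm_num) (by norm_num) (by norm_num)
    (cube_sqrt_geJ (s := 0.8189) (by norm_num) (by norm_num) (by norm_num) (by norm_num))
    (cube_sqrt_geJ (s := 0.9375) (by norm_num) (by norm_num) (by norm_num) (by norm_num))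
    (by norm_num) (by norm_num) (by norm_num) (by norm_num) (by norm_num) (by norm_num) (by norm_num) (by norm_num) (by norm_num) (by norm_num) (by norm_num) (by norm_num) (by norm_num) (by norm_num) (by norm_num) (by norm_num) (by norm_num) (by norm_num)
    (exp_neg_leJ (r := 0.21) 14 (by norm_num) (by norm_num) (by norm_num) (by norm_num))
    (exp_neg_leJ (r := 0.53) 9 (by norm_num) (by norm_num) (by norm_num) (by norm_num))
    (exp_neg_leJ (r := 0.99) 14 (by norm_num) (by norm_num) (by norm_num) (by norm_num))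
    (exp_neg_leJ (r := 0.99) 14 (by norm_num) (by norm_num) (by norm_num) (by norm_num))
    (exp_neg_leJ (r := 0.99) 14 (by norm_num) (by norm_num) (by norm_num) (by norm_num))
    (exp_neg_leJ (r := 0.99) 14 (by norm_num) (by norm_num) (by norm_num) (by norm_num))
    (exp_neg_leJ (r := 0.99) 14 (by norm_num) (by norm_num) (by norm_num) (by norm_num))
    (exp_neg_leJ (r := 0.99) 14 (by norm_num) (by norm_num) (by norm_num) (by norm_num))
    (by norm_num)

private theorem bxa12 {β x y : ℝ} (hβ : 0 < β) (hN : β * 20.8 ≤ 1) (hx1 : 1.31 ≤ x) (hx2 : x ≤ 1.36)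
    (hy1 : -0.325 ≤ y) (hy2 : y ≤ -0.29) : ‖HH β (x + y * I) - 1‖ ≤ 0.6991 * β := by
  refine J_box 1.31 1.36 0.325 0 (-0.29) 1.4017 1.3983 1.5342 0.7464 0.4942 4.5608 20.8 0.9976 4.117 1.578 0.597 0.7008 0.4677 0.9437 2.2874 0.8137 2.3138 3.3072 3.5311 0.0000004676 0.00005965 0.0000003101 0.0000003101 0.0000003101 0.0000003101 0.0000003101 0.0000003101 0.6991
    hβ hN hx1 hx2 hy1 hy2 (by norm_num) (by norm_num) (by norm_num) (by norm_num) (by norm_num) (by norm_num) (by norm_num) (by norm_num) (by norm_num) (by norm_num) (by norm_num) (by norm_num) (by norm_num) (by norm_num) (by norm_num) (by norm_num) (by norm_num) (by norm_num) (by norm_num) (by norm_num) (by norm_num) (by norm_num) (by norm_num) (by norm_num)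
    (cube_sqrt_geJ (s := 0.8169) (by norm_num) (by norm_num) (by norm_num) (by norm_num))
    (cube_sqrt_geJ (s := 0.9369) (by norm_num) (by norm_num) (by norm_num) (by norm_num))
    (by norm_num) (by norm_num) (by norm_num) (by norm_num) (by norm_num) (by norm_num) (by norm_num) (by norm_num) (by norm_num) (by norm_num) (by norm_num) (by norm_num) (by norm_num) (by norm_num) (by norm_num) (by norm_num) (by norm_num) (by norm_num)
    (exp_neg_leJ (r := 0.576) 14 (by norm_num) (by norm_num) (by norm_num) (by norm_num))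
    (exp_neg_leJ (r := 0.728) 9 (by norm_num) (by norm_num) (by norm_num) (by norm_num))
    (exp_neg_leJ (r := 0.99) 14 (by norm_num) (by norm_num) (by norm_num) (by norm_num))
    (exp_neg_leJ (r := 0.99) 14 (by norm_num) (by norm_num) (by norm_num) (by norm_num))
    (exp_neg_leJ (r := 0.99) 14 (by norm_num) (by norm_num) (by norm_num) (by norm_num))
    (exp_neg_leJ (r := 0.99) 14 (by norm_num) (by norm_num) (by norm_num) (by norm_num))
    (exp_neg_leJ (r := 0.99) 14 (by norm_num) (by norm_num) (by norm_num) (by norm_num))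
    (exp_neg_leJ (r := 0.99) 14 (by norm_num) (by norm_num) (by norm_num) (by norm_num))
    (by norm_num)

private theorem bxa13 {β x y : ℝ} (hβ : 0 < β) (hN : β * 20.8 ≤ 1) (hx1 : 1.36 ≤ x) (hx2 : x ≤ 1.41)
    (hy1 : -0.325 ≤ y) (hy2 : y ≤ -0.29) : ‖HH β (x + y * I) - 1‖ ≤ 0.7016 * β := by
  refine J_box 1.36 1.41 0.325 0 (-0.29) 1.4369 1.447 1.5787 0.7295 0.5013 4.5608 20.8 1.0071 4.186 1.586 0.5778 0.7184 0.4772 0.9608 2.2588 0.838 2.383 3.4072 3.4987 0.0000003251 0.00004907 0.0000003101 0.0000003101 0.0000003101 0.0000003101 0.0000003101 0.0000003101 0.7016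
    hβ hN hx1 hx2 hy1 hy2 (by norm_num) (by norm_num) (by norm_num) (by norm_num) (by norm_num) (by norm_num) (by norm_num) (by norm_num) (by norm_num) (by norm_num) (by norm_num) (by norm_num) (by norm_num) (by norm_num) (by norm_num) (by norm_num) (by norm_num) (by norm_num) (by norm_num) (by norm_num) (by norm_num) (by norm_num) (by norm_num) (by norm_num)
    (cube_sqrt_geJ (s := 0.815) (by norm_num) (by norm_num) (by norm_num) (by norm_num))
    (cube_sqrt_geJ (s := 0.9363) (by norm_num) (by norm_num) (by norm_num) (by norm_num))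
    (by norm_num) (by norm_num) (by norm_num) (by norm_num) (by norm_num) (by norm_num) (by norm_num) (by norm_num) (by norm_num) (by norm_num) (by norm_num) (by norm_num) (by norm_num) (by norm_num) (by norm_num) (by norm_num) (by norm_num) (by norm_num)
    (exp_neg_leJ (r := 0.942) 14 (by norm_num) (by norm_num) (by norm_num) (by norm_num))
    (exp_neg_leJ (r := 0.925) 9 (by norm_num) (by norm_num) (by norm_num) (by norm_num))
    (exp_neg_leJ (r := 0.99) 14 (by norm_num) (by norm_num) (by norm_num) (by norm_num))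
    (exp_neg_leJ (r := 0.99) 14 (by norm_num) (by norm_num) (by norm_num) (by norm_num))
    (exp_neg_leJ (r := 0.99) 14 (by norm_num) (by norm_num) (by norm_num) (by norm_num))
    (exp_neg_leJ (r := 0.99) 14 (by norm_num) (by norm_num) (by norm_num) (by norm_num))
    (exp_neg_leJ (r := 0.99) 14 (by norm_num) (by norm_num) (by norm_num) (by norm_num))
    (exp_neg_leJ (r := 0.99) 14 (by norm_num) (by norm_num) (by norm_num) (by norm_num))
    (by norm_num)

private theorem bxa14 {β x y : ℝ} (hβ : 0 < β) (hN : β * 20.8 ≤ 1) (hx1 : 1.41 ≤ x) (hx2 : x ≤ 1.46)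
    (hy1 : -0.325 ≤ y) (hy2 : y ≤ -0.29) : ‖HH β (x + y * I) - 1‖ ≤ 0.7035 * β := by
  refine J_box 1.41 1.46 0.325 0 (-0.29) 1.4721 1.4958 1.6235 0.7134 0.5084 4.5608 20.8 1.0161 4.253 1.593 0.5585 0.736 0.4867 0.9779 2.2302 0.8623 2.4523 3.5072 3.466 0.0000003101 0.00004015 0.0000003101 0.0000003101 0.0000003101 0.0000003101 0.0000003101 0.0000003101 0.7035
    hβ hN hx1 hx2 hy1 hy2 (by norm_num) (by norm_num) (by norm_num) (by norm_num) (by norm_num) (by norm_num) (by norm_num) (by norm_num) (by norm_num) (by norm_num) (by norm_num) (by norm_num) (by norm_num) (by norm_num) (by norm_num) (by norm_num) (by norm_num) (by norm_num) (by norm_num) (by norm_num) (by norm_num) (by norm_num) (by norm_num) (by norm_num)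
    (cube_sqrt_geJ (s := 0.8132) (by norm_num) (by norm_num) (by norm_num) (by norm_num))
    (cube_sqrt_geJ (s := 0.9357) (by norm_num) (by norm_num) (by norm_num) (by norm_num))
    (by norm_num) (by norm_num) (by norm_num) (by norm_num) (by norm_num) (by norm_num) (by norm_num) (by norm_num) (by norm_num) (by norm_num) (by norm_num) (by norm_num) (by norm_num) (by norm_num) (by norm_num) (by norm_num) (by norm_num) (by norm_num)
    (exp_neg_leJ (r := 0.99) 14 (by norm_num) (by norm_num) (by norm_num) (by norm_num))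
    (exp_neg_leJ (r := 0.123) 10 (by norm_num) (by norm_num) (by norm_num) (by norm_num))
    (exp_neg_leJ (r := 0.99) 14 (by norm_num) (by norm_num) (by norm_num) (by norm_num))
    (exp_neg_leJ (r := 0.99) 14 (by norm_num) (by norm_num) (by norm_num) (by norm_num))
    (exp_neg_leJ (r := 0.99) 14 (by norm_num) (by norm_num) (by norm_num) (by norm_num))
    (exp_neg_leJ (r := 0.99) 14 (by norm_num) (by norm_num) (by norm_num) (by norm_num))
    (exp_neg_leJ (r := 0.99) 14 (by norm_num) (by norm_num) (by norm_num) (by norm_num))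
    (exp_neg_leJ (r := 0.99) 14 (by norm_num) (by norm_num) (by norm_num) (by norm_num))
    (by norm_num)

private theorem bxa15 {β x y : ℝ} (hβ : 0 < β) (hN : β * 20.8 ≤ 1) (hx1 : 1.46 ≤ x) (hx2 : x ≤ 1.51)
    (hy1 : -0.325 ≤ y) (hy2 : y ≤ -0.29) : ‖HH β (x + y * I) - 1‖ ≤ 0.7051 * β := by
  refine J_box 1.46 1.51 0.325 0 (-0.29) 1.5073 1.5446 1.6686 0.6981 0.5154 4.5608 20.8 1.0248 4.319 1.599 0.5393 0.7536 0.4962 0.995 2.2017 0.8866 2.5215 3.6072 3.4334 0.0000003101 0.00003297 0.0000003101 0.0000003101 0.0000003101 0.0000003101 0.0000003101 0.0000003101 0.7051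
    hβ hN hx1 hx2 hy1 hy2 (by norm_num) (by norm_num) (by norm_num) (by norm_num) (by norm_num) (by norm_num) (by norm_num) (by norm_num) (by norm_num) (by norm_num) (by norm_num) (by norm_num) (by norm_num) (by norm_num) (by norm_num) (by norm_num) (by norm_num) (by norm_num) (by norm_num) (by norm_num) (by norm_num) (by norm_num) (by norm_num) (by norm_num)
    (cube_sqrt_geJ (s := 0.8114) (by norm_num) (by norm_num) (by norm_num) (by norm_num))
    (cube_sqrt_geJ (s := 0.9351) (by norm_num) (by norm_num) (by norm_num) (by norm_num))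
    (by norm_num) (by norm_num) (by norm_num) (by norm_num) (by norm_num) (by norm_num) (by norm_num) (by norm_num) (by norm_num) (by norm_num) (by norm_num) (by norm_num) (by norm_num) (by norm_num) (by norm_num) (by norm_num) (by norm_num) (by norm_num)
    (exp_neg_leJ (r := 0.99) 14 (by norm_num) (by norm_num) (by norm_num) (by norm_num))
    (exp_neg_leJ (r := 0.32) 10 (by norm_num) (by norm_num) (by norm_num) (by norm_num))
    (exp_neg_leJ (r := 0.99) 14 (by norm_num) (by norm_num) (by norm_num) (by norm_num))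
    (exp_neg_leJ (r := 0.99) 14 (by norm_num) (by norm_num) (by norm_num) (by norm_num))
    (exp_neg_leJ (r := 0.99) 14 (by norm_num) (by norm_num) (by norm_num) (by norm_num))
    (exp_neg_leJ (r := 0.99) 14 (by norm_num) (by norm_num) (by norm_num) (by norm_num))
    (exp_neg_leJ (r := 0.99) 14 (by norm_num) (by norm_num) (by norm_num) (by norm_num))
    (exp_neg_leJ (r := 0.99) 14 (by norm_num) (by norm_num) (by norm_num) (by norm_num))
    (by norm_num)

private theorem bxa16 {β x y : ℝ} (hβ : 0 < β) (hN : β * 20.8 ≤ 1) (hx1 : 1.51 ≤ x) (hx2 : x ≤ 1.56)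
    (hy1 : -0.325 ≤ y) (hy2 : y ≤ -0.29) : ‖HH β (x + y * I) - 1‖ ≤ 0.7064 * β := by
  refine J_box 1.51 1.56 0.325 0 (-0.29) 1.5425 1.5935 1.714 0.6834 0.5223 4.5608 20.8 1.0331 4.383 1.606 0.5201 0.7712 0.5056 1.0121 2.1731 0.9109 2.5907 3.7072 3.4004 0.0000003101 0.00002711 0.0000003101 0.0000003101 0.0000003101 0.0000003101 0.0000003101 0.0000003101 0.7064
    hβ hN hx1 hx2 hy1 hy2 (by norm_num) (by norm_num) (by norm_num) (by norm_num) (by norm_num) (by norm_num) (by norm_num) (by norm_num) (by norm_num) (by norm_num) (by norm_num) (by norm_num) (by norm_num) (by norm_num) (by norm_num) (by norm_num) (by norm_num) (by norm_num) (by norm_num) (by norm_num) (by norm_num) (by norm_num) (by norm_num) (by norm_num)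
    (cube_sqrt_geJ (s := 0.8097) (by norm_num) (by norm_num) (by norm_num) (by norm_num))
    (cube_sqrt_geJ (s := 0.9346) (by norm_num) (by norm_num) (by norm_num) (by norm_num))
    (by norm_num) (by norm_num) (by norm_num) (by norm_num) (by norm_num) (by norm_num) (by norm_num) (by norm_num) (by norm_num) (by norm_num) (by norm_num) (by norm_num) (by norm_num) (by norm_num) (by norm_num) (by norm_num) (by norm_num) (by norm_num)
    (exp_neg_leJ (r := 0.99) 14 (by norm_num) (by norm_num) (by norm_num) (by norm_num))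
    (exp_neg_leJ (r := 0.516) 10 (by norm_num) (by norm_num) (by norm_num) (by norm_num))
    (exp_neg_leJ (r := 0.99) 14 (by norm_num) (by norm_num) (by norm_num) (by norm_num))
    (exp_neg_leJ (r := 0.99) 14 (by norm_num) (by norm_num) (by norm_num) (by norm_num))
    (exp_neg_leJ (r := 0.99) 14 (by norm_num) (by norm_num) (by norm_num) (by norm_num))
    (exp_neg_leJ (r := 0.99) 14 (by norm_num) (by norm_num) (by norm_num) (by norm_num))
    (exp_neg_leJ (r := 0.99) 14 (by norm_num) (by norm_num) (by norm_num) (by norm_num))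
    (exp_neg_leJ (r := 0.99) 14 (by norm_num) (by norm_num) (by norm_num) (by norm_num))
    (by norm_num)

private theorem bxa17 {β x y : ℝ} (hβ : 0 < β) (hN : β * 20.8 ≤ 1) (hx1 : 1.56 ≤ x) (hx2 : x ≤ 1.6)
    (hy1 : -0.325 ≤ y) (hy2 : y ≤ -0.29) : ‖HH β (x + y * I) - 1‖ ≤ 0.6934 * β := by
  refine J_box 1.56 1.6 0.325 0 (-0.29) 1.5777 1.6327 1.7505 0.6677 0.5279 4.5608 20.8 1.0349 4.397 1.607 0.5047 0.7888 0.5167 1.0292 2.1501 0.9351 2.6599 3.8072 3.3939 0.0000003101 0.00002154 0.0000003101 0.0000003101 0.0000003101 0.0000003101 0.0000003101 0.0000003101 0.6934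
    hβ hN hx1 hx2 hy1 hy2 (by norm_num) (by norm_num) (by norm_num) (by norm_num) (by norm_num) (by norm_num) (by norm_num) (by norm_num) (by norm_num) (by norm_num) (by norm_num) (by norm_num) (by norm_num) (by norm_num) (by norm_num) (by norm_num) (by norm_num) (by norm_num) (by norm_num) (by norm_num) (by norm_num) (by norm_num) (by norm_num) (by norm_num)
    (cube_sqrt_geJ (s := 0.8093) (by norm_num) (by norm_num) (by norm_num) (by norm_num))
    (cube_sqrt_geJ (s := 0.9344) (by norm_num) (by norm_num) (by norm_num) (by norm_num))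
    (by norm_num) (by norm_num) (by norm_num) (by norm_num) (by norm_num) (by norm_num) (by norm_num) (by norm_num) (by norm_num) (by norm_num) (by norm_num) (by norm_num) (by norm_num) (by norm_num) (by norm_num) (by norm_num) (by norm_num) (by norm_num)
    (exp_neg_leJ (r := 0.99) 14 (by norm_num) (by norm_num) (by norm_num) (by norm_num))
    (exp_neg_leJ (r := 0.747) 10 (by norm_num) (by norm_num) (by norm_num) (by norm_num))
    (exp_neg_leJ (r := 0.99) 14 (by norm_num) (by norm_num) (by norm_num) (by norm_num))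
    (exp_neg_leJ (r := 0.99) 14 (by norm_num) (by norm_num) (by norm_num) (by norm_num))
    (exp_neg_leJ (r := 0.99) 14 (by norm_num) (by norm_num) (by norm_num) (by norm_num))
    (exp_neg_leJ (r := 0.99) 14 (by norm_num) (by norm_num) (by norm_num) (by norm_num))
    (exp_neg_leJ (r := 0.99) 14 (by norm_num) (by norm_num) (by norm_num) (by norm_num))
    (exp_neg_leJ (r := 0.99) 14 (by norm_num) (by norm_num) (by norm_num) (by norm_num))
    (by norm_num)

private theorem bxa18 {β x y : ℝ} (hβ : 0 < β) (hN : β * 20.8 ≤ 1) (hx1 : 1.6 ≤ x) (hx2 : x ≤ 1.64)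
    (hy1 : -0.325 ≤ y) (hy2 : y ≤ -0.29) : ‖HH β (x + y * I) - 1‖ ≤ 0.6941 * β := by
  refine J_box 1.6 1.64 0.325 0 (-0.29) 1.6059 1.6719 1.7871 0.6569 0.5334 4.5608 20.8 1.0411 4.446 1.612 0.4893 0.8029 0.5242 1.0429 2.1272 0.9546 2.7153 3.8872 3.3673 0.0000003101 0.00001845 0.0000003101 0.0000003101 0.0000003101 0.0000003101 0.0000003101 0.0000003101 0.6941
    hβ hN hx1 hx2 hy1 hy2 (by norm_num) (by norm_num) (by norm_num) (by norm_num) (by norm_num) (by norm_num) (by norm_num) (by norm_num) (by norm_num) (by norm_num) (by norm_num) (by norm_num) (by norm_num) (by norm_num) (by norm_num) (by norm_num) (by norm_num) (by norm_num) (by norm_num) (by norm_num) (by norm_num) (by norm_num) (by norm_num) (by norm_num)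
    (cube_sqrt_geJ (s := 0.808) (by norm_num) (by norm_num) (by norm_num) (by norm_num))
    (cube_sqrt_geJ (s := 0.934) (by norm_num) (by norm_num) (by norm_num) (by norm_num))
    (by norm_num) (by norm_num) (by norm_num) (by norm_num) (by norm_num) (by norm_num) (by norm_num) (by norm_num) (by norm_num) (by norm_num) (by norm_num) (by norm_num) (by norm_num) (by norm_num) (by norm_num) (by norm_num) (by norm_num) (by norm_num)
    (exp_neg_leJ (r := 0.99) 14 (by norm_num) (by norm_num) (by norm_num) (by norm_num))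
    (exp_neg_leJ (r := 0.903) 10 (by norm_num) (by norm_num) (by norm_num) (by norm_num))
    (exp_neg_leJ (r := 0.99) 14 (by norm_num) (by norm_num) (by norm_num) (by norm_num))
    (exp_neg_leJ (r := 0.99) 14 (by norm_num) (by norm_num) (by norm_num) (by norm_num))
    (exp_neg_leJ (r := 0.99) 14 (by norm_num) (by norm_num) (by norm_num) (by norm_num))
    (exp_neg_leJ (r := 0.99) 14 (by norm_num) (by norm_num) (by norm_num) (by norm_num))
    (exp_neg_leJ (r := 0.99) 14 (by norm_num) (by norm_num) (by norm_num) (by norm_num))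
    (exp_neg_leJ (r := 0.99) 14 (by norm_num) (by norm_num) (by norm_num) (by norm_num))
    (by norm_num)

private theorem bxa19 {β x y : ℝ} (hβ : 0 < β) (hN : β * 20.8 ≤ 1) (hx1 : 1.64 ≤ x) (hx2 : x ≤ 1.68)
    (hy1 : -0.325 ≤ y) (hy2 : y ≤ -0.29) : ‖HH β (x + y * I) - 1‖ ≤ 0.6952 * β := by
  refine J_box 1.64 1.68 0.325 0 (-0.29) 1.634 1.7112 1.8239 0.6466 0.5388 4.5608 20.8 1.0473 4.496 1.617 0.4739 0.8169 0.5317 1.0566 2.1043 0.974 2.7707 3.9672 3.3405 0.0000003101 0.00001575 0.0000003101 0.0000003101 0.0000003101 0.0000003101 0.0000003101 0.0000003101 0.6952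
    hβ hN hx1 hx2 hy1 hy2 (by norm_num) (by norm_num) (by norm_num) (by norm_num) (by norm_num) (by norm_num) (by norm_num) (by norm_num) (by norm_num) (by norm_num) (by norm_num) (by norm_num) (by norm_num) (by norm_num) (by norm_num) (by norm_num) (by norm_num) (by norm_num) (by norm_num) (by norm_num) (by norm_num) (by norm_num) (by norm_num) (by norm_num)
    (cube_sqrt_geJ (s := 0.8067) (by norm_num) (by norm_num) (by norm_num) (by norm_num))
    (cube_sqrt_geJ (s := 0.9336) (by norm_num) (by norm_num) (by norm_num) (by norm_num))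
    (by norm_num) (by norm_num) (by norm_num) (by norm_num) (by norm_num) (by norm_num) (by norm_num) (by norm_num) (by norm_num) (by norm_num) (by norm_num) (by norm_num) (by norm_num) (by norm_num) (by norm_num) (by norm_num) (by norm_num) (by norm_num)
    (exp_neg_leJ (r := 0.99) 14 (by norm_num) (by norm_num) (by norm_num) (by norm_num))
    (exp_neg_leJ (r := 0.059) 11 (by norm_num) (by norm_num) (by norm_num) (by norm_num))
    (exp_neg_leJ (r := 0.99) 14 (by norm_num) (by norm_num) (by norm_num) (by norm_num))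
    (exp_neg_leJ (r := 0.99) 14 (by norm_num) (by norm_num) (by norm_num) (by norm_num))
    (exp_neg_leJ (r := 0.99) 14 (by norm_num) (by norm_num) (by norm_num) (by norm_num))
    (exp_neg_leJ (r := 0.99) 14 (by norm_num) (by norm_num) (by norm_num) (by norm_num))
    (exp_neg_leJ (r := 0.99) 14 (by norm_num) (by norm_num) (by norm_num) (by norm_num))
    (exp_neg_leJ (r := 0.99) 14 (by norm_num) (by norm_num) (by norm_num) (by norm_num))
    (by norm_num)

private theorem bxa20 {β x y : ℝ} (hβ : 0 < β) (hN : β * 20.8 ≤ 1) (hx1 : 1.68 ≤ x) (hx2 : x ≤ 1.72)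
    (hy1 : -0.325 ≤ y) (hy2 : y ≤ -0.29) : ‖HH β (x + y * I) - 1‖ ≤ 0.6957 * β := by
  refine J_box 1.68 1.72 0.325 0 (-0.29) 1.6622 1.7505 1.8608 0.6366 0.5443 4.5608 20.8 1.0532 4.543 1.622 0.4585 0.831 0.5393 1.0703 2.0814 0.9934 2.8261 4.0472 3.3137 0.0000003101 0.00001345 0.0000003101 0.0000003101 0.0000003101 0.0000003101 0.0000003101 0.0000003101 0.6957
    hβ hN hx1 hx2 hy1 hy2 (by norm_num) (by norm_num) (by norm_num) (by norm_num) (by norm_num) (by norm_num) (by norm_num) (by norm_num) (by norm_num) (by norm_num) (by norm_num) (by norm_num) (by norm_num) (by norm_num) (by norm_num) (by norm_num) (by norm_num) (by norm_num) (by norm_num) (by norm_num) (by norm_num) (by norm_num) (by norm_num) (by norm_num)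
    (cube_sqrt_geJ (s := 0.8055) (by norm_num) (by norm_num) (by norm_num) (by norm_num))
    (cube_sqrt_geJ (s := 0.9332) (by norm_num) (by norm_num) (by norm_num) (by norm_num))
    (by norm_num) (by norm_num) (by norm_num) (by norm_num) (by norm_num) (by norm_num) (by norm_num) (by norm_num) (by norm_num) (by norm_num) (by norm_num) (by norm_num) (by norm_num) (by norm_num) (by norm_num) (by norm_num) (by norm_num) (by norm_num)
    (exp_neg_leJ (r := 0.99) 14 (by norm_num) (by norm_num) (by norm_num) (by norm_num))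
    (exp_neg_leJ (r := 0.217) 11 (by norm_num) (by norm_num) (by norm_num) (by norm_num))
    (exp_neg_leJ (r := 0.99) 14 (by norm_num) (by norm_num) (by norm_num) (by norm_num))
    (exp_neg_leJ (r := 0.99) 14 (by norm_num) (by norm_num) (by norm_num) (by norm_num))
    (exp_neg_leJ (r := 0.99) 14 (by norm_num) (by norm_num) (by norm_num) (by norm_num))
    (exp_neg_leJ (r := 0.99) 14 (by norm_num) (by norm_num) (by norm_num) (by norm_num))
    (exp_neg_leJ (r := 0.99) 14 (by norm_num) (by norm_num) (by norm_num) (by norm_num))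
    (exp_neg_leJ (r := 0.99) 14 (by norm_num) (by norm_num) (by norm_num) (by norm_num))
    (by norm_num)

private theorem bxa21 {β x y : ℝ} (hβ : 0 < β) (hN : β * 20.8 ≤ 1) (hx1 : 1.72 ≤ x) (hx2 : x ≤ 1.76)
    (hy1 : -0.325 ≤ y) (hy2 : y ≤ -0.29) : ‖HH β (x + y * I) - 1‖ ≤ 0.696 * β := by
  refine J_box 1.72 1.76 0.325 0 (-0.29) 1.6904 1.7898 1.8979 0.6269 0.5497 4.5608 20.8 1.0589 4.59 1.626 0.4431 0.8451 0.5468 1.084 2.0584 1.0129 2.8815 4.1272 3.2868 0.0000003101 0.00001151 0.0000003101 0.0000003101 0.0000003101 0.0000003101 0.0000003101 0.0000003101 0.696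
    hβ hN hx1 hx2 hy1 hy2 (by norm_num) (by norm_num) (by norm_num) (by norm_num) (by norm_num) (by norm_num) (by norm_num) (by norm_num) (by norm_num) (by norm_num) (by norm_num) (by norm_num) (by norm_num) (by norm_num) (by norm_num) (by norm_num) (by norm_num) (by norm_num) (by norm_num) (by norm_num) (by norm_num) (by norm_num) (by norm_num) (by norm_num)
    (cube_sqrt_geJ (s := 0.8043) (by norm_num) (by norm_num) (by norm_num) (by norm_num))
    (cube_sqrt_geJ (s := 0.9329) (by norm_num) (by norm_num) (by norm_num) (by norm_num))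
    (by norm_num) (by norm_num) (by norm_num) (by norm_num) (by norm_num) (by norm_num) (by norm_num) (by norm_num) (by norm_num) (by norm_num) (by norm_num) (by norm_num) (by norm_num) (by norm_num) (by norm_num) (by norm_num) (by norm_num) (by norm_num)
    (exp_neg_leJ (r := 0.99) 14 (by norm_num) (by norm_num) (by norm_num) (by norm_num))
    (exp_neg_leJ (r := 0.373) 11 (by norm_num) (by norm_num) (by norm_num) (by norm_num))
    (exp_neg_leJ (r := 0.99) 14 (by norm_num) (by norm_num) (by norm_num) (by norm_num))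
    (exp_neg_leJ (r := 0.99) 14 (by norm_num) (by norm_num) (by norm_num) (by norm_num))
    (exp_neg_leJ (r := 0.99) 14 (by norm_num) (by norm_num) (by norm_num) (by norm_num))
    (exp_neg_leJ (r := 0.99) 14 (by norm_num) (by norm_num) (by norm_num) (by norm_num))
    (exp_neg_leJ (r := 0.99) 14 (by norm_num) (by norm_num) (by norm_num) (by norm_num))
    (exp_neg_leJ (r := 0.99) 14 (by norm_num) (by norm_num) (by norm_num) (by norm_num))
    (by norm_num)

private theorem bxa22 {β x y : ℝ} (hβ : 0 < β) (hN : β * 20.8 ≤ 1) (hx1 : 1.76 ≤ x) (hx2 : x ≤ 1.8)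
    (hy1 : -0.325 ≤ y) (hy2 : y ≤ -0.29) : ‖HH β (x + y * I) - 1‖ ≤ 0.6965 * β := by
  refine J_box 1.76 1.8 0.325 0 (-0.29) 1.7185 1.8292 1.935 0.6175 0.555 4.5608 20.8 1.0645 4.637 1.631 0.4278 0.8592 0.5543 1.0977 2.0354 1.0323 2.9369 4.2072 3.2597 0.0000003101 0.000009843 0.0000003101 0.0000003101 0.0000003101 0.0000003101 0.0000003101 0.0000003101 0.6965
    hβ hN hx1 hx2 hy1 hy2 (by norm_num) (by norm_num) (by norm_num) (by norm_num) (by norm_num) (by norm_num) (by norm_num) (by norm_num) (by norm_num) (by norm_num) (by norm_num) (by norm_num) (by norm_num) (by norm_num) (by norm_num) (by norm_num) (by norm_num) (by norm_num) (by norm_num) (by norm_num) (by norm_num) (by norm_num) (by norm_num) (by norm_num)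
    (cube_sqrt_geJ (s := 0.8032) (by norm_num) (by norm_num) (by norm_num) (by norm_num))
    (cube_sqrt_geJ (s := 0.9325) (by norm_num) (by norm_num) (by norm_num) (by norm_num))
    (by norm_num) (by norm_num) (by norm_num) (by norm_num) (by norm_num) (by norm_num) (by norm_num) (by norm_num) (by norm_num) (by norm_num) (by norm_num) (by norm_num) (by norm_num) (by norm_num) (by norm_num) (by norm_num) (by norm_num) (by norm_num)
    (exp_neg_leJ (r := 0.99) 14 (by norm_num) (by norm_num) (by norm_num) (by norm_num))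
    (exp_neg_leJ (r := 0.529) 11 (by norm_num) (by norm_num) (by norm_num) (by norm_num))
    (exp_neg_leJ (r := 0.99) 14 (by norm_num) (by norm_num) (by norm_num) (by norm_num))
    (exp_neg_leJ (r := 0.99) 14 (by norm_num) (by norm_num) (by norm_num) (by norm_num))
    (exp_neg_leJ (r := 0.99) 14 (by norm_num) (by norm_num) (by norm_num) (by norm_num))
    (exp_neg_leJ (r := 0.99) 14 (by norm_num) (by norm_num) (by norm_num) (by norm_num))
    (exp_neg_leJ (r := 0.99) 14 (by norm_num) (by norm_num) (by norm_num) (by norm_num))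
    (exp_neg_leJ (r := 0.99) 14 (by norm_num) (by norm_num) (by norm_num) (by norm_num))
    (by norm_num)

private theorem bxa23 {β x y : ℝ} (hβ : 0 < β) (hN : β * 20.8 ≤ 1) (hx1 : 1.8 ≤ x) (hx2 : x ≤ 1.84)
    (hy1 : -0.325 ≤ y) (hy2 : y ≤ -0.29) : ‖HH β (x + y * I) - 1‖ ≤ 0.6963 * β := by
  refine J_box 1.8 1.84 0.325 0 (-0.29) 1.7467 1.8685 1.9723 0.6084 0.5603 4.5608 20.8 1.0698 4.681 1.635 0.4124 0.8733 0.5619 1.1114 2.0125 1.0517 2.9923 4.2872 3.2329 0.0000003101 0.000008409 0.0000003101 0.0000003101 0.0000003101 0.0000003101 0.0000003101 0.0000003101 0.6963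
    hβ hN hx1 hx2 hy1 hy2 (by norm_num) (by norm_num) (by norm_num) (by norm_num) (by norm_num) (by norm_num) (by norm_num) (by norm_num) (by norm_num) (by norm_num) (by norm_num) (by norm_num) (by norm_num) (by norm_num) (by norm_num) (by norm_num) (by norm_num) (by norm_num) (by norm_num) (by norm_num) (by norm_num) (by norm_num) (by norm_num) (by norm_num)
    (cube_sqrt_geJ (s := 0.8021) (by norm_num) (by norm_num) (by norm_num) (by norm_num))
    (cube_sqrt_geJ (s := 0.9322) (by norm_num) (by norm_num) (by norm_num) (by norm_num))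
    (by norm_num) (by norm_num) (by norm_num) (by norm_num) (by norm_num) (by norm_num) (by norm_num) (by norm_num) (by norm_num) (by norm_num) (by norm_num) (by norm_num) (by norm_num) (by norm_num) (by norm_num) (by norm_num) (by norm_num) (by norm_num)
    (exp_neg_leJ (r := 0.99) 14 (by norm_num) (by norm_num) (by norm_num) (by norm_num))
    (exp_neg_leJ (r := 0.687) 11 (by norm_num) (by norm_num) (by norm_num) (by norm_num))
    (exp_neg_leJ (r := 0.99) 14 (by norm_num) (by norm_num) (by norm_num) (by norm_num))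
    (exp_neg_leJ (r := 0.99) 14 (by norm_num) (by norm_num) (by norm_num) (by norm_num))
    (exp_neg_leJ (r := 0.99) 14 (by norm_num) (by norm_num) (by norm_num) (by norm_num))
    (exp_neg_leJ (r := 0.99) 14 (by norm_num) (by norm_num) (by norm_num) (by norm_num))
    (exp_neg_leJ (r := 0.99) 14 (by norm_num) (by norm_num) (by norm_num) (by norm_num))
    (exp_neg_leJ (r := 0.99) 14 (by norm_num) (by norm_num) (by norm_num) (by norm_num))
    (by norm_num)

private theorem bxa24 {β x y : ℝ} (hβ : 0 < β) (hN : β * 20.8 ≤ 1) (hx1 : 1.84 ≤ x) (hx2 : x ≤ 1.88)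
    (hy1 : -0.325 ≤ y) (hy2 : y ≤ -0.29) : ‖HH β (x + y * I) - 1‖ ≤ 0.6963 * β := by
  refine J_box 1.84 1.88 0.325 0 (-0.29) 1.7749 1.9079 2.0097 0.5996 0.5656 4.5608 20.8 1.075 4.726 1.639 0.397 0.8874 0.5694 1.1251 1.9895 1.0711 3.0476 4.3672 3.2058 0.0000003101 0.000007202 0.0000003101 0.0000003101 0.0000003101 0.0000003101 0.0000003101 0.0000003101 0.6963
    hβ hN hx1 hx2 hy1 hy2 (by norm_num) (by norm_num) (by norm_num) (by norm_num) (by norm_num) (by norm_num) (by norm_num) (by norm_num) (by norm_num) (by norm_num) (by norm_num) (by norm_num) (by norm_num) (by norm_num) (by norm_num) (by norm_num) (by norm_num) (by norm_num) (by norm_num) (by norm_num) (by norm_num) (by norm_num) (by norm_num) (by norm_num)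
    (cube_sqrt_geJ (s := 0.801) (by norm_num) (by norm_num) (by norm_num) (by norm_num))
    (cube_sqrt_geJ (s := 0.9318) (by norm_num) (by norm_num) (by norm_num) (by norm_num))
    (by norm_num) (by norm_num) (by norm_num) (by norm_num) (by norm_num) (by norm_num) (by norm_num) (by norm_num) (by norm_num) (by norm_num) (by norm_num) (by norm_num) (by norm_num) (by norm_num) (by norm_num) (by norm_num) (by norm_num) (by norm_num)
    (exp_neg_leJ (r := 0.99) 14 (by norm_num) (by norm_num) (by norm_num) (by norm_num))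
    (exp_neg_leJ (r := 0.843) 11 (by norm_num) (by norm_num) (by norm_num) (by norm_num))
    (exp_neg_leJ (r := 0.99) 14 (by norm_num) (by norm_num) (by norm_num) (by norm_num))
    (exp_neg_leJ (r := 0.99) 14 (by norm_num) (by norm_num) (by norm_num) (by norm_num))
    (exp_neg_leJ (r := 0.99) 14 (by norm_num) (by norm_num) (by norm_num) (by norm_num))
    (exp_neg_leJ (r := 0.99) 14 (by norm_num) (by norm_num) (by norm_num) (by norm_num))
    (exp_neg_leJ (r := 0.99) 14 (by norm_num) (by norm_num) (by norm_num) (by norm_num))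
    (exp_neg_leJ (r := 0.99) 14 (by norm_num) (by norm_num) (by norm_num) (by norm_num))
    (by norm_num)

private theorem bxa25 {β x y : ℝ} (hβ : 0 < β) (hN : β * 20.8 ≤ 1) (hx1 : 1.88 ≤ x) (hx2 : x ≤ 1.92)
    (hy1 : -0.325 ≤ y) (hy2 : y ≤ -0.29) : ‖HH β (x + y * I) - 1‖ ≤ 0.6961 * β := by
  refine J_box 1.88 1.92 0.325 0 (-0.29) 1.803 1.9474 2.0471 0.591 0.5708 4.5608 20.8 1.0801 4.77 1.643 0.3816 0.9014 0.5769 1.1388 1.9666 1.0906 3.103 4.4472 3.1784 0.0000003101 0.000006228 0.0000003101 0.0000003101 0.0000003101 0.0000003101 0.0000003101 0.0000003101 0.6961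
    hβ hN hx1 hx2 hy1 hy2 (by norm_num) (by norm_num) (by norm_num) (by norm_num) (by norm_num) (by norm_num) (by norm_num) (by norm_num) (by norm_num) (by norm_num) (by norm_num) (by norm_num) (by norm_num) (by norm_num) (by norm_num) (by norm_num) (by norm_num) (by norm_num) (by norm_num) (by norm_num) (by norm_num) (by norm_num) (by norm_num) (by norm_num)
    (cube_sqrt_geJ (s := 0.7999) (by norm_num) (by norm_num) (by norm_num) (by norm_num))
    (cube_sqrt_geJ (s := 0.9315) (by norm_num) (by norm_num) (by norm_num) (by norm_num))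
    (by norm_num) (by norm_num) (by norm_num) (by norm_num) (by norm_num) (by norm_num) (by norm_num) (by norm_num) (by norm_num) (by norm_num) (by norm_num) (by norm_num) (by norm_num) (by norm_num) (by norm_num) (by norm_num) (by norm_num) (by norm_num)
    (exp_neg_leJ (r := 0.99) 14 (by norm_num) (by norm_num) (by norm_num) (by norm_num))
    (exp_neg_leJ (r := 0.99) 11 (by norm_num) (by norm_num) (by norm_num) (by norm_num))
    (exp_neg_leJ (r := 0.99) 14 (by norm_num) (by norm_num) (by norm_num) (by norm_num))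
    (exp_neg_leJ (r := 0.99) 14 (by norm_num) (by norm_num) (by norm_num) (by norm_num))
    (exp_neg_leJ (r := 0.99) 14 (by norm_num) (by norm_num) (by norm_num) (by norm_num))
    (exp_neg_leJ (r := 0.99) 14 (by norm_num) (by norm_num) (by norm_num) (by norm_num))
    (exp_neg_leJ (r := 0.99) 14 (by norm_num) (by norm_num) (by norm_num) (by norm_num))
    (exp_neg_leJ (r := 0.99) 14 (by norm_num) (by norm_num) (by norm_num) (by norm_num))
    (by norm_num)

private theorem bxa26 {β x y : ℝ} (hβ : 0 < β) (hN : β * 20.8 ≤ 1) (hx1 : 1.92 ≤ x) (hx2 : x ≤ 1.96)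
    (hy1 : -0.325 ≤ y) (hy2 : y ≤ -0.29) : ‖HH β (x + y * I) - 1‖ ≤ 0.6958 * β := by
  refine J_box 1.92 1.96 0.325 0 (-0.29) 1.8312 1.9868 2.0847 0.5827 0.5761 4.5608 20.8 1.085 4.813 1.647 0.3662 0.9155 0.5844 1.1525 1.9436 1.11 3.1584 4.5272 3.1513 0.0000003101 0.000005263 0.0000003101 0.0000003101 0.0000003101 0.0000003101 0.0000003101 0.0000003101 0.6958
    hβ hN hx1 hx2 hy1 hy2 (by norm_num) (by norm_num) (by norm_num) (by norm_num) (by norm_num) (by norm_num) (by norm_num) (by norm_num) (by norm_num) (by norm_num) (by norm_num) (by norm_num) (by norm_num) (by norm_num) (by norm_num) (by norm_num) (by norm_num) (by norm_num) (by norm_num) (by norm_num) (by norm_num) (by norm_num) (by norm_num) (by norm_num)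
    (cube_sqrt_geJ (s := 0.7989) (by norm_num) (by norm_num) (by norm_num) (by norm_num))
    (cube_sqrt_geJ (s := 0.9312) (by norm_num) (by norm_num) (by norm_num) (by norm_num))
    (by norm_num) (by norm_num) (by norm_num) (by norm_num) (by norm_num) (by norm_num) (by norm_num) (by norm_num) (by norm_num) (by norm_num) (by norm_num) (by norm_num) (by norm_num) (by norm_num) (by norm_num) (by norm_num) (by norm_num) (by norm_num)
    (exp_neg_leJ (r := 0.99) 14 (by norm_num) (by norm_num) (by norm_num) (by norm_num))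
    (exp_neg_leJ (r := 0.155) 12 (by norm_num) (by norm_num) (by norm_num) (by norm_num))
    (exp_neg_leJ (r := 0.99) 14 (by norm_num) (by norm_num) (by norm_num) (by norm_num))
    (exp_neg_leJ (r := 0.99) 14 (by norm_num) (by norm_num) (by norm_num) (by norm_num))
    (exp_neg_leJ (r := 0.99) 14 (by norm_num) (by norm_num) (by norm_num) (by norm_num))
    (exp_neg_leJ (r := 0.99) 14 (by norm_num) (by norm_num) (by norm_num) (by norm_num))
    (exp_neg_leJ (r := 0.99) 14 (by norm_num) (by norm_num) (by norm_num) (by norm_num))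
    (exp_neg_leJ (r := 0.99) 14 (by norm_num) (by norm_num) (by norm_num) (by norm_num))
    (by norm_num)

private theorem bxa27 {β x y : ℝ} (hβ : 0 < β) (hN : β * 20.8 ≤ 1) (hx1 : 1.96 ≤ x) (hx2 : x ≤ 2)
    (hy1 : -0.325 ≤ y) (hy2 : y ≤ -0.29) : ‖HH β (x + y * I) - 1‖ ≤ 0.6954 * β := by
  refine J_box 1.96 2 0.325 0 (-0.29) 1.8594 2.0263 2.1223 0.5746 0.5812 4.5608 20.8 1.0898 4.855 1.651 0.3508 0.9296 0.5919 1.1662 1.9206 1.1294 3.2138 4.6072 3.124 0.0000003101 0.000004503 0.0000003101 0.0000003101 0.0000003101 0.0000003101 0.0000003101 0.0000003101 0.6954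
    hβ hN hx1 hx2 hy1 hy2 (by norm_num) (by norm_num) (by norm_num) (by norm_num) (by norm_num) (by norm_num) (by norm_num) (by norm_num) (by norm_num) (by norm_num) (by norm_num) (by norm_num) (by norm_num) (by norm_num) (by norm_num) (by norm_num) (by norm_num) (by norm_num) (by norm_num) (by norm_num) (by norm_num) (by norm_num) (by norm_num) (by norm_num)
    (cube_sqrt_geJ (s := 0.7979) (by norm_num) (by norm_num) (by norm_num) (by norm_num))
    (cube_sqrt_geJ (s := 0.9308) (by norm_num) (by norm_num) (by norm_num) (by norm_num))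
    (by norm_num) (by norm_num) (by norm_num) (by norm_num) (by norm_num) (by norm_num) (by norm_num) (by norm_num) (by norm_num) (by norm_num) (by norm_num) (by norm_num) (by norm_num) (by norm_num) (by norm_num) (by norm_num) (by norm_num) (by norm_num)
    (exp_neg_leJ (r := 0.99) 14 (by norm_num) (by norm_num) (by norm_num) (by norm_num))
    (exp_neg_leJ (r := 0.311) 12 (by norm_num) (by norm_num) (by norm_num) (by norm_num))
    (exp_neg_leJ (r := 0.99) 14 (by norm_num) (by norm_num) (by norm_num) (by norm_num))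
    (exp_neg_leJ (r := 0.99) 14 (by norm_num) (by norm_num) (by norm_num) (by norm_num))
    (exp_neg_leJ (r := 0.99) 14 (by norm_num) (by norm_num) (by norm_num) (by norm_num))
    (exp_neg_leJ (r := 0.99) 14 (by norm_num) (by norm_num) (by norm_num) (by norm_num))
    (exp_neg_leJ (r := 0.99) 14 (by norm_num) (by norm_num) (by norm_num) (by norm_num))
    (exp_neg_leJ (r := 0.99) 14 (by norm_num) (by norm_num) (by norm_num) (by norm_num))
    (by norm_num)

private theorem bxa28 {β x y : ℝ} (hβ : 0 < β) (hN : β * 20.8 ≤ 1) (hx1 : 2 ≤ x) (hx2 : x ≤ 2.05)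
    (hy1 : -0.325 ≤ y) (hy2 : y ≤ -0.29) : ‖HH β (x + y * I) - 1‖ ≤ 0.7071 * β := by
  refine J_box 2 2.05 0.325 0 (-0.29) 1.8875 2.0757 2.1695 0.5681 0.5877 4.5608 20.8 1.0998 4.945 1.66 0.3316 0.9437 0.5977 1.1798 1.8918 1.1489 3.2692 4.6872 3.0697 0.0000003101 0.00000399 0.0000003101 0.0000003101 0.0000003101 0.0000003101 0.0000003101 0.0000003101 0.7071
    hβ hN hx1 hx2 hy1 hy2 (by norm_num) (by norm_num) (by norm_num) (by norm_num) (by norm_num) (by norm_num) (by norm_num) (by norm_num) (by norm_num) (by norm_num) (by norm_num) (by norm_num) (by norm_num) (by norm_num) (by norm_num) (by norm_num) (by norm_num) (by norm_num) (by norm_num) (by norm_num) (by norm_num) (by norm_num) (by norm_num) (by norm_num)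
    (cube_sqrt_geJ (s := 0.7958) (by norm_num) (by norm_num) (by norm_num) (by norm_num))
    (cube_sqrt_geJ (s := 0.9302) (by norm_num) (by norm_num) (by norm_num) (by norm_num))
    (by norm_num) (by norm_num) (by norm_num) (by norm_num) (by norm_num) (by norm_num) (by norm_num) (by norm_num) (by norm_num) (by norm_num) (by norm_num) (by norm_num) (by norm_num) (by norm_num) (by norm_num) (by norm_num) (by norm_num) (by norm_num)
    (exp_neg_leJ (r := 0.99) 14 (by norm_num) (by norm_num) (by norm_num) (by norm_num))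
    (exp_neg_leJ (r := 0.432) 12 (by norm_num) (by norm_num) (by norm_num) (by norm_num))
    (exp_neg_leJ (r := 0.99) 14 (by norm_num) (by norm_num) (by norm_num) (by norm_num))
    (exp_neg_leJ (r := 0.99) 14 (by norm_num) (by norm_num) (by norm_num) (by norm_num))
    (exp_neg_leJ (r := 0.99) 14 (by norm_num) (by norm_num) (by norm_num) (by norm_num))
    (exp_neg_leJ (r := 0.99) 14 (by norm_num) (by norm_num) (by norm_num) (by norm_num))
    (exp_neg_leJ (r := 0.99) 14 (by norm_num) (by norm_num) (by norm_num) (by norm_num))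
    (exp_neg_leJ (r := 0.99) 14 (by norm_num) (by norm_num) (by norm_num) (by norm_num))
    (by norm_num)

private theorem bxa29 {β x y : ℝ} (hβ : 0 < β) (hN : β * 20.8 ≤ 1) (hx1 : 2.05 ≤ x) (hx2 : x ≤ 2.1)
    (hy1 : -0.325 ≤ y) (hy2 : y ≤ -0.29) : ‖HH β (x + y * I) - 1‖ ≤ 0.7059 * β := by
  refine J_box 2.05 2.1 0.325 0 (-0.29) 1.9227 2.1251 2.2168 0.5585 0.594 4.5608 20.8 1.1053 4.996 1.664 0.3124 0.9613 0.6071 1.197 1.8631 1.1731 3.3384 4.7872 3.0354 0.0000003101 0.000003284 0.0000003101 0.0000003101 0.0000003101 0.0000003101 0.0000003101 0.0000003101 0.7059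
    hβ hN hx1 hx2 hy1 hy2 (by norm_num) (by norm_num) (by norm_num) (by norm_num) (by norm_num) (by norm_num) (by norm_num) (by norm_num) (by norm_num) (by norm_num) (by norm_num) (by norm_num) (by norm_num) (by norm_num) (by norm_num) (by norm_num) (by norm_num) (by norm_num) (by norm_num) (by norm_num) (by norm_num) (by norm_num) (by norm_num) (by norm_num)
    (cube_sqrt_geJ (s := 0.7947) (by norm_num) (by norm_num) (by norm_num) (by norm_num))
    (cube_sqrt_geJ (s := 0.9298) (by norm_num) (by norm_num) (by norm_num) (by norm_num))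
    (by norm_num) (by norm_num) (by norm_num) (by norm_num) (by norm_num) (by norm_num) (by norm_num) (by norm_num) (by norm_num) (by norm_num) (by norm_num) (by norm_num) (by norm_num) (by norm_num) (by norm_num) (by norm_num) (by norm_num) (by norm_num)
    (exp_neg_leJ (r := 0.99) 14 (by norm_num) (by norm_num) (by norm_num) (by norm_num))
    (exp_neg_leJ (r := 0.627) 12 (by norm_num) (by norm_num) (by norm_num) (by norm_num))
    (exp_neg_leJ (r := 0.99) 14 (by norm_num) (by norm_num) (by norm_num) (by norm_num))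
    (exp_neg_leJ (r := 0.99) 14 (by norm_num) (by norm_num) (by norm_num) (by norm_num))
    (exp_neg_leJ (r := 0.99) 14 (by norm_num) (by norm_num) (by norm_num) (by norm_num))
    (exp_neg_leJ (r := 0.99) 14 (by norm_num) (by norm_num) (by norm_num) (by norm_num))
    (exp_neg_leJ (r := 0.99) 14 (by norm_num) (by norm_num) (by norm_num) (by norm_num))
    (exp_neg_leJ (r := 0.99) 14 (by norm_num) (by norm_num) (by norm_num) (by norm_num))
    (by norm_num)

private theorem bxa30 {β x y : ℝ} (hβ : 0 < β) (hN : β * 20.8 ≤ 1) (hx1 : 2.1 ≤ x) (hx2 : x ≤ 2.105)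
    (hy1 : -0.325 ≤ y) (hy2 : y ≤ -0.29) : ‖HH β (x + y * I) - 1‖ ≤ 0.6551 * β := by
  refine J_box 2.1 2.105 0.325 0 (-0.29) 1.9579 2.13 2.2216 0.5441 0.5947 4.5608 20.8 1.088 4.839 1.65 0.3105 0.9789 0.6239 1.2141 1.8602 1.1974 3.4076 4.8872 3.1221 0.0000003101 0.000002321 0.0000003101 0.0000003101 0.0000003101 0.0000003101 0.0000003101 0.0000003101 0.6551
    hβ hN hx1 hx2 hy1 hy2 (by norm_num) (by norm_num) (by norm_num) (by norm_num) (by norm_num) (by norm_num) (by norm_num) (by norm_num) (by norm_num) (by norm_num) (by norm_num) (by norm_num) (by norm_num) (by norm_num) (by norm_num) (by norm_num) (by norm_num) (by norm_num) (by norm_num) (by norm_num) (by norm_num) (by norm_num) (by norm_num) (by norm_num)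
    (cube_sqrt_geJ (s := 0.7983) (by norm_num) (by norm_num) (by norm_num) (by norm_num))
    (cube_sqrt_geJ (s := 0.931) (by norm_num) (by norm_num) (by norm_num) (by norm_num))
    (by norm_num) (by norm_num) (by norm_num) (by norm_num) (by norm_num) (by norm_num) (by norm_num) (by norm_num) (by norm_num) (by norm_num) (by norm_num) (by norm_num) (by norm_num) (by norm_num) (by norm_num) (by norm_num) (by norm_num) (by norm_num)
    (exp_neg_leJ (r := 0.99) 14 (by norm_num) (by norm_num) (by norm_num) (by norm_num))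
    (exp_neg_leJ (r := 0.977) 12 (by norm_num) (by norm_num) (by norm_num) (by norm_num))
    (exp_neg_leJ (r := 0.99) 14 (by norm_num) (by norm_num) (by norm_num) (by norm_num))
    (exp_neg_leJ (r := 0.99) 14 (by norm_num) (by norm_num) (by norm_num) (by norm_num))
    (exp_neg_leJ (r := 0.99) 14 (by norm_num) (by norm_num) (by norm_num) (by norm_num))
    (exp_neg_leJ (r := 0.99) 14 (by norm_num) (by norm_num) (by norm_num) (by norm_num))
    (exp_neg_leJ (r := 0.99) 14 (by norm_num) (by norm_num) (by norm_num) (by norm_num))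
    (exp_neg_leJ (r := 0.99) 14 (by norm_num) (by norm_num) (by norm_num) (by norm_num))
    (by norm_num)

theorem JP1_a {β x y κ : ℝ} (hβ : 0 < β) (hx : 0 < x) (hκ : κ = ‖(x + y * I : ℂ)‖ * Real.exp y)
    (hκ0 : 0 < κ) (hR : β * (10.4 * (1 + κ ^ 2)) ≤ κ) (hx1 : 0.22 ≤ x) (hx2 : x ≤ 2.105) (hy1 : -0.325 ≤ y) (hy2 : y ≤ -0.29) :
    ‖HH β (x + y * I) - 1‖ ≤ 0.034 := by
  have hw : Real.exp y ≤ 0.7483 := (Real.exp_le_exp.2 hy2).trans exp_wa
  have hya : |y| ≤ 0.325 := by rw [abs_le]; constructor <;> linarith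
  have hym : -0.325 ≤ y := by linarith
  have h20 := bN20 (N := 20.8) (by norm_num) (by norm_num) hβ hκ0 hR
  rcases le_total x 0.4 with f0 | g0
  · exact epsOf hβ (bN 10.4 0.5154 0.7483 0.3857 30.97 0.4 0.325 (by norm_num) hβ hx hκ hκ0 hR f0 hya hw (by norm_num) (by norm_num) (by norm_num) (by norm_num) (by norm_num) (by norm_num)) (by norm_num) (by norm_num) (bxa0 hβ (bN 10.4 0.5154 0.7483 0.3857 30.97 0.4 0.325 (by norm_num) hβ hx hκ hκ0 hR f0 hya hw (by norm_num) (by norm_num) (by norm_num) (by norm_num) (by norm_num) (by norm_num)) hx1 f0 hym hy2)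
  rcases le_total x 0.55 with f1 | g1
  · exact epsOf hβ (bN 10.4 0.6389 0.7483 0.4781 26.72 0.55 0.325 (by norm_num) hβ hx hκ hκ0 hR f1 hya hw (by norm_num) (by norm_num) (by norm_num) (by norm_num) (by norm_num) (by norm_num)) (by norm_num) (by norm_num) (bxa1 hβ (bN 10.4 0.6389 0.7483 0.4781 26.72 0.55 0.325 (by norm_num) hβ hx hκ hκ0 hR f1 hya hw (by norm_num) (by norm_num) (by norm_num) (by norm_num) (by norm_num) (by norm_num)) g0 f1 hym hy2)
  rcases le_total x 0.68 with f2 | g2
  · exact epsOf hβ (bN 10.4 0.7537 0.7483 0.564 24.3 0.68 0.325 (by norm_num) hβ hx hκ hκ0 hR f2 hya hw (by norm_num) (by norm_num) (by norm_num) (by norm_num) (by norm_num) (by norm_num)) (by norm_num) (by norm_num) (bxa2 hβ (bN 10.4 0.7537 0.7483 0.564 24.3 0.68 0.325 (by norm_num) hβ hx hκ hκ0 hR f2 hya hw (by norm_num) (by norm_num) (by norm_num) (by norm_num) (by norm_num) (by norm_num)) g1 f2 hym hy2)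
  rcases le_total x 0.79 with f3 | g3
  · exact epsOf hβ (bN 10.4 0.8543 0.7483 0.6393 22.91 0.79 0.325 (by norm_num) hβ hx hκ hκ0 hR f3 hya hw (by norm_num) (by norm_num) (by norm_num) (by norm_num) (by norm_num) (by norm_num)) (by norm_num) (by norm_num) (bxa3 hβ (bN 10.4 0.8543 0.7483 0.6393 22.91 0.79 0.325 (by norm_num) hβ hx hκ hκ0 hR f3 hya hw (by norm_num) (by norm_num) (by norm_num) (by norm_num) (by norm_num) (by norm_num)) g2 f3 hym hy2)
  rcases le_total x 0.88 with f4 | g4
  · exact epsOf hβ (bN 10.4 0.9381 0.7483 0.702 22.11 0.88 0.325 (by norm_num) hβ hx hκ hκ0 hR f4 hya hw (by norm_num) (by norm_num) (by norm_num) (by norm_num) (by norm_num) (by norm_num)) (by norm_num) (by norm_num) (bxa4 hβ (bN 10.4 0.9381 0.7483 0.702 22.11 0.88 0.325 (by norm_num) hβ hx hκ hκ0 hR f4 hya hw (by norm_num) (by norm_num) (by norm_num) (by norm_num) (by norm_num) (by norm_num)) g3 f4 hym hy2)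
  rcases le_total x 0.96 with f5 | g5
  · exact epsOf hβ (bN 10.4 1.0136 0.7483 0.7585 21.59 0.96 0.325 (by norm_num) hβ hx hκ hκ0 hR f5 hya hw (by norm_num) (by norm_num) (by norm_num) (by norm_num) (by norm_num) (by norm_num)) (by norm_num) (by norm_num) (bxa5 hβ (bN 10.4 1.0136 0.7483 0.7585 21.59 0.96 0.325 (by norm_num) hβ hx hκ hκ0 hR f5 hya hw (by norm_num) (by norm_num) (by norm_num) (by norm_num) (by norm_num) (by norm_num)) g4 f5 hym hy2)
  rcases le_total x 1.03 with f6 | g6
  · exact epsOf hβ (bN 10.4 1.0801 0.7483 0.8083 21.27 1.03 0.325 (by norm_num) hβ hx hκ hκ0 hR f6 hya hw (by norm_num) (by norm_num) (by norm_num) (by norm_num) (by norm_num) (by norm_num)) (by norm_num) (by norm_num) (bxa6 hβ (bN 10.4 1.0801 0.7483 0.8083 21.27 1.03 0.325 (by norm_num) hβ hx hκ hκ0 hR f6 hya hw (by norm_num) (by norm_num) (by norm_num) (by norm_num) (by norm_num) (by norm_num)) g5 f6 hym hy2)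
  rcases le_total x 1.09 with f7 | g7
  · exact epsOf hβ (bN 10.4 1.1375 0.7483 0.8512 21.07 1.09 0.325 (by norm_num) hβ hx hκ hκ0 hR f7 hya hw (by norm_num) (by norm_num) (by norm_num) (by norm_num) (by norm_num) (by norm_num)) (by norm_num) (by norm_num) (bxa7 hβ (bN 10.4 1.1375 0.7483 0.8512 21.07 1.09 0.325 (by norm_num) hβ hx hκ hκ0 hR f7 hya hw (by norm_num) (by norm_num) (by norm_num) (by norm_num) (by norm_num) (by norm_num)) g6 f7 hym hy2)
  rcases le_total x 1.15 with f8 | g8
  · exact epsOf hβ (bN 10.4 1.1951 0.7483 0.8943 20.92 1.15 0.325 (by norm_num) hβ hx hκ hκ0 hR f8 hya hw (by norm_num) (by norm_num) (by norm_num) (by norm_num) (by norm_num) (by norm_num)) (by norm_num) (by norm_num) (bxa8 hβ (bN 10.4 1.1951 0.7483 0.8943 20.92 1.15 0.325 (by norm_num) hβ hx hκ hκ0 hR f8 hya hw (by norm_num) (by norm_num) (by norm_num) (by norm_num) (by norm_num) (by norm_num)) g7 f8 hym hy2)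
  rcases le_total x 1.21 with f9 | g9
  · exact epsOf hβ (bN 10.4 1.2529 0.7483 0.9376 20.84 1.21 0.325 (by norm_num) hβ hx hκ hκ0 hR f9 hya hw (by norm_num) (by norm_num) (by norm_num) (by norm_num) (by norm_num) (by norm_num)) (by norm_num) (by norm_num) (bxa9 hβ (bN 10.4 1.2529 0.7483 0.9376 20.84 1.21 0.325 (by norm_num) hβ hx hκ hκ0 hR f9 hya hw (by norm_num) (by norm_num) (by norm_num) (by norm_num) (by norm_num) (by norm_num)) g8 f9 hym hy2)
  rcases le_total x 1.26 with f10 | g10
  · exact epsOf hβ (bN 10.4 1.3013 0.7483 0.9738 20.8 1.26 0.325 (by norm_num) hβ hx hκ hκ0 hR f10 hya hw (by norm_num) (by norm_num) (by norm_num) (by norm_num) (by norm_num) (by norm_num)) (by norm_num) (by norm_num) (bxa10 hβ (bN 10.4 1.3013 0.7483 0.9738 20.8 1.26 0.325 (by norm_num) hβ hx hκ hκ0 hR f10 hya hw (by norm_num) (by norm_num) (by norm_num) (by norm_num) (by norm_num) (by norm_num)) g9 f10 hym hy2)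
  rcases le_total x 1.31 with f11 | g11
  · exact epsOf hβ h20 (by norm_num) (by norm_num) (bxa11 hβ h20 g10 f11 hym hy2)
  rcases le_total x 1.36 with f12 | g12
  · exact epsOf hβ h20 (by norm_num) (by norm_num) (bxa12 hβ h20 g11 f12 hym hy2)
  rcases le_total x 1.41 with f13 | g13
  · exact epsOf hβ h20 (by norm_num) (by norm_num) (bxa13 hβ h20 g12 f13 hym hy2)
  rcases le_total x 1.46 with f14 | g14
  · exact epsOf hβ h20 (by norm_num) (by norm_num) (bxa14 hβ h20 g13 f14 hym hy2)
  rcases le_total x 1.51 with f15 | g15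
  · exact epsOf hβ h20 (by norm_num) (by norm_num) (bxa15 hβ h20 g14 f15 hym hy2)
  rcases le_total x 1.56 with f16 | g16
  · exact epsOf hβ h20 (by norm_num) (by norm_num) (bxa16 hβ h20 g15 f16 hym hy2)
  rcases le_total x 1.6 with f17 | g17
  · exact epsOf hβ h20 (by norm_num) (by norm_num) (bxa17 hβ h20 g16 f17 hym hy2)
  rcases le_total x 1.64 with f18 | g18
  · exact epsOf hβ h20 (by norm_num) (by norm_num) (bxa18 hβ h20 g17 f18 hym hy2)
  rcases le_total x 1.68 with f19 | g19
  · exact epsOf hβ h20 (by norm_num) (by norm_num) (bxa19 hβ h20 g18 f19 hym hy2)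
  rcases le_total x 1.72 with f20 | g20
  · exact epsOf hβ h20 (by norm_num) (by norm_num) (bxa20 hβ h20 g19 f20 hym hy2)
  rcases le_total x 1.76 with f21 | g21
  · exact epsOf hβ h20 (by norm_num) (by norm_num) (bxa21 hβ h20 g20 f21 hym hy2)
  rcases le_total x 1.8 with f22 | g22
  · exact epsOf hβ h20 (by norm_num) (by norm_num) (bxa22 hβ h20 g21 f22 hym hy2)
  rcases le_total x 1.84 with f23 | g23
  · exact epsOf hβ h20 (by norm_num) (by norm_num) (bxa23 hβ h20 g22 f23 hym hy2)
  rcases le_total x 1.88 with f24 | g24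
  · exact epsOf hβ h20 (by norm_num) (by norm_num) (bxa24 hβ h20 g23 f24 hym hy2)
  rcases le_total x 1.92 with f25 | g25
  · exact epsOf hβ h20 (by norm_num) (by norm_num) (bxa25 hβ h20 g24 f25 hym hy2)
  rcases le_total x 1.96 with f26 | g26
  · exact epsOf hβ h20 (by norm_num) (by norm_num) (bxa26 hβ h20 g25 f26 hym hy2)
  rcases le_total x 2 with f27 | g27
  · exact epsOf hβ h20 (by norm_num) (by norm_num) (bxa27 hβ h20 g26 f27 hym hy2)
  rcases le_total x 2.05 with f28 | g28
  · exact epsOf hβ h20 (by norm_num) (by norm_num) (bxa28 hβ h20 g27 f28 hym hy2)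
  rcases le_total x 2.1 with f29 | g29
  · exact epsOf hβ h20 (by norm_num) (by norm_num) (bxa29 hβ h20 g28 f29 hym hy2)
  exact epsOf hβ h20 (by norm_num) (by norm_num) (bxa30 hβ h20 g29 hx2 hym hy2)

private theorem exp_wb : Real.exp (-0.25) ≤ 0.7789 := by
  rw [Real.exp_neg, inv_le_comm₀ (Real.exp_pos _) (by norm_num)]
  have h := Real.sum_le_exp_of_nonneg (x := 0.25) (by norm_num) 7
  refine le_trans ?_ h
  norm_num [Finset.sum_range_succ, Nat.factorial]

private theorem bxb0 {β x y : ℝ} (hβ : 0 < β) (hN : β * 28.64 ≤ 1) (hx1 : 0.25 ≤ x) (hx2 : x ≤ 0.47)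
    (hy1 : -0.29 ≤ y) (hy2 : y ≤ -0.25) : ‖HH β (x + y * I) - 1‖ ≤ 0.9555 * β := by
  refine J_box 0.25 0.47 0.29 0 (-0.25) 0.6801 0.5523 0.8851 1.6775 0.3754 5.3517 28.64 0.8121 3.02 1.443 0.9716 0.34 0.2479 0.6361 2.8999 0.318 0.8461 1.2823 3.7107 0.00005912 0.000826 0.0000003101 0.0000003101 0.0001109 0.0000003101 0.0000003101 0.0000003101 0.9555
    hβ hN hx1 hx2 hy1 hy2 (by norm_num) (by norm_num) (by norm_num) (by norm_num) (by norm_num) (by norm_num) (by norm_num) (by norm_num) (by norm_num) (by norm_num) (by norm_num) (by norm_num) (by norm_num) (by norm_num) (by norm_num) (by norm_num) (by norm_num) (by norm_num) (by norm_num) (by norm_num) (by norm_num) (by norm_num) (by norm_num) (by norm_num)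
    (cube_sqrt_geJ (s := 0.8539) (by norm_num) (by norm_num) (by norm_num) (by norm_num))
    (cube_sqrt_geJ (s := 0.9489) (by norm_num) (by norm_num) (by norm_num) (by norm_num))
    (by norm_num) (by norm_num) (by norm_num) (by norm_num) (by norm_num) (by norm_num) (by norm_num) (by norm_num) (by norm_num) (by norm_num) (by norm_num) (by norm_num) (by norm_num) (by norm_num) (by norm_num) (by norm_num) (by norm_num) (by norm_num)
    (exp_neg_leJ (r := 0.737) 9 (by norm_num) (by norm_num) (by norm_num) (by norm_num))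
    (exp_neg_leJ (r := 0.099) 7 (by norm_num) (by norm_num) (by norm_num) (by norm_num))
    (exp_neg_leJ (r := 0.99) 14 (by norm_num) (by norm_num) (by norm_num) (by norm_num))
    (exp_neg_leJ (r := 0.99) 14 (by norm_num) (by norm_num) (by norm_num) (by norm_num))
    (exp_neg_leJ (r := 0.107) 9 (by norm_num) (by norm_num) (by norm_num) (by norm_num))
    (exp_neg_leJ (r := 0.99) 14 (by norm_num) (by norm_num) (by norm_num) (by norm_num))
    (exp_neg_leJ (r := 0.99) 14 (by norm_num) (by norm_num) (by norm_num) (by norm_num))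
    (exp_neg_leJ (r := 0.99) 14 (by norm_num) (by norm_num) (by norm_num) (by norm_num))
    (by norm_num)

private theorem bxb1 {β x y : ℝ} (hβ : 0 < β) (hN : β * 24.52 ≤ 1) (hx1 : 0.47 ≤ x) (hx2 : x ≤ 0.65)
    (hy1 : -0.29 ≤ y) (hy2 : y ≤ -0.25) : ‖HH β (x + y * I) - 1‖ ≤ 0.828 * β := by
  refine J_box 0.47 0.65 0.29 0 (-0.25) 0.835 0.7118 0.9925 1.3057 0.3975 4.9518 24.52 0.8525 3.223 1.471 0.9024 0.4174 0.2988 0.7114 2.8014 0.4248 1.1507 1.7223 3.7172 0.00003593 0.0006583 0.0000003101 0.0000003101 0.00002996 0.0000003101 0.0000003101 0.0000003101 0.828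
    hβ hN hx1 hx2 hy1 hy2 (by norm_num) (by norm_num) (by norm_num) (by norm_num) (by norm_num) (by norm_num) (by norm_num) (by norm_num) (by norm_num) (by norm_num) (by norm_num) (by norm_num) (by norm_num) (by norm_num) (by norm_num) (by norm_num) (by norm_num) (by norm_num) (by norm_num) (by norm_num) (by norm_num) (by norm_num) (by norm_num) (by norm_num)
    (cube_sqrt_geJ (s := 0.846) (by norm_num) (by norm_num) (by norm_num) (by norm_num))
    (cube_sqrt_geJ (s := 0.9463) (by norm_num) (by norm_num) (by norm_num) (by norm_num))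
    (by norm_num) (by norm_num) (by norm_num) (by norm_num) (by norm_num) (by norm_num) (by norm_num) (by norm_num) (by norm_num) (by norm_num) (by norm_num) (by norm_num) (by norm_num) (by norm_num) (by norm_num) (by norm_num) (by norm_num) (by norm_num)
    (exp_neg_leJ (r := 0.234) 10 (by norm_num) (by norm_num) (by norm_num) (by norm_num))
    (exp_neg_leJ (r := 0.326) 7 (by norm_num) (by norm_num) (by norm_num) (by norm_num))
    (exp_neg_leJ (r := 0.99) 14 (by norm_num) (by norm_num) (by norm_num) (by norm_num))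
    (exp_neg_leJ (r := 0.99) 14 (by norm_num) (by norm_num) (by norm_num) (by norm_num))
    (exp_neg_leJ (r := 0.416) 10 (by norm_num) (by norm_num) (by norm_num) (by norm_num))
    (exp_neg_leJ (r := 0.99) 14 (by norm_num) (by norm_num) (by norm_num) (by norm_num))
    (exp_neg_leJ (r := 0.99) 14 (by norm_num) (by norm_num) (by norm_num) (by norm_num))
    (exp_neg_leJ (r := 0.99) 14 (by norm_num) (by norm_num) (by norm_num) (by norm_num))
    (by norm_num)

private theorem bxb2 {β x y : ℝ} (hβ : 0 < β) (hN : β * 22.58 ≤ 1) (hx1 : 0.65 ≤ x) (hx2 : x ≤ 0.8)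
    (hy1 : -0.29 ≤ y) (hy2 : y ≤ -0.25) : ‖HH β (x + y * I) - 1‖ ≤ 0.7668 * β := by
  refine J_box 0.65 0.8 0.29 0 (-0.25) 0.9618 0.851 1.0966 1.1102 0.4178 4.7519 22.58 0.8848 3.399 1.494 0.8447 0.4808 0.339 0.773 2.7176 0.5123 1.3999 2.0823 3.6988 0.00001933 0.0004745 0.0000003101 0.0000003101 0.000009477 0.0000003101 0.0000003101 0.0000003101 0.7668
    hβ hN hx1 hx2 hy1 hy2 (by norm_num) (by norm_num) (by norm_num) (by norm_num) (by norm_num) (by norm_num) (by norm_num) (by norm_num) (by norm_num) (by norm_num) (by norm_num) (by norm_num) (by norm_num) (by norm_num) (by norm_num) (by norm_num) (by norm_num) (by norm_num) (by norm_num) (by norm_num) (by norm_num) (by norm_num) (by norm_num) (by norm_num)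
    (cube_sqrt_geJ (s := 0.8396) (by norm_num) (by norm_num) (by norm_num) (by norm_num))
    (cube_sqrt_geJ (s := 0.9442) (by norm_num) (by norm_num) (by norm_num) (by norm_num))
    (by norm_num) (by norm_num) (by norm_num) (by norm_num) (by norm_num) (by norm_num) (by norm_num) (by norm_num) (by norm_num) (by norm_num) (by norm_num) (by norm_num) (by norm_num) (by norm_num) (by norm_num) (by norm_num) (by norm_num) (by norm_num)
    (exp_neg_leJ (r := 0.856) 10 (by norm_num) (by norm_num) (by norm_num) (by norm_num))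
    (exp_neg_leJ (r := 0.654) 7 (by norm_num) (by norm_num) (by norm_num) (by norm_num))
    (exp_neg_leJ (r := 0.99) 14 (by norm_num) (by norm_num) (by norm_num) (by norm_num))
    (exp_neg_leJ (r := 0.99) 14 (by norm_num) (by norm_num) (by norm_num) (by norm_num))
    (exp_neg_leJ (r := 0.567) 11 (by norm_num) (by norm_num) (by norm_num) (by norm_num))
    (exp_neg_leJ (r := 0.99) 14 (by norm_num) (by norm_num) (by norm_num) (by norm_num))
    (exp_neg_leJ (r := 0.99) 14 (by norm_num) (by norm_num) (by norm_num) (by norm_num))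
    (exp_neg_leJ (r := 0.99) 14 (by norm_num) (by norm_num) (by norm_num) (by norm_num))
    (by norm_num)

private theorem bxb3 {β x y : ℝ} (hβ : 0 < β) (hN : β * 21.65 ≤ 1) (hx1 : 0.8 ≤ x) (hx2 : x ≤ 0.92)
    (hy1 : -0.29 ≤ y) (hy2 : y ≤ -0.25) : ‖HH β (x + y * I) - 1‖ ≤ 0.7162 * β := by
  refine J_box 0.8 0.92 0.29 0 (-0.25) 1.0674 0.9647 1.187 0.988 0.4347 4.653 21.65 0.9038 3.507 1.508 0.7985 0.5336 0.3729 0.8243 2.6499 0.5851 1.6076 2.3823 3.6897 0.00000962 0.0003119 0.0000003101 0.0000003101 0.000003156 0.0000003101 0.0000003101 0.0000003101 0.7162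
    hβ hN hx1 hx2 hy1 hy2 (by norm_num) (by norm_num) (by norm_num) (by norm_num) (by norm_num) (by norm_num) (by norm_num) (by norm_num) (by norm_num) (by norm_num) (by norm_num) (by norm_num) (by norm_num) (by norm_num) (by norm_num) (by norm_num) (by norm_num) (by norm_num) (by norm_num) (by norm_num) (by norm_num) (by norm_num) (by norm_num) (by norm_num)
    (cube_sqrt_geJ (s := 0.8359) (by norm_num) (by norm_num) (by norm_num) (by norm_num))
    (cube_sqrt_geJ (s := 0.943) (by norm_num) (by norm_num) (by norm_num) (by norm_num))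
    (by norm_num) (by norm_num) (by norm_num) (by norm_num) (by norm_num) (by norm_num) (by norm_num) (by norm_num) (by norm_num) (by norm_num) (by norm_num) (by norm_num) (by norm_num) (by norm_num) (by norm_num) (by norm_num) (by norm_num) (by norm_num)
    (exp_neg_leJ (r := 0.552) 11 (by norm_num) (by norm_num) (by norm_num) (by norm_num))
    (exp_neg_leJ (r := 0.073) 8 (by norm_num) (by norm_num) (by norm_num) (by norm_num))
    (exp_neg_leJ (r := 0.99) 14 (by norm_num) (by norm_num) (by norm_num) (by norm_num))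
    (exp_neg_leJ (r := 0.99) 14 (by norm_num) (by norm_num) (by norm_num) (by norm_num))
    (exp_neg_leJ (r := 0.667) 12 (by norm_num) (by norm_num) (by norm_num) (by norm_num))
    (exp_neg_leJ (r := 0.99) 14 (by norm_num) (by norm_num) (by norm_num) (by norm_num))
    (exp_neg_leJ (r := 0.99) 14 (by norm_num) (by norm_num) (by norm_num) (by norm_num))
    (exp_neg_leJ (r := 0.99) 14 (by norm_num) (by norm_num) (by norm_num) (by norm_num))
    (by norm_num)

private theorem bxb4 {β x y : ℝ} (hβ : 0 < β) (hN : β * 21.14 ≤ 1) (hx1 : 0.92 ≤ x) (hx2 : x ≤ 1.03)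
    (hy1 : -0.29 ≤ y) (hy2 : y ≤ -0.25) : ‖HH β (x + y * I) - 1‖ ≤ 0.7088 * β := by
  refine J_box 0.92 1.03 0.29 0 (-0.25) 1.1519 1.0701 1.2742 0.9131 0.4504 4.5979 21.14 0.929 3.659 1.526 0.7562 0.5759 0.3975 0.8654 2.5876 0.6434 1.7738 2.6223 3.6432 0.000005164 0.0002243 0.0000003101 0.0000003101 0.00000124 0.0000003101 0.0000003101 0.0000003101 0.7088
    hβ hN hx1 hx2 hy1 hy2 (by norm_num) (by norm_num) (by norm_num) (by norm_num) (by norm_num) (by norm_num) (by norm_num) (by norm_num) (by norm_num) (by norm_num) (by norm_num) (by norm_num) (by norm_num) (by norm_num) (by norm_num) (by norm_num) (by norm_num) (by norm_num) (by norm_num) (by norm_num) (by norm_num) (by norm_num) (by norm_num) (by norm_num)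
    (cube_sqrt_geJ (s := 0.8308) (by norm_num) (by norm_num) (by norm_num) (by norm_num))
    (cube_sqrt_geJ (s := 0.9414) (by norm_num) (by norm_num) (by norm_num) (by norm_num))
    (by norm_num) (by norm_num) (by norm_num) (by norm_num) (by norm_num) (by norm_num) (by norm_num) (by norm_num) (by norm_num) (by norm_num) (by norm_num) (by norm_num) (by norm_num) (by norm_num) (by norm_num) (by norm_num) (by norm_num) (by norm_num)
    (exp_neg_leJ (r := 0.174) 12 (by norm_num) (by norm_num) (by norm_num) (by norm_num))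
    (exp_neg_leJ (r := 0.403) 8 (by norm_num) (by norm_num) (by norm_num) (by norm_num))
    (exp_neg_leJ (r := 0.99) 14 (by norm_num) (by norm_num) (by norm_num) (by norm_num))
    (exp_neg_leJ (r := 0.99) 14 (by norm_num) (by norm_num) (by norm_num) (by norm_num))
    (exp_neg_leJ (r := 0.601) 13 (by norm_num) (by norm_num) (by norm_num) (by norm_num))
    (exp_neg_leJ (r := 0.99) 14 (by norm_num) (by norm_num) (by norm_num) (by norm_num))
    (exp_neg_leJ (r := 0.99) 14 (by norm_num) (by norm_num) (by norm_num) (by norm_num))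
    (exp_neg_leJ (r := 0.99) 14 (by norm_num) (by norm_num) (by norm_num) (by norm_num))
    (by norm_num)

private theorem bxb5 {β x y : ℝ} (hβ : 0 < β) (hN : β * 20.89 ≤ 1) (hx1 : 1.03 ≤ x) (hx2 : x ≤ 1.13)
    (hy1 : -0.29 ≤ y) (hy2 : y ≤ -0.25) : ‖HH β (x + y * I) - 1‖ ≤ 0.7002 * β := by
  refine J_box 1.03 1.13 0.29 0 (-0.25) 1.2294 1.1667 1.3563 0.8544 0.4647 4.5706 20.89 0.949 3.786 1.541 0.7178 0.6146 0.4202 0.9031 2.5307 0.6968 1.9261 2.8423 3.6006 0.000002663 0.0001545 0.0000003101 0.0000003101 0.0000004771 0.0000003101 0.0000003101 0.0000003101 0.7002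
    hβ hN hx1 hx2 hy1 hy2 (by norm_num) (by norm_num) (by norm_num) (by norm_num) (by norm_num) (by norm_num) (by norm_num) (by norm_num) (by norm_num) (by norm_num) (by norm_num) (by norm_num) (by norm_num) (by norm_num) (by norm_num) (by norm_num) (by norm_num) (by norm_num) (by norm_num) (by norm_num) (by norm_num) (by norm_num) (by norm_num) (by norm_num)
    (cube_sqrt_geJ (s := 0.8268) (by norm_num) (by norm_num) (by norm_num) (by norm_num))
    (cube_sqrt_geJ (s := 0.9401) (by norm_num) (by norm_num) (by norm_num) (by norm_num))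
    (by norm_num) (by norm_num) (by norm_num) (by norm_num) (by norm_num) (by norm_num) (by norm_num) (by norm_num) (by norm_num) (by norm_num) (by norm_num) (by norm_num) (by norm_num) (by norm_num) (by norm_num) (by norm_num) (by norm_num) (by norm_num)
    (exp_neg_leJ (r := 0.838) 12 (by norm_num) (by norm_num) (by norm_num) (by norm_num))
    (exp_neg_leJ (r := 0.777) 8 (by norm_num) (by norm_num) (by norm_num) (by norm_num))
    (exp_neg_leJ (r := 0.99) 14 (by norm_num) (by norm_num) (by norm_num) (by norm_num))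
    (exp_neg_leJ (r := 0.99) 14 (by norm_num) (by norm_num) (by norm_num) (by norm_num))
    (exp_neg_leJ (r := 0.556) 14 (by norm_num) (by norm_num) (by norm_num) (by norm_num))
    (exp_neg_leJ (r := 0.99) 14 (by norm_num) (by norm_num) (by norm_num) (by norm_num))
    (exp_neg_leJ (r := 0.99) 14 (by norm_num) (by norm_num) (by norm_num) (by norm_num))
    (exp_neg_leJ (r := 0.99) 14 (by norm_num) (by norm_num) (by norm_num) (by norm_num))
    (by norm_num)

private theorem bxb6 {β x y : ℝ} (hβ : 0 < β) (hN : β * 20.8 ≤ 1) (hx1 : 1.13 ≤ x) (hx2 : x ≤ 1.22)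
    (hy1 : -0.29 ≤ y) (hy2 : y ≤ -0.25) : ‖HH β (x + y * I) - 1‖ ≤ 0.6907 * β := by
  refine J_box 1.13 1.22 0.29 0 (-0.25) 1.2998 1.254 1.4321 0.8076 0.4775 4.5608 20.8 0.9648 3.889 1.553 0.6831 0.6498 0.4408 0.9373 2.4793 0.7454 2.0646 3.0423 3.5633 0.000001351 0.0001044 0.0000003101 0.0000003101 0.0000003101 0.0000003101 0.0000003101 0.0000003101 0.6907
    hβ hN hx1 hx2 hy1 hy2 (by norm_num) (by norm_num) (by norm_num) (by norm_num) (by norm_num) (by norm_num) (by norm_num) (by norm_num) (by norm_num) (by norm_num) (by norm_num) (by norm_num) (by norm_num) (by norm_num) (by norm_num) (by norm_num) (by norm_num) (by norm_num) (by norm_num) (by norm_num) (by norm_num) (by norm_num) (by norm_num) (by norm_num)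
    (cube_sqrt_geJ (s := 0.8236) (by norm_num) (by norm_num) (by norm_num) (by norm_num))
    (cube_sqrt_geJ (s := 0.939) (by norm_num) (by norm_num) (by norm_num) (by norm_num))
    (by norm_num) (by norm_num) (by norm_num) (by norm_num) (by norm_num) (by norm_num) (by norm_num) (by norm_num) (by norm_num) (by norm_num) (by norm_num) (by norm_num) (by norm_num) (by norm_num) (by norm_num) (by norm_num) (by norm_num) (by norm_num)
    (exp_neg_leJ (r := 0.515) 13 (by norm_num) (by norm_num) (by norm_num) (by norm_num))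
    (exp_neg_leJ (r := 0.168) 9 (by norm_num) (by norm_num) (by norm_num) (by norm_num))
    (exp_neg_leJ (r := 0.99) 14 (by norm_num) (by norm_num) (by norm_num) (by norm_num))
    (exp_neg_leJ (r := 0.99) 14 (by norm_num) (by norm_num) (by norm_num) (by norm_num))
    (exp_neg_leJ (r := 0.99) 14 (by norm_num) (by norm_num) (by norm_num) (by norm_num))
    (exp_neg_leJ (r := 0.99) 14 (by norm_num) (by norm_num) (by norm_num) (by norm_num))
    (exp_neg_leJ (r := 0.99) 14 (by norm_num) (by norm_num) (by norm_num) (by norm_num))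
    (exp_neg_leJ (r := 0.99) 14 (by norm_num) (by norm_num) (by norm_num) (by norm_num))
    (by norm_num)

private theorem bxb7 {β x y : ℝ} (hβ : 0 < β) (hN : β * 20.8 ≤ 1) (hx1 : 1.22 ≤ x) (hx2 : x ≤ 1.31)
    (hy1 : -0.29 ≤ y) (hy2 : y ≤ -0.25) : ‖HH β (x + y * I) - 1‖ ≤ 0.6971 * β := by
  refine J_box 1.22 1.31 0.29 0 (-0.25) 1.3631 1.3418 1.5096 0.7721 0.4902 4.5608 20.8 0.9844 4.023 1.568 0.6485 0.6815 0.4579 0.9681 2.4279 0.7891 2.1892 3.2223 3.5046 0.0000006981 0.0000731 0.0000003101 0.0000003101 0.0000003101 0.0000003101 0.0000003101 0.0000003101 0.6971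
    hβ hN hx1 hx2 hy1 hy2 (by norm_num) (by norm_num) (by norm_num) (by norm_num) (by norm_num) (by norm_num) (by norm_num) (by norm_num) (by norm_num) (by norm_num) (by norm_num) (by norm_num) (by norm_num) (by norm_num) (by norm_num) (by norm_num) (by norm_num) (by norm_num) (by norm_num) (by norm_num) (by norm_num) (by norm_num) (by norm_num) (by norm_num)
    (cube_sqrt_geJ (s := 0.8196) (by norm_num) (by norm_num) (by norm_num) (by norm_num))
    (cube_sqrt_geJ (s := 0.9378) (by norm_num) (by norm_num) (by norm_num) (by norm_num))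
    (by norm_num) (by norm_num) (by norm_num) (by norm_num) (by norm_num) (by norm_num) (by norm_num) (by norm_num) (by norm_num) (by norm_num) (by norm_num) (by norm_num) (by norm_num) (by norm_num) (by norm_num) (by norm_num) (by norm_num) (by norm_num)
    (exp_neg_leJ (r := 0.175) 14 (by norm_num) (by norm_num) (by norm_num) (by norm_num))
    (exp_neg_leJ (r := 0.524) 9 (by norm_num) (by norm_num) (by norm_num) (by norm_num))
    (exp_neg_leJ (r := 0.99) 14 (by norm_num) (by norm_num) (by norm_num) (by norm_num))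
    (exp_neg_leJ (r := 0.99) 14 (by norm_num) (by norm_num) (by norm_num) (by norm_num))
    (exp_neg_leJ (r := 0.99) 14 (by norm_num) (by norm_num) (by norm_num) (by norm_num))
    (exp_neg_leJ (r := 0.99) 14 (by norm_num) (by norm_num) (by norm_num) (by norm_num))
    (exp_neg_leJ (r := 0.99) 14 (by norm_num) (by norm_num) (by norm_num) (by norm_num))
    (exp_neg_leJ (r := 0.99) 14 (by norm_num) (by norm_num) (by norm_num) (by norm_num))
    (by norm_num)

private theorem bxb8 {β x y : ℝ} (hβ : 0 < β) (hN : β * 20.8 ≤ 1) (hx1 : 1.31 ≤ x) (hx2 : x ≤ 1.4)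
    (hy1 : -0.29 ≤ y) (hy2 : y ≤ -0.25) : ‖HH β (x + y * I) - 1‖ ≤ 0.7021 * β := by
  refine J_box 1.31 1.4 0.29 0 (-0.25) 1.4265 1.4298 1.5883 0.7398 0.5028 4.5608 20.8 1.0024 4.151 1.582 0.6139 0.7132 0.4749 0.9989 2.3764 0.8328 2.3138 3.4023 3.4454 0.0000003618 0.00005146 0.0000003101 0.0000003101 0.0000003101 0.0000003101 0.0000003101 0.0000003101 0.7021
    hβ hN hx1 hx2 hy1 hy2 (by norm_num) (by norm_num) (by norm_num) (by norm_num) (by norm_num) (by norm_num) (by norm_num) (by norm_num) (by norm_num) (by norm_num) (by norm_num) (by norm_num) (by norm_num) (by norm_num) (by norm_num) (by norm_num) (by norm_num) (by norm_num) (by norm_num) (by norm_num) (by norm_num) (by norm_num) (by norm_num) (by norm_num)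
    (cube_sqrt_geJ (s := 0.816) (by norm_num) (by norm_num) (by norm_num) (by norm_num))
    (cube_sqrt_geJ (s := 0.9366) (by norm_num) (by norm_num) (by norm_num) (by norm_num))
    (by norm_num) (by norm_num) (by norm_num) (by norm_num) (by norm_num) (by norm_num) (by norm_num) (by norm_num) (by norm_num) (by norm_num) (by norm_num) (by norm_num) (by norm_num) (by norm_num) (by norm_num) (by norm_num) (by norm_num) (by norm_num)
    (exp_neg_leJ (r := 0.834) 14 (by norm_num) (by norm_num) (by norm_num) (by norm_num))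
    (exp_neg_leJ (r := 0.877) 9 (by norm_num) (by norm_num) (by norm_num) (by norm_num))
    (exp_neg_leJ (r := 0.99) 14 (by norm_num) (by norm_num) (by norm_num) (by norm_num))
    (exp_neg_leJ (r := 0.99) 14 (by norm_num) (by norm_num) (by norm_num) (by norm_num))
    (exp_neg_leJ (r := 0.99) 14 (by norm_num) (by norm_num) (by norm_num) (by norm_num))
    (exp_neg_leJ (r := 0.99) 14 (by norm_num) (by norm_num) (by norm_num) (by norm_num))
    (exp_neg_leJ (r := 0.99) 14 (by norm_num) (by norm_num) (by norm_num) (by norm_num))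
    (exp_neg_leJ (r := 0.99) 14 (by norm_num) (by norm_num) (by norm_num) (by norm_num))
    (by norm_num)

private theorem bxb9 {β x y : ℝ} (hβ : 0 < β) (hN : β * 20.8 ≤ 1) (hx1 : 1.4 ≤ x) (hx2 : x ≤ 1.49)
    (hy1 : -0.29 ≤ y) (hy2 : y ≤ -0.25) : ‖HH β (x + y * I) - 1‖ ≤ 0.7058 * β := by
  refine J_box 1.4 1.49 0.29 0 (-0.25) 1.4899 1.518 1.6682 0.7103 0.5153 4.5608 20.8 1.0189 4.274 1.595 0.5793 0.7449 0.4919 1.0297 2.3249 0.8766 2.4384 3.5823 3.3857 0.0000003101 0.00003604 0.0000003101 0.0000003101 0.0000003101 0.0000003101 0.0000003101 0.0000003101 0.7058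
    hβ hN hx1 hx2 hy1 hy2 (by norm_num) (by norm_num) (by norm_num) (by norm_num) (by norm_num) (by norm_num) (by norm_num) (by norm_num) (by norm_num) (by norm_num) (by norm_num) (by norm_num) (by norm_num) (by norm_num) (by norm_num) (by norm_num) (by norm_num) (by norm_num) (by norm_num) (by norm_num) (by norm_num) (by norm_num) (by norm_num) (by norm_num)
    (cube_sqrt_geJ (s := 0.8126) (by norm_num) (by norm_num) (by norm_num) (by norm_num))
    (cube_sqrt_geJ (s := 0.9355) (by norm_num) (by norm_num) (by norm_num) (by norm_num))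
    (by norm_num) (by norm_num) (by norm_num) (by norm_num) (by norm_num) (by norm_num) (by norm_num) (by norm_num) (by norm_num) (by norm_num) (by norm_num) (by norm_num) (by norm_num) (by norm_num) (by norm_num) (by norm_num) (by norm_num) (by norm_num)
    (exp_neg_leJ (r := 0.99) 14 (by norm_num) (by norm_num) (by norm_num) (by norm_num))
    (exp_neg_leJ (r := 0.231) 10 (by norm_num) (by norm_num) (by norm_num) (by norm_num))
    (exp_neg_leJ (r := 0.99) 14 (by norm_num) (by norm_num) (by norm_num) (by norm_num))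
    (exp_neg_leJ (r := 0.99) 14 (by norm_num) (by norm_num) (by norm_num) (by norm_num))
    (exp_neg_leJ (r := 0.99) 14 (by norm_num) (by norm_num) (by norm_num) (by norm_num))
    (exp_neg_leJ (r := 0.99) 14 (by norm_num) (by norm_num) (by norm_num) (by norm_num))
    (exp_neg_leJ (r := 0.99) 14 (by norm_num) (by norm_num) (by norm_num) (by norm_num))
    (exp_neg_leJ (r := 0.99) 14 (by norm_num) (by norm_num) (by norm_num) (by norm_num))
    (by norm_num)

private theorem bxb10 {β x y : ℝ} (hβ : 0 < β) (hN : β * 20.8 ≤ 1) (hx1 : 1.49 ≤ x) (hx2 : x ≤ 1.57)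
    (hy1 : -0.29 ≤ y) (hy2 : y ≤ -0.25) : ‖HH β (x + y * I) - 1‖ ≤ 0.6941 * β := by
  refine J_box 1.49 1.57 0.29 0 (-0.25) 1.5533 1.5966 1.74 0.6814 0.5263 4.5608 20.8 1.0279 4.343 1.602 0.5485 0.7766 0.5105 1.0605 2.279 0.9203 2.563 3.7623 3.352 0.0000003101 0.00002449 0.0000003101 0.0000003101 0.0000003101 0.0000003101 0.0000003101 0.0000003101 0.6941
    hβ hN hx1 hx2 hy1 hy2 (by norm_num) (by norm_num) (by norm_num) (by norm_num) (by norm_num) (by norm_num) (by norm_num) (by norm_num) (by norm_num) (by norm_num) (by norm_num) (by norm_num) (by norm_num) (by norm_num) (by norm_num) (by norm_num) (by norm_num) (by norm_num) (by norm_num) (by norm_num) (by norm_num) (by norm_num) (by norm_num) (by norm_num)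
    (cube_sqrt_geJ (s := 0.8107) (by norm_num) (by norm_num) (by norm_num) (by norm_num))
    (cube_sqrt_geJ (s := 0.9349) (by norm_num) (by norm_num) (by norm_num) (by norm_num))
    (by norm_num) (by norm_num) (by norm_num) (by norm_num) (by norm_num) (by norm_num) (by norm_num) (by norm_num) (by norm_num) (by norm_num) (by norm_num) (by norm_num) (by norm_num) (by norm_num) (by norm_num) (by norm_num) (by norm_num) (by norm_num)
    (exp_neg_leJ (r := 0.99) 14 (by norm_num) (by norm_num) (by norm_num) (by norm_num))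
    (exp_neg_leJ (r := 0.618) 10 (by norm_num) (by norm_num) (by norm_num) (by norm_num))
    (exp_neg_leJ (r := 0.99) 14 (by norm_num) (by norm_num) (by norm_num) (by norm_num))
    (exp_neg_leJ (r := 0.99) 14 (by norm_num) (by norm_num) (by norm_num) (by norm_num))
    (exp_neg_leJ (r := 0.99) 14 (by norm_num) (by norm_num) (by norm_num) (by norm_num))
    (exp_neg_leJ (r := 0.99) 14 (by norm_num) (by norm_num) (by norm_num) (by norm_num))
    (exp_neg_leJ (r := 0.99) 14 (by norm_num) (by norm_num) (by norm_num) (by norm_num))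
    (exp_neg_leJ (r := 0.99) 14 (by norm_num) (by norm_num) (by norm_num) (by norm_num))
    (by norm_num)

private theorem bxb11 {β x y : ℝ} (hβ : 0 < β) (hN : β * 20.8 ≤ 1) (hx1 : 1.57 ≤ x) (hx2 : x ≤ 1.65)
    (hy1 : -0.29 ≤ y) (hy2 : y ≤ -0.25) : ‖HH β (x + y * I) - 1‖ ≤ 0.6962 * β := by
  refine J_box 1.57 1.65 0.29 0 (-0.25) 1.6096 1.6753 1.8125 0.6593 0.5371 4.5608 20.8 1.0409 4.444 1.612 0.5178 0.8047 0.5255 1.0879 2.2331 0.9591 2.6738 3.9223 3.2981 0.0000003101 0.00001797 0.0000003101 0.0000003101 0.0000003101 0.0000003101 0.0000003101 0.0000003101 0.6962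
    hβ hN hx1 hx2 hy1 hy2 (by norm_num) (by norm_num) (by norm_num) (by norm_num) (by norm_num) (by norm_num) (by norm_num) (by norm_num) (by norm_num) (by norm_num) (by norm_num) (by norm_num) (by norm_num) (by norm_num) (by norm_num) (by norm_num) (by norm_num) (by norm_num) (by norm_num) (by norm_num) (by norm_num) (by norm_num) (by norm_num) (by norm_num)
    (cube_sqrt_geJ (s := 0.8081) (by norm_num) (by norm_num) (by norm_num) (by norm_num))
    (cube_sqrt_geJ (s := 0.9341) (by norm_num) (by norm_num) (by norm_num) (by norm_num))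
    (by norm_num) (by norm_num) (by norm_num) (by norm_num) (by norm_num) (by norm_num) (by norm_num) (by norm_num) (by norm_num) (by norm_num) (by norm_num) (by norm_num) (by norm_num) (by norm_num) (by norm_num) (by norm_num) (by norm_num) (by norm_num)
    (exp_neg_leJ (r := 0.99) 14 (by norm_num) (by norm_num) (by norm_num) (by norm_num))
    (exp_neg_leJ (r := 0.93) 10 (by norm_num) (by norm_num) (by norm_num) (by norm_num))
    (exp_neg_leJ (r := 0.99) 14 (by norm_num) (by norm_num) (by norm_num) (by norm_num))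
    (exp_neg_leJ (r := 0.99) 14 (by norm_num) (by norm_num) (by norm_num) (by norm_num))
    (exp_neg_leJ (r := 0.99) 14 (by norm_num) (by norm_num) (by norm_num) (by norm_num))
    (exp_neg_leJ (r := 0.99) 14 (by norm_num) (by norm_num) (by norm_num) (by norm_num))
    (exp_neg_leJ (r := 0.99) 14 (by norm_num) (by norm_num) (by norm_num) (by norm_num))
    (exp_neg_leJ (r := 0.99) 14 (by norm_num) (by norm_num) (by norm_num) (by norm_num))
    (by norm_num)

private theorem bxb12 {β x y : ℝ} (hβ : 0 < β) (hN : β * 20.8 ≤ 1) (hx1 : 1.65 ≤ x) (hx2 : x ≤ 1.73)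
    (hy1 : -0.29 ≤ y) (hy2 : y ≤ -0.25) : ‖HH β (x + y * I) - 1‖ ≤ 0.6979 * β := by
  refine J_box 1.65 1.73 0.29 0 (-0.25) 1.6659 1.7542 1.8856 0.6387 0.5479 4.5608 20.8 1.0531 4.543 1.622 0.487 0.8329 0.5405 1.1153 2.1871 0.998 2.7846 4.0823 3.2436 0.0000003101 0.00001312 0.0000003101 0.0000003101 0.0000003101 0.0000003101 0.0000003101 0.0000003101 0.6979
    hβ hN hx1 hx2 hy1 hy2 (by norm_num) (by norm_num) (by norm_num) (by norm_num) (by norm_num) (by norm_num) (by norm_num) (by norm_num) (by norm_num) (by norm_num) (by norm_num) (by norm_num) (by norm_num) (by norm_num) (by norm_num) (by norm_num) (by norm_num) (by norm_num) (by norm_num) (by norm_num) (by norm_num) (by norm_num) (by norm_num) (by norm_num)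
    (cube_sqrt_geJ (s := 0.8055) (by norm_num) (by norm_num) (by norm_num) (by norm_num))
    (cube_sqrt_geJ (s := 0.9333) (by norm_num) (by norm_num) (by norm_num) (by norm_num))
    (by norm_num) (by norm_num) (by norm_num) (by norm_num) (by norm_num) (by norm_num) (by norm_num) (by norm_num) (by norm_num) (by norm_num) (by norm_num) (by norm_num) (by norm_num) (by norm_num) (by norm_num) (by norm_num) (by norm_num) (by norm_num)
    (exp_neg_leJ (r := 0.99) 14 (by norm_num) (by norm_num) (by norm_num) (by norm_num))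
    (exp_neg_leJ (r := 0.242) 11 (by norm_num) (by norm_num) (by norm_num) (by norm_num))
    (exp_neg_leJ (r := 0.99) 14 (by norm_num) (by norm_num) (by norm_num) (by norm_num))
    (exp_neg_leJ (r := 0.99) 14 (by norm_num) (by norm_num) (by norm_num) (by norm_num))
    (exp_neg_leJ (r := 0.99) 14 (by norm_num) (by norm_num) (by norm_num) (by norm_num))
    (exp_neg_leJ (r := 0.99) 14 (by norm_num) (by norm_num) (by norm_num) (by norm_num))
    (exp_neg_leJ (r := 0.99) 14 (by norm_num) (by norm_num) (by norm_num) (by norm_num))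
    (exp_neg_leJ (r := 0.99) 14 (by norm_num) (by norm_num) (by norm_num) (by norm_num))
    (by norm_num)

private theorem bxb13 {β x y : ℝ} (hβ : 0 < β) (hN : β * 20.8 ≤ 1) (hx1 : 1.73 ≤ x) (hx2 : x ≤ 1.81)
    (hy1 : -0.29 ≤ y) (hy2 : y ≤ -0.25) : ‖HH β (x + y * I) - 1‖ ≤ 0.6983 * β := by
  refine J_box 1.73 1.81 0.29 0 (-0.25) 1.7223 1.8331 1.9593 0.6193 0.5585 4.5608 20.8 1.0644 4.636 1.631 0.4562 0.8611 0.5556 1.1427 2.1412 1.0368 2.8953 4.2423 3.1891 0.0000003101 0.000009582 0.0000003101 0.0000003101 0.0000003101 0.0000003101 0.0000003101 0.0000003101 0.6983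
    hβ hN hx1 hx2 hy1 hy2 (by norm_num) (by norm_num) (by norm_num) (by norm_num) (by norm_num) (by norm_num) (by norm_num) (by norm_num) (by norm_num) (by norm_num) (by norm_num) (by norm_num) (by norm_num) (by norm_num) (by norm_num) (by norm_num) (by norm_num) (by norm_num) (by norm_num) (by norm_num) (by norm_num) (by norm_num) (by norm_num) (by norm_num)
    (cube_sqrt_geJ (s := 0.8032) (by norm_num) (by norm_num) (by norm_num) (by norm_num))
    (cube_sqrt_geJ (s := 0.9325) (by norm_num) (by norm_num) (by norm_num) (by norm_num))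
    (by norm_num) (by norm_num) (by norm_num) (by norm_num) (by norm_num) (by norm_num) (by norm_num) (by norm_num) (by norm_num) (by norm_num) (by norm_num) (by norm_num) (by norm_num) (by norm_num) (by norm_num) (by norm_num) (by norm_num) (by norm_num)
    (exp_neg_leJ (r := 0.99) 14 (by norm_num) (by norm_num) (by norm_num) (by norm_num))
    (exp_neg_leJ (r := 0.556) 11 (by norm_num) (by norm_num) (by norm_num) (by norm_num))
    (exp_neg_leJ (r := 0.99) 14 (by norm_num) (by norm_num) (by norm_num) (by norm_num))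
    (exp_neg_leJ (r := 0.99) 14 (by norm_num) (by norm_num) (by norm_num) (by norm_num))
    (exp_neg_leJ (r := 0.99) 14 (by norm_num) (by norm_num) (by norm_num) (by norm_num))
    (exp_neg_leJ (r := 0.99) 14 (by norm_num) (by norm_num) (by norm_num) (by norm_num))
    (exp_neg_leJ (r := 0.99) 14 (by norm_num) (by norm_num) (by norm_num) (by norm_num))
    (exp_neg_leJ (r := 0.99) 14 (by norm_num) (by norm_num) (by norm_num) (by norm_num))
    (by norm_num)

private theorem bxb14 {β x y : ℝ} (hβ : 0 < β) (hN : β * 20.8 ≤ 1) (hx1 : 1.81 ≤ x) (hx2 : x ≤ 1.89)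
    (hy1 : -0.29 ≤ y) (hy2 : y ≤ -0.25) : ‖HH β (x + y * I) - 1‖ ≤ 0.6987 * β := by
  refine J_box 1.81 1.89 0.29 0 (-0.25) 1.7786 1.9122 2.0334 0.6012 0.5689 4.5608 20.8 1.0752 4.728 1.64 0.4255 0.8892 0.5705 1.1701 2.0951 1.0757 3.0061 4.4023 3.1341 0.0000003101 0.00000704 0.0000003101 0.0000003101 0.0000003101 0.0000003101 0.0000003101 0.0000003101 0.6987
    hβ hN hx1 hx2 hy1 hy2 (by norm_num) (by norm_num) (by norm_num) (by norm_num) (by norm_num) (by norm_num) (by norm_num) (by norm_num) (by norm_num) (by norm_num) (by norm_num) (by norm_num) (by norm_num) (by norm_num) (by norm_num) (by norm_num) (by norm_num) (by norm_num) (by norm_num) (by norm_num) (by norm_num) (by norm_num) (by norm_num) (by norm_num)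
    (cube_sqrt_geJ (s := 0.8009) (by norm_num) (by norm_num) (by norm_num) (by norm_num))
    (cube_sqrt_geJ (s := 0.9318) (by norm_num) (by norm_num) (by norm_num) (by norm_num))
    (by norm_num) (by norm_num) (by norm_num) (by norm_num) (by norm_num) (by norm_num) (by norm_num) (by norm_num) (by norm_num) (by norm_num) (by norm_num) (by norm_num) (by norm_num) (by norm_num) (by norm_num) (by norm_num) (by norm_num) (by norm_num)
    (exp_neg_leJ (r := 0.99) 14 (by norm_num) (by norm_num) (by norm_num) (by norm_num))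
    (exp_neg_leJ (r := 0.866) 11 (by norm_num) (by norm_num) (by norm_num) (by norm_num))
    (exp_neg_leJ (r := 0.99) 14 (by norm_num) (by norm_num) (by norm_num) (by norm_num))
    (exp_neg_leJ (r := 0.99) 14 (by norm_num) (by norm_num) (by norm_num) (by norm_num))
    (exp_neg_leJ (r := 0.99) 14 (by norm_num) (by norm_num) (by norm_num) (by norm_num))
    (exp_neg_leJ (r := 0.99) 14 (by norm_num) (by norm_num) (by norm_num) (by norm_num))
    (exp_neg_leJ (r := 0.99) 14 (by norm_num) (by norm_num) (by norm_num) (by norm_num))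
    (exp_neg_leJ (r := 0.99) 14 (by norm_num) (by norm_num) (by norm_num) (by norm_num))
    (by norm_num)

private theorem bxb15 {β x y : ℝ} (hβ : 0 < β) (hN : β * 20.8 ≤ 1) (hx1 : 1.89 ≤ x) (hx2 : x ≤ 1.97)
    (hy1 : -0.29 ≤ y) (hy2 : y ≤ -0.25) : ‖HH β (x + y * I) - 1‖ ≤ 0.6983 * β := by
  refine J_box 1.89 1.97 0.29 0 (-0.25) 1.8349 1.9913 2.108 0.5842 0.5793 4.5608 20.8 1.0853 4.816 1.648 0.3947 0.9174 0.5855 1.1974 2.0491 1.1146 3.1169 4.5623 3.0791 0.0000003101 0.000005143 0.0000003101 0.0000003101 0.0000003101 0.0000003101 0.0000003101 0.0000003101 0.6983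
    hβ hN hx1 hx2 hy1 hy2 (by norm_num) (by norm_num) (by norm_num) (by norm_num) (by norm_num) (by norm_num) (by norm_num) (by norm_num) (by norm_num) (by norm_num) (by norm_num) (by norm_num) (by norm_num) (by norm_num) (by norm_num) (by norm_num) (by norm_num) (by norm_num) (by norm_num) (by norm_num) (by norm_num) (by norm_num) (by norm_num) (by norm_num)
    (cube_sqrt_geJ (s := 0.7988) (by norm_num) (by norm_num) (by norm_num) (by norm_num))
    (cube_sqrt_geJ (s := 0.9311) (by norm_num) (by norm_num) (by norm_num) (by norm_num))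
    (by norm_num) (by norm_num) (by norm_num) (by norm_num) (by norm_num) (by norm_num) (by norm_num) (by norm_num) (by norm_num) (by norm_num) (by norm_num) (by norm_num) (by norm_num) (by norm_num) (by norm_num) (by norm_num) (by norm_num) (by norm_num)
    (exp_neg_leJ (r := 0.99) 14 (by norm_num) (by norm_num) (by norm_num) (by norm_num))
    (exp_neg_leJ (r := 0.178) 12 (by norm_num) (by norm_num) (by norm_num) (by norm_num))
    (exp_neg_leJ (r := 0.99) 14 (by norm_num) (by norm_num) (by norm_num) (by norm_num))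
    (exp_neg_leJ (r := 0.99) 14 (by norm_num) (by norm_num) (by norm_num) (by norm_num))
    (exp_neg_leJ (r := 0.99) 14 (by norm_num) (by norm_num) (by norm_num) (by norm_num))
    (exp_neg_leJ (r := 0.99) 14 (by norm_num) (by norm_num) (by norm_num) (by norm_num))
    (exp_neg_leJ (r := 0.99) 14 (by norm_num) (by norm_num) (by norm_num) (by norm_num))
    (exp_neg_leJ (r := 0.99) 14 (by norm_num) (by norm_num) (by norm_num) (by norm_num))
    (by norm_num)

private theorem bxb16 {β x y : ℝ} (hβ : 0 < β) (hN : β * 20.8 ≤ 1) (hx1 : 1.97 ≤ x) (hx2 : x ≤ 2.032)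
    (hy1 : -0.29 ≤ y) (hy2 : y ≤ -0.25) : ‖HH β (x + y * I) - 1‖ ≤ 0.6764 * β := by
  refine J_box 1.97 2.032 0.29 0 (-0.25) 1.8913 2.0526 2.166 0.5659 0.5872 4.5608 20.8 1.0853 4.816 1.648 0.3708 0.9456 0.6035 1.2248 2.0135 1.1534 3.2276 4.7223 3.0725 0.0000003101 0.000003539 0.0000003101 0.0000003101 0.0000003101 0.0000003101 0.0000003101 0.0000003101 0.6764
    hβ hN hx1 hx2 hy1 hy2 (by norm_num) (by norm_num) (by norm_num) (by norm_num) (by norm_num) (by norm_num) (by norm_num) (by norm_num) (by norm_num) (by norm_num) (by norm_num) (by norm_num) (by norm_num) (by norm_num) (by norm_num) (by norm_num) (by norm_num) (by norm_num) (by norm_num) (by norm_num) (by norm_num) (by norm_num) (by norm_num) (by norm_num)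
    (cube_sqrt_geJ (s := 0.7988) (by norm_num) (by norm_num) (by norm_num) (by norm_num))
    (cube_sqrt_geJ (s := 0.9311) (by norm_num) (by norm_num) (by norm_num) (by norm_num))
    (by norm_num) (by norm_num) (by norm_num) (by norm_num) (by norm_num) (by norm_num) (by norm_num) (by norm_num) (by norm_num) (by norm_num) (by norm_num) (by norm_num) (by norm_num) (by norm_num) (by norm_num) (by norm_num) (by norm_num) (by norm_num)
    (exp_neg_leJ (r := 0.99) 14 (by norm_num) (by norm_num) (by norm_num) (by norm_num))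
    (exp_neg_leJ (r := 0.552) 12 (by norm_num) (by norm_num) (by norm_num) (by norm_num))
    (exp_neg_leJ (r := 0.99) 14 (by norm_num) (by norm_num) (by norm_num) (by norm_num))
    (exp_neg_leJ (r := 0.99) 14 (by norm_num) (by norm_num) (by norm_num) (by norm_num))
    (exp_neg_leJ (r := 0.99) 14 (by norm_num) (by norm_num) (by norm_num) (by norm_num))
    (exp_neg_leJ (r := 0.99) 14 (by norm_num) (by norm_num) (by norm_num) (by norm_num))
    (exp_neg_leJ (r := 0.99) 14 (by norm_num) (by norm_num) (by norm_num) (by norm_num))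
    (exp_neg_leJ (r := 0.99) 14 (by norm_num) (by norm_num) (by norm_num) (by norm_num))
    (by norm_num)

theorem JP1_b {β x y κ : ℝ} (hβ : 0 < β) (hx : 0 < x) (hκ : κ = ‖(x + y * I : ℂ)‖ * Real.exp y)
    (hκ0 : 0 < κ) (hR : β * (10.4 * (1 + κ ^ 2)) ≤ κ) (hx1 : 0.25 ≤ x) (hx2 : x ≤ 2.032) (hy1 : -0.29 ≤ y) (hy2 : y ≤ -0.25) :
    ‖HH β (x + y * I) - 1‖ ≤ 0.034 := by
  have hw : Real.exp y ≤ 0.7789 := (Real.exp_le_exp.2 hy2).trans exp_wb
  have hya : |y| ≤ 0.29 := by rw [abs_le]; constructor <;> linarith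
  have hym : -0.29 ≤ y := by linarith
  have h20 := bN20 (N := 20.8) (by norm_num) (by norm_num) hβ hκ0 hR
  rcases le_total x 0.47 with f0 | g0
  · exact epsOf hβ (bN 10.4 0.5523 0.7789 0.4302 28.64 0.47 0.29 (by norm_num) hβ hx hκ hκ0 hR f0 hya hw (by norm_num) (by norm_num) (by norm_num) (by norm_num) (by norm_num) (by norm_num)) (by norm_num) (by norm_num) (bxb0 hβ (bN 10.4 0.5523 0.7789 0.4302 28.64 0.47 0.29 (by norm_num) hβ hx hκ hκ0 hR f0 hya hw (by norm_num) (by norm_num) (by norm_num) (by norm_num) (by norm_num) (by norm_num)) hx1 f0 hym hy2)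
  rcases le_total x 0.65 with f1 | g1
  · exact epsOf hβ (bN 10.4 0.7118 0.7789 0.5545 24.52 0.65 0.29 (by norm_num) hβ hx hκ hκ0 hR f1 hya hw (by norm_num) (by norm_num) (by norm_num) (by norm_num) (by norm_num) (by norm_num)) (by norm_num) (by norm_num) (bxb1 hβ (bN 10.4 0.7118 0.7789 0.5545 24.52 0.65 0.29 (by norm_num) hβ hx hκ hκ0 hR f1 hya hw (by norm_num) (by norm_num) (by norm_num) (by norm_num) (by norm_num) (by norm_num)) g0 f1 hym hy2)
  rcases le_total x 0.8 with f2 | g2
  · exact epsOf hβ (bN 10.4 0.851 0.7789 0.6629 22.58 0.8 0.29 (by norm_num) hβ hx hκ hκ0 hR f2 hya hw (by norm_num) (by norm_num) (by norm_num) (by norm_num) (by norm_num) (by norm_num)) (by norm_num) (by norm_num) (bxb2 hβ (bN 10.4 0.851 0.7789 0.6629 22.58 0.8 0.29 (by norm_num) hβ hx hκ hκ0 hR f2 hya hw (by norm_num) (by norm_num) (by norm_num) (by norm_num) (by norm_num) (by norm_num)) g1 f2 hym hy2)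
  rcases le_total x 0.92 with f3 | g3
  · exact epsOf hβ (bN 10.4 0.9647 0.7789 0.7515 21.65 0.92 0.29 (by norm_num) hβ hx hκ hκ0 hR f3 hya hw (by norm_num) (by norm_num) (by norm_num) (by norm_num) (by norm_num) (by norm_num)) (by norm_num) (by norm_num) (bxb3 hβ (bN 10.4 0.9647 0.7789 0.7515 21.65 0.92 0.29 (by norm_num) hβ hx hκ hκ0 hR f3 hya hw (by norm_num) (by norm_num) (by norm_num) (by norm_num) (by norm_num) (by norm_num)) g2 f3 hym hy2)
  rcases le_total x 1.03 with f4 | g4
  · exact epsOf hβ (bN 10.4 1.0701 0.7789 0.8336 21.14 1.03 0.29 (by norm_num) hβ hx hκ hκ0 hR f4 hya hw (by norm_num) (by norm_num) (by norm_num) (by norm_num) (by norm_num) (by norm_num)) (by norm_num) (by norm_num) (bxb4 hβ (bN 10.4 1.0701 0.7789 0.8336 21.14 1.03 0.29 (by norm_num) hβ hx hκ hκ0 hR f4 hya hw (by norm_num) (by norm_num) (by norm_num) (by norm_num) (by norm_num) (by norm_num)) g3 f4 hym hy2)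
  rcases le_total x 1.13 with f5 | g5
  · exact epsOf hβ (bN 10.4 1.1667 0.7789 0.9088 20.89 1.13 0.29 (by norm_num) hβ hx hκ hκ0 hR f5 hya hw (by norm_num) (by norm_num) (by norm_num) (by norm_num) (by norm_num) (by norm_num)) (by norm_num) (by norm_num) (bxb5 hβ (bN 10.4 1.1667 0.7789 0.9088 20.89 1.13 0.29 (by norm_num) hβ hx hκ hκ0 hR f5 hya hw (by norm_num) (by norm_num) (by norm_num) (by norm_num) (by norm_num) (by norm_num)) g4 f5 hym hy2)
  rcases le_total x 1.22 with f6 | g6
  · exact epsOf hβ (bN 10.4 1.254 0.7789 0.9768 20.8 1.22 0.29 (by norm_num) hβ hx hκ hκ0 hR f6 hya hw (by norm_num) (by norm_num) (by norm_num) (by norm_num) (by norm_num) (by norm_num)) (by norm_num) (by norm_num) (bxb6 hβ (bN 10.4 1.254 0.7789 0.9768 20.8 1.22 0.29 (by norm_num) hβ hx hκ hκ0 hR f6 hya hw (by norm_num) (by norm_num) (by norm_num) (by norm_num) (by norm_num) (by norm_num)) g5 f6 hym hy2)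
  rcases le_total x 1.31 with f7 | g7
  · exact epsOf hβ h20 (by norm_num) (by norm_num) (bxb7 hβ h20 g6 f7 hym hy2)
  rcases le_total x 1.4 with f8 | g8
  · exact epsOf hβ h20 (by norm_num) (by norm_num) (bxb8 hβ h20 g7 f8 hym hy2)
  rcases le_total x 1.49 with f9 | g9
  · exact epsOf hβ h20 (by norm_num) (by norm_num) (bxb9 hβ h20 g8 f9 hym hy2)
  rcases le_total x 1.57 with f10 | g10
  · exact epsOf hβ h20 (by norm_num) (by norm_num) (bxb10 hβ h20 g9 f10 hym hy2)
  rcases le_total x 1.65 with f11 | g11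
  · exact epsOf hβ h20 (by norm_num) (by norm_num) (bxb11 hβ h20 g10 f11 hym hy2)
  rcases le_total x 1.73 with f12 | g12
  · exact epsOf hβ h20 (by norm_num) (by norm_num) (bxb12 hβ h20 g11 f12 hym hy2)
  rcases le_total x 1.81 with f13 | g13
  · exact epsOf hβ h20 (by norm_num) (by norm_num) (bxb13 hβ h20 g12 f13 hym hy2)
  rcases le_total x 1.89 with f14 | g14
  · exact epsOf hβ h20 (by norm_num) (by norm_num) (bxb14 hβ h20 g13 f14 hym hy2)
  rcases le_total x 1.97 with f15 | g15
  · exact epsOf hβ h20 (by norm_num) (by norm_num) (bxb15 hβ h20 g14 f15 hym hy2)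
  exact epsOf hβ h20 (by norm_num) (by norm_num) (bxb16 hβ h20 g15 hx2 hym hy2)

end Sok
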