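import Mathlib
import Pool.Agent.Lib.MP_816dec_an.JBox

/-!
MP_816dec_an: `‖HH - 1‖ ≤ 0.034` for `R ≥ 10.4 (1+κ²)`, `-0.25 ≤ y ≤ -0.12`.
-/

set_option autoImplicit false
set_option maxHeartbeats 4000000

open Complex Set

namespace Sok

/-- `β N0 ≤ 1` from `R ≥ c (1+κ²)` -/
private theorem bN {β x y κ : ℝ} (c s1 w K N0 x2 ym : ℝ) (hc : 0 < c) (hβ : 0 < β) (hx : 0 < x)
    (hκ : κ = ‖(x + y * I : ℂ)‖ * Real.exp y) (hκ0 : 0 < κ) (hR : β * (c * (1 + κ ^ 2)) ≤ κ)
    (hx2 : x ≤ x2) (hy : |y| ≤ ym) (hw : Real.exp y ≤ w) (hs : x2 ^ 2 + ym ^ 2 ≤ s1 ^ 2) (hs0 : 0 ≤ s1)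
    (hK : s1 * w ≤ K) (hK0 : 0 < K) (hK1 : K ≤ 1) (hN : N0 * K ≤ c * (1 + K ^ 2)) : β * N0 ≤ 1 := by
  have hn2 : ‖(x + y * I : ℂ)‖ ^ 2 = x ^ 2 + y ^ 2 := by
    rw [← Complex.normSq_eq_norm_sq, Complex.normSq_apply]
    simp
    ring
  have hn : ‖(x + y * I : ℂ)‖ ≤ s1 := by
    apply le_of_sq_le_sq _ hs0
    rw [hn2]
    have h1 : x ^ 2 ≤ x2 ^ 2 := pow_le_pow_left₀ hx.le hx2 2
    have h2 : y ^ 2 ≤ ym ^ 2 := by
      rw [← sq_abs y]; exact pow_le_pow_left₀ (abs_nonneg y) hy 2
    linarith
  have hκK : κ ≤ K := by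
    rw [hκ]
    refine le_trans ?_ hK
    exact mul_le_mul hn hw (Real.exp_pos _).le hs0
  have h1 : κ * (1 + K ^ 2) ≤ K * (1 + κ ^ 2) := by
    have h3 : 0 ≤ 1 - κ * K := by nlinarith
    have := mul_nonneg (sub_nonneg.2 hκK) h3
    linarith
  have h2 : N0 * κ ≤ c * (1 + κ ^ 2) := by
    have h3 : N0 * K * κ ≤ c * (1 + K ^ 2) * κ := mul_le_mul_of_nonneg_right hN hκ0.le
    have h4 : N0 * κ * K ≤ c * (1 + κ ^ 2) * K := by
      have := mul_le_mul_of_nonneg_left h1 hc.le
      linarith
    exact le_of_mul_le_mul_right h4 hK0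
  have h5 : β * (N0 * κ) ≤ κ := (mul_le_mul_of_nonneg_left h2 hβ.le).trans hR
  have h6 : (β * N0) * κ ≤ 1 * κ := by linarith
  exact le_of_mul_le_mul_right h6 hκ0

private theorem bN20 {β κ c N : ℝ} (hc : 0 < c) (hN : N = 2 * c) (hβ : 0 < β) (hκ0 : 0 < κ)
    (hR : β * (c * (1 + κ ^ 2)) ≤ κ) : β * N ≤ 1 := by
  have h2 : N * κ ≤ c * (1 + κ ^ 2) := by
    rw [hN]
    have := mul_nonneg hc.le (sq_nonneg (κ - 1))
    linarith
  have h5 : β * (N * κ) ≤ κ := (mul_le_mul_of_nonneg_left h2 hβ.le).trans hR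
  have h6 : (β * N) * κ ≤ 1 * κ := by linarith
  exact le_of_mul_le_mul_right h6 hκ0

private theorem epsOf {β C N ε v : ℝ} (hβ : 0 < β) (hN : β * N ≤ 1) (hε : 0 ≤ ε) (hC : C ≤ ε * N) (h : v ≤ C * β) : v ≤ ε := by
  have h1 : C * β ≤ ε * N * β := mul_le_mul_of_nonneg_right hC hβ.le
  have h2 : ε * (β * N) ≤ ε * 1 := mul_le_mul_of_nonneg_left hN hε
  linarith

private theorem exp_wc : Real.exp (-0.18) ≤ 0.8353 := by
  rw [Real.exp_neg, inv_le_comm₀ (Real.exp_pos _) (by norm_num)]
  have h := Real.sum_le_exp_of_nonneg (x := 0.18) (by norm_num) 7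
  refine le_trans ?_ h
  norm_num [Finset.sum_range_succ, Nat.factorial]

private theorem bxc0 {β x y : ℝ} (hβ : 0 < β) (hN : β * 26.85 ≤ 1) (hx1 : 0.26 ≤ x) (hx2 : x ≤ 0.51)
    (hy1 : -0.25 ≤ y) (hy2 : y ≤ -0.18) : ‖HH β (x + y * I) - 1‖ ≤ 0.8775 * β := by
  refine J_box 0.26 0.51 0.25 0 (-0.18) 0.7156 0.568 0.9657 1.6234 0.3921 5.1817 26.85 0.7938 2.933 1.431 0.9931 0.3577 0.2631 0.7026 3.0089 0.3447 0.8599 1.4111 3.6881 0.00006749 0.0008554 0.0000003101 0.0000003101 0.00009564 0.0000003101 0.0000003101 0.0000003101 0.8775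
    hβ hN hx1 hx2 hy1 hy2 (by norm_num) (by norm_num) (by norm_num) (by norm_num) (by norm_num) (by norm_num) (by norm_num) (by norm_num) (by norm_num) (by norm_num) (by norm_num) (by norm_num) (by norm_num) (by norm_num) (by norm_num) (by norm_num) (by norm_num) (by norm_num) (by norm_num) (by norm_num) (by norm_num) (by norm_num) (by norm_num) (by norm_num)
    (cube_sqrt_geJ (s := 0.8575) (by norm_num) (by norm_num) (by norm_num) (by norm_num))
    (cube_sqrt_geJ (s := 0.9501) (by norm_num) (by norm_num) (by norm_num) (by norm_num))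
    (by norm_num) (by norm_num) (by norm_num) (by norm_num) (by norm_num) (by norm_num) (by norm_num) (by norm_num) (by norm_num) (by norm_num) (by norm_num) (by norm_num) (by norm_num) (by norm_num) (by norm_num) (by norm_num) (by norm_num) (by norm_num)
    (exp_neg_leJ (r := 0.604) 9 (by norm_num) (by norm_num) (by norm_num) (by norm_num))
    (exp_neg_leJ (r := 0.064) 7 (by norm_num) (by norm_num) (by norm_num) (by norm_num))
    (exp_neg_leJ (r := 0.99) 14 (by norm_num) (by norm_num) (by norm_num) (by norm_num))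
    (exp_neg_leJ (r := 0.99) 14 (by norm_num) (by norm_num) (by norm_num) (by norm_num))
    (exp_neg_leJ (r := 0.255) 9 (by norm_num) (by norm_num) (by norm_num) (by norm_num))
    (exp_neg_leJ (r := 0.99) 14 (by norm_num) (by norm_num) (by norm_num) (by norm_num))
    (exp_neg_leJ (r := 0.99) 14 (by norm_num) (by norm_num) (by norm_num) (by norm_num))
    (exp_neg_leJ (r := 0.99) 14 (by norm_num) (by norm_num) (by norm_num) (by norm_num))
    (by norm_num)

private theorem bxc1 {β x y : ℝ} (hβ : 0 < β) (hN : β * 23.07 ≤ 1) (hx1 : 0.51 ≤ x) (hx2 : x ≤ 0.71)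
    (hy1 : -0.25 ≤ y) (hy2 : y ≤ -0.18) : ‖HH β (x + y * I) - 1‖ ≤ 0.7653 * β := by
  refine J_box 0.51 0.71 0.25 0 (-0.18) 0.8916 0.7528 1.0847 1.2371 0.4155 4.8032 23.07 0.8444 3.181 1.466 0.9162 0.4457 0.3203 0.7882 2.8974 0.4661 1.2061 1.9111 3.6857 0.00003425 0.0006181 0.0000003101 0.0000003101 0.00002143 0.0000003101 0.0000003101 0.0000003101 0.7653
    hβ hN hx1 hx2 hy1 hy2 (by norm_num) (by norm_num) (by norm_num) (by norm_num) (by norm_num) (by norm_num) (by norm_num) (by norm_num) (by norm_num) (by norm_num) (by norm_num) (by norm_num) (by norm_num) (by norm_num) (by norm_num) (by norm_num) (by norm_num) (by norm_num) (by norm_num) (by norm_num) (by norm_num) (by norm_num) (by norm_num) (by norm_num)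
    (cube_sqrt_geJ (s := 0.8476) (by norm_num) (by norm_num) (by norm_num) (by norm_num))
    (cube_sqrt_geJ (s := 0.9468) (by norm_num) (by norm_num) (by norm_num) (by norm_num))
    (by norm_num) (by norm_num) (by norm_num) (by norm_num) (by norm_num) (by norm_num) (by norm_num) (by norm_num) (by norm_num) (by norm_num) (by norm_num) (by norm_num) (by norm_num) (by norm_num) (by norm_num) (by norm_num) (by norm_num) (by norm_num)
    (exp_neg_leJ (r := 0.282) 10 (by norm_num) (by norm_num) (by norm_num) (by norm_num))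
    (exp_neg_leJ (r := 0.389) 7 (by norm_num) (by norm_num) (by norm_num) (by norm_num))
    (exp_neg_leJ (r := 0.99) 14 (by norm_num) (by norm_num) (by norm_num) (by norm_num))
    (exp_neg_leJ (r := 0.99) 14 (by norm_num) (by norm_num) (by norm_num) (by norm_num))
    (exp_neg_leJ (r := 0.752) 10 (by norm_num) (by norm_num) (by norm_num) (by norm_num))
    (exp_neg_leJ (r := 0.99) 14 (by norm_num) (by norm_num) (by norm_num) (by norm_num))
    (exp_neg_leJ (r := 0.99) 14 (by norm_num) (by norm_num) (by norm_num) (by norm_num))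
    (exp_neg_leJ (r := 0.99) 14 (by norm_num) (by norm_num) (by norm_num) (by norm_num))
    (by norm_num)

private theorem bxc2 {β x y : ℝ} (hβ : 0 < β) (hN : β * 21.55 ≤ 1) (hx1 : 0.71 ≤ x) (hx2 : x ≤ 0.88)
    (hy1 : -0.25 ≤ y) (hy2 : y ≤ -0.18) : ‖HH β (x + y * I) - 1‖ ≤ 0.723 * β := by
  refine J_box 0.71 0.88 0.25 0 (-0.18) 1.0324 0.9149 1.2029 1.0456 0.4376 4.6422 21.55 0.8862 3.406 1.495 0.8508 0.5161 0.3637 0.8567 2.8012 0.5633 1.483 2.3111 3.6451 0.0000148 0.0003956 0.0000003101 0.0000003101 0.000005347 0.0000003101 0.0000003101 0.0000003101 0.723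
    hβ hN hx1 hx2 hy1 hy2 (by norm_num) (by norm_num) (by norm_num) (by norm_num) (by norm_num) (by norm_num) (by norm_num) (by norm_num) (by norm_num) (by norm_num) (by norm_num) (by norm_num) (by norm_num) (by norm_num) (by norm_num) (by norm_num) (by norm_num) (by norm_num) (by norm_num) (by norm_num) (by norm_num) (by norm_num) (by norm_num) (by norm_num)
    (cube_sqrt_geJ (s := 0.8394) (by norm_num) (by norm_num) (by norm_num) (by norm_num))
    (cube_sqrt_geJ (s := 0.9441) (by norm_num) (by norm_num) (by norm_num) (by norm_num))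
    (by norm_num) (by norm_num) (by norm_num) (by norm_num) (by norm_num) (by norm_num) (by norm_num) (by norm_num) (by norm_num) (by norm_num) (by norm_num) (by norm_num) (by norm_num) (by norm_num) (by norm_num) (by norm_num) (by norm_num) (by norm_num)
    (exp_neg_leJ (r := 0.121) 11 (by norm_num) (by norm_num) (by norm_num) (by norm_num))
    (exp_neg_leJ (r := 0.837) 7 (by norm_num) (by norm_num) (by norm_num) (by norm_num))
    (exp_neg_leJ (r := 0.99) 14 (by norm_num) (by norm_num) (by norm_num) (by norm_num))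
    (exp_neg_leJ (r := 0.99) 14 (by norm_num) (by norm_num) (by norm_num) (by norm_num))
    (exp_neg_leJ (r := 0.139) 12 (by norm_num) (by norm_num) (by norm_num) (by norm_num))
    (exp_neg_leJ (r := 0.99) 14 (by norm_num) (by norm_num) (by norm_num) (by norm_num))
    (exp_neg_leJ (r := 0.99) 14 (by norm_num) (by norm_num) (by norm_num) (by norm_num))
    (exp_neg_leJ (r := 0.99) 14 (by norm_num) (by norm_num) (by norm_num) (by norm_num))
    (by norm_num)

private theorem bxc3 {β x y : ℝ} (hβ : 0 < β) (hN : β * 20.95 ≤ 1) (hx1 : 0.88 ≤ x) (hx2 : x ≤ 1.03)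
    (hy1 : -0.25 ≤ y) (hy2 : y ≤ -0.18) : ‖HH β (x + y * I) - 1‖ ≤ 0.7026 * β := by
  refine J_box 0.88 1.03 0.25 0 (-0.18) 1.1521 1.06 1.3166 0.9279 0.4578 4.5772 20.95 0.9201 3.605 1.52 0.7931 0.576 0.3993 0.9148 2.7158 0.6458 1.7184 2.6511 3.5907 0.000005747 0.0002329 0.0000003101 0.0000003101 0.000001333 0.0000003101 0.0000003101 0.0000003101 0.7026
    hβ hN hx1 hx2 hy1 hy2 (by norm_num) (by norm_num) (by norm_num) (by norm_num) (by norm_num) (by norm_num) (by norm_num) (by norm_num) (by norm_num) (by norm_num) (by norm_num) (by norm_num) (by norm_num) (by norm_num) (by norm_num) (by norm_num) (by norm_num) (by norm_num) (by norm_num) (by norm_num) (by norm_num) (by norm_num) (by norm_num) (by norm_num)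
    (cube_sqrt_geJ (s := 0.8326) (by norm_num) (by norm_num) (by norm_num) (by norm_num))
    (cube_sqrt_geJ (s := 0.9419) (by norm_num) (by norm_num) (by norm_num) (by norm_num))
    (by norm_num) (by norm_num) (by norm_num) (by norm_num) (by norm_num) (by norm_num) (by norm_num) (by norm_num) (by norm_num) (by norm_num) (by norm_num) (by norm_num) (by norm_num) (by norm_num) (by norm_num) (by norm_num) (by norm_num) (by norm_num)
    (exp_neg_leJ (r := 0.067) 12 (by norm_num) (by norm_num) (by norm_num) (by norm_num))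
    (exp_neg_leJ (r := 0.365) 8 (by norm_num) (by norm_num) (by norm_num) (by norm_num))
    (exp_neg_leJ (r := 0.99) 14 (by norm_num) (by norm_num) (by norm_num) (by norm_num))
    (exp_neg_leJ (r := 0.99) 14 (by norm_num) (by norm_num) (by norm_num) (by norm_num))
    (exp_neg_leJ (r := 0.529) 13 (by norm_num) (by norm_num) (by norm_num) (by norm_num))
    (exp_neg_leJ (r := 0.99) 14 (by norm_num) (by norm_num) (by norm_num) (by norm_num))
    (exp_neg_leJ (r := 0.99) 14 (by norm_num) (by norm_num) (by norm_num) (by norm_num))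
    (exp_neg_leJ (r := 0.99) 14 (by norm_num) (by norm_num) (by norm_num) (by norm_num))
    (by norm_num)

private theorem bxc4 {β x y : ℝ} (hβ : 0 < β) (hN : β * 20.8 ≤ 1) (hx1 : 1.03 ≤ x) (hx2 : x ≤ 1.17)
    (hy1 : -0.25 ≤ y) (hy2 : y ≤ -0.18) : ‖HH β (x + y * I) - 1‖ ≤ 0.6984 * β := by
  refine J_box 1.03 1.17 0.25 0 (-0.18) 1.2578 1.1965 1.4288 0.8474 0.4769 4.5608 20.8 0.9513 3.801 1.543 0.7393 0.6288 0.4294 0.9662 2.6358 0.7187 1.9261 2.9511 3.5196 0.000002089 0.0001326 0.0000003101 0.0000003101 0.0000003232 0.0000003101 0.0000003101 0.0000003101 0.6984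
    hβ hN hx1 hx2 hy1 hy2 (by norm_num) (by norm_num) (by norm_num) (by norm_num) (by norm_num) (by norm_num) (by norm_num) (by norm_num) (by norm_num) (by norm_num) (by norm_num) (by norm_num) (by norm_num) (by norm_num) (by norm_num) (by norm_num) (by norm_num) (by norm_num) (by norm_num) (by norm_num) (by norm_num) (by norm_num) (by norm_num) (by norm_num)
    (cube_sqrt_geJ (s := 0.8263) (by norm_num) (by norm_num) (by norm_num) (by norm_num))
    (cube_sqrt_geJ (s := 0.9399) (by norm_num) (by norm_num) (by norm_num) (by norm_num))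
    (by norm_num) (by norm_num) (by norm_num) (by norm_num) (by norm_num) (by norm_num) (by norm_num) (by norm_num) (by norm_num) (by norm_num) (by norm_num) (by norm_num) (by norm_num) (by norm_num) (by norm_num) (by norm_num) (by norm_num) (by norm_num)
    (exp_neg_leJ (r := 0.079) 13 (by norm_num) (by norm_num) (by norm_num) (by norm_num))
    (exp_neg_leJ (r := 0.931) 8 (by norm_num) (by norm_num) (by norm_num) (by norm_num))
    (exp_neg_leJ (r := 0.99) 14 (by norm_num) (by norm_num) (by norm_num) (by norm_num))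
    (exp_neg_leJ (r := 0.99) 14 (by norm_num) (by norm_num) (by norm_num) (by norm_num))
    (exp_neg_leJ (r := 0.948) 14 (by norm_num) (by norm_num) (by norm_num) (by norm_num))
    (exp_neg_leJ (r := 0.99) 14 (by norm_num) (by norm_num) (by norm_num) (by norm_num))
    (exp_neg_leJ (r := 0.99) 14 (by norm_num) (by norm_num) (by norm_num) (by norm_num))
    (exp_neg_leJ (r := 0.99) 14 (by norm_num) (by norm_num) (by norm_num) (by norm_num))
    (by norm_num)

private theorem bxc5 {β x y : ℝ} (hβ : 0 < β) (hN : β * 20.8 ≤ 1) (hx1 : 1.17 ≤ x) (hx2 : x ≤ 1.3)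
    (hy1 : -0.25 ≤ y) (hy2 : y ≤ -0.18) : ‖HH β (x + y * I) - 1‖ ≤ 0.6927 * β := by
  refine J_box 1.17 1.3 0.25 0 (-0.18) 1.3563 1.3239 1.5371 0.785 0.4947 4.5608 20.8 0.9762 3.967 1.562 0.6893 0.6781 0.4574 1.0141 2.5614 0.7867 2.1199 3.2311 3.4533 0.0000007495 0.00007391 0.0000003101 0.0000003101 0.0000003101 0.0000003101 0.0000003101 0.0000003101 0.6927
    hβ hN hx1 hx2 hy1 hy2 (by norm_num) (by norm_num) (by norm_num) (by norm_num) (by norm_num) (by norm_num) (by norm_num) (by norm_num) (by norm_num) (by norm_num) (by norm_num) (by norm_num) (by norm_num) (by norm_num) (by norm_num) (by norm_num) (by norm_num) (by norm_num) (by norm_num) (by norm_num) (by norm_num) (by norm_num) (by norm_num) (by norm_num)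
    (cube_sqrt_geJ (s := 0.8213) (by norm_num) (by norm_num) (by norm_num) (by norm_num))
    (cube_sqrt_geJ (s := 0.9383) (by norm_num) (by norm_num) (by norm_num) (by norm_num))
    (by norm_num) (by norm_num) (by norm_num) (by norm_num) (by norm_num) (by norm_num) (by norm_num) (by norm_num) (by norm_num) (by norm_num) (by norm_num) (by norm_num) (by norm_num) (by norm_num) (by norm_num) (by norm_num) (by norm_num) (by norm_num)
    (exp_neg_leJ (r := 0.104) 14 (by norm_num) (by norm_num) (by norm_num) (by norm_num))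
    (exp_neg_leJ (r := 0.513) 9 (by norm_num) (by norm_num) (by norm_num) (by norm_num))
    (exp_neg_leJ (r := 0.99) 14 (by norm_num) (by norm_num) (by norm_num) (by norm_num))
    (exp_neg_leJ (r := 0.99) 14 (by norm_num) (by norm_num) (by norm_num) (by norm_num))
    (exp_neg_leJ (r := 0.99) 14 (by norm_num) (by norm_num) (by norm_num) (by norm_num))
    (exp_neg_leJ (r := 0.99) 14 (by norm_num) (by norm_num) (by norm_num) (by norm_num))
    (exp_neg_leJ (r := 0.99) 14 (by norm_num) (by norm_num) (by norm_num) (by norm_num))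
    (exp_neg_leJ (r := 0.99) 14 (by norm_num) (by norm_num) (by norm_num) (by norm_num))
    (by norm_num)

private theorem bxc6 {β x y : ℝ} (hβ : 0 < β) (hN : β * 20.8 ≤ 1) (hx1 : 1.3 ≤ x) (hx2 : x ≤ 1.43)
    (hy1 : -0.25 ≤ y) (hy2 : y ≤ -0.18) : ‖HH β (x + y * I) - 1‖ ≤ 0.6999 * β := by
  refine J_box 1.3 1.43 0.25 0 (-0.18) 1.4479 1.4517 1.6485 0.737 0.5123 4.5608 20.8 1.0027 4.154 1.582 0.6393 0.7239 0.4819 1.0586 2.4868 0.8498 2.2999 3.4911 3.3659 0.0000003101 0.00004437 0.0000003101 0.0000003101 0.0000003101 0.0000003101 0.0000003101 0.0000003101 0.6999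
    hβ hN hx1 hx2 hy1 hy2 (by norm_num) (by norm_num) (by norm_num) (by norm_num) (by norm_num) (by norm_num) (by norm_num) (by norm_num) (by norm_num) (by norm_num) (by norm_num) (by norm_num) (by norm_num) (by norm_num) (by norm_num) (by norm_num) (by norm_num) (by norm_num) (by norm_num) (by norm_num) (by norm_num) (by norm_num) (by norm_num) (by norm_num)
    (cube_sqrt_geJ (s := 0.8159) (by norm_num) (by norm_num) (by norm_num) (by norm_num))
    (cube_sqrt_geJ (s := 0.9366) (by norm_num) (by norm_num) (by norm_num) (by norm_num))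
    (by norm_num) (by norm_num) (by norm_num) (by norm_num) (by norm_num) (by norm_num) (by norm_num) (by norm_num) (by norm_num) (by norm_num) (by norm_num) (by norm_num) (by norm_num) (by norm_num) (by norm_num) (by norm_num) (by norm_num) (by norm_num)
    (exp_neg_leJ (r := 0.99) 14 (by norm_num) (by norm_num) (by norm_num) (by norm_num))
    (exp_neg_leJ (r := 0.023) 10 (by norm_num) (by norm_num) (by norm_num) (by norm_num))
    (exp_neg_leJ (r := 0.99) 14 (by norm_num) (by norm_num) (by norm_num) (by norm_num))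
    (exp_neg_leJ (r := 0.99) 14 (by norm_num) (by norm_num) (by norm_num) (by norm_num))
    (exp_neg_leJ (r := 0.99) 14 (by norm_num) (by norm_num) (by norm_num) (by norm_num))
    (exp_neg_leJ (r := 0.99) 14 (by norm_num) (by norm_num) (by norm_num) (by norm_num))
    (exp_neg_leJ (r := 0.99) 14 (by norm_num) (by norm_num) (by norm_num) (by norm_num))
    (exp_neg_leJ (r := 0.99) 14 (by norm_num) (by norm_num) (by norm_num) (by norm_num))
    (by norm_num)

private theorem bxc7 {β x y : ℝ} (hβ : 0 < β) (hN : β * 20.8 ≤ 1) (hx1 : 1.43 ≤ x) (hx2 : x ≤ 1.56)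
    (hy1 : -0.25 ≤ y) (hy2 : y ≤ -0.18) : ‖HH β (x + y * I) - 1‖ ≤ 0.7051 * β := by
  refine J_box 1.43 1.56 0.25 0 (-0.18) 1.5394 1.58 1.7624 0.6951 0.5297 4.5608 20.8 1.0264 4.331 1.601 0.5893 0.7696 0.5063 1.1031 2.4121 0.913 2.4799 3.7511 3.2771 0.0000003101 0.00002671 0.0000003101 0.0000003101 0.0000003101 0.0000003101 0.0000003101 0.0000003101 0.7051
    hβ hN hx1 hx2 hy1 hy2 (by norm_num) (by norm_num) (by norm_num) (by norm_num) (by norm_num) (by norm_num) (by norm_num) (by norm_num) (by norm_num) (by norm_num) (by norm_num) (by norm_num) (by norm_num) (by norm_num) (by norm_num) (by norm_num) (by norm_num) (by norm_num) (by norm_num) (by norm_num) (by norm_num) (by norm_num) (by norm_num) (by norm_num)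
    (cube_sqrt_geJ (s := 0.811) (by norm_num) (by norm_num) (by norm_num) (by norm_num))
    (cube_sqrt_geJ (s := 0.935) (by norm_num) (by norm_num) (by norm_num) (by norm_num))
    (by norm_num) (by norm_num) (by norm_num) (by norm_num) (by norm_num) (by norm_num) (by norm_num) (by norm_num) (by norm_num) (by norm_num) (by norm_num) (by norm_num) (by norm_num) (by norm_num) (by norm_num) (by norm_num) (by norm_num) (by norm_num)
    (exp_neg_leJ (r := 0.99) 14 (by norm_num) (by norm_num) (by norm_num) (by norm_num))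
    (exp_neg_leJ (r := 0.531) 10 (by norm_num) (by norm_num) (by norm_num) (by norm_num))
    (exp_neg_leJ (r := 0.99) 14 (by norm_num) (by norm_num) (by norm_num) (by norm_num))
    (exp_neg_leJ (r := 0.99) 14 (by norm_num) (by norm_num) (by norm_num) (by norm_num))
    (exp_neg_leJ (r := 0.99) 14 (by norm_num) (by norm_num) (by norm_num) (by norm_num))
    (exp_neg_leJ (r := 0.99) 14 (by norm_num) (by norm_num) (by norm_num) (by norm_num))
    (exp_neg_leJ (r := 0.99) 14 (by norm_num) (by norm_num) (by norm_num) (by norm_num))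
    (exp_neg_leJ (r := 0.99) 14 (by norm_num) (by norm_num) (by norm_num) (by norm_num))
    (by norm_num)

private theorem bxc8 {β x y : ℝ} (hβ : 0 < β) (hN : β * 20.8 ≤ 1) (hx1 : 1.56 ≤ x) (hx2 : x ≤ 1.68)
    (hy1 : -0.25 ≤ y) (hy2 : y ≤ -0.18) : ‖HH β (x + y * I) - 1‖ ≤ 0.6943 * β := by
  refine J_box 1.56 1.68 0.25 0 (-0.18) 1.631 1.6985 1.8695 0.6565 0.5455 4.5608 20.8 1.0414 4.448 1.613 0.5431 0.8154 0.5324 1.1476 2.3431 0.9761 2.6599 4.0111 3.215 0.0000003101 0.00001553 0.0000003101 0.0000003101 0.0000003101 0.0000003101 0.0000003101 0.0000003101 0.6943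
    hβ hN hx1 hx2 hy1 hy2 (by norm_num) (by norm_num) (by norm_num) (by norm_num) (by norm_num) (by norm_num) (by norm_num) (by norm_num) (by norm_num) (by norm_num) (by norm_num) (by norm_num) (by norm_num) (by norm_num) (by norm_num) (by norm_num) (by norm_num) (by norm_num) (by norm_num) (by norm_num) (by norm_num) (by norm_num) (by norm_num) (by norm_num)
    (cube_sqrt_geJ (s := 0.808) (by norm_num) (by norm_num) (by norm_num) (by norm_num))
    (cube_sqrt_geJ (s := 0.934) (by norm_num) (by norm_num) (by norm_num) (by norm_num))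
    (by norm_num) (by norm_num) (by norm_num) (by norm_num) (by norm_num) (by norm_num) (by norm_num) (by norm_num) (by norm_num) (by norm_num) (by norm_num) (by norm_num) (by norm_num) (by norm_num) (by norm_num) (by norm_num) (by norm_num) (by norm_num)
    (exp_neg_leJ (r := 0.99) 14 (by norm_num) (by norm_num) (by norm_num) (by norm_num))
    (exp_neg_leJ (r := 0.073) 11 (by norm_num) (by norm_num) (by norm_num) (by norm_num))
    (exp_neg_leJ (r := 0.99) 14 (by norm_num) (by norm_num) (by norm_num) (by norm_num))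
    (exp_neg_leJ (r := 0.99) 14 (by norm_num) (by norm_num) (by norm_num) (by norm_num))
    (exp_neg_leJ (r := 0.99) 14 (by norm_num) (by norm_num) (by norm_num) (by norm_num))
    (exp_neg_leJ (r := 0.99) 14 (by norm_num) (by norm_num) (by norm_num) (by norm_num))
    (exp_neg_leJ (r := 0.99) 14 (by norm_num) (by norm_num) (by norm_num) (by norm_num))
    (exp_neg_leJ (r := 0.99) 14 (by norm_num) (by norm_num) (by norm_num) (by norm_num))
    (by norm_num)

private theorem bxc9 {β x y : ℝ} (hβ : 0 < β) (hN : β * 20.8 ≤ 1) (hx1 : 1.68 ≤ x) (hx2 : x ≤ 1.8)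
    (hy1 : -0.25 ≤ y) (hy2 : y ≤ -0.18) : ‖HH β (x + y * I) - 1‖ ≤ 0.6961 * β := by
  refine J_box 1.68 1.8 0.25 0 (-0.18) 1.7155 1.8173 1.978 0.626 0.5611 4.5608 20.8 1.0594 4.595 1.627 0.497 0.8577 0.5548 1.1887 2.2741 1.0344 2.8261 4.2511 3.1321 0.0000003101 0.000009746 0.0000003101 0.0000003101 0.0000003101 0.0000003101 0.0000003101 0.0000003101 0.6961
    hβ hN hx1 hx2 hy1 hy2 (by norm_num) (by norm_num) (by norm_num) (by norm_num) (by norm_num) (by norm_num) (by norm_num) (by norm_num) (by norm_num) (by norm_num) (by norm_num) (by norm_num) (by norm_num) (by norm_num) (by norm_num) (by norm_num) (by norm_num) (by norm_num) (by norm_num) (by norm_num) (by norm_num) (by norm_num) (by norm_num) (by norm_num)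
    (cube_sqrt_geJ (s := 0.8042) (by norm_num) (by norm_num) (by norm_num) (by norm_num))
    (cube_sqrt_geJ (s := 0.9328) (by norm_num) (by norm_num) (by norm_num) (by norm_num))
    (by norm_num) (by norm_num) (by norm_num) (by norm_num) (by norm_num) (by norm_num) (by norm_num) (by norm_num) (by norm_num) (by norm_num) (by norm_num) (by norm_num) (by norm_num) (by norm_num) (by norm_num) (by norm_num) (by norm_num) (by norm_num)
    (exp_neg_leJ (r := 0.99) 14 (by norm_num) (by norm_num) (by norm_num) (by norm_num))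
    (exp_neg_leJ (r := 0.539) 11 (by norm_num) (by norm_num) (by norm_num) (by norm_num))
    (exp_neg_leJ (r := 0.99) 14 (by norm_num) (by norm_num) (by norm_num) (by norm_num))
    (exp_neg_leJ (r := 0.99) 14 (by norm_num) (by norm_num) (by norm_num) (by norm_num))
    (exp_neg_leJ (r := 0.99) 14 (by norm_num) (by norm_num) (by norm_num) (by norm_num))
    (exp_neg_leJ (r := 0.99) 14 (by norm_num) (by norm_num) (by norm_num) (by norm_num))
    (exp_neg_leJ (r := 0.99) 14 (by norm_num) (by norm_num) (by norm_num) (by norm_num))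
    (exp_neg_leJ (r := 0.99) 14 (by norm_num) (by norm_num) (by norm_num) (by norm_num))
    (by norm_num)

private theorem bxc10 {β x y : ℝ} (hβ : 0 < β) (hN : β * 20.8 ≤ 1) (hx1 : 1.8 ≤ x) (hx2 : x ≤ 1.92)
    (hy1 : -0.25 ≤ y) (hy2 : y ≤ -0.18) : ‖HH β (x + y * I) - 1‖ ≤ 0.6965 * β := by
  refine J_box 1.8 1.92 0.25 0 (-0.18) 1.7999 1.9363 2.0878 0.5984 0.5765 4.5608 20.8 1.0758 4.733 1.64 0.4508 0.8999 0.5772 1.2298 2.2049 1.0927 2.9923 4.4911 3.0486 0.0000003101 0.000006114 0.0000003101 0.0000003101 0.0000003101 0.0000003101 0.0000003101 0.0000003101 0.6965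
    hβ hN hx1 hx2 hy1 hy2 (by norm_num) (by norm_num) (by norm_num) (by norm_num) (by norm_num) (by norm_num) (by norm_num) (by norm_num) (by norm_num) (by norm_num) (by norm_num) (by norm_num) (by norm_num) (by norm_num) (by norm_num) (by norm_num) (by norm_num) (by norm_num) (by norm_num) (by norm_num) (by norm_num) (by norm_num) (by norm_num) (by norm_num)
    (cube_sqrt_geJ (s := 0.8008) (by norm_num) (by norm_num) (by norm_num) (by norm_num))
    (cube_sqrt_geJ (s := 0.9318) (by norm_num) (by norm_num) (by norm_num) (by norm_num))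
    (by norm_num) (by norm_num) (by norm_num) (by norm_num) (by norm_num) (by norm_num) (by norm_num) (by norm_num) (by norm_num) (by norm_num) (by norm_num) (by norm_num) (by norm_num) (by norm_num) (by norm_num) (by norm_num) (by norm_num) (by norm_num)
    (exp_neg_leJ (r := 0.99) 14 (by norm_num) (by norm_num) (by norm_num) (by norm_num))
    (exp_neg_leJ (r := 0.005) 12 (by norm_num) (by norm_num) (by norm_num) (by norm_num))
    (exp_neg_leJ (r := 0.99) 14 (by norm_num) (by norm_num) (by norm_num) (by norm_num))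
    (exp_neg_leJ (r := 0.99) 14 (by norm_num) (by norm_num) (by norm_num) (by norm_num))
    (exp_neg_leJ (r := 0.99) 14 (by norm_num) (by norm_num) (by norm_num) (by norm_num))
    (exp_neg_leJ (r := 0.99) 14 (by norm_num) (by norm_num) (by norm_num) (by norm_num))
    (exp_neg_leJ (r := 0.99) 14 (by norm_num) (by norm_num) (by norm_num) (by norm_num))
    (exp_neg_leJ (r := 0.99) 14 (by norm_num) (by norm_num) (by norm_num) (by norm_num))
    (by norm_num)

private theorem bxc11 {β x y : ℝ} (hβ : 0 < β) (hN : β * 20.8 ≤ 1) (hx1 : 1.92 ≤ x) (hx2 : x ≤ 1.953)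
    (hy1 : -0.25 ≤ y) (hy2 : y ≤ -0.18) : ‖HH β (x + y * I) - 1‖ ≤ 0.6005 * β := by
  refine J_box 1.92 1.953 0.25 0 (-0.18) 1.8844 1.969 2.1182 0.5627 0.5807 4.5608 20.8 1.0449 4.476 1.615 0.4381 0.9421 0.614 1.2708 2.1859 1.151 3.1584 4.7311 3.1997 0.0000003101 0.000002846 0.0000003101 0.0000003101 0.0000003101 0.0000003101 0.0000003101 0.0000003101 0.6005
    hβ hN hx1 hx2 hy1 hy2 (by norm_num) (by norm_num) (by norm_num) (by norm_num) (by norm_num) (by norm_num) (by norm_num) (by norm_num) (by norm_num) (by norm_num) (by norm_num) (by norm_num) (by norm_num) (by norm_num) (by norm_num) (by norm_num) (by norm_num) (by norm_num) (by norm_num) (by norm_num) (by norm_num) (by norm_num) (by norm_num) (by norm_num)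
    (cube_sqrt_geJ (s := 0.8072) (by norm_num) (by norm_num) (by norm_num) (by norm_num))
    (cube_sqrt_geJ (s := 0.9338) (by norm_num) (by norm_num) (by norm_num) (by norm_num))
    (by norm_num) (by norm_num) (by norm_num) (by norm_num) (by norm_num) (by norm_num) (by norm_num) (by norm_num) (by norm_num) (by norm_num) (by norm_num) (by norm_num) (by norm_num) (by norm_num) (by norm_num) (by norm_num) (by norm_num) (by norm_num)
    (exp_neg_leJ (r := 0.99) 14 (by norm_num) (by norm_num) (by norm_num) (by norm_num))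
    (exp_neg_leJ (r := 0.771) 12 (by norm_num) (by norm_num) (by norm_num) (by norm_num))
    (exp_neg_leJ (r := 0.99) 14 (by norm_num) (by norm_num) (by norm_num) (by norm_num))
    (exp_neg_leJ (r := 0.99) 14 (by norm_num) (by norm_num) (by norm_num) (by norm_num))
    (exp_neg_leJ (r := 0.99) 14 (by norm_num) (by norm_num) (by norm_num) (by norm_num))
    (exp_neg_leJ (r := 0.99) 14 (by norm_num) (by norm_num) (by norm_num) (by norm_num))
    (exp_neg_leJ (r := 0.99) 14 (by norm_num) (by norm_num) (by norm_num) (by norm_num))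
    (exp_neg_leJ (r := 0.99) 14 (by norm_num) (by norm_num) (by norm_num) (by norm_num))
    (by norm_num)

theorem JP1_c {β x y κ : ℝ} (hβ : 0 < β) (hx : 0 < x) (hκ : κ = ‖(x + y * I : ℂ)‖ * Real.exp y)
    (hκ0 : 0 < κ) (hR : β * (10.4 * (1 + κ ^ 2)) ≤ κ) (hx1 : 0.26 ≤ x) (hx2 : x ≤ 1.953) (hy1 : -0.25 ≤ y) (hy2 : y ≤ -0.18) :
    ‖HH β (x + y * I) - 1‖ ≤ 0.034 := by
  have hw : Real.exp y ≤ 0.8353 := (Real.exp_le_exp.2 hy2).trans exp_wc
  have hya : |y| ≤ 0.25 := by rw [abs_le]; constructor <;> linarith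
  have hym : -0.25 ≤ y := by linarith
  have h20 := bN20 (N := 20.8) (by norm_num) (by norm_num) hβ hκ0 hR
  rcases le_total x 0.51 with f0 | g0
  · exact epsOf hβ (bN 10.4 0.568 0.8353 0.4745 26.85 0.51 0.25 (by norm_num) hβ hx hκ hκ0 hR f0 hya hw (by norm_num) (by norm_num) (by norm_num) (by norm_num) (by norm_num) (by norm_num)) (by norm_num) (by norm_num) (bxc0 hβ (bN 10.4 0.568 0.8353 0.4745 26.85 0.51 0.25 (by norm_num) hβ hx hκ hκ0 hR f0 hya hw (by norm_num) (by norm_num) (by norm_num) (by norm_num) (by norm_num) (by norm_num)) hx1 f0 hym hy2)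
  rcases le_total x 0.71 with f1 | g1
  · exact epsOf hβ (bN 10.4 0.7528 0.8353 0.6289 23.07 0.71 0.25 (by norm_num) hβ hx hκ hκ0 hR f1 hya hw (by norm_num) (by norm_num) (by norm_num) (by norm_num) (by norm_num) (by norm_num)) (by norm_num) (by norm_num) (bxc1 hβ (bN 10.4 0.7528 0.8353 0.6289 23.07 0.71 0.25 (by norm_num) hβ hx hκ hκ0 hR f1 hya hw (by norm_num) (by norm_num) (by norm_num) (by norm_num) (by norm_num) (by norm_num)) g0 f1 hym hy2)
  rcases le_total x 0.88 with f2 | g2
  · exact epsOf hβ (bN 10.4 0.9149 0.8353 0.7643 21.55 0.88 0.25 (by norm_num) hβ hx hκ hκ0 hR f2 hya hw (by norm_num) (by norm_num) (by norm_num) (by norm_num) (by norm_num) (by norm_num)) (by norm_num) (by norm_num) (bxc2 hβ (bN 10.4 0.9149 0.8353 0.7643 21.55 0.88 0.25 (by norm_num) hβ hx hκ hκ0 hR f2 hya hw (by norm_num) (by norm_num) (by norm_num) (by norm_num) (by norm_num) (by norm_num)) g1 f2 hym hy2)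
  rcases le_total x 1.03 with f3 | g3
  · exact epsOf hβ (bN 10.4 1.06 0.8353 0.8855 20.95 1.03 0.25 (by norm_num) hβ hx hκ hκ0 hR f3 hya hw (by norm_num) (by norm_num) (by norm_num) (by norm_num) (by norm_num) (by norm_num)) (by norm_num) (by norm_num) (bxc3 hβ (bN 10.4 1.06 0.8353 0.8855 20.95 1.03 0.25 (by norm_num) hβ hx hκ hκ0 hR f3 hya hw (by norm_num) (by norm_num) (by norm_num) (by norm_num) (by norm_num) (by norm_num)) g2 f3 hym hy2)
  rcases le_total x 1.17 with f4 | g4
  · exact epsOf hβ (bN 10.4 1.1965 0.8353 0.9995 20.8 1.17 0.25 (by norm_num) hβ hx hκ hκ0 hR f4 hya hw (by norm_num) (by norm_num) (by norm_num) (by norm_num) (by norm_num) (by norm_num)) (by norm_num) (by norm_num) (bxc4 hβ (bN 10.4 1.1965 0.8353 0.9995 20.8 1.17 0.25 (by norm_num) hβ hx hκ hκ0 hR f4 hya hw (by norm_num) (by norm_num) (by norm_num) (by norm_num) (by norm_num) (by norm_num)) g3 f4 hym hy2)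
  rcases le_total x 1.3 with f5 | g5
  · exact epsOf hβ h20 (by norm_num) (by norm_num) (bxc5 hβ h20 g4 f5 hym hy2)
  rcases le_total x 1.43 with f6 | g6
  · exact epsOf hβ h20 (by norm_num) (by norm_num) (bxc6 hβ h20 g5 f6 hym hy2)
  rcases le_total x 1.56 with f7 | g7
  · exact epsOf hβ h20 (by norm_num) (by norm_num) (bxc7 hβ h20 g6 f7 hym hy2)
  rcases le_total x 1.68 with f8 | g8
  · exact epsOf hβ h20 (by norm_num) (by norm_num) (bxc8 hβ h20 g7 f8 hym hy2)
  rcases le_total x 1.8 with f9 | g9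
  · exact epsOf hβ h20 (by norm_num) (by norm_num) (bxc9 hβ h20 g8 f9 hym hy2)
  rcases le_total x 1.92 with f10 | g10
  · exact epsOf hβ h20 (by norm_num) (by norm_num) (bxc10 hβ h20 g9 f10 hym hy2)
  exact epsOf hβ h20 (by norm_num) (by norm_num) (bxc11 hβ h20 g10 hx2 hym hy2)

private theorem exp_wd : Real.exp (-0.12) ≤ 0.887 := by
  rw [Real.exp_neg, inv_le_comm₀ (Real.exp_pos _) (by norm_num)]
  have h := Real.sum_le_exp_of_nonneg (x := 0.12) (by norm_num) 7
  refine le_trans ?_ h
  norm_num [Finset.sum_range_succ, Nat.factorial]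

private theorem bxd0 {β x y : ℝ} (hβ : 0 < β) (hN : β * 24.69 ≤ 1) (hx1 : 0.27 ≤ x) (hx2 : x ≤ 0.59)
    (hy1 : -0.18 ≤ y) (hy2 : y ≤ -0.12) : ‖HH β (x + y * I) - 1‖ ≤ 0.8328 * β := by
  refine J_box 0.27 0.59 0.18 0 (-0.12) 0.7723 0.6169 1.0595 1.5167 0.4107 4.969 24.69 0.7988 2.956 1.434 1.027 0.3861 0.2833 0.8165 3.1908 0.3878 0.8738 1.6214 3.5751 0.00007252 0.0009243 0.0000003101 0.0000003101 0.00006954 0.0000003101 0.0000003101 0.0000003101 0.8328
    hβ hN hx1 hx2 hy1 hy2 (by norm_num) (by norm_num) (by norm_num) (by norm_num) (by norm_num) (by norm_num) (by norm_num) (by norm_num) (by norm_num) (by norm_num) (by norm_num) (by norm_num) (by norm_num) (by norm_num) (by norm_num) (by norm_num) (by norm_num) (by norm_num) (by norm_num) (by norm_num) (by norm_num) (by norm_num) (by norm_num) (by norm_num)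
    (cube_sqrt_geJ (s := 0.8565) (by norm_num) (by norm_num) (by norm_num) (by norm_num))
    (cube_sqrt_geJ (s := 0.9498) (by norm_num) (by norm_num) (by norm_num) (by norm_num))
    (by norm_num) (by norm_num) (by norm_num) (by norm_num) (by norm_num) (by norm_num) (by norm_num) (by norm_num) (by norm_num) (by norm_num) (by norm_num) (by norm_num) (by norm_num) (by norm_num) (by norm_num) (by norm_num) (by norm_num) (by norm_num)
    (exp_neg_leJ (r := 0.532) 9 (by norm_num) (by norm_num) (by norm_num) (by norm_num))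
    (exp_neg_leJ (r := 0.99) 6 (by norm_num) (by norm_num) (by norm_num) (by norm_num))
    (exp_neg_leJ (r := 0.99) 14 (by norm_num) (by norm_num) (by norm_num) (by norm_num))
    (exp_neg_leJ (r := 0.99) 14 (by norm_num) (by norm_num) (by norm_num) (by norm_num))
    (exp_neg_leJ (r := 0.574) 9 (by norm_num) (by norm_num) (by norm_num) (by norm_num))
    (exp_neg_leJ (r := 0.99) 14 (by norm_num) (by norm_num) (by norm_num) (by norm_num))
    (exp_neg_leJ (r := 0.99) 14 (by norm_num) (by norm_num) (by norm_num) (by norm_num))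
    (exp_neg_leJ (r := 0.99) 14 (by norm_num) (by norm_num) (by norm_num) (by norm_num))
    (by norm_num)

private theorem bxd1 {β x y : ℝ} (hβ : 0 < β) (hN : β * 21.57 ≤ 1) (hx1 : 0.59 ≤ x) (hx2 : x ≤ 0.84)
    (hy1 : -0.18 ≤ y) (hy2 : y ≤ -0.12) : ‖HH β (x + y * I) - 1‖ ≤ 0.7144 * β := by
  refine J_box 0.59 0.84 0.18 0 (-0.12) 0.9976 0.8591 1.2166 1.107 0.4401 4.6444 21.57 0.8612 3.269 1.477 0.9308 0.4987 0.3556 0.9261 3.0483 0.5432 1.3169 2.2614 3.5568 0.00002135 0.000467 0.0000003101 0.0000003101 0.00000817 0.0000003101 0.0000003101 0.0000003101 0.7144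
    hβ hN hx1 hx2 hy1 hy2 (by norm_num) (by norm_num) (by norm_num) (by norm_num) (by norm_num) (by norm_num) (by norm_num) (by norm_num) (by norm_num) (by norm_num) (by norm_num) (by norm_num) (by norm_num) (by norm_num) (by norm_num) (by norm_num) (by norm_num) (by norm_num) (by norm_num) (by norm_num) (by norm_num) (by norm_num) (by norm_num) (by norm_num)
    (cube_sqrt_geJ (s := 0.8443) (by norm_num) (by norm_num) (by norm_num) (by norm_num))
    (cube_sqrt_geJ (s := 0.9458) (by norm_num) (by norm_num) (by norm_num) (by norm_num))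
    (by norm_num) (by norm_num) (by norm_num) (by norm_num) (by norm_num) (by norm_num) (by norm_num) (by norm_num) (by norm_num) (by norm_num) (by norm_num) (by norm_num) (by norm_num) (by norm_num) (by norm_num) (by norm_num) (by norm_num) (by norm_num)
    (exp_neg_leJ (r := 0.756) 10 (by norm_num) (by norm_num) (by norm_num) (by norm_num))
    (exp_neg_leJ (r := 0.67) 7 (by norm_num) (by norm_num) (by norm_num) (by norm_num))
    (exp_neg_leJ (r := 0.99) 14 (by norm_num) (by norm_num) (by norm_num) (by norm_num))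
    (exp_neg_leJ (r := 0.99) 14 (by norm_num) (by norm_num) (by norm_num) (by norm_num))
    (exp_neg_leJ (r := 0.716) 11 (by norm_num) (by norm_num) (by norm_num) (by norm_num))
    (exp_neg_leJ (r := 0.99) 14 (by norm_num) (by norm_num) (by norm_num) (by norm_num))
    (exp_neg_leJ (r := 0.99) 14 (by norm_num) (by norm_num) (by norm_num) (by norm_num))
    (exp_neg_leJ (r := 0.99) 14 (by norm_num) (by norm_num) (by norm_num) (by norm_num))
    (by norm_num)

private theorem bxd2 {β x y : ℝ} (hβ : 0 < β) (hN : β * 20.82 ≤ 1) (hx1 : 0.84 ≤ x) (hx2 : x ≤ 1.06)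
    (hy1 : -0.18 ≤ y) (hy2 : y ≤ -0.12) : ‖HH β (x + y * I) - 1‖ ≤ 0.6903 * β := by
  refine J_box 0.84 1.06 0.18 0 (-0.12) 1.1737 1.0752 1.3777 0.9231 0.4683 4.5629 20.82 0.9161 3.58 1.517 0.8462 0.5868 0.4076 1.0116 2.9222 0.6646 1.663 2.7614 3.4693 0.000004946 0.0002064 0.0000003101 0.0000003101 0.0000009815 0.0000003101 0.0000003101 0.0000003101 0.6903
    hβ hN hx1 hx2 hy1 hy2 (by norm_num) (by norm_num) (by norm_num) (by norm_num) (by norm_num) (by norm_num) (by norm_num) (by norm_num) (by norm_num) (by norm_num) (by norm_num) (by norm_num) (by norm_num) (by norm_num) (by norm_num) (by norm_num) (by norm_num) (by norm_num) (by norm_num) (by norm_num) (by norm_num) (by norm_num) (by norm_num) (by norm_num)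
    (cube_sqrt_geJ (s := 0.8334) (by norm_num) (by norm_num) (by norm_num) (by norm_num))
    (cube_sqrt_geJ (s := 0.9422) (by norm_num) (by norm_num) (by norm_num) (by norm_num))
    (by norm_num) (by norm_num) (by norm_num) (by norm_num) (by norm_num) (by norm_num) (by norm_num) (by norm_num) (by norm_num) (by norm_num) (by norm_num) (by norm_num) (by norm_num) (by norm_num) (by norm_num) (by norm_num) (by norm_num) (by norm_num)
    (exp_neg_leJ (r := 0.217) 12 (by norm_num) (by norm_num) (by norm_num) (by norm_num))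
    (exp_neg_leJ (r := 0.486) 8 (by norm_num) (by norm_num) (by norm_num) (by norm_num))
    (exp_neg_leJ (r := 0.99) 14 (by norm_num) (by norm_num) (by norm_num) (by norm_num))
    (exp_neg_leJ (r := 0.99) 14 (by norm_num) (by norm_num) (by norm_num) (by norm_num))
    (exp_neg_leJ (r := 0.836) 13 (by norm_num) (by norm_num) (by norm_num) (by norm_num))
    (exp_neg_leJ (r := 0.99) 14 (by norm_num) (by norm_num) (by norm_num) (by norm_num))
    (exp_neg_leJ (r := 0.99) 14 (by norm_num) (by norm_num) (by norm_num) (by norm_num))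
    (exp_neg_leJ (r := 0.99) 14 (by norm_num) (by norm_num) (by norm_num) (by norm_num))
    (by norm_num)

private theorem bxd3 {β x y : ℝ} (hβ : 0 < β) (hN : β * 20.8 ≤ 1) (hx1 : 1.06 ≤ x) (hx2 : x ≤ 1.27)
    (hy1 : -0.18 ≤ y) (hy2 : y ≤ -0.12) : ‖HH β (x + y * I) - 1‖ ≤ 0.6952 * β := by
  refine J_box 1.06 1.27 0.18 0 (-0.12) 1.3286 1.2827 1.5451 0.8117 0.4959 4.5608 20.8 0.9655 3.894 1.554 0.7655 0.6642 0.4505 1.087 2.8014 0.7715 1.9676 3.2014 3.3453 0.000001003 0.00008525 0.0000003101 0.0000003101 0.0000003101 0.0000003101 0.0000003101 0.0000003101 0.6952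
    hβ hN hx1 hx2 hy1 hy2 (by norm_num) (by norm_num) (by norm_num) (by norm_num) (by norm_num) (by norm_num) (by norm_num) (by norm_num) (by norm_num) (by norm_num) (by norm_num) (by norm_num) (by norm_num) (by norm_num) (by norm_num) (by norm_num) (by norm_num) (by norm_num) (by norm_num) (by norm_num) (by norm_num) (by norm_num) (by norm_num) (by norm_num)
    (cube_sqrt_geJ (s := 0.8235) (by norm_num) (by norm_num) (by norm_num) (by norm_num))
    (cube_sqrt_geJ (s := 0.939) (by norm_num) (by norm_num) (by norm_num) (by norm_num))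
    (by norm_num) (by norm_num) (by norm_num) (by norm_num) (by norm_num) (by norm_num) (by norm_num) (by norm_num) (by norm_num) (by norm_num) (by norm_num) (by norm_num) (by norm_num) (by norm_num) (by norm_num) (by norm_num) (by norm_num) (by norm_num)
    (exp_neg_leJ (r := 0.815) 13 (by norm_num) (by norm_num) (by norm_num) (by norm_num))
    (exp_neg_leJ (r := 0.37) 9 (by norm_num) (by norm_num) (by norm_num) (by norm_num))
    (exp_neg_leJ (r := 0.99) 14 (by norm_num) (by norm_num) (by norm_num) (by norm_num))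
    (exp_neg_leJ (r := 0.99) 14 (by norm_num) (by norm_num) (by norm_num) (by norm_num))
    (exp_neg_leJ (r := 0.99) 14 (by norm_num) (by norm_num) (by norm_num) (by norm_num))
    (exp_neg_leJ (r := 0.99) 14 (by norm_num) (by norm_num) (by norm_num) (by norm_num))
    (exp_neg_leJ (r := 0.99) 14 (by norm_num) (by norm_num) (by norm_num) (by norm_num))
    (exp_neg_leJ (r := 0.99) 14 (by norm_num) (by norm_num) (by norm_num) (by norm_num))
    (by norm_num)

private theorem bxd4 {β x y : ℝ} (hβ : 0 < β) (hN : β * 20.8 ≤ 1) (hx1 : 1.27 ≤ x) (hx2 : x ≤ 1.47)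
    (hy1 : -0.18 ≤ y) (hy2 : y ≤ -0.12) : ‖HH β (x + y * I) - 1‖ ≤ 0.6935 * β := by
  refine J_box 1.27 1.47 0.18 0 (-0.12) 1.4765 1.481 1.7133 0.7296 0.5222 4.5608 20.8 1.0031 4.157 1.583 0.6885 0.7382 0.4914 1.1588 2.6863 0.8735 2.2584 3.6214 3.2262 0.0000003101 0.0000364 0.0000003101 0.0000003101 0.0000003101 0.0000003101 0.0000003101 0.0000003101 0.6935
    hβ hN hx1 hx2 hy1 hy2 (by norm_num) (by norm_num) (by norm_num) (by norm_num) (by norm_num) (by norm_num) (by norm_num) (by norm_num) (by norm_num) (by norm_num) (by norm_num) (by norm_num) (by norm_num) (by norm_num) (by norm_num) (by norm_num) (by norm_num) (by norm_num) (by norm_num) (by norm_num) (by norm_num) (by norm_num) (by norm_num) (by norm_num)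
    (cube_sqrt_geJ (s := 0.8158) (by norm_num) (by norm_num) (by norm_num) (by norm_num))
    (cube_sqrt_geJ (s := 0.9365) (by norm_num) (by norm_num) (by norm_num) (by norm_num))
    (by norm_num) (by norm_num) (by norm_num) (by norm_num) (by norm_num) (by norm_num) (by norm_num) (by norm_num) (by norm_num) (by norm_num) (by norm_num) (by norm_num) (by norm_num) (by norm_num) (by norm_num) (by norm_num) (by norm_num) (by norm_num)
    (exp_neg_leJ (r := 0.99) 14 (by norm_num) (by norm_num) (by norm_num) (by norm_num))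
    (exp_neg_leJ (r := 0.221) 10 (by norm_num) (by norm_num) (by norm_num) (by norm_num))
    (exp_neg_leJ (r := 0.99) 14 (by norm_num) (by norm_num) (by norm_num) (by norm_num))
    (exp_neg_leJ (r := 0.99) 14 (by norm_num) (by norm_num) (by norm_num) (by norm_num))
    (exp_neg_leJ (r := 0.99) 14 (by norm_num) (by norm_num) (by norm_num) (by norm_num))
    (exp_neg_leJ (r := 0.99) 14 (by norm_num) (by norm_num) (by norm_num) (by norm_num))
    (exp_neg_leJ (r := 0.99) 14 (by norm_num) (by norm_num) (by norm_num) (by norm_num))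
    (exp_neg_leJ (r := 0.99) 14 (by norm_num) (by norm_num) (by norm_num) (by norm_num))
    (by norm_num)

private theorem bxd5 {β x y : ℝ} (hβ : 0 < β) (hN : β * 20.8 ≤ 1) (hx1 : 1.47 ≤ x) (hx2 : x ≤ 1.67)
    (hy1 : -0.18 ≤ y) (hy2 : y ≤ -0.12) : ‖HH β (x + y * I) - 1‖ ≤ 0.7009 * β := by
  refine J_box 1.47 1.67 0.18 0 (-0.12) 1.6173 1.6797 1.8877 0.6681 0.5482 4.5608 20.8 1.0386 4.426 1.61 0.6116 0.8086 0.5286 1.2273 2.571 0.9706 2.5353 4.0214 3.0861 0.0000003101 0.00001693 0.0000003101 0.0000003101 0.0000003101 0.0000003101 0.0000003101 0.0000003101 0.7009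
    hβ hN hx1 hx2 hy1 hy2 (by norm_num) (by norm_num) (by norm_num) (by norm_num) (by norm_num) (by norm_num) (by norm_num) (by norm_num) (by norm_num) (by norm_num) (by norm_num) (by norm_num) (by norm_num) (by norm_num) (by norm_num) (by norm_num) (by norm_num) (by norm_num) (by norm_num) (by norm_num) (by norm_num) (by norm_num) (by norm_num) (by norm_num)
    (cube_sqrt_geJ (s := 0.8085) (by norm_num) (by norm_num) (by norm_num) (by norm_num))
    (cube_sqrt_geJ (s := 0.9342) (by norm_num) (by norm_num) (by norm_num) (by norm_num))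
    (by norm_num) (by norm_num) (by norm_num) (by norm_num) (by norm_num) (by norm_num) (by norm_num) (by norm_num) (by norm_num) (by norm_num) (by norm_num) (by norm_num) (by norm_num) (by norm_num) (by norm_num) (by norm_num) (by norm_num) (by norm_num)
    (exp_neg_leJ (r := 0.99) 14 (by norm_num) (by norm_num) (by norm_num) (by norm_num))
    (exp_neg_leJ (r := 0.99) 10 (by norm_num) (by norm_num) (by norm_num) (by norm_num))
    (exp_neg_leJ (r := 0.99) 14 (by norm_num) (by norm_num) (by norm_num) (by norm_num))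
    (exp_neg_leJ (r := 0.99) 14 (by norm_num) (by norm_num) (by norm_num) (by norm_num))
    (exp_neg_leJ (r := 0.99) 14 (by norm_num) (by norm_num) (by norm_num) (by norm_num))
    (exp_neg_leJ (r := 0.99) 14 (by norm_num) (by norm_num) (by norm_num) (by norm_num))
    (exp_neg_leJ (r := 0.99) 14 (by norm_num) (by norm_num) (by norm_num) (by norm_num))
    (exp_neg_leJ (r := 0.99) 14 (by norm_num) (by norm_num) (by norm_num) (by norm_num))
    (by norm_num)

private theorem bxd6 {β x y : ℝ} (hβ : 0 < β) (hN : β * 20.8 ≤ 1) (hx1 : 1.67 ≤ x) (hx2 : x ≤ 1.82)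
    (hy1 : -0.18 ≤ y) (hy2 : y ≤ -0.12) : ‖HH β (x + y * I) - 1‖ ≤ 0.6428 * β := by
  refine J_box 1.67 1.82 0.18 0 (-0.12) 1.7581 1.8289 2.0216 0.61 0.5673 4.5608 20.8 1.0403 4.439 1.612 0.5539 0.879 0.5742 1.2958 2.4845 1.0678 2.8123 4.4214 3.0806 0.0000003101 0.000006524 0.0000003101 0.0000003101 0.0000003101 0.0000003101 0.0000003101 0.0000003101 0.6428
    hβ hN hx1 hx2 hy1 hy2 (by norm_num) (by norm_num) (by norm_num) (by norm_num) (by norm_num) (by norm_num) (by norm_num) (by norm_num) (by norm_num) (by norm_num) (by norm_num) (by norm_num) (by norm_num) (by norm_num) (by norm_num) (by norm_num) (by norm_num) (by norm_num) (by norm_num) (by norm_num) (by norm_num) (by norm_num) (by norm_num) (by norm_num)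
    (cube_sqrt_geJ (s := 0.8082) (by norm_num) (by norm_num) (by norm_num) (by norm_num))
    (cube_sqrt_geJ (s := 0.9341) (by norm_num) (by norm_num) (by norm_num) (by norm_num))
    (by norm_num) (by norm_num) (by norm_num) (by norm_num) (by norm_num) (by norm_num) (by norm_num) (by norm_num) (by norm_num) (by norm_num) (by norm_num) (by norm_num) (by norm_num) (by norm_num) (by norm_num) (by norm_num) (by norm_num) (by norm_num)
    (exp_neg_leJ (r := 0.99) 14 (by norm_num) (by norm_num) (by norm_num) (by norm_num))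
    (exp_neg_leJ (r := 0.943) 11 (by norm_num) (by norm_num) (by norm_num) (by norm_num))
    (exp_neg_leJ (r := 0.99) 14 (by norm_num) (by norm_num) (by norm_num) (by norm_num))
    (exp_neg_leJ (r := 0.99) 14 (by norm_num) (by norm_num) (by norm_num) (by norm_num))
    (exp_neg_leJ (r := 0.99) 14 (by norm_num) (by norm_num) (by norm_num) (by norm_num))
    (exp_neg_leJ (r := 0.99) 14 (by norm_num) (by norm_num) (by norm_num) (by norm_num))
    (exp_neg_leJ (r := 0.99) 14 (by norm_num) (by norm_num) (by norm_num) (by norm_num))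
    (exp_neg_leJ (r := 0.99) 14 (by norm_num) (by norm_num) (by norm_num) (by norm_num))
    (by norm_num)

theorem JP1_d {β x y κ : ℝ} (hβ : 0 < β) (hx : 0 < x) (hκ : κ = ‖(x + y * I : ℂ)‖ * Real.exp y)
    (hκ0 : 0 < κ) (hR : β * (10.4 * (1 + κ ^ 2)) ≤ κ) (hx1 : 0.27 ≤ x) (hx2 : x ≤ 1.82) (hy1 : -0.18 ≤ y) (hy2 : y ≤ -0.12) :
    ‖HH β (x + y * I) - 1‖ ≤ 0.034 := by
  have hw : Real.exp y ≤ 0.887 := (Real.exp_le_exp.2 hy2).trans exp_wd
  have hya : |y| ≤ 0.18 := by rw [abs_le]; constructor <;> linarith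
  have hym : -0.18 ≤ y := by linarith
  have h20 := bN20 (N := 20.8) (by norm_num) (by norm_num) hβ hκ0 hR
  rcases le_total x 0.59 with f0 | g0
  · exact epsOf hβ (bN 10.4 0.6169 0.887 0.5472 24.69 0.59 0.18 (by norm_num) hβ hx hκ hκ0 hR f0 hya hw (by norm_num) (by norm_num) (by norm_num) (by norm_num) (by norm_num) (by norm_num)) (by norm_num) (by norm_num) (bxd0 hβ (bN 10.4 0.6169 0.887 0.5472 24.69 0.59 0.18 (by norm_num) hβ hx hκ hκ0 hR f0 hya hw (by norm_num) (by norm_num) (by norm_num) (by norm_num) (by norm_num) (by norm_num)) hx1 f0 hym hy2)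
  rcases le_total x 0.84 with f1 | g1
  · exact epsOf hβ (bN 10.4 0.8591 0.887 0.7621 21.57 0.84 0.18 (by norm_num) hβ hx hκ hκ0 hR f1 hya hw (by norm_num) (by norm_num) (by norm_num) (by norm_num) (by norm_num) (by norm_num)) (by norm_num) (by norm_num) (bxd1 hβ (bN 10.4 0.8591 0.887 0.7621 21.57 0.84 0.18 (by norm_num) hβ hx hκ hκ0 hR f1 hya hw (by norm_num) (by norm_num) (by norm_num) (by norm_num) (by norm_num) (by norm_num)) g0 f1 hym hy2)
  rcases le_total x 1.06 with f2 | g2
  · exact epsOf hβ (bN 10.4 1.0752 0.887 0.9538 20.82 1.06 0.18 (by norm_num) hβ hx hκ hκ0 hR f2 hya hw (by norm_num) (by norm_num) (by norm_num) (by norm_num) (by norm_num) (by norm_num)) (by norm_num) (by norm_num) (bxd2 hβ (bN 10.4 1.0752 0.887 0.9538 20.82 1.06 0.18 (by norm_num) hβ hx hκ hκ0 hR f2 hya hw (by norm_num) (by norm_num) (by norm_num) (by norm_num) (by norm_num) (by norm_num)) g1 f2 hym hy2)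
  rcases le_total x 1.27 with f3 | g3
  · exact epsOf hβ h20 (by norm_num) (by norm_num) (bxd3 hβ h20 g2 f3 hym hy2)
  rcases le_total x 1.47 with f4 | g4
  · exact epsOf hβ h20 (by norm_num) (by norm_num) (bxd4 hβ h20 g3 f4 hym hy2)
  rcases le_total x 1.67 with f5 | g5
  · exact epsOf hβ h20 (by norm_num) (by norm_num) (bxd5 hβ h20 g4 f5 hym hy2)
  exact epsOf hβ h20 (by norm_num) (by norm_num) (bxd6 hβ h20 g5 hx2 hym hy2)

end Sok
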