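import Mathlib
import Pool.Agent.Lib.MP_816dec_an.JBox

/-!
MP_816dec_an: `‖HH - 1‖ ≤ 0.03` for `R ≥ 10.4 (1+κ²)`, `-0.12 ≤ y ≤ 0.53`.
-/

set_option autoImplicit false
set_option maxHeartbeats 4000000

open Complex Set

namespace Sok

/-- `β N0 ≤ 1` from `R ≥ c (1+κ²)` -/
private theorem bN {β x y κ : ℝ} (c s1 w K N0 x2 ym : ℝ) (hc : 0 < c) (hβ : 0 < β) (hx : 0 < x)
    (hκ : κ = ‖(x + y * I : ℂ)‖ * Real.exp y) (hκ0 : 0 < κ) (hR : β * (c * (1 + κ ^ 2)) ≤ κ)
    (hx2 : x ≤ x2) (hy : |y| ≤ ym) (hw : Real.exp y ≤ w) (hs : x2 ^ 2 + ym ^ 2 ≤ s1 ^ 2) (hs0 : 0 ≤ s1)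
    (hK : s1 * w ≤ K) (hK0 : 0 < K) (hK1 : K ≤ 1) (hN : N0 * K ≤ c * (1 + K ^ 2)) : β * N0 ≤ 1 := by
  have hn2 : ‖(x + y * I : ℂ)‖ ^ 2 = x ^ 2 + y ^ 2 := by
    rw [← Complex.normSq_eq_norm_sq, Complex.normSq_apply]
    simp
    ring
  have hn : ‖(x + y * I : ℂ)‖ ≤ s1 := by
    apply le_of_sq_le_sq _ hs0
    rw [hn2]
    have h1 : x ^ 2 ≤ x2 ^ 2 := pow_le_pow_left₀ hx.le hx2 2
    have h2 : y ^ 2 ≤ ym ^ 2 := by
      rw [← sq_abs y]; exact pow_le_pow_left₀ (abs_nonneg y) hy 2
    linarith
  have hκK : κ ≤ K := by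
    rw [hκ]
    refine le_trans ?_ hK
    exact mul_le_mul hn hw (Real.exp_pos _).le hs0
  have h1 : κ * (1 + K ^ 2) ≤ K * (1 + κ ^ 2) := by
    have h3 : 0 ≤ 1 - κ * K := by nlinarith
    have := mul_nonneg (sub_nonneg.2 hκK) h3
    linarith
  have h2 : N0 * κ ≤ c * (1 + κ ^ 2) := by
    have h3 : N0 * K * κ ≤ c * (1 + K ^ 2) * κ := mul_le_mul_of_nonneg_right hN hκ0.le
    have h4 : N0 * κ * K ≤ c * (1 + κ ^ 2) * K := by
      have := mul_le_mul_of_nonneg_left h1 hc.le
      linarith
    exact le_of_mul_le_mul_right h4 hK0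
  have h5 : β * (N0 * κ) ≤ κ := (mul_le_mul_of_nonneg_left h2 hβ.le).trans hR
  have h6 : (β * N0) * κ ≤ 1 * κ := by linarith
  exact le_of_mul_le_mul_right h6 hκ0

private theorem bN20 {β κ c N : ℝ} (hc : 0 < c) (hN : N = 2 * c) (hβ : 0 < β) (hκ0 : 0 < κ)
    (hR : β * (c * (1 + κ ^ 2)) ≤ κ) : β * N ≤ 1 := by
  have h2 : N * κ ≤ c * (1 + κ ^ 2) := by
    rw [hN]
    have := mul_nonneg hc.le (sq_nonneg (κ - 1))
    linarith
  have h5 : β * (N * κ) ≤ κ := (mul_le_mul_of_nonneg_left h2 hβ.le).trans hR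
  have h6 : (β * N) * κ ≤ 1 * κ := by linarith
  exact le_of_mul_le_mul_right h6 hκ0

private theorem epsOf {β C N ε v : ℝ} (hβ : 0 < β) (hN : β * N ≤ 1) (hε : 0 ≤ ε) (hC : C ≤ ε * N) (h : v ≤ C * β) : v ≤ ε := by
  have h1 : C * β ≤ ε * N * β := mul_le_mul_of_nonneg_right hC hβ.le
  have h2 : ε * (β * N) ≤ ε * 1 := mul_le_mul_of_nonneg_left hN hε
  linarith

private theorem exp_wa : Real.exp 0.26 ≤ 1.297 := by
  have h := Real.exp_bound' (x := 0.26) (by norm_num) (by norm_num) (n := 7) (by norm_num)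
  refine h.trans ?_
  norm_num [Finset.sum_range_succ, Nat.factorial]

private theorem bxa0 {β x y : ℝ} (hβ : 0 < β) (hN : β * 23.06 ≤ 1) (hx1 : 0.16 ≤ x) (hx2 : x ≤ 0.41)
    (hy1 : -0.12 ≤ y) (hy2 : y ≤ 0.26) : ‖HH β (x + y * I) - 1‖ ≤ 0.6796 * β := by
  refine J_box 0.16 0.41 0.12 0.26 0.26 0.7375 0.4855 1.3251 1.8176 0.4593 4.8021 23.06 0.6584 2.381 1.343 1.1516 0.3687 0.2878 0.8736 3.47 0.3406 0.695 0.4493 2.4872 0.0002031 0.001313 0.0000003101 0.0000003101 0.000389 0.0000003101 0.00003168 0.0000003101 0.6796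
    hβ hN hx1 hx2 hy1 hy2 (by norm_num) (by norm_num) (by norm_num) (by norm_num) (by norm_num) (by norm_num) (by norm_num) (by norm_num) (by norm_num) (by norm_num) (by norm_num) (by norm_num) (by norm_num) (by norm_num) (by norm_num) (by norm_num) (by norm_num) (by norm_num) (by norm_num) (by norm_num) (by norm_num) (by norm_num) (by norm_num) (by norm_num)
    (cube_sqrt_geJ (s := 0.8834) (by norm_num) (by norm_num) (by norm_num) (by norm_num))
    (cube_sqrt_geJ (s := 0.9588) (by norm_num) (by norm_num) (by norm_num) (by norm_num))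
    (by norm_num) (by norm_num) (by norm_num) (by norm_num) (by norm_num) (by norm_num) (by norm_num) (by norm_num) (by norm_num) (by norm_num) (by norm_num) (by norm_num) (by norm_num) (by norm_num) (by norm_num) (by norm_num) (by norm_num) (by norm_num)
    (exp_neg_leJ (r := 0.502) 8 (by norm_num) (by norm_num) (by norm_num) (by norm_num))
    (exp_neg_leJ (r := 0.636) 6 (by norm_num) (by norm_num) (by norm_num) (by norm_num))
    (exp_neg_leJ (r := 0.99) 14 (by norm_num) (by norm_num) (by norm_num) (by norm_num))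
    (exp_neg_leJ (r := 0.99) 14 (by norm_num) (by norm_num) (by norm_num) (by norm_num))
    (exp_neg_leJ (r := 0.854) 7 (by norm_num) (by norm_num) (by norm_num) (by norm_num))
    (exp_neg_leJ (r := 0.99) 14 (by norm_num) (by norm_num) (by norm_num) (by norm_num))
    (exp_neg_leJ (r := 0.36) 10 (by norm_num) (by norm_num) (by norm_num) (by norm_num))
    (exp_neg_leJ (r := 0.99) 14 (by norm_num) (by norm_num) (by norm_num) (by norm_num))
    (by norm_num)

private theorem bxa1 {β x y : ℝ} (hβ : 0 < β) (hN : β * 20.99 ≤ 1) (hx1 : 0.41 ≤ x) (hx2 : x ≤ 0.62)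
    (hy1 : -0.12 ≤ y) (hy2 : y ≤ 0.26) : ‖HH β (x + y * I) - 1‖ ≤ 0.6151 * β := by
  refine J_box 0.41 0.62 0.12 0.26 0.26 0.9135 0.6724 1.4043 1.3573 0.4728 4.5815 20.99 0.7361 2.679 1.392 1.0708 0.4567 0.3446 0.9592 3.3548 0.462 1.0411 0.9493 2.4791 0.00006871 0.0007224 0.0000003101 0.0000003101 0.00006152 0.0000003101 0.0000003101 0.0000003101 0.6151
    hβ hN hx1 hx2 hy1 hy2 (by norm_num) (by norm_num) (by norm_num) (by norm_num) (by norm_num) (by norm_num) (by norm_num) (by norm_num) (by norm_num) (by norm_num) (by norm_num) (by norm_num) (by norm_num) (by norm_num) (by norm_num) (by norm_num) (by norm_num) (by norm_num) (by norm_num) (by norm_num) (by norm_num) (by norm_num) (by norm_num) (by norm_num)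
    (cube_sqrt_geJ (s := 0.8686) (by norm_num) (by norm_num) (by norm_num) (by norm_num))
    (cube_sqrt_geJ (s := 0.9538) (by norm_num) (by norm_num) (by norm_num) (by norm_num))
    (by norm_num) (by norm_num) (by norm_num) (by norm_num) (by norm_num) (by norm_num) (by norm_num) (by norm_num) (by norm_num) (by norm_num) (by norm_num) (by norm_num) (by norm_num) (by norm_num) (by norm_num) (by norm_num) (by norm_num) (by norm_num)
    (exp_neg_leJ (r := 0.586) 9 (by norm_num) (by norm_num) (by norm_num) (by norm_num))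
    (exp_neg_leJ (r := 0.233) 7 (by norm_num) (by norm_num) (by norm_num) (by norm_num))
    (exp_neg_leJ (r := 0.99) 14 (by norm_num) (by norm_num) (by norm_num) (by norm_num))
    (exp_neg_leJ (r := 0.99) 14 (by norm_num) (by norm_num) (by norm_num) (by norm_num))
    (exp_neg_leJ (r := 0.697) 9 (by norm_num) (by norm_num) (by norm_num) (by norm_num))
    (exp_neg_leJ (r := 0.99) 14 (by norm_num) (by norm_num) (by norm_num) (by norm_num))
    (exp_neg_leJ (r := 0.99) 14 (by norm_num) (by norm_num) (by norm_num) (by norm_num))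
    (exp_neg_leJ (r := 0.99) 14 (by norm_num) (by norm_num) (by norm_num) (by norm_num))
    (by norm_num)

private theorem bxa2 {β x y : ℝ} (hβ : 0 < β) (hN : β * 20.8 ≤ 1) (hx1 : 0.62 ≤ x) (hx2 : x ≤ 0.82)
    (hy1 : -0.12 ≤ y) (hy2 : y ≤ 0.26) : ‖HH β (x + y * I) - 1‖ ≤ 0.6212 * β := by
  refine J_box 0.62 0.82 0.12 0.26 0.26 1.0614 0.8603 1.5034 1.1213 0.4892 4.5608 20.8 0.8106 3.012 1.442 0.9939 0.5306 0.3873 1.031 3.2425 0.564 1.3319 1.3693 2.3884 0.00001612 0.0003176 0.0000003101 0.0000003101 0.000008049 0.0000003101 0.0000003101 0.0000003101 0.6212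
    hβ hN hx1 hx2 hy1 hy2 (by norm_num) (by norm_num) (by norm_num) (by norm_num) (by norm_num) (by norm_num) (by norm_num) (by norm_num) (by norm_num) (by norm_num) (by norm_num) (by norm_num) (by norm_num) (by norm_num) (by norm_num) (by norm_num) (by norm_num) (by norm_num) (by norm_num) (by norm_num) (by norm_num) (by norm_num) (by norm_num) (by norm_num)
    (cube_sqrt_geJ (s := 0.8542) (by norm_num) (by norm_num) (by norm_num) (by norm_num))
    (cube_sqrt_geJ (s := 0.949) (by norm_num) (by norm_num) (by norm_num) (by norm_num))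
    (by norm_num) (by norm_num) (by norm_num) (by norm_num) (by norm_num) (by norm_num) (by norm_num) (by norm_num) (by norm_num) (by norm_num) (by norm_num) (by norm_num) (by norm_num) (by norm_num) (by norm_num) (by norm_num) (by norm_num) (by norm_num)
    (exp_neg_leJ (r := 0.036) 11 (by norm_num) (by norm_num) (by norm_num) (by norm_num))
    (exp_neg_leJ (r := 0.055) 8 (by norm_num) (by norm_num) (by norm_num) (by norm_num))
    (exp_neg_leJ (r := 0.99) 14 (by norm_num) (by norm_num) (by norm_num) (by norm_num))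
    (exp_neg_leJ (r := 0.99) 14 (by norm_num) (by norm_num) (by norm_num) (by norm_num))
    (exp_neg_leJ (r := 0.731) 11 (by norm_num) (by norm_num) (by norm_num) (by norm_num))
    (exp_neg_leJ (r := 0.99) 14 (by norm_num) (by norm_num) (by norm_num) (by norm_num))
    (exp_neg_leJ (r := 0.99) 14 (by norm_num) (by norm_num) (by norm_num) (by norm_num))
    (exp_neg_leJ (r := 0.99) 14 (by norm_num) (by norm_num) (by norm_num) (by norm_num))
    (by norm_num)

private theorem bxa3 {β x y : ℝ} (hβ : 0 < β) (hN : β * 20.8 ≤ 1) (hx1 : 0.82 ≤ x) (hx2 : x ≤ 1)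
    (hy1 : -0.12 ≤ y) (hy2 : y ≤ 0.26) : ‖HH β (x + y * I) - 1‖ ≤ 0.6099 * β := by
  refine J_box 0.82 1 0.12 0.26 0.26 1.2022 1.0333 1.6087 0.9623 0.506 4.5608 20.8 0.8596 3.261 1.476 0.9247 0.601 0.4288 1.0995 3.1403 0.6612 1.6088 1.7693 2.3181 0.000003728 0.0001342 0.0000003101 0.0000003101 0.000001067 0.0000003101 0.0000003101 0.0000003101 0.6099
    hβ hN hx1 hx2 hy1 hy2 (by norm_num) (by norm_num) (by norm_num) (by norm_num) (by norm_num) (by norm_num) (by norm_num) (by norm_num) (by norm_num) (by norm_num) (by norm_num) (by norm_num) (by norm_num) (by norm_num) (by norm_num) (by norm_num) (by norm_num) (by norm_num) (by norm_num) (by norm_num) (by norm_num) (by norm_num) (by norm_num) (by norm_num)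
    (cube_sqrt_geJ (s := 0.8446) (by norm_num) (by norm_num) (by norm_num) (by norm_num))
    (cube_sqrt_geJ (s := 0.9459) (by norm_num) (by norm_num) (by norm_num) (by norm_num))
    (by norm_num) (by norm_num) (by norm_num) (by norm_num) (by norm_num) (by norm_num) (by norm_num) (by norm_num) (by norm_num) (by norm_num) (by norm_num) (by norm_num) (by norm_num) (by norm_num) (by norm_num) (by norm_num) (by norm_num) (by norm_num)
    (exp_neg_leJ (r := 0.5) 12 (by norm_num) (by norm_num) (by norm_num) (by norm_num))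
    (exp_neg_leJ (r := 0.919) 8 (by norm_num) (by norm_num) (by norm_num) (by norm_num))
    (exp_neg_leJ (r := 0.99) 14 (by norm_num) (by norm_num) (by norm_num) (by norm_num))
    (exp_neg_leJ (r := 0.99) 14 (by norm_num) (by norm_num) (by norm_num) (by norm_num))
    (exp_neg_leJ (r := 0.752) 13 (by norm_num) (by norm_num) (by norm_num) (by norm_num))
    (exp_neg_leJ (r := 0.99) 14 (by norm_num) (by norm_num) (by norm_num) (by norm_num))
    (exp_neg_leJ (r := 0.99) 14 (by norm_num) (by norm_num) (by norm_num) (by norm_num))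
    (exp_neg_leJ (r := 0.99) 14 (by norm_num) (by norm_num) (by norm_num) (by norm_num))
    (by norm_num)

private theorem bxa4 {β x y : ℝ} (hβ : 0 < β) (hN : β * 20.8 ≤ 1) (hx1 : 1 ≤ x) (hx2 : x ≤ 1.17)
    (hy1 : -0.12 ≤ y) (hy2 : y ≤ 0.26) : ‖HH β (x + y * I) - 1‖ ≤ 0.6112 * β := by
  refine J_box 1 1.17 0.12 0.26 0.26 1.3289 1.1986 1.7195 0.856 0.5232 4.5608 20.8 0.902 3.497 1.507 0.8593 0.6644 0.4646 1.1611 3.0433 0.7486 1.858 2.1293 2.2287 0.0000009981 0.00006364 0.0000003101 0.0000003101 0.0000003101 0.0000003101 0.0000003101 0.0000003101 0.6112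
    hβ hN hx1 hx2 hy1 hy2 (by norm_num) (by norm_num) (by norm_num) (by norm_num) (by norm_num) (by norm_num) (by norm_num) (by norm_num) (by norm_num) (by norm_num) (by norm_num) (by norm_num) (by norm_num) (by norm_num) (by norm_num) (by norm_num) (by norm_num) (by norm_num) (by norm_num) (by norm_num) (by norm_num) (by norm_num) (by norm_num) (by norm_num)
    (cube_sqrt_geJ (s := 0.8362) (by norm_num) (by norm_num) (by norm_num) (by norm_num))
    (cube_sqrt_geJ (s := 0.9431) (by norm_num) (by norm_num) (by norm_num) (by norm_num))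
    (by norm_num) (by norm_num) (by norm_num) (by norm_num) (by norm_num) (by norm_num) (by norm_num) (by norm_num) (by norm_num) (by norm_num) (by norm_num) (by norm_num) (by norm_num) (by norm_num) (by norm_num) (by norm_num) (by norm_num) (by norm_num)
    (exp_neg_leJ (r := 0.819) 13 (by norm_num) (by norm_num) (by norm_num) (by norm_num))
    (exp_neg_leJ (r := 0.663) 9 (by norm_num) (by norm_num) (by norm_num) (by norm_num))
    (exp_neg_leJ (r := 0.99) 14 (by norm_num) (by norm_num) (by norm_num) (by norm_num))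
    (exp_neg_leJ (r := 0.99) 14 (by norm_num) (by norm_num) (by norm_num) (by norm_num))
    (exp_neg_leJ (r := 0.99) 14 (by norm_num) (by norm_num) (by norm_num) (by norm_num))
    (exp_neg_leJ (r := 0.99) 14 (by norm_num) (by norm_num) (by norm_num) (by norm_num))
    (exp_neg_leJ (r := 0.99) 14 (by norm_num) (by norm_num) (by norm_num) (by norm_num))
    (exp_neg_leJ (r := 0.99) 14 (by norm_num) (by norm_num) (by norm_num) (by norm_num))
    (by norm_num)

private theorem bxa5 {β x y : ℝ} (hβ : 0 < β) (hN : β * 20.8 ≤ 1) (hx1 : 1.17 ≤ x) (hx2 : x ≤ 1.34)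
    (hy1 : -0.12 ≤ y) (hy2 : y ≤ 0.26) : ‖HH β (x + y * I) - 1‖ ≤ 0.6223 * β := by
  refine J_box 1.17 1.34 0.12 0.26 0.26 1.4486 1.365 1.8394 0.7779 0.5411 4.5608 20.8 0.9423 3.743 1.536 0.7939 0.7242 0.4967 1.2193 2.9459 0.8312 2.0934 2.4693 2.1164 0.0000003101 0.00003261 0.0000003101 0.0000003101 0.0000003101 0.0000003101 0.0000003101 0.0000003101 0.6223
    hβ hN hx1 hx2 hy1 hy2 (by norm_num) (by norm_num) (by norm_num) (by norm_num) (by norm_num) (by norm_num) (by norm_num) (by norm_num) (by norm_num) (by norm_num) (by norm_num) (by norm_num) (by norm_num) (by norm_num) (by norm_num) (by norm_num) (by norm_num) (by norm_num) (by norm_num) (by norm_num) (by norm_num) (by norm_num) (by norm_num) (by norm_num)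
    (cube_sqrt_geJ (s := 0.8281) (by norm_num) (by norm_num) (by norm_num) (by norm_num))
    (cube_sqrt_geJ (s := 0.9405) (by norm_num) (by norm_num) (by norm_num) (by norm_num))
    (by norm_num) (by norm_num) (by norm_num) (by norm_num) (by norm_num) (by norm_num) (by norm_num) (by norm_num) (by norm_num) (by norm_num) (by norm_num) (by norm_num) (by norm_num) (by norm_num) (by norm_num) (by norm_num) (by norm_num) (by norm_num)
    (exp_neg_leJ (r := 0.99) 14 (by norm_num) (by norm_num) (by norm_num) (by norm_num))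
    (exp_neg_leJ (r := 0.331) 10 (by norm_num) (by norm_num) (by norm_num) (by norm_num))
    (exp_neg_leJ (r := 0.99) 14 (by norm_num) (by norm_num) (by norm_num) (by norm_num))
    (exp_neg_leJ (r := 0.99) 14 (by norm_num) (by norm_num) (by norm_num) (by norm_num))
    (exp_neg_leJ (r := 0.99) 14 (by norm_num) (by norm_num) (by norm_num) (by norm_num))
    (exp_neg_leJ (r := 0.99) 14 (by norm_num) (by norm_num) (by norm_num) (by norm_num))
    (exp_neg_leJ (r := 0.99) 14 (by norm_num) (by norm_num) (by norm_num) (by norm_num))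
    (exp_neg_leJ (r := 0.99) 14 (by norm_num) (by norm_num) (by norm_num) (by norm_num))
    (by norm_num)

private theorem bxa6 {β x y : ℝ} (hβ : 0 < β) (hN : β * 20.8 ≤ 1) (hx1 : 1.34 ≤ x) (hx2 : x ≤ 1.5)
    (hy1 : -0.12 ≤ y) (hy2 : y ≤ 0.26) : ‖HH β (x + y * I) - 1‖ ≤ 0.6175 * β := by
  refine J_box 1.34 1.5 0.12 0.26 0.26 1.5684 1.5224 1.959 0.7126 0.5584 4.5608 20.8 0.9707 3.929 1.558 0.7324 0.7841 0.5304 1.2775 2.8541 0.9138 2.3288 2.8093 2.0286 0.0000003101 0.00001618 0.0000003101 0.0000003101 0.0000003101 0.0000003101 0.0000003101 0.0000003101 0.6175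
    hβ hN hx1 hx2 hy1 hy2 (by norm_num) (by norm_num) (by norm_num) (by norm_num) (by norm_num) (by norm_num) (by norm_num) (by norm_num) (by norm_num) (by norm_num) (by norm_num) (by norm_num) (by norm_num) (by norm_num) (by norm_num) (by norm_num) (by norm_num) (by norm_num) (by norm_num) (by norm_num) (by norm_num) (by norm_num) (by norm_num) (by norm_num)
    (cube_sqrt_geJ (s := 0.8224) (by norm_num) (by norm_num) (by norm_num) (by norm_num))
    (cube_sqrt_geJ (s := 0.9386) (by norm_num) (by norm_num) (by norm_num) (by norm_num))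
    (by norm_num) (by norm_num) (by norm_num) (by norm_num) (by norm_num) (by norm_num) (by norm_num) (by norm_num) (by norm_num) (by norm_num) (by norm_num) (by norm_num) (by norm_num) (by norm_num) (by norm_num) (by norm_num) (by norm_num) (by norm_num)
    (exp_neg_leJ (r := 0.99) 14 (by norm_num) (by norm_num) (by norm_num) (by norm_num))
    (exp_neg_leJ (r := 0.032) 11 (by norm_num) (by norm_num) (by norm_num) (by norm_num))
    (exp_neg_leJ (r := 0.99) 14 (by norm_num) (by norm_num) (by norm_num) (by norm_num))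
    (exp_neg_leJ (r := 0.99) 14 (by norm_num) (by norm_num) (by norm_num) (by norm_num))
    (exp_neg_leJ (r := 0.99) 14 (by norm_num) (by norm_num) (by norm_num) (by norm_num))
    (exp_neg_leJ (r := 0.99) 14 (by norm_num) (by norm_num) (by norm_num) (by norm_num))
    (exp_neg_leJ (r := 0.99) 14 (by norm_num) (by norm_num) (by norm_num) (by norm_num))
    (exp_neg_leJ (r := 0.99) 14 (by norm_num) (by norm_num) (by norm_num) (by norm_num))
    (by norm_num)

private theorem bxa7 {β x y : ℝ} (hβ : 0 < β) (hN : β * 20.8 ≤ 1) (hx1 : 1.5 ≤ x) (hx2 : x ≤ 1.66)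
    (hy1 : -0.12 ≤ y) (hy2 : y ≤ 0.26) : ‖HH β (x + y * I) - 1‖ ≤ 0.6226 * β := by
  refine J_box 1.5 1.66 0.12 0.26 0.26 1.681 1.6803 2.0841 0.6624 0.576 4.5608 20.8 0.9996 4.132 1.58 0.6708 0.8404 0.5604 1.3323 2.7622 0.9915 2.5504 3.1293 1.9193 0.0000003101 0.000008673 0.0000003101 0.0000003101 0.0000003101 0.0000003101 0.0000003101 0.0000003101 0.6226
    hβ hN hx1 hx2 hy1 hy2 (by norm_num) (by norm_num) (by norm_num) (by norm_num) (by norm_num) (by norm_num) (by norm_num) (by norm_num) (by norm_num) (by norm_num) (by norm_num) (by norm_num) (by norm_num) (by norm_num) (by norm_num) (by norm_num) (by norm_num) (by norm_num) (by norm_num) (by norm_num) (by norm_num) (by norm_num) (by norm_num) (by norm_num)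
    (cube_sqrt_geJ (s := 0.8165) (by norm_num) (by norm_num) (by norm_num) (by norm_num))
    (cube_sqrt_geJ (s := 0.9368) (by norm_num) (by norm_num) (by norm_num) (by norm_num))
    (by norm_num) (by norm_num) (by norm_num) (by norm_num) (by norm_num) (by norm_num) (by norm_num) (by norm_num) (by norm_num) (by norm_num) (by norm_num) (by norm_num) (by norm_num) (by norm_num) (by norm_num) (by norm_num) (by norm_num) (by norm_num)
    (exp_neg_leJ (r := 0.99) 14 (by norm_num) (by norm_num) (by norm_num) (by norm_num))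
    (exp_neg_leJ (r := 0.656) 11 (by norm_num) (by norm_num) (by norm_num) (by norm_num))
    (exp_neg_leJ (r := 0.99) 14 (by norm_num) (by norm_num) (by norm_num) (by norm_num))
    (exp_neg_leJ (r := 0.99) 14 (by norm_num) (by norm_num) (by norm_num) (by norm_num))
    (exp_neg_leJ (r := 0.99) 14 (by norm_num) (by norm_num) (by norm_num) (by norm_num))
    (exp_neg_leJ (r := 0.99) 14 (by norm_num) (by norm_num) (by norm_num) (by norm_num))
    (exp_neg_leJ (r := 0.99) 14 (by norm_num) (by norm_num) (by norm_num) (by norm_num))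
    (exp_neg_leJ (r := 0.99) 14 (by norm_num) (by norm_num) (by norm_num) (by norm_num))
    (by norm_num)

private theorem bxa8 {β x y : ℝ} (hβ : 0 < β) (hN : β * 20.8 ≤ 1) (hx1 : 1.66 ≤ x) (hx2 : x ≤ 1.715)
    (hy1 : -0.12 ≤ y) (hy2 : y ≤ 0.26) : ‖HH β (x + y * I) - 1‖ ≤ 0.5205 * β := by
  refine J_box 1.66 1.715 0.12 0.26 0.26 1.7937 1.7346 2.1282 0.6073 0.582 4.5608 20.8 0.9671 3.905 1.555 0.6497 0.8968 0.6077 1.387 2.7306 1.0692 2.7719 3.4493 2.0917 0.0000003101 0.000003242 0.0000003101 0.0000003101 0.0000003101 0.0000003101 0.0000003101 0.0000003101 0.5205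
    hβ hN hx1 hx2 hy1 hy2 (by norm_num) (by norm_num) (by norm_num) (by norm_num) (by norm_num) (by norm_num) (by norm_num) (by norm_num) (by norm_num) (by norm_num) (by norm_num) (by norm_num) (by norm_num) (by norm_num) (by norm_num) (by norm_num) (by norm_num) (by norm_num) (by norm_num) (by norm_num) (by norm_num) (by norm_num) (by norm_num) (by norm_num)
    (cube_sqrt_geJ (s := 0.8231) (by norm_num) (by norm_num) (by norm_num) (by norm_num))
    (cube_sqrt_geJ (s := 0.9389) (by norm_num) (by norm_num) (by norm_num) (by norm_num))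
    (by norm_num) (by norm_num) (by norm_num) (by norm_num) (by norm_num) (by norm_num) (by norm_num) (by norm_num) (by norm_num) (by norm_num) (by norm_num) (by norm_num) (by norm_num) (by norm_num) (by norm_num) (by norm_num) (by norm_num) (by norm_num)
    (exp_neg_leJ (r := 0.99) 14 (by norm_num) (by norm_num) (by norm_num) (by norm_num))
    (exp_neg_leJ (r := 0.64) 12 (by norm_num) (by norm_num) (by norm_num) (by norm_num))
    (exp_neg_leJ (r := 0.99) 14 (by norm_num) (by norm_num) (by norm_num) (by norm_num))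
    (exp_neg_leJ (r := 0.99) 14 (by norm_num) (by norm_num) (by norm_num) (by norm_num))
    (exp_neg_leJ (r := 0.99) 14 (by norm_num) (by norm_num) (by norm_num) (by norm_num))
    (exp_neg_leJ (r := 0.99) 14 (by norm_num) (by norm_num) (by norm_num) (by norm_num))
    (exp_neg_leJ (r := 0.99) 14 (by norm_num) (by norm_num) (by norm_num) (by norm_num))
    (exp_neg_leJ (r := 0.99) 14 (by norm_num) (by norm_num) (by norm_num) (by norm_num))
    (by norm_num)

theorem JP2_a {β x y κ : ℝ} (hβ : 0 < β) (hx : 0 < x) (hκ : κ = ‖(x + y * I : ℂ)‖ * Real.exp y)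
    (hκ0 : 0 < κ) (hR : β * (10.4 * (1 + κ ^ 2)) ≤ κ) (hx1 : 0.16 ≤ x) (hx2 : x ≤ 1.715) (hy1 : -0.12 ≤ y) (hy2 : y ≤ 0.26) :
    ‖HH β (x + y * I) - 1‖ ≤ 0.03 := by
  have hw : Real.exp y ≤ 1.297 := (Real.exp_le_exp.2 hy2).trans exp_wa
  have hya : |y| ≤ 0.26 := by rw [abs_le]; constructor <;> linarith
  have hym : -0.12 ≤ y := by linarith
  have h20 := bN20 (N := 20.8) (by norm_num) (by norm_num) hβ hκ0 hR
  rcases le_total x 0.41 with f0 | g0
  · exact epsOf hβ (bN 10.4 0.4855 1.297 0.6297 23.06 0.41 0.26 (by norm_num) hβ hx hκ hκ0 hR f0 hya hw (by norm_num) (by norm_num) (by norm_num) (by norm_num) (by norm_num) (by norm_num)) (by norm_num) (by norm_num) (bxa0 hβ (bN 10.4 0.4855 1.297 0.6297 23.06 0.41 0.26 (by norm_num) hβ hx hκ hκ0 hR f0 hya hw (by norm_num) (by norm_num) (by norm_num) (by norm_num) (by norm_num) (by norm_num)) hx1 f0 hym hy2)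
  rcases le_total x 0.62 with f1 | g1
  · exact epsOf hβ (bN 10.4 0.6724 1.297 0.8722 20.99 0.62 0.26 (by norm_num) hβ hx hκ hκ0 hR f1 hya hw (by norm_num) (by norm_num) (by norm_num) (by norm_num) (by norm_num) (by norm_num)) (by norm_num) (by norm_num) (bxa1 hβ (bN 10.4 0.6724 1.297 0.8722 20.99 0.62 0.26 (by norm_num) hβ hx hκ hκ0 hR f1 hya hw (by norm_num) (by norm_num) (by norm_num) (by norm_num) (by norm_num) (by norm_num)) g0 f1 hym hy2)
  rcases le_total x 0.82 with f2 | g2
  · exact epsOf hβ h20 (by norm_num) (by norm_num) (bxa2 hβ h20 g1 f2 hym hy2)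
  rcases le_total x 1 with f3 | g3
  · exact epsOf hβ h20 (by norm_num) (by norm_num) (bxa3 hβ h20 g2 f3 hym hy2)
  rcases le_total x 1.17 with f4 | g4
  · exact epsOf hβ h20 (by norm_num) (by norm_num) (bxa4 hβ h20 g3 f4 hym hy2)
  rcases le_total x 1.34 with f5 | g5
  · exact epsOf hβ h20 (by norm_num) (by norm_num) (bxa5 hβ h20 g4 f5 hym hy2)
  rcases le_total x 1.5 with f6 | g6
  · exact epsOf hβ h20 (by norm_num) (by norm_num) (bxa6 hβ h20 g5 f6 hym hy2)
  rcases le_total x 1.66 with f7 | g7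
  · exact epsOf hβ h20 (by norm_num) (by norm_num) (bxa7 hβ h20 g6 f7 hym hy2)
  exact epsOf hβ h20 (by norm_num) (by norm_num) (bxa8 hβ h20 g7 hx2 hym hy2)

private theorem exp_wb : Real.exp 0.32 ≤ 1.3772 := by
  have h := Real.exp_bound' (x := 0.32) (by norm_num) (by norm_num) (n := 7) (by norm_num)
  refine h.trans ?_
  norm_num [Finset.sum_range_succ, Nat.factorial]

private theorem bxb0 {β x y : ℝ} (hβ : 0 < β) (hN : β * 21.5 ≤ 1) (hx1 : 0.16 ≤ x) (hx2 : x ≤ 0.46)
    (hy1 : -0 ≤ y) (hy2 : y ≤ 0.32) : ‖HH β (x + y * I) - 1‖ ≤ 0.6222 * β := by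
  refine J_box 0.16 0.46 0 0.32 0.32 0.8227 0.5604 1.3979 1.5845 0.4717 4.6369 21.5 0.6812 2.464 1.357 1.2431 0.4113 0.3179 1.063 3.811 0.4001 0.6888 0.5182 2.0008 0.0001448 0.001079 0.0000003101 0.0000003101 0.0001839 0.0000003709 0.00001451 0.0000003101 0.6222
    hβ hN hx1 hx2 hy1 hy2 (by norm_num) (by norm_num) (by norm_num) (by norm_num) (by norm_num) (by norm_num) (by norm_num) (by norm_num) (by norm_num) (by norm_num) (by norm_num) (by norm_num) (by norm_num) (by norm_num) (by norm_num) (by norm_num) (by norm_num) (by norm_num) (by norm_num) (by norm_num) (by norm_num) (by norm_num) (by norm_num) (by norm_num)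
    (cube_sqrt_geJ (s := 0.8791) (by norm_num) (by norm_num) (by norm_num) (by norm_num))
    (cube_sqrt_geJ (s := 0.9573) (by norm_num) (by norm_num) (by norm_num) (by norm_num))
    (by norm_num) (by norm_num) (by norm_num) (by norm_num) (by norm_num) (by norm_num) (by norm_num) (by norm_num) (by norm_num) (by norm_num) (by norm_num) (by norm_num) (by norm_num) (by norm_num) (by norm_num) (by norm_num) (by norm_num) (by norm_num)
    (exp_neg_leJ (r := 0.842) 8 (by norm_num) (by norm_num) (by norm_num) (by norm_num))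
    (exp_neg_leJ (r := 0.834) 6 (by norm_num) (by norm_num) (by norm_num) (by norm_num))
    (exp_neg_leJ (r := 0.99) 14 (by norm_num) (by norm_num) (by norm_num) (by norm_num))
    (exp_neg_leJ (r := 0.99) 14 (by norm_num) (by norm_num) (by norm_num) (by norm_num))
    (exp_neg_leJ (r := 0.602) 8 (by norm_num) (by norm_num) (by norm_num) (by norm_num))
    (exp_neg_leJ (r := 0.809) 14 (by norm_num) (by norm_num) (by norm_num) (by norm_num))
    (exp_neg_leJ (r := 0.141) 11 (by norm_num) (by norm_num) (by norm_num) (by norm_num))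
    (exp_neg_leJ (r := 0.99) 14 (by norm_num) (by norm_num) (by norm_num) (by norm_num))
    (by norm_num)

private theorem bxb1 {β x y : ℝ} (hβ : 0 < β) (hN : β * 20.8 ≤ 1) (hx1 : 0.46 ≤ x) (hx2 : x ≤ 0.75)
    (hy1 : -0 ≤ y) (hy2 : y ≤ 0.32) : ‖HH β (x + y * I) - 1‖ ≤ 0.6104 * β := by
  refine J_box 0.46 0.75 0 0.32 0.32 1.0339 0.8155 1.5182 1.1721 0.4916 4.5608 20.8 0.7888 2.909 1.428 1.1316 0.5169 0.381 1.1657 3.6527 0.5458 1.1042 1.1182 1.9074 0.00002145 0.000363 0.0000003101 0.0000003101 0.00001175 0.0000003101 0.0000003101 0.0000003101 0.6104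
    hβ hN hx1 hx2 hy1 hy2 (by norm_num) (by norm_num) (by norm_num) (by norm_num) (by norm_num) (by norm_num) (by norm_num) (by norm_num) (by norm_num) (by norm_num) (by norm_num) (by norm_num) (by norm_num) (by norm_num) (by norm_num) (by norm_num) (by norm_num) (by norm_num) (by norm_num) (by norm_num) (by norm_num) (by norm_num) (by norm_num) (by norm_num)
    (cube_sqrt_geJ (s := 0.8585) (by norm_num) (by norm_num) (by norm_num) (by norm_num))
    (cube_sqrt_geJ (s := 0.9504) (by norm_num) (by norm_num) (by norm_num) (by norm_num))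
    (by norm_num) (by norm_num) (by norm_num) (by norm_num) (by norm_num) (by norm_num) (by norm_num) (by norm_num) (by norm_num) (by norm_num) (by norm_num) (by norm_num) (by norm_num) (by norm_num) (by norm_num) (by norm_num) (by norm_num) (by norm_num)
    (exp_neg_leJ (r := 0.751) 10 (by norm_num) (by norm_num) (by norm_num) (by norm_num))
    (exp_neg_leJ (r := 0.924) 7 (by norm_num) (by norm_num) (by norm_num) (by norm_num))
    (exp_neg_leJ (r := 0.99) 14 (by norm_num) (by norm_num) (by norm_num) (by norm_num))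
    (exp_neg_leJ (r := 0.99) 14 (by norm_num) (by norm_num) (by norm_num) (by norm_num))
    (exp_neg_leJ (r := 0.352) 11 (by norm_num) (by norm_num) (by norm_num) (by norm_num))
    (exp_neg_leJ (r := 0.99) 14 (by norm_num) (by norm_num) (by norm_num) (by norm_num))
    (exp_neg_leJ (r := 0.99) 14 (by norm_num) (by norm_num) (by norm_num) (by norm_num))
    (exp_neg_leJ (r := 0.99) 14 (by norm_num) (by norm_num) (by norm_num) (by norm_num))
    (by norm_num)

private theorem bxb2 {β x y : ℝ} (hβ : 0 < β) (hN : β * 20.8 ≤ 1) (hx1 : 0.75 ≤ x) (hx2 : x ≤ 1.03)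
    (hy1 : -0 ≤ y) (hy2 : y ≤ 0.32) : ‖HH β (x + y * I) - 1‖ ≤ 0.615 * β := by
  refine J_box 0.75 1.03 0 0.32 0.32 1.2381 1.0786 1.6744 0.9393 0.5163 4.5608 20.8 0.8712 3.323 1.485 1.0239 0.619 0.4392 1.265 3.4954 0.6866 1.5058 1.6982 1.7722 0.000002567 0.0001079 0.0000003101 0.0000003101 0.0000006279 0.0000003101 0.0000003101 0.0000003101 0.615
    hβ hN hx1 hx2 hy1 hy2 (by norm_num) (by norm_num) (by norm_num) (by norm_num) (by norm_num) (by norm_num) (by norm_num) (by norm_num) (by norm_num) (by norm_num) (by norm_num) (by norm_num) (by norm_num) (by norm_num) (by norm_num) (by norm_num) (by norm_num) (by norm_num) (by norm_num) (by norm_num) (by norm_num) (by norm_num) (by norm_num) (by norm_num)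
    (cube_sqrt_geJ (s := 0.8423) (by norm_num) (by norm_num) (by norm_num) (by norm_num))
    (cube_sqrt_geJ (s := 0.9451) (by norm_num) (by norm_num) (by norm_num) (by norm_num))
    (by norm_num) (by norm_num) (by norm_num) (by norm_num) (by norm_num) (by norm_num) (by norm_num) (by norm_num) (by norm_num) (by norm_num) (by norm_num) (by norm_num) (by norm_num) (by norm_num) (by norm_num) (by norm_num) (by norm_num) (by norm_num)
    (exp_neg_leJ (r := 0.875) 12 (by norm_num) (by norm_num) (by norm_num) (by norm_num))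
    (exp_neg_leJ (r := 0.135) 9 (by norm_num) (by norm_num) (by norm_num) (by norm_num))
    (exp_neg_leJ (r := 0.99) 14 (by norm_num) (by norm_num) (by norm_num) (by norm_num))
    (exp_neg_leJ (r := 0.99) 14 (by norm_num) (by norm_num) (by norm_num) (by norm_num))
    (exp_neg_leJ (r := 0.281) 14 (by norm_num) (by norm_num) (by norm_num) (by norm_num))
    (exp_neg_leJ (r := 0.99) 14 (by norm_num) (by norm_num) (by norm_num) (by norm_num))
    (exp_neg_leJ (r := 0.99) 14 (by norm_num) (by norm_num) (by norm_num) (by norm_num))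
    (exp_neg_leJ (r := 0.99) 14 (by norm_num) (by norm_num) (by norm_num) (by norm_num))
    (by norm_num)

private theorem bxb3 {β x y : ℝ} (hβ : 0 < β) (hN : β * 20.8 ≤ 1) (hx1 : 1.03 ≤ x) (hx2 : x ≤ 1.173)
    (hy1 : -0 ≤ y) (hy2 : y ≤ 0.32) : ‖HH β (x + y * I) - 1‖ ≤ 0.4697 * β := by
  refine J_box 1.03 1.173 0 0.32 0.32 1.4353 1.2159 1.7659 0.7729 0.5302 4.5608 20.8 0.8472 3.195 1.468 0.9689 0.7176 0.5149 1.3608 3.4143 0.8226 1.8935 2.2582 1.959 0.0000003303 0.00002237 0.0000003101 0.0000003101 0.0000003101 0.0000003101 0.0000003101 0.0000003101 0.4697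
    hβ hN hx1 hx2 hy1 hy2 (by norm_num) (by norm_num) (by norm_num) (by norm_num) (by norm_num) (by norm_num) (by norm_num) (by norm_num) (by norm_num) (by norm_num) (by norm_num) (by norm_num) (by norm_num) (by norm_num) (by norm_num) (by norm_num) (by norm_num) (by norm_num) (by norm_num) (by norm_num) (by norm_num) (by norm_num) (by norm_num) (by norm_num)
    (cube_sqrt_geJ (s := 0.8471) (by norm_num) (by norm_num) (by norm_num) (by norm_num))
    (cube_sqrt_geJ (s := 0.9467) (by norm_num) (by norm_num) (by norm_num) (by norm_num))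
    (by norm_num) (by norm_num) (by norm_num) (by norm_num) (by norm_num) (by norm_num) (by norm_num) (by norm_num) (by norm_num) (by norm_num) (by norm_num) (by norm_num) (by norm_num) (by norm_num) (by norm_num) (by norm_num) (by norm_num) (by norm_num)
    (exp_neg_leJ (r := 0.926) 14 (by norm_num) (by norm_num) (by norm_num) (by norm_num))
    (exp_neg_leJ (r := 0.709) 10 (by norm_num) (by norm_num) (by norm_num) (by norm_num))
    (exp_neg_leJ (r := 0.99) 14 (by norm_num) (by norm_num) (by norm_num) (by norm_num))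
    (exp_neg_leJ (r := 0.99) 14 (by norm_num) (by norm_num) (by norm_num) (by norm_num))
    (exp_neg_leJ (r := 0.99) 14 (by norm_num) (by norm_num) (by norm_num) (by norm_num))
    (exp_neg_leJ (r := 0.99) 14 (by norm_num) (by norm_num) (by norm_num) (by norm_num))
    (exp_neg_leJ (r := 0.99) 14 (by norm_num) (by norm_num) (by norm_num) (by norm_num))
    (exp_neg_leJ (r := 0.99) 14 (by norm_num) (by norm_num) (by norm_num) (by norm_num))
    (by norm_num)

theorem JP2_b {β x y κ : ℝ} (hβ : 0 < β) (hx : 0 < x) (hκ : κ = ‖(x + y * I : ℂ)‖ * Real.exp y)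
    (hκ0 : 0 < κ) (hR : β * (10.4 * (1 + κ ^ 2)) ≤ κ) (hx1 : 0.16 ≤ x) (hx2 : x ≤ 1.173) (hy1 : 0.26 ≤ y) (hy2 : y ≤ 0.32) :
    ‖HH β (x + y * I) - 1‖ ≤ 0.03 := by
  have hw : Real.exp y ≤ 1.3772 := (Real.exp_le_exp.2 hy2).trans exp_wb
  have hya : |y| ≤ 0.32 := by rw [abs_le]; constructor <;> linarith
  have hym : -0 ≤ y := by linarith
  have h20 := bN20 (N := 20.8) (by norm_num) (by norm_num) hβ hκ0 hR
  rcases le_total x 0.46 with f0 | g0
  · exact epsOf hβ (bN 10.4 0.5604 1.3772 0.7718 21.5 0.46 0.32 (by norm_num) hβ hx hκ hκ0 hR f0 hya hw (by norm_num) (by norm_num) (by norm_num) (by norm_num) (by norm_num) (by norm_num)) (by norm_num) (by norm_num) (bxb0 hβ (bN 10.4 0.5604 1.3772 0.7718 21.5 0.46 0.32 (by norm_num) hβ hx hκ hκ0 hR f0 hya hw (by norm_num) (by norm_num) (by norm_num) (by norm_num) (by norm_num) (by norm_num)) hx1 f0 hym hy2)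
  rcases le_total x 0.75 with f1 | g1
  · exact epsOf hβ h20 (by norm_num) (by norm_num) (bxb1 hβ h20 g0 f1 hym hy2)
  rcases le_total x 1.03 with f2 | g2
  · exact epsOf hβ h20 (by norm_num) (by norm_num) (bxb2 hβ h20 g1 f2 hym hy2)
  exact epsOf hβ h20 (by norm_num) (by norm_num) (bxb3 hβ h20 g2 hx2 hym hy2)

private theorem exp_wc : Real.exp 0.39 ≤ 1.477 := by
  have h := Real.exp_bound' (x := 0.39) (by norm_num) (by norm_num) (n := 7) (by norm_num)
  refine h.trans ?_
  norm_num [Finset.sum_range_succ, Nat.factorial]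

private theorem bxc0 {β x y : ℝ} (hβ : 0 < β) (hN : β * 21.29 ≤ 1) (hx1 : 0.16 ≤ x) (hx2 : x ≤ 0.38)
    (hy1 : -0 ≤ y) (hy2 : y ≤ 0.39) : ‖HH β (x + y * I) - 1‖ ≤ 0.6329 * β := by
  refine J_box 0.16 0.38 0 0.39 0.39 0.8227 0.5446 1.4411 1.6088 0.479 4.6142 21.29 0.662 2.394 1.345 1.2739 0.4113 0.3205 1.063 3.8399 0.3929 0.6817 0.2179 1.7139 0.0001577 0.001091 0.0000003101 0.0000003101 0.0002332 0.000000498 0.009673 0.0000003101 0.6329
    hβ hN hx1 hx2 hy1 hy2 (by norm_num) (by norm_num) (by norm_num) (by norm_num) (by norm_num) (by norm_num) (by norm_num) (by norm_num) (by norm_num) (by norm_num) (by norm_num) (by norm_num) (by norm_num) (by norm_num) (by norm_num) (by norm_num) (by norm_num) (by norm_num) (by norm_num) (by norm_num) (by norm_num) (by norm_num) (by norm_num) (by norm_num)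
    (cube_sqrt_geJ (s := 0.8827) (by norm_num) (by norm_num) (by norm_num) (by norm_num))
    (cube_sqrt_geJ (s := 0.9586) (by norm_num) (by norm_num) (by norm_num) (by norm_num))
    (by norm_num) (by norm_num) (by norm_num) (by norm_num) (by norm_num) (by norm_num) (by norm_num) (by norm_num) (by norm_num) (by norm_num) (by norm_num) (by norm_num) (by norm_num) (by norm_num) (by norm_num) (by norm_num) (by norm_num) (by norm_num)
    (exp_neg_leJ (r := 0.756) 8 (by norm_num) (by norm_num) (by norm_num) (by norm_num))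
    (exp_neg_leJ (r := 0.823) 6 (by norm_num) (by norm_num) (by norm_num) (by norm_num))
    (exp_neg_leJ (r := 0.99) 14 (by norm_num) (by norm_num) (by norm_num) (by norm_num))
    (exp_neg_leJ (r := 0.99) 14 (by norm_num) (by norm_num) (by norm_num) (by norm_num))
    (exp_neg_leJ (r := 0.364) 8 (by norm_num) (by norm_num) (by norm_num) (by norm_num))
    (exp_neg_leJ (r := 0.513) 14 (by norm_num) (by norm_num) (by norm_num) (by norm_num))
    (exp_neg_leJ (r := 0.639) 4 (by norm_num) (by norm_num) (by norm_num) (by norm_num))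
    (exp_neg_leJ (r := 0.99) 14 (by norm_num) (by norm_num) (by norm_num) (by norm_num))
    (by norm_num)

private theorem bxc1 {β x y : ℝ} (hβ : 0 < β) (hN : β * 20.8 ≤ 1) (hx1 : 0.38 ≤ x) (hx2 : x ≤ 0.63)
    (hy1 : -0 ≤ y) (hy2 : y ≤ 0.39) : ‖HH β (x + y * I) - 1‖ ≤ 0.6117 * β := by
  refine J_box 0.38 0.63 0 0.39 0.39 0.9776 0.741 1.5262 1.2781 0.4929 4.5608 20.8 0.758 2.772 1.407 1.1778 0.4887 0.3652 1.1383 3.7098 0.4998 0.9863 0.6579 1.6201 0.00003854 0.0005027 0.0000003101 0.0000003101 0.00003059 0.0000003101 0.000001142 0.0000003101 0.6117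
    hβ hN hx1 hx2 hy1 hy2 (by norm_num) (by norm_num) (by norm_num) (by norm_num) (by norm_num) (by norm_num) (by norm_num) (by norm_num) (by norm_num) (by norm_num) (by norm_num) (by norm_num) (by norm_num) (by norm_num) (by norm_num) (by norm_num) (by norm_num) (by norm_num) (by norm_num) (by norm_num) (by norm_num) (by norm_num) (by norm_num) (by norm_num)
    (cube_sqrt_geJ (s := 0.8644) (by norm_num) (by norm_num) (by norm_num) (by norm_num))
    (cube_sqrt_geJ (s := 0.9524) (by norm_num) (by norm_num) (by norm_num) (by norm_num))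
    (by norm_num) (by norm_num) (by norm_num) (by norm_num) (by norm_num) (by norm_num) (by norm_num) (by norm_num) (by norm_num) (by norm_num) (by norm_num) (by norm_num) (by norm_num) (by norm_num) (by norm_num) (by norm_num) (by norm_num) (by norm_num)
    (exp_neg_leJ (r := 0.164) 10 (by norm_num) (by norm_num) (by norm_num) (by norm_num))
    (exp_neg_leJ (r := 0.596) 7 (by norm_num) (by norm_num) (by norm_num) (by norm_num))
    (exp_neg_leJ (r := 0.99) 14 (by norm_num) (by norm_num) (by norm_num) (by norm_num))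
    (exp_neg_leJ (r := 0.99) 14 (by norm_num) (by norm_num) (by norm_num) (by norm_num))
    (exp_neg_leJ (r := 0.395) 10 (by norm_num) (by norm_num) (by norm_num) (by norm_num))
    (exp_neg_leJ (r := 0.99) 14 (by norm_num) (by norm_num) (by norm_num) (by norm_num))
    (exp_neg_leJ (r := 0.684) 13 (by norm_num) (by norm_num) (by norm_num) (by norm_num))
    (exp_neg_leJ (r := 0.99) 14 (by norm_num) (by norm_num) (by norm_num) (by norm_num))
    (by norm_num)

private theorem bxc2 {β x y : ℝ} (hβ : 0 < β) (hN : β * 20.8 ≤ 1) (hx1 : 0.63 ≤ x) (hx2 : x ≤ 0.88)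
    (hy1 : -0 ≤ y) (hy2 : y ≤ 0.39) : ‖HH β (x + y * I) - 1‖ ≤ 0.6111 * β := by
  refine J_box 0.63 0.88 0 0.39 0.39 1.1536 0.9626 1.6452 1.0353 0.5118 4.5608 20.8 0.8345 3.13 1.459 1.0816 0.5767 0.4163 1.2239 3.5729 0.6212 1.3325 1.1579 1.5177 0.000006228 0.0001737 0.0000003101 0.0000003101 0.000002455 0.0000003101 0.0000003101 0.0000003101 0.6111
    hβ hN hx1 hx2 hy1 hy2 (by norm_num) (by norm_num) (by norm_num) (by norm_num) (by norm_num) (by norm_num) (by norm_num) (by norm_num) (by norm_num) (by norm_num) (by norm_num) (by norm_num) (by norm_num) (by norm_num) (by norm_num) (by norm_num) (by norm_num) (by norm_num) (by norm_num) (by norm_num) (by norm_num) (by norm_num) (by norm_num) (by norm_num)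
    (cube_sqrt_geJ (s := 0.8496) (by norm_num) (by norm_num) (by norm_num) (by norm_num))
    (cube_sqrt_geJ (s := 0.9475) (by norm_num) (by norm_num) (by norm_num) (by norm_num))
    (by norm_num) (by norm_num) (by norm_num) (by norm_num) (by norm_num) (by norm_num) (by norm_num) (by norm_num) (by norm_num) (by norm_num) (by norm_num) (by norm_num) (by norm_num) (by norm_num) (by norm_num) (by norm_num) (by norm_num) (by norm_num)
    (exp_neg_leJ (r := 0.99) 11 (by norm_num) (by norm_num) (by norm_num) (by norm_num))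
    (exp_neg_leJ (r := 0.659) 8 (by norm_num) (by norm_num) (by norm_num) (by norm_num))
    (exp_neg_leJ (r := 0.99) 14 (by norm_num) (by norm_num) (by norm_num) (by norm_num))
    (exp_neg_leJ (r := 0.99) 14 (by norm_num) (by norm_num) (by norm_num) (by norm_num))
    (exp_neg_leJ (r := 0.92) 12 (by norm_num) (by norm_num) (by norm_num) (by norm_num))
    (exp_neg_leJ (r := 0.99) 14 (by norm_num) (by norm_num) (by norm_num) (by norm_num))
    (exp_neg_leJ (r := 0.99) 14 (by norm_num) (by norm_num) (by norm_num) (by norm_num))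
    (exp_neg_leJ (r := 0.99) 14 (by norm_num) (by norm_num) (by norm_num) (by norm_num))
    (by norm_num)

private theorem bxc3 {β x y : ℝ} (hβ : 0 < β) (hN : β * 20.8 ≤ 1) (hx1 : 0.88 ≤ x) (hx2 : x ≤ 1.105)
    (hy1 : -0 ≤ y) (hy2 : y ≤ 0.39) : ‖HH β (x + y * I) - 1‖ ≤ 0.5845 * β := by
  refine J_box 0.88 1.105 0 0.39 0.39 1.3297 1.1719 1.7758 0.8691 0.5317 4.5608 20.8 0.8814 3.379 1.492 0.9951 0.6648 0.4695 1.3095 3.4471 0.7426 1.6786 1.6579 1.4488 0.0000009903 0.0000575 0.0000003101 0.0000003101 0.0000003101 0.0000003101 0.0000003101 0.0000003101 0.5845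
    hβ hN hx1 hx2 hy1 hy2 (by norm_num) (by norm_num) (by norm_num) (by norm_num) (by norm_num) (by norm_num) (by norm_num) (by norm_num) (by norm_num) (by norm_num) (by norm_num) (by norm_num) (by norm_num) (by norm_num) (by norm_num) (by norm_num) (by norm_num) (by norm_num) (by norm_num) (by norm_num) (by norm_num) (by norm_num) (by norm_num) (by norm_num)
    (cube_sqrt_geJ (s := 0.8403) (by norm_num) (by norm_num) (by norm_num) (by norm_num))
    (cube_sqrt_geJ (s := 0.9445) (by norm_num) (by norm_num) (by norm_num) (by norm_num))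
    (by norm_num) (by norm_num) (by norm_num) (by norm_num) (by norm_num) (by norm_num) (by norm_num) (by norm_num) (by norm_num) (by norm_num) (by norm_num) (by norm_num) (by norm_num) (by norm_num) (by norm_num) (by norm_num) (by norm_num) (by norm_num)
    (exp_neg_leJ (r := 0.827) 13 (by norm_num) (by norm_num) (by norm_num) (by norm_num))
    (exp_neg_leJ (r := 0.765) 9 (by norm_num) (by norm_num) (by norm_num) (by norm_num))
    (exp_neg_leJ (r := 0.99) 14 (by norm_num) (by norm_num) (by norm_num) (by norm_num))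
    (exp_neg_leJ (r := 0.99) 14 (by norm_num) (by norm_num) (by norm_num) (by norm_num))
    (exp_neg_leJ (r := 0.99) 14 (by norm_num) (by norm_num) (by norm_num) (by norm_num))
    (exp_neg_leJ (r := 0.99) 14 (by norm_num) (by norm_num) (by norm_num) (by norm_num))
    (exp_neg_leJ (r := 0.99) 14 (by norm_num) (by norm_num) (by norm_num) (by norm_num))
    (exp_neg_leJ (r := 0.99) 14 (by norm_num) (by norm_num) (by norm_num) (by norm_num))
    (by norm_num)

theorem JP2_c {β x y κ : ℝ} (hβ : 0 < β) (hx : 0 < x) (hκ : κ = ‖(x + y * I : ℂ)‖ * Real.exp y)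
    (hκ0 : 0 < κ) (hR : β * (10.4 * (1 + κ ^ 2)) ≤ κ) (hx1 : 0.16 ≤ x) (hx2 : x ≤ 1.105) (hy1 : 0.32 ≤ y) (hy2 : y ≤ 0.39) :
    ‖HH β (x + y * I) - 1‖ ≤ 0.03 := by
  have hw : Real.exp y ≤ 1.477 := (Real.exp_le_exp.2 hy2).trans exp_wc
  have hya : |y| ≤ 0.39 := by rw [abs_le]; constructor <;> linarith
  have hym : -0 ≤ y := by linarith
  have h20 := bN20 (N := 20.8) (by norm_num) (by norm_num) hβ hκ0 hR
  rcases le_total x 0.38 with f0 | g0
  · exact epsOf hβ (bN 10.4 0.5446 1.477 0.8044 21.29 0.38 0.39 (by norm_num) hβ hx hκ hκ0 hR f0 hya hw (by norm_num) (by norm_num) (by norm_num) (by norm_num) (by norm_num) (by norm_num)) (by norm_num) (by norm_num) (bxc0 hβ (bN 10.4 0.5446 1.477 0.8044 21.29 0.38 0.39 (by norm_num) hβ hx hκ hκ0 hR f0 hya hw (by norm_num) (by norm_num) (by norm_num) (by norm_num) (by norm_num) (by norm_num)) hx1 f0 hym hy2)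
  rcases le_total x 0.63 with f1 | g1
  · exact epsOf hβ h20 (by norm_num) (by norm_num) (bxc1 hβ h20 g0 f1 hym hy2)
  rcases le_total x 0.88 with f2 | g2
  · exact epsOf hβ h20 (by norm_num) (by norm_num) (bxc2 hβ h20 g1 f2 hym hy2)
  exact epsOf hβ h20 (by norm_num) (by norm_num) (bxc3 hβ h20 g2 hx2 hym hy2)

private theorem exp_wd : Real.exp 0.43 ≤ 1.5373 := by
  have h := Real.exp_bound' (x := 0.43) (by norm_num) (by norm_num) (n := 7) (by norm_num)
  refine h.trans ?_
  norm_num [Finset.sum_range_succ, Nat.factorial]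

private theorem bxd0 {β x y : ℝ} (hβ : 0 < β) (hN : β * 20.84 ≤ 1) (hx1 : 0.25 ≤ x) (hx2 : x ≤ 0.43)
    (hy1 : -0 ≤ y) (hy2 : y ≤ 0.43) : ‖HH β (x + y * I) - 1‖ ≤ 0.6109 * β := by
  refine J_box 0.25 0.43 0 0.43 0.43 0.886 0.6082 1.4933 1.4653 0.4876 4.5651 20.84 0.6865 2.484 1.36 1.2547 0.4429 0.3416 1.0938 3.8073 0.4325 0.8022 0.2264 1.5326 0.00009806 0.0008104 0.0000003101 0.0000003101 0.0001219 0.0000003101 0.008941 0.0000003101 0.6109
    hβ hN hx1 hx2 hy1 hy2 (by norm_num) (by norm_num) (by norm_num) (by norm_num) (by norm_num) (by norm_num) (by norm_num) (by norm_num) (by norm_num) (by norm_num) (by norm_num) (by norm_num) (by norm_num) (by norm_num) (by norm_num) (by norm_num) (by norm_num) (by norm_num) (by norm_num) (by norm_num) (by norm_num) (by norm_num) (by norm_num) (by norm_num)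
    (cube_sqrt_geJ (s := 0.8781) (by norm_num) (by norm_num) (by norm_num) (by norm_num))
    (cube_sqrt_geJ (s := 0.957) (by norm_num) (by norm_num) (by norm_num) (by norm_num))
    (by norm_num) (by norm_num) (by norm_num) (by norm_num) (by norm_num) (by norm_num) (by norm_num) (by norm_num) (by norm_num) (by norm_num) (by norm_num) (by norm_num) (by norm_num) (by norm_num) (by norm_num) (by norm_num) (by norm_num) (by norm_num)
    (exp_neg_leJ (r := 0.23) 9 (by norm_num) (by norm_num) (by norm_num) (by norm_num))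
    (exp_neg_leJ (r := 0.118) 7 (by norm_num) (by norm_num) (by norm_num) (by norm_num))
    (exp_neg_leJ (r := 0.99) 14 (by norm_num) (by norm_num) (by norm_num) (by norm_num))
    (exp_neg_leJ (r := 0.99) 14 (by norm_num) (by norm_num) (by norm_num) (by norm_num))
    (exp_neg_leJ (r := 0.013) 9 (by norm_num) (by norm_num) (by norm_num) (by norm_num))
    (exp_neg_leJ (r := 0.99) 14 (by norm_num) (by norm_num) (by norm_num) (by norm_num))
    (exp_neg_leJ (r := 0.718) 4 (by norm_num) (by norm_num) (by norm_num) (by norm_num))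
    (exp_neg_leJ (r := 0.99) 14 (by norm_num) (by norm_num) (by norm_num) (by norm_num))
    (by norm_num)

private theorem bxd1 {β x y : ℝ} (hβ : 0 < β) (hN : β * 20.8 ≤ 1) (hx1 : 0.43 ≤ x) (hx2 : x ≤ 0.66)
    (hy1 : -0 ≤ y) (hy2 : y ≤ 0.43) : ‖HH β (x + y * I) - 1‖ ≤ 0.6224 * β := by
  refine J_box 0.43 0.66 0 0.43 0.43 1.0128 0.7878 1.575 1.2313 0.5007 4.5608 20.8 0.7779 2.86 1.42 1.1662 0.5063 0.375 1.1554 3.6879 0.52 1.0515 0.5864 1.4044 0.00002671 0.0004108 0.0000003101 0.0000003101 0.00002013 0.0000003101 0.000005046 0.0000003101 0.6224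
    hβ hN hx1 hx2 hy1 hy2 (by norm_num) (by norm_num) (by norm_num) (by norm_num) (by norm_num) (by norm_num) (by norm_num) (by norm_num) (by norm_num) (by norm_num) (by norm_num) (by norm_num) (by norm_num) (by norm_num) (by norm_num) (by norm_num) (by norm_num) (by norm_num) (by norm_num) (by norm_num) (by norm_num) (by norm_num) (by norm_num) (by norm_num)
    (cube_sqrt_geJ (s := 0.8606) (by norm_num) (by norm_num) (by norm_num) (by norm_num))
    (cube_sqrt_geJ (s := 0.9511) (by norm_num) (by norm_num) (by norm_num) (by norm_num))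
    (by norm_num) (by norm_num) (by norm_num) (by norm_num) (by norm_num) (by norm_num) (by norm_num) (by norm_num) (by norm_num) (by norm_num) (by norm_num) (by norm_num) (by norm_num) (by norm_num) (by norm_num) (by norm_num) (by norm_num) (by norm_num)
    (exp_neg_leJ (r := 0.531) 10 (by norm_num) (by norm_num) (by norm_num) (by norm_num))
    (exp_neg_leJ (r := 0.799) 7 (by norm_num) (by norm_num) (by norm_num) (by norm_num))
    (exp_neg_leJ (r := 0.99) 14 (by norm_num) (by norm_num) (by norm_num) (by norm_num))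
    (exp_neg_leJ (r := 0.99) 14 (by norm_num) (by norm_num) (by norm_num) (by norm_num))
    (exp_neg_leJ (r := 0.815) 10 (by norm_num) (by norm_num) (by norm_num) (by norm_num))
    (exp_neg_leJ (r := 0.99) 14 (by norm_num) (by norm_num) (by norm_num) (by norm_num))
    (exp_neg_leJ (r := 0.197) 12 (by norm_num) (by norm_num) (by norm_num) (by norm_num))
    (exp_neg_leJ (r := 0.99) 14 (by norm_num) (by norm_num) (by norm_num) (by norm_num))
    (by norm_num)

private theorem bxd2 {β x y : ℝ} (hβ : 0 < β) (hN : β * 20.8 ≤ 1) (hx1 : 0.66 ≤ x) (hx2 : x ≤ 0.89)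
    (hy1 : -0 ≤ y) (hy2 : y ≤ 0.43) : ‖HH β (x + y * I) - 1‖ ≤ 0.6136 * β := by
  refine J_box 0.66 0.89 0 0.43 0.43 1.1747 0.9885 1.6844 1.0194 0.5178 4.5608 20.8 0.8415 3.166 1.464 1.0778 0.5873 0.4225 1.2342 3.5629 0.6317 1.3699 1.0464 1.3188 0.000004956 0.000153 0.0000003101 0.0000003101 0.000001968 0.0000003101 0.0000003101 0.0000003101 0.6136
    hβ hN hx1 hx2 hy1 hy2 (by norm_num) (by norm_num) (by norm_num) (by norm_num) (by norm_num) (by norm_num) (by norm_num) (by norm_num) (by norm_num) (by norm_num) (by norm_num) (by norm_num) (by norm_num) (by norm_num) (by norm_num) (by norm_num) (by norm_num) (by norm_num) (by norm_num) (by norm_num) (by norm_num) (by norm_num) (by norm_num) (by norm_num)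
    (cube_sqrt_geJ (s := 0.8482) (by norm_num) (by norm_num) (by norm_num) (by norm_num))
    (cube_sqrt_geJ (s := 0.947) (by norm_num) (by norm_num) (by norm_num) (by norm_num))
    (by norm_num) (by norm_num) (by norm_num) (by norm_num) (by norm_num) (by norm_num) (by norm_num) (by norm_num) (by norm_num) (by norm_num) (by norm_num) (by norm_num) (by norm_num) (by norm_num) (by norm_num) (by norm_num) (by norm_num) (by norm_num)
    (exp_neg_leJ (r := 0.215) 12 (by norm_num) (by norm_num) (by norm_num) (by norm_num))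
    (exp_neg_leJ (r := 0.787) 8 (by norm_num) (by norm_num) (by norm_num) (by norm_num))
    (exp_neg_leJ (r := 0.99) 14 (by norm_num) (by norm_num) (by norm_num) (by norm_num))
    (exp_neg_leJ (r := 0.99) 14 (by norm_num) (by norm_num) (by norm_num) (by norm_num))
    (exp_neg_leJ (r := 0.139) 13 (by norm_num) (by norm_num) (by norm_num) (by norm_num))
    (exp_neg_leJ (r := 0.99) 14 (by norm_num) (by norm_num) (by norm_num) (by norm_num))
    (exp_neg_leJ (r := 0.99) 14 (by norm_num) (by norm_num) (by norm_num) (by norm_num))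
    (exp_neg_leJ (r := 0.99) 14 (by norm_num) (by norm_num) (by norm_num) (by norm_num))
    (by norm_num)

private theorem bxd3 {β x y : ℝ} (hβ : 0 < β) (hN : β * 20.8 ≤ 1) (hx1 : 0.89 ≤ x) (hx2 : x ≤ 1.03)
    (hy1 : -0 ≤ y) (hy2 : y ≤ 0.43) : ‖HH β (x + y * I) - 1‖ ≤ 0.5044 * β := by
  refine J_box 0.89 1.03 0 0.43 0.43 1.3367 1.1162 1.7624 0.8591 0.5297 4.5608 20.8 0.8351 3.133 1.459 1.0239 0.6683 0.4823 1.3129 3.4852 0.7434 1.6884 1.5064 1.4317 0.0000009212 0.00004402 0.0000003101 0.0000003101 0.0000003101 0.0000003101 0.0000003101 0.0000003101 0.5044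
    hβ hN hx1 hx2 hy1 hy2 (by norm_num) (by norm_num) (by norm_num) (by norm_num) (by norm_num) (by norm_num) (by norm_num) (by norm_num) (by norm_num) (by norm_num) (by norm_num) (by norm_num) (by norm_num) (by norm_num) (by norm_num) (by norm_num) (by norm_num) (by norm_num) (by norm_num) (by norm_num) (by norm_num) (by norm_num) (by norm_num) (by norm_num)
    (cube_sqrt_geJ (s := 0.8494) (by norm_num) (by norm_num) (by norm_num) (by norm_num))
    (cube_sqrt_geJ (s := 0.9474) (by norm_num) (by norm_num) (by norm_num) (by norm_num))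
    (by norm_num) (by norm_num) (by norm_num) (by norm_num) (by norm_num) (by norm_num) (by norm_num) (by norm_num) (by norm_num) (by norm_num) (by norm_num) (by norm_num) (by norm_num) (by norm_num) (by norm_num) (by norm_num) (by norm_num) (by norm_num)
    (exp_neg_leJ (r := 0.9) 13 (by norm_num) (by norm_num) (by norm_num) (by norm_num))
    (exp_neg_leJ (r := 0.031) 10 (by norm_num) (by norm_num) (by norm_num) (by norm_num))
    (exp_neg_leJ (r := 0.99) 14 (by norm_num) (by norm_num) (by norm_num) (by norm_num))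
    (exp_neg_leJ (r := 0.99) 14 (by norm_num) (by norm_num) (by norm_num) (by norm_num))
    (exp_neg_leJ (r := 0.99) 14 (by norm_num) (by norm_num) (by norm_num) (by norm_num))
    (exp_neg_leJ (r := 0.99) 14 (by norm_num) (by norm_num) (by norm_num) (by norm_num))
    (exp_neg_leJ (r := 0.99) 14 (by norm_num) (by norm_num) (by norm_num) (by norm_num))
    (exp_neg_leJ (r := 0.99) 14 (by norm_num) (by norm_num) (by norm_num) (by norm_num))
    (by norm_num)

theorem JP2_d {β x y κ : ℝ} (hβ : 0 < β) (hx : 0 < x) (hκ : κ = ‖(x + y * I : ℂ)‖ * Real.exp y)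
    (hκ0 : 0 < κ) (hR : β * (10.4 * (1 + κ ^ 2)) ≤ κ) (hx1 : 0.25 ≤ x) (hx2 : x ≤ 1.03) (hy1 : 0.39 ≤ y) (hy2 : y ≤ 0.43) :
    ‖HH β (x + y * I) - 1‖ ≤ 0.03 := by
  have hw : Real.exp y ≤ 1.5373 := (Real.exp_le_exp.2 hy2).trans exp_wd
  have hya : |y| ≤ 0.43 := by rw [abs_le]; constructor <;> linarith
  have hym : -0 ≤ y := by linarith
  have h20 := bN20 (N := 20.8) (by norm_num) (by norm_num) hβ hκ0 hR
  rcases le_total x 0.43 with f0 | g0
  · exact epsOf hβ (bN 10.4 0.6082 1.5373 0.935 20.84 0.43 0.43 (by norm_num) hβ hx hκ hκ0 hR f0 hya hw (by norm_num) (by norm_num) (by norm_num) (by norm_num) (by norm_num) (by norm_num)) (by norm_num) (by norm_num) (bxd0 hβ (bN 10.4 0.6082 1.5373 0.935 20.84 0.43 0.43 (by norm_num) hβ hx hκ hκ0 hR f0 hya hw (by norm_num) (by norm_num) (by norm_num) (by norm_num) (by norm_num) (by norm_num)) hx1 f0 hym hy2)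
  rcases le_total x 0.66 with f1 | g1
  · exact epsOf hβ h20 (by norm_num) (by norm_num) (bxd1 hβ h20 g0 f1 hym hy2)
  rcases le_total x 0.89 with f2 | g2
  · exact epsOf hβ h20 (by norm_num) (by norm_num) (bxd2 hβ h20 g1 f2 hym hy2)
  exact epsOf hβ h20 (by norm_num) (by norm_num) (bxd3 hβ h20 g2 hx2 hym hy2)

private theorem exp_we : Real.exp 0.46 ≤ 1.5841 := by
  have h := Real.exp_bound' (x := 0.46) (by norm_num) (by norm_num) (n := 7) (by norm_num)
  refine h.trans ?_
  norm_num [Finset.sum_range_succ, Nat.factorial]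

private theorem bxe0 {β x y : ℝ} (hβ : 0 < β) (hN : β * 20.8 ≤ 1) (hx1 : 0.32 ≤ x) (hx2 : x ≤ 0.49)
    (hy1 : -0 ≤ y) (hy2 : y ≤ 0.46) : ‖HH β (x + y * I) - 1‖ ≤ 0.6173 * β := by
  refine J_box 0.32 0.49 0 0.46 0.46 0.9353 0.6721 1.5401 1.372 0.4951 4.5608 20.8 0.7186 2.608 1.381 1.2316 0.4676 0.3556 1.1178 3.7715 0.4635 0.8961 0.2377 1.3575 0.00005977 0.0006138 0.0000003101 0.0000003101 0.00006511 0.0000003101 0.007147 0.0000003101 0.6173
    hβ hN hx1 hx2 hy1 hy2 (by norm_num) (by norm_num) (by norm_num) (by norm_num) (by norm_num) (by norm_num) (by norm_num) (by norm_num) (by norm_num) (by norm_num) (by norm_num) (by norm_num) (by norm_num) (by norm_num) (by norm_num) (by norm_num) (by norm_num) (by norm_num) (by norm_num) (by norm_num) (by norm_num) (by norm_num) (by norm_num) (by norm_num)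
    (cube_sqrt_geJ (s := 0.872) (by norm_num) (by norm_num) (by norm_num) (by norm_num))
    (cube_sqrt_geJ (s := 0.9549) (by norm_num) (by norm_num) (by norm_num) (by norm_num))
    (by norm_num) (by norm_num) (by norm_num) (by norm_num) (by norm_num) (by norm_num) (by norm_num) (by norm_num) (by norm_num) (by norm_num) (by norm_num) (by norm_num) (by norm_num) (by norm_num) (by norm_num) (by norm_num) (by norm_num) (by norm_num)
    (exp_neg_leJ (r := 0.726) 9 (by norm_num) (by norm_num) (by norm_num) (by norm_num))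
    (exp_neg_leJ (r := 0.396) 7 (by norm_num) (by norm_num) (by norm_num) (by norm_num))
    (exp_neg_leJ (r := 0.99) 14 (by norm_num) (by norm_num) (by norm_num) (by norm_num))
    (exp_neg_leJ (r := 0.99) 14 (by norm_num) (by norm_num) (by norm_num) (by norm_num))
    (exp_neg_leJ (r := 0.64) 9 (by norm_num) (by norm_num) (by norm_num) (by norm_num))
    (exp_neg_leJ (r := 0.99) 14 (by norm_num) (by norm_num) (by norm_num) (by norm_num))
    (exp_neg_leJ (r := 0.944) 4 (by norm_num) (by norm_num) (by norm_num) (by norm_num))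
    (exp_neg_leJ (r := 0.99) 14 (by norm_num) (by norm_num) (by norm_num) (by norm_num))
    (by norm_num)

private theorem bxe1 {β x y : ℝ} (hβ : 0 < β) (hN : β * 20.8 ≤ 1) (hx1 : 0.49 ≤ x) (hx2 : x ≤ 0.7)
    (hy1 : -0 ≤ y) (hy2 : y ≤ 0.46) : ‖HH β (x + y * I) - 1‖ ≤ 0.6198 * β := by
  refine J_box 0.49 0.7 0 0.46 0.46 1.055 0.8377 1.6192 1.1743 0.5077 4.5608 20.8 0.7941 2.934 1.431 1.1508 0.5274 0.3878 1.176 3.6621 0.5461 1.1315 0.5777 1.2474 0.00001729 0.0003141 0.0000003101 0.0000003101 0.00001168 0.0000003101 0.000006047 0.0000003101 0.6198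
    hβ hN hx1 hx2 hy1 hy2 (by norm_num) (by norm_num) (by norm_num) (by norm_num) (by norm_num) (by norm_num) (by norm_num) (by norm_num) (by norm_num) (by norm_num) (by norm_num) (by norm_num) (by norm_num) (by norm_num) (by norm_num) (by norm_num) (by norm_num) (by norm_num) (by norm_num) (by norm_num) (by norm_num) (by norm_num) (by norm_num) (by norm_num)
    (cube_sqrt_geJ (s := 0.8574) (by norm_num) (by norm_num) (by norm_num) (by norm_num))
    (cube_sqrt_geJ (s := 0.9501) (by norm_num) (by norm_num) (by norm_num) (by norm_num))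
    (by norm_num) (by norm_num) (by norm_num) (by norm_num) (by norm_num) (by norm_num) (by norm_num) (by norm_num) (by norm_num) (by norm_num) (by norm_num) (by norm_num) (by norm_num) (by norm_num) (by norm_num) (by norm_num) (by norm_num) (by norm_num)
    (exp_neg_leJ (r := 0.969) 10 (by norm_num) (by norm_num) (by norm_num) (by norm_num))
    (exp_neg_leJ (r := 0.066) 8 (by norm_num) (by norm_num) (by norm_num) (by norm_num))
    (exp_neg_leJ (r := 0.99) 14 (by norm_num) (by norm_num) (by norm_num) (by norm_num))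
    (exp_neg_leJ (r := 0.99) 14 (by norm_num) (by norm_num) (by norm_num) (by norm_num))
    (exp_neg_leJ (r := 0.358) 11 (by norm_num) (by norm_num) (by norm_num) (by norm_num))
    (exp_neg_leJ (r := 0.99) 14 (by norm_num) (by norm_num) (by norm_num) (by norm_num))
    (exp_neg_leJ (r := 0.016) 12 (by norm_num) (by norm_num) (by norm_num) (by norm_num))
    (exp_neg_leJ (r := 0.99) 14 (by norm_num) (by norm_num) (by norm_num) (by norm_num))
    (by norm_num)

private theorem bxe2 {β x y : ℝ} (hβ : 0 < β) (hN : β * 20.8 ≤ 1) (hx1 : 0.7 ≤ x) (hx2 : x ≤ 0.92)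
    (hy1 : -0 ≤ y) (hy2 : y ≤ 0.46) : ‖HH β (x + y * I) - 1‖ ≤ 0.623 * β := by
  refine J_box 0.7 0.92 0 0.46 0.46 1.2029 1.0286 1.7257 0.9958 0.5241 4.5608 20.8 0.8552 3.237 1.473 1.0662 0.6014 0.4299 1.2478 3.5428 0.6481 1.4223 0.9977 1.1484 0.000003694 0.0001313 0.0000003101 0.0000003101 0.000001399 0.0000003101 0.0000003101 0.0000003101 0.623
    hβ hN hx1 hx2 hy1 hy2 (by norm_num) (by norm_num) (by norm_num) (by norm_num) (by norm_num) (by norm_num) (by norm_num) (by norm_num) (by norm_num) (by norm_num) (by norm_num) (by norm_num) (by norm_num) (by norm_num) (by norm_num) (by norm_num) (by norm_num) (by norm_num) (by norm_num) (by norm_num) (by norm_num) (by norm_num) (by norm_num) (by norm_num)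
    (cube_sqrt_geJ (s := 0.8455) (by norm_num) (by norm_num) (by norm_num) (by norm_num))
    (cube_sqrt_geJ (s := 0.9461) (by norm_num) (by norm_num) (by norm_num) (by norm_num))
    (by norm_num) (by norm_num) (by norm_num) (by norm_num) (by norm_num) (by norm_num) (by norm_num) (by norm_num) (by norm_num) (by norm_num) (by norm_num) (by norm_num) (by norm_num) (by norm_num) (by norm_num) (by norm_num) (by norm_num) (by norm_num)
    (exp_neg_leJ (r := 0.509) 12 (by norm_num) (by norm_num) (by norm_num) (by norm_num))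
    (exp_neg_leJ (r := 0.941) 8 (by norm_num) (by norm_num) (by norm_num) (by norm_num))
    (exp_neg_leJ (r := 0.99) 14 (by norm_num) (by norm_num) (by norm_num) (by norm_num))
    (exp_neg_leJ (r := 0.99) 14 (by norm_num) (by norm_num) (by norm_num) (by norm_num))
    (exp_neg_leJ (r := 0.48) 13 (by norm_num) (by norm_num) (by norm_num) (by norm_num))
    (exp_neg_leJ (r := 0.99) 14 (by norm_num) (by norm_num) (by norm_num) (by norm_num))
    (exp_neg_leJ (r := 0.99) 14 (by norm_num) (by norm_num) (by norm_num) (by norm_num))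
    (exp_neg_leJ (r := 0.99) 14 (by norm_num) (by norm_num) (by norm_num) (by norm_num))
    (by norm_num)

private theorem bxe3 {β x y : ℝ} (hβ : 0 < β) (hN : β * 20.8 ≤ 1) (hx1 : 0.92 ≤ x) (hx2 : x ≤ 0.99)
    (hy1 : -0 ≤ y) (hy2 : y ≤ 0.46) : ‖HH β (x + y * I) - 1‖ ≤ 0.4495 * β := by
  refine J_box 0.92 0.99 0 0.46 0.46 1.3578 1.0917 1.7641 0.8395 0.5299 4.5608 20.8 0.8041 2.981 1.438 1.0393 0.6788 0.4969 1.3232 3.5042 0.7549 1.7269 1.4377 1.4169 0.0000007383 0.00003248 0.0000003101 0.0000003101 0.0000003101 0.0000003101 0.0000003101 0.0000003101 0.4495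
    hβ hN hx1 hx2 hy1 hy2 (by norm_num) (by norm_num) (by norm_num) (by norm_num) (by norm_num) (by norm_num) (by norm_num) (by norm_num) (by norm_num) (by norm_num) (by norm_num) (by norm_num) (by norm_num) (by norm_num) (by norm_num) (by norm_num) (by norm_num) (by norm_num) (by norm_num) (by norm_num) (by norm_num) (by norm_num) (by norm_num) (by norm_num)
    (cube_sqrt_geJ (s := 0.8555) (by norm_num) (by norm_num) (by norm_num) (by norm_num))
    (cube_sqrt_geJ (s := 0.9494) (by norm_num) (by norm_num) (by norm_num) (by norm_num))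
    (by norm_num) (by norm_num) (by norm_num) (by norm_num) (by norm_num) (by norm_num) (by norm_num) (by norm_num) (by norm_num) (by norm_num) (by norm_num) (by norm_num) (by norm_num) (by norm_num) (by norm_num) (by norm_num) (by norm_num) (by norm_num)
    (exp_neg_leJ (r := 0.119) 14 (by norm_num) (by norm_num) (by norm_num) (by norm_num))
    (exp_neg_leJ (r := 0.335) 10 (by norm_num) (by norm_num) (by norm_num) (by norm_num))
    (exp_neg_leJ (r := 0.99) 14 (by norm_num) (by norm_num) (by norm_num) (by norm_num))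
    (exp_neg_leJ (r := 0.99) 14 (by norm_num) (by norm_num) (by norm_num) (by norm_num))
    (exp_neg_leJ (r := 0.99) 14 (by norm_num) (by norm_num) (by norm_num) (by norm_num))
    (exp_neg_leJ (r := 0.99) 14 (by norm_num) (by norm_num) (by norm_num) (by norm_num))
    (exp_neg_leJ (r := 0.99) 14 (by norm_num) (by norm_num) (by norm_num) (by norm_num))
    (exp_neg_leJ (r := 0.99) 14 (by norm_num) (by norm_num) (by norm_num) (by norm_num))
    (by norm_num)

theorem JP2_e {β x y κ : ℝ} (hβ : 0 < β) (hx : 0 < x) (hκ : κ = ‖(x + y * I : ℂ)‖ * Real.exp y)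
    (hκ0 : 0 < κ) (hR : β * (10.4 * (1 + κ ^ 2)) ≤ κ) (hx1 : 0.32 ≤ x) (hx2 : x ≤ 0.99) (hy1 : 0.43 ≤ y) (hy2 : y ≤ 0.46) :
    ‖HH β (x + y * I) - 1‖ ≤ 0.03 := by
  have hw : Real.exp y ≤ 1.5841 := (Real.exp_le_exp.2 hy2).trans exp_we
  have hya : |y| ≤ 0.46 := by rw [abs_le]; constructor <;> linarith
  have hym : -0 ≤ y := by linarith
  have h20 := bN20 (N := 20.8) (by norm_num) (by norm_num) hβ hκ0 hR
  rcases le_total x 0.49 with f0 | g0
  · exact epsOf hβ h20 (by norm_num) (by norm_num) (bxe0 hβ h20 hx1 f0 hym hy2)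
  rcases le_total x 0.7 with f1 | g1
  · exact epsOf hβ h20 (by norm_num) (by norm_num) (bxe1 hβ h20 g0 f1 hym hy2)
  rcases le_total x 0.92 with f2 | g2
  · exact epsOf hβ h20 (by norm_num) (by norm_num) (bxe2 hβ h20 g1 f2 hym hy2)
  exact epsOf hβ h20 (by norm_num) (by norm_num) (bxe3 hβ h20 g2 hx2 hym hy2)

private theorem exp_wf : Real.exp 0.5 ≤ 1.6488 := by
  have h := Real.exp_bound' (x := 0.5) (by norm_num) (by norm_num) (n := 7) (by norm_num)
  refine h.trans ?_
  norm_num [Finset.sum_range_succ, Nat.factorial]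

private theorem bxf0 {β x y : ℝ} (hβ : 0 < β) (hN : β * 20.8 ≤ 1) (hx1 : 0.385 ≤ x) (hx2 : x ≤ 0.495)
    (hy1 : -0 ≤ y) (hy2 : y ≤ 0.5) : ‖HH β (x + y * I) - 1‖ ≤ 0.6232 * β := by
  refine J_box 0.385 0.495 0 0.5 0.5 0.9811 0.7036 1.5796 1.2934 0.5014 4.5608 20.8 0.7172 2.602 1.38 1.2297 0.4905 0.3732 1.14 3.7615 0.491 0.982 0.1961 1.2134 0.0000371 0.0004261 0.0000003101 0.0000003101 0.00003673 0.0000003101 0.01695 0.0000003101 0.6232
    hβ hN hx1 hx2 hy1 hy2 (by norm_num) (by norm_num) (by norm_num) (by norm_num) (by norm_num) (by norm_num) (by norm_num) (by norm_num) (by norm_num) (by norm_num) (by norm_num) (by norm_num) (by norm_num) (by norm_num) (by norm_num) (by norm_num) (by norm_num) (by norm_num) (by norm_num) (by norm_num) (by norm_num) (by norm_num) (by norm_num) (by norm_num)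
    (cube_sqrt_geJ (s := 0.8723) (by norm_num) (by norm_num) (by norm_num) (by norm_num))
    (cube_sqrt_geJ (s := 0.955) (by norm_num) (by norm_num) (by norm_num) (by norm_num))
    (by norm_num) (by norm_num) (by norm_num) (by norm_num) (by norm_num) (by norm_num) (by norm_num) (by norm_num) (by norm_num) (by norm_num) (by norm_num) (by norm_num) (by norm_num) (by norm_num) (by norm_num) (by norm_num) (by norm_num) (by norm_num)
    (exp_neg_leJ (r := 0.202) 10 (by norm_num) (by norm_num) (by norm_num) (by norm_num))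
    (exp_neg_leJ (r := 0.762) 7 (by norm_num) (by norm_num) (by norm_num) (by norm_num))
    (exp_neg_leJ (r := 0.99) 14 (by norm_num) (by norm_num) (by norm_num) (by norm_num))
    (exp_neg_leJ (r := 0.99) 14 (by norm_num) (by norm_num) (by norm_num) (by norm_num))
    (exp_neg_leJ (r := 0.212) 10 (by norm_num) (by norm_num) (by norm_num) (by norm_num))
    (exp_neg_leJ (r := 0.99) 14 (by norm_num) (by norm_num) (by norm_num) (by norm_num))
    (exp_neg_leJ (r := 0.078) 4 (by norm_num) (by norm_num) (by norm_num) (by norm_num))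
    (exp_neg_leJ (r := 0.99) 14 (by norm_num) (by norm_num) (by norm_num) (by norm_num))
    (by norm_num)

private theorem bxf1 {β x y : ℝ} (hβ : 0 < β) (hN : β * 20.8 ≤ 1) (hx1 : 0.495 ≤ x) (hx2 : x ≤ 0.675)
    (hy1 : -0 ≤ y) (hy2 : y ≤ 0.5) : ‖HH β (x + y * I) - 1‖ ≤ 0.6212 * β := by
  refine J_box 0.495 0.675 0 0.5 0.5 1.0586 0.8401 1.6449 1.1776 0.5117 4.5608 20.8 0.7936 2.932 1.431 1.1605 0.5292 0.3892 1.1777 3.6692 0.5444 1.1343 0.4161 1.0624 0.00001659 0.0003051 0.0000003101 0.0000003101 0.0000121 0.0000003101 0.0001746 0.0000003101 0.6212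
    hβ hN hx1 hx2 hy1 hy2 (by norm_num) (by norm_num) (by norm_num) (by norm_num) (by norm_num) (by norm_num) (by norm_num) (by norm_num) (by norm_num) (by norm_num) (by norm_num) (by norm_num) (by norm_num) (by norm_num) (by norm_num) (by norm_num) (by norm_num) (by norm_num) (by norm_num) (by norm_num) (by norm_num) (by norm_num) (by norm_num) (by norm_num)
    (cube_sqrt_geJ (s := 0.8575) (by norm_num) (by norm_num) (by norm_num) (by norm_num))
    (cube_sqrt_geJ (s := 0.9501) (by norm_num) (by norm_num) (by norm_num) (by norm_num))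
    (by norm_num) (by norm_num) (by norm_num) (by norm_num) (by norm_num) (by norm_num) (by norm_num) (by norm_num) (by norm_num) (by norm_num) (by norm_num) (by norm_num) (by norm_num) (by norm_num) (by norm_num) (by norm_num) (by norm_num) (by norm_num)
    (exp_neg_leJ (r := 0.007) 11 (by norm_num) (by norm_num) (by norm_num) (by norm_num))
    (exp_neg_leJ (r := 0.095) 8 (by norm_num) (by norm_num) (by norm_num) (by norm_num))
    (exp_neg_leJ (r := 0.99) 14 (by norm_num) (by norm_num) (by norm_num) (by norm_num))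
    (exp_neg_leJ (r := 0.99) 14 (by norm_num) (by norm_num) (by norm_num) (by norm_num))
    (exp_neg_leJ (r := 0.323) 11 (by norm_num) (by norm_num) (by norm_num) (by norm_num))
    (exp_neg_leJ (r := 0.99) 14 (by norm_num) (by norm_num) (by norm_num) (by norm_num))
    (exp_neg_leJ (r := 0.654) 8 (by norm_num) (by norm_num) (by norm_num) (by norm_num))
    (exp_neg_leJ (r := 0.99) 14 (by norm_num) (by norm_num) (by norm_num) (by norm_num))
    (by norm_num)

private theorem bxf2 {β x y : ℝ} (hβ : 0 < β) (hN : β * 20.8 ≤ 1) (hx1 : 0.675 ≤ x) (hx2 : x ≤ 0.865)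
    (hy1 : -0 ≤ y) (hy2 : y ≤ 0.5) : ‖HH β (x + y * I) - 1‖ ≤ 0.6161 * β := by
  refine J_box 0.675 0.865 0 0.5 0.5 1.1853 0.9992 1.7316 1.0198 0.525 4.5608 20.8 0.843 3.173 1.465 1.0874 0.5926 0.4261 1.2393 3.5677 0.6318 1.3836 0.7761 0.9899 0.000004436 0.000142 0.0000003101 0.0000003101 0.000001964 0.0000003101 0.0000003101 0.0000003101 0.6161
    hβ hN hx1 hx2 hy1 hy2 (by norm_num) (by norm_num) (by norm_num) (by norm_num) (by norm_num) (by norm_num) (by norm_num) (by norm_num) (by norm_num) (by norm_num) (by norm_num) (by norm_num) (by norm_num) (by norm_num) (by norm_num) (by norm_num) (by norm_num) (by norm_num) (by norm_num) (by norm_num) (by norm_num) (by norm_num) (by norm_num) (by norm_num)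
    (cube_sqrt_geJ (s := 0.8479) (by norm_num) (by norm_num) (by norm_num) (by norm_num))
    (cube_sqrt_geJ (s := 0.9469) (by norm_num) (by norm_num) (by norm_num) (by norm_num))
    (by norm_num) (by norm_num) (by norm_num) (by norm_num) (by norm_num) (by norm_num) (by norm_num) (by norm_num) (by norm_num) (by norm_num) (by norm_num) (by norm_num) (by norm_num) (by norm_num) (by norm_num) (by norm_num) (by norm_num) (by norm_num)
    (exp_neg_leJ (r := 0.326) 12 (by norm_num) (by norm_num) (by norm_num) (by norm_num))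
    (exp_neg_leJ (r := 0.862) 8 (by norm_num) (by norm_num) (by norm_num) (by norm_num))
    (exp_neg_leJ (r := 0.99) 14 (by norm_num) (by norm_num) (by norm_num) (by norm_num))
    (exp_neg_leJ (r := 0.99) 14 (by norm_num) (by norm_num) (by norm_num) (by norm_num))
    (exp_neg_leJ (r := 0.141) 13 (by norm_num) (by norm_num) (by norm_num) (by norm_num))
    (exp_neg_leJ (r := 0.99) 14 (by norm_num) (by norm_num) (by norm_num) (by norm_num))
    (exp_neg_leJ (r := 0.99) 14 (by norm_num) (by norm_num) (by norm_num) (by norm_num))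
    (exp_neg_leJ (r := 0.99) 14 (by norm_num) (by norm_num) (by norm_num) (by norm_num))
    (by norm_num)

private theorem bxf3 {β x y : ℝ} (hβ : 0 < β) (hN : β * 20.8 ≤ 1) (hx1 : 0.865 ≤ x) (hx2 : x ≤ 0.96)
    (hy1 : -0 ≤ y) (hy2 : y ≤ 0.5) : ‖HH β (x + y * I) - 1‖ ≤ 0.4958 * β := by
  refine J_box 0.865 0.96 0 0.5 0.5 1.3191 1.0825 1.7809 0.8809 0.5324 4.5608 20.8 0.8207 3.061 1.449 1.0508 0.6595 0.4791 1.3043 3.5159 0.7241 1.6466 1.1561 1.1434 0.000001105 0.00004717 0.0000003101 0.0000003101 0.0000003101 0.0000003101 0.0000003101 0.0000003101 0.4958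
    hβ hN hx1 hx2 hy1 hy2 (by norm_num) (by norm_num) (by norm_num) (by norm_num) (by norm_num) (by norm_num) (by norm_num) (by norm_num) (by norm_num) (by norm_num) (by norm_num) (by norm_num) (by norm_num) (by norm_num) (by norm_num) (by norm_num) (by norm_num) (by norm_num) (by norm_num) (by norm_num) (by norm_num) (by norm_num) (by norm_num) (by norm_num)
    (cube_sqrt_geJ (s := 0.8523) (by norm_num) (by norm_num) (by norm_num) (by norm_num))
    (cube_sqrt_geJ (s := 0.9484) (by norm_num) (by norm_num) (by norm_num) (by norm_num))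
    (by norm_num) (by norm_num) (by norm_num) (by norm_num) (by norm_num) (by norm_num) (by norm_num) (by norm_num) (by norm_num) (by norm_num) (by norm_num) (by norm_num) (by norm_num) (by norm_num) (by norm_num) (by norm_num) (by norm_num) (by norm_num)
    (exp_neg_leJ (r := 0.717) 13 (by norm_num) (by norm_num) (by norm_num) (by norm_num))
    (exp_neg_leJ (r := 0.965) 9 (by norm_num) (by norm_num) (by norm_num) (by norm_num))
    (exp_neg_leJ (r := 0.99) 14 (by norm_num) (by norm_num) (by norm_num) (by norm_num))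
    (exp_neg_leJ (r := 0.99) 14 (by norm_num) (by norm_num) (by norm_num) (by norm_num))
    (exp_neg_leJ (r := 0.99) 14 (by norm_num) (by norm_num) (by norm_num) (by norm_num))
    (exp_neg_leJ (r := 0.99) 14 (by norm_num) (by norm_num) (by norm_num) (by norm_num))
    (exp_neg_leJ (r := 0.99) 14 (by norm_num) (by norm_num) (by norm_num) (by norm_num))
    (exp_neg_leJ (r := 0.99) 14 (by norm_num) (by norm_num) (by norm_num) (by norm_num))
    (by norm_num)

theorem JP2_f {β x y κ : ℝ} (hβ : 0 < β) (hx : 0 < x) (hκ : κ = ‖(x + y * I : ℂ)‖ * Real.exp y)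
    (hκ0 : 0 < κ) (hR : β * (10.4 * (1 + κ ^ 2)) ≤ κ) (hx1 : 0.385 ≤ x) (hx2 : x ≤ 0.96) (hy1 : 0.46 ≤ y) (hy2 : y ≤ 0.5) :
    ‖HH β (x + y * I) - 1‖ ≤ 0.03 := by
  have hw : Real.exp y ≤ 1.6488 := (Real.exp_le_exp.2 hy2).trans exp_wf
  have hya : |y| ≤ 0.5 := by rw [abs_le]; constructor <;> linarith
  have hym : -0 ≤ y := by linarith
  have h20 := bN20 (N := 20.8) (by norm_num) (by norm_num) hβ hκ0 hR
  rcases le_total x 0.495 with f0 | g0
  · exact epsOf hβ h20 (by norm_num) (by norm_num) (bxf0 hβ h20 hx1 f0 hym hy2)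
  rcases le_total x 0.675 with f1 | g1
  · exact epsOf hβ h20 (by norm_num) (by norm_num) (bxf1 hβ h20 g0 f1 hym hy2)
  rcases le_total x 0.865 with f2 | g2
  · exact epsOf hβ h20 (by norm_num) (by norm_num) (bxf2 hβ h20 g1 f2 hym hy2)
  exact epsOf hβ h20 (by norm_num) (by norm_num) (bxf3 hβ h20 g2 hx2 hym hy2)

private theorem exp_wg : Real.exp 0.53 ≤ 1.699 := by
  have h := Real.exp_bound' (x := 0.53) (by norm_num) (by norm_num) (n := 7) (by norm_num)
  refine h.trans ?_
  norm_num [Finset.sum_range_succ, Nat.factorial]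

private theorem bxg0 {β x y : ℝ} (hβ : 0 < β) (hN : β * 20.8 ≤ 1) (hx1 : 0.52 ≤ x) (hx2 : x ≤ 0.67)
    (hy1 : -0 ≤ y) (hy2 : y ≤ 0.53) : ‖HH β (x + y * I) - 1‖ ≤ 0.6137 * β := by
  refine J_box 0.52 0.67 0 0.53 0.53 1.0762 0.8543 1.6703 1.1576 0.5156 4.5608 20.8 0.7939 2.933 1.431 1.1624 0.538 0.3957 1.1862 3.6669 0.5535 1.1659 0.3375 0.9324 0.00001382 0.0002666 0.0000003101 0.0000003101 0.00001002 0.0000003101 0.0008948 0.0000003101 0.6137
    hβ hN hx1 hx2 hy1 hy2 (by norm_num) (by norm_num) (by norm_num) (by norm_num) (by norm_num) (by norm_num) (by norm_num) (by norm_num) (by norm_num) (by norm_num) (by norm_num) (by norm_num) (by norm_num) (by norm_num) (by norm_num) (by norm_num) (by norm_num) (by norm_num) (by norm_num) (by norm_num) (by norm_num) (by norm_num) (by norm_num) (by norm_num)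
    (cube_sqrt_geJ (s := 0.8575) (by norm_num) (by norm_num) (by norm_num) (by norm_num))
    (cube_sqrt_geJ (s := 0.9501) (by norm_num) (by norm_num) (by norm_num) (by norm_num))
    (by norm_num) (by norm_num) (by norm_num) (by norm_num) (by norm_num) (by norm_num) (by norm_num) (by norm_num) (by norm_num) (by norm_num) (by norm_num) (by norm_num) (by norm_num) (by norm_num) (by norm_num) (by norm_num) (by norm_num) (by norm_num)
    (exp_neg_leJ (r := 0.19) 11 (by norm_num) (by norm_num) (by norm_num) (by norm_num))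
    (exp_neg_leJ (r := 0.23) 8 (by norm_num) (by norm_num) (by norm_num) (by norm_num))
    (exp_neg_leJ (r := 0.99) 14 (by norm_num) (by norm_num) (by norm_num) (by norm_num))
    (exp_neg_leJ (r := 0.99) 14 (by norm_num) (by norm_num) (by norm_num) (by norm_num))
    (exp_neg_leJ (r := 0.512) 11 (by norm_num) (by norm_num) (by norm_num) (by norm_num))
    (exp_neg_leJ (r := 0.99) 14 (by norm_num) (by norm_num) (by norm_num) (by norm_num))
    (exp_neg_leJ (r := 0.019) 7 (by norm_num) (by norm_num) (by norm_num) (by norm_num))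
    (exp_neg_leJ (r := 0.99) 14 (by norm_num) (by norm_num) (by norm_num) (by norm_num))
    (by norm_num)

private theorem bxg1 {β x y : ℝ} (hβ : 0 < β) (hN : β * 20.8 ≤ 1) (hx1 : 0.67 ≤ x) (hx2 : x ≤ 0.84)
    (hy1 : -0 ≤ y) (hy2 : y ≤ 0.53) : ‖HH β (x + y * I) - 1‖ ≤ 0.6169 * β := by
  refine J_box 0.67 0.84 0 0.53 0.53 1.1818 0.9933 1.7455 1.0284 0.5271 4.5608 20.8 0.8405 3.161 1.463 1.097 0.5908 0.4253 1.2376 3.5769 0.6263 1.3736 0.6375 0.8545 0.000004607 0.0001443 0.0000003101 0.0000003101 0.000002201 0.0000003101 0.000001745 0.0000003101 0.6169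
    hβ hN hx1 hx2 hy1 hy2 (by norm_num) (by norm_num) (by norm_num) (by norm_num) (by norm_num) (by norm_num) (by norm_num) (by norm_num) (by norm_num) (by norm_num) (by norm_num) (by norm_num) (by norm_num) (by norm_num) (by norm_num) (by norm_num) (by norm_num) (by norm_num) (by norm_num) (by norm_num) (by norm_num) (by norm_num) (by norm_num) (by norm_num)
    (cube_sqrt_geJ (s := 0.8484) (by norm_num) (by norm_num) (by norm_num) (by norm_num))
    (cube_sqrt_geJ (s := 0.9471) (by norm_num) (by norm_num) (by norm_num) (by norm_num))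
    (by norm_num) (by norm_num) (by norm_num) (by norm_num) (by norm_num) (by norm_num) (by norm_num) (by norm_num) (by norm_num) (by norm_num) (by norm_num) (by norm_num) (by norm_num) (by norm_num) (by norm_num) (by norm_num) (by norm_num) (by norm_num)
    (exp_neg_leJ (r := 0.288) 12 (by norm_num) (by norm_num) (by norm_num) (by norm_num))
    (exp_neg_leJ (r := 0.846) 8 (by norm_num) (by norm_num) (by norm_num) (by norm_num))
    (exp_neg_leJ (r := 0.99) 14 (by norm_num) (by norm_num) (by norm_num) (by norm_num))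
    (exp_neg_leJ (r := 0.99) 14 (by norm_num) (by norm_num) (by norm_num) (by norm_num))
    (exp_neg_leJ (r := 0.027) 13 (by norm_num) (by norm_num) (by norm_num) (by norm_num))
    (exp_neg_leJ (r := 0.99) 14 (by norm_num) (by norm_num) (by norm_num) (by norm_num))
    (exp_neg_leJ (r := 0.259) 13 (by norm_num) (by norm_num) (by norm_num) (by norm_num))
    (exp_neg_leJ (r := 0.99) 14 (by norm_num) (by norm_num) (by norm_num) (by norm_num))
    (by norm_num)

private theorem bxg2 {β x y : ℝ} (hβ : 0 < β) (hN : β * 20.8 ≤ 1) (hx1 : 0.84 ≤ x) (hx2 : x ≤ 0.93)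
    (hy1 : -0 ≤ y) (hy2 : y ≤ 0.53) : ‖HH β (x + y * I) - 1‖ ≤ 0.5105 * β := by
  refine J_box 0.84 0.93 0 0.53 0.53 1.3015 1.0705 1.7905 0.9012 0.5339 4.5608 20.8 0.8226 3.071 1.451 1.0624 0.6507 0.4723 1.2958 3.5284 0.7089 1.609 0.9775 0.9847 0.000001326 0.00005428 0.0000003101 0.0000003101 0.0000003952 0.0000003101 0.0000003101 0.0000003101 0.5105
    hβ hN hx1 hx2 hy1 hy2 (by norm_num) (by norm_num) (by norm_num) (by norm_num) (by norm_num) (by norm_num) (by norm_num) (by norm_num) (by norm_num) (by norm_num) (by norm_num) (by norm_num) (by norm_num) (by norm_num) (by norm_num) (by norm_num) (by norm_num) (by norm_num) (by norm_num) (by norm_num) (by norm_num) (by norm_num) (by norm_num) (by norm_num)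
    (cube_sqrt_geJ (s := 0.8519) (by norm_num) (by norm_num) (by norm_num) (by norm_num))
    (cube_sqrt_geJ (s := 0.9483) (by norm_num) (by norm_num) (by norm_num) (by norm_num))
    (by norm_num) (by norm_num) (by norm_num) (by norm_num) (by norm_num) (by norm_num) (by norm_num) (by norm_num) (by norm_num) (by norm_num) (by norm_num) (by norm_num) (by norm_num) (by norm_num) (by norm_num) (by norm_num) (by norm_num) (by norm_num)
    (exp_neg_leJ (r := 0.534) 13 (by norm_num) (by norm_num) (by norm_num) (by norm_num))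
    (exp_neg_leJ (r := 0.823) 9 (by norm_num) (by norm_num) (by norm_num) (by norm_num))
    (exp_neg_leJ (r := 0.99) 14 (by norm_num) (by norm_num) (by norm_num) (by norm_num))
    (exp_neg_leJ (r := 0.99) 14 (by norm_num) (by norm_num) (by norm_num) (by norm_num))
    (exp_neg_leJ (r := 0.745) 14 (by norm_num) (by norm_num) (by norm_num) (by norm_num))
    (exp_neg_leJ (r := 0.99) 14 (by norm_num) (by norm_num) (by norm_num) (by norm_num))
    (exp_neg_leJ (r := 0.99) 14 (by norm_num) (by norm_num) (by norm_num) (by norm_num))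
    (exp_neg_leJ (r := 0.99) 14 (by norm_num) (by norm_num) (by norm_num) (by norm_num))
    (by norm_num)

theorem JP2_g {β x y κ : ℝ} (hβ : 0 < β) (hx : 0 < x) (hκ : κ = ‖(x + y * I : ℂ)‖ * Real.exp y)
    (hκ0 : 0 < κ) (hR : β * (10.4 * (1 + κ ^ 2)) ≤ κ) (hx1 : 0.52 ≤ x) (hx2 : x ≤ 0.93) (hy1 : 0.5 ≤ y) (hy2 : y ≤ 0.53) :
    ‖HH β (x + y * I) - 1‖ ≤ 0.03 := by
  have hw : Real.exp y ≤ 1.699 := (Real.exp_le_exp.2 hy2).trans exp_wg
  have hya : |y| ≤ 0.53 := by rw [abs_le]; constructor <;> linarith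
  have hym : -0 ≤ y := by linarith
  have h20 := bN20 (N := 20.8) (by norm_num) (by norm_num) hβ hκ0 hR
  rcases le_total x 0.67 with f0 | g0
  · exact epsOf hβ h20 (by norm_num) (by norm_num) (bxg0 hβ h20 hx1 f0 hym hy2)
  rcases le_total x 0.84 with f1 | g1
  · exact epsOf hβ h20 (by norm_num) (by norm_num) (bxg1 hβ h20 g0 f1 hym hy2)
  exact epsOf hβ h20 (by norm_num) (by norm_num) (bxg2 hβ h20 g1 hx2 hym hy2)

end Sok
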