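import Pool.Agent.Lib.MP_816dec_an.LDefs

/-!
MP_816dec_an, b = 1, `1.3 ≤ κ ≤ 4.7` (row A1-L): existence of the two saddles, the splitting point `c`.
-/

set_option autoImplicit false

open Complex Set Filter Topology MeasureTheory

namespace Sok

private noncomputable def lgF (h : ℝ) : ℝ := h * Real.exp (max h 0)

private theorem lgF_cont : Continuous lgF := by unfold lgF; fun_prop

private theorem lgF_mono : StrictMono lgF := by
  intro a b hab
  unfold lgF
  rcases le_total b 0 with hb | hb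
  · rw [max_eq_right hb, max_eq_right (hab.le.trans hb), Real.exp_zero, mul_one, mul_one]
    exact hab
  · rw [max_eq_left hb]
    rcases le_total a 0 with ha | ha
    · rw [max_eq_right ha, Real.exp_zero, mul_one]
      rcases lt_or_eq_of_le hb with h | h
      · exact lt_of_le_of_lt ha (by positivity)
      · rw [← h, zero_mul]; linarith
    · rw [max_eq_left ha]
      have h1 : Real.exp a ≤ Real.exp b := Real.exp_le_exp.2 hab.le
      have h2 := Real.exp_pos b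
      calc a * Real.exp a ≤ a * Real.exp b := mul_le_mul_of_nonneg_left h1 ha
        _ < b * Real.exp b := mul_lt_mul_of_pos_right hab h2

private theorem lgF_surj : Function.Surjective lgF := by
  apply lgF_cont.surjective
  · refine tendsto_atTop_mono' _ ?_ tendsto_id
    filter_upwards [eventually_ge_atTop (0 : ℝ)] with x hx
    unfold lgF
    have h1 : 1 ≤ Real.exp (max x 0) := Real.one_le_exp (le_max_right _ _)
    simp only [id]
    nlinarith
  · refine tendsto_atBot_mono' _ ?_ tendsto_id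
    filter_upwards [eventually_le_atBot (0 : ℝ)] with x hx
    unfold lgF
    have h1 : 1 ≤ Real.exp (max x 0) := Real.one_le_exp (le_max_right _ _)
    simp only [id]
    nlinarith

private noncomputable def lgW : ℝ ≃o ℝ := StrictMono.orderIsoOfSurjective lgF lgF_mono lgF_surj

private theorem lgW_apply (x : ℝ) : lgF (lgW.symm x) = x := lgW.apply_symm_apply x

private theorem lgW_nonneg {x : ℝ} (hx : 0 ≤ x) : 0 ≤ lgW.symm x := by
  by_contra h
  have h1 := lgF_mono (not_le.1 h)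
  rw [lgW_apply] at h1
  have : lgF 0 = 0 := by unfold lgF; ring
  linarith

private theorem lgW_eq {x : ℝ} (hx : 0 ≤ x) : lgW.symm x = x * Real.exp (-lgW.symm x) := by
  have h0 := lgW_nonneg hx
  have h1 := lgW_apply x
  unfold lgF at h1
  rw [max_eq_left h0] at h1
  have h2 : Real.exp (lgW.symm x) * Real.exp (-lgW.symm x) = 1 := by rw [← Real.exp_add]; simp
  calc lgW.symm x = lgW.symm x * (Real.exp (lgW.symm x) * Real.exp (-lgW.symm x)) := by rw [h2, mul_one]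
    _ = (lgW.symm x * Real.exp (lgW.symm x)) * Real.exp (-lgW.symm x) := by ring
    _ = x * Real.exp (-lgW.symm x) := by rw [h1]

private theorem lgW_zero : lgW.symm 0 = 0 := by
  have h := lgW_eq (x := 0) le_rfl
  rw [zero_mul] at h
  exact h

theorem exists_SadX {κ θ : ℝ} (hκ : 0 < κ) (h1 : -κ ≤ θ) (h2 : θ ≤ Real.pi + κ) : ∃ R h : ℝ, SadX κ θ R h := by
  have hpi := Real.pi_pos
  obtain ⟨H, hH⟩ : ∃ H : ℝ → ℝ, H = fun φ => lgW.symm (κ * Real.sin φ) := ⟨_, rfl⟩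
  have hHc : Continuous H := by
    rw [hH]
    exact lgW.symm.continuous.comp (by fun_prop)
  obtain ⟨f, hf⟩ : ∃ f : ℝ → ℝ, f = fun φ => φ - κ * Real.exp (-H φ) * Real.cos φ := ⟨_, rfl⟩
  have hfc : ContinuousOn f (Icc 0 Real.pi) := by
    rw [hf]
    exact (by fun_prop : Continuous fun φ => φ - κ * Real.exp (-H φ) * Real.cos φ).continuousOn
  have hf0 : f 0 = -κ := by
    rw [hf]
    simp only
    rw [hH]
    simp only [Real.sin_zero, mul_zero, lgW_zero, neg_zero, Real.exp_zero, Real.cos_zero]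
    ring
  have hfpi : f Real.pi = Real.pi + κ := by
    rw [hf]
    simp only
    rw [hH]
    simp only [Real.sin_pi, mul_zero, lgW_zero, neg_zero, Real.exp_zero, Real.cos_pi]
    ring
  have h3 : θ ∈ Icc (f 0) (f Real.pi) := by
    rw [hf0, hfpi]; exact ⟨h1, h2⟩
  obtain ⟨φ, hφ, hφθ⟩ := intermediate_value_Icc hpi.le hfc h3
  have e1 : θ + κ * Real.exp (-H φ) * Real.cos φ = φ := by
    rw [← hφθ, hf]
    ring
  have hs : 0 ≤ κ * Real.sin φ := mul_nonneg hκ.le (Real.sin_nonneg_of_nonneg_of_le_pi hφ.1 hφ.2)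
  refine ⟨κ * Real.exp (-H φ) * Real.cos φ, H φ, ?_, ?_, ?_, ?_, ?_⟩
  · rw [hH]; exact lgW_nonneg hs
  · rw [e1]; exact hφ.1
  · rw [e1]; exact hφ.2
  · rw [e1]
  · rw [e1]
    have h4 := lgW_eq hs
    rw [hH]
    simp only
    linarith

private theorem lg_exp_one : (2.7182 : ℝ) ≤ Real.exp 1 ∧ Real.exp 1 ≤ 2.7183 := by
  have h1 := Real.exp_one_gt_d9
  have h2 := Real.exp_one_lt_d9
  constructor <;> linarith

private theorem lg_sin29 : (0.2859 : ℝ) ≤ Real.sin (29 / 100) := by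
  have h := Real.sin_gt_sub_cube (x := 29 / 100) (by norm_num)
  norm_num at h ⊢
  linarith

private theorem lg_cos29 : (0.9579 : ℝ) ≤ Real.cos (29 / 100) := by
  have h := Real.one_sub_sq_div_two_le_cos (x := 29 / 100)
  norm_num at h ⊢
  linarith

/-- `g e^{-g} ≤ 1/e` -/
private theorem lg_ge (g : ℝ) : g * Real.exp (-g) ≤ 0.3679 := by
  have h1 := Real.add_one_le_exp (g - 1)
  have h2 : Real.exp (g - 1) * Real.exp (-g) * Real.exp 1 = 1 := by
    rw [← Real.exp_add, ← Real.exp_add]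
    have : g - 1 + -g + 1 = 0 := by ring
    rw [this, Real.exp_zero]
  have h3 := Real.exp_pos (-g)
  have h4 := lg_exp_one.1
  have h5 : g * Real.exp (-g) ≤ Real.exp (g - 1) * Real.exp (-g) := by
    apply mul_le_mul_of_nonneg_right _ h3.le
    linarith
  have h6 : 0 < Real.exp (g - 1) * Real.exp (-g) := by positivity
  norm_num at h4 ⊢
  nlinarith

/-- the angle at height `g` -/
private noncomputable def lgA (κ g : ℝ) : ℝ := Real.arcsin (g * Real.exp (-g) / κ)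

private theorem lgA_bd {κ g : ℝ} (hκ : 13 / 10 ≤ κ) (hg : 0 ≤ g) :
    0 ≤ lgA κ g ∧ lgA κ g ≤ 29 / 100 ∧ g = κ * Real.exp g * Real.sin (lgA κ g) := by
  have hκ0 : 0 < κ := by linarith
  have hpi := Real.pi_gt_three
  have h1 : 0 ≤ g * Real.exp (-g) / κ := by positivity
  have h2 : g * Real.exp (-g) / κ ≤ 0.283 := by
    rw [div_le_iff₀ hκ0]
    have := lg_ge g
    norm_num at this ⊢
    linarith
  have h3 := lg_sin29
  have h4 : g * Real.exp (-g) / κ ≤ Real.sin (29 / 100) := by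
    norm_num at h2 h3 ⊢
    linarith
  refine ⟨Real.arcsin_nonneg.2 h1, ?_, ?_⟩
  · unfold lgA
    exact (Real.arcsin_le_iff_le_sin' ⟨by linarith, by linarith⟩).2 h4
  · unfold lgA
    norm_num at h2
    rw [Real.sin_arcsin (by linarith) (by linarith)]
    have h5 : Real.exp g * Real.exp (-g) = 1 := by rw [← Real.exp_add]; simp
    field_simp
    linear_combination (-g) * h5

private theorem lg_arc {κ θ R₁ g α : ℝ} (hκ : 13 / 10 ≤ κ) (hy : SadY κ θ R₁ g α) : α = lgA κ g := by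
  have hκ0 : 0 < κ := by linarith
  have hpi := Real.pi_gt_three
  have h5 : Real.exp g * Real.exp (-g) = 1 := by rw [← Real.exp_add]; simp
  have h1 : g * Real.exp (-g) / κ = Real.sin α := by
    have h2 := hy.eg
    have h3 : g * Real.exp (-g) = κ * Real.sin α := by
      calc g * Real.exp (-g) = (κ * Real.exp g * Real.sin α) * Real.exp (-g) := by rw [← h2]
        _ = κ * Real.sin α * (Real.exp g * Real.exp (-g)) := by ring
        _ = κ * Real.sin α := by rw [h5, mul_one]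
    rw [h3]
    field_simp
  unfold lgA
  rw [h1, Real.arcsin_sin (by linarith [hy.α0]) (by linarith [hy.α1])]

theorem exists_SadY {κ θ : ℝ} (hκ : 13 / 10 ≤ κ) (h1 : -κ ≤ θ) (h2 : θ ≤ 2 * Real.pi - κ) :
    ∃ R₁ g α : ℝ, SadY κ θ R₁ g α := by
  have hκ0 : 0 < κ := by linarith
  have hpi := Real.pi_lt_d2
  norm_num at hpi
  obtain ⟨f, hf⟩ : ∃ f : ℝ → ℝ, f = fun g => κ * Real.exp g * Real.cos (lgA κ g) + lgA κ g := ⟨_, rfl⟩
  have hAc : Continuous (lgA κ) := by
    unfold lgA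
    exact Real.continuous_arcsin.comp (by fun_prop)
  have hfc : ContinuousOn f (Icc 0 3) := by
    rw [hf]
    exact (by fun_prop : Continuous fun g => κ * Real.exp g * Real.cos (lgA κ g) + lgA κ g).continuousOn
  have hf0 : f 0 = κ := by
    rw [hf]
    simp only [lgA, zero_mul, zero_div, Real.arcsin_zero, Real.exp_zero, Real.cos_zero]
    ring
  have hf3 : 2 * Real.pi + κ ≤ f 3 := by
    rw [hf]
    simp only
    obtain ⟨a1, a2, _⟩ := lgA_bd hκ (g := 3) (by norm_num)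
    have h3 : Real.cos (29 / 100) ≤ Real.cos (lgA κ 3) := by
      apply Real.cos_le_cos_of_nonneg_of_le_pi a1 (by linarith [Real.pi_gt_three]) a2
    have h4 := lg_cos29
    have h5 : (19 : ℝ) ≤ Real.exp 3 := by
      have e : Real.exp 3 = Real.exp 1 ^ 3 := by rw [← Real.exp_nat_mul]; norm_num
      rw [e]
      have h6 := lg_exp_one.1
      have h7 : (2.7182 : ℝ) ^ 3 ≤ Real.exp 1 ^ 3 := pow_le_pow_left₀ (by norm_num) h6 3
      refine le_trans ?_ h7
      norm_num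
    have h6 : (18 : ℝ) ≤ Real.exp 3 * Real.cos (lgA κ 3) := by
      have h7 : (19 : ℝ) * 0.9579 ≤ Real.exp 3 * Real.cos (lgA κ 3) :=
        mul_le_mul h5 (h4.trans h3) (by norm_num) (Real.exp_pos _).le
      norm_num at h7
      linarith
    have h7 : κ * 18 ≤ κ * (Real.exp 3 * Real.cos (lgA κ 3)) := mul_le_mul_of_nonneg_left h6 hκ0.le
    nlinarith
  have h3 : 2 * Real.pi - θ ∈ Icc (f 0) (f 3) := by
    rw [hf0]
    exact ⟨by linarith, by linarith⟩
  obtain ⟨g, hg, hgθ⟩ := intermediate_value_Icc (by norm_num : (0 : ℝ) ≤ 3) hfc h3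
  obtain ⟨a1, a2, a3⟩ := lgA_bd hκ hg.1
  refine ⟨κ * Real.exp g * Real.cos (lgA κ g), g, lgA κ g, hg.1, a1, a2, ?_, rfl, a3⟩
  rw [hf] at hgθ
  simp only at hgθ
  linarith

/-- comparison of two heights -/
private theorem lg_cmp {κ g₁ g₂ R₁ R₂ : ℝ} (hκ : 13 / 10 ≤ κ) (h0 : 0 ≤ g₁) (h : g₁ < g₂)
    (hR₂ : 0 ≤ R₂) (e₁ : R₁ ^ 2 + g₁ ^ 2 = κ ^ 2 * Real.exp (2 * g₁)) (e₂ : R₂ ^ 2 + g₂ ^ 2 = κ ^ 2 * Real.exp (2 * g₂)) :
    R₁ < R₂ := by
  have h1 : R₁ ^ 2 < R₂ ^ 2 := by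
    obtain ⟨d, hd⟩ : ∃ d : ℝ, d = g₂ - g₁ := ⟨_, rfl⟩
    have hd0 : 0 < d := by rw [hd]; linarith
    have e3 : Real.exp (2 * g₂) = Real.exp (2 * g₁) * Real.exp (2 * d) := by
      rw [← Real.exp_add]; congr 1; rw [hd]; ring
    have h2 : 2 * g₁ + 1 ≤ Real.exp (2 * g₁) := Real.add_one_le_exp _
    have h3 : 1 + 2 * d + (2 * d) ^ 2 / 2 ≤ Real.exp (2 * d) := Real.quadratic_le_exp_of_nonneg (by positivity)
    have h4 : (2 * g₁ + 1) * (2 * d + 2 * d ^ 2) ≤ Real.exp (2 * g₁) * (Real.exp (2 * d) - 1) :=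
      mul_le_mul h2 (by linarith) (by positivity) (Real.exp_pos _).le
    have h5 : 1 ≤ κ ^ 2 := by nlinarith
    have h6 : Real.exp (2 * g₁) * (Real.exp (2 * d) - 1) ≤ κ ^ 2 * (Real.exp (2 * g₁) * (Real.exp (2 * d) - 1)) := by
      have h7 : 0 ≤ Real.exp (2 * g₁) * (Real.exp (2 * d) - 1) := le_trans (by positivity) h4
      nlinarith
    have e4 : g₂ = g₁ + d := by rw [hd]; ring
    have e5 : R₂ ^ 2 - R₁ ^ 2 = κ ^ 2 * (Real.exp (2 * g₁) * (Real.exp (2 * d) - 1)) - (g₂ ^ 2 - g₁ ^ 2) := by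
      rw [e3] at e₂
      linear_combination e₂ - e₁
    have h8 : 0 < (2 * g₁ + 1) * (2 * d + 2 * d ^ 2) - (g₂ ^ 2 - g₁ ^ 2) := by
      rw [e4]
      have : (2 * g₁ + 1) * (2 * d + 2 * d ^ 2) - ((g₁ + d) ^ 2 - g₁ ^ 2) = 2 * g₁ * d + 4 * g₁ * d ^ 2 + 2 * d + d ^ 2 := by
        ring
      rw [this]
      positivity
    linarith
  exact lt_of_pow_lt_pow_left₀ 2 hR₂ h1

private theorem lg_sq {κ θ R₁ g α : ℝ} (hy : SadY κ θ R₁ g α) : R₁ ^ 2 + g ^ 2 = κ ^ 2 * Real.exp (2 * g) := by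
  have h1 := hy.eR
  have h2 := hy.eg
  have h3 := Real.sin_sq_add_cos_sq α
  have e : Real.exp (2 * g) = Real.exp g ^ 2 := by rw [← Real.exp_nat_mul]; norm_num
  generalize Real.exp g = E at *
  rw [e]
  calc R₁ ^ 2 + g ^ 2 = (κ * E * Real.cos α) ^ 2 + (κ * E * Real.sin α) ^ 2 := by rw [← h1, ← h2]
    _ = κ ^ 2 * E ^ 2 * (Real.sin α ^ 2 + Real.cos α ^ 2) := by ring
    _ = κ ^ 2 * E ^ 2 := by rw [h3, mul_one]

private theorem lgA_mono {κ g₁ g₂ : ℝ} (hκ : 13 / 10 ≤ κ) (h : g₁ ≤ g₂) (h0 : 0 ≤ g₁) (h1 : g₂ ≤ 1) :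
    lgA κ g₁ ≤ lgA κ g₂ := by
  unfold lgA
  apply Real.monotone_arcsin
  apply div_le_div_of_nonneg_right _ (by linarith)
  -- g₁ e^{-g₁} ≤ g₂ e^{-g₂}
  have e1 : Real.exp (-g₁) = Real.exp (g₂ - g₁) * Real.exp (-g₂) := by
    rw [← Real.exp_add]; congr 1; ring
  rw [e1, ← mul_assoc]
  apply mul_le_mul_of_nonneg_right _ (Real.exp_pos _).le
  -- g₁ e^{d} ≤ g₁ + d for d ≤ 1 - g₁
  rcases eq_or_lt_of_le h0 with h00 | h00
  · rw [← h00]; linarith
  have h3 : 1 - (g₂ - g₁) / g₂ ≤ Real.exp (-(g₂ - g₁)) := by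
    have h4 := Real.add_one_le_exp (-(g₂ - g₁))
    have h5 : g₂ - g₁ ≤ (g₂ - g₁) / g₂ := by
      rw [le_div_iff₀ (by linarith)]
      nlinarith
    linarith
  have h4 : g₁ / g₂ ≤ Real.exp (-(g₂ - g₁)) := by
    have h5 : 1 - (g₂ - g₁) / g₂ = g₁ / g₂ := by
      have : g₂ ≠ 0 := by linarith
      field_simp
      ring
    linarith
  rw [div_le_iff₀ (by linarith)] at h4
  have h5 : Real.exp (g₂ - g₁) * Real.exp (-(g₂ - g₁)) = 1 := by rw [← Real.exp_add]; simp
  have h6 := Real.exp_pos (g₂ - g₁)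
  calc g₁ * Real.exp (g₂ - g₁) ≤ (Real.exp (-(g₂ - g₁)) * g₂) * Real.exp (g₂ - g₁) :=
        mul_le_mul_of_nonneg_right h4 h6.le
    _ = g₂ * (Real.exp (g₂ - g₁) * Real.exp (-(g₂ - g₁))) := by ring
    _ = g₂ := by rw [h5, mul_one]

/-- the reference height `17/20` -/
private theorem lg_ref {κ : ℝ} (hκ : 13 / 10 ≤ κ) : ∃ Ξ : ℝ, ∀ θ R₁ g α : ℝ, SadY κ θ R₁ g α →
    (Ξ ≤ 2 * Real.pi - θ → 17 / 20 ≤ g) ∧ (2 * Real.pi - θ ≤ Ξ → g ≤ 17 / 20) := by
  have hκ0 : 0 < κ := by linarith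
  obtain ⟨a1, a2, a3⟩ := lgA_bd hκ (g := 17 / 20) (by norm_num)
  obtain ⟨R₀, hR₀⟩ : ∃ R₀ : ℝ, R₀ = κ * Real.exp (17 / 20) * Real.cos (lgA κ (17 / 20)) := ⟨_, rfl⟩
  have hpi := Real.pi_gt_three
  have hR₀0 : 0 ≤ R₀ := by
    rw [hR₀]
    have : 0 ≤ Real.cos (lgA κ (17 / 20)) := Real.cos_nonneg_of_neg_pi_div_two_le_of_le (by linarith) (by linarith)
    positivity
  have hsad : SadY κ (2 * Real.pi - lgA κ (17 / 20) - R₀) R₀ (17 / 20) (lgA κ (17 / 20)) :=
    ⟨by norm_num, a1, a2, by ring, hR₀, a3⟩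
  have hsq := lg_sq hsad
  refine ⟨R₀ + lgA κ (17 / 20), fun θ R₁ g α hy => ?_⟩
  have hsq1 := lg_sq hy
  have harc := lg_arc hκ hy
  have hR₁0 : 0 ≤ R₁ := by
    rw [hy.eR]
    have : 0 ≤ Real.cos α := Real.cos_nonneg_of_neg_pi_div_two_le_of_le (by linarith [hy.α0]) (by linarith [hy.α1])
    positivity
  have hα := hy.hα
  constructor
  · intro h1
    by_contra h2
    have h2 := not_le.1 h2
    have h3 := lg_cmp hκ hy.g0 h2 hR₀0 hsq1 hsq
    have h4 := lgA_mono hκ h2.le hy.g0 (by norm_num)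
    rw [← harc] at h4
    linarith
  · intro h1
    by_contra h2
    have h2 := not_le.1 h2
    rcases le_total g 1 with hg | hg
    · have h3 := lg_cmp hκ (by norm_num) h2 hR₁0 hsq hsq1
      have h4 := lgA_mono hκ h2.le (by norm_num) hg
      rw [← harc] at h4
      linarith
    · -- R₁² ≥ κ² e² - 1
      have h3 : κ ^ 2 * Real.exp 2 - 1 ≤ R₁ ^ 2 := by
        obtain ⟨d, hd⟩ : ∃ d : ℝ, d = g - 1 := ⟨_, rfl⟩
        have hd0 : 0 ≤ d := by rw [hd]; linarith
        have e3 : Real.exp (2 * g) = Real.exp 2 * Real.exp (2 * d) := by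
          rw [← Real.exp_add]; congr 1; rw [hd]; ring
        have h4 : 1 + 2 * d + (2 * d) ^ 2 / 2 ≤ Real.exp (2 * d) := Real.quadratic_le_exp_of_nonneg (by positivity)
        have h5 : 1 ≤ κ ^ 2 * Real.exp 2 := by
          have h6 : 1 ≤ Real.exp 2 := Real.one_le_exp (by norm_num)
          have h7 : 1 ≤ κ ^ 2 := by nlinarith
          nlinarith
        have h6 : κ ^ 2 * Real.exp 2 * (1 + 2 * d + (2 * d) ^ 2 / 2) ≤ κ ^ 2 * Real.exp 2 * Real.exp (2 * d) :=
          mul_le_mul_of_nonneg_left h4 (by positivity)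
        have e4 : g = 1 + d := by rw [hd]; ring
        have e5 : R₁ ^ 2 = κ ^ 2 * Real.exp 2 * Real.exp (2 * d) - (1 + d) ^ 2 := by
          rw [e3, e4] at hsq1
          linarith
        rw [e5]
        have h7 : 0 ≤ (κ ^ 2 * Real.exp 2 - 1) * (2 * d + 2 * d ^ 2) := mul_nonneg (by linarith) (by positivity)
        nlinarith
      -- R₀ ≤ κ e^{.85}
      have h4 : R₀ ≤ 2.35 * κ := by
        rw [hR₀]
        have h5 : Real.exp (17 / 20) ≤ 2.35 := by
          have h := Real.exp_bound' (x := 17 / 20) (by norm_num) (by norm_num) (n := 6) (by norm_num)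
          refine h.trans ?_
          norm_num [Finset.sum_range_succ, Nat.factorial]
        have h6 := Real.cos_le_one (lgA κ (17 / 20))
        calc κ * Real.exp (17 / 20) * Real.cos (lgA κ (17 / 20)) ≤ κ * Real.exp (17 / 20) * 1 :=
              mul_le_mul_of_nonneg_left h6 (by positivity)
          _ ≤ 2.35 * κ := by nlinarith
      have h5 : Real.exp (2 * (17 / 20)) ≤ 5.48 := by
        have e : Real.exp (2 * (17 / 20)) = Real.exp (17 / 20) ^ 2 := by rw [← Real.exp_nat_mul]; norm_num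
        rw [e]
        have h5 : Real.exp (17 / 20) ≤ 2.34 := by
          have h := Real.exp_bound' (x := 17 / 20) (by norm_num) (by norm_num) (n := 8) (by norm_num)
          refine h.trans ?_
          norm_num [Finset.sum_range_succ, Nat.factorial]
        have h6 : Real.exp (17 / 20) ^ 2 ≤ 2.34 ^ 2 := pow_le_pow_left₀ (Real.exp_pos _).le h5 2
        refine h6.trans ?_
        norm_num
      have h6 : 7.38 ≤ Real.exp 2 := by
        have e : Real.exp 2 = Real.exp 1 ^ 2 := by rw [← Real.exp_nat_mul]; norm_num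
        rw [e]
        have h7 : (2.7182 : ℝ) ^ 2 ≤ Real.exp 1 ^ 2 := pow_le_pow_left₀ (by norm_num) lg_exp_one.1 2
        refine le_trans ?_ h7
        norm_num
      have h7 : (R₀ + 3 / 10) ^ 2 ≤ R₁ ^ 2 := by
        refine le_trans ?_ h3
        have h8 : R₀ ^ 2 ≤ κ ^ 2 * 5.48 - 289 / 400 := by
          have h9 : κ ^ 2 * Real.exp (2 * (17 / 20)) ≤ κ ^ 2 * 5.48 := mul_le_mul_of_nonneg_left h5 (by positivity)
          nlinarith
        have h9 : κ ^ 2 * 7.38 ≤ κ ^ 2 * Real.exp 2 := mul_le_mul_of_nonneg_left h6 (by positivity)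
        norm_num at h4 h8 h9 ⊢
        nlinarith
      have h8 : R₀ + 3 / 10 ≤ R₁ := (abs_le_of_sq_le_sq' h7 hR₁0).2
      linarith [hy.α0]

theorem exists_c {κ : ℝ} (hκ : 13 / 10 ≤ κ) (hκ' : κ ≤ 47 / 10) : ∃ c : ℝ, 0 ≤ c ∧ c ≤ 2 * Real.pi - κ ∧ c ≤ 27 / 10 ∧
    (∀ θ R₁ g α : ℝ, -κ ≤ θ → θ ≤ c → SadY κ θ R₁ g α → θ ≤ 17 / 10 ∨ 17 / 20 ≤ g) ∧
    (∀ θ R₁ g α : ℝ, c < θ → θ < 2 * Real.pi - κ → SadY κ θ R₁ g α → 17 / 10 ≤ θ ∧ (g ≤ 17 / 20 ∨ 27 / 10 ≤ θ)) := by
  have hpi := Real.pi_gt_three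
  obtain ⟨Ξ, hΞ⟩ := lg_ref hκ
  refine ⟨min (2 * Real.pi - κ) (max (17 / 10) (min (27 / 10) (2 * Real.pi - Ξ))), ?_, min_le_left _ _, ?_, ?_, ?_⟩
  · apply le_min
    · linarith
    · exact le_trans (by norm_num) (le_max_left _ _)
  · refine (min_le_right _ _).trans (max_le (by norm_num) (min_le_left _ _))
  · intro θ R₁ g α _ h2 hy
    rcases le_or_gt θ (17 / 10) with h | h
    · exact Or.inl h
    · right
      have h3 := h2.trans (min_le_right _ _)
      rcases le_max_iff.1 h3 with h4 | h4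
      · linarith
      · have h5 := h4.trans (min_le_right _ _)
        exact (hΞ θ R₁ g α hy).1 (by linarith)
  · intro θ R₁ g α h1 h2 hy
    rcases min_lt_iff.1 h1 with h3 | h3
    · linarith
    · rw [max_lt_iff] at h3
      refine ⟨h3.1.le, ?_⟩
      rcases min_lt_iff.1 h3.2 with h4 | h4
      · exact Or.inr h4.le
      · exact Or.inl ((hΞ θ R₁ g α hy).2 (by linarith))

theorem geoY {κ θ R₁ g α : ℝ} (hy : SadY κ θ R₁ g α) (hθ : 17 / 10 ≤ θ) (hg : 17 / 20 ≤ g) : κ ≤ 205 / 100 := by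
  have hpi := Real.pi_lt_d4
  have hpi' := Real.pi_gt_three
  norm_num at hpi
  by_contra hcon
  have hκ := not_le.1 hcon
  have h1 := hy.eR
  have h2 := hy.hα
  have h3 : R₁ ≤ 4.5832 := by
    norm_num
    linarith [hy.α0]
  have h4 : Real.cos (29 / 100) ≤ Real.cos α := by
    apply Real.cos_le_cos_of_nonneg_of_le_pi hy.α0 (by linarith) hy.α1
  have h5 := lg_cos29
  have h6 : 2.3395 ≤ Real.exp g := by
    have h7 : 2.3395 ≤ Real.exp (17 / 20) := by
      have h8 := Real.sum_le_exp_of_nonneg (x := 17 / 20) (by norm_num) 8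
      refine le_trans ?_ h8
      norm_num [Finset.sum_range_succ, Nat.factorial]
    exact h7.trans (Real.exp_le_exp.2 hg)
  have h7 : (2.3395 : ℝ) * 0.9579 ≤ Real.exp g * Real.cos α :=
    mul_le_mul h6 (h5.trans h4) (by norm_num) (Real.exp_pos _).le
  have h8 : 205 / 100 * ((2.3395 : ℝ) * 0.9579) ≤ κ * (Real.exp g * Real.cos α) :=
    mul_le_mul hκ.le h7 (by norm_num) (by linarith)
  have h9 : κ * (Real.exp g * Real.cos α) = R₁ := by rw [h1]; ring
  rw [h9] at h8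
  norm_num at h8 h3
  linarith

end Sok
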