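import Pool.Agent.Lib.MP_816dec_an.LGeo

/-!
MP_816dec_an, b = 1, `1.3 ≤ κ ≤ 4.7` (row A1-L): bounds on the saddle data for `R < 5/2`.
-/

set_option autoImplicit false

open Complex Set Filter Topology MeasureTheory

namespace Sok

private theorem gg_pos {κ h : ℝ} (hκ : 13 / 10 ≤ κ) : 0 < κ * Real.exp (-h) := by
  have := Real.exp_pos (-h)
  have : 0 < κ := by linarith
  positivity

/-- `h e^h = κ sin φ` -/
private theorem gg_he {κ θ R h : ℝ} (hs : SadX κ θ R h) : h * Real.exp h = κ * Real.sin (θ + R) := by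
  have h1 := hs.eh
  have h2 : Real.exp (-h) * Real.exp h = 1 := by rw [← Real.exp_add]; simp
  generalize Real.exp h = E at *
  generalize Real.exp (-h) = E' at *
  calc h * E = (κ * E' * Real.sin (θ + R)) * E := by rw [← h1]
    _ = κ * Real.sin (θ + R) * (E' * E) := by ring
    _ = _ := by rw [h2, mul_one]

private theorem gg_hmul {a b : ℝ} (h0 : 0 ≤ a) (h : a ≤ b) : a * Real.exp a ≤ b * Real.exp b :=
  mul_le_mul h (Real.exp_le_exp.2 h) (Real.exp_pos _).le (h0.trans h)

private theorem gg_cosneg {κ θ R h : ℝ} (hs : SadX κ θ R h) (hκ : 13 / 10 ≤ κ) (hR : R < 0) :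
    Real.pi / 2 < θ + R := by
  by_contra hcon
  have h1 : 0 ≤ Real.cos (θ + R) :=
    Real.cos_nonneg_of_neg_pi_div_two_le_of_le (by linarith [hs.φ0, Real.pi_pos]) (not_lt.1 hcon)
  have h2 := hs.eR
  have h3 : 0 < κ * Real.exp (-h) := gg_pos hκ
  have h4 : 0 ≤ κ * Real.exp (-h) * Real.cos (θ + R) := mul_nonneg h3.le h1
  linarith

/-- in the shifted variable `ψ = φ - π/2` -/
private theorem gg_shift (φ : ℝ) : Real.sin φ = Real.cos (φ - Real.pi / 2) ∧
    Real.cos φ = -Real.sin (φ - Real.pi / 2) := by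
  constructor
  · rw [Real.cos_sub_pi_div_two]
  · rw [Real.sin_sub_pi_div_two, neg_neg]

theorem geoG2 {κ θ R h : ℝ} (hs : SadX κ θ R h) (hκ : 13 / 10 ≤ κ) (hκ' : κ ≤ 47 / 10) (hR : R < 5 / 2)
    (hθ : θ ≤ 17 / 10 ∨ (θ ≤ 27 / 10 ∧ κ ≤ 205 / 100)) :
    -(14 / 100) ≤ R ∨ (-(6 / 10) ≤ R ∧ 55 / 100 ≤ h ∧ h ≤ 88 / 100 ∧ κ ≤ 205 / 100) := by
  have hpi := Real.pi_gt_d4
  have hpi2 := Real.pi_lt_d4
  norm_num at hpi hpi2
  rcases le_or_gt (-(14 / 100)) R with hR0 | hR0
  · exact Or.inl hR0
  right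
  have hφ := gg_cosneg hs hκ (by linarith)
  rcases hθ with hθ | ⟨hθ, hκ2⟩
  · exfalso
    linarith
  have hhe := gg_he hs
  have h0 := hs.h0
  have hρ : 0 < κ * Real.exp (-h) := gg_pos hκ
  obtain ⟨s1, s2⟩ := gg_shift (θ + R)
  obtain ⟨ψ, hψ⟩ : ∃ ψ : ℝ, ψ = θ + R - Real.pi / 2 := ⟨_, rfl⟩
  rw [← hψ] at s1 s2
  have hψ0 : 0 < ψ := by rw [hψ]; linarith
  have hcos := Real.one_sub_sq_div_two_le_cos (x := ψ)
  have hsin := Real.sin_le hψ0.le
  have hsin0 : 0 ≤ Real.sin ψ := Real.sin_nonneg_of_nonneg_of_le_pi hψ0.le (by rw [hψ]; linarith)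
  have hR1 := hs.eR
  have hh1 := hs.eh
  rw [s2] at hR1
  rw [s1] at hh1 hhe
  have hh : h ≤ 88 / 100 := by
    by_contra hcon
    have hcon := not_le.1 hcon
    have h1 := gg_hmul (by norm_num) hcon.le
    have h2 : 2.41 ≤ Real.exp (88 / 100) := by
      have h8 := Real.sum_le_exp_of_nonneg (x := 88 / 100) (by norm_num) 7
      refine le_trans ?_ h8
      norm_num [Finset.sum_range_succ, Nat.factorial]
    have h3 : κ * Real.cos ψ ≤ 205 / 100 * 1 :=
      mul_le_mul hκ2 (Real.cos_le_one _) (by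
        have h4 : 0 ≤ κ * Real.cos ψ := by rw [← hhe]; positivity
        exact nonneg_of_mul_nonneg_right h4 (by linarith)) (by norm_num)
    norm_num at h2 h3
    linarith
  refine ⟨?_, ?_, hh, hκ2⟩
  · by_contra hcon
    have hcon := not_le.1 hcon
    have h1 : ψ ≤ 0.5293 := by rw [hψ]; norm_num; linarith
    have h2 : (0.8599 : ℝ) ≤ Real.cos ψ := by
      have h3 : ψ ^ 2 ≤ 0.5293 ^ 2 := pow_le_pow_left₀ hψ0.le h1 2
      norm_num at h3 ⊢
      linarith
    -- ρ cos ψ = h ≤ .88, ρ ≤ 1.0234, -R = ρ sin ψ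
    have h3 : κ * Real.exp (-h) * 0.8599 ≤ 88 / 100 := by
      have h4 : κ * Real.exp (-h) * 0.8599 ≤ κ * Real.exp (-h) * Real.cos ψ := mul_le_mul_of_nonneg_left h2 hρ.le
      linarith
    have h5 : κ * Real.exp (-h) * Real.sin ψ ≤ κ * Real.exp (-h) * 0.5293 :=
      mul_le_mul_of_nonneg_left (hsin.trans h1) hρ.le
    have h6 : κ * Real.exp (-h) ≤ 1.0234 := by
      norm_num at h3 ⊢
      linarith
    norm_num at h5 h6
    linarith
  · by_contra hcon
    have hcon := not_le.1 hcon
    -- h e^h ≤ .55 e^{.55} ≤ .9534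
    have h1 := gg_hmul h0 hcon.le
    have h2 : Real.exp (55 / 100) ≤ 1.7334 := by
      have h := Real.exp_bound' (x := 55 / 100) (by norm_num) (by norm_num) (n := 6) (by norm_num)
      refine h.trans ?_
      norm_num [Finset.sum_range_succ, Nat.factorial]
    have hc0 : 0 ≤ Real.cos ψ := Real.cos_nonneg_of_neg_pi_div_two_le_of_le (by linarith) (by rw [hψ]; linarith [hs.φ1])
    have h3 : Real.cos ψ ≤ 0.7334 := by
      have h4 : 13 / 10 * Real.cos ψ ≤ κ * Real.cos ψ := mul_le_mul_of_nonneg_right hκ hc0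
      norm_num at h2 ⊢
      linarith
    have h4 : 0.73 ≤ ψ := by
      by_contra h5
      have h5 := not_le.1 h5
      have h6 : ψ ^ 2 ≤ 0.73 ^ 2 := pow_le_pow_left₀ hψ0.le h5.le 2
      norm_num at h3 h6
      linarith
    have h5 : 0.6 ≤ Real.sin ψ := by
      have h6 := Real.sin_sq_add_cos_sq ψ
      by_contra h8
      have h8 := not_le.1 h8
      have h9 : Real.sin ψ ^ 2 ≤ 0.6 ^ 2 := pow_le_pow_left₀ hsin0 h8.le 2
      have h10 : Real.cos ψ ^ 2 ≤ 0.7334 ^ 2 := pow_le_pow_left₀ hc0 h3 2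
      norm_num at h9 h10
      linarith
    have h6 : 0.576 ≤ Real.exp (-h) := by
      have h7 : Real.exp h ≤ 1.7334 := (Real.exp_le_exp.2 hcon.le).trans h2
      have h8 : Real.exp (-h) * Real.exp h = 1 := by rw [← Real.exp_add]; simp
      have h9 := Real.exp_pos (-h)
      have h10 : Real.exp (-h) * Real.exp h ≤ Real.exp (-h) * 1.7334 := mul_le_mul_of_nonneg_left h7 h9.le
      norm_num at h10 ⊢
      linarith
    have h7 : 13 / 10 * 0.576 ≤ κ * Real.exp (-h) := mul_le_mul hκ h6 (by norm_num) (by linarith)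
    have h8 : 13 / 10 * 0.576 * 0.6 ≤ κ * Real.exp (-h) * Real.sin ψ := mul_le_mul h7 h5 (by norm_num) hρ.le
    have h9 : ψ = θ + R - Real.pi / 2 := hψ
    norm_num at h4 h8
    linarith

theorem sumG2 {κ θ R h R₁ g α : ℝ} (hs : SadX κ θ R h) (hy : SadY κ θ R₁ g α) (hκ : 13 / 10 ≤ κ) (hκ' : κ ≤ 47 / 10)
    (hR : R < 5 / 2) (hθ : θ ≤ 17 / 10 ∨ (θ ≤ 27 / 10 ∧ 17 / 20 ≤ g)) : 1 ≤ h + g := by
  have hpi := Real.pi_gt_d4
  have hpi2 := Real.pi_lt_d4
  norm_num at hpi hpi2
  have hhe := gg_he hs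
  have h0 := hs.h0
  have hρ : 0 < κ * Real.exp (-h) := gg_pos hκ
  have hR1 := hs.eR
  have hh1 := hs.eh
  rcases le_or_gt θ (17 / 10) with hθ1 | hθ1
  · -- case A
    by_contra hcon
    have hcon := not_le.1 hcon
    obtain ⟨φ, hφ⟩ : ∃ φ : ℝ, φ = θ + R := ⟨_, rfl⟩
    rw [← hφ] at hhe hR1 hh1
    have hφ0 : 0 ≤ φ := by rw [hφ]; exact hs.φ0
    have hφ1 : φ ≤ 17 / 10 := by
      rcases le_or_gt R 0 with h1 | h1
      · rw [hφ]; linarith
      · by_contra h2
        have h2 := not_le.1 h2
        have h3 : Real.cos φ < 0 := Real.cos_neg_of_pi_div_two_lt_of_lt (by linarith) (by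
          rw [hφ]; linarith [hs.φ1])
        have h4 : κ * Real.exp (-h) * Real.cos φ < 0 := mul_neg_of_pos_of_neg hρ h3
        linarith
    -- h ≤ 1.3
    have hh : h ≤ 13 / 10 := by
      by_contra h1
      have h1 := not_le.1 h1
      have h2 := gg_hmul (by norm_num) h1.le
      have h3 : 3.66 ≤ Real.exp (13 / 10) := by
        have h8 := Real.sum_le_exp_of_nonneg (x := 13 / 10) (by norm_num) 8
        refine le_trans ?_ h8
        norm_num [Finset.sum_range_succ, Nat.factorial]
      have h4 : κ * Real.sin φ ≤ 47 / 10 * 1 :=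
        mul_le_mul hκ' (Real.sin_le_one _) (Real.sin_nonneg_of_nonneg_of_le_pi hφ0 (by linarith)) (by norm_num)
      norm_num at h3 h4
      linarith
    -- ρ e^{h+g} = κ e^g ≥ R₁
    obtain ⟨ρ, hρd⟩ : ∃ ρ : ℝ, ρ = κ * Real.exp (-h) := ⟨_, rfl⟩
    rw [← hρd] at hρ hR1 hh1
    have h1 : κ * Real.exp g = ρ * Real.exp (h + g) := by
      rw [hρd, Real.exp_add]
      have h2 : Real.exp (-h) * Real.exp h = 1 := by rw [← Real.exp_add]; simp
      calc κ * Real.exp g = κ * Real.exp g * (Real.exp (-h) * Real.exp h) := by rw [h2, mul_one]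
        _ = _ := by ring
    have h2 : R₁ ≤ κ * Real.exp g := by
      rw [hy.eR]
      have h3 := Real.cos_le_one α
      have h4 : 0 < κ * Real.exp g := by
        have := Real.exp_pos g
        have : 0 < κ := by linarith
        positivity
      nlinarith
    have h3 : Real.exp (h + g) ≤ Real.exp 1 := Real.exp_le_exp.2 hcon.le
    have he := Real.exp_one_lt_d9
    norm_num at he
    have h4 : ρ * Real.exp (h + g) ≤ ρ * 2.7183 := by
      apply mul_le_mul_of_nonneg_left _ hρ.le
      norm_num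
      linarith
    have h5 : 2 * Real.pi - α - φ + R ≤ ρ * 2.7183 := by
      have h6 := hy.hα
      rw [hφ]
      linarith
    have hα := hy.α1
    have h6 : 5.993 - φ ≤ ρ * (2.7183 - Real.cos φ) := by
      rw [mul_sub, ← hR1]
      norm_num at h5 ⊢
      linarith
    rcases le_total φ (1 / 2) with h7 | h7
    · -- small angle
      have h8 : 7 / 8 ≤ Real.cos φ := by
        have h9 := Real.one_sub_sq_div_two_le_cos (x := φ)
        have h10 : φ ^ 2 ≤ (1 / 2) ^ 2 := pow_le_pow_left₀ hφ0 h7 2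
        norm_num at h10
        linarith
      have h9 : ρ * (7 / 8) ≤ ρ * Real.cos φ := mul_le_mul_of_nonneg_left h8 hρ.le
      have h10 : ρ * (2.7183 - Real.cos φ) ≤ ρ * (2.7183 - 7 / 8) := by
        apply mul_le_mul_of_nonneg_left _ hρ.le
        linarith
      norm_num at h6 h10
      linarith
    · -- larger angle
      have hs0 : 0 ≤ Real.sin φ := Real.sin_nonneg_of_nonneg_of_le_pi hφ0 (by linarith)
      have h8 : (5.993 - φ) * Real.sin φ ≤ 13 / 10 * (2.7183 - Real.cos φ) := by
        have h9 : (5.993 - φ) * Real.sin φ ≤ ρ * (2.7183 - Real.cos φ) * Real.sin φ :=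
          mul_le_mul_of_nonneg_right h6 hs0
        have h10 : ρ * (2.7183 - Real.cos φ) * Real.sin φ = h * (2.7183 - Real.cos φ) := by
          rw [hh1]; ring
        rw [h10] at h9
        refine h9.trans (mul_le_mul_of_nonneg_right hh ?_)
        have := Real.cos_le_one φ
        norm_num
        linarith
      have h9 : 3.534 ≤ 13 / 10 * Real.cos φ + (5.993 - φ) * Real.sin φ := by
        rcases le_total φ 1 with h10 | h10
        · have h11 := Real.one_sub_sq_div_two_le_cos (x := φ)
          have h12 := (Real.sin_gt_sub_cube (x := φ) (by linarith)).le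
          have h13 : (5.993 - φ) * (φ - φ ^ 3 / 6) ≤ (5.993 - φ) * Real.sin φ := by
            apply mul_le_mul_of_nonneg_left h12
            norm_num
            linarith
          have h14 : φ ^ 2 ≤ 3 / 2 * φ - 1 / 2 := by nlinarith
          have h15 : φ ^ 3 ≤ 7 / 4 * φ - 3 / 4 := by
            have h16 : φ ^ 3 = φ * φ ^ 2 := by ring
            rw [h16]
            nlinarith
          have h17 : 0 ≤ φ ^ 4 := by positivity
          have h18 : (5.993 - φ) * (φ - φ ^ 3 / 6) = 5.993 * φ - φ ^ 2 - 5.993 / 6 * φ ^ 3 + φ ^ 4 / 6 := by ring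
          rw [h18] at h13
          norm_num at h13 ⊢
          linarith
        · obtain ⟨s1, s2⟩ := gg_shift φ
          obtain ⟨ψ, hψ⟩ : ∃ ψ : ℝ, ψ = φ - Real.pi / 2 := ⟨_, rfl⟩
          rw [← hψ] at s1 s2
          have hcos := Real.one_sub_sq_div_two_le_cos (x := ψ)
          rw [← s1] at hcos
          rcases le_total ψ 0 with h11 | h11
          · have h12 : 0 ≤ Real.cos φ := Real.cos_nonneg_of_neg_pi_div_two_le_of_le (by linarith) (by linarith)
            have h13 : -0.571 ≤ ψ := by rw [hψ]; norm_num; linarith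
            have h14 : 0.836 ≤ Real.sin φ := by
              have h15 : (-ψ) ^ 2 ≤ 0.571 ^ 2 := pow_le_pow_left₀ (by linarith) (by norm_num at h13 ⊢; linarith) 2
              rw [neg_sq] at h15
              norm_num at h15 ⊢
              linarith
            have h15 : (4.42 : ℝ) * 0.836 ≤ (5.993 - φ) * Real.sin φ := by
              apply mul_le_mul _ h14 (by norm_num)
              · norm_num; linarith
              · norm_num; linarith
            norm_num at h15 ⊢
            linarith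
          · have h12 : ψ ≤ 0.13 := by rw [hψ]; norm_num; linarith
            have h13 : 0.99 ≤ Real.sin φ := by
              have h15 : ψ ^ 2 ≤ 0.13 ^ 2 := pow_le_pow_left₀ h11 h12 2
              norm_num at h15 ⊢
              linarith
            have h14 : -0.13 ≤ Real.cos φ := by
              rw [s2]
              have := Real.sin_le h11
              norm_num at h12 ⊢
              linarith
            have h15 : (4.29 : ℝ) * 0.99 ≤ (5.993 - φ) * Real.sin φ := by
              apply mul_le_mul _ h13 (by norm_num)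
              · norm_num; linarith
              · norm_num; linarith
            norm_num at h15 h14 ⊢
            linarith
      norm_num at h8 h9
      linarith
  · -- case B
    have hθ2 : θ ≤ 27 / 10 ∧ 17 / 20 ≤ g := by
      rcases hθ with h1 | h1
      · linarith
      · exact h1
    have hκ2 := geoY hy hθ1.le hθ2.2
    rcases geoG2 hs hκ hκ' hR (Or.inr ⟨hθ2.1, hκ2⟩) with h1 | ⟨_, h1, _, _⟩
    · have hR0 : R ≤ 0 := by
        by_contra h2
        have h2 := not_le.1 h2
        have h3 : Real.cos (θ + R) < 0 := Real.cos_neg_of_pi_div_two_lt_of_lt (by linarith) (by linarith [hs.φ1])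
        have h4 : κ * Real.exp (-h) * Real.cos (θ + R) < 0 := mul_neg_of_pos_of_neg hρ h3
        linarith
      -- sin φ ≥ .4
      have h2 : 0.4 ≤ Real.sin (θ + R) := by
        have h3 : Real.sin (θ + R) = Real.sin (Real.pi - (θ + R)) := (Real.sin_pi_sub _).symm
        rw [h3]
        rcases le_total (Real.pi - (θ + R)) (Real.pi / 2) with h4 | h4
        · have h5 : Real.sin 0.44 ≤ Real.sin (Real.pi - (θ + R)) := by
            apply Real.sin_le_sin_of_le_of_le_pi_div_two (by linarith) h4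
            norm_num
            linarith
          have h6 := (Real.sin_gt_sub_cube (x := 0.44) (by norm_num)).le
          norm_num at h5 h6 ⊢
          linarith
        · have h5 : Real.sin (Real.pi - (θ + R)) = Real.cos (θ + R - Real.pi / 2) := by
            rw [Real.sin_pi_sub, Real.cos_sub_pi_div_two]
          rw [h5]
          have h6 := Real.one_sub_sq_div_two_le_cos (x := θ + R - Real.pi / 2)
          have h7 : -(θ + R - Real.pi / 2) ≤ 0.02 := by norm_num; linarith
          have h8 : (-(θ + R - Real.pi / 2)) ^ 2 ≤ 0.02 ^ 2 := pow_le_pow_left₀ (by linarith) h7 2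
          rw [neg_sq] at h8
          norm_num at h8 ⊢
          linarith
      by_contra hcon
      have hcon := not_le.1 hcon
      have h3 : h ≤ 15 / 100 := by linarith [hθ2.2]
      have h4 := gg_hmul h0 h3
      have h5 : Real.exp (15 / 100) ≤ 1.2 := by
        have h := Real.exp_bound' (x := 15 / 100) (by norm_num) (by norm_num) (n := 4) (by norm_num)
        refine h.trans ?_
        norm_num [Finset.sum_range_succ, Nat.factorial]
      have h6 : 13 / 10 * 0.4 ≤ κ * Real.sin (θ + R) := mul_le_mul hκ h2 (by norm_num) (by linarith)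
      norm_num at h5 h6
      linarith
    · linarith [hθ2.2]

end Sok
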