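import Pool.Agent.Lib.MP_816dec_an.LDefs

/-!
MP_816dec_an, b = 1, 1.3 ≤ κ ≤ 4.7: geometry of the saddles in case H (R ≥ 5/2), geoX, geoH2, sumH2.
-/

set_option autoImplicit false

open Complex Set Filter Topology MeasureTheory

namespace Sok

private theorem gh_exp_one : (2.7182 : ℝ) ≤ Real.exp 1 ∧ Real.exp 1 ≤ 2.7183 := by
  have h1 := Real.exp_one_gt_d9
  have h2 := Real.exp_one_lt_d9
  constructor <;> linarith

private theorem gh_sq {κ θ R h : ℝ} (hs : SadX κ θ R h) : R ^ 2 + h ^ 2 = κ ^ 2 * Real.exp (-(2 * h)) := by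
  have h1 := hs.eR
  have h2 := hs.eh
  have h3 := Real.sin_sq_add_cos_sq (θ + R)
  have e : Real.exp (-(2 * h)) = Real.exp (-h) ^ 2 := by
    rw [← Real.exp_nat_mul]; congr 1; push_cast; ring
  obtain ⟨E, hE⟩ : ∃ E, E = Real.exp (-h) := ⟨_, rfl⟩
  obtain ⟨c, hc⟩ : ∃ c, c = Real.cos (θ + R) := ⟨_, rfl⟩
  obtain ⟨t, ht⟩ : ∃ t, t = Real.sin (θ + R) := ⟨_, rfl⟩
  rw [← hE, ← hc] at h1
  rw [← hE, ← ht] at h2
  rw [← hc, ← ht] at h3
  rw [e, ← hE]
  calc R ^ 2 + h ^ 2 = (κ * E * c) ^ 2 + (κ * E * t) ^ 2 := by rw [← h1, ← h2]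
    _ = κ ^ 2 * E ^ 2 * (t ^ 2 + c ^ 2) := by ring
    _ = κ ^ 2 * E ^ 2 := by rw [h3, mul_one]

theorem geoX {κ θ R h : ℝ} (hs : SadX κ θ R h) (hκ : 13 / 10 ≤ κ) (hκ' : κ ≤ 47 / 10) : h ≤ 13 / 10 := by
  by_contra hcon
  have hcon := not_le.1 hcon
  have h1 := hs.eh
  have h2 := Real.sin_le_one (θ + R)
  have h3 : h * Real.exp h ≤ κ := by
    have h4 : Real.exp (-h) * Real.exp h = 1 := by rw [← Real.exp_add]; simp
    have h5 : h * Real.exp h = κ * Real.sin (θ + R) := by
      calc h * Real.exp h = κ * Real.exp (-h) * Real.sin (θ + R) * Real.exp h := by rw [← h1]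
        _ = κ * Real.sin (θ + R) * (Real.exp (-h) * Real.exp h) := by ring
        _ = _ := by rw [h4, mul_one]
    rw [h5]
    nlinarith
  have h4 : (3.65 : ℝ) ≤ Real.exp (13 / 10) := by
    have h8 := Real.sum_le_exp_of_nonneg (x := 13 / 10) (by norm_num) 8
    refine le_trans ?_ h8
    norm_num [Finset.sum_range_succ, Nat.factorial]
  have h5 : (3.65 : ℝ) ≤ Real.exp h := h4.trans (Real.exp_le_exp.2 hcon.le)
  have h6 : (13 / 10 : ℝ) * 3.65 ≤ h * Real.exp h := mul_le_mul hcon.le h5 (by norm_num) (by linarith)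
  norm_num at h6
  linarith

/-- case `R ≥ 5/2` -/
theorem geoH2 {κ θ R h : ℝ} (hs : SadX κ θ R h) (hκ : 13 / 10 ≤ κ) (hκ' : κ ≤ 47 / 10) (hR : 5 / 2 ≤ R) :
    h ≤ 62 / 100 ∧ θ + R ≤ 1 / 4 ∧ 1 / 2 * κ ≤ R := by
  have hsq := gh_sq hs
  have hκ0 : 0 < κ := by linarith
  have hh0 := hs.h0
  have hk2 : κ ^ 2 ≤ 22.09 := by norm_num; nlinarith
  have hh : h ≤ 62 / 100 := by
    by_contra hcon
    have hcon := not_le.1 hcon
    have h1 : Real.exp (-(2 * h)) ≤ Real.exp (-(124 / 100)) := Real.exp_le_exp.2 (by linarith)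
    have h2 : Real.exp (-(124 / 100)) ≤ 0.2895 := by
      have h3 : (3.4555 : ℝ) ≤ Real.exp (124 / 100) := by
        have h8 := Real.sum_le_exp_of_nonneg (x := 124 / 100) (by norm_num) 10
        refine le_trans ?_ h8
        norm_num [Finset.sum_range_succ, Nat.factorial]
      rw [Real.exp_neg]
      have h4 : (Real.exp (124 / 100))⁻¹ ≤ (3.4555 : ℝ)⁻¹ := inv_anti₀ (by norm_num) h3
      refine h4.trans ?_
      norm_num
    have h3 : κ ^ 2 * Real.exp (-(2 * h)) ≤ 22.09 * 0.2895 :=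
      mul_le_mul hk2 (h1.trans h2) (Real.exp_pos _).le (by norm_num)
    have h4 : (5 / 2 : ℝ) ^ 2 ≤ R ^ 2 := pow_le_pow_left₀ (by norm_num) hR 2
    have h5 : (62 / 100 : ℝ) ^ 2 ≤ h ^ 2 := pow_le_pow_left₀ (by norm_num) hcon.le 2
    norm_num at h3 h4 h5
    linarith
  have hE := Real.exp_pos (-h)
  have hcos : 0 < Real.cos (θ + R) := by
    by_contra hcon
    have hcon := not_lt.1 hcon
    have h1 := hs.eR
    have h2 : κ * Real.exp (-h) * Real.cos (θ + R) ≤ 0 := mul_nonpos_of_nonneg_of_nonpos (by positivity) hcon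
    linarith
  have hφ2 : θ + R < Real.pi / 2 := by
    by_contra hcon
    have hcon := not_lt.1 hcon
    have := Real.cos_nonpos_of_pi_div_two_le_of_le hcon (by linarith [hs.φ1, Real.pi_pos])
    linarith
  have htan : Real.tan (θ + R) * R = h := by
    rw [Real.tan_eq_sin_div_cos, div_mul_eq_mul_div, div_eq_iff hcos.ne']
    have h1 := hs.eR
    have h2 := hs.eh
    calc Real.sin (θ + R) * R = Real.sin (θ + R) * (κ * Real.exp (-h) * Real.cos (θ + R)) := by rw [← h1]
      _ = (κ * Real.exp (-h) * Real.sin (θ + R)) * Real.cos (θ + R) := by ring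
      _ = h * Real.cos (θ + R) := by rw [← h2]
  have hφ : θ + R ≤ 1 / 4 := by
    have h1 := Real.le_tan hs.φ0 hφ2
    have h2 : (θ + R) * R ≤ h := by
      rw [← htan]
      exact mul_le_mul_of_nonneg_right h1 (by linarith)
    have h3 : (θ + R) * (5 / 2) ≤ (θ + R) * R := mul_le_mul_of_nonneg_left hR hs.φ0
    linarith
  refine ⟨hh, hφ, ?_⟩
  have h1 := hs.eR
  have h2 : (0.9687 : ℝ) ≤ Real.cos (θ + R) := by
    have h3 := Real.one_sub_sq_div_two_le_cos (x := θ + R)
    have h4 : (θ + R) ^ 2 ≤ (1 / 4) ^ 2 := pow_le_pow_left₀ hs.φ0 hφ 2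
    norm_num at h4 ⊢
    linarith
  have h3 : (0.537 : ℝ) ≤ Real.exp (-h) := by
    have h4 : Real.exp (-(62 / 100)) ≤ Real.exp (-h) := Real.exp_le_exp.2 (by linarith)
    refine le_trans ?_ h4
    have h5 : Real.exp (62 / 100) ≤ 1.86 := by
      have h := Real.exp_bound' (x := 62 / 100) (by norm_num) (by norm_num) (n := 6) (by norm_num)
      refine h.trans ?_
      norm_num [Finset.sum_range_succ, Nat.factorial]
    rw [Real.exp_neg]
    have h6 : (1.86 : ℝ)⁻¹ ≤ (Real.exp (62 / 100))⁻¹ := inv_anti₀ (Real.exp_pos _) h5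
    refine le_trans ?_ h6
    norm_num
  have h4 : (0.537 : ℝ) * 0.9687 ≤ Real.exp (-h) * Real.cos (θ + R) :=
    mul_le_mul h3 h2 (by norm_num) hE.le
  have h5 : κ * (1 / 2) ≤ κ * (Real.exp (-h) * Real.cos (θ + R)) := by
    apply mul_le_mul_of_nonneg_left _ hκ0.le
    refine le_trans ?_ h4
    norm_num
  have h6 : κ * (Real.exp (-h) * Real.cos (θ + R)) = R := by rw [← mul_assoc]; exact h1.symm
  linarith

/-- `g e^{-g} ≤ 1/e` -/
private theorem gh_ge (g : ℝ) : g * Real.exp (-g) ≤ 0.3679 := by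
  have h1 := Real.add_one_le_exp (g - 1)
  have h2 : Real.exp (g - 1) * Real.exp (-g) * Real.exp 1 = 1 := by
    rw [← Real.exp_add, ← Real.exp_add]
    have : g - 1 + -g + 1 = 0 := by ring
    rw [this, Real.exp_zero]
  have h3 := Real.exp_pos (-g)
  have h4 := gh_exp_one.1
  have h5 : g * Real.exp (-g) ≤ Real.exp (g - 1) * Real.exp (-g) := by
    apply mul_le_mul_of_nonneg_right _ h3.le
    linarith
  have h6 : 0 < Real.exp (g - 1) * Real.exp (-g) := by positivity
  norm_num at h4 ⊢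
  nlinarith

theorem sumH2 {κ θ R h R₁ g α : ℝ} (hs : SadX κ θ R h) (hy : SadY κ θ R₁ g α) (hκ : 13 / 10 ≤ κ)
    (hκ' : κ ≤ 47 / 10) (hR : 5 / 2 ≤ R) : 82 / 100 ≤ h + g ∧ 1 / 2 ≤ g := by
  obtain ⟨hh, hφ, hRκ⟩ := geoH2 hs hκ hκ' hR
  have hκ0 : 0 < κ := by linarith
  have hh0 := hs.h0
  have hφ0 := hs.φ0
  have hα0 := hy.α0
  have hα1 := hy.α1
  have hpi := Real.pi_gt_d4
  norm_num at hpi
  obtain ⟨φ, hφe⟩ : ∃ φ, φ = θ + R := ⟨_, rfl⟩
  rw [← hφe] at hφ hφ0
  have hexp : Real.exp (-h) * Real.exp h = 1 := by rw [← Real.exp_add]; simp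
  -- R ≤ κ
  have hRk : R ≤ κ := by
    have h1 := hs.eR
    have h2 : Real.exp (-h) ≤ 1 := Real.exp_le_one_iff.2 (by linarith)
    have h3 : Real.exp (-h) * Real.cos (θ + R) ≤ 1 := by
      have := Real.cos_le_one (θ + R)
      have := Real.exp_pos (-h)
      nlinarith
    have h4 : κ * (Real.exp (-h) * Real.cos (θ + R)) ≤ κ * 1 := mul_le_mul_of_nonneg_left h3 hκ0.le
    rw [← mul_assoc, ← h1] at h4
    linarith
  -- φ κ ≤ ... : φ * (5/2) ≤ h
  have hφh : φ * (5 / 2) ≤ h := by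
    have h1 := hs.eh
    have h2 := hs.eR
    have hcos : 0 < Real.cos (θ + R) := by
      have h3 := Real.one_sub_sq_div_two_le_cos (x := θ + R)
      rw [← hφe] at h3 ⊢
      nlinarith
    have h4 := Real.le_tan (x := φ) hφ0 (by linarith [Real.pi_gt_three])
    have htan : Real.tan φ * R = h := by
      rw [hφe, Real.tan_eq_sin_div_cos, div_mul_eq_mul_div, div_eq_iff hcos.ne']
      calc Real.sin (θ + R) * R = Real.sin (θ + R) * (κ * Real.exp (-h) * Real.cos (θ + R)) := by rw [← h2]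
        _ = (κ * Real.exp (-h) * Real.sin (θ + R)) * Real.cos (θ + R) := by ring
        _ = h * Real.cos (θ + R) := by rw [← h1]
    have h5 : φ * R ≤ h := by
      rw [← htan]
      exact mul_le_mul_of_nonneg_right h4 (by linarith)
    have h6 : φ * (5 / 2) ≤ φ * R := mul_le_mul_of_nonneg_left hR hφ0
    linarith
  -- α κ ≤ 0.374
  have hακ : α * κ ≤ 0.374 := by
    have h1 := hy.eg
    have h2 := gh_ge g
    have h3 : Real.exp g * Real.exp (-g) = 1 := by rw [← Real.exp_add]; simp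
    have h4 : g * Real.exp (-g) = κ * Real.sin α := by
      calc g * Real.exp (-g) = (κ * Real.exp g * Real.sin α) * Real.exp (-g) := by rw [← h1]
        _ = κ * Real.sin α * (Real.exp g * Real.exp (-g)) := by ring
        _ = κ * Real.sin α := by rw [h3, mul_one]
    rw [h4] at h2
    rcases eq_or_lt_of_le hα0 with h5 | h5
    · rw [← h5]; norm_num
    have h6 := Real.sin_gt_sub_cube (x := α) h5
    have h7 : α ^ 3 / 6 ≤ α * 0.0141 := by
      have h8 : α ^ 2 ≤ (29 / 100) ^ 2 := pow_le_pow_left₀ hα0 hα1 2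
      have h9 : α ^ 3 = α * α ^ 2 := by ring
      rw [h9]
      norm_num at h8 ⊢
      nlinarith
    have h10 : κ * (α - α * 0.0141) ≤ κ * Real.sin α := mul_le_mul_of_nonneg_left (by linarith) hκ0.le
    norm_num at h10 h2 ⊢
    linarith
  -- the main identity
  obtain ⟨K, hK⟩ : ∃ K, K = (2 * Real.pi - α - φ) / κ := ⟨_, rfl⟩
  have hid : Real.exp g * Real.cos α = Real.exp (-h) * Real.cos φ + K := by
    have h1 := hy.eR
    have h2 := hy.hα
    have h3 := hs.eR
    have h4 : κ * (Real.exp g * Real.cos α) = κ * (Real.exp (-h) * Real.cos φ + K) := by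
      have h5 : κ * K = 2 * Real.pi - α - φ := by rw [hK]; field_simp
      rw [mul_add, h5, ← mul_assoc, ← mul_assoc, ← h1, hφe, ← h3, h2]
      ring
    exact mul_left_cancel₀ hκ0.ne' h4
  have hKlow : 1.315 - 16 / 100 * h ≤ K := by
    rw [hK, le_div_iff₀ hκ0]
    -- κ (1.315 - .16 h) ≤ 2π - α - φ
    have h1 : α * κ ≤ 0.374 := hακ
    have h2 : φ ≤ 4 / 10 * h := by linarith
    have h3 : 5 / 2 * h ≤ κ * h := mul_le_mul_of_nonneg_right (by linarith) hh0
    have h4 : 5 / 2 * α ≤ 0.374 := by nlinarith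
    -- use κ ≤ 4.7 and α ≤ .374/κ: (κ - 4.7)(..) argument
    have h5 : κ * 1.315 + α ≤ 6.2829 := by
      -- κ * (κ * 1.315 + α) ≤ κ² 1.315 + .374 ≤ 6.2829 κ for 2.5 ≤ κ ≤ 4.7
      have h6 : κ * (κ * 1.315 + α) ≤ κ * 6.2829 := by
        have h7 : κ * α ≤ 0.374 := by rw [mul_comm]; exact h1
        have h8 : 0 ≤ (κ - 5 / 2) * (47 / 10 - κ) := mul_nonneg (by linarith) (by linarith)
        norm_num at h7 ⊢
        nlinarith
      exact le_of_mul_le_mul_left h6 hκ0
    norm_num at h5 ⊢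
    linarith
  have hcosα := Real.cos_le_one α
  have hcosα0 : 0 ≤ Real.cos α := Real.cos_nonneg_of_neg_pi_div_two_le_of_le (by linarith [Real.pi_pos]) (by linarith)
  have hcosφ : 1 - φ ^ 2 / 2 ≤ Real.cos φ := Real.one_sub_sq_div_two_le_cos
  have hEg := Real.exp_pos g
  have hRk2 : Real.exp (-h) * Real.cos φ * κ = R := by
    rw [hφe]
    have := hs.eR
    linarith
  constructor
  · by_contra hcon
    have hcon := not_le.1 hcon
    have h1 : Real.exp (h + g) ≤ Real.exp (82 / 100) := Real.exp_le_exp.2 hcon.le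
    have h2 : Real.exp (82 / 100) ≤ 2.28 := by
      have h := Real.exp_bound' (x := 82 / 100) (by norm_num) (by norm_num) (n := 6) (by norm_num)
      refine h.trans ?_
      norm_num [Finset.sum_range_succ, Nat.factorial]
    have h3 : Real.exp (h + g) * Real.cos α = Real.cos φ + Real.exp h * K := by
      rw [Real.exp_add, mul_assoc, hid]
      calc Real.exp h * (Real.exp (-h) * Real.cos φ + K)
          = (Real.exp (-h) * Real.exp h) * Real.cos φ + Real.exp h * K := by ring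
        _ = _ := by rw [hexp, one_mul]
    have h4 : Real.exp (h + g) * Real.cos α ≤ Real.exp (h + g) := by
      have := Real.exp_pos (h + g)
      nlinarith
    have h5 : 1 + h ≤ Real.exp h := by
      have := Real.add_one_le_exp h
      linarith
    have hK0 : 0 ≤ K := by
      norm_num at hKlow
      linarith
    have h6 : (1 + h) * (1.315 - 16 / 100 * h) ≤ Real.exp h * K := by
      refine le_trans (mul_le_mul_of_nonneg_left hKlow (by linarith)) (mul_le_mul_of_nonneg_right h5 hK0)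
    have h7 : φ ^ 2 ≤ (4 / 10 * h) ^ 2 := pow_le_pow_left₀ hφ0 (by linarith) 2
    norm_num at h2 h6
    nlinarith
  · by_contra hcon
    have hcon := not_le.1 hcon
    have h1 : Real.exp g ≤ Real.exp (1 / 2) := Real.exp_le_exp.2 hcon.le
    have h2 : Real.exp (1 / 2) ≤ 1.65 := by
      have h := Real.exp_bound' (x := 1 / 2) (by norm_num) (by norm_num) (n := 6) (by norm_num)
      refine h.trans ?_
      norm_num [Finset.sum_range_succ, Nat.factorial]
    have h3 : Real.exp g * Real.cos α ≤ Real.exp g := by nlinarith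
    have h4 : 1 / 2 ≤ Real.exp (-h) * Real.cos φ := by
      by_contra hc
      have hc := not_le.1 hc
      have := mul_lt_mul_of_pos_right hc hκ0
      linarith
    norm_num at h2 hKlow
    linarith

end Sok
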