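import Pool.Agent.Lib.MP_816dec_an.LNear

/-!
MP_816dec_an, b = 1, `1.3 ≤ κ ≤ 4.7`, `R ≥ 5/2` (row L-XH): the final real inequality.
-/

set_option autoImplicit false

open Complex Set Filter Topology MeasureTheory

namespace Sok

open W

namespace XHaux

theorem expneg_le {k c : ℝ} (n : ℕ) (hk : 0 ≤ k) (hc : 0 < c) (h : 1 / c ≤ ∑ i ∈ Finset.range n, k ^ i / i.factorial) :
    Real.exp (-k) ≤ c := by
  have h1 : 1 / c ≤ Real.exp k := h.trans (Real.sum_le_exp_of_nonneg hk n)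
  rw [Real.exp_neg, inv_le_comm₀ (Real.exp_pos _) hc, ← one_div]
  exact h1

theorem e36 : Real.exp (-(36 / 10)) ≤ 274 / 10000 := by
  refine expneg_le 14 (by norm_num) (by norm_num) ?_
  norm_num [Finset.sum_range_succ, Nat.factorial]
theorem e31 : Real.exp (-(31 / 10)) ≤ 451 / 10000 := by
  refine expneg_le 14 (by norm_num) (by norm_num) ?_
  norm_num [Finset.sum_range_succ, Nat.factorial]
theorem e27 : Real.exp (-(27 / 10)) ≤ 673 / 10000 := by
  refine expneg_le 12 (by norm_num) (by norm_num) ?_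
  norm_num [Finset.sum_range_succ, Nat.factorial]
theorem e61 : Real.exp (-(61 / 10)) ≤ 225 / 100000 := by
  refine expneg_le 20 (by norm_num) (by norm_num) ?_
  norm_num [Finset.sum_range_succ, Nat.factorial]
theorem e51 : Real.exp (-(51 / 10)) ≤ 62 / 10000 := by
  refine expneg_le 17 (by norm_num) (by norm_num) ?_
  norm_num [Finset.sum_range_succ, Nat.factorial]
theorem e595 : Real.exp (-(595 / 100)) ≤ 262 / 100000 := by
  refine expneg_le 19 (by norm_num) (by norm_num) ?_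
  norm_num [Finset.sum_range_succ, Nat.factorial]

theorem E4 {b y : ℝ} (hb : 100 / 47 ≤ b) (hy0 : 0 ≤ y) (hby : 1 ≤ 3 / 2 * b * y) :
    Real.exp (-(34 / 10 * b)) ≤ 35 / 10000 * y := by
  have h1 : b ≤ Real.exp (b - 1) := by have := Real.add_one_le_exp (b - 1); linarith
  have h2 : Real.exp (-(34 / 10 * b)) * b ≤ Real.exp (-(34 / 10 * b)) * Real.exp (b - 1) :=
    mul_le_mul_of_nonneg_left h1 (Real.exp_pos _).le
  rw [← Real.exp_add] at h2
  have h3 : Real.exp (-(34 / 10 * b) + (b - 1)) ≤ Real.exp (-(51 / 10)) * Real.exp (-1) := by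
    rw [← Real.exp_add]
    exact Real.exp_le_exp.2 (by linarith)
  have h4 : Real.exp (-(51 / 10)) * Real.exp (-1) ≤ 62 / 10000 * (3679 / 10000) :=
    mul_le_mul e51 (by have := Real.exp_neg_one_lt_d9; linarith) (Real.exp_pos _).le (by norm_num)
  have h5 : Real.exp (-(34 / 10 * b)) * 1 ≤ Real.exp (-(34 / 10 * b)) * (3 / 2 * b * y) :=
    mul_le_mul_of_nonneg_left hby (Real.exp_pos _).le
  calc Real.exp (-(34 / 10 * b)) ≤ Real.exp (-(34 / 10 * b)) * (3 / 2 * b * y) := by linarith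
    _ = 3 / 2 * (Real.exp (-(34 / 10 * b)) * b) * y := by ring
    _ ≤ 3 / 2 * (62 / 10000 * (3679 / 10000)) * y := by
      apply mul_le_mul_of_nonneg_right _ hy0
      linarith
    _ ≤ 35 / 10000 * y := mul_le_mul_of_nonneg_right (by norm_num) hy0

theorem E5 {b : ℝ} (hb : 100 / 47 ≤ b) : Real.exp (-(28 / 10 * b)) ≤ 262 / 100000 :=
  (Real.exp_le_exp.2 (by linarith : -(28 / 10 * b) ≤ -(595 / 100))).trans e595

theorem E5' {b y : ℝ} (hb : 100 / 47 ≤ b) (hby : 1 ≤ 3 / 2 * b * y) :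
    Real.exp (-(28 / 10 * b)) * (1 / b) ≤ 393 / 100000 * y := by
  have hb0 : 0 < b := by linarith
  have h1 : 1 / b ≤ 3 / 2 * y := by
    rw [div_le_iff₀ hb0]
    linarith
  calc Real.exp (-(28 / 10 * b)) * (1 / b) ≤ 262 / 100000 * (3 / 2 * y) :=
        mul_le_mul (E5 hb) h1 (by positivity) (by norm_num)
    _ = _ := by ring

theorem J12 {a M z : ℝ} (ha0 : 0 < a) (hz : 1 / a = z) (hM : M ≤ 1031 / 6000 * a) :
    2 * M / (7 / 8 * a) ^ 2 ≤ 4489 / 10000 * z ∧ 2 * M / (3 / 4 * a) ^ 2 ≤ 611 / 1000 * z := by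
  have hz0 : 0 ≤ z := by rw [← hz]; positivity
  have h1 : M * (1 / a) ≤ 1031 / 6000 := by
    rw [mul_one_div, div_le_iff₀ ha0]; exact hM
  rw [hz] at h1
  constructor
  · have e : 2 * M / (7 / 8 * a) ^ 2 = 128 / 49 * (M * (1 / a)) * (1 / a) := by field_simp; ring
    rw [e, hz]
    exact mul_le_mul_of_nonneg_right (by linarith) hz0
  · have e : 2 * M / (3 / 4 * a) ^ 2 = 32 / 9 * (M * (1 / a)) * (1 / a) := by field_simp; ring
    rw [e, hz]
    exact mul_le_mul_of_nonneg_right (by linarith) hz0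

theorem J345 {a z : ℝ} (ha : 5 ≤ a) (hz : 1 / a = z) :
    2 * (Real.exp (-(a / 2) * (6 / 5) ^ 2) / (a * (6 / 5))) ≤ 457 / 10000 * z ∧
    Real.exp (-(62 / 100 * a)) * (1 / (1 / 2 * a) + 0 / (1 / 2 * a) ^ 2) ≤ 902 / 10000 * z ∧
    Real.exp (-(54 / 100 * a)) * (1 / (1 / 4 * a) + 0 / (1 / 4 * a) ^ 2) ≤ 2692 / 10000 * z ∧
    Real.exp (-(62 / 100 * a)) * (18 / 25 / (1 / 2 * a) + 58 / 25 / (1 / 2 * a) ^ 2) ≤ 1487 / 10000 * z ∧
    Real.exp (-(54 / 100 * a)) * (18 / 25 / (1 / 4 * a) + 58 / 25 / (1 / 4 * a) ^ 2) ≤ 6935 / 10000 * z ∧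
    Real.exp (-(122 / 100 * a)) / (2 * a - 1) ≤ 125 / 100000 * z := by
  have ha0 : 0 < a := by linarith
  have hz0 : 0 ≤ z := by rw [← hz]; positivity
  have hz5 : z ≤ 1 / 5 := by
    rw [← hz, div_le_div_iff₀ ha0 (by norm_num)]
    linarith
  have E1 : Real.exp (-(a / 2) * (6 / 5) ^ 2) ≤ 274 / 10000 :=
    (Real.exp_le_exp.2 (by linarith : -(a / 2) * (6 / 5) ^ 2 ≤ -(36 / 10))).trans e36
  have E2 : Real.exp (-(62 / 100 * a)) ≤ 451 / 10000 :=
    (Real.exp_le_exp.2 (by linarith : -(62 / 100 * a) ≤ -(31 / 10))).trans e31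
  have E3 : Real.exp (-(54 / 100 * a)) ≤ 673 / 10000 :=
    (Real.exp_le_exp.2 (by linarith : -(54 / 100 * a) ≤ -(27 / 10))).trans e27
  have E6 : Real.exp (-(122 / 100 * a)) ≤ 225 / 100000 :=
    (Real.exp_le_exp.2 (by linarith : -(122 / 100 * a) ≤ -(61 / 10))).trans e61
  refine ⟨?_, ?_, ?_, ?_, ?_, ?_⟩
  · have e : 2 * (Real.exp (-(a / 2) * (6 / 5) ^ 2) / (a * (6 / 5))) =
        5 / 3 * Real.exp (-(a / 2) * (6 / 5) ^ 2) * (1 / a) := by field_simp; ring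
    rw [e, hz]
    exact mul_le_mul_of_nonneg_right (by linarith) hz0
  · have e : Real.exp (-(62 / 100 * a)) * (1 / (1 / 2 * a) + 0 / (1 / 2 * a) ^ 2) =
        2 * Real.exp (-(62 / 100 * a)) * (1 / a) := by field_simp; ring
    rw [e, hz]
    exact mul_le_mul_of_nonneg_right (by linarith) hz0
  · have e : Real.exp (-(54 / 100 * a)) * (1 / (1 / 4 * a) + 0 / (1 / 4 * a) ^ 2) =
        4 * Real.exp (-(54 / 100 * a)) * (1 / a) := by field_simp; ring
    rw [e, hz]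
    exact mul_le_mul_of_nonneg_right (by linarith) hz0
  · have e : Real.exp (-(62 / 100 * a)) * (18 / 25 / (1 / 2 * a) + 58 / 25 / (1 / 2 * a) ^ 2) =
        Real.exp (-(62 / 100 * a)) * (36 / 25 + 232 / 25 * (1 / a)) * (1 / a) := by field_simp; ring
    rw [e, hz]
    refine mul_le_mul_of_nonneg_right ?_ hz0
    calc Real.exp (-(62 / 100 * a)) * (36 / 25 + 232 / 25 * z) ≤ 451 / 10000 * (36 / 25 + 232 / 25 * (1 / 5)) :=
          mul_le_mul E2 (by linarith) (by positivity) (by norm_num)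
      _ ≤ _ := by norm_num
  · have e : Real.exp (-(54 / 100 * a)) * (18 / 25 / (1 / 4 * a) + 58 / 25 / (1 / 4 * a) ^ 2) =
        Real.exp (-(54 / 100 * a)) * (72 / 25 + 928 / 25 * (1 / a)) * (1 / a) := by field_simp; ring
    rw [e, hz]
    refine mul_le_mul_of_nonneg_right ?_ hz0
    calc Real.exp (-(54 / 100 * a)) * (72 / 25 + 928 / 25 * z) ≤ 673 / 10000 * (72 / 25 + 928 / 25 * (1 / 5)) :=
          mul_le_mul E3 (by linarith) (by positivity) (by norm_num)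
      _ ≤ _ := by norm_num
  · have haz : a * z = 1 := by rw [← hz]; field_simp
    rw [div_le_iff₀ (by linarith)]
    have e : 125 / 100000 * z * (2 * a - 1) = 250 / 100000 * (a * z) - 125 / 100000 * z := by ring
    rw [e, haz]
    linarith

theorem S1 {a x y : ℝ} (ha0 : 0 < a) (hx : x = Real.sqrt a) (hx0 : 0 < x) (hy : y = 1 / x) (hinv : 1 / a = y ^ 2)
    (hy2 : y ^ 2 ≤ 1 / 5) : Real.sqrt (2 * Real.pi) / 4 * (1 / (7 / 8 * a * Real.sqrt (7 / 8 * a)) +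
        1 / (3 / 4 * a * Real.sqrt (3 / 4 * a))) ≤ 3463 / 10000 * y := by
  have hy0 : 0 < y := by rw [hy]; positivity
  have q1 : Real.sqrt (2 * Real.pi) ≤ 25067 / 10000 := by
    rw [Real.sqrt_le_left (by norm_num)]
    have := Real.pi_lt_d4
    norm_num at this ⊢
    linarith
  have q2 : 9354 / 10000 * x ≤ Real.sqrt (7 / 8 * a) := by
    rw [Real.sqrt_mul (by norm_num), ← hx]
    apply mul_le_mul_of_nonneg_right _ hx0.le
    apply Real.le_sqrt_of_sq_le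
    norm_num
  have q3 : 866 / 1000 * x ≤ Real.sqrt (3 / 4 * a) := by
    rw [Real.sqrt_mul (by norm_num), ← hx]
    apply mul_le_mul_of_nonneg_right _ hx0.le
    apply Real.le_sqrt_of_sq_le
    norm_num
  have h4 : 0 ≤ y ^ 2 * y := by positivity
  have q4 : 1 / (7 / 8 * a * Real.sqrt (7 / 8 * a)) ≤ 12219 / 10000 * (y ^ 2 * y) := by
    have h1 : 7 / 8 * a * (9354 / 10000 * x) ≤ 7 / 8 * a * Real.sqrt (7 / 8 * a) :=
      mul_le_mul_of_nonneg_left q2 (by positivity)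
    have h2 : 1 / (7 / 8 * a * Real.sqrt (7 / 8 * a)) ≤ 1 / (7 / 8 * a * (9354 / 10000 * x)) :=
      one_div_le_one_div_of_le (by positivity) h1
    have h3 : 1 / (7 / 8 * a * (9354 / 10000 * x)) = 80000 / 65478 * ((1 / a) * (1 / x)) := by field_simp; norm_num
    rw [h3, hinv, ← hy] at h2
    exact h2.trans (mul_le_mul_of_nonneg_right (by norm_num) h4)
  have q5 : 1 / (3 / 4 * a * Real.sqrt (3 / 4 * a)) ≤ 15397 / 10000 * (y ^ 2 * y) := by
    have h1 : 3 / 4 * a * (866 / 1000 * x) ≤ 3 / 4 * a * Real.sqrt (3 / 4 * a) :=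
      mul_le_mul_of_nonneg_left q3 (by positivity)
    have h2 : 1 / (3 / 4 * a * Real.sqrt (3 / 4 * a)) ≤ 1 / (3 / 4 * a * (866 / 1000 * x)) :=
      one_div_le_one_div_of_le (by positivity) h1
    have h3 : 1 / (3 / 4 * a * (866 / 1000 * x)) = 4000 / 2598 * ((1 / a) * (1 / x)) := by field_simp; norm_num
    rw [h3, hinv, ← hy] at h2
    exact h2.trans (mul_le_mul_of_nonneg_right (by norm_num) h4)
  have q6 : y ^ 2 * y ≤ 1 / 5 * y := mul_le_mul_of_nonneg_right hy2 hy0.le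
  calc Real.sqrt (2 * Real.pi) / 4 * (1 / (7 / 8 * a * Real.sqrt (7 / 8 * a)) +
      1 / (3 / 4 * a * Real.sqrt (3 / 4 * a))) ≤
        25067 / 10000 / 4 * (12219 / 10000 * (1 / 5 * y) + 15397 / 10000 * (1 / 5 * y)) := by
        apply mul_le_mul (by linarith) (by linarith) (by positivity) (by norm_num)
    _ = (25067 / 10000 / 4 * (12219 / 10000 * (1 / 5) + 15397 / 10000 * (1 / 5))) * y := by ring
    _ ≤ _ := mul_le_mul_of_nonneg_right (by norm_num) hy0.le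

theorem final_ineq {a b N M : ℝ} (ha : 5 ≤ a) (hb : 100 / 47 ≤ b) (hab : a ≤ 47 / 10 * b)
    (hN : 2295 / 1000 / Real.sqrt a ≤ N) (hM : M ≤ 1031 / 6000 * a) {J S : ℝ}
    (hJ : J = 2 * M / (7 / 8 * a) ^ 2 + 2 * M / (3 / 4 * a) ^ 2 + 2 * (Real.exp (-(a / 2) * (6 / 5) ^ 2) / (a * (6 / 5))) +
      (Real.exp (-(62 / 100 * a)) * (1 / (1 / 2 * a) + 0 / (1 / 2 * a) ^ 2) +
        Real.exp (-(54 / 100 * a)) * (1 / (1 / 4 * a) + 0 / (1 / 4 * a) ^ 2) +
        1 * Real.exp (-(34 / 10 * b)) +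
        Real.exp (-(28 / 10 * b)) * (1 / (1 / 2 * b) + 0 / (1 / 2 * b) ^ 2) +
        1 * Real.exp (-(122 / 100 * a)) / (2 * a - 1)))
    (hS : S = Real.sqrt (2 * Real.pi) / 4 * (1 / (7 / 8 * a * Real.sqrt (7 / 8 * a)) +
        1 / (3 / 4 * a * Real.sqrt (3 / 4 * a))) +
      (Real.exp (-(62 / 100 * a)) * (18 / 25 / (1 / 2 * a) + 58 / 25 / (1 / 2 * a) ^ 2) +
        Real.exp (-(54 / 100 * a)) * (18 / 25 / (1 / 4 * a) + 58 / 25 / (1 / 4 * a) ^ 2) +
        32 / 5 * Real.exp (-(34 / 10 * b)) +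
        Real.exp (-(28 / 10 * b)) * (32 / 5 / (1 / 2 * b) + 1 / (1 / 2 * b) ^ 2) +
        26 / 5 * Real.exp (-(122 / 100 * a)) / (2 * a - 1))) :
    J < N ∧ S ≤ 6 / 10 * (N - J) := by
  have ha0 : 0 < a := by linarith
  have hb0 : 0 < b := by linarith
  obtain ⟨x, hx⟩ : ∃ x, x = Real.sqrt a := ⟨_, rfl⟩
  have hx0 : 0 < x := by rw [hx]; exact Real.sqrt_pos.2 ha0
  have hx2 : x ^ 2 = a := by rw [hx]; exact Real.sq_sqrt ha0.le
  obtain ⟨y, hy⟩ : ∃ y, y = 1 / x := ⟨_, rfl⟩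
  have hy0 : 0 < y := by rw [hy]; positivity
  have hxy : x * y = 1 := by rw [hy]; field_simp
  have hay : a * y ^ 2 = 1 := by rw [← hx2, ← mul_pow, hxy, one_pow]
  have hy2 : y ^ 2 ≤ 1 / 5 := by
    have h1 : 5 * y ^ 2 ≤ a * y ^ 2 := mul_le_mul_of_nonneg_right ha (sq_nonneg y)
    linarith
  have hy1 : y ≤ 4473 / 10000 := by
    by_contra hc
    have hc := not_le.1 hc
    have h1 : (4473 / 10000 : ℝ) ^ 2 < y ^ 2 := pow_lt_pow_left₀ hc (by norm_num) (by norm_num)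
    norm_num at h1
    linarith
  have hyy : y ^ 2 ≤ 4473 / 10000 * y := by
    have := mul_le_mul_of_nonneg_right hy1 hy0.le
    calc y ^ 2 = y * y := by ring
      _ ≤ _ := this
  have hinv : 1 / a = y ^ 2 := by
    rw [div_eq_iff ha0.ne']
    linarith
  -- `x ≤ 3/2 b`
  have hxb : x ≤ 3 / 2 * b := by
    have h1 : a ≤ (3 / 2 * b) ^ 2 := by
      have h2 : 100 / 47 * b ≤ b * b := mul_le_mul_of_nonneg_right hb hb0.le
      have h3 : (3 / 2 * b) ^ 2 = 9 / 4 * (b * b) := by ring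
      rw [h3]
      linarith
    rw [hx]
    exact (Real.sqrt_le_sqrt h1).trans (le_of_eq (Real.sqrt_sq (by positivity)))
  have hby : 1 ≤ 3 / 2 * b * y := by
    have := mul_le_mul_of_nonneg_right hxb hy0.le
    linarith
  have e4 := E4 hb hy0.le hby
  have e5 := E5' hb hby
  obtain ⟨J1, J2⟩ := J12 ha0 hinv hM
  obtain ⟨J3, J4, J5, S2, S3, V⟩ := J345 ha hinv
  have s1 := S1 ha0 hx hx0 hy hinv hy2
  have J7 : Real.exp (-(28 / 10 * b)) * (1 / (1 / 2 * b) + 0 / (1 / 2 * b) ^ 2) ≤ 786 / 100000 * y := by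
    have e : Real.exp (-(28 / 10 * b)) * (1 / (1 / 2 * b) + 0 / (1 / 2 * b) ^ 2) =
        2 * (Real.exp (-(28 / 10 * b)) * (1 / b)) := by field_simp; ring
    rw [e]
    linarith
  have S5 : Real.exp (-(28 / 10 * b)) * (32 / 5 / (1 / 2 * b) + 1 / (1 / 2 * b) ^ 2) ≤ 58 / 1000 * y := by
    have e : Real.exp (-(28 / 10 * b)) * (32 / 5 / (1 / 2 * b) + 1 / (1 / 2 * b) ^ 2) =
        (Real.exp (-(28 / 10 * b)) * (1 / b)) * (64 / 5 + 4 * (1 / b)) := by field_simp; ring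
    rw [e]
    have h1 : 1 / b ≤ 47 / 100 := by rw [div_le_iff₀ hb0]; linarith
    calc (Real.exp (-(28 / 10 * b)) * (1 / b)) * (64 / 5 + 4 * (1 / b)) ≤
          (393 / 100000 * y) * (64 / 5 + 4 * (47 / 100)) :=
          mul_le_mul e5 (by linarith) (by positivity) (by positivity)
      _ = (393 / 100000 * (64 / 5 + 4 * (47 / 100))) * y := by ring
      _ ≤ _ := mul_le_mul_of_nonneg_right (by norm_num) hy0.le
  have hN' : 2295 / 1000 * y ≤ N := by
    rw [hy, hx]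
    calc 2295 / 1000 * (1 / Real.sqrt a) = 2295 / 1000 / Real.sqrt a := by ring
      _ ≤ N := hN
  rw [one_mul, one_mul] at hJ
  rw [mul_div_assoc] at hS
  clear hb hab ha hM hx hx2 hy hxy hay hy2 hy1 hinv hxb hby e5
  have HJ : J ≤ 68 / 100 * y := by
    clear hS S2 S3 S5 s1 hN
    rw [hJ]
    linarith
  have HS : S ≤ 82 / 100 * y := by
    clear hJ HJ J1 J2 J3 J4 J5 J7 hN
    rw [hS]
    linarith
  clear hJ hS J1 J2 J3 J4 J5 J7 S2 S3 S5 s1 hN e4 V hyy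
  constructor
  · linarith
  · linarith

end XHaux

end Sok
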