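import Pool.Agent.Lib.MP_816dec_an.LXH2
import Pool.Agent.Lib.MP_816dec_an.LXH3

/-!
MP_816dec_an, b = 1, `1.3 ≤ κ ≤ 4.7`, `R ≥ 5/2` (row L-XH): the left part, case H.
-/

set_option autoImplicit false

open Complex Set Filter Topology MeasureTheory

namespace Sok

open W

namespace XHaux

/-- real part of the remainder, left half -/
theorem reL {R h β t : ℝ} (hβ : 0 < β) (hR : 0 < R) (h0 : 0 ≤ h) (h1 : -(6 / 5) ≤ t) (h2 : t < 0) :
    (Rm (R + h * I) β t).re ≤ (1 - 7 / 8) * (R / β) * t ^ 2 / 2 := by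
  rw [re_Rm_real, div_le_iff₀ hβ]
  have e : (1 - 7 / 8) * (R / β) * t ^ 2 / 2 * β = 1 / 16 * (R * t ^ 2) := by field_simp; ring
  rw [e]
  have h3 := cos_le_quarticL t
  have h4 : t ^ 2 ≤ 144 / 100 := by nlinarith
  have h5 : t ^ 4 / 24 ≤ 6 / 100 * t ^ 2 := by nlinarith [sq_nonneg t]
  have h6 : 0 ≤ Real.sin t - t := by
    have := Real.sin_le (by linarith : 0 ≤ -t)
    rw [Real.sin_neg] at this
    linarith
  have h7 : 0 ≤ h * (Real.sin t - t) := mul_nonneg h0 h6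
  have h8 : R * (Real.cos t - 1 + t ^ 2 / 2) ≤ R * (6 / 100 * t ^ 2) :=
    mul_le_mul_of_nonneg_left (h3.trans h5) hR.le
  have h9 : 0 ≤ R * t ^ 2 := by positivity
  linarith

/-- real part of the remainder, right half -/
theorem reR {R h β t : ℝ} (hβ : 0 < β) (hR : 0 < R) (h0 : 0 ≤ h) (hh : h ≤ 248 / 1000 * R) (h1 : 0 < t)
    (h2 : t ≤ 6 / 5) : (Rm (R + h * I) β t).re ≤ (1 - 3 / 4) * (R / β) * t ^ 2 / 2 := by
  rw [re_Rm_real, div_le_iff₀ hβ]
  have e : (1 - 3 / 4) * (R / β) * t ^ 2 / 2 * β = 1 / 8 * (R * t ^ 2) := by field_simp; ring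
  rw [e]
  have h3 := cos_le_quarticL t
  have h4 : t ^ 2 ≤ 144 / 100 := by nlinarith
  have h5 : t ^ 4 / 24 ≤ 6 / 100 * t ^ 2 := by nlinarith [sq_nonneg t]
  have h6 : t - Real.sin t ≤ 1 / 5 * t ^ 2 := by
    have h7 := Real.sin_gt_sub_cube h1
    have h8 : t ^ 3 / 6 ≤ 1 / 5 * t ^ 2 := by nlinarith [sq_nonneg t]
    linarith
  have h7 : h * (t - Real.sin t) ≤ 248 / 1000 * R * (1 / 5 * t ^ 2) := by
    have h9 : 0 ≤ t - Real.sin t := by have := Real.sin_le h1.le; linarith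
    exact mul_le_mul hh h6 h9 (by positivity)
  have h8 : R * (Real.cos t - 1 + t ^ 2 / 2) ≤ R * (6 / 100 * t ^ 2) :=
    mul_le_mul_of_nonneg_left (h3.trans h5) hR.le
  have h9 : 0 ≤ R * t ^ 2 := by positivity
  nlinarith

theorem Psi_real (L : ℂ) {β : ℝ} (hβ : β ≠ 0) (t : ℝ) :
    Psi L t / β = -((I + L) / β / 2) * (t : ℂ) ^ 2 + Rm L β t := by
  have h := Psi_line L hβ 0 t
  simpa using h

theorem norm_Rm (L : ℂ) {β : ℝ} (hβ : 0 < β) (t : ℝ) : ‖Rm L β t‖ ≤ ‖L‖ / (6 * β) * |t| ^ 3 := by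
  have h1 := (segBd_horizontal |t| t le_rfl).1
  simp only [Complex.ofReal_zero, zero_mul, Complex.exp_zero, mul_one] at h1
  unfold Rm
  rw [norm_mul, norm_div, Complex.norm_real, Real.norm_eq_abs, abs_of_pos hβ]
  calc ‖L‖ / β * ‖cexp (I * t) - 1 - I * t + (t : ℂ) ^ 2 / 2‖ ≤ ‖L‖ / β * (1 / 6 * |t| ^ 3) :=
        mul_le_mul_of_nonneg_left h1 (by positivity)
    _ = _ := by field_simp

theorem cont_gre (R h β : ℝ) : Continuous (fun t : ℝ => gre R h t 0 / β) := by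
  unfold gre
  fun_prop

theorem gre_real (R h β t : ℝ) : gre R h t 0 / β = -(R / β / 2) * t ^ 2 + (Rm (R + h * I) β t).re := by
  rw [re_Rm_real]
  unfold gre
  rw [neg_zero, Real.exp_zero]
  ring

/-- the central part of `KK` -/
theorem central {β r θ R h : ℝ} (hβ : 0 < β) (hs : Sad β r θ (R + h * I)) (hR : 0 < R) (h0 : 0 ≤ h)
    (hh : h ≤ 248 / 1000 * R) {θ' : ℝ} {P : ℂ → ℂ} {lL V lR : ℂ} (hp : Pk θ' (KK β r θ) P lL V lR) :
    ‖(P (θ + (R + h * I) + ((6 / 5 : ℝ) : ℂ)) - P (θ + (R + h * I) + ((-(6 / 5) : ℝ) : ℂ))) -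
      cexp (((R + h * I : ℂ) - I * (R + h * I : ℂ) ^ 2 / 2) / β) * (2 * Real.pi / ((I + (R + h * I)) / β)) ^ (1 / 2 : ℂ)‖ ≤
    Real.exp (R * (1 + h) / β) * (2 * (‖(R + h * I : ℂ)‖ / (6 * β)) / (7 / 8 * (R / β)) ^ 2 +
      2 * (‖(R + h * I : ℂ)‖ / (6 * β)) / (3 / 4 * (R / β)) ^ 2 +
      2 * (Real.exp (-(R / β / 2) * (6 / 5) ^ 2) / (R / β * (6 / 5)))) := by
  have hΛ : ((I + (R + h * I)) / (β : ℂ)).re = R / β := by
    rw [Complex.div_ofReal_re]
    simp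
  have h1 := near_value (Λ := (I + (R + h * I)) / (β : ℂ)) (c₁ := 7 / 8) (c₂ := 3 / 4)
    (M := ‖(R + h * I : ℂ)‖ / (6 * β)) (T := 6 / 5) (R := fun t : ℝ => Rm (R + h * I) β t)
    (by rw [hΛ]; positivity) (by norm_num) (by norm_num) (by norm_num) (by norm_num) (by positivity)
    (by unfold Rm; fun_prop) (by norm_num) (fun t _ => norm_Rm _ hβ t)
    (fun t h2 h3 => by rw [hΛ]; exact reL hβ hR h0 h2 h3) (fun t h2 h3 => by rw [hΛ]; exact reR hβ hR h0 hh h2 h3)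
  rw [hΛ] at h1
  have h2 := hp.segment (θ + (R + h * I)) 1 (-(6 / 5)) (6 / 5)
  have h3 := KU_seg hβ.ne' hs 0 1 (-(6 / 5)) (6 / 5)
  have e0 : KU β r θ (R + h * I) 0 = KK β r θ := by funext y; simp [KU]
  rw [e0] at h3
  rw [h3, mul_one, mul_one] at h2
  rw [← h2]
  simp only [one_pow, pow_zero, one_mul, mul_one]
  have e1 : (∫ t in (-(6 / 5) : ℝ)..(6 / 5), cexp (Psi (R + h * I) t / β)) =
      ∫ t in (-(6 / 5) : ℝ)..(6 / 5), cexp (-((I + (R + h * I)) / β / 2) * (t : ℂ) ^ 2 + Rm (R + h * I) β t) := by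
    refine intervalIntegral.integral_congr (fun t _ => ?_)
    show cexp _ = cexp _
    rw [Psi_real _ hβ.ne']
  rw [e1, ← mul_sub, norm_mul, norm_E]
  exact mul_le_mul_of_nonneg_left h1 (Real.exp_pos _).le

/-- the central part of the second order integrand -/
theorem central2 {β r θ R h : ℝ} (hβ : 0 < β) (hs : Sad β r θ (R + h * I)) (hR : 0 < R) (h0 : 0 ≤ h)
    (hh : h ≤ 248 / 1000 * R) {θ' : ℝ} {P : ℂ → ℂ} {lL V lR : ℂ} (hp : Pk θ' (Kq β r θ (R + h * I)) P lL V lR) :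
    ‖P (θ + (R + h * I) + ((6 / 5 : ℝ) : ℂ)) - P (θ + (R + h * I) + ((-(6 / 5) : ℝ) : ℂ))‖ ≤
    Real.exp (R * (1 + h) / β) * (Real.sqrt (2 * Real.pi) / 4 * (1 / (7 / 8 * (R / β) * Real.sqrt (7 / 8 * (R / β))) +
        1 / (3 / 4 * (R / β) * Real.sqrt (3 / 4 * (R / β))))) := by
  have ha : 0 < R / β := by positivity
  have h1 := near_second (a := R / β) (c₁ := 7 / 8) (c₂ := 3 / 4) (T := 6 / 5) (E := fun t => gre R h t 0 / β) ha
    (by norm_num) (by norm_num) (cont_gre R h β) (by norm_num)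
    (fun t h2 h3 => by
      rw [gre_real]
      have := reL hβ hR h0 h2 h3
      linarith)
    (fun t h2 h3 => by
      rw [gre_real]
      have := reR hβ hR h0 hh h2 h3
      linarith)
  have hc := cont_gre R h β
  have h2 := hp.seg_le (θ + (R + h * I)) 1 norm_one (a := -(6 / 5)) (b := 6 / 5) (by norm_num)
    (g := fun t => Real.exp (R * (1 + h) / β) * (t ^ 2 / 2 * Real.exp (gre R h t 0 / β))) (by fun_prop) ?_
  · rw [mul_one, mul_one, intervalIntegral.integral_const_mul] at h2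
    exact h2.trans (mul_le_mul_of_nonneg_left h1 (Real.exp_pos _).le)
  · intro t _ _
    have h3 := norm_KU hβ.ne' hs 0 t 0
    rw [pow_zero, one_mul] at h3
    have e0 : KU β r θ (R + h * I) 0 = KK β r θ := by funext y; simp [KU]
    rw [e0] at h3
    simp only [Complex.ofReal_zero, zero_mul, add_zero] at h3
    unfold Kq
    rw [mul_one, norm_mul, h3]
    have h4 : ‖mw ((θ : ℂ) + (R + h * I) + t - (θ + (R + h * I)))‖ ≤ t ^ 2 / 2 := by
      rw [add_sub_cancel_left]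
      have h5 := norm_mw_le (u := (t : ℂ)) (by simp)
      rwa [Complex.norm_real, Real.norm_eq_abs, sq_abs] at h5
    calc ‖mw ((θ : ℂ) + (R + h * I) + t - (θ + (R + h * I)))‖ * (Real.exp (R * (1 + h) / β) * Real.exp (gre R h t 0 / β))
        ≤ t ^ 2 / 2 * (Real.exp (R * (1 + h) / β) * Real.exp (gre R h t 0 / β)) :=
          mul_le_mul_of_nonneg_right h4 (by positivity)
      _ = _ := by ring

end XHaux

open XHaux

/-- **case H, left part** -/
theorem XH {β r θ R h : ℝ} (hβ : 0 < β) (hr : 10 ≤ r) (hs : SadX (β * r) θ R h) (hκ : 13 / 10 ≤ β * r)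
    (hκ' : β * r ≤ 47 / 10) (hR : 5 / 2 ≤ R) (hh : h ≤ 62 / 100) (hφ : θ + R ≤ 1 / 4) (ha : 1 / 2 * (β * r) ≤ R) :
    XL (KK β r θ) ≠ 0 ∧ ‖XL (K1 β r θ) / XL (KK β r θ) - (R + h * I)‖ ≤ 6 / 10 := by
  have hpi := Real.pi_lt_d4
  have hpi' := Real.pi_gt_d4
  have hr0 : 0 < r := by linarith
  have hR0 : 0 < R := by linarith
  have h0 := hs.h0
  have hφ0 := hs.φ0
  have hβ' : β ≤ 47 / 100 := by nlinarith
  have hκ0 : 0 < β * r := by linarith
  have hsad := hs.sad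
  have hh' : h ≤ 248 / 1000 * R := XHaux.h_le hR hh
  have ha5 : 5 ≤ R / β := by
    rw [le_div_iff₀ hβ]
    nlinarith
  have hb : 100 / 47 ≤ 1 / β := by
    rw [le_div_iff₀ hβ]
    linarith
  have hab : R / β ≤ 47 / 10 * (1 / β) := by
    rw [mul_one_div, div_le_div_iff_of_pos_right hβ]
    exact (R_le_κ hs hκ0).trans hκ'
  have hM0 : 0 < Real.exp (R * (1 + h) / β) := Real.exp_pos _
  have e0 : KU β r θ (R + h * I) 0 = KK β r θ := by funext y; simp [KU]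
  have hnorm : ∀ X Y : ℝ, ‖KK β r θ (θ + (R + h * I) + (X + Y * I))‖ =
      Real.exp (R * (1 + h) / β) * Real.exp (gre R h X Y / β) := by
    intro X Y
    have h3 := norm_KU hβ.ne' hsad 0 X Y
    rwa [pow_zero, one_mul, e0] at h3
  -- first integrand
  obtain ⟨P, lL, V, lR, hp⟩ := exists_Pk_KK hβ hr0 θ
  have c1 := central hβ hsad hR0 h0 hh' hp
  have o1 := outer (M0 := Real.exp (R * (1 + h) / β)) hβ hβ' hs hκ0 hκ' hR hh hφ (by linarith) hM0.le hp
    (w := fun _ => 1) (fun X Y => by rw [hnorm, one_mul])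
    (A1 := 1) (B1 := 0) (A4 := 1) (A5 := 1) (B5 := 0) (A6 := 1) zero_le_one le_rfl zero_le_one zero_le_one le_rfl
    zero_le_one (fun t _ _ => by simp) (fun t _ _ => by simp) (fun Y _ _ => le_rfl) (fun v _ => by simp)
    (fun v hv => by rw [one_mul]; exact Real.one_le_exp hv)
  -- second integrand
  obtain ⟨P', lL', V', lR', hp', -, -⟩ := exists_Pk_Kq hβ hr0 θ (R + h * I)
  have c2 := central2 hβ hsad hR0 h0 hh' hp'
  have o2 := outer (M0 := Real.exp (R * (1 + h) / β)) hβ hβ' hs hκ0 hκ' hR hh hφ (by linarith) hM0.le hp'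
    (w := fun u => ‖mw u‖) (fun X Y => by
      unfold Kq
      rw [norm_mul, hnorm, add_sub_cancel_left])
    (A1 := 18 / 25) (B1 := 58 / 25) (A4 := 32 / 5) (A5 := 32 / 5) (B5 := 1) (A6 := 26 / 5) (by norm_num) (by norm_num)
    (by norm_num) (by norm_num) zero_le_one (by norm_num)
    (fun t ht ht' => by
      have h5 := norm_mw_le (u := ((-(6 / 5 + t) : ℝ) : ℂ) + (0 : ℝ) * I) (by simp)
      rw [Complex.ofReal_zero, zero_mul, add_zero] at h5 ⊢
      rw [Complex.norm_real, Real.norm_eq_abs, sq_abs] at h5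
      nlinarith)
    (fun t ht ht' => by
      have h5 := norm_mw_le (u := ((6 / 5 + t : ℝ) : ℂ) + (0 : ℝ) * I) (by simp)
      rw [Complex.ofReal_zero, zero_mul, add_zero] at h5 ⊢
      rw [Complex.norm_real, Real.norm_eq_abs, sq_abs] at h5
      nlinarith)
    (fun Y hY hY' => by
      have h5 := norm_mw_le' (u := ((-(Real.pi + (θ + R)) : ℝ) : ℂ) + (Y : ℝ) * I) (by simpa using hY)
      have h6 : ‖((-(Real.pi + (θ + R)) : ℝ) : ℂ) + (Y : ℝ) * I‖ ≤ (Real.pi + (θ + R)) + Y := by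
        refine (norm_add_le _ _).trans ?_
        rw [norm_mul, Complex.norm_I, mul_one, Complex.norm_real, Complex.norm_real, Real.norm_eq_abs, Real.norm_eq_abs,
          abs_neg, abs_of_nonneg (by linarith), abs_of_nonneg hY]
      linarith)
    (fun v hv => by
      have h5 := norm_mw_le' (u := ((-(Real.pi + (θ + R) + v) : ℝ) : ℂ) + ((1 - h : ℝ) : ℂ) * I) (by simp; linarith)
      have h6 : ‖((-(Real.pi + (θ + R) + v) : ℝ) : ℂ) + ((1 - h : ℝ) : ℂ) * I‖ ≤ (Real.pi + (θ + R) + v) + (1 - h) := by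
        refine (norm_add_le _ _).trans ?_
        rw [norm_mul, Complex.norm_I, mul_one, Complex.norm_real, Complex.norm_real, Real.norm_eq_abs, Real.norm_eq_abs,
          abs_neg, abs_of_nonneg (by linarith), abs_of_nonneg (by linarith)]
      linarith)
    (fun v hv => by
      have h5 : ‖mw (((Real.pi - (θ + R) : ℝ) : ℂ) + ((-v : ℝ) : ℂ) * I)‖ ≤
          Real.exp v + 1 + ((Real.pi - (θ + R)) + v) := by
        unfold mw
        refine (norm_sub_le _ _).trans (add_le_add ((norm_sub_le _ _).trans (add_le_add (le_of_eq ?_) norm_one.le)) ?_)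
        · rw [Complex.norm_exp, Complex.I_mul_re]
          simp
        · rw [norm_mul, Complex.norm_I, one_mul]
          refine (norm_add_le _ _).trans ?_
          rw [norm_mul, Complex.norm_I, mul_one, Complex.norm_real, Complex.norm_real, Real.norm_eq_abs, Real.norm_eq_abs,
            abs_neg, abs_of_nonneg (by linarith), abs_of_nonneg hv]
      have h6 := Real.add_one_le_exp v
      refine h5.trans ?_
      linarith)
  -- sizes
  obtain ⟨N, hN⟩ : ∃ N, N = ‖(2 * Real.pi / ((I + (R + h * I)) / β) : ℂ) ^ (1 / 2 : ℂ)‖ := ⟨_, rfl⟩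
  have hL2 : ‖(R + h * I : ℂ)‖ ^ 2 = R ^ 2 + h ^ 2 := by
    rw [← Complex.normSq_eq_norm_sq, Complex.normSq_add_mul_I]
  have hd2 : ‖(I + (R + h * I) : ℂ)‖ ^ 2 = R ^ 2 + (1 + h) ^ 2 := by
    have e : (I + (R + h * I) : ℂ) = (R : ℂ) + ((1 + h : ℝ) : ℂ) * I := by push_cast; ring
    rw [e, ← Complex.normSq_eq_norm_sq, Complex.normSq_add_mul_I]
  have hLle : ‖(R + h * I : ℂ)‖ ≤ 1031 / 1000 * R := by
    apply le_of_sq_le_sq _ (by positivity)
    rw [hL2]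
    nlinarith
  have hdle : ‖(I + (R + h * I) : ℂ)‖ ≤ 1192 / 1000 * R := by
    apply le_of_sq_le_sq _ (by positivity)
    rw [hd2]
    nlinarith
  have hd1 : R ≤ ‖(I + (R + h * I) : ℂ)‖ := by
    apply le_of_sq_le_sq _ (norm_nonneg _)
    rw [hd2]
    nlinarith
  have hLd : ‖(R + h * I : ℂ)‖ ≤ ‖(I + (R + h * I) : ℂ)‖ := by
    apply le_of_sq_le_sq _ (norm_nonneg _)
    rw [hd2, hL2]
    nlinarith
  have hdI : ‖1 - I * (R + h * I : ℂ)‖ = ‖(I + (R + h * I) : ℂ)‖ := by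
    have e : 1 - I * (R + h * I : ℂ) = -I * (I + (R + h * I)) := by
      linear_combination Complex.I_sq
    rw [e, norm_mul, norm_neg, Complex.norm_I, one_mul]
  have hd0 : 0 < ‖(I + (R + h * I) : ℂ)‖ := lt_of_lt_of_le hR0 hd1
  have ha0 : 0 < R / β := by positivity
  have hN' : 2295 / 1000 / Real.sqrt (R / β) ≤ N := by
    have e1 : (1 / 2 : ℂ) = ((1 / 2 : ℝ) : ℂ) := by push_cast; ring
    rw [hN, e1, Complex.norm_cpow_real, norm_div, norm_div, Complex.norm_real β, Real.norm_eq_abs, abs_of_pos hβ,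
      ← Real.sqrt_eq_rpow]
    have e2 : ‖(2 * Real.pi : ℂ)‖ = 2 * Real.pi := by
      rw [norm_mul, Complex.norm_real, Real.norm_eq_abs, abs_of_pos Real.pi_pos]; simp
    rw [e2]
    have h5 : ‖(I + (R + h * I) : ℂ)‖ / β ≤ 1192 / 1000 * (R / β) := by
      rw [← mul_div_assoc]
      exact div_le_div_of_nonneg_right hdle hβ.le
    have h6 : 2 * Real.pi / (1192 / 1000 * (R / β)) ≤ 2 * Real.pi / (‖(I + (R + h * I) : ℂ)‖ / β) :=
      div_le_div_of_nonneg_left (by positivity) (by positivity) h5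
    refine le_trans ?_ (Real.sqrt_le_sqrt h6)
    apply Real.le_sqrt_of_sq_le
    rw [div_pow, Real.sq_sqrt ha0.le, div_le_div_iff₀ ha0 (by positivity)]
    nlinarith
  have hM : ‖(R + h * I : ℂ)‖ / (6 * β) ≤ 1031 / 6000 * (R / β) := by
    rw [div_le_iff₀ (by positivity)]
    have : 1031 / 6000 * (R / β) * (6 * β) = 1031 / 1000 * R := by field_simp; ring
    rw [this]
    exact hLle
  obtain ⟨J, hJ⟩ : ∃ J, J = 2 * (‖(R + h * I : ℂ)‖ / (6 * β)) / (7 / 8 * (R / β)) ^ 2 +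
      2 * (‖(R + h * I : ℂ)‖ / (6 * β)) / (3 / 4 * (R / β)) ^ 2 +
      2 * (Real.exp (-(R / β / 2) * (6 / 5) ^ 2) / (R / β * (6 / 5))) +
      (Real.exp (-(62 / 100 * (R / β))) * (1 / (1 / 2 * (R / β)) + 0 / (1 / 2 * (R / β)) ^ 2) +
        Real.exp (-(54 / 100 * (R / β))) * (1 / (1 / 4 * (R / β)) + 0 / (1 / 4 * (R / β)) ^ 2) +
        1 * Real.exp (-(34 / 10 * (1 / β))) +
        Real.exp (-(28 / 10 * (1 / β))) * (1 / (1 / 2 * (1 / β)) + 0 / (1 / 2 * (1 / β)) ^ 2) +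
        1 * Real.exp (-(122 / 100 * (R / β))) / (2 * (R / β) - 1)) := ⟨_, rfl⟩
  obtain ⟨S, hS⟩ : ∃ S, S = Real.sqrt (2 * Real.pi) / 4 * (1 / (7 / 8 * (R / β) * Real.sqrt (7 / 8 * (R / β))) +
        1 / (3 / 4 * (R / β) * Real.sqrt (3 / 4 * (R / β)))) +
      (Real.exp (-(62 / 100 * (R / β))) * (18 / 25 / (1 / 2 * (R / β)) + 58 / 25 / (1 / 2 * (R / β)) ^ 2) +
        Real.exp (-(54 / 100 * (R / β))) * (18 / 25 / (1 / 4 * (R / β)) + 58 / 25 / (1 / 4 * (R / β)) ^ 2) +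
        32 / 5 * Real.exp (-(34 / 10 * (1 / β))) +
        Real.exp (-(28 / 10 * (1 / β))) * (32 / 5 / (1 / 2 * (1 / β)) + 1 / (1 / 2 * (1 / β)) ^ 2) +
        26 / 5 * Real.exp (-(122 / 100 * (R / β))) / (2 * (R / β) - 1)) := ⟨_, rfl⟩
  obtain ⟨f1, f2⟩ := final_ineq ha5 hb hab hN' hM hJ hS
  have hX : Real.exp (R * (1 + h) / β) * (N - J) ≤ ‖XL (KK β r θ)‖ := by
    have h5 : ‖XL (KK β r θ) - cexp (((R + h * I : ℂ) - I * (R + h * I : ℂ) ^ 2 / 2) / β) *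
        (2 * Real.pi / ((I + (R + h * I)) / β)) ^ (1 / 2 : ℂ)‖ ≤ Real.exp (R * (1 + h) / β) * J := by
      have e : XL (KK β r θ) - cexp (((R + h * I : ℂ) - I * (R + h * I : ℂ) ^ 2 / 2) / β) *
        (2 * Real.pi / ((I + (R + h * I)) / β)) ^ (1 / 2 : ℂ) =
        (XL (KK β r θ) - (P (θ + (R + h * I) + ((6 / 5 : ℝ) : ℂ)) - P (θ + (R + h * I) + ((-(6 / 5) : ℝ) : ℂ)))) +
        ((P (θ + (R + h * I) + ((6 / 5 : ℝ) : ℂ)) - P (θ + (R + h * I) + ((-(6 / 5) : ℝ) : ℂ))) -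
        cexp (((R + h * I : ℂ) - I * (R + h * I : ℂ) ^ 2 / 2) / β) *
        (2 * Real.pi / ((I + (R + h * I)) / β)) ^ (1 / 2 : ℂ)) := by ring
      rw [e, hJ]
      refine (norm_add_le _ _).trans ((add_le_add o1 c1).trans (le_of_eq ?_))
      ring
    have h6 : ‖cexp (((R + h * I : ℂ) - I * (R + h * I : ℂ) ^ 2 / 2) / β) *
        (2 * Real.pi / ((I + (R + h * I)) / β)) ^ (1 / 2 : ℂ)‖ = Real.exp (R * (1 + h) / β) * N := by
      rw [norm_mul, norm_E, hN]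
    have h7 := norm_sub_norm_le (cexp (((R + h * I : ℂ) - I * (R + h * I : ℂ) ^ 2 / 2) / β) *
        (2 * Real.pi / ((I + (R + h * I)) / β)) ^ (1 / 2 : ℂ)) (XL (KK β r θ))
    rw [h6, norm_sub_rev] at h7
    linarith
  have hX2 : ‖XL (Kq β r θ (R + h * I))‖ ≤ Real.exp (R * (1 + h) / β) * S := by
    have e : XL (Kq β r θ (R + h * I)) = (XL (Kq β r θ (R + h * I)) -
        (P' (θ + (R + h * I) + ((6 / 5 : ℝ) : ℂ)) - P' (θ + (R + h * I) + ((-(6 / 5) : ℝ) : ℂ)))) +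
        (P' (θ + (R + h * I) + ((6 / 5 : ℝ) : ℂ)) - P' (θ + (R + h * I) + ((-(6 / 5) : ℝ) : ℂ))) := by ring
    rw [e, hS]
    refine (norm_add_le _ _).trans ((add_le_add o2 c2).trans (le_of_eq ?_))
    ring
  refine quot_of hβ hr0 hsad hM0 f1 hX hX2 (by rw [hdI]; exact hd0) ?_
  rw [hdI]
  have hS0 : 0 ≤ S := by
    have := (norm_nonneg _).trans hX2
    exact nonneg_of_mul_nonneg_right this hM0
  calc ‖(R + h * I : ℂ)‖ * S ≤ ‖(I + (R + h * I) : ℂ)‖ * (6 / 10 * (N - J)) :=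
        mul_le_mul hLd f2 hS0 (norm_nonneg _)
    _ = _ := by ring

end Sok
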