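import Pool.Agent.Lib.MP_816dec_an.LDefs

/-!
MP_816dec_an, b = 1, `1.3 ≤ κ ≤ 4.7`, `r ≥ 10` (row A1-L): upper bound of the left part `X` by the path
`π/2 + i∞ → π/2 → π → π - i∞`.
-/

set_option autoImplicit false

open Complex Set Filter Topology MeasureTheory

namespace Sok

open W

private theorem xu_exp_int {c a b : ℝ} (hc : 0 < c) :
    ∫ x in a..b, Real.exp (-(c * (x - a))) ≤ 1 / c := by
  have h1 : ∀ x ∈ uIcc a b, HasDerivAt (fun x : ℝ => -(1 / c) * Real.exp (-(c * (x - a))))
      (Real.exp (-(c * (x - a)))) x := by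
    intro x _
    have h2 : HasDerivAt (fun x : ℝ => -(c * (x - a))) (-(c * 1)) x :=
      (((hasDerivAt_id x).sub_const a).const_mul c).neg
    refine (h2.exp.const_mul (-(1 / c))).congr_deriv ?_
    field_simp
  have h3 : IntervalIntegrable (fun x : ℝ => Real.exp (-(c * (x - a)))) volume a b := by
    apply Continuous.intervalIntegrable
    fun_prop
  rw [intervalIntegral.integral_eq_sub_of_hasDerivAt h1 h3, sub_self, mul_zero, neg_zero, Real.exp_zero]
  have h4 : 0 < 1 / c * Real.exp (-(c * (b - a))) := by positivity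
  linarith

/-- the real axis from `π/2` to `π` -/
private theorem xu_axis {β r θ : ℝ} (hr : 0 < r) {P : ℂ → ℂ}
    (hP : ∀ x, HasDerivAt P (KK β r θ x) x) :
    ‖P ((Real.pi : ℝ) + (0 : ℝ) * I) - P ((Real.pi / 2 : ℝ) + (0 : ℝ) * I)‖ ≤ Real.pi / (2 * r) := by
  have hpi := Real.pi_pos
  rw [← prim_hor (differentiable_KK β r θ) hP]
  have hc : 0 < 2 * r / Real.pi := by positivity
  refine (intervalIntegral.norm_integral_le_of_norm_le (a := Real.pi / 2) (b := Real.pi)
    (f := fun X : ℝ => KK β r θ (X + (0 : ℝ) * I))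
    (g := fun X : ℝ => Real.exp (-(2 * r / Real.pi * (X - Real.pi / 2)))) (by linarith) ?_ ?_).trans ?_
  · refine Filter.Eventually.of_forall fun X hX => ?_
    rw [norm_KK]
    apply Real.exp_le_exp.2
    rw [neg_zero, Real.exp_zero, mul_zero, zero_div, zero_add, mul_one]
    have h1 : Real.cos X = -Real.sin (X - Real.pi / 2) := by
      rw [Real.sin_sub_pi_div_two]; ring
    have h2 := Real.mul_le_sin (x := X - Real.pi / 2) (by linarith [hX.1]) (by linarith [hX.2])
    rw [h1]
    have h3 : 2 * r / Real.pi * (X - Real.pi / 2) = r * (2 / Real.pi * (X - Real.pi / 2)) := by ring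
    rw [h3]
    nlinarith
  · apply Continuous.intervalIntegrable
    fun_prop
  · refine (xu_exp_int hc).trans (le_of_eq ?_)
    field_simp

/-- the line `Re y = π/2`, from `i∞` down to the real axis -/
private theorem xu_top {β r θ : ℝ} (hβ : 0 < β) (hθ : Real.pi / 2 < θ) (hr : 0 < r) {P : ℂ → ℂ} {lL V lR : ℂ}
    (hp : Pack (KK β r θ) P lL V lR) :
    ‖P ((Real.pi / 2 : ℝ) + (0 : ℝ) * I) - lL‖ ≤ β / (θ - Real.pi / 2) := by
  have hpi := Real.pi_pos
  have hc : 0 < (θ - Real.pi / 2) / β := by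
    have : 0 < θ - Real.pi / 2 := by linarith
    positivity
  have key : ∀ S : ℝ, 0 < S → ‖P ((Real.pi / 2 : ℝ) + (0 : ℝ) * I) - lL‖ ≤
      β / (θ - Real.pi / 2) + Real.exp r * (β * (1 / S)) := by
    intro S hS
    have e1 : P ((Real.pi / 2 : ℝ) + (0 : ℝ) * I) - lL =
        -(P ((Real.pi / 2 : ℝ) + S * I) - P ((Real.pi / 2 : ℝ) + (0 : ℝ) * I)) +
          (P ((Real.pi / 2 : ℝ) + S * I) - lL) := by ring
    rw [e1]
    refine (norm_add_le _ _).trans (add_le_add ?_ ?_)
    · rw [norm_neg, ← prim_ver (differentiable_KK β r θ) hp.prim, norm_mul, Complex.norm_I, one_mul]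
      refine (intervalIntegral.norm_integral_le_of_norm_le (a := 0) (b := S)
        (f := fun Y : ℝ => KK β r θ ((Real.pi / 2 : ℝ) + Y * I))
        (g := fun Y : ℝ => Real.exp (-((θ - Real.pi / 2) / β * (Y - 0)))) hS.le ?_ ?_).trans ?_
      · refine Filter.Eventually.of_forall fun Y hY => ?_
        rw [norm_KK, Real.cos_pi_div_two]
        apply le_of_eq
        congr 1
        ring
      · apply Continuous.intervalIntegrable
        fun_prop
      · refine (xu_exp_int hc).trans (le_of_eq ?_)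
        rw [one_div_div]
    · rw [← hp.left S hS]
      have hS' : 0 < S / β := by positivity
      have hb : ∀ X ∈ Iic (Real.pi / 2), ‖KK β r θ (X + S * I)‖ ≤
          Real.exp r * (Real.exp (-(θ * S / β)) * Real.exp (S / β * X)) := by
        intro X hX
        rw [norm_KK, ← Real.exp_add, ← Real.exp_add]
        apply Real.exp_le_exp.2
        have h1 : r * Real.exp (-S) * Real.cos X ≤ r := by
          have h2 : Real.exp (-S) ≤ 1 := Real.exp_le_one_iff.2 (by linarith)
          have h3 := Real.exp_pos (-S)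
          have h4 : r * Real.exp (-S) * Real.cos X ≤ r * Real.exp (-S) * 1 :=
            mul_le_mul_of_nonneg_left (Real.cos_le_one X) (by positivity)
          nlinarith
        have h5 : (X - θ) * S / β = -(θ * S / β) + S / β * X := by ring
        linarith
      have hi : IntegrableOn (fun X : ℝ => Real.exp r * (Real.exp (-(θ * S / β)) * Real.exp (S / β * X)))
          (Iic (Real.pi / 2)) := ((integrableOn_exp_mul_Iic hS' _).const_mul _).const_mul _
      refine (norm_integral_le_of_norm_le hi ?_).trans ?_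
      · exact (ae_restrict_iff' measurableSet_Iic).2 (Filter.Eventually.of_forall hb)
      · rw [integral_const_mul, integral_const_mul, integral_exp_mul_Iic hS']
        refine mul_le_mul_of_nonneg_left ?_ (Real.exp_pos _).le
        have h6 : Real.exp (-(θ * S / β)) * (Real.exp (S / β * (Real.pi / 2)) / (S / β)) =
            Real.exp (-(θ * S / β) + S / β * (Real.pi / 2)) * (β * (1 / S)) := by
          rw [Real.exp_add]
          field_simp
        rw [h6]
        have h7 : Real.exp (-(θ * S / β) + S / β * (Real.pi / 2)) ≤ 1 := by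
          apply Real.exp_le_one_iff.2
          have h8 : -(θ * S / β) + S / β * (Real.pi / 2) = -((θ - Real.pi / 2) / β * S) := by ring
          rw [h8]
          have := mul_pos hc hS
          linarith
        have h9 : 0 < β * (1 / S) := by positivity
        nlinarith
  have hl : Tendsto (fun S : ℝ => β / (θ - Real.pi / 2) + Real.exp r * (β * (1 / S))) atTop
      (𝓝 (β / (θ - Real.pi / 2) + Real.exp r * (β * 0))) := by
    have h1 : Tendsto (fun S : ℝ => 1 / S) atTop (𝓝 0) := by
      simpa using tendsto_inv_atTop_zero (𝕜 := ℝ)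
    exact tendsto_const_nhds.add ((h1.const_mul β).const_mul _)
  rw [mul_zero, mul_zero, add_zero] at hl
  refine ge_of_tendsto hl ?_
  filter_upwards [eventually_gt_atTop (0 : ℝ)] with S hS
  exact key S hS

/-- the valley `Re y = π` below the real axis -/
private theorem xu_val {β r θ : ℝ} (hβ : 0 < β) (hr : 10 ≤ r) (hκ : 13 / 10 ≤ β * r)
    (hθ' : θ < 2 * Real.pi - β * r) {P : ℂ → ℂ} {lL V lR : ℂ} (hp : Pack (KK β r θ) P lL V lR) :
    ‖V - P ((Real.pi : ℝ) + (0 : ℝ) * I)‖ ≤ 1 / (100 * r) := by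
  have hpi1 := Real.pi_lt_d4
  have he1 := Real.exp_one_gt_d9
  have hr0 : 0 < r := by linarith
  rw [norm_sub_rev, ← hp.valley 0, norm_mul, Complex.norm_I, one_mul]
  have hc : 0 < 22 / 100 * r := by linarith
  have he2 : 164 / 100 ≤ Real.exp (1 / 2) := by
    have h1 : Real.exp (1 / 2) * Real.exp (1 / 2) = Real.exp 1 := by
      rw [← Real.exp_add]; norm_num
    have h2 := Real.exp_pos (1 / 2)
    by_contra h
    push Not at h
    nlinarith
  have hb : ∀ s ∈ Iic (0 : ℝ), ‖KK β r θ ((Real.pi : ℝ) + s * I)‖ ≤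
      Real.exp (-(82 / 100 * r)) * Real.exp (22 / 100 * r * s) := by
    intro s hs
    have hs0 : s ≤ 0 := hs
    rw [norm_KK, Real.cos_pi, ← Real.exp_add]
    apply Real.exp_le_exp.2
    have h1 : (Real.pi - θ) * s / β ≤ 142 / 100 * r * (-s) := by
      rw [div_le_iff₀ hβ]
      have h2 : θ - Real.pi ≤ 142 / 100 * (β * r) := by linarith
      nlinarith
    have h3 : 164 / 100 * (1 / 2 - s) ≤ Real.exp (-s) := by
      have h4 : Real.exp (-s) = Real.exp (1 / 2) * Real.exp (-s - 1 / 2) := by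
        rw [← Real.exp_add]; ring_nf
      have h5 := Real.add_one_le_exp (-s - 1 / 2)
      rw [h4]
      have h6 : 0 ≤ 1 / 2 - s := by linarith
      calc 164 / 100 * (1 / 2 - s) ≤ Real.exp (1 / 2) * (1 / 2 - s) := mul_le_mul_of_nonneg_right he2 h6
        _ ≤ Real.exp (1 / 2) * Real.exp (-s - 1 / 2) :=
          mul_le_mul_of_nonneg_left (by linarith) (Real.exp_pos _).le
    nlinarith
  have hi : IntegrableOn (fun s : ℝ => Real.exp (-(82 / 100 * r)) * Real.exp (22 / 100 * r * s)) (Iic 0) :=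
    (integrableOn_exp_mul_Iic hc _).const_mul _
  refine (norm_integral_le_of_norm_le hi
    ((ae_restrict_iff' measurableSet_Iic).2 (Filter.Eventually.of_forall hb))).trans ?_
  rw [integral_const_mul, integral_exp_mul_Iic hc, mul_zero, Real.exp_zero]
  have h8 : Real.exp (-(82 / 100 * r)) ≤ 1 / 1000 := by
    have h9 : Real.exp (-(82 / 100 * r)) ≤ Real.exp (-8) := Real.exp_le_exp.2 (by linarith)
    have h10 : Real.exp (-8) = (Real.exp 8)⁻¹ := Real.exp_neg 8
    have h11 : Real.exp 8 = Real.exp 1 ^ 8 := by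
      rw [← Real.exp_nat_mul]; norm_num
    have h12 : (1000 : ℝ) ≤ Real.exp 1 ^ 8 := by
      calc (1000 : ℝ) ≤ 2.7 ^ 8 := by norm_num
        _ ≤ Real.exp 1 ^ 8 := pow_le_pow_left₀ (by norm_num) (by linarith) 8
    rw [h10, h11] at h9
    refine h9.trans ?_
    rw [one_div]
    exact inv_anti₀ (by norm_num) h12
  rw [mul_one_div, div_le_div_iff₀ hc (by positivity)]
  nlinarith

theorem XU {β r θ : ℝ} (hβ : 0 < β) (hr : 10 ≤ r) (hκ : 13 / 10 ≤ β * r) (hθ : 17 / 10 ≤ θ)
    (hθ' : θ < 2 * Real.pi - β * r) :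
    ‖XL (KK β r θ)‖ ≤ β / (θ - Real.pi / 2) + Real.pi / (2 * r) + 1 / (100 * r) := by
  have hpi1 := Real.pi_lt_d4
  have hr0 : 0 < r := by linarith
  obtain ⟨P, hP⟩ := exists_prim (differentiable_KK β r θ)
  obtain ⟨lL, V, lR, hp, -, -⟩ := exists_pack hβ hr0 zero_le_one (differentiable_KK β r θ) (bd_KK β r θ) hP
  rw [hp.XL_eq]
  have e1 : V - lL = (P ((Real.pi / 2 : ℝ) + (0 : ℝ) * I) - lL) +
      (P ((Real.pi : ℝ) + (0 : ℝ) * I) - P ((Real.pi / 2 : ℝ) + (0 : ℝ) * I)) +
      (V - P ((Real.pi : ℝ) + (0 : ℝ) * I)) := by ring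
  rw [e1]
  refine (norm_add_le _ _).trans (add_le_add ((norm_add_le _ _).trans (add_le_add ?_ ?_)) ?_)
  · exact xu_top hβ (by linarith) hr0 hp
  · exact xu_axis hr0 hP
  · exact xu_val hβ hr hκ hθ' hp

end Sok
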