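import Pool.Agent.Lib.MP_816dec_an.LDefs

/-!
MP_816dec_an, b = 1, `1.3 ≤ κ ≤ 4.7`, `r ≥ 10` (row A1-L): the numerical inequality of zone Z2.
-/

set_option autoImplicit false

open Complex Set Filter Topology MeasureTheory

namespace Sok

private theorem z2_chord {g : ℝ} (h0 : 0 ≤ g) (h1 : g ≤ 1) :
    Real.exp g ≤ 1 + g * (Real.exp 1 - 1) := by
  have h := convexOn_exp.2 (Set.mem_univ (0 : ℝ)) (Set.mem_univ (1 : ℝ)) (by linarith : 0 ≤ 1 - g) h0
    (by ring)
  simp only [smul_eq_mul, mul_zero, mul_one, zero_add, Real.exp_zero] at h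
  linarith

theorem Z2 {β r θ R₁ g α : ℝ} (hβ : 0 < β) (hr : 10 ≤ r) (hy : SadY (β * r) θ R₁ g α) (hκ : 13 / 10 ≤ β * r)
    (hκ' : β * r ≤ 47 / 10) (hθ : 17 / 10 ≤ θ) (hg : g ≤ 17 / 20 ∨ 27 / 10 ≤ θ) (hθ' : θ < 2 * Real.pi - β * r) :
    β / (θ - Real.pi / 2) + Real.pi / (2 * r) + 1 / (100 * r) <
      8 / 10 * Real.sqrt (2 * Real.pi * β / Real.sqrt (R₁ ^ 2 + (1 - g) ^ 2)) * Real.exp (R₁ * (1 - g) / β) := by
  have hpi1 := Real.pi_gt_d4
  have hpi2 := Real.pi_lt_d4
  have he1 := Real.exp_one_gt_d9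
  have he2 := Real.exp_one_lt_d9
  have hr0 : 0 < r := by linarith
  obtain ⟨hg0, hα0, hα1, hRα, hR, hgE⟩ := hy
  set κ := β * r with hκd
  have hκ0 : 0 < κ := by linarith
  have hE0 : 0 < Real.exp g := Real.exp_pos g
  set E := Real.exp g with hEd
  -- cosine
  have hcos : 95795 / 100000 ≤ Real.cos α := by
    have h1 := Real.one_sub_sq_div_two_le_cos (x := α)
    nlinarith
  have hcos1 : Real.cos α ≤ 1 := Real.cos_le_one α
  have hsin : Real.sin α ≤ α := Real.sin_le hα0
  have hR0 : 0 < R₁ := by rw [hR]; positivity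
  -- `g < 1`
  have hg1 : g < 1 := by
    by_contra hc
    have hc1 : 1 ≤ g := not_lt.mp hc
    have hθ2 : 27 / 10 ≤ θ := by
      rcases hg with h | h
      · linarith
      · exact h
    have hE1 : Real.exp 1 ≤ E := Real.exp_le_exp.mpr hc1
    have hM0 : 0 < κ * E := by positivity
    have hM1 : κ * E * (95795 / 100000) ≤ 35832 / 10000 - α := by
      have h1 : κ * E * (95795 / 100000) ≤ κ * E * Real.cos α := mul_le_mul_of_nonneg_left hcos hM0.le
      have h2 : R₁ ≤ 35832 / 10000 - α := by rw [hRα]; linarith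
      rw [← hR] at h1
      linarith
    have hM2 : κ * E ≤ 37405 / 10000 := by nlinarith
    have hM3 : 1 ≤ κ * E * α := by
      calc (1 : ℝ) ≤ g := hc1
        _ = κ * E * Real.sin α := hgE
        _ ≤ κ * E * α := mul_le_mul_of_nonneg_left hsin hM0.le
    have hα2 : 2673 / 10000 ≤ α := by
      by_contra h
      have h' : α < 2673 / 10000 := not_le.mp h
      have h3 : κ * E * α ≤ 37405 / 10000 * α := mul_le_mul_of_nonneg_right hM2 hα0
      nlinarith
    have hM4 : 13 / 10 * Real.exp 1 ≤ κ * E := by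
      apply mul_le_mul hκ hE1 (Real.exp_pos 1).le hκ0.le
    nlinarith
  -- the modulus
  set ρ := Real.sqrt (R₁ ^ 2 + (1 - g) ^ 2) with hρd
  have hρ0 : 0 < ρ := Real.sqrt_pos.2 (by positivity)
  have hρ1 : ρ ≤ R₁ + (1 - g) := by
    rw [hρd]
    apply Real.sqrt_le_iff.2
    constructor
    · linarith
    · nlinarith [mul_pos hR0 (by linarith : (0 : ℝ) < 1 - g)]
  have hchord := z2_chord hg0 hg1.le
  have hρ2 : ρ ≤ κ * Real.exp 1 := by
    have h1 : R₁ ≤ κ * E := by
      rw [hR]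
      have : 0 < κ * E := by positivity
      nlinarith
    have h2 : 1 - g ≤ κ * ((1 - g) * (10 / 13)) := by nlinarith
    have h3 : E + (1 - g) * (10 / 13) ≤ Real.exp 1 := by nlinarith
    calc ρ ≤ κ * E + κ * ((1 - g) * (10 / 13)) := by linarith
      _ = κ * (E + (1 - g) * (10 / 13)) := by ring
      _ ≤ κ * Real.exp 1 := mul_le_mul_of_nonneg_left h3 hκ0.le
  have hS : 48 / 10 / r ≤ Real.sqrt (2 * Real.pi * β / ρ) := by
    apply Real.le_sqrt_of_sq_le
    rw [div_pow, div_le_div_iff₀ (by positivity) hρ0]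
    have h1 : 2 * Real.pi * β * r ^ 2 = 2 * Real.pi * κ * r := by rw [hκd]; ring
    rw [h1]
    have h2 : (48 / 10 : ℝ) ^ 2 * ρ ≤ (48 / 10) ^ 2 * (κ * Real.exp 1) := by gcongr
    have h3 : (48 / 10 : ℝ) ^ 2 * Real.exp 1 ≤ 2 * Real.pi * 10 := by nlinarith
    have h4 : 2 * Real.pi * κ * 10 ≤ 2 * Real.pi * κ * r := by gcongr
    nlinarith
  -- the exponent
  have hexp : 10 * (E * Real.cos α * (1 - g)) ≤ R₁ * (1 - g) / β := by
    have h1 : R₁ * (1 - g) / β = r * (E * Real.cos α * (1 - g)) := by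
      rw [hR, hκd]
      field_simp
    rw [h1]
    apply mul_le_mul_of_nonneg_right hr
    have : 0 < 1 - g := by linarith
    positivity
  have hEc : 0 < E * Real.cos α * (1 - g) := by
    have : 0 < 1 - g := by linarith
    positivity
  -- reduction
  suffices hmain : κ / (θ - Real.pi / 2) + Real.pi / 2 + 1 / 100 <
      384 / 100 * Real.exp (R₁ * (1 - g) / β) by
    have h1 : β / (θ - Real.pi / 2) + Real.pi / (2 * r) + 1 / (100 * r) =
        (κ / (θ - Real.pi / 2) + Real.pi / 2 + 1 / 100) / r := by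
      have hne : θ - Real.pi / 2 ≠ 0 := by
        have : 0 < θ - Real.pi / 2 := by linarith
        exact this.ne'
      rw [hκd]
      field_simp
    rw [h1, div_lt_iff₀ hr0]
    have h2 : 384 / 100 * Real.exp (R₁ * (1 - g) / β) =
        8 / 10 * (48 / 10 / r) * Real.exp (R₁ * (1 - g) / β) * r := by
      field_simp
      ring
    have h3 : 8 / 10 * (48 / 10 / r) * Real.exp (R₁ * (1 - g) / β) * r ≤
        8 / 10 * Real.sqrt (2 * Real.pi * β / ρ) * Real.exp (R₁ * (1 - g) / β) * r := by gcongr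
    linarith
  rcases le_or_gt g (17 / 20) with h85 | h85
  · -- `g ≤ .85`
    have hE2 : 1 + g + g ^ 2 / 2 ≤ E := by
      have := Real.quadratic_le_exp_of_nonneg hg0
      linarith
    have h1 : 33 / 100 ≤ E * (1 - g) := by
      have h2 : (1 + g + g ^ 2 / 2) * (1 - g) ≤ E * (1 - g) :=
        mul_le_mul_of_nonneg_right hE2 (by linarith)
      have h3 : g ^ 2 ≤ (17 / 20) ^ 2 := by gcongr
      have h4 : g ^ 3 ≤ (17 / 20) ^ 3 := by gcongr
      nlinarith
    have h5 : 3 ≤ R₁ * (1 - g) / β := by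
      have h6 : 33 / 100 * (95795 / 100000) ≤ E * (1 - g) * Real.cos α := by
        apply mul_le_mul h1 hcos (by norm_num) (by nlinarith)
      nlinarith
    have h7 : (20 : ℝ) ≤ Real.exp (R₁ * (1 - g) / β) := by
      calc (20 : ℝ) ≤ (Real.exp 1) ^ 3 := by
            calc (20 : ℝ) ≤ (2.7182818283 : ℝ) ^ 3 := by norm_num
              _ ≤ (Real.exp 1) ^ 3 := by gcongr
        _ = Real.exp 3 := by rw [← Real.exp_nat_mul]; norm_num
        _ ≤ Real.exp (R₁ * (1 - g) / β) := Real.exp_le_exp.mpr h5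
    have h8 : κ / (θ - Real.pi / 2) ≤ 37 := by
      rw [div_le_iff₀ (by linarith)]
      linarith
    linarith
  · have hθ2 : 27 / 10 ≤ θ := by
      rcases hg with h | h
      · linarith
      · exact h
    have hE2 : 233 / 100 ≤ E := by
      have h1 : Real.exp (17 / 20) ≤ E := Real.exp_le_exp.mpr h85.le
      have h2 := Real.sum_le_exp_of_nonneg (x := 17 / 20) (by norm_num) 5
      norm_num [Finset.sum_range_succ, Nat.factorial] at h2
      linarith
    have hκ2 : κ ≤ 161 / 100 := by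
      have h1 : R₁ ≤ 35832 / 10000 := by rw [hRα]; linarith
      have h2 : κ * (233 / 100) * (95795 / 100000) ≤ R₁ := by
        rw [hR]
        apply mul_le_mul _ hcos (by norm_num) (by positivity)
        exact mul_le_mul_of_nonneg_left hE2 hκ0.le
      linarith
    have h7 : (1 : ℝ) ≤ Real.exp (R₁ * (1 - g) / β) := by
      apply Real.one_le_exp
      linarith
    have h8 : κ / (θ - Real.pi / 2) ≤ 144 / 100 := by
      rw [div_le_iff₀ (by linarith)]
      linarith
    linarith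

end Sok
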