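import Pool.Agent.Lib.MP_816dec_an.LY
import Pool.Agent.Lib.MP_816dec_an.LXH
import Pool.Agent.Lib.MP_816dec_an.LXU
import Pool.Agent.Lib.MP_816dec_an.LZ2
import Pool.Agent.Lib.MP_816dec_an.LGeo
import Pool.Agent.Lib.MP_816dec_an.LGeoG
import Pool.Agent.Lib.MP_816dec_an.LGeoH

/-!
MP_816dec_an, b = 1, `1.3 ≤ κ ≤ 4.7`, `r ≥ 10` (row A1-L): assembly.
-/

set_option autoImplicit false

open Complex Set Filter Topology MeasureTheory

namespace Sok

open W

/-- `R` near `0`: bounds of `h` -/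
theorem geo_mid {κ θ R h : ℝ} (hs : SadX κ θ R h) (hκ : 13 / 10 ≤ κ) (hκ' : κ ≤ 205 / 100) (hθ : 17 / 10 ≤ θ)
    (hR : -(14 / 100) ≤ R) : 55 / 100 ≤ h ∧ h ≤ 88 / 100 := by
  have hpi := Real.pi_lt_d4
  have h0 := hs.h0
  have hsq : (R ^ 2 + h ^ 2) * Real.exp h ^ 2 = κ ^ 2 := by
    have h1 : Real.exp (-h) * Real.exp h = 1 := by rw [← Real.exp_add]; simp
    have h2 : R * Real.exp h = κ * Real.cos (θ + R) := by
      nth_rewrite 1 [hs.eR]
      linear_combination (κ * Real.cos (θ + R)) * h1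
    have h3 : h * Real.exp h = κ * Real.sin (θ + R) := by
      nth_rewrite 1 [hs.eh]
      linear_combination (κ * Real.sin (θ + R)) * h1
    have h4 := Real.sin_sq_add_cos_sq (θ + R)
    calc (R ^ 2 + h ^ 2) * Real.exp h ^ 2 = (R * Real.exp h) ^ 2 + (h * Real.exp h) ^ 2 := by ring
      _ = (κ * Real.cos (θ + R)) ^ 2 + (κ * Real.sin (θ + R)) ^ 2 := by rw [h2, h3]
      _ = κ ^ 2 * (Real.sin (θ + R) ^ 2 + Real.cos (θ + R) ^ 2) := by ring
      _ = κ ^ 2 := by rw [h4, mul_one]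
  have hRu : R ≤ 14 / 100 := by
    by_contra hcon
    push Not at hcon
    have h1 : Real.pi / 2 ≤ θ + R := by linarith
    have h2 : Real.cos (θ + R) ≤ 0 := Real.cos_nonpos_of_pi_div_two_le_of_le h1 (by linarith [hs.φ1, Real.pi_pos])
    have h3 := hs.eR
    have h4 : κ * Real.exp (-h) * Real.cos (θ + R) ≤ 0 :=
      mul_nonpos_of_nonneg_of_nonpos (by have : 0 ≤ κ := by linarith
                                         positivity) h2
    linarith
  have hR2 : R ^ 2 ≤ 196 / 10000 := by nlinarith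
  constructor
  · by_contra hcon
    push Not at hcon
    have h1 : Real.exp h ≤ Real.exp (55 / 100) := Real.exp_le_exp.2 hcon.le
    have h2 : Real.exp (55 / 100) ≤ 174 / 100 := by
      have h3 : Real.exp (55 / 100) = Real.exp 1 * Real.exp (-(45 / 100)) := by rw [← Real.exp_add]; norm_num
      have h4 := Real.exp_one_lt_d9
      have h5 : Real.exp (-(45 / 100)) ≤ 64 / 100 := by
        have h9 : 1 / Real.exp (45 / 100) = Real.exp (-(45 / 100)) := by rw [Real.exp_neg]; simp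
        rw [← h9, div_le_iff₀ (Real.exp_pos _)]
        have h10 := Real.sum_le_exp_of_nonneg (x := 45/100) (by norm_num) 5
        simp only [Finset.sum_range_succ, Finset.sum_range_zero, Nat.factorial] at h10
        norm_num at h10
        linarith
      rw [h3]
      have := Real.exp_pos (-(45 / 100) : ℝ)
      nlinarith
    have h6 : Real.exp h ^ 2 ≤ (174 / 100) ^ 2 := pow_le_pow_left₀ (Real.exp_pos _).le (h1.trans h2) 2
    have h7 : R ^ 2 + h ^ 2 ≤ 3221 / 10000 := by nlinarith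
    have h8 : (R ^ 2 + h ^ 2) * Real.exp h ^ 2 ≤ 3221 / 10000 * (174 / 100) ^ 2 :=
      mul_le_mul h7 h6 (by positivity) (by norm_num)
    nlinarith
  · by_contra hcon
    push Not at hcon
    have h1 : Real.exp (88 / 100) ≤ Real.exp h := Real.exp_le_exp.2 hcon.le
    have h2 : 24 / 10 ≤ Real.exp (88 / 100) := by
      have h10 := Real.sum_le_exp_of_nonneg (x := 88/100) (by norm_num) 6
      simp only [Finset.sum_range_succ, Finset.sum_range_zero, Nat.factorial] at h10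
      norm_num at h10
      linarith
    have h6 : (24 / 10) ^ 2 ≤ Real.exp h ^ 2 := pow_le_pow_left₀ (by norm_num) (h2.trans h1) 2
    have h7 : 7744 / 10000 ≤ R ^ 2 + h ^ 2 := by nlinarith [sq_nonneg R]
    have h8 : 7744 / 10000 * (24 / 10) ^ 2 ≤ (R ^ 2 + h ^ 2) * Real.exp h ^ 2 :=
      mul_le_mul h7 h6 (by positivity) (by positivity)
    nlinarith

/-- assembly, with the left part in the range `R ≤ 5/2` as a hypothesis -/
theorem circ_L_of {β r : ℝ} (hβ : 0 < β) (hr : 10 ≤ r) (hκ : 13 / 10 ≤ β * r) (hκ' : β * r ≤ 47 / 10)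
    (hXG : ∀ θ R h : ℝ, Sad β r θ (R + h * I) → 0 ≤ h → h ≤ 13 / 10 → 0 ≤ θ + R → θ + R ≤ Real.pi → R ≤ 5 / 2 →
      ((θ ≤ 17 / 10 ∧ -(14 / 100) ≤ R) ∨
        (θ ≤ 27 / 10 ∧ β * r ≤ 205 / 100 ∧ -(6 / 10) ≤ R ∧ 55 / 100 ≤ h ∧ h ≤ 88 / 100)) →
      XL (KK β r θ) ≠ 0 ∧ ‖XL (K1 β r θ) / XL (KK β r θ) - (R + h * I)‖ ≤ 1 / 2) : Circ β r := by
  have hpi := Real.pi_gt_d4
  have hpi' := Real.pi_lt_d4
  obtain ⟨c, hc0, hc1, hc2, hcA, hcB⟩ := exists_c hκ hκ'
  have hr0 : 0 < r := by linarith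
  have hκ0 : 0 < β * r := by positivity
  have hβ' : β ≤ 47 / 100 := by nlinarith
  refine circ_of_XY (a := -(β * r)) (c := c) hβ hr0 ?_ ?_
  · intro θ h1 h2
    obtain ⟨R, h, hs⟩ := exists_SadX hκ0 h1 (by linarith : θ ≤ Real.pi + β * r)
    obtain ⟨R₁, g, α, hy⟩ := exists_SadY hκ h1 (h2.trans hc1)
    have hZ := hcA θ R₁ g α h1 h2 hy
    have hY0 : YR (KK β r θ) ≠ 0 := by
      intro h0
      have h3 := YV hβ hr hy hκ hκ' h1
      rw [h0, norm_zero] at h3
      have h4 : 0 < Real.sqrt (R₁ ^ 2 + (1 - g) ^ 2) := by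
        apply Real.sqrt_pos.2
        have h5 : 0 < R₁ := by have := hy.R_pos hκ; linarith
        positivity
      have : 0 < 8 / 10 * Real.sqrt (2 * Real.pi * β / Real.sqrt (R₁ ^ 2 + (1 - g) ^ 2)) * Real.exp (R₁ * (1 - g) / β) := by
        positivity
      linarith
    -- conclusion from norms
    have key : ∀ {εX εY : ℝ}, ‖XL (K1 β r θ) / XL (KK β r θ) - (R + h * I)‖ ≤ εX →
        ‖YR (K1 β r θ) / YR (KK β r θ) - (R₁ - g * I)‖ ≤ εY → εX + εY < h + g →
        (YR (K1 β r θ) / YR (KK β r θ)).im < (XL (K1 β r θ) / XL (KK β r θ)).im := by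
      intro εX εY hX hY hlt
      have h3 := (Complex.abs_im_le_norm _).trans hX
      have h4 := (Complex.abs_im_le_norm _).trans hY
      have e3 : (XL (K1 β r θ) / XL (KK β r θ) - (R + h * I)).im = (XL (K1 β r θ) / XL (KK β r θ)).im - h := by simp
      have e4 : (YR (K1 β r θ) / YR (KK β r θ) - (R₁ - g * I)).im = (YR (K1 β r θ) / YR (KK β r θ)).im + g := by simp
      rw [e3] at h3
      rw [e4] at h4
      have h5 := neg_le_of_abs_le h3
      have h6 := le_of_abs_le h4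
      linarith
    rcases le_or_gt (5 / 2) R with hR | hR
    · obtain ⟨hh, hφ, hRκ⟩ := geoH2 hs hκ hκ' hR
      obtain ⟨hX0, hX⟩ := XH hβ hr hs hκ hκ' hR hh hφ hRκ
      obtain ⟨s1, s2⟩ := sumH2 hs hy hκ hκ' hR
      exact ⟨hX0, hY0, key hX (YM' hβ hr hy hκ hκ' h1 (by linarith) s2) (by linarith)⟩
    · have hθ : θ ≤ 17 / 10 ∨ (θ ≤ 27 / 10 ∧ 17 / 20 ≤ g) := by
        rcases hZ with h3 | h3
        · exact Or.inl h3
        · exact Or.inr ⟨h2.trans hc2, h3⟩
      have hθ' : θ ≤ 17 / 10 ∨ (17 / 10 ≤ θ ∧ θ ≤ 27 / 10 ∧ β * r ≤ 205 / 100) := by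
        rcases hθ with h3 | ⟨h3, h4⟩
        · exact Or.inl h3
        · rcases le_total θ (17 / 10) with h5 | h5
          · exact Or.inl h5
          · exact Or.inr ⟨h5, h3, geoY hy h5 h4⟩
      have hθβ : θ + β < Real.pi := by
        rcases hθ' with h3 | ⟨_, h3, h4⟩
        · linarith
        · have : β ≤ 205 / 1000 := by nlinarith
          linarith
      have hG := geoG2 hs hκ hκ' hR (by
        rcases hθ' with h3 | ⟨_, h3, h4⟩
        · exact Or.inl h3
        · exact Or.inr ⟨h3, h4⟩)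
      have hcase : (θ ≤ 17 / 10 ∧ -(14 / 100) ≤ R) ∨
        (θ ≤ 27 / 10 ∧ β * r ≤ 205 / 100 ∧ -(6 / 10) ≤ R ∧ 55 / 100 ≤ h ∧ h ≤ 88 / 100) := by
        rcases hθ' with h3 | ⟨h5, h3, h4⟩
        · rcases hG with h6 | ⟨h6, h7, h8, h9⟩
          · exact Or.inl ⟨h3, h6⟩
          · exact Or.inr ⟨by linarith, h9, h6, h7, h8⟩
        · rcases hG with h6 | ⟨h6, h7, h8, h9⟩
          · obtain ⟨h7, h8⟩ := geo_mid hs hκ h4 h5 h6
            exact Or.inr ⟨h3, h4, by linarith, h7, h8⟩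
          · exact Or.inr ⟨h3, h9, h6, h7, h8⟩
      obtain ⟨hX0, hX⟩ := hXG θ R h hs.sad hs.h0 (geoX hs hκ hκ') hs.φ0 hs.φ1 hR.le hcase
      have hsum := sumG2 hs hy hκ hκ' hR hθ
      exact ⟨hX0, hY0, key hX (YM hβ hr hy hκ hκ' h1 hθβ hZ) (by linarith)⟩
  · intro θ h1 h2 h0
    rcases le_or_gt θ (2 * Real.pi - β * r) with h3 | h3
    · have h3' : θ < 2 * Real.pi - β * r := by linarith
      have h1' : -(β * r) ≤ θ := by linarith
      obtain ⟨R₁, g, α, hy⟩ := exists_SadY hκ h1' h3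
      obtain ⟨h4, h5⟩ := hcB θ R₁ g α h1 h3' hy
      have h6 := XU hβ hr hκ h4 h3'
      have h7 := Z2 hβ hr hy hκ hκ' h4 h5 h3'
      have h8 := YV hβ hr hy hκ hκ' h1'
      have h9 : YR (KK β r θ) = -XL (KK β r θ) := by linear_combination h0
      rw [h9, norm_neg] at h8
      linarith
    · linarith

end Sok
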