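import Pool.Agent.Lib.MP_816dec_an.Laplace

/-!
MP_816dec_an: half-segment versions of the Laplace lemma (only `|R| ≤ M |t|³`, `re R ≤ (1-c) a t²/2`), also for a
half-line. Value error `2M/(ca)²`, first moment error `(3/2) √(2π) M (ca)^(-5/2)`.
-/

set_option autoImplicit false

open Complex Set Filter Topology MeasureTheory

namespace Sok.W

theorem gauss_half (p : ℕ) {b : ℝ} (_hb : 0 < b) :
    ∫ t in Ioi (0 : ℝ), |t| ^ p * Real.exp (-b * t ^ 2) = (∫ t : ℝ, |t| ^ p * Real.exp (-b * t ^ 2)) / 2 := by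
  have h1 := integral_comp_abs (f := fun t : ℝ => t ^ p * Real.exp (-b * t ^ 2))
  simp only [sq_abs] at h1
  rw [h1]
  have h2 : ∫ t in Ioi (0 : ℝ), |t| ^ p * Real.exp (-b * t ^ 2) = ∫ t in Ioi (0 : ℝ), t ^ p * Real.exp (-b * t ^ 2) := by
    refine setIntegral_congr_fun measurableSet_Ioi (fun t ht => ?_)
    have ht' : 0 < t := ht
    show |t| ^ p * _ = t ^ p * _
    rw [abs_of_pos ht']
  rw [h2]
  ring

theorem gauss_three {a : ℝ} (ha : 0 < a) :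
    ∫ t : ℝ, |t| ^ 3 * Real.exp (-(a / 2) * t ^ 2) = 4 / a ^ 2 := by
  have ha2 : 0 < a / 2 := by positivity
  rw [integral_sq_gauss ha2]
  have h0 : (((3 : ℕ) : ℝ) + 1) / 2 = ((1 : ℕ) : ℝ) + 1 := by norm_num
  rw [h0, Real.Gamma_nat_eq_factorial]
  have h1 : (a / 2) ^ (-(((3 : ℕ) : ℝ) + 1) / 2) = 1 / (a / 2) ^ 2 := by
    rw [show (-(((3 : ℕ) : ℝ) + 1) / 2) = -((2:ℕ):ℝ) by norm_num, Real.rpow_neg ha2.le, Real.rpow_natCast, one_div]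
  rw [h1]
  simp only [Nat.factorial]
  field_simp
  norm_num

/-- `∫_S |t|^p |e^{-Λt²/2}| |e^R - 1| ≤ M ∫_S |t|^(p+3) e^{-cat²/2}` for `S` measurable -/
private theorem dom {Λ : ℂ} {c M : ℝ} {R : ℝ → ℂ} (ha : 0 < Λ.re) (hc1 : c ≤ 1) {t : ℝ}
    (h3 : ‖R t‖ ≤ M * |t| ^ 3) (hre : (R t).re ≤ (1 - c) * Λ.re * t ^ 2 / 2) (p : ℕ) :
    ‖(t : ℂ) ^ p * (cexp (-(Λ / 2) * (t : ℂ) ^ 2 + R t) - cexp (-(Λ / 2) * (t : ℂ) ^ 2))‖ ≤
      M * (|t| ^ (p + 3) * Real.exp (-(c * Λ.re / 2) * t ^ 2)) := by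
  have e : cexp (-(Λ / 2) * (t : ℂ) ^ 2 + R t) - cexp (-(Λ / 2) * (t : ℂ) ^ 2) =
      cexp (-(Λ / 2) * (t : ℂ) ^ 2) * (cexp (R t) - 1) := by rw [Complex.exp_add]; ring
  have hn : ‖cexp (-(Λ / 2) * (t : ℂ) ^ 2)‖ = Real.exp (-(Λ.re / 2) * t ^ 2) := by
    rw [Complex.norm_exp]
    congr 1
    rw [← Complex.ofReal_pow, Complex.re_mul_ofReal]
    simp
  rw [e, norm_mul, norm_mul, norm_pow, Complex.norm_real, Real.norm_eq_abs, hn]
  have h5 := norm_exp_sub_sum_le (R t) 1 (M := Real.exp ((1 - c) * Λ.re * t ^ 2 / 2))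
    (Real.one_le_exp (by have : 0 ≤ 1 - c := by linarith
                         positivity)) (Real.exp_le_exp.2 hre) 1 (right_mem_Icc.2 zero_le_one)
  simp only [Complex.ofReal_one, one_mul, Finset.sum_range_one, pow_zero, Nat.factorial_zero, Nat.cast_one, div_one,
    pow_one, Nat.factorial_one] at h5
  have h7 : Real.exp (-(Λ.re / 2) * t ^ 2) * Real.exp ((1 - c) * Λ.re * t ^ 2 / 2) =
      Real.exp (-(c * Λ.re / 2) * t ^ 2) := by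
    rw [← Real.exp_add]; congr 1; ring
  have h8 := Real.exp_pos (-(Λ.re / 2) * t ^ 2)
  have h9 := Real.exp_pos ((1 - c) * Λ.re * t ^ 2 / 2)
  have h10 : 0 ≤ |t| ^ p := by positivity
  calc |t| ^ p * (Real.exp (-(Λ.re / 2) * t ^ 2) * ‖cexp (R t) - 1‖)
      ≤ |t| ^ p * (Real.exp (-(Λ.re / 2) * t ^ 2) * (Real.exp ((1 - c) * Λ.re * t ^ 2 / 2) * (M * |t| ^ 3))) := by
        refine mul_le_mul_of_nonneg_left (mul_le_mul_of_nonneg_left (h5.trans ?_) h8.le) h10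
        exact mul_le_mul_of_nonneg_left h3 h9.le
    _ = (Real.exp (-(Λ.re / 2) * t ^ 2) * Real.exp ((1 - c) * Λ.re * t ^ 2 / 2)) * (M * (|t| ^ p * |t| ^ 3)) := by ring
    _ = _ := by rw [h7, ← pow_add]; ring

/-- `∫_S t^p (e^{-Λt²/2 + R} - e^{-Λt²/2})` over a set `S ⊆ (0, ∞)`. -/
theorem half_right {Λ : ℂ} {c M : ℝ} {R : ℝ → ℂ} (ha : 0 < Λ.re) (hc : 0 < c) (hc1 : c ≤ 1) (hM : 0 ≤ M)
    (hR : Continuous R) {S : Set ℝ} (hS : MeasurableSet S) (hS0 : S ⊆ Ioi 0)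
    (h3 : ∀ t ∈ S, ‖R t‖ ≤ M * |t| ^ 3) (hre : ∀ t ∈ S, (R t).re ≤ (1 - c) * Λ.re * t ^ 2 / 2) (p : ℕ) :
    IntegrableOn (fun t : ℝ => (t : ℂ) ^ p * (cexp (-(Λ / 2) * (t : ℂ) ^ 2 + R t) - cexp (-(Λ / 2) * (t : ℂ) ^ 2))) S ∧
    ‖∫ t in S, (t : ℂ) ^ p * (cexp (-(Λ / 2) * (t : ℂ) ^ 2 + R t) - cexp (-(Λ / 2) * (t : ℂ) ^ 2))‖ ≤
      M * ((∫ t : ℝ, |t| ^ (p + 3) * Real.exp (-(c * Λ.re / 2) * t ^ 2)) / 2) := by
  have hb : 0 < c * Λ.re / 2 := by positivity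
  have hI : Integrable (fun t : ℝ => M * (|t| ^ (p + 3) * Real.exp (-(c * Λ.re / 2) * t ^ 2))) :=
    (integrable_abs_pow_gauss (p + 3) hb).const_mul M
  have hcont : Continuous (fun t : ℝ => (t : ℂ) ^ p * (cexp (-(Λ / 2) * (t : ℂ) ^ 2 + R t) -
      cexp (-(Λ / 2) * (t : ℂ) ^ 2))) := by fun_prop
  have hdom : ∀ t ∈ S, ‖(t : ℂ) ^ p * (cexp (-(Λ / 2) * (t : ℂ) ^ 2 + R t) - cexp (-(Λ / 2) * (t : ℂ) ^ 2))‖ ≤
      M * (|t| ^ (p + 3) * Real.exp (-(c * Λ.re / 2) * t ^ 2)) := fun t ht => dom ha hc1 (h3 t ht) (hre t ht) p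
  refine ⟨hI.integrableOn.mono' hcont.aestronglyMeasurable
    ((ae_restrict_iff' hS).2 (Filter.Eventually.of_forall hdom)), ?_⟩
  refine (norm_integral_le_of_norm_le hI.integrableOn
    ((ae_restrict_iff' hS).2 (Filter.Eventually.of_forall hdom))).trans ?_
  rw [← gauss_half (p + 3) hb, ← integral_const_mul]
  refine setIntegral_mono_set hI.integrableOn (Filter.Eventually.of_forall fun t => ?_) hS0.eventuallyLE
  simp only [Pi.zero_apply]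
  positivity

/-- the same over a set `S ⊆ (-∞, 0)` -/
theorem half_left {Λ : ℂ} {c M : ℝ} {R : ℝ → ℂ} (ha : 0 < Λ.re) (hc : 0 < c) (hc1 : c ≤ 1) (hM : 0 ≤ M)
    (hR : Continuous R) {S : Set ℝ} (hS : MeasurableSet S) (hS0 : S ⊆ Iio 0)
    (h3 : ∀ t ∈ S, ‖R t‖ ≤ M * |t| ^ 3) (hre : ∀ t ∈ S, (R t).re ≤ (1 - c) * Λ.re * t ^ 2 / 2) (p : ℕ) :
    IntegrableOn (fun t : ℝ => (t : ℂ) ^ p * (cexp (-(Λ / 2) * (t : ℂ) ^ 2 + R t) - cexp (-(Λ / 2) * (t : ℂ) ^ 2))) S ∧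
    ‖∫ t in S, (t : ℂ) ^ p * (cexp (-(Λ / 2) * (t : ℂ) ^ 2 + R t) - cexp (-(Λ / 2) * (t : ℂ) ^ 2))‖ ≤
      M * ((∫ t : ℝ, |t| ^ (p + 3) * Real.exp (-(c * Λ.re / 2) * t ^ 2)) / 2) := by
  have hb : 0 < c * Λ.re / 2 := by positivity
  have hI : Integrable (fun t : ℝ => M * (|t| ^ (p + 3) * Real.exp (-(c * Λ.re / 2) * t ^ 2))) :=
    (integrable_abs_pow_gauss (p + 3) hb).const_mul M
  have hcont : Continuous (fun t : ℝ => (t : ℂ) ^ p * (cexp (-(Λ / 2) * (t : ℂ) ^ 2 + R t) -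
      cexp (-(Λ / 2) * (t : ℂ) ^ 2))) := by fun_prop
  have hdom : ∀ t ∈ S, ‖(t : ℂ) ^ p * (cexp (-(Λ / 2) * (t : ℂ) ^ 2 + R t) - cexp (-(Λ / 2) * (t : ℂ) ^ 2))‖ ≤
      M * (|t| ^ (p + 3) * Real.exp (-(c * Λ.re / 2) * t ^ 2)) := fun t ht => dom ha hc1 (h3 t ht) (hre t ht) p
  refine ⟨hI.integrableOn.mono' hcont.aestronglyMeasurable
    ((ae_restrict_iff' hS).2 (Filter.Eventually.of_forall hdom)), ?_⟩
  refine (norm_integral_le_of_norm_le hI.integrableOn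
    ((ae_restrict_iff' hS).2 (Filter.Eventually.of_forall hdom))).trans ?_
  have h1 : ∫ t in Iio (0 : ℝ), |t| ^ (p + 3) * Real.exp (-(c * Λ.re / 2) * t ^ 2) =
      (∫ t : ℝ, |t| ^ (p + 3) * Real.exp (-(c * Λ.re / 2) * t ^ 2)) / 2 := by
    rw [← gauss_half (p + 3) hb, ← integral_Iic_eq_integral_Iio]
    have := integral_comp_neg_Ioi (0:ℝ) (fun t : ℝ => |t| ^ (p + 3) * Real.exp (-(c * Λ.re / 2) * t ^ 2))
    rw [neg_zero] at this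
    rw [← this]
    refine setIntegral_congr_fun measurableSet_Ioi (fun t _ => ?_)
    simp only [abs_neg, neg_sq]
  rw [← h1, ← integral_const_mul]
  refine setIntegral_mono_set hI.integrableOn (Filter.Eventually.of_forall fun t => ?_) hS0.eventuallyLE
  simp only [Pi.zero_apply]
  positivity

private theorem gi {Λ : ℂ} (ha : 0 < Λ.re) (p : ℕ) :
    Integrable (fun t : ℝ => (t : ℂ) ^ p * cexp (-(Λ / 2) * (t : ℂ) ^ 2)) := by
  have hb : 0 < Λ.re / 2 := by positivity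
  refine (integrable_abs_pow_gauss p hb).mono' (by fun_prop : Continuous fun t : ℝ => (t : ℂ) ^ p *
    cexp (-(Λ / 2) * (t : ℂ) ^ 2)).aestronglyMeasurable (Filter.Eventually.of_forall fun t => ?_)
  rw [norm_mul, norm_pow, Complex.norm_real, Real.norm_eq_abs, Complex.norm_exp]
  refine le_of_eq ?_
  congr 2
  rw [← Complex.ofReal_pow, Complex.re_mul_ofReal]
  simp

/-- the pure Gaussian on `[0, T]` -/
theorem gauss_zero_T {Λ : ℂ} {T : ℝ} (ha : 0 < Λ.re) (hT : 0 < T) :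
    ‖(∫ t in (0:ℝ)..T, cexp (-(Λ / 2) * (t : ℂ) ^ 2)) - (2 * Real.pi / Λ) ^ (1 / 2 : ℂ) / 2‖ ≤
      Real.exp (-(Λ.re / 2) * T ^ 2) / (Λ.re * T) := by
  have hb : 0 < (Λ / 2).re := by
    have : (Λ / 2).re = Λ.re / 2 := by simp
    rw [this]; positivity
  have hI := integrable_cexp_neg_mul_sq hb
  have h0 := integral_gaussian_complex_Ioi hb
  have h1 : (Real.pi / (Λ / 2) : ℂ) = 2 * Real.pi / Λ := by
    have : Λ ≠ 0 := by rintro rfl; simp at ha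
    field_simp
  rw [h1] at h0
  have h2 := intervalIntegral.integral_interval_add_Ioi (a := (0:ℝ)) (b := T) (f := fun t : ℝ => cexp (-(Λ / 2) * (t : ℂ) ^ 2))
    hI.integrableOn hI.integrableOn
  have h5 : (∫ t in (0:ℝ)..T, cexp (-(Λ / 2) * (t : ℂ) ^ 2)) - (2 * Real.pi / Λ) ^ (1 / 2 : ℂ) / 2 =
      -(∫ t in Ioi T, cexp (-(Λ / 2) * (t : ℂ) ^ 2)) := by
    rw [← h0, ← h2]; ring
  rw [h5, norm_neg]
  refine (norm_integral_le_integral_norm _).trans ?_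
  have hn : ∀ t : ℝ, ‖cexp (-(Λ / 2) * (t : ℂ) ^ 2)‖ = Real.exp (-(Λ.re / 2) * t ^ 2) := by
    intro t
    rw [Complex.norm_exp]
    congr 1
    rw [← Complex.ofReal_pow, Complex.re_mul_ofReal]
    simp
  simp only [hn]
  exact gauss_tail ha hT

theorem gauss_neg_zero {Λ : ℂ} (T : ℝ) :
    (∫ t in (-T)..0, cexp (-(Λ / 2) * (t : ℂ) ^ 2)) = ∫ t in (0:ℝ)..T, cexp (-(Λ / 2) * (t : ℂ) ^ 2) := by
  have h := intervalIntegral.integral_comp_neg (a := (0:ℝ)) (b := T) (fun t : ℝ => cexp (-(Λ / 2) * (t : ℂ) ^ 2))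
  rw [neg_zero] at h
  rw [← h]
  refine intervalIntegral.integral_congr (fun t _ => ?_)
  simp

theorem gauss_Iic_zero {Λ : ℂ} (ha : 0 < Λ.re) :
    (∫ t in Iic (0:ℝ), cexp (-(Λ / 2) * (t : ℂ) ^ 2)) = (2 * Real.pi / Λ) ^ (1 / 2 : ℂ) / 2 := by
  have hb : 0 < (Λ / 2).re := by
    have : (Λ / 2).re = Λ.re / 2 := by simp
    rw [this]; positivity
  have h0 := integral_gaussian_complex_Ioi hb
  have h1 : (Real.pi / (Λ / 2) : ℂ) = 2 * Real.pi / Λ := by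
    have : Λ ≠ 0 := by rintro rfl; simp at ha
    field_simp
  rw [h1] at h0
  have h := integral_comp_neg_Ioi (0:ℝ) (fun t : ℝ => cexp (-(Λ / 2) * (t : ℂ) ^ 2))
  rw [neg_zero] at h
  rw [← h, ← h0]
  refine setIntegral_congr_fun measurableSet_Ioi (fun t _ => ?_)
  simp

/-- the pure first moment on `[a, b]` -/
theorem gauss_one {Λ : ℂ} (hΛ : Λ ≠ 0) (a b : ℝ) :
    (∫ t in a..b, (t : ℂ) * cexp (-(Λ / 2) * (t : ℂ) ^ 2)) =
      (cexp (-(Λ / 2) * (a : ℂ) ^ 2) - cexp (-(Λ / 2) * (b : ℂ) ^ 2)) / Λ := by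
  have h1 : ∀ t ∈ uIcc a b, HasDerivAt (fun t : ℝ => -cexp (-(Λ / 2) * (t : ℂ) ^ 2) / Λ)
      ((t : ℂ) * cexp (-(Λ / 2) * (t : ℂ) ^ 2)) t := by
    intro t _
    have h2 : HasDerivAt (fun t : ℝ => (t : ℂ)) 1 t := Complex.ofRealCLM.hasDerivAt
    have h3 := ((((h2.pow 2).const_mul (-(Λ / 2))).cexp).neg).div_const Λ
    refine h3.congr_deriv ?_
    simp only [Pi.pow_apply, Nat.cast_ofNat, Nat.add_one_sub_one, pow_one, mul_one]
    field_simp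
  rw [intervalIntegral.integral_eq_sub_of_hasDerivAt h1
    (by apply Continuous.intervalIntegrable; fun_prop)]
  ring

theorem gauss_one_Iic {Λ : ℂ} (ha : 0 < Λ.re) :
    (∫ t in Iic (0:ℝ), (t : ℂ) * cexp (-(Λ / 2) * (t : ℂ) ^ 2)) = -1 / Λ := by
  have hΛ : Λ ≠ 0 := by rintro rfl; simp at ha
  have hI : Integrable (fun t : ℝ => (t : ℂ) * cexp (-(Λ / 2) * (t : ℂ) ^ 2)) := by
    have := gi ha 1
    simpa only [pow_one] using this
  have h1 := intervalIntegral_tendsto_integral_Iic (0 : ℝ) hI.integrableOn tendsto_id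
  have h2 : Tendsto (fun s : ℝ => (cexp (-(Λ / 2) * (s : ℂ) ^ 2) - 1) / Λ) atBot (𝓝 ((0 - 1) / Λ)) := by
    refine Tendsto.div_const (Tendsto.sub_const ?_ 1) Λ
    rw [tendsto_zero_iff_norm_tendsto_zero]
    have hn : ∀ t : ℝ, ‖cexp (-(Λ / 2) * (t : ℂ) ^ 2)‖ = Real.exp (-(Λ.re / 2 * t ^ 2)) := by
      intro t
      rw [Complex.norm_exp]
      congr 1
      rw [← Complex.ofReal_pow, Complex.re_mul_ofReal]
      simp
    simp only [hn]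
    have h3 : Tendsto (fun t : ℝ => Λ.re / 2 * t ^ 2) atBot atTop := by
      refine Tendsto.const_mul_atTop (by positivity) ?_
      have h4 := (tendsto_pow_atTop (α := ℝ) two_ne_zero).comp tendsto_neg_atBot_atTop
      refine h4.congr fun t => ?_
      simp
    exact Real.tendsto_exp_neg_atTop_nhds_zero.comp h3
  have h3 := tendsto_nhds_unique h1 (h2.congr fun s => by
    simp only [id]
    rw [gauss_one hΛ]
    simp)
  rw [h3]
  ring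

/-- right half segment, power `p` -/
theorem seg_right {Λ : ℂ} {c M T : ℝ} {R : ℝ → ℂ} (ha : 0 < Λ.re) (hc : 0 < c) (hc1 : c ≤ 1) (hM : 0 ≤ M)
    (hR : Continuous R) (hT : 0 ≤ T)
    (h3 : ∀ t : ℝ, 0 < t → t ≤ T → ‖R t‖ ≤ M * t ^ 3)
    (hre : ∀ t : ℝ, 0 < t → t ≤ T → (R t).re ≤ (1 - c) * Λ.re * t ^ 2 / 2) (p : ℕ) :
    ‖(∫ t in (0:ℝ)..T, (t : ℂ) ^ p * cexp (-(Λ / 2) * (t : ℂ) ^ 2 + R t)) -
      ∫ t in (0:ℝ)..T, (t : ℂ) ^ p * cexp (-(Λ / 2) * (t : ℂ) ^ 2)‖ ≤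
      M * ((∫ t : ℝ, |t| ^ (p + 3) * Real.exp (-(c * Λ.re / 2) * t ^ 2)) / 2) := by
  have h := (half_right (S := Ioc 0 T) ha hc hc1 hM hR measurableSet_Ioc (fun t ht => ht.1)
    (fun t ht => by rw [abs_of_pos ht.1]; exact h3 t ht.1 ht.2) (fun t ht => hre t ht.1 ht.2) p).2
  refine le_trans (le_of_eq ?_) h
  congr 1
  rw [← intervalIntegral.integral_sub (by apply Continuous.intervalIntegrable; fun_prop)
    (by apply Continuous.intervalIntegrable; fun_prop), intervalIntegral.integral_of_le hT]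
  refine setIntegral_congr_fun measurableSet_Ioc (fun t _ => ?_)
  show _ = _
  ring

/-- left half segment, power `p` -/
theorem seg_left {Λ : ℂ} {c M T : ℝ} {R : ℝ → ℂ} (ha : 0 < Λ.re) (hc : 0 < c) (hc1 : c ≤ 1) (hM : 0 ≤ M)
    (hR : Continuous R) (hT : 0 ≤ T)
    (h3 : ∀ t : ℝ, -T ≤ t → t < 0 → ‖R t‖ ≤ M * |t| ^ 3)
    (hre : ∀ t : ℝ, -T ≤ t → t < 0 → (R t).re ≤ (1 - c) * Λ.re * t ^ 2 / 2) (p : ℕ) :
    ‖(∫ t in (-T)..0, (t : ℂ) ^ p * cexp (-(Λ / 2) * (t : ℂ) ^ 2 + R t)) -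
      ∫ t in (-T)..0, (t : ℂ) ^ p * cexp (-(Λ / 2) * (t : ℂ) ^ 2)‖ ≤
      M * ((∫ t : ℝ, |t| ^ (p + 3) * Real.exp (-(c * Λ.re / 2) * t ^ 2)) / 2) := by
  have h := (half_left (S := Ioo (-T) 0) ha hc hc1 hM hR measurableSet_Ioo (fun t ht => ht.2)
    (fun t ht => h3 t ht.1.le ht.2) (fun t ht => hre t ht.1.le ht.2) p).2
  refine le_trans (le_of_eq ?_) h
  congr 1
  rw [← intervalIntegral.integral_sub (by apply Continuous.intervalIntegrable; fun_prop)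
    (by apply Continuous.intervalIntegrable; fun_prop), intervalIntegral.integral_of_le (by linarith),
    integral_Ioc_eq_integral_Ioo]
  refine setIntegral_congr_fun measurableSet_Ioo (fun t _ => ?_)
  show _ = _
  ring

/-- left ray, power `p` -/
theorem ray_left {Λ : ℂ} {c M : ℝ} {R : ℝ → ℂ} (ha : 0 < Λ.re) (hc : 0 < c) (hc1 : c ≤ 1) (hM : 0 ≤ M)
    (hR : Continuous R) (h3 : ∀ t : ℝ, t < 0 → ‖R t‖ ≤ M * |t| ^ 3)
    (hre : ∀ t : ℝ, t < 0 → (R t).re ≤ (1 - c) * Λ.re * t ^ 2 / 2) (p : ℕ) :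
    IntegrableOn (fun t : ℝ => (t : ℂ) ^ p * cexp (-(Λ / 2) * (t : ℂ) ^ 2 + R t)) (Iic 0) ∧
    ‖(∫ t in Iic (0:ℝ), (t : ℂ) ^ p * cexp (-(Λ / 2) * (t : ℂ) ^ 2 + R t)) -
      ∫ t in Iic (0:ℝ), (t : ℂ) ^ p * cexp (-(Λ / 2) * (t : ℂ) ^ 2)‖ ≤
      M * ((∫ t : ℝ, |t| ^ (p + 3) * Real.exp (-(c * Λ.re / 2) * t ^ 2)) / 2) := by
  obtain ⟨h1, h2⟩ := half_left (S := Iio 0) ha hc hc1 hM hR measurableSet_Iio subset_rfl
    (fun t ht => h3 t ht) (fun t ht => hre t ht) p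
  have hg : IntegrableOn (fun t : ℝ => (t : ℂ) ^ p * cexp (-(Λ / 2) * (t : ℂ) ^ 2)) (Iic 0) := (gi ha p).integrableOn
  have h1' := (integrableOn_Iic_iff_integrableOn_Iio).2 h1
  have h3' : IntegrableOn (fun t : ℝ => (t : ℂ) ^ p * cexp (-(Λ / 2) * (t : ℂ) ^ 2 + R t)) (Iic 0) := by
    refine (h1'.add hg).congr_fun (fun t _ => ?_) measurableSet_Iic
    simp only [Pi.add_apply]
    ring
  refine ⟨h3', ?_⟩
  rw [← integral_sub h3' hg]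
  refine le_trans (le_of_eq ?_) h2
  rw [← integral_Iic_eq_integral_Iio]
  congr 2
  funext t
  ring

end Sok.W
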