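import Pool.Agent.Lib.MP_816dec_an.XYmain
import Pool.Agent.Lib.MP_816dec_an.LapHalf

/-!
MP_816dec_an, b = 1, `1.3 ≤ κ ≤ 4.7`, `r ≥ 10` (row A1-L): definitions.
-/

set_option autoImplicit false

open Complex Set Filter Topology MeasureTheory

namespace Sok

/-- left saddle `y₀ = (θ + R) + i h` (`φ = θ + R ∈ [0, π]`), `κ = β r` -/
structure SadX (κ θ R h : ℝ) : Prop where
  h0 : 0 ≤ h
  φ0 : 0 ≤ θ + R
  φ1 : θ + R ≤ Real.pi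
  eR : R = κ * Real.exp (-h) * Real.cos (θ + R)
  eh : h = κ * Real.exp (-h) * Real.sin (θ + R)

/-- right saddle `y₁ = (2π - α) - i g`, `R₁ = 2π - α - θ` -/
structure SadY (κ θ R₁ g α : ℝ) : Prop where
  g0 : 0 ≤ g
  α0 : 0 ≤ α
  α1 : α ≤ 29 / 100
  hα : R₁ = 2 * Real.pi - α - θ
  eR : R₁ = κ * Real.exp g * Real.cos α
  eg : g = κ * Real.exp g * Real.sin α

/-- `E` along the left ray `y₀ - z e^{-iπ/6}` -/
noncomputable def EL (R h z : ℝ) : ℝ :=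
  Real.sqrt 3 / 4 * z ^ 2 + R * (1 - z / 2 - Real.exp (-(z / 2)) * Real.cos (Real.sqrt 3 / 2 * z)) +
    h * (Real.sqrt 3 / 2 * z - Real.exp (-(z / 2)) * Real.sin (Real.sqrt 3 / 2 * z))

/-- `E` along the right ray `y₀ + z e^{-iπ/6}` -/
noncomputable def ER (R h z : ℝ) : ℝ :=
  Real.sqrt 3 / 4 * z ^ 2 + R * (1 + z / 2 - Real.exp (z / 2) * Real.cos (Real.sqrt 3 / 2 * z)) +
    h * (Real.exp (z / 2) * Real.sin (Real.sqrt 3 / 2 * z) - Real.sqrt 3 / 2 * z)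

/-- `E` down the valley, from the end of the right ray; `z₁ = (π - φ)/(√3/2)` -/
noncomputable def EV (R h φ v : ℝ) : ℝ :=
  R * (1 + h) + (Real.pi - φ + R) * ((Real.pi - φ) / Real.sqrt 3 - h + v) +
    Real.sqrt (R ^ 2 + h ^ 2) * Real.exp ((Real.pi - φ) / Real.sqrt 3 + v)

/-- second derivative of the phase in the direction `e^{-iπ/6}` -/
noncomputable def AG (R h : ℝ) : ℝ := (R + Real.sqrt 3 * (1 + h)) / 2

/-- the domain of the inequalities in case G -/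
def DomG (R h φ : ℝ) : Prop :=
  0 ≤ h ∧ h ≤ 13 / 10 ∧ R ≤ 4 / 3 * (1 + h) ∧ R ≤ 236 / 100 ∧
    (-(14 / 100) ≤ R ∨ (-(6 / 10) ≤ R ∧ 55 / 100 ≤ h ∧ h ≤ 88 / 100)) ∧
    0 ≤ φ ∧ φ ≤ Real.pi - Real.sqrt 3 / 2 ∧
    R = Real.sqrt (R ^ 2 + h ^ 2) * Real.cos φ ∧ h = Real.sqrt (R ^ 2 + h ^ 2) * Real.sin φ

/-- the three boxes -/
def BoxG (a ρ q : ℝ) : Prop :=
  (515 / 100 ≤ a ∧ ρ ≤ 91 / 100 ∧ q ≤ 118 / 100) ∨ (41 / 10 ≤ a ∧ ρ ≤ 72 / 100 ∧ q ≤ 118 / 100) ∨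
    (6 ≤ a ∧ ρ ≤ 75 / 100 ∧ q ≤ 16 / 10)

end Sok
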