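import Pool.Agent.Lib.MP_816dec_an.LX

/-!
MP_816dec_an, b = 1, `1.3 ≤ κ ≤ 4.7`: the saddle point estimate of `XL` for `R ≤ 5/2`: the numerical boxes.
-/

set_option autoImplicit false

open Complex Set Filter Topology MeasureTheory

namespace Sok.W

theorem exp_neg_le_of {x E : ℝ} (hx : 0 ≤ x) (hE : 0 < E) (h : 1 / E ≤ ∑ i ∈ Finset.range 12, x ^ i / (i.factorial : ℝ)) :
    Real.exp (-x) ≤ E := by
  have h1 := Real.sum_le_exp_of_nonneg hx 12
  rw [Real.exp_neg, inv_le_comm₀ (Real.exp_pos _) hE, ← one_div]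
  exact h.trans h1

theorem exp_le_of {x E : ℝ} (hx : 0 ≤ x) (hx2 : x ≤ 2)
    (h : (∑ i ∈ Finset.range 8, (x / 2) ^ i / (i.factorial : ℝ) + (x / 2) ^ 8 * (8 + 1) / ((Nat.factorial 8 : ℝ) * 8)) ^ 2 ≤ E) :
    Real.exp x ≤ E := by
  have h1 := Real.exp_bound' (x := x / 2) (by linarith) (by linarith) (n := 8) (by norm_num)
  have h2 : Real.exp x = Real.exp (x / 2) ^ 2 := by
    rw [← Real.exp_nat_mul]; congr 1; push_cast; ring
  rw [h2]
  refine le_trans (pow_le_pow_left₀ (Real.exp_pos _).le h1 2) ?_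
  push_cast at h ⊢
  exact h

theorem norm_le_box {R0 R1 h0 h1 R h A B C : ℝ} (hR0 : R0 ≤ R) (hR1 : R ≤ R1) (hh0 : h0 ≤ h) (hh1 : h ≤ h1)
    (hR : R0 < R1) (hh : h0 < h1)
    (c00 : ‖(R0 + h0 * I : ℂ)‖ ≤ A * R0 + B * h0 + C) (c10 : ‖(R1 + h0 * I : ℂ)‖ ≤ A * R1 + B * h0 + C)
    (c01 : ‖(R0 + h1 * I : ℂ)‖ ≤ A * R0 + B * h1 + C) (c11 : ‖(R1 + h1 * I : ℂ)‖ ≤ A * R1 + B * h1 + C) :
    ‖(R + h * I : ℂ)‖ ≤ A * R + B * h + C := by
  obtain ⟨s, hs⟩ : ∃ s, s = (R - R0) / (R1 - R0) := ⟨_, rfl⟩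
  obtain ⟨t, ht⟩ : ∃ t, t = (h - h0) / (h1 - h0) := ⟨_, rfl⟩
  have hd1 : 0 < R1 - R0 := by linarith
  have hd2 : 0 < h1 - h0 := by linarith
  have hs0 : 0 ≤ s := by rw [hs]; exact div_nonneg (by linarith) hd1.le
  have hs1 : 0 ≤ 1 - s := by rw [hs, sub_nonneg, div_le_one hd1]; linarith
  have ht0 : 0 ≤ t := by rw [ht]; exact div_nonneg (by linarith) hd2.le
  have ht1 : 0 ≤ 1 - t := by rw [ht, sub_nonneg, div_le_one hd2]; linarith
  have eR : R = (1 - s) * R0 + s * R1 := by rw [hs]; field_simp; ring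
  have eh : h = (1 - t) * h0 + t * h1 := by rw [ht]; field_simp; ring
  have e : (R + h * I : ℂ) = ((((1 - s) * (1 - t) : ℝ) : ℂ) * (R0 + h0 * I) + ((s * (1 - t) : ℝ) : ℂ) * (R1 + h0 * I)) +
      ((((1 - s) * t : ℝ) : ℂ) * (R0 + h1 * I) + ((s * t : ℝ) : ℂ) * (R1 + h1 * I)) := by
    rw [eR, eh]; push_cast; ring
  have nn : ∀ (x : ℝ) (z : ℂ) (M : ℝ), 0 ≤ x → ‖z‖ ≤ M → ‖(x : ℂ) * z‖ ≤ x * M := by
    intro x z M hx hz
    rw [norm_mul, Complex.norm_real, Real.norm_of_nonneg hx]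
    exact mul_le_mul_of_nonneg_left hz hx
  rw [e]
  refine (norm_add_le _ _).trans ((add_le_add (norm_add_le _ _) (norm_add_le _ _)).trans ?_)
  refine (add_le_add (add_le_add (nn _ _ _ (by positivity) c00) (nn _ _ _ (by positivity) c10))
    (add_le_add (nn _ _ _ (by positivity) c01) (nn _ _ _ (by positivity) c11))).trans (le_of_eq ?_)
  rw [eR, eh]
  ring

theorem norm_le_of_sq {R h M : ℝ} (hM : 0 ≤ M) (hh : R ^ 2 + h ^ 2 ≤ M ^ 2) : ‖(R + h * I : ℂ)‖ ≤ M := by
  rw [Complex.norm_add_mul_I]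
  exact Real.sqrt_le_iff.2 ⟨hM, hh⟩

theorem norm_one_sub (R h : ℝ) : ‖1 - I * (R + h * I : ℂ)‖ = ‖(R + (1 + h : ℝ) * I : ℂ)‖ := by
  have : (R + (1 + h : ℝ) * I : ℂ) = I * (1 - I * (R + h * I)) := by
    push_cast
    linear_combination (R + h * I : ℂ) * Complex.I_sq
  rw [this, norm_mul, Complex.norm_I, one_mul]

/-- standing assumptions -/
structure Std (β r θ R h : ℝ) : Prop where
  hβ : 0 < β
  hr : 10 ≤ r
  hs : Sad β r θ (R + h * I)
  h0 : 0 ≤ h
  hRc : -14 / 100 ≤ R ∨ (-3 / 5 ≤ R ∧ 11 / 20 ≤ h)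
  hφ0 : 0 ≤ θ + R
  hφ1 : θ + R ≤ Real.pi
  hβR : β < R + 15 / 17
  hθπ : θ + β < Real.pi

theorem Std.al_pos {β r θ R h : ℝ} (H : Std β r θ R h) : 0 < al R h := by
  unfold al
  have := H.h0
  rcases H.hRc with h1 | ⟨h1, h2⟩
  · linarith
  · linarith

theorem Std.norm_eq {β r θ R h : ℝ} (H : Std β r θ R h) : ‖(R + h * I : ℂ)‖ = β * r * Real.exp (-h) := by
  obtain ⟨h1, h2⟩ := H.hs.polar
  have hpos : 0 ≤ β * r * Real.exp (-h) := by
    have := H.hβ; have := H.hr; have : 0 < r := by linarith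
    positivity
  rw [Complex.norm_add_mul_I]
  have e : R ^ 2 + h ^ 2 = (β * r * Real.exp (-h)) ^ 2 := by
    have h3 := Real.sin_sq_add_cos_sq (θ + R)
    calc R ^ 2 + h ^ 2 = (β * r * Real.exp (-h)) ^ 2 * (Real.sin (θ + R) ^ 2 + Real.cos (θ + R) ^ 2) := by
          rw [mul_add, ← mul_pow, ← mul_pow, ← h1, ← h2]; ring
      _ = _ := by rw [h3, mul_one]
  rw [e, Real.sqrt_sq hpos]

/-- `R ≤ R1` for `h ≥ h0` -/
theorem Std.R_le {β r θ R h : ℝ} (H : Std β r θ R h) (hκ : β * r ≤ 47 / 10) {h0 R1 E0 : ℝ} (hh0 : 0 ≤ h0) (hh : h0 ≤ h)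
    (hR1 : 0 ≤ R1) (hE : Real.exp (-(2 * h0)) ≤ E0) (hc : 22.09 * E0 - h0 ^ 2 ≤ R1 ^ 2) : R ≤ R1 := by
  have h1 := H.norm_eq
  rw [Complex.norm_add_mul_I] at h1
  have hβr : 0 < β * r := mul_pos H.hβ (by have := H.hr; linarith)
  have h2 : R ^ 2 + h ^ 2 = (β * r * Real.exp (-h)) ^ 2 := by
    rw [← h1, Real.sq_sqrt (by positivity)]
  have h3 : (β * r * Real.exp (-h)) ^ 2 ≤ 22.09 * E0 := by
    have h4 : Real.exp (-h) ^ 2 ≤ E0 := by
      refine le_trans ?_ hE
      rw [← Real.exp_nat_mul]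
      apply Real.exp_le_exp.2
      push_cast; linarith
    have h5 : (β * r) ^ 2 ≤ 22.09 := by nlinarith
    rw [mul_pow]
    exact mul_le_mul h5 h4 (by positivity) (by norm_num)
  have h6 : h0 ^ 2 ≤ h ^ 2 := pow_le_pow_left₀ hh0 hh 2
  exact (le_abs_self R).trans (abs_le_of_sq_le_sq (by nlinarith) hR1)

/-- `h ≤ 1.2925` -/
theorem Std.h_le {β r θ R h : ℝ} (H : Std β r θ R h) (hκ : β * r ≤ 47 / 10) : h ≤ 1.2925 := by
  have h1 := H.norm_eq
  have h2 : h ≤ β * r * Real.exp (-h) := by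
    rw [← h1]
    have := Complex.abs_im_le_norm (R + h * I : ℂ)
    simp only [Complex.add_im, Complex.ofReal_im, Complex.im_ofReal_mul, Complex.I_im, zero_add, mul_one] at this
    exact (le_abs_self h).trans this
  by_contra hneg
  rw [not_le] at hneg
  have h3 : Real.exp (-h) ≤ Real.exp (-1.2925) := Real.exp_le_exp.2 (by linarith)
  have h4 : Real.exp (-1.2925) ≤ 0.27459 :=
    exp_neg_le_of (by norm_num) (by norm_num) (by norm_num [Finset.sum_range_succ, Nat.factorial])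
  have h5 : β * r * Real.exp (-h) ≤ 47 / 10 * 0.27459 :=
    mul_le_mul hκ (h3.trans h4) (Real.exp_pos _).le (by norm_num)
  norm_num at h5
  linarith

theorem al_le_m (R h : ℝ) : al R h ≤ ‖1 - I * (R + h * I : ℂ)‖ := by
  rw [norm_one_sub, Complex.norm_add_mul_I]
  refine Real.le_sqrt_of_sq_le ?_
  unfold al
  nlinarith [sq_nonneg (240 * R - 161 * (1 + h))]

theorem al_le_m' {R h : ℝ} (h0 : 0 ≤ h) (hR : R ≤ 0) : 1.095 ^ 2 * al R h ≤ ‖1 - I * (R + h * I : ℂ)‖ := by
  have h1 : 1 + h ≤ ‖1 - I * (R + h * I : ℂ)‖ := by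
    rw [norm_one_sub]
    have := Complex.abs_im_le_norm (R + (1 + h : ℝ) * I : ℂ)
    simp only [Complex.add_im, Complex.ofReal_im, Complex.im_ofReal_mul, Complex.I_im, zero_add, mul_one] at this
    exact (le_abs_self _).trans this
  refine le_trans ?_ h1
  unfold al
  linarith

/-- one box -/
theorem Std.box {β r θ R h : ℝ} (H : Std β r θ R h) {c1 c2 : ℝ} (hc1 : 0 ≤ c1) (hc2 : 0 < c2)
    (hleft : ∀ d : ℝ, 0 ≤ d → gre R h (-(15 * (1 + d) / 17)) (8 * (1 + d) / 17) ≤ -(al R h * (c1 + c2 * d)))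
    {sqm : ℝ} (hsqm : 0 < sqm) (hqm : sqm ^ 2 * al R h ≤ ‖1 - I * (R + h * I : ℂ)‖)
    (R0 R1 h0 h1 ρ sq EE t sc w E1 E2 E5 : ℝ)
    (hR0 : R0 ≤ R) (hR1 : R ≤ R1) (hh0 : h0 ≤ h) (hh1 : h ≤ h1) (hR : R0 < R1) (hh : h0 < h1)
    (n00 : R0 ^ 2 + h0 ^ 2 ≤ (ρ * ((161 * R0 + 240 * (1 + h0)) / 289)) ^ 2)
    (n10 : R1 ^ 2 + h0 ^ 2 ≤ (ρ * ((161 * R1 + 240 * (1 + h0)) / 289)) ^ 2)
    (n01 : R0 ^ 2 + h1 ^ 2 ≤ (ρ * ((161 * R0 + 240 * (1 + h1)) / 289)) ^ 2)
    (n11 : R1 ^ 2 + h1 ^ 2 ≤ (ρ * ((161 * R1 + 240 * (1 + h1)) / 289)) ^ 2)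
    (m00 : R0 ^ 2 + (1 + h0) ^ 2 ≤ (sq ^ 2 * ((161 * R0 + 240 * (1 + h0)) / 289)) ^ 2)
    (m10 : R1 ^ 2 + (1 + h0) ^ 2 ≤ (sq ^ 2 * ((161 * R1 + 240 * (1 + h0)) / 289)) ^ 2)
    (m01 : R0 ^ 2 + (1 + h1) ^ 2 ≤ (sq ^ 2 * ((161 * R0 + 240 * (1 + h1)) / 289)) ^ 2)
    (m11 : R1 ^ 2 + (1 + h1) ^ 2 ≤ (sq ^ 2 * ((161 * R1 + 240 * (1 + h1)) / 289)) ^ 2)
    (p0 : 0 ≤ 161 * R0 + 240 * (1 + h0)) (hρ0 : 0 < ρ) (hsq0 : 0 ≤ sq)
    (hEE : Real.exp h1 ≤ EE) (htt : ρ * EE / 10 ≤ t)
    (ht1 : t < 4 / 5) (hsc : 0 < sc) (hsc1 : sc ≤ 1) (hw0 : 0 ≤ w)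
    (hc : sc ^ 2 ≤ 1 - 2 * 0.1883 * ρ) (hw2 : t ≤ w ^ 2 * 6.283)
    (hE1 : Real.exp (-(c1 / t)) ≤ E1) (hE2 : Real.exp (-(7 / 20 / t)) ≤ E2) (hE5 : Real.exp (-(1 / 2 / t)) ≤ E5)
    (hfin : ρ * (t * (1 / 4 + 0.5887 / 2) / sc ^ 3 + w * (E1 * (1 / (2 * c2) + t / c2 ^ 2 + t ^ 2 / c2 ^ 3) +
        E2 * (4 * (1.6488 / (4 / 5 - t) - 15 / 8 - 25 / 16 * t)))) / sqm +
      sq / 2 * (t * (3 * 0.04593 * ρ + 15 / 2 * (0.1883 * ρ) ^ 2 / sc ^ 7) + w * (2 * E5 + E1 / c2 + E2 / (4 / 5))) ≤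
      1 / 2) :
    XL (KK β r θ) ≠ 0 ∧ ‖XL (K1 β r θ) / XL (KK β r θ) - (R + h * I)‖ ≤ 1 / 2 := by
  have hal := H.al_pos
  have p1 : 0 ≤ 161 * R1 + 240 * (1 + h0) := by linarith
  have p2 : 0 ≤ 161 * R0 + 240 * (1 + h1) := by linarith
  have p3 : 0 ≤ 161 * R1 + 240 * (1 + h1) := by linarith
  have hn : ‖(R + h * I : ℂ)‖ ≤ ρ * al R h := by
    have h2 := norm_le_box (A := ρ * (161 / 289)) (B := ρ * (240 / 289)) (C := ρ * (240 / 289)) hR0 hR1 hh0 hh1 hR hh
      ((norm_le_of_sq (by positivity) n00).trans (le_of_eq (by ring)))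
      ((norm_le_of_sq (by positivity) n10).trans (le_of_eq (by ring)))
      ((norm_le_of_sq (by positivity) n01).trans (le_of_eq (by ring)))
      ((norm_le_of_sq (by positivity) n11).trans (le_of_eq (by ring)))
    refine h2.trans (le_of_eq ?_)
    unfold al; ring
  have hm : ‖1 - I * (R + h * I : ℂ)‖ ≤ sq ^ 2 * al R h := by
    rw [norm_one_sub]
    have h2 := norm_le_box (A := sq ^ 2 * (161 / 289)) (B := sq ^ 2 * (240 / 289)) (C := 0) (h0 := 1 + h0) (h1 := 1 + h1)
      (h := 1 + h) hR0 hR1 (by linarith) (by linarith) hR (by linarith)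
      ((norm_le_of_sq (by positivity) m00).trans (le_of_eq (by ring)))
      ((norm_le_of_sq (by positivity) m10).trans (le_of_eq (by ring)))
      ((norm_le_of_sq (by positivity) m01).trans (le_of_eq (by ring)))
      ((norm_le_of_sq (by positivity) m11).trans (le_of_eq (by ring)))
    refine h2.trans (le_of_eq ?_)
    unfold al; ring
  have hβt : β ≤ t * al R h := by
    have h2 := H.norm_eq
    have hr := H.hr
    have hβ := H.hβ
    have h3 : β * r = ‖(R + h * I : ℂ)‖ * Real.exp h := by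
      rw [h2, mul_assoc, ← Real.exp_add, neg_add_cancel, Real.exp_zero, mul_one]
    have h4 : Real.exp h ≤ EE := (Real.exp_le_exp.2 hh1).trans hEE
    have h5 : β * r ≤ ρ * al R h * EE := by
      rw [h3]; exact mul_le_mul hn h4 (Real.exp_pos _).le (by positivity)
    have h6 : ρ * EE / 10 * al R h ≤ t * al R h := mul_le_mul_of_nonneg_right htt hal.le
    nlinarith
  exact XG_core H.hβ (by have := H.hr; linarith) H.hs H.h0 hal H.hRc H.hφ0 H.hφ1 H.hβR H.hθπ hc1 hc2 hleft ht1 hsc hsc1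
    hw0 hsqm hρ0 hn hm hsq0 hqm hβt hc hw2 hE1 hE2 hE5 hfin

theorem bxA0 {β r θ R h : ℝ} (H : Std β r θ R h) (hR0 : 1.0 ≤ R) (hR1 : R ≤ 2.5) (hh0 : 0.0 ≤ h) (hh1 : h ≤ 0.21) :
    XL (KK β r θ) ≠ 0 ∧ ‖XL (K1 β r θ) / XL (KK β r θ) - (R + h * I)‖ ≤ 1 / 2 := by
  refine H.box (c1 := 7 / 25) (c2 := 2 / 5) (by norm_num) (by norm_num) (fun d hd => gre_left1 hd H.h0 (by linarith) (by linarith)) (sqm := 1) (by norm_num)
    (by rw [one_pow, one_mul]; exact al_le_m R h)
    1.0 2.5 0.0 0.21 1.1246 1.1006 1.2337 0.13875 0.7592 0.1487 0.133 0.0803 0.0273 hR0 hR1 hh0 hh1 (by norm_num) (by norm_num) (by norm_num) (by norm_num)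
    (by norm_num) (by norm_num) (by norm_num) (by norm_num) (by norm_num) (by norm_num) (by norm_num) (by norm_num)
    (by norm_num) ?_ (by norm_num) (by norm_num) (by norm_num) (by norm_num) (by norm_num) (by norm_num) (by norm_num)
    ?_ ?_ ?_ (by norm_num)
  · exact exp_le_of (by norm_num) (by norm_num) (by norm_num [Finset.sum_range_succ, Nat.factorial])
  · exact exp_neg_le_of (by norm_num) (by norm_num) (by norm_num [Finset.sum_range_succ, Nat.factorial])
  · exact exp_neg_le_of (by norm_num) (by norm_num) (by norm_num [Finset.sum_range_succ, Nat.factorial])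
  · exact exp_neg_le_of (by norm_num) (by norm_num) (by norm_num [Finset.sum_range_succ, Nat.factorial])

theorem bxA1 {β r θ R h : ℝ} (H : Std β r θ R h) (hR0 : 1.0 ≤ R) (hR1 : R ≤ 2.5) (hh0 : 0.21 ≤ h) (hh1 : h ≤ 0.4) :
    XL (KK β r θ) ≠ 0 ∧ ‖XL (K1 β r θ) / XL (KK β r θ) - (R + h * I)‖ ≤ 1 / 2 := by
  refine H.box (c1 := 7 / 25) (c2 := 2 / 5) (by norm_num) (by norm_num) (fun d hd => gre_left1 hd H.h0 (by linarith) (by linarith)) (sqm := 1) (by norm_num)
    (by rw [one_pow, one_mul]; exact al_le_m R h)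
    1.0 2.5 0.21 0.4 1.0464 1.0764 1.4919 0.15612 0.7784 0.1577 0.1664 0.1063 0.0407 hR0 hR1 hh0 hh1 (by norm_num) (by norm_num) (by norm_num) (by norm_num)
    (by norm_num) (by norm_num) (by norm_num) (by norm_num) (by norm_num) (by norm_num) (by norm_num) (by norm_num)
    (by norm_num) ?_ (by norm_num) (by norm_num) (by norm_num) (by norm_num) (by norm_num) (by norm_num) (by norm_num)
    ?_ ?_ ?_ (by norm_num)
  · exact exp_le_of (by norm_num) (by norm_num) (by norm_num [Finset.sum_range_succ, Nat.factorial])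
  · exact exp_neg_le_of (by norm_num) (by norm_num) (by norm_num [Finset.sum_range_succ, Nat.factorial])
  · exact exp_neg_le_of (by norm_num) (by norm_num) (by norm_num [Finset.sum_range_succ, Nat.factorial])
  · exact exp_neg_le_of (by norm_num) (by norm_num) (by norm_num [Finset.sum_range_succ, Nat.factorial])

theorem bxA2 {β r θ R h : ℝ} (H : Std β r θ R h) (hR0 : 1.0 ≤ R) (hR1 : R ≤ 2.5) (hh0 : 0.4 ≤ h) (hh1 : h ≤ 0.525) :
    XL (KK β r θ) ≠ 0 ∧ ‖XL (K1 β r θ) / XL (KK β r θ) - (R + h * I)‖ ≤ 1 / 2 := by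
  refine H.box (c1 := 7 / 25) (c2 := 2 / 5) (by norm_num) (by norm_num) (fun d hd => gre_left1 hd H.h0 (by linarith) (by linarith)) (sqm := 1) (by norm_num)
    (by rw [one_pow, one_mul]; exact al_le_m R h)
    1.0 2.5 0.4 0.525 0.9908 1.059 1.6905 0.1675 0.7917 0.1633 0.188 0.1238 0.0506 hR0 hR1 hh0 hh1 (by norm_num) (by norm_num) (by norm_num) (by norm_num)
    (by norm_num) (by norm_num) (by norm_num) (by norm_num) (by norm_num) (by norm_num) (by norm_num) (by norm_num)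
    (by norm_num) ?_ (by norm_num) (by norm_num) (by norm_num) (by norm_num) (by norm_num) (by norm_num) (by norm_num)
    ?_ ?_ ?_ (by norm_num)
  · exact exp_le_of (by norm_num) (by norm_num) (by norm_num [Finset.sum_range_succ, Nat.factorial])
  · exact exp_neg_le_of (by norm_num) (by norm_num) (by norm_num [Finset.sum_range_succ, Nat.factorial])
  · exact exp_neg_le_of (by norm_num) (by norm_num) (by norm_num [Finset.sum_range_succ, Nat.factorial])
  · exact exp_neg_le_of (by norm_num) (by norm_num) (by norm_num [Finset.sum_range_succ, Nat.factorial])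

theorem bxA3 {β r θ R h : ℝ} (H : Std β r θ R h) (hR0 : 1.0 ≤ R) (hR1 : R ≤ 2.5) (hh0 : 0.525 ≤ h) (hh1 : h ≤ 0.595) :
    XL (KK β r θ) ≠ 0 ∧ ‖XL (K1 β r θ) / XL (KK β r θ) - (R + h * I)‖ ≤ 1 / 2 := by
  refine H.box (c1 := 7 / 25) (c2 := 2 / 5) (by norm_num) (by norm_num) (fun d hd => gre_left1 hd H.h0 (by linarith) (by linarith)) (sqm := 1) (by norm_num)
    (by rw [one_pow, one_mul]; exact al_le_m R h)
    1.0 2.5 0.525 0.595 0.9607 1.0495 1.8131 0.17419 0.7988 0.1666 0.2005 0.1341 0.0567 hR0 hR1 hh0 hh1 (by norm_num) (by norm_num) (by norm_num) (by norm_num)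
    (by norm_num) (by norm_num) (by norm_num) (by norm_num) (by norm_num) (by norm_num) (by norm_num) (by norm_num)
    (by norm_num) ?_ (by norm_num) (by norm_num) (by norm_num) (by norm_num) (by norm_num) (by norm_num) (by norm_num)
    ?_ ?_ ?_ (by norm_num)
  · exact exp_le_of (by norm_num) (by norm_num) (by norm_num [Finset.sum_range_succ, Nat.factorial])
  · exact exp_neg_le_of (by norm_num) (by norm_num) (by norm_num [Finset.sum_range_succ, Nat.factorial])
  · exact exp_neg_le_of (by norm_num) (by norm_num) (by norm_num [Finset.sum_range_succ, Nat.factorial])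
  · exact exp_neg_le_of (by norm_num) (by norm_num) (by norm_num [Finset.sum_range_succ, Nat.factorial])

theorem bxA4 {β r θ R h : ℝ} (H : Std β r θ R h) (hR0 : 1.0 ≤ R) (hR1 : R ≤ 2.5) (hh0 : 0.595 ≤ h) (hh1 : h ≤ 0.625) :
    XL (KK β r θ) ≠ 0 ∧ ‖XL (K1 β r θ) / XL (KK β r θ) - (R + h * I)‖ ≤ 1 / 2 := by
  refine H.box (c1 := 7 / 25) (c2 := 2 / 5) (by norm_num) (by norm_num) (fun d hd => gre_left1 hd H.h0 (by linarith) (by linarith)) (sqm := 1) (by norm_num)
    (by rw [one_pow, one_mul]; exact al_le_m R h)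
    1.0 2.5 0.595 0.625 0.9458 1.0447 1.8683 0.17671 0.8023 0.1678 0.2051 0.138 0.0591 hR0 hR1 hh0 hh1 (by norm_num) (by norm_num) (by norm_num) (by norm_num)
    (by norm_num) (by norm_num) (by norm_num) (by norm_num) (by norm_num) (by norm_num) (by norm_num) (by norm_num)
    (by norm_num) ?_ (by norm_num) (by norm_num) (by norm_num) (by norm_num) (by norm_num) (by norm_num) (by norm_num)
    ?_ ?_ ?_ (by norm_num)
  · exact exp_le_of (by norm_num) (by norm_num) (by norm_num [Finset.sum_range_succ, Nat.factorial])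
  · exact exp_neg_le_of (by norm_num) (by norm_num) (by norm_num [Finset.sum_range_succ, Nat.factorial])
  · exact exp_neg_le_of (by norm_num) (by norm_num) (by norm_num [Finset.sum_range_succ, Nat.factorial])
  · exact exp_neg_le_of (by norm_num) (by norm_num) (by norm_num [Finset.sum_range_succ, Nat.factorial])

theorem bxA5 {β r θ R h : ℝ} (H : Std β r θ R h) (hR0 : 1.0 ≤ R) (hR1 : R ≤ 2.44) (hh0 : 0.625 ≤ h) (hh1 : h ≤ 0.66) :
    XL (KK β r θ) ≠ 0 ∧ ‖XL (K1 β r θ) / XL (KK β r θ) - (R + h * I)‖ ≤ 1 / 2 := by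
  refine H.box (c1 := 7 / 25) (c2 := 2 / 5) (by norm_num) (by norm_num) (fun d hd => gre_left1 hd H.h0 (by linarith) (by linarith)) (sqm := 1) (by norm_num)
    (by rw [one_pow, one_mul]; exact al_le_m R h)
    1.0 2.44 0.625 0.66 0.9299 1.0404 1.9349 0.17993 0.8061 0.1693 0.211 0.143 0.0622 hR0 hR1 hh0 hh1 (by norm_num) (by norm_num) (by norm_num) (by norm_num)
    (by norm_num) (by norm_num) (by norm_num) (by norm_num) (by norm_num) (by norm_num) (by norm_num) (by norm_num)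
    (by norm_num) ?_ (by norm_num) (by norm_num) (by norm_num) (by norm_num) (by norm_num) (by norm_num) (by norm_num)
    ?_ ?_ ?_ (by norm_num)
  · exact exp_le_of (by norm_num) (by norm_num) (by norm_num [Finset.sum_range_succ, Nat.factorial])
  · exact exp_neg_le_of (by norm_num) (by norm_num) (by norm_num [Finset.sum_range_succ, Nat.factorial])
  · exact exp_neg_le_of (by norm_num) (by norm_num) (by norm_num [Finset.sum_range_succ, Nat.factorial])
  · exact exp_neg_le_of (by norm_num) (by norm_num) (by norm_num [Finset.sum_range_succ, Nat.factorial])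

theorem bxA6 {β r θ R h : ℝ} (H : Std β r θ R h) (hR0 : 1.0 ≤ R) (hR1 : R ≤ 2.34) (hh0 : 0.66 ≤ h) (hh1 : h ≤ 0.71) :
    XL (KK β r θ) ≠ 0 ∧ ‖XL (K1 β r θ) / XL (KK β r θ) - (R + h * I)‖ ≤ 1 / 2 := by
  refine H.box (c1 := 7 / 25) (c2 := 2 / 5) (by norm_num) (by norm_num) (fun d hd => gre_left1 hd H.h0 (by linarith) (by linarith)) (sqm := 1) (by norm_num)
    (by rw [one_pow, one_mul]; exact al_le_m R h)
    1.0 2.34 0.66 0.71 0.9065 1.0343 2.0341 0.1844 0.8115 0.1714 0.2191 0.1499 0.0665 hR0 hR1 hh0 hh1 (by norm_num) (by norm_num) (by norm_num) (by norm_num)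
    (by norm_num) (by norm_num) (by norm_num) (by norm_num) (by norm_num) (by norm_num) (by norm_num) (by norm_num)
    (by norm_num) ?_ (by norm_num) (by norm_num) (by norm_num) (by norm_num) (by norm_num) (by norm_num) (by norm_num)
    ?_ ?_ ?_ (by norm_num)
  · exact exp_le_of (by norm_num) (by norm_num) (by norm_num [Finset.sum_range_succ, Nat.factorial])
  · exact exp_neg_le_of (by norm_num) (by norm_num) (by norm_num [Finset.sum_range_succ, Nat.factorial])
  · exact exp_neg_le_of (by norm_num) (by norm_num) (by norm_num [Finset.sum_range_succ, Nat.factorial])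
  · exact exp_neg_le_of (by norm_num) (by norm_num) (by norm_num [Finset.sum_range_succ, Nat.factorial])

theorem bxA7 {β r θ R h : ℝ} (H : Std β r θ R h) (hR0 : 1.0 ≤ R) (hR1 : R ≤ 2.21) (hh0 : 0.71 ≤ h) (hh1 : h ≤ 0.775) :
    XL (KK β r θ) ≠ 0 ∧ ‖XL (K1 β r θ) / XL (KK β r θ) - (R + h * I)‖ ≤ 1 / 2 := by
  refine H.box (c1 := 7 / 25) (c2 := 2 / 5) (by norm_num) (by norm_num) (fun d hd => gre_left1 hd H.h0 (by linarith) (by linarith)) (sqm := 1) (by norm_num)
    (by rw [one_pow, one_mul]; exact al_le_m R h)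
    1.0 2.21 0.71 0.775 0.8756 1.0267 2.1707 0.19007 0.8186 0.174 0.2293 0.1587 0.0721 hR0 hR1 hh0 hh1 (by norm_num) (by norm_num) (by norm_num) (by norm_num)
    (by norm_num) (by norm_num) (by norm_num) (by norm_num) (by norm_num) (by norm_num) (by norm_num) (by norm_num)
    (by norm_num) ?_ (by norm_num) (by norm_num) (by norm_num) (by norm_num) (by norm_num) (by norm_num) (by norm_num)
    ?_ ?_ ?_ (by norm_num)
  · exact exp_le_of (by norm_num) (by norm_num) (by norm_num [Finset.sum_range_succ, Nat.factorial])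
  · exact exp_neg_le_of (by norm_num) (by norm_num) (by norm_num [Finset.sum_range_succ, Nat.factorial])
  · exact exp_neg_le_of (by norm_num) (by norm_num) (by norm_num [Finset.sum_range_succ, Nat.factorial])
  · exact exp_neg_le_of (by norm_num) (by norm_num) (by norm_num [Finset.sum_range_succ, Nat.factorial])

theorem bxA8 {β r θ R h : ℝ} (H : Std β r θ R h) (hR0 : 1.0 ≤ R) (hR1 : R ≤ 2.03) (hh0 : 0.775 ≤ h) (hh1 : h ≤ 0.865) :
    XL (KK β r θ) ≠ 0 ∧ ‖XL (K1 β r θ) / XL (KK β r θ) - (R + h * I)‖ ≤ 1 / 2 := by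
  refine H.box (c1 := 7 / 25) (c2 := 2 / 5) (by norm_num) (by norm_num) (fun d hd => gre_left1 hd H.h0 (by linarith) (by linarith)) (sqm := 1) (by norm_num)
    (by rw [one_pow, one_mul]; exact al_le_m R h)
    1.0 2.03 0.775 0.865 0.8342 1.0175 2.3751 0.19814 0.8281 0.1776 0.2434 0.171 0.0802 hR0 hR1 hh0 hh1 (by norm_num) (by norm_num) (by norm_num) (by norm_num)
    (by norm_num) (by norm_num) (by norm_num) (by norm_num) (by norm_num) (by norm_num) (by norm_num) (by norm_num)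
    (by norm_num) ?_ (by norm_num) (by norm_num) (by norm_num) (by norm_num) (by norm_num) (by norm_num) (by norm_num)
    ?_ ?_ ?_ (by norm_num)
  · exact exp_le_of (by norm_num) (by norm_num) (by norm_num [Finset.sum_range_succ, Nat.factorial])
  · exact exp_neg_le_of (by norm_num) (by norm_num) (by norm_num [Finset.sum_range_succ, Nat.factorial])
  · exact exp_neg_le_of (by norm_num) (by norm_num) (by norm_num [Finset.sum_range_succ, Nat.factorial])
  · exact exp_neg_le_of (by norm_num) (by norm_num) (by norm_num [Finset.sum_range_succ, Nat.factorial])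

theorem bxA9 {β r θ R h : ℝ} (H : Std β r θ R h) (hR0 : 1.0 ≤ R) (hR1 : R ≤ 1.79) (hh0 : 0.865 ≤ h) (hh1 : h ≤ 0.98) :
    XL (KK β r θ) ≠ 0 ∧ ‖XL (K1 β r θ) / XL (KK β r θ) - (R + h * I)‖ ≤ 1 / 2 := by
  refine H.box (c1 := 7 / 25) (c2 := 2 / 5) (by norm_num) (by norm_num) (fun d hd => gre_left1 hd H.h0 (by linarith) (by linarith)) (sqm := 1) (by norm_num)
    (by rw [one_pow, one_mul]; exact al_le_m R h)
    1.0 1.79 0.865 0.98 0.7809 1.0077 2.6645 0.20808 0.8401 0.182 0.2604 0.1861 0.0905 hR0 hR1 hh0 hh1 (by norm_num) (by norm_num) (by norm_num) (by norm_num)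
    (by norm_num) (by norm_num) (by norm_num) (by norm_num) (by norm_num) (by norm_num) (by norm_num) (by norm_num)
    (by norm_num) ?_ (by norm_num) (by norm_num) (by norm_num) (by norm_num) (by norm_num) (by norm_num) (by norm_num)
    ?_ ?_ ?_ (by norm_num)
  · exact exp_le_of (by norm_num) (by norm_num) (by norm_num [Finset.sum_range_succ, Nat.factorial])
  · exact exp_neg_le_of (by norm_num) (by norm_num) (by norm_num [Finset.sum_range_succ, Nat.factorial])
  · exact exp_neg_le_of (by norm_num) (by norm_num) (by norm_num [Finset.sum_range_succ, Nat.factorial])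
  · exact exp_neg_le_of (by norm_num) (by norm_num) (by norm_num [Finset.sum_range_succ, Nat.factorial])

theorem bxA10 {β r θ R h : ℝ} (H : Std β r θ R h) (hR0 : 1.0 ≤ R) (hR1 : R ≤ 1.47) (hh0 : 0.98 ≤ h) (hh1 : h ≤ 1.12) :
    XL (KK β r θ) ≠ 0 ∧ ‖XL (K1 β r θ) / XL (KK β r θ) - (R + h * I)‖ ≤ 1 / 2 := by
  refine H.box (c1 := 7 / 25) (c2 := 2 / 5) (by norm_num) (by norm_num) (fun d hd => gre_left1 hd H.h0 (by linarith) (by linarith)) (sqm := 1) (by norm_num)
    (by rw [one_pow, one_mul]; exact al_le_m R h)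
    1.0 1.47 0.98 1.12 0.7173 1.0057 3.0649 0.21985 0.8543 0.1871 0.2799 0.2036 0.1029 hR0 hR1 hh0 hh1 (by norm_num) (by norm_num) (by norm_num) (by norm_num)
    (by norm_num) (by norm_num) (by norm_num) (by norm_num) (by norm_num) (by norm_num) (by norm_num) (by norm_num)
    (by norm_num) ?_ (by norm_num) (by norm_num) (by norm_num) (by norm_num) (by norm_num) (by norm_num) (by norm_num)
    ?_ ?_ ?_ (by norm_num)
  · exact exp_le_of (by norm_num) (by norm_num) (by norm_num [Finset.sum_range_succ, Nat.factorial])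
  · exact exp_neg_le_of (by norm_num) (by norm_num) (by norm_num [Finset.sum_range_succ, Nat.factorial])
  · exact exp_neg_le_of (by norm_num) (by norm_num) (by norm_num [Finset.sum_range_succ, Nat.factorial])
  · exact exp_neg_le_of (by norm_num) (by norm_num) (by norm_num [Finset.sum_range_succ, Nat.factorial])

theorem bxA11 {β r θ R h : ℝ} (H : Std β r θ R h) (hR0 : 1.0 ≤ R) (hR1 : R ≤ 1.05) (hh0 : 1.12 ≤ h) (hh1 : h ≤ 1.195) :
    XL (KK β r θ) ≠ 0 ∧ ‖XL (K1 β r θ) / XL (KK β r θ) - (R + h * I)‖ ≤ 1 / 2 := by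
  refine H.box (c1 := 7 / 25) (c2 := 2 / 5) (by norm_num) (by norm_num) (fun d hd => gre_left1 hd H.h0 (by linarith) (by linarith)) (sqm := 1) (by norm_num)
    (by rw [one_pow, one_mul]; exact al_le_m R h)
    1.0 1.05 1.12 1.195 0.6607 1.0068 3.3036 0.21827 0.8667 0.1864 0.2773 0.2012 0.1013 hR0 hR1 hh0 hh1 (by norm_num) (by norm_num) (by norm_num) (by norm_num)
    (by norm_num) (by norm_num) (by norm_num) (by norm_num) (by norm_num) (by norm_num) (by norm_num) (by norm_num)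
    (by norm_num) ?_ (by norm_num) (by norm_num) (by norm_num) (by norm_num) (by norm_num) (by norm_num) (by norm_num)
    ?_ ?_ ?_ (by norm_num)
  · exact exp_le_of (by norm_num) (by norm_num) (by norm_num [Finset.sum_range_succ, Nat.factorial])
  · exact exp_neg_le_of (by norm_num) (by norm_num) (by norm_num [Finset.sum_range_succ, Nat.factorial])
  · exact exp_neg_le_of (by norm_num) (by norm_num) (by norm_num [Finset.sum_range_succ, Nat.factorial])
  · exact exp_neg_le_of (by norm_num) (by norm_num) (by norm_num [Finset.sum_range_succ, Nat.factorial])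

theorem bxB0 {β r θ R h : ℝ} (H : Std β r θ R h) (hR0 : 0 ≤ R) (hR1 : R ≤ 1) (hh0 : 0 ≤ h) (hh1 : h ≤ 1.24) :
    XL (KK β r θ) ≠ 0 ∧ ‖XL (K1 β r θ) / XL (KK β r θ) - (R + h * I)‖ ≤ 1 / 2 := by
  refine H.box (c1 := 9 / 25) (c2 := 13 / 20) (by norm_num) (by norm_num) (fun d hd => gre_left2 hd H.h0 (by linarith)) (sqm := 1) (by norm_num)
    (by rw [one_pow, one_mul]; exact al_le_m R h)
    0 1 0 1.24 0.7208 1.0974 3.4557 0.24909 0.8535 0.1992 0.2357 0.2454 0.1344 hR0 hR1 hh0 hh1 (by norm_num) (by norm_num) (by norm_num) (by norm_num)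
    (by norm_num) (by norm_num) (by norm_num) (by norm_num) (by norm_num) (by norm_num) (by norm_num) (by norm_num)
    (by norm_num) ?_ (by norm_num) (by norm_num) (by norm_num) (by norm_num) (by norm_num) (by norm_num) (by norm_num)
    ?_ ?_ ?_ (by norm_num)
  · exact exp_le_of (by norm_num) (by norm_num) (by norm_num [Finset.sum_range_succ, Nat.factorial])
  · exact exp_neg_le_of (by norm_num) (by norm_num) (by norm_num [Finset.sum_range_succ, Nat.factorial])
  · exact exp_neg_le_of (by norm_num) (by norm_num) (by norm_num [Finset.sum_range_succ, Nat.factorial])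
  · exact exp_neg_le_of (by norm_num) (by norm_num) (by norm_num [Finset.sum_range_succ, Nat.factorial])

theorem bxB1 {β r θ R h : ℝ} (H : Std β r θ R h) (hR0 : 0 ≤ R) (hR1 : R ≤ 0.57) (hh0 : 1.24 ≤ h) (hh1 : h ≤ 1.2925) :
    XL (KK β r θ) ≠ 0 ∧ ‖XL (K1 β r θ) / XL (KK β r θ) - (R + h * I)‖ ≤ 1 / 2 := by
  refine H.box (c1 := 9 / 25) (c2 := 13 / 20) (by norm_num) (by norm_num) (fun d hd => gre_left2 hd H.h0 (by linarith)) (sqm := 1) (by norm_num)
    (by rw [one_pow, one_mul]; exact al_le_m R h)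
    0 0.57 1.24 1.2925 0.679 1.0974 3.6419 0.24729 0.8627 0.1984 0.2333 0.2429 0.1325 hR0 hR1 hh0 hh1 (by norm_num) (by norm_num) (by norm_num) (by norm_num)
    (by norm_num) (by norm_num) (by norm_num) (by norm_num) (by norm_num) (by norm_num) (by norm_num) (by norm_num)
    (by norm_num) ?_ (by norm_num) (by norm_num) (by norm_num) (by norm_num) (by norm_num) (by norm_num) (by norm_num)
    ?_ ?_ ?_ (by norm_num)
  · exact exp_le_of (by norm_num) (by norm_num) (by norm_num [Finset.sum_range_succ, Nat.factorial])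
  · exact exp_neg_le_of (by norm_num) (by norm_num) (by norm_num [Finset.sum_range_succ, Nat.factorial])
  · exact exp_neg_le_of (by norm_num) (by norm_num) (by norm_num [Finset.sum_range_succ, Nat.factorial])
  · exact exp_neg_le_of (by norm_num) (by norm_num) (by norm_num [Finset.sum_range_succ, Nat.factorial])

theorem bxB2 {β r θ R h : ℝ} (H : Std β r θ R h) (hR0 : (-0.14) ≤ R) (hR1 : R ≤ 0) (hh0 : 0 ≤ h) (hh1 : h ≤ 1.2) :
    XL (KK β r θ) ≠ 0 ∧ ‖XL (K1 β r θ) / XL (KK β r θ) - (R + h * I)‖ ≤ 1 / 2 := by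
  refine H.box (c1 := 9 / 25) (c2 := 13 / 20) (by norm_num) (by norm_num) (fun d hd => gre_left2 hd H.h0 (by linarith)) (sqm := 1.095) (by norm_num)
    (al_le_m' H.h0 (by linarith))
    (-0.14) 0 0 1.2 0.6908 1.1585 3.3202 0.22936 0.8601 0.1911 0.2082 0.2175 0.1131 hR0 hR1 hh0 hh1 (by norm_num) (by norm_num) (by norm_num) (by norm_num)
    (by norm_num) (by norm_num) (by norm_num) (by norm_num) (by norm_num) (by norm_num) (by norm_num) (by norm_num)
    (by norm_num) ?_ (by norm_num) (by norm_num) (by norm_num) (by norm_num) (by norm_num) (by norm_num) (by norm_num)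
    ?_ ?_ ?_ (by norm_num)
  · exact exp_le_of (by norm_num) (by norm_num) (by norm_num [Finset.sum_range_succ, Nat.factorial])
  · exact exp_neg_le_of (by norm_num) (by norm_num) (by norm_num [Finset.sum_range_succ, Nat.factorial])
  · exact exp_neg_le_of (by norm_num) (by norm_num) (by norm_num [Finset.sum_range_succ, Nat.factorial])
  · exact exp_neg_le_of (by norm_num) (by norm_num) (by norm_num [Finset.sum_range_succ, Nat.factorial])

theorem bxB3 {β r θ R h : ℝ} (H : Std β r θ R h) (hR0 : (-0.14) ≤ R) (hR1 : R ≤ 0) (hh0 : 1.2 ≤ h) (hh1 : h ≤ 1.2925) :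
    XL (KK β r θ) ≠ 0 ∧ ‖XL (K1 β r θ) / XL (KK β r θ) - (R + h * I)‖ ≤ 1 / 2 := by
  refine H.box (c1 := 9 / 25) (c2 := 13 / 20) (by norm_num) (by norm_num) (fun d hd => gre_left2 hd H.h0 (by linarith)) (sqm := 1.095) (by norm_num)
    (al_le_m' H.h0 (by linarith))
    (-0.14) 0 1.2 1.2925 0.7121 1.1227 3.6419 0.25934 0.8554 0.2032 0.2496 0.2594 0.1455 hR0 hR1 hh0 hh1 (by norm_num) (by norm_num) (by norm_num) (by norm_num)
    (by norm_num) (by norm_num) (by norm_num) (by norm_num) (by norm_num) (by norm_num) (by norm_num) (by norm_num)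
    (by norm_num) ?_ (by norm_num) (by norm_num) (by norm_num) (by norm_num) (by norm_num) (by norm_num) (by norm_num)
    ?_ ?_ ?_ (by norm_num)
  · exact exp_le_of (by norm_num) (by norm_num) (by norm_num [Finset.sum_range_succ, Nat.factorial])
  · exact exp_neg_le_of (by norm_num) (by norm_num) (by norm_num [Finset.sum_range_succ, Nat.factorial])
  · exact exp_neg_le_of (by norm_num) (by norm_num) (by norm_num [Finset.sum_range_succ, Nat.factorial])
  · exact exp_neg_le_of (by norm_num) (by norm_num) (by norm_num [Finset.sum_range_succ, Nat.factorial])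

theorem bxB4 {β r θ R h : ℝ} (H : Std β r θ R h) (hR0 : (-0.6) ≤ R) (hR1 : R ≤ (-0.14)) (hh0 : 0.55 ≤ h) (hh1 : h ≤ 0.88) :
    XL (KK β r θ) ≠ 0 ∧ ‖XL (K1 β r θ) / XL (KK β r θ) - (R + h * I)‖ ≤ 1 / 2 := by
  refine H.box (c1 := 9 / 25) (c2 := 13 / 20) (by norm_num) (by norm_num) (fun d hd => gre_left2 hd H.h0 (by linarith)) (sqm := 1.095) (by norm_num)
    (al_le_m' H.h0 (by linarith))
    (-0.6) (-0.14) 0.55 0.88 0.8681 1.3207 2.411 0.2093 0.8204 0.1826 0.1791 0.1879 0.0918 hR0 hR1 hh0 hh1 (by norm_num) (by norm_num) (by norm_num) (by norm_num)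
    (by norm_num) (by norm_num) (by norm_num) (by norm_num) (by norm_num) (by norm_num) (by norm_num) (by norm_num)
    (by norm_num) ?_ (by norm_num) (by norm_num) (by norm_num) (by norm_num) (by norm_num) (by norm_num) (by norm_num)
    ?_ ?_ ?_ (by norm_num)
  · exact exp_le_of (by norm_num) (by norm_num) (by norm_num [Finset.sum_range_succ, Nat.factorial])
  · exact exp_neg_le_of (by norm_num) (by norm_num) (by norm_num [Finset.sum_range_succ, Nat.factorial])
  · exact exp_neg_le_of (by norm_num) (by norm_num) (by norm_num [Finset.sum_range_succ, Nat.factorial])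
  · exact exp_neg_le_of (by norm_num) (by norm_num) (by norm_num [Finset.sum_range_succ, Nat.factorial])

/-- `R ≥ 1` -/
theorem XG_A {β r θ R h : ℝ} (H : Std β r θ R h) (hκ : β * r ≤ 47 / 10) (hR : 1 ≤ R) (hR2 : R ≤ 5 / 2) :
    XL (KK β r θ) ≠ 0 ∧ ‖XL (K1 β r θ) / XL (KK β r θ) - (R + h * I)‖ ≤ 1 / 2 := by
  have hR0 : 1.0 ≤ R := by norm_num; exact hR
  rcases le_total h 0.21 with a0 | a0
  · exact bxA0 H hR0 (by norm_num; linarith) (by have := H.h0; norm_num; linarith) a0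
  rcases le_total h 0.4 with a1 | a1
  · exact bxA1 H hR0 (by norm_num; linarith) a0 a1
  rcases le_total h 0.525 with a2 | a2
  · exact bxA2 H hR0 (by norm_num; linarith) a1 a2
  rcases le_total h 0.595 with a3 | a3
  · exact bxA3 H hR0 (by norm_num; linarith) a2 a3
  rcases le_total h 0.625 with a4 | a4
  · exact bxA4 H hR0 (by norm_num; linarith) a3 a4
  rcases le_total h 0.66 with a5 | a5
  · exact bxA5 H hR0 (H.R_le hκ (h0 := 0.625) (E0 := 0.28651) (by norm_num) a4 (by norm_num)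
        (exp_neg_le_of (by norm_num) (by norm_num) (by norm_num [Finset.sum_range_succ, Nat.factorial])) (by norm_num)) a4 a5
  rcases le_total h 0.71 with a6 | a6
  · exact bxA6 H hR0 (H.R_le hκ (h0 := 0.66) (E0 := 0.26714) (by norm_num) a5 (by norm_num)
        (exp_neg_le_of (by norm_num) (by norm_num) (by norm_num [Finset.sum_range_succ, Nat.factorial])) (by norm_num)) a5 a6
  rcases le_total h 0.775 with a7 | a7
  · exact bxA7 H hR0 (H.R_le hκ (h0 := 0.71) (E0 := 0.24172) (by norm_num) a6 (by norm_num)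
        (exp_neg_le_of (by norm_num) (by norm_num) (by norm_num [Finset.sum_range_succ, Nat.factorial])) (by norm_num)) a6 a7
  rcases le_total h 0.865 with a8 | a8
  · exact bxA8 H hR0 (H.R_le hκ (h0 := 0.775) (E0 := 0.21225) (by norm_num) a7 (by norm_num)
        (exp_neg_le_of (by norm_num) (by norm_num) (by norm_num [Finset.sum_range_succ, Nat.factorial])) (by norm_num)) a7 a8
  rcases le_total h 0.98 with a9 | a9
  · exact bxA9 H hR0 (H.R_le hκ (h0 := 0.865) (E0 := 0.17729) (by norm_num) a8 (by norm_num)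
        (exp_neg_le_of (by norm_num) (by norm_num) (by norm_num [Finset.sum_range_succ, Nat.factorial])) (by norm_num)) a8 a9
  rcases le_total h 1.12 with a10 | a10
  · exact bxA10 H hR0 (H.R_le hκ (h0 := 0.98) (E0 := 0.14086) (by norm_num) a9 (by norm_num)
        (exp_neg_le_of (by norm_num) (by norm_num) (by norm_num [Finset.sum_range_succ, Nat.factorial])) (by norm_num)) a9 a10
  rcases le_total h 1.195 with a11 | a11
  · exact bxA11 H hR0 (H.R_le hκ (h0 := 1.12) (E0 := 0.10646) (by norm_num) a10 (by norm_num)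
        (exp_neg_le_of (by norm_num) (by norm_num) (by norm_num [Finset.sum_range_succ, Nat.factorial])) (by norm_num)) a10 a11
  · exfalso
    have h1 := H.R_le hκ (h0 := 1.195) (R1 := 0.78) (E0 := 0.09164) (by norm_num) a11 (by norm_num)
      (exp_neg_le_of (by norm_num) (by norm_num) (by norm_num [Finset.sum_range_succ, Nat.factorial])) (by norm_num)
    norm_num at h1
    linarith

/-- **row XG**: `XL` by the saddle point method, `R ≤ 5/2` -/
theorem XG {β r θ R h : ℝ} (hβ : 0 < β) (hr : 10 ≤ r) (hs : Sad β r θ (R + h * I)) (_hκ1 : 13 / 10 ≤ β * r)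
    (hκ2 : β * r ≤ 47 / 10) (h0 : 0 ≤ h) (_h1 : h ≤ 13 / 10) (hφ0 : 0 ≤ θ + R) (hφ1 : θ + R ≤ Real.pi) (hR : R ≤ 5 / 2)
    (hcase : (θ ≤ 17 / 10 ∧ -14 / 100 ≤ R) ∨
      (θ ≤ 27 / 10 ∧ β * r ≤ 205 / 100 ∧ -6 / 10 ≤ R ∧ 55 / 100 ≤ h ∧ h ≤ 88 / 100)) :
    XL (KK β r θ) ≠ 0 ∧ ‖XL (K1 β r θ) / XL (KK β r θ) - (R + h * I)‖ ≤ 1 / 2 := by
  have hpi := Real.pi_gt_d6
  have hβ1 : β ≤ β * r / 10 := by nlinarith
  have H : Std β r θ R h := by
    refine ⟨hβ, hr, hs, h0, ?_, hφ0, hφ1, ?_, ?_⟩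
    · rcases hcase with ⟨_, h2⟩ | ⟨_, _, h4, h5, _⟩
      · exact Or.inl h2
      · exact Or.inr ⟨by linarith, by linarith⟩
    · rcases hcase with ⟨_, h2⟩ | ⟨_, h3, h4, h5, _⟩
      · linarith
      · linarith
    · rcases hcase with ⟨h2, _⟩ | ⟨h2, h3, h4, h5, _⟩
      · linarith
      · linarith
  rcases le_total 1 R with hR1 | hR1
  · exact XG_A H hκ2 hR1 hR
  rcases le_total 0 R with hR0 | hR0
  · rcases le_total h 1.24 with h2 | h2
    · exact bxB0 H (by norm_num; exact hR0) (by norm_num; exact hR1) (by norm_num; exact h0) h2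
    · exact bxB1 H (by norm_num; exact hR0)
        (H.R_le hκ2 (h0 := 1.24) (E0 := 0.08375) (by norm_num) h2 (by norm_num)
          (exp_neg_le_of (by norm_num) (by norm_num) (by norm_num [Finset.sum_range_succ, Nat.factorial])) (by norm_num))
        h2 (H.h_le hκ2)
  rcases le_total (-14 / 100) R with hR2 | hR2
  · rcases le_total h 1.2 with h2 | h2
    · exact bxB2 H (by norm_num; linarith) (by norm_num; exact hR0) (by norm_num; exact h0) h2
    · exact bxB3 H (by norm_num; linarith) (by norm_num; exact hR0) h2 (H.h_le hκ2)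
  · rcases hcase with ⟨_, h2⟩ | ⟨_, _, h4, h5, h6⟩
    · have hRe : R = -14 / 100 := le_antisymm hR2 h2
      rcases le_total h 1.2 with h3 | h3
      · exact bxB2 H (by norm_num; linarith) (by norm_num; exact hR0) (by norm_num; exact h0) h3
      · exact bxB3 H (by norm_num; linarith) (by norm_num; exact hR0) h3 (H.h_le hκ2)
    · exact bxB4 H (by norm_num; linarith) (by norm_num; linarith) (by norm_num; linarith) (by norm_num; linarith)

end Sok.W
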