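import Pool.Agent.Lib.MP_816dec_an.LAsm
import Pool.Agent.Lib.MP_816dec_an.LXbox

/-!
MP_816dec_an, b = 1, `1.3 ≤ κ ≤ 4.7`, `r ≥ 10` (row A1-L): final theorem.
-/

set_option autoImplicit false

open Complex Set Filter Topology MeasureTheory

namespace Sok

open W

theorem circ_LK {β r : ℝ} (hβ : 0 < β) (hr : 10 ≤ r) (hκ : 13 / 10 ≤ β * r) (hκ' : β * r ≤ 47 / 10) : Circ β r := by
  refine circ_L_of hβ hr hκ hκ' ?_
  intro θ R h hs h0 h1 h2 h3 h4 h5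
  refine W.XG hβ hr hs hκ hκ' h0 h1 h2 h3 h4 ?_
  rcases h5 with ⟨h6, h7⟩ | ⟨h6, h7, h8, h9, h10⟩
  · exact Or.inl ⟨h6, by linarith⟩
  · exact Or.inr ⟨h6, h7, by linarith, h9, h10⟩

end Sok
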