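import Pool.Agent.Lib.MP_816dec_an.SadKK

/-!
MP_816dec_an, b = 1, `1.3 ≤ κ ≤ 4.7`: the real inequalities for the exponent `gre R h X Y` along the direction
`(15 - 8i)/17` and down a vertical line.
-/

set_option autoImplicit false

open Complex Set Filter Topology MeasureTheory

namespace Sok.W

/-- second derivative of the phase in the direction `(15 - 8i)/17` -/
noncomputable def al (R h : ℝ) : ℝ := (161 * R + 240 * (1 + h)) / 289

/-- Taylor bounds of sine and cosine -/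
theorem cs_bound {x : ℝ} (hx : 0 ≤ x) :
    |Real.cos x - (1 - x ^ 2 / 2 + x ^ 4 / 24 - x ^ 6 / 720)| ≤ x ^ 8 / 40320 ∧
      |Real.sin x - (x - x ^ 3 / 6 + x ^ 5 / 120 - x ^ 7 / 5040)| ≤ x ^ 8 / 40320 := by
  have h := norm_exp_sub_sum_le ((x : ℂ) * I) 8 (M := 1) le_rfl (by simp) 1 (right_mem_Icc.2 zero_le_one)
  have I2 : I ^ 2 = (-1 : ℂ) := Complex.I_sq
  have I3 : I ^ 3 = -I := by rw [pow_succ, I2]; ring
  have I4 : I ^ 4 = (1 : ℂ) := by rw [show (4 : ℕ) = 2 * 2 by norm_num, pow_mul, I2]; norm_num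
  have I5 : I ^ 5 = I := by rw [pow_succ, I4]; ring
  have I6 : I ^ 6 = (-1 : ℂ) := by rw [show (6 : ℕ) = 2 * 3 by norm_num, pow_mul, I2]; norm_num
  have I7 : I ^ 7 = -I := by rw [pow_succ, I6]; ring
  have hn : ‖(x : ℂ) * I‖ = x := by
    rw [norm_mul, Complex.norm_I, mul_one, Complex.norm_real, Real.norm_of_nonneg hx]
  rw [hn] at h
  simp only [Complex.ofReal_one, one_mul, Finset.sum_range_succ, Finset.sum_range_zero, Nat.factorial, zero_add] at h
  have e : cexp ((x : ℂ) * I) - (((x : ℂ) * I) ^ 0 / ((1 : ℕ) : ℂ) + ((x : ℂ) * I) ^ 1 / (((1 : ℕ) * 1 : ℕ) : ℂ) + ((x : ℂ) * I) ^ 2 / 2 +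
      ((x : ℂ) * I) ^ 3 / 6 + ((x : ℂ) * I) ^ 4 / 24 + ((x : ℂ) * I) ^ 5 / 120 + ((x : ℂ) * I) ^ 6 / 720 +
      ((x : ℂ) * I) ^ 7 / 5040) =
      ((Real.cos x - (1 - x ^ 2 / 2 + x ^ 4 / 24 - x ^ 6 / 720) : ℝ) : ℂ) +
        ((Real.sin x - (x - x ^ 3 / 6 + x ^ 5 / 120 - x ^ 7 / 5040) : ℝ) : ℂ) * I := by
    rw [Complex.exp_mul_I, ← Complex.ofReal_cos, ← Complex.ofReal_sin]
    simp only [mul_pow, I2, I3, I4, I5, I6, I7]
    push_cast
    ring
  have h2 : ‖((Real.cos x - (1 - x ^ 2 / 2 + x ^ 4 / 24 - x ^ 6 / 720) : ℝ) : ℂ) +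
        ((Real.sin x - (x - x ^ 3 / 6 + x ^ 5 / 120 - x ^ 7 / 5040) : ℝ) : ℂ) * I‖ ≤ x ^ 8 / 40320 := by
    rw [← e]
    refine le_trans (le_of_eq ?_) (h.trans (le_of_eq ?_))
    · congr 1
    · push_cast
      ring
  constructor
  · have h3 := (Complex.abs_re_le_norm _).trans h2
    rw [Complex.add_re, Complex.re_ofReal_mul, Complex.I_re, mul_zero, add_zero, Complex.ofReal_re] at h3
    exact h3
  · have h3 := (Complex.abs_im_le_norm _).trans h2
    rw [Complex.add_im, Complex.im_ofReal_mul, Complex.I_im, mul_one, Complex.ofReal_im, zero_add] at h3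
    exact h3

theorem cos_a : 0.6353 < Real.cos (15 / 17) ∧ Real.cos (15 / 17) < 0.6354 := by
  have h := abs_le.1 (cs_bound (x := 15 / 17) (by norm_num)).1
  norm_num at h
  constructor
  · have := h.1; norm_num; linarith
  · have := h.2; norm_num; linarith

theorem sin_a : 0.7722 < Real.sin (15 / 17) ∧ Real.sin (15 / 17) < 0.7723 := by
  have h := abs_le.1 (cs_bound (x := 15 / 17) (by norm_num)).2
  norm_num at h
  constructor
  · have := h.1; norm_num; linarith
  · have := h.2; norm_num; linarith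

theorem exp_p : 1.6009 < Real.exp (8 / 17) ∧ Real.exp (8 / 17) < 1.601 := by
  constructor
  · refine lt_of_lt_of_le ?_ (Real.sum_le_exp_of_nonneg (x := 8 / 17) (by norm_num) 8)
    norm_num [Finset.sum_range_succ, Nat.factorial]
  · refine lt_of_le_of_lt (Real.exp_bound' (x := 8 / 17) (by norm_num) (by norm_num) (n := 8) (by norm_num)) ?_
    norm_num [Finset.sum_range_succ, Nat.factorial]

theorem exp_m : 0.6246 < Real.exp (-(8 / 17)) ∧ Real.exp (-(8 / 17)) < 0.6247 := by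
  obtain ⟨h1, h2⟩ := exp_p
  rw [Real.exp_neg]
  constructor
  · rw [lt_inv_comm₀ (by norm_num) (Real.exp_pos _)]
    refine h2.trans ?_
    norm_num
  · rw [inv_lt_comm₀ (Real.exp_pos _) (by norm_num)]
    refine lt_trans ?_ h1
    norm_num

/-- the tangent of the cosine -/
theorem cos_le_tangent {a x : ℝ} (h0 : -(Real.pi / 2) ≤ a) (h1 : a ≤ x) (h2 : x ≤ Real.pi / 2) :
    Real.cos x ≤ Real.cos a - Real.sin a * (x - a) := by
  rcases eq_or_lt_of_le h1 with h | h
  · rw [h]; simp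
  obtain ⟨ξ, hξ, he⟩ := exists_hasDerivAt_eq_slope Real.cos (fun t => -Real.sin t) h Real.continuous_cos.continuousOn
    (fun t _ => Real.hasDerivAt_cos t)
  have h3 : Real.sin a ≤ Real.sin ξ :=
    Real.strictMonoOn_sin.monotoneOn ⟨h0, h1.trans h2⟩ ⟨h0.trans hξ.1.le, hξ.2.le.trans h2⟩ hξ.1.le
  have h4 : 0 < x - a := by linarith
  rw [eq_div_iff h4.ne'] at he
  nlinarith

/-! ### the left side -/

theorem gre_neg (R h X Y : ℝ) : gre R h (-X) Y =
    -(X * Y) + Real.exp (-Y) * (R * Real.cos X + h * Real.sin X) - R + R * Y - h * X := by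
  unfold gre
  rw [Real.cos_neg, Real.sin_neg]
  ring

/-- `E sin X ≤ .4825 + .1235 d` -/
theorem left_sin {d : ℝ} (hd : 0 ≤ d) :
    Real.exp (-(8 * (1 + d) / 17)) * Real.sin (15 * (1 + d) / 17) ≤ 0.4825 + 0.1235 * d := by
  have h1 : Real.sin (15 * (1 + d) / 17) ≤ 0.7723 + 0.5607 * d := by
    have e : 15 * (1 + d) / 17 = 15 / 17 + 15 * d / 17 := by ring
    rw [e, Real.sin_add]
    have hs := Real.sin_le (x := 15 * d / 17) (by positivity)
    have hc := Real.cos_le_one (15 * d / 17)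
    have h2 := sin_a
    have h3 := cos_a
    have h4 : Real.sin (15 / 17) * Real.cos (15 * d / 17) ≤ Real.sin (15 / 17) * 1 :=
      mul_le_mul_of_nonneg_left hc (by linarith)
    have h5 : Real.cos (15 / 17) * Real.sin (15 * d / 17) ≤ Real.cos (15 / 17) * (15 * d / 17) :=
      mul_le_mul_of_nonneg_left hs (by linarith)
    have h6 : Real.cos (15 / 17) * (15 * d / 17) ≤ 0.6354 * (15 * d / 17) :=
      mul_le_mul_of_nonneg_right h3.2.le (by positivity)
    linarith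
  have h2 : Real.exp (-(8 * (1 + d) / 17)) ≤ 0.6247 / (1 + 8 * d / 17) := by
    have e : -(8 * (1 + d) / 17) = -(8 / 17) + -(8 * d / 17) := by ring
    rw [e, Real.exp_add]
    have h3 : Real.exp (-(8 * d / 17)) ≤ 1 / (1 + 8 * d / 17) := by
      rw [Real.exp_neg, ← one_div]
      have := Real.add_one_le_exp (8 * d / 17)
      exact one_div_le_one_div_of_le (by positivity) (by linarith)
    calc Real.exp (-(8 / 17)) * Real.exp (-(8 * d / 17)) ≤ 0.6247 * (1 / (1 + 8 * d / 17)) :=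
          mul_le_mul exp_m.2.le h3 (Real.exp_pos _).le (by norm_num)
      _ = _ := by ring
  have h3 : 0 ≤ 0.7723 + 0.5607 * d := by positivity
  calc Real.exp (-(8 * (1 + d) / 17)) * Real.sin (15 * (1 + d) / 17)
      ≤ Real.exp (-(8 * (1 + d) / 17)) * (0.7723 + 0.5607 * d) := mul_le_mul_of_nonneg_left h1 (Real.exp_pos _).le
    _ ≤ 0.6247 / (1 + 8 * d / 17) * (0.7723 + 0.5607 * d) := mul_le_mul_of_nonneg_right h2 h3
    _ ≤ 0.4825 + 0.1235 * d := by
      rw [div_mul_eq_mul_div, div_le_iff₀ (by positivity)]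
      nlinarith

/-- lower bounds of `1 - Y - E cos X` -/
theorem left_cos {d : ℝ} (hd : 0 ≤ d) :
    (15 * (1 + d) / 17 ≤ Real.pi / 2 ∧
      Real.exp (-(8 * (1 + d) / 17)) * Real.cos (15 * (1 + d) / 17) ≤ 0.39695 - 0.4255 * d) ∨
    (Real.pi / 2 ≤ 15 * (1 + d) / 17 ∧
      Real.exp (-(8 * (1 + d) / 17)) * Real.cos (15 * (1 + d) / 17) ≤ 0) ∨
    (4.3 ≤ d ∧ Real.exp (-(8 * (1 + d) / 17)) * Real.cos (15 * (1 + d) / 17) ≤ 0.16) := by
  have hE := Real.exp_pos (-(8 * (1 + d) / 17))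
  have hpi := Real.pi_gt_d6
  rcases le_total (15 * (1 + d) / 17) (Real.pi / 2) with h | h
  · left
    refine ⟨h, ?_⟩
    have h1 := cos_le_tangent (a := 15 / 17) (x := 15 * (1 + d) / 17) (by linarith) (by linarith) h
    have h2 : Real.exp (-(8 * (1 + d) / 17)) ≤ 0.6247 := by
      refine le_trans (Real.exp_le_exp.2 ?_) exp_m.2.le
      linarith
    have h3 : Real.cos (15 * (1 + d) / 17) ≤ 0.6354 - 0.6813 * d := by
      have h4 : 0.7722 * (15 * (1 + d) / 17 - 15 / 17) ≤ Real.sin (15 / 17) * (15 * (1 + d) / 17 - 15 / 17) :=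
        mul_le_mul_of_nonneg_right sin_a.1.le (by linarith)
      have := cos_a
      linarith
    have h4 : 0 ≤ Real.cos (15 * (1 + d) / 17) :=
      Real.cos_nonneg_of_neg_pi_div_two_le_of_le (by linarith) h
    calc Real.exp (-(8 * (1 + d) / 17)) * Real.cos (15 * (1 + d) / 17)
        ≤ 0.6247 * Real.cos (15 * (1 + d) / 17) := mul_le_mul_of_nonneg_right h2 h4
      _ ≤ 0.6247 * (0.6354 - 0.6813 * d) := mul_le_mul_of_nonneg_left h3 (by norm_num)
      _ ≤ _ := by nlinarith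
  · right
    rcases le_total (15 * (1 + d) / 17) (3 * Real.pi / 2) with h' | h'
    · left
      exact ⟨h, mul_nonpos_of_nonneg_of_nonpos hE.le (Real.cos_nonpos_of_pi_div_two_le_of_le h (by linarith))⟩
    · right
      refine ⟨by linarith, ?_⟩
      have h1 : Real.exp (-(8 * (1 + d) / 17)) ≤ 0.16 := by
        rw [Real.exp_neg, inv_le_comm₀ (Real.exp_pos _) (by norm_num)]
        have h2 := Real.quadratic_le_exp_of_nonneg (x := 8 * (1 + d) / 17) (by positivity)
        refine le_trans ?_ h2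
        nlinarith
      calc Real.exp (-(8 * (1 + d) / 17)) * Real.cos (15 * (1 + d) / 17)
          ≤ Real.exp (-(8 * (1 + d) / 17)) * 1 := mul_le_mul_of_nonneg_left (Real.cos_le_one _) hE.le
        _ ≤ _ := by linarith

/-- left ray, `1 ≤ R ≤ 5/2` -/
theorem gre_left1 {R h d : ℝ} (hd : 0 ≤ d) (h0 : 0 ≤ h) (hR : 0 ≤ R) (hR' : R ≤ 5 / 2) :
    gre R h (-(15 * (1 + d) / 17)) (8 * (1 + d) / 17) ≤ -(al R h * (7 / 25 + 2 / 5 * d)) := by
  rw [gre_neg]
  have hs := left_sin hd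
  have hc := left_cos hd
  obtain ⟨S, hS⟩ : ∃ S, S = Real.exp (-(8 * (1 + d) / 17)) * Real.sin (15 * (1 + d) / 17) := ⟨_, rfl⟩
  obtain ⟨C, hC⟩ : ∃ C, C = Real.exp (-(8 * (1 + d) / 17)) * Real.cos (15 * (1 + d) / 17) := ⟨_, rfl⟩
  have e : Real.exp (-(8 * (1 + d) / 17)) * (R * Real.cos (15 * (1 + d) / 17) + h * Real.sin (15 * (1 + d) / 17)) =
      R * C + h * S := by rw [hS, hC]; ring
  rw [e]
  rw [← hS] at hs
  rw [← hC] at hc
  have k1 : h * S ≤ h * (0.4825 + 0.1235 * d) := mul_le_mul_of_nonneg_left hs h0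
  have k2 : 0 ≤ h * d := mul_nonneg h0 hd
  unfold al
  -- the quadratic part
  have hP : 0 ≤ 120 / 289 * (1 + d) ^ 2 - 240 / 289 * (7 / 25 + 2 / 5 * d) := by nlinarith
  obtain ⟨Q, hQ⟩ : ∃ Q, Q = 1 - 8 * (1 + d) / 17 - C - 161 / 289 * (7 / 25 + 2 / 5 * d) := ⟨_, rfl⟩
  have hPQ : 0 ≤ 120 / 289 * (1 + d) ^ 2 - 240 / 289 * (7 / 25 + 2 / 5 * d) + 5 / 2 * Q := by
    rw [hQ]
    rcases hc with ⟨h1, h2⟩ | ⟨h1, h2⟩ | ⟨h1, h2⟩
    · nlinarith [sq_nonneg (d - 0.2)]
    · nlinarith [sq_nonneg (d - 1.5)]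
    · nlinarith [sq_nonneg (d - 1.5)]
  have hfin : 0 ≤ 120 / 289 * (1 + d) ^ 2 - 240 / 289 * (7 / 25 + 2 / 5 * d) + R * Q := by
    have h3 : 120 / 289 * (1 + d) ^ 2 - 240 / 289 * (7 / 25 + 2 / 5 * d) + R * Q =
        (1 - 2 / 5 * R) * (120 / 289 * (1 + d) ^ 2 - 240 / 289 * (7 / 25 + 2 / 5 * d)) +
        2 / 5 * R * (120 / 289 * (1 + d) ^ 2 - 240 / 289 * (7 / 25 + 2 / 5 * d) + 5 / 2 * Q) := by ring
    rw [h3]
    have h4 : 0 ≤ 1 - 2 / 5 * R := by linarith
    positivity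
  rw [hQ] at hfin
  nlinarith

/-- left ray, `-3/5 ≤ R ≤ 1` -/
theorem gre_left2 {R h d : ℝ} (hd : 0 ≤ d) (h0 : 0 ≤ h) (hR' : R ≤ 1) :
    gre R h (-(15 * (1 + d) / 17)) (8 * (1 + d) / 17) ≤ -(al R h * (9 / 25 + 13 / 20 * d)) := by
  rw [gre_neg]
  have hs := left_sin hd
  have hc := left_cos hd
  have hup : R ≤ 0 → 1 - 8 * (1 + d) / 17 - Real.exp (-(8 * (1 + d) / 17)) * Real.cos (15 * (1 + d) / 17) -
      161 / 289 * (9 / 25 + 13 / 20 * d) ≤ 0 := by
    intro _
    have hE := Real.exp_pos (-(8 * (1 + d) / 17))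
    have hpi := Real.pi_gt_d6
    have hpi' := Real.pi_lt_d6
    rcases le_total (15 * (1 + d) / 17) (Real.pi / 2) with h | h
    · have h4 : 0 ≤ Real.cos (15 * (1 + d) / 17) :=
        Real.cos_nonneg_of_neg_pi_div_two_le_of_le (by linarith) h
      rcases le_total d 0.72 with h5 | h5
      · have h6 : 0.6246 * (1 - 8 * d / 17) ≤ Real.exp (-(8 * (1 + d) / 17)) := by
          have e : -(8 * (1 + d) / 17) = -(8 / 17) + -(8 * d / 17) := by ring
          rw [e, Real.exp_add]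
          have h7 : 1 - 8 * d / 17 ≤ Real.exp (-(8 * d / 17)) := by
            have := Real.add_one_le_exp (-(8 * d / 17)); linarith
          exact mul_le_mul exp_m.1.le h7 (by linarith) (Real.exp_pos _).le
        have h8 : 0.6353 - 15 * d / 17 ≤ Real.cos (15 * (1 + d) / 17) := by
          have e : 15 * (1 + d) / 17 = 15 / 17 + 15 * d / 17 := by ring
          have h9 : |Real.cos (15 / 17 + 15 * d / 17) - Real.cos (15 / 17)| ≤ |15 / 17 + 15 * d / 17 - 15 / 17| :=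
            Real.abs_cos_sub_cos_le _ _
          rw [show 15 / 17 + 15 * d / 17 - 15 / 17 = 15 * d / 17 by ring, abs_of_nonneg (by positivity : 0 ≤ 15 * d / 17)] at h9
          have := (abs_le.1 h9).1
          have := cos_a
          rw [e]
          linarith
        have h10 : 0.6246 * (1 - 8 * d / 17) * (0.6353 - 15 * d / 17) ≤
            Real.exp (-(8 * (1 + d) / 17)) * Real.cos (15 * (1 + d) / 17) := by
          rcases le_total 0 (0.6353 - 15 * d / 17) with h11 | h11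
          · exact mul_le_mul h6 h8 h11 hE.le
          · have : 0.6246 * (1 - 8 * d / 17) * (0.6353 - 15 * d / 17) ≤ 0 :=
              mul_nonpos_of_nonneg_of_nonpos (by nlinarith) h11
            have := mul_nonneg hE.le h4
            linarith
        nlinarith
      · have := mul_nonneg hE.le h4
        nlinarith
    · have h5 : -Real.cos (15 * (1 + d) / 17) ≤ 15 * (1 + d) / 17 - Real.pi / 2 := by
        have h6 := Real.sin_le (x := 15 * (1 + d) / 17 - Real.pi / 2) (by linarith)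
        rw [Real.sin_sub_pi_div_two] at h6
        exact h6
      have h7 : Real.exp (-(8 * (1 + d) / 17)) ≤ 0.6247 := by
        refine le_trans (Real.exp_le_exp.2 ?_) exp_m.2.le
        linarith
      have h8 : -(Real.exp (-(8 * (1 + d) / 17)) * Real.cos (15 * (1 + d) / 17)) ≤
          0.6247 * (15 * (1 + d) / 17 - Real.pi / 2) := by
        calc -(Real.exp (-(8 * (1 + d) / 17)) * Real.cos (15 * (1 + d) / 17))
            = Real.exp (-(8 * (1 + d) / 17)) * (-Real.cos (15 * (1 + d) / 17)) := by ring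
          _ ≤ Real.exp (-(8 * (1 + d) / 17)) * (15 * (1 + d) / 17 - Real.pi / 2) :=
            mul_le_mul_of_nonneg_left h5 hE.le
          _ ≤ _ := mul_le_mul_of_nonneg_right h7 (by linarith)
      nlinarith
  obtain ⟨S, hS⟩ : ∃ S, S = Real.exp (-(8 * (1 + d) / 17)) * Real.sin (15 * (1 + d) / 17) := ⟨_, rfl⟩
  obtain ⟨C, hC⟩ : ∃ C, C = Real.exp (-(8 * (1 + d) / 17)) * Real.cos (15 * (1 + d) / 17) := ⟨_, rfl⟩
  have e : Real.exp (-(8 * (1 + d) / 17)) * (R * Real.cos (15 * (1 + d) / 17) + h * Real.sin (15 * (1 + d) / 17)) =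
      R * C + h * S := by rw [hS, hC]; ring
  rw [e]
  rw [← hS] at hs
  rw [← hC] at hc hup
  have k1 : h * S ≤ h * (0.4825 + 0.1235 * d) := mul_le_mul_of_nonneg_left hs h0
  have k2 : 0 ≤ h * d := mul_nonneg h0 hd
  unfold al
  have hP : 0 ≤ 120 / 289 * (1 + d) ^ 2 - 240 / 289 * (9 / 25 + 13 / 20 * d) := by nlinarith
  obtain ⟨Q, hQ⟩ : ∃ Q, Q = 1 - 8 * (1 + d) / 17 - C - 161 / 289 * (9 / 25 + 13 / 20 * d) := ⟨_, rfl⟩
  rw [← hQ] at hup
  have hPQ : 0 ≤ 120 / 289 * (1 + d) ^ 2 - 240 / 289 * (9 / 25 + 13 / 20 * d) + Q := by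
    rw [hQ]
    rcases hc with ⟨h1, h2⟩ | ⟨h1, h2⟩ | ⟨h1, h2⟩
    · nlinarith [sq_nonneg (d - 0.14)]
    · nlinarith [sq_nonneg (d - 0.65)]
    · nlinarith [sq_nonneg (d - 0.65)]
  have hfin : 0 ≤ 120 / 289 * (1 + d) ^ 2 - 240 / 289 * (9 / 25 + 13 / 20 * d) + R * Q := by
    rcases le_total R 0 with h5 | h5
    · have := mul_nonneg_of_nonpos_of_nonpos h5 (hup h5)
      linarith
    · have h3 : 120 / 289 * (1 + d) ^ 2 - 240 / 289 * (9 / 25 + 13 / 20 * d) + R * Q =
          (1 - R) * (120 / 289 * (1 + d) ^ 2 - 240 / 289 * (9 / 25 + 13 / 20 * d)) +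
          R * (120 / 289 * (1 + d) ^ 2 - 240 / 289 * (9 / 25 + 13 / 20 * d) + Q) := by ring
      rw [h3]
      have h4 : 0 ≤ 1 - R := by linarith
      positivity
  rw [hQ] at hfin
  nlinarith

/-! ### the right side -/

/-- the sign of `n cos(φ+X)` etc. in terms of `R, h` -/
theorem gre_right_eq (R h d : ℝ) : gre R h (15 * (1 + d) / 17) (-(8 * (1 + d) / 17)) =
    -(120 * (1 + d) ^ 2 / 289) + Real.exp (8 * (1 + d) / 17) * (R * Real.cos (15 * (1 + d) / 17) - h * Real.sin (15 * (1 + d) / 17))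
      - R * (1 + 8 * (1 + d) / 17) + 15 * h * (1 + d) / 17 := by
  unfold gre
  rw [neg_neg]
  ring

/-- `c = R cos(15/17) - h sin(15/17)` -/
noncomputable def nc (R h : ℝ) : ℝ := R * Real.cos (15 / 17) - h * Real.sin (15 / 17)

noncomputable def ns (R h : ℝ) : ℝ := R * Real.sin (15 / 17) + h * Real.cos (15 / 17)

/-- the start of the right ray -/
theorem gre_right0 {R h : ℝ} (h0 : 0 ≤ h) (hR : -14 / 100 ≤ R ∨ (-3 / 5 ≤ R ∧ 11 / 20 ≤ h)) :
    gre R h (15 * (1 + 0) / 17) (-(8 * (1 + 0) / 17)) ≤ -(al R h * (7 / 20)) := by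
  rw [gre_right_eq]
  have hc := cos_a
  have hs := sin_a
  have he := exp_p
  simp only [add_zero, mul_one]
  have k1 : h * (1.6009 * 0.7722) ≤ h * (Real.exp (8 / 17) * Real.sin (15 / 17)) := by
    refine mul_le_mul_of_nonneg_left ?_ h0
    exact mul_le_mul he.1.le hs.1.le (by norm_num) (Real.exp_pos _).le
  have k2 : Real.exp (8 / 17) * Real.cos (15 / 17) ≤ 1.601 * 0.6354 :=
    mul_le_mul he.2.le hc.2.le (by linarith) (by norm_num)
  have k3 : 1.6009 * 0.6353 ≤ Real.exp (8 / 17) * Real.cos (15 / 17) :=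
    mul_le_mul he.1.le hc.1.le (by norm_num) (Real.exp_pos _).le
  have e : Real.exp (8 / 17) * (R * Real.cos (15 / 17) - h * Real.sin (15 / 17)) =
      R * (Real.exp (8 / 17) * Real.cos (15 / 17)) - h * (Real.exp (8 / 17) * Real.sin (15 / 17)) := by ring
  rw [e]
  unfold al
  rcases le_total 0 R with h1 | h1
  · have k4 : R * (Real.exp (8 / 17) * Real.cos (15 / 17)) ≤ R * (1.601 * 0.6354) := mul_le_mul_of_nonneg_left k2 h1
    linarith
  · have k4 : R * (Real.exp (8 / 17) * Real.cos (15 / 17)) ≤ R * (1.6009 * 0.6353) := mul_le_mul_of_nonpos_left k3 h1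
    rcases hR with h2 | ⟨h2, h3⟩
    · linarith
    · linarith

/-- `e^x (c - s y) ≤ c + c x - s y` for `y = 15 x / 8` -/
theorem exp_tangent {c s d : ℝ} (hd : 0 ≤ d) (hcs : 8 * c ≤ 15 * s) (hc : 0 ≤ c) :
    Real.exp (8 * d / 17) * (c - s * (15 * d / 17)) ≤ c + (8 * c - 15 * s) * d / 17 := by
  have h1 : 1 ≤ Real.exp (8 * d / 17) := Real.one_le_exp (by positivity)
  have h2 : Real.exp (8 * d / 17) * (1 - 8 * d / 17) ≤ 1 := by
    have h3 := Real.add_one_le_exp (-(8 * d / 17))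
    calc Real.exp (8 * d / 17) * (1 - 8 * d / 17) ≤ Real.exp (8 * d / 17) * Real.exp (-(8 * d / 17)) := by
          refine mul_le_mul_of_nonneg_left ?_ (Real.exp_pos _).le; linarith
      _ = 1 := by rw [← Real.exp_add, add_neg_cancel, Real.exp_zero]
  obtain ⟨e, he⟩ : ∃ e, e = Real.exp (8 * d / 17) := ⟨_, rfl⟩
  rw [← he] at h1 h2 ⊢
  have h4 : e - 1 - 8 * d / 17 ≤ 8 * d / 17 * (e - 1) := by linarith
  have h5 : c * (e - 1 - 8 * d / 17) ≤ c * (8 * d / 17 * (e - 1)) := mul_le_mul_of_nonneg_left h4 hc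
  have h6 : 0 ≤ d * (e - 1) := mul_nonneg hd (by linarith)
  have h7 : 8 * c * (d * (e - 1)) ≤ 15 * s * (d * (e - 1)) := mul_le_mul_of_nonneg_right hcs h6
  linarith

/-- the right ray -/
theorem gre_right {R h n φ d : ℝ} (hn : 0 < n) (hR1 : R = n * Real.cos φ) (hh : h = n * Real.sin φ) (h0 : 0 ≤ h)
    (hR : -14 / 100 ≤ R ∨ (-3 / 5 ≤ R ∧ 11 / 20 ≤ h)) (hφ0 : 0 ≤ φ) (hd : 0 ≤ d)
    (hφ : d = 0 ∨ φ + 15 * (1 + d) / 17 ≤ Real.pi / 2) :
    gre R h (15 * (1 + d) / 17) (-(8 * (1 + d) / 17)) ≤ -(al R h * (7 / 20 + 4 / 5 * d)) := by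
  rcases hφ with rfl | hφ
  · have := gre_right0 h0 hR
    simpa using this
  have g0 := gre_right0 h0 hR
  rw [gre_right_eq] at g0 ⊢
  simp only [add_zero, mul_one] at g0
  have hc := cos_a
  have hs := sin_a
  have he := exp_p
  have hpi := Real.pi_pos
  -- the tangent
  have a1 : R * Real.cos (15 * (1 + d) / 17) - h * Real.sin (15 * (1 + d) / 17) = n * Real.cos (φ + 15 * (1 + d) / 17) := by
    rw [Real.cos_add, hR1, hh]; ring
  have a2 : nc R h = n * Real.cos (φ + 15 / 17) := by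
    unfold nc; rw [Real.cos_add, hR1, hh]; ring
  have a3 : ns R h = n * Real.sin (φ + 15 / 17) := by
    unfold ns; rw [Real.sin_add, hR1, hh]; ring
  have a4 := cos_le_tangent (a := φ + 15 / 17) (x := φ + 15 * (1 + d) / 17) (by linarith) (by linarith) hφ
  have a5 : n * Real.cos (φ + 15 * (1 + d) / 17) ≤ nc R h - ns R h * (15 * d / 17) := by
    rw [a2, a3]
    have := mul_le_mul_of_nonneg_left a4 hn.le
    refine this.trans (le_of_eq ?_)
    ring
  have hnc : 0 ≤ nc R h := by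
    rw [a2]
    refine mul_nonneg hn.le (Real.cos_nonneg_of_neg_pi_div_two_le_of_le (by linarith) (by linarith))
  have hRn : 0 ≤ R := by
    rw [hR1]
    refine mul_nonneg hn.le (Real.cos_nonneg_of_neg_pi_div_two_le_of_le (by linarith) (by linarith))
  have hRh : 1.215 * h ≤ R := by
    unfold nc at hnc
    have b1 : h * 0.7722 ≤ h * Real.sin (15 / 17) := mul_le_mul_of_nonneg_left hs.1.le h0
    have b2 : R * Real.cos (15 / 17) ≤ R * 0.6354 := mul_le_mul_of_nonneg_left hc.2.le hRn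
    nlinarith
  have hcs : 8 * nc R h ≤ 15 * ns R h := by
    unfold nc ns
    have b1 : 0 ≤ h * Real.sin (15 / 17) := mul_nonneg h0 (by linarith)
    have b2 : R * Real.cos (15 / 17) ≤ R * 0.6354 := mul_le_mul_of_nonneg_left hc.2.le hRn
    have b3 : R * 0.7722 ≤ R * Real.sin (15 / 17) := mul_le_mul_of_nonneg_left hs.1.le hRn
    have b4 : 0 ≤ h * Real.cos (15 / 17) := mul_nonneg h0 (by linarith)
    nlinarith
  have a6 := exp_tangent hd hcs hnc
  -- the product
  have a7 : Real.exp (8 * (1 + d) / 17) * (n * Real.cos (φ + 15 * (1 + d) / 17)) ≤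
      Real.exp (8 / 17) * (nc R h + (8 * nc R h - 15 * ns R h) * d / 17) := by
    have e1 : Real.exp (8 * (1 + d) / 17) = Real.exp (8 / 17) * Real.exp (8 * d / 17) := by
      rw [← Real.exp_add]; congr 1; ring
    rw [e1, mul_assoc]
    refine mul_le_mul_of_nonneg_left ?_ (Real.exp_pos _).le
    exact (mul_le_mul_of_nonneg_left a5 (Real.exp_pos _).le).trans a6
  rw [a1]
  have e2 : 8 * nc R h - 15 * ns R h = R * (8 * Real.cos (15 / 17) - 15 * Real.sin (15 / 17)) -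
      h * (8 * Real.sin (15 / 17) + 15 * Real.cos (15 / 17)) := by unfold nc ns; ring
  -- bound of e^{8/17}(8 nc - 15 ns)
  have a8 : Real.exp (8 / 17) * (8 * nc R h - 15 * ns R h) ≤ -(1.6009 * (6.4998 * R + 15.7071 * h)) := by
    have b1 : 8 * nc R h - 15 * ns R h ≤ -(6.4998 * R + 15.7071 * h) := by
      rw [e2]
      have c1 : R * (8 * Real.cos (15 / 17) - 15 * Real.sin (15 / 17)) ≤ R * (-6.4998) :=
        mul_le_mul_of_nonneg_left (by linarith) hRn
      have c2 : h * 15.7071 ≤ h * (8 * Real.sin (15 / 17) + 15 * Real.cos (15 / 17)) :=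
        mul_le_mul_of_nonneg_left (by linarith) h0
      linarith
    calc Real.exp (8 / 17) * (8 * nc R h - 15 * ns R h) ≤ Real.exp (8 / 17) * -(6.4998 * R + 15.7071 * h) :=
          mul_le_mul_of_nonneg_left b1 (Real.exp_pos _).le
      _ = -(Real.exp (8 / 17) * (6.4998 * R + 15.7071 * h)) := by ring
      _ ≤ _ := by
        apply neg_le_neg
        exact mul_le_mul_of_nonneg_right he.1.le (by positivity)
  have a9 := mul_le_mul_of_nonneg_right a8 hd
  have g1 : Real.exp (8 / 17) * (R * Real.cos (15 / 17) - h * Real.sin (15 / 17)) = Real.exp (8 / 17) * nc R h := rfl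
  rw [g1] at g0
  unfold al at g0 ⊢
  have k1 : 0 ≤ h * d := mul_nonneg h0 hd
  have k2 : 1.215 * (h * d) ≤ R * d := by nlinarith
  nlinarith [mul_nonneg hRn hd, sq_nonneg d]

/-- down into the valley: the general slope bound -/
theorem gre_vert_step {R h X Y v : ℝ} (hneg : R * Real.cos X - h * Real.sin X ≤ 0) :
    gre R h X (-(Y + v)) ≤ gre R h X (-Y) - v * (X + R - Real.exp Y * (R * Real.cos X - h * Real.sin X)) := by
  unfold gre
  rw [neg_neg, neg_neg, Real.exp_add]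
  have h1 := Real.add_one_le_exp v
  obtain ⟨w, hw⟩ : ∃ w, w = R * Real.cos X - h * Real.sin X := ⟨_, rfl⟩
  rw [← hw] at hneg ⊢
  have h2 : Real.exp Y * w * Real.exp v ≤ Real.exp Y * w * (v + 1) :=
    mul_le_mul_of_nonpos_left h1 (mul_nonpos_of_nonneg_of_nonpos (Real.exp_pos _).le hneg)
  linarith

/-- the vertical leg when the ray is cut at `t = 1` (`φ + 15/17 ≥ π/2`) -/
theorem gre_vertA {R h v : ℝ} (h0 : 0 ≤ h) (hR : -14 / 100 ≤ R ∨ (-3 / 5 ≤ R ∧ 11 / 20 ≤ h)) (hnc : nc R h ≤ 0)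
    (hv : 0 ≤ v) : gre R h (15 / 17) (-(8 / 17 + v)) ≤ -(al R h * (7 / 20 + 4 / 5 * v)) := by
  have g0 := gre_right0 h0 hR
  simp only [add_zero, mul_one] at g0
  have g1 := gre_vert_step (R := R) (h := h) (X := 15 / 17) (Y := 8 / 17) (v := v) hnc
  have hc := cos_a
  have hs := sin_a
  have he := exp_p
  have k1 : h * (1.6009 * 0.7722) ≤ h * (Real.exp (8 / 17) * Real.sin (15 / 17)) := by
    refine mul_le_mul_of_nonneg_left ?_ h0
    exact mul_le_mul he.1.le hs.1.le (by norm_num) (Real.exp_pos _).le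
  have k2 : Real.exp (8 / 17) * Real.cos (15 / 17) ≤ 1.601 * 0.6354 :=
    mul_le_mul he.2.le hc.2.le (by linarith) (by norm_num)
  have k3 : 1.6009 * 0.6353 ≤ Real.exp (8 / 17) * Real.cos (15 / 17) :=
    mul_le_mul he.1.le hc.1.le (by norm_num) (Real.exp_pos _).le
  have e : Real.exp (8 / 17) * (R * Real.cos (15 / 17) - h * Real.sin (15 / 17)) =
      R * (Real.exp (8 / 17) * Real.cos (15 / 17)) - h * (Real.exp (8 / 17) * Real.sin (15 / 17)) := by ring
  rw [e] at g1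
  have hRh : R ≤ 1.2158 * h := by
    rcases le_total 0 R with h1 | h1
    · unfold nc at hnc
      have b1 : h * Real.sin (15 / 17) ≤ h * 0.7723 := mul_le_mul_of_nonneg_left hs.2.le h0
      have b2 : R * 0.6353 ≤ R * Real.cos (15 / 17) := mul_le_mul_of_nonneg_left hc.1.le h1
      nlinarith
    · linarith
  have hslope : 4 / 5 * al R h ≤ 15 / 17 + R - (R * (Real.exp (8 / 17) * Real.cos (15 / 17)) -
      h * (Real.exp (8 / 17) * Real.sin (15 / 17))) := by
    unfold al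
    rcases le_total 0 R with h1 | h1
    · have k4 : R * (Real.exp (8 / 17) * Real.cos (15 / 17)) ≤ R * (1.601 * 0.6354) := mul_le_mul_of_nonneg_left k2 h1
      linarith
    · have k4 : R * (Real.exp (8 / 17) * Real.cos (15 / 17)) ≤ R * (1.6009 * 0.6353) := mul_le_mul_of_nonpos_left k3 h1
      linarith
  have := mul_le_mul_of_nonneg_left hslope hv
  linarith

/-- the vertical leg `Re y = π/2` -/
theorem gre_vertB {R h n φ l v : ℝ} (hn : 0 < n) (hR1 : R = n * Real.cos φ) (hh : h = n * Real.sin φ) (h0 : 0 ≤ h)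
    (hR : -14 / 100 ≤ R ∨ (-3 / 5 ≤ R ∧ 11 / 20 ≤ h)) (hφ0 : 0 ≤ φ) (hl : 0 ≤ l)
    (hφ : φ + 15 * (1 + l) / 17 = Real.pi / 2) (hv : 0 ≤ v) :
    gre R h (15 * (1 + l) / 17) (-(8 * (1 + l) / 17 + v)) ≤ -(al R h * (7 / 20 + 4 / 5 * (l + v))) := by
  have g0 := gre_right hn hR1 hh h0 hR hφ0 hl (Or.inr hφ.le)
  have hz : R * Real.cos (15 * (1 + l) / 17) - h * Real.sin (15 * (1 + l) / 17) = 0 := by
    have : R * Real.cos (15 * (1 + l) / 17) - h * Real.sin (15 * (1 + l) / 17) = n * Real.cos (φ + 15 * (1 + l) / 17) := by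
      rw [Real.cos_add, hR1, hh]; ring
    rw [this, hφ, Real.cos_pi_div_two, mul_zero]
  have g1 := gre_vert_step (R := R) (h := h) (X := 15 * (1 + l) / 17) (Y := 8 * (1 + l) / 17) (v := v) hz.le
  rw [hz, mul_zero, sub_zero] at g1
  have hc := cos_a
  have hs := sin_a
  have hpi := Real.pi_pos
  have hnc : 0 ≤ nc R h := by
    have a2 : nc R h = n * Real.cos (φ + 15 / 17) := by
      unfold nc; rw [Real.cos_add, hR1, hh]; ring
    rw [a2]
    refine mul_nonneg hn.le (Real.cos_nonneg_of_neg_pi_div_two_le_of_le (by linarith) (by linarith))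
  have hRn : 0 ≤ R := by
    rw [hR1]
    refine mul_nonneg hn.le (Real.cos_nonneg_of_neg_pi_div_two_le_of_le (by linarith) (by linarith))
  have hRh : h ≤ 0.823 * R := by
    unfold nc at hnc
    have b1 : h * 0.7722 ≤ h * Real.sin (15 / 17) := mul_le_mul_of_nonneg_left hs.1.le h0
    have b2 : R * Real.cos (15 / 17) ≤ R * 0.6354 := mul_le_mul_of_nonneg_left hc.2.le hRn
    nlinarith
  have hslope : 4 / 5 * al R h ≤ 15 * (1 + l) / 17 + R := by
    unfold al
    linarith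
  have := mul_le_mul_of_nonneg_left hslope hv
  linarith

end Sok.W
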