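import Pool.Agent.Lib.MP_816dec_an.LapHalf
import Pool.Agent.Lib.MP_816dec_an.SadSeg

/-!
MP_816dec_an: the central segment of a horizontal contour through a saddle `R + h i`: value and absolute second moment.
-/

set_option autoImplicit false

open Complex Set Filter Topology MeasureTheory

namespace Sok

open W

theorem gauss_two {a : ℝ} (ha : 0 < a) :
    ∫ t : ℝ, |t| ^ 2 * Real.exp (-(a / 2) * t ^ 2) = Real.sqrt (2 * Real.pi) / (a * Real.sqrt a) := by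
  have ha2 : 0 < a / 2 := by positivity
  rw [integral_sq_gauss ha2]
  have h0 : ((2 : ℕ) : ℝ) + 1 = 3 := by norm_num
  have hg : Real.Gamma (3 / 2) = Real.sqrt Real.pi / 2 := by
    have h2 : Real.Gamma (3 / 2) = (1 / 2) * Real.Gamma (1 / 2) := by
      rw [show (3 / 2 : ℝ) = 1 / 2 + 1 by norm_num, Real.Gamma_add_one (by norm_num)]
    rw [h2, Real.Gamma_one_half_eq]; ring
  rw [h0, hg]
  have h1 : (a / 2) ^ (-(3:ℝ) / 2) = 1 / ((a / 2) * Real.sqrt (a / 2)) := by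
    rw [show (-(3:ℝ) / 2) = -(1 + 1 / 2) by norm_num, Real.rpow_neg ha2.le, Real.rpow_add ha2, ← Real.sqrt_eq_rpow,
      one_div, Real.rpow_one]
  rw [h1, Real.sqrt_div ha.le, Real.sqrt_mul (by norm_num)]
  have h2 : Real.sqrt 2 * Real.sqrt 2 = 2 := Real.mul_self_sqrt (by norm_num)
  have h3 : Real.sqrt 2 ≠ 0 := by positivity
  have h4 : Real.sqrt a ≠ 0 := by positivity
  field_simp

/-- value on the central segment -/
theorem near_value {Λ : ℂ} {c₁ c₂ M T : ℝ} {R : ℝ → ℂ} (ha : 0 < Λ.re) (hc1 : 0 < c₁) (hc1' : c₁ ≤ 1) (hc2 : 0 < c₂)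
    (hc2' : c₂ ≤ 1) (hM : 0 ≤ M) (hR : Continuous R) (hT : 0 < T)
    (h3 : ∀ t : ℝ, |t| ≤ T → ‖R t‖ ≤ M * |t| ^ 3)
    (hreL : ∀ t : ℝ, -T ≤ t → t < 0 → (R t).re ≤ (1 - c₁) * Λ.re * t ^ 2 / 2)
    (hreR : ∀ t : ℝ, 0 < t → t ≤ T → (R t).re ≤ (1 - c₂) * Λ.re * t ^ 2 / 2) :
    ‖(∫ t in (-T)..T, cexp (-(Λ / 2) * (t : ℂ) ^ 2 + R t)) - (2 * Real.pi / Λ) ^ (1 / 2 : ℂ)‖ ≤
      2 * M / (c₁ * Λ.re) ^ 2 + 2 * M / (c₂ * Λ.re) ^ 2 + 2 * (Real.exp (-(Λ.re / 2) * T ^ 2) / (Λ.re * T)) := by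
  have hL := seg_left (Λ := Λ) (c := c₁) (M := M) (T := T) (R := R) ha hc1 hc1' hM hR hT.le
    (fun t h1 h2 => h3 t (abs_le.2 ⟨h1, by linarith⟩)) hreL 0
  have hRt := seg_right (Λ := Λ) (c := c₂) (M := M) (T := T) (R := R) ha hc2 hc2' hM hR hT.le
    (fun t h1 h2 => by
      have := h3 t (abs_le.2 ⟨by linarith, h2⟩)
      rwa [abs_of_pos h1] at this) hreR 0
  simp only [pow_zero, one_mul, zero_add] at hL hRt
  have hg3 : ∀ c : ℝ, 0 < c → (∫ t : ℝ, |t| ^ 3 * Real.exp (-(c * Λ.re / 2) * t ^ 2)) = 4 / (c * Λ.re) ^ 2 :=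
    fun c hc => gauss_three (by positivity)
  rw [hg3 _ hc1] at hL
  rw [hg3 _ hc2] at hRt
  have hG := gauss_zero_T (Λ := Λ) (T := T) ha hT
  have hN := gauss_neg_zero (Λ := Λ) T
  rw [hN] at hL
  have hi : ∀ a b : ℝ, IntervalIntegrable (fun t : ℝ => cexp (-(Λ / 2) * (t : ℂ) ^ 2 + R t)) volume a b := by
    intro a b
    apply Continuous.intervalIntegrable
    fun_prop
  rw [← intervalIntegral.integral_add_adjacent_intervals (hi (-T) 0) (hi 0 T)]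
  have e : (∫ t in (-T)..0, cexp (-(Λ / 2) * (t : ℂ) ^ 2 + R t)) + (∫ t in (0:ℝ)..T, cexp (-(Λ / 2) * (t : ℂ) ^ 2 + R t)) -
      (2 * Real.pi / Λ) ^ (1 / 2 : ℂ) =
      ((∫ t in (-T)..0, cexp (-(Λ / 2) * (t : ℂ) ^ 2 + R t)) - ∫ t in (0:ℝ)..T, cexp (-(Λ / 2) * (t : ℂ) ^ 2)) +
      ((∫ t in (0:ℝ)..T, cexp (-(Λ / 2) * (t : ℂ) ^ 2 + R t)) - ∫ t in (0:ℝ)..T, cexp (-(Λ / 2) * (t : ℂ) ^ 2)) +
      (((∫ t in (0:ℝ)..T, cexp (-(Λ / 2) * (t : ℂ) ^ 2)) - (2 * Real.pi / Λ) ^ (1 / 2 : ℂ) / 2) +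
      ((∫ t in (0:ℝ)..T, cexp (-(Λ / 2) * (t : ℂ) ^ 2)) - (2 * Real.pi / Λ) ^ (1 / 2 : ℂ) / 2)) := by ring
  rw [e]
  refine (norm_add_le _ _).trans ?_
  refine (add_le_add (norm_add_le _ _) (norm_add_le _ _)).trans ?_
  have e1 : M * (4 / (c₁ * Λ.re) ^ 2 / 2) = 2 * M / (c₁ * Λ.re) ^ 2 := by ring
  have e2 : M * (4 / (c₂ * Λ.re) ^ 2 / 2) = 2 * M / (c₂ * Λ.re) ^ 2 := by ring
  rw [e1] at hL
  rw [e2] at hRt
  linarith

/-- absolute second moment on the central segment -/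
theorem near_second {a c₁ c₂ T : ℝ} {E : ℝ → ℝ} (ha : 0 < a) (hc1 : 0 < c₁) (hc2 : 0 < c₂)
    (hE : Continuous E) (hT : 0 ≤ T)
    (hL : ∀ t : ℝ, -T ≤ t → t < 0 → E t ≤ -(c₁ * a / 2) * t ^ 2)
    (hR : ∀ t : ℝ, 0 < t → t ≤ T → E t ≤ -(c₂ * a / 2) * t ^ 2) :
    ∫ t in (-T)..T, t ^ 2 / 2 * Real.exp (E t) ≤
      Real.sqrt (2 * Real.pi) / 4 * (1 / (c₁ * a * Real.sqrt (c₁ * a)) + 1 / (c₂ * a * Real.sqrt (c₂ * a))) := by
  have hi : ∀ u v : ℝ, IntervalIntegrable (fun t : ℝ => t ^ 2 / 2 * Real.exp (E t)) volume u v := by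
    intro u v
    apply Continuous.intervalIntegrable
    fun_prop
  have hb1 : 0 < c₁ * a / 2 := by positivity
  have hb2 : 0 < c₂ * a / 2 := by positivity
  have h1 : ∫ t in (-T)..0, t ^ 2 / 2 * Real.exp (E t) ≤ Real.sqrt (2 * Real.pi) / (4 * (c₁ * a * Real.sqrt (c₁ * a))) := by
    rw [intervalIntegral.integral_of_le (by linarith)]
    have hI : Integrable (fun t : ℝ => 1 / 2 * (|t| ^ 2 * Real.exp (-(c₁ * a / 2) * t ^ 2))) :=
      (integrable_abs_pow_gauss 2 hb1).const_mul _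
    have h2 : ∫ t in Ioc (-T) 0, t ^ 2 / 2 * Real.exp (E t) ≤
        ∫ t in Ioc (-T) 0, 1 / 2 * (|t| ^ 2 * Real.exp (-(c₁ * a / 2) * t ^ 2)) := by
      refine setIntegral_mono_on ((hi (-T) 0).1) hI.integrableOn measurableSet_Ioc (fun t ht => ?_)
      rw [sq_abs]
      rcases ht.2.eq_or_lt with h | h
      · rw [h]; simp
      · have h3 := Real.exp_le_exp.2 (hL t ht.1.le h)
        have h4 : 0 ≤ t ^ 2 / 2 := by positivity
        calc t ^ 2 / 2 * Real.exp (E t) ≤ t ^ 2 / 2 * Real.exp (-(c₁ * a / 2) * t ^ 2) := mul_le_mul_of_nonneg_left h3 h4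
          _ = _ := by ring
    refine h2.trans ?_
    have h5 : ∫ t in Ioc (-T) 0, 1 / 2 * (|t| ^ 2 * Real.exp (-(c₁ * a / 2) * t ^ 2)) ≤
        ∫ t in Iic (0:ℝ), 1 / 2 * (|t| ^ 2 * Real.exp (-(c₁ * a / 2) * t ^ 2)) := by
      refine setIntegral_mono_set hI.integrableOn (Filter.Eventually.of_forall fun t => ?_) (Ioc_subset_Iic_self).eventuallyLE
      simp only [Pi.zero_apply]; positivity
    refine h5.trans (le_of_eq ?_)
    rw [integral_const_mul]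
    have h6 : ∫ t in Iic (0:ℝ), |t| ^ 2 * Real.exp (-(c₁ * a / 2) * t ^ 2) =
        ∫ t in Ioi (0:ℝ), |t| ^ 2 * Real.exp (-(c₁ * a / 2) * t ^ 2) := by
      have := integral_comp_neg_Ioi (0:ℝ) (fun t : ℝ => |t| ^ 2 * Real.exp (-(c₁ * a / 2) * t ^ 2))
      rw [neg_zero] at this
      rw [← this]
      refine setIntegral_congr_fun measurableSet_Ioi (fun t _ => ?_)
      simp only [abs_neg, neg_sq]
    rw [h6, gauss_half 2 hb1, show -(c₁ * a / 2) = -((c₁ * a) / 2) by ring, gauss_two (by positivity)]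
    ring
  have h2 : ∫ t in (0:ℝ)..T, t ^ 2 / 2 * Real.exp (E t) ≤ Real.sqrt (2 * Real.pi) / (4 * (c₂ * a * Real.sqrt (c₂ * a))) := by
    rw [intervalIntegral.integral_of_le hT]
    have hI : Integrable (fun t : ℝ => 1 / 2 * (|t| ^ 2 * Real.exp (-(c₂ * a / 2) * t ^ 2))) :=
      (integrable_abs_pow_gauss 2 hb2).const_mul _
    have h2 : ∫ t in Ioc 0 T, t ^ 2 / 2 * Real.exp (E t) ≤
        ∫ t in Ioc 0 T, 1 / 2 * (|t| ^ 2 * Real.exp (-(c₂ * a / 2) * t ^ 2)) := by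
      refine setIntegral_mono_on ((hi 0 T).1) hI.integrableOn measurableSet_Ioc (fun t ht => ?_)
      rw [sq_abs]
      have h3 := Real.exp_le_exp.2 (hR t ht.1 ht.2)
      have h4 : 0 ≤ t ^ 2 / 2 := by positivity
      calc t ^ 2 / 2 * Real.exp (E t) ≤ t ^ 2 / 2 * Real.exp (-(c₂ * a / 2) * t ^ 2) := mul_le_mul_of_nonneg_left h3 h4
        _ = _ := by ring
    refine h2.trans ?_
    have h5 : ∫ t in Ioc 0 T, 1 / 2 * (|t| ^ 2 * Real.exp (-(c₂ * a / 2) * t ^ 2)) ≤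
        ∫ t in Ioi (0:ℝ), 1 / 2 * (|t| ^ 2 * Real.exp (-(c₂ * a / 2) * t ^ 2)) := by
      refine setIntegral_mono_set hI.integrableOn (Filter.Eventually.of_forall fun t => ?_) (Ioc_subset_Ioi_self).eventuallyLE
      simp only [Pi.zero_apply]; positivity
    refine h5.trans (le_of_eq ?_)
    rw [integral_const_mul, gauss_half 2 hb2, show -(c₂ * a / 2) = -((c₂ * a) / 2) by ring, gauss_two (by positivity)]
    ring
  rw [← intervalIntegral.integral_add_adjacent_intervals (hi (-T) 0) (hi 0 T)]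
  refine (add_le_add h1 h2).trans (le_of_eq ?_)
  have : Real.sqrt (c₁ * a) ≠ 0 := by positivity
  have : Real.sqrt (c₂ * a) ≠ 0 := by positivity
  field_simp

/-- real part of the remainder on the real line -/
theorem re_Rm_real (R h β t : ℝ) : (Rm (R + h * I) β t).re =
    (R * (Real.cos t - 1 + t ^ 2 / 2) - h * (Real.sin t - t)) / β := by
  have e : Rm (R + h * I) β t = (((1 / β : ℝ) : ℂ)) * ((R + h * I) *
      (((Real.cos t - 1 + t ^ 2 / 2 : ℝ) : ℂ) + ((Real.sin t - t : ℝ) : ℂ) * I)) := by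
    unfold Rm
    rw [mul_comm I (t : ℂ), Complex.exp_mul_I]
    push_cast
    ring
  rw [e, Complex.re_ofReal_mul]
  simp only [Complex.mul_re, Complex.add_re, Complex.ofReal_re, Complex.ofReal_im, Complex.I_re, Complex.I_im,
    Complex.add_im, Complex.mul_im]
  ring

theorem cos_le_quarticL (t : ℝ) : Real.cos t - 1 + t ^ 2 / 2 ≤ t ^ 4 / 24 := by
  have key : ∀ t : ℝ, 0 ≤ t → Real.cos t - 1 + t ^ 2 / 2 ≤ t ^ 4 / 24 := by
    intro t ht
    have h1 : MonotoneOn (fun x : ℝ => x ^ 4 / 24 - (Real.cos x - 1 + x ^ 2 / 2)) (Ici 0) := by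
      refine monotoneOn_of_deriv_nonneg (convex_Ici 0) (by fun_prop) (by fun_prop) ?_
      intro x hx
      rw [interior_Ici] at hx
      have hx0 : 0 < x := hx
      have hd : HasDerivAt (fun x : ℝ => x ^ 4 / 24 - (Real.cos x - 1 + x ^ 2 / 2)) (x ^ 3 / 6 - (-Real.sin x + x)) x := by
        have h2 := ((hasDerivAt_pow 4 x).div_const 24).sub (((Real.hasDerivAt_cos x).sub_const 1).add
          ((hasDerivAt_pow 2 x).div_const 2))
        refine h2.congr_deriv ?_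
        norm_num
        ring
      rw [hd.deriv]
      have := Real.sin_gt_sub_cube hx0
      linarith
    have h2 := h1 (by simp : (0:ℝ) ∈ Ici 0) (show t ∈ Ici 0 from ht) ht
    simp only [ne_eq, OfNat.ofNat_ne_zero, not_false_eq_true, zero_pow, zero_div, add_zero, Real.cos_zero, sub_self] at h2
    linarith
  rcases le_total 0 t with h | h
  · exact key t h
  · have := key (-t) (by linarith)
    rwa [Real.cos_neg, neg_sq, show (-t) ^ 4 = t ^ 4 by ring] at this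

end Sok
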