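import Pool.Agent.Lib.MP_816dec_an.PkLegs

/-!
MP_816dec_an, b = 1, `1.3 ≤ κ ≤ 4.7`: tools for the left part: bounds of `mw u = e^{iu} - 1 - iu`, legs with a
general majorant, elementary integrals, the central segment, the final quotient.
-/

set_option autoImplicit false

open Complex Set Filter Topology MeasureTheory

namespace Sok.W

/-! ### the weight -/

theorem norm_mw_le {u : ℂ} (hu : 0 ≤ u.im) : ‖mw u‖ ≤ ‖u‖ ^ 2 / 2 := by
  have h := norm_exp_sub_one_sub_le (I * u) (M := 1) le_rfl (by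
    rw [Complex.I_mul_re]
    exact Real.exp_le_one_iff.2 (by linarith))
  rw [one_mul, norm_mul, Complex.norm_I, one_mul] at h
  exact h

/-- crude linear bound -/
theorem norm_mw_le' {u : ℂ} (hu : 0 ≤ u.im) : ‖mw u‖ ≤ 2 + ‖u‖ := by
  unfold mw
  have h1 : ‖cexp (I * u)‖ ≤ 1 := by
    rw [Complex.norm_exp, Complex.I_mul_re]
    exact Real.exp_le_one_iff.2 (by linarith)
  calc ‖cexp (I * u) - 1 - I * u‖ ≤ ‖cexp (I * u) - 1‖ + ‖I * u‖ := norm_sub_le _ _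
    _ ≤ (‖cexp (I * u)‖ + ‖(1 : ℂ)‖) + ‖I * u‖ := by gcongr; exact norm_sub_le _ _
    _ ≤ (1 + 1) + ‖u‖ := by
      rw [norm_one, norm_mul, Complex.norm_I, one_mul]
      linarith
    _ = 2 + ‖u‖ := by ring

theorem norm_mw_mul_le (u : ℂ) {X : ℝ} (hX : 0 ≤ X) (hu : -u.im ≤ X) :
    X ^ 2 * ‖mw u‖ ≤ ‖u‖ ^ 2 * (Real.exp X - 1 - X) := by
  have h := norm_exp_sub_sum_mul_le (I * u) 2 hX (by rw [Complex.I_mul_re]; exact hu) 1 (right_mem_Icc.2 zero_le_one)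
  rw [norm_mul, Complex.norm_I, one_mul] at h
  simp only [Complex.ofReal_one, one_mul, Finset.sum_range_succ, Finset.sum_range_zero, Nat.factorial, pow_zero,
    pow_one, zero_add, Nat.cast_one, div_one, mul_one, Nat.succ_eq_add_one] at h
  have e : mw u = cexp (I * u) - (1 + I * u) := by unfold mw; ring
  have e2 : Real.exp X - 1 - X = Real.exp X - (1 + X) := by ring
  rw [e, e2]
  exact h

/-- below the real axis, `|u| ≤ 2 X`, `X = -Im u` -/
theorem norm_mw_le_four {u : ℂ} {X : ℝ} (hX : 0 < X) (hu : -u.im ≤ X) (h2 : ‖u‖ ≤ 2 * X) :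
    ‖mw u‖ ≤ 4 * (Real.exp X - 1 - X) := by
  have h := norm_mw_mul_le u hX.le hu
  have h0 : 0 ≤ Real.exp X - 1 - X := by have := Real.add_one_le_exp X; linarith
  have h3 : ‖u‖ ^ 2 ≤ (2 * X) ^ 2 := pow_le_pow_left₀ (norm_nonneg _) h2 2
  have h4 : X ^ 2 * ‖mw u‖ ≤ X ^ 2 * (4 * (Real.exp X - 1 - X)) := by
    refine h.trans ((mul_le_mul_of_nonneg_right h3 h0).trans (le_of_eq (by ring)))
  exact le_of_mul_le_mul_left h4 (by positivity)

theorem four_mono {X X' : ℝ} (h0 : 0 ≤ X) (h : X ≤ X') :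
    4 * (Real.exp X - 1 - X) ≤ 4 * (Real.exp X' - 1 - X') := by
  have h1 : Real.exp X' = Real.exp X * Real.exp (X' - X) := by rw [← Real.exp_add]; congr 1; ring
  have h2 := Real.add_one_le_exp (X' - X)
  have h3 : 1 ≤ Real.exp X := Real.one_le_exp h0
  have h4 : Real.exp X * (X' - X + 1) ≤ Real.exp X' := by
    rw [h1]; exact mul_le_mul_of_nonneg_left h2 (Real.exp_pos _).le
  nlinarith [mul_le_mul_of_nonneg_right h3 (by linarith : 0 ≤ X' - X)]

/-! ### elementary integrals -/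

theorem int_T0 {C k l : ℝ} (hl : 0 ≤ l) (hk : 0 < k) (hC : 0 ≤ C) :
    ∫ t in (0:ℝ)..l, C * Real.exp (-(k * t)) ≤ C / k := by
  have h := int_lin_exp_le (A := C) (B := 0) hl hk hC le_rfl
  simp only [zero_mul, add_zero, zero_div] at h
  exact h

theorem int_T2 {C k l : ℝ} (_hl : 0 ≤ l) (hk : 0 < k) (hC : 0 ≤ C) :
    ∫ t in (0:ℝ)..l, C * ((1 + t) ^ 2 / 2) * Real.exp (-(k * t)) ≤ C * (1 / (2 * k) + 1 / k ^ 2 + 1 / k ^ 3) := by
  have hder : ∀ t ∈ uIcc (0:ℝ) l, HasDerivAt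
      (fun t : ℝ => -(C * ((1 + t) ^ 2 / (2 * k) + (1 + t) / k ^ 2 + 1 / k ^ 3)) * Real.exp (-(k * t)))
      (C * ((1 + t) ^ 2 / 2) * Real.exp (-(k * t))) t := by
    intro t _
    have h2 : HasDerivAt (fun t : ℝ => -(k * t)) (-(k * 1)) t := ((hasDerivAt_id t).const_mul k).fun_neg
    have h0 : HasDerivAt (fun t : ℝ => 1 + t) 1 t := (hasDerivAt_id t).const_add 1
    have h3 : HasDerivAt (fun t : ℝ => -(C * ((1 + t) ^ 2 / (2 * k) + (1 + t) / k ^ 2 + 1 / k ^ 3)))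
        (-(C * ((2 * (1 + t)) / (2 * k) + 1 / k ^ 2))) t := by
      have h4 : HasDerivAt (fun t : ℝ => (1 + t) ^ 2 / (2 * k)) ((2 * (1 + t)) / (2 * k)) t := by
        have := (h0.pow 2).div_const (2 * k)
        simpa using this
      have h5 : HasDerivAt (fun t : ℝ => (1 + t) / k ^ 2) (1 / k ^ 2) t := h0.div_const _
      exact (((h4.add h5).add_const (1 / k ^ 3)).const_mul C).fun_neg
    refine (h3.mul h2.exp).congr_deriv ?_
    field_simp
    ring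
  have hcont : Continuous (fun t : ℝ => C * ((1 + t) ^ 2 / 2) * Real.exp (-(k * t))) := by fun_prop
  rw [intervalIntegral.integral_eq_sub_of_hasDerivAt hder (hcont.intervalIntegrable _ _)]
  have h6 : 0 ≤ (C * ((1 + l) ^ 2 / (2 * k) + (1 + l) / k ^ 2 + 1 / k ^ 3)) * Real.exp (-(k * l)) := by positivity
  rw [mul_zero, neg_zero, Real.exp_zero, mul_one, add_zero, one_pow]
  linarith

/-- `∫_0^l 4 (e^{1/2+t} - 3/2 - t) e^{-kt} dt` -/
theorem int_T4 {C k l : ℝ} (hl : 0 ≤ l) (hk : 1 < k) (hC : 0 ≤ C) :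
    ∫ t in (0:ℝ)..l, C * (4 * (Real.exp (1 / 2 + t) - 1 - (1 / 2 + t))) * Real.exp (-(k * t)) ≤
      C * (4 * (Real.exp (1 / 2) / (k - 1) - 3 / (2 * k) - 1 / k ^ 2)) := by
  have hk0 : 0 < k := by linarith
  have hk1 : 0 < k - 1 := by linarith
  have hder : ∀ t ∈ uIcc (0:ℝ) l, HasDerivAt
      (fun t : ℝ => -(C * (4 * (Real.exp (1 / 2 + t) / (k - 1) - (3 / 2 + t) / k - 1 / k ^ 2))) * Real.exp (-(k * t)))
      (C * (4 * (Real.exp (1 / 2 + t) - 1 - (1 / 2 + t))) * Real.exp (-(k * t))) t := by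
    intro t _
    have h2 : HasDerivAt (fun t : ℝ => -(k * t)) (-(k * 1)) t := ((hasDerivAt_id t).const_mul k).fun_neg
    have h0 : HasDerivAt (fun t : ℝ => Real.exp (1 / 2 + t)) (Real.exp (1 / 2 + t) * 1) t :=
      ((hasDerivAt_id t).const_add (1 / 2)).exp
    have h1 : HasDerivAt (fun t : ℝ => (3 / 2 + t) / k) (1 / k) t := ((hasDerivAt_id t).const_add (3 / 2)).div_const k
    have h3 : HasDerivAt (fun t : ℝ => -(C * (4 * (Real.exp (1 / 2 + t) / (k - 1) - (3 / 2 + t) / k - 1 / k ^ 2))))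
        (-(C * (4 * (Real.exp (1 / 2 + t) * 1 / (k - 1) - 1 / k)))) t :=
      (((((h0.div_const (k - 1)).sub h1).sub_const (1 / k ^ 2)).const_mul 4).const_mul C).fun_neg
    refine (h3.mul h2.exp).congr_deriv ?_
    field_simp
    ring
  have hcont : Continuous (fun t : ℝ => C * (4 * (Real.exp (1 / 2 + t) - 1 - (1 / 2 + t))) * Real.exp (-(k * t))) := by
    fun_prop
  rw [intervalIntegral.integral_eq_sub_of_hasDerivAt hder (hcont.intervalIntegrable _ _)]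
  have h5 : 0 ≤ Real.exp (1 / 2 + l) / (k - 1) - (3 / 2 + l) / k - 1 / k ^ 2 := by
    have h6 : 3 / 2 + l ≤ Real.exp (1 / 2 + l) := by have := Real.add_one_le_exp (1 / 2 + l); linarith
    have h7 : (3 / 2 + l) / (k - 1) ≤ Real.exp (1 / 2 + l) / (k - 1) := div_le_div_of_nonneg_right h6 hk1.le
    have h8 : (3 / 2 + l) / k + 1 / k ^ 2 ≤ (3 / 2 + l) / (k - 1) := by
      have h9 : (3 / 2 + l) / (k - 1) - (3 / 2 + l) / k = (3 / 2 + l) / (k * (k - 1)) := by field_simp; ring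
      have h10 : 1 / k ^ 2 ≤ (3 / 2 + l) / (k * (k - 1)) := by
        rw [div_le_div_iff₀ (by positivity) (by positivity)]
        nlinarith [mul_pos hk0 hk1]
      linarith
    linarith
  have h6 : 0 ≤ (C * (4 * (Real.exp (1 / 2 + l) / (k - 1) - (3 / 2 + l) / k - 1 / k ^ 2))) * Real.exp (-(k * l)) := by
    positivity
  have e1 : (3 / 2 + 0) / k = 3 / (2 * k) := by rw [add_zero]; field_simp
  rw [mul_zero, neg_zero, Real.exp_zero, mul_one, add_zero, e1]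
  linarith

/-! ### legs with a general majorant -/

/-- a leg of length `l` in direction `e`, then vertically down into the valley -/
theorem Pk.two_leg {θ : ℝ} {h P : ℂ → ℂ} {lL V lR : ℂ} (hp : Pk θ h P lL V lR) (q e : ℂ) (he : ‖e‖ = 1) {l : ℝ}
    (hl : 0 ≤ l) {S b : ℝ} (hq : q + l * e = S + b * I) (hS1 : Real.pi / 2 ≤ S)
    (hS2 : S ≤ 3 * Real.pi / 2) (hθ : θ < min S Real.pi) {g : ℝ → ℝ} (hg : Continuous g) {M : ℝ}
    (hM : ∀ x : ℝ, 0 ≤ x → ∫ t in (0:ℝ)..x, g t ≤ M)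
    (h1 : ∀ t : ℝ, 0 ≤ t → t ≤ l → ‖h (q + t * e)‖ ≤ g t)
    (h2 : ∀ v : ℝ, 0 ≤ v → ‖h (S + (b - v : ℝ) * I)‖ ≤ g (l + v)) : ‖V - P q‖ ≤ M := by
  have a1 := (((hp.valley S hS1 hS2 hθ)).sub (tendsto_const_nhds (x := P q))).norm
  refine le_of_tendsto a1 ?_
  filter_upwards [eventually_le_atBot b] with t ht
  have b1 := hp.seg_le q e he hl hg h1
  rw [Complex.ofReal_zero, zero_mul, add_zero, hq] at b1
  have he' : ‖-I‖ = 1 := by rw [norm_neg, Complex.norm_I]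
  have b2 := hp.seg_le (S + b * I) (-I) he' (a := 0) (b := b - t) (by linarith) (g := fun v => g (l + v)) (by fun_prop)
    (fun v hv0 _ => by
      have := h2 v hv0
      rwa [show (S : ℂ) + b * I + (v : ℂ) * -I = S + (b - v : ℝ) * I by push_cast; ring])
  rw [Complex.ofReal_zero, zero_mul, add_zero,
    show (S : ℂ) + b * I + ((b - t : ℝ) : ℂ) * -I = S + t * I by push_cast; ring] at b2
  have b3 : ∫ v in (0:ℝ)..(b - t), g (l + v) = ∫ v in l..(l + (b - t)), g v := by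
    rw [intervalIntegral.integral_comp_add_left (fun v => g v) l, add_zero]
  have b4 : (∫ v in (0:ℝ)..l, g v) + ∫ v in l..(l + (b - t)), g v = ∫ v in (0:ℝ)..(l + (b - t)), g v :=
    intervalIntegral.integral_add_adjacent_intervals (hg.intervalIntegrable _ _) (hg.intervalIntegrable _ _)
  have b5 := hM (l + (b - t)) (by linarith)
  have b6 : P (S + t * I) - P q = (P (S + t * I) - P (S + b * I)) + (P (S + b * I) - P q) := by ring
  rw [b6]
  refine (norm_add_le _ _).trans ?_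
  rw [b3] at b2
  linarith

/-- the left slanted ray -/
theorem Pk.left_le {θ : ℝ} {h P : ℂ → ℂ} {lL V lR : ℂ} (hp : Pk θ h P lL V lR) (y0 : ℂ) {γ : ℝ}
    (hc : 0 < Real.cos γ) (hs : Real.sin γ < 0) {g : ℝ → ℝ} (hg : Continuous g) {M : ℝ}
    (hM : ∀ x : ℝ, 0 ≤ x → ∫ t in (0:ℝ)..x, g t ≤ M)
    (hb : ∀ t : ℝ, 0 ≤ t → ‖h (y0 - t * cexp (γ * I))‖ ≤ g t) :
    ‖P y0 - lL‖ ≤ M := by
  have h1 := ((tendsto_const_nhds (x := P y0)).sub (hp.left y0 γ hc hs)).norm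
  refine le_of_tendsto h1 ?_
  filter_upwards [eventually_le_atBot (0:ℝ)] with t ht
  have he : ‖-cexp (γ * I)‖ = 1 := by rw [norm_neg, Complex.norm_exp_ofReal_mul_I]
  have h2 := hp.seg_le y0 (-cexp (γ * I)) he (a := 0) (b := -t) (by linarith) hg (fun s hs0 _ => by
    have := hb s hs0
    rwa [show y0 + (s : ℂ) * -cexp (γ * I) = y0 - s * cexp (γ * I) by ring])
  rw [Complex.ofReal_zero, zero_mul, add_zero] at h2
  rw [norm_sub_rev]
  have h3 : y0 + ((-t : ℝ) : ℂ) * -cexp (γ * I) = y0 + t * cexp (γ * I) := by push_cast; ring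
  rw [h3] at h2
  exact h2.trans (hM _ (by linarith))

/-! ### the quotient -/

/-- assembly: `N = |main|` -/
theorem quot_of {β r θ : ℝ} (hβ : 0 < β) (hr : 0 < r) {L : ℂ} (hs : Sad β r θ L) {M0 N J S1 : ℝ} (hM0 : 0 < M0)
    (hJ : J < N) (h0 : M0 * (N - J) ≤ ‖XL (KK β r θ)‖) (h1 : ‖XL (Kq β r θ L)‖ ≤ M0 * S1) (hD : 0 < ‖1 - I * L‖) {ε : ℝ}
    (hε : ‖L‖ * S1 ≤ ε * (N - J) * ‖1 - I * L‖) :
    XL (KK β r θ) ≠ 0 ∧ ‖XL (K1 β r θ) / XL (KK β r θ) - L‖ ≤ ε := by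
  have hpos : 0 < M0 * (N - J) := mul_pos hM0 (by linarith)
  have hX : 0 < ‖XL (KK β r θ)‖ := lt_of_lt_of_le hpos h0
  have hX0 : XL (KK β r θ) ≠ 0 := norm_pos_iff.1 hX
  refine ⟨hX0, ?_⟩
  have hid := (first_moment hβ hr hs).1
  have e : XL (K1 β r θ) / XL (KK β r θ) - L = (XL (K1 β r θ) - L * XL (KK β r θ)) / XL (KK β r θ) := by
    field_simp
  rw [e, norm_div, div_le_iff₀ hX]
  have h2 : ‖1 - I * L‖ * ‖XL (K1 β r θ) - L * XL (KK β r θ)‖ = ‖L‖ * ‖XL (Kq β r θ L)‖ := by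
    rw [← norm_mul, hid, norm_mul]
  have h3 : ‖1 - I * L‖ * ‖XL (K1 β r θ) - L * XL (KK β r θ)‖ ≤ ‖1 - I * L‖ * (ε * ‖XL (KK β r θ)‖) := by
    rw [h2]
    have hε0 : 0 ≤ ε := by
      by_contra hneg
      rw [not_le] at hneg
      have a1 : 0 ≤ ‖L‖ * S1 := by
        have : 0 ≤ M0 * S1 := (norm_nonneg _).trans h1
        exact mul_nonneg (norm_nonneg _) (nonneg_of_mul_nonneg_right this hM0)
      have a2 : ε * (N - J) * ‖1 - I * L‖ < 0 :=
        mul_neg_of_neg_of_pos (mul_neg_of_neg_of_pos hneg (by linarith)) hD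
      linarith
    calc ‖L‖ * ‖XL (Kq β r θ L)‖ ≤ ‖L‖ * (M0 * S1) := mul_le_mul_of_nonneg_left h1 (norm_nonneg _)
      _ = M0 * (‖L‖ * S1) := by ring
      _ ≤ M0 * (ε * (N - J) * ‖1 - I * L‖) := mul_le_mul_of_nonneg_left hε hM0.le
      _ = ‖1 - I * L‖ * (ε * (M0 * (N - J))) := by ring
      _ ≤ ‖1 - I * L‖ * (ε * ‖XL (KK β r θ)‖) := by gcongr
  exact le_of_mul_le_mul_left h3 hD

end Sok.W
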