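import Pool.Agent.Lib.MP_816dec_an.LIneq17
import Pool.Agent.Lib.MP_816dec_an.LTools

/-!
MP_816dec_an, b = 1, `1.3 ≤ κ ≤ 4.7`: the path of direction `(15 - 8i)/17` through the saddle, tails of `XL`.
-/

set_option autoImplicit false

open Complex Set Filter Topology MeasureTheory

namespace Sok.W

/-- the angle of the path -/
noncomputable def gam : ℝ := -Real.arcsin (8 / 17)

theorem sin_gam : Real.sin gam = -(8 / 17) := by
  unfold gam
  rw [Real.sin_neg, Real.sin_arcsin (by norm_num) (by norm_num)]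

theorem cos_gam : Real.cos gam = 15 / 17 := by
  unfold gam
  rw [Real.cos_neg, Real.cos_arcsin]
  rw [show (1 : ℝ) - (8 / 17) ^ 2 = (15 / 17) ^ 2 by norm_num]
  exact Real.sqrt_sq (by norm_num)

theorem exp_gam : cexp (gam * I) = ((15 / 17 : ℝ) : ℂ) + ((-(8 / 17) : ℝ) : ℂ) * I := by
  rw [Complex.exp_mul_I, ← Complex.ofReal_cos, ← Complex.ofReal_sin, sin_gam, cos_gam]

/-- polar form of the saddle -/
theorem Sad.polar {β r θ R h : ℝ} (hs : Sad β r θ (R + h * I)) :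
    R = β * r * Real.exp (-h) * Real.cos (θ + R) ∧ h = β * r * Real.exp (-h) * Real.sin (θ + R) := by
  unfold Sad at hs
  have e1 : cexp (I * (θ + (R + h * I))) =
      (Real.exp (-h) : ℝ) * ((Real.cos (θ + R) : ℝ) + (Real.sin (θ + R) : ℝ) * I) := by
    have : I * (θ + (R + h * I)) = ((-h : ℝ) : ℂ) + ((θ + R : ℝ) : ℂ) * I := by
      push_cast
      linear_combination (h : ℂ) * Complex.I_sq
    rw [this, Complex.exp_add, Complex.exp_mul_I, ← Complex.ofReal_exp, ← Complex.ofReal_cos, ← Complex.ofReal_sin]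
  rw [e1] at hs
  generalize Real.exp (-h) = E at hs ⊢
  generalize Real.cos (θ + R) = C at hs ⊢
  generalize Real.sin (θ + R) = S at hs ⊢
  constructor
  · have := congrArg Complex.re hs
    simp at this
    linarith
  · have := congrArg Complex.im hs
    simp at this
    linarith

/-- the tails of `XL` outside the central segment -/
theorem XL_tails {β r θ θ' R h : ℝ} (hβ : 0 < β) (hr : 0 < r) (hs : Sad β r θ (R + h * I)) (h0 : 0 ≤ h)
    (hRc : -14 / 100 ≤ R ∨ (-3 / 5 ≤ R ∧ 11 / 20 ≤ h)) (hφ0 : 0 ≤ θ + R) (hφ1 : θ + R ≤ Real.pi)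
    (hθ1 : θ' < θ + R + 15 / 17) (hθ2 : θ' < Real.pi)
    {c1 c2 : ℝ} (hleft : ∀ d : ℝ, 0 ≤ d → gre R h (-(15 * (1 + d) / 17)) (8 * (1 + d) / 17) ≤ -(al R h * (c1 + c2 * d)))
    {H P : ℂ → ℂ} {lL V lR : ℂ} (hp : Pk θ' H P lL V lR) {M0 : ℝ} (hM0 : 0 ≤ M0) {W : ℂ → ℝ} (hW : ∀ u, 0 ≤ W u)
    (hH : ∀ X Y : ℝ, ‖H (θ + (R + h * I) + (X + Y * I))‖ ≤ W (X + Y * I) * (M0 * Real.exp (gre R h X Y / β)))
    {wl wr : ℝ → ℝ} (cwl : Continuous wl) (cwr : Continuous wr)
    (hwl : ∀ (u : ℂ) (t : ℝ), 0 ≤ t → ‖u‖ ≤ 1 + t → 0 ≤ u.im → W u ≤ wl t)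
    (hwr : ∀ (u : ℂ) (t : ℝ), 0 ≤ t → ‖u‖ ≤ 1 + t → -u.im ≤ 1 / 2 + t → W u ≤ wr t) {ML MR : ℝ}
    (hML : ∀ x : ℝ, 0 ≤ x → ∫ t in (0:ℝ)..x, M0 * Real.exp (-(c1 * (al R h / β))) * wl t *
      Real.exp (-(c2 * (al R h / β) * t)) ≤ ML)
    (hMR : ∀ x : ℝ, 0 ≤ x → ∫ t in (0:ℝ)..x, M0 * Real.exp (-(7 / 20 * (al R h / β))) * wr t *
      Real.exp (-(4 / 5 * (al R h / β) * t)) ≤ MR) :
    ‖XL H - cexp (gam * I) * ∫ t in (-1:ℝ)..1, H (θ + (R + h * I) + t * cexp (gam * I))‖ ≤ ML + MR := by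
  obtain ⟨y0, hy0⟩ : ∃ y0 : ℂ, y0 = θ + (R + h * I) := ⟨_, rfl⟩
  obtain ⟨a, ha⟩ : ∃ a, a = al R h / β := ⟨_, rfl⟩
  rw [← hy0] at hH ⊢
  rw [← ha] at hML hMR
  obtain ⟨hR1, hh1⟩ := hs.polar
  have hn : 0 < β * r * Real.exp (-h) := mul_pos (mul_pos hβ hr) (Real.exp_pos _)
  have hpi := Real.pi_gt_d6
  -- exponent bounds
  have expb : ∀ (x c : ℝ), x ≤ -(al R h * c) → Real.exp (x / β) ≤ Real.exp (-(a * c)) := by
    intro x c hx
    apply Real.exp_le_exp.2
    rw [div_le_iff₀ hβ, ha]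
    have : -(al R h / β * c) * β = -(al R h * c) := by field_simp
    rw [this]; exact hx
  have gen : ∀ (X Y c1 c2 t w : ℝ), gre R h X Y ≤ -(al R h * (c1 + c2 * t)) → W (X + Y * I) ≤ w →
      ‖H (y0 + (X + Y * I))‖ ≤ M0 * Real.exp (-(c1 * a)) * w * Real.exp (-(c2 * a * t)) := by
    intro X Y c1 c2 t w h1 h2
    have h3 := expb _ _ h1
    have h4 : 0 ≤ W (X + Y * I) := hW _
    calc ‖H (y0 + (X + Y * I))‖ ≤ W (X + Y * I) * (M0 * Real.exp (gre R h X Y / β)) := hH X Y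
      _ ≤ w * (M0 * Real.exp (-(a * (c1 + c2 * t)))) :=
        mul_le_mul h2 (mul_le_mul_of_nonneg_left h3 hM0) (mul_nonneg hM0 (Real.exp_pos _).le) (h4.trans h2)
      _ = _ := by
        have : -(a * (c1 + c2 * t)) = -(c1 * a) + -(c2 * a * t) := by ring
        rw [this, Real.exp_add]
        ring
  -- left
  have hL : ‖P (y0 - cexp (gam * I)) - lL‖ ≤ ML := by
    refine hp.left_le (y0 - cexp (gam * I)) (γ := gam) (by rw [cos_gam]; norm_num) (by rw [sin_gam]; norm_num)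
      (g := fun t => M0 * Real.exp (-(c1 * a)) * wl t * Real.exp (-(c2 * a * t))) (by fun_prop) hML ?_
    intro t ht
    have e : y0 - cexp (gam * I) - t * cexp (gam * I) =
        y0 + ((-(15 * (1 + t) / 17) : ℝ) + (8 * (1 + t) / 17 : ℝ) * I) := by
      rw [exp_gam]; push_cast; ring
    rw [e]
    refine gen _ _ _ _ _ _ (hleft t ht) (hwl _ t ht ?_ ?_)
    · have : (((-(15 * (1 + t) / 17) : ℝ) : ℂ) + (8 * (1 + t) / 17 : ℝ) * I) = ((1 + t : ℝ) : ℂ) * -cexp (gam * I) := by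
        rw [exp_gam]; push_cast; ring
      rw [this, norm_mul, norm_neg, Complex.norm_exp_ofReal_mul_I, Complex.norm_real, Real.norm_of_nonneg (by linarith),
        mul_one]
    · simp only [Complex.add_im, Complex.ofReal_im, Complex.im_ofReal_mul, Complex.I_im]
      rw [mul_one, zero_add]; positivity
  -- right
  have hRt : ‖V - P (y0 + cexp (gam * I))‖ ≤ MR := by
    have hc : Continuous (fun t => M0 * Real.exp (-(7 / 20 * a)) * wr t * Real.exp (-(4 / 5 * a * t))) := by fun_prop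
    have ray : ∀ t : ℝ, 0 ≤ t → (t = 0 ∨ θ + R + 15 * (1 + t) / 17 ≤ Real.pi / 2) →
        ‖H (y0 + cexp (gam * I) + t * cexp (gam * I))‖ ≤
          M0 * Real.exp (-(7 / 20 * a)) * wr t * Real.exp (-(4 / 5 * a * t)) := by
      intro t ht htφ
      have e : y0 + cexp (gam * I) + t * cexp (gam * I) =
          y0 + ((15 * (1 + t) / 17 : ℝ) + (-(8 * (1 + t) / 17) : ℝ) * I) := by
        rw [exp_gam]; push_cast; ring
      rw [e]
      refine gen _ _ _ _ _ _ (gre_right hn hR1 hh1 h0 hRc hφ0 ht htφ) (hwr _ t ht ?_ ?_)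
      · have : (((15 * (1 + t) / 17 : ℝ) : ℂ) + (-(8 * (1 + t) / 17) : ℝ) * I) = ((1 + t : ℝ) : ℂ) * cexp (gam * I) := by
          rw [exp_gam]; push_cast; ring
        rw [this, norm_mul, Complex.norm_exp_ofReal_mul_I, Complex.norm_real, Real.norm_of_nonneg (by linarith),
          mul_one]
      · simp only [Complex.add_im, Complex.ofReal_im, Complex.im_ofReal_mul, Complex.I_im]
        rw [mul_one, zero_add, neg_neg]; linarith
    have nrm : ∀ X Y : ℝ, 0 ≤ X → 0 ≤ Y → ∀ s v : ℝ, 0 ≤ s → 0 ≤ v → X = 15 * s / 17 → Y = 8 * s / 17 →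
        ‖(X : ℂ) + (-(Y + v) : ℝ) * I‖ ≤ s + v := by
      intro X Y _ _ s v hs0 hv hX hY
      have : (X : ℂ) + (-(Y + v) : ℝ) * I = (s : ℂ) * cexp (gam * I) + (v : ℂ) * -I := by
        rw [exp_gam, hX, hY]; push_cast; ring
      rw [this]
      refine (norm_add_le _ _).trans ?_
      rw [norm_mul, norm_mul, norm_neg, Complex.norm_I, Complex.norm_exp_ofReal_mul_I, Complex.norm_real,
        Complex.norm_real, Real.norm_of_nonneg hs0, Real.norm_of_nonneg hv, mul_one, mul_one]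
    rcases le_total (Real.pi / 2) (θ + R + 15 / 17) with hc1 | hc1
    · -- cut at `t = 1`
      have hnc : nc R h ≤ 0 := by
        have a2 : nc R h = β * r * Real.exp (-h) * Real.cos (θ + R + 15 / 17) := by
          unfold nc; rw [Real.cos_add]
          linear_combination Real.cos (15 / 17) * hR1 - Real.sin (15 / 17) * hh1
        rw [a2]
        refine mul_nonpos_of_nonneg_of_nonpos hn.le (Real.cos_nonpos_of_pi_div_two_le_of_le hc1 (by linarith))
      refine hp.two_leg (y0 + cexp (gam * I)) (cexp (gam * I)) (Complex.norm_exp_ofReal_mul_I _) (l := 0) le_rfl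
        (S := θ + R + 15 / 17) (b := h - 8 / 17) ?_ hc1 (by linarith) (lt_min hθ1 hθ2) hc hMR
        (fun t ht0 ht1 => ray t ht0 (Or.inl (le_antisymm ht1 ht0))) (fun v hv => ?_)
      · rw [hy0, exp_gam]; push_cast; ring
      · have e : ((θ + R + 15 / 17 : ℝ) : ℂ) + (h - 8 / 17 - v : ℝ) * I =
            y0 + ((15 / 17 : ℝ) + (-(8 / 17 + v) : ℝ) * I) := by rw [hy0]; push_cast; ring
        rw [e, zero_add]
        refine gen _ _ _ _ _ _ (gre_vertA h0 hRc hnc hv) (hwr _ v hv ?_ ?_)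
        · exact nrm (15 / 17) (8 / 17) (by norm_num) (by norm_num) 1 v zero_le_one hv (by norm_num) (by norm_num)
        · simp only [Complex.add_im, Complex.ofReal_im, Complex.im_ofReal_mul, Complex.I_im]
          rw [mul_one, zero_add, neg_neg]; linarith
    · obtain ⟨l, hl⟩ : ∃ l, l = (Real.pi / 2 - (θ + R)) * (17 / 15) - 1 := ⟨_, rfl⟩
      have hl0 : 0 ≤ l := by rw [hl]; linarith
      have hφl : θ + R + 15 * (1 + l) / 17 = Real.pi / 2 := by rw [hl]; ring
      refine hp.two_leg (y0 + cexp (gam * I)) (cexp (gam * I)) (Complex.norm_exp_ofReal_mul_I _) (l := l) hl0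
        (S := Real.pi / 2) (b := h - 8 * (1 + l) / 17) ?_ le_rfl (by linarith) (lt_min (by linarith) hθ2) hc hMR
        (fun t ht0 ht1 => ray t ht0 (Or.inr (by linarith))) (fun v hv => ?_)
      · rw [hy0, exp_gam, ← hφl]; push_cast; ring
      · have e : ((Real.pi / 2 : ℝ) : ℂ) + (h - 8 * (1 + l) / 17 - v : ℝ) * I =
            y0 + ((15 * (1 + l) / 17 : ℝ) + (-(8 * (1 + l) / 17 + v) : ℝ) * I) := by
          rw [hy0, ← hφl]; push_cast; ring
        rw [e]
        refine gen _ _ _ _ _ _ (gre_vertB hn hR1 hh1 h0 hRc hφ0 hl0 hφl hv) (hwr _ (l + v) (by linarith) ?_ ?_)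
        · have := nrm (15 * (1 + l) / 17) (8 * (1 + l) / 17) (by positivity) (by positivity) (1 + l) v (by linarith) hv
            (by ring) (by ring)
          linarith
        · simp only [Complex.add_im, Complex.ofReal_im, Complex.im_ofReal_mul, Complex.I_im]
          rw [mul_one, zero_add, neg_neg]; linarith
  -- assembly
  have hseg := hp.segment y0 (cexp (gam * I)) (-1) 1
  have e1 : y0 + ((1 : ℝ) : ℂ) * cexp (gam * I) = y0 + cexp (gam * I) := by push_cast; ring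
  have e2 : y0 + ((-1 : ℝ) : ℂ) * cexp (gam * I) = y0 - cexp (gam * I) := by push_cast; ring
  rw [e1, e2] at hseg
  rw [hseg, hp.XL_eq]
  have e3 : V - lL - (P (y0 + cexp (gam * I)) - P (y0 - cexp (gam * I))) =
      (P (y0 - cexp (gam * I)) - lL) + (V - P (y0 + cexp (gam * I))) := by ring
  rw [e3]
  exact (norm_add_le _ _).trans (add_le_add hL hRt)

end Sok.W
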