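import Pool.Agent.Lib.MP_816dec_an.LPath

/-!
MP_816dec_an, b = 1, `1.3 ≤ κ ≤ 4.7`: `XL (KK)` and its first moment by the saddle point method.
-/

set_option autoImplicit false

open Complex Set Filter Topology MeasureTheory

namespace Sok.W

theorem gauss_two {a : ℝ} (ha : 0 < a) :
    ∫ t : ℝ, |t| ^ 2 * Real.exp (-(a / 2) * t ^ 2) = Real.sqrt (2 * Real.pi) / (a * Real.sqrt a) := by
  have ha2 : 0 < a / 2 := by positivity
  rw [integral_sq_gauss ha2]
  have h0 : ((2 : ℕ) : ℝ) + 1 = 3 := by norm_num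
  have hG : Real.Gamma (3 / 2) = (1 / 2) * Real.Gamma (1 / 2) := by
    rw [show (3 / 2 : ℝ) = 1 / 2 + 1 by norm_num, Real.Gamma_add_one (by norm_num)]
  rw [h0, hG, Real.Gamma_one_half_eq]
  have h1 : (a / 2) ^ (-(3:ℝ) / 2) = 1 / ((a / 2) * Real.sqrt (a / 2)) := by
    rw [show (-(3:ℝ) / 2) = -(1 + 1 / 2) by norm_num, Real.rpow_neg ha2.le, Real.rpow_add ha2, ← Real.sqrt_eq_rpow,
      one_div, Real.rpow_one]
  rw [h1, Real.sqrt_div ha.le, Real.sqrt_mul (by norm_num)]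
  have h2 : Real.sqrt 2 * Real.sqrt 2 = 2 := Real.mul_self_sqrt (by norm_num)
  have h3 : Real.sqrt 2 ≠ 0 := by positivity
  have h4 : Real.sqrt a ≠ 0 := by positivity
  field_simp

/-- an even majorant plus an odd one -/
theorem central_q {f : ℝ → ℂ} {A B b : ℝ} (hb : 0 < b) (hA : 0 ≤ A)
    (h : ∀ t : ℝ, |t| ≤ 1 → ‖f t‖ ≤ (A * |t| ^ 2 + B * (t * |t|)) * Real.exp (-(b / 2) * t ^ 2)) :
    ‖∫ t in (-1:ℝ)..1, f t‖ ≤ A * (Real.sqrt (2 * Real.pi) / (b * Real.sqrt b)) := by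
  have h11 : (-1:ℝ) ≤ 1 := by norm_num
  have c1 : Continuous (fun t : ℝ => A * (|t| ^ 2 * Real.exp (-(b / 2) * t ^ 2))) := by fun_prop
  have c2 : Continuous (fun t : ℝ => B * (t * |t|) * Real.exp (-(b / 2) * t ^ 2)) := by fun_prop
  have h1 : ‖∫ t in (-1:ℝ)..1, f t‖ ≤ ∫ t in (-1:ℝ)..1, (A * (|t| ^ 2 * Real.exp (-(b / 2) * t ^ 2)) +
      B * (t * |t|) * Real.exp (-(b / 2) * t ^ 2)) := by
    refine intervalIntegral.norm_integral_le_of_norm_le h11 (Filter.Eventually.of_forall fun t ht => ?_)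
      ((c1.add c2).intervalIntegrable _ _)
    refine (h t (abs_le.2 ⟨ht.1.le, ht.2⟩)).trans (le_of_eq (by ring))
  rw [intervalIntegral.integral_add (c1.intervalIntegrable _ _) (c2.intervalIntegrable _ _)] at h1
  have hodd : (∫ t in (-1:ℝ)..1, B * (t * |t|) * Real.exp (-(b / 2) * t ^ 2)) = 0 := by
    have h2 := intervalIntegral.integral_comp_neg (a := -1) (b := 1)
      (fun t : ℝ => B * (t * |t|) * Real.exp (-(b / 2) * t ^ 2))
    rw [neg_neg] at h2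
    have h3 : (∫ t in (-1:ℝ)..1, B * (-t * |-t|) * Real.exp (-(b / 2) * (-t) ^ 2)) =
        -(∫ t in (-1:ℝ)..1, B * (t * |t|) * Real.exp (-(b / 2) * t ^ 2)) := by
      rw [← intervalIntegral.integral_neg]
      refine intervalIntegral.integral_congr (fun t _ => ?_)
      show _ = _
      rw [abs_neg, neg_sq]
      ring
    rw [h3] at h2
    linarith
  rw [hodd, add_zero, intervalIntegral.integral_const_mul] at h1
  refine h1.trans (mul_le_mul_of_nonneg_left ?_ hA)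
  rw [← gauss_two hb, intervalIntegral.integral_of_le h11]
  have hI := integrable_abs_pow_gauss 2 (b := b / 2) (by positivity)
  refine setIntegral_le_integral hI (Filter.Eventually.of_forall (fun t => ?_))
  show 0 ≤ |t| ^ 2 * Real.exp (-(b / 2) * t ^ 2)
  positivity

theorem gam_seg : SegBd gam 1 0.1883 0.04593 := by
  have e2 : Real.exp (8 / 17) ≤ 1.600936 := by
    refine le_trans (Real.exp_bound' (x := 8 / 17) (by norm_num) (by norm_num) (n := 9) (by norm_num)) ?_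
    norm_num [Finset.sum_range_succ, Nat.factorial]
  refine segBd_of (X := 8 / 17) (by norm_num) ?_ ?_ ?_
  · rw [sin_gam, abs_neg, abs_of_pos (by norm_num)]; norm_num
  · refine le_trans (sub_le_sub_right (sub_le_sub_right (sub_le_sub_right e2 _) _) _) ?_
    norm_num
  · refine le_trans (sub_le_sub_right (sub_le_sub_right (sub_le_sub_right (sub_le_sub_right e2 _) _) _) _) ?_
    norm_num

/-- second derivative of the phase along the path -/
noncomputable def Lam (β : ℝ) (L : ℂ) : ℂ := (I + L) / β * cexp (2 * gam * I)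

theorem Lam_re (β R h : ℝ) : (Lam β (R + h * I)).re = al R h / β := by
  unfold Lam
  have e1 : cexp (2 * gam * I) = cexp (gam * I) ^ 2 := by
    rw [← Complex.exp_nat_mul]; congr 1; push_cast; ring
  have e2 : (I + (R + h * I)) / β * cexp (gam * I) ^ 2 =
      (((R * (161 / 289) + (1 + h) * (240 / 289)) / β : ℝ) : ℂ) +
        ((((1 + h) * (161 / 289) - R * (240 / 289)) / β : ℝ) : ℂ) * I := by
    rw [exp_gam]
    push_cast
    have := Complex.I_sq
    rcases eq_or_ne (β : ℂ) 0 with hb | hb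
    · simp [hb]
    · field_simp
      ring_nf
      rw [show I ^ 3 = -I by rw [pow_succ, Complex.I_sq]; ring, this]
      ring
  rw [e1, e2]
  rw [Complex.add_re, Complex.re_ofReal_mul, Complex.I_re, mul_zero, add_zero, Complex.ofReal_re]
  unfold al
  ring

theorem norm_Lam {β : ℝ} (hβ : 0 < β) (L : ℂ) : ‖Lam β L‖ = ‖1 - I * L‖ / β := by
  unfold Lam
  have e : I + L = I * (1 - I * L) := by linear_combination L * Complex.I_sq
  have e2 : cexp (2 * gam * I) = cexp (((2 * gam : ℝ) : ℂ) * I) := by push_cast; rfl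
  rw [norm_mul, e2, Complex.norm_exp_ofReal_mul_I, mul_one, norm_div, Complex.norm_real, Real.norm_of_nonneg hβ.le, e,
    norm_mul, Complex.norm_I, one_mul]

/-- the central part of `XL KK` -/
theorem central_zero {β r θ R h : ℝ} (hβ : 0 < β) (hs : Sad β r θ (R + h * I)) (hal : 0 < al R h) {c : ℝ} (hc : 0 < c)
    (hc1 : c ≤ 1) (hcc : 2 * 0.1883 * ‖(R + h * I : ℂ)‖ ≤ (1 - c) * al R h) :
    ‖cexp (gam * I) * ∫ t in (-1:ℝ)..1, KK β r θ (θ + (R + h * I) + t * cexp (gam * I))‖ ≥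
      Real.exp (R * (1 + h) / β) * (Real.sqrt (2 * Real.pi * β / ‖1 - I * (R + h * I : ℂ)‖) -
        (3 * Real.sqrt (2 * Real.pi) * (‖(R + h * I : ℂ)‖ / β * 0.04593) / ((al R h / β) ^ 2 * Real.sqrt (al R h / β)) +
        15 / 2 * Real.sqrt (2 * Real.pi) * (‖(R + h * I : ℂ)‖ / β * 0.1883) ^ 2 /
          ((c * (al R h / β)) ^ 3 * Real.sqrt (c * (al R h / β))) +
        2 * (Real.exp (-(al R h / β / 2) * 1 ^ 2) / (al R h / β * 1)))) := by
  obtain ⟨L, hL⟩ : ∃ L : ℂ, L = R + h * I := ⟨_, rfl⟩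
  have ha : 0 < (Lam β L).re := by rw [hL, Lam_re]; positivity
  have hval := sad_value (x0 := L) (Λ := Lam β L) (c := c) hβ rfl ha hc hc1 one_pos (by norm_num) gam_seg
    (fun t ht => hre_of hβ gam_seg (by norm_num) (by
      rw [hL, Lam_re, ← hL]
      rw [← hL] at hcc
      have : (1 - c) * (al R h / β) = ((1 - c) * al R h) / β := by ring
      rw [this, le_div_iff₀ hβ]
      have : 2 * (‖L‖ / β) * 0.1883 * 1 * β = 2 * 0.1883 * ‖L‖ := by field_simp
      rw [this]; exact hcc) t ht)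
  rw [hL, Lam_re, ← hL] at hval
  have hseg := KU_seg hβ.ne' (L := L) (θ := θ) (r := r) (by rw [hL]; exact hs) 0 (cexp (gam * I)) (-1) 1
  simp only [pow_zero, one_mul, pow_one, zero_add] at hseg
  have hKU : ∀ y : ℂ, KU β r θ L 0 y = KK β r θ y := fun y => by simp [KU]
  simp only [hKU] at hseg
  rw [← hL, hseg, norm_mul, norm_mul, Complex.norm_exp_ofReal_mul_I, one_mul, hL, norm_E, ← hL]
  refine mul_le_mul_of_nonneg_left ?_ (Real.exp_pos _).le
  have hN : ‖(2 * Real.pi / Lam β L : ℂ) ^ (1 / 2 : ℂ)‖ = Real.sqrt (2 * Real.pi * β / ‖1 - I * L‖) := by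
    have h1 : (1 / 2 : ℂ) = ((1 / 2 : ℝ) : ℂ) := by push_cast; rfl
    have hpos : 0 < ‖1 - I * L‖ := by
      rw [norm_pos_iff]
      intro h0
      have h2 := norm_Lam hβ L
      rw [h0, norm_zero, zero_div, norm_eq_zero] at h2
      rw [h2] at ha
      simp at ha
    rw [h1, Complex.norm_cpow_real, norm_div, norm_mul, norm_Lam hβ, ← Real.sqrt_eq_rpow]
    congr 1
    rw [Complex.norm_real, Real.norm_of_nonneg Real.pi_pos.le]
    have : ‖(2:ℂ)‖ = 2 := by simp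
    rw [this]
    field_simp
  have h3 := norm_sub_norm_le ((2 * Real.pi / Lam β L : ℂ) ^ (1 / 2 : ℂ))
    ((2 * Real.pi / Lam β L : ℂ) ^ (1 / 2 : ℂ) - ∫ t in (-1:ℝ)..1, cexp (Psi L (t * cexp (gam * I)) / β))
  rw [sub_sub_cancel, hN] at h3
  rw [norm_sub_rev] at hval
  linarith

theorem re_Psi_central {β R h : ℝ} (hβ : 0 < β) {c : ℝ}
    (hcc : 2 * 0.1883 * ‖(R + h * I : ℂ)‖ ≤ (1 - c) * al R h) {t : ℝ} (ht : |t| ≤ 1) :
    (Psi (R + h * I) (t * cexp (gam * I)) / β).re ≤ -(c * (al R h / β) / 2) * t ^ 2 := by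
  rw [Psi_line _ hβ.ne', Complex.add_re]
  have h1 := hre_of (x0 := R + h * I) (a := al R h / β) (c := c) hβ gam_seg (by norm_num) (by
      have : (1 - c) * (al R h / β) = ((1 - c) * al R h) / β := by ring
      rw [this, le_div_iff₀ hβ]
      have : 2 * (‖(R + h * I : ℂ)‖ / β) * 0.1883 * 1 * β = 2 * 0.1883 * ‖(R + h * I : ℂ)‖ := by field_simp
      rw [this]; exact hcc) t ht
  have h2 : (-(((I + (R + h * I)) / β * cexp (2 * gam * I)) / 2) * (t : ℂ) ^ 2).re = -(al R h / β / 2) * t ^ 2 := by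
    have := Lam_re β R h
    unfold Lam at this
    rw [← Complex.ofReal_pow, Complex.re_mul_ofReal]
    congr 1
    rw [Complex.neg_re]
    congr 1
    have e : ((I + (R + h * I)) / β * cexp (2 * gam * I)) / 2 = ((I + (R + h * I)) / β * cexp (2 * gam * I)) / (2 : ℝ) := by
      push_cast; rfl
    rw [e, Complex.div_ofReal_re, this]
  rw [h2]
  linarith

theorem norm_mw_gam {t : ℝ} : |t| ≤ 1 →
    ‖mw (t * cexp (gam * I))‖ ≤ (1 / 4 + 0.5887 / 2) * |t| ^ 2 + (0.5887 / 2 - 1 / 4) * (t * |t|) := by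
  intro ht
  have hn : ‖(t : ℂ) * cexp (gam * I)‖ = |t| := by
    rw [norm_mul, Complex.norm_exp_ofReal_mul_I, mul_one, Complex.norm_real, Real.norm_eq_abs]
  have him : ((t : ℂ) * cexp (gam * I)).im = -(8 / 17) * t := by
    rw [Complex.im_ofReal_mul, exp_gam, Complex.add_im, Complex.ofReal_im, Complex.im_ofReal_mul, Complex.I_im]
    ring
  rcases le_total t 0 with h | h
  · have h1 := norm_mw_le (u := t * cexp (gam * I)) (by rw [him]; linarith)
    rw [hn] at h1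
    rw [abs_of_nonpos h] at h1 ⊢
    linarith
  · have e2 : Real.exp (8 / 17) ≤ 1.600936 := by
      refine le_trans (Real.exp_bound' (x := 8 / 17) (by norm_num) (by norm_num) (n := 9) (by norm_num)) ?_
      norm_num [Finset.sum_range_succ, Nat.factorial]
    rw [abs_of_nonneg h] at ht
    have h1 := norm_mw_mul_le (t * cexp (gam * I)) (X := 8 / 17) (by norm_num) (by rw [him]; linarith)
    rw [hn] at h1
    rw [abs_of_nonneg h] at h1 ⊢
    have h2 : t ^ 2 * (Real.exp (8 / 17) - 1 - 8 / 17) ≤ t ^ 2 * (1.600936 - 1 - 8 / 17) :=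
      mul_le_mul_of_nonneg_left (by linarith) (sq_nonneg t)
    nlinarith [sq_nonneg t]

/-- the central part of `XL Kq` -/
theorem central_one {β r θ R h : ℝ} (hβ : 0 < β) (hs : Sad β r θ (R + h * I)) (hal : 0 < al R h) {c : ℝ} (hc : 0 < c)
    (hcc : 2 * 0.1883 * ‖(R + h * I : ℂ)‖ ≤ (1 - c) * al R h) :
    ‖cexp (gam * I) * ∫ t in (-1:ℝ)..1, Kq β r θ (R + h * I) (θ + (R + h * I) + t * cexp (gam * I))‖ ≤
      Real.exp (R * (1 + h) / β) * ((1 / 4 + 0.5887 / 2) *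
        (Real.sqrt (2 * Real.pi) / (c * (al R h / β) * Real.sqrt (c * (al R h / β))))) := by
  have hb : 0 < c * (al R h / β) := by positivity
  rw [norm_mul, Complex.norm_exp_ofReal_mul_I, one_mul]
  obtain ⟨M0, hM0⟩ : ∃ M0, M0 = Real.exp (R * (1 + h) / β) := ⟨_, rfl⟩
  have hM : 0 < M0 := by rw [hM0]; exact Real.exp_pos _
  rw [← hM0]
  have h1 := central_q (f := fun t : ℝ => Kq β r θ (R + h * I) (θ + (R + h * I) + t * cexp (gam * I)))
    (A := M0 * (1 / 4 + 0.5887 / 2)) (B := M0 * (0.5887 / 2 - 1 / 4)) hb (by positivity) ?_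
  · refine h1.trans (le_of_eq (by ring))
  · intro t ht
    show ‖Kq β r θ (R + h * I) (θ + (R + h * I) + t * cexp (gam * I))‖ ≤ _
    have e : Kq β r θ (R + h * I) (θ + (R + h * I) + t * cexp (gam * I)) =
        mw (t * cexp (gam * I)) * (cexp (((R + h * I : ℂ) - I * (R + h * I : ℂ) ^ 2 / 2) / β) *
          cexp (Psi (R + h * I) (t * cexp (gam * I)) / β)) := by
      rw [← KK_saddle hβ.ne' hs]
      unfold Kq
      congr 2
      ring
    rw [e, norm_mul, norm_mul, norm_E, ← hM0, Complex.norm_exp (Psi _ _ / β)]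
    have h2 := norm_mw_gam ht
    have h3 := Real.exp_le_exp.2 (re_Psi_central (R := R) (h := h) hβ hcc ht)
    calc _ ≤ ((1 / 4 + 0.5887 / 2) * |t| ^ 2 + (0.5887 / 2 - 1 / 4) * (t * |t|)) *
          (M0 * Real.exp (-(c * (al R h / β) / 2) * t ^ 2)) :=
          mul_le_mul h2 (mul_le_mul_of_nonneg_left h3 hM.le) (mul_nonneg hM.le (Real.exp_pos _).le)
            ((norm_nonneg _).trans h2)
      _ = _ := by ring

/-- sizes of the error terms in terms of `u = (β/al)^{1/2}` -/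
theorem sizes {a u g n ρ t sc w c1 c2 E1 E2 E5 : ℝ} (hu : 0 < u) (ha : a = 1 / u ^ 2) (hg : 0 < g) (hn0 : 0 ≤ n)
    (hn : n ≤ ρ * a) (hut : u ^ 2 ≤ t) (ht1 : t < 4 / 5) (hsc : 0 < sc) (hw : u ≤ g * w)
    (hc1 : 0 ≤ c1) (hc2 : 0 < c2) (hE1 : Real.exp (-(c1 / t)) ≤ E1) (hE2 : Real.exp (-(7 / 20 / t)) ≤ E2)
    (hE5 : Real.exp (-(1 / 2 / t)) ≤ E5) :
    (3 * g * (n * 0.04593) / (a ^ 2 * Real.sqrt a) +
        15 / 2 * g * (n * 0.1883) ^ 2 / ((sc ^ 2 * a) ^ 3 * Real.sqrt (sc ^ 2 * a)) +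
        2 * (Real.exp (-(a / 2) * 1 ^ 2) / (a * 1)) +
        (Real.exp (-(c1 * a)) / (c2 * a) + Real.exp (-(7 / 20 * a)) / (4 / 5 * a)) ≤
      g * u * (t * (3 * 0.04593 * ρ + 15 / 2 * (0.1883 * ρ) ^ 2 / sc ^ 7) + w * (2 * E5 + E1 / c2 + E2 / (4 / 5)))) ∧
    ((1 / 4 + 0.5887 / 2) * (g / (sc ^ 2 * a * Real.sqrt (sc ^ 2 * a))) +
        (Real.exp (-(c1 * a)) * (1 / (2 * (c2 * a)) + 1 / (c2 * a) ^ 2 + 1 / (c2 * a) ^ 3) +
        Real.exp (-(7 / 20 * a)) *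
          (4 * (Real.exp (1 / 2) / (4 / 5 * a - 1) - 3 / (2 * (4 / 5 * a)) - 1 / (4 / 5 * a) ^ 2))) ≤
      g * u * (t * (1 / 4 + 0.5887 / 2) / sc ^ 3 + w * (E1 * (1 / (2 * c2) + t / c2 ^ 2 + t ^ 2 / c2 ^ 3) +
        E2 * (4 * (1.6488 / (4 / 5 - t) - 15 / 8 - 25 / 16 * t))))) := by
  have hu2 : 0 < u ^ 2 := by positivity
  have ht : 0 < t := lt_of_lt_of_le hu2 hut
  have ha0 : 0 < a := by rw [ha]; positivity
  have hsqa : Real.sqrt a = 1 / u := by
    rw [ha, show 1 / u ^ 2 = (1 / u) ^ 2 by rw [div_pow, one_pow], Real.sqrt_sq (by positivity)]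
  have hsqc : Real.sqrt (sc ^ 2 * a) = sc / u := by
    rw [ha, show sc ^ 2 * (1 / u ^ 2) = (sc / u) ^ 2 by rw [div_pow]; ring, Real.sqrt_sq (by positivity)]
  have hua : u ^ 2 * a = 1 := by rw [ha]; field_simp
  have hnn : n * u ^ 2 ≤ ρ := by
    have h1 := mul_le_mul_of_nonneg_right hn hu2.le
    have h2 : ρ * a * u ^ 2 = ρ := by rw [mul_assoc, mul_comm a, hua, mul_one]
    linarith
  have hn2 : 0 ≤ n * u ^ 2 := by positivity
  have hρ : 0 ≤ ρ := hn2.trans hnn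
  -- exponentials
  have hta : 1 / t ≤ a := by
    rw [ha]; exact one_div_le_one_div_of_le hu2 hut
  have ex : ∀ c E : ℝ, 0 ≤ c → Real.exp (-(c / t)) ≤ E → Real.exp (-(c * a)) ≤ E := by
    intro c E hc hE
    refine le_trans (Real.exp_le_exp.2 ?_) hE
    have : c * (1 / t) ≤ c * a := mul_le_mul_of_nonneg_left hta hc
    have e : c / t = c * (1 / t) := by ring
    rw [e]; linarith
  have x1 := ex c1 E1 hc1 hE1
  have x2 := ex (7 / 20) E2 (by norm_num) hE2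
  have x5 := ex (1 / 2) E5 (by norm_num) hE5
  have hE1p : 0 ≤ E1 := (Real.exp_pos _).le.trans x1
  have hE2p : 0 ≤ E2 := (Real.exp_pos _).le.trans x2
  have hE5p : 0 ≤ E5 := (Real.exp_pos _).le.trans x5
  have hw0 : 0 ≤ w := by
    by_contra hneg
    rw [not_le] at hneg
    have := mul_neg_of_pos_of_neg hg hneg
    linarith
  have huu : u ^ 2 ≤ g * u * w := by nlinarith
  constructor
  · have t1 : 3 * g * (n * 0.04593) / (a ^ 2 * Real.sqrt a) ≤ g * u * (t * (3 * 0.04593 * ρ)) := by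
      have e : 3 * g * (n * 0.04593) / (a ^ 2 * Real.sqrt a) = g * u * (3 * 0.04593 * (u ^ 2 * (n * u ^ 2))) := by
        rw [hsqa, ha]; field_simp
      rw [e]
      refine mul_le_mul_of_nonneg_left ?_ (by positivity)
      have : u ^ 2 * (n * u ^ 2) ≤ t * ρ := mul_le_mul hut hnn hn2 ht.le
      nlinarith
    have t2 : 15 / 2 * g * (n * 0.1883) ^ 2 / ((sc ^ 2 * a) ^ 3 * Real.sqrt (sc ^ 2 * a)) ≤
        g * u * (t * (15 / 2 * (0.1883 * ρ) ^ 2 / sc ^ 7)) := by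
      have e : 15 / 2 * g * (n * 0.1883) ^ 2 / ((sc ^ 2 * a) ^ 3 * Real.sqrt (sc ^ 2 * a)) =
          g * u * (15 / 2 * 0.1883 ^ 2 * (u ^ 2 * (n * u ^ 2) ^ 2) / sc ^ 7) := by
        rw [hsqc, ha]; field_simp
      rw [e]
      refine mul_le_mul_of_nonneg_left ?_ (by positivity)
      have h1 : (n * u ^ 2) ^ 2 ≤ ρ ^ 2 := pow_le_pow_left₀ hn2 hnn 2
      have h2 : u ^ 2 * (n * u ^ 2) ^ 2 ≤ t * ρ ^ 2 := mul_le_mul hut h1 (by positivity) ht.le
      have h3 : t * (15 / 2 * (0.1883 * ρ) ^ 2 / sc ^ 7) = 15 / 2 * 0.1883 ^ 2 * (t * ρ ^ 2) / sc ^ 7 := by ring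
      rw [h3]
      refine div_le_div_of_nonneg_right ?_ (by positivity)
      exact mul_le_mul_of_nonneg_left h2 (by norm_num)
    have t3 : 2 * (Real.exp (-(a / 2) * 1 ^ 2) / (a * 1)) ≤ g * u * (w * (2 * E5)) := by
      have e : 2 * (Real.exp (-(a / 2) * 1 ^ 2) / (a * 1)) = 2 * Real.exp (-(1 / 2 * a)) * u ^ 2 := by
        rw [show -(a / 2) * 1 ^ 2 = -(1 / 2 * a) by ring, ha]; field_simp
      rw [e]
      calc 2 * Real.exp (-(1 / 2 * a)) * u ^ 2 ≤ 2 * E5 * (g * u * w) :=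
            mul_le_mul (by linarith) huu hu2.le (by positivity)
        _ = _ := by ring
    have t4 : Real.exp (-(c1 * a)) / (c2 * a) ≤ g * u * (w * (E1 / c2)) := by
      have e : Real.exp (-(c1 * a)) / (c2 * a) = Real.exp (-(c1 * a)) / c2 * u ^ 2 := by
        rw [div_mul_eq_div_div, div_eq_mul_inv _ a]
        congr 1
        rw [ha]; field_simp
      rw [e]
      calc Real.exp (-(c1 * a)) / c2 * u ^ 2 ≤ E1 / c2 * (g * u * w) :=
            mul_le_mul (div_le_div_of_nonneg_right x1 hc2.le) huu hu2.le (by positivity)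
        _ = _ := by ring
    have t5 : Real.exp (-(7 / 20 * a)) / (4 / 5 * a) ≤ g * u * (w * (E2 / (4 / 5))) := by
      have e : Real.exp (-(7 / 20 * a)) / (4 / 5 * a) = Real.exp (-(7 / 20 * a)) / (4 / 5) * u ^ 2 := by
        rw [div_mul_eq_div_div, div_eq_mul_inv _ a]
        congr 1
        rw [ha]; field_simp
      rw [e]
      calc Real.exp (-(7 / 20 * a)) / (4 / 5) * u ^ 2 ≤ E2 / (4 / 5) * (g * u * w) :=
            mul_le_mul (div_le_div_of_nonneg_right x2 (by norm_num)) huu hu2.le (by positivity)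
        _ = _ := by ring
    have e : g * u * (t * (3 * 0.04593 * ρ + 15 / 2 * (0.1883 * ρ) ^ 2 / sc ^ 7) + w * (2 * E5 + E1 / c2 + E2 / (4 / 5))) =
        g * u * (t * (3 * 0.04593 * ρ)) + g * u * (t * (15 / 2 * (0.1883 * ρ) ^ 2 / sc ^ 7)) + g * u * (w * (2 * E5)) +
        (g * u * (w * (E1 / c2)) + g * u * (w * (E2 / (4 / 5)))) := by ring
    rw [e]
    exact add_le_add (add_le_add (add_le_add t1 t2) t3) (add_le_add t4 t5)
  · have t1 : (1 / 4 + 0.5887 / 2) * (g / (sc ^ 2 * a * Real.sqrt (sc ^ 2 * a))) ≤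
        g * u * (t * (1 / 4 + 0.5887 / 2) / sc ^ 3) := by
      have e : (1 / 4 + 0.5887 / 2) * (g / (sc ^ 2 * a * Real.sqrt (sc ^ 2 * a))) =
          g * u * (u ^ 2 * (1 / 4 + 0.5887 / 2) / sc ^ 3) := by
        rw [hsqc, ha]; field_simp
      rw [e]
      refine mul_le_mul_of_nonneg_left ?_ (by positivity)
      refine div_le_div_of_nonneg_right ?_ (by positivity)
      exact mul_le_mul_of_nonneg_right hut (by norm_num)
    have t2 : Real.exp (-(c1 * a)) * (1 / (2 * (c2 * a)) + 1 / (c2 * a) ^ 2 + 1 / (c2 * a) ^ 3) ≤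
        g * u * (w * (E1 * (1 / (2 * c2) + t / c2 ^ 2 + t ^ 2 / c2 ^ 3))) := by
      have e : Real.exp (-(c1 * a)) * (1 / (2 * (c2 * a)) + 1 / (c2 * a) ^ 2 + 1 / (c2 * a) ^ 3) =
          Real.exp (-(c1 * a)) * (u ^ 2 * (1 / (2 * c2) + u ^ 2 / c2 ^ 2 + (u ^ 2) ^ 2 / c2 ^ 3)) := by
        congr 1
        rw [ha]; field_simp
      rw [e]
      have h1 : 1 / (2 * c2) + u ^ 2 / c2 ^ 2 + (u ^ 2) ^ 2 / c2 ^ 3 ≤ 1 / (2 * c2) + t / c2 ^ 2 + t ^ 2 / c2 ^ 3 := by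
        have h2 : (u ^ 2) ^ 2 ≤ t ^ 2 := pow_le_pow_left₀ hu2.le hut 2
        gcongr
      calc Real.exp (-(c1 * a)) * (u ^ 2 * (1 / (2 * c2) + u ^ 2 / c2 ^ 2 + (u ^ 2) ^ 2 / c2 ^ 3)) ≤
          E1 * ((g * u * w) * (1 / (2 * c2) + t / c2 ^ 2 + t ^ 2 / c2 ^ 3)) :=
            mul_le_mul x1 (mul_le_mul huu h1 (by positivity) (by positivity)) (by positivity) hE1p
        _ = _ := by ring
    have t3 : Real.exp (-(7 / 20 * a)) *
          (4 * (Real.exp (1 / 2) / (4 / 5 * a - 1) - 3 / (2 * (4 / 5 * a)) - 1 / (4 / 5 * a) ^ 2)) ≤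
        g * u * (w * (E2 * (4 * (1.6488 / (4 / 5 - t) - 15 / 8 - 25 / 16 * t)))) := by
      have hden : 0 < 4 / 5 - u ^ 2 := by linarith
      have hden2 : 0 < 4 / 5 - t := by linarith
      have e : 4 * (Real.exp (1 / 2) / (4 / 5 * a - 1) - 3 / (2 * (4 / 5 * a)) - 1 / (4 / 5 * a) ^ 2) =
          u ^ 2 * (4 * (Real.exp (1 / 2) / (4 / 5 - u ^ 2) - 15 / 8 - 25 / 16 * u ^ 2)) := by
        have e1 : 4 / 5 * a - 1 = (4 / 5 - u ^ 2) / u ^ 2 := by rw [ha]; field_simp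
        rw [e1, ha]
        field_simp
        ring
      have he : Real.exp (1 / 2) ≤ 1.6488 := by
        refine le_trans (Real.exp_bound' (x := 1 / 2) (by norm_num) (by norm_num) (n := 8) (by norm_num)) ?_
        norm_num [Finset.sum_range_succ, Nat.factorial]
      have hel : 1 ≤ Real.exp (1 / 2) := Real.one_le_exp (by norm_num)
      have h1 : 4 * (Real.exp (1 / 2) / (4 / 5 - u ^ 2) - 15 / 8 - 25 / 16 * u ^ 2) ≤
          4 * (1.6488 / (4 / 5 - t) - 15 / 8 - 25 / 16 * t) := by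
        have h2 : Real.exp (1 / 2) / (4 / 5 - u ^ 2) ≤ 1.6488 / (4 / 5 - u ^ 2) := div_le_div_of_nonneg_right he hden.le
        have h3 : 25 / 16 * (t - u ^ 2) ≤ 1.6488 / (4 / 5 - t) - 1.6488 / (4 / 5 - u ^ 2) := by
          have h4 : 1.6488 / (4 / 5 - t) - 1.6488 / (4 / 5 - u ^ 2) =
              1.6488 * (t - u ^ 2) / ((4 / 5 - t) * (4 / 5 - u ^ 2)) := by
            rw [div_sub_div _ _ hden2.ne' hden.ne']
            congr 1
            ring
          rw [h4, le_div_iff₀ (mul_pos hden2 hden)]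
          have h5 : (4 / 5 - t) * (4 / 5 - u ^ 2) ≤ 4 / 5 * (4 / 5) :=
            mul_le_mul (by linarith) (by linarith) hden.le (by norm_num)
          have h6 : 0 ≤ t - u ^ 2 := by linarith
          nlinarith
        linarith
      have h0 : 0 ≤ 4 * (1.6488 / (4 / 5 - t) - 15 / 8 - 25 / 16 * t) := by
        have h2 : 1.6488 / (4 / 5 - t) ≥ 15 / 8 + 25 / 16 * t := by
          rw [ge_iff_le, le_div_iff₀ hden2]
          nlinarith
        linarith
      rw [e]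
      calc Real.exp (-(7 / 20 * a)) * (u ^ 2 * (4 * (Real.exp (1 / 2) / (4 / 5 - u ^ 2) - 15 / 8 - 25 / 16 * u ^ 2))) ≤
          Real.exp (-(7 / 20 * a)) * (u ^ 2 * (4 * (1.6488 / (4 / 5 - t) - 15 / 8 - 25 / 16 * t))) := by
            refine mul_le_mul_of_nonneg_left ?_ (Real.exp_pos _).le
            exact mul_le_mul_of_nonneg_left h1 hu2.le
        _ ≤ E2 * ((g * u * w) * (4 * (1.6488 / (4 / 5 - t) - 15 / 8 - 25 / 16 * t))) :=
            mul_le_mul x2 (mul_le_mul_of_nonneg_right huu h0) (by positivity) hE2p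
        _ = _ := by ring
    have e : g * u * (t * (1 / 4 + 0.5887 / 2) / sc ^ 3 + w * (E1 * (1 / (2 * c2) + t / c2 ^ 2 + t ^ 2 / c2 ^ 3) +
        E2 * (4 * (1.6488 / (4 / 5 - t) - 15 / 8 - 25 / 16 * t)))) =
        g * u * (t * (1 / 4 + 0.5887 / 2) / sc ^ 3) +
        (g * u * (w * (E1 * (1 / (2 * c2) + t / c2 ^ 2 + t ^ 2 / c2 ^ 3))) +
        g * u * (w * (E2 * (4 * (1.6488 / (4 / 5 - t) - 15 / 8 - 25 / 16 * t))))) := by ring
    rw [e]
    exact add_le_add t1 (add_le_add t2 t3)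

/-- **core**: the saddle point estimate with all constants as parameters -/
theorem XG_core {β r θ R h : ℝ} (hβ : 0 < β) (hr : 0 < r) (hs : Sad β r θ (R + h * I)) (h0 : 0 ≤ h) (hal : 0 < al R h)
    (hRc : -14 / 100 ≤ R ∨ (-3 / 5 ≤ R ∧ 11 / 20 ≤ h)) (hφ0 : 0 ≤ θ + R) (hφ1 : θ + R ≤ Real.pi)
    (hβR : β < R + 15 / 17) (hθπ : θ + β < Real.pi) {c1 c2 : ℝ} (hc1 : 0 ≤ c1) (hc2 : 0 < c2)
    (hleft : ∀ d : ℝ, 0 ≤ d → gre R h (-(15 * (1 + d) / 17)) (8 * (1 + d) / 17) ≤ -(al R h * (c1 + c2 * d)))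
    {ρ sq sqm t sc w E1 E2 E5 : ℝ} (ht1 : t < 4 / 5) (hsc : 0 < sc) (hsc1 : sc ≤ 1) (hw0 : 0 ≤ w) (hsqm : 0 < sqm)
    (hρ0 : 0 < ρ)
    (hρ : ‖(R + h * I : ℂ)‖ ≤ ρ * al R h) (hq : ‖1 - I * (R + h * I : ℂ)‖ ≤ sq ^ 2 * al R h) (hsq0 : 0 ≤ sq)
    (hqm : sqm ^ 2 * al R h ≤ ‖1 - I * (R + h * I : ℂ)‖) (htβ : β ≤ t * al R h)
    (hc : sc ^ 2 ≤ 1 - 2 * 0.1883 * ρ) (hw2 : t ≤ w ^ 2 * 6.283)
    (hE1 : Real.exp (-(c1 / t)) ≤ E1) (hE2 : Real.exp (-(7 / 20 / t)) ≤ E2) (hE5 : Real.exp (-(1 / 2 / t)) ≤ E5)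
    (hfin : ρ * (t * (1 / 4 + 0.5887 / 2) / sc ^ 3 + w * (E1 * (1 / (2 * c2) + t / c2 ^ 2 + t ^ 2 / c2 ^ 3) +
        E2 * (4 * (1.6488 / (4 / 5 - t) - 15 / 8 - 25 / 16 * t)))) / sqm +
      sq / 2 * (t * (3 * 0.04593 * ρ + 15 / 2 * (0.1883 * ρ) ^ 2 / sc ^ 7) + w * (2 * E5 + E1 / c2 + E2 / (4 / 5))) ≤
      1 / 2) :
    XL (KK β r θ) ≠ 0 ∧ ‖XL (K1 β r θ) / XL (KK β r θ) - (R + h * I)‖ ≤ 1 / 2 := by
  obtain ⟨M0, hM0⟩ : ∃ M0, M0 = Real.exp (R * (1 + h) / β) := ⟨_, rfl⟩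
  have hM : 0 < M0 := by rw [hM0]; exact Real.exp_pos _
  obtain ⟨a, ha⟩ : ∃ a, a = al R h / β := ⟨_, rfl⟩
  have ha0 : 0 < a := by rw [ha]; positivity
  obtain ⟨u, hu⟩ : ∃ u, u = Real.sqrt (β / al R h) := ⟨_, rfl⟩
  have hu0 : 0 < u := by rw [hu]; exact Real.sqrt_pos.2 (by positivity)
  have hu2 : u ^ 2 = β / al R h := by rw [hu, Real.sq_sqrt (by positivity)]
  obtain ⟨g, hg⟩ : ∃ g, g = Real.sqrt (2 * Real.pi) := ⟨_, rfl⟩
  have hg0 : 0 < g := by rw [hg]; exact Real.sqrt_pos.2 (by positivity)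
  have hg2 : g ^ 2 = 2 * Real.pi := by rw [hg, Real.sq_sqrt (by positivity)]
  obtain ⟨n, hn⟩ : ∃ n, n = ‖(R + h * I : ℂ)‖ := ⟨_, rfl⟩
  obtain ⟨m, hm⟩ : ∃ m, m = ‖1 - I * (R + h * I : ℂ)‖ := ⟨_, rfl⟩
  have hn0 : 0 ≤ n := by rw [hn]; exact norm_nonneg _
  have hau : a = 1 / u ^ 2 := by rw [hu2, ha, one_div_div]
  have hut : u ^ 2 ≤ t := by rw [hu2, div_le_iff₀ hal]; exact htβ
  have ht0 : 0 < t := lt_of_lt_of_le (by positivity) hut
  have hcc : 2 * 0.1883 * ‖(R + h * I : ℂ)‖ ≤ (1 - sc ^ 2) * al R h := by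
    have h1 : 2 * 0.1883 * ‖(R + h * I : ℂ)‖ ≤ 2 * 0.1883 * (ρ * al R h) := mul_le_mul_of_nonneg_left hρ (by norm_num)
    have h2 : 2 * 0.1883 * ρ * al R h ≤ (1 - sc ^ 2) * al R h := mul_le_mul_of_nonneg_right (by linarith) hal.le
    linarith
  have hsc2 : 0 < sc ^ 2 := by positivity
  have hsc21 : sc ^ 2 ≤ 1 := pow_le_one₀ hsc.le hsc1
  have k2a : 1 < 4 / 5 * a := by
    rw [hau]
    have : 1 / t ≤ 1 / u ^ 2 := one_div_le_one_div_of_le (by positivity) hut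
    have h1 : 5 / 4 < 1 / t := by rw [lt_div_iff₀ ht0]; linarith
    linarith
  have hwg : u ≤ g * w := by
    have h1 : u ^ 2 ≤ (g * w) ^ 2 := by
      rw [mul_pow, hg2]
      have := Real.pi_gt_d6
      nlinarith [sq_nonneg w]
    exact (pow_le_pow_iff_left₀ hu0.le (by positivity) (by norm_num)).1 h1
  -- the two functions
  obtain ⟨P, lL, V, lR, hp⟩ := exists_Pk_KK hβ hr θ
  obtain ⟨P', lL', V', lR', hp', _, _⟩ := exists_Pk_Kq hβ hr θ (R + h * I)
  have hH0 : ∀ X Y : ℝ, ‖KK β r θ (θ + (R + h * I) + (X + Y * I))‖ ≤ 1 * (M0 * Real.exp (gre R h X Y / β)) := by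
    intro X Y
    have h1 := norm_KU hβ.ne' hs 0 X Y
    simp only [KU, pow_zero, one_mul] at h1
    rw [h1, hM0, one_mul]
  have hH1 : ∀ X Y : ℝ, ‖Kq β r θ (R + h * I) (θ + (R + h * I) + (X + Y * I))‖ ≤
      ‖mw (X + Y * I)‖ * (M0 * Real.exp (gre R h X Y / β)) := by
    intro X Y
    have h2 := hH0 X Y
    rw [one_mul] at h2
    unfold Kq
    rw [norm_mul, show (θ : ℂ) + (R + h * I) + (X + Y * I) - (θ + (R + h * I)) = X + Y * I by ring]
    exact mul_le_mul_of_nonneg_left h2 (norm_nonneg _)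
  have T0 := XL_tails hβ hr hs h0 hRc hφ0 hφ1 (θ' := θ) (by linarith) (by linarith) hleft hp hM.le (W := fun _ => 1)
    (fun _ => zero_le_one) hH0 (wl := fun _ => 1) (wr := fun _ => 1) continuous_const continuous_const
    (fun _ _ _ _ _ => le_rfl) (fun _ _ _ _ _ => le_rfl)
    (ML := M0 * Real.exp (-(c1 * (al R h / β))) / (c2 * (al R h / β)))
    (MR := M0 * Real.exp (-(7 / 20 * (al R h / β))) / (4 / 5 * (al R h / β)))
    (fun x hx => by
      simp only [mul_one]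
      exact int_T0 hx (by positivity) (by positivity))
    (fun x hx => by
      simp only [mul_one]
      exact int_T0 hx (by positivity) (by positivity))
  have T1 := XL_tails hβ hr hs h0 hRc hφ0 hφ1 (θ' := θ + β) (by linarith) hθπ hleft hp' hM.le (W := fun u => ‖mw u‖)
    (fun _ => norm_nonneg _) hH1 (wl := fun t => (1 + t) ^ 2 / 2)
    (wr := fun t => 4 * (Real.exp (1 / 2 + t) - 1 - (1 / 2 + t))) (by fun_prop) (by fun_prop)
    (fun u t ht hu1 hu2 => by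
      refine (norm_mw_le hu2).trans ?_
      have := pow_le_pow_left₀ (norm_nonneg u) hu1 2
      exact div_le_div_of_nonneg_right this (by norm_num))
    (fun u t ht hu1 hu2 => norm_mw_le_four (by linarith) hu2 (by linarith))
    (ML := M0 * Real.exp (-(c1 * (al R h / β))) *
      (1 / (2 * (c2 * (al R h / β))) + 1 / (c2 * (al R h / β)) ^ 2 + 1 / (c2 * (al R h / β)) ^ 3))
    (MR := M0 * Real.exp (-(7 / 20 * (al R h / β))) *
      (4 * (Real.exp (1 / 2) / (4 / 5 * (al R h / β) - 1) - 3 / (2 * (4 / 5 * (al R h / β))) - 1 / (4 / 5 * (al R h / β)) ^ 2)))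
    (fun x hx => int_T2 hx (by positivity) (by positivity))
    (fun x hx => int_T4 hx (by rw [← ha]; exact k2a) (by positivity))
  have C0 := central_zero hβ hs hal (c := sc ^ 2) hsc2 hsc21 hcc
  have C1 := central_one hβ hs hal (c := sc ^ 2) hsc2 hcc
  have hna : n / β ≤ ρ * a := by
    rw [div_le_iff₀ hβ, ha, hn]
    refine hρ.trans (le_of_eq ?_)
    field_simp
  obtain ⟨S0, S1⟩ := sizes (a := a) (u := u) (g := g) (n := n / β) (ρ := ρ) (t := t) (sc := sc) (w := w) (c1 := c1)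
    (c2 := c2) (E1 := E1) (E2 := E2) (E5 := E5) hu0 hau hg0 (by positivity) hna hut ht1 hsc hwg hc1 hc2 hE1 hE2 hE5
  rw [← hM0, ← ha, ← hg, ← hn, ← hm] at C0
  rw [← hM0, ← ha, ← hg] at C1
  rw [← ha] at T0 T1
  obtain ⟨Jt, hJt⟩ : ∃ Jt, Jt = t * (3 * 0.04593 * ρ + 15 / 2 * (0.1883 * ρ) ^ 2 / sc ^ 7) +
    w * (2 * E5 + E1 / c2 + E2 / (4 / 5)) := ⟨_, rfl⟩
  obtain ⟨St, hSt⟩ : ∃ St, St = t * (1 / 4 + 0.5887 / 2) / sc ^ 3 + w * (E1 * (1 / (2 * c2) + t / c2 ^ 2 + t ^ 2 / c2 ^ 3) +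
        E2 * (4 * (1.6488 / (4 / 5 - t) - 15 / 8 - 25 / 16 * t))) := ⟨_, rfl⟩
  rw [← hJt] at S0 hfin
  rw [← hSt] at S1 hfin
  -- q
  have hm0 : 0 < m := by
    rw [hm]; refine lt_of_lt_of_le ?_ hqm; positivity
  obtain ⟨q, hq'⟩ : ∃ q, q = Real.sqrt (m / al R h) := ⟨_, rfl⟩
  have hq0 : 0 < q := by rw [hq']; exact Real.sqrt_pos.2 (by positivity)
  have hq2 : q ^ 2 = m / al R h := by rw [hq', Real.sq_sqrt (by positivity)]
  have hm2 : m = q ^ 2 * al R h := by rw [hq2]; field_simp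
  have hqsq : q ≤ sq := by
    refine (pow_le_pow_iff_left₀ hq0.le hsq0 (by norm_num : (2:ℕ) ≠ 0)).1 ?_
    rw [hq2, div_le_iff₀ hal, hm]; exact hq
  have hqsqm : sqm ≤ q := by
    refine (pow_le_pow_iff_left₀ hsqm.le hq0.le (by norm_num : (2:ℕ) ≠ 0)).1 ?_
    rw [hq2, le_div_iff₀ hal, hm]; exact hqm
  have hN : Real.sqrt (2 * Real.pi * β / m) = g * u / q := by
    have h1 : 2 * Real.pi * β / m = (g * u / q) ^ 2 := by
      rw [div_pow, mul_pow, hg2, hu2, hm2]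
      field_simp
    rw [h1, Real.sqrt_sq (by positivity)]
  rw [hN] at C0
  -- positivity of the constants
  have hE1p : 0 ≤ E1 := (Real.exp_pos _).le.trans hE1
  have hE2p : 0 ≤ E2 := (Real.exp_pos _).le.trans hE2
  have hE5p : 0 ≤ E5 := (Real.exp_pos _).le.trans hE5
  have hJ0 : 0 ≤ Jt := by rw [hJt]; positivity
  have hS0 : 0 < St := by
    rw [hSt]
    have h1 : 0 ≤ 4 * (1.6488 / (4 / 5 - t) - 15 / 8 - 25 / 16 * t) := by
      have h2 : 1.6488 / (4 / 5 - t) ≥ 15 / 8 + 25 / 16 * t := by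
        rw [ge_iff_le, le_div_iff₀ (by linarith)]
        nlinarith
      linarith
    have h3 : 0 < t * (1 / 4 + 0.5887 / 2) / sc ^ 3 := by positivity
    have h4 : 0 ≤ w * (E1 * (1 / (2 * c2) + t / c2 ^ 2 + t ^ 2 / c2 ^ 3) +
        E2 * (4 * (1.6488 / (4 / 5 - t) - 15 / 8 - 25 / 16 * t))) := by positivity
    linarith
  have hfin2 : ρ * St / q + q / 2 * Jt ≤ 1 / 2 := by
    refine le_trans (add_le_add ?_ ?_) hfin
    · exact div_le_div_of_nonneg_left (by positivity) hsqm hqsqm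
    · exact mul_le_mul_of_nonneg_right (by linarith) hJ0
  have hgu : 0 < g * u := by positivity
  have hJ : g * u * Jt < g * u / q := by
    rw [lt_div_iff₀ hq0, mul_assoc]
    have h1 : 0 < ρ * St / q := by positivity
    have h2 : Jt * q < 1 := by nlinarith
    calc g * u * (Jt * q) < g * u * 1 := mul_lt_mul_of_pos_left h2 hgu
      _ = g * u := mul_one _
  refine quot_of hβ hr hs (M0 := M0) (N := g * u / q) (J := g * u * Jt) (S1 := g * u * St) hM hJ ?_ ?_ ?_ ?_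
  · -- lower bound of XL KK
    have h1 := norm_sub_norm_le (cexp (gam * I) * ∫ t in (-1:ℝ)..1, KK β r θ (θ + (R + h * I) + t * cexp (gam * I)))
      (cexp (gam * I) * (∫ t in (-1:ℝ)..1, KK β r θ (θ + (R + h * I) + t * cexp (gam * I))) - XL (KK β r θ))
    rw [sub_sub_cancel, norm_sub_rev _ (XL (KK β r θ))] at h1
    have h2 : M0 * (Real.exp (-(c1 * a)) / (c2 * a) + Real.exp (-(7 / 20 * a)) / (4 / 5 * a)) =
        M0 * Real.exp (-(c1 * a)) / (c2 * a) + M0 * Real.exp (-(7 / 20 * a)) / (4 / 5 * a) := by ring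
    have h3 := mul_le_mul_of_nonneg_left S0 hM.le
    linarith
  · have h1 := norm_sub_norm_le (XL (Kq β r θ (R + h * I)))
      (cexp (gam * I) * ∫ t in (-1:ℝ)..1, Kq β r θ (R + h * I) (θ + (R + h * I) + t * cexp (gam * I)))
    have h3 := mul_le_mul_of_nonneg_left S1 hM.le
    linarith
  · rw [← hm]; exact hm0
  · rw [← hm, ← hn]
    have h1 : n ≤ ρ * al R h := by rw [hn]; exact hρ
    have h2 : ρ * St ≤ 1 / 2 * (q - q ^ 2 * Jt) := by
      have h3 := mul_le_mul_of_nonneg_right hfin2 hq0.le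
      have h4 : (ρ * St / q + q / 2 * Jt) * q = ρ * St + q ^ 2 / 2 * Jt := by field_simp
      rw [h4] at h3
      linarith
    calc n * (g * u * St) ≤ ρ * al R h * (g * u * St) := mul_le_mul_of_nonneg_right h1 (by positivity)
      _ = (al R h * (g * u)) * (ρ * St) := by ring
      _ ≤ (al R h * (g * u)) * (1 / 2 * (q - q ^ 2 * Jt)) := mul_le_mul_of_nonneg_left h2 (by positivity)
      _ = 1 / 2 * (g * u / q - g * u * Jt) * m := by
        rw [hm2]; field_simp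

end Sok.W
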