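import Pool.Agent.Lib.MP_816dec_an.SadKK
import Pool.Agent.Lib.MP_816dec_an.LDefs

/-!
MP_816dec_an, b = 1, `1.3 ≤ κ ≤ 4.7`: the exponent on the legs of the right part.
-/

set_option autoImplicit false

open Complex Set Filter Topology MeasureTheory

namespace Sok

open W

/-- `SadY` as a complex saddle -/
theorem SadY.sad {β r θ R₁ g α : ℝ} (hy : SadY (β * r) θ R₁ g α) : Sad β r θ ((R₁ : ℂ) + ((-g : ℝ) : ℂ) * I) := by
  unfold Sad
  have e1 : cexp (I * (θ + ((R₁ : ℂ) + ((-g : ℝ) : ℂ) * I))) =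
      ((Real.exp g : ℝ) : ℂ) * (((Real.cos α : ℝ) : ℂ) - ((Real.sin α : ℝ) : ℂ) * I) := by
    have e2 : I * (θ + ((R₁ : ℂ) + ((-g : ℝ) : ℂ) * I)) = ((g : ℝ) : ℂ) + (((2 * Real.pi - α : ℝ) : ℂ)) * I := by
      rw [hy.hα]
      push_cast
      linear_combination (-(g : ℂ)) * Complex.I_sq
    rw [e2, Complex.exp_add, Complex.exp_mul_I, ← Complex.ofReal_cos, ← Complex.ofReal_sin, Real.cos_two_pi_sub,
      Real.sin_two_pi_sub]
    push_cast
    ring
  rw [e1]
  have h1 := congrArg (fun x : ℝ => (x : ℂ)) hy.eR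
  have h2 := congrArg (fun x : ℝ => (x : ℂ)) hy.eg
  have e3 : (β : ℂ) * (r * (((Real.exp g : ℝ) : ℂ) * (((Real.cos α : ℝ) : ℂ) - ((Real.sin α : ℝ) : ℂ) * I))) =
      ((β * r * Real.exp g * Real.cos α : ℝ) : ℂ) - ((β * r * Real.exp g * Real.sin α : ℝ) : ℂ) * I := by
    push_cast; ring
  rw [e3, ← h1, ← h2]
  push_cast
  ring

theorem SadX.sad {β r θ R h : ℝ} (hs : SadX (β * r) θ R h) : Sad β r θ ((R : ℂ) + (h : ℂ) * I) := by
  unfold Sad
  have e1 : cexp (I * (θ + ((R : ℂ) + (h : ℂ) * I))) =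
      ((Real.exp (-h) : ℝ) : ℂ) * (((Real.cos (θ + R) : ℝ) : ℂ) + ((Real.sin (θ + R) : ℝ) : ℂ) * I) := by
    have e2 : I * (θ + ((R : ℂ) + (h : ℂ) * I)) = ((-h : ℝ) : ℂ) + (((θ + R : ℝ) : ℂ)) * I := by
      push_cast
      linear_combination (h : ℂ) * Complex.I_sq
    rw [e2, Complex.exp_add, Complex.exp_mul_I, ← Complex.ofReal_cos, ← Complex.ofReal_sin]
    push_cast
    ring
  rw [e1]
  have h1 := congrArg (fun x : ℝ => (x : ℂ)) hs.eR
  have h2 := congrArg (fun x : ℝ => (x : ℂ)) hs.eh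
  have e3 : (β : ℂ) * (r * (((Real.exp (-h) : ℝ) : ℂ) * (((Real.cos (θ + R) : ℝ) : ℂ) + ((Real.sin (θ + R) : ℝ) : ℂ) * I))) =
      ((β * r * Real.exp (-h) * Real.cos (θ + R) : ℝ) : ℂ) + ((β * r * Real.exp (-h) * Real.sin (θ + R) : ℝ) : ℂ) * I := by
    push_cast; ring
  rw [e3, ← h1, ← h2]

/-! ### numerical facts at the right saddle -/

theorem SadY.cos_ge {κ θ R₁ g α : ℝ} (hy : SadY κ θ R₁ g α) : 957 / 1000 ≤ Real.cos α := by
  have h1 := Real.one_sub_sq_div_two_le_cos (x := α)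
  nlinarith [hy.α0, hy.α1]

theorem SadY.R_pos {κ θ R₁ g α : ℝ} (hy : SadY κ θ R₁ g α) (hκ : 13 / 10 ≤ κ) : 1244 / 1000 ≤ R₁ := by
  have h1 := hy.cos_ge
  have h2 : 1 ≤ Real.exp g := Real.one_le_exp hy.g0
  rw [hy.eR]
  have h3 : κ * 1 ≤ κ * Real.exp g := mul_le_mul_of_nonneg_left h2 (by linarith)
  nlinarith

theorem SadY.sin_nonneg {κ θ R₁ g α : ℝ} (hy : SadY κ θ R₁ g α) : 0 ≤ Real.sin α :=
  Real.sin_nonneg_of_nonneg_of_le_pi hy.α0 (by linarith [hy.α1, Real.pi_gt_three])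

theorem SadY.g_le {κ θ R₁ g α : ℝ} (hy : SadY κ θ R₁ g α) (hκ : 0 < κ) : g ≤ 1045 / 1000 * α * R₁ := by
  have h1 := hy.cos_ge
  have h2 := Real.sin_le hy.α0
  have h3 : 0 ≤ κ * Real.exp g := by positivity
  rw [hy.eR]
  nth_rewrite 1 [hy.eg]
  have h4 : Real.sin α ≤ 1045 / 1000 * α * Real.cos α := by nlinarith [hy.α0]
  calc κ * Real.exp g * Real.sin α ≤ κ * Real.exp g * (1045 / 1000 * α * Real.cos α) := mul_le_mul_of_nonneg_left h4 h3
    _ = _ := by ring

theorem SadY.g_le' {κ θ R₁ g α : ℝ} (hy : SadY κ θ R₁ g α) (hκ : 13 / 10 ≤ κ) : g ≤ 3031 / 10000 * R₁ := by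
  have h1 := hy.g_le (by linarith)
  have h2 := hy.R_pos hκ
  nlinarith [hy.α1]

/-- `κ e^g = R₁ cos α + g sin α` -/
theorem SadY.L_eq {κ θ R₁ g α : ℝ} (hy : SadY κ θ R₁ g α) : R₁ * Real.cos α + g * Real.sin α = κ * Real.exp g := by
  have h1 := hy.eR
  have h2 := hy.eg
  have h3 := Real.sin_sq_add_cos_sq α
  calc R₁ * Real.cos α + g * Real.sin α = κ * Real.exp g * Real.cos α * Real.cos α + κ * Real.exp g * Real.sin α * Real.sin α := by
        rw [← h1, ← h2]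
    _ = κ * Real.exp g * (Real.sin α ^ 2 + Real.cos α ^ 2) := by ring
    _ = _ := by rw [h3]; ring

theorem SadY.R_le {κ θ R₁ g α : ℝ} (hy : SadY κ θ R₁ g α) (hκ : 0 < κ) : R₁ ≤ κ * Real.exp g := by
  rw [hy.eR]
  have := Real.cos_le_one α
  have h3 : 0 ≤ κ * Real.exp g := by positivity
  nlinarith

/-! ### the legs -/

/-- A1: the valley `Re y = π` -/
theorem greY_A1 {κ θ R₁ g α : ℝ} (hy : SadY κ θ R₁ g α) (hκ : 13 / 10 ≤ κ) {t : ℝ} (ht : 0 ≤ t) :
    gre R₁ (-g) (-(Real.pi - α)) (-t) ≤ -(53 / 100 * R₁ + 1 / 2 * R₁ * t) := by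
  have hpi := Real.pi_lt_d4
  have hR := hy.R_pos hκ
  have hg := hy.g_le (by linarith)
  have hL := hy.L_eq
  have hRL := hy.R_le (by linarith)
  have e : gre R₁ (-g) (-(Real.pi - α)) (-t) =
      (Real.pi - α) * t - Real.exp t * (κ * Real.exp g) - R₁ - R₁ * t + g * (Real.pi - α) := by
    unfold gre
    rw [← hL, Real.cos_neg, Real.sin_neg, Real.cos_pi_sub, Real.sin_pi_sub, neg_neg]
    ring
  rw [e]
  have h1 : 1 + t + t ^ 2 / 2 ≤ Real.exp t := Real.quadratic_le_exp_of_nonneg ht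
  have h2 : R₁ * (1 + t + t ^ 2 / 2) ≤ Real.exp t * (κ * Real.exp g) := by
    calc R₁ * (1 + t + t ^ 2 / 2) ≤ (κ * Real.exp g) * Real.exp t :=
          mul_le_mul hRL h1 (by positivity) (by linarith)
      _ = _ := by ring
  have h3 : g * (Real.pi - α) ≤ 8645 / 10000 * R₁ := by
    have h4 : α * (Real.pi - α) ≤ 8271 / 10000 := by nlinarith [hy.α0, hy.α1]
    have h5 : 0 ≤ Real.pi - α := by linarith [hy.α1, Real.pi_gt_three]
    calc g * (Real.pi - α) ≤ (1045 / 1000 * α * R₁) * (Real.pi - α) := mul_le_mul_of_nonneg_right hg h5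
      _ = 1045 / 1000 * R₁ * (α * (Real.pi - α)) := by ring
      _ ≤ 1045 / 1000 * R₁ * (8271 / 10000) := mul_le_mul_of_nonneg_left h4 (by linarith)
      _ ≤ _ := by nlinarith
  have h6 : (Real.pi - α) * t ≤ 31416 / 10000 * t := by
    apply mul_le_mul_of_nonneg_right _ ht
    linarith [hy.α0]
  -- R (0.6055 + 1.5 t + t²/2) ≥ π t
  have h7 : 31416 / 10000 * t ≤ R₁ * (6055 / 10000 + 3 / 2 * t + t ^ 2 / 2) := by
    have h8 : 1244 / 1000 * (6055 / 10000 + 3 / 2 * t + t ^ 2 / 2) ≤ R₁ * (6055 / 10000 + 3 / 2 * t + t ^ 2 / 2) :=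
      mul_le_mul_of_nonneg_right hR (by positivity)
    nlinarith [sq_nonneg (t - 1)]
  nlinarith

/-- A2: the horizontal line to the left of the saddle -/
theorem greY_A2 {κ θ R₁ g α : ℝ} (hy : SadY κ θ R₁ g α) (hκ : 13 / 10 ≤ κ) {t : ℝ} (ht : 0 ≤ t)
    (ht' : 6 / 5 + t ≤ Real.pi) :
    gre R₁ (-g) (-(6 / 5 + t)) 0 ≤ -(54 / 100 * R₁ + 1 / 4 * R₁ * t) := by
  have hpi := Real.pi_lt_d4
  have hpi' := Real.pi_gt_d4
  have hR := hy.R_pos hκ
  have hg := hy.g_le' hκ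
  obtain ⟨s, hs⟩ : ∃ s : ℝ, s = 6 / 5 + t := ⟨_, rfl⟩
  rw [← hs] at ht' ⊢
  have hts : t = s - 6 / 5 := by linarith
  have e : gre R₁ (-g) (-s) 0 = -(R₁ * (1 - Real.cos s)) + g * (s - Real.sin s) := by
    unfold gre
    rw [Real.cos_neg, Real.sin_neg, neg_zero, Real.exp_zero]
    ring
  rw [e, hts]
  have hs0 : 6 / 5 ≤ s := by linarith
  have h1 : 0 ≤ s - Real.sin s := by have := Real.sin_le (by linarith : 0 ≤ s); linarith
  have h2 : g * (s - Real.sin s) ≤ 3031 / 10000 * R₁ * (s - Real.sin s) := mul_le_mul_of_nonneg_right hg h1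
  -- the real inequality
  have key : 54 / 100 + 1 / 4 * (s - 6 / 5) ≤ (1 - Real.cos s) - 3031 / 10000 * (s - Real.sin s) := by
    rcases le_total s (Real.pi / 2) with hc | hc
    · obtain ⟨x, hx⟩ : ∃ x : ℝ, x = Real.pi / 2 - s := ⟨_, rfl⟩
      have hsx : s = Real.pi / 2 - x := by linarith
      have hx0 : 0 ≤ x := by linarith
      have hx1 : x ≤ 371 / 1000 := by linarith
      rw [hsx, Real.cos_pi_div_two_sub, Real.sin_pi_div_two_sub]
      have h3 := Real.sin_le hx0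
      have h4 := Real.one_sub_sq_div_two_le_cos (x := x)
      nlinarith
    · obtain ⟨x, hx⟩ : ∃ x : ℝ, x = Real.pi - s := ⟨_, rfl⟩
      have hsx : s = Real.pi - x := by linarith
      have hx0 : 0 ≤ x := by linarith
      have hx1 : x ≤ Real.pi / 2 := by linarith
      rw [hsx, Real.cos_pi_sub, Real.sin_pi_sub]
      have h3 := Real.mul_le_sin hx0 hx1
      have h4 := Real.one_sub_mul_le_cos hx0 hx1
      have h5 : 2 / Real.pi ≤ 6367 / 10000 := by rw [div_le_iff₀ Real.pi_pos]; linarith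
      have h6 : 6366 / 10000 ≤ 2 / Real.pi := by rw [le_div_iff₀ Real.pi_pos]; linarith
      nlinarith [mul_le_mul_of_nonneg_right h5 hx0, mul_le_mul_of_nonneg_right h6 hx0]
  have h8 := mul_le_mul_of_nonneg_left key (by linarith : 0 ≤ R₁)
  nlinarith

/-- A3: the horizontal line to the right of the saddle -/
theorem greY_A3 {κ θ R₁ g α : ℝ} (hy : SadY κ θ R₁ g α) (hκ : 13 / 10 ≤ κ) {t : ℝ} (ht : 0 ≤ t)
    (ht' : 6 / 5 + t ≤ Real.pi + α) :
    gre R₁ (-g) (6 / 5 + t) 0 ≤ -(62 / 100 * R₁ + 1 / 2 * R₁ * t) := by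
  have hpi := Real.pi_lt_d4
  have hpi' := Real.pi_gt_d4
  have hR := hy.R_pos hκ
  obtain ⟨s, hs⟩ : ∃ s : ℝ, s = 6 / 5 + t := ⟨_, rfl⟩
  rw [← hs] at ht' ⊢
  have hts : t = s - 6 / 5 := by linarith
  have e : gre R₁ (-g) s 0 = -(R₁ * (1 - Real.cos s)) - g * (s - Real.sin s) := by
    unfold gre
    rw [neg_zero, Real.exp_zero]
    ring
  rw [e, hts]
  have hs0 : 6 / 5 ≤ s := by linarith
  have h1 : 0 ≤ s - Real.sin s := by have := Real.sin_le (by linarith : 0 ≤ s); linarith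
  have h2 : 0 ≤ g * (s - Real.sin s) := mul_nonneg hy.g0 h1
  have key : 62 / 100 + 1 / 2 * (s - 6 / 5) ≤ 1 - Real.cos s := by
    rcases le_total s (Real.pi / 2) with hc | hc
    · obtain ⟨x, hx⟩ : ∃ x : ℝ, x = Real.pi / 2 - s := ⟨_, rfl⟩
      have hsx : s = Real.pi / 2 - x := by linarith
      have hx0 : 0 ≤ x := by linarith
      have hx1 : x ≤ 371 / 1000 := by linarith
      rw [hsx, Real.cos_pi_div_two_sub]
      have h3 := Real.sin_le hx0
      nlinarith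
    · rcases le_total s Real.pi with hd | hd
      · obtain ⟨x, hx⟩ : ∃ x : ℝ, x = Real.pi - s := ⟨_, rfl⟩
        have hsx : s = Real.pi - x := by linarith
        have hx0 : 0 ≤ x := by linarith
        have hx1 : x ≤ Real.pi / 2 := by linarith
        rw [hsx, Real.cos_pi_sub]
        have h4 := Real.one_sub_mul_le_cos hx0 hx1
        have h5 : 2 / Real.pi ≤ 6367 / 10000 := by rw [div_le_iff₀ Real.pi_pos]; linarith
        nlinarith [mul_le_mul_of_nonneg_right h5 hx0]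
      · obtain ⟨x, hx⟩ : ∃ x : ℝ, x = s - Real.pi := ⟨_, rfl⟩
        have hsx : s = x + Real.pi := by linarith
        have hx0 : 0 ≤ x := by linarith
        have hx1 : x ≤ 29 / 100 := by linarith [hy.α1]
        rw [hsx, Real.cos_add_pi]
        have h4 := Real.one_sub_sq_div_two_le_cos (x := x)
        nlinarith
  have h8 := mul_le_mul_of_nonneg_left key (by linarith : 0 ≤ R₁)
  nlinarith

/-- A4: the drop at `Re y = 3π` -/
theorem greY_A4 {κ θ R₁ g α : ℝ} (hy : SadY κ θ R₁ g α) (hκ : 13 / 10 ≤ κ) {t : ℝ} (ht : 0 ≤ t) :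
    gre R₁ (-g) (Real.pi + α) (-t) ≤ -R₁ := by
  have hpi := Real.pi_pos
  have hR := hy.R_pos hκ
  have hL := hy.L_eq
  have e : gre R₁ (-g) (Real.pi + α) (-t) =
      -((Real.pi + α) * t) - Real.exp t * (κ * Real.exp g) - R₁ - R₁ * t - g * (Real.pi + α) := by
    unfold gre
    rw [← hL, add_comm Real.pi α, Real.cos_add_pi, Real.sin_add_pi, neg_neg]
    ring
  rw [e]
  have h1 : 0 ≤ (Real.pi + α) * t := mul_nonneg (by linarith [hy.α0]) ht
  have h2 : 0 ≤ Real.exp t * (κ * Real.exp g) := by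
    have : 0 < κ := by linarith
    positivity
  have h3 : 0 ≤ R₁ * t := mul_nonneg (by linarith) ht
  have h4 : 0 ≤ g * (Real.pi + α) := mul_nonneg hy.g0 (by linarith [hy.α0])
  linarith

/-- A5: the exponent right of `Re y = 3π`, depth `G = g + ζ` -/
theorem greY_A5 {κ θ R₁ g α : ℝ} (hy : SadY κ θ R₁ g α) (ζ t : ℝ) :
    gre R₁ (-g) (Real.pi + α + t) (-ζ) =
      -((Real.pi + α + t) * (g + ζ)) - R₁ * (1 + ζ) - κ * Real.exp (g + ζ) * Real.cos t := by
  have hL : R₁ * Real.cos (Real.pi + α + t) + g * Real.sin (Real.pi + α + t) = -(κ * Real.exp g * Real.cos t) := by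
    have h1 : Real.cos (Real.pi + α + t) = -(Real.cos α * Real.cos t - Real.sin α * Real.sin t) := by
      rw [show Real.pi + α + t = (α + t) + Real.pi by ring, Real.cos_add_pi, Real.cos_add]
    have h2 : Real.sin (Real.pi + α + t) = -(Real.sin α * Real.cos t + Real.cos α * Real.sin t) := by
      rw [show Real.pi + α + t = (α + t) + Real.pi by ring, Real.sin_add_pi, Real.sin_add]
    have h3 := hy.eR
    have h4 := hy.eg
    have h5 := Real.sin_sq_add_cos_sq α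
    rw [h1, h2]
    calc R₁ * -(Real.cos α * Real.cos t - Real.sin α * Real.sin t) + g * -(Real.sin α * Real.cos t + Real.cos α * Real.sin t)
        = κ * Real.exp g * Real.cos α * -(Real.cos α * Real.cos t - Real.sin α * Real.sin t) +
          κ * Real.exp g * Real.sin α * -(Real.sin α * Real.cos t + Real.cos α * Real.sin t) := by rw [← h3, ← h4]
      _ = -(κ * Real.exp g * (Real.sin α ^ 2 + Real.cos α ^ 2) * Real.cos t) := by ring
      _ = _ := by rw [h5]; ring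
  have e : gre R₁ (-g) (Real.pi + α + t) (-ζ) = -((Real.pi + α + t) * (g + ζ)) - R₁ * (1 + ζ) +
      Real.exp ζ * (R₁ * Real.cos (Real.pi + α + t) + g * Real.sin (Real.pi + α + t)) := by
    unfold gre
    rw [neg_neg]
    ring
  rw [e, hL, Real.exp_add]
  ring

/-- `κ (1 - cos α) ≤ .0533`, `κ e^g (1 - cos α) ≤ .15 g` -/
theorem SadY.one_sub_cos {κ θ R₁ g α : ℝ} (hy : SadY κ θ R₁ g α) (hκ : 13 / 10 ≤ κ) :
    κ * (1 - Real.cos α) ≤ 54 / 1000 ∧ κ * Real.exp g * (1 - Real.cos α) ≤ 15 / 100 * g := by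
  have h1 := hy.cos_ge
  have h2 := Real.sin_sq_add_cos_sq α
  have h3 := hy.sin_nonneg
  have h4 : Real.sin α ≤ 29 / 100 := (Real.sin_le hy.α0).trans hy.α1
  -- 1 - cos = sin² / (1 + cos)
  have h5 : 1 - Real.cos α ≤ Real.sin α ^ 2 * (511 / 1000) := by nlinarith
  have h6 : g * Real.exp (-g) ≤ Real.exp (-1) := by
    have h7 := Real.add_one_le_exp (g - 1)
    have h8 : Real.exp (-1) = Real.exp (g - 1) * Real.exp (-g) := by rw [← Real.exp_add]; congr 1; ring
    rw [h8]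
    exact mul_le_mul_of_nonneg_right (by linarith) (Real.exp_pos _).le
  have h9 : κ * Real.sin α = g * Real.exp (-g) := by
    have h10 : Real.exp g * Real.exp (-g) = 1 := by rw [← Real.exp_add]; simp
    calc κ * Real.sin α = κ * (Real.exp g * Real.exp (-g)) * Real.sin α := by rw [h10]; ring
      _ = (κ * Real.exp g * Real.sin α) * Real.exp (-g) := by ring
      _ = _ := by rw [← hy.eg]
  have h11 : κ * Real.sin α ≤ 3679 / 10000 := by
    rw [h9]
    have := Real.exp_neg_one_lt_d9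
    linarith
  constructor
  · have h12 : κ * (1 - Real.cos α) ≤ (κ * Real.sin α) * (Real.sin α * (511 / 1000)) := by
      calc κ * (1 - Real.cos α) ≤ κ * (Real.sin α ^ 2 * (511 / 1000)) := mul_le_mul_of_nonneg_left h5 (by linarith)
        _ = _ := by ring
    have h13 : (κ * Real.sin α) * (Real.sin α * (511 / 1000)) ≤ 3679 / 10000 * (Real.sin α * (511 / 1000)) :=
      mul_le_mul_of_nonneg_right h11 (by positivity)
    have h14 : Real.sin α ≤ 284 / 1000 := by nlinarith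
    nlinarith
  · have h12 : κ * Real.exp g * (1 - Real.cos α) ≤ (κ * Real.exp g * Real.sin α) * (Real.sin α * (511 / 1000)) := by
      have : 0 ≤ κ * Real.exp g := by positivity
      calc κ * Real.exp g * (1 - Real.cos α) ≤ κ * Real.exp g * (Real.sin α ^ 2 * (511 / 1000)) :=
            mul_le_mul_of_nonneg_left h5 this
        _ = _ := by ring
    rw [← hy.eg] at h12
    have h13 : Real.sin α * (511 / 1000) ≤ 15 / 100 := by nlinarith
    exact h12.trans (by have := hy.g0; nlinarith)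

/-- lower bounds right of `Re y = 3π`: `G = max g (4/5)`, `e₂ = 2.8`, or `3.6` if `g ≥ 1/2` -/
theorem greY_A5a {κ θ R₁ g α : ℝ} (hy : SadY κ θ R₁ g α) (hκ : 13 / 10 ≤ κ) {ζ t : ℝ} (hζ : 0 ≤ ζ)
    (ht : 0 ≤ t) (ht' : t ≤ Real.pi / 2) : gre R₁ (-g) (Real.pi + α + t) (-ζ) ≤ -R₁ := by
  rw [greY_A5 hy]
  have hR := hy.R_pos hκ
  have hpi := Real.pi_pos
  have h1 : 0 ≤ Real.cos t := Real.cos_nonneg_of_neg_pi_div_two_le_of_le (by linarith) ht'
  have h2 : 0 ≤ κ * Real.exp (g + ζ) * Real.cos t := by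
    have : 0 < κ := by linarith
    positivity
  have h3 : 0 ≤ (Real.pi + α + t) * (g + ζ) := mul_nonneg (by linarith [hy.α0]) (by linarith [hy.g0])
  have h4 : 0 ≤ R₁ * ζ := mul_nonneg (by linarith) hζ
  nlinarith

/-- the case `g ≤ 4/5`, `G = 4/5`, with a lower bound `c e^?` of `e^g (9/5 - g)` -/
theorem greY_low {κ θ R₁ g α c e₂ : ℝ} (hy : SadY κ θ R₁ g α) (hκ : 13 / 10 ≤ κ) (hκ' : κ ≤ 47 / 10)
    (hg : g ≤ 4 / 5) (hc : 0 ≤ c) (hc2 : c ≤ 22 / 10) (hcg : c ≤ Real.exp g * (9 / 5 - g))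
    (he : ∀ k : ℝ, 13 / 10 ≤ k → k ≤ 47 / 10 → e₂ + 356 / 1000 / k ≤ 50262 / 10000 - (22256 / 10000 - c) * k - 54 / 1000 * c) :
    (∀ t : ℝ, Real.pi / 2 ≤ t → t ≤ Real.pi → gre R₁ (-g) (Real.pi + α + t) (-(4 / 5 - g)) ≤ -e₂) ∧
    (∀ t : ℝ, Real.pi ≤ t → gre R₁ (-g) (Real.pi + α + t) (-(4 / 5 - g)) ≤ -(e₂ + 4 / 5 * (t - Real.pi))) := by
  have hpi := Real.pi_gt_d4
  have hpi' := Real.pi_lt_d4
  obtain ⟨hc1, _⟩ := hy.one_sub_cos hκ
  have hcos := hy.cos_ge
  have hcos1 := Real.cos_le_one α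
  -- `R₁ (9/5 - g) ≥ c κ cos α ≥ c κ - .054 c`
  have h1 : c * κ - 54 / 1000 * c ≤ R₁ * (1 + (4 / 5 - g)) := by
    have h2 : R₁ * (1 + (4 / 5 - g)) = κ * Real.cos α * (Real.exp g * (9 / 5 - g)) := by
      nth_rewrite 1 [hy.eR]; ring
    rw [h2]
    have h3 : κ * Real.cos α * c ≤ κ * Real.cos α * (Real.exp g * (9 / 5 - g)) :=
      mul_le_mul_of_nonneg_left hcg (by nlinarith)
    nlinarith
  have h4 : Real.exp (4 / 5) ≤ 22256 / 10000 := by
    have h5 : Real.exp (4 / 5) = Real.exp 1 * Real.exp (-(1 / 5)) := by rw [← Real.exp_add]; norm_num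
    have h6 := Real.exp_one_lt_d9
    have h7 : Real.exp (-(1 / 5)) ≤ 81874 / 100000 := by
      have h9 : 1 / Real.exp (1 / 5) = Real.exp (-(1 / 5)) := by rw [Real.exp_neg]; simp
      rw [← h9, div_le_iff₀ (Real.exp_pos _)]
      have h10 := Real.sum_le_exp_of_nonneg (x := 1/5) (by norm_num) 6
      simp only [Finset.sum_range_succ, Finset.sum_range_zero, Nat.factorial] at h10
      norm_num at h10
      linarith
    rw [h5]
    have := Real.exp_pos (-(1 / 5) : ℝ)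
    nlinarith
  have hG : g + (4 / 5 - g) = 4 / 5 := by ring
  constructor
  · intro t ht1 ht2
    obtain ⟨x, hx⟩ : ∃ x : ℝ, x = Real.pi - t := ⟨_, rfl⟩
    have htx : t = Real.pi - x := by linarith
    have hx0 : 0 ≤ x := by linarith
    have hx1 : x ≤ Real.pi / 2 := by linarith
    rw [greY_A5 hy, hG, htx, Real.cos_pi_sub]
    have h5 : Real.cos x ≤ 1 - 2026 / 10000 * x ^ 2 := by
      have h6 := Real.cos_le_one_sub_mul_cos_sq (x := x) (by rw [abs_of_nonneg hx0]; linarith)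
      have h7 : (2026 : ℝ) / 10000 ≤ 2 / Real.pi ^ 2 := by
        rw [le_div_iff₀ (by positivity)]
        nlinarith
      nlinarith [mul_le_mul_of_nonneg_right h7 (sq_nonneg x)]
    have h8 : 0 ≤ Real.cos x := Real.cos_nonneg_of_neg_pi_div_two_le_of_le (by linarith) hx1
    have h9 : κ * Real.exp (4 / 5) * Real.cos x ≤ κ * (22256 / 10000) * (1 - 2026 / 10000 * x ^ 2) := by
      have h10 : κ * Real.exp (4 / 5) * Real.cos x ≤ κ * (22256 / 10000) * Real.cos x :=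
        mul_le_mul_of_nonneg_right (mul_le_mul_of_nonneg_left h4 (by linarith)) h8
      exact h10.trans (mul_le_mul_of_nonneg_left h5 (by positivity))
    have h11 := he κ hκ hκ'
    -- `.8 x - .4509 κ x² ≤ .356/κ`
    have h12 : 4 / 5 * x ≤ κ * (4508 / 10000) * x ^ 2 + 356 / 1000 / κ := by
      have hk : 0 < κ := by linarith
      have : 356 / 1000 / κ - (4 / 5 * x - κ * (4508 / 10000) * x ^ 2) =
          (356 / 1000 - 4 / 5 * (κ * x) + 4508 / 10000 * (κ * x) ^ 2) / κ := by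
        field_simp
        ring
      have h13 : 0 ≤ 356 / 1000 / κ - (4 / 5 * x - κ * (4508 / 10000) * x ^ 2) := by
        rw [this]
        apply div_nonneg _ hk.le
        nlinarith [sq_nonneg (κ * x - 888 / 1000)]
      linarith
    nlinarith [hy.α0]
  · intro t ht
    rw [greY_A5 hy, hG]
    have h5 : -(κ * Real.exp (4 / 5)) ≤ κ * Real.exp (4 / 5) * Real.cos t := by
      have : 0 ≤ κ * Real.exp (4 / 5) := by positivity
      nlinarith [Real.neg_one_le_cos t]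
    have h6 : κ * Real.exp (4 / 5) ≤ κ * (22256 / 10000) := mul_le_mul_of_nonneg_left h4 (by linarith)
    have h11 := he κ hκ hκ'
    have h12 : 0 ≤ 356 / 1000 / κ := by positivity
    nlinarith [hy.α0]

end Sok
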