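import Pool.Agent.Lib.MP_816dec_an.LTools
import Pool.Agent.Lib.MP_816dec_an.LNear
import Pool.Agent.Lib.MP_816dec_an.LYExp

/-!
MP_816dec_an, b = 1, `1.3 ≤ κ ≤ 4.7`, `R ≥ 5/2` (row L-XH): the exponent on the legs of the left part.
-/

set_option autoImplicit false

open Complex Set Filter Topology MeasureTheory

namespace Sok

open W

namespace XHaux

/-- `κ e^{-h} = R cos φ + h sin φ` -/
theorem L_eq {κ θ R h : ℝ} (hs : SadX κ θ R h) :
    R * Real.cos (θ + R) + h * Real.sin (θ + R) = κ * Real.exp (-h) := by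
  have h1 := hs.eR
  have h2 := hs.eh
  have h3 := Real.sin_sq_add_cos_sq (θ + R)
  obtain ⟨c, hc⟩ : ∃ c, c = Real.cos (θ + R) := ⟨_, rfl⟩
  obtain ⟨s, hs'⟩ : ∃ s, s = Real.sin (θ + R) := ⟨_, rfl⟩
  rw [← hc] at h1 h3 ⊢
  rw [← hs'] at h2 h3 ⊢
  calc R * c + h * s = (κ * Real.exp (-h) * c) * c + (κ * Real.exp (-h) * s) * s := by rw [← h1, ← h2]
    _ = κ * Real.exp (-h) * (s ^ 2 + c ^ 2) := by ring
    _ = _ := by rw [h3]; ring

theorem R_le_L {κ θ R h : ℝ} (hs : SadX κ θ R h) (hκ : 0 < κ) : R ≤ κ * Real.exp (-h) := by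
  have h1 := hs.eR
  have := Real.cos_le_one (θ + R)
  have h3 : 0 ≤ κ * Real.exp (-h) := by positivity
  nlinarith

theorem R_le_κ {κ θ R h : ℝ} (hs : SadX κ θ R h) (hκ : 0 < κ) : R ≤ κ := by
  have h1 := R_le_L hs hκ
  have h2 : Real.exp (-h) ≤ 1 := Real.exp_le_one_iff.2 (by linarith [hs.h0])
  nlinarith

theorem h_le {R h : ℝ} (hR : 5 / 2 ≤ R) (hh : h ≤ 62 / 100) : h ≤ 248 / 1000 * R := by linarith

/-- left of the saddle -/
theorem g_left {R h φ : ℝ} (hR : 5 / 2 ≤ R) (h0 : 0 ≤ h) (hφ1 : φ ≤ 1 / 4) {t : ℝ} (ht : 0 ≤ t)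
    (ht' : 6 / 5 + t ≤ Real.pi + φ) : gre R h (-(6 / 5 + t)) 0 ≤ -(62 / 100 * R + 1 / 2 * R * t) := by
  have hpi := Real.pi_lt_d4
  have hpi' := Real.pi_gt_d4
  obtain ⟨s, hs⟩ : ∃ s : ℝ, s = 6 / 5 + t := ⟨_, rfl⟩
  rw [← hs] at ht' ⊢
  have hts : t = s - 6 / 5 := by linarith
  have e : gre R h (-s) 0 = -(R * (1 - Real.cos s)) - h * (s - Real.sin s) := by
    unfold gre
    rw [Real.cos_neg, Real.sin_neg, neg_zero, Real.exp_zero]
    ring
  rw [e, hts]
  have h1 : 0 ≤ s - Real.sin s := by have := Real.sin_le (by linarith : 0 ≤ s); linarith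
  have h2 : 0 ≤ h * (s - Real.sin s) := mul_nonneg h0 h1
  have key : 62 / 100 + 1 / 2 * (s - 6 / 5) ≤ 1 - Real.cos s := by
    rcases le_total s (Real.pi / 2) with hc | hc
    · obtain ⟨x, hx⟩ : ∃ x : ℝ, x = Real.pi / 2 - s := ⟨_, rfl⟩
      have hsx : s = Real.pi / 2 - x := by linarith
      have hx0 : 0 ≤ x := by linarith
      have hx1 : x ≤ 371 / 1000 := by linarith
      rw [hsx, Real.cos_pi_div_two_sub]
      have h3 := Real.sin_le hx0
      nlinarith
    · rcases le_total s Real.pi with hd | hd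
      · obtain ⟨x, hx⟩ : ∃ x : ℝ, x = Real.pi - s := ⟨_, rfl⟩
        have hsx : s = Real.pi - x := by linarith
        have hx0 : 0 ≤ x := by linarith
        have hx1 : x ≤ Real.pi / 2 := by linarith
        rw [hsx, Real.cos_pi_sub]
        have h4 := Real.one_sub_mul_le_cos hx0 hx1
        have h5 : 2 / Real.pi ≤ 6367 / 10000 := by rw [div_le_iff₀ Real.pi_pos]; linarith
        nlinarith [mul_le_mul_of_nonneg_right h5 hx0]
      · obtain ⟨x, hx⟩ : ∃ x : ℝ, x = s - Real.pi := ⟨_, rfl⟩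
        have hsx : s = x + Real.pi := by linarith
        have hx0 : 0 ≤ x := by linarith
        have hx1 : x ≤ 29 / 100 := by linarith
        rw [hsx, Real.cos_add_pi]
        have h4 := Real.one_sub_sq_div_two_le_cos (x := x)
        nlinarith
  have h8 := mul_le_mul_of_nonneg_left key (by linarith : 0 ≤ R)
  nlinarith

/-- right of the saddle -/
theorem g_right {R h : ℝ} (hR : 5 / 2 ≤ R) (hh : h ≤ 62 / 100) {t : ℝ} (ht : 0 ≤ t)
    (ht' : 6 / 5 + t ≤ Real.pi) : gre R h (6 / 5 + t) 0 ≤ -(54 / 100 * R + 1 / 4 * R * t) := by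
  have hpi := Real.pi_lt_d4
  have hpi' := Real.pi_gt_d4
  have hg : h ≤ 3031 / 10000 * R := by linarith
  obtain ⟨s, hs⟩ : ∃ s : ℝ, s = 6 / 5 + t := ⟨_, rfl⟩
  rw [← hs] at ht' ⊢
  have hts : t = s - 6 / 5 := by linarith
  have e : gre R h s 0 = -(R * (1 - Real.cos s)) + h * (s - Real.sin s) := by
    unfold gre
    rw [neg_zero, Real.exp_zero]
    ring
  rw [e, hts]
  have hs0 : 6 / 5 ≤ s := by linarith
  have h1 : 0 ≤ s - Real.sin s := by have := Real.sin_le (by linarith : 0 ≤ s); linarith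
  have h2 : h * (s - Real.sin s) ≤ 3031 / 10000 * R * (s - Real.sin s) := mul_le_mul_of_nonneg_right hg h1
  have key : 54 / 100 + 1 / 4 * (s - 6 / 5) ≤ (1 - Real.cos s) - 3031 / 10000 * (s - Real.sin s) := by
    rcases le_total s (Real.pi / 2) with hc | hc
    · obtain ⟨x, hx⟩ : ∃ x : ℝ, x = Real.pi / 2 - s := ⟨_, rfl⟩
      have hsx : s = Real.pi / 2 - x := by linarith
      have hx0 : 0 ≤ x := by linarith
      have hx1 : x ≤ 371 / 1000 := by linarith
      rw [hsx, Real.cos_pi_div_two_sub, Real.sin_pi_div_two_sub]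
      have h3 := Real.sin_le hx0
      have h4 := Real.one_sub_sq_div_two_le_cos (x := x)
      nlinarith
    · obtain ⟨x, hx⟩ : ∃ x : ℝ, x = Real.pi - s := ⟨_, rfl⟩
      have hsx : s = Real.pi - x := by linarith
      have hx0 : 0 ≤ x := by linarith
      have hx1 : x ≤ Real.pi / 2 := by linarith
      rw [hsx, Real.cos_pi_sub, Real.sin_pi_sub]
      have h3 := Real.mul_le_sin hx0 hx1
      have h4 := Real.one_sub_mul_le_cos hx0 hx1
      have h5 : 2 / Real.pi ≤ 6367 / 10000 := by rw [div_le_iff₀ Real.pi_pos]; linarith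
      have h6 : 6366 / 10000 ≤ 2 / Real.pi := by rw [le_div_iff₀ Real.pi_pos]; linarith
      nlinarith [mul_le_mul_of_nonneg_right h5 hx0, mul_le_mul_of_nonneg_right h6 hx0]
  have h8 := mul_le_mul_of_nonneg_left key (by linarith : 0 ≤ R)
  nlinarith

/-- down the valley `Re y = π` -/
theorem g_valley {κ θ R h : ℝ} (hs : SadX κ θ R h) (hκ : 0 < κ) (hR : 5 / 2 ≤ R) (hh : h ≤ 62 / 100)
    (hφ : θ + R ≤ 1 / 4) {v : ℝ} (hv : 0 ≤ v) :
    gre R h (Real.pi - (θ + R)) (-v) ≤ -(122 / 100 * R + 2 * R * v) := by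
  have hpi := Real.pi_lt_d4
  have hpi' := Real.pi_gt_d4
  have hL := L_eq hs
  have hRL := R_le_L hs hκ
  have hφ0 := hs.φ0
  have e : gre R h (Real.pi - (θ + R)) (-v) =
      -((Real.pi - (θ + R)) * v) - Real.exp v * (κ * Real.exp (-h)) - R * (1 + v) + h * (Real.pi - (θ + R)) := by
    unfold gre
    rw [← hL, Real.cos_pi_sub, Real.sin_pi_sub, neg_neg]
    ring
  rw [e]
  have h1 : 1 + v ≤ Real.exp v := by have := Real.add_one_le_exp v; linarith
  have h2 : R * (1 + v) ≤ Real.exp v * (κ * Real.exp (-h)) := by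
    calc R * (1 + v) ≤ (κ * Real.exp (-h)) * Real.exp v := mul_le_mul hRL h1 (by positivity) (by positivity)
      _ = _ := by ring
  have h3 : 0 ≤ (Real.pi - (θ + R)) * v := mul_nonneg (by linarith) hv
  have h4 : h * (Real.pi - (θ + R)) ≤ 78 / 100 * R := by
    have h5 : h * (Real.pi - (θ + R)) ≤ 62 / 100 * (31416 / 10000) :=
      mul_le_mul hh (by linarith) (by linarith) (by norm_num)
    have h6 := h5
    norm_num at h6
    linarith
  nlinarith

/-- up the line `Re y = -π` -/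
theorem g_up {κ θ R h : ℝ} (hs : SadX κ θ R h) (hκ : 0 < κ) (hR : 5 / 2 ≤ R) {Y : ℝ} (hY : 0 ≤ Y)
    (hY' : Y ≤ 1 - h) : gre R h (-(Real.pi + (θ + R))) Y ≤ -(34 / 10) := by
  have hpi := Real.pi_lt_d4
  have hpi' := Real.pi_gt_d4
  have hL := L_eq hs
  have hφ0 := hs.φ0
  have hh0 := hs.h0
  have hRκ := R_le_κ hs hκ
  have e : gre R h (-(Real.pi + (θ + R))) Y =
      -((Real.pi + (θ + R)) * (Y + h)) - κ * Real.exp (-(Y + h)) - R * (1 - Y) := by
    have e1 : Real.exp (-(Y + h)) = Real.exp (-Y) * Real.exp (-h) := by rw [← Real.exp_add]; congr 1; ring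
    have e2 : κ * Real.exp (-(Y + h)) = Real.exp (-Y) * (κ * Real.exp (-h)) := by rw [e1]; ring
    rw [e2, ← hL]
    unfold gre
    rw [Real.cos_neg, Real.sin_neg, add_comm Real.pi (θ + R), Real.cos_add_pi, Real.sin_add_pi]
    ring
  rw [e]
  have h1 : Real.exp (-1) ≤ Real.exp (-(Y + h)) := Real.exp_le_exp.2 (by linarith)
  have h2 : 3678 / 10000 ≤ Real.exp (-1) := by
    have := Real.exp_neg_one_gt_d9
    linarith
  have h3 : 5 / 2 * (3678 / 10000) ≤ κ * Real.exp (-(Y + h)) :=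
    mul_le_mul (by linarith) (by linarith) (by norm_num) hκ.le
  have h4 : 314 / 100 * Y ≤ (Real.pi + (θ + R)) * (Y + h) := by
    have h5 : (Real.pi + (θ + R)) * Y ≤ (Real.pi + (θ + R)) * (Y + h) :=
      mul_le_mul_of_nonneg_left (by linarith) (by linarith)
    have h6 : 314 / 100 * Y ≤ (Real.pi + (θ + R)) * Y := mul_le_mul_of_nonneg_right (by linarith) hY
    linarith
  have h5 : 5 / 2 * (1 - Y) ≤ R * (1 - Y) := mul_le_mul_of_nonneg_right hR (by linarith)
  rw [show (5 / 2 * (3678 / 10000) : ℝ) = 1839 / 2000 by norm_num] at h3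
  linarith

/-- far left, `Im y = 1` -/
theorem g_far {κ θ R h : ℝ} (hs : SadX κ θ R h) (hκ : 0 < κ) (hκ' : κ ≤ 47 / 10) (hR : 5 / 2 ≤ R)
    {v : ℝ} (hv : 0 ≤ v) : gre R h (-(Real.pi + (θ + R) + v)) (1 - h) ≤ -(28 / 10 + 1 / 2 * v) := by
  have hpi := Real.pi_lt_d4
  have hpi' := Real.pi_gt_d4
  have hφ0 := hs.φ0
  have hh0 := hs.h0
  have hcos : R * Real.cos (θ + R + v) + h * Real.sin (θ + R + v) = κ * Real.exp (-h) * Real.cos v := by
    have h3 := hs.eR
    have h4 := hs.eh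
    have h5 := Real.sin_sq_add_cos_sq (θ + R)
    rw [Real.cos_add (θ + R) v, Real.sin_add (θ + R) v]
    obtain ⟨c, hc⟩ : ∃ c, c = Real.cos (θ + R) := ⟨_, rfl⟩
    obtain ⟨s, hs'⟩ : ∃ s, s = Real.sin (θ + R) := ⟨_, rfl⟩
    rw [← hc] at h3 h5 ⊢
    rw [← hs'] at h4 h5 ⊢
    calc R * (c * Real.cos v - s * Real.sin v) + h * (s * Real.cos v + c * Real.sin v)
        = (κ * Real.exp (-h) * c) * (c * Real.cos v - s * Real.sin v) +
          (κ * Real.exp (-h) * s) * (s * Real.cos v + c * Real.sin v) := by rw [← h3, ← h4]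
      _ = κ * Real.exp (-h) * (s ^ 2 + c ^ 2) * Real.cos v := by ring
      _ = _ := by rw [h5]; ring
  have e : gre R h (-(Real.pi + (θ + R) + v)) (1 - h) =
      -(Real.pi + (θ + R) + v) - κ * Real.exp (-1) * Real.cos v - R * h := by
    have e1 : Real.exp (-1) = Real.exp (-(1 - h)) * Real.exp (-h) := by rw [← Real.exp_add]; congr 1; ring
    have e2 : κ * Real.exp (-1) * Real.cos v = Real.exp (-(1 - h)) * (κ * Real.exp (-h) * Real.cos v) := by
      rw [e1]; ring
    rw [e2, ← hcos]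
    unfold gre
    rw [Real.cos_neg, Real.sin_neg, show Real.pi + (θ + R) + v = (θ + R + v) + Real.pi by ring, Real.cos_add_pi,
      Real.sin_add_pi]
    ring
  rw [e]
  have hq0 : 0 ≤ κ * Real.exp (-1) := by positivity
  have hq : κ * Real.exp (-1) ≤ 17292 / 10000 := by
    have h2 := Real.exp_neg_one_lt_d9
    have h3 : κ * Real.exp (-1) ≤ 47 / 10 * 0.3678794412 := mul_le_mul hκ' h2.le (Real.exp_pos _).le (by norm_num)
    norm_num at h3 ⊢
    linarith
  have hRh : 0 ≤ R * h := by positivity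
  have key : 28 / 10 + 1 / 2 * v ≤ Real.pi + v + κ * Real.exp (-1) * Real.cos v := by
    rcases le_total v (Real.pi / 2) with hc | hc
    · have h1 : 0 ≤ Real.cos v := Real.cos_nonneg_of_neg_pi_div_two_le_of_le (by linarith) hc
      have h2 : 0 ≤ κ * Real.exp (-1) * Real.cos v := mul_nonneg hq0 h1
      linarith
    · rcases le_total v Real.pi with hd | hd
      · obtain ⟨w, hw⟩ : ∃ w : ℝ, w = Real.pi - v := ⟨_, rfl⟩
        have hvw : v = Real.pi - w := by linarith
        have hw0 : 0 ≤ w := by linarith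
        have hw1 : w ≤ Real.pi / 2 := by linarith
        rw [hvw, Real.cos_pi_sub]
        have h5 : Real.cos w ≤ 1 - 2026 / 10000 * w ^ 2 := by
          have h6 := Real.cos_le_one_sub_mul_cos_sq (x := w) (by rw [abs_of_nonneg hw0]; linarith)
          have h7 : (2026 : ℝ) / 10000 ≤ 2 / Real.pi ^ 2 := by
            rw [le_div_iff₀ (by positivity)]
            nlinarith
          nlinarith [mul_le_mul_of_nonneg_right h7 (sq_nonneg w)]
        have h8 : 0 ≤ Real.cos w := Real.cos_nonneg_of_neg_pi_div_two_le_of_le (by linarith) hw1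
        have h9 : κ * Real.exp (-1) * Real.cos w ≤ 17292 / 10000 * (1 - 2026 / 10000 * w ^ 2) :=
          (mul_le_mul_of_nonneg_right hq h8).trans (mul_le_mul_of_nonneg_left h5 (by norm_num))
        nlinarith [sq_nonneg (w - 7137 / 10000)]
      · have h1 : -(κ * Real.exp (-1)) ≤ κ * Real.exp (-1) * Real.cos v := by
          nlinarith [Real.neg_one_le_cos v]
        linarith
  linarith

end XHaux

end Sok
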