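import Pool.Agent.Lib.MP_816dec_an.LXH1

/-!
MP_816dec_an, b = 1, `1.3 ≤ κ ≤ 4.7`, `R ≥ 5/2` (row L-XH): the outer legs.
-/

set_option autoImplicit false

open Complex Set Filter Topology MeasureTheory

namespace Sok

open W

namespace XHaux

/-- the outer legs, with weights -/
theorem outer {β r θ R h θ' M0 : ℝ} (hβ : 0 < β) (hβ' : β ≤ 47 / 100) (hs : SadX (β * r) θ R h) (hκ : 0 < β * r)
    (hκ' : β * r ≤ 47 / 10) (hR : 5 / 2 ≤ R) (hh : h ≤ 62 / 100) (hφ : θ + R ≤ 1 / 4) (hθ' : θ' < Real.pi)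
    (hM0 : 0 ≤ M0) {H P : ℂ → ℂ} {lL V lR : ℂ} (hp : Pk θ' H P lL V lR) {w : ℂ → ℝ}
    (hH : ∀ X Y : ℝ, ‖H (θ + (R + h * I) + (X + Y * I))‖ ≤ w (X + Y * I) * (M0 * Real.exp (gre R h X Y / β)))
    {A1 B1 A4 A5 B5 A6 : ℝ} (hA1 : 0 ≤ A1) (hB1 : 0 ≤ B1) (hA4 : 0 ≤ A4) (hA5 : 0 ≤ A5) (hB5 : 0 ≤ B5) (hA6 : 0 ≤ A6)
    (w1 : ∀ t : ℝ, 0 ≤ t → t ≤ Real.pi + (θ + R) - 6 / 5 → w ((-(6 / 5 + t) : ℝ) + (0 : ℝ) * I) ≤ A1 + B1 * t)
    (w3 : ∀ t : ℝ, 0 ≤ t → t ≤ Real.pi - (θ + R) - 6 / 5 → w ((6 / 5 + t : ℝ) + (0 : ℝ) * I) ≤ A1 + B1 * t)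
    (w4 : ∀ Y : ℝ, 0 ≤ Y → Y ≤ 1 - h → w ((-(Real.pi + (θ + R)) : ℝ) + (Y : ℝ) * I) ≤ A4)
    (w5 : ∀ v : ℝ, 0 ≤ v → w ((-(Real.pi + (θ + R) + v) : ℝ) + ((1 - h : ℝ) : ℂ) * I) ≤ A5 + B5 * v)
    (w6 : ∀ v : ℝ, 0 ≤ v → w ((Real.pi - (θ + R) : ℝ) + ((-v : ℝ) : ℂ) * I) ≤ A6 * Real.exp v) :
    ‖XL H - (P (θ + (R + h * I) + ((6 / 5 : ℝ) : ℂ)) - P (θ + (R + h * I) + ((-(6 / 5) : ℝ) : ℂ)))‖ ≤
      M0 * (Real.exp (-(62 / 100 * (R / β))) * (A1 / (1 / 2 * (R / β)) + B1 / (1 / 2 * (R / β)) ^ 2) +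
        Real.exp (-(54 / 100 * (R / β))) * (A1 / (1 / 4 * (R / β)) + B1 / (1 / 4 * (R / β)) ^ 2) +
        A4 * Real.exp (-(34 / 10 * (1 / β))) +
        Real.exp (-(28 / 10 * (1 / β))) * (A5 / (1 / 2 * (1 / β)) + B5 / (1 / 2 * (1 / β)) ^ 2) +
        A6 * Real.exp (-(122 / 100 * (R / β))) / (2 * (R / β) - 1)) := by
  have hpi := Real.pi_lt_d4
  have hpi' := Real.pi_gt_d4
  have hφ0 := hs.φ0
  have hh0 := hs.h0
  have hR0 : 0 < R := by linarith
  have ha : 0 < R / β := by positivity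
  have ha5 : 5 ≤ R / β := by rw [le_div_iff₀ hβ]; linarith
  have hb : 0 < 1 / β := by positivity
  obtain ⟨φ, hφe⟩ : ∃ φ, φ = θ + R := ⟨_, rfl⟩
  have hφc : (φ : ℂ) = θ + R := by rw [hφe]; push_cast; ring
  -- the points
  have e0 : (θ : ℂ) + (R + h * I) = φ + h * I := by rw [hφc]; ring
  -- left
  have L1 : ‖P ((-Real.pi : ℝ) + h * I) - P (θ + (R + h * I) + ((-(6 / 5) : ℝ) : ℂ))‖ ≤
      M0 * (Real.exp (-(62 / 100 * (R / β))) * (A1 / (1 / 2 * (R / β)) + B1 / (1 / 2 * (R / β)) ^ 2)) := by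
    have h1 := hp.seg_exp (θ + (R + h * I) + ((-(6 / 5) : ℝ) : ℂ)) (-1) (by simp)
      (l := Real.pi + φ - 6 / 5) (A := M0 * Real.exp (-(62 / 100 * (R / β))) * A1)
      (B := M0 * Real.exp (-(62 / 100 * (R / β))) * B1) (k := 1 / 2 * (R / β)) (by linarith) (by positivity)
      (by positivity) (by positivity) ?_
    · have e1 : (θ : ℂ) + (R + h * I) + ((-(6 / 5) : ℝ) : ℂ) + ((Real.pi + φ - 6 / 5 : ℝ) : ℂ) * (-1) =
          (-Real.pi : ℝ) + h * I := by rw [e0]; push_cast; ring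
      rw [e1] at h1
      refine h1.trans (le_of_eq (by ring))
    · intro t ht ht'
      have e1 : (θ : ℂ) + (R + h * I) + ((-(6 / 5) : ℝ) : ℂ) + (t : ℂ) * (-1) =
          θ + (R + h * I) + (((-(6 / 5 + t) : ℝ) : ℂ) + (0 : ℝ) * I) := by push_cast; ring
      rw [e1]
      refine (hH _ _).trans ?_
      have g1 := g_left (R := R) (h := h) (φ := φ) hR hh0 (by linarith) ht (by linarith)
      have g2 : gre R h (-(6 / 5 + t)) 0 / β ≤ -(62 / 100 * (R / β)) + -(1 / 2 * (R / β) * t) := by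
        rw [div_le_iff₀ hβ]
        refine g1.trans (le_of_eq ?_)
        field_simp
        ring
      have g3 := Real.exp_le_exp.2 g2
      rw [Real.exp_add] at g3
      have g4 := w1 t ht (by linarith)
      calc w (((-(6 / 5 + t) : ℝ) : ℂ) + (0 : ℝ) * I) * (M0 * Real.exp (gre R h (-(6 / 5 + t)) 0 / β))
          ≤ (A1 + B1 * t) * (M0 * (Real.exp (-(62 / 100 * (R / β))) * Real.exp (-(1 / 2 * (R / β) * t)))) :=
            mul_le_mul g4 (mul_le_mul_of_nonneg_left g3 hM0) (by positivity) (by positivity)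
        _ = _ := by ring
  -- right
  have L3 : ‖P ((Real.pi : ℝ) + h * I) - P (θ + (R + h * I) + ((6 / 5 : ℝ) : ℂ))‖ ≤
      M0 * (Real.exp (-(54 / 100 * (R / β))) * (A1 / (1 / 4 * (R / β)) + B1 / (1 / 4 * (R / β)) ^ 2)) := by
    have h1 := hp.seg_exp (θ + (R + h * I) + ((6 / 5 : ℝ) : ℂ)) 1 (by simp)
      (l := Real.pi - φ - 6 / 5) (A := M0 * Real.exp (-(54 / 100 * (R / β))) * A1)
      (B := M0 * Real.exp (-(54 / 100 * (R / β))) * B1) (k := 1 / 4 * (R / β)) (by linarith) (by positivity)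
      (by positivity) (by positivity) ?_
    · have e1 : (θ : ℂ) + (R + h * I) + ((6 / 5 : ℝ) : ℂ) + ((Real.pi - φ - 6 / 5 : ℝ) : ℂ) * 1 =
          (Real.pi : ℝ) + h * I := by rw [e0]; push_cast; ring
      rw [e1] at h1
      refine h1.trans (le_of_eq (by ring))
    · intro t ht ht'
      have e1 : (θ : ℂ) + (R + h * I) + ((6 / 5 : ℝ) : ℂ) + (t : ℂ) * 1 =
          θ + (R + h * I) + (((6 / 5 + t : ℝ) : ℂ) + (0 : ℝ) * I) := by push_cast; ring
      rw [e1]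
      refine (hH _ _).trans ?_
      have g1 := g_right (R := R) (h := h) hR hh ht (by linarith)
      have g2 : gre R h (6 / 5 + t) 0 / β ≤ -(54 / 100 * (R / β)) + -(1 / 4 * (R / β) * t) := by
        rw [div_le_iff₀ hβ]
        refine g1.trans (le_of_eq ?_)
        field_simp
        ring
      have g3 := Real.exp_le_exp.2 g2
      rw [Real.exp_add] at g3
      have g4 := w3 t ht (by linarith)
      calc w (((6 / 5 + t : ℝ) : ℂ) + (0 : ℝ) * I) * (M0 * Real.exp (gre R h (6 / 5 + t) 0 / β))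
          ≤ (A1 + B1 * t) * (M0 * (Real.exp (-(54 / 100 * (R / β))) * Real.exp (-(1 / 4 * (R / β) * t)))) :=
            mul_le_mul g4 (mul_le_mul_of_nonneg_left g3 hM0) (by positivity) (by positivity)
        _ = _ := by ring
  -- up
  have L4 : ‖P ((-Real.pi : ℝ) + (1 : ℝ) * I) - P ((-Real.pi : ℝ) + h * I)‖ ≤
      M0 * (A4 * Real.exp (-(34 / 10 * (1 / β)))) := by
    have h1 := hp.seg_le ((-Real.pi : ℝ) + h * I) I Complex.norm_I (a := 0) (b := 1 - h) (by linarith)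
      (g := fun _ => M0 * (A4 * Real.exp (-(34 / 10 * (1 / β))))) (by fun_prop) ?_
    · have e1 : ((-Real.pi : ℝ) : ℂ) + h * I + ((1 - h : ℝ) : ℂ) * I = (-Real.pi : ℝ) + (1 : ℝ) * I := by
        push_cast; ring
      rw [e1, Complex.ofReal_zero, zero_mul, add_zero, intervalIntegral.integral_const, smul_eq_mul, sub_zero] at h1
      refine h1.trans ?_
      have : 0 ≤ M0 * (A4 * Real.exp (-(34 / 10 * (1 / β)))) := by positivity
      nlinarith
    · intro Y hY hY'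
      have e1 : ((-Real.pi : ℝ) : ℂ) + h * I + (Y : ℂ) * I =
          θ + (R + h * I) + (((-(Real.pi + (θ + R)) : ℝ) : ℂ) + (Y : ℝ) * I) := by push_cast; ring
      rw [e1]
      refine (hH _ _).trans ?_
      have g1 := g_up hs hκ hR hY hY'
      have g2 : gre R h (-(Real.pi + (θ + R))) Y / β ≤ -(34 / 10 * (1 / β)) := by
        rw [div_le_iff₀ hβ]
        refine g1.trans (le_of_eq ?_)
        field_simp
      have g3 := Real.exp_le_exp.2 g2
      have g4 := w4 Y hY hY'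
      calc w (((-(Real.pi + (θ + R)) : ℝ) : ℂ) + (Y : ℝ) * I) * (M0 * Real.exp (gre R h (-(Real.pi + (θ + R))) Y / β))
          ≤ A4 * (M0 * Real.exp (-(34 / 10 * (1 / β)))) :=
            mul_le_mul g4 (mul_le_mul_of_nonneg_left g3 hM0) (by positivity) (by positivity)
        _ = _ := by ring
  -- far left
  have L5 : ‖P ((-Real.pi : ℝ) + (1 : ℝ) * I) - lL‖ ≤
      M0 * (Real.exp (-(28 / 10 * (1 / β))) * (A5 / (1 / 2 * (1 / β)) + B5 / (1 / 2 * (1 / β)) ^ 2)) := by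
    have h1 := hp.leftH_exp (Y := 1) one_pos (-Real.pi) (A := M0 * Real.exp (-(28 / 10 * (1 / β))) * A5)
      (B := M0 * Real.exp (-(28 / 10 * (1 / β))) * B5) (k := 1 / 2 * (1 / β)) (by positivity)
      (by positivity) (by positivity) ?_
    · exact h1.trans (le_of_eq (by ring))
    · intro v hv
      have e1 : ((-Real.pi - v : ℝ) : ℂ) + (1 : ℝ) * I =
          θ + (R + h * I) + (((-(Real.pi + (θ + R) + v) : ℝ) : ℂ) + ((1 - h : ℝ) : ℂ) * I) := by push_cast; ring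
      rw [e1]
      refine (hH _ _).trans ?_
      have g1 := g_far hs hκ hκ' hR hv
      have g2 : gre R h (-(Real.pi + (θ + R) + v)) (1 - h) / β ≤ -(28 / 10 * (1 / β)) + -(1 / 2 * (1 / β) * v) := by
        rw [div_le_iff₀ hβ]
        refine g1.trans (le_of_eq ?_)
        field_simp
        ring
      have g3 := Real.exp_le_exp.2 g2
      rw [Real.exp_add] at g3
      have g4 := w5 v hv
      calc w (((-(Real.pi + (θ + R) + v) : ℝ) : ℂ) + ((1 - h : ℝ) : ℂ) * I) *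
            (M0 * Real.exp (gre R h (-(Real.pi + (θ + R) + v)) (1 - h) / β))
          ≤ (A5 + B5 * v) * (M0 * (Real.exp (-(28 / 10 * (1 / β))) * Real.exp (-(1 / 2 * (1 / β) * v)))) :=
            mul_le_mul g4 (mul_le_mul_of_nonneg_left g3 hM0) (by positivity) (by positivity)
        _ = _ := by ring
  -- valley
  have L6 : ‖P ((Real.pi : ℝ) + h * I) - V‖ ≤ M0 * (A6 * Real.exp (-(122 / 100 * (R / β))) / (2 * (R / β) - 1)) := by
    have h1 := hp.valley_exp (S := Real.pi) (by linarith) (by linarith) (by rw [min_self]; exact hθ') h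
      (A := M0 * (A6 * Real.exp (-(122 / 100 * (R / β))))) (B := 0) (k := 2 * (R / β) - 1) (by linarith)
      (by positivity) le_rfl ?_
    · exact h1.trans (le_of_eq (by ring))
    · intro v hv
      have e1 : (Real.pi : ℂ) + ((h - v : ℝ) : ℂ) * I =
          θ + (R + h * I) + (((Real.pi - (θ + R) : ℝ) : ℂ) + ((-v : ℝ) : ℂ) * I) := by push_cast; ring
      rw [e1]
      refine (hH _ _).trans ?_
      have g1 := g_valley hs hκ hR hh hφ hv
      have g2 : gre R h (Real.pi - (θ + R)) (-v) / β ≤ -(122 / 100 * (R / β)) + -(2 * (R / β) * v) := by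
        rw [div_le_iff₀ hβ]
        refine g1.trans (le_of_eq ?_)
        field_simp
        ring
      have g3 := Real.exp_le_exp.2 g2
      rw [Real.exp_add] at g3
      have g4 := w6 v hv
      calc w (((Real.pi - (θ + R) : ℝ) : ℂ) + ((-v : ℝ) : ℂ) * I) *
            (M0 * Real.exp (gre R h (Real.pi - (θ + R)) (-v) / β))
          ≤ (A6 * Real.exp v) * (M0 * (Real.exp (-(122 / 100 * (R / β))) * Real.exp (-(2 * (R / β) * v)))) :=
            mul_le_mul g4 (mul_le_mul_of_nonneg_left g3 hM0) (by positivity) (by positivity)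
        _ = M0 * (A6 * Real.exp (-(122 / 100 * (R / β)))) * (Real.exp v * Real.exp (-(2 * (R / β) * v))) := by ring
        _ = _ := by
          rw [← Real.exp_add, zero_mul, add_zero]
          congr 2
          ring
  -- assembly
  have e7 : XL H - (P (θ + (R + h * I) + ((6 / 5 : ℝ) : ℂ)) - P (θ + (R + h * I) + ((-(6 / 5) : ℝ) : ℂ))) =
      -(P ((-Real.pi : ℝ) + h * I) - P (θ + (R + h * I) + ((-(6 / 5) : ℝ) : ℂ))) +
      (P ((Real.pi : ℝ) + h * I) - P (θ + (R + h * I) + ((6 / 5 : ℝ) : ℂ))) +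
      -(P ((-Real.pi : ℝ) + (1 : ℝ) * I) - P ((-Real.pi : ℝ) + h * I)) +
      (P ((-Real.pi : ℝ) + (1 : ℝ) * I) - lL) + -(P ((Real.pi : ℝ) + h * I) - V) := by
    rw [hp.XL_eq]
    ring
  rw [e7]
  refine (norm_add_le _ _).trans ?_
  refine (add_le_add (norm_add_le _ _) (norm_neg _).le).trans ?_
  refine (add_le_add (add_le_add (norm_add_le _ _) le_rfl) le_rfl).trans ?_
  refine (add_le_add (add_le_add (add_le_add (norm_add_le _ _) (norm_neg _).le) le_rfl) le_rfl).trans ?_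
  rw [norm_neg]
  linarith

end XHaux

end Sok
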