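import Pool.Agent.Lib.MP_816dec_an.LYNum

/-!
MP_816dec_an, b = 1, `1.3 ≤ κ ≤ 4.7`: the right part (value and first moment).
-/

set_option autoImplicit false

open Complex Set Filter Topology MeasureTheory

namespace Sok

open W

theorem exp_neg_595 : Real.exp (-(595 / 100)) ≤ 261 / 100000 := by
  have h1 := exp_neg_six
  have h2 : Real.exp (-(5 / 100)) * Real.exp (-(595 / 100)) = Real.exp (-6) := by rw [← Real.exp_add]; norm_num
  have h3 := Real.add_one_le_exp (-(5 / 100) : ℝ)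
  have h4 := Real.exp_pos (-(595 / 100) : ℝ)
  nlinarith

theorem Y_a_eq {β r θ R₁ g α : ℝ} (hβ : 0 < β) (hy : SadY (β * r) θ R₁ g α) : R₁ / β = r * Real.exp g * Real.cos α := by
  rw [div_eq_iff hβ.ne', hy.eR]
  ring

/-- value of the right part -/
theorem YV {β r θ R₁ g α : ℝ} (hβ : 0 < β) (hr : 10 ≤ r) (hy : SadY (β * r) θ R₁ g α) (hκ : 13 / 10 ≤ β * r)
    (hκ' : β * r ≤ 47 / 10) (hθ0 : -(β * r) ≤ θ) :
    8 / 10 * Real.sqrt (2 * Real.pi * β / Real.sqrt (R₁ ^ 2 + (1 - g) ^ 2)) * Real.exp (R₁ * (1 - g) / β) ≤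
      ‖YR (KK β r θ)‖ := by
  have hpi := Real.pi_lt_d4
  have hr0 : 0 < r := by linarith
  have hR := hy.R_pos hκ
  have hg := hy.g_le' hκ
  have hg0 := hy.g0
  have hcos := hy.cos_ge
  have hβ' : β ≤ 47 / 100 := by nlinarith
  obtain ⟨a, haD⟩ : ∃ a : ℝ, a = R₁ / β := ⟨_, rfl⟩
  have ha : R₁ = a * β := by rw [haD]; field_simp
  have ha9 : 957 / 100 ≤ a := by
    rw [haD, Y_a_eq hβ hy]
    have h1 : 10 ≤ r * Real.exp g := by
      have := Real.one_le_exp hg0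
      nlinarith
    nlinarith
  have ha0 : 0 < a := by linarith
  obtain ⟨ζ, hζ, hζ', hgζ, ⟨hE1, hE2⟩, _⟩ := Y_depth hy hκ hκ'
  have hval := Y_val hβ hr0 hy hκ ha (by linarith) hζ hζ' hgζ hE1 hE2
  obtain ⟨d, hdD⟩ : ∃ d : ℝ, d = Real.sqrt (R₁ ^ 2 + (1 - g) ^ 2) := ⟨_, rfl⟩
  rw [← hdD] at hval ⊢
  have hd0 : 0 < d := by rw [hdD]; exact Real.sqrt_pos.2 (by positivity)
  have h1g : (1 - g) ^ 2 ≤ 6463 / 10000 * R₁ ^ 2 := by
    rcases le_total g 1 with h | h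
    · have : (1 - g) ^ 2 ≤ 1 := by nlinarith
      nlinarith
    · have : (1 - g) ^ 2 ≤ g ^ 2 := by nlinarith
      have h2 : g ^ 2 ≤ (3031 / 10000 * R₁) ^ 2 := pow_le_pow_left₀ hg0 hg 2
      nlinarith
  have hq : d ≤ 1284 / 1000 * R₁ := by
    rw [hdD]
    refine Real.sqrt_le_iff.2 ⟨by positivity, ?_⟩
    nlinarith
  have hRu : R₁ ≤ 109832 / 10000 := by rw [hy.hα]; linarith [hy.α0]
  have hD : d ≤ 115 / 10 := by
    rw [hdD]
    refine Real.sqrt_le_iff.2 ⟨by norm_num, ?_⟩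
    rcases le_total g 1 with h | h
    · have : (1 - g) ^ 2 ≤ 1 := by nlinarith
      nlinarith
    · have : (1 - g) ^ 2 ≤ (24 / 10) ^ 2 := by
        have h3 : g ≤ 34 / 10 := by linarith
        nlinarith
      nlinarith
  obtain ⟨N, hND⟩ : ∃ N : ℝ, N = Real.sqrt (2 * Real.pi * β / d) := ⟨_, rfl⟩
  have hNa := N_ge_a (n := 221 / 100) hβ ha ha0 hd0 hq (by norm_num) (by norm_num)
  have hNb := N_ge_b (m := 739 / 1000) hβ hd0 hD (by norm_num) (by norm_num)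
  rw [← hND] at hval hNa hNb ⊢
  have hJa := yJa_le (a := a) (a0 := 957 / 100) (k := 5) (s0 := 30936 / 10000) (s1 := 30935 / 10000)
    (E := 6738 / 1000000) (F := 24788 / 10000000) (G := 12342 / 100000000) (by norm_num) (by norm_num) ha9 (by norm_num) (by norm_num) exp_neg_five
    (by rw [show (-(5 + 1) : ℝ) = -6 by norm_num]; exact exp_neg_six) exp_neg_nine (by norm_num) (by norm_num) (by norm_num) (by norm_num)
  have hJa' : yJa a * Real.sqrt a ≤ 369 / 1000 := hJa.trans (by norm_num)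
  have hb := beta_le (e₂ := 14 / 5) (k := 595 / 100) hβ hβ' (by norm_num) (by norm_num) exp_neg_595
  have hsb : 0 ≤ Real.sqrt β := Real.sqrt_nonneg _
  have hsa : 0 < Real.sqrt a := Real.sqrt_pos.2 ha0
  have hJ : yJ a β (14 / 5) ≤ 2 / 10 * N := by
    rw [yJ_eq _ _ _ hβ]
    have h1 : yJa a ≤ 167 / 1000 * N := by
      refine le_of_mul_le_mul_right ?_ hsa
      nlinarith
    have h2 : Real.exp (-(14 / 5 / β)) * (Real.pi / 2 + 5 / 4 * β) ≤ 12 / 1000 * N := by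
      have h3 : Real.exp (-(14 / 5 / β)) * (Real.pi / 2 + 5 / 4 * β) ≤
          (261 / 100000 * (1459 / 1000) * Real.sqrt β) * (2159 / 1000) :=
        mul_le_mul hb (by linarith) (by positivity) (by positivity)
      nlinarith
    linarith
  have hK : 0 < Real.exp (R₁ * (1 - g) / β) := Real.exp_pos _
  have h5 : 8 / 10 * N ≤ N - yJ a β (14 / 5) := by linarith
  calc 8 / 10 * N * Real.exp (R₁ * (1 - g) / β) = Real.exp (R₁ * (1 - g) / β) * (8 / 10 * N) := by ring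
    _ ≤ Real.exp (R₁ * (1 - g) / β) * (N - yJ a β (14 / 5)) := mul_le_mul_of_nonneg_left h5 hK.le
    _ ≤ _ := hval

/-- `e^{-(e₂/β)}` times the polynomials in `β` -/
theorem beta_parts {β e₂ k E : ℝ} (hβ : 0 < β) (hβ' : β ≤ 47 / 100) (hk : 1 / 2 ≤ k) (he : k * (47 / 100) ≤ e₂)
    (hE : Real.exp (-k) ≤ E) :
    Real.exp (-(e₂ / β)) * (Real.pi / 2 + 5 / 4 * β) ≤ E * (3150 / 1000) * Real.sqrt β ∧
    Real.exp (-(e₂ / β)) * (Real.pi / 2 * (106 / 10) + 53 / 4 * β + 25 / 16 * β ^ 2) ≤ E * (3389 / 100) * Real.sqrt β := by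
  have hpi := Real.pi_lt_d4
  have hb := beta_le hβ hβ' hk he hE
  have hE0 : 0 ≤ E := (Real.exp_pos _).le.trans hE
  have hs := Real.sqrt_nonneg β
  constructor
  · have h3 : Real.exp (-(e₂ / β)) * (Real.pi / 2 + 5 / 4 * β) ≤ (E * (1459 / 1000) * Real.sqrt β) * (2159 / 1000) :=
      mul_le_mul hb (by linarith) (by positivity) (by positivity)
    nlinarith [mul_nonneg hE0 hs]
  · have h3 : Real.exp (-(e₂ / β)) * (Real.pi / 2 * (106 / 10) + 53 / 4 * β + 25 / 16 * β ^ 2) ≤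
        (E * (1459 / 1000) * Real.sqrt β) * (23225 / 1000) :=
      mul_le_mul hb (by nlinarith) (by positivity) (by positivity)
    nlinarith [mul_nonneg hE0 hs]

/-- common frame for the first moment of the right part -/
theorem YM_core {β r θ R₁ g α a e₂ ζ : ℝ} (hβ : 0 < β) (hr : 10 ≤ r) (hy : SadY (β * r) θ R₁ g α)
    (hκ : 13 / 10 ≤ β * r) (hκ' : β * r ≤ 47 / 10) (hθ : θ + β < Real.pi)
    (ha : R₁ = a * β) (ha4 : 4 ≤ a) (hζ : 0 ≤ ζ) (hζ' : ζ ≤ 4 / 5) (hgζ : 0 < g + ζ)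
    (hE1 : ∀ t : ℝ, Real.pi / 2 ≤ t → t ≤ Real.pi → gre R₁ (-g) (Real.pi + α + t) (-ζ) ≤ -e₂)
    (hE2 : ∀ t : ℝ, Real.pi ≤ t → gre R₁ (-g) (Real.pi + α + t) (-ζ) ≤ -(e₂ + 4 / 5 * (t - Real.pi)))
    {N J S ε : ℝ} (hN : N = Real.sqrt (2 * Real.pi * β / Real.sqrt (R₁ ^ 2 + (1 - g) ^ 2)))
    (hJ : yJ a β e₂ ≤ J) (hS : yS a β e₂ ≤ S) (hJN : J < N) (hε0 : 0 ≤ ε) (hε : 1045 / 1000 * S ≤ ε * (N - J)) :
    ‖YR (K1 β r θ) / YR (KK β r θ) - (R₁ - g * I)‖ ≤ ε := by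
  have hr0 : 0 < r := by linarith
  have hR := hy.R_pos hκ
  have h0 := Y_val hβ hr0 hy hκ ha ha4 hζ hζ' hgζ hE1 hE2
  have h1 := Y_sec hβ hr0 hy hκ hθ ha ha4 hζ hζ' hgζ hE1 hE2
  obtain ⟨M0, hM0⟩ : ∃ M0 : ℝ, M0 = Real.exp (R₁ * (1 - g) / β) := ⟨_, rfl⟩
  rw [← hM0, ← hN] at h0
  rw [← hM0] at h1
  have hM : 0 < M0 := by rw [hM0]; exact Real.exp_pos _
  have hL := hy.norm_L hκ
  have hD : R₁ ≤ ‖1 - I * ((R₁ : ℂ) + ((-g : ℝ) : ℂ) * I)‖ := by
    have e : (1 - I * ((R₁ : ℂ) + ((-g : ℝ) : ℂ) * I)) = ((1 - g : ℝ) : ℂ) + ((-R₁ : ℝ) : ℂ) * I := by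
      push_cast
      linear_combination (g : ℂ) * Complex.I_sq
    rw [e, Complex.norm_add_mul_I]
    refine Real.le_sqrt_of_sq_le ?_
    nlinarith [sq_nonneg (1 - g)]
  have e2 : ((R₁ : ℂ) - g * I) = (R₁ : ℂ) + ((-g : ℝ) : ℂ) * I := by push_cast; ring
  rw [e2]
  refine quotY hβ hr0 hy.sad (M0 := M0) (N := N) (J := J) (S1 := S) hM hJN ?_ ?_ (by linarith) hε0 ?_
  · exact le_trans (mul_le_mul_of_nonneg_left (by linarith) hM.le) h0
  · exact h1.trans (mul_le_mul_of_nonneg_left hS hM.le)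
  · have hS0 : 0 ≤ S := by
      have h3 : 0 ≤ M0 * yS a β e₂ := (norm_nonneg _).trans h1
      have h4 : 0 ≤ yS a β e₂ := by
        by_contra hneg
        push Not at hneg
        nlinarith
      linarith
    calc ‖(R₁ : ℂ) + ((-g : ℝ) : ℂ) * I‖ * S ≤ (1045 / 1000 * R₁) * S := mul_le_mul_of_nonneg_right hL hS0
      _ = (1045 / 1000 * S) * R₁ := by ring
      _ ≤ (ε * (N - J)) * R₁ := mul_le_mul_of_nonneg_right hε (by linarith)
      _ ≤ (ε * (N - J)) * ‖1 - I * ((R₁ : ℂ) + ((-g : ℝ) : ℂ) * I)‖ :=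
        mul_le_mul_of_nonneg_left hD (mul_nonneg hε0 (by linarith))
      _ = _ := by ring

/-- first moment, deep saddle -/
theorem YM' {β r θ R₁ g α : ℝ} (hβ : 0 < β) (hr : 10 ≤ r) (hy : SadY (β * r) θ R₁ g α) (hκ : 13 / 10 ≤ β * r)
    (hκ' : β * r ≤ 47 / 10) (hθ0 : -(β * r) ≤ θ) (hθ : θ + β < Real.pi) (hg1 : 1 / 2 ≤ g) :
    ‖YR (K1 β r θ) / YR (KK β r θ) - (R₁ - g * I)‖ ≤ 18 / 100 := by
  have hpi := Real.pi_lt_d4
  have hr0 : 0 < r := by linarith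
  have hR := hy.R_pos hκ
  have hg := hy.g_le' hκ
  have hg0 := hy.g0
  have hcos := hy.cos_ge
  have hβ' : β ≤ 47 / 100 := by nlinarith
  have hexp : 16486 / 10000 ≤ Real.exp g := by
    have h3 : 16486 / 10000 ≤ Real.exp (1 / 2) := by
      have h10 := Real.sum_le_exp_of_nonneg (x := 1/2) (by norm_num) 6
      simp only [Finset.sum_range_succ, Finset.sum_range_zero, Nat.factorial] at h10
      norm_num at h10
      linarith
    exact h3.trans (Real.exp_le_exp.2 hg1)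
  obtain ⟨a, haD⟩ : ∃ a : ℝ, a = R₁ / β := ⟨_, rfl⟩
  have ha : R₁ = a * β := by rw [haD]; field_simp
  have ha9 : 1577 / 100 ≤ a := by
    rw [haD, Y_a_eq hβ hy]
    have h1 : 16486 / 1000 ≤ r * Real.exp g := by nlinarith
    nlinarith
  have ha0 : 0 < a := by linarith
  have hR2 : 205 / 100 ≤ R₁ := by
    rw [hy.eR]
    have h1 : 13 / 10 * (16486 / 10000) ≤ (β * r) * Real.exp g := mul_le_mul hκ hexp (by norm_num) (by linarith)
    nlinarith
  obtain ⟨ζ, hζ, hζ', hgζ, _, hE⟩ := Y_depth hy hκ hκ'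
  obtain ⟨hE1, hE2⟩ := hE hg1
  obtain ⟨d, hdD⟩ : ∃ d : ℝ, d = Real.sqrt (R₁ ^ 2 + (1 - g) ^ 2) := ⟨_, rfl⟩
  have hd0 : 0 < d := by rw [hdD]; exact Real.sqrt_pos.2 (by positivity)
  have h1g : (1 - g) ^ 2 ≤ 919 / 10000 * R₁ ^ 2 := by
    rcases le_total g 1 with h | h
    · have : (1 - g) ^ 2 ≤ 1 / 4 := by nlinarith
      nlinarith
    · have : (1 - g) ^ 2 ≤ g ^ 2 := by nlinarith
      have h2 : g ^ 2 ≤ (3031 / 10000 * R₁) ^ 2 := pow_le_pow_left₀ hg0 hg 2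
      nlinarith
  have hq : d ≤ 1045 / 1000 * R₁ := by
    rw [hdD]
    refine Real.sqrt_le_iff.2 ⟨by positivity, ?_⟩
    nlinarith
  have hRu : R₁ ≤ 109832 / 10000 := by rw [hy.hα]; linarith [hy.α0]
  have hD : d ≤ 115 / 10 := by linarith
  obtain ⟨N, hND⟩ : ∃ N : ℝ, N = Real.sqrt (2 * Real.pi * β / d) := ⟨_, rfl⟩
  have hNa := N_ge_a (n := 2452 / 1000) hβ ha ha0 hd0 hq (by norm_num) (by norm_num)
  have hNb := N_ge_b (m := 739 / 1000) hβ hd0 hD (by norm_num) (by norm_num)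
  rw [← hND] at hNa hNb
  have hN0 : 0 < N := by rw [hND]; exact Real.sqrt_pos.2 (by positivity)
  have hJa := yJa_le (a := a) (a0 := 1577 / 100) (k := 8) (s0 := 39712 / 10000) (s1 := 3971 / 1000)
    (E := 33547 / 100000000) (F := 12342 / 100000000) (G := 12342 / 100000000) (by norm_num) (by norm_num) ha9 (by norm_num) (by norm_num) exp_neg_eight
    (by rw [show (-(8 + 1) : ℝ) = -9 by norm_num]; exact exp_neg_nine) exp_neg_nine (by norm_num) (by norm_num) (by norm_num) (by norm_num)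
  have hJa' : yJa a * Real.sqrt a ≤ 273 / 1000 := hJa.trans (by norm_num)
  have hSa := ySa_le (a := a) (a0 := 1577 / 100) (k := 8) (s0 := 39712 / 10000)
    (E := 33547 / 100000000) (G := 12342 / 100000000) (by norm_num) ha9 (by norm_num) (by norm_num) exp_neg_eight
    exp_neg_nine (by norm_num) (by norm_num)
  have hSa' : ySa a * Real.sqrt a ≤ 123 / 1000 := hSa.trans (by norm_num)
  obtain ⟨hb1, hb2⟩ := beta_parts (e₂ := 18 / 5) (k := 7) hβ hβ' (by norm_num) (by norm_num) exp_neg_seven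
  have hsb : 0 ≤ Real.sqrt β := Real.sqrt_nonneg _
  have hsa : 0 < Real.sqrt a := Real.sqrt_pos.2 ha0
  have hJ : yJ a β (18 / 5) ≤ 12 / 100 * N := by
    rw [yJ_eq _ _ _ hβ]
    have h1 : yJa a ≤ 1115 / 10000 * N := by
      refine le_of_mul_le_mul_right ?_ hsa
      nlinarith
    have h2 : Real.exp (-(18 / 5 / β)) * (Real.pi / 2 + 5 / 4 * β) ≤ 4 / 1000 * N := by
      nlinarith
    linarith
  have hS : yS a β (18 / 5) ≤ 93 / 1000 * N := by
    rw [yS_eq _ _ _ hβ]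
    have h1 : ySa a ≤ 503 / 10000 * N := by
      refine le_of_mul_le_mul_right ?_ hsa
      nlinarith
    have h2 : Real.exp (-(18 / 5 / β)) * (Real.pi / 2 * (106 / 10) + 53 / 4 * β + 25 / 16 * β ^ 2) ≤ 42 / 1000 * N := by
      nlinarith
    linarith
  rw [hdD] at hND
  exact YM_core hβ hr hy hκ hκ' hθ ha (by linarith) hζ hζ' hgζ hE1 hE2 hND hJ hS (by linarith) (by norm_num) (by linarith)

/-- first moment -/
theorem YM {β r θ R₁ g α : ℝ} (hβ : 0 < β) (hr : 10 ≤ r) (hy : SadY (β * r) θ R₁ g α) (hκ : 13 / 10 ≤ β * r)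
    (hκ' : β * r ≤ 47 / 10) (hθ0 : -(β * r) ≤ θ) (hθ : θ + β < Real.pi) (hZ : θ ≤ 17 / 10 ∨ 17 / 20 ≤ g) :
    ‖YR (K1 β r θ) / YR (KK β r θ) - (R₁ - g * I)‖ ≤ 3 / 10 := by
  have hpi := Real.pi_lt_d4
  have hpi' := Real.pi_gt_d4
  rcases le_total (1 / 2) g with hg1 | hg1
  · exact (YM' hβ hr hy hκ hκ' hθ0 hθ hg1).trans (by norm_num)
  have hθ1 : θ ≤ 17 / 10 := by
    rcases hZ with h | h
    · exact h
    · linarith
  have hr0 : 0 < r := by linarith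
  have hg := hy.g_le' hκ
  have hg0 := hy.g0
  have hcos := hy.cos_ge
  have hβ' : β ≤ 47 / 100 := by nlinarith
  have hR : 4293 / 1000 ≤ R₁ := by rw [hy.hα]; linarith [hy.α1]
  have hexp : Real.exp g ≤ 16488 / 10000 := by
    have h1 : Real.exp g ≤ Real.exp (1 / 2) := Real.exp_le_exp.2 hg1
    refine h1.trans ?_
    have h2 : Real.exp (1 / 2) ^ 2 = Real.exp 1 := by rw [← Real.exp_nat_mul]; norm_num
    have h3 := Real.exp_one_lt_d9
    have h4 := Real.exp_pos (1 / 2 : ℝ)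
    nlinarith
  obtain ⟨a, haD⟩ : ∃ a : ℝ, a = R₁ / β := ⟨_, rfl⟩
  have ha : R₁ = a * β := by rw [haD]; field_simp
  have ha9 : 957 / 100 ≤ a := by
    rw [haD, Y_a_eq hβ hy]
    have h1 : 10 ≤ r * Real.exp g := by
      have := Real.one_le_exp hg0
      nlinarith
    nlinarith
  have ha0 : 0 < a := by linarith
  obtain ⟨ζ, hζ, hζ', hgζ, ⟨hE1, hE2⟩, _⟩ := Y_depth hy hκ hκ'
  obtain ⟨d, hdD⟩ : ∃ d : ℝ, d = Real.sqrt (R₁ ^ 2 + (1 - g) ^ 2) := ⟨_, rfl⟩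
  have hd0 : 0 < d := by rw [hdD]; exact Real.sqrt_pos.2 (by positivity)
  have h1g : (1 - g) ^ 2 ≤ 1 := by nlinarith
  have hq : d ≤ 1027 / 1000 * R₁ := by
    rw [hdD]
    refine Real.sqrt_le_iff.2 ⟨by positivity, ?_⟩
    nlinarith
  have hRu : R₁ ≤ 77494 / 10000 := by
    have h1 := hy.R_le (by linarith)
    nlinarith
  have hD : d ≤ 782 / 100 := by
    rw [hdD]
    refine Real.sqrt_le_iff.2 ⟨by norm_num, ?_⟩
    nlinarith
  obtain ⟨N, hND⟩ : ∃ N : ℝ, N = Real.sqrt (2 * Real.pi * β / d) := ⟨_, rfl⟩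
  have hNa := N_ge_a (n := 2473 / 1000) hβ ha ha0 hd0 hq (by norm_num) (by norm_num)
  have hNb := N_ge_b (m := 896 / 1000) hβ hd0 hD (by norm_num) (by norm_num)
  rw [← hND] at hNa hNb
  have hN0 : 0 < N := by rw [hND]; exact Real.sqrt_pos.2 (by positivity)
  have hJa := yJa_le (a := a) (a0 := 957 / 100) (k := 5) (s0 := 30936 / 10000) (s1 := 30935 / 10000)
    (E := 6738 / 1000000) (F := 24788 / 10000000) (G := 12342 / 100000000) (by norm_num) (by norm_num) ha9 (by norm_num) (by norm_num) exp_neg_five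
    (by rw [show (-(5 + 1) : ℝ) = -6 by norm_num]; exact exp_neg_six) exp_neg_nine (by norm_num) (by norm_num) (by norm_num) (by norm_num)
  have hJa' : yJa a * Real.sqrt a ≤ 369 / 1000 := hJa.trans (by norm_num)
  have hSa := ySa_le (a := a) (a0 := 957 / 100) (k := 5) (s0 := 30936 / 10000)
    (E := 6738 / 1000000) (G := 12342 / 100000000) (by norm_num) ha9 (by norm_num) (by norm_num) exp_neg_five
    exp_neg_nine (by norm_num) (by norm_num)
  have hSa' : ySa a * Real.sqrt a ≤ 240 / 1000 := hSa.trans (by norm_num)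
  obtain ⟨hb1, hb2⟩ := beta_parts (e₂ := 14 / 5) (k := 595 / 100) hβ hβ' (by norm_num) (by norm_num) exp_neg_595
  have hsb : 0 ≤ Real.sqrt β := Real.sqrt_nonneg _
  have hsa : 0 < Real.sqrt a := Real.sqrt_pos.2 ha0
  have hJ : yJ a β (14 / 5) ≤ 16 / 100 * N := by
    rw [yJ_eq _ _ _ hβ]
    have h1 : yJa a ≤ 150 / 1000 * N := by
      refine le_of_mul_le_mul_right ?_ hsa
      nlinarith
    have h2 : Real.exp (-(14 / 5 / β)) * (Real.pi / 2 + 5 / 4 * β) ≤ 95 / 10000 * N := by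
      nlinarith
    linarith
  have hS : yS a β (14 / 5) ≤ 1975 / 10000 * N := by
    rw [yS_eq _ _ _ hβ]
    have h1 : ySa a ≤ 98 / 1000 * N := by
      refine le_of_mul_le_mul_right ?_ hsa
      nlinarith
    have h2 : Real.exp (-(14 / 5 / β)) * (Real.pi / 2 * (106 / 10) + 53 / 4 * β + 25 / 16 * β ^ 2) ≤ 99 / 1000 * N := by
      nlinarith
    linarith
  rw [hdD] at hND
  exact YM_core hβ hr hy hκ hκ' hθ ha (by linarith) hζ hζ' hgζ hE1 hE2 hND hJ hS (by linarith) (by norm_num) (by linarith)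

end Sok
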