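import Pool.Agent.Lib.MP_816dec_an.Ibp

/-!
MP_816dec_an, b = 1: exponential bounds along the legs of a path, for a primitive with all its limits (`Pk`).
-/

set_option autoImplicit false

open Complex Set Filter Topology MeasureTheory

namespace Sok.W

theorem Pk.segment {θ : ℝ} {h P : ℂ → ℂ} {lL V lR : ℂ} (hp : Pk θ h P lL V lR) (y0 e : ℂ) (a b : ℝ) :
    e * ∫ t in a..b, h (y0 + t * e) = P (y0 + b * e) - P (y0 + a * e) := by
  have hder : ∀ t ∈ uIcc a b, HasDerivAt (fun t : ℝ => P (y0 + t * e)) (e * h (y0 + t * e)) t := by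
    intro t _
    have h4 : HasDerivAt (fun t : ℝ => y0 + (t : ℂ) * e) (1 * e) t :=
      ((Complex.ofRealCLM.hasDerivAt (x := t)).mul_const _).const_add _
    have h5 := HasDerivAt.comp t (hp.prim (y0 + (t : ℂ) * e)) h4
    refine h5.congr_deriv ?_
    ring
  have h6 : IntervalIntegrable (fun t : ℝ => e * h (y0 + t * e)) volume a b := by
    apply Continuous.intervalIntegrable
    have := hp.diff.continuous
    fun_prop
  have h7 := intervalIntegral.integral_eq_sub_of_hasDerivAt hder h6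
  rw [intervalIntegral.integral_const_mul] at h7
  exact h7

/-- a segment with a bound by an integrable majorant -/
theorem Pk.seg_le {θ : ℝ} {h P : ℂ → ℂ} {lL V lR : ℂ} (hp : Pk θ h P lL V lR) (q e : ℂ) (he : ‖e‖ = 1) {a b : ℝ}
    (hab : a ≤ b) {g : ℝ → ℝ} (hg : Continuous g) (hb : ∀ t : ℝ, a ≤ t → t ≤ b → ‖h (q + t * e)‖ ≤ g t) :
    ‖P (q + b * e) - P (q + a * e)‖ ≤ ∫ t in a..b, g t := by
  rw [← hp.segment q e a b, norm_mul, he, one_mul]
  refine intervalIntegral.norm_integral_le_of_norm_le hab ?_ (hg.intervalIntegrable _ _)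
  exact Filter.Eventually.of_forall (fun t ht => hb t ht.1.le ht.2)

theorem int_lin_exp_le {A B k l : ℝ} (hl : 0 ≤ l) (hk : 0 < k) (hA : 0 ≤ A) (hB : 0 ≤ B) :
    ∫ t in (0:ℝ)..l, (A + B * t) * Real.exp (-(k * t)) ≤ A / k + B / k ^ 2 := by
  have hder : ∀ t ∈ uIcc (0:ℝ) l, HasDerivAt (fun t : ℝ => -(A / k + B / k ^ 2 + B / k * t) * Real.exp (-(k * t)))
      ((A + B * t) * Real.exp (-(k * t))) t := by
    intro t _
    have h2 : HasDerivAt (fun t : ℝ => -(k * t)) (-(k * 1)) t := ((hasDerivAt_id t).const_mul k).fun_neg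
    have h3 : HasDerivAt (fun t : ℝ => -(A / k + B / k ^ 2 + B / k * t)) (-(B / k * 1)) t :=
      (((hasDerivAt_id t).const_mul (B / k)).const_add (A / k + B / k ^ 2)).fun_neg
    refine (h3.mul h2.exp).congr_deriv ?_
    field_simp
    ring
  have hcont : Continuous (fun t : ℝ => (A + B * t) * Real.exp (-(k * t))) := by fun_prop
  rw [intervalIntegral.integral_eq_sub_of_hasDerivAt hder (hcont.intervalIntegrable _ _)]
  have h6 : 0 ≤ (A / k + B / k ^ 2 + B / k * l) * Real.exp (-(k * l)) := by positivity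
  rw [mul_zero, mul_zero, neg_zero, Real.exp_zero, mul_one, add_zero]
  linarith

/-- a segment with an exponential bound -/
theorem Pk.seg_exp {θ : ℝ} {h P : ℂ → ℂ} {lL V lR : ℂ} (hp : Pk θ h P lL V lR) (q e : ℂ) (he : ‖e‖ = 1) {l A B k : ℝ}
    (hl : 0 ≤ l) (hk : 0 < k) (hA : 0 ≤ A) (hB : 0 ≤ B)
    (hb : ∀ t : ℝ, 0 ≤ t → t ≤ l → ‖h (q + t * e)‖ ≤ (A + B * t) * Real.exp (-(k * t))) :
    ‖P (q + l * e) - P q‖ ≤ A / k + B / k ^ 2 := by
  have h1 := hp.seg_le q e he hl (g := fun t => (A + B * t) * Real.exp (-(k * t))) (by fun_prop) hb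
  rw [Complex.ofReal_zero, zero_mul, add_zero] at h1
  exact h1.trans (int_lin_exp_le hl hk hA hB)

/-- the left slanted ray -/
theorem Pk.left_exp {θ : ℝ} {h P : ℂ → ℂ} {lL V lR : ℂ} (hp : Pk θ h P lL V lR) (y0 : ℂ) {γ : ℝ}
    (hc : 0 < Real.cos γ) (hs : Real.sin γ < 0) {A B k : ℝ} (hk : 0 < k) (hA : 0 ≤ A) (hB : 0 ≤ B)
    (hb : ∀ t : ℝ, 0 ≤ t → ‖h (y0 - t * cexp (γ * I))‖ ≤ (A + B * t) * Real.exp (-(k * t))) :
    ‖P y0 - lL‖ ≤ A / k + B / k ^ 2 := by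
  have h1 := ((tendsto_const_nhds (x := P y0)).sub (hp.left y0 γ hc hs)).norm
  refine le_of_tendsto h1 ?_
  filter_upwards [eventually_le_atBot (0:ℝ)] with t ht
  have he : ‖-cexp (γ * I)‖ = 1 := by rw [norm_neg, Complex.norm_exp_ofReal_mul_I]
  have h2 := hp.seg_exp y0 (-cexp (γ * I)) he (l := -t) (by linarith) hk hA hB (fun s hs0 _ => by
    have := hb s hs0
    rwa [show y0 + (s : ℂ) * -cexp (γ * I) = y0 - s * cexp (γ * I) by ring])
  rw [norm_sub_rev]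
  rwa [show y0 + ((-t : ℝ) : ℂ) * -cexp (γ * I) = y0 + t * cexp (γ * I) by push_cast; ring] at h2

/-- the left horizontal ray -/
theorem Pk.leftH_exp {θ : ℝ} {h P : ℂ → ℂ} {lL V lR : ℂ} (hp : Pk θ h P lL V lR) {Y : ℝ} (hY : 0 < Y) (a : ℝ)
    {A B k : ℝ} (hk : 0 < k) (hA : 0 ≤ A) (hB : 0 ≤ B)
    (hb : ∀ t : ℝ, 0 ≤ t → ‖h ((a - t : ℝ) + Y * I)‖ ≤ (A + B * t) * Real.exp (-(k * t))) :
    ‖P (a + Y * I) - lL‖ ≤ A / k + B / k ^ 2 := by
  have h1 := ((tendsto_const_nhds (x := P (a + Y * I))).sub (hp.leftH Y hY)).norm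
  refine le_of_tendsto h1 ?_
  filter_upwards [eventually_le_atBot a] with t ht
  have he : ‖(-1 : ℂ)‖ = 1 := by simp
  have h2 := hp.seg_exp (a + Y * I) (-1) he (l := a - t) (by linarith) hk hA hB (fun s hs0 _ => by
    have := hb s hs0
    rwa [show (a : ℂ) + Y * I + (s : ℂ) * (-1) = (a - s : ℝ) + Y * I by push_cast; ring])
  rw [norm_sub_rev]
  rwa [show (a : ℂ) + Y * I + ((a - t : ℝ) : ℂ) * (-1) = t + Y * I by push_cast; ring] at h2

/-- the vertical leg into the valley -/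
theorem Pk.valley_exp {θ : ℝ} {h P : ℂ → ℂ} {lL V lR : ℂ} (hp : Pk θ h P lL V lR) {S : ℝ} (hS1 : Real.pi / 2 ≤ S)
    (hS2 : S ≤ 3 * Real.pi / 2) (hθ : θ < min S Real.pi) (b : ℝ) {A B k : ℝ} (hk : 0 < k) (hA : 0 ≤ A) (hB : 0 ≤ B)
    (hb : ∀ t : ℝ, 0 ≤ t → ‖h (S + (b - t : ℝ) * I)‖ ≤ (A + B * t) * Real.exp (-(k * t))) :
    ‖P (S + b * I) - V‖ ≤ A / k + B / k ^ 2 := by
  have h1 := ((tendsto_const_nhds (x := P (S + b * I))).sub (hp.valley S hS1 hS2 hθ)).norm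
  refine le_of_tendsto h1 ?_
  filter_upwards [eventually_le_atBot b] with t ht
  have he : ‖-I‖ = 1 := by rw [norm_neg, Complex.norm_I]
  have h2 := hp.seg_exp (S + b * I) (-I) he (l := b - t) (by linarith) hk hA hB (fun s hs0 _ => by
    have := hb s hs0
    rwa [show (S : ℂ) + b * I + (s : ℂ) * -I = S + (b - s : ℝ) * I by push_cast; ring])
  rw [norm_sub_rev]
  rwa [show (S : ℂ) + b * I + ((b - t : ℝ) : ℂ) * -I = S + t * I by push_cast; ring] at h2

/-- the right horizontal ray (below the real axis) -/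
theorem Pk.right_exp {θ : ℝ} {h P : ℂ → ℂ} {lL V lR : ℂ} (hp : Pk θ h P lL V lR) {Y : ℝ} (hY : Y < 0) (a : ℝ)
    {A B k : ℝ} (hk : 0 < k) (hA : 0 ≤ A) (hB : 0 ≤ B)
    (hb : ∀ t : ℝ, 0 ≤ t → ‖h ((a + t : ℝ) + Y * I)‖ ≤ (A + B * t) * Real.exp (-(k * t))) :
    ‖lR - P (a + Y * I)‖ ≤ A / k + B / k ^ 2 := by
  have h1 := ((hp.right Y hY).sub (tendsto_const_nhds (x := P (a + Y * I)))).norm
  refine le_of_tendsto h1 ?_
  filter_upwards [eventually_ge_atTop a] with t ht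
  have h2 := hp.seg_exp (a + Y * I) 1 norm_one (l := t - a) (by linarith) hk hA hB (fun s hs0 _ => by
    have := hb s hs0
    rwa [show (a : ℂ) + Y * I + (s : ℂ) * 1 = (a + s : ℝ) + Y * I by push_cast; ring])
  rwa [show (a : ℂ) + Y * I + ((t - a : ℝ) : ℂ) * 1 = t + Y * I by push_cast; ring] at h2

end Sok.W
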