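import Pool.Agent.Lib.MP_816dec_an.LYExp
import Pool.Agent.Lib.MP_816dec_an.PkLegs

/-!
MP_816dec_an, b = 1, `1.3 ≤ κ ≤ 4.7`: the far part of the right contour (weights `1` and `mw`).
-/

set_option autoImplicit false

open Complex Set Filter Topology MeasureTheory

namespace Sok

open W

/-- a segment with an exponential bound -/
theorem prim_seg_exp {h P : ℂ → ℂ} (hd : Differentiable ℂ h) (hP : ∀ x, HasDerivAt P (h x) x) (q e : ℂ) (he : ‖e‖ = 1)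
    {l : ℝ} (hl : 0 ≤ l) {g : ℝ → ℝ} (hg : Continuous g) (hb : ∀ t : ℝ, 0 ≤ t → t ≤ l → ‖h (q + t * e)‖ ≤ g t) :
    ‖P (q + l * e) - P q‖ ≤ ∫ t in (0:ℝ)..l, g t := by
  have hder : ∀ t ∈ uIcc 0 l, HasDerivAt (fun t : ℝ => P (q + t * e)) (e * h (q + t * e)) t := by
    intro t _
    have h4 : HasDerivAt (fun t : ℝ => q + (t : ℂ) * e) (1 * e) t :=
      ((Complex.ofRealCLM.hasDerivAt (x := t)).mul_const _).const_add _
    have h5 := HasDerivAt.comp t (hP (q + (t : ℂ) * e)) h4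
    refine h5.congr_deriv ?_
    ring
  have h6 : IntervalIntegrable (fun t : ℝ => e * h (q + t * e)) volume 0 l := by
    apply Continuous.intervalIntegrable
    have := hd.continuous
    fun_prop
  have h7 := intervalIntegral.integral_eq_sub_of_hasDerivAt hder h6
  rw [Complex.ofReal_zero, zero_mul, add_zero] at h7
  rw [← h7]
  refine intervalIntegral.norm_integral_le_of_norm_le hl ?_ (hg.intervalIntegrable _ _)
  refine Filter.Eventually.of_forall (fun t ht => ?_)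
  rw [norm_mul, he, one_mul]
  exact hb t ht.1.le ht.2

theorem prim_seg_const {h P : ℂ → ℂ} (hd : Differentiable ℂ h) (hP : ∀ x, HasDerivAt P (h x) x) (q e : ℂ) (he : ‖e‖ = 1)
    {l C : ℝ} (hl : 0 ≤ l) (hb : ∀ t : ℝ, 0 ≤ t → t ≤ l → ‖h (q + t * e)‖ ≤ C) :
    ‖P (q + l * e) - P q‖ ≤ l * C := by
  have := prim_seg_exp hd hP q e he hl (g := fun _ => C) continuous_const hb
  simpa using this

theorem Y_far {β r θ R₁ g α a e₂ ζ : ℝ} (hβ : 0 < β) (hy : SadY (β * r) θ R₁ g α) (hκ : 13 / 10 ≤ β * r)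
    (ha : R₁ = a * β) (ha4 : 4 ≤ a) (hζ : 0 ≤ ζ) (hζ' : ζ ≤ 4 / 5) (hgζ : 0 < g + ζ)
    (hE1 : ∀ t : ℝ, Real.pi / 2 ≤ t → t ≤ Real.pi → gre R₁ (-g) (Real.pi + α + t) (-ζ) ≤ -e₂)
    (hE2 : ∀ t : ℝ, Real.pi ≤ t → gre R₁ (-g) (Real.pi + α + t) (-ζ) ≤ -(e₂ + 4 / 5 * (t - Real.pi)))
    {h P : ℂ → ℂ} (hd : Differentiable ℂ h) (hP : ∀ x, HasDerivAt P (h x) x) {V lR : ℂ}
    (hV : Tendsto (fun s : ℝ => P ((Real.pi : ℝ) + s * I)) atBot (𝓝 V))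
    (hlR : ∀ Y : ℝ, Y < 0 → Tendsto (fun X : ℝ => P (X + Y * I)) atTop (𝓝 lR))
    {w : ℝ → ℝ → ℝ} {K : ℝ} (hK0 : 0 ≤ K)
    (hh : ∀ X Y : ℝ, ‖h (θ + (R₁ + ((-g : ℝ) : ℂ) * I) + (X + Y * I))‖ ≤ w X Y * (K * Real.exp (gre R₁ (-g) X Y / β)))
    {A₁ B₁ A₂ B₂ A₃ B₃ A₄ A₅ B₅ : ℝ} (hA₁ : 0 ≤ A₁) (hB₁ : 0 ≤ B₁) (hA₂ : 0 ≤ A₂) (hB₂ : 0 ≤ B₂) (hA₃ : 0 ≤ A₃)
    (hB₃ : 0 ≤ B₃) (hA₄ : 0 ≤ A₄) (hA₅ : 0 ≤ A₅) (hB₅ : 0 ≤ B₅)
    (w1 : ∀ t : ℝ, 0 ≤ t → w (-(Real.pi - α)) (-t) ≤ (A₁ + B₁ * t) * Real.exp t)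
    (w2 : ∀ t : ℝ, 0 ≤ t → 6 / 5 + t ≤ Real.pi → w (-(6 / 5 + t)) 0 ≤ A₂ + B₂ * t)
    (w3 : ∀ t : ℝ, 0 ≤ t → 6 / 5 + t ≤ Real.pi + α → w (6 / 5 + t) 0 ≤ A₃ + B₃ * t)
    (w4 : ∀ t : ℝ, 0 ≤ t → t ≤ ζ → w (Real.pi + α) (-t) ≤ A₄)
    (w5 : ∀ t : ℝ, 0 ≤ t → t ≤ Real.pi → w (Real.pi + α + t) (-ζ) ≤ A₅)
    (w6 : ∀ t : ℝ, Real.pi ≤ t → w (Real.pi + α + t) (-ζ) ≤ A₅ + B₅ * (t - Real.pi)) :
    ‖(lR - V) - (P (θ + (R₁ + ((-g : ℝ) : ℂ) * I) + ((6 / 5 : ℝ) : ℂ)) -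
      P (θ + (R₁ + ((-g : ℝ) : ℂ) * I) - ((6 / 5 : ℝ) : ℂ)))‖ ≤
      K * (Real.exp (-(53 / 100 * a)) * (A₁ / (a / 2 - 1) + B₁ / (a / 2 - 1) ^ 2) +
        Real.exp (-(54 / 100 * a)) * (A₂ / (a / 4) + B₂ / (a / 4) ^ 2) +
        Real.exp (-(62 / 100 * a)) * (A₃ / (a / 2) + B₃ / (a / 2) ^ 2) +
        (4 / 5 * A₄ + Real.pi / 2 * A₅) * Real.exp (-a) +
        Real.exp (-(e₂ / β)) * (Real.pi / 2 * A₅ + A₅ / (4 / 5 / β) + B₅ / (4 / 5 / β) ^ 2)) := by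
  have hpi := Real.pi_gt_d4
  have hpi' := Real.pi_lt_d4
  obtain ⟨y, hyd⟩ : ∃ y : ℂ, y = θ + (R₁ + ((-g : ℝ) : ℂ) * I) := ⟨_, rfl⟩
  rw [← hyd]
  have hh' : ∀ X Y : ℝ, ‖h (y + (X + Y * I))‖ ≤ w X Y * (K * Real.exp (gre R₁ (-g) X Y / β)) := by
    rw [hyd]; exact hh
  have hyre : y = ((2 * Real.pi - α : ℝ) : ℂ) + ((-g : ℝ) : ℂ) * I := by
    rw [hyd, hy.hα]; push_cast; ring
  have hα0 := hy.α0
  have hα1 := hy.α1
  have ha0 : 0 < a := by linarith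
  have hRb : R₁ / β = a := by rw [ha]; field_simp
  -- generic estimate of one point
  have pt : ∀ (X Y W e : ℝ), 0 ≤ W → w X Y ≤ W → gre R₁ (-g) X Y ≤ -e →
      ‖h (y + (X + Y * I))‖ ≤ W * (K * Real.exp (-(e / β))) := by
    intro X Y W e hW hw he
    refine (hh' X Y).trans ?_
    have h1 : Real.exp (gre R₁ (-g) X Y / β) ≤ Real.exp (-(e / β)) := by
      apply Real.exp_le_exp.2
      rw [← neg_div]
      exact div_le_div_of_nonneg_right he hβ.le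
    calc w X Y * (K * Real.exp (gre R₁ (-g) X Y / β)) ≤ W * (K * Real.exp (gre R₁ (-g) X Y / β)) :=
          mul_le_mul_of_nonneg_right hw (by positivity)
      _ ≤ W * (K * Real.exp (-(e / β))) :=
          mul_le_mul_of_nonneg_left (mul_le_mul_of_nonneg_left h1 hK0) hW
  -- D1
  have D1 : ‖P (y + ((-(Real.pi - α) : ℝ) : ℂ)) - V‖ ≤
      K * (Real.exp (-(53 / 100 * a)) * (A₁ / (a / 2 - 1) + B₁ / (a / 2 - 1) ^ 2)) := by
    have h1 := ((tendsto_const_nhds (x := P (y + ((-(Real.pi - α) : ℝ) : ℂ)))).sub hV).norm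
    refine le_of_tendsto h1 ?_
    filter_upwards [eventually_le_atBot (-g)] with t ht
    have he' : ‖-I‖ = 1 := by rw [norm_neg, Complex.norm_I]
    have b2 := prim_seg_exp hd hP (y + ((-(Real.pi - α) : ℝ) : ℂ)) (-I) he' (l := -g - t) (by linarith)
      (g := fun v => (K * Real.exp (-(53 / 100 * a)) * A₁ + K * Real.exp (-(53 / 100 * a)) * B₁ * v) *
        Real.exp (-((a / 2 - 1) * v))) (by fun_prop)
      (fun v hv0 _ => by
        have h2 := pt (-(Real.pi - α)) (-v) ((A₁ + B₁ * v) * Real.exp v) (53 / 100 * R₁ + 1 / 2 * R₁ * v) (by positivity)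
          (w1 v hv0) (greY_A1 hy hκ hv0)
        have e1 : y + ((-(Real.pi - α) : ℝ) : ℂ) + (v : ℂ) * -I = y + (((-(Real.pi - α) : ℝ) : ℂ) + ((-v : ℝ) : ℂ) * I) := by
          push_cast; ring
        rw [e1]
        refine h2.trans (le_of_eq ?_)
        have e2 : Real.exp v * Real.exp (-((53 / 100 * R₁ + 1 / 2 * R₁ * v) / β)) =
            Real.exp (-(53 / 100 * a)) * Real.exp (-((a / 2 - 1) * v)) := by
          rw [← Real.exp_add, ← Real.exp_add]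
          congr 1
          rw [ha]
          field_simp
          ring
        linear_combination (A₁ + B₁ * v) * K * e2)
    have b3 := int_lin_exp_le (A := K * Real.exp (-(53 / 100 * a)) * A₁) (B := K * Real.exp (-(53 / 100 * a)) * B₁)
      (k := a / 2 - 1) (l := -g - t) (by linarith) (by linarith) (by positivity) (by positivity)
    have e3 : y + ((-(Real.pi - α) : ℝ) : ℂ) + ((-g - t : ℝ) : ℂ) * -I = ((Real.pi : ℝ) : ℂ) + (t : ℂ) * I := by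
      rw [hyre]; push_cast; ring
    rw [e3] at b2
    rw [norm_sub_rev]
    refine b2.trans (b3.trans (le_of_eq ?_))
    ring
  -- D2
  have D2 : ‖P (y - ((6 / 5 : ℝ) : ℂ)) - P (y + ((-(Real.pi - α) : ℝ) : ℂ))‖ ≤
      K * (Real.exp (-(54 / 100 * a)) * (A₂ / (a / 4) + B₂ / (a / 4) ^ 2)) := by
    have he' : ‖(-1 : ℂ)‖ = 1 := by simp
    have b2 := prim_seg_exp hd hP (y - ((6 / 5 : ℝ) : ℂ)) (-1) he' (l := Real.pi - α - 6 / 5) (by linarith)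
      (g := fun v => (K * Real.exp (-(54 / 100 * a)) * A₂ + K * Real.exp (-(54 / 100 * a)) * B₂ * v) *
        Real.exp (-((a / 4) * v))) (by fun_prop)
      (fun v hv0 hv1 => by
        have h2 := pt (-(6 / 5 + v)) 0 (A₂ + B₂ * v) (54 / 100 * R₁ + 1 / 4 * R₁ * v) (by positivity)
          (w2 v hv0 (by linarith)) (greY_A2 hy hκ hv0 (by linarith))
        have e1 : y - ((6 / 5 : ℝ) : ℂ) + (v : ℂ) * -1 = y + (((-(6 / 5 + v) : ℝ) : ℂ) + ((0 : ℝ) : ℂ) * I) := by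
          push_cast; ring
        rw [e1]
        refine h2.trans (le_of_eq ?_)
        have e2 : Real.exp (-((54 / 100 * R₁ + 1 / 4 * R₁ * v) / β)) =
            Real.exp (-(54 / 100 * a)) * Real.exp (-((a / 4) * v)) := by
          rw [← Real.exp_add]
          congr 1
          rw [ha]
          field_simp
          ring
        linear_combination (A₂ + B₂ * v) * K * e2)
    have b3 := int_lin_exp_le (A := K * Real.exp (-(54 / 100 * a)) * A₂) (B := K * Real.exp (-(54 / 100 * a)) * B₂)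
      (k := a / 4) (l := Real.pi - α - 6 / 5) (by linarith) (by linarith) (by positivity) (by positivity)
    have e3 : y - ((6 / 5 : ℝ) : ℂ) + ((Real.pi - α - 6 / 5 : ℝ) : ℂ) * -1 = y + ((-(Real.pi - α) : ℝ) : ℂ) := by
      push_cast; ring
    rw [e3] at b2
    rw [norm_sub_rev]
    refine b2.trans (b3.trans (le_of_eq ?_))
    ring
  -- D3
  have D3 : ‖P (y + ((Real.pi + α : ℝ) : ℂ)) - P (y + ((6 / 5 : ℝ) : ℂ))‖ ≤
      K * (Real.exp (-(62 / 100 * a)) * (A₃ / (a / 2) + B₃ / (a / 2) ^ 2)) := by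
    have b2 := prim_seg_exp hd hP (y + ((6 / 5 : ℝ) : ℂ)) 1 norm_one (l := Real.pi + α - 6 / 5) (by linarith)
      (g := fun v => (K * Real.exp (-(62 / 100 * a)) * A₃ + K * Real.exp (-(62 / 100 * a)) * B₃ * v) *
        Real.exp (-((a / 2) * v))) (by fun_prop)
      (fun v hv0 hv1 => by
        have h2 := pt (6 / 5 + v) 0 (A₃ + B₃ * v) (62 / 100 * R₁ + 1 / 2 * R₁ * v) (by positivity)
          (w3 v hv0 (by linarith)) (greY_A3 hy hκ hv0 (by linarith))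
        have e1 : y + ((6 / 5 : ℝ) : ℂ) + (v : ℂ) * 1 = y + (((6 / 5 + v : ℝ) : ℂ) + ((0 : ℝ) : ℂ) * I) := by
          push_cast; ring
        rw [e1]
        refine h2.trans (le_of_eq ?_)
        have e2 : Real.exp (-((62 / 100 * R₁ + 1 / 2 * R₁ * v) / β)) =
            Real.exp (-(62 / 100 * a)) * Real.exp (-((a / 2) * v)) := by
          rw [← Real.exp_add]
          congr 1
          rw [ha]
          field_simp
          ring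
        linear_combination (A₃ + B₃ * v) * K * e2)
    have b3 := int_lin_exp_le (A := K * Real.exp (-(62 / 100 * a)) * A₃) (B := K * Real.exp (-(62 / 100 * a)) * B₃)
      (k := a / 2) (l := Real.pi + α - 6 / 5) (by linarith) (by linarith) (by positivity) (by positivity)
    have e3 : y + ((6 / 5 : ℝ) : ℂ) + ((Real.pi + α - 6 / 5 : ℝ) : ℂ) * 1 = y + ((Real.pi + α : ℝ) : ℂ) := by
      push_cast; ring
    rw [e3] at b2
    refine b2.trans (b3.trans (le_of_eq ?_))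
    ring
  -- D4
  have D4 : ‖P (y + ((Real.pi + α : ℝ) : ℂ) + (ζ : ℂ) * -I) - P (y + ((Real.pi + α : ℝ) : ℂ))‖ ≤
      4 / 5 * (A₄ * (K * Real.exp (-a))) := by
    have he' : ‖-I‖ = 1 := by rw [norm_neg, Complex.norm_I]
    have b2 := prim_seg_const hd hP (y + ((Real.pi + α : ℝ) : ℂ)) (-I) he' hζ (C := A₄ * (K * Real.exp (-a)))
      (fun v hv0 hv1 => by
        have h2 := pt (Real.pi + α) (-v) A₄ R₁ hA₄ (w4 v hv0 hv1) (greY_A4 hy hκ hv0)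
        rw [hRb] at h2
        have e1 : y + ((Real.pi + α : ℝ) : ℂ) + (v : ℂ) * -I = y + (((Real.pi + α : ℝ) : ℂ) + ((-v : ℝ) : ℂ) * I) := by
          push_cast; ring
        rw [e1]
        exact h2)
    refine b2.trans (mul_le_mul_of_nonneg_right hζ' (by positivity))
  -- D5
  obtain ⟨q, hq⟩ : ∃ q : ℂ, q = y + ((Real.pi + α : ℝ) : ℂ) + (ζ : ℂ) * -I := ⟨_, rfl⟩
  have hqt : ∀ v : ℝ, q + (v : ℂ) * 1 = y + (((Real.pi + α + v : ℝ) : ℂ) + ((-ζ : ℝ) : ℂ) * I) := by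
    intro v; rw [hq]; push_cast; ring
  have D5 : ‖P (q + ((Real.pi / 2 : ℝ) : ℂ) * 1) - P q‖ ≤ Real.pi / 2 * (A₅ * (K * Real.exp (-a))) := by
    refine prim_seg_const hd hP q 1 norm_one (by positivity) (fun v hv0 hv1 => ?_)
    have h2 := pt (Real.pi + α + v) (-ζ) A₅ R₁ hA₅ (w5 v hv0 (by linarith)) (greY_A5a hy hκ hζ hv0 hv1)
    rw [hRb] at h2
    rw [hqt]
    exact h2
  have D6 : ‖P (q + ((Real.pi : ℝ) : ℂ) * 1) - P (q + ((Real.pi / 2 : ℝ) : ℂ) * 1)‖ ≤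
      Real.pi / 2 * (A₅ * (K * Real.exp (-(e₂ / β)))) := by
    have b2 := prim_seg_const hd hP (q + ((Real.pi / 2 : ℝ) : ℂ) * 1) 1 norm_one (l := Real.pi / 2) (by positivity)
      (C := A₅ * (K * Real.exp (-(e₂ / β))))
      (fun v hv0 hv1 => by
        have h2 := pt (Real.pi + α + (Real.pi / 2 + v)) (-ζ) A₅ e₂ hA₅ (w5 _ (by linarith) (by linarith))
          (hE1 _ (by linarith) (by linarith))
        have e1 : q + ((Real.pi / 2 : ℝ) : ℂ) * 1 + (v : ℂ) * 1 = q + ((Real.pi / 2 + v : ℝ) : ℂ) * 1 := by push_cast; ring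
        rw [e1, hqt]
        exact h2)
    have e3 : q + ((Real.pi / 2 : ℝ) : ℂ) * 1 + ((Real.pi / 2 : ℝ) : ℂ) * 1 = q + ((Real.pi : ℝ) : ℂ) * 1 := by
      push_cast; ring
    rw [e3] at b2
    exact b2
  have D7 : ‖lR - P (q + ((Real.pi : ℝ) : ℂ) * 1)‖ ≤
      K * (Real.exp (-(e₂ / β)) * (A₅ / (4 / 5 / β) + B₅ / (4 / 5 / β) ^ 2)) := by
    have hY : -(g + ζ) < 0 := by linarith
    have h1 := ((hlR _ hY).sub (tendsto_const_nhds (x := P (q + ((Real.pi : ℝ) : ℂ) * 1)))).norm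
    refine le_of_tendsto h1 ?_
    filter_upwards [eventually_ge_atTop (4 * Real.pi)] with t ht
    have b2 := prim_seg_exp hd hP (q + ((Real.pi : ℝ) : ℂ) * 1) 1 norm_one (l := t - 4 * Real.pi) (by linarith)
      (g := fun v => (K * Real.exp (-(e₂ / β)) * A₅ + K * Real.exp (-(e₂ / β)) * B₅ * v) *
        Real.exp (-((4 / 5 / β) * v))) (by fun_prop)
      (fun v hv0 _ => by
        have h2 := pt (Real.pi + α + (Real.pi + v)) (-ζ) (A₅ + B₅ * v) (e₂ + 4 / 5 * v) (by positivity)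
          (by have := w6 (Real.pi + v) (by linarith); rwa [add_sub_cancel_left] at this)
          (by have := hE2 (Real.pi + v) (by linarith); rwa [add_sub_cancel_left] at this)
        have e1 : q + ((Real.pi : ℝ) : ℂ) * 1 + (v : ℂ) * 1 = q + ((Real.pi + v : ℝ) : ℂ) * 1 := by push_cast; ring
        rw [e1, hqt]
        refine h2.trans (le_of_eq ?_)
        have e2 : Real.exp (-((e₂ + 4 / 5 * v) / β)) = Real.exp (-(e₂ / β)) * Real.exp (-((4 / 5 / β) * v)) := by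
          rw [← Real.exp_add]
          congr 1
          field_simp
          ring
        rw [e2]
        ring)
    have b3 := int_lin_exp_le (A := K * Real.exp (-(e₂ / β)) * A₅) (B := K * Real.exp (-(e₂ / β)) * B₅)
      (k := 4 / 5 / β) (l := t - 4 * Real.pi) (by linarith) (by positivity) (by positivity) (by positivity)
    have e3 : q + ((Real.pi : ℝ) : ℂ) * 1 + ((t - 4 * Real.pi : ℝ) : ℂ) * 1 = (t : ℂ) + ((-(g + ζ) : ℝ) : ℂ) * I := by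
      rw [hq, hyre]; push_cast; ring
    rw [e3] at b2
    refine b2.trans (b3.trans (le_of_eq ?_))
    ring
  rw [← hq] at D4
  have key : (lR - V) - (P (y + ((6 / 5 : ℝ) : ℂ)) - P (y - ((6 / 5 : ℝ) : ℂ))) =
      (lR - P (q + ((Real.pi : ℝ) : ℂ) * 1)) + (P (q + ((Real.pi : ℝ) : ℂ) * 1) - P (q + ((Real.pi / 2 : ℝ) : ℂ) * 1)) +
      (P (q + ((Real.pi / 2 : ℝ) : ℂ) * 1) - P q) + (P q - P (y + ((Real.pi + α : ℝ) : ℂ))) +
      (P (y + ((Real.pi + α : ℝ) : ℂ)) - P (y + ((6 / 5 : ℝ) : ℂ))) +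
      (P (y - ((6 / 5 : ℝ) : ℂ)) - P (y + ((-(Real.pi - α) : ℝ) : ℂ))) + (P (y + ((-(Real.pi - α) : ℝ) : ℂ)) - V) := by ring
  rw [key]
  have n1 := norm_add_le ((lR - P (q + ((Real.pi : ℝ) : ℂ) * 1)) + (P (q + ((Real.pi : ℝ) : ℂ) * 1) - P (q + ((Real.pi / 2 : ℝ) : ℂ) * 1)) +
      (P (q + ((Real.pi / 2 : ℝ) : ℂ) * 1) - P q) + (P q - P (y + ((Real.pi + α : ℝ) : ℂ))) +
      (P (y + ((Real.pi + α : ℝ) : ℂ)) - P (y + ((6 / 5 : ℝ) : ℂ))) +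
      (P (y - ((6 / 5 : ℝ) : ℂ)) - P (y + ((-(Real.pi - α) : ℝ) : ℂ)))) (P (y + ((-(Real.pi - α) : ℝ) : ℂ)) - V)
  have n2 := norm_add_le ((lR - P (q + ((Real.pi : ℝ) : ℂ) * 1)) + (P (q + ((Real.pi : ℝ) : ℂ) * 1) - P (q + ((Real.pi / 2 : ℝ) : ℂ) * 1)) +
      (P (q + ((Real.pi / 2 : ℝ) : ℂ) * 1) - P q) + (P q - P (y + ((Real.pi + α : ℝ) : ℂ))) +
      (P (y + ((Real.pi + α : ℝ) : ℂ)) - P (y + ((6 / 5 : ℝ) : ℂ))))
      (P (y - ((6 / 5 : ℝ) : ℂ)) - P (y + ((-(Real.pi - α) : ℝ) : ℂ)))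
  have n3 := norm_add_le ((lR - P (q + ((Real.pi : ℝ) : ℂ) * 1)) + (P (q + ((Real.pi : ℝ) : ℂ) * 1) - P (q + ((Real.pi / 2 : ℝ) : ℂ) * 1)) +
      (P (q + ((Real.pi / 2 : ℝ) : ℂ) * 1) - P q) + (P q - P (y + ((Real.pi + α : ℝ) : ℂ))))
      (P (y + ((Real.pi + α : ℝ) : ℂ)) - P (y + ((6 / 5 : ℝ) : ℂ)))
  have n4 := norm_add_le ((lR - P (q + ((Real.pi : ℝ) : ℂ) * 1)) + (P (q + ((Real.pi : ℝ) : ℂ) * 1) - P (q + ((Real.pi / 2 : ℝ) : ℂ) * 1)) +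
      (P (q + ((Real.pi / 2 : ℝ) : ℂ) * 1) - P q)) (P q - P (y + ((Real.pi + α : ℝ) : ℂ)))
  have n5 := norm_add_le ((lR - P (q + ((Real.pi : ℝ) : ℂ) * 1)) + (P (q + ((Real.pi : ℝ) : ℂ) * 1) - P (q + ((Real.pi / 2 : ℝ) : ℂ) * 1)))
      (P (q + ((Real.pi / 2 : ℝ) : ℂ) * 1) - P q)
  have n6 := norm_add_le (lR - P (q + ((Real.pi : ℝ) : ℂ) * 1))
      (P (q + ((Real.pi : ℝ) : ℂ) * 1) - P (q + ((Real.pi / 2 : ℝ) : ℂ) * 1))
  have final : ‖lR - P (q + ((Real.pi : ℝ) : ℂ) * 1)‖ + ‖P (q + ((Real.pi : ℝ) : ℂ) * 1) - P (q + ((Real.pi / 2 : ℝ) : ℂ) * 1)‖ +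
      ‖P (q + ((Real.pi / 2 : ℝ) : ℂ) * 1) - P q‖ + ‖P q - P (y + ((Real.pi + α : ℝ) : ℂ))‖ +
      ‖P (y + ((Real.pi + α : ℝ) : ℂ)) - P (y + ((6 / 5 : ℝ) : ℂ))‖ +
      ‖P (y - ((6 / 5 : ℝ) : ℂ)) - P (y + ((-(Real.pi - α) : ℝ) : ℂ))‖ + ‖P (y + ((-(Real.pi - α) : ℝ) : ℂ)) - V‖ ≤
      K * (Real.exp (-(e₂ / β)) * (A₅ / (4 / 5 / β) + B₅ / (4 / 5 / β) ^ 2)) +
      Real.pi / 2 * (A₅ * (K * Real.exp (-(e₂ / β)))) + Real.pi / 2 * (A₅ * (K * Real.exp (-a))) +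
      4 / 5 * (A₄ * (K * Real.exp (-a))) + K * (Real.exp (-(62 / 100 * a)) * (A₃ / (a / 2) + B₃ / (a / 2) ^ 2)) +
      K * (Real.exp (-(54 / 100 * a)) * (A₂ / (a / 4) + B₂ / (a / 4) ^ 2)) +
      K * (Real.exp (-(53 / 100 * a)) * (A₁ / (a / 2 - 1) + B₁ / (a / 2 - 1) ^ 2)) := by
    gcongr
  have e9 : K * (Real.exp (-(e₂ / β)) * (A₅ / (4 / 5 / β) + B₅ / (4 / 5 / β) ^ 2)) +
      Real.pi / 2 * (A₅ * (K * Real.exp (-(e₂ / β)))) + Real.pi / 2 * (A₅ * (K * Real.exp (-a))) +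
      4 / 5 * (A₄ * (K * Real.exp (-a))) + K * (Real.exp (-(62 / 100 * a)) * (A₃ / (a / 2) + B₃ / (a / 2) ^ 2)) +
      K * (Real.exp (-(54 / 100 * a)) * (A₂ / (a / 4) + B₂ / (a / 4) ^ 2)) +
      K * (Real.exp (-(53 / 100 * a)) * (A₁ / (a / 2 - 1) + B₁ / (a / 2 - 1) ^ 2)) =
      K * (Real.exp (-(53 / 100 * a)) * (A₁ / (a / 2 - 1) + B₁ / (a / 2 - 1) ^ 2) +
        Real.exp (-(54 / 100 * a)) * (A₂ / (a / 4) + B₂ / (a / 4) ^ 2) +
        Real.exp (-(62 / 100 * a)) * (A₃ / (a / 2) + B₃ / (a / 2) ^ 2) +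
        (4 / 5 * A₄ + Real.pi / 2 * A₅) * Real.exp (-a) +
        Real.exp (-(e₂ / β)) * (Real.pi / 2 * A₅ + A₅ / (4 / 5 / β) + B₅ / (4 / 5 / β) ^ 2)) := by ring
  linarith

end Sok
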