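import Pool.Agent.Lib.MP_816dec_an.LYFar
import Pool.Agent.Lib.MP_816dec_an.LTools
import Pool.Agent.Lib.MP_816dec_an.LNear

/-!
MP_816dec_an, b = 1, `1.3 ≤ κ ≤ 4.7`: value and second moment of the right part.
-/

set_option autoImplicit false

open Complex Set Filter Topology MeasureTheory

namespace Sok

open W

/-- the two choices of the depth right of `3π` -/
theorem Y_depth {κ θ R₁ g α : ℝ} (hy : SadY κ θ R₁ g α) (hκ : 13 / 10 ≤ κ) (hκ' : κ ≤ 47 / 10) :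
    ∃ ζ : ℝ, 0 ≤ ζ ∧ ζ ≤ 4 / 5 ∧ 0 < g + ζ ∧
      ((∀ t : ℝ, Real.pi / 2 ≤ t → t ≤ Real.pi → gre R₁ (-g) (Real.pi + α + t) (-ζ) ≤ -(14 / 5)) ∧
        (∀ t : ℝ, Real.pi ≤ t → gre R₁ (-g) (Real.pi + α + t) (-ζ) ≤ -(14 / 5 + 4 / 5 * (t - Real.pi)))) ∧
      (1 / 2 ≤ g →
        (∀ t : ℝ, Real.pi / 2 ≤ t → t ≤ Real.pi → gre R₁ (-g) (Real.pi + α + t) (-ζ) ≤ -(18 / 5)) ∧
        (∀ t : ℝ, Real.pi ≤ t → gre R₁ (-g) (Real.pi + α + t) (-ζ) ≤ -(18 / 5 + 4 / 5 * (t - Real.pi)))) := by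
  have hpi := Real.pi_gt_d4
  have hpi' := Real.pi_lt_d4
  have hg0 := hy.g0
  have hα0 := hy.α0
  rcases le_total g (4 / 5) with hg | hg
  · refine ⟨4 / 5 - g, by linarith, by linarith, by linarith, ?_, ?_⟩
    · refine greY_low (c := 9 / 5) hy hκ hκ' hg (by norm_num) (by norm_num) ?_ ?_
      · have h1 := Real.add_one_le_exp g
        nlinarith [Real.exp_pos g]
      · intro k hk hk'
        have hk0 : 0 < k := by linarith
        have h2 : 356 / 1000 / k ≤ 50262 / 10000 - (22256 / 10000 - 9 / 5) * k - 54 / 1000 * (9 / 5) - 14 / 5 := by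
          rw [div_le_iff₀ hk0]
          nlinarith [mul_nonneg (by linarith : 0 ≤ k - 13 / 10) (by linarith : 0 ≤ 47 / 10 - k)]
        linarith
    · intro hg1
      refine greY_low (c := 214 / 100) hy hκ hκ' hg (by norm_num) (by norm_num) ?_ ?_
      · have h1 : Real.exp g = Real.exp (1 / 2) * Real.exp (g - 1 / 2) := by rw [← Real.exp_add]; congr 1; ring
        have h2 := Real.add_one_le_exp (g - 1 / 2)
        have h3 : 16486 / 10000 ≤ Real.exp (1 / 2) := by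
          have h10 := Real.sum_le_exp_of_nonneg (x := 1/2) (by norm_num) 6
          simp only [Finset.sum_range_succ, Finset.sum_range_zero, Nat.factorial] at h10
          norm_num at h10
          linarith
        have h4 : 16486 / 10000 * (g + 1 / 2) ≤ Real.exp g := by
          rw [h1]
          exact mul_le_mul h3 (by linarith) (by linarith) (Real.exp_pos _).le
        have h5 : 13 / 10 ≤ (g + 1 / 2) * (9 / 5 - g) := by nlinarith
        nlinarith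
      · intro k hk hk'
        have hk0 : 0 < k := by linarith
        have h2 : 356 / 1000 / k ≤ 50262 / 10000 - (22256 / 10000 - 214 / 100) * k - 54 / 1000 * (214 / 100) - 18 / 5 := by
          rw [div_le_iff₀ hk0]
          nlinarith [mul_nonneg (by linarith : 0 ≤ k - 13 / 10) (by linarith : 0 ≤ 47 / 10 - k)]
        linarith
  · have hc := (hy.one_sub_cos hκ).2
    have hR : κ * Real.exp g - R₁ ≤ 15 / 100 * g := by
      have : κ * Real.exp g - R₁ = κ * Real.exp g * (1 - Real.cos α) := by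
        nth_rewrite 1 [hy.eR]; ring
      rw [this]; exact hc
    have hkg : 0 ≤ κ * Real.exp g := by
      have : 0 ≤ κ := by linarith
      positivity
    have e : ∀ t : ℝ, gre R₁ (-g) (Real.pi + α + t) (-0) = -((Real.pi + α + t) * g) - R₁ - κ * Real.exp g * Real.cos t := by
      intro t
      rw [greY_A5 hy 0 t]
      simp
    have k1 : ∀ t : ℝ, Real.pi / 2 ≤ t → t ≤ Real.pi → gre R₁ (-g) (Real.pi + α + t) (-0) ≤ -(18 / 5) := by
      intro t h1 h2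
      rw [e]
      have h3 : -(κ * Real.exp g * Real.cos t) ≤ κ * Real.exp g := by nlinarith [Real.neg_one_le_cos t]
      have h4 : 3 * Real.pi / 2 * g ≤ (Real.pi + α + t) * g := mul_le_mul_of_nonneg_right (by linarith) hg0
      nlinarith
    have k2 : ∀ t : ℝ, Real.pi ≤ t → gre R₁ (-g) (Real.pi + α + t) (-0) ≤ -(18 / 5 + 4 / 5 * (t - Real.pi)) := by
      intro t h1
      rw [e]
      have h3 : -(κ * Real.exp g * Real.cos t) ≤ κ * Real.exp g := by nlinarith [Real.neg_one_le_cos t]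
      have h4 : (2 * Real.pi + (t - Real.pi)) * g ≤ (Real.pi + α + t) * g := mul_le_mul_of_nonneg_right (by linarith) hg0
      have h5 : 4 / 5 * (t - Real.pi) ≤ g * (t - Real.pi) := mul_le_mul_of_nonneg_right hg (by linarith)
      nlinarith
    refine ⟨0, le_rfl, by norm_num, by linarith, ⟨fun t h1 h2 => (k1 t h1 h2).trans (by norm_num),
      fun t h1 => (k2 t h1).trans (by linarith)⟩, fun _ => ⟨k1, k2⟩⟩

/-- crude bound of the weight -/
theorem norm_mw_crude (X Y : ℝ) : ‖mw (X + Y * I)‖ ≤ Real.exp (-Y) + 1 + |X| + |Y| := by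
  unfold mw
  have h1 : ‖cexp (I * ((X : ℂ) + Y * I))‖ = Real.exp (-Y) := by
    rw [Complex.norm_exp, Complex.I_mul_re]
    simp
  have h2 : ‖(X : ℂ) + Y * I‖ ≤ |X| + |Y| := by
    refine (norm_add_le _ _).trans ?_
    rw [norm_mul, Complex.norm_I, mul_one, Complex.norm_real, Complex.norm_real, Real.norm_eq_abs, Real.norm_eq_abs]
  calc ‖cexp (I * ((X : ℂ) + Y * I)) - 1 - I * ((X : ℂ) + Y * I)‖
      ≤ ‖cexp (I * ((X : ℂ) + Y * I)) - 1‖ + ‖I * ((X : ℂ) + Y * I)‖ := norm_sub_le _ _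
    _ ≤ (‖cexp (I * ((X : ℂ) + Y * I))‖ + ‖(1 : ℂ)‖) + ‖I * ((X : ℂ) + Y * I)‖ := by gcongr; exact norm_sub_le _ _
    _ ≤ _ := by
      rw [h1, norm_one, norm_mul, Complex.norm_I, one_mul]
      linarith

theorem norm_mw_real (X : ℝ) : ‖mw (X + (0 : ℝ) * I)‖ ≤ X ^ 2 / 2 := by
  have h := norm_mw_le (u := (X : ℂ) + (0 : ℝ) * I) (by simp)
  have h2 : ‖(X : ℂ) + (0 : ℝ) * I‖ = |X| := by simp
  rwa [h2, sq_abs] at h

/-- the exponent on the central segment -/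
theorem greY_near {κ θ R₁ g α : ℝ} (hy : SadY κ θ R₁ g α) (hκ : 13 / 10 ≤ κ) :
    (∀ t : ℝ, 0 < t → t ≤ 6 / 5 → R₁ * (Real.cos t - 1 + t ^ 2 / 2) + g * (Real.sin t - t) ≤ (1 - 7 / 8) * R₁ * t ^ 2 / 2) ∧
    (∀ t : ℝ, -(6 / 5) ≤ t → t < 0 →
      R₁ * (Real.cos t - 1 + t ^ 2 / 2) + g * (Real.sin t - t) ≤ (1 - 3 / 4) * R₁ * t ^ 2 / 2) := by
  have hR := hy.R_pos hκ
  have hR0 : 0 ≤ R₁ := by linarith
  have hg := hy.g_le' hκ
  have hg0 := hy.g0
  constructor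
  · intro t h1 h2
    have h3 := mul_le_mul_of_nonneg_left (cos_le_quarticL t) hR0
    have h4 : g * (Real.sin t - t) ≤ 0 := mul_nonpos_of_nonneg_of_nonpos hg0 (by have := Real.sin_le h1.le; linarith)
    have h5 : t ^ 2 ≤ 36 / 25 := by nlinarith
    have h6 : t ^ 4 ≤ 36 / 25 * t ^ 2 := by nlinarith [sq_nonneg t]
    nlinarith [mul_le_mul_of_nonneg_left h6 hR0, mul_nonneg hR0 (sq_nonneg t)]
  · intro t h1 h2
    obtain ⟨s, hs⟩ : ∃ s : ℝ, s = -t := ⟨_, rfl⟩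
    have hts : t = -s := by linarith
    have hs0 : 0 < s := by linarith
    have hs1 : s ≤ 6 / 5 := by linarith
    have h3 := mul_le_mul_of_nonneg_left (cos_le_quarticL t) hR0
    rw [hts] at h3 ⊢
    rw [Real.sin_neg]
    have h4 : g * (-Real.sin s - -s) ≤ 3031 / 10000 * R₁ * (s ^ 3 / 6) := by
      have h5 : -Real.sin s - -s ≤ s ^ 3 / 6 := by have := Real.sin_ge_sub_cube hs0.le; linarith
      have h6 : 0 ≤ -Real.sin s - -s := by have := Real.sin_le hs0.le; linarith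
      exact mul_le_mul hg h5 h6 (by positivity)
    have h5 : s ^ 2 ≤ 36 / 25 := by nlinarith
    have h6 : s ^ 4 ≤ 36 / 25 * s ^ 2 := by nlinarith [sq_nonneg s]
    have h7 : s ^ 3 ≤ 6 / 5 * s ^ 2 := by nlinarith [sq_nonneg s]
    have e4 : (-s) ^ 4 = s ^ 4 := by ring
    have e2 : (-s) ^ 2 = s ^ 2 := by ring
    rw [e4, e2] at h3
    rw [e2]
    nlinarith [mul_le_mul_of_nonneg_left h6 hR0, mul_le_mul_of_nonneg_left h7 hR0, mul_nonneg hR0 (sq_nonneg s)]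

theorem SadY.norm_L {κ θ R₁ g α : ℝ} (hy : SadY κ θ R₁ g α) (hκ : 13 / 10 ≤ κ) :
    ‖(R₁ : ℂ) + ((-g : ℝ) : ℂ) * I‖ ≤ 1045 / 1000 * R₁ := by
  have hR := hy.R_pos hκ
  have hg := hy.g_le' hκ
  have hg0 := hy.g0
  have h1 : ‖(R₁ : ℂ) + ((-g : ℝ) : ℂ) * I‖ = Real.sqrt (R₁ ^ 2 + g ^ 2) := by
    rw [Complex.norm_add_mul_I]
    congr 1
    ring
  rw [h1]
  apply Real.sqrt_le_iff.2
  constructor
  · positivity
  · have : g ^ 2 ≤ (3031 / 10000 * R₁) ^ 2 := pow_le_pow_left₀ hg0 hg 2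
    nlinarith

/-- the central segment in terms of the primitive -/
theorem prim_central {h P : ℂ → ℂ} (hd : Differentiable ℂ h) (hP : ∀ x, HasDerivAt P (h x) x) (y : ℂ) :
    P (y + ((6 / 5 : ℝ) : ℂ)) - P (y - ((6 / 5 : ℝ) : ℂ)) = ∫ t in (-(6 / 5 : ℝ))..(6 / 5 : ℝ), h (y + t) := by
  have hder : ∀ t ∈ uIcc (-(6 / 5 : ℝ)) (6 / 5 : ℝ), HasDerivAt (fun t : ℝ => P (y + t)) (h (y + t)) t := by
    intro t _
    have h4 : HasDerivAt (fun t : ℝ => y + (t : ℂ)) 1 t := (Complex.ofRealCLM.hasDerivAt (x := t)).const_add _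
    have h5 := HasDerivAt.comp t (hP (y + (t : ℂ))) h4
    refine h5.congr_deriv ?_
    ring
  have h6 : IntervalIntegrable (fun t : ℝ => h (y + t)) volume (-(6 / 5 : ℝ)) (6 / 5 : ℝ) := by
    apply Continuous.intervalIntegrable
    have := hd.continuous
    fun_prop
  rw [intervalIntegral.integral_eq_sub_of_hasDerivAt hder h6]
  rw [Complex.ofReal_neg, ← sub_eq_add_neg]

/-- main term -/
theorem norm_main {β R h : ℝ} (hβ : 0 < β) :
    ‖(2 * (Real.pi : ℂ) / ((I + ((R : ℂ) + (h : ℂ) * I)) / β)) ^ (1 / 2 : ℂ)‖ =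
      Real.sqrt (2 * Real.pi * β / Real.sqrt (R ^ 2 + (1 + h) ^ 2)) := by
  have e1 : (1 / 2 : ℂ) = ((1 / 2 : ℝ) : ℂ) := by push_cast; ring
  rw [e1, Complex.norm_cpow_real, ← Real.sqrt_eq_rpow]
  congr 1
  have e2 : I + ((R : ℂ) + (h : ℂ) * I) = (R : ℂ) + ((1 + h : ℝ) : ℂ) * I := by push_cast; ring
  rw [e2, norm_div, norm_div, Complex.norm_add_mul_I, norm_mul, Complex.norm_real, Complex.norm_real, Complex.norm_ofNat,
    Real.norm_eq_abs, Real.norm_eq_abs, abs_of_pos Real.pi_pos, abs_of_pos hβ]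
  rw [div_div_eq_mul_div]

/-- limits of the primitive of `KK` -/
theorem Pack.tendsto_pi {h P : ℂ → ℂ} {lL V lR : ℂ} (hp : Pack h P lL V lR) :
    Tendsto (fun s : ℝ => P ((Real.pi : ℝ) + s * I)) atBot (𝓝 V) := by
  have hb2 := intervalIntegral_tendsto_integral_Iic (0 : ℝ) (hp.valley_int 0) tendsto_id
  have h1 : Tendsto (fun s : ℝ => P ((Real.pi : ℝ) + (0 : ℝ) * I) - I * ∫ u in s..(0:ℝ), h ((Real.pi : ℝ) + u * I)) atBot
      (𝓝 (P ((Real.pi : ℝ) + (0 : ℝ) * I) - I * ∫ u in Iic (0:ℝ), h ((Real.pi : ℝ) + u * I))) :=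
    tendsto_const_nhds.sub (hb2.const_mul I)
  rw [hp.valley 0] at h1
  have h2 : P ((Real.pi : ℝ) + (0 : ℝ) * I) - (P ((Real.pi : ℝ) + (0 : ℝ) * I) - V) = V := by ring
  rw [h2] at h1
  refine h1.congr fun s => ?_
  rw [prim_ver hp.diff hp.prim]
  ring

/-- near and far errors of the value -/
noncomputable def yJ (a β e₂ : ℝ) : ℝ :=
  (2 * (1045 / 6000 * a) / (3 / 4 * a) ^ 2 + 2 * (1045 / 6000 * a) / (7 / 8 * a) ^ 2 +
    2 * (Real.exp (-(a / 2) * (6 / 5) ^ 2) / (a * (6 / 5)))) +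
  (Real.exp (-(53 / 100 * a)) * (1 / (a / 2 - 1) + 0 / (a / 2 - 1) ^ 2) +
        Real.exp (-(54 / 100 * a)) * (1 / (a / 4) + 0 / (a / 4) ^ 2) +
        Real.exp (-(62 / 100 * a)) * (1 / (a / 2) + 0 / (a / 2) ^ 2) +
        (4 / 5 * 1 + Real.pi / 2 * 1) * Real.exp (-a) +
        Real.exp (-(e₂ / β)) * (Real.pi / 2 * 1 + 1 / (4 / 5 / β) + 0 / (4 / 5 / β) ^ 2))

/-- near and far parts of the second moment -/
noncomputable def yS (a β e₂ : ℝ) : ℝ :=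
  Real.sqrt (2 * Real.pi) / 4 * (1 / (3 / 4 * a * Real.sqrt (3 / 4 * a)) + 1 / (7 / 8 * a * Real.sqrt (7 / 8 * a))) +
  (Real.exp (-(53 / 100 * a)) * (52 / 10 / (a / 2 - 1) + 1 / (a / 2 - 1) ^ 2) +
        Real.exp (-(54 / 100 * a)) * (72 / 100 / (a / 4) + 218 / 100 / (a / 4) ^ 2) +
        Real.exp (-(62 / 100 * a)) * (72 / 100 / (a / 2) + 232 / 100 / (a / 2) ^ 2) +
        (4 / 5 * (75 / 10) + Real.pi / 2 * (106 / 10)) * Real.exp (-a) +
        Real.exp (-(e₂ / β)) * (Real.pi / 2 * (106 / 10) + 106 / 10 / (4 / 5 / β) + 1 / (4 / 5 / β) ^ 2))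

theorem Y_val {β r θ R₁ g α a e₂ ζ : ℝ} (hβ : 0 < β) (hr : 0 < r) (hy : SadY (β * r) θ R₁ g α) (hκ : 13 / 10 ≤ β * r)
    (ha : R₁ = a * β) (ha4 : 4 ≤ a) (hζ : 0 ≤ ζ) (hζ' : ζ ≤ 4 / 5) (hgζ : 0 < g + ζ)
    (hE1 : ∀ t : ℝ, Real.pi / 2 ≤ t → t ≤ Real.pi → gre R₁ (-g) (Real.pi + α + t) (-ζ) ≤ -e₂)
    (hE2 : ∀ t : ℝ, Real.pi ≤ t → gre R₁ (-g) (Real.pi + α + t) (-ζ) ≤ -(e₂ + 4 / 5 * (t - Real.pi))) :
    Real.exp (R₁ * (1 - g) / β) * (Real.sqrt (2 * Real.pi * β / Real.sqrt (R₁ ^ 2 + (1 - g) ^ 2)) - yJ a β e₂) ≤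
      ‖YR (KK β r θ)‖ := by
  have hsad := hy.sad
  obtain ⟨P, hP⟩ := exists_prim (differentiable_KK β r θ)
  obtain ⟨lL, V, lR, hp, _, hlR⟩ := exists_pack hβ hr (θ := θ) zero_le_one (differentiable_KK β r θ) (bd_KK β r θ) hP
  have hV := Pack.tendsto_pi hp
  obtain ⟨L, hL⟩ : ∃ L : ℂ, L = (R₁ : ℂ) + ((-g : ℝ) : ℂ) * I := ⟨_, rfl⟩
  obtain ⟨K, hK⟩ : ∃ K : ℝ, K = Real.exp (R₁ * (1 - g) / β) := ⟨_, rfl⟩
  have hK0 : 0 ≤ K := by rw [hK]; positivity
  have hR := hy.R_pos hκ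
  have hh : ∀ X Y : ℝ, ‖KK β r θ (θ + (R₁ + ((-g : ℝ) : ℂ) * I) + (X + Y * I))‖ ≤
      (fun _ _ : ℝ => (1 : ℝ)) X Y * (K * Real.exp (gre R₁ (-g) X Y / β)) := by
    intro X Y
    have h1 := norm_KU hβ.ne' hsad 0 X Y
    rw [pow_zero, one_mul] at h1
    have h2 : KU β r θ ((R₁ : ℂ) + ((-g : ℝ) : ℂ) * I) 0 = KK β r θ := by funext y; simp [KU]
    rw [h2] at h1
    rw [h1, one_mul, hK, ← sub_eq_add_neg]
  have hfar := Y_far hβ hy hκ ha ha4 hζ hζ' hgζ hE1 hE2 (differentiable_KK β r θ) hP hV hlR hK0 hh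
    (A₁ := 1) (B₁ := 0) (A₂ := 1) (B₂ := 0) (A₃ := 1) (B₃ := 0) (A₄ := 1) (A₅ := 1) (B₅ := 0)
    zero_le_one le_rfl zero_le_one le_rfl zero_le_one le_rfl zero_le_one zero_le_one le_rfl
    (fun t ht => by have := Real.one_le_exp ht; linarith) (fun t _ _ => by simp) (fun t _ _ => by simp)
    (fun t _ _ => le_rfl) (fun t _ _ => le_rfl) (fun t _ => by simp)
  rw [prim_central (differentiable_KK β r θ) hP, ← hL] at hfar
  -- the central segment
  have hc := KU_seg hβ.ne' hsad 0 1 (-(6 / 5)) (6 / 5)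
  have h2 : KU β r θ ((R₁ : ℂ) + ((-g : ℝ) : ℂ) * I) 0 = KK β r θ := by funext y; simp [KU]
  rw [h2, ← hL] at hc
  simp only [pow_zero, one_mul, mul_one, zero_add, pow_one] at hc
  have hN : ‖(∫ t in (-(6 / 5 : ℝ))..(6 / 5), cexp (Psi L (t : ℂ) / β)) -
      (2 * (Real.pi : ℂ) / ((I + L) / β)) ^ (1 / 2 : ℂ)‖ ≤
      (2 * (1045 / 6000 * a) / (3 / 4 * a) ^ 2 + 2 * (1045 / 6000 * a) / (7 / 8 * a) ^ 2 +
    2 * (Real.exp (-(a / 2) * (6 / 5) ^ 2) / (a * (6 / 5)))) := by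
    have hre : ((I + L) / β : ℂ).re = a := by
      rw [Complex.div_ofReal_re, hL, ha]
      simp
      field_simp
    have ha0 : 0 < a := by linarith
    have h3 := near_value (Λ := (I + L) / β) (c₁ := 3 / 4) (c₂ := 7 / 8) (M := 1045 / 6000 * a) (T := 6 / 5)
      (R := fun t : ℝ => Rm L β t) (by rw [hre]; exact ha0) (by norm_num) (by norm_num) (by norm_num) (by norm_num)
      (by positivity) (by unfold Rm; fun_prop) (by norm_num) ?_ ?_ ?_
    · rw [hre] at h3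
      refine le_trans (le_of_eq ?_) h3
      congr 2
      refine intervalIntegral.integral_congr (fun t _ => ?_)
      show _ = _
      congr 1
      have hβ' : (β : ℂ) ≠ 0 := by exact_mod_cast hβ.ne'
      unfold Psi Rm
      field_simp
      ring
    · intro t _
      have h4 := norm_exp_sub_three_le (I * (t : ℂ)) le_rfl (M := 1) (by simp)
      have h5 : ‖I * (t : ℂ)‖ = |t| := by simp
      rw [h5] at h4
      have h6 : Rm L β t = L / β * (cexp (I * t) - 1 - I * t - (I * t) ^ 2 / 2) := by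
        unfold Rm
        have : (I * (t : ℂ)) ^ 2 = -(t : ℂ) ^ 2 := by rw [mul_pow, Complex.I_sq]; ring
        rw [this]; ring
      have h7 : ‖L / (β : ℂ)‖ ≤ 1045 / 1000 * a := by
        rw [norm_div, Complex.norm_real, Real.norm_eq_abs, abs_of_pos hβ, div_le_iff₀ hβ]
        have := hy.norm_L hκ
        rw [← hL, ha] at this
        linarith
      show ‖Rm L β t‖ ≤ _
      rw [h6, norm_mul]
      calc ‖L / (β : ℂ)‖ * ‖cexp (I * t) - 1 - I * t - (I * t) ^ 2 / 2‖ ≤ (1045 / 1000 * a) * (1 * |t| ^ 3 / 6) := by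
            refine mul_le_mul h7 ?_ (norm_nonneg _) (by positivity)
            refine h4.trans (le_of_eq (by ring))
        _ = _ := by ring
    · intro t h1 h2
      have h5 := (greY_near hy hκ).2 t h1 h2
      show (Rm L β t).re ≤ _
      rw [hre, hL, re_Rm_real, div_le_iff₀ hβ]
      have e : (1 - 3 / 4) * a * t ^ 2 / 2 * β = (1 - 3 / 4) * R₁ * t ^ 2 / 2 := by rw [ha]; ring
      rw [e]
      linarith
    · intro t h1 h2
      have h5 := (greY_near hy hκ).1 t h1 h2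
      show (Rm L β t).re ≤ _
      rw [hre, hL, re_Rm_real, div_le_iff₀ hβ]
      have e : (1 - 7 / 8) * a * t ^ 2 / 2 * β = (1 - 7 / 8) * R₁ * t ^ 2 / 2 := by rw [ha]; ring
      rw [e]
      linarith
  have hE : ‖cexp ((L - I * L ^ 2 / 2) / β)‖ = K := by
    rw [hL, norm_E, hK, ← sub_eq_add_neg]
  have hmain : ‖(2 * (Real.pi : ℂ) / ((I + L) / β)) ^ (1 / 2 : ℂ)‖ =
      Real.sqrt (2 * Real.pi * β / Real.sqrt (R₁ ^ 2 + (1 - g) ^ 2)) := by
    rw [hL, norm_main hβ, ← sub_eq_add_neg]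
  -- conclusion
  have hY : YR (KK β r θ) = lR - V := hp.YR_eq
  rw [hc] at hfar
  obtain ⟨W, hW⟩ : ∃ W : ℂ, W = (2 * (Real.pi : ℂ) / ((I + L) / β)) ^ (1 / 2 : ℂ) := ⟨_, rfl⟩
  obtain ⟨Q, hQ⟩ : ∃ Q : ℂ, Q = ∫ t in (-(6 / 5 : ℝ))..(6 / 5), cexp (Psi L (t : ℂ) / β) := ⟨_, rfl⟩
  rw [← hW] at hN hmain
  rw [← hQ] at hN hfar
  have h3 : ‖cexp ((L - I * L ^ 2 / 2) / β) * W‖ ≤ ‖YR (KK β r θ)‖ +
      ‖cexp ((L - I * L ^ 2 / 2) / β) * (Q - W)‖ + ‖(lR - V) - cexp ((L - I * L ^ 2 / 2) / β) * Q‖ := by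
    rw [hY]
    have e : cexp ((L - I * L ^ 2 / 2) / β) * W = (lR - V) - cexp ((L - I * L ^ 2 / 2) / β) * (Q - W) -
        ((lR - V) - cexp ((L - I * L ^ 2 / 2) / β) * Q) := by ring
    nth_rewrite 1 [e]
    refine (norm_sub_le _ _).trans ?_
    gcongr
    exact norm_sub_le _ _
  rw [norm_mul, norm_mul, hE, hmain] at h3
  have h4 := mul_le_mul_of_nonneg_left hN hK0
  rw [← hK]
  unfold yJ
  rw [mul_sub, mul_add]
  linarith

theorem norm_Kq {β r θ : ℝ} (hβ : β ≠ 0) {R h : ℝ} (hs : Sad β r θ (R + h * I)) (X Y : ℝ) :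
    ‖Kq β r θ (R + h * I) (θ + (R + h * I) + (X + Y * I))‖ =
      ‖mw (X + Y * I)‖ * (Real.exp (R * (1 + h) / β) * Real.exp (gre R h X Y / β)) := by
  unfold Kq
  rw [norm_mul, KK_saddle hβ hs, norm_mul, norm_E, Complex.norm_exp (Psi _ _ / β), re_Psi_div]
  congr 2
  congr 1
  ring

theorem Y_sec {β r θ R₁ g α a e₂ ζ : ℝ} (hβ : 0 < β) (hr : 0 < r) (hy : SadY (β * r) θ R₁ g α) (hκ : 13 / 10 ≤ β * r)
    (hθ : θ + β < Real.pi)
    (ha : R₁ = a * β) (ha4 : 4 ≤ a) (hζ : 0 ≤ ζ) (hζ' : ζ ≤ 4 / 5) (hgζ : 0 < g + ζ)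
    (hE1 : ∀ t : ℝ, Real.pi / 2 ≤ t → t ≤ Real.pi → gre R₁ (-g) (Real.pi + α + t) (-ζ) ≤ -e₂)
    (hE2 : ∀ t : ℝ, Real.pi ≤ t → gre R₁ (-g) (Real.pi + α + t) (-ζ) ≤ -(e₂ + 4 / 5 * (t - Real.pi))) :
    ‖YR (Kq β r θ ((R₁ : ℂ) + ((-g : ℝ) : ℂ) * I))‖ ≤ Real.exp (R₁ * (1 - g) / β) * yS a β e₂ := by
  have hpi := Real.pi_gt_d4
  have hpi' := Real.pi_lt_d4
  have hα0 := hy.α0
  have hα1 := hy.α1
  have hsad := hy.sad
  obtain ⟨L, hL⟩ : ∃ L : ℂ, L = (R₁ : ℂ) + ((-g : ℝ) : ℂ) * I := ⟨_, rfl⟩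
  obtain ⟨K, hK⟩ : ∃ K : ℝ, K = Real.exp (R₁ * (1 - g) / β) := ⟨_, rfl⟩
  have hK0 : 0 ≤ K := by rw [hK]; positivity
  obtain ⟨P, lL, V, lR, hp, _, _⟩ := exists_Pk_Kq hβ hr θ L
  have hV := hp.valley Real.pi (by linarith) (by linarith) (by rw [min_self]; exact hθ)
  have hlR := hp.right
  have hR := hy.R_pos hκ
  have ha0 : 0 < a := by linarith
  have hh : ∀ X Y : ℝ, ‖Kq β r θ L (θ + (R₁ + ((-g : ℝ) : ℂ) * I) + (X + Y * I))‖ ≤
      (fun X Y : ℝ => ‖mw (X + Y * I)‖) X Y * (K * Real.exp (gre R₁ (-g) X Y / β)) := by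
    intro X Y
    have h1 := norm_Kq hβ.ne' hsad X Y
    rw [← hL] at h1 ⊢
    rw [h1, hK, ← sub_eq_add_neg]
  have hexp : Real.exp (4 / 5) ≤ 22256 / 10000 := by
    have h5 : Real.exp (4 / 5) = Real.exp 1 * Real.exp (-(1 / 5)) := by rw [← Real.exp_add]; norm_num
    have h6 := Real.exp_one_lt_d9
    have h7 : Real.exp (-(1 / 5)) ≤ 81874 / 100000 := by
      have h9 : 1 / Real.exp (1 / 5) = Real.exp (-(1 / 5)) := by rw [Real.exp_neg]; simp
      rw [← h9, div_le_iff₀ (Real.exp_pos _)]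
      have h10 := Real.sum_le_exp_of_nonneg (x := 1/5) (by norm_num) 6
      simp only [Finset.sum_range_succ, Finset.sum_range_zero, Nat.factorial] at h10
      norm_num at h10
      linarith
    rw [h5]
    have := Real.exp_pos (-(1 / 5) : ℝ)
    nlinarith
  have hfar := Y_far hβ hy hκ ha ha4 hζ hζ' hgζ hE1 hE2 hp.diff hp.prim hV hlR hK0 hh
    (A₁ := 52 / 10) (B₁ := 1) (A₂ := 72 / 100) (B₂ := 218 / 100) (A₃ := 72 / 100) (B₃ := 232 / 100) (A₄ := 75 / 10)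
    (A₅ := 106 / 10) (B₅ := 1) (by norm_num) (by norm_num) (by norm_num) (by norm_num) (by norm_num) (by norm_num)
    (by norm_num) (by norm_num) (by norm_num)
    (fun t ht => by
      have h1 := norm_mw_crude (-(Real.pi - α)) (-t)
      have h2 := Real.one_le_exp ht
      rw [neg_neg, abs_neg, abs_neg, abs_of_nonneg ht, abs_of_nonneg (by linarith : 0 ≤ Real.pi - α)] at h1
      refine h1.trans ?_
      nlinarith)
    (fun t ht h1 => by
      refine (norm_mw_real _).trans ?_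
      nlinarith)
    (fun t ht h1 => by
      refine (norm_mw_real _).trans ?_
      nlinarith)
    (fun t ht h1 => by
      have h2 := norm_mw_crude (Real.pi + α) (-t)
      rw [neg_neg, abs_neg, abs_of_nonneg ht, abs_of_nonneg (by linarith : 0 ≤ Real.pi + α)] at h2
      have h3 : Real.exp t ≤ Real.exp (4 / 5) := Real.exp_le_exp.2 (by linarith)
      refine h2.trans ?_
      linarith)
    (fun t ht h1 => by
      have h2 := norm_mw_crude (Real.pi + α + t) (-ζ)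
      rw [neg_neg, abs_neg, abs_of_nonneg hζ, abs_of_nonneg (by linarith : 0 ≤ Real.pi + α + t)] at h2
      have h3 : Real.exp ζ ≤ Real.exp (4 / 5) := Real.exp_le_exp.2 (by linarith)
      refine h2.trans ?_
      linarith)
    (fun t ht => by
      have h2 := norm_mw_crude (Real.pi + α + t) (-ζ)
      rw [neg_neg, abs_neg, abs_of_nonneg hζ, abs_of_nonneg (by linarith : 0 ≤ Real.pi + α + t)] at h2
      have h3 : Real.exp ζ ≤ Real.exp (4 / 5) := Real.exp_le_exp.2 (by linarith)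
      refine h2.trans ?_
      linarith)
  rw [prim_central hp.diff hp.prim] at hfar
  -- the central segment
  have hcen : ‖∫ t in (-(6 / 5 : ℝ))..(6 / 5), Kq β r θ L (θ + (R₁ + ((-g : ℝ) : ℂ) * I) + t)‖ ≤
      K * (Real.sqrt (2 * Real.pi) / 4 *
        (1 / (3 / 4 * a * Real.sqrt (3 / 4 * a)) + 1 / (7 / 8 * a * Real.sqrt (7 / 8 * a)))) := by
    have h3 := near_second (a := a) (c₁ := 3 / 4) (c₂ := 7 / 8) (T := 6 / 5)
      (E := fun t : ℝ => gre R₁ (-g) t 0 / β) ha0 (by norm_num) (by norm_num) (by unfold gre; fun_prop) (by norm_num) ?_ ?_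
    · have h4 : ‖∫ t in (-(6 / 5 : ℝ))..(6 / 5), Kq β r θ L (θ + (R₁ + ((-g : ℝ) : ℂ) * I) + t)‖ ≤
          ∫ t in (-(6 / 5 : ℝ))..(6 / 5), K * (t ^ 2 / 2 * Real.exp (gre R₁ (-g) t 0 / β)) := by
        refine intervalIntegral.norm_integral_le_of_norm_le (by norm_num) ?_ ?_
        · refine Filter.Eventually.of_forall (fun t _ => ?_)
          have h5 := hh t 0
          have h6 := norm_mw_real t
          have e1 : (θ : ℂ) + (R₁ + ((-g : ℝ) : ℂ) * I) + ((t : ℂ) + ((0 : ℝ) : ℂ) * I) =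
              θ + (R₁ + ((-g : ℝ) : ℂ) * I) + t := by push_cast; ring
          rw [e1] at h5
          refine h5.trans ?_
          have h7 : 0 ≤ K * Real.exp (gre R₁ (-g) t 0 / β) := by positivity
          calc ‖mw (t + ((0 : ℝ) : ℂ) * I)‖ * (K * Real.exp (gre R₁ (-g) t 0 / β)) ≤
                (t ^ 2 / 2) * (K * Real.exp (gre R₁ (-g) t 0 / β)) := mul_le_mul_of_nonneg_right h6 h7
            _ = _ := by ring
        · apply Continuous.intervalIntegrable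
          unfold gre
          fun_prop
      rw [intervalIntegral.integral_const_mul] at h4
      exact h4.trans (mul_le_mul_of_nonneg_left h3 hK0)
    · intro t h1 h2
      have h5 := (greY_near hy hκ).2 t h1 h2
      have e : gre R₁ (-g) t 0 = (R₁ * (Real.cos t - 1 + t ^ 2 / 2) + g * (Real.sin t - t)) - R₁ * t ^ 2 / 2 := by
        unfold gre
        rw [neg_zero, Real.exp_zero]
        ring
      rw [div_le_iff₀ hβ, e]
      have e2 : -(3 / 4 * a / 2) * t ^ 2 * β = (1 - 3 / 4) * R₁ * t ^ 2 / 2 - R₁ * t ^ 2 / 2 := by rw [ha]; ring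
      rw [e2]
      linarith
    · intro t h1 h2
      have h5 := (greY_near hy hκ).1 t h1 h2
      have e : gre R₁ (-g) t 0 = (R₁ * (Real.cos t - 1 + t ^ 2 / 2) + g * (Real.sin t - t)) - R₁ * t ^ 2 / 2 := by
        unfold gre
        rw [neg_zero, Real.exp_zero]
        ring
      rw [div_le_iff₀ hβ, e]
      have e2 : -(7 / 8 * a / 2) * t ^ 2 * β = (1 - 7 / 8) * R₁ * t ^ 2 / 2 - R₁ * t ^ 2 / 2 := by rw [ha]; ring
      rw [e2]
      linarith
  have hY : YR (Kq β r θ L) = lR - V := hp.YR_eq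
  rw [← hL, ← hK, hY]
  have e : lR - V = ((lR - V) - ∫ t in (-(6 / 5 : ℝ))..(6 / 5), Kq β r θ L (θ + (R₁ + ((-g : ℝ) : ℂ) * I) + t)) +
      ∫ t in (-(6 / 5 : ℝ))..(6 / 5), Kq β r θ L (θ + (R₁ + ((-g : ℝ) : ℂ) * I) + t) := by ring
  rw [e]
  refine (norm_add_le _ _).trans ?_
  unfold yS
  rw [mul_add]
  linarith

/-- the quotient for the right part -/
theorem quotY {β r θ : ℝ} (hβ : 0 < β) (hr : 0 < r) {L : ℂ} (hs : Sad β r θ L) {M0 N J S1 : ℝ} (hM0 : 0 < M0)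
    (hJ : J < N) (h0 : M0 * (N - J) ≤ ‖YR (KK β r θ)‖) (h1 : ‖YR (Kq β r θ L)‖ ≤ M0 * S1) (hD : 0 < ‖1 - I * L‖) {ε : ℝ}
    (hε0 : 0 ≤ ε) (hε : ‖L‖ * S1 ≤ ε * (N - J) * ‖1 - I * L‖) :
    ‖YR (K1 β r θ) / YR (KK β r θ) - L‖ ≤ ε := by
  have hpos : 0 < M0 * (N - J) := mul_pos hM0 (by linarith)
  have hX : 0 < ‖YR (KK β r θ)‖ := lt_of_lt_of_le hpos h0
  have hX0 : YR (KK β r θ) ≠ 0 := norm_pos_iff.1 hX
  have hid := (first_moment hβ hr hs).2
  have e : YR (K1 β r θ) / YR (KK β r θ) - L = (YR (K1 β r θ) - L * YR (KK β r θ)) / YR (KK β r θ) := by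
    field_simp
  rw [e, norm_div, div_le_iff₀ hX]
  have h2 : ‖1 - I * L‖ * ‖YR (K1 β r θ) - L * YR (KK β r θ)‖ = ‖L‖ * ‖YR (Kq β r θ L)‖ := by
    rw [← norm_mul, hid, norm_mul]
  have h3 : ‖1 - I * L‖ * ‖YR (K1 β r θ) - L * YR (KK β r θ)‖ ≤ ‖1 - I * L‖ * (ε * ‖YR (KK β r θ)‖) := by
    rw [h2]
    calc ‖L‖ * ‖YR (Kq β r θ L)‖ ≤ ‖L‖ * (M0 * S1) := mul_le_mul_of_nonneg_left h1 (norm_nonneg _)
      _ = M0 * (‖L‖ * S1) := by ring
      _ ≤ M0 * (ε * (N - J) * ‖1 - I * L‖) := mul_le_mul_of_nonneg_left hε hM0.le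
      _ = ‖1 - I * L‖ * (ε * (M0 * (N - J))) := by ring
      _ ≤ ‖1 - I * L‖ * (ε * ‖YR (KK β r θ)‖) := by gcongr
  exact le_of_mul_le_mul_left h3 hD

end Sok
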