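import Pool.Agent.Lib.MP_816dec_an.LYMain

/-!
MP_816dec_an, b = 1, `1.3 ≤ κ ≤ 4.7`: numerical evaluation of the errors of the right part.
-/

set_option autoImplicit false

open Complex Set Filter Topology MeasureTheory

namespace Sok

open W

theorem exp_sqrt_le {c x0 x : ℝ} (h0 : 0 < x0) (hx : x0 ≤ x) (hc : 1 / 2 ≤ c * x0) :
    Real.exp (-(c * x)) * Real.sqrt x ≤ Real.exp (-(c * x0)) * Real.sqrt x0 := by
  have hx0 : 0 < x := by linarith
  have h1 : Real.sqrt x ≤ Real.sqrt x0 * Real.exp ((x / x0 - 1) / 2) := by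
    have h2 : x ≤ x0 * Real.exp (x / x0 - 1) := by
      have h3 := Real.add_one_le_exp (x / x0 - 1)
      have h4 : x0 * (x / x0) = x := by field_simp
      nlinarith
    calc Real.sqrt x ≤ Real.sqrt (x0 * Real.exp (x / x0 - 1)) := Real.sqrt_le_sqrt h2
      _ = Real.sqrt x0 * Real.sqrt (Real.exp (x / x0 - 1)) := Real.sqrt_mul h0.le _
      _ = _ := by rw [Real.sqrt_eq_rpow (Real.exp _), ← Real.exp_mul]; congr 2; ring
  calc Real.exp (-(c * x)) * Real.sqrt x ≤ Real.exp (-(c * x)) * (Real.sqrt x0 * Real.exp ((x / x0 - 1) / 2)) :=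
        mul_le_mul_of_nonneg_left h1 (Real.exp_pos _).le
    _ = Real.exp (-(c * x) + (x / x0 - 1) / 2) * Real.sqrt x0 := by rw [Real.exp_add]; ring
    _ ≤ Real.exp (-(c * x0)) * Real.sqrt x0 := by
        apply mul_le_mul_of_nonneg_right _ (Real.sqrt_nonneg _)
        apply Real.exp_le_exp.2
        have h5 : (x / x0 - 1) / 2 = (x - x0) * (1 / (2 * x0)) := by field_simp
        have h6 : 1 / (2 * x0) ≤ c := by rw [div_le_iff₀ (by positivity)]; linarith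
        have h7 := mul_le_mul_of_nonneg_left h6 (by linarith : 0 ≤ x - x0)
        rw [h5]
        linarith

theorem exp_neg_five : Real.exp (-5) ≤ 6738 / 1000000 := by
  have h1 := Real.exp_one_gt_d9
  have h2 : Real.exp 5 = Real.exp 1 ^ 5 := by rw [← Real.exp_nat_mul]; norm_num
  have h3 : (2.7182818283 : ℝ) ^ 5 ≤ Real.exp 5 := by rw [h2]; exact pow_le_pow_left₀ (by norm_num) h1.le 5
  rw [Real.exp_neg, inv_le_comm₀ (Real.exp_pos _) (by norm_num)]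
  refine le_trans ?_ h3
  norm_num

theorem exp_neg_six : Real.exp (-6) ≤ 24788 / 10000000 := by
  have h1 := Real.exp_one_gt_d9
  have h2 : Real.exp 6 = Real.exp 1 ^ 6 := by rw [← Real.exp_nat_mul]; norm_num
  have h3 : (2.7182818283 : ℝ) ^ 6 ≤ Real.exp 6 := by rw [h2]; exact pow_le_pow_left₀ (by norm_num) h1.le 6
  rw [Real.exp_neg, inv_le_comm₀ (Real.exp_pos _) (by norm_num)]
  refine le_trans ?_ h3
  norm_num

theorem exp_neg_seven : Real.exp (-7) ≤ 9119 / 10000000 := by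
  have h1 := Real.exp_one_gt_d9
  have h2 : Real.exp 7 = Real.exp 1 ^ 7 := by rw [← Real.exp_nat_mul]; norm_num
  have h3 : (2.7182818283 : ℝ) ^ 7 ≤ Real.exp 7 := by rw [h2]; exact pow_le_pow_left₀ (by norm_num) h1.le 7
  rw [Real.exp_neg, inv_le_comm₀ (Real.exp_pos _) (by norm_num)]
  refine le_trans ?_ h3
  norm_num

theorem exp_neg_eight : Real.exp (-8) ≤ 33547 / 100000000 := by
  have h1 := Real.exp_one_gt_d9
  have h2 : Real.exp 8 = Real.exp 1 ^ 8 := by rw [← Real.exp_nat_mul]; norm_num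
  have h3 : (2.7182818283 : ℝ) ^ 8 ≤ Real.exp 8 := by rw [h2]; exact pow_le_pow_left₀ (by norm_num) h1.le 8
  rw [Real.exp_neg, inv_le_comm₀ (Real.exp_pos _) (by norm_num)]
  refine le_trans ?_ h3
  norm_num

theorem exp_neg_nine : Real.exp (-9) ≤ 12342 / 100000000 := by
  have h1 := Real.exp_one_gt_d9
  have h2 : Real.exp 9 = Real.exp 1 ^ 9 := by rw [← Real.exp_nat_mul]; norm_num
  have h3 : (2.7182818283 : ℝ) ^ 9 ≤ Real.exp 9 := by rw [h2]; exact pow_le_pow_left₀ (by norm_num) h1.le 9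
  rw [Real.exp_neg, inv_le_comm₀ (Real.exp_pos _) (by norm_num)]
  refine le_trans ?_ h3
  norm_num

/-- `e^{-ca} √a` for `a ≥ a0`, `c a0 ≥ k`, `e^{-k} ≤ E`, `√a0 ≤ s0` -/
theorem exp_sqrt_bd {c k a0 a E s0 : ℝ} (h0 : 0 < a0) (ha : a0 ≤ a) (hk : 1 / 2 ≤ k) (hc : k ≤ c * a0)
    (hE : Real.exp (-k) ≤ E) (hs : a0 ≤ s0 ^ 2) (hs0 : 0 ≤ s0) : Real.exp (-(c * a)) * Real.sqrt a ≤ E * s0 := by
  refine (exp_sqrt_le h0 ha (by linarith)).trans ?_
  refine mul_le_mul ?_ (Real.sqrt_le_iff.2 ⟨hs0, hs⟩) (Real.sqrt_nonneg _) ((Real.exp_pos _).le.trans hE)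
  exact (Real.exp_le_exp.2 (by linarith)).trans hE

/-- the `a`-part of `yJ` -/
noncomputable def yJa (a : ℝ) : ℝ :=
  (2 * (1045 / 6000 * a) / (3 / 4 * a) ^ 2 + 2 * (1045 / 6000 * a) / (7 / 8 * a) ^ 2 +
    2 * (Real.exp (-(a / 2) * (6 / 5) ^ 2) / (a * (6 / 5)))) +
  (Real.exp (-(53 / 100 * a)) * (1 / (a / 2 - 1)) + Real.exp (-(54 / 100 * a)) * (1 / (a / 4)) +
        Real.exp (-(62 / 100 * a)) * (1 / (a / 2)) + (4 / 5 + Real.pi / 2) * Real.exp (-a))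

theorem yJ_eq (a β e₂ : ℝ) (hβ : 0 < β) : yJ a β e₂ = yJa a + Real.exp (-(e₂ / β)) * (Real.pi / 2 + 5 / 4 * β) := by
  unfold yJ yJa
  have e1 : 1 / (4 / 5 / β) = 5 / 4 * β := by field_simp
  rw [zero_div, zero_div, zero_div, zero_div, e1]
  ring

noncomputable def ySa (a : ℝ) : ℝ :=
  Real.sqrt (2 * Real.pi) / 4 * (1 / (3 / 4 * a * Real.sqrt (3 / 4 * a)) + 1 / (7 / 8 * a * Real.sqrt (7 / 8 * a))) +
  (Real.exp (-(53 / 100 * a)) * (52 / 10 / (a / 2 - 1) + 1 / (a / 2 - 1) ^ 2) +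
        Real.exp (-(54 / 100 * a)) * (72 / 100 / (a / 4) + 218 / 100 / (a / 4) ^ 2) +
        Real.exp (-(62 / 100 * a)) * (72 / 100 / (a / 2) + 232 / 100 / (a / 2) ^ 2) +
        (4 / 5 * (75 / 10) + Real.pi / 2 * (106 / 10)) * Real.exp (-a))

theorem yS_eq (a β e₂ : ℝ) (hβ : 0 < β) : yS a β e₂ = ySa a +
    Real.exp (-(e₂ / β)) * (Real.pi / 2 * (106 / 10) + 53 / 4 * β + 25 / 16 * β ^ 2) := by
  unfold yS ySa
  have e1 : 106 / 10 / (4 / 5 / β) = 53 / 4 * β := by field_simp; ring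
  have e2 : 1 / (4 / 5 / β) ^ 2 = 25 / 16 * β ^ 2 := by field_simp; ring
  rw [e1, e2]
  ring

/-- generic bound of `yJa` -/
theorem yJa_le {a a0 k s0 s1 E F G : ℝ} (h0 : 0 < a0) (h09 : 9 ≤ a0) (ha : a0 ≤ a) (hk : 5 ≤ k) (hc : k ≤ 53 / 100 * a0)
    (hE : Real.exp (-k) ≤ E) (hF : Real.exp (-(k + 1)) ≤ F) (hG : Real.exp (-9) ≤ G) (hs : a0 ≤ s0 ^ 2) (hs0 : 0 < s0) (hs1 : s1 ^ 2 ≤ a0) (hs1' : 0 < s1) :
    yJa a * Real.sqrt a ≤ 10743 / 10000 / s1 + F * s0 * (5 / (3 * a0)) +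
      E * s0 * (1 / (a0 / 2 - 1) + 1 / (a0 / 4) + 1 / (a0 / 2)) + 2371 / 1000 * (G * s0) := by
  have ha0 : 0 < a := by linarith
  have hpi := Real.pi_lt_d4
  have hsq : Real.sqrt a * Real.sqrt a = a := Real.mul_self_sqrt ha0.le
  have hsp : 0 < Real.sqrt a := Real.sqrt_pos.2 ha0
  have hs1a : s1 ≤ Real.sqrt a := Real.le_sqrt_of_sq_le (by linarith)
  have hF0 : 0 ≤ F := (Real.exp_pos _).le.trans hF
  have hE0 : 0 ≤ E := (Real.exp_pos _).le.trans hE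
  have t1 : Real.exp (-(53 / 100 * a)) * Real.sqrt a ≤ E * s0 := exp_sqrt_bd h0 ha (by linarith) hc hE hs hs0.le
  have t2 : Real.exp (-(54 / 100 * a)) * Real.sqrt a ≤ E * s0 := exp_sqrt_bd h0 ha (by linarith) (by linarith) hE hs hs0.le
  have t3 : Real.exp (-(62 / 100 * a)) * Real.sqrt a ≤ E * s0 := exp_sqrt_bd h0 ha (by linarith) (by linarith) hE hs hs0.le
  have t4 : Real.exp (-(a / 2) * (6 / 5) ^ 2) * Real.sqrt a ≤ F * s0 := by
    have e : -(a / 2) * (6 / 5) ^ 2 = -(72 / 100 * a) := by ring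
    rw [e]
    exact exp_sqrt_bd h0 ha (by linarith) (by linarith) hF hs hs0.le
  have hG0 : 0 ≤ G := (Real.exp_pos _).le.trans hG
  have t5 : Real.exp (-a) * Real.sqrt a ≤ G * s0 := by
    have := exp_sqrt_bd (c := 1) h0 ha (by norm_num : (1:ℝ) / 2 ≤ 9) (by linarith) hG hs hs0.le
    rwa [one_mul] at this
  have u1 : (2 * (1045 / 6000 * a) / (3 / 4 * a) ^ 2 + 2 * (1045 / 6000 * a) / (7 / 8 * a) ^ 2) * Real.sqrt a ≤
      10743 / 10000 / s1 := by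
    have e : (2 * (1045 / 6000 * a) / (3 / 4 * a) ^ 2 + 2 * (1045 / 6000 * a) / (7 / 8 * a) ^ 2) * Real.sqrt a =
        (2 * (1045 / 6000) * (16 / 9) + 2 * (1045 / 6000) * (64 / 49)) / Real.sqrt a := by
      rw [eq_div_iff hsp.ne']
      rw [mul_assoc, hsq]
      field_simp
      ring
    rw [e]
    exact div_le_div₀ (by norm_num) (by norm_num) hs1' hs1a
  have u2 : 2 * (Real.exp (-(a / 2) * (6 / 5) ^ 2) / (a * (6 / 5))) * Real.sqrt a ≤ F * s0 * (5 / (3 * a0)) := by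
    have e : 2 * (Real.exp (-(a / 2) * (6 / 5) ^ 2) / (a * (6 / 5))) * Real.sqrt a =
        (Real.exp (-(a / 2) * (6 / 5) ^ 2) * Real.sqrt a) * (5 / (3 * a)) := by field_simp; ring
    rw [e]
    refine mul_le_mul t4 ?_ (by positivity) (by positivity)
    exact div_le_div_of_nonneg_left (by norm_num) (by positivity) (by linarith)
  have v1 : 1 / (a / 2 - 1) ≤ 1 / (a0 / 2 - 1) := one_div_le_one_div_of_le (by linarith) (by linarith)
  have v2 : 1 / (a / 4) ≤ 1 / (a0 / 4) := one_div_le_one_div_of_le (by linarith) (by linarith)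
  have v3 : 1 / (a / 2) ≤ 1 / (a0 / 2) := one_div_le_one_div_of_le (by linarith) (by linarith)
  have p1 : 0 ≤ 1 / (a / 2 - 1) := by
    have : 0 < a / 2 - 1 := by linarith
    positivity
  have u3 : Real.exp (-(53 / 100 * a)) * (1 / (a / 2 - 1)) * Real.sqrt a ≤ E * s0 * (1 / (a0 / 2 - 1)) := by
    calc Real.exp (-(53 / 100 * a)) * (1 / (a / 2 - 1)) * Real.sqrt a =
          (Real.exp (-(53 / 100 * a)) * Real.sqrt a) * (1 / (a / 2 - 1)) := by ring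
      _ ≤ _ := mul_le_mul t1 v1 p1 (by positivity)
  have u4 : Real.exp (-(54 / 100 * a)) * (1 / (a / 4)) * Real.sqrt a ≤ E * s0 * (1 / (a0 / 4)) := by
    calc Real.exp (-(54 / 100 * a)) * (1 / (a / 4)) * Real.sqrt a =
          (Real.exp (-(54 / 100 * a)) * Real.sqrt a) * (1 / (a / 4)) := by ring
      _ ≤ _ := mul_le_mul t2 v2 (by positivity) (by positivity)
  have u5 : Real.exp (-(62 / 100 * a)) * (1 / (a / 2)) * Real.sqrt a ≤ E * s0 * (1 / (a0 / 2)) := by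
    calc Real.exp (-(62 / 100 * a)) * (1 / (a / 2)) * Real.sqrt a =
          (Real.exp (-(62 / 100 * a)) * Real.sqrt a) * (1 / (a / 2)) := by ring
      _ ≤ _ := mul_le_mul t3 v3 (by positivity) (by positivity)
  have u6 : (4 / 5 + Real.pi / 2) * Real.exp (-a) * Real.sqrt a ≤ 2371 / 1000 * (G * s0) := by
    calc (4 / 5 + Real.pi / 2) * Real.exp (-a) * Real.sqrt a = (4 / 5 + Real.pi / 2) * (Real.exp (-a) * Real.sqrt a) := by ring
      _ ≤ 2371 / 1000 * (G * s0) := mul_le_mul (by linarith) t5 (by positivity) (by norm_num)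
  unfold yJa
  calc _ = (2 * (1045 / 6000 * a) / (3 / 4 * a) ^ 2 + 2 * (1045 / 6000 * a) / (7 / 8 * a) ^ 2) * Real.sqrt a +
        2 * (Real.exp (-(a / 2) * (6 / 5) ^ 2) / (a * (6 / 5))) * Real.sqrt a +
        (Real.exp (-(53 / 100 * a)) * (1 / (a / 2 - 1)) * Real.sqrt a + Real.exp (-(54 / 100 * a)) * (1 / (a / 4)) * Real.sqrt a +
        Real.exp (-(62 / 100 * a)) * (1 / (a / 2)) * Real.sqrt a) + (4 / 5 + Real.pi / 2) * Real.exp (-a) * Real.sqrt a := by ring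
    _ ≤ 10743 / 10000 / s1 + F * s0 * (5 / (3 * a0)) + (E * s0 * (1 / (a0 / 2 - 1)) + E * s0 * (1 / (a0 / 4)) +
        E * s0 * (1 / (a0 / 2))) + 2371 / 1000 * (G * s0) := by gcongr
    _ = _ := by ring

/-- generic bound of `ySa` -/
theorem ySa_le {a a0 k s0 E G : ℝ} (h0 : 9 ≤ a0) (ha : a0 ≤ a) (hk : 5 ≤ k) (hc : k ≤ 53 / 100 * a0)
    (hE : Real.exp (-k) ≤ E) (hG : Real.exp (-9) ≤ G) (hs : a0 ≤ s0 ^ 2) (hs0 : 0 < s0) :
    ySa a * Real.sqrt a ≤ 17306 / 10000 / a0 +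
      E * s0 * ((52 / 10 / (a0 / 2 - 1) + 1 / (a0 / 2 - 1) ^ 2) + (72 / 100 / (a0 / 4) + 218 / 100 / (a0 / 4) ^ 2) +
        (72 / 100 / (a0 / 2) + 232 / 100 / (a0 / 2) ^ 2)) + 2266 / 100 * (G * s0) := by
  have h00 : 0 < a0 := by linarith
  have ha0 : 0 < a := by linarith
  have hpi := Real.pi_lt_d4
  have hsq : Real.sqrt a * Real.sqrt a = a := Real.mul_self_sqrt ha0.le
  have hsp : 0 < Real.sqrt a := Real.sqrt_pos.2 ha0
  have hG0 : 0 ≤ G := (Real.exp_pos _).le.trans hG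
  have hE0 : 0 ≤ E := (Real.exp_pos _).le.trans hE
  have t1 : Real.exp (-(53 / 100 * a)) * Real.sqrt a ≤ E * s0 := exp_sqrt_bd h00 ha (by linarith) hc hE hs hs0.le
  have t2 : Real.exp (-(54 / 100 * a)) * Real.sqrt a ≤ E * s0 := exp_sqrt_bd h00 ha (by linarith) (by linarith) hE hs hs0.le
  have t3 : Real.exp (-(62 / 100 * a)) * Real.sqrt a ≤ E * s0 := exp_sqrt_bd h00 ha (by linarith) (by linarith) hE hs hs0.le
  have t5 : Real.exp (-a) * Real.sqrt a ≤ G * s0 := by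
    have := exp_sqrt_bd (c := 1) h00 ha (by norm_num : (1:ℝ) / 2 ≤ 9) (by linarith) hG hs hs0.le
    rwa [one_mul] at this
  have hs34 : 8660 / 10000 ≤ Real.sqrt (3 / 4) := Real.le_sqrt_of_sq_le (by norm_num)
  have hs78 : 9354 / 10000 ≤ Real.sqrt (7 / 8) := Real.le_sqrt_of_sq_le (by norm_num)
  have hs2 : Real.sqrt (2 * Real.pi) ≤ 25067 / 10000 := Real.sqrt_le_iff.2 ⟨by norm_num, by nlinarith⟩
  have u1 : Real.sqrt (2 * Real.pi) / 4 * (1 / (3 / 4 * a * Real.sqrt (3 / 4 * a)) + 1 / (7 / 8 * a * Real.sqrt (7 / 8 * a))) *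
      Real.sqrt a ≤ 17306 / 10000 / a0 := by
    have e : Real.sqrt (2 * Real.pi) / 4 * (1 / (3 / 4 * a * Real.sqrt (3 / 4 * a)) + 1 / (7 / 8 * a * Real.sqrt (7 / 8 * a))) *
      Real.sqrt a = Real.sqrt (2 * Real.pi) / 4 * (1 / (3 / 4 * Real.sqrt (3 / 4)) + 1 / (7 / 8 * Real.sqrt (7 / 8))) / a := by
      rw [Real.sqrt_mul (by norm_num : (0:ℝ) ≤ 3 / 4), Real.sqrt_mul (by norm_num : (0:ℝ) ≤ 7 / 8)]
      have : Real.sqrt (3 / 4) ≠ 0 := by positivity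
      have : Real.sqrt (7 / 8) ≠ 0 := by positivity
      field_simp
    rw [e]
    have b1 : 1 / (3 / 4 * Real.sqrt (3 / 4)) ≤ 1 / (3 / 4 * (8660 / 10000)) :=
      one_div_le_one_div_of_le (by norm_num) (by linarith)
    have b2 : 1 / (7 / 8 * Real.sqrt (7 / 8)) ≤ 1 / (7 / 8 * (9354 / 10000)) :=
      one_div_le_one_div_of_le (by norm_num) (by linarith)
    have b3 : Real.sqrt (2 * Real.pi) / 4 * (1 / (3 / 4 * Real.sqrt (3 / 4)) + 1 / (7 / 8 * Real.sqrt (7 / 8))) ≤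
        25067 / 10000 / 4 * (1 / (3 / 4 * (8660 / 10000)) + 1 / (7 / 8 * (9354 / 10000))) := by
      refine mul_le_mul (by linarith) (by linarith) (by positivity) (by norm_num)
    refine div_le_div₀ (by norm_num) (b3.trans (by norm_num)) h00 ha
  have q1 : 0 < a0 / 2 - 1 := by linarith
  have q2 : 0 < a / 2 - 1 := by linarith
  have v1 : 52 / 10 / (a / 2 - 1) + 1 / (a / 2 - 1) ^ 2 ≤ 52 / 10 / (a0 / 2 - 1) + 1 / (a0 / 2 - 1) ^ 2 := by
    gcongr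
  have v2 : 72 / 100 / (a / 4) + 218 / 100 / (a / 4) ^ 2 ≤ 72 / 100 / (a0 / 4) + 218 / 100 / (a0 / 4) ^ 2 := by
    gcongr
  have v3 : 72 / 100 / (a / 2) + 232 / 100 / (a / 2) ^ 2 ≤ 72 / 100 / (a0 / 2) + 232 / 100 / (a0 / 2) ^ 2 := by
    gcongr
  have u3 : Real.exp (-(53 / 100 * a)) * (52 / 10 / (a / 2 - 1) + 1 / (a / 2 - 1) ^ 2) * Real.sqrt a ≤
      E * s0 * (52 / 10 / (a0 / 2 - 1) + 1 / (a0 / 2 - 1) ^ 2) := by
    calc Real.exp (-(53 / 100 * a)) * (52 / 10 / (a / 2 - 1) + 1 / (a / 2 - 1) ^ 2) * Real.sqrt a =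
          (Real.exp (-(53 / 100 * a)) * Real.sqrt a) * (52 / 10 / (a / 2 - 1) + 1 / (a / 2 - 1) ^ 2) := by ring
      _ ≤ _ := mul_le_mul t1 v1 (by positivity) (by positivity)
  have u4 : Real.exp (-(54 / 100 * a)) * (72 / 100 / (a / 4) + 218 / 100 / (a / 4) ^ 2) * Real.sqrt a ≤
      E * s0 * (72 / 100 / (a0 / 4) + 218 / 100 / (a0 / 4) ^ 2) := by
    calc Real.exp (-(54 / 100 * a)) * (72 / 100 / (a / 4) + 218 / 100 / (a / 4) ^ 2) * Real.sqrt a =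
          (Real.exp (-(54 / 100 * a)) * Real.sqrt a) * (72 / 100 / (a / 4) + 218 / 100 / (a / 4) ^ 2) := by ring
      _ ≤ _ := mul_le_mul t2 v2 (by positivity) (by positivity)
  have u5 : Real.exp (-(62 / 100 * a)) * (72 / 100 / (a / 2) + 232 / 100 / (a / 2) ^ 2) * Real.sqrt a ≤
      E * s0 * (72 / 100 / (a0 / 2) + 232 / 100 / (a0 / 2) ^ 2) := by
    calc Real.exp (-(62 / 100 * a)) * (72 / 100 / (a / 2) + 232 / 100 / (a / 2) ^ 2) * Real.sqrt a =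
          (Real.exp (-(62 / 100 * a)) * Real.sqrt a) * (72 / 100 / (a / 2) + 232 / 100 / (a / 2) ^ 2) := by ring
      _ ≤ _ := mul_le_mul t3 v3 (by positivity) (by positivity)
  have u6 : (4 / 5 * (75 / 10) + Real.pi / 2 * (106 / 10)) * Real.exp (-a) * Real.sqrt a ≤ 2266 / 100 * (G * s0) := by
    calc (4 / 5 * (75 / 10) + Real.pi / 2 * (106 / 10)) * Real.exp (-a) * Real.sqrt a =
          (4 / 5 * (75 / 10) + Real.pi / 2 * (106 / 10)) * (Real.exp (-a) * Real.sqrt a) := by ring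
      _ ≤ 2266 / 100 * (G * s0) := mul_le_mul (by linarith) t5 (by positivity) (by norm_num)
  unfold ySa
  calc _ = Real.sqrt (2 * Real.pi) / 4 * (1 / (3 / 4 * a * Real.sqrt (3 / 4 * a)) + 1 / (7 / 8 * a * Real.sqrt (7 / 8 * a))) *
      Real.sqrt a +
        (Real.exp (-(53 / 100 * a)) * (52 / 10 / (a / 2 - 1) + 1 / (a / 2 - 1) ^ 2) * Real.sqrt a +
        Real.exp (-(54 / 100 * a)) * (72 / 100 / (a / 4) + 218 / 100 / (a / 4) ^ 2) * Real.sqrt a +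
        Real.exp (-(62 / 100 * a)) * (72 / 100 / (a / 2) + 232 / 100 / (a / 2) ^ 2) * Real.sqrt a) +
        (4 / 5 * (75 / 10) + Real.pi / 2 * (106 / 10)) * Real.exp (-a) * Real.sqrt a := by ring
    _ ≤ 17306 / 10000 / a0 + (E * s0 * (52 / 10 / (a0 / 2 - 1) + 1 / (a0 / 2 - 1) ^ 2) +
        E * s0 * (72 / 100 / (a0 / 4) + 218 / 100 / (a0 / 4) ^ 2) +
        E * s0 * (72 / 100 / (a0 / 2) + 232 / 100 / (a0 / 2) ^ 2)) + 2266 / 100 * (G * s0) := by gcongr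
    _ = _ := by ring

/-- the `β`-parts: `e^{-e₂/β} ≤ C √β` -/
theorem beta_le {β e₂ k E : ℝ} (hβ : 0 < β) (hβ' : β ≤ 47 / 100) (hk : 1 / 2 ≤ k) (he : k * (47 / 100) ≤ e₂)
    (hE : Real.exp (-k) ≤ E) : Real.exp (-(e₂ / β)) ≤ E * (1459 / 1000) * Real.sqrt β := by
  have hx : 100 / 47 ≤ 1 / β := by
    rw [div_le_div_iff₀ (by norm_num) hβ]; linarith
  have h1 := exp_sqrt_bd (c := e₂) (k := k) (a0 := 100 / 47) (a := 1 / β) (E := E) (s0 := 1459 / 1000) (by norm_num) hx hk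
    (by linarith) hE (by norm_num) (by norm_num)
  have h2 : e₂ * (1 / β) = e₂ / β := by ring
  rw [h2] at h1
  have h3 : Real.sqrt (1 / β) * Real.sqrt β = 1 := by
    rw [← Real.sqrt_mul (by positivity), one_div, inv_mul_cancel₀ hβ.ne', Real.sqrt_one]
  calc Real.exp (-(e₂ / β)) = (Real.exp (-(e₂ / β)) * Real.sqrt (1 / β)) * Real.sqrt β := by rw [mul_assoc, h3, mul_one]
    _ ≤ (E * (1459 / 1000)) * Real.sqrt β := mul_le_mul_of_nonneg_right h1 (Real.sqrt_nonneg _)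

/-- lower bounds of `N = √(2πβ/d)` -/
theorem N_ge_a {β R d a q n : ℝ} (hβ : 0 < β) (ha : R = a * β) (ha0 : 0 < a) (hd : 0 < d) (hq : d ≤ q * R) (hn : 0 ≤ n)
    (hnq : n ^ 2 * q ≤ 2 * (31415 / 10000)) : n ≤ Real.sqrt (2 * Real.pi * β / d) * Real.sqrt a := by
  have hpi := Real.pi_gt_d4
  rw [← Real.sqrt_mul (by positivity)]
  refine Real.le_sqrt_of_sq_le ?_
  rw [div_mul_eq_mul_div, le_div_iff₀ hd]
  calc n ^ 2 * d ≤ n ^ 2 * (q * R) := mul_le_mul_of_nonneg_left hq (by positivity)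
    _ = (n ^ 2 * q) * (a * β) := by rw [ha]; ring
    _ ≤ (2 * (31415 / 10000)) * (a * β) := mul_le_mul_of_nonneg_right hnq (by positivity)
    _ ≤ (2 * Real.pi) * (a * β) := mul_le_mul_of_nonneg_right (by linarith) (by positivity)
    _ = _ := by ring

theorem N_ge_b {β d D m : ℝ} (hβ : 0 < β) (hd : 0 < d) (hD : d ≤ D) (hm : 0 ≤ m)
    (hmD : m ^ 2 * D ≤ 2 * (31415 / 10000)) : m * Real.sqrt β ≤ Real.sqrt (2 * Real.pi * β / d) := by
  have hpi := Real.pi_gt_d4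
  refine Real.le_sqrt_of_sq_le ?_
  rw [mul_pow, Real.sq_sqrt hβ.le, le_div_iff₀ hd]
  calc m ^ 2 * β * d ≤ m ^ 2 * β * D := mul_le_mul_of_nonneg_left hD (by positivity)
    _ = (m ^ 2 * D) * β := by ring
    _ ≤ (2 * (31415 / 10000)) * β := mul_le_mul_of_nonneg_right hmD hβ.le
    _ ≤ _ := mul_le_mul_of_nonneg_right (by linarith) hβ.le

end Sok
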