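import Pool.Agent.Lib.MP_816dec_an.MDefs

/-!
MP_816dec_an, `b = 1`, middle range: from value and moment to the logarithmic derivative.
-/

set_option autoImplicit false

open Complex Set Filter Topology MeasureTheory Sok.W

namespace Sok.Mid

theorem comb {Z K G0 μ D : ℂ} {e m : ℝ} (hG : G0 ≠ 0) (hD : D ≠ 0) (h1 : ‖Z - G0 * μ‖ ≤ ‖G0‖ * e)
    (he : e < ‖μ‖) (h2 : ‖D * (K - Z)‖ ≤ ‖G0‖ * m) :
    Z ≠ 0 ∧ ‖K / Z - 1‖ ≤ m / (‖D‖ * (‖μ‖ - e)) := by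
  have hG' : 0 < ‖G0‖ := norm_pos_iff.2 hG
  have hD' : 0 < ‖D‖ := norm_pos_iff.2 hD
  have h3 : ‖G0‖ * (‖μ‖ - e) ≤ ‖Z‖ := by
    have h4 : ‖G0 * μ‖ ≤ ‖G0 * μ - Z‖ + ‖Z‖ := by
      have := norm_add_le (G0 * μ - Z) Z
      rwa [sub_add_cancel] at this
    rw [norm_sub_rev] at h4
    rw [norm_mul] at h4
    linarith
  have h5 : 0 < ‖G0‖ * (‖μ‖ - e) := mul_pos hG' (by linarith)
  have hZ : 0 < ‖Z‖ := h5.trans_le h3
  have hZ0 : Z ≠ 0 := norm_pos_iff.1 hZ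
  refine ⟨hZ0, ?_⟩
  have e1 : K / Z - 1 = (K - Z) / Z := by field_simp
  rw [norm_mul] at h2
  rw [e1, norm_div, div_le_div_iff₀ hZ (mul_pos hD' (by linarith))]
  have hm : 0 ≤ ‖G0‖ * m := le_trans (by positivity) h2
  have hm0 : 0 ≤ m := by
    by_contra hc
    exact absurd hm (not_le.2 (mul_neg_of_pos_of_neg hG' (not_le.1 hc)))
  have h6 : ‖K - Z‖ * ‖D‖ * ‖G0‖ * (‖μ‖ - e) ≤ ‖G0‖ * m * ‖Z‖ := by
    have h7 : ‖K - Z‖ * ‖D‖ * (‖G0‖ * (‖μ‖ - e)) ≤ (‖G0‖ * m) * ‖Z‖ :=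
      mul_le_mul (by linarith [mul_comm ‖D‖ ‖K - Z‖]) h3 h5.le hm
    linarith
  have h8 : ‖G0‖ * (‖K - Z‖ * (‖D‖ * (‖μ‖ - e))) ≤ ‖G0‖ * (m * ‖Z‖) := by linarith
  exact le_of_mul_le_mul_left h8 hG'

/-- norm of the Gaussian constant -/
theorem norm_cpow_half {z : ℂ} (hz : z ≠ 0) : ‖z ^ (1 / 2 : ℂ)‖ = Real.sqrt ‖z‖ := by
  rw [Complex.norm_cpow_of_ne_zero hz]
  have e1 : (1 / 2 : ℂ).re = 1 / 2 := by norm_num
  have e2 : (1 / 2 : ℂ).im = 0 := by norm_num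
  rw [e1, e2, mul_zero, Real.exp_zero, div_one, Real.sqrt_eq_rpow]

theorem Dx_re (t a y : ℝ) : (Dx t a y).re = 1 + y := by simp [Dx, Lx]

theorem Dx_im (t a y : ℝ) : (Dx t a y).im = -(a - t) := by simp [Dx, Lx]

theorem normSq_Dx {β r t a y : ℝ} (h : Sad β r t a y) :
    ‖Dx t a y‖ ^ 2 = 1 + 2 * y + (β * r * Real.exp (-y)) ^ 2 := by
  rw [← norm_Lx h, ← Complex.normSq_eq_norm_sq, ← Complex.normSq_eq_norm_sq, Complex.normSq_apply,
    Complex.normSq_apply, Dx_re, Dx_im, Lx_re, Lx_im]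
  ring

/-- **the logarithmic derivative** -/
theorem slope_of {β r t a y δ : ℝ} (h : Sad β r t a y) {Z Z' : ℂ}
    (hδ : ‖cexp (I * (t + β / 2 - (a + y * I))) * Z' / Z - 1‖ ≤ δ) :
    |(I * (r * cexp (I * (t + β / 2))) * Z' / Z).re + y / β| ≤ β * r * Real.exp (-y) * δ / β := by
  have hβ := h.hβ
  have hb : (β : ℂ) ≠ 0 := by exact_mod_cast hβ.ne'
  obtain ⟨w, hw⟩ : ∃ w : ℂ, w = cexp (I * (t + β / 2 - (a + y * I))) * Z' / Z := ⟨_, rfl⟩
  rw [← hw] at hδ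
  -- `β r e^{i s₀} = L`
  have hL : (r : ℂ) * cexp (I * (a + y * I)) = Lx t a y / β := by
    have h1 := h.eq
    have e2 : (r : ℂ) * cexp (I * (t + β / 2)) * cexp (-(I * β / 2)) * cexp (I * Lx t a y) =
        r * cexp (I * (a + y * I)) := by
      rw [mul_assoc, mul_assoc, ← Complex.exp_add, ← Complex.exp_add]
      congr 2
      unfold Lx
      push_cast
      ring
    rw [e2] at h1
    rw [eq_div_iff hb, mul_comm]
    exact h1.symm
  have e1 : I * (r * cexp (I * (t + β / 2))) * Z' / Z = I * (Lx t a y / β) * w := by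
    rw [← hL, hw]
    have e3 : cexp (I * (t + β / 2)) = cexp (I * (a + y * I)) * cexp (I * (t + β / 2 - (a + y * I))) := by
      rw [← Complex.exp_add]; congr 1; ring
    rw [e3]
    ring
  have e2 : I * (Lx t a y / β) * w = I * Lx t a y / β + I * (Lx t a y / β) * (w - 1) := by ring
  have e3 : (I * Lx t a y / β).re = -(y / β) := by
    rw [Complex.div_ofReal_re]
    have : (I * Lx t a y).re = -y := by simp [Lx]
    rw [this]
    ring
  rw [e1, e2, Complex.add_re, e3]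
  have e4 : -(y / β) + (I * (Lx t a y / β) * (w - 1)).re + y / β = (I * (Lx t a y / β) * (w - 1)).re := by ring
  rw [e4]
  refine (Complex.abs_re_le_norm _).trans ?_
  rw [norm_mul, norm_mul, norm_div, Complex.norm_I, one_mul, norm_Lx h, Complex.norm_real,
    Real.norm_of_nonneg hβ.le]
  have h5 : 0 ≤ β * r * Real.exp (-y) := by
    have := h.hr
    positivity
  calc β * r * Real.exp (-y) / β * ‖w - 1‖ ≤ β * r * Real.exp (-y) / β * δ :=
        mul_le_mul_of_nonneg_left hδ (by positivity)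
    _ = _ := by ring

end Sok.Mid
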