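import Mathlib
import Pool.Agent.Lib.MP_816dec_an.CornerB
import Pool.Agent.Lib.MP_816dec_an.A0Ker

/-!
MP_816dec_an: explicit exponential upper bound of `C` and lower bound of `A`.
-/

set_option autoImplicit false

open Complex Set Filter Topology MeasureTheory

namespace Sok

/-- `Γ(x) ≤ e^{17/16} x^{-1/2} (x/e)^x` -/
theorem log_Gamma_le {x : ℝ} (hx : 1 ≤ x) :
    Real.log (Real.Gamma x) ≤ 17 / 16 - 1 / 2 * Real.log x + x * Real.log x - x := by
  have h1 := log_Gamma_one_add_le hx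
  have hx0 : 0 < x := by linarith
  rw [add_comm, Real.Gamma_add_one hx0.ne', Real.log_mul hx0.ne' (Real.Gamma_pos_of_pos hx0).ne'] at h1
  linarith

/-- upper bound of `|C|²`, exponent `X (log (X / (κ (-cos S))) - 1) / β`, `X = t - S` -/
theorem norm_CC_sq_exp {β r t S : ℝ} (hβ : 0 < β) (hr : 0 < r) (hS1 : Real.pi / 2 < S)
    (hS2 : S < 3 * Real.pi / 2) (hx : β ≤ t - S) :
    ‖CC β r t‖ ^ 2 ≤ Real.exp (17 / 8) / (2 * Real.pi * (t - S)) *
      Real.exp (2 * ((t - S) * (Real.log ((t - S) / (β * r * -Real.cos S)) - 1)) / β) := by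
  have hpi := Real.pi_pos
  have hX : 0 < t - S := lt_of_lt_of_le hβ hx
  have hcos : 0 < -Real.cos S := by
    have := Real.cos_neg_of_pi_div_two_lt_of_lt hS1 (by linarith)
    linarith
  have h1 := norm_CC_le (t := t) hβ hr hS1 hS2 (by linarith)
  obtain ⟨x, hxx⟩ : ∃ x : ℝ, x = (t - S) / β := ⟨_, rfl⟩
  have hx1 : 1 ≤ x := by rw [hxx, le_div_iff₀ hβ]; linarith
  have hx0 : 0 < x := by linarith
  have hxb : x * β = t - S := by rw [hxx]; field_simp
  have hG : 0 < Real.Gamma x := Real.Gamma_pos_of_pos hx0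
  rw [← hxx] at h1
  have h2 : ‖CC β r t‖ ^ 2 ≤ ((Real.sqrt (2 * Real.pi * β))⁻¹ * (Real.Gamma x * (r * -Real.cos S) ^ (-x))) ^ 2 :=
    pow_le_pow_left₀ (norm_nonneg _) h1 2
  refine h2.trans ?_
  rw [mul_pow, inv_pow, Real.sq_sqrt (by positivity)]
  have h3 : Real.Gamma x * (r * -Real.cos S) ^ (-x) ≤
      Real.exp (17 / 16 - 1 / 2 * Real.log x + x * (Real.log (x / (r * -Real.cos S)) - 1)) := by
    have hp : 0 < Real.Gamma x * (r * -Real.cos S) ^ (-x) := by positivity
    rw [← Real.exp_log hp]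
    apply Real.exp_le_exp.2
    rw [Real.log_mul hG.ne' (by positivity), Real.log_rpow (by positivity), Real.log_div hx0.ne' (by positivity)]
    have h4 := log_Gamma_le hx1
    linarith
  have hp : 0 < Real.Gamma x * (r * -Real.cos S) ^ (-x) := by positivity
  have h4 := pow_le_pow_left₀ hp.le h3 2
  have h5 : Real.exp (17 / 16 - 1 / 2 * Real.log x + x * (Real.log (x / (r * -Real.cos S)) - 1)) ^ 2 =
      Real.exp (17 / 8) * x⁻¹ * Real.exp (2 * ((t - S) * (Real.log ((t - S) / (β * r * -Real.cos S)) - 1)) / β) := by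
    have e1 : x⁻¹ = Real.exp (-Real.log x) := by rw [Real.exp_neg, Real.exp_log hx0]
    rw [e1, ← Real.exp_nat_mul, ← Real.exp_add, ← Real.exp_add]
    congr 1
    have e2 : x / (r * -Real.cos S) = (t - S) / (β * r * -Real.cos S) := by
      rw [← hxb]
      field_simp
    rw [e2]
    have e3 : 2 * ((t - S) * (Real.log ((t - S) / (β * r * -Real.cos S)) - 1)) / β =
        2 * (x * (Real.log ((t - S) / (β * r * -Real.cos S)) - 1)) := by
      rw [hxx]; ring
    rw [e3]
    push_cast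
    ring
  rw [h5] at h4
  refine (mul_le_mul_of_nonneg_left h4 (by positivity)).trans (le_of_eq ?_)
  have e4 : (2 * Real.pi * β)⁻¹ * x⁻¹ = 1 / (2 * Real.pi * (t - S)) := by
    rw [← hxb]
    field_simp
  calc (2 * Real.pi * β)⁻¹ * (Real.exp (17 / 8) * x⁻¹ *
        Real.exp (2 * ((t - S) * (Real.log ((t - S) / (β * r * -Real.cos S)) - 1)) / β))
      = ((2 * Real.pi * β)⁻¹ * x⁻¹) * Real.exp (17 / 8) *
        Real.exp (2 * ((t - S) * (Real.log ((t - S) / (β * r * -Real.cos S)) - 1)) / β) := by ring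
    _ = _ := by rw [e4]; ring

/-- lower bound of `|A|²` by a window `[u₁, u₂]` on which the exponent is `≥ L` -/
theorem norm_AA_sq_exp {β r t u₁ u₂ L : ℝ} (hβ : 0 < β) (hr : 0 < r) (ht : t ≤ -(Real.pi / 2))
    (hu1 : -(Real.pi / 2) < u₁) (hu12 : u₁ ≤ u₂) (hu2 : u₂ < Real.pi / 2) (hn : β / 2 ≤ u₁ - t)
    (hL : ∀ u ∈ Icc u₁ u₂, L ≤ (u - t) * (1 + Real.log (β * r * Real.cos u / (u - t)))) :
    Real.exp (-(17 / 16)) * (u₂ - u₁) * Real.sqrt (2 / (β * (u₂ - t))) * Real.exp (2 * L / β) ≤ ‖AA β r t‖ ^ 2 := by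
  have hpi := Real.pi_pos
  rw [AA_normSq_le hβ hr ht]
  have hut : 0 < u₂ - t := by linarith
  obtain ⟨m, hm⟩ : ∃ m : ℝ, m = Real.exp (-(17 / 16)) * (Real.sqrt (2 * (u₂ - t) / β))⁻¹ * Real.exp (2 * L / β) :=
    ⟨_, rfl⟩
  -- pointwise lower bound on the window
  have hpt : ∀ u ∈ Icc u₁ u₂, m ≤ (2 * r * Real.cos u) ^ (nn β t u) / Real.Gamma (1 + nn β t u) := by
    intro u hu
    obtain ⟨n, hnn⟩ : ∃ n : ℝ, n = nn β t u := ⟨_, rfl⟩
    have hn' : n = 2 * (u - t) / β := hnn
    have hut' : 0 < u - t := by linarith [hu.1]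
    have hn1 : 1 ≤ n := by
      rw [hn', le_div_iff₀ hβ]
      linarith [hu.1]
    have hn0 : 0 < n := by linarith
    have hcos : 0 < Real.cos u := Real.cos_pos_of_mem_Ioo ⟨by linarith [hu.1], by linarith [hu.2]⟩
    rw [← hnn]
    have hG : 0 < Real.Gamma (1 + n) := Real.Gamma_pos_of_pos (by linarith)
    have hp : 0 < (2 * r * Real.cos u) ^ n / Real.Gamma (1 + n) := by positivity
    rw [hm, ← Real.exp_log hp, Real.log_div (by positivity) hG.ne', Real.log_rpow (by positivity)]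
    have h1 := log_Gamma_one_add_le hn1
    have h2 := hL u hu
    have e1 : Real.log (β * r * Real.cos u / (u - t)) = Real.log (2 * r * Real.cos u) - Real.log n := by
      rw [← Real.log_div (by positivity) hn0.ne', hn']
      congr 1
      field_simp
    rw [e1] at h2
    have h3 : 2 * L / β ≤ n * (1 + (Real.log (2 * r * Real.cos u) - Real.log n)) := by
      have : 2 * L / β ≤ 2 * ((u - t) * (1 + (Real.log (2 * r * Real.cos u) - Real.log n))) / β :=
        div_le_div_of_nonneg_right (by linarith) hβ.le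
      refine this.trans (le_of_eq ?_)
      rw [hn']
      ring
    have h4 : (Real.sqrt (2 * (u₂ - t) / β))⁻¹ ≤ Real.exp (-(1 / 2 * Real.log n)) := by
      have h5 : Real.exp (-(1 / 2 * Real.log n)) = (Real.sqrt n)⁻¹ := by
        rw [Real.exp_neg, Real.sqrt_eq_rpow, Real.rpow_def_of_pos hn0]
        congr 2
        ring
      rw [h5]
      apply inv_anti₀ (Real.sqrt_pos.2 hn0)
      apply Real.sqrt_le_sqrt
      rw [hn']
      exact div_le_div_of_nonneg_right (by linarith [hu.2]) hβ.le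
    calc Real.exp (-(17 / 16)) * (Real.sqrt (2 * (u₂ - t) / β))⁻¹ * Real.exp (2 * L / β)
        ≤ Real.exp (-(17 / 16)) * Real.exp (-(1 / 2 * Real.log n)) *
          Real.exp (n * (1 + (Real.log (2 * r * Real.cos u) - Real.log n))) := by
          apply mul_le_mul _ (Real.exp_le_exp.2 h3) (Real.exp_pos _).le (by positivity)
          exact mul_le_mul_of_nonneg_left h4 (Real.exp_pos _).le
      _ = Real.exp (-(17 / 16) + -(1 / 2 * Real.log n) +
          n * (1 + (Real.log (2 * r * Real.cos u) - Real.log n))) := by rw [Real.exp_add, Real.exp_add]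
      _ ≤ _ := by
          apply Real.exp_le_exp.2
          linarith
  have hint : IntervalIntegrable (fun u : ℝ => (2 * r * Real.cos u) ^ (nn β t u) / Real.Gamma (1 + nn β t u))
      volume (-(Real.pi / 2)) (Real.pi / 2) := by
    by_contra hc
    have h1 := wK_pos hβ hr ht
    unfold wK at h1
    rw [intervalIntegral.integral_undef hc] at h1
    exact lt_irrefl _ h1
  have h1 : (u₂ - u₁) * m ≤ wK β t r := by
    unfold wK
    have h2 : (u₂ - u₁) * m = ∫ _ in u₁..u₂, m := by
      rw [intervalIntegral.integral_const, smul_eq_mul]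
    have hsub : uIcc u₁ u₂ ⊆ uIcc (-(Real.pi / 2)) (Real.pi / 2) := by
      rw [uIcc_of_le hu12, uIcc_of_le (by linarith)]
      exact Icc_subset_Icc hu1.le hu2.le
    have hint' : IntervalIntegrable (fun u => (2 * r * Real.cos u) ^ (nn β t u) / Real.Gamma (1 + nn β t u))
        volume u₁ u₂ := hint.mono_set hsub
    have h3 : (∫ _ in u₁..u₂, m) ≤ ∫ u in u₁..u₂, (2 * r * Real.cos u) ^ (nn β t u) / Real.Gamma (1 + nn β t u) :=
      intervalIntegral.integral_mono_on hu12 intervalIntegrable_const hint' hpt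
    have h4 : (∫ u in u₁..u₂, (2 * r * Real.cos u) ^ (nn β t u) / Real.Gamma (1 + nn β t u)) ≤
        ∫ u in (-(Real.pi / 2))..(Real.pi / 2), (2 * r * Real.cos u) ^ (nn β t u) / Real.Gamma (1 + nn β t u) := by
      apply intervalIntegral.integral_mono_interval hu1.le hu12 hu2.le
      · rw [Filter.EventuallyLE, ae_restrict_iff' measurableSet_Ioc]
        have : ∀ᵐ u : ℝ, u ≠ Real.pi / 2 := by
          rw [ae_iff]
          simp
        filter_upwards [this] with u hne hu
        have hcos : 0 < Real.cos u := Real.cos_pos_of_mem_Ioo ⟨hu.1, lt_of_le_of_ne hu.2 hne⟩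
        have hn : 0 ≤ nn β t u := (nn_pos hβ (by linarith [hu.1])).le
        have hG : 0 < Real.Gamma (1 + nn β t u) := Real.Gamma_pos_of_pos (by linarith)
        show 0 ≤ (2 * r * Real.cos u) ^ (nn β t u) / Real.Gamma (1 + nn β t u)
        positivity
      · exact hint
    rw [h2]
    exact h3.trans h4
  have h2 : 2 / β * ((u₂ - u₁) * m) ≤ 2 / β * wK β t r := mul_le_mul_of_nonneg_left h1 (by positivity)
  refine le_trans (le_of_eq ?_) h2
  rw [hm]
  have e1 : Real.sqrt (2 / (β * (u₂ - t))) = 2 / β * (Real.sqrt (2 * (u₂ - t) / β))⁻¹ := by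
    have hs : 0 < Real.sqrt (2 * (u₂ - t) / β) := Real.sqrt_pos.2 (by positivity)
    rw [eq_comm, ← div_eq_mul_inv, div_eq_iff hs.ne', ← Real.sqrt_mul (by positivity)]
    have : 2 / (β * (u₂ - t)) * (2 * (u₂ - t) / β) = (2 / β) ^ 2 := by
      field_simp
    rw [this, Real.sqrt_sq (by positivity)]
  rw [e1]
  ring

end Sok
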