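import Mathlib
import Pool.Agent.Lib.MP_816dec_an.XAexp

/-!
MP_816dec_an, `b = 1`, `0.6 ≤ κ ≤ 1.3`: right part `t ≥ 5.2 - 2κ`: `|C| + |T| < |A|`. General lemmas.
-/

set_option autoImplicit false

open Complex Set Filter Topology MeasureTheory

namespace Sok.Mid

/-- exponent of `|C| / |A|` (times `β`) -/
noncomputable def Ee (k X n s c : ℝ) : ℝ :=
  X * Real.log X + n * Real.log n - (X + n) * (1 + Real.log k) - X * Real.log s - n * Real.log c

theorem Ee_mix {X0 X1 n0 n1 k0 k1 s c l : ℝ} (hX0 : 0 ≤ X0) (hX1 : 0 ≤ X1) (hn0 : 0 ≤ n0) (hn1 : 0 ≤ n1)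
    (hk0 : 0 < k0) (hk1 : 0 < k1) (hsum : X0 + n0 = X1 + n1) (hl0 : 0 ≤ l) (hl1 : l ≤ 1) :
    Ee ((1 - l) * k0 + l * k1) ((1 - l) * X0 + l * X1) ((1 - l) * n0 + l * n1) s c ≤
      (1 - l) * Ee k0 X0 n0 s c + l * Ee k1 X1 n1 s c := by
  have h1 := Real.convexOn_mul_log.2 (mem_Ici.2 hX0) (mem_Ici.2 hX1) (by linarith : 0 ≤ 1 - l) hl0 (by ring)
  have h2 := Real.convexOn_mul_log.2 (mem_Ici.2 hn0) (mem_Ici.2 hn1) (by linarith : 0 ≤ 1 - l) hl0 (by ring)
  have h3 := strictConcaveOn_log_Ioi.concaveOn.2 (mem_Ioi.2 hk0) (mem_Ioi.2 hk1) (by linarith : 0 ≤ 1 - l) hl0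
    (by ring)
  simp only [smul_eq_mul] at h1 h2 h3
  unfold Ee
  have e1 : (1 - l) * X0 + l * X1 + ((1 - l) * n0 + l * n1) = X0 + n0 := by
    linear_combination (-l) * hsum
  have h4 := mul_le_mul_of_nonneg_left h3 (by linarith : 0 ≤ X0 + n0)
  rw [e1, ← hsum]
  nlinarith

theorem Ee_window {k X n0 n1 s c n : ℝ} (hn0 : 0 < n0) (h1 : n0 ≤ n) (h2 : n ≤ n1) {b : ℝ}
    (hb0 : Ee k X n0 s c ≤ b) (hb1 : Ee k X n1 s c ≤ b) : Ee k X n s c ≤ b := by
  rcases eq_or_lt_of_le (h1.trans h2) with h | h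
  · have : n = n0 := le_antisymm (by rw [h]; exact h2) h1
    rw [this]
    exact hb0
  · obtain ⟨l, hl⟩ : ∃ l : ℝ, l = (n - n0) / (n1 - n0) := ⟨_, rfl⟩
    have hd : 0 < n1 - n0 := by linarith
    have hl0 : 0 ≤ l := by rw [hl]; exact div_nonneg (by linarith) hd.le
    have hl1 : l ≤ 1 := by rw [hl, div_le_one hd]; linarith
    have hn : n = (1 - l) * n0 + l * n1 := by
      rw [hl]; field_simp; ring
    have h3 := Real.convexOn_mul_log.2 (mem_Ici.2 hn0.le) (mem_Ici.2 (by linarith : (0:ℝ) ≤ n1))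
      (by linarith : 0 ≤ 1 - l) hl0 (by ring)
    simp only [smul_eq_mul] at h3
    rw [← hn] at h3
    have h4 := mul_le_mul_of_nonneg_left hb0 (by linarith : 0 ≤ 1 - l)
    have h5 := mul_le_mul_of_nonneg_left hb1 hl0
    unfold Ee at hb0 hb1 h4 h5 ⊢
    have e2 : (X + n) * (1 + Real.log k) = (1 - l) * ((X + n0) * (1 + Real.log k)) +
        l * ((X + n1) * (1 + Real.log k)) := by rw [hn]; ring
    have e3 : n * Real.log c = (1 - l) * (n0 * Real.log c) + l * (n1 * Real.log c) := by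
      conv_lhs => rw [hn]
      ring
    rw [e2, e3]
    nlinarith

/-- monotonicity in `κ` -/
theorem Ee_kappa {k0 k X n s c δ : ℝ} (hk0 : 0 < k0) (hk : k0 ≤ k) (hX : 0 ≤ X) (hn : 0 ≤ n)
    (hδ : δ * k ≤ X + n) (h : Ee k0 X n s c + δ * k0 ≤ 0) : Ee k X n s c + δ * k ≤ 0 := by
  have hkp : 0 < k := by linarith
  have h1 := Real.one_sub_inv_le_log_of_pos (x := k / k0) (by positivity)
  rw [Real.log_div hkp.ne' hk0.ne', inv_div] at h1
  have h2 : (X + n) * (1 - k0 / k) ≤ (X + n) * (Real.log k - Real.log k0) :=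
    mul_le_mul_of_nonneg_left h1 (by linarith)
  have h3 : δ * (k - k0) ≤ (X + n) * (1 - k0 / k) := by
    have e1 : 1 - k0 / k = (k - k0) / k := by field_simp
    rw [e1, mul_div_assoc', le_div_iff₀ hkp]
    nlinarith
  unfold Ee at h ⊢
  nlinarith

theorem Ee_mono {k X n s c s' c' : ℝ} (hX : 0 ≤ X) (hn : 0 ≤ n) (hs : 0 < s) (hc : 0 < c) (hs' : s ≤ s')
    (hc' : c ≤ c') : Ee k X n s' c' ≤ Ee k X n s c := by
  have h1 := Real.log_le_log hs hs'
  have h2 := Real.log_le_log hc hc'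
  unfold Ee
  nlinarith

/-- bounds at `t = 3π/2 - σ` -/
theorem bounds {β r σ z y1 y2 δ k0 : ℝ} (hr : 10 ≤ r) (hβ : 0 < β) (hk0 : 0 < k0)
    (hk : k0 ≤ β * r) (hσ : 0 ≤ σ) (hX : β ≤ z - σ) (hz : z < Real.pi) (hy1 : 0 < y1) (hy12 : y1 ≤ y2)
    (hy2 : y2 < Real.pi / 2) (hyβ : β / 2 ≤ y1 + σ) (hδ : δ * (β * r) ≤ y1 + z)
    (h1 : Ee k0 (z - σ) (y1 + σ) (Real.sin z) (Real.sin y1) + δ * k0 ≤ 0)
    (h2 : Ee k0 (z - σ) (y2 + σ) (Real.sin z) (Real.sin y1) + δ * k0 ≤ 0) :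
    ∃ L : ℝ, -(1 - δ) * (β * r) ≤ L ∧
      ‖CC β r (3 * Real.pi / 2 - σ)‖ ^ 2 ≤ Real.exp (17 / 8) / (2 * Real.pi * (z - σ)) *
        Real.exp (2 * (L - δ * (β * r)) / β) ∧
      Real.exp (-(17 / 16)) * (y2 - y1) * Real.sqrt (2 / (β * (y2 + σ))) * Real.exp (2 * L / β) ≤
        ‖AA β r (-(Real.pi / 2) - σ)‖ ^ 2 := by
  have hpi := Real.pi_pos
  have hr0 : 0 < r := by linarith
  have hκ0 : 0 < β * r := by positivity
  obtain ⟨X, hXX⟩ : ∃ X : ℝ, X = z - σ := ⟨_, rfl⟩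
  have hX0 : 0 < X := by rw [hXX]; linarith
  have hsz : 0 < Real.sin z := Real.sin_pos_of_pos_of_lt_pi (by linarith) hz
  have hsy : 0 < Real.sin y1 := Real.sin_pos_of_pos_of_lt_pi hy1 (by linarith)
  obtain ⟨E, hE⟩ : ∃ E : ℝ, E = X * (Real.log (X / (β * r * Real.sin z)) - 1) := ⟨_, rfl⟩
  rw [← hXX] at h1 h2
  have h1' := Ee_kappa hk0 hk hX0.le (by linarith : 0 ≤ y1 + σ) (by rw [hXX]; linarith) h1
  have h2' := Ee_kappa hk0 hk hX0.le (by linarith : 0 ≤ y2 + σ) (by rw [hXX]; linarith) h2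
  refine ⟨E + δ * (β * r), ?_, ?_, ?_⟩
  · -- `X (log (X / a) - 1) ≥ -a`
    have ha : 0 < β * r * Real.sin z := by positivity
    have h3 := Real.one_sub_inv_le_log_of_pos (x := X / (β * r * Real.sin z)) (by positivity)
    rw [inv_div] at h3
    have h4 : X * (1 - β * r * Real.sin z / X - 1) ≤ E := by
      rw [hE]
      exact mul_le_mul_of_nonneg_left (by linarith) hX0.le
    have e1 : X * (1 - β * r * Real.sin z / X - 1) = -(β * r * Real.sin z) := by field_simp; ring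
    rw [e1] at h4
    have h5 : β * r * Real.sin z ≤ β * r := by
      have := Real.sin_le_one z
      nlinarith
    linarith
  · have h3 := norm_CC_sq_exp (t := 3 * Real.pi / 2 - σ) (S := 3 * Real.pi / 2 - z) hβ hr0 (by linarith)
      (by linarith) (by linarith)
    have e1 : 3 * Real.pi / 2 - σ - (3 * Real.pi / 2 - z) = X := by rw [hXX]; ring
    have e2 : -Real.cos (3 * Real.pi / 2 - z) = Real.sin z := by
      have : 3 * Real.pi / 2 - z = (Real.pi / 2 - z) + Real.pi := by ring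
      rw [this, Real.cos_add_pi, Real.cos_pi_div_two_sub, neg_neg]
    rw [e1, e2, ← hE] at h3
    have e3 : E + δ * (β * r) - δ * (β * r) = E := by ring
    rw [← hXX, e3]
    exact h3
  · have h3 := norm_AA_sq_exp (t := -(Real.pi / 2) - σ) (u₁ := y1 - Real.pi / 2) (u₂ := y2 - Real.pi / 2)
      (L := E + δ * (β * r)) hβ hr0 (by linarith) (by linarith) (by linarith) (by linarith) (by linarith) ?_
    · have e1 : y2 - Real.pi / 2 - (y1 - Real.pi / 2) = y2 - y1 := by ring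
      have e2 : y2 - Real.pi / 2 - (-(Real.pi / 2) - σ) = y2 + σ := by ring
      rw [e1, e2] at h3
      exact h3
    · intro u hu
      obtain ⟨y, hy⟩ : ∃ y : ℝ, y = u + Real.pi / 2 := ⟨_, rfl⟩
      have hy1' : y1 ≤ y := by rw [hy]; linarith [hu.1]
      have hy2' : y ≤ y2 := by rw [hy]; linarith [hu.2]
      have e1 : u - (-(Real.pi / 2) - σ) = y + σ := by rw [hy]; ring
      have e2 : Real.cos u = Real.sin y := by rw [hy, Real.sin_add_pi_div_two]
      rw [e1, e2]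
      have hsy' : 0 < Real.sin y := Real.sin_pos_of_pos_of_lt_pi (by linarith) (by linarith)
      have hsm : Real.sin y1 ≤ Real.sin y :=
        Real.sin_le_sin_of_le_of_le_pi_div_two (by linarith) (by linarith) hy1'
      have hn : 0 < y + σ := by linarith
      have h4 := Ee_window (k := β * r) (X := X) (s := Real.sin z) (c := Real.sin y1) (n := y + σ)
        (n0 := y1 + σ) (n1 := y2 + σ) (b := -(δ * (β * r))) (by linarith) (by linarith) (by linarith) (by linarith)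
        (by linarith)
      have h5 := Ee_mono (k := β * r) hX0.le hn.le hsz hsy (le_refl (Real.sin z)) hsm
      have h6 := h5.trans h4
      unfold Ee at h6
      rw [hE, Real.log_div hX0.ne' (by positivity), Real.log_div (by positivity) hn.ne',
        Real.log_mul (by positivity) hsz.ne', Real.log_mul (by positivity) hsy'.ne']
      nlinarith

/-- the remainder for `κ ≤ 1.3` -/
theorem norm_TT_sq_le {β r σ : ℝ} (hr : 10 ≤ r) (hβ : 0 < β) (hκ : β * r ≤ 1.3) (hσ : 0 ≤ σ) :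
    ‖TT β r (-(Real.pi / 2) - σ)‖ ^ 2 ≤ 0.001 * Real.exp (-(1.6 * r)) := by
  have hpi := Real.pi_gt_d4
  have hpi' := Real.pi_lt_d4
  have hr0 : 0 < r := by linarith
  have hβ1 : β ≤ 0.13 := by nlinarith
  obtain ⟨T, hT⟩ : ∃ T : ℝ, T = Real.pi - (-(Real.pi / 2) - σ) := ⟨_, rfl⟩
  have hT1 : 4.7122 ≤ T := by rw [hT]; linarith
  have h1 : ‖TT β r (-(Real.pi / 2) - σ)‖ ≤ (Real.sqrt (2 * Real.pi * β))⁻¹ *
      ((β / 1.3 * Real.exp (r * Real.exp 1.3) + β / T) * Real.exp (-(T * 1.3 / β))) := by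
    have := norm_Ft_sub_two_le (t := -(Real.pi / 2) - σ) hβ hr0 (y := 1.3) (by norm_num) (by linarith)
    rw [← hT] at this
    exact this
  have hb : β / 1.3 * Real.exp (r * Real.exp 1.3) + β / T ≤ β * Real.exp (r * Real.exp 1.3) := by
    have h2 : β / T ≤ β / 4.7 := div_le_div_of_nonneg_left hβ.le (by norm_num) (by linarith)
    have h3 : 1 ≤ Real.exp (r * Real.exp 1.3) := Real.one_le_exp (by positivity)
    have e1 : β / 1.3 = β * (10 / 13) := by ring
    have e2 : β / 4.7 = β * (10 / 47) := by ring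
    rw [e1]
    rw [e2] at h2
    nlinarith
  have h2 : ‖TT β r (-(Real.pi / 2) - σ)‖ ^ 2 ≤ ((Real.sqrt (2 * Real.pi * β))⁻¹ *
      (β * Real.exp (r * Real.exp 1.3) * Real.exp (-(T * 1.3 / β)))) ^ 2 := by
    apply pow_le_pow_left₀ (norm_nonneg _)
    refine h1.trans ?_
    apply mul_le_mul_of_nonneg_left _ (by positivity)
    exact mul_le_mul_of_nonneg_right hb (Real.exp_pos _).le
  refine h2.trans ?_
  have hexp : r * Real.exp 1.3 + -(T * 1.3 / β) ≤ -(1.04 * r) := by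
    have h3 : Real.exp 1.3 ≤ 3.6695 := by
      have h4 := Real.exp_bound' (x := 0.65) (by norm_num) (by norm_num) (n := 6) (by norm_num)
      have h5 : Real.exp 1.3 = Real.exp 0.65 * Real.exp 0.65 := by rw [← Real.exp_add]; norm_num
      have h6 : Real.exp 0.65 ≤ 1.91559 := by
        refine h4.trans ?_
        norm_num [Finset.sum_range_succ, Nat.factorial]
      rw [h5]
      nlinarith [Real.exp_pos 0.65]
    have h4 : 4.7122 * r ≤ T * 1.3 / β := by
      rw [le_div_iff₀ hβ]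
      nlinarith
    nlinarith
  have e1 : ((Real.sqrt (2 * Real.pi * β))⁻¹ * (β * Real.exp (r * Real.exp 1.3) * Real.exp (-(T * 1.3 / β)))) ^ 2 =
      β / (2 * Real.pi) * Real.exp (r * Real.exp 1.3 + -(T * 1.3 / β)) ^ 2 := by
    rw [Real.exp_add, mul_pow, inv_pow, Real.sq_sqrt (by positivity)]
    field_simp
  rw [e1, ← Real.exp_nat_mul]
  have h5 : Real.exp (((2:ℕ):ℝ) * (r * Real.exp 1.3 + -(T * 1.3 / β))) ≤ Real.exp (-(1.6 * r)) * Real.exp (-4) := by
    rw [← Real.exp_add]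
    apply Real.exp_le_exp.2
    push_cast
    linarith
  have h6 : Real.exp (-4) ≤ 0.02 := by
    have h7 := Real.exp_one_gt_d9
    have h8 : Real.exp 4 = Real.exp 1 ^ 4 := by rw [← Real.exp_nat_mul]; norm_num
    rw [Real.exp_neg, inv_le_comm₀ (Real.exp_pos _) (by norm_num), h8]
    calc (0.02 : ℝ)⁻¹ ≤ 2.7 ^ 4 := by norm_num
      _ ≤ Real.exp 1 ^ 4 := pow_le_pow_left₀ (by norm_num) (by linarith) 4
  have h7 : β / (2 * Real.pi) ≤ 0.03 := by
    rw [div_le_iff₀ (by positivity)]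
    nlinarith
  calc β / (2 * Real.pi) * Real.exp (((2:ℕ):ℝ) * (r * Real.exp 1.3 + -(T * 1.3 / β)))
      ≤ 0.03 * (Real.exp (-(1.6 * r)) * Real.exp (-4)) :=
        mul_le_mul h7 h5 (Real.exp_pos _).le (by norm_num)
    _ ≤ 0.03 * (Real.exp (-(1.6 * r)) * 0.02) := by
        apply mul_le_mul_of_nonneg_left _ (by norm_num)
        exact mul_le_mul_of_nonneg_left h6 (Real.exp_pos _).le
    _ ≤ _ := by
        have := Real.exp_pos (-(1.6 * r))
        nlinarith

theorem exp_1716 : (0.33 : ℝ) ≤ Real.exp (-(17 / 16)) := by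
  have h5 := Real.add_one_le_exp (-(1 / 16 : ℝ))
  have h6 := Real.exp_neg_one_gt_d9
  have h7 : Real.exp (-(17 / 16)) = Real.exp (-1) * Real.exp (-(1 / 16)) := by
    rw [← Real.exp_add]; norm_num
  rw [h7]
  calc (0.33 : ℝ) ≤ 0.3678 * (-(1 / 16) + 1) := by norm_num
    _ ≤ _ := mul_le_mul (by linarith) h5 (by norm_num) (Real.exp_pos _).le

/-- conclusion of one piece -/
theorem Ft_ne_of {β r σ z y1 y2 δ k0 : ℝ} (hr : 10 ≤ r) (hβ : 0 < β) (hκ : β * r ≤ 1.3) (hk0 : 0 < k0)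
    (hk : k0 ≤ β * r) (hσ : 0 ≤ σ) (hX : 0.2 ≤ z - σ) (hz : z < Real.pi) (hy1 : 0.2 ≤ y1) (hy12 : y1 + 0.03 ≤ y2)
    (hy2 : y2 < Real.pi / 2) (hy2σ : y2 + σ ≤ 3.5) (hδ0 : 0.2 ≤ δ) (hδ : δ * 1.3 ≤ y1 + z)
    (h1 : Ee k0 (z - σ) (y1 + σ) (Real.sin z) (Real.sin y1) + δ * k0 ≤ 0)
    (h2 : Ee k0 (z - σ) (y2 + σ) (Real.sin z) (Real.sin y1) + δ * k0 ≤ 0)
    (hP : Real.exp (51 / 16) * Real.sqrt (0.065 * (y2 + σ)) * Real.exp (-(20 * δ)) ≤
      0.36 * (6.28 * (z - σ) * (y2 - y1))) :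
    Ft β r (3 * Real.pi / 2 - σ) ≠ 0 := by
  have hpi := Real.pi_gt_d4
  have hpi' := Real.pi_lt_d4
  have hr0 : 0 < r := by linarith
  have hβ1 : β ≤ 0.13 := by nlinarith
  have hκ0 : 0 < β * r := by positivity
  obtain ⟨L, hL1, hC, hA⟩ := bounds (z := z) (y1 := y1) (y2 := y2) (δ := δ) hr hβ hk0 hk hσ (by linarith) hz
    (by linarith) (by linarith) hy2 (by linarith) (by nlinarith) h1 h2
  have hT := norm_TT_sq_le hr hβ hκ hσ
  obtain ⟨a, ha⟩ : ∃ a : ℝ, a = ‖AA β r (-(Real.pi / 2) - σ)‖ := ⟨_, rfl⟩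
  obtain ⟨c, hc⟩ : ∃ c : ℝ, c = ‖CC β r (3 * Real.pi / 2 - σ)‖ := ⟨_, rfl⟩
  obtain ⟨T, hTT⟩ : ∃ T : ℝ, T = ‖TT β r (-(Real.pi / 2) - σ)‖ := ⟨_, rfl⟩
  rw [← ha] at hA
  rw [← hc] at hC
  rw [← hTT] at hT
  have ha0 : 0 ≤ a := by rw [ha]; exact norm_nonneg _
  have hc0 : 0 ≤ c := by rw [hc]; exact norm_nonneg _
  have hT0 : 0 ≤ T := by rw [hTT]; exact norm_nonneg _
  obtain ⟨W, hW⟩ : ∃ W : ℝ, W = Real.exp (-(17 / 16)) * (y2 - y1) * Real.sqrt (2 / (β * (y2 + σ))) := ⟨_, rfl⟩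
  rw [← hW] at hA
  have hX0 : 0 < z - σ := by linarith
  have hw0 : 0 < y2 - y1 := by linarith
  have hys : 0 < y2 + σ := by linarith
  have hsq : 0 < Real.sqrt (2 / (β * (y2 + σ))) := Real.sqrt_pos.2 (by positivity)
  have hWp : 0 < W := by rw [hW]; positivity
  have hexpL : Real.exp (-(1.6 * r)) ≤ Real.exp (2 * L / β) := by
    apply Real.exp_le_exp.2
    rw [le_div_iff₀ hβ]
    have h3 : (1 - δ) * (β * r) ≤ 0.8 * (β * r) := mul_le_mul_of_nonneg_right (by linarith) hκ0.le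
    linarith
  -- `W ≥ 0.02`
  have hW1 : 0.0196 ≤ W := by
    have h3 : 2 ≤ Real.sqrt (2 / (β * (y2 + σ))) := by
      apply Real.le_sqrt_of_sq_le
      rw [le_div_iff₀ (by positivity)]
      have : β * (y2 + σ) ≤ 0.13 * 3.5 := mul_le_mul hβ1 hy2σ hys.le (by norm_num)
      linarith
    have h4 := exp_1716
    have h5 : 0.33 * 0.03 ≤ Real.exp (-(17 / 16)) * (y2 - y1) :=
      mul_le_mul h4 (by linarith) (by norm_num) (Real.exp_pos _).le
    calc (0.0196 : ℝ) ≤ 0.33 * 0.03 * 2 := by norm_num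
      _ ≤ W := by
        rw [hW]
        exact mul_le_mul h5 h3 (by norm_num) (by positivity)
  -- `T ≤ 0.3 a`
  have hTa : T ≤ 0.3 * a := by
    have h3 : T ^ 2 ≤ (0.3 * a) ^ 2 := by
      have h4 : 0.0196 * Real.exp (-(1.6 * r)) ≤ a ^ 2 :=
        (mul_le_mul hW1 hexpL (Real.exp_pos _).le hWp.le).trans hA
      have := Real.exp_pos (-(1.6 * r))
      rw [mul_pow]
      norm_num at h4 hT ⊢
      linarith
    exact (pow_le_pow_iff_left₀ hT0 (by positivity) two_ne_zero).1 h3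
  -- `c ≤ 0.6 a`
  have hca : c ≤ 0.6 * a := by
    have h3 : c ^ 2 ≤ (0.6 * a) ^ 2 := by
      have e1 : Real.exp (2 * (L - δ * (β * r)) / β) = Real.exp (2 * L / β) * Real.exp (-(2 * δ * r)) := by
        rw [← Real.exp_add]
        congr 1
        field_simp
        ring
      have e2 : Real.exp (-(2 * δ * r)) ≤ Real.exp (-(20 * δ)) := by
        apply Real.exp_le_exp.2
        have h3 : δ * 10 ≤ δ * r := mul_le_mul_of_nonneg_left hr (by linarith)
        linarith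
      have h4 : Real.exp (17 / 8) / (2 * Real.pi * (z - σ)) * Real.exp (-(20 * δ)) ≤ 0.36 * W := by
        -- `1/√(2/(β y)) = √(β y/2) ≤ √(0.065 y)`
        have h5 : 1 ≤ Real.sqrt (2 / (β * (y2 + σ))) * Real.sqrt (0.065 * (y2 + σ)) := by
          rw [← Real.sqrt_mul (by positivity)]
          apply Real.le_sqrt_of_sq_le
          have h6 : 2 / (β * (y2 + σ)) * (0.065 * (y2 + σ)) = 0.13 / β := by
            field_simp
            norm_num
          rw [h6, one_pow, le_div_iff₀ hβ]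
          linarith
        have e3 : Real.exp (17 / 8) = Real.exp (51 / 16) * Real.exp (-(17 / 16)) := by
          rw [← Real.exp_add]; norm_num
        rw [div_mul_eq_mul_div, div_le_iff₀ (by positivity), e3, hW]
        have h7 : 0.36 * (6.28 * (z - σ) * (y2 - y1)) ≤ 0.36 * (2 * Real.pi * (z - σ) * (y2 - y1)) := by
          have h12 : 0 < (z - σ) * (y2 - y1) := by positivity
          have h13 : 6.28 * ((z - σ) * (y2 - y1)) ≤ 2 * Real.pi * ((z - σ) * (y2 - y1)) :=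
            mul_le_mul_of_nonneg_right (by linarith) h12.le
          linarith
        have h8 := hP.trans h7
        have hse := mul_le_mul_of_nonneg_left h5
          (by positivity : 0 ≤ Real.exp (51 / 16) * Real.exp (-(20 * δ)))
        have h9 := mul_le_mul_of_nonneg_right h8 hsq.le
        have h10 : Real.exp (51 / 16) * Real.exp (-(20 * δ)) ≤
            0.36 * (2 * Real.pi * (z - σ) * (y2 - y1)) * Real.sqrt (2 / (β * (y2 + σ))) := by
          refine le_trans ?_ h9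
          refine le_trans (le_of_eq (mul_one _).symm) (hse.trans (le_of_eq ?_))
          ring
        have h11 := mul_le_mul_of_nonneg_right h10 (Real.exp_pos (-(17 / 16))).le
        refine le_trans (le_of_eq ?_) (h11.trans (le_of_eq ?_)) <;> ring
      calc c ^ 2 ≤ Real.exp (17 / 8) / (2 * Real.pi * (z - σ)) *
            Real.exp (2 * (L - δ * (β * r)) / β) := hC
        _ = Real.exp (17 / 8) / (2 * Real.pi * (z - σ)) * (Real.exp (2 * L / β) * Real.exp (-(2 * δ * r))) := by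
            rw [e1]
        _ ≤ Real.exp (17 / 8) / (2 * Real.pi * (z - σ)) * (Real.exp (2 * L / β) * Real.exp (-(20 * δ))) := by
            apply mul_le_mul_of_nonneg_left _ (by positivity)
            exact mul_le_mul_of_nonneg_left e2 (Real.exp_pos _).le
        _ = (Real.exp (17 / 8) / (2 * Real.pi * (z - σ)) * Real.exp (-(20 * δ))) * Real.exp (2 * L / β) := by ring
        _ ≤ 0.36 * W * Real.exp (2 * L / β) := mul_le_mul_of_nonneg_right h4 (Real.exp_pos _).le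
        _ ≤ 0.36 * a ^ 2 := by linarith
        _ = (0.6 * a) ^ 2 := by ring
    exact (pow_le_pow_iff_left₀ hc0 (by positivity) two_ne_zero).1 h3
  have hap : 0 < a := by
    rw [ha]
    exact norm_pos_iff.2 (AA_ne_zero hβ hr0 (by linarith))
  intro hF
  have e1 : 3 * Real.pi / 2 - σ = -(Real.pi / 2) - σ + 2 * Real.pi := by ring
  rw [e1, Ft_add_two_pi] at hF
  have h5 : AA β r (-(Real.pi / 2) - σ) = -(CC β r (3 * Real.pi / 2 - σ)) - TT β r (-(Real.pi / 2) - σ) := by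
    unfold TT
    rw [hF, e1]
    ring
  have h6 : a ≤ c + T := by
    rw [ha, hc, hTT, h5]
    refine (norm_sub_le _ _).trans ?_
    rw [norm_neg]
  linarith

end Sok.Mid
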