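import Mathlib
import Pool.Agent.Lib.MP_816dec_an.MRightA

/-!
MP_816dec_an, `b = 1`, `0.6 ≤ κ ≤ 1.3`: `Ft β r t ≠ 0` for `5.2 - 2κ ≤ t ≤ 3π/2`. Numerical pieces.
-/

set_option autoImplicit false

open Complex Set Filter Topology MeasureTheory

namespace Sok.Mid

theorem log_up1 (n : ℕ) {a b : ℝ} (ha : 0 < a) (hb : 0 ≤ b)
    (h : a ≤ ∑ i ∈ Finset.range n, b ^ i / (i.factorial : ℝ)) : Real.log a ≤ b :=
  (Real.log_le_iff_le_exp ha).2 (h.trans (Real.sum_le_exp_of_nonneg hb n))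

theorem log_up2 (n : ℕ) (hn : 0 < n) {a b : ℝ} (ha : 0 < a) (hb : 0 ≤ b) (hb1 : b ≤ 1)
    (h : a * (∑ m ∈ Finset.range n, b ^ m / (m.factorial : ℝ) + b ^ n * (n + 1) / (n.factorial * n)) ≤ 1) :
    Real.log a ≤ -b := by
  rw [Real.log_le_iff_le_exp ha, Real.exp_neg, le_inv_comm₀ ha (Real.exp_pos _)]
  refine (Real.exp_bound' hb hb1 hn).trans ?_
  rw [le_inv_comm₀ _ ha, ← one_div, le_div_iff₀]
  · exact h
  all_goals
    have : 0 < Real.exp b := Real.exp_pos b
    have := Real.exp_bound' hb hb1 hn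
    linarith

theorem log_lo1 (n : ℕ) {a b : ℝ} (ha : 0 < a) (hb : 0 ≤ b)
    (h : 1 ≤ a * ∑ i ∈ Finset.range n, b ^ i / (i.factorial : ℝ)) : -b ≤ Real.log a := by
  rw [Real.le_log_iff_exp_le ha, Real.exp_neg, inv_le_comm₀ (Real.exp_pos _) ha]
  have h1 := Real.sum_le_exp_of_nonneg hb n
  rw [← one_div, div_le_iff₀ ha]
  nlinarith

theorem log_lo2 (n : ℕ) (hn : 0 < n) {a b : ℝ} (ha : 0 < a) (hb : 0 ≤ b) (hb1 : b ≤ 1)
    (h : ∑ m ∈ Finset.range n, b ^ m / (m.factorial : ℝ) + b ^ n * (n + 1) / (n.factorial * n) ≤ a) :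
    b ≤ Real.log a := by
  rw [Real.le_log_iff_exp_le ha]
  exact (Real.exp_bound' hb hb1 hn).trans h

/-- lower bound of `cos` -/
theorem cos_lower {x : ℝ} (hx : |x| ≤ 1.5) : 2 * (1 - x ^ 2 / 8 + x ^ 4 / 512) ^ 2 - 1 ≤ Real.cos x := by
  have h1 := Real.one_sub_sq_div_two_le_cos (x := x / 4)
  have e1 : Real.cos (x / 2) = 2 * Real.cos (x / 4) ^ 2 - 1 := by
    rw [← Real.cos_two_mul]; congr 1; ring
  have e2 : Real.cos x = 2 * Real.cos (x / 2) ^ 2 - 1 := by
    rw [← Real.cos_two_mul]; congr 1; ring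
  have hx2 : x ^ 2 ≤ 2.25 := by
    have := sq_abs x
    nlinarith [abs_nonneg x]
  have h2 : 1 - x ^ 2 / 8 + x ^ 4 / 512 ≤ Real.cos (x / 2) := by
    rw [e1]
    have h3 : 0 ≤ 1 - (x / 4) ^ 2 / 2 := by nlinarith
    have h4 := mul_self_le_mul_self h3 h1
    nlinarith
  rw [e2]
  have h5 : 0 ≤ 1 - x ^ 2 / 8 + x ^ 4 / 512 := by nlinarith [sq_nonneg (x ^ 2)]
  have h6 := mul_self_le_mul_self h5 h2
  nlinarith

/-- lower bound of `sin z` from a rational approximation of `|z - π/2|` -/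
theorem sin_lower {z x s : ℝ} (hx : |z - Real.pi / 2| ≤ x) (hx1 : x ≤ 1.5)
    (h : s ≤ 2 * (1 - x ^ 2 / 8 + x ^ 4 / 512) ^ 2 - 1) : s ≤ Real.sin z := by
  have hx0 : 0 ≤ x := (abs_nonneg _).trans hx
  have h1 : Real.sin z = Real.cos (|z - Real.pi / 2|) := by
    rw [Real.cos_abs, Real.cos_sub_pi_div_two]
  rw [h1]
  have h2 : Real.cos x ≤ Real.cos (|z - Real.pi / 2|) := by
    apply Real.cos_le_cos_of_nonneg_of_le_pi (abs_nonneg _) _ hx
    have := Real.pi_gt_three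
    linarith
  have h3 := cos_lower (x := x) (by rw [abs_of_nonneg hx0]; exact hx1)
  linarith

theorem exp_5116 : Real.exp (51 / 16) ≤ 24.3 := by
  have h1 := Real.exp_one_lt_d9
  have h2 : Real.exp (51 / 16) = Real.exp 1 ^ 3 * Real.exp (3 / 16) := by
    rw [← Real.exp_nat_mul, ← Real.exp_add]; norm_num
  have h3 := Real.exp_bound' (x := 3 / 16) (by norm_num) (by norm_num) (n := 5) (by norm_num)
  have h4 : Real.exp (3 / 16) ≤ 1.20624 := by
    refine h3.trans ?_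
    norm_num [Finset.sum_range_succ, Nat.factorial]
  have h5 : Real.exp 1 ^ 3 ≤ 2.7182818286 ^ 3 := pow_le_pow_left₀ (Real.exp_pos _).le h1.le 3
  rw [h2]
  calc Real.exp 1 ^ 3 * Real.exp (3 / 16) ≤ 2.7182818286 ^ 3 * 1.20624 :=
        mul_le_mul h5 h4 (Real.exp_pos _).le (by norm_num)
    _ ≤ 24.3 := by norm_num

theorem pieceR {β r σ σa σb z y1 y2 δ ka kb s c Xa Xb na1 na2 nb1 nb2 q e : ℝ} (hr : 10 ≤ r) (hβ : 0 < β)
    (hκ : β * r ≤ 1.3) (hka : 0 < ka) (hkb : 0 < kb) (hab : σa < σb) (hσa : 0 ≤ σa) (h1 : σa ≤ σ) (h2 : σ ≤ σb)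
    (hk : ka * (σb - σa) + (kb - ka) * (σ - σa) ≤ β * r * (σb - σa))
    (eXa : Xa = z - σa) (eXb : Xb = z - σb) (ena1 : na1 = y1 + σa) (ena2 : na2 = y2 + σa)
    (enb1 : nb1 = y1 + σb) (enb2 : nb2 = y2 + σb)
    (hX : 0.2 ≤ Xb) (hz : z < Real.pi) (hy1 : 0.2 ≤ y1) (hy12 : y1 + 0.03 ≤ y2)
    (hy2 : y2 < Real.pi / 2) (hy2σ : nb2 ≤ 3.5) (hδ0 : 0.2 ≤ δ) (hδ : δ * 1.3 ≤ y1 + z)
    (hs0 : 0 < s) (hs : s ≤ Real.sin z) (hc0 : 0 < c) (hc : c ≤ Real.sin y1)
    (A1 : Ee ka Xa na1 s c + δ * ka ≤ 0) (A2 : Ee ka Xa na2 s c + δ * ka ≤ 0)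
    (B1 : Ee kb Xb nb1 s c + δ * kb ≤ 0) (B2 : Ee kb Xb nb2 s c + δ * kb ≤ 0)
    (hq0 : 0 ≤ q) (hq : 0.065 * nb2 ≤ q ^ 2) (he : Real.exp (-(20 * δ)) ≤ e)
    (hP : 24.3 * q * e ≤ 0.36 * (6.28 * Xb * (y2 - y1))) :
    Ft β r (3 * Real.pi / 2 - σ) ≠ 0 := by
  have hd : 0 < σb - σa := by linarith
  obtain ⟨l, hl⟩ : ∃ l : ℝ, l = (σ - σa) / (σb - σa) := ⟨_, rfl⟩
  have hl0 : 0 ≤ l := by rw [hl]; exact div_nonneg (by linarith) hd.le
  have hl1 : l ≤ 1 := by rw [hl, div_le_one hd]; linarith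
  have hlσ : l * (σb - σa) = σ - σa := by rw [hl]; field_simp
  have hσ : σ = (1 - l) * σa + l * σb := by linarith
  obtain ⟨k0, hk0⟩ : ∃ k0 : ℝ, k0 = (1 - l) * ka + l * kb := ⟨_, rfl⟩
  have hk0p : 0 < k0 := by
    rw [hk0]
    rcases eq_or_lt_of_le hl0 with h | h
    · rw [← h]; linarith
    · have h3 : 0 < l * kb := mul_pos h hkb
      have h4 : 0 ≤ (1 - l) * ka := mul_nonneg (by linarith) hka.le
      linarith
  have hkle : k0 ≤ β * r := by
    have h3 : k0 * (σb - σa) ≤ β * r * (σb - σa) := by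
      refine le_trans (le_of_eq ?_) hk
      rw [hk0, ← hlσ]
      ring
    exact le_of_mul_le_mul_right h3 hd
  have hXb : Xb ≤ z - σ := by rw [eXb]; linarith
  have hXa0 : 0 ≤ Xa := by rw [eXa]; linarith
  have key : ∀ y na nb : ℝ, na = y + σa → nb = y + σb → 0 ≤ y → Ee ka Xa na s c + δ * ka ≤ 0 →
      Ee kb Xb nb s c + δ * kb ≤ 0 → Ee k0 (z - σ) (y + σ) (Real.sin z) (Real.sin y1) + δ * k0 ≤ 0 := by
    intro y na nb ena enb hy hA hB
    have h3 := Ee_mix (X0 := Xa) (X1 := Xb) (n0 := na) (n1 := nb) (k0 := ka) (k1 := kb) (s := s) (c := c) (l := l)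
      hXa0 (by linarith) (by linarith) (by linarith) hka hkb (by rw [eXa, eXb, ena, enb]; ring) hl0 hl1
    have e1 : (1 - l) * Xa + l * Xb = z - σ := by rw [eXa, eXb, hσ]; ring
    have e2 : (1 - l) * na + l * nb = y + σ := by rw [ena, enb, hσ]; ring
    rw [e1, e2, ← hk0] at h3
    have h4 := Ee_mono (k := k0) (X := z - σ) (n := y + σ) (by linarith) (by linarith) hs0 hc0 hs hc
    have h5 := mul_le_mul_of_nonneg_left hA (by linarith : 0 ≤ 1 - l)
    have h6 := mul_le_mul_of_nonneg_left hB hl0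
    have e3 : δ * k0 = (1 - l) * (δ * ka) + l * (δ * kb) := by rw [hk0]; ring
    rw [e3]
    linarith
  refine Ft_ne_of (z := z) (y1 := y1) (y2 := y2) (δ := δ) (k0 := k0) hr hβ hκ hk0p hkle (by linarith)
    (by linarith) hz hy1 hy12 hy2 (by linarith) hδ0 hδ (key y1 na1 nb1 ena1 enb1 (by linarith) A1 B1)
    (key y2 na2 nb2 ena2 enb2 (by linarith) A2 B2) ?_
  have hs1 : Real.sqrt (0.065 * (y2 + σ)) ≤ q := by
    apply Real.sqrt_le_iff.2
    exact ⟨hq0, le_trans (by linarith) hq⟩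
  have h3 : Real.exp (51 / 16) * Real.sqrt (0.065 * (y2 + σ)) * Real.exp (-(20 * δ)) ≤ 24.3 * q * e :=
    mul_le_mul (mul_le_mul exp_5116 hs1 (Real.sqrt_nonneg _) (by norm_num)) he (Real.exp_pos _).le (by positivity)
  refine h3.trans (hP.trans ?_)
  have h4 : Xb * (y2 - y1) ≤ (z - σ) * (y2 - y1) := mul_le_mul_of_nonneg_right hXb (by linarith)
  linarith

private theorem lu0_38 : Real.log 0.38 ≤ -0.96756 :=
  log_up2 9 (by norm_num) (by norm_num) (by norm_num) (by norm_num) (by norm_num [Finset.sum_range_succ, Nat.factorial])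

private theorem lu0_387 : Real.log 0.387 ≤ -0.94931 :=
  log_up2 9 (by norm_num) (by norm_num) (by norm_num) (by norm_num) (by norm_num [Finset.sum_range_succ, Nat.factorial])

private theorem lu0_62 : Real.log 0.62 ≤ -0.47801 :=
  log_up2 9 (by norm_num) (by norm_num) (by norm_num) (by norm_num) (by norm_num [Finset.sum_range_succ, Nat.factorial])

private theorem lu0_697 : Real.log 0.697 ≤ -0.36094 :=
  log_up2 9 (by norm_num) (by norm_num) (by norm_num) (by norm_num) (by norm_num [Finset.sum_range_succ, Nat.factorial])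

private theorem lu0_707 : Real.log 0.707 ≤ -0.3467 :=
  log_up2 9 (by norm_num) (by norm_num) (by norm_num) (by norm_num) (by norm_num [Finset.sum_range_succ, Nat.factorial])

private theorem lu0_78 : Real.log 0.78 ≤ -0.24844 :=
  log_up2 9 (by norm_num) (by norm_num) (by norm_num) (by norm_num) (by norm_num [Finset.sum_range_succ, Nat.factorial])

private theorem lu0_83 : Real.log 0.83 ≤ -0.1863 :=
  log_up2 9 (by norm_num) (by norm_num) (by norm_num) (by norm_num) (by norm_num [Finset.sum_range_succ, Nat.factorial])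

private theorem lu0_85 : Real.log 0.85 ≤ -0.16249 :=
  log_up2 9 (by norm_num) (by norm_num) (by norm_num) (by norm_num) (by norm_num [Finset.sum_range_succ, Nat.factorial])

private theorem lu0_92 : Real.log 0.92 ≤ -0.08336 :=
  log_up2 9 (by norm_num) (by norm_num) (by norm_num) (by norm_num) (by norm_num [Finset.sum_range_succ, Nat.factorial])

private theorem lu0_95 : Real.log 0.95 ≤ -0.05127 :=
  log_up2 9 (by norm_num) (by norm_num) (by norm_num) (by norm_num) (by norm_num [Finset.sum_range_succ, Nat.factorial])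

private theorem lu1_41 : Real.log 1.41 ≤ 0.34361 :=
  log_up1 9 (by norm_num) (by norm_num) (by norm_num [Finset.sum_range_succ, Nat.factorial])

private theorem lu1_633 : Real.log 1.633 ≤ 0.49044 :=
  log_up1 9 (by norm_num) (by norm_num) (by norm_num [Finset.sum_range_succ, Nat.factorial])

private theorem lu1_663 : Real.log 1.663 ≤ 0.50865 :=
  log_up1 9 (by norm_num) (by norm_num) (by norm_num [Finset.sum_range_succ, Nat.factorial])

private theorem lu1_72 : Real.log 1.72 ≤ 0.54235 :=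
  log_up1 9 (by norm_num) (by norm_num) (by norm_num [Finset.sum_range_succ, Nat.factorial])

private theorem lu1_75 : Real.log 1.75 ≤ 0.55964 :=
  log_up1 9 (by norm_num) (by norm_num) (by norm_num [Finset.sum_range_succ, Nat.factorial])

private theorem lu1_77 : Real.log 1.77 ≤ 0.571 :=
  log_up1 9 (by norm_num) (by norm_num) (by norm_num [Finset.sum_range_succ, Nat.factorial])

private theorem lu1_8 : Real.log 1.8 ≤ 0.58781 :=
  log_up1 9 (by norm_num) (by norm_num) (by norm_num [Finset.sum_range_succ, Nat.factorial])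

private theorem lu2_17 : Real.log 2.17 ≤ 0.77475 :=
  log_up1 9 (by norm_num) (by norm_num) (by norm_num [Finset.sum_range_succ, Nat.factorial])

private theorem lu2_2 : Real.log 2.2 ≤ 0.78848 :=
  log_up1 9 (by norm_num) (by norm_num) (by norm_num [Finset.sum_range_succ, Nat.factorial])

private theorem lu2_39 : Real.log 2.39 ≤ 0.87132 :=
  log_up1 9 (by norm_num) (by norm_num) (by norm_num [Finset.sum_range_succ, Nat.factorial])

private theorem lu2_44 : Real.log 2.44 ≤ 0.89202 :=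
  log_up1 9 (by norm_num) (by norm_num) (by norm_num [Finset.sum_range_succ, Nat.factorial])

private theorem lu2_84 : Real.log 2.84 ≤ 1.04383 :=
  log_up1 9 (by norm_num) (by norm_num) (by norm_num [Finset.sum_range_succ, Nat.factorial])

private theorem lu2_87 : Real.log 2.87 ≤ 1.05434 :=
  log_up1 9 (by norm_num) (by norm_num) (by norm_num [Finset.sum_range_succ, Nat.factorial])

private theorem lu2_89 : Real.log 2.89 ≤ 1.06128 :=
  log_up1 9 (by norm_num) (by norm_num) (by norm_num [Finset.sum_range_succ, Nat.factorial])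

private theorem lu2_92 : Real.log 2.92 ≤ 1.07161 :=
  log_up1 9 (by norm_num) (by norm_num) (by norm_num [Finset.sum_range_succ, Nat.factorial])

private theorem lu3_333 : Real.log 3.333 ≤ 1.2039 :=
  log_up1 9 (by norm_num) (by norm_num) (by norm_num [Finset.sum_range_succ, Nat.factorial])

private theorem lu3_383 : Real.log 3.383 ≤ 1.21879 :=
  log_up1 9 (by norm_num) (by norm_num) (by norm_num [Finset.sum_range_succ, Nat.factorial])

private theorem ll0_5966 : -0.51653 ≤ Real.log 0.5966 :=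
  log_lo1 9 (by norm_num) (by norm_num) (by norm_num [Finset.sum_range_succ, Nat.factorial])

private theorem ll0_6 : -0.51085 ≤ Real.log 0.6 :=
  log_lo1 9 (by norm_num) (by norm_num) (by norm_num [Finset.sum_range_succ, Nat.factorial])

private theorem ll0_6435 : -0.44086 ≤ Real.log 0.6435 :=
  log_lo1 9 (by norm_num) (by norm_num) (by norm_num [Finset.sum_range_succ, Nat.factorial])

private theorem ll0_795 : -0.22944 ≤ Real.log 0.795 :=
  log_lo1 9 (by norm_num) (by norm_num) (by norm_num [Finset.sum_range_succ, Nat.factorial])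

private theorem ll0_8244 : -0.19312 ≤ Real.log 0.8244 :=
  log_lo1 9 (by norm_num) (by norm_num) (by norm_num [Finset.sum_range_succ, Nat.factorial])

private theorem ll0_8435 : -0.17022 ≤ Real.log 0.8435 :=
  log_lo1 9 (by norm_num) (by norm_num) (by norm_num [Finset.sum_range_succ, Nat.factorial])

private theorem ll0_8962 : -0.10962 ≤ Real.log 0.8962 :=
  log_lo1 9 (by norm_num) (by norm_num) (by norm_num [Finset.sum_range_succ, Nat.factorial])

private theorem ll0_9282 : -0.07453 ≤ Real.log 0.9282 :=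
  log_lo1 9 (by norm_num) (by norm_num) (by norm_num [Finset.sum_range_succ, Nat.factorial])

private theorem ll0_939 : -0.06296 ≤ Real.log 0.939 :=
  log_lo1 9 (by norm_num) (by norm_num) (by norm_num [Finset.sum_range_succ, Nat.factorial])

private theorem ll0_987 : -0.01311 ≤ Real.log 0.987 :=
  log_lo1 9 (by norm_num) (by norm_num) (by norm_num [Finset.sum_range_succ, Nat.factorial])

private theorem ll0_9886 : -0.01149 ≤ Real.log 0.9886 :=
  log_lo1 9 (by norm_num) (by norm_num) (by norm_num [Finset.sum_range_succ, Nat.factorial])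

private theorem ll0_9999 : -0.00013 ≤ Real.log 0.9999 :=
  log_lo1 9 (by norm_num) (by norm_num) (by norm_num [Finset.sum_range_succ, Nat.factorial])

private theorem ll1_0685 : 0.06623 ≤ Real.log 1.0685 :=
  log_lo2 9 (by norm_num) (by norm_num) (by norm_num) (by norm_num) (by norm_num [Finset.sum_range_succ, Nat.factorial])

private theorem ll1_3 : 0.26234 ≤ Real.log 1.3 :=
  log_lo2 9 (by norm_num) (by norm_num) (by norm_num) (by norm_num) (by norm_num [Finset.sum_range_succ, Nat.factorial])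

private theorem exP1 : Real.exp (-(20 * 0.27)) ≤ 0.0045257 := by
  have h1 := Real.sum_le_exp_of_nonneg (x := 0.27) (by norm_num) 7
  have h2 : (1.30995 : ℝ) ≤ Real.exp 0.27 := by
    refine le_trans ?_ h1
    norm_num [Finset.sum_range_succ, Nat.factorial]
  have h3 : Real.exp (-(20 * 0.27)) = (Real.exp 0.27 ^ 20)⁻¹ := by
    rw [← Real.exp_nat_mul, ← Real.exp_neg]; norm_num
  have h4 : (1.30995 : ℝ) ^ 20 ≤ Real.exp 0.27 ^ 20 := pow_le_pow_left₀ (by norm_num) h2 20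
  rw [h3]
  refine (inv_anti₀ (by positivity) h4).trans ?_
  norm_num

theorem pieceP1 {β r σ : ℝ} (hr : 10 ≤ r) (hβ : 0 < β) (hκ : β * r ≤ 1.3) (h1 : 0.0 ≤ σ) (h2 : σ ≤ 0.713)
    (hk : 0.6 * (0.713 - 0.0) + (0.6 - 0.6) * (σ - 0.0) ≤ β * r * (0.713 - 0.0)) :
    Ft β r (3 * Real.pi / 2 - σ) ≠ 0 := by
  have hpi := Real.pi_gt_d4
  have hpi' := Real.pi_lt_d4
  refine pieceR (σa := 0.0) (σb := 0.713) (z := 1.41) (y1 := 0.92) (y2 := 0.95) (δ := 0.27) (ka := 0.6) (kb := 0.6)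
    (s := 0.987) (c := 0.795) (Xa := 1.41) (Xb := 0.697) (na1 := 0.92) (na2 := 0.95) (nb1 := 1.633)
    (nb2 := 1.663) (q := 0.3288) (e := 0.0045257) hr hβ hκ (by norm_num) (by norm_num) (by norm_num) (by norm_num) h1 h2 hk
    (by norm_num) (by norm_num) (by norm_num) (by norm_num) (by norm_num) (by norm_num) (by norm_num) (by linarith)
    (by norm_num) (by norm_num) (by linarith) (by norm_num) (by norm_num) (by norm_num) (by norm_num)
    (sin_lower (x := 0.1609) (by rw [abs_le]; constructor <;> linarith) (by norm_num) (by norm_num)) (by norm_num)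
    (sin_lower (x := 0.6509) (by rw [abs_le]; constructor <;> linarith) (by norm_num) (by norm_num))
    (by
      unfold Ee
      linarith [mul_le_mul_of_nonneg_left lu1_41 (by norm_num : (0:ℝ) ≤ 1.41), mul_le_mul_of_nonneg_left lu0_92 (by norm_num : (0:ℝ) ≤ 0.92),
        mul_le_mul_of_nonneg_left ll0_6 (by norm_num : (0:ℝ) ≤ 1.41 + 0.92), mul_le_mul_of_nonneg_left ll0_987 (by norm_num : (0:ℝ) ≤ 1.41),
        mul_le_mul_of_nonneg_left ll0_795 (by norm_num : (0:ℝ) ≤ 0.92)])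
    (by
      unfold Ee
      linarith [mul_le_mul_of_nonneg_left lu1_41 (by norm_num : (0:ℝ) ≤ 1.41), mul_le_mul_of_nonneg_left lu0_95 (by norm_num : (0:ℝ) ≤ 0.95),
        mul_le_mul_of_nonneg_left ll0_6 (by norm_num : (0:ℝ) ≤ 1.41 + 0.95), mul_le_mul_of_nonneg_left ll0_987 (by norm_num : (0:ℝ) ≤ 1.41),
        mul_le_mul_of_nonneg_left ll0_795 (by norm_num : (0:ℝ) ≤ 0.95)])
    (by
      unfold Ee
      linarith [mul_le_mul_of_nonneg_left lu0_697 (by norm_num : (0:ℝ) ≤ 0.697), mul_le_mul_of_nonneg_left lu1_633 (by norm_num : (0:ℝ) ≤ 1.633),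
        mul_le_mul_of_nonneg_left ll0_6 (by norm_num : (0:ℝ) ≤ 0.697 + 1.633), mul_le_mul_of_nonneg_left ll0_987 (by norm_num : (0:ℝ) ≤ 0.697),
        mul_le_mul_of_nonneg_left ll0_795 (by norm_num : (0:ℝ) ≤ 1.633)])
    (by
      unfold Ee
      linarith [mul_le_mul_of_nonneg_left lu0_697 (by norm_num : (0:ℝ) ≤ 0.697), mul_le_mul_of_nonneg_left lu1_663 (by norm_num : (0:ℝ) ≤ 1.663),
        mul_le_mul_of_nonneg_left ll0_6 (by norm_num : (0:ℝ) ≤ 0.697 + 1.663), mul_le_mul_of_nonneg_left ll0_987 (by norm_num : (0:ℝ) ≤ 0.697),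
        mul_le_mul_of_nonneg_left ll0_795 (by norm_num : (0:ℝ) ≤ 1.663)])
    (by norm_num) (by norm_num) exP1 (by norm_num)

private theorem exP2 : Real.exp (-(20 * 0.273)) ≤ 0.0042621 := by
  have h1 := Real.sum_le_exp_of_nonneg (x := 0.273) (by norm_num) 7
  have h2 : (1.31389 : ℝ) ≤ Real.exp 0.273 := by
    refine le_trans ?_ h1
    norm_num [Finset.sum_range_succ, Nat.factorial]
  have h3 : Real.exp (-(20 * 0.273)) = (Real.exp 0.273 ^ 20)⁻¹ := by
    rw [← Real.exp_nat_mul, ← Real.exp_neg]; norm_num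
  have h4 : (1.31389 : ℝ) ^ 20 ≤ Real.exp 0.273 ^ 20 := pow_le_pow_left₀ (by norm_num) h2 20
  rw [h3]
  refine (inv_anti₀ (by positivity) h4).trans ?_
  norm_num

theorem pieceP2 {β r σ : ℝ} (hr : 10 ≤ r) (hβ : 0 < β) (hκ : β * r ≤ 1.3) (h1 : 0.713 ≤ σ) (h2 : σ ≤ 0.8)
    (hk : 0.6 * (0.8 - 0.713) + (0.6435 - 0.6) * (σ - 0.713) ≤ β * r * (0.8 - 0.713)) :
    Ft β r (3 * Real.pi / 2 - σ) ≠ 0 := by
  have hpi := Real.pi_gt_d4
  have hpi' := Real.pi_lt_d4
  refine pieceR (σa := 0.713) (σb := 0.8) (z := 1.42) (y1 := 0.92) (y2 := 0.95) (δ := 0.273) (ka := 0.6) (kb := 0.6435)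
    (s := 0.9886) (c := 0.795) (Xa := 0.707) (Xb := 0.62) (na1 := 1.633) (na2 := 1.663) (nb1 := 1.72)
    (nb2 := 1.75) (q := 0.3373) (e := 0.0042621) hr hβ hκ (by norm_num) (by norm_num) (by norm_num) (by norm_num) h1 h2 hk
    (by norm_num) (by norm_num) (by norm_num) (by norm_num) (by norm_num) (by norm_num) (by norm_num) (by linarith)
    (by norm_num) (by norm_num) (by linarith) (by norm_num) (by norm_num) (by norm_num) (by norm_num)
    (sin_lower (x := 0.1509) (by rw [abs_le]; constructor <;> linarith) (by norm_num) (by norm_num)) (by norm_num)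
    (sin_lower (x := 0.6509) (by rw [abs_le]; constructor <;> linarith) (by norm_num) (by norm_num))
    (by
      unfold Ee
      linarith [mul_le_mul_of_nonneg_left lu0_707 (by norm_num : (0:ℝ) ≤ 0.707), mul_le_mul_of_nonneg_left lu1_633 (by norm_num : (0:ℝ) ≤ 1.633),
        mul_le_mul_of_nonneg_left ll0_6 (by norm_num : (0:ℝ) ≤ 0.707 + 1.633), mul_le_mul_of_nonneg_left ll0_9886 (by norm_num : (0:ℝ) ≤ 0.707),
        mul_le_mul_of_nonneg_left ll0_795 (by norm_num : (0:ℝ) ≤ 1.633)])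
    (by
      unfold Ee
      linarith [mul_le_mul_of_nonneg_left lu0_707 (by norm_num : (0:ℝ) ≤ 0.707), mul_le_mul_of_nonneg_left lu1_663 (by norm_num : (0:ℝ) ≤ 1.663),
        mul_le_mul_of_nonneg_left ll0_6 (by norm_num : (0:ℝ) ≤ 0.707 + 1.663), mul_le_mul_of_nonneg_left ll0_9886 (by norm_num : (0:ℝ) ≤ 0.707),
        mul_le_mul_of_nonneg_left ll0_795 (by norm_num : (0:ℝ) ≤ 1.663)])
    (by
      unfold Ee
      linarith [mul_le_mul_of_nonneg_left lu0_62 (by norm_num : (0:ℝ) ≤ 0.62), mul_le_mul_of_nonneg_left lu1_72 (by norm_num : (0:ℝ) ≤ 1.72),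
        mul_le_mul_of_nonneg_left ll0_6435 (by norm_num : (0:ℝ) ≤ 0.62 + 1.72), mul_le_mul_of_nonneg_left ll0_9886 (by norm_num : (0:ℝ) ≤ 0.62),
        mul_le_mul_of_nonneg_left ll0_795 (by norm_num : (0:ℝ) ≤ 1.72)])
    (by
      unfold Ee
      linarith [mul_le_mul_of_nonneg_left lu0_62 (by norm_num : (0:ℝ) ≤ 0.62), mul_le_mul_of_nonneg_left lu1_75 (by norm_num : (0:ℝ) ≤ 1.75),
        mul_le_mul_of_nonneg_left ll0_6435 (by norm_num : (0:ℝ) ≤ 0.62 + 1.75), mul_le_mul_of_nonneg_left ll0_9886 (by norm_num : (0:ℝ) ≤ 0.62),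
        mul_le_mul_of_nonneg_left ll0_795 (by norm_num : (0:ℝ) ≤ 1.75)])
    (by norm_num) (by norm_num) exP2 (by norm_num)

private theorem exP3 : Real.exp (-(20 * 0.33)) ≤ 0.0013631 := by
  have h1 := Real.sum_le_exp_of_nonneg (x := 0.33) (by norm_num) 7
  have h2 : (1.39095 : ℝ) ≤ Real.exp 0.33 := by
    refine le_trans ?_ h1
    norm_num [Finset.sum_range_succ, Nat.factorial]
  have h3 : Real.exp (-(20 * 0.33)) = (Real.exp 0.33 ^ 20)⁻¹ := by
    rw [← Real.exp_nat_mul, ← Real.exp_neg]; norm_num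
  have h4 : (1.39095 : ℝ) ^ 20 ≤ Real.exp 0.33 ^ 20 := pow_le_pow_left₀ (by norm_num) h2 20
  rw [h3]
  refine (inv_anti₀ (by positivity) h4).trans ?_
  norm_num

theorem pieceP3 {β r σ : ℝ} (hr : 10 ≤ r) (hβ : 0 < β) (hκ : β * r ≤ 1.3) (h1 : 0.8 ≤ σ) (h2 : σ ≤ 1.2)
    (hk : 0.6435 * (1.2 - 0.8) + (0.8435 - 0.6435) * (σ - 0.8) ≤ β * r * (1.2 - 0.8)) :
    Ft β r (3 * Real.pi / 2 - σ) ≠ 0 := by
  have hpi := Real.pi_gt_d4
  have hpi' := Real.pi_lt_d4
  refine pieceR (σa := 0.8) (σb := 1.2) (z := 1.58) (y1 := 0.97) (y2 := 1.0) (δ := 0.33) (ka := 0.6435) (kb := 0.8435)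
    (s := 0.9999) (c := 0.8244) (Xa := 0.78) (Xb := 0.38) (na1 := 1.77) (na2 := 1.8) (nb1 := 2.17)
    (nb2 := 2.2) (q := 0.3782) (e := 0.0013631) hr hβ hκ (by norm_num) (by norm_num) (by norm_num) (by norm_num) h1 h2 hk
    (by norm_num) (by norm_num) (by norm_num) (by norm_num) (by norm_num) (by norm_num) (by norm_num) (by linarith)
    (by norm_num) (by norm_num) (by linarith) (by norm_num) (by norm_num) (by norm_num) (by norm_num)
    (sin_lower (x := 0.0094) (by rw [abs_le]; constructor <;> linarith) (by norm_num) (by norm_num)) (by norm_num)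
    (sin_lower (x := 0.6009) (by rw [abs_le]; constructor <;> linarith) (by norm_num) (by norm_num))
    (by
      unfold Ee
      linarith [mul_le_mul_of_nonneg_left lu0_78 (by norm_num : (0:ℝ) ≤ 0.78), mul_le_mul_of_nonneg_left lu1_77 (by norm_num : (0:ℝ) ≤ 1.77),
        mul_le_mul_of_nonneg_left ll0_6435 (by norm_num : (0:ℝ) ≤ 0.78 + 1.77), mul_le_mul_of_nonneg_left ll0_9999 (by norm_num : (0:ℝ) ≤ 0.78),
        mul_le_mul_of_nonneg_left ll0_8244 (by norm_num : (0:ℝ) ≤ 1.77)])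
    (by
      unfold Ee
      linarith [mul_le_mul_of_nonneg_left lu0_78 (by norm_num : (0:ℝ) ≤ 0.78), mul_le_mul_of_nonneg_left lu1_8 (by norm_num : (0:ℝ) ≤ 1.8),
        mul_le_mul_of_nonneg_left ll0_6435 (by norm_num : (0:ℝ) ≤ 0.78 + 1.8), mul_le_mul_of_nonneg_left ll0_9999 (by norm_num : (0:ℝ) ≤ 0.78),
        mul_le_mul_of_nonneg_left ll0_8244 (by norm_num : (0:ℝ) ≤ 1.8)])
    (by
      unfold Ee
      linarith [mul_le_mul_of_nonneg_left lu0_38 (by norm_num : (0:ℝ) ≤ 0.38), mul_le_mul_of_nonneg_left lu2_17 (by norm_num : (0:ℝ) ≤ 2.17),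
        mul_le_mul_of_nonneg_left ll0_8435 (by norm_num : (0:ℝ) ≤ 0.38 + 2.17), mul_le_mul_of_nonneg_left ll0_9999 (by norm_num : (0:ℝ) ≤ 0.38),
        mul_le_mul_of_nonneg_left ll0_8244 (by norm_num : (0:ℝ) ≤ 2.17)])
    (by
      unfold Ee
      linarith [mul_le_mul_of_nonneg_left lu0_38 (by norm_num : (0:ℝ) ≤ 0.38), mul_le_mul_of_nonneg_left lu2_2 (by norm_num : (0:ℝ) ≤ 2.2),
        mul_le_mul_of_nonneg_left ll0_8435 (by norm_num : (0:ℝ) ≤ 0.38 + 2.2), mul_le_mul_of_nonneg_left ll0_9999 (by norm_num : (0:ℝ) ≤ 0.38),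
        mul_le_mul_of_nonneg_left ll0_8244 (by norm_num : (0:ℝ) ≤ 2.2)])
    (by norm_num) (by norm_num) exP3 (by norm_num)

private theorem exP4 : Real.exp (-(20 * 0.38)) ≤ 0.0005015 := by
  have h1 := Real.sum_le_exp_of_nonneg (x := 0.38) (by norm_num) 7
  have h2 : (1.46227 : ℝ) ≤ Real.exp 0.38 := by
    refine le_trans ?_ h1
    norm_num [Finset.sum_range_succ, Nat.factorial]
  have h3 : Real.exp (-(20 * 0.38)) = (Real.exp 0.38 ^ 20)⁻¹ := by
    rw [← Real.exp_nat_mul, ← Real.exp_neg]; norm_num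
  have h4 : (1.46227 : ℝ) ^ 20 ≤ Real.exp 0.38 ^ 20 := pow_le_pow_left₀ (by norm_num) h2 20
  rw [h3]
  refine (inv_anti₀ (by positivity) h4).trans ?_
  norm_num

theorem pieceP4 {β r σ : ℝ} (hr : 10 ≤ r) (hβ : 0 < β) (hκ : β * r ≤ 1.3) (h1 : 1.2 ≤ σ) (h2 : σ ≤ 1.65)
    (hk : 0.8435 * (1.65 - 1.2) + (1.0685 - 0.8435) * (σ - 1.2) ≤ β * r * (1.65 - 1.2)) :
    Ft β r (3 * Real.pi / 2 - σ) ≠ 0 := by
  have hpi := Real.pi_gt_d4
  have hpi' := Real.pi_lt_d4
  refine pieceR (σa := 1.2) (σb := 1.65) (z := 2.03) (y1 := 1.19) (y2 := 1.24) (δ := 0.38) (ka := 0.8435) (kb := 1.0685)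
    (s := 0.8962) (c := 0.9282) (Xa := 0.83) (Xb := 0.38) (na1 := 2.39) (na2 := 2.44) (nb1 := 2.84)
    (nb2 := 2.89) (q := 0.4335) (e := 0.0005015) hr hβ hκ (by norm_num) (by norm_num) (by norm_num) (by norm_num) h1 h2 hk
    (by norm_num) (by norm_num) (by norm_num) (by norm_num) (by norm_num) (by norm_num) (by norm_num) (by linarith)
    (by norm_num) (by norm_num) (by linarith) (by norm_num) (by norm_num) (by norm_num) (by norm_num)
    (sin_lower (x := 0.4594) (by rw [abs_le]; constructor <;> linarith) (by norm_num) (by norm_num)) (by norm_num)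
    (sin_lower (x := 0.3809) (by rw [abs_le]; constructor <;> linarith) (by norm_num) (by norm_num))
    (by
      unfold Ee
      linarith [mul_le_mul_of_nonneg_left lu0_83 (by norm_num : (0:ℝ) ≤ 0.83), mul_le_mul_of_nonneg_left lu2_39 (by norm_num : (0:ℝ) ≤ 2.39),
        mul_le_mul_of_nonneg_left ll0_8435 (by norm_num : (0:ℝ) ≤ 0.83 + 2.39), mul_le_mul_of_nonneg_left ll0_8962 (by norm_num : (0:ℝ) ≤ 0.83),
        mul_le_mul_of_nonneg_left ll0_9282 (by norm_num : (0:ℝ) ≤ 2.39)])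
    (by
      unfold Ee
      linarith [mul_le_mul_of_nonneg_left lu0_83 (by norm_num : (0:ℝ) ≤ 0.83), mul_le_mul_of_nonneg_left lu2_44 (by norm_num : (0:ℝ) ≤ 2.44),
        mul_le_mul_of_nonneg_left ll0_8435 (by norm_num : (0:ℝ) ≤ 0.83 + 2.44), mul_le_mul_of_nonneg_left ll0_8962 (by norm_num : (0:ℝ) ≤ 0.83),
        mul_le_mul_of_nonneg_left ll0_9282 (by norm_num : (0:ℝ) ≤ 2.44)])
    (by
      unfold Ee
      linarith [mul_le_mul_of_nonneg_left lu0_38 (by norm_num : (0:ℝ) ≤ 0.38), mul_le_mul_of_nonneg_left lu2_84 (by norm_num : (0:ℝ) ≤ 2.84),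
        mul_le_mul_of_nonneg_left ll1_0685 (by norm_num : (0:ℝ) ≤ 0.38 + 2.84), mul_le_mul_of_nonneg_left ll0_8962 (by norm_num : (0:ℝ) ≤ 0.38),
        mul_le_mul_of_nonneg_left ll0_9282 (by norm_num : (0:ℝ) ≤ 2.84)])
    (by
      unfold Ee
      linarith [mul_le_mul_of_nonneg_left lu0_38 (by norm_num : (0:ℝ) ≤ 0.38), mul_le_mul_of_nonneg_left lu2_89 (by norm_num : (0:ℝ) ≤ 2.89),
        mul_le_mul_of_nonneg_left ll1_0685 (by norm_num : (0:ℝ) ≤ 0.38 + 2.89), mul_le_mul_of_nonneg_left ll0_8962 (by norm_num : (0:ℝ) ≤ 0.38),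
        mul_le_mul_of_nonneg_left ll0_9282 (by norm_num : (0:ℝ) ≤ 2.89)])
    (by norm_num) (by norm_num) exP4 (by norm_num)

private theorem exP5 : Real.exp (-(20 * 0.36)) ≤ 0.0007481 := by
  have h1 := Real.sum_le_exp_of_nonneg (x := 0.36) (by norm_num) 7
  have h2 : (1.43331 : ℝ) ≤ Real.exp 0.36 := by
    refine le_trans ?_ h1
    norm_num [Finset.sum_range_succ, Nat.factorial]
  have h3 : Real.exp (-(20 * 0.36)) = (Real.exp 0.36 ^ 20)⁻¹ := by
    rw [← Real.exp_nat_mul, ← Real.exp_neg]; norm_num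
  have h4 : (1.43331 : ℝ) ^ 20 ≤ Real.exp 0.36 ^ 20 := pow_le_pow_left₀ (by norm_num) h2 20
  rw [h3]
  refine (inv_anti₀ (by positivity) h4).trans ?_
  norm_num

theorem pieceP5 {β r σ : ℝ} (hr : 10 ≤ r) (hβ : 0 < β) (hκ : β * r ≤ 1.3) (h1 : 1.65 ≤ σ) (h2 : σ ≤ 2.113)
    (hk : 1.0685 * (2.113 - 1.65) + (1.3 - 1.0685) * (σ - 1.65) ≤ β * r * (2.113 - 1.65)) :
    Ft β r (3 * Real.pi / 2 - σ) ≠ 0 := by
  have hpi := Real.pi_gt_d4
  have hpi' := Real.pi_lt_d4
  refine pieceR (σa := 1.65) (σb := 2.113) (z := 2.5) (y1 := 1.22) (y2 := 1.27) (δ := 0.36) (ka := 1.0685) (kb := 1.3)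
    (s := 0.5966) (c := 0.939) (Xa := 0.85) (Xb := 0.387) (na1 := 2.87) (na2 := 2.92) (nb1 := 3.333)
    (nb2 := 3.383) (q := 0.469) (e := 0.0007481) hr hβ hκ (by norm_num) (by norm_num) (by norm_num) (by norm_num) h1 h2 hk
    (by norm_num) (by norm_num) (by norm_num) (by norm_num) (by norm_num) (by norm_num) (by norm_num) (by linarith)
    (by norm_num) (by norm_num) (by linarith) (by norm_num) (by norm_num) (by norm_num) (by norm_num)
    (sin_lower (x := 0.9294) (by rw [abs_le]; constructor <;> linarith) (by norm_num) (by norm_num)) (by norm_num)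
    (sin_lower (x := 0.3509) (by rw [abs_le]; constructor <;> linarith) (by norm_num) (by norm_num))
    (by
      unfold Ee
      linarith [mul_le_mul_of_nonneg_left lu0_85 (by norm_num : (0:ℝ) ≤ 0.85), mul_le_mul_of_nonneg_left lu2_87 (by norm_num : (0:ℝ) ≤ 2.87),
        mul_le_mul_of_nonneg_left ll1_0685 (by norm_num : (0:ℝ) ≤ 0.85 + 2.87), mul_le_mul_of_nonneg_left ll0_5966 (by norm_num : (0:ℝ) ≤ 0.85),
        mul_le_mul_of_nonneg_left ll0_939 (by norm_num : (0:ℝ) ≤ 2.87)])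
    (by
      unfold Ee
      linarith [mul_le_mul_of_nonneg_left lu0_85 (by norm_num : (0:ℝ) ≤ 0.85), mul_le_mul_of_nonneg_left lu2_92 (by norm_num : (0:ℝ) ≤ 2.92),
        mul_le_mul_of_nonneg_left ll1_0685 (by norm_num : (0:ℝ) ≤ 0.85 + 2.92), mul_le_mul_of_nonneg_left ll0_5966 (by norm_num : (0:ℝ) ≤ 0.85),
        mul_le_mul_of_nonneg_left ll0_939 (by norm_num : (0:ℝ) ≤ 2.92)])
    (by
      unfold Ee
      linarith [mul_le_mul_of_nonneg_left lu0_387 (by norm_num : (0:ℝ) ≤ 0.387), mul_le_mul_of_nonneg_left lu3_333 (by norm_num : (0:ℝ) ≤ 3.333),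
        mul_le_mul_of_nonneg_left ll1_3 (by norm_num : (0:ℝ) ≤ 0.387 + 3.333), mul_le_mul_of_nonneg_left ll0_5966 (by norm_num : (0:ℝ) ≤ 0.387),
        mul_le_mul_of_nonneg_left ll0_939 (by norm_num : (0:ℝ) ≤ 3.333)])
    (by
      unfold Ee
      linarith [mul_le_mul_of_nonneg_left lu0_387 (by norm_num : (0:ℝ) ≤ 0.387), mul_le_mul_of_nonneg_left lu3_383 (by norm_num : (0:ℝ) ≤ 3.383),
        mul_le_mul_of_nonneg_left ll1_3 (by norm_num : (0:ℝ) ≤ 0.387 + 3.383), mul_le_mul_of_nonneg_left ll0_5966 (by norm_num : (0:ℝ) ≤ 0.387),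
        mul_le_mul_of_nonneg_left ll0_939 (by norm_num : (0:ℝ) ≤ 3.383)])
    (by norm_num) (by norm_num) exP5 (by norm_num)

/-- **right part**: `Ft β r t ≠ 0` for `5.2 - 2κ ≤ t ≤ 3π/2`, `0.6 ≤ κ ≤ 1.3`, `r ≥ 10` -/
theorem Ft_ne_zero_right {β r t : ℝ} (hr : 10 ≤ r) (hβ : 0 < β) (hκ1 : 0.6 ≤ β * r) (hκ : β * r ≤ 1.3)
    (ht1 : 5.2 - 2 * (β * r) ≤ t) (ht2 : t ≤ 3 * Real.pi / 2) : Ft β r t ≠ 0 := by
  have hpi := Real.pi_gt_d4
  have hpi' := Real.pi_lt_d4
  obtain ⟨σ, hσ⟩ : ∃ σ : ℝ, σ = 3 * Real.pi / 2 - t := ⟨_, rfl⟩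
  have ht : t = 3 * Real.pi / 2 - σ := by rw [hσ]; ring
  have hσ0 : 0 ≤ σ := by linarith
  have hσ1 : σ ≤ 2 * (β * r) - 0.487 := by linarith
  rw [ht]
  rcases le_or_gt σ 0.713 with h | h
  · exact pieceP1 hr hβ hκ (by linarith) h (by norm_num; linarith)
  rcases le_or_gt σ 0.8 with h' | h'
  · exact pieceP2 hr hβ hκ h.le h' (by norm_num; linarith)
  rcases le_or_gt σ 1.2 with h'' | h''
  · exact pieceP3 hr hβ hκ h'.le h'' (by norm_num; linarith)
  rcases le_or_gt σ 1.65 with h3 | h3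
  · exact pieceP4 hr hβ hκ h''.le h3 (by norm_num; linarith)
  · exact pieceP5 hr hβ hκ h3.le (by linarith) (by norm_num; linarith)

end Sok.Mid
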