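import Mathlib
import Pool.Agent.Lib.MP_816dec_an.MRight
import Pool.Agent.Lib.MP_816dec_an.Corner

/-!
MP_816dec_an, `b = 1`, `κ ≤ 1.3`: from the window `[-β/2, t₁]` to the circle.
-/

set_option autoImplicit false

open Complex Set Filter Topology

namespace Sok

/-- every zero on the circle has an angle `t ∈ [-β/2, t₁]` -/
theorem circ_of_window {β r t₁ : ℝ} (hr : 10 ≤ r) (hβ : 0 < β) (hκ : β * r ≤ 1.3)
    (hR : ∀ t ∈ Icc t₁ (3 * Real.pi / 2), Ft β r t ≠ 0)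
    (h1 : ∀ s ∈ Icc (-(β / 2)) t₁, ∀ t ∈ Icc (-(β / 2)) t₁, Ft β r s = 0 → Ft β r t = 0 → s = t)
    (h2 : ∀ t ∈ Icc (-(β / 2)) t₁, Ft β r t = 0 → deriv (Fa β) (r * cexp (I * (t + β / 2))) ≠ 0) :
    Circ β r := by
  have hpi := Real.pi_pos
  have hr0 : 0 < r := by linarith
  have key : ∀ z : ℂ, Fa β z = 0 → ‖z‖ = r →
      ∃ t ∈ Icc (-(β / 2)) t₁, Ft β r t = 0 ∧ z = r * cexp (I * (t + β / 2)) := by
    intro z hz hzr
    -- representative `t ∈ [-π/2 - β/2, 3π/2 - β/2)`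
    obtain ⟨t, ht, hzt⟩ : ∃ t : ℝ, t ∈ Ico (-(Real.pi / 2) - β / 2) (3 * Real.pi / 2 - β / 2) ∧
        z = r * cexp (I * (t + β / 2)) := by
      obtain ⟨φ, hφ⟩ : ∃ φ : ℝ, φ = Complex.arg z := ⟨_, rfl⟩
      have h3 : z = r * cexp (φ * I) := by
        rw [← hzr, hφ]
        exact (Complex.norm_mul_exp_arg_mul_I z).symm
      have h4 := Complex.neg_pi_lt_arg z
      have h5 := Complex.arg_le_pi z
      rw [← hφ] at h4 h5
      rcases lt_or_ge φ (-(Real.pi / 2)) with h | h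
      · refine ⟨φ - β / 2 + 2 * Real.pi, ⟨by linarith, by linarith⟩, ?_⟩
        rw [h3]
        congr 1
        have e1 : I * (((φ - β / 2 + 2 * Real.pi : ℝ) : ℂ) + β / 2) = φ * I + 2 * Real.pi * I := by
          push_cast; ring
        rw [e1, Complex.exp_add, Complex.exp_two_pi_mul_I, mul_one]
      · refine ⟨φ - β / 2, ⟨by linarith, by linarith⟩, ?_⟩
        rw [h3]
        congr 2
        push_cast
        ring
    have hF : Ft β r t = 0 := by rw [Ft_eq_Fa, ← hzt]; exact hz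
    rcases lt_or_ge t (-(β / 2)) with h | h
    · exfalso
      refine F_sector_ne_zero (θ := t + β / 2) hr hβ hκ (by linarith [ht.1]) (by linarith) ?_
      unfold Fa at hz
      rw [hzt] at hz
      rw [← hz]
      congr 3
      push_cast
      ring
    · rcases le_or_gt t t₁ with h' | h'
      · exact ⟨t, ⟨h, h'⟩, hF, hzt⟩
      · exact absurd hF (hR t ⟨h'.le, by linarith [ht.2]⟩)
  refine ⟨fun z hz hzr => ?_, fun z w hz hw hzr hwr => ?_⟩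
  · obtain ⟨t, ht, hF, hzt⟩ := key z hz hzr
    rw [hzt]
    exact h2 t ht hF
  · obtain ⟨t, ht, hF, hzt⟩ := key z hz hzr
    obtain ⟨t', ht', hF', hwt⟩ := key w hw hwr
    rw [hzt, hwt, h1 t ht t' ht' hF hF']

/-- middle range: it remains to treat the window `[-β/2, 5.2 - 2κ]` -/
theorem circ_mid_of {β r : ℝ} (hr : 10 ≤ r) (hβ : 0 < β) (hκ1 : 0.6 ≤ β * r) (hκ : β * r ≤ 1.3)
    (h1 : ∀ s ∈ Icc (-(β / 2)) (5.2 - 2 * (β * r)), ∀ t ∈ Icc (-(β / 2)) (5.2 - 2 * (β * r)),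
      Ft β r s = 0 → Ft β r t = 0 → s = t)
    (h2 : ∀ t ∈ Icc (-(β / 2)) (5.2 - 2 * (β * r)), Ft β r t = 0 →
      deriv (Fa β) (r * cexp (I * (t + β / 2))) ≠ 0) : Circ β r :=
  circ_of_window hr hβ hκ (fun _ ht => Mid.Ft_ne_zero_right hr hβ hκ1 hκ ht.1 ht.2) h1 h2

/-- the same from `F = X + Y` with the slope of `log |Y / X|` -/
theorem circ_mid_of_slope {β r : ℝ} {X Y X' Y' : ℝ → ℂ} (hr : 10 ≤ r) (hβ : 0 < β) (hκ1 : 0.6 ≤ β * r)
    (hκ : β * r ≤ 1.3) (hF : ∀ t ∈ Icc (-(β / 2)) (5.2 - 2 * (β * r)), Ft β r t = Y t + X t)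
    (hF' : ∀ t ∈ Icc (-(β / 2)) (5.2 - 2 * (β * r)), dF β r t * Ft β r (t + β) = Y' t + X' t)
    (hX : ∀ t ∈ Icc (-(β / 2)) (5.2 - 2 * (β * r)), HasDerivAt X (X' t) t)
    (hY : ∀ t ∈ Icc (-(β / 2)) (5.2 - 2 * (β * r)), HasDerivAt Y (Y' t) t)
    (hX0 : ∀ t ∈ Icc (-(β / 2)) (5.2 - 2 * (β * r)), X t ≠ 0)
    (hY0 : ∀ t ∈ Icc (-(β / 2)) (5.2 - 2 * (β * r)), Y t ≠ 0)
    (hs : ∀ t ∈ Icc (-(β / 2)) (5.2 - 2 * (β * r)), ‖Y t‖ = ‖X t‖ → (X' t / X t).re < (Y' t / Y t).re) :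
    Circ β r := by
  have h := crossing hY hX hY0 hX0 hs
  refine circ_mid_of hr hβ hκ1 hκ (fun s hs' t ht h0s h0t => h.1 s hs' t ht ?_ ?_) fun t ht h0 hd => h.2 t ht ?_ ?_
  · rw [← hF s hs', h0s]
  · rw [← hF t ht, h0t]
  · rw [← hF t ht, h0]
  · rw [← hF' t ht, ← deriv_eq_Ft, hd, mul_zero]

end Sok
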