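import Mathlib

/-!
MP_816dec_an, `b = 1`, middle range: existence of the saddles (intermediate value theorem in the height).
-/

set_option autoImplicit false

open Set Filter Topology

namespace Sok.Mid

private theorem sqrt_cos {κ E x y : ℝ} (hκ : 0 < κ) (hE : 0 < E) (hx : x = y / (κ * E)) :
    κ * E * Real.sqrt (1 - x ^ 2) = Real.sqrt ((κ * E) ^ 2 - y ^ 2) := by
  have hp : 0 < κ * E := mul_pos hκ hE
  have e1 : (κ * E) ^ 2 - y ^ 2 = (κ * E) ^ 2 * (1 - x ^ 2) := by
    rw [hx]; field_simp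
  rw [e1, Real.sqrt_mul (sq_nonneg _), Real.sqrt_sq hp.le]

private theorem mul_exp_mono {x y : ℝ} (hx : -1 ≤ x) (hxy : x ≤ y) : x * Real.exp x ≤ y * Real.exp y := by
  rcases hxy.eq_or_lt with h | h
  · rw [h]
  have h1 : Real.exp y = Real.exp x * Real.exp (y - x) := by rw [← Real.exp_add]; congr 1; ring
  have h2 := Real.add_one_le_exp (y - x)
  have h3 := Real.exp_pos x
  rcases le_or_gt 0 y with hy | hy
  · have h4 : x ≤ y * Real.exp (y - x) := by nlinarith
    rw [h1]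
    nlinarith
  · -- `-1 ≤ x < y < 0`
    have h5 : Real.exp x = Real.exp y * Real.exp (-(y - x)) := by rw [← Real.exp_add]; congr 1; ring
    have h6 : 1 - (y - x) ≤ Real.exp (-(y - x)) := by
      have := Real.add_one_le_exp (-(y - x)); linarith
    have h7 := Real.exp_pos y
    have h8 : x * Real.exp (-(y - x)) ≤ y := by nlinarith
    rw [h5]
    nlinarith

/-- left saddle. Branch 1: `α = arcsin (h e^h / κ)`, `t = α - √(κ² e^{-2h} - h²)`, `h ∈ [hb, ω]`, `ω e^ω = κ`
(there `t = π/2`); branch 2: `α = π - arcsin (h e^h / κ)`, `t = α + √(κ² e^{-2h} - h²)`, `h ∈ [hs, ω]`.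
Both expressions are continuous in `h`. -/
theorem exists_sad_X {κ t hs hb : ℝ} (hκ : 0 < κ) (h1 : -1 < hs) (h2 : hs ≤ hb) (h3 : 0 < hb)
    (h4 : hb * Real.exp hb ≤ κ) (h5 : -hs * Real.exp hs ≤ κ)
    (hl : Real.arcsin (hb * Real.exp hb / κ) - Real.sqrt (κ ^ 2 * Real.exp (-2 * hb) - hb ^ 2) ≤ t)
    (hr : t ≤ Real.pi - Real.arcsin (hs * Real.exp hs / κ) + Real.sqrt (κ ^ 2 * Real.exp (-2 * hs) - hs ^ 2)) :
    ∃ α h : ℝ, hs ≤ h ∧ h * Real.exp h ≤ κ ∧ κ * Real.exp (-h) * Real.cos α = α - t ∧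
      κ * Real.exp (-h) * Real.sin α = h ∧
      ((0 ≤ α ∧ α ≤ Real.pi / 2 ∧ hb ≤ h) ∨ (Real.pi / 2 ≤ α ∧ α ≤ 3 * Real.pi / 2)) := by
  have hpi := Real.pi_pos
  -- the point `ω`
  obtain ⟨ω, ⟨hω1, hω2⟩, hω⟩ : ∃ ω ∈ Icc hb (hb + κ), ω * Real.exp ω = κ := by
    have hc : ContinuousOn (fun x : ℝ => x * Real.exp x) (Icc hb (hb + κ)) := by fun_prop
    have h6 := intermediate_value_Icc (by linarith : hb ≤ hb + κ) hc
    have h7 : κ ≤ (hb + κ) * Real.exp (hb + κ) := by
      have := Real.add_one_le_exp (hb + κ)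
      nlinarith
    obtain ⟨ω, h8, h9⟩ := h6 ⟨h4, h7⟩
    exact ⟨ω, h8, h9⟩
  -- the key computation
  have key : ∀ h x : ℝ, x = h * Real.exp h / κ → κ * Real.exp (-h) * x = h := by
    intro h x hx
    have h6 : Real.exp (-h) * Real.exp h = 1 := by rw [← Real.exp_add]; simp
    rw [hx]
    field_simp
    linear_combination h * h6
  have key2 : ∀ h x : ℝ, x = h * Real.exp h / κ →
      κ * Real.exp (-h) * Real.sqrt (1 - x ^ 2) = Real.sqrt (κ ^ 2 * Real.exp (-2 * h) - h ^ 2) := by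
    intro h x hx
    have h6 : Real.exp (-h) * Real.exp h = 1 := by rw [← Real.exp_add]; simp
    have h7 : Real.exp (-2 * h) = Real.exp (-h) ^ 2 := by
      rw [← Real.exp_nat_mul]; congr 1; push_cast; ring
    rw [h7, ← mul_pow]
    refine sqrt_cos hκ (Real.exp_pos _) ?_
    rw [hx, div_eq_div_iff hκ.ne' (by positivity)]
    linear_combination h * κ * h6
  have hω0 : 0 < ω := by linarith
  have hωx : ω * Real.exp ω / κ = 1 := by rw [hω]; exact div_self hκ.ne'
  have hωs : Real.sqrt (κ ^ 2 * Real.exp (-2 * ω) - ω ^ 2) = 0 := by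
    rw [← key2 ω 1 hωx.symm]; simp
  have hup : ∀ h, -1 ≤ h → h ≤ ω → h * Real.exp h ≤ κ := by
    intro h h6 h7
    rw [← hω]; exact mul_exp_mono h6 h7
  rcases le_total t (Real.pi / 2) with ht | ht
  · -- branch 1
    have hc : ContinuousOn (fun x : ℝ => Real.arcsin (x * Real.exp x / κ) -
        Real.sqrt (κ ^ 2 * Real.exp (-2 * x) - x ^ 2)) (Icc hb ω) := by
      have h0 : κ ≠ 0 := hκ.ne'
      refine ContinuousOn.sub ?_ ?_
      · exact (Real.continuous_arcsin.comp (by fun_prop)).continuousOn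
      · exact (Real.continuous_sqrt.comp (by fun_prop)).continuousOn
    have h6 := intermediate_value_Icc hω1 hc
    obtain ⟨h, ⟨h7, h8⟩, h9⟩ := h6 (show t ∈ _ from ⟨hl, by
      simp only [hωx, hωs, Real.arcsin_one]; linarith⟩)
    simp only at h9
    have hh0 : 0 < h := by linarith
    have hx1 : h * Real.exp h / κ ≤ 1 := by
      rw [div_le_one hκ]; exact hup h (by linarith) h8
    have hx0 : 0 ≤ h * Real.exp h / κ := by positivity
    refine ⟨Real.arcsin (h * Real.exp h / κ), h, by linarith, hup h (by linarith) h8, ?_, ?_, Or.inl ⟨?_, ?_, h7⟩⟩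
    · rw [Real.cos_arcsin, key2 h _ rfl]; linarith
    · rw [Real.sin_arcsin (by linarith) hx1]; exact key h _ rfl
    · exact Real.arcsin_nonneg.2 hx0
    · exact Real.arcsin_le_pi_div_two _
  · -- branch 2
    have hc : ContinuousOn (fun x : ℝ => Real.pi - Real.arcsin (x * Real.exp x / κ) +
        Real.sqrt (κ ^ 2 * Real.exp (-2 * x) - x ^ 2)) (Icc hs ω) := by
      have h0 : κ ≠ 0 := hκ.ne'
      refine ContinuousOn.add (ContinuousOn.sub continuousOn_const ?_) ?_
      · exact (Real.continuous_arcsin.comp (by fun_prop)).continuousOn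
      · exact (Real.continuous_sqrt.comp (by fun_prop)).continuousOn
    have h6 := intermediate_value_Icc' (by linarith : hs ≤ ω) hc
    obtain ⟨h, ⟨h7, h8⟩, h9⟩ := h6 (show t ∈ _ from ⟨by
      simp only [hωx, hωs, Real.arcsin_one]; linarith, hr⟩)
    simp only at h9
    have hx1 : h * Real.exp h / κ ≤ 1 := by
      rw [div_le_one hκ]; exact hup h (by linarith) h8
    have hx0 : -1 ≤ h * Real.exp h / κ := by
      rw [le_div_iff₀ hκ]
      have := mul_exp_mono h1.le h7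
      linarith
    refine ⟨Real.pi - Real.arcsin (h * Real.exp h / κ), h, h7, hup h (by linarith) h8, ?_, ?_, Or.inr ⟨?_, ?_⟩⟩
    · rw [Real.cos_pi_sub, Real.cos_arcsin, mul_neg, key2 h _ rfl]; linarith
    · rw [Real.sin_pi_sub, Real.sin_arcsin hx0 hx1]; exact key h _ rfl
    · have := Real.arcsin_le_pi_div_two (h * Real.exp h / κ); linarith
    · have := Real.neg_pi_div_two_le_arcsin (h * Real.exp h / κ); linarith

/-- right saddle: `a = arcsin (g e^{-g} / κ)`, `ψ(g) = a + √(κ² e^{2g} - g²)` is continuous in `g`, and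
`g e^{-g} ≤ 1/e ≤ κ sin A` -/
theorem exists_sad_Y {κ p g1 g2 A : ℝ} (hκ : 0 < κ) (h0 : 0 ≤ g1) (h12 : g1 ≤ g2) (hA : 0 ≤ A)
    (hA2 : A ≤ Real.pi / 2) (hAκ : Real.exp (-1) ≤ κ * Real.sin A)
    (hl : Real.arcsin (g1 * Real.exp (-g1) / κ) + Real.sqrt (κ ^ 2 * Real.exp (2 * g1) - g1 ^ 2) ≤ p)
    (hr : p ≤ Real.arcsin (g2 * Real.exp (-g2) / κ) + Real.sqrt (κ ^ 2 * Real.exp (2 * g2) - g2 ^ 2)) :
    ∃ a g : ℝ, g1 ≤ g ∧ g ≤ g2 ∧ 0 ≤ a ∧ a ≤ A ∧ κ * Real.exp g * Real.cos a = p - a ∧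
      κ * Real.exp g * Real.sin a = g := by
  have hpi := Real.pi_pos
  have hc : ContinuousOn (fun x : ℝ => Real.arcsin (x * Real.exp (-x) / κ) +
      Real.sqrt (κ ^ 2 * Real.exp (2 * x) - x ^ 2)) (Icc g1 g2) := by
    have h0 : κ ≠ 0 := hκ.ne'
    refine ContinuousOn.add ?_ ?_
    · exact (Real.continuous_arcsin.comp (by fun_prop)).continuousOn
    · exact (Real.continuous_sqrt.comp (by fun_prop)).continuousOn
  have h6 := intermediate_value_Icc h12 hc
  obtain ⟨g, ⟨h7, h8⟩, h9⟩ := h6 (show p ∈ _ from ⟨hl, hr⟩)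
  simp only at h9
  have hg0 : 0 ≤ g := h0.trans h7
  have hge : g * Real.exp (-g) ≤ Real.exp (-1) := by
    have e1 : Real.exp (-1) = Real.exp (-g) * Real.exp (g - 1) := by rw [← Real.exp_add]; congr 1; ring
    rw [e1]
    have h10 := Real.add_one_le_exp (g - 1)
    have h11 := Real.exp_pos (-g)
    nlinarith
  have hsin1 : Real.sin A ≤ 1 := Real.sin_le_one A
  have hxA : g * Real.exp (-g) / κ ≤ Real.sin A := by
    rw [div_le_iff₀ hκ]; linarith
  have hx0 : 0 ≤ g * Real.exp (-g) / κ := by positivity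
  have hee : Real.exp (-g) * Real.exp g = 1 := by rw [← Real.exp_add]; simp
  refine ⟨Real.arcsin (g * Real.exp (-g) / κ), g, h7, h8, Real.arcsin_nonneg.2 hx0, ?_, ?_, ?_⟩
  · rw [← Real.arcsin_sin (by linarith) hA2]
    exact Real.monotone_arcsin hxA
  · rw [Real.cos_arcsin]
    have h7' : Real.exp (2 * g) = Real.exp g ^ 2 := by
      rw [← Real.exp_nat_mul]; congr 1
    have h8' := sqrt_cos (κ := κ) (E := Real.exp g) (x := g * Real.exp (-g) / κ) (y := g) hκ (Real.exp_pos _) (by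
      rw [div_eq_div_iff hκ.ne' (by positivity)]
      linear_combination g * κ * hee)
    rw [h8', mul_pow, ← h7']
    linarith
  · rw [Real.sin_arcsin (by linarith) (by linarith)]
    field_simp
    linear_combination g * hee

end Sok.Mid
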