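import Pool.Agent.Lib.MP_816dec_an.MDefs

/-!
MP_816dec_an, `b = 1`, middle range: the relative exponent `NN R h p q` (`p + q i` measured from the saddle,
`R = ρ cos α`, `h = ρ sin α`) on the contour of the left function.
-/

set_option autoImplicit false

open Complex Set Filter Topology MeasureTheory

namespace Sok.Mid

private theorem nx_norm {x : ℝ} (hx : 0 ≤ x) (σ : ℝ) (hσ : |σ| = 1) : ‖((σ * x : ℝ) : ℂ) * (1 + I)‖ = Real.sqrt 2 * x := by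
  rw [norm_mul, Complex.norm_real, Real.norm_eq_abs, abs_mul, hσ, one_mul, abs_of_nonneg hx]
  have : ‖(1 : ℂ) + I‖ = Real.sqrt 2 := by
    rw [Complex.norm_def, Complex.normSq_apply]
    congr 1
    simp
    norm_num
  rw [this]
  ring

private theorem nx_cube {x : ℝ} : (Real.sqrt 2 * x) ^ 3 = 2 * Real.sqrt 2 * x ^ 3 := by
  have h : Real.sqrt 2 ^ 2 = 2 := Real.sq_sqrt (by norm_num)
  have e : (Real.sqrt 2 * x) ^ 3 = Real.sqrt 2 ^ 2 * Real.sqrt 2 * x ^ 3 := by ring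
  rw [e, h]

private theorem nx_L {R h ρ : ℝ} (hρ : R ^ 2 + h ^ 2 ≤ ρ ^ 2) (hρ0 : 0 ≤ ρ) : ‖Lx 0 R h‖ ≤ ρ := by
  rw [Complex.norm_def, Complex.normSq_apply, Lx_re, Lx_im]
  rw [show ρ = Real.sqrt (ρ ^ 2) from (Real.sqrt_sq hρ0).symm]
  apply Real.sqrt_le_sqrt
  rw [sub_zero]
  linarith

/-- the exponent along the diagonal, `σ = ±1` -/
private theorem nx_main {R h ρ x B : ℝ} (hρ : R ^ 2 + h ^ 2 ≤ ρ ^ 2) (hρ0 : 0 ≤ ρ) (σ : ℝ) (hσ : σ ^ 2 = 1)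
    (hB : ‖cexp (((σ * x : ℝ) : ℂ) * (1 + I)) - 1 - ((σ * x : ℝ) : ℂ) * (1 + I) -
      (((σ * x : ℝ) : ℂ) * (1 + I)) ^ 2 / 2‖ ≤ B) :
    NN R h (σ * x) (-(σ * x)) ≤ -((1 + h) * x ^ 2) + ρ * B := by
  obtain ⟨ζ, hζ⟩ : ∃ ζ : ℂ, ζ = ((σ * x : ℝ) : ℂ) * (1 + I) := ⟨_, rfl⟩
  rw [← hζ] at hB
  have h1 := psi_re 0 R h (σ * x) (-(σ * x))
  rw [sub_zero] at h1
  rw [← h1]
  have e1 : I * (((σ * x : ℝ) : ℂ) + ((-(σ * x) : ℝ) : ℂ) * I) = ζ := by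
    rw [hζ]
    push_cast
    linear_combination (-(σ : ℂ) * x) * Complex.I_sq
  have hσc : (σ : ℂ) ^ 2 = 1 := by exact_mod_cast hσ
  have e2 : ζ ^ 2 = 2 * I * ((x ^ 2 : ℝ) : ℂ) := by
    rw [hζ]
    push_cast
    linear_combination (2 * I * (x : ℂ) ^ 2) * hσc + ((σ : ℂ) ^ 2 * x ^ 2) * Complex.I_sq
  have e3 : (((σ * x : ℝ) : ℂ) + ((-(σ * x) : ℝ) : ℂ) * I) ^ 2 = -(ζ ^ 2) := by
    rw [← e1]
    linear_combination ((((σ * x : ℝ) : ℂ) + ((-(σ * x) : ℝ) : ℂ) * I) ^ 2) * Complex.I_sq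
  have e4 : Sok.W.Psi (Lx 0 R h) (((σ * x : ℝ) : ℂ) + ((-(σ * x) : ℝ) : ℂ) * I) =
      ((-(x ^ 2) : ℝ) : ℂ) + Lx 0 R h * (I * ((x ^ 2 : ℝ) : ℂ)) + Lx 0 R h * (cexp ζ - 1 - ζ - ζ ^ 2 / 2) := by
    unfold Sok.W.Psi
    rw [e1, e3, e2]
    push_cast
    linear_combination ((x : ℂ) ^ 2) * Complex.I_sq
  rw [e4, Complex.add_re, Complex.add_re, Complex.ofReal_re]
  have e5 : (Lx 0 R h * (I * ((x ^ 2 : ℝ) : ℂ))).re = -(h * x ^ 2) := by
    rw [Complex.mul_re, Lx_re, Lx_im]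
    have a1 : (I * ((x ^ 2 : ℝ) : ℂ)).re = 0 := by simp [← Complex.ofReal_pow]
    have a2 : (I * ((x ^ 2 : ℝ) : ℂ)).im = x ^ 2 := by rw [Complex.I_mul_im, Complex.ofReal_re]
    rw [a1, a2]
    ring
  rw [e5]
  have h2 : (Lx 0 R h * (cexp ζ - 1 - ζ - ζ ^ 2 / 2)).re ≤ ρ * B := by
    refine (Complex.re_le_norm _).trans ?_
    rw [norm_mul]
    exact mul_le_mul (nx_L hρ hρ0) hB (norm_nonneg _) hρ0
  linarith

/-- recipe: `psi_re` with `L = R + h i` (take `t = 0`, `a = R`), `u = -x + x i`, `I u = -x (1 + i) =: ζ`;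
`Psi = -x^2 + L (e^ζ - 1 - ζ)`, `Re (L ζ^2 / 2) = -h x^2`, remainder by `norm_exp_sub_three_le` with `M = 1`,
`|ζ| = √2 x` -/
theorem NN_line_left {R h ρ x : ℝ} (hρ : R ^ 2 + h ^ 2 ≤ ρ ^ 2) (hρ0 : 0 ≤ ρ) (hx : 0 ≤ x) :
    NN R h (-x) x ≤ -((1 + h) * x ^ 2) + Real.sqrt 2 / 3 * ρ * x ^ 3 := by
  have h1 := norm_exp_sub_three_le (((-1 * x : ℝ) : ℂ) * (1 + I)) (le_refl (1 : ℝ)) (by
    rw [Complex.re_ofReal_mul]
    apply Real.exp_le_one_iff.2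
    simp
    linarith)
  rw [nx_norm hx (-1) (by norm_num), nx_cube] at h1
  have h2 := nx_main hρ hρ0 (-1) (by norm_num) h1
  have e1 : -1 * x = -x := by ring
  rw [e1, neg_neg] at h2
  refine h2.trans (le_of_eq ?_)
  ring

/-- the same with `ζ = x (1 + i)`, `Re ζ = x ≤ X`, remainder by `norm_exp_sub_sum_mul_le` (`n = 3`, `s = 1`) -/
theorem NN_line_right {R h ρ x X p3 : ℝ} (hρ : R ^ 2 + h ^ 2 ≤ ρ ^ 2) (hρ0 : 0 ≤ ρ) (hx : 0 ≤ x) (hX : 0 < X)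
    (hxX : x ≤ X) (hp3 : Real.exp X - 1 - X - X ^ 2 / 2 ≤ p3 * X ^ 3) :
    NN R h x (-x) ≤ -((1 + h) * x ^ 2) + 2 * Real.sqrt 2 * p3 * ρ * x ^ 3 := by
  have h1 := norm_exp_sub_sum_mul_le (((1 * x : ℝ) : ℂ) * (1 + I)) 3 hX.le (by
    rw [Complex.re_ofReal_mul]
    simp
    linarith) 1 (right_mem_Icc.2 zero_le_one)
  rw [nx_norm hx 1 (by norm_num), nx_cube] at h1
  simp only [Complex.ofReal_one, one_mul, Finset.sum_range_succ, Finset.sum_range_zero, Nat.factorial, pow_zero,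
    pow_one, zero_add, Nat.cast_one, div_one, mul_one, Nat.succ_eq_add_one] at h1
  have h3 : ‖cexp ((x : ℂ) * (1 + I)) - 1 - (x : ℂ) * (1 + I) - ((x : ℂ) * (1 + I)) ^ 2 / 2‖ ≤
      2 * Real.sqrt 2 * p3 * x ^ 3 := by
    have e1 : cexp ((x : ℂ) * (1 + I)) - 1 - (x : ℂ) * (1 + I) - ((x : ℂ) * (1 + I)) ^ 2 / 2 =
        cexp ((x : ℂ) * (1 + I)) - (1 + (x : ℂ) * (1 + I) + ((x : ℂ) * (1 + I)) ^ 2 / ((1 + 1 : ℕ) : ℂ)) := by
      push_cast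
      ring
    rw [e1]
    have hX3 : 0 < X ^ 3 := by positivity
    have h4 : X ^ 3 * ‖cexp ((x : ℂ) * (1 + I)) - (1 + (x : ℂ) * (1 + I) + ((x : ℂ) * (1 + I)) ^ 2 / ((1 + 1 : ℕ) : ℂ))‖ ≤
        X ^ 3 * (2 * Real.sqrt 2 * p3 * x ^ 3) := by
      refine h1.trans ?_
      have h5 : Real.exp X - (1 + X + X ^ 2 / ((1 + 1 : ℕ) : ℝ)) ≤ p3 * X ^ 3 := by
        push_cast
        linarith
      have h6 : 0 ≤ 2 * Real.sqrt 2 * x ^ 3 := by positivity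
      refine (mul_le_mul_of_nonneg_left h5 h6).trans (le_of_eq ?_)
      ring
    exact le_of_mul_le_mul_left h4 hX3
  have h2 := nx_main hρ hρ0 1 (by norm_num) (x := x) (B := 2 * Real.sqrt 2 * p3 * x ^ 3) (by rw [one_mul]; exact h3)
  rw [one_mul] at h2
  refine h2.trans (le_of_eq ?_)
  ring

/-- left ray: `|R (cos a - cos b) - h (sin a - sin b)| ≤ ρ |a - b|` -/
theorem NN_left_ray {R h ρ X x : ℝ} (hρ : R ^ 2 + h ^ 2 ≤ ρ ^ 2) (hρ0 : 0 ≤ ρ) (hx : 0 ≤ x) :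
    NN R h (-X - x) X ≤ NN R h (-X) X - (h + X - Real.exp (-X) * ρ) * x := by
  have e1 : -X - x = -(X + x) := by ring
  unfold NN
  rw [e1, Real.cos_neg, Real.cos_neg, Real.sin_neg, Real.sin_neg]
  obtain ⟨p, hp⟩ : ∃ p : ℝ, p = Real.cos (X + x) - Real.cos X := ⟨_, rfl⟩
  obtain ⟨q, hq⟩ : ∃ q : ℝ, q = Real.sin (X + x) - Real.sin X := ⟨_, rfl⟩
  have h1 : p ^ 2 + q ^ 2 ≤ x ^ 2 := by
    have h2 := Real.sin_sq_add_cos_sq (X + x)
    have h3 := Real.sin_sq_add_cos_sq X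
    have h4 := Real.cos_sub (X + x) X
    have h5 := Real.one_sub_sq_div_two_le_cos (x := x)
    have e2 : X + x - X = x := by ring
    rw [e2] at h4
    have h6 : p ^ 2 + q ^ 2 = 2 - 2 * Real.cos x := by
      rw [hp, hq, h4]
      linear_combination h2 + h3
    rw [h6]
    linarith
  have h2 : R * p + h * q ≤ ρ * x := by
    have h3 : (R * p + h * q) ^ 2 ≤ (ρ * x) ^ 2 := by
      have h4 : (R * p + h * q) ^ 2 ≤ (R ^ 2 + h ^ 2) * (p ^ 2 + q ^ 2) := by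
        nlinarith [sq_nonneg (R * q - h * p)]
      refine h4.trans ?_
      rw [mul_pow]
      exact mul_le_mul hρ h1 (by positivity) (by positivity)
    exact (abs_le_of_sq_le_sq' h3 (by positivity)).2
  have h3 : Real.exp (-X) * (R * p + h * q) ≤ Real.exp (-X) * (ρ * x) :=
    mul_le_mul_of_nonneg_left h2 (Real.exp_pos _).le
  rw [hp, hq] at h3
  nlinarith

private theorem nx_sin {s : ℝ} (h1 : 0.94 ≤ s) (h2 : s ≤ 2) : 0.8 ≤ Real.sin s := by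
  have hpi := Real.pi_gt_d4
  have hpi2 := Real.pi_lt_d4
  norm_num at hpi hpi2 h1
  have key : ∀ v : ℝ, 47 / 50 ≤ v → v ≤ Real.pi / 2 → 0.8 ≤ Real.sin v := by
    intro v hv1 hv2
    have h3 : Real.sin (47 / 50) ≤ Real.sin v := Real.sin_le_sin_of_le_of_le_pi_div_two (by linarith) hv2 hv1
    have h4 := (Real.sin_gt_sub_cube (x := 47 / 50) (by norm_num)).le
    norm_num at h4 ⊢
    linarith
  rcases le_total s (Real.pi / 2) with h | h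
  · exact key s h1 h
  · rw [← Real.sin_pi_sub]
    exact key _ (by linarith) (by linarith)

private theorem nx_trig (ρ α p : ℝ) : ρ * Real.cos α * Real.cos p - ρ * Real.sin α * Real.sin p = ρ * Real.cos (α + p) := by
  rw [Real.cos_add]; ring

/-- horizontal piece to the right: `cos (u + x) - cos u ≤ -0.8 x` for `0.94 ≤ u`, `u + x ≤ 2` -/
theorem NN_right_hor {ρ α X x : ℝ} (hρ : 0 ≤ ρ) (hx : 0 ≤ x) (h1 : 0.94 ≤ α + X) (h2 : α + X + x ≤ 2) :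
    NN (ρ * Real.cos α) (ρ * Real.sin α) (X + x) (-X) ≤
      NN (ρ * Real.cos α) (ρ * Real.sin α) X (-X) - (X - ρ * Real.sin α + 0.8 * (Real.exp X * ρ)) * x := by
  unfold NN
  rw [nx_trig, nx_trig, neg_neg]
  have e1 : α + (X + x) = α + X + x := by ring
  rw [e1]
  have h3 : Real.cos (α + X + x) + 0.8 * (α + X + x) ≤ Real.cos (α + X) + 0.8 * (α + X) := by
    have hm : AntitoneOn (fun s : ℝ => Real.cos s + 0.8 * s) (Icc 0.94 2) := by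
      refine antitoneOn_of_deriv_nonpos (convex_Icc _ _) (by fun_prop) (by fun_prop) ?_
      intro s hs
      rw [interior_Icc] at hs
      have hd : HasDerivAt (fun s : ℝ => Real.cos s + 0.8 * s) (-Real.sin s + 0.8 * 1) s :=
        (Real.hasDerivAt_cos s).add ((hasDerivAt_id s).const_mul 0.8)
      rw [hd.deriv]
      have := nx_sin hs.1.le hs.2.le
      linarith
    exact hm ⟨h1, by linarith⟩ ⟨by linarith, h2⟩ (by linarith)
  have h4 : 0 ≤ Real.exp X * ρ := mul_nonneg (Real.exp_pos _).le hρ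
  have h5 : Real.exp X * ρ * (Real.cos (α + X + x) + 0.8 * x) ≤ Real.exp X * ρ * Real.cos (α + X) := by
    apply mul_le_mul_of_nonneg_left _ h4
    linarith
  nlinarith

/-- vertical piece downwards: `e^v - 1 ≥ v` -/
theorem NN_down {ρ α X p v : ℝ} (hρ : 0 ≤ ρ) (hv : 0 ≤ v) (hc : Real.cos (α + p) ≤ 0) :
    NN (ρ * Real.cos α) (ρ * Real.sin α) p (-X - v) ≤
      NN (ρ * Real.cos α) (ρ * Real.sin α) p (-X) -
        (ρ * Real.cos α + p + Real.exp X * ρ * (-Real.cos (α + p))) * v := by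
  have _ := hv
  unfold NN
  rw [nx_trig, neg_neg]
  have e1 : -(-X - v) = X + v := by ring
  rw [e1, Real.exp_add]
  have h1 := Real.add_one_le_exp v
  have h2 : 0 ≤ Real.exp X * ρ * (-Real.cos (α + p)) :=
    mul_nonneg (mul_nonneg (Real.exp_pos _).le hρ) (by linarith)
  have h3 : Real.exp X * ρ * (-Real.cos (α + p)) * (v + 1) ≤ Real.exp X * ρ * (-Real.cos (α + p)) * Real.exp v :=
    mul_le_mul_of_nonneg_left h1 h2
  nlinarith

end Sok.Mid
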