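import Pool.Agent.Lib.MP_816dec_an.MX
import Pool.Agent.Lib.MP_816dec_an.MNNX
import Pool.Agent.Lib.MP_816dec_an.MIVT

/-!
MP_816dec_an, `b = 1`, middle range: the left saddle and its contour exist for all `t` of the window.
-/

set_option autoImplicit false

open Complex Set Filter Topology MeasureTheory Sok.W

namespace Sok.Mid

private theorem exp64_up : Real.exp (16 / 25) ≤ 1.8964942 := by
  have h := Real.exp_bound' (x := 16 / 25) (by norm_num) (by norm_num) (n := 8) (by norm_num)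
  simp only [Finset.sum_range_succ, Finset.sum_range_zero, Nat.factorial] at h
  norm_num at h
  linarith

private theorem exp64_low : 1.64 + 0.2048 ≤ Real.exp (16 / 25) := by
  have h := Real.quadratic_le_exp_of_nonneg (x := 16 / 25) (by norm_num)
  norm_num at h ⊢
  linarith

private theorem exp106_low : 2.8861 ≤ Real.exp (53 / 50) := by
  have h := Real.sum_le_exp_of_nonneg (x := 53 / 50) (by norm_num) 8
  simp only [Finset.sum_range_succ, Finset.sum_range_zero, Nat.factorial] at h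
  norm_num at h
  linarith

private theorem exp106 : Real.exp (-(53 / 50)) ≤ 0.3465 := by
  rw [Real.exp_neg]
  have h := exp106_low
  rw [inv_le_comm₀ (Real.exp_pos _) (by norm_num)]
  norm_num at h ⊢
  linarith

/-- the contour from the saddle, general constants. `X = 16/25`, `X1 = 53/50`, `σ3 = 16/25`, `σ4 = 19/50`.
`xh = 0` if `2 ≤ α + X`, else `xh = 2 - α - X` (`≤ 53/50` as `α ≥ 0.3`: `sin α = h e^h/κ ≥ 0.3`).
recipes: `e1`: `NN_line_left` (`√2/3 ≤ 0.4715`); `e2`: `NN_line_right` with `p3 = 0.1972`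
(`e^{16/25} - 1 - 16/25 - (16/25)²/2 ≤ 0.1972 (16/25)³`, see `exp_16_25`), `2 √2 · 0.1972 · ρ0 · 16/25 ≤ η0 - c1`;
`e3`: `NN_left_ray` + `e1` at `x = X1`, `e^{-53/50} ≤ 0.3465`; `e4`: `NN_right_hor`, `X - h + 0.8 e^X ρ ≥ X`
because `ρ ≥ h` (`h e^h ≤ κ`); `e5`: `NN_down` with `p = X + xh`: if `xh = 0` then
`R + X - e^X ρ cos (α + X) = X - R (e^X cos X - 1) + h e^X sin X ≥ 0.64 - 0.53 · 0.22 - 1.14 · 0.13 ≥ 0.38`
(`R = ρ cos α ≤ 0.22` since `cos α ≤ 0.21` for `α ≥ 1.36`; case `h ≥ 0` or `h ≥ -0.13`); if `xh > 0`, then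
`α ≤ π/2`, `R ≥ 0`, `p + α = 2`. `val`: `α < 4` because `sin α ≥ -0.2`. -/
theorem XHyp_of {β r t α h h0 hb ρ0 c1 c2 σ1 : ℝ} (hβ : 0 < β) (hβ2 : β ≤ 0.13) (hr : 0 < r)
    (h1 : β * r * Real.exp (-h) * Real.cos α = α - t) (h2 : β * r * Real.exp (-h) * Real.sin α = h)
    (hκ : 0.6 ≤ β * r) (hh0 : h0 ≤ h) (hh0' : -0.13 ≤ h0) (hle : h * Real.exp h ≤ β * r) (hh2 : h ≤ 0.67)
    (hα : (0 ≤ α ∧ α ≤ Real.pi / 2 ∧ hb ≤ h) ∨ (Real.pi / 2 ≤ α ∧ α ≤ 3 * Real.pi / 2))
    (hb0 : 0 < hb) (hbs : 0.3 * (β * r) ≤ hb * Real.exp hb) (hρ : β * r * Real.exp (-h) ≤ ρ0) (hρ0 : ρ0 ≤ 1.07)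
    (hc1 : 0 < c1) (hc2 : 0 < c2) (hσ1 : 0 < σ1)
    (n1 : c1 + 2 * 1.4143 * 0.1972 * ρ0 * (16 / 25) ≤ 1 + h0)
    (n2 : c2 + 0.4715 * ρ0 * (53 / 50) ≤ 1 + h0)
    (n3 : σ1 + 0.3465 * ρ0 ≤ h0 + 53 / 50) :
    ∃ xh : ℝ, xh ≤ 53 / 50 ∧ XHyp β r t α h (16 / 25) (53 / 50) xh c1 c2 σ1 (16 / 25) (19 / 50) := by
  have hpi := Real.pi_gt_d4
  have hpi2 := Real.pi_lt_d4
  have hE := exp64_up
  have hE2 := exp64_low
  have hs2 : Real.sqrt 2 ≤ 1.4143 := by
    rw [Real.sqrt_le_left (by norm_num)]; norm_num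
  obtain ⟨ρ, hρd⟩ : ∃ ρ, ρ = β * r * Real.exp (-h) := ⟨_, rfl⟩
  obtain ⟨R, hRd⟩ : ∃ R, R = α - t := ⟨_, rfl⟩
  have hsad : Sad β r t α h := ⟨hβ, hr, h1, h2⟩
  have hκ0 : 0 < β * r := mul_pos hβ hr
  have hρp : 0 < ρ := by rw [hρd]; exact mul_pos hκ0 (Real.exp_pos _)
  have hκρ : β * r = ρ * Real.exp h := by
    rw [hρd, mul_assoc, ← Real.exp_add]; simp
  rw [← hρd, ← hRd] at h1
  rw [← hρd] at h2 hρ
  have hRh : R ^ 2 + h ^ 2 ≤ ρ ^ 2 := by
    have e : R ^ 2 + h ^ 2 = ρ ^ 2 * (Real.sin α ^ 2 + Real.cos α ^ 2) := by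
      rw [← h1, ← h2]; ring
    rw [e, Real.sin_sq_add_cos_sq, mul_one]
  have hhρ : h ≤ ρ := by
    rw [hκρ] at hle
    exact le_of_mul_le_mul_right hle (Real.exp_pos h)
  have hR : R = ρ * Real.cos α := h1.symm
  have hh : h = ρ * Real.sin α := h2.symm
  have hρ6 : h ≤ 0 → 0.6 ≤ ρ := by
    intro h0
    rw [hκρ] at hκ
    have : Real.exp h ≤ 1 := Real.exp_le_one_iff.2 h0
    nlinarith
  -- e1
  have he1 : ∀ x, 0 ≤ x → x ≤ 53 / 50 → NN (α - t) h (-x) x ≤ -(c2 * x ^ 2) := by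
    intro x hx hx2
    rw [← hRd]
    have e := NN_line_left hRh hρp.le hx
    have e2 : Real.sqrt 2 / 3 * ρ ≤ 0.4715 * ρ0 :=
      mul_le_mul (by linarith) hρ hρp.le (by norm_num)
    have e3 : Real.sqrt 2 / 3 * ρ * x ≤ 0.4715 * ρ0 * (53 / 50) :=
      mul_le_mul e2 hx2 hx (by linarith)
    have e4 : (c2 - (1 + h) + Real.sqrt 2 / 3 * ρ * x) * x ^ 2 ≤ 0 :=
      mul_nonpos_of_nonpos_of_nonneg (by linarith) (sq_nonneg x)
    have e5 : (c2 - (1 + h) + Real.sqrt 2 / 3 * ρ * x) * x ^ 2 =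
        c2 * x ^ 2 + (-((1 + h) * x ^ 2) + Real.sqrt 2 / 3 * ρ * x ^ 3) := by ring
    linarith
  -- e2
  have he2 : ∀ x, 0 ≤ x → x ≤ 16 / 25 → NN (α - t) h x (-x) ≤ -(c1 * x ^ 2) := by
    intro x hx hx2
    rw [← hRd]
    have e := NN_line_right (X := 16 / 25) (p3 := 0.1972) hRh hρp.le hx (by norm_num) hx2
      (by norm_num at hE ⊢; linarith)
    have e2 : 2 * Real.sqrt 2 * 0.1972 * ρ ≤ 2 * 1.4143 * 0.1972 * ρ0 :=
      mul_le_mul (by linarith) hρ hρp.le (by norm_num)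
    have e3 : 2 * Real.sqrt 2 * 0.1972 * ρ * x ≤ 2 * 1.4143 * 0.1972 * ρ0 * (16 / 25) :=
      mul_le_mul e2 hx2 hx (by linarith)
    have e4 : (c1 - (1 + h) + 2 * Real.sqrt 2 * 0.1972 * ρ * x) * x ^ 2 ≤ 0 :=
      mul_nonpos_of_nonpos_of_nonneg (by linarith) (sq_nonneg x)
    have e5 : (c1 - (1 + h) + 2 * Real.sqrt 2 * 0.1972 * ρ * x) * x ^ 2 =
        c1 * x ^ 2 + (-((1 + h) * x ^ 2) + 2 * Real.sqrt 2 * 0.1972 * ρ * x ^ 3) := by ring
    linarith
  -- e3
  have he3 : ∀ x, 0 ≤ x →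
      NN (α - t) h (-(53 / 50) - x) (53 / 50) ≤ -(c2 * (53 / 50) ^ 2) - σ1 * x := by
    intro x hx
    have e1 := he1 (53 / 50) (by norm_num) le_rfl
    rw [← hRd] at e1 ⊢
    have e := NN_left_ray (X := 53 / 50) hRh hρp.le hx
    have e2 : Real.exp (-(53 / 50)) * ρ ≤ 0.3465 * ρ0 :=
      mul_le_mul exp106 hρ hρp.le (by norm_num)
    have e3 : σ1 * x ≤ (h + 53 / 50 - Real.exp (-(53 / 50)) * ρ) * x :=
      mul_le_mul_of_nonneg_right (by linarith) hx
    linarith
  -- lower bound of α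
  have hα3 : 0.3 ≤ α := by
    rcases hα with ⟨a0, a1, a2⟩ | ⟨a0, a1⟩
    · have e1 : hb * Real.exp hb ≤ h * Real.exp h :=
        mul_le_mul a2 (Real.exp_le_exp.2 a2) (Real.exp_pos _).le (by linarith)
      have e2 : 0.3 * (ρ * Real.exp h) ≤ h * Real.exp h := by rw [← hκρ]; linarith
      have e3 : 0.3 * ρ ≤ h := by
        have : (0.3 * ρ) * Real.exp h ≤ h * Real.exp h := by linarith
        exact le_of_mul_le_mul_right this (Real.exp_pos h)
      have e4 : 0.3 * ρ ≤ Real.sin α * ρ := by rw [mul_comm (Real.sin α) ρ, ← hh]; exact e3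
      have e5 : 0.3 ≤ Real.sin α := le_of_mul_le_mul_right e4 hρp
      exact e5.trans (Real.sin_le a0)
    · linarith
  -- upper bound of α
  have hα4 : α < 4.07 := by
    rcases hα with ⟨a0, a1, a2⟩ | ⟨a0, a1⟩
    · linarith
    · by_contra hneg
      have hneg' : 4.07 ≤ α := not_lt.1 hneg
      have e1 : 2 / Real.pi * (α - Real.pi) ≤ Real.sin (α - Real.pi) :=
        Real.mul_le_sin (by linarith) (by linarith)
      rw [Real.sin_sub_pi] at e1
      have e2 : 0.5 ≤ 2 / Real.pi * (α - Real.pi) := by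
        have e3 : 0.6366 ≤ 2 / Real.pi := by
          rw [le_div_iff₀ Real.pi_pos]; linarith
        have e4 : 0.6366 * 0.9284 ≤ 2 / Real.pi * (α - Real.pi) :=
          mul_le_mul e3 (by linarith) (by norm_num) (by linarith)
        norm_num at e4 ⊢
        linarith
      have e5 : Real.sin α ≤ -0.5 := by linarith
      have e6 : h ≤ ρ * (-0.5) := by
        rw [hh]; exact mul_le_mul_of_nonneg_left e5 hρp.le
      have e7 := hρ6 (by linarith)
      linarith
  -- the choice of xh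
  obtain ⟨xh, hxh0, hxh1, hxh2⟩ : ∃ xh : ℝ, 0 ≤ xh ∧ xh ≤ 53 / 50 ∧
      ((xh = 0 ∧ 2 ≤ α + 16 / 25) ∨ (α + 16 / 25 < 2 ∧ α + 16 / 25 + xh = 2)) := by
    rcases le_or_gt 2 (α + 16 / 25) with a | a
    · exact ⟨0, le_rfl, by norm_num, Or.inl ⟨rfl, a⟩⟩
    · exact ⟨2 - α - 16 / 25, by linarith, by linarith, Or.inr ⟨a, by ring⟩⟩
  have hval : |α + 16 / 25 + xh - Real.pi| < Real.pi / 2 := by
    rw [abs_lt]
    rcases hxh2 with ⟨a, b⟩ | ⟨a, b⟩
    · rw [a]; constructor <;> linarith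
    · rw [b]; constructor <;> linarith
  have he4 : ∀ x, 0 ≤ x → x ≤ xh →
      NN (α - t) h (16 / 25 + x) (-(16 / 25)) ≤ -(c1 * (16 / 25) ^ 2) - 16 / 25 * x := by
    intro x hx hx2
    have e1 := he2 (16 / 25) (by norm_num) le_rfl
    rcases hxh2 with ⟨a, b⟩ | ⟨a, b⟩
    · have : x = 0 := by linarith
      rw [this, add_zero]
      linarith
    · have e := NN_right_hor (ρ := ρ) (α := α) (X := 16 / 25) hρp.le hx (by linarith) (by linarith)
      rw [← hR, ← hh] at e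
      rw [← hRd] at e1 ⊢
      have e2 : h ≤ 0.8 * (Real.exp (16 / 25) * ρ) := by nlinarith
      have e3 : 16 / 25 * x ≤ (16 / 25 - h + 0.8 * (Real.exp (16 / 25) * ρ)) * x :=
        mul_le_mul_of_nonneg_right (by linarith) hx
      linarith
  have he5 : ∀ v, 0 ≤ v →
      NN (α - t) h (16 / 25 + xh) (-(16 / 25) - v) ≤ -(c1 * (16 / 25) ^ 2) - 19 / 50 * v := by
    intro v hv
    have hcos : Real.cos (α + (16 / 25 + xh)) ≤ 0 := by
      rw [abs_lt] at hval
      exact Real.cos_nonpos_of_pi_div_two_le_of_le (by linarith) (by linarith)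
    have e := NN_down (ρ := ρ) (α := α) (X := 16 / 25) (p := 16 / 25 + xh) hρp.le hv hcos
    have e4 := he4 xh hxh0 le_rfl
    rw [← hR, ← hh] at e
    rw [← hRd] at e4 ⊢
    have hslope : 19 / 50 ≤ R + (16 / 25 + xh) +
        Real.exp (16 / 25) * ρ * (-Real.cos (α + (16 / 25 + xh))) := by
      have hnn : 0 ≤ Real.exp (16 / 25) * ρ * (-Real.cos (α + (16 / 25 + xh))) :=
        mul_nonneg (mul_nonneg (Real.exp_pos _).le hρp.le) (by linarith)
      rcases hxh2 with ⟨a, b⟩ | ⟨a, b⟩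
      · rw [a, add_zero]
        have e6 : Real.exp (16 / 25) * ρ * (-Real.cos (α + 16 / 25)) =
            Real.exp (16 / 25) * (h * Real.sin (16 / 25) - R * Real.cos (16 / 25)) := by
          rw [Real.cos_add, hR, hh]; ring
        rw [e6]
        have hc1' : Real.cos (16 / 25) ≤ 1 := Real.cos_le_one _
        have hc2' := Real.one_sub_sq_div_two_le_cos (x := 16 / 25)
        have hs1' : Real.sin (16 / 25) ≤ 16 / 25 := Real.sin_le (by norm_num)
        have hs0' : 0 ≤ Real.sin (16 / 25) :=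
          Real.sin_nonneg_of_nonneg_of_le_pi (by norm_num) (by linarith)
        have hec : 1 ≤ Real.exp (16 / 25) * Real.cos (16 / 25) := by
          have : (1.8448 : ℝ) * 0.7952 ≤ Real.exp (16 / 25) * Real.cos (16 / 25) :=
            mul_le_mul (by linarith) (by norm_num at hc2' ⊢; linarith) (by norm_num)
              (Real.exp_pos _).le
          norm_num at this ⊢
          linarith
        have hec2 : Real.exp (16 / 25) * Real.cos (16 / 25) ≤ 1.8965 := by
          have := mul_le_mul_of_nonneg_left hc1' (Real.exp_pos (16 / 25)).le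
          linarith
        have hes : Real.exp (16 / 25) * Real.sin (16 / 25) ≤ 1.8965 * (16 / 25) :=
          mul_le_mul (by linarith) hs1' hs0' (by norm_num)
        have hes0 : 0 ≤ Real.exp (16 / 25) * Real.sin (16 / 25) :=
          mul_nonneg (Real.exp_pos _).le hs0'
        rcases hα with ⟨a0, a1, a2⟩ | ⟨a0, a1⟩
        · have hcs : Real.cos α ≤ Real.pi / 2 - α := by
            rw [← Real.sin_pi_div_two_sub]
            exact Real.sin_le (by linarith)
          have hcs0 : 0 ≤ Real.cos α :=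
            Real.cos_nonneg_of_neg_pi_div_two_le_of_le (by linarith) a1
          have hR1 : R ≤ 1.07 * 0.211 := by
            rw [hR]
            exact mul_le_mul (by linarith) (by linarith) hcs0 (by norm_num)
          have hR0 : 0 ≤ R := by rw [hR]; exact mul_nonneg hρp.le hcs0
          have e7 : R * (Real.exp (16 / 25) * Real.cos (16 / 25) - 1) ≤ (1.07 * 0.211) * 0.8965 :=
            mul_le_mul hR1 (by linarith) (by linarith) (by norm_num)
          have e8 : 0 ≤ h * (Real.exp (16 / 25) * Real.sin (16 / 25)) :=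
            mul_nonneg (by linarith) hes0
          norm_num at e7
          linarith
        · have hcs0 : Real.cos α ≤ 0 :=
            Real.cos_nonpos_of_pi_div_two_le_of_le a0 (by linarith)
          have hR0 : R ≤ 0 := by
            rw [hR]; exact mul_nonpos_of_nonneg_of_nonpos hρp.le hcs0
          have e7 : R * (Real.exp (16 / 25) * Real.cos (16 / 25) - 1) ≤ 0 :=
            mul_nonpos_of_nonpos_of_nonneg hR0 (by linarith)
          have e8 : -0.13 * (1.8965 * (16 / 25)) ≤ h * (Real.exp (16 / 25) * Real.sin (16 / 25)) := by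
            have e9 : -0.13 * (Real.exp (16 / 25) * Real.sin (16 / 25)) ≤
                h * (Real.exp (16 / 25) * Real.sin (16 / 25)) :=
              mul_le_mul_of_nonneg_right (by linarith) hes0
            linarith
          norm_num at e8
          linarith
      · have hcs0 : 0 ≤ Real.cos α :=
          Real.cos_nonneg_of_neg_pi_div_two_le_of_le (by linarith) (by linarith)
        have hR0 : 0 ≤ R := by rw [hR]; exact mul_nonneg hρp.le hcs0
        linarith
    have e7 := mul_le_mul_of_nonneg_right hslope hv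
    linarith
  exact ⟨xh, hxh1, ⟨hsad, by norm_num, by norm_num, hxh0, hc1, hc2, hσ1, by norm_num,
    by linarith, by linarith, hval, he1, he2, he3, he4, he5⟩⟩

end Sok.Mid
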