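import Pool.Agent.Lib.MP_816dec_an.MIVT

/-!
MP_816dec_an, `b = 1`, middle range: the left saddle exists for all `t` of the window.
-/

set_option autoImplicit false

open Set Filter Topology

namespace Sok.Mid

private theorem arcsin_le_of {x y : ℝ} (hy0 : 0 < y) (hy1 : y ≤ 1) (_hx0 : 0 ≤ x) (h : x ≤ y - y ^ 3 / 4) :
    Real.arcsin x ≤ y := by
  have hpi := Real.pi_gt_three
  have h1 := Real.sin_gt_sub_cube hy0
  have h3 : 0 < y ^ 3 := by positivity
  have h2 : x ≤ Real.sin y := by linarith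
  rw [← Real.arcsin_sin (x := y) (by linarith) (by linarith)]
  exact Real.monotone_arcsin h2

private theorem le_arcsin_of {x : ℝ} (hx0 : 0 ≤ x) (hx1 : x ≤ 1) : x ≤ Real.arcsin x := by
  have hpi := Real.pi_gt_three
  have h1 := Real.sin_le hx0
  have h2 : Real.arcsin (Real.sin x) = x := Real.arcsin_sin (by linarith) (by linarith)
  calc x = Real.arcsin (Real.sin x) := h2.symm
    _ ≤ Real.arcsin x := Real.monotone_arcsin h1

private theorem exp_up (n : ℕ) (hn : 0 < n) {b c : ℝ} (hb : 0 ≤ b) (hb1 : b ≤ 1)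
    (h : ∑ m ∈ Finset.range n, b ^ m / (m.factorial : ℝ) + b ^ n * (n + 1) / (n.factorial * n) ≤ c) :
    Real.exp b ≤ c := (Real.exp_bound' hb hb1 hn).trans h

private theorem exp_lo (n : ℕ) {b c : ℝ} (hb : 0 ≤ b)
    (h : c ≤ ∑ i ∈ Finset.range n, b ^ i / (i.factorial : ℝ)) : c ≤ Real.exp b :=
  h.trans (Real.sum_le_exp_of_nonneg hb n)

theorem exists_sad_67 {κ t : ℝ} (h1 : 0.6 ≤ κ) (h2 : κ ≤ 0.7) (ht0 : -0.035 ≤ t) (ht1 : t ≤ 5.2 - 2 * κ) :
    ∃ α h : ℝ, -0.13 ≤ h ∧ h * Real.exp h ≤ κ ∧ κ * Real.exp (-h) * Real.cos α = α - t ∧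
      κ * Real.exp (-h) * Real.sin α = h ∧
      ((0 ≤ α ∧ α ≤ Real.pi / 2 ∧ 0.18 ≤ h) ∨ (Real.pi / 2 ≤ α ∧ α ≤ 3 * Real.pi / 2)) := by
  have hκ : 0 < κ := by linarith
  have hpi := Real.pi_gt_d4
  have a1 : Real.exp 0.18 ≤ 1.1973 :=
    exp_up 5 (by norm_num) (by norm_num) (by norm_num) (by norm_num [Finset.sum_range_succ, Nat.factorial])
  have a2 : (1.2969 : ℝ) ≤ Real.exp 0.26 :=
    exp_lo 6 (by norm_num) (by norm_num [Finset.sum_range_succ, Nat.factorial])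
  have a3 : Real.exp 0.13 ≤ 1.1389 :=
    exp_up 5 (by norm_num) (by norm_num) (by norm_num) (by norm_num [Finset.sum_range_succ, Nat.factorial])
  have a4 : (0.878 : ℝ) ≤ Real.exp (-0.13) := by
    rw [Real.exp_neg, le_inv_comm₀ (by norm_num) (Real.exp_pos _)]
    refine a3.trans ?_
    norm_num
  have a5 : (0.67 : ℝ) ≤ Real.exp (-2 * 0.18) := by
    have e1 : Real.exp (-2 * 0.18) = Real.exp (-0.18) * Real.exp (-0.18) := by rw [← Real.exp_add]; norm_num
    have e2 := Real.add_one_le_exp (-0.18 : ℝ)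
    rw [e1]
    norm_num at e2 ⊢
    nlinarith
  have a6 : Real.exp (-0.13) ≤ 1 := Real.exp_le_one_iff.2 (by norm_num)
  refine exists_sad_X (hs := -0.13) (hb := 0.18) hκ (by norm_num) (by norm_num) (by norm_num) ?_ ?_ ?_ ?_
  · linarith
  · have : Real.exp (-0.13) * 0.13 ≤ 1 * 0.13 := mul_le_mul_of_nonneg_right a6 (by norm_num)
    linarith
  · -- left
    have b1 : Real.arcsin (0.18 * Real.exp 0.18 / κ) ≤ 0.38 := by
      refine arcsin_le_of (by norm_num) (by norm_num) (by positivity) ?_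
      rw [div_le_iff₀ hκ]
      norm_num at a1 ⊢
      linarith
    have b2 : 0.45 ≤ Real.sqrt (κ ^ 2 * Real.exp (-2 * 0.18) - 0.18 ^ 2) := by
      apply Real.le_sqrt_of_sq_le
      have c1 : 0.36 ≤ κ ^ 2 := by nlinarith
      have c2 : 0.36 * 0.67 ≤ κ ^ 2 * Real.exp (-2 * 0.18) := mul_le_mul c1 a5 (by norm_num) (by positivity)
      norm_num at c2 ⊢
      linarith
    linarith
  · -- right
    have hpi6 := Real.pi_gt_d6
    have b1 : 0.11414 / κ ≤ -Real.arcsin (-0.13 * Real.exp (-0.13) / κ) := by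
      have e1 : -0.13 * Real.exp (-0.13) / κ = -(0.13 * Real.exp (-0.13) / κ) := by ring
      rw [e1, Real.arcsin_neg, neg_neg]
      have c1 : 0.11414 / κ ≤ 0.13 * Real.exp (-0.13) / κ := by
        apply div_le_div_of_nonneg_right _ hκ.le
        norm_num at a4 ⊢
        linarith
      refine c1.trans (le_arcsin_of (by positivity) ?_)
      rw [div_le_one hκ]
      linarith
    have b2 : 0.6708 + 1.15 * (κ - 0.6) ≤ Real.sqrt (κ ^ 2 * Real.exp (-2 * -0.13) - (-0.13) ^ 2) := by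
      apply Real.le_sqrt_of_sq_le
      have e1 : (-2 * -0.13 : ℝ) = 0.26 := by norm_num
      rw [e1]
      have c1 : κ ^ 2 * 1.2969 ≤ κ ^ 2 * Real.exp 0.26 := mul_le_mul_of_nonneg_left a2 (by positivity)
      nlinarith
    have b3 : 0.19 - 0.32 * (κ - 0.6) ≤ 0.11414 / κ := by
      rw [le_div_iff₀ hκ]
      nlinarith
    linarith

theorem exists_sad_79 {κ t : ℝ} (h1 : 0.7 ≤ κ) (h2 : κ ≤ 0.9) (ht0 : -0.045 ≤ t) (ht1 : t ≤ 5.2 - 2 * κ) :
    ∃ α h : ℝ, 0 ≤ h ∧ h * Real.exp h ≤ κ ∧ κ * Real.exp (-h) * Real.cos α = α - t ∧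
      κ * Real.exp (-h) * Real.sin α = h ∧
      ((0 ≤ α ∧ α ≤ Real.pi / 2 ∧ 0.22 ≤ h) ∨ (Real.pi / 2 ≤ α ∧ α ≤ 3 * Real.pi / 2)) := by
  have hκ : 0 < κ := by linarith
  have hpi := Real.pi_gt_d4
  have a1 : Real.exp 0.22 ≤ 1.2461 :=
    exp_up 6 (by norm_num) (by norm_num) (by norm_num) (by norm_num [Finset.sum_range_succ, Nat.factorial])
  have a5 : (0.6 : ℝ) ≤ Real.exp (-2 * 0.22) := by
    have e1 : Real.exp (-2 * 0.22) = Real.exp (-0.22) * Real.exp (-0.22) := by rw [← Real.exp_add]; norm_num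
    have e2 := Real.add_one_le_exp (-0.22 : ℝ)
    rw [e1]
    norm_num at e2 ⊢
    nlinarith
  refine exists_sad_X (hs := 0) (hb := 0.22) hκ (by norm_num) (by norm_num) (by norm_num) ?_ ?_ ?_ ?_
  · linarith
  · simp only [neg_zero, zero_mul]
    exact hκ.le
  · have b1 : Real.arcsin (0.22 * Real.exp 0.22 / κ) ≤ 0.42 := by
      refine arcsin_le_of (by norm_num) (by norm_num) (by positivity) ?_
      rw [div_le_iff₀ hκ]
      norm_num at a1 ⊢
      linarith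
    have b2 : 0.49 ≤ Real.sqrt (κ ^ 2 * Real.exp (-2 * 0.22) - 0.22 ^ 2) := by
      apply Real.le_sqrt_of_sq_le
      have c1 : 0.49 ≤ κ ^ 2 := by nlinarith
      have c2 : 0.49 * 0.6 ≤ κ ^ 2 * Real.exp (-2 * 0.22) := mul_le_mul c1 a5 (by norm_num) (by positivity)
      norm_num at c2 ⊢
      linarith
    linarith
  · have e1 : Real.sqrt (κ ^ 2 * Real.exp (-2 * 0) - 0 ^ 2) = κ := by
      rw [mul_zero, Real.exp_zero, mul_one, zero_pow two_ne_zero, sub_zero, Real.sqrt_sq hκ.le]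
    rw [e1, zero_mul, zero_div, Real.arcsin_zero]
    linarith

theorem exists_sad_913 {κ t : ℝ} (h1 : 0.9 ≤ κ) (h2 : κ ≤ 1.3) (ht0 : -0.065 ≤ t) (ht1 : t ≤ 5.2 - 2 * κ) :
    ∃ α h : ℝ, 0.2 ≤ h ∧ h * Real.exp h ≤ κ ∧ κ * Real.exp (-h) * Real.cos α = α - t ∧
      κ * Real.exp (-h) * Real.sin α = h ∧
      ((0 ≤ α ∧ α ≤ Real.pi / 2 ∧ 0.3 ≤ h) ∨ (Real.pi / 2 ≤ α ∧ α ≤ 3 * Real.pi / 2)) := by
  have hκ : 0 < κ := by linarith
  have hpi := Real.pi_gt_d4
  have a1 : Real.exp 0.3 ≤ 1.35 :=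
    exp_up 6 (by norm_num) (by norm_num) (by norm_num) (by norm_num [Finset.sum_range_succ, Nat.factorial])
  have a2 : Real.exp 0.2 ≤ 1.2215 :=
    exp_up 6 (by norm_num) (by norm_num) (by norm_num) (by norm_num [Finset.sum_range_succ, Nat.factorial])
  have a5 : (0.52 : ℝ) ≤ Real.exp (-2 * 0.3) := by
    have e1 : Real.exp (-2 * 0.3) = (Real.exp (-0.15) * Real.exp (-0.15)) * (Real.exp (-0.15) * Real.exp (-0.15)) := by
      rw [← Real.exp_add, ← Real.exp_add]; norm_num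
    have e2 := Real.add_one_le_exp (-0.15 : ℝ)
    rw [e1]
    norm_num at e2 ⊢
    have e3 : 289 / 400 ≤ Real.exp (-(3 / 20)) * Real.exp (-(3 / 20)) := by nlinarith
    nlinarith
  have a6 : (0.64 : ℝ) ≤ Real.exp (-2 * 0.2) := by
    have e1 : Real.exp (-2 * 0.2) = Real.exp (-0.2) * Real.exp (-0.2) := by rw [← Real.exp_add]; norm_num
    have e2 := Real.add_one_le_exp (-0.2 : ℝ)
    rw [e1]
    norm_num at e2 ⊢
    nlinarith
  refine exists_sad_X (hs := 0.2) (hb := 0.3) hκ (by norm_num) (by norm_num) (by norm_num) ?_ ?_ ?_ ?_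
  · linarith
  · have := Real.exp_pos 0.2
    nlinarith
  · have b1 : Real.arcsin (0.3 * Real.exp 0.3 / κ) ≤ 0.49 := by
      refine arcsin_le_of (by norm_num) (by norm_num) (by positivity) ?_
      rw [div_le_iff₀ hκ]
      norm_num at a1 ⊢
      linarith
    have b2 : 0.57 ≤ Real.sqrt (κ ^ 2 * Real.exp (-2 * 0.3) - 0.3 ^ 2) := by
      apply Real.le_sqrt_of_sq_le
      have c1 : 0.81 ≤ κ ^ 2 := by nlinarith
      have c2 : 0.81 * 0.52 ≤ κ ^ 2 * Real.exp (-2 * 0.3) := mul_le_mul c1 a5 (by norm_num) (by positivity)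
      norm_num at c2 ⊢
      linarith
    linarith
  · have b1 : Real.arcsin (0.2 * Real.exp 0.2 / κ) ≤ 0.3 := by
      refine arcsin_le_of (by norm_num) (by norm_num) (by positivity) ?_
      rw [div_le_iff₀ hκ]
      norm_num at a2 ⊢
      linarith
    have b2 : 0.6 ≤ Real.sqrt (κ ^ 2 * Real.exp (-2 * 0.2) - 0.2 ^ 2) := by
      apply Real.le_sqrt_of_sq_le
      have c1 : 0.81 ≤ κ ^ 2 := by nlinarith
      have c2 : 0.81 * 0.64 ≤ κ ^ 2 * Real.exp (-2 * 0.2) := mul_le_mul c1 a6 (by norm_num) (by positivity)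
      norm_num at c2 ⊢
      linarith
    linarith

end Sok.Mid
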