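import Pool.Agent.Lib.MP_816dec_an.MXmom

/-!
MP_816dec_an, `b = 1`, middle range: the numerical data of the three intervals of `κ`.
-/

set_option autoImplicit false

open Complex Set Filter Topology MeasureTheory Sok.W

namespace Sok.Mid

theorem exp_neg_le_of {x y E : ℝ} (n : ℕ) (hy : 0 ≤ y) (hxy : y ≤ x) (hE : 0 ≤ E)
    (h : 1 ≤ E * ∑ i ∈ Finset.range n, y ^ i / (i.factorial : ℝ)) : Real.exp (-x) ≤ E := by
  have h1 := Real.sum_le_exp_of_nonneg hy n
  have h2 : Real.exp (-x) ≤ Real.exp (-y) := Real.exp_le_exp.2 (by linarith)
  have h3 : Real.exp (-y) * Real.exp y = 1 := by rw [← Real.exp_add]; simp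
  have h4 : 1 ≤ E * Real.exp y := h.trans (mul_le_mul_of_nonneg_left h1 hE)
  have h5 := Real.exp_pos y
  refine h2.trans ?_
  by_contra hc
  have := mul_lt_mul_of_pos_right (not_le.1 hc) h5
  linarith

theorem xnum_67 : XNum (7973/10000) (87/100) (53/200) (127/100) (67/100) (29/50) (47/100) (13/20) (93/100) (19/25) (17/25) (4/625) (649/10000) (3/5000) (171/5000) (17/100) (1/4) (7/25) := by
  constructor
  · norm_num
  · norm_num
  · norm_num
  · norm_num
  · norm_num
  · norm_num
  · norm_num
  · norm_num
  · norm_num
  · norm_num
  · norm_num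
  · norm_num
  · norm_num
  · norm_num
  · norm_num
  · norm_num
  · norm_num
  · refine exp_neg_le_of (y := 2537/500) 24 (by norm_num) (by norm_num) (by norm_num) ?_
    simp only [Finset.sum_range_succ, Finset.sum_range_zero, Nat.factorial]
    norm_num
  · refine exp_neg_le_of (y := 2741/1000) 24 (by norm_num) (by norm_num) (by norm_num) ?_
    simp only [Finset.sum_range_succ, Finset.sum_range_zero, Nat.factorial]
    norm_num
  · refine exp_neg_le_of (y := 7519/1000) 24 (by norm_num) (by norm_num) (by norm_num) ?_
    simp only [Finset.sum_range_succ, Finset.sum_range_zero, Nat.factorial]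
    norm_num
  · refine exp_neg_le_of (y := 1691/500) 24 (by norm_num) (by norm_num) (by norm_num) ?_
    simp only [Finset.sum_range_succ, Finset.sum_range_zero, Nat.factorial]
    norm_num
  · norm_num
  · norm_num
  · norm_num
  · norm_num

theorem xnum_79 : XNum (9/10) (1) (3/10) (131/100) (67/100) (67/100) (11/20) (37/50) (1) (81/100) (37/50) (107/10000) (823/10000) (11/10000) (477/10000) (1/5) (33/100) (19/50) := by
  constructor
  · norm_num
  · norm_num
  · norm_num
  · norm_num
  · norm_num
  · norm_num
  · norm_num
  · norm_num
  · norm_num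
  · norm_num
  · norm_num
  · norm_num
  · norm_num
  · norm_num
  · norm_num
  · norm_num
  · norm_num
  · refine exp_neg_le_of (y := 4551/1000) 24 (by norm_num) (by norm_num) (by norm_num) ?_
    simp only [Finset.sum_range_succ, Finset.sum_range_zero, Nat.factorial]
    norm_num
  · refine exp_neg_le_of (y := 2503/1000) 24 (by norm_num) (by norm_num) (by norm_num) ?_
    simp only [Finset.sum_range_succ, Finset.sum_range_zero, Nat.factorial]
    norm_num
  · refine exp_neg_le_of (y := 3433/500) 24 (by norm_num) (by norm_num) (by norm_num) ?_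
    simp only [Finset.sum_range_succ, Finset.sum_range_zero, Nat.factorial]
    norm_num
  · refine exp_neg_le_of (y := 3049/1000) 24 (by norm_num) (by norm_num) (by norm_num) ?_
    simp only [Finset.sum_range_succ, Finset.sum_range_zero, Nat.factorial]
    norm_num
  · norm_num
  · norm_num
  · norm_num
  · norm_num

theorem xnum_913 : XNum (213/200) (6/5) (361/1000) (137/100) (17/25) (81/100) (33/50) (89/100) (109/100) (9/10) (81/100) (233/10000) (1263/10000) (7/2000) (197/2500) (13/50) (59/100) (71/100) := by
  constructor
  · norm_num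
  · norm_num
  · norm_num
  · norm_num
  · norm_num
  · norm_num
  · norm_num
  · norm_num
  · norm_num
  · norm_num
  · norm_num
  · norm_num
  · norm_num
  · norm_num
  · norm_num
  · norm_num
  · norm_num
  · refine exp_neg_le_of (y := 3771/1000) 24 (by norm_num) (by norm_num) (by norm_num) ?_
    simp only [Finset.sum_range_succ, Finset.sum_range_zero, Nat.factorial]
    norm_num
  · refine exp_neg_le_of (y := 1037/500) 24 (by norm_num) (by norm_num) (by norm_num) ?_
    simp only [Finset.sum_range_succ, Finset.sum_range_zero, Nat.factorial]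
    norm_num
  · refine exp_neg_le_of (y := 569/100) 24 (by norm_num) (by norm_num) (by norm_num) ?_
    simp only [Finset.sum_range_succ, Finset.sum_range_zero, Nat.factorial]
    norm_num
  · refine exp_neg_le_of (y := 509/200) 24 (by norm_num) (by norm_num) (by norm_num) ?_
    simp only [Finset.sum_range_succ, Finset.sum_range_zero, Nat.factorial]
    norm_num
  · norm_num
  · norm_num
  · norm_num
  · norm_num

end Sok.Mid
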