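import Pool.Agent.Lib.MP_816dec_an.MDefs

/-!
MP_816dec_an, `b = 1`, middle range: the relative exponent `NN R (-g) p q` (`p + q i` measured from the saddle,
`R = ρ cos a`, `g = ρ sin a`, `0 ≤ a ≤ 0.66`) on the contour of the right function. With `p = x`, `q = 0` it is
`-(R (1 - cos x)) - g (x - sin x)`.
-/

set_option autoImplicit false

open Complex Set Filter Topology MeasureTheory

namespace Sok.Mid

private theorem cosq {x : ℝ} (hx : 0 ≤ x) : Real.cos x ≤ 1 - x ^ 2 / 2 + x ^ 4 / 24 := by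
  have hm : MonotoneOn (fun x : ℝ => 1 - x ^ 2 / 2 + x ^ 4 / 24 - Real.cos x) (Ici 0) := by
    refine monotoneOn_of_deriv_nonneg (convex_Ici 0) (by fun_prop) (by fun_prop) ?_
    intro y hy
    rw [interior_Ici, mem_Ioi] at hy
    have hd : HasDerivAt (fun x : ℝ => 1 - x ^ 2 / 2 + x ^ 4 / 24 - Real.cos x)
        (0 - (2 * y ^ 1) / 2 + (4 * y ^ 3) / 24 - (- Real.sin y)) y :=
      ((((hasDerivAt_const y (1:ℝ)).sub ((hasDerivAt_pow 2 y).div_const 2))).add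
        ((hasDerivAt_pow 4 y).div_const 24)).sub (Real.hasDerivAt_cos y)
    rw [hd.deriv]
    have := Real.sin_gt_sub_cube hy
    linarith
  have h := hm (mem_Ici.2 le_rfl) (mem_Ici.2 hx) hx
  simp only [Real.cos_zero] at h
  linarith

private theorem sinq {x : ℝ} (hx : 0 ≤ x) : Real.sin x ≤ x - x ^ 3 / 6 + x ^ 5 / 120 := by
  have hm : MonotoneOn (fun x : ℝ => x - x ^ 3 / 6 + x ^ 5 / 120 - Real.sin x) (Ici 0) := by
    refine monotoneOn_of_deriv_nonneg (convex_Ici 0) (by fun_prop) (by fun_prop) ?_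
    intro y hy
    rw [interior_Ici, mem_Ioi] at hy
    have hd : HasDerivAt (fun x : ℝ => x - x ^ 3 / 6 + x ^ 5 / 120 - Real.sin x)
        (1 - (3 * y ^ 2) / 6 + (5 * y ^ 4) / 120 - Real.cos y) y :=
      ((((hasDerivAt_id y).sub ((hasDerivAt_pow 3 y).div_const 6))).add
        ((hasDerivAt_pow 5 y).div_const 120)).sub (Real.hasDerivAt_sin y)
    rw [hd.deriv]
    have := cosq hy.le
    linarith
  have h := hm (mem_Ici.2 le_rfl) (mem_Ici.2 hx) hx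
  simp only [Real.sin_zero] at h
  linarith

private theorem cosq' {x : ℝ} (hx : 0 ≤ x) :
    1 - x ^ 2 / 2 + x ^ 4 / 24 - x ^ 6 / 720 ≤ Real.cos x := by
  have hm : MonotoneOn (fun x : ℝ => Real.cos x - (1 - x ^ 2 / 2 + x ^ 4 / 24 - x ^ 6 / 720))
      (Ici 0) := by
    refine monotoneOn_of_deriv_nonneg (convex_Ici 0) (by fun_prop) (by fun_prop) ?_
    intro y hy
    rw [interior_Ici, mem_Ioi] at hy
    have hd : HasDerivAt (fun x : ℝ => Real.cos x - (1 - x ^ 2 / 2 + x ^ 4 / 24 - x ^ 6 / 720))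
        (-Real.sin y - (0 - (2 * y ^ 1) / 2 + (4 * y ^ 3) / 24 - (6 * y ^ 5) / 720)) y :=
      (Real.hasDerivAt_cos y).sub
      (((((hasDerivAt_const y (1:ℝ)).sub ((hasDerivAt_pow 2 y).div_const 2))).add
        ((hasDerivAt_pow 4 y).div_const 24)).sub ((hasDerivAt_pow 6 y).div_const 720))
    rw [hd.deriv]
    have := sinq hy.le
    linarith
  have h := hm (mem_Ici.2 le_rfl) (mem_Ici.2 hx) hx
  simp only [Real.cos_zero] at h
  linarith

private theorem NNx (R g x : ℝ) : NN R (-g) x 0 = -(R * (1 - Real.cos x)) - g * (x - Real.sin x) := by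
  unfold NN
  rw [neg_zero, Real.exp_zero]
  ring

private theorem sincos_nonneg {a : ℝ} (ha : 0 ≤ a) (ha2 : a ≤ 0.66) :
    0 ≤ Real.sin a ∧ 0 ≤ Real.cos a := by
  have hpi := Real.pi_gt_d4
  exact ⟨Real.sin_nonneg_of_nonneg_of_le_pi ha (by linarith),
    Real.cos_nonneg_of_neg_pi_div_two_le_of_le (by linarith) (by linarith)⟩

private theorem kmono {a a0 c : ℝ} (ha : 0 ≤ a) (h : a ≤ a0) (ha0 : a0 ≤ 0.66) (hc : 2.07 ≤ c)
    (hc2 : c ≤ 2.08) :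
    Real.cos a0 * (1 / 2 - (c - a0) ^ 2 / 24) - Real.sin a0 * ((c - a0) / 6) ≤
      Real.cos a * (1 / 2 - (c - a) ^ 2 / 24) - Real.sin a * ((c - a) / 6) := by
  have hm : AntitoneOn (fun a : ℝ => Real.cos a * (1 / 2 - (c - a) ^ 2 / 24) -
      Real.sin a * ((c - a) / 6)) (Icc 0 0.66) := by
    refine antitoneOn_of_deriv_nonpos (convex_Icc 0 0.66) (by fun_prop) (by fun_prop) ?_
    intro y hy
    rw [interior_Icc, mem_Ioo] at hy
    have h1 : HasDerivAt (fun a : ℝ => c - a) (-1) y := (hasDerivAt_id' y).const_sub c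
    have h2 : HasDerivAt (fun a : ℝ => 1 / 2 - (c - a) ^ 2 / 24) (0 - (2 * (c - y) ^ 1 * (-1)) / 24) y :=
      (hasDerivAt_const y (1 / 2 : ℝ)).sub ((h1.pow 2).div_const 24)
    have hd := ((Real.hasDerivAt_cos y).mul h2).sub ((Real.hasDerivAt_sin y).mul (h1.div_const 6))
    have hd' : HasDerivAt (fun a : ℝ => Real.cos a * (1 / 2 - (c - a) ^ 2 / 24) -
      Real.sin a * ((c - a) / 6)) _ y := hd
    rw [hd'.deriv]
    obtain ⟨hs, hcc⟩ := sincos_nonneg hy.1.le hy.2.le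
    have e : -Real.sin y * (1 / 2 - (c - y) ^ 2 / 24) + Real.cos y * (0 - 2 * (c - y) ^ 1 * -1 / 24) -
        (Real.cos y * ((c - y) / 6) + Real.sin y * (-1 / 6)) =
        -(Real.sin y * (1 / 3 - (c - y) ^ 2 / 24)) - Real.cos y * ((c - y) / 12) := by ring
    rw [e]
    have h3 : 0 ≤ 1 / 3 - (c - y) ^ 2 / 24 := by nlinarith
    have h4 : 0 ≤ (c - y) / 12 := by linarith
    have := mul_nonneg hs h3
    have := mul_nonneg hcc h4
    linarith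
  exact hm ⟨ha, h.trans ha0⟩ ⟨ha.trans h, ha0⟩ h

private theorem emono {a a0 c : ℝ} (ha : 0 ≤ a) (h : a ≤ a0) (ha0 : a0 ≤ 0.66) (hc : 2.07 ≤ c)
    (hc2 : c ≤ 2.08) :
    Real.cos a0 - Real.sin a0 * (c - a0) ≤ Real.cos a - Real.sin a * (c - a) := by
  have hm : AntitoneOn (fun a : ℝ => Real.cos a - Real.sin a * (c - a)) (Icc 0 0.66) := by
    refine antitoneOn_of_deriv_nonpos (convex_Icc 0 0.66) (by fun_prop) (by fun_prop) ?_
    intro y hy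
    rw [interior_Icc, mem_Ioo] at hy
    have h1 : HasDerivAt (fun a : ℝ => c - a) (-1) y := (hasDerivAt_id' y).const_sub c
    have hd := (Real.hasDerivAt_cos y).sub ((Real.hasDerivAt_sin y).mul h1)
    have hd' : HasDerivAt (fun a : ℝ => Real.cos a - Real.sin a * (c - a)) _ y := hd
    rw [hd'.deriv]
    obtain ⟨hs, hcc⟩ := sincos_nonneg hy.1.le hy.2.le
    have h4 : 0 ≤ c - y := by linarith
    have := mul_nonneg hcc h4
    linarith
  exact hm ⟨ha, h.trans ha0⟩ ⟨ha.trans h, ha0⟩ h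

/-- `1 - cos x ≥ x²/2 - x⁴/24 ≥ x²/3` for `0 ≤ x ≤ 2` -/
theorem NN_Y1 {R g x : ℝ} (hR : 0 ≤ R) (hg : 0 ≤ g) (hx : 0 ≤ x) (hx2 : x ≤ 2) :
    NN R (-g) x 0 ≤ -(R / 3 * x ^ 2) := by
  rw [NNx]
  have h1 := cosq hx
  have h2 : x ^ 2 / 3 ≤ 1 - Real.cos x := by
    have h4 : 0 ≤ 4 - x ^ 2 := by nlinarith
    nlinarith [mul_nonneg (sq_nonneg x) h4]
  have h3 : 0 ≤ x - Real.sin x := by linarith [Real.sin_le hx]
  have := mul_le_mul_of_nonneg_left h2 hR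
  have := mul_nonneg hg h3
  linarith

/-- `1 - cos x ≥ 2 - (x - π)²/2 ≥ 1.07` -/
theorem NN_Y2 {R g x : ℝ} (hR : 0 ≤ R) (hg : 0 ≤ g) (hx : 2 ≤ x) (hx2 : x ≤ 4.5) :
    NN R (-g) x 0 ≤ -(1.07 * R) := by
  rw [NNx]
  have hpi := Real.pi_gt_d4
  have hpi2 := Real.pi_lt_d4
  have h1 : Real.cos x = -Real.cos (x - Real.pi) := by rw [Real.cos_sub_pi, neg_neg]
  have h2 := Real.one_sub_sq_div_two_le_cos (x := x - Real.pi)
  have h3 : (x - Real.pi) ^ 2 ≤ 1.359 ^ 2 := by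
    apply sq_le_sq'
    · linarith
    · linarith
  have h4 : 1.07 ≤ 1 - Real.cos x := by rw [h1]; nlinarith
  have h5 : 0 ≤ x - Real.sin x := by linarith [Real.sin_le (by linarith : 0 ≤ x)]
  have := mul_le_mul_of_nonneg_left h4 hR
  have := mul_nonneg hg h5
  linarith

/-- `NN = -R + ρ cos (x - a) - g x ≤ ρ (1 - cos a) - g x`, `1 - cos a = sin a tan (a/2) ≤ 0.36 sin a` -/
theorem NN_Y3 {ρ a x : ℝ} (hρ : 0 ≤ ρ) (ha : 0 ≤ a) (ha2 : a ≤ 0.66) :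
    NN (ρ * Real.cos a) (-(ρ * Real.sin a)) x 0 ≤ -(ρ * Real.sin a * (x - 0.36)) := by
  rw [NNx]
  obtain ⟨hs, hc⟩ := sincos_nonneg ha ha2
  have h1 : Real.cos (x - a) ≤ 1 := Real.cos_le_one _
  rw [Real.cos_sub] at h1
  have h2 : 1 - Real.cos a ≤ 0.36 * Real.sin a := by
    have e1 : Real.cos a = 1 - 2 * Real.sin (a / 2) ^ 2 := by
      have := Real.cos_two_mul (a / 2)
      have h3 := Real.sin_sq_add_cos_sq (a / 2)
      rw [mul_div_cancel₀ a two_ne_zero] at this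
      rw [this]
      linarith
    have e2 : Real.sin a = 2 * Real.sin (a / 2) * Real.cos (a / 2) := by
      have := Real.sin_two_mul (a / 2)
      rwa [mul_div_cancel₀ a two_ne_zero] at this
    obtain ⟨hs', hc'⟩ := sincos_nonneg (a := a / 2) (by linarith) (by linarith)
    have h3 : Real.sin (a / 2) ≤ a / 2 := Real.sin_le (by linarith)
    have h4 := Real.one_sub_sq_div_two_le_cos (x := a / 2)
    have h5 : Real.sin (a / 2) ≤ 0.36 * Real.cos (a / 2) := by nlinarith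
    rw [e1, e2]
    nlinarith [mul_le_mul_of_nonneg_left h5 hs']
  have h3 : ρ * (Real.cos x * Real.cos a + Real.sin x * Real.sin a - Real.cos a) ≤
      ρ * (0.36 * Real.sin a) := by
    apply mul_le_mul_of_nonneg_left _ hρ
    linarith
  linarith

/-- `NN (-y) 0 = -R (1 - cos y) + g (y - sin y)`, `1 - cos y ≥ y²/2 - y⁴/24`, `y - sin y ≤ y³/6` -/
theorem NN_Y4 {ρ a y Y k : ℝ} (hρ : 0 ≤ ρ) (ha : 0 ≤ a) (ha2 : a ≤ 0.66) (hy : 0 ≤ y) (hY : y ≤ Y)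
    (hk : k ≤ Real.cos a * (1 / 2 - Y ^ 2 / 24) - Real.sin a * (Y / 6)) :
    NN (ρ * Real.cos a) (-(ρ * Real.sin a)) (-y) 0 ≤ -(k * ρ * y ^ 2) := by
  rw [NNx]
  obtain ⟨hs, hc⟩ := sincos_nonneg ha ha2
  rw [Real.cos_neg, Real.sin_neg]
  have h1 := cosq hy
  have h2 := Real.sin_ge_sub_cube hy
  have h3 : Real.cos a * (y ^ 2 / 2 - y ^ 4 / 24) ≤ Real.cos a * (1 - Real.cos y) :=
    mul_le_mul_of_nonneg_left (by linarith) hc
  have h4 : Real.sin a * (y - Real.sin y) ≤ Real.sin a * (y ^ 3 / 6) :=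
    mul_le_mul_of_nonneg_left (by linarith) hs
  have h5 : Real.cos a * (1 / 2 - Y ^ 2 / 24) ≤ Real.cos a * (1 / 2 - y ^ 2 / 24) :=
    mul_le_mul_of_nonneg_left (by nlinarith) hc
  have h6 : Real.sin a * (y / 6) ≤ Real.sin a * (Y / 6) :=
    mul_le_mul_of_nonneg_left (by linarith) hs
  have h7 : k ≤ Real.cos a * (1 / 2 - y ^ 2 / 24) - Real.sin a * (y / 6) := by linarith
  have h8 : y ^ 2 * k ≤ y ^ 2 * (Real.cos a * (1 / 2 - y ^ 2 / 24) - Real.sin a * (y / 6)) :=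
    mul_le_mul_of_nonneg_left h7 (sq_nonneg y)
  have h9 : y ^ 2 * k ≤ Real.cos a * (1 - Real.cos y) - Real.sin a * (y - Real.sin y) := by
    have e : y ^ 2 * (Real.cos a * (1 / 2 - y ^ 2 / 24) - Real.sin a * (y / 6)) =
      Real.cos a * (y ^ 2 / 2 - y ^ 4 / 24) - Real.sin a * (y ^ 3 / 6) := by ring
    linarith
  have h10 := mul_le_mul_of_nonneg_left h9 hρ
  linarith

/-- vertical leg at `p = -(π/2 - a + 1/2)`: `NN = -(E ρ) + v (Y - R) - ρ sin(1/2) (e^v - 1)`, with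
`E = cos a + sin (1/2) - sin a Y`, `Y = π/2 - a + 1/2`, and `e^v - 1 ≥ v + v²/2` -/
theorem NN_Y5 {ρ a Y v : ℝ} (hρ : 0 ≤ ρ) (hY : Y = Real.pi / 2 - a + 1 / 2) (hv : 0 ≤ v)
    (hYR : Y - ρ * Real.cos a ≤ ρ * Real.sin (1 / 2)) :
    NN (ρ * Real.cos a) (-(ρ * Real.sin a)) (-Y) (-v) ≤
      -((Real.cos a + Real.sin (1 / 2) - Real.sin a * Y) * ρ) - ρ * Real.sin (1 / 2) / 2 * v ^ 2 := by
  have h1 : Real.cos (Y + a) = -Real.sin (1 / 2) := by
    have : Y + a = 1 / 2 + Real.pi / 2 := by rw [hY]; ring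
    rw [this, Real.cos_add_pi_div_two]
  rw [Real.cos_add] at h1
  have e : NN (ρ * Real.cos a) (-(ρ * Real.sin a)) (-Y) (-v) =
      -((Real.cos a - Real.sin a * Y) * ρ) + v * (Y - ρ * Real.cos a) +
        Real.exp v * (ρ * (Real.cos Y * Real.cos a - Real.sin Y * Real.sin a)) := by
    unfold NN
    rw [neg_neg, Real.cos_neg, Real.sin_neg]
    ring
  rw [e, h1]
  have h2 := Real.quadratic_le_exp_of_nonneg hv
  have hs : 0 ≤ ρ * Real.sin (1 / 2) := by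
    apply mul_nonneg hρ
    have hpi := Real.pi_gt_d4
    exact Real.sin_nonneg_of_nonneg_of_le_pi (by norm_num) (by linarith)
  have h3 : ρ * Real.sin (1 / 2) * (1 + v + v ^ 2 / 2) ≤ ρ * Real.sin (1 / 2) * Real.exp v :=
    mul_le_mul_of_nonneg_left h2 hs
  have h4 : v * (Y - ρ * Real.cos a) ≤ v * (ρ * Real.sin (1 / 2)) := mul_le_mul_of_nonneg_left hYR hv
  linarith

/-- numerical lower bounds of `k(a) = cos a (1/2 - Y²/24) - sin a Y/6`, `E(a) = cos a + sin (1/2) - sin a Y`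
(`Y = π/2 - a + 1/2`; both are decreasing in `a`) -/
theorem kE_66 {a Y : ℝ} (ha : 0 ≤ a) (ha2 : a ≤ 0.66) (hY : Y = Real.pi / 2 - a + 1 / 2) :
    0.185 ≤ Real.cos a * (1 / 2 - Y ^ 2 / 24) - Real.sin a * (Y / 6) ∧
      0.4 ≤ Real.cos a + Real.sin (1 / 2) - Real.sin a * Y := by
  have hpi := Real.pi_gt_d6
  have hpi2 := Real.pi_lt_d6
  obtain ⟨c, hc⟩ : ∃ c : ℝ, c = Real.pi / 2 + 1 / 2 := ⟨_, rfl⟩
  have hY' : Y = c - a := by rw [hY, hc]; ring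
  have h1 := kmono (c := c) ha ha2 (by norm_num) (by rw [hc]; linarith) (by rw [hc]; linarith)
  have h2 := emono (c := c) ha ha2 (by norm_num) (by rw [hc]; linarith) (by rw [hc]; linarith)
  rw [← hY'] at h1 h2
  have hs := sinq (x := 0.66) (by norm_num)
  have hc1 := cosq' (x := 0.66) (by norm_num)
  have hh := Real.sin_ge_sub_cube (x := 1 / 2) (by norm_num)
  obtain ⟨hs0, hc0⟩ := sincos_nonneg (a := 0.66) (by norm_num) (by norm_num)
  obtain ⟨Z, hZ⟩ : ∃ Z : ℝ, Z = c - 0.66 := ⟨_, rfl⟩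
  have hZ1 : 1.4107 ≤ Z := by rw [hZ, hc]; linarith
  have hZ2 : Z ≤ 1.4109 := by rw [hZ, hc]; linarith
  rw [← hZ] at h1 h2
  have h3 : (1 - 0.66 ^ 2 / 2 + 0.66 ^ 4 / 24 - 0.66 ^ 6 / 720) * (1 / 2 - 1.4109 ^ 2 / 24) ≤
      Real.cos 0.66 * (1 / 2 - Z ^ 2 / 24) :=
    mul_le_mul hc1 (by nlinarith) (by norm_num) hc0
  have h4 : Real.sin 0.66 * (Z / 6) ≤ (0.66 - 0.66 ^ 3 / 6 + 0.66 ^ 5 / 120) * (1.4109 / 6) :=
    mul_le_mul hs (by linarith) (by linarith) (by norm_num)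
  have h5 : Real.sin 0.66 * Z ≤ (0.66 - 0.66 ^ 3 / 6 + 0.66 ^ 5 / 120) * 1.4109 :=
    mul_le_mul hs hZ2 (by linarith) (by norm_num)
  norm_num at h3 h4 h5 hc1 hh
  constructor
  · norm_num at h1 ⊢
    linarith
  · norm_num at h2 ⊢
    linarith

theorem kE_48 {a Y : ℝ} (ha : 0 ≤ a) (ha2 : a ≤ 0.48) (hY : Y = Real.pi / 2 - a + 1 / 2) :
    0.22 ≤ Real.cos a * (1 / 2 - Y ^ 2 / 24) - Real.sin a * (Y / 6) ∧
      0.6 ≤ Real.cos a + Real.sin (1 / 2) - Real.sin a * Y := by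
  have hpi := Real.pi_gt_d6
  have hpi2 := Real.pi_lt_d6
  obtain ⟨c, hc⟩ : ∃ c : ℝ, c = Real.pi / 2 + 1 / 2 := ⟨_, rfl⟩
  have hY' : Y = c - a := by rw [hY, hc]; ring
  have h1 := kmono (c := c) ha ha2 (by norm_num) (by rw [hc]; linarith) (by rw [hc]; linarith)
  have h2 := emono (c := c) ha ha2 (by norm_num) (by rw [hc]; linarith) (by rw [hc]; linarith)
  rw [← hY'] at h1 h2
  have hs := sinq (x := 0.48) (by norm_num)
  have hc1 := cosq' (x := 0.48) (by norm_num)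
  have hh := Real.sin_ge_sub_cube (x := 1 / 2) (by norm_num)
  obtain ⟨hs0, hc0⟩ := sincos_nonneg (a := 0.48) (by norm_num) (by norm_num)
  obtain ⟨Z, hZ⟩ : ∃ Z : ℝ, Z = c - 0.48 := ⟨_, rfl⟩
  have hZ1 : 1.5907 ≤ Z := by rw [hZ, hc]; linarith
  have hZ2 : Z ≤ 1.5909 := by rw [hZ, hc]; linarith
  rw [← hZ] at h1 h2
  have h3 : (1 - 0.48 ^ 2 / 2 + 0.48 ^ 4 / 24 - 0.48 ^ 6 / 720) * (1 / 2 - 1.5909 ^ 2 / 24) ≤
      Real.cos 0.48 * (1 / 2 - Z ^ 2 / 24) :=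
    mul_le_mul hc1 (by nlinarith) (by norm_num) hc0
  have h4 : Real.sin 0.48 * (Z / 6) ≤ (0.48 - 0.48 ^ 3 / 6 + 0.48 ^ 5 / 120) * (1.5909 / 6) :=
    mul_le_mul hs (by linarith) (by linarith) (by norm_num)
  have h5 : Real.sin 0.48 * Z ≤ (0.48 - 0.48 ^ 3 / 6 + 0.48 ^ 5 / 120) * 1.5909 :=
    mul_le_mul hs hZ2 (by linarith) (by norm_num)
  norm_num at h3 h4 h5 hc1 hh
  constructor
  · norm_num at h1 ⊢
    linarith
  · norm_num at h2 ⊢
    linarith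

theorem kE_38 {a Y : ℝ} (ha : 0 ≤ a) (ha2 : a ≤ 0.38) (hY : Y = Real.pi / 2 - a + 1 / 2) :
    0.24 ≤ Real.cos a * (1 / 2 - Y ^ 2 / 24) - Real.sin a * (Y / 6) ∧
      0.7 ≤ Real.cos a + Real.sin (1 / 2) - Real.sin a * Y := by
  have hpi := Real.pi_gt_d6
  have hpi2 := Real.pi_lt_d6
  obtain ⟨c, hc⟩ : ∃ c : ℝ, c = Real.pi / 2 + 1 / 2 := ⟨_, rfl⟩
  have hY' : Y = c - a := by rw [hY, hc]; ring
  have h1 := kmono (c := c) ha ha2 (by norm_num) (by rw [hc]; linarith) (by rw [hc]; linarith)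
  have h2 := emono (c := c) ha ha2 (by norm_num) (by rw [hc]; linarith) (by rw [hc]; linarith)
  rw [← hY'] at h1 h2
  have hs := sinq (x := 0.38) (by norm_num)
  have hc1 := cosq' (x := 0.38) (by norm_num)
  have hh := Real.sin_ge_sub_cube (x := 1 / 2) (by norm_num)
  obtain ⟨hs0, hc0⟩ := sincos_nonneg (a := 0.38) (by norm_num) (by norm_num)
  obtain ⟨Z, hZ⟩ : ∃ Z : ℝ, Z = c - 0.38 := ⟨_, rfl⟩
  have hZ1 : 1.6907 ≤ Z := by rw [hZ, hc]; linarith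
  have hZ2 : Z ≤ 1.6909 := by rw [hZ, hc]; linarith
  rw [← hZ] at h1 h2
  have h3 : (1 - 0.38 ^ 2 / 2 + 0.38 ^ 4 / 24 - 0.38 ^ 6 / 720) * (1 / 2 - 1.6909 ^ 2 / 24) ≤
      Real.cos 0.38 * (1 / 2 - Z ^ 2 / 24) :=
    mul_le_mul hc1 (by nlinarith) (by norm_num) hc0
  have h4 : Real.sin 0.38 * (Z / 6) ≤ (0.38 - 0.38 ^ 3 / 6 + 0.38 ^ 5 / 120) * (1.6909 / 6) :=
    mul_le_mul hs (by linarith) (by linarith) (by norm_num)
  have h5 : Real.sin 0.38 * Z ≤ (0.38 - 0.38 ^ 3 / 6 + 0.38 ^ 5 / 120) * 1.6909 :=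
    mul_le_mul hs hZ2 (by linarith) (by norm_num)
  norm_num at h3 h4 h5 hc1 hh
  constructor
  · norm_num at h1 ⊢
    linarith
  · norm_num at h2 ⊢
    linarith

end Sok.Mid
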