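import Pool.Agent.Lib.MP_816dec_an.MY
import Pool.Agent.Lib.MP_816dec_an.MNNY
import Pool.Agent.Lib.MP_816dec_an.MIVT

/-!
MP_816dec_an, `b = 1`, middle range: the right saddle and its contour exist for all `t` of the window.
-/

set_option autoImplicit false

open Complex Set Filter Topology MeasureTheory Sok.W

namespace Sok.Mid

private theorem sin_ge_cubic {x : ℝ} (hx : 0 ≤ x) : x - x ^ 3 / 6 ≤ Real.sin x := by
  have hmono : MonotoneOn (fun x : ℝ => Real.sin x - (x - x ^ 3 / 6)) (Ici 0) := by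
    apply monotoneOn_of_deriv_nonneg (convex_Ici 0)
    · fun_prop
    · fun_prop
    · intro y _
      have hd : HasDerivAt (fun x : ℝ => Real.sin x - (x - x ^ 3 / 6)) (Real.cos y - (1 - (3 * y ^ 2) / 6)) y := by
        have h1 := (Real.hasDerivAt_sin y).sub ((hasDerivAt_id y).sub (((hasDerivAt_pow 3 y)).div_const 6))
        refine h1.congr_deriv ?_
        norm_num
      rw [hd.deriv]
      have := Real.one_sub_sq_div_two_le_cos (x := y)
      linarith
  have h := hmono (mem_Ici.2 le_rfl) (mem_Ici.2 hx) hx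
  simp only [Real.sin_zero] at h
  norm_num at h
  linarith

private theorem arcsin_le_of {x A : ℝ} (hA : 0 ≤ A) (hA2 : A ≤ 1.5) (h : x ≤ A - A ^ 3 / 6) : Real.arcsin x ≤ A := by
  have hpi := Real.pi_gt_d6
  rw [← Real.arcsin_sin (x := A) (by linarith) (by linarith)]
  exact Real.monotone_arcsin (h.trans (sin_ge_cubic hA))

private theorem exp_09 : 2.4596 ≤ Real.exp 0.9 ∧ Real.exp 0.9 ≤ 2.4597 := by
  constructor
  · have h := Real.sum_le_exp_of_nonneg (x := 0.9) (by norm_num) 10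
    simp only [Finset.sum_range_succ, Finset.sum_range_zero, Nat.factorial] at h
    norm_num at h ⊢
    linarith
  · have h := Real.exp_bound' (x := 0.9) (n := 10) (by norm_num) (by norm_num) (by norm_num)
    simp only [Finset.sum_range_succ, Finset.sum_range_zero, Nat.factorial] at h
    norm_num at h ⊢
    linarith

private theorem exp_11 : 3.0041 ≤ Real.exp 1.1 ∧ Real.exp 1.1 ≤ 3.0043 := by
  have e : Real.exp 1.1 = Real.exp 0.55 * Real.exp 0.55 := by rw [← Real.exp_add]; norm_num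
  rw [e]
  have h1 : 1.73325 ≤ Real.exp 0.55 := by
    have h := Real.sum_le_exp_of_nonneg (x := 0.55) (by norm_num) 10
    simp only [Finset.sum_range_succ, Finset.sum_range_zero, Nat.factorial] at h
    norm_num at h ⊢
    linarith
  have h2 : Real.exp 0.55 ≤ 1.73326 := by
    have h := Real.exp_bound' (x := 0.55) (n := 10) (by norm_num) (by norm_num) (by norm_num)
    simp only [Finset.sum_range_succ, Finset.sum_range_zero, Nat.factorial] at h
    norm_num at h ⊢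
    linarith
  constructor
  · calc (3.0041 : ℝ) ≤ 1.73325 * 1.73325 := by norm_num
      _ ≤ _ := mul_le_mul h1 h1 (by norm_num) (by linarith)
  · calc _ ≤ (1.73326 : ℝ) * 1.73326 := mul_le_mul h2 h2 (by linarith) (by norm_num)
      _ ≤ _ := by norm_num

/-- the saddle -/
private theorem saddle_Y {κ p : ℝ} (h1 : 0.6 ≤ κ) (h2 : κ ≤ 1.3) (hp1 : 1.08318 + 2 * κ ≤ p) (hp2 : p ≤ 6.4) :
    ∃ a g : ℝ, 0.9 ≤ g ∧ g ≤ 3 ∧ 0 ≤ a ∧ a ≤ 0.66 ∧ κ * Real.exp g * Real.cos a = p - a ∧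
      κ * Real.exp g * Real.sin a = g := by
  have hκ : 0 < κ := by linarith
  have hpi := Real.pi_gt_d6
  have hpi' := Real.pi_lt_d6
  have he1 : Real.exp (-1) ≤ 0.36789 := by
    have := Real.exp_neg_one_lt_d9; linarith
  have s66 := sin_ge_cubic (x := 0.66) (by norm_num)
  have s67 := sin_ge_cubic (x := 0.67) (by norm_num)
  -- upper end
  have hr : p ≤ Real.arcsin (3 * Real.exp (-3) / κ) + Real.sqrt (κ ^ 2 * Real.exp (2 * 3) - 3 ^ 2) := by
    have h3 : 0 ≤ Real.arcsin (3 * Real.exp (-3) / κ) := Real.arcsin_nonneg.2 (by positivity)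
    have h4 : (7 : ℝ) ≤ Real.sqrt (κ ^ 2 * Real.exp (2 * 3) - 3 ^ 2) := by
      apply Real.le_sqrt_of_sq_le
      have h5 : (400 : ℝ) ≤ Real.exp (2 * 3) := by
        have e : Real.exp (2 * 3) = Real.exp 1 ^ 6 := by rw [← Real.exp_nat_mul]; norm_num
        rw [e]
        have := Real.exp_one_gt_d9
        calc (400 : ℝ) ≤ 2.718 ^ 6 := by norm_num
          _ ≤ _ := pow_le_pow_left₀ (by norm_num) (by linarith) 6
      have h6 : (0.36 : ℝ) ≤ κ ^ 2 := by nlinarith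
      nlinarith
    have h7 := add_le_add h3 h4
    exact le_trans (by linarith) h7
  rcases le_or_gt κ 0.65 with h | h
  · -- `κ ≤ 0.65`, `g₁ = 1.1`
    have hE : 1.1 * Real.exp (-1.1) ≤ 0.3662 := by
      rw [Real.exp_neg]
      have h3 : (Real.exp 1.1)⁻¹ ≤ (3.0041)⁻¹ := inv_anti₀ (by norm_num) exp_11.1
      have h4 : (1.1 : ℝ) * (3.0041)⁻¹ ≤ 0.3662 := by norm_num
      linarith
    have hl : Real.arcsin (1.1 * Real.exp (-1.1) / κ) + Real.sqrt (κ ^ 2 * Real.exp (2 * 1.1) - 1.1 ^ 2) ≤ p := by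
      have h3 : Real.arcsin (1.1 * Real.exp (-1.1) / κ) ≤ 0.66 := by
        apply arcsin_le_of (by norm_num) (by norm_num)
        rw [div_le_iff₀ hκ]
        norm_num at hE ⊢
        nlinarith
      have h4 : Real.sqrt (κ ^ 2 * Real.exp (2 * 1.1) - 1.1 ^ 2) ≤ 0.42318 + 2 * κ := by
        refine Real.sqrt_le_iff.2 ⟨by linarith, ?_⟩
        have e : Real.exp (2 * 1.1) = Real.exp 1.1 * Real.exp 1.1 := by rw [← Real.exp_add]; congr 1; ring
        have h5 : Real.exp (2 * 1.1) ≤ 9.026 := by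
          rw [e]
          calc _ ≤ (3.0043 : ℝ) * 3.0043 := mul_le_mul exp_11.2 exp_11.2 (Real.exp_pos _).le (by norm_num)
            _ ≤ _ := by norm_num
        have h6 : κ ^ 2 * Real.exp (2 * 1.1) ≤ κ ^ 2 * 9.026 := mul_le_mul_of_nonneg_left h5 (sq_nonneg _)
        nlinarith
      linarith
    obtain ⟨a, g, g1, g2, a1, a2, hc, hs⟩ := exists_sad_Y (κ := κ) (p := p) (g1 := 1.1) (g2 := 3) (A := 0.67) hκ
      (by norm_num) (by norm_num) (by norm_num) (by linarith) (by norm_num at s67 ⊢; nlinarith) hl hr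
    refine ⟨a, g, by linarith, g2, a1, ?_, hc, hs⟩
    -- `sin a ≤ 0.6121 ≤ sin 0.66`
    by_contra hcon
    rw [not_le] at hcon
    have h3 : Real.sin 0.66 < Real.sin a := Real.sin_lt_sin_of_lt_of_le_pi_div_two (by linarith) (by linarith) hcon
    have h4 : g * Real.exp (-g) ≤ 1.1 * Real.exp (-1.1) := by
      have e : Real.exp (-1.1) = Real.exp (-g) * Real.exp (g - 1.1) := by rw [← Real.exp_add]; congr 1; ring
      rw [e]
      have h5 := Real.add_one_le_exp (g - 1.1)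
      have h6 := Real.exp_pos (-g)
      have h7 : g ≤ 1.1 * Real.exp (g - 1.1) := by nlinarith
      nlinarith
    have h5 : κ * Real.sin a = g * Real.exp (-g) := by
      have h6 : Real.exp g * Real.exp (-g) = 1 := by rw [← Real.exp_add]; simp
      calc κ * Real.sin a = κ * Real.sin a * (Real.exp g * Real.exp (-g)) := by rw [h6, mul_one]
        _ = (κ * Real.exp g * Real.sin a) * Real.exp (-g) := by ring
        _ = _ := by rw [hs]
    have h6 : 0.6 * Real.sin a ≤ κ * Real.sin a := by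
      apply mul_le_mul_of_nonneg_right h1
      linarith [sin_ge_cubic (x := 0.66) (by norm_num), (show (0:ℝ) ≤ 0.66 - 0.66 ^ 3 / 6 by norm_num)]
    norm_num at s66 h3 h4 h5 h6 hE ⊢
    linarith
  · -- `κ ≥ 0.65`, `g₁ = 0.9`
    have hE : 0.9 * Real.exp (-0.9) ≤ 0.36592 := by
      rw [Real.exp_neg]
      have h3 : (Real.exp 0.9)⁻¹ ≤ (2.4596)⁻¹ := inv_anti₀ (by norm_num) exp_09.1
      have h4 : (0.9 : ℝ) * (2.4596)⁻¹ ≤ 0.36592 := by norm_num
      linarith
    have hl : Real.arcsin (0.9 * Real.exp (-0.9) / κ) + Real.sqrt (κ ^ 2 * Real.exp (2 * 0.9) - 0.9 ^ 2) ≤ p := by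
      have h4 : Real.sqrt (κ ^ 2 * Real.exp (2 * 0.9) - 0.9 ^ 2) ≤ 2.4597 * κ := by
        refine Real.sqrt_le_iff.2 ⟨by linarith, ?_⟩
        have e : Real.exp (2 * 0.9) = Real.exp 0.9 * Real.exp 0.9 := by rw [← Real.exp_add]; congr 1; ring
        have h5 : Real.exp (2 * 0.9) ≤ 2.4597 * 2.4597 := by
          rw [e]
          exact mul_le_mul exp_09.2 exp_09.2 (Real.exp_pos _).le (by norm_num)
        have h6 : κ ^ 2 * Real.exp (2 * 0.9) ≤ κ ^ 2 * (2.4597 * 2.4597) := mul_le_mul_of_nonneg_left h5 (sq_nonneg _)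
        nlinarith
      rcases le_or_gt κ 0.9 with h' | h'
      · have h3 : Real.arcsin (0.9 * Real.exp (-0.9) / κ) ≤ 0.66 := by
          apply arcsin_le_of (by norm_num) (by norm_num)
          rw [div_le_iff₀ hκ]
          norm_num at hE ⊢
          nlinarith
        linarith
      · have h3 : Real.arcsin (0.9 * Real.exp (-0.9) / κ) ≤ 0.42 := by
          apply arcsin_le_of (by norm_num) (by norm_num)
          rw [div_le_iff₀ hκ]
          norm_num at hE ⊢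
          nlinarith
        linarith
    obtain ⟨a, g, g1, g2, a1, a2, hc, hs⟩ := exists_sad_Y (κ := κ) (p := p) (g1 := 0.9) (g2 := 3) (A := 0.66) hκ
      (by norm_num) (by norm_num) (by norm_num) (by linarith) (by norm_num at s66 ⊢; nlinarith) hl hr
    exact ⟨a, g, g1, g2, a1, a2, hc, hs⟩

/-- recipe: `κ = β r`, `p = 2π - t`, `exists_sad_Y` with `g1 = 0.9`, `g2 = 3`, `A = 0.66`
(`e^{-1} ≤ 0.6 sin 0.66`; `hl`: `arcsin ≤ 0.66` for `κ ≤ 1`, `≤ 0.38` for `κ ≥ 1` (`0.9 e^{-0.9} ≤ 0.3660`,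
`e^{-1} ≤ κ sin A`), `√(κ² e^{1.8} - 0.81) ≤ κ e^{0.9} - 0.81/(2 κ e^{0.9})`, `e^{0.9} ≤ 2.4597`, against
`p ≥ 2π - 5.2 + 2κ`; `hr`: `√(κ² e^6 - 9) ≥ 7 ≥ 2π + β/2`). The saddle of `gs` is `α - g i`, `α = 2π - a`:
`κ e^g cos α = α - t`, `κ e^g sin α = -g`. Exponents: `NN_Y1 .. NN_Y5`, `kE_66` with `ρ = κ e^g`, `R = ρ cos a`
(`α - t = R`; rewrite `g = ρ sin a`). `W = π/2 - a + 1/2`, `α - W = 3π/2 - 1/2`. `NN_Y5` needs
`W - R ≤ ρ sin (1/2)`: `W - R = π/2 + 1/2 - p ≤ 0`. `β < ρ sin(1/2)` as `ρ ≥ 0.6 * 2.4`, `β ≤ 0.13`,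
`sin (1/2) ≥ 0.47`. -/
theorem exists_YHyp {β r t : ℝ} (hr : 10 ≤ r) (hβ : 0 < β) (h1 : 0.6 ≤ β * r) (h2 : β * r ≤ 1.3)
    (ht0 : -(β / 2) ≤ t) (ht1 : t ≤ 5.2 - 2 * (β * r)) :
    ∃ a g ρ : ℝ, 0.9 ≤ g ∧ g ≤ 3 ∧ 0 ≤ a ∧ a ≤ 0.66 ∧ ρ = β * r * Real.exp g ∧ ρ * Real.sin a = g ∧
      ρ * Real.cos a = 2 * Real.pi - a - t ∧
      YHyp β r t (2 * Real.pi - a) g (4 / 5) (Real.pi / 2 - a + 1 / 2) (ρ * Real.cos a / 3) (0.185 * ρ)
        (1.07 * (ρ * Real.cos a)) (0.4 * ρ) (ρ * Real.sin (1 / 2)) := by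
  have hpi := Real.pi_gt_d6
  have hpi' := Real.pi_lt_d6
  have hβ1 : β ≤ 0.13 := by nlinarith
  have hr0 : 0 < r := by linarith
  obtain ⟨a, g, hg1, hg2, ha0, ha1, hc, hs⟩ := saddle_Y (κ := β * r) (p := 2 * Real.pi - t) h1 h2 (by linarith) (by linarith)
  obtain ⟨ρ, hρ⟩ : ∃ ρ : ℝ, ρ = β * r * Real.exp g := ⟨_, rfl⟩
  rw [← hρ] at hc hs
  have hρ1 : 1.44 ≤ ρ := by
    have h3 : 2.4596 ≤ Real.exp g := exp_09.1.trans (Real.exp_le_exp.2 hg1)
    rw [hρ]
    nlinarith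
  have hρ0 : 0 < ρ := by linarith
  have hR : ρ * Real.cos a = 2 * Real.pi - a - t := by linarith
  have hcos : 0 < Real.cos a := Real.cos_pos_of_mem_Ioo ⟨by linarith, by linarith⟩
  have hR0 : 0 < ρ * Real.cos a := mul_pos hρ0 hcos
  have hsin12 : 0.47 ≤ Real.sin (1 / 2) := by
    have := sin_ge_cubic (x := 1 / 2) (by norm_num)
    norm_num at this ⊢
    linarith
  obtain ⟨W, hW⟩ : ∃ W : ℝ, W = Real.pi / 2 - a + 1 / 2 := ⟨_, rfl⟩
  obtain ⟨k1, k2⟩ := kE_66 ha0 ha1 hW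
  refine ⟨a, g, ρ, hg1, hg2, ha0, ha1, hρ, hs, hR, ?_⟩
  rw [← hW]
  have hαt : 2 * Real.pi - a - t = ρ * Real.cos a := hR.symm
  refine ⟨⟨hβ, hr0, ?_, ?_⟩, by linarith, by norm_num, by norm_num, by linarith, by linarith, by positivity,
    by positivity, ?_, ?_, ?_, ?_, ?_, ?_, ?_⟩
  · rw [neg_neg, ← hρ, Real.cos_two_pi_sub]; exact hR
  · rw [neg_neg, ← hρ, Real.sin_two_pi_sub, mul_neg, hs]
  · nlinarith
  · rw [hW, abs_lt]
    constructor <;> linarith
  · intro x hx hx2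
    rw [hαt]
    exact NN_Y1 hR0.le (by linarith) hx hx2
  · intro x hx hx2
    rw [hαt]
    exact NN_Y2 hR0.le (by linarith) hx hx2
  · intro x hx
    rw [hαt]
    have := NN_Y3 (x := x) hρ0.le ha0 ha1
    rw [hs] at this
    exact this
  · intro y hy hyW
    rw [hαt]
    have := NN_Y4 (k := 0.185) hρ0.le ha0 ha1 hy hyW k1
    rw [hs] at this
    exact this
  · intro v hv
    rw [hαt]
    have := NN_Y5 (ρ := ρ) (a := a) hρ0.le hW hv (by
      rw [hR, hW]
      have : 0 ≤ ρ * Real.sin (1 / 2) := by positivity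
      linarith)
    rw [hs] at this
    refine this.trans ?_
    have h5 := mul_le_mul_of_nonneg_right k2 hρ0.le
    linarith

end Sok.Mid
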