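import Pool.Agent.Lib.MP_816dec_an.MYfin
import Pool.Agent.Lib.MP_816dec_an.MYH
import Pool.Agent.Lib.MP_816dec_an.MXtab
import Pool.Agent.Lib.MP_816dec_an.MXH
import Pool.Agent.Lib.MP_816dec_an.MXS
import Pool.Agent.Lib.MP_816dec_an.MWindow

/-!
MP_816dec_an, `b = 1`, middle range: `0.6 ≤ κ = β r ≤ 1.3`, `r ≥ 10`.
-/

set_option autoImplicit false

open Complex Set Filter Topology MeasureTheory Sok.W

namespace Sok.Mid

/-- the left function on one interval of `κ` -/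
theorem X_part {β r t α h h0 hb ρ0 η0 b0 sd c c1 c2 σ1 qη q1 q2 E1 E2 E3 E4 ε M E0 hmax : ℝ}
    (N : XNum ρ0 η0 b0 sd c c1 c2 σ1 qη q1 q2 E1 E2 E3 E4 ε M E0) (hβ : 0 < β) (hβ2 : β ≤ 0.13) (hr : 0 < r)
    (hβb : β ≤ b0 ^ 2) (hκ : 0.6 ≤ β * r) (hη : η0 = 1 + h0) (h0' : -0.13 ≤ h0) (hh0 : h0 ≤ h)
    (hhe : h * Real.exp h ≤ β * r) (hhm : h ≤ hmax) (hhm2 : hmax ≤ 0.67)
    (hc : β * r * Real.exp (-h) * Real.cos α = α - t) (hs : β * r * Real.exp (-h) * Real.sin α = h)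
    (hα : (0 ≤ α ∧ α ≤ Real.pi / 2 ∧ hb ≤ h) ∨ (Real.pi / 2 ≤ α ∧ α ≤ 3 * Real.pi / 2))
    (hb0 : 0 < hb) (hbs : 0.3 * (β * r) ≤ hb * Real.exp hb) (hρ : β * r * Real.exp (-h) ≤ ρ0) (hρ0 : ρ0 ≤ 1.07)
    (n1 : c1 + 2 * 1.4143 * 0.1972 * ρ0 * (16 / 25) ≤ 1 + h0)
    (n2 : c2 + 0.4715 * ρ0 * (53 / 50) ≤ 1 + h0)
    (n3 : σ1 + 0.3465 * ρ0 ≤ h0 + 53 / 50)
    (n4 : 2 * ρ0 * 0.1972 * (1.4143 * (16 / 25)) ≤ (1 - c) * η0)
    (n5 : 1 + 2 * hmax + ρ0 ^ 2 ≤ sd ^ 4) :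
    CC β r t ≠ 0 ∧
      |(I * (r * cexp (I * (t + β / 2))) * CC β r (t + β) / CC β r t).re + h / β| ≤ E0 / β := by
  obtain ⟨xh, hxh, H⟩ := XHyp_of hβ hβ2 hr hc hs hκ hh0 h0' hhe (by linarith) hα hb0 hbs hρ hρ0 N.c10 N.c20
    N.σ10 n1 n2 n3
  have hρp : 0 < β * r * Real.exp (-h) := mul_pos (mul_pos hβ hr) (Real.exp_pos _)
  refine X_final N H hxh hρ (by linarith) hβb ?_ ?_
  · have h1 := normSq_Dx H.sad
    have h2 : ‖Dx t α h‖ ^ 2 ≤ (sd ^ 2) ^ 2 := by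
      rw [h1]
      have h3 : (β * r * Real.exp (-h)) ^ 2 ≤ ρ0 ^ 2 := pow_le_pow_left₀ hρp.le hρ 2
      have e1 : (sd ^ 2) ^ 2 = sd ^ 4 := by ring
      rw [e1]
      linarith
    exact le_of_sq_le_sq h2 (by have := N.sd0; positivity)
  · have s2 : Real.sqrt 2 ≤ 1.4143 := by
      apply Real.sqrt_le_iff.2; norm_num
    have s20 : 0 ≤ Real.sqrt 2 := Real.sqrt_nonneg _
    have hρ00 := N.ρ00
    have hcle := N.cle
    calc 2 * (β * r * Real.exp (-h)) * (1972 / 10000) * (Real.sqrt 2 * (16 / 25))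
        ≤ 2 * ρ0 * (1972 / 10000) * (1.4143 * (16 / 25)) := by gcongr
      _ = 2 * ρ0 * 0.1972 * (1.4143 * (16 / 25)) := by norm_num
      _ ≤ (1 - c) * η0 := n4
      _ ≤ (1 - c) * (1 + h) := mul_le_mul_of_nonneg_left (by linarith) (by linarith)

theorem hexp_le {h m κ : ℝ} (h1 : h * Real.exp h ≤ κ) (hm : 0 < m) (h2 : κ ≤ m * (1 + m + m ^ 2 / 2 + m ^ 3 / 6)) :
    h ≤ m := by
  by_contra hc
  have hc' := not_le.1 hc
  have h3 : 1 + m + m ^ 2 / 2 + m ^ 3 / 6 ≤ Real.exp m := by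
    have h1 := Real.sum_le_exp_of_nonneg hm.le 4
    simp only [Finset.sum_range_succ, Finset.sum_range_zero, Nat.factorial] at h1
    norm_num at h1
    linarith
  have h4 : m * Real.exp m < h * Real.exp h := by
    have h5 : Real.exp m < Real.exp h := Real.exp_lt_exp.2 hc'
    have h6 := Real.exp_pos m
    nlinarith
  nlinarith [mul_le_mul_of_nonneg_left h3 hm.le]

/-- the slope comparison on the window -/
theorem slopes {β r t : ℝ} (hr : 10 ≤ r) (hβ : 0 < β) (hκ1 : 0.6 ≤ β * r) (hκ2 : β * r ≤ 1.3)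
    (ht0 : -(β / 2) ≤ t) (ht1 : t ≤ 5.2 - 2 * (β * r)) :
    CC β r t ≠ 0 ∧ YY β r t ≠ 0 ∧
      (I * (r * cexp (I * (t + β / 2))) * CC β r (t + β) / CC β r t).re <
        (I * (r * cexp (I * (t + β / 2))) * YY β r (t + β) / YY β r t).re := by
  have hr0 : 0 < r := by linarith
  obtain ⟨a, g, ρ, g1, -, ha0, ha1, hρ, hsin, hcos, HY⟩ := exists_YHyp hr hβ hκ1 hκ2 ht0 ht1
  obtain ⟨y0, y1⟩ := Y_final hr hκ2 g1 ha0 ha1 hρ hsin hcos HY
  have hβ13 : β ≤ 0.13 := by nlinarith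
  have fin : ∀ {h E0 : ℝ}, CC β r t ≠ 0 ∧
      |(I * (r * cexp (I * (t + β / 2))) * CC β r (t + β) / CC β r t).re + h / β| ≤ E0 / β →
      E0 + 0.25 < h + 0.9 → CC β r t ≠ 0 ∧ YY β r t ≠ 0 ∧
      (I * (r * cexp (I * (t + β / 2))) * CC β r (t + β) / CC β r t).re <
        (I * (r * cexp (I * (t + β / 2))) * YY β r (t + β) / YY β r t).re := by
    intro h E0 hX hE
    refine ⟨hX.1, y0, ?_⟩
    have h1 := (abs_le.1 hX.2).2
    have h2 := (abs_le.1 y1).1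
    have h3 : (E0 - h) / β < (g - 0.25) / β := div_lt_div_of_pos_right (by linarith) hβ
    have e1 : (E0 - h) / β = E0 / β - h / β := by ring
    have e2 : (g - 0.25) / β = -(0.25 / β) - -g / β := by ring
    rw [e1, e2] at h3
    linarith
  have hρh : ∀ {h κ0 h0 ρ0 : ℝ}, β * r ≤ κ0 → h0 ≤ h → κ0 * Real.exp (-h0) ≤ ρ0 →
      β * r * Real.exp (-h) ≤ ρ0 := by
    intro h κ0 h0 ρ0 h1 h2 h3
    refine le_trans ?_ h3
    have h4 : Real.exp (-h) ≤ Real.exp (-h0) := Real.exp_le_exp.2 (by linarith)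
    exact mul_le_mul h1 h4 (Real.exp_pos _).le (by nlinarith)
  rcases le_total (β * r) 0.7 with hk | hk
  · obtain ⟨α, h, q1, q2, q3, q4, q5⟩ := exists_sad_67 hκ1 hk (by nlinarith) ht1
    refine fin (X_part xnum_67 (h0 := -0.13) (hb := 0.18) (hmax := 0.45) hβ hβ13 hr0 (by nlinarith) hκ1
      (by norm_num) (by norm_num) q1 q2 ?_ (by norm_num) q3 q4 q5 (by norm_num) ?_ ?_ (by norm_num) (by norm_num)
      (by norm_num) (by norm_num) (by norm_num) (by norm_num)) (by linarith)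
    · exact hexp_le q2 (by norm_num) (by norm_num; linarith)
    · have := Real.quadratic_le_exp_of_nonneg (x := 0.18) (by norm_num)
      norm_num at this ⊢
      linarith
    · refine hρh hk q1 ?_
      have := Real.exp_bound' (x := 0.13) (by norm_num) (by norm_num) (n := 5) (by norm_num)
      simp only [Finset.sum_range_succ, Finset.sum_range_zero, Nat.factorial] at this
      norm_num at this ⊢
      linarith
  rcases le_total (β * r) 0.9 with hk2 | hk2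
  · obtain ⟨α, h, q1, q2, q3, q4, q5⟩ := exists_sad_79 hk hk2 (by nlinarith) ht1
    refine fin (X_part xnum_79 (h0 := 0) (hb := 0.22) (hmax := 0.54) hβ hβ13 hr0 (by nlinarith) hκ1
      (by norm_num) (by norm_num) q1 q2 ?_ (by norm_num) q3 q4 q5 (by norm_num) ?_ ?_ (by norm_num) (by norm_num)
      (by norm_num) (by norm_num) (by norm_num) (by norm_num)) (by linarith)
    · exact hexp_le q2 (by norm_num) (by norm_num; linarith)
    · have := Real.quadratic_le_exp_of_nonneg (x := 0.22) (by norm_num)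
      norm_num at this ⊢
      linarith
    · refine hρh hk2 q1 ?_
      norm_num
  · obtain ⟨α, h, q1, q2, q3, q4, q5⟩ := exists_sad_913 hk2 hκ2 (by nlinarith) ht1
    refine fin (X_part xnum_913 (h0 := 0.2) (hb := 0.3) (hmax := 0.67) hβ hβ13 hr0 (by nlinarith) hκ1
      (by norm_num) (by norm_num) q1 q2 ?_ (by norm_num) q3 q4 q5 (by norm_num) ?_ ?_ (by norm_num) (by norm_num)
      (by norm_num) (by norm_num) (by norm_num) (by norm_num)) (by linarith)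
    · exact hexp_le q2 (by norm_num) (by norm_num; linarith)
    · have := Real.quadratic_le_exp_of_nonneg (x := 0.3) (by norm_num)
      norm_num at this ⊢
      linarith
    · refine hρh hκ2 q1 ?_
      have h1 : Real.exp (-0.2) ≤ 0.819 := by
        refine exp_neg_le_of (y := 0.2) 8 (by norm_num) le_rfl (by norm_num) ?_
        simp only [Finset.sum_range_succ, Finset.sum_range_zero, Nat.factorial]
        norm_num
      norm_num at h1 ⊢
      linarith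

/-- **row M1** -/
theorem circ_M1 {β r : ℝ} (hr : 10 ≤ r) (hβ : 0 < β) (hκ1 : 0.6 ≤ β * r) (hκ2 : β * r ≤ 1.3) : Circ β r := by
  have hr0 : 0 < r := by linarith
  refine circ_mid_of_slope (X := CC β r) (Y := YY β r)
    (X' := fun t => I * (r * cexp (I * (t + β / 2))) * CC β r (t + β))
    (Y' := fun t => I * (r * cexp (I * (t + β / 2))) * YY β r (t + β)) hr hβ hκ1 hκ2 ?_ ?_ ?_ ?_ ?_ ?_ ?_
  · intro t _; unfold YY; ring
  · intro t _; unfold YY dF; ring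
  · exact fun t _ => hasDerivAt_CC hβ hr0 t
  · exact fun t _ => hasDerivAt_YY hβ hr0 t
  · exact fun t ht => (slopes hr hβ hκ1 hκ2 ht.1 ht.2).1
  · exact fun t ht => (slopes hr hβ hκ1 hκ2 ht.1 ht.2).2.1
  · exact fun t ht _ => (slopes hr hβ hκ1 hκ2 ht.1 ht.2).2.2

end Sok.Mid
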