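import Pool.Agent.Lib.MP_816dec_an.MDefs

/-!
MP_816dec_an, `b = 1`, middle range: the first moment identity. With `c = e^{i(t + β/2 - s₀)}`, `s₀ = a + y i`,
`D = 1 - iL`: a primitive of `(e^{iu} - 1 - iu) G`, `u = s - s₀`, is `D (c P' - P) + β G`, where `P`, `P'` are
primitives of `G = gs β r t` and of `gs β r (t + β)`. Its limits are `D (c l' - l)`, as `G → 0`.
-/

set_option autoImplicit false

open Complex Set Filter Topology MeasureTheory

namespace Sok.Mid

noncomputable def mP (β r t a y : ℝ) (P P' : ℂ → ℂ) (s : ℂ) : ℂ :=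
  Dx t a y * (cexp (I * (t + β / 2 - (a + y * I))) * P' s - P s) + β * gs β r t s

/-- recipe: `exp_mul_gs` gives `c G'(s) = e^{i(s - s₀)} G(s)`; `hasDerivAt_gs_s`; `β r e^{i s₀} = L` (`Sad.eq`) -/
theorem hasDerivAt_mP {β r t a y : ℝ} (h : Sad β r t a y) {P P' : ℂ → ℂ}
    (hP : ∀ x, HasDerivAt P (gs β r t x) x) (hP' : ∀ x, HasDerivAt P' (gs β r (t + β) x) x) (s : ℂ) :
    HasDerivAt (mP β r t a y P P') (mw (s - (a + y * I)) * gs β r t s) s := by
  have hb : (β : ℂ) ≠ 0 := by exact_mod_cast h.hβ.ne'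
  have h1 := (((hP' s).const_mul (cexp (I * (t + β / 2 - (a + y * I))))).sub (hP s)).const_mul (Dx t a y)
  have h2 := (hasDerivAt_gs_s β r t s).const_mul (β : ℂ)
  refine (h1.add h2).congr_deriv ?_
  have h3 := exp_mul_gs h.hβ.ne' r t s
  -- `c G' = e^{i(s - s₀)} G`
  have h4 : cexp (I * (t + β / 2 - (a + y * I))) * gs β r (t + β) s = cexp (I * (s - (a + y * I))) * gs β r t s := by
    have e1 : cexp (I * (t + β / 2 - (a + y * I))) = cexp (I * (t + β / 2)) * cexp (-(I * (a + y * I))) := by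
      rw [← Complex.exp_add]; congr 1; ring
    have e2 : cexp (I * (s - (a + y * I))) = cexp (I * s) * cexp (-(I * (a + y * I))) := by
      rw [← Complex.exp_add]; congr 1; ring
    rw [e1, e2]
    linear_combination (-cexp (-(I * (a + y * I)))) * h3
  -- `β r e^{i s₀} = L`
  have h5 : (β : ℂ) * (r * cexp (I * s)) = Lx t a y * cexp (I * (s - (a + y * I))) := by
    have e1 := h.eq
    have e2 : cexp (I * (t + β / 2)) * cexp (-(I * β / 2)) * cexp (I * Lx t a y) * cexp (I * (s - (a + y * I))) =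
        cexp (I * s) := by
      rw [← Complex.exp_add, ← Complex.exp_add, ← Complex.exp_add]
      congr 1
      unfold Lx
      push_cast
      ring
    have e3 : Lx t a y * cexp (I * (s - (a + y * I))) = β * (r * (cexp (I * (t + β / 2)) * cexp (-(I * β / 2)) *
        cexp (I * Lx t a y) * cexp (I * (s - (a + y * I))))) := by
      conv_lhs => rw [e1]
      ring
    rw [e3, e2]
  rw [h4]
  have h6 : (β : ℂ) * ((-(I * (s - t) / β) + I * (r * cexp (I * s))) * gs β r t s) =
      (-(I * (s - t)) + I * (Lx t a y * cexp (I * (s - (a + y * I))))) * gs β r t s := by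
    rw [← h5]
    field_simp
  rw [h6]
  have h7 : (s : ℂ) - t = (s - (a + y * I)) + Lx t a y := by
    unfold Lx; push_cast; ring
  rw [h7]
  unfold mw Dx
  ring

theorem mP_tendsto {β r t a y : ℝ} {P P' : ℂ → ℂ} {l l' : ℂ} {f : ℝ → ℂ} {F : Filter ℝ}
    (h1 : Tendsto (fun x => P (f x)) F (𝓝 l)) (h2 : Tendsto (fun x => P' (f x)) F (𝓝 l'))
    (h3 : Tendsto (fun x => ‖gs β r t (f x)‖) F (𝓝 0)) :
    Tendsto (fun x => mP β r t a y P P' (f x)) F
      (𝓝 (Dx t a y * (cexp (I * (t + β / 2 - (a + y * I))) * l' - l))) := by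
  have h4 := (((h2.const_mul (cexp (I * (t + β / 2 - (a + y * I))))).sub h1).const_mul (Dx t a y)).add
    ((tendsto_zero_iff_norm_tendsto_zero.2 h3).const_mul (β : ℂ))
  rw [mul_zero, add_zero] at h4
  exact h4

theorem mP_left {β r t a y : ℝ} (h : Sad β r t a y) {P P' : ℂ → ℂ} {V V' : ℤ → ℂ} {lL lR lL' lR' : ℂ}
    (hV : Vals β r t P V lL lR) (hV' : Vals β r (t + β) P' V' lL' lR') {Y : ℝ} (hY : 0 < Y) :
    Tendsto (fun X : ℝ => mP β r t a y P P' (X + Y * I)) atBot
      (𝓝 (Dx t a y * (cexp (I * (t + β / 2 - (a + y * I))) * lL' - lL))) := by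
  refine mP_tendsto (hV.left Y hY) (hV'.left Y hY) ?_
  have hb := h.hβ
  have h1 : Tendsto (fun X : ℝ => Real.exp (-(t * Y / β) + r) * Real.exp (Y / β * X)) atBot (𝓝 0) := by
    have h4 : Tendsto (fun X : ℝ => Y / β * X) atBot atBot := tendsto_id.const_mul_atBot (by positivity)
    have h5 := (Real.tendsto_exp_atBot.comp h4).const_mul (Real.exp (-(t * Y / β) + r))
    rw [mul_zero] at h5
    exact h5
  refine squeeze_zero (fun X => norm_nonneg _) (fun X => ?_) h1
  rw [Sok.norm_gs, ← Real.exp_add]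
  apply Real.exp_le_exp.2
  have h2 : r * Real.cos X * Real.exp (-Y) ≤ r := by
    have h3 : Real.exp (-Y) ≤ 1 := Real.exp_le_one_iff.2 (by linarith)
    have h4 : r * Real.cos X ≤ r := by nlinarith [Real.cos_le_one X, h.hr]
    have h5 := Real.exp_pos (-Y)
    calc r * Real.cos X * Real.exp (-Y) ≤ r * Real.exp (-Y) := mul_le_mul_of_nonneg_right h4 h5.le
      _ ≤ r * 1 := mul_le_mul_of_nonneg_left h3 h.hr.le
      _ = r := mul_one r
  have e1 : (X - t) * Y / β = Y / β * X - t * Y / β := by ring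
  linarith

theorem mP_right {β r t a y : ℝ} (h : Sad β r t a y) {P P' : ℂ → ℂ} {V V' : ℤ → ℂ} {lL lR lL' lR' : ℂ}
    (hV : Vals β r t P V lL lR) (hV' : Vals β r (t + β) P' V' lL' lR') {Y : ℝ} (hY : Y < 0) :
    Tendsto (fun X : ℝ => mP β r t a y P P' (X + Y * I)) atTop
      (𝓝 (Dx t a y * (cexp (I * (t + β / 2 - (a + y * I))) * lR' - lR))) := by
  refine mP_tendsto (hV.right Y hY) (hV'.right Y hY) ?_
  have hb := h.hβ
  have h1 : Tendsto (fun X : ℝ => Real.exp (-(t * Y / β) + r * Real.exp (-Y)) * Real.exp (Y / β * X)) atTop (𝓝 0) := by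
    have h4 : Tendsto (fun X : ℝ => Y / β * X) atTop atBot :=
      tendsto_id.const_mul_atTop_of_neg (div_neg_of_neg_of_pos hY hb)
    have h5 := (Real.tendsto_exp_atBot.comp h4).const_mul (Real.exp (-(t * Y / β) + r * Real.exp (-Y)))
    rw [mul_zero] at h5
    exact h5
  refine squeeze_zero (fun X => norm_nonneg _) (fun X => ?_) h1
  rw [Sok.norm_gs, ← Real.exp_add]
  apply Real.exp_le_exp.2
  have h2 : r * Real.cos X * Real.exp (-Y) ≤ r * Real.exp (-Y) := by
    have h4 : r * Real.cos X ≤ r := by nlinarith [Real.cos_le_one X, h.hr]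
    exact mul_le_mul_of_nonneg_right h4 (Real.exp_pos _).le
  have e1 : (X - t) * Y / β = Y / β * X - t * Y / β := by ring
  linarith

theorem mP_valley {β r t a y : ℝ} (h : Sad β r t a y) {P P' : ℂ → ℂ} {V V' : ℤ → ℂ} {lL lR lL' lR' : ℂ}
    (hV : Vals β r t P V lL lR) (hV' : Vals β r (t + β) P' V' lL' lR') {S : ℝ}
    (hS : |S - Real.pi| < Real.pi / 2) :
    Tendsto (fun Y : ℝ => mP β r t a y P P' (S + Y * I)) atBot
      (𝓝 (Dx t a y * (cexp (I * (t + β / 2 - (a + y * I))) * V' 0 - V 0))) := by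
  have e0 : (2 * ((0 : ℤ) : ℝ) + 1) * Real.pi = Real.pi := by push_cast; ring
  refine mP_tendsto (hV.val 0 S (by rw [e0]; exact hS.le) (Or.inl (by rw [e0]; exact hS)))
    (hV'.val 0 S (by rw [e0]; exact hS.le) (Or.inl (by rw [e0]; exact hS))) ?_
  have hb := h.hβ
  have hcos : Real.cos S < 0 := cos_val_neg (j := 0) (by rw [e0]; exact hS)
  obtain ⟨c, hc⟩ : ∃ c : ℝ, c = r * -Real.cos S := ⟨_, rfl⟩
  have hc0 : 0 < c := by rw [hc]; exact mul_pos h.hr (by linarith)
  -- `(S - t) Y / β - c e^{-Y} → -∞` as `Y → -∞`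
  have h1 : Tendsto (fun Y : ℝ => Real.exp ((S - t) * Y / β - c * Real.exp (-Y))) atBot (𝓝 0) := by
    apply Real.tendsto_exp_atBot.comp
    -- with `v = -Y`
    have h2 : Tendsto (fun v : ℝ => Real.exp v * (c - (t - S) / β * (v / Real.exp v))) atTop atTop := by
      have h3 : Tendsto (fun v : ℝ => v / Real.exp v) atTop (𝓝 0) := by
        have := Real.tendsto_pow_mul_exp_neg_atTop_nhds_zero 1
        refine this.congr fun v => ?_
        rw [pow_one, Real.exp_neg, div_eq_mul_inv]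
      have h4 : Tendsto (fun v : ℝ => c - (t - S) / β * (v / Real.exp v)) atTop (𝓝 (c - (t - S) / β * 0)) :=
        (h3.const_mul _).const_sub _
      rw [mul_zero, sub_zero] at h4
      exact Real.tendsto_exp_atTop.atTop_mul_pos hc0 h4
    have h3 := (tendsto_neg_atTop_atBot.comp h2).comp tendsto_neg_atBot_atTop
    refine h3.congr fun Y => ?_
    simp only [Function.comp]
    have hE : Real.exp (-Y) ≠ 0 := (Real.exp_pos _).ne'
    field_simp
    ring
  refine h1.congr fun Y => ?_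
  rw [Sok.norm_gs]
  congr 1
  rw [hc]
  ring

end Sok.Mid
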