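import Pool.Agent.Lib.MP_816dec_an.MY
import Pool.Agent.Lib.MP_816dec_an.MComb

/-!
MP_816dec_an, `b = 1`, middle range: the logarithmic derivatives of the left function `CC` and of the right
function `Ft - CC`, in terms of the exponents on the contours.
-/

set_option autoImplicit false

open Complex Set Filter Topology MeasureTheory Sok.W

namespace Sok.Mid

/-- the right function -/
noncomputable def YY (β r t : ℝ) : ℂ := Ft β r t - CC β r t

theorem hasDerivAt_YY {β r : ℝ} (hβ : 0 < β) (hr : 0 < r) (t : ℝ) :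
    HasDerivAt (YY β r) (I * (r * cexp (I * (t + β / 2))) * YY β r (t + β)) t := by
  refine ((hasDerivAt_Ft β r t).sub (hasDerivAt_CC hβ hr t)).congr_deriv ?_
  unfold YY
  ring

section
variable {β r t α h X X1 xh c1 c2 σ1 σ3 σ4 : ℝ}

theorem gs_ne (β r t : ℝ) (s : ℂ) : gs β r t s ≠ 0 := by
  unfold gs
  exact mul_ne_zero (Complex.exp_ne_zero _) (Complex.exp_ne_zero _)

theorem XHyp.slope (H : XHyp β r t α h X X1 xh c1 c2 σ1 σ3 σ4) {μ : ℂ} {SV p2 : ℝ} (hD : Dx t α h ≠ 0)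
    (hseg : ‖(∫ x in (-(Real.sqrt 2 * X))..(Real.sqrt 2 * X),
      cexp (Psi (Lx t α h) (x * cexp (((-(Real.pi / 4) : ℝ) : ℂ) * I)) / β)) - μ‖ ≤ SV)
    (hp2 : Real.exp X - 1 - X ≤ p2 * X ^ 2) (he : SV + eX β X X1 c1 c2 σ1 σ3 σ4 < ‖μ‖) :
    CC β r t ≠ 0 ∧ |(I * (r * cexp (I * (t + β / 2))) * CC β r (t + β) / CC β r t).re + h / β| ≤
      β * r * Real.exp (-h) * (mX β X X1 xh p2 c1 c2 σ1 σ3 σ4 /
        (‖Dx t α h‖ * (‖μ‖ - (SV + eX β X X1 c1 c2 σ1 σ3 σ4)))) / β := by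
  have hβ := H.sad.hβ
  have hr := H.sad.hr
  obtain ⟨P, hP⟩ := exists_prim (gs_diff β r t)
  obtain ⟨P', hP'⟩ := exists_prim (gs_diff β r (t + β))
  obtain ⟨V, lL, lR, hV, -⟩ := exists_vals hβ hr hP
  obtain ⟨V', lL', lR', hV', -⟩ := exists_vals hβ hr hP'
  have h1 := H.value hP hV hseg
  have h2 := H.moment hP hP' hV hV' hp2
  rw [hV.CC0 hβ hr hP] at h1 h2
  rw [hV'.CC0 hβ hr hP'] at h2
  have e1 : gs β r t (α + h * I) * ee * μ = (gs β r t (α + h * I) * ee) * μ := rfl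
  have e2 : ‖gs β r t (α + h * I)‖ = ‖gs β r t (α + h * I) * ee‖ := by rw [norm_mul, norm_ee, mul_one]
  rw [e2] at h1 h2
  have hG : gs β r t (α + h * I) * ee ≠ 0 := by
    refine mul_ne_zero (gs_ne _ _ _ _) ?_
    unfold ee
    exact Complex.exp_ne_zero _
  obtain ⟨k1, k2⟩ := comb hG hD h1 he h2
  have hc := cF_ne hβ
  have hCC : CC β r t ≠ 0 := right_ne_zero_of_mul k1
  refine ⟨hCC, slope_of H.sad (le_trans (le_of_eq ?_) k2)⟩
  congr 2
  field_simp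

end

section
variable {β r t α g T W kR kL q2 E3 κ3 : ℝ}

theorem YHyp.slope (H : YHyp β r t α g T W kR kL q2 E3 κ3) {μ : ℂ} {SV : ℝ} (hD : Dx t α (-g) ≠ 0)
    (hseg : ‖(∫ x in (-T)..T, cexp (Psi (Lx t α (-g)) (x * cexp (((0 : ℝ) : ℂ) * I)) / β)) - μ‖ ≤ SV)
    (he : SV + eY β g T kR kL q2 E3 κ3 < ‖μ‖) :
    YY β r t ≠ 0 ∧ |(I * (r * cexp (I * (t + β / 2))) * YY β r (t + β) / YY β r t).re + (-g) / β| ≤
      β * r * Real.exp (- -g) * (mY β g kR kL q2 E3 κ3 /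
        (‖Dx t α (-g)‖ * (‖μ‖ - (SV + eY β g T kR kL q2 E3 κ3)))) / β := by
  have hβ := H.sad.hβ
  have hr := H.sad.hr
  obtain ⟨P, hP⟩ := exists_prim (gs_diff β r t)
  obtain ⟨P', hP'⟩ := exists_prim (gs_diff β r (t + β))
  obtain ⟨V, lL, lR, hV, hF⟩ := exists_vals hβ hr hP
  obtain ⟨V', lL', lR', hV', hF'⟩ := exists_vals hβ hr hP'
  have key : ∀ {t : ℝ} {P : ℂ → ℂ} {V : ℤ → ℂ} {lL lR : ℂ}, (∀ x, HasDerivAt P (gs β r t x) x) →
      Vals β r t P V lL lR → lR - lL = (1 - I) * (Real.sqrt (Real.pi * β) : ℝ) *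
        F (cexp (I * β)) (r * cexp (I * (t + β / 2))) → lR - V 0 = cF β * YY β r t := by
    intro t P V lL lR hP hV hF
    have h1 := hV.CC0 hβ hr hP
    have h2 : lR - lL = cF β * Ft β r t := hF
    unfold YY
    rw [mul_sub, ← h1, ← h2]
    ring
  have h1 := H.value hP hV hseg
  have h2 := H.moment hP hP' hV hV'
  rw [key hP hV hF] at h1 h2
  rw [key hP' hV' hF'] at h2
  obtain ⟨k1, k2⟩ := comb (gs_ne _ _ _ _) hD h1 he h2
  have hc := cF_ne hβ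
  have hCC : YY β r t ≠ 0 := right_ne_zero_of_mul k1
  refine ⟨hCC, slope_of H.sad (le_trans (le_of_eq ?_) k2)⟩
  congr 2
  field_simp

end

end Sok.Mid
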