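import Pool.Agent.Lib.MP_816dec_an.MDefs
import Pool.Agent.Lib.MP_816dec_an.MTail
import Pool.Agent.Lib.MP_816dec_an.MPrim

/-!
MP_816dec_an, `b = 1`, middle range: value and first moment of the left function `CC β r t` from its saddle
`α + h i`; contour: left ray, the line of slope `-1` through the saddle, a horizontal piece, downwards.
-/

set_option autoImplicit false

open Complex Set Filter Topology MeasureTheory Sok.W

namespace Sok.Mid

/-- the direction `e^{-iπ/4}` -/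
noncomputable def ee : ℂ := cexp (((-(Real.pi / 4) : ℝ) : ℂ) * I)

theorem norm_ee : ‖ee‖ = 1 := Complex.norm_exp_ofReal_mul_I _

theorem ee_eq : ee = ((1 / Real.sqrt 2 : ℝ) : ℂ) - ((1 / Real.sqrt 2 : ℝ) : ℂ) * I := by
  unfold ee
  rw [Complex.exp_mul_I, ← Complex.ofReal_cos, ← Complex.ofReal_sin, Real.cos_neg, Real.sin_neg,
    Real.cos_pi_div_four, Real.sin_pi_div_four]
  have : Real.sqrt 2 / 2 = 1 / Real.sqrt 2 := by
    have h : Real.sqrt 2 * Real.sqrt 2 = 2 := Real.mul_self_sqrt (by norm_num)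
    have h0 : Real.sqrt 2 ≠ 0 := by positivity
    field_simp
    linarith
  rw [this]
  push_cast
  ring

theorem mul_ee (x : ℝ) : ((Real.sqrt 2 * x : ℝ) : ℂ) * ee = x + ((-x : ℝ) : ℂ) * I := by
  rw [ee_eq]
  have h0 : (Real.sqrt 2 : ℂ) ≠ 0 := by
    have : Real.sqrt 2 ≠ 0 := by positivity
    exact_mod_cast this
  push_cast
  field_simp
  ring

/-- the exponents on the contour -/
structure XHyp (β r t α h X X1 xh c1 c2 σ1 σ3 σ4 : ℝ) : Prop where
  sad : Sad β r t α h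
  X0 : 0 < X
  XX1 : X ≤ X1
  xh0 : 0 ≤ xh
  c10 : 0 < c1
  c20 : 0 < c2
  σ10 : 0 < σ1
  σ30 : 0 < σ3
  σ40 : β < σ4
  hX1 : 0 < h + X1
  val : |α + X + xh - Real.pi| < Real.pi / 2
  e1 : ∀ x, 0 ≤ x → x ≤ X1 → NN (α - t) h (-x) x ≤ -(c2 * x ^ 2)
  e2 : ∀ x, 0 ≤ x → x ≤ X → NN (α - t) h x (-x) ≤ -(c1 * x ^ 2)
  e3 : ∀ x, 0 ≤ x → NN (α - t) h (-X1 - x) X1 ≤ -(c2 * X1 ^ 2) - σ1 * x
  e4 : ∀ x, 0 ≤ x → x ≤ xh → NN (α - t) h (X + x) (-X) ≤ -(c1 * X ^ 2) - σ3 * x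
  e5 : ∀ v, 0 ≤ v → NN (α - t) h (X + xh) (-X - v) ≤ -(c1 * X ^ 2) - σ4 * v

/-- the bound of the value error -/
noncomputable def eX (β X X1 c1 c2 σ1 σ3 σ4 : ℝ) : ℝ :=
  Real.sqrt 2 * (Real.exp (-(c2 * X ^ 2 / β)) / (2 * (c2 / β) * X)) + Real.exp (-(c2 * X1 ^ 2 / β)) * (β / σ1) +
    Real.exp (-(c1 * X ^ 2 / β)) * (β / σ3 + β / σ4)

/-- the bound of the moment -/
noncomputable def mX (β X X1 xh p2 c1 c2 σ1 σ3 σ4 : ℝ) : ℝ :=
  Real.sqrt 2 * (Real.sqrt Real.pi / (4 * (c2 / β * Real.sqrt (c2 / β)))) +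
    Real.sqrt 2 * (2 * p2 * (Real.sqrt Real.pi / (4 * (c1 / β * Real.sqrt (c1 / β))))) +
    Real.exp (-(c2 * X1 ^ 2 / β)) * ((2 + Real.sqrt 2 * X1) / (σ1 / β) + 1 / (σ1 / β) ^ 2) +
    Real.exp (-(c1 * X ^ 2 / β)) * ((Real.exp X + 1 + Real.sqrt 2 * X + xh) * (β / σ3 + 1 / (σ4 / β - 1)))

section
variable {β r t α h X X1 xh c1 c2 σ1 σ3 σ4 : ℝ}

/-- the point `p + q i` from the saddle -/
theorem XHyp.norm_le (H : XHyp β r t α h X X1 xh c1 c2 σ1 σ3 σ4) {p q E : ℝ} (hE : NN (α - t) h p q ≤ E) :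
    ‖gs β r t ((α : ℂ) + h * I + (p + q * I))‖ ≤ ‖gs β r t (α + h * I)‖ * Real.exp (E / β) := by
  rw [H.sad.norm_gs_add]
  have hβ := H.sad.hβ
  gcongr

theorem norm_mw_le (u : ℂ) : ‖mw u‖ ≤ Real.exp (-u.im) + 1 + ‖u‖ := by
  unfold mw
  refine (norm_sub_le _ _).trans ?_
  rw [norm_mul, Complex.norm_I, one_mul]
  refine add_le_add_left ((norm_sub_le _ _).trans ?_) _
  rw [Complex.norm_exp, norm_one]
  have : (I * u).re = -u.im := by simp
  rw [this]

theorem norm_mw_le_sq {u : ℂ} (hu : 0 ≤ u.im) : ‖mw u‖ ≤ ‖u‖ ^ 2 / 2 := by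
  have h := norm_exp_sub_sum_le (I * u) 2 (M := 1) le_rfl (by
    have : (I * u).re = -u.im := by simp
    rw [this]
    exact Real.exp_le_one_iff.2 (by linarith)) 1 (right_mem_Icc.2 zero_le_one)
  simp only [Complex.ofReal_one, Finset.sum_range_succ, Finset.sum_range_zero, Nat.factorial, pow_zero, pow_one, zero_add,
    Nat.cast_one, div_one, mul_one, Nat.succ_eq_add_one, one_mul, norm_mul, Complex.norm_I] at h
  have e : mw u = cexp (I * u) - (1 + I * u) := by unfold mw; ring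
  rw [e]
  refine h.trans (le_of_eq ?_)
  push_cast
  ring

theorem norm_mw_le_X {u : ℂ} {X p2 : ℝ} (hX : 0 < X) (hu : -u.im ≤ X) (hp2 : Real.exp X - 1 - X ≤ p2 * X ^ 2) :
    ‖mw u‖ ≤ p2 * ‖u‖ ^ 2 := by
  have hre : (I * u).re ≤ X := by
    have : (I * u).re = -u.im := by simp
    rw [this]; exact hu
  have h := norm_exp_sub_sum_mul_le (I * u) 2 hX.le hre 1 (right_mem_Icc.2 zero_le_one)
  simp only [Complex.ofReal_one, Finset.sum_range_succ, Finset.sum_range_zero, Nat.factorial, pow_zero, pow_one,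
    zero_add, Nat.cast_one, div_one, mul_one, Nat.succ_eq_add_one, one_mul, norm_mul, Complex.norm_I] at h
  have e : mw u = cexp (I * u) - (1 + I * u) := by unfold mw; ring
  rw [e]
  have hX2 : 0 < X ^ 2 := by positivity
  refine le_of_mul_le_mul_left ?_ hX2
  refine h.trans ?_
  have : 0 ≤ ‖u‖ ^ 2 := by positivity
  nlinarith

/-- a piece of a line, arbitrary direction -/
theorem piece {g P : ℂ → ℂ} (hg : Differentiable ℂ g) (hP : ∀ x, HasDerivAt P (g x) x) (s0 d : ℂ) {a b : ℝ}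
    (hab : a ≤ b) {m : ℝ → ℝ} (hm : Continuous m) (hb : ∀ x ∈ Icc a b, ‖g (s0 + x * d)‖ ≤ m x) :
    ‖P (s0 + b * d) - P (s0 + a * d)‖ ≤ ‖d‖ * ∫ x in a..b, m x := by
  rw [← prim_line hg hP, norm_mul]
  refine mul_le_mul_of_nonneg_left ?_ (norm_nonneg _)
  refine intervalIntegral.norm_integral_le_of_norm_le hab ?_ (hm.intervalIntegrable _ _)
  exact Filter.Eventually.of_forall fun x hx => hb x ⟨hx.1.le, hx.2⟩

theorem norm_one_sub_I : ‖(1 - I : ℂ)‖ = Real.sqrt 2 := by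
  rw [Complex.norm_def, Complex.normSq_apply]
  norm_num

theorem norm_neg_one_add_I : ‖(-1 + I : ℂ)‖ = Real.sqrt 2 := by
  rw [Complex.norm_def, Complex.normSq_apply]
  norm_num

theorem XHyp.lim_left (H : XHyp β r t α h X X1 xh c1 c2 σ1 σ3 σ4) {P : ℂ → ℂ} {l : ℂ}
    (hl : ∀ Y : ℝ, 0 < Y → Tendsto (fun x : ℝ => P (x + Y * I)) atBot (𝓝 l)) :
    Tendsto (fun x : ℝ => P (((α : ℂ) + h * I + X1 * (-1 + I)) + x * (-1 : ℂ))) atTop (𝓝 l) := by
  have h1 : Tendsto (fun x : ℝ => α - X1 - x) atTop atBot := by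
    have := tendsto_neg_atTop_atBot.comp (tendsto_atTop_add_const_right atTop (X1 - α) tendsto_id)
    refine this.congr fun x => ?_
    simp only [Function.comp, id]
    ring
  refine ((hl (h + X1) H.hX1).comp h1).congr fun x => ?_
  simp only [Function.comp]
  congr 1
  push_cast
  ring

theorem XHyp.lim_down (H : XHyp β r t α h X X1 xh c1 c2 σ1 σ3 σ4) {P : ℂ → ℂ} {l : ℂ}
    (hl : Tendsto (fun y : ℝ => P (((α + X + xh : ℝ) : ℂ) + y * I)) atBot (𝓝 l)) :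
    Tendsto (fun x : ℝ => P (((α : ℂ) + h * I + X * (1 - I) + xh * (1 : ℂ)) + x * (-I))) atTop (𝓝 l) := by
  have h1 : Tendsto (fun x : ℝ => h - X - x) atTop atBot := by
    have := tendsto_neg_atTop_atBot.comp (tendsto_atTop_add_const_right atTop (X - h) tendsto_id)
    refine this.congr fun x => ?_
    simp only [Function.comp, id]
    ring
  refine (hl.comp h1).congr fun x => ?_
  simp only [Function.comp]
  congr 1
  push_cast
  ring

/-- the three outer pieces, with weight -/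
theorem XHyp.left_ray (H : XHyp β r t α h X X1 xh c1 c2 σ1 σ3 σ4) {g P : ℂ → ℂ} {l : ℂ}
    (hg : Differentiable ℂ g) (hP : ∀ x, HasDerivAt P (g x) x)
    (hl : ∀ Y : ℝ, 0 < Y → Tendsto (fun x : ℝ => P (x + Y * I)) atBot (𝓝 l)) {m : ℝ → ℝ} (hm : Continuous m)
    {A : ℝ} (hb : ∀ x : ℝ, 0 ≤ x → ‖g ((α : ℂ) + h * I + (((-X1 - x : ℝ) : ℂ) + X1 * I))‖ ≤ m x)
    (hA : ∀ T : ℝ, 0 ≤ T → ∫ x in (0:ℝ)..T, m x ≤ A) :
    ‖P ((α : ℂ) + h * I + X1 * (-1 + I)) - l‖ ≤ A := by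
  rw [norm_sub_rev]
  refine tail_bd hg hP (d := -1) (by simp) hm (H.lim_left hl) (fun x hx => ?_) hA
  refine le_trans (le_of_eq ?_) (hb x hx)
  congr 2
  push_cast
  ring

theorem XHyp.hor (H : XHyp β r t α h X X1 xh c1 c2 σ1 σ3 σ4) {g P : ℂ → ℂ}
    (hg : Differentiable ℂ g) (hP : ∀ x, HasDerivAt P (g x) x) {m : ℝ → ℝ} (hm : Continuous m)
    (hb : ∀ x ∈ Icc 0 xh, ‖g ((α : ℂ) + h * I + (((X + x : ℝ) : ℂ) + ((-X : ℝ) : ℂ) * I))‖ ≤ m x) :
    ‖P ((α : ℂ) + h * I + X * (1 - I) + xh * (1 : ℂ)) - P ((α : ℂ) + h * I + X * (1 - I))‖ ≤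
      ∫ x in (0:ℝ)..xh, m x := by
  refine seg_bd hg hP (d := 1) (by simp) hm H.xh0 (fun x hx => ?_)
  refine le_trans (le_of_eq ?_) (hb x hx)
  congr 2
  push_cast
  ring

theorem XHyp.down (H : XHyp β r t α h X X1 xh c1 c2 σ1 σ3 σ4) {g P : ℂ → ℂ} {l : ℂ}
    (hg : Differentiable ℂ g) (hP : ∀ x, HasDerivAt P (g x) x)
    (hl : Tendsto (fun y : ℝ => P (((α + X + xh : ℝ) : ℂ) + y * I)) atBot (𝓝 l)) {m : ℝ → ℝ}
    (hm : Continuous m) {A : ℝ}
    (hb : ∀ v : ℝ, 0 ≤ v → ‖g ((α : ℂ) + h * I + (((X + xh : ℝ) : ℂ) + ((-X - v : ℝ) : ℂ) * I))‖ ≤ m v)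
    (hA : ∀ T : ℝ, 0 ≤ T → ∫ x in (0:ℝ)..T, m x ≤ A) :
    ‖l - P ((α : ℂ) + h * I + X * (1 - I) + xh * (1 : ℂ))‖ ≤ A := by
  refine tail_bd hg hP (d := -I) (by simp) hm (H.lim_down hl) (fun x hx => ?_) hA
  refine le_trans (le_of_eq ?_) (hb x hx)
  congr 2
  push_cast
  ring

theorem XHyp.value (H : XHyp β r t α h X X1 xh c1 c2 σ1 σ3 σ4) {P : ℂ → ℂ}
    (hP : ∀ x, HasDerivAt P (gs β r t x) x) {V : ℤ → ℂ} {lL lR : ℂ} (hV : Vals β r t P V lL lR) {μ : ℂ} {SV : ℝ}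
    (hseg : ‖(∫ x in (-(Real.sqrt 2 * X))..(Real.sqrt 2 * X),
      cexp (Psi (Lx t α h) (x * cexp (((-(Real.pi / 4) : ℝ) : ℂ) * I)) / β)) - μ‖ ≤ SV) :
    ‖(V 0 - lL) - gs β r t (α + h * I) * ee * μ‖ ≤
      ‖gs β r t (α + h * I)‖ * (SV + eX β X X1 c1 c2 σ1 σ3 σ4) := by
  have hβ := H.sad.hβ
  have hg := gs_diff β r t
  obtain ⟨G, hG⟩ : ∃ G : ℝ, G = ‖gs β r t (α + h * I)‖ := ⟨_, rfl⟩
  have hG0 : 0 ≤ G := by rw [hG]; positivity
  rw [← hG]
  -- the five pieces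
  have p1 : ‖P ((α : ℂ) + h * I + X1 * (-1 + I)) - lL‖ ≤ G * (Real.exp (-(c2 * X1 ^ 2 / β)) * (β / σ1)) := by
    refine H.left_ray hg hP hV.left (m := fun x => G * Real.exp (-(c2 * X1 ^ 2 / β)) * Real.exp (-(σ1 / β * x)))
      (by fun_prop) (fun x hx => ?_) (fun T hT => ?_)
    · refine (H.norm_le (H.e3 x hx)).trans (le_of_eq ?_)
      rw [← hG, mul_assoc, ← Real.exp_add]
      congr 2
      ring
    · refine (int_exp_le (by positivity) (div_pos H.σ10 hβ) hT).trans (le_of_eq ?_)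
      have := H.σ10.ne'
      field_simp
  have p2 : ‖P ((α : ℂ) + h * I + X1 * (-1 + I)) - P ((α : ℂ) + h * I + X * (-1 + I))‖ ≤
      G * (Real.sqrt 2 * (Real.exp (-(c2 * X ^ 2 / β)) / (2 * (c2 / β) * X))) := by
    have h1 := piece hg hP ((α : ℂ) + h * I) (-1 + I) H.XX1
      (m := fun x => G * Real.exp (-(c2 / β * x ^ 2))) (by fun_prop) (fun x hx => by
        have h0 : 0 ≤ x := H.X0.le.trans hx.1
        have h2 := H.norm_le (H.e1 x h0 hx.2)
        rw [← hG] at h2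
        refine le_trans (le_of_eq ?_) (h2.trans (le_of_eq ?_))
        · congr 2; push_cast; ring
        · congr 2; ring)
    rw [norm_neg_one_add_I, intervalIntegral.integral_const_mul] at h1
    have h3 := int_gauss_tail_le (div_pos H.c20 hβ) H.X0 H.XX1
    have e1 : Real.exp (-(c2 * X ^ 2 / β)) = Real.exp (-(c2 / β * X ^ 2)) := by congr 1; ring
    rw [e1]
    refine h1.trans ?_
    have h4 : 0 ≤ Real.sqrt 2 := Real.sqrt_nonneg _
    nlinarith [mul_le_mul_of_nonneg_left h3 (mul_nonneg hG0 h4)]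
  have p3 : ‖P ((α : ℂ) + h * I + X * (1 - I)) - P ((α : ℂ) + h * I + X * (-1 + I)) -
      gs β r t (α + h * I) * ee * μ‖ ≤ G * SV := by
    have h1 := prim_line hg hP ((α : ℂ) + h * I) ee (-(Real.sqrt 2 * X)) (Real.sqrt 2 * X)
    have e1 : ((Real.sqrt 2 * X : ℝ) : ℂ) * ee = X * (1 - I) := by rw [mul_ee]; push_cast; ring
    have e2 : ((-(Real.sqrt 2 * X) : ℝ) : ℂ) * ee = X * (-1 + I) := by
      rw [Complex.ofReal_neg, neg_mul, e1]; ring
    rw [e1, e2] at h1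
    have h2 : (∫ x in (-(Real.sqrt 2 * X))..(Real.sqrt 2 * X), gs β r t ((α : ℂ) + h * I + x * ee)) =
        gs β r t (α + h * I) * ∫ x in (-(Real.sqrt 2 * X))..(Real.sqrt 2 * X),
          cexp (Psi (Lx t α h) (x * cexp (((-(Real.pi / 4) : ℝ) : ℂ) * I)) / β) := by
      rw [← intervalIntegral.integral_const_mul]
      refine intervalIntegral.integral_congr fun x _ => ?_
      exact H.sad.gs_add _
    rw [← h1, h2]
    have e3 : ∀ J : ℂ, ee * (gs β r t (α + h * I) * J) - gs β r t (α + h * I) * ee * μ =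
        gs β r t (α + h * I) * ee * (J - μ) := fun J => by ring
    rw [e3, norm_mul, norm_mul, norm_ee, mul_one, ← hG]
    exact mul_le_mul_of_nonneg_left hseg hG0
  have p4 : ‖P ((α : ℂ) + h * I + X * (1 - I) + xh * (1 : ℂ)) - P ((α : ℂ) + h * I + X * (1 - I))‖ ≤
      G * (Real.exp (-(c1 * X ^ 2 / β)) * (β / σ3)) := by
    refine (H.hor hg hP (m := fun x => G * Real.exp (-(c1 * X ^ 2 / β)) * Real.exp (-(σ3 / β * x)))
      (by fun_prop) (fun x hx => ?_)).trans ?_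
    · refine (H.norm_le (H.e4 x hx.1 hx.2)).trans (le_of_eq ?_)
      rw [← hG, mul_assoc, ← Real.exp_add]
      congr 2
      ring
    · refine (int_exp_le (by positivity) (div_pos H.σ30 hβ) H.xh0).trans (le_of_eq ?_)
      have := H.σ30.ne'
      field_simp
  have p5 : ‖V 0 - P ((α : ℂ) + h * I + X * (1 - I) + xh * (1 : ℂ))‖ ≤
      G * (Real.exp (-(c1 * X ^ 2 / β)) * (β / σ4)) := by
    have hσ4 : 0 < σ4 := hβ.trans H.σ40
    refine H.down hg hP ?_ (m := fun x => G * Real.exp (-(c1 * X ^ 2 / β)) * Real.exp (-(σ4 / β * x)))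
      (by fun_prop) (fun x hx => ?_) (fun T hT => ?_)
    · refine hV.val 0 (α + X + xh) ?_ (Or.inl ?_)
      · simpa using H.val.le
      · simpa using H.val
    · refine (H.norm_le (H.e5 x hx)).trans (le_of_eq ?_)
      rw [← hG, mul_assoc, ← Real.exp_add]
      congr 2
      ring
    · refine (int_exp_le (by positivity) (div_pos hσ4 hβ) hT).trans (le_of_eq ?_)
      have := hσ4.ne'
      field_simp
  have e0 : (V 0 - lL) - gs β r t (α + h * I) * ee * μ =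
      (P ((α : ℂ) + h * I + X1 * (-1 + I)) - lL) -
      (P ((α : ℂ) + h * I + X1 * (-1 + I)) - P ((α : ℂ) + h * I + X * (-1 + I))) +
      (P ((α : ℂ) + h * I + X * (1 - I)) - P ((α : ℂ) + h * I + X * (-1 + I)) -
        gs β r t (α + h * I) * ee * μ) +
      (P ((α : ℂ) + h * I + X * (1 - I) + xh * (1 : ℂ)) - P ((α : ℂ) + h * I + X * (1 - I))) +
      (V 0 - P ((α : ℂ) + h * I + X * (1 - I) + xh * (1 : ℂ))) := by ring
  rw [e0]
  refine (norm_add_le _ _).trans ?_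
  refine (add_le_add ((norm_add_le _ _).trans (add_le_add ((norm_add_le _ _).trans
    (add_le_add ((norm_sub_le _ _).trans (add_le_add p1 p2)) p3)) p4)) p5).trans (le_of_eq ?_)
  unfold eX
  ring

theorem mg_diff (β r t : ℝ) (s0 : ℂ) : Differentiable ℂ (fun s => mw (s - s0) * gs β r t s) := by
  have h1 := gs_diff β r t
  unfold mw
  fun_prop

theorem XHyp.norm_mg_le (H : XHyp β r t α h X X1 xh c1 c2 σ1 σ3 σ4) {p q E W : ℝ} (hE : NN (α - t) h p q ≤ E)
    (hW : ‖mw (p + q * I)‖ ≤ W) :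
    ‖mw ((α : ℂ) + h * I + (p + q * I) - (α + h * I)) * gs β r t ((α : ℂ) + h * I + (p + q * I))‖ ≤
      W * (‖gs β r t (α + h * I)‖ * Real.exp (E / β)) := by
  rw [norm_mul, add_sub_cancel_left]
  exact mul_le_mul hW (H.norm_le hE) (norm_nonneg _) ((norm_nonneg _).trans hW)

theorem XHyp.moment (H : XHyp β r t α h X X1 xh c1 c2 σ1 σ3 σ4) {P P' : ℂ → ℂ}
    (hP : ∀ x, HasDerivAt P (gs β r t x) x) (hP' : ∀ x, HasDerivAt P' (gs β r (t + β) x) x)
    {V V' : ℤ → ℂ} {lL lR lL' lR' : ℂ} (hV : Vals β r t P V lL lR) (hV' : Vals β r (t + β) P' V' lL' lR')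
    {p2 : ℝ} (hp2 : Real.exp X - 1 - X ≤ p2 * X ^ 2) :
    ‖Dx t α h * (cexp (I * (t + β / 2 - (α + h * I))) * (V' 0 - lL') - (V 0 - lL))‖ ≤
      ‖gs β r t (α + h * I)‖ * mX β X X1 xh p2 c1 c2 σ1 σ3 σ4 := by
  have hβ := H.sad.hβ
  have hσ4 : 0 < σ4 := hβ.trans H.σ40
  have hX0 := H.X0
  have hXX1 := H.XX1
  have hxh := H.xh0
  have hX1 : 0 < X1 := hX0.trans_le hXX1
  have hg := mg_diff β r t (α + h * I)
  have hm := hasDerivAt_mP H.sad hP hP'
  obtain ⟨Q, hQ⟩ : ∃ Q : ℂ → ℂ, Q = mP β r t α h P P' := ⟨_, rfl⟩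
  have hlim1 := fun Y hY => mP_left (Y := Y) H.sad hV hV' hY
  have hlim2 := mP_valley H.sad hV hV' H.val
  rw [← hQ] at hm hlim1 hlim2
  obtain ⟨G, hG⟩ : ∃ G : ℝ, G = ‖gs β r t (α + h * I)‖ := ⟨_, rfl⟩
  have hG0 : 0 ≤ G := by rw [hG]; positivity
  obtain ⟨l, hl⟩ : ∃ l, l = Dx t α h * (cexp (I * (t + β / 2 - (α + h * I))) * lL' - lL) := ⟨_, rfl⟩
  obtain ⟨v, hv⟩ : ∃ v, v = Dx t α h * (cexp (I * (t + β / 2 - (α + h * I))) * V' 0 - V 0) := ⟨_, rfl⟩
  have e0 : Dx t α h * (cexp (I * (t + β / 2 - (α + h * I))) * (V' 0 - lL') - (V 0 - lL)) = v - l := by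
    rw [hl, hv]; ring
  rw [e0, ← hG]
  rw [← hl] at hlim1
  rw [← hv] at hlim2
  have h20 : 0 ≤ Real.sqrt 2 := Real.sqrt_nonneg _
  have nrm : ∀ x : ℝ, 0 ≤ x → ‖(x : ℂ) * (1 - I)‖ = Real.sqrt 2 * x := fun x hx => by
    rw [norm_mul, norm_one_sub_I, Complex.norm_real, Real.norm_of_nonneg hx, mul_comm]
  have nrm' : ∀ x : ℝ, 0 ≤ x → ‖(x : ℂ) * (-1 + I)‖ = Real.sqrt 2 * x := fun x hx => by
    rw [norm_mul, norm_neg_one_add_I, Complex.norm_real, Real.norm_of_nonneg hx, mul_comm]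
  -- the five pieces
  have p1 : ‖Q ((α : ℂ) + h * I + X1 * (-1 + I)) - l‖ ≤
      G * (Real.exp (-(c2 * X1 ^ 2 / β)) * ((2 + Real.sqrt 2 * X1) / (σ1 / β) + 1 / (σ1 / β) ^ 2)) := by
    refine H.left_ray hg hm hlim1
      (m := fun x => G * Real.exp (-(c2 * X1 ^ 2 / β)) * ((2 + Real.sqrt 2 * X1 + x) * Real.exp (-(σ1 / β * x))))
      (by fun_prop) (fun x hx => ?_) (fun T hT => ?_)
    · have hw : ‖mw (((-X1 - x : ℝ) : ℂ) + X1 * I)‖ ≤ 2 + Real.sqrt 2 * X1 + x := by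
        refine (norm_mw_le _).trans ?_
        have i1 : (((-X1 - x : ℝ) : ℂ) + X1 * I).im = X1 := by simp
        have i2 : (((-X1 - x : ℝ) : ℂ) + X1 * I) = X1 * (-1 + I) + ((-x : ℝ) : ℂ) := by push_cast; ring
        have i3 : ‖(((-X1 - x : ℝ) : ℂ) + X1 * I)‖ ≤ Real.sqrt 2 * X1 + x := by
          rw [i2]
          refine (norm_add_le _ _).trans ?_
          rw [nrm' X1 hX1.le, Complex.norm_real, Real.norm_eq_abs, abs_neg, abs_of_nonneg hx]
        rw [i1]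
        have i4 : Real.exp (-X1) ≤ 1 := Real.exp_le_one_iff.2 (by linarith)
        linarith
      refine (H.norm_mg_le (H.e3 x hx) hw).trans (le_of_eq ?_)
      rw [← hG]
      have i5 : Real.exp ((-(c2 * X1 ^ 2) - σ1 * x) / β) =
          Real.exp (-(c2 * X1 ^ 2 / β)) * Real.exp (-(σ1 / β * x)) := by
        rw [← Real.exp_add]; congr 1; ring
      rw [i5]
      ring
    · rw [intervalIntegral.integral_const_mul, mul_assoc]
      refine mul_le_mul_of_nonneg_left ?_ hG0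
      refine mul_le_mul_of_nonneg_left ?_ (Real.exp_pos _).le
      exact int_lin_exp_le (by positivity) (div_pos H.σ10 hβ) hT
  have p2' : ‖Q ((α : ℂ) + h * I + X1 * (-1 + I)) - Q ((α : ℂ) + h * I)‖ ≤
      G * (Real.sqrt 2 * (Real.sqrt Real.pi / (4 * (c2 / β * Real.sqrt (c2 / β))))) := by
    have h1 := piece hg hm ((α : ℂ) + h * I) (-1 + I) hX1.le
      (m := fun x => G * (x ^ 2 * Real.exp (-(c2 / β * x ^ 2)))) (by fun_prop) (fun x hx => by
        have i1 : (x : ℂ) * (-1 + I) = ((-x : ℝ) : ℂ) + x * I := by push_cast; ring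
        have hw : ‖mw (((-x : ℝ) : ℂ) + x * I)‖ ≤ x ^ 2 := by
          refine (norm_mw_le_sq (by simpa using hx.1)).trans ?_
          rw [← i1, nrm' x hx.1, mul_pow, Real.sq_sqrt (by norm_num)]
          linarith
        rw [i1]
        refine (H.norm_mg_le (H.e1 x hx.1 hx.2) hw).trans (le_of_eq ?_)
        rw [← hG]
        have i5 : Real.exp (-(c2 * x ^ 2) / β) = Real.exp (-(c2 / β * x ^ 2)) := by congr 1; ring
        rw [i5]
        ring)
    rw [norm_neg_one_add_I, intervalIntegral.integral_const_mul] at h1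
    have h3 := int_sq_gauss_le (div_pos H.c20 hβ) hX1.le
    simp only [Complex.ofReal_zero, zero_mul, add_zero] at h1
    refine h1.trans ?_
    nlinarith [mul_le_mul_of_nonneg_left h3 (mul_nonneg hG0 h20)]
  have p3 : ‖Q ((α : ℂ) + h * I + X * (1 - I)) - Q ((α : ℂ) + h * I)‖ ≤
      G * (Real.sqrt 2 * (2 * p2 * (Real.sqrt Real.pi / (4 * (c1 / β * Real.sqrt (c1 / β)))))) := by
    have hp20 : 0 ≤ p2 := by
      have h1 := Real.add_one_le_exp X
      have h2 : 0 < X ^ 2 := by positivity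
      by_contra hc
      nlinarith [mul_neg_of_neg_of_pos (not_le.1 hc) h2]
    have h1 := piece hg hm ((α : ℂ) + h * I) (1 - I) hX0.le
      (m := fun x => G * (2 * p2) * (x ^ 2 * Real.exp (-(c1 / β * x ^ 2)))) (by fun_prop) (fun x hx => by
        have i1 : (x : ℂ) * (1 - I) = (x : ℂ) + ((-x : ℝ) : ℂ) * I := by push_cast; ring
        have hw : ‖mw ((x : ℂ) + ((-x : ℝ) : ℂ) * I)‖ ≤ p2 * (2 * x ^ 2) := by
          refine (norm_mw_le_X hX0 (by simpa using hx.2) hp2).trans ?_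
          rw [← i1, nrm x hx.1, mul_pow, Real.sq_sqrt (by norm_num)]
        rw [i1]
        refine (H.norm_mg_le (H.e2 x hx.1 hx.2) hw).trans (le_of_eq ?_)
        rw [← hG]
        have i5 : Real.exp (-(c1 * x ^ 2) / β) = Real.exp (-(c1 / β * x ^ 2)) := by congr 1; ring
        rw [i5]
        ring)
    rw [norm_one_sub_I, intervalIntegral.integral_const_mul] at h1
    have h3 := int_sq_gauss_le (div_pos H.c10 hβ) hX0.le
    simp only [Complex.ofReal_zero, zero_mul, add_zero] at h1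
    refine h1.trans ?_
    nlinarith [mul_le_mul_of_nonneg_left h3 (mul_nonneg (mul_nonneg hG0 h20) hp20)]
  have hK : 1 ≤ 1 + Real.sqrt 2 * X + xh := by
    have := mul_nonneg h20 hX0.le
    linarith
  have p4 : ‖Q ((α : ℂ) + h * I + X * (1 - I) + xh * (1 : ℂ)) - Q ((α : ℂ) + h * I + X * (1 - I))‖ ≤
      G * (Real.exp (-(c1 * X ^ 2 / β)) * ((Real.exp X + 1 + Real.sqrt 2 * X + xh) * (β / σ3))) := by
    refine (H.hor hg hm
      (m := fun x => G * Real.exp (-(c1 * X ^ 2 / β)) * (Real.exp X + 1 + Real.sqrt 2 * X + xh) *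
        Real.exp (-(σ3 / β * x))) (by fun_prop) (fun x hx => ?_)).trans ?_
    · have hw : ‖mw (((X + x : ℝ) : ℂ) + ((-X : ℝ) : ℂ) * I)‖ ≤ Real.exp X + 1 + Real.sqrt 2 * X + xh := by
        refine (norm_mw_le _).trans ?_
        have i1 : (((X + x : ℝ) : ℂ) + ((-X : ℝ) : ℂ) * I).im = -X := by simp
        have i2 : (((X + x : ℝ) : ℂ) + ((-X : ℝ) : ℂ) * I) = X * (1 - I) + (x : ℂ) := by push_cast; ring
        rw [i1, i2, neg_neg]
        have i3 := norm_add_le ((X : ℂ) * (1 - I)) (x : ℂ)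
        rw [nrm X hX0.le, Complex.norm_real, Real.norm_of_nonneg hx.1] at i3
        linarith [hx.2]
      refine (H.norm_mg_le (H.e4 x hx.1 hx.2) hw).trans (le_of_eq ?_)
      rw [← hG]
      have i5 : Real.exp ((-(c1 * X ^ 2) - σ3 * x) / β) =
          Real.exp (-(c1 * X ^ 2 / β)) * Real.exp (-(σ3 / β * x)) := by
        rw [← Real.exp_add]; congr 1; ring
      rw [i5]
      ring
    · refine (int_exp_le (by positivity) (div_pos H.σ30 hβ) hxh).trans (le_of_eq ?_)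
      have := H.σ30.ne'
      field_simp
  have p5 : ‖v - Q ((α : ℂ) + h * I + X * (1 - I) + xh * (1 : ℂ))‖ ≤
      G * (Real.exp (-(c1 * X ^ 2 / β)) * ((Real.exp X + 1 + Real.sqrt 2 * X + xh) * (1 / (σ4 / β - 1)))) := by
    have hc : 0 < σ4 / β - 1 := by
      have : 1 < σ4 / β := (one_lt_div hβ).2 H.σ40
      linarith
    refine H.down hg hm hlim2
      (m := fun x => G * Real.exp (-(c1 * X ^ 2 / β)) * (Real.exp X + 1 + Real.sqrt 2 * X + xh) *
        Real.exp (-((σ4 / β - 1) * x))) (by fun_prop) (fun x hx => ?_) (fun T hT => ?_)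
    · have hw : ‖mw (((X + xh : ℝ) : ℂ) + ((-X - x : ℝ) : ℂ) * I)‖ ≤
          (Real.exp X + 1 + Real.sqrt 2 * X + xh) * Real.exp x := by
        refine (norm_mw_le _).trans ?_
        have i1 : (((X + xh : ℝ) : ℂ) + ((-X - x : ℝ) : ℂ) * I).im = -X - x := by simp
        have i2 : (((X + xh : ℝ) : ℂ) + ((-X - x : ℝ) : ℂ) * I) = X * (1 - I) + (xh : ℂ) + ((-x : ℝ) : ℂ) * I := by
          push_cast; ring
        have i6 : ‖((-x : ℝ) : ℂ) * I‖ = x := by
          rw [norm_mul, Complex.norm_real, Complex.norm_I, mul_one, Real.norm_eq_abs, abs_neg, abs_of_nonneg hx]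
        rw [i1, i2]
        have i3 := norm_add₃_le (a := (X : ℂ) * (1 - I)) (b := (xh : ℂ)) (c := ((-x : ℝ) : ℂ) * I)
        rw [nrm X hX0.le, Complex.norm_real, Real.norm_of_nonneg hxh, i6] at i3
        have i7 : Real.exp (-(-X - x)) = Real.exp X * Real.exp x := by rw [← Real.exp_add]; congr 1; ring
        rw [i7]
        have i8 := Real.add_one_le_exp x
        nlinarith
      refine (H.norm_mg_le (H.e5 x hx) hw).trans (le_of_eq ?_)
      rw [← hG]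
      have i5 : Real.exp x * Real.exp ((-(c1 * X ^ 2) - σ4 * x) / β) =
          Real.exp (-(c1 * X ^ 2 / β)) * Real.exp (-((σ4 / β - 1) * x)) := by
        rw [← Real.exp_add, ← Real.exp_add]; congr 1; ring
      linear_combination (G * (Real.exp X + 1 + Real.sqrt 2 * X + xh)) * i5
    · refine (int_exp_le (by positivity) hc hT).trans (le_of_eq ?_)
      field_simp
  have e0 : v - l =
      (Q ((α : ℂ) + h * I + X1 * (-1 + I)) - l) -
      (Q ((α : ℂ) + h * I + X1 * (-1 + I)) - Q ((α : ℂ) + h * I)) +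
      (Q ((α : ℂ) + h * I + X * (1 - I)) - Q ((α : ℂ) + h * I)) +
      (Q ((α : ℂ) + h * I + X * (1 - I) + xh * (1 : ℂ)) - Q ((α : ℂ) + h * I + X * (1 - I))) +
      (v - Q ((α : ℂ) + h * I + X * (1 - I) + xh * (1 : ℂ))) := by ring
  rw [e0]
  refine (norm_add_le _ _).trans ?_
  refine (add_le_add ((norm_add_le _ _).trans (add_le_add ((norm_add_le _ _).trans
    (add_le_add ((norm_sub_le _ _).trans (add_le_add p1 p2')) p3)) p4)) p5).trans (le_of_eq ?_)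
  unfold mX
  ring

end

end Sok.Mid
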