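import Pool.Agent.Lib.MP_816dec_an.MXnum

/-!
MP_816dec_an, `b = 1`, middle range: numerical form of the moment of the left function, final statement.
-/

set_option autoImplicit false

open Complex Set Filter Topology MeasureTheory Sok.W

namespace Sok.Mid

variable {β r t α h xh c c1 c2 σ1 ρ0 η0 b0 sd qη q1 q2 E1 E2 E3 E4 ε M E0 : ℝ}

theorem X_moment_le (N : XNum ρ0 η0 b0 sd c c1 c2 σ1 qη q1 q2 E1 E2 E3 E4 ε M E0)
    (h0 : Sad β r t α h) (hb : β ≤ b0 ^ 2) (hxh0 : 0 ≤ xh) (hxh : xh ≤ 53 / 50)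
    (hd0 : 0 < ‖Dx t α h‖) (hd : ‖Dx t α h‖ ≤ sd ^ 2) :
    mX β (16 / 25) (53 / 50) xh (6262 / 10000) c1 c2 σ1 (16 / 25) (19 / 50) ≤
      M * (Real.sqrt (2 * Real.pi) * Real.sqrt β / Real.sqrt ‖Dx t α h‖) := by
  have hβ := h0.hβ
  obtain ⟨u, hu⟩ : ∃ u : ℝ, u = Real.sqrt (2 * Real.pi) := ⟨_, rfl⟩
  have hu52 : 5 / 2 ≤ u := by rw [hu]; exact u_ge
  obtain ⟨b, hbe⟩ : ∃ b : ℝ, b = Real.sqrt β := ⟨_, rfl⟩
  have hbp : 0 < b := by rw [hbe]; exact Real.sqrt_pos.2 hβ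
  have hb2 : β = b ^ 2 := by rw [hbe, Real.sq_sqrt hβ.le]
  obtain ⟨δ, hδ⟩ : ∃ δ : ℝ, δ = Real.sqrt ‖Dx t α h‖ := ⟨_, rfl⟩
  have hδp : 0 < δ := by rw [hδ]; exact Real.sqrt_pos.2 hd0
  have hδs : δ ≤ sd := by
    rw [hδ]; exact Real.sqrt_le_iff.2 ⟨N.sd0.le, hd⟩
  have hbb : b ≤ b0 := by
    rw [hb2] at hb
    exact le_of_sq_le_sq hb N.b00.le
  have hsd0 := N.sd0
  have hc10 := N.c10
  have hc20 := N.c20
  have hσ10 := N.σ10
  have hq10 := N.q10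
  have hq20 := N.q20
  have hb00 := N.b00
  have hup : 0 < u := by linarith
  have s2 : Real.sqrt 2 * Real.sqrt 2 = 2 := Real.mul_self_sqrt (by norm_num)
  have s2p : 0 < Real.sqrt 2 := by positivity
  have s2u : Real.sqrt 2 ≤ 1.415 := by nlinarith
  have spi : Real.sqrt 2 * Real.sqrt Real.pi = u := by rw [hu, Real.sqrt_mul (by norm_num)]
  obtain ⟨z1, hz1⟩ : ∃ z : ℝ, z = Real.sqrt c1 := ⟨_, rfl⟩
  obtain ⟨z2, hz2⟩ : ∃ z : ℝ, z = Real.sqrt c2 := ⟨_, rfl⟩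
  have hz1q : q1 ≤ z1 := by rw [hz1]; exact Real.le_sqrt_of_sq_le N.hq1
  have hz2q : q2 ≤ z2 := by rw [hz2]; exact Real.le_sqrt_of_sq_le N.hq2
  have hz1p : 0 < z1 := hq10.trans_le hz1q
  have hz2p : 0 < z2 := hq20.trans_le hz2q
  have r1 : Real.sqrt (c1 / β) = z1 / b := by rw [Real.sqrt_div hc10.le, ← hz1, ← hbe]
  have r2 : Real.sqrt (c2 / β) = z2 / b := by rw [Real.sqrt_div hc20.le, ← hz2, ← hbe]
  obtain ⟨m, hm⟩ : ∃ m : ℝ, m = u * b / sd := ⟨_, rfl⟩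
  have hmp : 0 < m := by rw [hm]; positivity
  have hmK : ∀ K : ℝ, m * (K * b * sd / u) = K * β := by
    intro K; rw [hm, hb2]; field_simp
  have x3 : Real.exp (-(c2 * (53 / 50) ^ 2 / β)) ≤ E3 := exp_div_le (by positivity) hβ hb N.hE3
  have x4 : Real.exp (-(c1 * (16 / 25) ^ 2 / β)) ≤ E4 := exp_div_le (by positivity) hβ hb N.hE4
  have hE3p : 0 < E3 := (Real.exp_pos _).trans_le x3
  have hE4p : 0 < E4 := (Real.exp_pos _).trans_le x4
  have hs4 : 0 < 19 / 50 - b0 ^ 2 := by linarith [N.b0s]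
  have hs4' : 0 < 19 / 50 - β := by linarith
  have T1 : Real.sqrt 2 * (Real.sqrt Real.pi / (4 * (c2 / β * Real.sqrt (c2 / β)))) ≤
      m * (b0 ^ 2 * sd / (4 * (c2 * q2))) := by
    rw [r2]
    have e1 : Real.sqrt 2 * (Real.sqrt Real.pi / (4 * (c2 / β * (z2 / b)))) =
        m * (b ^ 2 * sd / (4 * (c2 * z2))) := by
      rw [← mul_div_assoc, spi, hm, hb2]; field_simp
    rw [e1]
    gcongr
  have T2 : Real.sqrt 2 * (2 * (6262 / 10000) * (Real.sqrt Real.pi / (4 * (c1 / β * Real.sqrt (c1 / β))))) ≤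
      m * (2 * (6262 / 10000) * (b0 ^ 2 * sd / (4 * (c1 * q1)))) := by
    rw [r1]
    have e1 : Real.sqrt 2 * (2 * (6262 / 10000) * (Real.sqrt Real.pi / (4 * (c1 / β * (z1 / b))))) =
        m * (2 * (6262 / 10000) * (b ^ 2 * sd / (4 * (c1 * z1)))) := by
      have e2 : Real.sqrt 2 * (2 * (6262 / 10000) * (Real.sqrt Real.pi / (4 * (c1 / β * (z1 / b))))) =
          2 * (6262 / 10000) * ((Real.sqrt 2 * Real.sqrt Real.pi) / (4 * (c1 / β * (z1 / b)))) := by ring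
      rw [e2, spi, hm, hb2]; field_simp
    rw [e1]
    gcongr
  have T3 : Real.exp (-(c2 * (53 / 50) ^ 2 / β)) * ((2 + Real.sqrt 2 * (53 / 50)) / (σ1 / β) + 1 / (σ1 / β) ^ 2) ≤
      m * (E3 * (35 / 10 / σ1 + b0 ^ 2 / σ1 ^ 2) * b0 * sd / (5 / 2)) := by
    have e1 : Real.exp (-(c2 * (53 / 50) ^ 2 / β)) *
        ((2 + Real.sqrt 2 * (53 / 50)) / (σ1 / β) + 1 / (σ1 / β) ^ 2) =
        m * (Real.exp (-(c2 * (53 / 50) ^ 2 / β)) * ((2 + Real.sqrt 2 * (53 / 50)) / σ1 + β / σ1 ^ 2) *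
          b * sd / u) := by
      rw [hmK]
      field_simp
    rw [e1]
    have i1 : 2 + Real.sqrt 2 * (53 / 50) ≤ 35 / 10 := by nlinarith
    gcongr
  have T4 : Real.exp (-(c1 * (16 / 25) ^ 2 / β)) * ((Real.exp (16 / 25) + 1 + Real.sqrt 2 * (16 / 25) + xh) *
      (β / (16 / 25) + 1 / ((19 / 50) / β - 1))) ≤
      m * (E4 * (488 / 100 * (1 / (16 / 25) + 1 / (19 / 50 - b0 ^ 2))) * b0 * sd / (5 / 2)) := by
    have i0 : 1 / ((19 / 50) / β - 1) = 1 / (19 / 50 - β) * β := by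
      have : (19 / 50) / β - 1 = (19 / 50 - β) / β := by field_simp
      rw [this]
      field_simp
    have e1 : Real.exp (-(c1 * (16 / 25) ^ 2 / β)) * ((Real.exp (16 / 25) + 1 + Real.sqrt 2 * (16 / 25) + xh) *
      (β / (16 / 25) + 1 / ((19 / 50) / β - 1))) =
        m * (Real.exp (-(c1 * (16 / 25) ^ 2 / β)) * ((Real.exp (16 / 25) + 1 + Real.sqrt 2 * (16 / 25) + xh) *
          (1 / (16 / 25) + 1 / (19 / 50 - β))) * b * sd / u) := by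
      rw [hmK, i0]
      ring
    rw [e1]
    have i1 : Real.exp (16 / 25) + 1 + Real.sqrt 2 * (16 / 25) + xh ≤ 488 / 100 := by
      have := exp_16_25.1
      nlinarith
    have i2 : 0 ≤ Real.exp (16 / 25) + 1 + Real.sqrt 2 * (16 / 25) + xh := by positivity
    have i3 : 1 / (19 / 50 - β) ≤ 1 / (19 / 50 - b0 ^ 2) := one_div_le_one_div_of_le hs4 (by linarith)
    have i4 : 0 ≤ 1 / (19 / 50 - β) := by positivity
    gcongr
  have hMp : 0 ≤ M := by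
    refine le_trans ?_ N.hG
    positivity
  have hS : mX β (16 / 25) (53 / 50) xh (6262 / 10000) c1 c2 σ1 (16 / 25) (19 / 50) ≤ m * M := by
    have hG := mul_le_mul_of_nonneg_left N.hG hmp.le
    have e5 : m * (b0 ^ 2 * sd / (4 * (c2 * q2)) + 2 * (6262 / 10000) * (b0 ^ 2 * sd / (4 * (c1 * q1))) +
        (E3 * (35 / 10 / σ1 + b0 ^ 2 / σ1 ^ 2) +
        E4 * (488 / 100 * (1 / (16 / 25) + 1 / (19 / 50 - b0 ^ 2)))) * b0 * sd / (5 / 2)) =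
        m * (b0 ^ 2 * sd / (4 * (c2 * q2))) + m * (2 * (6262 / 10000) * (b0 ^ 2 * sd / (4 * (c1 * q1)))) +
        m * (E3 * (35 / 10 / σ1 + b0 ^ 2 / σ1 ^ 2) * b0 * sd / (5 / 2)) +
        m * (E4 * (488 / 100 * (1 / (16 / 25) + 1 / (19 / 50 - b0 ^ 2))) * b0 * sd / (5 / 2)) := by ring
    rw [e5] at hG
    unfold mX
    linarith
  refine hS.trans ?_
  rw [← hu, ← hbe, ← hδ, mul_comm M]
  refine mul_le_mul_of_nonneg_right ?_ hMp
  rw [hm]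
  gcongr

/-- **final form of the left function** -/
theorem X_final (N : XNum ρ0 η0 b0 sd c c1 c2 σ1 qη q1 q2 E1 E2 E3 E4 ε M E0)
    (H : XHyp β r t α h (16 / 25) (53 / 50) xh c1 c2 σ1 (16 / 25) (19 / 50)) (hxh : xh ≤ 53 / 50)
    (hρ : β * r * Real.exp (-h) ≤ ρ0) (hη : η0 ≤ 1 + h) (hb : β ≤ b0 ^ 2) (hd : ‖Dx t α h‖ ≤ sd ^ 2)
    (hcρ : 2 * (β * r * Real.exp (-h)) * (1972 / 10000) * (Real.sqrt 2 * (16 / 25)) ≤ (1 - c) * (1 + h)) :
    CC β r t ≠ 0 ∧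
      |(I * (r * cexp (I * (t + β / 2))) * CC β r (t + β) / CC β r t).re + h / β| ≤ E0 / β := by
  have hβ := H.sad.hβ
  have hη' : 0 < 1 + h := N.η00.trans_le hη
  have hre : 1 + h ≤ ‖Dx t α h‖ := by
    have := Complex.re_le_norm (Dx t α h)
    rwa [Dx_re] at this
  have hd0 : 0 < ‖Dx t α h‖ := hη'.trans_le hre
  have hD : Dx t α h ≠ 0 := norm_pos_iff.1 hd0
  have hρp : 0 < β * r * Real.exp (-h) := mul_pos (mul_pos hβ H.sad.hr) (Real.exp_pos _)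
  have h1 := seg_X H.sad hη' N.c0 N.cle hcρ
  have h2 := X_value_le N H.sad hρ hη hb hd0 hd
  have h3 := X_moment_le N H.sad hb H.xh0 hxh hd0 hd
  obtain ⟨μ, hμ⟩ : ∃ μ : ℂ, μ = (2 * Real.pi / (Dx t α h / β)) ^ (1 / 2 : ℂ) := ⟨_, rfl⟩
  have hμn : ‖μ‖ = Real.sqrt (2 * Real.pi) * Real.sqrt β / Real.sqrt ‖Dx t α h‖ := by
    rw [hμ]
    refine norm_mu H.sad hD ?_
    rw [norm_div, Complex.norm_real, Real.norm_of_nonneg hβ.le]
  rw [← hμ] at h1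
  rw [← hμn] at h2 h3
  have hμp : 0 < ‖μ‖ := by
    rw [hμn]
    have := Real.sqrt_pos.2 hd0
    have := Real.sqrt_pos.2 hβ
    have := Real.sqrt_pos.2 (by positivity : (0:ℝ) < 2 * Real.pi)
    positivity
  have hε := N.hε
  obtain ⟨S, hS⟩ : ∃ S : ℝ, S = SVX β (β * r * Real.exp (-h)) ((1 + h) / β) c (Real.sqrt 2 * (16 / 25)) +
      eX β (16 / 25) (53 / 50) c1 c2 σ1 (16 / 25) (19 / 50) := ⟨_, rfl⟩
  have hSlt : S < ‖μ‖ := by
    rw [hS]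
    refine h2.trans_lt ?_
    nlinarith
  obtain ⟨k1, k2⟩ := H.slope hD h1 p2_X (by rw [← hS]; exact hSlt)
  refine ⟨k1, k2.trans ?_⟩
  rw [← hS]
  refine div_le_div_of_nonneg_right ?_ hβ.le
  rw [← hS] at h2
  have hMp : 0 ≤ M := by
    by_contra hc
    have h5 : 0 < mX β (16 / 25) (53 / 50) xh (6262 / 10000) c1 c2 σ1 (16 / 25) (19 / 50) := by
      unfold mX
      have := N.c10
      have := N.c20
      have := N.σ10
      have := H.xh0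
      have h6 : 0 < 19 / 50 / β - 1 := by
        have : 1 < 19 / 50 / β := (one_lt_div hβ).2 H.σ40
        linarith
      positivity
    nlinarith [mul_neg_of_neg_of_pos (not_le.1 hc) hμp]
  have h4 : mX β (16 / 25) (53 / 50) xh (6262 / 10000) c1 c2 σ1 (16 / 25) (19 / 50) /
      (‖Dx t α h‖ * (‖μ‖ - S)) ≤ M / (η0 * (1 - ε)) := by
    rw [div_le_div_iff₀ (mul_pos hd0 (by linarith)) (mul_pos N.η00 (by linarith))]
    have h6 : (1 - ε) * ‖μ‖ ≤ ‖μ‖ - S := by nlinarith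
    have h7 : η0 * ((1 - ε) * ‖μ‖) ≤ ‖Dx t α h‖ * (‖μ‖ - S) :=
      mul_le_mul (hη.trans hre) h6 (mul_nonneg (by linarith) hμp.le) hd0.le
    calc _ ≤ M * ‖μ‖ * (η0 * (1 - ε)) := mul_le_mul_of_nonneg_right h3
          (mul_nonneg N.η00.le (by linarith))
      _ = M * (η0 * ((1 - ε) * ‖μ‖)) := by ring
      _ ≤ M * (‖Dx t α h‖ * (‖μ‖ - S)) := mul_le_mul_of_nonneg_left h7 hMp
  have h8 : 0 < η0 * (1 - ε) := mul_pos N.η00 (by linarith)
  calc β * r * Real.exp (-h) * (mX β (16 / 25) (53 / 50) xh (6262 / 10000) c1 c2 σ1 (16 / 25) (19 / 50) /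
      (‖Dx t α h‖ * (‖μ‖ - S))) ≤ β * r * Real.exp (-h) * (M / (η0 * (1 - ε))) :=
        mul_le_mul_of_nonneg_left h4 hρp.le
    _ ≤ ρ0 * (M / (η0 * (1 - ε))) := mul_le_mul_of_nonneg_right hρ (by positivity)
    _ ≤ E0 := by
      rw [← mul_div_assoc, div_le_iff₀ h8]
      exact N.hM

end Sok.Mid
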