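import Pool.Agent.Lib.MP_816dec_an.MSlope

/-!
MP_816dec_an, `b = 1`, middle range: the numerical form of the estimate of the left function.
-/

set_option autoImplicit false

open Complex Set Filter Topology MeasureTheory Sok.W

namespace Sok.Mid

theorem exp_16_25 : Real.exp (16 / 25) ≤ 1.896482 ∧ 1.89648 ≤ Real.exp (16 / 25) := by
  have h1 := Real.exp_bound' (x := 16 / 25) (by norm_num) (by norm_num) (n := 10) (by norm_num)
  have h2 := Real.sum_le_exp_of_nonneg (x := 16 / 25) (by norm_num) 10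
  simp only [Finset.sum_range_succ, Finset.sum_range_zero, Nat.factorial] at h1 h2
  norm_num at h1 h2
  constructor
  · refine h1.trans ?_; norm_num
  · refine le_trans ?_ h2; norm_num

theorem segBd_X : SegBd (-(Real.pi / 4)) (Real.sqrt 2 * (16 / 25)) (1972 / 10000) (477 / 10000) := by
  obtain ⟨h1, h2⟩ := exp_16_25
  refine segBd_of (X := 16 / 25) (by norm_num) ?_ ?_ ?_
  · rw [Real.sin_neg, abs_neg, Real.sin_pi_div_four, abs_of_pos (by positivity)]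
    have : Real.sqrt 2 * Real.sqrt 2 = 2 := Real.mul_self_sqrt (by norm_num)
    nlinarith
  · norm_num at h1 ⊢; linarith
  · norm_num at h1 ⊢; linarith

theorem p2_X : Real.exp (16 / 25) - 1 - 16 / 25 ≤ 6262 / 10000 * (16 / 25) ^ 2 := by
  have h1 := exp_16_25.1
  norm_num at h1 ⊢; linarith

/-- value of the Gaussian constant -/
theorem norm_mu {β r t a y : ℝ} (h : Sad β r t a y) (hD : Dx t a y ≠ 0) {Λ : ℂ}
    (hΛ : ‖Λ‖ = ‖Dx t a y‖ / β) :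
    ‖(2 * Real.pi / Λ : ℂ) ^ (1 / 2 : ℂ)‖ = Real.sqrt (2 * Real.pi) * Real.sqrt β / Real.sqrt ‖Dx t a y‖ := by
  have hβ := h.hβ
  have hd : 0 < ‖Dx t a y‖ := norm_pos_iff.2 hD
  have hΛ0 : Λ ≠ 0 := by
    rw [← norm_pos_iff, hΛ]; positivity
  have hpi : (Real.pi : ℂ) ≠ 0 := by exact_mod_cast Real.pi_ne_zero
  rw [norm_cpow_half (div_ne_zero (mul_ne_zero two_ne_zero hpi) hΛ0), norm_div, hΛ]
  have e1 : ‖(2 * Real.pi : ℂ)‖ = 2 * Real.pi := by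
    have : (2 * Real.pi : ℂ) = ((2 * Real.pi : ℝ) : ℂ) := by push_cast; rfl
    rw [this, Complex.norm_real, Real.norm_of_nonneg (by positivity)]
  rw [e1, div_div_eq_mul_div, Real.sqrt_div (by positivity), Real.sqrt_mul (by positivity)]

section
variable {β r t α h xh c c1 c2 σ1 : ℝ}

/-- `SV` of the segment, `a = (1 + h)/β` -/
noncomputable def SVX (β ρ a c T : ℝ) : ℝ :=
  3 * Real.sqrt (2 * Real.pi) * (ρ / β * (477 / 10000)) / (a ^ 2 * Real.sqrt a) +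
      15 / 2 * Real.sqrt (2 * Real.pi) * (ρ / β * (1972 / 10000)) ^ 2 / ((c * a) ^ 3 * Real.sqrt (c * a)) +
      2 * (Real.exp (-(a / 2) * T ^ 2) / (a * T))

theorem seg_X (h0 : Sad β r t α h) (hη : 0 < 1 + h) (hc : 0 < c) (hc1 : c ≤ 1)
    (hρ : 2 * (β * r * Real.exp (-h)) * (1972 / 10000) * (Real.sqrt 2 * (16 / 25)) ≤ (1 - c) * (1 + h)) :
    ‖(∫ x in (-(Real.sqrt 2 * (16 / 25)))..(Real.sqrt 2 * (16 / 25)),
      cexp (Psi (Lx t α h) (x * cexp (((-(Real.pi / 4) : ℝ) : ℂ) * I)) / β)) -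
        (2 * Real.pi / (Dx t α h / β)) ^ (1 / 2 : ℂ)‖ ≤
      SVX β (β * r * Real.exp (-h)) ((1 + h) / β) c (Real.sqrt 2 * (16 / 25)) := by
  have hβ := h0.hβ
  have hb : (β : ℂ) ≠ 0 := by exact_mod_cast hβ.ne'
  have e1 : cexp (2 * ((-(Real.pi / 4) : ℝ) : ℂ) * I) = -I := by
    have : 2 * ((-(Real.pi / 4) : ℝ) : ℂ) * I = ((-(Real.pi / 2) : ℝ) : ℂ) * I := by push_cast; ring
    rw [this, Complex.exp_mul_I, ← Complex.ofReal_cos, ← Complex.ofReal_sin, Real.cos_neg, Real.sin_neg,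
      Real.cos_pi_div_two, Real.sin_pi_div_two]
    push_cast
    ring
  have hΛ : Dx t α h / β = (I + Lx t α h) / β * cexp (2 * ((-(Real.pi / 4) : ℝ) : ℂ) * I) := by
    rw [e1]
    unfold Dx
    field_simp
    linear_combination Complex.I_sq
  have hre : (Dx t α h / β).re = (1 + h) / β := by
    rw [Complex.div_ofReal_re, Dx_re]
  have hT : 0 < Real.sqrt 2 * (16 / 25) := by positivity
  have hL := norm_Lx h0
  have h1 := sad_value (x0 := Lx t α h) (γ := -(Real.pi / 4)) (T := Real.sqrt 2 * (16 / 25)) (c := c) hβ hΛ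
    (by rw [hre]; positivity) hc hc1 hT (by norm_num) segBd_X (by
      intro x hx
      rw [hre]
      refine hre_of hβ segBd_X (by norm_num) ?_ x hx
      rw [hL]
      have h2 := div_le_div_of_nonneg_right hρ hβ.le
      refine le_trans (le_of_eq ?_) (h2.trans (le_of_eq ?_)) <;> ring)
  rw [hre, hL] at h1
  exact h1

/-- the numerical data of one interval of `κ` -/
structure XNum (ρ0 η0 b0 sd c c1 c2 σ1 qη q1 q2 E1 E2 E3 E4 ε M E0 : ℝ) : Prop where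
  ρ00 : 0 < ρ0
  η00 : 0 < η0
  b00 : 0 < b0
  sd0 : 0 < sd
  c0 : 0 < c
  cle : c ≤ 1
  c10 : 0 < c1
  c20 : 0 < c2
  σ10 : 0 < σ1
  qη0 : 0 < qη
  q10 : 0 < q1
  q20 : 0 < q2
  b0s : b0 ^ 2 < 19 / 50
  hc1 : c1 ≤ c * η0
  hqη : qη ^ 2 ≤ η0
  hq1 : q1 ^ 2 ≤ c1
  hq2 : q2 ^ 2 ≤ c2
  hE1 : Real.exp (-(η0 * (16 / 25) ^ 2 / b0 ^ 2)) ≤ E1
  hE2 : Real.exp (-(c2 * (16 / 25) ^ 2 / b0 ^ 2)) ≤ E2
  hE3 : Real.exp (-(c2 * (53 / 50) ^ 2 / b0 ^ 2)) ≤ E3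
  hE4 : Real.exp (-(c1 * (16 / 25) ^ 2 / b0 ^ 2)) ≤ E4
  hF : 3 * ρ0 * (477 / 10000) * b0 ^ 2 * sd / (η0 ^ 2 * qη) +
      15 / 2 * (ρ0 * (1972 / 10000)) ^ 2 * b0 ^ 2 * sd / (c1 ^ 3 * q1) +
      2 * E1 * b0 * sd / (η0 * (14 / 10 * (16 / 25)) * (5 / 2)) +
      (15 / 10 * (E2 / (2 * c2 * (16 / 25))) + E3 / σ1 + E4 * (1 / (16 / 25) + 1 / (19 / 50))) * b0 * sd / (5 / 2) ≤ ε
  hε : ε < 1
  hG : b0 ^ 2 * sd / (4 * (c2 * q2)) + 2 * (6262 / 10000) * (b0 ^ 2 * sd / (4 * (c1 * q1))) +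
      (E3 * (35 / 10 / σ1 + b0 ^ 2 / σ1 ^ 2) +
        E4 * (488 / 100 * (1 / (16 / 25) + 1 / (19 / 50 - b0 ^ 2)))) * b0 * sd / (5 / 2) ≤ M
  hM : ρ0 * M ≤ E0 * (η0 * (1 - ε))

theorem exp_div_le {x β B E : ℝ} (hx : 0 ≤ x) (hβ : 0 < β) (hβB : β ≤ B) (hE : Real.exp (-(x / B)) ≤ E) :
    Real.exp (-(x / β)) ≤ E := by
  refine le_trans (Real.exp_le_exp.2 ?_) hE
  have := div_le_div_of_nonneg_left hx hβ hβB
  linarith

theorem u_ge : (5 / 2 : ℝ) ≤ Real.sqrt (2 * Real.pi) := by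
  apply Real.le_sqrt_of_sq_le
  have := Real.pi_gt_d2
  norm_num at this ⊢
  linarith

variable {ρ0 η0 b0 sd qη q1 q2 E1 E2 E3 E4 ε M E0 : ℝ}

theorem X_value_le (N : XNum ρ0 η0 b0 sd c c1 c2 σ1 qη q1 q2 E1 E2 E3 E4 ε M E0)
    (h0 : Sad β r t α h) (hρ : β * r * Real.exp (-h) ≤ ρ0) (hη : η0 ≤ 1 + h) (hb : β ≤ b0 ^ 2)
    (hd0 : 0 < ‖Dx t α h‖) (hd : ‖Dx t α h‖ ≤ sd ^ 2) :
    SVX β (β * r * Real.exp (-h)) ((1 + h) / β) c (Real.sqrt 2 * (16 / 25)) +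
      eX β (16 / 25) (53 / 50) c1 c2 σ1 (16 / 25) (19 / 50) ≤
      ε * (Real.sqrt (2 * Real.pi) * Real.sqrt β / Real.sqrt ‖Dx t α h‖) := by
  have hβ := h0.hβ
  obtain ⟨ρ, hρe⟩ : ∃ ρ : ℝ, ρ = β * r * Real.exp (-h) := ⟨_, rfl⟩
  have hρp : 0 < ρ := by
    rw [hρe]; exact mul_pos (mul_pos hβ h0.hr) (Real.exp_pos _)
  rw [← hρe] at hρ ⊢
  obtain ⟨η, hηe⟩ : ∃ η : ℝ, η = 1 + h := ⟨_, rfl⟩
  rw [← hηe] at hη ⊢
  obtain ⟨u, hu⟩ : ∃ u : ℝ, u = Real.sqrt (2 * Real.pi) := ⟨_, rfl⟩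
  have hu52 : 5 / 2 ≤ u := by rw [hu]; exact u_ge
  obtain ⟨b, hbe⟩ : ∃ b : ℝ, b = Real.sqrt β := ⟨_, rfl⟩
  have hbp : 0 < b := by rw [hbe]; exact Real.sqrt_pos.2 hβ
  have hb2 : β = b ^ 2 := by rw [hbe, Real.sq_sqrt hβ.le]
  obtain ⟨δ, hδ⟩ : ∃ δ : ℝ, δ = Real.sqrt ‖Dx t α h‖ := ⟨_, rfl⟩
  have hδp : 0 < δ := by rw [hδ]; exact Real.sqrt_pos.2 hd0
  have hδs : δ ≤ sd := by
    rw [hδ]; exact Real.sqrt_le_iff.2 ⟨N.sd0.le, hd⟩
  have hbb : b ≤ b0 := by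
    rw [hb2] at hb
    exact le_of_sq_le_sq hb N.b00.le
  have hρ00 := N.ρ00
  have hη00 := N.η00
  have hηp : 0 < η := hη00.trans_le hη
  have hsd0 := N.sd0
  have hc0 := N.c0
  have hc10 := N.c10
  have hc20 := N.c20
  have hσ10 := N.σ10
  have hqη0 := N.qη0
  have hq10 := N.q10
  have hb00 := N.b00
  have hup : 0 < u := by linarith
  -- square roots
  obtain ⟨y, hy⟩ : ∃ y : ℝ, y = Real.sqrt η := ⟨_, rfl⟩
  have hyq : qη ≤ y := by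
    rw [hy]; exact Real.le_sqrt_of_sq_le (N.hqη.trans hη)
  have hyp : 0 < y := hqη0.trans_le hyq
  obtain ⟨z, hz⟩ : ∃ z : ℝ, z = Real.sqrt (c * η) := ⟨_, rfl⟩
  have hcη : c1 ≤ c * η := N.hc1.trans (mul_le_mul_of_nonneg_left hη hc0.le)
  have hzq : q1 ≤ z := by
    rw [hz]; exact Real.le_sqrt_of_sq_le (N.hq1.trans hcη)
  have hzp : 0 < z := hq10.trans_le hzq
  have hcηp : 0 < c * η := by positivity
  have r1 : Real.sqrt (η / β) = y / b := by rw [Real.sqrt_div hηp.le, ← hy, ← hbe]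
  have r2 : Real.sqrt (c * (η / β)) = z / b := by
    have : c * (η / β) = (c * η) / β := by ring
    rw [this, Real.sqrt_div hcηp.le, ← hz, ← hbe]
  obtain ⟨m, hm⟩ : ∃ m : ℝ, m = u * b / sd := ⟨_, rfl⟩
  have hmp : 0 < m := by rw [hm]; positivity
  have hmK : ∀ K : ℝ, m * (K * b * sd / u) = K * β := by
    intro K; rw [hm, hb2]; field_simp
  -- term 1
  have T1 : 3 * u * (ρ / β * (477 / 10000)) / ((η / β) ^ 2 * Real.sqrt (η / β)) ≤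
      m * (3 * ρ0 * (477 / 10000) * b0 ^ 2 * sd / (η0 ^ 2 * qη)) := by
    rw [r1, hb2]
    have e1 : 3 * u * (ρ / b ^ 2 * (477 / 10000)) / ((η / b ^ 2) ^ 2 * (y / b)) =
        m * (3 * ρ * (477 / 10000) * b ^ 2 * sd / (η ^ 2 * y)) := by
      rw [hm]; field_simp
    rw [e1]
    gcongr
  -- term 2
  have T2 : 15 / 2 * u * (ρ / β * (1972 / 10000)) ^ 2 / ((c * (η / β)) ^ 3 * Real.sqrt (c * (η / β))) ≤
      m * (15 / 2 * (ρ0 * (1972 / 10000)) ^ 2 * b0 ^ 2 * sd / (c1 ^ 3 * q1)) := by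
    rw [r2, hb2]
    have e1 : 15 / 2 * u * (ρ / b ^ 2 * (1972 / 10000)) ^ 2 / ((c * (η / b ^ 2)) ^ 3 * (z / b)) =
        m * (15 / 2 * (ρ * (1972 / 10000)) ^ 2 * b ^ 2 * sd / ((c * η) ^ 3 * z)) := by
      rw [hm]; field_simp
    rw [e1]
    gcongr
  -- exponentials
  have x1 : Real.exp (-(η * (16 / 25) ^ 2 / β)) ≤ E1 := by
    refine le_trans (Real.exp_le_exp.2 ?_) (exp_div_le (x := η0 * (16 / 25) ^ 2) (by positivity) hβ hb N.hE1)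
    have := div_le_div_of_nonneg_right (mul_le_mul_of_nonneg_right hη (by positivity : (0:ℝ) ≤ (16 / 25) ^ 2)) hβ.le
    linarith
  have x2 : Real.exp (-(c2 * (16 / 25) ^ 2 / β)) ≤ E2 := exp_div_le (by positivity) hβ hb N.hE2
  have x3 : Real.exp (-(c2 * (53 / 50) ^ 2 / β)) ≤ E3 := exp_div_le (by positivity) hβ hb N.hE3
  have x4 : Real.exp (-(c1 * (16 / 25) ^ 2 / β)) ≤ E4 := exp_div_le (by positivity) hβ hb N.hE4
  have hE1p : 0 < E1 := (Real.exp_pos _).trans_le x1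
  have hE2p : 0 < E2 := (Real.exp_pos _).trans_le x2
  have hE3p : 0 < E3 := (Real.exp_pos _).trans_le x3
  have hE4p : 0 < E4 := (Real.exp_pos _).trans_le x4
  have s2 : Real.sqrt 2 * Real.sqrt 2 = 2 := Real.mul_self_sqrt (by norm_num)
  have s2p : 0 < Real.sqrt 2 := by positivity
  have s2u : Real.sqrt 2 ≤ 15 / 10 := by nlinarith
  have s2l : 14 / 10 ≤ Real.sqrt 2 := by nlinarith
  -- term 3
  have T3 : 2 * (Real.exp (-((η / β) / 2) * (Real.sqrt 2 * (16 / 25)) ^ 2) / (η / β * (Real.sqrt 2 * (16 / 25)))) ≤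
      m * (2 * E1 * b0 * sd / (η0 * (14 / 10 * (16 / 25)) * (5 / 2))) := by
    have e1 : -((η / β) / 2) * (Real.sqrt 2 * (16 / 25)) ^ 2 = -(η * (16 / 25) ^ 2 / β) := by
      rw [mul_pow, Real.sq_sqrt (by norm_num)]; ring
    rw [e1]
    have e2 : 2 * (Real.exp (-(η * (16 / 25) ^ 2 / β)) / (η / β * (Real.sqrt 2 * (16 / 25)))) =
        m * (2 * Real.exp (-(η * (16 / 25) ^ 2 / β)) * b * sd / (η * (Real.sqrt 2 * (16 / 25)) * u)) := by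
      rw [hm, hb2]; field_simp
    rw [e2]
    gcongr
  -- the outer pieces
  have T4 : eX β (16 / 25) (53 / 50) c1 c2 σ1 (16 / 25) (19 / 50) ≤
      m * ((15 / 10 * (E2 / (2 * c2 * (16 / 25))) + E3 / σ1 + E4 * (1 / (16 / 25) + 1 / (19 / 50))) *
        b0 * sd / (5 / 2)) := by
    have e2 : eX β (16 / 25) (53 / 50) c1 c2 σ1 (16 / 25) (19 / 50) =
        m * ((Real.sqrt 2 * (Real.exp (-(c2 * (16 / 25) ^ 2 / β)) / (2 * c2 * (16 / 25))) +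
          Real.exp (-(c2 * (53 / 50) ^ 2 / β)) / σ1 +
          Real.exp (-(c1 * (16 / 25) ^ 2 / β)) * (1 / (16 / 25) + 1 / (19 / 50))) * b * sd / u) := by
      rw [hmK]
      unfold eX
      generalize Real.exp (-(c2 * (16 / 25) ^ 2 / β)) = w2
      generalize Real.exp (-(c2 * (53 / 50) ^ 2 / β)) = w3
      generalize Real.exp (-(c1 * (16 / 25) ^ 2 / β)) = w4
      have i1 : w2 / (2 * (c2 / β) * (16 / 25)) = w2 / (2 * c2 * (16 / 25)) * β := by field_simp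
      rw [i1]
      ring
    rw [e2]
    gcongr
  have hS : SVX β ρ (η / β) c (Real.sqrt 2 * (16 / 25)) + eX β (16 / 25) (53 / 50) c1 c2 σ1 (16 / 25) (19 / 50) ≤
      m * ε := by
    have hF := mul_le_mul_of_nonneg_left N.hF hmp.le
    unfold SVX
    rw [← hu]
    linarith
  have hεp : 0 ≤ ε := by
    have h1 : 0 ≤ 3 * ρ0 * (477 / 10000) * b0 ^ 2 * sd / (η0 ^ 2 * qη) +
      15 / 2 * (ρ0 * (1972 / 10000)) ^ 2 * b0 ^ 2 * sd / (c1 ^ 3 * q1) +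
      2 * E1 * b0 * sd / (η0 * (14 / 10 * (16 / 25)) * (5 / 2)) +
      (15 / 10 * (E2 / (2 * c2 * (16 / 25))) + E3 / σ1 + E4 * (1 / (16 / 25) + 1 / (19 / 50))) * b0 * sd / (5 / 2) := by
      positivity
    exact h1.trans N.hF
  refine hS.trans ?_
  rw [← hu, ← hbe, ← hδ, mul_comm ε]
  refine mul_le_mul_of_nonneg_right ?_ hεp
  rw [hm]
  gcongr

end

end Sok.Mid
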