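import Pool.Agent.Lib.MP_816dec_an.MX

/-!
MP_816dec_an, `b = 1`, middle range: value and first moment of the right function `Ft - CC` from its saddle
`α - g i`; contour: the vertical leg at distance `W` to the left of the saddle, the horizontal line through the
saddle to infinity.
-/

set_option autoImplicit false

open Complex Set Filter Topology MeasureTheory Sok.W

namespace Sok.Mid

/-- the exponents on the contour; `kR`, `kL` quadratic constants right and left, `E3`, `κ3` vertical leg -/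
structure YHyp (β r t α g T W kR kL q2 E3 κ3 : ℝ) : Prop where
  sad : Sad β r t α (-g)
  g0 : 0 < g
  T0 : 0 < T
  T2 : T ≤ 2
  TW : T ≤ W
  W3 : W ≤ 2.1
  kR0 : 0 < kR
  kL0 : 0 < kL
  κ30 : β < κ3
  val : |α - W - Real.pi| < Real.pi / 2
  f1 : ∀ x, 0 ≤ x → x ≤ 2 → NN (α - t) (-g) x 0 ≤ -(kR * x ^ 2)
  f2 : ∀ x, 2 ≤ x → x ≤ 4.5 → NN (α - t) (-g) x 0 ≤ -q2
  f3 : ∀ x, 4.5 ≤ x → NN (α - t) (-g) x 0 ≤ -(g * (x - 0.36))
  f4 : ∀ y, 0 ≤ y → y ≤ W → NN (α - t) (-g) (-y) 0 ≤ -(kL * y ^ 2)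
  f5 : ∀ v, 0 ≤ v → NN (α - t) (-g) (-W) (-v) ≤ -E3 - κ3 / 2 * v ^ 2

/-- the bound of the value error -/
noncomputable def eY (β g T kR kL q2 E3 κ3 : ℝ) : ℝ :=
  Real.exp (-(kR * T ^ 2 / β)) / (2 * (kR / β) * T) + Real.exp (-(kL * T ^ 2 / β)) / (2 * (kL / β) * T) +
    5 / 2 * Real.exp (-(q2 / β)) + Real.exp (-(4.14 * g / β)) * (β / g) +
    Real.exp (-(E3 / β)) * (Real.sqrt (2 * Real.pi * (β / κ3)) / 2)

/-- the bound of the moment -/
noncomputable def mY (β g kR kL q2 E3 κ3 : ℝ) : ℝ :=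
  1 / 2 * (Real.sqrt Real.pi / (4 * (kR / β * Real.sqrt (kR / β)))) +
    1 / 2 * (Real.sqrt Real.pi / (4 * (kL / β * Real.sqrt (kL / β)))) +
    26 * Real.exp (-(q2 / β)) + Real.exp (-(4.14 * g / β)) * (6.5 * (β / g) + (β / g) ^ 2) +
    Real.exp (-(E3 / β)) * (6.8 * (Real.sqrt (2 * Real.pi * (1 / (κ3 / β - 1))) / 2))

section
variable {β r t α g T W kR kL q2 E3 κ3 : ℝ}

theorem YHyp.norm_le (H : YHyp β r t α g T W kR kL q2 E3 κ3) {p q E : ℝ} (hE : NN (α - t) (-g) p q ≤ E) :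
    ‖gs β r t ((α : ℂ) + ((-g : ℝ) : ℂ) * I + (p + q * I))‖ ≤
      ‖gs β r t (α + ((-g : ℝ) : ℂ) * I)‖ * Real.exp (E / β) := by
  rw [H.sad.norm_gs_add]
  have hβ := H.sad.hβ
  gcongr

theorem YHyp.lim_right (H : YHyp β r t α g T W kR kL q2 E3 κ3) {P : ℂ → ℂ} {l : ℂ}
    (hl : ∀ Y : ℝ, Y < 0 → Tendsto (fun x : ℝ => P (x + Y * I)) atTop (𝓝 l)) :
    Tendsto (fun x : ℝ => P (((α : ℂ) + ((-g : ℝ) : ℂ) * I + (4.5 : ℝ) * (1 : ℂ)) + x * (1 : ℂ))) atTop (𝓝 l) := by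
  have h1 : Tendsto (fun x : ℝ => α + 4.5 + x) atTop atTop := tendsto_atTop_add_const_left _ _ tendsto_id
  refine ((hl (-g) (by linarith [H.g0])).comp h1).congr fun x => ?_
  simp only [Function.comp]
  congr 1
  push_cast
  ring

theorem YHyp.lim_down (_H : YHyp β r t α g T W kR kL q2 E3 κ3) {P : ℂ → ℂ} {l : ℂ}
    (hl : Tendsto (fun y : ℝ => P (((α - W : ℝ) : ℂ) + y * I)) atBot (𝓝 l)) :
    Tendsto (fun x : ℝ => P (((α : ℂ) + ((-g : ℝ) : ℂ) * I + ((W : ℝ) : ℂ) * (-1 : ℂ)) + x * (-I))) atTop (𝓝 l) := by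
  have h1 : Tendsto (fun x : ℝ => -g - x) atTop atBot := by
    have := tendsto_neg_atTop_atBot.comp (tendsto_atTop_add_const_right atTop g tendsto_id)
    refine this.congr fun x => ?_
    simp only [Function.comp, id]
    ring
  refine (hl.comp h1).congr fun x => ?_
  simp only [Function.comp]
  congr 1
  push_cast
  ring

theorem YHyp.value (H : YHyp β r t α g T W kR kL q2 E3 κ3) {P : ℂ → ℂ}
    (hP : ∀ x, HasDerivAt P (gs β r t x) x) {V : ℤ → ℂ} {lL lR : ℂ} (hV : Vals β r t P V lL lR) {μ : ℂ} {SV : ℝ}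
    (hseg : ‖(∫ x in (-T)..T, cexp (Psi (Lx t α (-g)) (x * cexp (((0 : ℝ) : ℂ) * I)) / β)) - μ‖ ≤ SV) :
    ‖(lR - V 0) - gs β r t (α + ((-g : ℝ) : ℂ) * I) * μ‖ ≤
      ‖gs β r t (α + ((-g : ℝ) : ℂ) * I)‖ * (SV + eY β g T kR kL q2 E3 κ3) := by
  have hβ := H.sad.hβ
  have hT0 := H.T0
  have hg := gs_diff β r t
  have hκ3 : 0 < κ3 := hβ.trans H.κ30
  obtain ⟨s0, hs0⟩ : ∃ s0 : ℂ, s0 = (α : ℂ) + ((-g : ℝ) : ℂ) * I := ⟨_, rfl⟩
  obtain ⟨G, hG⟩ : ∃ G : ℝ, G = ‖gs β r t s0‖ := ⟨_, rfl⟩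
  have hG0 : 0 ≤ G := by rw [hG]; positivity
  have hn : ∀ {p q E : ℝ}, NN (α - t) (-g) p q ≤ E →
      ‖gs β r t (s0 + (p + q * I))‖ ≤ G * Real.exp (E / β) := by
    intro p q E hE
    rw [hG, hs0]; exact H.norm_le hE
  have hlim1 := H.lim_right hV.right
  have hlim2 : Tendsto (fun x : ℝ => P ((s0 + ((W : ℝ) : ℂ) * (-1 : ℂ)) + x * (-I))) atTop (𝓝 (V 0)) := by
    rw [hs0]
    refine H.lim_down (hV.val 0 (α - W) ?_ (Or.inl ?_))
    · simpa using H.val.le
    · simpa using H.val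
  rw [← hs0] at hlim1 ⊢
  rw [← hG]
  have p1 : ‖lR - P (s0 + ((4.5 : ℝ) : ℂ) * 1)‖ ≤ G * (Real.exp (-(4.14 * g / β)) * (β / g)) := by
    refine tail_bd hg hP (d := 1) (by simp)
      (m := fun x => G * Real.exp (-(4.14 * g / β)) * Real.exp (-(g / β * x))) (by fun_prop) hlim1
      (fun x hx => ?_) (fun T' hT' => ?_)
    · have h1 := hn (q := 0) (H.f3 (4.5 + x) (by linarith))
      refine le_trans (le_of_eq ?_) (h1.trans (le_of_eq ?_))
      · congr 2; push_cast; ring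
      · rw [mul_assoc, ← Real.exp_add]
        congr 2
        ring
    · refine (int_exp_le (by positivity) (div_pos H.g0 hβ) hT').trans (le_of_eq ?_)
      have := H.g0.ne'
      field_simp
  have p2 : ‖P (s0 + ((4.5 : ℝ) : ℂ) * 1) - P (s0 + ((2 : ℝ) : ℂ) * 1)‖ ≤ G * (5 / 2 * Real.exp (-(q2 / β))) := by
    have h1 := piece hg hP s0 1 (a := 2) (b := 4.5) (by norm_num)
      (m := fun _ => G * Real.exp (-(q2 / β))) (by fun_prop) (fun x hx => by
        have h2 := hn (q := 0) (H.f2 x hx.1 hx.2)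
        refine le_trans (le_of_eq ?_) (h2.trans (le_of_eq ?_))
        · congr 2; push_cast; ring
        · congr 2; ring)
    rw [norm_one, one_mul, intervalIntegral.integral_const, smul_eq_mul] at h1
    refine h1.trans (le_of_eq ?_)
    ring
  have p3 : ‖P (s0 + ((2 : ℝ) : ℂ) * 1) - P (s0 + (T : ℂ) * 1)‖ ≤
      G * (Real.exp (-(kR * T ^ 2 / β)) / (2 * (kR / β) * T)) := by
    have h1 := piece hg hP s0 1 (a := T) (b := 2) H.T2
      (m := fun x => G * Real.exp (-(kR / β * x ^ 2))) (by fun_prop) (fun x hx => by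
        have h2 := hn (q := 0) (H.f1 x (hT0.le.trans hx.1) hx.2)
        refine le_trans (le_of_eq ?_) (h2.trans (le_of_eq ?_))
        · congr 2; push_cast; ring
        · congr 2; ring)
    rw [norm_one, one_mul, intervalIntegral.integral_const_mul] at h1
    have h3 := int_gauss_tail_le (div_pos H.kR0 hβ) hT0 H.T2
    have e1 : Real.exp (-(kR * T ^ 2 / β)) = Real.exp (-(kR / β * T ^ 2)) := by congr 1; ring
    rw [e1]
    exact h1.trans (mul_le_mul_of_nonneg_left h3 hG0)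
  have p4 : ‖P (s0 + (T : ℂ) * 1) - P (s0 + (T : ℂ) * (-1)) - gs β r t s0 * μ‖ ≤ G * SV := by
    have h1 := prim_line hg hP s0 1 (-T) T
    have e2 : ((-T : ℝ) : ℂ) * 1 = (T : ℂ) * (-1) := by push_cast; ring
    rw [e2, one_mul] at h1
    have h2 : (∫ x in (-T)..T, gs β r t (s0 + x * 1)) =
        gs β r t s0 * ∫ x in (-T)..T, cexp (Psi (Lx t α (-g)) (x * cexp (((0 : ℝ) : ℂ) * I)) / β) := by
      rw [← intervalIntegral.integral_const_mul]
      refine intervalIntegral.integral_congr fun x _ => ?_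
      show gs β r t (s0 + x * 1) = _
      have e3 : cexp (((0 : ℝ) : ℂ) * I) = 1 := by simp
      rw [e3, hs0]
      exact H.sad.gs_add _
    rw [← h1, h2]
    have e3 : ∀ J : ℂ, (gs β r t s0 * J) - gs β r t s0 * μ = gs β r t s0 * (J - μ) := fun J => by ring
    rw [e3, norm_mul, ← hG]
    exact mul_le_mul_of_nonneg_left hseg hG0
  have p5 : ‖P (s0 + (W : ℂ) * (-1)) - P (s0 + (T : ℂ) * (-1))‖ ≤
      G * (Real.exp (-(kL * T ^ 2 / β)) / (2 * (kL / β) * T)) := by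
    have h1 := piece hg hP s0 (-1) (a := T) (b := W) H.TW
      (m := fun x => G * Real.exp (-(kL / β * x ^ 2))) (by fun_prop) (fun x hx => by
        have h2 := hn (q := 0) (H.f4 x (hT0.le.trans hx.1) hx.2)
        refine le_trans (le_of_eq ?_) (h2.trans (le_of_eq ?_))
        · congr 2; push_cast; ring
        · congr 2; ring)
    rw [norm_neg, norm_one, one_mul, intervalIntegral.integral_const_mul] at h1
    have h3 := int_gauss_tail_le (div_pos H.kL0 hβ) hT0 H.TW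
    have e1 : Real.exp (-(kL * T ^ 2 / β)) = Real.exp (-(kL / β * T ^ 2)) := by congr 1; ring
    rw [e1]
    exact h1.trans (mul_le_mul_of_nonneg_left h3 hG0)
  have p6 : ‖V 0 - P (s0 + (W : ℂ) * (-1))‖ ≤
      G * (Real.exp (-(E3 / β)) * (Real.sqrt (2 * Real.pi * (β / κ3)) / 2)) := by
    refine tail_bd hg hP (d := -I) (by simp)
      (m := fun x => G * Real.exp (-(E3 / β)) * Real.exp (-(κ3 / (2 * β) * x ^ 2))) (by fun_prop) hlim2
      (fun x hx => ?_) (fun T' hT' => ?_)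
    · have h1 := hn (H.f5 x hx)
      refine le_trans (le_of_eq ?_) (h1.trans (le_of_eq ?_))
      · congr 2; push_cast; ring
      · rw [mul_assoc, ← Real.exp_add]
        congr 2
        field_simp
        ring
    · rw [intervalIntegral.integral_const_mul, mul_assoc]
      refine mul_le_mul_of_nonneg_left ?_ hG0
      refine mul_le_mul_of_nonneg_left ?_ (Real.exp_pos _).le
      refine (int_half_gauss_le (by positivity) hT').trans (le_of_eq ?_)
      congr 2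
      field_simp
  have e0 : (lR - V 0) - gs β r t s0 * μ =
      (lR - P (s0 + ((4.5 : ℝ) : ℂ) * 1)) +
      (P (s0 + ((4.5 : ℝ) : ℂ) * 1) - P (s0 + ((2 : ℝ) : ℂ) * 1)) +
      (P (s0 + ((2 : ℝ) : ℂ) * 1) - P (s0 + (T : ℂ) * 1)) +
      (P (s0 + (T : ℂ) * 1) - P (s0 + (T : ℂ) * (-1)) - gs β r t s0 * μ) -
      (P (s0 + (W : ℂ) * (-1)) - P (s0 + (T : ℂ) * (-1))) -
      (V 0 - P (s0 + (W : ℂ) * (-1))) + 0 := by ring
  rw [e0, add_zero]
  refine (norm_sub_le _ _).trans ((add_le_add ((norm_sub_le _ _).trans (add_le_add ((norm_add_le _ _).trans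
    (add_le_add ((norm_add_le _ _).trans (add_le_add ((norm_add_le _ _).trans (add_le_add p1 p2)) p3)) p4)) p5))
    p6).trans (le_of_eq ?_))
  unfold eY
  ring

theorem YHyp.norm_mg_le (H : YHyp β r t α g T W kR kL q2 E3 κ3) {p q E U : ℝ} (hE : NN (α - t) (-g) p q ≤ E)
    (hU : ‖mw (p + q * I)‖ ≤ U) :
    ‖mw ((α : ℂ) + ((-g : ℝ) : ℂ) * I + (p + q * I) - (α + ((-g : ℝ) : ℂ) * I)) *
      gs β r t ((α : ℂ) + ((-g : ℝ) : ℂ) * I + (p + q * I))‖ ≤
      U * (‖gs β r t (α + ((-g : ℝ) : ℂ) * I)‖ * Real.exp (E / β)) := by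
  rw [norm_mul, add_sub_cancel_left]
  exact mul_le_mul hU (H.norm_le hE) (norm_nonneg _) ((norm_nonneg _).trans hU)

theorem YHyp.moment (H : YHyp β r t α g T W kR kL q2 E3 κ3) {P P' : ℂ → ℂ}
    (hP : ∀ x, HasDerivAt P (gs β r t x) x) (hP' : ∀ x, HasDerivAt P' (gs β r (t + β) x) x)
    {V V' : ℤ → ℂ} {lL lR lL' lR' : ℂ} (hV : Vals β r t P V lL lR) (hV' : Vals β r (t + β) P' V' lL' lR') :
    ‖Dx t α (-g) * (cexp (I * (t + β / 2 - (α + ((-g : ℝ) : ℂ) * I))) * (lR' - V' 0) - (lR - V 0))‖ ≤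
      ‖gs β r t (α + ((-g : ℝ) : ℂ) * I)‖ * mY β g kR kL q2 E3 κ3 := by
  have hβ := H.sad.hβ
  have hT0 := H.T0
  have hW0 : 0 ≤ W := hT0.le.trans H.TW
  have hκ3 : 0 < κ3 := hβ.trans H.κ30
  obtain ⟨s0, hs0⟩ : ∃ s0 : ℂ, s0 = (α : ℂ) + ((-g : ℝ) : ℂ) * I := ⟨_, rfl⟩
  have hg := mg_diff β r t s0
  have hm := hasDerivAt_mP H.sad hP hP'
  obtain ⟨Q, hQ⟩ : ∃ Q : ℂ → ℂ, Q = mP β r t α (-g) P P' := ⟨_, rfl⟩
  have hlim1 := fun Y hY => mP_right (Y := Y) H.sad hV hV' hY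
  have hlim2 := mP_valley H.sad hV hV' H.val
  rw [← hQ] at hm hlim1 hlim2
  obtain ⟨G, hG⟩ : ∃ G : ℝ, G = ‖gs β r t s0‖ := ⟨_, rfl⟩
  have hG0 : 0 ≤ G := by rw [hG]; positivity
  obtain ⟨l, hl⟩ : ∃ l, l = Dx t α (-g) * (cexp (I * (t + β / 2 - (α + ((-g : ℝ) : ℂ) * I))) * lR' - lR) := ⟨_, rfl⟩
  obtain ⟨v, hv⟩ : ∃ v, v = Dx t α (-g) * (cexp (I * (t + β / 2 - (α + ((-g : ℝ) : ℂ) * I))) * V' 0 - V 0) :=
    ⟨_, rfl⟩
  have e0 : Dx t α (-g) * (cexp (I * (t + β / 2 - (α + ((-g : ℝ) : ℂ) * I))) * (lR' - V' 0) - (lR - V 0)) =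
      l - v := by
    rw [hl, hv]; ring
  rw [e0]
  rw [← hl] at hlim1
  rw [← hv] at hlim2
  rw [← hs0] at hm ⊢
  rw [← hG]
  have hn : ∀ {p q E U : ℝ}, NN (α - t) (-g) p q ≤ E → ‖mw (p + q * I)‖ ≤ U →
      ‖mw (s0 + (p + q * I) - s0) * gs β r t (s0 + (p + q * I))‖ ≤ U * (G * Real.exp (E / β)) := by
    intro p q E U hE hU
    rw [hG, hs0]; exact H.norm_mg_le hE hU
  have hl1 := H.lim_right hlim1
  have hl2 := H.lim_down hlim2
  rw [← hs0] at hl1 hl2
  have p1 : ‖l - Q (s0 + ((4.5 : ℝ) : ℂ) * 1)‖ ≤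
      G * (Real.exp (-(4.14 * g / β)) * (6.5 * (β / g) + (β / g) ^ 2)) := by
    refine tail_bd hg hm (d := 1) (by simp)
      (m := fun x => G * Real.exp (-(4.14 * g / β)) * ((6.5 + x) * Real.exp (-(g / β * x)))) (by fun_prop) hl1
      (fun x hx => ?_) (fun T' hT' => ?_)
    · have hw : ‖mw (((4.5 + x : ℝ) : ℂ) + ((0 : ℝ) : ℂ) * I)‖ ≤ 6.5 + x := by
        refine (norm_mw_le _).trans ?_
        have i1 : (((4.5 + x : ℝ) : ℂ) + ((0 : ℝ) : ℂ) * I) = ((4.5 + x : ℝ) : ℂ) := by simp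
        rw [i1, Complex.norm_real, Real.norm_of_nonneg (by linarith), Complex.ofReal_im, neg_zero, Real.exp_zero]
        linarith
      have h1 := hn (q := 0) (H.f3 (4.5 + x) (by linarith)) hw
      refine le_trans (le_of_eq ?_) (h1.trans (le_of_eq ?_))
      · have i2 : s0 + ((4.5 : ℝ) : ℂ) * 1 + (x : ℂ) * 1 = s0 + (((4.5 + x : ℝ) : ℂ) + ((0 : ℝ) : ℂ) * I) := by
          push_cast; ring
        rw [i2]
      · have i5 : Real.exp (-(g * (4.5 + x - 0.36)) / β) =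
            Real.exp (-(4.14 * g / β)) * Real.exp (-(g / β * x)) := by
          rw [← Real.exp_add]; congr 1; ring
        rw [i5]
        ring
    · rw [intervalIntegral.integral_const_mul, mul_assoc]
      refine mul_le_mul_of_nonneg_left ?_ hG0
      refine mul_le_mul_of_nonneg_left ?_ (Real.exp_pos _).le
      refine (int_lin_exp_le (by norm_num) (div_pos H.g0 hβ) hT').trans (le_of_eq ?_)
      have := H.g0.ne'
      field_simp
  have hreal : ∀ x : ℝ, ‖mw ((x : ℂ) + ((0 : ℝ) : ℂ) * I)‖ ≤ x ^ 2 / 2 := fun x => by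
    refine (norm_mw_le_sq (by simp)).trans (le_of_eq ?_)
    have i1 : ((x : ℂ) + ((0 : ℝ) : ℂ) * I) = (x : ℂ) := by simp
    rw [i1, Complex.norm_real, Real.norm_eq_abs, sq_abs]
  have p2 : ‖Q (s0 + ((4.5 : ℝ) : ℂ) * 1) - Q (s0 + ((2 : ℝ) : ℂ) * 1)‖ ≤ G * (26 * Real.exp (-(q2 / β))) := by
    have h1 := piece hg hm s0 1 (a := 2) (b := 4.5) (by norm_num)
      (m := fun _ => G * (10.125 * Real.exp (-(q2 / β)))) (by fun_prop) (fun x hx => by
        have h2 := hn (q := 0) (H.f2 x hx.1 hx.2) ((hreal x).trans (by nlinarith [hx.1, hx.2] : x ^ 2 / 2 ≤ 10.125))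
        refine le_trans (le_of_eq ?_) (h2.trans (le_of_eq ?_))
        · have i2 : s0 + (x : ℂ) * 1 = s0 + ((x : ℂ) + ((0 : ℝ) : ℂ) * I) := by push_cast; ring
          rw [i2]
        · rw [show -q2 / β = -(q2 / β) by ring]; ring)
    rw [norm_one, one_mul, intervalIntegral.integral_const, smul_eq_mul] at h1
    refine h1.trans ?_
    have h5 := Real.exp_pos (-(q2 / β))
    nlinarith [mul_nonneg hG0 h5.le]
  have p3 : ‖Q (s0 + ((2 : ℝ) : ℂ) * 1) - Q s0‖ ≤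
      G * (1 / 2 * (Real.sqrt Real.pi / (4 * (kR / β * Real.sqrt (kR / β))))) := by
    have h1 := piece hg hm s0 1 (a := 0) (b := 2) (by norm_num)
      (m := fun x => G * (1 / 2) * (x ^ 2 * Real.exp (-(kR / β * x ^ 2)))) (by fun_prop) (fun x hx => by
        have h2 := hn (q := 0) (H.f1 x hx.1 hx.2) (hreal x)
        refine le_trans (le_of_eq ?_) (h2.trans (le_of_eq ?_))
        · have i2 : s0 + (x : ℂ) * 1 = s0 + ((x : ℂ) + ((0 : ℝ) : ℂ) * I) := by push_cast; ring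
          rw [i2]
        · rw [show -(kR * x ^ 2) / β = -(kR / β * x ^ 2) by ring]; ring)
    rw [norm_one, one_mul, intervalIntegral.integral_const_mul] at h1
    have h3 := int_sq_gauss_le (b := 2) (div_pos H.kR0 hβ) (by norm_num)
    simp only [Complex.ofReal_zero, zero_mul, add_zero] at h1
    refine h1.trans ?_
    nlinarith [mul_le_mul_of_nonneg_left h3 hG0]
  have p4 : ‖Q (s0 + (W : ℂ) * (-1)) - Q s0‖ ≤
      G * (1 / 2 * (Real.sqrt Real.pi / (4 * (kL / β * Real.sqrt (kL / β))))) := by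
    have h1 := piece hg hm s0 (-1) (a := 0) (b := W) hW0
      (m := fun x => G * (1 / 2) * (x ^ 2 * Real.exp (-(kL / β * x ^ 2)))) (by fun_prop) (fun x hx => by
        have h2 := hn (q := 0) (H.f4 x hx.1 hx.2) (hreal (-x))
        refine le_trans (le_of_eq ?_) (h2.trans (le_of_eq ?_))
        · have i2 : s0 + (x : ℂ) * (-1) = s0 + (((-x : ℝ) : ℂ) + ((0 : ℝ) : ℂ) * I) := by push_cast; ring
          rw [i2]
        · rw [show -(kL * x ^ 2) / β = -(kL / β * x ^ 2) by ring]; ring)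
    rw [norm_neg, norm_one, one_mul, intervalIntegral.integral_const_mul] at h1
    have h3 := int_sq_gauss_le (b := W) (div_pos H.kL0 hβ) hW0
    simp only [Complex.ofReal_zero, zero_mul, add_zero] at h1
    refine h1.trans ?_
    nlinarith [mul_le_mul_of_nonneg_left h3 hG0]
  have p5 : ‖v - Q (s0 + (W : ℂ) * (-1))‖ ≤
      G * (Real.exp (-(E3 / β)) * (6.8 * (Real.sqrt (2 * Real.pi * (1 / (κ3 / β - 1))) / 2))) := by
    have hc : 0 < κ3 / β - 1 := by
      have : 1 < κ3 / β := (one_lt_div hβ).2 H.κ30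
      linarith
    refine tail_bd hg hm (d := -I) (by simp)
      (m := fun x => G * Real.exp (-(E3 / β)) * 6.8 * Real.exp (-((κ3 / β - 1) / 2 * x ^ 2))) (by fun_prop) hl2
      (fun x hx => ?_) (fun T' hT' => ?_)
    · have hw : ‖mw (((-W : ℝ) : ℂ) + ((-x : ℝ) : ℂ) * I)‖ ≤ 6.8 * Real.exp (x ^ 2 / 2) := by
        refine (norm_mw_le _).trans ?_
        have i1 : (((-W : ℝ) : ℂ) + ((-x : ℝ) : ℂ) * I).im = -x := by simp
        have i2 : ‖((-W : ℝ) : ℂ)‖ = W := by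
          rw [Complex.norm_real, Real.norm_eq_abs, abs_neg, abs_of_nonneg hW0]
        have i6 : ‖((-x : ℝ) : ℂ) * I‖ = x := by
          rw [norm_mul, Complex.norm_real, Complex.norm_I, mul_one, Real.norm_eq_abs, abs_neg, abs_of_nonneg hx]
        have i3 := norm_add_le (((-W : ℝ) : ℂ)) (((-x : ℝ) : ℂ) * I)
        rw [i2, i6] at i3
        rw [i1, neg_neg]
        have i8 := Real.add_one_le_exp x
        have i9 : Real.exp x ≤ Real.exp (1 / 2) * Real.exp (x ^ 2 / 2) := by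
          rw [← Real.exp_add]
          exact Real.exp_le_exp.2 (by nlinarith [sq_nonneg (x - 1)])
        have i10 : Real.exp (1 / 2) ≤ 1.65 := by
          have h1 : Real.exp (1 / 2) ^ 2 = Real.exp 1 := by rw [← Real.exp_nat_mul]; norm_num
          have h2 := Real.exp_one_lt_d9
          have h3 := Real.exp_pos (1 / 2)
          nlinarith
        have i11 := Real.exp_pos (x ^ 2 / 2)
        have hW3 := H.W3
        have i12 : Real.exp x + 1 + (W + x) ≤ 4.1 * Real.exp x := by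
          have := Real.exp_pos x
          nlinarith
        nlinarith
      have h1 := hn (H.f5 x hx) hw
      refine le_trans (le_of_eq ?_) (h1.trans (le_of_eq ?_))
      · have i2 : s0 + ((W : ℝ) : ℂ) * (-1) + (x : ℂ) * (-I) = s0 + (((-W : ℝ) : ℂ) + ((-x : ℝ) : ℂ) * I) := by
          push_cast; ring
        rw [i2]
      · have i5 : Real.exp (x ^ 2 / 2) * Real.exp ((-E3 - κ3 / 2 * x ^ 2) / β) =
            Real.exp (-(E3 / β)) * Real.exp (-((κ3 / β - 1) / 2 * x ^ 2)) := by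
          rw [← Real.exp_add, ← Real.exp_add]; congr 1; field_simp; ring
        linear_combination (6.8 * G) * i5
    · rw [intervalIntegral.integral_const_mul]
      have h3 := int_half_gauss_le (k := (κ3 / β - 1) / 2) (b := T') (by positivity) hT'
      have i6 : Real.pi / ((κ3 / β - 1) / 2) = 2 * Real.pi * (1 / (κ3 / β - 1)) := by
        field_simp
      rw [i6] at h3
      have h5 := Real.exp_pos (-(E3 / β))
      have h6 := mul_le_mul_of_nonneg_left h3 (mul_nonneg (mul_nonneg hG0 h5.le) (by norm_num : (0:ℝ) ≤ 6.8))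
      refine h6.trans (le_of_eq ?_)
      ring
  have e1 : l - v =
      (l - Q (s0 + ((4.5 : ℝ) : ℂ) * 1)) +
      (Q (s0 + ((4.5 : ℝ) : ℂ) * 1) - Q (s0 + ((2 : ℝ) : ℂ) * 1)) +
      (Q (s0 + ((2 : ℝ) : ℂ) * 1) - Q s0) -
      (Q (s0 + (W : ℂ) * (-1)) - Q s0) -
      (v - Q (s0 + (W : ℂ) * (-1))) := by ring
  rw [e1]
  refine (norm_sub_le _ _).trans ((add_le_add ((norm_sub_le _ _).trans (add_le_add ((norm_add_le _ _).trans
    (add_le_add ((norm_add_le _ _).trans (add_le_add p1 p2)) p3)) p4)) p5).trans (le_of_eq ?_))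
  unfold mY
  ring

end

end Sok.Mid
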