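import Pool.Agent.Lib.MP_816dec_an.MYnum

/-!
MP_816dec_an, `b = 1`, middle range: final form of the estimate of the right function.
-/

set_option autoImplicit false

open Complex Set Filter Topology MeasureTheory Sok.W

namespace Sok.Mid

theorem Y_final {β r t a g ρ W : ℝ} (hr : 10 ≤ r) (hκ : β * r ≤ 1.3) (hg : 0.9 ≤ g) (ha0 : 0 ≤ a)
    (ha : a ≤ 0.66) (hρ : ρ = β * r * Real.exp g) (hs : ρ * Real.sin a = g)
    (hR : ρ * Real.cos a = 2 * Real.pi - a - t)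
    (H : YHyp β r t (2 * Real.pi - a) g (4 / 5) W (ρ * Real.cos a / 3) (0.185 * ρ)
        (1.07 * (ρ * Real.cos a)) (0.4 * ρ) (ρ * Real.sin (1 / 2))) :
    YY β r t ≠ 0 ∧
      |(I * (r * cexp (I * (t + β / 2))) * YY β r (t + β) / YY β r t).re + (-g) / β| ≤ 0.25 / β := by
  have hβ := H.sad.hβ
  have hr0 := H.sad.hr
  have hcos := cos_66 ha0 ha
  have hexp : 2.45 ≤ Real.exp g := exp_09.trans (Real.exp_le_exp.2 (by linarith))
  have hβ2 : β ≤ 0.13 := by nlinarith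
  -- `lam = ρ/β = r e^g`
  obtain ⟨lam, hlam⟩ : ∃ lam : ℝ, lam = r * Real.exp g := ⟨_, rfl⟩
  have hρl : ρ = lam * β := by rw [hρ, hlam]; ring
  have hlam1 : 24.5 ≤ lam := by rw [hlam]; nlinarith
  have hlp : 0 < lam := by linarith
  have hρp : 0 < ρ := by rw [hρl]; positivity
  obtain ⟨A, hA⟩ : ∃ A : ℝ, A = lam * Real.cos a := ⟨_, rfl⟩
  have hRA : ρ * Real.cos a = A * β := by rw [hρl, hA]; ring
  have hA1 : 0.782 * lam ≤ A := by rw [hA]; nlinarith
  have hAl : A ≤ lam := by rw [hA]; nlinarith [Real.cos_le_one a]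
  have hAp : 0 < A := by linarith
  have hρe : β * r * Real.exp (- -g) = ρ := by rw [neg_neg, hρ]
  -- the far piece
  have hfar : Real.exp (-(4.14 * g / β)) * Real.sqrt lam ≤ 0.001 := by
    have e1 : 3 * (g * r) ≤ 4.14 * g / β := by
      rw [le_div_iff₀ hβ]; nlinarith
    have e2 : g + r + 8 ≤ 3 * (g * r) := by nlinarith
    have e3 : Real.exp (-(4.14 * g / β)) ≤ Real.exp (-8) * Real.exp (-(g + r)) := by
      rw [← Real.exp_add]; exact Real.exp_le_exp.2 (by linarith)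
    have e4 : Real.sqrt lam ≤ Real.exp (g + r) := by
      have h1 : lam ≤ Real.exp (g + r) := by
        rw [hlam, Real.exp_add, mul_comm]
        exact mul_le_mul_of_nonneg_left (by linarith [Real.add_one_le_exp r]) (Real.exp_pos _).le
      have h2 : Real.sqrt lam ≤ lam := by
        apply Real.sqrt_le_iff.2 ⟨hlp.le, ?_⟩
        nlinarith
      exact h2.trans h1
    have e5 : Real.exp (-8) ≤ 0.001 := by
      refine exp_neg_le_of' (y := 8) 14 (by norm_num) le_rfl (by norm_num) ?_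
      simp only [Finset.sum_range_succ, Finset.sum_range_zero, Nat.factorial]
      norm_num
    calc Real.exp (-(4.14 * g / β)) * Real.sqrt lam
        ≤ (Real.exp (-8) * Real.exp (-(g + r))) * Real.exp (g + r) :=
          mul_le_mul e3 e4 (Real.sqrt_nonneg _) (by positivity)
      _ = Real.exp (-8) := by rw [mul_assoc, ← Real.exp_add]; simp
      _ ≤ 0.001 := e5
  have t1 := Y_value_le hβ hlam1 hA1 hfar hg hβ2
  have t2 := Y_moment_le hβ hlam1 hA1 hfar hg hβ2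
  -- the derivative `D`
  have hαt : 2 * Real.pi - a - t = A * β := by rw [← hR, hRA]
  have him : A * β ≤ ‖Dx t (2 * Real.pi - a) (-g)‖ := by
    have h1 := Complex.abs_im_le_norm (Dx t (2 * Real.pi - a) (-g))
    rw [Dx_im, hαt, abs_neg, abs_of_pos (by positivity)] at h1
    exact h1
  have hd0 : 0 < ‖Dx t (2 * Real.pi - a) (-g)‖ := lt_of_lt_of_le (by positivity) him
  have hD : Dx t (2 * Real.pi - a) (-g) ≠ 0 := norm_pos_iff.1 hd0
  have hdρ : ‖Dx t (2 * Real.pi - a) (-g)‖ ≤ ρ := by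
    have h1 := normSq_Dx H.sad
    rw [hρe] at h1
    exact le_of_sq_le_sq (by rw [h1]; linarith) hρp.le
  -- the segment
  have hseg := seg_Y H.sad (c := 0.65) (by rw [hαt]; positivity) (by norm_num) (by norm_num) (by
    rw [hρe, hαt, hρl]
    nlinarith [mul_le_mul_of_nonneg_right hA1 hβ.le])
  have e6 : β * r * Real.exp (- -g) / β = lam := by
    rw [hρe, hρl]; field_simp
  have e7 : (2 * Real.pi - a - t) / β = A := by rw [hαt]; field_simp
  rw [e6, e7] at hseg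
  obtain ⟨μ, hμ⟩ : ∃ μ : ℂ, μ = (2 * Real.pi / ((I + Lx t (2 * Real.pi - a) (-g)) / β)) ^ (1 / 2 : ℂ) := ⟨_, rfl⟩
  have hμn : ‖μ‖ = Real.sqrt (2 * Real.pi) * Real.sqrt β / Real.sqrt ‖Dx t (2 * Real.pi - a) (-g)‖ := by
    rw [hμ]
    refine norm_mu H.sad hD ?_
    rw [norm_div, Complex.norm_real, Real.norm_of_nonneg hβ.le]
    congr 1
    have e8 : I + Lx t (2 * Real.pi - a) (-g) = I * Dx t (2 * Real.pi - a) (-g) := by
      unfold Dx
      linear_combination (Lx t (2 * Real.pi - a) (-g)) * Complex.I_sq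
    rw [e8, norm_mul, Complex.norm_I, one_mul]
  have hm : Real.sqrt (2 * Real.pi) / Real.sqrt lam ≤ ‖μ‖ := by
    rw [hμn]
    have h1 : Real.sqrt ‖Dx t (2 * Real.pi - a) (-g)‖ ≤ Real.sqrt lam * Real.sqrt β := by
      rw [← Real.sqrt_mul hlp.le, ← hρl]; exact Real.sqrt_le_sqrt hdρ
    have hl0 : 0 < Real.sqrt lam := Real.sqrt_pos.2 hlp
    have hb0 : 0 < Real.sqrt β := Real.sqrt_pos.2 hβ
    have hd1 : 0 < Real.sqrt ‖Dx t (2 * Real.pi - a) (-g)‖ := Real.sqrt_pos.2 hd0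
    rw [div_le_div_iff₀ hl0 hd1]
    calc _ ≤ Real.sqrt (2 * Real.pi) * (Real.sqrt lam * Real.sqrt β) :=
          mul_le_mul_of_nonneg_left h1 (Real.sqrt_nonneg _)
      _ = _ := by ring
  rw [← hμ] at hseg
  have hm0 : 0 < Real.sqrt (2 * Real.pi) / Real.sqrt lam := by
    have := Real.sqrt_pos.2 hlp
    have := u_ge
    positivity
  have hμp : 0 < ‖μ‖ := hm0.trans_le hm
  rw [← hρl, ← hRA] at t1 t2
  rw [hRA] at H
  obtain ⟨S, hS⟩ : ∃ S : ℝ, S = SVY lam A 0.65 (4 / 5) + eY β g (4 / 5) (A * β / 3) (0.185 * ρ) (1.07 * (A * β))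
      (0.4 * ρ) (ρ * Real.sin (1 / 2)) := ⟨_, rfl⟩
  rw [hRA] at t1 t2
  rw [← hS] at t1
  have hS2 : S ≤ 0.2 * ‖μ‖ := t1.trans (by linarith)
  obtain ⟨k1, k2⟩ := H.slope hD hseg (by rw [← hS]; linarith)
  refine ⟨k1, k2.trans ?_⟩
  refine div_le_div_of_nonneg_right ?_ hβ.le
  rw [← hS, hρe]
  have h3 : mY β g (A * β / 3) (0.185 * ρ) (1.07 * (A * β)) (0.4 * ρ) (ρ * Real.sin (1 / 2)) ≤ 0.15 * ‖μ‖ :=
    t2.trans (by linarith)
  have hdd : 0.782 * ρ ≤ ‖Dx t (2 * Real.pi - a) (-g)‖ := by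
    refine le_trans ?_ him
    rw [hρl]; nlinarith
  rw [← mul_div_assoc, div_le_iff₀ (mul_pos hd0 (by linarith))]
  have h4 : 0.8 * ‖μ‖ ≤ ‖μ‖ - S := by linarith
  have h5 : 0.782 * ρ * (0.8 * ‖μ‖) ≤ ‖Dx t (2 * Real.pi - a) (-g)‖ * (‖μ‖ - S) :=
    mul_le_mul hdd h4 (by positivity) hd0.le
  have h6 : ρ * mY β g (A * β / 3) (0.185 * ρ) (1.07 * (A * β)) (0.4 * ρ) (ρ * Real.sin (1 / 2)) ≤
      ρ * (0.15 * ‖μ‖) := mul_le_mul_of_nonneg_left h3 hρp.le
  nlinarith [mul_pos hρp hμp]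

end Sok.Mid
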