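import Pool.Agent.Lib.MP_816dec_an.MXnum

/-!
MP_816dec_an, `b = 1`, middle range: the numerical form of the estimate of the right function.
-/

set_option autoImplicit false

open Complex Set Filter Topology MeasureTheory Sok.W

namespace Sok.Mid

theorem cos_66 {a : ℝ} (h0 : 0 ≤ a) (h1 : a ≤ 0.66) : 0.782 ≤ Real.cos a := by
  have := Real.one_sub_sq_div_two_le_cos (x := a)
  nlinarith

theorem exp_09 : 2.45 ≤ Real.exp 0.9 := by
  have h2 := Real.sum_le_exp_of_nonneg (x := 0.9) (by norm_num) 8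
  simp only [Finset.sum_range_succ, Finset.sum_range_zero, Nat.factorial] at h2
  norm_num at h2 ⊢
  linarith

theorem sin_half : 0.475 ≤ Real.sin (1 / 2) := by
  have := Real.sin_gt_sub_cube (x := 1 / 2) (by norm_num)
  norm_num at this ⊢
  linarith

theorem exp_neg_le_inv {x : ℝ} {E : ℝ} (hx : 0 ≤ x) (hE : 0 ≤ E)
    (h : 1 ≤ E * (1 + x + x ^ 2 / 2 + x ^ 3 / 6 + x ^ 4 / 24)) : Real.exp (-x) ≤ E := by
  have h1 := Real.sum_le_exp_of_nonneg hx 5
  simp only [Finset.sum_range_succ, Finset.sum_range_zero, Nat.factorial] at h1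
  norm_num at h1
  have h3 : Real.exp (-x) * Real.exp x = 1 := by rw [← Real.exp_add]; simp
  have h5 := Real.exp_pos x
  have h6 : E * (1 + x + x ^ 2 / 2 + x ^ 3 / 6 + x ^ 4 / 24) ≤ E * Real.exp x :=
    mul_le_mul_of_nonneg_left (by linarith) hE
  by_contra hc
  have := mul_lt_mul_of_pos_right (not_le.1 hc) h5
  linarith

theorem exp_neg_le_of' {x y E : ℝ} (n : ℕ) (hy : 0 ≤ y) (hxy : y ≤ x) (hE : 0 ≤ E)
    (h : 1 ≤ E * ∑ i ∈ Finset.range n, y ^ i / (i.factorial : ℝ)) : Real.exp (-x) ≤ E := by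
  have h1 := Real.sum_le_exp_of_nonneg hy n
  have h2 : Real.exp (-x) ≤ Real.exp (-y) := Real.exp_le_exp.2 (by linarith)
  have h3 : Real.exp (-y) * Real.exp y = 1 := by rw [← Real.exp_add]; simp
  have h4 : 1 ≤ E * Real.exp y := h.trans (mul_le_mul_of_nonneg_left h1 hE)
  have h5 := Real.exp_pos y
  refine h2.trans ?_
  by_contra hc
  have := mul_lt_mul_of_pos_right (not_le.1 hc) h5
  linarith

/-- `SV` of the horizontal segment -/
noncomputable def SVY (lam A c T : ℝ) : ℝ :=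
  3 * Real.sqrt (2 * Real.pi) * (lam * (1 / 24)) / (A ^ 2 * Real.sqrt A) +
      15 / 2 * Real.sqrt (2 * Real.pi) * (lam * (1 / 6)) ^ 2 / ((c * A) ^ 3 * Real.sqrt (c * A)) +
      2 * (Real.exp (-(A / 2) * T ^ 2) / (A * T))

theorem seg_Y {β r t α g c : ℝ} (h0 : Sad β r t α (-g)) (hR : 0 < α - t) (hc : 0 < c) (hc1 : c ≤ 1)
    (hρ : β * r * Real.exp (- -g) * (4 / 15) ≤ (1 - c) * (α - t)) :
    ‖(∫ x in (-(4 / 5 : ℝ))..(4 / 5 : ℝ),
      cexp (Psi (Lx t α (-g)) (x * cexp (((0 : ℝ) : ℂ) * I)) / β)) -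
        (2 * Real.pi / ((I + Lx t α (-g)) / β)) ^ (1 / 2 : ℂ)‖ ≤
      SVY (β * r * Real.exp (- -g) / β) ((α - t) / β) c (4 / 5) := by
  have hβ := h0.hβ
  have hb : (β : ℂ) ≠ 0 := by exact_mod_cast hβ.ne'
  have hΛ : (I + Lx t α (-g)) / β = (I + Lx t α (-g)) / β * cexp (2 * ((0 : ℝ) : ℂ) * I) := by simp
  have hre : ((I + Lx t α (-g)) / β).re = (α - t) / β := by
    rw [Complex.div_ofReal_re, Complex.add_re, Lx_re, Complex.I_re, zero_add]
  have hL := norm_Lx h0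
  have h1 := sad_value (x0 := Lx t α (-g)) (γ := 0) (T := 4 / 5) (c := c) hβ hΛ
    (by rw [hre]; positivity) hc hc1 (by norm_num) (by norm_num) (segBd_horizontal (4 / 5)) (by
      intro x hx
      rw [hre]
      refine hre_of hβ (segBd_horizontal (4 / 5)) (by norm_num) ?_ x hx
      rw [hL]
      have h2 := div_le_div_of_nonneg_right hρ hβ.le
      refine le_trans (le_of_eq ?_) (h2.trans (le_of_eq ?_)) <;> ring)
  rw [hre, hL] at h1
  exact h1

/-- `X s ≤ K u` gives `X ≤ K (u/s)` -/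
theorem le_us {X K u s : ℝ} (hs : 0 < s) (h : X * s ≤ K * u) : X ≤ K * (u / s) := by
  rw [← mul_div_assoc, le_div_iff₀ hs]
  exact h

section
variable {lam A u s : ℝ}

theorem yT1 (hup : 0 < u) (hsp : 0 < s) (hlam : 24.5 ≤ lam) (hA : 0.782 * lam ≤ A)
    (q1 : 0.884 * s ≤ Real.sqrt A) :
    3 * u * (lam * (1 / 24)) / (A ^ 2 * Real.sqrt A) ≤ 0.01 * (u / s) := by
  have hlp : 0 < lam := by linarith
  have hAp : 0 < A := by linarith
  have hsA : 0 < Real.sqrt A := Real.sqrt_pos.2 hAp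
  apply le_us hsp
  rw [div_mul_eq_mul_div, div_le_iff₀ (by positivity)]
  have h1 : (0.782 * lam) ^ 2 * (0.884 * s) ≤ A ^ 2 * Real.sqrt A :=
    mul_le_mul (pow_le_pow_left₀ (by positivity) hA 2) q1 (by positivity) (by positivity)
  have h2 : 3 * u * (lam * (1 / 24)) * s ≤ 0.01 * u * ((0.782 * lam) ^ 2 * (0.884 * s)) := by
    have h3 : 0 < u * lam * s := by positivity
    have h4 : u * lam * s * 24.5 ≤ u * lam * s * lam := mul_le_mul_of_nonneg_left hlam h3.le
    have e1 : 0.01 * u * ((0.782 * lam) ^ 2 * (0.884 * s)) = 0.01 * 0.782 ^ 2 * 0.884 * (u * lam * s * lam) := by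
      ring
    have e2 : 3 * u * (lam * (1 / 24)) * s = 1 / 8 * (u * lam * s) := by ring
    rw [e1, e2]
    norm_num at h4 ⊢
    linarith
  exact h2.trans (mul_le_mul_of_nonneg_left h1 (by positivity))

theorem yT2 (hup : 0 < u) (hsp : 0 < s) (hlam : 24.5 ≤ lam) (hA : 0.782 * lam ≤ A)
    (q2 : 0.712 * s ≤ Real.sqrt (0.65 * A)) :
    15 / 2 * u * (lam * (1 / 6)) ^ 2 / ((0.65 * A) ^ 3 * Real.sqrt (0.65 * A)) ≤ 0.1 * (u / s) := by
  have hlp : 0 < lam := by linarith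
  have hAp : 0 < A := by linarith
  have hp : 0 < Real.sqrt (0.65 * A) := Real.sqrt_pos.2 (by positivity)
  apply le_us hsp
  rw [div_mul_eq_mul_div, div_le_iff₀ (by positivity)]
  have h1 : (0.5083 * lam) ^ 3 * (0.712 * s) ≤ (0.65 * A) ^ 3 * Real.sqrt (0.65 * A) :=
    mul_le_mul (pow_le_pow_left₀ (by positivity) (by linarith) 3) q2 (by positivity) (by positivity)
  have h2 : 15 / 2 * u * (lam * (1 / 6)) ^ 2 * s ≤ 0.1 * u * ((0.5083 * lam) ^ 3 * (0.712 * s)) := by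
    have h3 : 0 < u * lam ^ 2 * s := by positivity
    have h4 : u * lam ^ 2 * s * 24.5 ≤ u * lam ^ 2 * s * lam := mul_le_mul_of_nonneg_left hlam h3.le
    have e1 : 0.1 * u * ((0.5083 * lam) ^ 3 * (0.712 * s)) = 0.1 * 0.5083 ^ 3 * 0.712 * (u * lam ^ 2 * s * lam) := by
      ring
    have e2 : 15 / 2 * u * (lam * (1 / 6)) ^ 2 * s = 15 / 72 * (u * lam ^ 2 * s) := by ring
    rw [e1, e2]
    norm_num at h4 ⊢
    linarith
  exact h2.trans (mul_le_mul_of_nonneg_left h1 (by positivity))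

theorem yx4 (hs4 : 4.9 ≤ s) (hA : 0.782 * s ^ 2 ≤ A) : Real.exp (-(1.07 * A)) * s ≤ 0.001 := by
  have hsp : 0 < s := by linarith
  have h1 : Real.exp (-(1.07 * A)) ≤ Real.exp (-(0.8 * s ^ 2)) := by
    apply Real.exp_le_exp.2
    have : 0 ≤ s ^ 2 := sq_nonneg s
    linarith
  have h2 : Real.exp (-(0.8 * s ^ 2)) ≤ 24 / (0.8 * s ^ 2) ^ 4 := by
    refine exp_neg_le_inv (by positivity) (by positivity) ?_
    rw [div_mul_eq_mul_div, le_div_iff₀ (by positivity)]
    have : 0 ≤ 1 + 0.8 * s ^ 2 + (0.8 * s ^ 2) ^ 2 / 2 + (0.8 * s ^ 2) ^ 3 / 6 := by positivity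
    linarith
  have h3 : 24 / (0.8 * s ^ 2) ^ 4 * s ≤ 0.001 := by
    rw [div_mul_eq_mul_div, div_le_iff₀ (by positivity)]
    have h4 : (4.9 : ℝ) ^ 7 ≤ s ^ 7 := pow_le_pow_left₀ (by norm_num) hs4 7
    have h5 : (0.8 * s ^ 2) ^ 4 = 0.4096 * (s ^ 7 * s) := by ring
    rw [h5]
    have h6 := mul_le_mul_of_nonneg_right h4 hsp.le
    norm_num at h6 ⊢
    linarith
  exact (mul_le_mul_of_nonneg_right (h1.trans h2) hsp.le).trans h3

theorem yM (hup : 0 < u) (hsp : 0 < s) (hs2 : s ^ 2 = lam) (hlam : 24.5 ≤ lam) (hspi : Real.sqrt Real.pi ≤ u / 1.414)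
    {B p q K : ℝ} (hB : p * lam ≤ B) (hp : 0 < p) (hq : 0 < q) (hq2 : q * s ≤ Real.sqrt B)
    (hK : 1 ≤ K * (1.414 * 8 * p * q * 24.5)) (hK0 : 0 < K) :
    1 / 2 * (Real.sqrt Real.pi / (4 * (B * Real.sqrt B))) ≤ K * (u / s) := by
  have hlp : 0 < lam := by linarith
  have hBp : 0 < B := lt_of_lt_of_le (by positivity) hB
  have hsB : 0 < Real.sqrt B := Real.sqrt_pos.2 hBp
  apply le_us hsp
  have h1 : p * s ^ 2 * (q * s) ≤ B * Real.sqrt B :=
    mul_le_mul (by rw [hs2]; exact hB) hq2 (by positivity) hBp.le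
  have h2 : 1 / 2 * (Real.sqrt Real.pi / (4 * (B * Real.sqrt B))) * s ≤
      1 / 2 * (u / 1.414 / (4 * (p * s ^ 2 * (q * s)))) * s := by gcongr
  refine h2.trans ?_
  have e2 : 1 / 2 * (u / 1.414 / (4 * (p * s ^ 2 * (q * s)))) * s =
      u * (1 / (1.414 * 8 * p * q * s ^ 2)) := by field_simp; ring
  rw [e2, hs2, mul_comm K u]
  refine mul_le_mul_of_nonneg_left ?_ hup.le
  rw [div_le_iff₀ (by positivity)]
  have h3 : K * (1.414 * 8 * p * q * 24.5) ≤ K * (1.414 * 8 * p * q * lam) := by gcongr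
  linarith

end

section
variable {β r t α g ρ C R : ℝ}

/-- everything in terms of `lam = ρ/β ≥ 24.5`, `s = √lam`; `m = √(2π)/s` -/
theorem Y_value_le {lam A g β : ℝ} (hβ : 0 < β) (hlam : 24.5 ≤ lam) (hA : 0.782 * lam ≤ A)
    (hfar : Real.exp (-(4.14 * g / β)) * Real.sqrt lam ≤ 0.001) (hg : 0.9 ≤ g) (hβ2 : β ≤ 0.13) :
    SVY lam A 0.65 (4 / 5) + eY β g (4 / 5) (A * β / 3) (0.185 * (lam * β)) (1.07 * (A * β)) (0.4 * (lam * β))
      (lam * β * Real.sin (1 / 2)) ≤ 0.2 * (Real.sqrt (2 * Real.pi) / Real.sqrt lam) := by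
  obtain ⟨u, hu⟩ : ∃ u : ℝ, u = Real.sqrt (2 * Real.pi) := ⟨_, rfl⟩
  have hu52 : 5 / 2 ≤ u := by rw [hu]; exact u_ge
  have hup : 0 < u := by linarith
  have hlp : 0 < lam := by linarith
  have hAp : 0 < A := by linarith
  obtain ⟨s, hs⟩ : ∃ s : ℝ, s = Real.sqrt lam := ⟨_, rfl⟩
  have hs2 : s ^ 2 = lam := by rw [hs, Real.sq_sqrt hlp.le]
  have hs4 : 4.9 ≤ s := by
    rw [hs]; apply Real.le_sqrt_of_sq_le; norm_num at hlam ⊢; linarith
  have hsp : 0 < s := by linarith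
  have hsn := sin_half
  have hsin0 : 0 < Real.sin (1 / 2) := by linarith
  rw [← hu, ← hs]
  rw [← hs] at hfar
  have hlin : ∀ {X K : ℝ}, X * s ≤ K * (5 / 2) → 0 ≤ K → X ≤ K * (u / s) := fun h hK =>
    le_us hsp (h.trans (mul_le_mul_of_nonneg_left hu52 hK))
  have q1 : 0.884 * s ≤ Real.sqrt A := by
    apply Real.le_sqrt_of_sq_le
    rw [mul_pow, hs2]; norm_num at hA ⊢; linarith
  have q2 : 0.712 * s ≤ Real.sqrt (0.65 * A) := by
    apply Real.le_sqrt_of_sq_le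
    rw [mul_pow, hs2]; norm_num at hA ⊢; linarith
  have T1 := yT1 hup hsp hlam hA q1
  have T2 := yT2 hup hsp hlam hA q2
  have hAs : s / A ≤ 0.262 := by
    rw [div_le_iff₀ hAp]
    have h1 : 4.9 * s ≤ s * s := mul_le_mul_of_nonneg_right hs4 hsp.le
    have h2 : s * s = lam := by rw [← hs2]; ring
    norm_num at hA h1 ⊢
    linarith
  have hAs0 : 0 ≤ s / A := by positivity
  have T3 : 2 * (Real.exp (-(A / 2) * (4 / 5) ^ 2) / (A * (4 / 5))) ≤ 0.003 * (u / s) := by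
    have x1 : Real.exp (-(A / 2) * (4 / 5) ^ 2) ≤ 0.01 := by
      have : Real.exp (-(A / 2) * (4 / 5) ^ 2) ≤ Real.exp (-6) := Real.exp_le_exp.2 (by norm_num at hA ⊢; linarith)
      exact this.trans (exp_neg_le_inv (by norm_num) (by norm_num) (by norm_num))
    refine hlin ?_ (by norm_num)
    have e1 : 2 * (Real.exp (-(A / 2) * (4 / 5) ^ 2) / (A * (4 / 5))) * s =
        5 / 2 * Real.exp (-(A / 2) * (4 / 5) ^ 2) * (s / A) := by field_simp; ring
    rw [e1]
    have h1 : 5 / 2 * Real.exp (-(A / 2) * (4 / 5) ^ 2) * (s / A) ≤ 5 / 2 * 0.01 * 0.262 := by gcongr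
    norm_num at h1 ⊢
    linarith
  have T4 : Real.exp (-(A * β / 3 * (4 / 5) ^ 2 / β)) / (2 * (A * β / 3 / β) * (4 / 5)) ≤ 0.004 * (u / s) := by
    have x2 : Real.exp (-(A * β / 3 * (4 / 5) ^ 2 / β)) ≤ 0.02 := by
      have e1 : A * β / 3 * (4 / 5) ^ 2 / β = A / 3 * (4 / 5) ^ 2 := by field_simp
      rw [e1]
      refine exp_neg_le_of' (y := 4) 10 (by norm_num) (by norm_num at hA ⊢; linarith) (by norm_num) ?_
      simp only [Finset.sum_range_succ, Finset.sum_range_zero, Nat.factorial]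
      norm_num
    refine hlin ?_ (by norm_num)
    have e1 : Real.exp (-(A * β / 3 * (4 / 5) ^ 2 / β)) / (2 * (A * β / 3 / β) * (4 / 5)) * s =
        15 / 8 * Real.exp (-(A * β / 3 * (4 / 5) ^ 2 / β)) * (s / A) := by
      generalize Real.exp (-(A * β / 3 * (4 / 5) ^ 2 / β)) = w
      field_simp; ring
    rw [e1]
    have h1 : 15 / 8 * Real.exp (-(A * β / 3 * (4 / 5) ^ 2 / β)) * (s / A) ≤ 15 / 8 * 0.02 * 0.262 := by gcongr
    norm_num at h1 ⊢
    linarith
  have T5 : Real.exp (-(0.185 * (lam * β) * (4 / 5) ^ 2 / β)) / (2 * (0.185 * (lam * β) / β) * (4 / 5)) ≤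
      0.016 * (u / s) := by
    have x3 : Real.exp (-(0.185 * (lam * β) * (4 / 5) ^ 2 / β)) ≤ 0.056 := by
      have e1 : 0.185 * (lam * β) * (4 / 5) ^ 2 / β = 0.185 * lam * (4 / 5) ^ 2 := by field_simp
      rw [e1]
      refine exp_neg_le_of' (y := 2.9) 10 (by norm_num) (by norm_num at hlam ⊢; linarith) (by norm_num) ?_
      simp only [Finset.sum_range_succ, Finset.sum_range_zero, Nat.factorial]
      norm_num
    refine hlin ?_ (by norm_num)
    have e1 : Real.exp (-(0.185 * (lam * β) * (4 / 5) ^ 2 / β)) / (2 * (0.185 * (lam * β) / β) * (4 / 5)) * s =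
        Real.exp (-(0.185 * (lam * β) * (4 / 5) ^ 2 / β)) * (1 / (0.296 * s)) := by
      generalize Real.exp (-(0.185 * (lam * β) * (4 / 5) ^ 2 / β)) = w
      rw [← hs2]
      field_simp; norm_num; ring
    rw [e1]
    have h0 : 1 / (0.296 * s) ≤ 1 / (0.296 * 4.9) := by gcongr
    have h1 : Real.exp (-(0.185 * (lam * β) * (4 / 5) ^ 2 / β)) * (1 / (0.296 * s)) ≤
        0.056 * (1 / (0.296 * 4.9)) := mul_le_mul x3 h0 (by positivity) (by norm_num)
    norm_num at h1 ⊢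
    linarith
  have T6 : 5 / 2 * Real.exp (-(1.07 * (A * β) / β)) ≤ 0.001 * (u / s) := by
    have e1 : 1.07 * (A * β) / β = 1.07 * A := by field_simp
    rw [e1]
    have x4 := yx4 (A := A) hs4 (by rw [hs2]; exact hA)
    refine hlin ?_ (by norm_num)
    linarith
  have hgp : 0 < g := by linarith
  have hbg : β / g ≤ 0.15 := by
    rw [div_le_iff₀ hgp]; linarith
  have hbg0 : 0 ≤ β / g := by positivity
  have T7 : Real.exp (-(4.14 * g / β)) * (β / g) ≤ 0.001 * (u / s) := by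
    refine hlin ?_ (by norm_num)
    have e1 : Real.exp (-(4.14 * g / β)) * (β / g) * s = (Real.exp (-(4.14 * g / β)) * s) * (β / g) := by ring
    rw [e1]
    have h1 : (Real.exp (-(4.14 * g / β)) * s) * (β / g) ≤ 0.001 * 0.15 := by gcongr
    norm_num at h1 ⊢
    linarith
  have x5 : Real.exp (-(0.4 * (lam * β) / β)) ≤ 0.001 := by
    have e1 : 0.4 * (lam * β) / β = 0.4 * lam := by field_simp
    rw [e1]
    refine exp_neg_le_of' (y := 9.8) 12 (by norm_num) (by norm_num at hlam ⊢; linarith) (by norm_num) ?_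
    simp only [Finset.sum_range_succ, Finset.sum_range_zero, Nat.factorial]
    norm_num
  have hpos : 0 < u / s := by positivity
  have T8 : Real.exp (-(0.4 * (lam * β) / β)) *
      (Real.sqrt (2 * Real.pi * (β / (lam * β * Real.sin (1 / 2)))) / 2) ≤ 0.001 * (u / s) := by
    have e1 : 2 * Real.pi * (β / (lam * β * Real.sin (1 / 2))) = 2 * Real.pi / (lam * Real.sin (1 / 2)) := by
      field_simp
    have h1 : Real.sqrt (2 * Real.pi * (β / (lam * β * Real.sin (1 / 2)))) ≤ 2 * (u / s) := by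
      rw [e1]
      apply Real.sqrt_le_iff.2 ⟨by positivity, ?_⟩
      rw [mul_pow, div_pow, hs2, hu, Real.sq_sqrt (by positivity)]
      rw [div_le_iff₀ (by positivity)]
      have e2 : 2 ^ 2 * (2 * Real.pi / lam) * (lam * Real.sin (1 / 2)) = 2 * Real.pi * (4 * Real.sin (1 / 2)) := by
        field_simp; norm_num
      rw [e2]
      have := Real.pi_pos
      exact le_mul_of_one_le_right (by positivity) (by linarith)
    have h3 : Real.exp (-(0.4 * (lam * β) / β)) *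
      (Real.sqrt (2 * Real.pi * (β / (lam * β * Real.sin (1 / 2)))) / 2) ≤ 0.001 * (2 * (u / s) / 2) := by
      gcongr
    linarith
  unfold SVY eY
  rw [← hu]
  norm_num at T1 T2 T3 T4 T5 T6 T7 T8 ⊢
  linarith

theorem Y_moment_le {lam A g β : ℝ} (hβ : 0 < β) (hlam : 24.5 ≤ lam) (hA : 0.782 * lam ≤ A)
    (hfar : Real.exp (-(4.14 * g / β)) * Real.sqrt lam ≤ 0.001) (hg : 0.9 ≤ g) (hβ2 : β ≤ 0.13) :
    mY β g (A * β / 3) (0.185 * (lam * β)) (1.07 * (A * β)) (0.4 * (lam * β)) (lam * β * Real.sin (1 / 2)) ≤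
      0.15 * (Real.sqrt (2 * Real.pi) / Real.sqrt lam) := by
  obtain ⟨u, hu⟩ : ∃ u : ℝ, u = Real.sqrt (2 * Real.pi) := ⟨_, rfl⟩
  have hu52 : 5 / 2 ≤ u := by rw [hu]; exact u_ge
  have hup : 0 < u := by linarith
  have hlp : 0 < lam := by linarith
  have hAp : 0 < A := by linarith
  obtain ⟨s, hs⟩ : ∃ s : ℝ, s = Real.sqrt lam := ⟨_, rfl⟩
  have hs2 : s ^ 2 = lam := by rw [hs, Real.sq_sqrt hlp.le]
  have hs4 : 4.9 ≤ s := by
    rw [hs]; apply Real.le_sqrt_of_sq_le; norm_num at hlam ⊢; linarith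
  have hsp : 0 < s := by linarith
  have hsn := sin_half
  have hsin0 : 0 < Real.sin (1 / 2) := by linarith
  have hspi : Real.sqrt Real.pi ≤ u / 1.414 := by
    have spi : Real.sqrt 2 * Real.sqrt Real.pi = u := by rw [hu, Real.sqrt_mul (by norm_num)]
    have s2l : 1.414 ≤ Real.sqrt 2 := by
      apply Real.le_sqrt_of_sq_le; norm_num
    rw [le_div_iff₀ (by norm_num), ← spi, mul_comm (Real.sqrt 2)]
    exact mul_le_mul_of_nonneg_left s2l (Real.sqrt_nonneg _)
  rw [← hu, ← hs]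
  rw [← hs] at hfar
  have hlin : ∀ {X K : ℝ}, X * s ≤ K * (5 / 2) → 0 ≤ K → X ≤ K * (u / s) := fun h hK =>
    le_us hsp (h.trans (mul_le_mul_of_nonneg_left hu52 hK))
  have q3 : 0.51 * s ≤ Real.sqrt (A / 3) := by
    apply Real.le_sqrt_of_sq_le
    rw [mul_pow, hs2]; norm_num at hA ⊢; linarith
  have q4 : 0.43 * s ≤ Real.sqrt (0.185 * lam) := by
    apply Real.le_sqrt_of_sq_le
    rw [mul_pow, hs2]; norm_num; linarith
  have M1 : 1 / 2 * (Real.sqrt Real.pi / (4 * (A * β / 3 / β * Real.sqrt (A * β / 3 / β)))) ≤ 0.03 * (u / s) := by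
    have e1 : A * β / 3 / β = A / 3 := by field_simp
    rw [e1]
    exact yM hup hsp hs2 hlam hspi (p := 0.26) (by norm_num at hA ⊢; linarith) (by norm_num) (by norm_num) q3
      (by norm_num) (by norm_num)
  have M2 : 1 / 2 * (Real.sqrt Real.pi / (4 * (0.185 * (lam * β) / β * Real.sqrt (0.185 * (lam * β) / β)))) ≤
      0.05 * (u / s) := by
    have e1 : 0.185 * (lam * β) / β = 0.185 * lam := by field_simp
    rw [e1]
    exact yM hup hsp hs2 hlam hspi (p := 0.185) le_rfl (by norm_num) (by norm_num) q4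
      (by norm_num) (by norm_num)
  have M3 : 26 * Real.exp (-(1.07 * (A * β) / β)) ≤ 0.011 * (u / s) := by
    have e1 : 1.07 * (A * β) / β = 1.07 * A := by field_simp
    rw [e1]
    have x4 := yx4 (A := A) hs4 (by rw [hs2]; exact hA)
    refine hlin ?_ (by norm_num)
    linarith
  have hgp : 0 < g := by linarith
  have hbg : β / g ≤ 0.15 := by
    rw [div_le_iff₀ hgp]; linarith
  have hbg0 : 0 ≤ β / g := by positivity
  have M4 : Real.exp (-(4.14 * g / β)) * (6.5 * (β / g) + (β / g) ^ 2) ≤ 0.001 * (u / s) := by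
    refine hlin ?_ (by norm_num)
    have e1 : Real.exp (-(4.14 * g / β)) * (6.5 * (β / g) + (β / g) ^ 2) * s =
        (Real.exp (-(4.14 * g / β)) * s) * (6.5 * (β / g) + (β / g) ^ 2) := by ring
    rw [e1]
    have h1 : (Real.exp (-(4.14 * g / β)) * s) * (6.5 * (β / g) + (β / g) ^ 2) ≤
        0.001 * (6.5 * 0.15 + 0.15 ^ 2) := by gcongr
    norm_num at h1 ⊢
    linarith
  have x5 : Real.exp (-(0.4 * (lam * β) / β)) ≤ 0.001 := by
    have e1 : 0.4 * (lam * β) / β = 0.4 * lam := by field_simp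
    rw [e1]
    refine exp_neg_le_of' (y := 9.8) 12 (by norm_num) (by norm_num at hlam ⊢; linarith) (by norm_num) ?_
    simp only [Finset.sum_range_succ, Finset.sum_range_zero, Nat.factorial]
    norm_num
  have hpos : 0 < u / s := by positivity
  have M5 : Real.exp (-(0.4 * (lam * β) / β)) *
      (6.8 * (Real.sqrt (2 * Real.pi * (1 / (lam * β * Real.sin (1 / 2) / β - 1))) / 2)) ≤ 0.007 * (u / s) := by
    have e1 : lam * β * Real.sin (1 / 2) / β = lam * Real.sin (1 / 2) := by field_simp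
    have h0 : 0.25 * lam ≤ lam * Real.sin (1 / 2) - 1 := by
      have := mul_le_mul_of_nonneg_left hsn hlp.le
      norm_num at hlam this ⊢
      linarith
    have h1 : Real.sqrt (2 * Real.pi * (1 / (lam * β * Real.sin (1 / 2) / β - 1))) ≤ 2 * (u / s) := by
      rw [e1]
      apply Real.sqrt_le_iff.2 ⟨by positivity, ?_⟩
      rw [mul_pow, div_pow, hs2, hu, Real.sq_sqrt (by positivity)]
      rw [mul_one_div, div_le_iff₀ (by linarith)]
      have hpi := Real.pi_pos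
      have h3 : 2 * Real.pi = 2 ^ 2 * (2 * Real.pi / lam) * (0.25 * lam) := by field_simp; norm_num
      have h4 : 2 ^ 2 * (2 * Real.pi / lam) * (0.25 * lam) ≤
          2 ^ 2 * (2 * Real.pi / lam) * (lam * Real.sin (1 / 2) - 1) :=
        mul_le_mul_of_nonneg_left h0 (by positivity)
      linarith
    have h3 : Real.exp (-(0.4 * (lam * β) / β)) *
      (6.8 * (Real.sqrt (2 * Real.pi * (1 / (lam * β * Real.sin (1 / 2) / β - 1))) / 2)) ≤
        0.001 * (6.8 * (2 * (u / s) / 2)) := by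
      gcongr
    norm_num at h3 ⊢
    linarith
  unfold mY
  norm_num at M1 M2 M3 M4 M5 ⊢
  linarith

end

end Sok.Mid
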