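import Mathlib
import Pool.Agent.Lib.MP_816dec_an.N1X0
import Pool.Agent.Lib.MP_816dec_an.A0Far

/-!
MP_816dec_an, row N1: right saddle (`y ≥ 0`), direction `(40 - 9 i) / 41`, `T = 6/5`. General part: the central
error in terms of `w = |σ|`.
-/

set_option autoImplicit false

open Complex Set Filter Topology MeasureTheory

namespace Sok.N1

open Sok.Mid

/-- `z ^ (7/2)` -/
noncomputable def p35 (z : ℝ) : ℝ := z ^ 3 * Real.sqrt z
/-- `z ^ (5/2)` -/
noncomputable def p25 (z : ℝ) : ℝ := z ^ 2 * Real.sqrt z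

theorem p35_mono {z z' : ℝ} (h0 : 0 ≤ z) (h : z ≤ z') : p35 z ≤ p35 z' := by
  unfold p35
  exact mul_le_mul (pow_le_pow_left₀ h0 h 3) (Real.sqrt_le_sqrt h) (Real.sqrt_nonneg _) (pow_nonneg (h0.trans h) 3)

theorem p25_mono {z z' : ℝ} (h0 : 0 ≤ z) (h : z ≤ z') : p25 z ≤ p25 z' := by
  unfold p25
  exact mul_le_mul (pow_le_pow_left₀ h0 h 2) (Real.sqrt_le_sqrt h) (Real.sqrt_nonneg _) (pow_nonneg (h0.trans h) 2)

theorem p35_mul {z z' : ℝ} (h0 : 0 ≤ z) : p35 (z * z') = p35 z * p35 z' := by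
  unfold p35; rw [Real.sqrt_mul h0]; ring

theorem p25_mul {z z' : ℝ} (h0 : 0 ≤ z) : p25 (z * z') = p25 z * p25 z' := by
  unfold p25; rw [Real.sqrt_mul h0]; ring

theorem p35_nonneg {z : ℝ} (h0 : 0 ≤ z) : 0 ≤ p35 z := by unfold p35; positivity
theorem p25_nonneg (z : ℝ) : 0 ≤ p25 z := by unfold p25; positivity

theorem exp_eq_p35 (y : ℝ) : Real.exp y = p35 (Real.exp (2 * y / 7)) := by
  unfold p35
  have e1 : Real.sqrt (Real.exp (2 * y / 7)) = Real.exp (y / 7) := by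
    rw [Real.sqrt_eq_iff_mul_self_eq (Real.exp_pos _).le (Real.exp_pos _).le, ← Real.exp_add]
    congr 1; ring
  rw [e1, ← Real.exp_nat_mul, ← Real.exp_add]
  congr 1; push_cast; ring

theorem exp_eq_p25 (y : ℝ) : Real.exp y = p25 (Real.exp (2 * y / 5)) := by
  unfold p25
  have e1 : Real.sqrt (Real.exp (2 * y / 5)) = Real.exp (y / 5) := by
    rw [Real.sqrt_eq_iff_mul_self_eq (Real.exp_pos _).le (Real.exp_pos _).le, ← Real.exp_add]
    congr 1; ring
  rw [e1, ← Real.exp_nat_mul, ← Real.exp_add]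
  congr 1; push_cast; ring

/-- chord of the exponential -/
theorem exp_chord {θ Y k y : ℝ} (hY : 0 < Y) (h : Real.exp (θ * Y) ≤ 1 + k * Y) (h0 : 0 ≤ y) (hy : y ≤ Y) :
    Real.exp (θ * y) ≤ 1 + k * y := by
  have hc := convexOn_exp
  have ha0 : (0:ℝ) ≤ 1 - y / Y := by rw [sub_nonneg, div_le_one hY]; exact hy
  have hb0 : (0:ℝ) ≤ y / Y := by positivity
  have h1 := hc.2 (mem_univ (0:ℝ)) (mem_univ (θ * Y)) ha0 hb0 (by ring)
  simp only [smul_eq_mul, mul_zero, zero_add, Real.exp_zero, mul_one] at h1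
  have e1 : y / Y * (θ * Y) = θ * y := by field_simp
  rw [e1] at h1
  have h2 : y / Y * Real.exp (θ * Y) ≤ y / Y * (1 + k * Y) := mul_le_mul_of_nonneg_left h hb0
  have e2 : y / Y * (1 + k * Y) = y / Y + k * y := by field_simp
  linarith

/-- a linear function of `y` against `h e^y` -/
theorem lin_ge_exp {C D h Y EY y : ℝ} (hY : 0 < Y) (hE : Real.exp Y ≤ EY) (hh : 0 ≤ h) (h0 : h ≤ C)
    (h1 : h * EY ≤ C + D * Y) (hy0 : 0 ≤ y) (hy : y ≤ Y) : h * Real.exp y ≤ C + D * y := by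
  have h2 := exp_chord (θ := 1) (k := (EY - 1) / Y) hY (by rw [one_mul]; field_simp; linarith) hy0 hy
  rw [one_mul] at h2
  have h3 : h * Real.exp y ≤ h * (1 + (EY - 1) / Y * y) := mul_le_mul_of_nonneg_left h2 hh
  refine h3.trans ?_
  have hb0 : (0:ℝ) ≤ y / Y := by positivity
  have ha0 : (0:ℝ) ≤ 1 - y / Y := by rw [sub_nonneg, div_le_one hY]; exact hy
  have e1 : h * (1 + (EY - 1) / Y * y) = (1 - y / Y) * h + y / Y * (h * EY) := by field_simp; ring
  have e2 : C + D * y = (1 - y / Y) * C + y / Y * (C + D * Y) := by field_simp; ring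
  rw [e1, e2]
  exact add_le_add (mul_le_mul_of_nonneg_left h0 ha0) (mul_le_mul_of_nonneg_left h1 hb0)

/-- linear interpolation for `w (1 + k y) ≤ g (α w + β + γ y)` -/
theorem gbd {g A B Γ k v Y w y : ℝ} (hY : 0 < Y) (hg : 0 ≤ g) (hw : 0 < w) (hv : v * w ≤ 1)
    (hB : 0 ≤ B) (hBΓ : 0 ≤ B + Γ * Y) (h0 : 1 ≤ g * (A + B * v)) (h1 : 1 + k * Y ≤ g * (A + (B + Γ * Y) * v))
    (hy0 : 0 ≤ y) (hy : y ≤ Y) : w * (1 + k * y) ≤ g * (A * w + B + Γ * y) := by
  have hb0 : (0:ℝ) ≤ y / Y := by positivity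
  have ha0 : (0:ℝ) ≤ 1 - y / Y := by rw [sub_nonneg, div_le_one hY]; exact hy
  have k0 : w ≤ g * (A * w + B) := by
    have h2 : w * 1 ≤ w * (g * (A + B * v)) := mul_le_mul_of_nonneg_left h0 hw.le
    have h3 : g * B * (v * w) ≤ g * B * 1 := mul_le_mul_of_nonneg_left hv (mul_nonneg hg hB)
    nlinarith
  have k1 : w * (1 + k * Y) ≤ g * (A * w + (B + Γ * Y)) := by
    have h2 : w * (1 + k * Y) ≤ w * (g * (A + (B + Γ * Y) * v)) := mul_le_mul_of_nonneg_left h1 hw.le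
    have h3 : g * (B + Γ * Y) * (v * w) ≤ g * (B + Γ * Y) * 1 := mul_le_mul_of_nonneg_left hv (mul_nonneg hg hBΓ)
    nlinarith
  have e1 : w * (1 + k * y) = (1 - y / Y) * w + y / Y * (w * (1 + k * Y)) := by field_simp; ring
  have e2 : g * (A * w + B + Γ * y) = (1 - y / Y) * (g * (A * w + B)) + y / Y * (g * (A * w + (B + Γ * Y))) := by
    field_simp; ring
  rw [e1, e2]
  exact add_le_add (mul_le_mul_of_nonneg_left k0 ha0) (mul_le_mul_of_nonneg_left k1 hb0)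

/-- the central error in terms of square roots -/
theorem epsC_eq {β c s x y T φ3 φ4 uL uR w : ℝ} (hβ : 0 < β) (hw : 0 < w) (hn : nS x y = w)
    (hA : 0 < aq c s x y) (huL : 0 < uL) (huR : 0 < uR) :
    epsC β c s x y T φ3 φ4 (uL / aq c s x y) (uR / aq c s x y) =
      Real.sqrt (nD x y / w) * ((β / w) * (5 / 48 * p35 (w / uL) + 15 / 4 * φ3 ^ 2 * p35 (w / uR) +
        3 / 2 * (1 / 24 + φ4) * p25 (w / aq c s x y)) +
        Real.sqrt (w / aq c s x y) * (2 * Real.exp (-((aq c s x y / β) / 2) * T ^ 2) /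
          (Real.sqrt (2 * Real.pi * (aq c s x y / β)) * T))) := by
  unfold epsC p35 p25
  rw [hn]
  obtain ⟨A, hAd⟩ : ∃ A : ℝ, A = aq c s x y := ⟨_, rfl⟩
  rw [← hAd] at hA ⊢
  have hD : 0 ≤ nD x y := by unfold nD; positivity
  have eD : Real.sqrt (nD x y / A) = Real.sqrt (nD x y / w) * Real.sqrt (w / A) := by
    rw [← Real.sqrt_mul (by positivity)]
    congr 1
    field_simp
  rw [eD, mul_assoc]
  congr 1
  rw [mul_add]
  congr 1
  have e1 : Real.sqrt (w / A) = Real.sqrt w / Real.sqrt A := Real.sqrt_div hw.le A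
  have e2 : Real.sqrt (uL / A) = Real.sqrt uL / Real.sqrt A := Real.sqrt_div huL.le A
  have e3 : Real.sqrt (uR / A) = Real.sqrt uR / Real.sqrt A := Real.sqrt_div huR.le A
  have e4 : Real.sqrt (w / uL) = Real.sqrt w / Real.sqrt uL := Real.sqrt_div hw.le uL
  have e5 : Real.sqrt (w / uR) = Real.sqrt w / Real.sqrt uR := Real.sqrt_div hw.le uR
  rw [e1, e2, e3, e4, e5]
  have q1 : 0 < Real.sqrt w := Real.sqrt_pos.2 hw
  have q2 : 0 < Real.sqrt A := Real.sqrt_pos.2 hA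
  have q3 : 0 < Real.sqrt uL := Real.sqrt_pos.2 huL
  have q4 : 0 < Real.sqrt uR := Real.sqrt_pos.2 huR
  have s1 : w = Real.sqrt w ^ 2 := (Real.sq_sqrt hw.le).symm
  have s2 : A = Real.sqrt A ^ 2 := (Real.sq_sqrt hA.le).symm
  have s3 : uL = Real.sqrt uL ^ 2 := (Real.sq_sqrt huL.le).symm
  have s4 : uR = Real.sqrt uR ^ 2 := (Real.sq_sqrt huR.le).symm
  generalize Real.sqrt w = qw at *
  generalize Real.sqrt A = qA at *
  generalize Real.sqrt uL = qL at *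
  generalize Real.sqrt uR = qR at *
  subst s1 s2 s3 s4
  field_simp
  ring


/-! ### numbers of the direction -/

private theorem dbl2 {x l u l' u' : ℝ} (hl : l ≤ Real.cos x) (hu : Real.cos x ≤ u) (hl0 : 0 ≤ l)
    (h1 : l' ≤ 2 * l ^ 2 - 1) (h2 : 2 * u ^ 2 - 1 ≤ u') : l' ≤ Real.cos (2 * x) ∧ Real.cos (2 * x) ≤ u' := by
  rw [Real.cos_two_mul]
  constructor <;> nlinarith

theorem cos_T : 0.38944 ≤ Real.cos (48 / 41) ∧ Real.cos (48 / 41) ≤ 0.38949 := by
  have h := Real.cos_bound (x := 3 / 164) (by rw [abs_of_pos] <;> norm_num)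
  rw [abs_le, abs_of_pos (by norm_num : (0:ℝ) < 3 / 164)] at h
  have a0 : (0.999832683 : ℝ) ≤ Real.cos (3 / 164) := by norm_num at h ⊢; linarith [h.1]
  have b0 : Real.cos (3 / 164) ≤ 0.9998326949 := by norm_num at h ⊢; linarith [h.2]
  obtain ⟨a1, b1⟩ := dbl2 (l' := 0.9993307879) (u' := 0.9993308357) a0 b0 (by norm_num) (by norm_num) (by norm_num)
  obtain ⟨a2, b2⟩ := dbl2 (l' := 0.997324047) (u' := 0.997324240) a1 b1 (by norm_num) (by norm_num) (by norm_num)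
  obtain ⟨a3, b3⟩ := dbl2 (l' := 0.9893105) (u' := 0.98931129) a2 b2 (by norm_num) (by norm_num) (by norm_num)
  obtain ⟨a4, b4⟩ := dbl2 (l' := 0.9574705) (u' := 0.9574737) a3 b3 (by norm_num) (by norm_num) (by norm_num)
  obtain ⟨a5, b5⟩ := dbl2 (l' := 0.833499) (u' := 0.833512) a4 b4 (by norm_num) (by norm_num) (by norm_num)
  obtain ⟨a6, b6⟩ := dbl2 (l' := 0.38944) (u' := 0.38949) a5 b5 (by norm_num) (by norm_num) (by norm_num)
  have e : (2 : ℝ) * (2 * (2 * (2 * (2 * (2 * (3 / 164)))))) = 48 / 41 := by norm_num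
  rw [e] at a6 b6
  exact ⟨a6, b6⟩

theorem sin_T : 0.921 ≤ Real.sin (48 / 41) ∧ Real.sin (48 / 41) ≤ 0.9211 := by
  obtain ⟨h1, h2⟩ := cos_T
  have h3 := Real.sin_sq_add_cos_sq (48 / 41)
  have h4 : 0 < Real.sin (48 / 41) := Real.sin_pos_of_pos_of_lt_pi (by norm_num) (by linarith [Real.pi_gt_three])
  constructor <;> nlinarith

theorem exp_T : 1.3013 ≤ Real.exp (54 / 205) ∧ Real.exp (54 / 205) ≤ 1.3014 := by
  constructor
  · have h := Real.sum_le_exp_of_nonneg (x := 54 / 205) (by norm_num) 7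
    refine le_trans ?_ h
    norm_num [Finset.sum_range_succ, Nat.factorial]
  · have h := Real.exp_bound' (x := 54 / 205) (by norm_num) (by norm_num) (n := 6) (by norm_num)
    refine h.trans ?_
    norm_num [Finset.sum_range_succ, Nat.factorial]

theorem exp_Tn : 0.7684 ≤ Real.exp (-(54 / 205)) ∧ Real.exp (-(54 / 205)) ≤ 0.7685 := by
  obtain ⟨h1, h2⟩ := exp_T
  have h3 : Real.exp (-(54 / 205)) * Real.exp (54 / 205) = 1 := by rw [← Real.exp_add, neg_add_cancel, Real.exp_zero]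
  have h4 := Real.exp_pos (-(54 / 205))
  constructor <;> nlinarith

theorem phB_T : PhB (40 / 41) (9 / 41) (6 / 5) 0.1783 0.044 := by
  have h := Real.exp_bound' (x := 54 / 205) (by norm_num) (by norm_num) (n := 8) (by norm_num)
  refine phB_of (X := 54 / 205) (by norm_num) (by norm_num) (by norm_num) (by norm_num) ?_ ?_
  · norm_num [Finset.sum_range_succ, Nat.factorial] at h ⊢
    linarith
  · norm_num [Finset.sum_range_succ, Nat.factorial] at h ⊢
    linarith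

theorem NN_R {x y : ℝ} (hx : 0 ≤ x) (hy : 0 ≤ y) :
    NN x y (48 / 41) (-(54 / 205)) ≤ -(0.7564 * x + 0.0275 * y + 0.3083) := by
  obtain ⟨c1, c2⟩ := cos_T
  obtain ⟨s1, s2⟩ := sin_T
  obtain ⟨e1, e2⟩ := exp_T
  unfold NN
  rw [neg_neg]
  have h1 : Real.exp (54 / 205) * Real.cos (48 / 41) ≤ 1.3014 * 0.38949 := mul_le_mul e2 c2 (by linarith) (by norm_num)
  have h2 : 1.3013 * 0.921 ≤ Real.exp (54 / 205) * Real.sin (48 / 41) := mul_le_mul e1 s1 (by norm_num) (by linarith)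
  have h3 := mul_le_mul_of_nonneg_left h1 hx
  have h4 := mul_le_mul_of_nonneg_left h2 hy
  nlinarith

theorem NN_L {x y : ℝ} (hx : 0 ≤ x) (hy : 0 ≤ y) :
    NN x y (-(48 / 41)) (54 / 205) ≤ -(0.4372 * x + 0.4628 * y + 0.3083) := by
  obtain ⟨c1, c2⟩ := cos_T
  obtain ⟨s1, s2⟩ := sin_T
  obtain ⟨e1, e2⟩ := exp_Tn
  unfold NN
  rw [Real.cos_neg, Real.sin_neg]
  have h1 : Real.exp (-(54 / 205)) * Real.cos (48 / 41) ≤ 0.7685 * 0.38949 := mul_le_mul e2 c2 (by linarith) (by norm_num)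
  have h2 : Real.exp (-(54 / 205)) * Real.sin (48 / 41) ≤ 0.7685 * 0.9211 := mul_le_mul e2 s2 (by linarith) (by norm_num)
  have h3 := mul_le_mul_of_nonneg_left h1 hx
  have h4 := mul_le_mul_of_nonneg_left h2 hy
  nlinarith

end Sok.N1
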