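import Mathlib
import Pool.Agent.Lib.MP_816dec_an.N1D

/-!
MP_816dec_an, row N1: right saddle (`y ≥ 0`), direction `(40 - 9 i) / 41`, `T = 6/5`: the estimate on a box
`w1 ≤ |σ| ≤ 1/v`, `0 ≤ y ≤ Y`, in terms of numbers.
-/

set_option autoImplicit false

open Complex Set Filter Topology MeasureTheory

namespace Sok.N1

open Sok.Mid

theorem sub_cube_le_sin {z : ℝ} (hz : 0 ≤ z) : z - z ^ 3 / 6 ≤ Real.sin z := by
  have h1 : ∀ u : ℝ, HasDerivAt (fun u : ℝ => Real.sin u - (u - u ^ 3 / 6)) (Real.cos u - (1 - u ^ 2 / 2)) u := by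
    intro u
    have h2 : HasDerivAt (fun u : ℝ => u ^ 3 / 6) (u ^ 2 / 2) u := by
      refine ((hasDerivAt_pow 3 u).div_const 6).congr_deriv ?_
      push_cast; ring
    exact (Real.hasDerivAt_sin u).sub ((hasDerivAt_id u).sub h2)
  have h4 : MonotoneOn (fun u : ℝ => Real.sin u - (u - u ^ 3 / 6)) (Ici 0) := by
    refine monotoneOn_of_hasDerivWithinAt_nonneg (convex_Ici 0) (fun u _ => (h1 u).continuousAt.continuousWithinAt)
      (f' := fun u => Real.cos u - (1 - u ^ 2 / 2)) (fun u _ => (h1 u).hasDerivWithinAt) (fun u _ => ?_)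
    have := Real.one_sub_sq_div_two_le_cos (x := u)
    linarith
  have h5 := h4 (mem_Ici.2 le_rfl) (mem_Ici.2 hz) hz
  simp only [Real.sin_zero] at h5
  norm_num at h5
  linarith

theorem sad_w {β r t a y : ℝ} (h : Sad β r t a y) : β * r * Real.exp (-y) = nS (a - t) y := by
  have h0 : 0 < β * r * Real.exp (-y) := mul_pos (mul_pos h.hβ h.hr) (Real.exp_pos _)
  have h2 := h.hc
  have h3 := h.hs
  generalize β * r * Real.exp (-y) = ρ at h0 h2 h3 ⊢
  unfold nS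
  rw [← h2, ← h3]
  have e : (ρ * Real.cos a) ^ 2 + (ρ * Real.sin a) ^ 2 = ρ ^ 2 := by
    have := Real.sin_sq_add_cos_sq a
    linear_combination (ρ ^ 2) * this
  rw [e, Real.sqrt_sq h0.le]

/-- the angle -/
theorem angle_le {β r t a y w1 Y s2 α2 : ℝ} (h : Sad β r t a y) (ha2 : a < Real.pi / 2)
    (hw1 : w1 ≤ nS (a - t) y) (hyY : y ≤ Y) (n0 : 0 < w1) (n3 : Y ≤ s2 * w1) (hs2 : 0 ≤ s2)
    (n7 : s2 ≤ α2 - α2 ^ 3 / 6) (n8 : 0 ≤ α2) : a ≤ α2 ∧ y ≤ s2 * nS (a - t) y := by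
  have hw := sad_w h
  have h3 := h.hs
  rw [hw] at h3
  have hw0 : 0 < nS (a - t) y := n0.trans_le hw1
  have h4 : y ≤ s2 * nS (a - t) y := by
    have : s2 * w1 ≤ s2 * nS (a - t) y := mul_le_mul_of_nonneg_left hw1 hs2
    linarith
  refine ⟨?_, h4⟩
  by_contra hcon
  push Not at hcon
  have h5 : Real.sin α2 < Real.sin a := Real.sin_lt_sin_of_lt_of_le_pi_div_two (by linarith [Real.pi_pos]) ha2.le hcon
  have h6 := sub_cube_le_sin n8
  have h7 : nS (a - t) y * Real.sin a ≤ nS (a - t) y * s2 := by rw [h3]; linarith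
  have h8 := le_of_mul_le_mul_left h7 hw0
  linarith

/-- `x ≥ w - τ y` -/
theorem x_ge {β r t a y s2 c2 τ2 : ℝ} (h : Sad β r t a y) (hy0 : 0 ≤ y) (ha0 : 0 ≤ a) (ha2 : a < Real.pi / 2)
    (h4 : y ≤ s2 * nS (a - t) y) (n4 : c2 ^ 2 + s2 ^ 2 ≤ 1) (n5 : 0 ≤ c2) (hs2 : 0 ≤ s2) (n6 : s2 ≤ τ2 * (1 + c2)) :
    nS (a - t) y - τ2 * y ≤ a - t ∧ c2 * nS (a - t) y ≤ a - t ∧ a - t ≤ nS (a - t) y ∧ 0 < a - t := by
  have hw := sad_w h
  have h3 := h.hs
  have h2 := h.hc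
  have hw0 : 0 < β * r * Real.exp (-y) := mul_pos (mul_pos h.hβ h.hr) (Real.exp_pos _)
  rw [hw] at h2 h3 hw0
  generalize nS (a - t) y = w at h2 h3 h4 hw0 ⊢
  have hc0 : 0 < Real.cos a := Real.cos_pos_of_mem_Ioo ⟨by linarith, ha2⟩
  have hc1 := Real.cos_le_one a
  have hs0 : 0 ≤ Real.sin a := Real.sin_nonneg_of_nonneg_of_le_pi ha0 (by linarith [Real.pi_pos])
  have hsc := Real.sin_sq_add_cos_sq a
  have hs' : Real.sin a ≤ s2 := by
    have h7 : w * Real.sin a ≤ w * s2 := by rw [h3]; linarith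
    exact le_of_mul_le_mul_left h7 hw0
  have hc' : c2 ≤ Real.cos a := by
    have h8 : c2 ^ 2 ≤ Real.cos a ^ 2 := by nlinarith
    exact le_of_sq_le_sq h8 hc0.le
  have hx0 : 0 < a - t := by rw [← h2]; positivity
  refine ⟨?_, ?_, ?_, hx0⟩
  · rw [← h2, ← h3]
    have h9 : Real.sin a * Real.sin a ≤ (τ2 * (1 + Real.cos a)) * Real.sin a := by
      apply mul_le_mul_of_nonneg_right _ hs0
      have hτ : 0 ≤ τ2 := by
        by_contra hn
        push Not at hn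
        have : τ2 * (1 + c2) < 0 := mul_neg_of_neg_of_pos hn (by linarith)
        linarith
      nlinarith
    have h10 : (1 - Real.cos a) * (1 + Real.cos a) ≤ (τ2 * Real.sin a) * (1 + Real.cos a) := by nlinarith
    have h11 := le_of_mul_le_mul_right h10 (by linarith)
    nlinarith
  · rw [← h2]
    nlinarith
  · rw [← h2]
    nlinarith

theorem right_num {β r t a y w1 v Y r0 s2 c2 τ2 α2 EY hR mR σR XR sE sD : ℝ}
    (h : Sad β r t a y) (hy0 : 0 ≤ y) (ha0 : 0 ≤ a) (ha2 : a < Real.pi / 2)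
    (hw1 : w1 ≤ nS (a - t) y) (hv : v * nS (a - t) y ≤ 1) (hyY : y ≤ Y) (hr : r0 ≤ r)
    (n0 : 0 < w1) (n1 : 0 ≤ v) (n2 : 0 < Y) (n3 : Y ≤ s2 * w1) (n4 : c2 ^ 2 + s2 ^ 2 ≤ 1) (n5 : 0 ≤ c2)
    (n6 : s2 ≤ τ2 * (1 + c2)) (n7 : s2 ≤ α2 - α2 ^ 3 / 6) (n8 : 0 ≤ α2) (n8' : α2 ≤ 0.8)
    (n9 : Real.exp Y ≤ EY) (hr0 : 0 < r0)
    (hD : Real.sqrt (nD (a - t) y / nS (a - t) y) ≤ sD) (hsE : EY / r0 ≤ sE ^ 2) (hsE0 : 0 ≤ sE)
    (m1 : mR ≤ 0.9) (m0 : 0 ≤ mR) (m2 : mR ≤ (0.98 - α2 / 2) - (0.98 - α2 / 2) ^ 3 / 3 + (0.98 - α2 / 2) ^ 5 / 36)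
    (m3 : σR ≤ 1.3013 * mR - s2 + 0.2634 * v) (m4 : 0 < σR)
    (p0 : 0 ≤ hR) (p1 : hR ≤ 0.7564 + 0.3083 * v) (p2 : hR * EY ≤ 0.7564 + 0.3083 * v + (0.0275 - 0.7564 * τ2) * v * Y)
    (p3 : 0 ≤ 0.3083 + (0.0275 - 0.7564 * τ2) * Y) (hX : Real.exp (-(r0 * hR)) ≤ XR) :
    Real.sqrt (nD (a - t) y / (2 * Real.pi * β)) * Real.exp (-((a - t) * (1 + y) / β)) *
      (Hor β r t (a + 40 / 41 * (6 / 5)) Real.pi (y - 9 / 41 * (6 / 5)) + Leg β r t Real.pi (y - 9 / 41 * (6 / 5))) ≤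
      sD * (sE / 2.5066 * (XR / σR)) := by
  have hβ := h.hβ
  have hrp := h.hr
  have hpi := Real.pi_pos
  have hpi4 := Real.pi_lt_d4
  have hpi3 := Real.pi_gt_d4
  have hs2 : 0 ≤ s2 := by
    by_contra hn
    push Not at hn
    have : s2 * w1 < 0 := mul_neg_of_neg_of_pos hn n0
    linarith
  obtain ⟨haα, hys⟩ := angle_le h ha2 hw1 hyY n0 n3 hs2 n7 n8
  obtain ⟨hx1, hx2, hx3, hx0⟩ := x_ge h hy0 ha0 ha2 hys n4 n5 hs2 n6
  have hwe := sad_w h
  obtain ⟨x, hx⟩ : ∃ x : ℝ, x = a - t := ⟨_, rfl⟩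
  obtain ⟨w, hwd⟩ : ∃ w : ℝ, w = nS x y := ⟨_, rfl⟩
  rw [← hx] at hw1 hv hD hys hx1 hx2 hx3 hx0 hwe ⊢
  rw [← hwd] at hw1 hv hD hys hx1 hx2 hx3 hwe
  have hw0 : 0 < w := n0.trans_le hw1
  have e1 : a + 40 / 41 * (6 / 5) = a + 48 / 41 := by norm_num
  have e2 : y - 9 / 41 * (6 / 5) = y + -(54 / 205) := by norm_num; ring
  rw [e1, e2]
  obtain ⟨E1, E2⟩ := exp_T
  have eE : β * r * Real.exp (-(y + -(54 / 205))) = w * Real.exp (54 / 205) := by
    rw [← hwe]
    have : -(y + -(54 / 205)) = -y + 54 / 205 := by ring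
    rw [this, Real.exp_add]; ring
  -- the angle conditions
  have hsin : mR ≤ Real.sin (a + 48 / 41) := by
    have h1 : Real.sin (a + 48 / 41) = Real.cos (a + 48 / 41 - Real.pi / 2) := (Real.cos_sub_pi_div_two _).symm
    rw [h1]
    have h2 := Real.one_sub_sq_div_two_le_cos (x := a + 48 / 41 - Real.pi / 2)
    have h3 : (a + 48 / 41 - Real.pi / 2) ^ 2 ≤ 0.41 ^ 2 := by
      apply sq_le_sq'
      · linarith
      · linarith
    linarith
  have hchord : mR * (Real.pi - (a + 48 / 41)) ≤ 1 + Real.cos (a + 48 / 41) := by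
    obtain ⟨z, hz⟩ : ∃ z : ℝ, z = (Real.pi - (a + 48 / 41)) / 2 := ⟨_, rfl⟩
    have hz1 : 0.98 - α2 / 2 ≤ z := by rw [hz]; linarith
    have hz2 : z ≤ 1 := by rw [hz]; linarith
    have hz00 : 0.58 ≤ 0.98 - α2 / 2 := by linarith
    have hz0 : 0 ≤ z := by linarith
    have h1 : 1 + Real.cos (a + 48 / 41) = 2 * Real.sin z ^ 2 := by
      have h2 : a + 48 / 41 = Real.pi - 2 * z := by rw [hz]; ring
      rw [h2, Real.cos_pi_sub, Real.cos_two_mul, Real.cos_sq']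
      ring
    have h2 : Real.pi - (a + 48 / 41) = 2 * z := by rw [hz]; ring
    rw [h1, h2]
    have h3 := sub_cube_le_sin hz0
    have hzs : z ^ 2 ≤ 1 := pow_le_one₀ hz0 hz2
    have h4 : 0 ≤ z - z ^ 3 / 6 := by
      have e : z - z ^ 3 / 6 = z * (1 - z ^ 2 / 6) := by ring
      rw [e]
      exact mul_nonneg hz0 (by linarith)
    have h5 : (z - z ^ 3 / 6) ^ 2 ≤ Real.sin z ^ 2 := pow_le_pow_left₀ h4 h3 2
    have h6 : mR ≤ z - z ^ 3 / 3 + z ^ 5 / 36 := by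
      refine m2.trans ?_
      generalize 0.98 - α2 / 2 = z0 at hz1 hz00
      have hz0' : 0 ≤ z0 := by linarith
      have k1 : z - z ^ 3 / 3 + z ^ 5 / 36 - (z0 - z0 ^ 3 / 3 + z0 ^ 5 / 36) =
          (z - z0) * (1 - (z ^ 2 + z * z0 + z0 ^ 2) / 3 +
            (z ^ 4 + z ^ 3 * z0 + z ^ 2 * z0 ^ 2 + z * z0 ^ 3 + z0 ^ 4) / 36) := by ring
      have k2 : z ^ 2 + z * z0 + z0 ^ 2 ≤ 3 := by
        have j1 : z0 ^ 2 ≤ 1 := pow_le_one₀ hz0' (by linarith)
        have j2 : z * z0 ≤ 1 := mul_le_one₀ hz2 hz0' (by linarith)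
        linarith
      have k3 : 0 ≤ z ^ 4 + z ^ 3 * z0 + z ^ 2 * z0 ^ 2 + z * z0 ^ 3 + z0 ^ 4 := by positivity
      have k4 : 0 ≤ (z - z0) * (1 - (z ^ 2 + z * z0 + z0 ^ 2) / 3 +
            (z ^ 4 + z ^ 3 * z0 + z ^ 2 * z0 ^ 2 + z * z0 ^ 3 + z0 ^ 4) / 36) :=
        mul_nonneg (by linarith) (by linarith)
      linarith
    have h7 : mR * z ≤ (z - z ^ 3 / 3 + z ^ 5 / 36) * z := mul_le_mul_of_nonneg_right h6 hz0
    have h8 : (z - z ^ 3 / 3 + z ^ 5 / 36) * z = (z - z ^ 3 / 6) ^ 2 := by ring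
    rw [h8] at h7
    linarith
  have hwv : 0.2634 * (v * w) ≤ 0.2634 * 1 := mul_le_mul_of_nonneg_left hv (by norm_num)
  have hR0 := right_tail (β := β) (r := r) (t := t) (X := a + 48 / 41) (v := y + -(54 / 205)) (m := mR)
    (S := σR * w) hβ hrp (by linarith) (by linarith) hsin hchord (by positivity)
    (by
      rw [eE]
      have k1 : w * (1.3013 * mR) ≤ w * Real.exp (54 / 205) * mR := by
        have := mul_le_mul_of_nonneg_right (mul_le_mul_of_nonneg_left E1 hw0.le) m0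
        linarith
      have k2 : σR * w ≤ (1.3013 * mR - s2 + 0.2634 * v) * w := mul_le_mul_of_nonneg_right m3 hw0.le
      linarith)
    (by
      rw [eE]
      have k1 : w * 1.3013 ≤ w * Real.exp (54 / 205) := mul_le_mul_of_nonneg_left E1 hw0.le
      have k2 : σR * w ≤ (1.3013 * mR - s2 + 0.2634 * v) * w := mul_le_mul_of_nonneg_right m3 hw0.le
      have k3 : mR * w ≤ 0.9 * w := mul_le_mul_of_nonneg_right m1 hw0.le
      have k4 : 0 ≤ s2 * w := by positivity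
      linarith)
  -- the value at the end
  have hm : mg β r t (a + 48 / 41) (y + -(54 / 205)) ≤ Real.exp (x * (1 + y) / β) * XR := by
    rw [mg_rel h, ← hx]
    apply mul_le_mul_of_nonneg_left _ (Real.exp_pos _).le
    refine le_trans (Real.exp_le_exp.2 ?_) hX
    have k1 := NN_R hx0.le hy0
    have k2 := lin_ge_exp n2 n9 p0 p1 p2 hy0 hyY
    have k3 : hR * Real.exp y * w ≤ 0.7564 * x + 0.0275 * y + 0.3083 := by
      have k4 : hR * Real.exp y * w ≤ (0.7564 + 0.3083 * v + (0.0275 - 0.7564 * τ2) * v * y) * w :=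
        mul_le_mul_of_nonneg_right k2 hw0.le
      have k5 : 0 ≤ 0.3083 + (0.0275 - 0.7564 * τ2) * y := by
        have hb0 : (0:ℝ) ≤ y / Y := by positivity
        have ha0 : (0:ℝ) ≤ 1 - y / Y := by rw [sub_nonneg, div_le_one n2]; exact hyY
        have e : 0.3083 + (0.0275 - 0.7564 * τ2) * y = (1 - y / Y) * 0.3083 + y / Y * (0.3083 + (0.0275 - 0.7564 * τ2) * Y) := by
          field_simp; ring
        rw [e]
        have := mul_nonneg hb0 p3
        linarith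
      have k6 : (0.3083 + (0.0275 - 0.7564 * τ2) * y) * (v * w) ≤ (0.3083 + (0.0275 - 0.7564 * τ2) * y) * 1 :=
        mul_le_mul_of_nonneg_left hv k5
      linarith
    have hk : β = w * Real.exp y / r := by
      rw [← hwe]
      have : Real.exp (-y) * Real.exp y = 1 := by rw [← Real.exp_add, neg_add_cancel, Real.exp_zero]
      field_simp
      linear_combination -this
    have k7 : r0 * hR ≤ (0.7564 * x + 0.0275 * y + 0.3083) / β := by
      rw [hk, le_div_iff₀ (by positivity)]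
      have k8 : r0 * hR * (w * Real.exp y / r) = (r0 / r) * (hR * Real.exp y * w) := by field_simp
      rw [k8]
      have k9 : r0 / r ≤ 1 := (div_le_one hrp).2 hr
      have k10 : 0 ≤ hR * Real.exp y * w := by positivity
      have k12 := mul_le_mul_of_nonneg_right k9 k10
      linarith
    have k11 : NN x y (48 / 41) (-(54 / 205)) / β ≤ -((0.7564 * x + 0.0275 * y + 0.3083) / β) := by
      have e : -((0.7564 * x + 0.0275 * y + 0.3083) / β) = -(0.7564 * x + 0.0275 * y + 0.3083) / β := by ring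
      rw [e]
      exact div_le_div_of_nonneg_right k1 hβ.le
    linarith
  -- assemble
  have hbw : β / w = Real.exp y / r := by
    rw [← hwe]
    have : Real.exp (-y) * Real.exp y = 1 := by rw [← Real.exp_add, neg_add_cancel, Real.exp_zero]
    field_simp
    linear_combination -this
  have hsq : Real.sqrt (β / w) ≤ sE := by
    rw [Real.sqrt_le_left hsE0, hbw]
    refine le_trans ?_ hsE
    exact div_le_div₀ (by linarith [Real.exp_pos Y]) ((Real.exp_le_exp.2 hyY).trans n9) hr0 hr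
  have eD : Real.sqrt (nD x y / (2 * Real.pi * β)) * (β / w) = Real.sqrt (nD x y / w) * (Real.sqrt (β / w) / Real.sqrt (2 * Real.pi)) := by
    have hnD : 0 ≤ nD x y := by unfold nD; positivity
    rw [← Real.sqrt_div (by positivity), ← Real.sqrt_mul (by positivity)]
    have h1 : β / w = Real.sqrt ((β / w) ^ 2) := by rw [Real.sqrt_sq (by positivity)]
    conv_lhs => rw [h1]
    rw [← Real.sqrt_mul (by positivity)]
    congr 1
    field_simp
  have hEE : Real.exp (-(x * (1 + y) / β)) * Real.exp (x * (1 + y) / β) = 1 := by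
    rw [← Real.exp_add, neg_add_cancel, Real.exp_zero]
  have hXR0 : 0 ≤ XR := (Real.exp_pos _).le.trans hX
  have hK := Real.sqrt_nonneg (nD x y / (2 * Real.pi * β))
  have hKe := Real.exp_pos (-(x * (1 + y) / β))
  calc Real.sqrt (nD x y / (2 * Real.pi * β)) * Real.exp (-(x * (1 + y) / β)) *
      (Hor β r t (a + 48 / 41) Real.pi (y + -(54 / 205)) + Leg β r t Real.pi (y + -(54 / 205)))
      ≤ Real.sqrt (nD x y / (2 * Real.pi * β)) * Real.exp (-(x * (1 + y) / β)) *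
        ((Real.exp (x * (1 + y) / β) * XR) * (β / (σR * w))) := by
        apply mul_le_mul_of_nonneg_left _ (by positivity)
        refine hR0.trans ?_
        apply mul_le_mul_of_nonneg_right hm (by positivity)
    _ = (Real.exp (-(x * (1 + y) / β)) * Real.exp (x * (1 + y) / β)) *
        ((Real.sqrt (nD x y / (2 * Real.pi * β)) * (β / w)) * (XR / σR)) := by field_simp
    _ = Real.sqrt (nD x y / w) * (Real.sqrt (β / w) / Real.sqrt (2 * Real.pi)) * (XR / σR) := by rw [hEE, eD, one_mul]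
    _ ≤ sD * (sE / 2.5066) * (XR / σR) := by
        apply mul_le_mul_of_nonneg_right _ (by positivity)
        apply mul_le_mul hD _ (by positivity) ((Real.sqrt_nonneg _).trans hD)
        exact div_le_div₀ hsE0 hsq (by norm_num) sqrt_two_pi
    _ = _ := by ring

end Sok.N1
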