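import Mathlib
import Pool.Agent.Lib.MP_816dec_an.N1E

/-!
MP_816dec_an, row N1: right saddle, boxes: left line, central piece.
-/

set_option autoImplicit false

open Complex Set Filter Topology MeasureTheory

namespace Sok.N1

open Sok.Mid

theorem beta_eq {β r t a y : ℝ} (h : Sad β r t a y) : β = nS (a - t) y * Real.exp y / r := by
  have hwe := sad_w h
  have hrp := h.hr
  rw [← hwe]
  have : Real.exp (-y) * Real.exp y = 1 := by rw [← Real.exp_add, neg_add_cancel, Real.exp_zero]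
  rw [eq_div_iff hrp.ne']
  linear_combination (-(β * r)) * this

theorem beta_div {β r t a y : ℝ} (h : Sad β r t a y) : β / nS (a - t) y = Real.exp y / r := by
  have hwe := sad_w h
  have hrp := h.hr
  have hβ := h.hβ
  rw [← hwe]
  have : Real.exp (-y) * Real.exp y = 1 := by rw [← Real.exp_add, neg_add_cancel, Real.exp_zero]
  field_simp
  linear_combination -this

theorem sqrt_nD {β x y w : ℝ} (hβ : 0 < β) (hw0 : 0 < w) :
    Real.sqrt (nD x y / (2 * Real.pi * β)) * (β / w) =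
      Real.sqrt (nD x y / w) * (Real.sqrt (β / w) / Real.sqrt (2 * Real.pi)) := by
  have hnD : 0 ≤ nD x y := by unfold nD; positivity
  have hpi := Real.pi_pos
  rw [← Real.sqrt_div (by positivity), ← Real.sqrt_mul (by positivity)]
  have h1 : β / w = Real.sqrt ((β / w) ^ 2) := by rw [Real.sqrt_sq (by positivity)]
  conv_lhs => rw [h1]
  rw [← Real.sqrt_mul (by positivity)]
  congr 1
  field_simp

/-- from a linear lower bound to an exponent -/
theorem expo_ge {β r t a y v Y r0 EY A B Γ hh F : ℝ} (h : Sad β r t a y) (hy0 : 0 ≤ y) (hyY : y ≤ Y) (hr : r0 ≤ r)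
    (hv : v * nS (a - t) y ≤ 1) (hw0 : 0 < nS (a - t) y) (n2 : 0 < Y) (n9 : Real.exp Y ≤ EY)
    (p0 : 0 ≤ hh) (p1 : hh ≤ A + B * v) (p2 : hh * EY ≤ A + B * v + Γ * v * Y) (hB : 0 ≤ B) (p3 : 0 ≤ B + Γ * Y)
    (hF : A * nS (a - t) y + B + Γ * y ≤ F) : r0 * hh ≤ F / β := by
  have hrp := h.hr
  have k2 := lin_ge_exp (C := A + B * v) (D := Γ * v) n2 n9 p0 p1 p2 hy0 hyY
  have hk := beta_eq h
  generalize nS (a - t) y = w at hv hw0 hF hk
  have k3 : hh * Real.exp y * w ≤ F := by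
    have k4 : hh * Real.exp y * w ≤ (A + B * v + Γ * v * y) * w := mul_le_mul_of_nonneg_right k2 hw0.le
    have k5 : 0 ≤ B + Γ * y := by
      have hb0 : (0:ℝ) ≤ y / Y := by positivity
      have ha0 : (0:ℝ) ≤ 1 - y / Y := by rw [sub_nonneg, div_le_one n2]; exact hyY
      have e : B + Γ * y = (1 - y / Y) * B + y / Y * (B + Γ * Y) := by
        field_simp; ring
      rw [e]
      exact add_nonneg (mul_nonneg ha0 hB) (mul_nonneg hb0 p3)
    have k6 : (B + Γ * y) * (v * w) ≤ (B + Γ * y) * 1 := mul_le_mul_of_nonneg_left hv k5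
    linarith
  rw [hk, le_div_iff₀ (by positivity)]
  have k8 : r0 * hh * (w * Real.exp y / r) = (r0 / r) * (hh * Real.exp y * w) := by field_simp
  rw [k8]
  have k9 : r0 / r ≤ 1 := (div_le_one hrp).2 hr
  have k10 : 0 ≤ hh * Real.exp y * w := by positivity
  have k12 := mul_le_mul_of_nonneg_right k9 k10
  linarith

theorem left_num {β r t a y w1 v Y r0 s2 c2 τ2 α2 EY hL mL σL XL sE sD : ℝ}
    (h : Sad β r t a y) (hy0 : 0 ≤ y) (ha0 : 0 ≤ a) (ha2 : a < Real.pi / 2)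
    (hw1 : w1 ≤ nS (a - t) y) (hv : v * nS (a - t) y ≤ 1) (hyY : y ≤ Y) (hr : r0 ≤ r)
    (n0 : 0 < w1) (n2 : 0 < Y) (n3 : Y ≤ s2 * w1) (n4 : c2 ^ 2 + s2 ^ 2 ≤ 1) (n5 : 0 ≤ c2)
    (n6 : s2 ≤ τ2 * (1 + c2)) (n7 : s2 ≤ α2 - α2 ^ 3 / 6) (n8 : 0 ≤ α2) (n8' : α2 ≤ 0.8)
    (n9 : Real.exp Y ≤ EY) (hr0 : 0 < r0)
    (hD : Real.sqrt (nD (a - t) y / nS (a - t) y) ≤ sD) (hsE : EY / r0 ≤ sE ^ 2) (hsE0 : 0 ≤ sE)
    (m1 : mL ≤ 0.66) (m0 : 0 ≤ mL) (m2 : mL ≤ (48 / 41 - α2) - (48 / 41 - α2) ^ 3 / 6)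
    (m3 : σL ≤ 0.7684 * mL + 0.2634 * v) (m4 : 0 < σL)
    (p0 : 0 ≤ hL) (p1 : hL ≤ 0.4372 + 0.3083 * v) (p2 : hL * EY ≤ 0.4372 + 0.3083 * v + (0.4628 - 0.4372 * τ2) * v * Y)
    (p3 : 0 ≤ 0.3083 + (0.4628 - 0.4372 * τ2) * Y) (hX : Real.exp (-(r0 * hL)) ≤ XL) :
    Real.sqrt (nD (a - t) y / (2 * Real.pi * β)) * Real.exp (-((a - t) * (1 + y) / β)) *
      Hor β r t (-Real.pi) (a - 40 / 41 * (6 / 5)) (y + 9 / 41 * (6 / 5)) ≤
      sD * (sE / 2.5066 * (XL / σL)) := by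
  have hβ := h.hβ
  have hrp := h.hr
  have hpi := Real.pi_pos
  have hpi4 := Real.pi_lt_d4
  have hpi3 := Real.pi_gt_d4
  have hs2 : 0 ≤ s2 := by
    by_contra hn
    push Not at hn
    have : s2 * w1 < 0 := mul_neg_of_neg_of_pos hn n0
    linarith
  obtain ⟨haα, hys⟩ := angle_le h ha2 hw1 hyY n0 n3 hs2 n7 n8
  obtain ⟨hx1, hx2, hx3, hx0⟩ := x_ge h hy0 ha0 ha2 hys n4 n5 hs2 n6
  have hwe := sad_w h
  have hw0 : 0 < nS (a - t) y := n0.trans_le hw1
  have hexpo := expo_ge (A := 0.4372) (B := 0.3083) (Γ := 0.4628 - 0.4372 * τ2) (F := 0.4372 * (a - t) + 0.4628 * y + 0.3083)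
    h hy0 hyY hr hv hw0 n2 n9 p0 p1 p2 (by norm_num) p3 (by
      have := mul_le_mul_of_nonneg_left hx1 (by norm_num : (0:ℝ) ≤ 0.4372)
      linarith)
  have hbd := beta_div h
  obtain ⟨x, hx⟩ : ∃ x : ℝ, x = a - t := ⟨_, rfl⟩
  obtain ⟨w, hwd⟩ : ∃ w : ℝ, w = nS x y := ⟨_, rfl⟩
  rw [← hx] at hw1 hv hD hys hx1 hx2 hx3 hx0 hwe hw0 hexpo hbd ⊢
  rw [← hwd] at hw1 hv hD hys hx1 hx2 hx3 hwe hw0 hbd
  have e1 : a - 40 / 41 * (6 / 5) = a + -(48 / 41) := by norm_num; ring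
  have e2 : y + 9 / 41 * (6 / 5) = y + 54 / 205 := by norm_num
  rw [e1, e2]
  obtain ⟨E1, E2⟩ := exp_Tn
  have eE : β * r * Real.exp (-(y + 54 / 205)) = w * Real.exp (-(54 / 205)) := by
    rw [← hwe]
    have : -(y + 54 / 205) = -y + -(54 / 205) := by ring
    rw [this, Real.exp_add]; ring
  have hsin : mL ≤ Real.sin (-(a + -(48 / 41))) := by
    have e3 : -(a + -(48 / 41)) = 48 / 41 - a := by ring
    rw [e3]
    have h1 : Real.sin (48 / 41 - α2) ≤ Real.sin (48 / 41 - a) :=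
      Real.sin_le_sin_of_le_of_le_pi_div_two (by linarith) (by linarith) (by linarith)
    have h2 := sub_cube_le_sin (z := 48 / 41 - α2) (by linarith)
    linarith
  have hchord : mL * (Real.pi + (a + -(48 / 41))) ≤ 1 + Real.cos (a + -(48 / 41)) := by
    have e3 : a + -(48 / 41) = -(48 / 41 - a) := by ring
    obtain ⟨φ, hφ⟩ : ∃ φ : ℝ, φ = 48 / 41 - a := ⟨_, rfl⟩
    rw [e3, Real.cos_neg, ← hφ]
    have h2 := Real.one_sub_sq_div_two_le_cos (x := φ)
    have h3 : 0.37 ≤ φ := by rw [hφ]; linarith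
    have h4 : φ ≤ 1.1708 := by rw [hφ]; linarith
    have h5 : mL * (Real.pi + -φ) ≤ 0.66 * (Real.pi + -φ) := mul_le_mul_of_nonneg_right m1 (by linarith)
    have h6 : 0 ≤ (φ - 0.37) * (1.1708 - φ) := mul_nonneg (by linarith) (by linarith)
    linarith
  have hwv : 0.2634 * (v * w) ≤ 0.2634 * 1 := mul_le_mul_of_nonneg_left hv (by norm_num)
  have hL0 := left_tail (β := β) (r := r) (t := t) (X := a + -(48 / 41)) (v := y + 54 / 205) (m := mL)
    (S := σL * w) hβ hrp (by linarith) (by linarith) hsin hchord (by positivity)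
    (by
      rw [eE]
      have k1 : w * 0.7684 * mL ≤ w * Real.exp (-(54 / 205)) * mL :=
        mul_le_mul_of_nonneg_right (mul_le_mul_of_nonneg_left E1 hw0.le) m0
      have k2 : σL * w ≤ (0.7684 * mL + 0.2634 * v) * w := mul_le_mul_of_nonneg_right m3 hw0.le
      linarith)
  have hm : mg β r t (a + -(48 / 41)) (y + 54 / 205) ≤ Real.exp (x * (1 + y) / β) * XL := by
    rw [mg_rel h, ← hx]
    apply mul_le_mul_of_nonneg_left _ (Real.exp_pos _).le
    refine le_trans (Real.exp_le_exp.2 ?_) hX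
    have k1 := NN_L hx0.le hy0
    have k11 : NN x y (-(48 / 41)) (54 / 205) / β ≤ -((0.4372 * x + 0.4628 * y + 0.3083) / β) := by
      have e : -((0.4372 * x + 0.4628 * y + 0.3083) / β) = -(0.4372 * x + 0.4628 * y + 0.3083) / β := by ring
      rw [e]
      exact div_le_div_of_nonneg_right k1 hβ.le
    linarith
  have hsq : Real.sqrt (β / w) ≤ sE := by
    rw [Real.sqrt_le_left hsE0, hbd]
    refine le_trans ?_ hsE
    exact div_le_div₀ (by linarith [Real.exp_pos Y]) ((Real.exp_le_exp.2 hyY).trans n9) hr0 hr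
  have eD := sqrt_nD (x := x) (y := y) hβ hw0
  have hEE : Real.exp (-(x * (1 + y) / β)) * Real.exp (x * (1 + y) / β) = 1 := by
    rw [← Real.exp_add, neg_add_cancel, Real.exp_zero]
  have hXL0 : 0 ≤ XL := (Real.exp_pos _).le.trans hX
  have hK := Real.sqrt_nonneg (nD x y / (2 * Real.pi * β))
  have hKe := Real.exp_pos (-(x * (1 + y) / β))
  calc Real.sqrt (nD x y / (2 * Real.pi * β)) * Real.exp (-(x * (1 + y) / β)) *
      Hor β r t (-Real.pi) (a + -(48 / 41)) (y + 54 / 205)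
      ≤ Real.sqrt (nD x y / (2 * Real.pi * β)) * Real.exp (-(x * (1 + y) / β)) *
        ((Real.exp (x * (1 + y) / β) * XL) * (β / (σL * w))) := by
        apply mul_le_mul_of_nonneg_left _ (by positivity)
        refine hL0.trans ?_
        apply mul_le_mul_of_nonneg_right hm (by positivity)
    _ = (Real.exp (-(x * (1 + y) / β)) * Real.exp (x * (1 + y) / β)) *
        ((Real.sqrt (nD x y / (2 * Real.pi * β)) * (β / w)) * (XL / σL)) := by field_simp
    _ = Real.sqrt (nD x y / w) * (Real.sqrt (β / w) / Real.sqrt (2 * Real.pi)) * (XL / σL) := by rw [hEE, eD, one_mul]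
    _ ≤ sD * (sE / 2.5066) * (XL / σL) := by
        apply mul_le_mul_of_nonneg_right _ (by positivity)
        apply mul_le_mul hD _ (by positivity) ((Real.sqrt_nonneg _).trans hD)
        exact div_le_div₀ hsE0 hsq (by norm_num) sqrt_two_pi
    _ = _ := by ring

/-- numbers of the direction in the quadratic and cubic coefficients -/
theorem aq_T (x y : ℝ) : aq (40 / 41) (9 / 41) x y = 1519 / 1681 * x + 720 / 1681 * (1 + y) := by
  unfold aq; ring

theorem k3_T (x y : ℝ) : k3 (40 / 41) (9 / 41) x y = -(42471 / 68921) * x + 54280 / 68921 * y := by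
  unfold k3; ring

end Sok.N1
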