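import Mathlib
import Pool.Agent.Lib.MP_816dec_an.N1F

/-!
MP_816dec_an, row N1: right saddle, boxes: the central piece and the sum.
-/

set_option autoImplicit false

open Complex Set Filter Topology MeasureTheory

namespace Sok.N1

open Sok.Mid

theorem exp_p35_le {y z q g sg : ℝ} (hz : 0 ≤ z) (hq : Real.exp (2 / 7 * y) ≤ q) (h : q * z ≤ g) (hsg0 : 0 ≤ sg)
    (hsg : g ≤ sg ^ 2) : Real.exp y * p35 z ≤ g ^ 3 * sg := by
  have e1 : Real.exp y = p35 (Real.exp (2 / 7 * y)) := by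
    rw [exp_eq_p35 y]; congr 2; ring
  have hq0 : 0 ≤ q := (Real.exp_pos _).le.trans hq
  rw [e1]
  calc p35 (Real.exp (2 / 7 * y)) * p35 z ≤ p35 q * p35 z :=
        mul_le_mul_of_nonneg_right (p35_mono (Real.exp_pos _).le hq) (p35_nonneg hz)
    _ = p35 (q * z) := (p35_mul hq0).symm
    _ ≤ p35 g := p35_mono (by positivity) h
    _ ≤ g ^ 3 * sg := by
      unfold p35
      have hg : 0 ≤ g := (mul_nonneg hq0 hz).trans h
      apply mul_le_mul_of_nonneg_left _ (by positivity)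
      rw [Real.sqrt_le_left hsg0]; exact hsg

theorem exp_p25_le {y z q g sg : ℝ} (hz : 0 ≤ z) (hq : Real.exp (2 / 5 * y) ≤ q) (h : q * z ≤ g) (hsg0 : 0 ≤ sg)
    (hsg : g ≤ sg ^ 2) : Real.exp y * p25 z ≤ g ^ 2 * sg := by
  have e1 : Real.exp y = p25 (Real.exp (2 / 5 * y)) := by
    rw [exp_eq_p25 y]; congr 2; ring
  have hq0 : 0 ≤ q := (Real.exp_pos _).le.trans hq
  rw [e1]
  calc p25 (Real.exp (2 / 5 * y)) * p25 z ≤ p25 q * p25 z :=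
        mul_le_mul_of_nonneg_right (p25_mono (Real.exp_pos _).le hq) (p25_nonneg z)
    _ = p25 (q * z) := (p25_mul hq0).symm
    _ ≤ p25 g := p25_mono (by positivity) h
    _ ≤ g ^ 2 * sg := by
      unfold p25
      have hg : 0 ≤ g := (mul_nonneg hq0 hz).trans h
      apply mul_le_mul_of_nonneg_left _ (by positivity)
      rw [Real.sqrt_le_left hsg0]; exact hsg

/-- the lower bounds of the coefficients -/
theorem coef {x y w τ2 : ℝ} (hy0 : 0 ≤ y) (hτ : 0 ≤ τ2) (hw : 0 ≤ w) (hx1 : w - τ2 * y ≤ x) :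
    0.9036 * w + 0.4283 + (0.4283 - 0.9037 * τ2) * y ≤ aq (40 / 41) (9 / 41) x y ∧
    0.5371 * w + 0.4283 + (0.7433 - 0.6572 * τ2) * y ≤ aq (40 / 41) (9 / 41) x y -
      (-(k3 (40 / 41) (9 / 41) x y) * (6 / 5) / 3 + w * (6 / 5) ^ 2 / 12) ∧
    1.0233 * w + 0.4283 + (0.1132 - 1.1502 * τ2) * y ≤ aq (40 / 41) (9 / 41) x y -
      (k3 (40 / 41) (9 / 41) x y * (6 / 5) / 3 + 2 * 0.044 * w * (6 / 5) ^ 2) := by
  rw [aq_T, k3_T]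
  have hτy : 0 ≤ τ2 * y := mul_nonneg hτ hy0
  refine ⟨?_, ?_, ?_⟩
  · linarith
  · linarith
  · linarith

theorem central_num {β r t a y w1 v Y r0 s2 c2 τ2 EY k k4 gL gR g4 sgL sgR sg4 sD hA sA XA : ℝ}
    (h : Sad β r t a y) (hy0 : 0 ≤ y) (ha0 : 0 ≤ a) (ha2 : a < Real.pi / 2)
    (hw1 : w1 ≤ nS (a - t) y) (hv : v * nS (a - t) y ≤ 1) (hyY : y ≤ Y) (hr : r0 ≤ r)
    (n0 : 0 < w1) (n2 : 0 < Y) (n3 : Y ≤ s2 * w1) (n4 : c2 ^ 2 + s2 ^ 2 ≤ 1) (n5 : 0 ≤ c2)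
    (n6 : s2 ≤ τ2 * (1 + c2)) (hs2 : 0 ≤ s2)
    (n9 : Real.exp Y ≤ EY) (n10 : Real.exp (2 / 7 * Y) ≤ 1 + k * Y) (n11 : Real.exp (2 / 5 * Y) ≤ 1 + k4 * Y)
    (hr0 : 0 < r0) (hD : Real.sqrt (nD (a - t) y / nS (a - t) y) ≤ sD)
    (q0 : 0 ≤ 0.4283 + (0.4283 - 0.9037 * τ2) * Y) (q1 : 0 ≤ 0.4283 + (0.7433 - 0.6572 * τ2) * Y)
    (q2 : 0 ≤ 0.4283 + (0.1132 - 1.1502 * τ2) * Y)
    (l1 : 1 ≤ gL * (0.9036 + 0.4283 * v)) (l2 : 1 + k * Y ≤ gL * (0.9036 + (0.4283 + (0.4283 - 0.9037 * τ2) * Y) * v))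
    (l3 : 1 ≤ gL * (0.5371 + 0.4283 * v)) (l4 : 1 + k * Y ≤ gL * (0.5371 + (0.4283 + (0.7433 - 0.6572 * τ2) * Y) * v))
    (r1 : 1 ≤ gR * (0.9036 + 0.4283 * v)) (r2 : 1 + k * Y ≤ gR * (0.9036 + (0.4283 + (0.4283 - 0.9037 * τ2) * Y) * v))
    (r3 : 1 ≤ gR * (1.0233 + 0.4283 * v)) (r4 : 1 + k * Y ≤ gR * (1.0233 + (0.4283 + (0.1132 - 1.1502 * τ2) * Y) * v))
    (f1 : 1 ≤ g4 * (0.9036 + 0.4283 * v)) (f2 : 1 + k4 * Y ≤ g4 * (0.9036 + (0.4283 + (0.4283 - 0.9037 * τ2) * Y) * v))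
    (gL0 : 0 ≤ gL) (gR0 : 0 ≤ gR) (g40 : 0 ≤ g4) (tL : gL ≤ sgL ^ 2) (tR : gR ≤ sgR ^ 2) (t4 : g4 ≤ sg4 ^ 2)
    (tL0 : 0 ≤ sgL) (tR0 : 0 ≤ sgR) (t40 : 0 ≤ sg4)
    (p0 : 0 < hA) (p1 : hA ≤ 0.9036 + 0.4283 * v) (p2 : hA * EY ≤ 0.9036 + 0.4283 * v + (0.4283 - 0.9037 * τ2) * v * Y)
    (hX : Real.exp (-(0.72 * (r0 * hA))) ≤ XA) (sA0 : 0 < sA) (hsA : sA ^ 2 ≤ r0 * hA) :
    ∃ uL uR : ℝ, 0 < uL ∧ 0 < uR ∧ uL ≤ aq (40 / 41) (9 / 41) (a - t) y ∧ uR ≤ aq (40 / 41) (9 / 41) (a - t) y ∧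
      uL ≤ aq (40 / 41) (9 / 41) (a - t) y -
        (-(k3 (40 / 41) (9 / 41) (a - t) y) * (6 / 5) / 3 + nS (a - t) y * (6 / 5) ^ 2 / 12) ∧
      uR ≤ aq (40 / 41) (9 / 41) (a - t) y -
        (k3 (40 / 41) (9 / 41) (a - t) y * (6 / 5) / 3 + 2 * 0.044 * nS (a - t) y * (6 / 5) ^ 2) ∧
      0 < aq (40 / 41) (9 / 41) (a - t) y ∧
      epsC β (40 / 41) (9 / 41) (a - t) y (6 / 5) 0.1783 0.044 (uL / aq (40 / 41) (9 / 41) (a - t) y)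
        (uR / aq (40 / 41) (9 / 41) (a - t) y) ≤
      sD * ((5 / 48 * (gL ^ 3 * sgL) + 15 / 4 * 0.1783 ^ 2 * (gR ^ 3 * sgR) + 3 / 2 * (1 / 24 + 0.044) * (g4 ^ 2 * sg4)) / r0 +
        1.0521 * (2 * XA / (2.5066 * sA * (6 / 5)))) := by
  have hβ := h.hβ
  have hrp := h.hr
  have hw0 : 0 < nS (a - t) y := n0.trans_le hw1
  have hys : y ≤ s2 * nS (a - t) y := by
    have : s2 * w1 ≤ s2 * nS (a - t) y := mul_le_mul_of_nonneg_left hw1 hs2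
    linarith
  obtain ⟨hx1, hx2, hx3, hx0⟩ := x_ge h hy0 ha0 ha2 hys n4 n5 hs2 n6
  have hτ : 0 ≤ τ2 := by
    by_contra hn
    push Not at hn
    have : τ2 * (1 + c2) < 0 := mul_neg_of_neg_of_pos hn (by linarith)
    linarith
  obtain ⟨c1, cL, cR⟩ := coef hy0 hτ hw0.le hx1
  have hexpo := expo_ge (A := 0.9036) (B := 0.4283) (Γ := 0.4283 - 0.9037 * τ2)
    h hy0 hyY hr hv hw0 n2 n9 p0.le p1 p2 (by norm_num) q0 c1
  have hbd := beta_div h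
  obtain ⟨x, hx⟩ : ∃ x : ℝ, x = a - t := ⟨_, rfl⟩
  obtain ⟨w, hwd⟩ : ∃ w : ℝ, w = nS x y := ⟨_, rfl⟩
  rw [← hx] at hw1 hv hD hx3 hx0 hw0 hexpo hbd c1 cL cR ⊢
  rw [← hwd] at hw1 hv hD hx3 hw0 hbd c1 cL cR ⊢
  obtain ⟨A0, hA0d⟩ : ∃ A0 : ℝ, A0 = aq (40 / 41) (9 / 41) x y := ⟨_, rfl⟩
  obtain ⟨NL, hNL⟩ : ∃ NL : ℝ, NL = -(k3 (40 / 41) (9 / 41) x y) * (6 / 5) / 3 + w * (6 / 5) ^ 2 / 12 := ⟨_, rfl⟩
  obtain ⟨NR, hNR⟩ : ∃ NR : ℝ, NR = k3 (40 / 41) (9 / 41) x y * (6 / 5) / 3 + 2 * 0.044 * w * (6 / 5) ^ 2 := ⟨_, rfl⟩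
  rw [← hA0d] at hexpo c1 cL cR
  rw [← hNL] at cL
  rw [← hNR] at cR
  have hk := exp_chord n2 n10 hy0 hyY
  have hk4 := exp_chord n2 n11 hy0 hyY
  have B1 := gbd (g := gL) n2 gL0 hw0 hv (by norm_num) q0 l1 l2 hy0 hyY
  have B2 := gbd (g := gL) n2 gL0 hw0 hv (by norm_num) q1 l3 l4 hy0 hyY
  have B3 := gbd (g := gR) n2 gR0 hw0 hv (by norm_num) q0 r1 r2 hy0 hyY
  have B4 := gbd (g := gR) n2 gR0 hw0 hv (by norm_num) q2 r3 r4 hy0 hyY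
  have B5 := gbd (g := g4) n2 g40 hw0 hv (by norm_num) q0 f1 f2 hy0 hyY
  have hmin : ∀ {B Γ : ℝ}, 0 ≤ B → 0 ≤ B + Γ * Y → 0 ≤ B + Γ * y := by
    intro B Γ hB hBΓ
    have hb0 : (0:ℝ) ≤ y / Y := by positivity
    have ha0 : (0:ℝ) ≤ 1 - y / Y := by rw [sub_nonneg, div_le_one n2]; exact hyY
    have e : B + Γ * y = (1 - y / Y) * B + y / Y * (B + Γ * Y) := by field_simp; ring
    rw [e]
    exact add_nonneg (mul_nonneg ha0 hB) (mul_nonneg hb0 hBΓ)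
  have z0 := hmin (by norm_num) q0
  have z1 := hmin (by norm_num) q1
  have z2 := hmin (by norm_num) q2
  have hA0w : 0.9036 * w ≤ A0 := by linarith
  have hA0p : 0 < A0 := by linarith
  have hLp : 0 < A0 - NL := by linarith
  have hRp : 0 < A0 - NR := by linarith
  obtain ⟨uL, huL⟩ : ∃ uL : ℝ, uL = min A0 (A0 - NL) := ⟨_, rfl⟩
  obtain ⟨uR, huR⟩ : ∃ uR : ℝ, uR = min A0 (A0 - NR) := ⟨_, rfl⟩
  have huLp : 0 < uL := by rw [huL]; exact lt_min hA0p hLp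
  have huRp : 0 < uR := by rw [huR]; exact lt_min hA0p hRp
  have GL : w * (1 + k * y) ≤ gL * uL := by
    rw [huL, mul_min_of_nonneg _ _ gL0]
    exact le_min (B1.trans (mul_le_mul_of_nonneg_left c1 gL0)) (B2.trans (mul_le_mul_of_nonneg_left cL gL0))
  have GR : w * (1 + k * y) ≤ gR * uR := by
    rw [huR, mul_min_of_nonneg _ _ gR0]
    exact le_min (B3.trans (mul_le_mul_of_nonneg_left c1 gR0)) (B4.trans (mul_le_mul_of_nonneg_left cR gR0))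
  have G4 : w * (1 + k4 * y) ≤ g4 * A0 := B5.trans (mul_le_mul_of_nonneg_left c1 g40)
  rw [← hA0d, ← hNL, ← hNR]
  refine ⟨uL, uR, huLp, huRp, ?_, ?_, ?_, ?_, hA0p, ?_⟩
  · rw [huL]; exact min_le_left _ _
  · rw [huR]; exact min_le_left _ _
  · rw [huL]; exact min_le_right _ _
  · rw [huR]; exact min_le_right _ _
  have E1 : Real.exp y * p35 (w / uL) ≤ gL ^ 3 * sgL :=
    exp_p35_le (by positivity) hk (by rw [← mul_div_assoc, div_le_iff₀ huLp]; linarith) tL0 tL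
  have E2 : Real.exp y * p35 (w / uR) ≤ gR ^ 3 * sgR :=
    exp_p35_le (by positivity) hk (by rw [← mul_div_assoc, div_le_iff₀ huRp]; linarith) tR0 tR
  have E3 : Real.exp y * p25 (w / A0) ≤ g4 ^ 2 * sg4 :=
    exp_p25_le (by positivity) hk4 (by rw [← mul_div_assoc, div_le_iff₀ hA0p]; linarith) t40 t4
  have heq := epsC_eq (β := β) (c := 40 / 41) (s := 9 / 41) (x := x) (y := y) (T := 6 / 5) (φ3 := 0.1783) (φ4 := 0.044)
    (uL := uL) (uR := uR) (w := w) hβ hw0 hwd.symm (by rw [← hA0d]; exact hA0p) huLp huRp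
  rw [← hA0d] at heq
  rw [heq, hbd]
  have hXA0 : 0 ≤ XA := (Real.exp_pos _).le.trans hX
  have hsD0 : 0 ≤ sD := (Real.sqrt_nonneg _).trans hD
  have P1 : Real.exp y / r * (5 / 48 * p35 (w / uL) + 15 / 4 * 0.1783 ^ 2 * p35 (w / uR) +
      3 / 2 * (1 / 24 + 0.044) * p25 (w / A0)) ≤
      (5 / 48 * (gL ^ 3 * sgL) + 15 / 4 * 0.1783 ^ 2 * (gR ^ 3 * sgR) + 3 / 2 * (1 / 24 + 0.044) * (g4 ^ 2 * sg4)) / r0 := by
    have e : Real.exp y / r * (5 / 48 * p35 (w / uL) + 15 / 4 * 0.1783 ^ 2 * p35 (w / uR) +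
      3 / 2 * (1 / 24 + 0.044) * p25 (w / A0)) =
      (5 / 48 * (Real.exp y * p35 (w / uL)) + 15 / 4 * 0.1783 ^ 2 * (Real.exp y * p35 (w / uR)) +
      3 / 2 * (1 / 24 + 0.044) * (Real.exp y * p25 (w / A0))) / r := by ring
    rw [e]
    have j1 : 0 ≤ gL ^ 3 * sgL := by positivity
    have j2 : 0 ≤ gR ^ 3 * sgR := by positivity
    have j3 : 0 ≤ g4 ^ 2 * sg4 := by positivity
    refine div_le_div₀ (by positivity) ?_ hr0 hr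
    linarith
  have P2 : Real.sqrt (w / A0) * (2 * Real.exp (-((A0 / β) / 2) * (6 / 5) ^ 2) / (Real.sqrt (2 * Real.pi * (A0 / β)) * (6 / 5))) ≤
      1.0521 * (2 * XA / (2.5066 * sA * (6 / 5))) := by
    have j1 : Real.sqrt (w / A0) ≤ 1.0521 := by
      rw [Real.sqrt_le_left (by norm_num), div_le_iff₀ hA0p]
      linarith
    have j2 : Real.exp (-((A0 / β) / 2) * (6 / 5) ^ 2) ≤ XA := by
      refine le_trans (Real.exp_le_exp.2 ?_) hX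
      linarith
    have hAb : 0 < A0 / β := by positivity
    have j3 : 2.5066 * sA ≤ Real.sqrt (2 * Real.pi * (A0 / β)) := by
      rw [Real.sqrt_mul (by positivity)]
      apply mul_le_mul sqrt_two_pi _ sA0.le (Real.sqrt_nonneg _)
      exact Real.le_sqrt_of_sq_le (hsA.trans hexpo)
    apply mul_le_mul j1 _ (by positivity) (by norm_num)
    exact div_le_div₀ (by positivity) (by linarith) (by positivity) (by linarith)
  apply mul_le_mul hD (add_le_add P1 P2) _ hsD0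
  have := p35_nonneg (z := w / uL) (by positivity)
  have := p35_nonneg (z := w / uR) (by positivity)
  have := p25_nonneg (w / A0)
  positivity

end Sok.N1
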