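import Mathlib
import Pool.Agent.Lib.MP_816dec_an.N1G

/-!
MP_816dec_an, row N1: right saddle, boxes: the leg at `-π`, the sum, the region.
-/

set_option autoImplicit false

open Complex Set Filter Topology MeasureTheory

namespace Sok.N1

open Sok.Mid

/-- the leg at `-π` -/
theorem leg_num {β r t a y v Y r0 c2 EY hG XG sR0 sD : ℝ}
    (h : Sad β r t a y) (hy0 : 0 ≤ y) (ha0 : 0 ≤ a)
    (hv : v * nS (a - t) y ≤ 1) (hyY : y ≤ Y) (hr : r0 ≤ r) (hr10 : 10 ≤ r0) (hw0 : 0 < nS (a - t) y)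
    (n2 : 0 < Y) (hx2 : c2 * nS (a - t) y ≤ a - t) (n5 : 0 ≤ c2)
    (n9 : Real.exp Y ≤ EY) (hEY : EY ≤ 3) (hD : Real.sqrt (nD (a - t) y / nS (a - t) y) ≤ sD)
    (p0 : 1 / 20 ≤ hG)
    (hA : -Real.pi < t → (hG ≤ c2 ∧ hG * EY ≤ c2 + c2 * Y ∧ t + Real.pi ≤ Real.exp 1 * (β * r)) ∨
      (hG ≤ 3.14 * v ∧ hG * EY ≤ 3.14 * v + c2 * Y ∧ t + Real.pi ≤ β * r))
    (hB : t ≤ -Real.pi → hG * EY ≤ 0.7365 * c2 + 0.7684)
    (hX : Real.exp (-(r0 * hG)) ≤ XG) (hs0 : r0 ≤ sR0 ^ 2) (hs00 : 0 ≤ sR0) :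
    Real.sqrt (nD (a - t) y / (2 * Real.pi * β)) * Real.exp (-((a - t) * (1 + y) / β)) *
        Leg β r t (-Real.pi) (y + 9 / 41 * (6 / 5)) ≤ sD * (sR0 / 2.5066 * ((Y + 1.72) * XG)) := by
  have hβ := h.hβ
  have hrp := h.hr
  have hpi := Real.pi_pos
  have hpi3 := Real.pi_gt_d2
  have e2 : y + 9 / 41 * (6 / 5) = y + 54 / 205 := by norm_num
  rw [e2]
  have hwe := sad_w h
  obtain ⟨x, hx⟩ : ∃ x : ℝ, x = a - t := ⟨_, rfl⟩
  obtain ⟨w, hwd⟩ : ∃ w : ℝ, w = nS x y := ⟨_, rfl⟩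
  have hbd := beta_div h
  rw [← hx] at hv hw0 hx2 hD hwe hbd ⊢
  rw [← hwd] at hv hw0 hx2 hD hwe hbd
  have ht : t = a - x := by rw [hx]; ring
  have hx0 : 0 ≤ x := (mul_nonneg n5 hw0.le).trans hx2
  have hκ : β * r = w * Real.exp y := by
    rw [← hwe]
    have : Real.exp (-y) * Real.exp y = 1 := by rw [← Real.exp_add, neg_add_cancel, Real.exp_zero]
    linear_combination (-(β * r)) * this
  have hr1 : 10 ≤ r := hr10.trans hr
  have hEyp := Real.exp_pos y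
  have hEy : Real.exp y ≤ EY := (Real.exp_le_exp.2 hyY).trans n9
  have hG0 : 0 ≤ hG := by linarith
  -- main claim
  have key : Leg β r t (-Real.pi) (y + 54 / 205) ≤
      Real.exp (x * (1 + y) / β) * ((Y + 1.72) * Real.exp (-(r * hG))) := by
    rcases lt_or_ge (-Real.pi) t with hc | hc
    · have hcos : Real.cos (-Real.pi) = -1 := by rw [Real.cos_neg, Real.cos_pi]
      have hm0 : 0 < t - -Real.pi := by linarith
      have hκ0 : 0 < β * r := by positivity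
      have hkey : t + Real.pi ≤ Real.exp 1 * (β * r) ∧ hG * (β * r) ≤
          x * (1 + y) + (t - -Real.pi) * (1 - Real.log ((t - -Real.pi) / (β * r))) := by
        rcases hA hc with ⟨a1, a2, a3⟩ | ⟨a1, a2, a3⟩
        · refine ⟨a3, ?_⟩
          have j1 := lin_ge_exp (C := c2) (D := c2) n2 n9 hG0 a1 a2 hy0 hyY
          have j2 : Real.log ((t - -Real.pi) / (β * r)) ≤ 1 := by
            rw [Real.log_le_iff_le_exp (by positivity), div_le_iff₀ hκ0]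
            linarith
          have j3 : 0 ≤ (t - -Real.pi) * (1 - Real.log ((t - -Real.pi) / (β * r))) := mul_nonneg hm0.le (by linarith)
          have j4 : hG * (β * r) ≤ (c2 + c2 * y) * w := by
            rw [hκ]
            have := mul_le_mul_of_nonneg_right j1 hw0.le
            linarith
          have j5 : c2 * w * (1 + y) ≤ x * (1 + y) := mul_le_mul_of_nonneg_right hx2 (by linarith)
          linarith
        · have he : (1:ℝ) ≤ Real.exp 1 := by linarith [Real.add_one_le_exp (1:ℝ)]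
          refine ⟨by nlinarith, ?_⟩
          have j1 := lin_ge_exp (C := 3.14 * v) (D := c2) n2 n9 hG0 a1 a2 hy0 hyY
          have j2 : Real.log ((t - -Real.pi) / (β * r)) ≤ 0 := by
            apply Real.log_nonpos (by positivity)
            rw [div_le_one hκ0]; linarith
          have j3 : (t - -Real.pi) * 1 ≤ (t - -Real.pi) * (1 - Real.log ((t - -Real.pi) / (β * r))) :=
            mul_le_mul_of_nonneg_left (by linarith) hm0.le
          have j4 : hG * (β * r) ≤ (3.14 * v + c2 * y) * w := by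
            rw [hκ]
            have := mul_le_mul_of_nonneg_right j1 hw0.le
            linarith
          have j5 : c2 * w * y ≤ x * y := mul_le_mul_of_nonneg_right hx2 hy0
          have j6 : 3.14 * (v * w) ≤ 3.14 * 1 := mul_le_mul_of_nonneg_left hv (by norm_num)
          linarith
      obtain ⟨k1, k2⟩ := hkey
      have hleg := Leg_le_mid (β := β) (r := r) (t := t) (S := -Real.pi) (v := y + 54 / 205) hβ hrp hcos hc
        (by linarith) (by linarith)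
      refine hleg.trans ?_
      have k3 : 1 / r + (y + 54 / 205 + 4 / 3) ≤ Y + 1.72 := by
        have : 1 / r ≤ 1 / 10 := one_div_le_one_div_of_le (by norm_num) hr1
        linarith
      have k4 : Real.exp ((t - -Real.pi) / β * (Real.log ((t - -Real.pi) / (β * r)) - 1)) ≤
          Real.exp (x * (1 + y) / β) * Real.exp (-(r * hG)) := by
        rw [← Real.exp_add]
        apply Real.exp_le_exp.2
        have k5 : (t - -Real.pi) / β * (Real.log ((t - -Real.pi) / (β * r)) - 1) =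
            -((t - -Real.pi) * (1 - Real.log ((t - -Real.pi) / (β * r)))) / β := by ring
        have k6 : x * (1 + y) / β + -(r * hG) = (x * (1 + y) - hG * (β * r)) / β := by field_simp; ring
        rw [k5, k6]
        exact div_le_div_of_nonneg_right (by linarith) hβ.le
      calc _ ≤ (Y + 1.72) * (Real.exp (x * (1 + y) / β) * Real.exp (-(r * hG))) := by
            apply mul_le_mul k3 k4 (Real.exp_pos _).le (by linarith)
        _ = _ := by ring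
    · have hcos : Real.cos (-Real.pi) = -1 := by rw [Real.cos_neg, Real.cos_pi]
      obtain ⟨E1, E2⟩ := exp_Tn
      have eE : β * r * Real.exp (-(y + 54 / 205)) = w * Real.exp (-(54 / 205)) := by
        rw [← hwe]
        have : -(y + 54 / 205) = -y + -(54 / 205) := by ring
        rw [this, Real.exp_add]; ring
      have hδe : (-Real.pi - t) / β - r * Real.cos (-Real.pi) * Real.exp (-(y + 54 / 205)) =
          (-Real.pi - t + w * Real.exp (-(54 / 205))) / β := by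
        rw [hcos, ← eE]
        field_simp
        ring
      have hδ1 : 0.7684 * w / β ≤ (-Real.pi - t + w * Real.exp (-(54 / 205))) / β := by
        apply div_le_div_of_nonneg_right _ hβ.le
        have := mul_le_mul_of_nonneg_left E1 hw0.le
        linarith
      have hd0 : 0 < 0.7684 * w / β := by positivity
      have hleg := Leg_le (β := β) (r := r) (t := t) (S := -Real.pi) (v := y + 54 / 205) hrp.le
        (by rw [hcos]; norm_num) (by rw [hδe]; exact hd0.trans_le hδ1)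
      rw [hδe] at hleg
      refine hleg.trans ?_
      have k1 : mg β r t (-Real.pi) (y + 54 / 205) ≤ Real.exp (x * (1 + y) / β) * Real.exp (-(r * hG)) := by
        unfold mg
        rw [← Real.exp_add]
        apply Real.exp_le_exp.2
        have k6 : x * (1 + y) / β + -(r * hG) = (x * (1 + y) - hG * (β * r)) / β := by field_simp; ring
        have k7 : (-Real.pi - t) * (y + 54 / 205) / β + r * Real.cos (-Real.pi) * Real.exp (-(y + 54 / 205)) =
            ((-Real.pi - t) * (y + 54 / 205) - w * Real.exp (-(54 / 205))) / β := by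
          rw [hcos, ← eE]
          field_simp
          ring
        rw [k6, k7]
        apply div_le_div_of_nonneg_right _ hβ.le
        rw [hκ, ht]
        have j1 := hB hc
        have j2 : hG * (w * Real.exp y) ≤ (0.7365 * c2 + 0.7684) * w := by
          have : hG * Real.exp y ≤ hG * EY := mul_le_mul_of_nonneg_left hEy hG0
          have := mul_le_mul_of_nonneg_right (this.trans j1) hw0.le
          linarith
        have j3 := mul_le_mul_of_nonneg_left E1 hw0.le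
        have j4 : 0 ≤ (Real.pi + a) * (y + 54 / 205) := by positivity
        linarith
      have k2 : 1 / (0.7684 * w / β) ≤ Y + 1.72 := by
        have e : 1 / (0.7684 * w / β) = (β / w) / 0.7684 := by field_simp
        rw [e, hbd, div_le_iff₀ (by norm_num), div_le_iff₀ hrp]
        nlinarith
      calc mg β r t (-Real.pi) (y + 54 / 205) / ((-Real.pi - t + w * Real.exp (-(54 / 205))) / β)
          ≤ (Real.exp (x * (1 + y) / β) * Real.exp (-(r * hG))) / (0.7684 * w / β) :=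
            div_le_div₀ (by positivity) k1 hd0 hδ1
        _ = (Real.exp (x * (1 + y) / β) * Real.exp (-(r * hG))) * (1 / (0.7684 * w / β)) := by ring
        _ ≤ (Real.exp (x * (1 + y) / β) * Real.exp (-(r * hG))) * (Y + 1.72) :=
            mul_le_mul_of_nonneg_left k2 (by positivity)
        _ = _ := by ring
  -- the factor
  have hEE : Real.exp (-(x * (1 + y) / β)) * Real.exp (x * (1 + y) / β) = 1 := by
    rw [← Real.exp_add, neg_add_cancel, Real.exp_zero]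
  have hnD : 0 ≤ nD x y := by unfold nD; positivity
  have eK : Real.sqrt (nD x y / (2 * Real.pi * β)) ≤ sD * (Real.sqrt r / 2.5066) := by
    have e : nD x y / (2 * Real.pi * β) = (nD x y / w) * ((w / β) / (2 * Real.pi)) := by field_simp
    have ee : Real.sqrt ((w / β) / (2 * Real.pi)) = Real.sqrt (w / β) / Real.sqrt (2 * Real.pi) :=
      Real.sqrt_div (by positivity) _
    rw [e, Real.sqrt_mul (by positivity), ee]
    apply mul_le_mul hD _ (by positivity) ((Real.sqrt_nonneg _).trans hD)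
    apply div_le_div₀ (Real.sqrt_nonneg _) _ (by norm_num) sqrt_two_pi
    apply Real.sqrt_le_sqrt
    have e3 : w / β = r / Real.exp y := by
      rw [div_eq_div_iff hβ.ne' hEyp.ne']
      linarith
    rw [e3, div_le_iff₀ hEyp]
    have := Real.one_le_exp hy0
    nlinarith
  have hmono : Real.sqrt r * Real.exp (-(r * hG)) ≤ sR0 * XG := by
    have j1 := sqrt_mul_exp_le (k := hG) (x := r0) (y := r) (by linarith) (by linarith) (by nlinarith) hr
    have e4 : -(r * hG) = -(hG * r) := by ring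
    have e5 : -(hG * r0) = -(r0 * hG) := by ring
    rw [e4]
    refine j1.trans ?_
    rw [e5]
    have j2 : Real.sqrt r0 ≤ sR0 := by rw [Real.sqrt_le_left hs00]; exact hs0
    exact mul_le_mul j2 hX (Real.exp_pos _).le hs00
  have hKe := Real.exp_pos (-(x * (1 + y) / β))
  have hsD0 : 0 ≤ sD := (Real.sqrt_nonneg _).trans hD
  calc Real.sqrt (nD x y / (2 * Real.pi * β)) * Real.exp (-(x * (1 + y) / β)) * Leg β r t (-Real.pi) (y + 54 / 205)
      ≤ (sD * (Real.sqrt r / 2.5066)) * Real.exp (-(x * (1 + y) / β)) *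
        (Real.exp (x * (1 + y) / β) * ((Y + 1.72) * Real.exp (-(r * hG)))) := by
        apply mul_le_mul (mul_le_mul_of_nonneg_right eK hKe.le) key (Leg_nonneg _ _ _ _ _) (by positivity)
    _ = (Real.exp (-(x * (1 + y) / β)) * Real.exp (x * (1 + y) / β)) *
        (sD * ((Real.sqrt r * Real.exp (-(r * hG))) / 2.5066 * (Y + 1.72))) := by ring
    _ = sD * ((Real.sqrt r * Real.exp (-(r * hG))) / 2.5066 * (Y + 1.72)) := by rw [hEE, one_mul]
    _ ≤ sD * ((sR0 * XG) / 2.5066 * (Y + 1.72)) := by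
        apply mul_le_mul_of_nonneg_left _ hsD0
        apply mul_le_mul_of_nonneg_right _ (by linarith)
        exact div_le_div_of_nonneg_right hmono (by norm_num)
    _ = _ := by ring


theorem nS_sq (x y : ℝ) : nS x y ^ 2 = x ^ 2 + y ^ 2 := by
  unfold nS; exact Real.sq_sqrt (by positivity)

theorem sD_of {x y w1 Y sD : ℝ} (hw1 : w1 ≤ nS x y) (n0 : 0 < w1) (hy : y ≤ Y) (hY : 0 < Y) (hs : 0 ≤ sD)
    (h : w1 ^ 2 + (2 * Y + 1) ≤ sD ^ 4 * w1 ^ 2) : Real.sqrt (nD x y / nS x y) ≤ sD := by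
  have hw0 : 0 < nS x y := n0.trans_le hw1
  rw [Real.sqrt_le_left hs, div_le_iff₀ hw0]
  unfold nD
  rw [Real.sqrt_le_left (by positivity)]
  have h1 := nS_sq x y
  have h2 : w1 ^ 2 ≤ nS x y ^ 2 := pow_le_pow_left₀ n0.le hw1 2
  have e : (sD ^ 2 * nS x y) ^ 2 = sD ^ 4 * nS x y ^ 2 := by ring
  rw [e]
  have h3 : 2 * Y + 1 ≤ (sD ^ 4 - 1) * w1 ^ 2 := by linarith
  have h4 : 0 < sD ^ 4 - 1 := by
    by_contra hn
    push Not at hn
    have : (sD ^ 4 - 1) * w1 ^ 2 ≤ 0 := mul_nonpos_of_nonpos_of_nonneg hn (by positivity)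
    linarith
  have h5 : (sD ^ 4 - 1) * w1 ^ 2 ≤ (sD ^ 4 - 1) * nS x y ^ 2 := mul_le_mul_of_nonneg_left h2 h4.le
  linarith

/-- **the estimate on a box** -/
theorem boxR {β r t a y w1 v Y r0 s2 c2 τ2 α2 EY k k4 gL gR g4 sgL sgR sg4 sD hA sA XA hR mR σR XR hL mL σL XL sE hG XG sR0
      tgt : ℝ}
    (h : Sad β r t a y) (hy0 : 0 ≤ y) (ha0 : 0 ≤ a) (ha2 : a < Real.pi / 2)
    (hw1 : w1 ≤ nS (a - t) y) (hv : v * nS (a - t) y ≤ 1) (hyY : y ≤ Y) (hr : r0 ≤ r) (hr10 : 10 ≤ r0)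
    (hLA : -Real.pi < t → (hG ≤ c2 ∧ hG * EY ≤ c2 + c2 * Y ∧ t + Real.pi ≤ Real.exp 1 * (β * r)) ∨
      (hG ≤ 3.14 * v ∧ hG * EY ≤ 3.14 * v + c2 * Y ∧ t + Real.pi ≤ β * r))
    (hLB : t ≤ -Real.pi → hG * EY ≤ 0.7365 * c2 + 0.7684)
    (n0 : 0 < w1) (n1 : 0 ≤ v) (n2 : 0 < Y) (n3 : Y ≤ s2 * w1) (n4 : c2 ^ 2 + s2 ^ 2 ≤ 1) (n5 : 0 ≤ c2)
    (n6 : s2 ≤ τ2 * (1 + c2)) (hs2 : 0 ≤ s2) (n7 : s2 ≤ α2 - α2 ^ 3 / 6) (n8 : 0 ≤ α2) (n8' : α2 ≤ 0.8)
    (n9 : Real.exp Y ≤ EY) (hEY : EY ≤ 3) (n10 : Real.exp (2 / 7 * Y) ≤ 1 + k * Y) (n11 : Real.exp (2 / 5 * Y) ≤ 1 + k4 * Y)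
    (d0 : 0 ≤ sD) (d1 : w1 ^ 2 + (2 * Y + 1) ≤ sD ^ 4 * w1 ^ 2)
    (q0 : 0 ≤ 0.4283 + (0.4283 - 0.9037 * τ2) * Y) (q1 : 0 ≤ 0.4283 + (0.7433 - 0.6572 * τ2) * Y)
    (q2 : 0 ≤ 0.4283 + (0.1132 - 1.1502 * τ2) * Y)
    (l1 : 1 ≤ gL * (0.9036 + 0.4283 * v)) (l2 : 1 + k * Y ≤ gL * (0.9036 + (0.4283 + (0.4283 - 0.9037 * τ2) * Y) * v))
    (l3 : 1 ≤ gL * (0.5371 + 0.4283 * v)) (l4 : 1 + k * Y ≤ gL * (0.5371 + (0.4283 + (0.7433 - 0.6572 * τ2) * Y) * v))
    (r1 : 1 ≤ gR * (0.9036 + 0.4283 * v)) (r2 : 1 + k * Y ≤ gR * (0.9036 + (0.4283 + (0.4283 - 0.9037 * τ2) * Y) * v))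
    (r3 : 1 ≤ gR * (1.0233 + 0.4283 * v)) (r4 : 1 + k * Y ≤ gR * (1.0233 + (0.4283 + (0.1132 - 1.1502 * τ2) * Y) * v))
    (f1 : 1 ≤ g4 * (0.9036 + 0.4283 * v)) (f2 : 1 + k4 * Y ≤ g4 * (0.9036 + (0.4283 + (0.4283 - 0.9037 * τ2) * Y) * v))
    (gL0 : 0 ≤ gL) (gR0 : 0 ≤ gR) (g40 : 0 ≤ g4) (tL : gL ≤ sgL ^ 2) (tR : gR ≤ sgR ^ 2) (t4 : g4 ≤ sg4 ^ 2)
    (tL0 : 0 ≤ sgL) (tR0 : 0 ≤ sgR) (t40 : 0 ≤ sg4)
    (pA0 : 0 < hA) (pA1 : hA ≤ 0.9036 + 0.4283 * v)
    (pA2 : hA * EY ≤ 0.9036 + 0.4283 * v + (0.4283 - 0.9037 * τ2) * v * Y)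
    (hXA : Real.exp (-(0.72 * (r0 * hA))) ≤ XA) (sA0 : 0 < sA) (hsA : sA ^ 2 ≤ r0 * hA)
    (hsE : EY / r0 ≤ sE ^ 2) (hsE0 : 0 ≤ sE)
    (mR1 : mR ≤ 0.9) (mR0 : 0 ≤ mR)
    (mR2 : mR ≤ (0.98 - α2 / 2) - (0.98 - α2 / 2) ^ 3 / 3 + (0.98 - α2 / 2) ^ 5 / 36)
    (mR3 : σR ≤ 1.3013 * mR - s2 + 0.2634 * v) (mR4 : 0 < σR)
    (pR0 : 0 ≤ hR) (pR1 : hR ≤ 0.7564 + 0.3083 * v)
    (pR2 : hR * EY ≤ 0.7564 + 0.3083 * v + (0.0275 - 0.7564 * τ2) * v * Y)
    (pR3 : 0 ≤ 0.3083 + (0.0275 - 0.7564 * τ2) * Y) (hXR : Real.exp (-(r0 * hR)) ≤ XR)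
    (mL1 : mL ≤ 0.66) (mL0 : 0 ≤ mL) (mL2 : mL ≤ (48 / 41 - α2) - (48 / 41 - α2) ^ 3 / 6)
    (mL3 : σL ≤ 0.7684 * mL + 0.2634 * v) (mL4 : 0 < σL)
    (pL0 : 0 ≤ hL) (pL1 : hL ≤ 0.4372 + 0.3083 * v)
    (pL2 : hL * EY ≤ 0.4372 + 0.3083 * v + (0.4628 - 0.4372 * τ2) * v * Y)
    (pL3 : 0 ≤ 0.3083 + (0.4628 - 0.4372 * τ2) * Y) (hXL : Real.exp (-(r0 * hL)) ≤ XL)
    (pG0 : 1 / 20 ≤ hG) (hXG : Real.exp (-(r0 * hG)) ≤ XG) (hs0 : r0 ≤ sR0 ^ 2) (hs00 : 0 ≤ sR0)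
    (fin : sD * ((5 / 48 * (gL ^ 3 * sgL) + 15 / 4 * 0.1783 ^ 2 * (gR ^ 3 * sgR) + 3 / 2 * (1 / 24 + 0.044) * (g4 ^ 2 * sg4)) / r0 +
        1.0521 * (2 * XA / (2.5066 * sA * (6 / 5))) + sE / 2.5066 * (XR / σR) + sE / 2.5066 * (XL / σL) +
        sR0 / 2.5066 * ((Y + 1.72) * XG)) ≤ tgt) :
    |‖AA β r t‖ * Real.sqrt (nD (a - t) y) * Real.exp (-((a - t) * (1 + y) / β)) - 1| ≤ tgt := by
  have hpi3 := Real.pi_gt_d2
  have hw0 : 0 < nS (a - t) y := n0.trans_le hw1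
  have hr0 : 0 < r0 := by linarith
  have hD := sD_of hw1 n0 hyY n2 d0 d1
  obtain ⟨haα, hys⟩ := angle_le h ha2 hw1 hyY n0 n3 hs2 n7 n8
  obtain ⟨hx1, hx2, hx3, hx0⟩ := x_ge h hy0 ha0 ha2 hys n4 n5 hs2 n6
  obtain ⟨uL, uR, hL0, hR0, b1, b2, b3, b4, hq, hcen⟩ := central_num h hy0 ha0 ha2 hw1 hv hyY hr n0 n2 n3 n4 n5 n6 hs2
    n9 n10 n11 hr0 hD q0 q1 q2 l1 l2 l3 l4 r1 r2 r3 r4 f1 f2 gL0 gR0 g40 tL tR t4 tL0 tR0 t40 pA0 pA1 pA2 hXA sA0 hsA
  have hRn := right_num h hy0 ha0 ha2 hw1 hv hyY hr n0 n1 n2 n3 n4 n5 n6 n7 n8 n8' n9 hr0 hD hsE hsE0 mR1 mR0 mR2 mR3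
    mR4 pR0 pR1 pR2 pR3 hXR
  have hLn := left_num h hy0 ha0 ha2 hw1 hv hyY hr n0 n2 n3 n4 n5 n6 n7 n8 n8' n9 hr0 hD hsE hsE0 mL1 mL0 mL2 mL3
    mL4 pL0 pL1 pL2 pL3 hXL
  have hGn := leg_num h hy0 ha0 hv hyY hr hr10 hw0 n2 hx2 n5 n9 hEY hD pG0 hLA hLB hXG hs0 hs00
  have hval := value (c := 40 / 41) (s := 9 / 41) (T := 6 / 5) (φ3 := 0.1783) (φ4 := 0.044)
    (cL := uL / aq (40 / 41) (9 / 41) (a - t) y) (cR := uR / aq (40 / 41) (9 / 41) (a - t) y) h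
    (by norm_num) (by norm_num) (by linarith) (by linarith) (by linarith) (by norm_num) hq phB_T
    (by norm_num) (div_pos hL0 hq) ((div_le_one hq).2 b1) (div_pos hR0 hq) ((div_le_one hq).2 b2)
    (by
      have e : (1 - uL / aq (40 / 41) (9 / 41) (a - t) y) * aq (40 / 41) (9 / 41) (a - t) y =
          aq (40 / 41) (9 / 41) (a - t) y - uL := by field_simp
      rw [e]
      linarith)
    (by
      have e : (1 - uR / aq (40 / 41) (9 / 41) (a - t) y) * aq (40 / 41) (9 / 41) (a - t) y =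
          aq (40 / 41) (9 / 41) (a - t) y - uR := by field_simp
      rw [e]
      linarith)
  refine hval.trans (le_trans ?_ fin)
  unfold Tail
  have e1 : Real.sqrt (nD (a - t) y / (2 * Real.pi * β)) * Real.exp (-((a - t) * (1 + y) / β)) *
      (Leg β r t (-Real.pi) (y + 9 / 41 * (6 / 5)) + Hor β r t (-Real.pi) (a - 40 / 41 * (6 / 5)) (y + 9 / 41 * (6 / 5)) +
        Hor β r t (a + 40 / 41 * (6 / 5)) Real.pi (y - 9 / 41 * (6 / 5)) + Leg β r t Real.pi (y - 9 / 41 * (6 / 5))) =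
      Real.sqrt (nD (a - t) y / (2 * Real.pi * β)) * Real.exp (-((a - t) * (1 + y) / β)) *
        Leg β r t (-Real.pi) (y + 9 / 41 * (6 / 5)) +
      Real.sqrt (nD (a - t) y / (2 * Real.pi * β)) * Real.exp (-((a - t) * (1 + y) / β)) *
        Hor β r t (-Real.pi) (a - 40 / 41 * (6 / 5)) (y + 9 / 41 * (6 / 5)) +
      Real.sqrt (nD (a - t) y / (2 * Real.pi * β)) * Real.exp (-((a - t) * (1 + y) / β)) *
        (Hor β r t (a + 40 / 41 * (6 / 5)) Real.pi (y - 9 / 41 * (6 / 5)) + Leg β r t Real.pi (y - 9 / 41 * (6 / 5))) := by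
    ring
  rw [e1]
  linarith

end Sok.N1
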