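import Mathlib
import Pool.Agent.Lib.MP_816dec_an.N1H

/-!
MP_816dec_an, row N1: the region `-κ ≤ t ≤ -κ + τ` in terms of `w = |σ|` and `y`; numeric helpers.
-/

set_option autoImplicit false

open Complex Set Filter Topology MeasureTheory

namespace Sok.N1

open Sok.Mid

/-- upper bound of `exp` -/
theorem exp_le_of {x E : ℝ} (n : ℕ) (hn : 0 < n) (hx : 0 ≤ x) (hx2 : x ≤ 2)
    (h : (∑ m ∈ Finset.range n, (x / 2) ^ m / (m.factorial : ℝ) + (x / 2) ^ n * (n + 1) / (n.factorial * n)) ^ 2 ≤ E) :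
    Real.exp x ≤ E := by
  have h1 := Real.exp_bound' (x := x / 2) (by linarith) (by linarith) hn
  have h2 : Real.exp x = Real.exp (x / 2) ^ 2 := by rw [← Real.exp_nat_mul]; congr 1; push_cast; ring
  rw [h2]
  exact (pow_le_pow_left₀ (Real.exp_pos _).le h1 2).trans h

/-- upper bound of `exp (-x)` -/
theorem exp_neg_le_pow {x c : ℝ} (m n : ℕ) (hm : 0 < m) (hx : 0 ≤ x) (hc : 0 < c)
    (h : 1 ≤ c * (∑ k ∈ Finset.range n, (x / m) ^ k / (k.factorial : ℝ)) ^ m) : Real.exp (-x) ≤ c := by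
  have hm' : (0:ℝ) < m := by exact_mod_cast hm
  have h1 := Real.sum_le_exp_of_nonneg (x := x / m) (by positivity) n
  have h0 : 0 ≤ ∑ k ∈ Finset.range n, (x / m) ^ k / (k.factorial : ℝ) :=
    Finset.sum_nonneg (fun k _ => by positivity)
  have h2 := pow_le_pow_left₀ h0 h1 m
  have h3 : Real.exp (x / m) ^ m = Real.exp x := by
    rw [← Real.exp_nat_mul]; congr 1; field_simp
  rw [h3] at h2
  have h4 : Real.exp (-x) * Real.exp x = 1 := by rw [← Real.exp_add, neg_add_cancel, Real.exp_zero]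
  have h5 : Real.exp (-x) * Real.exp x ≤ c * Real.exp x := by
    rw [h4]; exact h.trans (mul_le_mul_of_nonneg_left h2 hc.le)
  exact le_of_mul_le_mul_right h5 (Real.exp_pos x)

theorem exp_ge_four {y : ℝ} (hy : 0 ≤ y) : 1 + y + y ^ 2 / 2 + y ^ 3 / 6 + y ^ 4 / 24 ≤ Real.exp y := by
  have h := Real.sum_le_exp_of_nonneg hy 5
  refine le_trans (le_of_eq ?_) h
  norm_num [Finset.sum_range_succ, Nat.factorial]

/-- `a ≥ s + s³/6`, `s = sin a` -/
theorem angle_ge {a : ℝ} (h0 : 0 ≤ a) : Real.sin a + Real.sin a ^ 3 / 6 ≤ a := by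
  have h1 : ∀ u : ℝ, HasDerivAt (fun u : ℝ => u - (Real.sin u + Real.sin u ^ 3 / 6))
      (1 - (Real.cos u + 3 * Real.sin u ^ 2 * Real.cos u / 6)) u := by
    intro u
    have h3 := ((Real.hasDerivAt_sin u).pow 3).div_const 6
    have h4 := (hasDerivAt_id u).sub ((Real.hasDerivAt_sin u).add h3)
    refine h4.congr_deriv ?_
    norm_num
  have h4 : MonotoneOn (fun u : ℝ => u - (Real.sin u + Real.sin u ^ 3 / 6)) (Ici 0) := by
    refine monotoneOn_of_hasDerivWithinAt_nonneg (convex_Ici 0) (fun u _ => (h1 u).continuousAt.continuousWithinAt)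
      (f' := fun u => 1 - (Real.cos u + 3 * Real.sin u ^ 2 * Real.cos u / 6))
      (fun u _ => (h1 u).hasDerivWithinAt) (fun u _ => ?_)
    have e := Real.sin_sq_add_cos_sq u
    have h5 := Real.cos_le_one u
    have h6 := Real.neg_one_le_cos u
    have e2 : Real.sin u ^ 2 = 1 - Real.cos u ^ 2 := by linarith
    rw [e2]
    generalize Real.cos u = c at h5 h6
    nlinarith [mul_nonneg (by linarith : (0:ℝ) ≤ 1 - c) (mul_nonneg (by linarith : (0:ℝ) ≤ 1 - c) (by linarith : (0:ℝ) ≤ 2 + c))]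
  have h5 := h4 (mem_Ici.2 le_rfl) (mem_Ici.2 h0) h0
  simp only [Real.sin_zero] at h5
  norm_num at h5
  linarith

/-- `cos a ≤ 1 - s²/2 - s⁴/8`, `s = sin a` -/
theorem cos_le_sin {a : ℝ} (h0 : 0 ≤ a) (h2 : a ≤ Real.pi / 2) :
    Real.cos a ≤ 1 - Real.sin a ^ 2 / 2 - Real.sin a ^ 4 / 8 := by
  have hc : 0 ≤ Real.cos a := Real.cos_nonneg_of_mem_Icc ⟨by linarith [Real.pi_pos], h2⟩
  have e := Real.sin_sq_add_cos_sq a
  have hs1 : Real.sin a ^ 2 ≤ 1 := by nlinarith [sq_nonneg (Real.cos a)]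
  have hs0 : 0 ≤ Real.sin a ^ 2 := sq_nonneg _
  have e4 : Real.sin a ^ 4 = (Real.sin a ^ 2) ^ 2 := by ring
  rw [e4]
  generalize Real.sin a ^ 2 = q at e hs1 hs0
  refine le_of_sq_le_sq ?_ ?_
  · have e5 : Real.cos a ^ 2 = 1 - q := by linarith
    rw [e5]
    have e6 : (1 - q / 2 - q ^ 2 / 8) ^ 2 = 1 - q + (q ^ 3 / 8 + q ^ 4 / 64) := by ring
    rw [e6]
    have : 0 ≤ q ^ 3 / 8 + q ^ 4 / 64 := by positivity
    linarith
  · nlinarith

/-- the angle in terms of `w`, `y` -/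
theorem tau_ge {β r t a y u : ℝ} (h : Sad β r t a y) (hy0 : 0 ≤ y) (ha0 : 0 ≤ a) (ha2 : a < Real.pi / 2)
    (hu : u * nS (a - t) y = 1) :
    (y + y ^ 2 / 2) * (nS (a - t) y + u) + (y ^ 3 / 6 + y ^ 4 / 24) * nS (a - t) y +
      (y ^ 3 / 6 + y ^ 4 / 8) * u ^ 3 ≤ t + β * r := by
  have hwe := sad_w h
  have h2 := h.hc
  have h3 := h.hs
  have hw0 : 0 < β * r * Real.exp (-y) := mul_pos (mul_pos h.hβ h.hr) (Real.exp_pos _)
  have hκ : β * r = nS (a - t) y * Real.exp y := by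
    rw [← hwe]
    have : Real.exp (-y) * Real.exp y = 1 := by rw [← Real.exp_add, neg_add_cancel, Real.exp_zero]
    linear_combination (-(β * r)) * this
  rw [hwe] at h2 h3 hw0
  rw [hκ]
  generalize nS (a - t) y = w at h2 h3 hw0 hu ⊢
  have hs : Real.sin a = y * u := by
    have : u * (w * Real.sin a) = u * y := by rw [h3]
    linear_combination this - Real.sin a * hu
  have k1 := angle_ge ha0
  have k2 := mul_le_mul_of_nonneg_left (cos_le_sin ha0 ha2.le) hw0.le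
  have k3 := mul_le_mul_of_nonneg_left (exp_ge_four hy0) hw0.le
  rw [hs] at k1 k2
  rw [h2] at k2
  have e1 : w * (1 - (y * u) ^ 2 / 2 - (y * u) ^ 4 / 8) = w - y ^ 2 * u / 2 - y ^ 4 * u ^ 3 / 8 := by
    linear_combination (-(y ^ 2 * u / 2) - y ^ 4 * u ^ 3 / 8) * hu
  rw [e1] at k2
  have e2 : y * u + (y * u) ^ 3 / 6 = y * u + y ^ 3 * u ^ 3 / 6 := by ring
  rw [e2] at k1
  linarith

/-- upper bound of `y` -/
theorem y_le {β r t a y w1 v m τb Y : ℝ} (h : Sad β r t a y) (hy0 : 0 ≤ y) (ha0 : 0 ≤ a) (ha2 : a < Real.pi / 2)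
    (hτ : t + β * r ≤ τb) (hw1 : w1 ≤ nS (a - t) y) (n0 : 0 < w1) (hv : v * nS (a - t) y ≤ 1) (hv0 : 0 ≤ v)
    (hY : 0 < Y) (hm0 : 0 ≤ m) (hm : ∀ w : ℝ, w1 ≤ w → m * w ≤ w ^ 2 + 1)
    (hb : τb < (Y + Y ^ 2 / 2) * m + (Y ^ 3 / 6 + Y ^ 4 / 24) * w1 + (Y ^ 3 / 6 + Y ^ 4 / 8) * v ^ 3) : y ≤ Y := by
  by_contra hcon
  push Not at hcon
  have hw0 : 0 < nS (a - t) y := n0.trans_le hw1
  obtain ⟨u, hu⟩ : ∃ u : ℝ, u * nS (a - t) y = 1 := ⟨(nS (a - t) y)⁻¹, inv_mul_cancel₀ hw0.ne'⟩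
  have h1 := tau_ge h hy0 ha0 ha2 hu
  have h2 := hm _ hw1
  generalize nS (a - t) y = w at hw1 hv hw0 hu h1 h2
  have hu0 : 0 < u := by
    by_contra hn
    push Not at hn
    have : u * w ≤ 0 := mul_nonpos_of_nonpos_of_nonneg hn hw0.le
    linarith
  have hvu : v ≤ u := by
    have : v * w ≤ u * w := by rw [hu]; exact hv
    exact le_of_mul_le_mul_right this hw0
  have hmu : m ≤ w + u := by
    have e : (w + u) * w = w ^ 2 + 1 := by linear_combination hu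
    exact le_of_mul_le_mul_right (by rw [e]; exact h2) hw0
  have p2 : Y ^ 2 ≤ y ^ 2 := pow_le_pow_left₀ hY.le hcon.le 2
  have p3 : Y ^ 3 ≤ y ^ 3 := pow_le_pow_left₀ hY.le hcon.le 3
  have p4 : Y ^ 4 ≤ y ^ 4 := pow_le_pow_left₀ hY.le hcon.le 4
  have pv : v ^ 3 ≤ u ^ 3 := pow_le_pow_left₀ hv0 hvu 3
  have q1 : (Y + Y ^ 2 / 2) * m ≤ (y + y ^ 2 / 2) * (w + u) :=
    mul_le_mul (by linarith) hmu hm0 (by positivity)
  have q2 : (Y ^ 3 / 6 + Y ^ 4 / 24) * w1 ≤ (y ^ 3 / 6 + y ^ 4 / 24) * w :=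
    mul_le_mul (by linarith) hw1 n0.le (by positivity)
  have q3 : (Y ^ 3 / 6 + Y ^ 4 / 8) * v ^ 3 ≤ (y ^ 3 / 6 + y ^ 4 / 8) * u ^ 3 :=
    mul_le_mul (by linarith) pv (by positivity) (by positivity)
  linarith

/-- lower bound of `w` -/
theorem w_ge {β r t a y w1 y1 a1 x1 k1 τb : ℝ} (h : Sad β r t a y) (ha0 : 0 ≤ a) (ha2 : a < Real.pi / 2)
    (hk : k1 ≤ β * r) (hτ : t + β * r ≤ τb) (n0 : 0 < w1) (ny : 0 ≤ y1) (na : 0 ≤ a1) (na2 : a1 ≤ 1)
    (c1 : w1 * Real.exp y1 ≤ k1) (c2 : w1 * Real.sin a1 ≤ y1) (c3 : w1 ^ 2 ≤ x1 ^ 2 + y1 ^ 2) (c4 : 0 ≤ x1)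
    (c5 : τb < k1 - x1 + a1) : w1 ≤ nS (a - t) y := by
  by_contra hcon
  push Not at hcon
  have hwe := sad_w h
  have h2 := h.hc
  have h3 := h.hs
  have hw0 : 0 < β * r * Real.exp (-y) := mul_pos (mul_pos h.hβ h.hr) (Real.exp_pos _)
  rw [hwe] at h2 h3 hw0
  have hy1 : y1 < y := by
    by_contra hn
    push Not at hn
    have e1 : β * r * Real.exp (-y1) ≤ β * r * Real.exp (-y) :=
      mul_le_mul_of_nonneg_left (Real.exp_le_exp.2 (by linarith)) (mul_pos h.hβ h.hr).le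
    rw [hwe] at e1
    have e2 : k1 * Real.exp (-y1) ≤ β * r * Real.exp (-y1) := mul_le_mul_of_nonneg_right hk (Real.exp_pos _).le
    have e3 : w1 * Real.exp y1 * Real.exp (-y1) ≤ k1 * Real.exp (-y1) := mul_le_mul_of_nonneg_right c1 (Real.exp_pos _).le
    rw [mul_assoc, ← Real.exp_add, add_neg_cancel, Real.exp_zero, mul_one] at e3
    linarith
  have hx2 : (a - t) ^ 2 = nS (a - t) y ^ 2 - y ^ 2 := by rw [nS_sq]; ring
  have hxl : a - t ≤ x1 := by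
    apply le_of_sq_le_sq _ c4
    rw [hx2]
    have q1 : nS (a - t) y ^ 2 ≤ w1 ^ 2 := pow_le_pow_left₀ hw0.le hcon.le 2
    have q2 : y1 ^ 2 ≤ y ^ 2 := pow_le_pow_left₀ ny hy1.le 2
    linarith
  have ha1 : a1 ≤ a := by
    by_contra hn
    push Not at hn
    have q1 : Real.sin a ≤ Real.sin a1 := Real.sin_le_sin_of_le_of_le_pi_div_two (by linarith [Real.pi_pos])
      (by linarith [Real.pi_gt_d2]) hn.le
    have q0 : 0 ≤ Real.sin a := Real.sin_nonneg_of_nonneg_of_le_pi ha0 (by linarith [Real.pi_pos])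
    have q2 : nS (a - t) y * Real.sin a ≤ w1 * Real.sin a1 := mul_le_mul hcon.le q1 q0 n0.le
    linarith
  linarith

/-- `t ≤ -π` is impossible for small `w` -/
theorem no_leg {t a y w2 : ℝ} {P : Prop} (ha0 : 0 ≤ a) (hw2 : nS (a - t) y ≤ w2) (h : w2 ≤ 3.14) : t ≤ -Real.pi → P := by
  intro ht
  exfalso
  have h1 := Real.pi_gt_d2
  have h2 := nS_sq (a - t) y
  have h3 : a - t ≤ nS (a - t) y := by
    apply le_of_sq_le_sq _ (by unfold nS; positivity)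
    rw [h2]; nlinarith [sq_nonneg y]
  linarith

theorem sin_le_five {z : ℝ} (hz : 0 ≤ z) : Real.sin z ≤ z - z ^ 3 / 6 + z ^ 5 / 120 := by
  have h1 : ∀ u : ℝ, HasDerivAt (fun u : ℝ => (u - u ^ 3 / 6 + u ^ 5 / 120) - Real.sin u)
      ((1 - u ^ 2 / 2 + u ^ 4 / 24) - Real.cos u) u := by
    intro u
    have h2 : HasDerivAt (fun u : ℝ => u ^ 3 / 6) (u ^ 2 / 2) u := by
      refine ((hasDerivAt_pow 3 u).div_const 6).congr_deriv ?_
      push_cast; ring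
    have h3 : HasDerivAt (fun u : ℝ => u ^ 5 / 120) (u ^ 4 / 24) u := by
      refine ((hasDerivAt_pow 5 u).div_const 120).congr_deriv ?_
      push_cast; ring
    exact (((hasDerivAt_id u).sub h2).add h3).sub (Real.hasDerivAt_sin u)
  have h2 : ∀ u : ℝ, 0 ≤ u → Real.cos u ≤ 1 - u ^ 2 / 2 + u ^ 4 / 24 := by
    intro u hu
    have h3 : ∀ u : ℝ, HasDerivAt (fun u : ℝ => (1 - u ^ 2 / 2 + u ^ 4 / 24) - Real.cos u)
        (Real.sin u - (u - u ^ 3 / 6)) u := by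
      intro u
      have h4 : HasDerivAt (fun u : ℝ => u ^ 2 / 2) u u := by
        refine ((hasDerivAt_pow 2 u).div_const 2).congr_deriv ?_
        push_cast; ring
      have h5 : HasDerivAt (fun u : ℝ => u ^ 4 / 24) (u ^ 3 / 6) u := by
        refine ((hasDerivAt_pow 4 u).div_const 24).congr_deriv ?_
        push_cast; ring
      refine (((h4.const_sub 1).add h5).sub (Real.hasDerivAt_cos u)).congr_deriv ?_
      ring
    have h4 : MonotoneOn (fun u : ℝ => (1 - u ^ 2 / 2 + u ^ 4 / 24) - Real.cos u) (Ici 0) := by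
      refine monotoneOn_of_hasDerivWithinAt_nonneg (convex_Ici 0) (fun u _ => (h3 u).continuousAt.continuousWithinAt)
        (f' := fun u => Real.sin u - (u - u ^ 3 / 6)) (fun u _ => (h3 u).hasDerivWithinAt) (fun u hu => ?_)
      rw [interior_Ici, mem_Ioi] at hu
      have := sub_cube_le_sin hu.le
      linarith
    have h5 := h4 (mem_Ici.2 le_rfl) (mem_Ici.2 hu) hu
    simp only [Real.cos_zero] at h5
    norm_num at h5
    linarith
  have h4 : MonotoneOn (fun u : ℝ => (u - u ^ 3 / 6 + u ^ 5 / 120) - Real.sin u) (Ici 0) := by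
    refine monotoneOn_of_hasDerivWithinAt_nonneg (convex_Ici 0) (fun u _ => (h1 u).continuousAt.continuousWithinAt)
      (f' := fun u => (1 - u ^ 2 / 2 + u ^ 4 / 24) - Real.cos u) (fun u _ => (h1 u).hasDerivWithinAt) (fun u hu => ?_)
    rw [interior_Ici, mem_Ioi] at hu
    have := h2 u hu.le
    linarith
  have h5 := h4 (mem_Ici.2 le_rfl) (mem_Ici.2 hz) hz
  simp only [Real.sin_zero] at h5
  norm_num at h5
  linarith

/-- `w ≤ κ`, hence a lower bound of `r` -/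
theorem r_ge {β r t a y w1 r0 c : ℝ} (h : Sad β r t a y) (hy0 : 0 ≤ y) (hw1 : w1 ≤ nS (a - t) y) (n0 : 0 < w1)
    (hc : 0 ≤ c) (hr : c * (1 + (β * r) ^ 2) ≤ r) (h0 : r0 ≤ c * (1 + w1 ^ 2)) : r0 ≤ r := by
  have hwe := sad_w h
  have h1 : nS (a - t) y ≤ β * r := by
    rw [← hwe]
    have : Real.exp (-y) ≤ 1 := by rw [Real.exp_le_one_iff]; linarith
    have h2 := mul_pos h.hβ h.hr
    nlinarith
  have h2 : w1 ^ 2 ≤ (β * r) ^ 2 := pow_le_pow_left₀ n0.le (hw1.trans h1) 2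
  have h3 : c * (1 + w1 ^ 2) ≤ c * (1 + (β * r) ^ 2) := mul_le_mul_of_nonneg_left (by linarith) hc
  linarith

end Sok.N1
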