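import Mathlib
import Pool.Agent.Lib.MP_816dec_an.N1I

/-!
MP_816dec_an, row N1: right saddle, boxes of `b = 1` (generated numbers).
-/

set_option autoImplicit false

open Complex Set Filter Topology MeasureTheory

namespace Sok.N1

open Sok.Mid

theorem legA1 {β r t k1 τb : ℝ} (hk : k1 ≤ β * r) (hτ : t + β * r ≤ τb) (h0 : 0 ≤ k1) (hn : τb + 3.15 ≤ 3.7 * k1) :
    t + Real.pi ≤ Real.exp 1 * (β * r) := by
  have h1 := Real.exp_one_gt_d9
  have h2 := Real.pi_lt_d2
  have h3 : 2.7 * (β * r) ≤ Real.exp 1 * (β * r) := mul_le_mul_of_nonneg_right (by linarith) (by linarith)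
  linarith

theorem legA2 {β r t k1 τb : ℝ} (hk : k1 ≤ β * r) (hτ : t + β * r ≤ τb) (hn : τb + 3.15 ≤ 2 * k1) :
    t + Real.pi ≤ β * r := by
  have h2 := Real.pi_lt_d2
  linarith

private theorem b1_0 {β r t a y : ℝ} (h : Sad β r t a y) (hy0 : 0 ≤ y) (ha0 : 0 ≤ a) (ha2 : a < Real.pi / 2)
    (hk : 4.7 ≤ β * r) (hτ : t + β * r ≤ 3.8956) (hr10 : 10 ≤ r)
    (hw1 : 1.72 ≤ nS (a - t) y) (hw2 : nS (a - t) y ≤ 2.2) :
    |‖AA β r t‖ * Real.sqrt (nD (a - t) y) * Real.exp (-((a - t) * (1 + y) / β)) - 1| ≤ 0.2 := by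
  have hv : (0.4545 : ℝ) * nS (a - t) y ≤ 1 := by linarith
  have hY : y ≤ 1.01 := y_le (m := 2.3013) h hy0 ha0 ha2 hτ hw1 (by norm_num) hv (by norm_num) (by norm_num)
    (by norm_num) (by intro w hw; nlinarith [sq_nonneg (w - 1), sq_nonneg (w - 1.72)]) (by norm_num)
  have hr0 : (10 : ℝ) ≤ r := hr10
  exact boxR (w1 := 1.72) (v := 0.4545) (Y := 1.01) (r0 := 10) (s2 := 0.5873) (c2 := 0.8093) (τ2 := 0.3247)
    (α2 := 0.6289) (EY := 2.7457) (k := 0.3313) (k4 := 0.4929) (gL := 1.3689) (gR := 1.215) (g4 := 1.2911)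
    (sgL := 1.1701) (sgR := 1.1023) (sg4 := 1.1363) (sD := 1.1923) (hA := 0.4225) (sA := 2.0554) (XA := 0.04775)
    (hR := 0.29) (mR := 0.5709) (σR := 0.2753) (XR := 0.05503) (hL := 0.2639) (mL := 0.5153) (σL := 0.5156)
    (XL := 0.07144) (sE := 0.524) (hG := 0.8174) (XG := 0.000282) (sR0 := 3.1623) (tgt := 0.2)
    h hy0 ha0 ha2 hw1 hv hY hr0 (by norm_num)
    (fun _ => Or.inr ⟨by norm_num, by norm_num, legA2 hk hτ (by norm_num)⟩)
    (no_leg ha0 hw2 (by norm_num))
    (by norm_num) (by norm_num) (by norm_num) (by norm_num) (by norm_num) (by norm_num) (by norm_num) (by norm_num) (by norm_num) (by norm_num) (by norm_num)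
    (exp_le_of 6 (by norm_num) (by norm_num) (by norm_num) (by norm_num [Finset.sum_range_succ, Nat.factorial])) (by norm_num)
    (exp_le_of 4 (by norm_num) (by norm_num) (by norm_num) (by norm_num [Finset.sum_range_succ, Nat.factorial]))
    (exp_le_of 5 (by norm_num) (by norm_num) (by norm_num) (by norm_num [Finset.sum_range_succ, Nat.factorial]))
    (by norm_num) (by norm_num)
    (by norm_num) (by norm_num) (by norm_num)
    (by norm_num) (by norm_num) (by norm_num) (by norm_num)
    (by norm_num) (by norm_num) (by norm_num) (by norm_num)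
    (by norm_num) (by norm_num)
    (by norm_num) (by norm_num) (by norm_num) (by norm_num) (by norm_num) (by norm_num) (by norm_num) (by norm_num) (by norm_num)
    (by norm_num) (by norm_num) (by norm_num)
    (exp_neg_le_pow 2 10 (by norm_num) (by norm_num) (by norm_num) (by norm_num [Finset.sum_range_succ, Nat.factorial])) (by norm_num) (by norm_num)
    (by norm_num) (by norm_num)
    (by norm_num) (by norm_num) (by norm_num) (by norm_num) (by norm_num)
    (by norm_num) (by norm_num) (by norm_num) (by norm_num) (exp_neg_le_pow 2 10 (by norm_num) (by norm_num) (by norm_num) (by norm_num [Finset.sum_range_succ, Nat.factorial]))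
    (by norm_num) (by norm_num) (by norm_num) (by norm_num) (by norm_num)
    (by norm_num) (by norm_num) (by norm_num) (by norm_num) (exp_neg_le_pow 2 10 (by norm_num) (by norm_num) (by norm_num) (by norm_num [Finset.sum_range_succ, Nat.factorial]))
    (by norm_num) (exp_neg_le_pow 4 10 (by norm_num) (by norm_num) (by norm_num) (by norm_num [Finset.sum_range_succ, Nat.factorial])) (by norm_num) (by norm_num)
    (by norm_num)

private theorem b1_1 {β r t a y : ℝ} (h : Sad β r t a y) (hy0 : 0 ≤ y) (ha0 : 0 ≤ a) (ha2 : a < Real.pi / 2)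
    (hk : 4.7 ≤ β * r) (hτ : t + β * r ≤ 3.8956) (hr10 : 10 ≤ r)
    (hw1 : 2.2 ≤ nS (a - t) y) (hw2 : nS (a - t) y ≤ 3.67) :
    |‖AA β r t‖ * Real.sqrt (nD (a - t) y) * Real.exp (-((a - t) * (1 + y) / β)) - 1| ≤ 0.2 := by
  have hv : (0.2724 : ℝ) * nS (a - t) y ≤ 1 := by linarith
  have hY : y ≤ 0.916 := y_le (m := 2.6545) h hy0 ha0 ha2 hτ hw1 (by norm_num) hv (by norm_num) (by norm_num)
    (by norm_num) (by intro w hw; nlinarith [sq_nonneg (w - 1), sq_nonneg (w - 2.2)]) (by norm_num)
  have hr0 : (10 : ℝ) ≤ r := hr10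
  exact boxR (w1 := 2.2) (v := 0.2724) (Y := 0.916) (r0 := 10) (s2 := 0.4164) (c2 := 0.9091) (τ2 := 0.2182)
    (α2 := 0.4298) (EY := 2.4993) (k := 0.3266) (k4 := 0.4832) (gL := 1.617) (gR := 1.2053) (g4 := 1.3384)
    (sgL := 1.2717) (sgR := 1.0979) (sg4 := 1.1569) (sD := 1.1221) (hA := 0.4312) (sA := 2.0765) (XA := 0.04485)
    (hR := 0.3225) (mR := 0.623) (σR := 0.466) (XR := 0.03976) (hL := 0.2452) (mL := 0.66) (σL := 0.5788)
    (XL := 0.08613) (sE := 0.5) (hG := 0.5753) (XG := 0.00318) (sR0 := 3.1623) (tgt := 0.2)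
    h hy0 ha0 ha2 hw1 hv hY hr0 (by norm_num)
    (fun _ => Or.inl ⟨by norm_num, by norm_num, legA1 hk hτ (by norm_num) (by norm_num)⟩)
    (fun _ => by norm_num)
    (by norm_num) (by norm_num) (by norm_num) (by norm_num) (by norm_num) (by norm_num) (by norm_num) (by norm_num) (by norm_num) (by norm_num) (by norm_num)
    (exp_le_of 6 (by norm_num) (by norm_num) (by norm_num) (by norm_num [Finset.sum_range_succ, Nat.factorial])) (by norm_num)
    (exp_le_of 4 (by norm_num) (by norm_num) (by norm_num) (by norm_num [Finset.sum_range_succ, Nat.factorial]))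
    (exp_le_of 4 (by norm_num) (by norm_num) (by norm_num) (by norm_num [Finset.sum_range_succ, Nat.factorial]))
    (by norm_num) (by norm_num)
    (by norm_num) (by norm_num) (by norm_num)
    (by norm_num) (by norm_num) (by norm_num) (by norm_num)
    (by norm_num) (by norm_num) (by norm_num) (by norm_num)
    (by norm_num) (by norm_num)
    (by norm_num) (by norm_num) (by norm_num) (by norm_num) (by norm_num) (by norm_num) (by norm_num) (by norm_num) (by norm_num)
    (by norm_num) (by norm_num) (by norm_num)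
    (exp_neg_le_pow 2 10 (by norm_num) (by norm_num) (by norm_num) (by norm_num [Finset.sum_range_succ, Nat.factorial])) (by norm_num) (by norm_num)
    (by norm_num) (by norm_num)
    (by norm_num) (by norm_num) (by norm_num) (by norm_num) (by norm_num)
    (by norm_num) (by norm_num) (by norm_num) (by norm_num) (exp_neg_le_pow 2 10 (by norm_num) (by norm_num) (by norm_num) (by norm_num [Finset.sum_range_succ, Nat.factorial]))
    (by norm_num) (by norm_num) (by norm_num) (by norm_num) (by norm_num)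
    (by norm_num) (by norm_num) (by norm_num) (by norm_num) (exp_neg_le_pow 2 8 (by norm_num) (by norm_num) (by norm_num) (by norm_num [Finset.sum_range_succ, Nat.factorial]))
    (by norm_num) (exp_neg_le_pow 2 10 (by norm_num) (by norm_num) (by norm_num) (by norm_num [Finset.sum_range_succ, Nat.factorial])) (by norm_num) (by norm_num)
    (by norm_num)

private theorem b1_2 {β r t a y : ℝ} (h : Sad β r t a y) (hy0 : 0 ≤ y) (ha0 : 0 ≤ a) (ha2 : a < Real.pi / 2)
    (hk : 4.7 ≤ β * r) (hτ : t + β * r ≤ 3.8956) (hr10 : 10 ≤ r)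
    (hw1 : 3.67 ≤ nS (a - t) y) (hw2 : nS (a - t) y ≤ 8.53) :
    |‖AA β r t‖ * Real.sqrt (nD (a - t) y) * Real.exp (-((a - t) * (1 + y) / β)) - 1| ≤ 0.2 := by
  have hv : (0.1172 : ℝ) * nS (a - t) y ≤ 1 := by linarith
  have hY : y ≤ 0.691 := y_le (m := 3.9424) h hy0 ha0 ha2 hτ hw1 (by norm_num) hv (by norm_num) (by norm_num)
    (by norm_num) (by intro w hw; nlinarith [sq_nonneg (w - 1), sq_nonneg (w - 3.67)]) (by norm_num)
  have hr0 : (10 : ℝ) ≤ r := hr10
  exact boxR (w1 := 3.67) (v := 0.1172) (Y := 0.691) (r0 := 10) (s2 := 0.1883) (c2 := 0.9821) (τ2 := 0.0951)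
    (α2 := 0.1896) (EY := 1.9958) (k := 0.3159) (k4 := 0.4608) (gL := 1.8964) (gR := 1.2413) (g4 := 1.3433)
    (sgL := 1.3771) (sgR := 1.1142) (sg4 := 1.1591) (sD := 1.0416) (hA := 0.4917) (sA := 2.2174) (XA := 0.02901)
    (hR := 0.3952) (mR := 0.669) (σR := 0.7131) (XR := 0.01922) (hL := 0.2542) (mL := 0.66) (σL := 0.538)
    (XL := 0.07872) (sE := 0.4468) (hG := 0.7474) (XG := 0.000568) (sR0 := 3.1623) (tgt := 0.2)
    h hy0 ha0 ha2 hw1 hv hY hr0 (by norm_num)
    (fun _ => Or.inl ⟨by norm_num, by norm_num, legA1 hk hτ (by norm_num) (by norm_num)⟩)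
    (fun _ => by norm_num)
    (by norm_num) (by norm_num) (by norm_num) (by norm_num) (by norm_num) (by norm_num) (by norm_num) (by norm_num) (by norm_num) (by norm_num) (by norm_num)
    (exp_le_of 5 (by norm_num) (by norm_num) (by norm_num) (by norm_num [Finset.sum_range_succ, Nat.factorial])) (by norm_num)
    (exp_le_of 4 (by norm_num) (by norm_num) (by norm_num) (by norm_num [Finset.sum_range_succ, Nat.factorial]))
    (exp_le_of 4 (by norm_num) (by norm_num) (by norm_num) (by norm_num [Finset.sum_range_succ, Nat.factorial]))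
    (by norm_num) (by norm_num)
    (by norm_num) (by norm_num) (by norm_num)
    (by norm_num) (by norm_num) (by norm_num) (by norm_num)
    (by norm_num) (by norm_num) (by norm_num) (by norm_num)
    (by norm_num) (by norm_num)
    (by norm_num) (by norm_num) (by norm_num) (by norm_num) (by norm_num) (by norm_num) (by norm_num) (by norm_num) (by norm_num)
    (by norm_num) (by norm_num) (by norm_num)
    (exp_neg_le_pow 2 10 (by norm_num) (by norm_num) (by norm_num) (by norm_num [Finset.sum_range_succ, Nat.factorial])) (by norm_num) (by norm_num)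
    (by norm_num) (by norm_num)
    (by norm_num) (by norm_num) (by norm_num) (by norm_num) (by norm_num)
    (by norm_num) (by norm_num) (by norm_num) (by norm_num) (exp_neg_le_pow 2 10 (by norm_num) (by norm_num) (by norm_num) (by norm_num [Finset.sum_range_succ, Nat.factorial]))
    (by norm_num) (by norm_num) (by norm_num) (by norm_num) (by norm_num)
    (by norm_num) (by norm_num) (by norm_num) (by norm_num) (exp_neg_le_pow 2 8 (by norm_num) (by norm_num) (by norm_num) (by norm_num [Finset.sum_range_succ, Nat.factorial]))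
    (by norm_num) (exp_neg_le_pow 4 10 (by norm_num) (by norm_num) (by norm_num) (by norm_num [Finset.sum_range_succ, Nat.factorial])) (by norm_num) (by norm_num)
    (by norm_num)

private theorem b1_3 {β r t a y : ℝ} (h : Sad β r t a y) (hy0 : 0 ≤ y) (ha0 : 0 ≤ a) (ha2 : a < Real.pi / 2)
    (hk : 4.7 ≤ β * r) (hτ : t + β * r ≤ 3.8956) (hr : 0.1378 * (1 + (β * r) ^ 2) ≤ r)
    (hw1 : 8.53 ≤ nS (a - t) y) :
    |‖AA β r t‖ * Real.sqrt (nD (a - t) y) * Real.exp (-((a - t) * (1 + y) / β)) - 1| ≤ 0.2 := by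
  have hv : (0 : ℝ) * nS (a - t) y ≤ 1 := by rw [zero_mul]; norm_num
  have hY : y ≤ 0.373 := y_le (m := 8.6472) h hy0 ha0 ha2 hτ hw1 (by norm_num) hv (by norm_num) (by norm_num)
    (by norm_num) (by intro w hw; nlinarith [sq_nonneg (w - 1), sq_nonneg (w - 8.53)]) (by norm_num)
  have hr0 : (10.16 : ℝ) ≤ r := r_ge (c := 0.1378) h hy0 hw1 (by norm_num) (by norm_num) hr (by norm_num)
  exact boxR (w1 := 8.53) (v := 0) (Y := 0.373) (r0 := 10.16) (s2 := 0.0438) (c2 := 0.999) (τ2 := 0.022)
    (α2 := 0.044) (EY := 1.4522) (k := 0.3015) (k4 := 0.4314) (gL := 2.0713) (gR := 1.2312) (g4 := 1.2848)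
    (sgL := 1.4393) (sgR := 1.1096) (sg4 := 1.1335) (sD := 1.006) (hA := 0.6222) (sA := 2.5142) (XA := 0.01056)
    (hR := 0.5208) (mR := 0.6873) (σR := 0.8505) (XR := 0.00504) (hL := 0.301) (mL := 0.66) (σL := 0.5071)
    (XL := 0.04698) (sE := 0.3781) (hG := 0.9445) (XG := 0.000068) (sR0 := 3.1875) (tgt := 0.2)
    h hy0 ha0 ha2 hw1 hv hY hr0 (by norm_num)
    (fun _ => Or.inl ⟨by norm_num, by norm_num, legA1 hk hτ (by norm_num) (by norm_num)⟩)
    (fun _ => by norm_num)
    (by norm_num) (by norm_num) (by norm_num) (by norm_num) (by norm_num) (by norm_num) (by norm_num) (by norm_num) (by norm_num) (by norm_num) (by norm_num)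
    (exp_le_of 4 (by norm_num) (by norm_num) (by norm_num) (by norm_num [Finset.sum_range_succ, Nat.factorial])) (by norm_num)
    (exp_le_of 4 (by norm_num) (by norm_num) (by norm_num) (by norm_num [Finset.sum_range_succ, Nat.factorial]))
    (exp_le_of 4 (by norm_num) (by norm_num) (by norm_num) (by norm_num [Finset.sum_range_succ, Nat.factorial]))
    (by norm_num) (by norm_num)
    (by norm_num) (by norm_num) (by norm_num)
    (by norm_num) (by norm_num) (by norm_num) (by norm_num)
    (by norm_num) (by norm_num) (by norm_num) (by norm_num)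
    (by norm_num) (by norm_num)
    (by norm_num) (by norm_num) (by norm_num) (by norm_num) (by norm_num) (by norm_num) (by norm_num) (by norm_num) (by norm_num)
    (by norm_num) (by norm_num) (by norm_num)
    (exp_neg_le_pow 2 10 (by norm_num) (by norm_num) (by norm_num) (by norm_num [Finset.sum_range_succ, Nat.factorial])) (by norm_num) (by norm_num)
    (by norm_num) (by norm_num)
    (by norm_num) (by norm_num) (by norm_num) (by norm_num) (by norm_num)
    (by norm_num) (by norm_num) (by norm_num) (by norm_num) (exp_neg_le_pow 2 10 (by norm_num) (by norm_num) (by norm_num) (by norm_num [Finset.sum_range_succ, Nat.factorial]))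
    (by norm_num) (by norm_num) (by norm_num) (by norm_num) (by norm_num)
    (by norm_num) (by norm_num) (by norm_num) (by norm_num) (exp_neg_le_pow 2 10 (by norm_num) (by norm_num) (by norm_num) (by norm_num [Finset.sum_range_succ, Nat.factorial]))
    (by norm_num) (exp_neg_le_pow 4 12 (by norm_num) (by norm_num) (by norm_num) (by norm_num [Finset.sum_range_succ, Nat.factorial])) (by norm_num) (by norm_num)
    (by norm_num)

private theorem b1f_0 {β r t a y : ℝ} (h : Sad β r t a y) (hy0 : 0 ≤ y) (ha0 : 0 ≤ a) (ha2 : a < Real.pi / 2)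
    (hk : 4.7 ≤ β * r) (hτ : t + β * r ≤ 4.2726) (hr10 : 10 ≤ r)
    (hw1 : 2.06 ≤ nS (a - t) y) (hw2 : nS (a - t) y ≤ 2.91) :
    |‖AA β r t‖ * Real.sqrt (nD (a - t) y) * Real.exp (-((a - t) * (1 + y) / β)) - 1| ≤ 0.2 := by
  have hv : (0.3436 : ℝ) * nS (a - t) y ≤ 1 := by linarith
  have hY : y ≤ 1.003 := y_le (m := 2.5454) h hy0 ha0 ha2 hτ hw1 (by norm_num) hv (by norm_num) (by norm_num)
    (by norm_num) (by intro w hw; nlinarith [sq_nonneg (w - 1), sq_nonneg (w - 2.06)]) (by norm_num)
  have hr0 : (10 : ℝ) ≤ r := hr10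
  exact boxR (w1 := 2.06) (v := 0.3436) (Y := 1.003) (r0 := 10) (s2 := 0.4869) (c2 := 0.8734) (τ2 := 0.26)
    (α2 := 0.509) (EY := 2.7265) (k := 0.3309) (k4 := 0.4922) (gL := 1.5109) (gR := 1.2038) (g4 := 1.3368)
    (sgL := 1.2292) (sgR := 1.0972) (sg4 := 1.1563) (sD := 1.1433) (hA := 0.4098) (sA := 2.0243) (XA := 0.05232)
    (hR := 0.2948) (mR := 0.6037) (σR := 0.3891) (XR := 0.05245) (hL := 0.2433) (mL := 0.6134) (σL := 0.5618)
    (XL := 0.08778) (sE := 0.5222) (hG := 0.717) (XG := 0.00077) (sR0 := 3.1623) (tgt := 0.2)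
    h hy0 ha0 ha2 hw1 hv hY hr0 (by norm_num)
    (fun _ => Or.inr ⟨by norm_num, by norm_num, legA2 hk hτ (by norm_num)⟩)
    (no_leg ha0 hw2 (by norm_num))
    (by norm_num) (by norm_num) (by norm_num) (by norm_num) (by norm_num) (by norm_num) (by norm_num) (by norm_num) (by norm_num) (by norm_num) (by norm_num)
    (exp_le_of 6 (by norm_num) (by norm_num) (by norm_num) (by norm_num [Finset.sum_range_succ, Nat.factorial])) (by norm_num)
    (exp_le_of 4 (by norm_num) (by norm_num) (by norm_num) (by norm_num [Finset.sum_range_succ, Nat.factorial]))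
    (exp_le_of 4 (by norm_num) (by norm_num) (by norm_num) (by norm_num [Finset.sum_range_succ, Nat.factorial]))
    (by norm_num) (by norm_num)
    (by norm_num) (by norm_num) (by norm_num)
    (by norm_num) (by norm_num) (by norm_num) (by norm_num)
    (by norm_num) (by norm_num) (by norm_num) (by norm_num)
    (by norm_num) (by norm_num)
    (by norm_num) (by norm_num) (by norm_num) (by norm_num) (by norm_num) (by norm_num) (by norm_num) (by norm_num) (by norm_num)
    (by norm_num) (by norm_num) (by norm_num)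
    (exp_neg_le_pow 2 10 (by norm_num) (by norm_num) (by norm_num) (by norm_num [Finset.sum_range_succ, Nat.factorial])) (by norm_num) (by norm_num)
    (by norm_num) (by norm_num)
    (by norm_num) (by norm_num) (by norm_num) (by norm_num) (by norm_num)
    (by norm_num) (by norm_num) (by norm_num) (by norm_num) (exp_neg_le_pow 2 10 (by norm_num) (by norm_num) (by norm_num) (by norm_num [Finset.sum_range_succ, Nat.factorial]))
    (by norm_num) (by norm_num) (by norm_num) (by norm_num) (by norm_num)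
    (by norm_num) (by norm_num) (by norm_num) (by norm_num) (exp_neg_le_pow 2 10 (by norm_num) (by norm_num) (by norm_num) (by norm_num [Finset.sum_range_succ, Nat.factorial]))
    (by norm_num) (exp_neg_le_pow 4 10 (by norm_num) (by norm_num) (by norm_num) (by norm_num [Finset.sum_range_succ, Nat.factorial])) (by norm_num) (by norm_num)
    (by norm_num)

private theorem b1f_1 {β r t a y : ℝ} (h : Sad β r t a y) (hy0 : 0 ≤ y) (ha0 : 0 ≤ a) (ha2 : a < Real.pi / 2)
    (hk : 4.7 ≤ β * r) (hτ : t + β * r ≤ 4.2726) (hr10 : 10 ≤ r)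
    (hw1 : 2.91 ≤ nS (a - t) y) (hw2 : nS (a - t) y ≤ 5.13) :
    |‖AA β r t‖ * Real.sqrt (nD (a - t) y) * Real.exp (-((a - t) * (1 + y) / β)) - 1| ≤ 0.2 := by
  have hv : (0.1949 : ℝ) * nS (a - t) y ≤ 1 := by linarith
  have hY : y ≤ 0.846 := y_le (m := 3.2536) h hy0 ha0 ha2 hτ hw1 (by norm_num) hv (by norm_num) (by norm_num)
    (by norm_num) (by intro w hw; nlinarith [sq_nonneg (w - 1), sq_nonneg (w - 2.91)]) (by norm_num)
  have hr0 : (10 : ℝ) ≤ r := hr10
  exact boxR (w1 := 2.91) (v := 0.1949) (Y := 0.846) (r0 := 10) (s2 := 0.2908) (c2 := 0.9567) (τ2 := 0.1487)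
    (α2 := 0.2952) (EY := 2.3304) (k := 0.3233) (k4 := 0.4761) (gL := 1.7517) (gR := 1.2299) (g4 := 1.3547)
    (sgL := 1.3236) (sgR := 1.1091) (sg4 := 1.164) (sD := 1.0715) (hA := 0.4443) (sA := 2.1078) (XA := 0.04081)
    (hR := 0.3443) (mR := 0.6512) (σR := 0.6079) (XR := 0.03197) (hL := 0.2415) (mL := 0.66) (σL := 0.5584)
    (XL := 0.08937) (sE := 0.4828) (hG := 0.632) (XG := 0.0018) (sR0 := 3.1623) (tgt := 0.2)
    h hy0 ha0 ha2 hw1 hv hY hr0 (by norm_num)
    (fun _ => Or.inl ⟨by norm_num, by norm_num, legA1 hk hτ (by norm_num) (by norm_num)⟩)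
    (fun _ => by norm_num)
    (by norm_num) (by norm_num) (by norm_num) (by norm_num) (by norm_num) (by norm_num) (by norm_num) (by norm_num) (by norm_num) (by norm_num) (by norm_num)
    (exp_le_of 5 (by norm_num) (by norm_num) (by norm_num) (by norm_num [Finset.sum_range_succ, Nat.factorial])) (by norm_num)
    (exp_le_of 4 (by norm_num) (by norm_num) (by norm_num) (by norm_num [Finset.sum_range_succ, Nat.factorial]))
    (exp_le_of 4 (by norm_num) (by norm_num) (by norm_num) (by norm_num [Finset.sum_range_succ, Nat.factorial]))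
    (by norm_num) (by norm_num)
    (by norm_num) (by norm_num) (by norm_num)
    (by norm_num) (by norm_num) (by norm_num) (by norm_num)
    (by norm_num) (by norm_num) (by norm_num) (by norm_num)
    (by norm_num) (by norm_num)
    (by norm_num) (by norm_num) (by norm_num) (by norm_num) (by norm_num) (by norm_num) (by norm_num) (by norm_num) (by norm_num)
    (by norm_num) (by norm_num) (by norm_num)
    (exp_neg_le_pow 2 10 (by norm_num) (by norm_num) (by norm_num) (by norm_num [Finset.sum_range_succ, Nat.factorial])) (by norm_num) (by norm_num)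
    (by norm_num) (by norm_num)
    (by norm_num) (by norm_num) (by norm_num) (by norm_num) (by norm_num)
    (by norm_num) (by norm_num) (by norm_num) (by norm_num) (exp_neg_le_pow 2 10 (by norm_num) (by norm_num) (by norm_num) (by norm_num [Finset.sum_range_succ, Nat.factorial]))
    (by norm_num) (by norm_num) (by norm_num) (by norm_num) (by norm_num)
    (by norm_num) (by norm_num) (by norm_num) (by norm_num) (exp_neg_le_pow 2 10 (by norm_num) (by norm_num) (by norm_num) (by norm_num [Finset.sum_range_succ, Nat.factorial]))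
    (by norm_num) (exp_neg_le_pow 4 10 (by norm_num) (by norm_num) (by norm_num) (by norm_num [Finset.sum_range_succ, Nat.factorial])) (by norm_num) (by norm_num)
    (by norm_num)

private theorem b1f_2 {β r t a y : ℝ} (h : Sad β r t a y) (hy0 : 0 ≤ y) (ha0 : 0 ≤ a) (ha2 : a < Real.pi / 2)
    (hk : 4.7 ≤ β * r) (hτ : t + β * r ≤ 4.2726) (hr10 : 10 ≤ r)
    (hw1 : 5.13 ≤ nS (a - t) y) (hw2 : nS (a - t) y ≤ 13.12) :
    |‖AA β r t‖ * Real.sqrt (nD (a - t) y) * Real.exp (-((a - t) * (1 + y) / β)) - 1| ≤ 0.2 := by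
  have hv : (0.0762 : ℝ) * nS (a - t) y ≤ 1 := by linarith
  have hY : y ≤ 0.591 := y_le (m := 5.3249) h hy0 ha0 ha2 hτ hw1 (by norm_num) hv (by norm_num) (by norm_num)
    (by norm_num) (by intro w hw; nlinarith [sq_nonneg (w - 1), sq_nonneg (w - 5.13)]) (by norm_num)
  have hr0 : (10 : ℝ) ≤ r := hr10
  exact boxR (w1 := 5.13) (v := 0.0762) (Y := 0.591) (r0 := 10) (s2 := 0.1153) (c2 := 0.9933) (τ2 := 0.0579)
    (α2 := 0.1157) (EY := 1.8059) (k := 0.3113) (k4 := 0.4513) (gL := 1.9684) (gR := 1.2422) (g4 := 1.329)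
    (sgL := 1.403) (sgR := 1.1146) (sg4 := 1.1529) (sD := 1.0202) (hA := 0.5278) (sA := 2.2973) (XA := 0.02237)
    (hR := 0.4314) (mR := 0.6792) (σR := 0.7886) (XR := 0.01339) (hL := 0.266) (mL := 0.66) (σL := 0.5272)
    (XL := 0.06995) (sE := 0.425) (hG := 0.8305) (XG := 0.000248) (sR0 := 3.1623) (tgt := 0.2)
    h hy0 ha0 ha2 hw1 hv hY hr0 (by norm_num)
    (fun _ => Or.inl ⟨by norm_num, by norm_num, legA1 hk hτ (by norm_num) (by norm_num)⟩)
    (fun _ => by norm_num)
    (by norm_num) (by norm_num) (by norm_num) (by norm_num) (by norm_num) (by norm_num) (by norm_num) (by norm_num) (by norm_num) (by norm_num) (by norm_num)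
    (exp_le_of 5 (by norm_num) (by norm_num) (by norm_num) (by norm_num [Finset.sum_range_succ, Nat.factorial])) (by norm_num)
    (exp_le_of 4 (by norm_num) (by norm_num) (by norm_num) (by norm_num [Finset.sum_range_succ, Nat.factorial]))
    (exp_le_of 4 (by norm_num) (by norm_num) (by norm_num) (by norm_num [Finset.sum_range_succ, Nat.factorial]))
    (by norm_num) (by norm_num)
    (by norm_num) (by norm_num) (by norm_num)
    (by norm_num) (by norm_num) (by norm_num) (by norm_num)
    (by norm_num) (by norm_num) (by norm_num) (by norm_num)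
    (by norm_num) (by norm_num)
    (by norm_num) (by norm_num) (by norm_num) (by norm_num) (by norm_num) (by norm_num) (by norm_num) (by norm_num) (by norm_num)
    (by norm_num) (by norm_num) (by norm_num)
    (exp_neg_le_pow 2 10 (by norm_num) (by norm_num) (by norm_num) (by norm_num [Finset.sum_range_succ, Nat.factorial])) (by norm_num) (by norm_num)
    (by norm_num) (by norm_num)
    (by norm_num) (by norm_num) (by norm_num) (by norm_num) (by norm_num)
    (by norm_num) (by norm_num) (by norm_num) (by norm_num) (exp_neg_le_pow 2 10 (by norm_num) (by norm_num) (by norm_num) (by norm_num [Finset.sum_range_succ, Nat.factorial]))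
    (by norm_num) (by norm_num) (by norm_num) (by norm_num) (by norm_num)
    (by norm_num) (by norm_num) (by norm_num) (by norm_num) (exp_neg_le_pow 2 10 (by norm_num) (by norm_num) (by norm_num) (by norm_num [Finset.sum_range_succ, Nat.factorial]))
    (by norm_num) (exp_neg_le_pow 4 10 (by norm_num) (by norm_num) (by norm_num) (by norm_num [Finset.sum_range_succ, Nat.factorial])) (by norm_num) (by norm_num)
    (by norm_num)

private theorem b1f_3 {β r t a y : ℝ} (h : Sad β r t a y) (hy0 : 0 ≤ y) (ha0 : 0 ≤ a) (ha2 : a < Real.pi / 2)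
    (hk : 4.7 ≤ β * r) (hτ : t + β * r ≤ 4.2726) (hr : 0.1378 * (1 + (β * r) ^ 2) ≤ r)
    (hw1 : 13.12 ≤ nS (a - t) y) :
    |‖AA β r t‖ * Real.sqrt (nD (a - t) y) * Real.exp (-((a - t) * (1 + y) / β)) - 1| ≤ 0.2 := by
  have hv : (0 : ℝ) * nS (a - t) y ≤ 1 := by rw [zero_mul]; norm_num
  have hY : y ≤ 0.281 := y_le (m := 13.1962) h hy0 ha0 ha2 hτ hw1 (by norm_num) hv (by norm_num) (by norm_num)
    (by norm_num) (by intro w hw; nlinarith [sq_nonneg (w - 1), sq_nonneg (w - 13.12)]) (by norm_num)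
  have hr0 : (20 : ℝ) ≤ r := r_ge (c := 0.1378) h hy0 hw1 (by norm_num) (by norm_num) hr (by norm_num)
  exact boxR (w1 := 13.12) (v := 0) (Y := 0.281) (r0 := 20) (s2 := 0.0215) (c2 := 0.9997) (τ2 := 0.0108)
    (α2 := 0.0217) (EY := 1.3245) (k := 0.2976) (k4 := 0.4234) (gL := 2.0176) (gR := 1.1993) (g4 := 1.2384)
    (sgL := 1.4205) (sgR := 1.0952) (sg4 := 1.1129) (sD := 1.0023) (hA := 0.6822) (sA := 3.6937)
    (XA := 0.0000542) (hR := 0.571) (mR := 0.6894) (σR := 0.8756) (XR := 0.000011) (hL := 0.33) (mL := 0.66)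
    (σL := 0.5071) (XL := 0.00137) (sE := 0.2574) (hG := 0.9668) (XG := 0.00000000401) (sR0 := 4.4722)
    (tgt := 0.2)
    h hy0 ha0 ha2 hw1 hv hY hr0 (by norm_num)
    (fun _ => Or.inl ⟨by norm_num, by norm_num, legA1 hk hτ (by norm_num) (by norm_num)⟩)
    (fun _ => by norm_num)
    (by norm_num) (by norm_num) (by norm_num) (by norm_num) (by norm_num) (by norm_num) (by norm_num) (by norm_num) (by norm_num) (by norm_num) (by norm_num)
    (exp_le_of 4 (by norm_num) (by norm_num) (by norm_num) (by norm_num [Finset.sum_range_succ, Nat.factorial])) (by norm_num)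
    (exp_le_of 3 (by norm_num) (by norm_num) (by norm_num) (by norm_num [Finset.sum_range_succ, Nat.factorial]))
    (exp_le_of 4 (by norm_num) (by norm_num) (by norm_num) (by norm_num [Finset.sum_range_succ, Nat.factorial]))
    (by norm_num) (by norm_num)
    (by norm_num) (by norm_num) (by norm_num)
    (by norm_num) (by norm_num) (by norm_num) (by norm_num)
    (by norm_num) (by norm_num) (by norm_num) (by norm_num)
    (by norm_num) (by norm_num)
    (by norm_num) (by norm_num) (by norm_num) (by norm_num) (by norm_num) (by norm_num) (by norm_num) (by norm_num) (by norm_num)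
    (by norm_num) (by norm_num) (by norm_num)
    (exp_neg_le_pow 4 12 (by norm_num) (by norm_num) (by norm_num) (by norm_num [Finset.sum_range_succ, Nat.factorial])) (by norm_num) (by norm_num)
    (by norm_num) (by norm_num)
    (by norm_num) (by norm_num) (by norm_num) (by norm_num) (by norm_num)
    (by norm_num) (by norm_num) (by norm_num) (by norm_num) (exp_neg_le_pow 4 12 (by norm_num) (by norm_num) (by norm_num) (by norm_num [Finset.sum_range_succ, Nat.factorial]))
    (by norm_num) (by norm_num) (by norm_num) (by norm_num) (by norm_num)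
    (by norm_num) (by norm_num) (by norm_num) (by norm_num) (exp_neg_le_pow 2 10 (by norm_num) (by norm_num) (by norm_num) (by norm_num [Finset.sum_range_succ, Nat.factorial]))
    (by norm_num) (exp_neg_le_pow 8 12 (by norm_num) (by norm_num) (by norm_num) (by norm_num [Finset.sum_range_succ, Nat.factorial])) (by norm_num) (by norm_num)
    (by norm_num)

private theorem b1c_0 {β r t a y : ℝ} (h : Sad β r t a y) (hy0 : 0 ≤ y) (ha0 : 0 ≤ a) (ha2 : a < Real.pi / 2)
    (hk : 4.7 ≤ β * r) (hτ : t + β * r ≤ 4.2726) (hr10 : 10 ≤ r)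
    (hw1 : 1.59 ≤ nS (a - t) y) (hw2 : nS (a - t) y ≤ 1.63) :
    |‖AA β r t‖ * Real.sqrt (nD (a - t) y) * Real.exp (-((a - t) * (1 + y) / β)) - 1| ≤ 0.28 := by
  have hv : (0.6134 : ℝ) * nS (a - t) y ≤ 1 := by linarith
  have hY : y ≤ 1.092 := y_le (m := 2.2189) h hy0 ha0 ha2 hτ hw1 (by norm_num) hv (by norm_num) (by norm_num)
    (by norm_num) (by intro w hw; nlinarith [sq_nonneg (w - 1), sq_nonneg (w - 1.59)]) (by norm_num)
  have hr0 : (10 : ℝ) ≤ r := hr10
  exact boxR (w1 := 1.59) (v := 0.6134) (Y := 1.092) (r0 := 10) (s2 := 0.6868) (c2 := 0.7268) (τ2 := 0.3978)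
    (α2 := 0.7601) (EY := 2.9803) (k := 0.3354) (k4 := 0.5017) (gL := 1.2503) (gR := 1.2946) (g4 := 1.2767)
    (sgL := 1.1182) (sgR := 1.1379) (sg4 := 1.13) (sD := 1.2261) (hA := 0.4068) (sA := 2.0169) (XA := 0.05346)
    (hR := 0.2558) (mR := 0.5301) (σR := 0.1645) (XR := 0.07747) (hL := 0.275) (mL := 0.399) (σL := 0.4681)
    (XL := 0.06393) (sE := 0.546) (hG := 0.9125) (XG := 0.000109) (sR0 := 3.1623) (tgt := 0.28)
    h hy0 ha0 ha2 hw1 hv hY hr0 (by norm_num)
    (fun _ => Or.inr ⟨by norm_num, by norm_num, legA2 hk hτ (by norm_num)⟩)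
    (no_leg ha0 hw2 (by norm_num))
    (by norm_num) (by norm_num) (by norm_num) (by norm_num) (by norm_num) (by norm_num) (by norm_num) (by norm_num) (by norm_num) (by norm_num) (by norm_num)
    (exp_le_of 6 (by norm_num) (by norm_num) (by norm_num) (by norm_num [Finset.sum_range_succ, Nat.factorial])) (by norm_num)
    (exp_le_of 4 (by norm_num) (by norm_num) (by norm_num) (by norm_num [Finset.sum_range_succ, Nat.factorial]))
    (exp_le_of 4 (by norm_num) (by norm_num) (by norm_num) (by norm_num [Finset.sum_range_succ, Nat.factorial]))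
    (by norm_num) (by norm_num)
    (by norm_num) (by norm_num) (by norm_num)
    (by norm_num) (by norm_num) (by norm_num) (by norm_num)
    (by norm_num) (by norm_num) (by norm_num) (by norm_num)
    (by norm_num) (by norm_num)
    (by norm_num) (by norm_num) (by norm_num) (by norm_num) (by norm_num) (by norm_num) (by norm_num) (by norm_num) (by norm_num)
    (by norm_num) (by norm_num) (by norm_num)
    (exp_neg_le_pow 2 10 (by norm_num) (by norm_num) (by norm_num) (by norm_num [Finset.sum_range_succ, Nat.factorial])) (by norm_num) (by norm_num)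
    (by norm_num) (by norm_num)
    (by norm_num) (by norm_num) (by norm_num) (by norm_num) (by norm_num)
    (by norm_num) (by norm_num) (by norm_num) (by norm_num) (exp_neg_le_pow 2 8 (by norm_num) (by norm_num) (by norm_num) (by norm_num [Finset.sum_range_succ, Nat.factorial]))
    (by norm_num) (by norm_num) (by norm_num) (by norm_num) (by norm_num)
    (by norm_num) (by norm_num) (by norm_num) (by norm_num) (exp_neg_le_pow 2 10 (by norm_num) (by norm_num) (by norm_num) (by norm_num [Finset.sum_range_succ, Nat.factorial]))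
    (by norm_num) (exp_neg_le_pow 4 10 (by norm_num) (by norm_num) (by norm_num) (by norm_num [Finset.sum_range_succ, Nat.factorial])) (by norm_num) (by norm_num)
    (by norm_num)

private theorem b1c_1 {β r t a y : ℝ} (h : Sad β r t a y) (hy0 : 0 ≤ y) (ha0 : 0 ≤ a) (ha2 : a < Real.pi / 2)
    (hk : 4.7 ≤ β * r) (hτ : t + β * r ≤ 4.2726) (hr10 : 10 ≤ r)
    (hw1 : 1.63 ≤ nS (a - t) y) (hw2 : nS (a - t) y ≤ 1.87) :
    |‖AA β r t‖ * Real.sqrt (nD (a - t) y) * Real.exp (-((a - t) * (1 + y) / β)) - 1| ≤ 0.28 := by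
  have hv : (0.5347 : ℝ) * nS (a - t) y ≤ 1 := by linarith
  have hY : y ≤ 1.088 := y_le (m := 2.2434) h hy0 ha0 ha2 hτ hw1 (by norm_num) hv (by norm_num) (by norm_num)
    (by norm_num) (by intro w hw; nlinarith [sq_nonneg (w - 1), sq_nonneg (w - 1.63)]) (by norm_num)
  have hr0 : (10 : ℝ) ≤ r := hr10
  exact boxR (w1 := 1.63) (v := 0.5347) (Y := 1.088) (r0 := 10) (s2 := 0.6675) (c2 := 0.7446) (τ2 := 0.3827)
    (α2 := 0.7333) (EY := 2.9684) (k := 0.3352) (k4 := 0.5012) (gL := 1.3053) (gR := 1.285) (g4 := 1.309)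
    (sgL := 1.1425) (sgR := 1.1336) (sg4 := 1.1442) (sD := 1.2173) (hA := 0.3977) (sA := 1.9942) (XA := 0.05708)
    (hR := 0.259) (mR := 0.5388) (σR := 0.1744) (XR := 0.07503) (hL := 0.2607) (mL := 0.4234) (σL := 0.4661)
    (XL := 0.07376) (sE := 0.5449) (hG := 0.8385) (XG := 0.000229) (sR0 := 3.1623) (tgt := 0.28)
    h hy0 ha0 ha2 hw1 hv hY hr0 (by norm_num)
    (fun _ => Or.inr ⟨by norm_num, by norm_num, legA2 hk hτ (by norm_num)⟩)
    (no_leg ha0 hw2 (by norm_num))
    (by norm_num) (by norm_num) (by norm_num) (by norm_num) (by norm_num) (by norm_num) (by norm_num) (by norm_num) (by norm_num) (by norm_num) (by norm_num)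
    (exp_le_of 6 (by norm_num) (by norm_num) (by norm_num) (by norm_num [Finset.sum_range_succ, Nat.factorial])) (by norm_num)
    (exp_le_of 4 (by norm_num) (by norm_num) (by norm_num) (by norm_num [Finset.sum_range_succ, Nat.factorial]))
    (exp_le_of 5 (by norm_num) (by norm_num) (by norm_num) (by norm_num [Finset.sum_range_succ, Nat.factorial]))
    (by norm_num) (by norm_num)
    (by norm_num) (by norm_num) (by norm_num)
    (by norm_num) (by norm_num) (by norm_num) (by norm_num)
    (by norm_num) (by norm_num) (by norm_num) (by norm_num)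
    (by norm_num) (by norm_num)
    (by norm_num) (by norm_num) (by norm_num) (by norm_num) (by norm_num) (by norm_num) (by norm_num) (by norm_num) (by norm_num)
    (by norm_num) (by norm_num) (by norm_num)
    (exp_neg_le_pow 2 10 (by norm_num) (by norm_num) (by norm_num) (by norm_num [Finset.sum_range_succ, Nat.factorial])) (by norm_num) (by norm_num)
    (by norm_num) (by norm_num)
    (by norm_num) (by norm_num) (by norm_num) (by norm_num) (by norm_num)
    (by norm_num) (by norm_num) (by norm_num) (by norm_num) (exp_neg_le_pow 2 8 (by norm_num) (by norm_num) (by norm_num) (by norm_num [Finset.sum_range_succ, Nat.factorial]))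
    (by norm_num) (by norm_num) (by norm_num) (by norm_num) (by norm_num)
    (by norm_num) (by norm_num) (by norm_num) (by norm_num) (exp_neg_le_pow 2 10 (by norm_num) (by norm_num) (by norm_num) (by norm_num [Finset.sum_range_succ, Nat.factorial]))
    (by norm_num) (exp_neg_le_pow 4 10 (by norm_num) (by norm_num) (by norm_num) (by norm_num [Finset.sum_range_succ, Nat.factorial])) (by norm_num) (by norm_num)
    (by norm_num)

private theorem b1c_2 {β r t a y : ℝ} (h : Sad β r t a y) (hy0 : 0 ≤ y) (ha0 : 0 ≤ a) (ha2 : a < Real.pi / 2)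
    (hk : 4.7 ≤ β * r) (hτ : t + β * r ≤ 4.2726) (hr10 : 10 ≤ r)
    (hw1 : 1.87 ≤ nS (a - t) y) (hw2 : nS (a - t) y ≤ 3.13) :
    |‖AA β r t‖ * Real.sqrt (nD (a - t) y) * Real.exp (-((a - t) * (1 + y) / β)) - 1| ≤ 0.28 := by
  have hv : (0.3194 : ℝ) * nS (a - t) y ≤ 1 := by linarith
  have hY : y ≤ 1.043 := y_le (m := 2.4047) h hy0 ha0 ha2 hτ hw1 (by norm_num) hv (by norm_num) (by norm_num)
    (by norm_num) (by intro w hw; nlinarith [sq_nonneg (w - 1), sq_nonneg (w - 1.87)]) (by norm_num)
  have hr0 : (10 : ℝ) ≤ r := hr10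
  exact boxR (w1 := 1.87) (v := 0.3194) (Y := 1.043) (r0 := 10) (s2 := 0.5578) (c2 := 0.8299) (τ2 := 0.3049)
    (α2 := 0.5926) (EY := 2.8378) (k := 0.3329) (k4 := 0.4964) (gL := 1.5762) (gR := 1.2463) (g4 := 1.3908)
    (sgL := 1.2555) (sgR := 1.1164) (sg4 := 1.1794) (sD := 1.1714) (hA := 0.3845) (sA := 1.9608) (XA := 0.06277)
    (hR := 0.2773) (mR := 0.5813) (σR := 0.2827) (XR := 0.06248) (hL := 0.2274) (mL := 0.5459) (σL := 0.5035)
    (XL := 0.10291) (sE := 0.5328) (hG := 0.6584) (XG := 0.00139) (sR0 := 3.1623) (tgt := 0.28)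
    h hy0 ha0 ha2 hw1 hv hY hr0 (by norm_num)
    (fun _ => Or.inr ⟨by norm_num, by norm_num, legA2 hk hτ (by norm_num)⟩)
    (no_leg ha0 hw2 (by norm_num))
    (by norm_num) (by norm_num) (by norm_num) (by norm_num) (by norm_num) (by norm_num) (by norm_num) (by norm_num) (by norm_num) (by norm_num) (by norm_num)
    (exp_le_of 6 (by norm_num) (by norm_num) (by norm_num) (by norm_num [Finset.sum_range_succ, Nat.factorial])) (by norm_num)
    (exp_le_of 4 (by norm_num) (by norm_num) (by norm_num) (by norm_num [Finset.sum_range_succ, Nat.factorial]))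
    (exp_le_of 5 (by norm_num) (by norm_num) (by norm_num) (by norm_num [Finset.sum_range_succ, Nat.factorial]))
    (by norm_num) (by norm_num)
    (by norm_num) (by norm_num) (by norm_num)
    (by norm_num) (by norm_num) (by norm_num) (by norm_num)
    (by norm_num) (by norm_num) (by norm_num) (by norm_num)
    (by norm_num) (by norm_num)
    (by norm_num) (by norm_num) (by norm_num) (by norm_num) (by norm_num) (by norm_num) (by norm_num) (by norm_num) (by norm_num)
    (by norm_num) (by norm_num) (by norm_num)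
    (exp_neg_le_pow 2 10 (by norm_num) (by norm_num) (by norm_num) (by norm_num [Finset.sum_range_succ, Nat.factorial])) (by norm_num) (by norm_num)
    (by norm_num) (by norm_num)
    (by norm_num) (by norm_num) (by norm_num) (by norm_num) (by norm_num)
    (by norm_num) (by norm_num) (by norm_num) (by norm_num) (exp_neg_le_pow 2 10 (by norm_num) (by norm_num) (by norm_num) (by norm_num [Finset.sum_range_succ, Nat.factorial]))
    (by norm_num) (by norm_num) (by norm_num) (by norm_num) (by norm_num)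
    (by norm_num) (by norm_num) (by norm_num) (by norm_num) (exp_neg_le_pow 2 8 (by norm_num) (by norm_num) (by norm_num) (by norm_num [Finset.sum_range_succ, Nat.factorial]))
    (by norm_num) (exp_neg_le_pow 2 10 (by norm_num) (by norm_num) (by norm_num) (by norm_num [Finset.sum_range_succ, Nat.factorial])) (by norm_num) (by norm_num)
    (by norm_num)

private theorem b1g_0 {β r t a y : ℝ} (h : Sad β r t a y) (hy0 : 0 ≤ y) (ha0 : 0 ≤ a) (ha2 : a < Real.pi / 2)
    (hk : 5 ≤ β * r) (hτ : t + β * r ≤ 4.2726) (hr10 : 10 ≤ r)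
    (hw1 : 1.73 ≤ nS (a - t) y) (hw2 : nS (a - t) y ≤ 2.11) :
    |‖AA β r t‖ * Real.sqrt (nD (a - t) y) * Real.exp (-((a - t) * (1 + y) / β)) - 1| ≤ 0.24 := by
  have hv : (0.4739 : ℝ) * nS (a - t) y ≤ 1 := by linarith
  have hY : y ≤ 1.07 := y_le (m := 2.308) h hy0 ha0 ha2 hτ hw1 (by norm_num) hv (by norm_num) (by norm_num)
    (by norm_num) (by intro w hw; nlinarith [sq_nonneg (w - 1), sq_nonneg (w - 1.73)]) (by norm_num)
  have hr0 : (10 : ℝ) ≤ r := hr10
  exact boxR (w1 := 1.73) (v := 0.4739) (Y := 1.07) (r0 := 10) (s2 := 0.6185) (c2 := 0.7857) (τ2 := 0.3464)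
    (α2 := 0.6684) (EY := 2.9154) (k := 0.3343) (k4 := 0.4993) (gL := 1.3557) (gR := 1.2553) (g4 := 1.317)
    (sgL := 1.1644) (sgR := 1.1205) (sg4 := 1.1477) (sD := 1.1965) (hA := 0.3996) (sA := 1.9989) (XA := 0.0563)
    (hR := 0.2687) (mR := 0.5591) (σR := 0.2338) (XR := 0.06809) (hL := 0.2542) (mL := 0.4812) (σL := 0.4945)
    (XL := 0.07872) (sE := 0.54) (hG := 0.7987) (XG := 0.00034) (sR0 := 3.1623) (tgt := 0.24)
    h hy0 ha0 ha2 hw1 hv hY hr0 (by norm_num)
    (fun _ => Or.inr ⟨by norm_num, by norm_num, legA2 hk hτ (by norm_num)⟩)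
    (no_leg ha0 hw2 (by norm_num))
    (by norm_num) (by norm_num) (by norm_num) (by norm_num) (by norm_num) (by norm_num) (by norm_num) (by norm_num) (by norm_num) (by norm_num) (by norm_num)
    (exp_le_of 6 (by norm_num) (by norm_num) (by norm_num) (by norm_num [Finset.sum_range_succ, Nat.factorial])) (by norm_num)
    (exp_le_of 4 (by norm_num) (by norm_num) (by norm_num) (by norm_num [Finset.sum_range_succ, Nat.factorial]))
    (exp_le_of 4 (by norm_num) (by norm_num) (by norm_num) (by norm_num [Finset.sum_range_succ, Nat.factorial]))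
    (by norm_num) (by norm_num)
    (by norm_num) (by norm_num) (by norm_num)
    (by norm_num) (by norm_num) (by norm_num) (by norm_num)
    (by norm_num) (by norm_num) (by norm_num) (by norm_num)
    (by norm_num) (by norm_num)
    (by norm_num) (by norm_num) (by norm_num) (by norm_num) (by norm_num) (by norm_num) (by norm_num) (by norm_num) (by norm_num)
    (by norm_num) (by norm_num) (by norm_num)
    (exp_neg_le_pow 2 10 (by norm_num) (by norm_num) (by norm_num) (by norm_num [Finset.sum_range_succ, Nat.factorial])) (by norm_num) (by norm_num)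
    (by norm_num) (by norm_num)
    (by norm_num) (by norm_num) (by norm_num) (by norm_num) (by norm_num)
    (by norm_num) (by norm_num) (by norm_num) (by norm_num) (exp_neg_le_pow 2 10 (by norm_num) (by norm_num) (by norm_num) (by norm_num [Finset.sum_range_succ, Nat.factorial]))
    (by norm_num) (by norm_num) (by norm_num) (by norm_num) (by norm_num)
    (by norm_num) (by norm_num) (by norm_num) (by norm_num) (exp_neg_le_pow 2 8 (by norm_num) (by norm_num) (by norm_num) (by norm_num [Finset.sum_range_succ, Nat.factorial]))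
    (by norm_num) (exp_neg_le_pow 4 10 (by norm_num) (by norm_num) (by norm_num) (by norm_num [Finset.sum_range_succ, Nat.factorial])) (by norm_num) (by norm_num)
    (by norm_num)

/-- **value at the right saddle**, `b = 1`, `κ ≥ 4.7`, `t ≤ -κ + 0.62 h` -/
theorem val1_b1 {β r t a y : ℝ} (h : Sad β r t a y) (hy0 : 0 ≤ y) (ha0 : 0 ≤ a) (ha2 : a < Real.pi / 2)
    (hk : 4.7 ≤ β * r) (hτ : t + β * r ≤ 3.8956) (hr10 : 10 ≤ r) (hr : 0.1378 * (1 + (β * r) ^ 2) ≤ r) :
    |‖AA β r t‖ * Real.sqrt (nD (a - t) y) * Real.exp (-((a - t) * (1 + y) / β)) - 1| ≤ 0.2 := by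
  have hw : 1.72 ≤ nS (a - t) y := by
    have hE : Real.exp 1.005 ≤ 2.73255 := exp_le_of 5 (by norm_num) (by norm_num) (by norm_num)
      (by norm_num [Finset.sum_range_succ, Nat.factorial])
    have hS := sin_le_five (z := 0.62) (by norm_num)
    refine w_ge (y1 := 1.005) (a1 := 0.62) (x1 := 1.3959) h ha0 ha2 hk hτ (by norm_num) (by norm_num) (by norm_num) (by norm_num)
      ?_ ?_ (by norm_num) (by norm_num) (by norm_num)
    · linarith
    · norm_num at hS
      linarith
  rcases le_total (nS (a - t) y) 2.2 with c0 | c0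
  · exact b1_0 h hy0 ha0 ha2 hk hτ hr10 hw c0
  rcases le_total (nS (a - t) y) 3.67 with c1 | c1
  · exact b1_1 h hy0 ha0 ha2 hk hτ hr10 c0 c1
  rcases le_total (nS (a - t) y) 8.53 with c2 | c2
  · exact b1_2 h hy0 ha0 ha2 hk hτ hr10 c1 c2
  exact b1_3 h hy0 ha0 ha2 hk hτ hr c2

private theorem b1f_all {β r t a y : ℝ} (h : Sad β r t a y) (hy0 : 0 ≤ y) (ha0 : 0 ≤ a) (ha2 : a < Real.pi / 2)
    (hw : 2.06 ≤ nS (a - t) y)
    (hk : 4.7 ≤ β * r) (hτ : t + β * r ≤ 4.2726) (hr10 : 10 ≤ r) (hr : 0.1378 * (1 + (β * r) ^ 2) ≤ r) :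
    |‖AA β r t‖ * Real.sqrt (nD (a - t) y) * Real.exp (-((a - t) * (1 + y) / β)) - 1| ≤ 0.2 := by
  rcases le_total (nS (a - t) y) 2.91 with c0 | c0
  · exact b1f_0 h hy0 ha0 ha2 hk hτ hr10 hw c0
  rcases le_total (nS (a - t) y) 5.13 with c1 | c1
  · exact b1f_1 h hy0 ha0 ha2 hk hτ hr10 c0 c1
  rcases le_total (nS (a - t) y) 13.12 with c2 | c2
  · exact b1f_2 h hy0 ha0 ha2 hk hτ hr10 c1 c2
  exact b1f_3 h hy0 ha0 ha2 hk hτ hr c2

/-- `b = 1`, `κ ≥ 5.6`, `t ≤ -κ + 0.68 h` -/
theorem val1_b1f {β r t a y : ℝ} (h : Sad β r t a y) (hy0 : 0 ≤ y) (ha0 : 0 ≤ a) (ha2 : a < Real.pi / 2)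
    (hk : 5.6 ≤ β * r) (hτ : t + β * r ≤ 4.2726) (hr10 : 10 ≤ r) (hr : 0.1378 * (1 + (β * r) ^ 2) ≤ r) :
    |‖AA β r t‖ * Real.sqrt (nD (a - t) y) * Real.exp (-((a - t) * (1 + y) / β)) - 1| ≤ 0.2 := by
  have hw : 2.06 ≤ nS (a - t) y := by
    have hE : Real.exp 1 ≤ 2.71844 := exp_le_of 5 (by norm_num) (by norm_num) (by norm_num)
      (by norm_num [Finset.sum_range_succ, Nat.factorial])
    have hS := sin_le_five (z := 0.506) (by norm_num)
    refine w_ge (y1 := 1) (a1 := 0.506) (x1 := 1.8011) h ha0 ha2 hk hτ (by norm_num) (by norm_num) (by norm_num) (by norm_num)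
      ?_ ?_ (by norm_num) (by norm_num) (by norm_num)
    · linarith
    · norm_num at hS
      linarith
  exact b1f_all h hy0 ha0 ha2 hw (by linarith) hτ hr10 hr

/-- `b = 1`, `κ ≥ 4.7`, `t ≤ -κ + 0.68 h` -/
theorem val1_b1c {β r t a y : ℝ} (h : Sad β r t a y) (hy0 : 0 ≤ y) (ha0 : 0 ≤ a) (ha2 : a < Real.pi / 2)
    (hk : 4.7 ≤ β * r) (hτ : t + β * r ≤ 4.2726) (hr10 : 10 ≤ r) (hr : 0.1378 * (1 + (β * r) ^ 2) ≤ r) :
    |‖AA β r t‖ * Real.sqrt (nD (a - t) y) * Real.exp (-((a - t) * (1 + y) / β)) - 1| ≤ 0.28 := by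
  have hw : 1.59 ≤ nS (a - t) y := by
    have hE : Real.exp 1.0838 ≤ 2.95597 := exp_le_of 6 (by norm_num) (by norm_num) (by norm_num)
      (by norm_num [Finset.sum_range_succ, Nat.factorial])
    have hS := sin_le_five (z := 0.745) (by norm_num)
    refine w_ge (y1 := 1.0838) (a1 := 0.745) (x1 := 1.1635) h ha0 ha2 hk hτ (by norm_num) (by norm_num) (by norm_num) (by norm_num)
      ?_ ?_ (by norm_num) (by norm_num) (by norm_num)
    · linarith
    · norm_num at hS
      linarith
  rcases le_total (nS (a - t) y) 2.06 with c | c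
  · rcases le_total (nS (a - t) y) 1.63 with c0 | c0
    · exact b1c_0 h hy0 ha0 ha2 hk hτ hr10 hw c0
    rcases le_total (nS (a - t) y) 1.87 with c1 | c1
    · exact b1c_1 h hy0 ha0 ha2 hk hτ hr10 c0 c1
    exact b1c_2 h hy0 ha0 ha2 hk hτ hr10 c1 (by linarith)
  · exact (b1f_all h hy0 ha0 ha2 c hk hτ hr10 hr).trans (by norm_num)

/-- `b = 1`, `κ ≥ 5`, `t ≤ -κ + 0.68 h` -/
theorem val1_b1g {β r t a y : ℝ} (h : Sad β r t a y) (hy0 : 0 ≤ y) (ha0 : 0 ≤ a) (ha2 : a < Real.pi / 2)
    (hk : 5 ≤ β * r) (hτ : t + β * r ≤ 4.2726) (hr10 : 10 ≤ r) (hr : 0.1378 * (1 + (β * r) ^ 2) ≤ r) :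
    |‖AA β r t‖ * Real.sqrt (nD (a - t) y) * Real.exp (-((a - t) * (1 + y) / β)) - 1| ≤ 0.24 := by
  have hw : 1.73 ≤ nS (a - t) y := by
    have hE : Real.exp 1.06 ≤ 2.89017 := exp_le_of 4 (by norm_num) (by norm_num) (by norm_num)
      (by norm_num [Finset.sum_range_succ, Nat.factorial])
    have hS := sin_le_five (z := 0.65) (by norm_num)
    refine w_ge (y1 := 1.06) (a1 := 0.65) (x1 := 1.3673) h ha0 ha2 hk hτ (by norm_num) (by norm_num) (by norm_num) (by norm_num)
      ?_ ?_ (by norm_num) (by norm_num) (by norm_num)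
    · linarith
    · norm_num at hS
      linarith
  rcases le_total (nS (a - t) y) 2.06 with c | c
  · exact b1g_0 h hy0 ha0 ha2 hk hτ hr10 hw (by linarith)
  · exact (b1f_all h hy0 ha0 ha2 c (by linarith) hτ hr10 hr).trans (by norm_num)

end Sok.N1
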