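import Mathlib
import Pool.Agent.Lib.MP_816dec_an.N1J

/-!
MP_816dec_an, row N1: right saddle, boxes of `b ≥ 2` (generated numbers).
-/

set_option autoImplicit false

open Complex Set Filter Topology MeasureTheory

namespace Sok.N1

open Sok.Mid

private theorem b2_0 {β r t a y : ℝ} (h : Sad β r t a y) (hy0 : 0 ≤ y) (ha0 : 0 ≤ a) (ha2 : a < Real.pi / 2)
    (hk : 3 ≤ β * r) (hτ : t + β * r ≤ 2.1363) (hr10 : 10 ≤ r)
    (hw1 : 1.5 ≤ nS (a - t) y) (hw2 : nS (a - t) y ≤ 2.22) :
    |‖AA β r t‖ * Real.sqrt (nD (a - t) y) * Real.exp (-((a - t) * (1 + y) / β)) - 1| ≤ 0.1 := by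
  have hv : (0.4504 : ℝ) * nS (a - t) y ≤ 1 := by linarith
  have hY : y ≤ 0.696 := y_le (m := 2.1666) h hy0 ha0 ha2 hτ hw1 (by norm_num) hv (by norm_num) (by norm_num)
    (by norm_num) (by intro w hw; nlinarith [sq_nonneg (w - 1), sq_nonneg (w - 1.5)]) (by norm_num)
  have hr0 : (10 : ℝ) ≤ r := hr10
  exact boxR (w1 := 1.5) (v := 0.4504) (Y := 0.696) (r0 := 10) (s2 := 0.4641) (c2 := 0.8857) (τ2 := 0.2462)
    (α2 := 0.483) (EY := 2.0058) (k := 0.3162) (k4 := 0.4613) (gL := 1.3699) (gR := 1.0509) (g4 := 1.1379)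
    (sgL := 1.1705) (sgR := 1.0252) (sg4 := 1.0668) (sD := 1.1985) (hA := 0.5788) (sA := 2.4058) (XA := 0.0155)
    (hR := 0.4215) (mR := 0.6103) (σR := 0.4487) (XR := 0.01478) (hL := 0.3427) (mL := 0.6335) (σL := 0.6054)
    (XL := 0.03249) (sE := 0.4479) (hG := 1.0124) (XG := 0.0000402) (sR0 := 3.1623) (tgt := 0.1)
    h hy0 ha0 ha2 hw1 hv hY hr0 (by norm_num)
    (fun _ => Or.inr ⟨by norm_num, by norm_num, legA2 hk hτ (by norm_num)⟩)
    (no_leg ha0 hw2 (by norm_num))
    (by norm_num) (by norm_num) (by norm_num) (by norm_num) (by norm_num) (by norm_num) (by norm_num) (by norm_num) (by norm_num) (by norm_num) (by norm_num)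
    (exp_le_of 5 (by norm_num) (by norm_num) (by norm_num) (by norm_num [Finset.sum_range_succ, Nat.factorial])) (by norm_num)
    (exp_le_of 4 (by norm_num) (by norm_num) (by norm_num) (by norm_num [Finset.sum_range_succ, Nat.factorial]))
    (exp_le_of 4 (by norm_num) (by norm_num) (by norm_num) (by norm_num [Finset.sum_range_succ, Nat.factorial]))
    (by norm_num) (by norm_num)
    (by norm_num) (by norm_num) (by norm_num)
    (by norm_num) (by norm_num) (by norm_num) (by norm_num)
    (by norm_num) (by norm_num) (by norm_num) (by norm_num)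
    (by norm_num) (by norm_num)
    (by norm_num) (by norm_num) (by norm_num) (by norm_num) (by norm_num) (by norm_num) (by norm_num) (by norm_num) (by norm_num)
    (by norm_num) (by norm_num) (by norm_num)
    (exp_neg_le_pow 2 10 (by norm_num) (by norm_num) (by norm_num) (by norm_num [Finset.sum_range_succ, Nat.factorial])) (by norm_num) (by norm_num)
    (by norm_num) (by norm_num)
    (by norm_num) (by norm_num) (by norm_num) (by norm_num) (by norm_num)
    (by norm_num) (by norm_num) (by norm_num) (by norm_num) (exp_neg_le_pow 2 10 (by norm_num) (by norm_num) (by norm_num) (by norm_num [Finset.sum_range_succ, Nat.factorial]))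
    (by norm_num) (by norm_num) (by norm_num) (by norm_num) (by norm_num)
    (by norm_num) (by norm_num) (by norm_num) (by norm_num) (exp_neg_le_pow 2 10 (by norm_num) (by norm_num) (by norm_num) (by norm_num [Finset.sum_range_succ, Nat.factorial]))
    (by norm_num) (exp_neg_le_pow 4 10 (by norm_num) (by norm_num) (by norm_num) (by norm_num [Finset.sum_range_succ, Nat.factorial])) (by norm_num) (by norm_num)
    (by norm_num)

private theorem b2_1 {β r t a y : ℝ} (h : Sad β r t a y) (hy0 : 0 ≤ y) (ha0 : 0 ≤ a) (ha2 : a < Real.pi / 2)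
    (hk : 3 ≤ β * r) (hτ : t + β * r ≤ 2.1363) (hr10 : 10 ≤ r)
    (hw1 : 2.22 ≤ nS (a - t) y) (hw2 : nS (a - t) y ≤ 3.11) :
    |‖AA β r t‖ * Real.sqrt (nD (a - t) y) * Real.exp (-((a - t) * (1 + y) / β)) - 1| ≤ 0.1 := by
  have hv : (0.3215 : ℝ) * nS (a - t) y ≤ 1 := by linarith
  have hY : y ≤ 0.592 := y_le (m := 2.6704) h hy0 ha0 ha2 hτ hw1 (by norm_num) hv (by norm_num) (by norm_num)
    (by norm_num) (by intro w hw; nlinarith [sq_nonneg (w - 1), sq_nonneg (w - 2.22)]) (by norm_num)
  have hr0 : (10 : ℝ) ≤ r := hr10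
  exact boxR (w1 := 2.22) (v := 0.3215) (Y := 0.592) (r0 := 10) (s2 := 0.2667) (c2 := 0.9637) (τ2 := 0.1359)
    (α2 := 0.2701) (EY := 1.8077) (k := 0.3114) (k4 := 0.4514) (gL := 1.482) (gR := 1.0773) (g4 := 1.1527)
    (sgL := 1.2174) (sgR := 1.038) (sg4 := 1.0737) (sD := 1.0961) (hA := 0.6081) (sA := 2.4659) (XA := 0.01255)
    (hR := 0.4653) (mR := 0.6558) (σR := 0.6713) (XR := 0.00954) (hL := 0.3391) (mL := 0.66) (σL := 0.5918)
    (XL := 0.03368) (sE := 0.4252) (hG := 0.874) (XG := 0.000161) (sR0 := 3.1623) (tgt := 0.1)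
    h hy0 ha0 ha2 hw1 hv hY hr0 (by norm_num)
    (fun _ => Or.inr ⟨by norm_num, by norm_num, legA2 hk hτ (by norm_num)⟩)
    (no_leg ha0 hw2 (by norm_num))
    (by norm_num) (by norm_num) (by norm_num) (by norm_num) (by norm_num) (by norm_num) (by norm_num) (by norm_num) (by norm_num) (by norm_num) (by norm_num)
    (exp_le_of 5 (by norm_num) (by norm_num) (by norm_num) (by norm_num [Finset.sum_range_succ, Nat.factorial])) (by norm_num)
    (exp_le_of 4 (by norm_num) (by norm_num) (by norm_num) (by norm_num [Finset.sum_range_succ, Nat.factorial]))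
    (exp_le_of 4 (by norm_num) (by norm_num) (by norm_num) (by norm_num [Finset.sum_range_succ, Nat.factorial]))
    (by norm_num) (by norm_num)
    (by norm_num) (by norm_num) (by norm_num)
    (by norm_num) (by norm_num) (by norm_num) (by norm_num)
    (by norm_num) (by norm_num) (by norm_num) (by norm_num)
    (by norm_num) (by norm_num)
    (by norm_num) (by norm_num) (by norm_num) (by norm_num) (by norm_num) (by norm_num) (by norm_num) (by norm_num) (by norm_num)
    (by norm_num) (by norm_num) (by norm_num)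
    (exp_neg_le_pow 2 10 (by norm_num) (by norm_num) (by norm_num) (by norm_num [Finset.sum_range_succ, Nat.factorial])) (by norm_num) (by norm_num)
    (by norm_num) (by norm_num)
    (by norm_num) (by norm_num) (by norm_num) (by norm_num) (by norm_num)
    (by norm_num) (by norm_num) (by norm_num) (by norm_num) (exp_neg_le_pow 2 10 (by norm_num) (by norm_num) (by norm_num) (by norm_num [Finset.sum_range_succ, Nat.factorial]))
    (by norm_num) (by norm_num) (by norm_num) (by norm_num) (by norm_num)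
    (by norm_num) (by norm_num) (by norm_num) (by norm_num) (exp_neg_le_pow 2 10 (by norm_num) (by norm_num) (by norm_num) (by norm_num [Finset.sum_range_succ, Nat.factorial]))
    (by norm_num) (exp_neg_le_pow 4 10 (by norm_num) (by norm_num) (by norm_num) (by norm_num [Finset.sum_range_succ, Nat.factorial])) (by norm_num) (by norm_num)
    (by norm_num)

private theorem b2_2 {β r t a y : ℝ} (h : Sad β r t a y) (hy0 : 0 ≤ y) (ha0 : 0 ≤ a) (ha2 : a < Real.pi / 2)
    (hk : 3 ≤ β * r) (hτ : t + β * r ≤ 2.1363) (hr10 : 10 ≤ r)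
    (hw1 : 3.11 ≤ nS (a - t) y) (hw2 : nS (a - t) y ≤ 3.82) :
    |‖AA β r t‖ * Real.sqrt (nD (a - t) y) * Real.exp (-((a - t) * (1 + y) / β)) - 1| ≤ 0.1 := by
  have hv : (0.2617 : ℝ) * nS (a - t) y ≤ 1 := by linarith
  have hY : y ≤ 0.486 := y_le (m := 3.4315) h hy0 ha0 ha2 hτ hw1 (by norm_num) hv (by norm_num) (by norm_num)
    (by norm_num) (by intro w hw; nlinarith [sq_nonneg (w - 1), sq_nonneg (w - 3.11)]) (by norm_num)
  have hr0 : (10 : ℝ) ≤ r := hr10
  exact boxR (w1 := 3.11) (v := 0.2617) (Y := 0.486) (r0 := 10) (s2 := 0.1563) (c2 := 0.9877) (τ2 := 0.0787)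
    (α2 := 0.1571) (EY := 1.6259) (k := 0.3066) (k4 := 0.4416) (gL := 1.5588) (gR := 1.0829) (g4 := 1.1447)
    (sgL := 1.2486) (sgR := 1.0407) (sg4 := 1.07) (sD := 1.0475) (hA := 0.6526) (sA := 2.5546) (XA := 0.00911)
    (hR := 0.5123) (mR := 0.6738) (σR := 0.7894) (XR := 0.00596) (hL := 0.352) (mL := 0.66) (σL := 0.576)
    (XL := 0.02961) (sE := 0.4033) (hG := 0.9027) (XG := 0.000121) (sR0 := 3.1623) (tgt := 0.1)
    h hy0 ha0 ha2 hw1 hv hY hr0 (by norm_num)
    (fun _ => Or.inl ⟨by norm_num, by norm_num, legA1 hk hτ (by norm_num) (by norm_num)⟩)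
    (fun _ => by norm_num)
    (by norm_num) (by norm_num) (by norm_num) (by norm_num) (by norm_num) (by norm_num) (by norm_num) (by norm_num) (by norm_num) (by norm_num) (by norm_num)
    (exp_le_of 4 (by norm_num) (by norm_num) (by norm_num) (by norm_num [Finset.sum_range_succ, Nat.factorial])) (by norm_num)
    (exp_le_of 3 (by norm_num) (by norm_num) (by norm_num) (by norm_num [Finset.sum_range_succ, Nat.factorial]))
    (exp_le_of 4 (by norm_num) (by norm_num) (by norm_num) (by norm_num [Finset.sum_range_succ, Nat.factorial]))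
    (by norm_num) (by norm_num)
    (by norm_num) (by norm_num) (by norm_num)
    (by norm_num) (by norm_num) (by norm_num) (by norm_num)
    (by norm_num) (by norm_num) (by norm_num) (by norm_num)
    (by norm_num) (by norm_num)
    (by norm_num) (by norm_num) (by norm_num) (by norm_num) (by norm_num) (by norm_num) (by norm_num) (by norm_num) (by norm_num)
    (by norm_num) (by norm_num) (by norm_num)
    (exp_neg_le_pow 4 8 (by norm_num) (by norm_num) (by norm_num) (by norm_num [Finset.sum_range_succ, Nat.factorial])) (by norm_num) (by norm_num)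
    (by norm_num) (by norm_num)
    (by norm_num) (by norm_num) (by norm_num) (by norm_num) (by norm_num)
    (by norm_num) (by norm_num) (by norm_num) (by norm_num) (exp_neg_le_pow 4 8 (by norm_num) (by norm_num) (by norm_num) (by norm_num [Finset.sum_range_succ, Nat.factorial]))
    (by norm_num) (by norm_num) (by norm_num) (by norm_num) (by norm_num)
    (by norm_num) (by norm_num) (by norm_num) (by norm_num) (exp_neg_le_pow 2 10 (by norm_num) (by norm_num) (by norm_num) (by norm_num [Finset.sum_range_succ, Nat.factorial]))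
    (by norm_num) (exp_neg_le_pow 4 10 (by norm_num) (by norm_num) (by norm_num) (by norm_num [Finset.sum_range_succ, Nat.factorial])) (by norm_num) (by norm_num)
    (by norm_num)

private theorem b2_3 {β r t a y : ℝ} (h : Sad β r t a y) (hy0 : 0 ≤ y) (ha0 : 0 ≤ a) (ha2 : a < Real.pi / 2)
    (hk : 3 ≤ β * r) (hτ : t + β * r ≤ 2.1363) (hr10 : 10 ≤ r)
    (hw1 : 3.82 ≤ nS (a - t) y) (hw2 : nS (a - t) y ≤ 4.25) :
    |‖AA β r t‖ * Real.sqrt (nD (a - t) y) * Real.exp (-((a - t) * (1 + y) / β)) - 1| ≤ 0.1 := by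
  have hv : (0.2352 : ℝ) * nS (a - t) y ≤ 1 := by linarith
  have hY : y ≤ 0.422 := y_le (m := 4.0817) h hy0 ha0 ha2 hτ hw1 (by norm_num) hv (by norm_num) (by norm_num)
    (by norm_num) (by intro w hw; nlinarith [sq_nonneg (w - 1), sq_nonneg (w - 3.82)]) (by norm_num)
  have hr0 : (10 : ℝ) ≤ r := hr10
  exact boxR (w1 := 3.82) (v := 0.2352) (Y := 0.422) (r0 := 10) (s2 := 0.1105) (c2 := 0.9938) (τ2 := 0.0555)
    (α2 := 0.1109) (EY := 1.5251) (k := 0.3037) (k4 := 0.4358) (gL := 1.5935) (gR := 1.0829) (g4 := 1.1364)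
    (sgL := 1.2624) (sgR := 1.0407) (sg4 := 1.0661) (sD := 1.0302) (hA := 0.6831) (sA := 2.6136) (XA := 0.00732)
    (hR := 0.5425) (mR := 0.6798) (σR := 0.836) (XR := 0.00441) (hL := 0.3627) (mL := 0.66) (σL := 0.569)
    (XL := 0.0266) (sE := 0.3906) (hG := 0.9266) (XG := 0.0000946) (sR0 := 3.1623) (tgt := 0.1)
    h hy0 ha0 ha2 hw1 hv hY hr0 (by norm_num)
    (fun _ => Or.inl ⟨by norm_num, by norm_num, legA1 hk hτ (by norm_num) (by norm_num)⟩)
    (fun _ => by norm_num)
    (by norm_num) (by norm_num) (by norm_num) (by norm_num) (by norm_num) (by norm_num) (by norm_num) (by norm_num) (by norm_num) (by norm_num) (by norm_num)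
    (exp_le_of 4 (by norm_num) (by norm_num) (by norm_num) (by norm_num [Finset.sum_range_succ, Nat.factorial])) (by norm_num)
    (exp_le_of 4 (by norm_num) (by norm_num) (by norm_num) (by norm_num [Finset.sum_range_succ, Nat.factorial]))
    (exp_le_of 4 (by norm_num) (by norm_num) (by norm_num) (by norm_num [Finset.sum_range_succ, Nat.factorial]))
    (by norm_num) (by norm_num)
    (by norm_num) (by norm_num) (by norm_num)
    (by norm_num) (by norm_num) (by norm_num) (by norm_num)
    (by norm_num) (by norm_num) (by norm_num) (by norm_num)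
    (by norm_num) (by norm_num)
    (by norm_num) (by norm_num) (by norm_num) (by norm_num) (by norm_num) (by norm_num) (by norm_num) (by norm_num) (by norm_num)
    (by norm_num) (by norm_num) (by norm_num)
    (exp_neg_le_pow 2 10 (by norm_num) (by norm_num) (by norm_num) (by norm_num [Finset.sum_range_succ, Nat.factorial])) (by norm_num) (by norm_num)
    (by norm_num) (by norm_num)
    (by norm_num) (by norm_num) (by norm_num) (by norm_num) (by norm_num)
    (by norm_num) (by norm_num) (by norm_num) (by norm_num) (exp_neg_le_pow 2 10 (by norm_num) (by norm_num) (by norm_num) (by norm_num [Finset.sum_range_succ, Nat.factorial]))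
    (by norm_num) (by norm_num) (by norm_num) (by norm_num) (by norm_num)
    (by norm_num) (by norm_num) (by norm_num) (by norm_num) (exp_neg_le_pow 2 10 (by norm_num) (by norm_num) (by norm_num) (by norm_num [Finset.sum_range_succ, Nat.factorial]))
    (by norm_num) (exp_neg_le_pow 4 12 (by norm_num) (by norm_num) (by norm_num) (by norm_num [Finset.sum_range_succ, Nat.factorial])) (by norm_num) (by norm_num)
    (by norm_num)

private theorem b2_4 {β r t a y : ℝ} (h : Sad β r t a y) (hy0 : 0 ≤ y) (ha0 : 0 ≤ a) (ha2 : a < Real.pi / 2)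
    (hk : 3 ≤ β * r) (hτ : t + β * r ≤ 2.1363) (hr : 0.5512 * (1 + (β * r) ^ 2) ≤ r)
    (hw1 : 4.25 ≤ nS (a - t) y) (hw2 : nS (a - t) y ≤ 4.96) :
    |‖AA β r t‖ * Real.sqrt (nD (a - t) y) * Real.exp (-((a - t) * (1 + y) / β)) - 1| ≤ 0.1 := by
  have hv : (0.2016 : ℝ) * nS (a - t) y ≤ 1 := by linarith
  have hY : y ≤ 0.39 := y_le (m := 4.4852) h hy0 ha0 ha2 hτ hw1 (by norm_num) hv (by norm_num) (by norm_num)
    (by norm_num) (by intro w hw; nlinarith [sq_nonneg (w - 1), sq_nonneg (w - 4.25)]) (by norm_num)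
  have hr0 : (10.5 : ℝ) ≤ r := r_ge (c := 0.5512) h hy0 hw1 (by norm_num) (by norm_num) hr (by norm_num)
  exact boxR (w1 := 4.25) (v := 0.2016) (Y := 0.39) (r0 := 10.5) (s2 := 0.0918) (c2 := 0.9957) (τ2 := 0.046)
    (α2 := 0.0921) (EY := 1.4771) (k := 0.3023) (k4 := 0.4329) (gL := 1.6452) (gR := 1.0956) (g4 := 1.1456)
    (sgL := 1.2827) (sgR := 1.0468) (sg4 := 1.0704) (sD := 1.0238) (hA := 0.6907) (sA := 2.693) (XA := 0.0054)
    (hR := 0.5537) (mR := 0.6821) (σR := 0.8489) (XR := 0.00299) (hL := 0.3616) (mL := 0.66) (σL := 0.5602)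
    (XL := 0.02245) (sE := 0.3751) (hG := 0.9369) (XG := 0.0000535) (sR0 := 3.2404) (tgt := 0.1)
    h hy0 ha0 ha2 hw1 hv hY hr0 (by norm_num)
    (fun _ => Or.inl ⟨by norm_num, by norm_num, legA1 hk hτ (by norm_num) (by norm_num)⟩)
    (fun _ => by norm_num)
    (by norm_num) (by norm_num) (by norm_num) (by norm_num) (by norm_num) (by norm_num) (by norm_num) (by norm_num) (by norm_num) (by norm_num) (by norm_num)
    (exp_le_of 4 (by norm_num) (by norm_num) (by norm_num) (by norm_num [Finset.sum_range_succ, Nat.factorial])) (by norm_num)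
    (exp_le_of 3 (by norm_num) (by norm_num) (by norm_num) (by norm_num [Finset.sum_range_succ, Nat.factorial]))
    (exp_le_of 4 (by norm_num) (by norm_num) (by norm_num) (by norm_num [Finset.sum_range_succ, Nat.factorial]))
    (by norm_num) (by norm_num)
    (by norm_num) (by norm_num) (by norm_num)
    (by norm_num) (by norm_num) (by norm_num) (by norm_num)
    (by norm_num) (by norm_num) (by norm_num) (by norm_num)
    (by norm_num) (by norm_num)
    (by norm_num) (by norm_num) (by norm_num) (by norm_num) (by norm_num) (by norm_num) (by norm_num) (by norm_num) (by norm_num)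
    (by norm_num) (by norm_num) (by norm_num)
    (exp_neg_le_pow 4 8 (by norm_num) (by norm_num) (by norm_num) (by norm_num [Finset.sum_range_succ, Nat.factorial])) (by norm_num) (by norm_num)
    (by norm_num) (by norm_num)
    (by norm_num) (by norm_num) (by norm_num) (by norm_num) (by norm_num)
    (by norm_num) (by norm_num) (by norm_num) (by norm_num) (exp_neg_le_pow 4 8 (by norm_num) (by norm_num) (by norm_num) (by norm_num [Finset.sum_range_succ, Nat.factorial]))
    (by norm_num) (by norm_num) (by norm_num) (by norm_num) (by norm_num)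
    (by norm_num) (by norm_num) (by norm_num) (by norm_num) (exp_neg_le_pow 2 10 (by norm_num) (by norm_num) (by norm_num) (by norm_num [Finset.sum_range_succ, Nat.factorial]))
    (by norm_num) (exp_neg_le_pow 4 10 (by norm_num) (by norm_num) (by norm_num) (by norm_num [Finset.sum_range_succ, Nat.factorial])) (by norm_num) (by norm_num)
    (by norm_num)

private theorem b2_5 {β r t a y : ℝ} (h : Sad β r t a y) (hy0 : 0 ≤ y) (ha0 : 0 ≤ a) (ha2 : a < Real.pi / 2)
    (hk : 3 ≤ β * r) (hτ : t + β * r ≤ 2.1363) (hr : 0.5512 * (1 + (β * r) ^ 2) ≤ r)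
    (hw1 : 4.96 ≤ nS (a - t) y) (hw2 : nS (a - t) y ≤ 13.07) :
    |‖AA β r t‖ * Real.sqrt (nD (a - t) y) * Real.exp (-((a - t) * (1 + y) / β)) - 1| ≤ 0.1 := by
  have hv : (0.0765 : ℝ) * nS (a - t) y ≤ 1 := by linarith
  have hY : y ≤ 0.347 := y_le (m := 5.1616) h hy0 ha0 ha2 hτ hw1 (by norm_num) hv (by norm_num) (by norm_num)
    (by norm_num) (by intro w hw; nlinarith [sq_nonneg (w - 1), sq_nonneg (w - 4.96)]) (by norm_num)
  have hr0 : (14.11 : ℝ) ≤ r := r_ge (c := 0.5512) h hy0 hw1 (by norm_num) (by norm_num) hr (by norm_num)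
  exact boxR (w1 := 4.96) (v := 0.0765) (Y := 0.347) (r0 := 14.11) (s2 := 0.07) (c2 := 0.9975) (τ2 := 0.0351)
    (α2 := 0.0702) (EY := 1.4149) (k := 0.3004) (k4 := 0.4291) (gL := 1.8749) (gR := 1.1662) (g4 := 1.2134)
    (sgL := 1.3693) (sgR := 1.08) (sg4 := 1.1016) (sD := 1.0168) (hA := 0.6692) (sA := 3.0728) (XA := 0.00112)
    (hR := 0.5512) (mR := 0.6846) (σR := 0.841) (XR := 0.00042) (hL := 0.334) (mL := 0.66) (σL := 0.5272)
    (XL := 0.00899) (sE := 0.3167) (hG := 0.9496) (XG := 0.00000152) (sR0 := 3.7564) (tgt := 0.1)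
    h hy0 ha0 ha2 hw1 hv hY hr0 (by norm_num)
    (fun _ => Or.inl ⟨by norm_num, by norm_num, legA1 hk hτ (by norm_num) (by norm_num)⟩)
    (fun _ => by norm_num)
    (by norm_num) (by norm_num) (by norm_num) (by norm_num) (by norm_num) (by norm_num) (by norm_num) (by norm_num) (by norm_num) (by norm_num) (by norm_num)
    (exp_le_of 4 (by norm_num) (by norm_num) (by norm_num) (by norm_num [Finset.sum_range_succ, Nat.factorial])) (by norm_num)
    (exp_le_of 3 (by norm_num) (by norm_num) (by norm_num) (by norm_num [Finset.sum_range_succ, Nat.factorial]))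
    (exp_le_of 4 (by norm_num) (by norm_num) (by norm_num) (by norm_num [Finset.sum_range_succ, Nat.factorial]))
    (by norm_num) (by norm_num)
    (by norm_num) (by norm_num) (by norm_num)
    (by norm_num) (by norm_num) (by norm_num) (by norm_num)
    (by norm_num) (by norm_num) (by norm_num) (by norm_num)
    (by norm_num) (by norm_num)
    (by norm_num) (by norm_num) (by norm_num) (by norm_num) (by norm_num) (by norm_num) (by norm_num) (by norm_num) (by norm_num)
    (by norm_num) (by norm_num) (by norm_num)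
    (exp_neg_le_pow 4 8 (by norm_num) (by norm_num) (by norm_num) (by norm_num [Finset.sum_range_succ, Nat.factorial])) (by norm_num) (by norm_num)
    (by norm_num) (by norm_num)
    (by norm_num) (by norm_num) (by norm_num) (by norm_num) (by norm_num)
    (by norm_num) (by norm_num) (by norm_num) (by norm_num) (exp_neg_le_pow 4 10 (by norm_num) (by norm_num) (by norm_num) (by norm_num [Finset.sum_range_succ, Nat.factorial]))
    (by norm_num) (by norm_num) (by norm_num) (by norm_num) (by norm_num)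
    (by norm_num) (by norm_num) (by norm_num) (by norm_num) (exp_neg_le_pow 2 10 (by norm_num) (by norm_num) (by norm_num) (by norm_num [Finset.sum_range_succ, Nat.factorial]))
    (by norm_num) (exp_neg_le_pow 4 12 (by norm_num) (by norm_num) (by norm_num) (by norm_num [Finset.sum_range_succ, Nat.factorial])) (by norm_num) (by norm_num)
    (by norm_num)

private theorem b2_6 {β r t a y : ℝ} (h : Sad β r t a y) (hy0 : 0 ≤ y) (ha0 : 0 ≤ a) (ha2 : a < Real.pi / 2)
    (hk : 3 ≤ β * r) (hτ : t + β * r ≤ 2.1363) (hr : 0.5512 * (1 + (β * r) ^ 2) ≤ r)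
    (hw1 : 13.07 ≤ nS (a - t) y) :
    |‖AA β r t‖ * Real.sqrt (nD (a - t) y) * Real.exp (-((a - t) * (1 + y) / β)) - 1| ≤ 0.1 := by
  have hv : (0 : ℝ) * nS (a - t) y ≤ 1 := by rw [zero_mul]; norm_num
  have hY : y ≤ 0.151 := y_le (m := 13.1465) h hy0 ha0 ha2 hτ hw1 (by norm_num) hv (by norm_num) (by norm_num)
    (by norm_num) (by intro w hw; nlinarith [sq_nonneg (w - 1), sq_nonneg (w - 13.07)]) (by norm_num)
  have hr0 : (20 : ℝ) ≤ r := r_ge (c := 0.5512) h hy0 hw1 (by norm_num) (by norm_num) hr (by norm_num)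
  exact boxR (w1 := 13.07) (v := 0) (Y := 0.151) (r0 := 20) (s2 := 0.0116) (c2 := 0.9999) (τ2 := 0.0059)
    (α2 := 0.0118) (EY := 1.1631) (k := 0.292) (k4 := 0.4124) (gL := 1.944) (gR := 1.1555) (g4 := 1.1757)
    (sgL := 1.3943) (sgR := 1.075) (sg4 := 1.0843) (sD := 1.002) (hA := 0.7768) (sA := 3.9415) (XA := 0.0000139)
    (hR := 0.6503) (mR := 0.6903) (σR := 0.8866) (XR := 0.00000225) (hL := 0.3758) (mL := 0.66) (σL := 0.5071)
    (XL := 0.000545) (sE := 0.2412) (hG := 0.9894) (XG := 0.00000000255) (sR0 := 4.4722) (tgt := 0.1)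
    h hy0 ha0 ha2 hw1 hv hY hr0 (by norm_num)
    (fun _ => Or.inl ⟨by norm_num, by norm_num, legA1 hk hτ (by norm_num) (by norm_num)⟩)
    (fun _ => by norm_num)
    (by norm_num) (by norm_num) (by norm_num) (by norm_num) (by norm_num) (by norm_num) (by norm_num) (by norm_num) (by norm_num) (by norm_num) (by norm_num)
    (exp_le_of 3 (by norm_num) (by norm_num) (by norm_num) (by norm_num [Finset.sum_range_succ, Nat.factorial])) (by norm_num)
    (exp_le_of 3 (by norm_num) (by norm_num) (by norm_num) (by norm_num [Finset.sum_range_succ, Nat.factorial]))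
    (exp_le_of 3 (by norm_num) (by norm_num) (by norm_num) (by norm_num [Finset.sum_range_succ, Nat.factorial]))
    (by norm_num) (by norm_num)
    (by norm_num) (by norm_num) (by norm_num)
    (by norm_num) (by norm_num) (by norm_num) (by norm_num)
    (by norm_num) (by norm_num) (by norm_num) (by norm_num)
    (by norm_num) (by norm_num)
    (by norm_num) (by norm_num) (by norm_num) (by norm_num) (by norm_num) (by norm_num) (by norm_num) (by norm_num) (by norm_num)
    (by norm_num) (by norm_num) (by norm_num)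
    (exp_neg_le_pow 4 12 (by norm_num) (by norm_num) (by norm_num) (by norm_num [Finset.sum_range_succ, Nat.factorial])) (by norm_num) (by norm_num)
    (by norm_num) (by norm_num)
    (by norm_num) (by norm_num) (by norm_num) (by norm_num) (by norm_num)
    (by norm_num) (by norm_num) (by norm_num) (by norm_num) (exp_neg_le_pow 4 12 (by norm_num) (by norm_num) (by norm_num) (by norm_num [Finset.sum_range_succ, Nat.factorial]))
    (by norm_num) (by norm_num) (by norm_num) (by norm_num) (by norm_num)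
    (by norm_num) (by norm_num) (by norm_num) (by norm_num) (exp_neg_le_pow 4 10 (by norm_num) (by norm_num) (by norm_num) (by norm_num [Finset.sum_range_succ, Nat.factorial]))
    (by norm_num) (exp_neg_le_pow 8 12 (by norm_num) (by norm_num) (by norm_num) (by norm_num [Finset.sum_range_succ, Nat.factorial])) (by norm_num) (by norm_num)
    (by norm_num)

private theorem b3_0 {β r t a y : ℝ} (h : Sad β r t a y) (hy0 : 0 ≤ y) (ha0 : 0 ≤ a) (ha2 : a < Real.pi / 2)
    (hk : 1.39 ≤ β * r) (hτ : t + β * r ≤ 1.4242) (hr10 : 10 ≤ r)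
    (hw1 : 0.82 ≤ nS (a - t) y) (hw2 : nS (a - t) y ≤ 1.76) :
    |‖AA β r t‖ * Real.sqrt (nD (a - t) y) * Real.exp (-((a - t) * (1 + y) / β)) - 1| ≤ 0.1 := by
  have hv : (0.5681 : ℝ) * nS (a - t) y ≤ 1 := by linarith
  have hY : y ≤ 0.547 := y_le (m := 2) h hy0 ha0 ha2 hτ hw1 (by norm_num) hv (by norm_num) (by norm_num)
    (by norm_num) (by intro w hw; nlinarith [sq_nonneg (w - 1), sq_nonneg (w - 0.82)]) (by norm_num)
  have hr0 : (10 : ℝ) ≤ r := hr10
  exact boxR (w1 := 0.82) (v := 0.5681) (Y := 0.547) (r0 := 10) (s2 := 0.6671) (c2 := 0.7449) (τ2 := 0.3824)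
    (α2 := 0.7328) (EY := 1.7281) (k := 0.3093) (k4 := 0.4472) (gL := 1.2814) (gR := 1.0035) (g4 := 1.0614)
    (sgL := 1.132) (sgR := 1.0018) (sg4 := 1.0303) (sD := 1.4243) (hA := 0.6785) (sA := 2.6048) (XA := 0.00756)
    (hR := 0.4919) (mR := 0.539) (σR := 0.1839) (XR := 0.00731) (hL := 0.4075) (mL := 0.4239) (σL := 0.4753)
    (XL := 0.017) (sE := 0.4158) (hG := 0.6668) (XG := 0.00128) (sR0 := 3.1623) (tgt := 0.1)
    h hy0 ha0 ha2 hw1 hv hY hr0 (by norm_num)
    (fun _ => Or.inl ⟨by norm_num, by norm_num, legA1 hk hτ (by norm_num) (by norm_num)⟩)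
    (no_leg ha0 hw2 (by norm_num))
    (by norm_num) (by norm_num) (by norm_num) (by norm_num) (by norm_num) (by norm_num) (by norm_num) (by norm_num) (by norm_num) (by norm_num) (by norm_num)
    (exp_le_of 5 (by norm_num) (by norm_num) (by norm_num) (by norm_num [Finset.sum_range_succ, Nat.factorial])) (by norm_num)
    (exp_le_of 4 (by norm_num) (by norm_num) (by norm_num) (by norm_num [Finset.sum_range_succ, Nat.factorial]))
    (exp_le_of 4 (by norm_num) (by norm_num) (by norm_num) (by norm_num [Finset.sum_range_succ, Nat.factorial]))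
    (by norm_num) (by norm_num)
    (by norm_num) (by norm_num) (by norm_num)
    (by norm_num) (by norm_num) (by norm_num) (by norm_num)
    (by norm_num) (by norm_num) (by norm_num) (by norm_num)
    (by norm_num) (by norm_num)
    (by norm_num) (by norm_num) (by norm_num) (by norm_num) (by norm_num) (by norm_num) (by norm_num) (by norm_num) (by norm_num)
    (by norm_num) (by norm_num) (by norm_num)
    (exp_neg_le_pow 4 8 (by norm_num) (by norm_num) (by norm_num) (by norm_num [Finset.sum_range_succ, Nat.factorial])) (by norm_num) (by norm_num)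
    (by norm_num) (by norm_num)
    (by norm_num) (by norm_num) (by norm_num) (by norm_num) (by norm_num)
    (by norm_num) (by norm_num) (by norm_num) (by norm_num) (exp_neg_le_pow 4 8 (by norm_num) (by norm_num) (by norm_num) (by norm_num [Finset.sum_range_succ, Nat.factorial]))
    (by norm_num) (by norm_num) (by norm_num) (by norm_num) (by norm_num)
    (by norm_num) (by norm_num) (by norm_num) (by norm_num) (exp_neg_le_pow 2 10 (by norm_num) (by norm_num) (by norm_num) (by norm_num [Finset.sum_range_succ, Nat.factorial]))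
    (by norm_num) (exp_neg_le_pow 2 10 (by norm_num) (by norm_num) (by norm_num) (by norm_num [Finset.sum_range_succ, Nat.factorial])) (by norm_num) (by norm_num)
    (by norm_num)

private theorem b3_1 {β r t a y : ℝ} (h : Sad β r t a y) (hy0 : 0 ≤ y) (ha0 : 0 ≤ a) (ha2 : a < Real.pi / 2)
    (hk : 1.39 ≤ β * r) (hτ : t + β * r ≤ 1.4242) (hr10 : 10 ≤ r)
    (hw1 : 1.76 ≤ nS (a - t) y) (hw2 : nS (a - t) y ≤ 3.36) :
    |‖AA β r t‖ * Real.sqrt (nD (a - t) y) * Real.exp (-((a - t) * (1 + y) / β)) - 1| ≤ 0.1 := by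
  have hv : (0.2976 : ℝ) * nS (a - t) y ≤ 1 := by linarith
  have hY : y ≤ 0.481 := y_le (m := 2.3281) h hy0 ha0 ha2 hτ hw1 (by norm_num) hv (by norm_num) (by norm_num)
    (by norm_num) (by intro w hw; nlinarith [sq_nonneg (w - 1), sq_nonneg (w - 1.76)]) (by norm_num)
  have hr0 : (10 : ℝ) ≤ r := hr10
  exact boxR (w1 := 1.76) (v := 0.2976) (Y := 0.481) (r0 := 10) (s2 := 0.2733) (c2 := 0.9619) (τ2 := 0.1394)
    (α2 := 0.277) (EY := 1.6178) (k := 0.3063) (k4 := 0.4411) (gL := 1.514) (gR := 1.068) (g4 := 1.1283)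
    (sgL := 1.2305) (sgR := 1.0335) (sg4 := 1.0623) (sD := 1.1306) (hA := 0.664) (sA := 2.5768) (XA := 0.00839)
    (hR := 0.5173) (mR := 0.6545) (σR := 0.6567) (XR := 0.00567) (hL := 0.3625) (mL := 0.66) (σL := 0.5855)
    (XL := 0.02665) (sE := 0.4023) (hG := 0.8805) (XG := 0.00015) (sR0 := 3.1623) (tgt := 0.1)
    h hy0 ha0 ha2 hw1 hv hY hr0 (by norm_num)
    (fun _ => Or.inl ⟨by norm_num, by norm_num, legA1 hk hτ (by norm_num) (by norm_num)⟩)
    (fun _ => by norm_num)
    (by norm_num) (by norm_num) (by norm_num) (by norm_num) (by norm_num) (by norm_num) (by norm_num) (by norm_num) (by norm_num) (by norm_num) (by norm_num)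
    (exp_le_of 4 (by norm_num) (by norm_num) (by norm_num) (by norm_num [Finset.sum_range_succ, Nat.factorial])) (by norm_num)
    (exp_le_of 4 (by norm_num) (by norm_num) (by norm_num) (by norm_num [Finset.sum_range_succ, Nat.factorial]))
    (exp_le_of 4 (by norm_num) (by norm_num) (by norm_num) (by norm_num [Finset.sum_range_succ, Nat.factorial]))
    (by norm_num) (by norm_num)
    (by norm_num) (by norm_num) (by norm_num)
    (by norm_num) (by norm_num) (by norm_num) (by norm_num)
    (by norm_num) (by norm_num) (by norm_num) (by norm_num)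
    (by norm_num) (by norm_num)
    (by norm_num) (by norm_num) (by norm_num) (by norm_num) (by norm_num) (by norm_num) (by norm_num) (by norm_num) (by norm_num)
    (by norm_num) (by norm_num) (by norm_num)
    (exp_neg_le_pow 4 10 (by norm_num) (by norm_num) (by norm_num) (by norm_num [Finset.sum_range_succ, Nat.factorial])) (by norm_num) (by norm_num)
    (by norm_num) (by norm_num)
    (by norm_num) (by norm_num) (by norm_num) (by norm_num) (by norm_num)
    (by norm_num) (by norm_num) (by norm_num) (by norm_num) (exp_neg_le_pow 4 8 (by norm_num) (by norm_num) (by norm_num) (by norm_num [Finset.sum_range_succ, Nat.factorial]))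
    (by norm_num) (by norm_num) (by norm_num) (by norm_num) (by norm_num)
    (by norm_num) (by norm_num) (by norm_num) (by norm_num) (exp_neg_le_pow 4 8 (by norm_num) (by norm_num) (by norm_num) (by norm_num [Finset.sum_range_succ, Nat.factorial]))
    (by norm_num) (exp_neg_le_pow 4 12 (by norm_num) (by norm_num) (by norm_num) (by norm_num [Finset.sum_range_succ, Nat.factorial])) (by norm_num) (by norm_num)
    (by norm_num)

private theorem b3_2 {β r t a y : ℝ} (h : Sad β r t a y) (hy0 : 0 ≤ y) (ha0 : 0 ≤ a) (ha2 : a < Real.pi / 2)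
    (hk : 1.39 ≤ β * r) (hτ : t + β * r ≤ 1.4242) (hr : 1.2402 * (1 + (β * r) ^ 2) ≤ r)
    (hw1 : 3.36 ≤ nS (a - t) y) (hw2 : nS (a - t) y ≤ 18.9) :
    |‖AA β r t‖ * Real.sqrt (nD (a - t) y) * Real.exp (-((a - t) * (1 + y) / β)) - 1| ≤ 0.1 := by
  have hv : (0.0529 : ℝ) * nS (a - t) y ≤ 1 := by linarith
  have hY : y ≤ 0.33 := y_le (m := 3.6576) h hy0 ha0 ha2 hτ hw1 (by norm_num) hv (by norm_num) (by norm_num)
    (by norm_num) (by intro w hw; nlinarith [sq_nonneg (w - 1), sq_nonneg (w - 3.36)]) (by norm_num)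
  have hr0 : (15.24 : ℝ) ≤ r := r_ge (c := 1.2402) h hy0 hw1 (by norm_num) (by norm_num) hr (by norm_num)
  exact boxR (w1 := 3.36) (v := 0.0529) (Y := 0.33) (r0 := 15.24) (s2 := 0.0983) (c2 := 0.9951) (τ2 := 0.0493)
    (α2 := 0.0986) (EY := 1.391) (k := 0.2997) (k4 := 0.4277) (gL := 1.9206) (gR := 1.1779) (g4 := 1.2232)
    (sgL := 1.3859) (sgR := 1.0854) (sg4 := 1.106) (sD := 1.0349) (hA := 0.6707) (sA := 3.1971) (XA := 0.000637)
    (hR := 0.5553) (mR := 0.6813) (σR := 0.8022) (XR := 0.000212) (hL := 0.3315) (mL := 0.66) (σL := 0.521)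
    (XL := 0.0064) (sE := 0.3022) (hG := 0.9514) (XG := 0.000000505) (sR0 := 3.9039) (tgt := 0.1)
    h hy0 ha0 ha2 hw1 hv hY hr0 (by norm_num)
    (fun _ => Or.inl ⟨by norm_num, by norm_num, legA1 hk hτ (by norm_num) (by norm_num)⟩)
    (fun _ => by norm_num)
    (by norm_num) (by norm_num) (by norm_num) (by norm_num) (by norm_num) (by norm_num) (by norm_num) (by norm_num) (by norm_num) (by norm_num) (by norm_num)
    (exp_le_of 4 (by norm_num) (by norm_num) (by norm_num) (by norm_num [Finset.sum_range_succ, Nat.factorial])) (by norm_num)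
    (exp_le_of 3 (by norm_num) (by norm_num) (by norm_num) (by norm_num [Finset.sum_range_succ, Nat.factorial]))
    (exp_le_of 3 (by norm_num) (by norm_num) (by norm_num) (by norm_num [Finset.sum_range_succ, Nat.factorial]))
    (by norm_num) (by norm_num)
    (by norm_num) (by norm_num) (by norm_num)
    (by norm_num) (by norm_num) (by norm_num) (by norm_num)
    (by norm_num) (by norm_num) (by norm_num) (by norm_num)
    (by norm_num) (by norm_num)
    (by norm_num) (by norm_num) (by norm_num) (by norm_num) (by norm_num) (by norm_num) (by norm_num) (by norm_num) (by norm_num)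
    (by norm_num) (by norm_num) (by norm_num)
    (exp_neg_le_pow 4 10 (by norm_num) (by norm_num) (by norm_num) (by norm_num [Finset.sum_range_succ, Nat.factorial])) (by norm_num) (by norm_num)
    (by norm_num) (by norm_num)
    (by norm_num) (by norm_num) (by norm_num) (by norm_num) (by norm_num)
    (by norm_num) (by norm_num) (by norm_num) (by norm_num) (exp_neg_le_pow 4 10 (by norm_num) (by norm_num) (by norm_num) (by norm_num [Finset.sum_range_succ, Nat.factorial]))
    (by norm_num) (by norm_num) (by norm_num) (by norm_num) (by norm_num)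
    (by norm_num) (by norm_num) (by norm_num) (by norm_num) (exp_neg_le_pow 2 10 (by norm_num) (by norm_num) (by norm_num) (by norm_num [Finset.sum_range_succ, Nat.factorial]))
    (by norm_num) (exp_neg_le_pow 8 10 (by norm_num) (by norm_num) (by norm_num) (by norm_num [Finset.sum_range_succ, Nat.factorial])) (by norm_num) (by norm_num)
    (by norm_num)

private theorem b3_3 {β r t a y : ℝ} (h : Sad β r t a y) (hy0 : 0 ≤ y) (ha0 : 0 ≤ a) (ha2 : a < Real.pi / 2)
    (hk : 1.39 ≤ β * r) (hτ : t + β * r ≤ 1.4242) (hr : 1.2402 * (1 + (β * r) ^ 2) ≤ r)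
    (hw1 : 18.9 ≤ nS (a - t) y) :
    |‖AA β r t‖ * Real.sqrt (nD (a - t) y) * Real.exp (-((a - t) * (1 + y) / β)) - 1| ≤ 0.1 := by
  have hv : (0 : ℝ) * nS (a - t) y ≤ 1 := by rw [zero_mul]; norm_num
  have hY : y ≤ 0.073 := y_le (m := 18.9529) h hy0 ha0 ha2 hτ hw1 (by norm_num) hv (by norm_num) (by norm_num)
    (by norm_num) (by intro w hw; nlinarith [sq_nonneg (w - 1), sq_nonneg (w - 18.9)]) (by norm_num)
  have hr0 : (20 : ℝ) ≤ r := r_ge (c := 1.2402) h hy0 hw1 (by norm_num) (by norm_num) hr (by norm_num)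
  exact boxR (w1 := 18.9) (v := 0) (Y := 0.073) (r0 := 20) (s2 := 0.0039) (c2 := 0.9999) (τ2 := 0.002)
    (α2 := 0.0041) (EY := 1.0758) (k := 0.2888) (k4 := 0.406) (gL := 1.9012) (gR := 1.1301) (g4 := 1.1395)
    (sgL := 1.3789) (sgR := 1.0631) (sg4 := 1.0675) (sD := 1.0009) (hA := 0.8399) (sA := 4.0985)
    (XA := 0.00000559) (hR := 0.7031) (mR := 0.691) (σR := 0.8952) (XR := 0.000000782) (hL := 0.4063)
    (mL := 0.66) (σL := 0.5071) (XL := 0.000296) (sE := 0.232) (hG := 0.9972) (XG := 0.00000000218)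
    (sR0 := 4.4722) (tgt := 0.1)
    h hy0 ha0 ha2 hw1 hv hY hr0 (by norm_num)
    (fun _ => Or.inl ⟨by norm_num, by norm_num, legA1 hk hτ (by norm_num) (by norm_num)⟩)
    (fun _ => by norm_num)
    (by norm_num) (by norm_num) (by norm_num) (by norm_num) (by norm_num) (by norm_num) (by norm_num) (by norm_num) (by norm_num) (by norm_num) (by norm_num)
    (exp_le_of 3 (by norm_num) (by norm_num) (by norm_num) (by norm_num [Finset.sum_range_succ, Nat.factorial])) (by norm_num)
    (exp_le_of 3 (by norm_num) (by norm_num) (by norm_num) (by norm_num [Finset.sum_range_succ, Nat.factorial]))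
    (exp_le_of 3 (by norm_num) (by norm_num) (by norm_num) (by norm_num [Finset.sum_range_succ, Nat.factorial]))
    (by norm_num) (by norm_num)
    (by norm_num) (by norm_num) (by norm_num)
    (by norm_num) (by norm_num) (by norm_num) (by norm_num)
    (by norm_num) (by norm_num) (by norm_num) (by norm_num)
    (by norm_num) (by norm_num)
    (by norm_num) (by norm_num) (by norm_num) (by norm_num) (by norm_num) (by norm_num) (by norm_num) (by norm_num) (by norm_num)
    (by norm_num) (by norm_num) (by norm_num)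
    (exp_neg_le_pow 8 12 (by norm_num) (by norm_num) (by norm_num) (by norm_num [Finset.sum_range_succ, Nat.factorial])) (by norm_num) (by norm_num)
    (by norm_num) (by norm_num)
    (by norm_num) (by norm_num) (by norm_num) (by norm_num) (by norm_num)
    (by norm_num) (by norm_num) (by norm_num) (by norm_num) (exp_neg_le_pow 8 10 (by norm_num) (by norm_num) (by norm_num) (by norm_num [Finset.sum_range_succ, Nat.factorial]))
    (by norm_num) (by norm_num) (by norm_num) (by norm_num) (by norm_num)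
    (by norm_num) (by norm_num) (by norm_num) (by norm_num) (exp_neg_le_pow 4 10 (by norm_num) (by norm_num) (by norm_num) (by norm_num [Finset.sum_range_succ, Nat.factorial]))
    (by norm_num) (exp_neg_le_pow 16 10 (by norm_num) (by norm_num) (by norm_num) (by norm_num [Finset.sum_range_succ, Nat.factorial])) (by norm_num) (by norm_num)
    (by norm_num)

/-- **value at the right saddle**, `b = 2`, `κ ≥ 3`, `t ≤ -κ + 0.68 h` -/
theorem val1_b2 {β r t a y : ℝ} (h : Sad β r t a y) (hy0 : 0 ≤ y) (ha0 : 0 ≤ a) (ha2 : a < Real.pi / 2)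
    (hk : 3 ≤ β * r) (hτ : t + β * r ≤ 2.1363) (hr10 : 10 ≤ r) (hr : 0.5512 * (1 + (β * r) ^ 2) ≤ r) :
    |‖AA β r t‖ * Real.sqrt (nD (a - t) y) * Real.exp (-((a - t) * (1 + y) / β)) - 1| ≤ 0.1 := by
  have hw : 1.5 ≤ nS (a - t) y := by
    have hE : Real.exp 0.693 ≤ 1.99999 := exp_le_of 5 (by norm_num) (by norm_num) (by norm_num)
      (by norm_num [Finset.sum_range_succ, Nat.factorial])
    have hS := sin_le_five (z := 0.48) (by norm_num)
    refine w_ge (y1 := 0.693) (a1 := 0.48) (x1 := 1.3304) h ha0 ha2 hk hτ (by norm_num) (by norm_num) (by norm_num) (by norm_num)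
      ?_ ?_ (by norm_num) (by norm_num) (by norm_num)
    · linarith
    · norm_num at hS
      linarith
  rcases le_total (nS (a - t) y) 2.22 with c0 | c0
  · exact b2_0 h hy0 ha0 ha2 hk hτ hr10 hw c0
  rcases le_total (nS (a - t) y) 3.11 with c1 | c1
  · exact b2_1 h hy0 ha0 ha2 hk hτ hr10 c0 c1
  rcases le_total (nS (a - t) y) 3.82 with c2 | c2
  · exact b2_2 h hy0 ha0 ha2 hk hτ hr10 c1 c2
  rcases le_total (nS (a - t) y) 4.25 with c3 | c3
  · exact b2_3 h hy0 ha0 ha2 hk hτ hr10 c2 c3
  rcases le_total (nS (a - t) y) 4.96 with c4 | c4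
  · exact b2_4 h hy0 ha0 ha2 hk hτ hr c3 c4
  rcases le_total (nS (a - t) y) 13.07 with c5 | c5
  · exact b2_5 h hy0 ha0 ha2 hk hτ hr c4 c5
  exact b2_6 h hy0 ha0 ha2 hk hτ hr c5

/-- **value at the right saddle**, `b ≥ 3`, `κ ≥ 1.39`, `t ≤ -κ + 0.68 · 2π/3` -/
theorem val1_b3 {β r t a y : ℝ} (h : Sad β r t a y) (hy0 : 0 ≤ y) (ha0 : 0 ≤ a) (ha2 : a < Real.pi / 2)
    (hk : 1.39 ≤ β * r) (hτ : t + β * r ≤ 1.4242) (hr10 : 10 ≤ r) (hr : 1.2402 * (1 + (β * r) ^ 2) ≤ r) :
    |‖AA β r t‖ * Real.sqrt (nD (a - t) y) * Real.exp (-((a - t) * (1 + y) / β)) - 1| ≤ 0.1 := by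
  have hw : 0.82 ≤ nS (a - t) y := by
    have hE : Real.exp 0.5277 ≤ 1.69512 := exp_le_of 5 (by norm_num) (by norm_num) (by norm_num)
      (by norm_num [Finset.sum_range_succ, Nat.factorial])
    have hS := sin_le_five (z := 0.69) (by norm_num)
    refine w_ge (y1 := 0.5277) (a1 := 0.69) (x1 := 0.6277) h ha0 ha2 hk hτ (by norm_num) (by norm_num) (by norm_num) (by norm_num)
      ?_ ?_ (by norm_num) (by norm_num) (by norm_num)
    · linarith
    · norm_num at hS
      linarith
  rcases le_total (nS (a - t) y) 1.76 with c0 | c0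
  · exact b3_0 h hy0 ha0 ha2 hk hτ hr10 hw c0
  rcases le_total (nS (a - t) y) 3.36 with c1 | c1
  · exact b3_1 h hy0 ha0 ha2 hk hτ hr10 c0 c1
  rcases le_total (nS (a - t) y) 18.9 with c2 | c2
  · exact b3_2 h hy0 ha0 ha2 hk hτ hr c1 c2
  exact b3_3 h hy0 ha0 ha2 hk hτ hr c2

end Sok.N1
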