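import Pool.Agent.Lib.MP_816dec_an.PEnd

/-!
MP_816dec_an, final assembly: the frozen statement from `Nice q` on the unit circle and claim (5.2).
-/

open Complex Set Filter Topology

namespace SokC

open Sok

theorem F_one (z : ℂ) : F 1 z = exp z := by
  rw [F_eq, Complex.exp_eq_exp_ℂ, NormedSpace.exp_eq_tsum_div]
  refine tsum_congr fun k => ?_
  rw [tm, one_pow, one_mul]

/-- helper28's form of frames: `|z i| < |q| |z (i+1)|` gives both predicates -/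
theorem frame_of_incr {q : ℂ} (hq0 : q ≠ 0) (hq : ‖q‖ ≤ 1) {N : ℕ} {z : ℕ → ℂ}
    (zero : ∀ i < N, F q (z i) = 0) (simple : ∀ i < N, F q (q * z i) ≠ 0)
    (incr : ∀ i, i + 1 < N → ‖z i‖ < ‖q‖ * ‖z (i + 1)‖)
    (complete : ∀ w, F q w = 0 → (∃ i < N, ‖w‖ ≤ ‖z i‖) → ∃ i < N, w = z i) :
    Frame q N z ∧ Strong q N z := by
  have hq1 : 0 < ‖q‖ := norm_pos_iff.2 hq0
  have hst : Strong q N z := by
    intro i j hij hj
    induction j with
    | zero => omega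
    | succ j ih =>
      rcases Nat.lt_succ_iff_lt_or_eq.1 hij with h | h
      · have h1 := ih h (by omega)
        have h2 := incr j hj
        have h3 : ‖q‖ * ‖z j‖ ≤ ‖z j‖ := by
          have := norm_nonneg (z j)
          nlinarith
        linarith
      · rw [h]; exact incr j hj
  refine ⟨⟨zero, simple, ?_, ?_⟩, hst⟩
  · intro i j hij hj
    have h1 := hst i j hij hj
    have h2 : ‖q‖ * ‖z j‖ ≤ ‖z j‖ := by
      have := norm_nonneg (z j)
      nlinarith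
    linarith
  · intro w hw i hi hwi
    exact complete w hw ⟨i, hi, hwi⟩

/-- the frozen statement -/
theorem assembly (h1 : ∀ q : ℂ, ‖q‖ = 1 → q ≠ 1 → Nice q)
    (h52 : ∀ N : ℕ, ∃ ε > 0, ∀ q : ℂ, ‖q‖ ≤ 1 → q ≠ 1 → ‖q - 1‖ < ε →
      ∃ z : ℕ → ℂ, Frame q N z ∧ Strong q N z) : ∀ q : ℂ, 0 < ‖q‖ → ‖q‖ ≤ 1 →
    (∀ z : ℂ, (∑' k : ℕ, q ^ (k * (k - 1) / 2) * z ^ k / (k.factorial : ℂ)) = 0 →
      deriv (fun w : ℂ => ∑' k : ℕ, q ^ (k * (k - 1) / 2) * w ^ k / (k.factorial : ℂ)) z ≠ 0) ∧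
    (∀ z w : ℂ, (∑' k : ℕ, q ^ (k * (k - 1) / 2) * z ^ k / (k.factorial : ℂ)) = 0 →
      (∑' k : ℕ, q ^ (k * (k - 1) / 2) * w ^ k / (k.factorial : ℂ)) = 0 →
      ‖z‖ = ‖w‖ → z = w) := by
  intro q hq0 hq
  have key : (∀ z, F q z = 0 → F q (q * z) ≠ 0) ∧ ∀ z w, F q z = 0 → F q w = 0 → ‖z‖ = ‖w‖ → z = w := by
    by_cases hq1 : q = 1
    · subst hq1
      constructor
      · intro z hz
        rw [F_one] at hz
        exact absurd hz (exp_ne_zero z)
      · intro z w hz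
        rw [F_one] at hz
        exact absurd hz (exp_ne_zero z)
    · rcases lt_or_eq_of_le hq with h | h
      · exact partC h1 h52 (norm_pos_iff.1 hq0) h
      · exact h1 q h hq1
  refine ⟨fun z hz => ?_, key.2⟩
  have e : (fun w : ℂ => ∑' k : ℕ, q ^ (k * (k - 1) / 2) * w ^ k / (k.factorial : ℂ)) = F q := rfl
  rw [e, deriv_F hq]
  exact key.1 z hz

end SokC
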