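import Pool.Agent.Lib.MP_816dec_an.PDefs

/-!
MP_816dec_an, part C, row LOG: bound for l (Borel-Caratheodory, `Complex.borelCaratheodory_zero`).
Recipe. b1 := (max a b' + b) / 2, so a < b1, b' < b1 < b. On |ζ| = b1: |exp (l ζ)| = |F q ζ| / ∏ |1 - ζ/w_i|
≤ exp b1 * (a / (b1 - a)) ^ N (as |1 - ζ/w_i| ≥ b1/a - 1). Maximum modulus for exp ∘ l on |z| ≤ b1:
Re (l z) ≤ b1 + N * log (a / (b1 - a)) ≤ M0 := b1 + N |log (a / (b1 - a))| + 1. Borel-Caratheodory on
ball 0 b1: |l z| ≤ 2 M0 b' / (b1 - b').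
-/

open Complex Set Filter Topology

namespace SokC

open Sok

theorem log_bound (N : ℕ) {a b' b : ℝ} (ha : 0 < a) (hab : a < b) (hb' : b' < b) :
    ∃ M : ℝ, 0 ≤ M ∧ ∀ (q : ℂ) (w : ℕ → ℂ) (l : ℂ → ℂ), ‖q‖ ≤ 1 → Fac q N w b l →
      (∀ i < N, ‖w i‖ ≤ a) → ∀ z : ℂ, ‖z‖ ≤ b' → ‖l z‖ ≤ M := by
  obtain ⟨b1, hb1⟩ : ∃ b1 : ℝ, b1 = (max a b' + b) / 2 := ⟨_, rfl⟩
  have hm : max a b' < b := max_lt hab hb'
  have h1 : a < b1 := by
    have := le_max_left a b'
    rw [hb1]; linarith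
  have h2 : b' < b1 := by
    have := le_max_right a b'
    rw [hb1]; linarith
  have h3 : b1 < b := by rw [hb1]; linarith
  have hb10 : 0 < b1 := ha.trans h1
  obtain ⟨E, hE⟩ : ∃ E : ℝ, E = Real.exp b1 / ((b1 - a) / a) ^ N := ⟨_, rfl⟩
  have hda : 0 < (b1 - a) / a := div_pos (by linarith) ha
  have hEpos : 0 < E := by rw [hE]; positivity
  obtain ⟨M0, hM0⟩ : ∃ M0 : ℝ, M0 = |Real.log E| + 1 := ⟨_, rfl⟩
  have hM0pos : 0 < M0 := by rw [hM0]; positivity
  refine ⟨2 * M0 * |b'| / (b1 - b'), ?_, ?_⟩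
  · have : 0 < b1 - b' := by linarith
    positivity
  intro q w l hq hF hw z hz
  have hb'0 : 0 ≤ b' := (norm_nonneg z).trans hz
  have hsub : Metric.closedBall (0:ℂ) b1 ⊆ Metric.ball 0 b := Metric.closedBall_subset_ball h3
  have hdl : DifferentiableOn ℂ (fun x => exp (l x)) (Metric.closedBall 0 b1) :=
    (hF.dif.mono hsub).cexp
  have hcl : DiffContOnCl ℂ (fun x => exp (l x)) (Metric.ball 0 b1) := by
    refine ⟨hdl.mono Metric.ball_subset_closedBall, ?_⟩
    rw [closure_ball _ hb10.ne']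
    exact hdl.continuousOn
  have hfr : ∀ x ∈ frontier (Metric.ball (0:ℂ) b1), ‖exp (l x)‖ ≤ E := by
    intro x hx
    rw [frontier_ball _ hb10.ne', mem_sphere_zero_iff_norm] at hx
    have hxb : x ∈ Metric.ball (0:ℂ) b := by rw [mem_ball_zero_iff, hx]; exact h3
    have h4 := hF.eq x hxb
    have h5 : ((b1 - a) / a) ^ N ≤ ‖∏ i ∈ Finset.range N, (1 - x / w i)‖ := by
      have : ((b1 - a) / a) ^ N = ∏ i ∈ Finset.range N, ((b1 - a) / a) := by
        rw [Finset.prod_const, Finset.card_range]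
      rw [norm_prod, this]
      refine Finset.prod_le_prod (fun i _ => hda.le) (fun i hi => ?_)
      have hi' := Finset.mem_range.1 hi
      have hwi := hF.ne i hi'
      have hwa := hw i hi'
      have h6 : b1 / a ≤ ‖x / w i‖ := by
        rw [norm_div, hx]
        exact div_le_div_of_nonneg_left hb10.le (norm_pos_iff.2 hwi) hwa
      have h7 := norm_sub_norm_le (x / w i) 1
      rw [norm_one, norm_sub_rev] at h7
      have h8 : (b1 - a) / a = b1 / a - 1 := by field_simp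
      rw [h8]
      linarith
    have h6 : ‖F q x‖ ≤ Real.exp b1 := by
      have := norm_F_le hq x
      rwa [hx] at this
    rw [h4, norm_mul] at h6
    rw [hE, le_div_iff₀ (by positivity)]
    calc ‖exp (l x)‖ * ((b1 - a) / a) ^ N
        ≤ ‖exp (l x)‖ * ‖∏ i ∈ Finset.range N, (1 - x / w i)‖ :=
          mul_le_mul_of_nonneg_left h5 (norm_nonneg _)
      _ ≤ Real.exp b1 := by rw [mul_comm]; exact h6
  have hre : Set.MapsTo l (Metric.ball 0 b1) {z | z.re ≤ M0} := by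
    intro x hx
    have h4 := Complex.norm_le_of_forall_mem_frontier_norm_le Metric.isBounded_ball hcl hfr
      (subset_closure hx)
    rw [Complex.norm_exp] at h4
    have h5 := (Real.le_log_iff_exp_le hEpos).2 h4
    show (l x).re ≤ M0
    have := le_abs_self (Real.log E)
    rw [hM0]; linarith
  have hzb : z ∈ Metric.ball (0:ℂ) b1 := by rw [mem_ball_zero_iff]; linarith
  have h4 := Complex.borelCaratheodory_zero hM0pos
    (hF.dif.mono (Metric.ball_subset_ball h3.le)) hre hb10 hzb hF.l0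
  refine h4.trans ?_
  rw [abs_of_nonneg hb'0]
  have h5 : 0 < b1 - b' := by linarith
  have h6 : b1 - b' ≤ b1 - ‖z‖ := by linarith
  have h7 : 2 * M0 * ‖z‖ ≤ 2 * M0 * b' := by
    apply mul_le_mul_of_nonneg_left hz; positivity
  exact div_le_div₀ (by positivity) h7 h5 h6

end SokC
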