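import Pool.Agent.Lib.MP_816dec_an.PPoly
import Pool.Agent.Lib.MP_816dec_an.PLog

open Complex Set Filter Topology

namespace SokC

open Sok

theorem cf_bound {f : ℂ → ℂ} {a C : ℝ} (ha : 0 < a) (hf : DiffContOnCl ℂ f (Metric.ball 0 a))
    (hC : ∀ z ∈ Metric.sphere (0:ℂ) a, ‖f z‖ ≤ C) (k : ℕ) : ‖cf f k‖ ≤ C / a ^ k := by
  have h := Complex.norm_iteratedDeriv_le_of_forall_mem_sphere_norm_le k ha hf hC
  unfold cf
  have h2 : (0:ℝ) < (k.factorial : ℝ) := Nat.cast_pos.2 (Nat.factorial_pos k)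
  rw [norm_div, Complex.norm_natCast, div_le_iff₀ h2]
  calc ‖iteratedDeriv k f 0‖ ≤ k.factorial * C / a ^ k := h
    _ = C / a ^ k * k.factorial := by ring

theorem cf_hasSum {f : ℂ → ℂ} {b : ℝ} (hf : DifferentiableOn ℂ f (Metric.ball 0 b)) {z : ℂ}
    (hz : z ∈ Metric.ball (0:ℂ) b) : HasSum (fun k => cf f k * z ^ k) (f z) := by
  have h := Complex.hasSum_taylorSeries_on_ball hf hz
  have e : (fun k => cf f k * z ^ k) = fun n : ℕ => (n.factorial : ℂ)⁻¹ • (z - 0) ^ n • iteratedDeriv n f 0 := by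
    funext k
    rw [cf, smul_eq_mul, smul_eq_mul, sub_zero]
    ring
  rw [e]
  exact h

theorem cf_sub {f g : ℂ → ℂ} {b : ℝ} (hb : 0 < b) (hf : DifferentiableOn ℂ f (Metric.ball 0 b))
    (hg : DifferentiableOn ℂ g (Metric.ball 0 b)) (k : ℕ) :
    cf (fun z => f z - g z) k = cf f k - cf g k := by
  refine cf_of_hasSum (a := fun k => cf f k - cf g k) ?_ k
  filter_upwards [Metric.ball_mem_nhds (0:ℂ) hb] with z hz
  have := (cf_hasSum hf hz).sub (cf_hasSum hg hz)
  simpa only [sub_mul] using this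

theorem cf_congr {f g : ℂ → ℂ} (h : f =ᶠ[𝓝 0] g) (k : ℕ) : cf f k = cf g k := by
  unfold cf
  rw [h.iteratedDeriv_eq k]

theorem cf_poly {N m : ℕ} (hm : 0 < m) (c : ℕ → ℂ) {j : ℕ} (hj : j ≤ N) :
    cf (fun z => ∑ i ∈ Finset.range (N + 1), c i * z ^ (i * m)) (j * m) = c j := by
  rw [cf_of_hasSum (a := fun k => ∑ i ∈ Finset.range (N + 1), if k = i * m then c i else 0)
    (Filter.Eventually.of_forall fun z => ?_)]
  · rw [Finset.sum_eq_single j]
    · simp
    · intro i _ hij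
      rw [if_neg]
      intro h
      exact hij (Nat.eq_of_mul_eq_mul_right hm h).symm
    · intro h; exact absurd (Finset.mem_range.2 (by omega)) h
  · simp only [Finset.sum_mul]
    refine hasSum_sum fun i _ => ?_
    have := hasSum_single (f := fun k => (if k = i * m then c i else 0) * z ^ k) (i * m)
      (fun k hk => by simp [hk])
    simpa using this

theorem prod_om {m : ℕ} (hm : 0 < m) (x : ℂ) : ∏ l ∈ Finset.range m, (1 - om m ^ l * x) = 1 - x ^ m := by
  have h := (om_prim hm).pow_sub_pow_eq_prod_sub_mul 1 x hm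
  rw [one_pow] at h
  rw [h]
  refine Finset.prod_bij (fun l _ => om m ^ l) ?_ ?_ ?_ ?_
  · intro l _
    rw [Polynomial.mem_nthRootsFinset hm]
    rw [← pow_mul, mul_comm, pow_mul, (om_prim hm).pow_eq_one, one_pow]
  · intro l hl l' hl' h
    exact (om_prim hm).pow_inj (Finset.mem_range.1 hl) (Finset.mem_range.1 hl') h
  · intro y hy
    rw [Polynomial.mem_nthRootsFinset hm] at hy
    have : NeZero m := ⟨hm.ne'⟩
    obtain ⟨i, hi, h⟩ := (om_prim hm).eq_pow_of_pow_eq_one hy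
    exact ⟨i, Finset.mem_range.2 hi, h⟩
  · intro l _; rfl

theorem sum_om {m k : ℕ} (hk : 0 < k) (hkm : k < m) : ∑ l ∈ Finset.range m, (om m ^ l) ^ k = 0 := by
  have hm : 0 < m := by omega
  have h1 : om m ^ k ≠ 1 := by
    intro h
    have := (om_prim hm).dvd_of_pow_eq_one k h
    exact absurd (Nat.le_of_dvd hk this) (by omega)
  have h2 : ∀ l, (om m ^ l) ^ k = (om m ^ k) ^ l := fun l => by rw [← pow_mul, ← pow_mul, mul_comm]
  simp only [h2]
  rw [geom_sum_eq h1, ← pow_mul, mul_comm, pow_mul, (om_prim hm).pow_eq_one, one_pow, sub_self, zero_div]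

theorem prod_expand (N m : ℕ) (w : ℕ → ℂ) (z : ℂ) :
    ∏ i ∈ Finset.range N, (1 - (z / w i) ^ m) =
      ∑ j ∈ Finset.range (N + 1), ((-1) ^ j * es N j m w) * z ^ (j * m) := by
  have h1 : ∀ i, 1 - (z / w i) ^ m = -((z / w i) ^ m) + 1 := fun i => by ring
  simp only [h1]
  rw [Finset.prod_add, Finset.sum_powerset]
  rw [Finset.card_range]
  refine Finset.sum_congr rfl fun j _ => ?_
  rw [es, Finset.mul_sum, Finset.sum_mul]
  refine Finset.sum_congr rfl fun S hS => ?_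
  rw [Finset.mem_powersetCard] at hS
  rw [Finset.prod_const_one, mul_one, Finset.prod_neg, hS.2, mul_assoc]
  congr 1
  simp only [div_eq_mul_inv, mul_pow]
  rw [Finset.prod_mul_distrib, Finset.prod_const, hS.2, ← pow_mul, mul_comm m j, mul_comm]

theorem norm_exp_sub_one (x : ℂ) : ‖exp x - 1‖ ≤ Real.exp ‖x‖ - 1 := by
  have h := Complex.norm_exp_sub_sum_le_exp_norm_sub_sum x 1
  simpa using h

/-- the sum of `l` over the rotated points -/
theorem sum_l_bound {b a b' M : ℝ} {l : ℂ → ℂ} (ha : 0 < a) (hab : a < b') (hb' : b' < b)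
    (hl : DifferentiableOn ℂ l (Metric.ball 0 b)) (l0 : l 0 = 0)
    (hM : ∀ z : ℂ, ‖z‖ ≤ b' → ‖l z‖ ≤ M) {m : ℕ} (hm : 0 < m) {z : ℂ} (hz : ‖z‖ = a) :
    ‖∑ k ∈ Finset.range m, l (om m ^ k * z)‖ ≤ m * M * (a / b') ^ m / (1 - a / b') := by
  have hb0 : 0 < b' := ha.trans hab
  have hM0 : 0 ≤ M := (norm_nonneg _).trans (hM 0 (by simpa using hb0.le))
  obtain ⟨θ, hθ⟩ : ∃ θ : ℝ, θ = a / b' := ⟨_, rfl⟩
  have hθ0 : 0 ≤ θ := by rw [hθ]; positivity
  have hθ1 : θ < 1 := by rw [hθ, div_lt_one hb0]; exact hab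
  have hlk : ∀ k, ‖cf l k‖ ≤ M / b' ^ k := by
    intro k
    refine cf_bound hb0 ?_ (fun z hz => hM z ?_) k
    · refine (hl.mono ?_).diffContOnCl
      rw [closure_ball _ hb0.ne']
      exact Metric.closedBall_subset_ball hb'
    · rw [mem_sphere_zero_iff_norm] at hz; exact hz.le
  have hnorm : ∀ k : ℕ, ‖om m ^ k * z‖ = a := by
    intro k
    rw [norm_mul, norm_pow, om_norm, one_pow, one_mul, hz]
  have hs : ∀ k : ℕ, HasSum (fun i => cf l i * (om m ^ k * z) ^ i) (l (om m ^ k * z)) := by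
    intro k
    refine cf_hasSum hl ?_
    rw [mem_ball_zero_iff, hnorm]; linarith
  have hS : HasSum (fun i => ∑ k ∈ Finset.range m, cf l i * (om m ^ k * z) ^ i)
      (∑ k ∈ Finset.range m, l (om m ^ k * z)) := hasSum_sum fun k _ => hs k
  have hlow : ∀ i < m, ∑ k ∈ Finset.range m, cf l i * (om m ^ k * z) ^ i = 0 := by
    intro i hi
    rcases Nat.eq_zero_or_pos i with h0 | h0
    · have : cf l 0 = 0 := by
        unfold cf
        simp [l0]
      simp [h0, this]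
    · have : ∀ k ∈ Finset.range m, cf l i * (om m ^ k * z) ^ i = cf l i * z ^ i * (om m ^ k) ^ i := by
        intro k _
        rw [mul_pow]; ring
      rw [Finset.sum_congr rfl this, ← Finset.mul_sum, sum_om h0 hi, mul_zero]
  rw [← hasSum_nat_add_iff' m] at hS
  rw [Finset.sum_eq_zero (fun i hi => hlow i (Finset.mem_range.1 hi)), sub_zero] at hS
  have hg : HasSum (fun i : ℕ => m * M * θ ^ m * θ ^ i) (m * M * θ ^ m * (1 - θ)⁻¹) :=
    (hasSum_geometric_of_lt_one hθ0 hθ1).mul_left _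
  have hb : ∀ i : ℕ, ‖∑ k ∈ Finset.range m, cf l (i + m) * (om m ^ k * z) ^ (i + m)‖ ≤
      m * M * θ ^ m * θ ^ i := by
    intro i
    refine (norm_sum_le _ _).trans ?_
    have : ∀ k ∈ Finset.range m, ‖cf l (i + m) * (om m ^ k * z) ^ (i + m)‖ ≤ M * θ ^ (i + m) := by
      intro k _
      rw [norm_mul, norm_pow, hnorm]
      calc ‖cf l (i + m)‖ * a ^ (i + m) ≤ M / b' ^ (i + m) * a ^ (i + m) :=
            mul_le_mul_of_nonneg_right (hlk _) (by positivity)
        _ = M * θ ^ (i + m) := by rw [hθ, div_pow]; ring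
    refine (Finset.sum_le_sum this).trans ?_
    rw [Finset.sum_const, Finset.card_range, nsmul_eq_mul]
    apply le_of_eq
    rw [pow_add]; ring
  have h := tsum_of_norm_bounded hg hb
  rw [hS.tsum_eq] at h
  rw [← hθ, div_eq_mul_inv]
  exact h

theorem coef {q : ℂ} (hq : ‖q‖ ≤ 1) {N : ℕ} {w : ℕ → ℂ} {b : ℝ} {l : ℂ → ℂ} (h : Fac q N w b l)
    {a b' M : ℝ} (ha : 0 < a) (hab : a < b') (hb' : b' < b) (hw : ∀ i < N, ‖w i‖ ≤ a)
    (hM : ∀ z : ℂ, ‖z‖ ≤ b' → ‖l z‖ ≤ M) {m : ℕ} (hm : 0 < m) {j : ℕ} (hj : j ≤ N) :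
    ‖(cP j m).eval q - (-1) ^ j * es N j m w‖ ≤
      2 ^ N * a ^ ((N - j) * m) * (∏ i ∈ Finset.range N, (‖w i‖⁻¹) ^ m) * dd M (a / b') m := by
  have hb0 : 0 < b := by linarith
  obtain ⟨G, hG⟩ : ∃ G : ℂ → ℂ, G = fun z => ∏ k ∈ Finset.range m, F q (om m ^ k * z) := ⟨_, rfl⟩
  obtain ⟨P, hP⟩ : ∃ P : ℂ → ℂ, P = fun z => ∏ i ∈ Finset.range N, (1 - (z / w i) ^ m) := ⟨_, rfl⟩
  have hnorm : ∀ (k : ℕ) (z : ℂ), ‖om m ^ k * z‖ = ‖z‖ := by
    intro k z
    rw [norm_mul, norm_pow, om_norm, one_pow, one_mul]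
  have hGP : ∀ z ∈ Metric.ball (0:ℂ) b, G z = P z * exp (∑ k ∈ Finset.range m, l (om m ^ k * z)) := by
    intro z hz
    rw [mem_ball_zero_iff] at hz
    rw [hG, hP]
    simp only
    rw [Complex.exp_sum]
    have e1 : ∀ k ∈ Finset.range m, F q (om m ^ k * z) =
        (∏ i ∈ Finset.range N, (1 - om m ^ k * (z / w i))) * exp (l (om m ^ k * z)) := by
      intro k _
      rw [h.eq _ (by rw [mem_ball_zero_iff, hnorm]; exact hz)]
      simp only [mul_div_assoc]
    rw [Finset.prod_congr rfl e1, Finset.prod_mul_distrib, Finset.prod_comm]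
    congr 1
    refine Finset.prod_congr rfl fun i _ => ?_
    exact prod_om hm _
  have hGd : Differentiable ℂ G := by
    rw [hG]
    refine Differentiable.fun_finsetProd fun k _ => ?_
    exact (differentiable_F hq).comp ((differentiable_const _).mul differentiable_id)
  have hPd : Differentiable ℂ P := by
    rw [hP]
    refine Differentiable.fun_finsetProd fun i _ => ?_
    exact (differentiable_const _).sub ((differentiable_id.div_const _).pow m)
  have hPc : cf P (j * m) = (-1) ^ j * es N j m w := by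
    rw [hP, funext (prod_expand N m w), cf_poly hm (fun j => (-1) ^ j * es N j m w) hj]
  rw [cP_eval hq, ← hG, ← hPc, ← cf_sub hb0 hGd.differentiableOn hPd.differentiableOn]
  have hw0 : ∀ i < N, 0 < ‖w i‖ := fun i hi => norm_pos_iff.2 (h.ne i hi)
  have hbd : ∀ z ∈ Metric.sphere (0:ℂ) a, ‖G z - P z‖ ≤
      2 ^ N * a ^ (N * m) * (∏ i ∈ Finset.range N, (‖w i‖⁻¹) ^ m) * dd M (a / b') m := by
    intro z hz
    rw [mem_sphere_zero_iff_norm] at hz
    rw [hGP z (by rw [mem_ball_zero_iff, hz]; linarith)]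
    rw [show P z * exp (∑ k ∈ Finset.range m, l (om m ^ k * z)) - P z =
      P z * (exp (∑ k ∈ Finset.range m, l (om m ^ k * z)) - 1) by ring, norm_mul]
    refine mul_le_mul ?_ ?_ (norm_nonneg _) (by positivity)
    · rw [hP]
      simp only
      rw [norm_prod]
      have e2 : (2:ℝ) ^ N * a ^ (N * m) * (∏ i ∈ Finset.range N, (‖w i‖⁻¹) ^ m) =
          ∏ i ∈ Finset.range N, (2 * (a / ‖w i‖) ^ m) := by
        rw [Finset.prod_mul_distrib, Finset.prod_const, Finset.card_range]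
        simp only [div_eq_mul_inv, mul_pow]
        rw [Finset.prod_mul_distrib, Finset.prod_const, Finset.card_range, ← pow_mul, mul_comm m N]
        ring
      rw [e2]
      refine Finset.prod_le_prod (fun _ _ => norm_nonneg _) fun i hi => ?_
      rw [Finset.mem_range] at hi
      have h1 : 1 ≤ (a / ‖w i‖) ^ m := one_le_pow₀ ((one_le_div (hw0 i hi)).2 (hw i hi))
      calc ‖1 - (z / w i) ^ m‖ ≤ ‖(1:ℂ)‖ + ‖(z / w i) ^ m‖ := norm_sub_le _ _
        _ = 1 + (a / ‖w i‖) ^ m := by rw [norm_one, norm_pow, norm_div, hz]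
        _ ≤ 2 * (a / ‖w i‖) ^ m := by linarith
    · refine (norm_exp_sub_one _).trans ?_
      unfold dd
      have := sum_l_bound ha hab hb' h.dif h.l0 hM hm hz
      have := Real.exp_le_exp.2 this
      linarith
  refine (cf_bound ha ((hGd.sub hPd).diffContOnCl) hbd (j * m)).trans (le_of_eq ?_)
  have e3 : a ^ (N * m) = a ^ ((N - j) * m) * a ^ (j * m) := by
    rw [← pow_add, ← add_mul, Nat.sub_add_cancel hj]
  rw [e3]
  field_simp

/-- uniform version -/
theorem coef_unif (N : ℕ) {a b : ℝ} (ha : 0 < a) (hab : a < b) :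
    ∃ d : ℕ → ℝ, Tendsto d atTop (𝓝 0) ∧ ∀ (q : ℂ) (w : ℕ → ℂ) (l : ℂ → ℂ), ‖q‖ ≤ 1 →
      Fac q N w b l → (∀ i < N, ‖w i‖ ≤ a) → ∀ m : ℕ, 0 < m → ∀ j ≤ N,
        ‖(cP j m).eval q - (-1) ^ j * es N j m w‖ ≤
          a ^ ((N - j) * m) * (∏ i ∈ Finset.range N, (‖w i‖⁻¹) ^ m) * d m := by
  obtain ⟨b', hb'⟩ : ∃ b' : ℝ, b' = (a + b) / 2 := ⟨_, rfl⟩
  have h1 : a < b' := by rw [hb']; linarith
  have h2 : b' < b := by rw [hb']; linarith
  obtain ⟨M, hM0, hM⟩ := log_bound N ha hab h2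
  have hb0 : 0 < b' := ha.trans h1
  refine ⟨fun m => 2 ^ N * dd M (a / b') m, ?_, ?_⟩
  · have hθ0 : 0 ≤ a / b' := by positivity
    have hθ1 : a / b' < 1 := by rw [div_lt_one hb0]; exact h1
    have e1 := (tendsto_self_mul_const_pow_of_lt_one hθ0 hθ1).const_mul (M / (1 - a / b'))
    have e2 : Tendsto (fun m : ℕ => (m : ℝ) * M * (a / b') ^ m / (1 - a / b')) atTop (𝓝 0) := by
      rw [mul_zero] at e1
      refine e1.congr fun m => ?_
      ring
    have e3 := (Real.continuous_exp.tendsto 0).comp e2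
    rw [Real.exp_zero] at e3
    have e4 := (e3.sub_const 1).const_mul (2 ^ N)
    rw [sub_self, mul_zero] at e4
    exact e4
  · intro q w l hq hF hw m hm j hj
    refine (coef hq hF ha h1 h2 hw (hM q w l hq hF hw) hm hj).trans (le_of_eq ?_)
    ring

end SokC
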