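import Pool.Agent.Lib.MP_816dec_an.ZeroFree

/-!
MP_816dec_an, part C (|q| < 1 from |q| = 1): definitions. Paper: store sok_C_v2.md (helper28), sections 1-5.
-/

open Complex Set Filter Topology

namespace SokC

open Sok

/-- the first `N` zeros of `F q`: simple, strictly increasing moduli, no other zero of modulus at most
the largest one -/
structure Frame (q : ℂ) (N : ℕ) (z : ℕ → ℂ) : Prop where
  zero : ∀ i < N, F q (z i) = 0
  simple : ∀ i < N, F q (q * z i) ≠ 0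
  mono : ∀ i j, i < j → j < N → ‖z i‖ < ‖z j‖
  all : ∀ w, F q w = 0 → ∀ i < N, ‖w‖ ≤ ‖z i‖ → ∃ j < N, w = z j

/-- the strong form of the strict inequalities -/
def Strong (q : ℂ) (N : ℕ) (z : ℕ → ℂ) : Prop := ∀ i j, i < j → j < N → ‖z i‖ < ‖q‖ * ‖z j‖

/-- the zeros are simple and have distinct moduli -/
def Nice (q : ℂ) : Prop :=
  (∀ z, F q z = 0 → F q (q * z) ≠ 0) ∧ ∀ z w, F q z = 0 → F q w = 0 → ‖z‖ = ‖w‖ → z = w

/-- elementary symmetric function of the `m`-th powers of the `1 / w i`, `i < N` -/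
noncomputable def es (N j m : ℕ) (w : ℕ → ℂ) : ℂ :=
  ∑ S ∈ (Finset.range N).powersetCard j, ∏ i ∈ S, ((w i)⁻¹) ^ m

/-- `F q z = ∏ (1 - z / w i) * exp (l z)` for `|z| < b` -/
structure Fac (q : ℂ) (N : ℕ) (w : ℕ → ℂ) (b : ℝ) (l : ℂ → ℂ) : Prop where
  ne : ∀ i < N, w i ≠ 0
  dif : DifferentiableOn ℂ l (Metric.ball 0 b)
  l0 : l 0 = 0
  eq : ∀ z ∈ Metric.ball (0:ℂ) b, F q z = (∏ i ∈ Finset.range N, (1 - z / w i)) * exp (l z)

/-- the error term of the coefficient lemma -/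
noncomputable def dd (M θ : ℝ) (m : ℕ) : ℝ := Real.exp (m * M * θ ^ m / (1 - θ)) - 1

/-- Taylor coefficient -/
noncomputable def cf (f : ℂ → ℂ) (k : ℕ) : ℂ := iteratedDeriv k f 0 / (k.factorial : ℂ)

/-- primitive root of unity -/
noncomputable def om (m : ℕ) : ℂ := exp (2 * Real.pi * I / m)

end SokC
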