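import Pool.Agent.Lib.MP_816dec_an.PFac

/-!
MP_816dec_an, part C, row INF: F(q,.) has infinitely many zeros (|q| = 1, q ≠ 1), so frames of every length
exist. Recipe: otherwise F = P e^l, l entire (exists_factor with large R: then H is zero free everywhere),
Re (l z) ≤ |z| + C log: Borel-Caratheodory gives |l z| ≤ C (1 + |z|), l = a z (Liouville).
F'(z) = F(q z): P' + a P = P(q z) e^(a (q-1) z). If a ≠ 0 then e^(a(q-1)z) would be a quotient of
polynomials: impossible (growth along the ray where it tends to 0: P'+aP = P(qz) e^(..) -> 0 forces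
P' + a P = 0, P = 0). If a = 0 then F is a polynomial, but its Taylor coefficients q^(..)/k! are ≠ 0
(or: F' = F(q z) and degree). `exists_frame`: choose the zeros by increasing modulus (finitely many in every
disc).
-/

open Complex Set Filter Topology

namespace SokC

open Sok

/-- a zero free entire function of exponential type is an exponential -/
private theorem exp_of_growth {H : ℂ → ℂ} (hH : Differentiable ℂ H) (h0 : H 0 = 1)
    (hne : ∀ z, H z ≠ 0) {A : ℝ} (hA : 0 ≤ A) (hg : ∀ z, ‖H z‖ ≤ Real.exp (A + ‖z‖)) :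
    ∃ a : ℂ, ∀ z, H z = exp (a * z) := by
  have hH' : Differentiable ℂ (deriv H) := by
    rw [← differentiableOn_univ] at hH ⊢
    exact hH.deriv isOpen_univ
  set h : ℂ → ℂ := fun z => deriv H z / H z with hh
  have hd : Differentiable ℂ h := hH'.div hH hne
  have hbd : ∀ z, ‖h z‖ ≤ 2 * (A + 1) + 8 := by
    intro z
    have hr : 0 < ‖z‖ + 1 := by positivity
    have hR : 0 < 4 * (‖z‖ + 1) := by positivity
    obtain ⟨l, hl, hl0, hle⟩ := exists_log hR hH.differentiableOn h0 fun w _ => hne w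
    have hzb : z ∈ Metric.ball (0 : ℂ) (4 * (‖z‖ + 1)) := by
      rw [mem_ball_zero_iff]
      linarith [norm_nonneg z]
    have hlz : DifferentiableAt ℂ l z := hl.differentiableAt (Metric.isOpen_ball.mem_nhds hzb)
    have hder : h z = deriv l z := by
      have e1 : H =ᶠ[𝓝 z] fun w => exp (l w) := by
        filter_upwards [Metric.isOpen_ball.mem_nhds hzb] with w hw using hle w hw
      have e2 : deriv H z = exp (l z) * deriv l z := by
        rw [e1.deriv_eq]
        exact (hlz.hasDerivAt.cexp).deriv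
      rw [hh]
      simp only
      rw [e2, hle z hzb, mul_div_cancel_left₀ _ (exp_ne_zero _)]
    rw [hder]
    have hsub : Metric.closedBall z (‖z‖ + 1) ⊆ Metric.ball (0 : ℂ) (4 * (‖z‖ + 1)) := by
      intro w hw
      rw [mem_ball_zero_iff]
      have h1 : ‖w - z‖ ≤ ‖z‖ + 1 := by simpa [dist_eq_norm] using hw
      have h2 : ‖w‖ ≤ ‖w - z‖ + ‖z‖ := by simpa using norm_add_le (w - z) z
      linarith [norm_nonneg z]
    have hdc : DiffContOnCl ℂ l (Metric.ball z (‖z‖ + 1)) :=
      (hl.mono hsub).diffContOnCl_ball (Subset.refl _)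
    have hM : 0 < A + 4 * (‖z‖ + 1) := by positivity
    have hbc : ∀ w ∈ Metric.sphere z (‖z‖ + 1), ‖l w‖ ≤ 2 * (A + 4 * (‖z‖ + 1)) := by
      intro w hw
      have hw' : w ∈ Metric.ball (0 : ℂ) (4 * (‖z‖ + 1)) := hsub (Metric.sphere_subset_closedBall hw)
      have h1 : ‖w - z‖ = ‖z‖ + 1 := by simpa [dist_eq_norm] using hw
      have h2 : ‖w‖ ≤ ‖w - z‖ + ‖z‖ := by simpa using norm_add_le (w - z) z
      have h3 : ‖w‖ ≤ 2 * (‖z‖ + 1) := by linarith
      have hmaps : Set.MapsTo l (Metric.ball 0 (4 * (‖z‖ + 1)))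
          {v | v.re ≤ A + 4 * (‖z‖ + 1)} := by
        intro v hv
        have h4 := hg v
        rw [hle v hv, norm_exp] at h4
        have h5 := Real.exp_le_exp.1 h4
        rw [mem_ball_zero_iff] at hv
        change (l v).re ≤ _
        linarith
      have h6 := borelCaratheodory_zero hM hl hmaps hR hw' hl0
      refine h6.trans ?_
      rw [div_le_iff₀ (by linarith [norm_nonneg z])]
      nlinarith [norm_nonneg z, norm_nonneg w]
    have h7 := norm_deriv_le_of_forall_mem_sphere_norm_le hr hdc hbc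
    refine h7.trans ?_
    rw [div_le_iff₀ hr]
    nlinarith [norm_nonneg z]
  have hconst : ∀ z, h z = h 0 := fun z => by
    refine hd.apply_eq_apply_of_bounded ?_ z 0
    rw [isBounded_iff_forall_norm_le]
    exact ⟨_, by rintro _ ⟨w, rfl⟩; exact hbd w⟩
  refine ⟨h 0, fun z => ?_⟩
  have hder0 : ∀ w, HasDerivAt (fun w => H w * exp (-(h 0 * w))) 0 w := by
    intro w
    have h1 : HasDerivAt H (h 0 * H w) w := by
      have h2 := (hH w).hasDerivAt
      have h3 : deriv H w = h 0 * H w := by
        rw [← hconst w, hh]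
        simp only
        rw [div_mul_cancel₀ _ (hne w)]
      rwa [h3] at h2
    have h4 : HasDerivAt (fun w => exp (-(h 0 * w))) (exp (-(h 0 * w)) * (-(h 0 * 1))) w :=
      (((hasDerivAt_id w).const_mul (h 0)).neg).cexp
    have h5 := h1.mul h4
    have e : h 0 * H w * exp (-(h 0 * w)) + H w * (exp (-(h 0 * w)) * (-(h 0 * 1))) = 0 := by ring
    rw [e] at h5
    exact h5
  have hc := is_const_of_deriv_eq_zero (f := fun w => H w * exp (-(h 0 * w)))
    (fun w => (hder0 w).differentiableAt) (fun w => (hder0 w).deriv) z 0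
  simp only [mul_zero, neg_zero, exp_zero, mul_one, h0] at hc
  rw [exp_neg, ← div_eq_mul_inv, div_eq_one_iff_eq (exp_ne_zero _)] at hc
  exact hc

private theorem finite_zeros {q : ℂ} (hq : ‖q‖ ≤ 1) (R : ℝ) :
    {z : ℂ | F q z = 0 ∧ ‖z‖ ≤ R}.Finite := by
  obtain ⟨N, w, H, -, -, -, hf, hH⟩ := exists_factor (differentiable_F hq) (F_zero q)
    (show 0 < max R 1 by positivity)
  refine ((Finset.range N).finite_toSet.image w).subset ?_
  rintro z ⟨hz, hzR⟩
  have h1 := hf z
  rw [hz] at h1
  have h2 := hH z (hzR.trans (le_max_left _ _))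
  have h3 : ∏ i ∈ Finset.range N, (1 - z / w i) = 0 := by
    rcases mul_eq_zero.1 h1.symm with h | h
    · exact h
    · exact absurd h h2
  rw [Finset.prod_eq_zero_iff] at h3
  obtain ⟨i, hi, h4⟩ := h3
  refine ⟨i, hi, ?_⟩
  have h5 : z / w i = 1 := (sub_eq_zero.1 h4).symm
  have hw : w i ≠ 0 := by
    rintro h
    rw [h, div_zero] at h5
    exact zero_ne_one h5
  rw [div_eq_one_iff_eq hw] at h5
  exact h5.symm

open Polynomial in
private theorem no_poly_exp {q a : ℂ} (hq : ‖q‖ = 1) (hq1 : q ≠ 1) {N : ℕ} {w : ℕ → ℂ}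
    (h : ∀ z, F q z = (∏ i ∈ Finset.range N, (1 - z / w i)) * exp (a * z)) : False := by
  set P : ℂ[X] := ∏ i ∈ Finset.range N, (1 - C ((w i)⁻¹) * X) with hP
  have hPe : ∀ z, P.eval z = ∏ i ∈ Finset.range N, (1 - z / w i) := by
    intro z
    rw [hP, eval_prod]
    refine Finset.prod_congr rfl fun i _ => ?_
    simp only [eval_sub, eval_one, eval_mul, eval_C, eval_X]
    ring
  have hP0 : P.eval 0 = 1 := by
    rw [hPe]
    simp
  have hPne : P ≠ 0 := by
    rintro h0
    rw [h0, eval_zero] at hP0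
    exact zero_ne_one hP0
  have hFe : ∀ z, F q z = P.eval z * exp (a * z) := fun z => by rw [h, hPe]
  have hq0 : q ≠ 0 := by
    rintro rfl
    simp at hq
  have key : ∀ z, (derivative P + C a * P).eval z = P.eval (q * z) * exp (a * (q - 1) * z) := by
    intro z
    have h1 : HasDerivAt (fun z => P.eval z * exp (a * z))
        (P.derivative.eval z * exp (a * z) + P.eval z * (exp (a * z) * (a * 1))) z :=
      (P.hasDerivAt z).mul (((hasDerivAt_id z).const_mul a).cexp)
    have h2 : HasDerivAt (F q) (F q (q * z)) z := hasDerivAt_F hq.le z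
    have h3 : F q = fun z => P.eval z * exp (a * z) := funext hFe
    rw [h3] at h2
    have h4 := h1.unique h2
    simp only at h4
    have h5 : exp (a * (q * z)) = exp (a * (q - 1) * z) * exp (a * z) := by
      rw [← Complex.exp_add]
      congr 1
      ring
    rw [h5] at h4
    have h6 : exp (a * z) ≠ 0 := exp_ne_zero _
    rw [eval_add, eval_mul, eval_C]
    apply mul_right_cancel₀ h6
    rw [mul_assoc (P.eval (q * z)), ← h4]
    ring
  by_cases ha : a = 0
  · rw [ha] at key
    simp only [C_0, zero_mul, add_zero, exp_zero, mul_one] at key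
    have h1 : derivative P = P.comp (C q * X) := by
      refine Polynomial.funext fun z => ?_
      rw [key z, eval_comp]
      simp
    have h2 : (P.comp (C q * X)).natDegree = P.natDegree := by
      rw [natDegree_comp, natDegree_C_mul_X q hq0, mul_one]
    by_cases hd : P.natDegree = 0
    · have h3 : derivative P = 0 := by
        rw [natDegree_eq_zero] at hd
        obtain ⟨c, hc⟩ := hd
        rw [← hc, derivative_C]
      have h4 := key 0
      rw [h3, eval_zero, mul_zero, hP0] at h4
      exact zero_ne_one h4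
    · have h3 := natDegree_derivative_lt hd
      rw [h1, h2] at h3
      exact lt_irrefl _ h3
  · set c : ℂ := a * (q - 1) with hc
    have hc0 : c ≠ 0 := mul_ne_zero ha (sub_ne_zero.2 hq1)
    set Q : ℂ[X] := derivative P + C a * P with hQ
    have hQ0 : Q ≠ 0 := by
      intro h0
      have h1 : derivative P = -(C a * P) := by
        rw [hQ] at h0
        exact eq_neg_of_add_eq_zero_left h0
      by_cases hd : P.natDegree = 0
      · have h3 : derivative P = 0 := by
          rw [natDegree_eq_zero] at hd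
          obtain ⟨c, hc⟩ := hd
          rw [← hc, derivative_C]
        rw [h3, eq_comm, neg_eq_zero, mul_eq_zero] at h1
        rcases h1 with h1 | h1
        · exact ha (C_eq_zero.1 h1)
        · exact hPne h1
      · have h3 := natDegree_derivative_lt hd
        rw [h1, natDegree_neg, natDegree_C_mul ha] at h3
        exact lt_irrefl _ h3
    -- the ray
    have hray : ∀ t : ℝ, ‖Q.eval (-(t : ℂ) / c)‖ = ‖P.eval (q * (-(t : ℂ) / c))‖ / Real.exp t := by
      intro t
      rw [key, norm_mul, norm_exp]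
      have e : c * (-(t : ℂ) / c) = ((-t : ℝ) : ℂ) := by
        rw [mul_div_cancel₀ _ hc0]
        push_cast
        ring
      rw [e, ofReal_re, Real.exp_neg]
      exact (div_eq_mul_inv _ _).symm
    have hbound : ∀ t : ℝ, 0 ≤ t → ‖P.eval (q * (-(t : ℂ) / c))‖ ≤
        (∏ i ∈ Finset.range N, (1 + C (‖c‖⁻¹ * ‖w i‖⁻¹) * X) : ℝ[X]).eval t := by
      intro t ht
      rw [hPe, eval_prod, norm_prod]
      refine Finset.prod_le_prod (fun _ _ => norm_nonneg _) fun i _ => ?_
      simp only [eval_add, eval_one, eval_mul, eval_C, eval_X]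
      refine (norm_sub_le _ _).trans ?_
      rw [norm_one, norm_div, norm_mul, hq, one_mul, norm_div, norm_neg, norm_real,
        Real.norm_eq_abs, abs_of_nonneg ht]
      apply le_of_eq
      ring
    have hlim : Tendsto (fun t : ℝ => ‖Q.eval (-(t : ℂ) / c)‖) atTop (𝓝 0) := by
      refine squeeze_zero' (Eventually.of_forall fun _ => norm_nonneg _) ?_
        (Polynomial.tendsto_div_exp_atTop
          (∏ i ∈ Finset.range N, (1 + C (‖c‖⁻¹ * ‖w i‖⁻¹) * X) : ℝ[X]))
      filter_upwards [eventually_ge_atTop (0 : ℝ)] with t ht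
      rw [hray t]
      gcongr
      exact hbound t ht
    by_cases hd : 0 < Q.degree
    · have h1 : Tendsto (fun t : ℝ => ‖(-(t : ℂ) / c)‖) atTop atTop := by
        have e : ∀ᶠ t : ℝ in atTop, t * ‖c‖⁻¹ = ‖(-(t : ℂ) / c)‖ := by
          filter_upwards [eventually_ge_atTop (0 : ℝ)] with t ht
          rw [norm_div, norm_neg, norm_real, Real.norm_eq_abs, abs_of_nonneg ht, div_eq_mul_inv]
        refine Tendsto.congr' e ?_
        exact tendsto_id.atTop_mul_const (inv_pos.2 (norm_pos_iff.2 hc0))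
      have h2 := Q.tendsto_norm_atTop hd h1
      exact not_tendsto_nhds_of_tendsto_atTop h2 0 hlim
    · have h1 : Q = C (Q.coeff 0) := eq_C_of_degree_le_zero (not_lt.1 hd)
      have h2 : ∀ t : ℝ, ‖Q.eval (-(t : ℂ) / c)‖ = ‖Q.coeff 0‖ := by
        intro t
        rw [h1]
        simp
      simp_rw [h2] at hlim
      have h3 := tendsto_nhds_unique hlim tendsto_const_nhds
      rw [eq_comm, norm_eq_zero] at h3
      rw [h3, C_0] at h1
      exact hQ0 h1

theorem infinite_zeros {q : ℂ} (hq : ‖q‖ = 1) (hq1 : q ≠ 1) : {z : ℂ | F q z = 0}.Infinite := by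
  intro hfin
  obtain ⟨R0, hR0⟩ := hfin.isBounded.exists_norm_le
  set R : ℝ := max R0 1 with hR
  have hRpos : 0 < R := by positivity
  have hzR : ∀ z, F q z = 0 → ‖z‖ ≤ R := fun z hz => (hR0 z hz).trans (le_max_left _ _)
  obtain ⟨N, w, H, hHd, hH0, hw, hf, hHne⟩ := exists_factor (differentiable_F hq.le) (F_zero q) hRpos
  have hne : ∀ z, H z ≠ 0 := by
    intro z hz
    have h1 := hf z
    rw [hz, mul_zero] at h1
    exact hHne z (hzR z h1) hz
  -- growth
  obtain ⟨C0, hC0⟩ := (isCompact_closedBall (0 : ℂ) (2 * R)).exists_bound_of_continuousOn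
    hHd.continuous.continuousOn
  set A : ℝ := Real.log (max C0 1) with hA
  have hA0 : 0 ≤ A := Real.log_nonneg (le_max_right _ _)
  have hexpA : Real.exp A = max C0 1 := Real.exp_log (by positivity)
  have hg : ∀ z, ‖H z‖ ≤ Real.exp (A + ‖z‖) := by
    intro z
    rw [Real.exp_add, hexpA]
    have h1 : 1 ≤ Real.exp ‖z‖ := Real.one_le_exp (norm_nonneg z)
    have h2 : (1 : ℝ) ≤ max C0 1 := le_max_right _ _
    rcases le_total ‖z‖ (2 * R) with h | h
    · have h3 := hC0 z (by simpa using h)
      have h4 : C0 ≤ max C0 1 := le_max_left _ _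
      nlinarith
    · have h3 : 1 ≤ ‖∏ i ∈ Finset.range N, (1 - z / w i)‖ := by
        rw [norm_prod]
        have h7 : (1 : ℝ) = ∏ i ∈ Finset.range N, (1 : ℝ) := by simp
        rw [h7]
        refine Finset.prod_le_prod (fun _ _ => zero_le_one) fun i hi => ?_
        obtain ⟨hw0, hwR, -⟩ := hw i (Finset.mem_range.1 hi)
        have h5 : 2 ≤ ‖z / w i‖ := by
          rw [norm_div, le_div_iff₀ (norm_pos_iff.2 hw0)]
          linarith
        have h6 : ‖z / w i‖ ≤ ‖1 - z / w i‖ + 1 := by
          have := norm_sub_le (1 : ℂ) (1 - z / w i)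
          rw [sub_sub_cancel, norm_one] at this
          linarith
        linarith
      have h4 : ‖F q z‖ = ‖∏ i ∈ Finset.range N, (1 - z / w i)‖ * ‖H z‖ := by rw [hf z, norm_mul]
      have h5 := norm_F_le hq.le z
      have h6 : ‖H z‖ ≤ ‖F q z‖ := by
        rw [h4]
        nlinarith [norm_nonneg (H z)]
      nlinarith [Real.exp_pos ‖z‖]
  obtain ⟨a, ha⟩ := exp_of_growth hHd hH0 hne hA0 hg
  exact no_poly_exp hq hq1 (N := N) (w := w) (a := a) fun z => by rw [hf z, ha z]

private theorem frame_succ {q : ℂ} (hq : ‖q‖ = 1) (hq1 : q ≠ 1) (hN : Nice q) {N : ℕ} {z : ℕ → ℂ}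
    (h : Frame q N z) : ∃ z' : ℕ → ℂ, Frame q (N + 1) z' := by
  set S : Set ℂ := {w | F q w = 0} \ (z '' (Finset.range N : Set ℕ)) with hS
  have hne : S.Nonempty :=
    ((infinite_zeros hq hq1).sdiff ((Finset.range N).finite_toSet.image z)).nonempty
  obtain ⟨w0, hw0⟩ := hne
  have hfin : (S ∩ {w | ‖w‖ ≤ ‖w0‖}).Finite :=
    (finite_zeros hq.le ‖w0‖).subset fun w hw => ⟨hw.1.1, hw.2⟩
  obtain ⟨w, hw, hmin⟩ := Set.exists_min_image _ (fun w => ‖w‖) hfin ⟨w0, hw0, by simp⟩
  have hmin' : ∀ v ∈ S, ‖w‖ ≤ ‖v‖ := by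
    intro v hv
    by_cases hv0 : ‖v‖ ≤ ‖w0‖
    · exact hmin v ⟨hv, hv0⟩
    · exact (show ‖w‖ ≤ ‖w0‖ from hw.2).trans (not_le.1 hv0).le
  have hwz : F q w = 0 := hw.1.1
  have hwn : ∀ j < N, w ≠ z j := by
    rintro j hj rfl
    exact hw.1.2 ⟨j, by simpa using hj, rfl⟩
  have hold : ∀ i < N, Function.update z N w i = z i := fun i hi =>
    Function.update_of_ne hi.ne _ _
  have hnew : Function.update z N w N = w := Function.update_self _ _ _
  have hlt : ∀ i < N, ‖z i‖ < ‖w‖ := by
    intro i hi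
    by_contra hcon
    obtain ⟨j, hj, he⟩ := h.all w hwz i hi (not_lt.1 hcon)
    exact hwn j hj he
  refine ⟨Function.update z N w, ?_, ?_, ?_, ?_⟩
  · intro i hi
    rcases Nat.lt_succ_iff_lt_or_eq.1 hi with hi | rfl
    · rw [hold i hi]
      exact h.zero i hi
    · rw [hnew]
      exact hwz
  · intro i hi
    rcases Nat.lt_succ_iff_lt_or_eq.1 hi with hi | rfl
    · rw [hold i hi]
      exact h.simple i hi
    · rw [hnew]
      exact hN.1 w hwz
  · intro i j hij hj
    rcases Nat.lt_succ_iff_lt_or_eq.1 hj with hj | rfl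
    · rw [hold i (hij.trans hj), hold j hj]
      exact h.mono i j hij hj
    · rw [hold i hij, hnew]
      exact hlt i hij
  · intro v hv i hi hvi
    by_cases hvl : ∃ j < N, v = z j
    · obtain ⟨j, hj, he⟩ := hvl
      exact ⟨j, hj.trans (Nat.lt_succ_self N), by rw [hold j hj, he]⟩
    · have hvS : v ∈ S := by
        refine ⟨hv, ?_⟩
        rintro ⟨j, hj, he⟩
        exact hvl ⟨j, by simpa using hj, he.symm⟩
      have h1 := hmin' v hvS
      rcases Nat.lt_succ_iff_lt_or_eq.1 hi with hi | rfl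
      · rw [hold i hi] at hvi
        exact absurd (hlt i hi) (not_lt.2 (h1.trans hvi))
      · rw [hnew] at hvi
        exact ⟨i, Nat.lt_succ_self i, by rw [hnew]; exact hN.2 v w hv hwz (le_antisymm hvi h1)⟩

theorem exists_frame {q : ℂ} (hq : ‖q‖ = 1) (hq1 : q ≠ 1) (hN : Nice q) (N : ℕ) :
    ∃ z : ℕ → ℂ, Frame q N z := by
  induction N with
  | zero =>
    exact ⟨fun _ => 0, fun i hi => absurd hi (Nat.not_lt_zero i),
      fun i hi => absurd hi (Nat.not_lt_zero i), fun i j _ hj => absurd hj (Nat.not_lt_zero j),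
      fun w _ i hi => absurd hi (Nat.not_lt_zero i)⟩
  | succ N ih =>
    obtain ⟨z, hz⟩ := ih
    exact frame_succ hq hq1 hN hz

end SokC
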