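import Pool.Agent.Lib.MP_816dec_an.PPers
import Pool.Agent.Lib.MP_816dec_an.PInf

/-!
MP_816dec_an, part C, row I2: strong frames on all circles near |q| = 1 (compactness of the unit circle).
`h52` is claim (5.2).
-/

open Complex Set Filter Topology

namespace SokC

open Sok

/-- a strong frame persists -/
private theorem strong_persist {q0 : ℂ} (h0 : ‖q0‖ = 1) {N : ℕ} {z : ℕ → ℂ} (h : Frame q0 N z) :
    ∀ᶠ q in 𝓝 q0, ‖q‖ < 1 → ∃ z : ℕ → ℂ, Frame q N z ∧ Strong q N z := by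
  have e1 : ∀ᶠ ε in 𝓝[>] (0:ℝ), ∀ i ∈ {i : ℕ | i < N}, ∀ j ∈ {j : ℕ | j < N},
      i < j → ‖z i‖ + ε < ‖z j‖ - ε := by
    rw [Filter.eventually_all_finite (Set.finite_lt_nat N)]
    intro i hi
    rw [Filter.eventually_all_finite (Set.finite_lt_nat N)]
    intro j hj
    by_cases hij : i < j
    · have h1 := h.mono i j hij hj
      have h2 : ∀ᶠ ε in 𝓝[>] (0:ℝ), ε < (‖z j‖ - ‖z i‖) / 2 :=
        mem_nhdsWithin_of_mem_nhds (eventually_lt_nhds (by linarith))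
      filter_upwards [h2] with ε hε _
      linarith
    · exact Filter.Eventually.of_forall fun ε hε => absurd hε hij
  obtain ⟨ε, hε1, hε⟩ := (e1.and self_mem_nhdsWithin).exists
  have hε0 : (0:ℝ) < ε := hε
  have e2 : ∀ᶠ q in 𝓝 q0, ∀ i ∈ {i : ℕ | i < N}, ∀ j ∈ {j : ℕ | j < N},
      i < j → ‖z i‖ + ε < ‖q‖ * (‖z j‖ - ε) := by
    rw [Filter.eventually_all_finite (Set.finite_lt_nat N)]
    intro i hi
    rw [Filter.eventually_all_finite (Set.finite_lt_nat N)]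
    intro j hj
    by_cases hij : i < j
    · have h1 := hε1 i hi j hj hij
      have hc : ContinuousAt (fun q : ℂ => ‖q‖ * (‖z j‖ - ε)) q0 := by fun_prop
      have h2 : ‖z i‖ + ε < (fun q : ℂ => ‖q‖ * (‖z j‖ - ε)) q0 := by
        simp only [h0, one_mul]
        exact h1
      filter_upwards [hc.eventually (eventually_gt_nhds h2)] with q hq _
      exact hq
    · exact Filter.Eventually.of_forall fun q hq => absurd hq hij
  have e3 := frame_persist (q0 := q0) (le_of_eq h0) h hε0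
  rw [eventually_nhdsWithin_iff] at e3
  filter_upwards [e2, e3] with q h2 h3 hq
  obtain ⟨z', hz', hcl⟩ := h3 (le_of_lt hq)
  refine ⟨z', hz', ?_⟩
  intro i j hij hj
  have hi : i < N := hij.trans hj
  have h4 := h2 i hi j hj hij
  have h5 := hcl i hi
  have h6 := hcl j hj
  have h7 : ‖z' i‖ ≤ ‖z i‖ + ‖z' i - z i‖ := by
    calc ‖z' i‖ = ‖z i + (z' i - z i)‖ := by congr 1; ring
      _ ≤ ‖z i‖ + ‖z' i - z i‖ := norm_add_le _ _
  have h8 : ‖z j‖ ≤ ‖z' j‖ + ‖z' j - z j‖ := by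
    calc ‖z j‖ = ‖z' j - (z' j - z j)‖ := by congr 1; ring
      _ ≤ ‖z' j‖ + ‖z' j - z j‖ := norm_sub_le _ _
  have h9 : ‖q‖ * (‖z j‖ - ε) ≤ ‖q‖ * ‖z' j‖ :=
    mul_le_mul_of_nonneg_left (by linarith) (norm_nonneg _)
  linarith

theorem strong_near (h1 : ∀ q : ℂ, ‖q‖ = 1 → q ≠ 1 → Nice q)
    (h52 : ∀ N : ℕ, ∃ ε > 0, ∀ q : ℂ, ‖q‖ ≤ 1 → q ≠ 1 → ‖q - 1‖ < ε →
      ∃ z : ℕ → ℂ, Frame q N z ∧ Strong q N z) (N : ℕ) :
    ∃ ρ : ℝ, 0 < ρ ∧ ρ < 1 ∧ ∀ q : ℂ, ρ ≤ ‖q‖ → ‖q‖ < 1 →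
      ∃ z : ℕ → ℂ, Frame q N z ∧ Strong q N z := by
  have hloc : ∀ q0 : ℂ, ‖q0‖ = 1 → ∀ᶠ q in 𝓝 q0, ‖q‖ < 1 →
      ∃ z : ℕ → ℂ, Frame q N z ∧ Strong q N z := by
    intro q0 hq0
    by_cases h : q0 = 1
    · subst h
      obtain ⟨ε, hε, H⟩ := h52 N
      have hb : Metric.ball (1:ℂ) ε ∈ 𝓝 (1:ℂ) := Metric.ball_mem_nhds _ hε
      filter_upwards [hb] with q hq hq1
      refine H q hq1.le ?_ ?_
      · rintro rfl
        simp at hq1
      · rw [Metric.mem_ball, dist_eq_norm] at hq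
        exact hq
    · obtain ⟨z, hz⟩ := exists_frame hq0 h (h1 q0 hq0 h) N
      exact strong_persist hq0 hz
  set P : Set ℂ := {q | ‖q‖ < 1 → ∃ z : ℕ → ℂ, Frame q N z ∧ Strong q N z} with hP
  have hU : ∀ q0 : ℂ, ‖q0‖ = 1 → q0 ∈ interior P := by
    intro q0 hq0
    rw [mem_interior_iff_mem_nhds]
    exact hloc q0 hq0
  have hK : IsCompact (Metric.closedBall (0:ℂ) 1 \ interior P) :=
    (isCompact_closedBall (0:ℂ) 1).diff isOpen_interior
  rcases (Metric.closedBall (0:ℂ) 1 \ interior P).eq_empty_or_nonempty with hE | hE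
  · refine ⟨1 / 2, by norm_num, by norm_num, ?_⟩
    intro q _ hq
    have hq2 : q ∈ interior P := by
      by_contra hn
      have : q ∈ Metric.closedBall (0:ℂ) 1 \ interior P := ⟨by simpa using hq.le, hn⟩
      rw [hE] at this
      exact this
    exact interior_subset hq2 hq
  · obtain ⟨x, hx, hmax⟩ := hK.exists_isMaxOn hE (continuous_norm.continuousOn)
    have hx1 : ‖x‖ < 1 := by
      have h2 : ‖x‖ ≤ 1 := by simpa using hx.1
      rcases lt_or_eq_of_le h2 with h3 | h3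
      · exact h3
      · exact absurd (hU x h3) hx.2
    have hx0 := norm_nonneg x
    refine ⟨(‖x‖ + 1) / 2, by linarith, by linarith, ?_⟩
    intro q hq1 hq
    have hq2 : q ∈ interior P := by
      by_contra hn
      have h4 : q ∈ Metric.closedBall (0:ℂ) 1 \ interior P := ⟨by simpa using hq.le, hn⟩
      have h5 : ‖q‖ ≤ ‖x‖ := hmax h4
      linarith
    exact interior_subset hq2 hq

end SokC
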