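import Pool.Agent.Lib.MP_816dec_an.PS3
import Pool.Agent.Lib.MP_816dec_an.PI2

/-!
MP_816dec_an, part C, row END: |q| < 1 from |q| = 1.
-/

open Complex Set Filter Topology

namespace SokC

open Sok

theorem partC (h1 : ∀ q : ℂ, ‖q‖ = 1 → q ≠ 1 → Nice q)
    (h52 : ∀ N : ℕ, ∃ ε > 0, ∀ q : ℂ, ‖q‖ ≤ 1 → q ≠ 1 → ‖q - 1‖ < ε →
      ∃ z : ℕ → ℂ, Frame q N z ∧ Strong q N z) {q : ℂ} (hq0 : q ≠ 0) (hq : ‖q‖ < 1) : Nice q :=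
  inside (strong_near h1 h52) hq0 hq

end SokC
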