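import Pool.Agent.Lib.MP_816dec_an.PDefs

/-!
MP_816dec_an, part C, row FAC: factorisation of an entire function by its zeros in a closed disc.
Recipe for `exists_factor`. P(N): there are w, H entire, H 0 = 1, w i ≠ 0, |w i| ≤ R, f (w i) = 0,
f = ∏_(i<N) (1 - z / w i) H. P(0) holds. If P(N) then 2 ^ N ≤ C := max of |f| on |z| ≤ 3 R (maximum
principle for H: 1 = |H 0| ≤ max_(|z| = 3R) |H|, and |1 - z / w i| ≥ 3 - 1 = 2 there). Take the largest N
(Nat.findGreatest). If H z1 = 0, |z1| ≤ R then z1 ≠ 0 and H = (1 - z / z1) H1, H1 = - z1 * dslope H z1,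
entire (Differentiable of dslope: AnalyticAt or `Differentiable.dslope`-like lemma), H1 0 = 1: P(N+1).
`exists_log`: primitive of H'/H (DifferentiableOn.isExactOn_ball), with value 0 at 0.
`exists_fac`: for entire f, zero free closed disc |z| ≤ R is contained in a larger zero free open disc.
-/

open Complex Set Filter Topology

namespace SokC

open Sok

/-- dividing an entire function with `H 0 = 1` by a zero -/
private theorem div_zero {H : ℂ → ℂ} (hH : Differentiable ℂ H) (h0 : H 0 = 1) {z1 : ℂ}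
    (hz1 : H z1 = 0) : z1 ≠ 0 ∧ ∃ H1 : ℂ → ℂ, Differentiable ℂ H1 ∧ H1 0 = 1 ∧
      ∀ z, H z = (1 - z / z1) * H1 z := by
  have hne : z1 ≠ 0 := by
    intro h
    rw [h, h0] at hz1
    exact one_ne_zero hz1
  have hd : Differentiable ℂ (dslope H z1) := by
    have h1 := (Complex.differentiableOn_dslope (f := H) (s := univ) (c := z1) univ_mem).2
      hH.differentiableOn
    exact fun z => (h1 z (mem_univ z)).differentiableAt univ_mem
  have hfac : ∀ z, H z = (1 - z / z1) * (-z1 * dslope H z1 z) := by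
    intro z
    have h1 := sub_smul_dslope H z1 z
    rw [hz1, sub_zero, smul_eq_mul] at h1
    rw [← h1]
    field_simp
    ring
  refine ⟨hne, fun z => -z1 * dslope H z1 z, hd.const_mul _, ?_, hfac⟩
  have h1 := hfac 0
  rw [h0, zero_div, sub_zero, one_mul] at h1
  exact h1.symm

private def PF (f : ℂ → ℂ) (R : ℝ) (N : ℕ) : Prop :=
  ∃ (w : ℕ → ℂ) (H : ℂ → ℂ), Differentiable ℂ H ∧ H 0 = 1 ∧
      (∀ i < N, w i ≠ 0 ∧ ‖w i‖ ≤ R ∧ f (w i) = 0) ∧
      (∀ z, f z = (∏ i ∈ Finset.range N, (1 - z / w i)) * H z)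

private theorem PF_bound {f : ℂ → ℂ} {R : ℝ} (hR : 0 < R) {C : ℝ}
    (hC : ∀ z, ‖z‖ = 3 * R → ‖f z‖ ≤ C) {N : ℕ} (h : PF f R N) : (2:ℝ) ^ N ≤ C := by
  obtain ⟨w, H, hH, h0, hw, hf⟩ := h
  have hpos : (0:ℝ) < 2 ^ N := by positivity
  have hb : ∀ z ∈ frontier (Metric.ball (0:ℂ) (3 * R)), ‖H z‖ ≤ C / 2 ^ N := by
    intro z hz
    rw [frontier_ball _ (by positivity), mem_sphere_zero_iff_norm] at hz
    have h1 : (2:ℝ) ^ N ≤ ‖∏ i ∈ Finset.range N, (1 - z / w i)‖ := by
      have : (2:ℝ) ^ N = ∏ i ∈ Finset.range N, (2:ℝ) := by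
        rw [Finset.prod_const, Finset.card_range]
      rw [norm_prod, this]
      refine Finset.prod_le_prod (fun i _ => by norm_num) (fun i hi => ?_)
      obtain ⟨hwi, hwR, -⟩ := hw i (Finset.mem_range.1 hi)
      have h2 : (3:ℝ) ≤ ‖z / w i‖ := by
        rw [norm_div, hz, le_div_iff₀ (norm_pos_iff.2 hwi)]
        linarith
      have h3 := norm_sub_norm_le (z / w i) 1
      rw [norm_one, norm_sub_rev] at h3
      linarith
    have h2 := hC z hz
    rw [hf z, norm_mul] at h2
    rw [le_div_iff₀ hpos]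
    calc ‖H z‖ * 2 ^ N ≤ ‖H z‖ * ‖∏ i ∈ Finset.range N, (1 - z / w i)‖ :=
          mul_le_mul_of_nonneg_left h1 (norm_nonneg _)
      _ ≤ C := by rw [mul_comm]; exact h2
  have h3 := Complex.norm_le_of_forall_mem_frontier_norm_le (Metric.isBounded_ball)
    (hH.diffContOnCl) hb (subset_closure (Metric.mem_ball_self (by positivity)))
  rw [h0, norm_one, le_div_iff₀ hpos, one_mul] at h3
  exact h3

theorem exists_factor {f : ℂ → ℂ} (hf : Differentiable ℂ f) (hf0 : f 0 = 1) {R : ℝ} (hR : 0 < R) :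
    ∃ (N : ℕ) (w : ℕ → ℂ) (H : ℂ → ℂ), Differentiable ℂ H ∧ H 0 = 1 ∧
      (∀ i < N, w i ≠ 0 ∧ ‖w i‖ ≤ R ∧ f (w i) = 0) ∧
      (∀ z, f z = (∏ i ∈ Finset.range N, (1 - z / w i)) * H z) ∧ ∀ z, ‖z‖ ≤ R → H z ≠ 0 := by
  obtain ⟨C, hC⟩ : ∃ C : ℝ, ∀ z, ‖z‖ = 3 * R → ‖f z‖ ≤ C := by
    obtain ⟨C, hC⟩ := (isCompact_sphere (0:ℂ) (3 * R)).exists_bound_of_continuousOn
      hf.continuous.continuousOn
    exact ⟨C, fun z hz => hC z (mem_sphere_zero_iff_norm.2 hz)⟩
  have h0 : PF f R 0 := ⟨fun _ => 1, f, hf, hf0, by simp, by simp⟩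
  have hex : ∃ N, PF f R N ∧ ¬ PF f R (N + 1) := by
    by_contra hno
    push Not at hno
    have hall : ∀ N, PF f R N := by
      intro N
      induction N with
      | zero => exact h0
      | succ N ih => exact hno N ih
    obtain ⟨N, hN⟩ := pow_unbounded_of_one_lt C (by norm_num : (1:ℝ) < 2)
    exact absurd (PF_bound hR hC (hall N)) (not_le.2 hN)
  obtain ⟨N, ⟨w, H, hH, hH0, hw, hfac⟩, hno⟩ := hex
  refine ⟨N, w, H, hH, hH0, hw, hfac, ?_⟩
  intro z1 hz1 hHz
  apply hno
  obtain ⟨hne, H1, hH1, hH10, hH1f⟩ := div_zero hH hH0 hHz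
  refine ⟨fun i => if i = N then z1 else w i, H1, hH1, hH10, ?_, ?_⟩
  · intro i hi
    by_cases hiN : i = N
    · simp only [hiN, if_true]
      refine ⟨hne, hz1, ?_⟩
      rw [hfac, hHz, mul_zero]
    · simp only [hiN, if_false]
      exact hw i (by omega)
  · intro z
    rw [hfac z, Finset.prod_range_succ, hH1f z]
    simp only [if_true]
    have : ∏ i ∈ Finset.range N, (1 - z / (if i = N then z1 else w i)) =
        ∏ i ∈ Finset.range N, (1 - z / w i) := by
      refine Finset.prod_congr rfl fun i hi => ?_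
      have : i ≠ N := (Finset.mem_range.1 hi).ne
      rw [if_neg this]
    rw [this]
    ring

theorem exists_log {H : ℂ → ℂ} {b : ℝ} (hb : 0 < b) (hd : DifferentiableOn ℂ H (Metric.ball 0 b))
    (h0 : H 0 = 1) (hne : ∀ z ∈ Metric.ball (0:ℂ) b, H z ≠ 0) :
    ∃ l : ℂ → ℂ, DifferentiableOn ℂ l (Metric.ball 0 b) ∧ l 0 = 0 ∧
      ∀ z ∈ Metric.ball (0:ℂ) b, H z = exp (l z) := by
  have hd' : DifferentiableOn ℂ (deriv H) (Metric.ball 0 b) := hd.deriv Metric.isOpen_ball
  obtain ⟨g, hg⟩ := (hd'.div hd hne).isExactOn_ball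
  have hl : ∀ z ∈ Metric.ball (0:ℂ) b, HasDerivAt (fun z => g z - g 0) (deriv H z / H z) z :=
    fun z hz => (hg z hz).sub_const _
  refine ⟨fun z => g z - g 0, fun z hz => (hl z hz).differentiableAt.differentiableWithinAt,
    by simp, ?_⟩
  have hK : ∀ z ∈ Metric.ball (0:ℂ) b,
      HasDerivAt (fun z => H z * exp (-(g z - g 0))) 0 z := by
    intro z hz
    have h1 := (hd.differentiableAt (Metric.isOpen_ball.mem_nhds hz)).hasDerivAt
    have h2' : HasDerivAt (fun z => exp (-(g z - g 0)))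
        (exp (-(g z - g 0)) * -(deriv H z / H z)) z := (hl z hz).neg.cexp
    have h2 : HasDerivAt (fun z => H z * exp (-(g z - g 0)))
        (deriv H z * exp (-(g z - g 0)) + H z * (exp (-(g z - g 0)) * -(deriv H z / H z))) z :=
      h1.mul h2'
    have e : deriv H z * exp (-(g z - g 0)) + H z * (exp (-(g z - g 0)) * -(deriv H z / H z)) = 0 := by
      have := hne z hz
      field_simp
      ring
    rw [e] at h2
    exact h2
  have h0m : (0:ℂ) ∈ Metric.ball (0:ℂ) b := Metric.mem_ball_self hb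
  intro z hz
  have hc := Metric.isOpen_ball.is_const_of_deriv_eq_zero (convex_ball (0:ℂ) b).isPreconnected
    (f := fun z => H z * exp (-(g z - g 0)))
    (fun z hz => (hK z hz).differentiableAt.differentiableWithinAt)
    (fun z hz => (hK z hz).deriv) hz h0m
  simp only [h0, sub_self, neg_zero, exp_zero, mul_one] at hc
  rw [exp_neg] at hc
  have := exp_ne_zero (g z - g 0)
  field_simp at hc
  exact hc

private theorem F0 (q : ℂ) : F q 0 = 1 := F_zero q

/-- all zeros in the closed disc of radius R, with multiplicity -/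
theorem exists_fac {q : ℂ} (hq : ‖q‖ ≤ 1) {R : ℝ} (hR : 0 < R) :
    ∃ (N : ℕ) (w : ℕ → ℂ) (b : ℝ) (l : ℂ → ℂ), R < b ∧ Fac q N w b l ∧
      ∀ i < N, ‖w i‖ ≤ R ∧ F q (w i) = 0 := by
  obtain ⟨N, w, H, hH, hH0, hw, hfac, hne⟩ := exists_factor (differentiable_F hq) (F_zero q) hR
  have hopen : IsOpen {z : ℂ | H z ≠ 0} := isOpen_ne_fun hH.continuous continuous_const
  obtain ⟨δ, hδ, hsub⟩ := (isCompact_closedBall (0:ℂ) R).exists_thickening_subset_open hopen
    (fun z hz => hne z (mem_closedBall_zero_iff.1 hz))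
  rw [thickening_closedBall hδ hR.le] at hsub
  obtain ⟨l, hl, hl0, hle⟩ := exists_log (b := δ + R) (by linarith) hH.differentiableOn hH0
    (fun z hz => hsub hz)
  refine ⟨N, w, δ + R, l, by linarith, ⟨fun i hi => (hw i hi).1, hl, hl0, ?_⟩,
    fun i hi => (hw i hi).2⟩
  intro z hz
  rw [hfac z, hle z hz]

/-- the factorisation given by a frame: zero free up to the next zero -/
theorem Frame.exists_fac {q : ℂ} (hq : ‖q‖ ≤ 1) {N : ℕ} {z : ℕ → ℂ} (h : Frame q (N + 1) z) :
    ∃ l : ℂ → ℂ, Fac q N z ‖z N‖ l := by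
  have hz0 : ∀ i < N + 1, z i ≠ 0 := by
    intro i hi h0
    have := h.zero i hi
    rw [h0, F_zero] at this
    exact one_ne_zero this
  have hP : ∀ n ≤ N, ∃ H : ℂ → ℂ, Differentiable ℂ H ∧ H 0 = 1 ∧
      ∀ x, F q x = (∏ i ∈ Finset.range n, (1 - x / z i)) * H x := by
    intro n
    induction n with
    | zero => intro _; exact ⟨F q, differentiable_F hq, F_zero q, by simp⟩
    | succ n ih =>
      intro hn
      obtain ⟨H, hH, hH0, hf⟩ := ih (by omega)
      have hzn : H (z n) = 0 := by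
        have h1 := h.zero n (by omega)
        rw [hf] at h1
        rcases mul_eq_zero.1 h1 with h2 | h2
        · exfalso
          obtain ⟨i, hi, h3⟩ := Finset.prod_eq_zero_iff.1 h2
          have hi' := Finset.mem_range.1 hi
          have h4 := h.mono i n hi' (by omega)
          have h5 : z n = z i := by
            have := hz0 i (by omega)
            field_simp at h3
            linear_combination -h3
          rw [h5] at h4
          exact lt_irrefl _ h4
        · exact h2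
      obtain ⟨-, H1, hH1, hH10, hH1f⟩ := div_zero hH hH0 hzn
      refine ⟨H1, hH1, hH10, fun x => ?_⟩
      rw [hf, Finset.prod_range_succ, hH1f x]
      ring
  obtain ⟨H, hH, hH0, hf⟩ := hP N le_rfl
  have hne : ∀ x ∈ Metric.ball (0:ℂ) ‖z N‖, H x ≠ 0 := by
    intro x hx hHx
    rw [mem_ball_zero_iff] at hx
    have h1 : F q x = 0 := by rw [hf, hHx, mul_zero]
    obtain ⟨j, hj, rfl⟩ := h.all x h1 N (by omega) hx.le
    have hjN : j < N := by
      rcases Nat.lt_succ_iff_lt_or_eq.1 hj with h2 | h2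
      · exact h2
      · rw [h2] at hx
        exact absurd hx (lt_irrefl _)
    have hzj := hz0 j hj
    obtain ⟨K, hK⟩ : ∃ K : ℂ → ℂ, K = fun x => (∏ i ∈ (Finset.range N).erase j, (1 - x / z i)) * H x :=
      ⟨_, rfl⟩
    have hKd : DifferentiableAt ℂ K (z j) := by
      rw [hK]
      refine DifferentiableAt.mul ?_ (hH (z j))
      fun_prop
    have hK0 : K (z j) = 0 := by rw [hK]; simp [hHx]
    have hFK : F q = fun x => (1 - x / z j) * K x := by
      funext x
      rw [hf, hK, ← Finset.mul_prod_erase _ _ (Finset.mem_range.2 hjN)]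
      ring
    have h2 : HasDerivAt (fun x : ℂ => 1 - x / z j) (-(1 / z j)) (z j) := by
      have := ((hasDerivAt_id (z j)).div_const (z j)).const_sub 1
      simpa using this
    have h3 := h2.mul hKd.hasDerivAt
    rw [hK0, mul_zero, zero_add, div_self hzj, sub_self, zero_mul] at h3
    have h4 : deriv (F q) (z j) = 0 := by
      rw [hFK]
      exact h3.deriv
    rw [deriv_F hq] at h4
    exact h.simple j hj h4
  obtain ⟨l, hl, hl0, hle⟩ := exists_log (norm_pos_iff.2 (hz0 N (by omega))) hH.differentiableOn hH0 hne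
  refine ⟨l, fun i hi => hz0 i (by omega), hl, hl0, fun x hx => ?_⟩
  rw [hf x, hle x hx]

end SokC
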