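import Pool.Agent.Lib.MP_816dec_an.PAsm
import Pool.Agent.Lib.MP_816dec_an.Cover
import Pool.Agent.Lib.MP_816dec_an.CNF

/-!
MP_816dec_an, final assembly: the frozen statement from
(A) the three families of circles of radius ≥ R0 (Cover), (B) the chain of certificates for the radii < R0
(`Reach`, Arc). Claim (5.2) (strong frames near q = 1) is `near_one_final`.
-/

open Complex Set Filter Topology

namespace SokC

open Sok

theorem nice_circle (h : ∀ α ∈ Ioc 0 Real.pi, Good Fa α) (q : ℂ) (hq : ‖q‖ = 1) : Nice q := by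
  obtain ⟨k1, k2⟩ := unit_circle h hq
  refine ⟨fun z hz => ?_, k2⟩
  have := k1 z hz
  rwa [deriv_F hq.le] at this

/-- claim (5.2) in the form needed -/
theorem claim52 (N : ℕ) : ∃ ε > 0, ∀ q : ℂ, ‖q‖ ≤ 1 → q ≠ 1 → ‖q - 1‖ < ε →
      ∃ z : ℕ → ℂ, Frame q N z ∧ Strong q N z := by
  obtain ⟨ε, hε, h⟩ := near_one_final N
  refine ⟨min ε 1, lt_min hε one_pos, fun q hq hq1 hqε => ?_⟩
  have hq0 : q ≠ 0 := by
    rintro rfl
    have := lt_of_lt_of_le hqε (min_le_right _ _)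
    simp at this
  obtain ⟨z, hz⟩ := h q hq hq1 (lt_of_lt_of_le hqε (min_le_left _ _))
  exact ⟨z, frame_of_incr hq0 hq hz.zero hz.simple hz.incr hz.complete⟩

theorem final {R0 a : ℝ} {N : ℕ} {c : ℕ → ℂ} {s : ℕ → ℝ} (hR0 : 1 ≤ R0)
    (A1 : ∀ β r : ℝ, R0 ≤ r → 0 < β → Real.exp (-1) ≤ β * r →
      Real.sqrt 3 / 2 * (1 + (β * r) ^ 2) ≤ 2 * Real.pi * r → Circ β r)
    (A2 : ∀ β r : ℝ, R0 ≤ r → 0 ≤ β →
      Real.sqrt 3 / 2 * (4 * (1 + (β * r) ^ 2)) ≤ 2 * Real.pi * r → Circ (Real.pi + β) r)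
    (A3 : ∀ (b : ℕ) (p : ℤ) (β r : ℝ), 3 ≤ b → IsCoprime (b : ℤ) p → R0 ≤ r → 0 ≤ β →
      Real.sqrt 3 / 2 * ((b : ℝ) ^ 2 * (1 + (β * r) ^ 2)) ≤ 2 * Real.pi * r →
      Circ (2 * Real.pi * p / b + β) r)
    (B : Reach R0 a N c s) (ha : R0 * a < Real.exp (-1)) : ∀ q : ℂ, 0 < ‖q‖ → ‖q‖ ≤ 1 →
    (∀ z : ℂ, (∑' k : ℕ, q ^ (k * (k - 1) / 2) * z ^ k / (k.factorial : ℂ)) = 0 →
      deriv (fun w : ℂ => ∑' k : ℕ, q ^ (k * (k - 1) / 2) * w ^ k / (k.factorial : ℂ)) z ≠ 0) ∧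
    (∀ z w : ℂ, (∑' k : ℕ, q ^ (k * (k - 1) / 2) * z ^ k / (k.factorial : ℂ)) = 0 →
      (∑' k : ℕ, q ^ (k * (k - 1) / 2) * w ^ k / (k.factorial : ℂ)) = 0 →
      ‖z‖ = ‖w‖ → z = w) := by
  refine assembly (fun q hq _ => nice_circle ?_ q hq) claim52
  exact good_arc (by linarith) ha B fun α _ => goodOut_of_pieces hR0 A1 A2 A3 α

end SokC
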