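import Pool.Agent.Lib.MP_816dec_an.PPers
import Pool.Agent.Lib.MP_816dec_an.PLog

/-!
MP_816dec_an, part C, row LG: section 4 of sok_C_v2.md.
Recipe. `l_cont`: q -> q* on the sphere. w := |z* N|, |v q*| < b1 < |z* N|, choose b1 with |z* (N-1)| < b1 also.
On |ζ| = b1 F q ζ -> F q* ζ uniformly, ∏ (1 - ζ / z q i) -> ∏ (1 - ζ / z q* i), bounded below, so
exp (l q) -> exp (l q*) uniformly on |ζ| = b1, hence on |ζ| ≤ b1 (maximum modulus for the difference).
exp (l q - l q*) -> 1 uniformly, l q - l q* vanishes at 0, so l q - l q* = Log (exp (l q - l q*)) on |ζ| ≤ b1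
(connectedness) -> 0. Finally l q (v q) - l q* (v q*) -> 0.
`frame_log`: with the factorisation by z 0, .., z i: F'(z i) = F (q z i) gives
-1/z_i = (1-q) ∏_(j<i) (1 - q z_i/z_j)/(1 - z_i/z_j) exp (l (q z_i) - l (z_i)), and
(1 - q z_i/z_j)/(1 - z_i/z_j) = q (1 - z_j/(q z_i))/(1 - z_j/z_i), all |u| < 1 in 1 - u.
-/

open Complex Set Filter Topology

namespace SokC

open Sok

private theorem exists_lt_finite (f : ℕ → ℝ) {B c : ℝ} (hc : c < B) (N : ℕ) (h : ∀ i < N, f i < B) :
    ∃ m, c < m ∧ m < B ∧ ∀ i < N, f i < m := by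
  induction N with
  | zero =>
    obtain ⟨m, h1, h2⟩ := exists_between hc
    exact ⟨m, h1, h2, fun i hi => absurd hi (Nat.not_lt_zero i)⟩
  | succ N ih =>
    obtain ⟨m, h1, h2, h3⟩ := ih fun i hi => h i (hi.trans (Nat.lt_succ_self N))
    obtain ⟨m', h4, h5⟩ := exists_between (max_lt h2 (h N (Nat.lt_succ_self N)))
    refine ⟨m', h1.trans ((le_max_left _ _).trans_lt h4), h5, fun i hi => ?_⟩
    rcases Nat.lt_succ_iff_lt_or_eq.1 hi with hi | rfl
    · exact (h3 i hi).trans ((le_max_left _ _).trans_lt h4)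
    · exact (le_max_right _ _).trans_lt h4

/-- a function vanishing at `0` whose exponential stays close to one is small -/
private theorem small_of_exp {D : ℂ → ℂ} {b ε : ℝ} (hD : ContinuousOn D (Metric.closedBall 0 b))
    (h0 : D 0 = 0) (hε : ε ≤ 1 / 2) (h : ∀ w ∈ Metric.closedBall (0 : ℂ) b, ‖exp (D w) - 1‖ ≤ ε)
    {w : ℂ} (hw : w ∈ Metric.closedBall (0 : ℂ) b) : ‖D w‖ ≤ 3 / 2 * ε := by
  have hseg : ∀ t ∈ Icc (0 : ℝ) 1, (t : ℂ) * w ∈ Metric.closedBall (0 : ℂ) b := by
    intro t ht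
    rw [mem_closedBall_zero_iff] at hw ⊢
    rw [norm_mul, norm_real, Real.norm_eq_abs, abs_of_nonneg ht.1]
    nlinarith [norm_nonneg w, ht.2]
  have hg : ContinuousOn (fun t : ℝ => (D ((t : ℂ) * w)).im) (Icc 0 1) := by
    refine Complex.continuous_im.comp_continuousOn (hD.comp ?_ hseg)
    exact (continuous_ofReal.mul continuous_const).continuousOn
  have hne : ∀ t ∈ Icc (0 : ℝ) 1, (D ((t : ℂ) * w)).im ≠ Real.pi / 2 ∧
      (D ((t : ℂ) * w)).im ≠ -(Real.pi / 2) := by
    intro t ht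
    have h1 := (h _ (hseg t ht)).trans hε
    have h2 : 1 / 2 ≤ (exp (D ((t : ℂ) * w))).re := by
      have h3 := abs_re_le_norm (exp (D ((t : ℂ) * w)) - 1)
      rw [sub_re, one_re] at h3
      have h4 := abs_le.1 (h3.trans h1)
      linarith [h4.1]
    rw [exp_re] at h2
    constructor
    · intro h5
      rw [h5, Real.cos_pi_div_two, mul_zero] at h2
      linarith
    · intro h5
      rw [h5, Real.cos_neg, Real.cos_pi_div_two, mul_zero] at h2
      linarith
  have hg0 : (D (((0 : ℝ) : ℂ) * w)).im = 0 := by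
    rw [ofReal_zero, zero_mul, h0, zero_im]
  have hup : (D w).im < Real.pi / 2 := by
    by_contra hcon
    have hmem : Real.pi / 2 ∈ Icc ((D (((0 : ℝ) : ℂ) * w)).im) ((D (((1 : ℝ) : ℂ) * w)).im) := by
      rw [hg0, ofReal_one, one_mul]
      exact ⟨by positivity, not_lt.1 hcon⟩
    obtain ⟨t, ht, he⟩ := intermediate_value_Icc zero_le_one hg hmem
    exact (hne t ht).1 he
  have hlo : -(Real.pi / 2) < (D w).im := by
    by_contra hcon
    have hmem : -(Real.pi / 2) ∈ Icc ((D (((1 : ℝ) : ℂ) * w)).im) ((D (((0 : ℝ) : ℂ) * w)).im) := by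
      rw [hg0, ofReal_one, one_mul]
      exact ⟨not_lt.1 hcon, by linarith [Real.pi_pos]⟩
    obtain ⟨t, ht, he⟩ := intermediate_value_Icc' zero_le_one hg hmem
    exact (hne t ht).2 he
  have hlog : log (exp (D w)) = D w := log_exp (by linarith [Real.pi_pos]) (by linarith [Real.pi_pos])
  have h1 := norm_log_one_add_half_le_self ((h w hw).trans hε)
  rw [add_sub_cancel, hlog] at h1
  exact h1.trans (mul_le_mul_of_nonneg_left (h w hw) (by norm_num))

theorem l_cont {ρ : ℝ} (hρ0 : 0 < ρ) (hρ : ρ ≤ 1) {N : ℕ} {z : ℂ → ℕ → ℂ} {l : ℂ → ℂ → ℂ}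
    (h : ∀ q ∈ Metric.sphere (0:ℂ) ρ, Frame q (N + 1) (z q))
    (hl : ∀ q ∈ Metric.sphere (0:ℂ) ρ, Fac q N (z q) ‖z q N‖ (l q)) {v : ℂ → ℂ}
    (hv : ContinuousOn v (Metric.sphere 0 ρ)) (hv1 : ∀ q ∈ Metric.sphere (0:ℂ) ρ, ‖v q‖ < ‖z q N‖) :
    ContinuousOn (fun q => l q (v q)) (Metric.sphere 0 ρ) := by
  intro p hp
  have hcz := frame_cont hρ h
  obtain ⟨b, hb1, hb2, hb3⟩ := exists_lt_finite (fun i => ‖z p i‖) (hv1 p hp) N fun i hi =>
    (h p hp).mono i N hi (Nat.lt_succ_self N)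
  have hb0 : 0 < b := (norm_nonneg _).trans_lt hb1
  have hsub : ∀ q : ℂ, q ∈ Metric.sphere (0:ℂ) ρ → ‖q‖ ≤ 1 := fun q hq => by
    rw [mem_sphere_zero_iff_norm] at hq
    linarith
  -- eventual inequalities
  have ev1 : ∀ᶠ q in 𝓝[Metric.sphere 0 ρ] p, b < ‖z q N‖ :=
    (hcz N (Nat.lt_succ_self N) p hp).norm.eventually (lt_mem_nhds hb2)
  have ev2 : ∀ᶠ q in 𝓝[Metric.sphere 0 ρ] p, ∀ i ∈ Finset.range N, ‖z q i‖ < b := by
    rw [Filter.eventually_all_finset]
    intro i hi
    have hi' := Finset.mem_range.1 hi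
    exact (hcz i (hi'.trans (Nat.lt_succ_self N)) p hp).norm.eventually (gt_mem_nhds (hb3 i hi'))
  have ev3 : ∀ᶠ q in 𝓝[Metric.sphere 0 ρ] p, ‖v q‖ < b :=
    (hv p hp).norm.eventually (gt_mem_nhds hb1)
  -- uniform convergence on the circle
  have hFp : ∀ y ∈ Metric.sphere (0:ℂ) b, F p y ≠ 0 := by
    intro y hy
    rw [mem_sphere_zero_iff_norm] at hy
    rw [(hl p hp).eq y (by rw [mem_ball_zero_iff, hy]; exact hb2)]
    refine mul_ne_zero (Finset.prod_ne_zero_iff.2 fun i hi => ?_) (exp_ne_zero _)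
    have hi' := Finset.mem_range.1 hi
    intro h1
    have h2 : y / z p i = 1 := (sub_eq_zero.1 h1).symm
    rw [div_eq_one_iff_eq ((hl p hp).ne i hi')] at h2
    have h3 := hb3 i hi'
    rw [← h2, hy] at h3
    exact lt_irrefl _ h3
  have hprod : ∀ q ∈ Metric.sphere (0:ℂ) ρ, (∀ i ∈ Finset.range N, ‖z q i‖ < b) →
      ∀ y ∈ Metric.sphere (0:ℂ) b, ∏ i ∈ Finset.range N, (1 - y / z q i) ≠ 0 := by
    intro q hq hzb y hy
    rw [mem_sphere_zero_iff_norm] at hy
    refine Finset.prod_ne_zero_iff.2 fun i hi => ?_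
    have hi' := Finset.mem_range.1 hi
    intro h1
    have h2 : y / z q i = 1 := (sub_eq_zero.1 h1).symm
    rw [div_eq_one_iff_eq ((hl q hq).ne i hi')] at h2
    have h3 := hzb i hi
    rw [← h2, hy] at h3
    exact lt_irrefl _ h3
  have hunif : ∀ ε > 0, ∀ᶠ q in 𝓝[Metric.sphere 0 ρ] p, ∀ y ∈ Metric.sphere (0:ℂ) b,
      ‖(F q y * ∏ i ∈ Finset.range N, (1 - y / z p i)) /
        (F p y * ∏ i ∈ Finset.range N, (1 - y / z q i)) - 1‖ ≤ ε := by
    intro ε hε
    rw [eventually_nhdsWithin_iff]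
    have h5 := (isCompact_sphere (0:ℂ) b).eventually_forall_of_forall_eventually (x₀ := p)
      (P := fun q y => q ∈ Metric.sphere (0:ℂ) ρ →
        ‖(F q y * ∏ i ∈ Finset.range N, (1 - y / z p i)) /
        (F p y * ∏ i ∈ Finset.range N, (1 - y / z q i)) - 1‖ ≤ ε) ?_
    · filter_upwards [h5] with q hq hqs y hy using hq y hy hqs
    · intro y hy
      have hcw : ContinuousWithinAt (fun r : ℂ × ℂ =>
          (F r.1 r.2 * ∏ i ∈ Finset.range N, (1 - r.2 / z p i)) /
          (F p r.2 * ∏ i ∈ Finset.range N, (1 - r.2 / z r.1 i)))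
          (Metric.sphere (0:ℂ) ρ ×ˢ univ) (p, y) := by
        have c1 : ContinuousWithinAt (fun r : ℂ × ℂ => F r.1 r.2)
            (Metric.sphere (0:ℂ) ρ ×ˢ univ) (p, y) :=
          (continuousOn_F (p, y) (hsub p hp)).mono fun r hr => hsub r.1 hr.1
        have c2 : ContinuousWithinAt (fun r : ℂ × ℂ => ∏ i ∈ Finset.range N, (1 - r.2 / z p i))
            (Metric.sphere (0:ℂ) ρ ×ˢ univ) (p, y) := by
          apply Continuous.continuousWithinAt
          refine continuous_finsetProd _ fun i _ => ?_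
          exact continuous_const.sub (continuous_snd.div_const _)
        have c3 : ContinuousWithinAt (fun r : ℂ × ℂ => F p r.2)
            (Metric.sphere (0:ℂ) ρ ×ˢ univ) (p, y) :=
          ((differentiable_F (hsub p hp)).continuous.comp continuous_snd).continuousWithinAt
        have c4 : ContinuousWithinAt (fun r : ℂ × ℂ => ∏ i ∈ Finset.range N, (1 - r.2 / z r.1 i))
            (Metric.sphere (0:ℂ) ρ ×ˢ univ) (p, y) := by
          refine tendsto_finsetProd _ fun i hi => ?_
          have hi' := Finset.mem_range.1 hi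
          have c5 : ContinuousWithinAt (fun r : ℂ × ℂ => z r.1 i)
              (Metric.sphere (0:ℂ) ρ ×ˢ univ) (p, y) :=
            ContinuousWithinAt.comp (t := Metric.sphere (0:ℂ) ρ) (g := fun q => z q i)
              (hcz i (hi'.trans (Nat.lt_succ_self N)) p hp) continuous_fst.continuousWithinAt
              fun r hr => hr.1
          exact continuousWithinAt_const.sub
            (continuous_snd.continuousWithinAt.div c5 ((hl p hp).ne i hi'))
        exact (c1.mul c2).div (c3.mul c4) (mul_ne_zero (hFp y hy)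
          (hprod p hp (fun i hi => hb3 i (Finset.mem_range.1 hi)) y hy))
      have hval : (F p y * ∏ i ∈ Finset.range N, (1 - y / z p i)) /
          (F p y * ∏ i ∈ Finset.range N, (1 - y / z p i)) = 1 :=
        div_self (mul_ne_zero (hFp y hy)
          (hprod p hp (fun i hi => hb3 i (Finset.mem_range.1 hi)) y hy))
      have h6 := Metric.continuousWithinAt_iff.1 hcw ε hε
      have h7 : ∀ᶠ r in 𝓝[Metric.sphere (0:ℂ) ρ ×ˢ univ] (p, y),
          dist ((F r.1 r.2 * ∏ i ∈ Finset.range N, (1 - r.2 / z p i)) /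
          (F p r.2 * ∏ i ∈ Finset.range N, (1 - r.2 / z r.1 i)))
          ((F p y * ∏ i ∈ Finset.range N, (1 - y / z p i)) /
          (F p y * ∏ i ∈ Finset.range N, (1 - y / z p i))) < ε :=
        hcw.eventually (Metric.ball_mem_nhds _ hε)
      rw [eventually_nhdsWithin_iff] at h7
      filter_upwards [h7] with r hr hrs
      have h8 := hr ⟨hrs, mem_univ _⟩
      rw [hval, dist_eq_norm] at h8
      exact h8.le
  -- continuity
  rw [Metric.continuousWithinAt_iff']
  intro ε hε
  set η : ℝ := min (1 / 2) (ε / 3) with hη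
  have hη0 : 0 < η := by positivity
  have hlp : ContinuousAt (l p) (v p) :=
    ((hl p hp).dif.differentiableAt (Metric.isOpen_ball.mem_nhds (by
      rw [mem_ball_zero_iff]; exact hv1 p hp))).continuousAt
  have ev4 : ∀ᶠ q in 𝓝[Metric.sphere 0 ρ] p, dist (l p (v q)) (l p (v p)) < ε / 2 :=
    (hlp.comp_continuousWithinAt (hv p hp)).eventually (Metric.ball_mem_nhds _ (half_pos hε))
  filter_upwards [ev1, ev2, ev3, ev4, hunif η hη0, self_mem_nhdsWithin] with q h1 h2 h3 h4 h5 hq
  have hballq : Metric.closedBall (0:ℂ) b ⊆ Metric.ball 0 ‖z q N‖ := fun w hw => by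
    rw [mem_closedBall_zero_iff] at hw
    rw [mem_ball_zero_iff]
    exact hw.trans_lt h1
  have hballp : Metric.closedBall (0:ℂ) b ⊆ Metric.ball 0 ‖z p N‖ := fun w hw => by
    rw [mem_closedBall_zero_iff] at hw
    rw [mem_ball_zero_iff]
    exact hw.trans_lt hb2
  have hDd : DifferentiableOn ℂ (fun w => l q w - l p w) (Metric.closedBall 0 b) :=
    ((hl q hq).dif.mono hballq).sub ((hl p hp).dif.mono hballp)
  have hDd' : DiffContOnCl ℂ (fun w => exp (l q w - l p w) - 1) (Metric.ball 0 b) :=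
    (hDd.cexp.sub (differentiableOn_const 1)).diffContOnCl_ball (Subset.refl _)
  have hsph : ∀ y ∈ Metric.sphere (0:ℂ) b, ‖exp (l q y - l p y) - 1‖ ≤ η := by
    intro y hy
    have h6 := h5 y hy
    have hyq : y ∈ Metric.ball (0:ℂ) ‖z q N‖ := hballq (Metric.sphere_subset_closedBall hy)
    have hyp : y ∈ Metric.ball (0:ℂ) ‖z p N‖ := hballp (Metric.sphere_subset_closedBall hy)
    have e : (F q y * ∏ i ∈ Finset.range N, (1 - y / z p i)) /
        (F p y * ∏ i ∈ Finset.range N, (1 - y / z q i)) = exp (l q y - l p y) := by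
      rw [(hl q hq).eq y hyq, (hl p hp).eq y hyp, exp_sub]
      have n1 := hprod p hp (fun i hi => hb3 i (Finset.mem_range.1 hi)) y hy
      have n2 := hprod q hq h2 y hy
      have n3 := exp_ne_zero (l p y)
      field_simp
    rw [e] at h6
    exact h6
  have hcb : ∀ w ∈ Metric.closedBall (0:ℂ) b, ‖exp (l q w - l p w) - 1‖ ≤ η := by
    intro w hw
    refine norm_le_of_forall_mem_frontier_norm_le Metric.isBounded_ball hDd' (fun y hy => ?_)
      (z := w) (by rw [closure_ball _ hb0.ne']; exact hw)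
    rw [frontier_ball _ hb0.ne'] at hy
    exact hsph y hy
  have h7 := small_of_exp (D := fun w => l q w - l p w) hDd.continuousOn
    (by simp only [(hl q hq).l0, (hl p hp).l0, sub_zero]) (min_le_left _ _) hcb
    (w := v q) (by rw [mem_closedBall_zero_iff]; exact h3.le)
  have h8 : 3 / 2 * η ≤ ε / 2 := by
    have := min_le_right (1 / 2) (ε / 3)
    rw [← hη] at this
    linarith
  calc dist (l q (v q)) (l p (v p)) ≤ dist (l q (v q)) (l p (v q)) + dist (l p (v q)) (l p (v p)) :=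
        dist_triangle _ _ _
    _ < ε / 2 + ε / 2 := by
        rw [dist_eq_norm (l q (v q))]
        exact add_lt_add_of_le_of_lt (h7.trans h8) h4
    _ = ε := add_halves ε

private theorem frame_sub {q : ℂ} {N M : ℕ} {z : ℕ → ℂ} (h : Frame q N z) (hM : M ≤ N) :
    Frame q M z := by
  refine ⟨fun i hi => h.zero i (hi.trans_le hM), fun i hi => h.simple i (hi.trans_le hM),
    fun i j hij hj => h.mono i j hij (hj.trans_le hM), fun w hw i hi hwi => ?_⟩
  obtain ⟨j, hj, he⟩ := h.all w hw i (hi.trans_le hM) hwi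
  refine ⟨j, ?_, he⟩
  by_contra hcon
  have h1 : i < j := hi.trans_le (not_lt.1 hcon)
  have h2 := h.mono i j h1 hj
  rw [he] at hwi
  exact absurd h2 (not_lt.2 hwi)

private theorem one_sub_mem {u : ℂ} (hu : ‖u‖ < 1) : 1 - u ∈ slitPlane := by
  left
  have h1 := abs_re_le_norm u
  have h2 := (abs_le.1 h1).2
  rw [sub_re, one_re]
  linarith

theorem frame_log {ρ : ℝ} (hρ0 : 0 < ρ) (hρ : ρ < 1) {N : ℕ} {z : ℂ → ℕ → ℂ}
    (h : ∀ q ∈ Metric.sphere (0:ℂ) ρ, Frame q (N + 1) (z q))
    (hs : ∀ q ∈ Metric.sphere (0:ℂ) ρ, Strong q (N + 1) (z q)) :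
    ∀ i < N, ∃ L : ℂ → ℂ, ContinuousOn L (Metric.sphere 0 ρ) ∧
      ∀ q ∈ Metric.sphere (0:ℂ) ρ, -(z q i)⁻¹ = q ^ i * exp (L q) := by
  intro i hi
  have hnq : ∀ q ∈ Metric.sphere (0:ℂ) ρ, ‖q‖ = ρ := fun q hq => by
    rwa [mem_sphere_zero_iff_norm] at hq
  have hq1 : ∀ q ∈ Metric.sphere (0:ℂ) ρ, ‖q‖ ≤ 1 := fun q hq => by
    rw [hnq q hq]; exact hρ.le
  have hq0 : ∀ q ∈ Metric.sphere (0:ℂ) ρ, q ≠ 0 := fun q hq => by
    rw [← norm_pos_iff, hnq q hq]; exact hρ0
  have hfr : ∀ q ∈ Metric.sphere (0:ℂ) ρ, Frame q (i + 1 + 1) (z q) := fun q hq =>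
    frame_sub (h q hq) (by omega)
  have hex : ∀ q ∈ Metric.sphere (0:ℂ) ρ, ∃ l : ℂ → ℂ, Fac q (i + 1) (z q) ‖z q (i + 1)‖ l :=
    fun q hq => (hfr q hq).exists_fac (hq1 q hq)
  choose! l hl using hex
  have hcz := frame_cont hρ.le h
  have hz0 : ∀ q ∈ Metric.sphere (0:ℂ) ρ, ∀ j < N + 1, z q j ≠ 0 := by
    intro q hq j hj h0
    have h1 := (h q hq).zero j hj
    rw [h0, F_zero] at h1
    exact one_ne_zero h1
  have hcv1 : ContinuousOn (fun q => z q i) (Metric.sphere 0 ρ) := hcz i (by omega)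
  have hcv2 : ContinuousOn (fun q => q * z q i) (Metric.sphere 0 ρ) := continuousOn_id.mul hcv1
  have hlt : ∀ q ∈ Metric.sphere (0:ℂ) ρ, ‖z q i‖ < ‖z q (i + 1)‖ := fun q hq =>
    (h q hq).mono i (i + 1) (Nat.lt_succ_self i) (by omega)
  have hlt2 : ∀ q ∈ Metric.sphere (0:ℂ) ρ, ‖q * z q i‖ < ‖z q (i + 1)‖ := fun q hq => by
    rw [norm_mul]
    refine lt_of_le_of_lt ?_ (hlt q hq)
    exact mul_le_of_le_one_left (norm_nonneg _) (hq1 q hq)
  have c1 := l_cont hρ0 hρ.le hfr hl hcv1 hlt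
  have c2 := l_cont hρ0 hρ.le hfr hl hcv2 hlt2
  have hu1 : ∀ q ∈ Metric.sphere (0:ℂ) ρ, ∀ j ∈ Finset.range i, ‖z q j / (q * z q i)‖ < 1 := by
    intro q hq j hj
    have hj' := Finset.mem_range.1 hj
    rw [norm_div, norm_mul, div_lt_one]
    · exact hs q hq j i hj' (by omega)
    · exact mul_pos (norm_pos_iff.2 (hq0 q hq)) (norm_pos_iff.2 (hz0 q hq i (by omega)))
  have hu2 : ∀ q ∈ Metric.sphere (0:ℂ) ρ, ∀ j ∈ Finset.range i, ‖z q j / z q i‖ < 1 := by
    intro q hq j hj
    have hj' := Finset.mem_range.1 hj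
    rw [norm_div, div_lt_one (norm_pos_iff.2 (hz0 q hq i (by omega)))]
    exact (h q hq).mono j i hj' (by omega)
  refine ⟨fun q => log (1 - q) + ∑ j ∈ Finset.range i, (log (1 - z q j / (q * z q i)) -
    log (1 - z q j / z q i)) + (l q (q * z q i) - l q (z q i)), ?_, ?_⟩
  · refine ContinuousOn.add (ContinuousOn.add ?_ ?_) (c2.sub c1)
    · exact (continuousOn_const.sub continuousOn_id).clog fun q hq =>
        one_sub_mem (by simp only [id]; rw [hnq q hq]; exact hρ)
    · refine continuousOn_finsetSum _ fun j hj => ?_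
      have hj' := Finset.mem_range.1 hj
      have hcj : ContinuousOn (fun q => z q j) (Metric.sphere 0 ρ) := hcz j (by omega)
      refine ContinuousOn.sub ?_ ?_
      · exact (continuousOn_const.sub (hcj.div hcv2 fun q hq =>
          mul_ne_zero (hq0 q hq) (hz0 q hq i (by omega)))).clog fun q hq =>
            one_sub_mem (hu1 q hq j hj)
      · exact (continuousOn_const.sub (hcj.div hcv1 fun q hq =>
          hz0 q hq i (by omega))).clog fun q hq => one_sub_mem (hu2 q hq j hj)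
  · intro q hq
    have hqq := hq0 q hq
    have hzi := hz0 q hq i (by omega)
    have hF := hl q hq
    have hmem : z q i ∈ Metric.ball (0:ℂ) ‖z q (i + 1)‖ := by
      rw [mem_ball_zero_iff]; exact hlt q hq
    have hmem2 : q * z q i ∈ Metric.ball (0:ℂ) ‖z q (i + 1)‖ := by
      rw [mem_ball_zero_iff]; exact hlt2 q hq
    -- the derivative at the zero
    set A : ℂ → ℂ := fun w => (∏ j ∈ Finset.range i, (1 - w / z q j)) * exp (l q w) with hA
    have hAd : DifferentiableAt ℂ A (z q i) := by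
      refine DifferentiableAt.mul ?_ ?_
      · refine DifferentiableAt.fun_finsetProd fun j _ => ?_
        fun_prop
      · exact (hF.dif.differentiableAt (Metric.isOpen_ball.mem_nhds hmem)).cexp
    have h1 : HasDerivAt (fun w : ℂ => 1 - w / z q i) (-(1 / z q i)) (z q i) := by
      have := ((hasDerivAt_id (z q i)).div_const (z q i)).const_sub 1
      simpa using this
    have h2 := hAd.hasDerivAt.mul h1
    have h3 : F q =ᶠ[𝓝 (z q i)] fun w => A w * (1 - w / z q i) := by
      filter_upwards [Metric.isOpen_ball.mem_nhds hmem] with w hw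
      rw [hF.eq w hw, Finset.prod_range_succ, hA]
      ring
    have h4 := (hasDerivAt_F (hq1 q hq) (z q i)).unique (h2.congr_of_eventuallyEq h3)
    rw [div_self hzi, sub_self, mul_zero, zero_add] at h4
    have h5 : F q (q * z q i) = (1 - q) * (∏ j ∈ Finset.range i, (1 - q * z q i / z q j)) *
        exp (l q (q * z q i)) := by
      rw [hF.eq _ hmem2, Finset.prod_range_succ, mul_div_cancel_right₀ _ hzi]
      ring
    rw [h5] at h4
    -- exponentials
    have e1 : exp (log (1 - q)) = 1 - q := by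
      refine exp_log (sub_ne_zero.2 ?_)
      rintro rfl
      have := hnq 1 hq
      rw [norm_one] at this
      linarith
    have hne1 : ∀ j ∈ Finset.range i, 1 - z q j / (q * z q i) ≠ 0 := fun j hj =>
      slitPlane_ne_zero (one_sub_mem (hu1 q hq j hj))
    have hne2 : ∀ j ∈ Finset.range i, 1 - z q j / z q i ≠ 0 := fun j hj =>
      slitPlane_ne_zero (one_sub_mem (hu2 q hq j hj))
    have e2 : exp (∑ j ∈ Finset.range i, (log (1 - z q j / (q * z q i)) -
        log (1 - z q j / z q i))) =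
        ∏ j ∈ Finset.range i, ((1 - z q j / (q * z q i)) / (1 - z q j / z q i)) := by
      rw [exp_sum]
      refine Finset.prod_congr rfl fun j hj => ?_
      rw [exp_sub, exp_log (hne1 j hj), exp_log (hne2 j hj)]
    have e3 : ∀ j ∈ Finset.range i, (1 - q * z q i / z q j) =
        (1 - z q i / z q j) * (q * ((1 - z q j / (q * z q i)) / (1 - z q j / z q i))) := by
      intro j hj
      have hj' := Finset.mem_range.1 hj
      have hzj := hz0 q hq j (by omega)
      have n2 := hne2 j hj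
      have n3 : z q i - z q j ≠ 0 := by
        intro h0
        apply n2
        rw [← sub_eq_zero.1 h0, div_self hzi, sub_self]
      have n4 : 1 - z q j / z q i = (z q i - z q j) / z q i := by
        field_simp
      rw [n4]
      field_simp
      ring
    have hAne : A (z q i) ≠ 0 := by
      rw [hA]
      refine mul_ne_zero (Finset.prod_ne_zero_iff.2 fun j hj => ?_) (exp_ne_zero _)
      have hj' := Finset.mem_range.1 hj
      have hzj := hz0 q hq j (by omega)
      intro h0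
      apply hne2 j hj
      have h6 : z q i / z q j = 1 := (sub_eq_zero.1 h0).symm
      rw [div_eq_one_iff_eq hzj] at h6
      rw [h6, div_self hzj, sub_self]
    rw [exp_add, exp_add, e1, e2, exp_sub]
    apply mul_left_cancel₀ hAne
    have e4 : A (z q i) * -(z q i)⁻¹ = A (z q i) * -(1 / z q i) := by
      rw [one_div]
    rw [e4, ← h4, Finset.prod_congr rfl e3, Finset.prod_mul_distrib, Finset.prod_mul_distrib,
      Finset.prod_const, Finset.card_range, hA]
    have n5 := exp_ne_zero (l q (z q i))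
    field_simp

end SokC
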