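import Pool.Agent.Lib.MP_816dec_an.PFac
import Pool.Agent.Lib.MP_816dec_an.CHW

/-!
MP_816dec_an, part C, row PERS: persistence of frames (5.0) of sok_C_v2.md.
Recipe for `frame_persist`: finitely many zeros in |w| ≤ |z (N-1)| + 1 (exists_factor), so there is
B > |z (N-1)| such that the zeros in |w| ≤ B are exactly z 0 .. z (N-1). d > 0 small: balls ball (z i) d
disjoint moduli ranges, inside |w| < B, d ≤ ε; Hurwitz (CHW.lean) in each ball, and on the compact set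
{|w| ≤ B} minus the balls.
-/

open Complex Set Filter Topology

namespace SokC

open Sok

/-- locally uniform convergence from joint continuity -/
private theorem tlu_F {q0 : ℂ} (h0 : ‖q0‖ ≤ 1) :
    TendstoLocallyUniformly (fun q : ℂ => F q) (F q0) (𝓝[{q : ℂ | ‖q‖ ≤ 1}] q0) := by
  rw [Metric.tendstoLocallyUniformly_iff]
  intro ε hε x
  have hset : {p : ℂ × ℂ | ‖p.1‖ ≤ 1} = {q : ℂ | ‖q‖ ≤ 1} ×ˢ (univ : Set ℂ) := by
    ext p
    constructor
    · intro hp
      exact ⟨hp, mem_univ _⟩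
    · intro hp
      exact hp.1
  have hmem : (q0, x) ∈ {p : ℂ × ℂ | ‖p.1‖ ≤ 1} := h0
  have h1 : Tendsto (fun p : ℂ × ℂ => F p.1 p.2) (𝓝[{p : ℂ × ℂ | ‖p.1‖ ≤ 1}] (q0, x))
      (𝓝 (F q0 x)) := continuousOn_F (q0, x) hmem
  rw [hset, nhdsWithin_prod_eq, nhdsWithin_univ] at h1
  have h2 := (Metric.tendsto_nhds.1 h1) (ε / 2) (half_pos hε)
  rw [Filter.eventually_prod_iff] at h2
  obtain ⟨pa, hpa, pb, hpb, hab⟩ := h2
  refine ⟨{y | pb y}, hpb, ?_⟩
  have hq0U : pa q0 := hpa.self_of_nhdsWithin h0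
  filter_upwards [hpa] with q hq y hy
  have hy' : pb y := hy
  have a1 : dist (F q y) (F q0 x) < ε / 2 := hab hq hy'
  have a2 : dist (F q0 y) (F q0 x) < ε / 2 := hab hq0U hy'
  have a3 := dist_triangle_right (F q0 y) (F q y) (F q0 x)
  linarith

theorem frame_uniq {q : ℂ} {N : ℕ} {z z' : ℕ → ℂ} (h : Frame q N z) (h' : Frame q N z') :
    ∀ i < N, z i = z' i := by
  have key : ∀ {u v : ℕ → ℂ}, Frame q N u → Frame q N v → ∀ i < N, (∀ j < i, u j = v j) →
      ‖u i‖ ≤ ‖v i‖ → u i = v i := by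
    intro u v hu hv i hi hj hle
    obtain ⟨j, hjN, hj2⟩ := hv.all (u i) (hu.zero i hi) i hi hle
    rcases lt_trichotomy j i with hlt | heq | hgt
    · have h3 := hu.mono j i hlt hi
      rw [hj j hlt, ← hj2] at h3
      exact absurd h3 (lt_irrefl _)
    · rw [hj2, heq]
    · have h3 := hv.mono i j hgt hjN
      rw [← hj2] at h3
      exact absurd hle (not_le.2 h3)
  intro i
  induction i using Nat.strong_induction_on with
  | _ i ih =>
    intro hi
    rcases le_total ‖z i‖ ‖z' i‖ with hle | hle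
    · exact key h h' i hi (fun j hj => ih j hj (hj.trans hi)) hle
    · exact (key h' h i hi (fun j hj => (ih j hj (hj.trans hi)).symm) hle).symm

/-- a gap beyond the largest modulus of a frame -/
private theorem frame_gap {q0 : ℂ} (h0 : ‖q0‖ ≤ 1) {N : ℕ} {z : ℕ → ℂ} (h : Frame q0 (N + 1) z) :
    ∃ B : ℝ, ‖z N‖ < B ∧ ∀ w, F q0 w = 0 → ‖w‖ ≤ B → ∃ j < N + 1, w = z j := by
  obtain ⟨K, w, H, -, -, -, hfac, hne⟩ := exists_factor (differentiable_F h0) (F_zero q0)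
    (R := ‖z N‖ + 1) (by positivity)
  have e1 : ∀ᶠ B in 𝓝[>] ‖z N‖, ∀ i ∈ {i : ℕ | i < K}, ‖z N‖ < ‖w i‖ → B < ‖w i‖ := by
    rw [Filter.eventually_all_finite (Set.finite_lt_nat K)]
    intro i _
    by_cases hi : ‖z N‖ < ‖w i‖
    · have h2 : ∀ᶠ B in 𝓝 ‖z N‖, B < ‖w i‖ := eventually_lt_nhds hi
      filter_upwards [mem_nhdsWithin_of_mem_nhds h2] with B hB _
      exact hB
    · exact Filter.Eventually.of_forall fun B hB => absurd hB hi
  have e2 : ∀ᶠ B in 𝓝[>] ‖z N‖, B < ‖z N‖ + 1 :=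
    mem_nhdsWithin_of_mem_nhds (eventually_lt_nhds (by linarith))
  obtain ⟨B, hB1, hB2, hB3⟩ := (e1.and (e2.and self_mem_nhdsWithin)).exists
  refine ⟨B, hB3, fun x hx hxB => ?_⟩
  by_cases hxN : ‖x‖ ≤ ‖z N‖
  · exact h.all x hx N (Nat.lt_succ_self N) hxN
  · exfalso
    push Not at hxN
    have h3 := hne x (by linarith)
    have h4 := hfac x
    rw [hx] at h4
    rcases mul_eq_zero.1 h4.symm with h5 | h5
    · rw [Finset.prod_eq_zero_iff] at h5
      obtain ⟨i, hi, hi2⟩ := h5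
      rw [Finset.mem_range] at hi
      have h6 : x = w i := by
        by_cases hw : w i = 0
        · rw [hw] at hi2; simp at hi2
        · field_simp at hi2
          linear_combination -hi2
      rw [h6] at hxN hxB
      exact absurd (hB1 i hi hxN) (not_lt.2 hxB)
    · exact h3 h5

theorem frame_persist {q0 : ℂ} (h0 : ‖q0‖ ≤ 1) {N : ℕ} {z : ℕ → ℂ} (h : Frame q0 N z) {ε : ℝ}
    (hε : 0 < ε) : ∀ᶠ q in 𝓝[{q : ℂ | ‖q‖ ≤ 1}] q0,
      ∃ z' : ℕ → ℂ, Frame q N z' ∧ ∀ i < N, ‖z' i - z i‖ < ε := by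
  rcases N with _ | N
  · refine Filter.Eventually.of_forall fun q => ⟨z, ⟨?_, ?_, ?_, ?_⟩, ?_⟩
    · intro i hi; exact absurd hi (Nat.not_lt_zero i)
    · intro i hi; exact absurd hi (Nat.not_lt_zero i)
    · intro i j _ hj; exact absurd hj (Nat.not_lt_zero j)
    · intro w _ i hi; exact absurd hi (Nat.not_lt_zero i)
    · intro i hi; exact absurd hi (Nat.not_lt_zero i)
  · obtain ⟨B, hB, hBall⟩ := frame_gap h0 h
    have htlu := tlu_F h0
    have hdiff : ∀ᶠ q in 𝓝[{q : ℂ | ‖q‖ ≤ 1}] q0, Differentiable ℂ (F q) := by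
      filter_upwards [self_mem_nhdsWithin] with q hq
      exact differentiable_F hq
    have hsimple : ∀ i < N + 1, ∃ δ₀ > 0, ∀ δ, 0 < δ → δ ≤ δ₀ →
        ∀ᶠ q in 𝓝[{q : ℂ | ‖q‖ ≤ 1}] q0, ∃ w ∈ Metric.ball (z i) δ, F q w = 0 ∧ deriv (F q) w ≠ 0 ∧
        ∀ w' ∈ Metric.ball (z i) δ, F q w' = 0 → w' = w := by
      intro i hi
      refine hurwitz_simple htlu hdiff (differentiable_F h0) (h.zero i hi) ?_
      rw [deriv_F h0]
      exact h.simple i hi
    choose! δ₀ hδ₀ hδ₁ using hsimple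
    have hmono : ∀ i < N + 1, ‖z i‖ ≤ ‖z N‖ := by
      intro i hi
      rcases Nat.lt_succ_iff_lt_or_eq.1 hi with h1 | h1
      · exact (h.mono i N h1 (Nat.lt_succ_self N)).le
      · rw [h1]
    have e1 : ∀ᶠ d in 𝓝[>] (0:ℝ), d < ε := mem_nhdsWithin_of_mem_nhds (eventually_lt_nhds hε)
    have e2 : ∀ᶠ d in 𝓝[>] (0:ℝ), d < B - ‖z N‖ :=
      mem_nhdsWithin_of_mem_nhds (eventually_lt_nhds (by linarith))
    have e3 : ∀ᶠ d in 𝓝[>] (0:ℝ), ∀ i ∈ {i : ℕ | i < N + 1}, d < δ₀ i := by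
      rw [Filter.eventually_all_finite (Set.finite_lt_nat (N + 1))]
      intro i hi
      exact mem_nhdsWithin_of_mem_nhds (eventually_lt_nhds (hδ₀ i hi))
    have e4 : ∀ᶠ d in 𝓝[>] (0:ℝ), ∀ i ∈ {i : ℕ | i < N + 1}, ∀ j ∈ {j : ℕ | j < N + 1},
        i < j → d < (‖z j‖ - ‖z i‖) / 2 := by
      rw [Filter.eventually_all_finite (Set.finite_lt_nat (N + 1))]
      intro i hi
      rw [Filter.eventually_all_finite (Set.finite_lt_nat (N + 1))]
      intro j hj
      by_cases hij : i < j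
      · have h1 := h.mono i j hij hj
        have h2 : ∀ᶠ d in 𝓝[>] (0:ℝ), d < (‖z j‖ - ‖z i‖) / 2 :=
          mem_nhdsWithin_of_mem_nhds (eventually_lt_nhds (by linarith))
        filter_upwards [h2] with d hd _
        exact hd
      · exact Filter.Eventually.of_forall fun d hd => absurd hd hij
    obtain ⟨d, hd1, hd2, hd3, hd4, hd0⟩ :=
      (e1.and (e2.and (e3.and (e4.and self_mem_nhdsWithin)))).exists
    have hd0' : 0 < d := hd0
    have f1 : ∀ᶠ q in 𝓝[{q : ℂ | ‖q‖ ≤ 1}] q0, ∀ i ∈ {i : ℕ | i < N + 1},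
        ∃ w ∈ Metric.ball (z i) d, F q w = 0 ∧ deriv (F q) w ≠ 0 ∧
        ∀ w' ∈ Metric.ball (z i) d, F q w' = 0 → w' = w := by
      rw [Filter.eventually_all_finite (Set.finite_lt_nat (N + 1))]
      intro i hi
      exact hδ₁ i hi d hd0' (hd3 i hi).le
    have f2 : ∀ᶠ q in 𝓝[{q : ℂ | ‖q‖ ≤ 1}] q0,
        ∀ w ∈ Metric.closedBall (0:ℂ) B \ ⋃ i ∈ {i : ℕ | i < N + 1}, Metric.ball (z i) d,
          F q w ≠ 0 := by
      refine hurwitz_compact htlu (differentiable_F h0).continuous ?_ ?_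
      · exact (isCompact_closedBall (0:ℂ) B).diff
          (isOpen_biUnion fun i _ => Metric.isOpen_ball)
      · rintro w ⟨hw1, hw2⟩ hw0
        rw [mem_closedBall_zero_iff] at hw1
        obtain ⟨j, hj, hj2⟩ := hBall w hw0 hw1
        apply hw2
        rw [Set.mem_iUnion₂]
        exact ⟨j, hj, by rw [hj2]; exact Metric.mem_ball_self hd0'⟩
    filter_upwards [f1, f2, self_mem_nhdsWithin] with q g1 g2 g3
    have g3' : ‖q‖ ≤ 1 := g3
    choose! z' hz1 hz2 hz3 hz4 using g1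
    have hdist : ∀ i < N + 1, ‖z' i - z i‖ < d := by
      intro i hi
      have h1 := hz1 i hi
      rw [Metric.mem_ball, dist_eq_norm] at h1
      exact h1
    have hup : ∀ i < N + 1, ‖z' i‖ < ‖z i‖ + d := by
      intro i hi
      have h1 := hdist i hi
      have h2 : ‖z' i‖ - ‖z i‖ ≤ ‖z' i - z i‖ := norm_sub_norm_le _ _
      linarith
    have hlo : ∀ i < N + 1, ‖z i‖ - d < ‖z' i‖ := by
      intro i hi
      have h1 := hdist i hi
      have h2 : ‖z i‖ - ‖z' i‖ ≤ ‖z i - z' i‖ := norm_sub_norm_le _ _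
      rw [norm_sub_rev] at h2
      linarith
    refine ⟨z', ⟨fun i hi => hz2 i hi, ?_, ?_, ?_⟩, fun i hi => (hdist i hi).trans hd1⟩
    · intro i hi
      rw [← deriv_F g3']
      exact hz3 i hi
    · intro i j hij hj
      have hi : i < N + 1 := hij.trans hj
      have h1 := hup i hi
      have h2 := hlo j hj
      have h3 := hd4 i hi j hj hij
      linarith
    · intro w hw i hi hle
      have h1 := hup i hi
      have h2 := hmono i hi
      by_contra hcon
      push Not at hcon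
      refine g2 w ⟨?_, ?_⟩ hw
      · rw [mem_closedBall_zero_iff]; linarith
      · intro hmem
        rw [Set.mem_iUnion₂] at hmem
        obtain ⟨j, hj, hj2⟩ := hmem
        exact hcon j hj (hz4 j hj w hj2 hw)

theorem frame_cont {ρ : ℝ} (hρ : ρ ≤ 1) {N : ℕ} {z : ℂ → ℕ → ℂ}
    (h : ∀ q ∈ Metric.sphere (0:ℂ) ρ, Frame q N (z q)) :
    ∀ i < N, ContinuousOn (fun q => z q i) (Metric.sphere 0 ρ) := by
  intro i hi q0 hq0
  have hq0' : ‖q0‖ ≤ 1 := by
    rw [mem_sphere_zero_iff_norm] at hq0; rw [hq0]; exact hρ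
  have hsub : Metric.sphere (0:ℂ) ρ ⊆ {q : ℂ | ‖q‖ ≤ 1} := by
    intro q hq
    rw [mem_sphere_zero_iff_norm] at hq
    show ‖q‖ ≤ 1
    rw [hq]; exact hρ
  unfold ContinuousWithinAt
  rw [Metric.tendsto_nhds]
  intro ε hε
  have h1 := frame_persist hq0' (h q0 hq0) hε
  filter_upwards [nhdsWithin_mono q0 hsub h1, self_mem_nhdsWithin] with q hq1 hq2
  obtain ⟨z', hz1, hz2⟩ := hq1
  rw [dist_eq_norm, frame_uniq (h q hq2) hz1 i hi]
  exact hz2 i hi

end SokC
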