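import Pool.Agent.Lib.MP_816dec_an.PDefs

/-!
MP_816dec_an, part C, row POLY: the polynomials c_(n,m) (section 1 of sok_C_v2.md).
-/

open Complex Set Filter Topology Polynomial

namespace SokC

open Sok

/-! ### Taylor coefficients -/

theorem cf_of_hasFPS {f : ℂ → ℂ} {a : ℕ → ℂ}
    (h : HasFPowerSeriesAt f (FormalMultilinearSeries.ofScalars ℂ a) 0) (k : ℕ) : cf f k = a k := by
  have h2 := (h.analyticAt).hasFPowerSeriesAt
  have h3 := h2.eq_formalMultilinearSeries h
  have h4 := congrArg (fun p => FormalMultilinearSeries.coeff p k) h3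
  simp only [FormalMultilinearSeries.coeff_ofScalars] at h4
  exact h4

theorem cf_of_hasSum {f : ℂ → ℂ} {a : ℕ → ℂ} (h : ∀ᶠ z in 𝓝 (0:ℂ), HasSum (fun k => a k * z ^ k) (f z))
    (k : ℕ) : cf f k = a k := by
  refine cf_of_hasFPS ?_ k
  rw [hasFPowerSeriesAt_iff]
  refine h.mono fun z hz => ?_
  simp only [FormalMultilinearSeries.coeff_ofScalars, zero_add, smul_eq_mul]
  simpa only [mul_comm] using hz

/-- the power series of F with polynomial coefficients -/
noncomputable def Fps : PowerSeries (Polynomial ℂ) :=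
  PowerSeries.mk fun k => Polynomial.C ((k.factorial : ℂ)⁻¹) * Polynomial.X ^ (k * (k - 1) / 2)

/-- c_(n,m) -/
noncomputable def cP (n m : ℕ) : Polynomial ℂ :=
  PowerSeries.coeff (n * m) (∏ l ∈ Finset.range m, PowerSeries.rescale (Polynomial.C (om m ^ l)) Fps)

theorem om_ne_zero (m : ℕ) : om m ≠ 0 := exp_ne_zero _

theorem om_norm (m : ℕ) : ‖om m‖ = 1 := by
  unfold om
  rw [show (2 * Real.pi * I / m : ℂ) = ((2 * Real.pi / m : ℝ) : ℂ) * I by push_cast; ring]
  exact norm_exp_ofReal_mul_I _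

theorem om_prim {m : ℕ} (hm : 0 < m) : IsPrimitiveRoot (om m) m :=
  Complex.isPrimitiveRoot_exp m hm.ne'

theorem tri_ineq (m n : ℕ) (k : ℕ → ℕ) (h : ∑ l ∈ Finset.range m, k l = n * m) :
    m * (n * (n - 1) / 2) ≤ ∑ l ∈ Finset.range m, k l * (k l - 1) / 2 ∧
      (∑ l ∈ Finset.range m, k l * (k l - 1) / 2 = m * (n * (n - 1) / 2) → ∀ l < m, k l = n) := by
  have htri : ∀ a : ℕ, (2 : ℤ) * ((a * (a - 1) / 2 : ℕ) : ℤ) = (a : ℤ) * ((a : ℤ) - 1) := by
    intro a
    have h1 : 2 * (a * (a - 1) / 2) = a * (a - 1) := Nat.two_mul_div_two_of_even (Nat.even_mul_pred_self a)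
    have h2 : ((2 * (a * (a - 1) / 2) : ℕ) : ℤ) = ((a * (a - 1) : ℕ) : ℤ) := by rw [h1]
    rcases a with _ | a
    · simp
    · simp only [Nat.add_sub_cancel] at h2 ⊢
      push_cast at h2 ⊢
      linarith
  have hsum : (2 : ℤ) * ((∑ l ∈ Finset.range m, k l * (k l - 1) / 2 : ℕ) : ℤ) =
      2 * ((m * (n * (n - 1) / 2) : ℕ) : ℤ) + ∑ l ∈ Finset.range m, ((k l : ℤ) - n) ^ 2 := by
    have e1 : (2 : ℤ) * ((m * (n * (n - 1) / 2) : ℕ) : ℤ) = m * ((n : ℤ) * (n - 1)) := by
      rw [Nat.cast_mul, ← htri n]; ring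
    have e2 : ∑ l ∈ Finset.range m, (k l : ℤ) = n * m := by exact_mod_cast h
    rw [e1, Nat.cast_sum, Finset.mul_sum]
    have e3 : ∀ l ∈ Finset.range m, (2 : ℤ) * ((k l * (k l - 1) / 2 : ℕ) : ℤ) =
        (n : ℤ) * (n - 1) + (2 * n - 1) * ((k l : ℤ) - n) + ((k l : ℤ) - n) ^ 2 := by
      intro l _
      rw [htri]; ring
    have e4 : ∑ l ∈ Finset.range m, (2 * (n : ℤ) - 1) * ((k l : ℤ) - n) = 0 := by
      rw [← Finset.mul_sum, Finset.sum_sub_distrib, e2]
      simp
      right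
      ring
    rw [Finset.sum_congr rfl e3, Finset.sum_add_distrib, Finset.sum_add_distrib, e4]
    simp
  have hnn : 0 ≤ ∑ l ∈ Finset.range m, ((k l : ℤ) - n) ^ 2 := Finset.sum_nonneg fun _ _ => sq_nonneg _
  constructor
  · have : ((m * (n * (n - 1) / 2) : ℕ) : ℤ) ≤ ((∑ l ∈ Finset.range m, k l * (k l - 1) / 2 : ℕ) : ℤ) := by
      linarith
    exact_mod_cast this
  · intro he l hl
    rw [he] at hsum
    have h0 : ∑ l ∈ Finset.range m, ((k l : ℤ) - n) ^ 2 = 0 := by linarith
    have h1 := (Finset.sum_eq_zero_iff_of_nonneg (fun _ _ => sq_nonneg _)).1 h0 l (Finset.mem_range.2 hl)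
    have h2 : (k l : ℤ) - n = 0 := by
      exact pow_eq_zero_iff (two_ne_zero) |>.1 h1
    have h3 : (k l : ℤ) = n := by linarith
    exact_mod_cast h3

theorem coeff_term (m l k : ℕ) :
    PowerSeries.coeff k (PowerSeries.rescale (Polynomial.C (om m ^ l)) Fps) =
      Polynomial.C ((om m ^ l) ^ k * (k.factorial : ℂ)⁻¹) * Polynomial.X ^ (k * (k - 1) / 2) := by
  rw [PowerSeries.coeff_rescale, Fps, PowerSeries.coeff_mk, ← Polynomial.C_pow, ← mul_assoc,
    ← Polynomial.C_mul]

theorem cP_sum (n m : ℕ) :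
    cP n m = ∑ k ∈ Finset.finsuppAntidiag (Finset.range m) (n * m),
      Polynomial.C (∏ l ∈ Finset.range m, ((om m ^ l) ^ (k l) * ((k l).factorial : ℂ)⁻¹)) *
        Polynomial.X ^ (∑ l ∈ Finset.range m, (k l) * (k l - 1) / 2) := by
  unfold cP
  rw [PowerSeries.coeff_prod]
  refine Finset.sum_congr rfl fun k _ => ?_
  simp only [coeff_term]
  rw [Finset.prod_mul_distrib, Finset.prod_pow_eq_pow_sum, map_prod]

theorem cP_factor (n : ℕ) {m : ℕ} (hm : 0 < m) :
    ∃ g : Polynomial ℂ, cP n m = Polynomial.X ^ (m * (n * (n - 1) / 2)) * g ∧ g.eval 0 ≠ 0 := by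
  have key : ∀ k ∈ Finset.finsuppAntidiag (Finset.range m) (n * m),
      m * (n * (n - 1) / 2) ≤ ∑ l ∈ Finset.range m, k l * (k l - 1) / 2 ∧
      (∑ l ∈ Finset.range m, k l * (k l - 1) / 2 = m * (n * (n - 1) / 2) → ∀ l < m, k l = n) := by
    intro k hk
    rw [Finset.mem_finsuppAntidiag] at hk
    exact tri_ineq m n k hk.1
  refine ⟨∑ k ∈ Finset.finsuppAntidiag (Finset.range m) (n * m),
      Polynomial.C (∏ l ∈ Finset.range m, ((om m ^ l) ^ (k l) * ((k l).factorial : ℂ)⁻¹)) *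
        Polynomial.X ^ (∑ l ∈ Finset.range m, (k l) * (k l - 1) / 2 - m * (n * (n - 1) / 2)), ?_, ?_⟩
  · rw [cP_sum, Finset.mul_sum]
    refine Finset.sum_congr rfl fun k hk => ?_
    obtain ⟨d, hd⟩ := Nat.exists_eq_add_of_le (key k hk).1
    rw [hd, Nat.add_sub_cancel_left, pow_add]
    ring
  · obtain ⟨k0, hk0⟩ : ∃ k0 : ℕ →₀ ℕ, k0 = Finsupp.indicator (Finset.range m) (fun _ _ => n) := ⟨_, rfl⟩
    have hk0l : ∀ l < m, k0 l = n := by
      intro l hl
      rw [hk0, Finsupp.indicator_of_mem (Finset.mem_range.2 hl)]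
    have hk0m : k0 ∈ Finset.finsuppAntidiag (Finset.range m) (n * m) := by
      rw [Finset.mem_finsuppAntidiag]
      constructor
      · rw [Finset.sum_congr rfl (fun l hl => hk0l l (Finset.mem_range.1 hl))]
        simp [mul_comm]
      · rw [hk0]; exact Finsupp.support_indicator_subset _ _
    rw [Polynomial.eval_finsetSum, Finset.sum_eq_single k0]
    · rw [Polynomial.eval_mul, Polynomial.eval_C, Polynomial.eval_pow, Polynomial.eval_X]
      have h0 : ∑ l ∈ Finset.range m, (k0 l) * (k0 l - 1) / 2 - m * (n * (n - 1) / 2) = 0 := by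
        rw [Finset.sum_congr rfl (fun l hl => by rw [hk0l l (Finset.mem_range.1 hl)])]
        simp
      rw [h0, pow_zero, mul_one]
      refine Finset.prod_ne_zero_iff.2 fun l _ => ?_
      exact mul_ne_zero (pow_ne_zero _ (pow_ne_zero _ (om_ne_zero m)))
        (inv_ne_zero (Nat.cast_ne_zero.2 (Nat.factorial_ne_zero _)))
    · intro k hk hne
      rw [Polynomial.eval_mul, Polynomial.eval_C, Polynomial.eval_pow, Polynomial.eval_X, zero_pow, mul_zero]
      intro h0
      have h1 := (key k hk).1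
      have h2 := (key k hk).2 (by omega)
      apply hne
      ext l
      by_cases hl : l < m
      · rw [h2 l hl, hk0l l hl]
      · rw [Finset.mem_finsuppAntidiag] at hk hk0m
        have h3 : l ∉ k.support := fun hc => hl (Finset.mem_range.1 (hk.2 hc))
        have h4 : l ∉ k0.support := fun hc => hl (Finset.mem_range.1 (hk0m.2 hc))
        rw [Finsupp.notMem_support_iff.1 h3, Finsupp.notMem_support_iff.1 h4]
    · intro hc; exact absurd hk0m hc

theorem cP_zero (m : ℕ) : cP 0 m = 1 := by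
  unfold cP
  rw [zero_mul, PowerSeries.coeff_zero_eq_constantCoeff_apply, map_prod]
  refine Finset.prod_eq_one fun l _ => ?_
  rw [← PowerSeries.coeff_zero_eq_constantCoeff_apply, coeff_term]
  simp

/-! ### evaluation -/

/-- the power series `A` converges absolutely to `f` everywhere -/
def Rep (A : PowerSeries ℂ) (f : ℂ → ℂ) : Prop :=
  ∀ z, Summable (fun k => ‖PowerSeries.coeff k A * z ^ k‖) ∧
    HasSum (fun k => PowerSeries.coeff k A * z ^ k) (f z)

theorem Rep.one : Rep 1 (fun _ => 1) := by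
  intro z
  have h : ∀ k, k ≠ 0 → PowerSeries.coeff k (1 : PowerSeries ℂ) * z ^ k = 0 := by
    intro k hk
    rw [PowerSeries.coeff_one, if_neg hk, zero_mul]
  constructor
  · refine summable_of_ne_finset_zero (s := {0}) fun k hk => ?_
    rw [h k (by simpa using hk), norm_zero]
  · have := hasSum_single (f := fun k => PowerSeries.coeff k (1 : PowerSeries ℂ) * z ^ k) 0 h
    simpa using this

theorem Rep.mul {A B : PowerSeries ℂ} {f g : ℂ → ℂ} (hA : Rep A f) (hB : Rep B g) :
    Rep (A * B) (fun z => f z * g z) := by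
  intro z
  obtain ⟨a, ha⟩ : ∃ a : ℕ → ℂ, a = fun k => PowerSeries.coeff k A * z ^ k := ⟨_, rfl⟩
  obtain ⟨b, hb⟩ : ∃ b : ℕ → ℂ, b = fun k => PowerSeries.coeff k B * z ^ k := ⟨_, rfl⟩
  have hA1 : Summable (fun k => ‖a k‖) := by rw [ha]; exact (hA z).1
  have hB1 : Summable (fun k => ‖b k‖) := by rw [hb]; exact (hB z).1
  have hA2 : ∑' k, a k = f z := by rw [ha]; exact (hA z).2.tsum_eq
  have hB2 : ∑' k, b k = g z := by rw [hb]; exact (hB z).2.tsum_eq
  have e : (fun k => PowerSeries.coeff k (A * B) * z ^ k) =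
      fun k => ∑ kl ∈ Finset.HasAntidiagonal.antidiagonal k, a kl.1 * b kl.2 := by
    funext k
    rw [PowerSeries.coeff_mul, Finset.sum_mul]
    refine Finset.sum_congr rfl fun kl hkl => ?_
    rw [← Finset.HasAntidiagonal.mem_antidiagonal.1 hkl, pow_add, ha, hb]
    ring
  have h0 := summable_norm_sum_mul_antidiagonal_of_summable_norm hA1 hB1
  constructor
  · have e2 : (fun k => ‖PowerSeries.coeff k (A * B) * z ^ k‖) =
        fun k => ‖∑ kl ∈ Finset.HasAntidiagonal.antidiagonal k, a kl.1 * b kl.2‖ := by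
      funext k
      exact congrArg norm (congrFun e k)
    rw [e2]
    exact h0
  · rw [e]
    have h2 := tsum_mul_tsum_eq_tsum_sum_antidiagonal_of_summable_norm hA1 hB1
    rw [hA2, hB2] at h2
    simp only
    rw [h2]
    exact h0.of_norm.hasSum

theorem Rep.prod {ι : Type*} (s : Finset ι) (A : ι → PowerSeries ℂ) (f : ι → ℂ → ℂ)
    (h : ∀ i ∈ s, Rep (A i) (f i)) : Rep (∏ i ∈ s, A i) (fun z => ∏ i ∈ s, f i z) := by
  classical
  induction s using Finset.induction_on with
  | empty => simpa using Rep.one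
  | insert a s ha ih =>
    rw [Finset.prod_insert ha]
    have e : (fun z => ∏ i ∈ insert a s, f i z) = fun z => f a z * ∏ i ∈ s, f i z := by
      funext z; rw [Finset.prod_insert ha]
    rw [e]
    exact (h a (Finset.mem_insert_self a s)).mul (ih fun i hi => h i (Finset.mem_insert_of_mem hi))

/-- the power series of `F q (c * z)` -/
noncomputable def FqC (q c : ℂ) : PowerSeries ℂ :=
  PowerSeries.mk fun k => c ^ k * ((k.factorial : ℂ)⁻¹ * q ^ (k * (k - 1) / 2))

theorem rep_F {q : ℂ} (hq : ‖q‖ ≤ 1) (c : ℂ) : Rep (FqC q c) (fun z => F q (c * z)) := by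
  intro z
  have e : ∀ k, PowerSeries.coeff k (FqC q c) * z ^ k = tm q (c * z) k := by
    intro k
    rw [FqC, PowerSeries.coeff_mk, tm, mul_pow]
    field_simp
  simp only [e]
  exact ⟨summable_norm_tm hq _, (summable_tm hq _).hasSum⟩

theorem cP_eval {q : ℂ} (hq : ‖q‖ ≤ 1) (n m : ℕ) :
    (cP n m).eval q = cf (fun z => ∏ l ∈ Finset.range m, F q (om m ^ l * z)) (n * m) := by
  have h1 := Rep.prod (Finset.range m) (fun l => FqC q (om m ^ l)) (fun l z => F q (om m ^ l * z))
    (fun l _ => rep_F hq _)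
  rw [cf_of_hasSum (a := fun k => PowerSeries.coeff k (∏ l ∈ Finset.range m, FqC q (om m ^ l)))
    (Filter.Eventually.of_forall fun z => (h1 z).2)]
  unfold cP
  rw [← Polynomial.coe_evalRingHom, ← PowerSeries.coeff_map, map_prod]
  congr 1
  refine Finset.prod_congr rfl fun l _ => ?_
  ext k
  rw [PowerSeries.coeff_map, coeff_term, FqC, PowerSeries.coeff_mk, Polynomial.coe_evalRingHom]
  simp [mul_assoc]

end SokC
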