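import Pool.Agent.Lib.MP_816dec_an.PCoef
import Pool.Agent.Lib.MP_816dec_an.PLG
import Pool.Agent.Lib.MP_816dec_an.CLW
import Pool.Agent.Lib.MP_816dec_an.CDir

/-!
MP_816dec_an, part C, row S3: section 3 of sok_C_v2.md (with section 4 for the absence of zeros of g).
-/

open Complex Set Filter Topology

namespace SokC

open Sok

theorem Frame.z_ne {q : ℂ} {N : ℕ} {z : ℕ → ℂ} (h : Frame q N z) {i : ℕ} (hi : i < N) : z i ≠ 0 := by
  intro h0
  have h1 := h.zero i hi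
  rw [h0, F_zero] at h1
  exact one_ne_zero h1

theorem Frame.restr {q : ℂ} {N M : ℕ} {z : ℕ → ℂ} (h : Frame q N z) (hM : M ≤ N) : Frame q M z := by
  refine ⟨fun i hi => h.zero i (hi.trans_le hM), fun i hi => h.simple i (hi.trans_le hM),
    fun i j hij hj => h.mono i j hij (hj.trans_le hM), fun w hw i hi hwi => ?_⟩
  obtain ⟨j, hj, hwj⟩ := h.all w hw i (hi.trans_le hM) hwi
  by_cases hjM : j < M
  · exact ⟨j, hjM, hwj⟩
  · exfalso
    have h1 := h.mono i j (by omega) hj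
    rw [← hwj] at h1
    exact absurd hwi (not_le.2 h1)

theorem Strong.restr {q : ℂ} {N M : ℕ} {z : ℕ → ℂ} (h : Strong q N z) (hM : M ≤ N) : Strong q M z :=
  fun i j hij hj => h i j hij (hj.trans_le hM)

theorem Fac.restr {q : ℂ} {N : ℕ} {w : ℕ → ℂ} {b b' : ℝ} {l : ℂ → ℂ} (h : Fac q N w b l)
    (hb : b' ≤ b) : Fac q N w b' l :=
  ⟨h.ne, h.dif.mono (Metric.ball_subset_ball hb), h.l0,
    fun z hz => h.eq z (Metric.ball_subset_ball hb hz)⟩

theorem es_self (N m : ℕ) (w : ℕ → ℂ) :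
    es N N m w = ∏ i ∈ Finset.range N, ((w i)⁻¹) ^ m := by
  unfold es
  have h := Finset.powersetCard_self (Finset.range N)
  rw [Finset.card_range] at h
  rw [h, Finset.sum_singleton]

/-- (2a) uniformly on a circle -/
theorem coef_circle {ρ : ℝ} (hρ : ρ < 1) {N : ℕ} {z : ℂ → ℕ → ℂ}
    (h : ∀ q ∈ Metric.sphere (0:ℂ) ρ, Frame q (N + 1) (z q)) {ε : ℝ} (hε : 0 < ε) :
    ∃ m0 : ℕ, ∀ m ≥ m0, ∀ q ∈ Metric.sphere (0:ℂ) ρ,
      ‖(cP N m).eval q / ∏ i ∈ Finset.range N, ((z q i)⁻¹) ^ m - (-1) ^ N‖ < ε := by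
  have hK : IsCompact (Metric.sphere (0:ℂ) ρ) := isCompact_sphere _ _
  have hcont := frame_cont hρ.le h
  refine hK.induction_on (p := fun s => ∃ m0 : ℕ, ∀ m ≥ m0, ∀ q ∈ s,
      ‖(cP N m).eval q / ∏ i ∈ Finset.range N, ((z q i)⁻¹) ^ m - (-1) ^ N‖ < ε) ?_ ?_ ?_ ?_
  · exact ⟨0, fun m _ q hq => hq.elim⟩
  · rintro s t hst ⟨m0, h0⟩
    exact ⟨m0, fun m hm q hq => h0 m hm q (hst hq)⟩
  · rintro s t ⟨m0, h0⟩ ⟨m1, h1⟩
    refine ⟨max m0 m1, fun m hm q hq => ?_⟩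
    rcases hq with hq | hq
    · exact h0 m (le_trans (le_max_left _ _) hm) q hq
    · exact h1 m (le_trans (le_max_right _ _) hm) q hq
  · intro qs hqs
    obtain ⟨A, hA0, hAB, hAz⟩ : ∃ A : ℝ, 0 ≤ A ∧ A < ‖z qs N‖ ∧ ∀ i < N, ‖z qs i‖ ≤ A := by
      rcases N with _ | k
      · exact ⟨0, le_rfl, norm_pos_iff.2 ((h qs hqs).z_ne (by omega)), fun i hi => by omega⟩
      · refine ⟨‖z qs k‖, norm_nonneg _, (h qs hqs).mono k (k + 1) (by omega) (by omega),
          fun i hi => ?_⟩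
        rcases Nat.lt_or_ge i k with hik | hik
        · exact ((h qs hqs).mono i k hik (by omega)).le
        · have : i = k := by omega
          rw [this]
    obtain ⟨a, b, ha, hab, hAa, hbB⟩ : ∃ a b : ℝ, 0 < a ∧ a < b ∧ A < a ∧ b < ‖z qs N‖ :=
      ⟨(2 * A + ‖z qs N‖) / 3, (A + 2 * ‖z qs N‖) / 3, by linarith, by linarith, by linarith,
        by linarith⟩
    obtain ⟨d, hd, hu⟩ := coef_unif N ha hab
    have e1 : ∀ᶠ q in 𝓝[Metric.sphere (0:ℂ) ρ] qs, ∀ i ∈ Finset.range N, ‖z q i‖ < a := by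
      rw [Filter.eventually_all_finset]
      intro i hi
      have hi' := Finset.mem_range.1 hi
      exact ((hcont i (by omega)).norm qs hqs).eventually_lt_const
        (lt_of_le_of_lt (hAz i hi') hAa)
    have e2 : ∀ᶠ q in 𝓝[Metric.sphere (0:ℂ) ρ] qs, b < ‖z q N‖ :=
      ((hcont N (by omega)).norm qs hqs).eventually_const_lt hbB
    have e3 : ∀ᶠ q in 𝓝[Metric.sphere (0:ℂ) ρ] qs, q ∈ Metric.sphere (0:ℂ) ρ :=
      self_mem_nhdsWithin
    obtain ⟨m0, hm0⟩ := (hd.eventually_lt_const hε).exists_forall_of_atTop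
    refine ⟨_, (e1.and (e2.and e3)), max m0 1, ?_⟩
    rintro m hm q ⟨hq1, hq2, hqs⟩
    have hqn : ‖q‖ ≤ 1 := by
      rw [mem_sphere_zero_iff_norm] at hqs
      linarith
    obtain ⟨l, hl⟩ := Frame.exists_fac hqn (h q hqs)
    have h1 := hu q (z q) l hqn (hl.restr hq2.le)
      (fun i hi => (hq1 i (Finset.mem_range.2 hi)).le) m
      (lt_of_lt_of_le (by omega) (le_trans (le_max_right m0 1) hm)) N le_rfl
    rw [es_self, Nat.sub_self, Nat.zero_mul, pow_zero, one_mul] at h1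
    have hP : (∏ i ∈ Finset.range N, ((z q i)⁻¹) ^ m) ≠ 0 := by
      rw [Finset.prod_ne_zero_iff]
      intro i hi
      have hi' := Finset.mem_range.1 hi
      exact pow_ne_zero _ (inv_ne_zero ((h q hqs).z_ne (by omega)))
    have hPn : ‖∏ i ∈ Finset.range N, ((z q i)⁻¹) ^ m‖ = ∏ i ∈ Finset.range N, (‖z q i‖⁻¹) ^ m := by
      rw [norm_prod]
      simp only [norm_pow, norm_inv]
    have hP0 : 0 < ‖∏ i ∈ Finset.range N, ((z q i)⁻¹) ^ m‖ := norm_pos_iff.2 hP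
    rw [← hPn] at h1
    have h2 : (cP N m).eval q / ∏ i ∈ Finset.range N, ((z q i)⁻¹) ^ m - (-1) ^ N
        = ((cP N m).eval q - (-1) ^ N * ∏ i ∈ Finset.range N, ((z q i)⁻¹) ^ m)
          / ∏ i ∈ Finset.range N, ((z q i)⁻¹) ^ m := by
      rw [sub_div, mul_div_assoc, div_self hP, mul_one]
    rw [h2, norm_div, div_lt_iff₀ hP0]
    have h3 := hm0 m (le_trans (le_max_left _ _) hm)
    calc _ ≤ _ := h1
      _ = d m * ‖∏ i ∈ Finset.range N, ((z q i)⁻¹) ^ m‖ := mul_comm _ _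
      _ < _ := mul_lt_mul_of_pos_right h3 hP0

/-- c_(N,m) / q^.. has no zero in the disc -/
theorem zero_free_g {ρ : ℝ} (hρ0 : 0 < ρ) (hρ : ρ < 1) {N : ℕ} {z : ℂ → ℕ → ℂ}
    (h : ∀ q ∈ Metric.sphere (0:ℂ) ρ, Frame q (N + 1) (z q))
    (hs : ∀ q ∈ Metric.sphere (0:ℂ) ρ, Strong q (N + 1) (z q)) :
    ∃ m0 : ℕ, ∀ m ≥ m0, ∀ g : Polynomial ℂ,
      cP N m = Polynomial.X ^ (m * (N * (N - 1) / 2)) * g → ∀ q : ℂ, ‖q‖ ≤ ρ → g.eval q ≠ 0 := by
  obtain ⟨m0, hm0⟩ := coef_circle hρ h (ε := 1 / 2) (by norm_num)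
  refine ⟨m0, fun m hm g hg => ?_⟩
  have hcont := frame_cont hρ.le h
  choose L hLc hL using frame_log hρ0 hρ h hs
  obtain ⟨L', hL'⟩ : ∃ L' : ℕ → ℂ → ℂ, ∀ i (hi : i < N), L' i = L i hi :=
    ⟨fun i => if hi : i < N then L i hi else 0, fun i hi => dif_pos hi⟩
  have hLc' : ∀ i < N, ContinuousOn (L' i) (Metric.sphere 0 ρ) := fun i hi => by
    rw [hL' i hi]; exact hLc i hi
  have hL2 : ∀ i < N, ∀ q ∈ Metric.sphere (0:ℂ) ρ, -(z q i)⁻¹ = q ^ i * exp (L' i q) := fun i hi => by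
    rw [hL' i hi]; exact hL i hi
  obtain ⟨P, hP⟩ : ∃ P : ℂ → ℂ, P = fun q => ∏ i ∈ Finset.range N, ((z q i)⁻¹) ^ m := ⟨_, rfl⟩
  have hPne : ∀ q ∈ Metric.sphere (0:ℂ) ρ, P q ≠ 0 := by
    intro q hq
    rw [hP]
    simp only
    rw [Finset.prod_ne_zero_iff]
    intro i hi
    have hi' := Finset.mem_range.1 hi
    exact pow_ne_zero _ (inv_ne_zero ((h q hq).z_ne (by omega)))
  have hPc : ContinuousOn P (Metric.sphere 0 ρ) := by
    rw [hP]
    refine continuousOn_finsetProd _ fun i hi => ?_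
    have hi' := Finset.mem_range.1 hi
    exact ((hcont i (by omega)).inv₀ fun q hq => (h q hq).z_ne (by omega)).pow m
  obtain ⟨E, hE⟩ : ∃ E : ℂ → ℂ, E = fun q => (-1) ^ N * ((cP N m).eval q / P q) := ⟨_, rfl⟩
  have hEc : ContinuousOn E (Metric.sphere 0 ρ) := by
    rw [hE]
    exact continuousOn_const.mul ((Polynomial.continuous _).continuousOn.div hPc hPne)
  have hE1 : ∀ q ∈ Metric.sphere (0:ℂ) ρ, ‖E q - 1‖ < 1 / 2 := by
    intro q hq
    have h1 := hm0 m hm q hq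
    have h2 : E q - 1 = (-1) ^ N * ((cP N m).eval q / P q - (-1) ^ N) := by
      rw [hE]
      simp only
      rw [mul_sub, ← pow_add, ← two_mul, pow_mul]
      norm_num
    rw [h2, norm_mul, norm_pow, norm_neg, norm_one, one_pow, one_mul, hP]
    exact h1
  have hEs : ∀ q ∈ Metric.sphere (0:ℂ) ρ, E q ∈ slitPlane := by
    intro q hq
    left
    have h1 := (Complex.abs_re_le_norm (E q - 1)).trans_lt (hE1 q hq)
    rw [Complex.sub_re, Complex.one_re, abs_lt] at h1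
    linarith [h1.1]
  have hev : ∀ q ∈ Metric.sphere (0:ℂ) ρ, g.eval q
      = (-1) ^ (N + N * m) * (exp (m * ∑ i ∈ Finset.range N, L' i q) * E q) := by
    intro q hq
    have hq0 : q ≠ 0 := by
      rintro rfl
      rw [mem_sphere_zero_iff_norm, norm_zero] at hq
      exact hρ0.ne hq
    have h1 : (cP N m).eval q = (-1) ^ N * (E q * P q) := by
      rw [hE]
      simp only
      have := hPne q hq
      have h11 : ((-1:ℂ) ^ N) * (-1) ^ N = 1 := by
        rw [← pow_add, ← two_mul, pow_mul]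
        norm_num
      calc (cP N m).eval q = (((-1:ℂ) ^ N) * (-1) ^ N) * (((cP N m).eval q / P q) * P q) := by
            rw [h11, one_mul, div_mul_cancel₀ _ this]
        _ = _ := by ring
    have h2 : P q = (-1) ^ (N * m) * (q ^ (m * (N * (N - 1) / 2))
        * exp (m * ∑ i ∈ Finset.range N, L' i q)) := by
      rw [hP]
      simp only
      rw [Finset.prod_pow]
      have h3 : ∏ i ∈ Finset.range N, (z q i)⁻¹
          = (-1) ^ N * (q ^ (N * (N - 1) / 2) * exp (∑ i ∈ Finset.range N, L' i q)) := by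
        rw [Complex.exp_sum, ← Finset.sum_range_id, ← Finset.prod_pow_eq_pow_sum,
          ← Finset.prod_mul_distrib]
        have h4 : ((-1:ℂ)) ^ N = ∏ _i ∈ Finset.range N, (-1:ℂ) := by simp
        rw [h4, ← Finset.prod_mul_distrib]
        refine Finset.prod_congr rfl fun i hi => ?_
        rw [← hL2 i (Finset.mem_range.1 hi) q hq]
        ring
      rw [h3, mul_pow, mul_pow, ← pow_mul, ← pow_mul, ← Complex.exp_nat_mul]
      congr 3
      ring
    have h5 := h1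
    rw [h2, hg, Polynomial.eval_mul, Polynomial.eval_pow, Polynomial.eval_X] at h5
    have h6 : q ^ (m * (N * (N - 1) / 2)) ≠ 0 := pow_ne_zero _ hq0
    refine mul_left_cancel₀ h6 (h5.trans ?_)
    rw [pow_add]
    ring
  refine poly_zero_free_of_log hρ0 (fun q => Complex.log ((-1) ^ (N + N * m))
    + (m * ∑ i ∈ Finset.range N, L' i q + Complex.log (E q))) ?_ ?_
  · refine continuousOn_const.add ((continuousOn_const.mul ?_).add (hEc.clog hEs))
    exact continuousOn_finsetSum _ fun i hi => hLc' i (Finset.mem_range.1 hi)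
  · intro q hq
    have hq' : q ∈ Metric.sphere (0:ℂ) ρ := by rwa [mem_sphere_zero_iff_norm]
    rw [Complex.exp_add, Complex.exp_add, Complex.exp_log, Complex.exp_log, hev q hq']
    · exact slitPlane_ne_zero (hEs q hq')
    · exact pow_ne_zero _ (by norm_num)

/-- normalised elementary symmetric functions -/
theorem prod_inv_pow {R : ℝ} (hR : 0 < R) {w : ℕ → ℂ} {S T : Finset ℕ}
    (hT : ∀ i ∈ T, w i ≠ 0) {l : ℕ} (hc : S.card = T.card + l) (m : ℕ) :
    (∏ i ∈ S, ((w i)⁻¹) ^ m) = ((∏ i ∈ T, ((w i)⁻¹) ^ m) * ((R:ℂ)⁻¹) ^ (l * m))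
      * ((∏ i ∈ T \ S, (w i / R) ^ m) * ∏ i ∈ S \ T, ((R:ℂ) / w i) ^ m) := by
  have hRc : (R:ℂ) ≠ 0 := by exact_mod_cast hR.ne'
  have h1 : (∏ i ∈ S, ((w i)⁻¹) ^ m) = (∏ i ∈ S ∩ T, ((w i)⁻¹) ^ m) * ∏ i ∈ S \ T, ((w i)⁻¹) ^ m :=
    (Finset.prod_inter_mul_prod_sdiff S T _).symm
  have h2 : (∏ i ∈ T, ((w i)⁻¹) ^ m) = (∏ i ∈ S ∩ T, ((w i)⁻¹) ^ m) * ∏ i ∈ T \ S, ((w i)⁻¹) ^ m := by
    rw [Finset.inter_comm]
    exact (Finset.prod_inter_mul_prod_sdiff T S _).symm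
  have h3 : (∏ i ∈ T \ S, (w i / R) ^ m)
      = ((R:ℂ)⁻¹) ^ ((T \ S).card * m) * (∏ i ∈ T \ S, ((w i)⁻¹) ^ m)⁻¹ := by
    rw [← Finset.prod_inv_distrib, mul_comm (T \ S).card m, pow_mul, ← Finset.prod_const,
      ← Finset.prod_mul_distrib]
    refine Finset.prod_congr rfl fun i hi => ?_
    rw [← inv_pow, inv_inv, ← mul_pow, div_eq_mul_inv, mul_comm]
  have h4 : (∏ i ∈ S \ T, ((R:ℂ) / w i) ^ m)
      = (R:ℂ) ^ ((S \ T).card * m) * (∏ i ∈ S \ T, ((w i)⁻¹) ^ m) := by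
    rw [mul_comm (S \ T).card m, pow_mul, ← Finset.prod_const, ← Finset.prod_mul_distrib]
    refine Finset.prod_congr rfl fun i hi => ?_
    rw [← mul_pow, div_eq_mul_inv]
  have h5 : (S \ T).card = (T \ S).card + l := by
    have e1 := Finset.card_sdiff_add_card_inter S T
    have e2 := Finset.card_sdiff_add_card_inter T S
    rw [Finset.inter_comm] at e2
    omega
  have h6 : (∏ i ∈ T \ S, ((w i)⁻¹) ^ m) ≠ 0 := by
    rw [Finset.prod_ne_zero_iff]
    intro i hi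
    exact pow_ne_zero _ (inv_ne_zero (hT i (Finset.mem_sdiff.1 hi).1))
  rw [h1, h2, h3, h4, h5, add_mul, pow_add, inv_pow, inv_pow]
  generalize (∏ i ∈ T \ S, ((w i)⁻¹) ^ m) = X1 at h6 ⊢
  generalize (∏ i ∈ S \ T, ((w i)⁻¹) ^ m) = X2
  generalize (∏ i ∈ S ∩ T, ((w i)⁻¹) ^ m) = X3
  field_simp

theorem card_filter_superset {N : ℕ} {T : Finset ℕ} (hT : T ⊆ Finset.range N) (l : ℕ) :
    (((Finset.range N).powersetCard (T.card + l)).filter (fun S => T ⊆ S)).card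
      = (N - T.card).choose l := by
  have h1 : (N - T.card).choose l = ((Finset.range N \ T).powersetCard l).card := by
    rw [Finset.card_powersetCard, Finset.card_sdiff_of_subset hT, Finset.card_range]
  rw [h1]
  refine Finset.card_nbij' (fun S => S \ T) (fun S => S ∪ T) ?_ ?_ ?_ ?_
  · intro S hS
    simp only [Finset.coe_filter, Finset.mem_powersetCard, Set.mem_ofPred_eq] at hS
    obtain ⟨⟨h2, h3⟩, h4⟩ := hS
    simp only [Finset.mem_coe, Finset.mem_powersetCard]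
    refine ⟨Finset.sdiff_subset_sdiff h2 (Finset.Subset.refl _), ?_⟩
    rw [Finset.card_sdiff_of_subset h4, h3]
    omega
  · intro S hS
    simp only [Finset.mem_coe, Finset.mem_powersetCard] at hS
    obtain ⟨h2, h3⟩ := hS
    simp only [Finset.coe_filter, Finset.mem_powersetCard, Set.mem_ofPred_eq]
    refine ⟨⟨Finset.union_subset (h2.trans Finset.sdiff_subset) hT, ?_⟩, Finset.subset_union_right⟩
    rw [Finset.card_union_of_disjoint, h3, add_comm]
    rw [Finset.disjoint_left]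
    intro x hx hxT
    exact (Finset.mem_sdiff.1 (h2 hx)).2 hxT
  · intro S hS
    simp only [Finset.coe_filter, Finset.mem_powersetCard, Set.mem_ofPred_eq] at hS
    exact Finset.sdiff_union_of_subset hS.2
  · intro S hS
    simp only [Finset.mem_coe, Finset.mem_powersetCard] at hS
    have h2 : Disjoint S T := by
      rw [Finset.disjoint_left]
      intro x hx hxT
      exact (Finset.mem_sdiff.1 (hS.1 hx)).2 hxT
    exact Finset.union_sdiff_cancel_right h2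

theorem es_asymp {N : ℕ} {w : ℕ → ℂ} {R : ℝ} (hR : 0 < R) (hw : ∀ i < N, w i ≠ 0)
    {T : Finset ℕ} (hT : T ⊆ Finset.range N) (hT1 : ∀ i ∈ T, ‖w i‖ < R)
    {φ : ℕ → ℕ} (hφ : Tendsto φ atTop atTop)
    (hu : ∀ i < N, i ∉ T → Tendsto (fun t => ((R:ℂ) / w i) ^ (φ t)) atTop (𝓝 1)) (l : ℕ) :
    Tendsto (fun t => es N (T.card + l) (φ t) w
      / ((∏ i ∈ T, ((w i)⁻¹) ^ (φ t)) * ((R:ℂ)⁻¹) ^ (l * φ t))) atTop
      (𝓝 ((N - T.card).choose l : ℂ)) := by
  have hRc : (R:ℂ) ≠ 0 := by exact_mod_cast hR.ne'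
  have h1 : ∀ t, es N (T.card + l) (φ t) w
      / ((∏ i ∈ T, ((w i)⁻¹) ^ (φ t)) * ((R:ℂ)⁻¹) ^ (l * φ t))
      = ∑ S ∈ (Finset.range N).powersetCard (T.card + l),
        ((∏ i ∈ T \ S, (w i / R) ^ (φ t)) * ∏ i ∈ S \ T, ((R:ℂ) / w i) ^ (φ t)) := by
    intro t
    unfold es
    rw [Finset.sum_div]
    refine Finset.sum_congr rfl fun S hS => ?_
    rw [Finset.mem_powersetCard] at hS
    rw [prod_inv_pow hR
      (fun i hi => hw i (Finset.mem_range.1 (hT hi))) hS.2 (φ t)]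
    rw [mul_div_assoc, mul_comm, div_mul_cancel₀]
    refine mul_ne_zero ?_ (pow_ne_zero _ (inv_ne_zero hRc))
    rw [Finset.prod_ne_zero_iff]
    intro i hi
    exact pow_ne_zero _ (inv_ne_zero (hw i (Finset.mem_range.1 (hT hi))))
  simp only [h1]
  have h2 : ((N - T.card).choose l : ℂ) = ∑ S ∈ (Finset.range N).powersetCard (T.card + l),
      ((∏ _i ∈ T \ S, (0:ℂ)) * ∏ _i ∈ S \ T, (1:ℂ)) := by
    rw [← card_filter_superset hT l, Finset.card_filter]
    push_cast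
    refine Finset.sum_congr rfl fun S hS => ?_
    rw [Finset.prod_const_one, mul_one, Finset.prod_const]
    by_cases hTS : T ⊆ S
    · rw [if_pos hTS, Finset.sdiff_eq_empty_iff_subset.2 hTS, Finset.card_empty, pow_zero]
    · rw [if_neg hTS, zero_pow]
      rw [Ne, Finset.card_eq_zero, Finset.sdiff_eq_empty_iff_subset]
      exact hTS
  rw [h2]
  refine tendsto_finsetSum _ fun S hS => Tendsto.mul (tendsto_finsetProd _ fun i hi => ?_)
    (tendsto_finsetProd _ fun i hi => ?_)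
  · have hi' := (Finset.mem_sdiff.1 hi).1
    have h3 : ‖w i / (R:ℂ)‖ < 1 := by
      rw [norm_div, Complex.norm_real, Real.norm_eq_abs, abs_of_pos hR, div_lt_one hR]
      exact hT1 i hi'
    exact (tendsto_pow_atTop_nhds_zero_of_norm_lt_one h3).comp hφ
  · rw [Finset.mem_sdiff] at hi
    rw [Finset.mem_powersetCard] at hS
    exact hu i (Finset.mem_range.1 (hS.1 hi.1)) hi.2

/-- a collision gives two indices -/
theorem two_idx {q : ℂ} (hq : ‖q‖ ≤ 1) {N : ℕ} {w : ℕ → ℂ} {b : ℝ} {l : ℂ → ℂ}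
    (hF : Fac q N w b l) {z1 z2 : ℂ} (h1 : F q z1 = 0) (h2 : F q z2 = 0) (hb1 : ‖z1‖ < b)
    (hb2 : ‖z2‖ < b) (h : z1 ≠ z2 ∨ (z1 = z2 ∧ F q (q * z1) = 0)) :
    ∃ i < N, ∃ j < N, i ≠ j ∧ w i = z1 ∧ w j = z2 := by
  have key : ∀ z : ℂ, F q z = 0 → ‖z‖ < b → ∃ i < N, w i = z := by
    intro z hz hzb
    have hz' : z ∈ Metric.ball (0:ℂ) b := by rwa [mem_ball_zero_iff]
    rw [hF.eq z hz'] at hz
    rcases mul_eq_zero.1 hz with h3 | h3
    · rw [Finset.prod_eq_zero_iff] at h3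
      obtain ⟨i, hi, h4⟩ := h3
      have hi' := Finset.mem_range.1 hi
      refine ⟨i, hi', ?_⟩
      have h5 := hF.ne i hi'
      rw [sub_eq_zero, eq_div_iff h5, one_mul] at h4
      exact h4
    · exact absurd h3 (exp_ne_zero _)
  obtain ⟨i, hi, hwi⟩ := key z1 h1 hb1
  rcases h with h | ⟨h, h3⟩
  · obtain ⟨j, hj, hwj⟩ := key z2 h2 hb2
    refine ⟨i, hi, j, hj, ?_, hwi, hwj⟩
    rintro rfl
    exact h (hwi.symm.trans hwj)
  · subst h
    by_contra hcon
    push Not at hcon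
    have hother : ∀ j < N, i ≠ j → w j ≠ z1 := fun j hj hij => hcon i hi j hj hij hwi
    have hzb : z1 ∈ Metric.ball (0:ℂ) b := by rwa [mem_ball_zero_iff]
    obtain ⟨G, hG⟩ : ∃ G : ℂ → ℂ, G = fun z =>
        (∏ j ∈ (Finset.range N).erase i, (1 - z / w j)) * exp (l z) := ⟨_, rfl⟩
    have hGd : DifferentiableAt ℂ G z1 := by
      rw [hG]
      refine DifferentiableAt.mul ?_ ?_
      · refine DifferentiableAt.fun_finsetProd fun j _ => ?_
        exact (differentiableAt_const _).sub (differentiableAt_id.div_const _)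
      · exact (hF.dif.differentiableAt (Metric.isOpen_ball.mem_nhds hzb)).cexp
    have hG1 : G z1 ≠ 0 := by
      rw [hG]
      refine mul_ne_zero ?_ (exp_ne_zero _)
      rw [Finset.prod_ne_zero_iff]
      intro j hj
      rw [Finset.mem_erase, Finset.mem_range] at hj
      have h5 := hother j hj.2 hj.1.symm
      intro h6
      rw [sub_eq_zero, eq_div_iff (hF.ne j hj.2), one_mul] at h6
      exact h5 h6
    have hFG : ∀ᶠ z in 𝓝 z1, F q z = (1 - z / w i) * G z := by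
      filter_upwards [Metric.isOpen_ball.mem_nhds hzb] with z hz
      rw [hF.eq z hz, hG, ← Finset.mul_prod_erase _ _ (Finset.mem_range.2 hi), mul_assoc]
    have hd1 : HasDerivAt (fun z => (1 - z / w i) * G z)
        ((-(1 / w i)) * G z1 + (1 - z1 / w i) * deriv G z1) z1 := by
      have e1 : HasDerivAt (fun z : ℂ => 1 - z / w i) (-(1 / w i)) z1 :=
        ((hasDerivAt_id z1).div_const (w i)).const_sub 1
      exact e1.mul hGd.hasDerivAt
    have hd2 := hd1.congr_of_eventuallyEq hFG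
    have hd3 := hd2.unique (hasDerivAt_F hq z1)
    rw [h3, hwi, div_self, sub_self, zero_mul, add_zero] at hd3
    · rcases mul_eq_zero.1 hd3 with h7 | h7
      · rw [neg_eq_zero, one_div, inv_eq_zero] at h7
        exact hF.ne i hi (hwi.trans h7)
      · exact hG1 h7
    · rw [← hwi]
      exact hF.ne i hi

/-- the maximum modulus principle on a closed disc -/
theorem max_closed_disc {f : ℂ → ℂ} {ρ K : ℝ} (hρ : 0 < ρ)
    (hd : ∀ q, ‖q‖ ≤ ρ → DifferentiableAt ℂ f q) (h : ∀ q, ‖q‖ = ρ → ‖f q‖ ≤ K) {q : ℂ}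
    (hq : ‖q‖ ≤ ρ) : ‖f q‖ ≤ K := by
  have h1 : DiffContOnCl ℂ f (Metric.ball 0 ρ) := by
    refine ⟨fun z hz => (hd z ?_).differentiableWithinAt, fun z hz => ?_⟩
    · rw [mem_ball_zero_iff] at hz
      exact hz.le
    · rw [closure_ball _ hρ.ne', mem_closedBall_zero_iff] at hz
      exact (hd z hz).continuousAt.continuousWithinAt
  refine Complex.norm_le_of_forall_mem_frontier_norm_le Metric.isBounded_ball h1 (fun z hz => ?_) ?_
  · rw [frontier_ball _ hρ.ne', mem_sphere_zero_iff_norm] at hz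
    exact h z hz
  · rw [closure_ball _ hρ.ne', mem_closedBall_zero_iff]
    exact hq

/-- (3a), (3b): the bound for R_m in the disc -/
theorem ratio_bound {ρ : ℝ} (hρ0 : 0 < ρ) (hρ : ρ < 1) {s : ℕ} {z : ℂ → ℕ → ℂ}
    (h : ∀ q ∈ Metric.sphere (0:ℂ) ρ, Frame q (s + 3) (z q))
    (hs : ∀ q ∈ Metric.sphere (0:ℂ) ρ, Strong q (s + 3) (z q)) :
    ∃ m0 : ℕ, ∀ m ≥ m0, ∀ q : ℂ, ‖q‖ ≤ ρ → q ≠ 0 →
      ‖(cP s m).eval q * (cP (s + 2) m).eval q / ((cP (s + 1) m).eval q) ^ 2‖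
        ≤ 9 * (‖q‖ / ρ) ^ m := by
  obtain ⟨n0, h0⟩ := coef_circle hρ (N := s) (fun q hq => (h q hq).restr (by omega))
    (ε := 1 / 2) (by norm_num)
  obtain ⟨n1, h1⟩ := coef_circle hρ (N := s + 1) (fun q hq => (h q hq).restr (by omega))
    (ε := 1 / 2) (by norm_num)
  obtain ⟨n2, h2⟩ := coef_circle hρ (N := s + 2) (fun q hq => (h q hq).restr (by omega))
    (ε := 1 / 2) (by norm_num)
  obtain ⟨n3, h3⟩ := zero_free_g hρ0 hρ (N := s + 1) (fun q hq => (h q hq).restr (by omega))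
    (fun q hq => (hs q hq).restr (by omega))
  refine ⟨max (max n0 n1) (max n2 (max n3 1)), fun m hm => ?_⟩
  have hm0 : n0 ≤ m := by omega
  have hm1 : n1 ≤ m := by omega
  have hm2 : n2 ≤ m := by omega
  have hm3 : n3 ≤ m := by omega
  have hmp : 0 < m := by omega
  obtain ⟨g0, hg0, -⟩ := cP_factor s hmp
  obtain ⟨g1, hg1, -⟩ := cP_factor (s + 1) hmp
  obtain ⟨g2, hg2, -⟩ := cP_factor (s + 2) hmp
  have hz1 := h3 m hm3 g1 hg1
  have ht1 := Nat.triangle_succ s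
  have ht2 := Nat.triangle_succ (s + 1)
  have hexp : m * (s * (s - 1) / 2) + m * ((s + 2) * (s + 2 - 1) / 2)
      = m * ((s + 1) * (s + 1 - 1) / 2) * 2 + m := by
    have : (s + 2) * (s + 2 - 1) / 2 = s * (s - 1) / 2 + s + (s + 1) := by
      rw [← ht1]; exact ht2
    rw [this, ht1]
    ring
  have hrat : ∀ q : ℂ, q ≠ 0 →
      (cP s m).eval q * (cP (s + 2) m).eval q / ((cP (s + 1) m).eval q) ^ 2
        = q ^ m * (g0.eval q * g2.eval q / (g1.eval q) ^ 2) := by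
    intro q hq
    rw [hg0, hg1, hg2]
    simp only [Polynomial.eval_mul, Polynomial.eval_pow, Polynomial.eval_X]
    have e1 : q ^ (m * (s * (s - 1) / 2)) * g0.eval q * (q ^ (m * ((s + 2) * (s + 2 - 1) / 2)) * g2.eval q)
        = q ^ (m * ((s + 1) * (s + 1 - 1) / 2) * 2) * (q ^ m * (g0.eval q * g2.eval q)) := by
      rw [← mul_assoc (q ^ (m * ((s + 1) * (s + 1 - 1) / 2) * 2)), ← pow_add, ← hexp, pow_add]
      ring
    rw [e1, mul_pow, ← pow_mul, mul_div_mul_left _ _ (pow_ne_zero _ hq), mul_div_assoc]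
  have hsph : ∀ q : ℂ, ‖q‖ = ρ →
      ‖(cP s m).eval q * (cP (s + 2) m).eval q / ((cP (s + 1) m).eval q) ^ 2‖ ≤ 9 := by
    intro q hq
    have hq' : q ∈ Metric.sphere (0:ℂ) ρ := by rwa [mem_sphere_zero_iff_norm]
    have a0 := h0 m hm0 q hq'
    have a1 := h1 m hm1 q hq'
    have a2 := h2 m hm2 q hq'
    have hF := h q hq'
    have hA : ∀ n, n ≤ s + 3 → (∏ i ∈ Finset.range n, ((z q i)⁻¹) ^ m) ≠ 0 := by
      intro n hn
      rw [Finset.prod_ne_zero_iff]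
      intro i hi
      have hi' := Finset.mem_range.1 hi
      exact pow_ne_zero _ (inv_ne_zero (hF.z_ne (by omega)))
    have hA0 := hA s (by omega)
    rw [Finset.prod_range_succ] at a1
    rw [Finset.prod_range_succ, Finset.prod_range_succ] at a2
    have hz0 : z q s ≠ 0 := hF.z_ne (by omega)
    have hz1' : z q (s + 1) ≠ 0 := hF.z_ne (by omega)
    have hmod : ‖z q s‖ ≤ ‖z q (s + 1)‖ := (hF.mono s (s + 1) (by omega) (by omega)).le
    generalize (∏ i ∈ Finset.range s, ((z q i)⁻¹) ^ m) = A at *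
    have nrm : ∀ (x : ℂ) (n : ℕ), ‖x - (-1) ^ n‖ < 1 / 2 → ‖x‖ ≤ 3 / 2 ∧ 1 / 2 ≤ ‖x‖ := by
      intro x n hx
      have e1 : ‖((-1:ℂ)) ^ n‖ = 1 := by rw [norm_pow, norm_neg, norm_one, one_pow]
      have e2 := norm_sub_norm_le x ((-1) ^ n)
      have e3 := norm_sub_norm_le ((-1:ℂ) ^ n) x
      rw [norm_sub_rev] at e3
      constructor <;> linarith
    obtain ⟨b0, -⟩ := nrm _ _ a0
    obtain ⟨-, b1⟩ := nrm _ _ a1
    obtain ⟨b2, -⟩ := nrm _ _ a2
    have e1 : (cP s m).eval q * (cP (s + 2) m).eval q / ((cP (s + 1) m).eval q) ^ 2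
        = ((cP s m).eval q / A)
          * ((cP (s + 2) m).eval q / (A * (z q s)⁻¹ ^ m * (z q (s + 1))⁻¹ ^ m))
          / ((cP (s + 1) m).eval q / (A * (z q s)⁻¹ ^ m)) ^ 2 * (z q s / z q (s + 1)) ^ m := by
      have k1 : z q s ^ m ≠ 0 := pow_ne_zero _ hz0
      have k2 : z q (s + 1) ^ m ≠ 0 := pow_ne_zero _ hz1'
      rw [inv_pow, inv_pow, div_pow (z q s)]
      by_cases hc : (cP (s + 1) m).eval q = 0
      · rw [hc]; simp
      · field_simp
    rw [e1, norm_mul, norm_div, norm_mul, norm_pow, norm_pow, norm_div (z q s)]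
    have e2 : (‖z q s‖ / ‖z q (s + 1)‖) ^ m ≤ 1 :=
      pow_le_one₀ (by positivity) (div_le_one_of_le₀ hmod (norm_nonneg _))
    have e3 : ‖(cP s m).eval q / A‖ * ‖(cP (s + 2) m).eval q / (A * (z q s)⁻¹ ^ m * (z q (s + 1))⁻¹ ^ m)‖
        / ‖(cP (s + 1) m).eval q / (A * (z q s)⁻¹ ^ m)‖ ^ 2 ≤ 9 := by
      rw [div_le_iff₀ (by positivity)]
      have e4 : ‖(cP s m).eval q / A‖ * ‖(cP (s + 2) m).eval q / (A * (z q s)⁻¹ ^ m * (z q (s + 1))⁻¹ ^ m)‖
          ≤ (3 / 2) * (3 / 2) := mul_le_mul b0 b2 (norm_nonneg _) (by norm_num)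
      nlinarith
    calc _ ≤ 9 * (1:ℝ) := mul_le_mul e3 e2 (by positivity) (by norm_num)
      _ = 9 := mul_one _
  intro q hq hq0
  have hmax := max_closed_disc (f := fun q => g0.eval q * g2.eval q / (g1.eval q) ^ 2) (ρ := ρ)
    (K := 9 / ρ ^ m) hρ0 (fun q hq => ?_) (fun q hq => ?_) hq
  · rw [hrat q hq0, norm_mul, norm_pow, div_pow]
    calc ‖q‖ ^ m * _ ≤ ‖q‖ ^ m * (9 / ρ ^ m) := mul_le_mul_of_nonneg_left hmax (by positivity)
      _ = _ := by ring
  · exact ((Polynomial.differentiable _).differentiableAt.mul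
      (Polynomial.differentiable _).differentiableAt).div
      ((Polynomial.differentiable _).differentiableAt.pow 2) (pow_ne_zero _ (hz1 q hq))
  · have hq0' : q ≠ 0 := by
      rintro rfl
      rw [norm_zero] at hq
      exact hρ0.ne hq
    have e5 := hsph q hq
    rw [hrat q hq0', norm_mul, norm_pow, hq] at e5
    rw [le_div_iff₀ (by positivity), mul_comm]
    exact e5

theorem inside (h : ∀ N : ℕ, ∃ ρ : ℝ, 0 < ρ ∧ ρ < 1 ∧ ∀ q : ℂ, ρ ≤ ‖q‖ → ‖q‖ < 1 →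
      ∃ z : ℕ → ℂ, Frame q N z ∧ Strong q N z) {q : ℂ} (hq0 : q ≠ 0) (hq : ‖q‖ < 1) : Nice q := by
  by_contra hN
  obtain ⟨z1, z2, hz1, hz2, hzn, hcol⟩ : ∃ z1 z2 : ℂ, F q z1 = 0 ∧ F q z2 = 0 ∧ ‖z1‖ = ‖z2‖ ∧
      (z1 ≠ z2 ∨ (z1 = z2 ∧ F q (q * z1) = 0)) := by
    unfold Nice at hN
    rw [not_and_or] at hN
    rcases hN with hN | hN
    · push Not at hN
      obtain ⟨z, hz, hz'⟩ := hN
      exact ⟨z, z, hz, hz, rfl, Or.inr ⟨rfl, hz'⟩⟩
    · push Not at hN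
      obtain ⟨z, w, hz, hw, hzw, hne⟩ := hN
      exact ⟨z, w, hz, hw, hzw, Or.inl hne⟩
  obtain ⟨R, hRdef⟩ : ∃ R : ℝ, R = ‖z1‖ := ⟨_, rfl⟩
  have hR : 0 < R := by
    rw [hRdef, norm_pos_iff]
    rintro rfl
    rw [F_zero] at hz1
    exact one_ne_zero hz1
  have hRc : (R:ℂ) ≠ 0 := by exact_mod_cast hR.ne'
  obtain ⟨N, w, b, l, hRb, hF, hw⟩ := exists_fac hq.le hR
  obtain ⟨i1, hi1, i2, hi2, hne, hw1, hw2⟩ := two_idx hq.le hF hz1 hz2 (by rw [← hRdef]; exact hRb)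
    (by rw [← hzn, ← hRdef]; exact hRb) hcol
  obtain ⟨T, hT⟩ : ∃ T : Finset ℕ, T = (Finset.range N).filter (fun i => ‖w i‖ < R) := ⟨_, rfl⟩
  have hTr : T ⊆ Finset.range N := by rw [hT]; exact Finset.filter_subset _ _
  have hT1 : ∀ i ∈ T, ‖w i‖ < R := by
    intro i hi
    rw [hT] at hi
    exact (Finset.mem_filter.1 hi).2
  have hT2 : ∀ i < N, i ∉ T → ‖w i‖ = R := by
    intro i hi hiT
    rw [hT, Finset.mem_filter, not_and] at hiT
    exact le_antisymm (hw i hi).1 (not_lt.1 (hiT (Finset.mem_range.2 hi)))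
  have hk : T.card + 2 ≤ N := by
    have e1 : ({i1, i2} : Finset ℕ) ⊆ Finset.range N \ T := by
      intro i hi
      rw [Finset.mem_insert, Finset.mem_singleton] at hi
      rw [Finset.mem_sdiff, Finset.mem_range]
      rcases hi with rfl | rfl
      · refine ⟨hi1, fun hc => ?_⟩
        have := hT1 _ hc
        rw [hw1, ← hRdef] at this
        exact lt_irrefl _ this
      · refine ⟨hi2, fun hc => ?_⟩
        have := hT1 _ hc
        rw [hw2, ← hzn, ← hRdef] at this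
        exact lt_irrefl _ this
    have e2 := Finset.card_le_card e1
    rw [Finset.card_pair hne, Finset.card_sdiff_of_subset hTr, Finset.card_range] at e2
    omega
  -- the sequence
  have hdir : ∀ t : ℕ, ∃ m, t + 1 ≤ m ∧ ∀ i : Fin N,
      ‖(if ‖w i‖ = R then (R:ℂ) / w i else 1) ^ m - 1‖ < 1 / ((t:ℝ) + 1) := by
    intro t
    obtain ⟨m, hm, -, hm2⟩ := dirichlet_pow (fun i : Fin N => if ‖w i‖ = R then (R:ℂ) / w i else 1)
      (fun i => by
        split_ifs with hi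
        · rw [norm_div, hi, Complex.norm_real, Real.norm_eq_abs, abs_of_pos hR, div_self hR.ne']
        · exact norm_one) (1 / ((t:ℝ) + 1)) (by positivity) (t + 1)
    exact ⟨m, hm, hm2⟩
  choose φ hφ1 hφ2 using hdir
  have hφ : Tendsto φ atTop atTop :=
    tendsto_atTop_mono (fun t => (Nat.le_succ t).trans (hφ1 t)) tendsto_id
  have hu : ∀ i < N, i ∉ T → Tendsto (fun t => ((R:ℂ) / w i) ^ (φ t)) atTop (𝓝 1) := by
    intro i hi hiT
    rw [tendsto_iff_norm_sub_tendsto_zero]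
    refine squeeze_zero (fun t => norm_nonneg _) (fun t => ?_)
      tendsto_one_div_add_atTop_nhds_zero_nat
    have := hφ2 t ⟨i, hi⟩
    simp only [hT2 i hi hiT, if_true] at this
    exact this.le
  have hWne : ∀ m : ℕ, (∏ i ∈ T, ((w i)⁻¹) ^ m) ≠ 0 := by
    intro m
    rw [Finset.prod_ne_zero_iff]
    intro i hi
    exact pow_ne_zero _ (inv_ne_zero (hF.ne i (Finset.mem_range.1 (hTr hi))))
  obtain ⟨d, hd, hcu⟩ := coef_unif N hR hRb
  have hcoef : ∀ j, T.card + j ≤ N → Tendsto (fun t => (cP (T.card + j) (φ t)).eval q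
      / ((∏ i ∈ T, ((w i)⁻¹) ^ (φ t)) * ((R:ℂ)⁻¹) ^ (j * φ t))) atTop
      (𝓝 ((-1) ^ (T.card + j) * ((N - T.card).choose j : ℂ))) := by
    intro j hj
    have h1 := (es_asymp hR hF.ne hTr hT1 hφ hu j).const_mul ((-1:ℂ) ^ (T.card + j))
    have h2 : Tendsto (fun t => (cP (T.card + j) (φ t)).eval q
        / ((∏ i ∈ T, ((w i)⁻¹) ^ (φ t)) * ((R:ℂ)⁻¹) ^ (j * φ t))
        - (-1) ^ (T.card + j) * (es N (T.card + j) (φ t) w
          / ((∏ i ∈ T, ((w i)⁻¹) ^ (φ t)) * ((R:ℂ)⁻¹) ^ (j * φ t)))) atTop (𝓝 0) := by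
      rw [tendsto_zero_iff_norm_tendsto_zero]
      refine squeeze_zero (fun t => norm_nonneg _) (fun t => ?_) (hd.comp hφ)
      have h3 := hcu q w l hq.le (hF.restr le_rfl) (fun i hi => (hw i hi).1) (φ t)
        (by have := hφ1 t; omega) (T.card + j) hj
      rw [← mul_div_assoc, ← sub_div, norm_div]
      have hne3 : (∏ i ∈ T, ((w i)⁻¹) ^ (φ t)) * ((R:ℂ)⁻¹) ^ (j * φ t) ≠ 0 :=
        mul_ne_zero (hWne _) (pow_ne_zero _ (inv_ne_zero hRc))
      rw [div_le_iff₀ (norm_pos_iff.2 hne3)]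
      refine h3.trans (le_of_eq ?_)
      have h4 : ∏ i ∈ Finset.range N, (‖w i‖⁻¹) ^ (φ t)
          = (∏ i ∈ T, (‖w i‖⁻¹) ^ (φ t)) * (R⁻¹) ^ ((N - T.card) * φ t) := by
        rw [← Finset.prod_sdiff hTr, mul_comm]
        congr 1
        rw [Finset.prod_congr rfl (g := fun _ => (R⁻¹) ^ (φ t)), Finset.prod_const,
          Finset.card_sdiff_of_subset hTr, Finset.card_range, ← pow_mul, mul_comm]
        intro i hi
        rw [Finset.mem_sdiff, Finset.mem_range] at hi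
        rw [hT2 i hi.1 hi.2]
      have h5 : N - T.card = (N - (T.card + j)) + j := by omega
      have h6 : R ^ ((N - (T.card + j)) * φ t) * (R⁻¹) ^ ((N - T.card) * φ t)
          = (R⁻¹) ^ (j * φ t) := by
        rw [h5, add_mul, pow_add, ← mul_assoc, ← mul_pow, mul_inv_cancel₀ hR.ne', one_pow, one_mul]
      rw [h4, norm_mul, norm_prod, norm_pow, norm_inv, Complex.norm_real, Real.norm_eq_abs,
        abs_of_pos hR]
      simp only [norm_pow, norm_inv, Function.comp]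
      calc _ = (∏ i ∈ T, (‖w i‖⁻¹) ^ (φ t)) *
            (R ^ ((N - (T.card + j)) * φ t) * (R⁻¹) ^ ((N - T.card) * φ t)) * d (φ t) := by ring
        _ = _ := by rw [h6]; ring
    have h3 := h2.add h1
    simpa using h3
  obtain ⟨k, hkdef⟩ : ∃ k : ℕ, k = N - T.card := ⟨_, rfl⟩
  have hk2 : 2 ≤ k := by omega
  have c0 := hcoef 0 (by omega)
  have c1 := hcoef 1 (by omega)
  have c2 := hcoef 2 (by omega)
  rw [← hkdef] at c0 c1 c2
  have hlim : Tendsto (fun t => (cP T.card (φ t)).eval q * (cP (T.card + 2) (φ t)).eval q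
      / ((cP (T.card + 1) (φ t)).eval q) ^ 2) atTop
      (𝓝 ((k.choose 2 : ℂ) / (k:ℂ) ^ 2)) := by
    have hkc : (k:ℂ) ≠ 0 := by
      have : k ≠ 0 := by omega
      exact_mod_cast this
    have h1 := (c0.mul c2).div (c1.pow 2) (by
      refine pow_ne_zero _ (mul_ne_zero (pow_ne_zero _ (by norm_num)) ?_)
      rw [Nat.choose_one_right]
      exact hkc)
    have h2 : (-1) ^ (T.card + 0) * (k.choose 0 : ℂ) * ((-1) ^ (T.card + 2) * (k.choose 2 : ℂ))
        / ((-1) ^ (T.card + 1) * (k.choose 1 : ℂ)) ^ 2 = (k.choose 2 : ℂ) / (k:ℂ) ^ 2 := by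
      rw [Nat.choose_zero_right, Nat.choose_one_right, Nat.cast_one, mul_one, mul_pow, ← pow_mul,
        ← mul_assoc, ← pow_add]
      have e1 : ((-1:ℂ)) ^ (T.card + 0 + (T.card + 2)) = 1 := by
        rw [show T.card + 0 + (T.card + 2) = 2 * (T.card + 1) by ring, pow_mul]
        norm_num
      have e2 : ((-1:ℂ)) ^ ((T.card + 1) * 2) = 1 := by
        rw [mul_comm, pow_mul]
        norm_num
      rw [e1, e2, one_mul, one_mul]
    rw [h2] at h1
    refine h1.congr fun t => ?_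
    have e3 : (R:ℂ)⁻¹ ^ (2 * φ t) = ((R:ℂ)⁻¹ ^ (1 * φ t)) ^ 2 := by
      rw [← pow_mul]; congr 1; ring
    have e4 : (R:ℂ)⁻¹ ^ (0 * φ t) = 1 := by rw [zero_mul, pow_zero]
    have e5 := hWne (φ t)
    have e6 : (R:ℂ)⁻¹ ^ (1 * φ t) ≠ 0 := pow_ne_zero _ (inv_ne_zero hRc)
    simp only [Pi.div_apply, Nat.add_zero]
    rw [e3, e4]
    generalize (∏ i ∈ T, ((w i)⁻¹) ^ (φ t)) = W at *
    generalize (R:ℂ)⁻¹ ^ (1 * φ t) = V at *
    by_cases hc : (cP (T.card + 1) (φ t)).eval q = 0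
    · rw [hc]; simp
    · field_simp
  -- the bound
  obtain ⟨r, hr0, hr1, hr⟩ := h (T.card + 3)
  obtain ⟨ρ, hρq, hρr, hρ1⟩ : ∃ ρ : ℝ, ‖q‖ < ρ ∧ r < ρ ∧ ρ < 1 :=
    ⟨(max ‖q‖ r + 1) / 2, by have := le_max_left ‖q‖ r; linarith [max_lt hq hr1],
      by have := le_max_right ‖q‖ r; linarith [max_lt hq hr1], by linarith [max_lt hq hr1]⟩
  have hρ0 : 0 < ρ := hr0.trans hρr
  have hex : ∀ q' : ℂ, ∃ z : ℕ → ℂ, q' ∈ Metric.sphere (0:ℂ) ρ →
      Frame q' (T.card + 3) z ∧ Strong q' (T.card + 3) z := by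
    intro q'
    by_cases hq' : q' ∈ Metric.sphere (0:ℂ) ρ
    · have hn := hq'
      rw [mem_sphere_zero_iff_norm] at hn
      obtain ⟨z, hz⟩ := hr q' (by rw [hn]; exact hρr.le) (by rw [hn]; exact hρ1)
      exact ⟨z, fun _ => hz⟩
    · exact ⟨fun _ => 0, fun hc => absurd hc hq'⟩
  choose z hz using hex
  obtain ⟨m0, hm0⟩ := ratio_bound hρ0 hρ1 (fun q' hq' => (hz q' hq').1) (fun q' hq' => (hz q' hq').2)
  have hlim0 : Tendsto (fun t => (cP T.card (φ t)).eval q * (cP (T.card + 2) (φ t)).eval q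
      / ((cP (T.card + 1) (φ t)).eval q) ^ 2) atTop (𝓝 0) := by
    rw [tendsto_zero_iff_norm_tendsto_zero]
    have h1 : Tendsto (fun t => 9 * (‖q‖ / ρ) ^ (φ t)) atTop (𝓝 0) := by
      have h2 := ((tendsto_pow_atTop_nhds_zero_of_lt_one (r := ‖q‖ / ρ) (by positivity)
        ((div_lt_one hρ0).2 hρq)).comp hφ).const_mul 9
      simpa using h2
    refine squeeze_zero' (Eventually.of_forall fun t => norm_nonneg _) ?_ h1
    filter_upwards [hφ.eventually_ge_atTop m0] with t ht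
    exact hm0 (φ t) ht q hρq.le hq0
  have hfin := tendsto_nhds_unique hlim hlim0
  have hkc : (k:ℂ) ≠ 0 := by
    have : k ≠ 0 := by omega
    exact_mod_cast this
  rw [div_eq_zero_iff] at hfin
  rcases hfin with hfin | hfin
  · rw [Nat.cast_eq_zero] at hfin
    have := Nat.choose_pos hk2
    omega
  · exact pow_ne_zero 2 hkc hfin

end SokC
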