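import Pool.Agent.Lib.MP_816dec_an.PFin
import Pool.Agent.Lib.MP_816dec_an.A2

/-!
MP_816dec_an: the frozen statement from the rows of (A) and the chain (B). `κ = β r`.
Every hypothesis is the exact statement of a row.
-/

set_option autoImplicit false

open Complex Set Filter Topology

namespace SokC

open Sok

/-- the covering condition `y ≥ √3/2` -/
def Cov (b : ℕ) (β r : ℝ) : Prop :=
  Real.sqrt 3 / 2 * ((b : ℝ) ^ 2 * (1 + (β * r) ^ 2)) ≤ 2 * Real.pi * r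

/-- `b = 2`, `κ ≤ 1` -/
theorem circ_two_small {β r : ℝ} (hr : 10 ≤ r) (hβ : 0 ≤ β) (hκ : β * r ≤ 1) : Circ (Real.pi + β) r := by
  have hq : Complex.exp (((Real.pi + β : ℝ) : ℂ) * I) = -Complex.exp (β * I) := by
    push_cast
    rw [add_mul, Complex.exp_add, Complex.exp_pi_mul_I]
    ring
  have hκ' : |β| * r ≤ 1 := by rwa [abs_of_nonneg hβ]
  constructor
  · intro z hz hzr
    have h := A2 hr hκ' hq (z₁ := z) (z₂ := z) hzr hzr hz hz
    have h2 := h.2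
    intro h3
    apply h2
    have h4 : deriv (F (Complex.exp (((Real.pi + β : ℝ) : ℂ) * I))) z = 0 := h3
    rw [deriv_F (by rw [Complex.norm_exp_ofReal_mul_I])] at h4
    exact h4
  · intro z w hz hw hzr hwr
    exact (A2 hr hκ' hq hzr hwr hz hw).1

theorem top {a : ℝ} {N : ℕ} {c : ℕ → ℂ} {s : ℕ → ℝ}
    (C1 : ∀ β r : ℝ, 10 ≤ r → 0 < β → Real.exp (-1) ≤ β * r → β * r ≤ 0.6 → Circ β r)
    (M1 : ∀ β r : ℝ, 10 ≤ r → 0 < β → 0.6 ≤ β * r → β * r ≤ 1.3 → Circ β r)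
    (L1 : ∀ β r : ℝ, 10 ≤ r → 0 < β → 1.3 ≤ β * r → β * r ≤ 4.7 → Cov 1 β r → Circ β r)
    (K2 : ∀ β r : ℝ, 10 ≤ r → 0 < β → 1 ≤ β * r → β * r ≤ 3 → Cov 2 β r → Circ (Real.pi + β) r)
    (Z3 : ∀ (b : ℕ) (p : ℤ) (r : ℝ), 3 ≤ b → IsCoprime (b : ℤ) p → 10 ≤ r → Cov b 0 r →
      Circ (2 * Real.pi * p / b) r)
    (R1 : ∀ (b : ℕ) (p : ℤ) (β r : ℝ), 3 ≤ b → IsCoprime (b : ℤ) p → 10 ≤ r → 0 < β →
      β * r ≤ 1.39 → Cov b β r → Circ (2 * Real.pi * p / b + β) r)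
    (R2 : ∀ (b : ℕ) (p : ℤ) (β r : ℝ), 1 ≤ b → IsCoprime (b : ℤ) p → 10 ≤ r → 0 < β →
      (if b = 1 then 4.7 else if b = 2 then 3 else 1.39) ≤ β * r → Cov b β r →
      Circ (2 * Real.pi * p / b + β) r)
    (B : Reach 10 a N c s) (ha : 10 * a < Real.exp (-1)) : ∀ q : ℂ, 0 < ‖q‖ → ‖q‖ ≤ 1 →
    (∀ z : ℂ, (∑' k : ℕ, q ^ (k * (k - 1) / 2) * z ^ k / (k.factorial : ℂ)) = 0 →
      deriv (fun w : ℂ => ∑' k : ℕ, q ^ (k * (k - 1) / 2) * w ^ k / (k.factorial : ℂ)) z ≠ 0) ∧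
    (∀ z w : ℂ, (∑' k : ℕ, q ^ (k * (k - 1) / 2) * z ^ k / (k.factorial : ℂ)) = 0 →
      (∑' k : ℕ, q ^ (k * (k - 1) / 2) * w ^ k / (k.factorial : ℂ)) = 0 →
      ‖z‖ = ‖w‖ → z = w) := by
  refine final (R0 := 10) (by norm_num) ?_ ?_ ?_ B ha
  · intro β r hr hβ h1 hcov
    have hcov' : Cov 1 β r := by
      unfold Cov
      push_cast
      linarith
    rcases le_total (β * r) 0.6 with h | h
    · exact C1 β r hr hβ h1 h
    rcases le_total (β * r) 1.3 with h' | h'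
    · exact M1 β r hr hβ h h'
    rcases le_total (β * r) 4.7 with h'' | h''
    · exact L1 β r hr hβ h' h'' hcov'
    have h2 := R2 1 0 β r le_rfl (by simp [isCoprime_zero_right]) hr hβ (by simpa using h'') hcov'
    simpa using h2
  · intro β r hr hβ hcov
    have hcov' : Cov 2 β r := by
      unfold Cov
      push_cast
      linarith
    rcases le_total (β * r) 1 with h | h
    · exact circ_two_small hr hβ h
    have hβ0 : 0 < β := by
      rcases hβ.eq_or_lt with h0 | h0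
      · rw [← h0, zero_mul] at h
        linarith
      · exact h0
    rcases le_total (β * r) 3 with h' | h'
    · exact K2 β r hr hβ0 h h' hcov'
    have h2 := R2 2 1 β r (by norm_num) (by simp [isCoprime_one_right]) hr hβ0 (by simpa using h') hcov'
    have e1 : 2 * Real.pi * ((1 : ℤ) : ℝ) / ((2 : ℕ) : ℝ) + β = Real.pi + β := by
      push_cast
      ring
    rwa [e1] at h2
  · intro b p β r hb hp hr hβ hcov
    rcases hβ.eq_or_lt with h0 | h0
    · subst h0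
      rw [add_zero]
      exact Z3 b p r hb hp hr hcov
    rcases le_total (β * r) 1.39 with h' | h'
    · exact R1 b p β r hb hp hr h0 h' hcov
    have hb1 : b ≠ 1 := by omega
    have hb2 : b ≠ 2 := by omega
    exact R2 b p β r (by omega) hp hr h0 (by simpa [hb1, hb2] using h') hcov

end SokC
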