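import Pool.Agent.Lib.MP_816dec_an.PTop
import Pool.Agent.Lib.MP_816dec_an.CornerFin
import Pool.Agent.Lib.MP_816dec_an.MFin
import Pool.Agent.Lib.MP_816dec_an.LFin
import Pool.Agent.Lib.MP_816dec_an.Beta0
import Pool.Agent.Lib.MP_816dec_an.BFinal

/-!
MP_816dec_an: the frozen statement from the rows `K2`, `R1`, `R2` that are still hypotheses; the rows
`C1`, `M1`, `L1`, `Z3` and the finite part `B` are plugged in.
-/

set_option autoImplicit false

open Complex Set Filter Topology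

namespace SokC

open Sok

theorem top2
    (K2 : ∀ β r : ℝ, 10 ≤ r → 0 < β → 1 ≤ β * r → β * r ≤ 3 → Cov 2 β r → Circ (Real.pi + β) r)
    (R1 : ∀ (b : ℕ) (p : ℤ) (β r : ℝ), 3 ≤ b → IsCoprime (b : ℤ) p → 10 ≤ r → 0 < β →
      β * r ≤ 1.39 → Cov b β r → Circ (2 * Real.pi * p / b + β) r)
    (R2 : ∀ (b : ℕ) (p : ℤ) (β r : ℝ), 1 ≤ b → IsCoprime (b : ℤ) p → 10 ≤ r → 0 < β →
      (if b = 1 then 4.7 else if b = 2 then 3 else 1.39) ≤ β * r → Cov b β r →
      Circ (2 * Real.pi * p / b + β) r) : ∀ q : ℂ, 0 < ‖q‖ → ‖q‖ ≤ 1 →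
    (∀ z : ℂ, (∑' k : ℕ, q ^ (k * (k - 1) / 2) * z ^ k / (k.factorial : ℂ)) = 0 →
      deriv (fun w : ℂ => ∑' k : ℕ, q ^ (k * (k - 1) / 2) * w ^ k / (k.factorial : ℂ)) z ≠ 0) ∧
    (∀ z w : ℂ, (∑' k : ℕ, q ^ (k * (k - 1) / 2) * z ^ k / (k.factorial : ℂ)) = 0 →
      (∑' k : ℕ, q ^ (k * (k - 1) / 2) * w ^ k / (k.factorial : ℂ)) = 0 →
      ‖z‖ = ‖w‖ → z = w) := by
  have A1 : ∀ β r : ℝ, (10 : ℝ) ≤ r → 0 < β → Real.exp (-1) ≤ β * r →
      Real.sqrt 3 / 2 * (1 + (β * r) ^ 2) ≤ 2 * Real.pi * r → Circ β r := by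
    intro β r hr hβ h1 hcov
    have hcov' : Cov 1 β r := by
      unfold Cov
      push_cast
      linarith
    rcases le_total (β * r) 0.6 with h | h
    · exact circ_C1 hr hβ h1 h
    rcases le_total (β * r) 1.3 with h' | h'
    · exact Mid.circ_M1 hr hβ h h'
    rcases le_total (β * r) 4.7 with h'' | h''
    · exact circ_LK hβ hr (by linarith) (by linarith)
    have h2 := R2 1 0 β r le_rfl (by simp [isCoprime_zero_right]) hr hβ (by simpa using h'') hcov'
    simpa using h2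
  have A2 : ∀ β r : ℝ, (10 : ℝ) ≤ r → 0 ≤ β →
      Real.sqrt 3 / 2 * (4 * (1 + (β * r) ^ 2)) ≤ 2 * Real.pi * r → Circ (Real.pi + β) r := by
    intro β r hr hβ hcov
    have hcov' : Cov 2 β r := by
      unfold Cov
      push_cast
      linarith
    rcases le_total (β * r) 1 with h | h
    · exact circ_two_small hr hβ h
    have hβ0 : 0 < β := by
      rcases hβ.eq_or_lt with h0 | h0
      · rw [← h0, zero_mul] at h
        linarith
      · exact h0
    rcases le_total (β * r) 3 with h' | h'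
    · exact K2 β r hr hβ0 h h' hcov'
    have h2 := R2 2 1 β r (by norm_num) (by simp [isCoprime_one_right]) hr hβ0 (by simpa using h') hcov'
    have e1 : 2 * Real.pi * ((1 : ℤ) : ℝ) / ((2 : ℕ) : ℝ) + β = Real.pi + β := by
      push_cast
      ring
    rwa [e1] at h2
  have A3 : ∀ (b : ℕ) (p : ℤ) (β r : ℝ), 3 ≤ b → IsCoprime (b : ℤ) p → (10 : ℝ) ≤ r → 0 ≤ β →
      Real.sqrt 3 / 2 * ((b : ℝ) ^ 2 * (1 + (β * r) ^ 2)) ≤ 2 * Real.pi * r →
      Circ (2 * Real.pi * p / b + β) r := by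
    intro b p β r hb hp hr hβ hcov
    rcases hβ.eq_or_lt with h0 | h0
    · subst h0
      rw [add_zero]
      refine circ_root_of_unity b p r hb hp hr ?_
      first
        | exact hcov
        | simpa using hcov
    rcases le_total (β * r) 1.39 with h' | h'
    · exact R1 b p β r hb hp hr h0 h' hcov
    have hb1 : b ≠ 1 := by omega
    have hb2 : b ≠ 2 := by omega
    exact R2 b p β r (by omega) hp hr h0 (by simpa [hb1, hb2] using h') hcov
  have hA : ∀ α ∈ Set.Ioc 0 Real.pi, GoodOut Fa 10 α :=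
    fun α _ => goodOut_of_pieces (by norm_num) A1 A2 A3 α
  obtain ⟨a, N, c, s, hB, ha⟩ := SokB.reach_final hA
  exact final (by norm_num) A1 A2 A3 hB ha

end SokC
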