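import Pool.Agent.Lib.MP_816dec_an.PTop2
import Pool.Agent.Lib.MP_816dec_an.B2Fin

/-!
MP_816dec_an: the frozen statement from the rows `R1`, `R2` that are still hypotheses; the row `K2`
is plugged in as well.
-/

set_option autoImplicit false

open Complex Set Filter Topology

namespace SokC

open Sok

theorem top3
    (R1 : ∀ (b : ℕ) (p : ℤ) (β r : ℝ), 3 ≤ b → IsCoprime (b : ℤ) p → 10 ≤ r → 0 < β →
      β * r ≤ 1.39 → Cov b β r → Circ (2 * Real.pi * p / b + β) r)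
    (R2 : ∀ (b : ℕ) (p : ℤ) (β r : ℝ), 1 ≤ b → IsCoprime (b : ℤ) p → 10 ≤ r → 0 < β →
      (if b = 1 then 4.7 else if b = 2 then 3 else 1.39) ≤ β * r → Cov b β r →
      Circ (2 * Real.pi * p / b + β) r) : ∀ q : ℂ, 0 < ‖q‖ → ‖q‖ ≤ 1 →
    (∀ z : ℂ, (∑' k : ℕ, q ^ (k * (k - 1) / 2) * z ^ k / (k.factorial : ℂ)) = 0 →
      deriv (fun w : ℂ => ∑' k : ℕ, q ^ (k * (k - 1) / 2) * w ^ k / (k.factorial : ℂ)) z ≠ 0) ∧
    (∀ z w : ℂ, (∑' k : ℕ, q ^ (k * (k - 1) / 2) * z ^ k / (k.factorial : ℂ)) = 0 →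
      (∑' k : ℕ, q ^ (k * (k - 1) / 2) * w ^ k / (k.factorial : ℂ)) = 0 →
      ‖z‖ = ‖w‖ → z = w) :=
  top2 (fun β r hr hβ h1 h2 _ => Sok.B2.K2row β r hr hβ h1 h2) R1 R2

end SokC
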