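import Pool.Agent.Lib.MP_816dec_an.Cover

/-!
MP_816dec_an, row R1: assembly of the cases `b = 3, …, 8` and `b ≥ 9`.
-/

set_option autoImplicit false

namespace Sok

/-- the statement of row R1 for one `b` -/
def R1At (b : ℕ) : Prop :=
  ∀ (p : ℤ) (β r : ℝ), IsCoprime (b : ℤ) p → 10 ≤ r → 0 < β → β * r ≤ 1.39 →
    Real.sqrt 3 / 2 * ((b : ℝ) ^ 2 * (1 + (β * r) ^ 2)) ≤ 2 * Real.pi * r →
    Circ (2 * Real.pi * p / b + β) r

theorem R1_all (h3 : R1At 3) (h4 : R1At 4) (h5 : R1At 5) (h6 : R1At 6) (h7 : R1At 7) (h8 : R1At 8)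
    (h9 : ∀ b, 9 ≤ b → R1At b) :
    ∀ (b : ℕ) (p : ℤ) (β r : ℝ), 3 ≤ b → IsCoprime (b : ℤ) p → 10 ≤ r → 0 < β →
      β * r ≤ 1.39 → Real.sqrt 3 / 2 * ((b : ℝ) ^ 2 * (1 + (β * r) ^ 2)) ≤ 2 * Real.pi * r → Circ (2 * Real.pi * p / b + β) r := by
  intro b p β r hb hp hr hβ hκ hc
  rcases Nat.lt_or_ge b 9 with h | h
  · interval_cases b
    · exact h3 p β r hp hr hβ hκ hc
    · exact h4 p β r hp hr hβ hκ hc
    · exact h5 p β r hp hr hβ hκ hc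
    · exact h6 p β r hp hr hβ hκ hc
    · exact h7 p β r hp hr hβ hκ hc
    · exact h8 p β r hp hr hβ hκ hc
  · exact h9 b h p β r hp hr hβ hκ hc

/-- the case `b ≥ 9` from `circ_big` -/
theorem R1At_big
    (H : ∀ {p : ℤ} {b : ℕ} {β r : ℝ}, 9 ≤ b → IsCoprime (b : ℤ) p → 0 < r → 0 < β → β * r ≤ 1.39 →
      Real.sqrt 3 / 2 * ((b : ℝ) ^ 2 * (1 + (β * r) ^ 2)) ≤ 2 * Real.pi * r → Circ (2 * Real.pi * p / b + β) r) :
    ∀ b, 9 ≤ b → R1At b := by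
  intro b hb p β r hp hr hβ hκ hc
  exact H hb hp (by linarith) hβ hκ hc

end Sok
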