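import Pool.Agent.Lib.MP_816dec_an.Valley
import Pool.Agent.Lib.MP_816dec_an.Cover

/-!
MP_816dec_an (A3, row R1): from the two-term hypotheses for the `b` copies to `Circ`.
-/

set_option autoImplicit false

open Complex Set Filter Topology Metric

namespace Sok

/-- the `b` copies -/
noncomputable def XX (β : ℝ) (b : ℕ) (k : ℤ) (w : ℂ) : ℂ := GW β (w + 2 * Real.pi * k / b * I)

/-- the indices other than `0, 1` of the window `a0, …, a0 + b - 1` -/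
noncomputable def far (a0 : ℤ) (b : ℕ) : Finset ℤ := (Finset.Ico a0 (a0 + b)).filter fun k => k ≠ 0 ∧ k ≠ 1

theorem mem_far {a0 : ℤ} {b : ℕ} {k : ℤ} : k ∈ far a0 b ↔ (a0 ≤ k ∧ k < a0 + b) ∧ k ≠ 0 ∧ k ≠ 1 := by
  unfold far
  rw [Finset.mem_filter, Finset.mem_Ico]

theorem sum_far {a0 : ℤ} {b : ℕ} (h0 : a0 ≤ 0) (h1 : 1 < a0 + b) (g : ℤ → ℂ) :
    ∑ k ∈ Finset.Ico a0 (a0 + b), g k = g 0 + g 1 + ∑ k ∈ far a0 b, g k := by
  have h2 : (Finset.Ico a0 (a0 + b)) = insert 0 (insert 1 (far a0 b)) := by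
    ext k
    rw [Finset.mem_insert, Finset.mem_insert, mem_far, Finset.mem_Ico]
    omega
  have h3 : (1 : ℤ) ∉ far a0 b := by rw [mem_far]; omega
  have h4 : (0 : ℤ) ∉ insert 1 (far a0 b) := by rw [Finset.mem_insert, mem_far]; omega
  rw [h2, Finset.sum_insert h4, Finset.sum_insert h3, add_assoc]

theorem q_eq (p : ℤ) (b : ℕ) (β : ℝ) :
    Complex.exp (((2 * Real.pi * p / b + β : ℝ) : ℂ) * I) = ee (p / b) * Complex.exp (β * I) := by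
  unfold ee
  rw [← Complex.exp_add]
  congr 1
  push_cast
  ring

theorem circ_of_XX {p : ℤ} {b : ℕ} (hb : 0 < b) (hp : IsCoprime (b : ℤ) p) {β r : ℝ} (hr : 0 < r)
    {a0 : ℤ} (h0 : a0 ≤ 0) (h1 : 1 < a0 + b) {θ0 u v ρ a m η : ℝ} {M : ℤ → ℝ} (huv : u < v)
    (H : TwoTerm (XX β b) (far a0 b) (Real.log r) u v ρ a m M)
    (hη : 1 < a * (1 - η))
    (hdom : ∀ w ∈ vseg (Real.log r) θ0 (θ0 + 2 * Real.pi / b), (XX β b 0 w ≠ 0 ∨ XX β b 1 w ≠ 0) ∧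
      ∑ k ∈ far a0 b, ‖XX β b k w‖ ≤ η * max ‖XX β b 0 w‖ ‖XX β b 1 w‖)
    (hloc : ∀ w ∈ vseg (Real.log r) θ0 (θ0 + 2 * Real.pi / b), XX β b 0 w ≠ 0 → XX β b 1 w ≠ 0 →
      ‖XX β b 1 w / XX β b 0 w‖ ≤ a → a⁻¹ ≤ ‖XX β b 1 w / XX β b 0 w‖ → w ∈ vseg (Real.log r) u v) :
    Circ (2 * Real.pi * p / b + β) r := by
  obtain ⟨p', hp'⟩ : ∃ p' : ℤ, (b : ℤ) ∣ p * p' - 1 := by
    obtain ⟨x, y, hxy⟩ := hp
    exact ⟨y, -x, by linarith⟩
  have hF : ∀ w j, F (Complex.exp (((2 * Real.pi * p / b + β : ℝ) : ℂ) * I)) (pt p b w j) =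
      cc p b 0 * tot p p' b (XX β b) (far a0 b) w j := by
    intro w j
    rw [q_eq, F_valley hb hp' β w j a0, sum_far h0 h1]
    unfold tot
    rw [add_zero]
    rfl
  have h2 := valley_unique hb hp' (q := Complex.exp (((2 * Real.pi * p / b + β : ℝ) : ℂ) * I))
    (c := cc p b 0) (Complex.norm_exp_ofReal_mul_I _).le (cc_zero_ne hb hp') hF huv H hη hdom hloc
  rw [Real.exp_log hr] at h2
  exact ⟨fun z hz hzr => h2.1 z hzr hz, fun z w hz hw hzr hwr => h2.2 z w hzr hwr hz hw⟩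

end Sok
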