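import Pool.Agent.Lib.MP_816dec_an.R1BigDefs

/-!
MP_816dec_an (A3, row R1, `b ≥ 9`), ROW SUMS.
-/

set_option autoImplicit false

namespace Sok

theorem Mfar_nonneg (k : ℤ) : 0 ≤ Mfar k := by
  unfold Mfar
  split_ifs <;> positivity

theorem MM_nonneg (k : ℤ) : 0 ≤ MM k := by
  unfold MM
  split_ifs
  · norm_num
  · norm_num
  · exact Mfar_nonneg k

theorem Mfar_tail_pos (n : ℕ) : Mfar ((n : ℤ) + 6) = 1 / 2000 * (1 / 4) ^ (n + 1) := by
  unfold Mfar
  have e : ((n : ℤ) + 6).natAbs - 5 = n + 1 := by omega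
  rw [if_neg (by omega), if_neg (by omega), if_neg (by omega), if_neg (by omega), if_neg (by omega),
    if_neg (by omega), e]

theorem Mfar_tail_neg (n : ℕ) : Mfar (-(n : ℤ) - 5) = 1 / 2000 * (1 / 4) ^ n := by
  unfold Mfar
  have e : (-(n : ℤ) - 5).natAbs - 5 = n := by omega
  rw [if_neg (by omega), if_neg (by omega), if_neg (by omega), if_neg (by omega), if_neg (by omega),
    if_neg (by omega), e]

theorem MM_tail_pos (n : ℕ) : MM ((n : ℤ) + 6) = 1 / 2000 * (1 / 4) ^ (n + 1) := by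
  unfold MM
  rw [if_neg (by omega), if_neg (by omega), Mfar_tail_pos]

theorem MM_tail_neg (n : ℕ) : MM (-(n : ℤ) - 5) = 1 / 2000 * (1 / 4) ^ n := by
  unfold MM
  rw [if_neg (by omega), if_neg (by omega), Mfar_tail_neg]

theorem MM_vals : MM 2 = 7 / 100 ∧ MM (-1) = 7 / 250 ∧ MM 3 = 1 / 100 ∧ MM 4 = 3 / 1000 ∧ MM 5 = 11 / 2000 ∧
    MM (-2) = 1 / 500 ∧ MM (-3) = 3 / 500 ∧ MM (-4) = 1 / 500 := by
  unfold MM Mfar
  norm_num

theorem Mfar_vals : Mfar 3 = 1 / 100 ∧ Mfar 4 = 3 / 1000 ∧ Mfar 5 = 11 / 2000 ∧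
    Mfar (-2) = 1 / 500 ∧ Mfar (-3) = 3 / 500 ∧ Mfar (-4) = 1 / 500 := by
  unfold Mfar
  norm_num

theorem tail_lin (c : ℝ) (hc : 0 ≤ c) (N : ℕ) :
    ∑ n ∈ Finset.range N, ((n : ℝ) + c) * (23 / 80) ^ n ≤ (c + 23 / 57) * (80 / 57) := by
  have key : ∑ n ∈ Finset.range N, ((n : ℝ) + c) * (23 / 80) ^ n =
      (c + 23 / 57) * (80 / 57) - (80 / 57 * N + (c + 23 / 57) * (80 / 57)) * (23 / 80) ^ N := by
    induction N with
    | zero => simp
    | succ N ih =>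
      rw [Finset.sum_range_succ, ih, pow_succ]
      push_cast
      ring
  rw [key]
  have : 0 ≤ (80 / 57 * (N : ℝ) + (c + 23 / 57) * (80 / 57)) * (23 / 80) ^ N := by positivity
  linarith

theorem tail_geo (x : ℝ) (h0 : 0 ≤ x) (h1 : x < 1) (N : ℕ) :
    ∑ n ∈ Finset.range N, x ^ n ≤ 1 / (1 - x) := by
  have h2 : 0 < 1 - x := by linarith
  have h3 := geom_sum_mul x N
  rw [le_div_iff₀ h2]
  have h4 : 0 ≤ x ^ N := by positivity
  linarith

theorem far_sum_le {b : ℕ} (f : ℤ → ℝ) (hf : ∀ k, 0 ≤ f k) {A B : ℝ}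
    (h1 : ∀ N : ℕ, ∑ n ∈ Finset.range N, f ((n : ℤ) + 6) ≤ A)
    (h2 : ∀ N : ℕ, ∑ n ∈ Finset.range N, f (-(n : ℤ) - 5) ≤ B) :
    ∑ k ∈ far (aw b) b, f k ≤
      f 2 + f (-1) + f 3 + f 4 + f 5 + f (-2) + f (-3) + f (-4) + A + B := by
  obtain ⟨S0, hS0⟩ : ∃ S0 : Finset ℤ, S0 = {2, -1, 3, 4, 5, -2, -3, -4} := ⟨_, rfl⟩
  obtain ⟨S1, hS1⟩ : ∃ S1 : Finset ℤ, S1 = (Finset.range b).image (fun n : ℕ => (n : ℤ) + 6) := ⟨_, rfl⟩
  obtain ⟨S2, hS2⟩ : ∃ S2 : Finset ℤ, S2 = (Finset.range b).image (fun n : ℕ => -(n : ℤ) - 5) := ⟨_, rfl⟩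
  have hun : ∀ s t : Finset ℤ, ∑ k ∈ s ∪ t, f k ≤ ∑ k ∈ s, f k + ∑ k ∈ t, f k := by
    intro s t
    have := Finset.sum_union_inter (s₁ := s) (s₂ := t) (f := f)
    have h3 : 0 ≤ ∑ k ∈ s ∩ t, f k := Finset.sum_nonneg fun k _ => hf k
    linarith
  have hsub : far (aw b) b ⊆ (S0 ∪ S1) ∪ S2 := by
    intro k hk
    rw [mem_far] at hk
    unfold aw at hk
    obtain ⟨⟨ha, hb⟩, hk0, hk1⟩ := hk
    rw [Finset.mem_union, Finset.mem_union]
    by_cases h6 : 6 ≤ k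
    · left; right
      rw [hS1, Finset.mem_image]
      refine ⟨(k - 6).toNat, ?_, by omega⟩
      rw [Finset.mem_range]
      omega
    by_cases h5 : k ≤ -5
    · right
      rw [hS2, Finset.mem_image]
      refine ⟨(-5 - k).toNat, ?_, by omega⟩
      rw [Finset.mem_range]
      omega
    · left; left
      rw [hS0]
      simp only [Finset.mem_insert, Finset.mem_singleton]
      omega
  refine (Finset.sum_le_sum_of_subset_of_nonneg hsub fun k _ _ => hf k).trans ?_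
  refine (hun _ _).trans ?_
  have e1 : ∑ k ∈ S1, f k ≤ A := by
    rw [hS1, Finset.sum_image (by intro a _ b _ h; simpa using h)]
    exact h1 b
  have e2 : ∑ k ∈ S2, f k ≤ B := by
    rw [hS2, Finset.sum_image (by intro a _ b _ h; simpa using h)]
    exact h2 b
  have e0 : ∑ k ∈ S0, f k = f 2 + f (-1) + f 3 + f 4 + f 5 + f (-2) + f (-3) + f (-4) := by
    rw [hS0]
    rw [Finset.sum_insert (by decide), Finset.sum_insert (by decide), Finset.sum_insert (by decide),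
      Finset.sum_insert (by decide), Finset.sum_insert (by decide), Finset.sum_insert (by decide),
      Finset.sum_insert (by decide), Finset.sum_singleton]
    ring
  have := hun S0 S1
  linarith

theorem sums1 {b : ℕ} (_hb : 9 ≤ b) :
    ∑ k ∈ far (aw b) b, (k.natAbs : ℝ) * MM k * (23 / 20) ^ (k.natAbs + 1) ≤ 0.47 := by
  have h := far_sum_le (b := b) (f := fun k => (k.natAbs : ℝ) * MM k * (23 / 20) ^ (k.natAbs + 1))
    (fun k => by have := MM_nonneg k; positivity)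
    (A := 1 / 8000 * (23 / 20) ^ 7 * ((6 + 23 / 57) * (80 / 57)))
    (B := 1 / 2000 * (23 / 20) ^ 6 * ((5 + 23 / 57) * (80 / 57))) ?_ ?_
  · obtain ⟨m1, m2, m3, m4, m5, m6, m7, m8⟩ := MM_vals
    refine h.trans ?_
    simp only [m1, m2, m3, m4, m5, m6, m7, m8]
    norm_num
  · intro N
    have e : ∀ n ∈ Finset.range N, (((n : ℤ) + 6).natAbs : ℝ) * MM ((n : ℤ) + 6) *
        (23 / 20) ^ (((n : ℤ) + 6).natAbs + 1) = 1 / 8000 * (23 / 20) ^ 7 * (((n : ℝ) + 6) * (23 / 80) ^ n) := by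
      intro n _
      have e1 : ((n : ℤ) + 6).natAbs = n + 6 := by omega
      rw [MM_tail_pos, e1]
      have e2 : (23 / 80 : ℝ) ^ n = (1 / 4) ^ n * (23 / 20) ^ n := by rw [← mul_pow]; norm_num
      rw [e2]
      push_cast
      ring
    rw [Finset.sum_congr rfl e, ← Finset.mul_sum]
    exact mul_le_mul_of_nonneg_left (tail_lin 6 (by norm_num) N) (by positivity)
  · intro N
    have e : ∀ n ∈ Finset.range N, ((-(n : ℤ) - 5).natAbs : ℝ) * MM (-(n : ℤ) - 5) *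
        (23 / 20) ^ ((-(n : ℤ) - 5).natAbs + 1) = 1 / 2000 * (23 / 20) ^ 6 * (((n : ℝ) + 5) * (23 / 80) ^ n) := by
      intro n _
      have e1 : (-(n : ℤ) - 5).natAbs = n + 5 := by omega
      rw [MM_tail_neg, e1]
      have e2 : (23 / 80 : ℝ) ^ n = (1 / 4) ^ n * (23 / 20) ^ n := by rw [← mul_pow]; norm_num
      rw [e2]
      push_cast
      ring
    rw [Finset.sum_congr rfl e, ← Finset.mul_sum]
    exact mul_le_mul_of_nonneg_left (tail_lin 5 (by norm_num) N) (by positivity)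

theorem sums2 {b : ℕ} (_hb : 9 ≤ b) :
    23 / 20 * (∑ k ∈ far (aw b) b, MM k * (23 / 20) ^ k.natAbs) ≤ 0.2026 := by
  have h := far_sum_le (b := b) (f := fun k => MM k * (23 / 20) ^ k.natAbs)
    (fun k => by have := MM_nonneg k; positivity)
    (A := 1 / 8000 * (23 / 20) ^ 6 * (1 / (1 - 23 / 80)))
    (B := 1 / 2000 * (23 / 20) ^ 5 * (1 / (1 - 23 / 80))) ?_ ?_
  · obtain ⟨m1, m2, m3, m4, m5, m6, m7, m8⟩ := MM_vals
    have h2 := mul_le_mul_of_nonneg_left h (by norm_num : (0 : ℝ) ≤ 23 / 20)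
    refine h2.trans ?_
    simp only [m1, m2, m3, m4, m5, m6, m7, m8]
    norm_num
  · intro N
    have e : ∀ n ∈ Finset.range N, MM ((n : ℤ) + 6) *
        (23 / 20) ^ (((n : ℤ) + 6).natAbs) = 1 / 8000 * (23 / 20) ^ 6 * ((23 / 80) ^ n) := by
      intro n _
      have e1 : ((n : ℤ) + 6).natAbs = n + 6 := by omega
      rw [MM_tail_pos, e1]
      have e2 : (23 / 80 : ℝ) ^ n = (1 / 4) ^ n * (23 / 20) ^ n := by rw [← mul_pow]; norm_num
      rw [e2]
      ring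
    rw [Finset.sum_congr rfl e, ← Finset.mul_sum]
    exact mul_le_mul_of_nonneg_left (tail_geo _ (by norm_num) (by norm_num) N) (by positivity)
  · intro N
    have e : ∀ n ∈ Finset.range N, MM (-(n : ℤ) - 5) *
        (23 / 20) ^ ((-(n : ℤ) - 5).natAbs) = 1 / 2000 * (23 / 20) ^ 5 * ((23 / 80) ^ n) := by
      intro n _
      have e1 : (-(n : ℤ) - 5).natAbs = n + 5 := by omega
      rw [MM_tail_neg, e1]
      have e2 : (23 / 80 : ℝ) ^ n = (1 / 4) ^ n * (23 / 20) ^ n := by rw [← mul_pow]; norm_num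
      rw [e2]
      ring
    rw [Finset.sum_congr rfl e, ← Finset.mul_sum]
    exact mul_le_mul_of_nonneg_left (tail_geo _ (by norm_num) (by norm_num) N) (by positivity)

theorem sums3 {b : ℕ} (_hb : 9 ≤ b) :
    ∑ k ∈ (far (aw b) b).filter (fun k => k ≠ 2 ∧ k ≠ -1), Mfar k ≤ 0.032 := by
  rw [Finset.sum_filter]
  have h := far_sum_le (b := b) (f := fun k => if k ≠ 2 ∧ k ≠ -1 then Mfar k else 0)
    (fun k => by
      have := Mfar_nonneg k
      split_ifs <;> linarith)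
    (A := 1 / 8000 * (1 / (1 - 1 / 4)))
    (B := 1 / 2000 * (1 / (1 - 1 / 4))) ?_ ?_
  · obtain ⟨m3, m4, m5, m6, m7, m8⟩ := Mfar_vals
    refine h.trans ?_
    norm_num [m3, m4, m5, m6, m7, m8]
  · intro N
    have e : ∀ n ∈ Finset.range N, (if ((n : ℤ) + 6) ≠ 2 ∧ ((n : ℤ) + 6) ≠ -1 then Mfar ((n : ℤ) + 6) else 0) =
        1 / 8000 * ((1 / 4) ^ n) := by
      intro n _
      rw [if_pos (by omega), Mfar_tail_pos]
      ring
    rw [Finset.sum_congr rfl e, ← Finset.mul_sum]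
    exact mul_le_mul_of_nonneg_left (tail_geo _ (by norm_num) (by norm_num) N) (by positivity)
  · intro N
    have e : ∀ n ∈ Finset.range N, (if (-(n : ℤ) - 5) ≠ 2 ∧ (-(n : ℤ) - 5) ≠ -1 then Mfar (-(n : ℤ) - 5) else 0) =
        1 / 2000 * ((1 / 4) ^ n) := by
      intro n _
      rw [if_pos (by omega), Mfar_tail_neg]
    rw [Finset.sum_congr rfl e, ← Finset.mul_sum]
    exact mul_le_mul_of_nonneg_left (tail_geo _ (by norm_num) (by norm_num) N) (by positivity)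

end Sok
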