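import Pool.Agent.Lib.MP_816dec_an.R1BFarOL
import Pool.Agent.Lib.MP_816dec_an.R1Sums

/-!
MP_816dec_an (A3, row R1, `b ≥ 9`): the far copies on the outer segment, statement `farKD` of the skeleton.
-/

set_option autoImplicit false

open Complex Set Filter Topology Metric

namespace Sok

/-- ROW FARK -/
theorem farKD {b : ℕ} {h κ R t β G0 G1 : ℝ} (H : OP b h κ R t) (hκ : 0.29 ≤ κ) (hβ : β = κ / R)
    (h0 : 0.95 * sQ β κ (t - h) ≤ G0) (h1 : 0.95 * sQ β κ t ≤ G1)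
    {k : ℤ} (hk : k ∈ far (aw b) b) (hk2 : k ≠ 2) (hk1 : k ≠ -1) :
    ‖Xf β R h t k‖ ≤ 1 / 3 * Mfar k * max G0 G1 := by
  unfold far at hk
  rw [Finset.mem_filter, Finset.mem_Ico] at hk
  obtain ⟨⟨h3, h4⟩, h5, h6⟩ := hk
  rcases lt_or_ge k 0 with h7 | h7
  · exact farKD_left' H hκ hβ h0 h1 (by omega) h3
  · exact farKD_right' H hκ hβ h0 h1 (by omega) (by omega)

end Sok
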