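import Pool.Agent.Lib.MP_816dec_an.R1BG
import Pool.Agent.Lib.MP_816dec_an.JMm1

/-!
MP_816dec_an (A3, row R1, `b ≥ 9`), row J2: the copies `2` and `-1`.
-/

set_option autoImplicit false

open Complex Set Filter Topology Metric

namespace Sok

namespace RJ

open RG

/-- tangent of `arctan` -/
theorem arctan_mvt {a b : ℝ} (hb : 0 ≤ b) (hab : b ≤ a) : (a - b) / (1 + a ^ 2) ≤ Real.arctan a - Real.arctan b := by
  have h : MonotoneOn (fun s : ℝ => Real.arctan s - s / (1 + a ^ 2)) (Icc 0 a) := by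
    have hd : Differentiable ℝ (fun s : ℝ => Real.arctan s - s / (1 + a ^ 2)) :=
      Real.differentiable_arctan.sub (differentiable_id.div_const _)
    apply monotoneOn_of_deriv_nonneg (convex_Icc 0 a)
    · exact hd.continuous.continuousOn
    · exact hd.differentiableOn
    · intro y hy
      rw [interior_Icc] at hy
      have h1 : HasDerivAt (fun s : ℝ => Real.arctan s - s / (1 + a ^ 2)) (1 / (1 + y ^ 2) - 1 / (1 + a ^ 2)) y :=
        (Real.hasDerivAt_arctan y).sub ((hasDerivAt_id' y).div_const _)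
      rw [h1.deriv, sub_nonneg]
      apply one_div_le_one_div_of_le (by positivity)
      have := pow_le_pow_left₀ hy.1.le hy.2.le 2
      linarith
  have h1 := h ⟨hb, hab⟩ ⟨hb.trans hab, le_rfl⟩ hab
  simp only at h1
  have e : (a - b) / (1 + a ^ 2) = a / (1 + a ^ 2) - b / (1 + a ^ 2) := by ring
  rw [e]
  linarith

theorem arctan_ge_num {θ v : ℝ} (h0 : 0 ≤ θ) (h1 : θ ≤ 1.5) (_hv : 0 ≤ v)
    (h : θ - θ ^ 3 / 6 + θ ^ 5 / 120 ≤ v * (1 - θ ^ 2 / 2 + θ ^ 4 / 24 - θ ^ 6 / 720)) : θ ≤ Real.arctan v := by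
  have hpi := Real.pi_gt_d2
  have hc : 0 < Real.cos θ := Real.cos_pos_of_mem_Ioo ⟨by linarith, by linarith⟩
  have h2 := r1_sin_le5 h0
  have h3 := r1_cos_ge6 h0
  have h4 : Real.tan θ ≤ v := by
    rw [Real.tan_eq_sin_div_cos, div_le_iff₀ hc]
    have := mul_le_mul_of_nonneg_left h3 _hv
    linarith
  have h5 := Real.arctan_mono h4
  rwa [Real.arctan_tan (by linarith) (by linarith)] at h5

/-- lower bound of `τ` on a corner `x ≤ X0`, `y ≥ Y0` -/
theorem tau_ge {κ t : ℝ} (h : DomR κ t) (X0 Y0 N0 θ0 E0 : ℝ) (hx : sx κ t ≤ X0) (hy : Y0 ≤ sy κ t)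
    (hX0 : 0 < X0) (hY0 : 0 < Y0) (hN0 : 0 < N0) (hN : X0 ^ 2 + Y0 ^ 2 ≤ N0 ^ 2) (hθ : θ0 ≤ Real.arctan (Y0 / X0))
    (hE0 : 0 ≤ E0) (hE : E0 ≤ Real.exp Y0)
    (hsl : E0 * X0 / N0 ≤ 1 + Y0 / (X0 ^ 2 + Y0 ^ 2)) :
    θ0 - X0 + E0 * (X0 ^ 2 + Y0 ^ 2) / N0 ≤ t + κ := by
  have hk := h.1
  have hxp := sx_pos h
  have h1 := s_arctan h
  have h2 := s_norm h
  obtain ⟨x, hx'⟩ : ∃ x, x = sx κ t := ⟨_, rfl⟩
  obtain ⟨y, hy'⟩ : ∃ y, y = sy κ t := ⟨_, rfl⟩
  rw [← hx'] at hx hxp h1 h2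
  rw [← hy'] at hy h1 h2
  have hy0 : 0 < y := lt_of_lt_of_le hY0 hy
  -- the angle
  have ha : θ0 + (X0 - x) * (Y0 / (X0 ^ 2 + Y0 ^ 2)) ≤ Real.arctan (y / x) := by
    have g1 : Real.arctan (Y0 / x) ≤ Real.arctan (y / x) :=
      Real.arctan_mono (div_le_div_of_nonneg_right hy hxp.le)
    have g2 : Real.arctan (Y0 / x) = Real.pi / 2 - Real.arctan (x / Y0) := by
      rw [← Real.arctan_inv_of_pos (by positivity), inv_div]
    have g3 : Real.arctan (Y0 / X0) = Real.pi / 2 - Real.arctan (X0 / Y0) := by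
      rw [← Real.arctan_inv_of_pos (by positivity), inv_div]
    have g4 := arctan_mvt (a := X0 / Y0) (b := x / Y0) (by positivity) (div_le_div_of_nonneg_right hx hY0.le)
    have e : (X0 / Y0 - x / Y0) / (1 + (X0 / Y0) ^ 2) = (X0 - x) * (Y0 / (X0 ^ 2 + Y0 ^ 2)) := by
      field_simp
      ring
    rw [e] at g4
    linarith
  -- `κ`
  have hn : (x * X0 + Y0 ^ 2) / N0 ≤ Real.sqrt (x ^ 2 + y ^ 2) := by
    apply Real.le_sqrt_of_sq_le
    rw [div_pow, div_le_iff₀ (by positivity)]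
    have g1 : (x * X0 + Y0 ^ 2) ^ 2 ≤ (x * X0 + y * Y0) ^ 2 := by
      apply pow_le_pow_left₀ (by positivity)
      nlinarith
    have g2 : (x * X0 + y * Y0) ^ 2 ≤ (x ^ 2 + y ^ 2) * (X0 ^ 2 + Y0 ^ 2) := by
      nlinarith [sq_nonneg (x * Y0 - y * X0)]
    have g3 : (x ^ 2 + y ^ 2) * (X0 ^ 2 + Y0 ^ 2) ≤ (x ^ 2 + y ^ 2) * N0 ^ 2 :=
      mul_le_mul_of_nonneg_left hN (by positivity)
    linarith
  have hκ : κ = Real.sqrt (x ^ 2 + y ^ 2) * Real.exp y := by
    rw [h2, hy', mul_assoc, ← Real.exp_add]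
    simp
  have hκ2 : E0 * ((x * X0 + Y0 ^ 2) / N0) ≤ κ := by
    rw [hκ, mul_comm E0]
    have g1 : E0 ≤ Real.exp y := hE.trans (Real.exp_le_exp.2 hy)
    exact mul_le_mul hn g1 hE0 (Real.sqrt_nonneg _)
  have e1 : E0 * ((x * X0 + Y0 ^ 2) / N0) = E0 * (X0 ^ 2 + Y0 ^ 2) / N0 - (X0 - x) * (E0 * X0 / N0) := by
    field_simp
    ring
  rw [e1] at hκ2
  have h5 := mul_le_mul_of_nonneg_left hsl (sub_nonneg.2 hx)
  linarith

theorem e39 : Real.exp 0.39 ≤ 1.4770 := by
  have h := Real.exp_bound' (x := 0.39) (by norm_num) (by norm_num) (n := 7) (by norm_num)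
  refine h.trans ?_
  norm_num [Finset.sum_range_succ, Nat.factorial]

theorem em39 : Real.exp (-0.39) ≤ 0.6771 :=
  exp_neg_num (x := 0.39) (y := 0.6771) (by norm_num) (by norm_num)
theorem em43 : Real.exp (-0.43) ≤ 0.6506 :=
  exp_neg_num (x := 0.43) (y := 0.6506) (by norm_num) (by norm_num)
theorem em46 : Real.exp (-0.46) ≤ 0.6313 :=
  exp_neg_num (x := 0.46) (y := 0.6313) (by norm_num) (by norm_num)
theorem em50 : Real.exp (-0.5) ≤ 0.6066 :=
  exp_neg_num (x := 0.5) (y := 0.6066) (by norm_num) (by norm_num)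
theorem em53 : Real.exp (-0.53) ≤ 0.5887 :=
  exp_neg_num (x := 0.53) (y := 0.5887) (by norm_num) (by norm_num)

theorem exp_ge5 {x : ℝ} (hx : 0 ≤ x) : 1 + x + x ^ 2 / 2 + x ^ 3 / 6 + x ^ 4 / 24 ≤ Real.exp x := by
  have := Real.sum_le_exp_of_nonneg hx 5
  simp only [Finset.sum_range_succ, Finset.sum_range_zero, Nat.factorial] at this
  norm_num at this
  linarith

/-- the right hand side up to `τ = 1.4174` -/
theorem J_right {κ t β : ℝ} (h : DomR κ t) (hβ : 0 < β) (hR : β * (10.4 * (1 + κ ^ 2)) ≤ κ)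
    (hk1 : κ ≤ 1.5) (hy0 : 0 ≤ sy κ t) (hτ : t + κ ≤ 1.4174)
    (hn : 0.36 < ‖((sx κ t : ℂ) + (sy κ t : ℂ) * I)‖) :
    ‖HH β (sg κ t) - 1‖ ≤ 0.03 := by
  have hx := sx_pos h
  have hκ := sg_kappa h
  have hk := h.1
  unfold sg
  have hn2 : 0.1296 - sy κ t ^ 2 ≤ sx κ t ^ 2 := by
    have h1 := s_norm h
    have h2 := sg_norm h
    rw [← h1] at h2
    rw [h2] at hn
    have h3 := Real.sq_sqrt (x := sx κ t ^ 2 + sy κ t ^ 2) (by positivity)
    nlinarith
  rcases le_or_gt (sy κ t) 0.26 with h1 | h1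
  · have h8 : sy κ t ^ 2 ≤ 0.0676 := by nlinarith
    have h9 : (0.16 : ℝ) ^ 2 ≤ sx κ t ^ 2 := by linarith
    exact JP2_a hβ hx hκ hk hR (ge_of_sq hx h9) (x_le (u0 := 0.12) h hk1 (by linarith) e12
      (by norm_num)) (by linarith) h1
  rcases le_or_gt (sy κ t) 0.32 with h2 | h2
  · have h8 : sy κ t ^ 2 ≤ 0.1024 := by nlinarith
    have h9 : (0.16 : ℝ) ^ 2 ≤ sx κ t ^ 2 := by linarith
    exact JP2_b hβ hx hκ hk hR (ge_of_sq hx h9) (x_le (u0 := -0.26) h hk1 (by linarith) em26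
      (by norm_num)) h1.le h2
  rcases le_or_gt (sy κ t) 0.39 with h3 | h3
  · have hx1 : 0.16 ≤ sx κ t := by
      by_contra hcon
      push Not at hcon
      have h5 := exp_ge5 (x := 0.32) (by norm_num)
      have h6 := tau_ge h 0.16 0.32 0.3578 1.105 1.377 hcon.le h2.le (by norm_num) (by norm_num) (by norm_num)
        (by norm_num) (arctan_ge_num (by norm_num) (by norm_num) (by norm_num) (by norm_num)) (by norm_num)
        (by linarith) (by norm_num)
      norm_num at h6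
      linarith
    exact JP2_c hβ hx hκ hk hR hx1 (x_le (u0 := -0.32) h hk1 (by linarith) em32 (by norm_num)) h2.le h3
  rcases le_or_gt (sy κ t) 0.43 with h4 | h4
  · have hx1 : 0.25 ≤ sx κ t := by
      by_contra hcon
      push Not at hcon
      have h5 := exp_ge5 (x := 0.39) (by norm_num)
      have h6 := tau_ge h 0.25 0.39 0.4633 0.999 1.4767 hcon.le h3.le (by norm_num) (by norm_num) (by norm_num)
        (by norm_num) (arctan_ge_num (by norm_num) (by norm_num) (by norm_num) (by norm_num)) (by norm_num)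
        (by linarith) (by norm_num)
      norm_num at h6
      linarith
    exact JP2_d hβ hx hκ hk hR hx1 (x_le (u0 := -0.39) h hk1 (by linarith) em39 (by norm_num)) h3.le h4
  rcases le_or_gt (sy κ t) 0.46 with h5 | h5
  · have hx1 : 0.32 ≤ sx κ t := by
      by_contra hcon
      push Not at hcon
      have h5 := exp_ge5 (x := 0.43) (by norm_num)
      have h6 := tau_ge h 0.32 0.43 0.5361 0.93 1.537 hcon.le h4.le (by norm_num) (by norm_num) (by norm_num)
        (by norm_num) (arctan_ge_num (by norm_num) (by norm_num) (by norm_num) (by norm_num)) (by norm_num)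
        (by linarith) (by norm_num)
      norm_num at h6
      linarith
    exact JP2_e hβ hx hκ hk hR hx1 (x_le (u0 := -0.43) h hk1 (by linarith) em43 (by norm_num)) h4.le h5
  rcases le_or_gt (sy κ t) 0.5 with h6 | h6
  · have hx1 : 0.385 ≤ sx κ t := by
      by_contra hcon
      push Not at hcon
      have h5 := exp_ge5 (x := 0.46) (by norm_num)
      have h6 := tau_ge h 0.385 0.46 0.5999 0.873 1.5838 hcon.le (by linarith) (by norm_num) (by norm_num) (by norm_num)
        (by norm_num) (arctan_ge_num (by norm_num) (by norm_num) (by norm_num) (by norm_num)) (by norm_num)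
        (by linarith) (by norm_num)
      norm_num at h6
      linarith
    exact JP2_f hβ hx hκ hk hR hx1 (x_le (u0 := -0.46) h hk1 (by linarith) em46 (by norm_num)) h5.le h6
  rcases le_or_gt (sy κ t) 0.53 with h7 | h7
  · have hx1 : 0.52 ≤ sx κ t := by
      by_contra hcon
      push Not at hcon
      have h5 := exp_ge5 (x := 0.5) (by norm_num)
      have h6 := tau_ge h 0.52 0.5 0.7214 0.765 1.6483 hcon.le h6.le (by norm_num) (by norm_num) (by norm_num)
        (by norm_num) (arctan_ge_num (by norm_num) (by norm_num) (by norm_num) (by norm_num)) (by norm_num)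
        (by linarith) (by norm_num)
      norm_num at h6
      linarith
    exact JP2_g hβ hx hκ hk hR hx1 (x_le (u0 := -0.5) h hk1 (by linarith) em50 (by norm_num)) h6.le h7
  · exfalso
    have hx1 : sx κ t ≤ 0.7064 := by
      have g1 := s_sq h
      have g2 : Real.exp (-2 * sy κ t) ≤ 0.5887 ^ 2 := by
        have e : Real.exp (-2 * sy κ t) = Real.exp (-sy κ t) ^ 2 := by
          rw [← Real.exp_nat_mul]; congr 1; push_cast; ring
        rw [e]
        apply pow_le_pow_left₀ (Real.exp_pos _).le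
        exact (Real.exp_le_exp.2 (by linarith)).trans em53
      have g3 : κ ^ 2 ≤ 1.5 ^ 2 := pow_le_pow_left₀ hk.le hk1 2
      have g4 : κ ^ 2 * Real.exp (-2 * sy κ t) ≤ 1.5 ^ 2 * 0.5887 ^ 2 :=
        mul_le_mul g3 g2 (Real.exp_pos _).le (by norm_num)
      nlinarith
    have h5 := exp_ge5 (x := 0.53) (by norm_num)
    have h6 := tau_ge h 0.7064 0.53 0.8832 0.6425 1.6983 hx1 h7.le (by norm_num) (by norm_num) (by norm_num)
      (by norm_num) (arctan_ge_num (by norm_num) (by norm_num) (by norm_num) (by norm_num)) (by norm_num)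
      (by linarith) (by norm_num)
    norm_num at h6
    linarith

/-- `|σ| ≤ 0.36` -/
theorem J_n36 {κ t β : ℝ} (h : DomR κ t) (hβ : 0 < β) (hR : β * (10.4 * (1 + κ ^ 2)) ≤ κ)
    (hn : ‖((sx κ t : ℂ) + (sy κ t : ℂ) * I)‖ ≤ 0.36) :
    ‖HH β (sg κ t) - 1‖ ≤ 0.034 := by
  have hκ := sg_kappa h
  have hy36 : sy κ t ≤ 0.36 := by
    have h1 := Complex.abs_im_le_norm ((sx κ t : ℂ) + (sy κ t : ℂ) * I)
    simp at h1
    have := le_abs_self (sy κ t)
    linarith
  have hκ2 : κ ≤ 0.52 := by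
    rw [hκ]
    have h1 : Real.exp (sy κ t) ≤ 1.4334 := (Real.exp_le_exp.2 hy36).trans e36
    have h2 := mul_le_mul hn h1 (Real.exp_pos _).le (by norm_num)
    linarith
  have hβ1 : β ≤ 1 / 25 := beta_le hβ hR (by norm_num) h.1 hκ2 (by norm_num) (by norm_num) (by norm_num)
  have := J45_36b hβ hβ1 hn
  unfold sg
  linarith

/-- the right hand side up to `τ = 1.2495` -/
theorem J_right' {κ t β : ℝ} (h : DomR κ t) (hβ : 0 < β) (hR : β * (10.4 * (1 + κ ^ 2)) ≤ κ)
    (hk1 : κ ≤ 1.5) (hy0 : 0 ≤ sy κ t) (hτ : t + κ ≤ 1.2495) :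
    ‖HH β (sg κ t) - 1‖ ≤ 0.03 := by
  rcases le_or_gt ‖((sx κ t : ℂ) + (sy κ t : ℂ) * I)‖ 0.36 with hn | hn
  · rcases le_or_gt κ 0.43 with hκ1 | hκ1
    · have hβ1 : β ≤ 0.035 := beta_le hβ hR (by norm_num) h.1 hκ1 (by norm_num) (by norm_num) (by norm_num)
      have := J45_36b hβ (by linarith) hn
      unfold sg
      linarith
    · have hx := sx_pos h
      have hκ := sg_kappa h
      have hk := h.1
      have hsn := sg_norm h
      have hs2 := s_norm h
      rw [← hs2] at hsn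
      have h3 := Real.sq_sqrt (x := sx κ t ^ 2 + sy κ t ^ 2) (by positivity)
      rw [← hsn] at h3
      obtain ⟨n, hn'⟩ : ∃ n, n = ‖((sx κ t : ℂ) + (sy κ t : ℂ) * I)‖ := ⟨_, rfl⟩
      rw [← hn'] at hn hκ h3
      have hn0 : 0 ≤ n := by rw [hn']; exact norm_nonneg _
      have hyn : sy κ t ≤ n := by nlinarith [sq_nonneg (sx κ t)]
      have hn3 : 0.3 ≤ n := by
        by_contra hcon
        push Not at hcon
        have h1 : Real.exp (sy κ t) ≤ 1.4334 := (Real.exp_le_exp.2 (by linarith)).trans e36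
        have h2 : Real.exp (sy κ t) ≤ 1.3884 := by
          have h5 : Real.exp (sy κ t) ≤ Real.exp 0.325 := Real.exp_le_exp.2 (by linarith)
          linarith [e325]
        nlinarith
      unfold sg
      have hx1 : 0.16 ≤ sx κ t := by
        by_contra hcon
        push Not at hcon
        have hy1 : 0.253 ≤ sy κ t := by nlinarith
        have h5 := s_arctan h
        have h6 : Real.arctan (0.253 / 0.16) ≤ Real.arctan (sy κ t / sx κ t) := by
          apply Real.arctan_mono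
          rw [div_le_div_iff₀ (by norm_num) hx]
          nlinarith
        have h7 : (1.005 : ℝ) ≤ Real.arctan (0.253 / 0.16) :=
          arctan_ge_num (by norm_num) (by norm_num) (by norm_num) (by norm_num)
        linarith
      have hxu : sx κ t ≤ 0.36 := by nlinarith [sq_nonneg (sy κ t)]
      rcases le_or_gt (sy κ t) 0.26 with h1 | h1
      · exact JP2_a hβ hx (by rw [← hn']; exact hκ) hk hR hx1 (by linarith) (by linarith) h1
      rcases le_or_gt (sy κ t) 0.32 with h2 | h2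
      · exact JP2_b hβ hx (by rw [← hn']; exact hκ) hk hR hx1 (by linarith) h1.le h2
      · exact JP2_c hβ hx (by rw [← hn']; exact hκ) hk hR hx1 (by linarith) h2.le (by linarith)
  · exact J_right h hβ hR hk1 hy0 (by linarith) hn

end RJ

open RG RJ

/-- ROW J2: the copy `2` on the discs -/
theorem DP.J2 {b : ℕ} {h κ R t β : ℝ} (H : DP b h κ R t) (hβ : β = κ / R) :
    ‖HH β (sg κ (t + h)) - 1‖ ≤ 0.03 := by
  obtain ⟨s, hs, -, -, h1, h2⟩ := H.exists_s
  obtain ⟨-, -, d2⟩ := H.dom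
  have hp := H.hpos
  have hh := h_le9 H.hb H.hh
  have hk := H.k0
  have hR0 : 0 < R := lt_of_lt_of_le (by norm_num) H.R1
  have hβ0 : 0 < β := by rw [hβ]; positivity
  have hR := beta_R hk hR0 hβ (DP_R H)
  have hsh : (1 + s) * h ≤ 1.7895 * 0.6982 := mul_le_mul (by linarith) hh hp.le (by norm_num)
  have hsh0 : 0 < s * h := mul_pos (by linarith) hp
  exact J_right' d2 hβ0 hR H.k1 (sy_nonneg d2 (by linarith)) (by linarith)

/-- ROW J2: the copy `2` on the outer segment -/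
theorem OP.J2 {b : ℕ} {h κ R t β : ℝ} (H : OP b h κ R t) (hβ : β = κ / R) :
    ‖HH β (sg κ (t + h)) - 1‖ ≤ 0.04 := by
  have hp := h_pos H.hb H.hh
  have hh := h_le9 H.hb H.hh
  have hk := H.k0
  have hlo := H.lo
  have hhi := H.hi
  have hR0 : 0 < R := lt_of_lt_of_le (by norm_num) H.R1
  have hβ0 : 0 < β := by rw [hβ]; positivity
  have hR := beta_R hk hR0 hβ (OP_R H)
  have hR' : β * (10.4 * (1 + κ ^ 2)) ≤ κ := by
    have : 0 ≤ β * (1 + κ ^ 2) := by positivity
    linarith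
  have hpi := Real.pi_gt_d2
  have d2 : DomR κ (t + h) := by
    refine ⟨hk, by linarith, ?_⟩
    right
    rcases le_or_gt κ 1.39 with _ | _
    · linarith [H.k1]
    · linarith [H.k1]
  have hy0 := sy_nonneg d2 (by linarith)
  rcases le_or_gt ‖((sx κ (t + h) : ℂ) + (sy κ (t + h) : ℂ) * I)‖ 0.36 with hn | hn
  · exact (J_n36 d2 hβ0 hR' hn).trans (by norm_num)
  · exact (J_right d2 hβ0 hR' (by linarith [H.k1]) hy0 (by linarith) hn).trans (by norm_num)

/-- ROW J2: the copy `-1` on the outer segment -/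
theorem OP.Jm1 {b : ℕ} {h κ R t β : ℝ} (H : OP b h κ R t) (hκ : 0.29 ≤ κ) (hβ : β = κ / R)
    (hlo : 0.85 * h < t + κ) : ‖HH β (sg κ (t - 2 * h)) - 1‖ ≤ 0.1 := by
  have hp := h_pos H.hb H.hh
  have hh := h_le9 H.hb H.hh
  have hk := H.k0
  have hhi := H.hi
  have hR0 : 0 < R := lt_of_lt_of_le (by norm_num) H.R1
  have hβ0 : 0 < β := by rw [hβ]; positivity
  have hR := beta_R hk hR0 hβ (OP_R H)
  have hR' : β * (10.4 * (1 + κ ^ 2)) ≤ κ := by
    have : 0 ≤ β * (1 + κ ^ 2) := by positivity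
    linarith
  have hR1 : β * 11.1 ≤ κ := by
    have : 0 ≤ β * κ ^ 2 := by positivity
    linarith
  have hpi := Real.pi_gt_d2
  have d : DomR κ (t - 2 * h) := by
    refine ⟨hk, by linarith, ?_⟩
    rcases le_or_gt κ 0.38 with h3 | h3
    · right; linarith
    · left
      have := Real.exp_neg_one_lt_d9
      linarith
  have hτ0 : -0.803 ≤ t - 2 * h + κ := by linarith
  have hτ1 : t - 2 * h + κ ≤ 0 := by linarith
  rcases le_or_gt (-0.677) (t - 2 * h + κ) with h1 | h1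
  · rcases le_or_gt (-0.325) (sy κ (t - 2 * h)) with h3 | h3
    · exact (J_mid d hβ0 hR' hκ (by linarith [H.k1]) h3 (by linarith)).trans (by norm_num)
    · exact (J_low d hβ0 hR hκ H.k1 (y_ge_42 d (by linarith)) h3.le).trans (by norm_num)
  · exact JM1 d hβ0 hκ H.k1 hτ0 h1.le hR1 hR

end Sok
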