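import Pool.Agent.Lib.MP_816dec_an.R1Ineq5

/-!
MP_816dec_an (Sokal's function), row R1: lower thresholds for `y` on the left, uniform in `κ`.
-/

set_option autoImplicit false

open Set Filter Topology Real

namespace Sok

/-- `|τ| ≤ τm` on the left implies `-η ≤ y`, for every `κ > 0` -/
theorem y_ge_gen {κ t : ℝ} (h : DomR κ t) (η c0 E τm : ℝ) (h0 : 0 < η) (h1 : η < 1) (hE : η * exp (-η) ≤ E)
    (hc0 : 0 < c0) (_hτ0 : 0 ≤ τm)
    (hdisc : τm ^ 2 ≤ 4 * (1 / 2 + (1 - η) / (2 * c0)) * (1 - E - (1 - η) * (1 + c0 ^ 2) / (2 * c0)))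
    (hτ : -τm ≤ t + κ) : -η ≤ sy κ t := by
  have hk := h.1
  obtain ⟨E0, hE0⟩ : ∃ E0, E0 = η * exp (-η) := ⟨_, rfl⟩
  rw [← hE0] at hE
  have hE0p : 0 < E0 := by rw [hE0]; positivity
  rcases le_or_gt κ E0 with hκ | hκ
  · -- then `y > -η` always
    by_contra hcon
    push Not at hcon
    obtain ⟨hI1, hI2⟩ := (sy_spec h).1
    have hy0 : sy κ t < 0 := by linarith
    rw [abs_of_neg hy0] at hI1
    have hy1 : -1 < sy κ t := by
      rcases hI2 with h3 | h3
      · have h4 := mul_exp_neg_le η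
        rw [← hE0] at h4
        linarith
      · exact h3
    have h5 := mul_exp_neg_lt (s := η) (s' := -sy κ t) h0.le (by linarith) (by linarith)
    rw [neg_neg, ← hE0] at h5
    linarith
  · have e0 : κ * (-η / κ) = -η := by field_simp
    obtain ⟨q, hq⟩ : ∃ q, q = E0 / κ := ⟨_, rfl⟩
    have hq0 : 0 < q := by rw [hq]; positivity
    have hq1 : q < 1 := by rw [hq, div_lt_one hk]; exact hκ
    have eq1 : -η / κ * exp (-η) = -q := by rw [hq, hE0]; ring
    have hb : -η / κ ≤ sp κ t := by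
      apply sp_ge_of h
      · rw [e0, abs_div, abs_neg, abs_of_pos h0, abs_of_pos hk]
        calc η / κ * exp (-η) = q := by rw [hq, hE0]; ring
          _ < 1 := hq1
      · right
        rw [e0]
        linarith
      · rw [e0, neg_neg, eq1, arcsin_neg, neg_sq]
        obtain ⟨b, hbd⟩ : ∃ b, b = arcsin q := ⟨_, rfl⟩
        have hs : sin b = q := by rw [hbd]; exact sin_arcsin (by linarith) hq1.le
        have hc : cos b = sqrt (1 - q ^ 2) := by rw [hbd]; exact cos_arcsin q
        rw [← hbd, ← hc]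
        have hb2 : |b| ≤ π / 2 := by
          rw [hbd, abs_le]
          exact ⟨neg_pi_div_two_le_arcsin q, arcsin_le_pi_div_two q⟩
        have h2 := r1_cos_ge hb2
        rw [hs] at h2
        have hC0 : 0 ≤ cos b := by rw [hc]; exact sqrt_nonneg _
        have hCS : cos b ^ 2 = 1 - q ^ 2 := by rw [hc, sq_sqrt (by nlinarith)]
        -- b q + η C - τm q - E0 ≥ 0
        have h3 : 0 ≤ b * q + η * cos b - τm * q - E0 := by
          have h4 : (1 - η) * cos b ≤ (1 - η) * (1 - q ^ 2 + c0 ^ 2) / (2 * c0) := by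
            rw [le_div_iff₀ (by positivity)]
            have : 2 * c0 * cos b ≤ cos b ^ 2 + c0 ^ 2 := by nlinarith [sq_nonneg (cos b - c0)]
            have := mul_le_mul_of_nonneg_left this (by linarith : 0 ≤ 1 - η)
            rw [hCS] at this
            linarith
          obtain ⟨α, hα⟩ : ∃ α, α = 1 / 2 + (1 - η) / (2 * c0) := ⟨_, rfl⟩
          obtain ⟨γ, hγ⟩ : ∃ γ, γ = 1 - E - (1 - η) * (1 + c0 ^ 2) / (2 * c0) := ⟨_, rfl⟩
          rw [← hα, ← hγ] at hdisc
          have hα0 : 0 < α := by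
            rw [hα]
            have : 0 ≤ (1 - η) / (2 * c0) := div_nonneg (by linarith) (by positivity)
            linarith
          have h5 : 0 ≤ α * q ^ 2 - τm * q + γ := by
            have : 0 ≤ 4 * α * (α * q ^ 2 - τm * q + γ) := by
              nlinarith [sq_nonneg (2 * α * q - τm)]
            exact nonneg_of_mul_nonneg_right this (by positivity)
          have e4 : (1 - η) * (1 - q ^ 2 + c0 ^ 2) / (2 * c0) =
              (1 - η) * (1 + c0 ^ 2) / (2 * c0) - (1 - η) / (2 * c0) * q ^ 2 := by ring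
          rw [e4] at h4
          have e5 : α * q ^ 2 = q ^ 2 / 2 + (1 - η) / (2 * c0) * q ^ 2 := by rw [hα]; ring
          linarith
        have h6 : q * κ = E0 := by rw [hq]; field_simp
        have h7 : E0 * exp η = η := by
          rw [hE0, mul_assoc, ← exp_add, neg_add_cancel, exp_zero, mul_one]
        -- multiply by q
        have h8 : 0 ≤ q * (b + κ * exp η * cos b - κ - τm) := by
          have e : q * (b + κ * exp η * cos b - κ - τm) =
              b * q + (q * κ) * exp η * cos b - q * κ - τm * q := by ring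
          rw [e, h6, h7]
          linarith
        have h9 := nonneg_of_mul_nonneg_right h8 hq0
        linarith
    rw [sy_eq_sp h]
    have := mul_le_mul_of_nonneg_left hb hk.le
    rw [e0] at this
    exact this

theorem exp_neg_num {x y : ℝ} (hx : 0 ≤ x) (hy : 1 ≤ y * (1 + x + x ^ 2 / 2 + x ^ 3 / 6 + x ^ 4 / 24 + x ^ 5 / 120)) :
    exp (-x) ≤ y := by
  have h := Real.sum_le_exp_of_nonneg hx 6
  simp [Finset.sum_range_succ, Nat.factorial] at h
  have hS : 0 < 1 + x + x ^ 2 / 2 + x ^ 3 / 6 + x ^ 4 / 24 + x ^ 5 / 120 := by positivity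
  rw [exp_neg]
  have hy0 : 0 < y := by
    by_contra hcon
    push Not at hcon
    nlinarith
  rw [inv_le_comm₀ (exp_pos x) hy0]
  refine le_trans ?_ h
  rw [inv_le_iff_one_le_mul₀ hy0]
  linarith

theorem y_ge_20 {κ t : ℝ} (h : DomR κ t) (hτ : -0.362 ≤ t + κ) : -0.2 ≤ sy κ t := by
  have hE := exp_neg_num (x := 0.2) (y := 0.81874) (by norm_num) (by norm_num)
  exact y_ge_gen h 0.2 0.98 0.16375 0.362 (by norm_num) (by norm_num) (by linarith) (by norm_num) (by norm_num)
    (by norm_num) hτ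

theorem y_ge_30 {κ t : ℝ} (h : DomR κ t) (hτ : -0.516 ≤ t + κ) : -0.3 ≤ sy κ t := by
  have hE := exp_neg_num (x := 0.3) (y := 0.74082) (by norm_num) (by norm_num)
  exact y_ge_gen h 0.3 0.95 0.22225 0.516 (by norm_num) (by norm_num) (by linarith) (by norm_num) (by norm_num)
    (by norm_num) hτ

theorem y_ge_40 {κ t : ℝ} (h : DomR κ t) (hτ : -0.654 ≤ t + κ) : -0.4 ≤ sy κ t := by
  have hE := exp_neg_num (x := 0.4) (y := 0.67033) (by norm_num) (by norm_num)
  exact y_ge_gen h 0.4 0.92 0.26814 0.654 (by norm_num) (by norm_num) (by linarith) (by norm_num) (by norm_num)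
    (by norm_num) hτ

theorem y_ge_50 {κ t : ℝ} (h : DomR κ t) (hτ : -0.777 ≤ t + κ) : -0.5 ≤ sy κ t := by
  have hE := exp_neg_num (x := 0.5) (y := 0.60655) (by norm_num) (by norm_num)
  exact y_ge_gen h 0.5 0.87 0.30328 0.777 (by norm_num) (by norm_num) (by linarith) (by norm_num) (by norm_num)
    (by norm_num) hτ

theorem y_ge_60 {κ t : ℝ} (h : DomR κ t) (hτ : -0.884 ≤ t + κ) : -0.6 ≤ sy κ t := by
  have hE := exp_neg_num (x := 0.6) (y := 0.54884) (by norm_num) (by norm_num)
  exact y_ge_gen h 0.6 0.81 0.32931 0.884 (by norm_num) (by norm_num) (by linarith) (by norm_num) (by norm_num)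
    (by norm_num) hτ

theorem y_ge_71 {κ t : ℝ} (h : DomR κ t) (hτ : -0.983 ≤ t + κ) : -0.71 ≤ sy κ t := by
  have hE := exp_neg_num (x := 0.71) (y := 0.4918) (by norm_num) (by norm_num)
  exact y_ge_gen h 0.71 0.71 0.34918 0.983 (by norm_num) (by norm_num) (by linarith) (by norm_num) (by norm_num)
    (by norm_num) hτ

end Sok
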