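import Pool.Agent.Lib.MP_816dec_an.R1Near
import Pool.Agent.Lib.MP_816dec_an.R1Ineq6

/-!
MP_816dec_an (A3, row R1, `b ≥ 9`): ROW LOC, the transition between the two main copies on the outer
segment takes place for `0.42 ≤ τ₁ / h ≤ 0.6`.
-/

set_option autoImplicit false

open Complex Set Filter Topology Metric

namespace Sok

private theorem locB_dom {b : ℕ} {h κ R t : ℝ} (H : OP b h κ R t) : DomR κ (t - h) ∧ DomR κ t := by
  have hp := h_pos H.hb H.hh
  have hh := h_le9 H.hb H.hh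
  have hk := H.k0
  have hpi := Real.pi_gt_d2
  have hlo := H.lo
  have hhi := H.hi
  have he : Real.exp (-1) < κ ∨ κ ≤ 0.38 := by
    rcases le_or_gt κ 0.38 with h3 | h3
    · exact Or.inr h3
    · left
      have := Real.exp_neg_one_lt_d9
      linarith
  refine ⟨⟨hk, by linarith, ?_⟩, ⟨hk, by linarith, ?_⟩⟩
  · rcases he with h3 | h3
    · exact Or.inl h3
    · right; linarith
  · rcases he with h3 | h3
    · exact Or.inl h3
    · right; linarith

/-- comparison of fourth roots -/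
private theorem locB_root {D D' c : ℝ} (hc : 0 ≤ c) (h : c ^ 4 * D ≤ D') :
    c * Real.sqrt (Real.sqrt D) ≤ Real.sqrt (Real.sqrt D') := by
  have e : c * Real.sqrt (Real.sqrt D) = Real.sqrt (Real.sqrt (c ^ 4 * D)) := by
    have e1 : Real.sqrt (c ^ 4 * D) = c ^ 2 * Real.sqrt D := by
      rw [Real.sqrt_mul (by positivity)]
      congr 1
      rw [show c ^ 4 = (c ^ 2) ^ 2 by ring, Real.sqrt_sq (by positivity)]
    rw [e1, Real.sqrt_mul (by positivity), Real.sqrt_sq hc]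
  rw [e]
  exact Real.sqrt_le_sqrt (Real.sqrt_le_sqrt h)

/-- abstract comparison: `t'` wins against `t` -/
private theorem locB_cmp {β κ t t' R x m c a a' : ℝ} (hR : κ / β = R) (hd : DomR κ t) (hd' : DomR κ t')
    (hx : x ≤ R * (sE κ t' - sE κ t)) (hm : m ≤ Real.exp x) (_hm0 : 0 < m) (hc : 0 < c)
    (hD : c ^ 4 * sD κ t' ≤ sD κ t) (_ha : 0 ≤ a) (_ha' : 0 < a') (hnum : a < a' * (m * c)) :
    a * sQ β κ t < a' * sQ β κ t' := by
  have hD0 : 0 < sD κ t := by
    unfold sD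
    have := sx_pos hd
    positivity
  have hD0' : 0 < sD κ t' := by
    unfold sD
    have := sx_pos hd'
    positivity
  have h1 := locB_root hc.le hD
  obtain ⟨q, hq⟩ : ∃ q, q = Real.sqrt (Real.sqrt (sD κ t)) := ⟨_, rfl⟩
  obtain ⟨q', hq'⟩ : ∃ q', q' = Real.sqrt (Real.sqrt (sD κ t')) := ⟨_, rfl⟩
  have hq0 : 0 < q := by rw [hq]; exact Real.sqrt_pos.2 (Real.sqrt_pos.2 hD0)
  have hq0' : 0 < q' := by rw [hq']; exact Real.sqrt_pos.2 (Real.sqrt_pos.2 hD0')
  unfold sQ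
  rw [← hq, ← hq'] at h1 ⊢
  rw [hR]
  have hE : m * Real.exp (R * sE κ t) ≤ Real.exp (R * sE κ t') := by
    have e : Real.exp (R * sE κ t') = Real.exp (R * (sE κ t' - sE κ t)) * Real.exp (R * sE κ t) := by
      rw [← Real.exp_add]; congr 1; ring
    rw [e]
    apply mul_le_mul_of_nonneg_right _ (Real.exp_pos _).le
    exact hm.trans (Real.exp_le_exp.2 hx)
  have hEp : 0 < Real.exp (R * sE κ t) := Real.exp_pos _
  rw [← mul_div_assoc, ← mul_div_assoc, div_lt_div_iff₀ hq0 hq0']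
  calc a * Real.exp (R * sE κ t) * q' < a' * (m * c) * Real.exp (R * sE κ t) * q' := by
        apply mul_lt_mul_of_pos_right _ hq0'
        exact mul_lt_mul_of_pos_right hnum hEp
    _ = a' * (m * Real.exp (R * sE κ t)) * (c * q') := by ring
    _ ≤ a' * Real.exp (R * sE κ t') * q := by
        apply mul_le_mul _ h1 (by positivity) (by positivity)
        exact mul_le_mul_of_nonneg_left hE _ha'.le

/-- `κ (1 - κ²) ≤ (1 + κ²)² / 4` -/
private theorem locB_quarter (κ : ℝ) : κ * (1 - κ ^ 2) ≤ 1 / 4 * (1 + κ ^ 2) ^ 2 := by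
  nlinarith [sq_nonneg (κ ^ 2 + 2 * κ - 1)]

/-- upper bound of the discriminant on the right, `κ ≤ 1` -/
private theorem locB_D1 {κ t τ : ℝ} (h : DomR κ t) (ht : 0 ≤ t + κ) (htm : t + κ ≤ τ) (hk1 : κ ≤ 1) :
    sD κ t ≤ (1 + τ / 2 + τ ^ 2 / 4) * (1 + κ ^ 2) := by
  have hk := h.1
  have hA : 0 < 1 + κ ^ 2 := by positivity
  have hτ0 : 0 ≤ τ := ht.trans htm
  have h1 := DR_le h rfl ht hk1
  unfold sD
  refine h1.trans ?_
  obtain ⟨s, hs⟩ : ∃ s, s = (t + κ) / (1 + κ ^ 2) := ⟨_, rfl⟩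
  rw [← hs]
  have hs0 : 0 ≤ s := by rw [hs]; positivity
  have hsA : s * (1 + κ ^ 2) ≤ τ := by
    rw [hs]; field_simp; exact htm
  have h2 : κ * (1 - κ ^ 2) ≤ 1 / 4 * (1 + κ ^ 2) ^ 2 := locB_quarter κ
  have h3 : 2 * (κ * s) * (1 - κ ^ 2) ≤ τ / 2 * (1 + κ ^ 2) := by
    have h4 := mul_le_mul_of_nonneg_left h2 hs0
    have h5 : s * (1 / 4 * (1 + κ ^ 2) ^ 2) = 1 / 4 * (s * (1 + κ ^ 2)) * (1 + κ ^ 2) := by ring
    have h6 : 1 / 4 * (s * (1 + κ ^ 2)) * (1 + κ ^ 2) ≤ 1 / 4 * τ * (1 + κ ^ 2) := by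
      apply mul_le_mul_of_nonneg_right _ hA.le
      linarith
    nlinarith
  have hκ2 : κ ^ 2 ≤ 1 := by nlinarith
  have hsτ : (s * (1 + κ ^ 2)) ^ 2 ≤ τ ^ 2 := pow_le_pow_left₀ (by positivity) hsA 2
  have h7 : 2 * κ ^ 2 * (κ * s) ^ 2 ≤ τ ^ 2 / 4 * (1 + κ ^ 2) := by
    have h8 : 8 * κ ^ 4 ≤ (1 + κ ^ 2) ^ 3 := by
      have e : (1 + κ ^ 2) ^ 3 - 8 * κ ^ 4 = (1 - κ ^ 2) * (1 + 4 * κ ^ 2 - κ ^ 4) := by ring
      have : 0 ≤ (1 - κ ^ 2) * (1 + 4 * κ ^ 2 - κ ^ 4) := by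
        apply mul_nonneg (by linarith)
        nlinarith [sq_nonneg (κ ^ 2)]
      linarith
    have h9 : 2 * κ ^ 2 * (κ * s) ^ 2 * 4 = 8 * κ ^ 4 * s ^ 2 := by ring
    have h10 : 8 * κ ^ 4 * s ^ 2 ≤ (1 + κ ^ 2) ^ 3 * s ^ 2 := mul_le_mul_of_nonneg_right h8 (sq_nonneg s)
    have h11 : (1 + κ ^ 2) ^ 3 * s ^ 2 = (s * (1 + κ ^ 2)) ^ 2 * (1 + κ ^ 2) := by ring
    have h12 := mul_le_mul_of_nonneg_right hsτ hA.le
    linarith
  linarith

/-- case `t + κ < 0.42 h` -/
private theorem locB_left {b : ℕ} {h κ R t β : ℝ} (H : OP b h κ R t) (hβ : β = κ / R)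
    (hs' : t + κ < 0.42 * h) : 1.2075 * sQ β κ (t - h) < 0.966 * sQ β κ t := by
  obtain ⟨hd0, hd1⟩ := locB_dom H
  have hp := h_pos H.hb H.hh
  have hh := h_le9 H.hb H.hh
  have hk := H.k0
  have hk1 := H.k1
  have hR0 : 0 < R := by linarith [H.R1]
  have hRβ : κ / β = R := by rw [hβ]; field_simp
  have hA : 0 < 1 + κ ^ 2 := by positivity
  have hT : 5.44 ≤ R * h ^ 2 / (1 + κ ^ 2) := by rw [le_div_iff₀ hA]; exact H.T1
  obtain ⟨s, hs⟩ : ∃ s, s = (t + κ) / h := ⟨_, rfl⟩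
  have hsh : t + κ = s * h := by rw [hs]; field_simp
  have hs1 : 0.03 ≤ s := by rw [hs, le_div_iff₀ hp]; exact H.lo
  have hs2 : s < 0.42 := by rw [hs, div_lt_iff₀ hp]; exact hs'
  have hsh0 : 0 ≤ s * h := by positivity
  have hsh1 : s * h ≤ 0.42 * 0.6982 := mul_le_mul hs2.le hh hp.le (by norm_num)
  have e0 : t - h + κ = -((1 - s) * h) := by linarith
  have h1s : 0 ≤ (1 - s) * h := mul_nonneg (by linarith) hp.le
  have hlow : 1 - 1 / 2 * (s * h) ^ 2 / (1 + κ ^ 2) ≤ sE κ t := by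
    have h1 := low_quad hd1 (by nlinarith) (by linarith) t
    rw [hsh] at h1
    have e : 1 / 2 * (s * h) ^ 2 / (1 + κ ^ 2) = (s * h) ^ 2 / (2 * (1 + κ ^ 2)) := by
      field_simp
    rw [e]
    simpa using h1
  -- the exponent
  have hexp : ∀ c x : ℝ, sE κ (t - h) ≤ 1 - c * (t - h + κ) ^ 2 / (1 + κ ^ 2) →
      0 ≤ c * (1 - s) ^ 2 - 1 / 2 * s ^ 2 → x ≤ 5.44 * (c * (1 - s) ^ 2 - 1 / 2 * s ^ 2) →
      x ≤ R * (sE κ t - sE κ (t - h)) := by
    intro c x h1 h2 h3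
    rw [e0] at h1
    have h4 : (c * (1 - s) ^ 2 - 1 / 2 * s ^ 2) * (h ^ 2 / (1 + κ ^ 2)) ≤ sE κ t - sE κ (t - h) := by
      have a1 : c * (-((1 - s) * h)) ^ 2 / (1 + κ ^ 2) = c * (1 - s) ^ 2 * (h ^ 2 / (1 + κ ^ 2)) := by ring
      have a2 : 1 / 2 * (s * h) ^ 2 / (1 + κ ^ 2) = 1 / 2 * s ^ 2 * (h ^ 2 / (1 + κ ^ 2)) := by ring
      rw [a1] at h1
      rw [a2] at hlow
      linarith
    have h5 := mul_le_mul_of_nonneg_left h4 hR0.le
    have h6 := mul_le_mul_of_nonneg_right hT h2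
    have e : R * ((c * (1 - s) ^ 2 - 1 / 2 * s ^ 2) * (h ^ 2 / (1 + κ ^ 2))) =
      R * h ^ 2 / (1 + κ ^ 2) * (c * (1 - s) ^ 2 - 1 / 2 * s ^ 2) := by ring
    linarith
  rcases le_total 1 κ with hκ1 | hκ1
  · -- `κ ≥ 1`
    have hD : 0.87 ^ 4 * sD κ t ≤ sD κ (t - h) := by
      have h1 : 1 + κ ^ 2 ≤ sD κ (t - h) := DL_ge' hd0 (by linarith) hκ1
      have h2 := DR_le' hd1 rfl (by linarith) hκ1 (by nlinarith)
      have h3 : 2 * κ ^ 2 * (κ * ((t + κ) / (1 + κ ^ 2))) ^ 2 ≤ 0.2 := by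
        have h4 : κ * (κ * ((t + κ) / (1 + κ ^ 2))) ≤ 0.3 := by
          have e : κ * (κ * ((t + κ) / (1 + κ ^ 2))) = κ ^ 2 * (t + κ) / (1 + κ ^ 2) := by ring
          rw [e, div_le_iff₀ hA]
          have : κ ^ 2 * (t + κ) ≤ κ ^ 2 * 0.3 := mul_le_mul_of_nonneg_left (by linarith) (sq_nonneg _)
          linarith
        have h5 : 0 ≤ κ * (κ * ((t + κ) / (1 + κ ^ 2))) := by
          have : 0 ≤ t + κ := by linarith
          positivity
        have h6 := pow_le_pow_left₀ h5 h4 2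
        have e : 2 * κ ^ 2 * (κ * ((t + κ) / (1 + κ ^ 2))) ^ 2 = 2 * (κ * (κ * ((t + κ) / (1 + κ ^ 2)))) ^ 2 := by ring
        rw [e]
        linarith
      have h7 : sD κ t ≤ 1 + κ ^ 2 + 0.2 := by
        unfold sD
        linarith
      nlinarith
    rcases le_total s 0.15 with c1 | c1
    · have hV : sE κ (t - h) ≤ 1 - 0.4565 * (t - h + κ) ^ 2 / (1 + κ ^ 2) := by
        refine VL_00_08 hd0 (by linarith) (by linarith) ?_
        have : (1 - s) * h ≤ 0.97 * 0.6982 := mul_le_mul (by linarith) hh hp.le (by norm_num)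
        linarith
      refine locB_cmp (x := 0.372) (m := 1.449) (c := 0.87) hRβ hd0 hd1 (hexp _ _ hV ?_ ?_) ?_ (by norm_num)
        (by norm_num) hD (by norm_num) (by norm_num) (by norm_num)
      · nlinarith
      · nlinarith
      · have := r1_exp_ge3 0.372
        norm_num at this ⊢
        linarith
    · have hV : sE κ (t - h) ≤ 1 - 0.466 * (t - h + κ) ^ 2 / (1 + κ ^ 2) := by
        refine VL_00_06 hd0 (by linarith) (by linarith) ?_
        have : (1 - s) * h ≤ 0.85 * 0.6982 := mul_le_mul (by linarith) hh hp.le (by norm_num)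
        linarith
      refine locB_cmp (x := 0.372) (m := 1.449) (c := 0.87) hRβ hd0 hd1 (hexp _ _ hV ?_ ?_) ?_ (by norm_num)
        (by norm_num) hD (by norm_num) (by norm_num) (by norm_num)
      · nlinarith
      · nlinarith
      · have := r1_exp_ge3 0.372
        norm_num at this ⊢
        linarith
  · -- `κ ≤ 1`
    have hκ2 : κ ^ 2 ≤ 1 := by nlinarith
    have hD1 := locB_D1 (τ := 0.2933) hd1 (by linarith) (by linarith) hκ1
    have hD1' : sD κ t ≤ 1.1682 * (1 + κ ^ 2) := by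
      refine hD1.trans ?_
      apply mul_le_mul_of_nonneg_right _ hA.le
      norm_num
    have hD1'' : sD κ t ≤ 2.34 := by linarith
    have hsq : ∀ Y : ℝ, 0 ≤ Y → Y ≤ 1 → -Y ≤ sy κ (t - h) → (1 - Y) ^ 2 ≤ sD κ (t - h) := by
      intro Y hY hY1 h1
      unfold sD
      have h2 : (1 - Y) ^ 2 ≤ (1 + sy κ (t - h)) ^ 2 := pow_le_pow_left₀ (by linarith) (by linarith) 2
      have h3 := sq_nonneg (sx κ (t - h))
      linarith
    rcases le_total s 0.15 with c1 | c1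
    · have hτ : (1 - s) * h ≤ 0.97 * 0.6982 := mul_le_mul (by linarith) hh hp.le (by norm_num)
      have hV : sE κ (t - h) ≤ 1 - 0.4565 * (t - h + κ) ^ 2 / (1 + κ ^ 2) :=
        VL_00_08 hd0 (by linarith) (by linarith) (by linarith)
      have hD0 := hsq 0.5 (by norm_num) (by norm_num) (y_ge_50 hd0 (by linarith))
      refine locB_cmp (x := 1.7) (m := 4.9) (c := 0.5) hRβ hd0 hd1 (hexp _ _ hV ?_ ?_) ?_ (by norm_num)
        (by norm_num) ?_ (by norm_num) (by norm_num) (by norm_num)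
      · nlinarith
      · nlinarith
      · have := r1_exp_ge3 1.7
        norm_num at this ⊢
        linarith
      · norm_num at hD0 ⊢
        linarith
    have hV : sE κ (t - h) ≤ 1 - 0.466 * (t - h + κ) ^ 2 / (1 + κ ^ 2) := by
      refine VL_00_06 hd0 (by linarith) (by linarith) ?_
      have : (1 - s) * h ≤ 0.85 * 0.6982 := mul_le_mul (by linarith) hh hp.le (by norm_num)
      linarith
    rcases le_total s 0.35 with c2 | c2
    · have hτ : (1 - s) * h ≤ 0.85 * 0.6982 := mul_le_mul (by linarith) hh hp.le (by norm_num)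
      have hD0 := hsq 0.4 (by norm_num) (by norm_num) (y_ge_40 hd0 (by linarith))
      refine locB_cmp (x := 0.737) (m := 2.07) (c := 0.61) hRβ hd0 hd1 (hexp _ _ hV ?_ ?_) ?_ (by norm_num)
        (by norm_num) ?_ (by norm_num) (by norm_num) (by norm_num)
      · nlinarith
      · nlinarith
      · have := r1_exp_ge3 0.737
        norm_num at this ⊢
        linarith
      · norm_num at hD0 ⊢
        linarith
    · have hτ : (1 - s) * h ≤ 0.65 * 0.6982 := mul_le_mul (by linarith) hh hp.le (by norm_num)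
      have hsp : -(0.6232 / (1 + κ ^ 2)) ≤ sp κ (t - h) := by
        have h1 : 1.373 * (t - h + κ) / (1 + κ ^ 2) ≤ sp κ (t - h) := by
          have h0 : t - h + κ ≤ 0 := by linarith
          have hgen : ∀ c : ℝ, c ≤ 1.373 → c * (t - h + κ) / (1 + κ ^ 2) ≤ sp κ (t - h) →
              1.373 * (t - h + κ) / (1 + κ ^ 2) ≤ sp κ (t - h) := by
            intro c hc h1
            refine le_trans ?_ h1
            rw [div_le_div_iff_of_pos_right hA]
            nlinarith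
          rcases le_total (-(t - h + κ)) 0.3 with d1 | d1
          · exact hgen _ (by norm_num) (pLu_00_03 hd0 (by linarith) (by linarith) d1)
          rcases le_total (-(t - h + κ)) 0.4 with d2 | d2
          · exact hgen _ (by norm_num) (pLu_03_04 hd0 (by linarith) d1 d2)
          · exact pLu_04_05 hd0 (by linarith) d2 (by linarith)
        refine le_trans ?_ h1
        rw [← neg_div, div_le_div_iff_of_pos_right hA]
        rw [e0]
        linarith
      have hD0 := DL_ge hd0 (by linarith) hκ1 hsp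
      have hD0' : 0.688 * (1 + κ ^ 2) ≤ sD κ (t - h) := by
        unfold sD
        refine le_trans ?_ hD0
        have h2 := locB_quarter κ
        have e : 2 * (κ * (0.6232 / (1 + κ ^ 2))) * (1 - κ ^ 2) = 1.2464 * (κ * (1 - κ ^ 2)) / (1 + κ ^ 2) := by
          ring
        have h3 : 2 * (κ * (0.6232 / (1 + κ ^ 2))) * (1 - κ ^ 2) ≤ 0.3116 * (1 + κ ^ 2) := by
          rw [e, div_le_iff₀ hA]
          nlinarith
        linarith
      refine locB_cmp (x := 0.372) (m := 1.449) (c := 0.87) hRβ hd0 hd1 (hexp _ _ hV ?_ ?_) ?_ (by norm_num)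
        (by norm_num) ?_ (by norm_num) (by norm_num) (by norm_num)
      · nlinarith
      · nlinarith
      · have := r1_exp_ge3 0.372
        norm_num at this ⊢
        linarith
      · norm_num at hD0' hD1' ⊢
        linarith

/-- case `0.6 h < t + κ` -/
private theorem locB_right {b : ℕ} {h κ R t β : ℝ} (H : OP b h κ R t) (hβ : β = κ / R)
    (hs' : 0.6 * h < t + κ) : 1.1891 * sQ β κ t < 0.95 * sQ β κ (t - h) := by
  obtain ⟨hd0, hd1⟩ := locB_dom H
  have hp := h_pos H.hb H.hh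
  have hh := h_le9 H.hb H.hh
  have hk := H.k0
  have hk1 := H.k1
  have hR0 : 0 < R := by linarith [H.R1]
  have hRβ : κ / β = R := by rw [hβ]; field_simp
  have hA : 0 < 1 + κ ^ 2 := by positivity
  have hT : 5.44 ≤ R * h ^ 2 / (1 + κ ^ 2) := by rw [le_div_iff₀ hA]; exact H.T1
  obtain ⟨s, hs⟩ : ∃ s, s = (t + κ) / h := ⟨_, rfl⟩
  have hsh : t + κ = s * h := by rw [hs]; field_simp
  have hs1 : 0.6 < s := by rw [hs, lt_div_iff₀ hp]; exact hs'
  have hs2 : s ≤ 1.03 := by rw [hs, div_le_iff₀ hp]; exact H.hi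
  have hsh0 : 0 ≤ s * h := by positivity
  have hsh1 : s * h ≤ 1.03 * 0.6982 := mul_le_mul hs2 hh hp.le (by norm_num)
  have e0 : t - h + κ = -((1 - s) * h) := by linarith
  -- the exponent
  have hexp : ∀ c c' x : ℝ, sE κ t ≤ 1 - c * (t + κ) ^ 2 / (1 + κ ^ 2) →
      1 - c' * (t - h + κ) ^ 2 / (1 + κ ^ 2) ≤ sE κ (t - h) →
      0 ≤ c * s ^ 2 - c' * (1 - s) ^ 2 → x ≤ 5.44 * (c * s ^ 2 - c' * (1 - s) ^ 2) →
      x ≤ R * (sE κ (t - h) - sE κ t) := by
    intro c c' x h1 h1' h2 h3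
    rw [e0] at h1'
    rw [hsh] at h1
    have h4 : (c * s ^ 2 - c' * (1 - s) ^ 2) * (h ^ 2 / (1 + κ ^ 2)) ≤ sE κ (t - h) - sE κ t := by
      have a1 : c' * (-((1 - s) * h)) ^ 2 / (1 + κ ^ 2) = c' * (1 - s) ^ 2 * (h ^ 2 / (1 + κ ^ 2)) := by ring
      have a2 : c * (s * h) ^ 2 / (1 + κ ^ 2) = c * s ^ 2 * (h ^ 2 / (1 + κ ^ 2)) := by ring
      rw [a1] at h1'
      rw [a2] at h1
      linarith
    have h5 := mul_le_mul_of_nonneg_left h4 hR0.le
    have h6 := mul_le_mul_of_nonneg_right hT h2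
    have e : R * ((c * s ^ 2 - c' * (1 - s) ^ 2) * (h ^ 2 / (1 + κ ^ 2))) =
      R * h ^ 2 / (1 + κ ^ 2) * (c * s ^ 2 - c' * (1 - s) ^ 2) := by ring
    linarith
  have hy1 := sy_nonneg hd1 (by linarith)
  rcases le_total s 1 with c1 | c1
  · -- left of the peak
    have h1s : 0 ≤ (1 - s) * h := mul_nonneg (by linarith) hp.le
    have h1s' : (1 - s) * h ≤ 0.28 := by
      have : (1 - s) * h ≤ 0.4 * 0.6982 := mul_le_mul (by linarith) hh hp.le (by norm_num)
      linarith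
    have hlow : 1 - 0.56 * (t - h + κ) ^ 2 / (1 + κ ^ 2) ≤ sE κ (t - h) := by
      obtain ⟨σ, hσ⟩ : ∃ σ, σ = -(t - h + κ) / (1 + κ ^ 2) := ⟨_, rfl⟩
      have hσA : σ * (1 + κ ^ 2) = (1 - s) * h := by rw [hσ, e0]; field_simp
      have hσ0 : 0 ≤ σ := by
        rw [hσ]
        apply div_nonneg _ hA.le
        linarith
      have hσ28 : σ * (1 + κ ^ 2) ≤ 0.28 := by rw [hσA]; exact h1s'
      have hσ1 : σ ≤ 0.28 := by nlinarith
      have hκσ : κ * σ ≤ 0.14 := by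
        have : 2 * κ ≤ 1 + κ ^ 2 := by nlinarith [sq_nonneg (κ - 1)]
        nlinarith
      have h1 := VLlow hd0 hσ hσ0 (by linarith)
      refine le_trans ?_ h1
      have hchi := chi_all hk.le (by linarith : κ ≤ 1.5)
      have e : (t - h + κ) ^ 2 / (1 + κ ^ 2) = σ ^ 2 * (1 + κ ^ 2) := by
        rw [hσ]; field_simp
      rw [mul_div_assoc, e]
      have hσ2 : 0 ≤ σ ^ 2 := sq_nonneg σ
      -- the four terms
      have t1 : κ * (1 / 2 - κ ^ 2 / 6) * σ ^ 3 ≤ 0.042 * (σ ^ 2 * (1 + κ ^ 2)) := by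
        have h2 : κ * (1 / 2 - κ ^ 2 / 6) * σ ^ 3 ≤ 3 / 20 * (1 + κ ^ 2) ^ 2 * σ ^ 3 :=
          mul_le_mul_of_nonneg_right hchi (by positivity)
        have h3 : 3 / 20 * (1 + κ ^ 2) ^ 2 * σ ^ 3 = 3 / 20 * (σ * (1 + κ ^ 2)) * (σ ^ 2 * (1 + κ ^ 2)) := by ring
        have h4 : 3 / 20 * (σ * (1 + κ ^ 2)) * (σ ^ 2 * (1 + κ ^ 2)) ≤ 3 / 20 * 0.28 * (σ ^ 2 * (1 + κ ^ 2)) := by
          apply mul_le_mul_of_nonneg_right _ (by positivity)
          linarith
        linarith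
      have t2 : κ ^ 4 * σ ^ 4 / 12 ≤ 0.0066 * (σ ^ 2 * (1 + κ ^ 2)) := by
        have h2 : κ ^ 2 * σ ≤ 0.28 := by nlinarith
        have h3 : (κ ^ 2 * σ) ^ 2 ≤ 0.28 ^ 2 := pow_le_pow_left₀ (by positivity) h2 2
        have h4 : κ ^ 4 * σ ^ 4 / 12 = (κ ^ 2 * σ) ^ 2 * σ ^ 2 / 12 := by ring
        have h5 : (κ ^ 2 * σ) ^ 2 * σ ^ 2 ≤ 0.28 ^ 2 * σ ^ 2 := mul_le_mul_of_nonneg_right h3 hσ2
        have h6 : 0 ≤ κ ^ 2 * σ ^ 2 := by positivity
        rw [h4]
        nlinarith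
      have t3 : (1 + κ * σ) * (σ ^ 4 / 12 + σ ^ 6 / 24) ≤ 0.0078 * (σ ^ 2 * (1 + κ ^ 2)) := by
        have h2 : σ ^ 2 ≤ 0.28 ^ 2 := pow_le_pow_left₀ hσ0 hσ1 2
        have h3 : σ ^ 4 / 12 + σ ^ 6 / 24 ≤ 0.0068 * σ ^ 2 := by
          have e1 : σ ^ 4 / 12 + σ ^ 6 / 24 = σ ^ 2 * (σ ^ 2 / 12 + (σ ^ 2) ^ 2 / 24) := by ring
          have h4 : (σ ^ 2) ^ 2 ≤ (0.28 ^ 2) ^ 2 := pow_le_pow_left₀ hσ2 h2 2
          have h5 : σ ^ 2 / 12 + (σ ^ 2) ^ 2 / 24 ≤ 0.0068 := by norm_num at h2 h4 ⊢; linarith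
          rw [e1]
          have := mul_le_mul_of_nonneg_left h5 hσ2
          linarith
        have h4 : (1 + κ * σ) * (σ ^ 4 / 12 + σ ^ 6 / 24) ≤ 1.14 * (0.0068 * σ ^ 2) := by
          apply mul_le_mul (by linarith) h3 (by positivity) (by norm_num)
        have h6 : 0 ≤ κ ^ 2 * σ ^ 2 := by positivity
        linarith
      have h6 : (1 + κ ^ 2) * σ ^ 2 / 2 = 0.5 * (σ ^ 2 * (1 + κ ^ 2)) := by ring
      have h7 : 0 ≤ σ ^ 2 * (1 + κ ^ 2) := by positivity
      linarith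
    have hD : 1.118 ^ 4 * sD κ t ≥ sD κ (t - h) := by
      have h1 := DL_le hd0 (sy_nonpos hd0 (by linarith)) (y_ge_20 hd0 (by linarith))
      have he : Real.exp (2 * 0.2) ≤ 1.493 := by
        have := r1_exp_le3 (z := 2 * 0.2) (by norm_num) (by norm_num)
        norm_num at this ⊢
        linarith
      have h2 : sD κ (t - h) ≤ max (1 + κ ^ 2) (1.493 * κ ^ 2 + 0.6) := by
        unfold sD
        refine h1.trans (max_le_max le_rfl ?_)
        have := mul_le_mul_of_nonneg_left he (sq_nonneg κ)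
        linarith
      rcases le_total κ 1 with c2 | c2
      · have h3 : 1 + κ ^ 2 ≤ sD κ t := DR_ge hd1 (by linarith) c2
        have hκ2 : κ ^ 2 ≤ 1 := by nlinarith
        have h4 : max (1 + κ ^ 2) (1.493 * κ ^ 2 + 0.6) ≤ 1.56 * (1 + κ ^ 2) := max_le (by linarith) (by linarith)
        have h7 := h2.trans h4
        have h10 : (1.56 : ℝ) * sD κ t ≤ 1.118 ^ 4 * sD κ t :=
          mul_le_mul_of_nonneg_right (by norm_num) (by linarith)
        have h11 := mul_le_mul_of_nonneg_left h3 (by norm_num : (0 : ℝ) ≤ 1.56)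
        exact (h7.trans h11).trans h10
      · have h3 : 2 + 2 * Real.log κ ≤ sD κ t := D_ge_log hd1
        have h4 := Real.one_sub_inv_le_log_of_pos hk
        have h5 : (4 - 2 / κ) ≤ sD κ t := by
          rw [← one_div] at h4
          have : 2 / κ = 2 * (1 / κ) := by ring
          linarith
        have h6 : max (1 + κ ^ 2) (1.493 * κ ^ 2 + 0.6) ≤ 1.56 * (4 - 2 / κ) := by
          have e : 1.56 * (4 - 2 / κ) = (6.24 * κ - 3.12) / κ := by field_simp; ring
          rw [e]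
          apply max_le
          · rw [le_div_iff₀ hk]
            nlinarith [mul_nonneg (sub_nonneg.2 c2) (sub_nonneg.2 hk1)]
          · rw [le_div_iff₀ hk]
            nlinarith [mul_nonneg (sub_nonneg.2 c2) (sub_nonneg.2 hk1)]
        have h7 := h2.trans h6
        have h8 : 0 ≤ Real.log κ := Real.log_nonneg c2
        have h10 : (1.56 : ℝ) * sD κ t ≤ 1.118 ^ 4 * sD κ t :=
          mul_le_mul_of_nonneg_right (by norm_num) (by linarith)
        have h11 := mul_le_mul_of_nonneg_left h5 (by norm_num : (0 : ℝ) ≤ 1.56)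
        exact (h7.trans h11).trans h10
    have hD' : (1 / 1.118) ^ 4 * sD κ (t - h) ≤ sD κ t := by
      rw [div_pow, one_pow, one_div_mul_eq_div, div_le_iff₀ (by norm_num)]
      linarith
    rcases le_total s 0.7 with c2 | c2
    · have hV := VR_050 hd1 (by linarith) (by nlinarith)
      refine locB_cmp (x := 0.337) (m := 1.4) (c := 1 / 1.118) hRβ hd1 hd0 (hexp _ _ _ hV hlow ?_ ?_) ?_ (by norm_num)
        (by norm_num) hD' (by norm_num) (by norm_num) (by norm_num)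
      · nlinarith
      · nlinarith
      · have := r1_exp_ge3 0.337
        norm_num at this ⊢
        linarith
    · have hV := VR_080 hd1 (by linarith) (by linarith)
      refine locB_cmp (x := 0.337) (m := 1.4) (c := 1 / 1.118) hRβ hd1 hd0 (hexp _ _ _ hV hlow ?_ ?_) ?_ (by norm_num)
        (by norm_num) hD' (by norm_num) (by norm_num) (by norm_num)
      · nlinarith
      · nlinarith
      · have := r1_exp_ge3 0.337
        norm_num at this ⊢
        linarith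
  · -- right of the peak
    have h1s : (s - 1) * h ≤ 0.03 * 0.6982 := mul_le_mul (by linarith) hh hp.le (by norm_num)
    have h1s0 : 0 ≤ (s - 1) * h := mul_nonneg (by linarith) hp.le
    have e0' : t - h + κ = (s - 1) * h := by linarith
    have hlow : 1 - 1 / 2 * (t - h + κ) ^ 2 / (1 + κ ^ 2) ≤ sE κ (t - h) := by
      have h1 := low_quad hd0 (by nlinarith) (by linarith) (t - h)
      have e : 1 / 2 * (t - h + κ) ^ 2 / (1 + κ ^ 2) = (t - h + κ) ^ 2 / (2 * (1 + κ ^ 2)) := by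
        field_simp
      rw [e]
      simpa using h1
    have hV := VR_080 hd1 (by linarith) (by linarith)
    have hD1 : 1 ≤ sD κ t := by
      unfold sD
      have h2 : 1 ^ 2 ≤ (1 + sy κ t) ^ 2 := pow_le_pow_left₀ (by norm_num) (by linarith) 2
      have h3 := sq_nonneg (sx κ t)
      linarith
    have hD0 : sD κ (t - h) ≤ 6 := by
      have hκ2 : κ ^ 2 ≤ 1.39 ^ 2 := pow_le_pow_left₀ hk.le hk1 2
      rcases le_total κ 1 with c2 | c2
      · have h2 := locB_D1 (τ := 0.1) hd0 (by linarith) (by linarith) c2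
        norm_num at h2 ⊢
        have : κ ^ 2 ≤ 1 := by nlinarith
        nlinarith
      · have h2 := DR_le' hd0 rfl (by linarith) c2 (by nlinarith)
        have h3 : 2 * κ ^ 2 * (κ * ((t - h + κ) / (1 + κ ^ 2))) ^ 2 ≤ 0.2 := by
          have h4 : κ * (κ * ((t - h + κ) / (1 + κ ^ 2))) ≤ 0.3 := by
            have e : κ * (κ * ((t - h + κ) / (1 + κ ^ 2))) = κ ^ 2 * (t - h + κ) / (1 + κ ^ 2) := by ring
            rw [e, div_le_iff₀ hA]
            have : κ ^ 2 * (t - h + κ) ≤ κ ^ 2 * 0.3 := mul_le_mul_of_nonneg_left (by linarith) (sq_nonneg _)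
            linarith
          have h5 : 0 ≤ κ * (κ * ((t - h + κ) / (1 + κ ^ 2))) := by
            have : 0 ≤ t - h + κ := by linarith
            positivity
          have h6 := pow_le_pow_left₀ h5 h4 2
          have e : 2 * κ ^ 2 * (κ * ((t - h + κ) / (1 + κ ^ 2))) ^ 2 =
            2 * (κ * (κ * ((t - h + κ) / (1 + κ ^ 2)))) ^ 2 := by ring
          rw [e]
          linarith
        unfold sD
        norm_num at hκ2
        linarith
    refine locB_cmp (x := 2) (m := 6) (c := 1 / 2) hRβ hd1 hd0 (hexp _ _ _ hV hlow ?_ ?_) ?_ (by norm_num)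
      (by norm_num) ?_ (by norm_num) (by norm_num) (by norm_num)
    · nlinarith
    · nlinarith
    · have := r1_exp_ge3 2
      norm_num at this ⊢
      linarith
    · norm_num
      linarith

/-- ROW LOC -/
theorem locB {b : ℕ} {h κ R t β G0 G1 : ℝ} (H : OP b h κ R t) (hβ : β = κ / R)
    (h0 : 0.95 * sQ β κ (t - h) ≤ G0) (h0' : G0 ≤ 1.05 * sQ β κ (t - h))
    (h1 : 0.966 * sQ β κ t ≤ G1) (h1' : G1 ≤ 1.034 * sQ β κ t) :
    (t + κ < 0.42 * h → 23 / 20 * G0 < G1) ∧ (0.6 * h < t + κ → 23 / 20 * G1 < G0) := by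
  constructor
  · intro hs
    have := locB_left H hβ hs
    linarith
  · intro hs
    have := locB_right H hβ hs
    linarith

end Sok
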