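import Pool.Agent.Lib.MP_816dec_an.R1BM1b

/-!
MP_816dec_an (A3, row R1, `b ≥ 9`): the copy `-1` on the discs, `κ ≥ 0.29`: the boxes (generated).
-/

set_option autoImplicit false

open Complex Set Filter Topology Metric

namespace Sok

private theorem cub_lo {κ k2 : ℝ} (h0 : 0 ≤ κ) (h : κ ≤ k2) (h1 : k2 ≤ 1) :
    κ * (1 / 2 - κ ^ 2 / 6) ≤ k2 * (1 / 2 - k2 ^ 2 / 6) := by
  have h2 : 0 ≤ (k2 - κ) * (3 - (k2 ^ 2 + k2 * κ + κ ^ 2)) := by
    apply mul_nonneg (by linarith)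
    nlinarith
  linarith

private theorem cub_hi {κ k1 : ℝ} (h1 : 1 ≤ k1) (h : k1 ≤ κ) :
    κ * (1 / 2 - κ ^ 2 / 6) ≤ k1 * (1 / 2 - k1 ^ 2 / 6) := by
  have h2 : 0 ≤ (κ - k1) * ((k1 ^ 2 + k1 * κ + κ ^ 2) - 3) := by
    apply mul_nonneg (by linarith)
    nlinarith
  linarith

private theorem D_ge_one {κ t k1 : ℝ} (h : DomR κ t) (h1 : 0 < k1) (hk : k1 ≤ κ) : 4 - 2 / k1 ≤ sD κ t := by
  have h2 := D_ge_log h
  have h3 := Real.one_sub_inv_le_log_of_pos h.1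
  have h4 : 1 / κ ≤ 1 / k1 := one_div_le_one_div_of_le h1 hk
  rw [inv_eq_one_div] at h3
  have e : 2 / k1 = 2 * (1 / k1) := by ring
  unfold sD
  rw [e]
  linarith

private theorem sgm_num {κ σ k2 : ℝ} (h0 : 0 ≤ κ) (h2 : κ ≤ k2) (hσ : 0 ≤ σ) (h : 1 + 1.15 * k2 ^ 2 ≤ (10 * σ) ^ 2) :
    sgm κ ≤ σ := by
  unfold sgm
  have h3 : κ ^ 2 ≤ k2 ^ 2 := pow_le_pow_left₀ h0 h2 2
  have : Real.sqrt (1 + 1.15 * κ ^ 2) ≤ 10 * σ := Real.sqrt_le_iff.2 ⟨by linarith, by linarith⟩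
  linarith

private theorem farM1_c1 {b : ℕ} {h κ R t T s z : ℝ} (Q : QD 5.07 b h κ R t T s z) {β G0 G1 : ℝ} (hβ : β = κ / R)
    (h0 : 0.965 * sQ β κ (t - h) ≤ G0) (h1 : 0 ≤ G1) (h1' : G1 ≤ 1.035 * sQ β κ t)
    (dd0 : DomR κ (t - h)) (dd1 : DomR κ t) (hk1 : 0.29 ≤ κ) (hk2 : κ ≤ 0.31) (hlo' : 0.42 - sgm κ ≤ s) (hhi' : s ≤ 0.6 + sgm κ) :
    ‖Xf β R h t (-1)‖ * G0 ^ ((-1 : ℤ) - 1) * G1 ^ (-(-1 : ℤ)) ≤ 7 / 250 := by
  have hsg := sgm_num (κ := κ) (σ := 0.1054) Q.kpos.le hk2 (by norm_num) (by norm_num)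
  exact Q.boxM1 hβ h0 h1 h1' dd0 dd1 0.29 0.31 0.3146 0.7054 0.4414 0.1501 0.58 1.0233 1.0203 2.2743 0 0.9156 0.0096535 1.652 0.0002305 1.401 0.0008227 hk1 hk2 (by norm_num)
    (by linarith only [hlo', hsg]) (by linarith only [hhi', hsg]) (by norm_num) (by norm_num) (Or.inl ⟨by norm_num, by norm_num⟩) (by norm_num) (by norm_num) (by norm_num)
    (by norm_num) (by norm_num) (by norm_num) (by norm_num)
    (by
      have h2 := DR_ge dd1 (by have := Q.ht; have h3 : t + κ = s * h := (by rw [this]; ring); rw [h3]; exact mul_nonneg (by linarith only [hlo', hsg]) Q.h0.le) (by linarith only [hk2])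
      have h4 : ((0.29 : ℝ)) ^ 2 ≤ κ ^ 2 := pow_le_pow_left₀ (by norm_num) hk1 2
      unfold sD
      refine le_trans ?_ h2
      norm_num at h4 ⊢
      linarith only [h4])
    (by norm_num) (by norm_num) ((cub_lo Q.kpos.le hk2 (by norm_num)).trans (by norm_num)) (by norm_num) (by norm_num) (by norm_num) (by norm_num)
    (by norm_num) (by norm_num) (by norm_num) (by norm_num) (by norm_num) (by norm_num) (by norm_num) (by norm_num)
    (exp_num' 4 (f := 0.642) (by norm_num) (by norm_num) (by norm_num)) (exp_num' 8 (f := 0.3756) (by norm_num) (by norm_num) (by norm_num)) (exp_num' 7 (f := 0.103) (by norm_num) (by norm_num) (by norm_num)) (by norm_num)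

private theorem farM1_c2 {b : ℕ} {h κ R t T s z : ℝ} (Q : QD 5.07 b h κ R t T s z) {β G0 G1 : ℝ} (hβ : β = κ / R)
    (h0 : 0.965 * sQ β κ (t - h) ≤ G0) (h1 : 0 ≤ G1) (h1' : G1 ≤ 1.035 * sQ β κ t)
    (dd0 : DomR κ (t - h)) (dd1 : DomR κ t) (hk1 : 0.31 ≤ κ) (hk2 : κ ≤ 0.34) (hlo' : 0.42 - sgm κ ≤ s) (hhi' : s ≤ 0.6 + sgm κ) :
    ‖Xf β R h t (-1)‖ * G0 ^ ((-1 : ℤ) - 1) * G1 ^ (-(-1 : ℤ)) ≤ 7 / 250 := by
  have hsg := sgm_num (κ := κ) (σ := 0.1065) Q.kpos.le hk2 (by norm_num) (by norm_num)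
  exact Q.boxM1 hβ h0 h1 h1' dd0 dd1 0.31 0.34 0.3135 0.7065 0.4373 0.1635 0.5838 1.0278 1.0232 2.1998 0 0.9119 0.0098334 1.671 0.0002094 1.421 0.0007434 hk1 hk2 (by norm_num)
    (by linarith only [hlo', hsg]) (by linarith only [hhi', hsg]) (by norm_num) (by norm_num) (Or.inl ⟨by norm_num, by norm_num⟩) (by norm_num) (by norm_num) (by norm_num)
    (by norm_num) (by norm_num) (by norm_num) (by norm_num)
    (by
      have h2 := DR_ge dd1 (by have := Q.ht; have h3 : t + κ = s * h := (by rw [this]; ring); rw [h3]; exact mul_nonneg (by linarith only [hlo', hsg]) Q.h0.le) (by linarith only [hk2])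
      have h4 : ((0.31 : ℝ)) ^ 2 ≤ κ ^ 2 := pow_le_pow_left₀ (by norm_num) hk1 2
      unfold sD
      refine le_trans ?_ h2
      norm_num at h4 ⊢
      linarith only [h4])
    (by norm_num) (by norm_num) ((cub_lo Q.kpos.le hk2 (by norm_num)).trans (by norm_num)) (by norm_num) (by norm_num) (by norm_num) (by norm_num)
    (by norm_num) (by norm_num) (by norm_num) (by norm_num) (by norm_num) (by norm_num) (by norm_num) (by norm_num)
    (exp_num' 4 (f := 0.6233) (by norm_num) (by norm_num) (by norm_num)) (exp_num' 8 (f := 0.4719) (by norm_num) (by norm_num) (by norm_num)) (exp_num' 7 (f := 0.2044) (by norm_num) (by norm_num) (by norm_num)) (by norm_num)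

private theorem farM1_c3 {b : ℕ} {h κ R t T s z : ℝ} (Q : QD 5.07 b h κ R t T s z) {β G0 G1 : ℝ} (hβ : β = κ / R)
    (h0 : 0.965 * sQ β κ (t - h) ≤ G0) (h1 : 0 ≤ G1) (h1' : G1 ≤ 1.035 * sQ β κ t)
    (dd0 : DomR κ (t - h)) (dd1 : DomR κ t) (hk1 : 0.34 ≤ κ) (hk2 : κ ≤ 0.38) (hlo' : 0.42 - sgm κ ≤ s) (hhi' : s ≤ 0.6 + sgm κ) :
    ‖Xf β R h t (-1)‖ * G0 ^ ((-1 : ℤ) - 1) * G1 ^ (-(-1 : ℤ)) ≤ 7 / 250 := by
  have hsg := sgm_num (κ := κ) (σ := 0.108) Q.kpos.le hk2 (by norm_num) (by norm_num)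
  exact Q.boxM1 hβ h0 h1 h1' dd0 dd1 0.34 0.38 0.312 0.708 0.4306 0.1809 0.5878 1.0343 1.0277 2.1005 0 0.9078 0.0100378 1.703 0.0001782 1.455 0.0006257 hk1 hk2 (by norm_num)
    (by linarith only [hlo', hsg]) (by linarith only [hhi', hsg]) (by norm_num) (by norm_num) (Or.inl ⟨by norm_num, by norm_num⟩) (by norm_num) (by norm_num) (by norm_num)
    (by norm_num) (by norm_num) (by norm_num) (by norm_num)
    (by
      have h2 := DR_ge dd1 (by have := Q.ht; have h3 : t + κ = s * h := (by rw [this]; ring); rw [h3]; exact mul_nonneg (by linarith only [hlo', hsg]) Q.h0.le) (by linarith only [hk2])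
      have h4 : ((0.34 : ℝ)) ^ 2 ≤ κ ^ 2 := pow_le_pow_left₀ (by norm_num) hk1 2
      unfold sD
      refine le_trans ?_ h2
      norm_num at h4 ⊢
      linarith only [h4])
    (by norm_num) (by norm_num) ((cub_lo Q.kpos.le hk2 (by norm_num)).trans (by norm_num)) (by norm_num) (by norm_num) (by norm_num) (by norm_num)
    (by norm_num) (by norm_num) (by norm_num) (by norm_num) (by norm_num) (by norm_num) (by norm_num) (by norm_num)
    (exp_num' 4 (f := 0.6025) (by norm_num) (by norm_num) (by norm_num)) (exp_num' 8 (f := 0.6342) (by norm_num) (by norm_num) (by norm_num)) (exp_num' 7 (f := 0.3768) (by norm_num) (by norm_num) (by norm_num)) (by norm_num)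

private theorem farM1_c4 {b : ℕ} {h κ R t T s z : ℝ} (Q : QD 5.07 b h κ R t T s z) {β G0 G1 : ℝ} (hβ : β = κ / R)
    (h0 : 0.965 * sQ β κ (t - h) ≤ G0) (h1 : 0 ≤ G1) (h1' : G1 ≤ 1.035 * sQ β κ t)
    (dd0 : DomR κ (t - h)) (dd1 : DomR κ t) (hk1 : 0.38 ≤ κ) (hk2 : κ ≤ 0.43) (hlo' : 0.42 - sgm κ ≤ s) (hhi' : s ≤ 0.6 + sgm κ) :
    ‖Xf β R h t (-1)‖ * G0 ^ ((-1 : ℤ) - 1) * G1 ^ (-(-1 : ℤ)) ≤ 7 / 250 := by
  have hsg := sgm_num (κ := κ) (σ := 0.1102) Q.kpos.le hk2 (by norm_num) (by norm_num)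
  exact Q.boxM1 hβ h0 h1 h1' dd0 dd1 0.38 0.43 0.3098 0.7102 0.4211 0.2018 0.5913 1.0434 1.0342 1.9868 0 0.9041 0.0102265 1.753 0.0001395 1.509 0.0004766 hk1 hk2 (by norm_num)
    (by linarith only [hlo', hsg]) (by linarith only [hhi', hsg]) (by norm_num) (by norm_num) (Or.inl ⟨by norm_num, by norm_num⟩) (by norm_num) (by norm_num) (by norm_num)
    (by norm_num) (by norm_num) (by norm_num) (by norm_num)
    (by
      have h2 := DR_ge dd1 (by have := Q.ht; have h3 : t + κ = s * h := (by rw [this]; ring); rw [h3]; exact mul_nonneg (by linarith only [hlo', hsg]) Q.h0.le) (by linarith only [hk2])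
      have h4 : ((0.38 : ℝ)) ^ 2 ≤ κ ^ 2 := pow_le_pow_left₀ (by norm_num) hk1 2
      unfold sD
      refine le_trans ?_ h2
      norm_num at h4 ⊢
      linarith only [h4])
    (by norm_num) (by norm_num) ((cub_lo Q.kpos.le hk2 (by norm_num)).trans (by norm_num)) (by norm_num) (by norm_num) (by norm_num) (by norm_num)
    (by norm_num) (by norm_num) (by norm_num) (by norm_num) (by norm_num) (by norm_num) (by norm_num) (by norm_num)
    (exp_num' 4 (f := 0.5837) (by norm_num) (by norm_num) (by norm_num)) (exp_num' 8 (f := 0.8877) (by norm_num) (by norm_num) (by norm_num)) (exp_num' 7 (f := 0.6506) (by norm_num) (by norm_num) (by norm_num)) (by norm_num)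

private theorem farM1_c5 {b : ℕ} {h κ R t T s z : ℝ} (Q : QD 5.07 b h κ R t T s z) {β G0 G1 : ℝ} (hβ : β = κ / R)
    (h0 : 0.965 * sQ β κ (t - h) ≤ G0) (h1 : 0 ≤ G1) (h1' : G1 ≤ 1.035 * sQ β κ t)
    (dd0 : DomR κ (t - h)) (dd1 : DomR κ t) (hk1 : 0.43 ≤ κ) (hk2 : κ ≤ 0.5) (hlo' : 0.42 - sgm κ ≤ s) (hhi' : s ≤ 0.6 + sgm κ) :
    ‖Xf β R h t (-1)‖ * G0 ^ ((-1 : ℤ) - 1) * G1 ^ (-(-1 : ℤ)) ≤ 7 / 250 := by
  have hsg := sgm_num (κ := κ) (σ := 0.1135) Q.kpos.le hk2 (by norm_num) (by norm_num)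
  exact Q.boxM1 hβ h0 h1 h1' dd0 dd1 0.43 0.5 0.3065 0.7135 0.4087 0.2292 0.5952 1.0574 1.0433 1.8678 0 0.8997 0.0104553 1.823 0.0000969 1.584 0.0003253 hk1 hk2 (by norm_num)
    (by linarith only [hlo', hsg]) (by linarith only [hhi', hsg]) (by norm_num) (by norm_num) (Or.inl ⟨by norm_num, by norm_num⟩) (by norm_num) (by norm_num) (by norm_num)
    (by norm_num) (by norm_num) (by norm_num) (by norm_num)
    (by
      have h2 := DR_ge dd1 (by have := Q.ht; have h3 : t + κ = s * h := (by rw [this]; ring); rw [h3]; exact mul_nonneg (by linarith only [hlo', hsg]) Q.h0.le) (by linarith only [hk2])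
      have h4 : ((0.43 : ℝ)) ^ 2 ≤ κ ^ 2 := pow_le_pow_left₀ (by norm_num) hk1 2
      unfold sD
      refine le_trans ?_ h2
      norm_num at h4 ⊢
      linarith only [h4])
    (by norm_num) (by norm_num) ((cub_lo Q.kpos.le hk2 (by norm_num)).trans (by norm_num)) (by norm_num) (by norm_num) (by norm_num) (by norm_num)
    (by norm_num) (by norm_num) (by norm_num) (by norm_num) (by norm_num) (by norm_num) (by norm_num) (by norm_num)
    (exp_num' 4 (f := 0.5614) (by norm_num) (by norm_num) (by norm_num)) (exp_num' 9 (f := 0.2426) (by norm_num) (by norm_num) (by norm_num)) (exp_num' 8 (f := 0.0308) (by norm_num) (by norm_num) (by norm_num)) (by norm_num)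

private theorem farM1_c6 {b : ℕ} {h κ R t T s z : ℝ} (Q : QD 5.07 b h κ R t T s z) {β G0 G1 : ℝ} (hβ : β = κ / R)
    (h0 : 0.965 * sQ β κ (t - h) ≤ G0) (h1 : 0 ≤ G1) (h1' : G1 ≤ 1.035 * sQ β κ t)
    (dd0 : DomR κ (t - h)) (dd1 : DomR κ t) (hk1 : 0.5 ≤ κ) (hk2 : κ ≤ 0.6) (hlo' : 0.42 - sgm κ ≤ s) (hhi' : s ≤ 0.6 + sgm κ) :
    ‖Xf β R h t (-1)‖ * G0 ^ ((-1 : ℤ) - 1) * G1 ^ (-(-1 : ℤ)) ≤ 7 / 250 := by
  have hsg := sgm_num (κ := κ) (σ := 0.119) Q.kpos.le hk2 (by norm_num) (by norm_num)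
  exact Q.boxM1 hβ h0 h1 h1' dd0 dd1 0.5 0.6 0.301 0.719 0.3904 0.2641 0.5973 1.08 1.0573 1.7321 0 0.8965 0.0106249 1.94 0.0000539 1.71 0.0001721 hk1 hk2 (by norm_num)
    (by linarith only [hlo', hsg]) (by linarith only [hhi', hsg]) (by norm_num) (by norm_num) (Or.inl ⟨by norm_num, by norm_num⟩) (by norm_num) (by norm_num) (by norm_num)
    (by norm_num) (by norm_num) (by norm_num) (by norm_num)
    (by
      have h2 := DR_ge dd1 (by have := Q.ht; have h3 : t + κ = s * h := (by rw [this]; ring); rw [h3]; exact mul_nonneg (by linarith only [hlo', hsg]) Q.h0.le) (by linarith only [hk2])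
      have h4 : ((0.5 : ℝ)) ^ 2 ≤ κ ^ 2 := pow_le_pow_left₀ (by norm_num) hk1 2
      unfold sD
      refine le_trans ?_ h2
      norm_num at h4 ⊢
      linarith only [h4])
    (by norm_num) (by norm_num) ((cub_lo Q.kpos.le hk2 (by norm_num)).trans (by norm_num)) (by norm_num) (by norm_num) (by norm_num) (by norm_num)
    (by norm_num) (by norm_num) (by norm_num) (by norm_num) (by norm_num) (by norm_num) (by norm_num) (by norm_num)
    (exp_num' 4 (f := 0.5452) (by norm_num) (by norm_num) (by norm_num)) (exp_num' 9 (f := 0.8357) (by norm_num) (by norm_num) (by norm_num)) (exp_num' 8 (f := 0.6696) (by norm_num) (by norm_num) (by norm_num)) (by norm_num)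

private theorem farM1_c7 {b : ℕ} {h κ R t T s z : ℝ} (Q : QD 5.07 b h κ R t T s z) {β G0 G1 : ℝ} (hβ : β = κ / R)
    (h0 : 0.965 * sQ β κ (t - h) ≤ G0) (h1 : 0 ≤ G1) (h1' : G1 ≤ 1.035 * sQ β κ t)
    (dd0 : DomR κ (t - h)) (dd1 : DomR κ t) (hk1 : 0.6 ≤ κ) (hk2 : κ ≤ 0.7) (hlo' : 0.42 - sgm κ ≤ s) (hhi' : s ≤ 0.6 + sgm κ) :
    ‖Xf β R h t (-1)‖ * G0 ^ ((-1 : ℤ) - 1) * G1 ^ (-(-1 : ℤ)) ≤ 7 / 250 := by
  have hsg := sgm_num (κ := κ) (σ := 0.1251) Q.kpos.le hk2 (by norm_num) (by norm_num)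
  exact Q.boxM1 hβ h0 h1 h1' dd0 dd1 0.6 0.7 0.2949 0.7251 0.362 0.2929 0.5907 1.1049 1.0799 1.5812 0 0.9017 0.01035 2.154 0.0000183 1.933 0.0000558 hk1 hk2 (by norm_num)
    (by linarith only [hlo', hsg]) (by linarith only [hhi', hsg]) (by norm_num) (by norm_num) (Or.inl ⟨by norm_num, by norm_num⟩) (by norm_num) (by norm_num) (by norm_num)
    (by norm_num) (by norm_num) (by norm_num) (by norm_num)
    (by
      have h2 := DR_ge dd1 (by have := Q.ht; have h3 : t + κ = s * h := (by rw [this]; ring); rw [h3]; exact mul_nonneg (by linarith only [hlo', hsg]) Q.h0.le) (by linarith only [hk2])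
      have h4 : ((0.6 : ℝ)) ^ 2 ≤ κ ^ 2 := pow_le_pow_left₀ (by norm_num) hk1 2
      unfold sD
      refine le_trans ?_ h2
      norm_num at h4 ⊢
      linarith only [h4])
    (by norm_num) (by norm_num) ((cub_lo Q.kpos.le hk2 (by norm_num)).trans (by norm_num)) (by norm_num) (by norm_num) (by norm_num) (by norm_num)
    (by norm_num) (by norm_num) (by norm_num) (by norm_num) (by norm_num) (by norm_num) (by norm_num) (by norm_num)
    (exp_num' 4 (f := 0.5716) (by norm_num) (by norm_num) (by norm_num)) (exp_num' 10 (f := 0.9207) (by norm_num) (by norm_num) (by norm_num)) (exp_num' 9 (f := 0.8003) (by norm_num) (by norm_num) (by norm_num)) (by norm_num)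

private theorem farM1_c8 {b : ℕ} {h κ R t T s z : ℝ} (Q : QD 5.07 b h κ R t T s z) {β G0 G1 : ℝ} (hβ : β = κ / R)
    (h0 : 0.965 * sQ β κ (t - h) ≤ G0) (h1 : 0 ≤ G1) (h1' : G1 ≤ 1.035 * sQ β κ t)
    (dd0 : DomR κ (t - h)) (dd1 : DomR κ t) (hk1 : 0.7 ≤ κ) (hk2 : κ ≤ 0.85) (hlo' : 0.42 - sgm κ ≤ s) (hhi' : s ≤ 0.6 + sgm κ) :
    ‖Xf β R h t (-1)‖ * G0 ^ ((-1 : ℤ) - 1) * G1 ^ (-(-1 : ℤ)) ≤ 7 / 250 := by
  have hsg := sgm_num (κ := κ) (σ := 0.1354) Q.kpos.le hk2 (by norm_num) (by norm_num)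
  exact Q.boxM1 hβ h0 h1 h1' dd0 dd1 0.7 0.85 0.2846 0.7354 0.3353 0.3227 0.5845 1.1477 1.1048 1.4639 0 0.906 0.0101287 2.4 0.0000052 2.195 0.0000147 hk1 hk2 (by norm_num)
    (by linarith only [hlo', hsg]) (by linarith only [hhi', hsg]) (by norm_num) (by norm_num) (Or.inl ⟨by norm_num, by norm_num⟩) (by norm_num) (by norm_num) (by norm_num)
    (by norm_num) (by norm_num) (by norm_num) (by norm_num)
    (by
      have h2 := DR_ge dd1 (by have := Q.ht; have h3 : t + κ = s * h := (by rw [this]; ring); rw [h3]; exact mul_nonneg (by linarith only [hlo', hsg]) Q.h0.le) (by linarith only [hk2])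
      have h4 : ((0.7 : ℝ)) ^ 2 ≤ κ ^ 2 := pow_le_pow_left₀ (by norm_num) hk1 2
      unfold sD
      refine le_trans ?_ h2
      norm_num at h4 ⊢
      linarith only [h4])
    (by norm_num) (by norm_num) ((cub_lo Q.kpos.le hk2 (by norm_num)).trans (by norm_num)) (by norm_num) (by norm_num) (by norm_num) (by norm_num)
    (by norm_num) (by norm_num) (by norm_num) (by norm_num) (by norm_num) (by norm_num) (by norm_num) (by norm_num)
    (exp_num' 4 (f := 0.5934) (by norm_num) (by norm_num) (by norm_num)) (exp_num' 12 (f := 0.1679) (by norm_num) (by norm_num) (by norm_num)) (exp_num' 11 (f := 0.1286) (by norm_num) (by norm_num) (by norm_num)) (by norm_num)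

private theorem farM1_c9 {b : ℕ} {h κ R t T s z : ℝ} (Q : QD 5.07 b h κ R t T s z) {β G0 G1 : ℝ} (hβ : β = κ / R)
    (h0 : 0.965 * sQ β κ (t - h) ≤ G0) (h1 : 0 ≤ G1) (h1' : G1 ≤ 1.035 * sQ β κ t)
    (dd0 : DomR κ (t - h)) (dd1 : DomR κ t) (hk1 : 0.85 ≤ κ) (hk2 : κ ≤ 1) (hlo' : 0.42 - sgm κ ≤ s) (hhi' : s ≤ 0.6 + sgm κ) :
    ‖Xf β R h t (-1)‖ * G0 ^ ((-1 : ℤ) - 1) * G1 ^ (-(-1 : ℤ)) ≤ 7 / 250 := by
  have hsg := sgm_num (κ := κ) (σ := 0.1467) Q.kpos.le hk2 (by norm_num) (by norm_num)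
  exact Q.boxM1 hβ h0 h1 h1' dd0 dd1 0.85 1 0.2733 0.7467 0.2946 0.3334 0.5669 1.227 1.1456 1.3285 0 0.9224 0.0093311 2.859 0.0000006 2.673 0.0000014 hk1 hk2 (by norm_num)
    (by linarith only [hlo', hsg]) (by linarith only [hhi', hsg]) (by norm_num) (by norm_num) (Or.inl ⟨by norm_num, by norm_num⟩) (by norm_num) (by norm_num) (by norm_num)
    (by norm_num) (by norm_num) (by norm_num) (by norm_num)
    (by
      have h2 := DR_ge dd1 (by have := Q.ht; have h3 : t + κ = s * h := (by rw [this]; ring); rw [h3]; exact mul_nonneg (by linarith only [hlo', hsg]) Q.h0.le) (by linarith only [hk2])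
      have h4 : ((0.85 : ℝ)) ^ 2 ≤ κ ^ 2 := pow_le_pow_left₀ (by norm_num) hk1 2
      unfold sD
      refine le_trans ?_ h2
      norm_num at h4 ⊢
      linarith only [h4])
    (by norm_num) (by norm_num) ((cub_lo Q.kpos.le hk2 (by norm_num)).trans (by norm_num)) (by norm_num) (by norm_num) (by norm_num) (by norm_num)
    (by norm_num) (by norm_num) (by norm_num) (by norm_num) (by norm_num) (by norm_num) (by norm_num) (by norm_num)
    (exp_num' 4 (f := 0.6765) (by norm_num) (by norm_num) (by norm_num)) (exp_num' 14 (f := 0.4951) (by norm_num) (by norm_num) (by norm_num)) (exp_num' 13 (f := 0.5521) (by norm_num) (by norm_num) (by norm_num)) (by norm_num)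

private theorem farM1_c10 {b : ℕ} {h κ R t T s z : ℝ} (Q : QD 5.07 b h κ R t T s z) {β G0 G1 : ℝ} (hβ : β = κ / R)
    (h0 : 0.965 * sQ β κ (t - h) ≤ G0) (h1 : 0 ≤ G1) (h1' : G1 ≤ 1.035 * sQ β κ t)
    (dd0 : DomR κ (t - h)) (dd1 : DomR κ t) (hk1 : 1 ≤ κ) (hk2 : κ ≤ 1.25) (hlo' : 0.42 - sgm κ ≤ s) (hhi' : s ≤ 0.6 + sgm κ) :
    ‖Xf β R h t (-1)‖ * G0 ^ ((-1 : ℤ) - 1) * G1 ^ (-(-1 : ℤ)) ≤ 7 / 250 := by
  have hsg := sgm_num (κ := κ) (σ := 0.1673) Q.kpos.le hk2 (by norm_num) (by norm_num)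
  exact Q.boxM1 hβ h0 h1 h1' dd0 dd1 1 1.25 0.2527 0.7673 0.2609 0.3334 0.5544 1.3523 1.1892 1.2248 0 0.9333 0.0088392 3.387 0.0000001 3.234 0.0000001 hk1 hk2 (by norm_num)
    (by linarith only [hlo', hsg]) (by linarith only [hhi', hsg]) (by norm_num) (by norm_num) (Or.inl ⟨by norm_num, by norm_num⟩) (by norm_num) (by norm_num) (by norm_num)
    (by norm_num) (by norm_num) (by norm_num) (by norm_num)
    (by
      have h2 := D_ge_one dd1 (k1 := 1) (by norm_num) hk1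
      refine le_trans ?_ h2
      norm_num)
    (by norm_num) (by norm_num) ((cub_hi (by norm_num) hk1).trans (by norm_num)) (by norm_num) (by norm_num) (by norm_num) (by norm_num)
    (by norm_num) (by norm_num) (by norm_num) (by norm_num) (by norm_num) (by norm_num) (by norm_num) (by norm_num)
    (exp_num' 4 (f := 0.7318) (by norm_num) (by norm_num) (by norm_num)) (exp_num' 17 (f := 0.172) (by norm_num) (by norm_num) (by norm_num)) (exp_num' 16 (f := 0.3963) (by norm_num) (by norm_num) (by norm_num)) (by norm_num)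

private theorem farM1_c11 {b : ℕ} {h κ R t T s z : ℝ} (Q : QD 5.07 b h κ R t T s z) {β G0 G1 : ℝ} (hβ : β = κ / R)
    (h0 : 0.965 * sQ β κ (t - h) ≤ G0) (h1 : 0 ≤ G1) (h1' : G1 ≤ 1.035 * sQ β κ t)
    (dd0 : DomR κ (t - h)) (dd1 : DomR κ t) (hk1 : 1.25 ≤ κ) (hk2 : κ ≤ 1.5) (hlo' : 0.42 - sgm κ ≤ s) (hhi' : s ≤ 0.6 + sgm κ) :
    ‖Xf β R h t (-1)‖ * G0 ^ ((-1 : ℤ) - 1) * G1 ^ (-(-1 : ℤ)) ≤ 7 / 250 := by
  have hsg := sgm_num (κ := κ) (σ := 0.1895) Q.kpos.le hk2 (by norm_num) (by norm_num)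
  exact Q.boxM1 hβ h0 h1 h1' dd0 dd1 1.25 1.5 0.2305 0.7895 0.2097 0.2995 0.5337 1.4694 1.2446 1.0955 0.04 0.8925 0.0108415 4.489 0.0000001 4.374 0.0000001 hk1 hk2 (by norm_num)
    (by linarith only [hlo', hsg]) (by linarith only [hhi', hsg]) (by norm_num) (by norm_num) (Or.inr (by norm_num)) (by norm_num) (by norm_num) (by norm_num)
    (by norm_num) (by norm_num) (by norm_num) (by norm_num)
    (by
      have h2 := D_ge_one dd1 (k1 := 1.25) (by norm_num) hk1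
      refine le_trans ?_ h2
      norm_num)
    (by norm_num) (by norm_num) ((cub_hi (by norm_num) hk1).trans (by norm_num)) (by norm_num) (by norm_num) (by norm_num) (by norm_num)
    (by norm_num) (by norm_num) (by norm_num) (by norm_num) (by norm_num) (by norm_num) (by norm_num) (by norm_num)
    (exp_num' 4 (f := 0.5249) (by norm_num) (by norm_num) (by norm_num)) (exp_num' 22 (f := 0.7592) (by norm_num) (by norm_num) (by norm_num)) (exp_num' 22 (f := 0.1761) (by norm_num) (by norm_num) (by norm_num)) (by norm_num)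

/-- **ROW FARM1**: the copy `-1` on the discs, `κ ≥ 0.29` -/
theorem farM1 {b : ℕ} {h κ R t β G0 G1 : ℝ} (H : DP b h κ R t) (hκ : 0.29 ≤ κ) (hβ : β = κ / R)
    (h0 : 0.965 * sQ β κ (t - h) ≤ G0) (h1 : 0 ≤ G1) (h1' : G1 ≤ 1.035 * sQ β κ t) :
    ‖Xf β R h t (-1)‖ * G0 ^ ((-1 : ℤ) - 1) * G1 ^ (-(-1 : ℤ)) ≤ 7 / 250 := by
  obtain ⟨T, s, z, Q, hlo', hhi'⟩ := H.qd hκ
  have hs : sgm κ ≤ 0.1895 := sgm_num Q.kpos.le H.k1 (by norm_num) (by norm_num)
  have dd0 := Q.dom0 (by linarith) (by linarith)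
  have dd1 := Q.dom1 (by linarith) (by linarith)
  have hk1 := hκ
  rcases le_total κ 0.31 with hk2 | hk1
  · exact farM1_c1 Q hβ h0 h1 h1' dd0 dd1 hk1 hk2 hlo' hhi'
  rcases le_total κ 0.34 with hk2 | hk1
  · exact farM1_c2 Q hβ h0 h1 h1' dd0 dd1 hk1 hk2 hlo' hhi'
  rcases le_total κ 0.38 with hk2 | hk1
  · exact farM1_c3 Q hβ h0 h1 h1' dd0 dd1 hk1 hk2 hlo' hhi'
  rcases le_total κ 0.43 with hk2 | hk1
  · exact farM1_c4 Q hβ h0 h1 h1' dd0 dd1 hk1 hk2 hlo' hhi'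
  rcases le_total κ 0.5 with hk2 | hk1
  · exact farM1_c5 Q hβ h0 h1 h1' dd0 dd1 hk1 hk2 hlo' hhi'
  rcases le_total κ 0.6 with hk2 | hk1
  · exact farM1_c6 Q hβ h0 h1 h1' dd0 dd1 hk1 hk2 hlo' hhi'
  rcases le_total κ 0.7 with hk2 | hk1
  · exact farM1_c7 Q hβ h0 h1 h1' dd0 dd1 hk1 hk2 hlo' hhi'
  rcases le_total κ 0.85 with hk2 | hk1
  · exact farM1_c8 Q hβ h0 h1 h1' dd0 dd1 hk1 hk2 hlo' hhi'
  rcases le_total κ 1 with hk2 | hk1
  · exact farM1_c9 Q hβ h0 h1 h1' dd0 dd1 hk1 hk2 hlo' hhi'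
  rcases le_total κ 1.25 with hk2 | hk1
  · exact farM1_c10 Q hβ h0 h1 h1' dd0 dd1 hk1 hk2 hlo' hhi'
  exact farM1_c11 Q hβ h0 h1 h1' dd0 dd1 hk1 H.k1 hlo' hhi'

end Sok
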