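import Pool.Agent.Lib.MP_816dec_an.R1BigDefs

/-!
MP_816dec_an (A3, row R1, `b ≥ 9`): majorants of the copies `-1` and `2` on the outer segment.
-/

set_option autoImplicit false

namespace Sok

/-- majorant of the copy `-1` on the outer segment, `s = τ₁ / h` -/
noncomputable def e1 (s : ℝ) : ℝ := if s ≤ 0.2 then 0.002 else if s ≤ 0.5 then 0.04 else if s ≤ 0.85 then 0.08 else 0.1035

/-- majorant of the copy `2` on the outer segment, `s = τ₁ / h` -/
noncomputable def e2 (s : ℝ) : ℝ := if s ≤ 0.2 then 0.117 else if s ≤ 0.5 then 0.07 else if s ≤ 0.85 then 0.035 else 0.015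

end Sok
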