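import Pool.Agent.Lib.MP_816dec_an.R1Ineq4

/-!
MP_816dec_an (Sokal's function), row R1: tables for `sp`, uniform in `κ ≤ 1.53`.
-/

set_option autoImplicit false

open Set Filter Topology Real

namespace Sok

/-! ### right hand side, `c τ/(1+κ²) ≤ p`, `0 ≤ τ ≤ τm` -/

theorem pR_030 {κ t : ℝ} (h : DomR κ t) (hk : κ ≤ 1.53) (h0 : 0 ≤ t + κ) (h1 : t + κ ≤ 0.3) :
    0.874 * (t + κ) / (1 + κ ^ 2) ≤ sp κ t := by
  have hk0 := h.1
  rcases le_total κ 0.3 with b1 | a1
  · exact spR_ge_box h 0.874 0 (0.3 / (1 + 0.3 ^ 2)) 0.7349 0.0706 0.3 _ _ _ h0 h1 hk0.le (psi_lo hk0.le b1 (by norm_num))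
      (chi_box 0.3 0 0.3 0.7349 hk0.le hk0.le b1 (by norm_num) (by norm_num) (by norm_num) (by norm_num) (by norm_num))
      (mu_box 0.09 0 0.3 0.0706 hk0.le b1 (by norm_num) (by norm_num) (by norm_num) (by norm_num) (by norm_num) (by norm_num))
      (by norm_num) (by norm_num) (by norm_num) rfl (by norm_num) rfl rfl (by norm_num) (by norm_num)
  rcases le_total κ 0.65 with b2 | a2
  · exact spR_ge_box h 0.874 0.3 (0.65 / (1 + 0.65 ^ 2)) 0.8886 0.1572 0.3 _ _ _ h0 h1 a1 (psi_lo hk0.le b2 (by norm_num))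
      (chi_box 0.51 0.3 0.65 0.8886 hk0.le a1 b2 (by norm_num) (by norm_num) (by norm_num) (by norm_num) (by norm_num))
      (mu_box 0.422 0.3 0.65 0.1572 a1 b2 (by norm_num) (by norm_num) (by norm_num) (by norm_num) (by norm_num) (by norm_num))
      (by norm_num) (by norm_num) (by norm_num) rfl (by norm_num) rfl rfl (by norm_num) (by norm_num)
  rcases le_total κ 1 with b3 | a3
  · exact spR_ge_box h 0.874 0.65 (1 / (1 + 1 ^ 2)) 0.8281 0.1652 0.3 _ _ _ h0 h1 a2 (psi_lo hk0.le b3 (by norm_num))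
      (chi_box 0.65 0.65 1 0.8281 hk0.le a2 b3 (by norm_num) (by norm_num) (by norm_num) (by norm_num) (by norm_num))
      (mu_box 0.596 0.65 1 0.1652 a2 b3 (by norm_num) (by norm_num) (by norm_num) (by norm_num) (by norm_num) (by norm_num))
      (by norm_num) (by norm_num) (by norm_num) rfl (by norm_num) rfl rfl (by norm_num) (by norm_num)
  exact spR_ge_box h 0.874 1 (1 / (1 + 1 ^ 2)) 0.5001 0.1459 0.3 _ _ _ h0 h1 a3 (psi_hi a3 (by norm_num))
    (chi_box 1 1 1.53 0.5001 hk0.le a3 hk (by norm_num) (by norm_num) (by norm_num) (by norm_num) (by norm_num))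
    (mu_box 1 1 1.53 0.1459 a3 hk (by norm_num) (by norm_num) (by norm_num) (by norm_num) (by norm_num) (by norm_num))
    (by norm_num) (by norm_num) (by norm_num) rfl (by norm_num) rfl rfl (by norm_num) (by norm_num)

theorem pR_040 {κ t : ℝ} (h : DomR κ t) (hk : κ ≤ 1.53) (h0 : 0 ≤ t + κ) (h1 : t + κ ≤ 0.4) :
    0.835 * (t + κ) / (1 + κ ^ 2) ≤ sp κ t := by
  have hk0 := h.1
  rcases le_total κ 0.3 with b1 | a1
  · exact spR_ge_box h 0.835 0 (0.3 / (1 + 0.3 ^ 2)) 0.7349 0.0706 0.4 _ _ _ h0 h1 hk0.le (psi_lo hk0.le b1 (by norm_num))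
      (chi_box 0.3 0 0.3 0.7349 hk0.le hk0.le b1 (by norm_num) (by norm_num) (by norm_num) (by norm_num) (by norm_num))
      (mu_box 0.09 0 0.3 0.0706 hk0.le b1 (by norm_num) (by norm_num) (by norm_num) (by norm_num) (by norm_num) (by norm_num))
      (by norm_num) (by norm_num) (by norm_num) rfl (by norm_num) rfl rfl (by norm_num) (by norm_num)
  rcases le_total κ 0.65 with b2 | a2
  · exact spR_ge_box h 0.835 0.3 (0.65 / (1 + 0.65 ^ 2)) 0.8886 0.1572 0.4 _ _ _ h0 h1 a1 (psi_lo hk0.le b2 (by norm_num))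
      (chi_box 0.51 0.3 0.65 0.8886 hk0.le a1 b2 (by norm_num) (by norm_num) (by norm_num) (by norm_num) (by norm_num))
      (mu_box 0.422 0.3 0.65 0.1572 a1 b2 (by norm_num) (by norm_num) (by norm_num) (by norm_num) (by norm_num) (by norm_num))
      (by norm_num) (by norm_num) (by norm_num) rfl (by norm_num) rfl rfl (by norm_num) (by norm_num)
  rcases le_total κ 1 with b3 | a3
  · exact spR_ge_box h 0.835 0.65 (1 / (1 + 1 ^ 2)) 0.8281 0.1652 0.4 _ _ _ h0 h1 a2 (psi_lo hk0.le b3 (by norm_num))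
      (chi_box 0.65 0.65 1 0.8281 hk0.le a2 b3 (by norm_num) (by norm_num) (by norm_num) (by norm_num) (by norm_num))
      (mu_box 0.596 0.65 1 0.1652 a2 b3 (by norm_num) (by norm_num) (by norm_num) (by norm_num) (by norm_num) (by norm_num))
      (by norm_num) (by norm_num) (by norm_num) rfl (by norm_num) rfl rfl (by norm_num) (by norm_num)
  exact spR_ge_box h 0.835 1 (1 / (1 + 1 ^ 2)) 0.5001 0.1459 0.4 _ _ _ h0 h1 a3 (psi_hi a3 (by norm_num))
    (chi_box 1 1 1.53 0.5001 hk0.le a3 hk (by norm_num) (by norm_num) (by norm_num) (by norm_num) (by norm_num))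
    (mu_box 1 1 1.53 0.1459 a3 hk (by norm_num) (by norm_num) (by norm_num) (by norm_num) (by norm_num) (by norm_num))
    (by norm_num) (by norm_num) (by norm_num) rfl (by norm_num) rfl rfl (by norm_num) (by norm_num)

theorem pR_050 {κ t : ℝ} (h : DomR κ t) (hk : κ ≤ 1.53) (h0 : 0 ≤ t + κ) (h1 : t + κ ≤ 0.5) :
    0.797 * (t + κ) / (1 + κ ^ 2) ≤ sp κ t := by
  have hk0 := h.1
  rcases le_total κ 0.3 with b1 | a1
  · exact spR_ge_box h 0.797 0 (0.3 / (1 + 0.3 ^ 2)) 0.7349 0.0706 0.5 _ _ _ h0 h1 hk0.le (psi_lo hk0.le b1 (by norm_num))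
      (chi_box 0.3 0 0.3 0.7349 hk0.le hk0.le b1 (by norm_num) (by norm_num) (by norm_num) (by norm_num) (by norm_num))
      (mu_box 0.09 0 0.3 0.0706 hk0.le b1 (by norm_num) (by norm_num) (by norm_num) (by norm_num) (by norm_num) (by norm_num))
      (by norm_num) (by norm_num) (by norm_num) rfl (by norm_num) rfl rfl (by norm_num) (by norm_num)
  rcases le_total κ 0.65 with b2 | a2
  · exact spR_ge_box h 0.797 0.3 (0.65 / (1 + 0.65 ^ 2)) 0.8886 0.1572 0.5 _ _ _ h0 h1 a1 (psi_lo hk0.le b2 (by norm_num))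
      (chi_box 0.51 0.3 0.65 0.8886 hk0.le a1 b2 (by norm_num) (by norm_num) (by norm_num) (by norm_num) (by norm_num))
      (mu_box 0.422 0.3 0.65 0.1572 a1 b2 (by norm_num) (by norm_num) (by norm_num) (by norm_num) (by norm_num) (by norm_num))
      (by norm_num) (by norm_num) (by norm_num) rfl (by norm_num) rfl rfl (by norm_num) (by norm_num)
  rcases le_total κ 1 with b3 | a3
  · exact spR_ge_box h 0.797 0.65 (1 / (1 + 1 ^ 2)) 0.8281 0.1652 0.5 _ _ _ h0 h1 a2 (psi_lo hk0.le b3 (by norm_num))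
      (chi_box 0.65 0.65 1 0.8281 hk0.le a2 b3 (by norm_num) (by norm_num) (by norm_num) (by norm_num) (by norm_num))
      (mu_box 0.596 0.65 1 0.1652 a2 b3 (by norm_num) (by norm_num) (by norm_num) (by norm_num) (by norm_num) (by norm_num))
      (by norm_num) (by norm_num) (by norm_num) rfl (by norm_num) rfl rfl (by norm_num) (by norm_num)
  exact spR_ge_box h 0.797 1 (1 / (1 + 1 ^ 2)) 0.5001 0.1459 0.5 _ _ _ h0 h1 a3 (psi_hi a3 (by norm_num))
    (chi_box 1 1 1.53 0.5001 hk0.le a3 hk (by norm_num) (by norm_num) (by norm_num) (by norm_num) (by norm_num))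
    (mu_box 1 1 1.53 0.1459 a3 hk (by norm_num) (by norm_num) (by norm_num) (by norm_num) (by norm_num) (by norm_num))
    (by norm_num) (by norm_num) (by norm_num) rfl (by norm_num) rfl rfl (by norm_num) (by norm_num)

theorem pR_060 {κ t : ℝ} (h : DomR κ t) (hk : κ ≤ 1.53) (h0 : 0 ≤ t + κ) (h1 : t + κ ≤ 0.6) :
    0.77 * (t + κ) / (1 + κ ^ 2) ≤ sp κ t := by
  have hk0 := h.1
  rcases le_total κ 0.15 with b1 | a1
  · exact spR_ge_box h 0.77 0 (0.15 / (1 + 0.15 ^ 2)) 0.4273 0.0212 0.6 _ _ _ h0 h1 hk0.le (psi_lo hk0.le b1 (by norm_num))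
      (chi_box 0.15 0 0.15 0.4273 hk0.le hk0.le b1 (by norm_num) (by norm_num) (by norm_num) (by norm_num) (by norm_num))
      (mu_box 0.022 0 0.15 0.0212 hk0.le b1 (by norm_num) (by norm_num) (by norm_num) (by norm_num) (by norm_num) (by norm_num))
      (by norm_num) (by norm_num) (by norm_num) rfl (by norm_num) rfl rfl (by norm_num) (by norm_num)
  rcases le_total κ 0.3 with b2 | a2
  · exact spR_ge_box h 0.77 0.15 (0.3 / (1 + 0.3 ^ 2)) 0.7349 0.0706 0.6 _ _ _ h0 h1 a1 (psi_lo hk0.le b2 (by norm_num))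
      (chi_box 0.3 0.15 0.3 0.7349 hk0.le a1 b2 (by norm_num) (by norm_num) (by norm_num) (by norm_num) (by norm_num))
      (mu_box 0.09 0.15 0.3 0.0706 a1 b2 (by norm_num) (by norm_num) (by norm_num) (by norm_num) (by norm_num) (by norm_num))
      (by norm_num) (by norm_num) (by norm_num) rfl (by norm_num) rfl rfl (by norm_num) (by norm_num)
  rcases le_total κ 0.45 with b3 | a3
  · exact spR_ge_box h 0.77 0.3 (0.45 / (1 + 0.45 ^ 2)) 0.8707 0.1205 0.6 _ _ _ h0 h1 a2 (psi_lo hk0.le b3 (by norm_num))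
      (chi_box 0.45 0.3 0.45 0.8707 hk0.le a2 b3 (by norm_num) (by norm_num) (by norm_num) (by norm_num) (by norm_num))
      (mu_box 0.203 0.3 0.45 0.1205 a2 b3 (by norm_num) (by norm_num) (by norm_num) (by norm_num) (by norm_num) (by norm_num))
      (by norm_num) (by norm_num) (by norm_num) rfl (by norm_num) rfl rfl (by norm_num) (by norm_num)
  rcases le_total κ 0.65 with b4 | a4
  · exact spR_ge_box h 0.77 0.45 (0.65 / (1 + 0.65 ^ 2)) 0.8819 0.1572 0.6 _ _ _ h0 h1 a3 (psi_lo hk0.le b4 (by norm_num))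
      (chi_box 0.51 0.45 0.65 0.8819 hk0.le a3 b4 (by norm_num) (by norm_num) (by norm_num) (by norm_num) (by norm_num))
      (mu_box 0.423 0.45 0.65 0.1572 a3 b4 (by norm_num) (by norm_num) (by norm_num) (by norm_num) (by norm_num) (by norm_num))
      (by norm_num) (by norm_num) (by norm_num) rfl (by norm_num) rfl rfl (by norm_num) (by norm_num)
  rcases le_total κ 0.85 with b5 | a5
  · exact spR_ge_box h 0.77 0.65 (0.85 / (1 + 0.85 ^ 2)) 0.8281 0.163 0.6 _ _ _ h0 h1 a4 (psi_lo hk0.le b5 (by norm_num))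
      (chi_box 0.65 0.65 0.85 0.8281 hk0.le a4 b5 (by norm_num) (by norm_num) (by norm_num) (by norm_num) (by norm_num))
      (mu_box 0.573 0.65 0.85 0.163 a4 b5 (by norm_num) (by norm_num) (by norm_num) (by norm_num) (by norm_num) (by norm_num))
      (by norm_num) (by norm_num) (by norm_num) rfl (by norm_num) rfl rfl (by norm_num) (by norm_num)
  rcases le_total κ 1.1 with b6 | a6
  · exact spR_ge_box h 0.77 0.85 (1 / 2) 0.6526 0.1585 0.6 _ _ _ h0 h1 a5 psi_half
      (chi_box 0.85 0.85 1.1 0.6526 hk0.le a5 b6 (by norm_num) (by norm_num) (by norm_num) (by norm_num) (by norm_num))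
      (mu_box 0.722 0.85 1.1 0.1585 a5 b6 (by norm_num) (by norm_num) (by norm_num) (by norm_num) (by norm_num) (by norm_num))
      (by norm_num) (by norm_num) (by norm_num) rfl (by norm_num) rfl rfl (by norm_num) (by norm_num)
  exact spR_ge_box h 0.77 1.1 (1.1 / (1 + 1.1 ^ 2)) 0.4032 0.1348 0.6 _ _ _ h0 h1 a6 (psi_hi a6 (by norm_num))
    (chi_box 1.1 1.1 1.53 0.4032 hk0.le a6 hk (by norm_num) (by norm_num) (by norm_num) (by norm_num) (by norm_num))
    (mu_box 1.21 1.1 1.53 0.1348 a6 hk (by norm_num) (by norm_num) (by norm_num) (by norm_num) (by norm_num) (by norm_num))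
    (by norm_num) (by norm_num) (by norm_num) rfl (by norm_num) rfl rfl (by norm_num) (by norm_num)

theorem pR_070 {κ t : ℝ} (h : DomR κ t) (hk : κ ≤ 1.53) (h0 : 0 ≤ t + κ) (h1 : t + κ ≤ 0.7) :
    0.737 * (t + κ) / (1 + κ ^ 2) ≤ sp κ t := by
  have hk0 := h.1
  rcases le_total κ 0.15 with b1 | a1
  · exact spR_ge_box h 0.737 0 (0.15 / (1 + 0.15 ^ 2)) 0.4273 0.0212 0.7 _ _ _ h0 h1 hk0.le (psi_lo hk0.le b1 (by norm_num))
      (chi_box 0.15 0 0.15 0.4273 hk0.le hk0.le b1 (by norm_num) (by norm_num) (by norm_num) (by norm_num) (by norm_num))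
      (mu_box 0.022 0 0.15 0.0212 hk0.le b1 (by norm_num) (by norm_num) (by norm_num) (by norm_num) (by norm_num) (by norm_num))
      (by norm_num) (by norm_num) (by norm_num) rfl (by norm_num) rfl rfl (by norm_num) (by norm_num)
  rcases le_total κ 0.3 with b2 | a2
  · exact spR_ge_box h 0.737 0.15 (0.3 / (1 + 0.3 ^ 2)) 0.7349 0.0706 0.7 _ _ _ h0 h1 a1 (psi_lo hk0.le b2 (by norm_num))
      (chi_box 0.3 0.15 0.3 0.7349 hk0.le a1 b2 (by norm_num) (by norm_num) (by norm_num) (by norm_num) (by norm_num))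
      (mu_box 0.09 0.15 0.3 0.0706 a1 b2 (by norm_num) (by norm_num) (by norm_num) (by norm_num) (by norm_num) (by norm_num))
      (by norm_num) (by norm_num) (by norm_num) rfl (by norm_num) rfl rfl (by norm_num) (by norm_num)
  rcases le_total κ 0.45 with b3 | a3
  · exact spR_ge_box h 0.737 0.3 (0.45 / (1 + 0.45 ^ 2)) 0.8707 0.1205 0.7 _ _ _ h0 h1 a2 (psi_lo hk0.le b3 (by norm_num))
      (chi_box 0.45 0.3 0.45 0.8707 hk0.le a2 b3 (by norm_num) (by norm_num) (by norm_num) (by norm_num) (by norm_num))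
      (mu_box 0.203 0.3 0.45 0.1205 a2 b3 (by norm_num) (by norm_num) (by norm_num) (by norm_num) (by norm_num) (by norm_num))
      (by norm_num) (by norm_num) (by norm_num) rfl (by norm_num) rfl rfl (by norm_num) (by norm_num)
  rcases le_total κ 0.65 with b4 | a4
  · exact spR_ge_box h 0.737 0.45 (0.65 / (1 + 0.65 ^ 2)) 0.8819 0.1572 0.7 _ _ _ h0 h1 a3 (psi_lo hk0.le b4 (by norm_num))
      (chi_box 0.51 0.45 0.65 0.8819 hk0.le a3 b4 (by norm_num) (by norm_num) (by norm_num) (by norm_num) (by norm_num))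
      (mu_box 0.423 0.45 0.65 0.1572 a3 b4 (by norm_num) (by norm_num) (by norm_num) (by norm_num) (by norm_num) (by norm_num))
      (by norm_num) (by norm_num) (by norm_num) rfl (by norm_num) rfl rfl (by norm_num) (by norm_num)
  rcases le_total κ 0.85 with b5 | a5
  · exact spR_ge_box h 0.737 0.65 (0.85 / (1 + 0.85 ^ 2)) 0.8281 0.163 0.7 _ _ _ h0 h1 a4 (psi_lo hk0.le b5 (by norm_num))
      (chi_box 0.65 0.65 0.85 0.8281 hk0.le a4 b5 (by norm_num) (by norm_num) (by norm_num) (by norm_num) (by norm_num))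
      (mu_box 0.573 0.65 0.85 0.163 a4 b5 (by norm_num) (by norm_num) (by norm_num) (by norm_num) (by norm_num) (by norm_num))
      (by norm_num) (by norm_num) (by norm_num) rfl (by norm_num) rfl rfl (by norm_num) (by norm_num)
  rcases le_total κ 1.1 with b6 | a6
  · exact spR_ge_box h 0.737 0.85 (1 / 2) 0.6526 0.1585 0.7 _ _ _ h0 h1 a5 psi_half
      (chi_box 0.85 0.85 1.1 0.6526 hk0.le a5 b6 (by norm_num) (by norm_num) (by norm_num) (by norm_num) (by norm_num))
      (mu_box 0.722 0.85 1.1 0.1585 a5 b6 (by norm_num) (by norm_num) (by norm_num) (by norm_num) (by norm_num) (by norm_num))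
      (by norm_num) (by norm_num) (by norm_num) rfl (by norm_num) rfl rfl (by norm_num) (by norm_num)
  exact spR_ge_box h 0.737 1.1 (1.1 / (1 + 1.1 ^ 2)) 0.4032 0.1348 0.7 _ _ _ h0 h1 a6 (psi_hi a6 (by norm_num))
    (chi_box 1.1 1.1 1.53 0.4032 hk0.le a6 hk (by norm_num) (by norm_num) (by norm_num) (by norm_num) (by norm_num))
    (mu_box 1.21 1.1 1.53 0.1348 a6 hk (by norm_num) (by norm_num) (by norm_num) (by norm_num) (by norm_num) (by norm_num))
    (by norm_num) (by norm_num) (by norm_num) rfl (by norm_num) rfl rfl (by norm_num) (by norm_num)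

theorem pR_080 {κ t : ℝ} (h : DomR κ t) (hk : κ ≤ 1.53) (h0 : 0 ≤ t + κ) (h1 : t + κ ≤ 0.8) :
    0.705 * (t + κ) / (1 + κ ^ 2) ≤ sp κ t := by
  have hk0 := h.1
  rcases le_total κ 0.15 with b1 | a1
  · exact spR_ge_box h 0.705 0 (0.15 / (1 + 0.15 ^ 2)) 0.4273 0.0212 0.8 _ _ _ h0 h1 hk0.le (psi_lo hk0.le b1 (by norm_num))
      (chi_box 0.15 0 0.15 0.4273 hk0.le hk0.le b1 (by norm_num) (by norm_num) (by norm_num) (by norm_num) (by norm_num))
      (mu_box 0.022 0 0.15 0.0212 hk0.le b1 (by norm_num) (by norm_num) (by norm_num) (by norm_num) (by norm_num) (by norm_num))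
      (by norm_num) (by norm_num) (by norm_num) rfl (by norm_num) rfl rfl (by norm_num) (by norm_num)
  rcases le_total κ 0.3 with b2 | a2
  · exact spR_ge_box h 0.705 0.15 (0.3 / (1 + 0.3 ^ 2)) 0.7349 0.0706 0.8 _ _ _ h0 h1 a1 (psi_lo hk0.le b2 (by norm_num))
      (chi_box 0.3 0.15 0.3 0.7349 hk0.le a1 b2 (by norm_num) (by norm_num) (by norm_num) (by norm_num) (by norm_num))
      (mu_box 0.09 0.15 0.3 0.0706 a1 b2 (by norm_num) (by norm_num) (by norm_num) (by norm_num) (by norm_num) (by norm_num))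
      (by norm_num) (by norm_num) (by norm_num) rfl (by norm_num) rfl rfl (by norm_num) (by norm_num)
  rcases le_total κ 0.45 with b3 | a3
  · exact spR_ge_box h 0.705 0.3 (0.45 / (1 + 0.45 ^ 2)) 0.8707 0.1205 0.8 _ _ _ h0 h1 a2 (psi_lo hk0.le b3 (by norm_num))
      (chi_box 0.45 0.3 0.45 0.8707 hk0.le a2 b3 (by norm_num) (by norm_num) (by norm_num) (by norm_num) (by norm_num))
      (mu_box 0.203 0.3 0.45 0.1205 a2 b3 (by norm_num) (by norm_num) (by norm_num) (by norm_num) (by norm_num) (by norm_num))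
      (by norm_num) (by norm_num) (by norm_num) rfl (by norm_num) rfl rfl (by norm_num) (by norm_num)
  rcases le_total κ 0.65 with b4 | a4
  · exact spR_ge_box h 0.705 0.45 (0.65 / (1 + 0.65 ^ 2)) 0.8819 0.1572 0.8 _ _ _ h0 h1 a3 (psi_lo hk0.le b4 (by norm_num))
      (chi_box 0.51 0.45 0.65 0.8819 hk0.le a3 b4 (by norm_num) (by norm_num) (by norm_num) (by norm_num) (by norm_num))
      (mu_box 0.423 0.45 0.65 0.1572 a3 b4 (by norm_num) (by norm_num) (by norm_num) (by norm_num) (by norm_num) (by norm_num))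
      (by norm_num) (by norm_num) (by norm_num) rfl (by norm_num) rfl rfl (by norm_num) (by norm_num)
  rcases le_total κ 0.85 with b5 | a5
  · exact spR_ge_box h 0.705 0.65 (0.85 / (1 + 0.85 ^ 2)) 0.8281 0.163 0.8 _ _ _ h0 h1 a4 (psi_lo hk0.le b5 (by norm_num))
      (chi_box 0.65 0.65 0.85 0.8281 hk0.le a4 b5 (by norm_num) (by norm_num) (by norm_num) (by norm_num) (by norm_num))
      (mu_box 0.573 0.65 0.85 0.163 a4 b5 (by norm_num) (by norm_num) (by norm_num) (by norm_num) (by norm_num) (by norm_num))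
      (by norm_num) (by norm_num) (by norm_num) rfl (by norm_num) rfl rfl (by norm_num) (by norm_num)
  rcases le_total κ 1.1 with b6 | a6
  · exact spR_ge_box h 0.705 0.85 (1 / 2) 0.6526 0.1585 0.8 _ _ _ h0 h1 a5 psi_half
      (chi_box 0.85 0.85 1.1 0.6526 hk0.le a5 b6 (by norm_num) (by norm_num) (by norm_num) (by norm_num) (by norm_num))
      (mu_box 0.722 0.85 1.1 0.1585 a5 b6 (by norm_num) (by norm_num) (by norm_num) (by norm_num) (by norm_num) (by norm_num))
      (by norm_num) (by norm_num) (by norm_num) rfl (by norm_num) rfl rfl (by norm_num) (by norm_num)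
  exact spR_ge_box h 0.705 1.1 (1.1 / (1 + 1.1 ^ 2)) 0.4032 0.1348 0.8 _ _ _ h0 h1 a6 (psi_hi a6 (by norm_num))
    (chi_box 1.1 1.1 1.53 0.4032 hk0.le a6 hk (by norm_num) (by norm_num) (by norm_num) (by norm_num) (by norm_num))
    (mu_box 1.21 1.1 1.53 0.1348 a6 hk (by norm_num) (by norm_num) (by norm_num) (by norm_num) (by norm_num) (by norm_num))
    (by norm_num) (by norm_num) (by norm_num) rfl (by norm_num) rfl rfl (by norm_num) (by norm_num)

theorem pR_090 {κ t : ℝ} (h : DomR κ t) (hk : κ ≤ 1.53) (h0 : 0 ≤ t + κ) (h1 : t + κ ≤ 0.9) :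
    0.675 * (t + κ) / (1 + κ ^ 2) ≤ sp κ t := by
  have hk0 := h.1
  rcases le_total κ 0.15 with b1 | a1
  · exact spR_ge_box h 0.675 0 (0.15 / (1 + 0.15 ^ 2)) 0.4273 0.0212 0.9 _ _ _ h0 h1 hk0.le (psi_lo hk0.le b1 (by norm_num))
      (chi_box 0.15 0 0.15 0.4273 hk0.le hk0.le b1 (by norm_num) (by norm_num) (by norm_num) (by norm_num) (by norm_num))
      (mu_box 0.022 0 0.15 0.0212 hk0.le b1 (by norm_num) (by norm_num) (by norm_num) (by norm_num) (by norm_num) (by norm_num))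
      (by norm_num) (by norm_num) (by norm_num) rfl (by norm_num) rfl rfl (by norm_num) (by norm_num)
  rcases le_total κ 0.3 with b2 | a2
  · exact spR_ge_box h 0.675 0.15 (0.3 / (1 + 0.3 ^ 2)) 0.7349 0.0706 0.9 _ _ _ h0 h1 a1 (psi_lo hk0.le b2 (by norm_num))
      (chi_box 0.3 0.15 0.3 0.7349 hk0.le a1 b2 (by norm_num) (by norm_num) (by norm_num) (by norm_num) (by norm_num))
      (mu_box 0.09 0.15 0.3 0.0706 a1 b2 (by norm_num) (by norm_num) (by norm_num) (by norm_num) (by norm_num) (by norm_num))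
      (by norm_num) (by norm_num) (by norm_num) rfl (by norm_num) rfl rfl (by norm_num) (by norm_num)
  rcases le_total κ 0.45 with b3 | a3
  · exact spR_ge_box h 0.675 0.3 (0.45 / (1 + 0.45 ^ 2)) 0.8707 0.1205 0.9 _ _ _ h0 h1 a2 (psi_lo hk0.le b3 (by norm_num))
      (chi_box 0.45 0.3 0.45 0.8707 hk0.le a2 b3 (by norm_num) (by norm_num) (by norm_num) (by norm_num) (by norm_num))
      (mu_box 0.203 0.3 0.45 0.1205 a2 b3 (by norm_num) (by norm_num) (by norm_num) (by norm_num) (by norm_num) (by norm_num))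
      (by norm_num) (by norm_num) (by norm_num) rfl (by norm_num) rfl rfl (by norm_num) (by norm_num)
  rcases le_total κ 0.65 with b4 | a4
  · exact spR_ge_box h 0.675 0.45 (0.65 / (1 + 0.65 ^ 2)) 0.8819 0.1572 0.9 _ _ _ h0 h1 a3 (psi_lo hk0.le b4 (by norm_num))
      (chi_box 0.51 0.45 0.65 0.8819 hk0.le a3 b4 (by norm_num) (by norm_num) (by norm_num) (by norm_num) (by norm_num))
      (mu_box 0.423 0.45 0.65 0.1572 a3 b4 (by norm_num) (by norm_num) (by norm_num) (by norm_num) (by norm_num) (by norm_num))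
      (by norm_num) (by norm_num) (by norm_num) rfl (by norm_num) rfl rfl (by norm_num) (by norm_num)
  rcases le_total κ 0.85 with b5 | a5
  · exact spR_ge_box h 0.675 0.65 (0.85 / (1 + 0.85 ^ 2)) 0.8281 0.163 0.9 _ _ _ h0 h1 a4 (psi_lo hk0.le b5 (by norm_num))
      (chi_box 0.65 0.65 0.85 0.8281 hk0.le a4 b5 (by norm_num) (by norm_num) (by norm_num) (by norm_num) (by norm_num))
      (mu_box 0.573 0.65 0.85 0.163 a4 b5 (by norm_num) (by norm_num) (by norm_num) (by norm_num) (by norm_num) (by norm_num))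
      (by norm_num) (by norm_num) (by norm_num) rfl (by norm_num) rfl rfl (by norm_num) (by norm_num)
  rcases le_total κ 1.1 with b6 | a6
  · exact spR_ge_box h 0.675 0.85 (1 / 2) 0.6526 0.1585 0.9 _ _ _ h0 h1 a5 psi_half
      (chi_box 0.85 0.85 1.1 0.6526 hk0.le a5 b6 (by norm_num) (by norm_num) (by norm_num) (by norm_num) (by norm_num))
      (mu_box 0.722 0.85 1.1 0.1585 a5 b6 (by norm_num) (by norm_num) (by norm_num) (by norm_num) (by norm_num) (by norm_num))
      (by norm_num) (by norm_num) (by norm_num) rfl (by norm_num) rfl rfl (by norm_num) (by norm_num)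
  exact spR_ge_box h 0.675 1.1 (1.1 / (1 + 1.1 ^ 2)) 0.4032 0.1348 0.9 _ _ _ h0 h1 a6 (psi_hi a6 (by norm_num))
    (chi_box 1.1 1.1 1.53 0.4032 hk0.le a6 hk (by norm_num) (by norm_num) (by norm_num) (by norm_num) (by norm_num))
    (mu_box 1.21 1.1 1.53 0.1348 a6 hk (by norm_num) (by norm_num) (by norm_num) (by norm_num) (by norm_num) (by norm_num))
    (by norm_num) (by norm_num) (by norm_num) rfl (by norm_num) rfl rfl (by norm_num) (by norm_num)

theorem pR_100 {κ t : ℝ} (h : DomR κ t) (hk : κ ≤ 1.53) (h0 : 0 ≤ t + κ) (h1 : t + κ ≤ 1) :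
    0.646 * (t + κ) / (1 + κ ^ 2) ≤ sp κ t := by
  have hk0 := h.1
  rcases le_total κ 0.15 with b1 | a1
  · exact spR_ge_box h 0.646 0 (0.15 / (1 + 0.15 ^ 2)) 0.4273 0.0212 1 _ _ _ h0 h1 hk0.le (psi_lo hk0.le b1 (by norm_num))
      (chi_box 0.15 0 0.15 0.4273 hk0.le hk0.le b1 (by norm_num) (by norm_num) (by norm_num) (by norm_num) (by norm_num))
      (mu_box 0.022 0 0.15 0.0212 hk0.le b1 (by norm_num) (by norm_num) (by norm_num) (by norm_num) (by norm_num) (by norm_num))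
      (by norm_num) (by norm_num) (by norm_num) rfl (by norm_num) rfl rfl (by norm_num) (by norm_num)
  rcases le_total κ 0.3 with b2 | a2
  · exact spR_ge_box h 0.646 0.15 (0.3 / (1 + 0.3 ^ 2)) 0.7349 0.0706 1 _ _ _ h0 h1 a1 (psi_lo hk0.le b2 (by norm_num))
      (chi_box 0.3 0.15 0.3 0.7349 hk0.le a1 b2 (by norm_num) (by norm_num) (by norm_num) (by norm_num) (by norm_num))
      (mu_box 0.09 0.15 0.3 0.0706 a1 b2 (by norm_num) (by norm_num) (by norm_num) (by norm_num) (by norm_num) (by norm_num))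
      (by norm_num) (by norm_num) (by norm_num) rfl (by norm_num) rfl rfl (by norm_num) (by norm_num)
  rcases le_total κ 0.45 with b3 | a3
  · exact spR_ge_box h 0.646 0.3 (0.45 / (1 + 0.45 ^ 2)) 0.8707 0.1205 1 _ _ _ h0 h1 a2 (psi_lo hk0.le b3 (by norm_num))
      (chi_box 0.45 0.3 0.45 0.8707 hk0.le a2 b3 (by norm_num) (by norm_num) (by norm_num) (by norm_num) (by norm_num))
      (mu_box 0.203 0.3 0.45 0.1205 a2 b3 (by norm_num) (by norm_num) (by norm_num) (by norm_num) (by norm_num) (by norm_num))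
      (by norm_num) (by norm_num) (by norm_num) rfl (by norm_num) rfl rfl (by norm_num) (by norm_num)
  rcases le_total κ 0.65 with b4 | a4
  · exact spR_ge_box h 0.646 0.45 (0.65 / (1 + 0.65 ^ 2)) 0.8819 0.1572 1 _ _ _ h0 h1 a3 (psi_lo hk0.le b4 (by norm_num))
      (chi_box 0.51 0.45 0.65 0.8819 hk0.le a3 b4 (by norm_num) (by norm_num) (by norm_num) (by norm_num) (by norm_num))
      (mu_box 0.423 0.45 0.65 0.1572 a3 b4 (by norm_num) (by norm_num) (by norm_num) (by norm_num) (by norm_num) (by norm_num))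
      (by norm_num) (by norm_num) (by norm_num) rfl (by norm_num) rfl rfl (by norm_num) (by norm_num)
  rcases le_total κ 0.85 with b5 | a5
  · exact spR_ge_box h 0.646 0.65 (0.85 / (1 + 0.85 ^ 2)) 0.8281 0.163 1 _ _ _ h0 h1 a4 (psi_lo hk0.le b5 (by norm_num))
      (chi_box 0.65 0.65 0.85 0.8281 hk0.le a4 b5 (by norm_num) (by norm_num) (by norm_num) (by norm_num) (by norm_num))
      (mu_box 0.573 0.65 0.85 0.163 a4 b5 (by norm_num) (by norm_num) (by norm_num) (by norm_num) (by norm_num) (by norm_num))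
      (by norm_num) (by norm_num) (by norm_num) rfl (by norm_num) rfl rfl (by norm_num) (by norm_num)
  rcases le_total κ 1.1 with b6 | a6
  · exact spR_ge_box h 0.646 0.85 (1 / 2) 0.6526 0.1585 1 _ _ _ h0 h1 a5 psi_half
      (chi_box 0.85 0.85 1.1 0.6526 hk0.le a5 b6 (by norm_num) (by norm_num) (by norm_num) (by norm_num) (by norm_num))
      (mu_box 0.722 0.85 1.1 0.1585 a5 b6 (by norm_num) (by norm_num) (by norm_num) (by norm_num) (by norm_num) (by norm_num))
      (by norm_num) (by norm_num) (by norm_num) rfl (by norm_num) rfl rfl (by norm_num) (by norm_num)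
  exact spR_ge_box h 0.646 1.1 (1.1 / (1 + 1.1 ^ 2)) 0.4032 0.1348 1 _ _ _ h0 h1 a6 (psi_hi a6 (by norm_num))
    (chi_box 1.1 1.1 1.53 0.4032 hk0.le a6 hk (by norm_num) (by norm_num) (by norm_num) (by norm_num) (by norm_num))
    (mu_box 1.21 1.1 1.53 0.1348 a6 hk (by norm_num) (by norm_num) (by norm_num) (by norm_num) (by norm_num) (by norm_num))
    (by norm_num) (by norm_num) (by norm_num) rfl (by norm_num) rfl rfl (by norm_num) (by norm_num)

theorem pR_110 {κ t : ℝ} (h : DomR κ t) (hk : κ ≤ 1.53) (h0 : 0 ≤ t + κ) (h1 : t + κ ≤ 1.1) :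
    0.615 * (t + κ) / (1 + κ ^ 2) ≤ sp κ t := by
  have hk0 := h.1
  rcases le_total κ 0.15 with b1 | a1
  · exact spR_ge_box h 0.615 0 (0.15 / (1 + 0.15 ^ 2)) 0.4273 0.0212 1.1 _ _ _ h0 h1 hk0.le (psi_lo hk0.le b1 (by norm_num))
      (chi_box 0.15 0 0.15 0.4273 hk0.le hk0.le b1 (by norm_num) (by norm_num) (by norm_num) (by norm_num) (by norm_num))
      (mu_box 0.022 0 0.15 0.0212 hk0.le b1 (by norm_num) (by norm_num) (by norm_num) (by norm_num) (by norm_num) (by norm_num))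
      (by norm_num) (by norm_num) (by norm_num) rfl (by norm_num) rfl rfl (by norm_num) (by norm_num)
  rcases le_total κ 0.3 with b2 | a2
  · exact spR_ge_box h 0.615 0.15 (0.3 / (1 + 0.3 ^ 2)) 0.7349 0.0706 1.1 _ _ _ h0 h1 a1 (psi_lo hk0.le b2 (by norm_num))
      (chi_box 0.3 0.15 0.3 0.7349 hk0.le a1 b2 (by norm_num) (by norm_num) (by norm_num) (by norm_num) (by norm_num))
      (mu_box 0.09 0.15 0.3 0.0706 a1 b2 (by norm_num) (by norm_num) (by norm_num) (by norm_num) (by norm_num) (by norm_num))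
      (by norm_num) (by norm_num) (by norm_num) rfl (by norm_num) rfl rfl (by norm_num) (by norm_num)
  rcases le_total κ 0.45 with b3 | a3
  · exact spR_ge_box h 0.615 0.3 (0.45 / (1 + 0.45 ^ 2)) 0.8707 0.1205 1.1 _ _ _ h0 h1 a2 (psi_lo hk0.le b3 (by norm_num))
      (chi_box 0.45 0.3 0.45 0.8707 hk0.le a2 b3 (by norm_num) (by norm_num) (by norm_num) (by norm_num) (by norm_num))
      (mu_box 0.203 0.3 0.45 0.1205 a2 b3 (by norm_num) (by norm_num) (by norm_num) (by norm_num) (by norm_num) (by norm_num))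
      (by norm_num) (by norm_num) (by norm_num) rfl (by norm_num) rfl rfl (by norm_num) (by norm_num)
  rcases le_total κ 0.65 with b4 | a4
  · exact spR_ge_box h 0.615 0.45 (0.65 / (1 + 0.65 ^ 2)) 0.8819 0.1572 1.1 _ _ _ h0 h1 a3 (psi_lo hk0.le b4 (by norm_num))
      (chi_box 0.51 0.45 0.65 0.8819 hk0.le a3 b4 (by norm_num) (by norm_num) (by norm_num) (by norm_num) (by norm_num))
      (mu_box 0.423 0.45 0.65 0.1572 a3 b4 (by norm_num) (by norm_num) (by norm_num) (by norm_num) (by norm_num) (by norm_num))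
      (by norm_num) (by norm_num) (by norm_num) rfl (by norm_num) rfl rfl (by norm_num) (by norm_num)
  rcases le_total κ 0.85 with b5 | a5
  · exact spR_ge_box h 0.615 0.65 (0.85 / (1 + 0.85 ^ 2)) 0.8281 0.163 1.1 _ _ _ h0 h1 a4 (psi_lo hk0.le b5 (by norm_num))
      (chi_box 0.65 0.65 0.85 0.8281 hk0.le a4 b5 (by norm_num) (by norm_num) (by norm_num) (by norm_num) (by norm_num))
      (mu_box 0.573 0.65 0.85 0.163 a4 b5 (by norm_num) (by norm_num) (by norm_num) (by norm_num) (by norm_num) (by norm_num))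
      (by norm_num) (by norm_num) (by norm_num) rfl (by norm_num) rfl rfl (by norm_num) (by norm_num)
  rcases le_total κ 1.1 with b6 | a6
  · exact spR_ge_box h 0.615 0.85 (1 / 2) 0.6526 0.1585 1.1 _ _ _ h0 h1 a5 psi_half
      (chi_box 0.85 0.85 1.1 0.6526 hk0.le a5 b6 (by norm_num) (by norm_num) (by norm_num) (by norm_num) (by norm_num))
      (mu_box 0.722 0.85 1.1 0.1585 a5 b6 (by norm_num) (by norm_num) (by norm_num) (by norm_num) (by norm_num) (by norm_num))
      (by norm_num) (by norm_num) (by norm_num) rfl (by norm_num) rfl rfl (by norm_num) (by norm_num)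
  exact spR_ge_box h 0.615 1.1 (1.1 / (1 + 1.1 ^ 2)) 0.4032 0.1348 1.1 _ _ _ h0 h1 a6 (psi_hi a6 (by norm_num))
    (chi_box 1.1 1.1 1.53 0.4032 hk0.le a6 hk (by norm_num) (by norm_num) (by norm_num) (by norm_num) (by norm_num))
    (mu_box 1.21 1.1 1.53 0.1348 a6 hk (by norm_num) (by norm_num) (by norm_num) (by norm_num) (by norm_num) (by norm_num))
    (by norm_num) (by norm_num) (by norm_num) rfl (by norm_num) rfl rfl (by norm_num) (by norm_num)

theorem pR_120 {κ t : ℝ} (h : DomR κ t) (hk : κ ≤ 1.53) (h0 : 0 ≤ t + κ) (h1 : t + κ ≤ 1.2) :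
    0.563 * (t + κ) / (1 + κ ^ 2) ≤ sp κ t := by
  have hk0 := h.1
  rcases le_total κ 0.15 with b1 | a1
  · exact spR_ge_box h 0.563 0 (0.15 / (1 + 0.15 ^ 2)) 0.4273 0.0212 1.2 _ _ _ h0 h1 hk0.le (psi_lo hk0.le b1 (by norm_num))
      (chi_box 0.15 0 0.15 0.4273 hk0.le hk0.le b1 (by norm_num) (by norm_num) (by norm_num) (by norm_num) (by norm_num))
      (mu_box 0.022 0 0.15 0.0212 hk0.le b1 (by norm_num) (by norm_num) (by norm_num) (by norm_num) (by norm_num) (by norm_num))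
      (by norm_num) (by norm_num) (by norm_num) rfl (by norm_num) rfl rfl (by norm_num) (by norm_num)
  rcases le_total κ 0.3 with b2 | a2
  · exact spR_ge_box h 0.563 0.15 (0.3 / (1 + 0.3 ^ 2)) 0.7349 0.0706 1.2 _ _ _ h0 h1 a1 (psi_lo hk0.le b2 (by norm_num))
      (chi_box 0.3 0.15 0.3 0.7349 hk0.le a1 b2 (by norm_num) (by norm_num) (by norm_num) (by norm_num) (by norm_num))
      (mu_box 0.09 0.15 0.3 0.0706 a1 b2 (by norm_num) (by norm_num) (by norm_num) (by norm_num) (by norm_num) (by norm_num))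
      (by norm_num) (by norm_num) (by norm_num) rfl (by norm_num) rfl rfl (by norm_num) (by norm_num)
  rcases le_total κ 0.45 with b3 | a3
  · exact spR_ge_box h 0.563 0.3 (0.45 / (1 + 0.45 ^ 2)) 0.8707 0.1205 1.2 _ _ _ h0 h1 a2 (psi_lo hk0.le b3 (by norm_num))
      (chi_box 0.45 0.3 0.45 0.8707 hk0.le a2 b3 (by norm_num) (by norm_num) (by norm_num) (by norm_num) (by norm_num))
      (mu_box 0.203 0.3 0.45 0.1205 a2 b3 (by norm_num) (by norm_num) (by norm_num) (by norm_num) (by norm_num) (by norm_num))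
      (by norm_num) (by norm_num) (by norm_num) rfl (by norm_num) rfl rfl (by norm_num) (by norm_num)
  rcases le_total κ 0.65 with b4 | a4
  · exact spR_ge_box h 0.563 0.45 (0.65 / (1 + 0.65 ^ 2)) 0.8819 0.1572 1.2 _ _ _ h0 h1 a3 (psi_lo hk0.le b4 (by norm_num))
      (chi_box 0.51 0.45 0.65 0.8819 hk0.le a3 b4 (by norm_num) (by norm_num) (by norm_num) (by norm_num) (by norm_num))
      (mu_box 0.423 0.45 0.65 0.1572 a3 b4 (by norm_num) (by norm_num) (by norm_num) (by norm_num) (by norm_num) (by norm_num))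
      (by norm_num) (by norm_num) (by norm_num) rfl (by norm_num) rfl rfl (by norm_num) (by norm_num)
  rcases le_total κ 0.85 with b5 | a5
  · exact spR_ge_box h 0.563 0.65 (0.85 / (1 + 0.85 ^ 2)) 0.8281 0.163 1.2 _ _ _ h0 h1 a4 (psi_lo hk0.le b5 (by norm_num))
      (chi_box 0.65 0.65 0.85 0.8281 hk0.le a4 b5 (by norm_num) (by norm_num) (by norm_num) (by norm_num) (by norm_num))
      (mu_box 0.573 0.65 0.85 0.163 a4 b5 (by norm_num) (by norm_num) (by norm_num) (by norm_num) (by norm_num) (by norm_num))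
      (by norm_num) (by norm_num) (by norm_num) rfl (by norm_num) rfl rfl (by norm_num) (by norm_num)
  rcases le_total κ 1.1 with b6 | a6
  · exact spR_ge_box h 0.563 0.85 (1 / 2) 0.6526 0.1585 1.2 _ _ _ h0 h1 a5 psi_half
      (chi_box 0.85 0.85 1.1 0.6526 hk0.le a5 b6 (by norm_num) (by norm_num) (by norm_num) (by norm_num) (by norm_num))
      (mu_box 0.722 0.85 1.1 0.1585 a5 b6 (by norm_num) (by norm_num) (by norm_num) (by norm_num) (by norm_num) (by norm_num))
      (by norm_num) (by norm_num) (by norm_num) rfl (by norm_num) rfl rfl (by norm_num) (by norm_num)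
  exact spR_ge_box h 0.563 1.1 (1.1 / (1 + 1.1 ^ 2)) 0.4032 0.1348 1.2 _ _ _ h0 h1 a6 (psi_hi a6 (by norm_num))
    (chi_box 1.1 1.1 1.53 0.4032 hk0.le a6 hk (by norm_num) (by norm_num) (by norm_num) (by norm_num) (by norm_num))
    (mu_box 1.21 1.1 1.53 0.1348 a6 hk (by norm_num) (by norm_num) (by norm_num) (by norm_num) (by norm_num) (by norm_num))
    (by norm_num) (by norm_num) (by norm_num) rfl (by norm_num) rfl rfl (by norm_num) (by norm_num)

/-! ### left hand side, `c |τ|/(1+κ²) ≤ |p|` -/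

theorem pL_030 {κ t : ℝ} (h : DomR κ t) (hk : κ ≤ 1.53) (h0 : 0 ≤ -(t + κ)) (h1 : -(t + κ) ≤ 0.3) :
    sp κ t ≤ 0.984 * (t + κ) / (1 + κ ^ 2) := by
  have hk0 := h.1
  rcases le_total κ 0.5 with b1 | a1
  · exact spL_ge_box h 0.984 0 0.5 (0.5 / (1 + 0.5 ^ 2)) 0.3 _ _ h0 h1 hk0.le b1 (psi_lo hk0.le b1 (by norm_num))
      (by norm_num) (by norm_num) rfl (by norm_num) rfl (by norm_num) (by norm_num) (by norm_num)
  rcases le_total κ 1 with b2 | a2
  · exact spL_ge_box h 0.984 0.5 1 (1 / (1 + 1 ^ 2)) 0.3 _ _ h0 h1 a1 b2 (psi_lo hk0.le b2 (by norm_num))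
      (by norm_num) (by norm_num) rfl (by norm_num) rfl (by norm_num) (by norm_num) (by norm_num)
  rcases le_total κ 1.2 with b3 | a3
  · exact spL_ge_box h 0.984 1 1.2 (1 / (1 + 1 ^ 2)) 0.3 _ _ h0 h1 a2 b3 (psi_hi a2 (by norm_num))
      (by norm_num) (by norm_num) rfl (by norm_num) rfl (by norm_num) (by norm_num) (by norm_num)
  rcases le_total κ 1.3 with b4 | a4
  · exact spL_ge_box h 0.984 1.2 1.3 (1.2 / (1 + 1.2 ^ 2)) 0.3 _ _ h0 h1 a3 b4 (psi_hi a3 (by norm_num))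
      (by norm_num) (by norm_num) rfl (by norm_num) rfl (by norm_num) (by norm_num) (by norm_num)
  rcases le_total κ 1.39 with b5 | a5
  · exact spL_ge_box h 0.984 1.3 1.39 (1.3 / (1 + 1.3 ^ 2)) 0.3 _ _ h0 h1 a4 b5 (psi_hi a4 (by norm_num))
      (by norm_num) (by norm_num) rfl (by norm_num) rfl (by norm_num) (by norm_num) (by norm_num)
  rcases le_total κ 1.46 with b6 | a6
  · exact spL_ge_box h 0.984 1.39 1.46 (1.39 / (1 + 1.39 ^ 2)) 0.3 _ _ h0 h1 a5 b6 (psi_hi a5 (by norm_num))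
      (by norm_num) (by norm_num) rfl (by norm_num) rfl (by norm_num) (by norm_num) (by norm_num)
  exact spL_ge_box h 0.984 1.46 1.53 (1.46 / (1 + 1.46 ^ 2)) 0.3 _ _ h0 h1 a6 hk (psi_hi a6 (by norm_num))
    (by norm_num) (by norm_num) rfl (by norm_num) rfl (by norm_num) (by norm_num) (by norm_num)

theorem pL_040 {κ t : ℝ} (h : DomR κ t) (hk : κ ≤ 1.53) (h0 : 0 ≤ -(t + κ)) (h1 : -(t + κ) ≤ 0.4) :
    sp κ t ≤ 0.971 * (t + κ) / (1 + κ ^ 2) := by
  have hk0 := h.1
  rcases le_total κ 0.5 with b1 | a1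
  · exact spL_ge_box h 0.971 0 0.5 (0.5 / (1 + 0.5 ^ 2)) 0.4 _ _ h0 h1 hk0.le b1 (psi_lo hk0.le b1 (by norm_num))
      (by norm_num) (by norm_num) rfl (by norm_num) rfl (by norm_num) (by norm_num) (by norm_num)
  rcases le_total κ 1 with b2 | a2
  · exact spL_ge_box h 0.971 0.5 1 (1 / (1 + 1 ^ 2)) 0.4 _ _ h0 h1 a1 b2 (psi_lo hk0.le b2 (by norm_num))
      (by norm_num) (by norm_num) rfl (by norm_num) rfl (by norm_num) (by norm_num) (by norm_num)
  rcases le_total κ 1.2 with b3 | a3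
  · exact spL_ge_box h 0.971 1 1.2 (1 / (1 + 1 ^ 2)) 0.4 _ _ h0 h1 a2 b3 (psi_hi a2 (by norm_num))
      (by norm_num) (by norm_num) rfl (by norm_num) rfl (by norm_num) (by norm_num) (by norm_num)
  rcases le_total κ 1.3 with b4 | a4
  · exact spL_ge_box h 0.971 1.2 1.3 (1.2 / (1 + 1.2 ^ 2)) 0.4 _ _ h0 h1 a3 b4 (psi_hi a3 (by norm_num))
      (by norm_num) (by norm_num) rfl (by norm_num) rfl (by norm_num) (by norm_num) (by norm_num)
  rcases le_total κ 1.39 with b5 | a5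
  · exact spL_ge_box h 0.971 1.3 1.39 (1.3 / (1 + 1.3 ^ 2)) 0.4 _ _ h0 h1 a4 b5 (psi_hi a4 (by norm_num))
      (by norm_num) (by norm_num) rfl (by norm_num) rfl (by norm_num) (by norm_num) (by norm_num)
  rcases le_total κ 1.46 with b6 | a6
  · exact spL_ge_box h 0.971 1.39 1.46 (1.39 / (1 + 1.39 ^ 2)) 0.4 _ _ h0 h1 a5 b6 (psi_hi a5 (by norm_num))
      (by norm_num) (by norm_num) rfl (by norm_num) rfl (by norm_num) (by norm_num) (by norm_num)
  exact spL_ge_box h 0.971 1.46 1.53 (1.46 / (1 + 1.46 ^ 2)) 0.4 _ _ h0 h1 a6 hk (psi_hi a6 (by norm_num))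
    (by norm_num) (by norm_num) rfl (by norm_num) rfl (by norm_num) (by norm_num) (by norm_num)

theorem pL_050 {κ t : ℝ} (h : DomR κ t) (hk : κ ≤ 1.53) (h0 : 0 ≤ -(t + κ)) (h1 : -(t + κ) ≤ 0.5) :
    sp κ t ≤ 0.955 * (t + κ) / (1 + κ ^ 2) := by
  have hk0 := h.1
  rcases le_total κ 0.5 with b1 | a1
  · exact spL_ge_box h 0.955 0 0.5 (0.5 / (1 + 0.5 ^ 2)) 0.5 _ _ h0 h1 hk0.le b1 (psi_lo hk0.le b1 (by norm_num))
      (by norm_num) (by norm_num) rfl (by norm_num) rfl (by norm_num) (by norm_num) (by norm_num)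
  rcases le_total κ 1 with b2 | a2
  · exact spL_ge_box h 0.955 0.5 1 (1 / (1 + 1 ^ 2)) 0.5 _ _ h0 h1 a1 b2 (psi_lo hk0.le b2 (by norm_num))
      (by norm_num) (by norm_num) rfl (by norm_num) rfl (by norm_num) (by norm_num) (by norm_num)
  rcases le_total κ 1.2 with b3 | a3
  · exact spL_ge_box h 0.955 1 1.2 (1 / (1 + 1 ^ 2)) 0.5 _ _ h0 h1 a2 b3 (psi_hi a2 (by norm_num))
      (by norm_num) (by norm_num) rfl (by norm_num) rfl (by norm_num) (by norm_num) (by norm_num)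
  rcases le_total κ 1.3 with b4 | a4
  · exact spL_ge_box h 0.955 1.2 1.3 (1.2 / (1 + 1.2 ^ 2)) 0.5 _ _ h0 h1 a3 b4 (psi_hi a3 (by norm_num))
      (by norm_num) (by norm_num) rfl (by norm_num) rfl (by norm_num) (by norm_num) (by norm_num)
  rcases le_total κ 1.39 with b5 | a5
  · exact spL_ge_box h 0.955 1.3 1.39 (1.3 / (1 + 1.3 ^ 2)) 0.5 _ _ h0 h1 a4 b5 (psi_hi a4 (by norm_num))
      (by norm_num) (by norm_num) rfl (by norm_num) rfl (by norm_num) (by norm_num) (by norm_num)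
  rcases le_total κ 1.46 with b6 | a6
  · exact spL_ge_box h 0.955 1.39 1.46 (1.39 / (1 + 1.39 ^ 2)) 0.5 _ _ h0 h1 a5 b6 (psi_hi a5 (by norm_num))
      (by norm_num) (by norm_num) rfl (by norm_num) rfl (by norm_num) (by norm_num) (by norm_num)
  exact spL_ge_box h 0.955 1.46 1.53 (1.46 / (1 + 1.46 ^ 2)) 0.5 _ _ h0 h1 a6 hk (psi_hi a6 (by norm_num))
    (by norm_num) (by norm_num) rfl (by norm_num) rfl (by norm_num) (by norm_num) (by norm_num)

theorem pL_060 {κ t : ℝ} (h : DomR κ t) (hk : κ ≤ 1.39) (h0 : 0 ≤ -(t + κ)) (h1 : -(t + κ) ≤ 0.6) :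
    sp κ t ≤ 0.935 * (t + κ) / (1 + κ ^ 2) := by
  have hk0 := h.1
  rcases le_total κ 0.5 with b1 | a1
  · exact spL_ge_box h 0.935 0 0.5 (0.5 / (1 + 0.5 ^ 2)) 0.6 _ _ h0 h1 hk0.le b1 (psi_lo hk0.le b1 (by norm_num))
      (by norm_num) (by norm_num) rfl (by norm_num) rfl (by norm_num) (by norm_num) (by norm_num)
  rcases le_total κ 1 with b2 | a2
  · exact spL_ge_box h 0.935 0.5 1 (1 / (1 + 1 ^ 2)) 0.6 _ _ h0 h1 a1 b2 (psi_lo hk0.le b2 (by norm_num))
      (by norm_num) (by norm_num) rfl (by norm_num) rfl (by norm_num) (by norm_num) (by norm_num)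
  rcases le_total κ 1.2 with b3 | a3
  · exact spL_ge_box h 0.935 1 1.2 (1 / (1 + 1 ^ 2)) 0.6 _ _ h0 h1 a2 b3 (psi_hi a2 (by norm_num))
      (by norm_num) (by norm_num) rfl (by norm_num) rfl (by norm_num) (by norm_num) (by norm_num)
  rcases le_total κ 1.3 with b4 | a4
  · exact spL_ge_box h 0.935 1.2 1.3 (1.2 / (1 + 1.2 ^ 2)) 0.6 _ _ h0 h1 a3 b4 (psi_hi a3 (by norm_num))
      (by norm_num) (by norm_num) rfl (by norm_num) rfl (by norm_num) (by norm_num) (by norm_num)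
  exact spL_ge_box h 0.935 1.3 1.39 (1.3 / (1 + 1.3 ^ 2)) 0.6 _ _ h0 h1 a4 hk (psi_hi a4 (by norm_num))
    (by norm_num) (by norm_num) rfl (by norm_num) rfl (by norm_num) (by norm_num) (by norm_num)

theorem pL_070 {κ t : ℝ} (h : DomR κ t) (hk : κ ≤ 1.39) (h0 : 0 ≤ -(t + κ)) (h1 : -(t + κ) ≤ 0.7) :
    sp κ t ≤ 0.912 * (t + κ) / (1 + κ ^ 2) := by
  have hk0 := h.1
  rcases le_total κ 0.5 with b1 | a1
  · exact spL_ge_box h 0.912 0 0.5 (0.5 / (1 + 0.5 ^ 2)) 0.7 _ _ h0 h1 hk0.le b1 (psi_lo hk0.le b1 (by norm_num))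
      (by norm_num) (by norm_num) rfl (by norm_num) rfl (by norm_num) (by norm_num) (by norm_num)
  rcases le_total κ 1 with b2 | a2
  · exact spL_ge_box h 0.912 0.5 1 (1 / (1 + 1 ^ 2)) 0.7 _ _ h0 h1 a1 b2 (psi_lo hk0.le b2 (by norm_num))
      (by norm_num) (by norm_num) rfl (by norm_num) rfl (by norm_num) (by norm_num) (by norm_num)
  rcases le_total κ 1.2 with b3 | a3
  · exact spL_ge_box h 0.912 1 1.2 (1 / (1 + 1 ^ 2)) 0.7 _ _ h0 h1 a2 b3 (psi_hi a2 (by norm_num))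
      (by norm_num) (by norm_num) rfl (by norm_num) rfl (by norm_num) (by norm_num) (by norm_num)
  rcases le_total κ 1.3 with b4 | a4
  · exact spL_ge_box h 0.912 1.2 1.3 (1.2 / (1 + 1.2 ^ 2)) 0.7 _ _ h0 h1 a3 b4 (psi_hi a3 (by norm_num))
      (by norm_num) (by norm_num) rfl (by norm_num) rfl (by norm_num) (by norm_num) (by norm_num)
  exact spL_ge_box h 0.912 1.3 1.39 (1.3 / (1 + 1.3 ^ 2)) 0.7 _ _ h0 h1 a4 hk (psi_hi a4 (by norm_num))
    (by norm_num) (by norm_num) rfl (by norm_num) rfl (by norm_num) (by norm_num) (by norm_num)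

theorem pL_080 {κ t : ℝ} (h : DomR κ t) (hk : κ ≤ 1.39) (h0 : 0 ≤ -(t + κ)) (h1 : -(t + κ) ≤ 0.8) :
    sp κ t ≤ 0.887 * (t + κ) / (1 + κ ^ 2) := by
  have hk0 := h.1
  rcases le_total κ 0.5 with b1 | a1
  · exact spL_ge_box h 0.887 0 0.5 (0.5 / (1 + 0.5 ^ 2)) 0.8 _ _ h0 h1 hk0.le b1 (psi_lo hk0.le b1 (by norm_num))
      (by norm_num) (by norm_num) rfl (by norm_num) rfl (by norm_num) (by norm_num) (by norm_num)
  rcases le_total κ 1 with b2 | a2
  · exact spL_ge_box h 0.887 0.5 1 (1 / (1 + 1 ^ 2)) 0.8 _ _ h0 h1 a1 b2 (psi_lo hk0.le b2 (by norm_num))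
      (by norm_num) (by norm_num) rfl (by norm_num) rfl (by norm_num) (by norm_num) (by norm_num)
  rcases le_total κ 1.2 with b3 | a3
  · exact spL_ge_box h 0.887 1 1.2 (1 / (1 + 1 ^ 2)) 0.8 _ _ h0 h1 a2 b3 (psi_hi a2 (by norm_num))
      (by norm_num) (by norm_num) rfl (by norm_num) rfl (by norm_num) (by norm_num) (by norm_num)
  rcases le_total κ 1.3 with b4 | a4
  · exact spL_ge_box h 0.887 1.2 1.3 (1.2 / (1 + 1.2 ^ 2)) 0.8 _ _ h0 h1 a3 b4 (psi_hi a3 (by norm_num))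
      (by norm_num) (by norm_num) rfl (by norm_num) rfl (by norm_num) (by norm_num) (by norm_num)
  exact spL_ge_box h 0.887 1.3 1.39 (1.3 / (1 + 1.3 ^ 2)) 0.8 _ _ h0 h1 a4 hk (psi_hi a4 (by norm_num))
    (by norm_num) (by norm_num) rfl (by norm_num) rfl (by norm_num) (by norm_num) (by norm_num)

theorem pL_090 {κ t : ℝ} (h : DomR κ t) (hk : κ ≤ 1.3) (h0 : 0 ≤ -(t + κ)) (h1 : -(t + κ) ≤ 0.9) :
    sp κ t ≤ 0.861 * (t + κ) / (1 + κ ^ 2) := by
  have hk0 := h.1
  rcases le_total κ 0.5 with b1 | a1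
  · exact spL_ge_box h 0.861 0 0.5 (0.5 / (1 + 0.5 ^ 2)) 0.9 _ _ h0 h1 hk0.le b1 (psi_lo hk0.le b1 (by norm_num))
      (by norm_num) (by norm_num) rfl (by norm_num) rfl (by norm_num) (by norm_num) (by norm_num)
  rcases le_total κ 1 with b2 | a2
  · exact spL_ge_box h 0.861 0.5 1 (1 / (1 + 1 ^ 2)) 0.9 _ _ h0 h1 a1 b2 (psi_lo hk0.le b2 (by norm_num))
      (by norm_num) (by norm_num) rfl (by norm_num) rfl (by norm_num) (by norm_num) (by norm_num)
  rcases le_total κ 1.2 with b3 | a3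
  · exact spL_ge_box h 0.861 1 1.2 (1 / (1 + 1 ^ 2)) 0.9 _ _ h0 h1 a2 b3 (psi_hi a2 (by norm_num))
      (by norm_num) (by norm_num) rfl (by norm_num) rfl (by norm_num) (by norm_num) (by norm_num)
  exact spL_ge_box h 0.861 1.2 1.3 (1.2 / (1 + 1.2 ^ 2)) 0.9 _ _ h0 h1 a3 hk (psi_hi a3 (by norm_num))
    (by norm_num) (by norm_num) rfl (by norm_num) rfl (by norm_num) (by norm_num) (by norm_num)

theorem pL_100 {κ t : ℝ} (h : DomR κ t) (hk : κ ≤ 1.3) (h0 : 0 ≤ -(t + κ)) (h1 : -(t + κ) ≤ 1) :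
    sp κ t ≤ 0.8 * (t + κ) / (1 + κ ^ 2) := by
  have hk0 := h.1
  rcases le_total κ 0.5 with b1 | a1
  · exact spL_ge_box h 0.8 0 0.5 (0.5 / (1 + 0.5 ^ 2)) 1 _ _ h0 h1 hk0.le b1 (psi_lo hk0.le b1 (by norm_num))
      (by norm_num) (by norm_num) rfl (by norm_num) rfl (by norm_num) (by norm_num) (by norm_num)
  rcases le_total κ 1 with b2 | a2
  · exact spL_ge_box h 0.8 0.5 1 (1 / (1 + 1 ^ 2)) 1 _ _ h0 h1 a1 b2 (psi_lo hk0.le b2 (by norm_num))
      (by norm_num) (by norm_num) rfl (by norm_num) rfl (by norm_num) (by norm_num) (by norm_num)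
  rcases le_total κ 1.2 with b3 | a3
  · exact spL_ge_box h 0.8 1 1.2 (1 / (1 + 1 ^ 2)) 1 _ _ h0 h1 a2 b3 (psi_hi a2 (by norm_num))
      (by norm_num) (by norm_num) rfl (by norm_num) rfl (by norm_num) (by norm_num) (by norm_num)
  exact spL_ge_box h 0.8 1.2 1.3 (1.2 / (1 + 1.2 ^ 2)) 1 _ _ h0 h1 a3 hk (psi_hi a3 (by norm_num))
    (by norm_num) (by norm_num) rfl (by norm_num) rfl (by norm_num) (by norm_num) (by norm_num)

/-! ### left hand side, `|p| ≤ C |τ|/(1+κ²)` -/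

theorem pLu_00_02 {κ t : ℝ} (h : DomR κ t) (hk : κ ≤ 1.53) (h0 : 0 ≤ -(t + κ)) (h1 : -(t + κ) ≤ 0.2) :
    1.109 * (t + κ) / (1 + κ ^ 2) ≤ sp κ t := by
  have hk0 := h.1
  rcases le_total κ 0.15 with b1 | a1
  · exact spL_le_box h 1.109 0 0.15 (0.15 / (1 + 0.15 ^ 2)) 0.4273 0 0 0.2 ((0.15 / (1 + 0.15 ^ 2)) * (1.109 * 0.2)) _ h0 h1 (by norm_num) hk0.le b1 (psi_lo hk0.le b1 (by norm_num))
      (chi_box 0.15 0 0.15 0.4273 hk0.le hk0.le b1 (by norm_num) (by norm_num) (by norm_num) (by norm_num) (by norm_num))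
      (mul_box 0 0 0.15 0 _ hk0.le b1 (by norm_num) (by norm_num) (by norm_num) (by norm_num) (by norm_num))
      (by norm_num) (by norm_num) (by norm_num) rfl (by norm_num) rfl (by norm_num) (by norm_num) (by norm_num)
  rcases le_total κ 0.3 with b2 | a2
  · exact spL_le_box h 1.109 0.15 0.3 (0.3 / (1 + 0.3 ^ 2)) 0.7349 0.0205 0 0.2 ((0.3 / (1 + 0.3 ^ 2)) * (1.109 * 0.2)) _ h0 h1 (by norm_num) a1 b2 (psi_lo hk0.le b2 (by norm_num))
      (chi_box 0.3 0.15 0.3 0.7349 hk0.le a1 b2 (by norm_num) (by norm_num) (by norm_num) (by norm_num) (by norm_num))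
      (mul_box 0.022 0.15 0.3 0.0205 _ a1 b2 (by norm_num) (by norm_num) (by norm_num) (by norm_num) (by norm_num))
      (by norm_num) (by norm_num) (by norm_num) rfl (by norm_num) rfl (by norm_num) (by norm_num) (by norm_num)
  rcases le_total κ 0.45 with b3 | a3
  · exact spL_le_box h 1.109 0.3 0.45 (0.45 / (1 + 0.45 ^ 2)) 0.8707 0.068 0 0.2 ((0.45 / (1 + 0.45 ^ 2)) * (1.109 * 0.2)) _ h0 h1 (by norm_num) a2 b3 (psi_lo hk0.le b3 (by norm_num))
      (chi_box 0.45 0.3 0.45 0.8707 hk0.le a2 b3 (by norm_num) (by norm_num) (by norm_num) (by norm_num) (by norm_num))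
      (mul_box 0.09 0.3 0.45 0.068 _ a2 b3 (by norm_num) (by norm_num) (by norm_num) (by norm_num) (by norm_num))
      (by norm_num) (by norm_num) (by norm_num) rfl (by norm_num) rfl (by norm_num) (by norm_num) (by norm_num)
  rcases le_total κ 0.65 with b4 | a4
  · exact spL_le_box h 1.109 0.45 0.65 (0.65 / (1 + 0.65 ^ 2)) 0.8819 0.1154 0 0.2 ((0.65 / (1 + 0.65 ^ 2)) * (1.109 * 0.2)) _ h0 h1 (by norm_num) a3 b4 (psi_lo hk0.le b4 (by norm_num))
      (chi_box 0.51 0.45 0.65 0.8819 hk0.le a3 b4 (by norm_num) (by norm_num) (by norm_num) (by norm_num) (by norm_num))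
      (mul_box 0.203 0.45 0.65 0.1154 _ a3 b4 (by norm_num) (by norm_num) (by norm_num) (by norm_num) (by norm_num))
      (by norm_num) (by norm_num) (by norm_num) rfl (by norm_num) rfl (by norm_num) (by norm_num) (by norm_num)
  rcases le_total κ 0.85 with b5 | a5
  · exact spL_le_box h 1.109 0.65 0.85 (0.85 / (1 + 0.85 ^ 2)) 0.8281 0.15 0 0.2 ((0.85 / (1 + 0.85 ^ 2)) * (1.109 * 0.2)) _ h0 h1 (by norm_num) a4 b5 (psi_lo hk0.le b5 (by norm_num))
      (chi_box 0.65 0.65 0.85 0.8281 hk0.le a4 b5 (by norm_num) (by norm_num) (by norm_num) (by norm_num) (by norm_num))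
      (mul_box 0.483 0.65 0.85 0.15 _ a4 b5 (by norm_num) (by norm_num) (by norm_num) (by norm_num) (by norm_num))
      (by norm_num) (by norm_num) (by norm_num) rfl (by norm_num) rfl (by norm_num) (by norm_num) (by norm_num)
  rcases le_total κ 1.1 with b6 | a6
  · exact spL_le_box h 1.109 0.85 1.1 (1 / 2) 0.6526 0.1294 0 0.2 ((1 / 2) * (1.109 * 0.2)) _ h0 h1 (by norm_num) a5 b6 psi_half
      (chi_box 0.85 0.85 1.1 0.6526 hk0.le a5 b6 (by norm_num) (by norm_num) (by norm_num) (by norm_num) (by norm_num))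
      (mul_box 1.21 0.85 1.1 0.1294 _ a5 b6 (by norm_num) (by norm_num) (by norm_num) (by norm_num) (by norm_num))
      (by norm_num) (by norm_num) (by norm_num) rfl (by norm_num) rfl (by norm_num) (by norm_num) (by norm_num)
  exact spL_le_box h 1.109 1.1 1.53 (1.1 / (1 + 1.1 ^ 2)) 0.4032 0.0843 0 0.2 ((1.1 / (1 + 1.1 ^ 2)) * (1.109 * 0.2)) _ h0 h1 (by norm_num) a6 hk (psi_hi a6 (by norm_num))
    (chi_box 1.1 1.1 1.53 0.4032 hk0.le a6 hk (by norm_num) (by norm_num) (by norm_num) (by norm_num) (by norm_num))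
    (mul_box 2.341 1.1 1.53 0.0843 _ a6 hk (by norm_num) (by norm_num) (by norm_num) (by norm_num) (by norm_num))
    (by norm_num) (by norm_num) (by norm_num) rfl (by norm_num) rfl (by norm_num) (by norm_num) (by norm_num)

theorem pLu_00_03 {κ t : ℝ} (h : DomR κ t) (hk : κ ≤ 1.53) (h0 : 0 ≤ -(t + κ)) (h1 : -(t + κ) ≤ 0.3) :
    1.187 * (t + κ) / (1 + κ ^ 2) ≤ sp κ t := by
  have hk0 := h.1
  rcases le_total κ 0.15 with b1 | a1
  · exact spL_le_box h 1.187 0 0.15 (0.15 / (1 + 0.15 ^ 2)) 0.4273 0 0 0.3 ((0.15 / (1 + 0.15 ^ 2)) * (1.187 * 0.3)) _ h0 h1 (by norm_num) hk0.le b1 (psi_lo hk0.le b1 (by norm_num))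
      (chi_box 0.15 0 0.15 0.4273 hk0.le hk0.le b1 (by norm_num) (by norm_num) (by norm_num) (by norm_num) (by norm_num))
      (mul_box 0 0 0.15 0 _ hk0.le b1 (by norm_num) (by norm_num) (by norm_num) (by norm_num) (by norm_num))
      (by norm_num) (by norm_num) (by norm_num) rfl (by norm_num) rfl (by norm_num) (by norm_num) (by norm_num)
  rcases le_total κ 0.3 with b2 | a2
  · exact spL_le_box h 1.187 0.15 0.3 (0.3 / (1 + 0.3 ^ 2)) 0.7349 0.0202 0 0.3 ((0.3 / (1 + 0.3 ^ 2)) * (1.187 * 0.3)) _ h0 h1 (by norm_num) a1 b2 (psi_lo hk0.le b2 (by norm_num))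
      (chi_box 0.3 0.15 0.3 0.7349 hk0.le a1 b2 (by norm_num) (by norm_num) (by norm_num) (by norm_num) (by norm_num))
      (mul_box 0.022 0.15 0.3 0.0202 _ a1 b2 (by norm_num) (by norm_num) (by norm_num) (by norm_num) (by norm_num))
      (by norm_num) (by norm_num) (by norm_num) rfl (by norm_num) rfl (by norm_num) (by norm_num) (by norm_num)
  rcases le_total κ 0.45 with b3 | a3
  · exact spL_le_box h 1.187 0.3 0.45 (0.45 / (1 + 0.45 ^ 2)) 0.8707 0.0666 0 0.3 ((0.45 / (1 + 0.45 ^ 2)) * (1.187 * 0.3)) _ h0 h1 (by norm_num) a2 b3 (psi_lo hk0.le b3 (by norm_num))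
      (chi_box 0.45 0.3 0.45 0.8707 hk0.le a2 b3 (by norm_num) (by norm_num) (by norm_num) (by norm_num) (by norm_num))
      (mul_box 0.09 0.3 0.45 0.0666 _ a2 b3 (by norm_num) (by norm_num) (by norm_num) (by norm_num) (by norm_num))
      (by norm_num) (by norm_num) (by norm_num) rfl (by norm_num) rfl (by norm_num) (by norm_num) (by norm_num)
  rcases le_total κ 0.65 with b4 | a4
  · exact spL_le_box h 1.187 0.45 0.65 (0.65 / (1 + 0.65 ^ 2)) 0.8819 0.1124 0 0.3 ((0.65 / (1 + 0.65 ^ 2)) * (1.187 * 0.3)) _ h0 h1 (by norm_num) a3 b4 (psi_lo hk0.le b4 (by norm_num))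
      (chi_box 0.51 0.45 0.65 0.8819 hk0.le a3 b4 (by norm_num) (by norm_num) (by norm_num) (by norm_num) (by norm_num))
      (mul_box 0.203 0.45 0.65 0.1124 _ a3 b4 (by norm_num) (by norm_num) (by norm_num) (by norm_num) (by norm_num))
      (by norm_num) (by norm_num) (by norm_num) rfl (by norm_num) rfl (by norm_num) (by norm_num) (by norm_num)
  rcases le_total κ 0.85 with b5 | a5
  · exact spL_le_box h 1.187 0.65 0.85 (0.85 / (1 + 0.85 ^ 2)) 0.8281 0.1461 0 0.3 ((0.85 / (1 + 0.85 ^ 2)) * (1.187 * 0.3)) _ h0 h1 (by norm_num) a4 b5 (psi_lo hk0.le b5 (by norm_num))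
      (chi_box 0.65 0.65 0.85 0.8281 hk0.le a4 b5 (by norm_num) (by norm_num) (by norm_num) (by norm_num) (by norm_num))
      (mul_box 0.483 0.65 0.85 0.1461 _ a4 b5 (by norm_num) (by norm_num) (by norm_num) (by norm_num) (by norm_num))
      (by norm_num) (by norm_num) (by norm_num) rfl (by norm_num) rfl (by norm_num) (by norm_num) (by norm_num)
  rcases le_total κ 1.1 with b6 | a6
  · exact spL_le_box h 1.187 0.85 1.1 (1 / 2) 0.6526 0.1263 0 0.3 ((1 / 2) * (1.187 * 0.3)) _ h0 h1 (by norm_num) a5 b6 psi_half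
      (chi_box 0.85 0.85 1.1 0.6526 hk0.le a5 b6 (by norm_num) (by norm_num) (by norm_num) (by norm_num) (by norm_num))
      (mul_box 1.21 0.85 1.1 0.1263 _ a5 b6 (by norm_num) (by norm_num) (by norm_num) (by norm_num) (by norm_num))
      (by norm_num) (by norm_num) (by norm_num) rfl (by norm_num) rfl (by norm_num) (by norm_num) (by norm_num)
  exact spL_le_box h 1.187 1.1 1.53 (1.1 / (1 + 1.1 ^ 2)) 0.4032 0.0825 0 0.3 ((1.1 / (1 + 1.1 ^ 2)) * (1.187 * 0.3)) _ h0 h1 (by norm_num) a6 hk (psi_hi a6 (by norm_num))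
    (chi_box 1.1 1.1 1.53 0.4032 hk0.le a6 hk (by norm_num) (by norm_num) (by norm_num) (by norm_num) (by norm_num))
    (mul_box 2.341 1.1 1.53 0.0825 _ a6 hk (by norm_num) (by norm_num) (by norm_num) (by norm_num) (by norm_num))
    (by norm_num) (by norm_num) (by norm_num) rfl (by norm_num) rfl (by norm_num) (by norm_num) (by norm_num)

theorem pLu_02_03 {κ t : ℝ} (h : DomR κ t) (hk : κ ≤ 1.53) (h0 : 0.2 ≤ -(t + κ)) (h1 : -(t + κ) ≤ 0.3) :
    1.173 * (t + κ) / (1 + κ ^ 2) ≤ sp κ t := by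
  have hk0 := h.1
  rcases le_total κ 0.15 with b1 | a1
  · exact spL_le_box h 1.173 0 0.15 (0.15 / (1 + 0.15 ^ 2)) 0.4273 0 0.2 0.3 ((0.15 / (1 + 0.15 ^ 2)) * (1.173 * 0.3)) _ h0 h1 (by norm_num) hk0.le b1 (psi_lo hk0.le b1 (by norm_num))
      (chi_box 0.15 0 0.15 0.4273 hk0.le hk0.le b1 (by norm_num) (by norm_num) (by norm_num) (by norm_num) (by norm_num))
      (mul_box 0 0 0.15 0 _ hk0.le b1 (by norm_num) (by norm_num) (by norm_num) (by norm_num) (by norm_num))
      (by norm_num) (by norm_num) (by norm_num) rfl (by norm_num) rfl (by norm_num) (by norm_num) (by norm_num)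
  rcases le_total κ 0.3 with b2 | a2
  · exact spL_le_box h 1.173 0.15 0.3 (0.3 / (1 + 0.3 ^ 2)) 0.7349 0.0202 0.2 0.3 ((0.3 / (1 + 0.3 ^ 2)) * (1.173 * 0.3)) _ h0 h1 (by norm_num) a1 b2 (psi_lo hk0.le b2 (by norm_num))
      (chi_box 0.3 0.15 0.3 0.7349 hk0.le a1 b2 (by norm_num) (by norm_num) (by norm_num) (by norm_num) (by norm_num))
      (mul_box 0.022 0.15 0.3 0.0202 _ a1 b2 (by norm_num) (by norm_num) (by norm_num) (by norm_num) (by norm_num))
      (by norm_num) (by norm_num) (by norm_num) rfl (by norm_num) rfl (by norm_num) (by norm_num) (by norm_num)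
  rcases le_total κ 0.45 with b3 | a3
  · exact spL_le_box h 1.173 0.3 0.45 (0.45 / (1 + 0.45 ^ 2)) 0.8707 0.0666 0.2 0.3 ((0.45 / (1 + 0.45 ^ 2)) * (1.173 * 0.3)) _ h0 h1 (by norm_num) a2 b3 (psi_lo hk0.le b3 (by norm_num))
      (chi_box 0.45 0.3 0.45 0.8707 hk0.le a2 b3 (by norm_num) (by norm_num) (by norm_num) (by norm_num) (by norm_num))
      (mul_box 0.09 0.3 0.45 0.0666 _ a2 b3 (by norm_num) (by norm_num) (by norm_num) (by norm_num) (by norm_num))
      (by norm_num) (by norm_num) (by norm_num) rfl (by norm_num) rfl (by norm_num) (by norm_num) (by norm_num)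
  rcases le_total κ 0.65 with b4 | a4
  · exact spL_le_box h 1.173 0.45 0.65 (0.65 / (1 + 0.65 ^ 2)) 0.8819 0.1125 0.2 0.3 ((0.65 / (1 + 0.65 ^ 2)) * (1.173 * 0.3)) _ h0 h1 (by norm_num) a3 b4 (psi_lo hk0.le b4 (by norm_num))
      (chi_box 0.51 0.45 0.65 0.8819 hk0.le a3 b4 (by norm_num) (by norm_num) (by norm_num) (by norm_num) (by norm_num))
      (mul_box 0.203 0.45 0.65 0.1125 _ a3 b4 (by norm_num) (by norm_num) (by norm_num) (by norm_num) (by norm_num))
      (by norm_num) (by norm_num) (by norm_num) rfl (by norm_num) rfl (by norm_num) (by norm_num) (by norm_num)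
  rcases le_total κ 0.85 with b5 | a5
  · exact spL_le_box h 1.173 0.65 0.85 (0.85 / (1 + 0.85 ^ 2)) 0.8281 0.1462 0.2 0.3 ((0.85 / (1 + 0.85 ^ 2)) * (1.173 * 0.3)) _ h0 h1 (by norm_num) a4 b5 (psi_lo hk0.le b5 (by norm_num))
      (chi_box 0.65 0.65 0.85 0.8281 hk0.le a4 b5 (by norm_num) (by norm_num) (by norm_num) (by norm_num) (by norm_num))
      (mul_box 0.483 0.65 0.85 0.1462 _ a4 b5 (by norm_num) (by norm_num) (by norm_num) (by norm_num) (by norm_num))
      (by norm_num) (by norm_num) (by norm_num) rfl (by norm_num) rfl (by norm_num) (by norm_num) (by norm_num)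
  rcases le_total κ 1.1 with b6 | a6
  · exact spL_le_box h 1.173 0.85 1.1 (1 / 2) 0.6526 0.1264 0.2 0.3 ((1 / 2) * (1.173 * 0.3)) _ h0 h1 (by norm_num) a5 b6 psi_half
      (chi_box 0.85 0.85 1.1 0.6526 hk0.le a5 b6 (by norm_num) (by norm_num) (by norm_num) (by norm_num) (by norm_num))
      (mul_box 1.21 0.85 1.1 0.1264 _ a5 b6 (by norm_num) (by norm_num) (by norm_num) (by norm_num) (by norm_num))
      (by norm_num) (by norm_num) (by norm_num) rfl (by norm_num) rfl (by norm_num) (by norm_num) (by norm_num)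
  exact spL_le_box h 1.173 1.1 1.53 (1.1 / (1 + 1.1 ^ 2)) 0.4032 0.0826 0.2 0.3 ((1.1 / (1 + 1.1 ^ 2)) * (1.173 * 0.3)) _ h0 h1 (by norm_num) a6 hk (psi_hi a6 (by norm_num))
    (chi_box 1.1 1.1 1.53 0.4032 hk0.le a6 hk (by norm_num) (by norm_num) (by norm_num) (by norm_num) (by norm_num))
    (mul_box 2.341 1.1 1.53 0.0826 _ a6 hk (by norm_num) (by norm_num) (by norm_num) (by norm_num) (by norm_num))
    (by norm_num) (by norm_num) (by norm_num) rfl (by norm_num) rfl (by norm_num) (by norm_num) (by norm_num)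

theorem pLu_03_04 {κ t : ℝ} (h : DomR κ t) (hk : κ ≤ 1.53) (h0 : 0.3 ≤ -(t + κ)) (h1 : -(t + κ) ≤ 0.4) :
    1.257 * (t + κ) / (1 + κ ^ 2) ≤ sp κ t := by
  have hk0 := h.1
  rcases le_total κ 0.15 with b1 | a1
  · exact spL_le_box h 1.257 0 0.15 (0.15 / (1 + 0.15 ^ 2)) 0.4273 0 0.3 0.4 ((0.15 / (1 + 0.15 ^ 2)) * (1.257 * 0.4)) _ h0 h1 (by norm_num) hk0.le b1 (psi_lo hk0.le b1 (by norm_num))
      (chi_box 0.15 0 0.15 0.4273 hk0.le hk0.le b1 (by norm_num) (by norm_num) (by norm_num) (by norm_num) (by norm_num))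
      (mul_box 0 0 0.15 0 _ hk0.le b1 (by norm_num) (by norm_num) (by norm_num) (by norm_num) (by norm_num))
      (by norm_num) (by norm_num) (by norm_num) rfl (by norm_num) rfl (by norm_num) (by norm_num) (by norm_num)
  rcases le_total κ 0.3 with b2 | a2
  · exact spL_le_box h 1.257 0.15 0.3 (0.3 / (1 + 0.3 ^ 2)) 0.7349 0.0198 0.3 0.4 ((0.3 / (1 + 0.3 ^ 2)) * (1.257 * 0.4)) _ h0 h1 (by norm_num) a1 b2 (psi_lo hk0.le b2 (by norm_num))
      (chi_box 0.3 0.15 0.3 0.7349 hk0.le a1 b2 (by norm_num) (by norm_num) (by norm_num) (by norm_num) (by norm_num))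
      (mul_box 0.022 0.15 0.3 0.0198 _ a1 b2 (by norm_num) (by norm_num) (by norm_num) (by norm_num) (by norm_num))
      (by norm_num) (by norm_num) (by norm_num) rfl (by norm_num) rfl (by norm_num) (by norm_num) (by norm_num)
  rcases le_total κ 0.45 with b3 | a3
  · exact spL_le_box h 1.257 0.3 0.45 (0.45 / (1 + 0.45 ^ 2)) 0.8707 0.065 0.3 0.4 ((0.45 / (1 + 0.45 ^ 2)) * (1.257 * 0.4)) _ h0 h1 (by norm_num) a2 b3 (psi_lo hk0.le b3 (by norm_num))
      (chi_box 0.45 0.3 0.45 0.8707 hk0.le a2 b3 (by norm_num) (by norm_num) (by norm_num) (by norm_num) (by norm_num))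
      (mul_box 0.09 0.3 0.45 0.065 _ a2 b3 (by norm_num) (by norm_num) (by norm_num) (by norm_num) (by norm_num))
      (by norm_num) (by norm_num) (by norm_num) rfl (by norm_num) rfl (by norm_num) (by norm_num) (by norm_num)
  rcases le_total κ 0.65 with b4 | a4
  · exact spL_le_box h 1.257 0.45 0.65 (0.65 / (1 + 0.65 ^ 2)) 0.8819 0.1091 0.3 0.4 ((0.65 / (1 + 0.65 ^ 2)) * (1.257 * 0.4)) _ h0 h1 (by norm_num) a3 b4 (psi_lo hk0.le b4 (by norm_num))
      (chi_box 0.51 0.45 0.65 0.8819 hk0.le a3 b4 (by norm_num) (by norm_num) (by norm_num) (by norm_num) (by norm_num))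
      (mul_box 0.203 0.45 0.65 0.1091 _ a3 b4 (by norm_num) (by norm_num) (by norm_num) (by norm_num) (by norm_num))
      (by norm_num) (by norm_num) (by norm_num) rfl (by norm_num) rfl (by norm_num) (by norm_num) (by norm_num)
  rcases le_total κ 0.85 with b5 | a5
  · exact spL_le_box h 1.257 0.65 0.85 (0.85 / (1 + 0.85 ^ 2)) 0.8281 0.1416 0.3 0.4 ((0.85 / (1 + 0.85 ^ 2)) * (1.257 * 0.4)) _ h0 h1 (by norm_num) a4 b5 (psi_lo hk0.le b5 (by norm_num))
      (chi_box 0.65 0.65 0.85 0.8281 hk0.le a4 b5 (by norm_num) (by norm_num) (by norm_num) (by norm_num) (by norm_num))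
      (mul_box 0.483 0.65 0.85 0.1416 _ a4 b5 (by norm_num) (by norm_num) (by norm_num) (by norm_num) (by norm_num))
      (by norm_num) (by norm_num) (by norm_num) rfl (by norm_num) rfl (by norm_num) (by norm_num) (by norm_num)
  rcases le_total κ 1.1 with b6 | a6
  · exact spL_le_box h 1.257 0.85 1.1 (1 / 2) 0.6526 0.1229 0.3 0.4 ((1 / 2) * (1.257 * 0.4)) _ h0 h1 (by norm_num) a5 b6 psi_half
      (chi_box 0.85 0.85 1.1 0.6526 hk0.le a5 b6 (by norm_num) (by norm_num) (by norm_num) (by norm_num) (by norm_num))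
      (mul_box 1.21 0.85 1.1 0.1229 _ a5 b6 (by norm_num) (by norm_num) (by norm_num) (by norm_num) (by norm_num))
      (by norm_num) (by norm_num) (by norm_num) rfl (by norm_num) rfl (by norm_num) (by norm_num) (by norm_num)
  exact spL_le_box h 1.257 1.1 1.53 (1.1 / (1 + 1.1 ^ 2)) 0.4032 0.0806 0.3 0.4 ((1.1 / (1 + 1.1 ^ 2)) * (1.257 * 0.4)) _ h0 h1 (by norm_num) a6 hk (psi_hi a6 (by norm_num))
    (chi_box 1.1 1.1 1.53 0.4032 hk0.le a6 hk (by norm_num) (by norm_num) (by norm_num) (by norm_num) (by norm_num))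
    (mul_box 2.341 1.1 1.53 0.0806 _ a6 hk (by norm_num) (by norm_num) (by norm_num) (by norm_num) (by norm_num))
    (by norm_num) (by norm_num) (by norm_num) rfl (by norm_num) rfl (by norm_num) (by norm_num) (by norm_num)

theorem pLu_04_05 {κ t : ℝ} (h : DomR κ t) (hk : κ ≤ 1.53) (h0 : 0.4 ≤ -(t + κ)) (h1 : -(t + κ) ≤ 0.5) :
    1.373 * (t + κ) / (1 + κ ^ 2) ≤ sp κ t := by
  have hk0 := h.1
  rcases le_total κ 0.15 with b1 | a1
  · exact spL_le_box h 1.373 0 0.15 (0.15 / (1 + 0.15 ^ 2)) 0.4273 0 0.4 0.5 ((0.15 / (1 + 0.15 ^ 2)) * (1.373 * 0.5)) _ h0 h1 (by norm_num) hk0.le b1 (psi_lo hk0.le b1 (by norm_num))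
      (chi_box 0.15 0 0.15 0.4273 hk0.le hk0.le b1 (by norm_num) (by norm_num) (by norm_num) (by norm_num) (by norm_num))
      (mul_box 0 0 0.15 0 _ hk0.le b1 (by norm_num) (by norm_num) (by norm_num) (by norm_num) (by norm_num))
      (by norm_num) (by norm_num) (by norm_num) rfl (by norm_num) rfl (by norm_num) (by norm_num) (by norm_num)
  rcases le_total κ 0.3 with b2 | a2
  · exact spL_le_box h 1.373 0.15 0.3 (0.3 / (1 + 0.3 ^ 2)) 0.7349 0.0194 0.4 0.5 ((0.3 / (1 + 0.3 ^ 2)) * (1.373 * 0.5)) _ h0 h1 (by norm_num) a1 b2 (psi_lo hk0.le b2 (by norm_num))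
      (chi_box 0.3 0.15 0.3 0.7349 hk0.le a1 b2 (by norm_num) (by norm_num) (by norm_num) (by norm_num) (by norm_num))
      (mul_box 0.022 0.15 0.3 0.0194 _ a1 b2 (by norm_num) (by norm_num) (by norm_num) (by norm_num) (by norm_num))
      (by norm_num) (by norm_num) (by norm_num) rfl (by norm_num) rfl (by norm_num) (by norm_num) (by norm_num)
  rcases le_total κ 0.45 with b3 | a3
  · exact spL_le_box h 1.373 0.3 0.45 (0.45 / (1 + 0.45 ^ 2)) 0.8707 0.063 0.4 0.5 ((0.45 / (1 + 0.45 ^ 2)) * (1.373 * 0.5)) _ h0 h1 (by norm_num) a2 b3 (psi_lo hk0.le b3 (by norm_num))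
      (chi_box 0.45 0.3 0.45 0.8707 hk0.le a2 b3 (by norm_num) (by norm_num) (by norm_num) (by norm_num) (by norm_num))
      (mul_box 0.09 0.3 0.45 0.063 _ a2 b3 (by norm_num) (by norm_num) (by norm_num) (by norm_num) (by norm_num))
      (by norm_num) (by norm_num) (by norm_num) rfl (by norm_num) rfl (by norm_num) (by norm_num) (by norm_num)
  rcases le_total κ 0.65 with b4 | a4
  · exact spL_le_box h 1.373 0.45 0.65 (0.65 / (1 + 0.65 ^ 2)) 0.8819 0.1051 0.4 0.5 ((0.65 / (1 + 0.65 ^ 2)) * (1.373 * 0.5)) _ h0 h1 (by norm_num) a3 b4 (psi_lo hk0.le b4 (by norm_num))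
      (chi_box 0.51 0.45 0.65 0.8819 hk0.le a3 b4 (by norm_num) (by norm_num) (by norm_num) (by norm_num) (by norm_num))
      (mul_box 0.203 0.45 0.65 0.1051 _ a3 b4 (by norm_num) (by norm_num) (by norm_num) (by norm_num) (by norm_num))
      (by norm_num) (by norm_num) (by norm_num) rfl (by norm_num) rfl (by norm_num) (by norm_num) (by norm_num)
  rcases le_total κ 0.85 with b5 | a5
  · exact spL_le_box h 1.373 0.65 0.85 (0.85 / (1 + 0.85 ^ 2)) 0.8281 0.1361 0.4 0.5 ((0.85 / (1 + 0.85 ^ 2)) * (1.373 * 0.5)) _ h0 h1 (by norm_num) a4 b5 (psi_lo hk0.le b5 (by norm_num))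
      (chi_box 0.65 0.65 0.85 0.8281 hk0.le a4 b5 (by norm_num) (by norm_num) (by norm_num) (by norm_num) (by norm_num))
      (mul_box 0.483 0.65 0.85 0.1361 _ a4 b5 (by norm_num) (by norm_num) (by norm_num) (by norm_num) (by norm_num))
      (by norm_num) (by norm_num) (by norm_num) rfl (by norm_num) rfl (by norm_num) (by norm_num) (by norm_num)
  rcases le_total κ 1.1 with b6 | a6
  · exact spL_le_box h 1.373 0.85 1.1 (1 / 2) 0.6526 0.1186 0.4 0.5 ((1 / 2) * (1.373 * 0.5)) _ h0 h1 (by norm_num) a5 b6 psi_half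
      (chi_box 0.85 0.85 1.1 0.6526 hk0.le a5 b6 (by norm_num) (by norm_num) (by norm_num) (by norm_num) (by norm_num))
      (mul_box 1.21 0.85 1.1 0.1186 _ a5 b6 (by norm_num) (by norm_num) (by norm_num) (by norm_num) (by norm_num))
      (by norm_num) (by norm_num) (by norm_num) rfl (by norm_num) rfl (by norm_num) (by norm_num) (by norm_num)
  exact spL_le_box h 1.373 1.1 1.53 (1.1 / (1 + 1.1 ^ 2)) 0.4032 0.0782 0.4 0.5 ((1.1 / (1 + 1.1 ^ 2)) * (1.373 * 0.5)) _ h0 h1 (by norm_num) a6 hk (psi_hi a6 (by norm_num))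
    (chi_box 1.1 1.1 1.53 0.4032 hk0.le a6 hk (by norm_num) (by norm_num) (by norm_num) (by norm_num) (by norm_num))
    (mul_box 2.341 1.1 1.53 0.0782 _ a6 hk (by norm_num) (by norm_num) (by norm_num) (by norm_num) (by norm_num))
    (by norm_num) (by norm_num) (by norm_num) rfl (by norm_num) rfl (by norm_num) (by norm_num) (by norm_num)

end Sok
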