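import Pool.Agent.Lib.MP_816dec_an.R1BigDefs
import Pool.Agent.Lib.MP_816dec_an.R1Ineq5

/-!
MP_816dec_an (A3, row R1, one fixed `b`): the copies in the normal form `N exp (...)`,
`N = eN R κ = exp R / √√(1+κ²)`, and the products of `valley_unique` as linear inequalities.
-/

set_option autoImplicit false

open Complex Set Filter Topology Metric

namespace Sok

/-- the normalising factor -/
noncomputable def eN (R κ : ℝ) : ℝ := Real.exp R / Real.sqrt (Real.sqrt (1 + κ ^ 2))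

theorem eN_pos (R κ : ℝ) : 0 < eN R κ :=
  div_pos (Real.exp_pos _) (Real.sqrt_pos.2 (Real.sqrt_pos.2 (by positivity)))

private theorem q4 {x : ℝ} (hx : 0 ≤ x) : Real.sqrt (Real.sqrt x) ^ 4 = x := by
  rw [show Real.sqrt (Real.sqrt x) ^ 4 = (Real.sqrt (Real.sqrt x) ^ 2) ^ 2 by ring,
    Real.sq_sqrt (Real.sqrt_nonneg _), Real.sq_sqrt hx]

private theorem le_of_pow4 {a b : ℝ} (hb : 0 ≤ b) (h : a ^ 4 ≤ b ^ 4) : a ≤ b := by
  by_contra hlt
  exact absurd h (not_le.2 (pow_lt_pow_left₀ (not_le.1 hlt) hb (by norm_num)))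

private theorem exp4 (m : ℝ) : Real.exp m ^ 4 = Real.exp (4 * m) := by
  rw [← Real.exp_nat_mul]
  norm_num

/-- the angle of the copy `k` -/
theorem Xf_eq_zs {β R h t : ℝ} (hβ : 0 < β) {k : ℤ} {t' : ℝ} (ht : t' = t + (k - 1) * h)
    (hD : DomR (β * R) t') :
    Xf β R h t k = F (cexp (I * β)) (zs β (sg (β * R) t')) := by
  unfold Xf
  rw [← ht]
  congr 1
  have h1 := s_point hD hβ.ne'
  have e : β * R / β = R := by field_simp
  rw [e] at h1
  rw [mul_comm I, ← h1]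
  rfl

theorem norm_Xf_eq {β R h t : ℝ} (hβ : 0 < β) {k : ℤ} {t' : ℝ} (ht : t' = t + (k - 1) * h)
    (hD : DomR (β * R) t') :
    ‖Xf β R h t k‖ = ‖HH β (sg (β * R) t')‖ * sQ β (β * R) t' := by
  rw [Xf_eq_zs hβ ht hD, norm_F_eq hD hβ]

/-- upper bound of a copy -/
theorem Xf_le {β R h t κ : ℝ} (hβ : 0 < β) (hR : 0 ≤ R) (hκ : κ = β * R) {k : ℤ} {t' : ℝ}
    (ht : t' = t + (k - 1) * h) (hD : DomR κ t') {ε c d m : ℝ} (hε : 0 ≤ ε)
    (hJ : ‖HH β (sg κ t') - 1‖ ≤ ε)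
    (hc : sE κ t' ≤ 1 - c * (t' + κ) ^ 2 / (1 + κ ^ 2)) (hd0 : 0 < d)
    (hd : d * (1 + κ ^ 2) ≤ sD κ t')
    (hm : (1 + ε) ^ 4 ≤ d * (1 + 4 * m + (4 * m) ^ 2 / 2 + (4 * m) ^ 3 / 6)) :
    ‖Xf β R h t k‖ ≤ eN R κ * Real.exp (m - R / (1 + κ ^ 2) * (c * (t' + κ) ^ 2)) := by
  subst hκ
  rw [norm_Xf_eq hβ ht hD]
  have hA : 0 < 1 + (β * R) ^ 2 := by positivity
  have hH : ‖HH β (sg (β * R) t')‖ ≤ 1 + ε := by
    have h1 := norm_add_le (HH β (sg (β * R) t') - 1) 1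
    rw [sub_add_cancel, norm_one] at h1
    linarith
  have hs := sD_pos hD
  have hS : 0 < Real.sqrt (Real.sqrt (sD (β * R) t')) := Real.sqrt_pos.2 (Real.sqrt_pos.2 hs)
  have hS1 : 0 < Real.sqrt (Real.sqrt (1 + (β * R) ^ 2)) := Real.sqrt_pos.2 (Real.sqrt_pos.2 hA)
  have key : (1 + ε) * Real.sqrt (Real.sqrt (1 + (β * R) ^ 2)) ≤
      Real.exp m * Real.sqrt (Real.sqrt (sD (β * R) t')) := by
    apply le_of_pow4 (by positivity)
    rw [mul_pow (1 + ε), mul_pow (Real.exp m), q4 hA.le, q4 hs.le, exp4]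
    have h2 := r1_exp_ge3 (4 * m)
    have h3 : d * (1 + 4 * m + (4 * m) ^ 2 / 2 + (4 * m) ^ 3 / 6) ≤ d * Real.exp (4 * m) :=
      mul_le_mul_of_nonneg_left h2 hd0.le
    have h4 := mul_le_mul_of_nonneg_right (hm.trans h3) hA.le
    have h5 := mul_le_mul_of_nonneg_left hd (Real.exp_pos (4 * m)).le
    linarith
  have hE : Real.exp (β * R / β * sE (β * R) t') ≤
      Real.exp R * Real.exp (-(R / (1 + (β * R) ^ 2) * (c * (t' + β * R) ^ 2))) := by
    rw [← Real.exp_add]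
    apply Real.exp_le_exp.2
    have e : β * R / β = R := by field_simp
    rw [e]
    have h5 := mul_le_mul_of_nonneg_left hc hR
    have e2 : R * (1 - c * (t' + β * R) ^ 2 / (1 + (β * R) ^ 2)) =
      R + -(R / (1 + (β * R) ^ 2) * (c * (t' + β * R) ^ 2)) := by ring
    linarith
  unfold sQ eN
  have h7 : ‖HH β (sg (β * R) t')‖ * (Real.exp (β * R / β * sE (β * R) t') /
      Real.sqrt (Real.sqrt (sD (β * R) t'))) ≤ (1 + ε) * (Real.exp R *
        Real.exp (-(R / (1 + (β * R) ^ 2) * (c * (t' + β * R) ^ 2))) /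
        Real.sqrt (Real.sqrt (sD (β * R) t'))) := by
    apply mul_le_mul hH _ (by positivity) (by linarith)
    exact div_le_div_of_nonneg_right hE hS.le
  refine h7.trans ?_
  rw [sub_eq_add_neg, Real.exp_add]
  have e3 : (1 + ε) * (Real.exp R * Real.exp (-(R / (1 + (β * R) ^ 2) * (c * (t' + β * R) ^ 2))) /
        Real.sqrt (Real.sqrt (sD (β * R) t'))) =
      ((1 + ε) / Real.sqrt (Real.sqrt (sD (β * R) t'))) * (Real.exp R *
        Real.exp (-(R / (1 + (β * R) ^ 2) * (c * (t' + β * R) ^ 2)))) := by ring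
  have e4 : Real.exp R / Real.sqrt (Real.sqrt (1 + (β * R) ^ 2)) * (Real.exp m *
      Real.exp (-(R / (1 + (β * R) ^ 2) * (c * (t' + β * R) ^ 2)))) =
      (Real.exp m / Real.sqrt (Real.sqrt (1 + (β * R) ^ 2))) * (Real.exp R *
        Real.exp (-(R / (1 + (β * R) ^ 2) * (c * (t' + β * R) ^ 2)))) := by ring
  rw [e3, e4]
  apply mul_le_mul_of_nonneg_right _ (by positivity)
  rw [div_le_div_iff₀ hS hS1]
  exact key

/-- lower bound of a copy -/
theorem le_Xf {β R h t κ : ℝ} (hβ : 0 < β) (hR : 0 ≤ R) (hκ : κ = β * R) {k : ℤ} {t' : ℝ}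
    (ht : t' = t + (k - 1) * h) (hD : DomR κ t') {ε c d m : ℝ} (hε : ε ≤ 1)
    (hJ : ‖HH β (sg κ t') - 1‖ ≤ ε)
    (hc : 1 - c * (t' + κ) ^ 2 / (1 + κ ^ 2) ≤ sE κ t')
    (hd : sD κ t' ≤ d * (1 + κ ^ 2))
    (hm : d ≤ (1 - ε) ^ 4 * (1 + 4 * m + (4 * m) ^ 2 / 2 + (4 * m) ^ 3 / 6)) :
    eN R κ * Real.exp (-m - R / (1 + κ ^ 2) * (c * (t' + κ) ^ 2)) ≤ ‖Xf β R h t k‖ := by
  subst hκ
  rw [norm_Xf_eq hβ ht hD]
  have hA : 0 < 1 + (β * R) ^ 2 := by positivity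
  have hH : 1 - ε ≤ ‖HH β (sg (β * R) t')‖ := by
    have h1 := norm_sub_norm_le 1 (1 - HH β (sg (β * R) t'))
    rw [norm_one, norm_sub_rev 1] at h1
    have h2 : (1 : ℂ) - (1 - HH β (sg (β * R) t')) = HH β (sg (β * R) t') := by ring
    rw [h2] at h1
    linarith
  have hs := sD_pos hD
  have hS : 0 < Real.sqrt (Real.sqrt (sD (β * R) t')) := Real.sqrt_pos.2 (Real.sqrt_pos.2 hs)
  have hS1 : 0 < Real.sqrt (Real.sqrt (1 + (β * R) ^ 2)) := Real.sqrt_pos.2 (Real.sqrt_pos.2 hA)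
  have key : Real.exp (-m) * Real.sqrt (Real.sqrt (sD (β * R) t')) ≤
      (1 - ε) * Real.sqrt (Real.sqrt (1 + (β * R) ^ 2)) := by
    apply le_of_pow4 (by have : 0 ≤ 1 - ε := by linarith
                         positivity)
    rw [mul_pow (Real.exp (-m)), mul_pow (1 - ε), q4 hA.le, q4 hs.le, exp4]
    have h2 := r1_exp_ge3 (4 * m)
    have h3 : (1 - ε) ^ 4 * (1 + 4 * m + (4 * m) ^ 2 / 2 + (4 * m) ^ 3 / 6) ≤
        (1 - ε) ^ 4 * Real.exp (4 * m) := mul_le_mul_of_nonneg_left h2 (by positivity)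
    have h4 := hm.trans h3
    have h5 := mul_le_mul_of_nonneg_right h4 hA.le
    have h6 : Real.exp (4 * -m) * Real.exp (4 * m) = 1 := by
      rw [← Real.exp_add]
      simp
    have h8 := mul_le_mul_of_nonneg_left (hd.trans h5) (Real.exp_pos (4 * -m)).le
    calc Real.exp (4 * -m) * sD (β * R) t' ≤
        Real.exp (4 * -m) * ((1 - ε) ^ 4 * Real.exp (4 * m) * (1 + (β * R) ^ 2)) := h8
      _ = (Real.exp (4 * -m) * Real.exp (4 * m)) * ((1 - ε) ^ 4 * (1 + (β * R) ^ 2)) := by ring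
      _ = (1 - ε) ^ 4 * (1 + (β * R) ^ 2) := by rw [h6, one_mul]
  have hE : Real.exp R * Real.exp (-(R / (1 + (β * R) ^ 2) * (c * (t' + β * R) ^ 2))) ≤
      Real.exp (β * R / β * sE (β * R) t') := by
    rw [← Real.exp_add]
    apply Real.exp_le_exp.2
    have e : β * R / β = R := by field_simp
    rw [e]
    have h5 := mul_le_mul_of_nonneg_left hc hR
    have e2 : R * (1 - c * (t' + β * R) ^ 2 / (1 + (β * R) ^ 2)) =
      R + -(R / (1 + (β * R) ^ 2) * (c * (t' + β * R) ^ 2)) := by ring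
    linarith
  unfold sQ eN
  have h7 : (1 - ε) * (Real.exp R *
        Real.exp (-(R / (1 + (β * R) ^ 2) * (c * (t' + β * R) ^ 2))) /
        Real.sqrt (Real.sqrt (sD (β * R) t'))) ≤
      ‖HH β (sg (β * R) t')‖ * (Real.exp (β * R / β * sE (β * R) t') /
      Real.sqrt (Real.sqrt (sD (β * R) t'))) := by
    apply mul_le_mul hH _ (by positivity) (norm_nonneg _)
    exact div_le_div_of_nonneg_right hE hS.le
  refine le_trans ?_ h7
  rw [sub_eq_add_neg, Real.exp_add]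
  have e3 : (1 - ε) * (Real.exp R * Real.exp (-(R / (1 + (β * R) ^ 2) * (c * (t' + β * R) ^ 2))) /
        Real.sqrt (Real.sqrt (sD (β * R) t'))) =
      ((1 - ε) / Real.sqrt (Real.sqrt (sD (β * R) t'))) * (Real.exp R *
        Real.exp (-(R / (1 + (β * R) ^ 2) * (c * (t' + β * R) ^ 2)))) := by ring
  have e4 : Real.exp R / Real.sqrt (Real.sqrt (1 + (β * R) ^ 2)) * (Real.exp (-m) *
      Real.exp (-(R / (1 + (β * R) ^ 2) * (c * (t' + β * R) ^ 2)))) =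
      (Real.exp (-m) / Real.sqrt (Real.sqrt (1 + (β * R) ^ 2))) * (Real.exp R *
        Real.exp (-(R / (1 + (β * R) ^ 2) * (c * (t' + β * R) ^ 2)))) := by ring
  rw [e3, e4]
  apply mul_le_mul_of_nonneg_right _ (by positivity)
  rw [div_le_div_iff₀ hS1 hS]
  exact key

/-- a crude bound in the normal form -/
theorem far_norm {X B E m R κ : ℝ} (hB : 0 ≤ B) (hX : X ≤ B * Real.exp (R * E))
    (hm : B ^ 4 * (1 + κ ^ 2) ≤ 1 + 4 * m + (4 * m) ^ 2 / 2 + (4 * m) ^ 3 / 6) :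
    X ≤ eN R κ * Real.exp (m - R / (1 + κ ^ 2) * ((1 + κ ^ 2) * (1 - E))) := by
  have hA : 0 < 1 + κ ^ 2 := by positivity
  have hS1 : 0 < Real.sqrt (Real.sqrt (1 + κ ^ 2)) := Real.sqrt_pos.2 (Real.sqrt_pos.2 hA)
  have key : B * Real.sqrt (Real.sqrt (1 + κ ^ 2)) ≤ Real.exp m := by
    apply le_of_pow4 (Real.exp_pos _).le
    rw [mul_pow, q4 hA.le, exp4]
    exact hm.trans (r1_exp_ge3 _)
  refine hX.trans ?_
  have e1 : R / (1 + κ ^ 2) * ((1 + κ ^ 2) * (1 - E)) = R - R * E := by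
    field_simp
  rw [e1]
  unfold eN
  have e2 : Real.exp (m - (R - R * E)) = Real.exp m * Real.exp (R * E) * Real.exp (-R) := by
    rw [← Real.exp_add, ← Real.exp_add]
    congr 1
    ring
  rw [e2]
  have e3 : Real.exp R * Real.exp (-R) = 1 := by rw [← Real.exp_add]; simp
  have e4 : Real.exp R / Real.sqrt (Real.sqrt (1 + κ ^ 2)) *
      (Real.exp m * Real.exp (R * E) * Real.exp (-R)) =
      (Real.exp R * Real.exp (-R)) * (Real.exp m / Real.sqrt (Real.sqrt (1 + κ ^ 2)) *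
        Real.exp (R * E)) := by ring
  rw [e4, e3, one_mul]
  apply mul_le_mul_of_nonneg_right _ (Real.exp_pos _).le
  rw [le_div_iff₀ hS1]
  exact key

/-- the products for `k ≥ 1` -/
theorem Mpos {N Gk G0 G1 p p0 q1 μ : ℝ} (hN : 0 < N) (n : ℕ) (hG0' : 0 ≤ G0)
    (hk : Gk ≤ N * Real.exp p) (h0 : G0 ≤ N * Real.exp p0) (h1 : N * Real.exp q1 ≤ G1)
    (hμ : p + n * p0 - (n + 1) * q1 ≤ μ) :
    Gk * G0 ^ (((n : ℤ) + 1) - 1) * G1 ^ (-((n : ℤ) + 1)) ≤ Real.exp μ := by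
  have hG1 : 0 < G1 := lt_of_lt_of_le (mul_pos hN (Real.exp_pos _)) h1
  have e1 : G0 ^ (((n : ℤ) + 1) - 1) = G0 ^ n := by
    rw [add_sub_cancel_right, zpow_natCast]
  have e2 : G1 ^ (-((n : ℤ) + 1)) = (G1 ^ (n + 1))⁻¹ := by
    rw [zpow_neg]
    congr 1
  rw [e1, e2, ← div_eq_mul_inv, div_le_iff₀ (by positivity)]
  have h2 : Gk * G0 ^ n ≤ N * Real.exp p * (N * Real.exp p0) ^ n := by
    exact mul_le_mul hk (pow_le_pow_left₀ hG0' h0 n) (by positivity) (by positivity)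
  have h3 : (N * Real.exp q1) ^ (n + 1) ≤ G1 ^ (n + 1) :=
    pow_le_pow_left₀ (mul_pos hN (Real.exp_pos _)).le h1 _
  refine h2.trans ?_
  refine le_trans ?_ (mul_le_mul_of_nonneg_left h3 (Real.exp_pos μ).le)
  rw [mul_pow, mul_pow, ← Real.exp_nat_mul, ← Real.exp_nat_mul]
  have e3 : N * Real.exp p * (N ^ n * Real.exp (n * p0)) = N ^ (n + 1) * Real.exp (p + n * p0) := by
    rw [Real.exp_add]; ring
  have e4 : Real.exp μ * (N ^ (n + 1) * Real.exp (((n + 1 : ℕ) : ℝ) * q1)) =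
      N ^ (n + 1) * Real.exp (μ + (n + 1) * q1) := by
    rw [Real.exp_add]; push_cast; ring
  rw [e3, e4]
  apply mul_le_mul_of_nonneg_left _ (by positivity)
  apply Real.exp_le_exp.2
  linarith

/-- the products for `k ≤ 0`, `k = -n` -/
theorem Mneg {N Gk G0 G1 p q0 p1 μ : ℝ} (hN : 0 < N) (n : ℕ) (hG1' : 0 ≤ G1)
    (hk : Gk ≤ N * Real.exp p) (h0 : N * Real.exp q0 ≤ G0) (h1 : G1 ≤ N * Real.exp p1)
    (hμ : p - (n + 1) * q0 + n * p1 ≤ μ) :
    Gk * G0 ^ (-(n : ℤ) - 1) * G1 ^ (-(-(n : ℤ))) ≤ Real.exp μ := by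
  have hG0 : 0 < G0 := lt_of_lt_of_le (mul_pos hN (Real.exp_pos _)) h0
  have e1 : G0 ^ (-(n : ℤ) - 1) = (G0 ^ (n + 1))⁻¹ := by
    rw [show -(n : ℤ) - 1 = -((n : ℤ) + 1) by ring, zpow_neg]
    congr 1
  have e2 : G1 ^ (-(-(n : ℤ))) = G1 ^ n := by rw [neg_neg, zpow_natCast]
  rw [e1, e2]
  have e5 : Gk * (G0 ^ (n + 1))⁻¹ * G1 ^ n = Gk * G1 ^ n / G0 ^ (n + 1) := by
    rw [div_eq_mul_inv]; ring
  rw [e5, div_le_iff₀ (by positivity)]
  have h2 : Gk * G1 ^ n ≤ N * Real.exp p * (N * Real.exp p1) ^ n := by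
    exact mul_le_mul hk (pow_le_pow_left₀ hG1' h1 n) (by positivity) (by positivity)
  have h3 : (N * Real.exp q0) ^ (n + 1) ≤ G0 ^ (n + 1) :=
    pow_le_pow_left₀ (mul_pos hN (Real.exp_pos _)).le h0 _
  refine h2.trans ?_
  refine le_trans ?_ (mul_le_mul_of_nonneg_left h3 (Real.exp_pos μ).le)
  rw [mul_pow, mul_pow, ← Real.exp_nat_mul, ← Real.exp_nat_mul]
  have e3 : N * Real.exp p * (N ^ n * Real.exp (n * p1)) = N ^ (n + 1) * Real.exp (p + n * p1) := by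
    rw [Real.exp_add]; ring
  have e4 : Real.exp μ * (N ^ (n + 1) * Real.exp (((n + 1 : ℕ) : ℝ) * q0)) =
      N ^ (n + 1) * Real.exp (μ + (n + 1) * q0) := by
    rw [Real.exp_add]; push_cast; ring
  rw [e3, e4]
  apply mul_le_mul_of_nonneg_left _ (by positivity)
  apply Real.exp_le_exp.2
  linarith

/-- one copy against another -/
theorem ratio_le {N Gk G1 p q1 μ : ℝ} (hN : 0 < N)
    (hk : Gk ≤ N * Real.exp p) (h1 : N * Real.exp q1 ≤ G1) (hμ : p - q1 ≤ μ) :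
    Gk ≤ Real.exp μ * G1 := by
  have h3 := mul_le_mul_of_nonneg_left h1 (Real.exp_pos μ).le
  refine hk.trans (le_trans ?_ h3)
  have e4 : Real.exp μ * (N * Real.exp q1) = N * Real.exp (μ + q1) := by
    rw [Real.exp_add]; ring
  rw [e4]
  apply mul_le_mul_of_nonneg_left _ hN.le
  apply Real.exp_le_exp.2
  linarith

/-- numerical upper bound of an exponential with a negative argument:
`exp (-(n + z)) ≤ E` as soon as `1 ≤ E 2.7182818^n (1 + z + z²/2 + z³/6)` -/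
theorem exp_neg_le_num {x z E : ℝ} (n : ℕ) (hx : x ≤ -(n + z)) (hz : 0 ≤ z) (hE : 0 < E)
    (h : 1 ≤ E * (2.7182818 ^ n * (1 + z + z ^ 2 / 2 + z ^ 3 / 6))) : Real.exp x ≤ E := by
  have h1 : Real.exp x ≤ Real.exp (-(n + z)) := Real.exp_le_exp.2 hx
  refine h1.trans ?_
  have h0 : Real.exp (n : ℝ) = Real.exp 1 ^ n := by rw [← Real.exp_nat_mul, mul_one]
  rw [Real.exp_neg, inv_le_comm₀ (Real.exp_pos _) hE, Real.exp_add, h0]
  have h2 : (2.7182818 : ℝ) ^ n ≤ Real.exp 1 ^ n :=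
    pow_le_pow_left₀ (by norm_num) (by linarith [Real.exp_one_gt_d9]) n
  have h3 := r1_exp_ge3 z
  have h4 : (2.7182818 : ℝ) ^ n * (1 + z + z ^ 2 / 2 + z ^ 3 / 6) ≤
      Real.exp 1 ^ n * Real.exp z := mul_le_mul h2 h3 (by positivity) (by positivity)
  rw [inv_le_iff_one_le_mul₀ hE]
  calc (1 : ℝ) ≤ E * (2.7182818 ^ n * (1 + z + z ^ 2 / 2 + z ^ 3 / 6)) := h
    _ ≤ E * (Real.exp 1 ^ n * Real.exp z) := mul_le_mul_of_nonneg_left h4 hE.le
    _ = _ := by ring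

end Sok
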