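import Pool.Agent.Lib.MP_816dec_an.R1Near
import Pool.Agent.Lib.MP_816dec_an.R1BE
import Pool.Agent.Lib.MP_816dec_an.R1Ineq6
import Pool.Agent.Lib.MP_816dec_an.R1Exp

/-!
MP_816dec_an (A3, row R1, `b ≥ 9`): the copy `2` on the outer segment.
-/

set_option autoImplicit false

open Complex Set Filter Topology Metric

namespace Sok

/-- quotient of two saddle values -/
theorem sQ_ratio {β κ R u v Y ρ : ℝ} (hb : κ / β = R) (du : DomR κ u) (dv : DomR κ v) (hρ : 0 ≤ ρ)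
    (hE : R * sE κ u + Y ≤ R * sE κ v) (hD : sD κ v ≤ ρ ^ 4 * sD κ u) :
    sQ β κ u ≤ Real.exp (-Y) * ρ * sQ β κ v := by
  have hDu := sD_pos du
  have hDv := sD_pos dv
  unfold sQ
  rw [hb]
  obtain ⟨qu, hqu⟩ : ∃ q, q = Real.sqrt (Real.sqrt (sD κ u)) := ⟨_, rfl⟩
  obtain ⟨qv, hqv⟩ : ∃ q, q = Real.sqrt (Real.sqrt (sD κ v)) := ⟨_, rfl⟩
  have p4 : ∀ x : ℝ, 0 < x → Real.sqrt (Real.sqrt x) ^ 4 = x := by
    intro x hx
    rw [show Real.sqrt (Real.sqrt x) ^ 4 = (Real.sqrt (Real.sqrt x) ^ 2) ^ 2 by ring,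
      Real.sq_sqrt (Real.sqrt_nonneg _), Real.sq_sqrt hx.le]
  have qup : 0 < qu := by rw [hqu]; exact Real.sqrt_pos.2 (Real.sqrt_pos.2 hDu)
  have qvp : 0 < qv := by rw [hqv]; exact Real.sqrt_pos.2 (Real.sqrt_pos.2 hDv)
  have eu : qu ^ 4 = sD κ u := by rw [hqu, p4 _ hDu]
  have ev : qv ^ 4 = sD κ v := by rw [hqv, p4 _ hDv]
  rw [← hqu, ← hqv]
  have hq : qv ≤ ρ * qu := by
    by_contra hcon
    push Not at hcon
    have h1 : (ρ * qu) ^ 4 < qv ^ 4 := pow_lt_pow_left₀ hcon (by positivity) (by norm_num)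
    rw [mul_pow, eu, ev] at h1
    linarith
  have hE2 : Real.exp (R * sE κ u) ≤ Real.exp (-Y) * Real.exp (R * sE κ v) := by
    rw [← Real.exp_add]
    exact Real.exp_le_exp.2 (by linarith)
  rw [div_le_iff₀ qup]
  have e : Real.exp (-Y) * ρ * (Real.exp (R * sE κ v) / qv) * qu =
      Real.exp (-Y) * Real.exp (R * sE κ v) * (ρ * qu / qv) := by ring
  rw [e]
  have h1 : 1 ≤ ρ * qu / qv := by rw [le_div_iff₀ qvp, one_mul]; exact hq
  calc Real.exp (R * sE κ u) ≤ Real.exp (-Y) * Real.exp (R * sE κ v) * 1 := by rw [mul_one]; exact hE2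
    _ ≤ _ := mul_le_mul_of_nonneg_left h1 (by positivity)

theorem OP.Rpos {b : ℕ} {h κ R t : ℝ} (H : OP b h κ R t) : 0 < R := by linarith [H.R1]

theorem OP.beta {b : ℕ} {h κ R t β : ℝ} (H : OP b h κ R t) (hβ : β = κ / R) :
    0 < β ∧ β * R = κ ∧ κ / β = R := by
  have h1 := H.Rpos
  have h2 := H.k0
  refine ⟨by rw [hβ]; positivity, by rw [hβ]; field_simp, by rw [hβ]; field_simp⟩

theorem OP.hpos {b : ℕ} {h κ R t : ℝ} (H : OP b h κ R t) : 0 < h := h_pos H.hb H.hh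

/-- the parameter `s` -/
theorem OP.exists_s {b : ℕ} {h κ R t : ℝ} (H : OP b h κ R t) :
    ∃ s, t + κ = s * h ∧ (t + κ) / h = s ∧ 0.03 ≤ s ∧ s ≤ 1.03 := by
  have hp := H.hpos
  refine ⟨(t + κ) / h, by field_simp, rfl, ?_, ?_⟩
  · rw [le_div_iff₀ hp]; exact H.lo
  · rw [div_le_iff₀ hp]; exact H.hi

theorem OP.dom {b : ℕ} {h κ R t : ℝ} (H : OP b h κ R t) :
    DomR κ (t - h) ∧ DomR κ t ∧ DomR κ (t + h) := by
  obtain ⟨s, hs, -, h1, h2⟩ := H.exists_s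
  have hp := H.hpos
  have hh := h_le9 H.hb H.hh
  have hk := H.k0
  have hpi := Real.pi_gt_d2
  have he : Real.exp (-1) < κ ∨ κ ≤ 0.38 := by
    rcases le_or_gt κ 0.38 with h3 | h3
    · exact Or.inr h3
    · left
      have := Real.exp_neg_one_lt_d9
      linarith
  have hsh : s * h ≤ 1.03 * 0.6982 := mul_le_mul h2 hh hp.le (by norm_num)
  have hsh0 : 0 < s * h := mul_pos (by linarith) hp
  refine ⟨⟨hk, by linarith, ?_⟩, ⟨hk, by linarith, ?_⟩, ⟨hk, by linarith, ?_⟩⟩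
  · rcases he with h3 | h3
    · exact Or.inl h3
    · right; linarith
  · rcases he with h3 | h3
    · exact Or.inl h3
    · right; linarith
  · rcases he with h3 | h3
    · exact Or.inl h3
    · right; linarith

/-- the exponent: `u` is the far copy, `v` the near one -/
theorem OP.ratio {b : ℕ} {h κ R t β u v x ρ : ℝ} (H : OP b h κ R t) (hβ : β = κ / R)
    (du : DomR κ u) (dv : DomR κ v) (hρ : 0 ≤ ρ) (hx : 0 ≤ x)
    (hE : sE κ u + x * (h ^ 2 / (1 + κ ^ 2)) ≤ sE κ v) (hD : sD κ v ≤ ρ ^ 4 * sD κ u) :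
    sQ β κ u ≤ Real.exp (-(5.44 * x)) * ρ * sQ β κ v := by
  obtain ⟨-, -, hb2⟩ := H.beta hβ
  refine sQ_ratio hb2 du dv hρ ?_ hD
  have hR := H.Rpos
  have hA : 0 < 1 + κ ^ 2 := by positivity
  have h1 := mul_le_mul_of_nonneg_left hE hR.le
  have h2 : 5.44 ≤ R * h ^ 2 / (1 + κ ^ 2) := by
    rw [le_div_iff₀ hA]; exact H.T1
  have h3 := mul_le_mul_of_nonneg_right h2 hx
  have e : R * (sE κ u + x * (h ^ 2 / (1 + κ ^ 2))) = R * sE κ u + R * h ^ 2 / (1 + κ ^ 2) * x := by ring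
  rw [e] at h1
  linarith

/-- the copy `2` against a near copy -/
theorem K2D_core {b : ℕ} {h κ R t β v x ρ G e g M : ℝ} (H : OP b h κ R t) (hβ : β = κ / R)
    (hJ : ‖HH β (sg κ (t + h)) - 1‖ ≤ 0.04) (dv : DomR κ v) (hρ : 0 ≤ ρ) (hx : 0 ≤ x)
    (hE : sE κ (t + h) + x * (h ^ 2 / (1 + κ ^ 2)) ≤ sE κ v) (hD : sD κ v ≤ ρ ^ 4 * sD κ (t + h))
    (hG : g * sQ β κ v ≤ G) (he : 0 ≤ e) (hGM : G ≤ M)
    (hnum : 1.04 * (Real.exp (-(5.44 * x)) * ρ) ≤ e * g) :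
    ‖Xf β R h t 2‖ ≤ e * M := by
  obtain ⟨-, -, d2⟩ := H.dom
  obtain ⟨hb0, hb1, -⟩ := H.beta hβ
  have s2 := sQ_pos (β := β) d2
  have sv := sQ_pos (β := β) dv
  have hX : ‖Xf β R h t 2‖ ≤ 1.04 * sQ β κ (t + h) := by
    have e := norm_Xf_eq (R := R) (h := h) (t := t) hb0 (k := 2) (t' := t + h) (by push_cast; ring)
      (by rw [hb1]; exact d2)
    rw [e, hb1]
    apply mul_le_mul_of_nonneg_right _ s2.le
    have h3 := norm_add_le (HH β (sg κ (t + h)) - 1) 1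
    rw [sub_add_cancel, norm_one] at h3
    linarith
  have h1 := H.ratio hβ d2 dv hρ hx hE hD
  calc ‖Xf β R h t 2‖ ≤ 1.04 * sQ β κ (t + h) := hX
    _ ≤ 1.04 * (Real.exp (-(5.44 * x)) * ρ * sQ β κ v) := mul_le_mul_of_nonneg_left h1 (by norm_num)
    _ = 1.04 * (Real.exp (-(5.44 * x)) * ρ) * sQ β κ v := by ring
    _ ≤ e * g * sQ β κ v := mul_le_mul_of_nonneg_right hnum sv.le
    _ = e * (g * sQ β κ v) := by ring
    _ ≤ e * G := mul_le_mul_of_nonneg_left hG he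
    _ ≤ e * M := mul_le_mul_of_nonneg_left hGM he

/-! ### the denominators -/

/-- `κ ≤ 1`: `D₁ ≤ (1 + τ/2 + τ²/4) (1 + κ²)` -/
theorem D1_up {κ t : ℝ} (h : DomR κ t) (ht : 0 ≤ t + κ) (hk1 : κ ≤ 1) :
    sD κ t ≤ (1 + 0.5 * (t + κ) + 0.25 * (t + κ) ^ 2) * (1 + κ ^ 2) := by
  have hk0 := h.1
  obtain ⟨A, hA⟩ : ∃ A, A = 1 + κ ^ 2 := ⟨_, rfl⟩
  have hA0 : 0 < A := by rw [hA]; positivity
  obtain ⟨τ, hτ⟩ : ∃ τ, τ = t + κ := ⟨_, rfl⟩
  have hD1 := DR_le (s := τ / A) h (by rw [hτ, hA]) ht hk1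
  have hD1' : sD κ t ≤ 1 + κ ^ 2 + 2 * (κ * (τ / A)) * (1 - κ ^ 2) + 2 * κ ^ 2 * (κ * (τ / A)) ^ 2 := hD1
  rw [← hτ] at ht ⊢
  have hg : 2 * κ * (1 - κ ^ 2) ≤ 1 / 2 * A ^ 2 := by
    rw [hA]
    nlinarith [sq_nonneg (κ ^ 2 + 2 * κ - 1)]
  have hq : 2 * κ ^ 4 ≤ 1 / 4 * A ^ 3 := by
    rw [hA]
    have h1 : κ ^ 2 ≤ 1 := by nlinarith
    have h2 : 0 ≤ κ ^ 2 := sq_nonneg κ
    have e : 1 / 4 * (1 + κ ^ 2) ^ 3 - 2 * κ ^ 4 = 1 / 4 * ((1 - κ ^ 2) * (1 + 4 * κ ^ 2 - (κ ^ 2) ^ 2)) := by ring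
    have h3 : 0 ≤ (1 - κ ^ 2) * (1 + 4 * κ ^ 2 - (κ ^ 2) ^ 2) := by
      apply mul_nonneg (by linarith)
      nlinarith
    linarith
  refine hD1'.trans ?_
  have u1 : 2 * (κ * (τ / A)) * (1 - κ ^ 2) ≤ 0.5 * τ * A := by
    have : 2 * (κ * (τ / A)) * (1 - κ ^ 2) = (2 * κ * (1 - κ ^ 2)) * (τ / A) := by ring
    rw [this]
    have h9 := mul_le_mul_of_nonneg_right hg (div_nonneg ht hA0.le)
    have h10 : 1 / 2 * A ^ 2 * (τ / A) = 0.5 * τ * A := by field_simp; ring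
    linarith
  have u2 : 2 * κ ^ 2 * (κ * (τ / A)) ^ 2 ≤ 0.25 * τ ^ 2 * A := by
    have : 2 * κ ^ 2 * (κ * (τ / A)) ^ 2 = (2 * κ ^ 4) * (τ / A) ^ 2 := by ring
    rw [this]
    have h9 := mul_le_mul_of_nonneg_right hq (sq_nonneg (τ / A))
    have h10 : 1 / 4 * A ^ 3 * (τ / A) ^ 2 = 0.25 * τ ^ 2 * A := by field_simp; ring
    linarith
  have e3 : (1 + 0.5 * τ + 0.25 * τ ^ 2) * (1 + κ ^ 2) = 1 + κ ^ 2 + 0.5 * τ * A + 0.25 * τ ^ 2 * A := by
    rw [hA]; ring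
  linarith

/-- `κ ≥ 1`: `D₁ ≤ (1 + 0.3 τ²) (1 + κ²)` -/
theorem D1_up' {κ t : ℝ} (h : DomR κ t) (ht : 0 ≤ t + κ) (hk1 : 1 ≤ κ) (hk2 : κ ^ 2 ≤ 3) :
    sD κ t ≤ (1 + 0.3 * (t + κ) ^ 2) * (1 + κ ^ 2) := by
  have hk0 := h.1
  obtain ⟨A, hA⟩ : ∃ A, A = 1 + κ ^ 2 := ⟨_, rfl⟩
  have hA0 : 0 < A := by rw [hA]; positivity
  obtain ⟨τ, hτ⟩ : ∃ τ, τ = t + κ := ⟨_, rfl⟩
  have hD1 := DR_le' (s := τ / A) h (by rw [hτ, hA]) ht hk1 hk2
  have hD1' : sD κ t ≤ 1 + κ ^ 2 + 2 * κ ^ 2 * (κ * (τ / A)) ^ 2 := hD1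
  rw [← hτ] at ht ⊢
  have hq : 2 * κ ^ 4 ≤ 0.3 * A ^ 3 := by
    rw [hA]
    nlinarith [sq_nonneg (κ ^ 2 - 2), mul_nonneg (sq_nonneg (κ ^ 2 - 2)) (sq_nonneg κ)]
  refine hD1'.trans ?_
  have u2 : 2 * κ ^ 2 * (κ * (τ / A)) ^ 2 ≤ 0.3 * τ ^ 2 * A := by
    have : 2 * κ ^ 2 * (κ * (τ / A)) ^ 2 = (2 * κ ^ 4) * (τ / A) ^ 2 := by ring
    rw [this]
    have h9 := mul_le_mul_of_nonneg_right hq (sq_nonneg (τ / A))
    have h10 : 0.3 * A ^ 3 * (τ / A) ^ 2 = 0.3 * τ ^ 2 * A := by field_simp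
    linarith
  have e3 : (1 + 0.3 * τ ^ 2) * (1 + κ ^ 2) = 1 + κ ^ 2 + 0.3 * τ ^ 2 * A := by
    rw [hA]; ring
  linarith

/-- `1 ≤ κ ≤ 1.39`: `D ≥ 0.87 (1 + κ²)` -/
theorem D_low87 {κ t : ℝ} (h : DomR κ t) (hk1 : 1 ≤ κ) (hk2 : κ ≤ 1.39) : 0.87 * (1 + κ ^ 2) ≤ sD κ t := by
  have hk0 := h.1
  have h1 : 2 + 2 * Real.log κ ≤ sD κ t := D_ge_log h
  have h2 : 1 - 1 / κ ≤ Real.log κ := by
    have h3 := Real.one_sub_inv_le_log_of_pos hk0
    rwa [inv_eq_one_div] at h3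
  have h5 : 0.87 * (1 + κ ^ 2) ≤ 2 + 2 * (1 - 1 / κ) := by
    rw [← sub_nonneg]
    have e5 : 2 + 2 * (1 - 1 / κ) - 0.87 * (1 + κ ^ 2) = (3.13 * κ - 2 - 0.87 * κ ^ 3) / κ := by
      field_simp
      ring
    rw [e5]
    apply div_nonneg _ hk0.le
    nlinarith [mul_nonneg (sub_nonneg.2 hk1) (sub_nonneg.2 hk2)]
  linarith

/-- quotient `D₁ / D₂`, `δ` = numerical bound -/
theorem OP.D12 {b : ℕ} {h κ R t : ℝ} (H : OP b h κ R t) (τm δ : ℝ) (hτ : t + κ ≤ τm)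
    (h1 : 1 + 0.5 * τm + 0.25 * τm ^ 2 ≤ δ) (h2 : 1 + 0.3 * τm ^ 2 ≤ δ * 0.87) :
    sD κ t ≤ δ * sD κ (t + h) := by
  obtain ⟨-, d1, d2⟩ := H.dom
  have hp := H.hpos
  have hk0 := H.k0
  have ht0 : 0 ≤ t + κ := by
    have := H.lo
    nlinarith
  have hA : 0 < 1 + κ ^ 2 := by positivity
  have hsq : (t + κ) ^ 2 ≤ τm ^ 2 := pow_le_pow_left₀ ht0 hτ 2
  have hδ : 0 ≤ δ := by nlinarith
  rcases le_total κ 1 with hk | hk
  · have e1 := D1_up d1 ht0 hk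
    have e2 : 1 + κ ^ 2 ≤ sD κ (t + h) := DR_ge d2 (by linarith) hk
    have e3 : (1 + 0.5 * (t + κ) + 0.25 * (t + κ) ^ 2) * (1 + κ ^ 2) ≤ δ * (1 + κ ^ 2) :=
      mul_le_mul_of_nonneg_right (by linarith) hA.le
    have e4 := mul_le_mul_of_nonneg_left e2 hδ
    linarith
  · have e1 := D1_up' d1 ht0 hk (by have := H.k1; nlinarith)
    have e2 := D_low87 d2 hk H.k1
    have e3 : (1 + 0.3 * (t + κ) ^ 2) * (1 + κ ^ 2) ≤ δ * 0.87 * (1 + κ ^ 2) :=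
      mul_le_mul_of_nonneg_right (by linarith) hA.le
    have e4 := mul_le_mul_of_nonneg_left e2 hδ
    linarith

/-! ### the copy `0`, close to the peak -/

/-- crude lower bound close to the peak -/
theorem V0_low {κ t : ℝ} (h : DomR κ t) (hk : κ ≤ 1.39) (h1 : -0.11 ≤ t + κ) :
    1 - (t + κ) ^ 2 / (1 + κ ^ 2) ≤ sE κ t := by
  have hk0 := h.1
  have hA : 0 < 1 + κ ^ 2 := by positivity
  rcases le_total 0 (t + κ) with h0 | h0
  · have h2 := low_quad h (by nlinarith) h0 t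
    rw [sub_self, mul_zero, add_zero] at h2
    refine le_trans ?_ h2
    have e : (t + κ) ^ 2 / (1 + κ ^ 2) = 2 * ((t + κ) ^ 2 / (2 * (1 + κ ^ 2))) := by field_simp
    have h3 : 0 ≤ (t + κ) ^ 2 / (2 * (1 + κ ^ 2)) := by positivity
    linarith
  · obtain ⟨s, hs⟩ : ∃ s, s = -(t + κ) / (1 + κ ^ 2) := ⟨_, rfl⟩
    have hs0 : 0 ≤ s := by rw [hs]; exact div_nonneg (by linarith) hA.le
    have hs1 : s ≤ 0.11 := by
      rw [hs, div_le_iff₀ hA]
      nlinarith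
    have h2 := VLlow h hs hs0 (by linarith)
    refine le_trans ?_ h2
    have e : (t + κ) ^ 2 / (1 + κ ^ 2) = (1 + κ ^ 2) * s ^ 2 := by rw [hs]; field_simp
    rw [e]
    have b1 : κ * (1 / 2 - κ ^ 2 / 6) * s ^ 3 ≤ 1.39 * (1 / 2) * (0.11 * s ^ 2) := by
      have c1 : κ * (1 / 2 - κ ^ 2 / 6) ≤ 1.39 * (1 / 2) := by nlinarith [pow_pos hk0 3]
      have c2 : s ^ 3 ≤ 0.11 * s ^ 2 := by nlinarith [sq_nonneg s]
      have c3 : 0 ≤ s ^ 3 := by positivity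
      calc κ * (1 / 2 - κ ^ 2 / 6) * s ^ 3 ≤ 1.39 * (1 / 2) * s ^ 3 := mul_le_mul_of_nonneg_right c1 c3
        _ ≤ 1.39 * (1 / 2) * (0.11 * s ^ 2) := mul_le_mul_of_nonneg_left c2 (by norm_num)
    have b2 : κ ^ 4 * s ^ 4 / 12 ≤ 0.01 * s ^ 2 := by
      have c1 : κ ^ 4 ≤ 1.39 ^ 4 := pow_le_pow_left₀ hk0.le hk 4
      have c2 : s ^ 4 ≤ 0.0121 * s ^ 2 := by
        have : s ^ 2 ≤ 0.11 ^ 2 := pow_le_pow_left₀ hs0 hs1 2
        nlinarith [sq_nonneg s]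
      have c3 : κ ^ 4 * s ^ 4 ≤ 1.39 ^ 4 * (0.0121 * s ^ 2) := mul_le_mul c1 c2 (by positivity) (by positivity)
      nlinarith [sq_nonneg s]
    have b3 : (1 + κ * s) * (s ^ 4 / 12 + s ^ 6 / 24) ≤ 0.01 * s ^ 2 := by
      have c0 : s ^ 2 ≤ 0.11 ^ 2 := pow_le_pow_left₀ hs0 hs1 2
      have c1 : 1 + κ * s ≤ 2 := by nlinarith
      have c2 : s ^ 4 / 12 + s ^ 6 / 24 ≤ 0.005 * s ^ 2 := by
        have d1 : s ^ 4 ≤ 0.0121 * s ^ 2 := by nlinarith [sq_nonneg s]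
        have d2 : s ^ 6 ≤ 0.0121 * s ^ 4 := by nlinarith [sq_nonneg (s ^ 2)]
        nlinarith [sq_nonneg s]
      calc (1 + κ * s) * (s ^ 4 / 12 + s ^ 6 / 24) ≤ 2 * (0.005 * s ^ 2) :=
            mul_le_mul c1 c2 (by positivity) (by norm_num)
        _ = 0.01 * s ^ 2 := by ring
    nlinarith [sq_nonneg s, mul_nonneg (sq_nonneg κ) (sq_nonneg s)]

/-- upper bound of the denominator close to the peak -/
theorem D0_up {κ t : ℝ} (h : DomR κ t) (hk : κ ≤ 1.39) (h1 : -0.105 ≤ t + κ) (h2 : t + κ ≤ 0.021) :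
    sD κ t ≤ 1.05 * (1 + κ ^ 2) ∧ (κ ≤ 1 → sD κ t ≤ 1.0107 * (1 + κ ^ 2)) := by
  have hk0 := h.1
  have hA : 0 < 1 + κ ^ 2 := by positivity
  rcases le_total 0 (t + κ) with h0 | h0
  · have hsq : (t + κ) ^ 2 ≤ 0.021 ^ 2 := pow_le_pow_left₀ h0 h2 2
    have hc : κ ≤ 1 → sD κ t ≤ 1.0107 * (1 + κ ^ 2) := by
      intro hk1
      refine (D1_up h h0 hk1).trans ?_
      exact mul_le_mul_of_nonneg_right (by linarith) hA.le
    refine ⟨?_, hc⟩
    rcases le_total κ 1 with hk1 | hk1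
    · have := hc hk1
      linarith
    · refine (D1_up' h h0 hk1 (by nlinarith)).trans ?_
      exact mul_le_mul_of_nonneg_right (by linarith) hA.le
  · have hy0 := sy_nonpos h h0
    have hp := pLu_00_02 h (by linarith) (by linarith) (by linarith)
    have hY : -0.0583 ≤ sy κ t := by
      rw [sy_eq_sp h]
      have e1 := mul_le_mul_of_nonneg_left hp hk0.le
      refine le_trans ?_ e1
      have e2 : κ * (1.109 * (t + κ) / (1 + κ ^ 2)) = -(κ / (1 + κ ^ 2) * (1.109 * -(t + κ))) := by ring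
      rw [e2]
      have e3 : κ / (1 + κ ^ 2) ≤ 1 / 2 := by
        rw [div_le_div_iff₀ hA (by norm_num)]
        nlinarith [sq_nonneg (κ - 1)]
      have e4 : κ / (1 + κ ^ 2) * (1.109 * -(t + κ)) ≤ 1 / 2 * (1.109 * 0.105) :=
        mul_le_mul e3 (by linarith) (by linarith) (by norm_num)
      linarith
    have hD : sD κ t ≤ _ := DL_le h hy0 hY
    have hE : Real.exp (2 * 0.0583) ≤ 1.1238 := by
      have := r1_exp_le3 (z := 2 * 0.0583) (by norm_num) (by norm_num)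
      refine this.trans ?_
      norm_num
    have hk2 : 0 ≤ κ ^ 2 := sq_nonneg κ
    have hE2 := mul_le_mul_of_nonneg_left hE hk2
    constructor
    · refine hD.trans (max_le (by linarith) ?_)
      have : κ ^ 2 ≤ 1.39 ^ 2 := pow_le_pow_left₀ hk0.le hk 2
      linarith
    · intro hk1
      refine hD.trans (max_le (by linarith) ?_)
      have : κ ^ 2 ≤ 1 := by nlinarith
      linarith

/-! ### the copy `2` -/

/-- box for `κ ≥ 1` -/
theorem VR_084_k1 {κ t : ℝ} (h : DomR κ t) (hk : 1 ≤ κ) (h0 : 0 ≤ t + κ) (h1 : t + κ ≤ 0.84) :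
    sE κ t ≤ 1 - 0.4 * (t + κ) ^ 2 / (1 + κ ^ 2) :=
  VR_box h 0.75 0.4 1 (1 / 2) 0.84 _ _ h0 h1 hk psi_half
    (by norm_num) (by norm_num) rfl rfl (by norm_num) (by norm_num) (by norm_num)

theorem VR_074 {κ t : ℝ} (h : DomR κ t) (h0 : 0 ≤ t + κ) (h1 : t + κ ≤ 0.74) :
    sE κ t ≤ 1 - 0.389 * (t + κ) ^ 2 / (1 + κ ^ 2) := by
  have hk0 := h.1
  rcases le_total κ 0.36 with b1 | a1
  · exact VR_box h 0.69 0.389 0 (0.36 / (1 + 0.36 ^ 2)) 0.74 _ _ h0 h1 hk0.le (psi_lo hk0.le b1 (by norm_num))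
      (by norm_num) (by norm_num) rfl rfl (by norm_num) (by norm_num) (by norm_num)
  rcases le_total κ 0.48 with b2 | a2
  · exact VR_box h 0.7 0.389 0.36 (0.48 / (1 + 0.48 ^ 2)) 0.74 _ _ h0 h1 a1 (psi_lo hk0.le b2 (by norm_num))
      (by norm_num) (by norm_num) rfl rfl (by norm_num) (by norm_num) (by norm_num)
  rcases le_total κ 0.6 with b3 | a3
  · exact VR_box h 0.7 0.389 0.48 (0.6 / (1 + 0.6 ^ 2)) 0.74 _ _ h0 h1 a2 (psi_lo hk0.le b3 (by norm_num))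
      (by norm_num) (by norm_num) rfl rfl (by norm_num) (by norm_num) (by norm_num)
  exact VR_box h 0.69 0.389 0.6 (1 / 2) 0.74 _ _ h0 h1 a3 psi_half
    (by norm_num) (by norm_num) rfl rfl (by norm_num) (by norm_num) (by norm_num)

theorem VR_084 {κ t : ℝ} (h : DomR κ t) (h0 : 0 ≤ t + κ) (h1 : t + κ ≤ 0.84) :
    sE κ t ≤ 1 - 0.376 * (t + κ) ^ 2 / (1 + κ ^ 2) := by
  have hk0 := h.1
  rcases le_total κ 0.36 with b1 | a1
  · exact VR_box h 0.66 0.376 0 (0.36 / (1 + 0.36 ^ 2)) 0.84 _ _ h0 h1 hk0.le (psi_lo hk0.le b1 (by norm_num))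
      (by norm_num) (by norm_num) rfl rfl (by norm_num) (by norm_num) (by norm_num)
  rcases le_total κ 0.48 with b2 | a2
  · exact VR_box h 0.67 0.376 0.36 (0.48 / (1 + 0.48 ^ 2)) 0.84 _ _ h0 h1 a1 (psi_lo hk0.le b2 (by norm_num))
      (by norm_num) (by norm_num) rfl rfl (by norm_num) (by norm_num) (by norm_num)
  rcases le_total κ 0.6 with b3 | a3
  · exact VR_box h 0.67 0.376 0.48 (0.6 / (1 + 0.6 ^ 2)) 0.84 _ _ h0 h1 a2 (psi_lo hk0.le b3 (by norm_num))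
      (by norm_num) (by norm_num) rfl rfl (by norm_num) (by norm_num) (by norm_num)
  exact VR_box h 0.66 0.376 0.6 (1 / 2) 0.84 _ _ h0 h1 a3 psi_half
    (by norm_num) (by norm_num) rfl rfl (by norm_num) (by norm_num) (by norm_num)

/-- the copy `2` against `1`: the range `[s1, s2]`, `V₂ ≥ c (1+s)² h² / (1+κ²)` -/
theorem OP.K2_one {b : ℕ} {h κ R t β G0 G1 s : ℝ} (H : OP b h κ R t) (hβ : β = κ / R)
    (hJ : ‖HH β (sg κ (t + h)) - 1‖ ≤ 0.04) (h1 : 0.966 * sQ β κ t ≤ G1) (hs : t + κ = s * h)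
    (c s1 s2 x ρ e E : ℝ) (hs1 : s1 ≤ s) (hs2 : s ≤ s2) (h01 : 0 ≤ s1) (hc : 0 ≤ c) (he : 0 ≤ e) (hx : 0 ≤ x)
    (hc2 : sE κ (t + h) ≤ 1 - c * (t + h + κ) ^ 2 / (1 + κ ^ 2))
    (hx1 : x ≤ c * (1 + s1) ^ 2 - s1 ^ 2 / 2) (hx2 : x ≤ c * (1 + s2) ^ 2 - s2 ^ 2 / 2)
    (hρ : 0 ≤ ρ) (hD : sD κ t ≤ ρ ^ 4 * sD κ (t + h)) (hE : Real.exp (-(5.44 * x)) ≤ E)
    (hnum : 1.04 * (E * ρ) ≤ e * 0.966) :
    ‖Xf β R h t 2‖ ≤ e * max G0 G1 := by
  obtain ⟨-, d1, -⟩ := H.dom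
  have hp := H.hpos
  have hk0 := H.k0
  have hA : 0 < 1 + κ ^ 2 := by positivity
  have hs0 : 0 ≤ s := h01.trans hs1
  have hlow : 1 - (t + κ) ^ 2 / (2 * (1 + κ ^ 2)) ≤ sE κ t := by
    have h2 := low_quad d1 (by have := H.k1; nlinarith) (by rw [hs]; positivity) t
    rwa [sub_self, mul_zero, add_zero] at h2
  have hx3 : x ≤ c * (1 + s) ^ 2 - s ^ 2 / 2 := by
    -- the function is `(c - 1/2) s² + 2 c s + c`
    rcases le_total (c - 1 / 2) 0 with hcc | hcc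
    · have := quad_conc (α := c - 1 / 2) (β := 2 * c) (γ := c - x) hcc hs1 hs2 (by linarith) (by linarith)
      linarith
    · nlinarith [mul_nonneg hcc (mul_nonneg (sub_nonneg.2 hs1) (add_nonneg hs0 h01)), mul_nonneg hc (sub_nonneg.2 hs1)]
  refine K2D_core H hβ hJ d1 hρ hx ?_ hD h1 he (le_max_right G0 G1) ?_
  · have hX : 0 ≤ h ^ 2 / (1 + κ ^ 2) := by positivity
    have e2 : t + h + κ = (1 + s) * h := by linarith
    rw [e2] at hc2
    rw [hs] at hlow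
    have a2 : c * ((1 + s) * h) ^ 2 / (1 + κ ^ 2) = c * (1 + s) ^ 2 * (h ^ 2 / (1 + κ ^ 2)) := by ring
    have a1 : (s * h) ^ 2 / (2 * (1 + κ ^ 2)) = s ^ 2 / 2 * (h ^ 2 / (1 + κ ^ 2)) := by
      field_simp
    rw [a2] at hc2
    rw [a1] at hlow
    have h3 := mul_le_mul_of_nonneg_right hx3 hX
    linarith
  · refine le_trans ?_ hnum
    exact mul_le_mul_of_nonneg_left (mul_le_mul_of_nonneg_right hE hρ) (by norm_num)

/-- **ROW K2D**, given the saddle estimate -/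
theorem nearK2D_of {b : ℕ} {h κ R t β G0 G1 : ℝ} (H : OP b h κ R t) (hβ : β = κ / R)
    (hJ : ‖HH β (sg κ (t + h)) - 1‖ ≤ 0.04)
    (h0 : 0.95 * sQ β κ (t - h) ≤ G0) (h1 : 0.966 * sQ β κ t ≤ G1) :
    ‖Xf β R h t 2‖ ≤ e2 ((t + κ) / h) * max G0 G1 := by
  obtain ⟨s, hs, hs', hs1, hs2⟩ := H.exists_s
  obtain ⟨d0, d1, d2⟩ := H.dom
  have hp := H.hpos
  have hk0 := H.k0
  have hk1 := H.k1
  have hh := h_le9 H.hb H.hh
  have hA : 0 < 1 + κ ^ 2 := by positivity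
  rw [hs']
  -- bounds of the angles
  have hτ : ∀ m : ℝ, s ≤ m → t + κ ≤ m * 0.6982 := by
    intro m hm
    rw [hs]
    exact mul_le_mul hm hh hp.le (by linarith)
  have hτ2 : ∀ m : ℝ, s ≤ m → t + h + κ ≤ (1 + m) * 0.6982 := by
    intro m hm
    have e : t + h + κ = (1 + s) * h := by linarith
    rw [e]
    exact mul_le_mul (by linarith) hh hp.le (by linarith)
  have hτ0 : 0 ≤ t + h + κ := by
    have e : t + h + κ = (1 + s) * h := by linarith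
    rw [e]
    exact mul_nonneg (by linarith) hp.le
  unfold e2
  split_ifs with c1 c2 c3
  · -- `s ≤ 0.2`
    rcases le_total κ 1 with hk | hk
    · have hD : ∀ m δ : ℝ, s ≤ m → 1 + 0.5 * (m * 0.6982) + 0.25 * (m * 0.6982) ^ 2 ≤ δ → sD κ t ≤ δ * sD κ (t + h) := by
        intro m δ hm hδ
        have e1 := D1_up d1 (by rw [hs]; positivity) hk
        have e2 : 1 + κ ^ 2 ≤ sD κ (t + h) := DR_ge d2 (by linarith) hk
        have h3 := hτ _ hm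
        have h4 : 0 ≤ t + κ := by rw [hs]; positivity
        have h5 : (t + κ) ^ 2 ≤ (m * 0.6982) ^ 2 := pow_le_pow_left₀ h4 h3 2
        have h6 : 0 ≤ δ := by nlinarith
        have e3 : (1 + 0.5 * (t + κ) + 0.25 * (t + κ) ^ 2) * (1 + κ ^ 2) ≤ δ * (1 + κ ^ 2) :=
          mul_le_mul_of_nonneg_right (by linarith) hA.le
        have e4 := mul_le_mul_of_nonneg_left e2 h6
        linarith
      rcases le_total s 0.05 with c0 | c0
      · refine H.K2_one hβ hJ h1 hs 0.389 0.03 0.05 0.412 1.0045 0.117 0.1064 hs1 c0 (by norm_num) (by norm_num) (by norm_num)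
          (by norm_num) (VR_074 d2 hτ0 (by linarith [hτ2 _ c0])) (by norm_num) (by norm_num) (by norm_num) ?_ ?_ (by norm_num)
        · exact hD 0.05 _ c0 (by norm_num)
        · exact exp_neg_le_num 2 (z := 0.24128) (by norm_num) (by norm_num) (by norm_num) (by norm_num)
      · refine H.K2_one hβ hJ h1 hs 0.376 0.05 0.2 0.413 1.0183 0.117 0.1059 c0 c1 (by norm_num) (by norm_num) (by norm_num)
          (by norm_num) (VR_084 d2 hτ0 (by linarith [hτ2 _ c1])) (by norm_num) (by norm_num) (by norm_num) ?_ ?_ (by norm_num)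
        · exact hD 0.2 _ c1 (by norm_num)
        · exact exp_neg_le_num 2 (z := 0.24672) (by norm_num) (by norm_num) (by norm_num) (by norm_num)
    · refine H.K2_one hβ hJ h1 hs 0.4 0.03 0.2 0.423 1.037 0.117 0.1002 hs1 c1 (by norm_num) (by norm_num) (by norm_num)
        (by norm_num) (VR_084_k1 d2 hk hτ0 (by linarith [hτ2 _ c1])) (by norm_num) (by norm_num) (by norm_num) ?_ ?_ (by norm_num)
      · exact H.D12 (0.2 * 0.6982) _ (hτ _ c1) (by norm_num) (by norm_num)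
      · exact exp_neg_le_num 2 (z := 0.30112) (by norm_num) (by norm_num) (by norm_num) (by norm_num)
  · -- `0.2 < s ≤ 0.5`
    push Not at c1
    rcases le_total s 0.285 with c0 | c0
    · refine H.K2_one hβ hJ h1 hs 0.371 0.2 0.285 0.514 1.0478 0.07 0.0617 c1.le c0 (by norm_num) (by norm_num) (by norm_num)
        (by norm_num) (VR_090 d2 hτ0 (by linarith [hτ2 _ c0])) (by norm_num) (by norm_num) (by norm_num) ?_ ?_ (by norm_num)
      · exact H.D12 (0.5 * 0.6982) _ (hτ _ c2) (by norm_num) (by norm_num)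
      · exact exp_neg_le_num 2 (z := 0.79616) (by norm_num) (by norm_num) (by norm_num) (by norm_num)
    · refine H.K2_one hβ hJ h1 hs 0.3495 0.285 0.5 0.53 1.0478 0.07 0.06 c0 c2 (by norm_num) (by norm_num) (by norm_num)
        (by norm_num) (VR_110 d2 hτ0 (by linarith [hτ2 _ c2])) (by norm_num) (by norm_num) (by norm_num) ?_ ?_ (by norm_num)
      · exact H.D12 (0.5 * 0.6982) _ (hτ _ c2) (by norm_num) (by norm_num)
      · exact exp_neg_le_num 2 (z := 0.8832) (by norm_num) (by norm_num) (by norm_num) (by norm_num)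
  · -- `0.5 < s ≤ 0.85`
    push Not at c2
    rcases le_total s 0.575 with c0 | c0
    · refine H.K2_one hβ hJ h1 hs 0.3495 0.5 0.575 0.66 1.0849 0.035 0.0279 c2.le c0 (by norm_num) (by norm_num) (by norm_num)
        (by norm_num) (VR_110 d2 hτ0 (by linarith [hτ2 _ c0])) (by norm_num) (by norm_num) (by norm_num) ?_ ?_ (by norm_num)
      · exact H.D12 (0.85 * 0.6982) _ (hτ _ c3) (by norm_num) (by norm_num)
      · exact exp_neg_le_num 3 (z := 0.5904) (by norm_num) (by norm_num) (by norm_num) (by norm_num)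
    · refine H.K2_one hβ hJ h1 hs 0.3305 0.575 0.85 0.654 1.0849 0.035 0.0288 c0 c3 (by norm_num) (by norm_num) (by norm_num)
        (by norm_num) (VR_130 d2 hτ0 (by linarith [hτ2 _ c3])) (by norm_num) (by norm_num) (by norm_num) ?_ ?_ (by norm_num)
      · exact H.D12 (0.85 * 0.6982) _ (hτ _ c3) (by norm_num) (by norm_num)
      · exact exp_neg_le_num 3 (z := 0.55776) (by norm_num) (by norm_num) (by norm_num) (by norm_num)
  · -- `0.85 < s`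
    push Not at c3
    have hτa : -0.105 ≤ t - h + κ := by
      have e : t - h + κ = -((1 - s) * h) := by linarith
      have : (1 - s) * h ≤ 0.15 * 0.6982 := mul_le_mul (by linarith) hh hp.le (by norm_num)
      linarith
    have hτb : t - h + κ ≤ 0.021 := by
      have e : t - h + κ = (s - 1) * h := by linarith
      have : (s - 1) * h ≤ 0.03 * 0.6982 := mul_le_mul (by linarith) hh hp.le (by norm_num)
      linarith
    have hV0 := V0_low d0 hk1 (by linarith)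
    have hV2 := VR_150 d2 hτ0 (by linarith [hτ2 _ hs2])
    have hDD : sD κ (t - h) ≤ 2 ^ 4 * sD κ (t + h) := by
      have e1 := (D0_up d0 hk1 hτa hτb).1
      rcases le_total κ 1 with hk | hk
      · have e2 : 1 + κ ^ 2 ≤ sD κ (t + h) := DR_ge d2 (by linarith) hk
        linarith
      · have e2 := D_low87 d2 hk hk1
        linarith
    refine K2D_core H hβ hJ d0 (ρ := 2) (x := 1.05) (by norm_num) (by norm_num) ?_ hDD h0 (by norm_num)
      (le_max_left G0 G1) ?_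
    · have hX : 0 ≤ h ^ 2 / (1 + κ ^ 2) := by positivity
      have e2 : t + h + κ = (1 + s) * h := by linarith
      have e0 : t - h + κ = (s - 1) * h := by linarith
      rw [e2] at hV2
      rw [e0] at hV0
      have a2 : 0.314 * ((1 + s) * h) ^ 2 / (1 + κ ^ 2) = 0.314 * (1 + s) ^ 2 * (h ^ 2 / (1 + κ ^ 2)) := by ring
      have a1 : ((s - 1) * h) ^ 2 / (1 + κ ^ 2) = (s - 1) ^ 2 * (h ^ 2 / (1 + κ ^ 2)) := by ring
      rw [a2] at hV2
      rw [a1] at hV0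
      have hx3 : 1.05 ≤ 0.314 * (1 + s) ^ 2 - (s - 1) ^ 2 := by nlinarith
      have h3 := mul_le_mul_of_nonneg_right hx3 hX
      linarith
    · have hE : Real.exp (-(5.44 * 1.05)) ≤ 0.0034 :=
        exp_neg_le_num 5 (z := 0.712) (by norm_num) (by norm_num) (by norm_num) (by norm_num)
      linarith

end Sok
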