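import Pool.Agent.Lib.MP_816dec_an.R1BM1b
import Pool.Agent.Lib.MP_816dec_an.R1BK2D

/-!
MP_816dec_an (A3, row R1, `b ≥ 9`): the copy `-1` on the outer segment, `κ ≥ 0.29`, `t + κ ≤ 0.85 h`.
-/

set_option autoImplicit false

open Complex Set Filter Topology Metric

namespace Sok

private theorem m1_close' {X W a1 a2 a3 a4 cst K E1 E2 E3 : ℝ} (hK0 : 0 ≤ K) (hcst : 0 ≤ cst)
    (hX : X ≤ K * a1 + 1.835 * a2 * (1 + 0.62 * a3)) (hW : W ≤ cst * a4) (hW0 : 0 ≤ W)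
    (ha1 : 0 ≤ a1) (ha2 : 0 ≤ a2) (ha3 : 0 ≤ a3)
    (x1 : a1 * a4 ≤ E1) (x2 : a2 * a4 ≤ E2) (x3 : a2 * a3 * a4 ≤ E3) :
    X * W ≤ (K * E1 + 1.835 * (E2 + 0.62 * E3)) * cst := by
  refine (mul_le_mul hX hW hW0 (by positivity)).trans ?_
  have e3 : (K * a1 + 1.835 * a2 * (1 + 0.62 * a3)) * (cst * a4) =
      (K * (a1 * a4) + 1.835 * (a2 * a4 + 0.62 * (a2 * a3 * a4))) * cst := by ring
  rw [e3]
  apply mul_le_mul_of_nonneg_right _ hcst
  have := mul_le_mul_of_nonneg_left x1 hK0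
  linarith

private theorem m1_exp' {T T0 F x : ℝ} (hT5 : T0 ≤ T) (hT0 : 0 ≤ T0) (hF : 0 ≤ F) (hx : x ≤ -F) : T * x ≤ -(T0 * F) := by
  have h1 := mul_le_mul_of_nonneg_left hx (by linarith : 0 ≤ T)
  have h2 := mul_le_mul_of_nonneg_right hT5 hF
  linarith only [h1, h2]

theorem QD.op_core {T0 : ℝ} {b : ℕ} {h κ R t T s z : ℝ} (Q : QD T0 b h κ R t T s z) {β μ g K W w cst : ℝ} (hβ : β = κ / R)
    (hμ0 : 1.15 ≤ μ) (hμ1 : μ ≤ 1.77) (hμm : μ ≤ 2 - s) (hs : 0.03 ≤ s)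
    (hg : κ ≤ 1.3 ∧ 0 ≤ g ∨ 0.04 ≤ g) (hK0 : 0 ≤ K) (hK : 1.5 ≤ κ * K ^ 2) (hcst : 0 ≤ cst)
    (hW : W ≤ cst * Real.exp (-R + T * w)) (hW0 : 0 ≤ W) {F1 E1 F2 E2 F3 E3 : ℝ}
    (hF10 : 0 ≤ F1) (hF1 : -(μ * (2 - s)) + μ ^ 2 * (1 + g) / 2 + w ≤ -F1)
    (hF20 : 0 ≤ F2) (hF2 : w - 2.1575 ≤ -F2)
    (hF30 : 0 ≤ F3) (hF3 : μ * 1.8347 - μ * (2 - s) + w - 2.1575 ≤ -F3)
    (hE1 : Real.exp (-(T0 * F1)) ≤ E1) (hE2 : Real.exp (-(T0 * F2)) ≤ E2) (hE3 : Real.exp (-(T0 * F3)) ≤ E3) :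
    ‖Xf β R h t (-1)‖ * W ≤ (K * E1 + 1.835 * (E2 + 0.62 * E3)) * cst := by
  have hT0 := Q.hT
  have hT00 : 0 ≤ T0 := by linarith only [Q.T5]
  have hκ := Q.kpos
  have hk0 := Q.k0
  have hz0 := Q.z0
  have hzz := Q.zz
  have hpi := Real.pi_lt_d4
  have hX := Q.HM1 (β := β) (μ := μ) (g := g) (K := K) hβ hμ0 hμ1 hμm hs hg hK0 hK
  have hRz : R = T * (1 + κ ^ 2) * z ^ 2 := Q.hR
  have hA : 1.0841 ≤ 1 + κ ^ 2 := by nlinarith only [hk0]
  obtain ⟨A, hAe⟩ : ∃ A, A = 1 + κ ^ 2 := ⟨_, rfl⟩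
  rw [← hAe] at hA hRz
  have g0 : 1.0841 * 2.05174 ≤ A * z ^ 2 := mul_le_mul hA hzz (by norm_num) (by linarith only [hA])
  have f2 : w - 0.97 * (A * z ^ 2) ≤ -F2 := by linarith only [g0, hF2]
  have f3 : μ * (z * (Real.pi / 2 - κ)) - μ * (2 - s) + w - 0.97 * (A * z ^ 2) ≤ -F3 := by
    have g1 : μ * (z * (Real.pi / 2 - κ)) ≤ μ * (z * 1.2808) := by
      apply mul_le_mul_of_nonneg_left _ (by linarith only [hμ0])
      apply mul_le_mul_of_nonneg_left _ (by linarith only [hz0])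
      linarith only [hpi, hk0]
    have g2 : μ * (z * 1.2808) - 0.97 * (A * z ^ 2) ≤ μ * 1.8347 - 2.1575 := by
      have g3 : 0 ≤ (z - 1.43239) * (0.97 * A * (z + 1.43239) - μ * 1.2808) := by
        apply mul_nonneg (by linarith only [hz0])
        have : 1.0841 * 2.8647 ≤ A * (z + 1.43239) := mul_le_mul hA (by linarith only [hz0]) (by norm_num) (by linarith only [hA])
        linarith only [this, hμ1]
      have g4 : μ * (1.43239 * 1.2808) ≤ μ * 1.8347 := mul_le_mul_of_nonneg_left (by norm_num) (by linarith only [hμ0])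
      have g6 : 0.97 * 1.0841 * 1.43239 ^ 2 ≤ 0.97 * A * (1.43239 ^ 2) := by
        apply mul_le_mul_of_nonneg_right _ (by norm_num)
        linarith only [hA]
      have g7 : (2.1575 : ℝ) ≤ 0.97 * 1.0841 * 1.43239 ^ 2 := by norm_num
      linarith only [g3, g4, g6, g7]
    linarith only [g1, g2, hF3]
  refine m1_close' hK0 hcst hX hW hW0 (Real.exp_pos _).le (Real.exp_pos _).le (Real.exp_pos _).le ?_ ?_ ?_
  · rw [← Real.exp_add]
    refine (Real.exp_le_exp.2 ?_).trans hE1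
    have := m1_exp' hT0 hT00 hF10 hF1
    linarith only [this]
  · rw [← Real.exp_add]
    refine (Real.exp_le_exp.2 ?_).trans hE2
    have := m1_exp' hT0 hT00 hF20 f2
    have e : 0.03 * R + (-R + T * w) = T * (w - 0.97 * (A * z ^ 2)) := by
      linear_combination (-0.97) * hRz
    rw [e]
    exact this
  · rw [← Real.exp_add, ← Real.exp_add]
    refine (Real.exp_le_exp.2 ?_).trans hE3
    have := m1_exp' hT0 hT00 hF30 f3
    have e : 0.03 * R + T * (μ * (z * (Real.pi / 2 - κ)) - μ * (2 - s)) + (-R + T * w) =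
        T * (μ * (z * (Real.pi / 2 - κ)) - μ * (2 - s) + w - 0.97 * (A * z ^ 2)) := by
      linear_combination (-0.97) * hRz
    rw [e]
    exact this

private theorem of_inv {X G e M : ℝ} (hG : 0 < G) (h : X * G⁻¹ ≤ e) (he : 0 ≤ e) (hM : G ≤ M) : X ≤ e * M := by
  have h1 := mul_le_mul_of_nonneg_right h hG.le
  have h2 : X * G⁻¹ * G = X := by field_simp
  rw [h2] at h1
  exact h1.trans (mul_le_mul_of_nonneg_left hM he)

private theorem cub_third {κ : ℝ} (h0 : 0 ≤ κ) : κ * (1 / 2 - κ ^ 2 / 6) ≤ 0.3334 := by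
  nlinarith [mul_nonneg (sq_nonneg (κ - 1)) (by linarith : 0 ≤ κ + 2)]

private theorem cub_lo' {κ k2 : ℝ} (h0 : 0 ≤ κ) (h : κ ≤ k2) (h1 : k2 ≤ 1) :
    κ * (1 / 2 - κ ^ 2 / 6) ≤ k2 * (1 / 2 - k2 ^ 2 / 6) := by
  have h2 : 0 ≤ (k2 - κ) * (3 - (k2 ^ 2 + k2 * κ + κ ^ 2)) := by
    apply mul_nonneg (by linarith)
    nlinarith
  linarith

/-- `s ≤ 1/2`: comparison with the copy `1` -/
private theorem opA {b : ℕ} {h κ R t T s z : ℝ} (Q : QD 5.44 b h κ R t T s z) (hk139 : κ ≤ 1.39) {β G1 : ℝ} (hβ : β = κ / R)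
    (hs : 0.03 ≤ s) (hs5 : s ≤ 0.5) (h1 : 0.95 * sQ β κ t ≤ G1) :
    ‖Xf β R h t (-1)‖ * G1⁻¹ ≤ 0.03 ∧ (s ≤ 0.2 → ‖Xf β R h t (-1)‖ * G1⁻¹ ≤ 0.0015) := by
  have hκ := Q.kpos
  have hk0 := Q.k0
  have hh0 := Q.h0
  have hle := Q.hle
  have dd1 := Q.dom1 (by linarith) (by linarith)
  have hG1 : 0 < G1 := lt_of_lt_of_le (mul_pos (by norm_num) (sQ_pos dd1)) h1
  have hτ : t + κ = s * h := by rw [Q.ht]; ring
  have hsh : s * h ≤ 0.5 * 0.69814 := mul_le_mul hs5 hle hh0.le (by norm_num)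
  have hsh0 : 0 ≤ s * h := mul_nonneg (by linarith) hh0.le
  have hD1 : sD κ t ≤ 1.321 ^ 4 := by
    rcases le_total κ 1 with hk | hk
    · have e1 := D1_up dd1 (by rw [hτ]; exact hsh0) hk
      rw [hτ] at e1
      have e2 : (1 + 0.5 * (s * h) + 0.25 * (s * h) ^ 2) * (1 + κ ^ 2) ≤ 1.21 * 2 := by
        have e3 : (s * h) ^ 2 ≤ (0.5 * 0.69814) ^ 2 := pow_le_pow_left₀ hsh0 hsh 2
        apply mul_le_mul (by linarith) (by nlinarith) (by positivity) (by norm_num)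
      refine e1.trans (e2.trans (by norm_num))
    · have e1 := D1_up' dd1 (by rw [hτ]; exact hsh0) hk (by nlinarith)
      rw [hτ] at e1
      have e2 : (1 + 0.3 * (s * h) ^ 2) * (1 + κ ^ 2) ≤ 1.0369 * 2.9322 := by
        have e3 : (s * h) ^ 2 ≤ (0.5 * 0.69814) ^ 2 := pow_le_pow_left₀ hsh0 hsh 2
        apply mul_le_mul (by linarith) (by nlinarith) (by positivity) (by norm_num)
      refine e1.trans (e2.trans (by norm_num))
  have i1 := Q.invG1 (g := 0.95) (d1 := 1.321) hβ (by norm_num) h1 dd1 hD1 (by norm_num) (by linarith)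
  have hi0 : 0 ≤ G1⁻¹ := inv_nonneg.2 hG1.le
  have hs2 : s ^ 2 ≤ 0.25 := by nlinarith
  have hK : 1.5 ≤ κ * 2.275 ^ 2 := by linarith
  constructor
  · have := Q.op_core (β := β) (μ := 1.5) (g := 0.04) (K := 2.275) (W := G1⁻¹) (w := s ^ 2 / 2) (cst := 1.321 / 0.95)
      hβ (by norm_num) (by norm_num) (by linarith) hs (Or.inr le_rfl) (by norm_num) hK (by norm_num) i1 hi0
      (F1 := 0.955) (E1 := 0.0056) (F2 := 2) (E2 := 0.0001) (F3 := 1.5) (E3 := 0.0004)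
      (by norm_num) (by linarith) (by norm_num) (by linarith) (by norm_num) (by linarith)
      (exp_num' 5 (f := 0.195) (by norm_num) (by norm_num) (by norm_num))
      (exp_num' 10 (f := 0.88) (by norm_num) (by norm_num) (by norm_num))
      (exp_num' 8 (f := 0.16) (by norm_num) (by norm_num) (by norm_num))
    exact this.trans (by norm_num)
  · intro hs02
    have hs3 : s ^ 2 ≤ 0.04 := by nlinarith
    have := Q.op_core (β := β) (μ := 1.77) (g := 0.04) (K := 2.275) (W := G1⁻¹) (w := s ^ 2 / 2) (cst := 1.321 / 0.95)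
      hβ (by norm_num) (by norm_num) (by linarith) hs (Or.inr le_rfl) (by norm_num) hK (by norm_num) i1 hi0
      (F1 := 1.536) (E1 := 0.00024) (F2 := 2.1) (E2 := 0.00002) (F3 := 2) (E3 := 0.00002)
      (by norm_num) (by linarith) (by norm_num) (by linarith) (by norm_num) (by linarith)
      (exp_num' 8 (f := 0.355) (by norm_num) (by norm_num) (by norm_num))
      (exp_num' 11 (f := 0.4) (by norm_num) (by norm_num) (by norm_num))
      (exp_num' 10 (f := 0.88) (by norm_num) (by norm_num) (by norm_num))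
    exact this.trans (by norm_num)

/-- `1/2 ≤ s ≤ 0.85`: comparison with the copy `0` -/
private theorem opB {b : ℕ} {h κ R t T s z : ℝ} (Q : QD 5.44 b h κ R t T s z) {β G0 : ℝ} (hβ : β = κ / R)
    (hs5 : 0.5 ≤ s) (hs : s ≤ 0.85) (h0 : 0.95 * sQ β κ (t - h) ≤ G0) (k1 k2 g K c sm C d0 F1 E1 : ℝ)
    (hk1 : k1 ≤ κ) (hk2 : κ ≤ k2) (hk10 : 0.29 ≤ k1) (hg : k2 ≤ 1.3 ∧ 0 ≤ g ∨ 0.04 ≤ g) (hg0 : 0 ≤ g)
    (hK0 : 0 ≤ K) (hK : 1.5 ≤ k1 * K ^ 2) (hc : κ * (1 / 2 - κ ^ 2 / 6) ≤ c) (hc0 : 0 ≤ c)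
    (hd0 : 0 ≤ d0) (hD0 : 1 + k2 ^ 2 ≤ d0 ^ 4) (hD0' : 1.9162 * k2 ^ 2 + 0.35 ≤ d0 ^ 4)
    (hsm : 0.5 * 0.69814 ≤ sm * (1 + k1 ^ 2)) (hsm1 : sm ≤ 1) (hC1 : C ≤ 0.62) (hC2 : 1 / 2 ≤ C)
    (hC : c * sm + k2 ^ 4 * sm ^ 2 / 12 + (1 + k2 * sm) * (sm ^ 2 / 12 + sm ^ 4 / 24) ≤ (C - 1 / 2) * (1 + k1 ^ 2))
    (hF10 : 0 ≤ F1) (hF15 : F1 ≤ 0.92) (hF1 : -(0.66125 * (1 - g)) + 0.0225 * C ≤ -F1) (hg1 : g ≤ 0.04)
    (hE1 : Real.exp (-(5.44 * F1)) ≤ E1)
    (hfin : (K * E1 + 1.835 * (0.0001 + 0.62 * 0.00063)) * (d0 / 0.95) ≤ 0.08) :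
    ‖Xf β R h t (-1)‖ * G0⁻¹ ≤ 0.08 := by
  have hκ := Q.kpos
  have hh0 := Q.h0
  have hle := Q.hle
  have dd0 := Q.dom0 (by linarith only [hs5]) (by linarith only [hs])
  have hG0 : 0 < G0 := lt_of_lt_of_le (mul_pos (by norm_num) (sQ_pos dd0)) h0
  have hτ : t - h + κ = -((1 - s) * h) := by rw [Q.ht]; ring
  have h1s : (1 - s) * h ≤ 0.5 * 0.69814 := mul_le_mul (by linarith only [hs5]) hle hh0.le (by norm_num)
  have h1s0 : 0 ≤ (1 - s) * h := mul_nonneg (by linarith only [hs]) hh0.le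
  have hk22 : κ ^ 2 ≤ k2 ^ 2 := pow_le_pow_left₀ hκ.le hk2 2
  have hD : sD κ (t - h) ≤ d0 ^ 4 := by
    refine (D0_325 dd0 (by rw [hτ]; linarith only [h1s0]) (by rw [hτ]; linarith only [h1s])).trans (max_le ?_ ?_)
    · exact le_trans (by linarith only [hk22]) hD0
    · exact le_trans (by linarith only [hk22]) hD0'
  have i0 := Q.invG0 (g := 0.95) (d0 := d0) (k1 := k1) (k2 := k2) (sm := sm) (c := c) (C := C) hβ (by norm_num) h0 dd0 hD hd0
    hk1 hk2 (by linarith only [hs]) (by linarith only [hs5, hsm]) (by linarith only [hk10]) hsm1 hc hc0 hC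
  have hi0 : 0 ≤ G0⁻¹ := inv_nonneg.2 hG0.le
  have q1 : (1 - s) ^ 2 ≤ 0.25 := by nlinarith only [hs5, hs]
  have q2 : C * (1 - s) ^ 2 ≤ 0.155 := by
    calc C * (1 - s) ^ 2 ≤ 0.62 * 0.25 := mul_le_mul hC1 q1 (sq_nonneg _) (by norm_num)
      _ = 0.155 := by norm_num
  have f1 : -((2 - s) * (2 - s)) + (2 - s) ^ 2 * (1 + g) / 2 + C * (1 - s) ^ 2 ≤ -F1 := by
    -- chord between `1/2` and `0.85`
    have a1 : 0 ≤ (C - (1 - g) / 2) * ((s - 0.5) * (0.85 - s)) :=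
      mul_nonneg (by linarith only [hC2, hg0]) (mul_nonneg (by linarith only [hs5]) (by linarith only [hs]))
    have a2 : -(1.125 * (1 - g)) + 0.25 * C ≤ -F1 := by linarith only [hF15, hC1, hg1]
    have a3 := mul_le_mul_of_nonneg_left a2 (by linarith only [hs] : 0 ≤ 0.85 - s)
    have a4 := mul_le_mul_of_nonneg_left hF1 (by linarith only [hs5] : 0 ≤ s - 0.5)
    have a5 : 0.35 * (-((2 - s) * (2 - s)) + (2 - s) ^ 2 * (1 + g) / 2 + C * (1 - s) ^ 2) =
        (0.85 - s) * (-(1.125 * (1 - g)) + 0.25 * C) + (s - 0.5) * (-(0.66125 * (1 - g)) + 0.0225 * C) -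
        0.35 * ((C - (1 - g) / 2) * ((s - 0.5) * (0.85 - s))) := by ring
    linarith only [a1, a3, a4, a5]
  have f3 : (2 - s) * 1.8347 - (2 - s) * (2 - s) + C * (1 - s) ^ 2 - 2.1575 ≤ -1.355 := by
    have a1 : C * (1 - s) ^ 2 ≤ 0.62 * (1 - s) ^ 2 := mul_le_mul_of_nonneg_right hC1 (sq_nonneg _)
    nlinarith only [a1, hs5, hs]
  have := Q.op_core (β := β) (μ := 2 - s) (g := g) (K := K) (W := G0⁻¹) (w := C * (1 - s) ^ 2) (cst := d0 / 0.95)
      hβ (by linarith only [hs]) (by linarith only [hs5]) le_rfl (by linarith only [hs5])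
      (hg.imp (fun h => ⟨hk2.trans h.1, h.2⟩) id) hK0 (hK.trans (mul_le_mul_of_nonneg_right hk1 (sq_nonneg K)))
      (by positivity) i0 hi0
      (F1 := F1) (E1 := E1) (F2 := 2) (E2 := 0.0001) (F3 := 1.355) (E3 := 0.00063)
      hF10 f1 (by norm_num) (by linarith only [q2]) (by norm_num) f3 hE1
      (exp_num' 10 (f := 0.88) (by norm_num) (by norm_num) (by norm_num))
      (exp_num' 7 (f := 0.3712) (by norm_num) (by norm_num) (by norm_num))
  exact this.trans hfin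

/-- **ROW M1D**, `t + κ ≤ 0.85 h` -/
theorem farM1D_left {b : ℕ} {h κ R t β G0 G1 : ℝ} (H : OP b h κ R t) (hκ : 0.29 ≤ κ) (hβ : β = κ / R)
    (hs85 : t + κ ≤ 0.85 * h)
    (h0 : 0.95 * sQ β κ (t - h) ≤ G0) (h1 : 0.95 * sQ β κ t ≤ G1) :
    ‖Xf β R h t (-1)‖ ≤ e1 ((t + κ) / h) * max G0 G1 := by
  obtain ⟨T, s, z, Q, hk139, hs03, hs103, hse⟩ := H.qd hκ
  have hh0 := Q.h0
  have hs : s ≤ 0.85 := by rw [hse, div_le_iff₀ hh0]; exact hs85
  rw [← hse]
  have dd1 := Q.dom1 (by linarith) (by linarith)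
  have dd0 := Q.dom0 (by linarith) (by linarith)
  have hG1 : 0 < G1 := lt_of_lt_of_le (mul_pos (by norm_num) (sQ_pos dd1)) h1
  have hG0 : 0 < G0 := lt_of_lt_of_le (mul_pos (by norm_num) (sQ_pos dd0)) h0
  rcases le_or_gt s 0.5 with hs5 | hs5
  · obtain ⟨a1, a2⟩ := opA Q hk139 hβ hs03 hs5 h1
    unfold e1
    split_ifs with c1
    · exact of_inv hG1 ((a2 c1).trans (by norm_num)) (by norm_num) (le_max_right _ _)
    · exact of_inv hG1 (a1.trans (by norm_num)) (by norm_num) (le_max_right _ _)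
  · have key : ‖Xf β R h t (-1)‖ * G0⁻¹ ≤ 0.08 := by
      have hk1 := hκ
      rcases le_total κ 0.35 with hk2 | hk1
      · exact opB Q hβ hs5.le hs h0 0.29 0.35 0 2.2743 0.1679 0.322 0.5594 1.0294 0.6486 0.0293706 hk1 hk2 (by norm_num) (Or.inl ⟨by norm_num, by norm_num⟩) (by norm_num) (by norm_num) (by norm_num)
            ((cub_lo' Q.kpos.le hk2 (by norm_num)).trans (by norm_num)) (by norm_num) (by norm_num) (by norm_num) (by norm_num) (by norm_num) (by norm_num) (by norm_num) (by norm_num)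
            (by norm_num) (by norm_num) (by norm_num) (by norm_num) (by norm_num)
            (exp_num' 3 (f := 0.5283) (by norm_num) (by norm_num) (by norm_num)) (by norm_num)
      rcases le_total κ 0.6 with hk2 | hk1
      · exact opB Q hβ hs5.le hs h0 0.35 0.6 0 2.0702 0.2641 0.311 0.5831 1.08 0.6481 0.0294496 hk1 hk2 (by norm_num) (Or.inl ⟨by norm_num, by norm_num⟩) (by norm_num) (by norm_num) (by norm_num)
            ((cub_lo' Q.kpos.le hk2 (by norm_num)).trans (by norm_num)) (by norm_num) (by norm_num) (by norm_num) (by norm_num) (by norm_num) (by norm_num) (by norm_num) (by norm_num)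
            (by norm_num) (by norm_num) (by norm_num) (by norm_num) (by norm_num)
            (exp_num' 3 (f := 0.5256) (by norm_num) (by norm_num) (by norm_num)) (by norm_num)
      rcases le_total κ 1 with hk2 | hk1
      · exact opB Q hβ hs5.le hs h0 0.6 1 0 1.5812 0.3334 0.2567 0.5723 1.227 0.6483 0.0294174 hk1 hk2 (by norm_num) (Or.inl ⟨by norm_num, by norm_num⟩) (by norm_num) (by norm_num) (by norm_num)
            ((cub_lo' Q.kpos.le hk2 (by norm_num)).trans (by norm_num)) (by norm_num) (by norm_num) (by norm_num) (by norm_num) (by norm_num) (by norm_num) (by norm_num) (by norm_num)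
            (by norm_num) (by norm_num) (by norm_num) (by norm_num) (by norm_num)
            (exp_num' 3 (f := 0.5267) (by norm_num) (by norm_num) (by norm_num)) (by norm_num)
      rcases le_total κ 1.3 with hk2 | hk1
      · exact opB Q hβ hs5.le hs h0 1 1.3 0 1.2248 0.3334 0.1746 0.5344 1.3764 0.6492 0.0292744 hk1 hk2 (by norm_num) (Or.inl ⟨by norm_num, by norm_num⟩) (by norm_num) (by norm_num) (by norm_num)
            (cub_third Q.kpos.le) (by norm_num) (by norm_num) (by norm_num) (by norm_num) (by norm_num) (by norm_num) (by norm_num) (by norm_num)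
            (by norm_num) (by norm_num) (by norm_num) (by norm_num) (by norm_num)
            (exp_num' 3 (f := 0.5316) (by norm_num) (by norm_num) (by norm_num)) (by norm_num)
      · have hk2 := hk139
        exact opB Q hβ hs5.le hs h0 1.3 1.39 0.04 1.0742 0.3334 0.1298 0.5187 1.4189 0.6231 0.0337259 hk1 hk2 (by norm_num) (Or.inr (by norm_num)) (by norm_num) (by norm_num) (by norm_num)
            (cub_third Q.kpos.le) (by norm_num) (by norm_num) (by norm_num) (by norm_num) (by norm_num) (by norm_num) (by norm_num) (by norm_num)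
            (by norm_num) (by norm_num) (by norm_num) (by norm_num) (by norm_num)
            (exp_num' 3 (f := 0.3896) (by norm_num) (by norm_num) (by norm_num)) (by norm_num)
    have e : e1 s = 0.08 := by
      unfold e1
      rw [if_neg (by linarith), if_neg (by linarith), if_pos hs]
    rw [e]
    exact of_inv hG0 key (by norm_num) (le_max_left _ _)

end Sok
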