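import Pool.Agent.Lib.MP_816dec_an.R1Near
import Pool.Agent.Lib.MP_816dec_an.R1Ineq6
import Pool.Agent.Lib.MP_816dec_an.R1Br
import Pool.Agent.Lib.MP_816dec_an.JD1
import Pool.Agent.Lib.MP_816dec_an.JD2

/-!
MP_816dec_an (A3, row R1, `b ≥ 9`): the difference of the slopes of the two main copies.
-/

set_option autoImplicit false

open Complex Set Filter Topology Metric

namespace Sok

/-- the correction term of the slope -/
theorem slope_im (x y : ℝ) (hD : 0 < x ^ 2 + (1 + y) ^ 2) :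
    (I / 2 * ((x : ℂ) + (y : ℂ) * I) / (1 - I * ((x : ℂ) + (y : ℂ) * I)) ^ 2).im =
      x * (1 - (x ^ 2 + y ^ 2)) / (2 * (x ^ 2 + (1 + y) ^ 2) ^ 2) := by
  have hw : (1 - I * ((x : ℂ) + (y : ℂ) * I)) = ((1 + y : ℝ) : ℂ) + ((-x : ℝ) : ℂ) * I := by
    push_cast
    ring_nf
    simp only [I_sq]
    ring
  have hne : (((1 + y : ℝ) : ℂ) + ((-x : ℝ) : ℂ) * I) ≠ 0 := by
    intro h0
    have h1 := congrArg Complex.re h0
    have h2 := congrArg Complex.im h0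
    simp at h1 h2
    rw [h2] at hD
    have : 1 + y = 0 := by linarith
    rw [this] at hD
    simp at hD
  have hDc : (((x ^ 2 + (1 + y) ^ 2 : ℝ)) : ℂ) ≠ 0 := by exact_mod_cast hD.ne'
  have key : I / 2 * ((x : ℂ) + (y : ℂ) * I) / (1 - I * ((x : ℂ) + (y : ℂ) * I)) ^ 2 =
      (((-y * ((1 + y) ^ 2 - x ^ 2) - 2 * x ^ 2 * (1 + y)) / (2 * (x ^ 2 + (1 + y) ^ 2) ^ 2) : ℝ) : ℂ) +
      ((x * (1 - (x ^ 2 + y ^ 2)) / (2 * (x ^ 2 + (1 + y) ^ 2) ^ 2) : ℝ) : ℂ) * I := by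
    rw [hw, div_eq_iff (pow_ne_zero 2 hne)]
    push_cast at hDc ⊢
    field_simp
    ring_nf
    simp only [I_sq, I_pow_three]
    ring
  rw [key, Complex.add_im, Complex.ofReal_im, Complex.mul_I_im, Complex.ofReal_re, zero_add]

theorem norm_sgS {κ t : ℝ} (h : DomR κ t) : ‖sg κ t‖ = κ * Real.exp (-sy κ t) := by
  rw [← s_norm h]
  unfold sg
  rw [Complex.norm_def, Complex.normSq_apply]
  congr 1
  simp
  ring

/-- quotient bound -/
theorem norm_sg_div {κ t A : ℝ} (h : DomR κ t) (hA : 0 ≤ A)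
    (h1 : κ ^ 2 * Real.exp (-2 * sy κ t) * (1 - A ^ 2) ≤ A ^ 2 * (1 + 2 * sy κ t)) :
    ‖sg κ t / (1 - I * sg κ t)‖ ≤ A := by
  have hD := sD_pos h
  rw [norm_div, norm_one_sub_sg, div_le_iff₀ (Real.sqrt_pos.2 hD), norm_sgS h]
  apply le_of_sq_le_sq _ (mul_nonneg hA (Real.sqrt_nonneg _))
  have e1 : (κ * Real.exp (-sy κ t)) ^ 2 = κ ^ 2 * Real.exp (-2 * sy κ t) := by
    rw [mul_pow, ← Real.exp_nat_mul]
    congr 2
    push_cast
    ring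
  rw [e1, mul_pow, Real.sq_sqrt hD.le]
  have e2 : sD κ t = κ ^ 2 * Real.exp (-2 * sy κ t) + 1 + 2 * sy κ t := sD_eq' h
  rw [e2]
  nlinarith

theorem y_ge_23 {κ t : ℝ} (h : DomR κ t) (hτ : -0.405 ≤ t + κ) : -0.23 ≤ sy κ t := by
  have hE := exp_neg_num (x := 0.23) (y := 0.79454) (by norm_num) (by norm_num)
  exact y_ge_gen h 0.23 1 0.18275 0.405 (by norm_num) (by norm_num) (by linarith) (by norm_num) (by norm_num)
    (by norm_num) hτ

theorem exp_046 : Real.exp 0.46 ≤ 1.5841 := by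
  have h := Real.exp_bound' (x := 0.46) (by norm_num) (by norm_num) (n := 8) (by norm_num)
  refine h.trans ?_
  norm_num [Finset.sum_range_succ, Nat.factorial]

theorem disc_re_im {κ t δ : ℝ} {s : ℂ} (hs : ‖s - sg κ t‖ ≤ δ) :
    |s.re - sx κ t| ≤ δ ∧ |s.im - sy κ t| ≤ δ := by
  constructor
  · have := (abs_re_le_norm (s - sg κ t)).trans hs
    simpa [sg] using this
  · have := (abs_im_le_norm (s - sg κ t)).trans hs
    simpa [sg] using this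

theorem JD_I' {β : ℝ} {s : ℂ} (hβ : 0 < β) (hN : β * 29.4 ≤ 1) (hx1 : -0.09 ≤ s.re) (hx2 : s.re ≤ 0.67)
    (hy1 : -0.33 ≤ s.im) (hy2 : s.im ≤ 0.285) : ‖HH β s - 1‖ ≤ 0.055 := by
  have e : s = (s.re : ℂ) + (s.im : ℂ) * I := (re_add_im s).symm
  rw [e]
  rcases le_total 0 s.re with h | h
  · exact JD_I hβ hN h hx2 (by linarith) hy2
  · have hn : ‖((s.re : ℂ) + (s.im : ℂ) * I)‖ ≤ 0.36 := by
      apply le_of_sq_le_sq _ (by norm_num)
      rw [← Complex.normSq_eq_norm_sq, Complex.normSq_apply]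
      simp only [add_re, ofReal_re, mul_re, I_re, mul_zero, ofReal_im, I_im, mul_one, sub_self, add_zero, add_im,
        mul_im, zero_add]
      nlinarith
    have := J45_36b hβ (by linarith) hn
    linarith

theorem JD_II' {β : ℝ} {s : ℂ} (hβ : 0 < β) (hN : β * 23.3 ≤ 1) (hx1 : 0.22 ≤ s.re) (hx1' : s.im ≤ -0.3 → 0.3 ≤ s.re)
    (hx2 : s.re ≤ 1.045) (hy1 : -0.386 ≤ s.im) (hy2 : s.im ≤ 0.325) : ‖HH β s - 1‖ ≤ 0.045 := by
  have e : s = (s.re : ℂ) + (s.im : ℂ) * I := (re_add_im s).symm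
  rw [e]
  exact JD_II hβ hN hx1 hx1' hx2 hy1 hy2

theorem JD_III' {β : ℝ} {s : ℂ} (hβ : 0 < β) (hN : β * 22.2 ≤ 1) (hx1 : 0.44 ≤ s.re)
    (hx1' : s.im ≤ -0.33 → 0.58 ≤ s.re) (hx2 : s.re ≤ 1.845) (hy1 : -0.386 ≤ s.im) (hy2 : s.im ≤ 0.345) :
    ‖HH β s - 1‖ ≤ 0.038 := by
  have e : s = (s.re : ℂ) + (s.im : ℂ) * I := (re_add_im s).symm
  rw [e]
  exact JD_III hβ hN hx1 hx1' hx2 hy1 hy2

/-- the correction term -/
noncomputable def gsl (κ t : ℝ) : ℝ :=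
  sx κ t * (1 - (sx κ t ^ 2 + sy κ t ^ 2)) / (2 * (sx κ t ^ 2 + (1 + sy κ t) ^ 2) ^ 2)

theorem slope_im_sg {κ t : ℝ} (h : DomR κ t) :
    (I / 2 * sg κ t / (1 - I * sg κ t) ^ 2).im = gsl κ t :=
  slope_im (sx κ t) (sy κ t) (sD_pos h)

theorem gsl_le {κ t : ℝ} (h : DomR κ t) (hy : -0.23 ≤ sy κ t) : gsl κ t ≤ 0.37 := by
  have hx := sx_pos h
  have hD : 0 < sx κ t ^ 2 + (1 + sy κ t) ^ 2 := sD_pos h
  unfold gsl
  generalize sx κ t = x at *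
  generalize sy κ t = y at *
  rw [div_le_iff₀ (by positivity)]
  obtain ⟨n, hn0, hn⟩ : ∃ n : ℝ, 0 ≤ n ∧ n ^ 2 = x ^ 2 + y ^ 2 :=
    ⟨Real.sqrt (x ^ 2 + y ^ 2), Real.sqrt_nonneg _, Real.sq_sqrt (by positivity)⟩
  have hxn : x ≤ n := by nlinarith [sq_nonneg y]
  have hD1 : 0.54 + n ^ 2 ≤ x ^ 2 + (1 + y) ^ 2 := by nlinarith
  have hD2 : (0.54 + n ^ 2) ^ 2 ≤ (x ^ 2 + (1 + y) ^ 2) ^ 2 := pow_le_pow_left₀ (by positivity) hD1 2
  rw [← hn]
  rcases le_total (n ^ 2) 1 with h1 | h1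
  · have h2 : x * (1 - n ^ 2) ≤ n * (1 - n ^ 2) := mul_le_mul_of_nonneg_right hxn (by linarith)
    have h3 : n * (1 - n ^ 2) ≤ 0.74 * (0.54 + n ^ 2) ^ 2 := by
      nlinarith [sq_nonneg (n - 0.34), mul_nonneg hn0 (sq_nonneg (n - 0.34)), sq_nonneg (n ^ 2 - 0.34 ^ 2)]
    linarith
  · have h2 : x * (1 - n ^ 2) ≤ 0 := mul_nonpos_of_nonneg_of_nonpos hx.le (by linarith)
    have h3 : 0 ≤ (x ^ 2 + (1 + y) ^ 2) ^ 2 := by positivity
    linarith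

theorem gsl_nonpos {κ t : ℝ} (h : DomR κ t) (hn : 1 ≤ sx κ t ^ 2 + sy κ t ^ 2) : gsl κ t ≤ 0 := by
  have hx := sx_pos h
  unfold gsl
  apply div_nonpos_of_nonpos_of_nonneg
  · exact mul_nonpos_of_nonneg_of_nonpos hx.le (by linarith)
  · positivity

theorem gsl_nonneg {κ t : ℝ} (h : DomR κ t) (hn : sx κ t ^ 2 + sy κ t ^ 2 ≤ 1) : 0 ≤ gsl κ t := by
  have hx := sx_pos h
  unfold gsl
  apply div_nonneg
  · exact mul_nonneg hx.le (by linarith)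
  · positivity

theorem gsl_ge {κ t : ℝ} (h : DomR κ t) (hy : 0 ≤ sy κ t) : -0.13 ≤ gsl κ t := by
  have hx := sx_pos h
  have hD : 0 < sx κ t ^ 2 + (1 + sy κ t) ^ 2 := sD_pos h
  unfold gsl
  generalize sx κ t = x at *
  generalize sy κ t = y at *
  rw [le_div_iff₀ (by positivity)]
  obtain ⟨n, hn0, hn⟩ : ∃ n : ℝ, 0 ≤ n ∧ n ^ 2 = x ^ 2 + y ^ 2 :=
    ⟨Real.sqrt (x ^ 2 + y ^ 2), Real.sqrt_nonneg _, Real.sq_sqrt (by positivity)⟩
  have hxn : x ≤ n := by nlinarith [sq_nonneg y]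
  have hD1 : 1 + n ^ 2 ≤ x ^ 2 + (1 + y) ^ 2 := by nlinarith
  have hD2 : (1 + n ^ 2) ^ 2 ≤ (x ^ 2 + (1 + y) ^ 2) ^ 2 := pow_le_pow_left₀ (by positivity) hD1 2
  rw [← hn]
  rcases le_total (n ^ 2) 1 with h1 | h1
  · have h2 : 0 ≤ x * (1 - n ^ 2) := mul_nonneg hx.le (by linarith)
    have h3 : 0 ≤ (x ^ 2 + (1 + y) ^ 2) ^ 2 := by positivity
    linarith
  · have h2 : x * (n ^ 2 - 1) ≤ n * (n ^ 2 - 1) := mul_le_mul_of_nonneg_right hxn (by linarith)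
    have h3 : n * (n ^ 2 - 1) ≤ 0.26 * (1 + n ^ 2) ^ 2 := by
      nlinarith [sq_nonneg (n ^ 2 - 2.414 * n + 0), sq_nonneg (n ^ 2 - 2 * n - 1), mul_nonneg hn0 (sq_nonneg (n - 2.4)),
        sq_nonneg (n - 2.4)]
    linarith

theorem slope_core {b : ℕ} {h κ R t β ε A0 A1 G : ℝ} (H : OP b h κ R t) (hβ : β = κ / R)
    (lo : 0.42 * h ≤ t + κ) (hi : t + κ ≤ 0.6 * h) {w : ℂ} (hw : Real.exp w.re = R) (ht : tk β b 1 w = t)
    (hε0 : 0 ≤ ε) (hε1 : ε < 1) (d0 : DomR κ (t - h)) (d1 : DomR κ t)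
    (J0 : ∀ s : ℂ, ‖s - sg κ (t - h)‖ ≤ 0.09 → -1 < s.im ∧ ‖HH β s - 1‖ ≤ ε)
    (J1 : ∀ s : ℂ, ‖s - sg κ t‖ ≤ 0.09 → -1 < s.im ∧ ‖HH β s - 1‖ ≤ ε)
    (hA0 : ‖sg κ (t - h) / (1 - I * sg κ (t - h))‖ ≤ A0) (hA1 : ‖sg κ t / (1 - I * sg κ t)‖ ≤ A1)
    (hG : gsl κ (t - h) - gsl κ t ≤ G) (hfin : (A0 + A1) * (ε / (0.09 * (1 - ε))) + G ≤ 1.116) :
    39 / 10 / h ≤ (deriv (XX β b 1) w / XX β b 1 w - deriv (XX β b 0) w / XX β b 0 w).im := by
  have hh9 := h_le9 H.hb H.hh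
  have hp : 0 < h := h_pos H.hb H.hh
  have hR : 0 < R := by linarith [H.R1]
  have hκ := H.k0
  have hβ0 : 0 < β := by rw [hβ]; exact div_pos hκ hR
  have hk : kp β w = κ := by unfold kp; rw [hw, hβ]; field_simp
  have ht0 : tk β b 0 w = t - h := by
    rw [← ht, H.hh]
    unfold tk
    push_cast
    ring
  have i1 := im_logDeriv (β := β) (δ := 0.09) (ε := ε) hβ0 (b := b) (k := 1) (w := w) (by rw [hk, ht]; exact d1)
    (by norm_num) hε1 (by rw [hk, ht]; exact fun s hs => (J1 s hs).1) (by rw [hk, ht]; exact fun s hs => (J1 s hs).2)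
  have i0 := im_logDeriv (β := β) (δ := 0.09) (ε := ε) hβ0 (b := b) (k := 0) (w := w) (by rw [hk, ht0]; exact d0)
    (by norm_num) hε1 (by rw [hk, ht0]; exact fun s hs => (J0 s hs).1) (by rw [hk, ht0]; exact fun s hs => (J0 s hs).2)
  rw [hk, ht, slope_im_sg d1] at i1
  rw [hk, ht0, slope_im_sg d0] at i0
  have hq : 0 ≤ ε / (0.09 * (1 - ε)) := div_nonneg hε0 (by nlinarith)
  have j1 := mul_le_mul_of_nonneg_right hA1 hq
  have j0 := mul_le_mul_of_nonneg_right hA0 hq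
  have k1 := (abs_le.1 (i1.trans j1)).1
  have k0 := (abs_le.1 (i0.trans j0)).2
  -- the main term
  have p1 := pR_050 d1 (by linarith [H.k1]) (by nlinarith) (by nlinarith)
  have p0 := pL_050 d0 (by linarith [H.k1]) (by nlinarith) (by nlinarith)
  have e1 : sy κ t / β = R * sp κ t := by rw [sy_eq_sp d1, hβ]; field_simp
  have e0 : sy κ (t - h) / β = R * sp κ (t - h) := by rw [sy_eq_sp d0, hβ]; field_simp
  rw [e1] at k1
  rw [e0] at k0
  have hA : 0 < 1 + κ ^ 2 := by positivity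
  have hmain : 4.679488 / h ≤ R * (sp κ t - sp κ (t - h)) := by
    have h1 : 0.8602 * h / (1 + κ ^ 2) ≤ sp κ t - sp κ (t - h) := by
      have h2 : 0.8602 * h / (1 + κ ^ 2) ≤ 0.797 * (t + κ) / (1 + κ ^ 2) - 0.955 * (t - h + κ) / (1 + κ ^ 2) := by
        rw [← sub_div, div_le_div_iff_of_pos_right hA]
        linarith
      linarith
    refine le_trans ?_ (mul_le_mul_of_nonneg_left h1 hR.le)
    rw [div_le_iff₀ hp]
    have h3 : R * (0.8602 * h / (1 + κ ^ 2)) * h = 0.8602 * ((R * h ^ 2) / (1 + κ ^ 2)) := by ring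
    rw [h3]
    have h4 : 5.44 ≤ R * h ^ 2 / (1 + κ ^ 2) := by
      rw [le_div_iff₀ hA]
      exact H.T1
    linarith
  have hcor : 1.116 ≤ 0.7795 / h := by
    rw [le_div_iff₀ hp]
    linarith
  have hc2 : 39 / 10 / h + 0.779488 / h = 4.679488 / h := by
    rw [← add_div]; norm_num
  have hc3 : 1.116 ≤ 0.779488 / h := by
    rw [le_div_iff₀ hp]
    linarith
  rw [Complex.sub_im]
  nlinarith [k1, k0, hmain, hfin, hG, hc2, hc3]

theorem OP.dom2 {b : ℕ} {h κ R t : ℝ} (H : OP b h κ R t) (lo : 0.42 * h ≤ t + κ) (hi : t + κ ≤ 0.6 * h) :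
    DomR κ (t - h) ∧ DomR κ t := by
  have hp : 0 < h := h_pos H.hb H.hh
  have hh := h_le9 H.hb H.hh
  have hk := H.k0
  have hpi := Real.pi_gt_d2
  have he : Real.exp (-1) < κ ∨ κ ≤ 0.38 := by
    rcases le_or_gt κ 0.38 with h3 | h3
    · exact Or.inr h3
    · left
      have := Real.exp_neg_one_lt_d9
      linarith
  refine ⟨⟨hk, by linarith, ?_⟩, ⟨hk, by linarith, ?_⟩⟩
  · rcases he with h3 | h3
    · exact Or.inl h3
    · right; linarith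
  · rcases he with h3 | h3
    · exact Or.inl h3
    · right; linarith

/-- data of the right saddle -/
theorem OP.right {b : ℕ} {h κ R t : ℝ} (H : OP b h κ R t) (lo : 0.42 * h ≤ t + κ) (hi : t + κ ≤ 0.6 * h) :
    0 ≤ sy κ t ∧ sy κ t * (1 + κ ^ 2) ≤ 0.419 * κ ∧ sx κ t ≤ κ ∧
      κ ^ 2 * (1 - 2 * sy κ t + 2 * sy κ t ^ 2 - 4 / 3 * sy κ t ^ 3) - sy κ t ^ 2 ≤ sx κ t ^ 2 := by
  obtain ⟨-, d1⟩ := H.dom2 lo hi
  have hp : 0 < h := h_pos H.hb H.hh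
  have hh := h_le9 H.hb H.hh
  have hk := H.k0
  have hy0 := sy_nonneg d1 (by nlinarith)
  have hA : 0 < 1 + κ ^ 2 := by positivity
  have hsq := s_sq d1
  have h1 : Real.exp (-2 * sy κ t) ≤ 1 := Real.exp_le_one_iff.2 (by linarith)
  have h2 : 1 - 2 * sy κ t + 2 * sy κ t ^ 2 - 4 / 3 * sy κ t ^ 3 ≤ Real.exp (-2 * sy κ t) := by
    have := r1_exp_ge3 (-2 * sy κ t)
    nlinarith
  have hk2 : 0 < κ ^ 2 := by positivity
  refine ⟨hy0, ?_, ?_, ?_⟩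
  · have h3 := spR_le d1 (by nlinarith) (by nlinarith [H.k1])
    rw [le_div_iff₀ hA] at h3
    rw [sy_eq_sp d1]
    have h4 : sp κ t * (1 + κ ^ 2) ≤ 0.419 := by linarith
    nlinarith
  · apply le_of_sq_le_sq _ hk.le
    nlinarith [sq_nonneg (sy κ t)]
  · nlinarith [mul_le_mul_of_nonneg_left h2 hk2.le]

/-- data of the left saddle -/
theorem OP.left {b : ℕ} {h κ R t : ℝ} (H : OP b h κ R t) (lo : 0.42 * h ≤ t + κ) (hi : t + κ ≤ 0.6 * h) :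
    sy κ (t - h) ≤ 0 ∧ -0.23 ≤ sy κ (t - h) ∧ sx κ (t - h) ^ 2 + sy κ (t - h) ^ 2 ≤ 1.5841 * κ ^ 2 ∧
      κ ^ 2 * (1 - 2 * sy κ (t - h)) - sy κ (t - h) ^ 2 ≤ sx κ (t - h) ^ 2 := by
  obtain ⟨d0, -⟩ := H.dom2 lo hi
  have hp : 0 < h := h_pos H.hb H.hh
  have hh := h_le9 H.hb H.hh
  have hk := H.k0
  have hy0 := sy_nonpos d0 (by nlinarith)
  have hv := y_ge_23 d0 (by nlinarith)
  have hsq := s_sq d0
  have h1 : Real.exp (-2 * sy κ (t - h)) ≤ 1.5841 :=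
    (Real.exp_le_exp.2 (by linarith)).trans exp_046
  have h2 : 1 - 2 * sy κ (t - h) ≤ Real.exp (-2 * sy κ (t - h)) := by
    have := Real.add_one_le_exp (-2 * sy κ (t - h))
    linarith
  have hk2 : 0 < κ ^ 2 := by positivity
  refine ⟨hy0, hv, ?_, ?_⟩
  · rw [hsq]
    nlinarith [mul_le_mul_of_nonneg_left h1 hk2.le]
  · nlinarith [mul_le_mul_of_nonneg_left h2 hk2.le]

theorem OP.betaR {b : ℕ} {h κ R t β : ℝ} (H : OP b h κ R t) (hβ : β = κ / R) :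
    0 < β ∧ β * (11.159 * (1 + κ ^ 2)) ≤ κ := by
  have hp : 0 < h := h_pos H.hb H.hh
  have hh := h_le9 H.hb H.hh
  have hR : 0 < R := by linarith [H.R1]
  have hk := H.k0
  have hT := H.T1
  refine ⟨by rw [hβ]; exact div_pos hk hR, ?_⟩
  rw [hβ, div_mul_eq_mul_div, div_le_iff₀ hR]
  have h1 : h ^ 2 ≤ 0.6982 ^ 2 := pow_le_pow_left₀ hp.le hh 2
  have h2 : 11.159 * (1 + κ ^ 2) ≤ R := by nlinarith
  exact mul_le_mul_of_nonneg_left h2 hk.le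

theorem slopeB_I {b : ℕ} {h κ R t β : ℝ} (H : OP b h κ R t) (hβ : β = κ / R) (lo : 0.42 * h ≤ t + κ)
    (hi : t + κ ≤ 0.6 * h) {w : ℂ} (hw : Real.exp w.re = R) (ht : tk β b 1 w = t) (c1 : κ ≤ 0.455) :
    39 / 10 / h ≤ (deriv (XX β b 1) w / XX β b 1 w - deriv (XX β b 0) w / XX β b 0 w).im := by
  obtain ⟨d0, d1⟩ := H.dom2 lo hi
  obtain ⟨hy1, hy1', hx1, hx1'⟩ := H.right lo hi
  obtain ⟨hy0, hy0', hx0, hx0'⟩ := H.left lo hi
  obtain ⟨hβ0, hβ1⟩ := H.betaR hβ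
  have hk := H.k0
  have hk1 := H.k1
  have X0 := sx_pos d0
  have X1 := sx_pos d1
  have hsq0 := s_sq d0
  have hsq1 := s_sq d1
  have q1 : sx κ t ^ 2 + sy κ t ^ 2 ≤ κ ^ 2 := by
    have h1 : Real.exp (-2 * sy κ t) ≤ 1 := Real.exp_le_one_iff.2 (by linarith)
    nlinarith [mul_le_mul_of_nonneg_left h1 (sq_nonneg κ)]
  have hy2 : sy κ t ≤ 0.2095 := by nlinarith [sq_nonneg (κ - 1)]
  have q0 : κ ^ 2 * Real.exp (-2 * sy κ (t - h)) ≤ 1.5841 * κ ^ 2 := by rw [← hsq0]; exact hx0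
  have q1' : κ ^ 2 * Real.exp (-2 * sy κ t) ≤ κ ^ 2 := by rw [← hsq1]; exact q1
  have hN : β * 29.4 ≤ 1 := by
    have h1 : β * 29.4 * κ ≤ 1 * κ := by nlinarith [mul_nonneg hβ0.le (mul_nonneg (sub_nonneg.2 c1) (by linarith : 0 ≤ 2.19 - κ))]
    exact le_of_mul_le_mul_right h1 hk
  refine slope_core (ε := 0.055) (A0 := 0.62) (A1 := 0.415) (G := 0.37) H hβ lo hi hw ht (by norm_num) (by norm_num) d0 d1
    ?_ ?_ ?_ ?_ ?_ (by norm_num)
  · intro s hs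
    obtain ⟨a1, a2⟩ := disc_re_im hs
    rw [abs_le] at a1 a2
    have hx0u : sx κ (t - h) ≤ 0.58 := le_of_sq_le_sq (by nlinarith [sq_nonneg (sy κ (t - h))]) (by norm_num)
    exact ⟨by linarith, JD_I' hβ0 hN (by linarith) (by linarith) (by linarith) (by linarith)⟩
  · intro s hs
    obtain ⟨a1, a2⟩ := disc_re_im hs
    rw [abs_le] at a1 a2
    have hy3 : sy κ t ≤ 0.191 := by nlinarith
    exact ⟨by linarith, JD_I' hβ0 hN (by linarith) (by linarith) (by linarith) (by linarith)⟩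
  · apply norm_sg_div d0 (by norm_num)
    nlinarith
  · apply norm_sg_div d1 (by norm_num)
    nlinarith
  · have g0 := gsl_le d0 hy0'
    have g1 := gsl_nonneg d1 (by nlinarith)
    linarith

theorem slopeB_II {b : ℕ} {h κ R t β : ℝ} (H : OP b h κ R t) (hβ : β = κ / R) (lo : 0.42 * h ≤ t + κ)
    (hi : t + κ ≤ 0.6 * h) {w : ℂ} (hw : Real.exp w.re = R) (ht : tk β b 1 w = t) (c1 : 0.455 ≤ κ) (c2 : κ ≤ 0.73) :
    39 / 10 / h ≤ (deriv (XX β b 1) w / XX β b 1 w - deriv (XX β b 0) w / XX β b 0 w).im := by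
  obtain ⟨d0, d1⟩ := H.dom2 lo hi
  obtain ⟨hy1, hy1', hx1, hx1'⟩ := H.right lo hi
  obtain ⟨hy0, hy0', hx0, hx0'⟩ := H.left lo hi
  obtain ⟨hβ0, hβ1⟩ := H.betaR hβ
  have hk := H.k0
  have hk1 := H.k1
  have X0 := sx_pos d0
  have X1 := sx_pos d1
  have hsq0 := s_sq d0
  have hsq1 := s_sq d1
  have q1 : sx κ t ^ 2 + sy κ t ^ 2 ≤ κ ^ 2 := by
    have h1 : Real.exp (-2 * sy κ t) ≤ 1 := Real.exp_le_one_iff.2 (by linarith)
    nlinarith [mul_le_mul_of_nonneg_left h1 (sq_nonneg κ)]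
  have hy2 : sy κ t ≤ 0.2095 := by nlinarith [sq_nonneg (κ - 1)]
  have q0 : κ ^ 2 * Real.exp (-2 * sy κ (t - h)) ≤ 1.5841 * κ ^ 2 := by rw [← hsq0]; exact hx0
  have q1' : κ ^ 2 * Real.exp (-2 * sy κ t) ≤ κ ^ 2 := by rw [← hsq1]; exact q1
  have hN : β * 23.3 ≤ 1 := by
    have h1 : β * 23.3 * κ ≤ 1 * κ := by nlinarith [mul_nonneg hβ0.le (mul_nonneg (sub_nonneg.2 c2) (by linarith : 0 ≤ 1.36 - κ))]
    exact le_of_mul_le_mul_right h1 hk
  have hk2l : 0.207025 ≤ κ ^ 2 := by nlinarith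
  have hk2u : κ ^ 2 ≤ 0.5329 := by nlinarith
  have hx0l : 0.455 ≤ sx κ (t - h) := by
    apply le_of_sq_le_sq _ X0.le
    nlinarith
  have hx0u : sx κ (t - h) ≤ 0.955 := le_of_sq_le_sq (by nlinarith [sq_nonneg (sy κ (t - h))]) (by norm_num)
  have hx1l : 0.32 ≤ sx κ t := by
    apply le_of_sq_le_sq _ X1.le
    rcases le_total κ 0.6 with c3 | c3
    · have hy3 : sy κ t ≤ 0.185 := by
        by_contra hcon
        push Not at hcon
        have h8 : 0.185 * (1 + κ ^ 2) < sy κ t * (1 + κ ^ 2) := mul_lt_mul_of_pos_right hcon (by positivity)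
        nlinarith [mul_nonneg (sub_nonneg.2 c3) (by linarith : (0:ℝ) ≤ 1.66 - κ)]
      nlinarith [mul_nonneg hy1 (sub_nonneg.2 hy3), mul_nonneg hy1 (mul_nonneg hy1 (sub_nonneg.2 hy3))]
    · have hy3 : sy κ t ≤ 0.2 := by
        by_contra hcon
        push Not at hcon
        have h8 : 0.2 * (1 + κ ^ 2) < sy κ t * (1 + κ ^ 2) := mul_lt_mul_of_pos_right hcon (by positivity)
        nlinarith [mul_nonneg (sub_nonneg.2 c2) (by linarith : (0:ℝ) ≤ 1.365 - κ)]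
      nlinarith [mul_nonneg hy1 (sub_nonneg.2 hy3), mul_nonneg hy1 (mul_nonneg hy1 (sub_nonneg.2 hy3))]
  refine slope_core (ε := 0.045) (A0 := 0.785) (A1 := 0.59) (G := 0.37) H hβ lo hi hw ht (by norm_num) (by norm_num) d0 d1
    ?_ ?_ ?_ ?_ ?_ (by norm_num)
  · intro s hs
    obtain ⟨a1, a2⟩ := disc_re_im hs
    rw [abs_le] at a1 a2
    exact ⟨by linarith, JD_II' hβ0 hN (by linarith) (fun _ => by linarith) (by linarith) (by linarith) (by linarith)⟩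
  · intro s hs
    obtain ⟨a1, a2⟩ := disc_re_im hs
    rw [abs_le] at a1 a2
    exact ⟨by linarith, JD_II' hβ0 hN (by linarith) (fun h' => by linarith) (by linarith) (by linarith) (by linarith)⟩
  · apply norm_sg_div d0 (by norm_num)
    nlinarith
  · apply norm_sg_div d1 (by norm_num)
    nlinarith
  · have g0 := gsl_le d0 hy0'
    have g1 := gsl_nonneg d1 (by nlinarith)
    linarith

theorem slopeB_III {b : ℕ} {h κ R t β : ℝ} (H : OP b h κ R t) (hβ : β = κ / R) (lo : 0.42 * h ≤ t + κ)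
    (hi : t + κ ≤ 0.6 * h) {w : ℂ} (hw : Real.exp w.re = R) (ht : tk β b 1 w = t) (c2 : 0.73 ≤ κ) :
    39 / 10 / h ≤ (deriv (XX β b 1) w / XX β b 1 w - deriv (XX β b 0) w / XX β b 0 w).im := by
  obtain ⟨d0, d1⟩ := H.dom2 lo hi
  obtain ⟨hy1, hy1', hx1, hx1'⟩ := H.right lo hi
  obtain ⟨hy0, hy0', hx0, hx0'⟩ := H.left lo hi
  obtain ⟨hβ0, hβ1⟩ := H.betaR hβ
  have hk := H.k0
  have hk1 := H.k1
  have X0 := sx_pos d0
  have X1 := sx_pos d1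
  have hsq0 := s_sq d0
  have hsq1 := s_sq d1
  have q1 : sx κ t ^ 2 + sy κ t ^ 2 ≤ κ ^ 2 := by
    have h1 : Real.exp (-2 * sy κ t) ≤ 1 := Real.exp_le_one_iff.2 (by linarith)
    nlinarith [mul_le_mul_of_nonneg_left h1 (sq_nonneg κ)]
  have hy2 : sy κ t ≤ 0.2095 := by nlinarith [sq_nonneg (κ - 1)]
  have q0 : κ ^ 2 * Real.exp (-2 * sy κ (t - h)) ≤ 1.5841 * κ ^ 2 := by rw [← hsq0]; exact hx0
  have q1' : κ ^ 2 * Real.exp (-2 * sy κ t) ≤ κ ^ 2 := by rw [← hsq1]; exact q1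
  have hN : β * 22.2 ≤ 1 := by
    have h1 : β * 22.2 * κ ≤ 1 * κ := by nlinarith [mul_nonneg hβ0.le (sq_nonneg (κ - 1))]
    exact le_of_mul_le_mul_right h1 hk
  have hk2l : 0.5329 ≤ κ ^ 2 := by nlinarith
  have hk2u : κ ^ 2 ≤ 1.9321 := by nlinarith
  have hx0l : 0.73 ≤ sx κ (t - h) := by
    apply le_of_sq_le_sq _ X0.le
    nlinarith
  have hx0u : sx κ (t - h) ≤ 1.755 := le_of_sq_le_sq (by nlinarith [sq_nonneg (sy κ (t - h))]) (by norm_num)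
  have hx1l : 0.54 ≤ sx κ t := by
    apply le_of_sq_le_sq _ X1.le
    rcases le_total κ 0.8 with c3 | c3
    · have hy3 : sy κ t ≤ 0.2045 := by
        by_contra hcon
        push Not at hcon
        have h8 : 0.2045 * (1 + κ ^ 2) < sy κ t * (1 + κ ^ 2) := mul_lt_mul_of_pos_right hcon (by positivity)
        nlinarith [mul_nonneg (sub_nonneg.2 c3) (by linarith : (0:ℝ) ≤ 1.245 - κ)]
      nlinarith [mul_nonneg hy1 (sub_nonneg.2 hy3), mul_nonneg hy1 (mul_nonneg hy1 (sub_nonneg.2 hy3))]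
    · have hk3 : 0.64 ≤ κ ^ 2 := by nlinarith
      nlinarith [mul_nonneg hy1 (sub_nonneg.2 hy2), mul_nonneg hy1 (mul_nonneg hy1 (sub_nonneg.2 hy2))]
  have J0 : ∀ s : ℂ, ‖s - sg κ (t - h)‖ ≤ 0.09 → -1 < s.im ∧ ‖HH β s - 1‖ ≤ 0.038 := by
    intro s hs
    obtain ⟨a1, a2⟩ := disc_re_im hs
    rw [abs_le] at a1 a2
    exact ⟨by linarith, JD_III' hβ0 hN (by linarith) (fun _ => by linarith) (by linarith) (by linarith) (by linarith)⟩
  have J1 : ∀ s : ℂ, ‖s - sg κ t‖ ≤ 0.09 → -1 < s.im ∧ ‖HH β s - 1‖ ≤ 0.038 := by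
    intro s hs
    obtain ⟨a1, a2⟩ := disc_re_im hs
    rw [abs_le] at a1 a2
    exact ⟨by linarith, JD_III' hβ0 hN (by linarith) (fun h' => by linarith) (by linarith) (by linarith) (by linarith)⟩
  rcases le_total κ 1 with c3 | c3
  · refine slope_core (ε := 0.038) (A0 := 0.87) (A1 := 0.7072) (G := 0.37) H hβ lo hi hw ht (by norm_num) (by norm_num)
      d0 d1 J0 J1 ?_ ?_ ?_ (by norm_num)
    · apply norm_sg_div d0 (by norm_num)
      nlinarith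
    · apply norm_sg_div d1 (by norm_num)
      nlinarith
    · have g0 := gsl_le d0 hy0'
      have g1 := gsl_nonneg d1 (by nlinarith)
      linarith
  · refine slope_core (ε := 0.038) (A0 := 0.925) (A1 := 0.812) (G := 0.13) H hβ lo hi hw ht (by norm_num) (by norm_num)
      d0 d1 J0 J1 ?_ ?_ ?_ (by norm_num)
    · apply norm_sg_div d0 (by norm_num)
      nlinarith
    · apply norm_sg_div d1 (by norm_num)
      nlinarith
    · have g1 := gsl_ge d1 hy1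
      have g0 := gsl_nonpos d0 (by nlinarith)
      linarith

/-- **the difference of the slopes** (row SLOPE) -/
theorem slopeB {b : ℕ} {h κ R t β : ℝ} (H : OP b h κ R t) (hβ : β = κ / R) (lo : 0.42 * h ≤ t + κ)
    (hi : t + κ ≤ 0.6 * h) {w : ℂ} (hw : Real.exp w.re = R) (ht : tk β b 1 w = t) :
    39 / 10 / h ≤ (deriv (XX β b 1) w / XX β b 1 w - deriv (XX β b 0) w / XX β b 0 w).im := by
  rcases le_total κ 0.455 with c1 | c1
  · exact slopeB_I H hβ lo hi hw ht c1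
  rcases le_total κ 0.73 with c2 | c2
  · exact slopeB_II H hβ lo hi hw ht c1 c2
  · exact slopeB_III H hβ lo hi hw ht c2

end Sok
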