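import Pool.Agent.Lib.MP_816dec_an.R1S3

/-!
MP_816dec_an (A3, row R1, `b ≥ 9`, `κ ≤ 0.29`): the far copies on the discs.
-/

set_option autoImplicit false

open Complex Set Filter Topology Metric

namespace Sok

theorem psiR {n s h κ d : ℝ} (h1 : 0.3152 ≤ s) (hκ : κ ≤ 0.29) (hh : 0 < h)
    (hd : d = (n + s) * h - κ - Real.pi / 2) :
    1 + (0.2 - 0.2074 * h) * d - 0.386 * h - 0.1831 * h ^ 2 ≤ 1 + 0.2 * d - h ^ 2 * (0.2074 * n + 0.2484) := by
  have hpi := Real.pi_lt_d4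
  have e : n * h = d + κ + Real.pi / 2 - s * h := by rw [hd]; ring
  have e2 : h ^ 2 * (0.2074 * n + 0.2484) = 0.2074 * h * (n * h) + 0.2484 * h ^ 2 := by ring
  rw [e2, e]
  have h2 : h * (κ + Real.pi / 2) ≤ h * 1.861 := mul_le_mul_of_nonneg_left (by linarith) hh.le
  have h3 : h ^ 2 * 0.3152 ≤ h ^ 2 * s := mul_le_mul_of_nonneg_left h1 (by positivity)
  have e3 : 0.2074 * h * (d + κ + Real.pi / 2 - s * h) =
      0.2074 * h * d + 0.2074 * (h * (κ + Real.pi / 2)) - 0.2074 * (h ^ 2 * s) := by ring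
  rw [e3]
  linarith [sq_nonneg h]

theorem psiL {n h κ D : ℝ} (hκ : 0 < κ) (hh : 0 < h)
    (hD : D = (n + 0.6848) * h + κ - Real.pi / 2) :
    1 + (0.2 - 0.2326 * h) * D - 0.3654 * h - 0.1152 * h ^ 2 ≤ 1 + 0.2 * D - h ^ 2 * (0.2326 * n + 0.2744) := by
  have hpi := Real.pi_lt_d4
  have e : n * h = D - κ + Real.pi / 2 - 0.6848 * h := by rw [hD]; ring
  have e2 : h ^ 2 * (0.2326 * n + 0.2744) = 0.2326 * h * (n * h) + 0.2744 * h ^ 2 := by ring
  rw [e2, e]
  have h2 : h * (-κ + Real.pi / 2) ≤ h * 1.5708 := mul_le_mul_of_nonneg_left (by linarith) hh.le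
  have e3 : 0.2326 * h * (D - κ + Real.pi / 2 - 0.6848 * h) =
      0.2326 * h * D + 0.2326 * (h * (-κ + Real.pi / 2)) - 0.2326 * 0.6848 * h ^ 2 := by ring
  rw [e3]
  linarith [sq_nonneg h]

/-- `R ≥ 5.07 / H²` if `h ≤ H` -/
theorem R_ge_of_h {R h H : ℝ} (hh : 0 < h) (hH : h ≤ H) (hR : 0 < R) (hT : 5.07 ≤ R * h ^ 2) : 5.07 ≤ R * H ^ 2 :=
  hT.trans (mul_le_mul_of_nonneg_left (pow_le_pow_left₀ hh.le hH 2) hR.le)

/-- `R ≥ 0.1284 m²` if `m h ≤ 2 π` -/
theorem R_ge_of_m {R h m : ℝ} (hm : 0 < m) (hh : 0 < h) (hmh : m * h ≤ 2 * Real.pi) (hR : 0 < R)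
    (hT : 5.07 ≤ R * h ^ 2) : 0.1284 * m ^ 2 ≤ R := by
  have hpi := Real.pi_lt_d4
  have h1 : (m * h) ^ 2 ≤ 6.2832 ^ 2 := pow_le_pow_left₀ (by positivity) (by linarith) 2
  have h2 : R * (m * h) ^ 2 ≤ R * 6.2832 ^ 2 := mul_le_mul_of_nonneg_left h1 hR.le
  have h3 : m ^ 2 * 5.07 ≤ m ^ 2 * (R * h ^ 2) := mul_le_mul_of_nonneg_left hT (by positivity)
  have e : R * (m * h) ^ 2 = m ^ 2 * (R * h ^ 2) := by ring
  rw [e] at h2
  nlinarith [sq_nonneg m]

theorem nh_le {b : ℕ} {h : ℝ} (hb : 9 ≤ b) (hh : h = 2 * Real.pi / b) {m : ℕ} (hm : m ≤ b) :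
    (m : ℝ) * h ≤ 2 * Real.pi := by
  have hb' : (9 : ℝ) ≤ b := by exact_mod_cast hb
  have hm' : (m : ℝ) ≤ b := by exact_mod_cast hm
  have hpi := Real.pi_pos
  have e : 2 * Real.pi = b * h := by rw [hh]; field_simp
  rw [e]
  apply mul_le_mul_of_nonneg_right hm'
  rw [hh]; positivity

/-- right, left half plane -/
theorem ex_pos2_fin {b n : ℕ} {h κ R s d : ℝ} (hb : 9 ≤ b) (hh : h = 2 * Real.pi / b) (hn : 2 ≤ n)
    (hnb : 2 * n + 1 ≤ b) (h1 : 0.3152 ≤ s) (hκ : κ ≤ 0.29) (hR : 0 < R) (hR1 : 10.4 ≤ R)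
    (hT : 5.07 ≤ R * h ^ 2) (hd : d = (n + s) * h - κ - Real.pi / 2) (hd0 : 0 ≤ d) {x : ℝ}
    (hx : x ≤ 0.542 + 0.172 * n - R * (1 + 0.2 * d - h ^ 2 * (0.2074 * n + 0.2484))) :
    Real.exp x ≤ Mfar ((n : ℤ) + 1) := by
  have hp := h_pos hb hh
  have h9 := h_le9 hb hh
  have hpi := Real.pi_lt_d4
  have hpi2 := Real.pi_gt_d4
  have hψ := psiR (n := n) h1 hκ hp hd
  have hcoef : 0 ≤ 0.2 - 0.2074 * h := by linarith
  have hcd : 0 ≤ (0.2 - 0.2074 * h) * d := mul_nonneg hcoef hd0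
  have hh2 : h ^ 2 ≤ 0.6982 ^ 2 := pow_le_pow_left₀ hp.le h9 2
  obtain ⟨ψ, hψd⟩ : ∃ ψ, ψ = 1 + 0.2 * d - h ^ 2 * (0.2074 * n + 0.2484) := ⟨_, rfl⟩
  rw [← hψd] at hx hψ
  have hψ1 : 0.641 ≤ ψ := by linarith
  -- `b ≥ 10`
  have h10 : 10 ≤ b → 0.685 ≤ ψ ∧ 12.8 ≤ R := by
    intro hb10
    have hb' : (10 : ℝ) ≤ b := by exact_mod_cast hb10
    have h5 : h ≤ 0.6284 := by
      rw [hh, div_le_iff₀ (by linarith)]; nlinarith
    have h6 : h ^ 2 ≤ 0.6284 ^ 2 := pow_le_pow_left₀ hp.le h5 2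
    have h7 := R_ge_of_h hp h5 hR hT
    refine ⟨by linarith, by linarith⟩
  have hR9 : ∀ c : ℝ, 0 ≤ c → c ≤ ψ → x ≤ 0.542 + 0.172 * n - 10.4 * c := by
    intro c hc hcψ
    have : 10.4 * c ≤ R * ψ := mul_le_mul hR1 hcψ hc hR.le
    linarith
  apply Mfar_pos_of hn
  · intro e
    have := hR9 0.641 (by norm_num) hψ1
    rw [e] at this
    push_cast at this
    linarith
  · intro e
    subst e
    rcases Nat.lt_or_ge 9 b with c | c
    · obtain ⟨q1, q2⟩ := h10 c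
      have : 12.8 * 0.685 ≤ R * ψ := mul_le_mul q2 q1 (by norm_num) hR.le
      push_cast at hx
      linarith
    · have hb9 : b = 9 := by omega
      have h5 : 0.698 ≤ h := by
        rw [hh, hb9]; push_cast; linarith
      push_cast at hd
      have h8 : 0.453 ≤ d := by
        have : (3.3152 : ℝ) * 0.698 ≤ (3 + s) * h := mul_le_mul (by linarith) h5 (by norm_num) (by linarith)
        rw [hd]; linarith
      have h11 : 0.0551 * 0.453 ≤ (0.2 - 0.2074 * h) * d := mul_le_mul (by linarith) h8 (by norm_num) hcoef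
      have := hR9 0.6661 (by norm_num) (by linarith)
      push_cast at this
      linarith
  · intro e
    subst e
    rcases Nat.lt_or_ge 9 b with c | c
    · obtain ⟨q1, q2⟩ := h10 c
      have : 12.8 * 0.685 ≤ R * ψ := mul_le_mul q2 q1 (by norm_num) hR.le
      push_cast at hx
      linarith
    · have hb9 : b = 9 := by omega
      have h5 : 0.698 ≤ h := by
        rw [hh, hb9]; push_cast; linarith
      push_cast at hd
      have h8 : 1.15 ≤ d := by
        have : (4.3152 : ℝ) * 0.698 ≤ (4 + s) * h := mul_le_mul (by linarith) h5 (by norm_num) (by linarith)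
        rw [hd]; linarith
      have h11 : 0.0551 * 1.15 ≤ (0.2 - 0.2074 * h) * d := mul_le_mul (by linarith) h8 (by norm_num) hcoef
      have := hR9 0.7 (by norm_num) (by linarith)
      push_cast at this
      linarith
  · intro e
    have hb11 : 11 ≤ b := by omega
    have h5 := h_le11 hb11 hh
    have h6 : h ^ 2 ≤ 0.5712 ^ 2 := pow_le_pow_left₀ hp.le h5 2
    have hψ2 : 0.7195 ≤ ψ := by linarith
    have hn5 : (5 : ℝ) ≤ n := by exact_mod_cast e
    have hm := nh_le hb hh hnb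
    have h7 := R_ge_of_m (m := 2 * n + 1) (by linarith) hp (by push_cast at hm; exact hm) hR hT
    have h8 : (0.1284 * (2 * (n : ℝ) + 1) ^ 2) * 0.7195 ≤ R * ψ := mul_le_mul h7 hψ2 (by norm_num) hR.le
    nlinarith

/-- left, left half plane -/
theorem ex_neg2_fin {b n : ℕ} {h κ R D : ℝ} (hb : 9 ≤ b) (hh : h = 2 * Real.pi / b) (hn : 2 ≤ n)
    (hnb : 2 * n + 2 ≤ b) (hκ0 : 0 < κ) (hR : 0 < R) (hR1 : 10.4 ≤ R)
    (hT : 5.07 ≤ R * h ^ 2) (hD : D = (n + 0.6848) * h + κ - Real.pi / 2) (hD0 : 0 ≤ D) {x : ℝ}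
    (hx : x ≤ 0.4902 + 0.0302 * n - R * (1 + 0.2 * D - h ^ 2 * (0.2326 * n + 0.2744))) :
    Real.exp x ≤ Mfar (-(n : ℤ)) := by
  have hp := h_pos hb hh
  have h9 := h_le9 hb hh
  have hpi := Real.pi_lt_d4
  have hpi2 := Real.pi_gt_d4
  have hψ := psiL (n := n) hκ0 hp hD
  have hcoef : 0 ≤ 0.2 - 0.2326 * h := by linarith
  have hcd : 0 ≤ (0.2 - 0.2326 * h) * D := mul_nonneg hcoef hD0
  have hh2 : h ^ 2 ≤ 0.6982 ^ 2 := pow_le_pow_left₀ hp.le h9 2
  obtain ⟨ψ, hψd⟩ : ∃ ψ, ψ = 1 + 0.2 * D - h ^ 2 * (0.2326 * n + 0.2744) := ⟨_, rfl⟩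
  rw [← hψd] at hx hψ
  have hψ1 : 0.688 ≤ ψ := by linarith
  have hRψ : 10.4 * 0.688 ≤ R * ψ := mul_le_mul hR1 hψ1 (by norm_num) hR.le
  apply Mfar_neg_of hn
  · intro e
    rw [e] at hx
    push_cast at hx
    linarith
  · intro e
    rw [e] at hx
    push_cast at hx
    linarith
  · intro e
    rw [e] at hx
    push_cast at hx
    linarith
  · intro e
    have hb11 : 11 ≤ b := by omega
    have h5 := h_le11 hb11 hh
    have h6 : h ^ 2 ≤ 0.5712 ^ 2 := pow_le_pow_left₀ hp.le h5 2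
    have hψ2 : 0.75 ≤ ψ := by linarith
    have hn5 : (5 : ℝ) ≤ n := by exact_mod_cast e
    have hm := nh_le hb hh hnb
    have h7 := R_ge_of_m (m := 2 * n + 2) (by linarith) hp (by push_cast at hm; exact hm) hR hT
    have h8 : (0.1284 * (2 * (n : ℝ) + 2) ^ 2) * 0.75 ≤ R * ψ := mul_le_mul h7 hψ2 (by norm_num) hR.le
    nlinarith

/-- **row S2** -/
theorem smallK {b : ℕ} {h κ R t β G0 G1 : ℝ} (H : DP b h κ R t) (hκ : κ ≤ 0.29) (hβ : β = κ / R)
    (h0 : 0.985 * sQ β κ (t - h) ≤ G0) (h0' : G0 ≤ 1.015 * sQ β κ (t - h))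
    (h1 : 0.985 * sQ β κ t ≤ G1) (h1' : G1 ≤ 1.015 * sQ β κ t)
    {k : ℤ} (hk : k ∈ far (aw b) b) (hk2 : k ≠ 2) (hk1 : k ≠ -1) :
    ‖Xf β R h t k‖ * G0 ^ (k - 1) * G1 ^ (-k) ≤ Mfar k := by
  have S := H.SD hκ hβ
  obtain ⟨s, T, hs, hs1, hs2, hT, hT5, f0l, f0u, f1l, f1u⟩ := H.formsS hκ hβ h0 h0' h1 h1'
  have hp := S.h0
  have hh := S.h9
  have hk0 := S.k0
  have hR := S.Rpos
  have hA : 0 < 1 + κ ^ 2 := by positivity
  have hA1 : 1 ≤ 1 + κ ^ 2 := by nlinarith [sq_nonneg κ]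
  have hpi := Real.pi_lt_d4
  have hpi2 := Real.pi_gt_d4
  have hT1 : 5.07 ≤ R * h ^ 2 := by have := S.T1; linarith
  have hTR : T ≤ R * h ^ 2 := by
    rw [hT, div_le_iff₀ hA]
    nlinarith [mul_nonneg hR.le (sq_nonneg h)]
  have hR1 : 10.4 ≤ R := by have := S.R1; linarith
  have hNp := eN_pos R κ
  have hG0 : 0 ≤ G0 := (mul_pos hNp (Real.exp_pos _)).le.trans f0l
  have hG1 : 0 ≤ G1 := (mul_pos hNp (Real.exp_pos _)).le.trans f1l
  have hTT : ∀ a c : ℝ, R / (1 + κ ^ 2) * (c * (a * h) ^ 2) = T * (c * a ^ 2) := by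
    intro a c; rw [hT]; ring
  rcases mem_far_pos H.hb hk hk2 hk1 with ⟨n, hn, rfl, hnb⟩ | ⟨n, hn, rfl, hnb⟩
  · have hn' : (2 : ℝ) ≤ n := by exact_mod_cast hn
    have hnh := nh_le H.hb H.hh hnb
    push_cast at hnh
    have ht' : t + n * h = t + ((((n : ℤ) + 1 : ℤ) : ℝ) - 1) * h := by push_cast; ring
    have e1 : t + n * h + κ = (n + s) * h := by linarith
    have hsh : s * h ≤ 0.7048 * h := mul_le_mul_of_nonneg_right hs2 hp.le
    have hpos : 0 ≤ (n + s) * h := by positivity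
    rcases lt_or_ge (t + n * h) (Real.pi / 2) with c | c
    · have hd : DomR κ (t + n * h) := ⟨hk0, c, Or.inr (by linarith)⟩
      have hX := S.X_right ht' hd (by rw [e1]; exact hpos)
      rw [e1, hTT] at hX
      have hM := Mpos hNp n hG0 hX f0u f1l (ex_pos1 hn' hs1 hs2 hT5)
      refine hM.trans ?_
      apply Mfar_pos_of hn
      · intro e; rw [e]; norm_num
      · intro e; rw [e]; norm_num
      · intro e; rw [e]; norm_num
      · intro e
        have hn5 : (5 : ℝ) ≤ n := by exact_mod_cast e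
        nlinarith
    · have hd0 : 0 ≤ t + n * h - Real.pi / 2 := by linarith
      have hup : t + n * h ≤ 3.3 := by
        have h5 : t + n * h = n * h + s * h - κ := by linarith
        rw [h5]
        linarith
      have hX := S.X_farR ht' c (by linarith) (by linarith)
      have hM := Mpos hNp n hG0 hX f0u f1l (ex_pos2 hn' hs1 hs2 (by linarith) hTR)
      refine hM.trans ?_
      exact ex_pos2_fin H.hb H.hh hn hnb hs1 hκ hR hR1 hT1 (by linarith) hd0 le_rfl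
  · have hn' : (2 : ℝ) ≤ n := by exact_mod_cast hn
    have hnh := nh_le H.hb H.hh hnb
    push_cast at hnh
    have ht' : t - (n + 1) * h = t + (((-(n : ℤ) : ℤ) : ℝ) - 1) * h := by push_cast; ring
    have e1 : t - (n + 1) * h + κ = -((n + 1 - s) * h) := by linarith
    have e1' : t - (n + 1) * h + κ = (-(n + 1 - s)) * h := by linarith
    have hsh : 0.3152 * h ≤ s * h := mul_le_mul_of_nonneg_right hs1 hp.le
    have hpos : 0 ≤ (n + 1 - s) * h := mul_nonneg (by linarith) hp.le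
    rcases lt_or_ge (-(Real.pi / 2)) (t - (n + 1) * h) with c | c
    · have hd : DomR κ (t - (n + 1) * h) := ⟨hk0, by linarith, Or.inr c⟩
      have hX := S.X_left ht' hd (by rw [e1]; linarith)
      rw [e1', hTT] at hX
      have hX' : ‖Xf β R h t (-(n : ℤ))‖ ≤ eN R κ * Real.exp (0.432 - T * (0.3685 * (n + 1 - s) ^ 2)) := by
        refine hX.trans (le_of_eq ?_)
        congr 3
        ring
      have hM := Mneg hNp n hG1 hX' f0l f1u (ex_neg1 hn' hs1 hs2 hT5)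
      refine hM.trans ?_
      apply Mfar_neg_of hn
      · intro e; rw [e]; norm_num
      · intro e; rw [e]; norm_num
      · intro e; rw [e]; norm_num
      · intro e
        have hn5 : (5 : ℝ) ≤ n := by exact_mod_cast e
        nlinarith
    · have hlow : -3.45 ≤ t - (n + 1) * h := by
        have h5 : t - (n + 1) * h = -(n * h) - h + s * h - κ := by linarith
        rw [h5]
        linarith
      have hX := S.X_farL ht' c (by linarith) (by linarith)
      have e2 : -(Real.pi / 2) - (t - (n + 1) * h) = (n + 1 - s) * h + κ - Real.pi / 2 := by linarith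
      rw [e2] at hX
      have hnh5 : 0.5 ≤ (n + 1) * h := by
        have h5 : (n + 1 - s) * h + κ - Real.pi / 2 ≥ 0 := by linarith
        have h6 : (n + 1 - s) * h = (n + 1) * h - s * h := by ring
        have h7 : 0 ≤ s * h := by positivity
        linarith
      have hM := Mneg hNp n hG1 hX f0l f1u
        (ex_neg2 hn' hs1 hs2 (by linarith) hTR hp hR hnh5 (κ := κ) rfl)
      refine hM.trans ?_
      refine ex_neg2_fin H.hb H.hh hn hnb hk0 hR hR1 hT1 rfl ?_ le_rfl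
      have h5 : (n + 1 - s) * h ≤ (n + 0.6848) * h := mul_le_mul_of_nonneg_right (by linarith) hp.le
      linarith

end Sok
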