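import Pool.Agent.Lib.MP_816dec_an.R1S5

/-!
MP_816dec_an (A3, row R1, `b ≥ 9`, `κ ≤ 0.29`): the far copies and the copy `-1` on the outer segment, conclusions.
-/

set_option autoImplicit false

open Complex Set Filter Topology Metric

namespace Sok

theorem exp_small (x E : ℝ) (n : ℕ) (hx : 0 ≤ x) (hE : 0 < E)
    (h : E⁻¹ ≤ ∑ i ∈ Finset.range n, x ^ i / (i.factorial : ℝ)) : Real.exp (-x) ≤ E := by
  rw [Real.exp_neg, inv_le_comm₀ (Real.exp_pos _) hE]
  exact h.trans (Real.sum_le_exp_of_nonneg hx n)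

theorem exp_n2269 : Real.exp (-2.269) ≤ 0.1035 :=
  exp_small 2.269 0.1035 10 (by norm_num) (by norm_num) (by norm_num [Finset.sum_range_succ, Nat.factorial])

theorem exp_n2700 : Real.exp (-2.65) ≤ 0.08 :=
  exp_small 2.65 0.08 10 (by norm_num) (by norm_num) (by norm_num [Finset.sum_range_succ, Nat.factorial])

theorem exp_n3900 : Real.exp (-3.5) ≤ 0.04 :=
  exp_small 3.5 0.04 12 (by norm_num) (by norm_num) (by norm_num [Finset.sum_range_succ, Nat.factorial])

theorem exp_n6400 : Real.exp (-6.3) ≤ 0.002 :=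
  exp_small 6.3 0.002 20 (by norm_num) (by norm_num) (by norm_num [Finset.sum_range_succ, Nat.factorial])

/-- `c (2-s)² - C (1-s)²` on an interval with right end `hi` -/
theorem br_dec {c s hi B : ℝ} (h0 : 0 ≤ s) (h1 : s ≤ hi) (h2 : hi ≤ 1.03) (hc : 0.4 ≤ c)
    (e : B ≤ c * (2 - hi) ^ 2 - 0.585 * (1 - hi) ^ 2) : B ≤ c * (2 - s) ^ 2 - 0.585 * (1 - s) ^ 2 := by
  have e2 : c * (2 - s) ^ 2 - 0.585 * (1 - s) ^ 2 - (c * (2 - hi) ^ 2 - 0.585 * (1 - hi) ^ 2) =
      (hi - s) * (c * (4 - s - hi) - 0.585 * (2 - s - hi)) := by ring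
  have h3 : 0 ≤ (hi - s) * (c * (4 - s - hi) - 0.585 * (2 - s - hi)) := by
    apply mul_nonneg (by linarith)
    have : 0.4 * (4 - s - hi) ≤ c * (4 - s - hi) := mul_le_mul_of_nonneg_right hc (by linarith)
    linarith
  linarith

theorem br_dec1 {c s hi B : ℝ} (h0 : 0 ≤ s) (h1 : s ≤ hi) (h2 : hi ≤ 1) (hc : 0 ≤ c)
    (e : B ≤ c * (2 - hi) ^ 2 - 0.5 * hi ^ 2) : B ≤ c * (2 - s) ^ 2 - 0.5 * s ^ 2 := by
  have h3 : c * (2 - hi) ^ 2 ≤ c * (2 - s) ^ 2 :=
    mul_le_mul_of_nonneg_left (pow_le_pow_left₀ (by linarith) (by linarith) 2) hc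
  have h4 : s ^ 2 ≤ hi ^ 2 := pow_le_pow_left₀ h0 h1 2
  linarith

/-- **row S1**, outer segment -/
theorem smallM1D {b : ℕ} {h κ R t β G0 G1 : ℝ} (H : OP b h κ R t) (hκ : κ ≤ 0.29) (hβ : β = κ / R)
    (h0 : 0.985 * sQ β κ (t - h) ≤ G0) (h1 : 0.985 * sQ β κ t ≤ G1) :
    ‖Xf β R h t (-1)‖ ≤ e1 ((t + κ) / h) * max G0 G1 := by
  obtain ⟨S, -⟩ := H.SDx hκ hβ
  obtain ⟨s, T, hs, hs1, hs2, hT, hT5, f1, f0⟩ := H.formsS hκ hβ h0 h1
  have hp := S.h0
  have hh := S.h9
  have hk0 := S.k0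
  have hR := S.Rpos
  have hA : 0 < 1 + κ ^ 2 := by positivity
  have hpi := Real.pi_gt_d2
  have hNp := eN_pos R κ
  have es : (t + κ) / h = s := by rw [hs]; field_simp
  rw [es]
  have em : t - 2 * h + κ = (-(2 - s)) * h := by linarith
  have pm : 0 ≤ (2 - s) * h := mul_nonneg (by linarith) hp.le
  have bm0 : ∀ c : ℝ, c ≤ s → (2 - s) * h ≤ (2 - c) * 0.6982 := fun c hc =>
    mul_le_mul (by linarith) hh hp.le (by linarith)
  have bm : (2 - s) * h ≤ 1.38 := (bm0 0.03 hs1).trans (by norm_num)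
  have ht' : t - 2 * h = t + (((-1 : ℤ) : ℝ) - 1) * h := by push_cast; ring
  rcases lt_or_ge (-(Real.pi / 2)) (t - 2 * h) with hfar | hfar
  swap
  · -- no saddle: `s ≤ 0.2`
    have hpi4 := Real.pi_gt_d4
    have hs02 : s ≤ 0.2 := by
      by_contra hcon
      push Not at hcon
      have := bm0 0.2 hcon.le
      linarith
    have hX := S.X_farL ht' hfar (by linarith) (by linarith)
    have hR1 : 10.4 ≤ R := by have := S.R1; nlinarith [sq_nonneg κ]
    have hd0 : 0 ≤ R * (-(Real.pi / 2) - (t - 2 * h)) := mul_nonneg hR.le (by linarith)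
    have hT2 : T * (0.5 * s ^ 2) ≤ R * 0.01 := by
      have hTR : T ≤ R * 0.4875 := by
        rw [hT, div_le_iff₀ hA]
        have h5 : h ^ 2 ≤ 0.6982 ^ 2 := pow_le_pow_left₀ hp.le hh 2
        have h6 : R * h ^ 2 ≤ R * 0.4875 := mul_le_mul_of_nonneg_left (by linarith) hR.le
        nlinarith [mul_nonneg hR.le (sq_nonneg κ)]
      have h7 : s ^ 2 ≤ 0.2 ^ 2 := pow_le_pow_left₀ (by linarith) hs02 2
      have h8 : T * (0.5 * s ^ 2) ≤ (R * 0.4875) * (0.5 * 0.2 ^ 2) :=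
        mul_le_mul hTR (by linarith) (by positivity) (by positivity)
      linarith
    unfold e1
    rw [if_pos hs02]
    exact ratio_max hNp hX (Or.inr (f1 (by linarith))) (by linarith : _ ≤ (-6.3 : ℝ)) exp_n6400
  have dm : DomR κ (t - 2 * h) := ⟨hk0, by linarith, Or.inr hfar⟩
  have hTT : ∀ c : ℝ, R / (1 + κ ^ 2) * (c * (t - 2 * h + κ) ^ 2) = T * (c * (2 - s) ^ 2) := by
    intro c; rw [em, hT]; ring
  obtain ⟨b38, b2, b3⟩ := S.b38
  obtain ⟨hJ, n2⟩ := S.J_all dm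
  have hneg : 0 ≤ -(t - 2 * h + κ) := by rw [em]; linarith
  -- crude form of the copy `-1`
  have crude : ∀ c : ℝ, sE κ (t - 2 * h) ≤ 1 - c * (t - 2 * h + κ) ^ 2 / (1 + κ ^ 2) →
      ‖Xf β R h t (-1)‖ ≤ eN R κ * Real.exp (0.432 - T * (c * (2 - s) ^ 2)) := by
    intro c hV
    have hX := Xf_le S.b0 hR.le (by rw [S.b1]) ht' dm (ε := 0.08) (c := c) (d := 0.2689) (m := 0.432)
      (by norm_num) hJ hV (by norm_num)
      ((by nlinarith : 0.2689 * (1 + κ ^ 2) ≤ (1 - 0.46) ^ 2).trans (sD_ge_of_y (by norm_num) n2)) (by norm_num)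
    rwa [hTT] at hX
  have vbox : ∀ (l c τ2 : ℝ), -(t - 2 * h + κ) ≤ τ2 → 0 < l → l * τ2 / (1 + 0 ^ 2) ≤ 4 / 5 →
      (0.29 / (1 + 0.29 ^ 2)) * (l * τ2) ≤ 13 / 20 →
      (1 - 0 * (l * 0 / (1 + 0.29 ^ 2)) + (0 * (l * 0 / (1 + 0.29 ^ 2))) ^ 2 / 2) / 2 + (l * τ2 / (1 + 0 ^ 2)) ^ 2 / 24 +
        (l * τ2 / (1 + 0 ^ 2)) ^ 4 / 30 + 0 ^ 2 * (1 / 2 + (0.29 / (1 + 0.29 ^ 2)) * (l * τ2) / 5) ≤
        (1 + 0 ^ 2) * (1 / l - c / l ^ 2) →
      (1 - 0 * (l * 0 / (1 + 0.29 ^ 2)) + (0 * (l * 0 / (1 + 0.29 ^ 2))) ^ 2 / 2) / 2 + (l * τ2 / (1 + 0 ^ 2)) ^ 2 / 24 +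
        (l * τ2 / (1 + 0 ^ 2)) ^ 4 / 30 + 0.29 ^ 2 * (1 / 2 + (0.29 / (1 + 0.29 ^ 2)) * (l * τ2) / 5) ≤
        (1 + 0.29 ^ 2) * (1 / l - c / l ^ 2) →
      sE κ (t - 2 * h) ≤ 1 - c * (t - 2 * h + κ) ^ 2 / (1 + κ ^ 2) := by
    intro l c τ2 q1 q2 q3 q4 q5 q6
    exact VL_box dm l c 0 0.29 (0.29 / (1 + 0.29 ^ 2)) 0 τ2 _ _ _ _ hneg q1 hk0.le hκ
      (psi_lo hk0.le hκ (by norm_num)) (by norm_num) (by norm_num) q2 rfl rfl q3 rfl rfl q4 q5 q6
  unfold e1
  split_ifs with c1 c2 c3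
  · -- `s ≤ 0.2`
    have hV := vbox 0.579 0.397 1.38 (by linarith) (by norm_num) (by norm_num) (by norm_num) (by norm_num)
      (by norm_num)
    have hb := br_dec1 (c := 0.397) (B := 1.266) (by linarith) c1 (by norm_num) (by norm_num) (by norm_num)
    have h5 : 5.44 * 1.266 ≤ T * (0.397 * (2 - s) ^ 2 - 0.5 * s ^ 2) :=
      mul_le_mul hT5 hb (by norm_num) (by linarith)
    exact ratio_max hNp (crude 0.397 hV) (Or.inr (f1 (by linarith))) (by linarith : _ ≤ (-6.3 : ℝ)) exp_n6400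
  · -- `s ≤ 0.5`
    have hV := vbox 0.634 0.416 1.26 (by have := bm0 0.2 (by linarith); linarith) (by norm_num) (by norm_num)
      (by norm_num) (by norm_num) (by norm_num)
    have hb := br_dec1 (c := 0.416) (B := 0.811) (by linarith) c2 (by norm_num) (by norm_num) (by norm_num)
    have h5 : 5.44 * 0.811 ≤ T * (0.416 * (2 - s) ^ 2 - 0.5 * s ^ 2) :=
      mul_le_mul hT5 hb (by norm_num) (by linarith)
    exact ratio_max hNp (crude 0.416 hV) (Or.inr (f1 c2)) (by linarith : _ ≤ (-3.5 : ℝ)) exp_n3900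
  · -- `s ≤ 0.85`
    have hV := vbox 0.761 0.4475 1.048 (by have := bm0 0.5 (by linarith); linarith) (by norm_num) (by norm_num)
      (by norm_num) (by norm_num) (by norm_num)
    have hb := br_dec (c := 0.4475) (B := 0.578) (by linarith) c3 (by norm_num) (by norm_num) (by norm_num)
    have h5 : 5.44 * 0.578 ≤ T * (0.4475 * (2 - s) ^ 2 - 0.585 * (1 - s) ^ 2) :=
      mul_le_mul hT5 hb (by norm_num) (by linarith)
    exact ratio_max hNp (crude 0.4475 hV) (Or.inl (f0 (by linarith))) (by linarith : _ ≤ (-2.65 : ℝ)) exp_n2700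
  · -- `0.85 < s`
    have c3' : 0.85 < s := not_le.1 c3
    have f0' := f0 (by linarith)
    have bm8 : (2 - s) * h ≤ 0.81 := by have := bm0 0.85 c3'.le; linarith
    have bm97 : (2 - s) * 0.6982 ≤ 0.68 ∨ 0.9739 ≤ 2 - s := by
      rcases le_total (2 - s) 0.9739 with q | q
      · left; linarith
      · right; exact q
    -- the general step
    have step : ∀ c m : ℝ, 0.4 ≤ c → ‖Xf β R h t (-1)‖ ≤ eN R κ * Real.exp (m - T * (c * (2 - s) ^ 2)) →
        m + 0.018 + 2.269 ≤ 5.44 * (c * (2 - 1.03) ^ 2 - 0.585 * (1 - 1.03) ^ 2) → 0 ≤ m →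
        ‖Xf β R h t (-1)‖ ≤ 0.1035 * max G0 G1 := by
      intro c m hc hX q hm
      have hb := br_dec (c := c) (B := (m + 0.018 + 2.269) / 5.44) (by linarith) hs2 (by norm_num) hc
        (by rw [div_le_iff₀ (by norm_num)]; linarith)
      have h5 : 5.44 * ((m + 0.018 + 2.269) / 5.44) ≤ T * (c * (2 - s) ^ 2 - 0.585 * (1 - s) ^ 2) :=
        mul_le_mul hT5 hb (by positivity) (by linarith)
      have h6 : 5.44 * ((m + 0.018 + 2.269) / 5.44) = m + 0.018 + 2.269 := by ring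
      exact ratio_max hNp hX (Or.inl f0') (by linarith : _ ≤ (-2.269 : ℝ)) exp_n2269
    -- near copy: `-τ ≤ 0.5`
    rcases le_total ((2 - s) * h) 0.5 with q5 | q5
    · have hsp := sp_left_05 dm (by linarith) hneg (by linarith)
      have hP : -0.6865 ≤ (1 + κ ^ 2) * sp κ (t - 2 * h) := by
        rw [div_le_iff₀ hA] at hsp
        linarith
      have hD := D0_lo dm 0.689 0.6865 0.4525 (by linarith) (by linarith) hP (g29 hk0 hκ) (by norm_num) (by norm_num)
      have hy : -0.2 ≤ sy κ (t - 2 * h) := by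
        rw [sy_eq_sp dm]
        have h7 : -0.6865 ≤ sp κ (t - 2 * h) := by
          by_contra hcon
          push Not at hcon
          nlinarith [sq_nonneg κ]
        nlinarith
      have hn : ‖sg κ (t - 2 * h)‖ ≤ 0.36 := by
        have hsq := s_sq dm
        have h3 : ‖sg κ (t - 2 * h)‖ ^ 2 = sx κ (t - 2 * h) ^ 2 + sy κ (t - 2 * h) ^ 2 := by
          unfold sg
          rw [← Complex.normSq_eq_norm_sq, Complex.normSq_apply]
          simp
          ring
        apply le_of_sq_le_sq _ (by norm_num)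
        rw [h3, hsq]
        have h8 : Real.exp (-2 * sy κ (t - 2 * h)) ≤ 1.5 := by
          have h9 : Real.exp (-2 * sy κ (t - 2 * h)) ≤ Real.exp 0.4 := Real.exp_le_exp.2 (by linarith)
          have h10 := Real.exp_bound' (x := 0.4) (by norm_num) (by norm_num) (n := 6) (by norm_num)
          norm_num [Finset.sum_range_succ, Nat.factorial] at h10
          linarith
        have h11 : κ ^ 2 ≤ 0.29 ^ 2 := pow_le_pow_left₀ hk0.le hκ 2
        calc κ ^ 2 * Real.exp (-2 * sy κ (t - 2 * h)) ≤ 0.29 ^ 2 * 1.5 :=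
              mul_le_mul h11 h8 (Real.exp_pos _).le (by norm_num)
          _ ≤ 0.36 ^ 2 := by norm_num
      have hJ2 : ‖HH β (sg κ (t - 2 * h)) - 1‖ ≤ 0.5 * β :=
        J45_36 S.b0 b38 (x := sx κ (t - 2 * h)) (y := sy κ (t - 2 * h)) hn
      have hX := Xf_le S.b0 hR.le (by rw [S.b1]) ht' dm (ε := 0.0129) (c := 0.471) (d := 0.689) (m := 0.107)
        (by norm_num) (by linarith) (VL_00_05 dm (by linarith) hneg (by linarith)) (by norm_num) hD (by norm_num)
      rw [hTT] at hX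
      exact step 0.471 0.107 (by norm_num) hX (by norm_num) (by norm_num)
    rcases le_total κ 0.1 with k1 | k1
    · obtain ⟨n1, n2'⟩ := norm_sg_leS (n := 0.1119) dm (by norm_num) (by norm_num) (k1.trans nexp11) (by linarith)
      have hJ2 : ‖HH β (sg κ (t - 2 * h)) - 1‖ ≤ 0.5 * β :=
        J45_36 S.b0 b38 (x := sx κ (t - 2 * h)) (y := sy κ (t - 2 * h)) (n1.trans (by norm_num))
      have hXc : ∀ c : ℝ, sE κ (t - 2 * h) ≤ 1 - c * (t - 2 * h + κ) ^ 2 / (1 + κ ^ 2) →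
          ‖Xf β R h t (-1)‖ ≤ eN R κ * Real.exp (0.067 - T * (c * (2 - s) ^ 2)) := by
        intro c hV
        have hX := Xf_le S.b0 hR.le (by rw [S.b1]) ht' dm (ε := 0.0049) (c := c) (d := 0.7809) (m := 0.067)
          (by norm_num) (by linarith) hV (by norm_num)
          ((by nlinarith : 0.7809 * (1 + κ ^ 2) ≤ (1 - 0.1119) ^ 2).trans (sD_ge_of_y (by norm_num) n2')) (by norm_num)
        rwa [hTT] at hX
      have hV := VL_box dm 0.88 0.4695 0 0.1 (0.1 / (1 + 0.1 ^ 2)) 0 0.81 _ _ _ _ hneg (by linarith) hk0.le k1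
        (psi_lo hk0.le k1 (by norm_num)) (by norm_num) (by norm_num) (by norm_num)
        rfl rfl (by norm_num) rfl rfl (by norm_num) (by norm_num) (by norm_num)
      exact step 0.4695 0.067 (by norm_num) (hXc 0.4695 hV) (by norm_num) (by norm_num)
    rcases le_total κ 0.2 with k2 | k2
    · obtain ⟨n1, n2'⟩ := norm_sg_leS (n := 0.2592) dm (by norm_num) (by norm_num) (k2.trans nexp26) (by linarith)
      have hJ2 : ‖HH β (sg κ (t - 2 * h)) - 1‖ ≤ 0.5 * β :=
        J45_36 S.b0 b38 (x := sx κ (t - 2 * h)) (y := sy κ (t - 2 * h)) (n1.trans (by norm_num))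
      have hV := VL_box dm 0.921 0.4868 0.1 0.2 (0.2 / (1 + 0.2 ^ 2)) 0.5 0.81 _ _ _ _ (by linarith) (by linarith) k1 k2
        (psi_lo hk0.le k2 (by norm_num)) (by norm_num) (by norm_num) (by norm_num)
        rfl rfl (by norm_num) rfl rfl (by norm_num) (by norm_num) (by norm_num)
      have hX := Xf_le S.b0 hR.le (by rw [S.b1]) ht' dm (ε := 0.0097) (c := 0.4868) (d := 0.5276) (m := 0.172)
        (by norm_num) (by linarith) hV (by norm_num)
        ((by nlinarith : 0.5276 * (1 + κ ^ 2) ≤ (1 - 0.2592) ^ 2).trans (sD_ge_of_y (by norm_num) n2')) (by norm_num)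
      rw [hTT] at hX
      exact step 0.4868 0.172 (by norm_num) hX (by norm_num) (by norm_num)
    · have hy := y_ge_32s dm k2 hκ hneg (by linarith)
      have hV := VL_box dm 0.963 0.503 0.2 0.29 (0.29 / (1 + 0.29 ^ 2)) 0.5 0.81 _ _ _ _ (by linarith) (by linarith) k2 hκ
        (psi_lo hk0.le hκ (by norm_num)) (by norm_num) (by norm_num) (by norm_num)
        rfl rfl (by norm_num) rfl rfl (by norm_num) (by norm_num) (by norm_num)
      have hD : 0.418 * (1 + κ ^ 2) ≤ sD κ (t - 2 * h) := by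
        have h3 : sD κ (t - 2 * h) = κ ^ 2 * Real.exp (-2 * sy κ (t - 2 * h)) + 1 + 2 * sy κ (t - 2 * h) := sD_eq' dm
        rw [h3]
        obtain ⟨z, hz⟩ : ∃ z, z = sy κ (t - 2 * h) + 0.32 := ⟨_, rfl⟩
        have hz0 : 0 ≤ z := by rw [hz]; linarith
        have h4 : -2 * sy κ (t - 2 * h) = 0.64 + -2 * z := by rw [hz]; ring
        have h5 : sy κ (t - 2 * h) = z - 0.32 := by rw [hz]; ring
        rw [h4, Real.exp_add, h5]
        have h6 : 1.896 ≤ Real.exp 0.64 := by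
          have := Real.sum_le_exp_of_nonneg (x := 0.64) (by norm_num) 7
          refine le_trans ?_ this
          norm_num [Finset.sum_range_succ, Nat.factorial]
        have h6' : Real.exp 0.64 ≤ 1.9 := by
          have h10 := Real.exp_bound' (x := 0.64) (by norm_num) (by norm_num) (n := 7) (by norm_num)
          norm_num [Finset.sum_range_succ, Nat.factorial] at h10
          linarith
        have h7 := Real.add_one_le_exp (-2 * z)
        have h8 : Real.exp 0.64 * (-2 * z + 1) ≤ Real.exp 0.64 * Real.exp (-2 * z) :=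
          mul_le_mul_of_nonneg_left h7 (Real.exp_pos _).le
        have h9 : 1.896 - 3.8 * z ≤ Real.exp 0.64 * (-2 * z + 1) := by nlinarith
        have h10 : κ ^ 2 * (1.896 - 3.8 * z) ≤ κ ^ 2 * (Real.exp 0.64 * Real.exp (-2 * z)) :=
          mul_le_mul_of_nonneg_left (by linarith) (sq_nonneg κ)
        have h11 : κ ^ 2 * z ≤ 0.29 ^ 2 * z := mul_le_mul_of_nonneg_right (pow_le_pow_left₀ hk0.le hκ 2) hz0
        have h12 : 0.2 ^ 2 ≤ κ ^ 2 := pow_le_pow_left₀ (by norm_num) k2 2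
        nlinarith
      have hn : ‖sg κ (t - 2 * h)‖ ≤ 0.42 := by
        have hsq := s_sq dm
        have h3 : ‖sg κ (t - 2 * h)‖ ^ 2 = sx κ (t - 2 * h) ^ 2 + sy κ (t - 2 * h) ^ 2 := by
          unfold sg
          rw [← Complex.normSq_eq_norm_sq, Complex.normSq_apply]
          simp
          ring
        apply le_of_sq_le_sq _ (by norm_num)
        rw [h3, hsq]
        have h8 : Real.exp (-2 * sy κ (t - 2 * h)) ≤ 1.9 := by
          have h9 : Real.exp (-2 * sy κ (t - 2 * h)) ≤ Real.exp 0.64 := Real.exp_le_exp.2 (by linarith)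
          have h10 := Real.exp_bound' (x := 0.64) (by norm_num) (by norm_num) (n := 7) (by norm_num)
          norm_num [Finset.sum_range_succ, Nat.factorial] at h10
          linarith
        have h11 : κ ^ 2 ≤ 0.29 ^ 2 := pow_le_pow_left₀ hk0.le hκ 2
        calc κ ^ 2 * Real.exp (-2 * sy κ (t - 2 * h)) ≤ 0.29 ^ 2 * 1.9 :=
              mul_le_mul h11 h8 (Real.exp_pos _).le (by norm_num)
          _ ≤ 0.42 ^ 2 := by norm_num
      have hJ2 : ‖HH β (sg κ (t - 2 * h)) - 1‖ ≤ 1.05 * β :=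
        J45_42 S.b0 b38 (x := sx κ (t - 2 * h)) (y := sy κ (t - 2 * h)) hn
      have hX := Xf_le S.b0 hR.le (by rw [S.b1]) ht' dm (ε := 0.0272) (c := 0.503) (d := 0.418) (m := 0.25)
        (by norm_num) (by linarith) hV (by norm_num) hD (by norm_num)
      rw [hTT] at hX
      exact step 0.503 0.25 (by norm_num) hX (by norm_num) (by norm_num)

end Sok
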