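import Pool.Agent.Lib.MP_816dec_an.R1S5

/-!
MP_816dec_an (A3, row R1, `b ≥ 9`, `κ ≤ 0.29`): the far copies on the outer segment.
-/

set_option autoImplicit false

open Complex Set Filter Topology Metric

namespace Sok

theorem exp_ln3 : Real.exp 1.0987 ≥ 3 := by
  have := Real.sum_le_exp_of_nonneg (x := 1.0987) (by norm_num) 10
  refine le_trans ?_ this
  norm_num [Finset.sum_range_succ, Nat.factorial]

/-- a third of the majorant -/
theorem third_of {x M : ℝ} (h : Real.exp (x + 1.0987) ≤ M) : Real.exp x ≤ 1 / 3 * M := by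
  rw [Real.exp_add] at h
  have h1 := exp_ln3
  have h2 : Real.exp x * 3 ≤ Real.exp x * Real.exp 1.0987 := mul_le_mul_of_nonneg_left h1 (Real.exp_pos x).le
  linarith

/-- **row S3** -/
theorem smallKD {b : ℕ} {h κ R t β G0 G1 : ℝ} (H : OP b h κ R t) (hκ : κ ≤ 0.29) (hβ : β = κ / R)
    (h0 : 0.985 * sQ β κ (t - h) ≤ G0) (h1 : 0.985 * sQ β κ t ≤ G1)
    {k : ℤ} (hk : k ∈ far (aw b) b) (hk2 : k ≠ 2) (hk1 : k ≠ -1) :
    ‖Xf β R h t k‖ ≤ 1 / 3 * Mfar k * max G0 G1 := by
  obtain ⟨S, hR11⟩ := H.SDx hκ hβ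
  obtain ⟨s, T, hs, hs1, hs2, hT, hT5, f1, f0⟩ := H.formsS hκ hβ h0 h1
  have hp := S.h0
  have hh := S.h9
  have hk0 := S.k0
  have hR := S.Rpos
  have hA : 0 < 1 + κ ^ 2 := by positivity
  have hpi := Real.pi_lt_d4
  have hpi2 := Real.pi_gt_d4
  have hNp := eN_pos R κ
  have hR1 : 11.15 ≤ R := by nlinarith [sq_nonneg κ]
  have hTR : T ≤ R * h ^ 2 := by
    rw [hT, div_le_iff₀ hA]
    nlinarith [mul_nonneg hR.le (sq_nonneg h), sq_nonneg κ, mul_nonneg (mul_nonneg hR.le (sq_nonneg h)) (sq_nonneg κ)]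
  have hT1 : 5.07 ≤ R * h ^ 2 := by linarith
  have hTR2 : T ≤ R * 0.4875 := by
    have h5 : h ^ 2 ≤ 0.6982 ^ 2 := pow_le_pow_left₀ hp.le hh 2
    have h6 : R * h ^ 2 ≤ R * 0.4875 := mul_le_mul_of_nonneg_left (by linarith) hR.le
    linarith
  have hTT : ∀ a c : ℝ, R / (1 + κ ^ 2) * (c * (a * h) ^ 2) = T * (c * a ^ 2) := by
    intro a c; rw [hT]; ring
  -- lower bound of the maximum
  have hmax : eN R κ * Real.exp (-0.053 - T * 0.1463) ≤ G0 ∨ eN R κ * Real.exp (-0.053 - T * 0.1463) ≤ G1 := by
    rcases le_total s 0.5 with c | c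
    · right
      refine le_trans ?_ (f1 c)
      apply mul_le_mul_of_nonneg_left _ hNp.le
      apply Real.exp_le_exp.2
      have h5 : s ^ 2 ≤ 0.5 ^ 2 := pow_le_pow_left₀ (by linarith) c 2
      have : T * (0.5 * s ^ 2) ≤ T * 0.1463 := mul_le_mul_of_nonneg_left (by linarith) (by linarith)
      linarith
    · left
      refine le_trans ?_ (f0 c)
      apply mul_le_mul_of_nonneg_left _ hNp.le
      apply Real.exp_le_exp.2
      have h5 : (1 - s) ^ 2 ≤ 0.5 ^ 2 := by nlinarith
      have : T * (0.585 * (1 - s) ^ 2) ≤ T * 0.1463 := mul_le_mul_of_nonneg_left (by linarith) (by linarith)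
      linarith
  -- conclusion in the left half plane
  have hfar : ∀ d : ℝ, 0 ≤ d → 0.475 - R * (1 + 0.2 * d) - (-0.053 - T * 0.1463) ≤ 0.528 - 0.928 * R := by
    intro d hd
    have : 0 ≤ R * d := mul_nonneg hR.le hd
    linarith
  rcases mem_far_pos H.hb hk hk2 hk1 with ⟨n, hn, rfl, hnb⟩ | ⟨n, hn, rfl, hnb⟩
  · have hn' : (2 : ℝ) ≤ n := by exact_mod_cast hn
    have hnh := nh_le H.hb H.hh hnb
    push_cast at hnh
    have ht' : t + n * h = t + ((((n : ℤ) + 1 : ℤ) : ℝ) - 1) * h := by push_cast; ring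
    have e1 : t + n * h + κ = (n + s) * h := by linarith
    have hsh : s * h ≤ 1.03 * h := mul_le_mul_of_nonneg_right hs2 hp.le
    have hpos : 0 ≤ (n + s) * h := by positivity
    rcases lt_or_ge (t + n * h) (Real.pi / 2) with c | c
    · have hd : DomR κ (t + n * h) := ⟨hk0, c, Or.inr (by linarith)⟩
      have hX := S.X_right ht' hd (by rw [e1]; exact hpos)
      rw [e1, hTT] at hX
      have h6 : (n + 0.03) ^ 2 ≤ (n + s) ^ 2 := pow_le_pow_left₀ (by positivity) (by linarith) 2
      have h7 : 5.44 * (0.296 * (n + 0.03) ^ 2 - 0.1463) ≤ T * (0.296 * (n + s) ^ 2 - 0.1463) :=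
        mul_le_mul hT5 (by linarith) (by nlinarith) (by linarith)
      refine ratio_max hNp hX hmax (μ := 0.066 - 5.44 * (0.296 * (n + 0.03) ^ 2 - 0.1463)) (by linarith) ?_
      apply third_of
      apply Mfar_pos_of hn
      · intro e; rw [e]; norm_num
      · intro e; rw [e]; norm_num
      · intro e; rw [e]; norm_num
      · intro e
        have hn5 : (5 : ℝ) ≤ n := by exact_mod_cast e
        nlinarith
    · have hup : t + n * h ≤ 3.52 := by
        have h5 : t + n * h = n * h + s * h - κ := by linarith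
        rw [h5]
        linarith
      have hX := S.X_farR ht' c (by linarith) (by linarith)
      refine ratio_max hNp hX hmax (hfar _ (by linarith)) ?_
      apply third_of
      apply Mfar_pos_of hn
      · intro e; linarith
      · intro e; linarith
      · intro e; linarith
      · intro e
        have hn5 : (5 : ℝ) ≤ n := by exact_mod_cast e
        have h7 := R_ge_of_m (m := 2 * n + 1) (by linarith) hp hnh hR hT1
        nlinarith
  · have hn' : (2 : ℝ) ≤ n := by exact_mod_cast hn
    have hnh := nh_le H.hb H.hh hnb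
    push_cast at hnh
    have ht' : t - (n + 1) * h = t + (((-(n : ℤ) : ℤ) : ℝ) - 1) * h := by push_cast; ring
    have e1 : t - (n + 1) * h + κ = -((n + 1 - s) * h) := by linarith
    have e1' : t - (n + 1) * h + κ = (-(n + 1 - s)) * h := by linarith
    have hsh : 0.03 * h ≤ s * h := mul_le_mul_of_nonneg_right hs1 hp.le
    have hpos : 0 ≤ (n + 1 - s) * h := mul_nonneg (by linarith) hp.le
    rcases lt_or_ge (-(Real.pi / 2)) (t - (n + 1) * h) with c | c
    · have hd : DomR κ (t - (n + 1) * h) := ⟨hk0, by linarith, Or.inr c⟩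
      have hX := S.X_left ht' hd (by rw [e1]; linarith)
      rw [e1', hTT] at hX
      have hX' : ‖Xf β R h t (-(n : ℤ))‖ ≤ eN R κ * Real.exp (0.432 - T * (0.3685 * (n + 1 - s) ^ 2)) := by
        refine hX.trans (le_of_eq ?_)
        congr 3
        ring
      by_cases h2 : n = 2
      · subst h2
        push_cast at hX' ⊢
        rcases le_total s 0.5 with q | q
        · have h6 : (2.5 : ℝ) ^ 2 ≤ (2 + 1 - s) ^ 2 := pow_le_pow_left₀ (by norm_num) (by linarith) 2
          have h7 : 5.44 * (0.3685 * 2.5 ^ 2 - 0.1463) ≤ T * (0.3685 * (2 + 1 - s) ^ 2 - 0.1463) :=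
            mul_le_mul hT5 (by linarith) (by norm_num) (by linarith)
          refine ratio_max hNp hX' hmax (μ := 0.485 - 5.44 * (0.3685 * 2.5 ^ 2 - 0.1463)) (by linarith) ?_
          apply third_of
          refine Mfar_neg_of (n := 2) le_rfl ?_ (by omega) (by omega) (by omega)
          intro _
          norm_num
        · have h6 : 0.3685 * 1.97 ^ 2 - 0.585 * 0.03 ^ 2 ≤ 0.3685 * (2 + 1 - s) ^ 2 - 0.585 * (1 - s) ^ 2 := by
            nlinarith
          have h7 : 5.44 * (0.3685 * 1.97 ^ 2 - 0.585 * 0.03 ^ 2) ≤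
              T * (0.3685 * (2 + 1 - s) ^ 2 - 0.585 * (1 - s) ^ 2) :=
            mul_le_mul hT5 h6 (by norm_num) (by linarith)
          refine ratio_max hNp hX' (Or.inl (f0 q))
            (μ := 0.45 - 5.44 * (0.3685 * 1.97 ^ 2 - 0.585 * 0.03 ^ 2)) (by linarith) ?_
          apply third_of
          refine Mfar_neg_of (n := 2) le_rfl ?_ (by omega) (by omega) (by omega)
          intro _
          norm_num
      · have hn3 : (3 : ℝ) ≤ n := by
          have : 3 ≤ n := by omega
          exact_mod_cast this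
        have h6 : (n - 0.03) ^ 2 ≤ (n + 1 - s) ^ 2 := pow_le_pow_left₀ (by linarith) (by linarith) 2
        have h7 : 5.44 * (0.3685 * (n - 0.03) ^ 2 - 0.1463) ≤ T * (0.3685 * (n + 1 - s) ^ 2 - 0.1463) :=
          mul_le_mul hT5 (by linarith) (by nlinarith) (by linarith)
        refine ratio_max hNp hX' hmax (μ := 0.485 - 5.44 * (0.3685 * (n - 0.03) ^ 2 - 0.1463)) (by linarith) ?_
        apply third_of
        apply Mfar_neg_of hn
        · intro e; exact absurd e h2
        · intro e; rw [e]; norm_num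
        · intro e; rw [e]; norm_num
        · intro e
          have hn5 : (5 : ℝ) ≤ n := by exact_mod_cast e
          nlinarith
    · have hlow : -3.45 ≤ t - (n + 1) * h := by
        have h5 : t - (n + 1) * h = -(n * h) - h + s * h - κ := by linarith
        rw [h5]
        linarith
      have hX := S.X_farL ht' c (by linarith) (by linarith)
      refine ratio_max hNp hX hmax (hfar _ (by linarith)) ?_
      apply third_of
      apply Mfar_neg_of hn
      · intro e; linarith
      · intro e; linarith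
      · intro e; linarith
      · intro e
        have hn5 : (5 : ℝ) ≤ n := by exact_mod_cast e
        have h7 := R_ge_of_m (m := 2 * n + 2) (by linarith) hp hnh hR hT1
        nlinarith

end Sok
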