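import Pool.Agent.Lib.MP_816dec_an.R1FarK
import Pool.Agent.Lib.MP_816dec_an.R1BFarKD
import Pool.Agent.Lib.MP_816dec_an.R1BM1c
import Pool.Agent.Lib.MP_816dec_an.R1BM1e
import Pool.Agent.Lib.MP_816dec_an.R1Asm
import Pool.Agent.Lib.MP_816dec_an.R1Sums
import Pool.Agent.Lib.MP_816dec_an.R1S4
import Pool.Agent.Lib.MP_816dec_an.R1S6
import Pool.Agent.Lib.MP_816dec_an.R1S7
import Pool.Agent.Lib.MP_816dec_an.R1BSlope
import Pool.Agent.Lib.MP_816dec_an.R1BJ2
import Pool.Agent.Lib.MP_816dec_an.R1BM1D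
import Pool.Agent.Lib.MP_816dec_an.R1BLoc
import Pool.Agent.Lib.MP_816dec_an.R1All

/-!
MP_816dec_an (A3, row R1, `b ≥ 9`): assembly of the uniform case.
-/

set_option autoImplicit false

open Complex Set Filter Topology Metric

namespace Sok

theorem XX_eq_XfB (β : ℝ) (b : ℕ) (k : ℤ) (w : ℂ) {h : ℝ} (hh : h = 2 * Real.pi / b) :
    XX β b k w = Xf β (Real.exp w.re) h (tk β b 1 w) k := by
  rw [XX_eq_F]
  unfold Xf
  have e : tk β b k w + β / 2 = tk β b 1 w + (k - 1) * h + β / 2 := by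
    unfold tk
    rw [hh]
    push_cast
    ring
  rw [e]

/-- the numerical consequences of the covering condition at a centre -/
theorem cov_num {b : ℕ} {h κ r : ℝ} (hb : 9 ≤ b) (hh : h = 2 * Real.pi / b)
    (hc : Real.sqrt 3 / 2 * ((b : ℝ) ^ 2 * (1 + κ ^ 2)) ≤ 2 * Real.pi * r) :
    11.16 * (1 + κ ^ 2) ≤ r ∧ 5.441 * (1 + κ ^ 2) ≤ r * h ^ 2 := by
  have hb' : (9 : ℝ) ≤ b := by exact_mod_cast hb
  have hb0 : (0 : ℝ) < b := by linarith
  have h3 : (1.732 : ℝ) ≤ Real.sqrt 3 := Real.le_sqrt_of_sq_le (by norm_num)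
  have hpi1 := Real.pi_lt_d4
  have hpi2 := Real.pi_gt_d4
  have hpi0 := Real.pi_pos
  have hA : 0 < 1 + κ ^ 2 := by positivity
  have h1 : 1.732 / 2 * ((b : ℝ) ^ 2 * (1 + κ ^ 2)) ≤ 2 * Real.pi * r := by
    refine le_trans ?_ hc
    apply mul_le_mul_of_nonneg_right _ (by positivity)
    linarith
  constructor
  · have h2 : (81 : ℝ) * (1 + κ ^ 2) ≤ (b : ℝ) ^ 2 * (1 + κ ^ 2) := by
      apply mul_le_mul_of_nonneg_right _ hA.le
      nlinarith
    have hr : 0 ≤ r := by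
      by_contra hcon
      push Not at hcon
      have : 2 * Real.pi * r < 0 := by nlinarith
      nlinarith
    have h4 : 2 * Real.pi * r ≤ 2 * 3.1416 * r := by
      apply mul_le_mul_of_nonneg_right _ hr
      linarith
    nlinarith
  · have h5 : r * h ^ 2 = 2 * Real.pi * (2 * Real.pi * r) / (b : ℝ) ^ 2 := by
      rw [hh]; field_simp
    rw [h5, le_div_iff₀ (by positivity)]
    have h6 : 2 * Real.pi * (1.732 / 2 * ((b : ℝ) ^ 2 * (1 + κ ^ 2))) ≤ 2 * Real.pi * (2 * Real.pi * r) :=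
      mul_le_mul_of_nonneg_left h1 (by positivity)
    refine le_trans ?_ h6
    have h7 : 0 ≤ (b : ℝ) ^ 2 * (1 + κ ^ 2) := by positivity
    have h8 : 5.441 ≤ 2 * Real.pi * (1.732 / 2) := by linarith
    calc 5.441 * (1 + κ ^ 2) * (b : ℝ) ^ 2 = 5.441 * ((b : ℝ) ^ 2 * (1 + κ ^ 2)) := by ring
      _ ≤ (2 * Real.pi * (1.732 / 2)) * ((b : ℝ) ^ 2 * (1 + κ ^ 2)) := mul_le_mul_of_nonneg_right h8 h7
      _ = _ := by ring

theorem OP_of_cov {b : ℕ} {h β r : ℝ} (hb : 9 ≤ b) (hh : h = 2 * Real.pi / b) (hβ : 0 < β) (hr : 0 < r)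
    (hκ : β * r ≤ 1.39) (hc : Real.sqrt 3 / 2 * ((b : ℝ) ^ 2 * (1 + (β * r) ^ 2)) ≤ 2 * Real.pi * r) {w : ℂ}
    (hw : w ∈ vseg (Real.log r) (β / 2 - β * r - 0.97 * h) (β / 2 - β * r - 0.97 * h + 2 * Real.pi / b)) :
    OP b h (β * r) r (tk β b 1 w) ∧ Real.exp w.re = r := by
  obtain ⟨h1, h2, h3⟩ := hw
  obtain ⟨h4, h5⟩ := cov_num hb hh hc
  have hk : 0 < β * r := by positivity
  have e : Real.exp w.re = r := by rw [h1, Real.exp_log hr]
  have ht : tk β b 1 w = w.im + h - β / 2 := by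
    unfold tk
    rw [hh]
    push_cast
    ring
  rw [← hh] at h3
  refine ⟨⟨hb, hh, hk, hκ, ?_, ?_, ?_, ?_⟩, e⟩
  · nlinarith
  · have : 0 ≤ 1 + (β * r) ^ 2 := by positivity
    linarith
  · rw [ht]; linarith
  · rw [ht]; linarith

theorem DP_of_ball {b : ℕ} {h β r : ℝ} (hb : 9 ≤ b) (hh : h = 2 * Real.pi / b) (hβ : 0 < β) (hr : 0 < r)
    (hκ : β * r ≤ 1.39) (hc : Real.sqrt 3 / 2 * ((b : ℝ) ^ 2 * (1 + (β * r) ^ 2)) ≤ 2 * Real.pi * r) {w w' : ℂ}
    (hw : w ∈ vseg (Real.log r) (β / 2 - β * r - 0.58 * h) (β / 2 - β * r - 0.4 * h))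
    (hw' : w' ∈ closedBall w (h / 10)) :
    DP b h (kp β w') (Real.exp w'.re) (tk β b 1 w') := by
  obtain ⟨h1, h2, h3⟩ := hw
  obtain ⟨h4, h5⟩ := cov_num hb hh hc
  have hk : 0 < β * r := by positivity
  have hp := h_pos hb hh
  have hp9 := h_le9 hb hh
  obtain ⟨x, hx⟩ : ∃ x, x = w'.re - Real.log r := ⟨_, rfl⟩
  obtain ⟨y, hy⟩ : ∃ y, y = w'.im - w.im := ⟨_, rfl⟩
  have hxy : x ^ 2 + y ^ 2 ≤ (h / 10) ^ 2 := by
    have h6 : ‖w' - w‖ ≤ h / 10 := by simpa [dist_eq_norm] using hw'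
    have h7 : ‖w' - w‖ ^ 2 = x ^ 2 + y ^ 2 := by
      rw [← Complex.normSq_eq_norm_sq, Complex.normSq_apply, hx, hy, ← h1]
      simp only [Complex.sub_re, Complex.sub_im]
      ring
    rw [← h7]
    exact pow_le_pow_left₀ (norm_nonneg _) h6 2
  have hxa : |x| ≤ h / 10 := abs_le_of_sq_le_sq (by nlinarith [sq_nonneg y]) (by positivity)
  have hx1 : -0.06982 ≤ x := by have := (abs_le.1 hxa).1; linarith
  have hx2 : x ≤ 0.06982 := by have := (abs_le.1 hxa).2; linarith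
  obtain ⟨E, hE⟩ : ∃ E, E = Real.exp x := ⟨_, rfl⟩
  have hE0 : 0 < E := by rw [hE]; exact Real.exp_pos _
  have hEl : 0.9325 ≤ E := by
    have h8 := r1_exp_ge3 (-0.06982)
    have h9 : Real.exp (-0.06982) ≤ E := by rw [hE]; exact Real.exp_le_exp.2 hx1
    refine le_trans ?_ (h8.trans h9)
    norm_num
  have hEu : E ≤ 1.0725 := by
    have h9 : E ≤ Real.exp 0.06982 := by rw [hE]; exact Real.exp_le_exp.2 hx2
    have h10 := Real.exp_bound' (x := 0.06982) (by norm_num) (by norm_num) (n := 4) (by norm_num)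
    refine h9.trans (h10.trans ?_)
    norm_num [Finset.sum_range_succ, Nat.factorial]
  have hEr : Real.exp w'.re = r * E := by
    have : w'.re = Real.log r + x := by rw [hx]; ring
    rw [this, Real.exp_add, Real.exp_log hr, hE]
  have hkp : kp β w' = β * r * E := by unfold kp; rw [hEr]; ring
  have hkE : 0 < β * r * E := by positivity
  have ht : tk β b 1 w' = w'.im + h - β / 2 := by
    unfold tk
    rw [hh]
    push_cast
    ring
  have hiE : |1 - 1 / E| ≤ 1.07 * |x| := by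
    have e1 : 1 / E = Real.exp (-x) := by rw [hE, Real.exp_neg, one_div]
    have h11 := Real.abs_exp_sub_one_sub_id_le (x := -x) (by rw [abs_neg]; linarith)
    rw [e1]
    have h12 : |x| ≤ 0.0699 := by linarith
    have h13 : |1 - Real.exp (-x)| ≤ |x| + x ^ 2 := by
      have e2 : 1 - Real.exp (-x) = -(Real.exp (-x) - 1 - -x) + x := by ring
      rw [e2]
      refine (abs_add_le _ _).trans ?_
      rw [abs_neg]
      have : (-x) ^ 2 = x ^ 2 := by ring
      linarith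
    have h14 : x ^ 2 ≤ 0.0699 * |x| := by
      rw [← sq_abs, sq]
      exact mul_le_mul_of_nonneg_right h12 (abs_nonneg _)
    have := abs_nonneg x
    linarith
  have hsh : |y + (β * r * E) * (1 - 1 / E)| ≤ sgm (β * r * E) * h := by
    unfold sgm
    obtain ⟨K, hK⟩ : ∃ K, K = β * r * E := ⟨_, rfl⟩
    rw [← hK] at hkE ⊢
    have h15 : |y + K * (1 - 1 / E)| ≤ |y| + 1.07 * K * |x| := by
      refine (abs_add_le _ _).trans ?_
      rw [abs_mul, abs_of_pos hkE]
      nlinarith [mul_le_mul_of_nonneg_left hiE hkE.le]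
    refine h15.trans ?_
    have e3 : Real.sqrt (1 + 1.15 * K ^ 2) / 10 * h = (h / 10) * Real.sqrt (1 + 1.15 * K ^ 2) := by ring
    rw [e3]
    apply le_of_sq_le_sq _ (by positivity)
    rw [mul_pow, Real.sq_sqrt (by positivity)]
    have h16 : (|y| + 1.07 * K * |x|) ^ 2 ≤ (x ^ 2 + y ^ 2) * (1 + 1.15 * K ^ 2) := by
      have e4 := sq_abs x
      have e5 := sq_abs y
      rw [← e4, ← e5]
      have h17 : 0 ≤ (|x| - 1.07 * K * |y|) ^ 2 := sq_nonneg _
      have h18 : 0 ≤ K ^ 2 * |x| ^ 2 := by positivity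
      have h19 : 0 ≤ K ^ 2 * |y| ^ 2 := by positivity
      have e8 : (|x| ^ 2 + |y| ^ 2) * (1 + 1.15 * K ^ 2) - (|y| + 1.07 * K * |x|) ^ 2 =
        (|x| - 1.07 * K * |y|) ^ 2 + 0.0051 * (K ^ 2 * |x| ^ 2) + 0.0051 * (K ^ 2 * |y| ^ 2) := by ring
      linarith
    refine h16.trans ?_
    exact mul_le_mul_of_nonneg_right hxy (by positivity)
  have hid : (β * r * E) * (1 - 1 / E) = β * r * E - β * r := by field_simp
  rw [hid] at hsh
  obtain ⟨h20, h21⟩ := abs_le.1 hsh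
  have hA : 0 < (β * r) ^ 2 := by positivity
  rw [hkp, hEr, ht]
  refine ⟨hb, hh, hkE, ?_, ?_, ?_, ?_, ?_⟩
  · nlinarith
  · have h22 : 11.16 ≤ r := by nlinarith
    nlinarith
  · have h23 : 5.441 * (1 + (β * r) ^ 2) * E ≤ r * h ^ 2 * E := mul_le_mul_of_nonneg_right h5 hE0.le
    have h24 : 0 ≤ (β * r) ^ 2 * (E * (5.441 - 5.07 * E)) := by
      apply mul_nonneg hA.le
      apply mul_nonneg hE0.le
      linarith
    have e6 : 5.441 * (1 + (β * r) ^ 2) * E - 5.07 * (1 + (β * r * E) ^ 2) =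
      (5.441 * E - 5.07) + (β * r) ^ 2 * (E * (5.441 - 5.07 * E)) := by ring
    have e7 : r * E * h ^ 2 = r * h ^ 2 * E := by ring
    rw [e7]
    linarith
  · linarith
  · linarith

/-- the copy `2` on the discs -/
theorem nearK2 {b : ℕ} {h κ R t β G0 G1 : ℝ} (H : DP b h κ R t) (hβ : β = κ / R)
    (h0 : 0 ≤ G0) (h0' : G0 ≤ 1.034 * sQ β κ (t - h)) (h1 : 0.966 * sQ β κ t ≤ G1) :
    ‖Xf β R h t 2‖ * G0 ^ ((2 : ℤ) - 1) * G1 ^ (-(2 : ℤ)) ≤ 7 / 100 :=
  nearK2_of H hβ (H.J2 hβ) h0 h0' h1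

/-- the copy `2` on the outer segment -/
theorem nearK2D {b : ℕ} {h κ R t β G0 G1 : ℝ} (H : OP b h κ R t) (hβ : β = κ / R)
    (h0 : 0.95 * sQ β κ (t - h) ≤ G0) (h1 : 0.966 * sQ β κ t ≤ G1) :
    ‖Xf β R h t 2‖ ≤ e2 ((t + κ) / h) * max G0 G1 :=
  nearK2D_of H hβ (H.J2 hβ) h0 h1

/-- the copy `-1` on the outer segment, `κ ≥ 0.29` -/
theorem farM1D {b : ℕ} {h κ R t β G0 G1 : ℝ} (H : OP b h κ R t) (hκ : 0.29 ≤ κ) (hβ : β = κ / R)
    (h0 : 0.95 * sQ β κ (t - h) ≤ G0) (h1 : 0.95 * sQ β κ t ≤ G1) :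
    ‖Xf β R h t (-1)‖ ≤ e1 ((t + κ) / h) * max G0 G1 := by
  rcases le_or_gt (t + κ) (0.85 * h) with hs | hs
  · exact farM1D_left H hκ hβ hs h0 h1
  · exact farM1D_right' H hκ hβ hs (H.Jm1 hκ hβ hs) h0

/-- **row R1 for `b ≥ 9`** -/
theorem circ_big {p : ℤ} {b : ℕ} {β r : ℝ} (hb : 9 ≤ b) (hp : IsCoprime (b : ℤ) p) (hr : 0 < r) (hβ : 0 < β)
    (hκ : β * r ≤ 1.39) (hc : Real.sqrt 3 / 2 * ((b : ℝ) ^ 2 * (1 + (β * r) ^ 2)) ≤ 2 * Real.pi * r) :
    Circ (2 * Real.pi * p / b + β) r := by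
  obtain ⟨h, hh⟩ : ∃ h : ℝ, h = 2 * Real.pi / b := ⟨_, rfl⟩
  have hp0 := h_pos hb hh
  have hp9 := h_le9 hb hh
  have hDP : ∀ w ∈ vseg (Real.log r) (β / 2 - β * r - 0.58 * h) (β / 2 - β * r - 0.4 * h),
      ∀ w' ∈ closedBall w (h / 10), DP b h (kp β w') (Real.exp w'.re) (tk β b 1 w') :=
    fun w hw w' hw' => DP_of_ball hb hh hβ hr hκ hc hw hw'
  have hβe : ∀ w' : ℂ, β = kp β w' / Real.exp w'.re := fun w' => by
    unfold kp
    field_simp
  have a0 : aw b ≤ 0 := by unfold aw; omega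
  have a1 : 1 < aw b + b := by unfold aw; omega
  refine circ_of_XX (by omega) hp hr (a0 := aw b) a0 a1 (θ0 := β / 2 - β * r - 0.97 * h)
    (u := β / 2 - β * r - 0.58 * h) (v := β / 2 - β * r - 0.4 * h) (ρ := h / 10) (a := 23 / 20)
    (m := 39 / 10 / h) (η := 0.13) (M := MM) (by linarith) ?_ (by norm_num) ?_ ?_
  · refine ⟨fun k => differentiable_XX β b k, by norm_num, by positivity, ?_, ?_, ?_, ?_, ?_, ?_⟩
    · intro w hw w' hw' h0
      have H := hDP w hw w' hw'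
      have h1 := (H.G (hβe w')).1.1
      have h2 := sQ_pos (β := β) H.dom.1
      have h3 : XX β b 0 w' = Xf β (Real.exp w'.re) h (tk β b 1 w') 0 := XX_eq_XfB β b 0 w' hh
      rw [← h3, h0, norm_zero] at h1
      linarith
    · intro w hw w' hw' h0
      have H := hDP w hw w' hw'
      have h1 := (H.G (hβe w')).2.1
      have h2 := sQ_pos (β := β) H.dom.2.1
      have h3 : XX β b 1 w' = Xf β (Real.exp w'.re) h (tk β b 1 w') 1 := XX_eq_XfB β b 1 w' hh
      rw [← h3, h0, norm_zero] at h1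
      linarith
    · intro w hw w' hw' k hk
      have H := hDP w hw w' hw'
      have h2 := sQ_pos (β := β) H.dom.1
      have h2' := sQ_pos (β := β) H.dom.2.1
      rw [XX_eq_XfB β b k w' hh, XX_eq_XfB β b 0 w' hh, XX_eq_XfB β b 1 w' hh]
      obtain ⟨⟨g1, g2⟩, g3, g4⟩ := H.G (hβe w')
      by_cases hk2 : k = 2
      · subst hk2
        have := nearK2 H (hβe w') (norm_nonneg _) g2 g3
        rwa [MM_vals.1]
      rcases le_total (kp β w') 0.29 with hs | hs
      · obtain ⟨⟨q1, q2⟩, q3, q4⟩ := H.Gs hs (hβe w')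
        by_cases hk1 : k = -1
        · subst hk1
          have := smallM1 H hs (hβe w') q1 (norm_nonneg _) q4
          rwa [MM_vals.2.1]
        · have := smallK H hs (hβe w') q1 q2 q3 q4 hk hk2 hk1
          unfold MM
          rwa [if_neg hk2, if_neg hk1]
      · have g1' : 0.965 * sQ β (kp β w') (tk β b 1 w' - h) ≤ ‖Xf β (Real.exp w'.re) h (tk β b 1 w') 0‖ := by
          linarith
        have g2' : ‖Xf β (Real.exp w'.re) h (tk β b 1 w') 0‖ ≤ 1.035 * sQ β (kp β w') (tk β b 1 w' - h) := by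
          linarith
        have g3' : 0.965 * sQ β (kp β w') (tk β b 1 w') ≤ ‖Xf β (Real.exp w'.re) h (tk β b 1 w') 1‖ := by
          linarith
        have g4' : ‖Xf β (Real.exp w'.re) h (tk β b 1 w') 1‖ ≤ 1.035 * sQ β (kp β w') (tk β b 1 w') := by
          linarith
        by_cases hk1 : k = -1
        · subst hk1
          have := farM1 H hs (hβe w') g1' (norm_nonneg _) g4'
          rwa [MM_vals.2.1]
        · have := farK H hs (hβe w') g1' g2' g3' g4' hk hk2 hk1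
          unfold MM
          rwa [if_neg hk2, if_neg hk1]
    · intro w hw
      have hw2 : w ∈ vseg (Real.log r) (β / 2 - β * r - 0.97 * h) (β / 2 - β * r - 0.97 * h + 2 * Real.pi / b) := by
        rw [← hh]
        exact ⟨hw.1, by linarith [hw.2.1], by linarith [hw.2.2]⟩
      obtain ⟨H, he⟩ := OP_of_cov hb hh hβ hr hκ hc hw2
      have ht : tk β b 1 w = w.im + h - β / 2 := by
        unfold tk
        rw [hh]
        push_cast
        ring
      refine slopeB H (by field_simp) ?_ ?_ he rfl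
      · rw [ht]; linarith [hw.2.1]
      · rw [ht]; linarith [hw.2.2]
    · exact (sums1 hb).trans_lt (by norm_num)
    · have h1 := sums1 hb
      have h2 := sums2 hb
      have e : ∑ k ∈ far (aw b) b, MM k / (h / 10) * (23 / 20) ^ k.natAbs =
          (10 / h) * ∑ k ∈ far (aw b) b, MM k * (23 / 20) ^ k.natAbs := by
        rw [Finset.mul_sum]
        apply Finset.sum_congr rfl
        intro k _
        field_simp
      rw [e]
      have e2 : 23 / 20 * (10 / h * ∑ k ∈ far (aw b) b, MM k * (23 / 20) ^ k.natAbs) =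
          (10 / h) * (23 / 20 * ∑ k ∈ far (aw b) b, MM k * (23 / 20) ^ k.natAbs) := by ring
      rw [e2]
      have h3 : (10 / h) * (23 / 20 * ∑ k ∈ far (aw b) b, MM k * (23 / 20) ^ k.natAbs) ≤ (10 / h) * 0.2026 :=
        mul_le_mul_of_nonneg_left h2 (by positivity)
      have h4 : 39 / 10 / h * (1 - 0.47) ≤ 39 / 10 / h *
          (1 - ∑ k ∈ far (aw b) b, (k.natAbs : ℝ) * MM k * (23 / 20) ^ (k.natAbs + 1)) := by
        apply mul_le_mul_of_nonneg_left _ (by positivity)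
        linarith
      refine lt_of_le_of_lt h3 (lt_of_lt_of_le ?_ h4)
      rw [div_mul_eq_mul_div, div_mul_eq_mul_div, div_lt_div_iff_of_pos_right hp0]
      norm_num
  · intro w hw
    obtain ⟨H, he⟩ := OP_of_cov hb hh hβ hr hκ hc hw
    have hβ' : β = β * r / r := by field_simp
    obtain ⟨⟨g1, g2⟩, g3, g4⟩ := H.G hβ'
    have hXX : ∀ k, XX β b k w = Xf β r h (tk β b 1 w) k := fun k => by rw [XX_eq_XfB β b k w hh, he]
    have hd1 : DomR (β * r) (tk β b 1 w) := by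
      refine ⟨H.k0, ?_, ?_⟩
      · have := H.hi
        have := H.k0
        have := Real.pi_gt_three
        linarith
      · have h1 := H.lo
        by_cases hcase : Real.exp (-1) < β * r
        · exact Or.inl hcase
        · right
          push Not at hcase
          have h3 : Real.exp (-1) < 0.37 := by
            have := Real.exp_neg_one_lt_d9
            linarith
          have := Real.pi_gt_three
          nlinarith
    have hmax : ‖XX β b 1 w‖ ≤ max ‖XX β b 0 w‖ ‖XX β b 1 w‖ := le_max_right _ _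
    have hq1 := sQ_pos (β := β) hd1
    have hmax0 : 0 ≤ max ‖XX β b 0 w‖ ‖XX β b 1 w‖ := (norm_nonneg _).trans hmax
    constructor
    · right
      intro h0
      rw [← hXX 1, h0, norm_zero] at g3
      linarith
    · have hmem2 : (2 : ℤ) ∈ far (aw b) b := by
        rw [mem_far]; unfold aw; omega
      have hmem1 : (-1 : ℤ) ∈ far (aw b) b := by
        rw [mem_far]; unfold aw; omega
      have hM1 : ‖XX β b (-1) w‖ ≤ e1 ((tk β b 1 w + β * r) / h) * max ‖XX β b 0 w‖ ‖XX β b 1 w‖ := by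
        rw [hXX, hXX, hXX]
        rcases le_total (β * r) 0.29 with hs | hs
        · obtain ⟨⟨q1, q2⟩, q3, q4⟩ := H.Gs hs hβ'
          exact smallM1D H hs hβ' q1 q3
        · exact farM1D H hs hβ' g1 (by linarith)
      have hM2 : ‖XX β b 2 w‖ ≤ e2 ((tk β b 1 w + β * r) / h) * max ‖XX β b 0 w‖ ‖XX β b 1 w‖ := by
        rw [hXX, hXX, hXX]
        exact nearK2D H hβ' g1 g3
      have hrest : ∀ k ∈ (far (aw b) b).filter (fun k => k ≠ 2 ∧ k ≠ -1),
          ‖XX β b k w‖ ≤ 1 / 3 * Mfar k * max ‖XX β b 0 w‖ ‖XX β b 1 w‖ := by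
        intro k hk
        rw [Finset.mem_filter] at hk
        rw [hXX, hXX, hXX]
        rcases le_total (β * r) 0.29 with hs | hs
        · obtain ⟨⟨q1, q2⟩, q3, q4⟩ := H.Gs hs hβ'
          exact smallKD H hs hβ' q1 q3 hk.1 hk.2.1 hk.2.2
        · exact farKD H hs hβ' g1 (by linarith) hk.1 hk.2.1 hk.2.2
      have hsplit : ∑ k ∈ far (aw b) b, ‖XX β b k w‖ = ‖XX β b 2 w‖ + ‖XX β b (-1) w‖ +
          ∑ k ∈ (far (aw b) b).filter (fun k => k ≠ 2 ∧ k ≠ -1), ‖XX β b k w‖ := by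
        have e3 : (far (aw b) b) = insert 2 (insert (-1) ((far (aw b) b).filter (fun k => k ≠ 2 ∧ k ≠ -1))) := by
          ext k
          simp only [Finset.mem_insert, Finset.mem_filter]
          constructor
          · intro hk
            by_cases h1 : k = 2
            · exact Or.inl h1
            by_cases h2 : k = -1
            · exact Or.inr (Or.inl h2)
            exact Or.inr (Or.inr ⟨hk, h1, h2⟩)
          · rintro (rfl | rfl | hk)
            · exact hmem2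
            · exact hmem1
            · exact hk.1
        conv_lhs => rw [e3]
        rw [Finset.sum_insert (by simp), Finset.sum_insert (by simp)]
        ring
      rw [hsplit]
      have hsum : ∑ k ∈ (far (aw b) b).filter (fun k => k ≠ 2 ∧ k ≠ -1), ‖XX β b k w‖ ≤
          1 / 3 * 0.032 * max ‖XX β b 0 w‖ ‖XX β b 1 w‖ := by
        calc _ ≤ ∑ k ∈ (far (aw b) b).filter (fun k => k ≠ 2 ∧ k ≠ -1),
              1 / 3 * Mfar k * max ‖XX β b 0 w‖ ‖XX β b 1 w‖ := Finset.sum_le_sum hrest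
          _ = 1 / 3 * (∑ k ∈ (far (aw b) b).filter (fun k => k ≠ 2 ∧ k ≠ -1), Mfar k) *
              max ‖XX β b 0 w‖ ‖XX β b 1 w‖ := by rw [Finset.mul_sum, Finset.sum_mul]
          _ ≤ _ := by
            apply mul_le_mul_of_nonneg_right _ hmax0
            linarith [sums3 hb]
      have he12 : e1 ((tk β b 1 w + β * r) / h) + e2 ((tk β b 1 w + β * r) / h) ≤ 0.119 := by
        unfold e1 e2
        split_ifs <;> norm_num
      have := mul_le_mul_of_nonneg_right he12 hmax0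
      linarith
  · intro w hw hn0 hn1 h1 h2
    obtain ⟨H, he⟩ := OP_of_cov hb hh hβ hr hκ hc hw
    have hβ' : β = β * r / r := by field_simp
    have hXX : ∀ k, XX β b k w = Xf β r h (tk β b 1 w) k := fun k => by rw [XX_eq_XfB β b k w hh, he]
    obtain ⟨⟨g1, g2⟩, g3, g4⟩ := H.G hβ'
    rw [← hXX] at g1 g2 g3 g4
    obtain ⟨l1, l2⟩ := locB H hβ' g1 g2 g3 g4
    have ht : tk β b 1 w = w.im + h - β / 2 := by
      unfold tk
      rw [hh]
      push_cast
      ring
    have n0 : 0 < ‖XX β b 0 w‖ := norm_pos_iff.2 hn0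
    rw [norm_div] at h1 h2
    rw [div_le_iff₀ n0] at h1
    rw [le_div_iff₀ n0] at h2
    refine ⟨hw.1, ?_, ?_⟩
    · by_contra hcon
      push Not at hcon
      have := l1 (by rw [ht]; linarith)
      linarith
    · by_contra hcon
      push Not at hcon
      have := l2 (by rw [ht]; linarith)
      have h3 : (23 / 20 : ℝ) * ((23 / 20 : ℝ)⁻¹ * ‖XX β b 0 w‖) = ‖XX β b 0 w‖ := by
        rw [← mul_assoc]; norm_num
      linarith

/-- row R1 for all `b ≥ 9`, in the final form -/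
theorem R1_big : ∀ b, 9 ≤ b → R1At b :=
  R1At_big fun hb hp hr hβ hκ hc => circ_big hb hp hr hβ hκ hc

end Sok
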