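import Pool.Agent.Lib.MP_816dec_an.JBG2

/-!
MP_816dec_an (A3, row R1): b = 3, J tables of the cell 01.
-/

set_option autoImplicit false
set_option maxHeartbeats 4000000

open Complex Set

namespace Sok

private theorem T3_01_p1_b0_0 {β x y : ℝ} (hβ : 0 < β) (hN : β * 30.303 ≤ 1) (hx1 : 0.1109 ≤ x) (hx2 : x ≤ 0.3301)
    (hy1 : -0 ≤ y) (hy2 : y ≤ 0.215) : ‖HH β (x + y * I) - 1‖ ≤ 0.015 := by
  refine le_epsJ (C := 0.3184) (N0 := 30.303) (J_boxp 0.1109 0.3301 0 0.215 0.215 0.7881 0.394 1.2591 1.6039 0.4477 5.5049 30.303 0.5 1.894 1.248 1.2931 0.394 0.3283 1.0462 3.8959 0.3869 0.6316 0.8703 2.8497 0.00000655 0.00004797 0.0000003101 0.0000003101 0.000008105 0.0000003101 0.0000003101 0.0000003101 0.3184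
    hβ hN hx1 hx2 hy1 hy2 (by norm_num) (by norm_num) (by linarith) (by norm_num) (by norm_num) (by norm_num) (by norm_num) (by norm_num) (by norm_num) (by norm_num) (by norm_num) (by norm_num) (by norm_num) (by norm_num) (by norm_num) (by norm_num) (by norm_num) (by norm_num) (by norm_num) (by norm_num) (by norm_num) (by norm_num) (by norm_num) (by norm_num)
    (cube_sqrt_geJ (s := 0.9128) (by norm_num) (by norm_num) (by norm_num) (by norm_num))
    (cube_sqrt_geJ (s := 0.9689) (by norm_num) (by norm_num) (by norm_num) (by norm_num))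
    (by norm_num) (by norm_num) (by norm_num) (by norm_num) (by norm_num) (by norm_num) (by norm_num) (by norm_num) (by norm_num) (by norm_num) (by norm_num) (by norm_num) (by norm_num) (by norm_num) (by norm_num) (by norm_num) (by norm_num) (by norm_num)
    (exp_neg_leJ (r := 0.939) 11 (by norm_num) (by norm_num) (by norm_num) (by norm_num))
    (exp_neg_leJ (r := 0.948) 9 (by norm_num) (by norm_num) (by norm_num) (by norm_num))
    (exp_neg_leJ (r := 0.99) 14 (by norm_num) (by norm_num) (by norm_num) (by norm_num))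
    (exp_neg_leJ (r := 0.99) 14 (by norm_num) (by norm_num) (by norm_num) (by norm_num))
    (exp_neg_leJ (r := 0.724) 11 (by norm_num) (by norm_num) (by norm_num) (by norm_num))
    (exp_neg_leJ (r := 0.99) 14 (by norm_num) (by norm_num) (by norm_num) (by norm_num))
    (exp_neg_leJ (r := 0.99) 14 (by norm_num) (by norm_num) (by norm_num) (by norm_num))
    (exp_neg_leJ (r := 0.99) 14 (by norm_num) (by norm_num) (by norm_num) (by norm_num))
    (by norm_num)) (by norm_num) hN hβ.le (by norm_num)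

private theorem T3_01_p1_c0 {κ t β : ℝ} (h : DomR κ t) (hβ : 0 < β) (hk1 : 0.3 ≤ κ) (hk2 : κ ≤ 0.33)
    (ht1 : 0 ≤ t + κ) (ht2 : t + κ ≤ 1.095) (hR0 : β * 10 ≤ κ) (hR : β * (1 * (1 + κ ^ 2)) ≤ κ) :
    ‖HH β (sg κ t) - 1‖ ≤ 0.015 := by
  have hN : β * 30.303 ≤ 1 := bNR hβ h.1 hk2 hR0 (by norm_num)
  have hy1 : 0 ≤ sy κ t := sy_nonneg h (by linarith)
  have hy2 : sy κ t ≤ 0.215 := syR_ang2 h 0.3 0.33 1.095 0.94 0.5908 0.8077 0.215 0.80655 1.23986 hk1 hk2 (by linarith) (by norm_num) (by norm_num) (by norm_num)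
    (cos_le_num (by norm_num)) (sin_le_num (by norm_num) (by norm_num)) (expm_le (by norm_num) (by norm_num) (by norm_num))
    (expn_ge (by norm_num) (by norm_num)) (by norm_num) (by norm_num) (by norm_num) (by norm_num) (by norm_num)
  have hx1 : 0.1109 ≤ sx κ t := sx_lo h 0.3 0.215 0.215 0.80654 0.1109 hk1 (by norm_num) hy2 (abs_le.2 ⟨by linarith, by linarith⟩) (expm_ge (by norm_num) (by norm_num) (by norm_num) (by norm_num)) (by norm_num) (by norm_num)
  have hx2 : sx κ t ≤ 0.3301 := sx_hi h 0.33 0 0 1 0.3301 hk2 hy1 (by norm_num) (abs_nonneg _) (by simp) (by norm_num) (by norm_num)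
  exact T3_01_p1_b0_0 hβ hN hx1 hx2 (by linarith) (by linarith)

theorem T3_01_p1 {κ t β : ℝ} (h : DomR κ t) (hβ : 0 < β) (hk1 : 0.3 ≤ κ) (hk2 : κ ≤ 0.33)
    (ht1 : 0 ≤ t + κ) (ht2 : t + κ ≤ 1.095) (hR0 : β * 10 ≤ κ) (hR : β * (1 * (1 + κ ^ 2)) ≤ κ) :
    ‖HH β (sg κ t) - 1‖ ≤ 0.015 := by
  exact T3_01_p1_c0 h hβ hk1 hk2 ht1 ht2 hR0 hR

private theorem T3_01_p0_b0_0 {β x y : ℝ} (hβ : 0 < β) (hN : β * 31.249 ≤ 1) (hx1 : 0.1284 ≤ x) (hx2 : x ≤ 0.2568)
    (hy1 : -0.441 ≤ y) (hy2 : y ≤ -0.426) : ‖HH β (x + y * I) - 1‖ ≤ 0.095 := by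
  refine le_epsJ (C := 2.9318) (N0 := 31.249) (J_boxp 0.1284 0.2568 0.441 0 (-0.426) 0.4873 0.5104 0.6289 2.3313 0.3164 5.5901 31.249 1.0475 4.497 1.617 0.9142 0.2436 0.1585 0.3561 2.503 0.1764 0.6777 0.6287 3.5814 0.0004948 0.007091 0.00001471 0.0000003101 0.004039 0.0000003101 0.0000003101 0.0000003101 2.9318
    hβ hN hx1 hx2 hy1 hy2 (by norm_num) (by norm_num) (by linarith) (by norm_num) (by norm_num) (by norm_num) (by norm_num) (by norm_num) (by norm_num) (by norm_num) (by norm_num) (by norm_num) (by norm_num) (by norm_num) (by norm_num) (by norm_num) (by norm_num) (by norm_num) (by norm_num) (by norm_num) (by norm_num) (by norm_num) (by norm_num) (by norm_num)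
    (cube_sqrt_geJ (s := 0.8067) (by norm_num) (by norm_num) (by norm_num) (by norm_num))
    (cube_sqrt_geJ (s := 0.9336) (by norm_num) (by norm_num) (by norm_num) (by norm_num))
    (by norm_num) (by norm_num) (by norm_num) (by norm_num) (by norm_num) (by norm_num) (by norm_num) (by norm_num) (by norm_num) (by norm_num) (by norm_num) (by norm_num) (by norm_num) (by norm_num) (by norm_num) (by norm_num) (by norm_num) (by norm_num)
    (exp_neg_leJ (r := 0.612) 7 (by norm_num) (by norm_num) (by norm_num) (by norm_num))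
    (exp_neg_leJ (r := 0.952) 4 (by norm_num) (by norm_num) (by norm_num) (by norm_num))
    (exp_neg_leJ (r := 0.127) 11 (by norm_num) (by norm_num) (by norm_num) (by norm_num))
    (exp_neg_leJ (r := 0.99) 14 (by norm_num) (by norm_num) (by norm_num) (by norm_num))
    (exp_neg_leJ (r := 0.512) 5 (by norm_num) (by norm_num) (by norm_num) (by norm_num))
    (exp_neg_leJ (r := 0.99) 14 (by norm_num) (by norm_num) (by norm_num) (by norm_num))
    (exp_neg_leJ (r := 0.99) 14 (by norm_num) (by norm_num) (by norm_num) (by norm_num))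
    (exp_neg_leJ (r := 0.99) 14 (by norm_num) (by norm_num) (by norm_num) (by norm_num))
    (by norm_num)) (by norm_num) hN hβ.le (by norm_num)

private theorem T3_01_p0_b0_1 {β x y : ℝ} (hβ : 0 < β) (hN : β * 31.249 ≤ 1) (hx1 : 0.1234 ≤ x) (hx2 : x ≤ 0.2953)
    (hy1 : -0.426 ≤ y) (hy2 : y ≤ -0.391) : ‖HH β (x + y * I) - 1‖ ≤ 0.095 := by
  refine le_epsJ (C := 2.9487) (N0 := 31.249) (J_boxp 0.1234 0.2953 0.426 0 (-0.391) 0.4944 0.5184 0.6769 2.3668 0.3283 5.5901 31.249 1.0486 4.506 1.618 0.9133 0.2471 0.1607 0.3781 2.536 0.1822 0.6708 0.6595 3.5497 0.0004439 0.006598 0.000007405 0.0000003101 0.003373 0.0000003101 0.0000003101 0.0000003101 2.9487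
    hβ hN hx1 hx2 hy1 hy2 (by norm_num) (by norm_num) (by linarith) (by norm_num) (by norm_num) (by norm_num) (by norm_num) (by norm_num) (by norm_num) (by norm_num) (by norm_num) (by norm_num) (by norm_num) (by norm_num) (by norm_num) (by norm_num) (by norm_num) (by norm_num) (by norm_num) (by norm_num) (by norm_num) (by norm_num) (by norm_num) (by norm_num)
    (cube_sqrt_geJ (s := 0.8065) (by norm_num) (by norm_num) (by norm_num) (by norm_num))
    (cube_sqrt_geJ (s := 0.9336) (by norm_num) (by norm_num) (by norm_num) (by norm_num))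
    (by norm_num) (by norm_num) (by norm_num) (by norm_num) (by norm_num) (by norm_num) (by norm_num) (by norm_num) (by norm_num) (by norm_num) (by norm_num) (by norm_num) (by norm_num) (by norm_num) (by norm_num) (by norm_num) (by norm_num) (by norm_num)
    (exp_neg_leJ (r := 0.721) 7 (by norm_num) (by norm_num) (by norm_num) (by norm_num))
    (exp_neg_leJ (r := 0.021) 5 (by norm_num) (by norm_num) (by norm_num) (by norm_num))
    (exp_neg_leJ (r := 0.815) 11 (by norm_num) (by norm_num) (by norm_num) (by norm_num))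
    (exp_neg_leJ (r := 0.99) 14 (by norm_num) (by norm_num) (by norm_num) (by norm_num))
    (exp_neg_leJ (r := 0.693) 5 (by norm_num) (by norm_num) (by norm_num) (by norm_num))
    (exp_neg_leJ (r := 0.99) 14 (by norm_num) (by norm_num) (by norm_num) (by norm_num))
    (exp_neg_leJ (r := 0.99) 14 (by norm_num) (by norm_num) (by norm_num) (by norm_num))
    (exp_neg_leJ (r := 0.99) 14 (by norm_num) (by norm_num) (by norm_num) (by norm_num))
    (by norm_num)) (by norm_num) hN hβ.le (by norm_num)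

private theorem T3_01_p0_b0_2 {β x y : ℝ} (hβ : 0 < β) (hN : β * 31.249 ≤ 1) (hn : ‖(x + y * I : ℂ)‖ ≤ 0.474) : ‖HH β (x + y * I) - 1‖ ≤ 0.095 := by
  refine le_epsJ (C := 2.8767) (N0 := 31.249) (J45_genN (N := 31.249) (r0 := 5.5901) (f := 2.7224) (n0 := 0.474) (a := 0.526) (wL := 2.444) (wR := 3.44)
    (E1 := 0.009887) (E2 := 0.00001702) (E3 := 0.06375) (E4 := 0.0008461) (E5 := 0.000004566) hβ (by norm_num) hN
    (by norm_num) (by norm_num) (by norm_num) hn (by norm_num) (by norm_num) (by norm_num)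
    (cube_sqrt_geJ (s := 0.8801) (by norm_num) (by norm_num) (by norm_num) (by norm_num))
    (cube_sqrt_geJ (s := 0.8382) (by norm_num) (by norm_num) (by norm_num) (by norm_num))
    (exp_neg_leJ (r := 0.617) 4 (by norm_num) (by norm_num) (by norm_num) (by norm_num))
    (exp_neg_leJ (r := 0.985) 10 (by norm_num) (by norm_num) (by norm_num) (by norm_num))
    (exp_neg_leJ (r := 0.754) 2 (by norm_num) (by norm_num) (by norm_num) (by norm_num))
    (exp_neg_leJ (r := 0.075) 7 (by norm_num) (by norm_num) (by norm_num) (by norm_num))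
    (exp_neg_leJ (r := 0.297) 12 (by norm_num) (by norm_num) (by norm_num) (by norm_num))
    (by norm_num)) (by norm_num) hN hβ.le (by norm_num)

private theorem T3_01_p0_c0 {κ t β : ℝ} (h : DomR κ t) (hβ : 0 < β) (hk1 : 0.3 ≤ κ) (hk2 : κ ≤ 0.32)
    (ht1 : -0.9994 ≤ t + κ) (ht2 : t + κ ≤ -0.71239) (hR0 : β * 10 ≤ κ) (hR : β * (1 * (1 + κ ^ 2)) ≤ κ) :
    ‖HH β (sg κ t) - 1‖ ≤ 0.095 := by
  have hN : β * 31.249 ≤ 1 := bNR hβ h.1 hk2 hR0 (by norm_num)
  have hy1 : -0.441 ≤ sy κ t := syL_ang2 h 0.3 0.32 0.9994 1.089 0.4633 0.8866 0.441 1.55426 0.64339 hk1 hk2 (by linarith) (by norm_num) (by norm_num) (by norm_num) (by norm_num)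
    (cos_ge_num (by norm_num) (by norm_num)) (sin_le_num (by norm_num) (by norm_num))
    (expn_ge (by norm_num) (by norm_num)) (expm_ge (by norm_num) (by norm_num) (by norm_num) (by norm_num)) (by norm_num) (by norm_num) (by norm_num)
    (by norm_num) (by norm_num) (by norm_num)
  have hy2 : sy κ t ≤ -0.251 := syL_le h 0.3 0.32 0.71239 0.251 0.77802 0.77803 0.61025 0.65096 hk1 hk2 (by linarith) (by norm_num) (by norm_num) (by norm_num)
    (expm_ge (by norm_num) (by norm_num) (by norm_num) (by norm_num)) (expm_le (by norm_num) (by norm_num) (by norm_num)) (by norm_num)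
    (by norm_num) (by norm_num) (by norm_num) (by norm_num) (by norm_num) (by norm_num)
  rcases le_total (sy κ t) (-0.426) with f0 | g0
  · have hx1 : 0.1284 ≤ sx κ t := sx_lo h 0.3 (-0.426) 0.441 1.53112 0.1284 hk1 (by norm_num) f0 (abs_le.2 ⟨by linarith, by linarith⟩) (by rw [neg_neg]; exact expn_ge (by norm_num) (by norm_num)) (by norm_num) (by norm_num)
    have hx2 : sx κ t ≤ 0.2568 := sx_hi h 0.32 (-0.441) 0.426 1.55427 0.2568 hk2 hy1 (by norm_num) (by rw [abs_of_nonpos (by linarith)]; linarith) (by rw [neg_neg]; exact expn_le (by norm_num) (by norm_num) (by norm_num)) (by norm_num) (by norm_num)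
    exact T3_01_p0_b0_0 hβ hN hx1 hx2 (by linarith) (by linarith)
  rcases le_total (sy κ t) (-0.391) with f1 | g1
  · have hx1 : 0.1234 ≤ sx κ t := sx_lo h 0.3 (-0.391) 0.426 1.47845 0.1234 hk1 (by norm_num) f1 (abs_le.2 ⟨by linarith, by linarith⟩) (by rw [neg_neg]; exact expn_ge (by norm_num) (by norm_num)) (by norm_num) (by norm_num)
    have hx2 : sx κ t ≤ 0.2953 := sx_hi h 0.32 (-0.426) 0.391 1.53113 0.2953 hk2 g0 (by norm_num) (by rw [abs_of_nonpos (by linarith)]; linarith) (by rw [neg_neg]; exact expn_le (by norm_num) (by norm_num) (by norm_num)) (by norm_num) (by norm_num)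
    exact T3_01_p0_b0_1 hβ hN hx1 hx2 (by linarith) (by linarith)
  exact T3_01_p0_b0_2 hβ hN (norm_sg_le h 0.32 (-0.391) 1.47846 0.474 hk2 g1 (by rw [neg_neg]; exact expn_le (by norm_num) (by norm_num) (by norm_num)) (by norm_num))

private theorem T3_01_p0_b1_0 {β x y : ℝ} (hβ : 0 < β) (hN : β * 30.303 ≤ 1) (hx1 : 0.182 ≤ x) (hx2 : x ≤ 0.2793)
    (hy1 : -0.465 ≤ y) (hy2 : y ≤ -0.445) : ‖HH β (x + y * I) - 1‖ ≤ 0.095 := by
  refine le_epsJ (C := 2.8549) (N0 := 30.303) (J_boxp 0.182 0.2793 0.465 0 (-0.445) 0.508 0.5425 0.6214 2.1772 0.3145 5.5049 30.303 1.068 4.667 1.634 0.8834 0.2539 0.1635 0.3365 2.412 0.1894 0.7519 0.6706 3.6014 0.0004564 0.007077 0.00003732 0.0000003101 0.003222 0.0000003101 0.0000003101 0.0000003101 2.8549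
    hβ hN hx1 hx2 hy1 hy2 (by norm_num) (by norm_num) (by linarith) (by norm_num) (by norm_num) (by norm_num) (by norm_num) (by norm_num) (by norm_num) (by norm_num) (by norm_num) (by norm_num) (by norm_num) (by norm_num) (by norm_num) (by norm_num) (by norm_num) (by norm_num) (by norm_num) (by norm_num) (by norm_num) (by norm_num) (by norm_num) (by norm_num)
    (cube_sqrt_geJ (s := 0.8024) (by norm_num) (by norm_num) (by norm_num) (by norm_num))
    (cube_sqrt_geJ (s := 0.9323) (by norm_num) (by norm_num) (by norm_num) (by norm_num))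
    (by norm_num) (by norm_num) (by norm_num) (by norm_num) (by norm_num) (by norm_num) (by norm_num) (by norm_num) (by norm_num) (by norm_num) (by norm_num) (by norm_num) (by norm_num) (by norm_num) (by norm_num) (by norm_num) (by norm_num) (by norm_num)
    (exp_neg_leJ (r := 0.693) 7 (by norm_num) (by norm_num) (by norm_num) (by norm_num))
    (exp_neg_leJ (r := 0.954) 4 (by norm_num) (by norm_num) (by norm_num) (by norm_num))
    (exp_neg_leJ (r := 0.196) 10 (by norm_num) (by norm_num) (by norm_num) (by norm_num))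
    (exp_neg_leJ (r := 0.99) 14 (by norm_num) (by norm_num) (by norm_num) (by norm_num))
    (exp_neg_leJ (r := 0.739) 5 (by norm_num) (by norm_num) (by norm_num) (by norm_num))
    (exp_neg_leJ (r := 0.99) 14 (by norm_num) (by norm_num) (by norm_num) (by norm_num))
    (exp_neg_leJ (r := 0.99) 14 (by norm_num) (by norm_num) (by norm_num) (by norm_num))
    (exp_neg_leJ (r := 0.99) 14 (by norm_num) (by norm_num) (by norm_num) (by norm_num))
    (by norm_num)) (by norm_num) hN hβ.le (by norm_num)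

private theorem T3_01_p0_b1_1 {β x y : ℝ} (hβ : 0 < β) (hN : β * 30.303 ≤ 1) (hx1 : 0.1793 ≤ x) (hx2 : x ≤ 0.3181)
    (hy1 : -0.445 ≤ y) (hy2 : y ≤ -0.405) : ‖HH β (x + y * I) - 1‖ ≤ 0.095 := by
  refine le_epsJ (C := 2.7002) (N0 := 30.303) (J_boxp 0.1793 0.3181 0.445 0 (-0.405) 0.5203 0.5471 0.6747 2.1887 0.3277 5.5049 30.303 1.0516 4.531 1.621 0.887 0.2601 0.1689 0.3672 2.4616 0.199 0.7482 0.7196 3.5835 0.0003787 0.005989 0.00001471 0.0000003101 0.002406 0.0000003101 0.0000003101 0.0000003101 2.7002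
    hβ hN hx1 hx2 hy1 hy2 (by norm_num) (by norm_num) (by linarith) (by norm_num) (by norm_num) (by norm_num) (by norm_num) (by norm_num) (by norm_num) (by norm_num) (by norm_num) (by norm_num) (by norm_num) (by norm_num) (by norm_num) (by norm_num) (by norm_num) (by norm_num) (by norm_num) (by norm_num) (by norm_num) (by norm_num) (by norm_num) (by norm_num)
    (cube_sqrt_geJ (s := 0.8058) (by norm_num) (by norm_num) (by norm_num) (by norm_num))
    (cube_sqrt_geJ (s := 0.9334) (by norm_num) (by norm_num) (by norm_num) (by norm_num))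
    (by norm_num) (by norm_num) (by norm_num) (by norm_num) (by norm_num) (by norm_num) (by norm_num) (by norm_num) (by norm_num) (by norm_num) (by norm_num) (by norm_num) (by norm_num) (by norm_num) (by norm_num) (by norm_num) (by norm_num) (by norm_num)
    (exp_neg_leJ (r := 0.881) 7 (by norm_num) (by norm_num) (by norm_num) (by norm_num))
    (exp_neg_leJ (r := 0.118) 5 (by norm_num) (by norm_num) (by norm_num) (by norm_num))
    (exp_neg_leJ (r := 0.127) 11 (by norm_num) (by norm_num) (by norm_num) (by norm_num))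
    (exp_neg_leJ (r := 0.99) 14 (by norm_num) (by norm_num) (by norm_num) (by norm_num))
    (exp_neg_leJ (r := 0.03) 6 (by norm_num) (by norm_num) (by norm_num) (by norm_num))
    (exp_neg_leJ (r := 0.99) 14 (by norm_num) (by norm_num) (by norm_num) (by norm_num))
    (exp_neg_leJ (r := 0.99) 14 (by norm_num) (by norm_num) (by norm_num) (by norm_num))
    (exp_neg_leJ (r := 0.99) 14 (by norm_num) (by norm_num) (by norm_num) (by norm_num))
    (by norm_num)) (by norm_num) hN hβ.le (by norm_num)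

private theorem T3_01_p0_b1_2 {β x y : ℝ} (hβ : 0 < β) (hN : β * 30.303 ≤ 1) (hx1 : 0.1563 ≤ x) (hx2 : x ≤ 0.3896)
    (hy1 : -0.405 ≤ y) (hy2 : y ≤ -0.305) : ‖HH β (x + y * I) - 1‖ ≤ 0.095 := by
  refine le_epsJ (C := 2.8204) (N0 := 30.303) (J_boxp 0.1563 0.3896 0.405 0 (-0.305) 0.5325 0.562 0.7968 2.2972 0.3562 5.5049 30.303 1.0554 4.561 1.624 0.8964 0.2662 0.1725 0.4225 2.5611 0.2096 0.7164 0.7823 3.497 0.0003141 0.00537 0.000002757 0.0000003101 0.001746 0.0000003101 0.0000003101 0.0000003101 2.8204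
    hβ hN hx1 hx2 hy1 hy2 (by norm_num) (by norm_num) (by linarith) (by norm_num) (by norm_num) (by norm_num) (by norm_num) (by norm_num) (by norm_num) (by norm_num) (by norm_num) (by norm_num) (by norm_num) (by norm_num) (by norm_num) (by norm_num) (by norm_num) (by norm_num) (by norm_num) (by norm_num) (by norm_num) (by norm_num) (by norm_num) (by norm_num)
    (cube_sqrt_geJ (s := 0.8051) (by norm_num) (by norm_num) (by norm_num) (by norm_num))
    (cube_sqrt_geJ (s := 0.9331) (by norm_num) (by norm_num) (by norm_num) (by norm_num))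
    (by norm_num) (by norm_num) (by norm_num) (by norm_num) (by norm_num) (by norm_num) (by norm_num) (by norm_num) (by norm_num) (by norm_num) (by norm_num) (by norm_num) (by norm_num) (by norm_num) (by norm_num) (by norm_num) (by norm_num) (by norm_num)
    (exp_neg_leJ (r := 0.066) 8 (by norm_num) (by norm_num) (by norm_num) (by norm_num))
    (exp_neg_leJ (r := 0.227) 5 (by norm_num) (by norm_num) (by norm_num) (by norm_num))
    (exp_neg_leJ (r := 0.803) 12 (by norm_num) (by norm_num) (by norm_num) (by norm_num))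
    (exp_neg_leJ (r := 0.99) 14 (by norm_num) (by norm_num) (by norm_num) (by norm_num))
    (exp_neg_leJ (r := 0.351) 6 (by norm_num) (by norm_num) (by norm_num) (by norm_num))
    (exp_neg_leJ (r := 0.99) 14 (by norm_num) (by norm_num) (by norm_num) (by norm_num))
    (exp_neg_leJ (r := 0.99) 14 (by norm_num) (by norm_num) (by norm_num) (by norm_num))
    (exp_neg_leJ (r := 0.99) 14 (by norm_num) (by norm_num) (by norm_num) (by norm_num))
    (by norm_num)) (by norm_num) hN hβ.le (by norm_num)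

private theorem T3_01_p0_b1_3 {β x y : ℝ} (hβ : 0 < β) (hN : β * 30.303 ≤ 1) (hx1 : 0.2875 ≤ x) (hx2 : x ≤ 0.3572)
    (hy1 : -0.305 ≤ y) (hy2 : y ≤ -0.27) : ‖HH β (x + y * I) - 1‖ ≤ 0.095 := by
  refine le_epsJ (C := 0.5712) (N0 := 30.303) (J_boxp 0.2875 0.3572 0.305 0 (-0.27) 0.6959 0.4697 0.8128 1.5531 0.3597 5.5049 30.303 0.675 2.441 1.353 1.0011 0.3479 0.2696 0.6252 2.9099 0.328 0.898 1.3166 4.0103 0.00002642 0.0002834 0.0000003101 0.0000003101 0.0000484 0.0000003101 0.0000003101 0.0000003101 0.5712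
    hβ hN hx1 hx2 hy1 hy2 (by norm_num) (by norm_num) (by linarith) (by norm_num) (by norm_num) (by norm_num) (by norm_num) (by norm_num) (by norm_num) (by norm_num) (by norm_num) (by norm_num) (by norm_num) (by norm_num) (by norm_num) (by norm_num) (by norm_num) (by norm_num) (by norm_num) (by norm_num) (by norm_num) (by norm_num) (by norm_num) (by norm_num)
    (cube_sqrt_geJ (s := 0.8803) (by norm_num) (by norm_num) (by norm_num) (by norm_num))
    (cube_sqrt_geJ (s := 0.9577) (by norm_num) (by norm_num) (by norm_num) (by norm_num))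
    (by norm_num) (by norm_num) (by norm_num) (by norm_num) (by norm_num) (by norm_num) (by norm_num) (by norm_num) (by norm_num) (by norm_num) (by norm_num) (by norm_num) (by norm_num) (by norm_num) (by norm_num) (by norm_num) (by norm_num) (by norm_num)
    (exp_neg_leJ (r := 0.542) 10 (by norm_num) (by norm_num) (by norm_num) (by norm_num))
    (exp_neg_leJ (r := 0.169) 8 (by norm_num) (by norm_num) (by norm_num) (by norm_num))
    (exp_neg_leJ (r := 0.99) 14 (by norm_num) (by norm_num) (by norm_num) (by norm_num))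
    (exp_neg_leJ (r := 0.99) 14 (by norm_num) (by norm_num) (by norm_num) (by norm_num))
    (exp_neg_leJ (r := 0.939) 9 (by norm_num) (by norm_num) (by norm_num) (by norm_num))
    (exp_neg_leJ (r := 0.99) 14 (by norm_num) (by norm_num) (by norm_num) (by norm_num))
    (exp_neg_leJ (r := 0.99) 14 (by norm_num) (by norm_num) (by norm_num) (by norm_num))
    (exp_neg_leJ (r := 0.99) 14 (by norm_num) (by norm_num) (by norm_num) (by norm_num))
    (by norm_num)) (by norm_num) hN hβ.le (by norm_num)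

private theorem T3_01_p0_c1 {κ t β : ℝ} (h : DomR κ t) (hβ : 0 < β) (hk1 : 0.32 ≤ κ) (hk2 : κ ≤ 0.33)
    (ht1 : -0.9994 ≤ t + κ) (ht2 : t + κ ≤ -0.71239) (hR0 : β * 10 ≤ κ) (hR : β * (1 * (1 + κ ^ 2)) ≤ κ) :
    ‖HH β (sg κ t) - 1‖ ≤ 0.095 := by
  have hN : β * 30.303 ≤ 1 := bNR hβ h.1 hk2 hR0 (by norm_num)
  have hy1 : -0.465 ≤ sy κ t := syL_ang2 h 0.32 0.33 0.9994 1.085 0.4668 0.8847 0.465 1.59201 0.62813 hk1 hk2 (by linarith) (by norm_num) (by norm_num) (by norm_num) (by norm_num)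
    (cos_ge_num (by norm_num) (by norm_num)) (sin_le_num (by norm_num) (by norm_num))
    (expn_ge (by norm_num) (by norm_num)) (expm_ge (by norm_num) (by norm_num) (by norm_num) (by norm_num)) (by norm_num) (by norm_num) (by norm_num)
    (by norm_num) (by norm_num) (by norm_num)
  have hy2 : sy κ t ≤ -0.27 := syL_le h 0.32 0.33 0.71239 0.27 0.76337 0.76338 0.62457 0.64411 hk1 hk2 (by linarith) (by norm_num) (by norm_num) (by norm_num)
    (expm_ge (by norm_num) (by norm_num) (by norm_num) (by norm_num)) (expm_le (by norm_num) (by norm_num) (by norm_num)) (by norm_num)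
    (by norm_num) (by norm_num) (by norm_num) (by norm_num) (by norm_num) (by norm_num)
  rcases le_total (sy κ t) (-0.445) with f0 | g0
  · have hx1 : 0.182 ≤ sx κ t := sx_lo h 0.32 (-0.445) 0.465 1.56048 0.182 hk1 (by norm_num) f0 (abs_le.2 ⟨by linarith, by linarith⟩) (by rw [neg_neg]; exact expn_ge (by norm_num) (by norm_num)) (by norm_num) (by norm_num)
    have hx2 : sx κ t ≤ 0.2793 := sx_hi h 0.33 (-0.465) 0.445 1.59202 0.2793 hk2 hy1 (by norm_num) (by rw [abs_of_nonpos (by linarith)]; linarith) (by rw [neg_neg]; exact expn_le (by norm_num) (by norm_num) (by norm_num)) (by norm_num) (by norm_num)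
    exact T3_01_p0_b1_0 hβ hN hx1 hx2 (by linarith) (by linarith)
  rcases le_total (sy κ t) (-0.405) with f1 | g1
  · have hx1 : 0.1793 ≤ sx κ t := sx_lo h 0.32 (-0.405) 0.445 1.4993 0.1793 hk1 (by norm_num) f1 (abs_le.2 ⟨by linarith, by linarith⟩) (by rw [neg_neg]; exact expn_ge (by norm_num) (by norm_num)) (by norm_num) (by norm_num)
    have hx2 : sx κ t ≤ 0.3181 := sx_hi h 0.33 (-0.445) 0.405 1.5605 0.3181 hk2 g0 (by norm_num) (by rw [abs_of_nonpos (by linarith)]; linarith) (by rw [neg_neg]; exact expn_le (by norm_num) (by norm_num) (by norm_num)) (by norm_num) (by norm_num)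
    exact T3_01_p0_b1_1 hβ hN hx1 hx2 (by linarith) (by linarith)
  rcases le_total (sy κ t) (-0.305) with f2 | g2
  · have hx1 : 0.1563 ≤ sx κ t := sx_lo h 0.32 (-0.305) 0.405 1.35662 0.1563 hk1 (by norm_num) f2 (abs_le.2 ⟨by linarith, by linarith⟩) (by rw [neg_neg]; exact expn_ge (by norm_num) (by norm_num)) (by norm_num) (by norm_num)
    have hx2 : sx κ t ≤ 0.3896 := sx_hi h 0.33 (-0.405) 0.305 1.49931 0.3896 hk2 g1 (by norm_num) (by rw [abs_of_nonpos (by linarith)]; linarith) (by rw [neg_neg]; exact expn_le (by norm_num) (by norm_num) (by norm_num)) (by norm_num) (by norm_num)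
    exact T3_01_p0_b1_2 hβ hN hx1 hx2 (by linarith) (by linarith)
  have hx1 : 0.2875 ≤ sx κ t := sx_lo h 0.32 (-0.27) 0.305 1.30996 0.2875 hk1 (by norm_num) hy2 (abs_le.2 ⟨by linarith, by linarith⟩) (by rw [neg_neg]; exact expn_ge (by norm_num) (by norm_num)) (by norm_num) (by norm_num)
  have hx2 : sx κ t ≤ 0.3572 := sx_hi h 0.33 (-0.305) 0.27 1.35663 0.3572 hk2 g2 (by norm_num) (by rw [abs_of_nonpos (by linarith)]; linarith) (by rw [neg_neg]; exact expn_le (by norm_num) (by norm_num) (by norm_num)) (by norm_num) (by norm_num)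
  exact T3_01_p0_b1_3 hβ hN hx1 hx2 (by linarith) (by linarith)

theorem T3_01_p0 {κ t β : ℝ} (h : DomR κ t) (hβ : 0 < β) (hk1 : 0.3 ≤ κ) (hk2 : κ ≤ 0.33)
    (ht1 : -0.9994 ≤ t + κ) (ht2 : t + κ ≤ -0.71239) (hR0 : β * 10 ≤ κ) (hR : β * (1 * (1 + κ ^ 2)) ≤ κ) :
    ‖HH β (sg κ t) - 1‖ ≤ 0.095 := by
  rcases le_total κ 0.32 with f0 | g0
  · exact T3_01_p0_c0 h hβ hk1 f0 ht1 ht2 hR0 hR
  exact T3_01_p0_c1 h hβ g0 hk2 ht1 ht2 hR0 hR

private theorem T3_01_p0R_b0_0 {β x y : ℝ} (hβ : 0 < β) (hN : β * 30.303 ≤ 1) (hx1 : 0.2289 ≤ x) (hx2 : x ≤ 0.3906)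
    (hy1 : -0.287 ≤ y) (hy2 : y ≤ -0.202) : ‖HH β (x + y * I) - 1‖ ≤ 0.025 := by
  refine le_epsJ (C := 0.7539) (N0 := 30.303) (J_boxp 0.2289 0.3906 0.287 0 (-0.202) 0.6674 0.4848 0.8885 1.7289 0.3761 5.5049 30.303 0.7265 2.64 1.386 1.0049 0.3336 0.2528 0.6336 2.952 0.3094 0.8169 1.2483 3.852 0.00004072 0.0004716 0.0000003101 0.0000003101 0.00008483 0.0000003101 0.0000003101 0.0000003101 0.7539
    hβ hN hx1 hx2 hy1 hy2 (by norm_num) (by norm_num) (by linarith) (by norm_num) (by norm_num) (by norm_num) (by norm_num) (by norm_num) (by norm_num) (by norm_num) (by norm_num) (by norm_num) (by norm_num) (by norm_num) (by norm_num) (by norm_num) (by norm_num) (by norm_num) (by norm_num) (by norm_num) (by norm_num) (by norm_num) (by norm_num) (by norm_num)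
    (cube_sqrt_geJ (s := 0.8705) (by norm_num) (by norm_num) (by norm_num) (by norm_num))
    (cube_sqrt_geJ (s := 0.9544) (by norm_num) (by norm_num) (by norm_num) (by norm_num))
    (by norm_num) (by norm_num) (by norm_num) (by norm_num) (by norm_num) (by norm_num) (by norm_num) (by norm_num) (by norm_num) (by norm_num) (by norm_num) (by norm_num) (by norm_num) (by norm_num) (by norm_num) (by norm_num) (by norm_num) (by norm_num)
    (exp_neg_leJ (r := 0.109) 10 (by norm_num) (by norm_num) (by norm_num) (by norm_num))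
    (exp_neg_leJ (r := 0.66) 7 (by norm_num) (by norm_num) (by norm_num) (by norm_num))
    (exp_neg_leJ (r := 0.99) 14 (by norm_num) (by norm_num) (by norm_num) (by norm_num))
    (exp_neg_leJ (r := 0.99) 14 (by norm_num) (by norm_num) (by norm_num) (by norm_num))
    (exp_neg_leJ (r := 0.375) 9 (by norm_num) (by norm_num) (by norm_num) (by norm_num))
    (exp_neg_leJ (r := 0.99) 14 (by norm_num) (by norm_num) (by norm_num) (by norm_num))
    (exp_neg_leJ (r := 0.99) 14 (by norm_num) (by norm_num) (by norm_num) (by norm_num))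
    (exp_neg_leJ (r := 0.99) 14 (by norm_num) (by norm_num) (by norm_num) (by norm_num))
    (by norm_num)) (by norm_num) hN hβ.le (by norm_num)

private theorem T3_01_p0R_b0_1 {β x y : ℝ} (hβ : 0 < β) (hN : β * 30.303 ≤ 1) (hx1 : 0.2197 ≤ x) (hx2 : x ≤ 0.4039)
    (hy1 : -0.202 ≤ y) (hy2 : y ≤ 0.005) : ‖HH β (x + y * I) - 1‖ ≤ 0.025 := by
  refine le_epsJ (C := 0.5296) (N0 := 30.303) (J_boxp 0.2197 0.4039 0.202 0.005 0.005 0.7213 0.4516 1.0832 1.699 0.4153 5.5049 30.303 0.6261 2.269 1.323 1.0783 0.3606 0.2853 0.7646 3.2237 0.3508 0.8036 1.4395 3.9003 0.00001802 0.0001762 0.0000003101 0.0000003101 0.0000242 0.0000003101 0.0000003101 0.0000003101 0.5296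
    hβ hN hx1 hx2 hy1 hy2 (by norm_num) (by norm_num) (by linarith) (by norm_num) (by norm_num) (by norm_num) (by norm_num) (by norm_num) (by norm_num) (by norm_num) (by norm_num) (by norm_num) (by norm_num) (by norm_num) (by norm_num) (by norm_num) (by norm_num) (by norm_num) (by norm_num) (by norm_num) (by norm_num) (by norm_num) (by norm_num) (by norm_num)
    (cube_sqrt_geJ (s := 0.8895) (by norm_num) (by norm_num) (by norm_num) (by norm_num))
    (cube_sqrt_geJ (s := 0.9609) (by norm_num) (by norm_num) (by norm_num) (by norm_num))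
    (by norm_num) (by norm_num) (by norm_num) (by norm_num) (by norm_num) (by norm_num) (by norm_num) (by norm_num) (by norm_num) (by norm_num) (by norm_num) (by norm_num) (by norm_num) (by norm_num) (by norm_num) (by norm_num) (by norm_num) (by norm_num)
    (exp_neg_leJ (r := 0.927) 10 (by norm_num) (by norm_num) (by norm_num) (by norm_num))
    (exp_neg_leJ (r := 0.645) 8 (by norm_num) (by norm_num) (by norm_num) (by norm_num))
    (exp_neg_leJ (r := 0.99) 14 (by norm_num) (by norm_num) (by norm_num) (by norm_num))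
    (exp_neg_leJ (r := 0.99) 14 (by norm_num) (by norm_num) (by norm_num) (by norm_num))
    (exp_neg_leJ (r := 0.63) 10 (by norm_num) (by norm_num) (by norm_num) (by norm_num))
    (exp_neg_leJ (r := 0.99) 14 (by norm_num) (by norm_num) (by norm_num) (by norm_num))
    (exp_neg_leJ (r := 0.99) 14 (by norm_num) (by norm_num) (by norm_num) (by norm_num))
    (exp_neg_leJ (r := 0.99) 14 (by norm_num) (by norm_num) (by norm_num) (by norm_num))
    (by norm_num)) (by norm_num) hN hβ.le (by norm_num)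

private theorem T3_01_p0R_c0 {κ t β : ℝ} (h : DomR κ t) (hβ : 0 < β) (hk1 : 0.3 ≤ κ) (hk2 : κ ≤ 0.33)
    (ht1 : -0.7124 ≤ t + κ) (ht2 : t + κ ≤ 0.0001) (hR0 : β * 10 ≤ κ) (hR : β * (1 * (1 + κ ^ 2)) ≤ κ) :
    ‖HH β (sg κ t) - 1‖ ≤ 0.025 := by
  have hN : β * 30.303 ≤ 1 := bNR hβ h.1 hk2 hR0 (by norm_num)
  have hy1 : -0.287 ≤ sy κ t := syL_ang2 h 0.3 0.33 0.7124 0.711 0.7577 0.6527 0.287 1.33242 0.75051 hk1 hk2 (by linarith) (by norm_num) (by norm_num) (by norm_num) (by norm_num)
    (cos_ge_num (by norm_num) (by norm_num)) (sin_le_num (by norm_num) (by norm_num))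
    (expn_ge (by norm_num) (by norm_num)) (expm_ge (by norm_num) (by norm_num) (by norm_num) (by norm_num)) (by norm_num) (by norm_num) (by norm_num)
    (by norm_num) (by norm_num) (by norm_num)
  have hy2 : sy κ t ≤ 0.005 := syR_le h 0.3 0.33 0.0001 0.005 1.00501 0.0148 0.01522 0.01676 hk1 hk2 (by linarith) (by norm_num) (by norm_num)
    (expn_ge (by norm_num) (by norm_num)) (by norm_num) (by norm_num) (Or.inr ((mul_le_mul_of_nonneg_left (expn_le (E := 1.00502) (by norm_num) (by norm_num) (by norm_num)) (by norm_num)).trans (by norm_num))) (by norm_num) (by norm_num) (by norm_num)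
  rcases le_total (sy κ t) (-0.202) with f0 | g0
  · have hx1 : 0.2289 ≤ sx κ t := sx_lo h 0.3 (-0.202) 0.287 1.22384 0.2289 hk1 (by norm_num) f0 (abs_le.2 ⟨by linarith, by linarith⟩) (by rw [neg_neg]; exact expn_ge (by norm_num) (by norm_num)) (by norm_num) (by norm_num)
    have hx2 : sx κ t ≤ 0.3906 := sx_hi h 0.33 (-0.287) 0.202 1.33243 0.3906 hk2 hy1 (by norm_num) (by rw [abs_of_nonpos (by linarith)]; linarith) (by rw [neg_neg]; exact expn_le (by norm_num) (by norm_num) (by norm_num)) (by norm_num) (by norm_num)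
    exact T3_01_p0R_b0_0 hβ hN hx1 hx2 (by linarith) (by linarith)
  have hx1 : 0.2197 ≤ sx κ t := sx_lo h 0.3 0.005 0.202 0.99501 0.2197 hk1 (by norm_num) hy2 (abs_le.2 ⟨by linarith, by linarith⟩) (expm_ge (by norm_num) (by norm_num) (by norm_num) (by norm_num)) (by norm_num) (by norm_num)
  have hx2 : sx κ t ≤ 0.4039 := sx_hi h 0.33 (-0.202) 0 1.22385 0.4039 hk2 g0 (by norm_num) (abs_nonneg _) (by rw [neg_neg]; exact expn_le (by norm_num) (by norm_num) (by norm_num)) (by norm_num) (by norm_num)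
  exact T3_01_p0R_b0_1 hβ hN hx1 hx2 (by linarith) (by linarith)

theorem T3_01_p0R {κ t β : ℝ} (h : DomR κ t) (hβ : 0 < β) (hk1 : 0.3 ≤ κ) (hk2 : κ ≤ 0.33)
    (ht1 : -0.7124 ≤ t + κ) (ht2 : t + κ ≤ 0.0001) (hR0 : β * 10 ≤ κ) (hR : β * (1 * (1 + κ ^ 2)) ≤ κ) :
    ‖HH β (sg κ t) - 1‖ ≤ 0.025 := by
  exact T3_01_p0R_c0 h hβ hk1 hk2 ht1 ht2 hR0 hR

private theorem T3_01_d0_0_b0_0 {β x y : ℝ} (hβ : 0 < β) (hN : β * 32.258 ≤ 1) (hx1 : 0.0984 ≤ x) (hx2 : x ≤ 0.3103)
    (hy1 : -0.449 ≤ y) (hy2 : y ≤ -0.349) : ‖HH β (x + y * I) - 1‖ ≤ 0.16 := by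
  refine le_epsJ (C := 5.0449) (N0 := 32.258) (J_boxp 0.0984 0.3103 0.449 0 (-0.349) 0.4605 0.5458 0.7212 2.7176 0.3388 5.6797 32.258 1.1853 5.81 1.732 0.8863 0.2302 0.1392 0.3332 2.4518 0.1575 0.6362 0.5469 3.4252 0.0005963 0.01123 0.00002152 0.0000003101 0.00622 0.0000003101 0.0000003101 0.0000003101 5.0449
    hβ hN hx1 hx2 hy1 hy2 (by norm_num) (by norm_num) (by linarith) (by norm_num) (by norm_num) (by norm_num) (by norm_num) (by norm_num) (by norm_num) (by norm_num) (by norm_num) (by norm_num) (by norm_num) (by norm_num) (by norm_num) (by norm_num) (by norm_num) (by norm_num) (by norm_num) (by norm_num) (by norm_num) (by norm_num) (by norm_num) (by norm_num)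
    (cube_sqrt_geJ (s := 0.7777) (by norm_num) (by norm_num) (by norm_num) (by norm_num))
    (cube_sqrt_geJ (s := 0.9245) (by norm_num) (by norm_num) (by norm_num) (by norm_num))
    (by norm_num) (by norm_num) (by norm_num) (by norm_num) (by norm_num) (by norm_num) (by norm_num) (by norm_num) (by norm_num) (by norm_num) (by norm_num) (by norm_num) (by norm_num) (by norm_num) (by norm_num) (by norm_num) (by norm_num) (by norm_num)
    (exp_neg_leJ (r := 0.425) 7 (by norm_num) (by norm_num) (by norm_num) (by norm_num))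
    (exp_neg_leJ (r := 0.49) 4 (by norm_num) (by norm_num) (by norm_num) (by norm_num))
    (exp_neg_leJ (r := 0.748) 10 (by norm_num) (by norm_num) (by norm_num) (by norm_num))
    (exp_neg_leJ (r := 0.99) 14 (by norm_num) (by norm_num) (by norm_num) (by norm_num))
    (exp_neg_leJ (r := 0.08) 5 (by norm_num) (by norm_num) (by norm_num) (by norm_num))
    (exp_neg_leJ (r := 0.99) 14 (by norm_num) (by norm_num) (by norm_num) (by norm_num))
    (exp_neg_leJ (r := 0.99) 14 (by norm_num) (by norm_num) (by norm_num) (by norm_num))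
    (exp_neg_leJ (r := 0.99) 14 (by norm_num) (by norm_num) (by norm_num) (by norm_num))
    (by norm_num)) (by norm_num) hN hβ.le (by norm_num)

private theorem T3_01_d0_0_b0_1 {β x y : ℝ} (hβ : 0 < β) (hN : β * 32.258 ≤ 1) (hx1 : 0.1495 ≤ x) (hx2 : x ≤ 0.3348)
    (hy1 : -0.409 ≤ y) (hy2 : y ≤ -0.305) : ‖HH β (x + y * I) - 1‖ ≤ 0.16 := by
  refine le_epsJ (C := 2.44) (N0 := 32.258) (J_boxp 0.1495 0.3348 0.409 0 (-0.305) 0.5249 0.5286 0.7715 2.3097 0.3505 5.6797 32.258 1.0071 4.186 1.586 0.9138 0.2624 0.1743 0.4138 2.5745 0.2042 0.7069 0.7579 3.5742 0.000211 0.00362 0.000001597 0.0000003101 0.001379 0.0000003101 0.0000003101 0.0000003101 2.44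
    hβ hN hx1 hx2 hy1 hy2 (by norm_num) (by norm_num) (by linarith) (by norm_num) (by norm_num) (by norm_num) (by norm_num) (by norm_num) (by norm_num) (by norm_num) (by norm_num) (by norm_num) (by norm_num) (by norm_num) (by norm_num) (by norm_num) (by norm_num) (by norm_num) (by norm_num) (by norm_num) (by norm_num) (by norm_num) (by norm_num) (by norm_num)
    (cube_sqrt_geJ (s := 0.815) (by norm_num) (by norm_num) (by norm_num) (by norm_num))
    (cube_sqrt_geJ (s := 0.9363) (by norm_num) (by norm_num) (by norm_num) (by norm_num))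
    (by norm_num) (by norm_num) (by norm_num) (by norm_num) (by norm_num) (by norm_num) (by norm_num) (by norm_num) (by norm_num) (by norm_num) (by norm_num) (by norm_num) (by norm_num) (by norm_num) (by norm_num) (by norm_num) (by norm_num) (by norm_num)
    (exp_neg_leJ (r := 0.464) 8 (by norm_num) (by norm_num) (by norm_num) (by norm_num))
    (exp_neg_leJ (r := 0.622) 5 (by norm_num) (by norm_num) (by norm_num) (by norm_num))
    (exp_neg_leJ (r := 0.348) 13 (by norm_num) (by norm_num) (by norm_num) (by norm_num))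
    (exp_neg_leJ (r := 0.99) 14 (by norm_num) (by norm_num) (by norm_num) (by norm_num))
    (exp_neg_leJ (r := 0.587) 6 (by norm_num) (by norm_num) (by norm_num) (by norm_num))
    (exp_neg_leJ (r := 0.99) 14 (by norm_num) (by norm_num) (by norm_num) (by norm_num))
    (exp_neg_leJ (r := 0.99) 14 (by norm_num) (by norm_num) (by norm_num) (by norm_num))
    (exp_neg_leJ (r := 0.99) 14 (by norm_num) (by norm_num) (by norm_num) (by norm_num))
    (by norm_num)) (by norm_num) hN hβ.le (by norm_num)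

private theorem T3_01_d0_0_c0 {κ t β : ℝ} (h : DomR κ t) (hβ : 0 < β) (hk1 : 0.3 ≤ κ) (hk2 : κ ≤ 0.31)
    (ht1 : -0.9994 ≤ t + κ) (ht2 : t + κ ≤ -0.96939) (hR0 : β * 10 ≤ κ) (hR : β * (1 * (1 + κ ^ 2)) ≤ κ) :
    ∀ s : ℂ, ‖s - sg κ t‖ ≤ 0.03 → ‖HH β s - 1‖ ≤ 0.16 := by
  have hN : β * 32.258 ≤ 1 := bNR hβ h.1 hk2 hR0 (by norm_num)
  have hy1 : -0.419 ≤ sy κ t := syL_ang2 h 0.3 0.31 0.9994 1.094 0.4588 0.8889 0.419 1.52043 0.6577 hk1 hk2 (by linarith) (by norm_num) (by norm_num) (by norm_num) (by norm_num)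
    (cos_ge_num (by norm_num) (by norm_num)) (sin_le_num (by norm_num) (by norm_num))
    (expn_ge (by norm_num) (by norm_num)) (expm_ge (by norm_num) (by norm_num) (by norm_num) (by norm_num)) (by norm_num) (by norm_num) (by norm_num)
    (by norm_num) (by norm_num) (by norm_num)
  have hy2 : sy κ t ≤ -0.335 := syL_le h 0.3 0.31 0.96939 0.335 0.71533 0.71534 0.77301 0.7988 hk1 hk2 (by linarith) (by norm_num) (by norm_num) (by norm_num)
    (expm_ge (by norm_num) (by norm_num) (by norm_num) (by norm_num)) (expm_le (by norm_num) (by norm_num) (by norm_num)) (by norm_num)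
    (by norm_num) (by norm_num) (by norm_num) (by norm_num) (by norm_num) (by norm_num)
  intro s hs
  have hs' : ‖s - ((sx κ t : ℂ) + (sy κ t : ℂ) * I)‖ ≤ 0.03 := hs
  obtain ⟨es, ⟨s1, s2⟩, ⟨s3, s4⟩⟩ := disc_split hs'
  rcases le_total (sy κ t) (-0.379) with f0 | g0
  · have hx1 : 0.1284 ≤ sx κ t := sx_lo h 0.3 (-0.379) 0.419 1.46082 0.1284 hk1 (by norm_num) f0 (abs_le.2 ⟨by linarith, by linarith⟩) (by rw [neg_neg]; exact expn_ge (by norm_num) (by norm_num)) (by norm_num) (by norm_num)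
    have hx2 : sx κ t ≤ 0.2803 := sx_hi h 0.31 (-0.419) 0.379 1.52045 0.2803 hk2 hy1 (by norm_num) (by rw [abs_of_nonpos (by linarith)]; linarith) (by rw [neg_neg]; exact expn_le (by norm_num) (by norm_num) (by norm_num)) (by norm_num) (by norm_num)
    rw [es]
    exact T3_01_d0_0_b0_0 hβ hN (by linarith) (by linarith) (by linarith) (by linarith)
  have hx1 : 0.1795 ≤ sx κ t := sx_lo h 0.3 (-0.335) 0.379 1.39794 0.1795 hk1 (by norm_num) hy2 (abs_le.2 ⟨by linarith, by linarith⟩) (by rw [neg_neg]; exact expn_ge (by norm_num) (by norm_num)) (by norm_num) (by norm_num)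
  have hx2 : sx κ t ≤ 0.3048 := sx_hi h 0.31 (-0.379) 0.335 1.46083 0.3048 hk2 g0 (by norm_num) (by rw [abs_of_nonpos (by linarith)]; linarith) (by rw [neg_neg]; exact expn_le (by norm_num) (by norm_num) (by norm_num)) (by norm_num) (by norm_num)
  rw [es]
  exact T3_01_d0_0_b0_1 hβ hN (by linarith) (by linarith) (by linarith) (by linarith)

private theorem T3_01_d0_0_b1_0 {β x y : ℝ} (hβ : 0 < β) (hN : β * 31.249 ≤ 1) (hx1 : 0.1323 ≤ x) (hx2 : x ≤ 0.3027)
    (hy1 : -0.471 ≤ y) (hy2 : y ≤ -0.386) : ‖HH β (x + y * I) - 1‖ ≤ 0.16 := by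
  refine le_epsJ (C := 4.925) (N0 := 31.249) (J_boxp 0.1323 0.3027 0.471 0 (-0.386) 0.4687 0.5599 0.6846 2.5786 0.3301 5.5901 31.249 1.1946 5.915 1.74 0.8689 0.2343 0.141 0.3101 2.3813 0.1619 0.6831 0.5549 3.4547 0.0006616 0.01221 0.00006195 0.0000003101 0.006352 0.0000003101 0.0000003101 0.0000003101 4.925
    hβ hN hx1 hx2 hy1 hy2 (by norm_num) (by norm_num) (by linarith) (by norm_num) (by norm_num) (by norm_num) (by norm_num) (by norm_num) (by norm_num) (by norm_num) (by norm_num) (by norm_num) (by norm_num) (by norm_num) (by norm_num) (by norm_num) (by norm_num) (by norm_num) (by norm_num) (by norm_num) (by norm_num) (by norm_num) (by norm_num) (by norm_num)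
    (cube_sqrt_geJ (s := 0.7757) (by norm_num) (by norm_num) (by norm_num) (by norm_num))
    (cube_sqrt_geJ (s := 0.9239) (by norm_num) (by norm_num) (by norm_num) (by norm_num))
    (by norm_num) (by norm_num) (by norm_num) (by norm_num) (by norm_num) (by norm_num) (by norm_num) (by norm_num) (by norm_num) (by norm_num) (by norm_num) (by norm_num) (by norm_num) (by norm_num) (by norm_num) (by norm_num) (by norm_num) (by norm_num)
    (exp_neg_leJ (r := 0.321) 7 (by norm_num) (by norm_num) (by norm_num) (by norm_num))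
    (exp_neg_leJ (r := 0.406) 4 (by norm_num) (by norm_num) (by norm_num) (by norm_num))
    (exp_neg_leJ (r := 0.69) 9 (by norm_num) (by norm_num) (by norm_num) (by norm_num))
    (exp_neg_leJ (r := 0.99) 14 (by norm_num) (by norm_num) (by norm_num) (by norm_num))
    (exp_neg_leJ (r := 0.059) 5 (by norm_num) (by norm_num) (by norm_num) (by norm_num))
    (exp_neg_leJ (r := 0.99) 14 (by norm_num) (by norm_num) (by norm_num) (by norm_num))
    (exp_neg_leJ (r := 0.99) 14 (by norm_num) (by norm_num) (by norm_num) (by norm_num))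
    (exp_neg_leJ (r := 0.99) 14 (by norm_num) (by norm_num) (by norm_num) (by norm_num))
    (by norm_num)) (by norm_num) hN hβ.le (by norm_num)

private theorem T3_01_d0_0_b1_1 {β x y : ℝ} (hβ : 0 < β) (hN : β * 31.249 ≤ 1) (hx1 : 0.1273 ≤ x) (hx2 : x ≤ 0.3541)
    (hy1 : -0.446 ≤ y) (hy2 : y ≤ -0.331) : ‖HH β (x + y * I) - 1‖ ≤ 0.16 := by
  refine le_epsJ (C := 4.6481) (N0 := 31.249) (J_boxp 0.1273 0.3541 0.446 0 (-0.331) 0.483 0.5695 0.757 2.592 0.3472 5.5901 31.249 1.1791 5.741 1.726 0.8722 0.2414 0.1465 0.3478 2.4413 0.1732 0.6762 0.6129 3.4186 0.00053 0.01029 0.0000191 0.0000003101 0.004464 0.0000003101 0.0000003101 0.0000003101 4.6481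
    hβ hN hx1 hx2 hy1 hy2 (by norm_num) (by norm_num) (by linarith) (by norm_num) (by norm_num) (by norm_num) (by norm_num) (by norm_num) (by norm_num) (by norm_num) (by norm_num) (by norm_num) (by norm_num) (by norm_num) (by norm_num) (by norm_num) (by norm_num) (by norm_num) (by norm_num) (by norm_num) (by norm_num) (by norm_num) (by norm_num) (by norm_num)
    (cube_sqrt_geJ (s := 0.779) (by norm_num) (by norm_num) (by norm_num) (by norm_num))
    (cube_sqrt_geJ (s := 0.925) (by norm_num) (by norm_num) (by norm_num) (by norm_num))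
    (by norm_num) (by norm_num) (by norm_num) (by norm_num) (by norm_num) (by norm_num) (by norm_num) (by norm_num) (by norm_num) (by norm_num) (by norm_num) (by norm_num) (by norm_num) (by norm_num) (by norm_num) (by norm_num) (by norm_num) (by norm_num)
    (exp_neg_leJ (r := 0.543) 7 (by norm_num) (by norm_num) (by norm_num) (by norm_num))
    (exp_neg_leJ (r := 0.577) 4 (by norm_num) (by norm_num) (by norm_num) (by norm_num))
    (exp_neg_leJ (r := 0.868) 10 (by norm_num) (by norm_num) (by norm_num) (by norm_num))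
    (exp_neg_leJ (r := 0.99) 14 (by norm_num) (by norm_num) (by norm_num) (by norm_num))
    (exp_neg_leJ (r := 0.412) 5 (by norm_num) (by norm_num) (by norm_num) (by norm_num))
    (exp_neg_leJ (r := 0.99) 14 (by norm_num) (by norm_num) (by norm_num) (by norm_num))
    (exp_neg_leJ (r := 0.99) 14 (by norm_num) (by norm_num) (by norm_num) (by norm_num))
    (exp_neg_leJ (r := 0.99) 14 (by norm_num) (by norm_num) (by norm_num) (by norm_num))
    (by norm_num)) (by norm_num) hN hβ.le (by norm_num)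

private theorem T3_01_d0_0_b1_2 {β x y : ℝ} (hβ : 0 < β) (hN : β * 31.249 ≤ 1) (hx1 : 0.2229 ≤ x) (hx2 : x ≤ 0.3248)
    (hy1 : -0.391 ≤ y) (hy2 : y ≤ -0.322) : ‖HH β (x + y * I) - 1‖ ≤ 0.16 := by
  refine le_epsJ (C := 1.2946) (N0 := 31.249) (J_boxp 0.2229 0.3248 0.391 0 (-0.322) 0.5893 0.5084 0.7518 1.9167 0.346 5.5901 31.249 0.8628 3.278 1.479 0.9342 0.2946 0.2099 0.4674 2.6395 0.2496 0.8086 0.9536 3.7759 0.0001006 0.001418 0.0000004543 0.0000003101 0.0004108 0.0000003101 0.0000003101 0.0000003101 1.2946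
    hβ hN hx1 hx2 hy1 hy2 (by norm_num) (by norm_num) (by linarith) (by norm_num) (by norm_num) (by norm_num) (by norm_num) (by norm_num) (by norm_num) (by norm_num) (by norm_num) (by norm_num) (by norm_num) (by norm_num) (by norm_num) (by norm_num) (by norm_num) (by norm_num) (by norm_num) (by norm_num) (by norm_num) (by norm_num) (by norm_num) (by norm_num)
    (cube_sqrt_geJ (s := 0.844) (by norm_num) (by norm_num) (by norm_num) (by norm_num))
    (cube_sqrt_geJ (s := 0.9457) (by norm_num) (by norm_num) (by norm_num) (by norm_num))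
    (by norm_num) (by norm_num) (by norm_num) (by norm_num) (by norm_num) (by norm_num) (by norm_num) (by norm_num) (by norm_num) (by norm_num) (by norm_num) (by norm_num) (by norm_num) (by norm_num) (by norm_num) (by norm_num) (by norm_num) (by norm_num)
    (exp_neg_leJ (r := 0.205) 9 (by norm_num) (by norm_num) (by norm_num) (by norm_num))
    (exp_neg_leJ (r := 0.559) 6 (by norm_num) (by norm_num) (by norm_num) (by norm_num))
    (exp_neg_leJ (r := 0.605) 14 (by norm_num) (by norm_num) (by norm_num) (by norm_num))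
    (exp_neg_leJ (r := 0.99) 14 (by norm_num) (by norm_num) (by norm_num) (by norm_num))
    (exp_neg_leJ (r := 0.799) 7 (by norm_num) (by norm_num) (by norm_num) (by norm_num))
    (exp_neg_leJ (r := 0.99) 14 (by norm_num) (by norm_num) (by norm_num) (by norm_num))
    (exp_neg_leJ (r := 0.99) 14 (by norm_num) (by norm_num) (by norm_num) (by norm_num))
    (exp_neg_leJ (r := 0.99) 14 (by norm_num) (by norm_num) (by norm_num) (by norm_num))
    (by norm_num)) (by norm_num) hN hβ.le (by norm_num)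

private theorem T3_01_d0_0_c1 {κ t β : ℝ} (h : DomR κ t) (hβ : 0 < β) (hk1 : 0.31 ≤ κ) (hk2 : κ ≤ 0.32)
    (ht1 : -0.9994 ≤ t + κ) (ht2 : t + κ ≤ -0.96939) (hR0 : β * 10 ≤ κ) (hR : β * (1 * (1 + κ ^ 2)) ≤ κ) :
    ∀ s : ℂ, ‖s - sg κ t‖ ≤ 0.03 → ‖HH β s - 1‖ ≤ 0.16 := by
  have hN : β * 31.249 ≤ 1 := bNR hβ h.1 hk2 hR0 (by norm_num)
  have hy1 : -0.441 ≤ sy κ t := syL_ang2 h 0.31 0.32 0.9994 1.089 0.4633 0.8866 0.441 1.55426 0.64339 hk1 hk2 (by linarith) (by norm_num) (by norm_num) (by norm_num) (by norm_num)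
    (cos_ge_num (by norm_num) (by norm_num)) (sin_le_num (by norm_num) (by norm_num))
    (expn_ge (by norm_num) (by norm_num)) (expm_ge (by norm_num) (by norm_num) (by norm_num) (by norm_num)) (by norm_num) (by norm_num) (by norm_num)
    (by norm_num) (by norm_num) (by norm_num)
  have hy2 : sy κ t ≤ -0.352 := syL_le h 0.31 0.32 0.96939 0.352 0.70328 0.70329 0.7736 0.79858 hk1 hk2 (by linarith) (by norm_num) (by norm_num) (by norm_num)
    (expm_ge (by norm_num) (by norm_num) (by norm_num) (by norm_num)) (expm_le (by norm_num) (by norm_num) (by norm_num)) (by norm_num)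
    (by norm_num) (by norm_num) (by norm_num) (by norm_num) (by norm_num) (by norm_num)
  intro s hs
  have hs' : ‖s - ((sx κ t : ℂ) + (sy κ t : ℂ) * I)‖ ≤ 0.03 := hs
  obtain ⟨es, ⟨s1, s2⟩, ⟨s3, s4⟩⟩ := disc_split hs'
  rcases le_total (sy κ t) (-0.416) with f0 | g0
  · have hx1 : 0.1623 ≤ sx κ t := sx_lo h 0.31 (-0.416) 0.441 1.51588 0.1623 hk1 (by norm_num) f0 (abs_le.2 ⟨by linarith, by linarith⟩) (by rw [neg_neg]; exact expn_ge (by norm_num) (by norm_num)) (by norm_num) (by norm_num)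
    have hx2 : sx κ t ≤ 0.2727 := sx_hi h 0.32 (-0.441) 0.416 1.55427 0.2727 hk2 hy1 (by norm_num) (by rw [abs_of_nonpos (by linarith)]; linarith) (by rw [neg_neg]; exact expn_le (by norm_num) (by norm_num) (by norm_num)) (by norm_num) (by norm_num)
    rw [es]
    exact T3_01_d0_0_b1_0 hβ hN (by linarith) (by linarith) (by linarith) (by linarith)
  rcases le_total (sy κ t) (-0.361) with f1 | g1
  · have hx1 : 0.1573 ≤ sx κ t := sx_lo h 0.31 (-0.361) 0.416 1.43476 0.1573 hk1 (by norm_num) f1 (abs_le.2 ⟨by linarith, by linarith⟩) (by rw [neg_neg]; exact expn_ge (by norm_num) (by norm_num)) (by norm_num) (by norm_num)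
    have hx2 : sx κ t ≤ 0.3241 := sx_hi h 0.32 (-0.416) 0.361 1.51589 0.3241 hk2 g0 (by norm_num) (by rw [abs_of_nonpos (by linarith)]; linarith) (by rw [neg_neg]; exact expn_le (by norm_num) (by norm_num) (by norm_num)) (by norm_num) (by norm_num)
    rw [es]
    exact T3_01_d0_0_b1_1 hβ hN (by linarith) (by linarith) (by linarith) (by linarith)
  have hx1 : 0.2529 ≤ sx κ t := sx_lo h 0.31 (-0.352) 0.361 1.4219 0.2529 hk1 (by norm_num) hy2 (abs_le.2 ⟨by linarith, by linarith⟩) (by rw [neg_neg]; exact expn_ge (by norm_num) (by norm_num)) (by norm_num) (by norm_num)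
  have hx2 : sx κ t ≤ 0.2948 := sx_hi h 0.32 (-0.361) 0.352 1.43477 0.2948 hk2 g1 (by norm_num) (by rw [abs_of_nonpos (by linarith)]; linarith) (by rw [neg_neg]; exact expn_le (by norm_num) (by norm_num) (by norm_num)) (by norm_num) (by norm_num)
  rw [es]
  exact T3_01_d0_0_b1_2 hβ hN (by linarith) (by linarith) (by linarith) (by linarith)

private theorem T3_01_d0_0_b2_0 {β x y : ℝ} (hβ : 0 < β) (hN : β * 30.303 ≤ 1) (hx1 : 0.1718 ≤ x) (hx2 : x ≤ 0.2838)
    (hy1 : -0.495 ≤ y) (hy2 : y ≤ -0.43) : ‖HH β (x + y * I) - 1‖ ≤ 0.16 := by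
  refine le_epsJ (C := 4.5381) (N0 := 30.303) (J_boxp 0.1718 0.2838 0.495 0 (-0.43) 0.4795 0.5706 0.6368 2.4034 0.3184 5.5049 30.303 1.19 5.863 1.736 0.854 0.2397 0.1446 0.2857 2.3089 0.168 0.7378 0.5687 3.5046 0.0007011 0.01252 0.0001741 0.0000003101 0.006159 0.0000003101 0.0000003101 0.0000003101 4.5381
    hβ hN hx1 hx2 hy1 hy2 (by norm_num) (by norm_num) (by linarith) (by norm_num) (by norm_num) (by norm_num) (by norm_num) (by norm_num) (by norm_num) (by norm_num) (by norm_num) (by norm_num) (by norm_num) (by norm_num) (by norm_num) (by norm_num) (by norm_num) (by norm_num) (by norm_num) (by norm_num) (by norm_num) (by norm_num) (by norm_num) (by norm_num)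
    (cube_sqrt_geJ (s := 0.7767) (by norm_num) (by norm_num) (by norm_num) (by norm_num))
    (cube_sqrt_geJ (s := 0.9242) (by norm_num) (by norm_num) (by norm_num) (by norm_num))
    (by norm_num) (by norm_num) (by norm_num) (by norm_num) (by norm_num) (by norm_num) (by norm_num) (by norm_num) (by norm_num) (by norm_num) (by norm_num) (by norm_num) (by norm_num) (by norm_num) (by norm_num) (by norm_num) (by norm_num) (by norm_num)
    (exp_neg_leJ (r := 0.263) 7 (by norm_num) (by norm_num) (by norm_num) (by norm_num))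
    (exp_neg_leJ (r := 0.381) 4 (by norm_num) (by norm_num) (by norm_num) (by norm_num))
    (exp_neg_leJ (r := 0.657) 8 (by norm_num) (by norm_num) (by norm_num) (by norm_num))
    (exp_neg_leJ (r := 0.99) 14 (by norm_num) (by norm_num) (by norm_num) (by norm_num))
    (exp_neg_leJ (r := 0.09) 5 (by norm_num) (by norm_num) (by norm_num) (by norm_num))
    (exp_neg_leJ (r := 0.99) 14 (by norm_num) (by norm_num) (by norm_num) (by norm_num))
    (exp_neg_leJ (r := 0.99) 14 (by norm_num) (by norm_num) (by norm_num) (by norm_num))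
    (exp_neg_leJ (r := 0.99) 14 (by norm_num) (by norm_num) (by norm_num) (by norm_num))
    (by norm_num)) (by norm_num) hN hβ.le (by norm_num)

private theorem T3_01_d0_0_b2_1 {β x y : ℝ} (hβ : 0 < β) (hN : β * 30.303 ≤ 1) (hx1 : 0.1706 ≤ x) (hx2 : x ≤ 0.2961)
    (hy1 : -0.49 ≤ y) (hy2 : y ≤ -0.42) : ‖HH β (x + y * I) - 1‖ ≤ 0.16 := by
  refine le_epsJ (C := 4.5014) (N0 := 30.303) (J_boxp 0.1706 0.2961 0.49 0 (-0.42) 0.4822 0.5726 0.6513 2.4102 0.322 5.5049 30.303 1.1875 5.835 1.734 0.8539 0.241 0.1456 0.2932 2.3202 0.1702 0.7362 0.5799 3.4968 0.0006736 0.01214 0.0001389 0.0000003101 0.00576 0.0000003101 0.0000003101 0.0000003101 4.5014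
    hβ hN hx1 hx2 hy1 hy2 (by norm_num) (by norm_num) (by linarith) (by norm_num) (by norm_num) (by norm_num) (by norm_num) (by norm_num) (by norm_num) (by norm_num) (by norm_num) (by norm_num) (by norm_num) (by norm_num) (by norm_num) (by norm_num) (by norm_num) (by norm_num) (by norm_num) (by norm_num) (by norm_num) (by norm_num) (by norm_num) (by norm_num)
    (cube_sqrt_geJ (s := 0.7772) (by norm_num) (by norm_num) (by norm_num) (by norm_num))
    (cube_sqrt_geJ (s := 0.9244) (by norm_num) (by norm_num) (by norm_num) (by norm_num))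
    (by norm_num) (by norm_num) (by norm_num) (by norm_num) (by norm_num) (by norm_num) (by norm_num) (by norm_num) (by norm_num) (by norm_num) (by norm_num) (by norm_num) (by norm_num) (by norm_num) (by norm_num) (by norm_num) (by norm_num) (by norm_num)
    (exp_neg_leJ (r := 0.303) 7 (by norm_num) (by norm_num) (by norm_num) (by norm_num))
    (exp_neg_leJ (r := 0.412) 4 (by norm_num) (by norm_num) (by norm_num) (by norm_num))
    (exp_neg_leJ (r := 0.884) 8 (by norm_num) (by norm_num) (by norm_num) (by norm_num))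
    (exp_neg_leJ (r := 0.99) 14 (by norm_num) (by norm_num) (by norm_num) (by norm_num))
    (exp_neg_leJ (r := 0.157) 5 (by norm_num) (by norm_num) (by norm_num) (by norm_num))
    (exp_neg_leJ (r := 0.99) 14 (by norm_num) (by norm_num) (by norm_num) (by norm_num))
    (exp_neg_leJ (r := 0.99) 14 (by norm_num) (by norm_num) (by norm_num) (by norm_num))
    (exp_neg_leJ (r := 0.99) 14 (by norm_num) (by norm_num) (by norm_num) (by norm_num))
    (by norm_num)) (by norm_num) hN hβ.le (by norm_num)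

private theorem T3_01_d0_0_b2_2 {β x y : ℝ} (hβ : 0 < β) (hN : β * 30.303 ≤ 1) (hx1 : 0.1625 ≤ x) (hx2 : x ≤ 0.3254)
    (hy1 : -0.48 ≤ y) (hy2 : y ≤ -0.395) : ‖HH β (x + y * I) - 1‖ ≤ 0.16 := by
  refine le_epsJ (C := 4.7367) (N0 := 30.303) (J_boxp 0.1625 0.3254 0.48 0 (-0.395) 0.4836 0.58 0.687 2.4647 0.3307 5.5049 30.303 1.1994 5.971 1.744 0.8518 0.2417 0.1451 0.3062 2.3406 0.1717 0.7249 0.5909 3.4604 0.0006596 0.01233 0.00009346 0.0000003101 0.005501 0.0000003101 0.0000003101 0.0000003101 4.7367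
    hβ hN hx1 hx2 hy1 hy2 (by norm_num) (by norm_num) (by linarith) (by norm_num) (by norm_num) (by norm_num) (by norm_num) (by norm_num) (by norm_num) (by norm_num) (by norm_num) (by norm_num) (by norm_num) (by norm_num) (by norm_num) (by norm_num) (by norm_num) (by norm_num) (by norm_num) (by norm_num) (by norm_num) (by norm_num) (by norm_num) (by norm_num)
    (cube_sqrt_geJ (s := 0.7747) (by norm_num) (by norm_num) (by norm_num) (by norm_num))
    (cube_sqrt_geJ (s := 0.9236) (by norm_num) (by norm_num) (by norm_num) (by norm_num))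
    (by norm_num) (by norm_num) (by norm_num) (by norm_num) (by norm_num) (by norm_num) (by norm_num) (by norm_num) (by norm_num) (by norm_num) (by norm_num) (by norm_num) (by norm_num) (by norm_num) (by norm_num) (by norm_num) (by norm_num) (by norm_num)
    (exp_neg_leJ (r := 0.324) 7 (by norm_num) (by norm_num) (by norm_num) (by norm_num))
    (exp_neg_leJ (r := 0.396) 4 (by norm_num) (by norm_num) (by norm_num) (by norm_num))
    (exp_neg_leJ (r := 0.278) 9 (by norm_num) (by norm_num) (by norm_num) (by norm_num))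
    (exp_neg_leJ (r := 0.99) 14 (by norm_num) (by norm_num) (by norm_num) (by norm_num))
    (exp_neg_leJ (r := 0.203) 5 (by norm_num) (by norm_num) (by norm_num) (by norm_num))
    (exp_neg_leJ (r := 0.99) 14 (by norm_num) (by norm_num) (by norm_num) (by norm_num))
    (exp_neg_leJ (r := 0.99) 14 (by norm_num) (by norm_num) (by norm_num) (by norm_num))
    (exp_neg_leJ (r := 0.99) 14 (by norm_num) (by norm_num) (by norm_num) (by norm_num))
    (by norm_num)) (by norm_num) hN hβ.le (by norm_num)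

private theorem T3_01_d0_0_b2_3 {β x y : ℝ} (hβ : 0 < β) (hN : β * 30.303 ≤ 1) (hx1 : 0.1543 ≤ x) (hx2 : x ≤ 0.3734)
    (hy1 : -0.455 ≤ y) (hy2 : y ≤ -0.34) : ‖HH β (x + y * I) - 1‖ ≤ 0.16 := by
  refine le_epsJ (C := 4.575) (N0 := 30.303) (J_boxp 0.1543 0.3734 0.455 0 (-0.34) 0.4956 0.5887 0.7584 2.4961 0.3475 5.5049 30.303 1.1879 5.84 1.734 0.8565 0.2477 0.1496 0.3429 2.402 0.1814 0.7136 0.6424 3.4204 0.0005499 0.01076 0.00003075 0.0000003101 0.004104 0.0000003101 0.0000003101 0.0000003101 4.575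
    hβ hN hx1 hx2 hy1 hy2 (by norm_num) (by norm_num) (by linarith) (by norm_num) (by norm_num) (by norm_num) (by norm_num) (by norm_num) (by norm_num) (by norm_num) (by norm_num) (by norm_num) (by norm_num) (by norm_num) (by norm_num) (by norm_num) (by norm_num) (by norm_num) (by norm_num) (by norm_num) (by norm_num) (by norm_num) (by norm_num) (by norm_num)
    (cube_sqrt_geJ (s := 0.7771) (by norm_num) (by norm_num) (by norm_num) (by norm_num))
    (cube_sqrt_geJ (s := 0.9244) (by norm_num) (by norm_num) (by norm_num) (by norm_num))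
    (by norm_num) (by norm_num) (by norm_num) (by norm_num) (by norm_num) (by norm_num) (by norm_num) (by norm_num) (by norm_num) (by norm_num) (by norm_num) (by norm_num) (by norm_num) (by norm_num) (by norm_num) (by norm_num) (by norm_num) (by norm_num)
    (exp_neg_leJ (r := 0.506) 7 (by norm_num) (by norm_num) (by norm_num) (by norm_num))
    (exp_neg_leJ (r := 0.533) 4 (by norm_num) (by norm_num) (by norm_num) (by norm_num))
    (exp_neg_leJ (r := 0.39) 10 (by norm_num) (by norm_num) (by norm_num) (by norm_num))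
    (exp_neg_leJ (r := 0.99) 14 (by norm_num) (by norm_num) (by norm_num) (by norm_num))
    (exp_neg_leJ (r := 0.496) 5 (by norm_num) (by norm_num) (by norm_num) (by norm_num))
    (exp_neg_leJ (r := 0.99) 14 (by norm_num) (by norm_num) (by norm_num) (by norm_num))
    (exp_neg_leJ (r := 0.99) 14 (by norm_num) (by norm_num) (by norm_num) (by norm_num))
    (exp_neg_leJ (r := 0.99) 14 (by norm_num) (by norm_num) (by norm_num) (by norm_num))
    (by norm_num)) (by norm_num) hN hβ.le (by norm_num)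

private theorem T3_01_d0_0_c2 {κ t β : ℝ} (h : DomR κ t) (hβ : 0 < β) (hk1 : 0.32 ≤ κ) (hk2 : κ ≤ 0.33)
    (ht1 : -0.9994 ≤ t + κ) (ht2 : t + κ ≤ -0.96939) (hR0 : β * 10 ≤ κ) (hR : β * (1 * (1 + κ ^ 2)) ≤ κ) :
    ∀ s : ℂ, ‖s - sg κ t‖ ≤ 0.03 → ‖HH β s - 1‖ ≤ 0.16 := by
  have hN : β * 30.303 ≤ 1 := bNR hβ h.1 hk2 hR0 (by norm_num)
  have hy1 : -0.465 ≤ sy κ t := syL_ang2 h 0.32 0.33 0.9994 1.085 0.4668 0.8847 0.465 1.59201 0.62813 hk1 hk2 (by linarith) (by norm_num) (by norm_num) (by norm_num) (by norm_num)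
    (cos_ge_num (by norm_num) (by norm_num)) (sin_le_num (by norm_num) (by norm_num))
    (expn_ge (by norm_num) (by norm_num)) (expm_ge (by norm_num) (by norm_num) (by norm_num) (by norm_num)) (by norm_num) (by norm_num) (by norm_num)
    (by norm_num) (by norm_num) (by norm_num)
  have hy2 : sy κ t ≤ -0.37 := syL_le h 0.32 0.33 0.96939 0.37 0.69073 0.69074 0.77445 0.79867 hk1 hk2 (by linarith) (by norm_num) (by norm_num) (by norm_num)
    (expm_ge (by norm_num) (by norm_num) (by norm_num) (by norm_num)) (expm_le (by norm_num) (by norm_num) (by norm_num)) (by norm_num)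
    (by norm_num) (by norm_num) (by norm_num) (by norm_num) (by norm_num) (by norm_num)
  intro s hs
  have hs' : ‖s - ((sx κ t : ℂ) + (sy κ t : ℂ) * I)‖ ≤ 0.03 := hs
  obtain ⟨es, ⟨s1, s2⟩, ⟨s3, s4⟩⟩ := disc_split hs'
  rcases le_total (sy κ t) (-0.46) with f0 | g0
  · have hx1 : 0.2018 ≤ sx κ t := sx_lo h 0.32 (-0.46) 0.465 1.58407 0.2018 hk1 (by norm_num) f0 (abs_le.2 ⟨by linarith, by linarith⟩) (by rw [neg_neg]; exact expn_ge (by norm_num) (by norm_num)) (by norm_num) (by norm_num)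
    have hx2 : sx κ t ≤ 0.2538 := sx_hi h 0.33 (-0.465) 0.46 1.59202 0.2538 hk2 hy1 (by norm_num) (by rw [abs_of_nonpos (by linarith)]; linarith) (by rw [neg_neg]; exact expn_le (by norm_num) (by norm_num) (by norm_num)) (by norm_num) (by norm_num)
    rw [es]
    exact T3_01_d0_0_b2_0 hβ hN (by linarith) (by linarith) (by linarith) (by linarith)
  rcases le_total (sy κ t) (-0.45) with f1 | g1
  · have hx1 : 0.2006 ≤ sx κ t := sx_lo h 0.32 (-0.45) 0.46 1.56831 0.2006 hk1 (by norm_num) f1 (abs_le.2 ⟨by linarith, by linarith⟩) (by rw [neg_neg]; exact expn_ge (by norm_num) (by norm_num)) (by norm_num) (by norm_num)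
    have hx2 : sx κ t ≤ 0.2661 := sx_hi h 0.33 (-0.46) 0.45 1.58408 0.2661 hk2 g0 (by norm_num) (by rw [abs_of_nonpos (by linarith)]; linarith) (by rw [neg_neg]; exact expn_le (by norm_num) (by norm_num) (by norm_num)) (by norm_num) (by norm_num)
    rw [es]
    exact T3_01_d0_0_b2_1 hβ hN (by linarith) (by linarith) (by linarith) (by linarith)
  rcases le_total (sy κ t) (-0.425) with f2 | g2
  · have hx1 : 0.1925 ≤ sx κ t := sx_lo h 0.32 (-0.425) 0.45 1.52958 0.1925 hk1 (by norm_num) f2 (abs_le.2 ⟨by linarith, by linarith⟩) (by rw [neg_neg]; exact expn_ge (by norm_num) (by norm_num)) (by norm_num) (by norm_num)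
    have hx2 : sx κ t ≤ 0.2954 := sx_hi h 0.33 (-0.45) 0.425 1.56832 0.2954 hk2 g1 (by norm_num) (by rw [abs_of_nonpos (by linarith)]; linarith) (by rw [neg_neg]; exact expn_le (by norm_num) (by norm_num) (by norm_num)) (by norm_num) (by norm_num)
    rw [es]
    exact T3_01_d0_0_b2_2 hβ hN (by linarith) (by linarith) (by linarith) (by linarith)
  have hx1 : 0.1843 ≤ sx κ t := sx_lo h 0.32 (-0.37) 0.425 1.44773 0.1843 hk1 (by norm_num) hy2 (abs_le.2 ⟨by linarith, by linarith⟩) (by rw [neg_neg]; exact expn_ge (by norm_num) (by norm_num)) (by norm_num) (by norm_num)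
  have hx2 : sx κ t ≤ 0.3434 := sx_hi h 0.33 (-0.425) 0.37 1.5296 0.3434 hk2 g2 (by norm_num) (by rw [abs_of_nonpos (by linarith)]; linarith) (by rw [neg_neg]; exact expn_le (by norm_num) (by norm_num) (by norm_num)) (by norm_num) (by norm_num)
  rw [es]
  exact T3_01_d0_0_b2_3 hβ hN (by linarith) (by linarith) (by linarith) (by linarith)

theorem T3_01_d0_0 {κ t β : ℝ} (h : DomR κ t) (hβ : 0 < β) (hk1 : 0.3 ≤ κ) (hk2 : κ ≤ 0.33)
    (ht1 : -0.9994 ≤ t + κ) (ht2 : t + κ ≤ -0.96939) (hR0 : β * 10 ≤ κ) (hR : β * (1 * (1 + κ ^ 2)) ≤ κ) :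
    ∀ s : ℂ, ‖s - sg κ t‖ ≤ 0.03 → ‖HH β s - 1‖ ≤ 0.16 := by
  rcases le_total κ 0.31 with f0 | g0
  · exact T3_01_d0_0_c0 h hβ hk1 f0 ht1 ht2 hR0 hR
  rcases le_total κ 0.32 with f1 | g1
  · exact T3_01_d0_0_c1 h hβ g0 f1 ht1 ht2 hR0 hR
  exact T3_01_d0_0_c2 h hβ g1 hk2 ht1 ht2 hR0 hR

private theorem T3_01_d1_0_b0_0 {β x y : ℝ} (hβ : 0 < β) (hN : β * 30.303 ≤ 1) (hn : ‖(x + y * I : ℂ)‖ ≤ 0.331) : ‖HH β (x + y * I) - 1‖ ≤ 0.025 := by
  refine le_epsJ (C := 0.4453) (N0 := 30.303) (J45_genN (N := 30.303) (r0 := 5.5049) (f := 2.6809) (n0 := 0.331) (a := 0.669) (wL := 1.588) (wR := 1.867)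
    (E1 := 0.003369) (E2 := 0.0000003101) (E3 := 0.01188) (E4 := 0.0000008916) (E5 := 0.0000003101) hβ (by norm_num) hN
    (by norm_num) (by norm_num) (by norm_num) hn (by norm_num) (by norm_num) (by norm_num)
    (cube_sqrt_geJ (s := 0.9361) (by norm_num) (by norm_num) (by norm_num) (by norm_num))
    (cube_sqrt_geJ (s := 0.9147) (by norm_num) (by norm_num) (by norm_num) (by norm_num))
    (exp_neg_leJ (r := 0.694) 5 (by norm_num) (by norm_num) (by norm_num) (by norm_num))
    (exp_neg_leJ (r := 0.99) 14 (by norm_num) (by norm_num) (by norm_num) (by norm_num))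
    (exp_neg_leJ (r := 0.433) 4 (by norm_num) (by norm_num) (by norm_num) (by norm_num))
    (exp_neg_leJ (r := 0.933) 13 (by norm_num) (by norm_num) (by norm_num) (by norm_num))
    (exp_neg_leJ (r := 0.99) 14 (by norm_num) (by norm_num) (by norm_num) (by norm_num))
    (by norm_num)) (by norm_num) hN hβ.le (by norm_num)

private theorem T3_01_d1_0_c0 {κ t β : ℝ} (h : DomR κ t) (hβ : 0 < β) (hk1 : 0.3 ≤ κ) (hk2 : κ ≤ 0.33)
    (ht1 : 1.095 ≤ t + κ) (ht2 : t + κ ≤ 1.125) (hR0 : β * 10 ≤ κ) (hR : β * (1 * (1 + κ ^ 2)) ≤ κ) :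
    ∀ s : ℂ, ‖s - sg κ t‖ ≤ 0.06 → ‖HH β s - 1‖ ≤ 0.025 := by
  have hN : β * 30.303 ≤ 1 := bNR hβ h.1 hk2 hR0 (by norm_num)
  have hy1 : 0.197 ≤ sy κ t := syR_ge h 0.3 0.33 1.095 0.197 1.21774 1.21775 0.72695 0.79966 hk1 hk2 (by linarith) (by norm_num) (by norm_num)
    (expn_ge (by norm_num) (by norm_num)) (expn_le (by norm_num) (by norm_num) (by norm_num)) (by norm_num)
    (by norm_num) (by norm_num) (by norm_num) (by norm_num) (by norm_num) (by norm_num)
  have hy2 : sy κ t ≤ 0.219 := syR_ang2 h 0.3 0.33 1.125 0.971 0.5657 0.8257 0.219 0.80333 1.24483 hk1 hk2 (by linarith) (by norm_num) (by norm_num) (by norm_num)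
    (cos_le_num (by norm_num)) (sin_le_num (by norm_num) (by norm_num)) (expm_le (by norm_num) (by norm_num) (by norm_num))
    (expn_ge (by norm_num) (by norm_num)) (by norm_num) (by norm_num) (by norm_num) (by norm_num) (by norm_num)
  intro s hs
  have hs' : ‖s - ((sx κ t : ℂ) + (sy κ t : ℂ) * I)‖ ≤ 0.06 := hs
  obtain ⟨es, ⟨s1, s2⟩, ⟨s3, s4⟩⟩ := disc_split hs'
  rw [es]
  refine T3_01_d1_0_b0_0 hβ hN ?_
  rw [← es]
  exact disc_norm hs' (norm_sg_le h 0.33 0.197 0.8212 (0.331 - 0.06) hk2 hy1 (expm_le (by norm_num) (by norm_num) (by norm_num)) (by norm_num))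

theorem T3_01_d1_0 {κ t β : ℝ} (h : DomR κ t) (hβ : 0 < β) (hk1 : 0.3 ≤ κ) (hk2 : κ ≤ 0.33)
    (ht1 : 1.095 ≤ t + κ) (ht2 : t + κ ≤ 1.125) (hR0 : β * 10 ≤ κ) (hR : β * (1 * (1 + κ ^ 2)) ≤ κ) :
    ∀ s : ℂ, ‖s - sg κ t‖ ≤ 0.06 → ‖HH β s - 1‖ ≤ 0.025 := by
  exact T3_01_d1_0_c0 h hβ hk1 hk2 ht1 ht2 hR0 hR

private theorem T3_01_d0_1_b0_0 {β x y : ℝ} (hβ : 0 < β) (hN : β * 32.258 ≤ 1) (hx1 : 0.1089 ≤ x) (hx2 : x ≤ 0.3355)
    (hy1 : -0.442 ≤ y) (hy2 : y ≤ -0.317) : ‖HH β (x + y * I) - 1‖ ≤ 0.15 := by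
  refine le_epsJ (C := 4.7429) (N0 := 32.258) (J_boxp 0.1089 0.3355 0.442 0 (-0.317) 0.4728 0.555 0.761 2.6834 0.3481 5.6797 32.258 1.1739 5.684 1.722 0.883 0.2363 0.1438 0.3478 2.4635 0.1664 0.6507 0.587 3.4212 0.0004898 0.009683 0.00001342 0.0000003101 0.004669 0.0000003101 0.0000003101 0.0000003101 4.7429
    hβ hN hx1 hx2 hy1 hy2 (by norm_num) (by norm_num) (by linarith) (by norm_num) (by norm_num) (by norm_num) (by norm_num) (by norm_num) (by norm_num) (by norm_num) (by norm_num) (by norm_num) (by norm_num) (by norm_num) (by norm_num) (by norm_num) (by norm_num) (by norm_num) (by norm_num) (by norm_num) (by norm_num) (by norm_num) (by norm_num) (by norm_num)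
    (cube_sqrt_geJ (s := 0.7801) (by norm_num) (by norm_num) (by norm_num) (by norm_num))
    (cube_sqrt_geJ (s := 0.9253) (by norm_num) (by norm_num) (by norm_num) (by norm_num))
    (by norm_num) (by norm_num) (by norm_num) (by norm_num) (by norm_num) (by norm_num) (by norm_num) (by norm_num) (by norm_num) (by norm_num) (by norm_num) (by norm_num) (by norm_num) (by norm_num) (by norm_num) (by norm_num) (by norm_num) (by norm_num)
    (exp_neg_leJ (r := 0.622) 7 (by norm_num) (by norm_num) (by norm_num) (by norm_num))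
    (exp_neg_leJ (r := 0.638) 4 (by norm_num) (by norm_num) (by norm_num) (by norm_num))
    (exp_neg_leJ (r := 0.219) 11 (by norm_num) (by norm_num) (by norm_num) (by norm_num))
    (exp_neg_leJ (r := 0.99) 14 (by norm_num) (by norm_num) (by norm_num) (by norm_num))
    (exp_neg_leJ (r := 0.367) 5 (by norm_num) (by norm_num) (by norm_num) (by norm_num))
    (exp_neg_leJ (r := 0.99) 14 (by norm_num) (by norm_num) (by norm_num) (by norm_num))
    (exp_neg_leJ (r := 0.99) 14 (by norm_num) (by norm_num) (by norm_num) (by norm_num))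
    (exp_neg_leJ (r := 0.99) 14 (by norm_num) (by norm_num) (by norm_num) (by norm_num))
    (by norm_num)) (by norm_num) hN hβ.le (by norm_num)

private theorem T3_01_d0_1_b0_1 {β x y : ℝ} (hβ : 0 < β) (hN : β * 32.258 ≤ 1) (hx1 : 0.1784 ≤ x) (hx2 : x ≤ 0.3322)
    (hy1 : -0.397 ≤ y) (hy2 : y ≤ -0.293) : ‖HH β (x + y * I) - 1‖ ≤ 0.15 := by
  refine le_epsJ (C := 1.8066) (N0 := 32.258) (J_boxp 0.1784 0.3322 0.397 0 (-0.293) 0.5537 0.5177 0.7812 2.1453 0.3527 5.6797 32.258 0.935 3.697 1.531 0.9258 0.2768 0.1905 0.4427 2.6159 0.2248 0.747 0.8483 3.6616 0.0001329 0.002145 0.0000006285 0.0000003101 0.0007095 0.0000003101 0.0000003101 0.0000003101 1.8066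
    hβ hN hx1 hx2 hy1 hy2 (by norm_num) (by norm_num) (by linarith) (by norm_num) (by norm_num) (by norm_num) (by norm_num) (by norm_num) (by norm_num) (by norm_num) (by norm_num) (by norm_num) (by norm_num) (by norm_num) (by norm_num) (by norm_num) (by norm_num) (by norm_num) (by norm_num) (by norm_num) (by norm_num) (by norm_num) (by norm_num) (by norm_num)
    (cube_sqrt_geJ (s := 0.8296) (by norm_num) (by norm_num) (by norm_num) (by norm_num))
    (cube_sqrt_geJ (s := 0.941) (by norm_num) (by norm_num) (by norm_num) (by norm_num))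
    (by norm_num) (by norm_num) (by norm_num) (by norm_num) (by norm_num) (by norm_num) (by norm_num) (by norm_num) (by norm_num) (by norm_num) (by norm_num) (by norm_num) (by norm_num) (by norm_num) (by norm_num) (by norm_num) (by norm_num) (by norm_num)
    (exp_neg_leJ (r := 0.929) 8 (by norm_num) (by norm_num) (by norm_num) (by norm_num))
    (exp_neg_leJ (r := 0.145) 6 (by norm_num) (by norm_num) (by norm_num) (by norm_num))
    (exp_neg_leJ (r := 0.28) 14 (by norm_num) (by norm_num) (by norm_num) (by norm_num))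
    (exp_neg_leJ (r := 0.99) 14 (by norm_num) (by norm_num) (by norm_num) (by norm_num))
    (exp_neg_leJ (r := 0.251) 7 (by norm_num) (by norm_num) (by norm_num) (by norm_num))
    (exp_neg_leJ (r := 0.99) 14 (by norm_num) (by norm_num) (by norm_num) (by norm_num))
    (exp_neg_leJ (r := 0.99) 14 (by norm_num) (by norm_num) (by norm_num) (by norm_num))
    (exp_neg_leJ (r := 0.99) 14 (by norm_num) (by norm_num) (by norm_num) (by norm_num))
    (by norm_num)) (by norm_num) hN hβ.le (by norm_num)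

private theorem T3_01_d0_1_c0 {κ t β : ℝ} (h : DomR κ t) (hβ : 0 < β) (hk1 : 0.3 ≤ κ) (hk2 : κ ≤ 0.31)
    (ht1 : -0.9694 ≤ t + κ) (ht2 : t + κ ≤ -0.89939) (hR0 : β * 10 ≤ κ) (hR : β * (1 * (1 + κ ^ 2)) ≤ κ) :
    ∀ s : ℂ, ‖s - sg κ t‖ ≤ 0.04 → ‖HH β s - 1‖ ≤ 0.15 := by
  have hN : β * 32.258 ≤ 1 := bNR hβ h.1 hk2 hR0 (by norm_num)
  have hy1 : -0.402 ≤ sy κ t := syL_ang2 h 0.3 0.31 0.9694 1.049 0.4984 0.8672 0.402 1.49481 0.66898 hk1 hk2 (by linarith) (by norm_num) (by norm_num) (by norm_num) (by norm_num)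
    (cos_ge_num (by norm_num) (by norm_num)) (sin_le_num (by norm_num) (by norm_num))
    (expn_ge (by norm_num) (by norm_num)) (expm_ge (by norm_num) (by norm_num) (by norm_num) (by norm_num)) (by norm_num) (by norm_num) (by norm_num)
    (by norm_num) (by norm_num) (by norm_num)
  have hy2 : sy κ t ≤ -0.333 := syL_le h 0.3 0.31 0.89939 0.333 0.71677 0.71678 0.76994 0.79563 hk1 hk2 (by linarith) (by norm_num) (by norm_num) (by norm_num)
    (expm_ge (by norm_num) (by norm_num) (by norm_num) (by norm_num)) (expm_le (by norm_num) (by norm_num) (by norm_num)) (by norm_num)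
    (by norm_num) (by norm_num) (by norm_num) (by norm_num) (by norm_num) (by norm_num)
  intro s hs
  have hs' : ‖s - ((sx κ t : ℂ) + (sy κ t : ℂ) * I)‖ ≤ 0.04 := hs
  obtain ⟨es, ⟨s1, s2⟩, ⟨s3, s4⟩⟩ := disc_split hs'
  rcases le_total (sy κ t) (-0.357) with f0 | g0
  · have hx1 : 0.1489 ≤ sx κ t := sx_lo h 0.3 (-0.357) 0.402 1.42903 0.1489 hk1 (by norm_num) f0 (abs_le.2 ⟨by linarith, by linarith⟩) (by rw [neg_neg]; exact expn_ge (by norm_num) (by norm_num)) (by norm_num) (by norm_num)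
    have hx2 : sx κ t ≤ 0.2955 := sx_hi h 0.31 (-0.402) 0.357 1.49482 0.2955 hk2 hy1 (by norm_num) (by rw [abs_of_nonpos (by linarith)]; linarith) (by rw [neg_neg]; exact expn_le (by norm_num) (by norm_num) (by norm_num)) (by norm_num) (by norm_num)
    rw [es]
    exact T3_01_d0_1_b0_0 hβ hN (by linarith) (by linarith) (by linarith) (by linarith)
  have hx1 : 0.2184 ≤ sx κ t := sx_lo h 0.3 (-0.333) 0.357 1.39514 0.2184 hk1 (by norm_num) hy2 (abs_le.2 ⟨by linarith, by linarith⟩) (by rw [neg_neg]; exact expn_ge (by norm_num) (by norm_num)) (by norm_num) (by norm_num)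
  have hx2 : sx κ t ≤ 0.2922 := sx_hi h 0.31 (-0.357) 0.333 1.42904 0.2922 hk2 g0 (by norm_num) (by rw [abs_of_nonpos (by linarith)]; linarith) (by rw [neg_neg]; exact expn_le (by norm_num) (by norm_num) (by norm_num)) (by norm_num) (by norm_num)
  rw [es]
  exact T3_01_d0_1_b0_1 hβ hN (by linarith) (by linarith) (by linarith) (by linarith)

private theorem T3_01_d0_1_b1_0 {β x y : ℝ} (hβ : 0 < β) (hN : β * 31.249 ≤ 1) (hx1 : 0.1446 ≤ x) (hx2 : x ≤ 0.3233)
    (hy1 : -0.463 ≤ y) (hy2 : y ≤ -0.358) : ‖HH β (x + y * I) - 1‖ ≤ 0.15 := by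
  refine le_epsJ (C := 4.4141) (N0 := 31.249) (J_boxp 0.1446 0.3233 0.463 0 (-0.358) 0.4831 0.5648 0.7189 2.5252 0.3383 5.5901 31.249 1.1692 5.633 1.718 0.8683 0.2415 0.1474 0.3269 2.3987 0.1723 0.7002 0.6013 3.466 0.0005284 0.009996 0.00003662 0.0000003101 0.00459 0.0000003101 0.0000003101 0.0000003101 4.4141
    hβ hN hx1 hx2 hy1 hy2 (by norm_num) (by norm_num) (by linarith) (by norm_num) (by norm_num) (by norm_num) (by norm_num) (by norm_num) (by norm_num) (by norm_num) (by norm_num) (by norm_num) (by norm_num) (by norm_num) (by norm_num) (by norm_num) (by norm_num) (by norm_num) (by norm_num) (by norm_num) (by norm_num) (by norm_num) (by norm_num) (by norm_num)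
    (cube_sqrt_geJ (s := 0.7811) (by norm_num) (by norm_num) (by norm_num) (by norm_num))
    (cube_sqrt_geJ (s := 0.9256) (by norm_num) (by norm_num) (by norm_num) (by norm_num))
    (by norm_num) (by norm_num) (by norm_num) (by norm_num) (by norm_num) (by norm_num) (by norm_num) (by norm_num) (by norm_num) (by norm_num) (by norm_num) (by norm_num) (by norm_num) (by norm_num) (by norm_num) (by norm_num) (by norm_num) (by norm_num)
    (exp_neg_leJ (r := 0.546) 7 (by norm_num) (by norm_num) (by norm_num) (by norm_num))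
    (exp_neg_leJ (r := 0.606) 4 (by norm_num) (by norm_num) (by norm_num) (by norm_num))
    (exp_neg_leJ (r := 0.215) 10 (by norm_num) (by norm_num) (by norm_num) (by norm_num))
    (exp_neg_leJ (r := 0.99) 14 (by norm_num) (by norm_num) (by norm_num) (by norm_num))
    (exp_neg_leJ (r := 0.384) 5 (by norm_num) (by norm_num) (by norm_num) (by norm_num))
    (exp_neg_leJ (r := 0.99) 14 (by norm_num) (by norm_num) (by norm_num) (by norm_num))
    (exp_neg_leJ (r := 0.99) 14 (by norm_num) (by norm_num) (by norm_num) (by norm_num))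
    (exp_neg_leJ (r := 0.99) 14 (by norm_num) (by norm_num) (by norm_num) (by norm_num))
    (by norm_num)) (by norm_num) hN hβ.le (by norm_num)

private theorem T3_01_d0_1_b1_1 {β x y : ℝ} (hβ : 0 < β) (hN : β * 31.249 ≤ 1) (hx1 : 0.1453 ≤ x) (hx2 : x ≤ 0.3654)
    (hy1 : -0.438 ≤ y) (hy2 : y ≤ -0.308) : ‖HH β (x + y * I) - 1‖ ≤ 0.15 := by
  refine le_epsJ (C := 3.9133) (N0 := 31.249) (J_boxp 0.1453 0.3654 0.438 0 (-0.308) 0.5013 0.5705 0.7826 2.4925 0.353 5.5901 31.249 1.1381 5.31 1.691 0.8752 0.2506 0.1555 0.3666 2.4627 0.1863 0.7011 0.6706 3.4519 0.0003983 0.007774 0.0000106 0.0000003101 0.00297 0.0000003101 0.0000003101 0.0000003101 3.9133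
    hβ hN hx1 hx2 hy1 hy2 (by norm_num) (by norm_num) (by linarith) (by norm_num) (by norm_num) (by norm_num) (by norm_num) (by norm_num) (by norm_num) (by norm_num) (by norm_num) (by norm_num) (by norm_num) (by norm_num) (by norm_num) (by norm_num) (by norm_num) (by norm_num) (by norm_num) (by norm_num) (by norm_num) (by norm_num) (by norm_num) (by norm_num)
    (cube_sqrt_geJ (s := 0.7878) (by norm_num) (by norm_num) (by norm_num) (by norm_num))
    (cube_sqrt_geJ (s := 0.9277) (by norm_num) (by norm_num) (by norm_num) (by norm_num))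
    (by norm_num) (by norm_num) (by norm_num) (by norm_num) (by norm_num) (by norm_num) (by norm_num) (by norm_num) (by norm_num) (by norm_num) (by norm_num) (by norm_num) (by norm_num) (by norm_num) (by norm_num) (by norm_num) (by norm_num) (by norm_num)
    (exp_neg_leJ (r := 0.83) 7 (by norm_num) (by norm_num) (by norm_num) (by norm_num))
    (exp_neg_leJ (r := 0.859) 4 (by norm_num) (by norm_num) (by norm_num) (by norm_num))
    (exp_neg_leJ (r := 0.455) 11 (by norm_num) (by norm_num) (by norm_num) (by norm_num))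
    (exp_neg_leJ (r := 0.99) 14 (by norm_num) (by norm_num) (by norm_num) (by norm_num))
    (exp_neg_leJ (r := 0.821) 5 (by norm_num) (by norm_num) (by norm_num) (by norm_num))
    (exp_neg_leJ (r := 0.99) 14 (by norm_num) (by norm_num) (by norm_num) (by norm_num))
    (exp_neg_leJ (r := 0.99) 14 (by norm_num) (by norm_num) (by norm_num) (by norm_num))
    (exp_neg_leJ (r := 0.99) 14 (by norm_num) (by norm_num) (by norm_num) (by norm_num))
    (by norm_num)) (by norm_num) hN hβ.le (by norm_num)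

private theorem T3_01_d0_1_c1 {κ t β : ℝ} (h : DomR κ t) (hβ : 0 < β) (hk1 : 0.31 ≤ κ) (hk2 : κ ≤ 0.32)
    (ht1 : -0.9694 ≤ t + κ) (ht2 : t + κ ≤ -0.89939) (hR0 : β * 10 ≤ κ) (hR : β * (1 * (1 + κ ^ 2)) ≤ κ) :
    ∀ s : ℂ, ‖s - sg κ t‖ ≤ 0.04 → ‖HH β s - 1‖ ≤ 0.15 := by
  have hN : β * 31.249 ≤ 1 := bNR hβ h.1 hk2 hR0 (by norm_num)
  have hy1 : -0.423 ≤ sy κ t := syL_ang2 h 0.31 0.32 0.9694 1.046 0.501 0.8657 0.423 1.52653 0.65507 hk1 hk2 (by linarith) (by norm_num) (by norm_num) (by norm_num) (by norm_num)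
    (cos_ge_num (by norm_num) (by norm_num)) (sin_le_num (by norm_num) (by norm_num))
    (expn_ge (by norm_num) (by norm_num)) (expm_ge (by norm_num) (by norm_num) (by norm_num) (by norm_num)) (by norm_num) (by norm_num) (by norm_num)
    (by norm_num) (by norm_num) (by norm_num)
  have hy2 : sy κ t ≤ -0.348 := syL_le h 0.31 0.32 0.89939 0.348 0.70609 0.7061 0.76787 0.79266 hk1 hk2 (by linarith) (by norm_num) (by norm_num) (by norm_num)
    (expm_ge (by norm_num) (by norm_num) (by norm_num) (by norm_num)) (expm_le (by norm_num) (by norm_num) (by norm_num)) (by norm_num)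
    (by norm_num) (by norm_num) (by norm_num) (by norm_num) (by norm_num) (by norm_num)
  intro s hs
  have hs' : ‖s - ((sx κ t : ℂ) + (sy κ t : ℂ) * I)‖ ≤ 0.04 := hs
  obtain ⟨es, ⟨s1, s2⟩, ⟨s3, s4⟩⟩ := disc_split hs'
  rcases le_total (sy κ t) (-0.398) with f0 | g0
  · have hx1 : 0.1846 ≤ sx κ t := sx_lo h 0.31 (-0.398) 0.423 1.48884 0.1846 hk1 (by norm_num) f0 (abs_le.2 ⟨by linarith, by linarith⟩) (by rw [neg_neg]; exact expn_ge (by norm_num) (by norm_num)) (by norm_num) (by norm_num)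
    have hx2 : sx κ t ≤ 0.2833 := sx_hi h 0.32 (-0.423) 0.398 1.52654 0.2833 hk2 hy1 (by norm_num) (by rw [abs_of_nonpos (by linarith)]; linarith) (by rw [neg_neg]; exact expn_le (by norm_num) (by norm_num) (by norm_num)) (by norm_num) (by norm_num)
    rw [es]
    exact T3_01_d0_1_b1_0 hβ hN (by linarith) (by linarith) (by linarith) (by linarith)
  have hx1 : 0.1853 ≤ sx κ t := sx_lo h 0.31 (-0.348) 0.398 1.41623 0.1853 hk1 (by norm_num) hy2 (abs_le.2 ⟨by linarith, by linarith⟩) (by rw [neg_neg]; exact expn_ge (by norm_num) (by norm_num)) (by norm_num) (by norm_num)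
  have hx2 : sx κ t ≤ 0.3254 := sx_hi h 0.32 (-0.398) 0.348 1.48885 0.3254 hk2 g0 (by norm_num) (by rw [abs_of_nonpos (by linarith)]; linarith) (by rw [neg_neg]; exact expn_le (by norm_num) (by norm_num) (by norm_num)) (by norm_num) (by norm_num)
  rw [es]
  exact T3_01_d0_1_b1_1 hβ hN (by linarith) (by linarith) (by linarith) (by linarith)

private theorem T3_01_d0_1_b2_0 {β x y : ℝ} (hβ : 0 < β) (hN : β * 30.303 ≤ 1) (hx1 : 0.1763 ≤ x) (hx2 : x ≤ 0.3163)
    (hy1 : -0.484 ≤ y) (hy2 : y ≤ -0.394) : ‖HH β (x + y * I) - 1‖ ≤ 0.15 := by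
  refine le_epsJ (C := 4.3414) (N0 := 30.303) (J_boxp 0.1763 0.3163 0.484 0 (-0.394) 0.4905 0.5782 0.6836 2.4069 0.3299 5.5049 30.303 1.1788 5.738 1.726 0.8516 0.2452 0.1488 0.3046 2.3314 0.1762 0.7441 0.6076 3.4929 0.0005933 0.01102 0.00009806 0.0000003101 0.004801 0.0000003101 0.0000003101 0.0000003101 4.3414
    hβ hN hx1 hx2 hy1 hy2 (by norm_num) (by norm_num) (by linarith) (by norm_num) (by norm_num) (by norm_num) (by norm_num) (by norm_num) (by norm_num) (by norm_num) (by norm_num) (by norm_num) (by norm_num) (by norm_num) (by norm_num) (by norm_num) (by norm_num) (by norm_num) (by norm_num) (by norm_num) (by norm_num) (by norm_num) (by norm_num) (by norm_num)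
    (cube_sqrt_geJ (s := 0.7791) (by norm_num) (by norm_num) (by norm_num) (by norm_num))
    (cube_sqrt_geJ (s := 0.925) (by norm_num) (by norm_num) (by norm_num) (by norm_num))
    (by norm_num) (by norm_num) (by norm_num) (by norm_num) (by norm_num) (by norm_num) (by norm_num) (by norm_num) (by norm_num) (by norm_num) (by norm_num) (by norm_num) (by norm_num) (by norm_num) (by norm_num) (by norm_num) (by norm_num) (by norm_num)
    (exp_neg_leJ (r := 0.43) 7 (by norm_num) (by norm_num) (by norm_num) (by norm_num))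
    (exp_neg_leJ (r := 0.509) 4 (by norm_num) (by norm_num) (by norm_num) (by norm_num))
    (exp_neg_leJ (r := 0.23) 9 (by norm_num) (by norm_num) (by norm_num) (by norm_num))
    (exp_neg_leJ (r := 0.99) 14 (by norm_num) (by norm_num) (by norm_num) (by norm_num))
    (exp_neg_leJ (r := 0.339) 5 (by norm_num) (by norm_num) (by norm_num) (by norm_num))
    (exp_neg_leJ (r := 0.99) 14 (by norm_num) (by norm_num) (by norm_num) (by norm_num))
    (exp_neg_leJ (r := 0.99) 14 (by norm_num) (by norm_num) (by norm_num) (by norm_num))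
    (exp_neg_leJ (r := 0.99) 14 (by norm_num) (by norm_num) (by norm_num) (by norm_num))
    (by norm_num)) (by norm_num) hN hβ.le (by norm_num)

private theorem T3_01_d0_1_b2_1 {β x y : ℝ} (hβ : 0 < β) (hN : β * 30.303 ≤ 1) (hx1 : 0.1689 ≤ x) (hx2 : x ≤ 0.3436)
    (hy1 : -0.474 ≤ y) (hy2 : y ≤ -0.369) : ‖HH β (x + y * I) - 1‖ ≤ 0.15 := by
  refine le_epsJ (C := 4.5326) (N0 := 30.303) (J_boxp 0.1689 0.3436 0.474 0 (-0.369) 0.4924 0.5855 0.7185 2.4533 0.3382 5.5049 30.303 1.1891 5.853 1.735 0.8504 0.2461 0.1486 0.3179 2.3524 0.1781 0.7338 0.62 3.4583 0.0005775 0.01108 0.00006557 0.0000003101 0.004535 0.0000003101 0.0000003101 0.0000003101 4.5326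
    hβ hN hx1 hx2 hy1 hy2 (by norm_num) (by norm_num) (by linarith) (by norm_num) (by norm_num) (by norm_num) (by norm_num) (by norm_num) (by norm_num) (by norm_num) (by norm_num) (by norm_num) (by norm_num) (by norm_num) (by norm_num) (by norm_num) (by norm_num) (by norm_num) (by norm_num) (by norm_num) (by norm_num) (by norm_num) (by norm_num) (by norm_num)
    (cube_sqrt_geJ (s := 0.7769) (by norm_num) (by norm_num) (by norm_num) (by norm_num))
    (cube_sqrt_geJ (s := 0.9243) (by norm_num) (by norm_num) (by norm_num) (by norm_num))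
    (by norm_num) (by norm_num) (by norm_num) (by norm_num) (by norm_num) (by norm_num) (by norm_num) (by norm_num) (by norm_num) (by norm_num) (by norm_num) (by norm_num) (by norm_num) (by norm_num) (by norm_num) (by norm_num) (by norm_num) (by norm_num)
    (exp_neg_leJ (r := 0.457) 7 (by norm_num) (by norm_num) (by norm_num) (by norm_num))
    (exp_neg_leJ (r := 0.503) 4 (by norm_num) (by norm_num) (by norm_num) (by norm_num))
    (exp_neg_leJ (r := 0.633) 9 (by norm_num) (by norm_num) (by norm_num) (by norm_num))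
    (exp_neg_leJ (r := 0.99) 14 (by norm_num) (by norm_num) (by norm_num) (by norm_num))
    (exp_neg_leJ (r := 0.396) 5 (by norm_num) (by norm_num) (by norm_num) (by norm_num))
    (exp_neg_leJ (r := 0.99) 14 (by norm_num) (by norm_num) (by norm_num) (by norm_num))
    (exp_neg_leJ (r := 0.99) 14 (by norm_num) (by norm_num) (by norm_num) (by norm_num))
    (exp_neg_leJ (r := 0.99) 14 (by norm_num) (by norm_num) (by norm_num) (by norm_num))
    (by norm_num)) (by norm_num) hN hβ.le (by norm_num)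

private theorem T3_01_d0_1_b2_2 {β x y : ℝ} (hβ : 0 < β) (hN : β * 30.303 ≤ 1) (hx1 : 0.1706 ≤ x) (hx2 : x ≤ 0.3792)
    (hy1 : -0.449 ≤ y) (hy2 : y ≤ -0.323) : ‖HH β (x + y * I) - 1‖ ≤ 0.15 := by
  refine le_epsJ (C := 3.9127) (N0 := 30.303) (J_boxp 0.1706 0.3792 0.449 0 (-0.323) 0.5113 0.5878 0.776 2.4095 0.3515 5.5049 30.303 1.1497 5.428 1.701 0.8598 0.2556 0.1576 0.3579 2.4192 0.1926 0.7362 0.6913 3.4554 0.0004334 0.008449 0.00001954 0.0000003101 0.002926 0.0000003101 0.0000003101 0.0000003101 3.9127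
    hβ hN hx1 hx2 hy1 hy2 (by norm_num) (by norm_num) (by linarith) (by norm_num) (by norm_num) (by norm_num) (by norm_num) (by norm_num) (by norm_num) (by norm_num) (by norm_num) (by norm_num) (by norm_num) (by norm_num) (by norm_num) (by norm_num) (by norm_num) (by norm_num) (by norm_num) (by norm_num) (by norm_num) (by norm_num) (by norm_num) (by norm_num)
    (cube_sqrt_geJ (s := 0.7853) (by norm_num) (by norm_num) (by norm_num) (by norm_num))
    (cube_sqrt_geJ (s := 0.9269) (by norm_num) (by norm_num) (by norm_num) (by norm_num))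
    (by norm_num) (by norm_num) (by norm_num) (by norm_num) (by norm_num) (by norm_num) (by norm_num) (by norm_num) (by norm_num) (by norm_num) (by norm_num) (by norm_num) (by norm_num) (by norm_num) (by norm_num) (by norm_num) (by norm_num) (by norm_num)
    (exp_neg_leJ (r := 0.745) 7 (by norm_num) (by norm_num) (by norm_num) (by norm_num))
    (exp_neg_leJ (r := 0.775) 4 (by norm_num) (by norm_num) (by norm_num) (by norm_num))
    (exp_neg_leJ (r := 0.845) 10 (by norm_num) (by norm_num) (by norm_num) (by norm_num))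
    (exp_neg_leJ (r := 0.99) 14 (by norm_num) (by norm_num) (by norm_num) (by norm_num))
    (exp_neg_leJ (r := 0.836) 5 (by norm_num) (by norm_num) (by norm_num) (by norm_num))
    (exp_neg_leJ (r := 0.99) 14 (by norm_num) (by norm_num) (by norm_num) (by norm_num))
    (exp_neg_leJ (r := 0.99) 14 (by norm_num) (by norm_num) (by norm_num) (by norm_num))
    (exp_neg_leJ (r := 0.99) 14 (by norm_num) (by norm_num) (by norm_num) (by norm_num))
    (by norm_num)) (by norm_num) hN hβ.le (by norm_num)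

private theorem T3_01_d0_1_c2 {κ t β : ℝ} (h : DomR κ t) (hβ : 0 < β) (hk1 : 0.32 ≤ κ) (hk2 : κ ≤ 0.33)
    (ht1 : -0.9694 ≤ t + κ) (ht2 : t + κ ≤ -0.89939) (hR0 : β * 10 ≤ κ) (hR : β * (1 * (1 + κ ^ 2)) ≤ κ) :
    ∀ s : ℂ, ‖s - sg κ t‖ ≤ 0.04 → ‖HH β s - 1‖ ≤ 0.15 := by
  have hN : β * 30.303 ≤ 1 := bNR hβ h.1 hk2 hR0 (by norm_num)
  have hy1 : -0.444 ≤ sy κ t := syL_ang2 h 0.32 0.33 0.9694 1.04 0.5061 0.8627 0.444 1.55892 0.64146 hk1 hk2 (by linarith) (by norm_num) (by norm_num) (by norm_num) (by norm_num)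
    (cos_ge_num (by norm_num) (by norm_num)) (sin_le_num (by norm_num) (by norm_num))
    (expn_ge (by norm_num) (by norm_num)) (expm_ge (by norm_num) (by norm_num) (by norm_num) (by norm_num)) (by norm_num) (by norm_num) (by norm_num)
    (by norm_num) (by norm_num) (by norm_num)
  have hy2 : sy κ t ≤ -0.363 := syL_le h 0.32 0.33 0.89939 0.363 0.69558 0.69559 0.76513 0.78906 hk1 hk2 (by linarith) (by norm_num) (by norm_num) (by norm_num)
    (expm_ge (by norm_num) (by norm_num) (by norm_num) (by norm_num)) (expm_le (by norm_num) (by norm_num) (by norm_num)) (by norm_num)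
    (by norm_num) (by norm_num) (by norm_num) (by norm_num) (by norm_num) (by norm_num)
  intro s hs
  have hs' : ‖s - ((sx κ t : ℂ) + (sy κ t : ℂ) * I)‖ ≤ 0.04 := hs
  obtain ⟨es, ⟨s1, s2⟩, ⟨s3, s4⟩⟩ := disc_split hs'
  rcases le_total (sy κ t) (-0.434) with f0 | g0
  · have hx1 : 0.2163 ≤ sx κ t := sx_lo h 0.32 (-0.434) 0.444 1.54341 0.2163 hk1 (by norm_num) f0 (abs_le.2 ⟨by linarith, by linarith⟩) (by rw [neg_neg]; exact expn_ge (by norm_num) (by norm_num)) (by norm_num) (by norm_num)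
    have hx2 : sx κ t ≤ 0.2763 := sx_hi h 0.33 (-0.444) 0.434 1.55894 0.2763 hk2 hy1 (by norm_num) (by rw [abs_of_nonpos (by linarith)]; linarith) (by rw [neg_neg]; exact expn_le (by norm_num) (by norm_num) (by norm_num)) (by norm_num) (by norm_num)
    rw [es]
    exact T3_01_d0_1_b2_0 hβ hN (by linarith) (by linarith) (by linarith) (by linarith)
  rcases le_total (sy κ t) (-0.409) with f1 | g1
  · have hx1 : 0.2089 ≤ sx κ t := sx_lo h 0.32 (-0.409) 0.434 1.50531 0.2089 hk1 (by norm_num) f1 (abs_le.2 ⟨by linarith, by linarith⟩) (by rw [neg_neg]; exact expn_ge (by norm_num) (by norm_num)) (by norm_num) (by norm_num)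
    have hx2 : sx κ t ≤ 0.3036 := sx_hi h 0.33 (-0.434) 0.409 1.54342 0.3036 hk2 g0 (by norm_num) (by rw [abs_of_nonpos (by linarith)]; linarith) (by rw [neg_neg]; exact expn_le (by norm_num) (by norm_num) (by norm_num)) (by norm_num) (by norm_num)
    rw [es]
    exact T3_01_d0_1_b2_1 hβ hN (by linarith) (by linarith) (by linarith) (by linarith)
  have hx1 : 0.2106 ≤ sx κ t := sx_lo h 0.32 (-0.363) 0.409 1.43763 0.2106 hk1 (by norm_num) hy2 (abs_le.2 ⟨by linarith, by linarith⟩) (by rw [neg_neg]; exact expn_ge (by norm_num) (by norm_num)) (by norm_num) (by norm_num)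
  have hx2 : sx κ t ≤ 0.3392 := sx_hi h 0.33 (-0.409) 0.363 1.50532 0.3392 hk2 g1 (by norm_num) (by rw [abs_of_nonpos (by linarith)]; linarith) (by rw [neg_neg]; exact expn_le (by norm_num) (by norm_num) (by norm_num)) (by norm_num) (by norm_num)
  rw [es]
  exact T3_01_d0_1_b2_2 hβ hN (by linarith) (by linarith) (by linarith) (by linarith)

theorem T3_01_d0_1 {κ t β : ℝ} (h : DomR κ t) (hβ : 0 < β) (hk1 : 0.3 ≤ κ) (hk2 : κ ≤ 0.33)
    (ht1 : -0.9694 ≤ t + κ) (ht2 : t + κ ≤ -0.89939) (hR0 : β * 10 ≤ κ) (hR : β * (1 * (1 + κ ^ 2)) ≤ κ) :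
    ∀ s : ℂ, ‖s - sg κ t‖ ≤ 0.04 → ‖HH β s - 1‖ ≤ 0.15 := by
  rcases le_total κ 0.31 with f0 | g0
  · exact T3_01_d0_1_c0 h hβ hk1 f0 ht1 ht2 hR0 hR
  rcases le_total κ 0.32 with f1 | g1
  · exact T3_01_d0_1_c1 h hβ g0 f1 ht1 ht2 hR0 hR
  exact T3_01_d0_1_c2 h hβ g1 hk2 ht1 ht2 hR0 hR

private theorem T3_01_d1_1_b0_0 {β x y : ℝ} (hβ : 0 < β) (hN : β * 30.303 ≤ 1) (hn : ‖(x + y * I : ℂ)‖ ≤ 0.331) : ‖HH β (x + y * I) - 1‖ ≤ 0.03 := by
  refine le_epsJ (C := 0.4453) (N0 := 30.303) (J45_genN (N := 30.303) (r0 := 5.5049) (f := 2.6809) (n0 := 0.331) (a := 0.669) (wL := 1.588) (wR := 1.867)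
    (E1 := 0.003369) (E2 := 0.0000003101) (E3 := 0.01188) (E4 := 0.0000008916) (E5 := 0.0000003101) hβ (by norm_num) hN
    (by norm_num) (by norm_num) (by norm_num) hn (by norm_num) (by norm_num) (by norm_num)
    (cube_sqrt_geJ (s := 0.9361) (by norm_num) (by norm_num) (by norm_num) (by norm_num))
    (cube_sqrt_geJ (s := 0.9147) (by norm_num) (by norm_num) (by norm_num) (by norm_num))
    (exp_neg_leJ (r := 0.694) 5 (by norm_num) (by norm_num) (by norm_num) (by norm_num))
    (exp_neg_leJ (r := 0.99) 14 (by norm_num) (by norm_num) (by norm_num) (by norm_num))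
    (exp_neg_leJ (r := 0.433) 4 (by norm_num) (by norm_num) (by norm_num) (by norm_num))
    (exp_neg_leJ (r := 0.933) 13 (by norm_num) (by norm_num) (by norm_num) (by norm_num))
    (exp_neg_leJ (r := 0.99) 14 (by norm_num) (by norm_num) (by norm_num) (by norm_num))
    (by norm_num)) (by norm_num) hN hβ.le (by norm_num)

private theorem T3_01_d1_1_c0 {κ t β : ℝ} (h : DomR κ t) (hβ : 0 < β) (hk1 : 0.3 ≤ κ) (hk2 : κ ≤ 0.33)
    (ht1 : 1.125 ≤ t + κ) (ht2 : t + κ ≤ 1.195) (hR0 : β * 10 ≤ κ) (hR : β * (1 * (1 + κ ^ 2)) ≤ κ) :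
    ∀ s : ℂ, ‖s - sg κ t‖ ≤ 0.06 → ‖HH β s - 1‖ ≤ 0.03 := by
  have hN : β * 30.303 ≤ 1 := bNR hβ h.1 hk2 hR0 (by norm_num)
  have hy1 : 0.197 ≤ sy κ t := syR_ge h 0.3 0.33 1.125 0.197 1.21774 1.21775 0.72695 0.79966 hk1 hk2 (by linarith) (by norm_num) (by norm_num)
    (expn_ge (by norm_num) (by norm_num)) (expn_le (by norm_num) (by norm_num) (by norm_num)) (by norm_num)
    (by norm_num) (by norm_num) (by norm_num) (by norm_num) (by norm_num) (by norm_num)
  have hy2 : sy κ t ≤ 0.225 := syR_ang2 h 0.3 0.33 1.195 1.022 0.5233 0.8534 0.225 0.79852 1.25232 hk1 hk2 (by linarith) (by norm_num) (by norm_num) (by norm_num)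
    (cos_le_num (by norm_num)) (sin_le_num (by norm_num) (by norm_num)) (expm_le (by norm_num) (by norm_num) (by norm_num))
    (expn_ge (by norm_num) (by norm_num)) (by norm_num) (by norm_num) (by norm_num) (by norm_num) (by norm_num)
  intro s hs
  have hs' : ‖s - ((sx κ t : ℂ) + (sy κ t : ℂ) * I)‖ ≤ 0.06 := hs
  obtain ⟨es, ⟨s1, s2⟩, ⟨s3, s4⟩⟩ := disc_split hs'
  rw [es]
  refine T3_01_d1_1_b0_0 hβ hN ?_
  rw [← es]
  exact disc_norm hs' (norm_sg_le h 0.33 0.197 0.8212 (0.331 - 0.06) hk2 hy1 (expm_le (by norm_num) (by norm_num) (by norm_num)) (by norm_num))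

theorem T3_01_d1_1 {κ t β : ℝ} (h : DomR κ t) (hβ : 0 < β) (hk1 : 0.3 ≤ κ) (hk2 : κ ≤ 0.33)
    (ht1 : 1.125 ≤ t + κ) (ht2 : t + κ ≤ 1.195) (hR0 : β * 10 ≤ κ) (hR : β * (1 * (1 + κ ^ 2)) ≤ κ) :
    ∀ s : ℂ, ‖s - sg κ t‖ ≤ 0.06 → ‖HH β s - 1‖ ≤ 0.03 := by
  exact T3_01_d1_1_c0 h hβ hk1 hk2 ht1 ht2 hR0 hR

private theorem T3_01_d0_2_b0_0 {β x y : ℝ} (hβ : 0 < β) (hN : β * 31.249 ≤ 1) (hx1 : 0.1512 ≤ x) (hx2 : x ≤ 0.349)
    (hy1 : -0.43 ≤ y) (hy2 : y ≤ -0.31) : ‖HH β (x + y * I) - 1‖ ≤ 0.105 := by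
  refine le_epsJ (C := 3.2259) (N0 := 31.249) (J_boxp 0.1512 0.349 0.43 0 (-0.31) 0.5111 0.5539 0.7733 2.4067 0.3509 5.5901 31.249 1.0838 4.802 1.647 0.8889 0.2555 0.1632 0.3813 2.4973 0.1935 0.7093 0.7042 3.5088 0.0003421 0.006103 0.000006707 0.0000003101 0.002368 0.0000003101 0.0000003101 0.0000003101 3.2259
    hβ hN hx1 hx2 hy1 hy2 (by norm_num) (by norm_num) (by linarith) (by norm_num) (by norm_num) (by norm_num) (by norm_num) (by norm_num) (by norm_num) (by norm_num) (by norm_num) (by norm_num) (by norm_num) (by norm_num) (by norm_num) (by norm_num) (by norm_num) (by norm_num) (by norm_num) (by norm_num) (by norm_num) (by norm_num) (by norm_num) (by norm_num)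
    (cube_sqrt_geJ (s := 0.7992) (by norm_num) (by norm_num) (by norm_num) (by norm_num))
    (cube_sqrt_geJ (s := 0.9312) (by norm_num) (by norm_num) (by norm_num) (by norm_num))
    (by norm_num) (by norm_num) (by norm_num) (by norm_num) (by norm_num) (by norm_num) (by norm_num) (by norm_num) (by norm_num) (by norm_num) (by norm_num) (by norm_num) (by norm_num) (by norm_num) (by norm_num) (by norm_num) (by norm_num) (by norm_num)
    (exp_neg_leJ (r := 0.984) 7 (by norm_num) (by norm_num) (by norm_num) (by norm_num))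
    (exp_neg_leJ (r := 0.099) 5 (by norm_num) (by norm_num) (by norm_num) (by norm_num))
    (exp_neg_leJ (r := 0.915) 11 (by norm_num) (by norm_num) (by norm_num) (by norm_num))
    (exp_neg_leJ (r := 0.99) 14 (by norm_num) (by norm_num) (by norm_num) (by norm_num))
    (exp_neg_leJ (r := 0.046) 6 (by norm_num) (by norm_num) (by norm_num) (by norm_num))
    (exp_neg_leJ (r := 0.99) 14 (by norm_num) (by norm_num) (by norm_num) (by norm_num))
    (exp_neg_leJ (r := 0.99) 14 (by norm_num) (by norm_num) (by norm_num) (by norm_num))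
    (exp_neg_leJ (r := 0.99) 14 (by norm_num) (by norm_num) (by norm_num) (by norm_num))
    (by norm_num)) (by norm_num) hN hβ.le (by norm_num)

private theorem T3_01_d0_2_b0_1 {β x y : ℝ} (hβ : 0 < β) (hN : β * 31.249 ≤ 1) (hx1 : 0.1441 ≤ x) (hx2 : x ≤ 0.3881)
    (hy1 : -0.41 ≤ y) (hy2 : y ≤ -0.26) : ‖HH β (x + y * I) - 1‖ ≤ 0.105 := by
  refine le_epsJ (C := 3.2389) (N0 := 31.249) (J_boxp 0.1441 0.3881 0.41 0 (-0.26) 0.5204 0.5646 0.8356 2.435 0.3647 5.5901 31.249 1.085 4.813 1.647 0.8923 0.2601 0.166 0.4104 2.5452 0.201 0.6995 0.7443 3.4655 0.0002955 0.005589 0.0000027 0.0000003101 0.001872 0.0000003101 0.0000003101 0.0000003101 3.2389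
    hβ hN hx1 hx2 hy1 hy2 (by norm_num) (by norm_num) (by linarith) (by norm_num) (by norm_num) (by norm_num) (by norm_num) (by norm_num) (by norm_num) (by norm_num) (by norm_num) (by norm_num) (by norm_num) (by norm_num) (by norm_num) (by norm_num) (by norm_num) (by norm_num) (by norm_num) (by norm_num) (by norm_num) (by norm_num) (by norm_num) (by norm_num)
    (cube_sqrt_geJ (s := 0.7989) (by norm_num) (by norm_num) (by norm_num) (by norm_num))
    (cube_sqrt_geJ (s := 0.9312) (by norm_num) (by norm_num) (by norm_num) (by norm_num))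
    (by norm_num) (by norm_num) (by norm_num) (by norm_num) (by norm_num) (by norm_num) (by norm_num) (by norm_num) (by norm_num) (by norm_num) (by norm_num) (by norm_num) (by norm_num) (by norm_num) (by norm_num) (by norm_num) (by norm_num) (by norm_num)
    (exp_neg_leJ (r := 0.127) 8 (by norm_num) (by norm_num) (by norm_num) (by norm_num))
    (exp_neg_leJ (r := 0.187) 5 (by norm_num) (by norm_num) (by norm_num) (by norm_num))
    (exp_neg_leJ (r := 0.824) 12 (by norm_num) (by norm_num) (by norm_num) (by norm_num))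
    (exp_neg_leJ (r := 0.99) 14 (by norm_num) (by norm_num) (by norm_num) (by norm_num))
    (exp_neg_leJ (r := 0.281) 6 (by norm_num) (by norm_num) (by norm_num) (by norm_num))
    (exp_neg_leJ (r := 0.99) 14 (by norm_num) (by norm_num) (by norm_num) (by norm_num))
    (exp_neg_leJ (r := 0.99) 14 (by norm_num) (by norm_num) (by norm_num) (by norm_num))
    (exp_neg_leJ (r := 0.99) 14 (by norm_num) (by norm_num) (by norm_num) (by norm_num))
    (by norm_num)) (by norm_num) hN hβ.le (by norm_num)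

private theorem T3_01_d0_2_b0_2 {β x y : ℝ} (hβ : 0 < β) (hN : β * 31.249 ≤ 1) (hx1 : 0.1793 ≤ x) (hx2 : x ≤ 0.4069)
    (hy1 : -0.36 ≤ y) (hy2 : y ≤ -0.201) : ‖HH β (x + y * I) - 1‖ ≤ 0.105 := by
  refine le_epsJ (C := 1.79) (N0 := 31.249) (J_boxp 0.1793 0.4069 0.36 0 (-0.201) 0.5806 0.5433 0.8967 2.1405 0.3778 5.5901 31.249 0.9358 3.702 1.532 0.9313 0.2902 0.1997 0.5014 2.7021 0.2454 0.7482 0.9507 3.5938 0.0001153 0.00195 0.0000003101 0.0000003101 0.0004679 0.0000003101 0.0000003101 0.0000003101 1.79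
    hβ hN hx1 hx2 hy1 hy2 (by norm_num) (by norm_num) (by linarith) (by norm_num) (by norm_num) (by norm_num) (by norm_num) (by norm_num) (by norm_num) (by norm_num) (by norm_num) (by norm_num) (by norm_num) (by norm_num) (by norm_num) (by norm_num) (by norm_num) (by norm_num) (by norm_num) (by norm_num) (by norm_num) (by norm_num) (by norm_num) (by norm_num)
    (cube_sqrt_geJ (s := 0.8294) (by norm_num) (by norm_num) (by norm_num) (by norm_num))
    (cube_sqrt_geJ (s := 0.9409) (by norm_num) (by norm_num) (by norm_num) (by norm_num))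
    (by norm_num) (by norm_num) (by norm_num) (by norm_num) (by norm_num) (by norm_num) (by norm_num) (by norm_num) (by norm_num) (by norm_num) (by norm_num) (by norm_num) (by norm_num) (by norm_num) (by norm_num) (by norm_num) (by norm_num) (by norm_num)
    (exp_neg_leJ (r := 0.068) 9 (by norm_num) (by norm_num) (by norm_num) (by norm_num))
    (exp_neg_leJ (r := 0.24) 6 (by norm_num) (by norm_num) (by norm_num) (by norm_num))
    (exp_neg_leJ (r := 0.99) 14 (by norm_num) (by norm_num) (by norm_num) (by norm_num))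
    (exp_neg_leJ (r := 0.99) 14 (by norm_num) (by norm_num) (by norm_num) (by norm_num))
    (exp_neg_leJ (r := 0.668) 7 (by norm_num) (by norm_num) (by norm_num) (by norm_num))
    (exp_neg_leJ (r := 0.99) 14 (by norm_num) (by norm_num) (by norm_num) (by norm_num))
    (exp_neg_leJ (r := 0.99) 14 (by norm_num) (by norm_num) (by norm_num) (by norm_num))
    (exp_neg_leJ (r := 0.99) 14 (by norm_num) (by norm_num) (by norm_num) (by norm_num))
    (by norm_num)) (by norm_num) hN hβ.le (by norm_num)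

private theorem T3_01_d0_2_c0 {κ t β : ℝ} (h : DomR κ t) (hβ : 0 < β) (hk1 : 0.3 ≤ κ) (hk2 : κ ≤ 0.32)
    (ht1 : -0.8994 ≤ t + κ) (ht2 : t + κ ≤ -0.71239) (hR0 : β * 10 ≤ κ) (hR : β * (1 * (1 + κ ^ 2)) ≤ κ) :
    ∀ s : ℂ, ‖s - sg κ t‖ ≤ 0.05 → ‖HH β s - 1‖ ≤ 0.105 := by
  have hN : β * 31.249 ≤ 1 := bNR hβ h.1 hk2 hR0 (by norm_num)
  have hy1 : -0.38 ≤ sy κ t := syL_ang2 h 0.3 0.32 0.8994 0.947 0.5841 0.8119 0.38 1.46228 0.68386 hk1 hk2 (by linarith) (by norm_num) (by norm_num) (by norm_num) (by norm_num)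
    (cos_ge_num (by norm_num) (by norm_num)) (sin_le_num (by norm_num) (by norm_num))
    (expn_ge (by norm_num) (by norm_num)) (expm_ge (by norm_num) (by norm_num) (by norm_num) (by norm_num)) (by norm_num) (by norm_num) (by norm_num)
    (by norm_num) (by norm_num) (by norm_num)
  have hy2 : sy κ t ≤ -0.251 := syL_le h 0.3 0.32 0.71239 0.251 0.77802 0.77803 0.61025 0.65096 hk1 hk2 (by linarith) (by norm_num) (by norm_num) (by norm_num)
    (expm_ge (by norm_num) (by norm_num) (by norm_num) (by norm_num)) (expm_le (by norm_num) (by norm_num) (by norm_num)) (by norm_num)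
    (by norm_num) (by norm_num) (by norm_num) (by norm_num) (by norm_num) (by norm_num)
  intro s hs
  have hs' : ‖s - ((sx κ t : ℂ) + (sy κ t : ℂ) * I)‖ ≤ 0.05 := hs
  obtain ⟨es, ⟨s1, s2⟩, ⟨s3, s4⟩⟩ := disc_split hs'
  rcases le_total (sy κ t) (-0.36) with f0 | g0
  · have hx1 : 0.2012 ≤ sx κ t := sx_lo h 0.3 (-0.36) 0.38 1.43332 0.2012 hk1 (by norm_num) f0 (abs_le.2 ⟨by linarith, by linarith⟩) (by rw [neg_neg]; exact expn_ge (by norm_num) (by norm_num)) (by norm_num) (by norm_num)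
    have hx2 : sx κ t ≤ 0.299 := sx_hi h 0.32 (-0.38) 0.36 1.46229 0.299 hk2 hy1 (by norm_num) (by rw [abs_of_nonpos (by linarith)]; linarith) (by rw [neg_neg]; exact expn_le (by norm_num) (by norm_num) (by norm_num)) (by norm_num) (by norm_num)
    rw [es]
    exact T3_01_d0_2_b0_0 hβ hN (by linarith) (by linarith) (by linarith) (by linarith)
  rcases le_total (sy κ t) (-0.31) with f1 | g1
  · have hx1 : 0.1941 ≤ sx κ t := sx_lo h 0.3 (-0.31) 0.36 1.36342 0.1941 hk1 (by norm_num) f1 (abs_le.2 ⟨by linarith, by linarith⟩) (by rw [neg_neg]; exact expn_ge (by norm_num) (by norm_num)) (by norm_num) (by norm_num)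
    have hx2 : sx κ t ≤ 0.3381 := sx_hi h 0.32 (-0.36) 0.31 1.43333 0.3381 hk2 g0 (by norm_num) (by rw [abs_of_nonpos (by linarith)]; linarith) (by rw [neg_neg]; exact expn_le (by norm_num) (by norm_num) (by norm_num)) (by norm_num) (by norm_num)
    rw [es]
    exact T3_01_d0_2_b0_1 hβ hN (by linarith) (by linarith) (by linarith) (by linarith)
  have hx1 : 0.2293 ≤ sx κ t := sx_lo h 0.3 (-0.251) 0.31 1.28531 0.2293 hk1 (by norm_num) hy2 (abs_le.2 ⟨by linarith, by linarith⟩) (by rw [neg_neg]; exact expn_ge (by norm_num) (by norm_num)) (by norm_num) (by norm_num)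
  have hx2 : sx κ t ≤ 0.3569 := sx_hi h 0.32 (-0.31) 0.251 1.36343 0.3569 hk2 g1 (by norm_num) (by rw [abs_of_nonpos (by linarith)]; linarith) (by rw [neg_neg]; exact expn_le (by norm_num) (by norm_num) (by norm_num)) (by norm_num) (by norm_num)
  rw [es]
  exact T3_01_d0_2_b0_2 hβ hN (by linarith) (by linarith) (by linarith) (by linarith)

private theorem T3_01_d0_2_b1_0 {β x y : ℝ} (hβ : 0 < β) (hN : β * 30.303 ≤ 1) (hx1 : 0.195 ≤ x) (hx2 : x ≤ 0.3643)
    (hy1 : -0.447 ≤ y) (hy2 : y ≤ -0.327) : ‖HH β (x + y * I) - 1‖ ≤ 0.105 := by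
  refine le_epsJ (C := 3.0585) (N0 := 30.303) (J_boxp 0.195 0.3643 0.447 0 (-0.327) 0.5299 0.5767 0.7653 2.268 0.3491 5.5049 30.303 1.0884 4.843 1.65 0.8673 0.2649 0.1688 0.3694 2.4331 0.2055 0.7699 0.7456 3.5344 0.0003266 0.006007 0.00001378 0.0000003101 0.001976 0.0000003101 0.0000003101 0.0000003101 3.0585
    hβ hN hx1 hx2 hy1 hy2 (by norm_num) (by norm_num) (by linarith) (by norm_num) (by norm_num) (by norm_num) (by norm_num) (by norm_num) (by norm_num) (by norm_num) (by norm_num) (by norm_num) (by norm_num) (by norm_num) (by norm_num) (by norm_num) (by norm_num) (by norm_num) (by norm_num) (by norm_num) (by norm_num) (by norm_num) (by norm_num) (by norm_num)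
    (cube_sqrt_geJ (s := 0.7982) (by norm_num) (by norm_num) (by norm_num) (by norm_num))
    (cube_sqrt_geJ (s := 0.9309) (by norm_num) (by norm_num) (by norm_num) (by norm_num))
    (by norm_num) (by norm_num) (by norm_num) (by norm_num) (by norm_num) (by norm_num) (by norm_num) (by norm_num) (by norm_num) (by norm_num) (by norm_num) (by norm_num) (by norm_num) (by norm_num) (by norm_num) (by norm_num) (by norm_num) (by norm_num)
    (exp_neg_leJ (r := 0.027) 8 (by norm_num) (by norm_num) (by norm_num) (by norm_num))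
    (exp_neg_leJ (r := 0.115) 5 (by norm_num) (by norm_num) (by norm_num) (by norm_num))
    (exp_neg_leJ (r := 0.193) 11 (by norm_num) (by norm_num) (by norm_num) (by norm_num))
    (exp_neg_leJ (r := 0.99) 14 (by norm_num) (by norm_num) (by norm_num) (by norm_num))
    (exp_neg_leJ (r := 0.227) 6 (by norm_num) (by norm_num) (by norm_num) (by norm_num))
    (exp_neg_leJ (r := 0.99) 14 (by norm_num) (by norm_num) (by norm_num) (by norm_num))
    (exp_neg_leJ (r := 0.99) 14 (by norm_num) (by norm_num) (by norm_num) (by norm_num))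
    (exp_neg_leJ (r := 0.99) 14 (by norm_num) (by norm_num) (by norm_num) (by norm_num))
    (by norm_num)) (by norm_num) hN hβ.le (by norm_num)

private theorem T3_01_d0_2_b1_1 {β x y : ℝ} (hβ : 0 < β) (hN : β * 30.303 ≤ 1) (hx1 : 0.1841 ≤ x) (hx2 : x ≤ 0.4029)
    (hy1 : -0.427 ≤ y) (hy2 : y ≤ -0.277) : ‖HH β (x + y * I) - 1‖ ≤ 0.105 := by
  refine le_epsJ (C := 3.1542) (N0 := 30.303) (J_boxp 0.1841 0.4029 0.427 0 (-0.277) 0.5364 0.5871 0.8277 2.3159 0.363 5.5049 30.303 1.0946 4.898 1.655 0.871 0.2681 0.1703 0.3972 2.4812 0.2111 0.7549 0.7781 3.4843 0.0002964 0.005742 0.000005928 0.0000003101 0.001669 0.0000003101 0.0000003101 0.0000003101 3.1542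
    hβ hN hx1 hx2 hy1 hy2 (by norm_num) (by norm_num) (by linarith) (by norm_num) (by norm_num) (by norm_num) (by norm_num) (by norm_num) (by norm_num) (by norm_num) (by norm_num) (by norm_num) (by norm_num) (by norm_num) (by norm_num) (by norm_num) (by norm_num) (by norm_num) (by norm_num) (by norm_num) (by norm_num) (by norm_num) (by norm_num) (by norm_num)
    (cube_sqrt_geJ (s := 0.7969) (by norm_num) (by norm_num) (by norm_num) (by norm_num))
    (cube_sqrt_geJ (s := 0.9305) (by norm_num) (by norm_num) (by norm_num) (by norm_num))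
    (by norm_num) (by norm_num) (by norm_num) (by norm_num) (by norm_num) (by norm_num) (by norm_num) (by norm_num) (by norm_num) (by norm_num) (by norm_num) (by norm_num) (by norm_num) (by norm_num) (by norm_num) (by norm_num) (by norm_num) (by norm_num)
    (exp_neg_leJ (r := 0.124) 8 (by norm_num) (by norm_num) (by norm_num) (by norm_num))
    (exp_neg_leJ (r := 0.16) 5 (by norm_num) (by norm_num) (by norm_num) (by norm_num))
    (exp_neg_leJ (r := 0.036) 12 (by norm_num) (by norm_num) (by norm_num) (by norm_num))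
    (exp_neg_leJ (r := 0.99) 14 (by norm_num) (by norm_num) (by norm_num) (by norm_num))
    (exp_neg_leJ (r := 0.396) 6 (by norm_num) (by norm_num) (by norm_num) (by norm_num))
    (exp_neg_leJ (r := 0.99) 14 (by norm_num) (by norm_num) (by norm_num) (by norm_num))
    (exp_neg_leJ (r := 0.99) 14 (by norm_num) (by norm_num) (by norm_num) (by norm_num))
    (exp_neg_leJ (r := 0.99) 14 (by norm_num) (by norm_num) (by norm_num) (by norm_num))
    (by norm_num)) (by norm_num) hN hβ.le (by norm_num)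

private theorem T3_01_d0_2_b1_2 {β x y : ℝ} (hβ : 0 < β) (hN : β * 30.303 ≤ 1) (hx1 : 0.2122 ≤ x) (hx2 : x ≤ 0.4196)
    (hy1 : -0.377 ≤ y) (hy2 : y ≤ -0.22) : ‖HH β (x + y * I) - 1‖ ≤ 0.105 := by
  refine le_epsJ (C := 1.8227) (N0 := 30.303) (J_boxp 0.2122 0.4196 0.377 0 (-0.22) 0.5917 0.5641 0.8857 2.0678 0.3755 5.5049 30.303 0.9534 3.814 1.545 0.9107 0.2958 0.2018 0.4858 2.6392 0.2521 0.7938 0.9703 3.6031 0.0001285 0.00221 0.0000004048 0.0000003101 0.0004816 0.0000003101 0.0000003101 0.0000003101 1.8227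
    hβ hN hx1 hx2 hy1 hy2 (by norm_num) (by norm_num) (by linarith) (by norm_num) (by norm_num) (by norm_num) (by norm_num) (by norm_num) (by norm_num) (by norm_num) (by norm_num) (by norm_num) (by norm_num) (by norm_num) (by norm_num) (by norm_num) (by norm_num) (by norm_num) (by norm_num) (by norm_num) (by norm_num) (by norm_num) (by norm_num) (by norm_num)
    (cube_sqrt_geJ (s := 0.8259) (by norm_num) (by norm_num) (by norm_num) (by norm_num))
    (cube_sqrt_geJ (s := 0.9398) (by norm_num) (by norm_num) (by norm_num) (by norm_num))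
    (by norm_num) (by norm_num) (by norm_num) (by norm_num) (by norm_num) (by norm_num) (by norm_num) (by norm_num) (by norm_num) (by norm_num) (by norm_num) (by norm_num) (by norm_num) (by norm_num) (by norm_num) (by norm_num) (by norm_num) (by norm_num)
    (exp_neg_leJ (r := 0.963) 8 (by norm_num) (by norm_num) (by norm_num) (by norm_num))
    (exp_neg_leJ (r := 0.115) 6 (by norm_num) (by norm_num) (by norm_num) (by norm_num))
    (exp_neg_leJ (r := 0.721) 14 (by norm_num) (by norm_num) (by norm_num) (by norm_num))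
    (exp_neg_leJ (r := 0.99) 14 (by norm_num) (by norm_num) (by norm_num) (by norm_num))
    (exp_neg_leJ (r := 0.639) 7 (by norm_num) (by norm_num) (by norm_num) (by norm_num))
    (exp_neg_leJ (r := 0.99) 14 (by norm_num) (by norm_num) (by norm_num) (by norm_num))
    (exp_neg_leJ (r := 0.99) 14 (by norm_num) (by norm_num) (by norm_num) (by norm_num))
    (exp_neg_leJ (r := 0.99) 14 (by norm_num) (by norm_num) (by norm_num) (by norm_num))
    (by norm_num)) (by norm_num) hN hβ.le (by norm_num)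

private theorem T3_01_d0_2_c1 {κ t β : ℝ} (h : DomR κ t) (hβ : 0 < β) (hk1 : 0.32 ≤ κ) (hk2 : κ ≤ 0.33)
    (ht1 : -0.8994 ≤ t + κ) (ht2 : t + κ ≤ -0.71239) (hR0 : β * 10 ≤ κ) (hR : β * (1 * (1 + κ ^ 2)) ≤ κ) :
    ∀ s : ℂ, ‖s - sg κ t‖ ≤ 0.05 → ‖HH β s - 1‖ ≤ 0.105 := by
  have hN : β * 30.303 ≤ 1 := bNR hβ h.1 hk2 hR0 (by norm_num)
  have hy1 : -0.397 ≤ sy κ t := syL_ang2 h 0.32 0.33 0.8994 0.941 0.5889 0.8083 0.397 1.48735 0.67233 hk1 hk2 (by linarith) (by norm_num) (by norm_num) (by norm_num) (by norm_num)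
    (cos_ge_num (by norm_num) (by norm_num)) (sin_le_num (by norm_num) (by norm_num))
    (expn_ge (by norm_num) (by norm_num)) (expm_ge (by norm_num) (by norm_num) (by norm_num) (by norm_num)) (by norm_num) (by norm_num) (by norm_num)
    (by norm_num) (by norm_num) (by norm_num)
  have hy2 : sy κ t ≤ -0.27 := syL_le h 0.32 0.33 0.71239 0.27 0.76337 0.76338 0.62457 0.64411 hk1 hk2 (by linarith) (by norm_num) (by norm_num) (by norm_num)
    (expm_ge (by norm_num) (by norm_num) (by norm_num) (by norm_num)) (expm_le (by norm_num) (by norm_num) (by norm_num)) (by norm_num)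
    (by norm_num) (by norm_num) (by norm_num) (by norm_num) (by norm_num) (by norm_num)
  intro s hs
  have hs' : ‖s - ((sx κ t : ℂ) + (sy κ t : ℂ) * I)‖ ≤ 0.05 := hs
  obtain ⟨es, ⟨s1, s2⟩, ⟨s3, s4⟩⟩ := disc_split hs'
  rcases le_total (sy κ t) (-0.377) with f0 | g0
  · have hx1 : 0.245 ≤ sx κ t := sx_lo h 0.32 (-0.377) 0.397 1.4579 0.245 hk1 (by norm_num) f0 (abs_le.2 ⟨by linarith, by linarith⟩) (by rw [neg_neg]; exact expn_ge (by norm_num) (by norm_num)) (by norm_num) (by norm_num)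
    have hx2 : sx κ t ≤ 0.3143 := sx_hi h 0.33 (-0.397) 0.377 1.48736 0.3143 hk2 hy1 (by norm_num) (by rw [abs_of_nonpos (by linarith)]; linarith) (by rw [neg_neg]; exact expn_le (by norm_num) (by norm_num) (by norm_num)) (by norm_num) (by norm_num)
    rw [es]
    exact T3_01_d0_2_b1_0 hβ hN (by linarith) (by linarith) (by linarith) (by linarith)
  rcases le_total (sy κ t) (-0.327) with f1 | g1
  · have hx1 : 0.2341 ≤ sx κ t := sx_lo h 0.32 (-0.327) 0.377 1.3868 0.2341 hk1 (by norm_num) f1 (abs_le.2 ⟨by linarith, by linarith⟩) (by rw [neg_neg]; exact expn_ge (by norm_num) (by norm_num)) (by norm_num) (by norm_num)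
    have hx2 : sx κ t ≤ 0.3529 := sx_hi h 0.33 (-0.377) 0.327 1.45791 0.3529 hk2 g0 (by norm_num) (by rw [abs_of_nonpos (by linarith)]; linarith) (by rw [neg_neg]; exact expn_le (by norm_num) (by norm_num) (by norm_num)) (by norm_num) (by norm_num)
    rw [es]
    exact T3_01_d0_2_b1_1 hβ hN (by linarith) (by linarith) (by linarith) (by linarith)
  have hx1 : 0.2622 ≤ sx κ t := sx_lo h 0.32 (-0.27) 0.327 1.30996 0.2622 hk1 (by norm_num) hy2 (abs_le.2 ⟨by linarith, by linarith⟩) (by rw [neg_neg]; exact expn_ge (by norm_num) (by norm_num)) (by norm_num) (by norm_num)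
  have hx2 : sx κ t ≤ 0.3696 := sx_hi h 0.33 (-0.327) 0.27 1.38681 0.3696 hk2 g1 (by norm_num) (by rw [abs_of_nonpos (by linarith)]; linarith) (by rw [neg_neg]; exact expn_le (by norm_num) (by norm_num) (by norm_num)) (by norm_num) (by norm_num)
  rw [es]
  exact T3_01_d0_2_b1_2 hβ hN (by linarith) (by linarith) (by linarith) (by linarith)

theorem T3_01_d0_2 {κ t β : ℝ} (h : DomR κ t) (hβ : 0 < β) (hk1 : 0.3 ≤ κ) (hk2 : κ ≤ 0.33)
    (ht1 : -0.8994 ≤ t + κ) (ht2 : t + κ ≤ -0.71239) (hR0 : β * 10 ≤ κ) (hR : β * (1 * (1 + κ ^ 2)) ≤ κ) :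
    ∀ s : ℂ, ‖s - sg κ t‖ ≤ 0.05 → ‖HH β s - 1‖ ≤ 0.105 := by
  rcases le_total κ 0.32 with f0 | g0
  · exact T3_01_d0_2_c0 h hβ hk1 f0 ht1 ht2 hR0 hR
  exact T3_01_d0_2_c1 h hβ g0 hk2 ht1 ht2 hR0 hR

private theorem T3_01_d1_2_b0_0 {β x y : ℝ} (hβ : 0 < β) (hN : β * 30.303 ≤ 1) (hn : ‖(x + y * I : ℂ)‖ ≤ 0.331) : ‖HH β (x + y * I) - 1‖ ≤ 0.03 := by
  refine le_epsJ (C := 0.4453) (N0 := 30.303) (J45_genN (N := 30.303) (r0 := 5.5049) (f := 2.6809) (n0 := 0.331) (a := 0.669) (wL := 1.588) (wR := 1.867)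
    (E1 := 0.003369) (E2 := 0.0000003101) (E3 := 0.01188) (E4 := 0.0000008916) (E5 := 0.0000003101) hβ (by norm_num) hN
    (by norm_num) (by norm_num) (by norm_num) hn (by norm_num) (by norm_num) (by norm_num)
    (cube_sqrt_geJ (s := 0.9361) (by norm_num) (by norm_num) (by norm_num) (by norm_num))
    (cube_sqrt_geJ (s := 0.9147) (by norm_num) (by norm_num) (by norm_num) (by norm_num))
    (exp_neg_leJ (r := 0.694) 5 (by norm_num) (by norm_num) (by norm_num) (by norm_num))
    (exp_neg_leJ (r := 0.99) 14 (by norm_num) (by norm_num) (by norm_num) (by norm_num))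
    (exp_neg_leJ (r := 0.433) 4 (by norm_num) (by norm_num) (by norm_num) (by norm_num))
    (exp_neg_leJ (r := 0.933) 13 (by norm_num) (by norm_num) (by norm_num) (by norm_num))
    (exp_neg_leJ (r := 0.99) 14 (by norm_num) (by norm_num) (by norm_num) (by norm_num))
    (by norm_num)) (by norm_num) hN hβ.le (by norm_num)

private theorem T3_01_d1_2_c0 {κ t β : ℝ} (h : DomR κ t) (hβ : 0 < β) (hk1 : 0.3 ≤ κ) (hk2 : κ ≤ 0.33)
    (ht1 : 1.195 ≤ t + κ) (ht2 : t + κ ≤ 1.382) (hR0 : β * 10 ≤ κ) (hR : β * (1 * (1 + κ ^ 2)) ≤ κ) :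
    ∀ s : ℂ, ‖s - sg κ t‖ ≤ 0.06 → ‖HH β s - 1‖ ≤ 0.03 := by
  have hN : β * 30.303 ≤ 1 := bNR hβ h.1 hk2 hR0 (by norm_num)
  have hy1 : 0.197 ≤ sy κ t := syR_ge h 0.3 0.33 1.195 0.197 1.21774 1.21775 0.72695 0.79966 hk1 hk2 (by linarith) (by norm_num) (by norm_num)
    (expn_ge (by norm_num) (by norm_num)) (expn_le (by norm_num) (by norm_num) (by norm_num)) (by norm_num)
    (by norm_num) (by norm_num) (by norm_num) (by norm_num) (by norm_num) (by norm_num)
  have hy2 : sy κ t ≤ 0.24 := syR_ang2 h 0.3 0.33 1.382 1.178 0.3864 0.9245 0.24 0.78663 1.27124 hk1 hk2 (by linarith) (by norm_num) (by norm_num) (by norm_num)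
    (cos_le_num (by norm_num)) (sin_le_num (by norm_num) (by norm_num)) (expm_le (by norm_num) (by norm_num) (by norm_num))
    (expn_ge (by norm_num) (by norm_num)) (by norm_num) (by norm_num) (by norm_num) (by norm_num) (by norm_num)
  intro s hs
  have hs' : ‖s - ((sx κ t : ℂ) + (sy κ t : ℂ) * I)‖ ≤ 0.06 := hs
  obtain ⟨es, ⟨s1, s2⟩, ⟨s3, s4⟩⟩ := disc_split hs'
  rw [es]
  refine T3_01_d1_2_b0_0 hβ hN ?_
  rw [← es]
  exact disc_norm hs' (norm_sg_le h 0.33 0.197 0.8212 (0.331 - 0.06) hk2 hy1 (expm_le (by norm_num) (by norm_num) (by norm_num)) (by norm_num))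

theorem T3_01_d1_2 {κ t β : ℝ} (h : DomR κ t) (hβ : 0 < β) (hk1 : 0.3 ≤ κ) (hk2 : κ ≤ 0.33)
    (ht1 : 1.195 ≤ t + κ) (ht2 : t + κ ≤ 1.382) (hR0 : β * 10 ≤ κ) (hR : β * (1 * (1 + κ ^ 2)) ≤ κ) :
    ∀ s : ℂ, ‖s - sg κ t‖ ≤ 0.06 → ‖HH β s - 1‖ ≤ 0.03 := by
  exact T3_01_d1_2_c0 h hβ hk1 hk2 ht1 ht2 hR0 hR

end Sok
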