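import Pool.Agent.Lib.MP_816dec_an.R1b3D
import Pool.Agent.Lib.MP_816dec_an.R1b3J01

/-!
MP_816dec_an (A3, row R1, b = 3): the cell `0.3 ≤ κ ≤ 0.33`.
-/

set_option autoImplicit false
set_option maxHeartbeats 4000000
set_option linter.unusedVariables false

open Complex Set

namespace Sok

namespace B3_01

private theorem yL {κ t : ℝ} (h : DomR κ t) (hk1 : 0.3 ≤ κ) (hk2 : κ ≤ 0.33) (ht1 : 0 ≤ t + κ) (ht2 : t + κ ≤ 1.095) :
    0 ≤ sy κ t ∧ sy κ t ≤ 0.215 := by
  have hy1 : 0 ≤ sy κ t := sy_nonneg h (by linarith)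
  have hy2 : sy κ t ≤ 0.215 := syR_ang2 h 0.3 0.33 1.095 0.94 0.5908 0.8077 0.215 0.80655 1.23986 hk1 hk2 (by linarith) (by norm_num) (by norm_num) (by norm_num)
    (cos_le_num (by norm_num)) (sin_le_num (by norm_num) (by norm_num)) (expm_le (by norm_num) (by norm_num) (by norm_num))
    (expn_ge (by norm_num) (by norm_num)) (by norm_num) (by norm_num) (by norm_num) (by norm_num) (by norm_num)
  exact ⟨hy1, hy2⟩

theorem left {β r h t κ : ℝ} (hh : h = 2 * Real.pi / (3 : ℕ)) (hβ : 0 < β) (hr : 10 ≤ r) (hκ : κ = β * r)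
    (hk1 : 0.3 ≤ κ) (hk2 : κ ≤ 0.33) (hT1 : 0 ≤ t + κ) (hT2 : t + κ ≤ 1.095) :
    ‖Xf β r h t (-1)‖ < |‖Xf β r h t 1‖ - ‖Xf β r h t 0‖| := by
  obtain ⟨q1, q2, q3⟩ := b3_h hh
  have hR0 := b3_R0 hβ hr hκ
  have hR := b3_R hβ hr hκ (by linarith)
  have hD1 : DomR κ t := b3_dom (by linarith) (by linarith) (Or.inr (by linarith))
  have hy := yL hD1 hk1 hk2 (by linarith) (by linarith)
  have hY : 0.8899 * Real.exp (r * 0.5795) ≤ ‖Xf β r h t 1‖ :=
    b3_lo hβ hr hκ (k := 1) (t' := t) (by push_cast; ring) hD1 0.015 1.5009 0.8899 0.5795 (by norm_num)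
      (T3_01_p1 hD1 hβ hk1 hk2 (by linarith) (by linarith) hR0 hR)
      (v5_Dup hD1 0.33 0 0.215 1 0.80655 1.5009 hk2 hy.1 hy.2 (ex_up 0 (by norm_num) (by norm_num) (by norm_num) (by norm_num)) (ex_um 0.215 (by norm_num) (by norm_num) (by norm_num) (by norm_num)) (by norm_num) (by norm_num) (by norm_num)) (by norm_num) (by norm_num)
      (b3_Vlo hD1 0.3 0.33 0 1.095 0.48 (-0.73396) 0.939 0.59058 0.52666 0.5795 hk1 hk2 (by linarith) (by linarith) (by norm_num) (ex_lm 0.73396 (by norm_num) (by norm_num) (by norm_num) (by norm_num) (by norm_num)) (by norm_num) (by norm_num) (by norm_num) (by norm_num) (by norm_num) (by norm_num) (by norm_num) (by norm_num) (ex_um 0.52666 (by norm_num) (by norm_num) (by norm_num) (by norm_num)) (by norm_num))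
  have h0 : ‖Xf β r h t 0‖ ≤ 0.8972 * ‖Xf β r h t 1‖ :=
    b3_cmp 0.2467 0.14004 0.08682 0.24451 0.660676 0.236519 0.8972 hr (b3_HU0 1.05 0.3 0.33 (-2.0944) (-0.99939) 1.48881 1.37026 1.41411 0.72979 0.70716 1.37025 2.3832 0.07248 1.39708 2.2876 0.27141 0.33499 0.000001 2.4243 0.43946 hβ hr hκ (by norm_num) hk1 hk2 (by norm_num) (by linarith) (by linarith) (by norm_num) (by norm_num) (ex_up 0.315 (by norm_num) (by norm_num) (by norm_num) (by norm_num)) (ex_up 0.3465 (by norm_num) (by norm_num) (by norm_num) (by norm_num)) (ex_um 0.315 (by norm_num) (by norm_num) (by norm_num) (by norm_num)) (ex_um 0.3465 (by norm_num) (by norm_num) (by norm_num) (by norm_num)) (by norm_num) (by norm_num) (ex_lp 0.315 (by norm_num) (by norm_num) (by norm_num)) (by norm_num) (by norm_num) (by norm_num) (by norm_num) (by norm_num) (by norm_num) (by norm_num) (by norm_num) (by norm_num) (by norm_num) (by norm_num) (by norm_num) (by norm_num) (by norm_num) (v5_hump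 6.0113 30.303 5.5049 0.0000003148 0.000001 hβ hr hκ hk1 hk2 (by norm_num) (tb := (-0.99939)) (by linarith) (by norm_num) (by norm_num) (by norm_num) (by norm_num) (by norm_num) (by norm_num) (by norm_num) (ex_un 14 0.99 (by norm_num) (by norm_num) (by norm_num) (by norm_num)) (by norm_num)) (by norm_num) (by norm_num)) hY (by norm_num) (by norm_num) (by norm_num) (by norm_num) (by norm_num) (ex_un 1 0.4004 (by norm_num) (by norm_num) (by norm_num) (by norm_num)) (by norm_num) (by norm_num) (by norm_num) (ex_un 2 0.4451 (by norm_num) (by norm_num) (by norm_num) (by norm_num)) (by norm_num) (by norm_num)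
  have h2 : ‖Xf β r h t (-1)‖ ≤ 0.0057 * ‖Xf β r h t 1‖ := by
    exact b3_cmp 1 0 0.005018 0.5295 0 0.005607 0.0057 hr ((b3_Xm hh).trans_le (b3_U1 0.3 0.33 2.09439 3.1894 0.19359 0.07248 1.39708 0.1919 0.07765 1.3773 0.000001 0.9943 hβ hr hκ (by norm_num) hk1 hk2 (by linarith) (by linarith) (by norm_num) (by norm_num) (by norm_num) (by norm_num) (by norm_num) (by norm_num) (by norm_num) (by norm_num) (by norm_num) (by norm_num) (by norm_num) (by norm_num) (by norm_num) (ex_un 1 0.919 (by norm_num) (by norm_num) (by norm_num) (by norm_num)) (v5_hump 1.8226 30.303 5.5049 0.0000003148 0.000001 hβ hr hκ hk1 hk2 (by norm_num) (tb := 3.1894) (by linarith) (by norm_num) (by norm_num) (by norm_num) (by norm_num) (by norm_num) (by norm_num) (by norm_num) (ex_un 14 0.99 (by norm_num) (by norm_num) (by norm_num) (by norm_num)) (by norm_num)) (by norm_num))) hY (by norm_num) (by norm_num) (by norm_num) (by norm_num) (by norm_num) (by norm_num) (by norm_num)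 (by norm_num) (by norm_num) (ex_un 5 0.295 (by norm_num) (by norm_num) (by norm_num) (by norm_num)) (by norm_num) (by norm_num)
  exact b3_out1 0.8972 0.0057 hY (by norm_num) h0 h2 (by norm_num)

private theorem yR0 {κ t : ℝ} (h : DomR κ t) (hk1 : 0.3 ≤ κ) (hk2 : κ ≤ 0.33) (ht1 : -0.7124 ≤ t + κ) (ht2 : t + κ ≤ 0.0001) :
    (-0.287) ≤ sy κ t ∧ sy κ t ≤ 0.005 := by
  have hy1 : -0.287 ≤ sy κ t := syL_ang2 h 0.3 0.33 0.7124 0.711 0.7577 0.6527 0.287 1.33242 0.75051 hk1 hk2 (by linarith) (by norm_num) (by norm_num) (by norm_num) (by norm_num)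
    (cos_ge_num (by norm_num) (by norm_num)) (sin_le_num (by norm_num) (by norm_num))
    (expn_ge (by norm_num) (by norm_num)) (expm_ge (by norm_num) (by norm_num) (by norm_num) (by norm_num)) (by norm_num) (by norm_num) (by norm_num)
    (by norm_num) (by norm_num) (by norm_num)
  have hy2 : sy κ t ≤ 0.005 := syR_le h 0.3 0.33 0.0001 0.005 1.00501 0.0148 0.01522 0.01676 hk1 hk2 (by linarith) (by norm_num) (by norm_num)
    (expn_ge (by norm_num) (by norm_num)) (by norm_num) (by norm_num) (Or.inr ((mul_le_mul_of_nonneg_left (expn_le (E := 1.00502) (by norm_num) (by norm_num) (by norm_num)) (by norm_num)).trans (by norm_num))) (by norm_num) (by norm_num) (by norm_num)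
  exact ⟨hy1, hy2⟩

theorem right0 {β r h t κ : ℝ} (hh : h = 2 * Real.pi / (3 : ℕ)) (hβ : 0 < β) (hr : 10 ≤ r) (hκ : κ = β * r)
    (hk1 : 0.3 ≤ κ) (hk2 : κ ≤ 0.33) (hT1 : 1.382 ≤ t + κ) (hT2 : t + κ ≤ h) :
    ‖Xf β r h t (-1)‖ < |‖Xf β r h t 1‖ - ‖Xf β r h t 0‖| := by
  obtain ⟨q1, q2, q3⟩ := b3_h hh
  have hR0 := b3_R0 hβ hr hκ
  have hR := b3_R hβ hr hκ (by linarith)
  have hD0 : DomR κ (t - h) := b3_dom (by linarith) (by linarith) (Or.inr (by linarith))
  have hy := yR0 hD0 hk1 hk2 (by linarith) (by linarith)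
  have hY : 0.9482 * Real.exp (r * 0.72132) ≤ ‖Xf β r h t 0‖ :=
    b3_lo hβ hr hκ (k := 0) (t' := t - h) (by push_cast; ring) hD0 0.025 1.1179 0.9482 0.72132 (by norm_num)
      (T3_01_p0R hD0 hβ hk1 hk2 (by linarith) (by linarith) hR0 hR)
      (v5_Dup hD0 0.33 (-0.287) 0.005 1.33243 0.99502 1.1179 hk2 hy.1 hy.2 (ex_up 0.287 (by norm_num) (by norm_num) (by norm_num) (by norm_num)) (ex_um 0.005 (by norm_num) (by norm_num) (by norm_num) (by norm_num)) (by norm_num) (by norm_num) (by norm_num)) (by norm_num) (by norm_num)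
      (b3_Vlo hD0 0.3 0.33 (-0.7124) 0.0001 1 0.00001 0.7124 0.75679 0.27867 0.72132 hk1 hk2 (by linarith) (by linarith) (by norm_num) (ex_lp 0.00001 (by norm_num) (by norm_num) (by norm_num)) (by norm_num) (by norm_num) (by norm_num) (by norm_num) (by norm_num) (by norm_num) (by norm_num) (by norm_num) (ex_um 0.27867 (by norm_num) (by norm_num) (by norm_num) (by norm_num)) (by norm_num))
  have h1 : ‖Xf β r h t 1‖ ≤ 0.1574 * ‖Xf β r h t 0‖ := by
    rcases le_total (t + κ) 1.67 with g0 | g0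
    · exact b3_cmp 0.04371 0.31303 0.0007369 0.72132 0.1573 0.000078 0.1574 hr (b3_X1.trans_le (b3_HF 0.65 0.3 0.33 1.382 1.67 1.30659 0.82284 0.80695 1.21532 1.23925 0.80694 3.2337 0.07248 2.6227 0.2007 0.07107 0.4943 0.000001 3.4123 0.1002 0.40829 hβ hr hκ (by norm_num) hk1 hk2 (by norm_num) (by linarith) (by linarith) (by norm_num) (ex_um 0.195 (by norm_num) (by norm_num) (by norm_num) (by norm_num)) (ex_um 0.2145 (by norm_num) (by norm_num) (by norm_num) (by norm_num)) (ex_up 0.195 (by norm_num) (by norm_num) (by norm_num) (by norm_num)) (ex_up 0.2145 (by norm_num) (by norm_num) (by norm_num) (by norm_num)) (by norm_num) (by norm_num) (ex_lm 0.2145 (by norm_num) (by norm_num) (by norm_num) (by norm_num) (by norm_num)) (by norm_num) (by norm_num) (by norm_num) (by norm_num) (by norm_num) (by norm_num) (by norm_num) (by norm_num) (by norm_num) (by norm_num) (by norm_num) (by norm_num) (ex_un 0 0.7107 (by norm_num) (by norm_num) (by norm_num)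 (by norm_num)) (v5_hump 3.342 30.303 5.5049 0.0000003148 0.000001 hβ hr hκ hk1 hk2 (by norm_num) (tb := 1.67) (by linarith) (by norm_num) (by norm_num) (by norm_num) (by norm_num) (by norm_num) (by norm_num) (by norm_num) (ex_un 14 0.99 (by norm_num) (by norm_num) (by norm_num) (by norm_num)) (by norm_num)) (by norm_num) (by norm_num) (by norm_num))) hY (by norm_num) (by norm_num) (by norm_num) (by norm_num) (by norm_num) (ex_un 3 0.1303 (by norm_num) (by norm_num) (by norm_num) (by norm_num)) (by norm_num) (by norm_num) (by norm_num) (ex_un 7 0.2132 (by norm_num) (by norm_num) (by norm_num) (by norm_num)) (by norm_num) (by norm_num)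
    exact b3_cmp 1 0 0.01481 0.42132 0 0.094902 0.1574 hr (b3_w (b3_UD1 0.3 0.33 1.67 2.0944 0.25 0.72838 0.25 3.1677 6.076 0.3 hβ hr hκ (by norm_num) hk1 hk2 (by linarith) (by linarith) (by norm_num) (by norm_num) (by norm_num) (by norm_num) (by norm_num) (by norm_num) (by norm_num) (by norm_num) (by norm_num) (by norm_num) (by norm_num) (by norm_num) (by norm_num))) hY (by norm_num) (by norm_num) (by norm_num) (by norm_num) (by norm_num) (by norm_num) (by norm_num) (by norm_num) (by norm_num) (ex_un 4 0.2132 (by norm_num) (by norm_num) (by norm_num) (by norm_num)) (by norm_num) (by norm_num)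
  have h2 : ‖Xf β r h t (-1)‖ ≤ 0.0008 * ‖Xf β r h t 0‖ := by
    exact b3_cmp 1 0 0.001223 0.67132 0 0.00072 0.0008 hr ((b3_Xm hh).trans_le (b3_U1 0.3 0.33 3.47639 4.1888 1.57559 0.07248 1.39708 0.7335 0.00009 0.7473 0.000001 0.5576 hβ hr hκ (by norm_num) hk1 hk2 (by linarith) (by linarith) (by norm_num) (by norm_num) (by norm_num) (by norm_num) (by norm_num) (by norm_num) (by norm_num) (by norm_num) (by norm_num) (by norm_num) (by norm_num) (by norm_num) (by norm_num) (ex_un 7 0.335 (by norm_num) (by norm_num) (by norm_num) (by norm_num)) (v5_hump 0.8232 30.303 5.5049 0.0000003148 0.000001 hβ hr hκ hk1 hk2 (by norm_num) (tb := 4.1888) (by linarith) (by norm_num) (by norm_num) (by norm_num) (by norm_num) (by norm_num) (by norm_num) (by norm_num) (ex_un 14 0.99 (by norm_num) (by norm_num) (by norm_num) (by norm_num)) (by norm_num)) (by norm_num))) hY (by norm_num) (by norm_num) (by norm_num) (by norm_num) (by norm_num) (by norm_num) (by norm_num)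 (by norm_num) (by norm_num) (ex_un 6 0.7132 (by norm_num) (by norm_num) (by norm_num) (by norm_num)) (by norm_num) (by norm_num)
  exact b3_out0 0.1574 0.0008 hY (by norm_num) h1 h2 (by norm_num)

private theorem yI {κ t : ℝ} (h : DomR κ t) (hk1 : 0.3 ≤ κ) (hk2 : κ ≤ 0.33) (ht1 : -0.9994 ≤ t + κ) (ht2 : t + κ ≤ -0.71239) :
    (-0.465) ≤ sy κ t ∧ sy κ t ≤ (-0.251) := by
  have hy1 : -0.465 ≤ sy κ t := syL_ang2 h 0.3 0.33 0.9994 1.085 0.4668 0.8847 0.465 1.59201 0.62813 hk1 hk2 (by linarith) (by norm_num) (by norm_num) (by norm_num) (by norm_num)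
    (cos_ge_num (by norm_num) (by norm_num)) (sin_le_num (by norm_num) (by norm_num))
    (expn_ge (by norm_num) (by norm_num)) (expm_ge (by norm_num) (by norm_num) (by norm_num) (by norm_num)) (by norm_num) (by norm_num) (by norm_num)
    (by norm_num) (by norm_num) (by norm_num)
  have hy2 : sy κ t ≤ -0.251 := syL_le h 0.3 0.33 0.71239 0.251 0.77802 0.77803 0.59176 0.65096 hk1 hk2 (by linarith) (by norm_num) (by norm_num) (by norm_num)
    (expm_ge (by norm_num) (by norm_num) (by norm_num) (by norm_num)) (expm_le (by norm_num) (by norm_num) (by norm_num)) (by norm_num)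
    (by norm_num) (by norm_num) (by norm_num) (by norm_num) (by norm_num) (by norm_num)
  exact ⟨hy1, hy2⟩

theorem innE {β r h t κ : ℝ} (hh : h = 2 * Real.pi / (3 : ℕ)) (hβ : 0 < β) (hr : 10 ≤ r) (hκ : κ = β * r)
    (hk1 : 0.3 ≤ κ) (hk2 : κ ≤ 0.33) (hT1 : 1.095 ≤ t + κ) (hT2 : t + κ ≤ 1.382) :
    ‖Xf β r h t (-1)‖ ≤ 0.01743 * ‖Xf β r h t 0‖ ∧ ‖Xf β r h (t + β) (-1)‖ ≤ 0.01743 * ‖Xf β r h t 0‖ := by
  obtain ⟨q1, q2, q3⟩ := b3_h hh
  have hR0 := b3_R0 hβ hr hκ
  have hR := b3_R hβ hr hκ (by linarith)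
  have hD0 : DomR κ (t - h) := b3_dom (by linarith) (by linarith) (Or.inr (by linarith))
  have hy := yI hD0 hk1 hk2 (by linarith) (by linarith)
  have hY : 0.9973 * Real.exp (r * 0.39883) ≤ ‖Xf β r h t 0‖ :=
    b3_lo hβ hr hκ (k := 0) (t' := t - h) (by push_cast; ring) hD0 0.095 0.678 0.9973 0.39883 (by norm_num)
      (T3_01_p0 hD0 hβ hk1 hk2 (by linarith) (by linarith) hR0 hR)
      (v5_Dup hD0 0.33 (-0.465) (-0.251) 1.59202 1.28532 0.678 hk2 hy.1 hy.2 (ex_up 0.465 (by norm_num) (by norm_num) (by norm_num) (by norm_num)) (ex_up 0.251 (by norm_num) (by norm_num) (by norm_num) (by norm_num)) (by norm_num) (by norm_num) (by norm_num)) (by norm_num) (by norm_num)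
      (b3_Vlo hD0 0.3 0.33 (-0.9994) (-0.71239) 0.74 (-0.3011) 1.0852 0.46668 0.76213 0.39883 hk1 hk2 (by linarith) (by linarith) (by norm_num) (ex_lm 0.3011 (by norm_num) (by norm_num) (by norm_num) (by norm_num) (by norm_num)) (by norm_num) (by norm_num) (by norm_num) (by norm_num) (by norm_num) (by norm_num) (by norm_num) (by norm_num) (ex_um 0.76213 (by norm_num) (by norm_num) (by norm_num) (by norm_num)) (by norm_num))
  constructor
  · exact b3_cmp 1 0 0.03061 0.34883 0 0.017425 0.01743 hr ((b3_Xm hh).trans_le (b3_U1 0.3 0.33 3.18939 3.4764 1.28859 0.07248 1.39708 0.9604 0.00001 0.2823 0.000001 0.5677 hβ hr hκ (by norm_num) hk1 hk2 (by linarith) (by linarith) (by norm_num) (by norm_num) (by norm_num) (by norm_num) (by norm_num) (by norm_num) (by norm_num) (by norm_num) (by norm_num) (by norm_num) (by norm_num) (by norm_num) (by norm_num) (ex_un 9 0.604 (by norm_num) (by norm_num) (by norm_num) (by norm_num)) (v5_hump 1.5356 30.303 5.5049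 0.0000003148 0.000001 hβ hr hκ hk1 hk2 (by norm_num) (tb := 3.4764) (by linarith) (by norm_num) (by norm_num) (by norm_num) (by norm_num) (by norm_num) (by norm_num) (by norm_num) (ex_un 14 0.99 (by norm_num) (by norm_num) (by norm_num) (by norm_num)) (by norm_num)) (by norm_num))) hY (by norm_num) (by norm_num) (by norm_num) (by norm_num) (by norm_num) (by norm_num) (by norm_num) (by norm_num) (by norm_num) (ex_un 3 0.4883 (by norm_num) (by norm_num) (by norm_num) (by norm_num)) (by norm_num) (by norm_num)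
  · exact b3_cmp 1 0 0.03061 0.34883 0 0.017425 0.01743 hr ((b3_Xm hh).trans_le (b3_U1 0.3 0.33 3.18939 3.5094 1.28859 0.07248 1.39708 0.9604 0.00001 0.2823 0.000001 0.5677 hβ hr hκ (by norm_num) hk1 hk2 (by linarith) (by linarith) (by norm_num) (by norm_num) (by norm_num) (by norm_num) (by norm_num) (by norm_num) (by norm_num) (by norm_num) (by norm_num) (by norm_num) (by norm_num) (by norm_num) (by norm_num) (ex_un 9 0.604 (by norm_num) (by norm_num) (by norm_num) (by norm_num)) (v5_hump 1.5026 30.303 5.5049 0.0000003148 0.000001 hβ hr hκ hk1 hk2 (by norm_num) (tb := 3.5094) (by linarith) (by norm_num) (by norm_num) (by norm_num) (by norm_num) (by norm_num) (by norm_num) (by norm_num) (ex_un 14 0.99 (by norm_num) (by norm_num) (by norm_num) (by norm_num)) (by norm_num)) (by norm_num))) hY (by norm_num) (by norm_num) (by norm_num) (by norm_num) (by norm_num) (by norm_num) (by norm_num) (by norm_num) (by norm_num) (ex_un 3 0.4883 (by norm_num)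 (by norm_num) (by norm_num) (by norm_num)) (by norm_num) (by norm_num)

private theorem yA0 {κ t : ℝ} (h : DomR κ t) (hk1 : 0.3 ≤ κ) (hk2 : κ ≤ 0.33) (ht1 : 1.095 ≤ t + κ) (ht2 : t + κ ≤ 1.11) :
    0.197 ≤ sy κ t ∧ sy κ t ≤ 0.217 := by
  have hy1 : 0.197 ≤ sy κ t := syR_ge h 0.3 0.33 1.095 0.197 1.21774 1.21775 0.72695 0.79966 hk1 hk2 (by linarith) (by norm_num) (by norm_num)
    (expn_ge (by norm_num) (by norm_num)) (expn_le (by norm_num) (by norm_num) (by norm_num)) (by norm_num)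
    (by norm_num) (by norm_num) (by norm_num) (by norm_num) (by norm_num) (by norm_num)
  have hy2 : sy κ t ≤ 0.217 := syR_ang2 h 0.3 0.33 1.11 0.955 0.5787 0.8165 0.217 0.80493 1.24234 hk1 hk2 (by linarith) (by norm_num) (by norm_num) (by norm_num)
    (cos_le_num (by norm_num)) (sin_le_num (by norm_num) (by norm_num)) (expm_le (by norm_num) (by norm_num) (by norm_num))
    (expn_ge (by norm_num) (by norm_num)) (by norm_num) (by norm_num) (by norm_num) (by norm_num) (by norm_num)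
  exact ⟨hy1, hy2⟩

private theorem yB0 {κ t : ℝ} (h : DomR κ t) (hk1 : 0.3 ≤ κ) (hk2 : κ ≤ 0.33) (ht1 : -0.9994 ≤ t + κ) (ht2 : t + κ ≤ -0.98439) :
    (-0.465) ≤ sy κ t ∧ sy κ t ≤ (-0.335) := by
  have hy1 : -0.465 ≤ sy κ t := syL_ang2 h 0.3 0.33 0.9994 1.085 0.4668 0.8847 0.465 1.59201 0.62813 hk1 hk2 (by linarith) (by norm_num) (by norm_num) (by norm_num) (by norm_num)
    (cos_ge_num (by norm_num) (by norm_num)) (sin_le_num (by norm_num) (by norm_num))
    (expn_ge (by norm_num) (by norm_num)) (expm_ge (by norm_num) (by norm_num) (by norm_num) (by norm_num)) (by norm_num) (by norm_num) (by norm_num)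
    (by norm_num) (by norm_num) (by norm_num)
  have hy2 : sy κ t ≤ -0.335 := syL_le h 0.3 0.33 0.98439 0.335 0.71533 0.71534 0.72616 0.7988 hk1 hk2 (by linarith) (by norm_num) (by norm_num) (by norm_num)
    (expm_ge (by norm_num) (by norm_num) (by norm_num) (by norm_num)) (expm_le (by norm_num) (by norm_num) (by norm_num)) (by norm_num)
    (by norm_num) (by norm_num) (by norm_num) (by norm_num) (by norm_num) (by norm_num)
  exact ⟨hy1, hy2⟩

theorem pc0 {β r h t κ : ℝ} (hh : h = 2 * Real.pi / (3 : ℕ)) (hβ : 0 < β) (hr : 10 ≤ r) (hκ : κ = β * r)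
    (hk1 : 0.3 ≤ κ) (hk2 : κ ≤ 0.33) (hT1 : 1.095 ≤ t + κ) (hT2 : t + κ ≤ 1.11) :
    Xf β r h t 0 ≠ 0 ∧ r * 0.7243 ≤ (Ld β r h t 1 - Ld β r h t 0).im ∧
      ‖(((-1 : ℤ) : ℂ) - 1) * Ld β r h t 0 - ((-1 : ℤ) : ℂ) * Ld β r h t 1‖ ≤ r * 5.74 := by
  obtain ⟨q1, q2, q3⟩ := b3_h hh
  have hR0 := b3_R0 hβ hr hκ
  have hR := b3_R hβ hr hκ (by linarith)
  have hD1 : DomR κ t := b3_dom (by linarith) (by linarith) (Or.inr (by linarith))
  have hD0 : DomR κ (t - h) := b3_dom (by linarith) (by linarith) (Or.inr (by linarith))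
  have y1 := yA0 hD1 hk1 hk2 (by linarith) (by linarith)
  have y0 := yB0 hD0 hk1 hk2 (by linarith) (by linarith)
  have j1 := T3_01_d1_0 hD1 hβ hk1 hk2 (by linarith) (by linarith) hR0 hR
  exact b3_piece 0.3 0.33 0.197 0.217 0.207 0.81301 0.8212 0.80493 0.271 1.4546 1.5046 0.06 0.025 0.025 0.4274 0.0961 0 0 (-0.465) (-0.335) (-0.4) 1.49182 1.59202 0.5254 0.2963 0.03 0.16 0.095 5.8932 5.6883 1.7444 3.0932 0.7243 5.74
    hβ hr hκ (by norm_num) hk1 hk2 hD1 hD0 j1 (j1 _ (by rw [sub_self, norm_zero]; norm_num))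
    (T3_01_d0_0 hD0 hβ hk1 hk2 (by linarith) (by linarith) hR0 hR)
    (T3_01_p0 hD0 hβ hk1 hk2 (by linarith) (by linarith) hR0 hR)
    y1.1 y1.2 y0.1 y0.2 (by norm_num)
    (ex_um 0.197 (by norm_num) (by norm_num) (by norm_num) (by norm_num)) (ex_um 0.217 (by norm_num) (by norm_num) (by norm_num) (by norm_num)) (ex_lm 0.207 (by norm_num) (by norm_num) (by norm_num) (by norm_num) (by norm_num)) (by norm_num) (by norm_num) (by norm_num) (by norm_num) (by norm_num) (by norm_num) (by norm_num) (by norm_num)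
    (by norm_num) (by norm_num) (by norm_num) (by norm_num) (by norm_num) (by norm_num) (by norm_num) (by norm_num) (by norm_num) (by norm_num)
    (ex_up 0.465 (by norm_num) (by norm_num) (by norm_num) (by norm_num)) (ex_lp 0.4 (by norm_num) (by norm_num) (by norm_num)) (by norm_num) (by norm_num) (by norm_num) (by norm_num) (by norm_num) (by norm_num)
    (by norm_num) (by norm_num) (by norm_num) (by norm_num) (by norm_num) (by norm_num) (by norm_num) (by norm_num) (by norm_num) (by norm_num) (by norm_num)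
    (by norm_num) (by norm_num) (by norm_num) (by norm_num)

private theorem yA1 {κ t : ℝ} (h : DomR κ t) (hk1 : 0.3 ≤ κ) (hk2 : κ ≤ 0.33) (ht1 : 1.11 ≤ t + κ) (ht2 : t + κ ≤ 1.125) :
    0.197 ≤ sy κ t ∧ sy κ t ≤ 0.219 := by
  have hy1 : 0.197 ≤ sy κ t := syR_ge h 0.3 0.33 1.11 0.197 1.21774 1.21775 0.72695 0.79966 hk1 hk2 (by linarith) (by norm_num) (by norm_num)
    (expn_ge (by norm_num) (by norm_num)) (expn_le (by norm_num) (by norm_num) (by norm_num)) (by norm_num)
    (by norm_num) (by norm_num) (by norm_num) (by norm_num) (by norm_num) (by norm_num)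
  have hy2 : sy κ t ≤ 0.219 := syR_ang2 h 0.3 0.33 1.125 0.971 0.5657 0.8257 0.219 0.80333 1.24483 hk1 hk2 (by linarith) (by norm_num) (by norm_num) (by norm_num)
    (cos_le_num (by norm_num)) (sin_le_num (by norm_num) (by norm_num)) (expm_le (by norm_num) (by norm_num) (by norm_num))
    (expn_ge (by norm_num) (by norm_num)) (by norm_num) (by norm_num) (by norm_num) (by norm_num) (by norm_num)
  exact ⟨hy1, hy2⟩

private theorem yB1 {κ t : ℝ} (h : DomR κ t) (hk1 : 0.3 ≤ κ) (hk2 : κ ≤ 0.33) (ht1 : -0.9844 ≤ t + κ) (ht2 : t + κ ≤ -0.96939) :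
    (-0.454) ≤ sy κ t ∧ sy κ t ≤ (-0.335) := by
  have hy1 : -0.454 ≤ sy κ t := syL_ang2 h 0.3 0.33 0.9844 1.062 0.487 0.8737 0.454 1.57459 0.63508 hk1 hk2 (by linarith) (by norm_num) (by norm_num) (by norm_num) (by norm_num)
    (cos_ge_num (by norm_num) (by norm_num)) (sin_le_num (by norm_num) (by norm_num))
    (expn_ge (by norm_num) (by norm_num)) (expm_ge (by norm_num) (by norm_num) (by norm_num) (by norm_num)) (by norm_num) (by norm_num) (by norm_num)
    (by norm_num) (by norm_num) (by norm_num)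
  have hy2 : sy κ t ≤ -0.335 := syL_le h 0.3 0.33 0.96939 0.335 0.71533 0.71534 0.72616 0.7988 hk1 hk2 (by linarith) (by norm_num) (by norm_num) (by norm_num)
    (expm_ge (by norm_num) (by norm_num) (by norm_num) (by norm_num)) (expm_le (by norm_num) (by norm_num) (by norm_num)) (by norm_num)
    (by norm_num) (by norm_num) (by norm_num) (by norm_num) (by norm_num) (by norm_num)
  exact ⟨hy1, hy2⟩

theorem pc1 {β r h t κ : ℝ} (hh : h = 2 * Real.pi / (3 : ℕ)) (hβ : 0 < β) (hr : 10 ≤ r) (hκ : κ = β * r)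
    (hk1 : 0.3 ≤ κ) (hk2 : κ ≤ 0.33) (hT1 : 1.11 ≤ t + κ) (hT2 : t + κ ≤ 1.125) :
    Xf β r h t 0 ≠ 0 ∧ r * 0.7243 ≤ (Ld β r h t 1 - Ld β r h t 0).im ∧
      ‖(((-1 : ℤ) : ℂ) - 1) * Ld β r h t 0 - ((-1 : ℤ) : ℂ) * Ld β r h t 1‖ ≤ r * 5.74 := by
  obtain ⟨q1, q2, q3⟩ := b3_h hh
  have hR0 := b3_R0 hβ hr hκ
  have hR := b3_R hβ hr hκ (by linarith)
  have hD1 : DomR κ t := b3_dom (by linarith) (by linarith) (Or.inr (by linarith))
  have hD0 : DomR κ (t - h) := b3_dom (by linarith) (by linarith) (Or.inr (by linarith))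
  have y1 := yA1 hD1 hk1 hk2 (by linarith) (by linarith)
  have y0 := yB1 hD0 hk1 hk2 (by linarith) (by linarith)
  have j1 := T3_01_d1_0 hD1 hβ hk1 hk2 (by linarith) (by linarith) hR0 hR
  exact b3_piece 0.3 0.33 0.197 0.219 0.208 0.8122 0.8212 0.80333 0.271 1.4546 1.5083 0.06 0.025 0.025 0.4274 0.0961 0 0 (-0.454) (-0.335) (-0.395) 1.48438 1.5746 0.5197 0.3137 0.03 0.16 0.095 5.8932 5.4683 1.6199 2.6837 0.7243 5.74
    hβ hr hκ (by norm_num) hk1 hk2 hD1 hD0 j1 (j1 _ (by rw [sub_self, norm_zero]; norm_num))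
    (T3_01_d0_0 hD0 hβ hk1 hk2 (by linarith) (by linarith) hR0 hR)
    (T3_01_p0 hD0 hβ hk1 hk2 (by linarith) (by linarith) hR0 hR)
    y1.1 y1.2 y0.1 y0.2 (by norm_num)
    (ex_um 0.197 (by norm_num) (by norm_num) (by norm_num) (by norm_num)) (ex_um 0.219 (by norm_num) (by norm_num) (by norm_num) (by norm_num)) (ex_lm 0.208 (by norm_num) (by norm_num) (by norm_num) (by norm_num) (by norm_num)) (by norm_num) (by norm_num) (by norm_num) (by norm_num) (by norm_num) (by norm_num) (by norm_num) (by norm_num)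
    (by norm_num) (by norm_num) (by norm_num) (by norm_num) (by norm_num) (by norm_num) (by norm_num) (by norm_num) (by norm_num) (by norm_num)
    (ex_up 0.454 (by norm_num) (by norm_num) (by norm_num) (by norm_num)) (ex_lp 0.395 (by norm_num) (by norm_num) (by norm_num)) (by norm_num) (by norm_num) (by norm_num) (by norm_num) (by norm_num) (by norm_num)
    (by norm_num) (by norm_num) (by norm_num) (by norm_num) (by norm_num) (by norm_num) (by norm_num) (by norm_num) (by norm_num) (by norm_num) (by norm_num)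
    (by norm_num) (by norm_num) (by norm_num) (by norm_num)

private theorem yA2 {κ t : ℝ} (h : DomR κ t) (hk1 : 0.3 ≤ κ) (hk2 : κ ≤ 0.33) (ht1 : 1.125 ≤ t + κ) (ht2 : t + κ ≤ 1.143) :
    0.197 ≤ sy κ t ∧ sy κ t ≤ 0.22 := by
  have hy1 : 0.197 ≤ sy κ t := syR_ge h 0.3 0.33 1.125 0.197 1.21774 1.21775 0.72695 0.79966 hk1 hk2 (by linarith) (by norm_num) (by norm_num)
    (expn_ge (by norm_num) (by norm_num)) (expn_le (by norm_num) (by norm_num) (by norm_num)) (by norm_num)
    (by norm_num) (by norm_num) (by norm_num) (by norm_num) (by norm_num) (by norm_num)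
  have hy2 : sy κ t ≤ 0.22 := syR_ang2 h 0.3 0.33 1.143 0.98 0.5583 0.8307 0.22 0.80252 1.24607 hk1 hk2 (by linarith) (by norm_num) (by norm_num) (by norm_num)
    (cos_le_num (by norm_num)) (sin_le_num (by norm_num) (by norm_num)) (expm_le (by norm_num) (by norm_num) (by norm_num))
    (expn_ge (by norm_num) (by norm_num)) (by norm_num) (by norm_num) (by norm_num) (by norm_num) (by norm_num)
  exact ⟨hy1, hy2⟩

private theorem yB2 {κ t : ℝ} (h : DomR κ t) (hk1 : 0.3 ≤ κ) (hk2 : κ ≤ 0.33) (ht1 : -0.9694 ≤ t + κ) (ht2 : t + κ ≤ -0.95139) :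
    (-0.444) ≤ sy κ t ∧ sy κ t ≤ (-0.335) := by
  have hy1 : -0.444 ≤ sy κ t := syL_ang2 h 0.3 0.33 0.9694 1.04 0.5061 0.8627 0.444 1.55892 0.64146 hk1 hk2 (by linarith) (by norm_num) (by norm_num) (by norm_num) (by norm_num)
    (cos_ge_num (by norm_num) (by norm_num)) (sin_le_num (by norm_num) (by norm_num))
    (expn_ge (by norm_num) (by norm_num)) (expm_ge (by norm_num) (by norm_num) (by norm_num) (by norm_num)) (by norm_num) (by norm_num) (by norm_num)
    (by norm_num) (by norm_num) (by norm_num)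
  have hy2 : sy κ t ≤ -0.335 := syL_le h 0.3 0.33 0.95139 0.335 0.71533 0.71534 0.72616 0.7988 hk1 hk2 (by linarith) (by norm_num) (by norm_num) (by norm_num)
    (expm_ge (by norm_num) (by norm_num) (by norm_num) (by norm_num)) (expm_le (by norm_num) (by norm_num) (by norm_num)) (by norm_num)
    (by norm_num) (by norm_num) (by norm_num) (by norm_num) (by norm_num) (by norm_num)
  exact ⟨hy1, hy2⟩

theorem pc2 {β r h t κ : ℝ} (hh : h = 2 * Real.pi / (3 : ℕ)) (hβ : 0 < β) (hr : 10 ≤ r) (hκ : κ = β * r)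
    (hk1 : 0.3 ≤ κ) (hk2 : κ ≤ 0.33) (hT1 : 1.125 ≤ t + κ) (hT2 : t + κ ≤ 1.143) :
    Xf β r h t 0 ≠ 0 ∧ r * 0.7243 ≤ (Ld β r h t 1 - Ld β r h t 0).im ∧
      ‖(((-1 : ℤ) : ℂ) - 1) * Ld β r h t 0 - ((-1 : ℤ) : ℂ) * Ld β r h t 1‖ ≤ r * 5.74 := by
  obtain ⟨q1, q2, q3⟩ := b3_h hh
  have hR0 := b3_R0 hβ hr hκ
  have hR := b3_R hβ hr hκ (by linarith)
  have hD1 : DomR κ t := b3_dom (by linarith) (by linarith) (Or.inr (by linarith))
  have hD0 : DomR κ (t - h) := b3_dom (by linarith) (by linarith) (Or.inr (by linarith))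
  have y1 := yA2 hD1 hk1 hk2 (by linarith) (by linarith)
  have y0 := yB2 hD0 hk1 hk2 (by linarith) (by linarith)
  have j1 := T3_01_d1_1 hD1 hβ hk1 hk2 (by linarith) (by linarith) hR0 hR
  exact b3_piece 0.3 0.33 0.197 0.22 0.208 0.8122 0.8212 0.80252 0.271 1.4546 1.5102 0.06 0.03 0.03 0.5155 0.1159 0 0 (-0.444) (-0.335) (-0.39) 1.47698 1.55894 0.5145 0.3295 0.04 0.15 0.095 4.1437 3.7141 1.5183 2.3708 0.7243 5.74
    hβ hr hκ (by norm_num) hk1 hk2 hD1 hD0 j1 (j1 _ (by rw [sub_self, norm_zero]; norm_num))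
    (T3_01_d0_1 hD0 hβ hk1 hk2 (by linarith) (by linarith) hR0 hR)
    (T3_01_p0 hD0 hβ hk1 hk2 (by linarith) (by linarith) hR0 hR)
    y1.1 y1.2 y0.1 y0.2 (by norm_num)
    (ex_um 0.197 (by norm_num) (by norm_num) (by norm_num) (by norm_num)) (ex_um 0.22 (by norm_num) (by norm_num) (by norm_num) (by norm_num)) (ex_lm 0.208 (by norm_num) (by norm_num) (by norm_num) (by norm_num) (by norm_num)) (by norm_num) (by norm_num) (by norm_num) (by norm_num) (by norm_num) (by norm_num) (by norm_num) (by norm_num)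
    (by norm_num) (by norm_num) (by norm_num) (by norm_num) (by norm_num) (by norm_num) (by norm_num) (by norm_num) (by norm_num) (by norm_num)
    (ex_up 0.444 (by norm_num) (by norm_num) (by norm_num) (by norm_num)) (ex_lp 0.39 (by norm_num) (by norm_num) (by norm_num)) (by norm_num) (by norm_num) (by norm_num) (by norm_num) (by norm_num) (by norm_num)
    (by norm_num) (by norm_num) (by norm_num) (by norm_num) (by norm_num) (by norm_num) (by norm_num) (by norm_num) (by norm_num) (by norm_num) (by norm_num)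
    (by norm_num) (by norm_num) (by norm_num) (by norm_num)

private theorem yA3 {κ t : ℝ} (h : DomR κ t) (hk1 : 0.3 ≤ κ) (hk2 : κ ≤ 0.33) (ht1 : 1.143 ≤ t + κ) (ht2 : t + κ ≤ 1.16) :
    0.197 ≤ sy κ t ∧ sy κ t ≤ 0.222 := by
  have hy1 : 0.197 ≤ sy κ t := syR_ge h 0.3 0.33 1.143 0.197 1.21774 1.21775 0.72695 0.79966 hk1 hk2 (by linarith) (by norm_num) (by norm_num)
    (expn_ge (by norm_num) (by norm_num)) (expn_le (by norm_num) (by norm_num) (by norm_num)) (by norm_num)
    (by norm_num) (by norm_num) (by norm_num) (by norm_num) (by norm_num) (by norm_num)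
  have hy2 : sy κ t ≤ 0.222 := syR_ang2 h 0.3 0.33 1.16 0.996 0.545 0.8395 0.222 0.80092 1.24857 hk1 hk2 (by linarith) (by norm_num) (by norm_num) (by norm_num)
    (cos_le_num (by norm_num)) (sin_le_num (by norm_num) (by norm_num)) (expm_le (by norm_num) (by norm_num) (by norm_num))
    (expn_ge (by norm_num) (by norm_num)) (by norm_num) (by norm_num) (by norm_num) (by norm_num) (by norm_num)
  exact ⟨hy1, hy2⟩

private theorem yB3 {κ t : ℝ} (h : DomR κ t) (hk1 : 0.3 ≤ κ) (hk2 : κ ≤ 0.33) (ht1 : -0.9514 ≤ t + κ) (ht2 : t + κ ≤ -0.93439) :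
    (-0.431) ≤ sy κ t ∧ sy κ t ≤ (-0.335) := by
  have hy1 : -0.431 ≤ sy κ t := syL_ang2 h 0.3 0.33 0.9514 1.013 0.5292 0.8487 0.431 1.53879 0.64985 hk1 hk2 (by linarith) (by norm_num) (by norm_num) (by norm_num) (by norm_num)
    (cos_ge_num (by norm_num) (by norm_num)) (sin_le_num (by norm_num) (by norm_num))
    (expn_ge (by norm_num) (by norm_num)) (expm_ge (by norm_num) (by norm_num) (by norm_num) (by norm_num)) (by norm_num) (by norm_num) (by norm_num)
    (by norm_num) (by norm_num) (by norm_num)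
  have hy2 : sy κ t ≤ -0.335 := syL_le h 0.3 0.33 0.93439 0.335 0.71533 0.71534 0.72616 0.7988 hk1 hk2 (by linarith) (by norm_num) (by norm_num) (by norm_num)
    (expm_ge (by norm_num) (by norm_num) (by norm_num) (by norm_num)) (expm_le (by norm_num) (by norm_num) (by norm_num)) (by norm_num)
    (by norm_num) (by norm_num) (by norm_num) (by norm_num) (by norm_num) (by norm_num)
  exact ⟨hy1, hy2⟩

theorem pc3 {β r h t κ : ℝ} (hh : h = 2 * Real.pi / (3 : ℕ)) (hβ : 0 < β) (hr : 10 ≤ r) (hκ : κ = β * r)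
    (hk1 : 0.3 ≤ κ) (hk2 : κ ≤ 0.33) (hT1 : 1.143 ≤ t + κ) (hT2 : t + κ ≤ 1.16) :
    Xf β r h t 0 ≠ 0 ∧ r * 0.7243 ≤ (Ld β r h t 1 - Ld β r h t 0).im ∧
      ‖(((-1 : ℤ) : ℂ) - 1) * Ld β r h t 0 - ((-1 : ℤ) : ℂ) * Ld β r h t 1‖ ≤ r * 5.74 := by
  obtain ⟨q1, q2, q3⟩ := b3_h hh
  have hR0 := b3_R0 hβ hr hκ
  have hR := b3_R hβ hr hκ (by linarith)
  have hD1 : DomR κ t := b3_dom (by linarith) (by linarith) (Or.inr (by linarith))
  have hD0 : DomR κ (t - h) := b3_dom (by linarith) (by linarith) (Or.inr (by linarith))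
  have y1 := yA3 hD1 hk1 hk2 (by linarith) (by linarith)
  have y0 := yB3 hD0 hk1 hk2 (by linarith) (by linarith)
  have j1 := T3_01_d1_1 hD1 hβ hk1 hk2 (by linarith) (by linarith) hR0 hR
  exact b3_piece 0.3 0.33 0.197 0.222 0.209 0.81139 0.8212 0.80092 0.271 1.4546 1.5139 0.06 0.03 0.03 0.5155 0.1159 0 0 (-0.431) (-0.335) (-0.383) 1.46667 1.5388 0.5079 0.3501 0.04 0.15 0.095 4.1437 3.5569 1.3995 2.0303 0.7243 5.74
    hβ hr hκ (by norm_num) hk1 hk2 hD1 hD0 j1 (j1 _ (by rw [sub_self, norm_zero]; norm_num))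
    (T3_01_d0_1 hD0 hβ hk1 hk2 (by linarith) (by linarith) hR0 hR)
    (T3_01_p0 hD0 hβ hk1 hk2 (by linarith) (by linarith) hR0 hR)
    y1.1 y1.2 y0.1 y0.2 (by norm_num)
    (ex_um 0.197 (by norm_num) (by norm_num) (by norm_num) (by norm_num)) (ex_um 0.222 (by norm_num) (by norm_num) (by norm_num) (by norm_num)) (ex_lm 0.209 (by norm_num) (by norm_num) (by norm_num) (by norm_num) (by norm_num)) (by norm_num) (by norm_num) (by norm_num) (by norm_num) (by norm_num) (by norm_num) (by norm_num) (by norm_num)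
    (by norm_num) (by norm_num) (by norm_num) (by norm_num) (by norm_num) (by norm_num) (by norm_num) (by norm_num) (by norm_num) (by norm_num)
    (ex_up 0.431 (by norm_num) (by norm_num) (by norm_num) (by norm_num)) (ex_lp 0.383 (by norm_num) (by norm_num) (by norm_num)) (by norm_num) (by norm_num) (by norm_num) (by norm_num) (by norm_num) (by norm_num)
    (by norm_num) (by norm_num) (by norm_num) (by norm_num) (by norm_num) (by norm_num) (by norm_num) (by norm_num) (by norm_num) (by norm_num) (by norm_num)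
    (by norm_num) (by norm_num) (by norm_num) (by norm_num)

private theorem yA4 {κ t : ℝ} (h : DomR κ t) (hk1 : 0.3 ≤ κ) (hk2 : κ ≤ 0.33) (ht1 : 1.16 ≤ t + κ) (ht2 : t + κ ≤ 1.177) :
    0.197 ≤ sy κ t ∧ sy κ t ≤ 0.224 := by
  have hy1 : 0.197 ≤ sy κ t := syR_ge h 0.3 0.33 1.16 0.197 1.21774 1.21775 0.72695 0.79966 hk1 hk2 (by linarith) (by norm_num) (by norm_num)
    (expn_ge (by norm_num) (by norm_num)) (expn_le (by norm_num) (by norm_num) (by norm_num)) (by norm_num)
    (by norm_num) (by norm_num) (by norm_num) (by norm_num) (by norm_num) (by norm_num)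
  have hy2 : sy κ t ≤ 0.224 := syR_ang2 h 0.3 0.33 1.177 1.014 0.53 0.8492 0.224 0.79932 1.25107 hk1 hk2 (by linarith) (by norm_num) (by norm_num) (by norm_num)
    (cos_le_num (by norm_num)) (sin_le_num (by norm_num) (by norm_num)) (expm_le (by norm_num) (by norm_num) (by norm_num))
    (expn_ge (by norm_num) (by norm_num)) (by norm_num) (by norm_num) (by norm_num) (by norm_num) (by norm_num)
  exact ⟨hy1, hy2⟩

private theorem yB4 {κ t : ℝ} (h : DomR κ t) (hk1 : 0.3 ≤ κ) (hk2 : κ ≤ 0.33) (ht1 : -0.9344 ≤ t + κ) (ht2 : t + κ ≤ -0.91739) :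
    (-0.42) ≤ sy κ t ∧ sy κ t ≤ (-0.335) := by
  have hy1 : -0.42 ≤ sy κ t := syL_ang2 h 0.3 0.33 0.9344 0.989 0.5495 0.8357 0.42 1.52196 0.65704 hk1 hk2 (by linarith) (by norm_num) (by norm_num) (by norm_num) (by norm_num)
    (cos_ge_num (by norm_num) (by norm_num)) (sin_le_num (by norm_num) (by norm_num))
    (expn_ge (by norm_num) (by norm_num)) (expm_ge (by norm_num) (by norm_num) (by norm_num) (by norm_num)) (by norm_num) (by norm_num) (by norm_num)
    (by norm_num) (by norm_num) (by norm_num)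
  have hy2 : sy κ t ≤ -0.335 := syL_le h 0.3 0.33 0.91739 0.335 0.71533 0.71534 0.72616 0.7988 hk1 hk2 (by linarith) (by norm_num) (by norm_num) (by norm_num)
    (expm_ge (by norm_num) (by norm_num) (by norm_num) (by norm_num)) (expm_le (by norm_num) (by norm_num) (by norm_num)) (by norm_num)
    (by norm_num) (by norm_num) (by norm_num) (by norm_num) (by norm_num) (by norm_num)
  exact ⟨hy1, hy2⟩

theorem pc4 {β r h t κ : ℝ} (hh : h = 2 * Real.pi / (3 : ℕ)) (hβ : 0 < β) (hr : 10 ≤ r) (hκ : κ = β * r)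
    (hk1 : 0.3 ≤ κ) (hk2 : κ ≤ 0.33) (hT1 : 1.16 ≤ t + κ) (hT2 : t + κ ≤ 1.177) :
    Xf β r h t 0 ≠ 0 ∧ r * 0.7243 ≤ (Ld β r h t 1 - Ld β r h t 0).im ∧
      ‖(((-1 : ℤ) : ℂ) - 1) * Ld β r h t 0 - ((-1 : ℤ) : ℂ) * Ld β r h t 1‖ ≤ r * 5.74 := by
  obtain ⟨q1, q2, q3⟩ := b3_h hh
  have hR0 := b3_R0 hβ hr hκ
  have hR := b3_R hβ hr hκ (by linarith)
  have hD1 : DomR κ t := b3_dom (by linarith) (by linarith) (Or.inr (by linarith))
  have hD0 : DomR κ (t - h) := b3_dom (by linarith) (by linarith) (Or.inr (by linarith))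
  have y1 := yA4 hD1 hk1 hk2 (by linarith) (by linarith)
  have y0 := yB4 hD0 hk1 hk2 (by linarith) (by linarith)
  have j1 := T3_01_d1_1 hD1 hβ hk1 hk2 (by linarith) (by linarith) hR0 hR
  exact b3_piece 0.3 0.33 0.197 0.224 0.21 0.81058 0.8212 0.79932 0.271 1.4546 1.5176 0.06 0.03 0.03 0.5155 0.1159 0 0 (-0.42) (-0.335) (-0.378) 1.45936 1.52197 0.5023 0.3677 0.04 0.15 0.095 4.1437 3.4325 1.3086 1.7877 0.7243 5.74
    hβ hr hκ (by norm_num) hk1 hk2 hD1 hD0 j1 (j1 _ (by rw [sub_self, norm_zero]; norm_num))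
    (T3_01_d0_1 hD0 hβ hk1 hk2 (by linarith) (by linarith) hR0 hR)
    (T3_01_p0 hD0 hβ hk1 hk2 (by linarith) (by linarith) hR0 hR)
    y1.1 y1.2 y0.1 y0.2 (by norm_num)
    (ex_um 0.197 (by norm_num) (by norm_num) (by norm_num) (by norm_num)) (ex_um 0.224 (by norm_num) (by norm_num) (by norm_num) (by norm_num)) (ex_lm 0.21 (by norm_num) (by norm_num) (by norm_num) (by norm_num) (by norm_num)) (by norm_num) (by norm_num) (by norm_num) (by norm_num) (by norm_num) (by norm_num) (by norm_num) (by norm_num)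
    (by norm_num) (by norm_num) (by norm_num) (by norm_num) (by norm_num) (by norm_num) (by norm_num) (by norm_num) (by norm_num) (by norm_num)
    (ex_up 0.42 (by norm_num) (by norm_num) (by norm_num) (by norm_num)) (ex_lp 0.378 (by norm_num) (by norm_num) (by norm_num)) (by norm_num) (by norm_num) (by norm_num) (by norm_num) (by norm_num) (by norm_num)
    (by norm_num) (by norm_num) (by norm_num) (by norm_num) (by norm_num) (by norm_num) (by norm_num) (by norm_num) (by norm_num) (by norm_num) (by norm_num)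
    (by norm_num) (by norm_num) (by norm_num) (by norm_num)

private theorem yA5 {κ t : ℝ} (h : DomR κ t) (hk1 : 0.3 ≤ κ) (hk2 : κ ≤ 0.33) (ht1 : 1.177 ≤ t + κ) (ht2 : t + κ ≤ 1.195) :
    0.197 ≤ sy κ t ∧ sy κ t ≤ 0.225 := by
  have hy1 : 0.197 ≤ sy κ t := syR_ge h 0.3 0.33 1.177 0.197 1.21774 1.21775 0.72695 0.79966 hk1 hk2 (by linarith) (by norm_num) (by norm_num)
    (expn_ge (by norm_num) (by norm_num)) (expn_le (by norm_num) (by norm_num) (by norm_num)) (by norm_num)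
    (by norm_num) (by norm_num) (by norm_num) (by norm_num) (by norm_num) (by norm_num)
  have hy2 : sy κ t ≤ 0.225 := syR_ang2 h 0.3 0.33 1.195 1.022 0.5233 0.8534 0.225 0.79852 1.25232 hk1 hk2 (by linarith) (by norm_num) (by norm_num) (by norm_num)
    (cos_le_num (by norm_num)) (sin_le_num (by norm_num) (by norm_num)) (expm_le (by norm_num) (by norm_num) (by norm_num))
    (expn_ge (by norm_num) (by norm_num)) (by norm_num) (by norm_num) (by norm_num) (by norm_num) (by norm_num)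
  exact ⟨hy1, hy2⟩

private theorem yB5 {κ t : ℝ} (h : DomR κ t) (hk1 : 0.3 ≤ κ) (hk2 : κ ≤ 0.33) (ht1 : -0.9174 ≤ t + κ) (ht2 : t + κ ≤ -0.89939) :
    (-0.409) ≤ sy κ t ∧ sy κ t ≤ (-0.333) := by
  have hy1 : -0.409 ≤ sy κ t := syL_ang2 h 0.3 0.33 0.9174 0.966 0.5685 0.8228 0.409 1.50531 0.66431 hk1 hk2 (by linarith) (by norm_num) (by norm_num) (by norm_num) (by norm_num)
    (cos_ge_num (by norm_num) (by norm_num)) (sin_le_num (by norm_num) (by norm_num))
    (expn_ge (by norm_num) (by norm_num)) (expm_ge (by norm_num) (by norm_num) (by norm_num) (by norm_num)) (by norm_num) (by norm_num) (by norm_num)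
    (by norm_num) (by norm_num) (by norm_num)
  have hy2 : sy κ t ≤ -0.333 := syL_le h 0.3 0.33 0.89939 0.333 0.71677 0.71678 0.72328 0.79563 hk1 hk2 (by linarith) (by norm_num) (by norm_num) (by norm_num)
    (expm_ge (by norm_num) (by norm_num) (by norm_num) (by norm_num)) (expm_le (by norm_num) (by norm_num) (by norm_num)) (by norm_num)
    (by norm_num) (by norm_num) (by norm_num) (by norm_num) (by norm_num) (by norm_num)
  exact ⟨hy1, hy2⟩

theorem pc5 {β r h t κ : ℝ} (hh : h = 2 * Real.pi / (3 : ℕ)) (hβ : 0 < β) (hr : 10 ≤ r) (hκ : κ = β * r)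
    (hk1 : 0.3 ≤ κ) (hk2 : κ ≤ 0.33) (hT1 : 1.177 ≤ t + κ) (hT2 : t + κ ≤ 1.195) :
    Xf β r h t 0 ≠ 0 ∧ r * 0.7243 ≤ (Ld β r h t 1 - Ld β r h t 0).im ∧
      ‖(((-1 : ℤ) : ℂ) - 1) * Ld β r h t 0 - ((-1 : ℤ) : ℂ) * Ld β r h t 1‖ ≤ r * 5.74 := by
  obtain ⟨q1, q2, q3⟩ := b3_h hh
  have hR0 := b3_R0 hβ hr hκ
  have hR := b3_R hβ hr hκ (by linarith)
  have hD1 : DomR κ t := b3_dom (by linarith) (by linarith) (Or.inr (by linarith))
  have hD0 : DomR κ (t - h) := b3_dom (by linarith) (by linarith) (Or.inr (by linarith))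
  have y1 := yA5 hD1 hk1 hk2 (by linarith) (by linarith)
  have y0 := yB5 hD0 hk1 hk2 (by linarith) (by linarith)
  have j1 := T3_01_d1_1 hD1 hβ hk1 hk2 (by linarith) (by linarith) hR0 hR
  exact b3_piece 0.3 0.33 0.197 0.225 0.211 0.80977 0.8212 0.79852 0.271 1.4546 1.5195 0.06 0.03 0.03 0.5155 0.1159 0 0 (-0.409) (-0.333) (-0.371) 1.44918 1.50532 0.4968 0.3853 0.04 0.15 0.095 4.1437 3.3165 1.2312 1.5875 0.7243 5.74
    hβ hr hκ (by norm_num) hk1 hk2 hD1 hD0 j1 (j1 _ (by rw [sub_self, norm_zero]; norm_num))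
    (T3_01_d0_1 hD0 hβ hk1 hk2 (by linarith) (by linarith) hR0 hR)
    (T3_01_p0 hD0 hβ hk1 hk2 (by linarith) (by linarith) hR0 hR)
    y1.1 y1.2 y0.1 y0.2 (by norm_num)
    (ex_um 0.197 (by norm_num) (by norm_num) (by norm_num) (by norm_num)) (ex_um 0.225 (by norm_num) (by norm_num) (by norm_num) (by norm_num)) (ex_lm 0.211 (by norm_num) (by norm_num) (by norm_num) (by norm_num) (by norm_num)) (by norm_num) (by norm_num) (by norm_num) (by norm_num) (by norm_num) (by norm_num) (by norm_num) (by norm_num)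
    (by norm_num) (by norm_num) (by norm_num) (by norm_num) (by norm_num) (by norm_num) (by norm_num) (by norm_num) (by norm_num) (by norm_num)
    (ex_up 0.409 (by norm_num) (by norm_num) (by norm_num) (by norm_num)) (ex_lp 0.371 (by norm_num) (by norm_num) (by norm_num)) (by norm_num) (by norm_num) (by norm_num) (by norm_num) (by norm_num) (by norm_num)
    (by norm_num) (by norm_num) (by norm_num) (by norm_num) (by norm_num) (by norm_num) (by norm_num) (by norm_num) (by norm_num) (by norm_num) (by norm_num)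
    (by norm_num) (by norm_num) (by norm_num) (by norm_num)

private theorem yA6 {κ t : ℝ} (h : DomR κ t) (hk1 : 0.3 ≤ κ) (hk2 : κ ≤ 0.33) (ht1 : 1.195 ≤ t + κ) (ht2 : t + κ ≤ 1.214) :
    0.197 ≤ sy κ t ∧ sy κ t ≤ 0.227 := by
  have hy1 : 0.197 ≤ sy κ t := syR_ge h 0.3 0.33 1.195 0.197 1.21774 1.21775 0.72695 0.79966 hk1 hk2 (by linarith) (by norm_num) (by norm_num)
    (expn_ge (by norm_num) (by norm_num)) (expn_le (by norm_num) (by norm_num) (by norm_num)) (by norm_num)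
    (by norm_num) (by norm_num) (by norm_num) (by norm_num) (by norm_num) (by norm_num)
  have hy2 : sy κ t ≤ 0.227 := syR_ang2 h 0.3 0.33 1.214 1.04 0.508 0.8627 0.227 0.79693 1.25482 hk1 hk2 (by linarith) (by norm_num) (by norm_num) (by norm_num)
    (cos_le_num (by norm_num)) (sin_le_num (by norm_num) (by norm_num)) (expm_le (by norm_num) (by norm_num) (by norm_num))
    (expn_ge (by norm_num) (by norm_num)) (by norm_num) (by norm_num) (by norm_num) (by norm_num) (by norm_num)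
  exact ⟨hy1, hy2⟩

private theorem yB6 {κ t : ℝ} (h : DomR κ t) (hk1 : 0.3 ≤ κ) (hk2 : κ ≤ 0.33) (ht1 : -0.8994 ≤ t + κ) (ht2 : t + κ ≤ -0.88039) :
    (-0.397) ≤ sy κ t ∧ sy κ t ≤ (-0.324) := by
  have hy1 : -0.397 ≤ sy κ t := syL_ang2 h 0.3 0.33 0.8994 0.941 0.5889 0.8083 0.397 1.48735 0.67233 hk1 hk2 (by linarith) (by norm_num) (by norm_num) (by norm_num) (by norm_num)
    (cos_ge_num (by norm_num) (by norm_num)) (sin_le_num (by norm_num) (by norm_num))
    (expn_ge (by norm_num) (by norm_num)) (expm_ge (by norm_num) (by norm_num) (by norm_num) (by norm_num)) (by norm_num) (by norm_num) (by norm_num)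
    (by norm_num) (by norm_num) (by norm_num)
  have hy2 : sy κ t ≤ -0.324 := syL_le h 0.3 0.33 0.88039 0.324 0.72325 0.72326 0.71009 0.78113 hk1 hk2 (by linarith) (by norm_num) (by norm_num) (by norm_num)
    (expm_ge (by norm_num) (by norm_num) (by norm_num) (by norm_num)) (expm_le (by norm_num) (by norm_num) (by norm_num)) (by norm_num)
    (by norm_num) (by norm_num) (by norm_num) (by norm_num) (by norm_num) (by norm_num)
  exact ⟨hy1, hy2⟩

theorem pc6 {β r h t κ : ℝ} (hh : h = 2 * Real.pi / (3 : ℕ)) (hβ : 0 < β) (hr : 10 ≤ r) (hκ : κ = β * r)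
    (hk1 : 0.3 ≤ κ) (hk2 : κ ≤ 0.33) (hT1 : 1.195 ≤ t + κ) (hT2 : t + κ ≤ 1.214) :
    Xf β r h t 0 ≠ 0 ∧ r * 0.7243 ≤ (Ld β r h t 1 - Ld β r h t 0).im ∧
      ‖(((-1 : ℤ) : ℂ) - 1) * Ld β r h t 0 - ((-1 : ℤ) : ℂ) * Ld β r h t 1‖ ≤ r * 5.74 := by
  obtain ⟨q1, q2, q3⟩ := b3_h hh
  have hR0 := b3_R0 hβ hr hκ
  have hR := b3_R hβ hr hκ (by linarith)
  have hD1 : DomR κ t := b3_dom (by linarith) (by linarith) (Or.inr (by linarith))
  have hD0 : DomR κ (t - h) := b3_dom (by linarith) (by linarith) (Or.inr (by linarith))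
  have y1 := yA6 hD1 hk1 hk2 (by linarith) (by linarith)
  have y0 := yB6 hD0 hk1 hk2 (by linarith) (by linarith)
  have j1 := T3_01_d1_2 hD1 hβ hk1 hk2 (by linarith) (by linarith) hR0 hR
  exact b3_piece 0.3 0.33 0.197 0.227 0.212 0.80896 0.8212 0.79693 0.271 1.4546 1.5232 0.06 0.03 0.03 0.5155 0.1159 0 0 (-0.397) (-0.324) (-0.36) 1.43332 1.48736 0.4909 0.4045 0.05 0.105 0.095 2.3205 1.7911 1.1712 1.4214 0.7243 5.74
    hβ hr hκ (by norm_num) hk1 hk2 hD1 hD0 j1 (j1 _ (by rw [sub_self, norm_zero]; norm_num))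
    (T3_01_d0_2 hD0 hβ hk1 hk2 (by linarith) (by linarith) hR0 hR)
    (T3_01_p0 hD0 hβ hk1 hk2 (by linarith) (by linarith) hR0 hR)
    y1.1 y1.2 y0.1 y0.2 (by norm_num)
    (ex_um 0.197 (by norm_num) (by norm_num) (by norm_num) (by norm_num)) (ex_um 0.227 (by norm_num) (by norm_num) (by norm_num) (by norm_num)) (ex_lm 0.212 (by norm_num) (by norm_num) (by norm_num) (by norm_num) (by norm_num)) (by norm_num) (by norm_num) (by norm_num) (by norm_num) (by norm_num) (by norm_num) (by norm_num) (by norm_num)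
    (by norm_num) (by norm_num) (by norm_num) (by norm_num) (by norm_num) (by norm_num) (by norm_num) (by norm_num) (by norm_num) (by norm_num)
    (ex_up 0.397 (by norm_num) (by norm_num) (by norm_num) (by norm_num)) (ex_lp 0.36 (by norm_num) (by norm_num) (by norm_num)) (by norm_num) (by norm_num) (by norm_num) (by norm_num) (by norm_num) (by norm_num)
    (by norm_num) (by norm_num) (by norm_num) (by norm_num) (by norm_num) (by norm_num) (by norm_num) (by norm_num) (by norm_num) (by norm_num) (by norm_num)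
    (by norm_num) (by norm_num) (by norm_num) (by norm_num)

private theorem yA7 {κ t : ℝ} (h : DomR κ t) (hk1 : 0.3 ≤ κ) (hk2 : κ ≤ 0.33) (ht1 : 1.214 ≤ t + κ) (ht2 : t + κ ≤ 1.232) :
    0.197 ≤ sy κ t ∧ sy κ t ≤ 0.229 := by
  have hy1 : 0.197 ≤ sy κ t := syR_ge h 0.3 0.33 1.214 0.197 1.21774 1.21775 0.72695 0.79966 hk1 hk2 (by linarith) (by norm_num) (by norm_num)
    (expn_ge (by norm_num) (by norm_num)) (expn_le (by norm_num) (by norm_num) (by norm_num)) (by norm_num)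
    (by norm_num) (by norm_num) (by norm_num) (by norm_num) (by norm_num) (by norm_num)
  have hy2 : sy κ t ≤ 0.229 := syR_ang2 h 0.3 0.33 1.232 1.059 0.4917 0.8722 0.229 0.79533 1.25734 hk1 hk2 (by linarith) (by norm_num) (by norm_num) (by norm_num)
    (cos_le_num (by norm_num)) (sin_le_num (by norm_num) (by norm_num)) (expm_le (by norm_num) (by norm_num) (by norm_num))
    (expn_ge (by norm_num) (by norm_num)) (by norm_num) (by norm_num) (by norm_num) (by norm_num) (by norm_num)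
  exact ⟨hy1, hy2⟩

private theorem yB7 {κ t : ℝ} (h : DomR κ t) (hk1 : 0.3 ≤ κ) (hk2 : κ ≤ 0.33) (ht1 : -0.8804 ≤ t + κ) (ht2 : t + κ ≤ -0.86239) :
    (-0.385) ≤ sy κ t ∧ sy κ t ≤ (-0.316) := by
  have hy1 : -0.385 ≤ sy κ t := syL_ang2 h 0.3 0.33 0.8804 0.916 0.6089 0.7933 0.385 1.46961 0.68045 hk1 hk2 (by linarith) (by norm_num) (by norm_num) (by norm_num) (by norm_num)
    (cos_ge_num (by norm_num) (by norm_num)) (sin_le_num (by norm_num) (by norm_num))
    (expn_ge (by norm_num) (by norm_num)) (expm_ge (by norm_num) (by norm_num) (by norm_num) (by norm_num)) (by norm_num) (by norm_num) (by norm_num)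
    (by norm_num) (by norm_num) (by norm_num)
  have hy2 : sy κ t ≤ -0.316 := syL_le h 0.3 0.33 0.86239 0.316 0.72905 0.72906 0.69812 0.76795 hk1 hk2 (by linarith) (by norm_num) (by norm_num) (by norm_num)
    (expm_ge (by norm_num) (by norm_num) (by norm_num) (by norm_num)) (expm_le (by norm_num) (by norm_num) (by norm_num)) (by norm_num)
    (by norm_num) (by norm_num) (by norm_num) (by norm_num) (by norm_num) (by norm_num)
  exact ⟨hy1, hy2⟩

theorem pc7 {β r h t κ : ℝ} (hh : h = 2 * Real.pi / (3 : ℕ)) (hβ : 0 < β) (hr : 10 ≤ r) (hκ : κ = β * r)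
    (hk1 : 0.3 ≤ κ) (hk2 : κ ≤ 0.33) (hT1 : 1.214 ≤ t + κ) (hT2 : t + κ ≤ 1.232) :
    Xf β r h t 0 ≠ 0 ∧ r * 0.7243 ≤ (Ld β r h t 1 - Ld β r h t 0).im ∧
      ‖(((-1 : ℤ) : ℂ) - 1) * Ld β r h t 0 - ((-1 : ℤ) : ℂ) * Ld β r h t 1‖ ≤ r * 5.74 := by
  obtain ⟨q1, q2, q3⟩ := b3_h hh
  have hR0 := b3_R0 hβ hr hκ
  have hR := b3_R hβ hr hκ (by linarith)
  have hD1 : DomR κ t := b3_dom (by linarith) (by linarith) (Or.inr (by linarith))
  have hD0 : DomR κ (t - h) := b3_dom (by linarith) (by linarith) (Or.inr (by linarith))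
  have y1 := yA7 hD1 hk1 hk2 (by linarith) (by linarith)
  have y0 := yB7 hD0 hk1 hk2 (by linarith) (by linarith)
  have j1 := T3_01_d1_2 hD1 hβ hk1 hk2 (by linarith) (by linarith) hR0 hR
  exact b3_piece 0.3 0.33 0.197 0.229 0.213 0.80815 0.8212 0.79533 0.271 1.4546 1.5269 0.06 0.03 0.03 0.5155 0.1159 0 0 (-0.385) (-0.316) (-0.35) 1.41906 1.46962 0.485 0.4239 0.05 0.105 0.095 2.3205 1.7286 1.1136 1.2742 0.7243 5.74
    hβ hr hκ (by norm_num) hk1 hk2 hD1 hD0 j1 (j1 _ (by rw [sub_self, norm_zero]; norm_num))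
    (T3_01_d0_2 hD0 hβ hk1 hk2 (by linarith) (by linarith) hR0 hR)
    (T3_01_p0 hD0 hβ hk1 hk2 (by linarith) (by linarith) hR0 hR)
    y1.1 y1.2 y0.1 y0.2 (by norm_num)
    (ex_um 0.197 (by norm_num) (by norm_num) (by norm_num) (by norm_num)) (ex_um 0.229 (by norm_num) (by norm_num) (by norm_num) (by norm_num)) (ex_lm 0.213 (by norm_num) (by norm_num) (by norm_num) (by norm_num) (by norm_num)) (by norm_num) (by norm_num) (by norm_num) (by norm_num) (by norm_num) (by norm_num) (by norm_num) (by norm_num)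
    (by norm_num) (by norm_num) (by norm_num) (by norm_num) (by norm_num) (by norm_num) (by norm_num) (by norm_num) (by norm_num) (by norm_num)
    (ex_up 0.385 (by norm_num) (by norm_num) (by norm_num) (by norm_num)) (ex_lp 0.35 (by norm_num) (by norm_num) (by norm_num)) (by norm_num) (by norm_num) (by norm_num) (by norm_num) (by norm_num) (by norm_num)
    (by norm_num) (by norm_num) (by norm_num) (by norm_num) (by norm_num) (by norm_num) (by norm_num) (by norm_num) (by norm_num) (by norm_num) (by norm_num)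
    (by norm_num) (by norm_num) (by norm_num) (by norm_num)

private theorem yA8 {κ t : ℝ} (h : DomR κ t) (hk1 : 0.3 ≤ κ) (hk2 : κ ≤ 0.33) (ht1 : 1.232 ≤ t + κ) (ht2 : t + κ ≤ 1.251) :
    0.197 ≤ sy κ t ∧ sy κ t ≤ 0.23 := by
  have hy1 : 0.197 ≤ sy κ t := syR_ge h 0.3 0.33 1.232 0.197 1.21774 1.21775 0.72695 0.79966 hk1 hk2 (by linarith) (by norm_num) (by norm_num)
    (expn_ge (by norm_num) (by norm_num)) (expn_le (by norm_num) (by norm_num) (by norm_num)) (by norm_num)
    (by norm_num) (by norm_num) (by norm_num) (by norm_num) (by norm_num) (by norm_num)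
  have hy2 : sy κ t ≤ 0.23 := syR_ang2 h 0.3 0.33 1.251 1.069 0.4831 0.8771 0.23 0.79454 1.2586 hk1 hk2 (by linarith) (by norm_num) (by norm_num) (by norm_num)
    (cos_le_num (by norm_num)) (sin_le_num (by norm_num) (by norm_num)) (expm_le (by norm_num) (by norm_num) (by norm_num))
    (expn_ge (by norm_num) (by norm_num)) (by norm_num) (by norm_num) (by norm_num) (by norm_num) (by norm_num)
  exact ⟨hy1, hy2⟩

private theorem yB8 {κ t : ℝ} (h : DomR κ t) (hk1 : 0.3 ≤ κ) (hk2 : κ ≤ 0.33) (ht1 : -0.8624 ≤ t + κ) (ht2 : t + κ ≤ -0.84339) :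
    (-0.374) ≤ sy κ t ∧ sy κ t ≤ (-0.308) := by
  have hy1 : -0.374 ≤ sy κ t := syL_ang2 h 0.3 0.33 0.8624 0.893 0.627 0.7791 0.374 1.45353 0.68797 hk1 hk2 (by linarith) (by norm_num) (by norm_num) (by norm_num) (by norm_num)
    (cos_ge_num (by norm_num) (by norm_num)) (sin_le_num (by norm_num) (by norm_num))
    (expn_ge (by norm_num) (by norm_num)) (expm_ge (by norm_num) (by norm_num) (by norm_num) (by norm_num)) (by norm_num) (by norm_num) (by norm_num)
    (by norm_num) (by norm_num) (by norm_num)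
  have hy2 : sy κ t ≤ -0.308 := syL_le h 0.3 0.33 0.84339 0.308 0.73491 0.73492 0.68591 0.75452 hk1 hk2 (by linarith) (by norm_num) (by norm_num) (by norm_num)
    (expm_ge (by norm_num) (by norm_num) (by norm_num) (by norm_num)) (expm_le (by norm_num) (by norm_num) (by norm_num)) (by norm_num)
    (by norm_num) (by norm_num) (by norm_num) (by norm_num) (by norm_num) (by norm_num)
  exact ⟨hy1, hy2⟩

theorem pc8 {β r h t κ : ℝ} (hh : h = 2 * Real.pi / (3 : ℕ)) (hβ : 0 < β) (hr : 10 ≤ r) (hκ : κ = β * r)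
    (hk1 : 0.3 ≤ κ) (hk2 : κ ≤ 0.33) (hT1 : 1.232 ≤ t + κ) (hT2 : t + κ ≤ 1.251) :
    Xf β r h t 0 ≠ 0 ∧ r * 0.7243 ≤ (Ld β r h t 1 - Ld β r h t 0).im ∧
      ‖(((-1 : ℤ) : ℂ) - 1) * Ld β r h t 0 - ((-1 : ℤ) : ℂ) * Ld β r h t 1‖ ≤ r * 5.74 := by
  obtain ⟨q1, q2, q3⟩ := b3_h hh
  have hR0 := b3_R0 hβ hr hκ
  have hR := b3_R hβ hr hκ (by linarith)
  have hD1 : DomR κ t := b3_dom (by linarith) (by linarith) (Or.inr (by linarith))
  have hD0 : DomR κ (t - h) := b3_dom (by linarith) (by linarith) (Or.inr (by linarith))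
  have y1 := yA8 hD1 hk1 hk2 (by linarith) (by linarith)
  have y0 := yB8 hD0 hk1 hk2 (by linarith) (by linarith)
  have j1 := T3_01_d1_2 hD1 hβ hk1 hk2 (by linarith) (by linarith) hR0 hR
  exact b3_piece 0.3 0.33 0.197 0.23 0.213 0.80815 0.8212 0.79454 0.271 1.4546 1.5288 0.06 0.03 0.03 0.5155 0.1159 0 0 (-0.374) (-0.308) (-0.341) 1.40635 1.45354 0.4797 0.4417 0.05 0.105 0.095 2.3205 1.6749 1.0667 1.1585 0.7243 5.74
    hβ hr hκ (by norm_num) hk1 hk2 hD1 hD0 j1 (j1 _ (by rw [sub_self, norm_zero]; norm_num))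
    (T3_01_d0_2 hD0 hβ hk1 hk2 (by linarith) (by linarith) hR0 hR)
    (T3_01_p0 hD0 hβ hk1 hk2 (by linarith) (by linarith) hR0 hR)
    y1.1 y1.2 y0.1 y0.2 (by norm_num)
    (ex_um 0.197 (by norm_num) (by norm_num) (by norm_num) (by norm_num)) (ex_um 0.23 (by norm_num) (by norm_num) (by norm_num) (by norm_num)) (ex_lm 0.213 (by norm_num) (by norm_num) (by norm_num) (by norm_num) (by norm_num)) (by norm_num) (by norm_num) (by norm_num) (by norm_num) (by norm_num) (by norm_num) (by norm_num) (by norm_num)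
    (by norm_num) (by norm_num) (by norm_num) (by norm_num) (by norm_num) (by norm_num) (by norm_num) (by norm_num) (by norm_num) (by norm_num)
    (ex_up 0.374 (by norm_num) (by norm_num) (by norm_num) (by norm_num)) (ex_lp 0.341 (by norm_num) (by norm_num) (by norm_num)) (by norm_num) (by norm_num) (by norm_num) (by norm_num) (by norm_num) (by norm_num)
    (by norm_num) (by norm_num) (by norm_num) (by norm_num) (by norm_num) (by norm_num) (by norm_num) (by norm_num) (by norm_num) (by norm_num) (by norm_num)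
    (by norm_num) (by norm_num) (by norm_num) (by norm_num)

private theorem yA9 {κ t : ℝ} (h : DomR κ t) (hk1 : 0.3 ≤ κ) (hk2 : κ ≤ 0.33) (ht1 : 1.251 ≤ t + κ) (ht2 : t + κ ≤ 1.27) :
    0.197 ≤ sy κ t ∧ sy κ t ≤ 0.232 := by
  have hy1 : 0.197 ≤ sy κ t := syR_ge h 0.3 0.33 1.251 0.197 1.21774 1.21775 0.72695 0.79966 hk1 hk2 (by linarith) (by norm_num) (by norm_num)
    (expn_ge (by norm_num) (by norm_num)) (expn_le (by norm_num) (by norm_num) (by norm_num)) (by norm_num)
    (by norm_num) (by norm_num) (by norm_num) (by norm_num) (by norm_num) (by norm_num)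
  have hy2 : sy κ t ≤ 0.232 := syR_ang2 h 0.3 0.33 1.27 1.088 0.4666 0.8861 0.232 0.79295 1.26111 hk1 hk2 (by linarith) (by norm_num) (by norm_num) (by norm_num)
    (cos_le_num (by norm_num)) (sin_le_num (by norm_num) (by norm_num)) (expm_le (by norm_num) (by norm_num) (by norm_num))
    (expn_ge (by norm_num) (by norm_num)) (by norm_num) (by norm_num) (by norm_num) (by norm_num) (by norm_num)
  exact ⟨hy1, hy2⟩

private theorem yB9 {κ t : ℝ} (h : DomR κ t) (hk1 : 0.3 ≤ κ) (hk2 : κ ≤ 0.33) (ht1 : -0.8434 ≤ t + κ) (ht2 : t + κ ≤ -0.82439) :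
    (-0.362) ≤ sy κ t ∧ sy κ t ≤ (-0.299) := by
  have hy1 : -0.362 ≤ sy κ t := syL_ang2 h 0.3 0.33 0.8434 0.868 0.6463 0.7632 0.362 1.43619 0.69628 hk1 hk2 (by linarith) (by norm_num) (by norm_num) (by norm_num) (by norm_num)
    (cos_ge_num (by norm_num) (by norm_num)) (sin_le_num (by norm_num) (by norm_num))
    (expn_ge (by norm_num) (by norm_num)) (expm_ge (by norm_num) (by norm_num) (by norm_num) (by norm_num)) (by norm_num) (by norm_num) (by norm_num)
    (by norm_num) (by norm_num) (by norm_num)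
  have hy2 : sy κ t ≤ -0.299 := syL_le h 0.3 0.33 0.82439 0.299 0.74155 0.74156 0.67188 0.73909 hk1 hk2 (by linarith) (by norm_num) (by norm_num) (by norm_num)
    (expm_ge (by norm_num) (by norm_num) (by norm_num) (by norm_num)) (expm_le (by norm_num) (by norm_num) (by norm_num)) (by norm_num)
    (by norm_num) (by norm_num) (by norm_num) (by norm_num) (by norm_num) (by norm_num)
  exact ⟨hy1, hy2⟩

theorem pc9 {β r h t κ : ℝ} (hh : h = 2 * Real.pi / (3 : ℕ)) (hβ : 0 < β) (hr : 10 ≤ r) (hκ : κ = β * r)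
    (hk1 : 0.3 ≤ κ) (hk2 : κ ≤ 0.33) (hT1 : 1.251 ≤ t + κ) (hT2 : t + κ ≤ 1.27) :
    Xf β r h t 0 ≠ 0 ∧ r * 0.7243 ≤ (Ld β r h t 1 - Ld β r h t 0).im ∧
      ‖(((-1 : ℤ) : ℂ) - 1) * Ld β r h t 0 - ((-1 : ℤ) : ℂ) * Ld β r h t 1‖ ≤ r * 5.74 := by
  obtain ⟨q1, q2, q3⟩ := b3_h hh
  have hR0 := b3_R0 hβ hr hκ
  have hR := b3_R hβ hr hκ (by linarith)
  have hD1 : DomR κ t := b3_dom (by linarith) (by linarith) (Or.inr (by linarith))
  have hD0 : DomR κ (t - h) := b3_dom (by linarith) (by linarith) (Or.inr (by linarith))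
  have y1 := yA9 hD1 hk1 hk2 (by linarith) (by linarith)
  have y0 := yB9 hD0 hk1 hk2 (by linarith) (by linarith)
  have j1 := T3_01_d1_2 hD1 hβ hk1 hk2 (by linarith) (by linarith) hR0 hR
  exact b3_piece 0.3 0.33 0.197 0.232 0.214 0.80734 0.8212 0.79295 0.271 1.4546 1.5325 0.06 0.03 0.03 0.5155 0.1159 0 0 (-0.362) (-0.299) (-0.331) 1.39235 1.4362 0.474 0.4612 0.05 0.105 0.095 2.3205 1.6197 1.02 1.0484 0.7243 5.74
    hβ hr hκ (by norm_num) hk1 hk2 hD1 hD0 j1 (j1 _ (by rw [sub_self, norm_zero]; norm_num))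
    (T3_01_d0_2 hD0 hβ hk1 hk2 (by linarith) (by linarith) hR0 hR)
    (T3_01_p0 hD0 hβ hk1 hk2 (by linarith) (by linarith) hR0 hR)
    y1.1 y1.2 y0.1 y0.2 (by norm_num)
    (ex_um 0.197 (by norm_num) (by norm_num) (by norm_num) (by norm_num)) (ex_um 0.232 (by norm_num) (by norm_num) (by norm_num) (by norm_num)) (ex_lm 0.214 (by norm_num) (by norm_num) (by norm_num) (by norm_num) (by norm_num)) (by norm_num) (by norm_num) (by norm_num) (by norm_num) (by norm_num) (by norm_num) (by norm_num) (by norm_num)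
    (by norm_num) (by norm_num) (by norm_num) (by norm_num) (by norm_num) (by norm_num) (by norm_num) (by norm_num) (by norm_num) (by norm_num)
    (ex_up 0.362 (by norm_num) (by norm_num) (by norm_num) (by norm_num)) (ex_lp 0.331 (by norm_num) (by norm_num) (by norm_num)) (by norm_num) (by norm_num) (by norm_num) (by norm_num) (by norm_num) (by norm_num)
    (by norm_num) (by norm_num) (by norm_num) (by norm_num) (by norm_num) (by norm_num) (by norm_num) (by norm_num) (by norm_num) (by norm_num) (by norm_num)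
    (by norm_num) (by norm_num) (by norm_num) (by norm_num)

private theorem yA10 {κ t : ℝ} (h : DomR κ t) (hk1 : 0.3 ≤ κ) (hk2 : κ ≤ 0.33) (ht1 : 1.27 ≤ t + κ) (ht2 : t + κ ≤ 1.288) :
    0.197 ≤ sy κ t ∧ sy κ t ≤ 0.233 := by
  have hy1 : 0.197 ≤ sy κ t := syR_ge h 0.3 0.33 1.27 0.197 1.21774 1.21775 0.72695 0.79966 hk1 hk2 (by linarith) (by norm_num) (by norm_num)
    (expn_ge (by norm_num) (by norm_num)) (expn_le (by norm_num) (by norm_num) (by norm_num)) (by norm_num)
    (by norm_num) (by norm_num) (by norm_num) (by norm_num) (by norm_num) (by norm_num)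
  have hy2 : sy κ t ≤ 0.233 := syR_ang2 h 0.3 0.33 1.288 1.099 0.4569 0.8912 0.233 0.79216 1.26238 hk1 hk2 (by linarith) (by norm_num) (by norm_num) (by norm_num)
    (cos_le_num (by norm_num)) (sin_le_num (by norm_num) (by norm_num)) (expm_le (by norm_num) (by norm_num) (by norm_num))
    (expn_ge (by norm_num) (by norm_num)) (by norm_num) (by norm_num) (by norm_num) (by norm_num) (by norm_num)
  exact ⟨hy1, hy2⟩

private theorem yB10 {κ t : ℝ} (h : DomR κ t) (hk1 : 0.3 ≤ κ) (hk2 : κ ≤ 0.33) (ht1 : -0.8244 ≤ t + κ) (ht2 : t + κ ≤ -0.80639) :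
    (-0.35) ≤ sy κ t ∧ sy κ t ≤ (-0.291) := by
  have hy1 : -0.35 ≤ sy κ t := syL_ang2 h 0.3 0.33 0.8244 0.843 0.6652 0.7468 0.35 1.41906 0.70468 hk1 hk2 (by linarith) (by norm_num) (by norm_num) (by norm_num) (by norm_num)
    (cos_ge_num (by norm_num) (by norm_num)) (sin_le_num (by norm_num) (by norm_num))
    (expn_ge (by norm_num) (by norm_num)) (expm_ge (by norm_num) (by norm_num) (by norm_num) (by norm_num)) (by norm_num) (by norm_num) (by norm_num)
    (by norm_num) (by norm_num) (by norm_num)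
  have hy2 : sy κ t ≤ -0.291 := syL_le h 0.3 0.33 0.80639 0.291 0.74751 0.74752 0.65916 0.7251 hk1 hk2 (by linarith) (by norm_num) (by norm_num) (by norm_num)
    (expm_ge (by norm_num) (by norm_num) (by norm_num) (by norm_num)) (expm_le (by norm_num) (by norm_num) (by norm_num)) (by norm_num)
    (by norm_num) (by norm_num) (by norm_num) (by norm_num) (by norm_num) (by norm_num)
  exact ⟨hy1, hy2⟩

theorem pc10 {β r h t κ : ℝ} (hh : h = 2 * Real.pi / (3 : ℕ)) (hβ : 0 < β) (hr : 10 ≤ r) (hκ : κ = β * r)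
    (hk1 : 0.3 ≤ κ) (hk2 : κ ≤ 0.33) (hT1 : 1.27 ≤ t + κ) (hT2 : t + κ ≤ 1.288) :
    Xf β r h t 0 ≠ 0 ∧ r * 0.7243 ≤ (Ld β r h t 1 - Ld β r h t 0).im ∧
      ‖(((-1 : ℤ) : ℂ) - 1) * Ld β r h t 0 - ((-1 : ℤ) : ℂ) * Ld β r h t 1‖ ≤ r * 5.74 := by
  obtain ⟨q1, q2, q3⟩ := b3_h hh
  have hR0 := b3_R0 hβ hr hκ
  have hR := b3_R hβ hr hκ (by linarith)
  have hD1 : DomR κ t := b3_dom (by linarith) (by linarith) (Or.inr (by linarith))
  have hD0 : DomR κ (t - h) := b3_dom (by linarith) (by linarith) (Or.inr (by linarith))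
  have y1 := yA10 hD1 hk1 hk2 (by linarith) (by linarith)
  have y0 := yB10 hD0 hk1 hk2 (by linarith) (by linarith)
  have j1 := T3_01_d1_2 hD1 hβ hk1 hk2 (by linarith) (by linarith) hR0 hR
  exact b3_piece 0.3 0.33 0.197 0.233 0.215 0.80654 0.8212 0.79216 0.271 1.4546 1.5344 0.06 0.03 0.03 0.5155 0.1159 0 0 (-0.35) (-0.291) (-0.321) 1.3785 1.41907 0.4683 0.4809 0.05 0.105 0.095 2.3205 1.5671 0.9744 0.9489 0.7243 5.74
    hβ hr hκ (by norm_num) hk1 hk2 hD1 hD0 j1 (j1 _ (by rw [sub_self, norm_zero]; norm_num))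
    (T3_01_d0_2 hD0 hβ hk1 hk2 (by linarith) (by linarith) hR0 hR)
    (T3_01_p0 hD0 hβ hk1 hk2 (by linarith) (by linarith) hR0 hR)
    y1.1 y1.2 y0.1 y0.2 (by norm_num)
    (ex_um 0.197 (by norm_num) (by norm_num) (by norm_num) (by norm_num)) (ex_um 0.233 (by norm_num) (by norm_num) (by norm_num) (by norm_num)) (ex_lm 0.215 (by norm_num) (by norm_num) (by norm_num) (by norm_num) (by norm_num)) (by norm_num) (by norm_num) (by norm_num) (by norm_num) (by norm_num) (by norm_num) (by norm_num) (by norm_num)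
    (by norm_num) (by norm_num) (by norm_num) (by norm_num) (by norm_num) (by norm_num) (by norm_num) (by norm_num) (by norm_num) (by norm_num)
    (ex_up 0.35 (by norm_num) (by norm_num) (by norm_num) (by norm_num)) (ex_lp 0.321 (by norm_num) (by norm_num) (by norm_num)) (by norm_num) (by norm_num) (by norm_num) (by norm_num) (by norm_num) (by norm_num)
    (by norm_num) (by norm_num) (by norm_num) (by norm_num) (by norm_num) (by norm_num) (by norm_num) (by norm_num) (by norm_num) (by norm_num) (by norm_num)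
    (by norm_num) (by norm_num) (by norm_num) (by norm_num)

private theorem yA11 {κ t : ℝ} (h : DomR κ t) (hk1 : 0.3 ≤ κ) (hk2 : κ ≤ 0.33) (ht1 : 1.288 ≤ t + κ) (ht2 : t + κ ≤ 1.307) :
    0.197 ≤ sy κ t ∧ sy κ t ≤ 0.235 := by
  have hy1 : 0.197 ≤ sy κ t := syR_ge h 0.3 0.33 1.288 0.197 1.21774 1.21775 0.72695 0.79966 hk1 hk2 (by linarith) (by norm_num) (by norm_num)
    (expn_ge (by norm_num) (by norm_num)) (expn_le (by norm_num) (by norm_num) (by norm_num)) (by norm_num)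
    (by norm_num) (by norm_num) (by norm_num) (by norm_num) (by norm_num) (by norm_num)
  have hy2 : sy κ t ≤ 0.235 := syR_ang2 h 0.3 0.33 1.307 1.12 0.4384 0.9006 0.235 0.79058 1.2649 hk1 hk2 (by linarith) (by norm_num) (by norm_num) (by norm_num)
    (cos_le_num (by norm_num)) (sin_le_num (by norm_num) (by norm_num)) (expm_le (by norm_num) (by norm_num) (by norm_num))
    (expn_ge (by norm_num) (by norm_num)) (by norm_num) (by norm_num) (by norm_num) (by norm_num) (by norm_num)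
  exact ⟨hy1, hy2⟩

private theorem yB11 {κ t : ℝ} (h : DomR κ t) (hk1 : 0.3 ≤ κ) (hk2 : κ ≤ 0.33) (ht1 : -0.8064 ≤ t + κ) (ht2 : t + κ ≤ -0.78739) :
    (-0.339) ≤ sy κ t ∧ sy κ t ≤ (-0.283) := by
  have hy1 : -0.339 ≤ sy κ t := syL_ang2 h 0.3 0.33 0.8064 0.821 0.6814 0.7319 0.339 1.40354 0.71248 hk1 hk2 (by linarith) (by norm_num) (by norm_num) (by norm_num) (by norm_num)
    (cos_ge_num (by norm_num) (by norm_num)) (sin_le_num (by norm_num) (by norm_num))
    (expn_ge (by norm_num) (by norm_num)) (expm_ge (by norm_num) (by norm_num) (by norm_num) (by norm_num)) (by norm_num) (by norm_num) (by norm_num)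
    (by norm_num) (by norm_num) (by norm_num)
  have hy2 : sy κ t ≤ -0.283 := syL_le h 0.3 0.33 0.78739 0.283 0.75351 0.75352 0.64619 0.71083 hk1 hk2 (by linarith) (by norm_num) (by norm_num) (by norm_num)
    (expm_ge (by norm_num) (by norm_num) (by norm_num) (by norm_num)) (expm_le (by norm_num) (by norm_num) (by norm_num)) (by norm_num)
    (by norm_num) (by norm_num) (by norm_num) (by norm_num) (by norm_num) (by norm_num)
  exact ⟨hy1, hy2⟩

theorem pc11 {β r h t κ : ℝ} (hh : h = 2 * Real.pi / (3 : ℕ)) (hβ : 0 < β) (hr : 10 ≤ r) (hκ : κ = β * r)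
    (hk1 : 0.3 ≤ κ) (hk2 : κ ≤ 0.33) (hT1 : 1.288 ≤ t + κ) (hT2 : t + κ ≤ 1.307) :
    Xf β r h t 0 ≠ 0 ∧ r * 0.7243 ≤ (Ld β r h t 1 - Ld β r h t 0).im ∧
      ‖(((-1 : ℤ) : ℂ) - 1) * Ld β r h t 0 - ((-1 : ℤ) : ℂ) * Ld β r h t 1‖ ≤ r * 5.74 := by
  obtain ⟨q1, q2, q3⟩ := b3_h hh
  have hR0 := b3_R0 hβ hr hκ
  have hR := b3_R hβ hr hκ (by linarith)
  have hD1 : DomR κ t := b3_dom (by linarith) (by linarith) (Or.inr (by linarith))
  have hD0 : DomR κ (t - h) := b3_dom (by linarith) (by linarith) (Or.inr (by linarith))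
  have y1 := yA11 hD1 hk1 hk2 (by linarith) (by linarith)
  have y0 := yB11 hD0 hk1 hk2 (by linarith) (by linarith)
  have j1 := T3_01_d1_2 hD1 hβ hk1 hk2 (by linarith) (by linarith) hR0 hR
  exact b3_piece 0.3 0.33 0.197 0.235 0.216 0.80573 0.8212 0.79058 0.271 1.4546 1.5381 0.06 0.03 0.03 0.5155 0.1159 0 0 (-0.339) (-0.283) (-0.311) 1.36478 1.40355 0.4632 0.499 0.05 0.105 0.095 2.3205 1.5216 0.9369 0.8697 0.7243 5.74
    hβ hr hκ (by norm_num) hk1 hk2 hD1 hD0 j1 (j1 _ (by rw [sub_self, norm_zero]; norm_num))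
    (T3_01_d0_2 hD0 hβ hk1 hk2 (by linarith) (by linarith) hR0 hR)
    (T3_01_p0 hD0 hβ hk1 hk2 (by linarith) (by linarith) hR0 hR)
    y1.1 y1.2 y0.1 y0.2 (by norm_num)
    (ex_um 0.197 (by norm_num) (by norm_num) (by norm_num) (by norm_num)) (ex_um 0.235 (by norm_num) (by norm_num) (by norm_num) (by norm_num)) (ex_lm 0.216 (by norm_num) (by norm_num) (by norm_num) (by norm_num) (by norm_num)) (by norm_num) (by norm_num) (by norm_num) (by norm_num) (by norm_num) (by norm_num) (by norm_num) (by norm_num)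
    (by norm_num) (by norm_num) (by norm_num) (by norm_num) (by norm_num) (by norm_num) (by norm_num) (by norm_num) (by norm_num) (by norm_num)
    (ex_up 0.339 (by norm_num) (by norm_num) (by norm_num) (by norm_num)) (ex_lp 0.311 (by norm_num) (by norm_num) (by norm_num)) (by norm_num) (by norm_num) (by norm_num) (by norm_num) (by norm_num) (by norm_num)
    (by norm_num) (by norm_num) (by norm_num) (by norm_num) (by norm_num) (by norm_num) (by norm_num) (by norm_num) (by norm_num) (by norm_num) (by norm_num)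
    (by norm_num) (by norm_num) (by norm_num) (by norm_num)

private theorem yA12 {κ t : ℝ} (h : DomR κ t) (hk1 : 0.3 ≤ κ) (hk2 : κ ≤ 0.33) (ht1 : 1.307 ≤ t + κ) (ht2 : t + κ ≤ 1.326) :
    0.197 ≤ sy κ t ∧ sy κ t ≤ 0.236 := by
  have hy1 : 0.197 ≤ sy κ t := syR_ge h 0.3 0.33 1.307 0.197 1.21774 1.21775 0.72695 0.79966 hk1 hk2 (by linarith) (by norm_num) (by norm_num)
    (expn_ge (by norm_num) (by norm_num)) (expn_le (by norm_num) (by norm_num) (by norm_num)) (by norm_num)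
    (by norm_num) (by norm_num) (by norm_num) (by norm_num) (by norm_num) (by norm_num)
  have hy2 : sy κ t ≤ 0.236 := syR_ang2 h 0.3 0.33 1.326 1.131 0.4286 0.9053 0.236 0.78979 1.26617 hk1 hk2 (by linarith) (by norm_num) (by norm_num) (by norm_num)
    (cos_le_num (by norm_num)) (sin_le_num (by norm_num) (by norm_num)) (expm_le (by norm_num) (by norm_num) (by norm_num))
    (expn_ge (by norm_num) (by norm_num)) (by norm_num) (by norm_num) (by norm_num) (by norm_num) (by norm_num)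
  exact ⟨hy1, hy2⟩

private theorem yB12 {κ t : ℝ} (h : DomR κ t) (hk1 : 0.3 ≤ κ) (hk2 : κ ≤ 0.33) (ht1 : -0.7874 ≤ t + κ) (ht2 : t + κ ≤ -0.76839) :
    (-0.329) ≤ sy κ t ∧ sy κ t ≤ (-0.275) := by
  have hy1 : -0.329 ≤ sy κ t := syL_ang2 h 0.3 0.33 0.7874 0.8 0.6967 0.7174 0.329 1.38957 0.71964 hk1 hk2 (by linarith) (by norm_num) (by norm_num) (by norm_num) (by norm_num)
    (cos_ge_num (by norm_num) (by norm_num)) (sin_le_num (by norm_num) (by norm_num))
    (expn_ge (by norm_num) (by norm_num)) (expm_ge (by norm_num) (by norm_num) (by norm_num) (by norm_num)) (by norm_num) (by norm_num) (by norm_num)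
    (by norm_num) (by norm_num) (by norm_num)
  have hy2 : sy κ t ≤ -0.275 := syL_le h 0.3 0.33 0.76839 0.275 0.75957 0.75958 0.63297 0.69629 hk1 hk2 (by linarith) (by norm_num) (by norm_num) (by norm_num)
    (expm_ge (by norm_num) (by norm_num) (by norm_num) (by norm_num)) (expm_le (by norm_num) (by norm_num) (by norm_num)) (by norm_num)
    (by norm_num) (by norm_num) (by norm_num) (by norm_num) (by norm_num) (by norm_num)
  exact ⟨hy1, hy2⟩

theorem pc12 {β r h t κ : ℝ} (hh : h = 2 * Real.pi / (3 : ℕ)) (hβ : 0 < β) (hr : 10 ≤ r) (hκ : κ = β * r)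
    (hk1 : 0.3 ≤ κ) (hk2 : κ ≤ 0.33) (hT1 : 1.307 ≤ t + κ) (hT2 : t + κ ≤ 1.326) :
    Xf β r h t 0 ≠ 0 ∧ r * 0.7243 ≤ (Ld β r h t 1 - Ld β r h t 0).im ∧
      ‖(((-1 : ℤ) : ℂ) - 1) * Ld β r h t 0 - ((-1 : ℤ) : ℂ) * Ld β r h t 1‖ ≤ r * 5.74 := by
  obtain ⟨q1, q2, q3⟩ := b3_h hh
  have hR0 := b3_R0 hβ hr hκ
  have hR := b3_R hβ hr hκ (by linarith)
  have hD1 : DomR κ t := b3_dom (by linarith) (by linarith) (Or.inr (by linarith))
  have hD0 : DomR κ (t - h) := b3_dom (by linarith) (by linarith) (Or.inr (by linarith))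
  have y1 := yA12 hD1 hk1 hk2 (by linarith) (by linarith)
  have y0 := yB12 hD0 hk1 hk2 (by linarith) (by linarith)
  have j1 := T3_01_d1_2 hD1 hβ hk1 hk2 (by linarith) (by linarith) hR0 hR
  exact b3_piece 0.3 0.33 0.197 0.236 0.216 0.80573 0.8212 0.78979 0.271 1.4546 1.54 0.06 0.03 0.03 0.5155 0.1159 0 0 (-0.329) (-0.275) (-0.302) 1.35256 1.38958 0.4586 0.5155 0.05 0.105 0.095 2.3205 1.4822 0.9065 0.8065 0.7243 5.74
    hβ hr hκ (by norm_num) hk1 hk2 hD1 hD0 j1 (j1 _ (by rw [sub_self, norm_zero]; norm_num))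
    (T3_01_d0_2 hD0 hβ hk1 hk2 (by linarith) (by linarith) hR0 hR)
    (T3_01_p0 hD0 hβ hk1 hk2 (by linarith) (by linarith) hR0 hR)
    y1.1 y1.2 y0.1 y0.2 (by norm_num)
    (ex_um 0.197 (by norm_num) (by norm_num) (by norm_num) (by norm_num)) (ex_um 0.236 (by norm_num) (by norm_num) (by norm_num) (by norm_num)) (ex_lm 0.216 (by norm_num) (by norm_num) (by norm_num) (by norm_num) (by norm_num)) (by norm_num) (by norm_num) (by norm_num) (by norm_num) (by norm_num) (by norm_num) (by norm_num) (by norm_num)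
    (by norm_num) (by norm_num) (by norm_num) (by norm_num) (by norm_num) (by norm_num) (by norm_num) (by norm_num) (by norm_num) (by norm_num)
    (ex_up 0.329 (by norm_num) (by norm_num) (by norm_num) (by norm_num)) (ex_lp 0.302 (by norm_num) (by norm_num) (by norm_num)) (by norm_num) (by norm_num) (by norm_num) (by norm_num) (by norm_num) (by norm_num)
    (by norm_num) (by norm_num) (by norm_num) (by norm_num) (by norm_num) (by norm_num) (by norm_num) (by norm_num) (by norm_num) (by norm_num) (by norm_num)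
    (by norm_num) (by norm_num) (by norm_num) (by norm_num)

private theorem yA13 {κ t : ℝ} (h : DomR κ t) (hk1 : 0.3 ≤ κ) (hk2 : κ ≤ 0.33) (ht1 : 1.326 ≤ t + κ) (ht2 : t + κ ≤ 1.345) :
    0.197 ≤ sy κ t ∧ sy κ t ≤ 0.238 := by
  have hy1 : 0.197 ≤ sy κ t := syR_ge h 0.3 0.33 1.326 0.197 1.21774 1.21775 0.72695 0.79966 hk1 hk2 (by linarith) (by norm_num) (by norm_num)
    (expn_ge (by norm_num) (by norm_num)) (expn_le (by norm_num) (by norm_num) (by norm_num)) (by norm_num)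
    (by norm_num) (by norm_num) (by norm_num) (by norm_num) (by norm_num) (by norm_num)
  have hy2 : sy κ t ≤ 0.238 := syR_ang2 h 0.3 0.33 1.345 1.154 0.4081 0.915 0.238 0.78821 1.2687 hk1 hk2 (by linarith) (by norm_num) (by norm_num) (by norm_num)
    (cos_le_num (by norm_num)) (sin_le_num (by norm_num) (by norm_num)) (expm_le (by norm_num) (by norm_num) (by norm_num))
    (expn_ge (by norm_num) (by norm_num)) (by norm_num) (by norm_num) (by norm_num) (by norm_num) (by norm_num)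
  exact ⟨hy1, hy2⟩

private theorem yB13 {κ t : ℝ} (h : DomR κ t) (hk1 : 0.3 ≤ κ) (hk2 : κ ≤ 0.33) (ht1 : -0.7684 ≤ t + κ) (ht2 : t + κ ≤ -0.74939) :
    (-0.318) ≤ sy κ t ∧ sy κ t ≤ (-0.266) := by
  have hy1 : -0.318 ≤ sy κ t := syL_ang2 h 0.3 0.33 0.7684 0.776 0.7137 0.7005 0.318 1.37437 0.7276 hk1 hk2 (by linarith) (by norm_num) (by norm_num) (by norm_num) (by norm_num)
    (cos_ge_num (by norm_num) (by norm_num)) (sin_le_num (by norm_num) (by norm_num))
    (expn_ge (by norm_num) (by norm_num)) (expm_ge (by norm_num) (by norm_num) (by norm_num) (by norm_num)) (by norm_num) (by norm_num) (by norm_num)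
    (by norm_num) (by norm_num) (by norm_num)
  have hy2 : sy κ t ≤ -0.266 := syL_le h 0.3 0.33 0.74939 0.266 0.76643 0.76644 0.61778 0.67958 hk1 hk2 (by linarith) (by norm_num) (by norm_num) (by norm_num)
    (expm_ge (by norm_num) (by norm_num) (by norm_num) (by norm_num)) (expm_le (by norm_num) (by norm_num) (by norm_num)) (by norm_num)
    (by norm_num) (by norm_num) (by norm_num) (by norm_num) (by norm_num) (by norm_num)
  exact ⟨hy1, hy2⟩

theorem pc13 {β r h t κ : ℝ} (hh : h = 2 * Real.pi / (3 : ℕ)) (hβ : 0 < β) (hr : 10 ≤ r) (hκ : κ = β * r)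
    (hk1 : 0.3 ≤ κ) (hk2 : κ ≤ 0.33) (hT1 : 1.326 ≤ t + κ) (hT2 : t + κ ≤ 1.345) :
    Xf β r h t 0 ≠ 0 ∧ r * 0.7243 ≤ (Ld β r h t 1 - Ld β r h t 0).im ∧
      ‖(((-1 : ℤ) : ℂ) - 1) * Ld β r h t 0 - ((-1 : ℤ) : ℂ) * Ld β r h t 1‖ ≤ r * 5.74 := by
  obtain ⟨q1, q2, q3⟩ := b3_h hh
  have hR0 := b3_R0 hβ hr hκ
  have hR := b3_R hβ hr hκ (by linarith)
  have hD1 : DomR κ t := b3_dom (by linarith) (by linarith) (Or.inr (by linarith))
  have hD0 : DomR κ (t - h) := b3_dom (by linarith) (by linarith) (Or.inr (by linarith))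
  have y1 := yA13 hD1 hk1 hk2 (by linarith) (by linarith)
  have y0 := yB13 hD0 hk1 hk2 (by linarith) (by linarith)
  have j1 := T3_01_d1_2 hD1 hβ hk1 hk2 (by linarith) (by linarith) hR0 hR
  exact b3_piece 0.3 0.33 0.197 0.238 0.217 0.80492 0.8212 0.78821 0.271 1.4546 1.5437 0.06 0.03 0.03 0.5155 0.1159 0 0 (-0.318) (-0.266) (-0.292) 1.3391 1.37438 0.4536 0.5337 0.05 0.105 0.095 2.3205 1.4409 0.8754 0.7441 0.7243 5.74
    hβ hr hκ (by norm_num) hk1 hk2 hD1 hD0 j1 (j1 _ (by rw [sub_self, norm_zero]; norm_num))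
    (T3_01_d0_2 hD0 hβ hk1 hk2 (by linarith) (by linarith) hR0 hR)
    (T3_01_p0 hD0 hβ hk1 hk2 (by linarith) (by linarith) hR0 hR)
    y1.1 y1.2 y0.1 y0.2 (by norm_num)
    (ex_um 0.197 (by norm_num) (by norm_num) (by norm_num) (by norm_num)) (ex_um 0.238 (by norm_num) (by norm_num) (by norm_num) (by norm_num)) (ex_lm 0.217 (by norm_num) (by norm_num) (by norm_num) (by norm_num) (by norm_num)) (by norm_num) (by norm_num) (by norm_num) (by norm_num) (by norm_num) (by norm_num) (by norm_num) (by norm_num)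
    (by norm_num) (by norm_num) (by norm_num) (by norm_num) (by norm_num) (by norm_num) (by norm_num) (by norm_num) (by norm_num) (by norm_num)
    (ex_up 0.318 (by norm_num) (by norm_num) (by norm_num) (by norm_num)) (ex_lp 0.292 (by norm_num) (by norm_num) (by norm_num)) (by norm_num) (by norm_num) (by norm_num) (by norm_num) (by norm_num) (by norm_num)
    (by norm_num) (by norm_num) (by norm_num) (by norm_num) (by norm_num) (by norm_num) (by norm_num) (by norm_num) (by norm_num) (by norm_num) (by norm_num)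
    (by norm_num) (by norm_num) (by norm_num) (by norm_num)

private theorem yA14 {κ t : ℝ} (h : DomR κ t) (hk1 : 0.3 ≤ κ) (hk2 : κ ≤ 0.33) (ht1 : 1.345 ≤ t + κ) (ht2 : t + κ ≤ 1.363) :
    0.197 ≤ sy κ t ∧ sy κ t ≤ 0.239 := by
  have hy1 : 0.197 ≤ sy κ t := syR_ge h 0.3 0.33 1.345 0.197 1.21774 1.21775 0.72695 0.79966 hk1 hk2 (by linarith) (by norm_num) (by norm_num)
    (expn_ge (by norm_num) (by norm_num)) (expn_le (by norm_num) (by norm_num) (by norm_num)) (by norm_num)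
    (by norm_num) (by norm_num) (by norm_num) (by norm_num) (by norm_num) (by norm_num)
  have hy2 : sy κ t ≤ 0.239 := syR_ang2 h 0.3 0.33 1.363 1.165 0.3982 0.9194 0.239 0.78742 1.26997 hk1 hk2 (by linarith) (by norm_num) (by norm_num) (by norm_num)
    (cos_le_num (by norm_num)) (sin_le_num (by norm_num) (by norm_num)) (expm_le (by norm_num) (by norm_num) (by norm_num))
    (expn_ge (by norm_num) (by norm_num)) (by norm_num) (by norm_num) (by norm_num) (by norm_num) (by norm_num)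
  exact ⟨hy1, hy2⟩

private theorem yB14 {κ t : ℝ} (h : DomR κ t) (hk1 : 0.3 ≤ κ) (hk2 : κ ≤ 0.33) (ht1 : -0.7494 ≤ t + κ) (ht2 : t + κ ≤ -0.73139) :
    (-0.307) ≤ sy κ t ∧ sy κ t ≤ (-0.259) := by
  have hy1 : -0.307 ≤ sy κ t := syL_ang2 h 0.3 0.33 0.7494 0.753 0.7296 0.6839 0.307 1.35934 0.73565 hk1 hk2 (by linarith) (by norm_num) (by norm_num) (by norm_num) (by norm_num)
    (cos_ge_num (by norm_num) (by norm_num)) (sin_le_num (by norm_num) (by norm_num))
    (expn_ge (by norm_num) (by norm_num)) (expm_ge (by norm_num) (by norm_num) (by norm_num) (by norm_num)) (by norm_num) (by norm_num) (by norm_num)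
    (by norm_num) (by norm_num) (by norm_num)
  have hy2 : sy κ t ≤ -0.259 := syL_le h 0.3 0.33 0.73139 0.259 0.77182 0.77183 0.60576 0.66635 hk1 hk2 (by linarith) (by norm_num) (by norm_num) (by norm_num)
    (expm_ge (by norm_num) (by norm_num) (by norm_num) (by norm_num)) (expm_le (by norm_num) (by norm_num) (by norm_num)) (by norm_num)
    (by norm_num) (by norm_num) (by norm_num) (by norm_num) (by norm_num) (by norm_num)
  exact ⟨hy1, hy2⟩

theorem pc14 {β r h t κ : ℝ} (hh : h = 2 * Real.pi / (3 : ℕ)) (hβ : 0 < β) (hr : 10 ≤ r) (hκ : κ = β * r)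
    (hk1 : 0.3 ≤ κ) (hk2 : κ ≤ 0.33) (hT1 : 1.345 ≤ t + κ) (hT2 : t + κ ≤ 1.363) :
    Xf β r h t 0 ≠ 0 ∧ r * 0.7243 ≤ (Ld β r h t 1 - Ld β r h t 0).im ∧
      ‖(((-1 : ℤ) : ℂ) - 1) * Ld β r h t 0 - ((-1 : ℤ) : ℂ) * Ld β r h t 1‖ ≤ r * 5.74 := by
  obtain ⟨q1, q2, q3⟩ := b3_h hh
  have hR0 := b3_R0 hβ hr hκ
  have hR := b3_R hβ hr hκ (by linarith)
  have hD1 : DomR κ t := b3_dom (by linarith) (by linarith) (Or.inr (by linarith))
  have hD0 : DomR κ (t - h) := b3_dom (by linarith) (by linarith) (Or.inr (by linarith))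
  have y1 := yA14 hD1 hk1 hk2 (by linarith) (by linarith)
  have y0 := yB14 hD0 hk1 hk2 (by linarith) (by linarith)
  have j1 := T3_01_d1_2 hD1 hβ hk1 hk2 (by linarith) (by linarith) hR0 hR
  exact b3_piece 0.3 0.33 0.197 0.239 0.218 0.80412 0.8212 0.78742 0.271 1.4546 1.5456 0.06 0.03 0.03 0.5155 0.1159 0 0 (-0.307) (-0.259) (-0.283) 1.3271 1.35935 0.4486 0.5521 0.05 0.105 0.095 2.3205 1.401 0.8422 0.6844 0.7243 5.74
    hβ hr hκ (by norm_num) hk1 hk2 hD1 hD0 j1 (j1 _ (by rw [sub_self, norm_zero]; norm_num))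
    (T3_01_d0_2 hD0 hβ hk1 hk2 (by linarith) (by linarith) hR0 hR)
    (T3_01_p0 hD0 hβ hk1 hk2 (by linarith) (by linarith) hR0 hR)
    y1.1 y1.2 y0.1 y0.2 (by norm_num)
    (ex_um 0.197 (by norm_num) (by norm_num) (by norm_num) (by norm_num)) (ex_um 0.239 (by norm_num) (by norm_num) (by norm_num) (by norm_num)) (ex_lm 0.218 (by norm_num) (by norm_num) (by norm_num) (by norm_num) (by norm_num)) (by norm_num) (by norm_num) (by norm_num) (by norm_num) (by norm_num) (by norm_num) (by norm_num) (by norm_num)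
    (by norm_num) (by norm_num) (by norm_num) (by norm_num) (by norm_num) (by norm_num) (by norm_num) (by norm_num) (by norm_num) (by norm_num)
    (ex_up 0.307 (by norm_num) (by norm_num) (by norm_num) (by norm_num)) (ex_lp 0.283 (by norm_num) (by norm_num) (by norm_num)) (by norm_num) (by norm_num) (by norm_num) (by norm_num) (by norm_num) (by norm_num)
    (by norm_num) (by norm_num) (by norm_num) (by norm_num) (by norm_num) (by norm_num) (by norm_num) (by norm_num) (by norm_num) (by norm_num) (by norm_num)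
    (by norm_num) (by norm_num) (by norm_num) (by norm_num)

private theorem yA15 {κ t : ℝ} (h : DomR κ t) (hk1 : 0.3 ≤ κ) (hk2 : κ ≤ 0.33) (ht1 : 1.363 ≤ t + κ) (ht2 : t + κ ≤ 1.382) :
    0.197 ≤ sy κ t ∧ sy κ t ≤ 0.24 := by
  have hy1 : 0.197 ≤ sy κ t := syR_ge h 0.3 0.33 1.363 0.197 1.21774 1.21775 0.72695 0.79966 hk1 hk2 (by linarith) (by norm_num) (by norm_num)
    (expn_ge (by norm_num) (by norm_num)) (expn_le (by norm_num) (by norm_num) (by norm_num)) (by norm_num)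
    (by norm_num) (by norm_num) (by norm_num) (by norm_num) (by norm_num) (by norm_num)
  have hy2 : sy κ t ≤ 0.24 := syR_ang2 h 0.3 0.33 1.382 1.178 0.3864 0.9245 0.24 0.78663 1.27124 hk1 hk2 (by linarith) (by norm_num) (by norm_num) (by norm_num)
    (cos_le_num (by norm_num)) (sin_le_num (by norm_num) (by norm_num)) (expm_le (by norm_num) (by norm_num) (by norm_num))
    (expn_ge (by norm_num) (by norm_num)) (by norm_num) (by norm_num) (by norm_num) (by norm_num) (by norm_num)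
  exact ⟨hy1, hy2⟩

private theorem yB15 {κ t : ℝ} (h : DomR κ t) (hk1 : 0.3 ≤ κ) (hk2 : κ ≤ 0.33) (ht1 : -0.7314 ≤ t + κ) (ht2 : t + κ ≤ -0.71239) :
    (-0.297) ≤ sy κ t ∧ sy κ t ≤ (-0.251) := by
  have hy1 : -0.297 ≤ sy κ t := syL_ang2 h 0.3 0.33 0.7314 0.732 0.7438 0.6684 0.297 1.34581 0.74304 hk1 hk2 (by linarith) (by norm_num) (by norm_num) (by norm_num) (by norm_num)
    (cos_ge_num (by norm_num) (by norm_num)) (sin_le_num (by norm_num) (by norm_num))
    (expn_ge (by norm_num) (by norm_num)) (expm_ge (by norm_num) (by norm_num) (by norm_num) (by norm_num)) (by norm_num) (by norm_num) (by norm_num)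
    (by norm_num) (by norm_num) (by norm_num)
  have hy2 : sy κ t ≤ -0.251 := syL_le h 0.3 0.33 0.71239 0.251 0.77802 0.77803 0.59176 0.65096 hk1 hk2 (by linarith) (by norm_num) (by norm_num) (by norm_num)
    (expm_ge (by norm_num) (by norm_num) (by norm_num) (by norm_num)) (expm_le (by norm_num) (by norm_num) (by norm_num)) (by norm_num)
    (by norm_num) (by norm_num) (by norm_num) (by norm_num) (by norm_num) (by norm_num)
  exact ⟨hy1, hy2⟩

theorem pc15 {β r h t κ : ℝ} (hh : h = 2 * Real.pi / (3 : ℕ)) (hβ : 0 < β) (hr : 10 ≤ r) (hκ : κ = β * r)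
    (hk1 : 0.3 ≤ κ) (hk2 : κ ≤ 0.33) (hT1 : 1.363 ≤ t + κ) (hT2 : t + κ ≤ 1.382) :
    Xf β r h t 0 ≠ 0 ∧ r * 0.7243 ≤ (Ld β r h t 1 - Ld β r h t 0).im ∧
      ‖(((-1 : ℤ) : ℂ) - 1) * Ld β r h t 0 - ((-1 : ℤ) : ℂ) * Ld β r h t 1‖ ≤ r * 5.74 := by
  obtain ⟨q1, q2, q3⟩ := b3_h hh
  have hR0 := b3_R0 hβ hr hκ
  have hR := b3_R hβ hr hκ (by linarith)
  have hD1 : DomR κ t := b3_dom (by linarith) (by linarith) (Or.inr (by linarith))
  have hD0 : DomR κ (t - h) := b3_dom (by linarith) (by linarith) (Or.inr (by linarith))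
  have y1 := yA15 hD1 hk1 hk2 (by linarith) (by linarith)
  have y0 := yB15 hD0 hk1 hk2 (by linarith) (by linarith)
  have j1 := T3_01_d1_2 hD1 hβ hk1 hk2 (by linarith) (by linarith) hR0 hR
  exact b3_piece 0.3 0.33 0.197 0.24 0.218 0.80412 0.8212 0.78663 0.271 1.4546 1.5474 0.06 0.03 0.03 0.5155 0.1159 0 0 (-0.297) (-0.251) (-0.274) 1.31521 1.34582 0.4442 0.5688 0.05 0.105 0.095 2.3205 1.3668 0.8169 0.638 0.7243 5.74
    hβ hr hκ (by norm_num) hk1 hk2 hD1 hD0 j1 (j1 _ (by rw [sub_self, norm_zero]; norm_num))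
    (T3_01_d0_2 hD0 hβ hk1 hk2 (by linarith) (by linarith) hR0 hR)
    (T3_01_p0 hD0 hβ hk1 hk2 (by linarith) (by linarith) hR0 hR)
    y1.1 y1.2 y0.1 y0.2 (by norm_num)
    (ex_um 0.197 (by norm_num) (by norm_num) (by norm_num) (by norm_num)) (ex_um 0.24 (by norm_num) (by norm_num) (by norm_num) (by norm_num)) (ex_lm 0.218 (by norm_num) (by norm_num) (by norm_num) (by norm_num) (by norm_num)) (by norm_num) (by norm_num) (by norm_num) (by norm_num) (by norm_num) (by norm_num) (by norm_num) (by norm_num)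
    (by norm_num) (by norm_num) (by norm_num) (by norm_num) (by norm_num) (by norm_num) (by norm_num) (by norm_num) (by norm_num) (by norm_num)
    (ex_up 0.297 (by norm_num) (by norm_num) (by norm_num) (by norm_num)) (ex_lp 0.274 (by norm_num) (by norm_num) (by norm_num)) (by norm_num) (by norm_num) (by norm_num) (by norm_num) (by norm_num) (by norm_num)
    (by norm_num) (by norm_num) (by norm_num) (by norm_num) (by norm_num) (by norm_num) (by norm_num) (by norm_num) (by norm_num) (by norm_num) (by norm_num)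
    (by norm_num) (by norm_num) (by norm_num) (by norm_num)

theorem innS {β r h t κ : ℝ} (hh : h = 2 * Real.pi / (3 : ℕ)) (hβ : 0 < β) (hr : 10 ≤ r) (hκ : κ = β * r)
    (hk1 : 0.3 ≤ κ) (hk2 : κ ≤ 0.33) (hT1 : 1.095 ≤ t + κ) (hT2 : t + κ ≤ 1.382) :
    Xf β r h t 0 ≠ 0 ∧ r * 0.7243 ≤ (Ld β r h t 1 - Ld β r h t 0).im ∧
      ‖(((-1 : ℤ) : ℂ) - 1) * Ld β r h t 0 - ((-1 : ℤ) : ℂ) * Ld β r h t 1‖ ≤ r * 5.74 := by
  rcases le_total (t + κ) 1.11 with f0 | g0
  · exact pc0 hh hβ hr hκ hk1 hk2 hT1 f0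
  rcases le_total (t + κ) 1.125 with f1 | g1
  · exact pc1 hh hβ hr hκ hk1 hk2 g0 f1
  rcases le_total (t + κ) 1.143 with f2 | g2
  · exact pc2 hh hβ hr hκ hk1 hk2 g1 f2
  rcases le_total (t + κ) 1.16 with f3 | g3
  · exact pc3 hh hβ hr hκ hk1 hk2 g2 f3
  rcases le_total (t + κ) 1.177 with f4 | g4
  · exact pc4 hh hβ hr hκ hk1 hk2 g3 f4
  rcases le_total (t + κ) 1.195 with f5 | g5
  · exact pc5 hh hβ hr hκ hk1 hk2 g4 f5
  rcases le_total (t + κ) 1.214 with f6 | g6
  · exact pc6 hh hβ hr hκ hk1 hk2 g5 f6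
  rcases le_total (t + κ) 1.232 with f7 | g7
  · exact pc7 hh hβ hr hκ hk1 hk2 g6 f7
  rcases le_total (t + κ) 1.251 with f8 | g8
  · exact pc8 hh hβ hr hκ hk1 hk2 g7 f8
  rcases le_total (t + κ) 1.27 with f9 | g9
  · exact pc9 hh hβ hr hκ hk1 hk2 g8 f9
  rcases le_total (t + κ) 1.288 with f10 | g10
  · exact pc10 hh hβ hr hκ hk1 hk2 g9 f10
  rcases le_total (t + κ) 1.307 with f11 | g11
  · exact pc11 hh hβ hr hκ hk1 hk2 g10 f11
  rcases le_total (t + κ) 1.326 with f12 | g12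
  · exact pc12 hh hβ hr hκ hk1 hk2 g11 f12
  rcases le_total (t + κ) 1.345 with f13 | g13
  · exact pc13 hh hβ hr hκ hk1 hk2 g12 f13
  rcases le_total (t + κ) 1.363 with f14 | g14
  · exact pc14 hh hβ hr hκ hk1 hk2 g13 f14
  exact pc15 hh hβ hr hκ hk1 hk2 g14 hT2

theorem circ {p : ℤ} (hp : IsCoprime (3 : ℤ) p) {β r : ℝ} (hβ : 0 < β) (hr : 10 ≤ r) (hk1 : 0.3 ≤ β * r)
    (hk2 : β * r ≤ 0.33) : Circ (2 * Real.pi * p / (3 : ℕ) + β) r := by
  obtain ⟨κ, hκ⟩ : ∃ κ, κ = β * r := ⟨_, rfl⟩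
  rw [← hκ] at hk1 hk2
  refine circ3 hp hr (h := 2 * Real.pi / (3 : ℕ)) (κ := κ) rfl 1.095 1.382 1.0228 0.7243 0.01743 0.01743 5.74 (by norm_num) (by norm_num) (by norm_num)
    (by norm_num) (by norm_num) ?_ ?_ ?_ ?_ ?_ (by norm_num) (by norm_num)
  · intro t h1 h2
    exact (innS rfl hβ hr hκ hk1 hk2 h1 h2).1
  · intro t h1 h2
    exact (innE rfl hβ hr hκ hk1 hk2 h1 h2).1
  · intro t h1 h2
    exact (innE rfl hβ hr hκ hk1 hk2 h1 h2).2
  · intro t h1 h2
    exact (innS rfl hβ hr hκ hk1 hk2 h1 h2).2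
  · intro t h1 h2 h3
    rcases h3 with h3 | h3
    · exact left rfl hβ hr hκ hk1 hk2 h1 h3
    · exact right0 rfl hβ hr hκ hk1 hk2 h3 h2

end B3_01

end Sok
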