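import Pool.Agent.Lib.MP_816dec_an.JBG2

/-!
MP_816dec_an (A3, row R1): b = 3, J tables of the cell 02.
-/

set_option autoImplicit false
set_option maxHeartbeats 4000000

open Complex Set

namespace Sok

private theorem T3_02_p1_b0_0 {β x y : ℝ} (hβ : 0 < β) (hN : β * 27.777 ≤ 1) (hx1 : 0.1234 ≤ x) (hx2 : x ≤ 0.3601)
    (hy1 : -0 ≤ y) (hy2 : y ≤ 0.231) : ‖HH β (x + y * I) - 1‖ ≤ 0.015 := by
  refine le_epsJ (C := 0.3646) (N0 := 27.777) (J_boxp 0.1234 0.3601 0 0.231 0.231 0.7969 0.4279 1.2826 1.592 0.4519 5.2704 27.777 0.537 1.995 1.269 1.2816 0.3984 0.3271 1.0505 3.8775 0.3914 0.6472 0.8267 2.7072 0.00001564 0.0001134 0.0000003101 0.0000003101 0.00001905 0.0000003101 0.0000003101 0.0000003101 0.3646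
    hβ hN hx1 hx2 hy1 hy2 (by norm_num) (by norm_num) (by linarith) (by norm_num) (by norm_num) (by norm_num) (by norm_num) (by norm_num) (by norm_num) (by norm_num) (by norm_num) (by norm_num) (by norm_num) (by norm_num) (by norm_num) (by norm_num) (by norm_num) (by norm_num) (by norm_num) (by norm_num) (by norm_num) (by norm_num) (by norm_num) (by norm_num)
    (cube_sqrt_geJ (s := 0.906) (by norm_num) (by norm_num) (by norm_num) (by norm_num))
    (cube_sqrt_geJ (s := 0.9665) (by norm_num) (by norm_num) (by norm_num) (by norm_num))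
    (by norm_num) (by norm_num) (by norm_num) (by norm_num) (by norm_num) (by norm_num) (by norm_num) (by norm_num) (by norm_num) (by norm_num) (by norm_num) (by norm_num) (by norm_num) (by norm_num) (by norm_num) (by norm_num) (by norm_num) (by norm_num)
    (exp_neg_leJ (r := 0.066) 11 (by norm_num) (by norm_num) (by norm_num) (by norm_num))
    (exp_neg_leJ (r := 0.085) 9 (by norm_num) (by norm_num) (by norm_num) (by norm_num))
    (exp_neg_leJ (r := 0.99) 14 (by norm_num) (by norm_num) (by norm_num) (by norm_num))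
    (exp_neg_leJ (r := 0.99) 14 (by norm_num) (by norm_num) (by norm_num) (by norm_num))
    (exp_neg_leJ (r := 0.871) 10 (by norm_num) (by norm_num) (by norm_num) (by norm_num))
    (exp_neg_leJ (r := 0.99) 14 (by norm_num) (by norm_num) (by norm_num) (by norm_num))
    (exp_neg_leJ (r := 0.99) 14 (by norm_num) (by norm_num) (by norm_num) (by norm_num))
    (exp_neg_leJ (r := 0.99) 14 (by norm_num) (by norm_num) (by norm_num) (by norm_num))
    (by norm_num)) (by norm_num) hN hβ.le (by norm_num)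

private theorem T3_02_p1_c0 {κ t β : ℝ} (h : DomR κ t) (hβ : 0 < β) (hk1 : 0.33 ≤ κ) (hk2 : κ ≤ 0.36)
    (ht1 : 0 ≤ t + κ) (ht2 : t + κ ≤ 1.112) (hR0 : β * 10 ≤ κ) (hR : β * (1 * (1 + κ ^ 2)) ≤ κ) :
    ‖HH β (sg κ t) - 1‖ ≤ 0.015 := by
  have hN : β * 27.777 ≤ 1 := bNR hβ h.1 hk2 hR0 (by norm_num)
  have hy1 : 0 ≤ sy κ t := sy_nonneg h (by linarith)
  have hy2 : sy κ t ≤ 0.231 := syR_ang2 h 0.33 0.36 1.112 0.941 0.59 0.8083 0.231 0.79374 1.25985 hk1 hk2 (by linarith) (by norm_num) (by norm_num) (by norm_num)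
    (cos_le_num (by norm_num)) (sin_le_num (by norm_num) (by norm_num)) (expm_le (by norm_num) (by norm_num) (by norm_num))
    (expn_ge (by norm_num) (by norm_num)) (by norm_num) (by norm_num) (by norm_num) (by norm_num) (by norm_num)
  have hx1 : 0.1234 ≤ sx κ t := sx_lo h 0.33 0.231 0.231 0.79373 0.1234 hk1 (by norm_num) hy2 (abs_le.2 ⟨by linarith, by linarith⟩) (expm_ge (by norm_num) (by norm_num) (by norm_num) (by norm_num)) (by norm_num) (by norm_num)
  have hx2 : sx κ t ≤ 0.3601 := sx_hi h 0.36 0 0 1 0.3601 hk2 hy1 (by norm_num) (abs_nonneg _) (by simp) (by norm_num) (by norm_num)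
  exact T3_02_p1_b0_0 hβ hN hx1 hx2 (by linarith) (by linarith)

theorem T3_02_p1 {κ t β : ℝ} (h : DomR κ t) (hβ : 0 < β) (hk1 : 0.33 ≤ κ) (hk2 : κ ≤ 0.36)
    (ht1 : 0 ≤ t + κ) (ht2 : t + κ ≤ 1.112) (hR0 : β * 10 ≤ κ) (hR : β * (1 * (1 + κ ^ 2)) ≤ κ) :
    ‖HH β (sg κ t) - 1‖ ≤ 0.015 := by
  exact T3_02_p1_c0 h hβ hk1 hk2 ht1 ht2 hR0 hR

private theorem T3_02_p0_b0_0 {β x y : ℝ} (hβ : 0 < β) (hN : β * 28.571 ≤ 1) (hx1 : 0.2095 ≤ x) (hx2 : x ≤ 0.2977)
    (hy1 : -0.498 ≤ y) (hy2 : y ≤ -0.493) : ‖HH β (x + y * I) - 1‖ ≤ 0.13 := by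
  refine le_epsJ (C := 3.6362) (N0 := 28.571) (J_boxp 0.2095 0.2977 0.498 0 (-0.493) 0.5039 0.5802 0.588 2.1438 0.306 5.3452 28.571 1.1515 5.447 1.703 0.8459 0.2519 0.1552 0.2939 2.2926 0.1847 0.79 0.6359 3.5539 0.0007489 0.01187 0.0002256 0.0000003101 0.005108 0.0000003101 0.0000003101 0.0000003101 3.6362
    hβ hN hx1 hx2 hy1 hy2 (by norm_num) (by norm_num) (by linarith) (by norm_num) (by norm_num) (by norm_num) (by norm_num) (by norm_num) (by norm_num) (by norm_num) (by norm_num) (by norm_num) (by norm_num) (by norm_num) (by norm_num) (by norm_num) (by norm_num) (by norm_num) (by norm_num) (by norm_num) (by norm_num) (by norm_num) (by norm_num) (by norm_num)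
    (cube_sqrt_geJ (s := 0.7849) (by norm_num) (by norm_num) (by norm_num) (by norm_num))
    (cube_sqrt_geJ (s := 0.9268) (by norm_num) (by norm_num) (by norm_num) (by norm_num))
    (by norm_num) (by norm_num) (by norm_num) (by norm_num) (by norm_num) (by norm_num) (by norm_num) (by norm_num) (by norm_num) (by norm_num) (by norm_num) (by norm_num) (by norm_num) (by norm_num) (by norm_num) (by norm_num) (by norm_num) (by norm_num)
    (exp_neg_leJ (r := 0.197) 7 (by norm_num) (by norm_num) (by norm_num) (by norm_num))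
    (exp_neg_leJ (r := 0.434) 4 (by norm_num) (by norm_num) (by norm_num) (by norm_num))
    (exp_neg_leJ (r := 0.397) 8 (by norm_num) (by norm_num) (by norm_num) (by norm_num))
    (exp_neg_leJ (r := 0.99) 14 (by norm_num) (by norm_num) (by norm_num) (by norm_num))
    (exp_neg_leJ (r := 0.277) 5 (by norm_num) (by norm_num) (by norm_num) (by norm_num))
    (exp_neg_leJ (r := 0.99) 14 (by norm_num) (by norm_num) (by norm_num) (by norm_num))
    (exp_neg_leJ (r := 0.99) 14 (by norm_num) (by norm_num) (by norm_num) (by norm_num))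
    (exp_neg_leJ (r := 0.99) 14 (by norm_num) (by norm_num) (by norm_num) (by norm_num))
    (by norm_num)) (by norm_num) hN hβ.le (by norm_num)

private theorem T3_02_p0_b0_1 {β x y : ℝ} (hβ : 0 < β) (hN : β * 28.571 ≤ 1) (hx1 : 0.2075 ≤ x) (hx2 : x ≤ 0.3084)
    (hy1 : -0.493 ≤ y) (hy2 : y ≤ -0.483) : ‖HH β (x + y * I) - 1‖ ≤ 0.13 := by
  refine le_epsJ (C := 3.6215) (N0 := 28.571) (J_boxp 0.2075 0.3084 0.493 0 (-0.483) 0.5061 0.5816 0.602 2.155 0.3096 5.3452 28.571 1.1492 5.423 1.701 0.8464 0.253 0.1561 0.3011 2.3046 0.1864 0.7873 0.6455 3.5461 0.000726 0.01158 0.0001839 0.0000003101 0.004869 0.0000003101 0.0000003101 0.0000003101 3.6215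
    hβ hN hx1 hx2 hy1 hy2 (by norm_num) (by norm_num) (by linarith) (by norm_num) (by norm_num) (by norm_num) (by norm_num) (by norm_num) (by norm_num) (by norm_num) (by norm_num) (by norm_num) (by norm_num) (by norm_num) (by norm_num) (by norm_num) (by norm_num) (by norm_num) (by norm_num) (by norm_num) (by norm_num) (by norm_num) (by norm_num) (by norm_num)
    (cube_sqrt_geJ (s := 0.7854) (by norm_num) (by norm_num) (by norm_num) (by norm_num))
    (cube_sqrt_geJ (s := 0.9269) (by norm_num) (by norm_num) (by norm_num) (by norm_num))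
    (by norm_num) (by norm_num) (by norm_num) (by norm_num) (by norm_num) (by norm_num) (by norm_num) (by norm_num) (by norm_num) (by norm_num) (by norm_num) (by norm_num) (by norm_num) (by norm_num) (by norm_num) (by norm_num) (by norm_num) (by norm_num)
    (exp_neg_leJ (r := 0.228) 7 (by norm_num) (by norm_num) (by norm_num) (by norm_num))
    (exp_neg_leJ (r := 0.459) 4 (by norm_num) (by norm_num) (by norm_num) (by norm_num))
    (exp_neg_leJ (r := 0.602) 8 (by norm_num) (by norm_num) (by norm_num) (by norm_num))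
    (exp_neg_leJ (r := 0.99) 14 (by norm_num) (by norm_num) (by norm_num) (by norm_num))
    (exp_neg_leJ (r := 0.325) 5 (by norm_num) (by norm_num) (by norm_num) (by norm_num))
    (exp_neg_leJ (r := 0.99) 14 (by norm_num) (by norm_num) (by norm_num) (by norm_num))
    (exp_neg_leJ (r := 0.99) 14 (by norm_num) (by norm_num) (by norm_num) (by norm_num))
    (exp_neg_leJ (r := 0.99) 14 (by norm_num) (by norm_num) (by norm_num) (by norm_num))
    (by norm_num)) (by norm_num) hN hβ.le (by norm_num)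

private theorem T3_02_p0_b0_2 {β x y : ℝ} (hβ : 0 < β) (hN : β * 28.571 ≤ 1) (hx1 : 0.204 ≤ x) (hx2 : x ≤ 0.3279)
    (hy1 : -0.483 ≤ y) (hy2 : y ≤ -0.463) : ‖HH β (x + y * I) - 1‖ ≤ 0.13 := by
  refine le_epsJ (C := 3.571) (N0 := 28.571) (J_boxp 0.204 0.3279 0.483 0 (-0.463) 0.5107 0.5838 0.6292 2.1735 0.3165 5.3452 28.571 1.1432 5.362 1.696 0.8481 0.2553 0.158 0.3157 2.3294 0.1902 0.7824 0.6657 3.5331 0.0006797 0.01096 0.0001211 0.0000003101 0.004367 0.0000003101 0.0000003101 0.0000003101 3.571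
    hβ hN hx1 hx2 hy1 hy2 (by norm_num) (by norm_num) (by linarith) (by norm_num) (by norm_num) (by norm_num) (by norm_num) (by norm_num) (by norm_num) (by norm_num) (by norm_num) (by norm_num) (by norm_num) (by norm_num) (by norm_num) (by norm_num) (by norm_num) (by norm_num) (by norm_num) (by norm_num) (by norm_num) (by norm_num) (by norm_num) (by norm_num)
    (cube_sqrt_geJ (s := 0.7867) (by norm_num) (by norm_num) (by norm_num) (by norm_num))
    (cube_sqrt_geJ (s := 0.9273) (by norm_num) (by norm_num) (by norm_num) (by norm_num))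
    (by norm_num) (by norm_num) (by norm_num) (by norm_num) (by norm_num) (by norm_num) (by norm_num) (by norm_num) (by norm_num) (by norm_num) (by norm_num) (by norm_num) (by norm_num) (by norm_num) (by norm_num) (by norm_num) (by norm_num) (by norm_num)
    (exp_neg_leJ (r := 0.294) 7 (by norm_num) (by norm_num) (by norm_num) (by norm_num))
    (exp_neg_leJ (r := 0.514) 4 (by norm_num) (by norm_num) (by norm_num) (by norm_num))
    (exp_neg_leJ (r := 0.019) 9 (by norm_num) (by norm_num) (by norm_num) (by norm_num))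
    (exp_neg_leJ (r := 0.99) 14 (by norm_num) (by norm_num) (by norm_num) (by norm_num))
    (exp_neg_leJ (r := 0.434) 5 (by norm_num) (by norm_num) (by norm_num) (by norm_num))
    (exp_neg_leJ (r := 0.99) 14 (by norm_num) (by norm_num) (by norm_num) (by norm_num))
    (exp_neg_leJ (r := 0.99) 14 (by norm_num) (by norm_num) (by norm_num) (by norm_num))
    (exp_neg_leJ (r := 0.99) 14 (by norm_num) (by norm_num) (by norm_num) (by norm_num))
    (by norm_num)) (by norm_num) hN hβ.le (by norm_num)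

private theorem T3_02_p0_b0_3 {β x y : ℝ} (hβ : 0 < β) (hN : β * 28.571 ≤ 1) (hx1 : 0.192 ≤ x) (hx2 : x ≤ 0.3668)
    (hy1 : -0.463 ≤ y) (hy2 : y ≤ -0.418) : ‖HH β (x + y * I) - 1‖ ≤ 0.13 := by
  refine le_epsJ (C := 3.649) (N0 := 28.571) (J_boxp 0.192 0.3668 0.463 0 (-0.418) 0.5164 0.5907 0.688 2.2352 0.331 5.3452 28.571 1.1439 5.369 1.696 0.8516 0.2581 0.1597 0.3431 2.3783 0.1953 0.7658 0.6961 3.4904 0.0006274 0.01045 0.00005543 0.0000003101 0.003778 0.0000003101 0.0000003101 0.0000003101 3.649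
    hβ hN hx1 hx2 hy1 hy2 (by norm_num) (by norm_num) (by linarith) (by norm_num) (by norm_num) (by norm_num) (by norm_num) (by norm_num) (by norm_num) (by norm_num) (by norm_num) (by norm_num) (by norm_num) (by norm_num) (by norm_num) (by norm_num) (by norm_num) (by norm_num) (by norm_num) (by norm_num) (by norm_num) (by norm_num) (by norm_num) (by norm_num)
    (cube_sqrt_geJ (s := 0.7865) (by norm_num) (by norm_num) (by norm_num) (by norm_num))
    (cube_sqrt_geJ (s := 0.9273) (by norm_num) (by norm_num) (by norm_num) (by norm_num))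
    (by norm_num) (by norm_num) (by norm_num) (by norm_num) (by norm_num) (by norm_num) (by norm_num) (by norm_num) (by norm_num) (by norm_num) (by norm_num) (by norm_num) (by norm_num) (by norm_num) (by norm_num) (by norm_num) (by norm_num) (by norm_num)
    (exp_neg_leJ (r := 0.374) 7 (by norm_num) (by norm_num) (by norm_num) (by norm_num))
    (exp_neg_leJ (r := 0.562) 4 (by norm_num) (by norm_num) (by norm_num) (by norm_num))
    (exp_neg_leJ (r := 0.802) 9 (by norm_num) (by norm_num) (by norm_num) (by norm_num))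
    (exp_neg_leJ (r := 0.99) 14 (by norm_num) (by norm_num) (by norm_num) (by norm_num))
    (exp_neg_leJ (r := 0.579) 5 (by norm_num) (by norm_num) (by norm_num) (by norm_num))
    (exp_neg_leJ (r := 0.99) 14 (by norm_num) (by norm_num) (by norm_num) (by norm_num))
    (exp_neg_leJ (r := 0.99) 14 (by norm_num) (by norm_num) (by norm_num) (by norm_num))
    (exp_neg_leJ (r := 0.99) 14 (by norm_num) (by norm_num) (by norm_num) (by norm_num))
    (by norm_num)) (by norm_num) hN hβ.le (by norm_num)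

private theorem T3_02_p0_b0_4 {β x y : ℝ} (hβ : 0 < β) (hN : β * 28.571 ≤ 1) (hx1 : 0.17 ≤ x) (hx2 : x ≤ 0.4298)
    (hy1 : -0.418 ≤ y) (hy2 : y ≤ -0.313) : ‖HH β (x + y * I) - 1‖ ≤ 0.13 := by
  refine le_epsJ (C := 3.5204) (N0 := 28.571) (J_boxp 0.17 0.4298 0.418 0 (-0.313) 0.5329 0.5996 0.8104 2.3141 0.3592 5.3452 28.571 1.1252 5.184 1.681 0.8689 0.2664 0.1665 0.4066 2.4978 0.2092 0.7353 0.7744 3.4222 0.0004952 0.008601 0.000009025 0.0000003101 0.002545 0.0000003101 0.0000003101 0.0000003101 3.5204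
    hβ hN hx1 hx2 hy1 hy2 (by norm_num) (by norm_num) (by linarith) (by norm_num) (by norm_num) (by norm_num) (by norm_num) (by norm_num) (by norm_num) (by norm_num) (by norm_num) (by norm_num) (by norm_num) (by norm_num) (by norm_num) (by norm_num) (by norm_num) (by norm_num) (by norm_num) (by norm_num) (by norm_num) (by norm_num) (by norm_num) (by norm_num)
    (cube_sqrt_geJ (s := 0.7905) (by norm_num) (by norm_num) (by norm_num) (by norm_num))
    (cube_sqrt_geJ (s := 0.9285) (by norm_num) (by norm_num) (by norm_num) (by norm_num))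
    (by norm_num) (by norm_num) (by norm_num) (by norm_num) (by norm_num) (by norm_num) (by norm_num) (by norm_num) (by norm_num) (by norm_num) (by norm_num) (by norm_num) (by norm_num) (by norm_num) (by norm_num) (by norm_num) (by norm_num) (by norm_num)
    (exp_neg_leJ (r := 0.611) 7 (by norm_num) (by norm_num) (by norm_num) (by norm_num))
    (exp_neg_leJ (r := 0.757) 4 (by norm_num) (by norm_num) (by norm_num) (by norm_num))
    (exp_neg_leJ (r := 0.616) 11 (by norm_num) (by norm_num) (by norm_num) (by norm_num))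
    (exp_neg_leJ (r := 0.99) 14 (by norm_num) (by norm_num) (by norm_num) (by norm_num))
    (exp_neg_leJ (r := 0.977) 5 (by norm_num) (by norm_num) (by norm_num) (by norm_num))
    (exp_neg_leJ (r := 0.99) 14 (by norm_num) (by norm_num) (by norm_num) (by norm_num))
    (exp_neg_leJ (r := 0.99) 14 (by norm_num) (by norm_num) (by norm_num) (by norm_num))
    (exp_neg_leJ (r := 0.99) 14 (by norm_num) (by norm_num) (by norm_num) (by norm_num))
    (by norm_num)) (by norm_num) hN hβ.le (by norm_num)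

private theorem T3_02_p0_b0_5 {β x y : ℝ} (hβ : 0 < β) (hN : β * 28.571 ≤ 1) (hx1 : 0.3044 ≤ x) (hx2 : x ≤ 0.3882)
    (hy1 : -0.313 ≤ y) (hy2 : y ≤ -0.28) : ‖HH β (x + y * I) - 1‖ ≤ 0.13 := by
  refine le_epsJ (C := 0.6382) (N0 := 28.571) (J_boxp 0.3044 0.3882 0.313 0 (-0.28) 0.7021 0.4987 0.818 1.5374 0.3609 5.3452 28.571 0.7103 2.575 1.376 0.9818 0.351 0.2679 0.6184 2.8674 0.3318 0.9214 1.3286 3.9652 0.00004415 0.0004745 0.0000003101 0.0000003101 0.00007646 0.0000003101 0.0000003101 0.0000003101 0.6382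
    hβ hN hx1 hx2 hy1 hy2 (by norm_num) (by norm_num) (by linarith) (by norm_num) (by norm_num) (by norm_num) (by norm_num) (by norm_num) (by norm_num) (by norm_num) (by norm_num) (by norm_num) (by norm_num) (by norm_num) (by norm_num) (by norm_num) (by norm_num) (by norm_num) (by norm_num) (by norm_num) (by norm_num) (by norm_num) (by norm_num) (by norm_num)
    (cube_sqrt_geJ (s := 0.8736) (by norm_num) (by norm_num) (by norm_num) (by norm_num))
    (cube_sqrt_geJ (s := 0.9555) (by norm_num) (by norm_num) (by norm_num) (by norm_num))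
    (by norm_num) (by norm_num) (by norm_num) (by norm_num) (by norm_num) (by norm_num) (by norm_num) (by norm_num) (by norm_num) (by norm_num) (by norm_num) (by norm_num) (by norm_num) (by norm_num) (by norm_num) (by norm_num) (by norm_num) (by norm_num)
    (exp_neg_leJ (r := 0.028) 10 (by norm_num) (by norm_num) (by norm_num) (by norm_num))
    (exp_neg_leJ (r := 0.654) 7 (by norm_num) (by norm_num) (by norm_num) (by norm_num))
    (exp_neg_leJ (r := 0.99) 14 (by norm_num) (by norm_num) (by norm_num) (by norm_num))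
    (exp_neg_leJ (r := 0.99) 14 (by norm_num) (by norm_num) (by norm_num) (by norm_num))
    (exp_neg_leJ (r := 0.479) 9 (by norm_num) (by norm_num) (by norm_num) (by norm_num))
    (exp_neg_leJ (r := 0.99) 14 (by norm_num) (by norm_num) (by norm_num) (by norm_num))
    (exp_neg_leJ (r := 0.99) 14 (by norm_num) (by norm_num) (by norm_num) (by norm_num))
    (exp_neg_leJ (r := 0.99) 14 (by norm_num) (by norm_num) (by norm_num) (by norm_num))
    (by norm_num)) (by norm_num) hN hβ.le (by norm_num)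

private theorem T3_02_p0_c0 {κ t β : ℝ} (h : DomR κ t) (hβ : 0 < β) (hk1 : 0.33 ≤ κ) (hk2 : κ ≤ 0.35)
    (ht1 : -0.9824 ≤ t + κ) (ht2 : t + κ ≤ -0.71239) (hR0 : β * 10 ≤ κ) (hR : β * (1 * (1 + κ ^ 2)) ≤ κ) :
    ‖HH β (sg κ t) - 1‖ ≤ 0.13 := by
  have hN : β * 28.571 ≤ 1 := bNR hβ h.1 hk2 hR0 (by norm_num)
  have hy1 : -0.498 ≤ sy κ t := syL_ang2 h 0.33 0.35 0.9824 1.044 0.5027 0.8647 0.498 1.64542 0.60774 hk1 hk2 (by linarith) (by norm_num) (by norm_num) (by norm_num) (by norm_num)
    (cos_ge_num (by norm_num) (by norm_num)) (sin_le_num (by norm_num) (by norm_num))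
    (expn_ge (by norm_num) (by norm_num)) (expm_ge (by norm_num) (by norm_num) (by norm_num) (by norm_num)) (by norm_num) (by norm_num) (by norm_num)
    (by norm_num) (by norm_num) (by norm_num)
  have hy2 : sy κ t ≤ -0.28 := syL_le h 0.33 0.35 0.71239 0.28 0.75578 0.75579 0.60462 0.64128 hk1 hk2 (by linarith) (by norm_num) (by norm_num) (by norm_num)
    (expm_ge (by norm_num) (by norm_num) (by norm_num) (by norm_num)) (expm_le (by norm_num) (by norm_num) (by norm_num)) (by norm_num)
    (by norm_num) (by norm_num) (by norm_num) (by norm_num) (by norm_num) (by norm_num)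
  rcases le_total (sy κ t) (-0.493) with f0 | g0
  · have hx1 : 0.2095 ≤ sx κ t := sx_lo h 0.33 (-0.493) 0.498 1.63721 0.2095 hk1 (by norm_num) f0 (abs_le.2 ⟨by linarith, by linarith⟩) (by rw [neg_neg]; exact expn_ge (by norm_num) (by norm_num)) (by norm_num) (by norm_num)
    have hx2 : sx κ t ≤ 0.2977 := sx_hi h 0.35 (-0.498) 0.493 1.64543 0.2977 hk2 hy1 (by norm_num) (by rw [abs_of_nonpos (by linarith)]; linarith) (by rw [neg_neg]; exact expn_le (by norm_num) (by norm_num) (by norm_num)) (by norm_num) (by norm_num)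
    exact T3_02_p0_b0_0 hβ hN hx1 hx2 (by linarith) (by linarith)
  rcases le_total (sy κ t) (-0.483) with f1 | g1
  · have hx1 : 0.2075 ≤ sx κ t := sx_lo h 0.33 (-0.483) 0.493 1.62092 0.2075 hk1 (by norm_num) f1 (abs_le.2 ⟨by linarith, by linarith⟩) (by rw [neg_neg]; exact expn_ge (by norm_num) (by norm_num)) (by norm_num) (by norm_num)
    have hx2 : sx κ t ≤ 0.3084 := sx_hi h 0.35 (-0.493) 0.483 1.63723 0.3084 hk2 g0 (by norm_num) (by rw [abs_of_nonpos (by linarith)]; linarith) (by rw [neg_neg]; exact expn_le (by norm_num) (by norm_num) (by norm_num)) (by norm_num) (by norm_num)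
    exact T3_02_p0_b0_1 hβ hN hx1 hx2 (by linarith) (by linarith)
  rcases le_total (sy κ t) (-0.463) with f2 | g2
  · have hx1 : 0.204 ≤ sx κ t := sx_lo h 0.33 (-0.463) 0.483 1.58883 0.204 hk1 (by norm_num) f2 (abs_le.2 ⟨by linarith, by linarith⟩) (by rw [neg_neg]; exact expn_ge (by norm_num) (by norm_num)) (by norm_num) (by norm_num)
    have hx2 : sx κ t ≤ 0.3279 := sx_hi h 0.35 (-0.483) 0.463 1.62093 0.3279 hk2 g1 (by norm_num) (by rw [abs_of_nonpos (by linarith)]; linarith) (by rw [neg_neg]; exact expn_le (by norm_num) (by norm_num) (by norm_num)) (by norm_num) (by norm_num)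
    exact T3_02_p0_b0_2 hβ hN hx1 hx2 (by linarith) (by linarith)
  rcases le_total (sy κ t) (-0.418) with f3 | g3
  · have hx1 : 0.192 ≤ sx κ t := sx_lo h 0.33 (-0.418) 0.463 1.51892 0.192 hk1 (by norm_num) f3 (abs_le.2 ⟨by linarith, by linarith⟩) (by rw [neg_neg]; exact expn_ge (by norm_num) (by norm_num)) (by norm_num) (by norm_num)
    have hx2 : sx κ t ≤ 0.3668 := sx_hi h 0.35 (-0.463) 0.418 1.58884 0.3668 hk2 g2 (by norm_num) (by rw [abs_of_nonpos (by linarith)]; linarith) (by rw [neg_neg]; exact expn_le (by norm_num) (by norm_num) (by norm_num)) (by norm_num) (by norm_num)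
    exact T3_02_p0_b0_3 hβ hN hx1 hx2 (by linarith) (by linarith)
  rcases le_total (sy κ t) (-0.313) with f4 | g4
  · have hx1 : 0.17 ≤ sx κ t := sx_lo h 0.33 (-0.313) 0.418 1.36752 0.17 hk1 (by norm_num) f4 (abs_le.2 ⟨by linarith, by linarith⟩) (by rw [neg_neg]; exact expn_ge (by norm_num) (by norm_num)) (by norm_num) (by norm_num)
    have hx2 : sx κ t ≤ 0.4298 := sx_hi h 0.35 (-0.418) 0.313 1.51893 0.4298 hk2 g3 (by norm_num) (by rw [abs_of_nonpos (by linarith)]; linarith) (by rw [neg_neg]; exact expn_le (by norm_num) (by norm_num) (by norm_num)) (by norm_num) (by norm_num)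
    exact T3_02_p0_b0_4 hβ hN hx1 hx2 (by linarith) (by linarith)
  have hx1 : 0.3044 ≤ sx κ t := sx_lo h 0.33 (-0.28) 0.313 1.32312 0.3044 hk1 (by norm_num) hy2 (abs_le.2 ⟨by linarith, by linarith⟩) (by rw [neg_neg]; exact expn_ge (by norm_num) (by norm_num)) (by norm_num) (by norm_num)
  have hx2 : sx κ t ≤ 0.3882 := sx_hi h 0.35 (-0.313) 0.28 1.36753 0.3882 hk2 g4 (by norm_num) (by rw [abs_of_nonpos (by linarith)]; linarith) (by rw [neg_neg]; exact expn_le (by norm_num) (by norm_num) (by norm_num)) (by norm_num) (by norm_num)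
  exact T3_02_p0_b0_5 hβ hN hx1 hx2 (by linarith) (by linarith)

private theorem T3_02_p0_b1_0 {β x y : ℝ} (hβ : 0 < β) (hN : β * 27.777 ≤ 1) (hx1 : 0.2632 ≤ x) (hx2 : x ≤ 0.3265)
    (hy1 : -0.52 ≤ y) (hy2 : y ≤ -0.51) : ‖HH β (x + y * I) - 1‖ ≤ 0.13 := by
  refine le_epsJ (C := 3.5114) (N0 := 27.777) (J_boxp 0.2632 0.3265 0.52 0 (-0.51) 0.5261 0.6141 0.5889 2.0111 0.3062 5.2704 27.777 1.1673 5.612 1.716 0.8145 0.263 0.1606 0.2775 2.2055 0.1987 0.8644 0.6835 3.5691 0.0006722 0.01157 0.0004496 0.0000003101 0.004011 0.0000003101 0.0000003101 0.0000003101 3.5114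
    hβ hN hx1 hx2 hy1 hy2 (by norm_num) (by norm_num) (by linarith) (by norm_num) (by norm_num) (by norm_num) (by norm_num) (by norm_num) (by norm_num) (by norm_num) (by norm_num) (by norm_num) (by norm_num) (by norm_num) (by norm_num) (by norm_num) (by norm_num) (by norm_num) (by norm_num) (by norm_num) (by norm_num) (by norm_num) (by norm_num) (by norm_num)
    (cube_sqrt_geJ (s := 0.7816) (by norm_num) (by norm_num) (by norm_num) (by norm_num))
    (cube_sqrt_geJ (s := 0.9257) (by norm_num) (by norm_num) (by norm_num) (by norm_num))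
    (by norm_num) (by norm_num) (by norm_num) (by norm_num) (by norm_num) (by norm_num) (by norm_num) (by norm_num) (by norm_num) (by norm_num) (by norm_num) (by norm_num) (by norm_num) (by norm_num) (by norm_num) (by norm_num) (by norm_num) (by norm_num)
    (exp_neg_leJ (r := 0.305) 7 (by norm_num) (by norm_num) (by norm_num) (by norm_num))
    (exp_neg_leJ (r := 0.46) 4 (by norm_num) (by norm_num) (by norm_num) (by norm_num))
    (exp_neg_leJ (r := 0.708) 7 (by norm_num) (by norm_num) (by norm_num) (by norm_num))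
    (exp_neg_leJ (r := 0.99) 14 (by norm_num) (by norm_num) (by norm_num) (by norm_num))
    (exp_neg_leJ (r := 0.519) 5 (by norm_num) (by norm_num) (by norm_num) (by norm_num))
    (exp_neg_leJ (r := 0.99) 14 (by norm_num) (by norm_num) (by norm_num) (by norm_num))
    (exp_neg_leJ (r := 0.99) 14 (by norm_num) (by norm_num) (by norm_num) (by norm_num))
    (exp_neg_leJ (r := 0.99) 14 (by norm_num) (by norm_num) (by norm_num) (by norm_num))
    (by norm_num)) (by norm_num) hN hβ.le (by norm_num)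

private theorem T3_02_p0_b1_1 {β x y : ℝ} (hβ : 0 < β) (hN : β * 27.777 ≤ 1) (hx1 : 0.2574 ≤ x) (hx2 : x ≤ 0.3455)
    (hy1 : -0.51 ≤ y) (hy2 : y ≤ -0.49) : ‖HH β (x + y * I) - 1‖ ≤ 0.13 := by
  refine le_epsJ (C := 3.5201) (N0 := 27.777) (J_boxp 0.2574 0.3455 0.51 0 (-0.49) 0.5291 0.6161 0.6161 2.0395 0.3132 5.2704 27.777 1.1645 5.583 1.714 0.8164 0.2645 0.1618 0.2913 2.2305 0.2014 0.8563 0.6991 3.5521 0.0006446 0.01118 0.0003063 0.0000003101 0.003722 0.0000003101 0.0000003101 0.0000003101 3.5201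
    hβ hN hx1 hx2 hy1 hy2 (by norm_num) (by norm_num) (by linarith) (by norm_num) (by norm_num) (by norm_num) (by norm_num) (by norm_num) (by norm_num) (by norm_num) (by norm_num) (by norm_num) (by norm_num) (by norm_num) (by norm_num) (by norm_num) (by norm_num) (by norm_num) (by norm_num) (by norm_num) (by norm_num) (by norm_num) (by norm_num) (by norm_num)
    (cube_sqrt_geJ (s := 0.7821) (by norm_num) (by norm_num) (by norm_num) (by norm_num))
    (cube_sqrt_geJ (s := 0.9259) (by norm_num) (by norm_num) (by norm_num) (by norm_num))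
    (by norm_num) (by norm_num) (by norm_num) (by norm_num) (by norm_num) (by norm_num) (by norm_num) (by norm_num) (by norm_num) (by norm_num) (by norm_num) (by norm_num) (by norm_num) (by norm_num) (by norm_num) (by norm_num) (by norm_num) (by norm_num)
    (exp_neg_leJ (r := 0.347) 7 (by norm_num) (by norm_num) (by norm_num) (by norm_num))
    (exp_neg_leJ (r := 0.494) 4 (by norm_num) (by norm_num) (by norm_num) (by norm_num))
    (exp_neg_leJ (r := 0.091) 8 (by norm_num) (by norm_num) (by norm_num) (by norm_num))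
    (exp_neg_leJ (r := 0.99) 14 (by norm_num) (by norm_num) (by norm_num) (by norm_num))
    (exp_neg_leJ (r := 0.594) 5 (by norm_num) (by norm_num) (by norm_num) (by norm_num))
    (exp_neg_leJ (r := 0.99) 14 (by norm_num) (by norm_num) (by norm_num) (by norm_num))
    (exp_neg_leJ (r := 0.99) 14 (by norm_num) (by norm_num) (by norm_num) (by norm_num))
    (exp_neg_leJ (r := 0.99) 14 (by norm_num) (by norm_num) (by norm_num) (by norm_num))
    (by norm_num)) (by norm_num) hN hβ.le (by norm_num)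

private theorem T3_02_p0_b1_2 {β x y : ℝ} (hβ : 0 < β) (hN : β * 27.777 ≤ 1) (hx1 : 0.2473 ≤ x) (hx2 : x ≤ 0.378)
    (hy1 : -0.49 ≤ y) (hy2 : y ≤ -0.45) : ‖HH β (x + y * I) - 1‖ ≤ 0.13 := by
  refine le_epsJ (C := 3.4642) (N0 := 27.777) (J_boxp 0.2473 0.378 0.49 0 (-0.45) 0.5362 0.6189 0.6674 2.0807 0.326 5.2704 27.777 1.1543 5.476 1.705 0.8224 0.268 0.1649 0.3194 2.2825 0.2074 0.8424 0.7333 3.5243 0.0005851 0.01026 0.0001407 0.0000003101 0.003155 0.0000003101 0.0000003101 0.0000003101 3.4642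
    hβ hN hx1 hx2 hy1 hy2 (by norm_num) (by norm_num) (by linarith) (by norm_num) (by norm_num) (by norm_num) (by norm_num) (by norm_num) (by norm_num) (by norm_num) (by norm_num) (by norm_num) (by norm_num) (by norm_num) (by norm_num) (by norm_num) (by norm_num) (by norm_num) (by norm_num) (by norm_num) (by norm_num) (by norm_num) (by norm_num) (by norm_num)
    (cube_sqrt_geJ (s := 0.7843) (by norm_num) (by norm_num) (by norm_num) (by norm_num))
    (cube_sqrt_geJ (s := 0.9266) (by norm_num) (by norm_num) (by norm_num) (by norm_num))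
    (by norm_num) (by norm_num) (by norm_num) (by norm_num) (by norm_num) (by norm_num) (by norm_num) (by norm_num) (by norm_num) (by norm_num) (by norm_num) (by norm_num) (by norm_num) (by norm_num) (by norm_num) (by norm_num) (by norm_num) (by norm_num)
    (exp_neg_leJ (r := 0.444) 7 (by norm_num) (by norm_num) (by norm_num) (by norm_num))
    (exp_neg_leJ (r := 0.58) 4 (by norm_num) (by norm_num) (by norm_num) (by norm_num))
    (exp_neg_leJ (r := 0.871) 8 (by norm_num) (by norm_num) (by norm_num) (by norm_num))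
    (exp_neg_leJ (r := 0.99) 14 (by norm_num) (by norm_num) (by norm_num) (by norm_num))
    (exp_neg_leJ (r := 0.76) 5 (by norm_num) (by norm_num) (by norm_num) (by norm_num))
    (exp_neg_leJ (r := 0.99) 14 (by norm_num) (by norm_num) (by norm_num) (by norm_num))
    (exp_neg_leJ (r := 0.99) 14 (by norm_num) (by norm_num) (by norm_num) (by norm_num))
    (exp_neg_leJ (r := 0.99) 14 (by norm_num) (by norm_num) (by norm_num) (by norm_num))
    (by norm_num)) (by norm_num) hN hβ.le (by norm_num)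

private theorem T3_02_p0_b1_3 {β x y : ℝ} (hβ : 0 < β) (hN : β * 27.777 ≤ 1) (hx1 : 0.2217 ≤ x) (hx2 : x ≤ 0.435)
    (hy1 : -0.45 ≤ y) (hy2 : y ≤ -0.36) : ‖HH β (x + y * I) - 1‖ ≤ 0.13 := by
  refine le_epsJ (C := 3.4933) (N0 := 27.777) (J_boxp 0.2217 0.435 0.45 0 (-0.36) 0.5466 0.6259 0.7739 2.1769 0.351 5.2704 27.777 1.1451 5.381 1.697 0.8374 0.2732 0.1689 0.3738 2.3886 0.2168 0.8069 0.7908 3.4541 0.0005067 0.009185 0.00003096 0.0000003101 0.002425 0.0000003101 0.0000003101 0.0000003101 3.4933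
    hβ hN hx1 hx2 hy1 hy2 (by norm_num) (by norm_num) (by linarith) (by norm_num) (by norm_num) (by norm_num) (by norm_num) (by norm_num) (by norm_num) (by norm_num) (by norm_num) (by norm_num) (by norm_num) (by norm_num) (by norm_num) (by norm_num) (by norm_num) (by norm_num) (by norm_num) (by norm_num) (by norm_num) (by norm_num) (by norm_num) (by norm_num)
    (cube_sqrt_geJ (s := 0.7863) (by norm_num) (by norm_num) (by norm_num) (by norm_num))
    (cube_sqrt_geJ (s := 0.9272) (by norm_num) (by norm_num) (by norm_num) (by norm_num))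
    (by norm_num) (by norm_num) (by norm_num) (by norm_num) (by norm_num) (by norm_num) (by norm_num) (by norm_num) (by norm_num) (by norm_num) (by norm_num) (by norm_num) (by norm_num) (by norm_num) (by norm_num) (by norm_num) (by norm_num) (by norm_num)
    (exp_neg_leJ (r := 0.588) 7 (by norm_num) (by norm_num) (by norm_num) (by norm_num))
    (exp_neg_leJ (r := 0.691) 4 (by norm_num) (by norm_num) (by norm_num) (by norm_num))
    (exp_neg_leJ (r := 0.383) 10 (by norm_num) (by norm_num) (by norm_num) (by norm_num))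
    (exp_neg_leJ (r := 0.99) 14 (by norm_num) (by norm_num) (by norm_num) (by norm_num))
    (exp_neg_leJ (r := 0.022) 6 (by norm_num) (by norm_num) (by norm_num) (by norm_num))
    (exp_neg_leJ (r := 0.99) 14 (by norm_num) (by norm_num) (by norm_num) (by norm_num))
    (exp_neg_leJ (r := 0.99) 14 (by norm_num) (by norm_num) (by norm_num) (by norm_num))
    (exp_neg_leJ (r := 0.99) 14 (by norm_num) (by norm_num) (by norm_num) (by norm_num))
    (by norm_num)) (by norm_num) hN hβ.le (by norm_num)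

private theorem T3_02_p0_b1_4 {β x y : ℝ} (hβ : 0 < β) (hN : β * 27.777 ≤ 1) (hx1 : 0.3052 ≤ x) (hx2 : x ≤ 0.4206)
    (hy1 : -0.36 ≤ y) (hy2 : y ≤ -0.299) : ‖HH β (x + y * I) - 1‖ ≤ 0.13 := by
  refine le_epsJ (C := 0.9969) (N0 := 27.777) (J_boxp 0.3052 0.4206 0.36 0 (-0.299) 0.6693 0.5537 0.8175 1.6513 0.3608 5.2704 27.777 0.8273 3.094 1.454 0.926 0.3346 0.2423 0.5445 2.6951 0.3066 0.9225 1.2025 3.8173 0.00009198 0.001196 0.0000003101 0.0000003101 0.0002003 0.0000003101 0.0000003101 0.0000003101 0.9969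
    hβ hN hx1 hx2 hy1 hy2 (by norm_num) (by norm_num) (by linarith) (by norm_num) (by norm_num) (by norm_num) (by norm_num) (by norm_num) (by norm_num) (by norm_num) (by norm_num) (by norm_num) (by norm_num) (by norm_num) (by norm_num) (by norm_num) (by norm_num) (by norm_num) (by norm_num) (by norm_num) (by norm_num) (by norm_num) (by norm_num) (by norm_num)
    (cube_sqrt_geJ (s := 0.851) (by norm_num) (by norm_num) (by norm_num) (by norm_num))
    (cube_sqrt_geJ (s := 0.948) (by norm_num) (by norm_num) (by norm_num) (by norm_num))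
    (by norm_num) (by norm_num) (by norm_num) (by norm_num) (by norm_num) (by norm_num) (by norm_num) (by norm_num) (by norm_num) (by norm_num) (by norm_num) (by norm_num) (by norm_num) (by norm_num) (by norm_num) (by norm_num) (by norm_num) (by norm_num)
    (exp_neg_leJ (r := 0.294) 9 (by norm_num) (by norm_num) (by norm_num) (by norm_num))
    (exp_neg_leJ (r := 0.73) 6 (by norm_num) (by norm_num) (by norm_num) (by norm_num))
    (exp_neg_leJ (r := 0.99) 14 (by norm_num) (by norm_num) (by norm_num) (by norm_num))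
    (exp_neg_leJ (r := 0.99) 14 (by norm_num) (by norm_num) (by norm_num) (by norm_num))
    (exp_neg_leJ (r := 0.516) 8 (by norm_num) (by norm_num) (by norm_num) (by norm_num))
    (exp_neg_leJ (r := 0.99) 14 (by norm_num) (by norm_num) (by norm_num) (by norm_num))
    (exp_neg_leJ (r := 0.99) 14 (by norm_num) (by norm_num) (by norm_num) (by norm_num))
    (exp_neg_leJ (r := 0.99) 14 (by norm_num) (by norm_num) (by norm_num) (by norm_num))
    (by norm_num)) (by norm_num) hN hβ.le (by norm_num)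

private theorem T3_02_p0_c1 {κ t β : ℝ} (h : DomR κ t) (hβ : 0 < β) (hk1 : 0.35 ≤ κ) (hk2 : κ ≤ 0.36)
    (ht1 : -0.9824 ≤ t + κ) (ht2 : t + κ ≤ -0.71239) (hR0 : β * 10 ≤ κ) (hR : β * (1 * (1 + κ ^ 2)) ≤ κ) :
    ‖HH β (sg κ t) - 1‖ ≤ 0.13 := by
  have hN : β * 27.777 ≤ 1 := bNR hβ h.1 hk2 hR0 (by norm_num)
  have hy1 : -0.52 ≤ sy κ t := syL_ang2 h 0.35 0.36 0.9824 1.032 0.513 0.8586 0.52 1.68202 0.59452 hk1 hk2 (by linarith) (by norm_num) (by norm_num) (by norm_num) (by norm_num)
    (cos_ge_num (by norm_num) (by norm_num)) (sin_le_num (by norm_num) (by norm_num))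
    (expn_ge (by norm_num) (by norm_num)) (expm_ge (by norm_num) (by norm_num) (by norm_num) (by norm_num)) (by norm_num) (by norm_num) (by norm_num)
    (by norm_num) (by norm_num) (by norm_num)
  have hy2 : sy κ t ≤ -0.299 := syL_le h 0.35 0.36 0.71239 0.299 0.74155 0.74156 0.61589 0.63351 hk1 hk2 (by linarith) (by norm_num) (by norm_num) (by norm_num)
    (expm_ge (by norm_num) (by norm_num) (by norm_num) (by norm_num)) (expm_le (by norm_num) (by norm_num) (by norm_num)) (by norm_num)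
    (by norm_num) (by norm_num) (by norm_num) (by norm_num) (by norm_num) (by norm_num)
  rcases le_total (sy κ t) (-0.51) with f0 | g0
  · have hx1 : 0.2632 ≤ sx κ t := sx_lo h 0.35 (-0.51) 0.52 1.66528 0.2632 hk1 (by norm_num) f0 (abs_le.2 ⟨by linarith, by linarith⟩) (by rw [neg_neg]; exact expn_ge (by norm_num) (by norm_num)) (by norm_num) (by norm_num)
    have hx2 : sx κ t ≤ 0.3265 := sx_hi h 0.36 (-0.52) 0.51 1.68203 0.3265 hk2 hy1 (by norm_num) (by rw [abs_of_nonpos (by linarith)]; linarith) (by rw [neg_neg]; exact expn_le (by norm_num) (by norm_num) (by norm_num)) (by norm_num) (by norm_num)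
    exact T3_02_p0_b1_0 hβ hN hx1 hx2 (by linarith) (by linarith)
  rcases le_total (sy κ t) (-0.49) with f1 | g1
  · have hx1 : 0.2574 ≤ sx κ t := sx_lo h 0.35 (-0.49) 0.51 1.63231 0.2574 hk1 (by norm_num) f1 (abs_le.2 ⟨by linarith, by linarith⟩) (by rw [neg_neg]; exact expn_ge (by norm_num) (by norm_num)) (by norm_num) (by norm_num)
    have hx2 : sx κ t ≤ 0.3455 := sx_hi h 0.36 (-0.51) 0.49 1.6653 0.3455 hk2 g0 (by norm_num) (by rw [abs_of_nonpos (by linarith)]; linarith) (by rw [neg_neg]; exact expn_le (by norm_num) (by norm_num) (by norm_num)) (by norm_num) (by norm_num)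
    exact T3_02_p0_b1_1 hβ hN hx1 hx2 (by linarith) (by linarith)
  rcases le_total (sy κ t) (-0.45) with f2 | g2
  · have hx1 : 0.2473 ≤ sx κ t := sx_lo h 0.35 (-0.45) 0.49 1.56831 0.2473 hk1 (by norm_num) f2 (abs_le.2 ⟨by linarith, by linarith⟩) (by rw [neg_neg]; exact expn_ge (by norm_num) (by norm_num)) (by norm_num) (by norm_num)
    have hx2 : sx κ t ≤ 0.378 := sx_hi h 0.36 (-0.49) 0.45 1.63232 0.378 hk2 g1 (by norm_num) (by rw [abs_of_nonpos (by linarith)]; linarith) (by rw [neg_neg]; exact expn_le (by norm_num) (by norm_num) (by norm_num)) (by norm_num) (by norm_num)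
    exact T3_02_p0_b1_2 hβ hN hx1 hx2 (by linarith) (by linarith)
  rcases le_total (sy κ t) (-0.36) with f3 | g3
  · have hx1 : 0.2217 ≤ sx κ t := sx_lo h 0.35 (-0.36) 0.45 1.43332 0.2217 hk1 (by norm_num) f3 (abs_le.2 ⟨by linarith, by linarith⟩) (by rw [neg_neg]; exact expn_ge (by norm_num) (by norm_num)) (by norm_num) (by norm_num)
    have hx2 : sx κ t ≤ 0.435 := sx_hi h 0.36 (-0.45) 0.36 1.56832 0.435 hk2 g2 (by norm_num) (by rw [abs_of_nonpos (by linarith)]; linarith) (by rw [neg_neg]; exact expn_le (by norm_num) (by norm_num) (by norm_num)) (by norm_num) (by norm_num)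
    exact T3_02_p0_b1_3 hβ hN hx1 hx2 (by linarith) (by linarith)
  have hx1 : 0.3052 ≤ sx κ t := sx_lo h 0.35 (-0.299) 0.36 1.3485 0.3052 hk1 (by norm_num) hy2 (abs_le.2 ⟨by linarith, by linarith⟩) (by rw [neg_neg]; exact expn_ge (by norm_num) (by norm_num)) (by norm_num) (by norm_num)
  have hx2 : sx κ t ≤ 0.4206 := sx_hi h 0.36 (-0.36) 0.299 1.43333 0.4206 hk2 g3 (by norm_num) (by rw [abs_of_nonpos (by linarith)]; linarith) (by rw [neg_neg]; exact expn_le (by norm_num) (by norm_num) (by norm_num)) (by norm_num) (by norm_num)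
  exact T3_02_p0_b1_4 hβ hN hx1 hx2 (by linarith) (by linarith)

theorem T3_02_p0 {κ t β : ℝ} (h : DomR κ t) (hβ : 0 < β) (hk1 : 0.33 ≤ κ) (hk2 : κ ≤ 0.36)
    (ht1 : -0.9824 ≤ t + κ) (ht2 : t + κ ≤ -0.71239) (hR0 : β * 10 ≤ κ) (hR : β * (1 * (1 + κ ^ 2)) ≤ κ) :
    ‖HH β (sg κ t) - 1‖ ≤ 0.13 := by
  rcases le_total κ 0.35 with f0 | g0
  · exact T3_02_p0_c0 h hβ hk1 f0 ht1 ht2 hR0 hR
  exact T3_02_p0_c1 h hβ g0 hk2 ht1 ht2 hR0 hR

private theorem T3_02_p0R_b0_0 {β x y : ℝ} (hβ : 0 < β) (hN : β * 27.777 ≤ 1) (hx1 : 0.2856 ≤ x) (hx2 : x ≤ 0.4223)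
    (hy1 : -0.317 ≤ y) (hy2 : y ≤ -0.257) : ‖HH β (x + y * I) - 1‖ ≤ 0.03 := by
  refine le_epsJ (C := 0.8215) (N0 := 27.777) (J_boxp 0.2856 0.4223 0.317 0 (-0.257) 0.686 0.5281 0.8547 1.6272 0.3689 5.2704 27.777 0.7699 2.824 1.415 0.965 0.3429 0.2549 0.6056 2.8364 0.3205 0.8954 1.2801 3.8477 0.0000731 0.0008418 0.0000003101 0.0000003101 0.0001365 0.0000003101 0.0000003101 0.0000003101 0.8215
    hβ hN hx1 hx2 hy1 hy2 (by norm_num) (by norm_num) (by linarith) (by norm_num) (by norm_num) (by norm_num) (by norm_num) (by norm_num) (by norm_num) (by norm_num) (by norm_num) (by norm_num) (by norm_num) (by norm_num) (by norm_num) (by norm_num) (by norm_num) (by norm_num) (by norm_num) (by norm_num) (by norm_num) (by norm_num) (by norm_num) (by norm_num)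
    (cube_sqrt_geJ (s := 0.8621) (by norm_num) (by norm_num) (by norm_num) (by norm_num))
    (cube_sqrt_geJ (s := 0.9517) (by norm_num) (by norm_num) (by norm_num) (by norm_num))
    (by norm_num) (by norm_num) (by norm_num) (by norm_num) (by norm_num) (by norm_num) (by norm_num) (by norm_num) (by norm_num) (by norm_num) (by norm_num) (by norm_num) (by norm_num) (by norm_num) (by norm_num) (by norm_num) (by norm_num) (by norm_num)
    (exp_neg_leJ (r := 0.524) 9 (by norm_num) (by norm_num) (by norm_num) (by norm_num))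
    (exp_neg_leJ (r := 0.08) 7 (by norm_num) (by norm_num) (by norm_num) (by norm_num))
    (exp_neg_leJ (r := 0.99) 14 (by norm_num) (by norm_num) (by norm_num) (by norm_num))
    (exp_neg_leJ (r := 0.99) 14 (by norm_num) (by norm_num) (by norm_num) (by norm_num))
    (exp_neg_leJ (r := 0.902) 8 (by norm_num) (by norm_num) (by norm_num) (by norm_num))
    (exp_neg_leJ (r := 0.99) 14 (by norm_num) (by norm_num) (by norm_num) (by norm_num))
    (exp_neg_leJ (r := 0.99) 14 (by norm_num) (by norm_num) (by norm_num) (by norm_num))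
    (exp_neg_leJ (r := 0.99) 14 (by norm_num) (by norm_num) (by norm_num) (by norm_num))
    (by norm_num)) (by norm_num) hN hβ.le (by norm_num)

private theorem T3_02_p0R_b0_1 {β x y : ℝ} (hβ : 0 < β) (hN : β * 27.777 ≤ 1) (hx1 : 0.2443 ≤ x) (hx2 : x ≤ 0.4599)
    (hy1 : -0.257 ≤ y) (hy2 : y ≤ -0.072) : ‖HH β (x + y * I) - 1‖ ≤ 0.03 := by
  refine le_epsJ (C := 0.8303) (N0 := 27.777) (J_boxp 0.2443 0.4599 0.257 0 (-0.072) 0.6995 0.5269 1.0358 1.7397 0.4061 5.2704 27.777 0.7533 2.752 1.404 1.006 0.3497 0.2619 0.6862 3.0135 0.3332 0.8382 1.3606 3.7684 0.00006055 0.0006934 0.0000003101 0.0000003101 0.00009564 0.0000003101 0.0000003101 0.0000003101 0.8303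
    hβ hN hx1 hx2 hy1 hy2 (by norm_num) (by norm_num) (by linarith) (by norm_num) (by norm_num) (by norm_num) (by norm_num) (by norm_num) (by norm_num) (by norm_num) (by norm_num) (by norm_num) (by norm_num) (by norm_num) (by norm_num) (by norm_num) (by norm_num) (by norm_num) (by norm_num) (by norm_num) (by norm_num) (by norm_num) (by norm_num) (by norm_num)
    (cube_sqrt_geJ (s := 0.8653) (by norm_num) (by norm_num) (by norm_num) (by norm_num))
    (cube_sqrt_geJ (s := 0.9527) (by norm_num) (by norm_num) (by norm_num) (by norm_num))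
    (by norm_num) (by norm_num) (by norm_num) (by norm_num) (by norm_num) (by norm_num) (by norm_num) (by norm_num) (by norm_num) (by norm_num) (by norm_num) (by norm_num) (by norm_num) (by norm_num) (by norm_num) (by norm_num) (by norm_num) (by norm_num)
    (exp_neg_leJ (r := 0.713) 9 (by norm_num) (by norm_num) (by norm_num) (by norm_num))
    (exp_neg_leJ (r := 0.274) 7 (by norm_num) (by norm_num) (by norm_num) (by norm_num))
    (exp_neg_leJ (r := 0.99) 14 (by norm_num) (by norm_num) (by norm_num) (by norm_num))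
    (exp_neg_leJ (r := 0.99) 14 (by norm_num) (by norm_num) (by norm_num) (by norm_num))
    (exp_neg_leJ (r := 0.255) 9 (by norm_num) (by norm_num) (by norm_num) (by norm_num))
    (exp_neg_leJ (r := 0.99) 14 (by norm_num) (by norm_num) (by norm_num) (by norm_num))
    (exp_neg_leJ (r := 0.99) 14 (by norm_num) (by norm_num) (by norm_num) (by norm_num))
    (exp_neg_leJ (r := 0.99) 14 (by norm_num) (by norm_num) (by norm_num) (by norm_num))
    (by norm_num)) (by norm_num) hN hβ.le (by norm_num)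

private theorem T3_02_p0R_b0_2 {β x y : ℝ} (hβ : 0 < β) (hN : β * 27.777 ≤ 1) (hx1 : 0.3203 ≤ x) (hx2 : x ≤ 0.3869)
    (hy1 : -0.072 ≤ y) (hy2 : y ≤ 0.005) : ‖HH β (x + y * I) - 1‖ ≤ 0.03 := by
  refine le_epsJ (C := 0.2) (N0 := 27.777) (J_boxp 0.3203 0.3869 0.072 0.005 0.005 0.8844 0.3936 1.077 1.2478 0.4141 5.2704 27.777 0.4451 1.755 1.217 1.2048 0.4421 0.3765 1.0042 3.6526 0.4707 0.9429 1.9941 4.2592 0.000004644 0.00002873 0.0000003101 0.0000003101 0.0000021 0.0000003101 0.0000003101 0.0000003101 0.2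
    hβ hN hx1 hx2 hy1 hy2 (by norm_num) (by norm_num) (by linarith) (by norm_num) (by norm_num) (by norm_num) (by norm_num) (by norm_num) (by norm_num) (by norm_num) (by norm_num) (by norm_num) (by norm_num) (by norm_num) (by norm_num) (by norm_num) (by norm_num) (by norm_num) (by norm_num) (by norm_num) (by norm_num) (by norm_num) (by norm_num) (by norm_num)
    (cube_sqrt_geJ (s := 0.9228) (by norm_num) (by norm_num) (by norm_num) (by norm_num))
    (cube_sqrt_geJ (s := 0.9723) (by norm_num) (by norm_num) (by norm_num) (by norm_num))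
    (by norm_num) (by norm_num) (by norm_num) (by norm_num) (by norm_num) (by norm_num) (by norm_num) (by norm_num) (by norm_num) (by norm_num) (by norm_num) (by norm_num) (by norm_num) (by norm_num) (by norm_num) (by norm_num) (by norm_num) (by norm_num)
    (exp_neg_leJ (r := 0.28) 12 (by norm_num) (by norm_num) (by norm_num) (by norm_num))
    (exp_neg_leJ (r := 0.458) 10 (by norm_num) (by norm_num) (by norm_num) (by norm_num))
    (exp_neg_leJ (r := 0.99) 14 (by norm_num) (by norm_num) (by norm_num) (by norm_num))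
    (exp_neg_leJ (r := 0.99) 14 (by norm_num) (by norm_num) (by norm_num) (by norm_num))
    (exp_neg_leJ (r := 0.074) 13 (by norm_num) (by norm_num) (by norm_num) (by norm_num))
    (exp_neg_leJ (r := 0.99) 14 (by norm_num) (by norm_num) (by norm_num) (by norm_num))
    (exp_neg_leJ (r := 0.99) 14 (by norm_num) (by norm_num) (by norm_num) (by norm_num))
    (exp_neg_leJ (r := 0.99) 14 (by norm_num) (by norm_num) (by norm_num) (by norm_num))
    (by norm_num)) (by norm_num) hN hβ.le (by norm_num)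

private theorem T3_02_p0R_c0 {κ t β : ℝ} (h : DomR κ t) (hβ : 0 < β) (hk1 : 0.33 ≤ κ) (hk2 : κ ≤ 0.36)
    (ht1 : -0.7124 ≤ t + κ) (ht2 : t + κ ≤ 0.0001) (hR0 : β * 10 ≤ κ) (hR : β * (1 * (1 + κ ^ 2)) ≤ κ) :
    ‖HH β (sg κ t) - 1‖ ≤ 0.03 := by
  have hN : β * 27.777 ≤ 1 := bNR hβ h.1 hk2 hR0 (by norm_num)
  have hy1 : -0.317 ≤ sy κ t := syL_ang2 h 0.33 0.36 0.7124 0.696 0.7674 0.6412 0.317 1.373 0.72833 hk1 hk2 (by linarith) (by norm_num) (by norm_num) (by norm_num) (by norm_num)
    (cos_ge_num (by norm_num) (by norm_num)) (sin_le_num (by norm_num) (by norm_num))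
    (expn_ge (by norm_num) (by norm_num)) (expm_ge (by norm_num) (by norm_num) (by norm_num) (by norm_num)) (by norm_num) (by norm_num) (by norm_num)
    (by norm_num) (by norm_num) (by norm_num)
  have hy2 : sy κ t ≤ 0.005 := syR_le h 0.33 0.36 0.0001 0.005 1.00501 0.0136 0.01395 0.01523 hk1 hk2 (by linarith) (by norm_num) (by norm_num)
    (expn_ge (by norm_num) (by norm_num)) (by norm_num) (by norm_num) (Or.inr ((mul_le_mul_of_nonneg_left (expn_le (E := 1.00502) (by norm_num) (by norm_num) (by norm_num)) (by norm_num)).trans (by norm_num))) (by norm_num) (by norm_num) (by norm_num)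
  rcases le_total (sy κ t) (-0.257) with f0 | g0
  · have hx1 : 0.2856 ≤ sx κ t := sx_lo h 0.33 (-0.257) 0.317 1.29304 0.2856 hk1 (by norm_num) f0 (abs_le.2 ⟨by linarith, by linarith⟩) (by rw [neg_neg]; exact expn_ge (by norm_num) (by norm_num)) (by norm_num) (by norm_num)
    have hx2 : sx κ t ≤ 0.4223 := sx_hi h 0.36 (-0.317) 0.257 1.37301 0.4223 hk2 hy1 (by norm_num) (by rw [abs_of_nonpos (by linarith)]; linarith) (by rw [neg_neg]; exact expn_le (by norm_num) (by norm_num) (by norm_num)) (by norm_num) (by norm_num)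
    exact T3_02_p0R_b0_0 hβ hN hx1 hx2 (by linarith) (by linarith)
  rcases le_total (sy κ t) (-0.072) with f1 | g1
  · have hx1 : 0.2443 ≤ sx κ t := sx_lo h 0.33 (-0.072) 0.257 1.07465 0.2443 hk1 (by norm_num) f1 (abs_le.2 ⟨by linarith, by linarith⟩) (by rw [neg_neg]; exact expn_ge (by norm_num) (by norm_num)) (by norm_num) (by norm_num)
    have hx2 : sx κ t ≤ 0.4599 := sx_hi h 0.36 (-0.257) 0.072 1.29305 0.4599 hk2 g0 (by norm_num) (by rw [abs_of_nonpos (by linarith)]; linarith) (by rw [neg_neg]; exact expn_le (by norm_num) (by norm_num) (by norm_num)) (by norm_num) (by norm_num)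
    exact T3_02_p0R_b0_1 hβ hN hx1 hx2 (by linarith) (by linarith)
  have hx1 : 0.3203 ≤ sx κ t := sx_lo h 0.33 0.005 0.072 0.99501 0.3203 hk1 (by norm_num) hy2 (abs_le.2 ⟨by linarith, by linarith⟩) (expm_ge (by norm_num) (by norm_num) (by norm_num) (by norm_num)) (by norm_num) (by norm_num)
  have hx2 : sx κ t ≤ 0.3869 := sx_hi h 0.36 (-0.072) 0 1.07466 0.3869 hk2 g1 (by norm_num) (abs_nonneg _) (by rw [neg_neg]; exact expn_le (by norm_num) (by norm_num) (by norm_num)) (by norm_num) (by norm_num)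
  exact T3_02_p0R_b0_2 hβ hN hx1 hx2 (by linarith) (by linarith)

theorem T3_02_p0R {κ t β : ℝ} (h : DomR κ t) (hβ : 0 < β) (hk1 : 0.33 ≤ κ) (hk2 : κ ≤ 0.36)
    (ht1 : -0.7124 ≤ t + κ) (ht2 : t + κ ≤ 0.0001) (hR0 : β * 10 ≤ κ) (hR : β * (1 * (1 + κ ^ 2)) ≤ κ) :
    ‖HH β (sg κ t) - 1‖ ≤ 0.03 := by
  exact T3_02_p0R_c0 h hβ hk1 hk2 ht1 ht2 hR0 hR

private theorem T3_02_d0_0_b0_0 {β x y : ℝ} (hβ : 0 < β) (hN : β * 29.411 ≤ 1) (hx1 : 0.1688 ≤ x) (hx2 : x ≤ 0.3477)
    (hy1 : -0.505 ≤ y) (hy2 : y ≤ -0.415) : ‖HH β (x + y * I) - 1‖ ≤ 0.245 := by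
  refine le_epsJ (C := 6.7041) (N0 := 29.411) (J_boxp 0.1688 0.3477 0.505 0 (-0.415) 0.4703 0.6132 0.6806 2.5579 0.3292 5.4232 29.411 1.3039 7.36 1.839 0.8202 0.2351 0.1329 0.2689 2.2463 0.1611 0.7337 0.5355 3.3828 0.0009963 0.02013 0.0003687 0.0000003101 0.008765 0.0000003101 0.0000003101 0.0000003101 6.7041
    hβ hN hx1 hx2 hy1 hy2 (by norm_num) (by norm_num) (by linarith) (by norm_num) (by norm_num) (by norm_num) (by norm_num) (by norm_num) (by norm_num) (by norm_num) (by norm_num) (by norm_num) (by norm_num) (by norm_num) (by norm_num) (by norm_num) (by norm_num) (by norm_num) (by norm_num) (by norm_num) (by norm_num) (by norm_num) (by norm_num) (by norm_num)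
    (cube_sqrt_geJ (s := 0.7519) (by norm_num) (by norm_num) (by norm_num) (by norm_num))
    (cube_sqrt_geJ (s := 0.9167) (by norm_num) (by norm_num) (by norm_num) (by norm_num))
    (by norm_num) (by norm_num) (by norm_num) (by norm_num) (by norm_num) (by norm_num) (by norm_num) (by norm_num) (by norm_num) (by norm_num) (by norm_num) (by norm_num) (by norm_num) (by norm_num) (by norm_num) (by norm_num) (by norm_num) (by norm_num)
    (exp_neg_leJ (r := 0.914) 6 (by norm_num) (by norm_num) (by norm_num) (by norm_num))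
    (exp_neg_leJ (r := 0.908) 3 (by norm_num) (by norm_num) (by norm_num) (by norm_num))
    (exp_neg_leJ (r := 0.908) 7 (by norm_num) (by norm_num) (by norm_num) (by norm_num))
    (exp_neg_leJ (r := 0.99) 14 (by norm_num) (by norm_num) (by norm_num) (by norm_num))
    (exp_neg_leJ (r := 0.738) 4 (by norm_num) (by norm_num) (by norm_num) (by norm_num))
    (exp_neg_leJ (r := 0.99) 14 (by norm_num) (by norm_num) (by norm_num) (by norm_num))
    (exp_neg_leJ (r := 0.99) 14 (by norm_num) (by norm_num) (by norm_num) (by norm_num))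
    (exp_neg_leJ (r := 0.99) 14 (by norm_num) (by norm_num) (by norm_num) (by norm_num))
    (by norm_num)) (by norm_num) hN hβ.le (by norm_num)

private theorem T3_02_d0_0_b0_1 {β x y : ℝ} (hβ : 0 < β) (hN : β * 29.411 ≤ 1) (hx1 : 0.1676 ≤ x) (hx2 : x ≤ 0.3909)
    (hy1 : -0.475 ≤ y) (hy2 : y ≤ -0.359) : ‖HH β (x + y * I) - 1‖ ≤ 0.245 := by
  refine le_epsJ (C := 5.6198) (N0 := 29.411) (J_boxp 0.1676 0.3909 0.475 0 (-0.359) 0.4907 0.6152 0.7508 2.5208 0.3457 5.4232 29.411 1.2538 6.647 1.793 0.8313 0.2453 0.1428 0.3158 2.3266 0.1769 0.732 0.6147 3.375 0.0007363 0.01502 0.00009263 0.0000003101 0.005506 0.0000003101 0.0000003101 0.0000003101 5.6198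
    hβ hN hx1 hx2 hy1 hy2 (by norm_num) (by norm_num) (by linarith) (by norm_num) (by norm_num) (by norm_num) (by norm_num) (by norm_num) (by norm_num) (by norm_num) (by norm_num) (by norm_num) (by norm_num) (by norm_num) (by norm_num) (by norm_num) (by norm_num) (by norm_num) (by norm_num) (by norm_num) (by norm_num) (by norm_num) (by norm_num) (by norm_num)
    (cube_sqrt_geJ (s := 0.7629) (by norm_num) (by norm_num) (by norm_num) (by norm_num))
    (cube_sqrt_geJ (s := 0.92) (by norm_num) (by norm_num) (by norm_num) (by norm_num))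
    (by norm_num) (by norm_num) (by norm_num) (by norm_num) (by norm_num) (by norm_num) (by norm_num) (by norm_num) (by norm_num) (by norm_num) (by norm_num) (by norm_num) (by norm_num) (by norm_num) (by norm_num) (by norm_num) (by norm_num) (by norm_num)
    (exp_neg_leJ (r := 0.214) 7 (by norm_num) (by norm_num) (by norm_num) (by norm_num))
    (exp_neg_leJ (r := 0.199) 4 (by norm_num) (by norm_num) (by norm_num) (by norm_num))
    (exp_neg_leJ (r := 0.287) 9 (by norm_num) (by norm_num) (by norm_num) (by norm_num))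
    (exp_neg_leJ (r := 0.99) 14 (by norm_num) (by norm_num) (by norm_num) (by norm_num))
    (exp_neg_leJ (r := 0.202) 5 (by norm_num) (by norm_num) (by norm_num) (by norm_num))
    (exp_neg_leJ (r := 0.99) 14 (by norm_num) (by norm_num) (by norm_num) (by norm_num))
    (exp_neg_leJ (r := 0.99) 14 (by norm_num) (by norm_num) (by norm_num) (by norm_num))
    (exp_neg_leJ (r := 0.99) 14 (by norm_num) (by norm_num) (by norm_num) (by norm_num))
    (by norm_num)) (by norm_num) hN hβ.le (by norm_num)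

private theorem T3_02_d0_0_c0 {κ t β : ℝ} (h : DomR κ t) (hβ : 0 < β) (hk1 : 0.33 ≤ κ) (hk2 : κ ≤ 0.34)
    (ht1 : -0.9824 ≤ t + κ) (ht2 : t + κ ≤ -0.95239) (hR0 : β * 10 ≤ κ) (hR : β * (1 * (1 + κ ^ 2)) ≤ κ) :
    ∀ s : ℂ, ‖s - sg κ t‖ ≤ 0.03 → ‖HH β s - 1‖ ≤ 0.245 := by
  have hN : β * 29.411 ≤ 1 := bNR hβ h.1 hk2 hR0 (by norm_num)
  have hy1 : -0.475 ≤ sy κ t := syL_ang2 h 0.33 0.34 0.9824 1.052 0.4957 0.8687 0.475 1.60801 0.62188 hk1 hk2 (by linarith) (by norm_num) (by norm_num) (by norm_num) (by norm_num)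
    (cos_ge_num (by norm_num) (by norm_num)) (sin_le_num (by norm_num) (by norm_num))
    (expn_ge (by norm_num) (by norm_num)) (expm_ge (by norm_num) (by norm_num) (by norm_num) (by norm_num)) (by norm_num) (by norm_num) (by norm_num)
    (by norm_num) (by norm_num) (by norm_num)
  have hy2 : sy κ t ≤ -0.389 := syL_le h 0.33 0.34 0.95239 0.389 0.67773 0.67774 0.7754 0.79892 hk1 hk2 (by linarith) (by norm_num) (by norm_num) (by norm_num)
    (expm_ge (by norm_num) (by norm_num) (by norm_num) (by norm_num)) (expm_le (by norm_num) (by norm_num) (by norm_num)) (by norm_num)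
    (by norm_num) (by norm_num) (by norm_num) (by norm_num) (by norm_num) (by norm_num)
  intro s hs
  have hs' : ‖s - ((sx κ t : ℂ) + (sy κ t : ℂ) * I)‖ ≤ 0.03 := hs
  obtain ⟨es, ⟨s1, s2⟩, ⟨s3, s4⟩⟩ := disc_split hs'
  rcases le_total (sy κ t) (-0.445) with f0 | g0
  · have hx1 : 0.1988 ≤ sx κ t := sx_lo h 0.33 (-0.445) 0.475 1.56048 0.1988 hk1 (by norm_num) f0 (abs_le.2 ⟨by linarith, by linarith⟩) (by rw [neg_neg]; exact expn_ge (by norm_num) (by norm_num)) (by norm_num) (by norm_num)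
    have hx2 : sx κ t ≤ 0.3177 := sx_hi h 0.34 (-0.475) 0.445 1.60802 0.3177 hk2 hy1 (by norm_num) (by rw [abs_of_nonpos (by linarith)]; linarith) (by rw [neg_neg]; exact expn_le (by norm_num) (by norm_num) (by norm_num)) (by norm_num) (by norm_num)
    rw [es]
    exact T3_02_d0_0_b0_0 hβ hN (by linarith) (by linarith) (by linarith) (by linarith)
  have hx1 : 0.1976 ≤ sx κ t := sx_lo h 0.33 (-0.389) 0.445 1.4755 0.1976 hk1 (by norm_num) hy2 (abs_le.2 ⟨by linarith, by linarith⟩) (by rw [neg_neg]; exact expn_ge (by norm_num) (by norm_num)) (by norm_num) (by norm_num)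
  have hx2 : sx κ t ≤ 0.3609 := sx_hi h 0.34 (-0.445) 0.389 1.5605 0.3609 hk2 g0 (by norm_num) (by rw [abs_of_nonpos (by linarith)]; linarith) (by rw [neg_neg]; exact expn_le (by norm_num) (by norm_num) (by norm_num)) (by norm_num) (by norm_num)
  rw [es]
  exact T3_02_d0_0_b0_1 hβ hN (by linarith) (by linarith) (by linarith) (by linarith)

private theorem T3_02_d0_0_b1_0 {β x y : ℝ} (hβ : 0 < β) (hN : β * 28.571 ≤ 1) (hx1 : 0.206 ≤ x) (hx2 : x ≤ 0.3437)
    (hy1 : -0.528 ≤ y) (hy2 : y ≤ -0.453) : ‖HH β (x + y * I) - 1‖ ≤ 0.245 := by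
  refine le_epsJ (C := 6.4793) (N0 := 28.571) (J_boxp 0.206 0.3437 0.528 0 (-0.453) 0.4802 0.6301 0.6461 2.4156 0.3207 5.3452 28.571 1.3122 7.488 1.847 0.8005 0.24 0.135 0.2453 2.1708 0.1666 0.7852 0.5474 3.4112 0.001055 0.02118 0.0009047 0.0000003101 0.008584 0.0000003101 0.0000003101 0.0000003101 6.4793
    hβ hN hx1 hx2 hy1 hy2 (by norm_num) (by norm_num) (by linarith) (by norm_num) (by norm_num) (by norm_num) (by norm_num) (by norm_num) (by norm_num) (by norm_num) (by norm_num) (by norm_num) (by norm_num) (by norm_num) (by norm_num) (by norm_num) (by norm_num) (by norm_num) (by norm_num) (by norm_num) (by norm_num) (by norm_num) (by norm_num) (by norm_num)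
    (cube_sqrt_geJ (s := 0.75) (by norm_num) (by norm_num) (by norm_num) (by norm_num))
    (cube_sqrt_geJ (s := 0.9161) (by norm_num) (by norm_num) (by norm_num) (by norm_num))
    (by norm_num) (by norm_num) (by norm_num) (by norm_num) (by norm_num) (by norm_num) (by norm_num) (by norm_num) (by norm_num) (by norm_num) (by norm_num) (by norm_num) (by norm_num) (by norm_num) (by norm_num) (by norm_num) (by norm_num) (by norm_num)
    (exp_neg_leJ (r := 0.857) 6 (by norm_num) (by norm_num) (by norm_num) (by norm_num))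
    (exp_neg_leJ (r := 0.857) 3 (by norm_num) (by norm_num) (by norm_num) (by norm_num))
    (exp_neg_leJ (r := 0.008) 7 (by norm_num) (by norm_num) (by norm_num) (by norm_num))
    (exp_neg_leJ (r := 0.99) 14 (by norm_num) (by norm_num) (by norm_num) (by norm_num))
    (exp_neg_leJ (r := 0.759) 4 (by norm_num) (by norm_num) (by norm_num) (by norm_num))
    (exp_neg_leJ (r := 0.99) 14 (by norm_num) (by norm_num) (by norm_num) (by norm_num))
    (exp_neg_leJ (r := 0.99) 14 (by norm_num) (by norm_num) (by norm_num) (by norm_num))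
    (exp_neg_leJ (r := 0.99) 14 (by norm_num) (by norm_num) (by norm_num) (by norm_num))
    (by norm_num)) (by norm_num) hN hβ.le (by norm_num)

private theorem T3_02_d0_0_b1_1 {β x y : ℝ} (hβ : 0 < β) (hN : β * 28.571 ≤ 1) (hx1 : 0.1933 ≤ x) (hx2 : x ≤ 0.3781)
    (hy1 : -0.513 ≤ y) (hy2 : y ≤ -0.418) : ‖HH β (x + y * I) - 1‖ ≤ 0.245 := by
  refine le_epsJ (C := 6.8428) (N0 := 28.571) (J_boxp 0.1933 0.3781 0.513 0 (-0.418) 0.4819 0.6373 0.6941 2.4905 0.3324 5.3452 28.571 1.3225 7.65 1.856 0.8011 0.2409 0.1347 0.2647 2.2053 0.1686 0.7676 0.5628 3.3663 0.001029 0.02137 0.00052 0.0000003101 0.008104 0.0000003101 0.0000003101 0.0000003101 6.8428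
    hβ hN hx1 hx2 hy1 hy2 (by norm_num) (by norm_num) (by linarith) (by norm_num) (by norm_num) (by norm_num) (by norm_num) (by norm_num) (by norm_num) (by norm_num) (by norm_num) (by norm_num) (by norm_num) (by norm_num) (by norm_num) (by norm_num) (by norm_num) (by norm_num) (by norm_num) (by norm_num) (by norm_num) (by norm_num) (by norm_num) (by norm_num)
    (cube_sqrt_geJ (s := 0.7477) (by norm_num) (by norm_num) (by norm_num) (by norm_num))
    (cube_sqrt_geJ (s := 0.9154) (by norm_num) (by norm_num) (by norm_num) (by norm_num))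
    (by norm_num) (by norm_num) (by norm_num) (by norm_num) (by norm_num) (by norm_num) (by norm_num) (by norm_num) (by norm_num) (by norm_num) (by norm_num) (by norm_num) (by norm_num) (by norm_num) (by norm_num) (by norm_num) (by norm_num) (by norm_num)
    (exp_neg_leJ (r := 0.882) 6 (by norm_num) (by norm_num) (by norm_num) (by norm_num))
    (exp_neg_leJ (r := 0.848) 3 (by norm_num) (by norm_num) (by norm_num) (by norm_num))
    (exp_neg_leJ (r := 0.562) 7 (by norm_num) (by norm_num) (by norm_num) (by norm_num))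
    (exp_neg_leJ (r := 0.99) 14 (by norm_num) (by norm_num) (by norm_num) (by norm_num))
    (exp_neg_leJ (r := 0.817) 4 (by norm_num) (by norm_num) (by norm_num) (by norm_num))
    (exp_neg_leJ (r := 0.99) 14 (by norm_num) (by norm_num) (by norm_num) (by norm_num))
    (exp_neg_leJ (r := 0.99) 14 (by norm_num) (by norm_num) (by norm_num) (by norm_num))
    (exp_neg_leJ (r := 0.99) 14 (by norm_num) (by norm_num) (by norm_num) (by norm_num))
    (by norm_num)) (by norm_num) hN hβ.le (by norm_num)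

private theorem T3_02_d0_0_b1_2 {β x y : ℝ} (hβ : 0 < β) (hN : β * 28.571 ≤ 1) (hx1 : 0.2174 ≤ x) (hx2 : x ≤ 0.3945)
    (hy1 : -0.478 ≤ y) (hy2 : y ≤ -0.379) : ‖HH β (x + y * I) - 1‖ ≤ 0.245 := by
  refine le_epsJ (C := 4.0788) (N0 := 28.571) (J_boxp 0.2174 0.3945 0.478 0 (-0.379) 0.5237 0.6198 0.7358 2.2634 0.3423 5.3452 28.571 1.1836 5.791 1.73 0.8271 0.2618 0.1585 0.3281 2.3149 0.1994 0.801 0.7061 3.462 0.000565 0.01081 0.00008491 0.0000003101 0.003359 0.0000003101 0.0000003101 0.0000003101 4.0788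
    hβ hN hx1 hx2 hy1 hy2 (by norm_num) (by norm_num) (by linarith) (by norm_num) (by norm_num) (by norm_num) (by norm_num) (by norm_num) (by norm_num) (by norm_num) (by norm_num) (by norm_num) (by norm_num) (by norm_num) (by norm_num) (by norm_num) (by norm_num) (by norm_num) (by norm_num) (by norm_num) (by norm_num) (by norm_num) (by norm_num) (by norm_num)
    (cube_sqrt_geJ (s := 0.7781) (by norm_num) (by norm_num) (by norm_num) (by norm_num))
    (cube_sqrt_geJ (s := 0.9247) (by norm_num) (by norm_num) (by norm_num) (by norm_num))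
    (by norm_num) (by norm_num) (by norm_num) (by norm_num) (by norm_num) (by norm_num) (by norm_num) (by norm_num) (by norm_num) (by norm_num) (by norm_num) (by norm_num) (by norm_num) (by norm_num) (by norm_num) (by norm_num) (by norm_num) (by norm_num)
    (exp_neg_leJ (r := 0.479) 7 (by norm_num) (by norm_num) (by norm_num) (by norm_num))
    (exp_neg_leJ (r := 0.528) 4 (by norm_num) (by norm_num) (by norm_num) (by norm_num))
    (exp_neg_leJ (r := 0.374) 9 (by norm_num) (by norm_num) (by norm_num) (by norm_num))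
    (exp_neg_leJ (r := 0.99) 14 (by norm_num) (by norm_num) (by norm_num) (by norm_num))
    (exp_neg_leJ (r := 0.697) 5 (by norm_num) (by norm_num) (by norm_num) (by norm_num))
    (exp_neg_leJ (r := 0.99) 14 (by norm_num) (by norm_num) (by norm_num) (by norm_num))
    (exp_neg_leJ (r := 0.99) 14 (by norm_num) (by norm_num) (by norm_num) (by norm_num))
    (exp_neg_leJ (r := 0.99) 14 (by norm_num) (by norm_num) (by norm_num) (by norm_num))
    (by norm_num)) (by norm_num) hN hβ.le (by norm_num)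

private theorem T3_02_d0_0_c1 {κ t β : ℝ} (h : DomR κ t) (hβ : 0 < β) (hk1 : 0.34 ≤ κ) (hk2 : κ ≤ 0.35)
    (ht1 : -0.9824 ≤ t + κ) (ht2 : t + κ ≤ -0.95239) (hR0 : β * 10 ≤ κ) (hR : β * (1 * (1 + κ ^ 2)) ≤ κ) :
    ∀ s : ℂ, ‖s - sg κ t‖ ≤ 0.03 → ‖HH β s - 1‖ ≤ 0.245 := by
  have hN : β * 28.571 ≤ 1 := bNR hβ h.1 hk2 hR0 (by norm_num)
  have hy1 : -0.498 ≤ sy κ t := syL_ang2 h 0.34 0.35 0.9824 1.044 0.5027 0.8647 0.498 1.64542 0.60774 hk1 hk2 (by linarith) (by norm_num) (by norm_num) (by norm_num) (by norm_num)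
    (cos_ge_num (by norm_num) (by norm_num)) (sin_le_num (by norm_num) (by norm_num))
    (expn_ge (by norm_num) (by norm_num)) (expm_ge (by norm_num) (by norm_num) (by norm_num) (by norm_num)) (by norm_num) (by norm_num) (by norm_num)
    (by norm_num) (by norm_num) (by norm_num)
  have hy2 : sy κ t ≤ -0.409 := syL_le h 0.34 0.35 0.95239 0.409 0.66431 0.66432 0.77629 0.79914 hk1 hk2 (by linarith) (by norm_num) (by norm_num) (by norm_num)
    (expm_ge (by norm_num) (by norm_num) (by norm_num) (by norm_num)) (expm_le (by norm_num) (by norm_num) (by norm_num)) (by norm_num)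
    (by norm_num) (by norm_num) (by norm_num) (by norm_num) (by norm_num) (by norm_num)
  intro s hs
  have hs' : ‖s - ((sx κ t : ℂ) + (sy κ t : ℂ) * I)‖ ≤ 0.03 := hs
  obtain ⟨es, ⟨s1, s2⟩, ⟨s3, s4⟩⟩ := disc_split hs'
  rcases le_total (sy κ t) (-0.483) with f0 | g0
  · have hx1 : 0.236 ≤ sx κ t := sx_lo h 0.34 (-0.483) 0.498 1.62092 0.236 hk1 (by norm_num) f0 (abs_le.2 ⟨by linarith, by linarith⟩) (by rw [neg_neg]; exact expn_ge (by norm_num) (by norm_num)) (by norm_num) (by norm_num)
    have hx2 : sx κ t ≤ 0.3137 := sx_hi h 0.35 (-0.498) 0.483 1.64543 0.3137 hk2 hy1 (by norm_num) (by rw [abs_of_nonpos (by linarith)]; linarith) (by rw [neg_neg]; exact expn_le (by norm_num) (by norm_num) (by norm_num)) (by norm_num) (by norm_num)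
    rw [es]
    exact T3_02_d0_0_b1_0 hβ hN (by linarith) (by linarith) (by linarith) (by linarith)
  rcases le_total (sy κ t) (-0.448) with f1 | g1
  · have hx1 : 0.2233 ≤ sx κ t := sx_lo h 0.34 (-0.448) 0.483 1.56517 0.2233 hk1 (by norm_num) f1 (abs_le.2 ⟨by linarith, by linarith⟩) (by rw [neg_neg]; exact expn_ge (by norm_num) (by norm_num)) (by norm_num) (by norm_num)
    have hx2 : sx κ t ≤ 0.3481 := sx_hi h 0.35 (-0.483) 0.448 1.62093 0.3481 hk2 g0 (by norm_num) (by rw [abs_of_nonpos (by linarith)]; linarith) (by rw [neg_neg]; exact expn_le (by norm_num) (by norm_num) (by norm_num)) (by norm_num) (by norm_num)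
    rw [es]
    exact T3_02_d0_0_b1_1 hβ hN (by linarith) (by linarith) (by linarith) (by linarith)
  have hx1 : 0.2474 ≤ sx κ t := sx_lo h 0.34 (-0.409) 0.448 1.50531 0.2474 hk1 (by norm_num) hy2 (abs_le.2 ⟨by linarith, by linarith⟩) (by rw [neg_neg]; exact expn_ge (by norm_num) (by norm_num)) (by norm_num) (by norm_num)
  have hx2 : sx κ t ≤ 0.3645 := sx_hi h 0.35 (-0.448) 0.409 1.56518 0.3645 hk2 g1 (by norm_num) (by rw [abs_of_nonpos (by linarith)]; linarith) (by rw [neg_neg]; exact expn_le (by norm_num) (by norm_num) (by norm_num)) (by norm_num) (by norm_num)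
  rw [es]
  exact T3_02_d0_0_b1_2 hβ hN (by linarith) (by linarith) (by linarith) (by linarith)

private theorem T3_02_d0_0_b2_0 {β x y : ℝ} (hβ : 0 < β) (hN : β * 27.777 ≤ 1) (hx1 : 0.2396 ≤ x) (hx2 : x ≤ 0.3486)
    (hy1 : -0.55 ≤ y) (hy2 : y ≤ -0.485) : ‖HH β (x + y * I) - 1‖ ≤ 0.245 := by
  refine le_epsJ (C := 6.5921) (N0 := 27.777) (J_boxp 0.2396 0.3486 0.55 0 (-0.485) 0.4882 0.6512 0.6219 2.3119 0.3147 5.2704 27.777 1.3339 7.835 1.867 0.7783 0.244 0.1355 0.2221 2.0945 0.1709 0.8317 0.5548 3.4211 0.001142 0.02325 0.002094 0.0000003101 0.008687 0.0000003101 0.0000003101 0.0000003101 6.5921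
    hβ hN hx1 hx2 hy1 hy2 (by norm_num) (by norm_num) (by linarith) (by norm_num) (by norm_num) (by norm_num) (by norm_num) (by norm_num) (by norm_num) (by norm_num) (by norm_num) (by norm_num) (by norm_num) (by norm_num) (by norm_num) (by norm_num) (by norm_num) (by norm_num) (by norm_num) (by norm_num) (by norm_num) (by norm_num) (by norm_num) (by norm_num)
    (cube_sqrt_geJ (s := 0.7452) (by norm_num) (by norm_num) (by norm_num) (by norm_num))
    (cube_sqrt_geJ (s := 0.9147) (by norm_num) (by norm_num) (by norm_num) (by norm_num))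
    (by norm_num) (by norm_num) (by norm_num) (by norm_num) (by norm_num) (by norm_num) (by norm_num) (by norm_num) (by norm_num) (by norm_num) (by norm_num) (by norm_num) (by norm_num) (by norm_num) (by norm_num) (by norm_num) (by norm_num) (by norm_num)
    (exp_neg_leJ (r := 0.777) 6 (by norm_num) (by norm_num) (by norm_num) (by norm_num))
    (exp_neg_leJ (r := 0.763) 3 (by norm_num) (by norm_num) (by norm_num) (by norm_num))
    (exp_neg_leJ (r := 0.169) 6 (by norm_num) (by norm_num) (by norm_num) (by norm_num))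
    (exp_neg_leJ (r := 0.99) 14 (by norm_num) (by norm_num) (by norm_num) (by norm_num))
    (exp_neg_leJ (r := 0.747) 4 (by norm_num) (by norm_num) (by norm_num) (by norm_num))
    (exp_neg_leJ (r := 0.99) 14 (by norm_num) (by norm_num) (by norm_num) (by norm_num))
    (exp_neg_leJ (r := 0.99) 14 (by norm_num) (by norm_num) (by norm_num) (by norm_num))
    (exp_neg_leJ (r := 0.99) 14 (by norm_num) (by norm_num) (by norm_num) (by norm_num))
    (by norm_num)) (by norm_num) hN hβ.le (by norm_num)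

private theorem T3_02_d0_0_b2_1 {β x y : ℝ} (hβ : 0 < β) (hN : β * 27.777 ≤ 1) (hx1 : 0.2366 ≤ x) (hx2 : x ≤ 0.3587)
    (hy1 : -0.545 ≤ y) (hy2 : y ≤ -0.475) : ‖HH β (x + y * I) - 1‖ ≤ 0.245 := by
  refine le_epsJ (C := 6.6032) (N0 := 27.777) (J_boxp 0.2366 0.3587 0.545 0 (-0.475) 0.4896 0.6525 0.6359 2.3278 0.3182 5.2704 27.777 1.3328 7.817 1.866 0.779 0.2447 0.136 0.229 2.1068 0.1722 0.8275 0.5624 3.4116 0.001119 0.02292 0.00173 0.0000003101 0.008382 0.0000003101 0.0000003101 0.0000003101 6.6032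
    hβ hN hx1 hx2 hy1 hy2 (by norm_num) (by norm_num) (by linarith) (by norm_num) (by norm_num) (by norm_num) (by norm_num) (by norm_num) (by norm_num) (by norm_num) (by norm_num) (by norm_num) (by norm_num) (by norm_num) (by norm_num) (by norm_num) (by norm_num) (by norm_num) (by norm_num) (by norm_num) (by norm_num) (by norm_num) (by norm_num) (by norm_num)
    (cube_sqrt_geJ (s := 0.7454) (by norm_num) (by norm_num) (by norm_num) (by norm_num))
    (cube_sqrt_geJ (s := 0.9147) (by norm_num) (by norm_num) (by norm_num) (by norm_num))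
    (by norm_num) (by norm_num) (by norm_num) (by norm_num) (by norm_num) (by norm_num) (by norm_num) (by norm_num) (by norm_num) (by norm_num) (by norm_num) (by norm_num) (by norm_num) (by norm_num) (by norm_num) (by norm_num) (by norm_num) (by norm_num)
    (exp_neg_leJ (r := 0.797) 6 (by norm_num) (by norm_num) (by norm_num) (by norm_num))
    (exp_neg_leJ (r := 0.777) 3 (by norm_num) (by norm_num) (by norm_num) (by norm_num))
    (exp_neg_leJ (r := 0.36) 6 (by norm_num) (by norm_num) (by norm_num) (by norm_num))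
    (exp_neg_leJ (r := 0.99) 14 (by norm_num) (by norm_num) (by norm_num) (by norm_num))
    (exp_neg_leJ (r := 0.783) 4 (by norm_num) (by norm_num) (by norm_num) (by norm_num))
    (exp_neg_leJ (r := 0.99) 14 (by norm_num) (by norm_num) (by norm_num) (by norm_num))
    (exp_neg_leJ (r := 0.99) 14 (by norm_num) (by norm_num) (by norm_num) (by norm_num))
    (exp_neg_leJ (r := 0.99) 14 (by norm_num) (by norm_num) (by norm_num) (by norm_num))
    (by norm_num)) (by norm_num) hN hβ.le (by norm_num)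

private theorem T3_02_d0_0_b2_2 {β x y : ℝ} (hβ : 0 < β) (hN : β * 27.777 ≤ 1) (hx1 : 0.231 ≤ x) (hx2 : x ≤ 0.3773)
    (hy1 : -0.535 ≤ y) (hy2 : y ≤ -0.455) : ‖HH β (x + y * I) - 1‖ ≤ 0.245 := by
  refine le_epsJ (C := 6.5732) (N0 := 27.777) (J_boxp 0.231 0.3773 0.535 0 (-0.455) 0.4928 0.6547 0.6629 2.3536 0.3249 5.2704 27.777 1.3286 7.748 1.862 0.7811 0.2463 0.1372 0.2428 2.1318 0.1749 0.8198 0.5784 3.3944 0.001071 0.02216 0.00118 0.0000003101 0.007781 0.0000003101 0.0000003101 0.0000003101 6.5732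
    hβ hN hx1 hx2 hy1 hy2 (by norm_num) (by norm_num) (by linarith) (by norm_num) (by norm_num) (by norm_num) (by norm_num) (by norm_num) (by norm_num) (by norm_num) (by norm_num) (by norm_num) (by norm_num) (by norm_num) (by norm_num) (by norm_num) (by norm_num) (by norm_num) (by norm_num) (by norm_num) (by norm_num) (by norm_num) (by norm_num) (by norm_num)
    (cube_sqrt_geJ (s := 0.7464) (by norm_num) (by norm_num) (by norm_num) (by norm_num))
    (cube_sqrt_geJ (s := 0.915) (by norm_num) (by norm_num) (by norm_num) (by norm_num))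
    (by norm_num) (by norm_num) (by norm_num) (by norm_num) (by norm_num) (by norm_num) (by norm_num) (by norm_num) (by norm_num) (by norm_num) (by norm_num) (by norm_num) (by norm_num) (by norm_num) (by norm_num) (by norm_num) (by norm_num) (by norm_num)
    (exp_neg_leJ (r := 0.841) 6 (by norm_num) (by norm_num) (by norm_num) (by norm_num))
    (exp_neg_leJ (r := 0.811) 3 (by norm_num) (by norm_num) (by norm_num) (by norm_num))
    (exp_neg_leJ (r := 0.744) 6 (by norm_num) (by norm_num) (by norm_num) (by norm_num))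
    (exp_neg_leJ (r := 0.99) 14 (by norm_num) (by norm_num) (by norm_num) (by norm_num))
    (exp_neg_leJ (r := 0.858) 4 (by norm_num) (by norm_num) (by norm_num) (by norm_num))
    (exp_neg_leJ (r := 0.99) 14 (by norm_num) (by norm_num) (by norm_num) (by norm_num))
    (exp_neg_leJ (r := 0.99) 14 (by norm_num) (by norm_num) (by norm_num) (by norm_num))
    (exp_neg_leJ (r := 0.99) 14 (by norm_num) (by norm_num) (by norm_num) (by norm_num))
    (by norm_num)) (by norm_num) hN hβ.le (by norm_num)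

private theorem T3_02_d0_0_b2_3 {β x y : ℝ} (hβ : 0 < β) (hN : β * 27.777 ≤ 1) (hx1 : 0.2211 ≤ x) (hx2 : x ≤ 0.4093)
    (hy1 : -0.515 ≤ y) (hy2 : y ≤ -0.415) : ‖HH β (x + y * I) - 1‖ ≤ 0.245 := by
  refine le_epsJ (C := 6.3911) (N0 := 27.777) (J_boxp 0.2211 0.4093 0.515 0 (-0.415) 0.5 0.6579 0.714 2.39 0.3372 5.2704 27.777 1.3159 7.546 1.85 0.7873 0.2499 0.1403 0.271 2.1839 0.181 0.8061 0.6129 3.3659 0.0009701 0.02035 0.0005385 0.0000003101 0.006559 0.0000003101 0.0000003101 0.0000003101 6.3911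
    hβ hN hx1 hx2 hy1 hy2 (by norm_num) (by norm_num) (by linarith) (by norm_num) (by norm_num) (by norm_num) (by norm_num) (by norm_num) (by norm_num) (by norm_num) (by norm_num) (by norm_num) (by norm_num) (by norm_num) (by norm_num) (by norm_num) (by norm_num) (by norm_num) (by norm_num) (by norm_num) (by norm_num) (by norm_num) (by norm_num) (by norm_num)
    (cube_sqrt_geJ (s := 0.7492) (by norm_num) (by norm_num) (by norm_num) (by norm_num))
    (cube_sqrt_geJ (s := 0.9159) (by norm_num) (by norm_num) (by norm_num) (by norm_num))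
    (by norm_num) (by norm_num) (by norm_num) (by norm_num) (by norm_num) (by norm_num) (by norm_num) (by norm_num) (by norm_num) (by norm_num) (by norm_num) (by norm_num) (by norm_num) (by norm_num) (by norm_num) (by norm_num) (by norm_num) (by norm_num)
    (exp_neg_leJ (r := 0.941) 6 (by norm_num) (by norm_num) (by norm_num) (by norm_num))
    (exp_neg_leJ (r := 0.897) 3 (by norm_num) (by norm_num) (by norm_num) (by norm_num))
    (exp_neg_leJ (r := 0.527) 7 (by norm_num) (by norm_num) (by norm_num) (by norm_num))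
    (exp_neg_leJ (r := 0.99) 14 (by norm_num) (by norm_num) (by norm_num) (by norm_num))
    (exp_neg_leJ (r := 0.027) 5 (by norm_num) (by norm_num) (by norm_num) (by norm_num))
    (exp_neg_leJ (r := 0.99) 14 (by norm_num) (by norm_num) (by norm_num) (by norm_num))
    (exp_neg_leJ (r := 0.99) 14 (by norm_num) (by norm_num) (by norm_num) (by norm_num))
    (exp_neg_leJ (r := 0.99) 14 (by norm_num) (by norm_num) (by norm_num) (by norm_num))
    (by norm_num)) (by norm_num) hN hβ.le (by norm_num)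

private theorem T3_02_d0_0_b2_4 {β x y : ℝ} (hβ : 0 < β) (hN : β * 27.777 ≤ 1) (hx1 : 0.2724 ≤ x) (hx2 : x ≤ 0.3916)
    (hy1 : -0.475 ≤ y) (hy2 : y ≤ -0.4) : ‖HH β (x + y * I) - 1‖ ≤ 0.245 := by
  refine le_epsJ (C := 2.7208) (N0 := 27.777) (J_boxp 0.2724 0.3916 0.475 0 (-0.4) 0.5645 0.6157 0.7165 1.9958 0.3377 5.2704 27.777 1.0907 4.863 1.652 0.831 0.2822 0.1796 0.3517 2.3263 0.2278 0.8771 0.8243 3.5832 0.0003952 0.006844 0.00005727 0.0000003101 0.001788 0.0000003101 0.0000003101 0.0000003101 2.7208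
    hβ hN hx1 hx2 hy1 hy2 (by norm_num) (by norm_num) (by linarith) (by norm_num) (by norm_num) (by norm_num) (by norm_num) (by norm_num) (by norm_num) (by norm_num) (by norm_num) (by norm_num) (by norm_num) (by norm_num) (by norm_num) (by norm_num) (by norm_num) (by norm_num) (by norm_num) (by norm_num) (by norm_num) (by norm_num) (by norm_num) (by norm_num)
    (cube_sqrt_geJ (s := 0.7977) (by norm_num) (by norm_num) (by norm_num) (by norm_num))
    (cube_sqrt_geJ (s := 0.9308) (by norm_num) (by norm_num) (by norm_num) (by norm_num))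
    (by norm_num) (by norm_num) (by norm_num) (by norm_num) (by norm_num) (by norm_num) (by norm_num) (by norm_num) (by norm_num) (by norm_num) (by norm_num) (by norm_num) (by norm_num) (by norm_num) (by norm_num) (by norm_num) (by norm_num) (by norm_num)
    (exp_neg_leJ (r := 0.838) 7 (by norm_num) (by norm_num) (by norm_num) (by norm_num))
    (exp_neg_leJ (r := 0.988) 4 (by norm_num) (by norm_num) (by norm_num) (by norm_num))
    (exp_neg_leJ (r := 0.769) 9 (by norm_num) (by norm_num) (by norm_num) (by norm_num))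
    (exp_neg_leJ (r := 0.99) 14 (by norm_num) (by norm_num) (by norm_num) (by norm_num))
    (exp_neg_leJ (r := 0.327) 6 (by norm_num) (by norm_num) (by norm_num) (by norm_num))
    (exp_neg_leJ (r := 0.99) 14 (by norm_num) (by norm_num) (by norm_num) (by norm_num))
    (exp_neg_leJ (r := 0.99) 14 (by norm_num) (by norm_num) (by norm_num) (by norm_num))
    (exp_neg_leJ (r := 0.99) 14 (by norm_num) (by norm_num) (by norm_num) (by norm_num))
    (by norm_num)) (by norm_num) hN hβ.le (by norm_num)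

private theorem T3_02_d0_0_c2 {κ t β : ℝ} (h : DomR κ t) (hβ : 0 < β) (hk1 : 0.35 ≤ κ) (hk2 : κ ≤ 0.36)
    (ht1 : -0.9824 ≤ t + κ) (ht2 : t + κ ≤ -0.95239) (hR0 : β * 10 ≤ κ) (hR : β * (1 * (1 + κ ^ 2)) ≤ κ) :
    ∀ s : ℂ, ‖s - sg κ t‖ ≤ 0.03 → ‖HH β s - 1‖ ≤ 0.245 := by
  have hN : β * 27.777 ≤ 1 := bNR hβ h.1 hk2 hR0 (by norm_num)
  have hy1 : -0.52 ≤ sy κ t := syL_ang2 h 0.35 0.36 0.9824 1.032 0.513 0.8586 0.52 1.68202 0.59452 hk1 hk2 (by linarith) (by norm_num) (by norm_num) (by norm_num) (by norm_num)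
    (cos_ge_num (by norm_num) (by norm_num)) (sin_le_num (by norm_num) (by norm_num))
    (expn_ge (by norm_num) (by norm_num)) (expm_ge (by norm_num) (by norm_num) (by norm_num) (by norm_num)) (by norm_num) (by norm_num) (by norm_num)
    (by norm_num) (by norm_num) (by norm_num)
  have hy2 : sy κ t ≤ -0.43 := syL_le h 0.35 0.36 0.95239 0.43 0.6505 0.65051 0.77698 0.7992 hk1 hk2 (by linarith) (by norm_num) (by norm_num) (by norm_num)
    (expm_ge (by norm_num) (by norm_num) (by norm_num) (by norm_num)) (expm_le (by norm_num) (by norm_num) (by norm_num)) (by norm_num)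
    (by norm_num) (by norm_num) (by norm_num) (by norm_num) (by norm_num) (by norm_num)
  intro s hs
  have hs' : ‖s - ((sx κ t : ℂ) + (sy κ t : ℂ) * I)‖ ≤ 0.03 := hs
  obtain ⟨es, ⟨s1, s2⟩, ⟨s3, s4⟩⟩ := disc_split hs'
  rcases le_total (sy κ t) (-0.515) with f0 | g0
  · have hx1 : 0.2696 ≤ sx κ t := sx_lo h 0.35 (-0.515) 0.52 1.67363 0.2696 hk1 (by norm_num) f0 (abs_le.2 ⟨by linarith, by linarith⟩) (by rw [neg_neg]; exact expn_ge (by norm_num) (by norm_num)) (by norm_num) (by norm_num)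
    have hx2 : sx κ t ≤ 0.3186 := sx_hi h 0.36 (-0.52) 0.515 1.68203 0.3186 hk2 hy1 (by norm_num) (by rw [abs_of_nonpos (by linarith)]; linarith) (by rw [neg_neg]; exact expn_le (by norm_num) (by norm_num) (by norm_num)) (by norm_num) (by norm_num)
    rw [es]
    exact T3_02_d0_0_b2_0 hβ hN (by linarith) (by linarith) (by linarith) (by linarith)
  rcases le_total (sy κ t) (-0.505) with f1 | g1
  · have hx1 : 0.2666 ≤ sx κ t := sx_lo h 0.35 (-0.505) 0.515 1.65698 0.2666 hk1 (by norm_num) f1 (abs_le.2 ⟨by linarith, by linarith⟩) (by rw [neg_neg]; exact expn_ge (by norm_num) (by norm_num)) (by norm_num) (by norm_num)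
    have hx2 : sx κ t ≤ 0.3287 := sx_hi h 0.36 (-0.515) 0.505 1.67364 0.3287 hk2 g0 (by norm_num) (by rw [abs_of_nonpos (by linarith)]; linarith) (by rw [neg_neg]; exact expn_le (by norm_num) (by norm_num) (by norm_num)) (by norm_num) (by norm_num)
    rw [es]
    exact T3_02_d0_0_b2_1 hβ hN (by linarith) (by linarith) (by linarith) (by linarith)
  rcases le_total (sy κ t) (-0.485) with f2 | g2
  · have hx1 : 0.261 ≤ sx κ t := sx_lo h 0.35 (-0.485) 0.505 1.62417 0.261 hk1 (by norm_num) f2 (abs_le.2 ⟨by linarith, by linarith⟩) (by rw [neg_neg]; exact expn_ge (by norm_num) (by norm_num)) (by norm_num) (by norm_num)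
    have hx2 : sx κ t ≤ 0.3473 := sx_hi h 0.36 (-0.505) 0.485 1.65699 0.3473 hk2 g1 (by norm_num) (by rw [abs_of_nonpos (by linarith)]; linarith) (by rw [neg_neg]; exact expn_le (by norm_num) (by norm_num) (by norm_num)) (by norm_num) (by norm_num)
    rw [es]
    exact T3_02_d0_0_b2_2 hβ hN (by linarith) (by linarith) (by linarith) (by linarith)
  rcases le_total (sy κ t) (-0.445) with f3 | g3
  · have hx1 : 0.2511 ≤ sx κ t := sx_lo h 0.35 (-0.445) 0.485 1.56048 0.2511 hk1 (by norm_num) f3 (abs_le.2 ⟨by linarith, by linarith⟩) (by rw [neg_neg]; exact expn_ge (by norm_num) (by norm_num)) (by norm_num) (by norm_num)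
    have hx2 : sx κ t ≤ 0.3793 := sx_hi h 0.36 (-0.485) 0.445 1.62418 0.3793 hk2 g2 (by norm_num) (by rw [abs_of_nonpos (by linarith)]; linarith) (by rw [neg_neg]; exact expn_le (by norm_num) (by norm_num) (by norm_num)) (by norm_num) (by norm_num)
    rw [es]
    exact T3_02_d0_0_b2_3 hβ hN (by linarith) (by linarith) (by linarith) (by linarith)
  have hx1 : 0.3024 ≤ sx κ t := sx_lo h 0.35 (-0.43) 0.445 1.53725 0.3024 hk1 (by norm_num) hy2 (abs_le.2 ⟨by linarith, by linarith⟩) (by rw [neg_neg]; exact expn_ge (by norm_num) (by norm_num)) (by norm_num) (by norm_num)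
  have hx2 : sx κ t ≤ 0.3616 := sx_hi h 0.36 (-0.445) 0.43 1.5605 0.3616 hk2 g3 (by norm_num) (by rw [abs_of_nonpos (by linarith)]; linarith) (by rw [neg_neg]; exact expn_le (by norm_num) (by norm_num) (by norm_num)) (by norm_num) (by norm_num)
  rw [es]
  exact T3_02_d0_0_b2_4 hβ hN (by linarith) (by linarith) (by linarith) (by linarith)

theorem T3_02_d0_0 {κ t β : ℝ} (h : DomR κ t) (hβ : 0 < β) (hk1 : 0.33 ≤ κ) (hk2 : κ ≤ 0.36)
    (ht1 : -0.9824 ≤ t + κ) (ht2 : t + κ ≤ -0.95239) (hR0 : β * 10 ≤ κ) (hR : β * (1 * (1 + κ ^ 2)) ≤ κ) :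
    ∀ s : ℂ, ‖s - sg κ t‖ ≤ 0.03 → ‖HH β s - 1‖ ≤ 0.245 := by
  rcases le_total κ 0.34 with f0 | g0
  · exact T3_02_d0_0_c0 h hβ hk1 f0 ht1 ht2 hR0 hR
  rcases le_total κ 0.35 with f1 | g1
  · exact T3_02_d0_0_c1 h hβ g0 f1 ht1 ht2 hR0 hR
  exact T3_02_d0_0_c2 h hβ g1 hk2 ht1 ht2 hR0 hR

private theorem T3_02_d1_0_b0_0 {β x y : ℝ} (hβ : 0 < β) (hN : β * 28.571 ≤ 1) (hn : ‖(x + y * I : ℂ)‖ ≤ 0.313) : ‖HH β (x + y * I) - 1‖ ≤ 0.015 := by
  refine le_epsJ (C := 0.3974) (N0 := 28.571) (J45_genN (N := 28.571) (r0 := 5.3452) (f := 2.6032) (n0 := 0.313) (a := 0.687) (wL := 1.527) (wR := 1.769)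
    (E1 := 0.004035) (E2 := 0.0000003101) (E3 := 0.01242) (E4 := 0.0000008546) (E5 := 0.0000003101) hβ (by norm_num) hN
    (by norm_num) (by norm_num) (by norm_num) hn (by norm_num) (by norm_num) (by norm_num)
    (cube_sqrt_geJ (s := 0.9413) (by norm_num) (by norm_num) (by norm_num) (by norm_num))
    (cube_sqrt_geJ (s := 0.9217) (by norm_num) (by norm_num) (by norm_num) (by norm_num))
    (exp_neg_leJ (r := 0.513) 5 (by norm_num) (by norm_num) (by norm_num) (by norm_num))
    (exp_neg_leJ (r := 0.99) 14 (by norm_num) (by norm_num) (by norm_num) (by norm_num))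
    (exp_neg_leJ (r := 0.389) 4 (by norm_num) (by norm_num) (by norm_num) (by norm_num))
    (exp_neg_leJ (r := 0.976) 13 (by norm_num) (by norm_num) (by norm_num) (by norm_num))
    (exp_neg_leJ (r := 0.99) 14 (by norm_num) (by norm_num) (by norm_num) (by norm_num))
    (by norm_num)) (by norm_num) hN hβ.le (by norm_num)

private theorem T3_02_d1_0_c0 {κ t β : ℝ} (h : DomR κ t) (hβ : 0 < β) (hk1 : 0.33 ≤ κ) (hk2 : κ ≤ 0.35)
    (ht1 : 1.112 ≤ t + κ) (ht2 : t + κ ≤ 1.142) (hR0 : β * 10 ≤ κ) (hR : β * (1 * (1 + κ ^ 2)) ≤ κ) :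
    ∀ s : ℂ, ‖s - sg κ t‖ ≤ 0.03 → ‖HH β s - 1‖ ≤ 0.015 := by
  have hN : β * 28.571 ≤ 1 := bNR hβ h.1 hk2 hR0 (by norm_num)
  have hy1 : 0.213 ≤ sy κ t := syR_ge h 0.33 0.35 1.112 0.213 1.23738 1.23739 0.75303 0.79868 hk1 hk2 (by linarith) (by norm_num) (by norm_num)
    (expn_ge (by norm_num) (by norm_num)) (expn_le (by norm_num) (by norm_num) (by norm_num)) (by norm_num)
    (by norm_num) (by norm_num) (by norm_num) (by norm_num) (by norm_num) (by norm_num)
  have hy2 : sy κ t ≤ 0.229 := syR_ang2 h 0.33 0.35 1.142 0.965 0.5706 0.8223 0.229 0.79533 1.25734 hk1 hk2 (by linarith) (by norm_num) (by norm_num) (by norm_num)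
    (cos_le_num (by norm_num)) (sin_le_num (by norm_num) (by norm_num)) (expm_le (by norm_num) (by norm_num) (by norm_num))
    (expn_ge (by norm_num) (by norm_num)) (by norm_num) (by norm_num) (by norm_num) (by norm_num) (by norm_num)
  intro s hs
  have hs' : ‖s - ((sx κ t : ℂ) + (sy κ t : ℂ) * I)‖ ≤ 0.03 := hs
  obtain ⟨es, ⟨s1, s2⟩, ⟨s3, s4⟩⟩ := disc_split hs'
  rw [es]
  refine T3_02_d1_0_b0_0 hβ hN ?_
  rw [← es]
  exact disc_norm hs' (norm_sg_le h 0.35 0.213 0.80816 (0.313 - 0.03) hk2 hy1 (expm_le (by norm_num) (by norm_num) (by norm_num)) (by norm_num))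

private theorem T3_02_d1_0_b1_0 {β x y : ℝ} (hβ : 0 < β) (hN : β * 27.777 ≤ 1) (hx1 : 0.1202 ≤ x) (hx2 : x ≤ 0.214)
    (hy1 : -0 ≤ y) (hy2 : y ≤ 0.263) : ‖HH β (x + y * I) - 1‖ ≤ 0.015 := by
  refine le_epsJ (C := 0.2409) (N0 := 27.777) (J_boxp 0.1202 0.214 0 0.263 0.263 0.7946 0.3391 1.2811 1.598 0.4516 5.2704 27.777 0.4268 1.712 1.207 1.3378 0.3972 0.3407 1.0494 3.9465 0.3865 0.6396 0.683 2.7914 0.00001616 0.00007769 0.0000003101 0.0000003101 0.0000218 0.0000003101 0.0000003101 0.0000003101 0.2409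
    hβ hN hx1 hx2 hy1 hy2 (by norm_num) (by norm_num) (by linarith) (by norm_num) (by norm_num) (by norm_num) (by norm_num) (by norm_num) (by norm_num) (by norm_num) (by norm_num) (by norm_num) (by norm_num) (by norm_num) (by norm_num) (by norm_num) (by norm_num) (by norm_num) (by norm_num) (by norm_num) (by norm_num) (by norm_num) (by norm_num) (by norm_num)
    (cube_sqrt_geJ (s := 0.9261) (by norm_num) (by norm_num) (by norm_num) (by norm_num))
    (cube_sqrt_geJ (s := 0.9735) (by norm_num) (by norm_num) (by norm_num) (by norm_num))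
    (by norm_num) (by norm_num) (by norm_num) (by norm_num) (by norm_num) (by norm_num) (by norm_num) (by norm_num) (by norm_num) (by norm_num) (by norm_num) (by norm_num) (by norm_num) (by norm_num) (by norm_num) (by norm_num) (by norm_num) (by norm_num)
    (exp_neg_leJ (r := 0.033) 11 (by norm_num) (by norm_num) (by norm_num) (by norm_num))
    (exp_neg_leJ (r := 0.463) 9 (by norm_num) (by norm_num) (by norm_num) (by norm_num))
    (exp_neg_leJ (r := 0.99) 14 (by norm_num) (by norm_num) (by norm_num) (by norm_num))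
    (exp_neg_leJ (r := 0.99) 14 (by norm_num) (by norm_num) (by norm_num) (by norm_num))
    (exp_neg_leJ (r := 0.735) 10 (by norm_num) (by norm_num) (by norm_num) (by norm_num))
    (exp_neg_leJ (r := 0.99) 14 (by norm_num) (by norm_num) (by norm_num) (by norm_num))
    (exp_neg_leJ (r := 0.99) 14 (by norm_num) (by norm_num) (by norm_num) (by norm_num))
    (exp_neg_leJ (r := 0.99) 14 (by norm_num) (by norm_num) (by norm_num) (by norm_num))
    (by norm_num)) (by norm_num) hN hβ.le (by norm_num)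

private theorem T3_02_d1_0_c1 {κ t β : ℝ} (h : DomR κ t) (hβ : 0 < β) (hk1 : 0.35 ≤ κ) (hk2 : κ ≤ 0.36)
    (ht1 : 1.112 ≤ t + κ) (ht2 : t + κ ≤ 1.142) (hR0 : β * 10 ≤ κ) (hR : β * (1 * (1 + κ ^ 2)) ≤ κ) :
    ∀ s : ℂ, ‖s - sg κ t‖ ≤ 0.03 → ‖HH β s - 1‖ ≤ 0.015 := by
  have hN : β * 27.777 ≤ 1 := bNR hβ h.1 hk2 hR0 (by norm_num)
  have hy1 : 0.222 ≤ sy κ t := syR_ge h 0.35 0.36 1.112 0.222 1.24857 1.24858 0.76995 0.79196 hk1 hk2 (by linarith) (by norm_num) (by norm_num)
    (expn_ge (by norm_num) (by norm_num)) (expn_le (by norm_num) (by norm_num) (by norm_num)) (by norm_num)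
    (by norm_num) (by norm_num) (by norm_num) (by norm_num) (by norm_num) (by norm_num)
  have hy2 : sy κ t ≤ 0.233 := syR_ang2 h 0.35 0.36 1.142 0.955 0.5787 0.8165 0.233 0.79216 1.26238 hk1 hk2 (by linarith) (by norm_num) (by norm_num) (by norm_num)
    (cos_le_num (by norm_num)) (sin_le_num (by norm_num) (by norm_num)) (expm_le (by norm_num) (by norm_num) (by norm_num))
    (expn_ge (by norm_num) (by norm_num)) (by norm_num) (by norm_num) (by norm_num) (by norm_num) (by norm_num)
  intro s hs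
  have hs' : ‖s - ((sx κ t : ℂ) + (sy κ t : ℂ) * I)‖ ≤ 0.03 := hs
  obtain ⟨es, ⟨s1, s2⟩, ⟨s3, s4⟩⟩ := disc_split hs'
  have hx1 : 0.1502 ≤ sx κ t := sx_lo h 0.35 0.233 0.233 0.79215 0.1502 hk1 (by norm_num) hy2 (abs_le.2 ⟨by linarith, by linarith⟩) (expm_ge (by norm_num) (by norm_num) (by norm_num) (by norm_num)) (by norm_num) (by norm_num)
  have hx2 : sx κ t ≤ 0.184 := sx_hi h 0.36 0.222 0.222 0.80092 0.184 hk2 hy1 (by norm_num) (by rw [abs_of_nonneg (by linarith)]; linarith) (expm_le (by norm_num) (by norm_num) (by norm_num)) (by norm_num) (by norm_num)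
  rw [es]
  exact T3_02_d1_0_b1_0 hβ hN (by linarith) (by linarith) (by linarith) (by linarith)

theorem T3_02_d1_0 {κ t β : ℝ} (h : DomR κ t) (hβ : 0 < β) (hk1 : 0.33 ≤ κ) (hk2 : κ ≤ 0.36)
    (ht1 : 1.112 ≤ t + κ) (ht2 : t + κ ≤ 1.142) (hR0 : β * 10 ≤ κ) (hR : β * (1 * (1 + κ ^ 2)) ≤ κ) :
    ∀ s : ℂ, ‖s - sg κ t‖ ≤ 0.03 → ‖HH β s - 1‖ ≤ 0.015 := by
  rcases le_total κ 0.35 with f0 | g0
  · exact T3_02_d1_0_c0 h hβ hk1 f0 ht1 ht2 hR0 hR
  exact T3_02_d1_0_c1 h hβ g0 hk2 ht1 ht2 hR0 hR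

private theorem T3_02_d0_1_b0_0 {β x y : ℝ} (hβ : 0 < β) (hN : β * 29.411 ≤ 1) (hx1 : 0.1754 ≤ x) (hx2 : x ≤ 0.3741)
    (hy1 : -0.492 ≤ y) (hy2 : y ≤ -0.377) : ‖HH β (x + y * I) - 1‖ ≤ 0.215 := by
  refine le_epsJ (C := 6.0492) (N0 := 29.411) (J_boxp 0.1754 0.3741 0.492 0 (-0.377) 0.4842 0.6181 0.7267 2.5302 0.3401 5.4232 29.411 1.2766 6.96 1.813 0.822 0.242 0.139 0.2917 2.2777 0.1714 0.7428 0.584 3.3827 0.0008113 0.01678 0.0001881 0.0000003101 0.006468 0.0000003101 0.0000003101 0.0000003101 6.0492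
    hβ hN hx1 hx2 hy1 hy2 (by norm_num) (by norm_num) (by linarith) (by norm_num) (by norm_num) (by norm_num) (by norm_num) (by norm_num) (by norm_num) (by norm_num) (by norm_num) (by norm_num) (by norm_num) (by norm_num) (by norm_num) (by norm_num) (by norm_num) (by norm_num) (by norm_num) (by norm_num) (by norm_num) (by norm_num) (by norm_num) (by norm_num)
    (cube_sqrt_geJ (s := 0.7579) (by norm_num) (by norm_num) (by norm_num) (by norm_num))
    (cube_sqrt_geJ (s := 0.9185) (by norm_num) (by norm_num) (by norm_num) (by norm_num))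
    (by norm_num) (by norm_num) (by norm_num) (by norm_num) (by norm_num) (by norm_num) (by norm_num) (by norm_num) (by norm_num) (by norm_num) (by norm_num) (by norm_num) (by norm_num) (by norm_num) (by norm_num) (by norm_num) (by norm_num) (by norm_num)
    (exp_neg_leJ (r := 0.117) 7 (by norm_num) (by norm_num) (by norm_num) (by norm_num))
    (exp_neg_leJ (r := 0.088) 4 (by norm_num) (by norm_num) (by norm_num) (by norm_num))
    (exp_neg_leJ (r := 0.579) 8 (by norm_num) (by norm_num) (by norm_num) (by norm_num))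
    (exp_neg_leJ (r := 0.99) 14 (by norm_num) (by norm_num) (by norm_num) (by norm_num))
    (exp_neg_leJ (r := 0.041) 5 (by norm_num) (by norm_num) (by norm_num) (by norm_num))
    (exp_neg_leJ (r := 0.99) 14 (by norm_num) (by norm_num) (by norm_num) (by norm_num))
    (exp_neg_leJ (r := 0.99) 14 (by norm_num) (by norm_num) (by norm_num) (by norm_num))
    (exp_neg_leJ (r := 0.99) 14 (by norm_num) (by norm_num) (by norm_num) (by norm_num))
    (by norm_num)) (by norm_num) hN hβ.le (by norm_num)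

private theorem T3_02_d0_1_b0_1 {β x y : ℝ} (hβ : 0 < β) (hN : β * 29.411 ≤ 1) (hx1 : 0.1931 ≤ x) (hx2 : x ≤ 0.3996)
    (hy1 : -0.457 ≤ y) (hy2 : y ≤ -0.33) : ‖HH β (x + y * I) - 1‖ ≤ 0.215 := by
  refine le_epsJ (C := 3.9691) (N0 := 29.411) (J_boxp 0.1931 0.3996 0.457 0 (-0.33) 0.5215 0.6071 0.7802 2.3455 0.3524 5.4232 29.411 1.1642 5.58 1.714 0.8445 0.2607 0.1595 0.353 2.3826 0.1991 0.7673 0.7146 3.448 0.0004684 0.009185 0.00003099 0.0000003101 0.002871 0.0000003101 0.0000003101 0.0000003101 3.9691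
    hβ hN hx1 hx2 hy1 hy2 (by norm_num) (by norm_num) (by linarith) (by norm_num) (by norm_num) (by norm_num) (by norm_num) (by norm_num) (by norm_num) (by norm_num) (by norm_num) (by norm_num) (by norm_num) (by norm_num) (by norm_num) (by norm_num) (by norm_num) (by norm_num) (by norm_num) (by norm_num) (by norm_num) (by norm_num) (by norm_num) (by norm_num)
    (cube_sqrt_geJ (s := 0.7822) (by norm_num) (by norm_num) (by norm_num) (by norm_num))
    (cube_sqrt_geJ (s := 0.9259) (by norm_num) (by norm_num) (by norm_num) (by norm_num))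
    (by norm_num) (by norm_num) (by norm_num) (by norm_num) (by norm_num) (by norm_num) (by norm_num) (by norm_num) (by norm_num) (by norm_num) (by norm_num) (by norm_num) (by norm_num) (by norm_num) (by norm_num) (by norm_num) (by norm_num) (by norm_num)
    (exp_neg_leJ (r := 0.667) 7 (by norm_num) (by norm_num) (by norm_num) (by norm_num))
    (exp_neg_leJ (r := 0.691) 4 (by norm_num) (by norm_num) (by norm_num) (by norm_num))
    (exp_neg_leJ (r := 0.382) 10 (by norm_num) (by norm_num) (by norm_num) (by norm_num))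
    (exp_neg_leJ (r := 0.99) 14 (by norm_num) (by norm_num) (by norm_num) (by norm_num))
    (exp_neg_leJ (r := 0.855) 5 (by norm_num) (by norm_num) (by norm_num) (by norm_num))
    (exp_neg_leJ (r := 0.99) 14 (by norm_num) (by norm_num) (by norm_num) (by norm_num))
    (exp_neg_leJ (r := 0.99) 14 (by norm_num) (by norm_num) (by norm_num) (by norm_num))
    (exp_neg_leJ (r := 0.99) 14 (by norm_num) (by norm_num) (by norm_num) (by norm_num))
    (by norm_num)) (by norm_num) hN hβ.le (by norm_num)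

private theorem T3_02_d0_1_c0 {κ t β : ℝ} (h : DomR κ t) (hβ : 0 < β) (hk1 : 0.33 ≤ κ) (hk2 : κ ≤ 0.34)
    (ht1 : -0.9524 ≤ t + κ) (ht2 : t + κ ≤ -0.88239) (hR0 : β * 10 ≤ κ) (hR : β * (1 * (1 + κ ^ 2)) ≤ κ) :
    ∀ s : ℂ, ‖s - sg κ t‖ ≤ 0.04 → ‖HH β s - 1‖ ≤ 0.215 := by
  have hN : β * 29.411 ≤ 1 := bNR hβ h.1 hk2 hR0 (by norm_num)
  have hy1 : -0.452 ≤ sy κ t := syL_ang2 h 0.33 0.34 0.9524 1.007 0.5343 0.8455 0.452 1.57145 0.63635 hk1 hk2 (by linarith) (by norm_num) (by norm_num) (by norm_num) (by norm_num)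
    (cos_ge_num (by norm_num) (by norm_num)) (sin_le_num (by norm_num) (by norm_num))
    (expn_ge (by norm_num) (by norm_num)) (expm_ge (by norm_num) (by norm_num) (by norm_num) (by norm_num)) (by norm_num) (by norm_num) (by norm_num)
    (by norm_num) (by norm_num) (by norm_num)
  have hy2 : sy κ t ≤ -0.37 := syL_le h 0.33 0.34 0.88239 0.37 0.69073 0.69074 0.75167 0.77447 hk1 hk2 (by linarith) (by norm_num) (by norm_num) (by norm_num)
    (expm_ge (by norm_num) (by norm_num) (by norm_num) (by norm_num)) (expm_le (by norm_num) (by norm_num) (by norm_num)) (by norm_num)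
    (by norm_num) (by norm_num) (by norm_num) (by norm_num) (by norm_num) (by norm_num)
  intro s hs
  have hs' : ‖s - ((sx κ t : ℂ) + (sy κ t : ℂ) * I)‖ ≤ 0.04 := hs
  obtain ⟨es, ⟨s1, s2⟩, ⟨s3, s4⟩⟩ := disc_split hs'
  rcases le_total (sy κ t) (-0.417) with f0 | g0
  · have hx1 : 0.2154 ≤ sx κ t := sx_lo h 0.33 (-0.417) 0.452 1.5174 0.2154 hk1 (by norm_num) f0 (abs_le.2 ⟨by linarith, by linarith⟩) (by rw [neg_neg]; exact expn_ge (by norm_num) (by norm_num)) (by norm_num) (by norm_num)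
    have hx2 : sx κ t ≤ 0.3341 := sx_hi h 0.34 (-0.452) 0.417 1.57146 0.3341 hk2 hy1 (by norm_num) (by rw [abs_of_nonpos (by linarith)]; linarith) (by rw [neg_neg]; exact expn_le (by norm_num) (by norm_num) (by norm_num)) (by norm_num) (by norm_num)
    rw [es]
    exact T3_02_d0_1_b0_0 hβ hN (by linarith) (by linarith) (by linarith) (by linarith)
  have hx1 : 0.2331 ≤ sx κ t := sx_lo h 0.33 (-0.37) 0.417 1.44773 0.2331 hk1 (by norm_num) hy2 (abs_le.2 ⟨by linarith, by linarith⟩) (by rw [neg_neg]; exact expn_ge (by norm_num) (by norm_num)) (by norm_num) (by norm_num)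
  have hx2 : sx κ t ≤ 0.3596 := sx_hi h 0.34 (-0.417) 0.37 1.51741 0.3596 hk2 g0 (by norm_num) (by rw [abs_of_nonpos (by linarith)]; linarith) (by rw [neg_neg]; exact expn_le (by norm_num) (by norm_num) (by norm_num)) (by norm_num) (by norm_num)
  rw [es]
  exact T3_02_d0_1_b0_1 hβ hN (by linarith) (by linarith) (by linarith) (by linarith)

private theorem T3_02_d0_1_b1_0 {β x y : ℝ} (hβ : 0 < β) (hN : β * 28.571 ≤ 1) (hx1 : 0.2096 ≤ x) (hx2 : x ≤ 0.3721)
    (hy1 : -0.513 ≤ y) (hy2 : y ≤ -0.413) : ‖HH β (x + y * I) - 1‖ ≤ 0.215 := by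
  refine le_epsJ (C := 5.8964) (N0 := 28.571) (J_boxp 0.2096 0.3721 0.513 0 (-0.413) 0.4933 0.6338 0.6951 2.4064 0.3327 5.3452 28.571 1.2849 7.079 1.821 0.8034 0.2466 0.141 0.2702 2.2081 0.1765 0.7902 0.5954 3.4084 0.0008718 0.01782 0.0004448 0.0000003101 0.006461 0.0000003101 0.0000003101 0.0000003101 5.8964
    hβ hN hx1 hx2 hy1 hy2 (by norm_num) (by norm_num) (by linarith) (by norm_num) (by norm_num) (by norm_num) (by norm_num) (by norm_num) (by norm_num) (by norm_num) (by norm_num) (by norm_num) (by norm_num) (by norm_num) (by norm_num) (by norm_num) (by norm_num) (by norm_num) (by norm_num) (by norm_num) (by norm_num) (by norm_num) (by norm_num) (by norm_num)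
    (cube_sqrt_geJ (s := 0.7561) (by norm_num) (by norm_num) (by norm_num) (by norm_num))
    (cube_sqrt_geJ (s := 0.9179) (by norm_num) (by norm_num) (by norm_num) (by norm_num))
    (by norm_num) (by norm_num) (by norm_num) (by norm_num) (by norm_num) (by norm_num) (by norm_num) (by norm_num) (by norm_num) (by norm_num) (by norm_num) (by norm_num) (by norm_num) (by norm_num) (by norm_num) (by norm_num) (by norm_num) (by norm_num)
    (exp_neg_leJ (r := 0.045) 7 (by norm_num) (by norm_num) (by norm_num) (by norm_num))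
    (exp_neg_leJ (r := 0.028) 4 (by norm_num) (by norm_num) (by norm_num) (by norm_num))
    (exp_neg_leJ (r := 0.719) 7 (by norm_num) (by norm_num) (by norm_num) (by norm_num))
    (exp_neg_leJ (r := 0.99) 14 (by norm_num) (by norm_num) (by norm_num) (by norm_num))
    (exp_neg_leJ (r := 0.042) 5 (by norm_num) (by norm_num) (by norm_num) (by norm_num))
    (exp_neg_leJ (r := 0.99) 14 (by norm_num) (by norm_num) (by norm_num) (by norm_num))
    (exp_neg_leJ (r := 0.99) 14 (by norm_num) (by norm_num) (by norm_num) (by norm_num))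
    (exp_neg_leJ (r := 0.99) 14 (by norm_num) (by norm_num) (by norm_num) (by norm_num))
    (by norm_num)) (by norm_num) hN hβ.le (by norm_num)

private theorem T3_02_d0_1_b1_1 {β x y : ℝ} (hβ : 0 < β) (hN : β * 28.571 ≤ 1) (hx1 : 0.197 ≤ x) (hx2 : x ≤ 0.4097)
    (hy1 : -0.493 ≤ y) (hy2 : y ≤ -0.368) : ‖HH β (x + y * I) - 1‖ ≤ 0.215 := by
  refine le_epsJ (C := 6.0077) (N0 := 28.571) (J_boxp 0.197 0.4097 0.493 0 (-0.368) 0.4987 0.6411 0.7532 2.4644 0.3463 5.3452 28.571 1.2856 7.089 1.822 0.8074 0.2493 0.1424 0.2975 2.2574 0.1813 0.7727 0.6245 3.3633 0.0008072 0.01712 0.0002038 0.0000003101 0.005634 0.0000003101 0.0000003101 0.0000003101 6.0077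
    hβ hN hx1 hx2 hy1 hy2 (by norm_num) (by norm_num) (by linarith) (by norm_num) (by norm_num) (by norm_num) (by norm_num) (by norm_num) (by norm_num) (by norm_num) (by norm_num) (by norm_num) (by norm_num) (by norm_num) (by norm_num) (by norm_num) (by norm_num) (by norm_num) (by norm_num) (by norm_num) (by norm_num) (by norm_num) (by norm_num) (by norm_num)
    (cube_sqrt_geJ (s := 0.7559) (by norm_num) (by norm_num) (by norm_num) (by norm_num))
    (cube_sqrt_geJ (s := 0.9179) (by norm_num) (by norm_num) (by norm_num) (by norm_num))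
    (by norm_num) (by norm_num) (by norm_num) (by norm_num) (by norm_num) (by norm_num) (by norm_num) (by norm_num) (by norm_num) (by norm_num) (by norm_num) (by norm_num) (by norm_num) (by norm_num) (by norm_num) (by norm_num) (by norm_num) (by norm_num)
    (exp_neg_leJ (r := 0.122) 7 (by norm_num) (by norm_num) (by norm_num) (by norm_num))
    (exp_neg_leJ (r := 0.068) 4 (by norm_num) (by norm_num) (by norm_num) (by norm_num))
    (exp_neg_leJ (r := 0.499) 8 (by norm_num) (by norm_num) (by norm_num) (by norm_num))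
    (exp_neg_leJ (r := 0.99) 14 (by norm_num) (by norm_num) (by norm_num) (by norm_num))
    (exp_neg_leJ (r := 0.179) 5 (by norm_num) (by norm_num) (by norm_num) (by norm_num))
    (exp_neg_leJ (r := 0.99) 14 (by norm_num) (by norm_num) (by norm_num) (by norm_num))
    (exp_neg_leJ (r := 0.99) 14 (by norm_num) (by norm_num) (by norm_num) (by norm_num))
    (exp_neg_leJ (r := 0.99) 14 (by norm_num) (by norm_num) (by norm_num) (by norm_num))
    (by norm_num)) (by norm_num) hN hβ.le (by norm_num)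

private theorem T3_02_d0_1_b1_2 {β x y : ℝ} (hβ : 0 < β) (hN : β * 28.571 ≤ 1) (hx1 : 0.2484 ≤ x) (hx2 : x ≤ 0.3989)
    (hy1 : -0.448 ≤ y) (hy2 : y ≤ -0.345) : ‖HH β (x + y * I) - 1‖ ≤ 0.215 := by
  refine le_epsJ (C := 2.5245) (N0 := 28.571) (J_boxp 0.2484 0.3989 0.448 0 (-0.345) 0.5668 0.5999 0.767 2.0524 0.3494 5.3452 28.571 1.0584 4.586 1.626 0.8531 0.2833 0.1834 0.3861 2.413 0.2309 0.8439 0.8497 3.5781 0.0003054 0.005306 0.0000162 0.0000003101 0.001365 0.0000003101 0.0000003101 0.0000003101 2.5245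
    hβ hN hx1 hx2 hy1 hy2 (by norm_num) (by norm_num) (by linarith) (by norm_num) (by norm_num) (by norm_num) (by norm_num) (by norm_num) (by norm_num) (by norm_num) (by norm_num) (by norm_num) (by norm_num) (by norm_num) (by norm_num) (by norm_num) (by norm_num) (by norm_num) (by norm_num) (by norm_num) (by norm_num) (by norm_num) (by norm_num) (by norm_num)
    (cube_sqrt_geJ (s := 0.8044) (by norm_num) (by norm_num) (by norm_num) (by norm_num))
    (cube_sqrt_geJ (s := 0.9329) (by norm_num) (by norm_num) (by norm_num) (by norm_num))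
    (by norm_num) (by norm_num) (by norm_num) (by norm_num) (by norm_num) (by norm_num) (by norm_num) (by norm_num) (by norm_num) (by norm_num) (by norm_num) (by norm_num) (by norm_num) (by norm_num) (by norm_num) (by norm_num) (by norm_num) (by norm_num)
    (exp_neg_leJ (r := 0.094) 8 (by norm_num) (by norm_num) (by norm_num) (by norm_num))
    (exp_neg_leJ (r := 0.239) 5 (by norm_num) (by norm_num) (by norm_num) (by norm_num))
    (exp_neg_leJ (r := 0.031) 11 (by norm_num) (by norm_num) (by norm_num) (by norm_num))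
    (exp_neg_leJ (r := 0.99) 14 (by norm_num) (by norm_num) (by norm_num) (by norm_num))
    (exp_neg_leJ (r := 0.597) 6 (by norm_num) (by norm_num) (by norm_num) (by norm_num))
    (exp_neg_leJ (r := 0.99) 14 (by norm_num) (by norm_num) (by norm_num) (by norm_num))
    (exp_neg_leJ (r := 0.99) 14 (by norm_num) (by norm_num) (by norm_num) (by norm_num))
    (exp_neg_leJ (r := 0.99) 14 (by norm_num) (by norm_num) (by norm_num) (by norm_num))
    (by norm_num)) (by norm_num) hN hβ.le (by norm_num)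

private theorem T3_02_d0_1_c1 {κ t β : ℝ} (h : DomR κ t) (hβ : 0 < β) (hk1 : 0.34 ≤ κ) (hk2 : κ ≤ 0.35)
    (ht1 : -0.9524 ≤ t + κ) (ht2 : t + κ ≤ -0.88239) (hR0 : β * 10 ≤ κ) (hR : β * (1 * (1 + κ ^ 2)) ≤ κ) :
    ∀ s : ℂ, ‖s - sg κ t‖ ≤ 0.04 → ‖HH β s - 1‖ ≤ 0.215 := by
  have hN : β * 28.571 ≤ 1 := bNR hβ h.1 hk2 hR0 (by norm_num)
  have hy1 : -0.473 ≤ sy κ t := syL_ang2 h 0.34 0.35 0.9524 1 0.5402 0.8417 0.473 1.6048 0.62313 hk1 hk2 (by linarith) (by norm_num) (by norm_num) (by norm_num) (by norm_num)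
    (cos_ge_num (by norm_num) (by norm_num)) (sin_le_num (by norm_num) (by norm_num))
    (expn_ge (by norm_num) (by norm_num)) (expm_ge (by norm_num) (by norm_num) (by norm_num) (by norm_num)) (by norm_num) (by norm_num) (by norm_num)
    (by norm_num) (by norm_num) (by norm_num)
  have hy2 : sy κ t ≤ -0.385 := syL_le h 0.34 0.35 0.88239 0.385 0.68045 0.68046 0.74849 0.77053 hk1 hk2 (by linarith) (by norm_num) (by norm_num) (by norm_num)
    (expm_ge (by norm_num) (by norm_num) (by norm_num) (by norm_num)) (expm_le (by norm_num) (by norm_num) (by norm_num)) (by norm_num)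
    (by norm_num) (by norm_num) (by norm_num) (by norm_num) (by norm_num) (by norm_num)
  intro s hs
  have hs' : ‖s - ((sx κ t : ℂ) + (sy κ t : ℂ) * I)‖ ≤ 0.04 := hs
  obtain ⟨es, ⟨s1, s2⟩, ⟨s3, s4⟩⟩ := disc_split hs'
  rcases le_total (sy κ t) (-0.453) with f0 | g0
  · have hx1 : 0.2496 ≤ sx κ t := sx_lo h 0.34 (-0.453) 0.473 1.57302 0.2496 hk1 (by norm_num) f0 (abs_le.2 ⟨by linarith, by linarith⟩) (by rw [neg_neg]; exact expn_ge (by norm_num) (by norm_num)) (by norm_num) (by norm_num)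
    have hx2 : sx κ t ≤ 0.3321 := sx_hi h 0.35 (-0.473) 0.453 1.60481 0.3321 hk2 hy1 (by norm_num) (by rw [abs_of_nonpos (by linarith)]; linarith) (by rw [neg_neg]; exact expn_le (by norm_num) (by norm_num) (by norm_num)) (by norm_num) (by norm_num)
    rw [es]
    exact T3_02_d0_1_b1_0 hβ hN (by linarith) (by linarith) (by linarith) (by linarith)
  rcases le_total (sy κ t) (-0.408) with f1 | g1
  · have hx1 : 0.237 ≤ sx κ t := sx_lo h 0.34 (-0.408) 0.453 1.5038 0.237 hk1 (by norm_num) f1 (abs_le.2 ⟨by linarith, by linarith⟩) (by rw [neg_neg]; exact expn_ge (by norm_num) (by norm_num)) (by norm_num) (by norm_num)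
    have hx2 : sx κ t ≤ 0.3697 := sx_hi h 0.35 (-0.453) 0.408 1.57303 0.3697 hk2 g0 (by norm_num) (by rw [abs_of_nonpos (by linarith)]; linarith) (by rw [neg_neg]; exact expn_le (by norm_num) (by norm_num) (by norm_num)) (by norm_num) (by norm_num)
    rw [es]
    exact T3_02_d0_1_b1_1 hβ hN (by linarith) (by linarith) (by linarith) (by linarith)
  have hx1 : 0.2884 ≤ sx κ t := sx_lo h 0.34 (-0.385) 0.408 1.46961 0.2884 hk1 (by norm_num) hy2 (abs_le.2 ⟨by linarith, by linarith⟩) (by rw [neg_neg]; exact expn_ge (by norm_num) (by norm_num)) (by norm_num) (by norm_num)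
  have hx2 : sx κ t ≤ 0.3589 := sx_hi h 0.35 (-0.408) 0.385 1.50381 0.3589 hk2 g1 (by norm_num) (by rw [abs_of_nonpos (by linarith)]; linarith) (by rw [neg_neg]; exact expn_le (by norm_num) (by norm_num) (by norm_num)) (by norm_num) (by norm_num)
  rw [es]
  exact T3_02_d0_1_b1_2 hβ hN (by linarith) (by linarith) (by linarith) (by linarith)

private theorem T3_02_d0_1_b2_0 {β x y : ℝ} (hβ : 0 < β) (hN : β * 27.777 ≤ 1) (hx1 : 0.2464 ≤ x) (hx2 : x ≤ 0.3706)
    (hy1 : -0.533 ≤ y) (hy2 : y ≤ -0.448) : ‖HH β (x + y * I) - 1‖ ≤ 0.215 := by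
  refine le_epsJ (C := 5.576) (N0 := 27.777) (J_boxp 0.2464 0.3706 0.533 0 (-0.448) 0.505 0.6492 0.6649 2.2722 0.3254 5.2704 27.777 1.2856 7.089 1.822 0.7855 0.2524 0.1442 0.2513 2.1417 0.1835 0.8411 0.6146 3.4401 0.0009029 0.01823 0.0009335 0.0000003101 0.006116 0.0000003101 0.0000003101 0.0000003101 5.576
    hβ hN hx1 hx2 hy1 hy2 (by norm_num) (by norm_num) (by linarith) (by norm_num) (by norm_num) (by norm_num) (by norm_num) (by norm_num) (by norm_num) (by norm_num) (by norm_num) (by norm_num) (by norm_num) (by norm_num) (by norm_num) (by norm_num) (by norm_num) (by norm_num) (by norm_num) (by norm_num) (by norm_num) (by norm_num) (by norm_num) (by norm_num)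
    (cube_sqrt_geJ (s := 0.7559) (by norm_num) (by norm_num) (by norm_num) (by norm_num))
    (cube_sqrt_geJ (s := 0.9179) (by norm_num) (by norm_num) (by norm_num) (by norm_num))
    (by norm_num) (by norm_num) (by norm_num) (by norm_num) (by norm_num) (by norm_num) (by norm_num) (by norm_num) (by norm_num) (by norm_num) (by norm_num) (by norm_num) (by norm_num) (by norm_num) (by norm_num) (by norm_num) (by norm_num) (by norm_num)
    (exp_neg_leJ (r := 0.01) 7 (by norm_num) (by norm_num) (by norm_num) (by norm_num))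
    (exp_neg_leJ (r := 0.005) 4 (by norm_num) (by norm_num) (by norm_num) (by norm_num))
    (exp_neg_leJ (r := 0.98) 6 (by norm_num) (by norm_num) (by norm_num) (by norm_num))
    (exp_neg_leJ (r := 0.99) 14 (by norm_num) (by norm_num) (by norm_num) (by norm_num))
    (exp_neg_leJ (r := 0.097) 5 (by norm_num) (by norm_num) (by norm_num) (by norm_num))
    (exp_neg_leJ (r := 0.99) 14 (by norm_num) (by norm_num) (by norm_num) (by norm_num))
    (exp_neg_leJ (r := 0.99) 14 (by norm_num) (by norm_num) (by norm_num) (by norm_num))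
    (exp_neg_leJ (r := 0.99) 14 (by norm_num) (by norm_num) (by norm_num) (by norm_num))
    (by norm_num)) (by norm_num) hN hβ.le (by norm_num)

private theorem T3_02_d0_1_b2_1 {β x y : ℝ} (hβ : 0 < β) (hN : β * 27.777 ≤ 1) (hx1 : 0.2437 ≤ x) (hx2 : x ≤ 0.3798)
    (hy1 : -0.528 ≤ y) (hy2 : y ≤ -0.438) : ‖HH β (x + y * I) - 1‖ ≤ 0.215 := by
  refine le_epsJ (C := 5.564) (N0 := 27.777) (J_boxp 0.2437 0.3798 0.528 0 (-0.438) 0.5067 0.6505 0.6784 2.2836 0.3286 5.2704 27.777 1.2838 7.063 1.82 0.7866 0.2533 0.1449 0.2582 2.1542 0.1849 0.8374 0.6228 3.4312 0.0008806 0.01789 0.0007678 0.0000003101 0.005888 0.0000003101 0.0000003101 0.0000003101 5.564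
    hβ hN hx1 hx2 hy1 hy2 (by norm_num) (by norm_num) (by linarith) (by norm_num) (by norm_num) (by norm_num) (by norm_num) (by norm_num) (by norm_num) (by norm_num) (by norm_num) (by norm_num) (by norm_num) (by norm_num) (by norm_num) (by norm_num) (by norm_num) (by norm_num) (by norm_num) (by norm_num) (by norm_num) (by norm_num) (by norm_num) (by norm_num)
    (cube_sqrt_geJ (s := 0.7563) (by norm_num) (by norm_num) (by norm_num) (by norm_num))
    (cube_sqrt_geJ (s := 0.918) (by norm_num) (by norm_num) (by norm_num) (by norm_num))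
    (by norm_num) (by norm_num) (by norm_num) (by norm_num) (by norm_num) (by norm_num) (by norm_num) (by norm_num) (by norm_num) (by norm_num) (by norm_num) (by norm_num) (by norm_num) (by norm_num) (by norm_num) (by norm_num) (by norm_num) (by norm_num)
    (exp_neg_leJ (r := 0.035) 7 (by norm_num) (by norm_num) (by norm_num) (by norm_num))
    (exp_neg_leJ (r := 0.024) 4 (by norm_num) (by norm_num) (by norm_num) (by norm_num))
    (exp_neg_leJ (r := 0.172) 7 (by norm_num) (by norm_num) (by norm_num) (by norm_num))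
    (exp_neg_leJ (r := 0.99) 14 (by norm_num) (by norm_num) (by norm_num) (by norm_num))
    (exp_neg_leJ (r := 0.135) 5 (by norm_num) (by norm_num) (by norm_num) (by norm_num))
    (exp_neg_leJ (r := 0.99) 14 (by norm_num) (by norm_num) (by norm_num) (by norm_num))
    (exp_neg_leJ (r := 0.99) 14 (by norm_num) (by norm_num) (by norm_num) (by norm_num))
    (exp_neg_leJ (r := 0.99) 14 (by norm_num) (by norm_num) (by norm_num) (by norm_num))
    (by norm_num)) (by norm_num) hN hβ.le (by norm_num)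

private theorem T3_02_d0_1_b2_2 {β x y : ℝ} (hβ : 0 < β) (hN : β * 27.777 ≤ 1) (hx1 : 0.2331 ≤ x) (hx2 : x ≤ 0.4033)
    (hy1 : -0.518 ≤ y) (hy2 : y ≤ -0.413) : ‖HH β (x + y * I) - 1‖ ≤ 0.215 := by
  refine le_epsJ (C := 5.9106) (N0 := 27.777) (J_boxp 0.2331 0.4033 0.518 0 (-0.413) 0.5063 0.6565 0.7122 2.3426 0.3367 5.2704 27.777 1.2967 7.252 1.832 0.7868 0.2531 0.1437 0.2704 2.1767 0.1852 0.8227 0.6288 3.3937 0.000885 0.01857 0.0005477 0.0000003101 0.005835 0.0000003101 0.0000003101 0.0000003101 5.9106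
    hβ hN hx1 hx2 hy1 hy2 (by norm_num) (by norm_num) (by linarith) (by norm_num) (by norm_num) (by norm_num) (by norm_num) (by norm_num) (by norm_num) (by norm_num) (by norm_num) (by norm_num) (by norm_num) (by norm_num) (by norm_num) (by norm_num) (by norm_num) (by norm_num) (by norm_num) (by norm_num) (by norm_num) (by norm_num) (by norm_num) (by norm_num)
    (cube_sqrt_geJ (s := 0.7535) (by norm_num) (by norm_num) (by norm_num) (by norm_num))
    (cube_sqrt_geJ (s := 0.9171) (by norm_num) (by norm_num) (by norm_num) (by norm_num))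
    (by norm_num) (by norm_num) (by norm_num) (by norm_num) (by norm_num) (by norm_num) (by norm_num) (by norm_num) (by norm_num) (by norm_num) (by norm_num) (by norm_num) (by norm_num) (by norm_num) (by norm_num) (by norm_num) (by norm_num) (by norm_num)
    (exp_neg_leJ (r := 0.03) 7 (by norm_num) (by norm_num) (by norm_num) (by norm_num))
    (exp_neg_leJ (r := 0.99) 3 (by norm_num) (by norm_num) (by norm_num) (by norm_num))
    (exp_neg_leJ (r := 0.51) 7 (by norm_num) (by norm_num) (by norm_num) (by norm_num))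
    (exp_neg_leJ (r := 0.99) 14 (by norm_num) (by norm_num) (by norm_num) (by norm_num))
    (exp_neg_leJ (r := 0.144) 5 (by norm_num) (by norm_num) (by norm_num) (by norm_num))
    (exp_neg_leJ (r := 0.99) 14 (by norm_num) (by norm_num) (by norm_num) (by norm_num))
    (exp_neg_leJ (r := 0.99) 14 (by norm_num) (by norm_num) (by norm_num) (by norm_num))
    (exp_neg_leJ (r := 0.99) 14 (by norm_num) (by norm_num) (by norm_num) (by norm_num))
    (by norm_num)) (by norm_num) hN hβ.le (by norm_num)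

private theorem T3_02_d0_1_b2_3 {β x y : ℝ} (hβ : 0 < β) (hN : β * 27.777 ≤ 1) (hx1 : 0.2196 ≤ x) (hx2 : x ≤ 0.4409)
    (hy1 : -0.493 ≤ y) (hy2 : y ≤ -0.36) : ‖HH β (x + y * I) - 1‖ ≤ 0.215 := by
  refine le_epsJ (C := 5.7831) (N0 := 27.777) (J_boxp 0.2196 0.4409 0.493 0 (-0.36) 0.5146 0.6614 0.7772 2.3882 0.3518 5.2704 27.777 1.2853 7.084 1.821 0.7954 0.2572 0.147 0.3052 2.2423 0.1923 0.804 0.6697 3.3534 0.0007896 0.01686 0.0002083 0.0000003101 0.004792 0.0000003101 0.0000003101 0.0000003101 5.7831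
    hβ hN hx1 hx2 hy1 hy2 (by norm_num) (by norm_num) (by linarith) (by norm_num) (by norm_num) (by norm_num) (by norm_num) (by norm_num) (by norm_num) (by norm_num) (by norm_num) (by norm_num) (by norm_num) (by norm_num) (by norm_num) (by norm_num) (by norm_num) (by norm_num) (by norm_num) (by norm_num) (by norm_num) (by norm_num) (by norm_num) (by norm_num)
    (cube_sqrt_geJ (s := 0.756) (by norm_num) (by norm_num) (by norm_num) (by norm_num))
    (cube_sqrt_geJ (s := 0.9179) (by norm_num) (by norm_num) (by norm_num) (by norm_num))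
    (by norm_num) (by norm_num) (by norm_num) (by norm_num) (by norm_num) (by norm_num) (by norm_num) (by norm_num) (by norm_num) (by norm_num) (by norm_num) (by norm_num) (by norm_num) (by norm_num) (by norm_num) (by norm_num) (by norm_num) (by norm_num)
    (exp_neg_leJ (r := 0.144) 7 (by norm_num) (by norm_num) (by norm_num) (by norm_num))
    (exp_neg_leJ (r := 0.083) 4 (by norm_num) (by norm_num) (by norm_num) (by norm_num))
    (exp_neg_leJ (r := 0.477) 8 (by norm_num) (by norm_num) (by norm_num) (by norm_num))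
    (exp_neg_leJ (r := 0.99) 14 (by norm_num) (by norm_num) (by norm_num) (by norm_num))
    (exp_neg_leJ (r := 0.341) 5 (by norm_num) (by norm_num) (by norm_num) (by norm_num))
    (exp_neg_leJ (r := 0.99) 14 (by norm_num) (by norm_num) (by norm_num) (by norm_num))
    (exp_neg_leJ (r := 0.99) 14 (by norm_num) (by norm_num) (by norm_num) (by norm_num))
    (exp_neg_leJ (r := 0.99) 14 (by norm_num) (by norm_num) (by norm_num) (by norm_num))
    (by norm_num)) (by norm_num) hN hβ.le (by norm_num)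

private theorem T3_02_d0_1_c2 {κ t β : ℝ} (h : DomR κ t) (hβ : 0 < β) (hk1 : 0.35 ≤ κ) (hk2 : κ ≤ 0.36)
    (ht1 : -0.9524 ≤ t + κ) (ht2 : t + κ ≤ -0.88239) (hR0 : β * 10 ≤ κ) (hR : β * (1 * (1 + κ ^ 2)) ≤ κ) :
    ∀ s : ℂ, ‖s - sg κ t‖ ≤ 0.04 → ‖HH β s - 1‖ ≤ 0.215 := by
  have hN : β * 27.777 ≤ 1 := bNR hβ h.1 hk2 hR0 (by norm_num)
  have hy1 : -0.493 ≤ sy κ t := syL_ang2 h 0.35 0.36 0.9524 0.99 0.5486 0.8363 0.493 1.63721 0.61079 hk1 hk2 (by linarith) (by norm_num) (by norm_num) (by norm_num) (by norm_num)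
    (cos_ge_num (by norm_num) (by norm_num)) (sin_le_num (by norm_num) (by norm_num))
    (expn_ge (by norm_num) (by norm_num)) (expm_ge (by norm_num) (by norm_num) (by norm_num) (by norm_num)) (by norm_num) (by norm_num) (by norm_num)
    (by norm_num) (by norm_num) (by norm_num)
  have hy2 : sy κ t ≤ -0.4 := syL_le h 0.35 0.36 0.88239 0.4 0.67032 0.67033 0.74479 0.7661 hk1 hk2 (by linarith) (by norm_num) (by norm_num) (by norm_num)
    (expm_ge (by norm_num) (by norm_num) (by norm_num) (by norm_num)) (expm_le (by norm_num) (by norm_num) (by norm_num)) (by norm_num)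
    (by norm_num) (by norm_num) (by norm_num) (by norm_num) (by norm_num) (by norm_num)
  intro s hs
  have hs' : ‖s - ((sx κ t : ℂ) + (sy κ t : ℂ) * I)‖ ≤ 0.04 := hs
  obtain ⟨es, ⟨s1, s2⟩, ⟨s3, s4⟩⟩ := disc_split hs'
  rcases le_total (sy κ t) (-0.488) with f0 | g0
  · have hx1 : 0.2864 ≤ sx κ t := sx_lo h 0.35 (-0.488) 0.493 1.62905 0.2864 hk1 (by norm_num) f0 (abs_le.2 ⟨by linarith, by linarith⟩) (by rw [neg_neg]; exact expn_ge (by norm_num) (by norm_num)) (by norm_num) (by norm_num)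
    have hx2 : sx κ t ≤ 0.3306 := sx_hi h 0.36 (-0.493) 0.488 1.63723 0.3306 hk2 hy1 (by norm_num) (by rw [abs_of_nonpos (by linarith)]; linarith) (by rw [neg_neg]; exact expn_le (by norm_num) (by norm_num) (by norm_num)) (by norm_num) (by norm_num)
    rw [es]
    exact T3_02_d0_1_b2_0 hβ hN (by linarith) (by linarith) (by linarith) (by linarith)
  rcases le_total (sy κ t) (-0.478) with f1 | g1
  · have hx1 : 0.2837 ≤ sx κ t := sx_lo h 0.35 (-0.478) 0.488 1.61284 0.2837 hk1 (by norm_num) f1 (abs_le.2 ⟨by linarith, by linarith⟩) (by rw [neg_neg]; exact expn_ge (by norm_num) (by norm_num)) (by norm_num) (by norm_num)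
    have hx2 : sx κ t ≤ 0.3398 := sx_hi h 0.36 (-0.488) 0.478 1.62906 0.3398 hk2 g0 (by norm_num) (by rw [abs_of_nonpos (by linarith)]; linarith) (by rw [neg_neg]; exact expn_le (by norm_num) (by norm_num) (by norm_num)) (by norm_num) (by norm_num)
    rw [es]
    exact T3_02_d0_1_b2_1 hβ hN (by linarith) (by linarith) (by linarith) (by linarith)
  rcases le_total (sy κ t) (-0.453) with f2 | g2
  · have hx1 : 0.2731 ≤ sx κ t := sx_lo h 0.35 (-0.453) 0.478 1.57302 0.2731 hk1 (by norm_num) f2 (abs_le.2 ⟨by linarith, by linarith⟩) (by rw [neg_neg]; exact expn_ge (by norm_num) (by norm_num)) (by norm_num) (by norm_num)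
    have hx2 : sx κ t ≤ 0.3633 := sx_hi h 0.36 (-0.478) 0.453 1.61285 0.3633 hk2 g1 (by norm_num) (by rw [abs_of_nonpos (by linarith)]; linarith) (by rw [neg_neg]; exact expn_le (by norm_num) (by norm_num) (by norm_num)) (by norm_num) (by norm_num)
    rw [es]
    exact T3_02_d0_1_b2_2 hβ hN (by linarith) (by linarith) (by linarith) (by linarith)
  have hx1 : 0.2596 ≤ sx κ t := sx_lo h 0.35 (-0.4) 0.453 1.49182 0.2596 hk1 (by norm_num) hy2 (abs_le.2 ⟨by linarith, by linarith⟩) (by rw [neg_neg]; exact expn_ge (by norm_num) (by norm_num)) (by norm_num) (by norm_num)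
  have hx2 : sx κ t ≤ 0.4009 := sx_hi h 0.36 (-0.453) 0.4 1.57303 0.4009 hk2 g2 (by norm_num) (by rw [abs_of_nonpos (by linarith)]; linarith) (by rw [neg_neg]; exact expn_le (by norm_num) (by norm_num) (by norm_num)) (by norm_num) (by norm_num)
  rw [es]
  exact T3_02_d0_1_b2_3 hβ hN (by linarith) (by linarith) (by linarith) (by linarith)

theorem T3_02_d0_1 {κ t β : ℝ} (h : DomR κ t) (hβ : 0 < β) (hk1 : 0.33 ≤ κ) (hk2 : κ ≤ 0.36)
    (ht1 : -0.9524 ≤ t + κ) (ht2 : t + κ ≤ -0.88239) (hR0 : β * 10 ≤ κ) (hR : β * (1 * (1 + κ ^ 2)) ≤ κ) :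
    ∀ s : ℂ, ‖s - sg κ t‖ ≤ 0.04 → ‖HH β s - 1‖ ≤ 0.215 := by
  rcases le_total κ 0.34 with f0 | g0
  · exact T3_02_d0_1_c0 h hβ hk1 f0 ht1 ht2 hR0 hR
  rcases le_total κ 0.35 with f1 | g1
  · exact T3_02_d0_1_c1 h hβ g0 f1 ht1 ht2 hR0 hR
  exact T3_02_d0_1_c2 h hβ g1 hk2 ht1 ht2 hR0 hR

private theorem T3_02_d1_1_b0_0 {β x y : ℝ} (hβ : 0 < β) (hN : β * 27.777 ≤ 1) (hn : ‖(x + y * I : ℂ)‖ ≤ 0.371) : ‖HH β (x + y * I) - 1‖ ≤ 0.04 := by
  refine le_epsJ (C := 0.7993) (N0 := 27.777) (J45_genN (N := 27.777) (r0 := 5.2704) (f := 2.5667) (n0 := 0.371) (a := 0.629) (wL := 1.748) (wR := 2.134)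
    (E1 := 0.007413) (E2 := 0.000001148) (E3 := 0.02704) (E4 := 0.00001748) (E5 := 0.0000003101) hβ (by norm_num) hN
    (by norm_num) (by norm_num) (by norm_num) hn (by norm_num) (by norm_num) (by norm_num)
    (cube_sqrt_geJ (s := 0.9233) (by norm_num) (by norm_num) (by norm_num) (by norm_num))
    (cube_sqrt_geJ (s := 0.8974) (by norm_num) (by norm_num) (by norm_num) (by norm_num))
    (exp_neg_leJ (r := 0.907) 4 (by norm_num) (by norm_num) (by norm_num) (by norm_num))
    (exp_neg_leJ (r := 0.679) 13 (by norm_num) (by norm_num) (by norm_num) (by norm_num))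
    (exp_neg_leJ (r := 0.611) 3 (by norm_num) (by norm_num) (by norm_num) (by norm_num))
    (exp_neg_leJ (r := 0.958) 10 (by norm_num) (by norm_num) (by norm_num) (by norm_num))
    (exp_neg_leJ (r := 0.99) 14 (by norm_num) (by norm_num) (by norm_num) (by norm_num))
    (by norm_num)) (by norm_num) hN hβ.le (by norm_num)

private theorem T3_02_d1_1_c0 {κ t β : ℝ} (h : DomR κ t) (hβ : 0 < β) (hk1 : 0.33 ≤ κ) (hk2 : κ ≤ 0.36)
    (ht1 : 1.142 ≤ t + κ) (ht2 : t + κ ≤ 1.212) (hR0 : β * 10 ≤ κ) (hR : β * (1 * (1 + κ ^ 2)) ≤ κ) :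
    ∀ s : ℂ, ‖s - sg κ t‖ ≤ 0.08 → ‖HH β s - 1‖ ≤ 0.04 := by
  have hN : β * 27.777 ≤ 1 := bNR hβ h.1 hk2 hR0 (by norm_num)
  have hy1 : 0.213 ≤ sy κ t := syR_ge h 0.33 0.36 1.142 0.213 1.23738 1.23739 0.73211 0.79868 hk1 hk2 (by linarith) (by norm_num) (by norm_num)
    (expn_ge (by norm_num) (by norm_num)) (expn_le (by norm_num) (by norm_num) (by norm_num)) (by norm_num)
    (by norm_num) (by norm_num) (by norm_num) (by norm_num) (by norm_num) (by norm_num)
  have hy2 : sy κ t ≤ 0.242 := syR_ang2 h 0.33 0.36 1.212 1.027 0.519 0.856 0.242 0.78506 1.27379 hk1 hk2 (by linarith) (by norm_num) (by norm_num) (by norm_num)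
    (cos_le_num (by norm_num)) (sin_le_num (by norm_num) (by norm_num)) (expm_le (by norm_num) (by norm_num) (by norm_num))
    (expn_ge (by norm_num) (by norm_num)) (by norm_num) (by norm_num) (by norm_num) (by norm_num) (by norm_num)
  intro s hs
  have hs' : ‖s - ((sx κ t : ℂ) + (sy κ t : ℂ) * I)‖ ≤ 0.08 := hs
  obtain ⟨es, ⟨s1, s2⟩, ⟨s3, s4⟩⟩ := disc_split hs'
  rw [es]
  refine T3_02_d1_1_b0_0 hβ hN ?_
  rw [← es]
  exact disc_norm hs' (norm_sg_le h 0.36 0.213 0.80816 (0.371 - 0.08) hk2 hy1 (expm_le (by norm_num) (by norm_num) (by norm_num)) (by norm_num))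

theorem T3_02_d1_1 {κ t β : ℝ} (h : DomR κ t) (hβ : 0 < β) (hk1 : 0.33 ≤ κ) (hk2 : κ ≤ 0.36)
    (ht1 : 1.142 ≤ t + κ) (ht2 : t + κ ≤ 1.212) (hR0 : β * 10 ≤ κ) (hR : β * (1 * (1 + κ ^ 2)) ≤ κ) :
    ∀ s : ℂ, ‖s - sg κ t‖ ≤ 0.08 → ‖HH β s - 1‖ ≤ 0.04 := by
  exact T3_02_d1_1_c0 h hβ hk1 hk2 ht1 ht2 hR0 hR

private theorem T3_02_d0_2_b0_0 {β x y : ℝ} (hβ : 0 < β) (hN : β * 28.571 ≤ 1) (hx1 : 0.2174 ≤ x) (hx2 : x ≤ 0.3909)
    (hy1 : -0.468 ≤ y) (hy2 : y ≤ -0.358) : ‖HH β (x + y * I) - 1‖ ≤ 0.13 := by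
  refine le_epsJ (C := 3.6517) (N0 := 28.571) (J_boxp 0.2174 0.3909 0.468 0 (-0.358) 0.5308 0.6098 0.7517 2.242 0.3459 5.3452 28.571 1.1489 5.42 1.701 0.8377 0.2653 0.1637 0.3439 2.3501 0.2049 0.801 0.7333 3.4892 0.0005113 0.009314 0.00005418 0.0000003101 0.002874 0.0000003101 0.0000003101 0.0000003101 3.6517
    hβ hN hx1 hx2 hy1 hy2 (by norm_num) (by norm_num) (by linarith) (by norm_num) (by norm_num) (by norm_num) (by norm_num) (by norm_num) (by norm_num) (by norm_num) (by norm_num) (by norm_num) (by norm_num) (by norm_num) (by norm_num) (by norm_num) (by norm_num) (by norm_num) (by norm_num) (by norm_num) (by norm_num) (by norm_num) (by norm_num) (by norm_num)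
    (cube_sqrt_geJ (s := 0.7855) (by norm_num) (by norm_num) (by norm_num) (by norm_num))
    (cube_sqrt_geJ (s := 0.9269) (by norm_num) (by norm_num) (by norm_num) (by norm_num))
    (by norm_num) (by norm_num) (by norm_num) (by norm_num) (by norm_num) (by norm_num) (by norm_num) (by norm_num) (by norm_num) (by norm_num) (by norm_num) (by norm_num) (by norm_num) (by norm_num) (by norm_num) (by norm_num) (by norm_num) (by norm_num)
    (exp_neg_leJ (r := 0.579) 7 (by norm_num) (by norm_num) (by norm_num) (by norm_num))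
    (exp_neg_leJ (r := 0.677) 4 (by norm_num) (by norm_num) (by norm_num) (by norm_num))
    (exp_neg_leJ (r := 0.825) 9 (by norm_num) (by norm_num) (by norm_num) (by norm_num))
    (exp_neg_leJ (r := 0.99) 14 (by norm_num) (by norm_num) (by norm_num) (by norm_num))
    (exp_neg_leJ (r := 0.854) 5 (by norm_num) (by norm_num) (by norm_num) (by norm_num))
    (exp_neg_leJ (r := 0.99) 14 (by norm_num) (by norm_num) (by norm_num) (by norm_num))
    (exp_neg_leJ (r := 0.99) 14 (by norm_num) (by norm_num) (by norm_num) (by norm_num))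
    (exp_neg_leJ (r := 0.99) 14 (by norm_num) (by norm_num) (by norm_num) (by norm_num))
    (by norm_num)) (by norm_num) hN hβ.le (by norm_num)

private theorem T3_02_d0_2_b0_1 {β x y : ℝ} (hβ : 0 < β) (hN : β * 28.571 ≤ 1) (hx1 : 0.2148 ≤ x) (hx2 : x ≤ 0.4057)
    (hy1 : -0.458 ≤ y) (hy2 : y ≤ -0.338) : ‖HH β (x + y * I) - 1‖ ≤ 0.13 := by
  refine le_epsJ (C := 3.5625) (N0 := 28.571) (J_boxp 0.2148 0.4057 0.458 0 (-0.338) 0.5361 0.6119 0.7765 2.245 0.3516 5.3452 28.571 1.1414 5.343 1.694 0.8413 0.268 0.166 0.3588 2.3763 0.2091 0.7974 0.7553 3.4783 0.0004731 0.008731 0.00003533 0.0000003101 0.002553 0.0000003101 0.0000003101 0.0000003101 3.5625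
    hβ hN hx1 hx2 hy1 hy2 (by norm_num) (by norm_num) (by linarith) (by norm_num) (by norm_num) (by norm_num) (by norm_num) (by norm_num) (by norm_num) (by norm_num) (by norm_num) (by norm_num) (by norm_num) (by norm_num) (by norm_num) (by norm_num) (by norm_num) (by norm_num) (by norm_num) (by norm_num) (by norm_num) (by norm_num) (by norm_num) (by norm_num)
    (cube_sqrt_geJ (s := 0.7871) (by norm_num) (by norm_num) (by norm_num) (by norm_num))
    (cube_sqrt_geJ (s := 0.9274) (by norm_num) (by norm_num) (by norm_num) (by norm_num))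
    (by norm_num) (by norm_num) (by norm_num) (by norm_num) (by norm_num) (by norm_num) (by norm_num) (by norm_num) (by norm_num) (by norm_num) (by norm_num) (by norm_num) (by norm_num) (by norm_num) (by norm_num) (by norm_num) (by norm_num) (by norm_num)
    (exp_neg_leJ (r := 0.657) 7 (by norm_num) (by norm_num) (by norm_num) (by norm_num))
    (exp_neg_leJ (r := 0.742) 4 (by norm_num) (by norm_num) (by norm_num) (by norm_num))
    (exp_neg_leJ (r := 0.251) 10 (by norm_num) (by norm_num) (by norm_num) (by norm_num))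
    (exp_neg_leJ (r := 0.99) 14 (by norm_num) (by norm_num) (by norm_num) (by norm_num))
    (exp_neg_leJ (r := 0.974) 5 (by norm_num) (by norm_num) (by norm_num) (by norm_num))
    (exp_neg_leJ (r := 0.99) 14 (by norm_num) (by norm_num) (by norm_num) (by norm_num))
    (exp_neg_leJ (r := 0.99) 14 (by norm_num) (by norm_num) (by norm_num) (by norm_num))
    (exp_neg_leJ (r := 0.99) 14 (by norm_num) (by norm_num) (by norm_num) (by norm_num))
    (by norm_num)) (by norm_num) hN hβ.le (by norm_num)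

private theorem T3_02_d0_2_b0_2 {β x y : ℝ} (hβ : 0 < β) (hN : β * 28.571 ≤ 1) (hx1 : 0.202 ≤ x) (hx2 : x ≤ 0.4398)
    (hy1 : -0.438 ≤ y) (hy2 : y ≤ -0.288) : ‖HH β (x + y * I) - 1‖ ≤ 0.13 := by
  refine le_epsJ (C := 3.6796) (N0 := 28.571) (J_boxp 0.202 0.4398 0.438 0 (-0.288) 0.5412 0.6207 0.8369 2.2978 0.365 5.3452 28.571 1.1469 5.399 1.699 0.8466 0.2705 0.1671 0.386 2.4262 0.2138 0.7796 0.784 3.4288 0.0004408 0.008457 0.00001625 0.0000003101 0.002226 0.0000003101 0.0000003101 0.0000003101 3.6796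
    hβ hN hx1 hx2 hy1 hy2 (by norm_num) (by norm_num) (by linarith) (by norm_num) (by norm_num) (by norm_num) (by norm_num) (by norm_num) (by norm_num) (by norm_num) (by norm_num) (by norm_num) (by norm_num) (by norm_num) (by norm_num) (by norm_num) (by norm_num) (by norm_num) (by norm_num) (by norm_num) (by norm_num) (by norm_num) (by norm_num) (by norm_num)
    (cube_sqrt_geJ (s := 0.7859) (by norm_num) (by norm_num) (by norm_num) (by norm_num))
    (cube_sqrt_geJ (s := 0.9271) (by norm_num) (by norm_num) (by norm_num) (by norm_num))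
    (by norm_num) (by norm_num) (by norm_num) (by norm_num) (by norm_num) (by norm_num) (by norm_num) (by norm_num) (by norm_num) (by norm_num) (by norm_num) (by norm_num) (by norm_num) (by norm_num) (by norm_num) (by norm_num) (by norm_num) (by norm_num)
    (exp_neg_leJ (r := 0.728) 7 (by norm_num) (by norm_num) (by norm_num) (by norm_num))
    (exp_neg_leJ (r := 0.774) 4 (by norm_num) (by norm_num) (by norm_num) (by norm_num))
    (exp_neg_leJ (r := 0.028) 11 (by norm_num) (by norm_num) (by norm_num) (by norm_num))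
    (exp_neg_leJ (r := 0.99) 14 (by norm_num) (by norm_num) (by norm_num) (by norm_num))
    (exp_neg_leJ (r := 0.108) 6 (by norm_num) (by norm_num) (by norm_num) (by norm_num))
    (exp_neg_leJ (r := 0.99) 14 (by norm_num) (by norm_num) (by norm_num) (by norm_num))
    (exp_neg_leJ (r := 0.99) 14 (by norm_num) (by norm_num) (by norm_num) (by norm_num))
    (exp_neg_leJ (r := 0.99) 14 (by norm_num) (by norm_num) (by norm_num) (by norm_num))
    (by norm_num)) (by norm_num) hN hβ.le (by norm_num)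

private theorem T3_02_d0_2_b0_3 {β x y : ℝ} (hβ : 0 < β) (hN : β * 28.571 ≤ 1) (hx1 : 0.2264 ≤ x) (hx2 : x ≤ 0.4531)
    (hy1 : -0.388 ≤ y) (hy2 : y ≤ -0.23) : ‖HH β (x + y * I) - 1‖ ≤ 0.13 := by
  refine le_epsJ (C := 2.1412) (N0 := 28.571) (J_boxp 0.2264 0.4531 0.388 0 (-0.23) 0.5939 0.5966 0.8935 2.0653 0.3772 5.3452 28.571 1.0046 4.168 1.584 0.8876 0.2969 0.1975 0.4733 2.5856 0.253 0.8134 0.9687 3.5431 0.0002072 0.003548 0.000001342 0.0000003101 0.000726 0.0000003101 0.0000003101 0.0000003101 2.1412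
    hβ hN hx1 hx2 hy1 hy2 (by norm_num) (by norm_num) (by linarith) (by norm_num) (by norm_num) (by norm_num) (by norm_num) (by norm_num) (by norm_num) (by norm_num) (by norm_num) (by norm_num) (by norm_num) (by norm_num) (by norm_num) (by norm_num) (by norm_num) (by norm_num) (by norm_num) (by norm_num) (by norm_num) (by norm_num) (by norm_num) (by norm_num)
    (cube_sqrt_geJ (s := 0.8155) (by norm_num) (by norm_num) (by norm_num) (by norm_num))
    (cube_sqrt_geJ (s := 0.9364) (by norm_num) (by norm_num) (by norm_num) (by norm_num))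
    (by norm_num) (by norm_num) (by norm_num) (by norm_num) (by norm_num) (by norm_num) (by norm_num) (by norm_num) (by norm_num) (by norm_num) (by norm_num) (by norm_num) (by norm_num) (by norm_num) (by norm_num) (by norm_num) (by norm_num) (by norm_num)
    (exp_neg_leJ (r := 0.482) 8 (by norm_num) (by norm_num) (by norm_num) (by norm_num))
    (exp_neg_leJ (r := 0.642) 5 (by norm_num) (by norm_num) (by norm_num) (by norm_num))
    (exp_neg_leJ (r := 0.522) 13 (by norm_num) (by norm_num) (by norm_num) (by norm_num))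
    (exp_neg_leJ (r := 0.99) 14 (by norm_num) (by norm_num) (by norm_num) (by norm_num))
    (exp_neg_leJ (r := 0.228) 7 (by norm_num) (by norm_num) (by norm_num) (by norm_num))
    (exp_neg_leJ (r := 0.99) 14 (by norm_num) (by norm_num) (by norm_num) (by norm_num))
    (exp_neg_leJ (r := 0.99) 14 (by norm_num) (by norm_num) (by norm_num) (by norm_num))
    (exp_neg_leJ (r := 0.99) 14 (by norm_num) (by norm_num) (by norm_num) (by norm_num))
    (by norm_num)) (by norm_num) hN hβ.le (by norm_num)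

private theorem T3_02_d0_2_c0 {κ t β : ℝ} (h : DomR κ t) (hβ : 0 < β) (hk1 : 0.33 ≤ κ) (hk2 : κ ≤ 0.35)
    (ht1 : -0.8824 ≤ t + κ) (ht2 : t + κ ≤ -0.71239) (hR0 : β * 10 ≤ κ) (hR : β * (1 * (1 + κ ^ 2)) ≤ κ) :
    ∀ s : ℂ, ‖s - sg κ t‖ ≤ 0.05 → ‖HH β s - 1‖ ≤ 0.13 := by
  have hN : β * 28.571 ≤ 1 := bNR hβ h.1 hk2 hR0 (by norm_num)
  have hy1 : -0.418 ≤ sy κ t := syL_ang2 h 0.33 0.35 0.8824 0.904 0.6184 0.786 0.418 1.51892 0.65836 hk1 hk2 (by linarith) (by norm_num) (by norm_num) (by norm_num) (by norm_num)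
    (cos_ge_num (by norm_num) (by norm_num)) (sin_le_num (by norm_num) (by norm_num))
    (expn_ge (by norm_num) (by norm_num)) (expm_ge (by norm_num) (by norm_num) (by norm_num) (by norm_num)) (by norm_num) (by norm_num) (by norm_num)
    (by norm_num) (by norm_num) (by norm_num)
  have hy2 : sy κ t ≤ -0.28 := syL_le h 0.33 0.35 0.71239 0.28 0.75578 0.75579 0.60462 0.64128 hk1 hk2 (by linarith) (by norm_num) (by norm_num) (by norm_num)
    (expm_ge (by norm_num) (by norm_num) (by norm_num) (by norm_num)) (expm_le (by norm_num) (by norm_num) (by norm_num)) (by norm_num)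
    (by norm_num) (by norm_num) (by norm_num) (by norm_num) (by norm_num) (by norm_num)
  intro s hs
  have hs' : ‖s - ((sx κ t : ℂ) + (sy κ t : ℂ) * I)‖ ≤ 0.05 := hs
  obtain ⟨es, ⟨s1, s2⟩, ⟨s3, s4⟩⟩ := disc_split hs'
  rcases le_total (sy κ t) (-0.408) with f0 | g0
  · have hx1 : 0.2674 ≤ sx κ t := sx_lo h 0.33 (-0.408) 0.418 1.5038 0.2674 hk1 (by norm_num) f0 (abs_le.2 ⟨by linarith, by linarith⟩) (by rw [neg_neg]; exact expn_ge (by norm_num) (by norm_num)) (by norm_num) (by norm_num)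
    have hx2 : sx κ t ≤ 0.3409 := sx_hi h 0.35 (-0.418) 0.408 1.51893 0.3409 hk2 hy1 (by norm_num) (by rw [abs_of_nonpos (by linarith)]; linarith) (by rw [neg_neg]; exact expn_le (by norm_num) (by norm_num) (by norm_num)) (by norm_num) (by norm_num)
    rw [es]
    exact T3_02_d0_2_b0_0 hβ hN (by linarith) (by linarith) (by linarith) (by linarith)
  rcases le_total (sy κ t) (-0.388) with f1 | g1
  · have hx1 : 0.2648 ≤ sx κ t := sx_lo h 0.33 (-0.388) 0.408 1.47402 0.2648 hk1 (by norm_num) f1 (abs_le.2 ⟨by linarith, by linarith⟩) (by rw [neg_neg]; exact expn_ge (by norm_num) (by norm_num)) (by norm_num) (by norm_num)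
    have hx2 : sx κ t ≤ 0.3557 := sx_hi h 0.35 (-0.408) 0.388 1.50381 0.3557 hk2 g0 (by norm_num) (by rw [abs_of_nonpos (by linarith)]; linarith) (by rw [neg_neg]; exact expn_le (by norm_num) (by norm_num) (by norm_num)) (by norm_num) (by norm_num)
    rw [es]
    exact T3_02_d0_2_b0_1 hβ hN (by linarith) (by linarith) (by linarith) (by linarith)
  rcases le_total (sy κ t) (-0.338) with f2 | g2
  · have hx1 : 0.252 ≤ sx κ t := sx_lo h 0.33 (-0.338) 0.388 1.40214 0.252 hk1 (by norm_num) f2 (abs_le.2 ⟨by linarith, by linarith⟩) (by rw [neg_neg]; exact expn_ge (by norm_num) (by norm_num)) (by norm_num) (by norm_num)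
    have hx2 : sx κ t ≤ 0.3898 := sx_hi h 0.35 (-0.388) 0.338 1.47403 0.3898 hk2 g1 (by norm_num) (by rw [abs_of_nonpos (by linarith)]; linarith) (by rw [neg_neg]; exact expn_le (by norm_num) (by norm_num) (by norm_num)) (by norm_num) (by norm_num)
    rw [es]
    exact T3_02_d0_2_b0_2 hβ hN (by linarith) (by linarith) (by linarith) (by linarith)
  have hx1 : 0.2764 ≤ sx κ t := sx_lo h 0.33 (-0.28) 0.338 1.32312 0.2764 hk1 (by norm_num) hy2 (abs_le.2 ⟨by linarith, by linarith⟩) (by rw [neg_neg]; exact expn_ge (by norm_num) (by norm_num)) (by norm_num) (by norm_num)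
  have hx2 : sx κ t ≤ 0.4031 := sx_hi h 0.35 (-0.338) 0.28 1.40215 0.4031 hk2 g2 (by norm_num) (by rw [abs_of_nonpos (by linarith)]; linarith) (by rw [neg_neg]; exact expn_le (by norm_num) (by norm_num) (by norm_num)) (by norm_num) (by norm_num)
  rw [es]
  exact T3_02_d0_2_b0_3 hβ hN (by linarith) (by linarith) (by linarith) (by linarith)

private theorem T3_02_d0_2_b1_0 {β x y : ℝ} (hβ : 0 < β) (hN : β * 27.777 ≤ 1) (hx1 : 0.2625 ≤ x) (hx2 : x ≤ 0.4091)
    (hy1 : -0.484 ≤ y) (hy2 : y ≤ -0.374) : ‖HH β (x + y * I) - 1‖ ≤ 0.13 := by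
  refine le_epsJ (C := 3.4248) (N0 := 27.777) (J_boxp 0.2625 0.4091 0.484 0 (-0.374) 0.5512 0.6338 0.7479 2.1133 0.3451 5.2704 27.777 1.1499 5.43 1.701 0.816 0.2755 0.1699 0.3341 2.2878 0.2181 0.8634 0.78 3.5142 0.0004754 0.008933 0.00009328 0.0000003101 0.00234 0.0000003101 0.0000003101 0.0000003101 3.4248
    hβ hN hx1 hx2 hy1 hy2 (by norm_num) (by norm_num) (by linarith) (by norm_num) (by norm_num) (by norm_num) (by norm_num) (by norm_num) (by norm_num) (by norm_num) (by norm_num) (by norm_num) (by norm_num) (by norm_num) (by norm_num) (by norm_num) (by norm_num) (by norm_num) (by norm_num) (by norm_num) (by norm_num) (by norm_num) (by norm_num) (by norm_num)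
    (cube_sqrt_geJ (s := 0.7853) (by norm_num) (by norm_num) (by norm_num) (by norm_num))
    (cube_sqrt_geJ (s := 0.9269) (by norm_num) (by norm_num) (by norm_num) (by norm_num))
    (by norm_num) (by norm_num) (by norm_num) (by norm_num) (by norm_num) (by norm_num) (by norm_num) (by norm_num) (by norm_num) (by norm_num) (by norm_num) (by norm_num) (by norm_num) (by norm_num) (by norm_num) (by norm_num) (by norm_num) (by norm_num)
    (exp_neg_leJ (r := 0.652) 7 (by norm_num) (by norm_num) (by norm_num) (by norm_num))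
    (exp_neg_leJ (r := 0.719) 4 (by norm_num) (by norm_num) (by norm_num) (by norm_num))
    (exp_neg_leJ (r := 0.28) 9 (by norm_num) (by norm_num) (by norm_num) (by norm_num))
    (exp_neg_leJ (r := 0.99) 14 (by norm_num) (by norm_num) (by norm_num) (by norm_num))
    (exp_neg_leJ (r := 0.058) 6 (by norm_num) (by norm_num) (by norm_num) (by norm_num))
    (exp_neg_leJ (r := 0.99) 14 (by norm_num) (by norm_num) (by norm_num) (by norm_num))
    (exp_neg_leJ (r := 0.99) 14 (by norm_num) (by norm_num) (by norm_num) (by norm_num))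
    (exp_neg_leJ (r := 0.99) 14 (by norm_num) (by norm_num) (by norm_num) (by norm_num))
    (by norm_num)) (by norm_num) hN hβ.le (by norm_num)

private theorem T3_02_d0_2_b1_1 {β x y : ℝ} (hβ : 0 < β) (hN : β * 27.777 ≤ 1) (hx1 : 0.2538 ≤ x) (hx2 : x ≤ 0.4288)
    (hy1 : -0.474 ≤ y) (hy2 : y ≤ -0.349) : ‖HH β (x + y * I) - 1‖ ≤ 0.13 := by
  refine le_epsJ (C := 3.5565) (N0 := 27.777) (J_boxp 0.2538 0.4288 0.474 0 (-0.349) 0.5522 0.6392 0.7796 2.1518 0.3523 5.2704 27.777 1.1576 5.51 1.708 0.8176 0.276 0.1695 0.3469 2.3116 0.2193 0.8514 0.7898 3.4821 0.0004688 0.009031 0.00006544 0.0000003101 0.002264 0.0000003101 0.0000003101 0.0000003101 3.5565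
    hβ hN hx1 hx2 hy1 hy2 (by norm_num) (by norm_num) (by linarith) (by norm_num) (by norm_num) (by norm_num) (by norm_num) (by norm_num) (by norm_num) (by norm_num) (by norm_num) (by norm_num) (by norm_num) (by norm_num) (by norm_num) (by norm_num) (by norm_num) (by norm_num) (by norm_num) (by norm_num) (by norm_num) (by norm_num) (by norm_num) (by norm_num)
    (cube_sqrt_geJ (s := 0.7836) (by norm_num) (by norm_num) (by norm_num) (by norm_num))
    (cube_sqrt_geJ (s := 0.9264) (by norm_num) (by norm_num) (by norm_num) (by norm_num))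
    (by norm_num) (by norm_num) (by norm_num) (by norm_num) (by norm_num) (by norm_num) (by norm_num) (by norm_num) (by norm_num) (by norm_num) (by norm_num) (by norm_num) (by norm_num) (by norm_num) (by norm_num) (by norm_num) (by norm_num) (by norm_num)
    (exp_neg_leJ (r := 0.666) 7 (by norm_num) (by norm_num) (by norm_num) (by norm_num))
    (exp_neg_leJ (r := 0.708) 4 (by norm_num) (by norm_num) (by norm_num) (by norm_num))
    (exp_neg_leJ (r := 0.635) 9 (by norm_num) (by norm_num) (by norm_num) (by norm_num))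
    (exp_neg_leJ (r := 0.99) 14 (by norm_num) (by norm_num) (by norm_num) (by norm_num))
    (exp_neg_leJ (r := 0.091) 6 (by norm_num) (by norm_num) (by norm_num) (by norm_num))
    (exp_neg_leJ (r := 0.99) 14 (by norm_num) (by norm_num) (by norm_num) (by norm_num))
    (exp_neg_leJ (r := 0.99) 14 (by norm_num) (by norm_num) (by norm_num) (by norm_num))
    (exp_neg_leJ (r := 0.99) 14 (by norm_num) (by norm_num) (by norm_num) (by norm_num))
    (by norm_num)) (by norm_num) hN hβ.le (by norm_num)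

private theorem T3_02_d0_2_b1_2 {β x y : ℝ} (hβ : 0 < β) (hN : β * 27.777 ≤ 1) (hx1 : 0.2407 ≤ x) (hx2 : x ≤ 0.4618)
    (hy1 : -0.449 ≤ y) (hy2 : y ≤ -0.294) : ‖HH β (x + y * I) - 1‖ ≤ 0.13 := by
  refine le_epsJ (C := 3.502) (N0 := 27.777) (J_boxp 0.2407 0.4618 0.449 0 (-0.294) 0.5607 0.6441 0.8437 2.1878 0.3665 5.2704 27.777 1.1488 5.419 1.7 0.828 0.2803 0.1729 0.3819 2.3786 0.2266 0.8332 0.8315 3.4426 0.0004165 0.008226 0.00002473 0.0000003101 0.001848 0.0000003101 0.0000003101 0.0000003101 3.502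
    hβ hN hx1 hx2 hy1 hy2 (by norm_num) (by norm_num) (by linarith) (by norm_num) (by norm_num) (by norm_num) (by norm_num) (by norm_num) (by norm_num) (by norm_num) (by norm_num) (by norm_num) (by norm_num) (by norm_num) (by norm_num) (by norm_num) (by norm_num) (by norm_num) (by norm_num) (by norm_num) (by norm_num) (by norm_num) (by norm_num) (by norm_num)
    (cube_sqrt_geJ (s := 0.7855) (by norm_num) (by norm_num) (by norm_num) (by norm_num))
    (cube_sqrt_geJ (s := 0.927) (by norm_num) (by norm_num) (by norm_num) (by norm_num))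
    (by norm_num) (by norm_num) (by norm_num) (by norm_num) (by norm_num) (by norm_num) (by norm_num) (by norm_num) (by norm_num) (by norm_num) (by norm_num) (by norm_num) (by norm_num) (by norm_num) (by norm_num) (by norm_num) (by norm_num) (by norm_num)
    (exp_neg_leJ (r := 0.785) 7 (by norm_num) (by norm_num) (by norm_num) (by norm_num))
    (exp_neg_leJ (r := 0.802) 4 (by norm_num) (by norm_num) (by norm_num) (by norm_num))
    (exp_neg_leJ (r := 0.608) 10 (by norm_num) (by norm_num) (by norm_num) (by norm_num))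
    (exp_neg_leJ (r := 0.99) 14 (by norm_num) (by norm_num) (by norm_num) (by norm_num))
    (exp_neg_leJ (r := 0.294) 6 (by norm_num) (by norm_num) (by norm_num) (by norm_num))
    (exp_neg_leJ (r := 0.99) 14 (by norm_num) (by norm_num) (by norm_num) (by norm_num))
    (exp_neg_leJ (r := 0.99) 14 (by norm_num) (by norm_num) (by norm_num) (by norm_num))
    (exp_neg_leJ (r := 0.99) 14 (by norm_num) (by norm_num) (by norm_num) (by norm_num))
    (by norm_num)) (by norm_num) hN hβ.le (by norm_num)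

private theorem T3_02_d0_2_b1_3 {β x y : ℝ} (hβ : 0 < β) (hN : β * 27.777 ≤ 1) (hx1 : 0.2731 ≤ x) (hx2 : x ≤ 0.4605)
    (hy1 : -0.394 ≤ y) (hy2 : y ≤ -0.249) : ‖HH β (x + y * I) - 1‖ ≤ 0.13 := by
  refine le_epsJ (C := 1.8013) (N0 := 27.777) (J_boxp 0.2731 0.4605 0.394 0 (-0.249) 0.6225 0.6061 0.881 1.9111 0.3745 5.2704 27.777 0.9737 3.949 1.56 0.8793 0.3112 0.2102 0.4798 2.5619 0.2724 0.8781 1.0458 3.6107 0.0001763 0.00292 0.00000163 0.0000003101 0.000518 0.0000003101 0.0000003101 0.0000003101 1.8013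
    hβ hN hx1 hx2 hy1 hy2 (by norm_num) (by norm_num) (by linarith) (by norm_num) (by norm_num) (by norm_num) (by norm_num) (by norm_num) (by norm_num) (by norm_num) (by norm_num) (by norm_num) (by norm_num) (by norm_num) (by norm_num) (by norm_num) (by norm_num) (by norm_num) (by norm_num) (by norm_num) (by norm_num) (by norm_num) (by norm_num) (by norm_num)
    (cube_sqrt_geJ (s := 0.8218) (by norm_num) (by norm_num) (by norm_num) (by norm_num))
    (cube_sqrt_geJ (s := 0.9384) (by norm_num) (by norm_num) (by norm_num) (by norm_num))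
    (by norm_num) (by norm_num) (by norm_num) (by norm_num) (by norm_num) (by norm_num) (by norm_num) (by norm_num) (by norm_num) (by norm_num) (by norm_num) (by norm_num) (by norm_num) (by norm_num) (by norm_num) (by norm_num) (by norm_num) (by norm_num)
    (exp_neg_leJ (r := 0.644) 8 (by norm_num) (by norm_num) (by norm_num) (by norm_num))
    (exp_neg_leJ (r := 0.838) 5 (by norm_num) (by norm_num) (by norm_num) (by norm_num))
    (exp_neg_leJ (r := 0.327) 13 (by norm_num) (by norm_num) (by norm_num) (by norm_num))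
    (exp_neg_leJ (r := 0.99) 14 (by norm_num) (by norm_num) (by norm_num) (by norm_num))
    (exp_neg_leJ (r := 0.566) 7 (by norm_num) (by norm_num) (by norm_num) (by norm_num))
    (exp_neg_leJ (r := 0.99) 14 (by norm_num) (by norm_num) (by norm_num) (by norm_num))
    (exp_neg_leJ (r := 0.99) 14 (by norm_num) (by norm_num) (by norm_num) (by norm_num))
    (exp_neg_leJ (r := 0.99) 14 (by norm_num) (by norm_num) (by norm_num) (by norm_num))
    (by norm_num)) (by norm_num) hN hβ.le (by norm_num)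

private theorem T3_02_d0_2_c1 {κ t β : ℝ} (h : DomR κ t) (hβ : 0 < β) (hk1 : 0.35 ≤ κ) (hk2 : κ ≤ 0.36)
    (ht1 : -0.8824 ≤ t + κ) (ht2 : t + κ ≤ -0.71239) (hR0 : β * 10 ≤ κ) (hR : β * (1 * (1 + κ ^ 2)) ≤ κ) :
    ∀ s : ℂ, ‖s - sg κ t‖ ≤ 0.05 → ‖HH β s - 1‖ ≤ 0.13 := by
  have hN : β * 27.777 ≤ 1 := bNR hβ h.1 hk2 hR0 (by norm_num)
  have hy1 : -0.434 ≤ sy κ t := syL_ang2 h 0.35 0.36 0.8824 0.896 0.6247 0.781 0.434 1.54341 0.64791 hk1 hk2 (by linarith) (by norm_num) (by norm_num) (by norm_num) (by norm_num)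
    (cos_ge_num (by norm_num) (by norm_num)) (sin_le_num (by norm_num) (by norm_num))
    (expn_ge (by norm_num) (by norm_num)) (expm_ge (by norm_num) (by norm_num) (by norm_num) (by norm_num)) (by norm_num) (by norm_num) (by norm_num)
    (by norm_num) (by norm_num) (by norm_num)
  have hy2 : sy κ t ≤ -0.299 := syL_le h 0.35 0.36 0.71239 0.299 0.74155 0.74156 0.61589 0.63351 hk1 hk2 (by linarith) (by norm_num) (by norm_num) (by norm_num)
    (expm_ge (by norm_num) (by norm_num) (by norm_num) (by norm_num)) (expm_le (by norm_num) (by norm_num) (by norm_num)) (by norm_num)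
    (by norm_num) (by norm_num) (by norm_num) (by norm_num) (by norm_num) (by norm_num)
  intro s hs
  have hs' : ‖s - ((sx κ t : ℂ) + (sy κ t : ℂ) * I)‖ ≤ 0.05 := hs
  obtain ⟨es, ⟨s1, s2⟩, ⟨s3, s4⟩⟩ := disc_split hs'
  rcases le_total (sy κ t) (-0.424) with f0 | g0
  · have hx1 : 0.3125 ≤ sx κ t := sx_lo h 0.35 (-0.424) 0.434 1.52806 0.3125 hk1 (by norm_num) f0 (abs_le.2 ⟨by linarith, by linarith⟩) (by rw [neg_neg]; exact expn_ge (by norm_num) (by norm_num)) (by norm_num) (by norm_num)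
    have hx2 : sx κ t ≤ 0.3591 := sx_hi h 0.36 (-0.434) 0.424 1.54342 0.3591 hk2 hy1 (by norm_num) (by rw [abs_of_nonpos (by linarith)]; linarith) (by rw [neg_neg]; exact expn_le (by norm_num) (by norm_num) (by norm_num)) (by norm_num) (by norm_num)
    rw [es]
    exact T3_02_d0_2_b1_0 hβ hN (by linarith) (by linarith) (by linarith) (by linarith)
  rcases le_total (sy κ t) (-0.399) with f1 | g1
  · have hx1 : 0.3038 ≤ sx κ t := sx_lo h 0.35 (-0.399) 0.424 1.49033 0.3038 hk1 (by norm_num) f1 (abs_le.2 ⟨by linarith, by linarith⟩) (by rw [neg_neg]; exact expn_ge (by norm_num) (by norm_num)) (by norm_num) (by norm_num)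
    have hx2 : sx κ t ≤ 0.3788 := sx_hi h 0.36 (-0.424) 0.399 1.52807 0.3788 hk2 g0 (by norm_num) (by rw [abs_of_nonpos (by linarith)]; linarith) (by rw [neg_neg]; exact expn_le (by norm_num) (by norm_num) (by norm_num)) (by norm_num) (by norm_num)
    rw [es]
    exact T3_02_d0_2_b1_1 hβ hN (by linarith) (by linarith) (by linarith) (by linarith)
  rcases le_total (sy κ t) (-0.344) with f2 | g2
  · have hx1 : 0.2907 ≤ sx κ t := sx_lo h 0.35 (-0.344) 0.399 1.41057 0.2907 hk1 (by norm_num) f2 (abs_le.2 ⟨by linarith, by linarith⟩) (by rw [neg_neg]; exact expn_ge (by norm_num) (by norm_num)) (by norm_num) (by norm_num)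
    have hx2 : sx κ t ≤ 0.4118 := sx_hi h 0.36 (-0.399) 0.344 1.49034 0.4118 hk2 g1 (by norm_num) (by rw [abs_of_nonpos (by linarith)]; linarith) (by rw [neg_neg]; exact expn_le (by norm_num) (by norm_num) (by norm_num)) (by norm_num) (by norm_num)
    rw [es]
    exact T3_02_d0_2_b1_2 hβ hN (by linarith) (by linarith) (by linarith) (by linarith)
  have hx1 : 0.3231 ≤ sx κ t := sx_lo h 0.35 (-0.299) 0.344 1.3485 0.3231 hk1 (by norm_num) hy2 (abs_le.2 ⟨by linarith, by linarith⟩) (by rw [neg_neg]; exact expn_ge (by norm_num) (by norm_num)) (by norm_num) (by norm_num)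
  have hx2 : sx κ t ≤ 0.4105 := sx_hi h 0.36 (-0.344) 0.299 1.41058 0.4105 hk2 g2 (by norm_num) (by rw [abs_of_nonpos (by linarith)]; linarith) (by rw [neg_neg]; exact expn_le (by norm_num) (by norm_num) (by norm_num)) (by norm_num) (by norm_num)
  rw [es]
  exact T3_02_d0_2_b1_3 hβ hN (by linarith) (by linarith) (by linarith) (by linarith)

theorem T3_02_d0_2 {κ t β : ℝ} (h : DomR κ t) (hβ : 0 < β) (hk1 : 0.33 ≤ κ) (hk2 : κ ≤ 0.36)
    (ht1 : -0.8824 ≤ t + κ) (ht2 : t + κ ≤ -0.71239) (hR0 : β * 10 ≤ κ) (hR : β * (1 * (1 + κ ^ 2)) ≤ κ) :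
    ∀ s : ℂ, ‖s - sg κ t‖ ≤ 0.05 → ‖HH β s - 1‖ ≤ 0.13 := by
  rcases le_total κ 0.35 with f0 | g0
  · exact T3_02_d0_2_c0 h hβ hk1 f0 ht1 ht2 hR0 hR
  exact T3_02_d0_2_c1 h hβ g0 hk2 ht1 ht2 hR0 hR

private theorem T3_02_d1_2_b0_0 {β x y : ℝ} (hβ : 0 < β) (hN : β * 27.777 ≤ 1) (hn : ‖(x + y * I : ℂ)‖ ≤ 0.371) : ‖HH β (x + y * I) - 1‖ ≤ 0.04 := by
  refine le_epsJ (C := 0.7993) (N0 := 27.777) (J45_genN (N := 27.777) (r0 := 5.2704) (f := 2.5667) (n0 := 0.371) (a := 0.629) (wL := 1.748) (wR := 2.134)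
    (E1 := 0.007413) (E2 := 0.000001148) (E3 := 0.02704) (E4 := 0.00001748) (E5 := 0.0000003101) hβ (by norm_num) hN
    (by norm_num) (by norm_num) (by norm_num) hn (by norm_num) (by norm_num) (by norm_num)
    (cube_sqrt_geJ (s := 0.9233) (by norm_num) (by norm_num) (by norm_num) (by norm_num))
    (cube_sqrt_geJ (s := 0.8974) (by norm_num) (by norm_num) (by norm_num) (by norm_num))
    (exp_neg_leJ (r := 0.907) 4 (by norm_num) (by norm_num) (by norm_num) (by norm_num))
    (exp_neg_leJ (r := 0.679) 13 (by norm_num) (by norm_num) (by norm_num) (by norm_num))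
    (exp_neg_leJ (r := 0.611) 3 (by norm_num) (by norm_num) (by norm_num) (by norm_num))
    (exp_neg_leJ (r := 0.958) 10 (by norm_num) (by norm_num) (by norm_num) (by norm_num))
    (exp_neg_leJ (r := 0.99) 14 (by norm_num) (by norm_num) (by norm_num) (by norm_num))
    (by norm_num)) (by norm_num) hN hβ.le (by norm_num)

private theorem T3_02_d1_2_c0 {κ t β : ℝ} (h : DomR κ t) (hβ : 0 < β) (hk1 : 0.33 ≤ κ) (hk2 : κ ≤ 0.36)
    (ht1 : 1.212 ≤ t + κ) (ht2 : t + κ ≤ 1.382) (hR0 : β * 10 ≤ κ) (hR : β * (1 * (1 + κ ^ 2)) ≤ κ) :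
    ∀ s : ℂ, ‖s - sg κ t‖ ≤ 0.08 → ‖HH β s - 1‖ ≤ 0.04 := by
  have hN : β * 27.777 ≤ 1 := bNR hβ h.1 hk2 hR0 (by norm_num)
  have hy1 : 0.213 ≤ sy κ t := syR_ge h 0.33 0.36 1.212 0.213 1.23738 1.23739 0.73211 0.79868 hk1 hk2 (by linarith) (by norm_num) (by norm_num)
    (expn_ge (by norm_num) (by norm_num)) (expn_le (by norm_num) (by norm_num) (by norm_num)) (by norm_num)
    (by norm_num) (by norm_num) (by norm_num) (by norm_num) (by norm_num) (by norm_num)
  have hy2 : sy κ t ≤ 0.256 := syR_ang2 h 0.33 0.36 1.382 1.162 0.4009 0.9182 0.256 0.77415 1.29175 hk1 hk2 (by linarith) (by norm_num) (by norm_num) (by norm_num)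
    (cos_le_num (by norm_num)) (sin_le_num (by norm_num) (by norm_num)) (expm_le (by norm_num) (by norm_num) (by norm_num))
    (expn_ge (by norm_num) (by norm_num)) (by norm_num) (by norm_num) (by norm_num) (by norm_num) (by norm_num)
  intro s hs
  have hs' : ‖s - ((sx κ t : ℂ) + (sy κ t : ℂ) * I)‖ ≤ 0.08 := hs
  obtain ⟨es, ⟨s1, s2⟩, ⟨s3, s4⟩⟩ := disc_split hs'
  rw [es]
  refine T3_02_d1_2_b0_0 hβ hN ?_
  rw [← es]
  exact disc_norm hs' (norm_sg_le h 0.36 0.213 0.80816 (0.371 - 0.08) hk2 hy1 (expm_le (by norm_num) (by norm_num) (by norm_num)) (by norm_num))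

theorem T3_02_d1_2 {κ t β : ℝ} (h : DomR κ t) (hβ : 0 < β) (hk1 : 0.33 ≤ κ) (hk2 : κ ≤ 0.36)
    (ht1 : 1.212 ≤ t + κ) (ht2 : t + κ ≤ 1.382) (hR0 : β * 10 ≤ κ) (hR : β * (1 * (1 + κ ^ 2)) ≤ κ) :
    ∀ s : ℂ, ‖s - sg κ t‖ ≤ 0.08 → ‖HH β s - 1‖ ≤ 0.04 := by
  exact T3_02_d1_2_c0 h hβ hk1 hk2 ht1 ht2 hR0 hR

end Sok
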