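import Pool.Agent.Lib.MP_816dec_an.R1b3D
import Pool.Agent.Lib.MP_816dec_an.R1b3J02

/-!
MP_816dec_an (A3, row R1, b = 3): the cell `0.33 ≤ κ ≤ 0.36`.
-/

set_option autoImplicit false
set_option maxHeartbeats 4000000
set_option linter.unusedVariables false

open Complex Set

namespace Sok

namespace B3_02

private theorem yL {κ t : ℝ} (h : DomR κ t) (hk1 : 0.33 ≤ κ) (hk2 : κ ≤ 0.36) (ht1 : 0 ≤ t + κ) (ht2 : t + κ ≤ 1.112) :
    0 ≤ sy κ t ∧ sy κ t ≤ 0.231 := by
  have hy1 : 0 ≤ sy κ t := sy_nonneg h (by linarith)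
  have hy2 : sy κ t ≤ 0.231 := syR_ang2 h 0.33 0.36 1.112 0.941 0.59 0.8083 0.231 0.79374 1.25985 hk1 hk2 (by linarith) (by norm_num) (by norm_num) (by norm_num)
    (cos_le_num (by norm_num)) (sin_le_num (by norm_num) (by norm_num)) (expm_le (by norm_num) (by norm_num) (by norm_num))
    (expn_ge (by norm_num) (by norm_num)) (by norm_num) (by norm_num) (by norm_num) (by norm_num) (by norm_num)
  exact ⟨hy1, hy2⟩

theorem left {β r h t κ : ℝ} (hh : h = 2 * Real.pi / (3 : ℕ)) (hβ : 0 < β) (hr : 10 ≤ r) (hκ : κ = β * r)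
    (hk1 : 0.33 ≤ κ) (hk2 : κ ≤ 0.36) (hT1 : 0 ≤ t + κ) (hT2 : t + κ ≤ 1.112) :
    ‖Xf β r h t (-1)‖ < |‖Xf β r h t 1‖ - ‖Xf β r h t 0‖| := by
  obtain ⟨q1, q2, q3⟩ := b3_h hh
  have hR0 := b3_R0 hβ hr hκ
  have hR := b3_R hβ hr hκ (by linarith)
  have hD1 : DomR κ t := b3_dom (by linarith) (by linarith) (Or.inr (by linarith))
  have hy := yL hD1 hk1 hk2 (by linarith) (by linarith)
  have hY : 0.8836 * Real.exp (r * 0.57857) ≤ ‖Xf β r h t 1‖ :=
    b3_lo hβ hr hκ (k := 1) (t' := t) (by push_cast; ring) hD1 0.015 1.5437 0.8836 0.57857 (by norm_num)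
      (T3_02_p1 hD1 hβ hk1 hk2 (by linarith) (by linarith) hR0 hR)
      (v5_Dup hD1 0.36 0 0.231 1 0.79374 1.5437 hk2 hy.1 hy.2 (ex_up 0 (by norm_num) (by norm_num) (by norm_num) (by norm_num)) (ex_um 0.231 (by norm_num) (by norm_num) (by norm_num) (by norm_num)) (by norm_num) (by norm_num) (by norm_num)) (by norm_num) (by norm_num)
      (b3_Vlo hD1 0.33 0.36 0 1.112 0.48 (-0.73396) 0.9404 0.58944 0.52859 0.57857 hk1 hk2 (by linarith) (by linarith) (by norm_num) (ex_lm 0.73396 (by norm_num) (by norm_num) (by norm_num) (by norm_num) (by norm_num)) (by norm_num) (by norm_num) (by norm_num) (by norm_num) (by norm_num) (by norm_num) (by norm_num) (by norm_num) (ex_um 0.52859 (by norm_num) (by norm_num) (by norm_num) (by norm_num)) (by norm_num))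
  have h0 : ‖Xf β r h t 0‖ ≤ 0.9107 * ‖Xf β r h t 1‖ :=
    b3_cmp 0.2726 0.13002 0.08479 0.2469 0.682025 0.228625 0.9107 hr (b3_HU0 1.09 0.33 0.36 (-2.0944) (-0.98239) 1.51935 1.4329 1.48053 0.69789 0.67544 1.43289 2.2107 0.0757 1.33207 2.2576 0.25841 0.33167 0.000001 2.3825 0.44855 hβ hr hκ (by norm_num) hk1 hk2 (by norm_num) (by linarith) (by linarith) (by norm_num) (by norm_num) (ex_up 0.3597 (by norm_num) (by norm_num) (by norm_num) (by norm_num)) (ex_up 0.3924 (by norm_num) (by norm_num) (by norm_num) (by norm_num)) (ex_um 0.3597 (by norm_num) (by norm_num) (by norm_num) (by norm_num)) (ex_um 0.3924 (by norm_num) (by norm_num) (by norm_num) (by norm_num)) (by norm_num) (by norm_num) (ex_lp 0.3597 (by norm_num) (by norm_num) (by norm_num)) (by norm_num) (by norm_num) (by norm_num) (by norm_num) (by norm_num) (by norm_num) (by norm_num) (by norm_num) (by norm_num) (by norm_num) (by norm_num) (by norm_num) (by norm_num) (by norm_num) (v5_hump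 6.0243 27.777 5.2704 0.0000003148 0.000001 hβ hr hκ hk1 hk2 (by norm_num) (tb := (-0.98239)) (by linarith) (by norm_num) (by norm_num) (by norm_num) (by norm_num) (by norm_num) (by norm_num) (by norm_num) (ex_un 14 0.99 (by norm_num) (by norm_num) (by norm_num) (by norm_num)) (by norm_num)) (by norm_num) (by norm_num)) hY (by norm_num) (by norm_num) (by norm_num) (by norm_num) (by norm_num) (ex_un 1 0.3002 (by norm_num) (by norm_num) (by norm_num) (by norm_num)) (by norm_num) (by norm_num) (by norm_num) (ex_un 2 0.469 (by norm_num) (by norm_num) (by norm_num) (by norm_num)) (by norm_num) (by norm_num)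
  have h2 : ‖Xf β r h t (-1)‖ ≤ 0.0065 * ‖Xf β r h t 1‖ := by
    exact b3_cmp 1 0 0.005065 0.52857 0 0.006418 0.0065 hr ((b3_Xm hh).trans_le (b3_U1 0.33 0.36 2.09439 3.2064 0.16359 0.0757 1.33207 0.1623 0.12206 1.4073 0.000001 1.1196 hβ hr hκ (by norm_num) hk1 hk2 (by linarith) (by linarith) (by norm_num) (by norm_num) (by norm_num) (by norm_num) (by norm_num) (by norm_num) (by norm_num) (by norm_num) (by norm_num) (by norm_num) (by norm_num) (by norm_num) (by norm_num) (ex_un 1 0.623 (by norm_num) (by norm_num) (by norm_num) (by norm_num)) (v5_hump 1.8356 27.777 5.2704 0.0000003148 0.000001 hβ hr hκ hk1 hk2 (by norm_num) (tb := 3.2064) (by linarith) (by norm_num) (by norm_num) (by norm_num) (by norm_num) (by norm_num) (by norm_num) (by norm_num) (ex_un 14 0.99 (by norm_num) (by norm_num) (by norm_num) (by norm_num)) (by norm_num)) (by norm_num))) hY (by norm_num) (by norm_num) (by norm_num) (by norm_num) (by norm_num) (by norm_num) (by norm_num)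 (by norm_num) (by norm_num) (ex_un 5 0.2857 (by norm_num) (by norm_num) (by norm_num) (by norm_num)) (by norm_num) (by norm_num)
  exact b3_out1 0.9107 0.0065 hY (by norm_num) h0 h2 (by norm_num)

private theorem yR0 {κ t : ℝ} (h : DomR κ t) (hk1 : 0.33 ≤ κ) (hk2 : κ ≤ 0.36) (ht1 : -0.7124 ≤ t + κ) (ht2 : t + κ ≤ 0.0001) :
    (-0.317) ≤ sy κ t ∧ sy κ t ≤ 0.005 := by
  have hy1 : -0.317 ≤ sy κ t := syL_ang2 h 0.33 0.36 0.7124 0.696 0.7674 0.6412 0.317 1.373 0.72833 hk1 hk2 (by linarith) (by norm_num) (by norm_num) (by norm_num) (by norm_num)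
    (cos_ge_num (by norm_num) (by norm_num)) (sin_le_num (by norm_num) (by norm_num))
    (expn_ge (by norm_num) (by norm_num)) (expm_ge (by norm_num) (by norm_num) (by norm_num) (by norm_num)) (by norm_num) (by norm_num) (by norm_num)
    (by norm_num) (by norm_num) (by norm_num)
  have hy2 : sy κ t ≤ 0.005 := syR_le h 0.33 0.36 0.0001 0.005 1.00501 0.0136 0.01395 0.01523 hk1 hk2 (by linarith) (by norm_num) (by norm_num)
    (expn_ge (by norm_num) (by norm_num)) (by norm_num) (by norm_num) (Or.inr ((mul_le_mul_of_nonneg_left (expn_le (E := 1.00502) (by norm_num) (by norm_num) (by norm_num)) (by norm_num)).trans (by norm_num))) (by norm_num) (by norm_num) (by norm_num)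
  exact ⟨hy1, hy2⟩

theorem right0 {β r h t κ : ℝ} (hh : h = 2 * Real.pi / (3 : ℕ)) (hβ : 0 < β) (hr : 10 ≤ r) (hκ : κ = β * r)
    (hk1 : 0.33 ≤ κ) (hk2 : κ ≤ 0.36) (hT1 : 1.382 ≤ t + κ) (hT2 : t + κ ≤ h) :
    ‖Xf β r h t (-1)‖ < |‖Xf β r h t 1‖ - ‖Xf β r h t 0‖| := by
  obtain ⟨q1, q2, q3⟩ := b3_h hh
  have hR0 := b3_R0 hβ hr hκ
  have hR := b3_R hβ hr hκ (by linarith)
  have hD0 : DomR κ (t - h) := b3_dom (by linarith) (by linarith) (Or.inr (by linarith))
  have hy := yR0 hD0 hk1 hk2 (by linarith) (by linarith)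
  have hY : 0.939 * Real.exp (r * 0.72134) ≤ ‖Xf β r h t 0‖ :=
    b3_lo hβ hr hκ (k := 0) (t' := t - h) (by push_cast; ring) hD0 0.03 1.1384 0.939 0.72134 (by norm_num)
      (T3_02_p0R hD0 hβ hk1 hk2 (by linarith) (by linarith) hR0 hR)
      (v5_Dup hD0 0.36 (-0.317) 0.005 1.37301 0.99502 1.1384 hk2 hy.1 hy.2 (ex_up 0.317 (by norm_num) (by norm_num) (by norm_num) (by norm_num)) (ex_um 0.005 (by norm_num) (by norm_num) (by norm_num) (by norm_num)) (by norm_num) (by norm_num) (by norm_num)) (by norm_num) (by norm_num)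
      (b3_Vlo hD0 0.33 0.36 (-0.7124) 0.0001 1.01 0.00996 0.7091 0.75894 0.27584 0.72134 hk1 hk2 (by linarith) (by linarith) (by norm_num) (ex_lp 0.00996 (by norm_num) (by norm_num) (by norm_num)) (by norm_num) (by norm_num) (by norm_num) (by norm_num) (by norm_num) (by norm_num) (by norm_num) (by norm_num) (ex_um 0.27584 (by norm_num) (by norm_num) (by norm_num) (by norm_num)) (by norm_num))
  have h1 : ‖Xf β r h t 1‖ ≤ 0.1745 * ‖Xf β r h t 0‖ := by
    rcases le_total (t + κ) 1.7 with g0 | g0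
    · exact b3_cmp 0.04964 0.30031 0.0007368 0.72134 0.174338 0.000083 0.1745 hr (b3_X1.trans_le (b3_HF 0.64 0.33 0.36 1.382 1.7 1.30551 0.80962 0.79422 1.23516 1.25911 0.79421 3.109 0.0757 2.5927 0.2007 0.06979 0.5005 0.000001 3.2978 0.1049 0.42103 hβ hr hκ (by norm_num) hk1 hk2 (by norm_num) (by linarith) (by linarith) (by norm_num) (ex_um 0.2112 (by norm_num) (by norm_num) (by norm_num) (by norm_num)) (ex_um 0.2304 (by norm_num) (by norm_num) (by norm_num) (by norm_num)) (ex_up 0.2112 (by norm_num) (by norm_num) (by norm_num) (by norm_num)) (ex_up 0.2304 (by norm_num) (by norm_num) (by norm_num) (by norm_num)) (by norm_num) (by norm_num) (ex_lm 0.2304 (by norm_num) (by norm_num) (by norm_num) (by norm_num) (by norm_num)) (by norm_num) (by norm_num) (by norm_num) (by norm_num) (by norm_num) (by norm_num) (by norm_num) (by norm_num) (by norm_num) (by norm_num) (by norm_num) (by norm_num) (ex_un 0 0.6979 (by norm_num) (by norm_num) (by norm_num)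 (by norm_num)) (v5_hump 3.342 27.777 5.2704 0.0000003148 0.000001 hβ hr hκ hk1 hk2 (by norm_num) (tb := 1.7) (by linarith) (by norm_num) (by norm_num) (by norm_num) (by norm_num) (by norm_num) (by norm_num) (by norm_num) (ex_un 14 0.99 (by norm_num) (by norm_num) (by norm_num) (by norm_num)) (by norm_num)) (by norm_num) (by norm_num) (by norm_num))) hY (by norm_num) (by norm_num) (by norm_num) (by norm_num) (by norm_num) (ex_un 3 0.0031 (by norm_num) (by norm_num) (by norm_num) (by norm_num)) (by norm_num) (by norm_num) (by norm_num) (ex_un 7 0.2134 (by norm_num) (by norm_num) (by norm_num) (by norm_num)) (by norm_num) (by norm_num)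
    exact b3_cmp 1 0 0.0148 0.42134 0 0.094719 0.1745 hr (b3_w (b3_UD1 0.33 0.36 1.7 2.0944 0.25 0.69448 0.25 3.133 6.0095 0.3 hβ hr hκ (by norm_num) hk1 hk2 (by linarith) (by linarith) (by norm_num) (by norm_num) (by norm_num) (by norm_num) (by norm_num) (by norm_num) (by norm_num) (by norm_num) (by norm_num) (by norm_num) (by norm_num) (by norm_num) (by norm_num))) hY (by norm_num) (by norm_num) (by norm_num) (by norm_num) (by norm_num) (by norm_num) (by norm_num) (by norm_num) (by norm_num) (ex_un 4 0.2134 (by norm_num) (by norm_num) (by norm_num) (by norm_num)) (by norm_num) (by norm_num)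
  have h2 : ‖Xf β r h t (-1)‖ ≤ 0.0008 * ‖Xf β r h t 0‖ := by
    exact b3_cmp 1 0 0.001223 0.67134 0 0.000708 0.0008 hr ((b3_Xm hh).trans_le (b3_U1 0.33 0.36 3.47639 4.1888 1.54559 0.0757 1.33207 0.7535 0.00008 0.7173 0.000001 0.5433 hβ hr hκ (by norm_num) hk1 hk2 (by linarith) (by linarith) (by norm_num) (by norm_num) (by norm_num) (by norm_num) (by norm_num) (by norm_num) (by norm_num) (by norm_num) (by norm_num) (by norm_num) (by norm_num) (by norm_num) (by norm_num) (ex_un 7 0.535 (by norm_num) (by norm_num) (by norm_num) (by norm_num)) (v5_hump 0.8532 27.777 5.2704 0.0000003148 0.000001 hβ hr hκ hk1 hk2 (by norm_num) (tb := 4.1888) (by linarith) (by norm_num) (by norm_num) (by norm_num) (by norm_num) (by norm_num) (by norm_num) (by norm_num) (ex_un 14 0.99 (by norm_num) (by norm_num) (by norm_num) (by norm_num)) (by norm_num)) (by norm_num))) hY (by norm_num) (by norm_num) (by norm_num) (by norm_num) (by norm_num) (by norm_num) (by norm_num)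 (by norm_num) (by norm_num) (ex_un 6 0.7134 (by norm_num) (by norm_num) (by norm_num) (by norm_num)) (by norm_num) (by norm_num)
  exact b3_out0 0.1745 0.0008 hY (by norm_num) h1 h2 (by norm_num)

private theorem yI {κ t : ℝ} (h : DomR κ t) (hk1 : 0.33 ≤ κ) (hk2 : κ ≤ 0.36) (ht1 : -0.9824 ≤ t + κ) (ht2 : t + κ ≤ -0.71239) :
    (-0.52) ≤ sy κ t ∧ sy κ t ≤ (-0.28) := by
  have hy1 : -0.52 ≤ sy κ t := syL_ang2 h 0.33 0.36 0.9824 1.032 0.513 0.8586 0.52 1.68202 0.59452 hk1 hk2 (by linarith) (by norm_num) (by norm_num) (by norm_num) (by norm_num)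
    (cos_ge_num (by norm_num) (by norm_num)) (sin_le_num (by norm_num) (by norm_num))
    (expn_ge (by norm_num) (by norm_num)) (expm_ge (by norm_num) (by norm_num) (by norm_num) (by norm_num)) (by norm_num) (by norm_num) (by norm_num)
    (by norm_num) (by norm_num) (by norm_num)
  have hy2 : sy κ t ≤ -0.28 := syL_le h 0.33 0.36 0.71239 0.28 0.75578 0.75579 0.58782 0.64128 hk1 hk2 (by linarith) (by norm_num) (by norm_num) (by norm_num)
    (expm_ge (by norm_num) (by norm_num) (by norm_num) (by norm_num)) (expm_le (by norm_num) (by norm_num) (by norm_num)) (by norm_num)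
    (by norm_num) (by norm_num) (by norm_num) (by norm_num) (by norm_num) (by norm_num)
  exact ⟨hy1, hy2⟩

theorem innE {β r h t κ : ℝ} (hh : h = 2 * Real.pi / (3 : ℕ)) (hβ : 0 < β) (hr : 10 ≤ r) (hκ : κ = β * r)
    (hk1 : 0.33 ≤ κ) (hk2 : κ ≤ 0.36) (hT1 : 1.112 ≤ t + κ) (hT2 : t + κ ≤ 1.382) :
    ‖Xf β r h t (-1)‖ ≤ 0.01508 * ‖Xf β r h t 0‖ ∧ ‖Xf β r h (t + β) (-1)‖ ≤ 0.01508 * ‖Xf β r h t 0‖ := by
  obtain ⟨q1, q2, q3⟩ := b3_h hh
  have hR0 := b3_R0 hβ hr hκ
  have hR := b3_R hβ hr hκ (by linarith)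
  have hD0 : DomR κ (t - h) := b3_dom (by linarith) (by linarith) (Or.inr (by linarith))
  have hy := yI hD0 hk1 hk2 (by linarith) (by linarith)
  have hY : 0.9627 * Real.exp (r * 0.41462) ≤ ‖Xf β r h t 0‖ :=
    b3_lo hβ hr hκ (k := 0) (t' := t - h) (by push_cast; ring) hD0 0.13 0.6669 0.9627 0.41462 (by norm_num)
      (T3_02_p0 hD0 hβ hk1 hk2 (by linarith) (by linarith) hR0 hR)
      (v5_Dup hD0 0.36 (-0.52) (-0.28) 1.68203 1.32313 0.6669 hk2 hy.1 hy.2 (ex_up 0.52 (by norm_num) (by norm_num) (by norm_num) (by norm_num)) (ex_up 0.28 (by norm_num) (by norm_num) (by norm_num) (by norm_num)) (by norm_num) (by norm_num) (by norm_num)) (by norm_num) (by norm_num)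
      (b3_Vlo hD0 0.33 0.36 (-0.9824) (-0.71239) 0.86 (-0.15082) 1.0328 0.51238 0.6687 0.41462 hk1 hk2 (by linarith) (by linarith) (by norm_num) (ex_lm 0.15082 (by norm_num) (by norm_num) (by norm_num) (by norm_num) (by norm_num)) (by norm_num) (by norm_num) (by norm_num) (by norm_num) (by norm_num) (by norm_num) (by norm_num) (by norm_num) (ex_um 0.6687 (by norm_num) (by norm_num) (by norm_num) (by norm_num)) (by norm_num))
  constructor
  · exact b3_cmp 1 0 0.02621 0.36462 0 0.015073 0.01508 hr ((b3_Xm hh).trans_le (b3_U1 0.33 0.36 3.20639 3.4764 1.27559 0.0757 1.33207 0.9567 0.00001 0.2953 0.000001 0.5536 hβ hr hκ (by norm_num) hk1 hk2 (by linarith) (by linarith) (by norm_num) (by norm_num) (by norm_num) (by norm_num) (by norm_num) (by norm_num) (by norm_num) (by norm_num) (by norm_num) (by norm_num) (by norm_num) (by norm_num) (by norm_num) (ex_un 9 0.567 (by norm_num) (by norm_num) (by norm_num) (by norm_num)) (v5_hump 1.5656 27.777 5.2704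 0.0000003148 0.000001 hβ hr hκ hk1 hk2 (by norm_num) (tb := 3.4764) (by linarith) (by norm_num) (by norm_num) (by norm_num) (by norm_num) (by norm_num) (by norm_num) (by norm_num) (ex_un 14 0.99 (by norm_num) (by norm_num) (by norm_num) (by norm_num)) (by norm_num)) (by norm_num))) hY (by norm_num) (by norm_num) (by norm_num) (by norm_num) (by norm_num) (by norm_num) (by norm_num) (by norm_num) (by norm_num) (ex_un 3 0.6462 (by norm_num) (by norm_num) (by norm_num) (by norm_num)) (by norm_num) (by norm_num)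
  · exact b3_cmp 1 0 0.02621 0.36462 0 0.015073 0.01508 hr ((b3_Xm hh).trans_le (b3_U1 0.33 0.36 3.20639 3.5124 1.27559 0.0757 1.33207 0.9567 0.00001 0.2953 0.000001 0.5536 hβ hr hκ (by norm_num) hk1 hk2 (by linarith) (by linarith) (by norm_num) (by norm_num) (by norm_num) (by norm_num) (by norm_num) (by norm_num) (by norm_num) (by norm_num) (by norm_num) (by norm_num) (by norm_num) (by norm_num) (by norm_num) (ex_un 9 0.567 (by norm_num) (by norm_num) (by norm_num) (by norm_num)) (v5_hump 1.5296 27.777 5.2704 0.0000003148 0.000001 hβ hr hκ hk1 hk2 (by norm_num) (tb := 3.5124) (by linarith) (by norm_num) (by norm_num) (by norm_num) (by norm_num) (by norm_num) (by norm_num) (by norm_num) (ex_un 14 0.99 (by norm_num) (by norm_num) (by norm_num) (by norm_num)) (by norm_num)) (by norm_num))) hY (by norm_num) (by norm_num) (by norm_num) (by norm_num) (by norm_num) (by norm_num) (by norm_num) (by norm_num) (by norm_num) (ex_un 3 0.6462 (by norm_num)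 (by norm_num) (by norm_num) (by norm_num)) (by norm_num) (by norm_num)

private theorem yA0 {κ t : ℝ} (h : DomR κ t) (hk1 : 0.33 ≤ κ) (hk2 : κ ≤ 0.36) (ht1 : 1.112 ≤ t + κ) (ht2 : t + κ ≤ 1.127) :
    0.213 ≤ sy κ t ∧ sy κ t ≤ 0.233 := by
  have hy1 : 0.213 ≤ sy κ t := syR_ge h 0.33 0.36 1.112 0.213 1.23738 1.23739 0.73211 0.79868 hk1 hk2 (by linarith) (by norm_num) (by norm_num)
    (expn_ge (by norm_num) (by norm_num)) (expn_le (by norm_num) (by norm_num) (by norm_num)) (by norm_num)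
    (by norm_num) (by norm_num) (by norm_num) (by norm_num) (by norm_num) (by norm_num)
  have hy2 : sy κ t ≤ 0.233 := syR_ang2 h 0.33 0.36 1.127 0.955 0.5787 0.8165 0.233 0.79216 1.26238 hk1 hk2 (by linarith) (by norm_num) (by norm_num) (by norm_num)
    (cos_le_num (by norm_num)) (sin_le_num (by norm_num) (by norm_num)) (expm_le (by norm_num) (by norm_num) (by norm_num))
    (expn_ge (by norm_num) (by norm_num)) (by norm_num) (by norm_num) (by norm_num) (by norm_num) (by norm_num)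
  exact ⟨hy1, hy2⟩

private theorem yB0 {κ t : ℝ} (h : DomR κ t) (hk1 : 0.33 ≤ κ) (hk2 : κ ≤ 0.36) (ht1 : -0.9824 ≤ t + κ) (ht2 : t + κ ≤ -0.96739) :
    (-0.52) ≤ sy κ t ∧ sy κ t ≤ (-0.389) := by
  have hy1 : -0.52 ≤ sy κ t := syL_ang2 h 0.33 0.36 0.9824 1.032 0.513 0.8586 0.52 1.68202 0.59452 hk1 hk2 (by linarith) (by norm_num) (by norm_num) (by norm_num) (by norm_num)
    (cos_ge_num (by norm_num) (by norm_num)) (sin_le_num (by norm_num) (by norm_num))
    (expn_ge (by norm_num) (by norm_num)) (expm_ge (by norm_num) (by norm_num) (by norm_num) (by norm_num)) (by norm_num) (by norm_num) (by norm_num)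
    (by norm_num) (by norm_num) (by norm_num)
  have hy2 : sy κ t ≤ -0.389 := syL_le h 0.33 0.36 0.96739 0.389 0.67773 0.67774 0.73232 0.79892 hk1 hk2 (by linarith) (by norm_num) (by norm_num) (by norm_num)
    (expm_ge (by norm_num) (by norm_num) (by norm_num) (by norm_num)) (expm_le (by norm_num) (by norm_num) (by norm_num)) (by norm_num)
    (by norm_num) (by norm_num) (by norm_num) (by norm_num) (by norm_num) (by norm_num)
  exact ⟨hy1, hy2⟩

theorem pc0 {β r h t κ : ℝ} (hh : h = 2 * Real.pi / (3 : ℕ)) (hβ : 0 < β) (hr : 10 ≤ r) (hκ : κ = β * r)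
    (hk1 : 0.33 ≤ κ) (hk2 : κ ≤ 0.36) (hT1 : 1.112 ≤ t + κ) (hT2 : t + κ ≤ 1.127) :
    Xf β r h t 0 ≠ 0 ∧ r * 0.1471 ≤ (Ld β r h t 1 - Ld β r h t 0).im ∧
      ‖(((-1 : ℤ) : ℂ) - 1) * Ld β r h t 0 - ((-1 : ℤ) : ℂ) * Ld β r h t 1‖ ≤ r * 7.01 := by
  obtain ⟨q1, q2, q3⟩ := b3_h hh
  have hR0 := b3_R0 hβ hr hκ
  have hR := b3_R hβ hr hκ (by linarith)
  have hD1 : DomR κ t := b3_dom (by linarith) (by linarith) (Or.inr (by linarith))
  have hD0 : DomR κ (t - h) := b3_dom (by linarith) (by linarith) (Or.inr (by linarith))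
  have y1 := yA0 hD1 hk1 hk2 (by linarith) (by linarith)
  have y0 := yB0 hD0 hk1 hk2 (by linarith) (by linarith)
  have j1 := T3_02_d1_0 hD1 hβ hk1 hk2 (by linarith) (by linarith) hR0 hR
  exact b3_piece 0.33 0.36 0.213 0.233 0.223 0.80011 0.80816 0.79216 0.291 1.4971 1.5474 0.03 0.015 0.015 0.5077 0.1208 0 0 (-0.52) (-0.389) (-0.455) 1.57617 1.68203 0.6056 0.2657 0.03 0.245 0.13 9.387 11.0286 1.7996 4.1018 0.1471 7.01
    hβ hr hκ (by norm_num) hk1 hk2 hD1 hD0 j1 (j1 _ (by rw [sub_self, norm_zero]; norm_num))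
    (T3_02_d0_0 hD0 hβ hk1 hk2 (by linarith) (by linarith) hR0 hR)
    (T3_02_p0 hD0 hβ hk1 hk2 (by linarith) (by linarith) hR0 hR)
    y1.1 y1.2 y0.1 y0.2 (by norm_num)
    (ex_um 0.213 (by norm_num) (by norm_num) (by norm_num) (by norm_num)) (ex_um 0.233 (by norm_num) (by norm_num) (by norm_num) (by norm_num)) (ex_lm 0.223 (by norm_num) (by norm_num) (by norm_num) (by norm_num) (by norm_num)) (by norm_num) (by norm_num) (by norm_num) (by norm_num) (by norm_num) (by norm_num) (by norm_num) (by norm_num)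
    (by norm_num) (by norm_num) (by norm_num) (by norm_num) (by norm_num) (by norm_num) (by norm_num) (by norm_num) (by norm_num) (by norm_num)
    (ex_up 0.52 (by norm_num) (by norm_num) (by norm_num) (by norm_num)) (ex_lp 0.455 (by norm_num) (by norm_num) (by norm_num)) (by norm_num) (by norm_num) (by norm_num) (by norm_num) (by norm_num) (by norm_num)
    (by norm_num) (by norm_num) (by norm_num) (by norm_num) (by norm_num) (by norm_num) (by norm_num) (by norm_num) (by norm_num) (by norm_num) (by norm_num)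
    (by norm_num) (by norm_num) (by norm_num) (by norm_num)

private theorem yA1 {κ t : ℝ} (h : DomR κ t) (hk1 : 0.33 ≤ κ) (hk2 : κ ≤ 0.36) (ht1 : 1.127 ≤ t + κ) (ht2 : t + κ ≤ 1.142) :
    0.213 ≤ sy κ t ∧ sy κ t ≤ 0.234 := by
  have hy1 : 0.213 ≤ sy κ t := syR_ge h 0.33 0.36 1.127 0.213 1.23738 1.23739 0.73211 0.79868 hk1 hk2 (by linarith) (by norm_num) (by norm_num)
    (expn_ge (by norm_num) (by norm_num)) (expn_le (by norm_num) (by norm_num) (by norm_num)) (by norm_num)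
    (by norm_num) (by norm_num) (by norm_num) (by norm_num) (by norm_num) (by norm_num)
  have hy2 : sy κ t ≤ 0.234 := syR_ang2 h 0.33 0.36 1.142 0.963 0.5722 0.8211 0.234 0.79137 1.26364 hk1 hk2 (by linarith) (by norm_num) (by norm_num) (by norm_num)
    (cos_le_num (by norm_num)) (sin_le_num (by norm_num) (by norm_num)) (expm_le (by norm_num) (by norm_num) (by norm_num))
    (expn_ge (by norm_num) (by norm_num)) (by norm_num) (by norm_num) (by norm_num) (by norm_num) (by norm_num)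
  exact ⟨hy1, hy2⟩

private theorem yB1 {κ t : ℝ} (h : DomR κ t) (hk1 : 0.33 ≤ κ) (hk2 : κ ≤ 0.36) (ht1 : -0.9674 ≤ t + κ) (ht2 : t + κ ≤ -0.95239) :
    (-0.506) ≤ sy κ t ∧ sy κ t ≤ (-0.389) := by
  have hy1 : -0.506 ≤ sy κ t := syL_ang2 h 0.33 0.36 0.9674 1.01 0.5318 0.8471 0.506 1.65864 0.6029 hk1 hk2 (by linarith) (by norm_num) (by norm_num) (by norm_num) (by norm_num)
    (cos_ge_num (by norm_num) (by norm_num)) (sin_le_num (by norm_num) (by norm_num))
    (expn_ge (by norm_num) (by norm_num)) (expm_ge (by norm_num) (by norm_num) (by norm_num) (by norm_num)) (by norm_num) (by norm_num) (by norm_num)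
    (by norm_num) (by norm_num) (by norm_num)
  have hy2 : sy κ t ≤ -0.389 := syL_le h 0.33 0.36 0.95239 0.389 0.67773 0.67774 0.73232 0.79892 hk1 hk2 (by linarith) (by norm_num) (by norm_num) (by norm_num)
    (expm_ge (by norm_num) (by norm_num) (by norm_num) (by norm_num)) (expm_le (by norm_num) (by norm_num) (by norm_num)) (by norm_num)
    (by norm_num) (by norm_num) (by norm_num) (by norm_num) (by norm_num) (by norm_num)
  exact ⟨hy1, hy2⟩

theorem pc1 {β r h t κ : ℝ} (hh : h = 2 * Real.pi / (3 : ℕ)) (hβ : 0 < β) (hr : 10 ≤ r) (hκ : κ = β * r)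
    (hk1 : 0.33 ≤ κ) (hk2 : κ ≤ 0.36) (hT1 : 1.127 ≤ t + κ) (hT2 : t + κ ≤ 1.142) :
    Xf β r h t 0 ≠ 0 ∧ r * 0.1471 ≤ (Ld β r h t 1 - Ld β r h t 0).im ∧
      ‖(((-1 : ℤ) : ℂ) - 1) * Ld β r h t 0 - ((-1 : ℤ) : ℂ) * Ld β r h t 1‖ ≤ r * 7.01 := by
  obtain ⟨q1, q2, q3⟩ := b3_h hh
  have hR0 := b3_R0 hβ hr hκ
  have hR := b3_R hβ hr hκ (by linarith)
  have hD1 : DomR κ t := b3_dom (by linarith) (by linarith) (Or.inr (by linarith))
  have hD0 : DomR κ (t - h) := b3_dom (by linarith) (by linarith) (Or.inr (by linarith))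
  have y1 := yA1 hD1 hk1 hk2 (by linarith) (by linarith)
  have y0 := yB1 hD0 hk1 hk2 (by linarith) (by linarith)
  have j1 := T3_02_d1_0 hD1 hβ hk1 hk2 (by linarith) (by linarith) hR0 hR
  exact b3_piece 0.33 0.36 0.213 0.234 0.224 0.79931 0.80816 0.79137 0.291 1.4971 1.5492 0.03 0.015 0.015 0.5077 0.1208 0 0 (-0.506) (-0.389) (-0.448) 1.56517 1.65865 0.5972 0.2857 0.03 0.245 0.13 9.387 10.488 1.6387 3.4254 0.1471 7.01
    hβ hr hκ (by norm_num) hk1 hk2 hD1 hD0 j1 (j1 _ (by rw [sub_self, norm_zero]; norm_num))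
    (T3_02_d0_0 hD0 hβ hk1 hk2 (by linarith) (by linarith) hR0 hR)
    (T3_02_p0 hD0 hβ hk1 hk2 (by linarith) (by linarith) hR0 hR)
    y1.1 y1.2 y0.1 y0.2 (by norm_num)
    (ex_um 0.213 (by norm_num) (by norm_num) (by norm_num) (by norm_num)) (ex_um 0.234 (by norm_num) (by norm_num) (by norm_num) (by norm_num)) (ex_lm 0.224 (by norm_num) (by norm_num) (by norm_num) (by norm_num) (by norm_num)) (by norm_num) (by norm_num) (by norm_num) (by norm_num) (by norm_num) (by norm_num) (by norm_num) (by norm_num)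
    (by norm_num) (by norm_num) (by norm_num) (by norm_num) (by norm_num) (by norm_num) (by norm_num) (by norm_num) (by norm_num) (by norm_num)
    (ex_up 0.506 (by norm_num) (by norm_num) (by norm_num) (by norm_num)) (ex_lp 0.448 (by norm_num) (by norm_num) (by norm_num)) (by norm_num) (by norm_num) (by norm_num) (by norm_num) (by norm_num) (by norm_num)
    (by norm_num) (by norm_num) (by norm_num) (by norm_num) (by norm_num) (by norm_num) (by norm_num) (by norm_num) (by norm_num) (by norm_num) (by norm_num)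
    (by norm_num) (by norm_num) (by norm_num) (by norm_num)

private theorem yA2 {κ t : ℝ} (h : DomR κ t) (hk1 : 0.33 ≤ κ) (hk2 : κ ≤ 0.36) (ht1 : 1.142 ≤ t + κ) (ht2 : t + κ ≤ 1.159) :
    0.213 ≤ sy κ t ∧ sy κ t ≤ 0.236 := by
  have hy1 : 0.213 ≤ sy κ t := syR_ge h 0.33 0.36 1.142 0.213 1.23738 1.23739 0.73211 0.79868 hk1 hk2 (by linarith) (by norm_num) (by norm_num)
    (expn_ge (by norm_num) (by norm_num)) (expn_le (by norm_num) (by norm_num) (by norm_num)) (by norm_num)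
    (by norm_num) (by norm_num) (by norm_num) (by norm_num) (by norm_num) (by norm_num)
  have hy2 : sy κ t ≤ 0.236 := syR_ang2 h 0.33 0.36 1.159 0.978 0.5599 0.8296 0.236 0.78979 1.26617 hk1 hk2 (by linarith) (by norm_num) (by norm_num) (by norm_num)
    (cos_le_num (by norm_num)) (sin_le_num (by norm_num) (by norm_num)) (expm_le (by norm_num) (by norm_num) (by norm_num))
    (expn_ge (by norm_num) (by norm_num)) (by norm_num) (by norm_num) (by norm_num) (by norm_num) (by norm_num)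
  exact ⟨hy1, hy2⟩

private theorem yB2 {κ t : ℝ} (h : DomR κ t) (hk1 : 0.33 ≤ κ) (hk2 : κ ≤ 0.36) (ht1 : -0.9524 ≤ t + κ) (ht2 : t + κ ≤ -0.93539) :
    (-0.493) ≤ sy κ t ∧ sy κ t ≤ (-0.389) := by
  have hy1 : -0.493 ≤ sy κ t := syL_ang2 h 0.33 0.36 0.9524 0.99 0.5486 0.8363 0.493 1.63721 0.61079 hk1 hk2 (by linarith) (by norm_num) (by norm_num) (by norm_num) (by norm_num)
    (cos_ge_num (by norm_num) (by norm_num)) (sin_le_num (by norm_num) (by norm_num))
    (expn_ge (by norm_num) (by norm_num)) (expm_ge (by norm_num) (by norm_num) (by norm_num) (by norm_num)) (by norm_num) (by norm_num) (by norm_num)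
    (by norm_num) (by norm_num) (by norm_num)
  have hy2 : sy κ t ≤ -0.389 := syL_le h 0.33 0.36 0.93539 0.389 0.67773 0.67774 0.73232 0.79892 hk1 hk2 (by linarith) (by norm_num) (by norm_num) (by norm_num)
    (expm_ge (by norm_num) (by norm_num) (by norm_num) (by norm_num)) (expm_le (by norm_num) (by norm_num) (by norm_num)) (by norm_num)
    (by norm_num) (by norm_num) (by norm_num) (by norm_num) (by norm_num) (by norm_num)
  exact ⟨hy1, hy2⟩

theorem pc2 {β r h t κ : ℝ} (hh : h = 2 * Real.pi / (3 : ℕ)) (hβ : 0 < β) (hr : 10 ≤ r) (hκ : κ = β * r)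
    (hk1 : 0.33 ≤ κ) (hk2 : κ ≤ 0.36) (hT1 : 1.142 ≤ t + κ) (hT2 : t + κ ≤ 1.159) :
    Xf β r h t 0 ≠ 0 ∧ r * 0.1471 ≤ (Ld β r h t 1 - Ld β r h t 0).im ∧
      ‖(((-1 : ℤ) : ℂ) - 1) * Ld β r h t 0 - ((-1 : ℤ) : ℂ) * Ld β r h t 1‖ ≤ r * 7.01 := by
  obtain ⟨q1, q2, q3⟩ := b3_h hh
  have hR0 := b3_R0 hβ hr hκ
  have hR := b3_R hβ hr hκ (by linarith)
  have hD1 : DomR κ t := b3_dom (by linarith) (by linarith) (Or.inr (by linarith))
  have hD0 : DomR κ (t - h) := b3_dom (by linarith) (by linarith) (Or.inr (by linarith))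
  have y1 := yA2 hD1 hk1 hk2 (by linarith) (by linarith)
  have y0 := yB2 hD0 hk1 hk2 (by linarith) (by linarith)
  have j1 := T3_02_d1_1 hD1 hβ hk1 hk2 (by linarith) (by linarith) hR0 hR
  exact b3_piece 0.33 0.36 0.213 0.236 0.225 0.79851 0.80816 0.78979 0.291 1.4971 1.5529 0.08 0.04 0.04 0.5209 0.1239 0 0 (-0.493) (-0.389) (-0.441) 1.55426 1.63723 0.5895 0.3044 0.04 0.215 0.13 6.1782 6.6013 1.5073 2.9191 0.1471 7.01
    hβ hr hκ (by norm_num) hk1 hk2 hD1 hD0 j1 (j1 _ (by rw [sub_self, norm_zero]; norm_num))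
    (T3_02_d0_1 hD0 hβ hk1 hk2 (by linarith) (by linarith) hR0 hR)
    (T3_02_p0 hD0 hβ hk1 hk2 (by linarith) (by linarith) hR0 hR)
    y1.1 y1.2 y0.1 y0.2 (by norm_num)
    (ex_um 0.213 (by norm_num) (by norm_num) (by norm_num) (by norm_num)) (ex_um 0.236 (by norm_num) (by norm_num) (by norm_num) (by norm_num)) (ex_lm 0.225 (by norm_num) (by norm_num) (by norm_num) (by norm_num) (by norm_num)) (by norm_num) (by norm_num) (by norm_num) (by norm_num) (by norm_num) (by norm_num) (by norm_num) (by norm_num)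
    (by norm_num) (by norm_num) (by norm_num) (by norm_num) (by norm_num) (by norm_num) (by norm_num) (by norm_num) (by norm_num) (by norm_num)
    (ex_up 0.493 (by norm_num) (by norm_num) (by norm_num) (by norm_num)) (ex_lp 0.441 (by norm_num) (by norm_num) (by norm_num)) (by norm_num) (by norm_num) (by norm_num) (by norm_num) (by norm_num) (by norm_num)
    (by norm_num) (by norm_num) (by norm_num) (by norm_num) (by norm_num) (by norm_num) (by norm_num) (by norm_num) (by norm_num) (by norm_num) (by norm_num)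
    (by norm_num) (by norm_num) (by norm_num) (by norm_num)

private theorem yA3 {κ t : ℝ} (h : DomR κ t) (hk1 : 0.33 ≤ κ) (hk2 : κ ≤ 0.36) (ht1 : 1.159 ≤ t + κ) (ht2 : t + κ ≤ 1.177) :
    0.213 ≤ sy κ t ∧ sy κ t ≤ 0.238 := by
  have hy1 : 0.213 ≤ sy κ t := syR_ge h 0.33 0.36 1.159 0.213 1.23738 1.23739 0.73211 0.79868 hk1 hk2 (by linarith) (by norm_num) (by norm_num)
    (expn_ge (by norm_num) (by norm_num)) (expn_le (by norm_num) (by norm_num) (by norm_num)) (by norm_num)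
    (by norm_num) (by norm_num) (by norm_num) (by norm_num) (by norm_num) (by norm_num)
  have hy2 : sy κ t ≤ 0.238 := syR_ang2 h 0.33 0.36 1.177 0.994 0.5467 0.8385 0.238 0.78821 1.2687 hk1 hk2 (by linarith) (by norm_num) (by norm_num) (by norm_num)
    (cos_le_num (by norm_num)) (sin_le_num (by norm_num) (by norm_num)) (expm_le (by norm_num) (by norm_num) (by norm_num))
    (expn_ge (by norm_num) (by norm_num)) (by norm_num) (by norm_num) (by norm_num) (by norm_num) (by norm_num)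
  exact ⟨hy1, hy2⟩

private theorem yB3 {κ t : ℝ} (h : DomR κ t) (hk1 : 0.33 ≤ κ) (hk2 : κ ≤ 0.36) (ht1 : -0.9354 ≤ t + κ) (ht2 : t + κ ≤ -0.91739) :
    (-0.478) ≤ sy κ t ∧ sy κ t ≤ (-0.389) := by
  have hy1 : -0.478 ≤ sy κ t := syL_ang2 h 0.33 0.36 0.9354 0.966 0.5685 0.8228 0.478 1.61284 0.62002 hk1 hk2 (by linarith) (by norm_num) (by norm_num) (by norm_num) (by norm_num)
    (cos_ge_num (by norm_num) (by norm_num)) (sin_le_num (by norm_num) (by norm_num))
    (expn_ge (by norm_num) (by norm_num)) (expm_ge (by norm_num) (by norm_num) (by norm_num) (by norm_num)) (by norm_num) (by norm_num) (by norm_num)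
    (by norm_num) (by norm_num) (by norm_num)
  have hy2 : sy κ t ≤ -0.389 := syL_le h 0.33 0.36 0.91739 0.389 0.67773 0.67774 0.73232 0.79892 hk1 hk2 (by linarith) (by norm_num) (by norm_num) (by norm_num)
    (expm_ge (by norm_num) (by norm_num) (by norm_num) (by norm_num)) (expm_le (by norm_num) (by norm_num) (by norm_num)) (by norm_num)
    (by norm_num) (by norm_num) (by norm_num) (by norm_num) (by norm_num) (by norm_num)
  exact ⟨hy1, hy2⟩

theorem pc3 {β r h t κ : ℝ} (hh : h = 2 * Real.pi / (3 : ℕ)) (hβ : 0 < β) (hr : 10 ≤ r) (hκ : κ = β * r)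
    (hk1 : 0.33 ≤ κ) (hk2 : κ ≤ 0.36) (hT1 : 1.159 ≤ t + κ) (hT2 : t + κ ≤ 1.177) :
    Xf β r h t 0 ≠ 0 ∧ r * 0.1471 ≤ (Ld β r h t 1 - Ld β r h t 0).im ∧
      ‖(((-1 : ℤ) : ℂ) - 1) * Ld β r h t 0 - ((-1 : ℤ) : ℂ) * Ld β r h t 1‖ ≤ r * 7.01 := by
  obtain ⟨q1, q2, q3⟩ := b3_h hh
  have hR0 := b3_R0 hβ hr hκ
  have hR := b3_R hβ hr hκ (by linarith)
  have hD1 : DomR κ t := b3_dom (by linarith) (by linarith) (Or.inr (by linarith))
  have hD0 : DomR κ (t - h) := b3_dom (by linarith) (by linarith) (Or.inr (by linarith))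
  have y1 := yA3 hD1 hk1 hk2 (by linarith) (by linarith)
  have y0 := yB3 hD0 hk1 hk2 (by linarith) (by linarith)
  have j1 := T3_02_d1_1 hD1 hβ hk1 hk2 (by linarith) (by linarith) hR0 hR
  exact b3_piece 0.33 0.36 0.213 0.238 0.226 0.79771 0.80816 0.78821 0.291 1.497 1.5566 0.08 0.04 0.04 0.5209 0.1239 0 0 (-0.478) (-0.389) (-0.433) 1.54187 1.61285 0.5807 0.3261 0.04 0.215 0.13 6.1782 6.2826 1.3737 2.4463 0.1471 7.01
    hβ hr hκ (by norm_num) hk1 hk2 hD1 hD0 j1 (j1 _ (by rw [sub_self, norm_zero]; norm_num))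
    (T3_02_d0_1 hD0 hβ hk1 hk2 (by linarith) (by linarith) hR0 hR)
    (T3_02_p0 hD0 hβ hk1 hk2 (by linarith) (by linarith) hR0 hR)
    y1.1 y1.2 y0.1 y0.2 (by norm_num)
    (ex_um 0.213 (by norm_num) (by norm_num) (by norm_num) (by norm_num)) (ex_um 0.238 (by norm_num) (by norm_num) (by norm_num) (by norm_num)) (ex_lm 0.226 (by norm_num) (by norm_num) (by norm_num) (by norm_num) (by norm_num)) (by norm_num) (by norm_num) (by norm_num) (by norm_num) (by norm_num) (by norm_num) (by norm_num) (by norm_num)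
    (by norm_num) (by norm_num) (by norm_num) (by norm_num) (by norm_num) (by norm_num) (by norm_num) (by norm_num) (by norm_num) (by norm_num)
    (ex_up 0.478 (by norm_num) (by norm_num) (by norm_num) (by norm_num)) (ex_lp 0.433 (by norm_num) (by norm_num) (by norm_num)) (by norm_num) (by norm_num) (by norm_num) (by norm_num) (by norm_num) (by norm_num)
    (by norm_num) (by norm_num) (by norm_num) (by norm_num) (by norm_num) (by norm_num) (by norm_num) (by norm_num) (by norm_num) (by norm_num) (by norm_num)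
    (by norm_num) (by norm_num) (by norm_num) (by norm_num)

private theorem yA4 {κ t : ℝ} (h : DomR κ t) (hk1 : 0.33 ≤ κ) (hk2 : κ ≤ 0.36) (ht1 : 1.177 ≤ t + κ) (ht2 : t + κ ≤ 1.194) :
    0.213 ≤ sy κ t ∧ sy κ t ≤ 0.24 := by
  have hy1 : 0.213 ≤ sy κ t := syR_ge h 0.33 0.36 1.177 0.213 1.23738 1.23739 0.73211 0.79868 hk1 hk2 (by linarith) (by norm_num) (by norm_num)
    (expn_ge (by norm_num) (by norm_num)) (expn_le (by norm_num) (by norm_num) (by norm_num)) (by norm_num)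
    (by norm_num) (by norm_num) (by norm_num) (by norm_num) (by norm_num) (by norm_num)
  have hy2 : sy κ t ≤ 0.24 := syR_ang2 h 0.33 0.36 1.194 1.01 0.5334 0.8471 0.24 0.78663 1.27124 hk1 hk2 (by linarith) (by norm_num) (by norm_num) (by norm_num)
    (cos_le_num (by norm_num)) (sin_le_num (by norm_num) (by norm_num)) (expm_le (by norm_num) (by norm_num) (by norm_num))
    (expn_ge (by norm_num) (by norm_num)) (by norm_num) (by norm_num) (by norm_num) (by norm_num) (by norm_num)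
  exact ⟨hy1, hy2⟩

private theorem yB4 {κ t : ℝ} (h : DomR κ t) (hk1 : 0.33 ≤ κ) (hk2 : κ ≤ 0.36) (ht1 : -0.9174 ≤ t + κ) (ht2 : t + κ ≤ -0.90039) :
    (-0.462) ≤ sy κ t ∧ sy κ t ≤ (-0.38) := by
  have hy1 : -0.462 ≤ sy κ t := syL_ang2 h 0.33 0.36 0.9174 0.941 0.5889 0.8083 0.462 1.58724 0.63002 hk1 hk2 (by linarith) (by norm_num) (by norm_num) (by norm_num) (by norm_num)
    (cos_ge_num (by norm_num) (by norm_num)) (sin_le_num (by norm_num) (by norm_num))
    (expn_ge (by norm_num) (by norm_num)) (expm_ge (by norm_num) (by norm_num) (by norm_num) (by norm_num)) (by norm_num) (by norm_num) (by norm_num)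
    (by norm_num) (by norm_num) (by norm_num)
  have hy2 : sy κ t ≤ -0.38 := syL_le h 0.33 0.36 0.90039 0.38 0.68386 0.68387 0.72185 0.78749 hk1 hk2 (by linarith) (by norm_num) (by norm_num) (by norm_num)
    (expm_ge (by norm_num) (by norm_num) (by norm_num) (by norm_num)) (expm_le (by norm_num) (by norm_num) (by norm_num)) (by norm_num)
    (by norm_num) (by norm_num) (by norm_num) (by norm_num) (by norm_num) (by norm_num)
  exact ⟨hy1, hy2⟩

theorem pc4 {β r h t κ : ℝ} (hh : h = 2 * Real.pi / (3 : ℕ)) (hβ : 0 < β) (hr : 10 ≤ r) (hκ : κ = β * r)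
    (hk1 : 0.33 ≤ κ) (hk2 : κ ≤ 0.36) (hT1 : 1.177 ≤ t + κ) (hT2 : t + κ ≤ 1.194) :
    Xf β r h t 0 ≠ 0 ∧ r * 0.1471 ≤ (Ld β r h t 1 - Ld β r h t 0).im ∧
      ‖(((-1 : ℤ) : ℂ) - 1) * Ld β r h t 0 - ((-1 : ℤ) : ℂ) * Ld β r h t 1‖ ≤ r * 7.01 := by
  obtain ⟨q1, q2, q3⟩ := b3_h hh
  have hR0 := b3_R0 hβ hr hκ
  have hR := b3_R hβ hr hκ (by linarith)
  have hD1 : DomR κ t := b3_dom (by linarith) (by linarith) (Or.inr (by linarith))
  have hD0 : DomR κ (t - h) := b3_dom (by linarith) (by linarith) (Or.inr (by linarith))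
  have y1 := yA4 hD1 hk1 hk2 (by linarith) (by linarith)
  have y0 := yB4 hD0 hk1 hk2 (by linarith) (by linarith)
  have j1 := T3_02_d1_1 hD1 hβ hk1 hk2 (by linarith) (by linarith) hR0 hR
  exact b3_piece 0.33 0.36 0.213 0.24 0.227 0.79692 0.80816 0.78663 0.291 1.497 1.5602 0.08 0.04 0.04 0.5209 0.1239 0 0 (-0.462) (-0.38) (-0.421) 1.52348 1.58725 0.5715 0.3494 0.04 0.215 0.13 6.1782 5.9734 1.2745 2.0847 0.1471 7.01
    hβ hr hκ (by norm_num) hk1 hk2 hD1 hD0 j1 (j1 _ (by rw [sub_self, norm_zero]; norm_num))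
    (T3_02_d0_1 hD0 hβ hk1 hk2 (by linarith) (by linarith) hR0 hR)
    (T3_02_p0 hD0 hβ hk1 hk2 (by linarith) (by linarith) hR0 hR)
    y1.1 y1.2 y0.1 y0.2 (by norm_num)
    (ex_um 0.213 (by norm_num) (by norm_num) (by norm_num) (by norm_num)) (ex_um 0.24 (by norm_num) (by norm_num) (by norm_num) (by norm_num)) (ex_lm 0.227 (by norm_num) (by norm_num) (by norm_num) (by norm_num) (by norm_num)) (by norm_num) (by norm_num) (by norm_num) (by norm_num) (by norm_num) (by norm_num) (by norm_num) (by norm_num)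
    (by norm_num) (by norm_num) (by norm_num) (by norm_num) (by norm_num) (by norm_num) (by norm_num) (by norm_num) (by norm_num) (by norm_num)
    (ex_up 0.462 (by norm_num) (by norm_num) (by norm_num) (by norm_num)) (ex_lp 0.421 (by norm_num) (by norm_num) (by norm_num)) (by norm_num) (by norm_num) (by norm_num) (by norm_num) (by norm_num) (by norm_num)
    (by norm_num) (by norm_num) (by norm_num) (by norm_num) (by norm_num) (by norm_num) (by norm_num) (by norm_num) (by norm_num) (by norm_num) (by norm_num)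
    (by norm_num) (by norm_num) (by norm_num) (by norm_num)

private theorem yA5 {κ t : ℝ} (h : DomR κ t) (hk1 : 0.33 ≤ κ) (hk2 : κ ≤ 0.36) (ht1 : 1.194 ≤ t + κ) (ht2 : t + κ ≤ 1.212) :
    0.213 ≤ sy κ t ∧ sy κ t ≤ 0.242 := by
  have hy1 : 0.213 ≤ sy κ t := syR_ge h 0.33 0.36 1.194 0.213 1.23738 1.23739 0.73211 0.79868 hk1 hk2 (by linarith) (by norm_num) (by norm_num)
    (expn_ge (by norm_num) (by norm_num)) (expn_le (by norm_num) (by norm_num) (by norm_num)) (by norm_num)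
    (by norm_num) (by norm_num) (by norm_num) (by norm_num) (by norm_num) (by norm_num)
  have hy2 : sy κ t ≤ 0.242 := syR_ang2 h 0.33 0.36 1.212 1.027 0.519 0.856 0.242 0.78506 1.27379 hk1 hk2 (by linarith) (by norm_num) (by norm_num) (by norm_num)
    (cos_le_num (by norm_num)) (sin_le_num (by norm_num) (by norm_num)) (expm_le (by norm_num) (by norm_num) (by norm_num))
    (expn_ge (by norm_num) (by norm_num)) (by norm_num) (by norm_num) (by norm_num) (by norm_num) (by norm_num)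
  exact ⟨hy1, hy2⟩

private theorem yB5 {κ t : ℝ} (h : DomR κ t) (hk1 : 0.33 ≤ κ) (hk2 : κ ≤ 0.36) (ht1 : -0.9004 ≤ t + κ) (ht2 : t + κ ≤ -0.88239) :
    (-0.449) ≤ sy κ t ∧ sy κ t ≤ (-0.37) := by
  have hy1 : -0.449 ≤ sy κ t := syL_ang2 h 0.33 0.36 0.9004 0.92 0.6058 0.7958 0.449 1.56674 0.63826 hk1 hk2 (by linarith) (by norm_num) (by norm_num) (by norm_num) (by norm_num)
    (cos_ge_num (by norm_num) (by norm_num)) (sin_le_num (by norm_num) (by norm_num))
    (expn_ge (by norm_num) (by norm_num)) (expm_ge (by norm_num) (by norm_num) (by norm_num) (by norm_num)) (by norm_num) (by norm_num) (by norm_num)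
    (by norm_num) (by norm_num) (by norm_num)
  have hy2 : sy κ t ≤ -0.37 := syL_le h 0.33 0.36 0.88239 0.37 0.69073 0.69074 0.70991 0.77447 hk1 hk2 (by linarith) (by norm_num) (by norm_num) (by norm_num)
    (expm_ge (by norm_num) (by norm_num) (by norm_num) (by norm_num)) (expm_le (by norm_num) (by norm_num) (by norm_num)) (by norm_num)
    (by norm_num) (by norm_num) (by norm_num) (by norm_num) (by norm_num) (by norm_num)
  exact ⟨hy1, hy2⟩

theorem pc5 {β r h t κ : ℝ} (hh : h = 2 * Real.pi / (3 : ℕ)) (hβ : 0 < β) (hr : 10 ≤ r) (hκ : κ = β * r)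
    (hk1 : 0.33 ≤ κ) (hk2 : κ ≤ 0.36) (hT1 : 1.194 ≤ t + κ) (hT2 : t + κ ≤ 1.212) :
    Xf β r h t 0 ≠ 0 ∧ r * 0.1471 ≤ (Ld β r h t 1 - Ld β r h t 0).im ∧
      ‖(((-1 : ℤ) : ℂ) - 1) * Ld β r h t 0 - ((-1 : ℤ) : ℂ) * Ld β r h t 1‖ ≤ r * 7.01 := by
  obtain ⟨q1, q2, q3⟩ := b3_h hh
  have hR0 := b3_R0 hβ hr hκ
  have hR := b3_R hβ hr hκ (by linarith)
  have hD1 : DomR κ t := b3_dom (by linarith) (by linarith) (Or.inr (by linarith))
  have hD0 : DomR κ (t - h) := b3_dom (by linarith) (by linarith) (Or.inr (by linarith))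
  have y1 := yA5 hD1 hk1 hk2 (by linarith) (by linarith)
  have y0 := yB5 hD0 hk1 hk2 (by linarith) (by linarith)
  have j1 := T3_02_d1_1 hD1 hβ hk1 hk2 (by linarith) (by linarith) hR0 hR
  exact b3_piece 0.33 0.36 0.213 0.242 0.228 0.79612 0.80816 0.78506 0.291 1.497 1.5639 0.08 0.04 0.04 0.5209 0.1239 0 0 (-0.449) (-0.37) (-0.409) 1.50531 1.56675 0.5641 0.3685 0.04 0.215 0.13 6.1782 5.7412 1.2097 1.8519 0.1471 7.01
    hβ hr hκ (by norm_num) hk1 hk2 hD1 hD0 j1 (j1 _ (by rw [sub_self, norm_zero]; norm_num))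
    (T3_02_d0_1 hD0 hβ hk1 hk2 (by linarith) (by linarith) hR0 hR)
    (T3_02_p0 hD0 hβ hk1 hk2 (by linarith) (by linarith) hR0 hR)
    y1.1 y1.2 y0.1 y0.2 (by norm_num)
    (ex_um 0.213 (by norm_num) (by norm_num) (by norm_num) (by norm_num)) (ex_um 0.242 (by norm_num) (by norm_num) (by norm_num) (by norm_num)) (ex_lm 0.228 (by norm_num) (by norm_num) (by norm_num) (by norm_num) (by norm_num)) (by norm_num) (by norm_num) (by norm_num) (by norm_num) (by norm_num) (by norm_num) (by norm_num) (by norm_num)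
    (by norm_num) (by norm_num) (by norm_num) (by norm_num) (by norm_num) (by norm_num) (by norm_num) (by norm_num) (by norm_num) (by norm_num)
    (ex_up 0.449 (by norm_num) (by norm_num) (by norm_num) (by norm_num)) (ex_lp 0.409 (by norm_num) (by norm_num) (by norm_num)) (by norm_num) (by norm_num) (by norm_num) (by norm_num) (by norm_num) (by norm_num)
    (by norm_num) (by norm_num) (by norm_num) (by norm_num) (by norm_num) (by norm_num) (by norm_num) (by norm_num) (by norm_num) (by norm_num) (by norm_num)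
    (by norm_num) (by norm_num) (by norm_num) (by norm_num)

private theorem yA6 {κ t : ℝ} (h : DomR κ t) (hk1 : 0.33 ≤ κ) (hk2 : κ ≤ 0.36) (ht1 : 1.212 ≤ t + κ) (ht2 : t + κ ≤ 1.231) :
    0.213 ≤ sy κ t ∧ sy κ t ≤ 0.243 := by
  have hy1 : 0.213 ≤ sy κ t := syR_ge h 0.33 0.36 1.212 0.213 1.23738 1.23739 0.73211 0.79868 hk1 hk2 (by linarith) (by norm_num) (by norm_num)
    (expn_ge (by norm_num) (by norm_num)) (expn_le (by norm_num) (by norm_num) (by norm_num)) (by norm_num)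
    (by norm_num) (by norm_num) (by norm_num) (by norm_num) (by norm_num) (by norm_num)
  have hy2 : sy κ t ≤ 0.243 := syR_ang2 h 0.33 0.36 1.231 1.035 0.5123 0.8602 0.243 0.78428 1.27506 hk1 hk2 (by linarith) (by norm_num) (by norm_num) (by norm_num)
    (cos_le_num (by norm_num)) (sin_le_num (by norm_num) (by norm_num)) (expm_le (by norm_num) (by norm_num) (by norm_num))
    (expn_ge (by norm_num) (by norm_num)) (by norm_num) (by norm_num) (by norm_num) (by norm_num) (by norm_num)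
  exact ⟨hy1, hy2⟩

private theorem yB6 {κ t : ℝ} (h : DomR κ t) (hk1 : 0.33 ≤ κ) (hk2 : κ ≤ 0.36) (ht1 : -0.8824 ≤ t + κ) (ht2 : t + κ ≤ -0.86339) :
    (-0.434) ≤ sy κ t ∧ sy κ t ≤ (-0.359) := by
  have hy1 : -0.434 ≤ sy κ t := syL_ang2 h 0.33 0.36 0.8824 0.896 0.6247 0.781 0.434 1.54341 0.64791 hk1 hk2 (by linarith) (by norm_num) (by norm_num) (by norm_num) (by norm_num)
    (cos_ge_num (by norm_num) (by norm_num)) (sin_le_num (by norm_num) (by norm_num))
    (expn_ge (by norm_num) (by norm_num)) (expm_ge (by norm_num) (by norm_num) (by norm_num) (by norm_num)) (by norm_num) (by norm_num) (by norm_num)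
    (by norm_num) (by norm_num) (by norm_num)
  have hy2 : sy κ t ≤ -0.359 := syL_le h 0.33 0.36 0.86339 0.359 0.69837 0.69838 0.69643 0.75976 hk1 hk2 (by linarith) (by norm_num) (by norm_num) (by norm_num)
    (expm_ge (by norm_num) (by norm_num) (by norm_num) (by norm_num)) (expm_le (by norm_num) (by norm_num) (by norm_num)) (by norm_num)
    (by norm_num) (by norm_num) (by norm_num) (by norm_num) (by norm_num) (by norm_num)
  exact ⟨hy1, hy2⟩

theorem pc6 {β r h t κ : ℝ} (hh : h = 2 * Real.pi / (3 : ℕ)) (hβ : 0 < β) (hr : 10 ≤ r) (hκ : κ = β * r)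
    (hk1 : 0.33 ≤ κ) (hk2 : κ ≤ 0.36) (hT1 : 1.212 ≤ t + κ) (hT2 : t + κ ≤ 1.231) :
    Xf β r h t 0 ≠ 0 ∧ r * 0.1471 ≤ (Ld β r h t 1 - Ld β r h t 0).im ∧
      ‖(((-1 : ℤ) : ℂ) - 1) * Ld β r h t 0 - ((-1 : ℤ) : ℂ) * Ld β r h t 1‖ ≤ r * 7.01 := by
  obtain ⟨q1, q2, q3⟩ := b3_h hh
  have hR0 := b3_R0 hβ hr hκ
  have hR := b3_R hβ hr hκ (by linarith)
  have hD1 : DomR κ t := b3_dom (by linarith) (by linarith) (Or.inr (by linarith))
  have hD0 : DomR κ (t - h) := b3_dom (by linarith) (by linarith) (Or.inr (by linarith))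
  have y1 := yA6 hD1 hk1 hk2 (by linarith) (by linarith)
  have y0 := yB6 hD0 hk1 hk2 (by linarith) (by linarith)
  have j1 := T3_02_d1_2 hD1 hβ hk1 hk2 (by linarith) (by linarith) hR0 hR
  exact b3_piece 0.33 0.36 0.213 0.243 0.228 0.79612 0.80816 0.78428 0.291 1.497 1.5658 0.08 0.04 0.04 0.5209 0.1239 0 0 (-0.434) (-0.359) (-0.397) 1.48735 1.54342 0.5557 0.3907 0.05 0.13 0.13 2.9886 2.657 1.1407 1.6225 0.1471 7.01
    hβ hr hκ (by norm_num) hk1 hk2 hD1 hD0 j1 (j1 _ (by rw [sub_self, norm_zero]; norm_num))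
    (T3_02_d0_2 hD0 hβ hk1 hk2 (by linarith) (by linarith) hR0 hR)
    (T3_02_p0 hD0 hβ hk1 hk2 (by linarith) (by linarith) hR0 hR)
    y1.1 y1.2 y0.1 y0.2 (by norm_num)
    (ex_um 0.213 (by norm_num) (by norm_num) (by norm_num) (by norm_num)) (ex_um 0.243 (by norm_num) (by norm_num) (by norm_num) (by norm_num)) (ex_lm 0.228 (by norm_num) (by norm_num) (by norm_num) (by norm_num) (by norm_num)) (by norm_num) (by norm_num) (by norm_num) (by norm_num) (by norm_num) (by norm_num) (by norm_num) (by norm_num)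
    (by norm_num) (by norm_num) (by norm_num) (by norm_num) (by norm_num) (by norm_num) (by norm_num) (by norm_num) (by norm_num) (by norm_num)
    (ex_up 0.434 (by norm_num) (by norm_num) (by norm_num) (by norm_num)) (ex_lp 0.397 (by norm_num) (by norm_num) (by norm_num)) (by norm_num) (by norm_num) (by norm_num) (by norm_num) (by norm_num) (by norm_num)
    (by norm_num) (by norm_num) (by norm_num) (by norm_num) (by norm_num) (by norm_num) (by norm_num) (by norm_num) (by norm_num) (by norm_num) (by norm_num)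
    (by norm_num) (by norm_num) (by norm_num) (by norm_num)

private theorem yA7 {κ t : ℝ} (h : DomR κ t) (hk1 : 0.33 ≤ κ) (hk2 : κ ≤ 0.36) (ht1 : 1.231 ≤ t + κ) (ht2 : t + κ ≤ 1.25) :
    0.213 ≤ sy κ t ∧ sy κ t ≤ 0.245 := by
  have hy1 : 0.213 ≤ sy κ t := syR_ge h 0.33 0.36 1.231 0.213 1.23738 1.23739 0.73211 0.79868 hk1 hk2 (by linarith) (by norm_num) (by norm_num)
    (expn_ge (by norm_num) (by norm_num)) (expn_le (by norm_num) (by norm_num) (by norm_num)) (by norm_num)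
    (by norm_num) (by norm_num) (by norm_num) (by norm_num) (by norm_num) (by norm_num)
  have hy2 : sy κ t ≤ 0.245 := syR_ang2 h 0.33 0.36 1.25 1.053 0.4969 0.8692 0.245 0.78271 1.27762 hk1 hk2 (by linarith) (by norm_num) (by norm_num) (by norm_num)
    (cos_le_num (by norm_num)) (sin_le_num (by norm_num) (by norm_num)) (expm_le (by norm_num) (by norm_num) (by norm_num))
    (expn_ge (by norm_num) (by norm_num)) (by norm_num) (by norm_num) (by norm_num) (by norm_num) (by norm_num)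
  exact ⟨hy1, hy2⟩

private theorem yB7 {κ t : ℝ} (h : DomR κ t) (hk1 : 0.33 ≤ κ) (hk2 : κ ≤ 0.36) (ht1 : -0.8634 ≤ t + κ) (ht2 : t + κ ≤ -0.84439) :
    (-0.419) ≤ sy κ t ∧ sy κ t ≤ (-0.349) := by
  have hy1 : -0.419 ≤ sy κ t := syL_ang2 h 0.33 0.36 0.8634 0.871 0.644 0.7651 0.419 1.52043 0.6577 hk1 hk2 (by linarith) (by norm_num) (by norm_num) (by norm_num) (by norm_num)
    (cos_ge_num (by norm_num) (by norm_num)) (sin_le_num (by norm_num) (by norm_num))
    (expn_ge (by norm_num) (by norm_num)) (expm_ge (by norm_num) (by norm_num) (by norm_num) (by norm_num)) (by norm_num) (by norm_num) (by norm_num)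
    (by norm_num) (by norm_num) (by norm_num)
  have hy2 : sy κ t ≤ -0.349 := syL_le h 0.33 0.36 0.84439 0.349 0.70539 0.7054 0.68383 0.74602 hk1 hk2 (by linarith) (by norm_num) (by norm_num) (by norm_num)
    (expm_ge (by norm_num) (by norm_num) (by norm_num) (by norm_num)) (expm_le (by norm_num) (by norm_num) (by norm_num)) (by norm_num)
    (by norm_num) (by norm_num) (by norm_num) (by norm_num) (by norm_num) (by norm_num)
  exact ⟨hy1, hy2⟩

theorem pc7 {β r h t κ : ℝ} (hh : h = 2 * Real.pi / (3 : ℕ)) (hβ : 0 < β) (hr : 10 ≤ r) (hκ : κ = β * r)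
    (hk1 : 0.33 ≤ κ) (hk2 : κ ≤ 0.36) (hT1 : 1.231 ≤ t + κ) (hT2 : t + κ ≤ 1.25) :
    Xf β r h t 0 ≠ 0 ∧ r * 0.1471 ≤ (Ld β r h t 1 - Ld β r h t 0).im ∧
      ‖(((-1 : ℤ) : ℂ) - 1) * Ld β r h t 0 - ((-1 : ℤ) : ℂ) * Ld β r h t 1‖ ≤ r * 7.01 := by
  obtain ⟨q1, q2, q3⟩ := b3_h hh
  have hR0 := b3_R0 hβ hr hκ
  have hR := b3_R hβ hr hκ (by linarith)
  have hD1 : DomR κ t := b3_dom (by linarith) (by linarith) (Or.inr (by linarith))
  have hD0 : DomR κ (t - h) := b3_dom (by linarith) (by linarith) (Or.inr (by linarith))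
  have y1 := yA7 hD1 hk1 hk2 (by linarith) (by linarith)
  have y0 := yB7 hD0 hk1 hk2 (by linarith) (by linarith)
  have j1 := T3_02_d1_2 hD1 hβ hk1 hk2 (by linarith) (by linarith) hR0 hR
  exact b3_piece 0.33 0.36 0.213 0.245 0.229 0.79532 0.80816 0.78271 0.291 1.497 1.5694 0.08 0.04 0.04 0.5209 0.1239 0 0 (-0.419) (-0.349) (-0.384) 1.46814 1.52045 0.5474 0.4131 0.05 0.13 0.13 2.9886 2.5454 1.0759 1.4257 0.1471 7.01
    hβ hr hκ (by norm_num) hk1 hk2 hD1 hD0 j1 (j1 _ (by rw [sub_self, norm_zero]; norm_num))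
    (T3_02_d0_2 hD0 hβ hk1 hk2 (by linarith) (by linarith) hR0 hR)
    (T3_02_p0 hD0 hβ hk1 hk2 (by linarith) (by linarith) hR0 hR)
    y1.1 y1.2 y0.1 y0.2 (by norm_num)
    (ex_um 0.213 (by norm_num) (by norm_num) (by norm_num) (by norm_num)) (ex_um 0.245 (by norm_num) (by norm_num) (by norm_num) (by norm_num)) (ex_lm 0.229 (by norm_num) (by norm_num) (by norm_num) (by norm_num) (by norm_num)) (by norm_num) (by norm_num) (by norm_num) (by norm_num) (by norm_num) (by norm_num) (by norm_num) (by norm_num)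
    (by norm_num) (by norm_num) (by norm_num) (by norm_num) (by norm_num) (by norm_num) (by norm_num) (by norm_num) (by norm_num) (by norm_num)
    (ex_up 0.419 (by norm_num) (by norm_num) (by norm_num) (by norm_num)) (ex_lp 0.384 (by norm_num) (by norm_num) (by norm_num)) (by norm_num) (by norm_num) (by norm_num) (by norm_num) (by norm_num) (by norm_num)
    (by norm_num) (by norm_num) (by norm_num) (by norm_num) (by norm_num) (by norm_num) (by norm_num) (by norm_num) (by norm_num) (by norm_num) (by norm_num)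
    (by norm_num) (by norm_num) (by norm_num) (by norm_num)

private theorem yA8 {κ t : ℝ} (h : DomR κ t) (hk1 : 0.33 ≤ κ) (hk2 : κ ≤ 0.36) (ht1 : 1.25 ≤ t + κ) (ht2 : t + κ ≤ 1.269) :
    0.213 ≤ sy κ t ∧ sy κ t ≤ 0.247 := by
  have hy1 : 0.213 ≤ sy κ t := syR_ge h 0.33 0.36 1.25 0.213 1.23738 1.23739 0.73211 0.79868 hk1 hk2 (by linarith) (by norm_num) (by norm_num)
    (expn_ge (by norm_num) (by norm_num)) (expn_le (by norm_num) (by norm_num) (by norm_num)) (by norm_num)
    (by norm_num) (by norm_num) (by norm_num) (by norm_num) (by norm_num) (by norm_num)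
  have hy2 : sy κ t ≤ 0.247 := syR_ang2 h 0.33 0.36 1.269 1.071 0.4814 0.878 0.247 0.78115 1.28017 hk1 hk2 (by linarith) (by norm_num) (by norm_num) (by norm_num)
    (cos_le_num (by norm_num)) (sin_le_num (by norm_num) (by norm_num)) (expm_le (by norm_num) (by norm_num) (by norm_num))
    (expn_ge (by norm_num) (by norm_num)) (by norm_num) (by norm_num) (by norm_num) (by norm_num) (by norm_num)
  exact ⟨hy1, hy2⟩

private theorem yB8 {κ t : ℝ} (h : DomR κ t) (hk1 : 0.33 ≤ κ) (hk2 : κ ≤ 0.36) (ht1 : -0.8444 ≤ t + κ) (ht2 : t + κ ≤ -0.82539) :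
    (-0.405) ≤ sy κ t ∧ sy κ t ≤ (-0.338) := by
  have hy1 : -0.405 ≤ sy κ t := syL_ang2 h 0.33 0.36 0.8444 0.848 0.6614 0.7501 0.405 1.4993 0.66697 hk1 hk2 (by linarith) (by norm_num) (by norm_num) (by norm_num) (by norm_num)
    (cos_ge_num (by norm_num) (by norm_num)) (sin_le_num (by norm_num) (by norm_num))
    (expn_ge (by norm_num) (by norm_num)) (expm_ge (by norm_num) (by norm_num) (by norm_num) (by norm_num)) (by norm_num) (by norm_num) (by norm_num)
    (by norm_num) (by norm_num) (by norm_num)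
  have hy2 : sy κ t ≤ -0.338 := syL_le h 0.33 0.36 0.82539 0.338 0.71319 0.7132 0.6696 0.73049 hk1 hk2 (by linarith) (by norm_num) (by norm_num) (by norm_num)
    (expm_ge (by norm_num) (by norm_num) (by norm_num) (by norm_num)) (expm_le (by norm_num) (by norm_num) (by norm_num)) (by norm_num)
    (by norm_num) (by norm_num) (by norm_num) (by norm_num) (by norm_num) (by norm_num)
  exact ⟨hy1, hy2⟩

theorem pc8 {β r h t κ : ℝ} (hh : h = 2 * Real.pi / (3 : ℕ)) (hβ : 0 < β) (hr : 10 ≤ r) (hκ : κ = β * r)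
    (hk1 : 0.33 ≤ κ) (hk2 : κ ≤ 0.36) (hT1 : 1.25 ≤ t + κ) (hT2 : t + κ ≤ 1.269) :
    Xf β r h t 0 ≠ 0 ∧ r * 0.1471 ≤ (Ld β r h t 1 - Ld β r h t 0).im ∧
      ‖(((-1 : ℤ) : ℂ) - 1) * Ld β r h t 0 - ((-1 : ℤ) : ℂ) * Ld β r h t 1‖ ≤ r * 7.01 := by
  obtain ⟨q1, q2, q3⟩ := b3_h hh
  have hR0 := b3_R0 hβ hr hκ
  have hR := b3_R hβ hr hκ (by linarith)
  have hD1 : DomR κ t := b3_dom (by linarith) (by linarith) (Or.inr (by linarith))
  have hD0 : DomR κ (t - h) := b3_dom (by linarith) (by linarith) (Or.inr (by linarith))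
  have y1 := yA8 hD1 hk1 hk2 (by linarith) (by linarith)
  have y0 := yB8 hD0 hk1 hk2 (by linarith) (by linarith)
  have j1 := T3_02_d1_2 hD1 hβ hk1 hk2 (by linarith) (by linarith) hR0 hR
  exact b3_piece 0.33 0.36 0.213 0.247 0.23 0.79453 0.80816 0.78115 0.291 1.497 1.5731 0.08 0.04 0.04 0.5209 0.1239 0 0 (-0.405) (-0.338) (-0.371) 1.44918 1.49931 0.5398 0.4342 0.05 0.13 0.13 2.9886 2.4483 1.0247 1.274 0.1471 7.01
    hβ hr hκ (by norm_num) hk1 hk2 hD1 hD0 j1 (j1 _ (by rw [sub_self, norm_zero]; norm_num))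
    (T3_02_d0_2 hD0 hβ hk1 hk2 (by linarith) (by linarith) hR0 hR)
    (T3_02_p0 hD0 hβ hk1 hk2 (by linarith) (by linarith) hR0 hR)
    y1.1 y1.2 y0.1 y0.2 (by norm_num)
    (ex_um 0.213 (by norm_num) (by norm_num) (by norm_num) (by norm_num)) (ex_um 0.247 (by norm_num) (by norm_num) (by norm_num) (by norm_num)) (ex_lm 0.23 (by norm_num) (by norm_num) (by norm_num) (by norm_num) (by norm_num)) (by norm_num) (by norm_num) (by norm_num) (by norm_num) (by norm_num) (by norm_num) (by norm_num) (by norm_num)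
    (by norm_num) (by norm_num) (by norm_num) (by norm_num) (by norm_num) (by norm_num) (by norm_num) (by norm_num) (by norm_num) (by norm_num)
    (ex_up 0.405 (by norm_num) (by norm_num) (by norm_num) (by norm_num)) (ex_lp 0.371 (by norm_num) (by norm_num) (by norm_num)) (by norm_num) (by norm_num) (by norm_num) (by norm_num) (by norm_num) (by norm_num)
    (by norm_num) (by norm_num) (by norm_num) (by norm_num) (by norm_num) (by norm_num) (by norm_num) (by norm_num) (by norm_num) (by norm_num) (by norm_num)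
    (by norm_num) (by norm_num) (by norm_num) (by norm_num)

private theorem yA9 {κ t : ℝ} (h : DomR κ t) (hk1 : 0.33 ≤ κ) (hk2 : κ ≤ 0.36) (ht1 : 1.269 ≤ t + κ) (ht2 : t + κ ≤ 1.288) :
    0.213 ≤ sy κ t ∧ sy κ t ≤ 0.248 := by
  have hy1 : 0.213 ≤ sy κ t := syR_ge h 0.33 0.36 1.269 0.213 1.23738 1.23739 0.73211 0.79868 hk1 hk2 (by linarith) (by norm_num) (by norm_num)
    (expn_ge (by norm_num) (by norm_num)) (expn_le (by norm_num) (by norm_num) (by norm_num)) (by norm_num)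
    (by norm_num) (by norm_num) (by norm_num) (by norm_num) (by norm_num) (by norm_num)
  have hy2 : sy κ t ≤ 0.248 := syR_ang2 h 0.33 0.36 1.288 1.08 0.4735 0.8823 0.248 0.78036 1.28145 hk1 hk2 (by linarith) (by norm_num) (by norm_num) (by norm_num)
    (cos_le_num (by norm_num)) (sin_le_num (by norm_num) (by norm_num)) (expm_le (by norm_num) (by norm_num) (by norm_num))
    (expn_ge (by norm_num) (by norm_num)) (by norm_num) (by norm_num) (by norm_num) (by norm_num) (by norm_num)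
  exact ⟨hy1, hy2⟩

private theorem yB9 {κ t : ℝ} (h : DomR κ t) (hk1 : 0.33 ≤ κ) (hk2 : κ ≤ 0.36) (ht1 : -0.8254 ≤ t + κ) (ht2 : t + κ ≤ -0.80639) :
    (-0.391) ≤ sy κ t ∧ sy κ t ≤ (-0.328) := by
  have hy1 : -0.391 ≤ sy κ t := syL_ang2 h 0.33 0.36 0.8254 0.825 0.6785 0.7346 0.391 1.47845 0.67638 hk1 hk2 (by linarith) (by norm_num) (by norm_num) (by norm_num) (by norm_num)
    (cos_ge_num (by norm_num) (by norm_num)) (sin_le_num (by norm_num) (by norm_num))
    (expn_ge (by norm_num) (by norm_num)) (expm_ge (by norm_num) (by norm_num) (by norm_num) (by norm_num)) (by norm_num) (by norm_num) (by norm_num)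
    (by norm_num) (by norm_num) (by norm_num)
  have hy2 : sy κ t ≤ -0.328 := syL_le h 0.33 0.36 0.80639 0.328 0.72036 0.72037 0.65632 0.71601 hk1 hk2 (by linarith) (by norm_num) (by norm_num) (by norm_num)
    (expm_ge (by norm_num) (by norm_num) (by norm_num) (by norm_num)) (expm_le (by norm_num) (by norm_num) (by norm_num)) (by norm_num)
    (by norm_num) (by norm_num) (by norm_num) (by norm_num) (by norm_num) (by norm_num)
  exact ⟨hy1, hy2⟩

theorem pc9 {β r h t κ : ℝ} (hh : h = 2 * Real.pi / (3 : ℕ)) (hβ : 0 < β) (hr : 10 ≤ r) (hκ : κ = β * r)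
    (hk1 : 0.33 ≤ κ) (hk2 : κ ≤ 0.36) (hT1 : 1.269 ≤ t + κ) (hT2 : t + κ ≤ 1.288) :
    Xf β r h t 0 ≠ 0 ∧ r * 0.1471 ≤ (Ld β r h t 1 - Ld β r h t 0).im ∧
      ‖(((-1 : ℤ) : ℂ) - 1) * Ld β r h t 0 - ((-1 : ℤ) : ℂ) * Ld β r h t 1‖ ≤ r * 7.01 := by
  obtain ⟨q1, q2, q3⟩ := b3_h hh
  have hR0 := b3_R0 hβ hr hκ
  have hR := b3_R hβ hr hκ (by linarith)
  have hD1 : DomR κ t := b3_dom (by linarith) (by linarith) (Or.inr (by linarith))
  have hD0 : DomR κ (t - h) := b3_dom (by linarith) (by linarith) (Or.inr (by linarith))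
  have y1 := yA9 hD1 hk1 hk2 (by linarith) (by linarith)
  have y0 := yB9 hD0 hk1 hk2 (by linarith) (by linarith)
  have j1 := T3_02_d1_2 hD1 hβ hk1 hk2 (by linarith) (by linarith) hR0 hR
  exact b3_piece 0.33 0.36 0.213 0.248 0.231 0.79373 0.80816 0.78036 0.291 1.497 1.575 0.08 0.04 0.04 0.5209 0.1239 0 0 (-0.391) (-0.328) (-0.359) 1.43189 1.47846 0.5323 0.4555 0.05 0.13 0.13 2.9886 2.3572 0.9754 1.1399 0.1471 7.01
    hβ hr hκ (by norm_num) hk1 hk2 hD1 hD0 j1 (j1 _ (by rw [sub_self, norm_zero]; norm_num))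
    (T3_02_d0_2 hD0 hβ hk1 hk2 (by linarith) (by linarith) hR0 hR)
    (T3_02_p0 hD0 hβ hk1 hk2 (by linarith) (by linarith) hR0 hR)
    y1.1 y1.2 y0.1 y0.2 (by norm_num)
    (ex_um 0.213 (by norm_num) (by norm_num) (by norm_num) (by norm_num)) (ex_um 0.248 (by norm_num) (by norm_num) (by norm_num) (by norm_num)) (ex_lm 0.231 (by norm_num) (by norm_num) (by norm_num) (by norm_num) (by norm_num)) (by norm_num) (by norm_num) (by norm_num) (by norm_num) (by norm_num) (by norm_num) (by norm_num) (by norm_num)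
    (by norm_num) (by norm_num) (by norm_num) (by norm_num) (by norm_num) (by norm_num) (by norm_num) (by norm_num) (by norm_num) (by norm_num)
    (ex_up 0.391 (by norm_num) (by norm_num) (by norm_num) (by norm_num)) (ex_lp 0.359 (by norm_num) (by norm_num) (by norm_num)) (by norm_num) (by norm_num) (by norm_num) (by norm_num) (by norm_num) (by norm_num)
    (by norm_num) (by norm_num) (by norm_num) (by norm_num) (by norm_num) (by norm_num) (by norm_num) (by norm_num) (by norm_num) (by norm_num) (by norm_num)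
    (by norm_num) (by norm_num) (by norm_num) (by norm_num)

private theorem yA10 {κ t : ℝ} (h : DomR κ t) (hk1 : 0.33 ≤ κ) (hk2 : κ ≤ 0.36) (ht1 : 1.288 ≤ t + κ) (ht2 : t + κ ≤ 1.306) :
    0.213 ≤ sy κ t ∧ sy κ t ≤ 0.25 := by
  have hy1 : 0.213 ≤ sy κ t := syR_ge h 0.33 0.36 1.288 0.213 1.23738 1.23739 0.73211 0.79868 hk1 hk2 (by linarith) (by norm_num) (by norm_num)
    (expn_ge (by norm_num) (by norm_num)) (expn_le (by norm_num) (by norm_num) (by norm_num)) (by norm_num)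
    (by norm_num) (by norm_num) (by norm_num) (by norm_num) (by norm_num) (by norm_num)
  have hy2 : sy κ t ≤ 0.25 := syR_ang2 h 0.33 0.36 1.306 1.1 0.4561 0.8916 0.25 0.77881 1.28402 hk1 hk2 (by linarith) (by norm_num) (by norm_num) (by norm_num)
    (cos_le_num (by norm_num)) (sin_le_num (by norm_num) (by norm_num)) (expm_le (by norm_num) (by norm_num) (by norm_num))
    (expn_ge (by norm_num) (by norm_num)) (by norm_num) (by norm_num) (by norm_num) (by norm_num) (by norm_num)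
  exact ⟨hy1, hy2⟩

private theorem yB10 {κ t : ℝ} (h : DomR κ t) (hk1 : 0.33 ≤ κ) (hk2 : κ ≤ 0.36) (ht1 : -0.8064 ≤ t + κ) (ht2 : t + κ ≤ -0.78839) :
    (-0.378) ≤ sy κ t ∧ sy κ t ≤ (-0.319) := by
  have hy1 : -0.378 ≤ sy κ t := syL_ang2 h 0.33 0.36 0.8064 0.802 0.6952 0.7188 0.378 1.45936 0.68523 hk1 hk2 (by linarith) (by norm_num) (by norm_num) (by norm_num) (by norm_num)
    (cos_ge_num (by norm_num) (by norm_num)) (sin_le_num (by norm_num) (by norm_num))
    (expn_ge (by norm_num) (by norm_num)) (expm_ge (by norm_num) (by norm_num) (by norm_num) (by norm_num)) (by norm_num) (by norm_num) (by norm_num)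
    (by norm_num) (by norm_num) (by norm_num)
  have hy2 : sy κ t ≤ -0.319 := syL_le h 0.33 0.36 0.78839 0.319 0.72687 0.72688 0.64408 0.70266 hk1 hk2 (by linarith) (by norm_num) (by norm_num) (by norm_num)
    (expm_ge (by norm_num) (by norm_num) (by norm_num) (by norm_num)) (expm_le (by norm_num) (by norm_num) (by norm_num)) (by norm_num)
    (by norm_num) (by norm_num) (by norm_num) (by norm_num) (by norm_num) (by norm_num)
  exact ⟨hy1, hy2⟩

theorem pc10 {β r h t κ : ℝ} (hh : h = 2 * Real.pi / (3 : ℕ)) (hβ : 0 < β) (hr : 10 ≤ r) (hκ : κ = β * r)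
    (hk1 : 0.33 ≤ κ) (hk2 : κ ≤ 0.36) (hT1 : 1.288 ≤ t + κ) (hT2 : t + κ ≤ 1.306) :
    Xf β r h t 0 ≠ 0 ∧ r * 0.1471 ≤ (Ld β r h t 1 - Ld β r h t 0).im ∧
      ‖(((-1 : ℤ) : ℂ) - 1) * Ld β r h t 0 - ((-1 : ℤ) : ℂ) * Ld β r h t 1‖ ≤ r * 7.01 := by
  obtain ⟨q1, q2, q3⟩ := b3_h hh
  have hR0 := b3_R0 hβ hr hκ
  have hR := b3_R hβ hr hκ (by linarith)
  have hD1 : DomR κ t := b3_dom (by linarith) (by linarith) (Or.inr (by linarith))
  have hD0 : DomR κ (t - h) := b3_dom (by linarith) (by linarith) (Or.inr (by linarith))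
  have y1 := yA10 hD1 hk1 hk2 (by linarith) (by linarith)
  have y0 := yB10 hD0 hk1 hk2 (by linarith) (by linarith)
  have j1 := T3_02_d1_2 hD1 hβ hk1 hk2 (by linarith) (by linarith) hR0 hR
  exact b3_piece 0.33 0.36 0.213 0.25 0.232 0.79294 0.80816 0.77881 0.291 1.497 1.5787 0.08 0.04 0.04 0.5209 0.1239 0 0 (-0.378) (-0.319) (-0.348) 1.41623 1.45937 0.5254 0.4755 0.05 0.13 0.13 2.9886 2.2772 0.9322 1.0301 0.1471 7.01
    hβ hr hκ (by norm_num) hk1 hk2 hD1 hD0 j1 (j1 _ (by rw [sub_self, norm_zero]; norm_num))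
    (T3_02_d0_2 hD0 hβ hk1 hk2 (by linarith) (by linarith) hR0 hR)
    (T3_02_p0 hD0 hβ hk1 hk2 (by linarith) (by linarith) hR0 hR)
    y1.1 y1.2 y0.1 y0.2 (by norm_num)
    (ex_um 0.213 (by norm_num) (by norm_num) (by norm_num) (by norm_num)) (ex_um 0.25 (by norm_num) (by norm_num) (by norm_num) (by norm_num)) (ex_lm 0.232 (by norm_num) (by norm_num) (by norm_num) (by norm_num) (by norm_num)) (by norm_num) (by norm_num) (by norm_num) (by norm_num) (by norm_num) (by norm_num) (by norm_num) (by norm_num)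
    (by norm_num) (by norm_num) (by norm_num) (by norm_num) (by norm_num) (by norm_num) (by norm_num) (by norm_num) (by norm_num) (by norm_num)
    (ex_up 0.378 (by norm_num) (by norm_num) (by norm_num) (by norm_num)) (ex_lp 0.348 (by norm_num) (by norm_num) (by norm_num)) (by norm_num) (by norm_num) (by norm_num) (by norm_num) (by norm_num) (by norm_num)
    (by norm_num) (by norm_num) (by norm_num) (by norm_num) (by norm_num) (by norm_num) (by norm_num) (by norm_num) (by norm_num) (by norm_num) (by norm_num)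
    (by norm_num) (by norm_num) (by norm_num) (by norm_num)

private theorem yA11 {κ t : ℝ} (h : DomR κ t) (hk1 : 0.33 ≤ κ) (hk2 : κ ≤ 0.36) (ht1 : 1.306 ≤ t + κ) (ht2 : t + κ ≤ 1.325) :
    0.213 ≤ sy κ t ∧ sy κ t ≤ 0.252 := by
  have hy1 : 0.213 ≤ sy κ t := syR_ge h 0.33 0.36 1.306 0.213 1.23738 1.23739 0.73211 0.79868 hk1 hk2 (by linarith) (by norm_num) (by norm_num)
    (expn_ge (by norm_num) (by norm_num)) (expn_le (by norm_num) (by norm_num) (by norm_num)) (by norm_num)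
    (by norm_num) (by norm_num) (by norm_num) (by norm_num) (by norm_num) (by norm_num)
  have hy2 : sy κ t ≤ 0.252 := syR_ang2 h 0.33 0.36 1.325 1.12 0.4384 0.9006 0.252 0.77725 1.28659 hk1 hk2 (by linarith) (by norm_num) (by norm_num) (by norm_num)
    (cos_le_num (by norm_num)) (sin_le_num (by norm_num) (by norm_num)) (expm_le (by norm_num) (by norm_num) (by norm_num))
    (expn_ge (by norm_num) (by norm_num)) (by norm_num) (by norm_num) (by norm_num) (by norm_num) (by norm_num)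
  exact ⟨hy1, hy2⟩

private theorem yB11 {κ t : ℝ} (h : DomR κ t) (hk1 : 0.33 ≤ κ) (hk2 : κ ≤ 0.36) (ht1 : -0.7884 ≤ t + κ) (ht2 : t + κ ≤ -0.76939) :
    (-0.366) ≤ sy κ t ∧ sy κ t ≤ (-0.309) := by
  have hy1 : -0.366 ≤ sy κ t := syL_ang2 h 0.33 0.36 0.7884 0.782 0.7095 0.7048 0.366 1.44195 0.6935 hk1 hk2 (by linarith) (by norm_num) (by norm_num) (by norm_num) (by norm_num)
    (cos_ge_num (by norm_num) (by norm_num)) (sin_le_num (by norm_num) (by norm_num))
    (expn_ge (by norm_num) (by norm_num)) (expm_ge (by norm_num) (by norm_num) (by norm_num) (by norm_num)) (by norm_num) (by norm_num) (by norm_num)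
    (by norm_num) (by norm_num) (by norm_num)
  have hy2 : sy κ t ≤ -0.309 := syL_le h 0.33 0.36 0.76939 0.309 0.73418 0.73419 0.63017 0.68747 hk1 hk2 (by linarith) (by norm_num) (by norm_num) (by norm_num)
    (expm_ge (by norm_num) (by norm_num) (by norm_num) (by norm_num)) (expm_le (by norm_num) (by norm_num) (by norm_num)) (by norm_num)
    (by norm_num) (by norm_num) (by norm_num) (by norm_num) (by norm_num) (by norm_num)
  exact ⟨hy1, hy2⟩

theorem pc11 {β r h t κ : ℝ} (hh : h = 2 * Real.pi / (3 : ℕ)) (hβ : 0 < β) (hr : 10 ≤ r) (hκ : κ = β * r)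
    (hk1 : 0.33 ≤ κ) (hk2 : κ ≤ 0.36) (hT1 : 1.306 ≤ t + κ) (hT2 : t + κ ≤ 1.325) :
    Xf β r h t 0 ≠ 0 ∧ r * 0.1471 ≤ (Ld β r h t 1 - Ld β r h t 0).im ∧
      ‖(((-1 : ℤ) : ℂ) - 1) * Ld β r h t 0 - ((-1 : ℤ) : ℂ) * Ld β r h t 1‖ ≤ r * 7.01 := by
  obtain ⟨q1, q2, q3⟩ := b3_h hh
  have hR0 := b3_R0 hβ hr hκ
  have hR := b3_R hβ hr hκ (by linarith)
  have hD1 : DomR κ t := b3_dom (by linarith) (by linarith) (Or.inr (by linarith))
  have hD0 : DomR κ (t - h) := b3_dom (by linarith) (by linarith) (Or.inr (by linarith))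
  have y1 := yA11 hD1 hk1 hk2 (by linarith) (by linarith)
  have y0 := yB11 hD0 hk1 hk2 (by linarith) (by linarith)
  have j1 := T3_02_d1_2 hD1 hβ hk1 hk2 (by linarith) (by linarith) hR0 hR
  exact b3_piece 0.33 0.36 0.213 0.252 0.233 0.79215 0.80816 0.77725 0.291 1.497 1.5823 0.08 0.04 0.04 0.5209 0.1239 0 0 (-0.366) (-0.309) (-0.338) 1.40214 1.44196 0.5192 0.494 0.05 0.13 0.13 2.9886 2.2077 0.8988 0.9447 0.1471 7.01
    hβ hr hκ (by norm_num) hk1 hk2 hD1 hD0 j1 (j1 _ (by rw [sub_self, norm_zero]; norm_num))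
    (T3_02_d0_2 hD0 hβ hk1 hk2 (by linarith) (by linarith) hR0 hR)
    (T3_02_p0 hD0 hβ hk1 hk2 (by linarith) (by linarith) hR0 hR)
    y1.1 y1.2 y0.1 y0.2 (by norm_num)
    (ex_um 0.213 (by norm_num) (by norm_num) (by norm_num) (by norm_num)) (ex_um 0.252 (by norm_num) (by norm_num) (by norm_num) (by norm_num)) (ex_lm 0.233 (by norm_num) (by norm_num) (by norm_num) (by norm_num) (by norm_num)) (by norm_num) (by norm_num) (by norm_num) (by norm_num) (by norm_num) (by norm_num) (by norm_num) (by norm_num)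
    (by norm_num) (by norm_num) (by norm_num) (by norm_num) (by norm_num) (by norm_num) (by norm_num) (by norm_num) (by norm_num) (by norm_num)
    (ex_up 0.366 (by norm_num) (by norm_num) (by norm_num) (by norm_num)) (ex_lp 0.338 (by norm_num) (by norm_num) (by norm_num)) (by norm_num) (by norm_num) (by norm_num) (by norm_num) (by norm_num) (by norm_num)
    (by norm_num) (by norm_num) (by norm_num) (by norm_num) (by norm_num) (by norm_num) (by norm_num) (by norm_num) (by norm_num) (by norm_num) (by norm_num)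
    (by norm_num) (by norm_num) (by norm_num) (by norm_num)

private theorem yA12 {κ t : ℝ} (h : DomR κ t) (hk1 : 0.33 ≤ κ) (hk2 : κ ≤ 0.36) (ht1 : 1.325 ≤ t + κ) (ht2 : t + κ ≤ 1.344) :
    0.213 ≤ sy κ t ∧ sy κ t ≤ 0.253 := by
  have hy1 : 0.213 ≤ sy κ t := syR_ge h 0.33 0.36 1.325 0.213 1.23738 1.23739 0.73211 0.79868 hk1 hk2 (by linarith) (by norm_num) (by norm_num)
    (expn_ge (by norm_num) (by norm_num)) (expn_le (by norm_num) (by norm_num) (by norm_num)) (by norm_num)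
    (by norm_num) (by norm_num) (by norm_num) (by norm_num) (by norm_num) (by norm_num)
  have hy2 : sy κ t ≤ 0.253 := syR_ang2 h 0.33 0.36 1.344 1.13 0.4295 0.9049 0.253 0.77647 1.28788 hk1 hk2 (by linarith) (by norm_num) (by norm_num) (by norm_num)
    (cos_le_num (by norm_num)) (sin_le_num (by norm_num) (by norm_num)) (expm_le (by norm_num) (by norm_num) (by norm_num))
    (expn_ge (by norm_num) (by norm_num)) (by norm_num) (by norm_num) (by norm_num) (by norm_num) (by norm_num)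
  exact ⟨hy1, hy2⟩

private theorem yB12 {κ t : ℝ} (h : DomR κ t) (hk1 : 0.33 ≤ κ) (hk2 : κ ≤ 0.36) (ht1 : -0.7694 ≤ t + κ) (ht2 : t + κ ≤ -0.75039) :
    (-0.353) ≤ sy κ t ∧ sy κ t ≤ (-0.299) := by
  have hy1 : -0.353 ≤ sy κ t := syL_ang2 h 0.33 0.36 0.7694 0.759 0.7255 0.6883 0.353 1.42333 0.70257 hk1 hk2 (by linarith) (by norm_num) (by norm_num) (by norm_num) (by norm_num)
    (cos_ge_num (by norm_num) (by norm_num)) (sin_le_num (by norm_num) (by norm_num))
    (expn_ge (by norm_num) (by norm_num)) (expm_ge (by norm_num) (by norm_num) (by norm_num) (by norm_num)) (by norm_num) (by norm_num) (by norm_num)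
    (by norm_num) (by norm_num) (by norm_num)
  have hy2 : sy κ t ≤ -0.299 := syL_le h 0.33 0.36 0.75039 0.299 0.74155 0.74156 0.61589 0.6719 hk1 hk2 (by linarith) (by norm_num) (by norm_num) (by norm_num)
    (expm_ge (by norm_num) (by norm_num) (by norm_num) (by norm_num)) (expm_le (by norm_num) (by norm_num) (by norm_num)) (by norm_num)
    (by norm_num) (by norm_num) (by norm_num) (by norm_num) (by norm_num) (by norm_num)
  exact ⟨hy1, hy2⟩

theorem pc12 {β r h t κ : ℝ} (hh : h = 2 * Real.pi / (3 : ℕ)) (hβ : 0 < β) (hr : 10 ≤ r) (hκ : κ = β * r)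
    (hk1 : 0.33 ≤ κ) (hk2 : κ ≤ 0.36) (hT1 : 1.325 ≤ t + κ) (hT2 : t + κ ≤ 1.344) :
    Xf β r h t 0 ≠ 0 ∧ r * 0.1471 ≤ (Ld β r h t 1 - Ld β r h t 0).im ∧
      ‖(((-1 : ℤ) : ℂ) - 1) * Ld β r h t 0 - ((-1 : ℤ) : ℂ) * Ld β r h t 1‖ ≤ r * 7.01 := by
  obtain ⟨q1, q2, q3⟩ := b3_h hh
  have hR0 := b3_R0 hβ hr hκ
  have hR := b3_R hβ hr hκ (by linarith)
  have hD1 : DomR κ t := b3_dom (by linarith) (by linarith) (Or.inr (by linarith))
  have hD0 : DomR κ (t - h) := b3_dom (by linarith) (by linarith) (Or.inr (by linarith))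
  have y1 := yA12 hD1 hk1 hk2 (by linarith) (by linarith)
  have y0 := yB12 hD0 hk1 hk2 (by linarith) (by linarith)
  have j1 := T3_02_d1_2 hD1 hβ hk1 hk2 (by linarith) (by linarith) hR0 hR
  exact b3_piece 0.33 0.36 0.213 0.253 0.233 0.79215 0.80816 0.77647 0.291 1.497 1.5842 0.08 0.04 0.04 0.5209 0.1239 0 0 (-0.353) (-0.299) (-0.326) 1.38541 1.42334 0.5125 0.5143 0.05 0.13 0.13 2.9886 2.1358 0.8631 0.8601 0.1471 7.01
    hβ hr hκ (by norm_num) hk1 hk2 hD1 hD0 j1 (j1 _ (by rw [sub_self, norm_zero]; norm_num))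
    (T3_02_d0_2 hD0 hβ hk1 hk2 (by linarith) (by linarith) hR0 hR)
    (T3_02_p0 hD0 hβ hk1 hk2 (by linarith) (by linarith) hR0 hR)
    y1.1 y1.2 y0.1 y0.2 (by norm_num)
    (ex_um 0.213 (by norm_num) (by norm_num) (by norm_num) (by norm_num)) (ex_um 0.253 (by norm_num) (by norm_num) (by norm_num) (by norm_num)) (ex_lm 0.233 (by norm_num) (by norm_num) (by norm_num) (by norm_num) (by norm_num)) (by norm_num) (by norm_num) (by norm_num) (by norm_num) (by norm_num) (by norm_num) (by norm_num) (by norm_num)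
    (by norm_num) (by norm_num) (by norm_num) (by norm_num) (by norm_num) (by norm_num) (by norm_num) (by norm_num) (by norm_num) (by norm_num)
    (ex_up 0.353 (by norm_num) (by norm_num) (by norm_num) (by norm_num)) (ex_lp 0.326 (by norm_num) (by norm_num) (by norm_num)) (by norm_num) (by norm_num) (by norm_num) (by norm_num) (by norm_num) (by norm_num)
    (by norm_num) (by norm_num) (by norm_num) (by norm_num) (by norm_num) (by norm_num) (by norm_num) (by norm_num) (by norm_num) (by norm_num) (by norm_num)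
    (by norm_num) (by norm_num) (by norm_num) (by norm_num)

private theorem yA13 {κ t : ℝ} (h : DomR κ t) (hk1 : 0.33 ≤ κ) (hk2 : κ ≤ 0.36) (ht1 : 1.344 ≤ t + κ) (ht2 : t + κ ≤ 1.363) :
    0.213 ≤ sy κ t ∧ sy κ t ≤ 0.255 := by
  have hy1 : 0.213 ≤ sy κ t := syR_ge h 0.33 0.36 1.344 0.213 1.23738 1.23739 0.73211 0.79868 hk1 hk2 (by linarith) (by norm_num) (by norm_num)
    (expn_ge (by norm_num) (by norm_num)) (expn_le (by norm_num) (by norm_num) (by norm_num)) (by norm_num)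
    (by norm_num) (by norm_num) (by norm_num) (by norm_num) (by norm_num) (by norm_num)
  have hy2 : sy κ t ≤ 0.255 := syR_ang2 h 0.33 0.36 1.363 1.151 0.4108 0.9137 0.255 0.77492 1.29046 hk1 hk2 (by linarith) (by norm_num) (by norm_num) (by norm_num)
    (cos_le_num (by norm_num)) (sin_le_num (by norm_num) (by norm_num)) (expm_le (by norm_num) (by norm_num) (by norm_num))
    (expn_ge (by norm_num) (by norm_num)) (by norm_num) (by norm_num) (by norm_num) (by norm_num) (by norm_num)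
  exact ⟨hy1, hy2⟩

private theorem yB13 {κ t : ℝ} (h : DomR κ t) (hk1 : 0.33 ≤ κ) (hk2 : κ ≤ 0.36) (ht1 : -0.7504 ≤ t + κ) (ht2 : t + κ ≤ -0.73139) :
    (-0.341) ≤ sy κ t ∧ sy κ t ≤ (-0.29) := by
  have hy1 : -0.341 ≤ sy κ t := syL_ang2 h 0.33 0.36 0.7504 0.738 0.7398 0.6729 0.341 1.40635 0.71105 hk1 hk2 (by linarith) (by norm_num) (by norm_num) (by norm_num) (by norm_num)
    (cos_ge_num (by norm_num) (by norm_num)) (sin_le_num (by norm_num) (by norm_num))
    (expn_ge (by norm_num) (by norm_num)) (expm_ge (by norm_num) (by norm_num) (by norm_num) (by norm_num)) (by norm_num) (by norm_num) (by norm_num)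
    (by norm_num) (by norm_num) (by norm_num)
  have hy2 : sy κ t ≤ -0.29 := syL_le h 0.33 0.36 0.73139 0.29 0.74826 0.74827 0.60276 0.65758 hk1 hk2 (by linarith) (by norm_num) (by norm_num) (by norm_num)
    (expm_ge (by norm_num) (by norm_num) (by norm_num) (by norm_num)) (expm_le (by norm_num) (by norm_num) (by norm_num)) (by norm_num)
    (by norm_num) (by norm_num) (by norm_num) (by norm_num) (by norm_num) (by norm_num)
  exact ⟨hy1, hy2⟩

theorem pc13 {β r h t κ : ℝ} (hh : h = 2 * Real.pi / (3 : ℕ)) (hβ : 0 < β) (hr : 10 ≤ r) (hκ : κ = β * r)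
    (hk1 : 0.33 ≤ κ) (hk2 : κ ≤ 0.36) (hT1 : 1.344 ≤ t + κ) (hT2 : t + κ ≤ 1.363) :
    Xf β r h t 0 ≠ 0 ∧ r * 0.1471 ≤ (Ld β r h t 1 - Ld β r h t 0).im ∧
      ‖(((-1 : ℤ) : ℂ) - 1) * Ld β r h t 0 - ((-1 : ℤ) : ℂ) * Ld β r h t 1‖ ≤ r * 7.01 := by
  obtain ⟨q1, q2, q3⟩ := b3_h hh
  have hR0 := b3_R0 hβ hr hκ
  have hR := b3_R hβ hr hκ (by linarith)
  have hD1 : DomR κ t := b3_dom (by linarith) (by linarith) (Or.inr (by linarith))
  have hD0 : DomR κ (t - h) := b3_dom (by linarith) (by linarith) (Or.inr (by linarith))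
  have y1 := yA13 hD1 hk1 hk2 (by linarith) (by linarith)
  have y0 := yB13 hD0 hk1 hk2 (by linarith) (by linarith)
  have j1 := T3_02_d1_2 hD1 hβ hk1 hk2 (by linarith) (by linarith) hR0 hR
  exact b3_piece 0.33 0.36 0.213 0.255 0.234 0.79136 0.80816 0.77492 0.291 1.497 1.5879 0.08 0.04 0.04 0.5209 0.1239 0 0 (-0.341) (-0.29) (-0.316) 1.37163 1.40636 0.5063 0.5331 0.05 0.13 0.13 2.9886 2.0724 0.8319 0.7901 0.1471 7.01
    hβ hr hκ (by norm_num) hk1 hk2 hD1 hD0 j1 (j1 _ (by rw [sub_self, norm_zero]; norm_num))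
    (T3_02_d0_2 hD0 hβ hk1 hk2 (by linarith) (by linarith) hR0 hR)
    (T3_02_p0 hD0 hβ hk1 hk2 (by linarith) (by linarith) hR0 hR)
    y1.1 y1.2 y0.1 y0.2 (by norm_num)
    (ex_um 0.213 (by norm_num) (by norm_num) (by norm_num) (by norm_num)) (ex_um 0.255 (by norm_num) (by norm_num) (by norm_num) (by norm_num)) (ex_lm 0.234 (by norm_num) (by norm_num) (by norm_num) (by norm_num) (by norm_num)) (by norm_num) (by norm_num) (by norm_num) (by norm_num) (by norm_num) (by norm_num) (by norm_num) (by norm_num)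
    (by norm_num) (by norm_num) (by norm_num) (by norm_num) (by norm_num) (by norm_num) (by norm_num) (by norm_num) (by norm_num) (by norm_num)
    (ex_up 0.341 (by norm_num) (by norm_num) (by norm_num) (by norm_num)) (ex_lp 0.316 (by norm_num) (by norm_num) (by norm_num)) (by norm_num) (by norm_num) (by norm_num) (by norm_num) (by norm_num) (by norm_num)
    (by norm_num) (by norm_num) (by norm_num) (by norm_num) (by norm_num) (by norm_num) (by norm_num) (by norm_num) (by norm_num) (by norm_num) (by norm_num)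
    (by norm_num) (by norm_num) (by norm_num) (by norm_num)

private theorem yA14 {κ t : ℝ} (h : DomR κ t) (hk1 : 0.33 ≤ κ) (hk2 : κ ≤ 0.36) (ht1 : 1.363 ≤ t + κ) (ht2 : t + κ ≤ 1.382) :
    0.213 ≤ sy κ t ∧ sy κ t ≤ 0.256 := by
  have hy1 : 0.213 ≤ sy κ t := syR_ge h 0.33 0.36 1.363 0.213 1.23738 1.23739 0.73211 0.79868 hk1 hk2 (by linarith) (by norm_num) (by norm_num)
    (expn_ge (by norm_num) (by norm_num)) (expn_le (by norm_num) (by norm_num) (by norm_num)) (by norm_num)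
    (by norm_num) (by norm_num) (by norm_num) (by norm_num) (by norm_num) (by norm_num)
  have hy2 : sy κ t ≤ 0.256 := syR_ang2 h 0.33 0.36 1.382 1.162 0.4009 0.9182 0.256 0.77415 1.29175 hk1 hk2 (by linarith) (by norm_num) (by norm_num) (by norm_num)
    (cos_le_num (by norm_num)) (sin_le_num (by norm_num) (by norm_num)) (expm_le (by norm_num) (by norm_num) (by norm_num))
    (expn_ge (by norm_num) (by norm_num)) (by norm_num) (by norm_num) (by norm_num) (by norm_num) (by norm_num)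
  exact ⟨hy1, hy2⟩

private theorem yB14 {κ t : ℝ} (h : DomR κ t) (hk1 : 0.33 ≤ κ) (hk2 : κ ≤ 0.36) (ht1 : -0.7314 ≤ t + κ) (ht2 : t + κ ≤ -0.71239) :
    (-0.329) ≤ sy κ t ∧ sy κ t ≤ (-0.28) := by
  have hy1 : -0.329 ≤ sy κ t := syL_ang2 h 0.33 0.36 0.7314 0.717 0.7537 0.6572 0.329 1.38957 0.71964 hk1 hk2 (by linarith) (by norm_num) (by norm_num) (by norm_num) (by norm_num)
    (cos_ge_num (by norm_num) (by norm_num)) (sin_le_num (by norm_num) (by norm_num))
    (expn_ge (by norm_num) (by norm_num)) (expm_ge (by norm_num) (by norm_num) (by norm_num) (by norm_num)) (by norm_num) (by norm_num) (by norm_num)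
    (by norm_num) (by norm_num) (by norm_num)
  have hy2 : sy κ t ≤ -0.28 := syL_le h 0.33 0.36 0.71239 0.28 0.75578 0.75579 0.58782 0.64128 hk1 hk2 (by linarith) (by norm_num) (by norm_num) (by norm_num)
    (expm_ge (by norm_num) (by norm_num) (by norm_num) (by norm_num)) (expm_le (by norm_num) (by norm_num) (by norm_num)) (by norm_num)
    (by norm_num) (by norm_num) (by norm_num) (by norm_num) (by norm_num) (by norm_num)
  exact ⟨hy1, hy2⟩

theorem pc14 {β r h t κ : ℝ} (hh : h = 2 * Real.pi / (3 : ℕ)) (hβ : 0 < β) (hr : 10 ≤ r) (hκ : κ = β * r)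
    (hk1 : 0.33 ≤ κ) (hk2 : κ ≤ 0.36) (hT1 : 1.363 ≤ t + κ) (hT2 : t + κ ≤ 1.382) :
    Xf β r h t 0 ≠ 0 ∧ r * 0.1471 ≤ (Ld β r h t 1 - Ld β r h t 0).im ∧
      ‖(((-1 : ℤ) : ℂ) - 1) * Ld β r h t 0 - ((-1 : ℤ) : ℂ) * Ld β r h t 1‖ ≤ r * 7.01 := by
  obtain ⟨q1, q2, q3⟩ := b3_h hh
  have hR0 := b3_R0 hβ hr hκ
  have hR := b3_R hβ hr hκ (by linarith)
  have hD1 : DomR κ t := b3_dom (by linarith) (by linarith) (Or.inr (by linarith))
  have hD0 : DomR κ (t - h) := b3_dom (by linarith) (by linarith) (Or.inr (by linarith))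
  have y1 := yA14 hD1 hk1 hk2 (by linarith) (by linarith)
  have y0 := yB14 hD0 hk1 hk2 (by linarith) (by linarith)
  have j1 := T3_02_d1_2 hD1 hβ hk1 hk2 (by linarith) (by linarith) hR0 hR
  exact b3_piece 0.33 0.36 0.213 0.256 0.234 0.79136 0.80816 0.77415 0.291 1.497 1.5897 0.08 0.04 0.04 0.5209 0.1239 0 0 (-0.329) (-0.28) (-0.304) 1.35526 1.38958 0.5003 0.552 0.05 0.13 0.13 2.9886 2.0125 0.8044 0.7291 0.1471 7.01
    hβ hr hκ (by norm_num) hk1 hk2 hD1 hD0 j1 (j1 _ (by rw [sub_self, norm_zero]; norm_num))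
    (T3_02_d0_2 hD0 hβ hk1 hk2 (by linarith) (by linarith) hR0 hR)
    (T3_02_p0 hD0 hβ hk1 hk2 (by linarith) (by linarith) hR0 hR)
    y1.1 y1.2 y0.1 y0.2 (by norm_num)
    (ex_um 0.213 (by norm_num) (by norm_num) (by norm_num) (by norm_num)) (ex_um 0.256 (by norm_num) (by norm_num) (by norm_num) (by norm_num)) (ex_lm 0.234 (by norm_num) (by norm_num) (by norm_num) (by norm_num) (by norm_num)) (by norm_num) (by norm_num) (by norm_num) (by norm_num) (by norm_num) (by norm_num) (by norm_num) (by norm_num)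
    (by norm_num) (by norm_num) (by norm_num) (by norm_num) (by norm_num) (by norm_num) (by norm_num) (by norm_num) (by norm_num) (by norm_num)
    (ex_up 0.329 (by norm_num) (by norm_num) (by norm_num) (by norm_num)) (ex_lp 0.304 (by norm_num) (by norm_num) (by norm_num)) (by norm_num) (by norm_num) (by norm_num) (by norm_num) (by norm_num) (by norm_num)
    (by norm_num) (by norm_num) (by norm_num) (by norm_num) (by norm_num) (by norm_num) (by norm_num) (by norm_num) (by norm_num) (by norm_num) (by norm_num)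
    (by norm_num) (by norm_num) (by norm_num) (by norm_num)

theorem innS {β r h t κ : ℝ} (hh : h = 2 * Real.pi / (3 : ℕ)) (hβ : 0 < β) (hr : 10 ≤ r) (hκ : κ = β * r)
    (hk1 : 0.33 ≤ κ) (hk2 : κ ≤ 0.36) (hT1 : 1.112 ≤ t + κ) (hT2 : t + κ ≤ 1.382) :
    Xf β r h t 0 ≠ 0 ∧ r * 0.1471 ≤ (Ld β r h t 1 - Ld β r h t 0).im ∧
      ‖(((-1 : ℤ) : ℂ) - 1) * Ld β r h t 0 - ((-1 : ℤ) : ℂ) * Ld β r h t 1‖ ≤ r * 7.01 := by
  rcases le_total (t + κ) 1.127 with f0 | g0
  · exact pc0 hh hβ hr hκ hk1 hk2 hT1 f0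
  rcases le_total (t + κ) 1.142 with f1 | g1
  · exact pc1 hh hβ hr hκ hk1 hk2 g0 f1
  rcases le_total (t + κ) 1.159 with f2 | g2
  · exact pc2 hh hβ hr hκ hk1 hk2 g1 f2
  rcases le_total (t + κ) 1.177 with f3 | g3
  · exact pc3 hh hβ hr hκ hk1 hk2 g2 f3
  rcases le_total (t + κ) 1.194 with f4 | g4
  · exact pc4 hh hβ hr hκ hk1 hk2 g3 f4
  rcases le_total (t + κ) 1.212 with f5 | g5
  · exact pc5 hh hβ hr hκ hk1 hk2 g4 f5
  rcases le_total (t + κ) 1.231 with f6 | g6
  · exact pc6 hh hβ hr hκ hk1 hk2 g5 f6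
  rcases le_total (t + κ) 1.25 with f7 | g7
  · exact pc7 hh hβ hr hκ hk1 hk2 g6 f7
  rcases le_total (t + κ) 1.269 with f8 | g8
  · exact pc8 hh hβ hr hκ hk1 hk2 g7 f8
  rcases le_total (t + κ) 1.288 with f9 | g9
  · exact pc9 hh hβ hr hκ hk1 hk2 g8 f9
  rcases le_total (t + κ) 1.306 with f10 | g10
  · exact pc10 hh hβ hr hκ hk1 hk2 g9 f10
  rcases le_total (t + κ) 1.325 with f11 | g11
  · exact pc11 hh hβ hr hκ hk1 hk2 g10 f11
  rcases le_total (t + κ) 1.344 with f12 | g12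
  · exact pc12 hh hβ hr hκ hk1 hk2 g11 f12
  rcases le_total (t + κ) 1.363 with f13 | g13
  · exact pc13 hh hβ hr hκ hk1 hk2 g12 f13
  exact pc14 hh hβ hr hκ hk1 hk2 g13 hT2

theorem circ {p : ℤ} (hp : IsCoprime (3 : ℤ) p) {β r : ℝ} (hβ : 0 < β) (hr : 10 ≤ r) (hk1 : 0.33 ≤ β * r)
    (hk2 : β * r ≤ 0.36) : Circ (2 * Real.pi * p / (3 : ℕ) + β) r := by
  obtain ⟨κ, hκ⟩ : ∃ κ, κ = β * r := ⟨_, rfl⟩
  rw [← hκ] at hk1 hk2
  refine circ3 hp hr (h := 2 * Real.pi / (3 : ℕ)) (κ := κ) rfl 1.112 1.382 1.0204 0.1471 0.01508 0.01508 7.01 (by norm_num) (by norm_num) (by norm_num)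
    (by norm_num) (by norm_num) ?_ ?_ ?_ ?_ ?_ (by norm_num) (by norm_num)
  · intro t h1 h2
    exact (innS rfl hβ hr hκ hk1 hk2 h1 h2).1
  · intro t h1 h2
    exact (innE rfl hβ hr hκ hk1 hk2 h1 h2).1
  · intro t h1 h2
    exact (innE rfl hβ hr hκ hk1 hk2 h1 h2).2
  · intro t h1 h2
    exact (innS rfl hβ hr hκ hk1 hk2 h1 h2).2
  · intro t h1 h2 h3
    rcases h3 with h3 | h3
    · exact left rfl hβ hr hκ hk1 hk2 h1 h3
    · exact right0 rfl hβ hr hκ hk1 hk2 h3 h2

end B3_02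

end Sok
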