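import Pool.Agent.Lib.MP_816dec_an.JBG2

/-!
MP_816dec_an (A3, row R1): b = 3, J tables of the cell 03.
-/

set_option autoImplicit false
set_option maxHeartbeats 4000000

open Complex Set

namespace Sok

private theorem T3_03_p1_b0_0 {β x y : ℝ} (hβ : 0 < β) (hN : β * 26.315 ≤ 1) (hx1 : 0.1481 ≤ x) (hx2 : x ≤ 0.3801)
    (hy1 : -0 ≤ y) (hy2 : y ≤ 0.241) : ‖HH β (x + y * I) - 1‖ ≤ 0.015 := by
  refine le_epsJ (C := 0.3774) (N0 := 26.315) (J_boxp 0.1481 0.3801 0 0.241 0.241 0.8143 0.4501 1.298 1.5505 0.4546 5.1299 26.315 0.5528 2.04 1.279 1.2739 0.4071 0.3321 1.0589 3.8654 0.4023 0.6804 0.8332 2.6491 0.0000223 0.0001604 0.0000003101 0.0000003101 0.00002528 0.0000003101 0.0000003101 0.0000003101 0.3774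
    hβ hN hx1 hx2 hy1 hy2 (by norm_num) (by norm_num) (by linarith) (by norm_num) (by norm_num) (by norm_num) (by norm_num) (by norm_num) (by norm_num) (by norm_num) (by norm_num) (by norm_num) (by norm_num) (by norm_num) (by norm_num) (by norm_num) (by norm_num) (by norm_num) (by norm_num) (by norm_num) (by norm_num) (by norm_num) (by norm_num) (by norm_num)
    (cube_sqrt_geJ (s := 0.9031) (by norm_num) (by norm_num) (by norm_num) (by norm_num))
    (cube_sqrt_geJ (s := 0.9655) (by norm_num) (by norm_num) (by norm_num) (by norm_num))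
    (by norm_num) (by norm_num) (by norm_num) (by norm_num) (by norm_num) (by norm_num) (by norm_num) (by norm_num) (by norm_num) (by norm_num) (by norm_num) (by norm_num) (by norm_num) (by norm_num) (by norm_num) (by norm_num) (by norm_num) (by norm_num)
    (exp_neg_leJ (r := 0.712) 10 (by norm_num) (by norm_num) (by norm_num) (by norm_num))
    (exp_neg_leJ (r := 0.739) 8 (by norm_num) (by norm_num) (by norm_num) (by norm_num))
    (exp_neg_leJ (r := 0.99) 14 (by norm_num) (by norm_num) (by norm_num) (by norm_num))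
    (exp_neg_leJ (r := 0.99) 14 (by norm_num) (by norm_num) (by norm_num) (by norm_num))
    (exp_neg_leJ (r := 0.586) 10 (by norm_num) (by norm_num) (by norm_num) (by norm_num))
    (exp_neg_leJ (r := 0.99) 14 (by norm_num) (by norm_num) (by norm_num) (by norm_num))
    (exp_neg_leJ (r := 0.99) 14 (by norm_num) (by norm_num) (by norm_num) (by norm_num))
    (exp_neg_leJ (r := 0.99) 14 (by norm_num) (by norm_num) (by norm_num) (by norm_num))
    (by norm_num)) (by norm_num) hN hβ.le (by norm_num)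

private theorem T3_03_p1_c0 {κ t β : ℝ} (h : DomR κ t) (hβ : 0 < β) (hk1 : 0.36 ≤ κ) (hk2 : κ ≤ 0.38)
    (ht1 : 0 ≤ t + κ) (ht2 : t + κ ≤ 1.127) (hR0 : β * 10 ≤ κ) (hR : β * (1 * (1 + κ ^ 2)) ≤ κ) :
    ‖HH β (sg κ t) - 1‖ ≤ 0.015 := by
  have hN : β * 26.315 ≤ 1 := bNR hβ h.1 hk2 hR0 (by norm_num)
  have hy1 : 0 ≤ sy κ t := sy_nonneg h (by linarith)
  have hy2 : sy κ t ≤ 0.241 := syR_ang2 h 0.36 0.38 1.127 0.938 0.5924 0.8066 0.241 0.78585 1.27252 hk1 hk2 (by linarith) (by norm_num) (by norm_num) (by norm_num)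
    (cos_le_num (by norm_num)) (sin_le_num (by norm_num) (by norm_num)) (expm_le (by norm_num) (by norm_num) (by norm_num))
    (expn_ge (by norm_num) (by norm_num)) (by norm_num) (by norm_num) (by norm_num) (by norm_num) (by norm_num)
  have hx1 : 0.1481 ≤ sx κ t := sx_lo h 0.36 0.241 0.241 0.78584 0.1481 hk1 (by norm_num) hy2 (abs_le.2 ⟨by linarith, by linarith⟩) (expm_ge (by norm_num) (by norm_num) (by norm_num) (by norm_num)) (by norm_num) (by norm_num)
  have hx2 : sx κ t ≤ 0.3801 := sx_hi h 0.38 0 0 1 0.3801 hk2 hy1 (by norm_num) (abs_nonneg _) (by simp) (by norm_num) (by norm_num)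
  exact T3_03_p1_b0_0 hβ hN hx1 hx2 (by linarith) (by linarith)

theorem T3_03_p1 {κ t β : ℝ} (h : DomR κ t) (hβ : 0 < β) (hk1 : 0.36 ≤ κ) (hk2 : κ ≤ 0.38)
    (ht1 : 0 ≤ t + κ) (ht2 : t + κ ≤ 1.127) (hR0 : β * 10 ≤ κ) (hR : β * (1 * (1 + κ ^ 2)) ≤ κ) :
    ‖HH β (sg κ t) - 1‖ ≤ 0.015 := by
  exact T3_03_p1_c0 h hβ hk1 hk2 ht1 ht2 hR0 hR

private theorem T3_03_p0_b0_0 {β x y : ℝ} (hβ : 0 < β) (hN : β * 27.027 ≤ 1) (hx1 : 0.282 ≤ x) (hx2 : x ≤ 0.3685)
    (hy1 : -0.527 ≤ y) (hy2 : y ≤ -0.507) : ‖HH β (x + y * I) - 1‖ ≤ 0.15 := by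
  refine le_epsJ (C := 3.8746) (N0 := 27.027) (J_boxp 0.282 0.3685 0.527 0 (-0.507) 0.5344 0.6431 0.6156 2.0084 0.3131 5.1988 27.027 1.2035 6.019 1.748 0.7919 0.2671 0.16 0.2729 2.1628 0.2041 0.8904 0.7021 3.5279 0.0007333 0.01325 0.0006268 0.0000003101 0.004023 0.0000003101 0.0000003101 0.0000003101 3.8746
    hβ hN hx1 hx2 hy1 hy2 (by norm_num) (by norm_num) (by linarith) (by norm_num) (by norm_num) (by norm_num) (by norm_num) (by norm_num) (by norm_num) (by norm_num) (by norm_num) (by norm_num) (by norm_num) (by norm_num) (by norm_num) (by norm_num) (by norm_num) (by norm_num) (by norm_num) (by norm_num) (by norm_num) (by norm_num) (by norm_num) (by norm_num)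
    (cube_sqrt_geJ (s := 0.7738) (by norm_num) (by norm_num) (by norm_num) (by norm_num))
    (cube_sqrt_geJ (s := 0.9233) (by norm_num) (by norm_num) (by norm_num) (by norm_num))
    (by norm_num) (by norm_num) (by norm_num) (by norm_num) (by norm_num) (by norm_num) (by norm_num) (by norm_num) (by norm_num) (by norm_num) (by norm_num) (by norm_num) (by norm_num) (by norm_num) (by norm_num) (by norm_num) (by norm_num) (by norm_num)
    (exp_neg_leJ (r := 0.218) 7 (by norm_num) (by norm_num) (by norm_num) (by norm_num))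
    (exp_neg_leJ (r := 0.324) 4 (by norm_num) (by norm_num) (by norm_num) (by norm_num))
    (exp_neg_leJ (r := 0.375) 7 (by norm_num) (by norm_num) (by norm_num) (by norm_num))
    (exp_neg_leJ (r := 0.99) 14 (by norm_num) (by norm_num) (by norm_num) (by norm_num))
    (exp_neg_leJ (r := 0.516) 5 (by norm_num) (by norm_num) (by norm_num) (by norm_num))
    (exp_neg_leJ (r := 0.99) 14 (by norm_num) (by norm_num) (by norm_num) (by norm_num))
    (exp_neg_leJ (r := 0.99) 14 (by norm_num) (by norm_num) (by norm_num) (by norm_num))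
    (exp_neg_leJ (r := 0.99) 14 (by norm_num) (by norm_num) (by norm_num) (by norm_num))
    (by norm_num)) (by norm_num) hN hβ.le (by norm_num)

private theorem T3_03_p0_b0_1 {β x y : ℝ} (hβ : 0 < β) (hN : β * 27.027 ≤ 1) (hx1 : 0.2697 ≤ x) (hx2 : x ≤ 0.3992)
    (hy1 : -0.507 ≤ y) (hy2 : y ≤ -0.467) : ‖HH β (x + y * I) - 1‖ ≤ 0.15 := by
  refine le_epsJ (C := 3.8571) (N0 := 27.027) (J_boxp 0.2697 0.3992 0.507 0 (-0.467) 0.5399 0.6453 0.666 2.0572 0.3256 5.1988 27.027 1.1953 5.923 1.74 0.7985 0.2699 0.1623 0.3003 2.2155 0.209 0.8734 0.7319 3.4973 0.0006797 0.01246 0.0002988 0.0000003101 0.003527 0.0000003101 0.0000003101 0.0000003101 3.8571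
    hβ hN hx1 hx2 hy1 hy2 (by norm_num) (by norm_num) (by linarith) (by norm_num) (by norm_num) (by norm_num) (by norm_num) (by norm_num) (by norm_num) (by norm_num) (by norm_num) (by norm_num) (by norm_num) (by norm_num) (by norm_num) (by norm_num) (by norm_num) (by norm_num) (by norm_num) (by norm_num) (by norm_num) (by norm_num) (by norm_num) (by norm_num)
    (cube_sqrt_geJ (s := 0.7756) (by norm_num) (by norm_num) (by norm_num) (by norm_num))
    (cube_sqrt_geJ (s := 0.9239) (by norm_num) (by norm_num) (by norm_num) (by norm_num))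
    (by norm_num) (by norm_num) (by norm_num) (by norm_num) (by norm_num) (by norm_num) (by norm_num) (by norm_num) (by norm_num) (by norm_num) (by norm_num) (by norm_num) (by norm_num) (by norm_num) (by norm_num) (by norm_num) (by norm_num) (by norm_num)
    (exp_neg_leJ (r := 0.294) 7 (by norm_num) (by norm_num) (by norm_num) (by norm_num))
    (exp_neg_leJ (r := 0.386) 4 (by norm_num) (by norm_num) (by norm_num) (by norm_num))
    (exp_neg_leJ (r := 0.116) 8 (by norm_num) (by norm_num) (by norm_num) (by norm_num))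
    (exp_neg_leJ (r := 0.99) 14 (by norm_num) (by norm_num) (by norm_num) (by norm_num))
    (exp_neg_leJ (r := 0.648) 5 (by norm_num) (by norm_num) (by norm_num) (by norm_num))
    (exp_neg_leJ (r := 0.99) 14 (by norm_num) (by norm_num) (by norm_num) (by norm_num))
    (exp_neg_leJ (r := 0.99) 14 (by norm_num) (by norm_num) (by norm_num) (by norm_num))
    (exp_neg_leJ (r := 0.99) 14 (by norm_num) (by norm_num) (by norm_num) (by norm_num))
    (by norm_num)) (by norm_num) hN hβ.le (by norm_num)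

private theorem T3_03_p0_b0_2 {β x y : ℝ} (hβ : 0 < β) (hN : β * 27.027 ≤ 1) (hx1 : 0.2395 ≤ x) (hx2 : x ≤ 0.4542)
    (hy1 : -0.467 ≤ y) (hy2 : y ≤ -0.377) : ‖HH β (x + y * I) - 1‖ ≤ 0.15 := by
  refine le_epsJ (C := 3.9865) (N0 := 27.027) (J_boxp 0.2395 0.4542 0.467 0 (-0.377) 0.5471 0.6515 0.771 2.1699 0.3503 5.1988 27.027 1.1909 5.873 1.737 0.8143 0.2735 0.1649 0.3531 2.3224 0.2162 0.8316 0.7802 3.4201 0.0006169 0.01162 0.00007173 0.0000003101 0.002906 0.0000003101 0.0000003101 0.0000003101 3.9865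
    hβ hN hx1 hx2 hy1 hy2 (by norm_num) (by norm_num) (by linarith) (by norm_num) (by norm_num) (by norm_num) (by norm_num) (by norm_num) (by norm_num) (by norm_num) (by norm_num) (by norm_num) (by norm_num) (by norm_num) (by norm_num) (by norm_num) (by norm_num) (by norm_num) (by norm_num) (by norm_num) (by norm_num) (by norm_num) (by norm_num) (by norm_num)
    (cube_sqrt_geJ (s := 0.7765) (by norm_num) (by norm_num) (by norm_num) (by norm_num))
    (cube_sqrt_geJ (s := 0.9242) (by norm_num) (by norm_num) (by norm_num) (by norm_num))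
    (by norm_num) (by norm_num) (by norm_num) (by norm_num) (by norm_num) (by norm_num) (by norm_num) (by norm_num) (by norm_num) (by norm_num) (by norm_num) (by norm_num) (by norm_num) (by norm_num) (by norm_num) (by norm_num) (by norm_num) (by norm_num)
    (exp_neg_leJ (r := 0.391) 7 (by norm_num) (by norm_num) (by norm_num) (by norm_num))
    (exp_neg_leJ (r := 0.456) 4 (by norm_num) (by norm_num) (by norm_num) (by norm_num))
    (exp_neg_leJ (r := 0.543) 9 (by norm_num) (by norm_num) (by norm_num) (by norm_num))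
    (exp_neg_leJ (r := 0.99) 14 (by norm_num) (by norm_num) (by norm_num) (by norm_num))
    (exp_neg_leJ (r := 0.843) 5 (by norm_num) (by norm_num) (by norm_num) (by norm_num))
    (exp_neg_leJ (r := 0.99) 14 (by norm_num) (by norm_num) (by norm_num) (by norm_num))
    (exp_neg_leJ (r := 0.99) 14 (by norm_num) (by norm_num) (by norm_num) (by norm_num))
    (exp_neg_leJ (r := 0.99) 14 (by norm_num) (by norm_num) (by norm_num) (by norm_num))
    (by norm_num)) (by norm_num) hN hβ.le (by norm_num)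

private theorem T3_03_p0_b0_3 {β x y : ℝ} (hβ : 0 < β) (hN : β * 27.027 ≤ 1) (hx1 : 0.3135 ≤ x) (hx2 : x ≤ 0.4422)
    (hy1 : -0.377 ≤ y) (hy2 : y ≤ -0.309) : ‖HH β (x + y * I) - 1‖ ≤ 0.15 := by
  refine le_epsJ (C := 1.1819) (N0 := 27.027) (J_boxp 0.3135 0.4422 0.377 0 (-0.309) 0.6631 0.5811 0.8204 1.6775 0.3614 5.1988 27.027 0.8764 3.352 1.488 0.902 0.3315 0.2346 0.5205 2.6276 0.3013 0.934 1.1729 3.7594 0.000129 0.001765 0.0000007777 0.0000003101 0.0002908 0.0000003101 0.0000003101 0.0000003101 1.1819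
    hβ hN hx1 hx2 hy1 hy2 (by norm_num) (by norm_num) (by linarith) (by norm_num) (by norm_num) (by norm_num) (by norm_num) (by norm_num) (by norm_num) (by norm_num) (by norm_num) (by norm_num) (by norm_num) (by norm_num) (by norm_num) (by norm_num) (by norm_num) (by norm_num) (by norm_num) (by norm_num) (by norm_num) (by norm_num) (by norm_num) (by norm_num)
    (cube_sqrt_geJ (s := 0.8413) (by norm_num) (by norm_num) (by norm_num) (by norm_num))
    (cube_sqrt_geJ (s := 0.9448) (by norm_num) (by norm_num) (by norm_num) (by norm_num))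
    (by norm_num) (by norm_num) (by norm_num) (by norm_num) (by norm_num) (by norm_num) (by norm_num) (by norm_num) (by norm_num) (by norm_num) (by norm_num) (by norm_num) (by norm_num) (by norm_num) (by norm_num) (by norm_num) (by norm_num) (by norm_num)
    (exp_neg_leJ (r := 0.959) 8 (by norm_num) (by norm_num) (by norm_num) (by norm_num))
    (exp_neg_leJ (r := 0.34) 6 (by norm_num) (by norm_num) (by norm_num) (by norm_num))
    (exp_neg_leJ (r := 0.067) 14 (by norm_num) (by norm_num) (by norm_num) (by norm_num))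
    (exp_neg_leJ (r := 0.99) 14 (by norm_num) (by norm_num) (by norm_num) (by norm_num))
    (exp_neg_leJ (r := 0.143) 8 (by norm_num) (by norm_num) (by norm_num) (by norm_num))
    (exp_neg_leJ (r := 0.99) 14 (by norm_num) (by norm_num) (by norm_num) (by norm_num))
    (exp_neg_leJ (r := 0.99) 14 (by norm_num) (by norm_num) (by norm_num) (by norm_num))
    (exp_neg_leJ (r := 0.99) 14 (by norm_num) (by norm_num) (by norm_num) (by norm_num))
    (by norm_num)) (by norm_num) hN hβ.le (by norm_num)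

private theorem T3_03_p0_c0 {κ t β : ℝ} (h : DomR κ t) (hβ : 0 < β) (hk1 : 0.36 ≤ κ) (hk2 : κ ≤ 0.37)
    (ht1 : -0.9674 ≤ t + κ) (ht2 : t + κ ≤ -0.71239) (hR0 : β * 10 ≤ κ) (hR : β * (1 * (1 + κ ^ 2)) ≤ κ) :
    ‖HH β (sg κ t) - 1‖ ≤ 0.15 := by
  have hN : β * 27.027 ≤ 1 := bNR hβ h.1 hk2 hR0 (by norm_num)
  have hy1 : -0.527 ≤ sy κ t := syL_ang2 h 0.36 0.37 0.9674 0.998 0.5419 0.8406 0.527 1.69384 0.59037 hk1 hk2 (by linarith) (by norm_num) (by norm_num) (by norm_num) (by norm_num)
    (cos_ge_num (by norm_num) (by norm_num)) (sin_le_num (by norm_num) (by norm_num))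
    (expn_ge (by norm_num) (by norm_num)) (expm_ge (by norm_num) (by norm_num) (by norm_num) (by norm_num)) (by norm_num) (by norm_num) (by norm_num)
    (by norm_num) (by norm_num) (by norm_num)
  have hy2 : sy κ t ≤ -0.309 := syL_le h 0.36 0.37 0.71239 0.309 0.73418 0.73419 0.61313 0.63018 hk1 hk2 (by linarith) (by norm_num) (by norm_num) (by norm_num)
    (expm_ge (by norm_num) (by norm_num) (by norm_num) (by norm_num)) (expm_le (by norm_num) (by norm_num) (by norm_num)) (by norm_num)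
    (by norm_num) (by norm_num) (by norm_num) (by norm_num) (by norm_num) (by norm_num)
  rcases le_total (sy κ t) (-0.507) with f0 | g0
  · have hx1 : 0.282 ≤ sx κ t := sx_lo h 0.36 (-0.507) 0.527 1.6603 0.282 hk1 (by norm_num) f0 (abs_le.2 ⟨by linarith, by linarith⟩) (by rw [neg_neg]; exact expn_ge (by norm_num) (by norm_num)) (by norm_num) (by norm_num)
    have hx2 : sx κ t ≤ 0.3685 := sx_hi h 0.37 (-0.527) 0.507 1.69385 0.3685 hk2 hy1 (by norm_num) (by rw [abs_of_nonpos (by linarith)]; linarith) (by rw [neg_neg]; exact expn_le (by norm_num) (by norm_num) (by norm_num)) (by norm_num) (by norm_num)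
    exact T3_03_p0_b0_0 hβ hN hx1 hx2 (by linarith) (by linarith)
  rcases le_total (sy κ t) (-0.467) with f1 | g1
  · have hx1 : 0.2697 ≤ sx κ t := sx_lo h 0.36 (-0.467) 0.507 1.5952 0.2697 hk1 (by norm_num) f1 (abs_le.2 ⟨by linarith, by linarith⟩) (by rw [neg_neg]; exact expn_ge (by norm_num) (by norm_num)) (by norm_num) (by norm_num)
    have hx2 : sx κ t ≤ 0.3992 := sx_hi h 0.37 (-0.507) 0.467 1.66031 0.3992 hk2 g0 (by norm_num) (by rw [abs_of_nonpos (by linarith)]; linarith) (by rw [neg_neg]; exact expn_le (by norm_num) (by norm_num) (by norm_num)) (by norm_num) (by norm_num)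
    exact T3_03_p0_b0_1 hβ hN hx1 hx2 (by linarith) (by linarith)
  rcases le_total (sy κ t) (-0.377) with f2 | g2
  · have hx1 : 0.2395 ≤ sx κ t := sx_lo h 0.36 (-0.377) 0.467 1.4579 0.2395 hk1 (by norm_num) f2 (abs_le.2 ⟨by linarith, by linarith⟩) (by rw [neg_neg]; exact expn_ge (by norm_num) (by norm_num)) (by norm_num) (by norm_num)
    have hx2 : sx κ t ≤ 0.4542 := sx_hi h 0.37 (-0.467) 0.377 1.59521 0.4542 hk2 g1 (by norm_num) (by rw [abs_of_nonpos (by linarith)]; linarith) (by rw [neg_neg]; exact expn_le (by norm_num) (by norm_num) (by norm_num)) (by norm_num) (by norm_num)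
    exact T3_03_p0_b0_2 hβ hN hx1 hx2 (by linarith) (by linarith)
  have hx1 : 0.3135 ≤ sx κ t := sx_lo h 0.36 (-0.309) 0.377 1.36206 0.3135 hk1 (by norm_num) hy2 (abs_le.2 ⟨by linarith, by linarith⟩) (by rw [neg_neg]; exact expn_ge (by norm_num) (by norm_num)) (by norm_num) (by norm_num)
  have hx2 : sx κ t ≤ 0.4422 := sx_hi h 0.37 (-0.377) 0.309 1.45791 0.4422 hk2 g2 (by norm_num) (by rw [abs_of_nonpos (by linarith)]; linarith) (by rw [neg_neg]; exact expn_le (by norm_num) (by norm_num) (by norm_num)) (by norm_num) (by norm_num)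
  exact T3_03_p0_b0_3 hβ hN hx1 hx2 (by linarith) (by linarith)

private theorem T3_03_p0_b1_0 {β x y : ℝ} (hβ : 0 < β) (hN : β * 26.315 ≤ 1) (hx1 : 0.3185 ≤ x) (hx2 : x ≤ 0.378)
    (hy1 : -0.547 ≤ y) (hy2 : y ≤ -0.537) : ‖HH β (x + y * I) - 1‖ ≤ 0.15 := by
  refine le_epsJ (C := 3.8502) (N0 := 26.315) (J_boxp 0.3185 0.378 0.547 0 (-0.537) 0.5459 0.665 0.5978 1.917 0.3085 5.1299 26.315 1.2182 6.194 1.761 0.7698 0.2729 0.1621 0.2538 2.0912 0.2109 0.9409 0.7207 3.5414 0.000761 0.01406 0.00126 0.0000003101 0.003893 0.0000003101 0.0000003101 0.0000003101 3.8502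
    hβ hN hx1 hx2 hy1 hy2 (by norm_num) (by norm_num) (by linarith) (by norm_num) (by norm_num) (by norm_num) (by norm_num) (by norm_num) (by norm_num) (by norm_num) (by norm_num) (by norm_num) (by norm_num) (by norm_num) (by norm_num) (by norm_num) (by norm_num) (by norm_num) (by norm_num) (by norm_num) (by norm_num) (by norm_num) (by norm_num) (by norm_num)
    (cube_sqrt_geJ (s := 0.7706) (by norm_num) (by norm_num) (by norm_num) (by norm_num))
    (cube_sqrt_geJ (s := 0.9224) (by norm_num) (by norm_num) (by norm_num) (by norm_num))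
    (by norm_num) (by norm_num) (by norm_num) (by norm_num) (by norm_num) (by norm_num) (by norm_num) (by norm_num) (by norm_num) (by norm_num) (by norm_num) (by norm_num) (by norm_num) (by norm_num) (by norm_num) (by norm_num) (by norm_num) (by norm_num)
    (exp_neg_leJ (r := 0.181) 7 (by norm_num) (by norm_num) (by norm_num) (by norm_num))
    (exp_neg_leJ (r := 0.265) 4 (by norm_num) (by norm_num) (by norm_num) (by norm_num))
    (exp_neg_leJ (r := 0.678) 6 (by norm_num) (by norm_num) (by norm_num) (by norm_num))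
    (exp_neg_leJ (r := 0.99) 14 (by norm_num) (by norm_num) (by norm_num) (by norm_num))
    (exp_neg_leJ (r := 0.549) 5 (by norm_num) (by norm_num) (by norm_num) (by norm_num))
    (exp_neg_leJ (r := 0.99) 14 (by norm_num) (by norm_num) (by norm_num) (by norm_num))
    (exp_neg_leJ (r := 0.99) 14 (by norm_num) (by norm_num) (by norm_num) (by norm_num))
    (exp_neg_leJ (r := 0.99) 14 (by norm_num) (by norm_num) (by norm_num) (by norm_num))
    (by norm_num)) (by norm_num) hN hβ.le (by norm_num)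

private theorem T3_03_p0_b1_1 {β x y : ℝ} (hβ : 0 < β) (hN : β * 26.315 ≤ 1) (hx1 : 0.3108 ≤ x) (hx2 : x ≤ 0.3942)
    (hy1 : -0.537 ≤ y) (hy2 : y ≤ -0.517) : ‖HH β (x + y * I) - 1‖ ≤ 0.15 := by
  refine le_epsJ (C := 3.8882) (N0 := 26.315) (J_boxp 0.3108 0.3942 0.537 0 (-0.517) 0.5476 0.6662 0.6235 1.9487 0.3151 5.1299 26.315 1.2166 6.174 1.759 0.7728 0.2737 0.1627 0.267 2.1172 0.2126 0.9303 0.7325 3.5227 0.0007452 0.01383 0.0008885 0.0000003101 0.003722 0.0000003101 0.0000003101 0.0000003101 3.8882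
    hβ hN hx1 hx2 hy1 hy2 (by norm_num) (by norm_num) (by linarith) (by norm_num) (by norm_num) (by norm_num) (by norm_num) (by norm_num) (by norm_num) (by norm_num) (by norm_num) (by norm_num) (by norm_num) (by norm_num) (by norm_num) (by norm_num) (by norm_num) (by norm_num) (by norm_num) (by norm_num) (by norm_num) (by norm_num) (by norm_num) (by norm_num)
    (cube_sqrt_geJ (s := 0.771) (by norm_num) (by norm_num) (by norm_num) (by norm_num))
    (cube_sqrt_geJ (s := 0.9225) (by norm_num) (by norm_num) (by norm_num) (by norm_num))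
    (by norm_num) (by norm_num) (by norm_num) (by norm_num) (by norm_num) (by norm_num) (by norm_num) (by norm_num) (by norm_num) (by norm_num) (by norm_num) (by norm_num) (by norm_num) (by norm_num) (by norm_num) (by norm_num) (by norm_num) (by norm_num)
    (exp_neg_leJ (r := 0.202) 7 (by norm_num) (by norm_num) (by norm_num) (by norm_num))
    (exp_neg_leJ (r := 0.281) 4 (by norm_num) (by norm_num) (by norm_num) (by norm_num))
    (exp_neg_leJ (r := 0.026) 7 (by norm_num) (by norm_num) (by norm_num) (by norm_num))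
    (exp_neg_leJ (r := 0.99) 14 (by norm_num) (by norm_num) (by norm_num) (by norm_num))
    (exp_neg_leJ (r := 0.594) 5 (by norm_num) (by norm_num) (by norm_num) (by norm_num))
    (exp_neg_leJ (r := 0.99) 14 (by norm_num) (by norm_num) (by norm_num) (by norm_num))
    (exp_neg_leJ (r := 0.99) 14 (by norm_num) (by norm_num) (by norm_num) (by norm_num))
    (exp_neg_leJ (r := 0.99) 14 (by norm_num) (by norm_num) (by norm_num) (by norm_num))
    (by norm_num)) (by norm_num) hN hβ.le (by norm_num)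

private theorem T3_03_p0_b1_2 {β x y : ℝ} (hβ : 0 < β) (hN : β * 26.315 ≤ 1) (hx1 : 0.2968 ≤ x) (hx2 : x ≤ 0.4226)
    (hy1 : -0.517 ≤ y) (hy2 : y ≤ -0.477) : ‖HH β (x + y * I) - 1‖ ≤ 0.15 := by
  refine le_epsJ (C := 3.9012) (N0 := 26.315) (J_boxp 0.2968 0.4226 0.517 0 (-0.477) 0.5519 0.6678 0.6724 2 0.3272 5.1299 26.315 1.2101 6.096 1.753 0.7803 0.2759 0.1646 0.2938 2.1708 0.2167 0.9109 0.7589 3.4904 0.0007032 0.01316 0.0004395 0.0000003101 0.003342 0.0000003101 0.0000003101 0.0000003101 3.9012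
    hβ hN hx1 hx2 hy1 hy2 (by norm_num) (by norm_num) (by linarith) (by norm_num) (by norm_num) (by norm_num) (by norm_num) (by norm_num) (by norm_num) (by norm_num) (by norm_num) (by norm_num) (by norm_num) (by norm_num) (by norm_num) (by norm_num) (by norm_num) (by norm_num) (by norm_num) (by norm_num) (by norm_num) (by norm_num) (by norm_num) (by norm_num)
    (cube_sqrt_geJ (s := 0.7724) (by norm_num) (by norm_num) (by norm_num) (by norm_num))
    (cube_sqrt_geJ (s := 0.9229) (by norm_num) (by norm_num) (by norm_num) (by norm_num))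
    (by norm_num) (by norm_num) (by norm_num) (by norm_num) (by norm_num) (by norm_num) (by norm_num) (by norm_num) (by norm_num) (by norm_num) (by norm_num) (by norm_num) (by norm_num) (by norm_num) (by norm_num) (by norm_num) (by norm_num) (by norm_num)
    (exp_neg_leJ (r := 0.26) 7 (by norm_num) (by norm_num) (by norm_num) (by norm_num))
    (exp_neg_leJ (r := 0.331) 4 (by norm_num) (by norm_num) (by norm_num) (by norm_num))
    (exp_neg_leJ (r := 0.731) 7 (by norm_num) (by norm_num) (by norm_num) (by norm_num))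
    (exp_neg_leJ (r := 0.99) 14 (by norm_num) (by norm_num) (by norm_num) (by norm_num))
    (exp_neg_leJ (r := 0.702) 5 (by norm_num) (by norm_num) (by norm_num) (by norm_num))
    (exp_neg_leJ (r := 0.99) 14 (by norm_num) (by norm_num) (by norm_num) (by norm_num))
    (exp_neg_leJ (r := 0.99) 14 (by norm_num) (by norm_num) (by norm_num) (by norm_num))
    (exp_neg_leJ (r := 0.99) 14 (by norm_num) (by norm_num) (by norm_num) (by norm_num))
    (by norm_num)) (by norm_num) hN hβ.le (by norm_num)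

private theorem T3_03_p0_b1_3 {β x y : ℝ} (hβ : 0 < β) (hN : β * 26.315 ≤ 1) (hx1 : 0.2689 ≤ x) (hx2 : x ≤ 0.4704)
    (hy1 : -0.477 ≤ y) (hy2 : y ≤ -0.392) : ‖HH β (x + y * I) - 1‖ ≤ 0.15 := by
  refine le_epsJ (C := 3.875) (N0 := 26.315) (J_boxp 0.2689 0.4704 0.477 0 (-0.392) 0.5607 0.67 0.7688 2.0884 0.3498 5.1299 26.315 1.195 5.92 1.74 0.7988 0.2803 0.1686 0.3474 2.2811 0.225 0.8723 0.8118 3.4286 0.0006262 0.01185 0.0001072 0.0000003101 0.002693 0.0000003101 0.0000003101 0.0000003101 3.875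
    hβ hN hx1 hx2 hy1 hy2 (by norm_num) (by norm_num) (by linarith) (by norm_num) (by norm_num) (by norm_num) (by norm_num) (by norm_num) (by norm_num) (by norm_num) (by norm_num) (by norm_num) (by norm_num) (by norm_num) (by norm_num) (by norm_num) (by norm_num) (by norm_num) (by norm_num) (by norm_num) (by norm_num) (by norm_num) (by norm_num) (by norm_num)
    (cube_sqrt_geJ (s := 0.7756) (by norm_num) (by norm_num) (by norm_num) (by norm_num))
    (cube_sqrt_geJ (s := 0.9239) (by norm_num) (by norm_num) (by norm_num) (by norm_num))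
    (by norm_num) (by norm_num) (by norm_num) (by norm_num) (by norm_num) (by norm_num) (by norm_num) (by norm_num) (by norm_num) (by norm_num) (by norm_num) (by norm_num) (by norm_num) (by norm_num) (by norm_num) (by norm_num) (by norm_num) (by norm_num)
    (exp_neg_leJ (r := 0.376) 7 (by norm_num) (by norm_num) (by norm_num) (by norm_num))
    (exp_neg_leJ (r := 0.436) 4 (by norm_num) (by norm_num) (by norm_num) (by norm_num))
    (exp_neg_leJ (r := 0.141) 9 (by norm_num) (by norm_num) (by norm_num) (by norm_num))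
    (exp_neg_leJ (r := 0.99) 14 (by norm_num) (by norm_num) (by norm_num) (by norm_num))
    (exp_neg_leJ (r := 0.92) 5 (by norm_num) (by norm_num) (by norm_num) (by norm_num))
    (exp_neg_leJ (r := 0.99) 14 (by norm_num) (by norm_num) (by norm_num) (by norm_num))
    (exp_neg_leJ (r := 0.99) 14 (by norm_num) (by norm_num) (by norm_num) (by norm_num))
    (exp_neg_leJ (r := 0.99) 14 (by norm_num) (by norm_num) (by norm_num) (by norm_num))
    (by norm_num)) (by norm_num) hN hβ.le (by norm_num)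

private theorem T3_03_p0_b1_4 {β x y : ℝ} (hβ : 0 < β) (hN : β * 26.315 ≤ 1) (hx1 : 0.3239 ≤ x) (hx2 : x ≤ 0.4639)
    (hy1 : -0.392 ≤ y) (hy2 : y ≤ -0.318) : ‖HH β (x + y * I) - 1‖ ≤ 0.15 := by
  refine le_epsJ (C := 1.371) (N0 := 26.315) (J_boxp 0.3239 0.4639 0.392 0 (-0.318) 0.6597 0.6074 0.8249 1.6951 0.3624 5.1299 26.315 0.9208 3.609 1.521 0.8798 0.3298 0.2286 0.5004 2.5668 0.2982 0.9484 1.1529 3.7088 0.0001705 0.002442 0.000001911 0.0000003101 0.0003917 0.0000003101 0.0000003101 0.0000003101 1.371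
    hβ hN hx1 hx2 hy1 hy2 (by norm_num) (by norm_num) (by linarith) (by norm_num) (by norm_num) (by norm_num) (by norm_num) (by norm_num) (by norm_num) (by norm_num) (by norm_num) (by norm_num) (by norm_num) (by norm_num) (by norm_num) (by norm_num) (by norm_num) (by norm_num) (by norm_num) (by norm_num) (by norm_num) (by norm_num) (by norm_num) (by norm_num)
    (cube_sqrt_geJ (s := 0.8325) (by norm_num) (by norm_num) (by norm_num) (by norm_num))
    (cube_sqrt_geJ (s := 0.9419) (by norm_num) (by norm_num) (by norm_num) (by norm_num))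
    (by norm_num) (by norm_num) (by norm_num) (by norm_num) (by norm_num) (by norm_num) (by norm_num) (by norm_num) (by norm_num) (by norm_num) (by norm_num) (by norm_num) (by norm_num) (by norm_num) (by norm_num) (by norm_num) (by norm_num) (by norm_num)
    (exp_neg_leJ (r := 0.678) 8 (by norm_num) (by norm_num) (by norm_num) (by norm_num))
    (exp_neg_leJ (r := 0.015) 6 (by norm_num) (by norm_num) (by norm_num) (by norm_num))
    (exp_neg_leJ (r := 0.168) 13 (by norm_num) (by norm_num) (by norm_num) (by norm_num))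
    (exp_neg_leJ (r := 0.99) 14 (by norm_num) (by norm_num) (by norm_num) (by norm_num))
    (exp_neg_leJ (r := 0.847) 7 (by norm_num) (by norm_num) (by norm_num) (by norm_num))
    (exp_neg_leJ (r := 0.99) 14 (by norm_num) (by norm_num) (by norm_num) (by norm_num))
    (exp_neg_leJ (r := 0.99) 14 (by norm_num) (by norm_num) (by norm_num) (by norm_num))
    (exp_neg_leJ (r := 0.99) 14 (by norm_num) (by norm_num) (by norm_num) (by norm_num))
    (by norm_num)) (by norm_num) hN hβ.le (by norm_num)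

private theorem T3_03_p0_c1 {κ t β : ℝ} (h : DomR κ t) (hβ : 0 < β) (hk1 : 0.37 ≤ κ) (hk2 : κ ≤ 0.38)
    (ht1 : -0.9674 ≤ t + κ) (ht2 : t + κ ≤ -0.71239) (hR0 : β * 10 ≤ κ) (hR : β * (1 * (1 + κ ^ 2)) ≤ κ) :
    ‖HH β (sg κ t) - 1‖ ≤ 0.15 := by
  have hN : β * 26.315 ≤ 1 := bNR hβ h.1 hk2 hR0 (by norm_num)
  have hy1 : -0.547 ≤ sy κ t := syL_ang2 h 0.37 0.38 0.9674 0.984 0.5536 0.8329 0.547 1.72805 0.57868 hk1 hk2 (by linarith) (by norm_num) (by norm_num) (by norm_num) (by norm_num)
    (cos_ge_num (by norm_num) (by norm_num)) (sin_le_num (by norm_num) (by norm_num))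
    (expn_ge (by norm_num) (by norm_num)) (expm_ge (by norm_num) (by norm_num) (by norm_num) (by norm_num)) (by norm_num) (by norm_num) (by norm_num)
    (by norm_num) (by norm_num) (by norm_num)
  have hy2 : sy κ t ≤ -0.318 := syL_le h 0.37 0.38 0.71239 0.318 0.7276 0.72761 0.60888 0.62536 hk1 hk2 (by linarith) (by norm_num) (by norm_num) (by norm_num)
    (expm_ge (by norm_num) (by norm_num) (by norm_num) (by norm_num)) (expm_le (by norm_num) (by norm_num) (by norm_num)) (by norm_num)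
    (by norm_num) (by norm_num) (by norm_num) (by norm_num) (by norm_num) (by norm_num)
  rcases le_total (sy κ t) (-0.537) with f0 | g0
  · have hx1 : 0.3185 ≤ sx κ t := sx_lo h 0.37 (-0.537) 0.547 1.71086 0.3185 hk1 (by norm_num) f0 (abs_le.2 ⟨by linarith, by linarith⟩) (by rw [neg_neg]; exact expn_ge (by norm_num) (by norm_num)) (by norm_num) (by norm_num)
    have hx2 : sx κ t ≤ 0.378 := sx_hi h 0.38 (-0.547) 0.537 1.72807 0.378 hk2 hy1 (by norm_num) (by rw [abs_of_nonpos (by linarith)]; linarith) (by rw [neg_neg]; exact expn_le (by norm_num) (by norm_num) (by norm_num)) (by norm_num) (by norm_num)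
    exact T3_03_p0_b1_0 hβ hN hx1 hx2 (by linarith) (by linarith)
  rcases le_total (sy κ t) (-0.517) with f1 | g1
  · have hx1 : 0.3108 ≤ sx κ t := sx_lo h 0.37 (-0.517) 0.537 1.67698 0.3108 hk1 (by norm_num) f1 (abs_le.2 ⟨by linarith, by linarith⟩) (by rw [neg_neg]; exact expn_ge (by norm_num) (by norm_num)) (by norm_num) (by norm_num)
    have hx2 : sx κ t ≤ 0.3942 := sx_hi h 0.38 (-0.537) 0.517 1.71087 0.3942 hk2 g0 (by norm_num) (by rw [abs_of_nonpos (by linarith)]; linarith) (by rw [neg_neg]; exact expn_le (by norm_num) (by norm_num) (by norm_num)) (by norm_num) (by norm_num)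
    exact T3_03_p0_b1_1 hβ hN hx1 hx2 (by linarith) (by linarith)
  rcases le_total (sy κ t) (-0.477) with f2 | g2
  · have hx1 : 0.2968 ≤ sx κ t := sx_lo h 0.37 (-0.477) 0.517 1.61123 0.2968 hk1 (by norm_num) f2 (abs_le.2 ⟨by linarith, by linarith⟩) (by rw [neg_neg]; exact expn_ge (by norm_num) (by norm_num)) (by norm_num) (by norm_num)
    have hx2 : sx κ t ≤ 0.4226 := sx_hi h 0.38 (-0.517) 0.477 1.67699 0.4226 hk2 g1 (by norm_num) (by rw [abs_of_nonpos (by linarith)]; linarith) (by rw [neg_neg]; exact expn_le (by norm_num) (by norm_num) (by norm_num)) (by norm_num) (by norm_num)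
    exact T3_03_p0_b1_2 hβ hN hx1 hx2 (by linarith) (by linarith)
  rcases le_total (sy κ t) (-0.392) with f3 | g3
  · have hx1 : 0.2689 ≤ sx κ t := sx_lo h 0.37 (-0.392) 0.477 1.47993 0.2689 hk1 (by norm_num) f3 (abs_le.2 ⟨by linarith, by linarith⟩) (by rw [neg_neg]; exact expn_ge (by norm_num) (by norm_num)) (by norm_num) (by norm_num)
    have hx2 : sx κ t ≤ 0.4704 := sx_hi h 0.38 (-0.477) 0.392 1.61124 0.4704 hk2 g2 (by norm_num) (by rw [abs_of_nonpos (by linarith)]; linarith) (by rw [neg_neg]; exact expn_le (by norm_num) (by norm_num) (by norm_num)) (by norm_num) (by norm_num)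
    exact T3_03_p0_b1_3 hβ hN hx1 hx2 (by linarith) (by linarith)
  have hx1 : 0.3239 ≤ sx κ t := sx_lo h 0.37 (-0.318) 0.392 1.37437 0.3239 hk1 (by norm_num) hy2 (abs_le.2 ⟨by linarith, by linarith⟩) (by rw [neg_neg]; exact expn_ge (by norm_num) (by norm_num)) (by norm_num) (by norm_num)
  have hx2 : sx κ t ≤ 0.4639 := sx_hi h 0.38 (-0.392) 0.318 1.47994 0.4639 hk2 g3 (by norm_num) (by rw [abs_of_nonpos (by linarith)]; linarith) (by rw [neg_neg]; exact expn_le (by norm_num) (by norm_num) (by norm_num)) (by norm_num) (by norm_num)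
  exact T3_03_p0_b1_4 hβ hN hx1 hx2 (by linarith) (by linarith)

theorem T3_03_p0 {κ t β : ℝ} (h : DomR κ t) (hβ : 0 < β) (hk1 : 0.36 ≤ κ) (hk2 : κ ≤ 0.38)
    (ht1 : -0.9674 ≤ t + κ) (ht2 : t + κ ≤ -0.71239) (hR0 : β * 10 ≤ κ) (hR : β * (1 * (1 + κ ^ 2)) ≤ κ) :
    ‖HH β (sg κ t) - 1‖ ≤ 0.15 := by
  rcases le_total κ 0.37 with f0 | g0
  · exact T3_03_p0_c0 h hβ hk1 f0 ht1 ht2 hR0 hR
  exact T3_03_p0_c1 h hβ g0 hk2 ht1 ht2 hR0 hR

private theorem T3_03_p0R_b0_0 {β x y : ℝ} (hβ : 0 < β) (hN : β * 26.315 ≤ 1) (hx1 : 0.3285 ≤ x) (hx2 : x ≤ 0.4605)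
    (hy1 : -0.335 ≤ y) (hy2 : y ≤ -0.265) : ‖HH β (x + y * I) - 1‖ ≤ 0.035 := by
  refine le_epsJ (C := 0.9047) (N0 := 26.315) (J_boxp 0.3285 0.4605 0.335 0 (-0.265) 0.7034 0.5695 0.8674 1.5788 0.3716 5.1299 26.315 0.8097 3.008 1.442 0.9337 0.3516 0.2567 0.5919 2.757 0.3315 0.9548 1.317 3.821 0.00009593 0.001167 0.0000003101 0.0000003101 0.000163 0.0000003101 0.0000003101 0.0000003101 0.9047
    hβ hN hx1 hx2 hy1 hy2 (by norm_num) (by norm_num) (by linarith) (by norm_num) (by norm_num) (by norm_num) (by norm_num) (by norm_num) (by norm_num) (by norm_num) (by norm_num) (by norm_num) (by norm_num) (by norm_num) (by norm_num) (by norm_num) (by norm_num) (by norm_num) (by norm_num) (by norm_num) (by norm_num) (by norm_num) (by norm_num) (by norm_num)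
    (cube_sqrt_geJ (s := 0.8544) (by norm_num) (by norm_num) (by norm_num) (by norm_num))
    (cube_sqrt_geJ (s := 0.9491) (by norm_num) (by norm_num) (by norm_num) (by norm_num))
    (by norm_num) (by norm_num) (by norm_num) (by norm_num) (by norm_num) (by norm_num) (by norm_num) (by norm_num) (by norm_num) (by norm_num) (by norm_num) (by norm_num) (by norm_num) (by norm_num) (by norm_num) (by norm_num) (by norm_num) (by norm_num)
    (exp_neg_leJ (r := 0.252) 9 (by norm_num) (by norm_num) (by norm_num) (by norm_num))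
    (exp_neg_leJ (r := 0.755) 6 (by norm_num) (by norm_num) (by norm_num) (by norm_num))
    (exp_neg_leJ (r := 0.99) 14 (by norm_num) (by norm_num) (by norm_num) (by norm_num))
    (exp_neg_leJ (r := 0.99) 14 (by norm_num) (by norm_num) (by norm_num) (by norm_num))
    (exp_neg_leJ (r := 0.723) 8 (by norm_num) (by norm_num) (by norm_num) (by norm_num))
    (exp_neg_leJ (r := 0.99) 14 (by norm_num) (by norm_num) (by norm_num) (by norm_num))
    (exp_neg_leJ (r := 0.99) 14 (by norm_num) (by norm_num) (by norm_num) (by norm_num))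
    (exp_neg_leJ (r := 0.99) 14 (by norm_num) (by norm_num) (by norm_num) (by norm_num))
    (by norm_num)) (by norm_num) hN hβ.le (by norm_num)

private theorem T3_03_p0R_b0_1 {β x y : ℝ} (hβ : 0 < β) (hN : β * 26.315 ≤ 1) (hx1 : 0.2701 ≤ x) (hx2 : x ≤ 0.4928)
    (hy1 : -0.265 ≤ y) (hy2 : y ≤ -0.05) : ‖HH β (x + y * I) - 1‖ ≤ 0.035 := by
  refine le_epsJ (C := 0.9157) (N0 := 26.315) (J_boxp 0.2701 0.4928 0.265 0 (-0.05) 0.712 0.5596 1.0703 1.722 0.4128 5.1299 26.315 0.786 2.897 1.426 0.9859 0.3559 0.2627 0.6824 2.9694 0.3414 0.8739 1.3905 3.7311 0.00008568 0.0009983 0.0000003101 0.0000003101 0.000126 0.0000003101 0.0000003101 0.0000003101 0.9157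
    hβ hN hx1 hx2 hy1 hy2 (by norm_num) (by norm_num) (by linarith) (by norm_num) (by norm_num) (by norm_num) (by norm_num) (by norm_num) (by norm_num) (by norm_num) (by norm_num) (by norm_num) (by norm_num) (by norm_num) (by norm_num) (by norm_num) (by norm_num) (by norm_num) (by norm_num) (by norm_num) (by norm_num) (by norm_num) (by norm_num) (by norm_num)
    (cube_sqrt_geJ (s := 0.859) (by norm_num) (by norm_num) (by norm_num) (by norm_num))
    (cube_sqrt_geJ (s := 0.9506) (by norm_num) (by norm_num) (by norm_num) (by norm_num))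
    (by norm_num) (by norm_num) (by norm_num) (by norm_num) (by norm_num) (by norm_num) (by norm_num) (by norm_num) (by norm_num) (by norm_num) (by norm_num) (by norm_num) (by norm_num) (by norm_num) (by norm_num) (by norm_num) (by norm_num) (by norm_num)
    (exp_neg_leJ (r := 0.365) 9 (by norm_num) (by norm_num) (by norm_num) (by norm_num))
    (exp_neg_leJ (r := 0.912) 6 (by norm_num) (by norm_num) (by norm_num) (by norm_num))
    (exp_neg_leJ (r := 0.99) 14 (by norm_num) (by norm_num) (by norm_num) (by norm_num))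
    (exp_neg_leJ (r := 0.99) 14 (by norm_num) (by norm_num) (by norm_num) (by norm_num))
    (exp_neg_leJ (r := 0.983) 8 (by norm_num) (by norm_num) (by norm_num) (by norm_num))
    (exp_neg_leJ (r := 0.99) 14 (by norm_num) (by norm_num) (by norm_num) (by norm_num))
    (exp_neg_leJ (r := 0.99) 14 (by norm_num) (by norm_num) (by norm_num) (by norm_num))
    (exp_neg_leJ (r := 0.99) 14 (by norm_num) (by norm_num) (by norm_num) (by norm_num))
    (by norm_num)) (by norm_num) hN hβ.le (by norm_num)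

private theorem T3_03_p0R_b0_2 {β x y : ℝ} (hβ : 0 < β) (hN : β * 26.315 ≤ 1) (hx1 : 0.3546 ≤ x) (hx2 : x ≤ 0.3995)
    (hy1 : -0.05 ≤ y) (hy2 : y ≤ 0.005) : ‖HH β (x + y * I) - 1‖ ≤ 0.035 := by
  refine le_epsJ (C := 0.1808) (N0 := 26.315) (J_boxp 0.3546 0.3995 0.05 0.005 0.005 0.9242 0.4027 1.0815 1.1705 0.4149 5.1299 26.315 0.4358 1.733 1.212 1.2203 0.462 0.3949 1.0507 3.7153 0.4994 0.9904 2.1225 4.303 0.000005252 0.00003071 0.0000003101 0.0000003101 0.000001964 0.0000003101 0.0000003101 0.0000003101 0.1808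
    hβ hN hx1 hx2 hy1 hy2 (by norm_num) (by norm_num) (by linarith) (by norm_num) (by norm_num) (by norm_num) (by norm_num) (by norm_num) (by norm_num) (by norm_num) (by norm_num) (by norm_num) (by norm_num) (by norm_num) (by norm_num) (by norm_num) (by norm_num) (by norm_num) (by norm_num) (by norm_num) (by norm_num) (by norm_num) (by norm_num) (by norm_num)
    (cube_sqrt_geJ (s := 0.9245) (by norm_num) (by norm_num) (by norm_num) (by norm_num))
    (cube_sqrt_geJ (s := 0.9729) (by norm_num) (by norm_num) (by norm_num) (by norm_num))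
    (by norm_num) (by norm_num) (by norm_num) (by norm_num) (by norm_num) (by norm_num) (by norm_num) (by norm_num) (by norm_num) (by norm_num) (by norm_num) (by norm_num) (by norm_num) (by norm_num) (by norm_num) (by norm_num) (by norm_num) (by norm_num)
    (exp_neg_leJ (r := 0.157) 12 (by norm_num) (by norm_num) (by norm_num) (by norm_num))
    (exp_neg_leJ (r := 0.391) 10 (by norm_num) (by norm_num) (by norm_num) (by norm_num))
    (exp_neg_leJ (r := 0.99) 14 (by norm_num) (by norm_num) (by norm_num) (by norm_num))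
    (exp_neg_leJ (r := 0.99) 14 (by norm_num) (by norm_num) (by norm_num) (by norm_num))
    (exp_neg_leJ (r := 0.141) 13 (by norm_num) (by norm_num) (by norm_num) (by norm_num))
    (exp_neg_leJ (r := 0.99) 14 (by norm_num) (by norm_num) (by norm_num) (by norm_num))
    (exp_neg_leJ (r := 0.99) 14 (by norm_num) (by norm_num) (by norm_num) (by norm_num))
    (exp_neg_leJ (r := 0.99) 14 (by norm_num) (by norm_num) (by norm_num) (by norm_num))
    (by norm_num)) (by norm_num) hN hβ.le (by norm_num)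

private theorem T3_03_p0R_c0 {κ t β : ℝ} (h : DomR κ t) (hβ : 0 < β) (hk1 : 0.36 ≤ κ) (hk2 : κ ≤ 0.38)
    (ht1 : -0.7124 ≤ t + κ) (ht2 : t + κ ≤ 0.0001) (hR0 : β * 10 ≤ κ) (hR : β * (1 * (1 + κ ^ 2)) ≤ κ) :
    ‖HH β (sg κ t) - 1‖ ≤ 0.035 := by
  have hN : β * 26.315 ≤ 1 := bNR hβ h.1 hk2 hR0 (by norm_num)
  have hy1 : -0.335 ≤ sy κ t := syL_ang2 h 0.36 0.38 0.7124 0.682 0.7763 0.6304 0.335 1.39794 0.71533 hk1 hk2 (by linarith) (by norm_num) (by norm_num) (by norm_num) (by norm_num)
    (cos_ge_num (by norm_num) (by norm_num)) (sin_le_num (by norm_num) (by norm_num))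
    (expn_ge (by norm_num) (by norm_num)) (expm_ge (by norm_num) (by norm_num) (by norm_num) (by norm_num)) (by norm_num) (by norm_num) (by norm_num)
    (by norm_num) (by norm_num) (by norm_num)
  have hy2 : sy κ t ≤ 0.005 := syR_le h 0.36 0.38 0.0001 0.005 1.00501 0.013 0.01322 0.01396 hk1 hk2 (by linarith) (by norm_num) (by norm_num)
    (expn_ge (by norm_num) (by norm_num)) (by norm_num) (by norm_num) (Or.inr ((mul_le_mul_of_nonneg_left (expn_le (E := 1.00502) (by norm_num) (by norm_num) (by norm_num)) (by norm_num)).trans (by norm_num))) (by norm_num) (by norm_num) (by norm_num)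
  rcases le_total (sy κ t) (-0.265) with f0 | g0
  · have hx1 : 0.3285 ≤ sx κ t := sx_lo h 0.36 (-0.265) 0.335 1.30343 0.3285 hk1 (by norm_num) f0 (abs_le.2 ⟨by linarith, by linarith⟩) (by rw [neg_neg]; exact expn_ge (by norm_num) (by norm_num)) (by norm_num) (by norm_num)
    have hx2 : sx κ t ≤ 0.4605 := sx_hi h 0.38 (-0.335) 0.265 1.39795 0.4605 hk2 hy1 (by norm_num) (by rw [abs_of_nonpos (by linarith)]; linarith) (by rw [neg_neg]; exact expn_le (by norm_num) (by norm_num) (by norm_num)) (by norm_num) (by norm_num)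
    exact T3_03_p0R_b0_0 hβ hN hx1 hx2 (by linarith) (by linarith)
  rcases le_total (sy κ t) (-0.05) with f1 | g1
  · have hx1 : 0.2701 ≤ sx κ t := sx_lo h 0.36 (-0.05) 0.265 1.05127 0.2701 hk1 (by norm_num) f1 (abs_le.2 ⟨by linarith, by linarith⟩) (by rw [neg_neg]; exact expn_ge (by norm_num) (by norm_num)) (by norm_num) (by norm_num)
    have hx2 : sx κ t ≤ 0.4928 := sx_hi h 0.38 (-0.265) 0.05 1.30344 0.4928 hk2 g0 (by norm_num) (by rw [abs_of_nonpos (by linarith)]; linarith) (by rw [neg_neg]; exact expn_le (by norm_num) (by norm_num) (by norm_num)) (by norm_num) (by norm_num)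
    exact T3_03_p0R_b0_1 hβ hN hx1 hx2 (by linarith) (by linarith)
  have hx1 : 0.3546 ≤ sx κ t := sx_lo h 0.36 0.005 0.05 0.99501 0.3546 hk1 (by norm_num) hy2 (abs_le.2 ⟨by linarith, by linarith⟩) (expm_ge (by norm_num) (by norm_num) (by norm_num) (by norm_num)) (by norm_num) (by norm_num)
  have hx2 : sx κ t ≤ 0.3995 := sx_hi h 0.38 (-0.05) 0 1.05128 0.3995 hk2 g1 (by norm_num) (abs_nonneg _) (by rw [neg_neg]; exact expn_le (by norm_num) (by norm_num) (by norm_num)) (by norm_num) (by norm_num)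
  exact T3_03_p0R_b0_2 hβ hN hx1 hx2 (by linarith) (by linarith)

theorem T3_03_p0R {κ t β : ℝ} (h : DomR κ t) (hβ : 0 < β) (hk1 : 0.36 ≤ κ) (hk2 : κ ≤ 0.38)
    (ht1 : -0.7124 ≤ t + κ) (ht2 : t + κ ≤ 0.0001) (hR0 : β * 10 ≤ κ) (hR : β * (1 * (1 + κ ^ 2)) ≤ κ) :
    ‖HH β (sg κ t) - 1‖ ≤ 0.035 := by
  exact T3_03_p0R_c0 h hβ hk1 hk2 ht1 ht2 hR0 hR

private theorem T3_03_d0_0_b0_0 {β x y : ℝ} (hβ : 0 < β) (hN : β * 27.027 ≤ 1) (hx1 : 0.2582 ≤ x) (hx2 : x ≤ 0.3915)
    (hy1 : -0.557 ≤ y) (hy2 : y ≤ -0.482) : ‖HH β (x + y * I) - 1‖ ≤ 0.28 := by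
  refine le_epsJ (C := 7.2962) (N0 := 27.027) (J_boxp 0.2582 0.3915 0.557 0 (-0.482) 0.4963 0.6809 0.6494 2.3049 0.3215 5.1988 27.027 1.372 8.496 1.904 0.7553 0.2481 0.1346 0.2174 2.0513 0.1761 0.8575 0.573 3.3776 0.001226 0.02635 0.002815 0.0000003101 0.008584 0.0000003101 0.0000003101 0.0000003101 7.2962
    hβ hN hx1 hx2 hy1 hy2 (by norm_num) (by norm_num) (by linarith) (by norm_num) (by norm_num) (by norm_num) (by norm_num) (by norm_num) (by norm_num) (by norm_num) (by norm_num) (by norm_num) (by norm_num) (by norm_num) (by norm_num) (by norm_num) (by norm_num) (by norm_num) (by norm_num) (by norm_num) (by norm_num) (by norm_num) (by norm_num) (by norm_num)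
    (cube_sqrt_geJ (s := 0.7366) (by norm_num) (by norm_num) (by norm_num) (by norm_num))
    (cube_sqrt_geJ (s := 0.9121) (by norm_num) (by norm_num) (by norm_num) (by norm_num))
    (by norm_num) (by norm_num) (by norm_num) (by norm_num) (by norm_num) (by norm_num) (by norm_num) (by norm_num) (by norm_num) (by norm_num) (by norm_num) (by norm_num) (by norm_num) (by norm_num) (by norm_num) (by norm_num) (by norm_num) (by norm_num)
    (exp_neg_leJ (r := 0.705) 6 (by norm_num) (by norm_num) (by norm_num) (by norm_num))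
    (exp_neg_leJ (r := 0.637) 3 (by norm_num) (by norm_num) (by norm_num) (by norm_num))
    (exp_neg_leJ (r := 0.875) 5 (by norm_num) (by norm_num) (by norm_num) (by norm_num))
    (exp_neg_leJ (r := 0.99) 14 (by norm_num) (by norm_num) (by norm_num) (by norm_num))
    (exp_neg_leJ (r := 0.759) 4 (by norm_num) (by norm_num) (by norm_num) (by norm_num))
    (exp_neg_leJ (r := 0.99) 14 (by norm_num) (by norm_num) (by norm_num) (by norm_num))
    (exp_neg_leJ (r := 0.99) 14 (by norm_num) (by norm_num) (by norm_num) (by norm_num))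
    (exp_neg_leJ (r := 0.99) 14 (by norm_num) (by norm_num) (by norm_num) (by norm_num))
    (by norm_num)) (by norm_num) hN hβ.le (by norm_num)

private theorem T3_03_d0_0_b0_1 {β x y : ℝ} (hβ : 0 < β) (hN : β * 27.027 ≤ 1) (hx1 : 0.2487 ≤ x) (hx2 : x ≤ 0.4159)
    (hy1 : -0.542 ≤ y) (hy2 : y ≤ -0.452) : ‖HH β (x + y * I) - 1‖ ≤ 0.28 := by
  refine le_epsJ (C := 7.2542) (N0 := 27.027) (J_boxp 0.2487 0.4159 0.542 0 (-0.452) 0.5003 0.6832 0.688 2.344 0.331 5.1988 27.027 1.3656 8.379 1.898 0.7598 0.2501 0.1362 0.2378 2.0903 0.1797 0.8443 0.5947 3.3523 0.001162 0.02522 0.001618 0.0000003101 0.007797 0.0000003101 0.0000003101 0.0000003101 7.2542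
    hβ hN hx1 hx2 hy1 hy2 (by norm_num) (by norm_num) (by linarith) (by norm_num) (by norm_num) (by norm_num) (by norm_num) (by norm_num) (by norm_num) (by norm_num) (by norm_num) (by norm_num) (by norm_num) (by norm_num) (by norm_num) (by norm_num) (by norm_num) (by norm_num) (by norm_num) (by norm_num) (by norm_num) (by norm_num) (by norm_num) (by norm_num)
    (cube_sqrt_geJ (s := 0.7381) (by norm_num) (by norm_num) (by norm_num) (by norm_num))
    (cube_sqrt_geJ (s := 0.9125) (by norm_num) (by norm_num) (by norm_num) (by norm_num))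
    (by norm_num) (by norm_num) (by norm_num) (by norm_num) (by norm_num) (by norm_num) (by norm_num) (by norm_num) (by norm_num) (by norm_num) (by norm_num) (by norm_num) (by norm_num) (by norm_num) (by norm_num) (by norm_num) (by norm_num) (by norm_num)
    (exp_neg_leJ (r := 0.759) 6 (by norm_num) (by norm_num) (by norm_num) (by norm_num))
    (exp_neg_leJ (r := 0.681) 3 (by norm_num) (by norm_num) (by norm_num) (by norm_num))
    (exp_neg_leJ (r := 0.427) 6 (by norm_num) (by norm_num) (by norm_num) (by norm_num))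
    (exp_neg_leJ (r := 0.99) 14 (by norm_num) (by norm_num) (by norm_num) (by norm_num))
    (exp_neg_leJ (r := 0.856) 4 (by norm_num) (by norm_num) (by norm_num) (by norm_num))
    (exp_neg_leJ (r := 0.99) 14 (by norm_num) (by norm_num) (by norm_num) (by norm_num))
    (exp_neg_leJ (r := 0.99) 14 (by norm_num) (by norm_num) (by norm_num) (by norm_num))
    (exp_neg_leJ (r := 0.99) 14 (by norm_num) (by norm_num) (by norm_num) (by norm_num))
    (by norm_num)) (by norm_num) hN hβ.le (by norm_num)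

private theorem T3_03_d0_0_b0_2 {β x y : ℝ} (hβ : 0 < β) (hN : β * 27.027 ≤ 1) (hx1 : 0.2672 ≤ x) (hx2 : x ≤ 0.4222)
    (hy1 : -0.512 ≤ y) (hy2 : y ≤ -0.423) : ‖HH β (x + y * I) - 1‖ ≤ 0.28 := by
  refine le_epsJ (C := 4.6176) (N0 := 27.027) (J_boxp 0.2672 0.4222 0.512 0 (-0.423) 0.5346 0.6637 0.715 2.1633 0.3374 5.1988 27.027 1.2415 6.486 1.781 0.7851 0.2672 0.1566 0.2915 2.1878 0.2051 0.8699 0.7133 3.4423 0.0007311 0.01453 0.0003798 0.0000003101 0.003916 0.0000003101 0.0000003101 0.0000003101 4.6176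
    hβ hN hx1 hx2 hy1 hy2 (by norm_num) (by norm_num) (by linarith) (by norm_num) (by norm_num) (by norm_num) (by norm_num) (by norm_num) (by norm_num) (by norm_num) (by norm_num) (by norm_num) (by norm_num) (by norm_num) (by norm_num) (by norm_num) (by norm_num) (by norm_num) (by norm_num) (by norm_num) (by norm_num) (by norm_num) (by norm_num) (by norm_num)
    (cube_sqrt_geJ (s := 0.7656) (by norm_num) (by norm_num) (by norm_num) (by norm_num))
    (cube_sqrt_geJ (s := 0.9208) (by norm_num) (by norm_num) (by norm_num) (by norm_num))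
    (by norm_num) (by norm_num) (by norm_num) (by norm_num) (by norm_num) (by norm_num) (by norm_num) (by norm_num) (by norm_num) (by norm_num) (by norm_num) (by norm_num) (by norm_num) (by norm_num) (by norm_num) (by norm_num) (by norm_num) (by norm_num)
    (exp_neg_leJ (r := 0.221) 7 (by norm_num) (by norm_num) (by norm_num) (by norm_num))
    (exp_neg_leJ (r := 0.232) 4 (by norm_num) (by norm_num) (by norm_num) (by norm_num))
    (exp_neg_leJ (r := 0.878) 7 (by norm_num) (by norm_num) (by norm_num) (by norm_num))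
    (exp_neg_leJ (r := 0.99) 14 (by norm_num) (by norm_num) (by norm_num) (by norm_num))
    (exp_neg_leJ (r := 0.543) 5 (by norm_num) (by norm_num) (by norm_num) (by norm_num))
    (exp_neg_leJ (r := 0.99) 14 (by norm_num) (by norm_num) (by norm_num) (by norm_num))
    (exp_neg_leJ (r := 0.99) 14 (by norm_num) (by norm_num) (by norm_num) (by norm_num))
    (exp_neg_leJ (r := 0.99) 14 (by norm_num) (by norm_num) (by norm_num) (by norm_num))
    (by norm_num)) (by norm_num) hN hβ.le (by norm_num)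

private theorem T3_03_d0_0_c0 {κ t β : ℝ} (h : DomR κ t) (hβ : 0 < β) (hk1 : 0.36 ≤ κ) (hk2 : κ ≤ 0.37)
    (ht1 : -0.9674 ≤ t + κ) (ht2 : t + κ ≤ -0.93739) (hR0 : β * 10 ≤ κ) (hR : β * (1 * (1 + κ ^ 2)) ≤ κ) :
    ∀ s : ℂ, ‖s - sg κ t‖ ≤ 0.03 → ‖HH β s - 1‖ ≤ 0.28 := by
  have hN : β * 27.027 ≤ 1 := bNR hβ h.1 hk2 hR0 (by norm_num)
  have hy1 : -0.527 ≤ sy κ t := syL_ang2 h 0.36 0.37 0.9674 0.998 0.5419 0.8406 0.527 1.69384 0.59037 hk1 hk2 (by linarith) (by norm_num) (by norm_num) (by norm_num) (by norm_num)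
    (cos_ge_num (by norm_num) (by norm_num)) (sin_le_num (by norm_num) (by norm_num))
    (expn_ge (by norm_num) (by norm_num)) (expm_ge (by norm_num) (by norm_num) (by norm_num) (by norm_num)) (by norm_num) (by norm_num) (by norm_num)
    (by norm_num) (by norm_num) (by norm_num)
  have hy2 : sy κ t ≤ -0.453 := syL_le h 0.36 0.37 0.93739 0.453 0.63571 0.63572 0.77831 0.79995 hk1 hk2 (by linarith) (by norm_num) (by norm_num) (by norm_num)
    (expm_ge (by norm_num) (by norm_num) (by norm_num) (by norm_num)) (expm_le (by norm_num) (by norm_num) (by norm_num)) (by norm_num)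
    (by norm_num) (by norm_num) (by norm_num) (by norm_num) (by norm_num) (by norm_num)
  intro s hs
  have hs' : ‖s - ((sx κ t : ℂ) + (sy κ t : ℂ) * I)‖ ≤ 0.03 := hs
  obtain ⟨es, ⟨s1, s2⟩, ⟨s3, s4⟩⟩ := disc_split hs'
  rcases le_total (sy κ t) (-0.512) with f0 | g0
  · have hx1 : 0.2882 ≤ sx κ t := sx_lo h 0.36 (-0.512) 0.527 1.66862 0.2882 hk1 (by norm_num) f0 (abs_le.2 ⟨by linarith, by linarith⟩) (by rw [neg_neg]; exact expn_ge (by norm_num) (by norm_num)) (by norm_num) (by norm_num)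
    have hx2 : sx κ t ≤ 0.3615 := sx_hi h 0.37 (-0.527) 0.512 1.69385 0.3615 hk2 hy1 (by norm_num) (by rw [abs_of_nonpos (by linarith)]; linarith) (by rw [neg_neg]; exact expn_le (by norm_num) (by norm_num) (by norm_num)) (by norm_num) (by norm_num)
    rw [es]
    exact T3_03_d0_0_b0_0 hβ hN (by linarith) (by linarith) (by linarith) (by linarith)
  rcases le_total (sy κ t) (-0.482) with f1 | g1
  · have hx1 : 0.2787 ≤ sx κ t := sx_lo h 0.36 (-0.482) 0.512 1.6193 0.2787 hk1 (by norm_num) f1 (abs_le.2 ⟨by linarith, by linarith⟩) (by rw [neg_neg]; exact expn_ge (by norm_num) (by norm_num)) (by norm_num) (by norm_num)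
    have hx2 : sx κ t ≤ 0.3859 := sx_hi h 0.37 (-0.512) 0.482 1.66863 0.3859 hk2 g0 (by norm_num) (by rw [abs_of_nonpos (by linarith)]; linarith) (by rw [neg_neg]; exact expn_le (by norm_num) (by norm_num) (by norm_num)) (by norm_num) (by norm_num)
    rw [es]
    exact T3_03_d0_0_b0_1 hβ hN (by linarith) (by linarith) (by linarith) (by linarith)
  have hx1 : 0.2972 ≤ sx κ t := sx_lo h 0.36 (-0.453) 0.482 1.57302 0.2972 hk1 (by norm_num) hy2 (abs_le.2 ⟨by linarith, by linarith⟩) (by rw [neg_neg]; exact expn_ge (by norm_num) (by norm_num)) (by norm_num) (by norm_num)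
  have hx2 : sx κ t ≤ 0.3922 := sx_hi h 0.37 (-0.482) 0.453 1.61931 0.3922 hk2 g1 (by norm_num) (by rw [abs_of_nonpos (by linarith)]; linarith) (by rw [neg_neg]; exact expn_le (by norm_num) (by norm_num) (by norm_num)) (by norm_num) (by norm_num)
  rw [es]
  exact T3_03_d0_0_b0_2 hβ hN (by linarith) (by linarith) (by linarith) (by linarith)

private theorem T3_03_d0_0_b1_0 {β x y : ℝ} (hβ : 0 < β) (hN : β * 26.315 ≤ 1) (hx1 : 0.2948 ≤ x) (hx2 : x ≤ 0.4008)
    (hy1 : -0.577 ≤ y) (hy2 : y ≤ -0.512) : ‖HH β (x + y * I) - 1‖ ≤ 0.28 := by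
  refine le_epsJ (C := 7.166) (N0 := 26.315) (J_boxp 0.2948 0.4008 0.577 0 (-0.512) 0.5079 0.7026 0.6315 2.1955 0.3171 5.1299 26.315 1.3834 8.707 1.915 0.7333 0.2539 0.1368 0.1984 1.9798 0.183 0.9081 0.5918 3.3918 0.001256 0.02737 0.005408 0.0000003101 0.00812 0.0000003101 0.0000003101 0.0000003101 7.166
    hβ hN hx1 hx2 hy1 hy2 (by norm_num) (by norm_num) (by linarith) (by norm_num) (by norm_num) (by norm_num) (by norm_num) (by norm_num) (by norm_num) (by norm_num) (by norm_num) (by norm_num) (by norm_num) (by norm_num) (by norm_num) (by norm_num) (by norm_num) (by norm_num) (by norm_num) (by norm_num) (by norm_num) (by norm_num) (by norm_num) (by norm_num)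
    (cube_sqrt_geJ (s := 0.734) (by norm_num) (by norm_num) (by norm_num) (by norm_num))
    (cube_sqrt_geJ (s := 0.9113) (by norm_num) (by norm_num) (by norm_num) (by norm_num))
    (by norm_num) (by norm_num) (by norm_num) (by norm_num) (by norm_num) (by norm_num) (by norm_num) (by norm_num) (by norm_num) (by norm_num) (by norm_num) (by norm_num) (by norm_num) (by norm_num) (by norm_num) (by norm_num) (by norm_num) (by norm_num)
    (exp_neg_leJ (r := 0.681) 6 (by norm_num) (by norm_num) (by norm_num) (by norm_num))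
    (exp_neg_leJ (r := 0.599) 3 (by norm_num) (by norm_num) (by norm_num) (by norm_num))
    (exp_neg_leJ (r := 0.22) 5 (by norm_num) (by norm_num) (by norm_num) (by norm_num))
    (exp_neg_leJ (r := 0.99) 14 (by norm_num) (by norm_num) (by norm_num) (by norm_num))
    (exp_neg_leJ (r := 0.815) 4 (by norm_num) (by norm_num) (by norm_num) (by norm_num))
    (exp_neg_leJ (r := 0.99) 14 (by norm_num) (by norm_num) (by norm_num) (by norm_num))
    (exp_neg_leJ (r := 0.99) 14 (by norm_num) (by norm_num) (by norm_num) (by norm_num))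
    (exp_neg_leJ (r := 0.99) 14 (by norm_num) (by norm_num) (by norm_num) (by norm_num))
    (by norm_num)) (by norm_num) hN hβ.le (by norm_num)

private theorem T3_03_d0_0_b1_1 {β x y : ℝ} (hβ : 0 < β) (hN : β * 26.315 ≤ 1) (hx1 : 0.2908 ≤ x) (hx2 : x ≤ 0.4094)
    (hy1 : -0.572 ≤ y) (hy2 : y ≤ -0.502) : ‖HH β (x + y * I) - 1‖ ≤ 0.28 := by
  refine le_epsJ (C := 7.2149) (N0 := 26.315) (J_boxp 0.2908 0.4094 0.572 0 (-0.502) 0.5086 0.7035 0.6447 2.2137 0.3204 5.1299 26.315 1.3833 8.706 1.915 0.7346 0.2542 0.137 0.2049 1.9926 0.1837 0.9026 0.5974 3.3813 0.001246 0.0272 0.004558 0.0000003101 0.007969 0.0000003101 0.0000003101 0.0000003101 7.2149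
    hβ hN hx1 hx2 hy1 hy2 (by norm_num) (by norm_num) (by linarith) (by norm_num) (by norm_num) (by norm_num) (by norm_num) (by norm_num) (by norm_num) (by norm_num) (by norm_num) (by norm_num) (by norm_num) (by norm_num) (by norm_num) (by norm_num) (by norm_num) (by norm_num) (by norm_num) (by norm_num) (by norm_num) (by norm_num) (by norm_num) (by norm_num)
    (cube_sqrt_geJ (s := 0.734) (by norm_num) (by norm_num) (by norm_num) (by norm_num))
    (cube_sqrt_geJ (s := 0.9113) (by norm_num) (by norm_num) (by norm_num) (by norm_num))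
    (by norm_num) (by norm_num) (by norm_num) (by norm_num) (by norm_num) (by norm_num) (by norm_num) (by norm_num) (by norm_num) (by norm_num) (by norm_num) (by norm_num) (by norm_num) (by norm_num) (by norm_num) (by norm_num) (by norm_num) (by norm_num)
    (exp_neg_leJ (r := 0.689) 6 (by norm_num) (by norm_num) (by norm_num) (by norm_num))
    (exp_neg_leJ (r := 0.605) 3 (by norm_num) (by norm_num) (by norm_num) (by norm_num))
    (exp_neg_leJ (r := 0.391) 5 (by norm_num) (by norm_num) (by norm_num) (by norm_num))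
    (exp_neg_leJ (r := 0.99) 14 (by norm_num) (by norm_num) (by norm_num) (by norm_num))
    (exp_neg_leJ (r := 0.834) 4 (by norm_num) (by norm_num) (by norm_num) (by norm_num))
    (exp_neg_leJ (r := 0.99) 14 (by norm_num) (by norm_num) (by norm_num) (by norm_num))
    (exp_neg_leJ (r := 0.99) 14 (by norm_num) (by norm_num) (by norm_num) (by norm_num))
    (exp_neg_leJ (r := 0.99) 14 (by norm_num) (by norm_num) (by norm_num) (by norm_num))
    (by norm_num)) (by norm_num) hN hβ.le (by norm_num)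

private theorem T3_03_d0_0_b1_2 {β x y : ℝ} (hβ : 0 < β) (hN : β * 26.315 ≤ 1) (hx1 : 0.2832 ≤ x) (hx2 : x ≤ 0.4254)
    (hy1 : -0.562 ≤ y) (hy2 : y ≤ -0.482) : ‖HH β (x + y * I) - 1‖ ≤ 0.28 := by
  refine le_epsJ (C := 7.2553) (N0 := 26.315) (J_boxp 0.2832 0.4254 0.562 0 (-0.482) 0.5104 0.7049 0.6703 2.2453 0.3267 5.1299 26.315 1.3811 8.664 1.913 0.7377 0.2551 0.1377 0.2181 2.0187 0.1855 0.8921 0.6094 3.3623 0.001218 0.02672 0.003222 0.0000003101 0.007606 0.0000003101 0.0000003101 0.0000003101 7.2553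
    hβ hN hx1 hx2 hy1 hy2 (by norm_num) (by norm_num) (by linarith) (by norm_num) (by norm_num) (by norm_num) (by norm_num) (by norm_num) (by norm_num) (by norm_num) (by norm_num) (by norm_num) (by norm_num) (by norm_num) (by norm_num) (by norm_num) (by norm_num) (by norm_num) (by norm_num) (by norm_num) (by norm_num) (by norm_num) (by norm_num) (by norm_num)
    (cube_sqrt_geJ (s := 0.7345) (by norm_num) (by norm_num) (by norm_num) (by norm_num))
    (cube_sqrt_geJ (s := 0.9115) (by norm_num) (by norm_num) (by norm_num) (by norm_num))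
    (by norm_num) (by norm_num) (by norm_num) (by norm_num) (by norm_num) (by norm_num) (by norm_num) (by norm_num) (by norm_num) (by norm_num) (by norm_num) (by norm_num) (by norm_num) (by norm_num) (by norm_num) (by norm_num) (by norm_num) (by norm_num)
    (exp_neg_leJ (r := 0.712) 6 (by norm_num) (by norm_num) (by norm_num) (by norm_num))
    (exp_neg_leJ (r := 0.623) 3 (by norm_num) (by norm_num) (by norm_num) (by norm_num))
    (exp_neg_leJ (r := 0.739) 5 (by norm_num) (by norm_num) (by norm_num) (by norm_num))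
    (exp_neg_leJ (r := 0.99) 14 (by norm_num) (by norm_num) (by norm_num) (by norm_num))
    (exp_neg_leJ (r := 0.881) 4 (by norm_num) (by norm_num) (by norm_num) (by norm_num))
    (exp_neg_leJ (r := 0.99) 14 (by norm_num) (by norm_num) (by norm_num) (by norm_num))
    (exp_neg_leJ (r := 0.99) 14 (by norm_num) (by norm_num) (by norm_num) (by norm_num))
    (exp_neg_leJ (r := 0.99) 14 (by norm_num) (by norm_num) (by norm_num) (by norm_num))
    (by norm_num)) (by norm_num) hN hβ.le (by norm_num)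

private theorem T3_03_d0_0_b1_3 {β x y : ℝ} (hβ : 0 < β) (hN : β * 26.315 ≤ 1) (hx1 : 0.2753 ≤ x) (hx2 : x ≤ 0.4478)
    (hy1 : -0.542 ≤ y) (hy2 : y ≤ -0.447) : ‖HH β (x + y * I) - 1‖ ≤ 0.28 := by
  refine le_epsJ (C := 6.7218) (N0 := 26.315) (J_boxp 0.2753 0.4478 0.542 0 (-0.447) 0.519 0.7031 0.7116 2.2562 0.3366 5.1299 26.315 1.3548 8.189 1.887 0.7475 0.2594 0.1423 0.2469 2.0751 0.1926 0.8811 0.6479 3.3514 0.001087 0.02369 0.001509 0.0000003101 0.006296 0.0000003101 0.0000003101 0.0000003101 6.7218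
    hβ hN hx1 hx2 hy1 hy2 (by norm_num) (by norm_num) (by linarith) (by norm_num) (by norm_num) (by norm_num) (by norm_num) (by norm_num) (by norm_num) (by norm_num) (by norm_num) (by norm_num) (by norm_num) (by norm_num) (by norm_num) (by norm_num) (by norm_num) (by norm_num) (by norm_num) (by norm_num) (by norm_num) (by norm_num) (by norm_num) (by norm_num)
    (cube_sqrt_geJ (s := 0.7405) (by norm_num) (by norm_num) (by norm_num) (by norm_num))
    (cube_sqrt_geJ (s := 0.9133) (by norm_num) (by norm_num) (by norm_num) (by norm_num))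
    (by norm_num) (by norm_num) (by norm_num) (by norm_num) (by norm_num) (by norm_num) (by norm_num) (by norm_num) (by norm_num) (by norm_num) (by norm_num) (by norm_num) (by norm_num) (by norm_num) (by norm_num) (by norm_num) (by norm_num) (by norm_num)
    (exp_neg_leJ (r := 0.826) 6 (by norm_num) (by norm_num) (by norm_num) (by norm_num))
    (exp_neg_leJ (r := 0.744) 3 (by norm_num) (by norm_num) (by norm_num) (by norm_num))
    (exp_neg_leJ (r := 0.497) 6 (by norm_num) (by norm_num) (by norm_num) (by norm_num))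
    (exp_neg_leJ (r := 0.99) 14 (by norm_num) (by norm_num) (by norm_num) (by norm_num))
    (exp_neg_leJ (r := 0.068) 5 (by norm_num) (by norm_num) (by norm_num) (by norm_num))
    (exp_neg_leJ (r := 0.99) 14 (by norm_num) (by norm_num) (by norm_num) (by norm_num))
    (exp_neg_leJ (r := 0.99) 14 (by norm_num) (by norm_num) (by norm_num) (by norm_num))
    (exp_neg_leJ (r := 0.99) 14 (by norm_num) (by norm_num) (by norm_num) (by norm_num))
    (by norm_num)) (by norm_num) hN hβ.le (by norm_num)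

private theorem T3_03_d0_0_b1_4 {β x y : ℝ} (hβ : 0 < β) (hN : β * 26.315 ≤ 1) (hx1 : 0.3206 ≤ x) (hx2 : x ≤ 0.4224)
    (hy1 : -0.507 ≤ y) (hy2 : y ≤ -0.44) : ‖HH β (x + y * I) - 1‖ ≤ 0.28 := by
  refine le_epsJ (C := 3.0801) (N0 := 26.315) (J_boxp 0.3206 0.4224 0.507 0 (-0.44) 0.5758 0.66 0.7015 1.917 0.3342 5.1299 26.315 1.1463 5.393 1.698 0.7896 0.2878 0.1778 0.3177 2.2044 0.2337 0.9439 0.8337 3.5592 0.0005144 0.009305 0.0002341 0.0000003101 0.002136 0.0000003101 0.0000003101 0.0000003101 3.0801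
    hβ hN hx1 hx2 hy1 hy2 (by norm_num) (by norm_num) (by linarith) (by norm_num) (by norm_num) (by norm_num) (by norm_num) (by norm_num) (by norm_num) (by norm_num) (by norm_num) (by norm_num) (by norm_num) (by norm_num) (by norm_num) (by norm_num) (by norm_num) (by norm_num) (by norm_num) (by norm_num) (by norm_num) (by norm_num) (by norm_num) (by norm_num)
    (cube_sqrt_geJ (s := 0.786) (by norm_num) (by norm_num) (by norm_num) (by norm_num))
    (cube_sqrt_geJ (s := 0.9271) (by norm_num) (by norm_num) (by norm_num) (by norm_num))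
    (by norm_num) (by norm_num) (by norm_num) (by norm_num) (by norm_num) (by norm_num) (by norm_num) (by norm_num) (by norm_num) (by norm_num) (by norm_num) (by norm_num) (by norm_num) (by norm_num) (by norm_num) (by norm_num) (by norm_num) (by norm_num)
    (exp_neg_leJ (r := 0.573) 7 (by norm_num) (by norm_num) (by norm_num) (by norm_num))
    (exp_neg_leJ (r := 0.678) 4 (by norm_num) (by norm_num) (by norm_num) (by norm_num))
    (exp_neg_leJ (r := 0.36) 8 (by norm_num) (by norm_num) (by norm_num) (by norm_num))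
    (exp_neg_leJ (r := 0.99) 14 (by norm_num) (by norm_num) (by norm_num) (by norm_num))
    (exp_neg_leJ (r := 0.149) 6 (by norm_num) (by norm_num) (by norm_num) (by norm_num))
    (exp_neg_leJ (r := 0.99) 14 (by norm_num) (by norm_num) (by norm_num) (by norm_num))
    (exp_neg_leJ (r := 0.99) 14 (by norm_num) (by norm_num) (by norm_num) (by norm_num))
    (exp_neg_leJ (r := 0.99) 14 (by norm_num) (by norm_num) (by norm_num) (by norm_num))
    (by norm_num)) (by norm_num) hN hβ.le (by norm_num)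

private theorem T3_03_d0_0_c1 {κ t β : ℝ} (h : DomR κ t) (hβ : 0 < β) (hk1 : 0.37 ≤ κ) (hk2 : κ ≤ 0.38)
    (ht1 : -0.9674 ≤ t + κ) (ht2 : t + κ ≤ -0.93739) (hR0 : β * 10 ≤ κ) (hR : β * (1 * (1 + κ ^ 2)) ≤ κ) :
    ∀ s : ℂ, ‖s - sg κ t‖ ≤ 0.03 → ‖HH β s - 1‖ ≤ 0.28 := by
  have hN : β * 26.315 ≤ 1 := bNR hβ h.1 hk2 hR0 (by norm_num)
  have hy1 : -0.547 ≤ sy κ t := syL_ang2 h 0.37 0.38 0.9674 0.984 0.5536 0.8329 0.547 1.72805 0.57868 hk1 hk2 (by linarith) (by norm_num) (by norm_num) (by norm_num) (by norm_num)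
    (cos_ge_num (by norm_num) (by norm_num)) (sin_le_num (by norm_num) (by norm_num))
    (expn_ge (by norm_num) (by norm_num)) (expm_ge (by norm_num) (by norm_num) (by norm_num) (by norm_num)) (by norm_num) (by norm_num) (by norm_num)
    (by norm_num) (by norm_num) (by norm_num)
  have hy2 : sy κ t ≤ -0.47 := syL_le h 0.37 0.38 0.93739 0.47 0.625 0.62501 0.77302 0.79394 hk1 hk2 (by linarith) (by norm_num) (by norm_num) (by norm_num)
    (expm_ge (by norm_num) (by norm_num) (by norm_num) (by norm_num)) (expm_le (by norm_num) (by norm_num) (by norm_num)) (by norm_num)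
    (by norm_num) (by norm_num) (by norm_num) (by norm_num) (by norm_num) (by norm_num)
  intro s hs
  have hs' : ‖s - ((sx κ t : ℂ) + (sy κ t : ℂ) * I)‖ ≤ 0.03 := hs
  obtain ⟨es, ⟨s1, s2⟩, ⟨s3, s4⟩⟩ := disc_split hs'
  rcases le_total (sy κ t) (-0.542) with f0 | g0
  · have hx1 : 0.3248 ≤ sx κ t := sx_lo h 0.37 (-0.542) 0.547 1.71943 0.3248 hk1 (by norm_num) f0 (abs_le.2 ⟨by linarith, by linarith⟩) (by rw [neg_neg]; exact expn_ge (by norm_num) (by norm_num)) (by norm_num) (by norm_num)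
    have hx2 : sx κ t ≤ 0.3708 := sx_hi h 0.38 (-0.547) 0.542 1.72807 0.3708 hk2 hy1 (by norm_num) (by rw [abs_of_nonpos (by linarith)]; linarith) (by rw [neg_neg]; exact expn_le (by norm_num) (by norm_num) (by norm_num)) (by norm_num) (by norm_num)
    rw [es]
    exact T3_03_d0_0_b1_0 hβ hN (by linarith) (by linarith) (by linarith) (by linarith)
  rcases le_total (sy κ t) (-0.532) with f1 | g1
  · have hx1 : 0.3208 ≤ sx κ t := sx_lo h 0.37 (-0.532) 0.542 1.70233 0.3208 hk1 (by norm_num) f1 (abs_le.2 ⟨by linarith, by linarith⟩) (by rw [neg_neg]; exact expn_ge (by norm_num) (by norm_num)) (by norm_num) (by norm_num)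
    have hx2 : sx κ t ≤ 0.3794 := sx_hi h 0.38 (-0.542) 0.532 1.71945 0.3794 hk2 g0 (by norm_num) (by rw [abs_of_nonpos (by linarith)]; linarith) (by rw [neg_neg]; exact expn_le (by norm_num) (by norm_num) (by norm_num)) (by norm_num) (by norm_num)
    rw [es]
    exact T3_03_d0_0_b1_1 hβ hN (by linarith) (by linarith) (by linarith) (by linarith)
  rcases le_total (sy κ t) (-0.512) with f2 | g2
  · have hx1 : 0.3132 ≤ sx κ t := sx_lo h 0.37 (-0.512) 0.532 1.66862 0.3132 hk1 (by norm_num) f2 (abs_le.2 ⟨by linarith, by linarith⟩) (by rw [neg_neg]; exact expn_ge (by norm_num) (by norm_num)) (by norm_num) (by norm_num)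
    have hx2 : sx κ t ≤ 0.3954 := sx_hi h 0.38 (-0.532) 0.512 1.70234 0.3954 hk2 g1 (by norm_num) (by rw [abs_of_nonpos (by linarith)]; linarith) (by rw [neg_neg]; exact expn_le (by norm_num) (by norm_num) (by norm_num)) (by norm_num) (by norm_num)
    rw [es]
    exact T3_03_d0_0_b1_2 hβ hN (by linarith) (by linarith) (by linarith) (by linarith)
  rcases le_total (sy κ t) (-0.477) with f3 | g3
  · have hx1 : 0.3053 ≤ sx κ t := sx_lo h 0.37 (-0.477) 0.512 1.61123 0.3053 hk1 (by norm_num) f3 (abs_le.2 ⟨by linarith, by linarith⟩) (by rw [neg_neg]; exact expn_ge (by norm_num) (by norm_num)) (by norm_num) (by norm_num)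
    have hx2 : sx κ t ≤ 0.4178 := sx_hi h 0.38 (-0.512) 0.477 1.66863 0.4178 hk2 g2 (by norm_num) (by rw [abs_of_nonpos (by linarith)]; linarith) (by rw [neg_neg]; exact expn_le (by norm_num) (by norm_num) (by norm_num)) (by norm_num) (by norm_num)
    rw [es]
    exact T3_03_d0_0_b1_3 hβ hN (by linarith) (by linarith) (by linarith) (by linarith)
  have hx1 : 0.3506 ≤ sx κ t := sx_lo h 0.37 (-0.47) 0.477 1.59999 0.3506 hk1 (by norm_num) hy2 (abs_le.2 ⟨by linarith, by linarith⟩) (by rw [neg_neg]; exact expn_ge (by norm_num) (by norm_num)) (by norm_num) (by norm_num)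
  have hx2 : sx κ t ≤ 0.3924 := sx_hi h 0.38 (-0.477) 0.47 1.61124 0.3924 hk2 g3 (by norm_num) (by rw [abs_of_nonpos (by linarith)]; linarith) (by rw [neg_neg]; exact expn_le (by norm_num) (by norm_num) (by norm_num)) (by norm_num) (by norm_num)
  rw [es]
  exact T3_03_d0_0_b1_4 hβ hN (by linarith) (by linarith) (by linarith) (by linarith)

theorem T3_03_d0_0 {κ t β : ℝ} (h : DomR κ t) (hβ : 0 < β) (hk1 : 0.36 ≤ κ) (hk2 : κ ≤ 0.38)
    (ht1 : -0.9674 ≤ t + κ) (ht2 : t + κ ≤ -0.93739) (hR0 : β * 10 ≤ κ) (hR : β * (1 * (1 + κ ^ 2)) ≤ κ) :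
    ∀ s : ℂ, ‖s - sg κ t‖ ≤ 0.03 → ‖HH β s - 1‖ ≤ 0.28 := by
  rcases le_total κ 0.37 with f0 | g0
  · exact T3_03_d0_0_c0 h hβ hk1 f0 ht1 ht2 hR0 hR
  exact T3_03_d0_0_c1 h hβ g0 hk2 ht1 ht2 hR0 hR

private theorem T3_03_d1_0_b0_0 {β x y : ℝ} (hβ : 0 < β) (hN : β * 27.027 ≤ 1) (hx1 : 0.1224 ≤ x) (hx2 : x ≤ 0.2166)
    (hy1 : -0 ≤ y) (hy2 : y ≤ 0.269) : ‖HH β (x + y * I) - 1‖ ≤ 0.015 := by
  refine le_epsJ (C := 0.2489) (N0 := 27.027) (J_boxp 0.1224 0.2166 0 0.269 0.269 0.7962 0.3454 1.2874 1.5971 0.4527 5.1988 27.027 0.4339 1.728 1.211 1.3368 0.398 0.3405 1.0501 3.944 0.387 0.642 0.6617 2.7504 0.00002135 0.0001009 0.0000003101 0.0000003101 0.0000287 0.0000003101 0.0000003101 0.0000003101 0.2489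
    hβ hN hx1 hx2 hy1 hy2 (by norm_num) (by norm_num) (by linarith) (by norm_num) (by norm_num) (by norm_num) (by norm_num) (by norm_num) (by norm_num) (by norm_num) (by norm_num) (by norm_num) (by norm_num) (by norm_num) (by norm_num) (by norm_num) (by norm_num) (by norm_num) (by norm_num) (by norm_num) (by norm_num) (by norm_num) (by norm_num) (by norm_num)
    (cube_sqrt_geJ (s := 0.9248) (by norm_num) (by norm_num) (by norm_num) (by norm_num))
    (cube_sqrt_geJ (s := 0.973) (by norm_num) (by norm_num) (by norm_num) (by norm_num))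
    (by norm_num) (by norm_num) (by norm_num) (by norm_num) (by norm_num) (by norm_num) (by norm_num) (by norm_num) (by norm_num) (by norm_num) (by norm_num) (by norm_num) (by norm_num) (by norm_num) (by norm_num) (by norm_num) (by norm_num) (by norm_num)
    (exp_neg_leJ (r := 0.756) 10 (by norm_num) (by norm_num) (by norm_num) (by norm_num))
    (exp_neg_leJ (r := 0.202) 9 (by norm_num) (by norm_num) (by norm_num) (by norm_num))
    (exp_neg_leJ (r := 0.99) 14 (by norm_num) (by norm_num) (by norm_num) (by norm_num))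
    (exp_neg_leJ (r := 0.99) 14 (by norm_num) (by norm_num) (by norm_num) (by norm_num))
    (exp_neg_leJ (r := 0.459) 10 (by norm_num) (by norm_num) (by norm_num) (by norm_num))
    (exp_neg_leJ (r := 0.99) 14 (by norm_num) (by norm_num) (by norm_num) (by norm_num))
    (exp_neg_leJ (r := 0.99) 14 (by norm_num) (by norm_num) (by norm_num) (by norm_num))
    (exp_neg_leJ (r := 0.99) 14 (by norm_num) (by norm_num) (by norm_num) (by norm_num))
    (by norm_num)) (by norm_num) hN hβ.le (by norm_num)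

private theorem T3_03_d1_0_c0 {κ t β : ℝ} (h : DomR κ t) (hβ : 0 < β) (hk1 : 0.36 ≤ κ) (hk2 : κ ≤ 0.37)
    (ht1 : 1.127 ≤ t + κ) (ht2 : t + κ ≤ 1.157) (hR0 : β * 10 ≤ κ) (hR : β * (1 * (1 + κ ^ 2)) ≤ κ) :
    ∀ s : ℂ, ‖s - sg κ t‖ ≤ 0.03 → ‖HH β s - 1‖ ≤ 0.015 := by
  have hN : β * 27.027 ≤ 1 := bNR hβ h.1 hk2 hR0 (by norm_num)
  have hy1 : 0.228 ≤ sy κ t := syR_ge h 0.36 0.37 1.127 0.228 1.25608 1.25609 0.77401 0.79553 hk1 hk2 (by linarith) (by norm_num) (by norm_num)
    (expn_ge (by norm_num) (by norm_num)) (expn_le (by norm_num) (by norm_num) (by norm_num)) (by norm_num)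
    (by norm_num) (by norm_num) (by norm_num) (by norm_num) (by norm_num) (by norm_num)
  have hy2 : sy κ t ≤ 0.239 := syR_ang2 h 0.36 0.37 1.157 0.961 0.5738 0.82 0.239 0.78742 1.26997 hk1 hk2 (by linarith) (by norm_num) (by norm_num) (by norm_num)
    (cos_le_num (by norm_num)) (sin_le_num (by norm_num) (by norm_num)) (expm_le (by norm_num) (by norm_num) (by norm_num))
    (expn_ge (by norm_num) (by norm_num)) (by norm_num) (by norm_num) (by norm_num) (by norm_num) (by norm_num)
  intro s hs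
  have hs' : ‖s - ((sx κ t : ℂ) + (sy κ t : ℂ) * I)‖ ≤ 0.03 := hs
  obtain ⟨es, ⟨s1, s2⟩, ⟨s3, s4⟩⟩ := disc_split hs'
  have hx1 : 0.1524 ≤ sx κ t := sx_lo h 0.36 0.239 0.239 0.78741 0.1524 hk1 (by norm_num) hy2 (abs_le.2 ⟨by linarith, by linarith⟩) (expm_ge (by norm_num) (by norm_num) (by norm_num) (by norm_num)) (by norm_num) (by norm_num)
  have hx2 : sx κ t ≤ 0.1866 := sx_hi h 0.37 0.228 0.228 0.79613 0.1866 hk2 hy1 (by norm_num) (by rw [abs_of_nonneg (by linarith)]; linarith) (expm_le (by norm_num) (by norm_num) (by norm_num)) (by norm_num) (by norm_num)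
  rw [es]
  exact T3_03_d1_0_b0_0 hβ hN (by linarith) (by linarith) (by linarith) (by linarith)

private theorem T3_03_d1_0_b1_0 {β x y : ℝ} (hβ : 0 < β) (hN : β * 26.315 ≤ 1) (hx1 : 0.1265 ≤ x) (hx2 : x ≤ 0.2206)
    (hy1 : -0 ≤ y) (hy2 : y ≤ 0.274) : ‖HH β (x + y * I) - 1‖ ≤ 0.015 := by
  refine le_epsJ (C := 0.2557) (N0 := 26.315) (J_boxp 0.1265 0.2206 0 0.274 0.274 0.7991 0.3518 1.293 1.5919 0.4537 5.1299 26.315 0.4403 1.743 1.215 1.3352 0.3995 0.3409 1.0515 3.9411 0.3885 0.6472 0.6485 2.7176 0.00002722 0.0001276 0.0000003101 0.0000003101 0.00003633 0.0000003101 0.0000003101 0.0000003101 0.2557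
    hβ hN hx1 hx2 hy1 hy2 (by norm_num) (by norm_num) (by linarith) (by norm_num) (by norm_num) (by norm_num) (by norm_num) (by norm_num) (by norm_num) (by norm_num) (by norm_num) (by norm_num) (by norm_num) (by norm_num) (by norm_num) (by norm_num) (by norm_num) (by norm_num) (by norm_num) (by norm_num) (by norm_num) (by norm_num) (by norm_num) (by norm_num)
    (cube_sqrt_geJ (s := 0.9237) (by norm_num) (by norm_num) (by norm_num) (by norm_num))
    (cube_sqrt_geJ (s := 0.9726) (by norm_num) (by norm_num) (by norm_num) (by norm_num))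
    (by norm_num) (by norm_num) (by norm_num) (by norm_num) (by norm_num) (by norm_num) (by norm_num) (by norm_num) (by norm_num) (by norm_num) (by norm_num) (by norm_num) (by norm_num) (by norm_num) (by norm_num) (by norm_num) (by norm_num) (by norm_num)
    (exp_neg_leJ (r := 0.512) 10 (by norm_num) (by norm_num) (by norm_num) (by norm_num))
    (exp_neg_leJ (r := 0.97) 8 (by norm_num) (by norm_num) (by norm_num) (by norm_num))
    (exp_neg_leJ (r := 0.99) 14 (by norm_num) (by norm_num) (by norm_num) (by norm_num))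
    (exp_neg_leJ (r := 0.99) 14 (by norm_num) (by norm_num) (by norm_num) (by norm_num))
    (exp_neg_leJ (r := 0.223) 10 (by norm_num) (by norm_num) (by norm_num) (by norm_num))
    (exp_neg_leJ (r := 0.99) 14 (by norm_num) (by norm_num) (by norm_num) (by norm_num))
    (exp_neg_leJ (r := 0.99) 14 (by norm_num) (by norm_num) (by norm_num) (by norm_num))
    (exp_neg_leJ (r := 0.99) 14 (by norm_num) (by norm_num) (by norm_num) (by norm_num))
    (by norm_num)) (by norm_num) hN hβ.le (by norm_num)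

private theorem T3_03_d1_0_c1 {κ t β : ℝ} (h : DomR κ t) (hβ : 0 < β) (hk1 : 0.37 ≤ κ) (hk2 : κ ≤ 0.38)
    (ht1 : 1.127 ≤ t + κ) (ht2 : t + κ ≤ 1.157) (hR0 : β * 10 ≤ κ) (hR : β * (1 * (1 + κ ^ 2)) ≤ κ) :
    ∀ s : ℂ, ‖s - sg κ t‖ ≤ 0.03 → ‖HH β s - 1‖ ≤ 0.015 := by
  have hN : β * 26.315 ≤ 1 := bNR hβ h.1 hk2 hR0 (by norm_num)
  have hy1 : 0.233 ≤ sy κ t := syR_ge h 0.37 0.38 1.127 0.233 1.26238 1.26239 0.77403 0.79497 hk1 hk2 (by linarith) (by norm_num) (by norm_num)
    (expn_ge (by norm_num) (by norm_num)) (expn_le (by norm_num) (by norm_num) (by norm_num)) (by norm_num)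
    (by norm_num) (by norm_num) (by norm_num) (by norm_num) (by norm_num) (by norm_num)
  have hy2 : sy κ t ≤ 0.244 := syR_ang2 h 0.37 0.38 1.157 0.96 0.5746 0.8194 0.244 0.78349 1.27634 hk1 hk2 (by linarith) (by norm_num) (by norm_num) (by norm_num)
    (cos_le_num (by norm_num)) (sin_le_num (by norm_num) (by norm_num)) (expm_le (by norm_num) (by norm_num) (by norm_num))
    (expn_ge (by norm_num) (by norm_num)) (by norm_num) (by norm_num) (by norm_num) (by norm_num) (by norm_num)
  intro s hs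
  have hs' : ‖s - ((sx κ t : ℂ) + (sy κ t : ℂ) * I)‖ ≤ 0.03 := hs
  obtain ⟨es, ⟨s1, s2⟩, ⟨s3, s4⟩⟩ := disc_split hs'
  have hx1 : 0.1565 ≤ sx κ t := sx_lo h 0.37 0.244 0.244 0.78348 0.1565 hk1 (by norm_num) hy2 (abs_le.2 ⟨by linarith, by linarith⟩) (expm_ge (by norm_num) (by norm_num) (by norm_num) (by norm_num)) (by norm_num) (by norm_num)
  have hx2 : sx κ t ≤ 0.1906 := sx_hi h 0.38 0.233 0.233 0.79216 0.1906 hk2 hy1 (by norm_num) (by rw [abs_of_nonneg (by linarith)]; linarith) (expm_le (by norm_num) (by norm_num) (by norm_num)) (by norm_num) (by norm_num)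
  rw [es]
  exact T3_03_d1_0_b1_0 hβ hN (by linarith) (by linarith) (by linarith) (by linarith)

theorem T3_03_d1_0 {κ t β : ℝ} (h : DomR κ t) (hβ : 0 < β) (hk1 : 0.36 ≤ κ) (hk2 : κ ≤ 0.38)
    (ht1 : 1.127 ≤ t + κ) (ht2 : t + κ ≤ 1.157) (hR0 : β * 10 ≤ κ) (hR : β * (1 * (1 + κ ^ 2)) ≤ κ) :
    ∀ s : ℂ, ‖s - sg κ t‖ ≤ 0.03 → ‖HH β s - 1‖ ≤ 0.015 := by
  rcases le_total κ 0.37 with f0 | g0
  · exact T3_03_d1_0_c0 h hβ hk1 f0 ht1 ht2 hR0 hR
  exact T3_03_d1_0_c1 h hβ g0 hk2 ht1 ht2 hR0 hR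

private theorem T3_03_d0_1_b0_0 {β x y : ℝ} (hβ : 0 < β) (hN : β * 27.027 ≤ 1) (hx1 : 0.2585 ≤ x) (hx2 : x ≤ 0.4171)
    (hy1 : -0.538 ≤ y) (hy2 : y ≤ -0.438) : ‖HH β (x + y * I) - 1‖ ≤ 0.24 := by
  refine le_epsJ (C := 6.4764) (N0 := 27.027) (J_boxp 0.2585 0.4171 0.538 0 (-0.438) 0.51 0.6808 0.6999 2.2971 0.3338 5.1988 27.027 1.335 7.853 1.868 0.763 0.2549 0.1415 0.2475 2.1031 0.1866 0.8579 0.6252 3.3784 0.001022 0.02188 0.001246 0.0000003101 0.006455 0.0000003101 0.0000003101 0.0000003101 6.4764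
    hβ hN hx1 hx2 hy1 hy2 (by norm_num) (by norm_num) (by linarith) (by norm_num) (by norm_num) (by norm_num) (by norm_num) (by norm_num) (by norm_num) (by norm_num) (by norm_num) (by norm_num) (by norm_num) (by norm_num) (by norm_num) (by norm_num) (by norm_num) (by norm_num) (by norm_num) (by norm_num) (by norm_num) (by norm_num) (by norm_num) (by norm_num)
    (cube_sqrt_geJ (s := 0.7449) (by norm_num) (by norm_num) (by norm_num) (by norm_num))
    (cube_sqrt_geJ (s := 0.9146) (by norm_num) (by norm_num) (by norm_num) (by norm_num))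
    (by norm_num) (by norm_num) (by norm_num) (by norm_num) (by norm_num) (by norm_num) (by norm_num) (by norm_num) (by norm_num) (by norm_num) (by norm_num) (by norm_num) (by norm_num) (by norm_num) (by norm_num) (by norm_num) (by norm_num) (by norm_num)
    (exp_neg_leJ (r := 0.889) 6 (by norm_num) (by norm_num) (by norm_num) (by norm_num))
    (exp_neg_leJ (r := 0.824) 3 (by norm_num) (by norm_num) (by norm_num) (by norm_num))
    (exp_neg_leJ (r := 0.689) 6 (by norm_num) (by norm_num) (by norm_num) (by norm_num))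
    (exp_neg_leJ (r := 0.99) 14 (by norm_num) (by norm_num) (by norm_num) (by norm_num))
    (exp_neg_leJ (r := 0.043) 5 (by norm_num) (by norm_num) (by norm_num) (by norm_num))
    (exp_neg_leJ (r := 0.99) 14 (by norm_num) (by norm_num) (by norm_num) (by norm_num))
    (exp_neg_leJ (r := 0.99) 14 (by norm_num) (by norm_num) (by norm_num) (by norm_num))
    (exp_neg_leJ (r := 0.99) 14 (by norm_num) (by norm_num) (by norm_num) (by norm_num))
    (by norm_num)) (by norm_num) hN hβ.le (by norm_num)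

private theorem T3_03_d0_1_b0_1 {β x y : ℝ} (hβ : 0 < β) (hN : β * 27.027 ≤ 1) (hx1 : 0.2476 ≤ x) (hx2 : x ≤ 0.4454)
    (hy1 : -0.518 ≤ y) (hy2 : y ≤ -0.398) : ‖HH β (x + y * I) - 1‖ ≤ 0.24 := by
  refine le_epsJ (C := 6.3134) (N0 := 27.027) (J_boxp 0.2476 0.4454 0.518 0 (-0.398) 0.5165 0.6832 0.7489 2.3314 0.3453 5.1988 27.027 1.3228 7.654 1.857 0.7706 0.2582 0.1443 0.2753 2.1565 0.1923 0.8428 0.6578 3.3501 0.0009353 0.02031 0.0005874 0.0000003101 0.005534 0.0000003101 0.0000003101 0.0000003101 6.3134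
    hβ hN hx1 hx2 hy1 hy2 (by norm_num) (by norm_num) (by linarith) (by norm_num) (by norm_num) (by norm_num) (by norm_num) (by norm_num) (by norm_num) (by norm_num) (by norm_num) (by norm_num) (by norm_num) (by norm_num) (by norm_num) (by norm_num) (by norm_num) (by norm_num) (by norm_num) (by norm_num) (by norm_num) (by norm_num) (by norm_num) (by norm_num)
    (cube_sqrt_geJ (s := 0.7477) (by norm_num) (by norm_num) (by norm_num) (by norm_num))
    (cube_sqrt_geJ (s := 0.9154) (by norm_num) (by norm_num) (by norm_num) (by norm_num))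
    (by norm_num) (by norm_num) (by norm_num) (by norm_num) (by norm_num) (by norm_num) (by norm_num) (by norm_num) (by norm_num) (by norm_num) (by norm_num) (by norm_num) (by norm_num) (by norm_num) (by norm_num) (by norm_num) (by norm_num) (by norm_num)
    (exp_neg_leJ (r := 0.978) 6 (by norm_num) (by norm_num) (by norm_num) (by norm_num))
    (exp_neg_leJ (r := 0.899) 3 (by norm_num) (by norm_num) (by norm_num) (by norm_num))
    (exp_neg_leJ (r := 0.44) 7 (by norm_num) (by norm_num) (by norm_num) (by norm_num))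
    (exp_neg_leJ (r := 0.99) 14 (by norm_num) (by norm_num) (by norm_num) (by norm_num))
    (exp_neg_leJ (r := 0.197) 5 (by norm_num) (by norm_num) (by norm_num) (by norm_num))
    (exp_neg_leJ (r := 0.99) 14 (by norm_num) (by norm_num) (by norm_num) (by norm_num))
    (exp_neg_leJ (r := 0.99) 14 (by norm_num) (by norm_num) (by norm_num) (by norm_num))
    (exp_neg_leJ (r := 0.99) 14 (by norm_num) (by norm_num) (by norm_num) (by norm_num))
    (by norm_num)) (by norm_num) hN hβ.le (by norm_num)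

private theorem T3_03_d0_1_b0_2 {β x y : ℝ} (hβ : 0 < β) (hN : β * 27.027 ≤ 1) (hx1 : 0.2744 ≤ x) (hx2 : x ≤ 0.4469)
    (hy1 : -0.478 ≤ y) (hy2 : y ≤ -0.364) : ‖HH β (x + y * I) - 1‖ ≤ 0.24 := by
  refine le_epsJ (C := 3.4744) (N0 := 27.027) (J_boxp 0.2744 0.4469 0.478 0 (-0.364) 0.5638 0.6544 0.7774 2.0828 0.3518 5.1988 27.027 1.1607 5.542 1.711 0.807 0.2818 0.1728 0.3477 2.2894 0.2271 0.8799 0.8201 3.482 0.0004928 0.009379 0.00008298 0.0000003101 0.002162 0.0000003101 0.0000003101 0.0000003101 3.4744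
    hβ hN hx1 hx2 hy1 hy2 (by norm_num) (by norm_num) (by linarith) (by norm_num) (by norm_num) (by norm_num) (by norm_num) (by norm_num) (by norm_num) (by norm_num) (by norm_num) (by norm_num) (by norm_num) (by norm_num) (by norm_num) (by norm_num) (by norm_num) (by norm_num) (by norm_num) (by norm_num) (by norm_num) (by norm_num) (by norm_num) (by norm_num)
    (cube_sqrt_geJ (s := 0.783) (by norm_num) (by norm_num) (by norm_num) (by norm_num))
    (cube_sqrt_geJ (s := 0.9262) (by norm_num) (by norm_num) (by norm_num) (by norm_num))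
    (by norm_num) (by norm_num) (by norm_num) (by norm_num) (by norm_num) (by norm_num) (by norm_num) (by norm_num) (by norm_num) (by norm_num) (by norm_num) (by norm_num) (by norm_num) (by norm_num) (by norm_num) (by norm_num) (by norm_num) (by norm_num)
    (exp_neg_leJ (r := 0.616) 7 (by norm_num) (by norm_num) (by norm_num) (by norm_num))
    (exp_neg_leJ (r := 0.67) 4 (by norm_num) (by norm_num) (by norm_num) (by norm_num))
    (exp_neg_leJ (r := 0.397) 9 (by norm_num) (by norm_num) (by norm_num) (by norm_num))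
    (exp_neg_leJ (r := 0.99) 14 (by norm_num) (by norm_num) (by norm_num) (by norm_num))
    (exp_neg_leJ (r := 0.137) 6 (by norm_num) (by norm_num) (by norm_num) (by norm_num))
    (exp_neg_leJ (r := 0.99) 14 (by norm_num) (by norm_num) (by norm_num) (by norm_num))
    (exp_neg_leJ (r := 0.99) 14 (by norm_num) (by norm_num) (by norm_num) (by norm_num))
    (exp_neg_leJ (r := 0.99) 14 (by norm_num) (by norm_num) (by norm_num) (by norm_num))
    (by norm_num)) (by norm_num) hN hβ.le (by norm_num)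

private theorem T3_03_d0_1_c0 {κ t β : ℝ} (h : DomR κ t) (hβ : 0 < β) (hk1 : 0.36 ≤ κ) (hk2 : κ ≤ 0.37)
    (ht1 : -0.9374 ≤ t + κ) (ht2 : t + κ ≤ -0.86739) (hR0 : β * 10 ≤ κ) (hR : β * (1 * (1 + κ ^ 2)) ≤ κ) :
    ∀ s : ℂ, ‖s - sg κ t‖ ≤ 0.04 → ‖HH β s - 1‖ ≤ 0.24 := by
  have hN : β * 27.027 ≤ 1 := bNR hβ h.1 hk2 hR0 (by norm_num)
  have hy1 : -0.498 ≤ sy κ t := syL_ang2 h 0.36 0.37 0.9374 0.957 0.5759 0.8177 0.498 1.64542 0.60774 hk1 hk2 (by linarith) (by norm_num) (by norm_num) (by norm_num) (by norm_num)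
    (cos_ge_num (by norm_num) (by norm_num)) (sin_le_num (by norm_num) (by norm_num))
    (expn_ge (by norm_num) (by norm_num)) (expm_ge (by norm_num) (by norm_num) (by norm_num) (by norm_num)) (by norm_num) (by norm_num) (by norm_num)
    (by norm_num) (by norm_num) (by norm_num)
  have hy2 : sy κ t ≤ -0.404 := syL_le h 0.36 0.37 0.86739 0.404 0.66764 0.66765 0.72899 0.74926 hk1 hk2 (by linarith) (by norm_num) (by norm_num) (by norm_num)
    (expm_ge (by norm_num) (by norm_num) (by norm_num) (by norm_num)) (expm_le (by norm_num) (by norm_num) (by norm_num)) (by norm_num)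
    (by norm_num) (by norm_num) (by norm_num) (by norm_num) (by norm_num) (by norm_num)
  intro s hs
  have hs' : ‖s - ((sx κ t : ℂ) + (sy κ t : ℂ) * I)‖ ≤ 0.04 := hs
  obtain ⟨es, ⟨s1, s2⟩, ⟨s3, s4⟩⟩ := disc_split hs'
  rcases le_total (sy κ t) (-0.478) with f0 | g0
  · have hx1 : 0.2985 ≤ sx κ t := sx_lo h 0.36 (-0.478) 0.498 1.61284 0.2985 hk1 (by norm_num) f0 (abs_le.2 ⟨by linarith, by linarith⟩) (by rw [neg_neg]; exact expn_ge (by norm_num) (by norm_num)) (by norm_num) (by norm_num)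
    have hx2 : sx κ t ≤ 0.3771 := sx_hi h 0.37 (-0.498) 0.478 1.64543 0.3771 hk2 hy1 (by norm_num) (by rw [abs_of_nonpos (by linarith)]; linarith) (by rw [neg_neg]; exact expn_le (by norm_num) (by norm_num) (by norm_num)) (by norm_num) (by norm_num)
    rw [es]
    exact T3_03_d0_1_b0_0 hβ hN (by linarith) (by linarith) (by linarith) (by linarith)
  rcases le_total (sy κ t) (-0.438) with f1 | g1
  · have hx1 : 0.2876 ≤ sx κ t := sx_lo h 0.36 (-0.438) 0.478 1.5496 0.2876 hk1 (by norm_num) f1 (abs_le.2 ⟨by linarith, by linarith⟩) (by rw [neg_neg]; exact expn_ge (by norm_num) (by norm_num)) (by norm_num) (by norm_num)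
    have hx2 : sx κ t ≤ 0.4054 := sx_hi h 0.37 (-0.478) 0.438 1.61285 0.4054 hk2 g0 (by norm_num) (by rw [abs_of_nonpos (by linarith)]; linarith) (by rw [neg_neg]; exact expn_le (by norm_num) (by norm_num) (by norm_num)) (by norm_num) (by norm_num)
    rw [es]
    exact T3_03_d0_1_b0_1 hβ hN (by linarith) (by linarith) (by linarith) (by linarith)
  have hx1 : 0.3144 ≤ sx κ t := sx_lo h 0.36 (-0.404) 0.438 1.4978 0.3144 hk1 (by norm_num) hy2 (abs_le.2 ⟨by linarith, by linarith⟩) (by rw [neg_neg]; exact expn_ge (by norm_num) (by norm_num)) (by norm_num) (by norm_num)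
  have hx2 : sx κ t ≤ 0.4069 := sx_hi h 0.37 (-0.438) 0.404 1.54961 0.4069 hk2 g1 (by norm_num) (by rw [abs_of_nonpos (by linarith)]; linarith) (by rw [neg_neg]; exact expn_le (by norm_num) (by norm_num) (by norm_num)) (by norm_num) (by norm_num)
  rw [es]
  exact T3_03_d0_1_b0_2 hβ hN (by linarith) (by linarith) (by linarith) (by linarith)

private theorem T3_03_d0_1_b1_0 {β x y : ℝ} (hβ : 0 < β) (hN : β * 26.315 ≤ 1) (hx1 : 0.2974 ≤ x) (hx2 : x ≤ 0.4195)
    (hy1 : -0.557 ≤ y) (hy2 : y ≤ -0.472) : ‖HH β (x + y * I) - 1‖ ≤ 0.24 := by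
  refine le_epsJ (C := 6.0296) (N0 := 26.315) (J_boxp 0.2974 0.4195 0.557 0 (-0.472) 0.5239 0.6974 0.6744 2.1657 0.3277 5.1299 26.315 1.3312 7.79 1.865 0.7446 0.2619 0.1457 0.2308 2.0382 0.1951 0.9117 0.6514 3.4111 0.00102 0.02166 0.002305 0.0000003101 0.005894 0.0000003101 0.0000003101 0.0000003101 6.0296
    hβ hN hx1 hx2 hy1 hy2 (by norm_num) (by norm_num) (by linarith) (by norm_num) (by norm_num) (by norm_num) (by norm_num) (by norm_num) (by norm_num) (by norm_num) (by norm_num) (by norm_num) (by norm_num) (by norm_num) (by norm_num) (by norm_num) (by norm_num) (by norm_num) (by norm_num) (by norm_num) (by norm_num) (by norm_num) (by norm_num) (by norm_num)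
    (cube_sqrt_geJ (s := 0.7458) (by norm_num) (by norm_num) (by norm_num) (by norm_num))
    (cube_sqrt_geJ (s := 0.9148) (by norm_num) (by norm_num) (by norm_num) (by norm_num))
    (by norm_num) (by norm_num) (by norm_num) (by norm_num) (by norm_num) (by norm_num) (by norm_num) (by norm_num) (by norm_num) (by norm_num) (by norm_num) (by norm_num) (by norm_num) (by norm_num) (by norm_num) (by norm_num) (by norm_num) (by norm_num)
    (exp_neg_leJ (r := 0.891) 6 (by norm_num) (by norm_num) (by norm_num) (by norm_num))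
    (exp_neg_leJ (r := 0.834) 3 (by norm_num) (by norm_num) (by norm_num) (by norm_num))
    (exp_neg_leJ (r := 0.073) 6 (by norm_num) (by norm_num) (by norm_num) (by norm_num))
    (exp_neg_leJ (r := 0.99) 14 (by norm_num) (by norm_num) (by norm_num) (by norm_num))
    (exp_neg_leJ (r := 0.134) 5 (by norm_num) (by norm_num) (by norm_num) (by norm_num))
    (exp_neg_leJ (r := 0.99) 14 (by norm_num) (by norm_num) (by norm_num) (by norm_num))
    (exp_neg_leJ (r := 0.99) 14 (by norm_num) (by norm_num) (by norm_num) (by norm_num))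
    (exp_neg_leJ (r := 0.99) 14 (by norm_num) (by norm_num) (by norm_num) (by norm_num))
    (by norm_num)) (by norm_num) hN hβ.le (by norm_num)

private theorem T3_03_d0_1_b1_1 {β x y : ℝ} (hβ : 0 < β) (hN : β * 26.315 ≤ 1) (hx1 : 0.2938 ≤ x) (hx2 : x ≤ 0.4274)
    (hy1 : -0.552 ≤ y) (hy2 : y ≤ -0.462) : ‖HH β (x + y * I) - 1‖ ≤ 0.24 := by
  refine le_epsJ (C := 6.0471) (N0 := 26.315) (J_boxp 0.2938 0.4274 0.552 0 (-0.462) 0.5249 0.6982 0.6872 2.1799 0.3308 5.1299 26.315 1.3302 7.774 1.864 0.7461 0.2624 0.146 0.2375 2.0513 0.1961 0.9067 0.6577 3.4017 0.001006 0.02152 0.001933 0.0000003101 0.005742 0.0000003101 0.0000003101 0.0000003101 6.0471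
    hβ hN hx1 hx2 hy1 hy2 (by norm_num) (by norm_num) (by linarith) (by norm_num) (by norm_num) (by norm_num) (by norm_num) (by norm_num) (by norm_num) (by norm_num) (by norm_num) (by norm_num) (by norm_num) (by norm_num) (by norm_num) (by norm_num) (by norm_num) (by norm_num) (by norm_num) (by norm_num) (by norm_num) (by norm_num) (by norm_num) (by norm_num)
    (cube_sqrt_geJ (s := 0.746) (by norm_num) (by norm_num) (by norm_num) (by norm_num))
    (cube_sqrt_geJ (s := 0.9149) (by norm_num) (by norm_num) (by norm_num) (by norm_num))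
    (by norm_num) (by norm_num) (by norm_num) (by norm_num) (by norm_num) (by norm_num) (by norm_num) (by norm_num) (by norm_num) (by norm_num) (by norm_num) (by norm_num) (by norm_num) (by norm_num) (by norm_num) (by norm_num) (by norm_num) (by norm_num)
    (exp_neg_leJ (r := 0.905) 6 (by norm_num) (by norm_num) (by norm_num) (by norm_num))
    (exp_neg_leJ (r := 0.841) 3 (by norm_num) (by norm_num) (by norm_num) (by norm_num))
    (exp_neg_leJ (r := 0.249) 6 (by norm_num) (by norm_num) (by norm_num) (by norm_num))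
    (exp_neg_leJ (r := 0.99) 14 (by norm_num) (by norm_num) (by norm_num) (by norm_num))
    (exp_neg_leJ (r := 0.16) 5 (by norm_num) (by norm_num) (by norm_num) (by norm_num))
    (exp_neg_leJ (r := 0.99) 14 (by norm_num) (by norm_num) (by norm_num) (by norm_num))
    (exp_neg_leJ (r := 0.99) 14 (by norm_num) (by norm_num) (by norm_num) (by norm_num))
    (exp_neg_leJ (r := 0.99) 14 (by norm_num) (by norm_num) (by norm_num) (by norm_num))
    (by norm_num)) (by norm_num) hN hβ.le (by norm_num)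

private theorem T3_03_d0_1_b1_2 {β x y : ℝ} (hβ : 0 < β) (hN : β * 26.315 ≤ 1) (hx1 : 0.287 ≤ x) (hx2 : x ≤ 0.4423)
    (hy1 : -0.542 ≤ y) (hy2 : y ≤ -0.442) : ‖HH β (x + y * I) - 1‖ ≤ 0.24 := by
  refine le_epsJ (C := 6.0472) (N0 := 26.315) (J_boxp 0.287 0.4423 0.542 0 (-0.442) 0.5272 0.6996 0.7121 2.2045 0.3367 5.1299 26.315 1.3271 7.724 1.861 0.7496 0.2635 0.1469 0.251 2.0777 0.1983 0.8973 0.6713 3.3843 0.0009768 0.02101 0.001355 0.0000003101 0.005419 0.0000003101 0.0000003101 0.0000003101 6.0472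
    hβ hN hx1 hx2 hy1 hy2 (by norm_num) (by norm_num) (by linarith) (by norm_num) (by norm_num) (by norm_num) (by norm_num) (by norm_num) (by norm_num) (by norm_num) (by norm_num) (by norm_num) (by norm_num) (by norm_num) (by norm_num) (by norm_num) (by norm_num) (by norm_num) (by norm_num) (by norm_num) (by norm_num) (by norm_num) (by norm_num) (by norm_num)
    (cube_sqrt_geJ (s := 0.7467) (by norm_num) (by norm_num) (by norm_num) (by norm_num))
    (cube_sqrt_geJ (s := 0.9151) (by norm_num) (by norm_num) (by norm_num) (by norm_num))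
    (by norm_num) (by norm_num) (by norm_num) (by norm_num) (by norm_num) (by norm_num) (by norm_num) (by norm_num) (by norm_num) (by norm_num) (by norm_num) (by norm_num) (by norm_num) (by norm_num) (by norm_num) (by norm_num) (by norm_num) (by norm_num)
    (exp_neg_leJ (r := 0.934) 6 (by norm_num) (by norm_num) (by norm_num) (by norm_num))
    (exp_neg_leJ (r := 0.865) 3 (by norm_num) (by norm_num) (by norm_num) (by norm_num))
    (exp_neg_leJ (r := 0.605) 6 (by norm_num) (by norm_num) (by norm_num) (by norm_num))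
    (exp_neg_leJ (r := 0.99) 14 (by norm_num) (by norm_num) (by norm_num) (by norm_num))
    (exp_neg_leJ (r := 0.218) 5 (by norm_num) (by norm_num) (by norm_num) (by norm_num))
    (exp_neg_leJ (r := 0.99) 14 (by norm_num) (by norm_num) (by norm_num) (by norm_num))
    (exp_neg_leJ (r := 0.99) 14 (by norm_num) (by norm_num) (by norm_num) (by norm_num))
    (exp_neg_leJ (r := 0.99) 14 (by norm_num) (by norm_num) (by norm_num) (by norm_num))
    (by norm_num)) (by norm_num) hN hβ.le (by norm_num)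

private theorem T3_03_d0_1_b1_3 {β x y : ℝ} (hβ : 0 < β) (hN : β * 26.315 ≤ 1) (hx1 : 0.2694 ≤ x) (hx2 : x ≤ 0.4733)
    (hy1 : -0.522 ≤ y) (hy2 : y ≤ -0.397) : ‖HH β (x + y * I) - 1‖ ≤ 0.24 := by
  refine le_epsJ (C := 6.3049) (N0 := 26.315) (J_boxp 0.2694 0.4733 0.522 0 (-0.397) 0.5291 0.7047 0.7666 2.275 0.3493 5.1299 26.315 1.3319 7.802 1.865 0.7562 0.2645 0.147 0.2765 2.1296 0.2007 0.873 0.6905 3.3353 0.0009521 0.02095 0.000692 0.0000003101 0.005088 0.0000003101 0.0000003101 0.0000003101 6.3049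
    hβ hN hx1 hx2 hy1 hy2 (by norm_num) (by norm_num) (by linarith) (by norm_num) (by norm_num) (by norm_num) (by norm_num) (by norm_num) (by norm_num) (by norm_num) (by norm_num) (by norm_num) (by norm_num) (by norm_num) (by norm_num) (by norm_num) (by norm_num) (by norm_num) (by norm_num) (by norm_num) (by norm_num) (by norm_num) (by norm_num) (by norm_num)
    (cube_sqrt_geJ (s := 0.7456) (by norm_num) (by norm_num) (by norm_num) (by norm_num))
    (cube_sqrt_geJ (s := 0.9148) (by norm_num) (by norm_num) (by norm_num) (by norm_num))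
    (by norm_num) (by norm_num) (by norm_num) (by norm_num) (by norm_num) (by norm_num) (by norm_num) (by norm_num) (by norm_num) (by norm_num) (by norm_num) (by norm_num) (by norm_num) (by norm_num) (by norm_num) (by norm_num) (by norm_num) (by norm_num)
    (exp_neg_leJ (r := 0.96) 6 (by norm_num) (by norm_num) (by norm_num) (by norm_num))
    (exp_neg_leJ (r := 0.868) 3 (by norm_num) (by norm_num) (by norm_num) (by norm_num))
    (exp_neg_leJ (r := 0.276) 7 (by norm_num) (by norm_num) (by norm_num) (by norm_num))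
    (exp_neg_leJ (r := 0.99) 14 (by norm_num) (by norm_num) (by norm_num) (by norm_num))
    (exp_neg_leJ (r := 0.281) 5 (by norm_num) (by norm_num) (by norm_num) (by norm_num))
    (exp_neg_leJ (r := 0.99) 14 (by norm_num) (by norm_num) (by norm_num) (by norm_num))
    (exp_neg_leJ (r := 0.99) 14 (by norm_num) (by norm_num) (by norm_num) (by norm_num))
    (exp_neg_leJ (r := 0.99) 14 (by norm_num) (by norm_num) (by norm_num) (by norm_num))
    (by norm_num)) (by norm_num) hN hβ.le (by norm_num)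

private theorem T3_03_d0_1_b1_4 {β x y : ℝ} (hβ : 0 < β) (hN : β * 26.315 ≤ 1) (hx1 : 0.3133 ≤ x) (hx2 : x ≤ 0.454)
    (hy1 : -0.477 ≤ y) (hy2 : y ≤ -0.378) : ‖HH β (x + y * I) - 1‖ ≤ 0.24 := by
  refine le_epsJ (C := 2.7862) (N0 := 26.315) (J_boxp 0.3133 0.454 0.477 0 (-0.378) 0.5919 0.6586 0.7701 1.9271 0.3501 5.1299 26.315 1.1127 5.065 1.67 0.8051 0.2959 0.1861 0.3626 2.2892 0.2466 0.9337 0.9006 3.5484 0.0004161 0.007487 0.00007187 0.0000003101 0.001521 0.0000003101 0.0000003101 0.0000003101 2.7862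
    hβ hN hx1 hx2 hy1 hy2 (by norm_num) (by norm_num) (by linarith) (by norm_num) (by norm_num) (by norm_num) (by norm_num) (by norm_num) (by norm_num) (by norm_num) (by norm_num) (by norm_num) (by norm_num) (by norm_num) (by norm_num) (by norm_num) (by norm_num) (by norm_num) (by norm_num) (by norm_num) (by norm_num) (by norm_num) (by norm_num) (by norm_num)
    (cube_sqrt_geJ (s := 0.7931) (by norm_num) (by norm_num) (by norm_num) (by norm_num))
    (cube_sqrt_geJ (s := 0.9293) (by norm_num) (by norm_num) (by norm_num) (by norm_num))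
    (by norm_num) (by norm_num) (by norm_num) (by norm_num) (by norm_num) (by norm_num) (by norm_num) (by norm_num) (by norm_num) (by norm_num) (by norm_num) (by norm_num) (by norm_num) (by norm_num) (by norm_num) (by norm_num) (by norm_num) (by norm_num)
    (exp_neg_leJ (r := 0.786) 7 (by norm_num) (by norm_num) (by norm_num) (by norm_num))
    (exp_neg_leJ (r := 0.897) 4 (by norm_num) (by norm_num) (by norm_num) (by norm_num))
    (exp_neg_leJ (r := 0.541) 9 (by norm_num) (by norm_num) (by norm_num) (by norm_num))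
    (exp_neg_leJ (r := 0.99) 14 (by norm_num) (by norm_num) (by norm_num) (by norm_num))
    (exp_neg_leJ (r := 0.489) 6 (by norm_num) (by norm_num) (by norm_num) (by norm_num))
    (exp_neg_leJ (r := 0.99) 14 (by norm_num) (by norm_num) (by norm_num) (by norm_num))
    (exp_neg_leJ (r := 0.99) 14 (by norm_num) (by norm_num) (by norm_num) (by norm_num))
    (exp_neg_leJ (r := 0.99) 14 (by norm_num) (by norm_num) (by norm_num) (by norm_num))
    (by norm_num)) (by norm_num) hN hβ.le (by norm_num)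

private theorem T3_03_d0_1_c1 {κ t β : ℝ} (h : DomR κ t) (hβ : 0 < β) (hk1 : 0.37 ≤ κ) (hk2 : κ ≤ 0.38)
    (ht1 : -0.9374 ≤ t + κ) (ht2 : t + κ ≤ -0.86739) (hR0 : β * 10 ≤ κ) (hR : β * (1 * (1 + κ ^ 2)) ≤ κ) :
    ∀ s : ℂ, ‖s - sg κ t‖ ≤ 0.04 → ‖HH β s - 1‖ ≤ 0.24 := by
  have hN : β * 26.315 ≤ 1 := bNR hβ h.1 hk2 hR0 (by norm_num)
  have hy1 : -0.517 ≤ sy κ t := syL_ang2 h 0.37 0.38 0.9374 0.945 0.5857 0.8107 0.517 1.67698 0.5963 hk1 hk2 (by linarith) (by norm_num) (by norm_num) (by norm_num) (by norm_num)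
    (cos_ge_num (by norm_num) (by norm_num)) (sin_le_num (by norm_num) (by norm_num))
    (expn_ge (by norm_num) (by norm_num)) (expm_ge (by norm_num) (by norm_num) (by norm_num) (by norm_num)) (by norm_num) (by norm_num) (by norm_num)
    (by norm_num) (by norm_num) (by norm_num)
  have hy2 : sy κ t ≤ -0.418 := syL_le h 0.37 0.38 0.86739 0.418 0.65836 0.65837 0.72419 0.74379 hk1 hk2 (by linarith) (by norm_num) (by norm_num) (by norm_num)
    (expm_ge (by norm_num) (by norm_num) (by norm_num) (by norm_num)) (expm_le (by norm_num) (by norm_num) (by norm_num)) (by norm_num)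
    (by norm_num) (by norm_num) (by norm_num) (by norm_num) (by norm_num) (by norm_num)
  intro s hs
  have hs' : ‖s - ((sx κ t : ℂ) + (sy κ t : ℂ) * I)‖ ≤ 0.04 := hs
  obtain ⟨es, ⟨s1, s2⟩, ⟨s3, s4⟩⟩ := disc_split hs'
  rcases le_total (sy κ t) (-0.512) with f0 | g0
  · have hx1 : 0.3374 ≤ sx κ t := sx_lo h 0.37 (-0.512) 0.517 1.66862 0.3374 hk1 (by norm_num) f0 (abs_le.2 ⟨by linarith, by linarith⟩) (by rw [neg_neg]; exact expn_ge (by norm_num) (by norm_num)) (by norm_num) (by norm_num)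
    have hx2 : sx κ t ≤ 0.3795 := sx_hi h 0.38 (-0.517) 0.512 1.67699 0.3795 hk2 hy1 (by norm_num) (by rw [abs_of_nonpos (by linarith)]; linarith) (by rw [neg_neg]; exact expn_le (by norm_num) (by norm_num) (by norm_num)) (by norm_num) (by norm_num)
    rw [es]
    exact T3_03_d0_1_b1_0 hβ hN (by linarith) (by linarith) (by linarith) (by linarith)
  rcases le_total (sy κ t) (-0.502) with f1 | g1
  · have hx1 : 0.3338 ≤ sx κ t := sx_lo h 0.37 (-0.502) 0.512 1.65202 0.3338 hk1 (by norm_num) f1 (abs_le.2 ⟨by linarith, by linarith⟩) (by rw [neg_neg]; exact expn_ge (by norm_num) (by norm_num)) (by norm_num) (by norm_num)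
    have hx2 : sx κ t ≤ 0.3874 := sx_hi h 0.38 (-0.512) 0.502 1.66863 0.3874 hk2 g0 (by norm_num) (by rw [abs_of_nonpos (by linarith)]; linarith) (by rw [neg_neg]; exact expn_le (by norm_num) (by norm_num) (by norm_num)) (by norm_num) (by norm_num)
    rw [es]
    exact T3_03_d0_1_b1_1 hβ hN (by linarith) (by linarith) (by linarith) (by linarith)
  rcases le_total (sy κ t) (-0.482) with f2 | g2
  · have hx1 : 0.327 ≤ sx κ t := sx_lo h 0.37 (-0.482) 0.502 1.6193 0.327 hk1 (by norm_num) f2 (abs_le.2 ⟨by linarith, by linarith⟩) (by rw [neg_neg]; exact expn_ge (by norm_num) (by norm_num)) (by norm_num) (by norm_num)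
    have hx2 : sx κ t ≤ 0.4023 := sx_hi h 0.38 (-0.502) 0.482 1.65203 0.4023 hk2 g1 (by norm_num) (by rw [abs_of_nonpos (by linarith)]; linarith) (by rw [neg_neg]; exact expn_le (by norm_num) (by norm_num) (by norm_num)) (by norm_num) (by norm_num)
    rw [es]
    exact T3_03_d0_1_b1_2 hβ hN (by linarith) (by linarith) (by linarith) (by linarith)
  rcases le_total (sy κ t) (-0.437) with f3 | g3
  · have hx1 : 0.3094 ≤ sx κ t := sx_lo h 0.37 (-0.437) 0.482 1.54805 0.3094 hk1 (by norm_num) f3 (abs_le.2 ⟨by linarith, by linarith⟩) (by rw [neg_neg]; exact expn_ge (by norm_num) (by norm_num)) (by norm_num) (by norm_num)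
    have hx2 : sx κ t ≤ 0.4333 := sx_hi h 0.38 (-0.482) 0.437 1.61931 0.4333 hk2 g2 (by norm_num) (by rw [abs_of_nonpos (by linarith)]; linarith) (by rw [neg_neg]; exact expn_le (by norm_num) (by norm_num) (by norm_num)) (by norm_num) (by norm_num)
    rw [es]
    exact T3_03_d0_1_b1_3 hβ hN (by linarith) (by linarith) (by linarith) (by linarith)
  have hx1 : 0.3533 ≤ sx κ t := sx_lo h 0.37 (-0.418) 0.437 1.51892 0.3533 hk1 (by norm_num) hy2 (abs_le.2 ⟨by linarith, by linarith⟩) (by rw [neg_neg]; exact expn_ge (by norm_num) (by norm_num)) (by norm_num) (by norm_num)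
  have hx2 : sx κ t ≤ 0.414 := sx_hi h 0.38 (-0.437) 0.418 1.54806 0.414 hk2 g3 (by norm_num) (by rw [abs_of_nonpos (by linarith)]; linarith) (by rw [neg_neg]; exact expn_le (by norm_num) (by norm_num) (by norm_num)) (by norm_num) (by norm_num)
  rw [es]
  exact T3_03_d0_1_b1_4 hβ hN (by linarith) (by linarith) (by linarith) (by linarith)

theorem T3_03_d0_1 {κ t β : ℝ} (h : DomR κ t) (hβ : 0 < β) (hk1 : 0.36 ≤ κ) (hk2 : κ ≤ 0.38)
    (ht1 : -0.9374 ≤ t + κ) (ht2 : t + κ ≤ -0.86739) (hR0 : β * 10 ≤ κ) (hR : β * (1 * (1 + κ ^ 2)) ≤ κ) :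
    ∀ s : ℂ, ‖s - sg κ t‖ ≤ 0.04 → ‖HH β s - 1‖ ≤ 0.24 := by
  rcases le_total κ 0.37 with f0 | g0
  · exact T3_03_d0_1_c0 h hβ hk1 f0 ht1 ht2 hR0 hR
  exact T3_03_d0_1_c1 h hβ g0 hk2 ht1 ht2 hR0 hR

private theorem T3_03_d1_1_b0_0 {β x y : ℝ} (hβ : 0 < β) (hN : β * 26.315 ≤ 1) (hn : ‖(x + y * I : ℂ)‖ ≤ 0.363) : ‖HH β (x + y * I) - 1‖ ≤ 0.04 := by
  refine le_epsJ (C := 0.7922) (N0 := 26.315) (J45_genN (N := 26.315) (r0 := 5.1299) (f := 2.4983) (n0 := 0.363) (a := 0.637) (wL := 1.713) (wR := 2.074)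
    (E1 := 0.009031) (E2 := 0.000001766) (E3 := 0.03) (E4 := 0.00002201) (E5 := 0.0000003101) hβ (by norm_num) hN
    (by norm_num) (by norm_num) (by norm_num) hn (by norm_num) (by norm_num) (by norm_num)
    (cube_sqrt_geJ (s := 0.926) (by norm_num) (by norm_num) (by norm_num) (by norm_num))
    (cube_sqrt_geJ (s := 0.901) (by norm_num) (by norm_num) (by norm_num) (by norm_num))
    (exp_neg_leJ (r := 0.708) 4 (by norm_num) (by norm_num) (by norm_num) (by norm_num))
    (exp_neg_leJ (r := 0.247) 13 (by norm_num) (by norm_num) (by norm_num) (by norm_num))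
    (exp_neg_leJ (r := 0.507) 3 (by norm_num) (by norm_num) (by norm_num) (by norm_num))
    (exp_neg_leJ (r := 0.725) 10 (by norm_num) (by norm_num) (by norm_num) (by norm_num))
    (exp_neg_leJ (r := 0.99) 14 (by norm_num) (by norm_num) (by norm_num) (by norm_num))
    (by norm_num)) (by norm_num) hN hβ.le (by norm_num)

private theorem T3_03_d1_1_c0 {κ t β : ℝ} (h : DomR κ t) (hβ : 0 < β) (hk1 : 0.36 ≤ κ) (hk2 : κ ≤ 0.38)
    (ht1 : 1.157 ≤ t + κ) (ht2 : t + κ ≤ 1.227) (hR0 : β * 10 ≤ κ) (hR : β * (1 * (1 + κ ^ 2)) ≤ κ) :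
    ∀ s : ℂ, ‖s - sg κ t‖ ≤ 0.06 → ‖HH β s - 1‖ ≤ 0.04 := by
  have hN : β * 26.315 ≤ 1 := bNR hβ h.1 hk2 hR0 (by norm_num)
  have hy1 : 0.229 ≤ sy κ t := syR_ge h 0.36 0.38 1.157 0.229 1.25734 1.25735 0.75771 0.79982 hk1 hk2 (by linarith) (by norm_num) (by norm_num)
    (expn_ge (by norm_num) (by norm_num)) (expn_le (by norm_num) (by norm_num) (by norm_num)) (by norm_num)
    (by norm_num) (by norm_num) (by norm_num) (by norm_num) (by norm_num) (by norm_num)
  have hy2 : sy κ t ≤ 0.252 := syR_ang2 h 0.36 0.38 1.227 1.021 0.5241 0.8529 0.252 0.77725 1.28659 hk1 hk2 (by linarith) (by norm_num) (by norm_num) (by norm_num)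
    (cos_le_num (by norm_num)) (sin_le_num (by norm_num) (by norm_num)) (expm_le (by norm_num) (by norm_num) (by norm_num))
    (expn_ge (by norm_num) (by norm_num)) (by norm_num) (by norm_num) (by norm_num) (by norm_num) (by norm_num)
  intro s hs
  have hs' : ‖s - ((sx κ t : ℂ) + (sy κ t : ℂ) * I)‖ ≤ 0.06 := hs
  obtain ⟨es, ⟨s1, s2⟩, ⟨s3, s4⟩⟩ := disc_split hs'
  rw [es]
  refine T3_03_d1_1_b0_0 hβ hN ?_
  rw [← es]
  exact disc_norm hs' (norm_sg_le h 0.38 0.229 0.79533 (0.363 - 0.06) hk2 hy1 (expm_le (by norm_num) (by norm_num) (by norm_num)) (by norm_num))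

theorem T3_03_d1_1 {κ t β : ℝ} (h : DomR κ t) (hβ : 0 < β) (hk1 : 0.36 ≤ κ) (hk2 : κ ≤ 0.38)
    (ht1 : 1.157 ≤ t + κ) (ht2 : t + κ ≤ 1.227) (hR0 : β * 10 ≤ κ) (hR : β * (1 * (1 + κ ^ 2)) ≤ κ) :
    ∀ s : ℂ, ‖s - sg κ t‖ ≤ 0.06 → ‖HH β s - 1‖ ≤ 0.04 := by
  exact T3_03_d1_1_c0 h hβ hk1 hk2 ht1 ht2 hR0 hR

private theorem T3_03_d0_2_b0_0 {β x y : ℝ} (hβ : 0 < β) (hN : β * 27.027 ≤ 1) (hx1 : 0.2732 ≤ x) (hx2 : x ≤ 0.448)
    (hy1 : -0.487 ≤ y) (hy2 : y ≤ -0.362) : ‖HH β (x + y * I) - 1‖ ≤ 0.145 := by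
  refine le_epsJ (C := 3.8571) (N0 := 27.027) (J_boxp 0.2732 0.448 0.487 0 (-0.362) 0.5566 0.6618 0.7796 2.1263 0.3523 5.1988 27.027 1.1891 5.853 1.735 0.7982 0.2782 0.1679 0.333 2.2588 0.2216 0.8782 0.7932 3.4595 0.0005434 0.01071 0.0001251 0.0000003101 0.002515 0.0000003101 0.0000003101 0.0000003101 3.8571
    hβ hN hx1 hx2 hy1 hy2 (by norm_num) (by norm_num) (by linarith) (by norm_num) (by norm_num) (by norm_num) (by norm_num) (by norm_num) (by norm_num) (by norm_num) (by norm_num) (by norm_num) (by norm_num) (by norm_num) (by norm_num) (by norm_num) (by norm_num) (by norm_num) (by norm_num) (by norm_num) (by norm_num) (by norm_num) (by norm_num) (by norm_num)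
    (cube_sqrt_geJ (s := 0.7769) (by norm_num) (by norm_num) (by norm_num) (by norm_num))
    (cube_sqrt_geJ (s := 0.9243) (by norm_num) (by norm_num) (by norm_num) (by norm_num))
    (by norm_num) (by norm_num) (by norm_num) (by norm_num) (by norm_num) (by norm_num) (by norm_num) (by norm_num) (by norm_num) (by norm_num) (by norm_num) (by norm_num) (by norm_num) (by norm_num) (by norm_num) (by norm_num) (by norm_num) (by norm_num)
    (exp_neg_leJ (r := 0.518) 7 (by norm_num) (by norm_num) (by norm_num) (by norm_num))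
    (exp_neg_leJ (r := 0.537) 4 (by norm_num) (by norm_num) (by norm_num) (by norm_num))
    (exp_neg_leJ (r := 0.99) 8 (by norm_num) (by norm_num) (by norm_num) (by norm_num))
    (exp_neg_leJ (r := 0.99) 14 (by norm_num) (by norm_num) (by norm_num) (by norm_num))
    (exp_neg_leJ (r := 0.989) 5 (by norm_num) (by norm_num) (by norm_num) (by norm_num))
    (exp_neg_leJ (r := 0.99) 14 (by norm_num) (by norm_num) (by norm_num) (by norm_num))
    (exp_neg_leJ (r := 0.99) 14 (by norm_num) (by norm_num) (by norm_num) (by norm_num))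
    (exp_neg_leJ (r := 0.99) 14 (by norm_num) (by norm_num) (by norm_num) (by norm_num))
    (by norm_num)) (by norm_num) hN hβ.le (by norm_num)

private theorem T3_03_d0_2_b0_1 {β x y : ℝ} (hβ : 0 < β) (hN : β * 27.027 ≤ 1) (hx1 : 0.258 ≤ x) (hx2 : x ≤ 0.4797)
    (hy1 : -0.462 ≤ y) (hy2 : y ≤ -0.307) : ‖HH β (x + y * I) - 1‖ ≤ 0.145 := by
  refine le_epsJ (C := 3.8334) (N0 := 27.027) (J_boxp 0.258 0.4797 0.462 0 (-0.307) 0.5636 0.6661 0.8429 2.1699 0.3663 5.1988 27.027 1.1819 5.772 1.729 0.8091 0.2817 0.1707 0.3673 2.3263 0.2279 0.8572 0.8308 3.4174 0.0004943 0.009927 0.00004897 0.0000003101 0.002115 0.0000003101 0.0000003101 0.0000003101 3.8334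
    hβ hN hx1 hx2 hy1 hy2 (by norm_num) (by norm_num) (by linarith) (by norm_num) (by norm_num) (by norm_num) (by norm_num) (by norm_num) (by norm_num) (by norm_num) (by norm_num) (by norm_num) (by norm_num) (by norm_num) (by norm_num) (by norm_num) (by norm_num) (by norm_num) (by norm_num) (by norm_num) (by norm_num) (by norm_num) (by norm_num) (by norm_num)
    (cube_sqrt_geJ (s := 0.7784) (by norm_num) (by norm_num) (by norm_num) (by norm_num))
    (cube_sqrt_geJ (s := 0.9248) (by norm_num) (by norm_num) (by norm_num) (by norm_num))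
    (by norm_num) (by norm_num) (by norm_num) (by norm_num) (by norm_num) (by norm_num) (by norm_num) (by norm_num) (by norm_num) (by norm_num) (by norm_num) (by norm_num) (by norm_num) (by norm_num) (by norm_num) (by norm_num) (by norm_num) (by norm_num)
    (exp_neg_leJ (r := 0.613) 7 (by norm_num) (by norm_num) (by norm_num) (by norm_num))
    (exp_neg_leJ (r := 0.613) 4 (by norm_num) (by norm_num) (by norm_num) (by norm_num))
    (exp_neg_leJ (r := 0.927) 9 (by norm_num) (by norm_num) (by norm_num) (by norm_num))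
    (exp_neg_leJ (r := 0.99) 14 (by norm_num) (by norm_num) (by norm_num) (by norm_num))
    (exp_neg_leJ (r := 0.159) 6 (by norm_num) (by norm_num) (by norm_num) (by norm_num))
    (exp_neg_leJ (r := 0.99) 14 (by norm_num) (by norm_num) (by norm_num) (by norm_num))
    (exp_neg_leJ (r := 0.99) 14 (by norm_num) (by norm_num) (by norm_num) (by norm_num))
    (exp_neg_leJ (r := 0.99) 14 (by norm_num) (by norm_num) (by norm_num) (by norm_num))
    (by norm_num)) (by norm_num) hN hβ.le (by norm_num)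

private theorem T3_03_d0_2_b0_2 {β x y : ℝ} (hβ : 0 < β) (hN : β * 27.027 ≤ 1) (hx1 : 0.2861 ≤ x) (hx2 : x ≤ 0.4791)
    (hy1 : -0.407 ≤ y) (hy2 : y ≤ -0.259) : ‖HH β (x + y * I) - 1‖ ≤ 0.145 := by
  refine le_epsJ (C := 2.0148) (N0 := 27.027) (J_boxp 0.2861 0.4791 0.407 0 (-0.259) 0.6225 0.6287 0.8824 1.9126 0.3748 5.1988 27.027 1.01 4.207 1.588 0.8601 0.3112 0.2064 0.4637 2.5093 0.2716 0.8961 1.0365 3.5753 0.0002227 0.003782 0.000003611 0.0000003101 0.0006491 0.0000003101 0.0000003101 0.0000003101 2.0148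
    hβ hN hx1 hx2 hy1 hy2 (by norm_num) (by norm_num) (by linarith) (by norm_num) (by norm_num) (by norm_num) (by norm_num) (by norm_num) (by norm_num) (by norm_num) (by norm_num) (by norm_num) (by norm_num) (by norm_num) (by norm_num) (by norm_num) (by norm_num) (by norm_num) (by norm_num) (by norm_num) (by norm_num) (by norm_num) (by norm_num) (by norm_num)
    (cube_sqrt_geJ (s := 0.8144) (by norm_num) (by norm_num) (by norm_num) (by norm_num))
    (cube_sqrt_geJ (s := 0.9361) (by norm_num) (by norm_num) (by norm_num) (by norm_num))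
    (by norm_num) (by norm_num) (by norm_num) (by norm_num) (by norm_num) (by norm_num) (by norm_num) (by norm_num) (by norm_num) (by norm_num) (by norm_num) (by norm_num) (by norm_num) (by norm_num) (by norm_num) (by norm_num) (by norm_num) (by norm_num)
    (exp_neg_leJ (r := 0.41) 8 (by norm_num) (by norm_num) (by norm_num) (by norm_num))
    (exp_neg_leJ (r := 0.578) 5 (by norm_num) (by norm_num) (by norm_num) (by norm_num))
    (exp_neg_leJ (r := 0.532) 12 (by norm_num) (by norm_num) (by norm_num) (by norm_num))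
    (exp_neg_leJ (r := 0.99) 14 (by norm_num) (by norm_num) (by norm_num) (by norm_num))
    (exp_neg_leJ (r := 0.34) 7 (by norm_num) (by norm_num) (by norm_num) (by norm_num))
    (exp_neg_leJ (r := 0.99) 14 (by norm_num) (by norm_num) (by norm_num) (by norm_num))
    (exp_neg_leJ (r := 0.99) 14 (by norm_num) (by norm_num) (by norm_num) (by norm_num))
    (exp_neg_leJ (r := 0.99) 14 (by norm_num) (by norm_num) (by norm_num) (by norm_num))
    (by norm_num)) (by norm_num) hN hβ.le (by norm_num)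

private theorem T3_03_d0_2_c0 {κ t β : ℝ} (h : DomR κ t) (hβ : 0 < β) (hk1 : 0.36 ≤ κ) (hk2 : κ ≤ 0.37)
    (ht1 : -0.8674 ≤ t + κ) (ht2 : t + κ ≤ -0.71239) (hR0 : β * 10 ≤ κ) (hR : β * (1 * (1 + κ ^ 2)) ≤ κ) :
    ∀ s : ℂ, ‖s - sg κ t‖ ≤ 0.05 → ‖HH β s - 1‖ ≤ 0.145 := by
  have hN : β * 27.027 ≤ 1 := bNR hβ h.1 hk2 hR0 (by norm_num)
  have hy1 : -0.437 ≤ sy κ t := syL_ang2 h 0.36 0.37 0.8674 0.867 0.6471 0.7625 0.437 1.54805 0.64597 hk1 hk2 (by linarith) (by norm_num) (by norm_num) (by norm_num) (by norm_num)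
    (cos_ge_num (by norm_num) (by norm_num)) (sin_le_num (by norm_num) (by norm_num))
    (expn_ge (by norm_num) (by norm_num)) (expm_ge (by norm_num) (by norm_num) (by norm_num) (by norm_num)) (by norm_num) (by norm_num) (by norm_num)
    (by norm_num) (by norm_num) (by norm_num)
  have hy2 : sy κ t ≤ -0.309 := syL_le h 0.36 0.37 0.71239 0.309 0.73418 0.73419 0.61313 0.63018 hk1 hk2 (by linarith) (by norm_num) (by norm_num) (by norm_num)
    (expm_ge (by norm_num) (by norm_num) (by norm_num) (by norm_num)) (expm_le (by norm_num) (by norm_num) (by norm_num)) (by norm_num)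
    (by norm_num) (by norm_num) (by norm_num) (by norm_num) (by norm_num) (by norm_num)
  intro s hs
  have hs' : ‖s - ((sx κ t : ℂ) + (sy κ t : ℂ) * I)‖ ≤ 0.05 := hs
  obtain ⟨es, ⟨s1, s2⟩, ⟨s3, s4⟩⟩ := disc_split hs'
  rcases le_total (sy κ t) (-0.412) with f0 | g0
  · have hx1 : 0.3232 ≤ sx κ t := sx_lo h 0.36 (-0.412) 0.437 1.50983 0.3232 hk1 (by norm_num) f0 (abs_le.2 ⟨by linarith, by linarith⟩) (by rw [neg_neg]; exact expn_ge (by norm_num) (by norm_num)) (by norm_num) (by norm_num)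
    have hx2 : sx κ t ≤ 0.398 := sx_hi h 0.37 (-0.437) 0.412 1.54806 0.398 hk2 hy1 (by norm_num) (by rw [abs_of_nonpos (by linarith)]; linarith) (by rw [neg_neg]; exact expn_le (by norm_num) (by norm_num) (by norm_num)) (by norm_num) (by norm_num)
    rw [es]
    exact T3_03_d0_2_b0_0 hβ hN (by linarith) (by linarith) (by linarith) (by linarith)
  rcases le_total (sy κ t) (-0.357) with f1 | g1
  · have hx1 : 0.308 ≤ sx κ t := sx_lo h 0.36 (-0.357) 0.412 1.42903 0.308 hk1 (by norm_num) f1 (abs_le.2 ⟨by linarith, by linarith⟩) (by rw [neg_neg]; exact expn_ge (by norm_num) (by norm_num)) (by norm_num) (by norm_num)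
    have hx2 : sx κ t ≤ 0.4297 := sx_hi h 0.37 (-0.412) 0.357 1.50984 0.4297 hk2 g0 (by norm_num) (by rw [abs_of_nonpos (by linarith)]; linarith) (by rw [neg_neg]; exact expn_le (by norm_num) (by norm_num) (by norm_num)) (by norm_num) (by norm_num)
    rw [es]
    exact T3_03_d0_2_b0_1 hβ hN (by linarith) (by linarith) (by linarith) (by linarith)
  have hx1 : 0.3361 ≤ sx κ t := sx_lo h 0.36 (-0.309) 0.357 1.36206 0.3361 hk1 (by norm_num) hy2 (abs_le.2 ⟨by linarith, by linarith⟩) (by rw [neg_neg]; exact expn_ge (by norm_num) (by norm_num)) (by norm_num) (by norm_num)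
  have hx2 : sx κ t ≤ 0.4291 := sx_hi h 0.37 (-0.357) 0.309 1.42904 0.4291 hk2 g1 (by norm_num) (by rw [abs_of_nonpos (by linarith)]; linarith) (by rw [neg_neg]; exact expn_le (by norm_num) (by norm_num) (by norm_num)) (by norm_num) (by norm_num)
  rw [es]
  exact T3_03_d0_2_b0_2 hβ hN (by linarith) (by linarith) (by linarith) (by linarith)

private theorem T3_03_d0_2_b1_0 {β x y : ℝ} (hβ : 0 < β) (hN : β * 26.315 ≤ 1) (hx1 : 0.3064 ≤ x) (hx2 : x ≤ 0.4516)
    (hy1 : -0.502 ≤ y) (hy2 : y ≤ -0.392) : ‖HH β (x + y * I) - 1‖ ≤ 0.145 := by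
  refine le_epsJ (C := 3.6469) (N0 := 26.315) (J_boxp 0.3064 0.4516 0.502 0 (-0.392) 0.5693 0.6753 0.7574 2.0261 0.3472 5.1299 26.315 1.1862 5.82 1.733 0.783 0.2846 0.172 0.3207 2.207 0.2296 0.9242 0.8189 3.4892 0.0005593 0.01083 0.0002163 0.0000003101 0.00238 0.0000003101 0.0000003101 0.0000003101 3.6469
    hβ hN hx1 hx2 hy1 hy2 (by norm_num) (by norm_num) (by linarith) (by norm_num) (by norm_num) (by norm_num) (by norm_num) (by norm_num) (by norm_num) (by norm_num) (by norm_num) (by norm_num) (by norm_num) (by norm_num) (by norm_num) (by norm_num) (by norm_num) (by norm_num) (by norm_num) (by norm_num) (by norm_num) (by norm_num) (by norm_num) (by norm_num)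
    (cube_sqrt_geJ (s := 0.7775) (by norm_num) (by norm_num) (by norm_num) (by norm_num))
    (cube_sqrt_geJ (s := 0.9245) (by norm_num) (by norm_num) (by norm_num) (by norm_num))
    (by norm_num) (by norm_num) (by norm_num) (by norm_num) (by norm_num) (by norm_num) (by norm_num) (by norm_num) (by norm_num) (by norm_num) (by norm_num) (by norm_num) (by norm_num) (by norm_num) (by norm_num) (by norm_num) (by norm_num) (by norm_num)
    (exp_neg_leJ (r := 0.489) 7 (by norm_num) (by norm_num) (by norm_num) (by norm_num))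
    (exp_neg_leJ (r := 0.526) 4 (by norm_num) (by norm_num) (by norm_num) (by norm_num))
    (exp_neg_leJ (r := 0.439) 8 (by norm_num) (by norm_num) (by norm_num) (by norm_num))
    (exp_neg_leJ (r := 0.99) 14 (by norm_num) (by norm_num) (by norm_num) (by norm_num))
    (exp_neg_leJ (r := 0.041) 6 (by norm_num) (by norm_num) (by norm_num) (by norm_num))
    (exp_neg_leJ (r := 0.99) 14 (by norm_num) (by norm_num) (by norm_num) (by norm_num))
    (exp_neg_leJ (r := 0.99) 14 (by norm_num) (by norm_num) (by norm_num) (by norm_num))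
    (exp_neg_leJ (r := 0.99) 14 (by norm_num) (by norm_num) (by norm_num) (by norm_num))
    (by norm_num)) (by norm_num) hN hβ.le (by norm_num)

private theorem T3_03_d0_2_b1_1 {β x y : ℝ} (hβ : 0 < β) (hN : β * 26.315 ≤ 1) (hx1 : 0.2961 ≤ x) (hx2 : x ≤ 0.4691)
    (hy1 : -0.492 ≤ y) (hy2 : y ≤ -0.367) : ‖HH β (x + y * I) - 1‖ ≤ 0.145 := by
  refine le_epsJ (C := 3.8033) (N0 := 26.315) (J_boxp 0.2961 0.4691 0.492 0 (-0.367) 0.5692 0.6798 0.7879 2.067 0.3542 5.1299 26.315 1.1944 5.913 1.74 0.7855 0.2845 0.1712 0.333 2.2317 0.23 0.9099 0.8254 3.4563 0.000561 0.01106 0.0001568 0.0000003101 0.002354 0.0000003101 0.0000003101 0.0000003101 3.8033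
    hβ hN hx1 hx2 hy1 hy2 (by norm_num) (by norm_num) (by linarith) (by norm_num) (by norm_num) (by norm_num) (by norm_num) (by norm_num) (by norm_num) (by norm_num) (by norm_num) (by norm_num) (by norm_num) (by norm_num) (by norm_num) (by norm_num) (by norm_num) (by norm_num) (by norm_num) (by norm_num) (by norm_num) (by norm_num) (by norm_num) (by norm_num)
    (cube_sqrt_geJ (s := 0.7758) (by norm_num) (by norm_num) (by norm_num) (by norm_num))
    (cube_sqrt_geJ (s := 0.9239) (by norm_num) (by norm_num) (by norm_num) (by norm_num))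
    (by norm_num) (by norm_num) (by norm_num) (by norm_num) (by norm_num) (by norm_num) (by norm_num) (by norm_num) (by norm_num) (by norm_num) (by norm_num) (by norm_num) (by norm_num) (by norm_num) (by norm_num) (by norm_num) (by norm_num) (by norm_num)
    (exp_neg_leJ (r := 0.486) 7 (by norm_num) (by norm_num) (by norm_num) (by norm_num))
    (exp_neg_leJ (r := 0.505) 4 (by norm_num) (by norm_num) (by norm_num) (by norm_num))
    (exp_neg_leJ (r := 0.762) 8 (by norm_num) (by norm_num) (by norm_num) (by norm_num))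
    (exp_neg_leJ (r := 0.99) 14 (by norm_num) (by norm_num) (by norm_num) (by norm_num))
    (exp_neg_leJ (r := 0.052) 6 (by norm_num) (by norm_num) (by norm_num) (by norm_num))
    (exp_neg_leJ (r := 0.99) 14 (by norm_num) (by norm_num) (by norm_num) (by norm_num))
    (exp_neg_leJ (r := 0.99) 14 (by norm_num) (by norm_num) (by norm_num) (by norm_num))
    (exp_neg_leJ (r := 0.99) 14 (by norm_num) (by norm_num) (by norm_num) (by norm_num))
    (by norm_num)) (by norm_num) hN hβ.le (by norm_num)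

private theorem T3_03_d0_2_b1_2 {β x y : ℝ} (hβ : 0 < β) (hN : β * 26.315 ≤ 1) (hx1 : 0.2793 ≤ x) (hx2 : x ≤ 0.4989)
    (hy1 : -0.467 ≤ y) (hy2 : y ≤ -0.312) : ‖HH β (x + y * I) - 1‖ ≤ 0.145 := by
  refine le_epsJ (C := 3.8055) (N0 := 26.315) (J_boxp 0.2793 0.4989 0.467 0 (-0.312) 0.5751 0.6834 0.8499 2.1139 0.3678 5.1299 26.315 1.1884 5.845 1.735 0.7971 0.2875 0.1736 0.3667 2.3001 0.2355 0.8867 0.8598 3.413 0.0005185 0.01039 0.00006453 0.0000003101 0.002036 0.0000003101 0.0000003101 0.0000003101 3.8055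
    hβ hN hx1 hx2 hy1 hy2 (by norm_num) (by norm_num) (by linarith) (by norm_num) (by norm_num) (by norm_num) (by norm_num) (by norm_num) (by norm_num) (by norm_num) (by norm_num) (by norm_num) (by norm_num) (by norm_num) (by norm_num) (by norm_num) (by norm_num) (by norm_num) (by norm_num) (by norm_num) (by norm_num) (by norm_num) (by norm_num) (by norm_num)
    (cube_sqrt_geJ (s := 0.777) (by norm_num) (by norm_num) (by norm_num) (by norm_num))
    (cube_sqrt_geJ (s := 0.9243) (by norm_num) (by norm_num) (by norm_num) (by norm_num))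
    (by norm_num) (by norm_num) (by norm_num) (by norm_num) (by norm_num) (by norm_num) (by norm_num) (by norm_num) (by norm_num) (by norm_num) (by norm_num) (by norm_num) (by norm_num) (by norm_num) (by norm_num) (by norm_num) (by norm_num) (by norm_num)
    (exp_neg_leJ (r := 0.565) 7 (by norm_num) (by norm_num) (by norm_num) (by norm_num))
    (exp_neg_leJ (r := 0.568) 4 (by norm_num) (by norm_num) (by norm_num) (by norm_num))
    (exp_neg_leJ (r := 0.649) 9 (by norm_num) (by norm_num) (by norm_num) (by norm_num))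
    (exp_neg_leJ (r := 0.99) 14 (by norm_num) (by norm_num) (by norm_num) (by norm_num))
    (exp_neg_leJ (r := 0.197) 6 (by norm_num) (by norm_num) (by norm_num) (by norm_num))
    (exp_neg_leJ (r := 0.99) 14 (by norm_num) (by norm_num) (by norm_num) (by norm_num))
    (exp_neg_leJ (r := 0.99) 14 (by norm_num) (by norm_num) (by norm_num) (by norm_num))
    (exp_neg_leJ (r := 0.99) 14 (by norm_num) (by norm_num) (by norm_num) (by norm_num))
    (by norm_num)) (by norm_num) hN hβ.le (by norm_num)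

private theorem T3_03_d0_2_b1_3 {β x y : ℝ} (hβ : 0 < β) (hN : β * 26.315 ≤ 1) (hx1 : 0.3071 ≤ x) (hx2 : x ≤ 0.4936)
    (hy1 : -0.412 ≤ y) (hy2 : y ≤ -0.268) : ‖HH β (x + y * I) - 1‖ ≤ 0.145 := by
  refine le_epsJ (C := 1.9929) (N0 := 26.315) (J_boxp 0.3071 0.4936 0.412 0 (-0.268) 0.6337 0.643 0.8829 1.8627 0.3749 5.1299 26.315 1.0147 4.243 1.591 0.8499 0.3168 0.2096 0.463 2.4852 0.2791 0.9252 1.0649 3.5784 0.0002398 0.004027 0.000005117 0.0000003101 0.0006465 0.0000003101 0.0000003101 0.0000003101 1.9929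
    hβ hN hx1 hx2 hy1 hy2 (by norm_num) (by norm_num) (by linarith) (by norm_num) (by norm_num) (by norm_num) (by norm_num) (by norm_num) (by norm_num) (by norm_num) (by norm_num) (by norm_num) (by norm_num) (by norm_num) (by norm_num) (by norm_num) (by norm_num) (by norm_num) (by norm_num) (by norm_num) (by norm_num) (by norm_num) (by norm_num) (by norm_num)
    (cube_sqrt_geJ (s := 0.8134) (by norm_num) (by norm_num) (by norm_num) (by norm_num))
    (cube_sqrt_geJ (s := 0.9358) (by norm_num) (by norm_num) (by norm_num) (by norm_num))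
    (by norm_num) (by norm_num) (by norm_num) (by norm_num) (by norm_num) (by norm_num) (by norm_num) (by norm_num) (by norm_num) (by norm_num) (by norm_num) (by norm_num) (by norm_num) (by norm_num) (by norm_num) (by norm_num) (by norm_num) (by norm_num)
    (exp_neg_leJ (r := 0.336) 8 (by norm_num) (by norm_num) (by norm_num) (by norm_num))
    (exp_neg_leJ (r := 0.515) 5 (by norm_num) (by norm_num) (by norm_num) (by norm_num))
    (exp_neg_leJ (r := 0.183) 12 (by norm_num) (by norm_num) (by norm_num) (by norm_num))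
    (exp_neg_leJ (r := 0.99) 14 (by norm_num) (by norm_num) (by norm_num) (by norm_num))
    (exp_neg_leJ (r := 0.344) 7 (by norm_num) (by norm_num) (by norm_num) (by norm_num))
    (exp_neg_leJ (r := 0.99) 14 (by norm_num) (by norm_num) (by norm_num) (by norm_num))
    (exp_neg_leJ (r := 0.99) 14 (by norm_num) (by norm_num) (by norm_num) (by norm_num))
    (exp_neg_leJ (r := 0.99) 14 (by norm_num) (by norm_num) (by norm_num) (by norm_num))
    (by norm_num)) (by norm_num) hN hβ.le (by norm_num)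

private theorem T3_03_d0_2_c1 {κ t β : ℝ} (h : DomR κ t) (hβ : 0 < β) (hk1 : 0.37 ≤ κ) (hk2 : κ ≤ 0.38)
    (ht1 : -0.8674 ≤ t + κ) (ht2 : t + κ ≤ -0.71239) (hR0 : β * 10 ≤ κ) (hR : β * (1 * (1 + κ ^ 2)) ≤ κ) :
    ∀ s : ℂ, ‖s - sg κ t‖ ≤ 0.05 → ‖HH β s - 1‖ ≤ 0.145 := by
  have hN : β * 26.315 ≤ 1 := bNR hβ h.1 hk2 hR0 (by norm_num)
  have hy1 : -0.452 ≤ sy κ t := syL_ang2 h 0.37 0.38 0.8674 0.858 0.6539 0.7567 0.452 1.57145 0.63635 hk1 hk2 (by linarith) (by norm_num) (by norm_num) (by norm_num) (by norm_num)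
    (cos_ge_num (by norm_num) (by norm_num)) (sin_le_num (by norm_num) (by norm_num))
    (expn_ge (by norm_num) (by norm_num)) (expm_ge (by norm_num) (by norm_num) (by norm_num) (by norm_num)) (by norm_num) (by norm_num) (by norm_num)
    (by norm_num) (by norm_num) (by norm_num)
  have hy2 : sy κ t ≤ -0.318 := syL_le h 0.37 0.38 0.71239 0.318 0.7276 0.72761 0.60888 0.62536 hk1 hk2 (by linarith) (by norm_num) (by norm_num) (by norm_num)
    (expm_ge (by norm_num) (by norm_num) (by norm_num) (by norm_num)) (expm_le (by norm_num) (by norm_num) (by norm_num)) (by norm_num)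
    (by norm_num) (by norm_num) (by norm_num) (by norm_num) (by norm_num) (by norm_num)
  intro s hs
  have hs' : ‖s - ((sx κ t : ℂ) + (sy κ t : ℂ) * I)‖ ≤ 0.05 := hs
  obtain ⟨es, ⟨s1, s2⟩, ⟨s3, s4⟩⟩ := disc_split hs'
  rcases le_total (sy κ t) (-0.442) with f0 | g0
  · have hx1 : 0.3564 ≤ sx κ t := sx_lo h 0.37 (-0.442) 0.452 1.55581 0.3564 hk1 (by norm_num) f0 (abs_le.2 ⟨by linarith, by linarith⟩) (by rw [neg_neg]; exact expn_ge (by norm_num) (by norm_num)) (by norm_num) (by norm_num)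
    have hx2 : sx κ t ≤ 0.4016 := sx_hi h 0.38 (-0.452) 0.442 1.57146 0.4016 hk2 hy1 (by norm_num) (by rw [abs_of_nonpos (by linarith)]; linarith) (by rw [neg_neg]; exact expn_le (by norm_num) (by norm_num) (by norm_num)) (by norm_num) (by norm_num)
    rw [es]
    exact T3_03_d0_2_b1_0 hβ hN (by linarith) (by linarith) (by linarith) (by linarith)
  rcases le_total (sy κ t) (-0.417) with f1 | g1
  · have hx1 : 0.3461 ≤ sx κ t := sx_lo h 0.37 (-0.417) 0.442 1.5174 0.3461 hk1 (by norm_num) f1 (abs_le.2 ⟨by linarith, by linarith⟩) (by rw [neg_neg]; exact expn_ge (by norm_num) (by norm_num)) (by norm_num) (by norm_num)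
    have hx2 : sx κ t ≤ 0.4191 := sx_hi h 0.38 (-0.442) 0.417 1.55582 0.4191 hk2 g0 (by norm_num) (by rw [abs_of_nonpos (by linarith)]; linarith) (by rw [neg_neg]; exact expn_le (by norm_num) (by norm_num) (by norm_num)) (by norm_num) (by norm_num)
    rw [es]
    exact T3_03_d0_2_b1_1 hβ hN (by linarith) (by linarith) (by linarith) (by linarith)
  rcases le_total (sy κ t) (-0.362) with f2 | g2
  · have hx1 : 0.3293 ≤ sx κ t := sx_lo h 0.37 (-0.362) 0.417 1.43619 0.3293 hk1 (by norm_num) f2 (abs_le.2 ⟨by linarith, by linarith⟩) (by rw [neg_neg]; exact expn_ge (by norm_num) (by norm_num)) (by norm_num) (by norm_num)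
    have hx2 : sx κ t ≤ 0.4489 := sx_hi h 0.38 (-0.417) 0.362 1.51741 0.4489 hk2 g1 (by norm_num) (by rw [abs_of_nonpos (by linarith)]; linarith) (by rw [neg_neg]; exact expn_le (by norm_num) (by norm_num) (by norm_num)) (by norm_num) (by norm_num)
    rw [es]
    exact T3_03_d0_2_b1_2 hβ hN (by linarith) (by linarith) (by linarith) (by linarith)
  have hx1 : 0.3571 ≤ sx κ t := sx_lo h 0.37 (-0.318) 0.362 1.37437 0.3571 hk1 (by norm_num) hy2 (abs_le.2 ⟨by linarith, by linarith⟩) (by rw [neg_neg]; exact expn_ge (by norm_num) (by norm_num)) (by norm_num) (by norm_num)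
  have hx2 : sx κ t ≤ 0.4436 := sx_hi h 0.38 (-0.362) 0.318 1.4362 0.4436 hk2 g2 (by norm_num) (by rw [abs_of_nonpos (by linarith)]; linarith) (by rw [neg_neg]; exact expn_le (by norm_num) (by norm_num) (by norm_num)) (by norm_num) (by norm_num)
  rw [es]
  exact T3_03_d0_2_b1_3 hβ hN (by linarith) (by linarith) (by linarith) (by linarith)

theorem T3_03_d0_2 {κ t β : ℝ} (h : DomR κ t) (hβ : 0 < β) (hk1 : 0.36 ≤ κ) (hk2 : κ ≤ 0.38)
    (ht1 : -0.8674 ≤ t + κ) (ht2 : t + κ ≤ -0.71239) (hR0 : β * 10 ≤ κ) (hR : β * (1 * (1 + κ ^ 2)) ≤ κ) :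
    ∀ s : ℂ, ‖s - sg κ t‖ ≤ 0.05 → ‖HH β s - 1‖ ≤ 0.145 := by
  rcases le_total κ 0.37 with f0 | g0
  · exact T3_03_d0_2_c0 h hβ hk1 f0 ht1 ht2 hR0 hR
  exact T3_03_d0_2_c1 h hβ g0 hk2 ht1 ht2 hR0 hR

private theorem T3_03_d1_2_b0_0 {β x y : ℝ} (hβ : 0 < β) (hN : β * 26.315 ≤ 1) (hn : ‖(x + y * I : ℂ)‖ ≤ 0.363) : ‖HH β (x + y * I) - 1‖ ≤ 0.04 := by
  refine le_epsJ (C := 0.7922) (N0 := 26.315) (J45_genN (N := 26.315) (r0 := 5.1299) (f := 2.4983) (n0 := 0.363) (a := 0.637) (wL := 1.713) (wR := 2.074)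
    (E1 := 0.009031) (E2 := 0.000001766) (E3 := 0.03) (E4 := 0.00002201) (E5 := 0.0000003101) hβ (by norm_num) hN
    (by norm_num) (by norm_num) (by norm_num) hn (by norm_num) (by norm_num) (by norm_num)
    (cube_sqrt_geJ (s := 0.926) (by norm_num) (by norm_num) (by norm_num) (by norm_num))
    (cube_sqrt_geJ (s := 0.901) (by norm_num) (by norm_num) (by norm_num) (by norm_num))
    (exp_neg_leJ (r := 0.708) 4 (by norm_num) (by norm_num) (by norm_num) (by norm_num))
    (exp_neg_leJ (r := 0.247) 13 (by norm_num) (by norm_num) (by norm_num) (by norm_num))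
    (exp_neg_leJ (r := 0.507) 3 (by norm_num) (by norm_num) (by norm_num) (by norm_num))
    (exp_neg_leJ (r := 0.725) 10 (by norm_num) (by norm_num) (by norm_num) (by norm_num))
    (exp_neg_leJ (r := 0.99) 14 (by norm_num) (by norm_num) (by norm_num) (by norm_num))
    (by norm_num)) (by norm_num) hN hβ.le (by norm_num)

private theorem T3_03_d1_2_c0 {κ t β : ℝ} (h : DomR κ t) (hβ : 0 < β) (hk1 : 0.36 ≤ κ) (hk2 : κ ≤ 0.38)
    (ht1 : 1.227 ≤ t + κ) (ht2 : t + κ ≤ 1.382) (hR0 : β * 10 ≤ κ) (hR : β * (1 * (1 + κ ^ 2)) ≤ κ) :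
    ∀ s : ℂ, ‖s - sg κ t‖ ≤ 0.06 → ‖HH β s - 1‖ ≤ 0.04 := by
  have hN : β * 26.315 ≤ 1 := bNR hβ h.1 hk2 hR0 (by norm_num)
  have hy1 : 0.229 ≤ sy κ t := syR_ge h 0.36 0.38 1.227 0.229 1.25734 1.25735 0.75771 0.79982 hk1 hk2 (by linarith) (by norm_num) (by norm_num)
    (expn_ge (by norm_num) (by norm_num)) (expn_le (by norm_num) (by norm_num) (by norm_num)) (by norm_num)
    (by norm_num) (by norm_num) (by norm_num) (by norm_num) (by norm_num) (by norm_num)
  have hy2 : sy κ t ≤ 0.265 := syR_ang2 h 0.36 0.38 1.382 1.139 0.4215 0.9088 0.265 0.76721 1.30343 hk1 hk2 (by linarith) (by norm_num) (by norm_num) (by norm_num)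
    (cos_le_num (by norm_num)) (sin_le_num (by norm_num) (by norm_num)) (expm_le (by norm_num) (by norm_num) (by norm_num))
    (expn_ge (by norm_num) (by norm_num)) (by norm_num) (by norm_num) (by norm_num) (by norm_num) (by norm_num)
  intro s hs
  have hs' : ‖s - ((sx κ t : ℂ) + (sy κ t : ℂ) * I)‖ ≤ 0.06 := hs
  obtain ⟨es, ⟨s1, s2⟩, ⟨s3, s4⟩⟩ := disc_split hs'
  rw [es]
  refine T3_03_d1_2_b0_0 hβ hN ?_
  rw [← es]
  exact disc_norm hs' (norm_sg_le h 0.38 0.229 0.79533 (0.363 - 0.06) hk2 hy1 (expm_le (by norm_num) (by norm_num) (by norm_num)) (by norm_num))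

theorem T3_03_d1_2 {κ t β : ℝ} (h : DomR κ t) (hβ : 0 < β) (hk1 : 0.36 ≤ κ) (hk2 : κ ≤ 0.38)
    (ht1 : 1.227 ≤ t + κ) (ht2 : t + κ ≤ 1.382) (hR0 : β * 10 ≤ κ) (hR : β * (1 * (1 + κ ^ 2)) ≤ κ) :
    ∀ s : ℂ, ‖s - sg κ t‖ ≤ 0.06 → ‖HH β s - 1‖ ≤ 0.04 := by
  exact T3_03_d1_2_c0 h hβ hk1 hk2 ht1 ht2 hR0 hR

end Sok
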