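import Pool.Agent.Lib.MP_816dec_an.R1b3D
import Pool.Agent.Lib.MP_816dec_an.R1b3J03

/-!
MP_816dec_an (A3, row R1, b = 3): the cell `0.36 ≤ κ ≤ 0.38`.
-/

set_option autoImplicit false
set_option maxHeartbeats 4000000
set_option linter.unusedVariables false

open Complex Set

namespace Sok

namespace B3_03

private theorem yL {κ t : ℝ} (h : DomR κ t) (hk1 : 0.36 ≤ κ) (hk2 : κ ≤ 0.38) (ht1 : 0 ≤ t + κ) (ht2 : t + κ ≤ 1.127) :
    0 ≤ sy κ t ∧ sy κ t ≤ 0.241 := by
  have hy1 : 0 ≤ sy κ t := sy_nonneg h (by linarith)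
  have hy2 : sy κ t ≤ 0.241 := syR_ang2 h 0.36 0.38 1.127 0.938 0.5924 0.8066 0.241 0.78585 1.27252 hk1 hk2 (by linarith) (by norm_num) (by norm_num) (by norm_num)
    (cos_le_num (by norm_num)) (sin_le_num (by norm_num) (by norm_num)) (expm_le (by norm_num) (by norm_num) (by norm_num))
    (expn_ge (by norm_num) (by norm_num)) (by norm_num) (by norm_num) (by norm_num) (by norm_num) (by norm_num)
  exact ⟨hy1, hy2⟩

theorem left {β r h t κ : ℝ} (hh : h = 2 * Real.pi / (3 : ℕ)) (hβ : 0 < β) (hr : 10 ≤ r) (hκ : κ = β * r)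
    (hk1 : 0.36 ≤ κ) (hk2 : κ ≤ 0.38) (hT1 : 0 ≤ t + κ) (hT2 : t + κ ≤ 1.127) :
    ‖Xf β r h t (-1)‖ < |‖Xf β r h t 1‖ - ‖Xf β r h t 0‖| := by
  obtain ⟨q1, q2, q3⟩ := b3_h hh
  have hR0 := b3_R0 hβ hr hκ
  have hR := b3_R hβ hr hκ (by linarith)
  have hD1 : DomR κ t := b3_dom (by linarith) (by linarith) (Or.inr (by linarith))
  have hy := yL hD1 hk1 hk2 (by linarith) (by linarith)
  have hY : 0.8797 * Real.exp (r * 0.57911) ≤ ‖Xf β r h t 1‖ :=
    b3_lo hβ hr hκ (k := 1) (t' := t) (by push_cast; ring) hD1 0.015 1.5712 0.8797 0.57911 (by norm_num)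
      (T3_03_p1 hD1 hβ hk1 hk2 (by linarith) (by linarith) hR0 hR)
      (v5_Dup hD1 0.38 0 0.241 1 0.78585 1.5712 hk2 hy.1 hy.2 (ex_up 0 (by norm_num) (by norm_num) (by norm_num) (by norm_num)) (ex_um 0.241 (by norm_num) (by norm_num) (by norm_num) (by norm_num)) (by norm_num) (by norm_num) (by norm_num)) (by norm_num) (by norm_num)
      (b3_Vlo hD1 0.36 0.38 0 1.127 0.47 (-0.75502) 0.9362 0.59283 0.52285 0.57911 hk1 hk2 (by linarith) (by linarith) (by norm_num) (ex_lm 0.75502 (by norm_num) (by norm_num) (by norm_num) (by norm_num) (by norm_num)) (by norm_num) (by norm_num) (by norm_num) (by norm_num) (by norm_num) (by norm_num) (by norm_num) (by norm_num) (ex_um 0.52285 (by norm_num) (by norm_num) (by norm_num) (by norm_num)) (by norm_num))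
  have h0 : ‖Xf β r h t 0‖ ≤ 0.9086 * ‖Xf β r h t 1‖ :=
    b3_cmp 0.2995 0.12058 0.07902 0.25405 0.698652 0.209852 0.9086 hr (b3_HU0 1.13 0.36 0.38 (-2.0944) (-0.96739) 1.55168 1.50201 1.53634 0.66578 0.6509 1.502 2.0521 0.07777 1.27536 2.2376 0.24341 0.32506 0.000001 2.3362 0.45853 hβ hr hκ (by norm_num) hk1 hk2 (by norm_num) (by linarith) (by linarith) (by norm_num) (by norm_num) (ex_up 0.4068 (by norm_num) (by norm_num) (by norm_num) (by norm_num)) (ex_up 0.4294 (by norm_num) (by norm_num) (by norm_num) (by norm_num)) (ex_um 0.4068 (by norm_num) (by norm_num) (by norm_num) (by norm_num)) (ex_um 0.4294 (by norm_num) (by norm_num) (by norm_num) (by norm_num)) (by norm_num) (by norm_num) (ex_lp 0.4068 (by norm_num) (by norm_num) (by norm_num)) (by norm_num) (by norm_num) (by norm_num) (by norm_num) (by norm_num) (by norm_num) (by norm_num) (by norm_num) (by norm_num) (by norm_num) (by norm_num) (by norm_num) (by norm_num) (by norm_num) (v5_hump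 6.0264 26.315 5.1299 0.0000003148 0.000001 hβ hr hκ hk1 hk2 (by norm_num) (tb := (-0.96739)) (by linarith) (by norm_num) (by norm_num) (by norm_num) (by norm_num) (by norm_num) (by norm_num) (by norm_num) (ex_un 14 0.99 (by norm_num) (by norm_num) (by norm_num) (by norm_num)) (by norm_num)) (by norm_num) (by norm_num)) hY (by norm_num) (by norm_num) (by norm_num) (by norm_num) (by norm_num) (ex_un 1 0.2058 (by norm_num) (by norm_num) (by norm_num) (by norm_num)) (by norm_num) (by norm_num) (by norm_num) (ex_un 2 0.5405 (by norm_num) (by norm_num) (by norm_num) (by norm_num)) (by norm_num) (by norm_num)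
  have h2 : ‖Xf β r h t (-1)‖ ≤ 0.0071 * ‖Xf β r h t 1‖ := by
    exact b3_cmp 1 0 0.005038 0.52911 0 0.007077 0.0071 hr ((b3_Xm hh).trans_le (b3_U1 0.36 0.38 2.09439 3.2214 0.14359 0.07777 1.27536 0.1425 0.16899 1.4273 0.000001 1.2356 hβ hr hκ (by norm_num) hk1 hk2 (by linarith) (by linarith) (by norm_num) (by norm_num) (by norm_num) (by norm_num) (by norm_num) (by norm_num) (by norm_num) (by norm_num) (by norm_num) (by norm_num) (by norm_num) (by norm_num) (by norm_num) (ex_un 1 0.425 (by norm_num) (by norm_num) (by norm_num) (by norm_num)) (v5_hump 1.8376 26.315 5.1299 0.0000003148 0.000001 hβ hr hκ hk1 hk2 (by norm_num) (tb := 3.2214) (by linarith) (by norm_num) (by norm_num) (by norm_num) (by norm_num) (by norm_num) (by norm_num) (by norm_num) (ex_un 14 0.99 (by norm_num) (by norm_num) (by norm_num) (by norm_num)) (by norm_num)) (by norm_num))) hY (by norm_num) (by norm_num) (by norm_num) (by norm_num) (by norm_num) (by norm_num) (by norm_num)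 (by norm_num) (by norm_num) (ex_un 5 0.2911 (by norm_num) (by norm_num) (by norm_num) (by norm_num)) (by norm_num) (by norm_num)
  exact b3_out1 0.9086 0.0071 hY (by norm_num) h0 h2 (by norm_num)

private theorem yR0 {κ t : ℝ} (h : DomR κ t) (hk1 : 0.36 ≤ κ) (hk2 : κ ≤ 0.38) (ht1 : -0.7124 ≤ t + κ) (ht2 : t + κ ≤ 0.0001) :
    (-0.335) ≤ sy κ t ∧ sy κ t ≤ 0.005 := by
  have hy1 : -0.335 ≤ sy κ t := syL_ang2 h 0.36 0.38 0.7124 0.682 0.7763 0.6304 0.335 1.39794 0.71533 hk1 hk2 (by linarith) (by norm_num) (by norm_num) (by norm_num) (by norm_num)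
    (cos_ge_num (by norm_num) (by norm_num)) (sin_le_num (by norm_num) (by norm_num))
    (expn_ge (by norm_num) (by norm_num)) (expm_ge (by norm_num) (by norm_num) (by norm_num) (by norm_num)) (by norm_num) (by norm_num) (by norm_num)
    (by norm_num) (by norm_num) (by norm_num)
  have hy2 : sy κ t ≤ 0.005 := syR_le h 0.36 0.38 0.0001 0.005 1.00501 0.013 0.01322 0.01396 hk1 hk2 (by linarith) (by norm_num) (by norm_num)
    (expn_ge (by norm_num) (by norm_num)) (by norm_num) (by norm_num) (Or.inr ((mul_le_mul_of_nonneg_left (expn_le (E := 1.00502) (by norm_num) (by norm_num) (by norm_num)) (by norm_num)).trans (by norm_num))) (by norm_num) (by norm_num) (by norm_num)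
  exact ⟨hy1, hy2⟩

theorem right0 {β r h t κ : ℝ} (hh : h = 2 * Real.pi / (3 : ℕ)) (hβ : 0 < β) (hr : 10 ≤ r) (hκ : κ = β * r)
    (hk1 : 0.36 ≤ κ) (hk2 : κ ≤ 0.38) (hT1 : 1.382 ≤ t + κ) (hT2 : t + κ ≤ h) :
    ‖Xf β r h t (-1)‖ < |‖Xf β r h t 1‖ - ‖Xf β r h t 0‖| := by
  obtain ⟨q1, q2, q3⟩ := b3_h hh
  have hR0 := b3_R0 hβ hr hκ
  have hR := b3_R hβ hr hκ (by linarith)
  have hD0 : DomR κ (t - h) := b3_dom (by linarith) (by linarith) (Or.inr (by linarith))
  have hy := yR0 hD0 hk1 hk2 (by linarith) (by linarith)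
  have hY : 0.9312 * Real.exp (r * 0.72217) ≤ ‖Xf β r h t 0‖ :=
    b3_lo hβ hr hκ (k := 0) (t' := t - h) (by push_cast; ring) hD0 0.035 1.153 0.9312 0.72217 (by norm_num)
      (T3_03_p0R hD0 hβ hk1 hk2 (by linarith) (by linarith) hR0 hR)
      (v5_Dup hD0 0.38 (-0.335) 0.005 1.39795 0.99502 1.153 hk2 hy.1 hy.2 (ex_up 0.335 (by norm_num) (by norm_num) (by norm_num) (by norm_num)) (ex_um 0.005 (by norm_num) (by norm_num) (by norm_num) (by norm_num)) (by norm_num) (by norm_num) (by norm_num)) (by norm_num) (by norm_num)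
      (b3_Vlo hD0 0.36 0.38 (-0.7124) 0.0001 1.05 0.0488 0.6944 0.76843 0.26341 0.72217 hk1 hk2 (by linarith) (by linarith) (by norm_num) (ex_lp 0.0488 (by norm_num) (by norm_num) (by norm_num)) (by norm_num) (by norm_num) (by norm_num) (by norm_num) (by norm_num) (by norm_num) (by norm_num) (by norm_num) (ex_um 0.26341 (by norm_num) (by norm_num) (by norm_num) (by norm_num)) (by norm_num))
  have h1 : ‖Xf β r h t 1‖ ≤ 0.1858 * ‖Xf β r h t 0‖ := by
    rcases le_total (t + κ) 1.73 with g0 | g0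
    · exact b3_cmp 0.05467 0.29211 0.0007307 0.72217 0.185651 0.000085 0.1858 hr (b3_X1.trans_le (b3_HF 0.63 0.36 0.38 1.382 1.73 1.30072 0.79709 0.7871 1.25458 1.27049 0.78709 2.9718 0.07777 2.5727 0.2007 0.07171 0.4913 0.000001 3.1622 0.108 0.43006 hβ hr hκ (by norm_num) hk1 hk2 (by norm_num) (by linarith) (by linarith) (by norm_num) (ex_um 0.2268 (by norm_num) (by norm_num) (by norm_num) (by norm_num)) (ex_um 0.2394 (by norm_num) (by norm_num) (by norm_num) (by norm_num)) (ex_up 0.2268 (by norm_num) (by norm_num) (by norm_num) (by norm_num)) (ex_up 0.2394 (by norm_num) (by norm_num) (by norm_num) (by norm_num)) (by norm_num) (by norm_num) (ex_lm 0.2394 (by norm_num) (by norm_num) (by norm_num) (by norm_num) (by norm_num)) (by norm_num) (by norm_num) (by norm_num) (by norm_num) (by norm_num) (by norm_num) (by norm_num) (by norm_num) (by norm_num) (by norm_num) (by norm_num) (by norm_num) (ex_un 0 0.7171 (by norm_num) (by norm_num) (by norm_num)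 (by norm_num)) (v5_hump 3.329 26.315 5.1299 0.0000003148 0.000001 hβ hr hκ hk1 hk2 (by norm_num) (tb := 1.73) (by linarith) (by norm_num) (by norm_num) (by norm_num) (by norm_num) (by norm_num) (by norm_num) (by norm_num) (ex_un 14 0.99 (by norm_num) (by norm_num) (by norm_num) (by norm_num)) (by norm_num)) (by norm_num) (by norm_num) (by norm_num))) hY (by norm_num) (by norm_num) (by norm_num) (by norm_num) (by norm_num) (ex_un 2 0.9211 (by norm_num) (by norm_num) (by norm_num) (by norm_num)) (by norm_num) (by norm_num) (by norm_num) (ex_un 7 0.2217 (by norm_num) (by norm_num) (by norm_num) (by norm_num)) (by norm_num) (by norm_num)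
    exact b3_cmp 1 0 0.01468 0.42217 0 0.079249 0.1858 hr (b3_w (b3_UD1 0.36 0.38 1.73 2.0944 0.25 0.66491 0.25 2.6208 5.027 0.3 hβ hr hκ (by norm_num) hk1 hk2 (by linarith) (by linarith) (by norm_num) (by norm_num) (by norm_num) (by norm_num) (by norm_num) (by norm_num) (by norm_num) (by norm_num) (by norm_num) (by norm_num) (by norm_num) (by norm_num) (by norm_num))) hY (by norm_num) (by norm_num) (by norm_num) (by norm_num) (by norm_num) (by norm_num) (by norm_num) (by norm_num) (by norm_num) (ex_un 4 0.2217 (by norm_num) (by norm_num) (by norm_num) (by norm_num)) (by norm_num) (by norm_num)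
  have h2 : ‖Xf β r h t (-1)‖ ≤ 0.0007 * ‖Xf β r h t 0‖ := by
    exact b3_cmp 1 0 0.001213 0.67217 0 0.00069 0.0007 hr ((b3_Xm hh).trans_le (b3_U1 0.36 0.38 3.47639 4.1888 1.52559 0.07777 1.27536 0.7729 0.00006 0.6873 0.000001 0.5295 hβ hr hκ (by norm_num) hk1 hk2 (by linarith) (by linarith) (by norm_num) (by norm_num) (by norm_num) (by norm_num) (by norm_num) (by norm_num) (by norm_num) (by norm_num) (by norm_num) (by norm_num) (by norm_num) (by norm_num) (by norm_num) (ex_un 7 0.729 (by norm_num) (by norm_num) (by norm_num) (by norm_num)) (v5_hump 0.8702 26.315 5.1299 0.0000003148 0.000001 hβ hr hκ hk1 hk2 (by norm_num) (tb := 4.1888) (by linarith) (by norm_num) (by norm_num) (by norm_num) (by norm_num) (by norm_num) (by norm_num) (by norm_num) (ex_un 14 0.99 (by norm_num) (by norm_num) (by norm_num) (by norm_num)) (by norm_num)) (by norm_num))) hY (by norm_num) (by norm_num) (by norm_num) (by norm_num) (by norm_num) (by norm_num) (by norm_num)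 (by norm_num) (by norm_num) (ex_un 6 0.7217 (by norm_num) (by norm_num) (by norm_num) (by norm_num)) (by norm_num) (by norm_num)
  exact b3_out0 0.1858 0.0007 hY (by norm_num) h1 h2 (by norm_num)

private theorem yI {κ t : ℝ} (h : DomR κ t) (hk1 : 0.36 ≤ κ) (hk2 : κ ≤ 0.38) (ht1 : -0.9674 ≤ t + κ) (ht2 : t + κ ≤ -0.71239) :
    (-0.547) ≤ sy κ t ∧ sy κ t ≤ (-0.309) := by
  have hy1 : -0.547 ≤ sy κ t := syL_ang2 h 0.36 0.38 0.9674 0.984 0.5536 0.8329 0.547 1.72805 0.57868 hk1 hk2 (by linarith) (by norm_num) (by norm_num) (by norm_num) (by norm_num)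
    (cos_ge_num (by norm_num) (by norm_num)) (sin_le_num (by norm_num) (by norm_num))
    (expn_ge (by norm_num) (by norm_num)) (expm_ge (by norm_num) (by norm_num) (by norm_num) (by norm_num)) (by norm_num) (by norm_num) (by norm_num)
    (by norm_num) (by norm_num) (by norm_num)
  have hy2 : sy κ t ≤ -0.309 := syL_le h 0.36 0.38 0.71239 0.309 0.73418 0.73419 0.597 0.63018 hk1 hk2 (by linarith) (by norm_num) (by norm_num) (by norm_num)
    (expm_ge (by norm_num) (by norm_num) (by norm_num) (by norm_num)) (expm_le (by norm_num) (by norm_num) (by norm_num)) (by norm_num)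
    (by norm_num) (by norm_num) (by norm_num) (by norm_num) (by norm_num) (by norm_num)
  exact ⟨hy1, hy2⟩

theorem innE {β r h t κ : ℝ} (hh : h = 2 * Real.pi / (3 : ℕ)) (hβ : 0 < β) (hr : 10 ≤ r) (hκ : κ = β * r)
    (hk1 : 0.36 ≤ κ) (hk2 : κ ≤ 0.38) (hT1 : 1.127 ≤ t + κ) (hT2 : t + κ ≤ 1.382) :
    ‖Xf β r h t (-1)‖ ≤ 0.01243 * ‖Xf β r h t 0‖ ∧ ‖Xf β r h (t + β) (-1)‖ ≤ 0.01243 * ‖Xf β r h t 0‖ := by
  obtain ⟨q1, q2, q3⟩ := b3_h hh
  have hR0 := b3_R0 hβ hr hκ
  have hR := b3_R hβ hr hκ (by linarith)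
  have hD0 : DomR κ (t - h) := b3_dom (by linarith) (by linarith) (Or.inr (by linarith))
  have hy := yI hD0 hk1 hk2 (by linarith) (by linarith)
  have hY : 0.9466 * Real.exp (r * 0.43367) ≤ ‖Xf β r h t 0‖ :=
    b3_lo hβ hr hκ (k := 0) (t' := t - h) (by push_cast; ring) hD0 0.15 0.6499 0.9466 0.43367 (by norm_num)
      (T3_03_p0 hD0 hβ hk1 hk2 (by linarith) (by linarith) hR0 hR)
      (v5_Dup hD0 0.38 (-0.547) (-0.309) 1.72807 1.36207 0.6499 hk2 hy.1 hy.2 (ex_up 0.547 (by norm_num) (by norm_num) (by norm_num) (by norm_num)) (ex_up 0.309 (by norm_num) (by norm_num) (by norm_num) (by norm_num)) (by norm_num) (by norm_num) (by norm_num)) (by norm_num) (by norm_num)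
      (b3_Vlo hD0 0.36 0.38 (-0.9674) (-0.71239) 0.96 (-0.04082) 0.9826 0.55484 0.58908 0.43367 hk1 hk2 (by linarith) (by linarith) (by norm_num) (ex_lm 0.04082 (by norm_num) (by norm_num) (by norm_num) (by norm_num) (by norm_num)) (by norm_num) (by norm_num) (by norm_num) (by norm_num) (by norm_num) (by norm_num) (by norm_num) (by norm_num) (ex_um 0.58908 (by norm_num) (by norm_num) (by norm_num) (by norm_num)) (by norm_num))
  constructor
  · exact b3_cmp 1 0 0.0218 0.38367 0 0.01243 0.01243 hr ((b3_Xm hh).trans_le (b3_U1 0.36 0.38 3.22139 3.4764 1.27059 0.07777 1.27536 0.9552 0.00001 0.3003 0.000001 0.5397 hβ hr hκ (by norm_num) hk1 hk2 (by linarith) (by linarith) (by norm_num) (by norm_num) (by norm_num) (by norm_num) (by norm_num) (by norm_num) (by norm_num) (by norm_num) (by norm_num) (by norm_num) (by norm_num) (by norm_num) (by norm_num) (ex_un 9 0.552 (by norm_num) (by norm_num) (by norm_num) (by norm_num)) (v5_hump 1.5826 26.315 5.1299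 0.0000003148 0.000001 hβ hr hκ hk1 hk2 (by norm_num) (tb := 3.4764) (by linarith) (by norm_num) (by norm_num) (by norm_num) (by norm_num) (by norm_num) (by norm_num) (by norm_num) (ex_un 14 0.99 (by norm_num) (by norm_num) (by norm_num) (by norm_num)) (by norm_num)) (by norm_num))) hY (by norm_num) (by norm_num) (by norm_num) (by norm_num) (by norm_num) (by norm_num) (by norm_num) (by norm_num) (by norm_num) (ex_un 3 0.8367 (by norm_num) (by norm_num) (by norm_num) (by norm_num)) (by norm_num) (by norm_num)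
  · exact b3_cmp 1 0 0.0218 0.38367 0 0.01243 0.01243 hr ((b3_Xm hh).trans_le (b3_U1 0.36 0.38 3.22139 3.5144 1.27059 0.07777 1.27536 0.9552 0.00001 0.3003 0.000001 0.5397 hβ hr hκ (by norm_num) hk1 hk2 (by linarith) (by linarith) (by norm_num) (by norm_num) (by norm_num) (by norm_num) (by norm_num) (by norm_num) (by norm_num) (by norm_num) (by norm_num) (by norm_num) (by norm_num) (by norm_num) (by norm_num) (ex_un 9 0.552 (by norm_num) (by norm_num) (by norm_num) (by norm_num)) (v5_hump 1.5446 26.315 5.1299 0.0000003148 0.000001 hβ hr hκ hk1 hk2 (by norm_num) (tb := 3.5144) (by linarith) (by norm_num) (by norm_num) (by norm_num) (by norm_num) (by norm_num) (by norm_num) (by norm_num) (ex_un 14 0.99 (by norm_num) (by norm_num) (by norm_num) (by norm_num)) (by norm_num)) (by norm_num))) hY (by norm_num) (by norm_num) (by norm_num) (by norm_num) (by norm_num) (by norm_num) (by norm_num) (by norm_num) (by norm_num) (ex_un 3 0.8367 (by norm_num) (by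 norm_num) (by norm_num) (by norm_num)) (by norm_num) (by norm_num)

private theorem yA0 {κ t : ℝ} (h : DomR κ t) (hk1 : 0.36 ≤ κ) (hk2 : κ ≤ 0.38) (ht1 : 1.127 ≤ t + κ) (ht2 : t + κ ≤ 1.142) :
    0.228 ≤ sy κ t ∧ sy κ t ≤ 0.243 := by
  have hy1 : 0.228 ≤ sy κ t := syR_ge h 0.36 0.38 1.127 0.228 1.25608 1.25609 0.75364 0.79553 hk1 hk2 (by linarith) (by norm_num) (by norm_num)
    (expn_ge (by norm_num) (by norm_num)) (expn_le (by norm_num) (by norm_num) (by norm_num)) (by norm_num)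
    (by norm_num) (by norm_num) (by norm_num) (by norm_num) (by norm_num) (by norm_num)
  have hy2 : sy κ t ≤ 0.243 := syR_ang2 h 0.36 0.38 1.142 0.953 0.5803 0.8153 0.243 0.78428 1.27506 hk1 hk2 (by linarith) (by norm_num) (by norm_num) (by norm_num)
    (cos_le_num (by norm_num)) (sin_le_num (by norm_num) (by norm_num)) (expm_le (by norm_num) (by norm_num) (by norm_num))
    (expn_ge (by norm_num) (by norm_num)) (by norm_num) (by norm_num) (by norm_num) (by norm_num) (by norm_num)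
  exact ⟨hy1, hy2⟩

private theorem yB0 {κ t : ℝ} (h : DomR κ t) (hk1 : 0.36 ≤ κ) (hk2 : κ ≤ 0.38) (ht1 : -0.9674 ≤ t + κ) (ht2 : t + κ ≤ -0.95239) :
    (-0.547) ≤ sy κ t ∧ sy κ t ≤ (-0.453) := by
  have hy1 : -0.547 ≤ sy κ t := syL_ang2 h 0.36 0.38 0.9674 0.984 0.5536 0.8329 0.547 1.72805 0.57868 hk1 hk2 (by linarith) (by norm_num) (by norm_num) (by norm_num) (by norm_num)
    (cos_ge_num (by norm_num) (by norm_num)) (sin_le_num (by norm_num) (by norm_num))
    (expn_ge (by norm_num) (by norm_num)) (expm_ge (by norm_num) (by norm_num) (by norm_num) (by norm_num)) (by norm_num) (by norm_num) (by norm_num)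
    (by norm_num) (by norm_num) (by norm_num)
  have hy2 : sy κ t ≤ -0.453 := syL_le h 0.36 0.38 0.95239 0.453 0.63571 0.63572 0.75783 0.79995 hk1 hk2 (by linarith) (by norm_num) (by norm_num) (by norm_num)
    (expm_ge (by norm_num) (by norm_num) (by norm_num) (by norm_num)) (expm_le (by norm_num) (by norm_num) (by norm_num)) (by norm_num)
    (by norm_num) (by norm_num) (by norm_num) (by norm_num) (by norm_num) (by norm_num)
  exact ⟨hy1, hy2⟩

theorem pc0 {β r h t κ : ℝ} (hh : h = 2 * Real.pi / (3 : ℕ)) (hβ : 0 < β) (hr : 10 ≤ r) (hκ : κ = β * r)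
    (hk1 : 0.36 ≤ κ) (hk2 : κ ≤ 0.38) (hT1 : 1.127 ≤ t + κ) (hT2 : t + κ ≤ 1.142) :
    Xf β r h t 0 ≠ 0 ∧ r * 0.133 ≤ (Ld β r h t 1 - Ld β r h t 0).im ∧
      ‖(((-1 : ℤ) : ℂ) - 1) * Ld β r h t 0 - ((-1 : ℤ) : ℂ) * Ld β r h t 1‖ ≤ r * 7.41 := by
  obtain ⟨q1, q2, q3⟩ := b3_h hh
  have hR0 := b3_R0 hβ hr hκ
  have hR := b3_R hβ hr hκ (by linarith)
  have hD1 : DomR κ t := b3_dom (by linarith) (by linarith) (Or.inr (by linarith))
  have hD0 : DomR κ (t - h) := b3_dom (by linarith) (by linarith) (Or.inr (by linarith))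
  have y1 := yA0 hD1 hk1 hk2 (by linarith) (by linarith)
  have y0 := yB0 hD0 hk1 hk2 (by linarith) (by linarith)
  have j1 := T3_03_d1_0 hD1 hβ hk1 hk2 (by linarith) (by linarith) hR0 hR
  exact b3_piece 0.36 0.38 0.228 0.243 0.235 0.79057 0.79613 0.78428 0.3026 1.5381 1.5749 0.03 0.015 0.015 0.5077 0.1239 0 0 (-0.547) (-0.453) (-0.5) 1.64871 1.72807 0.6567 0.2913 0.03 0.28 0.15 10.9804 13.3603 1.3778 3.1061 0.133 7.41
    hβ hr hκ (by norm_num) hk1 hk2 hD1 hD0 j1 (j1 _ (by rw [sub_self, norm_zero]; norm_num))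
    (T3_03_d0_0 hD0 hβ hk1 hk2 (by linarith) (by linarith) hR0 hR)
    (T3_03_p0 hD0 hβ hk1 hk2 (by linarith) (by linarith) hR0 hR)
    y1.1 y1.2 y0.1 y0.2 (by norm_num)
    (ex_um 0.228 (by norm_num) (by norm_num) (by norm_num) (by norm_num)) (ex_um 0.243 (by norm_num) (by norm_num) (by norm_num) (by norm_num)) (ex_lm 0.235 (by norm_num) (by norm_num) (by norm_num) (by norm_num) (by norm_num)) (by norm_num) (by norm_num) (by norm_num) (by norm_num) (by norm_num) (by norm_num) (by norm_num) (by norm_num)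
    (by norm_num) (by norm_num) (by norm_num) (by norm_num) (by norm_num) (by norm_num) (by norm_num) (by norm_num) (by norm_num) (by norm_num)
    (ex_up 0.547 (by norm_num) (by norm_num) (by norm_num) (by norm_num)) (ex_lp 0.5 (by norm_num) (by norm_num) (by norm_num)) (by norm_num) (by norm_num) (by norm_num) (by norm_num) (by norm_num) (by norm_num)
    (by norm_num) (by norm_num) (by norm_num) (by norm_num) (by norm_num) (by norm_num) (by norm_num) (by norm_num) (by norm_num) (by norm_num) (by norm_num)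
    (by norm_num) (by norm_num) (by norm_num) (by norm_num)

private theorem yA1 {κ t : ℝ} (h : DomR κ t) (hk1 : 0.36 ≤ κ) (hk2 : κ ≤ 0.38) (ht1 : 1.142 ≤ t + κ) (ht2 : t + κ ≤ 1.157) :
    0.229 ≤ sy κ t ∧ sy κ t ≤ 0.244 := by
  have hy1 : 0.229 ≤ sy κ t := syR_ge h 0.36 0.38 1.142 0.229 1.25734 1.25735 0.75771 0.79982 hk1 hk2 (by linarith) (by norm_num) (by norm_num)
    (expn_ge (by norm_num) (by norm_num)) (expn_le (by norm_num) (by norm_num) (by norm_num)) (by norm_num)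
    (by norm_num) (by norm_num) (by norm_num) (by norm_num) (by norm_num) (by norm_num)
  have hy2 : sy κ t ≤ 0.244 := syR_ang2 h 0.36 0.38 1.157 0.96 0.5746 0.8194 0.244 0.78349 1.27634 hk1 hk2 (by linarith) (by norm_num) (by norm_num) (by norm_num)
    (cos_le_num (by norm_num)) (sin_le_num (by norm_num) (by norm_num)) (expm_le (by norm_num) (by norm_num) (by norm_num))
    (expn_ge (by norm_num) (by norm_num)) (by norm_num) (by norm_num) (by norm_num) (by norm_num) (by norm_num)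
  exact ⟨hy1, hy2⟩

private theorem yB1 {κ t : ℝ} (h : DomR κ t) (hk1 : 0.36 ≤ κ) (hk2 : κ ≤ 0.38) (ht1 : -0.9524 ≤ t + κ) (ht2 : t + κ ≤ -0.93739) :
    (-0.532) ≤ sy κ t ∧ sy κ t ≤ (-0.453) := by
  have hy1 : -0.532 ≤ sy κ t := syL_ang2 h 0.36 0.38 0.9524 0.965 0.5693 0.8223 0.532 1.70233 0.58742 hk1 hk2 (by linarith) (by norm_num) (by norm_num) (by norm_num) (by norm_num)
    (cos_ge_num (by norm_num) (by norm_num)) (sin_le_num (by norm_num) (by norm_num))
    (expn_ge (by norm_num) (by norm_num)) (expm_ge (by norm_num) (by norm_num) (by norm_num) (by norm_num)) (by norm_num) (by norm_num) (by norm_num)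
    (by norm_num) (by norm_num) (by norm_num)
  have hy2 : sy κ t ≤ -0.453 := syL_le h 0.36 0.38 0.93739 0.453 0.63571 0.63572 0.75783 0.79995 hk1 hk2 (by linarith) (by norm_num) (by norm_num) (by norm_num)
    (expm_ge (by norm_num) (by norm_num) (by norm_num) (by norm_num)) (expm_le (by norm_num) (by norm_num) (by norm_num)) (by norm_num)
    (by norm_num) (by norm_num) (by norm_num) (by norm_num) (by norm_num) (by norm_num)
  exact ⟨hy1, hy2⟩

theorem pc1 {β r h t κ : ℝ} (hh : h = 2 * Real.pi / (3 : ℕ)) (hβ : 0 < β) (hr : 10 ≤ r) (hκ : κ = β * r)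
    (hk1 : 0.36 ≤ κ) (hk2 : κ ≤ 0.38) (hT1 : 1.142 ≤ t + κ) (hT2 : t + κ ≤ 1.157) :
    Xf β r h t 0 ≠ 0 ∧ r * 0.133 ≤ (Ld β r h t 1 - Ld β r h t 0).im ∧
      ‖(((-1 : ℤ) : ℂ) - 1) * Ld β r h t 0 - ((-1 : ℤ) : ℂ) * Ld β r h t 1‖ ≤ r * 7.41 := by
  obtain ⟨q1, q2, q3⟩ := b3_h hh
  have hR0 := b3_R0 hβ hr hκ
  have hR := b3_R hβ hr hκ (by linarith)
  have hD1 : DomR κ t := b3_dom (by linarith) (by linarith) (Or.inr (by linarith))
  have hD0 : DomR κ (t - h) := b3_dom (by linarith) (by linarith) (Or.inr (by linarith))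
  have y1 := yA1 hD1 hk1 hk2 (by linarith) (by linarith)
  have y0 := yB1 hD0 hk1 hk2 (by linarith) (by linarith)
  have j1 := T3_03_d1_0 hD1 hβ hk1 hk2 (by linarith) (by linarith) hR0 hR
  exact b3_piece 0.36 0.38 0.229 0.244 0.236 0.78978 0.79533 0.78349 0.3023 1.5399 1.5767 0.03 0.015 0.015 0.5077 0.1237 0 0 (-0.532) (-0.453) (-0.492) 1.63558 1.70234 0.6469 0.3104 0.03 0.28 0.15 10.9804 12.7496 1.2623 2.6308 0.133 7.41
    hβ hr hκ (by norm_num) hk1 hk2 hD1 hD0 j1 (j1 _ (by rw [sub_self, norm_zero]; norm_num))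
    (T3_03_d0_0 hD0 hβ hk1 hk2 (by linarith) (by linarith) hR0 hR)
    (T3_03_p0 hD0 hβ hk1 hk2 (by linarith) (by linarith) hR0 hR)
    y1.1 y1.2 y0.1 y0.2 (by norm_num)
    (ex_um 0.229 (by norm_num) (by norm_num) (by norm_num) (by norm_num)) (ex_um 0.244 (by norm_num) (by norm_num) (by norm_num) (by norm_num)) (ex_lm 0.236 (by norm_num) (by norm_num) (by norm_num) (by norm_num) (by norm_num)) (by norm_num) (by norm_num) (by norm_num) (by norm_num) (by norm_num) (by norm_num) (by norm_num) (by norm_num)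
    (by norm_num) (by norm_num) (by norm_num) (by norm_num) (by norm_num) (by norm_num) (by norm_num) (by norm_num) (by norm_num) (by norm_num)
    (ex_up 0.532 (by norm_num) (by norm_num) (by norm_num) (by norm_num)) (ex_lp 0.492 (by norm_num) (by norm_num) (by norm_num)) (by norm_num) (by norm_num) (by norm_num) (by norm_num) (by norm_num) (by norm_num)
    (by norm_num) (by norm_num) (by norm_num) (by norm_num) (by norm_num) (by norm_num) (by norm_num) (by norm_num) (by norm_num) (by norm_num) (by norm_num)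
    (by norm_num) (by norm_num) (by norm_num) (by norm_num)

private theorem yA2 {κ t : ℝ} (h : DomR κ t) (hk1 : 0.36 ≤ κ) (hk2 : κ ≤ 0.38) (ht1 : 1.157 ≤ t + κ) (ht2 : t + κ ≤ 1.175) :
    0.229 ≤ sy κ t ∧ sy κ t ≤ 0.246 := by
  have hy1 : 0.229 ≤ sy κ t := syR_ge h 0.36 0.38 1.157 0.229 1.25734 1.25735 0.75771 0.79982 hk1 hk2 (by linarith) (by norm_num) (by norm_num)
    (expn_ge (by norm_num) (by norm_num)) (expn_le (by norm_num) (by norm_num) (by norm_num)) (by norm_num)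
    (by norm_num) (by norm_num) (by norm_num) (by norm_num) (by norm_num) (by norm_num)
  have hy2 : sy κ t ≤ 0.246 := syR_ang2 h 0.36 0.38 1.175 0.975 0.5624 0.8279 0.246 0.78193 1.27889 hk1 hk2 (by linarith) (by norm_num) (by norm_num) (by norm_num)
    (cos_le_num (by norm_num)) (sin_le_num (by norm_num) (by norm_num)) (expm_le (by norm_num) (by norm_num) (by norm_num))
    (expn_ge (by norm_num) (by norm_num)) (by norm_num) (by norm_num) (by norm_num) (by norm_num) (by norm_num)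
  exact ⟨hy1, hy2⟩

private theorem yB2 {κ t : ℝ} (h : DomR κ t) (hk1 : 0.36 ≤ κ) (hk2 : κ ≤ 0.38) (ht1 : -0.9374 ≤ t + κ) (ht2 : t + κ ≤ -0.91939) :
    (-0.517) ≤ sy κ t ∧ sy κ t ≤ (-0.44) := by
  have hy1 : -0.517 ≤ sy κ t := syL_ang2 h 0.36 0.38 0.9374 0.945 0.5857 0.8107 0.517 1.67698 0.5963 hk1 hk2 (by linarith) (by norm_num) (by norm_num) (by norm_num) (by norm_num)
    (cos_ge_num (by norm_num) (by norm_num)) (sin_le_num (by norm_num) (by norm_num))
    (expn_ge (by norm_num) (by norm_num)) (expm_ge (by norm_num) (by norm_num) (by norm_num) (by norm_num)) (by norm_num) (by norm_num) (by norm_num)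
    (by norm_num) (by norm_num) (by norm_num)
  have hy2 : sy κ t ≤ -0.44 := syL_le h 0.36 0.38 0.91939 0.44 0.64403 0.64404 0.74571 0.78717 hk1 hk2 (by linarith) (by norm_num) (by norm_num) (by norm_num)
    (expm_ge (by norm_num) (by norm_num) (by norm_num) (by norm_num)) (expm_le (by norm_num) (by norm_num) (by norm_num)) (by norm_num)
    (by norm_num) (by norm_num) (by norm_num) (by norm_num) (by norm_num) (by norm_num)
  exact ⟨hy1, hy2⟩

theorem pc2 {β r h t κ : ℝ} (hh : h = 2 * Real.pi / (3 : ℕ)) (hβ : 0 < β) (hr : 10 ≤ r) (hκ : κ = β * r)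
    (hk1 : 0.36 ≤ κ) (hk2 : κ ≤ 0.38) (hT1 : 1.157 ≤ t + κ) (hT2 : t + κ ≤ 1.175) :
    Xf β r h t 0 ≠ 0 ∧ r * 0.133 ≤ (Ld β r h t 1 - Ld β r h t 0).im ∧
      ‖(((-1 : ℤ) : ℂ) - 1) * Ld β r h t 0 - ((-1 : ℤ) : ℂ) * Ld β r h t 1‖ ≤ r * 7.41 := by
  obtain ⟨q1, q2, q3⟩ := b3_h hh
  have hR0 := b3_R0 hβ hr hκ
  have hR := b3_R hβ hr hκ (by linarith)
  have hD1 : DomR κ t := b3_dom (by linarith) (by linarith) (Or.inr (by linarith))
  have hD0 : DomR κ (t - h) := b3_dom (by linarith) (by linarith) (Or.inr (by linarith))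
  have y1 := yA2 hD1 hk1 hk2 (by linarith) (by linarith)
  have y0 := yB2 hD0 hk1 hk2 (by linarith) (by linarith)
  have j1 := T3_03_d1_1 hD1 hβ hk1 hk2 (by linarith) (by linarith) hR0 hR
  exact b3_piece 0.36 0.38 0.229 0.246 0.237 0.78899 0.79533 0.78193 0.3023 1.5399 1.5803 0.06 0.04 0.04 0.6945 0.1692 0 0 (-0.517) (-0.44) (-0.478) 1.61284 1.67699 0.6373 0.3294 0.04 0.24 0.15 7.0589 7.8383 1.2001 2.3219 0.133 7.41
    hβ hr hκ (by norm_num) hk1 hk2 hD1 hD0 j1 (j1 _ (by rw [sub_self, norm_zero]; norm_num))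
    (T3_03_d0_1 hD0 hβ hk1 hk2 (by linarith) (by linarith) hR0 hR)
    (T3_03_p0 hD0 hβ hk1 hk2 (by linarith) (by linarith) hR0 hR)
    y1.1 y1.2 y0.1 y0.2 (by norm_num)
    (ex_um 0.229 (by norm_num) (by norm_num) (by norm_num) (by norm_num)) (ex_um 0.246 (by norm_num) (by norm_num) (by norm_num) (by norm_num)) (ex_lm 0.237 (by norm_num) (by norm_num) (by norm_num) (by norm_num) (by norm_num)) (by norm_num) (by norm_num) (by norm_num) (by norm_num) (by norm_num) (by norm_num) (by norm_num) (by norm_num)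
    (by norm_num) (by norm_num) (by norm_num) (by norm_num) (by norm_num) (by norm_num) (by norm_num) (by norm_num) (by norm_num) (by norm_num)
    (ex_up 0.517 (by norm_num) (by norm_num) (by norm_num) (by norm_num)) (ex_lp 0.478 (by norm_num) (by norm_num) (by norm_num)) (by norm_num) (by norm_num) (by norm_num) (by norm_num) (by norm_num) (by norm_num)
    (by norm_num) (by norm_num) (by norm_num) (by norm_num) (by norm_num) (by norm_num) (by norm_num) (by norm_num) (by norm_num) (by norm_num) (by norm_num)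
    (by norm_num) (by norm_num) (by norm_num) (by norm_num)

private theorem yA3 {κ t : ℝ} (h : DomR κ t) (hk1 : 0.36 ≤ κ) (hk2 : κ ≤ 0.38) (ht1 : 1.175 ≤ t + κ) (ht2 : t + κ ≤ 1.192) :
    0.229 ≤ sy κ t ∧ sy κ t ≤ 0.248 := by
  have hy1 : 0.229 ≤ sy κ t := syR_ge h 0.36 0.38 1.175 0.229 1.25734 1.25735 0.75771 0.79982 hk1 hk2 (by linarith) (by norm_num) (by norm_num)
    (expn_ge (by norm_num) (by norm_num)) (expn_le (by norm_num) (by norm_num) (by norm_num)) (by norm_num)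
    (by norm_num) (by norm_num) (by norm_num) (by norm_num) (by norm_num) (by norm_num)
  have hy2 : sy κ t ≤ 0.248 := syR_ang2 h 0.36 0.38 1.192 0.99 0.55 0.8363 0.248 0.78036 1.28145 hk1 hk2 (by linarith) (by norm_num) (by norm_num) (by norm_num)
    (cos_le_num (by norm_num)) (sin_le_num (by norm_num) (by norm_num)) (expm_le (by norm_num) (by norm_num) (by norm_num))
    (expn_ge (by norm_num) (by norm_num)) (by norm_num) (by norm_num) (by norm_num) (by norm_num) (by norm_num)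
  exact ⟨hy1, hy2⟩

private theorem yB3 {κ t : ℝ} (h : DomR κ t) (hk1 : 0.36 ≤ κ) (hk2 : κ ≤ 0.38) (ht1 : -0.9194 ≤ t + κ) (ht2 : t + κ ≤ -0.90239) :
    (-0.499) ≤ sy κ t ∧ sy κ t ≤ (-0.428) := by
  have hy1 : -0.499 ≤ sy κ t := syL_ang2 h 0.36 0.38 0.9194 0.922 0.6042 0.797 0.499 1.64707 0.60713 hk1 hk2 (by linarith) (by norm_num) (by norm_num) (by norm_num) (by norm_num)
    (cos_ge_num (by norm_num) (by norm_num)) (sin_le_num (by norm_num) (by norm_num))
    (expn_ge (by norm_num) (by norm_num)) (expm_ge (by norm_num) (by norm_num) (by norm_num) (by norm_num)) (by norm_num) (by norm_num) (by norm_num)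
    (by norm_num) (by norm_num) (by norm_num)
  have hy2 : sy κ t ≤ -0.428 := syL_le h 0.36 0.38 0.90239 0.428 0.65181 0.65182 0.73414 0.77495 hk1 hk2 (by linarith) (by norm_num) (by norm_num) (by norm_num)
    (expm_ge (by norm_num) (by norm_num) (by norm_num) (by norm_num)) (expm_le (by norm_num) (by norm_num) (by norm_num)) (by norm_num)
    (by norm_num) (by norm_num) (by norm_num) (by norm_num) (by norm_num) (by norm_num)
  exact ⟨hy1, hy2⟩

theorem pc3 {β r h t κ : ℝ} (hh : h = 2 * Real.pi / (3 : ℕ)) (hβ : 0 < β) (hr : 10 ≤ r) (hκ : κ = β * r)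
    (hk1 : 0.36 ≤ κ) (hk2 : κ ≤ 0.38) (hT1 : 1.175 ≤ t + κ) (hT2 : t + κ ≤ 1.192) :
    Xf β r h t 0 ≠ 0 ∧ r * 0.133 ≤ (Ld β r h t 1 - Ld β r h t 0).im ∧
      ‖(((-1 : ℤ) : ℂ) - 1) * Ld β r h t 0 - ((-1 : ℤ) : ℂ) * Ld β r h t 1‖ ≤ r * 7.41 := by
  obtain ⟨q1, q2, q3⟩ := b3_h hh
  have hR0 := b3_R0 hβ hr hκ
  have hR := b3_R hβ hr hκ (by linarith)
  have hD1 : DomR κ t := b3_dom (by linarith) (by linarith) (Or.inr (by linarith))
  have hD0 : DomR κ (t - h) := b3_dom (by linarith) (by linarith) (Or.inr (by linarith))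
  have y1 := yA3 hD1 hk1 hk2 (by linarith) (by linarith)
  have y0 := yB3 hD0 hk1 hk2 (by linarith) (by linarith)
  have j1 := T3_03_d1_1 hD1 hβ hk1 hk2 (by linarith) (by linarith) hR0 hR
  exact b3_piece 0.36 0.38 0.229 0.248 0.238 0.7882 0.79533 0.78036 0.3023 1.5399 1.584 0.06 0.04 0.04 0.6945 0.1692 0 0 (-0.499) (-0.428) (-0.464) 1.59042 1.64708 0.6259 0.3527 0.04 0.24 0.15 7.0589 7.4395 1.1218 1.9908 0.133 7.41
    hβ hr hκ (by norm_num) hk1 hk2 hD1 hD0 j1 (j1 _ (by rw [sub_self, norm_zero]; norm_num))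
    (T3_03_d0_1 hD0 hβ hk1 hk2 (by linarith) (by linarith) hR0 hR)
    (T3_03_p0 hD0 hβ hk1 hk2 (by linarith) (by linarith) hR0 hR)
    y1.1 y1.2 y0.1 y0.2 (by norm_num)
    (ex_um 0.229 (by norm_num) (by norm_num) (by norm_num) (by norm_num)) (ex_um 0.248 (by norm_num) (by norm_num) (by norm_num) (by norm_num)) (ex_lm 0.238 (by norm_num) (by norm_num) (by norm_num) (by norm_num) (by norm_num)) (by norm_num) (by norm_num) (by norm_num) (by norm_num) (by norm_num) (by norm_num) (by norm_num) (by norm_num)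
    (by norm_num) (by norm_num) (by norm_num) (by norm_num) (by norm_num) (by norm_num) (by norm_num) (by norm_num) (by norm_num) (by norm_num)
    (ex_up 0.499 (by norm_num) (by norm_num) (by norm_num) (by norm_num)) (ex_lp 0.464 (by norm_num) (by norm_num) (by norm_num)) (by norm_num) (by norm_num) (by norm_num) (by norm_num) (by norm_num) (by norm_num)
    (by norm_num) (by norm_num) (by norm_num) (by norm_num) (by norm_num) (by norm_num) (by norm_num) (by norm_num) (by norm_num) (by norm_num) (by norm_num)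
    (by norm_num) (by norm_num) (by norm_num) (by norm_num)

private theorem yA4 {κ t : ℝ} (h : DomR κ t) (hk1 : 0.36 ≤ κ) (hk2 : κ ≤ 0.38) (ht1 : 1.192 ≤ t + κ) (ht2 : t + κ ≤ 1.21) :
    0.229 ≤ sy κ t ∧ sy κ t ≤ 0.25 := by
  have hy1 : 0.229 ≤ sy κ t := syR_ge h 0.36 0.38 1.192 0.229 1.25734 1.25735 0.75771 0.79982 hk1 hk2 (by linarith) (by norm_num) (by norm_num)
    (expn_ge (by norm_num) (by norm_num)) (expn_le (by norm_num) (by norm_num) (by norm_num)) (by norm_num)
    (by norm_num) (by norm_num) (by norm_num) (by norm_num) (by norm_num) (by norm_num)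
  have hy2 : sy κ t ≤ 0.25 := syR_ang2 h 0.36 0.38 1.21 1.005 0.5375 0.8444 0.25 0.77881 1.28402 hk1 hk2 (by linarith) (by norm_num) (by norm_num) (by norm_num)
    (cos_le_num (by norm_num)) (sin_le_num (by norm_num) (by norm_num)) (expm_le (by norm_num) (by norm_num) (by norm_num))
    (expn_ge (by norm_num) (by norm_num)) (by norm_num) (by norm_num) (by norm_num) (by norm_num) (by norm_num)
  exact ⟨hy1, hy2⟩

private theorem yB4 {κ t : ℝ} (h : DomR κ t) (hk1 : 0.36 ≤ κ) (hk2 : κ ≤ 0.38) (ht1 : -0.9024 ≤ t + κ) (ht2 : t + κ ≤ -0.88439) :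
    (-0.483) ≤ sy κ t ∧ sy κ t ≤ (-0.416) := by
  have hy1 : -0.483 ≤ sy κ t := syL_ang2 h 0.36 0.38 0.9024 0.901 0.6208 0.7841 0.483 1.62092 0.61692 hk1 hk2 (by linarith) (by norm_num) (by norm_num) (by norm_num) (by norm_num)
    (cos_ge_num (by norm_num) (by norm_num)) (sin_le_num (by norm_num) (by norm_num))
    (expn_ge (by norm_num) (by norm_num)) (expm_ge (by norm_num) (by norm_num) (by norm_num) (by norm_num)) (by norm_num) (by norm_num) (by norm_num)
    (by norm_num) (by norm_num) (by norm_num)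
  have hy2 : sy κ t ≤ -0.416 := syL_le h 0.36 0.38 0.88439 0.416 0.65968 0.65969 0.72217 0.76231 hk1 hk2 (by linarith) (by norm_num) (by norm_num) (by norm_num)
    (expm_ge (by norm_num) (by norm_num) (by norm_num) (by norm_num)) (expm_le (by norm_num) (by norm_num) (by norm_num)) (by norm_num)
    (by norm_num) (by norm_num) (by norm_num) (by norm_num) (by norm_num) (by norm_num)
  exact ⟨hy1, hy2⟩

theorem pc4 {β r h t κ : ℝ} (hh : h = 2 * Real.pi / (3 : ℕ)) (hβ : 0 < β) (hr : 10 ≤ r) (hκ : κ = β * r)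
    (hk1 : 0.36 ≤ κ) (hk2 : κ ≤ 0.38) (hT1 : 1.192 ≤ t + κ) (hT2 : t + κ ≤ 1.21) :
    Xf β r h t 0 ≠ 0 ∧ r * 0.133 ≤ (Ld β r h t 1 - Ld β r h t 0).im ∧
      ‖(((-1 : ℤ) : ℂ) - 1) * Ld β r h t 0 - ((-1 : ℤ) : ℂ) * Ld β r h t 1‖ ≤ r * 7.41 := by
  obtain ⟨q1, q2, q3⟩ := b3_h hh
  have hR0 := b3_R0 hβ hr hκ
  have hR := b3_R hβ hr hκ (by linarith)
  have hD1 : DomR κ t := b3_dom (by linarith) (by linarith) (Or.inr (by linarith))
  have hD0 : DomR κ (t - h) := b3_dom (by linarith) (by linarith) (Or.inr (by linarith))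
  have y1 := yA4 hD1 hk1 hk2 (by linarith) (by linarith)
  have y0 := yB4 hD0 hk1 hk2 (by linarith) (by linarith)
  have j1 := T3_03_d1_1 hD1 hβ hk1 hk2 (by linarith) (by linarith) hR0 hR
  exact b3_piece 0.36 0.38 0.229 0.25 0.239 0.78741 0.79533 0.77881 0.3023 1.5399 1.5876 0.06 0.04 0.04 0.6945 0.1692 0 0 (-0.483) (-0.416) (-0.45) 1.56831 1.62093 0.616 0.3738 0.04 0.24 0.15 7.0589 7.1122 1.0624 1.7508 0.133 7.41
    hβ hr hκ (by norm_num) hk1 hk2 hD1 hD0 j1 (j1 _ (by rw [sub_self, norm_zero]; norm_num))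
    (T3_03_d0_1 hD0 hβ hk1 hk2 (by linarith) (by linarith) hR0 hR)
    (T3_03_p0 hD0 hβ hk1 hk2 (by linarith) (by linarith) hR0 hR)
    y1.1 y1.2 y0.1 y0.2 (by norm_num)
    (ex_um 0.229 (by norm_num) (by norm_num) (by norm_num) (by norm_num)) (ex_um 0.25 (by norm_num) (by norm_num) (by norm_num) (by norm_num)) (ex_lm 0.239 (by norm_num) (by norm_num) (by norm_num) (by norm_num) (by norm_num)) (by norm_num) (by norm_num) (by norm_num) (by norm_num) (by norm_num) (by norm_num) (by norm_num) (by norm_num)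
    (by norm_num) (by norm_num) (by norm_num) (by norm_num) (by norm_num) (by norm_num) (by norm_num) (by norm_num) (by norm_num) (by norm_num)
    (ex_up 0.483 (by norm_num) (by norm_num) (by norm_num) (by norm_num)) (ex_lp 0.45 (by norm_num) (by norm_num) (by norm_num)) (by norm_num) (by norm_num) (by norm_num) (by norm_num) (by norm_num) (by norm_num)
    (by norm_num) (by norm_num) (by norm_num) (by norm_num) (by norm_num) (by norm_num) (by norm_num) (by norm_num) (by norm_num) (by norm_num) (by norm_num)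
    (by norm_num) (by norm_num) (by norm_num) (by norm_num)

private theorem yA5 {κ t : ℝ} (h : DomR κ t) (hk1 : 0.36 ≤ κ) (hk2 : κ ≤ 0.38) (ht1 : 1.21 ≤ t + κ) (ht2 : t + κ ≤ 1.227) :
    0.229 ≤ sy κ t ∧ sy κ t ≤ 0.252 := by
  have hy1 : 0.229 ≤ sy κ t := syR_ge h 0.36 0.38 1.21 0.229 1.25734 1.25735 0.75771 0.79982 hk1 hk2 (by linarith) (by norm_num) (by norm_num)
    (expn_ge (by norm_num) (by norm_num)) (expn_le (by norm_num) (by norm_num) (by norm_num)) (by norm_num)
    (by norm_num) (by norm_num) (by norm_num) (by norm_num) (by norm_num) (by norm_num)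
  have hy2 : sy κ t ≤ 0.252 := syR_ang2 h 0.36 0.38 1.227 1.021 0.5241 0.8529 0.252 0.77725 1.28659 hk1 hk2 (by linarith) (by norm_num) (by norm_num) (by norm_num)
    (cos_le_num (by norm_num)) (sin_le_num (by norm_num) (by norm_num)) (expm_le (by norm_num) (by norm_num) (by norm_num))
    (expn_ge (by norm_num) (by norm_num)) (by norm_num) (by norm_num) (by norm_num) (by norm_num) (by norm_num)
  exact ⟨hy1, hy2⟩

private theorem yB5 {κ t : ℝ} (h : DomR κ t) (hk1 : 0.36 ≤ κ) (hk2 : κ ≤ 0.38) (ht1 : -0.8844 ≤ t + κ) (ht2 : t + κ ≤ -0.86739) :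
    (-0.467) ≤ sy κ t ∧ sy κ t ≤ (-0.404) := by
  have hy1 : -0.467 ≤ sy κ t := syL_ang2 h 0.36 0.38 0.8844 0.879 0.6379 0.7702 0.467 1.5952 0.62688 hk1 hk2 (by linarith) (by norm_num) (by norm_num) (by norm_num) (by norm_num)
    (cos_ge_num (by norm_num) (by norm_num)) (sin_le_num (by norm_num) (by norm_num))
    (expn_ge (by norm_num) (by norm_num)) (expm_ge (by norm_num) (by norm_num) (by norm_num) (by norm_num)) (by norm_num) (by norm_num) (by norm_num)
    (by norm_num) (by norm_num) (by norm_num)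
  have hy2 : sy κ t ≤ -0.404 := syL_le h 0.36 0.38 0.86739 0.404 0.66764 0.66765 0.7098 0.74926 hk1 hk2 (by linarith) (by norm_num) (by norm_num) (by norm_num)
    (expm_ge (by norm_num) (by norm_num) (by norm_num) (by norm_num)) (expm_le (by norm_num) (by norm_num) (by norm_num)) (by norm_num)
    (by norm_num) (by norm_num) (by norm_num) (by norm_num) (by norm_num) (by norm_num)
  exact ⟨hy1, hy2⟩

theorem pc5 {β r h t κ : ℝ} (hh : h = 2 * Real.pi / (3 : ℕ)) (hβ : 0 < β) (hr : 10 ≤ r) (hκ : κ = β * r)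
    (hk1 : 0.36 ≤ κ) (hk2 : κ ≤ 0.38) (hT1 : 1.21 ≤ t + κ) (hT2 : t + κ ≤ 1.227) :
    Xf β r h t 0 ≠ 0 ∧ r * 0.133 ≤ (Ld β r h t 1 - Ld β r h t 0).im ∧
      ‖(((-1 : ℤ) : ℂ) - 1) * Ld β r h t 0 - ((-1 : ℤ) : ℂ) * Ld β r h t 1‖ ≤ r * 7.41 := by
  obtain ⟨q1, q2, q3⟩ := b3_h hh
  have hR0 := b3_R0 hβ hr hκ
  have hR := b3_R hβ hr hκ (by linarith)
  have hD1 : DomR κ t := b3_dom (by linarith) (by linarith) (Or.inr (by linarith))
  have hD0 : DomR κ (t - h) := b3_dom (by linarith) (by linarith) (Or.inr (by linarith))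
  have y1 := yA5 hD1 hk1 hk2 (by linarith) (by linarith)
  have y0 := yB5 hD0 hk1 hk2 (by linarith) (by linarith)
  have j1 := T3_03_d1_1 hD1 hβ hk1 hk2 (by linarith) (by linarith) hR0 hR
  exact b3_piece 0.36 0.38 0.229 0.252 0.24 0.78662 0.79533 0.77725 0.3023 1.5399 1.5913 0.06 0.04 0.04 0.6945 0.1692 0 0 (-0.467) (-0.404) (-0.435) 1.54496 1.59521 0.6062 0.3951 0.04 0.24 0.15 7.0589 6.8077 1.0085 1.5474 0.133 7.41
    hβ hr hκ (by norm_num) hk1 hk2 hD1 hD0 j1 (j1 _ (by rw [sub_self, norm_zero]; norm_num))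
    (T3_03_d0_1 hD0 hβ hk1 hk2 (by linarith) (by linarith) hR0 hR)
    (T3_03_p0 hD0 hβ hk1 hk2 (by linarith) (by linarith) hR0 hR)
    y1.1 y1.2 y0.1 y0.2 (by norm_num)
    (ex_um 0.229 (by norm_num) (by norm_num) (by norm_num) (by norm_num)) (ex_um 0.252 (by norm_num) (by norm_num) (by norm_num) (by norm_num)) (ex_lm 0.24 (by norm_num) (by norm_num) (by norm_num) (by norm_num) (by norm_num)) (by norm_num) (by norm_num) (by norm_num) (by norm_num) (by norm_num) (by norm_num) (by norm_num) (by norm_num)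
    (by norm_num) (by norm_num) (by norm_num) (by norm_num) (by norm_num) (by norm_num) (by norm_num) (by norm_num) (by norm_num) (by norm_num)
    (ex_up 0.467 (by norm_num) (by norm_num) (by norm_num) (by norm_num)) (ex_lp 0.435 (by norm_num) (by norm_num) (by norm_num)) (by norm_num) (by norm_num) (by norm_num) (by norm_num) (by norm_num) (by norm_num)
    (by norm_num) (by norm_num) (by norm_num) (by norm_num) (by norm_num) (by norm_num) (by norm_num) (by norm_num) (by norm_num) (by norm_num) (by norm_num)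
    (by norm_num) (by norm_num) (by norm_num) (by norm_num)

private theorem yA6 {κ t : ℝ} (h : DomR κ t) (hk1 : 0.36 ≤ κ) (hk2 : κ ≤ 0.38) (ht1 : 1.227 ≤ t + κ) (ht2 : t + κ ≤ 1.246) :
    0.229 ≤ sy κ t ∧ sy κ t ≤ 0.254 := by
  have hy1 : 0.229 ≤ sy κ t := syR_ge h 0.36 0.38 1.227 0.229 1.25734 1.25735 0.75771 0.79982 hk1 hk2 (by linarith) (by norm_num) (by norm_num)
    (expn_ge (by norm_num) (by norm_num)) (expn_le (by norm_num) (by norm_num) (by norm_num)) (by norm_num)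
    (by norm_num) (by norm_num) (by norm_num) (by norm_num) (by norm_num) (by norm_num)
  have hy2 : sy κ t ≤ 0.254 := syR_ang2 h 0.36 0.38 1.246 1.038 0.5097 0.8617 0.254 0.7757 1.28917 hk1 hk2 (by linarith) (by norm_num) (by norm_num) (by norm_num)
    (cos_le_num (by norm_num)) (sin_le_num (by norm_num) (by norm_num)) (expm_le (by norm_num) (by norm_num) (by norm_num))
    (expn_ge (by norm_num) (by norm_num)) (by norm_num) (by norm_num) (by norm_num) (by norm_num) (by norm_num)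
  exact ⟨hy1, hy2⟩

private theorem yB6 {κ t : ℝ} (h : DomR κ t) (hk1 : 0.36 ≤ κ) (hk2 : κ ≤ 0.38) (ht1 : -0.8674 ≤ t + κ) (ht2 : t + κ ≤ -0.84839) :
    (-0.452) ≤ sy κ t ∧ sy κ t ≤ (-0.392) := by
  have hy1 : -0.452 ≤ sy κ t := syL_ang2 h 0.36 0.38 0.8674 0.858 0.6539 0.7567 0.452 1.57145 0.63635 hk1 hk2 (by linarith) (by norm_num) (by norm_num) (by norm_num) (by norm_num)
    (cos_ge_num (by norm_num) (by norm_num)) (sin_le_num (by norm_num) (by norm_num))
    (expn_ge (by norm_num) (by norm_num)) (expm_ge (by norm_num) (by norm_num) (by norm_num) (by norm_num)) (by norm_num) (by norm_num) (by norm_num)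
    (by norm_num) (by norm_num) (by norm_num)
  have hy2 : sy κ t ≤ -0.392 := syL_le h 0.36 0.38 0.84839 0.392 0.6757 0.67571 0.69703 0.73578 hk1 hk2 (by linarith) (by norm_num) (by norm_num) (by norm_num)
    (expm_ge (by norm_num) (by norm_num) (by norm_num) (by norm_num)) (expm_le (by norm_num) (by norm_num) (by norm_num)) (by norm_num)
    (by norm_num) (by norm_num) (by norm_num) (by norm_num) (by norm_num) (by norm_num)
  exact ⟨hy1, hy2⟩

theorem pc6 {β r h t κ : ℝ} (hh : h = 2 * Real.pi / (3 : ℕ)) (hβ : 0 < β) (hr : 10 ≤ r) (hκ : κ = β * r)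
    (hk1 : 0.36 ≤ κ) (hk2 : κ ≤ 0.38) (hT1 : 1.227 ≤ t + κ) (hT2 : t + κ ≤ 1.246) :
    Xf β r h t 0 ≠ 0 ∧ r * 0.133 ≤ (Ld β r h t 1 - Ld β r h t 0).im ∧
      ‖(((-1 : ℤ) : ℂ) - 1) * Ld β r h t 0 - ((-1 : ℤ) : ℂ) * Ld β r h t 1‖ ≤ r * 7.41 := by
  obtain ⟨q1, q2, q3⟩ := b3_h hh
  have hR0 := b3_R0 hβ hr hκ
  have hR := b3_R hβ hr hκ (by linarith)
  have hD1 : DomR κ t := b3_dom (by linarith) (by linarith) (Or.inr (by linarith))
  have hD0 : DomR κ (t - h) := b3_dom (by linarith) (by linarith) (Or.inr (by linarith))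
  have y1 := yA6 hD1 hk1 hk2 (by linarith) (by linarith)
  have y0 := yB6 hD0 hk1 hk2 (by linarith) (by linarith)
  have j1 := T3_03_d1_2 hD1 hβ hk1 hk2 (by linarith) (by linarith) hR0 hR
  exact b3_piece 0.36 0.38 0.229 0.254 0.241 0.78584 0.79533 0.7757 0.3023 1.5399 1.5949 0.06 0.04 0.04 0.6945 0.1692 0 0 (-0.452) (-0.392) (-0.422) 1.525 1.57146 0.5972 0.4154 0.05 0.145 0.15 3.4118 3.1614 0.9637 1.3855 0.133 7.41
    hβ hr hκ (by norm_num) hk1 hk2 hD1 hD0 j1 (j1 _ (by rw [sub_self, norm_zero]; norm_num))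
    (T3_03_d0_2 hD0 hβ hk1 hk2 (by linarith) (by linarith) hR0 hR)
    (T3_03_p0 hD0 hβ hk1 hk2 (by linarith) (by linarith) hR0 hR)
    y1.1 y1.2 y0.1 y0.2 (by norm_num)
    (ex_um 0.229 (by norm_num) (by norm_num) (by norm_num) (by norm_num)) (ex_um 0.254 (by norm_num) (by norm_num) (by norm_num) (by norm_num)) (ex_lm 0.241 (by norm_num) (by norm_num) (by norm_num) (by norm_num) (by norm_num)) (by norm_num) (by norm_num) (by norm_num) (by norm_num) (by norm_num) (by norm_num) (by norm_num) (by norm_num)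
    (by norm_num) (by norm_num) (by norm_num) (by norm_num) (by norm_num) (by norm_num) (by norm_num) (by norm_num) (by norm_num) (by norm_num)
    (ex_up 0.452 (by norm_num) (by norm_num) (by norm_num) (by norm_num)) (ex_lp 0.422 (by norm_num) (by norm_num) (by norm_num)) (by norm_num) (by norm_num) (by norm_num) (by norm_num) (by norm_num) (by norm_num)
    (by norm_num) (by norm_num) (by norm_num) (by norm_num) (by norm_num) (by norm_num) (by norm_num) (by norm_num) (by norm_num) (by norm_num) (by norm_num)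
    (by norm_num) (by norm_num) (by norm_num) (by norm_num)

private theorem yA7 {κ t : ℝ} (h : DomR κ t) (hk1 : 0.36 ≤ κ) (hk2 : κ ≤ 0.38) (ht1 : 1.246 ≤ t + κ) (ht2 : t + κ ≤ 1.266) :
    0.229 ≤ sy κ t ∧ sy κ t ≤ 0.256 := by
  have hy1 : 0.229 ≤ sy κ t := syR_ge h 0.36 0.38 1.246 0.229 1.25734 1.25735 0.75771 0.79982 hk1 hk2 (by linarith) (by norm_num) (by norm_num)
    (expn_ge (by norm_num) (by norm_num)) (expn_le (by norm_num) (by norm_num) (by norm_num)) (by norm_num)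
    (by norm_num) (by norm_num) (by norm_num) (by norm_num) (by norm_num) (by norm_num)
  have hy2 : sy κ t ≤ 0.256 := syR_ang2 h 0.36 0.38 1.266 1.055 0.4952 0.8702 0.256 0.77415 1.29175 hk1 hk2 (by linarith) (by norm_num) (by norm_num) (by norm_num)
    (cos_le_num (by norm_num)) (sin_le_num (by norm_num) (by norm_num)) (expm_le (by norm_num) (by norm_num) (by norm_num))
    (expn_ge (by norm_num) (by norm_num)) (by norm_num) (by norm_num) (by norm_num) (by norm_num) (by norm_num)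
  exact ⟨hy1, hy2⟩

private theorem yB7 {κ t : ℝ} (h : DomR κ t) (hk1 : 0.36 ≤ κ) (hk2 : κ ≤ 0.38) (ht1 : -0.8484 ≤ t + κ) (ht2 : t + κ ≤ -0.82839) :
    (-0.436) ≤ sy κ t ∧ sy κ t ≤ (-0.379) := by
  have hy1 : -0.436 ≤ sy κ t := syL_ang2 h 0.36 0.38 0.8484 0.835 0.6711 0.7414 0.436 1.5465 0.64661 hk1 hk2 (by linarith) (by norm_num) (by norm_num) (by norm_num) (by norm_num)
    (cos_ge_num (by norm_num) (by norm_num)) (sin_le_num (by norm_num) (by norm_num))
    (expn_ge (by norm_num) (by norm_num)) (expm_ge (by norm_num) (by norm_num) (by norm_num) (by norm_num)) (by norm_num) (by norm_num) (by norm_num)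
    (by norm_num) (by norm_num) (by norm_num)
  have hy2 : sy κ t ≤ -0.379 := syL_le h 0.36 0.38 0.82839 0.379 0.68454 0.68455 0.68273 0.72068 hk1 hk2 (by linarith) (by norm_num) (by norm_num) (by norm_num)
    (expm_ge (by norm_num) (by norm_num) (by norm_num) (by norm_num)) (expm_le (by norm_num) (by norm_num) (by norm_num)) (by norm_num)
    (by norm_num) (by norm_num) (by norm_num) (by norm_num) (by norm_num) (by norm_num)
  exact ⟨hy1, hy2⟩

theorem pc7 {β r h t κ : ℝ} (hh : h = 2 * Real.pi / (3 : ℕ)) (hβ : 0 < β) (hr : 10 ≤ r) (hκ : κ = β * r)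
    (hk1 : 0.36 ≤ κ) (hk2 : κ ≤ 0.38) (hT1 : 1.246 ≤ t + κ) (hT2 : t + κ ≤ 1.266) :
    Xf β r h t 0 ≠ 0 ∧ r * 0.133 ≤ (Ld β r h t 1 - Ld β r h t 0).im ∧
      ‖(((-1 : ℤ) : ℂ) - 1) * Ld β r h t 0 - ((-1 : ℤ) : ℂ) * Ld β r h t 1‖ ≤ r * 7.41 := by
  obtain ⟨q1, q2, q3⟩ := b3_h hh
  have hR0 := b3_R0 hβ hr hκ
  have hR := b3_R hβ hr hκ (by linarith)
  have hD1 : DomR κ t := b3_dom (by linarith) (by linarith) (Or.inr (by linarith))
  have hD0 : DomR κ (t - h) := b3_dom (by linarith) (by linarith) (Or.inr (by linarith))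
  have y1 := yA7 hD1 hk1 hk2 (by linarith) (by linarith)
  have y0 := yB7 hD0 hk1 hk2 (by linarith) (by linarith)
  have j1 := T3_03_d1_2 hD1 hβ hk1 hk2 (by linarith) (by linarith) hR0 hR
  exact b3_piece 0.36 0.38 0.229 0.256 0.242 0.78505 0.79533 0.77415 0.3023 1.5399 1.5986 0.06 0.04 0.04 0.6945 0.1692 0 0 (-0.436) (-0.379) (-0.407) 1.5023 1.54651 0.5877 0.4374 0.05 0.145 0.15 3.4118 3.0318 0.9198 1.2359 0.133 7.41
    hβ hr hκ (by norm_num) hk1 hk2 hD1 hD0 j1 (j1 _ (by rw [sub_self, norm_zero]; norm_num))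
    (T3_03_d0_2 hD0 hβ hk1 hk2 (by linarith) (by linarith) hR0 hR)
    (T3_03_p0 hD0 hβ hk1 hk2 (by linarith) (by linarith) hR0 hR)
    y1.1 y1.2 y0.1 y0.2 (by norm_num)
    (ex_um 0.229 (by norm_num) (by norm_num) (by norm_num) (by norm_num)) (ex_um 0.256 (by norm_num) (by norm_num) (by norm_num) (by norm_num)) (ex_lm 0.242 (by norm_num) (by norm_num) (by norm_num) (by norm_num) (by norm_num)) (by norm_num) (by norm_num) (by norm_num) (by norm_num) (by norm_num) (by norm_num) (by norm_num) (by norm_num)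
    (by norm_num) (by norm_num) (by norm_num) (by norm_num) (by norm_num) (by norm_num) (by norm_num) (by norm_num) (by norm_num) (by norm_num)
    (ex_up 0.436 (by norm_num) (by norm_num) (by norm_num) (by norm_num)) (ex_lp 0.407 (by norm_num) (by norm_num) (by norm_num)) (by norm_num) (by norm_num) (by norm_num) (by norm_num) (by norm_num) (by norm_num)
    (by norm_num) (by norm_num) (by norm_num) (by norm_num) (by norm_num) (by norm_num) (by norm_num) (by norm_num) (by norm_num) (by norm_num) (by norm_num)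
    (by norm_num) (by norm_num) (by norm_num) (by norm_num)

private theorem yA8 {κ t : ℝ} (h : DomR κ t) (hk1 : 0.36 ≤ κ) (hk2 : κ ≤ 0.38) (ht1 : 1.266 ≤ t + κ) (ht2 : t + κ ≤ 1.285) :
    0.229 ≤ sy κ t ∧ sy κ t ≤ 0.257 := by
  have hy1 : 0.229 ≤ sy κ t := syR_ge h 0.36 0.38 1.266 0.229 1.25734 1.25735 0.75771 0.79982 hk1 hk2 (by linarith) (by norm_num) (by norm_num)
    (expn_ge (by norm_num) (by norm_num)) (expn_le (by norm_num) (by norm_num) (by norm_num)) (by norm_num)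
    (by norm_num) (by norm_num) (by norm_num) (by norm_num) (by norm_num) (by norm_num)
  have hy2 : sy κ t ≤ 0.257 := syR_ang2 h 0.36 0.38 1.285 1.063 0.4883 0.8742 0.257 0.77337 1.29304 hk1 hk2 (by linarith) (by norm_num) (by norm_num) (by norm_num)
    (cos_le_num (by norm_num)) (sin_le_num (by norm_num) (by norm_num)) (expm_le (by norm_num) (by norm_num) (by norm_num))
    (expn_ge (by norm_num) (by norm_num)) (by norm_num) (by norm_num) (by norm_num) (by norm_num) (by norm_num)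
  exact ⟨hy1, hy2⟩

private theorem yB8 {κ t : ℝ} (h : DomR κ t) (hk1 : 0.36 ≤ κ) (hk2 : κ ≤ 0.38) (ht1 : -0.8284 ≤ t + κ) (ht2 : t + κ ≤ -0.80939) :
    (-0.42) ≤ sy κ t ∧ sy κ t ≤ (-0.367) := by
  have hy1 : -0.42 ≤ sy κ t := syL_ang2 h 0.36 0.38 0.8284 0.812 0.688 0.7258 0.42 1.52196 0.65704 hk1 hk2 (by linarith) (by norm_num) (by norm_num) (by norm_num) (by norm_num)
    (cos_ge_num (by norm_num) (by norm_num)) (sin_le_num (by norm_num) (by norm_num))
    (expn_ge (by norm_num) (by norm_num)) (expm_ge (by norm_num) (by norm_num) (by norm_num) (by norm_num)) (by norm_num) (by norm_num) (by norm_num)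
    (by norm_num) (by norm_num) (by norm_num)
  have hy2 : sy κ t ≤ -0.367 := syL_le h 0.36 0.38 0.80939 0.367 0.6928 0.69281 0.66909 0.70629 hk1 hk2 (by linarith) (by norm_num) (by norm_num) (by norm_num)
    (expm_ge (by norm_num) (by norm_num) (by norm_num) (by norm_num)) (expm_le (by norm_num) (by norm_num) (by norm_num)) (by norm_num)
    (by norm_num) (by norm_num) (by norm_num) (by norm_num) (by norm_num) (by norm_num)
  exact ⟨hy1, hy2⟩

theorem pc8 {β r h t κ : ℝ} (hh : h = 2 * Real.pi / (3 : ℕ)) (hβ : 0 < β) (hr : 10 ≤ r) (hκ : κ = β * r)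
    (hk1 : 0.36 ≤ κ) (hk2 : κ ≤ 0.38) (hT1 : 1.266 ≤ t + κ) (hT2 : t + κ ≤ 1.285) :
    Xf β r h t 0 ≠ 0 ∧ r * 0.133 ≤ (Ld β r h t 1 - Ld β r h t 0).im ∧
      ‖(((-1 : ℤ) : ℂ) - 1) * Ld β r h t 0 - ((-1 : ℤ) : ℂ) * Ld β r h t 1‖ ≤ r * 7.41 := by
  obtain ⟨q1, q2, q3⟩ := b3_h hh
  have hR0 := b3_R0 hβ hr hκ
  have hR := b3_R hβ hr hκ (by linarith)
  have hD1 : DomR κ t := b3_dom (by linarith) (by linarith) (Or.inr (by linarith))
  have hD0 : DomR κ (t - h) := b3_dom (by linarith) (by linarith) (Or.inr (by linarith))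
  have y1 := yA8 hD1 hk1 hk2 (by linarith) (by linarith)
  have y0 := yB8 hD0 hk1 hk2 (by linarith) (by linarith)
  have j1 := T3_03_d1_2 hD1 hβ hk1 hk2 (by linarith) (by linarith) hR0 hR
  exact b3_piece 0.36 0.38 0.229 0.257 0.243 0.78427 0.79533 0.77337 0.3023 1.5399 1.6004 0.06 0.04 0.04 0.6945 0.1692 0 0 (-0.42) (-0.367) (-0.394) 1.4829 1.52197 0.5784 0.4598 0.05 0.145 0.15 3.4118 2.9103 0.8767 1.1029 0.133 7.41
    hβ hr hκ (by norm_num) hk1 hk2 hD1 hD0 j1 (j1 _ (by rw [sub_self, norm_zero]; norm_num))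
    (T3_03_d0_2 hD0 hβ hk1 hk2 (by linarith) (by linarith) hR0 hR)
    (T3_03_p0 hD0 hβ hk1 hk2 (by linarith) (by linarith) hR0 hR)
    y1.1 y1.2 y0.1 y0.2 (by norm_num)
    (ex_um 0.229 (by norm_num) (by norm_num) (by norm_num) (by norm_num)) (ex_um 0.257 (by norm_num) (by norm_num) (by norm_num) (by norm_num)) (ex_lm 0.243 (by norm_num) (by norm_num) (by norm_num) (by norm_num) (by norm_num)) (by norm_num) (by norm_num) (by norm_num) (by norm_num) (by norm_num) (by norm_num) (by norm_num) (by norm_num)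
    (by norm_num) (by norm_num) (by norm_num) (by norm_num) (by norm_num) (by norm_num) (by norm_num) (by norm_num) (by norm_num) (by norm_num)
    (ex_up 0.42 (by norm_num) (by norm_num) (by norm_num) (by norm_num)) (ex_lp 0.394 (by norm_num) (by norm_num) (by norm_num)) (by norm_num) (by norm_num) (by norm_num) (by norm_num) (by norm_num) (by norm_num)
    (by norm_num) (by norm_num) (by norm_num) (by norm_num) (by norm_num) (by norm_num) (by norm_num) (by norm_num) (by norm_num) (by norm_num) (by norm_num)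
    (by norm_num) (by norm_num) (by norm_num) (by norm_num)

private theorem yA9 {κ t : ℝ} (h : DomR κ t) (hk1 : 0.36 ≤ κ) (hk2 : κ ≤ 0.38) (ht1 : 1.285 ≤ t + κ) (ht2 : t + κ ≤ 1.304) :
    0.229 ≤ sy κ t ∧ sy κ t ≤ 0.259 := by
  have hy1 : 0.229 ≤ sy κ t := syR_ge h 0.36 0.38 1.285 0.229 1.25734 1.25735 0.75771 0.79982 hk1 hk2 (by linarith) (by norm_num) (by norm_num)
    (expn_ge (by norm_num) (by norm_num)) (expn_le (by norm_num) (by norm_num) (by norm_num)) (by norm_num)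
    (by norm_num) (by norm_num) (by norm_num) (by norm_num) (by norm_num) (by norm_num)
  have hy2 : sy κ t ≤ 0.259 := syR_ang2 h 0.36 0.38 1.304 1.081 0.4727 0.8828 0.259 0.77183 1.29563 hk1 hk2 (by linarith) (by norm_num) (by norm_num) (by norm_num)
    (cos_le_num (by norm_num)) (sin_le_num (by norm_num) (by norm_num)) (expm_le (by norm_num) (by norm_num) (by norm_num))
    (expn_ge (by norm_num) (by norm_num)) (by norm_num) (by norm_num) (by norm_num) (by norm_num) (by norm_num)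
  exact ⟨hy1, hy2⟩

private theorem yB9 {κ t : ℝ} (h : DomR κ t) (hk1 : 0.36 ≤ κ) (hk2 : κ ≤ 0.38) (ht1 : -0.8094 ≤ t + κ) (ht2 : t + κ ≤ -0.79039) :
    (-0.405) ≤ sy κ t ∧ sy κ t ≤ (-0.355) := by
  have hy1 : -0.405 ≤ sy κ t := syL_ang2 h 0.36 0.38 0.8094 0.79 0.7038 0.7104 0.405 1.4993 0.66697 hk1 hk2 (by linarith) (by norm_num) (by norm_num) (by norm_num) (by norm_num)
    (cos_ge_num (by norm_num) (by norm_num)) (sin_le_num (by norm_num) (by norm_num))
    (expn_ge (by norm_num) (by norm_num)) (expm_ge (by norm_num) (by norm_num) (by norm_num) (by norm_num)) (by norm_num) (by norm_num) (by norm_num)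
    (by norm_num) (by norm_num) (by norm_num)
  have hy2 : sy κ t ≤ -0.355 := syL_le h 0.36 0.38 0.79039 0.355 0.70117 0.70118 0.65504 0.69145 hk1 hk2 (by linarith) (by norm_num) (by norm_num) (by norm_num)
    (expm_ge (by norm_num) (by norm_num) (by norm_num) (by norm_num)) (expm_le (by norm_num) (by norm_num) (by norm_num)) (by norm_num)
    (by norm_num) (by norm_num) (by norm_num) (by norm_num) (by norm_num) (by norm_num)
  exact ⟨hy1, hy2⟩

theorem pc9 {β r h t κ : ℝ} (hh : h = 2 * Real.pi / (3 : ℕ)) (hβ : 0 < β) (hr : 10 ≤ r) (hκ : κ = β * r)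
    (hk1 : 0.36 ≤ κ) (hk2 : κ ≤ 0.38) (hT1 : 1.285 ≤ t + κ) (hT2 : t + κ ≤ 1.304) :
    Xf β r h t 0 ≠ 0 ∧ r * 0.133 ≤ (Ld β r h t 1 - Ld β r h t 0).im ∧
      ‖(((-1 : ℤ) : ℂ) - 1) * Ld β r h t 0 - ((-1 : ℤ) : ℂ) * Ld β r h t 1‖ ≤ r * 7.41 := by
  obtain ⟨q1, q2, q3⟩ := b3_h hh
  have hR0 := b3_R0 hβ hr hκ
  have hR := b3_R hβ hr hκ (by linarith)
  have hD1 : DomR κ t := b3_dom (by linarith) (by linarith) (Or.inr (by linarith))
  have hD0 : DomR κ (t - h) := b3_dom (by linarith) (by linarith) (Or.inr (by linarith))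
  have y1 := yA9 hD1 hk1 hk2 (by linarith) (by linarith)
  have y0 := yB9 hD0 hk1 hk2 (by linarith) (by linarith)
  have j1 := T3_03_d1_2 hD1 hβ hk1 hk2 (by linarith) (by linarith) hR0 hR
  exact b3_piece 0.36 0.38 0.229 0.259 0.244 0.78348 0.79533 0.77183 0.3023 1.5399 1.6041 0.06 0.04 0.04 0.6945 0.1692 0 0 (-0.405) (-0.355) (-0.38) 1.46228 1.49931 0.5698 0.4809 0.05 0.145 0.15 3.4118 2.8034 0.8413 0.9969 0.133 7.41
    hβ hr hκ (by norm_num) hk1 hk2 hD1 hD0 j1 (j1 _ (by rw [sub_self, norm_zero]; norm_num))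
    (T3_03_d0_2 hD0 hβ hk1 hk2 (by linarith) (by linarith) hR0 hR)
    (T3_03_p0 hD0 hβ hk1 hk2 (by linarith) (by linarith) hR0 hR)
    y1.1 y1.2 y0.1 y0.2 (by norm_num)
    (ex_um 0.229 (by norm_num) (by norm_num) (by norm_num) (by norm_num)) (ex_um 0.259 (by norm_num) (by norm_num) (by norm_num) (by norm_num)) (ex_lm 0.244 (by norm_num) (by norm_num) (by norm_num) (by norm_num) (by norm_num)) (by norm_num) (by norm_num) (by norm_num) (by norm_num) (by norm_num) (by norm_num) (by norm_num) (by norm_num)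
    (by norm_num) (by norm_num) (by norm_num) (by norm_num) (by norm_num) (by norm_num) (by norm_num) (by norm_num) (by norm_num) (by norm_num)
    (ex_up 0.405 (by norm_num) (by norm_num) (by norm_num) (by norm_num)) (ex_lp 0.38 (by norm_num) (by norm_num) (by norm_num)) (by norm_num) (by norm_num) (by norm_num) (by norm_num) (by norm_num) (by norm_num)
    (by norm_num) (by norm_num) (by norm_num) (by norm_num) (by norm_num) (by norm_num) (by norm_num) (by norm_num) (by norm_num) (by norm_num) (by norm_num)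
    (by norm_num) (by norm_num) (by norm_num) (by norm_num)

private theorem yA10 {κ t : ℝ} (h : DomR κ t) (hk1 : 0.36 ≤ κ) (hk2 : κ ≤ 0.38) (ht1 : 1.304 ≤ t + κ) (ht2 : t + κ ≤ 1.324) :
    0.229 ≤ sy κ t ∧ sy κ t ≤ 0.261 := by
  have hy1 : 0.229 ≤ sy κ t := syR_ge h 0.36 0.38 1.304 0.229 1.25734 1.25735 0.75771 0.79982 hk1 hk2 (by linarith) (by norm_num) (by norm_num)
    (expn_ge (by norm_num) (by norm_num)) (expn_le (by norm_num) (by norm_num) (by norm_num)) (by norm_num)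
    (by norm_num) (by norm_num) (by norm_num) (by norm_num) (by norm_num) (by norm_num)
  have hy2 : sy κ t ≤ 0.261 := syR_ang2 h 0.36 0.38 1.324 1.1 0.4561 0.8916 0.261 0.77029 1.29822 hk1 hk2 (by linarith) (by norm_num) (by norm_num) (by norm_num)
    (cos_le_num (by norm_num)) (sin_le_num (by norm_num) (by norm_num)) (expm_le (by norm_num) (by norm_num) (by norm_num))
    (expn_ge (by norm_num) (by norm_num)) (by norm_num) (by norm_num) (by norm_num) (by norm_num) (by norm_num)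
  exact ⟨hy1, hy2⟩

private theorem yB10 {κ t : ℝ} (h : DomR κ t) (hk1 : 0.36 ≤ κ) (hk2 : κ ≤ 0.38) (ht1 : -0.7904 ≤ t + κ) (ht2 : t + κ ≤ -0.77039) :
    (-0.39) ≤ sy κ t ∧ sy κ t ≤ (-0.343) := by
  have hy1 : -0.39 ≤ sy κ t := syL_ang2 h 0.36 0.38 0.7904 0.768 0.7192 0.6948 0.39 1.47698 0.67705 hk1 hk2 (by linarith) (by norm_num) (by norm_num) (by norm_num) (by norm_num)
    (cos_ge_num (by norm_num) (by norm_num)) (sin_le_num (by norm_num) (by norm_num))
    (expn_ge (by norm_num) (by norm_num)) (expm_ge (by norm_num) (by norm_num) (by norm_num) (by norm_num)) (by norm_num) (by norm_num) (by norm_num)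
    (by norm_num) (by norm_num) (by norm_num)
  have hy2 : sy κ t ≤ -0.343 := syL_le h 0.36 0.38 0.77039 0.343 0.70963 0.70964 0.64053 0.67613 hk1 hk2 (by linarith) (by norm_num) (by norm_num) (by norm_num)
    (expm_ge (by norm_num) (by norm_num) (by norm_num) (by norm_num)) (expm_le (by norm_num) (by norm_num) (by norm_num)) (by norm_num)
    (by norm_num) (by norm_num) (by norm_num) (by norm_num) (by norm_num) (by norm_num)
  exact ⟨hy1, hy2⟩

theorem pc10 {β r h t κ : ℝ} (hh : h = 2 * Real.pi / (3 : ℕ)) (hβ : 0 < β) (hr : 10 ≤ r) (hκ : κ = β * r)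
    (hk1 : 0.36 ≤ κ) (hk2 : κ ≤ 0.38) (hT1 : 1.304 ≤ t + κ) (hT2 : t + κ ≤ 1.324) :
    Xf β r h t 0 ≠ 0 ∧ r * 0.133 ≤ (Ld β r h t 1 - Ld β r h t 0).im ∧
      ‖(((-1 : ℤ) : ℂ) - 1) * Ld β r h t 0 - ((-1 : ℤ) : ℂ) * Ld β r h t 1‖ ≤ r * 7.41 := by
  obtain ⟨q1, q2, q3⟩ := b3_h hh
  have hR0 := b3_R0 hβ hr hκ
  have hR := b3_R hβ hr hκ (by linarith)
  have hD1 : DomR κ t := b3_dom (by linarith) (by linarith) (Or.inr (by linarith))
  have hD0 : DomR κ (t - h) := b3_dom (by linarith) (by linarith) (Or.inr (by linarith))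
  have y1 := yA10 hD1 hk1 hk2 (by linarith) (by linarith)
  have y0 := yB10 hD0 hk1 hk2 (by linarith) (by linarith)
  have j1 := T3_03_d1_2 hD1 hβ hk1 hk2 (by linarith) (by linarith) hR0 hR
  exact b3_piece 0.36 0.38 0.229 0.261 0.245 0.7827 0.79533 0.77029 0.3023 1.5399 1.6077 0.06 0.04 0.04 0.6945 0.1692 0 0 (-0.39) (-0.343) (-0.366) 1.44195 1.47699 0.5613 0.5024 0.05 0.145 0.15 3.4118 2.7019 0.8078 0.9026 0.133 7.41
    hβ hr hκ (by norm_num) hk1 hk2 hD1 hD0 j1 (j1 _ (by rw [sub_self, norm_zero]; norm_num))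
    (T3_03_d0_2 hD0 hβ hk1 hk2 (by linarith) (by linarith) hR0 hR)
    (T3_03_p0 hD0 hβ hk1 hk2 (by linarith) (by linarith) hR0 hR)
    y1.1 y1.2 y0.1 y0.2 (by norm_num)
    (ex_um 0.229 (by norm_num) (by norm_num) (by norm_num) (by norm_num)) (ex_um 0.261 (by norm_num) (by norm_num) (by norm_num) (by norm_num)) (ex_lm 0.245 (by norm_num) (by norm_num) (by norm_num) (by norm_num) (by norm_num)) (by norm_num) (by norm_num) (by norm_num) (by norm_num) (by norm_num) (by norm_num) (by norm_num) (by norm_num)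
    (by norm_num) (by norm_num) (by norm_num) (by norm_num) (by norm_num) (by norm_num) (by norm_num) (by norm_num) (by norm_num) (by norm_num)
    (ex_up 0.39 (by norm_num) (by norm_num) (by norm_num) (by norm_num)) (ex_lp 0.366 (by norm_num) (by norm_num) (by norm_num)) (by norm_num) (by norm_num) (by norm_num) (by norm_num) (by norm_num) (by norm_num)
    (by norm_num) (by norm_num) (by norm_num) (by norm_num) (by norm_num) (by norm_num) (by norm_num) (by norm_num) (by norm_num) (by norm_num) (by norm_num)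
    (by norm_num) (by norm_num) (by norm_num) (by norm_num)

private theorem yA11 {κ t : ℝ} (h : DomR κ t) (hk1 : 0.36 ≤ κ) (hk2 : κ ≤ 0.38) (ht1 : 1.324 ≤ t + κ) (ht2 : t + κ ≤ 1.343) :
    0.229 ≤ sy κ t ∧ sy κ t ≤ 0.262 := by
  have hy1 : 0.229 ≤ sy κ t := syR_ge h 0.36 0.38 1.324 0.229 1.25734 1.25735 0.75771 0.79982 hk1 hk2 (by linarith) (by norm_num) (by norm_num)
    (expn_ge (by norm_num) (by norm_num)) (expn_le (by norm_num) (by norm_num) (by norm_num)) (by norm_num)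
    (by norm_num) (by norm_num) (by norm_num) (by norm_num) (by norm_num) (by norm_num)
  have hy2 : sy κ t ≤ 0.262 := syR_ang2 h 0.36 0.38 1.343 1.109 0.4481 0.8957 0.262 0.76952 1.29952 hk1 hk2 (by linarith) (by norm_num) (by norm_num) (by norm_num)
    (cos_le_num (by norm_num)) (sin_le_num (by norm_num) (by norm_num)) (expm_le (by norm_num) (by norm_num) (by norm_num))
    (expn_ge (by norm_num) (by norm_num)) (by norm_num) (by norm_num) (by norm_num) (by norm_num) (by norm_num)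
  exact ⟨hy1, hy2⟩

private theorem yB11 {κ t : ℝ} (h : DomR κ t) (hk1 : 0.36 ≤ κ) (hk2 : κ ≤ 0.38) (ht1 : -0.7704 ≤ t + κ) (ht2 : t + κ ≤ -0.75139) :
    (-0.376) ≤ sy κ t ∧ sy κ t ≤ (-0.331) := by
  have hy1 : -0.376 ≤ sy κ t := syL_ang2 h 0.36 0.38 0.7704 0.746 0.7344 0.6788 0.376 1.45644 0.6866 hk1 hk2 (by linarith) (by norm_num) (by norm_num) (by norm_num) (by norm_num)
    (cos_ge_num (by norm_num) (by norm_num)) (sin_le_num (by norm_num) (by norm_num))
    (expn_ge (by norm_num) (by norm_num)) (expm_ge (by norm_num) (by norm_num) (by norm_num) (by norm_num)) (by norm_num) (by norm_num) (by norm_num)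
    (by norm_num) (by norm_num) (by norm_num)
  have hy2 : sy κ t ≤ -0.331 := syL_le h 0.36 0.38 0.75139 0.331 0.7182 0.71821 0.62558 0.66036 hk1 hk2 (by linarith) (by norm_num) (by norm_num) (by norm_num)
    (expm_ge (by norm_num) (by norm_num) (by norm_num) (by norm_num)) (expm_le (by norm_num) (by norm_num) (by norm_num)) (by norm_num)
    (by norm_num) (by norm_num) (by norm_num) (by norm_num) (by norm_num) (by norm_num)
  exact ⟨hy1, hy2⟩

theorem pc11 {β r h t κ : ℝ} (hh : h = 2 * Real.pi / (3 : ℕ)) (hβ : 0 < β) (hr : 10 ≤ r) (hκ : κ = β * r)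
    (hk1 : 0.36 ≤ κ) (hk2 : κ ≤ 0.38) (hT1 : 1.324 ≤ t + κ) (hT2 : t + κ ≤ 1.343) :
    Xf β r h t 0 ≠ 0 ∧ r * 0.133 ≤ (Ld β r h t 1 - Ld β r h t 0).im ∧
      ‖(((-1 : ℤ) : ℂ) - 1) * Ld β r h t 0 - ((-1 : ℤ) : ℂ) * Ld β r h t 1‖ ≤ r * 7.41 := by
  obtain ⟨q1, q2, q3⟩ := b3_h hh
  have hR0 := b3_R0 hβ hr hκ
  have hR := b3_R hβ hr hκ (by linarith)
  have hD1 : DomR κ t := b3_dom (by linarith) (by linarith) (Or.inr (by linarith))
  have hD0 : DomR κ (t - h) := b3_dom (by linarith) (by linarith) (Or.inr (by linarith))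
  have y1 := yA11 hD1 hk1 hk2 (by linarith) (by linarith)
  have y0 := yB11 hD0 hk1 hk2 (by linarith) (by linarith)
  have j1 := T3_03_d1_2 hD1 hβ hk1 hk2 (by linarith) (by linarith) hR0 hR
  exact b3_piece 0.36 0.38 0.229 0.262 0.245 0.7827 0.79533 0.76952 0.3023 1.5399 1.6096 0.06 0.04 0.04 0.6945 0.1692 0 0 (-0.376) (-0.331) (-0.353) 1.42333 1.45645 0.5535 0.5226 0.05 0.145 0.15 3.4118 2.6123 0.7802 0.8264 0.133 7.41
    hβ hr hκ (by norm_num) hk1 hk2 hD1 hD0 j1 (j1 _ (by rw [sub_self, norm_zero]; norm_num))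
    (T3_03_d0_2 hD0 hβ hk1 hk2 (by linarith) (by linarith) hR0 hR)
    (T3_03_p0 hD0 hβ hk1 hk2 (by linarith) (by linarith) hR0 hR)
    y1.1 y1.2 y0.1 y0.2 (by norm_num)
    (ex_um 0.229 (by norm_num) (by norm_num) (by norm_num) (by norm_num)) (ex_um 0.262 (by norm_num) (by norm_num) (by norm_num) (by norm_num)) (ex_lm 0.245 (by norm_num) (by norm_num) (by norm_num) (by norm_num) (by norm_num)) (by norm_num) (by norm_num) (by norm_num) (by norm_num) (by norm_num) (by norm_num) (by norm_num) (by norm_num)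
    (by norm_num) (by norm_num) (by norm_num) (by norm_num) (by norm_num) (by norm_num) (by norm_num) (by norm_num) (by norm_num) (by norm_num)
    (ex_up 0.376 (by norm_num) (by norm_num) (by norm_num) (by norm_num)) (ex_lp 0.353 (by norm_num) (by norm_num) (by norm_num)) (by norm_num) (by norm_num) (by norm_num) (by norm_num) (by norm_num) (by norm_num)
    (by norm_num) (by norm_num) (by norm_num) (by norm_num) (by norm_num) (by norm_num) (by norm_num) (by norm_num) (by norm_num) (by norm_num) (by norm_num)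
    (by norm_num) (by norm_num) (by norm_num) (by norm_num)

private theorem yA12 {κ t : ℝ} (h : DomR κ t) (hk1 : 0.36 ≤ κ) (hk2 : κ ≤ 0.38) (ht1 : 1.343 ≤ t + κ) (ht2 : t + κ ≤ 1.363) :
    0.229 ≤ sy κ t ∧ sy κ t ≤ 0.264 := by
  have hy1 : 0.229 ≤ sy κ t := syR_ge h 0.36 0.38 1.343 0.229 1.25734 1.25735 0.75771 0.79982 hk1 hk2 (by linarith) (by norm_num) (by norm_num)
    (expn_ge (by norm_num) (by norm_num)) (expn_le (by norm_num) (by norm_num) (by norm_num)) (by norm_num)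
    (by norm_num) (by norm_num) (by norm_num) (by norm_num) (by norm_num) (by norm_num)
  have hy2 : sy κ t ≤ 0.264 := syR_ang2 h 0.36 0.38 1.363 1.129 0.4304 0.9045 0.264 0.76798 1.30212 hk1 hk2 (by linarith) (by norm_num) (by norm_num) (by norm_num)
    (cos_le_num (by norm_num)) (sin_le_num (by norm_num) (by norm_num)) (expm_le (by norm_num) (by norm_num) (by norm_num))
    (expn_ge (by norm_num) (by norm_num)) (by norm_num) (by norm_num) (by norm_num) (by norm_num) (by norm_num)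
  exact ⟨hy1, hy2⟩

private theorem yB12 {κ t : ℝ} (h : DomR κ t) (hk1 : 0.36 ≤ κ) (hk2 : κ ≤ 0.38) (ht1 : -0.7514 ≤ t + κ) (ht2 : t + κ ≤ -0.73139) :
    (-0.362) ≤ sy κ t ∧ sy κ t ≤ (-0.32) := by
  have hy1 : -0.362 ≤ sy κ t := syL_ang2 h 0.36 0.38 0.7514 0.725 0.7484 0.6632 0.362 1.43619 0.69628 hk1 hk2 (by linarith) (by norm_num) (by norm_num) (by norm_num) (by norm_num)
    (cos_ge_num (by norm_num) (by norm_num)) (sin_le_num (by norm_num) (by norm_num))
    (expn_ge (by norm_num) (by norm_num)) (expm_ge (by norm_num) (by norm_num) (by norm_num) (by norm_num)) (by norm_num) (by norm_num) (by norm_num)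
    (by norm_num) (by norm_num) (by norm_num)
  have hy2 : sy κ t ≤ -0.32 := syL_le h 0.36 0.38 0.73139 0.32 0.72614 0.72615 0.61148 0.64547 hk1 hk2 (by linarith) (by norm_num) (by norm_num) (by norm_num)
    (expm_ge (by norm_num) (by norm_num) (by norm_num) (by norm_num)) (expm_le (by norm_num) (by norm_num) (by norm_num)) (by norm_num)
    (by norm_num) (by norm_num) (by norm_num) (by norm_num) (by norm_num) (by norm_num)
  exact ⟨hy1, hy2⟩

theorem pc12 {β r h t κ : ℝ} (hh : h = 2 * Real.pi / (3 : ℕ)) (hβ : 0 < β) (hr : 10 ≤ r) (hκ : κ = β * r)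
    (hk1 : 0.36 ≤ κ) (hk2 : κ ≤ 0.38) (hT1 : 1.343 ≤ t + κ) (hT2 : t + κ ≤ 1.363) :
    Xf β r h t 0 ≠ 0 ∧ r * 0.133 ≤ (Ld β r h t 1 - Ld β r h t 0).im ∧
      ‖(((-1 : ℤ) : ℂ) - 1) * Ld β r h t 0 - ((-1 : ℤ) : ℂ) * Ld β r h t 1‖ ≤ r * 7.41 := by
  obtain ⟨q1, q2, q3⟩ := b3_h hh
  have hR0 := b3_R0 hβ hr hκ
  have hR := b3_R hβ hr hκ (by linarith)
  have hD1 : DomR κ t := b3_dom (by linarith) (by linarith) (Or.inr (by linarith))
  have hD0 : DomR κ (t - h) := b3_dom (by linarith) (by linarith) (Or.inr (by linarith))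
  have y1 := yA12 hD1 hk1 hk2 (by linarith) (by linarith)
  have y0 := yB12 hD0 hk1 hk2 (by linarith) (by linarith)
  have j1 := T3_03_d1_2 hD1 hβ hk1 hk2 (by linarith) (by linarith) hR0 hR
  exact b3_piece 0.36 0.38 0.229 0.264 0.246 0.78192 0.79533 0.76798 0.3023 1.5399 1.6132 0.06 0.04 0.04 0.6945 0.1692 0 0 (-0.362) (-0.32) (-0.341) 1.40635 1.4362 0.5458 0.543 0.05 0.145 0.15 3.4118 2.5271 0.7524 0.7563 0.133 7.41
    hβ hr hκ (by norm_num) hk1 hk2 hD1 hD0 j1 (j1 _ (by rw [sub_self, norm_zero]; norm_num))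
    (T3_03_d0_2 hD0 hβ hk1 hk2 (by linarith) (by linarith) hR0 hR)
    (T3_03_p0 hD0 hβ hk1 hk2 (by linarith) (by linarith) hR0 hR)
    y1.1 y1.2 y0.1 y0.2 (by norm_num)
    (ex_um 0.229 (by norm_num) (by norm_num) (by norm_num) (by norm_num)) (ex_um 0.264 (by norm_num) (by norm_num) (by norm_num) (by norm_num)) (ex_lm 0.246 (by norm_num) (by norm_num) (by norm_num) (by norm_num) (by norm_num)) (by norm_num) (by norm_num) (by norm_num) (by norm_num) (by norm_num) (by norm_num) (by norm_num) (by norm_num)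
    (by norm_num) (by norm_num) (by norm_num) (by norm_num) (by norm_num) (by norm_num) (by norm_num) (by norm_num) (by norm_num) (by norm_num)
    (ex_up 0.362 (by norm_num) (by norm_num) (by norm_num) (by norm_num)) (ex_lp 0.341 (by norm_num) (by norm_num) (by norm_num)) (by norm_num) (by norm_num) (by norm_num) (by norm_num) (by norm_num) (by norm_num)
    (by norm_num) (by norm_num) (by norm_num) (by norm_num) (by norm_num) (by norm_num) (by norm_num) (by norm_num) (by norm_num) (by norm_num) (by norm_num)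
    (by norm_num) (by norm_num) (by norm_num) (by norm_num)

private theorem yA13 {κ t : ℝ} (h : DomR κ t) (hk1 : 0.36 ≤ κ) (hk2 : κ ≤ 0.38) (ht1 : 1.363 ≤ t + κ) (ht2 : t + κ ≤ 1.382) :
    0.229 ≤ sy κ t ∧ sy κ t ≤ 0.265 := by
  have hy1 : 0.229 ≤ sy κ t := syR_ge h 0.36 0.38 1.363 0.229 1.25734 1.25735 0.75771 0.79982 hk1 hk2 (by linarith) (by norm_num) (by norm_num)
    (expn_ge (by norm_num) (by norm_num)) (expn_le (by norm_num) (by norm_num) (by norm_num)) (by norm_num)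
    (by norm_num) (by norm_num) (by norm_num) (by norm_num) (by norm_num) (by norm_num)
  have hy2 : sy κ t ≤ 0.265 := syR_ang2 h 0.36 0.38 1.382 1.139 0.4215 0.9088 0.265 0.76721 1.30343 hk1 hk2 (by linarith) (by norm_num) (by norm_num) (by norm_num)
    (cos_le_num (by norm_num)) (sin_le_num (by norm_num) (by norm_num)) (expm_le (by norm_num) (by norm_num) (by norm_num))
    (expn_ge (by norm_num) (by norm_num)) (by norm_num) (by norm_num) (by norm_num) (by norm_num) (by norm_num)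
  exact ⟨hy1, hy2⟩

private theorem yB13 {κ t : ℝ} (h : DomR κ t) (hk1 : 0.36 ≤ κ) (hk2 : κ ≤ 0.38) (ht1 : -0.7314 ≤ t + κ) (ht2 : t + κ ≤ -0.71239) :
    (-0.348) ≤ sy κ t ∧ sy κ t ≤ (-0.309) := by
  have hy1 : -0.348 ≤ sy κ t := syL_ang2 h 0.36 0.38 0.7314 0.703 0.7629 0.6466 0.348 1.41623 0.70609 hk1 hk2 (by linarith) (by norm_num) (by norm_num) (by norm_num) (by norm_num)
    (cos_ge_num (by norm_num) (by norm_num)) (sin_le_num (by norm_num) (by norm_num))
    (expn_ge (by norm_num) (by norm_num)) (expm_ge (by norm_num) (by norm_num) (by norm_num) (by norm_num)) (by norm_num) (by norm_num) (by norm_num)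
    (by norm_num) (by norm_num) (by norm_num)
  have hy2 : sy κ t ≤ -0.309 := syL_le h 0.36 0.38 0.71239 0.309 0.73418 0.73419 0.597 0.63018 hk1 hk2 (by linarith) (by norm_num) (by norm_num) (by norm_num)
    (expm_ge (by norm_num) (by norm_num) (by norm_num) (by norm_num)) (expm_le (by norm_num) (by norm_num) (by norm_num)) (by norm_num)
    (by norm_num) (by norm_num) (by norm_num) (by norm_num) (by norm_num) (by norm_num)
  exact ⟨hy1, hy2⟩

theorem pc13 {β r h t κ : ℝ} (hh : h = 2 * Real.pi / (3 : ℕ)) (hβ : 0 < β) (hr : 10 ≤ r) (hκ : κ = β * r)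
    (hk1 : 0.36 ≤ κ) (hk2 : κ ≤ 0.38) (hT1 : 1.363 ≤ t + κ) (hT2 : t + κ ≤ 1.382) :
    Xf β r h t 0 ≠ 0 ∧ r * 0.133 ≤ (Ld β r h t 1 - Ld β r h t 0).im ∧
      ‖(((-1 : ℤ) : ℂ) - 1) * Ld β r h t 0 - ((-1 : ℤ) : ℂ) * Ld β r h t 1‖ ≤ r * 7.41 := by
  obtain ⟨q1, q2, q3⟩ := b3_h hh
  have hR0 := b3_R0 hβ hr hκ
  have hR := b3_R hβ hr hκ (by linarith)
  have hD1 : DomR κ t := b3_dom (by linarith) (by linarith) (Or.inr (by linarith))
  have hD0 : DomR κ (t - h) := b3_dom (by linarith) (by linarith) (Or.inr (by linarith))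
  have y1 := yA13 hD1 hk1 hk2 (by linarith) (by linarith)
  have y0 := yB13 hD0 hk1 hk2 (by linarith) (by linarith)
  have j1 := T3_03_d1_2 hD1 hβ hk1 hk2 (by linarith) (by linarith) hR0 hR
  exact b3_piece 0.36 0.38 0.229 0.265 0.247 0.78114 0.79533 0.76721 0.3023 1.5399 1.615 0.06 0.04 0.04 0.6945 0.1692 0 0 (-0.348) (-0.309) (-0.329) 1.38957 1.41624 0.5382 0.5637 0.05 0.145 0.15 3.4118 2.4458 0.7259 0.6931 0.133 7.41
    hβ hr hκ (by norm_num) hk1 hk2 hD1 hD0 j1 (j1 _ (by rw [sub_self, norm_zero]; norm_num))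
    (T3_03_d0_2 hD0 hβ hk1 hk2 (by linarith) (by linarith) hR0 hR)
    (T3_03_p0 hD0 hβ hk1 hk2 (by linarith) (by linarith) hR0 hR)
    y1.1 y1.2 y0.1 y0.2 (by norm_num)
    (ex_um 0.229 (by norm_num) (by norm_num) (by norm_num) (by norm_num)) (ex_um 0.265 (by norm_num) (by norm_num) (by norm_num) (by norm_num)) (ex_lm 0.247 (by norm_num) (by norm_num) (by norm_num) (by norm_num) (by norm_num)) (by norm_num) (by norm_num) (by norm_num) (by norm_num) (by norm_num) (by norm_num) (by norm_num) (by norm_num)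
    (by norm_num) (by norm_num) (by norm_num) (by norm_num) (by norm_num) (by norm_num) (by norm_num) (by norm_num) (by norm_num) (by norm_num)
    (ex_up 0.348 (by norm_num) (by norm_num) (by norm_num) (by norm_num)) (ex_lp 0.329 (by norm_num) (by norm_num) (by norm_num)) (by norm_num) (by norm_num) (by norm_num) (by norm_num) (by norm_num) (by norm_num)
    (by norm_num) (by norm_num) (by norm_num) (by norm_num) (by norm_num) (by norm_num) (by norm_num) (by norm_num) (by norm_num) (by norm_num) (by norm_num)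
    (by norm_num) (by norm_num) (by norm_num) (by norm_num)

theorem innS {β r h t κ : ℝ} (hh : h = 2 * Real.pi / (3 : ℕ)) (hβ : 0 < β) (hr : 10 ≤ r) (hκ : κ = β * r)
    (hk1 : 0.36 ≤ κ) (hk2 : κ ≤ 0.38) (hT1 : 1.127 ≤ t + κ) (hT2 : t + κ ≤ 1.382) :
    Xf β r h t 0 ≠ 0 ∧ r * 0.133 ≤ (Ld β r h t 1 - Ld β r h t 0).im ∧
      ‖(((-1 : ℤ) : ℂ) - 1) * Ld β r h t 0 - ((-1 : ℤ) : ℂ) * Ld β r h t 1‖ ≤ r * 7.41 := by
  rcases le_total (t + κ) 1.142 with f0 | g0
  · exact pc0 hh hβ hr hκ hk1 hk2 hT1 f0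
  rcases le_total (t + κ) 1.157 with f1 | g1
  · exact pc1 hh hβ hr hκ hk1 hk2 g0 f1
  rcases le_total (t + κ) 1.175 with f2 | g2
  · exact pc2 hh hβ hr hκ hk1 hk2 g1 f2
  rcases le_total (t + κ) 1.192 with f3 | g3
  · exact pc3 hh hβ hr hκ hk1 hk2 g2 f3
  rcases le_total (t + κ) 1.21 with f4 | g4
  · exact pc4 hh hβ hr hκ hk1 hk2 g3 f4
  rcases le_total (t + κ) 1.227 with f5 | g5
  · exact pc5 hh hβ hr hκ hk1 hk2 g4 f5
  rcases le_total (t + κ) 1.246 with f6 | g6
  · exact pc6 hh hβ hr hκ hk1 hk2 g5 f6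
  rcases le_total (t + κ) 1.266 with f7 | g7
  · exact pc7 hh hβ hr hκ hk1 hk2 g6 f7
  rcases le_total (t + κ) 1.285 with f8 | g8
  · exact pc8 hh hβ hr hκ hk1 hk2 g7 f8
  rcases le_total (t + κ) 1.304 with f9 | g9
  · exact pc9 hh hβ hr hκ hk1 hk2 g8 f9
  rcases le_total (t + κ) 1.324 with f10 | g10
  · exact pc10 hh hβ hr hκ hk1 hk2 g9 f10
  rcases le_total (t + κ) 1.343 with f11 | g11
  · exact pc11 hh hβ hr hκ hk1 hk2 g10 f11
  rcases le_total (t + κ) 1.363 with f12 | g12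
  · exact pc12 hh hβ hr hκ hk1 hk2 g11 f12
  exact pc13 hh hβ hr hκ hk1 hk2 g12 hT2

theorem circ {p : ℤ} (hp : IsCoprime (3 : ℤ) p) {β r : ℝ} (hβ : 0 < β) (hr : 10 ≤ r) (hk1 : 0.36 ≤ β * r)
    (hk2 : β * r ≤ 0.38) : Circ (2 * Real.pi * p / (3 : ℕ) + β) r := by
  obtain ⟨κ, hκ⟩ : ∃ κ, κ = β * r := ⟨_, rfl⟩
  rw [← hκ] at hk1 hk2
  refine circ3 hp hr (h := 2 * Real.pi / (3 : ℕ)) (κ := κ) rfl 1.127 1.382 1.0176 0.133 0.01243 0.01243 7.41 (by norm_num) (by norm_num) (by norm_num)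
    (by norm_num) (by norm_num) ?_ ?_ ?_ ?_ ?_ (by norm_num) (by norm_num)
  · intro t h1 h2
    exact (innS rfl hβ hr hκ hk1 hk2 h1 h2).1
  · intro t h1 h2
    exact (innE rfl hβ hr hκ hk1 hk2 h1 h2).1
  · intro t h1 h2
    exact (innE rfl hβ hr hκ hk1 hk2 h1 h2).2
  · intro t h1 h2
    exact (innS rfl hβ hr hκ hk1 hk2 h1 h2).2
  · intro t h1 h2 h3
    rcases h3 with h3 | h3
    · exact left rfl hβ hr hκ hk1 hk2 h1 h3
    · exact right0 rfl hβ hr hκ hk1 hk2 h3 h2

end B3_03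

end Sok
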