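import Pool.Agent.Lib.MP_816dec_an.JBG2

/-!
MP_816dec_an (A3, row R1): b = 3, J tables of the cell 04.
-/

set_option autoImplicit false
set_option maxHeartbeats 4000000

open Complex Set

namespace Sok

private theorem T3_04_p1_b0_0 {β x y : ℝ} (hβ : 0 < β) (hN : β * 24.999 ≤ 1) (hx1 : 0.1781 ≤ x) (hx2 : x ≤ 0.4001)
    (hy1 : -0 ≤ y) (hy2 : y ≤ 0.24) : ‖HH β (x + y * I) - 1‖ ≤ 0.015 := by
  refine le_epsJ (C := 0.3729) (N0 := 24.999) (J_boxp 0.1781 0.4001 0 0.24 0.24 0.8354 0.4666 1.303 1.495 0.4554 4.9999 24.999 0.5586 2.057 1.282 1.2662 0.4176 0.3399 1.0692 3.8548 0.417 0.7221 0.8975 2.669 0.00002928 0.0002042 0.0000003101 0.0000003101 0.00002972 0.0000003101 0.0000003101 0.0000003101 0.3729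
    hβ hN hx1 hx2 hy1 hy2 (by norm_num) (by norm_num) (by linarith) (by norm_num) (by norm_num) (by norm_num) (by norm_num) (by norm_num) (by norm_num) (by norm_num) (by norm_num) (by norm_num) (by norm_num) (by norm_num) (by norm_num) (by norm_num) (by norm_num) (by norm_num) (by norm_num) (by norm_num) (by norm_num) (by norm_num) (by norm_num) (by norm_num)
    (cube_sqrt_geJ (s := 0.9021) (by norm_num) (by norm_num) (by norm_num) (by norm_num))
    (cube_sqrt_geJ (s := 0.9651) (by norm_num) (by norm_num) (by norm_num) (by norm_num))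
    (by norm_num) (by norm_num) (by norm_num) (by norm_num) (by norm_num) (by norm_num) (by norm_num) (by norm_num) (by norm_num) (by norm_num) (by norm_num) (by norm_num) (by norm_num) (by norm_num) (by norm_num) (by norm_num) (by norm_num) (by norm_num)
    (exp_neg_leJ (r := 0.439) 10 (by norm_num) (by norm_num) (by norm_num) (by norm_num))
    (exp_neg_leJ (r := 0.497) 8 (by norm_num) (by norm_num) (by norm_num) (by norm_num))
    (exp_neg_leJ (r := 0.99) 14 (by norm_num) (by norm_num) (by norm_num) (by norm_num))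
    (exp_neg_leJ (r := 0.99) 14 (by norm_num) (by norm_num) (by norm_num) (by norm_num))
    (exp_neg_leJ (r := 0.424) 10 (by norm_num) (by norm_num) (by norm_num) (by norm_num))
    (exp_neg_leJ (r := 0.99) 14 (by norm_num) (by norm_num) (by norm_num) (by norm_num))
    (exp_neg_leJ (r := 0.99) 14 (by norm_num) (by norm_num) (by norm_num) (by norm_num))
    (exp_neg_leJ (r := 0.99) 14 (by norm_num) (by norm_num) (by norm_num) (by norm_num))
    (by norm_num)) (by norm_num) hN hβ.le (by norm_num)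

private theorem T3_04_p1_b0_1 {β x y : ℝ} (hβ : 0 < β) (hN : β * 24.999 ≤ 1) (hx1 : 0.154 ≤ x) (hx2 : x ≤ 0.2035)
    (hy1 : -0 ≤ y) (hy2 : y ≤ 0.252) : ‖HH β (x + y * I) - 1‖ ≤ 0.015 := by
  refine le_epsJ (C := 0.2049) (N0 := 24.999) (J_boxp 0.154 0.2035 0 0.252 0.252 0.8184 0.324 1.2685 1.5213 0.4494 4.9999 24.999 0.3959 1.642 1.191 1.3418 0.4091 0.3551 1.0609 3.9538 0.4041 0.6875 0.7978 2.9519 0.00003619 0.0001399 0.0000003101 0.0000003101 0.000041 0.0000003101 0.0000003101 0.0000003101 0.2049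
    hβ hN hx1 hx2 hy1 hy2 (by norm_num) (by norm_num) (by linarith) (by norm_num) (by norm_num) (by norm_num) (by norm_num) (by norm_num) (by norm_num) (by norm_num) (by norm_num) (by norm_num) (by norm_num) (by norm_num) (by norm_num) (by norm_num) (by norm_num) (by norm_num) (by norm_num) (by norm_num) (by norm_num) (by norm_num) (by norm_num) (by norm_num)
    (cube_sqrt_geJ (s := 0.9316) (by norm_num) (by norm_num) (by norm_num) (by norm_num))
    (cube_sqrt_geJ (s := 0.9754) (by norm_num) (by norm_num) (by norm_num) (by norm_num))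
    (by norm_num) (by norm_num) (by norm_num) (by norm_num) (by norm_num) (by norm_num) (by norm_num) (by norm_num) (by norm_num) (by norm_num) (by norm_num) (by norm_num) (by norm_num) (by norm_num) (by norm_num) (by norm_num) (by norm_num) (by norm_num)
    (exp_neg_leJ (r := 0.227) 10 (by norm_num) (by norm_num) (by norm_num) (by norm_num))
    (exp_neg_leJ (r := 0.877) 8 (by norm_num) (by norm_num) (by norm_num) (by norm_num))
    (exp_neg_leJ (r := 0.99) 14 (by norm_num) (by norm_num) (by norm_num) (by norm_num))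
    (exp_neg_leJ (r := 0.99) 14 (by norm_num) (by norm_num) (by norm_num) (by norm_num))
    (exp_neg_leJ (r := 0.102) 10 (by norm_num) (by norm_num) (by norm_num) (by norm_num))
    (exp_neg_leJ (r := 0.99) 14 (by norm_num) (by norm_num) (by norm_num) (by norm_num))
    (exp_neg_leJ (r := 0.99) 14 (by norm_num) (by norm_num) (by norm_num) (by norm_num))
    (exp_neg_leJ (r := 0.99) 14 (by norm_num) (by norm_num) (by norm_num) (by norm_num))
    (by norm_num)) (by norm_num) hN hβ.le (by norm_num)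

private theorem T3_04_p1_c0 {κ t β : ℝ} (h : DomR κ t) (hβ : 0 < β) (hk1 : 0.38 ≤ κ) (hk2 : κ ≤ 0.4)
    (ht1 : 0 ≤ t + κ) (ht2 : t + κ ≤ 1.144) (hR0 : β * 10 ≤ κ) (hR : β * (1 * (1 + κ ^ 2)) ≤ κ) :
    ‖HH β (sg κ t) - 1‖ ≤ 0.015 := by
  have hN : β * 24.999 ≤ 1 := bNR hβ h.1 hk2 hR0 (by norm_num)
  have hy1 : 0 ≤ sy κ t := sy_nonneg h (by linarith)
  have hy2 : sy κ t ≤ 0.252 := syR_ang2 h 0.38 0.4 1.144 0.944 0.5876 0.8101 0.252 0.77725 1.28659 hk1 hk2 (by linarith) (by norm_num) (by norm_num) (by norm_num)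
    (cos_le_num (by norm_num)) (sin_le_num (by norm_num) (by norm_num)) (expm_le (by norm_num) (by norm_num) (by norm_num))
    (expn_ge (by norm_num) (by norm_num)) (by norm_num) (by norm_num) (by norm_num) (by norm_num) (by norm_num)
  rcases le_total (sy κ t) 0.24 with f0 | g0
  · have hx1 : 0.1781 ≤ sx κ t := sx_lo h 0.38 0.24 0.24 0.78662 0.1781 hk1 (by norm_num) f0 (abs_le.2 ⟨by linarith, by linarith⟩) (expm_ge (by norm_num) (by norm_num) (by norm_num) (by norm_num)) (by norm_num) (by norm_num)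
    have hx2 : sx κ t ≤ 0.4001 := sx_hi h 0.4 0 0 1 0.4001 hk2 hy1 (by norm_num) (abs_nonneg _) (by simp) (by norm_num) (by norm_num)
    exact T3_04_p1_b0_0 hβ hN hx1 hx2 (by linarith) (by linarith)
  have hx1 : 0.154 ≤ sx κ t := sx_lo h 0.38 0.252 0.252 0.77724 0.154 hk1 (by norm_num) hy2 (abs_le.2 ⟨by linarith, by linarith⟩) (expm_ge (by norm_num) (by norm_num) (by norm_num) (by norm_num)) (by norm_num) (by norm_num)
  have hx2 : sx κ t ≤ 0.2035 := sx_hi h 0.4 0.24 0.24 0.78663 0.2035 hk2 g0 (by norm_num) (by rw [abs_of_nonneg (by linarith)]; linarith) (expm_le (by norm_num) (by norm_num) (by norm_num)) (by norm_num) (by norm_num)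
  exact T3_04_p1_b0_1 hβ hN hx1 hx2 (by linarith) (by linarith)

theorem T3_04_p1 {κ t β : ℝ} (h : DomR κ t) (hβ : 0 < β) (hk1 : 0.38 ≤ κ) (hk2 : κ ≤ 0.4)
    (ht1 : 0 ≤ t + κ) (ht2 : t + κ ≤ 1.144) (hR0 : β * 10 ≤ κ) (hR : β * (1 * (1 + κ ^ 2)) ≤ κ) :
    ‖HH β (sg κ t) - 1‖ ≤ 0.015 := by
  exact T3_04_p1_c0 h hβ hk1 hk2 ht1 ht2 hR0 hR

private theorem T3_04_p0m_b0_0 {β x y : ℝ} (hβ : 0 < β) (hN : β * 25.641 ≤ 1) (hx1 : 0.3415 ≤ x) (hx2 : x ≤ 0.4119)
    (hy1 : -0.557 ≤ y) (hy2 : y ≤ -0.542) : ‖HH β (x + y * I) - 1‖ ≤ 0.17 := by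
  refine le_epsJ (C := 4.1455) (N0 := 25.641) (J_boxp 0.3415 0.4119 0.557 0 (-0.542) 0.555 0.6928 0.616 1.8983 0.3132 5.0637 25.641 1.2483 6.575 1.788 0.7475 0.2774 0.162 0.2459 2.0418 0.2166 0.9728 0.7396 3.5118 0.0008153 0.01572 0.001828 0.0000003101 0.003877 0.0000003101 0.0000003101 0.0000003101 4.1455
    hβ hN hx1 hx2 hy1 hy2 (by norm_num) (by norm_num) (by linarith) (by norm_num) (by norm_num) (by norm_num) (by norm_num) (by norm_num) (by norm_num) (by norm_num) (by norm_num) (by norm_num) (by norm_num) (by norm_num) (by norm_num) (by norm_num) (by norm_num) (by norm_num) (by norm_num) (by norm_num) (by norm_num) (by norm_num) (by norm_num) (by norm_num)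
    (cube_sqrt_geJ (s := 0.7641) (by norm_num) (by norm_num) (by norm_num) (by norm_num))
    (cube_sqrt_geJ (s := 0.9204) (by norm_num) (by norm_num) (by norm_num) (by norm_num))
    (by norm_num) (by norm_num) (by norm_num) (by norm_num) (by norm_num) (by norm_num) (by norm_num) (by norm_num) (by norm_num) (by norm_num) (by norm_num) (by norm_num) (by norm_num) (by norm_num) (by norm_num) (by norm_num) (by norm_num) (by norm_num)
    (exp_neg_leJ (r := 0.112) 7 (by norm_num) (by norm_num) (by norm_num) (by norm_num))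
    (exp_neg_leJ (r := 0.153) 4 (by norm_num) (by norm_num) (by norm_num) (by norm_num))
    (exp_neg_leJ (r := 0.305) 6 (by norm_num) (by norm_num) (by norm_num) (by norm_num))
    (exp_neg_leJ (r := 0.99) 14 (by norm_num) (by norm_num) (by norm_num) (by norm_num))
    (exp_neg_leJ (r := 0.553) 5 (by norm_num) (by norm_num) (by norm_num) (by norm_num))
    (exp_neg_leJ (r := 0.99) 14 (by norm_num) (by norm_num) (by norm_num) (by norm_num))
    (exp_neg_leJ (r := 0.99) 14 (by norm_num) (by norm_num) (by norm_num) (by norm_num))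
    (exp_neg_leJ (r := 0.99) 14 (by norm_num) (by norm_num) (by norm_num) (by norm_num))
    (by norm_num)) (by norm_num) hN hβ.le (by norm_num)

private theorem T3_04_p0m_b0_1 {β x y : ℝ} (hβ : 0 < β) (hN : β * 25.641 ≤ 1) (hx1 : 0.329 ≤ x) (hx2 : x ≤ 0.4331)
    (hy1 : -0.542 ≤ y) (hy2 : y ≤ -0.512) : ‖HH β (x + y * I) - 1‖ ≤ 0.17 := by
  refine le_epsJ (C := 4.2104) (N0 := 25.641) (J_boxp 0.329 0.4331 0.542 0 (-0.512) 0.5568 0.6938 0.6525 1.9443 0.3223 5.0637 25.641 1.2461 6.546 1.786 0.7532 0.2783 0.1627 0.2653 2.0821 0.2187 0.9555 0.7553 3.4841 0.0007968 0.01544 0.001114 0.0000003101 0.003674 0.0000003101 0.0000003101 0.0000003101 4.2104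
    hβ hN hx1 hx2 hy1 hy2 (by norm_num) (by norm_num) (by linarith) (by norm_num) (by norm_num) (by norm_num) (by norm_num) (by norm_num) (by norm_num) (by norm_num) (by norm_num) (by norm_num) (by norm_num) (by norm_num) (by norm_num) (by norm_num) (by norm_num) (by norm_num) (by norm_num) (by norm_num) (by norm_num) (by norm_num) (by norm_num) (by norm_num)
    (cube_sqrt_geJ (s := 0.7646) (by norm_num) (by norm_num) (by norm_num) (by norm_num))
    (cube_sqrt_geJ (s := 0.9205) (by norm_num) (by norm_num) (by norm_num) (by norm_num))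
    (by norm_num) (by norm_num) (by norm_num) (by norm_num) (by norm_num) (by norm_num) (by norm_num) (by norm_num) (by norm_num) (by norm_num) (by norm_num) (by norm_num) (by norm_num) (by norm_num) (by norm_num) (by norm_num) (by norm_num) (by norm_num)
    (exp_neg_leJ (r := 0.135) 7 (by norm_num) (by norm_num) (by norm_num) (by norm_num))
    (exp_neg_leJ (r := 0.171) 4 (by norm_num) (by norm_num) (by norm_num) (by norm_num))
    (exp_neg_leJ (r := 0.802) 6 (by norm_num) (by norm_num) (by norm_num) (by norm_num))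
    (exp_neg_leJ (r := 0.99) 14 (by norm_num) (by norm_num) (by norm_num) (by norm_num))
    (exp_neg_leJ (r := 0.607) 5 (by norm_num) (by norm_num) (by norm_num) (by norm_num))
    (exp_neg_leJ (r := 0.99) 14 (by norm_num) (by norm_num) (by norm_num) (by norm_num))
    (exp_neg_leJ (r := 0.99) 14 (by norm_num) (by norm_num) (by norm_num) (by norm_num))
    (exp_neg_leJ (r := 0.99) 14 (by norm_num) (by norm_num) (by norm_num) (by norm_num))
    (by norm_num)) (by norm_num) hN hβ.le (by norm_num)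

private theorem T3_04_p0m_b0_2 {β x y : ℝ} (hβ : 0 < β) (hN : β * 25.641 ≤ 1) (hx1 : 0.3578 ≤ x) (hx2 : x ≤ 0.4202)
    (hy1 : -0.512 ≤ y) (hy2 : y ≤ -0.497) : ‖HH β (x + y * I) - 1‖ ≤ 0.17 := by
  refine le_epsJ (C := 2.506) (N0 := 25.641) (J_boxp 0.3578 0.4202 0.512 0 (-0.497) 0.5984 0.6624 0.6555 1.7491 0.323 5.0637 25.641 1.107 5.012 1.666 0.7858 0.2991 0.1887 0.3225 2.1887 0.2491 0.9954 0.8945 3.627 0.0004674 0.007937 0.0002564 0.0000003101 0.001684 0.0000003101 0.0000003101 0.0000003101 2.506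
    hβ hN hx1 hx2 hy1 hy2 (by norm_num) (by norm_num) (by linarith) (by norm_num) (by norm_num) (by norm_num) (by norm_num) (by norm_num) (by norm_num) (by norm_num) (by norm_num) (by norm_num) (by norm_num) (by norm_num) (by norm_num) (by norm_num) (by norm_num) (by norm_num) (by norm_num) (by norm_num) (by norm_num) (by norm_num) (by norm_num) (by norm_num)
    (cube_sqrt_geJ (s := 0.7943) (by norm_num) (by norm_num) (by norm_num) (by norm_num))
    (cube_sqrt_geJ (s := 0.9297) (by norm_num) (by norm_num) (by norm_num) (by norm_num))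
    (by norm_num) (by norm_num) (by norm_num) (by norm_num) (by norm_num) (by norm_num) (by norm_num) (by norm_num) (by norm_num) (by norm_num) (by norm_num) (by norm_num) (by norm_num) (by norm_num) (by norm_num) (by norm_num) (by norm_num) (by norm_num)
    (exp_neg_leJ (r := 0.669) 7 (by norm_num) (by norm_num) (by norm_num) (by norm_num))
    (exp_neg_leJ (r := 0.838) 4 (by norm_num) (by norm_num) (by norm_num) (by norm_num))
    (exp_neg_leJ (r := 0.269) 8 (by norm_num) (by norm_num) (by norm_num) (by norm_num))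
    (exp_neg_leJ (r := 0.99) 14 (by norm_num) (by norm_num) (by norm_num) (by norm_num))
    (exp_neg_leJ (r := 0.387) 6 (by norm_num) (by norm_num) (by norm_num) (by norm_num))
    (exp_neg_leJ (r := 0.99) 14 (by norm_num) (by norm_num) (by norm_num) (by norm_num))
    (exp_neg_leJ (r := 0.99) 14 (by norm_num) (by norm_num) (by norm_num) (by norm_num))
    (exp_neg_leJ (r := 0.99) 14 (by norm_num) (by norm_num) (by norm_num) (by norm_num))
    (by norm_num)) (by norm_num) hN hβ.le (by norm_num)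

private theorem T3_04_p0m_c0 {κ t β : ℝ} (h : DomR κ t) (hβ : 0 < β) (hk1 : 0.38 ≤ κ) (hk2 : κ ≤ 0.39)
    (ht1 : -0.9594 ≤ t + κ) (ht2 : t + κ ≤ -0.95039) (hR0 : β * 10 ≤ κ) (hR : β * (1 * (1 + κ ^ 2)) ≤ κ) :
    ‖HH β (sg κ t) - 1‖ ≤ 0.17 := by
  have hN : β * 25.641 ≤ 1 := bNR hβ h.1 hk2 hR0 (by norm_num)
  have hy1 : -0.557 ≤ sy κ t := syL_ang2 h 0.38 0.39 0.9594 0.958 0.5751 0.8182 0.557 1.74542 0.57292 hk1 hk2 (by linarith) (by norm_num) (by norm_num) (by norm_num) (by norm_num)
    (cos_ge_num (by norm_num) (by norm_num)) (sin_le_num (by norm_num) (by norm_num))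
    (expn_ge (by norm_num) (by norm_num)) (expm_ge (by norm_num) (by norm_num) (by norm_num) (by norm_num)) (by norm_num) (by norm_num) (by norm_num)
    (by norm_num) (by norm_num) (by norm_num)
  have hy2 : sy κ t ≤ -0.497 := syL_le h 0.38 0.39 0.95039 0.497 0.60835 0.60836 0.77525 0.79568 hk1 hk2 (by linarith) (by norm_num) (by norm_num) (by norm_num)
    (expm_ge (by norm_num) (by norm_num) (by norm_num) (by norm_num)) (expm_le (by norm_num) (by norm_num) (by norm_num)) (by norm_num)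
    (by norm_num) (by norm_num) (by norm_num) (by norm_num) (by norm_num) (by norm_num)
  rcases le_total (sy κ t) (-0.542) with f0 | g0
  · have hx1 : 0.3415 ≤ sx κ t := sx_lo h 0.38 (-0.542) 0.557 1.71943 0.3415 hk1 (by norm_num) f0 (abs_le.2 ⟨by linarith, by linarith⟩) (by rw [neg_neg]; exact expn_ge (by norm_num) (by norm_num)) (by norm_num) (by norm_num)
    have hx2 : sx κ t ≤ 0.4119 := sx_hi h 0.39 (-0.557) 0.542 1.74543 0.4119 hk2 hy1 (by norm_num) (by rw [abs_of_nonpos (by linarith)]; linarith) (by rw [neg_neg]; exact expn_le (by norm_num) (by norm_num) (by norm_num)) (by norm_num) (by norm_num)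
    exact T3_04_p0m_b0_0 hβ hN hx1 hx2 (by linarith) (by linarith)
  rcases le_total (sy κ t) (-0.512) with f1 | g1
  · have hx1 : 0.329 ≤ sx κ t := sx_lo h 0.38 (-0.512) 0.542 1.66862 0.329 hk1 (by norm_num) f1 (abs_le.2 ⟨by linarith, by linarith⟩) (by rw [neg_neg]; exact expn_ge (by norm_num) (by norm_num)) (by norm_num) (by norm_num)
    have hx2 : sx κ t ≤ 0.4331 := sx_hi h 0.39 (-0.542) 0.512 1.71945 0.4331 hk2 g0 (by norm_num) (by rw [abs_of_nonpos (by linarith)]; linarith) (by rw [neg_neg]; exact expn_le (by norm_num) (by norm_num) (by norm_num)) (by norm_num) (by norm_num)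
    exact T3_04_p0m_b0_1 hβ hN hx1 hx2 (by linarith) (by linarith)
  have hx1 : 0.3578 ≤ sx κ t := sx_lo h 0.38 (-0.497) 0.512 1.64378 0.3578 hk1 (by norm_num) hy2 (abs_le.2 ⟨by linarith, by linarith⟩) (by rw [neg_neg]; exact expn_ge (by norm_num) (by norm_num)) (by norm_num) (by norm_num)
  have hx2 : sx κ t ≤ 0.4202 := sx_hi h 0.39 (-0.512) 0.497 1.66863 0.4202 hk2 g1 (by norm_num) (by rw [abs_of_nonpos (by linarith)]; linarith) (by rw [neg_neg]; exact expn_le (by norm_num) (by norm_num) (by norm_num)) (by norm_num) (by norm_num)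
  exact T3_04_p0m_b0_2 hβ hN hx1 hx2 (by linarith) (by linarith)

private theorem T3_04_p0m_b1_0 {β x y : ℝ} (hβ : 0 < β) (hN : β * 24.999 ≤ 1) (hx1 : 0.3804 ≤ x) (hx2 : x ≤ 0.4246)
    (hy1 : -0.576 ≤ y) (hy2 : y ≤ -0.571) : ‖HH β (x + y * I) - 1‖ ≤ 0.17 := by
  refine le_epsJ (C := 4.0544) (N0 := 24.999) (J_boxp 0.3804 0.4246 0.576 0 (-0.571) 0.5689 0.7156 0.6036 1.8106 0.31 4.9999 24.999 1.2579 6.702 1.796 0.7251 0.2844 0.1651 0.2293 1.9721 0.2251 1.0267 0.7657 3.5276 0.0008178 0.01614 0.003244 0.0000003101 0.003602 0.0000003101 0.0000003101 0.0000003101 4.0544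
    hβ hN hx1 hx2 hy1 hy2 (by norm_num) (by norm_num) (by linarith) (by norm_num) (by norm_num) (by norm_num) (by norm_num) (by norm_num) (by norm_num) (by norm_num) (by norm_num) (by norm_num) (by norm_num) (by norm_num) (by norm_num) (by norm_num) (by norm_num) (by norm_num) (by norm_num) (by norm_num) (by norm_num) (by norm_num) (by norm_num) (by norm_num)
    (cube_sqrt_geJ (s := 0.762) (by norm_num) (by norm_num) (by norm_num) (by norm_num))
    (cube_sqrt_geJ (s := 0.9197) (by norm_num) (by norm_num) (by norm_num) (by norm_num))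
    (by norm_num) (by norm_num) (by norm_num) (by norm_num) (by norm_num) (by norm_num) (by norm_num) (by norm_num) (by norm_num) (by norm_num) (by norm_num) (by norm_num) (by norm_num) (by norm_num) (by norm_num) (by norm_num) (by norm_num) (by norm_num)
    (exp_neg_leJ (r := 0.109) 7 (by norm_num) (by norm_num) (by norm_num) (by norm_num))
    (exp_neg_leJ (r := 0.127) 4 (by norm_num) (by norm_num) (by norm_num) (by norm_num))
    (exp_neg_leJ (r := 0.732) 5 (by norm_num) (by norm_num) (by norm_num) (by norm_num))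
    (exp_neg_leJ (r := 0.99) 14 (by norm_num) (by norm_num) (by norm_num) (by norm_num))
    (exp_neg_leJ (r := 0.627) 5 (by norm_num) (by norm_num) (by norm_num) (by norm_num))
    (exp_neg_leJ (r := 0.99) 14 (by norm_num) (by norm_num) (by norm_num) (by norm_num))
    (exp_neg_leJ (r := 0.99) 14 (by norm_num) (by norm_num) (by norm_num) (by norm_num))
    (exp_neg_leJ (r := 0.99) 14 (by norm_num) (by norm_num) (by norm_num) (by norm_num))
    (by norm_num)) (by norm_num) hN hβ.le (by norm_num)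

private theorem T3_04_p0m_b1_1 {β x y : ℝ} (hβ : 0 < β) (hN : β * 24.999 ≤ 1) (hx1 : 0.3755 ≤ x) (hx2 : x ≤ 0.432)
    (hy1 : -0.571 ≤ y) (hy2 : y ≤ -0.561) : ‖HH β (x + y * I) - 1‖ ≤ 0.17 := by
  refine le_epsJ (C := 4.1009) (N0 := 24.999) (J_boxp 0.3755 0.432 0.571 0 (-0.561) 0.569 0.7161 0.616 1.8287 0.3132 4.9999 24.999 1.2586 6.712 1.797 0.7268 0.2844 0.1651 0.2355 1.9854 0.2254 1.0199 0.7695 3.5165 0.0008178 0.01614 0.002782 0.0000003101 0.003577 0.0000003101 0.0000003101 0.0000003101 4.1009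
    hβ hN hx1 hx2 hy1 hy2 (by norm_num) (by norm_num) (by linarith) (by norm_num) (by norm_num) (by norm_num) (by norm_num) (by norm_num) (by norm_num) (by norm_num) (by norm_num) (by norm_num) (by norm_num) (by norm_num) (by norm_num) (by norm_num) (by norm_num) (by norm_num) (by norm_num) (by norm_num) (by norm_num) (by norm_num) (by norm_num) (by norm_num)
    (cube_sqrt_geJ (s := 0.7618) (by norm_num) (by norm_num) (by norm_num) (by norm_num))
    (cube_sqrt_geJ (s := 0.9197) (by norm_num) (by norm_num) (by norm_num) (by norm_num))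
    (by norm_num) (by norm_num) (by norm_num) (by norm_num) (by norm_num) (by norm_num) (by norm_num) (by norm_num) (by norm_num) (by norm_num) (by norm_num) (by norm_num) (by norm_num) (by norm_num) (by norm_num) (by norm_num) (by norm_num) (by norm_num)
    (exp_neg_leJ (r := 0.109) 7 (by norm_num) (by norm_num) (by norm_num) (by norm_num))
    (exp_neg_leJ (r := 0.127) 4 (by norm_num) (by norm_num) (by norm_num) (by norm_num))
    (exp_neg_leJ (r := 0.887) 5 (by norm_num) (by norm_num) (by norm_num) (by norm_num))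
    (exp_neg_leJ (r := 0.99) 14 (by norm_num) (by norm_num) (by norm_num) (by norm_num))
    (exp_neg_leJ (r := 0.634) 5 (by norm_num) (by norm_num) (by norm_num) (by norm_num))
    (exp_neg_leJ (r := 0.99) 14 (by norm_num) (by norm_num) (by norm_num) (by norm_num))
    (exp_neg_leJ (r := 0.99) 14 (by norm_num) (by norm_num) (by norm_num) (by norm_num))
    (exp_neg_leJ (r := 0.99) 14 (by norm_num) (by norm_num) (by norm_num) (by norm_num))
    (by norm_num)) (by norm_num) hN hβ.le (by norm_num)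

private theorem T3_04_p0m_b1_2 {β x y : ℝ} (hβ : 0 < β) (hN : β * 24.999 ≤ 1) (hx1 : 0.3661 ≤ x) (hx2 : x ≤ 0.4458)
    (hy1 : -0.561 ≤ y) (hy2 : y ≤ -0.541) : ‖HH β (x + y * I) - 1‖ ≤ 0.17 := by
  refine le_epsJ (C := 4.1658) (N0 := 24.999) (J_boxp 0.3661 0.4458 0.561 0 (-0.541) 0.5695 0.7166 0.6399 1.8613 0.3192 4.9999 24.999 1.2583 6.708 1.797 0.7308 0.2847 0.1653 0.248 2.0124 0.2263 1.0069 0.7779 3.4963 0.0008113 0.01606 0.002032 0.0000003101 0.003496 0.0000003101 0.0000003101 0.0000003101 4.1658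
    hβ hN hx1 hx2 hy1 hy2 (by norm_num) (by norm_num) (by linarith) (by norm_num) (by norm_num) (by norm_num) (by norm_num) (by norm_num) (by norm_num) (by norm_num) (by norm_num) (by norm_num) (by norm_num) (by norm_num) (by norm_num) (by norm_num) (by norm_num) (by norm_num) (by norm_num) (by norm_num) (by norm_num) (by norm_num) (by norm_num) (by norm_num)
    (cube_sqrt_geJ (s := 0.7619) (by norm_num) (by norm_num) (by norm_num) (by norm_num))
    (cube_sqrt_geJ (s := 0.9197) (by norm_num) (by norm_num) (by norm_num) (by norm_num))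
    (by norm_num) (by norm_num) (by norm_num) (by norm_num) (by norm_num) (by norm_num) (by norm_num) (by norm_num) (by norm_num) (by norm_num) (by norm_num) (by norm_num) (by norm_num) (by norm_num) (by norm_num) (by norm_num) (by norm_num) (by norm_num)
    (exp_neg_leJ (r := 0.117) 7 (by norm_num) (by norm_num) (by norm_num) (by norm_num))
    (exp_neg_leJ (r := 0.132) 4 (by norm_num) (by norm_num) (by norm_num) (by norm_num))
    (exp_neg_leJ (r := 0.199) 6 (by norm_num) (by norm_num) (by norm_num) (by norm_num))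
    (exp_neg_leJ (r := 0.99) 14 (by norm_num) (by norm_num) (by norm_num) (by norm_num))
    (exp_neg_leJ (r := 0.657) 5 (by norm_num) (by norm_num) (by norm_num) (by norm_num))
    (exp_neg_leJ (r := 0.99) 14 (by norm_num) (by norm_num) (by norm_num) (by norm_num))
    (exp_neg_leJ (r := 0.99) 14 (by norm_num) (by norm_num) (by norm_num) (by norm_num))
    (exp_neg_leJ (r := 0.99) 14 (by norm_num) (by norm_num) (by norm_num) (by norm_num))
    (by norm_num)) (by norm_num) hN hβ.le (by norm_num)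

private theorem T3_04_p0m_b1_3 {β x y : ℝ} (hβ : 0 < β) (hN : β * 24.999 ≤ 1) (hx1 : 0.364 ≤ x) (hx2 : x ≤ 0.456)
    (hy1 : -0.541 ≤ y) (hy2 : y ≤ -0.514) : ‖HH β (x + y * I) - 1‖ ≤ 0.17 := by
  refine le_epsJ (C := 3.6198) (N0 := 24.999) (J_boxp 0.364 0.456 0.541 0 (-0.514) 0.5822 0.7076 0.6665 1.8378 0.3257 4.9999 24.999 1.2154 6.16 1.758 0.7453 0.291 0.1731 0.2789 2.0745 0.2362 1.0039 0.828 3.5166 0.0006934 0.01321 0.0009409 0.0000003101 0.002736 0.0000003101 0.0000003101 0.0000003101 3.6198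
    hβ hN hx1 hx2 hy1 hy2 (by norm_num) (by norm_num) (by linarith) (by norm_num) (by norm_num) (by norm_num) (by norm_num) (by norm_num) (by norm_num) (by norm_num) (by norm_num) (by norm_num) (by norm_num) (by norm_num) (by norm_num) (by norm_num) (by norm_num) (by norm_num) (by norm_num) (by norm_num) (by norm_num) (by norm_num) (by norm_num) (by norm_num)
    (cube_sqrt_geJ (s := 0.7712) (by norm_num) (by norm_num) (by norm_num) (by norm_num))
    (cube_sqrt_geJ (s := 0.9225) (by norm_num) (by norm_num) (by norm_num) (by norm_num))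
    (by norm_num) (by norm_num) (by norm_num) (by norm_num) (by norm_num) (by norm_num) (by norm_num) (by norm_num) (by norm_num) (by norm_num) (by norm_num) (by norm_num) (by norm_num) (by norm_num) (by norm_num) (by norm_num) (by norm_num) (by norm_num)
    (exp_neg_leJ (r := 0.274) 7 (by norm_num) (by norm_num) (by norm_num) (by norm_num))
    (exp_neg_leJ (r := 0.327) 4 (by norm_num) (by norm_num) (by norm_num) (by norm_num))
    (exp_neg_leJ (r := 0.972) 6 (by norm_num) (by norm_num) (by norm_num) (by norm_num))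
    (exp_neg_leJ (r := 0.99) 14 (by norm_num) (by norm_num) (by norm_num) (by norm_num))
    (exp_neg_leJ (r := 0.904) 5 (by norm_num) (by norm_num) (by norm_num) (by norm_num))
    (exp_neg_leJ (r := 0.99) 14 (by norm_num) (by norm_num) (by norm_num) (by norm_num))
    (exp_neg_leJ (r := 0.99) 14 (by norm_num) (by norm_num) (by norm_num) (by norm_num))
    (exp_neg_leJ (r := 0.99) 14 (by norm_num) (by norm_num) (by norm_num) (by norm_num))
    (by norm_num)) (by norm_num) hN hβ.le (by norm_num)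

private theorem T3_04_p0m_c1 {κ t β : ℝ} (h : DomR κ t) (hβ : 0 < β) (hk1 : 0.39 ≤ κ) (hk2 : κ ≤ 0.4)
    (ht1 : -0.9594 ≤ t + κ) (ht2 : t + κ ≤ -0.95039) (hR0 : β * 10 ≤ κ) (hR : β * (1 * (1 + κ ^ 2)) ≤ κ) :
    ‖HH β (sg κ t) - 1‖ ≤ 0.17 := by
  have hN : β * 24.999 ≤ 1 := bNR hβ h.1 hk2 hR0 (by norm_num)
  have hy1 : -0.576 ≤ sy κ t := syL_ang2 h 0.39 0.4 0.9594 0.942 0.5881 0.8089 0.576 1.7789 0.56214 hk1 hk2 (by linarith) (by norm_num) (by norm_num) (by norm_num) (by norm_num)
    (cos_ge_num (by norm_num) (by norm_num)) (sin_le_num (by norm_num) (by norm_num))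
    (expn_ge (by norm_num) (by norm_num)) (expm_ge (by norm_num) (by norm_num) (by norm_num) (by norm_num)) (by norm_num) (by norm_num) (by norm_num)
    (by norm_num) (by norm_num) (by norm_num)
  have hy2 : sy κ t ≤ -0.514 := syL_le h 0.39 0.4 0.95039 0.514 0.59809 0.5981 0.76854 0.78827 hk1 hk2 (by linarith) (by norm_num) (by norm_num) (by norm_num)
    (expm_ge (by norm_num) (by norm_num) (by norm_num) (by norm_num)) (expm_le (by norm_num) (by norm_num) (by norm_num)) (by norm_num)
    (by norm_num) (by norm_num) (by norm_num) (by norm_num) (by norm_num) (by norm_num)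
  rcases le_total (sy κ t) (-0.571) with f0 | g0
  · have hx1 : 0.3804 ≤ sx κ t := sx_lo h 0.39 (-0.571) 0.576 1.77003 0.3804 hk1 (by norm_num) f0 (abs_le.2 ⟨by linarith, by linarith⟩) (by rw [neg_neg]; exact expn_ge (by norm_num) (by norm_num)) (by norm_num) (by norm_num)
    have hx2 : sx κ t ≤ 0.4246 := sx_hi h 0.4 (-0.576) 0.571 1.77891 0.4246 hk2 hy1 (by norm_num) (by rw [abs_of_nonpos (by linarith)]; linarith) (by rw [neg_neg]; exact expn_le (by norm_num) (by norm_num) (by norm_num)) (by norm_num) (by norm_num)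
    exact T3_04_p0m_b1_0 hβ hN hx1 hx2 (by linarith) (by linarith)
  rcases le_total (sy κ t) (-0.561) with f1 | g1
  · have hx1 : 0.3755 ≤ sx κ t := sx_lo h 0.39 (-0.561) 0.571 1.75242 0.3755 hk1 (by norm_num) f1 (abs_le.2 ⟨by linarith, by linarith⟩) (by rw [neg_neg]; exact expn_ge (by norm_num) (by norm_num)) (by norm_num) (by norm_num)
    have hx2 : sx κ t ≤ 0.432 := sx_hi h 0.4 (-0.571) 0.561 1.77004 0.432 hk2 g0 (by norm_num) (by rw [abs_of_nonpos (by linarith)]; linarith) (by rw [neg_neg]; exact expn_le (by norm_num) (by norm_num) (by norm_num)) (by norm_num) (by norm_num)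
    exact T3_04_p0m_b1_1 hβ hN hx1 hx2 (by linarith) (by linarith)
  rcases le_total (sy κ t) (-0.541) with f2 | g2
  · have hx1 : 0.3661 ≤ sx κ t := sx_lo h 0.39 (-0.541) 0.561 1.71772 0.3661 hk1 (by norm_num) f2 (abs_le.2 ⟨by linarith, by linarith⟩) (by rw [neg_neg]; exact expn_ge (by norm_num) (by norm_num)) (by norm_num) (by norm_num)
    have hx2 : sx κ t ≤ 0.4458 := sx_hi h 0.4 (-0.561) 0.541 1.75243 0.4458 hk2 g1 (by norm_num) (by rw [abs_of_nonpos (by linarith)]; linarith) (by rw [neg_neg]; exact expn_le (by norm_num) (by norm_num) (by norm_num)) (by norm_num) (by norm_num)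
    exact T3_04_p0m_b1_2 hβ hN hx1 hx2 (by linarith) (by linarith)
  have hx1 : 0.364 ≤ sx κ t := sx_lo h 0.39 (-0.514) 0.541 1.67196 0.364 hk1 (by norm_num) hy2 (abs_le.2 ⟨by linarith, by linarith⟩) (by rw [neg_neg]; exact expn_ge (by norm_num) (by norm_num)) (by norm_num) (by norm_num)
  have hx2 : sx κ t ≤ 0.456 := sx_hi h 0.4 (-0.541) 0.514 1.71773 0.456 hk2 g2 (by norm_num) (by rw [abs_of_nonpos (by linarith)]; linarith) (by rw [neg_neg]; exact expn_le (by norm_num) (by norm_num) (by norm_num)) (by norm_num) (by norm_num)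
  exact T3_04_p0m_b1_3 hβ hN hx1 hx2 (by linarith) (by linarith)

theorem T3_04_p0m {κ t β : ℝ} (h : DomR κ t) (hβ : 0 < β) (hk1 : 0.38 ≤ κ) (hk2 : κ ≤ 0.4)
    (ht1 : -0.9594 ≤ t + κ) (ht2 : t + κ ≤ -0.95039) (hR0 : β * 10 ≤ κ) (hR : β * (1 * (1 + κ ^ 2)) ≤ κ) :
    ‖HH β (sg κ t) - 1‖ ≤ 0.17 := by
  rcases le_total κ 0.39 with f0 | g0
  · exact T3_04_p0m_c0 h hβ hk1 f0 ht1 ht2 hR0 hR
  exact T3_04_p0m_c1 h hβ g0 hk2 ht1 ht2 hR0 hR

private theorem T3_04_p0_b0_0 {β x y : ℝ} (hβ : 0 < β) (hN : β * 25.641 ≤ 1) (hx1 : 0.3449 ≤ x) (hx2 : x ≤ 0.4136)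
    (hy1 : -0.548 ≤ y) (hy2 : y ≤ -0.533) : ‖HH β (x + y * I) - 1‖ ≤ 0.155 := by
  refine le_epsJ (C := 3.7219) (N0 := 25.641) (J_boxp 0.3449 0.4136 0.548 0 (-0.533) 0.5638 0.6866 0.6239 1.8659 0.3152 5.0637 25.641 1.2179 6.19 1.76 0.7551 0.2818 0.1674 0.2613 2.0712 0.2231 0.9775 0.7708 3.5355 0.0007282 0.01368 0.001234 0.0000003101 0.003283 0.0000003101 0.0000003101 0.0000003101 3.7219
    hβ hN hx1 hx2 hy1 hy2 (by norm_num) (by norm_num) (by linarith) (by norm_num) (by norm_num) (by norm_num) (by norm_num) (by norm_num) (by norm_num) (by norm_num) (by norm_num) (by norm_num) (by norm_num) (by norm_num) (by norm_num) (by norm_num) (by norm_num) (by norm_num) (by norm_num) (by norm_num) (by norm_num) (by norm_num) (by norm_num) (by norm_num)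
    (cube_sqrt_geJ (s := 0.7707) (by norm_num) (by norm_num) (by norm_num) (by norm_num))
    (cube_sqrt_geJ (s := 0.9224) (by norm_num) (by norm_num) (by norm_num) (by norm_num))
    (by norm_num) (by norm_num) (by norm_num) (by norm_num) (by norm_num) (by norm_num) (by norm_num) (by norm_num) (by norm_num) (by norm_num) (by norm_num) (by norm_num) (by norm_num) (by norm_num) (by norm_num) (by norm_num) (by norm_num) (by norm_num)
    (exp_neg_leJ (r := 0.225) 7 (by norm_num) (by norm_num) (by norm_num) (by norm_num))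
    (exp_neg_leJ (r := 0.292) 4 (by norm_num) (by norm_num) (by norm_num) (by norm_num))
    (exp_neg_leJ (r := 0.699) 6 (by norm_num) (by norm_num) (by norm_num) (by norm_num))
    (exp_neg_leJ (r := 0.99) 14 (by norm_num) (by norm_num) (by norm_num) (by norm_num))
    (exp_neg_leJ (r := 0.72) 5 (by norm_num) (by norm_num) (by norm_num) (by norm_num))
    (exp_neg_leJ (r := 0.99) 14 (by norm_num) (by norm_num) (by norm_num) (by norm_num))
    (exp_neg_leJ (r := 0.99) 14 (by norm_num) (by norm_num) (by norm_num) (by norm_num))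
    (exp_neg_leJ (r := 0.99) 14 (by norm_num) (by norm_num) (by norm_num) (by norm_num))
    (by norm_num)) (by norm_num) hN hβ.le (by norm_num)

private theorem T3_04_p0_b0_1 {β x y : ℝ} (hβ : 0 < β) (hN : β * 25.641 ≤ 1) (hx1 : 0.3328 ≤ x) (hx2 : x ≤ 0.4344)
    (hy1 : -0.533 ≤ y) (hy2 : y ≤ -0.503) : ‖HH β (x + y * I) - 1‖ ≤ 0.155 := by
  refine le_epsJ (C := 3.769) (N0 := 25.641) (J_boxp 0.3328 0.4344 0.533 0 (-0.503) 0.5659 0.6876 0.6601 1.9086 0.3242 5.0637 25.641 1.2151 6.157 1.758 0.761 0.2829 0.1683 0.2808 2.1116 0.2254 0.9607 0.7874 3.5085 0.0007081 0.01337 0.0007474 0.0000003101 0.003096 0.0000003101 0.0000003101 0.0000003101 3.769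
    hβ hN hx1 hx2 hy1 hy2 (by norm_num) (by norm_num) (by linarith) (by norm_num) (by norm_num) (by norm_num) (by norm_num) (by norm_num) (by norm_num) (by norm_num) (by norm_num) (by norm_num) (by norm_num) (by norm_num) (by norm_num) (by norm_num) (by norm_num) (by norm_num) (by norm_num) (by norm_num) (by norm_num) (by norm_num) (by norm_num) (by norm_num)
    (cube_sqrt_geJ (s := 0.7713) (by norm_num) (by norm_num) (by norm_num) (by norm_num))
    (cube_sqrt_geJ (s := 0.9226) (by norm_num) (by norm_num) (by norm_num) (by norm_num))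
    (by norm_num) (by norm_num) (by norm_num) (by norm_num) (by norm_num) (by norm_num) (by norm_num) (by norm_num) (by norm_num) (by norm_num) (by norm_num) (by norm_num) (by norm_num) (by norm_num) (by norm_num) (by norm_num) (by norm_num) (by norm_num)
    (exp_neg_leJ (r := 0.253) 7 (by norm_num) (by norm_num) (by norm_num) (by norm_num))
    (exp_neg_leJ (r := 0.315) 4 (by norm_num) (by norm_num) (by norm_num) (by norm_num))
    (exp_neg_leJ (r := 0.199) 7 (by norm_num) (by norm_num) (by norm_num) (by norm_num))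
    (exp_neg_leJ (r := 0.99) 14 (by norm_num) (by norm_num) (by norm_num) (by norm_num))
    (exp_neg_leJ (r := 0.779) 5 (by norm_num) (by norm_num) (by norm_num) (by norm_num))
    (exp_neg_leJ (r := 0.99) 14 (by norm_num) (by norm_num) (by norm_num) (by norm_num))
    (exp_neg_leJ (r := 0.99) 14 (by norm_num) (by norm_num) (by norm_num) (by norm_num))
    (exp_neg_leJ (r := 0.99) 14 (by norm_num) (by norm_num) (by norm_num) (by norm_num))
    (by norm_num)) (by norm_num) hN hβ.le (by norm_num)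

private theorem T3_04_p0_b0_2 {β x y : ℝ} (hβ : 0 < β) (hN : β * 25.641 ≤ 1) (hx1 : 0.3061 ≤ x) (hx2 : x ≤ 0.4734)
    (hy1 : -0.503 ≤ y) (hy2 : y ≤ -0.438) : ‖HH β (x + y * I) - 1‖ ≤ 0.155 := by
  refine le_epsJ (C := 3.9399) (N0 := 25.641) (J_boxp 0.3061 0.4734 0.503 0 (-0.438) 0.5684 0.6908 0.7349 2.0005 0.342 5.0637 25.641 1.2154 6.16 1.758 0.7737 0.2841 0.169 0.319 2.1929 0.2289 0.9238 0.8155 3.4464 0.0006865 0.01313 0.0002805 0.0000003101 0.002832 0.0000003101 0.0000003101 0.0000003101 3.9399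
    hβ hN hx1 hx2 hy1 hy2 (by norm_num) (by norm_num) (by linarith) (by norm_num) (by norm_num) (by norm_num) (by norm_num) (by norm_num) (by norm_num) (by norm_num) (by norm_num) (by norm_num) (by norm_num) (by norm_num) (by norm_num) (by norm_num) (by norm_num) (by norm_num) (by norm_num) (by norm_num) (by norm_num) (by norm_num) (by norm_num) (by norm_num)
    (cube_sqrt_geJ (s := 0.7712) (by norm_num) (by norm_num) (by norm_num) (by norm_num))
    (cube_sqrt_geJ (s := 0.9225) (by norm_num) (by norm_num) (by norm_num) (by norm_num))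
    (by norm_num) (by norm_num) (by norm_num) (by norm_num) (by norm_num) (by norm_num) (by norm_num) (by norm_num) (by norm_num) (by norm_num) (by norm_num) (by norm_num) (by norm_num) (by norm_num) (by norm_num) (by norm_num) (by norm_num) (by norm_num)
    (exp_neg_leJ (r := 0.284) 7 (by norm_num) (by norm_num) (by norm_num) (by norm_num))
    (exp_neg_leJ (r := 0.333) 4 (by norm_num) (by norm_num) (by norm_num) (by norm_num))
    (exp_neg_leJ (r := 0.179) 8 (by norm_num) (by norm_num) (by norm_num) (by norm_num))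
    (exp_neg_leJ (r := 0.99) 14 (by norm_num) (by norm_num) (by norm_num) (by norm_num))
    (exp_neg_leJ (r := 0.869) 5 (by norm_num) (by norm_num) (by norm_num) (by norm_num))
    (exp_neg_leJ (r := 0.99) 14 (by norm_num) (by norm_num) (by norm_num) (by norm_num))
    (exp_neg_leJ (r := 0.99) 14 (by norm_num) (by norm_num) (by norm_num) (by norm_num))
    (exp_neg_leJ (r := 0.99) 14 (by norm_num) (by norm_num) (by norm_num) (by norm_num))
    (by norm_num)) (by norm_num) hN hβ.le (by norm_num)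

private theorem T3_04_p0_b0_3 {β x y : ℝ} (hβ : 0 < β) (hN : β * 25.641 ≤ 1) (hx1 : 0.293 ≤ x) (hx2 : x ≤ 0.5083)
    (hy1 : -0.438 ≤ y) (hy2 : y ≤ -0.327) : ‖HH β (x + y * I) - 1‖ ≤ 0.155 := by
  refine le_epsJ (C := 2.7851) (N0 := 25.641) (J_boxp 0.293 0.5083 0.438 0 (-0.327) 0.6053 0.671 0.8434 1.9502 0.3664 5.0637 25.641 1.1086 5.026 1.667 0.8203 0.3026 0.1908 0.4172 2.3915 0.258 0.9056 0.966 3.4741 0.0004278 0.007524 0.00002264 0.0000003101 0.001341 0.0000003101 0.0000003101 0.0000003101 2.7851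
    hβ hN hx1 hx2 hy1 hy2 (by norm_num) (by norm_num) (by linarith) (by norm_num) (by norm_num) (by norm_num) (by norm_num) (by norm_num) (by norm_num) (by norm_num) (by norm_num) (by norm_num) (by norm_num) (by norm_num) (by norm_num) (by norm_num) (by norm_num) (by norm_num) (by norm_num) (by norm_num) (by norm_num) (by norm_num) (by norm_num) (by norm_num)
    (cube_sqrt_geJ (s := 0.794) (by norm_num) (by norm_num) (by norm_num) (by norm_num))
    (cube_sqrt_geJ (s := 0.9296) (by norm_num) (by norm_num) (by norm_num) (by norm_num))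
    (by norm_num) (by norm_num) (by norm_num) (by norm_num) (by norm_num) (by norm_num) (by norm_num) (by norm_num) (by norm_num) (by norm_num) (by norm_num) (by norm_num) (by norm_num) (by norm_num) (by norm_num) (by norm_num) (by norm_num) (by norm_num)
    (exp_neg_leJ (r := 0.758) 7 (by norm_num) (by norm_num) (by norm_num) (by norm_num))
    (exp_neg_leJ (r := 0.892) 4 (by norm_num) (by norm_num) (by norm_num) (by norm_num))
    (exp_neg_leJ (r := 0.697) 10 (by norm_num) (by norm_num) (by norm_num) (by norm_num))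
    (exp_neg_leJ (r := 0.99) 14 (by norm_num) (by norm_num) (by norm_num) (by norm_num))
    (exp_neg_leJ (r := 0.615) 6 (by norm_num) (by norm_num) (by norm_num) (by norm_num))
    (exp_neg_leJ (r := 0.99) 14 (by norm_num) (by norm_num) (by norm_num) (by norm_num))
    (exp_neg_leJ (r := 0.99) 14 (by norm_num) (by norm_num) (by norm_num) (by norm_num))
    (exp_neg_leJ (r := 0.99) 14 (by norm_num) (by norm_num) (by norm_num) (by norm_num))
    (by norm_num)) (by norm_num) hN hβ.le (by norm_num)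

private theorem T3_04_p0_c0 {κ t β : ℝ} (h : DomR κ t) (hβ : 0 < β) (hk1 : 0.38 ≤ κ) (hk2 : κ ≤ 0.39)
    (ht1 : -0.9504 ≤ t + κ) (ht2 : t + κ ≤ -0.71239) (hR0 : β * 10 ≤ κ) (hR : β * (1 * (1 + κ ^ 2)) ≤ κ) :
    ‖HH β (sg κ t) - 1‖ ≤ 0.155 := by
  have hN : β * 25.641 ≤ 1 := bNR hβ h.1 hk2 hR0 (by norm_num)
  have hy1 : -0.548 ≤ sy κ t := syL_ang2 h 0.38 0.39 0.9504 0.947 0.5841 0.8119 0.548 1.72978 0.5781 hk1 hk2 (by linarith) (by norm_num) (by norm_num) (by norm_num) (by norm_num)
    (cos_ge_num (by norm_num) (by norm_num)) (sin_le_num (by norm_num) (by norm_num))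
    (expn_ge (by norm_num) (by norm_num)) (expm_ge (by norm_num) (by norm_num) (by norm_num) (by norm_num)) (by norm_num) (by norm_num) (by norm_num)
    (by norm_num) (by norm_num) (by norm_num)
  have hy2 : sy κ t ≤ -0.327 := syL_le h 0.38 0.39 0.71239 0.327 0.72108 0.72109 0.60459 0.62052 hk1 hk2 (by linarith) (by norm_num) (by norm_num) (by norm_num)
    (expm_ge (by norm_num) (by norm_num) (by norm_num) (by norm_num)) (expm_le (by norm_num) (by norm_num) (by norm_num)) (by norm_num)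
    (by norm_num) (by norm_num) (by norm_num) (by norm_num) (by norm_num) (by norm_num)
  rcases le_total (sy κ t) (-0.533) with f0 | g0
  · have hx1 : 0.3449 ≤ sx κ t := sx_lo h 0.38 (-0.533) 0.548 1.70403 0.3449 hk1 (by norm_num) f0 (abs_le.2 ⟨by linarith, by linarith⟩) (by rw [neg_neg]; exact expn_ge (by norm_num) (by norm_num)) (by norm_num) (by norm_num)
    have hx2 : sx κ t ≤ 0.4136 := sx_hi h 0.39 (-0.548) 0.533 1.72979 0.4136 hk2 hy1 (by norm_num) (by rw [abs_of_nonpos (by linarith)]; linarith) (by rw [neg_neg]; exact expn_le (by norm_num) (by norm_num) (by norm_num)) (by norm_num) (by norm_num)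
    exact T3_04_p0_b0_0 hβ hN hx1 hx2 (by linarith) (by linarith)
  rcases le_total (sy κ t) (-0.503) with f1 | g1
  · have hx1 : 0.3328 ≤ sx κ t := sx_lo h 0.38 (-0.503) 0.533 1.65367 0.3328 hk1 (by norm_num) f1 (abs_le.2 ⟨by linarith, by linarith⟩) (by rw [neg_neg]; exact expn_ge (by norm_num) (by norm_num)) (by norm_num) (by norm_num)
    have hx2 : sx κ t ≤ 0.4344 := sx_hi h 0.39 (-0.533) 0.503 1.70404 0.4344 hk2 g0 (by norm_num) (by rw [abs_of_nonpos (by linarith)]; linarith) (by rw [neg_neg]; exact expn_le (by norm_num) (by norm_num) (by norm_num)) (by norm_num) (by norm_num)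
    exact T3_04_p0_b0_1 hβ hN hx1 hx2 (by linarith) (by linarith)
  rcases le_total (sy κ t) (-0.438) with f2 | g2
  · have hx1 : 0.3061 ≤ sx κ t := sx_lo h 0.38 (-0.438) 0.503 1.5496 0.3061 hk1 (by norm_num) f2 (abs_le.2 ⟨by linarith, by linarith⟩) (by rw [neg_neg]; exact expn_ge (by norm_num) (by norm_num)) (by norm_num) (by norm_num)
    have hx2 : sx κ t ≤ 0.4734 := sx_hi h 0.39 (-0.503) 0.438 1.65368 0.4734 hk2 g1 (by norm_num) (by rw [abs_of_nonpos (by linarith)]; linarith) (by rw [neg_neg]; exact expn_le (by norm_num) (by norm_num) (by norm_num)) (by norm_num) (by norm_num)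
    exact T3_04_p0_b0_2 hβ hN hx1 hx2 (by linarith) (by linarith)
  have hx1 : 0.293 ≤ sx κ t := sx_lo h 0.38 (-0.327) 0.438 1.3868 0.293 hk1 (by norm_num) hy2 (abs_le.2 ⟨by linarith, by linarith⟩) (by rw [neg_neg]; exact expn_ge (by norm_num) (by norm_num)) (by norm_num) (by norm_num)
  have hx2 : sx κ t ≤ 0.5083 := sx_hi h 0.39 (-0.438) 0.327 1.54961 0.5083 hk2 g2 (by norm_num) (by rw [abs_of_nonpos (by linarith)]; linarith) (by rw [neg_neg]; exact expn_le (by norm_num) (by norm_num) (by norm_num)) (by norm_num) (by norm_num)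
  exact T3_04_p0_b0_3 hβ hN hx1 hx2 (by linarith) (by linarith)

private theorem T3_04_p0_b1_0 {β x y : ℝ} (hβ : 0 < β) (hN : β * 24.999 ≤ 1) (hx1 : 0.3772 ≤ x) (hx2 : x ≤ 0.4328)
    (hy1 : -0.565 ≤ y) (hy2 : y ≤ -0.555) : ‖HH β (x + y * I) - 1‖ ≤ 0.155 := by
  refine le_epsJ (C := 3.8326) (N0 := 24.999) (J_boxp 0.3772 0.4328 0.565 0 (-0.555) 0.5744 0.7118 0.6208 1.8099 0.3144 4.9999 24.999 1.2393 6.458 1.779 0.7321 0.2871 0.1685 0.2455 2.0052 0.2295 1.0222 0.7892 3.5316 0.000764 0.01482 0.002162 0.0000003101 0.003228 0.0000003101 0.0000003101 0.0000003101 3.8326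
    hβ hN hx1 hx2 hy1 hy2 (by norm_num) (by norm_num) (by linarith) (by norm_num) (by norm_num) (by norm_num) (by norm_num) (by norm_num) (by norm_num) (by norm_num) (by norm_num) (by norm_num) (by norm_num) (by norm_num) (by norm_num) (by norm_num) (by norm_num) (by norm_num) (by norm_num) (by norm_num) (by norm_num) (by norm_num) (by norm_num) (by norm_num)
    (cube_sqrt_geJ (s := 0.766) (by norm_num) (by norm_num) (by norm_num) (by norm_num))
    (cube_sqrt_geJ (s := 0.921) (by norm_num) (by norm_num) (by norm_num) (by norm_num))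
    (by norm_num) (by norm_num) (by norm_num) (by norm_num) (by norm_num) (by norm_num) (by norm_num) (by norm_num) (by norm_num) (by norm_num) (by norm_num) (by norm_num) (by norm_num) (by norm_num) (by norm_num) (by norm_num) (by norm_num) (by norm_num)
    (exp_neg_leJ (r := 0.177) 7 (by norm_num) (by norm_num) (by norm_num) (by norm_num))
    (exp_neg_leJ (r := 0.212) 4 (by norm_num) (by norm_num) (by norm_num) (by norm_num))
    (exp_neg_leJ (r := 0.137) 6 (by norm_num) (by norm_num) (by norm_num) (by norm_num))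
    (exp_neg_leJ (r := 0.99) 14 (by norm_num) (by norm_num) (by norm_num) (by norm_num))
    (exp_neg_leJ (r := 0.737) 5 (by norm_num) (by norm_num) (by norm_num) (by norm_num))
    (exp_neg_leJ (r := 0.99) 14 (by norm_num) (by norm_num) (by norm_num) (by norm_num))
    (exp_neg_leJ (r := 0.99) 14 (by norm_num) (by norm_num) (by norm_num) (by norm_num))
    (exp_neg_leJ (r := 0.99) 14 (by norm_num) (by norm_num) (by norm_num) (by norm_num))
    (by norm_num)) (by norm_num) hN hβ.le (by norm_num)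

private theorem T3_04_p0_b1_1 {β x y : ℝ} (hβ : 0 < β) (hN : β * 24.999 ≤ 1) (hx1 : 0.3739 ≤ x) (hx2 : x ≤ 0.4404)
    (hy1 : -0.555 ≤ y) (hy2 : y ≤ -0.54) : ‖HH β (x + y * I) - 1‖ ≤ 0.155 := by
  refine le_epsJ (C := 3.657) (N0 := 24.999) (J_boxp 0.3739 0.4404 0.555 0 (-0.54) 0.5792 0.7086 0.6369 1.8105 0.3184 4.9999 24.999 1.2235 6.259 1.765 0.7384 0.2895 0.1714 0.2602 2.0351 0.2334 1.0177 0.8098 3.5337 0.0007195 0.01379 0.001498 0.0000003101 0.002932 0.0000003101 0.0000003101 0.0000003101 3.657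
    hβ hN hx1 hx2 hy1 hy2 (by norm_num) (by norm_num) (by linarith) (by norm_num) (by norm_num) (by norm_num) (by norm_num) (by norm_num) (by norm_num) (by norm_num) (by norm_num) (by norm_num) (by norm_num) (by norm_num) (by norm_num) (by norm_num) (by norm_num) (by norm_num) (by norm_num) (by norm_num) (by norm_num) (by norm_num) (by norm_num) (by norm_num)
    (cube_sqrt_geJ (s := 0.7695) (by norm_num) (by norm_num) (by norm_num) (by norm_num))
    (cube_sqrt_geJ (s := 0.922) (by norm_num) (by norm_num) (by norm_num) (by norm_num))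
    (by norm_num) (by norm_num) (by norm_num) (by norm_num) (by norm_num) (by norm_num) (by norm_num) (by norm_num) (by norm_num) (by norm_num) (by norm_num) (by norm_num) (by norm_num) (by norm_num) (by norm_num) (by norm_num) (by norm_num) (by norm_num)
    (exp_neg_leJ (r := 0.237) 7 (by norm_num) (by norm_num) (by norm_num) (by norm_num))
    (exp_neg_leJ (r := 0.284) 4 (by norm_num) (by norm_num) (by norm_num) (by norm_num))
    (exp_neg_leJ (r := 0.504) 6 (by norm_num) (by norm_num) (by norm_num) (by norm_num))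
    (exp_neg_leJ (r := 0.99) 14 (by norm_num) (by norm_num) (by norm_num) (by norm_num))
    (exp_neg_leJ (r := 0.834) 5 (by norm_num) (by norm_num) (by norm_num) (by norm_num))
    (exp_neg_leJ (r := 0.99) 14 (by norm_num) (by norm_num) (by norm_num) (by norm_num))
    (exp_neg_leJ (r := 0.99) 14 (by norm_num) (by norm_num) (by norm_num) (by norm_num))
    (exp_neg_leJ (r := 0.99) 14 (by norm_num) (by norm_num) (by norm_num) (by norm_num))
    (by norm_num)) (by norm_num) hN hβ.le (by norm_num)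

private theorem T3_04_p0_b1_2 {β x y : ℝ} (hβ : 0 < β) (hN : β * 24.999 ≤ 1) (hx1 : 0.3608 ≤ x) (hx2 : x ≤ 0.4595)
    (hy1 : -0.54 ≤ y) (hy2 : y ≤ -0.51) : ‖HH β (x + y * I) - 1‖ ≤ 0.155 := by
  refine le_epsJ (C := 3.7136) (N0 := 24.999) (J_boxp 0.3608 0.4595 0.54 0 (-0.51) 0.5806 0.7091 0.6718 1.8527 0.327 4.9999 24.999 1.2214 6.233 1.764 0.7449 0.2902 0.1721 0.2794 2.0761 0.2352 0.9995 0.8244 3.5061 0.0007074 0.01355 0.0009298 0.0000003101 0.002804 0.0000003101 0.0000003101 0.0000003101 3.7136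
    hβ hN hx1 hx2 hy1 hy2 (by norm_num) (by norm_num) (by linarith) (by norm_num) (by norm_num) (by norm_num) (by norm_num) (by norm_num) (by norm_num) (by norm_num) (by norm_num) (by norm_num) (by norm_num) (by norm_num) (by norm_num) (by norm_num) (by norm_num) (by norm_num) (by norm_num) (by norm_num) (by norm_num) (by norm_num) (by norm_num) (by norm_num)
    (cube_sqrt_geJ (s := 0.7699) (by norm_num) (by norm_num) (by norm_num) (by norm_num))
    (cube_sqrt_geJ (s := 0.9221) (by norm_num) (by norm_num) (by norm_num) (by norm_num))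
    (by norm_num) (by norm_num) (by norm_num) (by norm_num) (by norm_num) (by norm_num) (by norm_num) (by norm_num) (by norm_num) (by norm_num) (by norm_num) (by norm_num) (by norm_num) (by norm_num) (by norm_num) (by norm_num) (by norm_num) (by norm_num)
    (exp_neg_leJ (r := 0.254) 7 (by norm_num) (by norm_num) (by norm_num) (by norm_num))
    (exp_neg_leJ (r := 0.302) 4 (by norm_num) (by norm_num) (by norm_num) (by norm_num))
    (exp_neg_leJ (r := 0.984) 6 (by norm_num) (by norm_num) (by norm_num) (by norm_num))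
    (exp_neg_leJ (r := 0.99) 14 (by norm_num) (by norm_num) (by norm_num) (by norm_num))
    (exp_neg_leJ (r := 0.879) 5 (by norm_num) (by norm_num) (by norm_num) (by norm_num))
    (exp_neg_leJ (r := 0.99) 14 (by norm_num) (by norm_num) (by norm_num) (by norm_num))
    (exp_neg_leJ (r := 0.99) 14 (by norm_num) (by norm_num) (by norm_num) (by norm_num))
    (exp_neg_leJ (r := 0.99) 14 (by norm_num) (by norm_num) (by norm_num) (by norm_num))
    (by norm_num)) (by norm_num) hN hβ.le (by norm_num)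

private theorem T3_04_p0_b1_3 {β x y : ℝ} (hβ : 0 < β) (hN : β * 24.999 ≤ 1) (hx1 : 0.3376 ≤ x) (hx2 : x ≤ 0.4912)
    (hy1 : -0.51 ≤ y) (hy2 : y ≤ -0.45) : ‖HH β (x + y * I) - 1‖ ≤ 0.155 := by
  refine le_epsJ (C := 3.6975) (N0 := 24.999) (J_boxp 0.3376 0.4912 0.51 0 (-0.45) 0.5856 0.7081 0.7375 1.9164 0.3427 4.9999 24.999 1.2092 6.086 1.753 0.7604 0.2927 0.1747 0.3188 2.1608 0.2403 0.9674 0.8595 3.4624 0.0006642 0.01269 0.0003472 0.0000003101 0.002462 0.0000003101 0.0000003101 0.0000003101 3.6975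
    hβ hN hx1 hx2 hy1 hy2 (by norm_num) (by norm_num) (by linarith) (by norm_num) (by norm_num) (by norm_num) (by norm_num) (by norm_num) (by norm_num) (by norm_num) (by norm_num) (by norm_num) (by norm_num) (by norm_num) (by norm_num) (by norm_num) (by norm_num) (by norm_num) (by norm_num) (by norm_num) (by norm_num) (by norm_num) (by norm_num) (by norm_num)
    (cube_sqrt_geJ (s := 0.7726) (by norm_num) (by norm_num) (by norm_num) (by norm_num))
    (cube_sqrt_geJ (s := 0.923) (by norm_num) (by norm_num) (by norm_num) (by norm_num))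
    (by norm_num) (by norm_num) (by norm_num) (by norm_num) (by norm_num) (by norm_num) (by norm_num) (by norm_num) (by norm_num) (by norm_num) (by norm_num) (by norm_num) (by norm_num) (by norm_num) (by norm_num) (by norm_num) (by norm_num) (by norm_num)
    (exp_neg_leJ (r := 0.317) 7 (by norm_num) (by norm_num) (by norm_num) (by norm_num))
    (exp_neg_leJ (r := 0.367) 4 (by norm_num) (by norm_num) (by norm_num) (by norm_num))
    (exp_neg_leJ (r := 0.969) 7 (by norm_num) (by norm_num) (by norm_num) (by norm_num))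
    (exp_neg_leJ (r := 0.99) 14 (by norm_num) (by norm_num) (by norm_num) (by norm_num))
    (exp_neg_leJ (r := 0.007) 6 (by norm_num) (by norm_num) (by norm_num) (by norm_num))
    (exp_neg_leJ (r := 0.99) 14 (by norm_num) (by norm_num) (by norm_num) (by norm_num))
    (exp_neg_leJ (r := 0.99) 14 (by norm_num) (by norm_num) (by norm_num) (by norm_num))
    (exp_neg_leJ (r := 0.99) 14 (by norm_num) (by norm_num) (by norm_num) (by norm_num))
    (by norm_num)) (by norm_num) hN hβ.le (by norm_num)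

private theorem T3_04_p0_b1_4 {β x y : ℝ} (hβ : 0 < β) (hN : β * 24.999 ≤ 1) (hx1 : 0.3087 ≤ x) (hx2 : x ≤ 0.5298)
    (hy1 : -0.45 ≤ y) (hy2 : y ≤ -0.336) : ‖HH β (x + y * I) - 1‖ ≤ 0.155 := by
  refine le_epsJ (C := 3.0818) (N0 := 24.999) (J_boxp 0.3087 0.5298 0.45 0 (-0.336) 0.6079 0.6952 0.8495 1.9447 0.3677 4.9999 24.999 1.1437 5.367 1.696 0.8009 0.3039 0.188 0.4036 2.3407 0.2591 0.9274 0.9648 3.4397 0.0005022 0.009112 0.00004154 0.0000003101 0.001539 0.0000003101 0.0000003101 0.0000003101 3.0818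
    hβ hN hx1 hx2 hy1 hy2 (by norm_num) (by norm_num) (by linarith) (by norm_num) (by norm_num) (by norm_num) (by norm_num) (by norm_num) (by norm_num) (by norm_num) (by norm_num) (by norm_num) (by norm_num) (by norm_num) (by norm_num) (by norm_num) (by norm_num) (by norm_num) (by norm_num) (by norm_num) (by norm_num) (by norm_num) (by norm_num) (by norm_num)
    (cube_sqrt_geJ (s := 0.7866) (by norm_num) (by norm_num) (by norm_num) (by norm_num))
    (cube_sqrt_geJ (s := 0.9273) (by norm_num) (by norm_num) (by norm_num) (by norm_num))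
    (by norm_num) (by norm_num) (by norm_num) (by norm_num) (by norm_num) (by norm_num) (by norm_num) (by norm_num) (by norm_num) (by norm_num) (by norm_num) (by norm_num) (by norm_num) (by norm_num) (by norm_num) (by norm_num) (by norm_num) (by norm_num)
    (exp_neg_leJ (r := 0.597) 7 (by norm_num) (by norm_num) (by norm_num) (by norm_num))
    (exp_neg_leJ (r := 0.699) 4 (by norm_num) (by norm_num) (by norm_num) (by norm_num))
    (exp_neg_leJ (r := 0.089) 10 (by norm_num) (by norm_num) (by norm_num) (by norm_num))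
    (exp_neg_leJ (r := 0.99) 14 (by norm_num) (by norm_num) (by norm_num) (by norm_num))
    (exp_neg_leJ (r := 0.477) 6 (by norm_num) (by norm_num) (by norm_num) (by norm_num))
    (exp_neg_leJ (r := 0.99) 14 (by norm_num) (by norm_num) (by norm_num) (by norm_num))
    (exp_neg_leJ (r := 0.99) 14 (by norm_num) (by norm_num) (by norm_num) (by norm_num))
    (exp_neg_leJ (r := 0.99) 14 (by norm_num) (by norm_num) (by norm_num) (by norm_num))
    (by norm_num)) (by norm_num) hN hβ.le (by norm_num)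

private theorem T3_04_p0_c1 {κ t β : ℝ} (h : DomR κ t) (hβ : 0 < β) (hk1 : 0.39 ≤ κ) (hk2 : κ ≤ 0.4)
    (ht1 : -0.9504 ≤ t + κ) (ht2 : t + κ ≤ -0.71239) (hR0 : β * 10 ≤ κ) (hR : β * (1 * (1 + κ ^ 2)) ≤ κ) :
    ‖HH β (sg κ t) - 1‖ ≤ 0.155 := by
  have hN : β * 24.999 ≤ 1 := bNR hβ h.1 hk2 hR0 (by norm_num)
  have hy1 : -0.565 ≤ sy κ t := syL_ang2 h 0.39 0.4 0.9504 0.931 0.597 0.8024 0.565 1.75944 0.56836 hk1 hk2 (by linarith) (by norm_num) (by norm_num) (by norm_num) (by norm_num)
    (cos_ge_num (by norm_num) (by norm_num)) (sin_le_num (by norm_num) (by norm_num))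
    (expn_ge (by norm_num) (by norm_num)) (expm_ge (by norm_num) (by norm_num) (by norm_num) (by norm_num)) (by norm_num) (by norm_num) (by norm_num)
    (by norm_num) (by norm_num) (by norm_num)
  have hy2 : sy κ t ≤ -0.336 := syL_le h 0.39 0.4 0.71239 0.336 0.71462 0.71463 0.60028 0.61569 hk1 hk2 (by linarith) (by norm_num) (by norm_num) (by norm_num)
    (expm_ge (by norm_num) (by norm_num) (by norm_num) (by norm_num)) (expm_le (by norm_num) (by norm_num) (by norm_num)) (by norm_num)
    (by norm_num) (by norm_num) (by norm_num) (by norm_num) (by norm_num) (by norm_num)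
  rcases le_total (sy κ t) (-0.555) with f0 | g0
  · have hx1 : 0.3772 ≤ sx κ t := sx_lo h 0.39 (-0.555) 0.565 1.74193 0.3772 hk1 (by norm_num) f0 (abs_le.2 ⟨by linarith, by linarith⟩) (by rw [neg_neg]; exact expn_ge (by norm_num) (by norm_num)) (by norm_num) (by norm_num)
    have hx2 : sx κ t ≤ 0.4328 := sx_hi h 0.4 (-0.565) 0.555 1.75945 0.4328 hk2 hy1 (by norm_num) (by rw [abs_of_nonpos (by linarith)]; linarith) (by rw [neg_neg]; exact expn_le (by norm_num) (by norm_num) (by norm_num)) (by norm_num) (by norm_num)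
    exact T3_04_p0_b1_0 hβ hN hx1 hx2 (by linarith) (by linarith)
  rcases le_total (sy κ t) (-0.54) with f1 | g1
  · have hx1 : 0.3739 ≤ sx κ t := sx_lo h 0.39 (-0.54) 0.555 1.716 0.3739 hk1 (by norm_num) f1 (abs_le.2 ⟨by linarith, by linarith⟩) (by rw [neg_neg]; exact expn_ge (by norm_num) (by norm_num)) (by norm_num) (by norm_num)
    have hx2 : sx κ t ≤ 0.4404 := sx_hi h 0.4 (-0.555) 0.54 1.74195 0.4404 hk2 g0 (by norm_num) (by rw [abs_of_nonpos (by linarith)]; linarith) (by rw [neg_neg]; exact expn_le (by norm_num) (by norm_num) (by norm_num)) (by norm_num) (by norm_num)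
    exact T3_04_p0_b1_1 hβ hN hx1 hx2 (by linarith) (by linarith)
  rcases le_total (sy κ t) (-0.51) with f2 | g2
  · have hx1 : 0.3608 ≤ sx κ t := sx_lo h 0.39 (-0.51) 0.54 1.66528 0.3608 hk1 (by norm_num) f2 (abs_le.2 ⟨by linarith, by linarith⟩) (by rw [neg_neg]; exact expn_ge (by norm_num) (by norm_num)) (by norm_num) (by norm_num)
    have hx2 : sx κ t ≤ 0.4595 := sx_hi h 0.4 (-0.54) 0.51 1.71601 0.4595 hk2 g1 (by norm_num) (by rw [abs_of_nonpos (by linarith)]; linarith) (by rw [neg_neg]; exact expn_le (by norm_num) (by norm_num) (by norm_num)) (by norm_num) (by norm_num)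
    exact T3_04_p0_b1_2 hβ hN hx1 hx2 (by linarith) (by linarith)
  rcases le_total (sy κ t) (-0.45) with f3 | g3
  · have hx1 : 0.3376 ≤ sx κ t := sx_lo h 0.39 (-0.45) 0.51 1.56831 0.3376 hk1 (by norm_num) f3 (abs_le.2 ⟨by linarith, by linarith⟩) (by rw [neg_neg]; exact expn_ge (by norm_num) (by norm_num)) (by norm_num) (by norm_num)
    have hx2 : sx κ t ≤ 0.4912 := sx_hi h 0.4 (-0.51) 0.45 1.6653 0.4912 hk2 g2 (by norm_num) (by rw [abs_of_nonpos (by linarith)]; linarith) (by rw [neg_neg]; exact expn_le (by norm_num) (by norm_num) (by norm_num)) (by norm_num) (by norm_num)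
    exact T3_04_p0_b1_3 hβ hN hx1 hx2 (by linarith) (by linarith)
  have hx1 : 0.3087 ≤ sx κ t := sx_lo h 0.39 (-0.336) 0.45 1.39933 0.3087 hk1 (by norm_num) hy2 (abs_le.2 ⟨by linarith, by linarith⟩) (by rw [neg_neg]; exact expn_ge (by norm_num) (by norm_num)) (by norm_num) (by norm_num)
  have hx2 : sx κ t ≤ 0.5298 := sx_hi h 0.4 (-0.45) 0.336 1.56832 0.5298 hk2 g3 (by norm_num) (by rw [abs_of_nonpos (by linarith)]; linarith) (by rw [neg_neg]; exact expn_le (by norm_num) (by norm_num) (by norm_num)) (by norm_num) (by norm_num)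
  exact T3_04_p0_b1_4 hβ hN hx1 hx2 (by linarith) (by linarith)

theorem T3_04_p0 {κ t β : ℝ} (h : DomR κ t) (hβ : 0 < β) (hk1 : 0.38 ≤ κ) (hk2 : κ ≤ 0.4)
    (ht1 : -0.9504 ≤ t + κ) (ht2 : t + κ ≤ -0.71239) (hR0 : β * 10 ≤ κ) (hR : β * (1 * (1 + κ ^ 2)) ≤ κ) :
    ‖HH β (sg κ t) - 1‖ ≤ 0.155 := by
  rcases le_total κ 0.39 with f0 | g0
  · exact T3_04_p0_c0 h hβ hk1 f0 ht1 ht2 hR0 hR
  exact T3_04_p0_c1 h hβ g0 hk2 ht1 ht2 hR0 hR

private theorem T3_04_p0R_b0_0 {β x y : ℝ} (hβ : 0 < β) (hN : β * 24.999 ≤ 1) (hx1 : 0.3636 ≤ x) (hx2 : x ≤ 0.4912)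
    (hy1 : -0.353 ≤ y) (hy2 : y ≤ -0.288) : ‖HH β (x + y * I) - 1‖ ≤ 0.04 := by
  refine le_epsJ (C := 0.9888) (N0 := 24.999) (J_boxp 0.3636 0.4912 0.353 0 (-0.288) 0.7154 0.6049 0.865 1.5371 0.3711 4.9999 24.999 0.8456 3.187 1.467 0.9053 0.3576 0.2568 0.5755 2.6815 0.3387 1.0034 1.3383 3.795 0.0001316 0.001631 0.0000005653 0.0000003101 0.0002104 0.0000003101 0.0000003101 0.0000003101 0.9888
    hβ hN hx1 hx2 hy1 hy2 (by norm_num) (by norm_num) (by linarith) (by norm_num) (by norm_num) (by norm_num) (by norm_num) (by norm_num) (by norm_num) (by norm_num) (by norm_num) (by norm_num) (by norm_num) (by norm_num) (by norm_num) (by norm_num) (by norm_num) (by norm_num) (by norm_num) (by norm_num) (by norm_num) (by norm_num) (by norm_num) (by norm_num)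
    (cube_sqrt_geJ (s := 0.8474) (by norm_num) (by norm_num) (by norm_num) (by norm_num))
    (cube_sqrt_geJ (s := 0.9468) (by norm_num) (by norm_num) (by norm_num) (by norm_num))
    (by norm_num) (by norm_num) (by norm_num) (by norm_num) (by norm_num) (by norm_num) (by norm_num) (by norm_num) (by norm_num) (by norm_num) (by norm_num) (by norm_num) (by norm_num) (by norm_num) (by norm_num) (by norm_num) (by norm_num) (by norm_num)
    (exp_neg_leJ (r := 0.939) 8 (by norm_num) (by norm_num) (by norm_num) (by norm_num))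
    (exp_neg_leJ (r := 0.419) 6 (by norm_num) (by norm_num) (by norm_num) (by norm_num))
    (exp_neg_leJ (r := 0.386) 14 (by norm_num) (by norm_num) (by norm_num) (by norm_num))
    (exp_neg_leJ (r := 0.99) 14 (by norm_num) (by norm_num) (by norm_num) (by norm_num))
    (exp_neg_leJ (r := 0.467) 8 (by norm_num) (by norm_num) (by norm_num) (by norm_num))
    (exp_neg_leJ (r := 0.99) 14 (by norm_num) (by norm_num) (by norm_num) (by norm_num))
    (exp_neg_leJ (r := 0.99) 14 (by norm_num) (by norm_num) (by norm_num) (by norm_num))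
    (exp_neg_leJ (r := 0.99) 14 (by norm_num) (by norm_num) (by norm_num) (by norm_num))
    (by norm_num)) (by norm_num) hN hβ.le (by norm_num)

private theorem T3_04_p0R_b0_1 {β x y : ℝ} (hβ : 0 < β) (hN : β * 24.999 ≤ 1) (hx1 : 0.3102 ≤ x) (hx2 : x ≤ 0.5225)
    (hy1 : -0.288 ≤ y) (hy2 : y ≤ -0.108) : ‖HH β (x + y * I) - 1‖ ≤ 0.04 := by
  refine le_epsJ (C := 0.9932) (N0 := 24.999) (J_boxp 0.3102 0.5225 0.288 0 (-0.108) 0.7239 0.5967 1.0338 1.6509 0.4057 4.9999 24.999 0.8243 3.079 1.452 0.9533 0.3619 0.2624 0.6598 2.878 0.3483 0.9295 1.4082 3.7104 0.0001178 0.001418 0.0000003101 0.0000003101 0.0001656 0.0000003101 0.0000003101 0.0000003101 0.9932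
    hβ hN hx1 hx2 hy1 hy2 (by norm_num) (by norm_num) (by linarith) (by norm_num) (by norm_num) (by norm_num) (by norm_num) (by norm_num) (by norm_num) (by norm_num) (by norm_num) (by norm_num) (by norm_num) (by norm_num) (by norm_num) (by norm_num) (by norm_num) (by norm_num) (by norm_num) (by norm_num) (by norm_num) (by norm_num) (by norm_num) (by norm_num)
    (cube_sqrt_geJ (s := 0.8516) (by norm_num) (by norm_num) (by norm_num) (by norm_num))
    (cube_sqrt_geJ (s := 0.9481) (by norm_num) (by norm_num) (by norm_num) (by norm_num))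
    (by norm_num) (by norm_num) (by norm_num) (by norm_num) (by norm_num) (by norm_num) (by norm_num) (by norm_num) (by norm_num) (by norm_num) (by norm_num) (by norm_num) (by norm_num) (by norm_num) (by norm_num) (by norm_num) (by norm_num) (by norm_num)
    (exp_neg_leJ (r := 0.047) 9 (by norm_num) (by norm_num) (by norm_num) (by norm_num))
    (exp_neg_leJ (r := 0.559) 6 (by norm_num) (by norm_num) (by norm_num) (by norm_num))
    (exp_neg_leJ (r := 0.99) 14 (by norm_num) (by norm_num) (by norm_num) (by norm_num))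
    (exp_neg_leJ (r := 0.99) 14 (by norm_num) (by norm_num) (by norm_num) (by norm_num))
    (exp_neg_leJ (r := 0.707) 8 (by norm_num) (by norm_num) (by norm_num) (by norm_num))
    (exp_neg_leJ (r := 0.99) 14 (by norm_num) (by norm_num) (by norm_num) (by norm_num))
    (exp_neg_leJ (r := 0.99) 14 (by norm_num) (by norm_num) (by norm_num) (by norm_num))
    (exp_neg_leJ (r := 0.99) 14 (by norm_num) (by norm_num) (by norm_num) (by norm_num))
    (by norm_num)) (by norm_num) hN hβ.le (by norm_num)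

private theorem T3_04_p0R_b0_2 {β x y : ℝ} (hβ : 0 < β) (hN : β * 24.999 ≤ 1) (hx1 : 0.3623 ≤ x) (hx2 : x ≤ 0.4457)
    (hy1 : -0.108 ≤ y) (hy2 : y ≤ 0.005) : ‖HH β (x + y * I) - 1‖ ≤ 0.04 := by
  refine le_epsJ (C := 0.2656) (N0 := 24.999) (J_boxp 0.3623 0.4457 0.108 0.005 0.005 0.8884 0.4586 1.0994 1.2522 0.4184 4.9999 24.999 0.5163 1.937 1.257 1.149 0.4441 0.3677 0.9618 3.5039 0.4714 1.0011 1.9802 4.1665 0.00001509 0.0001019 0.0000003101 0.0000003101 0.000007636 0.0000003101 0.0000003101 0.0000003101 0.2656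
    hβ hN hx1 hx2 hy1 hy2 (by norm_num) (by norm_num) (by linarith) (by norm_num) (by norm_num) (by norm_num) (by norm_num) (by norm_num) (by norm_num) (by norm_num) (by norm_num) (by norm_num) (by norm_num) (by norm_num) (by norm_num) (by norm_num) (by norm_num) (by norm_num) (by norm_num) (by norm_num) (by norm_num) (by norm_num) (by norm_num) (by norm_num)
    (cube_sqrt_geJ (s := 0.9098) (by norm_num) (by norm_num) (by norm_num) (by norm_num))
    (cube_sqrt_geJ (s := 0.9678) (by norm_num) (by norm_num) (by norm_num) (by norm_num))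
    (by norm_num) (by norm_num) (by norm_num) (by norm_num) (by norm_num) (by norm_num) (by norm_num) (by norm_num) (by norm_num) (by norm_num) (by norm_num) (by norm_num) (by norm_num) (by norm_num) (by norm_num) (by norm_num) (by norm_num) (by norm_num)
    (exp_neg_leJ (r := 0.102) 11 (by norm_num) (by norm_num) (by norm_num) (by norm_num))
    (exp_neg_leJ (r := 0.192) 9 (by norm_num) (by norm_num) (by norm_num) (by norm_num))
    (exp_neg_leJ (r := 0.99) 14 (by norm_num) (by norm_num) (by norm_num) (by norm_num))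
    (exp_neg_leJ (r := 0.99) 14 (by norm_num) (by norm_num) (by norm_num) (by norm_num))
    (exp_neg_leJ (r := 0.784) 11 (by norm_num) (by norm_num) (by norm_num) (by norm_num))
    (exp_neg_leJ (r := 0.99) 14 (by norm_num) (by norm_num) (by norm_num) (by norm_num))
    (exp_neg_leJ (r := 0.99) 14 (by norm_num) (by norm_num) (by norm_num) (by norm_num))
    (exp_neg_leJ (r := 0.99) 14 (by norm_num) (by norm_num) (by norm_num) (by norm_num))
    (by norm_num)) (by norm_num) hN hβ.le (by norm_num)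

private theorem T3_04_p0R_c0 {κ t β : ℝ} (h : DomR κ t) (hβ : 0 < β) (hk1 : 0.38 ≤ κ) (hk2 : κ ≤ 0.4)
    (ht1 : -0.7124 ≤ t + κ) (ht2 : t + κ ≤ 0.0001) (hR0 : β * 10 ≤ κ) (hR : β * (1 * (1 + κ ^ 2)) ≤ κ) :
    ‖HH β (sg κ t) - 1‖ ≤ 0.04 := by
  have hN : β * 24.999 ≤ 1 := bNR hβ h.1 hk2 hR0 (by norm_num)
  have hy1 : -0.353 ≤ sy κ t := syL_ang2 h 0.38 0.4 0.7124 0.668 0.785 0.6195 0.353 1.42333 0.70257 hk1 hk2 (by linarith) (by norm_num) (by norm_num) (by norm_num) (by norm_num)
    (cos_ge_num (by norm_num) (by norm_num)) (sin_le_num (by norm_num) (by norm_num))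
    (expn_ge (by norm_num) (by norm_num)) (expm_ge (by norm_num) (by norm_num) (by norm_num) (by norm_num)) (by norm_num) (by norm_num) (by norm_num)
    (by norm_num) (by norm_num) (by norm_num)
  have hy2 : sy κ t ≤ 0.005 := syR_le h 0.38 0.4 0.0001 0.005 1.00501 0.0123 0.01256 0.01323 hk1 hk2 (by linarith) (by norm_num) (by norm_num)
    (expn_ge (by norm_num) (by norm_num)) (by norm_num) (by norm_num) (Or.inr ((mul_le_mul_of_nonneg_left (expn_le (E := 1.00502) (by norm_num) (by norm_num) (by norm_num)) (by norm_num)).trans (by norm_num))) (by norm_num) (by norm_num) (by norm_num)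
  rcases le_total (sy κ t) (-0.288) with f0 | g0
  · have hx1 : 0.3636 ≤ sx κ t := sx_lo h 0.38 (-0.288) 0.353 1.33375 0.3636 hk1 (by norm_num) f0 (abs_le.2 ⟨by linarith, by linarith⟩) (by rw [neg_neg]; exact expn_ge (by norm_num) (by norm_num)) (by norm_num) (by norm_num)
    have hx2 : sx κ t ≤ 0.4912 := sx_hi h 0.4 (-0.353) 0.288 1.42334 0.4912 hk2 hy1 (by norm_num) (by rw [abs_of_nonpos (by linarith)]; linarith) (by rw [neg_neg]; exact expn_le (by norm_num) (by norm_num) (by norm_num)) (by norm_num) (by norm_num)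
    exact T3_04_p0R_b0_0 hβ hN hx1 hx2 (by linarith) (by linarith)
  rcases le_total (sy κ t) (-0.108) with f1 | g1
  · have hx1 : 0.3102 ≤ sx κ t := sx_lo h 0.38 (-0.108) 0.288 1.11404 0.3102 hk1 (by norm_num) f1 (abs_le.2 ⟨by linarith, by linarith⟩) (by rw [neg_neg]; exact expn_ge (by norm_num) (by norm_num)) (by norm_num) (by norm_num)
    have hx2 : sx κ t ≤ 0.5225 := sx_hi h 0.4 (-0.288) 0.108 1.33376 0.5225 hk2 g0 (by norm_num) (by rw [abs_of_nonpos (by linarith)]; linarith) (by rw [neg_neg]; exact expn_le (by norm_num) (by norm_num) (by norm_num)) (by norm_num) (by norm_num)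
    exact T3_04_p0R_b0_1 hβ hN hx1 hx2 (by linarith) (by linarith)
  have hx1 : 0.3623 ≤ sx κ t := sx_lo h 0.38 0.005 0.108 0.99501 0.3623 hk1 (by norm_num) hy2 (abs_le.2 ⟨by linarith, by linarith⟩) (expm_ge (by norm_num) (by norm_num) (by norm_num) (by norm_num)) (by norm_num) (by norm_num)
  have hx2 : sx κ t ≤ 0.4457 := sx_hi h 0.4 (-0.108) 0 1.11405 0.4457 hk2 g1 (by norm_num) (abs_nonneg _) (by rw [neg_neg]; exact expn_le (by norm_num) (by norm_num) (by norm_num)) (by norm_num) (by norm_num)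
  exact T3_04_p0R_b0_2 hβ hN hx1 hx2 (by linarith) (by linarith)

theorem T3_04_p0R {κ t β : ℝ} (h : DomR κ t) (hβ : 0 < β) (hk1 : 0.38 ≤ κ) (hk2 : κ ≤ 0.4)
    (ht1 : -0.7124 ≤ t + κ) (ht2 : t + κ ≤ 0.0001) (hR0 : β * 10 ≤ κ) (hR : β * (1 * (1 + κ ^ 2)) ≤ κ) :
    ‖HH β (sg κ t) - 1‖ ≤ 0.04 := by
  exact T3_04_p0R_c0 h hβ hk1 hk2 ht1 ht2 hR0 hR

private theorem T3_04_d0_0_b0_0 {β x y : ℝ} (hβ : 0 < β) (hN : β * 25.641 ≤ 1) (hx1 : 0.321 ≤ x) (hx2 : x ≤ 0.4371)
    (hy1 : -0.578 ≤ y) (hy2 : y ≤ -0.508) : ‖HH β (x + y * I) - 1‖ ≤ 0.285 := by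
  refine le_epsJ (C := 6.8143) (N0 := 25.641) (J_boxp 0.321 0.4371 0.578 0 (-0.508) 0.5256 0.7247 0.6582 2.1291 0.3237 5.0637 25.641 1.3789 8.623 1.911 0.7184 0.2627 0.142 0.2058 1.9595 0.1951 0.9444 0.6415 3.3841 0.00119 0.02625 0.005113 0.0000003101 0.006725 0.0000003101 0.0000003101 0.0000003101 6.8143
    hβ hN hx1 hx2 hy1 hy2 (by norm_num) (by norm_num) (by linarith) (by norm_num) (by norm_num) (by norm_num) (by norm_num) (by norm_num) (by norm_num) (by norm_num) (by norm_num) (by norm_num) (by norm_num) (by norm_num) (by norm_num) (by norm_num) (by norm_num) (by norm_num) (by norm_num) (by norm_num) (by norm_num) (by norm_num) (by norm_num) (by norm_num)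
    (cube_sqrt_geJ (s := 0.735) (by norm_num) (by norm_num) (by norm_num) (by norm_num))
    (cube_sqrt_geJ (s := 0.9116) (by norm_num) (by norm_num) (by norm_num) (by norm_num))
    (by norm_num) (by norm_num) (by norm_num) (by norm_num) (by norm_num) (by norm_num) (by norm_num) (by norm_num) (by norm_num) (by norm_num) (by norm_num) (by norm_num) (by norm_num) (by norm_num) (by norm_num) (by norm_num) (by norm_num) (by norm_num)
    (exp_neg_leJ (r := 0.735) 6 (by norm_num) (by norm_num) (by norm_num) (by norm_num))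
    (exp_neg_leJ (r := 0.641) 3 (by norm_num) (by norm_num) (by norm_num) (by norm_num))
    (exp_neg_leJ (r := 0.276) 5 (by norm_num) (by norm_num) (by norm_num) (by norm_num))
    (exp_neg_leJ (r := 0.99) 14 (by norm_num) (by norm_num) (by norm_num) (by norm_num))
    (exp_neg_leJ (r := 0.002) 5 (by norm_num) (by norm_num) (by norm_num) (by norm_num))
    (exp_neg_leJ (r := 0.99) 14 (by norm_num) (by norm_num) (by norm_num) (by norm_num))
    (exp_neg_leJ (r := 0.99) 14 (by norm_num) (by norm_num) (by norm_num) (by norm_num))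
    (exp_neg_leJ (r := 0.99) 14 (by norm_num) (by norm_num) (by norm_num) (by norm_num))
    (by norm_num)) (by norm_num) hN hβ.le (by norm_num)

private theorem T3_04_d0_0_b0_1 {β x y : ℝ} (hβ : 0 < β) (hN : β * 25.641 ≤ 1) (hx1 : 0.3127 ≤ x) (hx2 : x ≤ 0.4517)
    (hy1 : -0.568 ≤ y) (hy2 : y ≤ -0.488) : ‖HH β (x + y * I) - 1‖ ≤ 0.285 := by
  refine le_epsJ (C := 6.8763) (N0 := 25.641) (J_boxp 0.3127 0.4517 0.568 0 (-0.488) 0.5269 0.7258 0.6828 2.1606 0.3297 5.0637 25.641 1.3775 8.596 1.91 0.722 0.2634 0.1424 0.2187 1.9861 0.1966 0.9329 0.6521 3.3645 0.001169 0.02599 0.003674 0.0000003101 0.006468 0.0000003101 0.0000003101 0.0000003101 6.8763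
    hβ hN hx1 hx2 hy1 hy2 (by norm_num) (by norm_num) (by linarith) (by norm_num) (by norm_num) (by norm_num) (by norm_num) (by norm_num) (by norm_num) (by norm_num) (by norm_num) (by norm_num) (by norm_num) (by norm_num) (by norm_num) (by norm_num) (by norm_num) (by norm_num) (by norm_num) (by norm_num) (by norm_num) (by norm_num) (by norm_num) (by norm_num)
    (cube_sqrt_geJ (s := 0.7354) (by norm_num) (by norm_num) (by norm_num) (by norm_num))
    (cube_sqrt_geJ (s := 0.9117) (by norm_num) (by norm_num) (by norm_num) (by norm_num))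
    (by norm_num) (by norm_num) (by norm_num) (by norm_num) (by norm_num) (by norm_num) (by norm_num) (by norm_num) (by norm_num) (by norm_num) (by norm_num) (by norm_num) (by norm_num) (by norm_num) (by norm_num) (by norm_num) (by norm_num) (by norm_num)
    (exp_neg_leJ (r := 0.753) 6 (by norm_num) (by norm_num) (by norm_num) (by norm_num))
    (exp_neg_leJ (r := 0.651) 3 (by norm_num) (by norm_num) (by norm_num) (by norm_num))
    (exp_neg_leJ (r := 0.607) 5 (by norm_num) (by norm_num) (by norm_num) (by norm_num))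
    (exp_neg_leJ (r := 0.99) 14 (by norm_num) (by norm_num) (by norm_num) (by norm_num))
    (exp_neg_leJ (r := 0.041) 5 (by norm_num) (by norm_num) (by norm_num) (by norm_num))
    (exp_neg_leJ (r := 0.99) 14 (by norm_num) (by norm_num) (by norm_num) (by norm_num))
    (exp_neg_leJ (r := 0.99) 14 (by norm_num) (by norm_num) (by norm_num) (by norm_num))
    (exp_neg_leJ (r := 0.99) 14 (by norm_num) (by norm_num) (by norm_num) (by norm_num))
    (by norm_num)) (by norm_num) hN hβ.le (by norm_num)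

private theorem T3_04_d0_0_b0_2 {β x y : ℝ} (hβ : 0 < β) (hN : β * 25.641 ≤ 1) (hx1 : 0.2975 ≤ x) (hx2 : x ≤ 0.4774)
    (hy1 : -0.548 ≤ y) (hy2 : y ≤ -0.448) : ‖HH β (x + y * I) - 1‖ ≤ 0.285 := by
  refine le_epsJ (C := 6.8711) (N0 := 25.641) (J_boxp 0.2975 0.4774 0.548 0 (-0.448) 0.5304 0.7268 0.7299 2.2118 0.3409 5.0637 25.641 1.3703 8.464 1.902 0.7306 0.2651 0.144 0.2451 2.0407 0.2001 0.9119 0.676 3.3314 0.001119 0.02495 0.001866 0.0000003101 0.005917 0.0000003101 0.0000003101 0.0000003101 6.8711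
    hβ hN hx1 hx2 hy1 hy2 (by norm_num) (by norm_num) (by linarith) (by norm_num) (by norm_num) (by norm_num) (by norm_num) (by norm_num) (by norm_num) (by norm_num) (by norm_num) (by norm_num) (by norm_num) (by norm_num) (by norm_num) (by norm_num) (by norm_num) (by norm_num) (by norm_num) (by norm_num) (by norm_num) (by norm_num) (by norm_num) (by norm_num)
    (cube_sqrt_geJ (s := 0.737) (by norm_num) (by norm_num) (by norm_num) (by norm_num))
    (cube_sqrt_geJ (s := 0.9122) (by norm_num) (by norm_num) (by norm_num) (by norm_num))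
    (by norm_num) (by norm_num) (by norm_num) (by norm_num) (by norm_num) (by norm_num) (by norm_num) (by norm_num) (by norm_num) (by norm_num) (by norm_num) (by norm_num) (by norm_num) (by norm_num) (by norm_num) (by norm_num) (by norm_num) (by norm_num)
    (exp_neg_leJ (r := 0.797) 6 (by norm_num) (by norm_num) (by norm_num) (by norm_num))
    (exp_neg_leJ (r := 0.692) 3 (by norm_num) (by norm_num) (by norm_num) (by norm_num))
    (exp_neg_leJ (r := 0.284) 6 (by norm_num) (by norm_num) (by norm_num) (by norm_num))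
    (exp_neg_leJ (r := 0.99) 14 (by norm_num) (by norm_num) (by norm_num) (by norm_num))
    (exp_neg_leJ (r := 0.13) 5 (by norm_num) (by norm_num) (by norm_num) (by norm_num))
    (exp_neg_leJ (r := 0.99) 14 (by norm_num) (by norm_num) (by norm_num) (by norm_num))
    (exp_neg_leJ (r := 0.99) 14 (by norm_num) (by norm_num) (by norm_num) (by norm_num))
    (exp_neg_leJ (r := 0.99) 14 (by norm_num) (by norm_num) (by norm_num) (by norm_num))
    (by norm_num)) (by norm_num) hN hβ.le (by norm_num)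

private theorem T3_04_d0_0_b0_3 {β x y : ℝ} (hβ : 0 < β) (hN : β * 25.641 ≤ 1) (hx1 : 0.3486 ≤ x) (hx2 : x ≤ 0.4447)
    (hy1 : -0.508 ≤ y) (hy2 : y ≤ -0.443) : ‖HH β (x + y * I) - 1‖ ≤ 0.285 := by
  refine le_epsJ (C := 2.8544) (N0 := 25.641) (J_boxp 0.3486 0.4447 0.508 0 (-0.443) 0.5948 0.6752 0.7128 1.8405 0.3369 5.0637 25.641 1.1352 5.282 1.689 0.7801 0.2973 0.1848 0.3257 2.1903 0.2468 0.9826 0.887 3.5739 0.0004894 0.008765 0.0002362 0.0000003101 0.001786 0.0000003101 0.0000003101 0.0000003101 2.8544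
    hβ hN hx1 hx2 hy1 hy2 (by norm_num) (by norm_num) (by linarith) (by norm_num) (by norm_num) (by norm_num) (by norm_num) (by norm_num) (by norm_num) (by norm_num) (by norm_num) (by norm_num) (by norm_num) (by norm_num) (by norm_num) (by norm_num) (by norm_num) (by norm_num) (by norm_num) (by norm_num) (by norm_num) (by norm_num) (by norm_num) (by norm_num)
    (cube_sqrt_geJ (s := 0.7884) (by norm_num) (by norm_num) (by norm_num) (by norm_num))
    (cube_sqrt_geJ (s := 0.9279) (by norm_num) (by norm_num) (by norm_num) (by norm_num))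
    (by norm_num) (by norm_num) (by norm_num) (by norm_num) (by norm_num) (by norm_num) (by norm_num) (by norm_num) (by norm_num) (by norm_num) (by norm_num) (by norm_num) (by norm_num) (by norm_num) (by norm_num) (by norm_num) (by norm_num) (by norm_num)
    (exp_neg_leJ (r := 0.623) 7 (by norm_num) (by norm_num) (by norm_num) (by norm_num))
    (exp_neg_leJ (r := 0.738) 4 (by norm_num) (by norm_num) (by norm_num) (by norm_num))
    (exp_neg_leJ (r := 0.351) 8 (by norm_num) (by norm_num) (by norm_num) (by norm_num))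
    (exp_neg_leJ (r := 0.99) 14 (by norm_num) (by norm_num) (by norm_num) (by norm_num))
    (exp_neg_leJ (r := 0.328) 6 (by norm_num) (by norm_num) (by norm_num) (by norm_num))
    (exp_neg_leJ (r := 0.99) 14 (by norm_num) (by norm_num) (by norm_num) (by norm_num))
    (exp_neg_leJ (r := 0.99) 14 (by norm_num) (by norm_num) (by norm_num) (by norm_num))
    (exp_neg_leJ (r := 0.99) 14 (by norm_num) (by norm_num) (by norm_num) (by norm_num))
    (by norm_num)) (by norm_num) hN hβ.le (by norm_num)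

private theorem T3_04_d0_0_c0 {κ t β : ℝ} (h : DomR κ t) (hβ : 0 < β) (hk1 : 0.38 ≤ κ) (hk2 : κ ≤ 0.39)
    (ht1 : -0.9504 ≤ t + κ) (ht2 : t + κ ≤ -0.92039) (hR0 : β * 10 ≤ κ) (hR : β * (1 * (1 + κ ^ 2)) ≤ κ) :
    ∀ s : ℂ, ‖s - sg κ t‖ ≤ 0.03 → ‖HH β s - 1‖ ≤ 0.285 := by
  have hN : β * 25.641 ≤ 1 := bNR hβ h.1 hk2 hR0 (by norm_num)
  have hy1 : -0.548 ≤ sy κ t := syL_ang2 h 0.38 0.39 0.9504 0.947 0.5841 0.8119 0.548 1.72978 0.5781 hk1 hk2 (by linarith) (by norm_num) (by norm_num) (by norm_num) (by norm_num)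
    (cos_ge_num (by norm_num) (by norm_num)) (sin_le_num (by norm_num) (by norm_num))
    (expn_ge (by norm_num) (by norm_num)) (expm_ge (by norm_num) (by norm_num) (by norm_num) (by norm_num)) (by norm_num) (by norm_num) (by norm_num)
    (by norm_num) (by norm_num) (by norm_num)
  have hy2 : sy κ t ≤ -0.473 := syL_le h 0.38 0.39 0.92039 0.473 0.62313 0.62314 0.75574 0.77565 hk1 hk2 (by linarith) (by norm_num) (by norm_num) (by norm_num)
    (expm_ge (by norm_num) (by norm_num) (by norm_num) (by norm_num)) (expm_le (by norm_num) (by norm_num) (by norm_num)) (by norm_num)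
    (by norm_num) (by norm_num) (by norm_num) (by norm_num) (by norm_num) (by norm_num)
  intro s hs
  have hs' : ‖s - ((sx κ t : ℂ) + (sy κ t : ℂ) * I)‖ ≤ 0.03 := hs
  obtain ⟨es, ⟨s1, s2⟩, ⟨s3, s4⟩⟩ := disc_split hs'
  rcases le_total (sy κ t) (-0.538) with f0 | g0
  · have hx1 : 0.351 ≤ sx κ t := sx_lo h 0.38 (-0.538) 0.548 1.71257 0.351 hk1 (by norm_num) f0 (abs_le.2 ⟨by linarith, by linarith⟩) (by rw [neg_neg]; exact expn_ge (by norm_num) (by norm_num)) (by norm_num) (by norm_num)
    have hx2 : sx κ t ≤ 0.4071 := sx_hi h 0.39 (-0.548) 0.538 1.72979 0.4071 hk2 hy1 (by norm_num) (by rw [abs_of_nonpos (by linarith)]; linarith) (by rw [neg_neg]; exact expn_le (by norm_num) (by norm_num) (by norm_num)) (by norm_num) (by norm_num)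
    rw [es]
    exact T3_04_d0_0_b0_0 hβ hN (by linarith) (by linarith) (by linarith) (by linarith)
  rcases le_total (sy κ t) (-0.518) with f1 | g1
  · have hx1 : 0.3427 ≤ sx κ t := sx_lo h 0.38 (-0.518) 0.538 1.67866 0.3427 hk1 (by norm_num) f1 (abs_le.2 ⟨by linarith, by linarith⟩) (by rw [neg_neg]; exact expn_ge (by norm_num) (by norm_num)) (by norm_num) (by norm_num)
    have hx2 : sx κ t ≤ 0.4217 := sx_hi h 0.39 (-0.538) 0.518 1.71258 0.4217 hk2 g0 (by norm_num) (by rw [abs_of_nonpos (by linarith)]; linarith) (by rw [neg_neg]; exact expn_le (by norm_num) (by norm_num) (by norm_num)) (by norm_num) (by norm_num)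
    rw [es]
    exact T3_04_d0_0_b0_1 hβ hN (by linarith) (by linarith) (by linarith) (by linarith)
  rcases le_total (sy κ t) (-0.478) with f2 | g2
  · have hx1 : 0.3275 ≤ sx κ t := sx_lo h 0.38 (-0.478) 0.518 1.61284 0.3275 hk1 (by norm_num) f2 (abs_le.2 ⟨by linarith, by linarith⟩) (by rw [neg_neg]; exact expn_ge (by norm_num) (by norm_num)) (by norm_num) (by norm_num)
    have hx2 : sx κ t ≤ 0.4474 := sx_hi h 0.39 (-0.518) 0.478 1.67867 0.4474 hk2 g1 (by norm_num) (by rw [abs_of_nonpos (by linarith)]; linarith) (by rw [neg_neg]; exact expn_le (by norm_num) (by norm_num) (by norm_num)) (by norm_num) (by norm_num)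
    rw [es]
    exact T3_04_d0_0_b0_2 hβ hN (by linarith) (by linarith) (by linarith) (by linarith)
  have hx1 : 0.3786 ≤ sx κ t := sx_lo h 0.38 (-0.473) 0.478 1.6048 0.3786 hk1 (by norm_num) hy2 (abs_le.2 ⟨by linarith, by linarith⟩) (by rw [neg_neg]; exact expn_ge (by norm_num) (by norm_num)) (by norm_num) (by norm_num)
  have hx2 : sx κ t ≤ 0.4147 := sx_hi h 0.39 (-0.478) 0.473 1.61285 0.4147 hk2 g2 (by norm_num) (by rw [abs_of_nonpos (by linarith)]; linarith) (by rw [neg_neg]; exact expn_le (by norm_num) (by norm_num) (by norm_num)) (by norm_num) (by norm_num)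
  rw [es]
  exact T3_04_d0_0_b0_3 hβ hN (by linarith) (by linarith) (by linarith) (by linarith)

private theorem T3_04_d0_0_b1_0 {β x y : ℝ} (hβ : 0 < β) (hN : β * 24.999 ≤ 1) (hx1 : 0.3533 ≤ x) (hx2 : x ≤ 0.4563)
    (hy1 : -0.595 ≤ y) (hy2 : y ≤ -0.53) : ‖HH β (x + y * I) - 1‖ ≤ 0.285 := by
  refine le_epsJ (C := 6.9675) (N0 := 24.999) (J_boxp 0.3533 0.4563 0.595 0 (-0.53) 0.5363 0.7499 0.6551 2.0609 0.3229 4.9999 24.999 1.3983 8.994 1.93 0.6953 0.2681 0.1431 0.19 1.8935 0.2015 0.9891 0.6599 3.3802 0.00123 0.02797 0.00867 0.0000003101 0.006494 0.0000003101 0.0000003101 0.0000003101 6.9675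
    hβ hN hx1 hx2 hy1 hy2 (by norm_num) (by norm_num) (by linarith) (by norm_num) (by norm_num) (by norm_num) (by norm_num) (by norm_num) (by norm_num) (by norm_num) (by norm_num) (by norm_num) (by norm_num) (by norm_num) (by norm_num) (by norm_num) (by norm_num) (by norm_num) (by norm_num) (by norm_num) (by norm_num) (by norm_num) (by norm_num) (by norm_num)
    (cube_sqrt_geJ (s := 0.7306) (by norm_num) (by norm_num) (by norm_num) (by norm_num))
    (cube_sqrt_geJ (s := 0.9103) (by norm_num) (by norm_num) (by norm_num) (by norm_num))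
    (by norm_num) (by norm_num) (by norm_num) (by norm_num) (by norm_num) (by norm_num) (by norm_num) (by norm_num) (by norm_num) (by norm_num) (by norm_num) (by norm_num) (by norm_num) (by norm_num) (by norm_num) (by norm_num) (by norm_num) (by norm_num)
    (exp_neg_leJ (r := 0.702) 6 (by norm_num) (by norm_num) (by norm_num) (by norm_num))
    (exp_neg_leJ (r := 0.577) 3 (by norm_num) (by norm_num) (by norm_num) (by norm_num))
    (exp_neg_leJ (r := 0.749) 4 (by norm_num) (by norm_num) (by norm_num) (by norm_num))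
    (exp_neg_leJ (r := 0.99) 14 (by norm_num) (by norm_num) (by norm_num) (by norm_num))
    (exp_neg_leJ (r := 0.037) 5 (by norm_num) (by norm_num) (by norm_num) (by norm_num))
    (exp_neg_leJ (r := 0.99) 14 (by norm_num) (by norm_num) (by norm_num) (by norm_num))
    (exp_neg_leJ (r := 0.99) 14 (by norm_num) (by norm_num) (by norm_num) (by norm_num))
    (exp_neg_leJ (r := 0.99) 14 (by norm_num) (by norm_num) (by norm_num) (by norm_num))
    (by norm_num)) (by norm_num) hN hβ.le (by norm_num)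

private theorem T3_04_d0_0_b1_1 {β x y : ℝ} (hβ : 0 < β) (hN : β * 24.999 ≤ 1) (hx1 : 0.3485 ≤ x) (hx2 : x ≤ 0.4635)
    (hy1 : -0.59 ≤ y) (hy2 : y ≤ -0.52) : ‖HH β (x + y * I) - 1‖ ≤ 0.285 := by
  refine le_epsJ (C := 7.0286) (N0 := 24.999) (J_boxp 0.3485 0.4635 0.59 0 (-0.52) 0.5365 0.7503 0.6673 2.0788 0.3259 4.9999 24.999 1.3986 8.999 1.93 0.6972 0.2682 0.1431 0.1962 1.9068 0.2019 0.9825 0.6639 3.3695 0.001227 0.02797 0.007435 0.0000003101 0.006429 0.0000003101 0.0000003101 0.0000003101 7.0286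
    hβ hN hx1 hx2 hy1 hy2 (by norm_num) (by norm_num) (by linarith) (by norm_num) (by norm_num) (by norm_num) (by norm_num) (by norm_num) (by norm_num) (by norm_num) (by norm_num) (by norm_num) (by norm_num) (by norm_num) (by norm_num) (by norm_num) (by norm_num) (by norm_num) (by norm_num) (by norm_num) (by norm_num) (by norm_num) (by norm_num) (by norm_num)
    (cube_sqrt_geJ (s := 0.7306) (by norm_num) (by norm_num) (by norm_num) (by norm_num))
    (cube_sqrt_geJ (s := 0.9103) (by norm_num) (by norm_num) (by norm_num) (by norm_num))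
    (by norm_num) (by norm_num) (by norm_num) (by norm_num) (by norm_num) (by norm_num) (by norm_num) (by norm_num) (by norm_num) (by norm_num) (by norm_num) (by norm_num) (by norm_num) (by norm_num) (by norm_num) (by norm_num) (by norm_num) (by norm_num)
    (exp_neg_leJ (r := 0.704) 6 (by norm_num) (by norm_num) (by norm_num) (by norm_num))
    (exp_neg_leJ (r := 0.577) 3 (by norm_num) (by norm_num) (by norm_num) (by norm_num))
    (exp_neg_leJ (r := 0.904) 4 (by norm_num) (by norm_num) (by norm_num) (by norm_num))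
    (exp_neg_leJ (r := 0.99) 14 (by norm_num) (by norm_num) (by norm_num) (by norm_num))
    (exp_neg_leJ (r := 0.047) 5 (by norm_num) (by norm_num) (by norm_num) (by norm_num))
    (exp_neg_leJ (r := 0.99) 14 (by norm_num) (by norm_num) (by norm_num) (by norm_num))
    (exp_neg_leJ (r := 0.99) 14 (by norm_num) (by norm_num) (by norm_num) (by norm_num))
    (exp_neg_leJ (r := 0.99) 14 (by norm_num) (by norm_num) (by norm_num) (by norm_num))
    (by norm_num)) (by norm_num) hN hβ.le (by norm_num)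

private theorem T3_04_d0_0_b1_2 {β x y : ℝ} (hβ : 0 < β) (hN : β * 24.999 ≤ 1) (hx1 : 0.3394 ≤ x) (hx2 : x ≤ 0.477)
    (hy1 : -0.58 ≤ y) (hy2 : y ≤ -0.5) : ‖HH β (x + y * I) - 1‖ ≤ 0.285 := by
  refine le_epsJ (C := 7.116) (N0 := 24.999) (J_boxp 0.3394 0.477 0.58 0 (-0.5) 0.5372 0.751 0.6911 2.1114 0.3317 4.9999 24.999 1.398 8.988 1.93 0.7012 0.2685 0.1434 0.2089 1.9339 0.203 0.9699 0.6728 3.3494 0.001218 0.02778 0.005397 0.0000003101 0.006258 0.0000003101 0.0000003101 0.0000003101 7.116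
    hβ hN hx1 hx2 hy1 hy2 (by norm_num) (by norm_num) (by linarith) (by norm_num) (by norm_num) (by norm_num) (by norm_num) (by norm_num) (by norm_num) (by norm_num) (by norm_num) (by norm_num) (by norm_num) (by norm_num) (by norm_num) (by norm_num) (by norm_num) (by norm_num) (by norm_num) (by norm_num) (by norm_num) (by norm_num) (by norm_num) (by norm_num)
    (cube_sqrt_geJ (s := 0.7307) (by norm_num) (by norm_num) (by norm_num) (by norm_num))
    (cube_sqrt_geJ (s := 0.9104) (by norm_num) (by norm_num) (by norm_num) (by norm_num))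
    (by norm_num) (by norm_num) (by norm_num) (by norm_num) (by norm_num) (by norm_num) (by norm_num) (by norm_num) (by norm_num) (by norm_num) (by norm_num) (by norm_num) (by norm_num) (by norm_num) (by norm_num) (by norm_num) (by norm_num) (by norm_num)
    (exp_neg_leJ (r := 0.712) 6 (by norm_num) (by norm_num) (by norm_num) (by norm_num))
    (exp_neg_leJ (r := 0.584) 3 (by norm_num) (by norm_num) (by norm_num) (by norm_num))
    (exp_neg_leJ (r := 0.222) 5 (by norm_num) (by norm_num) (by norm_num) (by norm_num))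
    (exp_neg_leJ (r := 0.99) 14 (by norm_num) (by norm_num) (by norm_num) (by norm_num))
    (exp_neg_leJ (r := 0.074) 5 (by norm_num) (by norm_num) (by norm_num) (by norm_num))
    (exp_neg_leJ (r := 0.99) 14 (by norm_num) (by norm_num) (by norm_num) (by norm_num))
    (exp_neg_leJ (r := 0.99) 14 (by norm_num) (by norm_num) (by norm_num) (by norm_num))
    (exp_neg_leJ (r := 0.99) 14 (by norm_num) (by norm_num) (by norm_num) (by norm_num))
    (by norm_num)) (by norm_num) hN hβ.le (by norm_num)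

private theorem T3_04_d0_0_b1_3 {β x y : ℝ} (hβ : 0 < β) (hN : β * 24.999 ≤ 1) (hx1 : 0.3283 ≤ x) (hx2 : x ≤ 0.4957)
    (hy1 : -0.56 ≤ y) (hy2 : y ≤ -0.465) : ‖HH β (x + y * I) - 1‖ ≤ 0.285 := by
  refine le_epsJ (C := 6.7202) (N0 := 24.999) (J_boxp 0.3283 0.4957 0.56 0 (-0.465) 0.5435 0.7479 0.7294 2.1315 0.3408 4.9999 24.999 1.3761 8.571 1.908 0.7125 0.2717 0.147 0.2367 1.9917 0.2085 0.9545 0.705 3.3356 0.001125 0.0254 0.002701 0.0000003101 0.005451 0.0000003101 0.0000003101 0.0000003101 6.7202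
    hβ hN hx1 hx2 hy1 hy2 (by norm_num) (by norm_num) (by linarith) (by norm_num) (by norm_num) (by norm_num) (by norm_num) (by norm_num) (by norm_num) (by norm_num) (by norm_num) (by norm_num) (by norm_num) (by norm_num) (by norm_num) (by norm_num) (by norm_num) (by norm_num) (by norm_num) (by norm_num) (by norm_num) (by norm_num) (by norm_num) (by norm_num)
    (cube_sqrt_geJ (s := 0.7357) (by norm_num) (by norm_num) (by norm_num) (by norm_num))
    (cube_sqrt_geJ (s := 0.9118) (by norm_num) (by norm_num) (by norm_num) (by norm_num))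
    (by norm_num) (by norm_num) (by norm_num) (by norm_num) (by norm_num) (by norm_num) (by norm_num) (by norm_num) (by norm_num) (by norm_num) (by norm_num) (by norm_num) (by norm_num) (by norm_num) (by norm_num) (by norm_num) (by norm_num) (by norm_num)
    (exp_neg_leJ (r := 0.792) 6 (by norm_num) (by norm_num) (by norm_num) (by norm_num))
    (exp_neg_leJ (r := 0.674) 3 (by norm_num) (by norm_num) (by norm_num) (by norm_num))
    (exp_neg_leJ (r := 0.917) 5 (by norm_num) (by norm_num) (by norm_num) (by norm_num))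
    (exp_neg_leJ (r := 0.99) 14 (by norm_num) (by norm_num) (by norm_num) (by norm_num))
    (exp_neg_leJ (r := 0.212) 5 (by norm_num) (by norm_num) (by norm_num) (by norm_num))
    (exp_neg_leJ (r := 0.99) 14 (by norm_num) (by norm_num) (by norm_num) (by norm_num))
    (exp_neg_leJ (r := 0.99) 14 (by norm_num) (by norm_num) (by norm_num) (by norm_num))
    (exp_neg_leJ (r := 0.99) 14 (by norm_num) (by norm_num) (by norm_num) (by norm_num))
    (by norm_num)) (by norm_num) hN hβ.le (by norm_num)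

private theorem T3_04_d0_0_b1_4 {β x y : ℝ} (hβ : 0 < β) (hN : β * 24.999 ≤ 1) (hx1 : 0.3682 ≤ x) (hx2 : x ≤ 0.4687)
    (hy1 : -0.525 ≤ y) (hy2 : y ≤ -0.458) : ‖HH β (x + y * I) - 1‖ ≤ 0.285 := by
  refine le_epsJ (C := 3.2474) (N0 := 24.999) (J_boxp 0.3682 0.4687 0.525 0 (-0.458) 0.5965 0.7038 0.7166 1.8375 0.3378 4.9999 24.999 1.1799 5.75 1.727 0.7552 0.2982 0.1809 0.3056 2.1218 0.247 1.0098 0.8799 3.5353 0.0005792 0.01087 0.0004816 0.0000003101 0.002083 0.0000003101 0.0000003101 0.0000003101 3.2474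
    hβ hN hx1 hx2 hy1 hy2 (by norm_num) (by norm_num) (by linarith) (by norm_num) (by norm_num) (by norm_num) (by norm_num) (by norm_num) (by norm_num) (by norm_num) (by norm_num) (by norm_num) (by norm_num) (by norm_num) (by norm_num) (by norm_num) (by norm_num) (by norm_num) (by norm_num) (by norm_num) (by norm_num) (by norm_num) (by norm_num) (by norm_num)
    (cube_sqrt_geJ (s := 0.7789) (by norm_num) (by norm_num) (by norm_num) (by norm_num))
    (cube_sqrt_geJ (s := 0.9249) (by norm_num) (by norm_num) (by norm_num) (by norm_num))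
    (by norm_num) (by norm_num) (by norm_num) (by norm_num) (by norm_num) (by norm_num) (by norm_num) (by norm_num) (by norm_num) (by norm_num) (by norm_num) (by norm_num) (by norm_num) (by norm_num) (by norm_num) (by norm_num) (by norm_num) (by norm_num)
    (exp_neg_leJ (r := 0.454) 7 (by norm_num) (by norm_num) (by norm_num) (by norm_num))
    (exp_neg_leJ (r := 0.522) 4 (by norm_num) (by norm_num) (by norm_num) (by norm_num))
    (exp_neg_leJ (r := 0.639) 7 (by norm_num) (by norm_num) (by norm_num) (by norm_num))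
    (exp_neg_leJ (r := 0.99) 14 (by norm_num) (by norm_num) (by norm_num) (by norm_num))
    (exp_neg_leJ (r := 0.174) 6 (by norm_num) (by norm_num) (by norm_num) (by norm_num))
    (exp_neg_leJ (r := 0.99) 14 (by norm_num) (by norm_num) (by norm_num) (by norm_num))
    (exp_neg_leJ (r := 0.99) 14 (by norm_num) (by norm_num) (by norm_num) (by norm_num))
    (exp_neg_leJ (r := 0.99) 14 (by norm_num) (by norm_num) (by norm_num) (by norm_num))
    (by norm_num)) (by norm_num) hN hβ.le (by norm_num)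

private theorem T3_04_d0_0_c1 {κ t β : ℝ} (h : DomR κ t) (hβ : 0 < β) (hk1 : 0.39 ≤ κ) (hk2 : κ ≤ 0.4)
    (ht1 : -0.9504 ≤ t + κ) (ht2 : t + κ ≤ -0.92039) (hR0 : β * 10 ≤ κ) (hR : β * (1 * (1 + κ ^ 2)) ≤ κ) :
    ∀ s : ℂ, ‖s - sg κ t‖ ≤ 0.03 → ‖HH β s - 1‖ ≤ 0.285 := by
  have hN : β * 24.999 ≤ 1 := bNR hβ h.1 hk2 hR0 (by norm_num)
  have hy1 : -0.565 ≤ sy κ t := syL_ang2 h 0.39 0.4 0.9504 0.931 0.597 0.8024 0.565 1.75944 0.56836 hk1 hk2 (by linarith) (by norm_num) (by norm_num) (by norm_num) (by norm_num)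
    (cos_ge_num (by norm_num) (by norm_num)) (sin_le_num (by norm_num) (by norm_num))
    (expn_ge (by norm_num) (by norm_num)) (expm_ge (by norm_num) (by norm_num) (by norm_num) (by norm_num)) (by norm_num) (by norm_num) (by norm_num)
    (by norm_num) (by norm_num) (by norm_num)
  have hy2 : sy κ t ≤ -0.488 := syL_le h 0.39 0.4 0.92039 0.488 0.61385 0.61386 0.74889 0.76812 hk1 hk2 (by linarith) (by norm_num) (by norm_num) (by norm_num)
    (expm_ge (by norm_num) (by norm_num) (by norm_num) (by norm_num)) (expm_le (by norm_num) (by norm_num) (by norm_num)) (by norm_num)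
    (by norm_num) (by norm_num) (by norm_num) (by norm_num) (by norm_num) (by norm_num)
  intro s hs
  have hs' : ‖s - ((sx κ t : ℂ) + (sy κ t : ℂ) * I)‖ ≤ 0.03 := hs
  obtain ⟨es, ⟨s1, s2⟩, ⟨s3, s4⟩⟩ := disc_split hs'
  rcases le_total (sy κ t) (-0.56) with f0 | g0
  · have hx1 : 0.3833 ≤ sx κ t := sx_lo h 0.39 (-0.56) 0.565 1.75066 0.3833 hk1 (by norm_num) f0 (abs_le.2 ⟨by linarith, by linarith⟩) (by rw [neg_neg]; exact expn_ge (by norm_num) (by norm_num)) (by norm_num) (by norm_num)
    have hx2 : sx κ t ≤ 0.4263 := sx_hi h 0.4 (-0.565) 0.56 1.75945 0.4263 hk2 hy1 (by norm_num) (by rw [abs_of_nonpos (by linarith)]; linarith) (by rw [neg_neg]; exact expn_le (by norm_num) (by norm_num) (by norm_num)) (by norm_num) (by norm_num)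
    rw [es]
    exact T3_04_d0_0_b1_0 hβ hN (by linarith) (by linarith) (by linarith) (by linarith)
  rcases le_total (sy κ t) (-0.55) with f1 | g1
  · have hx1 : 0.3785 ≤ sx κ t := sx_lo h 0.39 (-0.55) 0.56 1.73324 0.3785 hk1 (by norm_num) f1 (abs_le.2 ⟨by linarith, by linarith⟩) (by rw [neg_neg]; exact expn_ge (by norm_num) (by norm_num)) (by norm_num) (by norm_num)
    have hx2 : sx κ t ≤ 0.4335 := sx_hi h 0.4 (-0.56) 0.55 1.75068 0.4335 hk2 g0 (by norm_num) (by rw [abs_of_nonpos (by linarith)]; linarith) (by rw [neg_neg]; exact expn_le (by norm_num) (by norm_num) (by norm_num)) (by norm_num) (by norm_num)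
    rw [es]
    exact T3_04_d0_0_b1_1 hβ hN (by linarith) (by linarith) (by linarith) (by linarith)
  rcases le_total (sy κ t) (-0.53) with f2 | g2
  · have hx1 : 0.3694 ≤ sx κ t := sx_lo h 0.39 (-0.53) 0.55 1.69892 0.3694 hk1 (by norm_num) f2 (abs_le.2 ⟨by linarith, by linarith⟩) (by rw [neg_neg]; exact expn_ge (by norm_num) (by norm_num)) (by norm_num) (by norm_num)
    have hx2 : sx κ t ≤ 0.447 := sx_hi h 0.4 (-0.55) 0.53 1.73326 0.447 hk2 g1 (by norm_num) (by rw [abs_of_nonpos (by linarith)]; linarith) (by rw [neg_neg]; exact expn_le (by norm_num) (by norm_num) (by norm_num)) (by norm_num) (by norm_num)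
    rw [es]
    exact T3_04_d0_0_b1_2 hβ hN (by linarith) (by linarith) (by linarith) (by linarith)
  rcases le_total (sy κ t) (-0.495) with f3 | g3
  · have hx1 : 0.3583 ≤ sx κ t := sx_lo h 0.39 (-0.495) 0.53 1.64049 0.3583 hk1 (by norm_num) f3 (abs_le.2 ⟨by linarith, by linarith⟩) (by rw [neg_neg]; exact expn_ge (by norm_num) (by norm_num)) (by norm_num) (by norm_num)
    have hx2 : sx κ t ≤ 0.4657 := sx_hi h 0.4 (-0.53) 0.495 1.69894 0.4657 hk2 g2 (by norm_num) (by rw [abs_of_nonpos (by linarith)]; linarith) (by rw [neg_neg]; exact expn_le (by norm_num) (by norm_num) (by norm_num)) (by norm_num) (by norm_num)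
    rw [es]
    exact T3_04_d0_0_b1_3 hβ hN (by linarith) (by linarith) (by linarith) (by linarith)
  have hx1 : 0.3982 ≤ sx κ t := sx_lo h 0.39 (-0.488) 0.495 1.62905 0.3982 hk1 (by norm_num) hy2 (abs_le.2 ⟨by linarith, by linarith⟩) (by rw [neg_neg]; exact expn_ge (by norm_num) (by norm_num)) (by norm_num) (by norm_num)
  have hx2 : sx κ t ≤ 0.4387 := sx_hi h 0.4 (-0.495) 0.488 1.6405 0.4387 hk2 g3 (by norm_num) (by rw [abs_of_nonpos (by linarith)]; linarith) (by rw [neg_neg]; exact expn_le (by norm_num) (by norm_num) (by norm_num)) (by norm_num) (by norm_num)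
  rw [es]
  exact T3_04_d0_0_b1_4 hβ hN (by linarith) (by linarith) (by linarith) (by linarith)

theorem T3_04_d0_0 {κ t β : ℝ} (h : DomR κ t) (hβ : 0 < β) (hk1 : 0.38 ≤ κ) (hk2 : κ ≤ 0.4)
    (ht1 : -0.9504 ≤ t + κ) (ht2 : t + κ ≤ -0.92039) (hR0 : β * 10 ≤ κ) (hR : β * (1 * (1 + κ ^ 2)) ≤ κ) :
    ∀ s : ℂ, ‖s - sg κ t‖ ≤ 0.03 → ‖HH β s - 1‖ ≤ 0.285 := by
  rcases le_total κ 0.39 with f0 | g0
  · exact T3_04_d0_0_c0 h hβ hk1 f0 ht1 ht2 hR0 hR
  exact T3_04_d0_0_c1 h hβ g0 hk2 ht1 ht2 hR0 hR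

private theorem T3_04_d1_0_b0_0 {β x y : ℝ} (hβ : 0 < β) (hN : β * 24.999 ≤ 1) (hx1 : 0.1172 ≤ x) (hx2 : x ≤ 0.2352)
    (hy1 : -0 ≤ y) (hy2 : y ≤ 0.285) : ‖HH β (x + y * I) - 1‖ ≤ 0.02 := by
  refine le_epsJ (C := 0.2927) (N0 := 24.999) (J_boxp 0.1172 0.2352 0 0.285 0.285 0.7925 0.3696 1.3064 1.6201 0.456 4.9999 24.999 0.4664 1.807 1.229 1.3296 0.3962 0.3346 1.0484 3.9317 0.3828 0.6332 0.5827 2.5988 0.0000501 0.0002332 0.0000003101 0.0000003101 0.00006989 0.0000003101 0.0000004723 0.0000003101 0.2927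
    hβ hN hx1 hx2 hy1 hy2 (by norm_num) (by norm_num) (by linarith) (by norm_num) (by norm_num) (by norm_num) (by norm_num) (by norm_num) (by norm_num) (by norm_num) (by norm_num) (by norm_num) (by norm_num) (by norm_num) (by norm_num) (by norm_num) (by norm_num) (by norm_num) (by norm_num) (by norm_num) (by norm_num) (by norm_num) (by norm_num) (by norm_num)
    (cube_sqrt_geJ (s := 0.9189) (by norm_num) (by norm_num) (by norm_num) (by norm_num))
    (cube_sqrt_geJ (s := 0.971) (by norm_num) (by norm_num) (by norm_num) (by norm_num))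
    (by norm_num) (by norm_num) (by norm_num) (by norm_num) (by norm_num) (by norm_num) (by norm_num) (by norm_num) (by norm_num) (by norm_num) (by norm_num) (by norm_num) (by norm_num) (by norm_num) (by norm_num) (by norm_num) (by norm_num) (by norm_num)
    (exp_neg_leJ (r := 0.904) 9 (by norm_num) (by norm_num) (by norm_num) (by norm_num))
    (exp_neg_leJ (r := 0.364) 8 (by norm_num) (by norm_num) (by norm_num) (by norm_num))
    (exp_neg_leJ (r := 0.99) 14 (by norm_num) (by norm_num) (by norm_num) (by norm_num))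
    (exp_neg_leJ (r := 0.99) 14 (by norm_num) (by norm_num) (by norm_num) (by norm_num))
    (exp_neg_leJ (r := 0.569) 9 (by norm_num) (by norm_num) (by norm_num) (by norm_num))
    (exp_neg_leJ (r := 0.99) 14 (by norm_num) (by norm_num) (by norm_num) (by norm_num))
    (exp_neg_leJ (r := 0.566) 14 (by norm_num) (by norm_num) (by norm_num) (by norm_num))
    (exp_neg_leJ (r := 0.99) 14 (by norm_num) (by norm_num) (by norm_num) (by norm_num))
    (by norm_num)) (by norm_num) hN hβ.le (by norm_num)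

private theorem T3_04_d1_0_c0 {κ t β : ℝ} (h : DomR κ t) (hβ : 0 < β) (hk1 : 0.38 ≤ κ) (hk2 : κ ≤ 0.4)
    (ht1 : 1.144 ≤ t + κ) (ht2 : t + κ ≤ 1.174) (hR0 : β * 10 ≤ κ) (hR : β * (1 * (1 + κ ^ 2)) ≤ κ) :
    ∀ s : ℂ, ‖s - sg κ t‖ ≤ 0.03 → ‖HH β s - 1‖ ≤ 0.02 := by
  have hN : β * 24.999 ≤ 1 := bNR hβ h.1 hk2 hR0 (by norm_num)
  have hy1 : 0.239 ≤ sy κ t := syR_ge h 0.38 0.4 1.144 0.239 1.26997 1.26998 0.7588 0.79876 hk1 hk2 (by linarith) (by norm_num) (by norm_num)
    (expn_ge (by norm_num) (by norm_num)) (expn_le (by norm_num) (by norm_num) (by norm_num)) (by norm_num)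
    (by norm_num) (by norm_num) (by norm_num) (by norm_num) (by norm_num) (by norm_num)
  have hy2 : sy κ t ≤ 0.255 := syR_ang2 h 0.38 0.4 1.174 0.965 0.5706 0.8223 0.255 0.77492 1.29046 hk1 hk2 (by linarith) (by norm_num) (by norm_num) (by norm_num)
    (cos_le_num (by norm_num)) (sin_le_num (by norm_num) (by norm_num)) (expm_le (by norm_num) (by norm_num) (by norm_num))
    (expn_ge (by norm_num) (by norm_num)) (by norm_num) (by norm_num) (by norm_num) (by norm_num) (by norm_num)
  intro s hs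
  have hs' : ‖s - ((sx κ t : ℂ) + (sy κ t : ℂ) * I)‖ ≤ 0.03 := hs
  obtain ⟨es, ⟨s1, s2⟩, ⟨s3, s4⟩⟩ := disc_split hs'
  have hx1 : 0.1472 ≤ sx κ t := sx_lo h 0.38 0.255 0.255 0.77491 0.1472 hk1 (by norm_num) hy2 (abs_le.2 ⟨by linarith, by linarith⟩) (expm_ge (by norm_num) (by norm_num) (by norm_num) (by norm_num)) (by norm_num) (by norm_num)
  have hx2 : sx κ t ≤ 0.2052 := sx_hi h 0.4 0.239 0.239 0.78742 0.2052 hk2 hy1 (by norm_num) (by rw [abs_of_nonneg (by linarith)]; linarith) (expm_le (by norm_num) (by norm_num) (by norm_num)) (by norm_num) (by norm_num)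
  rw [es]
  exact T3_04_d1_0_b0_0 hβ hN (by linarith) (by linarith) (by linarith) (by linarith)

theorem T3_04_d1_0 {κ t β : ℝ} (h : DomR κ t) (hβ : 0 < β) (hk1 : 0.38 ≤ κ) (hk2 : κ ≤ 0.4)
    (ht1 : 1.144 ≤ t + κ) (ht2 : t + κ ≤ 1.174) (hR0 : β * 10 ≤ κ) (hR : β * (1 * (1 + κ ^ 2)) ≤ κ) :
    ∀ s : ℂ, ‖s - sg κ t‖ ≤ 0.03 → ‖HH β s - 1‖ ≤ 0.02 := by
  exact T3_04_d1_0_c0 h hβ hk1 hk2 ht1 ht2 hR0 hR

private theorem T3_04_d0_1_b0_0 {β x y : ℝ} (hβ : 0 < β) (hN : β * 25.641 ≤ 1) (hx1 : 0.3164 ≤ x) (hx2 : x ≤ 0.4595)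
    (hy1 : -0.556 ≤ y) (hy2 : y ≤ -0.461) : ‖HH β (x + y * I) - 1‖ ≤ 0.245 := by
  refine le_epsJ (C := 6.0781) (N0 := 25.641) (J_boxp 0.3164 0.4595 0.556 0 (-0.461) 0.538 0.7214 0.7083 2.1328 0.3358 5.0637 25.641 1.3409 7.951 1.874 0.7301 0.2689 0.1487 0.2389 2.0226 0.2049 0.938 0.6921 3.3839 0.001017 0.02214 0.002188 0.0000003101 0.005232 0.0000003101 0.0000003101 0.0000003101 6.0781
    hβ hN hx1 hx2 hy1 hy2 (by norm_num) (by norm_num) (by linarith) (by norm_num) (by norm_num) (by norm_num) (by norm_num) (by norm_num) (by norm_num) (by norm_num) (by norm_num) (by norm_num) (by norm_num) (by norm_num) (by norm_num) (by norm_num) (by norm_num) (by norm_num) (by norm_num) (by norm_num) (by norm_num) (by norm_num) (by norm_num) (by norm_num)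
    (cube_sqrt_geJ (s := 0.7436) (by norm_num) (by norm_num) (by norm_num) (by norm_num))
    (cube_sqrt_geJ (s := 0.9142) (by norm_num) (by norm_num) (by norm_num) (by norm_num))
    (by norm_num) (by norm_num) (by norm_num) (by norm_num) (by norm_num) (by norm_num) (by norm_num) (by norm_num) (by norm_num) (by norm_num) (by norm_num) (by norm_num) (by norm_num) (by norm_num) (by norm_num) (by norm_num) (by norm_num) (by norm_num)
    (exp_neg_leJ (r := 0.894) 6 (by norm_num) (by norm_num) (by norm_num) (by norm_num))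
    (exp_neg_leJ (r := 0.812) 3 (by norm_num) (by norm_num) (by norm_num) (by norm_num))
    (exp_neg_leJ (r := 0.125) 6 (by norm_num) (by norm_num) (by norm_num) (by norm_num))
    (exp_neg_leJ (r := 0.99) 14 (by norm_num) (by norm_num) (by norm_num) (by norm_num))
    (exp_neg_leJ (r := 0.253) 5 (by norm_num) (by norm_num) (by norm_num) (by norm_num))
    (exp_neg_leJ (r := 0.99) 14 (by norm_num) (by norm_num) (by norm_num) (by norm_num))
    (exp_neg_leJ (r := 0.99) 14 (by norm_num) (by norm_num) (by norm_num) (by norm_num))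
    (exp_neg_leJ (r := 0.99) 14 (by norm_num) (by norm_num) (by norm_num) (by norm_num))
    (by norm_num)) (by norm_num) hN hβ.le (by norm_num)

private theorem T3_04_d0_1_b0_1 {β x y : ℝ} (hβ : 0 < β) (hN : β * 25.641 ≤ 1) (hx1 : 0.3055 ≤ x) (hx2 : x ≤ 0.4787)
    (hy1 : -0.541 ≤ y) (hy2 : y ≤ -0.431) : ‖HH β (x + y * I) - 1‖ ≤ 0.245 := by
  refine le_epsJ (C := 6.0639) (N0 := 25.641) (J_boxp 0.3055 0.4787 0.541 0 (-0.431) 0.541 0.7224 0.7436 2.1671 0.3441 5.0637 25.641 1.3354 7.86 1.869 0.7366 0.2704 0.15 0.2589 2.0635 0.2078 0.9229 0.711 3.3594 0.0009778 0.02141 0.001311 0.0000003101 0.004854 0.0000003101 0.0000003101 0.0000003101 6.0639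
    hβ hN hx1 hx2 hy1 hy2 (by norm_num) (by norm_num) (by linarith) (by norm_num) (by norm_num) (by norm_num) (by norm_num) (by norm_num) (by norm_num) (by norm_num) (by norm_num) (by norm_num) (by norm_num) (by norm_num) (by norm_num) (by norm_num) (by norm_num) (by norm_num) (by norm_num) (by norm_num) (by norm_num) (by norm_num) (by norm_num) (by norm_num)
    (cube_sqrt_geJ (s := 0.7448) (by norm_num) (by norm_num) (by norm_num) (by norm_num))
    (cube_sqrt_geJ (s := 0.9146) (by norm_num) (by norm_num) (by norm_num) (by norm_num))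
    (by norm_num) (by norm_num) (by norm_num) (by norm_num) (by norm_num) (by norm_num) (by norm_num) (by norm_num) (by norm_num) (by norm_num) (by norm_num) (by norm_num) (by norm_num) (by norm_num) (by norm_num) (by norm_num) (by norm_num) (by norm_num)
    (exp_neg_leJ (r := 0.933) 6 (by norm_num) (by norm_num) (by norm_num) (by norm_num))
    (exp_neg_leJ (r := 0.846) 3 (by norm_num) (by norm_num) (by norm_num) (by norm_num))
    (exp_neg_leJ (r := 0.638) 6 (by norm_num) (by norm_num) (by norm_num) (by norm_num))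
    (exp_neg_leJ (r := 0.99) 14 (by norm_num) (by norm_num) (by norm_num) (by norm_num))
    (exp_neg_leJ (r := 0.328) 5 (by norm_num) (by norm_num) (by norm_num) (by norm_num))
    (exp_neg_leJ (r := 0.99) 14 (by norm_num) (by norm_num) (by norm_num) (by norm_num))
    (exp_neg_leJ (r := 0.99) 14 (by norm_num) (by norm_num) (by norm_num) (by norm_num))
    (exp_neg_leJ (r := 0.99) 14 (by norm_num) (by norm_num) (by norm_num) (by norm_num))
    (by norm_num)) (by norm_num) hN hβ.le (by norm_num)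

private theorem T3_04_d0_1_b0_2 {β x y : ℝ} (hβ : 0 < β) (hN : β * 25.641 ≤ 1) (hx1 : 0.2956 ≤ x) (hx2 : x ≤ 0.5024)
    (hy1 : -0.511 ≤ y) (hy2 : y ≤ -0.38) : ‖HH β (x + y * I) - 1‖ ≤ 0.245 := by
  refine le_epsJ (C := 5.277) (N0 := 25.641) (J_boxp 0.2956 0.5024 0.511 0 (-0.38) 0.5553 0.7167 0.7981 2.159 0.3565 5.0637 25.641 1.2907 7.163 1.827 0.7551 0.2776 0.1581 0.3028 2.1519 0.2194 0.9092 0.7728 3.355 0.0008113 0.01738 0.0004253 0.0000003101 0.003609 0.0000003101 0.0000003101 0.0000003101 5.277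
    hβ hN hx1 hx2 hy1 hy2 (by norm_num) (by norm_num) (by linarith) (by norm_num) (by norm_num) (by norm_num) (by norm_num) (by norm_num) (by norm_num) (by norm_num) (by norm_num) (by norm_num) (by norm_num) (by norm_num) (by norm_num) (by norm_num) (by norm_num) (by norm_num) (by norm_num) (by norm_num) (by norm_num) (by norm_num) (by norm_num) (by norm_num)
    (cube_sqrt_geJ (s := 0.7548) (by norm_num) (by norm_num) (by norm_num) (by norm_num))
    (cube_sqrt_geJ (s := 0.9175) (by norm_num) (by norm_num) (by norm_num) (by norm_num))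
    (by norm_num) (by norm_num) (by norm_num) (by norm_num) (by norm_num) (by norm_num) (by norm_num) (by norm_num) (by norm_num) (by norm_num) (by norm_num) (by norm_num) (by norm_num) (by norm_num) (by norm_num) (by norm_num) (by norm_num) (by norm_num)
    (exp_neg_leJ (r := 0.117) 7 (by norm_num) (by norm_num) (by norm_num) (by norm_num))
    (exp_neg_leJ (r := 0.053) 4 (by norm_num) (by norm_num) (by norm_num) (by norm_num))
    (exp_neg_leJ (r := 0.764) 7 (by norm_num) (by norm_num) (by norm_num) (by norm_num))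
    (exp_neg_leJ (r := 0.99) 14 (by norm_num) (by norm_num) (by norm_num) (by norm_num))
    (exp_neg_leJ (r := 0.625) 5 (by norm_num) (by norm_num) (by norm_num) (by norm_num))
    (exp_neg_leJ (r := 0.99) 14 (by norm_num) (by norm_num) (by norm_num) (by norm_num))
    (exp_neg_leJ (r := 0.99) 14 (by norm_num) (by norm_num) (by norm_num) (by norm_num))
    (exp_neg_leJ (r := 0.99) 14 (by norm_num) (by norm_num) (by norm_num) (by norm_num))
    (by norm_num)) (by norm_num) hN hβ.le (by norm_num)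

private theorem T3_04_d0_1_c0 {κ t β : ℝ} (h : DomR κ t) (hβ : 0 < β) (hk1 : 0.38 ≤ κ) (hk2 : κ ≤ 0.39)
    (ht1 : -0.9204 ≤ t + κ) (ht2 : t + κ ≤ -0.85039) (hR0 : β * 10 ≤ κ) (hR : β * (1 * (1 + κ ^ 2)) ≤ κ) :
    ∀ s : ℂ, ‖s - sg κ t‖ ≤ 0.04 → ‖HH β s - 1‖ ≤ 0.245 := by
  have hN : β * 25.641 ≤ 1 := bNR hβ h.1 hk2 hR0 (by norm_num)
  have hy1 : -0.516 ≤ sy κ t := syL_ang2 h 0.38 0.39 0.9204 0.91 0.6137 0.7897 0.516 1.67531 0.5969 hk1 hk2 (by linarith) (by norm_num) (by norm_num) (by norm_num) (by norm_num)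
    (cos_ge_num (by norm_num) (by norm_num)) (sin_le_num (by norm_num) (by norm_num))
    (expn_ge (by norm_num) (by norm_num)) (expm_ge (by norm_num) (by norm_num) (by norm_num) (by norm_num)) (by norm_num) (by norm_num) (by norm_num)
    (by norm_num) (by norm_num) (by norm_num)
  have hy2 : sy κ t ≤ -0.42 := syL_le h 0.38 0.39 0.85039 0.42 0.65704 0.65705 0.70758 0.72622 hk1 hk2 (by linarith) (by norm_num) (by norm_num) (by norm_num)
    (expm_ge (by norm_num) (by norm_num) (by norm_num) (by norm_num)) (expm_le (by norm_num) (by norm_num) (by norm_num)) (by norm_num)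
    (by norm_num) (by norm_num) (by norm_num) (by norm_num) (by norm_num) (by norm_num)
  intro s hs
  have hs' : ‖s - ((sx κ t : ℂ) + (sy κ t : ℂ) * I)‖ ≤ 0.04 := hs
  obtain ⟨es, ⟨s1, s2⟩, ⟨s3, s4⟩⟩ := disc_split hs'
  rcases le_total (sy κ t) (-0.501) with f0 | g0
  · have hx1 : 0.3564 ≤ sx κ t := sx_lo h 0.38 (-0.501) 0.516 1.65036 0.3564 hk1 (by norm_num) f0 (abs_le.2 ⟨by linarith, by linarith⟩) (by rw [neg_neg]; exact expn_ge (by norm_num) (by norm_num)) (by norm_num) (by norm_num)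
    have hx2 : sx κ t ≤ 0.4195 := sx_hi h 0.39 (-0.516) 0.501 1.67532 0.4195 hk2 hy1 (by norm_num) (by rw [abs_of_nonpos (by linarith)]; linarith) (by rw [neg_neg]; exact expn_le (by norm_num) (by norm_num) (by norm_num)) (by norm_num) (by norm_num)
    rw [es]
    exact T3_04_d0_1_b0_0 hβ hN (by linarith) (by linarith) (by linarith) (by linarith)
  rcases le_total (sy κ t) (-0.471) with f1 | g1
  · have hx1 : 0.3455 ≤ sx κ t := sx_lo h 0.38 (-0.471) 0.501 1.60159 0.3455 hk1 (by norm_num) f1 (abs_le.2 ⟨by linarith, by linarith⟩) (by rw [neg_neg]; exact expn_ge (by norm_num) (by norm_num)) (by norm_num) (by norm_num)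
    have hx2 : sx κ t ≤ 0.4387 := sx_hi h 0.39 (-0.501) 0.471 1.65038 0.4387 hk2 g0 (by norm_num) (by rw [abs_of_nonpos (by linarith)]; linarith) (by rw [neg_neg]; exact expn_le (by norm_num) (by norm_num) (by norm_num)) (by norm_num) (by norm_num)
    rw [es]
    exact T3_04_d0_1_b0_1 hβ hN (by linarith) (by linarith) (by linarith) (by linarith)
  have hx1 : 0.3356 ≤ sx κ t := sx_lo h 0.38 (-0.42) 0.471 1.52196 0.3356 hk1 (by norm_num) hy2 (abs_le.2 ⟨by linarith, by linarith⟩) (by rw [neg_neg]; exact expn_ge (by norm_num) (by norm_num)) (by norm_num) (by norm_num)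
  have hx2 : sx κ t ≤ 0.4624 := sx_hi h 0.39 (-0.471) 0.42 1.6016 0.4624 hk2 g1 (by norm_num) (by rw [abs_of_nonpos (by linarith)]; linarith) (by rw [neg_neg]; exact expn_le (by norm_num) (by norm_num) (by norm_num)) (by norm_num) (by norm_num)
  rw [es]
  exact T3_04_d0_1_b0_2 hβ hN (by linarith) (by linarith) (by linarith) (by linarith)

private theorem T3_04_d0_1_b1_0 {β x y : ℝ} (hβ : 0 < β) (hN : β * 24.999 ≤ 1) (hx1 : 0.3516 ≤ x) (hx2 : x ≤ 0.4713)
    (hy1 : -0.572 ≤ y) (hy2 : y ≤ -0.487) : ‖HH β (x + y * I) - 1‖ ≤ 0.245 := by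
  refine le_epsJ (C := 5.857) (N0 := 24.999) (J_boxp 0.3516 0.4713 0.572 0 (-0.487) 0.5514 0.7412 0.6967 2.0386 0.333 4.9999 24.999 1.3443 8.009 1.877 0.7108 0.2756 0.1521 0.2257 1.9634 0.2133 0.9868 0.719 3.4004 0.001022 0.02236 0.003548 0.0000003101 0.004835 0.0000003101 0.0000003101 0.0000003101 5.857
    hβ hN hx1 hx2 hy1 hy2 (by norm_num) (by norm_num) (by linarith) (by norm_num) (by norm_num) (by norm_num) (by norm_num) (by norm_num) (by norm_num) (by norm_num) (by norm_num) (by norm_num) (by norm_num) (by norm_num) (by norm_num) (by norm_num) (by norm_num) (by norm_num) (by norm_num) (by norm_num) (by norm_num) (by norm_num) (by norm_num) (by norm_num)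
    (cube_sqrt_geJ (s := 0.7428) (by norm_num) (by norm_num) (by norm_num) (by norm_num))
    (cube_sqrt_geJ (s := 0.914) (by norm_num) (by norm_num) (by norm_num) (by norm_num))
    (by norm_num) (by norm_num) (by norm_num) (by norm_num) (by norm_num) (by norm_num) (by norm_num) (by norm_num) (by norm_num) (by norm_num) (by norm_num) (by norm_num) (by norm_num) (by norm_num) (by norm_num) (by norm_num) (by norm_num) (by norm_num)
    (exp_neg_leJ (r := 0.889) 6 (by norm_num) (by norm_num) (by norm_num) (by norm_num))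
    (exp_neg_leJ (r := 0.802) 3 (by norm_num) (by norm_num) (by norm_num) (by norm_num))
    (exp_neg_leJ (r := 0.642) 5 (by norm_num) (by norm_num) (by norm_num) (by norm_num))
    (exp_neg_leJ (r := 0.99) 14 (by norm_num) (by norm_num) (by norm_num) (by norm_num))
    (exp_neg_leJ (r := 0.332) 5 (by norm_num) (by norm_num) (by norm_num) (by norm_num))
    (exp_neg_leJ (r := 0.99) 14 (by norm_num) (by norm_num) (by norm_num) (by norm_num))
    (exp_neg_leJ (r := 0.99) 14 (by norm_num) (by norm_num) (by norm_num) (by norm_num))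
    (exp_neg_leJ (r := 0.99) 14 (by norm_num) (by norm_num) (by norm_num) (by norm_num))
    (by norm_num)) (by norm_num) hN hβ.le (by norm_num)

private theorem T3_04_d0_1_b1_1 {β x y : ℝ} (hβ : 0 < β) (hN : β * 24.999 ≤ 1) (hx1 : 0.3473 ≤ x) (hx2 : x ≤ 0.478)
    (hy1 : -0.567 ≤ y) (hy2 : y ≤ -0.477) : ‖HH β (x + y * I) - 1‖ ≤ 0.245 := by
  refine le_epsJ (C := 5.8835) (N0 := 24.999) (J_boxp 0.3473 0.478 0.567 0 (-0.477) 0.552 0.7417 0.7086 2.0526 0.3359 4.9999 24.999 1.3437 7.998 1.877 0.7128 0.2759 0.1523 0.2321 1.9769 0.2139 0.9808 0.724 3.3905 0.001014 0.02225 0.003026 0.0000003101 0.004763 0.0000003101 0.0000003101 0.0000003101 5.8835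
    hβ hN hx1 hx2 hy1 hy2 (by norm_num) (by norm_num) (by linarith) (by norm_num) (by norm_num) (by norm_num) (by norm_num) (by norm_num) (by norm_num) (by norm_num) (by norm_num) (by norm_num) (by norm_num) (by norm_num) (by norm_num) (by norm_num) (by norm_num) (by norm_num) (by norm_num) (by norm_num) (by norm_num) (by norm_num) (by norm_num) (by norm_num)
    (cube_sqrt_geJ (s := 0.743) (by norm_num) (by norm_num) (by norm_num) (by norm_num))
    (cube_sqrt_geJ (s := 0.914) (by norm_num) (by norm_num) (by norm_num) (by norm_num))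
    (by norm_num) (by norm_num) (by norm_num) (by norm_num) (by norm_num) (by norm_num) (by norm_num) (by norm_num) (by norm_num) (by norm_num) (by norm_num) (by norm_num) (by norm_num) (by norm_num) (by norm_num) (by norm_num) (by norm_num) (by norm_num)
    (exp_neg_leJ (r := 0.897) 6 (by norm_num) (by norm_num) (by norm_num) (by norm_num))
    (exp_neg_leJ (r := 0.807) 3 (by norm_num) (by norm_num) (by norm_num) (by norm_num))
    (exp_neg_leJ (r := 0.802) 5 (by norm_num) (by norm_num) (by norm_num) (by norm_num))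
    (exp_neg_leJ (r := 0.99) 14 (by norm_num) (by norm_num) (by norm_num) (by norm_num))
    (exp_neg_leJ (r := 0.347) 5 (by norm_num) (by norm_num) (by norm_num) (by norm_num))
    (exp_neg_leJ (r := 0.99) 14 (by norm_num) (by norm_num) (by norm_num) (by norm_num))
    (exp_neg_leJ (r := 0.99) 14 (by norm_num) (by norm_num) (by norm_num) (by norm_num))
    (exp_neg_leJ (r := 0.99) 14 (by norm_num) (by norm_num) (by norm_num) (by norm_num))
    (by norm_num)) (by norm_num) hN hβ.le (by norm_num)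

private theorem T3_04_d0_1_b1_2 {β x y : ℝ} (hβ : 0 < β) (hN : β * 24.999 ≤ 1) (hx1 : 0.339 ≤ x) (hx2 : x ≤ 0.4906)
    (hy1 : -0.557 ≤ y) (hy2 : y ≤ -0.457) : ‖HH β (x + y * I) - 1‖ ≤ 0.245 := by
  refine le_epsJ (C := 5.9214) (N0 := 24.999) (J_boxp 0.339 0.4906 0.557 0 (-0.457) 0.5532 0.7423 0.7319 2.0793 0.3413 4.9999 24.999 1.3419 7.968 1.875 0.7172 0.2765 0.1528 0.2451 2.0042 0.2153 0.9693 0.7346 3.3723 0.0009983 0.02199 0.002184 0.0000003101 0.004599 0.0000003101 0.0000003101 0.0000003101 5.9214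
    hβ hN hx1 hx2 hy1 hy2 (by norm_num) (by norm_num) (by linarith) (by norm_num) (by norm_num) (by norm_num) (by norm_num) (by norm_num) (by norm_num) (by norm_num) (by norm_num) (by norm_num) (by norm_num) (by norm_num) (by norm_num) (by norm_num) (by norm_num) (by norm_num) (by norm_num) (by norm_num) (by norm_num) (by norm_num) (by norm_num) (by norm_num)
    (cube_sqrt_geJ (s := 0.7434) (by norm_num) (by norm_num) (by norm_num) (by norm_num))
    (cube_sqrt_geJ (s := 0.9141) (by norm_num) (by norm_num) (by norm_num) (by norm_num))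
    (by norm_num) (by norm_num) (by norm_num) (by norm_num) (by norm_num) (by norm_num) (by norm_num) (by norm_num) (by norm_num) (by norm_num) (by norm_num) (by norm_num) (by norm_num) (by norm_num) (by norm_num) (by norm_num) (by norm_num) (by norm_num)
    (exp_neg_leJ (r := 0.912) 6 (by norm_num) (by norm_num) (by norm_num) (by norm_num))
    (exp_neg_leJ (r := 0.819) 3 (by norm_num) (by norm_num) (by norm_num) (by norm_num))
    (exp_neg_leJ (r := 0.127) 6 (by norm_num) (by norm_num) (by norm_num) (by norm_num))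
    (exp_neg_leJ (r := 0.99) 14 (by norm_num) (by norm_num) (by norm_num) (by norm_num))
    (exp_neg_leJ (r := 0.382) 5 (by norm_num) (by norm_num) (by norm_num) (by norm_num))
    (exp_neg_leJ (r := 0.99) 14 (by norm_num) (by norm_num) (by norm_num) (by norm_num))
    (exp_neg_leJ (r := 0.99) 14 (by norm_num) (by norm_num) (by norm_num) (by norm_num))
    (exp_neg_leJ (r := 0.99) 14 (by norm_num) (by norm_num) (by norm_num) (by norm_num))
    (by norm_num)) (by norm_num) hN hβ.le (by norm_num)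

private theorem T3_04_d0_1_b1_3 {β x y : ℝ} (hβ : 0 < β) (hN : β * 24.999 ≤ 1) (hx1 : 0.3238 ≤ x) (hx2 : x ≤ 0.5128)
    (hy1 : -0.537 ≤ y) (hy2 : y ≤ -0.417) : ‖HH β (x + y * I) - 1‖ ≤ 0.245 := by
  refine le_epsJ (C := 5.8892) (N0 := 24.999) (J_boxp 0.3238 0.5128 0.537 0 (-0.417) 0.5567 0.7426 0.7765 2.1215 0.3516 4.9999 24.999 1.334 7.836 1.867 0.7271 0.2783 0.1545 0.2714 2.0601 0.2189 0.9483 0.7585 3.341 0.0009549 0.02107 0.001134 0.0000003101 0.004204 0.0000003101 0.0000003101 0.0000003101 5.8892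
    hβ hN hx1 hx2 hy1 hy2 (by norm_num) (by norm_num) (by linarith) (by norm_num) (by norm_num) (by norm_num) (by norm_num) (by norm_num) (by norm_num) (by norm_num) (by norm_num) (by norm_num) (by norm_num) (by norm_num) (by norm_num) (by norm_num) (by norm_num) (by norm_num) (by norm_num) (by norm_num) (by norm_num) (by norm_num) (by norm_num) (by norm_num)
    (cube_sqrt_geJ (s := 0.7452) (by norm_num) (by norm_num) (by norm_num) (by norm_num))
    (cube_sqrt_geJ (s := 0.9146) (by norm_num) (by norm_num) (by norm_num) (by norm_num))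
    (by norm_num) (by norm_num) (by norm_num) (by norm_num) (by norm_num) (by norm_num) (by norm_num) (by norm_num) (by norm_num) (by norm_num) (by norm_num) (by norm_num) (by norm_num) (by norm_num) (by norm_num) (by norm_num) (by norm_num) (by norm_num)
    (exp_neg_leJ (r := 0.957) 6 (by norm_num) (by norm_num) (by norm_num) (by norm_num))
    (exp_neg_leJ (r := 0.862) 3 (by norm_num) (by norm_num) (by norm_num) (by norm_num))
    (exp_neg_leJ (r := 0.784) 6 (by norm_num) (by norm_num) (by norm_num) (by norm_num))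
    (exp_neg_leJ (r := 0.99) 14 (by norm_num) (by norm_num) (by norm_num) (by norm_num))
    (exp_neg_leJ (r := 0.472) 5 (by norm_num) (by norm_num) (by norm_num) (by norm_num))
    (exp_neg_leJ (r := 0.99) 14 (by norm_num) (by norm_num) (by norm_num) (by norm_num))
    (exp_neg_leJ (r := 0.99) 14 (by norm_num) (by norm_num) (by norm_num) (by norm_num))
    (exp_neg_leJ (r := 0.99) 14 (by norm_num) (by norm_num) (by norm_num) (by norm_num))
    (by norm_num)) (by norm_num) hN hβ.le (by norm_num)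

private theorem T3_04_d0_1_b1_4 {β x y : ℝ} (hβ : 0 < β) (hN : β * 24.999 ≤ 1) (hx1 : 0.3499 ≤ x) (hx2 : x ≤ 0.501)
    (hy1 : -0.497 ≤ y) (hy2 : y ≤ -0.392) : ‖HH β (x + y * I) - 1‖ ≤ 0.245 := by
  refine le_epsJ (C := 3.2318) (N0 := 24.999) (J_boxp 0.3499 0.501 0.497 0 (-0.392) 0.6035 0.7057 0.7879 1.8934 0.3542 4.9999 24.999 1.1694 5.635 1.718 0.7686 0.3017 0.1841 0.3435 2.1992 0.2534 0.9844 0.9195 3.4935 0.0005305 0.01004 0.0001866 0.0000003101 0.001775 0.0000003101 0.0000003101 0.0000003101 3.2318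
    hβ hN hx1 hx2 hy1 hy2 (by norm_num) (by norm_num) (by linarith) (by norm_num) (by norm_num) (by norm_num) (by norm_num) (by norm_num) (by norm_num) (by norm_num) (by norm_num) (by norm_num) (by norm_num) (by norm_num) (by norm_num) (by norm_num) (by norm_num) (by norm_num) (by norm_num) (by norm_num) (by norm_num) (by norm_num) (by norm_num) (by norm_num)
    (cube_sqrt_geJ (s := 0.7811) (by norm_num) (by norm_num) (by norm_num) (by norm_num))
    (cube_sqrt_geJ (s := 0.9256) (by norm_num) (by norm_num) (by norm_num) (by norm_num))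
    (by norm_num) (by norm_num) (by norm_num) (by norm_num) (by norm_num) (by norm_num) (by norm_num) (by norm_num) (by norm_num) (by norm_num) (by norm_num) (by norm_num) (by norm_num) (by norm_num) (by norm_num) (by norm_num) (by norm_num) (by norm_num)
    (exp_neg_leJ (r := 0.542) 7 (by norm_num) (by norm_num) (by norm_num) (by norm_num))
    (exp_neg_leJ (r := 0.602) 4 (by norm_num) (by norm_num) (by norm_num) (by norm_num))
    (exp_neg_leJ (r := 0.587) 8 (by norm_num) (by norm_num) (by norm_num) (by norm_num))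
    (exp_neg_leJ (r := 0.99) 14 (by norm_num) (by norm_num) (by norm_num) (by norm_num))
    (exp_neg_leJ (r := 0.334) 6 (by norm_num) (by norm_num) (by norm_num) (by norm_num))
    (exp_neg_leJ (r := 0.99) 14 (by norm_num) (by norm_num) (by norm_num) (by norm_num))
    (exp_neg_leJ (r := 0.99) 14 (by norm_num) (by norm_num) (by norm_num) (by norm_num))
    (exp_neg_leJ (r := 0.99) 14 (by norm_num) (by norm_num) (by norm_num) (by norm_num))
    (by norm_num)) (by norm_num) hN hβ.le (by norm_num)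

private theorem T3_04_d0_1_c1 {κ t β : ℝ} (h : DomR κ t) (hβ : 0 < β) (hk1 : 0.39 ≤ κ) (hk2 : κ ≤ 0.4)
    (ht1 : -0.9204 ≤ t + κ) (ht2 : t + κ ≤ -0.85039) (hR0 : β * 10 ≤ κ) (hR : β * (1 * (1 + κ ^ 2)) ≤ κ) :
    ∀ s : ℂ, ‖s - sg κ t‖ ≤ 0.04 → ‖HH β s - 1‖ ≤ 0.245 := by
  have hN : β * 24.999 ≤ 1 := bNR hβ h.1 hk2 hR0 (by norm_num)
  have hy1 : -0.532 ≤ sy κ t := syL_ang2 h 0.39 0.4 0.9204 0.896 0.6247 0.781 0.532 1.70233 0.58742 hk1 hk2 (by linarith) (by norm_num) (by norm_num) (by norm_num) (by norm_num)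
    (cos_ge_num (by norm_num) (by norm_num)) (sin_le_num (by norm_num) (by norm_num))
    (expn_ge (by norm_num) (by norm_num)) (expm_ge (by norm_num) (by norm_num) (by norm_num) (by norm_num)) (by norm_num) (by norm_num) (by norm_num)
    (by norm_num) (by norm_num) (by norm_num)
  have hy2 : sy κ t ≤ -0.432 := syL_le h 0.39 0.4 0.85039 0.432 0.6492 0.64921 0.70113 0.71913 hk1 hk2 (by linarith) (by norm_num) (by norm_num) (by norm_num)
    (expm_ge (by norm_num) (by norm_num) (by norm_num) (by norm_num)) (expm_le (by norm_num) (by norm_num) (by norm_num)) (by norm_num)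
    (by norm_num) (by norm_num) (by norm_num) (by norm_num) (by norm_num) (by norm_num)
  intro s hs
  have hs' : ‖s - ((sx κ t : ℂ) + (sy κ t : ℂ) * I)‖ ≤ 0.04 := hs
  obtain ⟨es, ⟨s1, s2⟩, ⟨s3, s4⟩⟩ := disc_split hs'
  rcases le_total (sy κ t) (-0.527) with f0 | g0
  · have hx1 : 0.3916 ≤ sx κ t := sx_lo h 0.39 (-0.527) 0.532 1.69384 0.3916 hk1 (by norm_num) f0 (abs_le.2 ⟨by linarith, by linarith⟩) (by rw [neg_neg]; exact expn_ge (by norm_num) (by norm_num)) (by norm_num) (by norm_num)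
    have hx2 : sx κ t ≤ 0.4313 := sx_hi h 0.4 (-0.532) 0.527 1.70234 0.4313 hk2 hy1 (by norm_num) (by rw [abs_of_nonpos (by linarith)]; linarith) (by rw [neg_neg]; exact expn_le (by norm_num) (by norm_num) (by norm_num)) (by norm_num) (by norm_num)
    rw [es]
    exact T3_04_d0_1_b1_0 hβ hN (by linarith) (by linarith) (by linarith) (by linarith)
  rcases le_total (sy κ t) (-0.517) with f1 | g1
  · have hx1 : 0.3873 ≤ sx κ t := sx_lo h 0.39 (-0.517) 0.527 1.67698 0.3873 hk1 (by norm_num) f1 (abs_le.2 ⟨by linarith, by linarith⟩) (by rw [neg_neg]; exact expn_ge (by norm_num) (by norm_num)) (by norm_num) (by norm_num)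
    have hx2 : sx κ t ≤ 0.438 := sx_hi h 0.4 (-0.527) 0.517 1.69385 0.438 hk2 g0 (by norm_num) (by rw [abs_of_nonpos (by linarith)]; linarith) (by rw [neg_neg]; exact expn_le (by norm_num) (by norm_num) (by norm_num)) (by norm_num) (by norm_num)
    rw [es]
    exact T3_04_d0_1_b1_1 hβ hN (by linarith) (by linarith) (by linarith) (by linarith)
  rcases le_total (sy κ t) (-0.497) with f2 | g2
  · have hx1 : 0.379 ≤ sx κ t := sx_lo h 0.39 (-0.497) 0.517 1.64378 0.379 hk1 (by norm_num) f2 (abs_le.2 ⟨by linarith, by linarith⟩) (by rw [neg_neg]; exact expn_ge (by norm_num) (by norm_num)) (by norm_num) (by norm_num)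
    have hx2 : sx κ t ≤ 0.4506 := sx_hi h 0.4 (-0.517) 0.497 1.67699 0.4506 hk2 g1 (by norm_num) (by rw [abs_of_nonpos (by linarith)]; linarith) (by rw [neg_neg]; exact expn_le (by norm_num) (by norm_num) (by norm_num)) (by norm_num) (by norm_num)
    rw [es]
    exact T3_04_d0_1_b1_2 hβ hN (by linarith) (by linarith) (by linarith) (by linarith)
  rcases le_total (sy κ t) (-0.457) with f3 | g3
  · have hx1 : 0.3638 ≤ sx κ t := sx_lo h 0.39 (-0.457) 0.497 1.57932 0.3638 hk1 (by norm_num) f3 (abs_le.2 ⟨by linarith, by linarith⟩) (by rw [neg_neg]; exact expn_ge (by norm_num) (by norm_num)) (by norm_num) (by norm_num)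
    have hx2 : sx κ t ≤ 0.4728 := sx_hi h 0.4 (-0.497) 0.457 1.64379 0.4728 hk2 g2 (by norm_num) (by rw [abs_of_nonpos (by linarith)]; linarith) (by rw [neg_neg]; exact expn_le (by norm_num) (by norm_num) (by norm_num)) (by norm_num) (by norm_num)
    rw [es]
    exact T3_04_d0_1_b1_3 hβ hN (by linarith) (by linarith) (by linarith) (by linarith)
  have hx1 : 0.3899 ≤ sx κ t := sx_lo h 0.39 (-0.432) 0.457 1.54033 0.3899 hk1 (by norm_num) hy2 (abs_le.2 ⟨by linarith, by linarith⟩) (by rw [neg_neg]; exact expn_ge (by norm_num) (by norm_num)) (by norm_num) (by norm_num)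
  have hx2 : sx κ t ≤ 0.461 := sx_hi h 0.4 (-0.457) 0.432 1.57933 0.461 hk2 g3 (by norm_num) (by rw [abs_of_nonpos (by linarith)]; linarith) (by rw [neg_neg]; exact expn_le (by norm_num) (by norm_num) (by norm_num)) (by norm_num) (by norm_num)
  rw [es]
  exact T3_04_d0_1_b1_4 hβ hN (by linarith) (by linarith) (by linarith) (by linarith)

theorem T3_04_d0_1 {κ t β : ℝ} (h : DomR κ t) (hβ : 0 < β) (hk1 : 0.38 ≤ κ) (hk2 : κ ≤ 0.4)
    (ht1 : -0.9204 ≤ t + κ) (ht2 : t + κ ≤ -0.85039) (hR0 : β * 10 ≤ κ) (hR : β * (1 * (1 + κ ^ 2)) ≤ κ) :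
    ∀ s : ℂ, ‖s - sg κ t‖ ≤ 0.04 → ‖HH β s - 1‖ ≤ 0.245 := by
  rcases le_total κ 0.39 with f0 | g0
  · exact T3_04_d0_1_c0 h hβ hk1 f0 ht1 ht2 hR0 hR
  exact T3_04_d0_1_c1 h hβ g0 hk2 ht1 ht2 hR0 hR

private theorem T3_04_d1_1_b0_0 {β x y : ℝ} (hβ : 0 < β) (hN : β * 24.999 ≤ 1) (hn : ‖(x + y * I : ℂ)‖ ≤ 0.395) : ‖HH β (x + y * I) - 1‖ ≤ 0.06 := by
  refine le_epsJ (C := 1.258) (N0 := 24.999) (J45_genN (N := 24.999) (r0 := 4.9999) (f := 2.435) (n0 := 0.395) (a := 0.605) (wL := 1.866) (wR := 2.339)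
    (E1 := 0.0143) (E2 := 0.00001024) (E3 := 0.04949) (E4 := 0.0001391) (E5 := 0.0000003101) hβ (by norm_num) hN
    (by norm_num) (by norm_num) (by norm_num) hn (by norm_num) (by norm_num) (by norm_num)
    (cube_sqrt_geJ (s := 0.9147) (by norm_num) (by norm_num) (by norm_num) (by norm_num))
    (cube_sqrt_geJ (s := 0.8857) (by norm_num) (by norm_num) (by norm_num) (by norm_num))
    (exp_neg_leJ (r := 0.248) 4 (by norm_num) (by norm_num) (by norm_num) (by norm_num))
    (exp_neg_leJ (r := 0.49) 11 (by norm_num) (by norm_num) (by norm_num) (by norm_num))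
    (exp_neg_leJ (r := 0.006) 3 (by norm_num) (by norm_num) (by norm_num) (by norm_num))
    (exp_neg_leJ (r := 0.883) 8 (by norm_num) (by norm_num) (by norm_num) (by norm_num))
    (exp_neg_leJ (r := 0.99) 14 (by norm_num) (by norm_num) (by norm_num) (by norm_num))
    (by norm_num)) (by norm_num) hN hβ.le (by norm_num)

private theorem T3_04_d1_1_c0 {κ t β : ℝ} (h : DomR κ t) (hβ : 0 < β) (hk1 : 0.38 ≤ κ) (hk2 : κ ≤ 0.4)
    (ht1 : 1.174 ≤ t + κ) (ht2 : t + κ ≤ 1.244) (hR0 : β * 10 ≤ κ) (hR : β * (1 * (1 + κ ^ 2)) ≤ κ) :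
    ∀ s : ℂ, ‖s - sg κ t‖ ≤ 0.08 → ‖HH β s - 1‖ ≤ 0.06 := by
  have hN : β * 24.999 ≤ 1 := bNR hβ h.1 hk2 hR0 (by norm_num)
  have hy1 : 0.239 ≤ sy κ t := syR_ge h 0.38 0.4 1.174 0.239 1.26997 1.26998 0.7588 0.79876 hk1 hk2 (by linarith) (by norm_num) (by norm_num)
    (expn_ge (by norm_num) (by norm_num)) (expn_le (by norm_num) (by norm_num) (by norm_num)) (by norm_num)
    (by norm_num) (by norm_num) (by norm_num) (by norm_num) (by norm_num) (by norm_num)
  have hy2 : sy κ t ≤ 0.263 := syR_ang2 h 0.38 0.4 1.244 1.025 0.5207 0.855 0.263 0.76875 1.30082 hk1 hk2 (by linarith) (by norm_num) (by norm_num) (by norm_num)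
    (cos_le_num (by norm_num)) (sin_le_num (by norm_num) (by norm_num)) (expm_le (by norm_num) (by norm_num) (by norm_num))
    (expn_ge (by norm_num) (by norm_num)) (by norm_num) (by norm_num) (by norm_num) (by norm_num) (by norm_num)
  intro s hs
  have hs' : ‖s - ((sx κ t : ℂ) + (sy κ t : ℂ) * I)‖ ≤ 0.08 := hs
  obtain ⟨es, ⟨s1, s2⟩, ⟨s3, s4⟩⟩ := disc_split hs'
  rw [es]
  refine T3_04_d1_1_b0_0 hβ hN ?_
  rw [← es]
  exact disc_norm hs' (norm_sg_le h 0.4 0.239 0.78742 (0.395 - 0.08) hk2 hy1 (expm_le (by norm_num) (by norm_num) (by norm_num)) (by norm_num))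

theorem T3_04_d1_1 {κ t β : ℝ} (h : DomR κ t) (hβ : 0 < β) (hk1 : 0.38 ≤ κ) (hk2 : κ ≤ 0.4)
    (ht1 : 1.174 ≤ t + κ) (ht2 : t + κ ≤ 1.244) (hR0 : β * 10 ≤ κ) (hR : β * (1 * (1 + κ ^ 2)) ≤ κ) :
    ∀ s : ℂ, ‖s - sg κ t‖ ≤ 0.08 → ‖HH β s - 1‖ ≤ 0.06 := by
  exact T3_04_d1_1_c0 h hβ hk1 hk2 ht1 ht2 hR0 hR

private theorem T3_04_d0_2_b0_0 {β x y : ℝ} (hβ : 0 < β) (hN : β * 25.641 ≤ 1) (hx1 : 0.3221 ≤ x) (hx2 : x ≤ 0.4849)
    (hy1 : -0.501 ≤ y) (hy2 : y ≤ -0.381) : ‖HH β (x + y * I) - 1‖ ≤ 0.15 := by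
  refine le_epsJ (C := 3.7425) (N0 := 25.641) (J_boxp 0.3221 0.4849 0.501 0 (-0.381) 0.5811 0.6973 0.7864 2.002 0.3538 5.0637 25.641 1.2 5.978 1.745 0.7711 0.2905 0.1743 0.3277 2.1939 0.2377 0.9459 0.853 3.4608 0.0005827 0.01147 0.0002245 0.0000003101 0.002257 0.0000003101 0.0000003101 0.0000003101 3.7425
    hβ hN hx1 hx2 hy1 hy2 (by norm_num) (by norm_num) (by linarith) (by norm_num) (by norm_num) (by norm_num) (by norm_num) (by norm_num) (by norm_num) (by norm_num) (by norm_num) (by norm_num) (by norm_num) (by norm_num) (by norm_num) (by norm_num) (by norm_num) (by norm_num) (by norm_num) (by norm_num) (by norm_num) (by norm_num) (by norm_num) (by norm_num)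
    (cube_sqrt_geJ (s := 0.7745) (by norm_num) (by norm_num) (by norm_num) (by norm_num))
    (cube_sqrt_geJ (s := 0.9236) (by norm_num) (by norm_num) (by norm_num) (by norm_num))
    (by norm_num) (by norm_num) (by norm_num) (by norm_num) (by norm_num) (by norm_num) (by norm_num) (by norm_num) (by norm_num) (by norm_num) (by norm_num) (by norm_num) (by norm_num) (by norm_num) (by norm_num) (by norm_num) (by norm_num) (by norm_num)
    (exp_neg_leJ (r := 0.448) 7 (by norm_num) (by norm_num) (by norm_num) (by norm_num))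
    (exp_neg_leJ (r := 0.469) 4 (by norm_num) (by norm_num) (by norm_num) (by norm_num))
    (exp_neg_leJ (r := 0.402) 8 (by norm_num) (by norm_num) (by norm_num) (by norm_num))
    (exp_neg_leJ (r := 0.99) 14 (by norm_num) (by norm_num) (by norm_num) (by norm_num))
    (exp_neg_leJ (r := 0.094) 6 (by norm_num) (by norm_num) (by norm_num) (by norm_num))
    (exp_neg_leJ (r := 0.99) 14 (by norm_num) (by norm_num) (by norm_num) (by norm_num))
    (exp_neg_leJ (r := 0.99) 14 (by norm_num) (by norm_num) (by norm_num) (by norm_num))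
    (exp_neg_leJ (r := 0.99) 14 (by norm_num) (by norm_num) (by norm_num) (by norm_num))
    (by norm_num)) (by norm_num) hN hβ.le (by norm_num)

private theorem T3_04_d0_2_b0_1 {β x y : ℝ} (hβ : 0 < β) (hN : β * 25.641 ≤ 1) (hx1 : 0.3059 ≤ x) (hx2 : x ≤ 0.5096)
    (hy1 : -0.481 ≤ y) (hy2 : y ≤ -0.336) : ‖HH β (x + y * I) - 1‖ ≤ 0.15 := by
  refine le_epsJ (C := 3.826) (N0 := 25.641) (J_boxp 0.3059 0.5096 0.481 0 (-0.336) 0.5839 0.7008 0.8371 2.0507 0.3651 5.0637 25.641 1.2003 5.981 1.745 0.7801 0.2919 0.1751 0.3537 2.2481 0.2408 0.9235 0.8749 3.4189 0.0005621 0.01124 0.0001152 0.0000003101 0.002083 0.0000003101 0.0000003101 0.0000003101 3.826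
    hβ hN hx1 hx2 hy1 hy2 (by norm_num) (by norm_num) (by linarith) (by norm_num) (by norm_num) (by norm_num) (by norm_num) (by norm_num) (by norm_num) (by norm_num) (by norm_num) (by norm_num) (by norm_num) (by norm_num) (by norm_num) (by norm_num) (by norm_num) (by norm_num) (by norm_num) (by norm_num) (by norm_num) (by norm_num) (by norm_num) (by norm_num)
    (cube_sqrt_geJ (s := 0.7745) (by norm_num) (by norm_num) (by norm_num) (by norm_num))
    (cube_sqrt_geJ (s := 0.9235) (by norm_num) (by norm_num) (by norm_num) (by norm_num))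
    (by norm_num) (by norm_num) (by norm_num) (by norm_num) (by norm_num) (by norm_num) (by norm_num) (by norm_num) (by norm_num) (by norm_num) (by norm_num) (by norm_num) (by norm_num) (by norm_num) (by norm_num) (by norm_num) (by norm_num) (by norm_num)
    (exp_neg_leJ (r := 0.484) 7 (by norm_num) (by norm_num) (by norm_num) (by norm_num))
    (exp_neg_leJ (r := 0.489) 4 (by norm_num) (by norm_num) (by norm_num) (by norm_num))
    (exp_neg_leJ (r := 0.069) 9 (by norm_num) (by norm_num) (by norm_num) (by norm_num))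
    (exp_neg_leJ (r := 0.99) 14 (by norm_num) (by norm_num) (by norm_num) (by norm_num))
    (exp_neg_leJ (r := 0.174) 6 (by norm_num) (by norm_num) (by norm_num) (by norm_num))
    (exp_neg_leJ (r := 0.99) 14 (by norm_num) (by norm_num) (by norm_num) (by norm_num))
    (exp_neg_leJ (r := 0.99) 14 (by norm_num) (by norm_num) (by norm_num) (by norm_num))
    (exp_neg_leJ (r := 0.99) 14 (by norm_num) (by norm_num) (by norm_num) (by norm_num))
    (by norm_num)) (by norm_num) hN hβ.le (by norm_num)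

private theorem T3_04_d0_2_b0_2 {β x y : ℝ} (hβ : 0 < β) (hN : β * 25.641 ≤ 1) (hx1 : 0.3087 ≤ x) (hx2 : x ≤ 0.5215)
    (hy1 : -0.436 ≤ y) (hy2 : y ≤ -0.277) : ‖HH β (x + y * I) - 1‖ ≤ 0.15 := by
  refine le_epsJ (C := 2.691) (N0 := 25.641) (J_boxp 0.3087 0.5215 0.436 0 (-0.277) 0.6178 0.6798 0.8915 1.9445 0.3767 5.0637 25.641 1.1004 4.951 1.66 0.817 0.3088 0.1955 0.4257 2.3914 0.2667 0.9274 1.0029 3.4815 0.0003655 0.006658 0.00001823 0.0000003101 0.001075 0.0000003101 0.0000003101 0.0000003101 2.691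
    hβ hN hx1 hx2 hy1 hy2 (by norm_num) (by norm_num) (by linarith) (by norm_num) (by norm_num) (by norm_num) (by norm_num) (by norm_num) (by norm_num) (by norm_num) (by norm_num) (by norm_num) (by norm_num) (by norm_num) (by norm_num) (by norm_num) (by norm_num) (by norm_num) (by norm_num) (by norm_num) (by norm_num) (by norm_num) (by norm_num) (by norm_num)
    (cube_sqrt_geJ (s := 0.7957) (by norm_num) (by norm_num) (by norm_num) (by norm_num))
    (cube_sqrt_geJ (s := 0.9301) (by norm_num) (by norm_num) (by norm_num) (by norm_num))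
    (by norm_num) (by norm_num) (by norm_num) (by norm_num) (by norm_num) (by norm_num) (by norm_num) (by norm_num) (by norm_num) (by norm_num) (by norm_num) (by norm_num) (by norm_num) (by norm_num) (by norm_num) (by norm_num) (by norm_num) (by norm_num)
    (exp_neg_leJ (r := 0.917) 7 (by norm_num) (by norm_num) (by norm_num) (by norm_num))
    (exp_neg_leJ (r := 0.012) 5 (by norm_num) (by norm_num) (by norm_num) (by norm_num))
    (exp_neg_leJ (r := 0.915) 10 (by norm_num) (by norm_num) (by norm_num) (by norm_num))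
    (exp_neg_leJ (r := 0.99) 14 (by norm_num) (by norm_num) (by norm_num) (by norm_num))
    (exp_neg_leJ (r := 0.838) 6 (by norm_num) (by norm_num) (by norm_num) (by norm_num))
    (exp_neg_leJ (r := 0.99) 14 (by norm_num) (by norm_num) (by norm_num) (by norm_num))
    (exp_neg_leJ (r := 0.99) 14 (by norm_num) (by norm_num) (by norm_num) (by norm_num))
    (exp_neg_leJ (r := 0.99) 14 (by norm_num) (by norm_num) (by norm_num) (by norm_num))
    (by norm_num)) (by norm_num) hN hβ.le (by norm_num)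

private theorem T3_04_d0_2_c0 {κ t β : ℝ} (h : DomR κ t) (hβ : 0 < β) (hk1 : 0.38 ≤ κ) (hk2 : κ ≤ 0.39)
    (ht1 : -0.8504 ≤ t + κ) (ht2 : t + κ ≤ -0.71239) (hR0 : β * 10 ≤ κ) (hR : β * (1 * (1 + κ ^ 2)) ≤ κ) :
    ∀ s : ℂ, ‖s - sg κ t‖ ≤ 0.05 → ‖HH β s - 1‖ ≤ 0.15 := by
  have hN : β * 25.641 ≤ 1 := bNR hβ h.1 hk2 hR0 (by norm_num)
  have hy1 : -0.451 ≤ sy κ t := syL_ang2 h 0.38 0.39 0.8504 0.827 0.677 0.736 0.451 1.56988 0.63699 hk1 hk2 (by linarith) (by norm_num) (by norm_num) (by norm_num) (by norm_num)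
    (cos_ge_num (by norm_num) (by norm_num)) (sin_le_num (by norm_num) (by norm_num))
    (expn_ge (by norm_num) (by norm_num)) (expm_ge (by norm_num) (by norm_num) (by norm_num) (by norm_num)) (by norm_num) (by norm_num) (by norm_num)
    (by norm_num) (by norm_num) (by norm_num)
  have hy2 : sy κ t ≤ -0.327 := syL_le h 0.38 0.39 0.71239 0.327 0.72108 0.72109 0.60459 0.62052 hk1 hk2 (by linarith) (by norm_num) (by norm_num) (by norm_num)
    (expm_ge (by norm_num) (by norm_num) (by norm_num) (by norm_num)) (expm_le (by norm_num) (by norm_num) (by norm_num)) (by norm_num)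
    (by norm_num) (by norm_num) (by norm_num) (by norm_num) (by norm_num) (by norm_num)
  intro s hs
  have hs' : ‖s - ((sx κ t : ℂ) + (sy κ t : ℂ) * I)‖ ≤ 0.05 := hs
  obtain ⟨es, ⟨s1, s2⟩, ⟨s3, s4⟩⟩ := disc_split hs'
  rcases le_total (sy κ t) (-0.431) with f0 | g0
  · have hx1 : 0.3721 ≤ sx κ t := sx_lo h 0.38 (-0.431) 0.451 1.53879 0.3721 hk1 (by norm_num) f0 (abs_le.2 ⟨by linarith, by linarith⟩) (by rw [neg_neg]; exact expn_ge (by norm_num) (by norm_num)) (by norm_num) (by norm_num)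
    have hx2 : sx κ t ≤ 0.4349 := sx_hi h 0.39 (-0.451) 0.431 1.56989 0.4349 hk2 hy1 (by norm_num) (by rw [abs_of_nonpos (by linarith)]; linarith) (by rw [neg_neg]; exact expn_le (by norm_num) (by norm_num) (by norm_num)) (by norm_num) (by norm_num)
    rw [es]
    exact T3_04_d0_2_b0_0 hβ hN (by linarith) (by linarith) (by linarith) (by linarith)
  rcases le_total (sy κ t) (-0.386) with f1 | g1
  · have hx1 : 0.3559 ≤ sx κ t := sx_lo h 0.38 (-0.386) 0.431 1.47108 0.3559 hk1 (by norm_num) f1 (abs_le.2 ⟨by linarith, by linarith⟩) (by rw [neg_neg]; exact expn_ge (by norm_num) (by norm_num)) (by norm_num) (by norm_num)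
    have hx2 : sx κ t ≤ 0.4596 := sx_hi h 0.39 (-0.431) 0.386 1.5388 0.4596 hk2 g0 (by norm_num) (by rw [abs_of_nonpos (by linarith)]; linarith) (by rw [neg_neg]; exact expn_le (by norm_num) (by norm_num) (by norm_num)) (by norm_num) (by norm_num)
    rw [es]
    exact T3_04_d0_2_b0_1 hβ hN (by linarith) (by linarith) (by linarith) (by linarith)
  have hx1 : 0.3587 ≤ sx κ t := sx_lo h 0.38 (-0.327) 0.386 1.3868 0.3587 hk1 (by norm_num) hy2 (abs_le.2 ⟨by linarith, by linarith⟩) (by rw [neg_neg]; exact expn_ge (by norm_num) (by norm_num)) (by norm_num) (by norm_num)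
  have hx2 : sx κ t ≤ 0.4715 := sx_hi h 0.39 (-0.386) 0.327 1.47109 0.4715 hk2 g1 (by norm_num) (by rw [abs_of_nonpos (by linarith)]; linarith) (by rw [neg_neg]; exact expn_le (by norm_num) (by norm_num) (by norm_num)) (by norm_num) (by norm_num)
  rw [es]
  exact T3_04_d0_2_b0_2 hβ hN (by linarith) (by linarith) (by linarith) (by linarith)

private theorem T3_04_d0_2_b1_0 {β x y : ℝ} (hβ : 0 < β) (hN : β * 24.999 ≤ 1) (hx1 : 0.3524 ≤ x) (hx2 : x ≤ 0.4958)
    (hy1 : -0.513 ≤ y) (hy2 : y ≤ -0.403) : ‖HH β (x + y * I) - 1‖ ≤ 0.15 := by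
  refine le_epsJ (C := 3.6127) (N0 := 24.999) (J_boxp 0.3524 0.4958 0.513 0 (-0.403) 0.5939 0.7135 0.7761 1.9249 0.3515 4.9999 24.999 1.2014 5.994 1.746 0.7558 0.2969 0.178 0.3191 2.1485 0.2459 0.9879 0.881 3.4773 0.0005981 0.0117 0.0003445 0.0000003101 0.00214 0.0000003101 0.0000003101 0.0000003101 3.6127
    hβ hN hx1 hx2 hy1 hy2 (by norm_num) (by norm_num) (by linarith) (by norm_num) (by norm_num) (by norm_num) (by norm_num) (by norm_num) (by norm_num) (by norm_num) (by norm_num) (by norm_num) (by norm_num) (by norm_num) (by norm_num) (by norm_num) (by norm_num) (by norm_num) (by norm_num) (by norm_num) (by norm_num) (by norm_num) (by norm_num) (by norm_num)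
    (cube_sqrt_geJ (s := 0.7742) (by norm_num) (by norm_num) (by norm_num) (by norm_num))
    (cube_sqrt_geJ (s := 0.9235) (by norm_num) (by norm_num) (by norm_num) (by norm_num))
    (by norm_num) (by norm_num) (by norm_num) (by norm_num) (by norm_num) (by norm_num) (by norm_num) (by norm_num) (by norm_num) (by norm_num) (by norm_num) (by norm_num) (by norm_num) (by norm_num) (by norm_num) (by norm_num) (by norm_num) (by norm_num)
    (exp_neg_leJ (r := 0.422) 7 (by norm_num) (by norm_num) (by norm_num) (by norm_num))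
    (exp_neg_leJ (r := 0.449) 4 (by norm_num) (by norm_num) (by norm_num) (by norm_num))
    (exp_neg_leJ (r := 0.977) 7 (by norm_num) (by norm_num) (by norm_num) (by norm_num))
    (exp_neg_leJ (r := 0.99) 14 (by norm_num) (by norm_num) (by norm_num) (by norm_num))
    (exp_neg_leJ (r := 0.147) 6 (by norm_num) (by norm_num) (by norm_num) (by norm_num))
    (exp_neg_leJ (r := 0.99) 14 (by norm_num) (by norm_num) (by norm_num) (by norm_num))
    (exp_neg_leJ (r := 0.99) 14 (by norm_num) (by norm_num) (by norm_num) (by norm_num))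
    (exp_neg_leJ (r := 0.99) 14 (by norm_num) (by norm_num) (by norm_num) (by norm_num))
    (by norm_num)) (by norm_num) hN hβ.le (by norm_num)

private theorem T3_04_d0_2_b1_1 {β x y : ℝ} (hβ : 0 < β) (hN : β * 24.999 ≤ 1) (hx1 : 0.3454 ≤ x) (hx2 : x ≤ 0.5066)
    (hy1 : -0.503 ≤ y) (hy2 : y ≤ -0.383) : ‖HH β (x + y * I) - 1‖ ≤ 0.15 := by
  refine le_epsJ (C := 3.6006) (N0 := 24.999) (J_boxp 0.3454 0.5066 0.503 0 (-0.383) 0.5961 0.7139 0.7984 1.9415 0.3565 4.9999 24.999 1.1977 5.951 1.743 0.7609 0.298 0.179 0.3325 2.1765 0.248 0.9782 0.8941 3.4623 0.0005821 0.01141 0.0002456 0.0000003101 0.002032 0.0000003101 0.0000003101 0.0000003101 3.6006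
    hβ hN hx1 hx2 hy1 hy2 (by norm_num) (by norm_num) (by linarith) (by norm_num) (by norm_num) (by norm_num) (by norm_num) (by norm_num) (by norm_num) (by norm_num) (by norm_num) (by norm_num) (by norm_num) (by norm_num) (by norm_num) (by norm_num) (by norm_num) (by norm_num) (by norm_num) (by norm_num) (by norm_num) (by norm_num) (by norm_num) (by norm_num)
    (cube_sqrt_geJ (s := 0.775) (by norm_num) (by norm_num) (by norm_num) (by norm_num))
    (cube_sqrt_geJ (s := 0.9237) (by norm_num) (by norm_num) (by norm_num) (by norm_num))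
    (by norm_num) (by norm_num) (by norm_num) (by norm_num) (by norm_num) (by norm_num) (by norm_num) (by norm_num) (by norm_num) (by norm_num) (by norm_num) (by norm_num) (by norm_num) (by norm_num) (by norm_num) (by norm_num) (by norm_num) (by norm_num)
    (exp_neg_leJ (r := 0.449) 7 (by norm_num) (by norm_num) (by norm_num) (by norm_num))
    (exp_neg_leJ (r := 0.474) 4 (by norm_num) (by norm_num) (by norm_num) (by norm_num))
    (exp_neg_leJ (r := 0.312) 8 (by norm_num) (by norm_num) (by norm_num) (by norm_num))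
    (exp_neg_leJ (r := 0.99) 14 (by norm_num) (by norm_num) (by norm_num) (by norm_num))
    (exp_neg_leJ (r := 0.199) 6 (by norm_num) (by norm_num) (by norm_num) (by norm_num))
    (exp_neg_leJ (r := 0.99) 14 (by norm_num) (by norm_num) (by norm_num) (by norm_num))
    (exp_neg_leJ (r := 0.99) 14 (by norm_num) (by norm_num) (by norm_num) (by norm_num))
    (exp_neg_leJ (r := 0.99) 14 (by norm_num) (by norm_num) (by norm_num) (by norm_num))
    (by norm_num)) (by norm_num) hN hβ.le (by norm_num)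

private theorem T3_04_d0_2_b1_2 {β x y : ℝ} (hβ : 0 < β) (hN : β * 24.999 ≤ 1) (hx1 : 0.3281 ≤ x) (hx2 : x ≤ 0.5295)
    (hy1 : -0.483 ≤ y) (hy2 : y ≤ -0.338) : ‖HH β (x + y * I) - 1‖ ≤ 0.15 := by
  refine le_epsJ (C := 3.6919) (N0 := 24.999) (J_boxp 0.3281 0.5295 0.483 0 (-0.338) 0.5981 0.7168 0.8478 1.9907 0.3674 4.9999 24.999 1.1985 5.96 1.743 0.7706 0.299 0.1795 0.3581 2.2314 0.2505 0.9542 0.9139 3.4198 0.0005678 0.01126 0.0001299 0.0000003101 0.001908 0.0000003101 0.0000003101 0.0000003101 3.6919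
    hβ hN hx1 hx2 hy1 hy2 (by norm_num) (by norm_num) (by linarith) (by norm_num) (by norm_num) (by norm_num) (by norm_num) (by norm_num) (by norm_num) (by norm_num) (by norm_num) (by norm_num) (by norm_num) (by norm_num) (by norm_num) (by norm_num) (by norm_num) (by norm_num) (by norm_num) (by norm_num) (by norm_num) (by norm_num) (by norm_num) (by norm_num)
    (cube_sqrt_geJ (s := 0.7749) (by norm_num) (by norm_num) (by norm_num) (by norm_num))
    (cube_sqrt_geJ (s := 0.9237) (by norm_num) (by norm_num) (by norm_num) (by norm_num))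
    (by norm_num) (by norm_num) (by norm_num) (by norm_num) (by norm_num) (by norm_num) (by norm_num) (by norm_num) (by norm_num) (by norm_num) (by norm_num) (by norm_num) (by norm_num) (by norm_num) (by norm_num) (by norm_num) (by norm_num) (by norm_num)
    (exp_neg_leJ (r := 0.474) 7 (by norm_num) (by norm_num) (by norm_num) (by norm_num))
    (exp_neg_leJ (r := 0.487) 4 (by norm_num) (by norm_num) (by norm_num) (by norm_num))
    (exp_neg_leJ (r := 0.952) 8 (by norm_num) (by norm_num) (by norm_num) (by norm_num))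
    (exp_neg_leJ (r := 0.99) 14 (by norm_num) (by norm_num) (by norm_num) (by norm_num))
    (exp_neg_leJ (r := 0.262) 6 (by norm_num) (by norm_num) (by norm_num) (by norm_num))
    (exp_neg_leJ (r := 0.99) 14 (by norm_num) (by norm_num) (by norm_num) (by norm_num))
    (exp_neg_leJ (r := 0.99) 14 (by norm_num) (by norm_num) (by norm_num) (by norm_num))
    (exp_neg_leJ (r := 0.99) 14 (by norm_num) (by norm_num) (by norm_num) (by norm_num))
    (by norm_num)) (by norm_num) hN hβ.le (by norm_num)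

private theorem T3_04_d0_2_b1_3 {β x y : ℝ} (hβ : 0 < β) (hN : β * 24.999 ≤ 1) (hx1 : 0.3337 ≤ x) (hx2 : x ≤ 0.5346)
    (hy1 : -0.438 ≤ y) (hy2 : y ≤ -0.286) : ‖HH β (x + y * I) - 1‖ ≤ 0.15 := by
  refine le_epsJ (C := 2.5147) (N0 := 24.999) (J_boxp 0.3337 0.5346 0.438 0 (-0.286) 0.634 0.6912 0.892 1.8709 0.3768 4.9999 24.999 1.0903 4.86 1.652 0.8101 0.3169 0.2017 0.4311 2.378 0.2778 0.962 1.0474 3.5006 0.0003637 0.006461 0.00002091 0.0000003101 0.0009672 0.0000003101 0.0000003101 0.0000003101 2.5147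
    hβ hN hx1 hx2 hy1 hy2 (by norm_num) (by norm_num) (by linarith) (by norm_num) (by norm_num) (by norm_num) (by norm_num) (by norm_num) (by norm_num) (by norm_num) (by norm_num) (by norm_num) (by norm_num) (by norm_num) (by norm_num) (by norm_num) (by norm_num) (by norm_num) (by norm_num) (by norm_num) (by norm_num) (by norm_num) (by norm_num) (by norm_num)
    (cube_sqrt_geJ (s := 0.7978) (by norm_num) (by norm_num) (by norm_num) (by norm_num))
    (cube_sqrt_geJ (s := 0.9308) (by norm_num) (by norm_num) (by norm_num) (by norm_num))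
    (by norm_num) (by norm_num) (by norm_num) (by norm_num) (by norm_num) (by norm_num) (by norm_num) (by norm_num) (by norm_num) (by norm_num) (by norm_num) (by norm_num) (by norm_num) (by norm_num) (by norm_num) (by norm_num) (by norm_num) (by norm_num)
    (exp_neg_leJ (r := 0.922) 7 (by norm_num) (by norm_num) (by norm_num) (by norm_num))
    (exp_neg_leJ (r := 0.042) 5 (by norm_num) (by norm_num) (by norm_num) (by norm_num))
    (exp_neg_leJ (r := 0.777) 10 (by norm_num) (by norm_num) (by norm_num) (by norm_num))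
    (exp_neg_leJ (r := 0.99) 14 (by norm_num) (by norm_num) (by norm_num) (by norm_num))
    (exp_neg_leJ (r := 0.944) 6 (by norm_num) (by norm_num) (by norm_num) (by norm_num))
    (exp_neg_leJ (r := 0.99) 14 (by norm_num) (by norm_num) (by norm_num) (by norm_num))
    (exp_neg_leJ (r := 0.99) 14 (by norm_num) (by norm_num) (by norm_num) (by norm_num))
    (exp_neg_leJ (r := 0.99) 14 (by norm_num) (by norm_num) (by norm_num) (by norm_num))
    (by norm_num)) (by norm_num) hN hβ.le (by norm_num)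

private theorem T3_04_d0_2_c1 {κ t β : ℝ} (h : DomR κ t) (hβ : 0 < β) (hk1 : 0.39 ≤ κ) (hk2 : κ ≤ 0.4)
    (ht1 : -0.8504 ≤ t + κ) (ht2 : t + κ ≤ -0.71239) (hR0 : β * 10 ≤ κ) (hR : β * (1 * (1 + κ ^ 2)) ≤ κ) :
    ∀ s : ℂ, ‖s - sg κ t‖ ≤ 0.05 → ‖HH β s - 1‖ ≤ 0.15 := by
  have hN : β * 24.999 ≤ 1 := bNR hβ h.1 hk2 hR0 (by norm_num)
  have hy1 : -0.463 ≤ sy κ t := syL_ang2 h 0.39 0.4 0.8504 0.816 0.6851 0.7285 0.463 1.58883 0.62939 hk1 hk2 (by linarith) (by norm_num) (by norm_num) (by norm_num) (by norm_num)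
    (cos_ge_num (by norm_num) (by norm_num)) (sin_le_num (by norm_num) (by norm_num))
    (expn_ge (by norm_num) (by norm_num)) (expm_ge (by norm_num) (by norm_num) (by norm_num) (by norm_num)) (by norm_num) (by norm_num) (by norm_num)
    (by norm_num) (by norm_num) (by norm_num)
  have hy2 : sy κ t ≤ -0.336 := syL_le h 0.39 0.4 0.71239 0.336 0.71462 0.71463 0.60028 0.61569 hk1 hk2 (by linarith) (by norm_num) (by norm_num) (by norm_num)
    (expm_ge (by norm_num) (by norm_num) (by norm_num) (by norm_num)) (expm_le (by norm_num) (by norm_num) (by norm_num)) (by norm_num)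
    (by norm_num) (by norm_num) (by norm_num) (by norm_num) (by norm_num) (by norm_num)
  intro s hs
  have hs' : ‖s - ((sx κ t : ℂ) + (sy κ t : ℂ) * I)‖ ≤ 0.05 := hs
  obtain ⟨es, ⟨s1, s2⟩, ⟨s3, s4⟩⟩ := disc_split hs'
  rcases le_total (sy κ t) (-0.453) with f0 | g0
  · have hx1 : 0.4024 ≤ sx κ t := sx_lo h 0.39 (-0.453) 0.463 1.57302 0.4024 hk1 (by norm_num) f0 (abs_le.2 ⟨by linarith, by linarith⟩) (by rw [neg_neg]; exact expn_ge (by norm_num) (by norm_num)) (by norm_num) (by norm_num)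
    have hx2 : sx κ t ≤ 0.4458 := sx_hi h 0.4 (-0.463) 0.453 1.58884 0.4458 hk2 hy1 (by norm_num) (by rw [abs_of_nonpos (by linarith)]; linarith) (by rw [neg_neg]; exact expn_le (by norm_num) (by norm_num) (by norm_num)) (by norm_num) (by norm_num)
    rw [es]
    exact T3_04_d0_2_b1_0 hβ hN (by linarith) (by linarith) (by linarith) (by linarith)
  rcases le_total (sy κ t) (-0.433) with f1 | g1
  · have hx1 : 0.3954 ≤ sx κ t := sx_lo h 0.39 (-0.433) 0.453 1.54187 0.3954 hk1 (by norm_num) f1 (abs_le.2 ⟨by linarith, by linarith⟩) (by rw [neg_neg]; exact expn_ge (by norm_num) (by norm_num)) (by norm_num) (by norm_num)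
    have hx2 : sx κ t ≤ 0.4566 := sx_hi h 0.4 (-0.453) 0.433 1.57303 0.4566 hk2 g0 (by norm_num) (by rw [abs_of_nonpos (by linarith)]; linarith) (by rw [neg_neg]; exact expn_le (by norm_num) (by norm_num) (by norm_num)) (by norm_num) (by norm_num)
    rw [es]
    exact T3_04_d0_2_b1_1 hβ hN (by linarith) (by linarith) (by linarith) (by linarith)
  rcases le_total (sy κ t) (-0.388) with f2 | g2
  · have hx1 : 0.3781 ≤ sx κ t := sx_lo h 0.39 (-0.388) 0.433 1.47402 0.3781 hk1 (by norm_num) f2 (abs_le.2 ⟨by linarith, by linarith⟩) (by rw [neg_neg]; exact expn_ge (by norm_num) (by norm_num)) (by norm_num) (by norm_num)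
    have hx2 : sx κ t ≤ 0.4795 := sx_hi h 0.4 (-0.433) 0.388 1.54188 0.4795 hk2 g1 (by norm_num) (by rw [abs_of_nonpos (by linarith)]; linarith) (by rw [neg_neg]; exact expn_le (by norm_num) (by norm_num) (by norm_num)) (by norm_num) (by norm_num)
    rw [es]
    exact T3_04_d0_2_b1_2 hβ hN (by linarith) (by linarith) (by linarith) (by linarith)
  have hx1 : 0.3837 ≤ sx κ t := sx_lo h 0.39 (-0.336) 0.388 1.39933 0.3837 hk1 (by norm_num) hy2 (abs_le.2 ⟨by linarith, by linarith⟩) (by rw [neg_neg]; exact expn_ge (by norm_num) (by norm_num)) (by norm_num) (by norm_num)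
  have hx2 : sx κ t ≤ 0.4846 := sx_hi h 0.4 (-0.388) 0.336 1.47403 0.4846 hk2 g2 (by norm_num) (by rw [abs_of_nonpos (by linarith)]; linarith) (by rw [neg_neg]; exact expn_le (by norm_num) (by norm_num) (by norm_num)) (by norm_num) (by norm_num)
  rw [es]
  exact T3_04_d0_2_b1_3 hβ hN (by linarith) (by linarith) (by linarith) (by linarith)

theorem T3_04_d0_2 {κ t β : ℝ} (h : DomR κ t) (hβ : 0 < β) (hk1 : 0.38 ≤ κ) (hk2 : κ ≤ 0.4)
    (ht1 : -0.8504 ≤ t + κ) (ht2 : t + κ ≤ -0.71239) (hR0 : β * 10 ≤ κ) (hR : β * (1 * (1 + κ ^ 2)) ≤ κ) :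
    ∀ s : ℂ, ‖s - sg κ t‖ ≤ 0.05 → ‖HH β s - 1‖ ≤ 0.15 := by
  rcases le_total κ 0.39 with f0 | g0
  · exact T3_04_d0_2_c0 h hβ hk1 f0 ht1 ht2 hR0 hR
  exact T3_04_d0_2_c1 h hβ g0 hk2 ht1 ht2 hR0 hR

private theorem T3_04_d1_2_b0_0 {β x y : ℝ} (hβ : 0 < β) (hN : β * 24.999 ≤ 1) (hn : ‖(x + y * I : ℂ)‖ ≤ 0.395) : ‖HH β (x + y * I) - 1‖ ≤ 0.06 := by
  refine le_epsJ (C := 1.258) (N0 := 24.999) (J45_genN (N := 24.999) (r0 := 4.9999) (f := 2.435) (n0 := 0.395) (a := 0.605) (wL := 1.866) (wR := 2.339)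
    (E1 := 0.0143) (E2 := 0.00001024) (E3 := 0.04949) (E4 := 0.0001391) (E5 := 0.0000003101) hβ (by norm_num) hN
    (by norm_num) (by norm_num) (by norm_num) hn (by norm_num) (by norm_num) (by norm_num)
    (cube_sqrt_geJ (s := 0.9147) (by norm_num) (by norm_num) (by norm_num) (by norm_num))
    (cube_sqrt_geJ (s := 0.8857) (by norm_num) (by norm_num) (by norm_num) (by norm_num))
    (exp_neg_leJ (r := 0.248) 4 (by norm_num) (by norm_num) (by norm_num) (by norm_num))
    (exp_neg_leJ (r := 0.49) 11 (by norm_num) (by norm_num) (by norm_num) (by norm_num))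
    (exp_neg_leJ (r := 0.006) 3 (by norm_num) (by norm_num) (by norm_num) (by norm_num))
    (exp_neg_leJ (r := 0.883) 8 (by norm_num) (by norm_num) (by norm_num) (by norm_num))
    (exp_neg_leJ (r := 0.99) 14 (by norm_num) (by norm_num) (by norm_num) (by norm_num))
    (by norm_num)) (by norm_num) hN hβ.le (by norm_num)

private theorem T3_04_d1_2_c0 {κ t β : ℝ} (h : DomR κ t) (hβ : 0 < β) (hk1 : 0.38 ≤ κ) (hk2 : κ ≤ 0.4)
    (ht1 : 1.244 ≤ t + κ) (ht2 : t + κ ≤ 1.382) (hR0 : β * 10 ≤ κ) (hR : β * (1 * (1 + κ ^ 2)) ≤ κ) :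
    ∀ s : ℂ, ‖s - sg κ t‖ ≤ 0.08 → ‖HH β s - 1‖ ≤ 0.06 := by
  have hN : β * 24.999 ≤ 1 := bNR hβ h.1 hk2 hR0 (by norm_num)
  have hy1 : 0.239 ≤ sy κ t := syR_ge h 0.38 0.4 1.244 0.239 1.26997 1.26998 0.7588 0.79876 hk1 hk2 (by linarith) (by norm_num) (by norm_num)
    (expn_ge (by norm_num) (by norm_num)) (expn_le (by norm_num) (by norm_num) (by norm_num)) (by norm_num)
    (by norm_num) (by norm_num) (by norm_num) (by norm_num) (by norm_num) (by norm_num)
  have hy2 : sy κ t ≤ 0.275 := syR_ang2 h 0.38 0.4 1.382 1.13 0.4295 0.9049 0.275 0.75958 1.31653 hk1 hk2 (by linarith) (by norm_num) (by norm_num) (by norm_num)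
    (cos_le_num (by norm_num)) (sin_le_num (by norm_num) (by norm_num)) (expm_le (by norm_num) (by norm_num) (by norm_num))
    (expn_ge (by norm_num) (by norm_num)) (by norm_num) (by norm_num) (by norm_num) (by norm_num) (by norm_num)
  intro s hs
  have hs' : ‖s - ((sx κ t : ℂ) + (sy κ t : ℂ) * I)‖ ≤ 0.08 := hs
  obtain ⟨es, ⟨s1, s2⟩, ⟨s3, s4⟩⟩ := disc_split hs'
  rw [es]
  refine T3_04_d1_2_b0_0 hβ hN ?_
  rw [← es]
  exact disc_norm hs' (norm_sg_le h 0.4 0.239 0.78742 (0.395 - 0.08) hk2 hy1 (expm_le (by norm_num) (by norm_num) (by norm_num)) (by norm_num))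

theorem T3_04_d1_2 {κ t β : ℝ} (h : DomR κ t) (hβ : 0 < β) (hk1 : 0.38 ≤ κ) (hk2 : κ ≤ 0.4)
    (ht1 : 1.244 ≤ t + κ) (ht2 : t + κ ≤ 1.382) (hR0 : β * 10 ≤ κ) (hR : β * (1 * (1 + κ ^ 2)) ≤ κ) :
    ∀ s : ℂ, ‖s - sg κ t‖ ≤ 0.08 → ‖HH β s - 1‖ ≤ 0.06 := by
  exact T3_04_d1_2_c0 h hβ hk1 hk2 ht1 ht2 hR0 hR

end Sok
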