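import Pool.Agent.Lib.MP_816dec_an.R1b3D
import Pool.Agent.Lib.MP_816dec_an.R1b3J04

/-!
MP_816dec_an (A3, row R1, b = 3): the cell `0.38 ≤ κ ≤ 0.4`.
-/

set_option autoImplicit false
set_option maxHeartbeats 4000000
set_option linter.unusedVariables false

open Complex Set

namespace Sok

namespace B3_04

private theorem yL {κ t : ℝ} (h : DomR κ t) (hk1 : 0.38 ≤ κ) (hk2 : κ ≤ 0.4) (ht1 : 0 ≤ t + κ) (ht2 : t + κ ≤ 1.135) :
    0 ≤ sy κ t ∧ sy κ t ≤ 0.251 := by
  have hy1 : 0 ≤ sy κ t := sy_nonneg h (by linarith)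
  have hy2 : sy κ t ≤ 0.251 := syR_ang2 h 0.38 0.4 1.135 0.937 0.5932 0.806 0.251 0.77803 1.28531 hk1 hk2 (by linarith) (by norm_num) (by norm_num) (by norm_num)
    (cos_le_num (by norm_num)) (sin_le_num (by norm_num) (by norm_num)) (expm_le (by norm_num) (by norm_num) (by norm_num))
    (expn_ge (by norm_num) (by norm_num)) (by norm_num) (by norm_num) (by norm_num) (by norm_num) (by norm_num)
  exact ⟨hy1, hy2⟩

theorem left {β r h t κ : ℝ} (hh : h = 2 * Real.pi / (3 : ℕ)) (hβ : 0 < β) (hr : 10 ≤ r) (hκ : κ = β * r)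
    (hk1 : 0.38 ≤ κ) (hk2 : κ ≤ 0.4) (hT1 : 0 ≤ t + κ) (hT2 : t + κ ≤ 1.135) :
    ‖Xf β r h t (-1)‖ < |‖Xf β r h t 1‖ - ‖Xf β r h t 0‖| := by
  obtain ⟨q1, q2, q3⟩ := b3_h hh
  have hR0 := b3_R0 hβ hr hκ
  have hR := b3_R hβ hr hκ (by linarith)
  have hD1 : DomR κ t := b3_dom (by linarith) (by linarith) (Or.inl (by linarith))
  have hy := yL hD1 hk1 hk2 (by linarith) (by linarith)
  have hY : 0.8759 * Real.exp (r * 0.58077) ≤ ‖Xf β r h t 1‖ :=
    b3_lo hβ hr hκ (k := 1) (t' := t) (by push_cast; ring) hD1 0.015 1.5989 0.8759 0.58077 (by norm_num)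
      (T3_04_p1 hD1 hβ hk1 hk2 (by linarith) (by linarith) hR0 hR)
      (v5_Dup hD1 0.4 0 0.251 1 0.77803 1.5989 hk2 hy.1 hy.2 (ex_up 0 (by norm_num) (by norm_num) (by norm_num) (by norm_num)) (ex_um 0.251 (by norm_num) (by norm_num) (by norm_num) (by norm_num)) (by norm_num) (by norm_num) (by norm_num)) (by norm_num) (by norm_num)
      (b3_Vlo hD1 0.38 0.4 0 1.135 0.47 (-0.75502) 0.9336 0.59493 0.51932 0.58077 hk1 hk2 (by linarith) (by linarith) (by norm_num) (ex_lm 0.75502 (by norm_num) (by norm_num) (by norm_num) (by norm_num) (by norm_num)) (by norm_num) (by norm_num) (by norm_num) (by norm_num) (by norm_num) (by norm_num) (by norm_num) (by norm_num) (ex_um 0.51932 (by norm_num) (by norm_num) (by norm_num) (by norm_num)) (by norm_num))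
  have h0 : ‖Xf β r h t 0‖ ≤ 0.896 * ‖Xf β r h t 1‖ :=
    b3_cmp 0.3125 0.11633 0.07451 0.26002 0.697925 0.198044 0.896 hr (b3_HU0 1.17 0.38 0.4 (-2.0944) (-0.95939) 1.58692 1.55987 1.5968 0.64109 0.62626 1.55986 1.9562 0.07979 1.24134 2.2176 0.23141 0.32075 0.000001 2.3281 0.46444 hβ hr hκ (by norm_num) hk1 hk2 (by norm_num) (by linarith) (by linarith) (by norm_num) (by norm_num) (ex_up 0.4446 (by norm_num) (by norm_num) (by norm_num) (by norm_num)) (ex_up 0.468 (by norm_num) (by norm_num) (by norm_num) (by norm_num)) (ex_um 0.4446 (by norm_num) (by norm_num) (by norm_num) (by norm_num)) (ex_um 0.468 (by norm_num) (by norm_num) (by norm_num) (by norm_num)) (by norm_num) (by norm_num) (ex_lp 0.4446 (by norm_num) (by norm_num) (by norm_num)) (by norm_num) (by norm_num) (by norm_num) (by norm_num) (by norm_num) (by norm_num) (by norm_num) (by norm_num) (by norm_num) (by norm_num) (by norm_num) (by norm_num) (by norm_num) (by norm_num) (v5_hump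 5.984 25 5.0001 0.0000003148 0.000001 hβ hr hκ hk1 hk2 (by norm_num) (tb := (-0.95939)) (by linarith) (by norm_num) (by norm_num) (by norm_num) (by norm_num) (by norm_num) (by norm_num) (by norm_num) (ex_un 14 0.99 (by norm_num) (by norm_num) (by norm_num) (by norm_num)) (by norm_num)) (by norm_num) (by norm_num)) hY (by norm_num) (by norm_num) (by norm_num) (by norm_num) (by norm_num) (ex_un 1 0.1633 (by norm_num) (by norm_num) (by norm_num) (by norm_num)) (by norm_num) (by norm_num) (by norm_num) (ex_un 2 0.6002 (by norm_num) (by norm_num) (by norm_num) (by norm_num)) (by norm_num) (by norm_num)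
  have h2 : ‖Xf β r h t (-1)‖ ≤ 0.008 * ‖Xf β r h t 1‖ := by
    exact b3_cmp 1 0 0.004955 0.53077 0 0.007989 0.008 hr ((b3_Xm hh).trans_le (b3_U1 0.38 0.4 2.09439 3.2294 0.12359 0.07979 1.24134 0.1227 0.23896 1.4473 0.000001 1.4121 hβ hr hκ (by norm_num) hk1 hk2 (by linarith) (by linarith) (by norm_num) (by norm_num) (by norm_num) (by norm_num) (by norm_num) (by norm_num) (by norm_num) (by norm_num) (by norm_num) (by norm_num) (by norm_num) (by norm_num) (by norm_num) (ex_un 1 0.227 (by norm_num) (by norm_num) (by norm_num) (by norm_num)) (v5_hump 1.7952 25 5.0001 0.0000003148 0.000001 hβ hr hκ hk1 hk2 (by norm_num) (tb := 3.2294) (by linarith) (by norm_num) (by norm_num) (by norm_num) (by norm_num) (by norm_num) (by norm_num) (by norm_num) (ex_un 14 0.99 (by norm_num) (by norm_num) (by norm_num) (by norm_num)) (by norm_num)) (by norm_num))) hY (by norm_num) (by norm_num) (by norm_num) (by norm_num) (by norm_num) (by norm_num) (by norm_num) (by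 norm_num) (by norm_num) (ex_un 5 0.3077 (by norm_num) (by norm_num) (by norm_num) (by norm_num)) (by norm_num) (by norm_num)
  exact b3_out1 0.896 0.008 hY (by norm_num) h0 h2 (by norm_num)

private theorem yM1 {κ t : ℝ} (h : DomR κ t) (hk1 : 0.38 ≤ κ) (hk2 : κ ≤ 0.4) (ht1 : 0 ≤ t + κ) (ht2 : t + κ ≤ 1.144) :
    0 ≤ sy κ t ∧ sy κ t ≤ 0.252 := by
  have hy1 : 0 ≤ sy κ t := sy_nonneg h (by linarith)
  have hy2 : sy κ t ≤ 0.252 := syR_ang2 h 0.38 0.4 1.144 0.944 0.5876 0.8101 0.252 0.77725 1.28659 hk1 hk2 (by linarith) (by norm_num) (by norm_num) (by norm_num)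
    (cos_le_num (by norm_num)) (sin_le_num (by norm_num) (by norm_num)) (expm_le (by norm_num) (by norm_num) (by norm_num))
    (expn_ge (by norm_num) (by norm_num)) (by norm_num) (by norm_num) (by norm_num) (by norm_num) (by norm_num)
  exact ⟨hy1, hy2⟩

private theorem yM0 {κ t : ℝ} (h : DomR κ t) (hk1 : 0.38 ≤ κ) (hk2 : κ ≤ 0.4) (ht1 : -0.9594 ≤ t + κ) (ht2 : t + κ ≤ -0.95039) :
    (-0.576) ≤ sy κ t ∧ sy κ t ≤ (-0.497) := by
  have hy1 : -0.576 ≤ sy κ t := syL_ang2 h 0.38 0.4 0.9594 0.942 0.5881 0.8089 0.576 1.7789 0.56214 hk1 hk2 (by linarith) (by norm_num) (by norm_num) (by norm_num) (by norm_num)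
    (cos_ge_num (by norm_num) (by norm_num)) (sin_le_num (by norm_num) (by norm_num))
    (expn_ge (by norm_num) (by norm_num)) (expm_ge (by norm_num) (by norm_num) (by norm_num) (by norm_num)) (by norm_num) (by norm_num) (by norm_num)
    (by norm_num) (by norm_num) (by norm_num)
  have hy2 : sy κ t ≤ -0.497 := syL_le h 0.38 0.4 0.95039 0.497 0.60835 0.60836 0.75587 0.79568 hk1 hk2 (by linarith) (by norm_num) (by norm_num) (by norm_num)
    (expm_ge (by norm_num) (by norm_num) (by norm_num) (by norm_num)) (expm_le (by norm_num) (by norm_num) (by norm_num)) (by norm_num)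
    (by norm_num) (by norm_num) (by norm_num) (by norm_num) (by norm_num) (by norm_num)
  exact ⟨hy1, hy2⟩

theorem middle {β r h t κ : ℝ} (hh : h = 2 * Real.pi / (3 : ℕ)) (hβ : 0 < β) (hr : 10 ≤ r) (hκ : κ = β * r)
    (hk1 : 0.38 ≤ κ) (hk2 : κ ≤ 0.4) (hT1 : 1.135 ≤ t + κ) (hT2 : t + κ ≤ 1.144) :
    ‖Xf β r h t (-1)‖ < |‖Xf β r h t 1‖ - ‖Xf β r h t 0‖| := by
  obtain ⟨q1, q2, q3⟩ := b3_h hh
  have hR0 := b3_R0 hβ hr hκ
  have hR := b3_R hβ hr hκ (by linarith)
  have hD1 : DomR κ t := b3_dom (by linarith) (by linarith) (Or.inl (by linarith))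
  have hD0 : DomR κ (t - h) := b3_dom (by linarith) (by linarith) (Or.inl (by linarith))
  have hy := yM1 hD1 hk1 hk2 (by linarith) (by linarith)
  have hy0 := yM0 hD0 hk1 hk2 (by linarith) (by linarith)
  have hY : 0.8757 * Real.exp (r * 0.57505) ≤ ‖Xf β r h t 1‖ :=
    b3_lo hβ hr hκ (k := 1) (t' := t) (by push_cast; ring) hD1 0.015 1.6007 0.8757 0.57505 (by norm_num)
      (T3_04_p1 hD1 hβ hk1 hk2 (by linarith) (by linarith) hR0 hR)
      (v5_Dup hD1 0.4 0 0.252 1 0.77725 1.6007 hk2 hy.1 hy.2 (ex_up 0 (by norm_num) (by norm_num) (by norm_num) (by norm_num)) (ex_um 0.252 (by norm_num) (by norm_num) (by norm_num) (by norm_num)) (by norm_num) (by norm_num) (by norm_num)) (by norm_num) (by norm_num)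
      (b3_Vlo hD1 0.38 0.4 0 1.144 0.46 (-0.77652) 0.9388 0.59074 0.52639 0.57505 hk1 hk2 (by linarith) (by linarith) (by norm_num) (ex_lm 0.77652 (by norm_num) (by norm_num) (by norm_num) (by norm_num) (by norm_num)) (by norm_num) (by norm_num) (by norm_num) (by norm_num) (by norm_num) (by norm_num) (by norm_num) (by norm_num) (ex_um 0.52639 (by norm_num) (by norm_num) (by norm_num) (by norm_num)) (by norm_num))
  have hU : ‖Xf β r h t 0‖ ≤ 1.5764 * Real.exp (r * 0.47841) :=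
    b3_up hβ hr hκ (k := 0) (t' := t - h) (by push_cast; ring) hD0 0.17 0.3035 1.5764 0.47841
      (T3_04_p0m hD0 hβ hk1 hk2 (by linarith) (by linarith) hR0 hR) (v5_Dlo hD0 0.38 (-0.576) (-0.497) (-0.536) 1.70915 0.3035 (by norm_num) hk1 hy0.1 hy0.2 (ex_lp 0.536 (by norm_num) (by norm_num) (by norm_num)) (by norm_num) (by norm_num) (by norm_num) (by norm_num)) (by norm_num) (by norm_num)
      (b3_VH hD0 1.09 0.38 0.4 1.51433 1.51316 1.54651 0.66087 0.64662 (-0.95039) 0.47841 (by norm_num) hk1 hk2 (by norm_num) (ex_up 0.4142 (by norm_num) (by norm_num) (by norm_num) (by norm_num)) (ex_up 0.436 (by norm_num) (by norm_num) (by norm_num) (by norm_num)) (ex_um 0.4142 (by norm_num) (by norm_num) (by norm_num) (by norm_num)) (ex_um 0.436 (by norm_num) (by norm_num) (by norm_num) (by norm_num)) (by norm_num) (by norm_num) (by norm_num) (by linarith) (by norm_num))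
  have h0 : ‖Xf β r h t 0‖ ≤ 0.6969 * ‖Xf β r h t 1‖ :=
    b3_cmp 1 0 0.3871 0.09664 0 0.696842 0.6969 hr (b3_w hU) hY (by norm_num) (by norm_num) (by norm_num) (by norm_num) (by norm_num) (by norm_num) (by norm_num) (by norm_num) (by norm_num) (ex_un 0 0.9664 (by norm_num) (by norm_num) (by norm_num) (by norm_num)) (by norm_num) (by norm_num)
  have h2 : ‖Xf β r h t (-1)‖ ≤ 0.0032 * ‖Xf β r h t 1‖ := by
    exact b3_cmp 1 0 0.005246 0.52505 0 0.003195 0.0032 hr ((b3_Xm hh).trans_le (b3_U1 0.38 0.4 3.22939 3.2384 1.25859 0.07979 1.24134 0.9516 0.00001 0.3123 0.000001 0.5332 hβ hr hκ (by norm_num) hk1 hk2 (by linarith) (by linarith) (by norm_num) (by norm_num) (by norm_num) (by norm_num) (by norm_num) (by norm_num) (by norm_num) (by norm_num) (by norm_num) (by norm_num) (by norm_num) (by norm_num) (by norm_num) (ex_un 9 0.516 (by norm_num) (by norm_num) (by norm_num) (by norm_num)) (v5_hump 1.7862 25 5.0001 0.0000003148 0.000001 hβ hr hκ hk1 hk2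 (by norm_num) (tb := 3.2384) (by linarith) (by norm_num) (by norm_num) (by norm_num) (by norm_num) (by norm_num) (by norm_num) (by norm_num) (ex_un 14 0.99 (by norm_num) (by norm_num) (by norm_num) (by norm_num)) (by norm_num)) (by norm_num))) hY (by norm_num) (by norm_num) (by norm_num) (by norm_num) (by norm_num) (by norm_num) (by norm_num) (by norm_num) (by norm_num) (ex_un 5 0.2505 (by norm_num) (by norm_num) (by norm_num) (by norm_num)) (by norm_num) (by norm_num)
  exact b3_out1 0.6969 0.0032 hY (by norm_num) h0 h2 (by norm_num)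

private theorem yR0 {κ t : ℝ} (h : DomR κ t) (hk1 : 0.38 ≤ κ) (hk2 : κ ≤ 0.4) (ht1 : -0.7124 ≤ t + κ) (ht2 : t + κ ≤ 0.0001) :
    (-0.353) ≤ sy κ t ∧ sy κ t ≤ 0.005 := by
  have hy1 : -0.353 ≤ sy κ t := syL_ang2 h 0.38 0.4 0.7124 0.668 0.785 0.6195 0.353 1.42333 0.70257 hk1 hk2 (by linarith) (by norm_num) (by norm_num) (by norm_num) (by norm_num)
    (cos_ge_num (by norm_num) (by norm_num)) (sin_le_num (by norm_num) (by norm_num))
    (expn_ge (by norm_num) (by norm_num)) (expm_ge (by norm_num) (by norm_num) (by norm_num) (by norm_num)) (by norm_num) (by norm_num) (by norm_num)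
    (by norm_num) (by norm_num) (by norm_num)
  have hy2 : sy κ t ≤ 0.005 := syR_le h 0.38 0.4 0.0001 0.005 1.00501 0.0123 0.01256 0.01323 hk1 hk2 (by linarith) (by norm_num) (by norm_num)
    (expn_ge (by norm_num) (by norm_num)) (by norm_num) (by norm_num) (Or.inr ((mul_le_mul_of_nonneg_left (expn_le (E := 1.00502) (by norm_num) (by norm_num) (by norm_num)) (by norm_num)).trans (by norm_num))) (by norm_num) (by norm_num) (by norm_num)
  exact ⟨hy1, hy2⟩

theorem right0 {β r h t κ : ℝ} (hh : h = 2 * Real.pi / (3 : ℕ)) (hβ : 0 < β) (hr : 10 ≤ r) (hκ : κ = β * r)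
    (hk1 : 0.38 ≤ κ) (hk2 : κ ≤ 0.4) (hT1 : 1.382 ≤ t + κ) (hT2 : t + κ ≤ h) :
    ‖Xf β r h t (-1)‖ < |‖Xf β r h t 1‖ - ‖Xf β r h t 0‖| := by
  obtain ⟨q1, q2, q3⟩ := b3_h hh
  have hR0 := b3_R0 hβ hr hκ
  have hR := b3_R hβ hr hκ (by linarith)
  have hD0 : DomR κ (t - h) := b3_dom (by linarith) (by linarith) (Or.inl (by linarith))
  have hy := yR0 hD0 hk1 hk2 (by linarith) (by linarith)
  have hY : 0.9233 * Real.exp (r * 0.72342) ≤ ‖Xf β r h t 0‖ :=
    b3_lo hβ hr hκ (k := 0) (t' := t - h) (by push_cast; ring) hD0 0.04 1.1685 0.9233 0.72342 (by norm_num)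
      (T3_04_p0R hD0 hβ hk1 hk2 (by linarith) (by linarith) hR0 hR)
      (v5_Dup hD0 0.4 (-0.353) 0.005 1.42334 0.99502 1.1685 hk2 hy.1 hy.2 (ex_up 0.353 (by norm_num) (by norm_num) (by norm_num) (by norm_num)) (ex_um 0.005 (by norm_num) (by norm_num) (by norm_num) (by norm_num)) (by norm_num) (by norm_num) (by norm_num)) (by norm_num) (by norm_num)
      (b3_Vlo hD0 0.38 0.4 (-0.7124) 0.0001 1.09 0.08618 0.6782 0.7787 0.25013 0.72342 hk1 hk2 (by linarith) (by linarith) (by norm_num) (ex_lp 0.08618 (by norm_num) (by norm_num) (by norm_num)) (by norm_num) (by norm_num) (by norm_num) (by norm_num) (by norm_num) (by norm_num) (by norm_num) (by norm_num) (ex_um 0.25013 (by norm_num) (by norm_num) (by norm_num) (by norm_num)) (by norm_num))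
  have h1 : ‖Xf β r h t 1‖ ≤ 0.1961 * ‖Xf β r h t 0‖ := by
    rcases le_total (t + κ) 1.75 with g0 | g0
    · exact b3_cmp 0.0588 0.28446 0.0007216 0.72342 0.195996 0.000087 0.1961 hr (b3_X1.trans_le (b3_HF 0.62 0.38 0.4 1.382 1.75 1.2958 0.7901 0.78036 1.26567 1.28146 0.78035 2.8863 0.07979 2.5527 0.2007 0.0739 0.481 0.000001 3.0776 0.1111 0.43896 hβ hr hκ (by norm_num) hk1 hk2 (by norm_num) (by linarith) (by linarith) (by norm_num) (ex_um 0.2356 (by norm_num) (by norm_num) (by norm_num) (by norm_num)) (ex_um 0.248 (by norm_num) (by norm_num) (by norm_num) (by norm_num)) (ex_up 0.2356 (by norm_num) (by norm_num) (by norm_num) (by norm_num)) (ex_up 0.248 (by norm_num) (by norm_num) (by norm_num) (by norm_num)) (by norm_num) (by norm_num) (ex_lm 0.248 (by norm_num) (by norm_num) (by norm_num) (by norm_num) (by norm_num)) (by norm_num) (by norm_num) (by norm_num) (by norm_num) (by norm_num) (by norm_num) (by norm_num) (by norm_num) (by norm_num)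 (by norm_num) (by norm_num) (by norm_num) (ex_un 0 0.739 (by norm_num) (by norm_num) (by norm_num) (by norm_num)) (v5_hump 3.2746 25 5.0001 0.0000003148 0.000001 hβ hr hκ hk1 hk2 (by norm_num) (tb := 1.75) (by linarith) (by norm_num) (by norm_num) (by norm_num) (by norm_num) (by norm_num) (by norm_num) (by norm_num) (ex_un 14 0.99 (by norm_num) (by norm_num) (by norm_num) (by norm_num)) (by norm_num)) (by norm_num) (by norm_num) (by norm_num))) hY (by norm_num) (by norm_num) (by norm_num) (by norm_num) (by norm_num) (ex_un 2 0.8446 (by norm_num) (by norm_num) (by norm_num) (by norm_num)) (by norm_num) (by norm_num) (by norm_num) (ex_un 7 0.2342 (by norm_num) (by norm_num) (by norm_num) (by norm_num)) (by norm_num) (by norm_num)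
    exact b3_cmp 1 0 0.0145 0.42342 0 0.078255 0.1961 hr (b3_w (b3_UD1 0.38 0.4 1.75 2.0944 0.25 0.64718 0.25 2.5978 4.9829 0.3 hβ hr hκ (by norm_num) hk1 hk2 (by linarith) (by linarith) (by norm_num) (by norm_num) (by norm_num) (by norm_num) (by norm_num) (by norm_num) (by norm_num) (by norm_num) (by norm_num) (by norm_num) (by norm_num) (by norm_num) (by norm_num))) hY (by norm_num) (by norm_num) (by norm_num) (by norm_num) (by norm_num) (by norm_num) (by norm_num) (by norm_num) (by norm_num) (ex_un 4 0.2342 (by norm_num) (by norm_num) (by norm_num) (by norm_num)) (by norm_num) (by norm_num)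
  have h2 : ‖Xf β r h t (-1)‖ ≤ 0.0007 * ‖Xf β r h t 0‖ := by
    exact b3_cmp 1 0 0.001198 0.67342 0 0.000679 0.0007 hr ((b3_Xm hh).trans_le (b3_U1 0.38 0.4 3.47639 4.1888 1.50559 0.07979 1.24134 0.7854 0.00005 0.6673 0.000001 0.5229 hβ hr hκ (by norm_num) hk1 hk2 (by linarith) (by linarith) (by norm_num) (by norm_num) (by norm_num) (by norm_num) (by norm_num) (by norm_num) (by norm_num) (by norm_num) (by norm_num) (by norm_num) (by norm_num) (by norm_num) (by norm_num) (ex_un 7 0.854 (by norm_num) (by norm_num) (by norm_num) (by norm_num)) (v5_hump 0.8358 25 5.0001 0.0000003148 0.000001 hβ hr hκ hk1 hk2 (by norm_num) (tb := 4.1888) (by linarith) (by norm_num) (by norm_num) (by norm_num) (by norm_num) (by norm_num) (by norm_num) (by norm_num) (ex_un 14 0.99 (by norm_num) (by norm_num) (by norm_num) (by norm_num)) (by norm_num)) (by norm_num))) hY (by norm_num) (by norm_num) (by norm_num) (by norm_num) (by norm_num) (by norm_num) (by norm_num)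 (by norm_num) (by norm_num) (ex_un 6 0.7342 (by norm_num) (by norm_num) (by norm_num) (by norm_num)) (by norm_num) (by norm_num)
  exact b3_out0 0.1961 0.0007 hY (by norm_num) h1 h2 (by norm_num)

private theorem yI {κ t : ℝ} (h : DomR κ t) (hk1 : 0.38 ≤ κ) (hk2 : κ ≤ 0.4) (ht1 : -0.9504 ≤ t + κ) (ht2 : t + κ ≤ -0.71239) :
    (-0.566) ≤ sy κ t ∧ sy κ t ≤ (-0.327) := by
  have hy1 : -0.566 ≤ sy κ t := syL_ang2 h 0.38 0.4 0.9504 0.932 0.5962 0.803 0.566 1.7612 0.56779 hk1 hk2 (by linarith) (by norm_num) (by norm_num) (by norm_num) (by norm_num)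
    (cos_ge_num (by norm_num) (by norm_num)) (sin_le_num (by norm_num) (by norm_num))
    (expn_ge (by norm_num) (by norm_num)) (expm_ge (by norm_num) (by norm_num) (by norm_num) (by norm_num)) (by norm_num) (by norm_num) (by norm_num)
    (by norm_num) (by norm_num) (by norm_num)
  have hy2 : sy κ t ≤ -0.327 := syL_le h 0.38 0.4 0.71239 0.327 0.72108 0.72109 0.58948 0.62052 hk1 hk2 (by linarith) (by norm_num) (by norm_num) (by norm_num)
    (expm_ge (by norm_num) (by norm_num) (by norm_num) (by norm_num)) (expm_le (by norm_num) (by norm_num) (by norm_num)) (by norm_num)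
    (by norm_num) (by norm_num) (by norm_num) (by norm_num) (by norm_num) (by norm_num)
  exact ⟨hy1, hy2⟩

theorem innE {β r h t κ : ℝ} (hh : h = 2 * Real.pi / (3 : ℕ)) (hβ : 0 < β) (hr : 10 ≤ r) (hκ : κ = β * r)
    (hk1 : 0.38 ≤ κ) (hk2 : κ ≤ 0.4) (hT1 : 1.144 ≤ t + κ) (hT2 : t + κ ≤ 1.382) :
    ‖Xf β r h t (-1)‖ ≤ 0.00964 * ‖Xf β r h t 0‖ ∧ ‖Xf β r h (t + β) (-1)‖ ≤ 0.00964 * ‖Xf β r h t 0‖ := by
  obtain ⟨q1, q2, q3⟩ := b3_h hh
  have hR0 := b3_R0 hβ hr hκ
  have hR := b3_R hβ hr hκ (by linarith)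
  have hD0 : DomR κ (t - h) := b3_dom (by linarith) (by linarith) (Or.inl (by linarith))
  have hy := yI hD0 hk1 hk2 (by linarith) (by linarith)
  have hY : 0.9397 * Real.exp (r * 0.45756) ≤ ‖Xf β r h t 0‖ :=
    b3_lo hβ hr hκ (k := 0) (t' := t - h) (by push_cast; ring) hD0 0.155 0.6538 0.9397 0.45756 (by norm_num)
      (T3_04_p0 hD0 hβ hk1 hk2 (by linarith) (by linarith) hR0 hR)
      (v5_Dup hD0 0.4 (-0.566) (-0.327) 1.76121 1.38681 0.6538 hk2 hy.1 hy.2 (ex_up 0.566 (by norm_num) (by norm_num) (by norm_num) (by norm_num)) (ex_up 0.327 (by norm_num) (by norm_num) (by norm_num) (by norm_num)) (by norm_num) (by norm_num) (by norm_num)) (by norm_num) (by norm_num)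
      (b3_Vlo hD0 0.38 0.4 (-0.9504) (-0.71239) 1 0.00001 0.9504 0.58134 0.54243 0.45756 hk1 hk2 (by linarith) (by linarith) (by norm_num) (ex_lp 0.00001 (by norm_num) (by norm_num) (by norm_num)) (by norm_num) (by norm_num) (by norm_num) (by norm_num) (by norm_num) (by norm_num) (by norm_num) (by norm_num) (ex_um 0.54243 (by norm_num) (by norm_num) (by norm_num) (by norm_num)) (by norm_num))
  constructor
  · exact b3_cmp 1 0 0.01699 0.40756 0 0.009634 0.00964 hr ((b3_Xm hh).trans_le (b3_U1 0.38 0.4 3.23839 3.4764 1.26759 0.07979 1.24134 0.9543 0.00001 0.3033 0.000001 0.5328 hβ hr hκ (by norm_num) hk1 hk2 (by linarith) (by linarith) (by norm_num) (by norm_num) (by norm_num) (by norm_num) (by norm_num) (by norm_num) (by norm_num) (by norm_num) (by norm_num) (by norm_num) (by norm_num) (by norm_num) (by norm_num) (ex_un 9 0.543 (by norm_num) (by norm_num) (by norm_num) (by norm_num)) (v5_hump 1.5482 25 5.0001 0.0000003148 0.000001 hβ hr hκ hk1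 hk2 (by norm_num) (tb := 3.4764) (by linarith) (by norm_num) (by norm_num) (by norm_num) (by norm_num) (by norm_num) (by norm_num) (by norm_num) (ex_un 14 0.99 (by norm_num) (by norm_num) (by norm_num) (by norm_num)) (by norm_num)) (by norm_num))) hY (by norm_num) (by norm_num) (by norm_num) (by norm_num) (by norm_num) (by norm_num) (by norm_num) (by norm_num) (by norm_num) (ex_un 4 0.0756 (by norm_num) (by norm_num) (by norm_num) (by norm_num)) (by norm_num) (by norm_num)
  · exact b3_cmp 1 0 0.01699 0.40756 0 0.009634 0.00964 hr ((b3_Xm hh).trans_le (b3_U1 0.38 0.4 3.23839 3.5164 1.26759 0.07979 1.24134 0.9543 0.00001 0.3033 0.000001 0.5328 hβ hr hκ (by norm_num) hk1 hk2 (by linarith) (by linarith) (by norm_num) (by norm_num) (by norm_num) (by norm_num) (by norm_num) (by norm_num) (by norm_num) (by norm_num) (by norm_num) (by norm_num) (by norm_num) (by norm_num) (by norm_num) (ex_un 9 0.543 (by norm_num) (by norm_num) (by norm_num) (by norm_num))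 (v5_hump 1.5082 25 5.0001 0.0000003148 0.000001 hβ hr hκ hk1 hk2 (by norm_num) (tb := 3.5164) (by linarith) (by norm_num) (by norm_num) (by norm_num) (by norm_num) (by norm_num) (by norm_num) (by norm_num) (ex_un 14 0.99 (by norm_num) (by norm_num) (by norm_num) (by norm_num)) (by norm_num)) (by norm_num))) hY (by norm_num) (by norm_num) (by norm_num) (by norm_num) (by norm_num) (by norm_num) (by norm_num) (by norm_num) (by norm_num) (ex_un 4 0.0756 (by norm_num) (by norm_num) (by norm_num) (by norm_num)) (by norm_num) (by norm_num)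

private theorem yA0 {κ t : ℝ} (h : DomR κ t) (hk1 : 0.38 ≤ κ) (hk2 : κ ≤ 0.4) (ht1 : 1.144 ≤ t + κ) (ht2 : t + κ ≤ 1.159) :
    0.239 ≤ sy κ t ∧ sy κ t ≤ 0.253 := by
  have hy1 : 0.239 ≤ sy κ t := syR_ge h 0.38 0.4 1.144 0.239 1.26997 1.26998 0.7588 0.79876 hk1 hk2 (by linarith) (by norm_num) (by norm_num)
    (expn_ge (by norm_num) (by norm_num)) (expn_le (by norm_num) (by norm_num) (by norm_num)) (by norm_num)
    (by norm_num) (by norm_num) (by norm_num) (by norm_num) (by norm_num) (by norm_num)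
  have hy2 : sy κ t ≤ 0.253 := syR_ang2 h 0.38 0.4 1.159 0.951 0.5819 0.8142 0.253 0.77647 1.28788 hk1 hk2 (by linarith) (by norm_num) (by norm_num) (by norm_num)
    (cos_le_num (by norm_num)) (sin_le_num (by norm_num) (by norm_num)) (expm_le (by norm_num) (by norm_num) (by norm_num))
    (expn_ge (by norm_num) (by norm_num)) (by norm_num) (by norm_num) (by norm_num) (by norm_num) (by norm_num)
  exact ⟨hy1, hy2⟩

private theorem yB0 {κ t : ℝ} (h : DomR κ t) (hk1 : 0.38 ≤ κ) (hk2 : κ ≤ 0.4) (ht1 : -0.9504 ≤ t + κ) (ht2 : t + κ ≤ -0.93539) :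
    (-0.566) ≤ sy κ t ∧ sy κ t ≤ (-0.485) := by
  have hy1 : -0.566 ≤ sy κ t := syL_ang2 h 0.38 0.4 0.9504 0.932 0.5962 0.803 0.566 1.7612 0.56779 hk1 hk2 (by linarith) (by norm_num) (by norm_num) (by norm_num) (by norm_num)
    (cos_ge_num (by norm_num) (by norm_num)) (sin_le_num (by norm_num) (by norm_num))
    (expn_ge (by norm_num) (by norm_num)) (expm_ge (by norm_num) (by norm_num) (by norm_num) (by norm_num)) (by norm_num) (by norm_num) (by norm_num)
    (by norm_num) (by norm_num) (by norm_num)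
  have hy2 : sy κ t ≤ -0.485 := syL_le h 0.38 0.4 0.93539 0.485 0.61569 0.6157 0.74652 0.78583 hk1 hk2 (by linarith) (by norm_num) (by norm_num) (by norm_num)
    (expm_ge (by norm_num) (by norm_num) (by norm_num) (by norm_num)) (expm_le (by norm_num) (by norm_num) (by norm_num)) (by norm_num)
    (by norm_num) (by norm_num) (by norm_num) (by norm_num) (by norm_num) (by norm_num)
  exact ⟨hy1, hy2⟩

theorem pc0 {β r h t κ : ℝ} (hh : h = 2 * Real.pi / (3 : ℕ)) (hβ : 0 < β) (hr : 10 ≤ r) (hκ : κ = β * r)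
    (hk1 : 0.38 ≤ κ) (hk2 : κ ≤ 0.4) (hT1 : 1.144 ≤ t + κ) (hT2 : t + κ ≤ 1.159) :
    Xf β r h t 0 ≠ 0 ∧ r * 0.1252 ≤ (Ld β r h t 1 - Ld β r h t 0).im ∧
      ‖(((-1 : ℤ) : ℂ) - 1) * Ld β r h t 0 - ((-1 : ℤ) : ℂ) * Ld β r h t 1‖ ≤ r * 7.62 := by
  obtain ⟨q1, q2, q3⟩ := b3_h hh
  have hR0 := b3_R0 hβ hr hκ
  have hR := b3_R hβ hr hκ (by linarith)
  have hD1 : DomR κ t := b3_dom (by linarith) (by linarith) (Or.inl (by linarith))
  have hD0 : DomR κ (t - h) := b3_dom (by linarith) (by linarith) (Or.inl (by linarith))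
  have y1 := yA0 hD1 hk1 hk2 (by linarith) (by linarith)
  have y0 := yB0 hD0 hk1 hk2 (by linarith) (by linarith)
  have j1 := T3_04_d1_0 hD1 hβ hk1 hk2 (by linarith) (by linarith) hR0 hR
  exact b3_piece 0.38 0.4 0.239 0.253 0.246 0.78192 0.78742 0.77647 0.315 1.5675 1.6025 0.03 0.02 0.02 0.6803 0.1712 0 0 (-0.566) (-0.485) (-0.525) 1.69045 1.76121 0.7045 0.3144 0.03 0.285 0.155 11.2427 14.1258 1.1381 2.5503 0.1252 7.62
    hβ hr hκ (by norm_num) hk1 hk2 hD1 hD0 j1 (j1 _ (by rw [sub_self, norm_zero]; norm_num))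
    (T3_04_d0_0 hD0 hβ hk1 hk2 (by linarith) (by linarith) hR0 hR)
    (T3_04_p0 hD0 hβ hk1 hk2 (by linarith) (by linarith) hR0 hR)
    y1.1 y1.2 y0.1 y0.2 (by norm_num)
    (ex_um 0.239 (by norm_num) (by norm_num) (by norm_num) (by norm_num)) (ex_um 0.253 (by norm_num) (by norm_num) (by norm_num) (by norm_num)) (ex_lm 0.246 (by norm_num) (by norm_num) (by norm_num) (by norm_num) (by norm_num)) (by norm_num) (by norm_num) (by norm_num) (by norm_num) (by norm_num) (by norm_num) (by norm_num) (by norm_num)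
    (by norm_num) (by norm_num) (by norm_num) (by norm_num) (by norm_num) (by norm_num) (by norm_num) (by norm_num) (by norm_num) (by norm_num)
    (ex_up 0.566 (by norm_num) (by norm_num) (by norm_num) (by norm_num)) (ex_lp 0.525 (by norm_num) (by norm_num) (by norm_num)) (by norm_num) (by norm_num) (by norm_num) (by norm_num) (by norm_num) (by norm_num)
    (by norm_num) (by norm_num) (by norm_num) (by norm_num) (by norm_num) (by norm_num) (by norm_num) (by norm_num) (by norm_num) (by norm_num) (by norm_num)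
    (by norm_num) (by norm_num) (by norm_num) (by norm_num)

private theorem yA1 {κ t : ℝ} (h : DomR κ t) (hk1 : 0.38 ≤ κ) (hk2 : κ ≤ 0.4) (ht1 : 1.159 ≤ t + κ) (ht2 : t + κ ≤ 1.174) :
    0.239 ≤ sy κ t ∧ sy κ t ≤ 0.255 := by
  have hy1 : 0.239 ≤ sy κ t := syR_ge h 0.38 0.4 1.159 0.239 1.26997 1.26998 0.7588 0.79876 hk1 hk2 (by linarith) (by norm_num) (by norm_num)
    (expn_ge (by norm_num) (by norm_num)) (expn_le (by norm_num) (by norm_num) (by norm_num)) (by norm_num)
    (by norm_num) (by norm_num) (by norm_num) (by norm_num) (by norm_num) (by norm_num)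
  have hy2 : sy κ t ≤ 0.255 := syR_ang2 h 0.38 0.4 1.174 0.965 0.5706 0.8223 0.255 0.77492 1.29046 hk1 hk2 (by linarith) (by norm_num) (by norm_num) (by norm_num)
    (cos_le_num (by norm_num)) (sin_le_num (by norm_num) (by norm_num)) (expm_le (by norm_num) (by norm_num) (by norm_num))
    (expn_ge (by norm_num) (by norm_num)) (by norm_num) (by norm_num) (by norm_num) (by norm_num) (by norm_num)
  exact ⟨hy1, hy2⟩

private theorem yB1 {κ t : ℝ} (h : DomR κ t) (hk1 : 0.38 ≤ κ) (hk2 : κ ≤ 0.4) (ht1 : -0.9354 ≤ t + κ) (ht2 : t + κ ≤ -0.92039) :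
    (-0.549) ≤ sy κ t ∧ sy κ t ≤ (-0.473) := by
  have hy1 : -0.549 ≤ sy κ t := syL_ang2 h 0.38 0.4 0.9354 0.914 0.6105 0.7921 0.549 1.73151 0.57752 hk1 hk2 (by linarith) (by norm_num) (by norm_num) (by norm_num) (by norm_num)
    (cos_ge_num (by norm_num) (by norm_num)) (sin_le_num (by norm_num) (by norm_num))
    (expn_ge (by norm_num) (by norm_num)) (expm_ge (by norm_num) (by norm_num) (by norm_num) (by norm_num)) (by norm_num) (by norm_num) (by norm_num)
    (by norm_num) (by norm_num) (by norm_num)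
  have hy2 : sy κ t ≤ -0.473 := syL_le h 0.38 0.4 0.92039 0.473 0.62313 0.62314 0.73685 0.77565 hk1 hk2 (by linarith) (by norm_num) (by norm_num) (by norm_num)
    (expm_ge (by norm_num) (by norm_num) (by norm_num) (by norm_num)) (expm_le (by norm_num) (by norm_num) (by norm_num)) (by norm_num)
    (by norm_num) (by norm_num) (by norm_num) (by norm_num) (by norm_num) (by norm_num)
  exact ⟨hy1, hy2⟩

theorem pc1 {β r h t κ : ℝ} (hh : h = 2 * Real.pi / (3 : ℕ)) (hβ : 0 < β) (hr : 10 ≤ r) (hκ : κ = β * r)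
    (hk1 : 0.38 ≤ κ) (hk2 : κ ≤ 0.4) (hT1 : 1.159 ≤ t + κ) (hT2 : t + κ ≤ 1.174) :
    Xf β r h t 0 ≠ 0 ∧ r * 0.1252 ≤ (Ld β r h t 1 - Ld β r h t 0).im ∧
      ‖(((-1 : ℤ) : ℂ) - 1) * Ld β r h t 0 - ((-1 : ℤ) : ℂ) * Ld β r h t 1‖ ≤ r * 7.62 := by
  obtain ⟨q1, q2, q3⟩ := b3_h hh
  have hR0 := b3_R0 hβ hr hκ
  have hR := b3_R hβ hr hκ (by linarith)
  have hD1 : DomR κ t := b3_dom (by linarith) (by linarith) (Or.inl (by linarith))
  have hD0 : DomR κ (t - h) := b3_dom (by linarith) (by linarith) (Or.inl (by linarith))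
  have y1 := yA1 hD1 hk1 hk2 (by linarith) (by linarith)
  have y0 := yB1 hD0 hk1 hk2 (by linarith) (by linarith)
  have j1 := T3_04_d1_0 hD1 hβ hk1 hk2 (by linarith) (by linarith) hR0 hR
  exact b3_piece 0.38 0.4 0.239 0.255 0.247 0.78114 0.78742 0.77492 0.315 1.5675 1.6061 0.03 0.02 0.02 0.6803 0.1712 0 0 (-0.549) (-0.473) (-0.511) 1.66695 1.73153 0.6927 0.3337 0.03 0.285 0.155 11.2427 13.4815 1.0793 2.2405 0.1252 7.62
    hβ hr hκ (by norm_num) hk1 hk2 hD1 hD0 j1 (j1 _ (by rw [sub_self, norm_zero]; norm_num))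
    (T3_04_d0_0 hD0 hβ hk1 hk2 (by linarith) (by linarith) hR0 hR)
    (T3_04_p0 hD0 hβ hk1 hk2 (by linarith) (by linarith) hR0 hR)
    y1.1 y1.2 y0.1 y0.2 (by norm_num)
    (ex_um 0.239 (by norm_num) (by norm_num) (by norm_num) (by norm_num)) (ex_um 0.255 (by norm_num) (by norm_num) (by norm_num) (by norm_num)) (ex_lm 0.247 (by norm_num) (by norm_num) (by norm_num) (by norm_num) (by norm_num)) (by norm_num) (by norm_num) (by norm_num) (by norm_num) (by norm_num) (by norm_num) (by norm_num) (by norm_num)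
    (by norm_num) (by norm_num) (by norm_num) (by norm_num) (by norm_num) (by norm_num) (by norm_num) (by norm_num) (by norm_num) (by norm_num)
    (ex_up 0.549 (by norm_num) (by norm_num) (by norm_num) (by norm_num)) (ex_lp 0.511 (by norm_num) (by norm_num) (by norm_num)) (by norm_num) (by norm_num) (by norm_num) (by norm_num) (by norm_num) (by norm_num)
    (by norm_num) (by norm_num) (by norm_num) (by norm_num) (by norm_num) (by norm_num) (by norm_num) (by norm_num) (by norm_num) (by norm_num) (by norm_num)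
    (by norm_num) (by norm_num) (by norm_num) (by norm_num)

private theorem yA2 {κ t : ℝ} (h : DomR κ t) (hk1 : 0.38 ≤ κ) (hk2 : κ ≤ 0.4) (ht1 : 1.174 ≤ t + κ) (ht2 : t + κ ≤ 1.192) :
    0.239 ≤ sy κ t ∧ sy κ t ≤ 0.257 := by
  have hy1 : 0.239 ≤ sy κ t := syR_ge h 0.38 0.4 1.174 0.239 1.26997 1.26998 0.7588 0.79876 hk1 hk2 (by linarith) (by norm_num) (by norm_num)
    (expn_ge (by norm_num) (by norm_num)) (expn_le (by norm_num) (by norm_num) (by norm_num)) (by norm_num)
    (by norm_num) (by norm_num) (by norm_num) (by norm_num) (by norm_num) (by norm_num)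
  have hy2 : sy κ t ≤ 0.257 := syR_ang2 h 0.38 0.4 1.192 0.98 0.5583 0.8307 0.257 0.77337 1.29304 hk1 hk2 (by linarith) (by norm_num) (by norm_num) (by norm_num)
    (cos_le_num (by norm_num)) (sin_le_num (by norm_num) (by norm_num)) (expm_le (by norm_num) (by norm_num) (by norm_num))
    (expn_ge (by norm_num) (by norm_num)) (by norm_num) (by norm_num) (by norm_num) (by norm_num) (by norm_num)
  exact ⟨hy1, hy2⟩

private theorem yB2 {κ t : ℝ} (h : DomR κ t) (hk1 : 0.38 ≤ κ) (hk2 : κ ≤ 0.4) (ht1 : -0.9204 ≤ t + κ) (ht2 : t + κ ≤ -0.90239) :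
    (-0.533) ≤ sy κ t ∧ sy κ t ≤ (-0.459) := by
  have hy1 : -0.533 ≤ sy κ t := syL_ang2 h 0.38 0.4 0.9204 0.897 0.6239 0.7816 0.533 1.70403 0.58684 hk1 hk2 (by linarith) (by norm_num) (by norm_num) (by norm_num) (by norm_num)
    (cos_ge_num (by norm_num) (by norm_num)) (sin_le_num (by norm_num) (by norm_num))
    (expn_ge (by norm_num) (by norm_num)) (expm_ge (by norm_num) (by norm_num) (by norm_num) (by norm_num)) (by norm_num) (by norm_num) (by norm_num)
    (by norm_num) (by norm_num) (by norm_num)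
  have hy2 : sy κ t ≤ -0.459 := syL_le h 0.38 0.4 0.90239 0.459 0.63191 0.63192 0.72511 0.7633 hk1 hk2 (by linarith) (by norm_num) (by norm_num) (by norm_num)
    (expm_ge (by norm_num) (by norm_num) (by norm_num) (by norm_num)) (expm_le (by norm_num) (by norm_num) (by norm_num)) (by norm_num)
    (by norm_num) (by norm_num) (by norm_num) (by norm_num) (by norm_num) (by norm_num)
  exact ⟨hy1, hy2⟩

theorem pc2 {β r h t κ : ℝ} (hh : h = 2 * Real.pi / (3 : ℕ)) (hβ : 0 < β) (hr : 10 ≤ r) (hκ : κ = β * r)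
    (hk1 : 0.38 ≤ κ) (hk2 : κ ≤ 0.4) (hT1 : 1.174 ≤ t + κ) (hT2 : t + κ ≤ 1.192) :
    Xf β r h t 0 ≠ 0 ∧ r * 0.1252 ≤ (Ld β r h t 1 - Ld β r h t 0).im ∧
      ‖(((-1 : ℤ) : ℂ) - 1) * Ld β r h t 0 - ((-1 : ℤ) : ℂ) * Ld β r h t 1‖ ≤ r * 7.62 := by
  obtain ⟨q1, q2, q3⟩ := b3_h hh
  have hR0 := b3_R0 hβ hr hκ
  have hR := b3_R hβ hr hκ (by linarith)
  have hD1 : DomR κ t := b3_dom (by linarith) (by linarith) (Or.inl (by linarith))
  have hD0 : DomR κ (t - h) := b3_dom (by linarith) (by linarith) (Or.inl (by linarith))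
  have y1 := yA2 hD1 hk1 hk2 (by linarith) (by linarith)
  have y0 := yB2 hD0 hk1 hk2 (by linarith) (by linarith)
  have j1 := T3_04_d1_1 hD1 hβ hk1 hk2 (by linarith) (by linarith) hR0 hR
  exact b3_piece 0.38 0.4 0.239 0.257 0.248 0.78035 0.78742 0.77337 0.315 1.5675 1.6097 0.08 0.06 0.06 0.7979 0.2008 0 0 (-0.533) (-0.459) (-0.496) 1.64213 1.70404 0.6817 0.3522 0.04 0.245 0.155 7.2486 8.3264 1.0361 2.0055 0.1252 7.62
    hβ hr hκ (by norm_num) hk1 hk2 hD1 hD0 j1 (j1 _ (by rw [sub_self, norm_zero]; norm_num))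
    (T3_04_d0_1 hD0 hβ hk1 hk2 (by linarith) (by linarith) hR0 hR)
    (T3_04_p0 hD0 hβ hk1 hk2 (by linarith) (by linarith) hR0 hR)
    y1.1 y1.2 y0.1 y0.2 (by norm_num)
    (ex_um 0.239 (by norm_num) (by norm_num) (by norm_num) (by norm_num)) (ex_um 0.257 (by norm_num) (by norm_num) (by norm_num) (by norm_num)) (ex_lm 0.248 (by norm_num) (by norm_num) (by norm_num) (by norm_num) (by norm_num)) (by norm_num) (by norm_num) (by norm_num) (by norm_num) (by norm_num) (by norm_num) (by norm_num) (by norm_num)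
    (by norm_num) (by norm_num) (by norm_num) (by norm_num) (by norm_num) (by norm_num) (by norm_num) (by norm_num) (by norm_num) (by norm_num)
    (ex_up 0.533 (by norm_num) (by norm_num) (by norm_num) (by norm_num)) (ex_lp 0.496 (by norm_num) (by norm_num) (by norm_num)) (by norm_num) (by norm_num) (by norm_num) (by norm_num) (by norm_num) (by norm_num)
    (by norm_num) (by norm_num) (by norm_num) (by norm_num) (by norm_num) (by norm_num) (by norm_num) (by norm_num) (by norm_num) (by norm_num) (by norm_num)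
    (by norm_num) (by norm_num) (by norm_num) (by norm_num)

private theorem yA3 {κ t : ℝ} (h : DomR κ t) (hk1 : 0.38 ≤ κ) (hk2 : κ ≤ 0.4) (ht1 : 1.192 ≤ t + κ) (ht2 : t + κ ≤ 1.209) :
    0.239 ≤ sy κ t ∧ sy κ t ≤ 0.259 := by
  have hy1 : 0.239 ≤ sy κ t := syR_ge h 0.38 0.4 1.192 0.239 1.26997 1.26998 0.7588 0.79876 hk1 hk2 (by linarith) (by norm_num) (by norm_num)
    (expn_ge (by norm_num) (by norm_num)) (expn_le (by norm_num) (by norm_num) (by norm_num)) (by norm_num)
    (by norm_num) (by norm_num) (by norm_num) (by norm_num) (by norm_num) (by norm_num)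
  have hy2 : sy κ t ≤ 0.259 := syR_ang2 h 0.38 0.4 1.209 0.994 0.5467 0.8385 0.259 0.77183 1.29563 hk1 hk2 (by linarith) (by norm_num) (by norm_num) (by norm_num)
    (cos_le_num (by norm_num)) (sin_le_num (by norm_num) (by norm_num)) (expm_le (by norm_num) (by norm_num) (by norm_num))
    (expn_ge (by norm_num) (by norm_num)) (by norm_num) (by norm_num) (by norm_num) (by norm_num) (by norm_num)
  exact ⟨hy1, hy2⟩

private theorem yB3 {κ t : ℝ} (h : DomR κ t) (hk1 : 0.38 ≤ κ) (hk2 : κ ≤ 0.4) (ht1 : -0.9024 ≤ t + κ) (ht2 : t + κ ≤ -0.88539) :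
    (-0.514) ≤ sy κ t ∧ sy κ t ≤ (-0.446) := by
  have hy1 : -0.514 ≤ sy κ t := syL_ang2 h 0.38 0.4 0.9024 0.876 0.6402 0.7683 0.514 1.67196 0.59809 hk1 hk2 (by linarith) (by norm_num) (by norm_num) (by norm_num) (by norm_num)
    (cos_ge_num (by norm_num) (by norm_num)) (sin_le_num (by norm_num) (by norm_num))
    (expn_ge (by norm_num) (by norm_num)) (expm_ge (by norm_num) (by norm_num) (by norm_num) (by norm_num)) (by norm_num) (by norm_num) (by norm_num)
    (by norm_num) (by norm_num) (by norm_num)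
  have hy2 : sy κ t ≤ -0.446 := syL_le h 0.38 0.4 0.88539 0.446 0.64018 0.64019 0.7138 0.75139 hk1 hk2 (by linarith) (by norm_num) (by norm_num) (by norm_num)
    (expm_ge (by norm_num) (by norm_num) (by norm_num) (by norm_num)) (expm_le (by norm_num) (by norm_num) (by norm_num)) (by norm_num)
    (by norm_num) (by norm_num) (by norm_num) (by norm_num) (by norm_num) (by norm_num)
  exact ⟨hy1, hy2⟩

theorem pc3 {β r h t κ : ℝ} (hh : h = 2 * Real.pi / (3 : ℕ)) (hβ : 0 < β) (hr : 10 ≤ r) (hκ : κ = β * r)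
    (hk1 : 0.38 ≤ κ) (hk2 : κ ≤ 0.4) (hT1 : 1.192 ≤ t + κ) (hT2 : t + κ ≤ 1.209) :
    Xf β r h t 0 ≠ 0 ∧ r * 0.1252 ≤ (Ld β r h t 1 - Ld β r h t 0).im ∧
      ‖(((-1 : ℤ) : ℂ) - 1) * Ld β r h t 0 - ((-1 : ℤ) : ℂ) * Ld β r h t 1‖ ≤ r * 7.62 := by
  obtain ⟨q1, q2, q3⟩ := b3_h hh
  have hR0 := b3_R0 hβ hr hκ
  have hR := b3_R hβ hr hκ (by linarith)
  have hD1 : DomR κ t := b3_dom (by linarith) (by linarith) (Or.inl (by linarith))
  have hD0 : DomR κ (t - h) := b3_dom (by linarith) (by linarith) (Or.inl (by linarith))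
  have y1 := yA3 hD1 hk1 hk2 (by linarith) (by linarith)
  have y0 := yB3 hD0 hk1 hk2 (by linarith) (by linarith)
  have j1 := T3_04_d1_1 hD1 hβ hk1 hk2 (by linarith) (by linarith) hR0 hR
  exact b3_piece 0.38 0.4 0.239 0.259 0.249 0.77957 0.78742 0.77183 0.315 1.5675 1.6134 0.08 0.06 0.06 0.7979 0.2008 0 0 (-0.514) (-0.446) (-0.48) 1.61607 1.67197 0.6688 0.3747 0.04 0.245 0.155 7.2486 7.9197 0.9786 1.7467 0.1252 7.62
    hβ hr hκ (by norm_num) hk1 hk2 hD1 hD0 j1 (j1 _ (by rw [sub_self, norm_zero]; norm_num))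
    (T3_04_d0_1 hD0 hβ hk1 hk2 (by linarith) (by linarith) hR0 hR)
    (T3_04_p0 hD0 hβ hk1 hk2 (by linarith) (by linarith) hR0 hR)
    y1.1 y1.2 y0.1 y0.2 (by norm_num)
    (ex_um 0.239 (by norm_num) (by norm_num) (by norm_num) (by norm_num)) (ex_um 0.259 (by norm_num) (by norm_num) (by norm_num) (by norm_num)) (ex_lm 0.249 (by norm_num) (by norm_num) (by norm_num) (by norm_num) (by norm_num)) (by norm_num) (by norm_num) (by norm_num) (by norm_num) (by norm_num) (by norm_num) (by norm_num) (by norm_num)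
    (by norm_num) (by norm_num) (by norm_num) (by norm_num) (by norm_num) (by norm_num) (by norm_num) (by norm_num) (by norm_num) (by norm_num)
    (ex_up 0.514 (by norm_num) (by norm_num) (by norm_num) (by norm_num)) (ex_lp 0.48 (by norm_num) (by norm_num) (by norm_num)) (by norm_num) (by norm_num) (by norm_num) (by norm_num) (by norm_num) (by norm_num)
    (by norm_num) (by norm_num) (by norm_num) (by norm_num) (by norm_num) (by norm_num) (by norm_num) (by norm_num) (by norm_num) (by norm_num) (by norm_num)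
    (by norm_num) (by norm_num) (by norm_num) (by norm_num)

private theorem yA4 {κ t : ℝ} (h : DomR κ t) (hk1 : 0.38 ≤ κ) (hk2 : κ ≤ 0.4) (ht1 : 1.209 ≤ t + κ) (ht2 : t + κ ≤ 1.226) :
    0.239 ≤ sy κ t ∧ sy κ t ≤ 0.261 := by
  have hy1 : 0.239 ≤ sy κ t := syR_ge h 0.38 0.4 1.209 0.239 1.26997 1.26998 0.7588 0.79876 hk1 hk2 (by linarith) (by norm_num) (by norm_num)
    (expn_ge (by norm_num) (by norm_num)) (expn_le (by norm_num) (by norm_num) (by norm_num)) (by norm_num)
    (by norm_num) (by norm_num) (by norm_num) (by norm_num) (by norm_num) (by norm_num)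
  have hy2 : sy κ t ≤ 0.261 := syR_ang2 h 0.38 0.4 1.226 1.009 0.5342 0.8466 0.261 0.77029 1.29822 hk1 hk2 (by linarith) (by norm_num) (by norm_num) (by norm_num)
    (cos_le_num (by norm_num)) (sin_le_num (by norm_num) (by norm_num)) (expm_le (by norm_num) (by norm_num) (by norm_num))
    (expn_ge (by norm_num) (by norm_num)) (by norm_num) (by norm_num) (by norm_num) (by norm_num) (by norm_num)
  exact ⟨hy1, hy2⟩

private theorem yB4 {κ t : ℝ} (h : DomR κ t) (hk1 : 0.38 ≤ κ) (hk2 : κ ≤ 0.4) (ht1 : -0.8854 ≤ t + κ) (ht2 : t + κ ≤ -0.86839) :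
    (-0.498) ≤ sy κ t ∧ sy κ t ≤ (-0.433) := by
  have hy1 : -0.498 ≤ sy κ t := syL_ang2 h 0.38 0.4 0.8854 0.857 0.6547 0.756 0.498 1.64542 0.60774 hk1 hk2 (by linarith) (by norm_num) (by norm_num) (by norm_num) (by norm_num)
    (cos_ge_num (by norm_num) (by norm_num)) (sin_le_num (by norm_num) (by norm_num))
    (expn_ge (by norm_num) (by norm_num)) (expm_ge (by norm_num) (by norm_num) (by norm_num) (by norm_num)) (by norm_num) (by norm_num) (by norm_num)
    (by norm_num) (by norm_num) (by norm_num)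
  have hy2 : sy κ t ≤ -0.433 := syL_le h 0.38 0.4 0.86839 0.433 0.64856 0.64857 0.70206 0.73903 hk1 hk2 (by linarith) (by norm_num) (by norm_num) (by norm_num)
    (expm_ge (by norm_num) (by norm_num) (by norm_num) (by norm_num)) (expm_le (by norm_num) (by norm_num) (by norm_num)) (by norm_num)
    (by norm_num) (by norm_num) (by norm_num) (by norm_num) (by norm_num) (by norm_num)
  exact ⟨hy1, hy2⟩

theorem pc4 {β r h t κ : ℝ} (hh : h = 2 * Real.pi / (3 : ℕ)) (hβ : 0 < β) (hr : 10 ≤ r) (hκ : κ = β * r)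
    (hk1 : 0.38 ≤ κ) (hk2 : κ ≤ 0.4) (hT1 : 1.209 ≤ t + κ) (hT2 : t + κ ≤ 1.226) :
    Xf β r h t 0 ≠ 0 ∧ r * 0.1252 ≤ (Ld β r h t 1 - Ld β r h t 0).im ∧
      ‖(((-1 : ℤ) : ℂ) - 1) * Ld β r h t 0 - ((-1 : ℤ) : ℂ) * Ld β r h t 1‖ ≤ r * 7.62 := by
  obtain ⟨q1, q2, q3⟩ := b3_h hh
  have hR0 := b3_R0 hβ hr hκ
  have hR := b3_R hβ hr hκ (by linarith)
  have hD1 : DomR κ t := b3_dom (by linarith) (by linarith) (Or.inl (by linarith))
  have hD0 : DomR κ (t - h) := b3_dom (by linarith) (by linarith) (Or.inl (by linarith))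
  have y1 := yA4 hD1 hk1 hk2 (by linarith) (by linarith)
  have y0 := yB4 hD0 hk1 hk2 (by linarith) (by linarith)
  have j1 := T3_04_d1_1 hD1 hβ hk1 hk2 (by linarith) (by linarith) hR0 hR
  exact b3_piece 0.38 0.4 0.239 0.261 0.25 0.7788 0.78742 0.77029 0.315 1.5675 1.617 0.08 0.06 0.06 0.7979 0.2008 0 0 (-0.498) (-0.433) (-0.466) 1.5936 1.64543 0.6582 0.3941 0.04 0.245 0.155 7.2486 7.6 0.9388 1.568 0.1252 7.62
    hβ hr hκ (by norm_num) hk1 hk2 hD1 hD0 j1 (j1 _ (by rw [sub_self, norm_zero]; norm_num))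
    (T3_04_d0_1 hD0 hβ hk1 hk2 (by linarith) (by linarith) hR0 hR)
    (T3_04_p0 hD0 hβ hk1 hk2 (by linarith) (by linarith) hR0 hR)
    y1.1 y1.2 y0.1 y0.2 (by norm_num)
    (ex_um 0.239 (by norm_num) (by norm_num) (by norm_num) (by norm_num)) (ex_um 0.261 (by norm_num) (by norm_num) (by norm_num) (by norm_num)) (ex_lm 0.25 (by norm_num) (by norm_num) (by norm_num) (by norm_num) (by norm_num)) (by norm_num) (by norm_num) (by norm_num) (by norm_num) (by norm_num) (by norm_num) (by norm_num) (by norm_num)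
    (by norm_num) (by norm_num) (by norm_num) (by norm_num) (by norm_num) (by norm_num) (by norm_num) (by norm_num) (by norm_num) (by norm_num)
    (ex_up 0.498 (by norm_num) (by norm_num) (by norm_num) (by norm_num)) (ex_lp 0.466 (by norm_num) (by norm_num) (by norm_num)) (by norm_num) (by norm_num) (by norm_num) (by norm_num) (by norm_num) (by norm_num)
    (by norm_num) (by norm_num) (by norm_num) (by norm_num) (by norm_num) (by norm_num) (by norm_num) (by norm_num) (by norm_num) (by norm_num) (by norm_num)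
    (by norm_num) (by norm_num) (by norm_num) (by norm_num)

private theorem yA5 {κ t : ℝ} (h : DomR κ t) (hk1 : 0.38 ≤ κ) (hk2 : κ ≤ 0.4) (ht1 : 1.226 ≤ t + κ) (ht2 : t + κ ≤ 1.244) :
    0.239 ≤ sy κ t ∧ sy κ t ≤ 0.263 := by
  have hy1 : 0.239 ≤ sy κ t := syR_ge h 0.38 0.4 1.226 0.239 1.26997 1.26998 0.7588 0.79876 hk1 hk2 (by linarith) (by norm_num) (by norm_num)
    (expn_ge (by norm_num) (by norm_num)) (expn_le (by norm_num) (by norm_num) (by norm_num)) (by norm_num)
    (by norm_num) (by norm_num) (by norm_num) (by norm_num) (by norm_num) (by norm_num)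
  have hy2 : sy κ t ≤ 0.263 := syR_ang2 h 0.38 0.4 1.244 1.025 0.5207 0.855 0.263 0.76875 1.30082 hk1 hk2 (by linarith) (by norm_num) (by norm_num) (by norm_num)
    (cos_le_num (by norm_num)) (sin_le_num (by norm_num) (by norm_num)) (expm_le (by norm_num) (by norm_num) (by norm_num))
    (expn_ge (by norm_num) (by norm_num)) (by norm_num) (by norm_num) (by norm_num) (by norm_num) (by norm_num)
  exact ⟨hy1, hy2⟩

private theorem yB5 {κ t : ℝ} (h : DomR κ t) (hk1 : 0.38 ≤ κ) (hk2 : κ ≤ 0.4) (ht1 : -0.8684 ≤ t + κ) (ht2 : t + κ ≤ -0.85039) :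
    (-0.481) ≤ sy κ t ∧ sy κ t ≤ (-0.42) := by
  have hy1 : -0.481 ≤ sy κ t := syL_ang2 h 0.38 0.4 0.8684 0.837 0.6696 0.7427 0.481 1.61769 0.61816 hk1 hk2 (by linarith) (by norm_num) (by norm_num) (by norm_num) (by norm_num)
    (cos_ge_num (by norm_num) (by norm_num)) (sin_le_num (by norm_num) (by norm_num))
    (expn_ge (by norm_num) (by norm_num)) (expm_ge (by norm_num) (by norm_num) (by norm_num) (by norm_num)) (by norm_num) (by norm_num) (by norm_num)
    (by norm_num) (by norm_num) (by norm_num)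
  have hy2 : sy κ t ≤ -0.42 := syL_le h 0.38 0.4 0.85039 0.42 0.65704 0.65705 0.68989 0.72622 hk1 hk2 (by linarith) (by norm_num) (by norm_num) (by norm_num)
    (expm_ge (by norm_num) (by norm_num) (by norm_num) (by norm_num)) (expm_le (by norm_num) (by norm_num) (by norm_num)) (by norm_num)
    (by norm_num) (by norm_num) (by norm_num) (by norm_num) (by norm_num) (by norm_num)
  exact ⟨hy1, hy2⟩

theorem pc5 {β r h t κ : ℝ} (hh : h = 2 * Real.pi / (3 : ℕ)) (hβ : 0 < β) (hr : 10 ≤ r) (hκ : κ = β * r)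
    (hk1 : 0.38 ≤ κ) (hk2 : κ ≤ 0.4) (hT1 : 1.226 ≤ t + κ) (hT2 : t + κ ≤ 1.244) :
    Xf β r h t 0 ≠ 0 ∧ r * 0.1252 ≤ (Ld β r h t 1 - Ld β r h t 0).im ∧
      ‖(((-1 : ℤ) : ℂ) - 1) * Ld β r h t 0 - ((-1 : ℤ) : ℂ) * Ld β r h t 1‖ ≤ r * 7.62 := by
  obtain ⟨q1, q2, q3⟩ := b3_h hh
  have hR0 := b3_R0 hβ hr hκ
  have hR := b3_R hβ hr hκ (by linarith)
  have hD1 : DomR κ t := b3_dom (by linarith) (by linarith) (Or.inl (by linarith))
  have hD0 : DomR κ (t - h) := b3_dom (by linarith) (by linarith) (Or.inl (by linarith))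
  have y1 := yA5 hD1 hk1 hk2 (by linarith) (by linarith)
  have y0 := yB5 hD0 hk1 hk2 (by linarith) (by linarith)
  have j1 := T3_04_d1_1 hD1 hβ hk1 hk2 (by linarith) (by linarith) hR0 hR
  exact b3_piece 0.38 0.4 0.239 0.263 0.251 0.77802 0.78742 0.76875 0.315 1.5675 1.6206 0.08 0.06 0.06 0.7979 0.2008 0 0 (-0.481) (-0.42) (-0.451) 1.56988 1.6177 0.6471 0.4152 0.04 0.245 0.155 7.2486 7.2795 0.897 1.398 0.1252 7.62
    hβ hr hκ (by norm_num) hk1 hk2 hD1 hD0 j1 (j1 _ (by rw [sub_self, norm_zero]; norm_num))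
    (T3_04_d0_1 hD0 hβ hk1 hk2 (by linarith) (by linarith) hR0 hR)
    (T3_04_p0 hD0 hβ hk1 hk2 (by linarith) (by linarith) hR0 hR)
    y1.1 y1.2 y0.1 y0.2 (by norm_num)
    (ex_um 0.239 (by norm_num) (by norm_num) (by norm_num) (by norm_num)) (ex_um 0.263 (by norm_num) (by norm_num) (by norm_num) (by norm_num)) (ex_lm 0.251 (by norm_num) (by norm_num) (by norm_num) (by norm_num) (by norm_num)) (by norm_num) (by norm_num) (by norm_num) (by norm_num) (by norm_num) (by norm_num) (by norm_num) (by norm_num)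
    (by norm_num) (by norm_num) (by norm_num) (by norm_num) (by norm_num) (by norm_num) (by norm_num) (by norm_num) (by norm_num) (by norm_num)
    (ex_up 0.481 (by norm_num) (by norm_num) (by norm_num) (by norm_num)) (ex_lp 0.451 (by norm_num) (by norm_num) (by norm_num)) (by norm_num) (by norm_num) (by norm_num) (by norm_num) (by norm_num) (by norm_num)
    (by norm_num) (by norm_num) (by norm_num) (by norm_num) (by norm_num) (by norm_num) (by norm_num) (by norm_num) (by norm_num) (by norm_num) (by norm_num)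
    (by norm_num) (by norm_num) (by norm_num) (by norm_num)

private theorem yA6 {κ t : ℝ} (h : DomR κ t) (hk1 : 0.38 ≤ κ) (hk2 : κ ≤ 0.4) (ht1 : 1.244 ≤ t + κ) (ht2 : t + κ ≤ 1.264) :
    0.239 ≤ sy κ t ∧ sy κ t ≤ 0.265 := by
  have hy1 : 0.239 ≤ sy κ t := syR_ge h 0.38 0.4 1.244 0.239 1.26997 1.26998 0.7588 0.79876 hk1 hk2 (by linarith) (by norm_num) (by norm_num)
    (expn_ge (by norm_num) (by norm_num)) (expn_le (by norm_num) (by norm_num) (by norm_num)) (by norm_num)
    (by norm_num) (by norm_num) (by norm_num) (by norm_num) (by norm_num) (by norm_num)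
  have hy2 : sy κ t ≤ 0.265 := syR_ang2 h 0.38 0.4 1.264 1.041 0.5071 0.8632 0.265 0.76721 1.30343 hk1 hk2 (by linarith) (by norm_num) (by norm_num) (by norm_num)
    (cos_le_num (by norm_num)) (sin_le_num (by norm_num) (by norm_num)) (expm_le (by norm_num) (by norm_num) (by norm_num))
    (expn_ge (by norm_num) (by norm_num)) (by norm_num) (by norm_num) (by norm_num) (by norm_num) (by norm_num)
  exact ⟨hy1, hy2⟩

private theorem yB6 {κ t : ℝ} (h : DomR κ t) (hk1 : 0.38 ≤ κ) (hk2 : κ ≤ 0.4) (ht1 : -0.8504 ≤ t + κ) (ht2 : t + κ ≤ -0.83039) :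
    (-0.464) ≤ sy κ t ∧ sy κ t ≤ (-0.405) := by
  have hy1 : -0.464 ≤ sy κ t := syL_ang2 h 0.38 0.4 0.8504 0.817 0.6844 0.7292 0.464 1.59042 0.62876 hk1 hk2 (by linarith) (by norm_num) (by norm_num) (by norm_num) (by norm_num)
    (cos_ge_num (by norm_num) (by norm_num)) (sin_le_num (by norm_num) (by norm_num))
    (expn_ge (by norm_num) (by norm_num)) (expm_ge (by norm_num) (by norm_num) (by norm_num) (by norm_num)) (by norm_num) (by norm_num) (by norm_num)
    (by norm_num) (by norm_num) (by norm_num)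
  have hy2 : sy κ t ≤ -0.405 := syL_le h 0.38 0.4 0.83039 0.405 0.66697 0.66698 0.6753 0.71087 hk1 hk2 (by linarith) (by norm_num) (by norm_num) (by norm_num)
    (expm_ge (by norm_num) (by norm_num) (by norm_num) (by norm_num)) (expm_le (by norm_num) (by norm_num) (by norm_num)) (by norm_num)
    (by norm_num) (by norm_num) (by norm_num) (by norm_num) (by norm_num) (by norm_num)
  exact ⟨hy1, hy2⟩

theorem pc6 {β r h t κ : ℝ} (hh : h = 2 * Real.pi / (3 : ℕ)) (hβ : 0 < β) (hr : 10 ≤ r) (hκ : κ = β * r)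
    (hk1 : 0.38 ≤ κ) (hk2 : κ ≤ 0.4) (hT1 : 1.244 ≤ t + κ) (hT2 : t + κ ≤ 1.264) :
    Xf β r h t 0 ≠ 0 ∧ r * 0.1252 ≤ (Ld β r h t 1 - Ld β r h t 0).im ∧
      ‖(((-1 : ℤ) : ℂ) - 1) * Ld β r h t 0 - ((-1 : ℤ) : ℂ) * Ld β r h t 1‖ ≤ r * 7.62 := by
  obtain ⟨q1, q2, q3⟩ := b3_h hh
  have hR0 := b3_R0 hβ hr hκ
  have hR := b3_R hβ hr hκ (by linarith)
  have hD1 : DomR κ t := b3_dom (by linarith) (by linarith) (Or.inl (by linarith))
  have hD0 : DomR κ (t - h) := b3_dom (by linarith) (by linarith) (Or.inl (by linarith))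
  have y1 := yA6 hD1 hk1 hk2 (by linarith) (by linarith)
  have y0 := yB6 hD0 hk1 hk2 (by linarith) (by linarith)
  have j1 := T3_04_d1_2 hD1 hβ hk1 hk2 (by linarith) (by linarith) hR0 hR
  exact b3_piece 0.38 0.4 0.239 0.265 0.252 0.77724 0.78742 0.76721 0.315 1.5675 1.6242 0.08 0.06 0.06 0.7979 0.2008 0 0 (-0.464) (-0.405) (-0.434) 1.54341 1.59043 0.6362 0.4366 0.05 0.15 0.155 3.5503 3.4184 0.8629 1.2574 0.1252 7.62
    hβ hr hκ (by norm_num) hk1 hk2 hD1 hD0 j1 (j1 _ (by rw [sub_self, norm_zero]; norm_num))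
    (T3_04_d0_2 hD0 hβ hk1 hk2 (by linarith) (by linarith) hR0 hR)
    (T3_04_p0 hD0 hβ hk1 hk2 (by linarith) (by linarith) hR0 hR)
    y1.1 y1.2 y0.1 y0.2 (by norm_num)
    (ex_um 0.239 (by norm_num) (by norm_num) (by norm_num) (by norm_num)) (ex_um 0.265 (by norm_num) (by norm_num) (by norm_num) (by norm_num)) (ex_lm 0.252 (by norm_num) (by norm_num) (by norm_num) (by norm_num) (by norm_num)) (by norm_num) (by norm_num) (by norm_num) (by norm_num) (by norm_num) (by norm_num) (by norm_num) (by norm_num)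
    (by norm_num) (by norm_num) (by norm_num) (by norm_num) (by norm_num) (by norm_num) (by norm_num) (by norm_num) (by norm_num) (by norm_num)
    (ex_up 0.464 (by norm_num) (by norm_num) (by norm_num) (by norm_num)) (ex_lp 0.434 (by norm_num) (by norm_num) (by norm_num)) (by norm_num) (by norm_num) (by norm_num) (by norm_num) (by norm_num) (by norm_num)
    (by norm_num) (by norm_num) (by norm_num) (by norm_num) (by norm_num) (by norm_num) (by norm_num) (by norm_num) (by norm_num) (by norm_num) (by norm_num)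
    (by norm_num) (by norm_num) (by norm_num) (by norm_num)

private theorem yA7 {κ t : ℝ} (h : DomR κ t) (hk1 : 0.38 ≤ κ) (hk2 : κ ≤ 0.4) (ht1 : 1.264 ≤ t + κ) (ht2 : t + κ ≤ 1.283) :
    0.239 ≤ sy κ t ∧ sy κ t ≤ 0.266 := by
  have hy1 : 0.239 ≤ sy κ t := syR_ge h 0.38 0.4 1.264 0.239 1.26997 1.26998 0.7588 0.79876 hk1 hk2 (by linarith) (by norm_num) (by norm_num)
    (expn_ge (by norm_num) (by norm_num)) (expn_le (by norm_num) (by norm_num) (by norm_num)) (by norm_num)
    (by norm_num) (by norm_num) (by norm_num) (by norm_num) (by norm_num) (by norm_num)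
  have hy2 : sy κ t ≤ 0.266 := syR_ang2 h 0.38 0.4 1.283 1.049 0.5003 0.8672 0.266 0.76644 1.30473 hk1 hk2 (by linarith) (by norm_num) (by norm_num) (by norm_num)
    (cos_le_num (by norm_num)) (sin_le_num (by norm_num) (by norm_num)) (expm_le (by norm_num) (by norm_num) (by norm_num))
    (expn_ge (by norm_num) (by norm_num)) (by norm_num) (by norm_num) (by norm_num) (by norm_num) (by norm_num)
  exact ⟨hy1, hy2⟩

private theorem yB7 {κ t : ℝ} (h : DomR κ t) (hk1 : 0.38 ≤ κ) (hk2 : κ ≤ 0.4) (ht1 : -0.8304 ≤ t + κ) (ht2 : t + κ ≤ -0.81139) :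
    (-0.447) ≤ sy κ t ∧ sy κ t ≤ (-0.392) := by
  have hy1 : -0.447 ≤ sy κ t := syL_ang2 h 0.38 0.4 0.8304 0.795 0.7002 0.714 0.447 1.56361 0.63954 hk1 hk2 (by linarith) (by norm_num) (by norm_num) (by norm_num) (by norm_num)
    (cos_ge_num (by norm_num) (by norm_num)) (sin_le_num (by norm_num) (by norm_num))
    (expn_ge (by norm_num) (by norm_num)) (expm_ge (by norm_num) (by norm_num) (by norm_num) (by norm_num)) (by norm_num) (by norm_num) (by norm_num)
    (by norm_num) (by norm_num) (by norm_num)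
  have hy2 : sy κ t ≤ -0.392 := syL_le h 0.38 0.4 0.81139 0.392 0.6757 0.67571 0.66218 0.69705 hk1 hk2 (by linarith) (by norm_num) (by norm_num) (by norm_num)
    (expm_ge (by norm_num) (by norm_num) (by norm_num) (by norm_num)) (expm_le (by norm_num) (by norm_num) (by norm_num)) (by norm_num)
    (by norm_num) (by norm_num) (by norm_num) (by norm_num) (by norm_num) (by norm_num)
  exact ⟨hy1, hy2⟩

theorem pc7 {β r h t κ : ℝ} (hh : h = 2 * Real.pi / (3 : ℕ)) (hβ : 0 < β) (hr : 10 ≤ r) (hκ : κ = β * r)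
    (hk1 : 0.38 ≤ κ) (hk2 : κ ≤ 0.4) (hT1 : 1.264 ≤ t + κ) (hT2 : t + κ ≤ 1.283) :
    Xf β r h t 0 ≠ 0 ∧ r * 0.1252 ≤ (Ld β r h t 1 - Ld β r h t 0).im ∧
      ‖(((-1 : ℤ) : ℂ) - 1) * Ld β r h t 0 - ((-1 : ℤ) : ℂ) * Ld β r h t 1‖ ≤ r * 7.62 := by
  obtain ⟨q1, q2, q3⟩ := b3_h hh
  have hR0 := b3_R0 hβ hr hκ
  have hR := b3_R hβ hr hκ (by linarith)
  have hD1 : DomR κ t := b3_dom (by linarith) (by linarith) (Or.inl (by linarith))
  have hD0 : DomR κ (t - h) := b3_dom (by linarith) (by linarith) (Or.inl (by linarith))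
  have y1 := yA7 hD1 hk1 hk2 (by linarith) (by linarith)
  have y0 := yB7 hD0 hk1 hk2 (by linarith) (by linarith)
  have j1 := T3_04_d1_2 hD1 hβ hk1 hk2 (by linarith) (by linarith) hR0 hR
  exact b3_piece 0.38 0.4 0.239 0.266 0.253 0.77646 0.78742 0.76644 0.315 1.5674 1.626 0.08 0.06 0.06 0.7979 0.2008 0 0 (-0.447) (-0.392) (-0.419) 1.52043 1.56362 0.6255 0.4585 0.05 0.15 0.155 3.5503 3.2797 0.8261 1.127 0.1252 7.62
    hβ hr hκ (by norm_num) hk1 hk2 hD1 hD0 j1 (j1 _ (by rw [sub_self, norm_zero]; norm_num))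
    (T3_04_d0_2 hD0 hβ hk1 hk2 (by linarith) (by linarith) hR0 hR)
    (T3_04_p0 hD0 hβ hk1 hk2 (by linarith) (by linarith) hR0 hR)
    y1.1 y1.2 y0.1 y0.2 (by norm_num)
    (ex_um 0.239 (by norm_num) (by norm_num) (by norm_num) (by norm_num)) (ex_um 0.266 (by norm_num) (by norm_num) (by norm_num) (by norm_num)) (ex_lm 0.253 (by norm_num) (by norm_num) (by norm_num) (by norm_num) (by norm_num)) (by norm_num) (by norm_num) (by norm_num) (by norm_num) (by norm_num) (by norm_num) (by norm_num) (by norm_num)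
    (by norm_num) (by norm_num) (by norm_num) (by norm_num) (by norm_num) (by norm_num) (by norm_num) (by norm_num) (by norm_num) (by norm_num)
    (ex_up 0.447 (by norm_num) (by norm_num) (by norm_num) (by norm_num)) (ex_lp 0.419 (by norm_num) (by norm_num) (by norm_num)) (by norm_num) (by norm_num) (by norm_num) (by norm_num) (by norm_num) (by norm_num)
    (by norm_num) (by norm_num) (by norm_num) (by norm_num) (by norm_num) (by norm_num) (by norm_num) (by norm_num) (by norm_num) (by norm_num) (by norm_num)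
    (by norm_num) (by norm_num) (by norm_num) (by norm_num)

private theorem yA8 {κ t : ℝ} (h : DomR κ t) (hk1 : 0.38 ≤ κ) (hk2 : κ ≤ 0.4) (ht1 : 1.283 ≤ t + κ) (ht2 : t + κ ≤ 1.303) :
    0.239 ≤ sy κ t ∧ sy κ t ≤ 0.268 := by
  have hy1 : 0.239 ≤ sy κ t := syR_ge h 0.38 0.4 1.283 0.239 1.26997 1.26998 0.7588 0.79876 hk1 hk2 (by linarith) (by norm_num) (by norm_num)
    (expn_ge (by norm_num) (by norm_num)) (expn_le (by norm_num) (by norm_num) (by norm_num)) (by norm_num)
    (by norm_num) (by norm_num) (by norm_num) (by norm_num) (by norm_num) (by norm_num)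
  have hy2 : sy κ t ≤ 0.268 := syR_ang2 h 0.38 0.4 1.303 1.066 0.4857 0.8756 0.268 0.76491 1.30734 hk1 hk2 (by linarith) (by norm_num) (by norm_num) (by norm_num)
    (cos_le_num (by norm_num)) (sin_le_num (by norm_num) (by norm_num)) (expm_le (by norm_num) (by norm_num) (by norm_num))
    (expn_ge (by norm_num) (by norm_num)) (by norm_num) (by norm_num) (by norm_num) (by norm_num) (by norm_num)
  exact ⟨hy1, hy2⟩

private theorem yB8 {κ t : ℝ} (h : DomR κ t) (hk1 : 0.38 ≤ κ) (hk2 : κ ≤ 0.4) (ht1 : -0.8114 ≤ t + κ) (ht2 : t + κ ≤ -0.79139) :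
    (-0.43) ≤ sy κ t ∧ sy κ t ≤ (-0.378) := by
  have hy1 : -0.43 ≤ sy κ t := syL_ang2 h 0.38 0.4 0.8114 0.774 0.7151 0.6991 0.43 1.53725 0.6505 hk1 hk2 (by linarith) (by norm_num) (by norm_num) (by norm_num) (by norm_num)
    (cos_ge_num (by norm_num) (by norm_num)) (sin_le_num (by norm_num) (by norm_num))
    (expn_ge (by norm_num) (by norm_num)) (expm_ge (by norm_num) (by norm_num) (by norm_num) (by norm_num)) (by norm_num) (by norm_num) (by norm_num)
    (by norm_num) (by norm_num) (by norm_num)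
  have hy2 : sy κ t ≤ -0.378 := syL_le h 0.38 0.4 0.79139 0.378 0.68523 0.68524 0.64754 0.68164 hk1 hk2 (by linarith) (by norm_num) (by norm_num) (by norm_num)
    (expm_ge (by norm_num) (by norm_num) (by norm_num) (by norm_num)) (expm_le (by norm_num) (by norm_num) (by norm_num)) (by norm_num)
    (by norm_num) (by norm_num) (by norm_num) (by norm_num) (by norm_num) (by norm_num)
  exact ⟨hy1, hy2⟩

theorem pc8 {β r h t κ : ℝ} (hh : h = 2 * Real.pi / (3 : ℕ)) (hβ : 0 < β) (hr : 10 ≤ r) (hκ : κ = β * r)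
    (hk1 : 0.38 ≤ κ) (hk2 : κ ≤ 0.4) (hT1 : 1.283 ≤ t + κ) (hT2 : t + κ ≤ 1.303) :
    Xf β r h t 0 ≠ 0 ∧ r * 0.1252 ≤ (Ld β r h t 1 - Ld β r h t 0).im ∧
      ‖(((-1 : ℤ) : ℂ) - 1) * Ld β r h t 0 - ((-1 : ℤ) : ℂ) * Ld β r h t 1‖ ≤ r * 7.62 := by
  obtain ⟨q1, q2, q3⟩ := b3_h hh
  have hR0 := b3_R0 hβ hr hκ
  have hR := b3_R hβ hr hκ (by linarith)
  have hD1 : DomR κ t := b3_dom (by linarith) (by linarith) (Or.inl (by linarith))
  have hD0 : DomR κ (t - h) := b3_dom (by linarith) (by linarith) (Or.inl (by linarith))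
  have y1 := yA8 hD1 hk1 hk2 (by linarith) (by linarith)
  have y0 := yB8 hD0 hk1 hk2 (by linarith) (by linarith)
  have j1 := T3_04_d1_2 hD1 hβ hk1 hk2 (by linarith) (by linarith) hR0 hR
  exact b3_piece 0.38 0.4 0.239 0.268 0.254 0.77569 0.78742 0.76491 0.315 1.5674 1.6297 0.08 0.06 0.06 0.7979 0.2008 0 0 (-0.43) (-0.378) (-0.404) 1.4978 1.53726 0.615 0.4807 0.05 0.15 0.155 3.5503 3.1493 0.794 1.0159 0.1252 7.62
    hβ hr hκ (by norm_num) hk1 hk2 hD1 hD0 j1 (j1 _ (by rw [sub_self, norm_zero]; norm_num))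
    (T3_04_d0_2 hD0 hβ hk1 hk2 (by linarith) (by linarith) hR0 hR)
    (T3_04_p0 hD0 hβ hk1 hk2 (by linarith) (by linarith) hR0 hR)
    y1.1 y1.2 y0.1 y0.2 (by norm_num)
    (ex_um 0.239 (by norm_num) (by norm_num) (by norm_num) (by norm_num)) (ex_um 0.268 (by norm_num) (by norm_num) (by norm_num) (by norm_num)) (ex_lm 0.254 (by norm_num) (by norm_num) (by norm_num) (by norm_num) (by norm_num)) (by norm_num) (by norm_num) (by norm_num) (by norm_num) (by norm_num) (by norm_num) (by norm_num) (by norm_num)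
    (by norm_num) (by norm_num) (by norm_num) (by norm_num) (by norm_num) (by norm_num) (by norm_num) (by norm_num) (by norm_num) (by norm_num)
    (ex_up 0.43 (by norm_num) (by norm_num) (by norm_num) (by norm_num)) (ex_lp 0.404 (by norm_num) (by norm_num) (by norm_num)) (by norm_num) (by norm_num) (by norm_num) (by norm_num) (by norm_num) (by norm_num)
    (by norm_num) (by norm_num) (by norm_num) (by norm_num) (by norm_num) (by norm_num) (by norm_num) (by norm_num) (by norm_num) (by norm_num) (by norm_num)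
    (by norm_num) (by norm_num) (by norm_num) (by norm_num)

private theorem yA9 {κ t : ℝ} (h : DomR κ t) (hk1 : 0.38 ≤ κ) (hk2 : κ ≤ 0.4) (ht1 : 1.303 ≤ t + κ) (ht2 : t + κ ≤ 1.323) :
    0.239 ≤ sy κ t ∧ sy κ t ≤ 0.27 := by
  have hy1 : 0.239 ≤ sy κ t := syR_ge h 0.38 0.4 1.303 0.239 1.26997 1.26998 0.7588 0.79876 hk1 hk2 (by linarith) (by norm_num) (by norm_num)
    (expn_ge (by norm_num) (by norm_num)) (expn_le (by norm_num) (by norm_num) (by norm_num)) (by norm_num)
    (by norm_num) (by norm_num) (by norm_num) (by norm_num) (by norm_num) (by norm_num)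
  have hy2 : sy κ t ≤ 0.27 := syR_ang2 h 0.38 0.4 1.323 1.084 0.4701 0.8842 0.27 0.76338 1.30996 hk1 hk2 (by linarith) (by norm_num) (by norm_num) (by norm_num)
    (cos_le_num (by norm_num)) (sin_le_num (by norm_num) (by norm_num)) (expm_le (by norm_num) (by norm_num) (by norm_num))
    (expn_ge (by norm_num) (by norm_num)) (by norm_num) (by norm_num) (by norm_num) (by norm_num) (by norm_num)
  exact ⟨hy1, hy2⟩

private theorem yB9 {κ t : ℝ} (h : DomR κ t) (hk1 : 0.38 ≤ κ) (hk2 : κ ≤ 0.4) (ht1 : -0.7914 ≤ t + κ) (ht2 : t + κ ≤ -0.77139) :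
    (-0.414) ≤ sy κ t ∧ sy κ t ≤ (-0.365) := by
  have hy1 : -0.414 ≤ sy κ t := syL_ang2 h 0.38 0.4 0.7914 0.753 0.7296 0.6839 0.414 1.51285 0.661 hk1 hk2 (by linarith) (by norm_num) (by norm_num) (by norm_num) (by norm_num)
    (cos_ge_num (by norm_num) (by norm_num)) (sin_le_num (by norm_num) (by norm_num))
    (expn_ge (by norm_num) (by norm_num)) (expm_ge (by norm_num) (by norm_num) (by norm_num) (by norm_num)) (by norm_num) (by norm_num) (by norm_num)
    (by norm_num) (by norm_num) (by norm_num)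
  have hy2 : sy κ t ≤ -0.365 := syL_le h 0.38 0.4 0.77139 0.365 0.69419 0.6942 0.63344 0.6668 hk1 hk2 (by linarith) (by norm_num) (by norm_num) (by norm_num)
    (expm_ge (by norm_num) (by norm_num) (by norm_num) (by norm_num)) (expm_le (by norm_num) (by norm_num) (by norm_num)) (by norm_num)
    (by norm_num) (by norm_num) (by norm_num) (by norm_num) (by norm_num) (by norm_num)
  exact ⟨hy1, hy2⟩

theorem pc9 {β r h t κ : ℝ} (hh : h = 2 * Real.pi / (3 : ℕ)) (hβ : 0 < β) (hr : 10 ≤ r) (hκ : κ = β * r)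
    (hk1 : 0.38 ≤ κ) (hk2 : κ ≤ 0.4) (hT1 : 1.303 ≤ t + κ) (hT2 : t + κ ≤ 1.323) :
    Xf β r h t 0 ≠ 0 ∧ r * 0.1252 ≤ (Ld β r h t 1 - Ld β r h t 0).im ∧
      ‖(((-1 : ℤ) : ℂ) - 1) * Ld β r h t 0 - ((-1 : ℤ) : ℂ) * Ld β r h t 1‖ ≤ r * 7.62 := by
  obtain ⟨q1, q2, q3⟩ := b3_h hh
  have hR0 := b3_R0 hβ hr hκ
  have hR := b3_R hβ hr hκ (by linarith)
  have hD1 : DomR κ t := b3_dom (by linarith) (by linarith) (Or.inl (by linarith))
  have hD0 : DomR κ (t - h) := b3_dom (by linarith) (by linarith) (Or.inl (by linarith))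
  have y1 := yA9 hD1 hk1 hk2 (by linarith) (by linarith)
  have y0 := yB9 hD0 hk1 hk2 (by linarith) (by linarith)
  have j1 := T3_04_d1_2 hD1 hβ hk1 hk2 (by linarith) (by linarith) hR0 hR
  exact b3_piece 0.38 0.4 0.239 0.27 0.255 0.77491 0.78742 0.76338 0.315 1.5674 1.6333 0.08 0.06 0.06 0.7979 0.2008 0 0 (-0.414) (-0.365) (-0.39) 1.47698 1.51286 0.6052 0.5021 0.05 0.15 0.155 3.5503 3.0323 0.7647 0.9218 0.1252 7.62
    hβ hr hκ (by norm_num) hk1 hk2 hD1 hD0 j1 (j1 _ (by rw [sub_self, norm_zero]; norm_num))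
    (T3_04_d0_2 hD0 hβ hk1 hk2 (by linarith) (by linarith) hR0 hR)
    (T3_04_p0 hD0 hβ hk1 hk2 (by linarith) (by linarith) hR0 hR)
    y1.1 y1.2 y0.1 y0.2 (by norm_num)
    (ex_um 0.239 (by norm_num) (by norm_num) (by norm_num) (by norm_num)) (ex_um 0.27 (by norm_num) (by norm_num) (by norm_num) (by norm_num)) (ex_lm 0.255 (by norm_num) (by norm_num) (by norm_num) (by norm_num) (by norm_num)) (by norm_num) (by norm_num) (by norm_num) (by norm_num) (by norm_num) (by norm_num) (by norm_num) (by norm_num)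
    (by norm_num) (by norm_num) (by norm_num) (by norm_num) (by norm_num) (by norm_num) (by norm_num) (by norm_num) (by norm_num) (by norm_num)
    (ex_up 0.414 (by norm_num) (by norm_num) (by norm_num) (by norm_num)) (ex_lp 0.39 (by norm_num) (by norm_num) (by norm_num)) (by norm_num) (by norm_num) (by norm_num) (by norm_num) (by norm_num) (by norm_num)
    (by norm_num) (by norm_num) (by norm_num) (by norm_num) (by norm_num) (by norm_num) (by norm_num) (by norm_num) (by norm_num) (by norm_num) (by norm_num)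
    (by norm_num) (by norm_num) (by norm_num) (by norm_num)

private theorem yA10 {κ t : ℝ} (h : DomR κ t) (hk1 : 0.38 ≤ κ) (hk2 : κ ≤ 0.4) (ht1 : 1.323 ≤ t + κ) (ht2 : t + κ ≤ 1.343) :
    0.239 ≤ sy κ t ∧ sy κ t ≤ 0.272 := by
  have hy1 : 0.239 ≤ sy κ t := syR_ge h 0.38 0.4 1.323 0.239 1.26997 1.26998 0.7588 0.79876 hk1 hk2 (by linarith) (by norm_num) (by norm_num)
    (expn_ge (by norm_num) (by norm_num)) (expn_le (by norm_num) (by norm_num) (by norm_num)) (by norm_num)
    (by norm_num) (by norm_num) (by norm_num) (by norm_num) (by norm_num) (by norm_num)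
  have hy2 : sy κ t ≤ 0.272 := syR_ang2 h 0.38 0.4 1.343 1.102 0.4543 0.8925 0.272 0.76186 1.31258 hk1 hk2 (by linarith) (by norm_num) (by norm_num) (by norm_num)
    (cos_le_num (by norm_num)) (sin_le_num (by norm_num) (by norm_num)) (expm_le (by norm_num) (by norm_num) (by norm_num))
    (expn_ge (by norm_num) (by norm_num)) (by norm_num) (by norm_num) (by norm_num) (by norm_num) (by norm_num)
  exact ⟨hy1, hy2⟩

private theorem yB10 {κ t : ℝ} (h : DomR κ t) (hk1 : 0.38 ≤ κ) (hk2 : κ ≤ 0.4) (ht1 : -0.7714 ≤ t + κ) (ht2 : t + κ ≤ -0.75139) :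
    (-0.398) ≤ sy κ t ∧ sy κ t ≤ (-0.352) := by
  have hy1 : -0.398 ≤ sy κ t := syL_ang2 h 0.38 0.4 0.7714 0.731 0.7445 0.6677 0.398 1.48884 0.67166 hk1 hk2 (by linarith) (by norm_num) (by norm_num) (by norm_num) (by norm_num)
    (cos_ge_num (by norm_num) (by norm_num)) (sin_le_num (by norm_num) (by norm_num))
    (expn_ge (by norm_num) (by norm_num)) (expm_ge (by norm_num) (by norm_num) (by norm_num) (by norm_num)) (by norm_num) (by norm_num) (by norm_num)
    (by norm_num) (by norm_num) (by norm_num)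
  have hy2 : sy κ t ≤ -0.352 := syL_le h 0.38 0.4 0.75139 0.352 0.70328 0.70329 0.61888 0.65147 hk1 hk2 (by linarith) (by norm_num) (by norm_num) (by norm_num)
    (expm_ge (by norm_num) (by norm_num) (by norm_num) (by norm_num)) (expm_le (by norm_num) (by norm_num) (by norm_num)) (by norm_num)
    (by norm_num) (by norm_num) (by norm_num) (by norm_num) (by norm_num) (by norm_num)
  exact ⟨hy1, hy2⟩

theorem pc10 {β r h t κ : ℝ} (hh : h = 2 * Real.pi / (3 : ℕ)) (hβ : 0 < β) (hr : 10 ≤ r) (hκ : κ = β * r)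
    (hk1 : 0.38 ≤ κ) (hk2 : κ ≤ 0.4) (hT1 : 1.323 ≤ t + κ) (hT2 : t + κ ≤ 1.343) :
    Xf β r h t 0 ≠ 0 ∧ r * 0.1252 ≤ (Ld β r h t 1 - Ld β r h t 0).im ∧
      ‖(((-1 : ℤ) : ℂ) - 1) * Ld β r h t 0 - ((-1 : ℤ) : ℂ) * Ld β r h t 1‖ ≤ r * 7.62 := by
  obtain ⟨q1, q2, q3⟩ := b3_h hh
  have hR0 := b3_R0 hβ hr hκ
  have hR := b3_R hβ hr hκ (by linarith)
  have hD1 : DomR κ t := b3_dom (by linarith) (by linarith) (Or.inl (by linarith))
  have hD0 : DomR κ (t - h) := b3_dom (by linarith) (by linarith) (Or.inl (by linarith))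
  have y1 := yA10 hD1 hk1 hk2 (by linarith) (by linarith)
  have y0 := yB10 hD0 hk1 hk2 (by linarith) (by linarith)
  have j1 := T3_04_d1_2 hD1 hβ hk1 hk2 (by linarith) (by linarith) hR0 hR
  exact b3_piece 0.38 0.4 0.239 0.272 0.256 0.77414 0.78742 0.76186 0.315 1.5674 1.6369 0.08 0.06 0.06 0.7979 0.2008 0 0 (-0.398) (-0.352) (-0.375) 1.45499 1.48885 0.5956 0.5237 0.05 0.15 0.155 3.5503 2.922 0.7374 0.8387 0.1252 7.62
    hβ hr hκ (by norm_num) hk1 hk2 hD1 hD0 j1 (j1 _ (by rw [sub_self, norm_zero]; norm_num))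
    (T3_04_d0_2 hD0 hβ hk1 hk2 (by linarith) (by linarith) hR0 hR)
    (T3_04_p0 hD0 hβ hk1 hk2 (by linarith) (by linarith) hR0 hR)
    y1.1 y1.2 y0.1 y0.2 (by norm_num)
    (ex_um 0.239 (by norm_num) (by norm_num) (by norm_num) (by norm_num)) (ex_um 0.272 (by norm_num) (by norm_num) (by norm_num) (by norm_num)) (ex_lm 0.256 (by norm_num) (by norm_num) (by norm_num) (by norm_num) (by norm_num)) (by norm_num) (by norm_num) (by norm_num) (by norm_num) (by norm_num) (by norm_num) (by norm_num) (by norm_num)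
    (by norm_num) (by norm_num) (by norm_num) (by norm_num) (by norm_num) (by norm_num) (by norm_num) (by norm_num) (by norm_num) (by norm_num)
    (ex_up 0.398 (by norm_num) (by norm_num) (by norm_num) (by norm_num)) (ex_lp 0.375 (by norm_num) (by norm_num) (by norm_num)) (by norm_num) (by norm_num) (by norm_num) (by norm_num) (by norm_num) (by norm_num)
    (by norm_num) (by norm_num) (by norm_num) (by norm_num) (by norm_num) (by norm_num) (by norm_num) (by norm_num) (by norm_num) (by norm_num) (by norm_num)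
    (by norm_num) (by norm_num) (by norm_num) (by norm_num)

private theorem yA11 {κ t : ℝ} (h : DomR κ t) (hk1 : 0.38 ≤ κ) (hk2 : κ ≤ 0.4) (ht1 : 1.343 ≤ t + κ) (ht2 : t + κ ≤ 1.362) :
    0.239 ≤ sy κ t ∧ sy κ t ≤ 0.274 := by
  have hy1 : 0.239 ≤ sy κ t := syR_ge h 0.38 0.4 1.343 0.239 1.26997 1.26998 0.7588 0.79876 hk1 hk2 (by linarith) (by norm_num) (by norm_num)
    (expn_ge (by norm_num) (by norm_num)) (expn_le (by norm_num) (by norm_num) (by norm_num)) (by norm_num)
    (by norm_num) (by norm_num) (by norm_num) (by norm_num) (by norm_num) (by norm_num)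
  have hy2 : sy κ t ≤ 0.274 := syR_ang2 h 0.38 0.4 1.362 1.12 0.4384 0.9006 0.274 0.76034 1.31521 hk1 hk2 (by linarith) (by norm_num) (by norm_num) (by norm_num)
    (cos_le_num (by norm_num)) (sin_le_num (by norm_num) (by norm_num)) (expm_le (by norm_num) (by norm_num) (by norm_num))
    (expn_ge (by norm_num) (by norm_num)) (by norm_num) (by norm_num) (by norm_num) (by norm_num) (by norm_num)
  exact ⟨hy1, hy2⟩

private theorem yB11 {κ t : ℝ} (h : DomR κ t) (hk1 : 0.38 ≤ κ) (hk2 : κ ≤ 0.4) (ht1 : -0.7514 ≤ t + κ) (ht2 : t + κ ≤ -0.73239) :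
    (-0.382) ≤ sy κ t ∧ sy κ t ≤ (-0.34) := by
  have hy1 : -0.382 ≤ sy κ t := syL_ang2 h 0.38 0.4 0.7514 0.709 0.759 0.6511 0.382 1.46521 0.68249 hk1 hk2 (by linarith) (by norm_num) (by norm_num) (by norm_num) (by norm_num)
    (cos_ge_num (by norm_num) (by norm_num)) (sin_le_num (by norm_num) (by norm_num))
    (expn_ge (by norm_num) (by norm_num)) (expm_ge (by norm_num) (by norm_num) (by norm_num) (by norm_num)) (by norm_num) (by norm_num) (by norm_num)
    (by norm_num) (by norm_num) (by norm_num)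
  have hy2 : sy κ t ≤ -0.34 := syL_le h 0.38 0.4 0.73239 0.34 0.71177 0.71178 0.605 0.63686 hk1 hk2 (by linarith) (by norm_num) (by norm_num) (by norm_num)
    (expm_ge (by norm_num) (by norm_num) (by norm_num) (by norm_num)) (expm_le (by norm_num) (by norm_num) (by norm_num)) (by norm_num)
    (by norm_num) (by norm_num) (by norm_num) (by norm_num) (by norm_num) (by norm_num)
  exact ⟨hy1, hy2⟩

theorem pc11 {β r h t κ : ℝ} (hh : h = 2 * Real.pi / (3 : ℕ)) (hβ : 0 < β) (hr : 10 ≤ r) (hκ : κ = β * r)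
    (hk1 : 0.38 ≤ κ) (hk2 : κ ≤ 0.4) (hT1 : 1.343 ≤ t + κ) (hT2 : t + κ ≤ 1.362) :
    Xf β r h t 0 ≠ 0 ∧ r * 0.1252 ≤ (Ld β r h t 1 - Ld β r h t 0).im ∧
      ‖(((-1 : ℤ) : ℂ) - 1) * Ld β r h t 0 - ((-1 : ℤ) : ℂ) * Ld β r h t 1‖ ≤ r * 7.62 := by
  obtain ⟨q1, q2, q3⟩ := b3_h hh
  have hR0 := b3_R0 hβ hr hκ
  have hR := b3_R hβ hr hκ (by linarith)
  have hD1 : DomR κ t := b3_dom (by linarith) (by linarith) (Or.inl (by linarith))
  have hD0 : DomR κ (t - h) := b3_dom (by linarith) (by linarith) (Or.inl (by linarith))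
  have y1 := yA11 hD1 hk1 hk2 (by linarith) (by linarith)
  have y0 := yB11 hD0 hk1 hk2 (by linarith) (by linarith)
  have j1 := T3_04_d1_2 hD1 hβ hk1 hk2 (by linarith) (by linarith) hR0 hR
  exact b3_piece 0.38 0.4 0.239 0.274 0.257 0.77336 0.78742 0.76034 0.315 1.5674 1.6405 0.08 0.06 0.06 0.7979 0.2008 0 0 (-0.382) (-0.34) (-0.361) 1.43476 1.46522 0.5861 0.5457 0.05 0.15 0.155 3.5503 2.8169 0.7095 0.7621 0.1252 7.62
    hβ hr hκ (by norm_num) hk1 hk2 hD1 hD0 j1 (j1 _ (by rw [sub_self, norm_zero]; norm_num))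
    (T3_04_d0_2 hD0 hβ hk1 hk2 (by linarith) (by linarith) hR0 hR)
    (T3_04_p0 hD0 hβ hk1 hk2 (by linarith) (by linarith) hR0 hR)
    y1.1 y1.2 y0.1 y0.2 (by norm_num)
    (ex_um 0.239 (by norm_num) (by norm_num) (by norm_num) (by norm_num)) (ex_um 0.274 (by norm_num) (by norm_num) (by norm_num) (by norm_num)) (ex_lm 0.257 (by norm_num) (by norm_num) (by norm_num) (by norm_num) (by norm_num)) (by norm_num) (by norm_num) (by norm_num) (by norm_num) (by norm_num) (by norm_num) (by norm_num) (by norm_num)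
    (by norm_num) (by norm_num) (by norm_num) (by norm_num) (by norm_num) (by norm_num) (by norm_num) (by norm_num) (by norm_num) (by norm_num)
    (ex_up 0.382 (by norm_num) (by norm_num) (by norm_num) (by norm_num)) (ex_lp 0.361 (by norm_num) (by norm_num) (by norm_num)) (by norm_num) (by norm_num) (by norm_num) (by norm_num) (by norm_num) (by norm_num)
    (by norm_num) (by norm_num) (by norm_num) (by norm_num) (by norm_num) (by norm_num) (by norm_num) (by norm_num) (by norm_num) (by norm_num) (by norm_num)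
    (by norm_num) (by norm_num) (by norm_num) (by norm_num)

private theorem yA12 {κ t : ℝ} (h : DomR κ t) (hk1 : 0.38 ≤ κ) (hk2 : κ ≤ 0.4) (ht1 : 1.362 ≤ t + κ) (ht2 : t + κ ≤ 1.382) :
    0.239 ≤ sy κ t ∧ sy κ t ≤ 0.275 := by
  have hy1 : 0.239 ≤ sy κ t := syR_ge h 0.38 0.4 1.362 0.239 1.26997 1.26998 0.7588 0.79876 hk1 hk2 (by linarith) (by norm_num) (by norm_num)
    (expn_ge (by norm_num) (by norm_num)) (expn_le (by norm_num) (by norm_num) (by norm_num)) (by norm_num)
    (by norm_num) (by norm_num) (by norm_num) (by norm_num) (by norm_num) (by norm_num)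
  have hy2 : sy κ t ≤ 0.275 := syR_ang2 h 0.38 0.4 1.382 1.13 0.4295 0.9049 0.275 0.75958 1.31653 hk1 hk2 (by linarith) (by norm_num) (by norm_num) (by norm_num)
    (cos_le_num (by norm_num)) (sin_le_num (by norm_num) (by norm_num)) (expm_le (by norm_num) (by norm_num) (by norm_num))
    (expn_ge (by norm_num) (by norm_num)) (by norm_num) (by norm_num) (by norm_num) (by norm_num) (by norm_num)
  exact ⟨hy1, hy2⟩

private theorem yB12 {κ t : ℝ} (h : DomR κ t) (hk1 : 0.38 ≤ κ) (hk2 : κ ≤ 0.4) (ht1 : -0.7324 ≤ t + κ) (ht2 : t + κ ≤ -0.71239) :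
    (-0.368) ≤ sy κ t ∧ sy κ t ≤ (-0.327) := by
  have hy1 : -0.368 ≤ sy κ t := syL_ang2 h 0.38 0.4 0.7324 0.69 0.7712 0.6366 0.368 1.44484 0.69211 hk1 hk2 (by linarith) (by norm_num) (by norm_num) (by norm_num) (by norm_num)
    (cos_ge_num (by norm_num) (by norm_num)) (sin_le_num (by norm_num) (by norm_num))
    (expn_ge (by norm_num) (by norm_num)) (expm_ge (by norm_num) (by norm_num) (by norm_num) (by norm_num)) (by norm_num) (by norm_num) (by norm_num)
    (by norm_num) (by norm_num) (by norm_num)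
  have hy2 : sy κ t ≤ -0.327 := syL_le h 0.38 0.4 0.71239 0.327 0.72108 0.72109 0.58948 0.62052 hk1 hk2 (by linarith) (by norm_num) (by norm_num) (by norm_num)
    (expm_ge (by norm_num) (by norm_num) (by norm_num) (by norm_num)) (expm_le (by norm_num) (by norm_num) (by norm_num)) (by norm_num)
    (by norm_num) (by norm_num) (by norm_num) (by norm_num) (by norm_num) (by norm_num)
  exact ⟨hy1, hy2⟩

theorem pc12 {β r h t κ : ℝ} (hh : h = 2 * Real.pi / (3 : ℕ)) (hβ : 0 < β) (hr : 10 ≤ r) (hκ : κ = β * r)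
    (hk1 : 0.38 ≤ κ) (hk2 : κ ≤ 0.4) (hT1 : 1.362 ≤ t + κ) (hT2 : t + κ ≤ 1.382) :
    Xf β r h t 0 ≠ 0 ∧ r * 0.1252 ≤ (Ld β r h t 1 - Ld β r h t 0).im ∧
      ‖(((-1 : ℤ) : ℂ) - 1) * Ld β r h t 0 - ((-1 : ℤ) : ℂ) * Ld β r h t 1‖ ≤ r * 7.62 := by
  obtain ⟨q1, q2, q3⟩ := b3_h hh
  have hR0 := b3_R0 hβ hr hκ
  have hR := b3_R hβ hr hκ (by linarith)
  have hD1 : DomR κ t := b3_dom (by linarith) (by linarith) (Or.inl (by linarith))
  have hD0 : DomR κ (t - h) := b3_dom (by linarith) (by linarith) (Or.inl (by linarith))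
  have y1 := yA12 hD1 hk1 hk2 (by linarith) (by linarith)
  have y0 := yB12 hD0 hk1 hk2 (by linarith) (by linarith)
  have j1 := T3_04_d1_2 hD1 hβ hk1 hk2 (by linarith) (by linarith) hR0 hR
  exact b3_piece 0.38 0.4 0.239 0.275 0.257 0.77336 0.78742 0.75958 0.315 1.5674 1.6424 0.08 0.06 0.06 0.7979 0.2008 0 0 (-0.368) (-0.327) (-0.347) 1.41481 1.44485 0.578 0.5651 0.05 0.15 0.155 3.5503 2.7298 0.691 0.7068 0.1252 7.62
    hβ hr hκ (by norm_num) hk1 hk2 hD1 hD0 j1 (j1 _ (by rw [sub_self, norm_zero]; norm_num))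
    (T3_04_d0_2 hD0 hβ hk1 hk2 (by linarith) (by linarith) hR0 hR)
    (T3_04_p0 hD0 hβ hk1 hk2 (by linarith) (by linarith) hR0 hR)
    y1.1 y1.2 y0.1 y0.2 (by norm_num)
    (ex_um 0.239 (by norm_num) (by norm_num) (by norm_num) (by norm_num)) (ex_um 0.275 (by norm_num) (by norm_num) (by norm_num) (by norm_num)) (ex_lm 0.257 (by norm_num) (by norm_num) (by norm_num) (by norm_num) (by norm_num)) (by norm_num) (by norm_num) (by norm_num) (by norm_num) (by norm_num) (by norm_num) (by norm_num) (by norm_num)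
    (by norm_num) (by norm_num) (by norm_num) (by norm_num) (by norm_num) (by norm_num) (by norm_num) (by norm_num) (by norm_num) (by norm_num)
    (ex_up 0.368 (by norm_num) (by norm_num) (by norm_num) (by norm_num)) (ex_lp 0.347 (by norm_num) (by norm_num) (by norm_num)) (by norm_num) (by norm_num) (by norm_num) (by norm_num) (by norm_num) (by norm_num)
    (by norm_num) (by norm_num) (by norm_num) (by norm_num) (by norm_num) (by norm_num) (by norm_num) (by norm_num) (by norm_num) (by norm_num) (by norm_num)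
    (by norm_num) (by norm_num) (by norm_num) (by norm_num)

theorem innS {β r h t κ : ℝ} (hh : h = 2 * Real.pi / (3 : ℕ)) (hβ : 0 < β) (hr : 10 ≤ r) (hκ : κ = β * r)
    (hk1 : 0.38 ≤ κ) (hk2 : κ ≤ 0.4) (hT1 : 1.144 ≤ t + κ) (hT2 : t + κ ≤ 1.382) :
    Xf β r h t 0 ≠ 0 ∧ r * 0.1252 ≤ (Ld β r h t 1 - Ld β r h t 0).im ∧
      ‖(((-1 : ℤ) : ℂ) - 1) * Ld β r h t 0 - ((-1 : ℤ) : ℂ) * Ld β r h t 1‖ ≤ r * 7.62 := by
  rcases le_total (t + κ) 1.159 with f0 | g0
  · exact pc0 hh hβ hr hκ hk1 hk2 hT1 f0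
  rcases le_total (t + κ) 1.174 with f1 | g1
  · exact pc1 hh hβ hr hκ hk1 hk2 g0 f1
  rcases le_total (t + κ) 1.192 with f2 | g2
  · exact pc2 hh hβ hr hκ hk1 hk2 g1 f2
  rcases le_total (t + κ) 1.209 with f3 | g3
  · exact pc3 hh hβ hr hκ hk1 hk2 g2 f3
  rcases le_total (t + κ) 1.226 with f4 | g4
  · exact pc4 hh hβ hr hκ hk1 hk2 g3 f4
  rcases le_total (t + κ) 1.244 with f5 | g5
  · exact pc5 hh hβ hr hκ hk1 hk2 g4 f5
  rcases le_total (t + κ) 1.264 with f6 | g6
  · exact pc6 hh hβ hr hκ hk1 hk2 g5 f6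
  rcases le_total (t + κ) 1.283 with f7 | g7
  · exact pc7 hh hβ hr hκ hk1 hk2 g6 f7
  rcases le_total (t + κ) 1.303 with f8 | g8
  · exact pc8 hh hβ hr hκ hk1 hk2 g7 f8
  rcases le_total (t + κ) 1.323 with f9 | g9
  · exact pc9 hh hβ hr hκ hk1 hk2 g8 f9
  rcases le_total (t + κ) 1.343 with f10 | g10
  · exact pc10 hh hβ hr hκ hk1 hk2 g9 f10
  rcases le_total (t + κ) 1.362 with f11 | g11
  · exact pc11 hh hβ hr hκ hk1 hk2 g10 f11
  exact pc12 hh hβ hr hκ hk1 hk2 g11 hT2

theorem circ {p : ℤ} (hp : IsCoprime (3 : ℤ) p) {β r : ℝ} (hβ : 0 < β) (hr : 10 ≤ r) (hk1 : 0.38 ≤ β * r)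
    (hk2 : β * r ≤ 0.4) : Circ (2 * Real.pi * p / (3 : ℕ) + β) r := by
  obtain ⟨κ, hκ⟩ : ∃ κ, κ = β * r := ⟨_, rfl⟩
  rw [← hκ] at hk1 hk2
  refine circ3 hp hr (h := 2 * Real.pi / (3 : ℕ)) (κ := κ) rfl 1.144 1.382 1.0148 0.1252 0.00964 0.00964 7.62 (by norm_num) (by norm_num) (by norm_num)
    (by norm_num) (by norm_num) ?_ ?_ ?_ ?_ ?_ (by norm_num) (by norm_num)
  · intro t h1 h2
    exact (innS rfl hβ hr hκ hk1 hk2 h1 h2).1
  · intro t h1 h2
    exact (innE rfl hβ hr hκ hk1 hk2 h1 h2).1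
  · intro t h1 h2
    exact (innE rfl hβ hr hκ hk1 hk2 h1 h2).2
  · intro t h1 h2
    exact (innS rfl hβ hr hκ hk1 hk2 h1 h2).2
  · intro t h1 h2 h3
    rcases h3 with h3 | h3
    · rcases le_total (t + κ) 1.135 with g | g
      · exact left rfl hβ hr hκ hk1 hk2 h1 g
      · exact middle rfl hβ hr hκ hk1 hk2 g h3
    · exact right0 rfl hβ hr hκ hk1 hk2 h3 h2

end B3_04

end Sok
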