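import Pool.Agent.Lib.MP_816dec_an.JBG2

/-!
MP_816dec_an (A3, row R1): b = 3, J tables of the cell 05.
-/

set_option autoImplicit false
set_option maxHeartbeats 4000000

open Complex Set

namespace Sok

private theorem T3_05_p1_b0_0 {β x y : ℝ} (hβ : 0 < β) (hN : β * 23.809 ≤ 1) (hx1 : 0.2193 ≤ x) (hx2 : x ≤ 0.4201)
    (hy1 : -0 ≤ y) (hy2 : y ≤ 0.23) : ‖HH β (x + y * I) - 1‖ ≤ 0.015 := by
  refine le_epsJ (C := 0.3492) (N0 := 23.809) (J_boxp 0.2193 0.4201 0 0.23 0.23 0.8644 0.479 1.2998 1.4187 0.4549 4.8795 23.809 0.5542 2.044 1.279 1.2585 0.4321 0.3523 1.0833 3.8453 0.438 0.7801 1.0228 2.7648 0.00003408 0.0002279 0.0000003101 0.0000003101 0.0000296 0.0000003101 0.0000003101 0.0000003101 0.3492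
    hβ hN hx1 hx2 hy1 hy2 (by norm_num) (by norm_num) (by linarith) (by norm_num) (by norm_num) (by norm_num) (by norm_num) (by norm_num) (by norm_num) (by norm_num) (by norm_num) (by norm_num) (by norm_num) (by norm_num) (by norm_num) (by norm_num) (by norm_num) (by norm_num) (by norm_num) (by norm_num) (by norm_num) (by norm_num) (by norm_num) (by norm_num)
    (cube_sqrt_geJ (s := 0.9029) (by norm_num) (by norm_num) (by norm_num) (by norm_num))
    (cube_sqrt_geJ (s := 0.9654) (by norm_num) (by norm_num) (by norm_num) (by norm_num))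
    (by norm_num) (by norm_num) (by norm_num) (by norm_num) (by norm_num) (by norm_num) (by norm_num) (by norm_num) (by norm_num) (by norm_num) (by norm_num) (by norm_num) (by norm_num) (by norm_num) (by norm_num) (by norm_num) (by norm_num) (by norm_num)
    (exp_neg_leJ (r := 0.287) 10 (by norm_num) (by norm_num) (by norm_num) (by norm_num))
    (exp_neg_leJ (r := 0.387) 8 (by norm_num) (by norm_num) (by norm_num) (by norm_num))
    (exp_neg_leJ (r := 0.99) 14 (by norm_num) (by norm_num) (by norm_num) (by norm_num))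
    (exp_neg_leJ (r := 0.99) 14 (by norm_num) (by norm_num) (by norm_num) (by norm_num))
    (exp_neg_leJ (r := 0.428) 10 (by norm_num) (by norm_num) (by norm_num) (by norm_num))
    (exp_neg_leJ (r := 0.99) 14 (by norm_num) (by norm_num) (by norm_num) (by norm_num))
    (exp_neg_leJ (r := 0.99) 14 (by norm_num) (by norm_num) (by norm_num) (by norm_num))
    (exp_neg_leJ (r := 0.99) 14 (by norm_num) (by norm_num) (by norm_num) (by norm_num))
    (by norm_num)) (by norm_num) hN hβ.le (by norm_num)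

private theorem T3_05_p1_b0_1 {β x y : ℝ} (hβ : 0 < β) (hN : β * 23.809 ≤ 1) (hx1 : 0.1615 ≤ x) (hx2 : x ≤ 0.2418)
    (hy1 : -0 ≤ y) (hy2 : y ≤ 0.262) : ‖HH β (x + y * I) - 1‖ ≤ 0.015 := by
  refine le_epsJ (C := 0.2408) (N0 := 23.809) (J_boxp 0.1615 0.2418 0 0.262 0.262 0.8237 0.3566 1.285 1.5164 0.4523 4.8795 23.809 0.433 1.726 1.211 1.3271 0.4118 0.3524 1.0635 3.9332 0.4067 0.6968 0.7699 2.8311 0.00005532 0.0002272 0.0000003101 0.0000003101 0.00006238 0.0000003101 0.0000003101 0.0000003101 0.2408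
    hβ hN hx1 hx2 hy1 hy2 (by norm_num) (by norm_num) (by linarith) (by norm_num) (by norm_num) (by norm_num) (by norm_num) (by norm_num) (by norm_num) (by norm_num) (by norm_num) (by norm_num) (by norm_num) (by norm_num) (by norm_num) (by norm_num) (by norm_num) (by norm_num) (by norm_num) (by norm_num) (by norm_num) (by norm_num) (by norm_num) (by norm_num)
    (cube_sqrt_geJ (s := 0.925) (by norm_num) (by norm_num) (by norm_num) (by norm_num))
    (cube_sqrt_geJ (s := 0.9731) (by norm_num) (by norm_num) (by norm_num) (by norm_num))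
    (by norm_num) (by norm_num) (by norm_num) (by norm_num) (by norm_num) (by norm_num) (by norm_num) (by norm_num) (by norm_num) (by norm_num) (by norm_num) (by norm_num) (by norm_num) (by norm_num) (by norm_num) (by norm_num) (by norm_num) (by norm_num)
    (exp_neg_leJ (r := 0.804) 9 (by norm_num) (by norm_num) (by norm_num) (by norm_num))
    (exp_neg_leJ (r := 0.39) 8 (by norm_num) (by norm_num) (by norm_num) (by norm_num))
    (exp_neg_leJ (r := 0.99) 14 (by norm_num) (by norm_num) (by norm_num) (by norm_num))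
    (exp_neg_leJ (r := 0.99) 14 (by norm_num) (by norm_num) (by norm_num) (by norm_num))
    (exp_neg_leJ (r := 0.683) 9 (by norm_num) (by norm_num) (by norm_num) (by norm_num))
    (exp_neg_leJ (r := 0.99) 14 (by norm_num) (by norm_num) (by norm_num) (by norm_num))
    (exp_neg_leJ (r := 0.99) 14 (by norm_num) (by norm_num) (by norm_num) (by norm_num))
    (exp_neg_leJ (r := 0.99) 14 (by norm_num) (by norm_num) (by norm_num) (by norm_num))
    (by norm_num)) (by norm_num) hN hβ.le (by norm_num)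

private theorem T3_05_p1_c0 {κ t β : ℝ} (h : DomR κ t) (hβ : 0 < β) (hk1 : 0.4 ≤ κ) (hk2 : κ ≤ 0.42)
    (ht1 : 0 ≤ t + κ) (ht2 : t + κ ≤ 1.158) (hR0 : β * 10 ≤ κ) (hR : β * (1 * (1 + κ ^ 2)) ≤ κ) :
    ‖HH β (sg κ t) - 1‖ ≤ 0.015 := by
  have hN : β * 23.809 ≤ 1 := bNR hβ h.1 hk2 hR0 (by norm_num)
  have hy1 : 0 ≤ sy κ t := sy_nonneg h (by linarith)
  have hy2 : sy κ t ≤ 0.262 := syR_ang2 h 0.4 0.42 1.158 0.944 0.5876 0.8101 0.262 0.76952 1.29952 hk1 hk2 (by linarith) (by norm_num) (by norm_num) (by norm_num)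
    (cos_le_num (by norm_num)) (sin_le_num (by norm_num) (by norm_num)) (expm_le (by norm_num) (by norm_num) (by norm_num))
    (expn_ge (by norm_num) (by norm_num)) (by norm_num) (by norm_num) (by norm_num) (by norm_num) (by norm_num)
  rcases le_total (sy κ t) 0.23 with f0 | g0
  · have hx1 : 0.2193 ≤ sx κ t := sx_lo h 0.4 0.23 0.23 0.79453 0.2193 hk1 (by norm_num) f0 (abs_le.2 ⟨by linarith, by linarith⟩) (expm_ge (by norm_num) (by norm_num) (by norm_num) (by norm_num)) (by norm_num) (by norm_num)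
    have hx2 : sx κ t ≤ 0.4201 := sx_hi h 0.42 0 0 1 0.4201 hk2 hy1 (by norm_num) (abs_nonneg _) (by simp) (by norm_num) (by norm_num)
    exact T3_05_p1_b0_0 hβ hN hx1 hx2 (by linarith) (by linarith)
  have hx1 : 0.1615 ≤ sx κ t := sx_lo h 0.4 0.262 0.262 0.76951 0.1615 hk1 (by norm_num) hy2 (abs_le.2 ⟨by linarith, by linarith⟩) (expm_ge (by norm_num) (by norm_num) (by norm_num) (by norm_num)) (by norm_num) (by norm_num)
  have hx2 : sx κ t ≤ 0.2418 := sx_hi h 0.42 0.23 0.23 0.79454 0.2418 hk2 g0 (by norm_num) (by rw [abs_of_nonneg (by linarith)]; linarith) (expm_le (by norm_num) (by norm_num) (by norm_num)) (by norm_num) (by norm_num)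
  exact T3_05_p1_b0_1 hβ hN hx1 hx2 (by linarith) (by linarith)

theorem T3_05_p1 {κ t β : ℝ} (h : DomR κ t) (hβ : 0 < β) (hk1 : 0.4 ≤ κ) (hk2 : κ ≤ 0.42)
    (ht1 : 0 ≤ t + κ) (ht2 : t + κ ≤ 1.158) (hR0 : β * 10 ≤ κ) (hR : β * (1 * (1 + κ ^ 2)) ≤ κ) :
    ‖HH β (sg κ t) - 1‖ ≤ 0.015 := by
  exact T3_05_p1_c0 h hβ hk1 hk2 ht1 ht2 hR0 hR

private theorem T3_05_p0m_b0_0 {β x y : ℝ} (hβ : 0 < β) (hN : β * 24.39 ≤ 1) (hx1 : 0.3984 ≤ x) (hx2 : x ≤ 0.4658)
    (hy1 : -0.581 ≤ y) (hy2 : y ≤ -0.566) : ‖HH β (x + y * I) - 1‖ ≤ 0.185 := by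
  refine le_epsJ (C := 4.4288) (N0 := 24.39) (J_boxp 0.3984 0.4658 0.581 0 (-0.566) 0.578 0.7447 0.6367 1.8159 0.3184 4.9387 24.39 1.2885 7.131 1.824 0.7046 0.2889 0.1648 0.2275 1.9359 0.2311 1.0516 0.7881 3.4845 0.0008709 0.01798 0.003897 0.0000003101 0.003569 0.0000003101 0.0000003101 0.0000003101 4.4288
    hβ hN hx1 hx2 hy1 hy2 (by norm_num) (by norm_num) (by linarith) (by norm_num) (by norm_num) (by norm_num) (by norm_num) (by norm_num) (by norm_num) (by norm_num) (by norm_num) (by norm_num) (by norm_num) (by norm_num) (by norm_num) (by norm_num) (by norm_num) (by norm_num) (by norm_num) (by norm_num) (by norm_num) (by norm_num) (by norm_num) (by norm_num)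
    (cube_sqrt_geJ (s := 0.7553) (by norm_num) (by norm_num) (by norm_num) (by norm_num))
    (cube_sqrt_geJ (s := 0.9177) (by norm_num) (by norm_num) (by norm_num) (by norm_num))
    (by norm_num) (by norm_num) (by norm_num) (by norm_num) (by norm_num) (by norm_num) (by norm_num) (by norm_num) (by norm_num) (by norm_num) (by norm_num) (by norm_num) (by norm_num) (by norm_num) (by norm_num) (by norm_num) (by norm_num) (by norm_num)
    (exp_neg_leJ (r := 0.046) 7 (by norm_num) (by norm_num) (by norm_num) (by norm_num))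
    (exp_neg_leJ (r := 0.019) 4 (by norm_num) (by norm_num) (by norm_num) (by norm_num))
    (exp_neg_leJ (r := 0.548) 5 (by norm_num) (by norm_num) (by norm_num) (by norm_num))
    (exp_neg_leJ (r := 0.99) 14 (by norm_num) (by norm_num) (by norm_num) (by norm_num))
    (exp_neg_leJ (r := 0.636) 5 (by norm_num) (by norm_num) (by norm_num) (by norm_num))
    (exp_neg_leJ (r := 0.99) 14 (by norm_num) (by norm_num) (by norm_num) (by norm_num))
    (exp_neg_leJ (r := 0.99) 14 (by norm_num) (by norm_num) (by norm_num) (by norm_num))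
    (exp_neg_leJ (r := 0.99) 14 (by norm_num) (by norm_num) (by norm_num) (by norm_num))
    (by norm_num)) (by norm_num) hN hβ.le (by norm_num)

private theorem T3_05_p0m_b0_1 {β x y : ℝ} (hβ : 0 < β) (hN : β * 24.39 ≤ 1) (hx1 : 0.3895 ≤ x) (hx2 : x ≤ 0.4783)
    (hy1 : -0.566 ≤ y) (hy2 : y ≤ -0.541) : ‖HH β (x + y * I) - 1‖ ≤ 0.185 := by
  refine le_epsJ (C := 4.2589) (N0 := 24.39) (J_boxp 0.3895 0.4783 0.566 0 (-0.541) 0.5824 0.7411 0.663 1.832 0.3249 4.9387 24.39 1.2725 6.903 1.81 0.7136 0.2911 0.1676 0.2482 1.9801 0.235 1.0393 0.8111 3.4765 0.000826 0.01679 0.002351 0.0000003101 0.003247 0.0000003101 0.0000003101 0.0000003101 4.2589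
    hβ hN hx1 hx2 hy1 hy2 (by norm_num) (by norm_num) (by linarith) (by norm_num) (by norm_num) (by norm_num) (by norm_num) (by norm_num) (by norm_num) (by norm_num) (by norm_num) (by norm_num) (by norm_num) (by norm_num) (by norm_num) (by norm_num) (by norm_num) (by norm_num) (by norm_num) (by norm_num) (by norm_num) (by norm_num) (by norm_num) (by norm_num)
    (cube_sqrt_geJ (s := 0.7588) (by norm_num) (by norm_num) (by norm_num) (by norm_num))
    (cube_sqrt_geJ (s := 0.9188) (by norm_num) (by norm_num) (by norm_num) (by norm_num))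
    (by norm_num) (by norm_num) (by norm_num) (by norm_num) (by norm_num) (by norm_num) (by norm_num) (by norm_num) (by norm_num) (by norm_num) (by norm_num) (by norm_num) (by norm_num) (by norm_num) (by norm_num) (by norm_num) (by norm_num) (by norm_num)
    (exp_neg_leJ (r := 0.099) 7 (by norm_num) (by norm_num) (by norm_num) (by norm_num))
    (exp_neg_leJ (r := 0.087) 4 (by norm_num) (by norm_num) (by norm_num) (by norm_num))
    (exp_neg_leJ (r := 0.053) 6 (by norm_num) (by norm_num) (by norm_num) (by norm_num))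
    (exp_neg_leJ (r := 0.99) 14 (by norm_num) (by norm_num) (by norm_num) (by norm_num))
    (exp_neg_leJ (r := 0.731) 5 (by norm_num) (by norm_num) (by norm_num) (by norm_num))
    (exp_neg_leJ (r := 0.99) 14 (by norm_num) (by norm_num) (by norm_num) (by norm_num))
    (exp_neg_leJ (r := 0.99) 14 (by norm_num) (by norm_num) (by norm_num) (by norm_num))
    (exp_neg_leJ (r := 0.99) 14 (by norm_num) (by norm_num) (by norm_num) (by norm_num))
    (by norm_num)) (by norm_num) hN hβ.le (by norm_num)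

private theorem T3_05_p0m_b0_2 {β x y : ℝ} (hβ : 0 < β) (hN : β * 24.39 ≤ 1) (hx1 : 0.3977 ≤ x) (hx2 : x ≤ 0.4772)
    (hy1 : -0.541 ≤ y) (hy2 : y ≤ -0.518) : ‖HH β (x + y * I) - 1‖ ≤ 0.185 := by
  refine le_epsJ (C := 3.1874) (N0 := 24.39) (J_boxp 0.3977 0.4772 0.541 0 (-0.518) 0.6059 0.7214 0.6783 1.7463 0.3286 4.9387 24.39 1.1907 5.871 1.736 0.7371 0.3029 0.1827 0.2904 2.0642 0.2526 1.0506 0.8954 3.5465 0.0006193 0.01162 0.0008401 0.0000003101 0.002113 0.0000003101 0.0000003101 0.0000003101 3.1874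
    hβ hN hx1 hx2 hy1 hy2 (by norm_num) (by norm_num) (by linarith) (by norm_num) (by norm_num) (by norm_num) (by norm_num) (by norm_num) (by norm_num) (by norm_num) (by norm_num) (by norm_num) (by norm_num) (by norm_num) (by norm_num) (by norm_num) (by norm_num) (by norm_num) (by norm_num) (by norm_num) (by norm_num) (by norm_num) (by norm_num) (by norm_num)
    (cube_sqrt_geJ (s := 0.7765) (by norm_num) (by norm_num) (by norm_num) (by norm_num))
    (cube_sqrt_geJ (s := 0.9242) (by norm_num) (by norm_num) (by norm_num) (by norm_num))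
    (by norm_num) (by norm_num) (by norm_num) (by norm_num) (by norm_num) (by norm_num) (by norm_num) (by norm_num) (by norm_num) (by norm_num) (by norm_num) (by norm_num) (by norm_num) (by norm_num) (by norm_num) (by norm_num) (by norm_num) (by norm_num)
    (exp_neg_leJ (r := 0.387) 7 (by norm_num) (by norm_num) (by norm_num) (by norm_num))
    (exp_neg_leJ (r := 0.456) 4 (by norm_num) (by norm_num) (by norm_num) (by norm_num))
    (exp_neg_leJ (r := 0.082) 7 (by norm_num) (by norm_num) (by norm_num) (by norm_num))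
    (exp_neg_leJ (r := 0.99) 14 (by norm_num) (by norm_num) (by norm_num) (by norm_num))
    (exp_neg_leJ (r := 0.16) 6 (by norm_num) (by norm_num) (by norm_num) (by norm_num))
    (exp_neg_leJ (r := 0.99) 14 (by norm_num) (by norm_num) (by norm_num) (by norm_num))
    (exp_neg_leJ (r := 0.99) 14 (by norm_num) (by norm_num) (by norm_num) (by norm_num))
    (exp_neg_leJ (r := 0.99) 14 (by norm_num) (by norm_num) (by norm_num) (by norm_num))
    (by norm_num)) (by norm_num) hN hβ.le (by norm_num)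

private theorem T3_05_p0m_c0 {κ t β : ℝ} (h : DomR κ t) (hβ : 0 < β) (hk1 : 0.4 ≤ κ) (hk2 : κ ≤ 0.41)
    (ht1 : -0.9504 ≤ t + κ) (ht2 : t + κ ≤ -0.93639) (hR0 : β * 10 ≤ κ) (hR : β * (1 * (1 + κ ^ 2)) ≤ κ) :
    ‖HH β (sg κ t) - 1‖ ≤ 0.185 := by
  have hN : β * 24.39 ≤ 1 := bNR hβ h.1 hk2 hR0 (by norm_num)
  have hy1 : -0.581 ≤ sy κ t := syL_ang2 h 0.4 0.41 0.9504 0.914 0.6105 0.7921 0.581 1.78782 0.55933 hk1 hk2 (by linarith) (by norm_num) (by norm_num) (by norm_num) (by norm_num)
    (cos_ge_num (by norm_num) (by norm_num)) (sin_le_num (by norm_num) (by norm_num))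
    (expn_ge (by norm_num) (by norm_num)) (expm_ge (by norm_num) (by norm_num) (by norm_num) (by norm_num)) (by norm_num) (by norm_num) (by norm_num)
    (by norm_num) (by norm_num) (by norm_num)
  have hy2 : sy κ t ≤ -0.518 := syL_le h 0.4 0.41 0.93639 0.518 0.59571 0.59572 0.75262 0.77146 hk1 hk2 (by linarith) (by norm_num) (by norm_num) (by norm_num)
    (expm_ge (by norm_num) (by norm_num) (by norm_num) (by norm_num)) (expm_le (by norm_num) (by norm_num) (by norm_num)) (by norm_num)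
    (by norm_num) (by norm_num) (by norm_num) (by norm_num) (by norm_num) (by norm_num)
  rcases le_total (sy κ t) (-0.566) with f0 | g0
  · have hx1 : 0.3984 ≤ sx κ t := sx_lo h 0.4 (-0.566) 0.581 1.7612 0.3984 hk1 (by norm_num) f0 (abs_le.2 ⟨by linarith, by linarith⟩) (by rw [neg_neg]; exact expn_ge (by norm_num) (by norm_num)) (by norm_num) (by norm_num)
    have hx2 : sx κ t ≤ 0.4658 := sx_hi h 0.41 (-0.581) 0.566 1.78783 0.4658 hk2 hy1 (by norm_num) (by rw [abs_of_nonpos (by linarith)]; linarith) (by rw [neg_neg]; exact expn_le (by norm_num) (by norm_num) (by norm_num)) (by norm_num) (by norm_num)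
    exact T3_05_p0m_b0_0 hβ hN hx1 hx2 (by linarith) (by linarith)
  rcases le_total (sy κ t) (-0.541) with f1 | g1
  · have hx1 : 0.3895 ≤ sx κ t := sx_lo h 0.4 (-0.541) 0.566 1.71772 0.3895 hk1 (by norm_num) f1 (abs_le.2 ⟨by linarith, by linarith⟩) (by rw [neg_neg]; exact expn_ge (by norm_num) (by norm_num)) (by norm_num) (by norm_num)
    have hx2 : sx κ t ≤ 0.4783 := sx_hi h 0.41 (-0.566) 0.541 1.76121 0.4783 hk2 g0 (by norm_num) (by rw [abs_of_nonpos (by linarith)]; linarith) (by rw [neg_neg]; exact expn_le (by norm_num) (by norm_num) (by norm_num)) (by norm_num) (by norm_num)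
    exact T3_05_p0m_b0_1 hβ hN hx1 hx2 (by linarith) (by linarith)
  have hx1 : 0.3977 ≤ sx κ t := sx_lo h 0.4 (-0.518) 0.541 1.67866 0.3977 hk1 (by norm_num) hy2 (abs_le.2 ⟨by linarith, by linarith⟩) (by rw [neg_neg]; exact expn_ge (by norm_num) (by norm_num)) (by norm_num) (by norm_num)
  have hx2 : sx κ t ≤ 0.4772 := sx_hi h 0.41 (-0.541) 0.518 1.71773 0.4772 hk2 g1 (by norm_num) (by rw [abs_of_nonpos (by linarith)]; linarith) (by rw [neg_neg]; exact expn_le (by norm_num) (by norm_num) (by norm_num)) (by norm_num) (by norm_num)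
  exact T3_05_p0m_b0_2 hβ hN hx1 hx2 (by linarith) (by linarith)

private theorem T3_05_p0m_b1_0 {β x y : ℝ} (hβ : 0 < β) (hN : β * 23.809 ≤ 1) (hx1 : 0.4392 ≤ x) (hx2 : x ≤ 0.4814)
    (hy1 : -0.596 ≤ y) (hy2 : y ≤ -0.591) : ‖HH β (x + y * I) - 1‖ ≤ 0.185 := by
  refine le_epsJ (C := 4.1631) (N0 := 23.809) (J_boxp 0.4392 0.4814 0.596 0 (-0.591) 0.5961 0.7662 0.6317 1.727 0.3171 4.8795 23.809 1.2854 7.087 1.822 0.6848 0.298 0.1703 0.2178 1.8782 0.2427 1.1081 0.8289 3.5077 0.0008293 0.01736 0.005601 0.0000003101 0.003099 0.0000003101 0.0000003101 0.0000003101 4.1631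
    hβ hN hx1 hx2 hy1 hy2 (by norm_num) (by norm_num) (by linarith) (by norm_num) (by norm_num) (by norm_num) (by norm_num) (by norm_num) (by norm_num) (by norm_num) (by norm_num) (by norm_num) (by norm_num) (by norm_num) (by norm_num) (by norm_num) (by norm_num) (by norm_num) (by norm_num) (by norm_num) (by norm_num) (by norm_num) (by norm_num) (by norm_num)
    (cube_sqrt_geJ (s := 0.7559) (by norm_num) (by norm_num) (by norm_num) (by norm_num))
    (cube_sqrt_geJ (s := 0.9179) (by norm_num) (by norm_num) (by norm_num) (by norm_num))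
    (by norm_num) (by norm_num) (by norm_num) (by norm_num) (by norm_num) (by norm_num) (by norm_num) (by norm_num) (by norm_num) (by norm_num) (by norm_num) (by norm_num) (by norm_num) (by norm_num) (by norm_num) (by norm_num) (by norm_num) (by norm_num)
    (exp_neg_leJ (r := 0.095) 7 (by norm_num) (by norm_num) (by norm_num) (by norm_num))
    (exp_neg_leJ (r := 0.054) 4 (by norm_num) (by norm_num) (by norm_num) (by norm_num))
    (exp_neg_leJ (r := 0.185) 5 (by norm_num) (by norm_num) (by norm_num) (by norm_num))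
    (exp_neg_leJ (r := 0.99) 14 (by norm_num) (by norm_num) (by norm_num) (by norm_num))
    (exp_neg_leJ (r := 0.778) 5 (by norm_num) (by norm_num) (by norm_num) (by norm_num))
    (exp_neg_leJ (r := 0.99) 14 (by norm_num) (by norm_num) (by norm_num) (by norm_num))
    (exp_neg_leJ (r := 0.99) 14 (by norm_num) (by norm_num) (by norm_num) (by norm_num))
    (exp_neg_leJ (r := 0.99) 14 (by norm_num) (by norm_num) (by norm_num) (by norm_num))
    (by norm_num)) (by norm_num) hN hβ.le (by norm_num)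

private theorem T3_05_p0m_b1_1 {β x y : ℝ} (hβ : 0 < β) (hN : β * 23.809 ≤ 1) (hx1 : 0.4336 ≤ x) (hx2 : x ≤ 0.4876)
    (hy1 : -0.591 ≤ y) (hy2 : y ≤ -0.581) : ‖HH β (x + y * I) - 1‖ ≤ 0.185 := by
  refine le_epsJ (C := 4.2128) (N0 := 23.809) (J_boxp 0.4336 0.4876 0.591 0 (-0.581) 0.5957 0.7662 0.6429 1.744 0.3199 4.8795 23.809 1.2863 7.1 1.822 0.687 0.2978 0.1701 0.2238 1.892 0.2427 1.1003 0.8313 3.4965 0.0008335 0.01744 0.004854 0.0000003101 0.003099 0.0000003101 0.0000003101 0.0000003101 4.2128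
    hβ hN hx1 hx2 hy1 hy2 (by norm_num) (by norm_num) (by linarith) (by norm_num) (by norm_num) (by norm_num) (by norm_num) (by norm_num) (by norm_num) (by norm_num) (by norm_num) (by norm_num) (by norm_num) (by norm_num) (by norm_num) (by norm_num) (by norm_num) (by norm_num) (by norm_num) (by norm_num) (by norm_num) (by norm_num) (by norm_num) (by norm_num)
    (cube_sqrt_geJ (s := 0.7557) (by norm_num) (by norm_num) (by norm_num) (by norm_num))
    (cube_sqrt_geJ (s := 0.9178) (by norm_num) (by norm_num) (by norm_num) (by norm_num))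
    (by norm_num) (by norm_num) (by norm_num) (by norm_num) (by norm_num) (by norm_num) (by norm_num) (by norm_num) (by norm_num) (by norm_num) (by norm_num) (by norm_num) (by norm_num) (by norm_num) (by norm_num) (by norm_num) (by norm_num) (by norm_num)
    (exp_neg_leJ (r := 0.09) 7 (by norm_num) (by norm_num) (by norm_num) (by norm_num))
    (exp_neg_leJ (r := 0.049) 4 (by norm_num) (by norm_num) (by norm_num) (by norm_num))
    (exp_neg_leJ (r := 0.328) 5 (by norm_num) (by norm_num) (by norm_num) (by norm_num))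
    (exp_neg_leJ (r := 0.99) 14 (by norm_num) (by norm_num) (by norm_num) (by norm_num))
    (exp_neg_leJ (r := 0.778) 5 (by norm_num) (by norm_num) (by norm_num) (by norm_num))
    (exp_neg_leJ (r := 0.99) 14 (by norm_num) (by norm_num) (by norm_num) (by norm_num))
    (exp_neg_leJ (r := 0.99) 14 (by norm_num) (by norm_num) (by norm_num) (by norm_num))
    (exp_neg_leJ (r := 0.99) 14 (by norm_num) (by norm_num) (by norm_num) (by norm_num))
    (by norm_num)) (by norm_num) hN hβ.le (by norm_num)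

private theorem T3_05_p0m_b1_2 {β x y : ℝ} (hβ : 0 < β) (hN : β * 23.809 ≤ 1) (hx1 : 0.4226 ≤ x) (hx2 : x ≤ 0.4992)
    (hy1 : -0.581 ≤ y) (hy2 : y ≤ -0.561) : ‖HH β (x + y * I) - 1‖ ≤ 0.185 := by
  refine le_epsJ (C := 4.3051) (N0 := 23.809) (J_boxp 0.4226 0.4992 0.581 0 (-0.561) 0.595 0.7661 0.6648 1.7766 0.3253 4.8795 23.809 1.2876 7.118 1.824 0.6918 0.2974 0.1698 0.2358 1.9198 0.2428 1.0851 0.8365 3.4748 0.0008418 0.01757 0.003649 0.0000003101 0.003093 0.0000003101 0.0000003101 0.0000003101 4.3051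
    hβ hN hx1 hx2 hy1 hy2 (by norm_num) (by norm_num) (by linarith) (by norm_num) (by norm_num) (by norm_num) (by norm_num) (by norm_num) (by norm_num) (by norm_num) (by norm_num) (by norm_num) (by norm_num) (by norm_num) (by norm_num) (by norm_num) (by norm_num) (by norm_num) (by norm_num) (by norm_num) (by norm_num) (by norm_num) (by norm_num) (by norm_num)
    (cube_sqrt_geJ (s := 0.7555) (by norm_num) (by norm_num) (by norm_num) (by norm_num))
    (cube_sqrt_geJ (s := 0.9177) (by norm_num) (by norm_num) (by norm_num) (by norm_num))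
    (by norm_num) (by norm_num) (by norm_num) (by norm_num) (by norm_num) (by norm_num) (by norm_num) (by norm_num) (by norm_num) (by norm_num) (by norm_num) (by norm_num) (by norm_num) (by norm_num) (by norm_num) (by norm_num) (by norm_num) (by norm_num)
    (exp_neg_leJ (r := 0.08) 7 (by norm_num) (by norm_num) (by norm_num) (by norm_num))
    (exp_neg_leJ (r := 0.042) 4 (by norm_num) (by norm_num) (by norm_num) (by norm_num))
    (exp_neg_leJ (r := 0.614) 5 (by norm_num) (by norm_num) (by norm_num) (by norm_num))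
    (exp_neg_leJ (r := 0.99) 14 (by norm_num) (by norm_num) (by norm_num) (by norm_num))
    (exp_neg_leJ (r := 0.78) 5 (by norm_num) (by norm_num) (by norm_num) (by norm_num))
    (exp_neg_leJ (r := 0.99) 14 (by norm_num) (by norm_num) (by norm_num) (by norm_num))
    (exp_neg_leJ (r := 0.99) 14 (by norm_num) (by norm_num) (by norm_num) (by norm_num))
    (exp_neg_leJ (r := 0.99) 14 (by norm_num) (by norm_num) (by norm_num) (by norm_num))
    (by norm_num)) (by norm_num) hN hβ.le (by norm_num)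

private theorem T3_05_p0m_b1_3 {β x y : ℝ} (hβ : 0 < β) (hN : β * 23.809 ≤ 1) (hx1 : 0.4152 ≤ x) (hx2 : x ≤ 0.5087)
    (hy1 : -0.561 ≤ y) (hy2 : y ≤ -0.532) : ‖HH β (x + y * I) - 1‖ ≤ 0.185 := by
  refine le_epsJ (C := 3.8848) (N0 := 23.809) (J_boxp 0.4152 0.5087 0.561 0 (-0.532) 0.604 0.7573 0.6913 1.7713 0.3317 4.8795 23.809 1.2539 6.648 1.793 0.7066 0.3019 0.1757 0.2648 1.982 0.2502 1.0748 0.8761 3.4839 0.0007564 0.01526 0.00183 0.0000003101 0.002596 0.0000003101 0.0000003101 0.0000003101 3.8848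
    hβ hN hx1 hx2 hy1 hy2 (by norm_num) (by norm_num) (by linarith) (by norm_num) (by norm_num) (by norm_num) (by norm_num) (by norm_num) (by norm_num) (by norm_num) (by norm_num) (by norm_num) (by norm_num) (by norm_num) (by norm_num) (by norm_num) (by norm_num) (by norm_num) (by norm_num) (by norm_num) (by norm_num) (by norm_num) (by norm_num) (by norm_num)
    (cube_sqrt_geJ (s := 0.7629) (by norm_num) (by norm_num) (by norm_num) (by norm_num))
    (cube_sqrt_geJ (s := 0.92) (by norm_num) (by norm_num) (by norm_num) (by norm_num))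
    (by norm_num) (by norm_num) (by norm_num) (by norm_num) (by norm_num) (by norm_num) (by norm_num) (by norm_num) (by norm_num) (by norm_num) (by norm_num) (by norm_num) (by norm_num) (by norm_num) (by norm_num) (by norm_num) (by norm_num) (by norm_num)
    (exp_neg_leJ (r := 0.187) 7 (by norm_num) (by norm_num) (by norm_num) (by norm_num))
    (exp_neg_leJ (r := 0.183) 4 (by norm_num) (by norm_num) (by norm_num) (by norm_num))
    (exp_neg_leJ (r := 0.304) 6 (by norm_num) (by norm_num) (by norm_num) (by norm_num))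
    (exp_neg_leJ (r := 0.99) 14 (by norm_num) (by norm_num) (by norm_num) (by norm_num))
    (exp_neg_leJ (r := 0.957) 5 (by norm_num) (by norm_num) (by norm_num) (by norm_num))
    (exp_neg_leJ (r := 0.99) 14 (by norm_num) (by norm_num) (by norm_num) (by norm_num))
    (exp_neg_leJ (r := 0.99) 14 (by norm_num) (by norm_num) (by norm_num) (by norm_num))
    (exp_neg_leJ (r := 0.99) 14 (by norm_num) (by norm_num) (by norm_num) (by norm_num))
    (by norm_num)) (by norm_num) hN hβ.le (by norm_num)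

private theorem T3_05_p0m_c1 {κ t β : ℝ} (h : DomR κ t) (hβ : 0 < β) (hk1 : 0.41 ≤ κ) (hk2 : κ ≤ 0.42)
    (ht1 : -0.9504 ≤ t + κ) (ht2 : t + κ ≤ -0.93639) (hR0 : β * 10 ≤ κ) (hR : β * (1 * (1 + κ ^ 2)) ≤ κ) :
    ‖HH β (sg κ t) - 1‖ ≤ 0.185 := by
  have hN : β * 23.809 ≤ 1 := bNR hβ h.1 hk2 hR0 (by norm_num)
  have hy1 : -0.596 ≤ sy κ t := syL_ang2 h 0.41 0.42 0.9504 0.897 0.6239 0.7816 0.596 1.81483 0.55101 hk1 hk2 (by linarith) (by norm_num) (by norm_num) (by norm_num) (by norm_num)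
    (cos_ge_num (by norm_num) (by norm_num)) (sin_le_num (by norm_num) (by norm_num))
    (expn_ge (by norm_num) (by norm_num)) (expm_ge (by norm_num) (by norm_num) (by norm_num) (by norm_num)) (by norm_num) (by norm_num) (by norm_num)
    (by norm_num) (by norm_num) (by norm_num)
  have hy2 : sy κ t ≤ -0.532 := syL_le h 0.41 0.42 0.93639 0.532 0.58742 0.58743 0.74406 0.76223 hk1 hk2 (by linarith) (by norm_num) (by norm_num) (by norm_num)
    (expm_ge (by norm_num) (by norm_num) (by norm_num) (by norm_num)) (expm_le (by norm_num) (by norm_num) (by norm_num)) (by norm_num)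
    (by norm_num) (by norm_num) (by norm_num) (by norm_num) (by norm_num) (by norm_num)
  rcases le_total (sy κ t) (-0.591) with f0 | g0
  · have hx1 : 0.4392 ≤ sx κ t := sx_lo h 0.41 (-0.591) 0.596 1.80578 0.4392 hk1 (by norm_num) f0 (abs_le.2 ⟨by linarith, by linarith⟩) (by rw [neg_neg]; exact expn_ge (by norm_num) (by norm_num)) (by norm_num) (by norm_num)
    have hx2 : sx κ t ≤ 0.4814 := sx_hi h 0.42 (-0.596) 0.591 1.81485 0.4814 hk2 hy1 (by norm_num) (by rw [abs_of_nonpos (by linarith)]; linarith) (by rw [neg_neg]; exact expn_le (by norm_num) (by norm_num) (by norm_num)) (by norm_num) (by norm_num)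
    exact T3_05_p0m_b1_0 hβ hN hx1 hx2 (by linarith) (by linarith)
  rcases le_total (sy κ t) (-0.581) with f1 | g1
  · have hx1 : 0.4336 ≤ sx κ t := sx_lo h 0.41 (-0.581) 0.591 1.78782 0.4336 hk1 (by norm_num) f1 (abs_le.2 ⟨by linarith, by linarith⟩) (by rw [neg_neg]; exact expn_ge (by norm_num) (by norm_num)) (by norm_num) (by norm_num)
    have hx2 : sx κ t ≤ 0.4876 := sx_hi h 0.42 (-0.591) 0.581 1.8058 0.4876 hk2 g0 (by norm_num) (by rw [abs_of_nonpos (by linarith)]; linarith) (by rw [neg_neg]; exact expn_le (by norm_num) (by norm_num) (by norm_num)) (by norm_num) (by norm_num)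
    exact T3_05_p0m_b1_1 hβ hN hx1 hx2 (by linarith) (by linarith)
  rcases le_total (sy κ t) (-0.561) with f2 | g2
  · have hx1 : 0.4226 ≤ sx κ t := sx_lo h 0.41 (-0.561) 0.581 1.75242 0.4226 hk1 (by norm_num) f2 (abs_le.2 ⟨by linarith, by linarith⟩) (by rw [neg_neg]; exact expn_ge (by norm_num) (by norm_num)) (by norm_num) (by norm_num)
    have hx2 : sx κ t ≤ 0.4992 := sx_hi h 0.42 (-0.581) 0.561 1.78783 0.4992 hk2 g1 (by norm_num) (by rw [abs_of_nonpos (by linarith)]; linarith) (by rw [neg_neg]; exact expn_le (by norm_num) (by norm_num) (by norm_num)) (by norm_num) (by norm_num)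
    exact T3_05_p0m_b1_2 hβ hN hx1 hx2 (by linarith) (by linarith)
  have hx1 : 0.4152 ≤ sx κ t := sx_lo h 0.41 (-0.532) 0.561 1.70233 0.4152 hk1 (by norm_num) hy2 (abs_le.2 ⟨by linarith, by linarith⟩) (by rw [neg_neg]; exact expn_ge (by norm_num) (by norm_num)) (by norm_num) (by norm_num)
  have hx2 : sx κ t ≤ 0.5087 := sx_hi h 0.42 (-0.561) 0.532 1.75243 0.5087 hk2 g2 (by norm_num) (by rw [abs_of_nonpos (by linarith)]; linarith) (by rw [neg_neg]; exact expn_le (by norm_num) (by norm_num) (by norm_num)) (by norm_num) (by norm_num)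
  exact T3_05_p0m_b1_3 hβ hN hx1 hx2 (by linarith) (by linarith)

theorem T3_05_p0m {κ t β : ℝ} (h : DomR κ t) (hβ : 0 < β) (hk1 : 0.4 ≤ κ) (hk2 : κ ≤ 0.42)
    (ht1 : -0.9504 ≤ t + κ) (ht2 : t + κ ≤ -0.93639) (hR0 : β * 10 ≤ κ) (hR : β * (1 * (1 + κ ^ 2)) ≤ κ) :
    ‖HH β (sg κ t) - 1‖ ≤ 0.185 := by
  rcases le_total κ 0.41 with f0 | g0
  · exact T3_05_p0m_c0 h hβ hk1 f0 ht1 ht2 hR0 hR
  exact T3_05_p0m_c1 h hβ g0 hk2 ht1 ht2 hR0 hR

private theorem T3_05_p0_b0_0 {β x y : ℝ} (hβ : 0 < β) (hN : β * 24.39 ≤ 1) (hx1 : 0.3957 ≤ x) (hx2 : x ≤ 0.4727)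
    (hy1 : -0.565 ≤ y) (hy2 : y ≤ -0.545) : ‖HH β (x + y * I) - 1‖ ≤ 0.165 := by
  refine le_epsJ (C := 3.9606) (N0 := 24.39) (J_boxp 0.3957 0.4727 0.565 0 (-0.545) 0.5875 0.7367 0.6562 1.7989 0.3232 4.9387 24.39 1.254 6.65 1.793 0.7167 0.2937 0.1709 0.2519 1.9861 0.2385 1.0478 0.8262 3.5009 0.0007748 0.01549 0.002149 0.0000003101 0.002982 0.0000003101 0.0000003101 0.0000003101 3.9606
    hβ hN hx1 hx2 hy1 hy2 (by norm_num) (by norm_num) (by linarith) (by norm_num) (by norm_num) (by norm_num) (by norm_num) (by norm_num) (by norm_num) (by norm_num) (by norm_num) (by norm_num) (by norm_num) (by norm_num) (by norm_num) (by norm_num) (by norm_num) (by norm_num) (by norm_num) (by norm_num) (by norm_num) (by norm_num) (by norm_num) (by norm_num)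
    (cube_sqrt_geJ (s := 0.7628) (by norm_num) (by norm_num) (by norm_num) (by norm_num))
    (cube_sqrt_geJ (s := 0.92) (by norm_num) (by norm_num) (by norm_num) (by norm_num))
    (by norm_num) (by norm_num) (by norm_num) (by norm_num) (by norm_num) (by norm_num) (by norm_num) (by norm_num) (by norm_num) (by norm_num) (by norm_num) (by norm_num) (by norm_num) (by norm_num) (by norm_num) (by norm_num) (by norm_num) (by norm_num)
    (exp_neg_leJ (r := 0.163) 7 (by norm_num) (by norm_num) (by norm_num) (by norm_num))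
    (exp_neg_leJ (r := 0.168) 4 (by norm_num) (by norm_num) (by norm_num) (by norm_num))
    (exp_neg_leJ (r := 0.143) 6 (by norm_num) (by norm_num) (by norm_num) (by norm_num))
    (exp_neg_leJ (r := 0.99) 14 (by norm_num) (by norm_num) (by norm_num) (by norm_num))
    (exp_neg_leJ (r := 0.817) 5 (by norm_num) (by norm_num) (by norm_num) (by norm_num))
    (exp_neg_leJ (r := 0.99) 14 (by norm_num) (by norm_num) (by norm_num) (by norm_num))
    (exp_neg_leJ (r := 0.99) 14 (by norm_num) (by norm_num) (by norm_num) (by norm_num))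
    (exp_neg_leJ (r := 0.99) 14 (by norm_num) (by norm_num) (by norm_num) (by norm_num))
    (by norm_num)) (by norm_num) hN hβ.le (by norm_num)

private theorem T3_05_p0_b0_1 {β x y : ℝ} (hβ : 0 < β) (hN : β * 24.39 ≤ 1) (hx1 : 0.3829 ≤ x) (hx2 : x ≤ 0.4898)
    (hy1 : -0.545 ≤ y) (hy2 : y ≤ -0.51) : ‖HH β (x + y * I) - 1‖ ≤ 0.165 := by
  refine le_epsJ (C := 3.8131) (N0 := 24.39) (J_boxp 0.3829 0.4898 0.545 0 (-0.51) 0.5926 0.7328 0.6929 1.8248 0.3321 4.9387 24.39 1.2366 6.424 1.777 0.7286 0.2962 0.1741 0.279 2.0447 0.2432 1.0301 0.855 3.4859 0.0007289 0.01433 0.001111 0.0000003101 0.002664 0.0000003101 0.0000003101 0.0000003101 3.8131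
    hβ hN hx1 hx2 hy1 hy2 (by norm_num) (by norm_num) (by linarith) (by norm_num) (by norm_num) (by norm_num) (by norm_num) (by norm_num) (by norm_num) (by norm_num) (by norm_num) (by norm_num) (by norm_num) (by norm_num) (by norm_num) (by norm_num) (by norm_num) (by norm_num) (by norm_num) (by norm_num) (by norm_num) (by norm_num) (by norm_num) (by norm_num)
    (cube_sqrt_geJ (s := 0.7666) (by norm_num) (by norm_num) (by norm_num) (by norm_num))
    (cube_sqrt_geJ (s := 0.9211) (by norm_num) (by norm_num) (by norm_num) (by norm_num))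
    (by norm_num) (by norm_num) (by norm_num) (by norm_num) (by norm_num) (by norm_num) (by norm_num) (by norm_num) (by norm_num) (by norm_num) (by norm_num) (by norm_num) (by norm_num) (by norm_num) (by norm_num) (by norm_num) (by norm_num) (by norm_num)
    (exp_neg_leJ (r := 0.224) 7 (by norm_num) (by norm_num) (by norm_num) (by norm_num))
    (exp_neg_leJ (r := 0.246) 4 (by norm_num) (by norm_num) (by norm_num) (by norm_num))
    (exp_neg_leJ (r := 0.804) 6 (by norm_num) (by norm_num) (by norm_num) (by norm_num))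
    (exp_neg_leJ (r := 0.99) 14 (by norm_num) (by norm_num) (by norm_num) (by norm_num))
    (exp_neg_leJ (r := 0.931) 5 (by norm_num) (by norm_num) (by norm_num) (by norm_num))
    (exp_neg_leJ (r := 0.99) 14 (by norm_num) (by norm_num) (by norm_num) (by norm_num))
    (exp_neg_leJ (r := 0.99) 14 (by norm_num) (by norm_num) (by norm_num) (by norm_num))
    (exp_neg_leJ (r := 0.99) 14 (by norm_num) (by norm_num) (by norm_num) (by norm_num))
    (by norm_num)) (by norm_num) hN hβ.le (by norm_num)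

private theorem T3_05_p0_b0_2 {β x y : ℝ} (hβ : 0 < β) (hN : β * 24.39 ≤ 1) (hx1 : 0.349 ≤ x) (hx2 : x ≤ 0.5263)
    (hy1 : -0.51 ≤ y) (hy2 : y ≤ -0.435) : ‖HH β (x + y * I) - 1‖ ≤ 0.165 := by
  refine le_epsJ (C := 3.9866) (N0 := 24.39) (J_boxp 0.349 0.5263 0.51 0 (-0.435) 0.5936 0.7329 0.7722 1.9215 0.3506 4.9387 24.39 1.2347 6.4 1.775 0.7469 0.2967 0.1746 0.3227 2.1433 0.2459 0.9832 0.8823 3.4178 0.0007202 0.01416 0.0003829 0.0000003101 0.002513 0.0000003101 0.0000003101 0.0000003101 3.9866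
    hβ hN hx1 hx2 hy1 hy2 (by norm_num) (by norm_num) (by linarith) (by norm_num) (by norm_num) (by norm_num) (by norm_num) (by norm_num) (by norm_num) (by norm_num) (by norm_num) (by norm_num) (by norm_num) (by norm_num) (by norm_num) (by norm_num) (by norm_num) (by norm_num) (by norm_num) (by norm_num) (by norm_num) (by norm_num) (by norm_num) (by norm_num)
    (cube_sqrt_geJ (s := 0.767) (by norm_num) (by norm_num) (by norm_num) (by norm_num))
    (cube_sqrt_geJ (s := 0.9213) (by norm_num) (by norm_num) (by norm_num) (by norm_num))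
    (by norm_num) (by norm_num) (by norm_num) (by norm_num) (by norm_num) (by norm_num) (by norm_num) (by norm_num) (by norm_num) (by norm_num) (by norm_num) (by norm_num) (by norm_num) (by norm_num) (by norm_num) (by norm_num) (by norm_num) (by norm_num)
    (exp_neg_leJ (r := 0.236) 7 (by norm_num) (by norm_num) (by norm_num) (by norm_num))
    (exp_neg_leJ (r := 0.258) 4 (by norm_num) (by norm_num) (by norm_num) (by norm_num))
    (exp_neg_leJ (r := 0.87) 7 (by norm_num) (by norm_num) (by norm_num) (by norm_num))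
    (exp_neg_leJ (r := 0.99) 14 (by norm_num) (by norm_num) (by norm_num) (by norm_num))
    (exp_neg_leJ (r := 0.99) 5 (by norm_num) (by norm_num) (by norm_num) (by norm_num))
    (exp_neg_leJ (r := 0.99) 14 (by norm_num) (by norm_num) (by norm_num) (by norm_num))
    (exp_neg_leJ (r := 0.99) 14 (by norm_num) (by norm_num) (by norm_num) (by norm_num))
    (exp_neg_leJ (r := 0.99) 14 (by norm_num) (by norm_num) (by norm_num) (by norm_num))
    (by norm_num)) (by norm_num) hN hβ.le (by norm_num)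

private theorem T3_05_p0_b0_3 {β x y : ℝ} (hβ : 0 < β) (hN : β * 24.39 ≤ 1) (hx1 : 0.3593 ≤ x) (hx2 : x ≤ 0.5319)
    (hy1 : -0.435 ≤ y) (hy2 : y ≤ -0.344) : ‖HH β (x + y * I) - 1‖ ≤ 0.165 := by
  refine le_epsJ (C := 2.0853) (N0 := 24.39) (J_boxp 0.3593 0.5319 0.435 0 (-0.344) 0.6541 0.6872 0.8446 1.7373 0.3667 4.9387 24.39 1.0507 4.523 1.62 0.814 0.327 0.2125 0.4446 2.3893 0.2919 0.9974 1.1068 3.5626 0.0003451 0.005617 0.00001958 0.0000003101 0.0008096 0.0000003101 0.0000003101 0.0000003101 2.0853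
    hβ hN hx1 hx2 hy1 hy2 (by norm_num) (by norm_num) (by linarith) (by norm_num) (by norm_num) (by norm_num) (by norm_num) (by norm_num) (by norm_num) (by norm_num) (by norm_num) (by norm_num) (by norm_num) (by norm_num) (by norm_num) (by norm_num) (by norm_num) (by norm_num) (by norm_num) (by norm_num) (by norm_num) (by norm_num) (by norm_num) (by norm_num)
    (cube_sqrt_geJ (s := 0.806) (by norm_num) (by norm_num) (by norm_num) (by norm_num))
    (cube_sqrt_geJ (s := 0.9334) (by norm_num) (by norm_num) (by norm_num) (by norm_num))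
    (by norm_num) (by norm_num) (by norm_num) (by norm_num) (by norm_num) (by norm_num) (by norm_num) (by norm_num) (by norm_num) (by norm_num) (by norm_num) (by norm_num) (by norm_num) (by norm_num) (by norm_num) (by norm_num) (by norm_num) (by norm_num)
    (exp_neg_leJ (r := 0.975) 7 (by norm_num) (by norm_num) (by norm_num) (by norm_num))
    (exp_neg_leJ (r := 0.182) 5 (by norm_num) (by norm_num) (by norm_num) (by norm_num))
    (exp_neg_leJ (r := 0.843) 10 (by norm_num) (by norm_num) (by norm_num) (by norm_num))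
    (exp_neg_leJ (r := 0.99) 14 (by norm_num) (by norm_num) (by norm_num) (by norm_num))
    (exp_neg_leJ (r := 0.119) 7 (by norm_num) (by norm_num) (by norm_num) (by norm_num))
    (exp_neg_leJ (r := 0.99) 14 (by norm_num) (by norm_num) (by norm_num) (by norm_num))
    (exp_neg_leJ (r := 0.99) 14 (by norm_num) (by norm_num) (by norm_num) (by norm_num))
    (exp_neg_leJ (r := 0.99) 14 (by norm_num) (by norm_num) (by norm_num) (by norm_num))
    (by norm_num)) (by norm_num) hN hβ.le (by norm_num)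

private theorem T3_05_p0_c0 {κ t β : ℝ} (h : DomR κ t) (hβ : 0 < β) (hk1 : 0.4 ≤ κ) (hk2 : κ ≤ 0.41)
    (ht1 : -0.9364 ≤ t + κ) (ht2 : t + κ ≤ -0.71239) (hR0 : β * 10 ≤ κ) (hR : β * (1 * (1 + κ ^ 2)) ≤ κ) :
    ‖HH β (sg κ t) - 1‖ ≤ 0.165 := by
  have hN : β * 24.39 ≤ 1 := bNR hβ h.1 hk2 hR0 (by norm_num)
  have hy1 : -0.565 ≤ sy κ t := syL_ang2 h 0.4 0.41 0.9364 0.899 0.6223 0.7828 0.565 1.75944 0.56836 hk1 hk2 (by linarith) (by norm_num) (by norm_num) (by norm_num) (by norm_num)
    (cos_ge_num (by norm_num) (by norm_num)) (sin_le_num (by norm_num) (by norm_num))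
    (expn_ge (by norm_num) (by norm_num)) (expm_ge (by norm_num) (by norm_num) (by norm_num) (by norm_num)) (by norm_num) (by norm_num) (by norm_num)
    (by norm_num) (by norm_num) (by norm_num)
  have hy2 : sy κ t ≤ -0.344 := syL_le h 0.4 0.41 0.71239 0.344 0.70892 0.70893 0.5948 0.60968 hk1 hk2 (by linarith) (by norm_num) (by norm_num) (by norm_num)
    (expm_ge (by norm_num) (by norm_num) (by norm_num) (by norm_num)) (expm_le (by norm_num) (by norm_num) (by norm_num)) (by norm_num)
    (by norm_num) (by norm_num) (by norm_num) (by norm_num) (by norm_num) (by norm_num)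
  rcases le_total (sy κ t) (-0.545) with f0 | g0
  · have hx1 : 0.3957 ≤ sx κ t := sx_lo h 0.4 (-0.545) 0.565 1.7246 0.3957 hk1 (by norm_num) f0 (abs_le.2 ⟨by linarith, by linarith⟩) (by rw [neg_neg]; exact expn_ge (by norm_num) (by norm_num)) (by norm_num) (by norm_num)
    have hx2 : sx κ t ≤ 0.4727 := sx_hi h 0.41 (-0.565) 0.545 1.75945 0.4727 hk2 hy1 (by norm_num) (by rw [abs_of_nonpos (by linarith)]; linarith) (by rw [neg_neg]; exact expn_le (by norm_num) (by norm_num) (by norm_num)) (by norm_num) (by norm_num)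
    exact T3_05_p0_b0_0 hβ hN hx1 hx2 (by linarith) (by linarith)
  rcases le_total (sy κ t) (-0.51) with f1 | g1
  · have hx1 : 0.3829 ≤ sx κ t := sx_lo h 0.4 (-0.51) 0.545 1.66528 0.3829 hk1 (by norm_num) f1 (abs_le.2 ⟨by linarith, by linarith⟩) (by rw [neg_neg]; exact expn_ge (by norm_num) (by norm_num)) (by norm_num) (by norm_num)
    have hx2 : sx κ t ≤ 0.4898 := sx_hi h 0.41 (-0.545) 0.51 1.72461 0.4898 hk2 g0 (by norm_num) (by rw [abs_of_nonpos (by linarith)]; linarith) (by rw [neg_neg]; exact expn_le (by norm_num) (by norm_num) (by norm_num)) (by norm_num) (by norm_num)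
    exact T3_05_p0_b0_1 hβ hN hx1 hx2 (by linarith) (by linarith)
  rcases le_total (sy κ t) (-0.435) with f2 | g2
  · have hx1 : 0.349 ≤ sx κ t := sx_lo h 0.4 (-0.435) 0.51 1.54496 0.349 hk1 (by norm_num) f2 (abs_le.2 ⟨by linarith, by linarith⟩) (by rw [neg_neg]; exact expn_ge (by norm_num) (by norm_num)) (by norm_num) (by norm_num)
    have hx2 : sx κ t ≤ 0.5263 := sx_hi h 0.41 (-0.51) 0.435 1.6653 0.5263 hk2 g1 (by norm_num) (by rw [abs_of_nonpos (by linarith)]; linarith) (by rw [neg_neg]; exact expn_le (by norm_num) (by norm_num) (by norm_num)) (by norm_num) (by norm_num)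
    exact T3_05_p0_b0_2 hβ hN hx1 hx2 (by linarith) (by linarith)
  have hx1 : 0.3593 ≤ sx κ t := sx_lo h 0.4 (-0.344) 0.435 1.41057 0.3593 hk1 (by norm_num) hy2 (abs_le.2 ⟨by linarith, by linarith⟩) (by rw [neg_neg]; exact expn_ge (by norm_num) (by norm_num)) (by norm_num) (by norm_num)
  have hx2 : sx κ t ≤ 0.5319 := sx_hi h 0.41 (-0.435) 0.344 1.54497 0.5319 hk2 g2 (by norm_num) (by rw [abs_of_nonpos (by linarith)]; linarith) (by rw [neg_neg]; exact expn_le (by norm_num) (by norm_num) (by norm_num)) (by norm_num) (by norm_num)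
  exact T3_05_p0_b0_3 hβ hN hx1 hx2 (by linarith) (by linarith)

private theorem T3_05_p0_b1_0 {β x y : ℝ} (hβ : 0 < β) (hN : β * 23.809 ≤ 1) (hx1 : 0.4351 ≤ x) (hx2 : x ≤ 0.4877)
    (hy1 : -0.579 ≤ y) (hy2 : y ≤ -0.569) : ‖HH β (x + y * I) - 1‖ ≤ 0.165 := by
  refine le_epsJ (C := 3.7273) (N0 := 23.809) (J_boxp 0.4351 0.4877 0.579 0 (-0.569) 0.6053 0.7571 0.6509 1.7132 0.3219 4.8795 23.809 1.2508 6.608 1.79 0.698 0.3026 0.1764 0.2432 1.9321 0.25 1.1024 0.867 3.5242 0.0007437 0.01502 0.003063 0.0000003101 0.002609 0.0000003101 0.0000003101 0.0000003101 3.7273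
    hβ hN hx1 hx2 hy1 hy2 (by norm_num) (by norm_num) (by linarith) (by norm_num) (by norm_num) (by norm_num) (by norm_num) (by norm_num) (by norm_num) (by norm_num) (by norm_num) (by norm_num) (by norm_num) (by norm_num) (by norm_num) (by norm_num) (by norm_num) (by norm_num) (by norm_num) (by norm_num) (by norm_num) (by norm_num) (by norm_num) (by norm_num)
    (cube_sqrt_geJ (s := 0.7635) (by norm_num) (by norm_num) (by norm_num) (by norm_num))
    (cube_sqrt_geJ (s := 0.9202) (by norm_num) (by norm_num) (by norm_num) (by norm_num))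
    (by norm_num) (by norm_num) (by norm_num) (by norm_num) (by norm_num) (by norm_num) (by norm_num) (by norm_num) (by norm_num) (by norm_num) (by norm_num) (by norm_num) (by norm_num) (by norm_num) (by norm_num) (by norm_num) (by norm_num) (by norm_num)
    (exp_neg_leJ (r := 0.204) 7 (by norm_num) (by norm_num) (by norm_num) (by norm_num))
    (exp_neg_leJ (r := 0.199) 4 (by norm_num) (by norm_num) (by norm_num) (by norm_num))
    (exp_neg_leJ (r := 0.79) 5 (by norm_num) (by norm_num) (by norm_num) (by norm_num))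
    (exp_neg_leJ (r := 0.99) 14 (by norm_num) (by norm_num) (by norm_num) (by norm_num))
    (exp_neg_leJ (r := 0.952) 5 (by norm_num) (by norm_num) (by norm_num) (by norm_num))
    (exp_neg_leJ (r := 0.99) 14 (by norm_num) (by norm_num) (by norm_num) (by norm_num))
    (exp_neg_leJ (r := 0.99) 14 (by norm_num) (by norm_num) (by norm_num) (by norm_num))
    (exp_neg_leJ (r := 0.99) 14 (by norm_num) (by norm_num) (by norm_num) (by norm_num))
    (by norm_num)) (by norm_num) hN hβ.le (by norm_num)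

private theorem T3_05_p0_b1_1 {β x y : ℝ} (hβ : 0 < β) (hN : β * 23.809 ≤ 1) (hx1 : 0.4245 ≤ x) (hx2 : x ≤ 0.4991)
    (hy1 : -0.569 ≤ y) (hy2 : y ≤ -0.549) : ‖HH β (x + y * I) - 1‖ ≤ 0.165 := by
  refine le_epsJ (C := 3.7965) (N0 := 23.809) (J_boxp 0.4245 0.4991 0.569 0 (-0.549) 0.6049 0.7569 0.6727 1.7434 0.3273 4.8795 23.809 1.2513 6.615 1.79 0.7029 0.3024 0.1762 0.2554 1.96 0.2503 1.0877 0.8729 3.5036 0.0007474 0.01508 0.002289 0.0000003101 0.002591 0.0000003101 0.0000003101 0.0000003101 3.7965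
    hβ hN hx1 hx2 hy1 hy2 (by norm_num) (by norm_num) (by linarith) (by norm_num) (by norm_num) (by norm_num) (by norm_num) (by norm_num) (by norm_num) (by norm_num) (by norm_num) (by norm_num) (by norm_num) (by norm_num) (by norm_num) (by norm_num) (by norm_num) (by norm_num) (by norm_num) (by norm_num) (by norm_num) (by norm_num) (by norm_num) (by norm_num)
    (cube_sqrt_geJ (s := 0.7634) (by norm_num) (by norm_num) (by norm_num) (by norm_num))
    (cube_sqrt_geJ (s := 0.9202) (by norm_num) (by norm_num) (by norm_num) (by norm_num))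
    (by norm_num) (by norm_num) (by norm_num) (by norm_num) (by norm_num) (by norm_num) (by norm_num) (by norm_num) (by norm_num) (by norm_num) (by norm_num) (by norm_num) (by norm_num) (by norm_num) (by norm_num) (by norm_num) (by norm_num) (by norm_num)
    (exp_neg_leJ (r := 0.199) 7 (by norm_num) (by norm_num) (by norm_num) (by norm_num))
    (exp_neg_leJ (r := 0.195) 4 (by norm_num) (by norm_num) (by norm_num) (by norm_num))
    (exp_neg_leJ (r := 0.08) 6 (by norm_num) (by norm_num) (by norm_num) (by norm_num))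
    (exp_neg_leJ (r := 0.99) 14 (by norm_num) (by norm_num) (by norm_num) (by norm_num))
    (exp_neg_leJ (r := 0.959) 5 (by norm_num) (by norm_num) (by norm_num) (by norm_num))
    (exp_neg_leJ (r := 0.99) 14 (by norm_num) (by norm_num) (by norm_num) (by norm_num))
    (exp_neg_leJ (r := 0.99) 14 (by norm_num) (by norm_num) (by norm_num) (by norm_num))
    (exp_neg_leJ (r := 0.99) 14 (by norm_num) (by norm_num) (by norm_num) (by norm_num))
    (by norm_num)) (by norm_num) hN hβ.le (by norm_num)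

private theorem T3_05_p0_b1_2 {β x y : ℝ} (hβ : 0 < β) (hN : β * 23.809 ≤ 1) (hx1 : 0.4047 ≤ x) (hx2 : x ≤ 0.5195)
    (hy1 : -0.549 ≤ y) (hy2 : y ≤ -0.509) : ‖HH β (x + y * I) - 1‖ ≤ 0.165 := by
  refine le_epsJ (C := 3.8814) (N0 := 23.809) (J_boxp 0.4047 0.5195 0.549 0 (-0.509) 0.6052 0.7559 0.7149 1.7959 0.3374 4.8795 23.809 1.2491 6.585 1.788 0.7135 0.3025 0.1766 0.2802 2.0168 0.2516 1.0603 0.8877 3.4667 0.0007452 0.01494 0.001268 0.0000003101 0.002513 0.0000003101 0.0000003101 0.0000003101 3.8814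
    hβ hN hx1 hx2 hy1 hy2 (by norm_num) (by norm_num) (by linarith) (by norm_num) (by norm_num) (by norm_num) (by norm_num) (by norm_num) (by norm_num) (by norm_num) (by norm_num) (by norm_num) (by norm_num) (by norm_num) (by norm_num) (by norm_num) (by norm_num) (by norm_num) (by norm_num) (by norm_num) (by norm_num) (by norm_num) (by norm_num) (by norm_num)
    (cube_sqrt_geJ (s := 0.7639) (by norm_num) (by norm_num) (by norm_num) (by norm_num))
    (cube_sqrt_geJ (s := 0.9203) (by norm_num) (by norm_num) (by norm_num) (by norm_num))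
    (by norm_num) (by norm_num) (by norm_num) (by norm_num) (by norm_num) (by norm_num) (by norm_num) (by norm_num) (by norm_num) (by norm_num) (by norm_num) (by norm_num) (by norm_num) (by norm_num) (by norm_num) (by norm_num) (by norm_num) (by norm_num)
    (exp_neg_leJ (r := 0.202) 7 (by norm_num) (by norm_num) (by norm_num) (by norm_num))
    (exp_neg_leJ (r := 0.204) 4 (by norm_num) (by norm_num) (by norm_num) (by norm_num))
    (exp_neg_leJ (r := 0.671) 6 (by norm_num) (by norm_num) (by norm_num) (by norm_num))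
    (exp_neg_leJ (r := 0.99) 14 (by norm_num) (by norm_num) (by norm_num) (by norm_num))
    (exp_neg_leJ (r := 0.99) 5 (by norm_num) (by norm_num) (by norm_num) (by norm_num))
    (exp_neg_leJ (r := 0.99) 14 (by norm_num) (by norm_num) (by norm_num) (by norm_num))
    (exp_neg_leJ (r := 0.99) 14 (by norm_num) (by norm_num) (by norm_num) (by norm_num))
    (exp_neg_leJ (r := 0.99) 14 (by norm_num) (by norm_num) (by norm_num) (by norm_num))
    (by norm_num)) (by norm_num) hN hβ.le (by norm_num)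

private theorem T3_05_p0_b1_3 {β x y : ℝ} (hβ : 0 < β) (hN : β * 23.809 ≤ 1) (hx1 : 0.3706 ≤ x) (hx2 : x ≤ 0.5516)
    (hy1 : -0.509 ≤ y) (hy2 : y ≤ -0.429) : ‖HH β (x + y * I) - 1‖ ≤ 0.165 := by
  refine le_epsJ (C := 3.8419) (N0 := 23.809) (J_boxp 0.3706 0.5516 0.509 0 (-0.429) 0.6095 0.7506 0.794 1.8727 0.3555 4.8795 23.809 1.2316 6.36 1.773 0.7381 0.3047 0.1796 0.3317 2.1339 0.2569 1.0131 0.9282 3.4129 0.0007074 0.0139 0.0003728 0.0000003101 0.002208 0.0000003101 0.0000003101 0.0000003101 3.8419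
    hβ hN hx1 hx2 hy1 hy2 (by norm_num) (by norm_num) (by linarith) (by norm_num) (by norm_num) (by norm_num) (by norm_num) (by norm_num) (by norm_num) (by norm_num) (by norm_num) (by norm_num) (by norm_num) (by norm_num) (by norm_num) (by norm_num) (by norm_num) (by norm_num) (by norm_num) (by norm_num) (by norm_num) (by norm_num) (by norm_num) (by norm_num)
    (cube_sqrt_geJ (s := 0.7677) (by norm_num) (by norm_num) (by norm_num) (by norm_num))
    (cube_sqrt_geJ (s := 0.9215) (by norm_num) (by norm_num) (by norm_num) (by norm_num))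
    (by norm_num) (by norm_num) (by norm_num) (by norm_num) (by norm_num) (by norm_num) (by norm_num) (by norm_num) (by norm_num) (by norm_num) (by norm_num) (by norm_num) (by norm_num) (by norm_num) (by norm_num) (by norm_num) (by norm_num) (by norm_num)
    (exp_neg_leJ (r := 0.254) 7 (by norm_num) (by norm_num) (by norm_num) (by norm_num))
    (exp_neg_leJ (r := 0.276) 4 (by norm_num) (by norm_num) (by norm_num) (by norm_num))
    (exp_neg_leJ (r := 0.897) 7 (by norm_num) (by norm_num) (by norm_num) (by norm_num))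
    (exp_neg_leJ (r := 0.99) 14 (by norm_num) (by norm_num) (by norm_num) (by norm_num))
    (exp_neg_leJ (r := 0.116) 6 (by norm_num) (by norm_num) (by norm_num) (by norm_num))
    (exp_neg_leJ (r := 0.99) 14 (by norm_num) (by norm_num) (by norm_num) (by norm_num))
    (exp_neg_leJ (r := 0.99) 14 (by norm_num) (by norm_num) (by norm_num) (by norm_num))
    (exp_neg_leJ (r := 0.99) 14 (by norm_num) (by norm_num) (by norm_num) (by norm_num))
    (by norm_num)) (by norm_num) hN hβ.le (by norm_num)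

private theorem T3_05_p0_b1_4 {β x y : ℝ} (hβ : 0 < β) (hN : β * 23.809 ≤ 1) (hx1 : 0.3947 ≤ x) (hx2 : x ≤ 0.5405)
    (hy1 : -0.429 ≤ y) (hy2 : y ≤ -0.352) : ‖HH β (x + y * I) - 1‖ ≤ 0.165 := by
  refine le_epsJ (C := 1.7282) (N0 := 23.809) (J_boxp 0.3947 0.5405 0.429 0 (-0.352) 0.6833 0.6901 0.8439 1.6265 0.3665 4.8795 23.809 1.01 4.207 1.588 0.8162 0.3416 0.2266 0.4662 2.4047 0.3123 1.0465 1.1939 3.6256 0.0002937 0.00454 0.00001513 0.0000003101 0.0005903 0.0000003101 0.0000003101 0.0000003101 1.7282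
    hβ hN hx1 hx2 hy1 hy2 (by norm_num) (by norm_num) (by linarith) (by norm_num) (by norm_num) (by norm_num) (by norm_num) (by norm_num) (by norm_num) (by norm_num) (by norm_num) (by norm_num) (by norm_num) (by norm_num) (by norm_num) (by norm_num) (by norm_num) (by norm_num) (by norm_num) (by norm_num) (by norm_num) (by norm_num) (by norm_num) (by norm_num)
    (cube_sqrt_geJ (s := 0.8144) (by norm_num) (by norm_num) (by norm_num) (by norm_num))
    (cube_sqrt_geJ (s := 0.9361) (by norm_num) (by norm_num) (by norm_num) (by norm_num))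
    (by norm_num) (by norm_num) (by norm_num) (by norm_num) (by norm_num) (by norm_num) (by norm_num) (by norm_num) (by norm_num) (by norm_num) (by norm_num) (by norm_num) (by norm_num) (by norm_num) (by norm_num) (by norm_num) (by norm_num) (by norm_num)
    (exp_neg_leJ (r := 0.133) 8 (by norm_num) (by norm_num) (by norm_num) (by norm_num))
    (exp_neg_leJ (r := 0.395) 5 (by norm_num) (by norm_num) (by norm_num) (by norm_num))
    (exp_neg_leJ (r := 0.099) 11 (by norm_num) (by norm_num) (by norm_num) (by norm_num))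
    (exp_neg_leJ (r := 0.99) 14 (by norm_num) (by norm_num) (by norm_num) (by norm_num))
    (exp_neg_leJ (r := 0.435) 7 (by norm_num) (by norm_num) (by norm_num) (by norm_num))
    (exp_neg_leJ (r := 0.99) 14 (by norm_num) (by norm_num) (by norm_num) (by norm_num))
    (exp_neg_leJ (r := 0.99) 14 (by norm_num) (by norm_num) (by norm_num) (by norm_num))
    (exp_neg_leJ (r := 0.99) 14 (by norm_num) (by norm_num) (by norm_num) (by norm_num))
    (by norm_num)) (by norm_num) hN hβ.le (by norm_num)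

private theorem T3_05_p0_c1 {κ t β : ℝ} (h : DomR κ t) (hβ : 0 < β) (hk1 : 0.41 ≤ κ) (hk2 : κ ≤ 0.42)
    (ht1 : -0.9364 ≤ t + κ) (ht2 : t + κ ≤ -0.71239) (hR0 : β * 10 ≤ κ) (hR : β * (1 * (1 + κ ^ 2)) ≤ κ) :
    ‖HH β (sg κ t) - 1‖ ≤ 0.165 := by
  have hN : β * 23.809 ≤ 1 := bNR hβ h.1 hk2 hR0 (by norm_num)
  have hy1 : -0.579 ≤ sy κ t := syL_ang2 h 0.41 0.42 0.9364 0.882 0.6355 0.7721 0.579 1.78424 0.56045 hk1 hk2 (by linarith) (by norm_num) (by norm_num) (by norm_num) (by norm_num)
    (cos_ge_num (by norm_num) (by norm_num)) (sin_le_num (by norm_num) (by norm_num))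
    (expn_ge (by norm_num) (by norm_num)) (expm_ge (by norm_num) (by norm_num) (by norm_num) (by norm_num)) (by norm_num) (by norm_num) (by norm_num)
    (by norm_num) (by norm_num) (by norm_num)
  have hy2 : sy κ t ≤ -0.352 := syL_le h 0.41 0.42 0.71239 0.352 0.70328 0.70329 0.58941 0.60381 hk1 hk2 (by linarith) (by norm_num) (by norm_num) (by norm_num)
    (expm_ge (by norm_num) (by norm_num) (by norm_num) (by norm_num)) (expm_le (by norm_num) (by norm_num) (by norm_num)) (by norm_num)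
    (by norm_num) (by norm_num) (by norm_num) (by norm_num) (by norm_num) (by norm_num)
  rcases le_total (sy κ t) (-0.569) with f0 | g0
  · have hx1 : 0.4351 ≤ sx κ t := sx_lo h 0.41 (-0.569) 0.579 1.76649 0.4351 hk1 (by norm_num) f0 (abs_le.2 ⟨by linarith, by linarith⟩) (by rw [neg_neg]; exact expn_ge (by norm_num) (by norm_num)) (by norm_num) (by norm_num)
    have hx2 : sx κ t ≤ 0.4877 := sx_hi h 0.42 (-0.579) 0.569 1.78426 0.4877 hk2 hy1 (by norm_num) (by rw [abs_of_nonpos (by linarith)]; linarith) (by rw [neg_neg]; exact expn_le (by norm_num) (by norm_num) (by norm_num)) (by norm_num) (by norm_num)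
    exact T3_05_p0_b1_0 hβ hN hx1 hx2 (by linarith) (by linarith)
  rcases le_total (sy κ t) (-0.549) with f1 | g1
  · have hx1 : 0.4245 ≤ sx κ t := sx_lo h 0.41 (-0.549) 0.569 1.73151 0.4245 hk1 (by norm_num) f1 (abs_le.2 ⟨by linarith, by linarith⟩) (by rw [neg_neg]; exact expn_ge (by norm_num) (by norm_num)) (by norm_num) (by norm_num)
    have hx2 : sx κ t ≤ 0.4991 := sx_hi h 0.42 (-0.569) 0.549 1.7665 0.4991 hk2 g0 (by norm_num) (by rw [abs_of_nonpos (by linarith)]; linarith) (by rw [neg_neg]; exact expn_le (by norm_num) (by norm_num) (by norm_num)) (by norm_num) (by norm_num)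
    exact T3_05_p0_b1_1 hβ hN hx1 hx2 (by linarith) (by linarith)
  rcases le_total (sy κ t) (-0.509) with f2 | g2
  · have hx1 : 0.4047 ≤ sx κ t := sx_lo h 0.41 (-0.509) 0.549 1.66362 0.4047 hk1 (by norm_num) f2 (abs_le.2 ⟨by linarith, by linarith⟩) (by rw [neg_neg]; exact expn_ge (by norm_num) (by norm_num)) (by norm_num) (by norm_num)
    have hx2 : sx κ t ≤ 0.5195 := sx_hi h 0.42 (-0.549) 0.509 1.73153 0.5195 hk2 g1 (by norm_num) (by rw [abs_of_nonpos (by linarith)]; linarith) (by rw [neg_neg]; exact expn_le (by norm_num) (by norm_num) (by norm_num)) (by norm_num) (by norm_num)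
    exact T3_05_p0_b1_2 hβ hN hx1 hx2 (by linarith) (by linarith)
  rcases le_total (sy κ t) (-0.429) with f3 | g3
  · have hx1 : 0.3706 ≤ sx κ t := sx_lo h 0.41 (-0.429) 0.509 1.53572 0.3706 hk1 (by norm_num) f3 (abs_le.2 ⟨by linarith, by linarith⟩) (by rw [neg_neg]; exact expn_ge (by norm_num) (by norm_num)) (by norm_num) (by norm_num)
    have hx2 : sx κ t ≤ 0.5516 := sx_hi h 0.42 (-0.509) 0.429 1.66363 0.5516 hk2 g2 (by norm_num) (by rw [abs_of_nonpos (by linarith)]; linarith) (by rw [neg_neg]; exact expn_le (by norm_num) (by norm_num) (by norm_num)) (by norm_num) (by norm_num)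
    exact T3_05_p0_b1_3 hβ hN hx1 hx2 (by linarith) (by linarith)
  have hx1 : 0.3947 ≤ sx κ t := sx_lo h 0.41 (-0.352) 0.429 1.4219 0.3947 hk1 (by norm_num) hy2 (abs_le.2 ⟨by linarith, by linarith⟩) (by rw [neg_neg]; exact expn_ge (by norm_num) (by norm_num)) (by norm_num) (by norm_num)
  have hx2 : sx κ t ≤ 0.5405 := sx_hi h 0.42 (-0.429) 0.352 1.53573 0.5405 hk2 g3 (by norm_num) (by rw [abs_of_nonpos (by linarith)]; linarith) (by rw [neg_neg]; exact expn_le (by norm_num) (by norm_num) (by norm_num)) (by norm_num) (by norm_num)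
  exact T3_05_p0_b1_4 hβ hN hx1 hx2 (by linarith) (by linarith)

theorem T3_05_p0 {κ t β : ℝ} (h : DomR κ t) (hβ : 0 < β) (hk1 : 0.4 ≤ κ) (hk2 : κ ≤ 0.42)
    (ht1 : -0.9364 ≤ t + κ) (ht2 : t + κ ≤ -0.71239) (hR0 : β * 10 ≤ κ) (hR : β * (1 * (1 + κ ^ 2)) ≤ κ) :
    ‖HH β (sg κ t) - 1‖ ≤ 0.165 := by
  rcases le_total κ 0.41 with f0 | g0
  · exact T3_05_p0_c0 h hβ hk1 f0 ht1 ht2 hR0 hR
  exact T3_05_p0_c1 h hβ g0 hk2 ht1 ht2 hR0 hR

private theorem T3_05_p0R_b0_0 {β x y : ℝ} (hβ : 0 < β) (hN : β * 23.809 ≤ 1) (hx1 : 0.4006 ≤ x) (hx2 : x ≤ 0.5231)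
    (hy1 : -0.37 ≤ y) (hy2 : y ≤ -0.31) : ‖HH β (x + y * I) - 1‖ ≤ 0.045 := by
  refine le_epsJ (C := 1.0672) (N0 := 23.809) (J_boxp 0.4006 0.5231 0.37 0 (-0.31) 0.7294 0.6408 0.8659 1.4938 0.3713 4.8795 23.809 0.8786 3.364 1.49 0.8773 0.3646 0.2578 0.5613 2.6086 0.3474 1.0546 1.3661 3.7714 0.0001701 0.002162 0.000001573 0.0000003101 0.0002559 0.0000003101 0.0000003101 0.0000003101 1.0672
    hβ hN hx1 hx2 hy1 hy2 (by norm_num) (by norm_num) (by linarith) (by norm_num) (by norm_num) (by norm_num) (by norm_num) (by norm_num) (by norm_num) (by norm_num) (by norm_num) (by norm_num) (by norm_num) (by norm_num) (by norm_num) (by norm_num) (by norm_num) (by norm_num) (by norm_num) (by norm_num) (by norm_num) (by norm_num) (by norm_num) (by norm_num)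
    (cube_sqrt_geJ (s := 0.8409) (by norm_num) (by norm_num) (by norm_num) (by norm_num))
    (cube_sqrt_geJ (s := 0.9446) (by norm_num) (by norm_num) (by norm_num) (by norm_num))
    (by norm_num) (by norm_num) (by norm_num) (by norm_num) (by norm_num) (by norm_num) (by norm_num) (by norm_num) (by norm_num) (by norm_num) (by norm_num) (by norm_num) (by norm_num) (by norm_num) (by norm_num) (by norm_num) (by norm_num) (by norm_num)
    (exp_neg_leJ (r := 0.68) 8 (by norm_num) (by norm_num) (by norm_num) (by norm_num))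
    (exp_neg_leJ (r := 0.137) 6 (by norm_num) (by norm_num) (by norm_num) (by norm_num))
    (exp_neg_leJ (r := 0.363) 13 (by norm_num) (by norm_num) (by norm_num) (by norm_num))
    (exp_neg_leJ (r := 0.99) 14 (by norm_num) (by norm_num) (by norm_num) (by norm_num))
    (exp_neg_leJ (r := 0.271) 8 (by norm_num) (by norm_num) (by norm_num) (by norm_num))
    (exp_neg_leJ (r := 0.99) 14 (by norm_num) (by norm_num) (by norm_num) (by norm_num))
    (exp_neg_leJ (r := 0.99) 14 (by norm_num) (by norm_num) (by norm_num) (by norm_num))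
    (exp_neg_leJ (r := 0.99) 14 (by norm_num) (by norm_num) (by norm_num) (by norm_num))
    (by norm_num)) (by norm_num) hN hβ.le (by norm_num)

private theorem T3_05_p0R_b0_1 {β x y : ℝ} (hβ : 0 < β) (hN : β * 23.809 ≤ 1) (hx1 : 0.3524 ≤ x) (hx2 : x ≤ 0.5499)
    (hy1 : -0.31 ≤ y) (hy2 : y ≤ -0.16) : ‖HH β (x + y * I) - 1‖ ≤ 0.045 := by
  refine le_epsJ (C := 1.0513) (N0 := 23.809) (J_boxp 0.3524 0.5499 0.31 0 (-0.16) 0.738 0.6313 1.004 1.5805 0.3998 4.8795 23.809 0.8555 3.239 1.474 0.9224 0.3689 0.2637 0.6395 2.7912 0.3568 0.9879 1.4328 3.7008 0.0001536 0.001878 0.0000003101 0.0000003101 0.0002046 0.0000003101 0.0000003101 0.0000003101 1.0513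
    hβ hN hx1 hx2 hy1 hy2 (by norm_num) (by norm_num) (by linarith) (by norm_num) (by norm_num) (by norm_num) (by norm_num) (by norm_num) (by norm_num) (by norm_num) (by norm_num) (by norm_num) (by norm_num) (by norm_num) (by norm_num) (by norm_num) (by norm_num) (by norm_num) (by norm_num) (by norm_num) (by norm_num) (by norm_num) (by norm_num) (by norm_num)
    (cube_sqrt_geJ (s := 0.8454) (by norm_num) (by norm_num) (by norm_num) (by norm_num))
    (cube_sqrt_geJ (s := 0.9461) (by norm_num) (by norm_num) (by norm_num) (by norm_num))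
    (by norm_num) (by norm_num) (by norm_num) (by norm_num) (by norm_num) (by norm_num) (by norm_num) (by norm_num) (by norm_num) (by norm_num) (by norm_num) (by norm_num) (by norm_num) (by norm_num) (by norm_num) (by norm_num) (by norm_num) (by norm_num)
    (exp_neg_leJ (r := 0.783) 8 (by norm_num) (by norm_num) (by norm_num) (by norm_num))
    (exp_neg_leJ (r := 0.278) 6 (by norm_num) (by norm_num) (by norm_num) (by norm_num))
    (exp_neg_leJ (r := 0.99) 14 (by norm_num) (by norm_num) (by norm_num) (by norm_num))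
    (exp_neg_leJ (r := 0.99) 14 (by norm_num) (by norm_num) (by norm_num) (by norm_num))
    (exp_neg_leJ (r := 0.495) 8 (by norm_num) (by norm_num) (by norm_num) (by norm_num))
    (exp_neg_leJ (r := 0.99) 14 (by norm_num) (by norm_num) (by norm_num) (by norm_num))
    (exp_neg_leJ (r := 0.99) 14 (by norm_num) (by norm_num) (by norm_num) (by norm_num))
    (exp_neg_leJ (r := 0.99) 14 (by norm_num) (by norm_num) (by norm_num) (by norm_num))
    (by norm_num)) (by norm_num) hN hβ.le (by norm_num)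

private theorem T3_05_p0R_b0_2 {β x y : ℝ} (hβ : 0 < β) (hN : β * 23.809 ≤ 1) (hx1 : 0.3644 ≤ x) (hx2 : x ≤ 0.4929)
    (hy1 : -0.16 ≤ y) (hy2 : y ≤ 0.005) : ‖HH β (x + y * I) - 1‖ ≤ 0.045 := by
  refine le_epsJ (C := 0.3979) (N0 := 23.809) (J_boxp 0.3644 0.4929 0.16 0.005 0.005 0.853 0.5183 1.1194 1.343 0.4221 4.8795 23.809 0.6077 2.209 1.311 1.0828 0.4264 0.3401 0.8804 3.3101 0.4441 1.004 1.8431 4.0084 0.000039 0.0003045 0.0000003101 0.0000003101 0.00002561 0.0000003101 0.0000003101 0.0000003101 0.3979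
    hβ hN hx1 hx2 hy1 hy2 (by norm_num) (by norm_num) (by linarith) (by norm_num) (by norm_num) (by norm_num) (by norm_num) (by norm_num) (by norm_num) (by norm_num) (by norm_num) (by norm_num) (by norm_num) (by norm_num) (by norm_num) (by norm_num) (by norm_num) (by norm_num) (by norm_num) (by norm_num) (by norm_num) (by norm_num) (by norm_num) (by norm_num)
    (cube_sqrt_geJ (s := 0.8929) (by norm_num) (by norm_num) (by norm_num) (by norm_num))
    (cube_sqrt_geJ (s := 0.962) (by norm_num) (by norm_num) (by norm_num) (by norm_num))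
    (by norm_num) (by norm_num) (by norm_num) (by norm_num) (by norm_num) (by norm_num) (by norm_num) (by norm_num) (by norm_num) (by norm_num) (by norm_num) (by norm_num) (by norm_num) (by norm_num) (by norm_num) (by norm_num) (by norm_num) (by norm_num)
    (exp_neg_leJ (r := 0.152) 10 (by norm_num) (by norm_num) (by norm_num) (by norm_num))
    (exp_neg_leJ (r := 0.097) 8 (by norm_num) (by norm_num) (by norm_num) (by norm_num))
    (exp_neg_leJ (r := 0.99) 14 (by norm_num) (by norm_num) (by norm_num) (by norm_num))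
    (exp_neg_leJ (r := 0.99) 14 (by norm_num) (by norm_num) (by norm_num) (by norm_num))
    (exp_neg_leJ (r := 0.573) 10 (by norm_num) (by norm_num) (by norm_num) (by norm_num))
    (exp_neg_leJ (r := 0.99) 14 (by norm_num) (by norm_num) (by norm_num) (by norm_num))
    (exp_neg_leJ (r := 0.99) 14 (by norm_num) (by norm_num) (by norm_num) (by norm_num))
    (exp_neg_leJ (r := 0.99) 14 (by norm_num) (by norm_num) (by norm_num) (by norm_num))
    (by norm_num)) (by norm_num) hN hβ.le (by norm_num)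

private theorem T3_05_p0R_c0 {κ t β : ℝ} (h : DomR κ t) (hβ : 0 < β) (hk1 : 0.4 ≤ κ) (hk2 : κ ≤ 0.42)
    (ht1 : -0.7124 ≤ t + κ) (ht2 : t + κ ≤ 0.0001) (hR0 : β * 10 ≤ κ) (hR : β * (1 * (1 + κ ^ 2)) ≤ κ) :
    ‖HH β (sg κ t) - 1‖ ≤ 0.045 := by
  have hN : β * 23.809 ≤ 1 := bNR hβ h.1 hk2 hR0 (by norm_num)
  have hy1 : -0.37 ≤ sy κ t := syL_ang2 h 0.4 0.42 0.7124 0.654 0.7936 0.6084 0.37 1.44773 0.69073 hk1 hk2 (by linarith) (by norm_num) (by norm_num) (by norm_num) (by norm_num)
    (cos_ge_num (by norm_num) (by norm_num)) (sin_le_num (by norm_num) (by norm_num))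
    (expn_ge (by norm_num) (by norm_num)) (expm_ge (by norm_num) (by norm_num) (by norm_num) (by norm_num)) (by norm_num) (by norm_num) (by norm_num)
    (by norm_num) (by norm_num) (by norm_num)
  have hy2 : sy κ t ≤ 0.005 := syR_le h 0.4 0.42 0.0001 0.005 1.00501 0.0118 0.01196 0.01257 hk1 hk2 (by linarith) (by norm_num) (by norm_num)
    (expn_ge (by norm_num) (by norm_num)) (by norm_num) (by norm_num) (Or.inr ((mul_le_mul_of_nonneg_left (expn_le (E := 1.00502) (by norm_num) (by norm_num) (by norm_num)) (by norm_num)).trans (by norm_num))) (by norm_num) (by norm_num) (by norm_num)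
  rcases le_total (sy κ t) (-0.31) with f0 | g0
  · have hx1 : 0.4006 ≤ sx κ t := sx_lo h 0.4 (-0.31) 0.37 1.36342 0.4006 hk1 (by norm_num) f0 (abs_le.2 ⟨by linarith, by linarith⟩) (by rw [neg_neg]; exact expn_ge (by norm_num) (by norm_num)) (by norm_num) (by norm_num)
    have hx2 : sx κ t ≤ 0.5231 := sx_hi h 0.42 (-0.37) 0.31 1.44774 0.5231 hk2 hy1 (by norm_num) (by rw [abs_of_nonpos (by linarith)]; linarith) (by rw [neg_neg]; exact expn_le (by norm_num) (by norm_num) (by norm_num)) (by norm_num) (by norm_num)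
    exact T3_05_p0R_b0_0 hβ hN hx1 hx2 (by linarith) (by linarith)
  rcases le_total (sy κ t) (-0.16) with f1 | g1
  · have hx1 : 0.3524 ≤ sx κ t := sx_lo h 0.4 (-0.16) 0.31 1.17351 0.3524 hk1 (by norm_num) f1 (abs_le.2 ⟨by linarith, by linarith⟩) (by rw [neg_neg]; exact expn_ge (by norm_num) (by norm_num)) (by norm_num) (by norm_num)
    have hx2 : sx κ t ≤ 0.5499 := sx_hi h 0.42 (-0.31) 0.16 1.36343 0.5499 hk2 g0 (by norm_num) (by rw [abs_of_nonpos (by linarith)]; linarith) (by rw [neg_neg]; exact expn_le (by norm_num) (by norm_num) (by norm_num)) (by norm_num) (by norm_num)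
    exact T3_05_p0R_b0_1 hβ hN hx1 hx2 (by linarith) (by linarith)
  have hx1 : 0.3644 ≤ sx κ t := sx_lo h 0.4 0.005 0.16 0.99501 0.3644 hk1 (by norm_num) hy2 (abs_le.2 ⟨by linarith, by linarith⟩) (expm_ge (by norm_num) (by norm_num) (by norm_num) (by norm_num)) (by norm_num) (by norm_num)
  have hx2 : sx κ t ≤ 0.4929 := sx_hi h 0.42 (-0.16) 0 1.17352 0.4929 hk2 g1 (by norm_num) (abs_nonneg _) (by rw [neg_neg]; exact expn_le (by norm_num) (by norm_num) (by norm_num)) (by norm_num) (by norm_num)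
  exact T3_05_p0R_b0_2 hβ hN hx1 hx2 (by linarith) (by linarith)

theorem T3_05_p0R {κ t β : ℝ} (h : DomR κ t) (hβ : 0 < β) (hk1 : 0.4 ≤ κ) (hk2 : κ ≤ 0.42)
    (ht1 : -0.7124 ≤ t + κ) (ht2 : t + κ ≤ 0.0001) (hR0 : β * 10 ≤ κ) (hR : β * (1 * (1 + κ ^ 2)) ≤ κ) :
    ‖HH β (sg κ t) - 1‖ ≤ 0.045 := by
  exact T3_05_p0R_c0 h hβ hk1 hk2 ht1 ht2 hR0 hR

private theorem T3_05_d0_0_b0_0 {β x y : ℝ} (hβ : 0 < β) (hN : β * 24.39 ≤ 1) (hx1 : 0.3777 ≤ x) (hx2 : x ≤ 0.4909)
    (hy1 : -0.595 ≤ y) (hy2 : y ≤ -0.525) : ‖HH β (x + y * I) - 1‖ ≤ 0.29 := by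
  refine le_epsJ (C := 6.6652) (N0 := 24.39) (J_boxp 0.3777 0.4909 0.595 0 (-0.525) 0.5535 0.7714 0.6831 2.0071 0.3298 4.9387 24.39 1.3937 8.904 1.926 0.682 0.2767 0.1481 0.1983 1.877 0.2134 1.0229 0.7087 3.3706 0.001175 0.02701 0.007953 0.0000003101 0.005495 0.0000003101 0.0000003101 0.0000003101 6.6652
    hβ hN hx1 hx2 hy1 hy2 (by norm_num) (by norm_num) (by linarith) (by norm_num) (by norm_num) (by norm_num) (by norm_num) (by norm_num) (by norm_num) (by norm_num) (by norm_num) (by norm_num) (by norm_num) (by norm_num) (by norm_num) (by norm_num) (by norm_num) (by norm_num) (by norm_num) (by norm_num) (by norm_num) (by norm_num) (by norm_num) (by norm_num)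
    (cube_sqrt_geJ (s := 0.7317) (by norm_num) (by norm_num) (by norm_num) (by norm_num))
    (cube_sqrt_geJ (s := 0.9106) (by norm_num) (by norm_num) (by norm_num) (by norm_num))
    (by norm_num) (by norm_num) (by norm_num) (by norm_num) (by norm_num) (by norm_num) (by norm_num) (by norm_num) (by norm_num) (by norm_num) (by norm_num) (by norm_num) (by norm_num) (by norm_num) (by norm_num) (by norm_num) (by norm_num) (by norm_num)
    (exp_neg_leJ (r := 0.748) 6 (by norm_num) (by norm_num) (by norm_num) (by norm_num))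
    (exp_neg_leJ (r := 0.612) 3 (by norm_num) (by norm_num) (by norm_num) (by norm_num))
    (exp_neg_leJ (r := 0.836) 4 (by norm_num) (by norm_num) (by norm_num) (by norm_num))
    (exp_neg_leJ (r := 0.99) 14 (by norm_num) (by norm_num) (by norm_num) (by norm_num))
    (exp_neg_leJ (r := 0.204) 5 (by norm_num) (by norm_num) (by norm_num) (by norm_num))
    (exp_neg_leJ (r := 0.99) 14 (by norm_num) (by norm_num) (by norm_num) (by norm_num))
    (exp_neg_leJ (r := 0.99) 14 (by norm_num) (by norm_num) (by norm_num) (by norm_num))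
    (exp_neg_leJ (r := 0.99) 14 (by norm_num) (by norm_num) (by norm_num) (by norm_num))
    (by norm_num)) (by norm_num) hN hβ.le (by norm_num)

private theorem T3_05_d0_0_b0_1 {β x y : ℝ} (hβ : 0 < β) (hN : β * 24.39 ≤ 1) (hx1 : 0.368 ≤ x) (hx2 : x ≤ 0.5032)
    (hy1 : -0.585 ≤ y) (hy2 : y ≤ -0.505) : ‖HH β (x + y * I) - 1‖ ≤ 0.29 := by
  refine le_epsJ (C := 6.7643) (N0 := 24.39) (J_boxp 0.368 0.5032 0.585 0 (-0.505) 0.5537 0.7717 0.7059 2.0392 0.3352 4.9387 24.39 1.3938 8.905 1.926 0.6865 0.2768 0.1482 0.2108 1.9045 0.2141 1.0095 0.7164 3.3503 0.001171 0.02696 0.005852 0.0000003101 0.005402 0.0000003101 0.0000003101 0.0000003101 6.7643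
    hβ hN hx1 hx2 hy1 hy2 (by norm_num) (by norm_num) (by linarith) (by norm_num) (by norm_num) (by norm_num) (by norm_num) (by norm_num) (by norm_num) (by norm_num) (by norm_num) (by norm_num) (by norm_num) (by norm_num) (by norm_num) (by norm_num) (by norm_num) (by norm_num) (by norm_num) (by norm_num) (by norm_num) (by norm_num) (by norm_num) (by norm_num)
    (cube_sqrt_geJ (s := 0.7317) (by norm_num) (by norm_num) (by norm_num) (by norm_num))
    (cube_sqrt_geJ (s := 0.9106) (by norm_num) (by norm_num) (by norm_num) (by norm_num))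
    (by norm_num) (by norm_num) (by norm_num) (by norm_num) (by norm_num) (by norm_num) (by norm_num) (by norm_num) (by norm_num) (by norm_num) (by norm_num) (by norm_num) (by norm_num) (by norm_num) (by norm_num) (by norm_num) (by norm_num) (by norm_num)
    (exp_neg_leJ (r := 0.751) 6 (by norm_num) (by norm_num) (by norm_num) (by norm_num))
    (exp_neg_leJ (r := 0.614) 3 (by norm_num) (by norm_num) (by norm_num) (by norm_num))
    (exp_neg_leJ (r := 0.141) 5 (by norm_num) (by norm_num) (by norm_num) (by norm_num))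
    (exp_neg_leJ (r := 0.99) 14 (by norm_num) (by norm_num) (by norm_num) (by norm_num))
    (exp_neg_leJ (r := 0.221) 5 (by norm_num) (by norm_num) (by norm_num) (by norm_num))
    (exp_neg_leJ (r := 0.99) 14 (by norm_num) (by norm_num) (by norm_num) (by norm_num))
    (exp_neg_leJ (r := 0.99) 14 (by norm_num) (by norm_num) (by norm_num) (by norm_num))
    (exp_neg_leJ (r := 0.99) 14 (by norm_num) (by norm_num) (by norm_num) (by norm_num))
    (by norm_num)) (by norm_num) hN hβ.le (by norm_num)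

private theorem T3_05_d0_0_b0_2 {β x y : ℝ} (hβ : 0 < β) (hN : β * 24.39 ≤ 1) (hx1 : 0.3499 ≤ x) (hx2 : x ≤ 0.5251)
    (hy1 : -0.565 ≤ y) (hy2 : y ≤ -0.465) : ‖HH β (x + y * I) - 1‖ ≤ 0.29 := by
  refine le_epsJ (C := 6.8423) (N0 := 24.39) (J_boxp 0.3499 0.5251 0.565 0 (-0.465) 0.5552 0.7714 0.7497 2.0931 0.3455 4.9387 24.39 1.3895 8.823 1.921 0.6966 0.2775 0.149 0.2362 1.9606 0.2163 0.9844 0.7346 3.315 0.001152 0.02643 0.003155 0.0000003101 0.005119 0.0000003101 0.0000003101 0.0000003101 6.8423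
    hβ hN hx1 hx2 hy1 hy2 (by norm_num) (by norm_num) (by linarith) (by norm_num) (by norm_num) (by norm_num) (by norm_num) (by norm_num) (by norm_num) (by norm_num) (by norm_num) (by norm_num) (by norm_num) (by norm_num) (by norm_num) (by norm_num) (by norm_num) (by norm_num) (by norm_num) (by norm_num) (by norm_num) (by norm_num) (by norm_num) (by norm_num)
    (cube_sqrt_geJ (s := 0.7326) (by norm_num) (by norm_num) (by norm_num) (by norm_num))
    (cube_sqrt_geJ (s := 0.9109) (by norm_num) (by norm_num) (by norm_num) (by norm_num))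
    (by norm_num) (by norm_num) (by norm_num) (by norm_num) (by norm_num) (by norm_num) (by norm_num) (by norm_num) (by norm_num) (by norm_num) (by norm_num) (by norm_num) (by norm_num) (by norm_num) (by norm_num) (by norm_num) (by norm_num) (by norm_num)
    (exp_neg_leJ (r := 0.768) 6 (by norm_num) (by norm_num) (by norm_num) (by norm_num))
    (exp_neg_leJ (r := 0.634) 3 (by norm_num) (by norm_num) (by norm_num) (by norm_num))
    (exp_neg_leJ (r := 0.76) 5 (by norm_num) (by norm_num) (by norm_num) (by norm_num))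
    (exp_neg_leJ (r := 0.99) 14 (by norm_num) (by norm_num) (by norm_num) (by norm_num))
    (exp_neg_leJ (r := 0.275) 5 (by norm_num) (by norm_num) (by norm_num) (by norm_num))
    (exp_neg_leJ (r := 0.99) 14 (by norm_num) (by norm_num) (by norm_num) (by norm_num))
    (exp_neg_leJ (r := 0.99) 14 (by norm_num) (by norm_num) (by norm_num) (by norm_num))
    (exp_neg_leJ (r := 0.99) 14 (by norm_num) (by norm_num) (by norm_num) (by norm_num))
    (by norm_num)) (by norm_num) hN hβ.le (by norm_num)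

private theorem T3_05_d0_0_b0_3 {β x y : ℝ} (hβ : 0 < β) (hN : β * 24.39 ≤ 1) (hx1 : 0.3967 ≤ x) (hx2 : x ≤ 0.4897)
    (hy1 : -0.525 ≤ y) (hy2 : y ≤ -0.461) : ‖HH β (x + y * I) - 1‖ ≤ 0.29 := by
  refine le_epsJ (C := 2.9711) (N0 := 24.39) (J_boxp 0.3967 0.4897 0.525 0 (-0.461) 0.6166 0.718 0.7283 1.7626 0.3405 4.9387 24.39 1.1645 5.583 1.714 0.7471 0.3082 0.1886 0.3153 2.1115 0.2609 1.0492 0.9369 3.5537 0.0005445 0.01007 0.0004578 0.0000003101 0.001725 0.0000003101 0.0000003101 0.0000003101 2.9711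
    hβ hN hx1 hx2 hy1 hy2 (by norm_num) (by norm_num) (by linarith) (by norm_num) (by norm_num) (by norm_num) (by norm_num) (by norm_num) (by norm_num) (by norm_num) (by norm_num) (by norm_num) (by norm_num) (by norm_num) (by norm_num) (by norm_num) (by norm_num) (by norm_num) (by norm_num) (by norm_num) (by norm_num) (by norm_num) (by norm_num) (by norm_num)
    (cube_sqrt_geJ (s := 0.7821) (by norm_num) (by norm_num) (by norm_num) (by norm_num))
    (cube_sqrt_geJ (s := 0.9259) (by norm_num) (by norm_num) (by norm_num) (by norm_num))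
    (by norm_num) (by norm_num) (by norm_num) (by norm_num) (by norm_num) (by norm_num) (by norm_num) (by norm_num) (by norm_num) (by norm_num) (by norm_num) (by norm_num) (by norm_num) (by norm_num) (by norm_num) (by norm_num) (by norm_num) (by norm_num)
    (exp_neg_leJ (r := 0.516) 7 (by norm_num) (by norm_num) (by norm_num) (by norm_num))
    (exp_neg_leJ (r := 0.599) 4 (by norm_num) (by norm_num) (by norm_num) (by norm_num))
    (exp_neg_leJ (r := 0.69) 7 (by norm_num) (by norm_num) (by norm_num) (by norm_num))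
    (exp_neg_leJ (r := 0.99) 14 (by norm_num) (by norm_num) (by norm_num) (by norm_num))
    (exp_neg_leJ (r := 0.363) 6 (by norm_num) (by norm_num) (by norm_num) (by norm_num))
    (exp_neg_leJ (r := 0.99) 14 (by norm_num) (by norm_num) (by norm_num) (by norm_num))
    (exp_neg_leJ (r := 0.99) 14 (by norm_num) (by norm_num) (by norm_num) (by norm_num))
    (exp_neg_leJ (r := 0.99) 14 (by norm_num) (by norm_num) (by norm_num) (by norm_num))
    (by norm_num)) (by norm_num) hN hβ.le (by norm_num)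

private theorem T3_05_d0_0_c0 {κ t β : ℝ} (h : DomR κ t) (hβ : 0 < β) (hk1 : 0.4 ≤ κ) (hk2 : κ ≤ 0.41)
    (ht1 : -0.9364 ≤ t + κ) (ht2 : t + κ ≤ -0.90639) (hR0 : β * 10 ≤ κ) (hR : β * (1 * (1 + κ ^ 2)) ≤ κ) :
    ∀ s : ℂ, ‖s - sg κ t‖ ≤ 0.03 → ‖HH β s - 1‖ ≤ 0.29 := by
  have hN : β * 24.39 ≤ 1 := bNR hβ h.1 hk2 hR0 (by norm_num)
  have hy1 : -0.565 ≤ sy κ t := syL_ang2 h 0.4 0.41 0.9364 0.899 0.6223 0.7828 0.565 1.75944 0.56836 hk1 hk2 (by linarith) (by norm_num) (by norm_num) (by norm_num) (by norm_num)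
    (cos_ge_num (by norm_num) (by norm_num)) (sin_le_num (by norm_num) (by norm_num))
    (expn_ge (by norm_num) (by norm_num)) (expm_ge (by norm_num) (by norm_num) (by norm_num) (by norm_num)) (by norm_num) (by norm_num) (by norm_num)
    (by norm_num) (by norm_num) (by norm_num)
  have hy2 : sy κ t ≤ -0.491 := syL_le h 0.4 0.41 0.90639 0.491 0.61201 0.61202 0.73291 0.75126 hk1 hk2 (by linarith) (by norm_num) (by norm_num) (by norm_num)
    (expm_ge (by norm_num) (by norm_num) (by norm_num) (by norm_num)) (expm_le (by norm_num) (by norm_num) (by norm_num)) (by norm_num)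
    (by norm_num) (by norm_num) (by norm_num) (by norm_num) (by norm_num) (by norm_num)
  intro s hs
  have hs' : ‖s - ((sx κ t : ℂ) + (sy κ t : ℂ) * I)‖ ≤ 0.03 := hs
  obtain ⟨es, ⟨s1, s2⟩, ⟨s3, s4⟩⟩ := disc_split hs'
  rcases le_total (sy κ t) (-0.555) with f0 | g0
  · have hx1 : 0.4077 ≤ sx κ t := sx_lo h 0.4 (-0.555) 0.565 1.74193 0.4077 hk1 (by norm_num) f0 (abs_le.2 ⟨by linarith, by linarith⟩) (by rw [neg_neg]; exact expn_ge (by norm_num) (by norm_num)) (by norm_num) (by norm_num)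
    have hx2 : sx κ t ≤ 0.4609 := sx_hi h 0.41 (-0.565) 0.555 1.75945 0.4609 hk2 hy1 (by norm_num) (by rw [abs_of_nonpos (by linarith)]; linarith) (by rw [neg_neg]; exact expn_le (by norm_num) (by norm_num) (by norm_num)) (by norm_num) (by norm_num)
    rw [es]
    exact T3_05_d0_0_b0_0 hβ hN (by linarith) (by linarith) (by linarith) (by linarith)
  rcases le_total (sy κ t) (-0.535) with f1 | g1
  · have hx1 : 0.398 ≤ sx κ t := sx_lo h 0.4 (-0.535) 0.555 1.70744 0.398 hk1 (by norm_num) f1 (abs_le.2 ⟨by linarith, by linarith⟩) (by rw [neg_neg]; exact expn_ge (by norm_num) (by norm_num)) (by norm_num) (by norm_num)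
    have hx2 : sx κ t ≤ 0.4732 := sx_hi h 0.41 (-0.555) 0.535 1.74195 0.4732 hk2 g0 (by norm_num) (by rw [abs_of_nonpos (by linarith)]; linarith) (by rw [neg_neg]; exact expn_le (by norm_num) (by norm_num) (by norm_num)) (by norm_num) (by norm_num)
    rw [es]
    exact T3_05_d0_0_b0_1 hβ hN (by linarith) (by linarith) (by linarith) (by linarith)
  rcases le_total (sy κ t) (-0.495) with f2 | g2
  · have hx1 : 0.3799 ≤ sx κ t := sx_lo h 0.4 (-0.495) 0.535 1.64049 0.3799 hk1 (by norm_num) f2 (abs_le.2 ⟨by linarith, by linarith⟩) (by rw [neg_neg]; exact expn_ge (by norm_num) (by norm_num)) (by norm_num) (by norm_num)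
    have hx2 : sx κ t ≤ 0.4951 := sx_hi h 0.41 (-0.535) 0.495 1.70745 0.4951 hk2 g1 (by norm_num) (by rw [abs_of_nonpos (by linarith)]; linarith) (by rw [neg_neg]; exact expn_le (by norm_num) (by norm_num) (by norm_num)) (by norm_num) (by norm_num)
    rw [es]
    exact T3_05_d0_0_b0_2 hβ hN (by linarith) (by linarith) (by linarith) (by linarith)
  have hx1 : 0.4267 ≤ sx κ t := sx_lo h 0.4 (-0.491) 0.495 1.63394 0.4267 hk1 (by norm_num) hy2 (abs_le.2 ⟨by linarith, by linarith⟩) (by rw [neg_neg]; exact expn_ge (by norm_num) (by norm_num)) (by norm_num) (by norm_num)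
  have hx2 : sx κ t ≤ 0.4597 := sx_hi h 0.41 (-0.495) 0.491 1.6405 0.4597 hk2 g2 (by norm_num) (by rw [abs_of_nonpos (by linarith)]; linarith) (by rw [neg_neg]; exact expn_le (by norm_num) (by norm_num) (by norm_num)) (by norm_num) (by norm_num)
  rw [es]
  exact T3_05_d0_0_b0_3 hβ hN (by linarith) (by linarith) (by linarith) (by linarith)

private theorem T3_05_d0_0_b1_0 {β x y : ℝ} (hβ : 0 < β) (hN : β * 23.809 ≤ 1) (hx1 : 0.4111 ≤ x) (hx2 : x ≤ 0.5118)
    (hy1 : -0.609 ≤ y) (hy2 : y ≤ -0.544) : ‖HH β (x + y * I) - 1‖ ≤ 0.29 := by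
  refine le_epsJ (C := 6.6014) (N0 := 23.809) (J_boxp 0.4111 0.5118 0.609 0 (-0.544) 0.5671 0.7955 0.6855 1.9388 0.3304 4.8795 23.809 1.4028 9.083 1.935 0.6611 0.2835 0.1509 0.1877 1.8201 0.222 1.0692 0.7374 3.3718 0.001174 0.02756 0.01148 0.0000003101 0.005068 0.0000003101 0.0000003101 0.0000003101 6.6014
    hβ hN hx1 hx2 hy1 hy2 (by norm_num) (by norm_num) (by linarith) (by norm_num) (by norm_num) (by norm_num) (by norm_num) (by norm_num) (by norm_num) (by norm_num) (by norm_num) (by norm_num) (by norm_num) (by norm_num) (by norm_num) (by norm_num) (by norm_num) (by norm_num) (by norm_num) (by norm_num) (by norm_num) (by norm_num) (by norm_num) (by norm_num)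
    (cube_sqrt_geJ (s := 0.7296) (by norm_num) (by norm_num) (by norm_num) (by norm_num))
    (cube_sqrt_geJ (s := 0.91) (by norm_num) (by norm_num) (by norm_num) (by norm_num))
    (by norm_num) (by norm_num) (by norm_num) (by norm_num) (by norm_num) (by norm_num) (by norm_num) (by norm_num) (by norm_num) (by norm_num) (by norm_num) (by norm_num) (by norm_num) (by norm_num) (by norm_num) (by norm_num) (by norm_num) (by norm_num)
    (exp_neg_leJ (r := 0.749) 6 (by norm_num) (by norm_num) (by norm_num) (by norm_num))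
    (exp_neg_leJ (r := 0.592) 3 (by norm_num) (by norm_num) (by norm_num) (by norm_num))
    (exp_neg_leJ (r := 0.468) 4 (by norm_num) (by norm_num) (by norm_num) (by norm_num))
    (exp_neg_leJ (r := 0.99) 14 (by norm_num) (by norm_num) (by norm_num) (by norm_num))
    (exp_neg_leJ (r := 0.285) 5 (by norm_num) (by norm_num) (by norm_num) (by norm_num))
    (exp_neg_leJ (r := 0.99) 14 (by norm_num) (by norm_num) (by norm_num) (by norm_num))
    (exp_neg_leJ (r := 0.99) 14 (by norm_num) (by norm_num) (by norm_num) (by norm_num))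
    (exp_neg_leJ (r := 0.99) 14 (by norm_num) (by norm_num) (by norm_num) (by norm_num))
    (by norm_num)) (by norm_num) hN hβ.le (by norm_num)

private theorem T3_05_d0_0_b1_1 {β x y : ℝ} (hβ : 0 < β) (hN : β * 23.809 ≤ 1) (hx1 : 0.4057 ≤ x) (hx2 : x ≤ 0.5178)
    (hy1 : -0.604 ≤ y) (hy2 : y ≤ -0.534) : ‖HH β (x + y * I) - 1‖ ≤ 0.29 := by
  refine le_epsJ (C := 6.6726) (N0 := 23.809) (J_boxp 0.4057 0.5178 0.604 0 (-0.534) 0.5668 0.7956 0.6967 1.9561 0.333 4.8795 23.809 1.4037 9.101 1.935 0.6634 0.2833 0.1507 0.1937 1.8339 0.2221 1.0617 0.7402 3.3608 0.001178 0.02767 0.009947 0.0000003101 0.005058 0.0000003101 0.0000003101 0.0000003101 6.6726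
    hβ hN hx1 hx2 hy1 hy2 (by norm_num) (by norm_num) (by linarith) (by norm_num) (by norm_num) (by norm_num) (by norm_num) (by norm_num) (by norm_num) (by norm_num) (by norm_num) (by norm_num) (by norm_num) (by norm_num) (by norm_num) (by norm_num) (by norm_num) (by norm_num) (by norm_num) (by norm_num) (by norm_num) (by norm_num) (by norm_num) (by norm_num)
    (cube_sqrt_geJ (s := 0.7294) (by norm_num) (by norm_num) (by norm_num) (by norm_num))
    (cube_sqrt_geJ (s := 0.91) (by norm_num) (by norm_num) (by norm_num) (by norm_num))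
    (by norm_num) (by norm_num) (by norm_num) (by norm_num) (by norm_num) (by norm_num) (by norm_num) (by norm_num) (by norm_num) (by norm_num) (by norm_num) (by norm_num) (by norm_num) (by norm_num) (by norm_num) (by norm_num) (by norm_num) (by norm_num)
    (exp_neg_leJ (r := 0.745) 6 (by norm_num) (by norm_num) (by norm_num) (by norm_num))
    (exp_neg_leJ (r := 0.588) 3 (by norm_num) (by norm_num) (by norm_num) (by norm_num))
    (exp_neg_leJ (r := 0.611) 4 (by norm_num) (by norm_num) (by norm_num) (by norm_num))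
    (exp_neg_leJ (r := 0.99) 14 (by norm_num) (by norm_num) (by norm_num) (by norm_num))
    (exp_neg_leJ (r := 0.287) 5 (by norm_num) (by norm_num) (by norm_num) (by norm_num))
    (exp_neg_leJ (r := 0.99) 14 (by norm_num) (by norm_num) (by norm_num) (by norm_num))
    (exp_neg_leJ (r := 0.99) 14 (by norm_num) (by norm_num) (by norm_num) (by norm_num))
    (exp_neg_leJ (r := 0.99) 14 (by norm_num) (by norm_num) (by norm_num) (by norm_num))
    (by norm_num)) (by norm_num) hN hβ.le (by norm_num)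

private theorem T3_05_d0_0_b1_2 {β x y : ℝ} (hβ : 0 < β) (hN : β * 23.809 ≤ 1) (hx1 : 0.3952 ≤ x) (hx2 : x ≤ 0.5291)
    (hy1 : -0.594 ≤ y) (hy2 : y ≤ -0.514) : ‖HH β (x + y * I) - 1‖ ≤ 0.29 := by
  refine le_epsJ (C := 6.7858) (N0 := 23.809) (J_boxp 0.3952 0.5291 0.594 0 (-0.514) 0.5665 0.7955 0.7185 1.988 0.3382 4.8795 23.809 1.4043 9.112 1.936 0.6683 0.2832 0.1506 0.2059 1.8619 0.2224 1.0471 0.7464 3.34 0.001182 0.02775 0.00745 0.0000003101 0.005017 0.0000003101 0.0000003101 0.0000003101 6.7858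
    hβ hN hx1 hx2 hy1 hy2 (by norm_num) (by norm_num) (by linarith) (by norm_num) (by norm_num) (by norm_num) (by norm_num) (by norm_num) (by norm_num) (by norm_num) (by norm_num) (by norm_num) (by norm_num) (by norm_num) (by norm_num) (by norm_num) (by norm_num) (by norm_num) (by norm_num) (by norm_num) (by norm_num) (by norm_num) (by norm_num) (by norm_num)
    (cube_sqrt_geJ (s := 0.7293) (by norm_num) (by norm_num) (by norm_num) (by norm_num))
    (cube_sqrt_geJ (s := 0.9099) (by norm_num) (by norm_num) (by norm_num) (by norm_num))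
    (by norm_num) (by norm_num) (by norm_num) (by norm_num) (by norm_num) (by norm_num) (by norm_num) (by norm_num) (by norm_num) (by norm_num) (by norm_num) (by norm_num) (by norm_num) (by norm_num) (by norm_num) (by norm_num) (by norm_num) (by norm_num)
    (exp_neg_leJ (r := 0.742) 6 (by norm_num) (by norm_num) (by norm_num) (by norm_num))
    (exp_neg_leJ (r := 0.585) 3 (by norm_num) (by norm_num) (by norm_num) (by norm_num))
    (exp_neg_leJ (r := 0.902) 4 (by norm_num) (by norm_num) (by norm_num) (by norm_num))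
    (exp_neg_leJ (r := 0.99) 14 (by norm_num) (by norm_num) (by norm_num) (by norm_num))
    (exp_neg_leJ (r := 0.295) 5 (by norm_num) (by norm_num) (by norm_num) (by norm_num))
    (exp_neg_leJ (r := 0.99) 14 (by norm_num) (by norm_num) (by norm_num) (by norm_num))
    (exp_neg_leJ (r := 0.99) 14 (by norm_num) (by norm_num) (by norm_num) (by norm_num))
    (exp_neg_leJ (r := 0.99) 14 (by norm_num) (by norm_num) (by norm_num) (by norm_num))
    (by norm_num)) (by norm_num) hN hβ.le (by norm_num)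

private theorem T3_05_d0_0_b1_3 {β x y : ℝ} (hβ : 0 < β) (hN : β * 23.809 ≤ 1) (hx1 : 0.3769 ≤ x) (hx2 : x ≤ 0.5483)
    (hy1 : -0.574 ≤ y) (hy2 : y ≤ -0.475) : ‖HH β (x + y * I) - 1‖ ≤ 0.29 := by
  refine le_epsJ (C := 6.8157) (N0 := 23.809) (J_boxp 0.3769 0.5483 0.574 0 (-0.475) 0.5678 0.7938 0.7592 2.0366 0.3477 4.8795 23.809 1.3981 8.99 1.93 0.6793 0.2838 0.1515 0.2312 1.9192 0.2245 1.0218 0.7641 3.3081 0.001166 0.02715 0.004072 0.0000003101 0.004773 0.0000003101 0.0000003101 0.0000003101 6.8157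
    hβ hN hx1 hx2 hy1 hy2 (by norm_num) (by norm_num) (by linarith) (by norm_num) (by norm_num) (by norm_num) (by norm_num) (by norm_num) (by norm_num) (by norm_num) (by norm_num) (by norm_num) (by norm_num) (by norm_num) (by norm_num) (by norm_num) (by norm_num) (by norm_num) (by norm_num) (by norm_num) (by norm_num) (by norm_num) (by norm_num) (by norm_num)
    (cube_sqrt_geJ (s := 0.7307) (by norm_num) (by norm_num) (by norm_num) (by norm_num))
    (cube_sqrt_geJ (s := 0.9103) (by norm_num) (by norm_num) (by norm_num) (by norm_num))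
    (by norm_num) (by norm_num) (by norm_num) (by norm_num) (by norm_num) (by norm_num) (by norm_num) (by norm_num) (by norm_num) (by norm_num) (by norm_num) (by norm_num) (by norm_num) (by norm_num) (by norm_num) (by norm_num) (by norm_num) (by norm_num)
    (exp_neg_leJ (r := 0.756) 6 (by norm_num) (by norm_num) (by norm_num) (by norm_num))
    (exp_neg_leJ (r := 0.607) 3 (by norm_num) (by norm_num) (by norm_num) (by norm_num))
    (exp_neg_leJ (r := 0.504) 5 (by norm_num) (by norm_num) (by norm_num) (by norm_num))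
    (exp_neg_leJ (r := 0.99) 14 (by norm_num) (by norm_num) (by norm_num) (by norm_num))
    (exp_neg_leJ (r := 0.345) 5 (by norm_num) (by norm_num) (by norm_num) (by norm_num))
    (exp_neg_leJ (r := 0.99) 14 (by norm_num) (by norm_num) (by norm_num) (by norm_num))
    (exp_neg_leJ (r := 0.99) 14 (by norm_num) (by norm_num) (by norm_num) (by norm_num))
    (exp_neg_leJ (r := 0.99) 14 (by norm_num) (by norm_num) (by norm_num) (by norm_num))
    (by norm_num)) (by norm_num) hN hβ.le (by norm_num)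

private theorem T3_05_d0_0_c1 {κ t β : ℝ} (h : DomR κ t) (hβ : 0 < β) (hk1 : 0.41 ≤ κ) (hk2 : κ ≤ 0.42)
    (ht1 : -0.9364 ≤ t + κ) (ht2 : t + κ ≤ -0.90639) (hR0 : β * 10 ≤ κ) (hR : β * (1 * (1 + κ ^ 2)) ≤ κ) :
    ∀ s : ℂ, ‖s - sg κ t‖ ≤ 0.03 → ‖HH β s - 1‖ ≤ 0.29 := by
  have hN : β * 23.809 ≤ 1 := bNR hβ h.1 hk2 hR0 (by norm_num)
  have hy1 : -0.579 ≤ sy κ t := syL_ang2 h 0.41 0.42 0.9364 0.882 0.6355 0.7721 0.579 1.78424 0.56045 hk1 hk2 (by linarith) (by norm_num) (by norm_num) (by norm_num) (by norm_num)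
    (cos_ge_num (by norm_num) (by norm_num)) (sin_le_num (by norm_num) (by norm_num))
    (expn_ge (by norm_num) (by norm_num)) (expm_ge (by norm_num) (by norm_num) (by norm_num) (by norm_num)) (by norm_num) (by norm_num) (by norm_num)
    (by norm_num) (by norm_num) (by norm_num)
  have hy2 : sy κ t ≤ -0.505 := syL_le h 0.41 0.42 0.90639 0.505 0.6035 0.60351 0.72563 0.74335 hk1 hk2 (by linarith) (by norm_num) (by norm_num) (by norm_num)
    (expm_ge (by norm_num) (by norm_num) (by norm_num) (by norm_num)) (expm_le (by norm_num) (by norm_num) (by norm_num)) (by norm_num)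
    (by norm_num) (by norm_num) (by norm_num) (by norm_num) (by norm_num) (by norm_num)
  intro s hs
  have hs' : ‖s - ((sx κ t : ℂ) + (sy κ t : ℂ) * I)‖ ≤ 0.03 := hs
  obtain ⟨es, ⟨s1, s2⟩, ⟨s3, s4⟩⟩ := disc_split hs'
  rcases le_total (sy κ t) (-0.574) with f0 | g0
  · have hx1 : 0.4411 ≤ sx κ t := sx_lo h 0.41 (-0.574) 0.579 1.77534 0.4411 hk1 (by norm_num) f0 (abs_le.2 ⟨by linarith, by linarith⟩) (by rw [neg_neg]; exact expn_ge (by norm_num) (by norm_num)) (by norm_num) (by norm_num)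
    have hx2 : sx κ t ≤ 0.4818 := sx_hi h 0.42 (-0.579) 0.574 1.78426 0.4818 hk2 hy1 (by norm_num) (by rw [abs_of_nonpos (by linarith)]; linarith) (by rw [neg_neg]; exact expn_le (by norm_num) (by norm_num) (by norm_num)) (by norm_num) (by norm_num)
    rw [es]
    exact T3_05_d0_0_b1_0 hβ hN (by linarith) (by linarith) (by linarith) (by linarith)
  rcases le_total (sy κ t) (-0.564) with f1 | g1
  · have hx1 : 0.4357 ≤ sx κ t := sx_lo h 0.41 (-0.564) 0.574 1.75768 0.4357 hk1 (by norm_num) f1 (abs_le.2 ⟨by linarith, by linarith⟩) (by rw [neg_neg]; exact expn_ge (by norm_num) (by norm_num)) (by norm_num) (by norm_num)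
    have hx2 : sx κ t ≤ 0.4878 := sx_hi h 0.42 (-0.574) 0.564 1.77536 0.4878 hk2 g0 (by norm_num) (by rw [abs_of_nonpos (by linarith)]; linarith) (by rw [neg_neg]; exact expn_le (by norm_num) (by norm_num) (by norm_num)) (by norm_num) (by norm_num)
    rw [es]
    exact T3_05_d0_0_b1_1 hβ hN (by linarith) (by linarith) (by linarith) (by linarith)
  rcases le_total (sy κ t) (-0.544) with f2 | g2
  · have hx1 : 0.4252 ≤ sx κ t := sx_lo h 0.41 (-0.544) 0.564 1.72288 0.4252 hk1 (by norm_num) f2 (abs_le.2 ⟨by linarith, by linarith⟩) (by rw [neg_neg]; exact expn_ge (by norm_num) (by norm_num)) (by norm_num) (by norm_num)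
    have hx2 : sx κ t ≤ 0.4991 := sx_hi h 0.42 (-0.564) 0.544 1.75769 0.4991 hk2 g1 (by norm_num) (by rw [abs_of_nonpos (by linarith)]; linarith) (by rw [neg_neg]; exact expn_le (by norm_num) (by norm_num) (by norm_num)) (by norm_num) (by norm_num)
    rw [es]
    exact T3_05_d0_0_b1_2 hβ hN (by linarith) (by linarith) (by linarith) (by linarith)
  have hx1 : 0.4069 ≤ sx κ t := sx_lo h 0.41 (-0.505) 0.544 1.65698 0.4069 hk1 (by norm_num) hy2 (abs_le.2 ⟨by linarith, by linarith⟩) (by rw [neg_neg]; exact expn_ge (by norm_num) (by norm_num)) (by norm_num) (by norm_num)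
  have hx2 : sx κ t ≤ 0.5183 := sx_hi h 0.42 (-0.544) 0.505 1.72289 0.5183 hk2 g2 (by norm_num) (by rw [abs_of_nonpos (by linarith)]; linarith) (by rw [neg_neg]; exact expn_le (by norm_num) (by norm_num) (by norm_num)) (by norm_num) (by norm_num)
  rw [es]
  exact T3_05_d0_0_b1_3 hβ hN (by linarith) (by linarith) (by linarith) (by linarith)

theorem T3_05_d0_0 {κ t β : ℝ} (h : DomR κ t) (hβ : 0 < β) (hk1 : 0.4 ≤ κ) (hk2 : κ ≤ 0.42)
    (ht1 : -0.9364 ≤ t + κ) (ht2 : t + κ ≤ -0.90639) (hR0 : β * 10 ≤ κ) (hR : β * (1 * (1 + κ ^ 2)) ≤ κ) :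
    ∀ s : ℂ, ‖s - sg κ t‖ ≤ 0.03 → ‖HH β s - 1‖ ≤ 0.29 := by
  rcases le_total κ 0.41 with f0 | g0
  · exact T3_05_d0_0_c0 h hβ hk1 f0 ht1 ht2 hR0 hR
  exact T3_05_d0_0_c1 h hβ g0 hk2 ht1 ht2 hR0 hR

private theorem T3_05_d1_0_b0_0 {β x y : ℝ} (hβ : 0 < β) (hN : β * 24.39 ≤ 1) (hx1 : 0.1259 ≤ x) (hx2 : x ≤ 0.2405)
    (hy1 : -0 ≤ y) (hy2 : y ≤ 0.3) : ‖HH β (x + y * I) - 1‖ ≤ 0.025 := by
  refine le_epsJ (C := 0.31) (N0 := 24.39) (J_boxp 0.1259 0.2405 0 0.3 0.3 0.7987 0.3846 1.3221 1.6109 0.4588 4.9387 24.39 0.4816 1.846 1.238 1.3276 0.3993 0.3352 1.0513 3.9261 0.3855 0.6437 0.5357 2.5048 0.00005906 0.0002817 0.0000003101 0.0000003101 0.00008257 0.0000003101 0.000002119 0.0000003101 0.31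
    hβ hN hx1 hx2 hy1 hy2 (by norm_num) (by norm_num) (by linarith) (by norm_num) (by norm_num) (by norm_num) (by norm_num) (by norm_num) (by norm_num) (by norm_num) (by norm_num) (by norm_num) (by norm_num) (by norm_num) (by norm_num) (by norm_num) (by norm_num) (by norm_num) (by norm_num) (by norm_num) (by norm_num) (by norm_num) (by norm_num) (by norm_num)
    (cube_sqrt_geJ (s := 0.9162) (by norm_num) (by norm_num) (by norm_num) (by norm_num))
    (cube_sqrt_geJ (s := 0.97) (by norm_num) (by norm_num) (by norm_num) (by norm_num))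
    (by norm_num) (by norm_num) (by norm_num) (by norm_num) (by norm_num) (by norm_num) (by norm_num) (by norm_num) (by norm_num) (by norm_num) (by norm_num) (by norm_num) (by norm_num) (by norm_num) (by norm_num) (by norm_num) (by norm_num) (by norm_num)
    (exp_neg_leJ (r := 0.738) 9 (by norm_num) (by norm_num) (by norm_num) (by norm_num))
    (exp_neg_leJ (r := 0.175) 8 (by norm_num) (by norm_num) (by norm_num) (by norm_num))
    (exp_neg_leJ (r := 0.99) 14 (by norm_num) (by norm_num) (by norm_num) (by norm_num))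
    (exp_neg_leJ (r := 0.99) 14 (by norm_num) (by norm_num) (by norm_num) (by norm_num))
    (exp_neg_leJ (r := 0.402) 9 (by norm_num) (by norm_num) (by norm_num) (by norm_num))
    (exp_neg_leJ (r := 0.99) 14 (by norm_num) (by norm_num) (by norm_num) (by norm_num))
    (exp_neg_leJ (r := 0.065) 13 (by norm_num) (by norm_num) (by norm_num) (by norm_num))
    (exp_neg_leJ (r := 0.99) 14 (by norm_num) (by norm_num) (by norm_num) (by norm_num))
    (by norm_num)) (by norm_num) hN hβ.le (by norm_num)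

private theorem T3_05_d1_0_c0 {κ t β : ℝ} (h : DomR κ t) (hβ : 0 < β) (hk1 : 0.4 ≤ κ) (hk2 : κ ≤ 0.41)
    (ht1 : 1.158 ≤ t + κ) (ht2 : t + κ ≤ 1.188) (hR0 : β * 10 ≤ κ) (hR : β * (1 * (1 + κ ^ 2)) ≤ κ) :
    ∀ s : ℂ, ‖s - sg κ t‖ ≤ 0.04 → ‖HH β s - 1‖ ≤ 0.025 := by
  have hN : β * 24.39 ≤ 1 := bNR hβ h.1 hk2 hR0 (by norm_num)
  have hy1 : 0.249 ≤ sy κ t := syR_ge h 0.4 0.41 1.158 0.249 1.28274 1.28275 0.77902 0.79852 hk1 hk2 (by linarith) (by norm_num) (by norm_num)
    (expn_ge (by norm_num) (by norm_num)) (expn_le (by norm_num) (by norm_num) (by norm_num)) (by norm_num)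
    (by norm_num) (by norm_num) (by norm_num) (by norm_num) (by norm_num) (by norm_num)
  have hy2 : sy κ t ≤ 0.26 := syR_ang2 h 0.4 0.41 1.188 0.965 0.5706 0.8223 0.26 0.77106 1.29693 hk1 hk2 (by linarith) (by norm_num) (by norm_num) (by norm_num)
    (cos_le_num (by norm_num)) (sin_le_num (by norm_num) (by norm_num)) (expm_le (by norm_num) (by norm_num) (by norm_num))
    (expn_ge (by norm_num) (by norm_num)) (by norm_num) (by norm_num) (by norm_num) (by norm_num) (by norm_num)
  intro s hs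
  have hs' : ‖s - ((sx κ t : ℂ) + (sy κ t : ℂ) * I)‖ ≤ 0.04 := hs
  obtain ⟨es, ⟨s1, s2⟩, ⟨s3, s4⟩⟩ := disc_split hs'
  have hx1 : 0.1659 ≤ sx κ t := sx_lo h 0.4 0.26 0.26 0.77105 0.1659 hk1 (by norm_num) hy2 (abs_le.2 ⟨by linarith, by linarith⟩) (expm_ge (by norm_num) (by norm_num) (by norm_num) (by norm_num)) (by norm_num) (by norm_num)
  have hx2 : sx κ t ≤ 0.2005 := sx_hi h 0.41 0.249 0.249 0.77958 0.2005 hk2 hy1 (by norm_num) (by rw [abs_of_nonneg (by linarith)]; linarith) (expm_le (by norm_num) (by norm_num) (by norm_num)) (by norm_num) (by norm_num)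
  rw [es]
  exact T3_05_d1_0_b0_0 hβ hN (by linarith) (by linarith) (by linarith) (by linarith)

private theorem T3_05_d1_0_b1_0 {β x y : ℝ} (hβ : 0 < β) (hN : β * 23.809 ≤ 1) (hx1 : 0.1294 ≤ x) (hx2 : x ≤ 0.2458)
    (hy1 : -0 ≤ y) (hy2 : y ≤ 0.305) : ‖HH β (x + y * I) - 1‖ ≤ 0.025 := by
  refine le_epsJ (C := 0.3204) (N0 := 23.809) (J_boxp 0.1294 0.2458 0 0.305 0.305 0.8011 0.3918 1.328 1.6072 0.4598 4.8795 23.809 0.4891 1.865 1.242 1.3255 0.4005 0.3352 1.0525 3.9225 0.3867 0.648 0.5213 2.4686 0.0000723 0.0003434 0.0000003101 0.0000003101 0.0001005 0.0000003101 0.000004074 0.0000003101 0.3204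
    hβ hN hx1 hx2 hy1 hy2 (by norm_num) (by norm_num) (by linarith) (by norm_num) (by norm_num) (by norm_num) (by norm_num) (by norm_num) (by norm_num) (by norm_num) (by norm_num) (by norm_num) (by norm_num) (by norm_num) (by norm_num) (by norm_num) (by norm_num) (by norm_num) (by norm_num) (by norm_num) (by norm_num) (by norm_num) (by norm_num) (by norm_num)
    (cube_sqrt_geJ (s := 0.9148) (by norm_num) (by norm_num) (by norm_num) (by norm_num))
    (cube_sqrt_geJ (s := 0.9695) (by norm_num) (by norm_num) (by norm_num) (by norm_num))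
    (by norm_num) (by norm_num) (by norm_num) (by norm_num) (by norm_num) (by norm_num) (by norm_num) (by norm_num) (by norm_num) (by norm_num) (by norm_num) (by norm_num) (by norm_num) (by norm_num) (by norm_num) (by norm_num) (by norm_num) (by norm_num)
    (exp_neg_leJ (r := 0.535) 9 (by norm_num) (by norm_num) (by norm_num) (by norm_num))
    (exp_neg_leJ (r := 0.98) 7 (by norm_num) (by norm_num) (by norm_num) (by norm_num))
    (exp_neg_leJ (r := 0.99) 14 (by norm_num) (by norm_num) (by norm_num) (by norm_num))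
    (exp_neg_leJ (r := 0.99) 14 (by norm_num) (by norm_num) (by norm_num) (by norm_num))
    (exp_neg_leJ (r := 0.206) 9 (by norm_num) (by norm_num) (by norm_num) (by norm_num))
    (exp_neg_leJ (r := 0.99) 14 (by norm_num) (by norm_num) (by norm_num) (by norm_num))
    (exp_neg_leJ (r := 0.411) 12 (by norm_num) (by norm_num) (by norm_num) (by norm_num))
    (exp_neg_leJ (r := 0.99) 14 (by norm_num) (by norm_num) (by norm_num) (by norm_num))
    (by norm_num)) (by norm_num) hN hβ.le (by norm_num)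

private theorem T3_05_d1_0_c1 {κ t β : ℝ} (h : DomR κ t) (hβ : 0 < β) (hk1 : 0.41 ≤ κ) (hk2 : κ ≤ 0.42)
    (ht1 : 1.158 ≤ t + κ) (ht2 : t + κ ≤ 1.188) (hR0 : β * 10 ≤ κ) (hR : β * (1 * (1 + κ ^ 2)) ≤ κ) :
    ∀ s : ℂ, ‖s - sg κ t‖ ≤ 0.04 → ‖HH β s - 1‖ ≤ 0.025 := by
  have hN : β * 23.809 ≤ 1 := bNR hβ h.1 hk2 hR0 (by norm_num)
  have hy1 : 0.253 ≤ sy κ t := syR_ge h 0.41 0.42 1.158 0.253 1.28788 1.28789 0.77579 0.79473 hk1 hk2 (by linarith) (by norm_num) (by norm_num)
    (expn_ge (by norm_num) (by norm_num)) (expn_le (by norm_num) (by norm_num) (by norm_num)) (by norm_num)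
    (by norm_num) (by norm_num) (by norm_num) (by norm_num) (by norm_num) (by norm_num)
  have hy2 : sy κ t ≤ 0.265 := syR_ang2 h 0.41 0.42 1.188 0.965 0.5706 0.8223 0.265 0.76721 1.30343 hk1 hk2 (by linarith) (by norm_num) (by norm_num) (by norm_num)
    (cos_le_num (by norm_num)) (sin_le_num (by norm_num) (by norm_num)) (expm_le (by norm_num) (by norm_num) (by norm_num))
    (expn_ge (by norm_num) (by norm_num)) (by norm_num) (by norm_num) (by norm_num) (by norm_num) (by norm_num)
  intro s hs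
  have hs' : ‖s - ((sx κ t : ℂ) + (sy κ t : ℂ) * I)‖ ≤ 0.04 := hs
  obtain ⟨es, ⟨s1, s2⟩, ⟨s3, s4⟩⟩ := disc_split hs'
  have hx1 : 0.1694 ≤ sx κ t := sx_lo h 0.41 0.265 0.265 0.7672 0.1694 hk1 (by norm_num) hy2 (abs_le.2 ⟨by linarith, by linarith⟩) (expm_ge (by norm_num) (by norm_num) (by norm_num) (by norm_num)) (by norm_num) (by norm_num)
  have hx2 : sx κ t ≤ 0.2058 := sx_hi h 0.42 0.253 0.253 0.77647 0.2058 hk2 hy1 (by norm_num) (by rw [abs_of_nonneg (by linarith)]; linarith) (expm_le (by norm_num) (by norm_num) (by norm_num)) (by norm_num) (by norm_num)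
  rw [es]
  exact T3_05_d1_0_b1_0 hβ hN (by linarith) (by linarith) (by linarith) (by linarith)

theorem T3_05_d1_0 {κ t β : ℝ} (h : DomR κ t) (hβ : 0 < β) (hk1 : 0.4 ≤ κ) (hk2 : κ ≤ 0.42)
    (ht1 : 1.158 ≤ t + κ) (ht2 : t + κ ≤ 1.188) (hR0 : β * 10 ≤ κ) (hR : β * (1 * (1 + κ ^ 2)) ≤ κ) :
    ∀ s : ℂ, ‖s - sg κ t‖ ≤ 0.04 → ‖HH β s - 1‖ ≤ 0.025 := by
  rcases le_total κ 0.41 with f0 | g0
  · exact T3_05_d1_0_c0 h hβ hk1 f0 ht1 ht2 hR0 hR
  exact T3_05_d1_0_c1 h hβ g0 hk2 ht1 ht2 hR0 hR

private theorem T3_05_d0_1_b0_0 {β x y : ℝ} (hβ : 0 < β) (hN : β * 24.39 ≤ 1) (hx1 : 0.3685 ≤ x) (hx2 : x ≤ 0.5089)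
    (hy1 : -0.572 ≤ y) (hy2 : y ≤ -0.477) : ‖HH β (x + y * I) - 1‖ ≤ 0.255 := by
  refine le_epsJ (C := 6.0463) (N0 := 24.39) (J_boxp 0.3685 0.5089 0.572 0 (-0.477) 0.5633 0.7657 0.7298 2.0207 0.3409 4.9387 24.39 1.3594 8.269 1.892 0.6963 0.2816 0.154 0.2315 1.9452 0.2215 1.0102 0.7528 3.3676 0.001043 0.02341 0.003534 0.0000003101 0.004508 0.0000003101 0.0000003101 0.0000003101 6.0463
    hβ hN hx1 hx2 hy1 hy2 (by norm_num) (by norm_num) (by linarith) (by norm_num) (by norm_num) (by norm_num) (by norm_num) (by norm_num) (by norm_num) (by norm_num) (by norm_num) (by norm_num) (by norm_num) (by norm_num) (by norm_num) (by norm_num) (by norm_num) (by norm_num) (by norm_num) (by norm_num) (by norm_num) (by norm_num) (by norm_num) (by norm_num)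
    (cube_sqrt_geJ (s := 0.7395) (by norm_num) (by norm_num) (by norm_num) (by norm_num))
    (cube_sqrt_geJ (s := 0.9129) (by norm_num) (by norm_num) (by norm_num) (by norm_num))
    (by norm_num) (by norm_num) (by norm_num) (by norm_num) (by norm_num) (by norm_num) (by norm_num) (by norm_num) (by norm_num) (by norm_num) (by norm_num) (by norm_num) (by norm_num) (by norm_num) (by norm_num) (by norm_num) (by norm_num) (by norm_num)
    (exp_neg_leJ (r := 0.868) 6 (by norm_num) (by norm_num) (by norm_num) (by norm_num))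
    (exp_neg_leJ (r := 0.756) 3 (by norm_num) (by norm_num) (by norm_num) (by norm_num))
    (exp_neg_leJ (r := 0.646) 5 (by norm_num) (by norm_num) (by norm_num) (by norm_num))
    (exp_neg_leJ (r := 0.99) 14 (by norm_num) (by norm_num) (by norm_num) (by norm_num))
    (exp_neg_leJ (r := 0.402) 5 (by norm_num) (by norm_num) (by norm_num) (by norm_num))
    (exp_neg_leJ (r := 0.99) 14 (by norm_num) (by norm_num) (by norm_num) (by norm_num))
    (exp_neg_leJ (r := 0.99) 14 (by norm_num) (by norm_num) (by norm_num) (by norm_num))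
    (exp_neg_leJ (r := 0.99) 14 (by norm_num) (by norm_num) (by norm_num) (by norm_num))
    (by norm_num)) (by norm_num) hN hβ.le (by norm_num)

private theorem T3_05_d0_1_b0_1 {β x y : ℝ} (hβ : 0 < β) (hN : β * 24.39 ≤ 1) (hx1 : 0.3555 ≤ x) (hx2 : x ≤ 0.5254)
    (hy1 : -0.557 ≤ y) (hy2 : y ≤ -0.447) : ‖HH β (x + y * I) - 1‖ ≤ 0.255 := by
  refine le_epsJ (C := 6.0844) (N0 := 24.39) (J_boxp 0.3555 0.5254 0.557 0 (-0.447) 0.5648 0.7657 0.7628 2.0577 0.3485 4.9387 24.39 1.3558 8.206 1.888 0.7038 0.2823 0.1547 0.2507 1.9872 0.2234 0.9922 0.7676 3.3416 0.001026 0.02302 0.002212 0.0000003101 0.004306 0.0000003101 0.0000003101 0.0000003101 6.0844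
    hβ hN hx1 hx2 hy1 hy2 (by norm_num) (by norm_num) (by linarith) (by norm_num) (by norm_num) (by norm_num) (by norm_num) (by norm_num) (by norm_num) (by norm_num) (by norm_num) (by norm_num) (by norm_num) (by norm_num) (by norm_num) (by norm_num) (by norm_num) (by norm_num) (by norm_num) (by norm_num) (by norm_num) (by norm_num) (by norm_num) (by norm_num)
    (cube_sqrt_geJ (s := 0.7403) (by norm_num) (by norm_num) (by norm_num) (by norm_num))
    (cube_sqrt_geJ (s := 0.9132) (by norm_num) (by norm_num) (by norm_num) (by norm_num))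
    (by norm_num) (by norm_num) (by norm_num) (by norm_num) (by norm_num) (by norm_num) (by norm_num) (by norm_num) (by norm_num) (by norm_num) (by norm_num) (by norm_num) (by norm_num) (by norm_num) (by norm_num) (by norm_num) (by norm_num) (by norm_num)
    (exp_neg_leJ (r := 0.885) 6 (by norm_num) (by norm_num) (by norm_num) (by norm_num))
    (exp_neg_leJ (r := 0.773) 3 (by norm_num) (by norm_num) (by norm_num) (by norm_num))
    (exp_neg_leJ (r := 0.114) 6 (by norm_num) (by norm_num) (by norm_num) (by norm_num))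
    (exp_neg_leJ (r := 0.99) 14 (by norm_num) (by norm_num) (by norm_num) (by norm_num))
    (exp_neg_leJ (r := 0.448) 5 (by norm_num) (by norm_num) (by norm_num) (by norm_num))
    (exp_neg_leJ (r := 0.99) 14 (by norm_num) (by norm_num) (by norm_num) (by norm_num))
    (exp_neg_leJ (r := 0.99) 14 (by norm_num) (by norm_num) (by norm_num) (by norm_num))
    (exp_neg_leJ (r := 0.99) 14 (by norm_num) (by norm_num) (by norm_num) (by norm_num))
    (by norm_num)) (by norm_num) hN hβ.le (by norm_num)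

private theorem T3_05_d0_1_b0_2 {β x y : ℝ} (hβ : 0 < β) (hN : β * 24.39 ≤ 1) (hx1 : 0.3394 ≤ x) (hx2 : x ≤ 0.5469)
    (hy1 : -0.527 ≤ y) (hy2 : y ≤ -0.394) : ‖HH β (x + y * I) - 1‖ ≤ 0.255 := by
  refine le_epsJ (C := 5.5298) (N0 := 24.39) (J_boxp 0.3394 0.5469 0.527 0 (-0.394) 0.5748 0.7595 0.8163 2.0733 0.3605 4.9387 24.39 1.3214 7.632 1.855 0.7233 0.2873 0.1608 0.2926 2.0764 0.2319 0.9699 0.8169 3.3263 0.0009056 0.01988 0.000796 0.0000003101 0.003499 0.0000003101 0.0000003101 0.0000003101 5.5298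
    hβ hN hx1 hx2 hy1 hy2 (by norm_num) (by norm_num) (by linarith) (by norm_num) (by norm_num) (by norm_num) (by norm_num) (by norm_num) (by norm_num) (by norm_num) (by norm_num) (by norm_num) (by norm_num) (by norm_num) (by norm_num) (by norm_num) (by norm_num) (by norm_num) (by norm_num) (by norm_num) (by norm_num) (by norm_num) (by norm_num) (by norm_num)
    (cube_sqrt_geJ (s := 0.748) (by norm_num) (by norm_num) (by norm_num) (by norm_num))
    (cube_sqrt_geJ (s := 0.9155) (by norm_num) (by norm_num) (by norm_num) (by norm_num))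
    (by norm_num) (by norm_num) (by norm_num) (by norm_num) (by norm_num) (by norm_num) (by norm_num) (by norm_num) (by norm_num) (by norm_num) (by norm_num) (by norm_num) (by norm_num) (by norm_num) (by norm_num) (by norm_num) (by norm_num) (by norm_num)
    (exp_neg_leJ (r := 0.007) 7 (by norm_num) (by norm_num) (by norm_num) (by norm_num))
    (exp_neg_leJ (r := 0.921) 3 (by norm_num) (by norm_num) (by norm_num) (by norm_num))
    (exp_neg_leJ (r := 0.136) 7 (by norm_num) (by norm_num) (by norm_num) (by norm_num))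
    (exp_neg_leJ (r := 0.99) 14 (by norm_num) (by norm_num) (by norm_num) (by norm_num))
    (exp_neg_leJ (r := 0.656) 5 (by norm_num) (by norm_num) (by norm_num) (by norm_num))
    (exp_neg_leJ (r := 0.99) 14 (by norm_num) (by norm_num) (by norm_num) (by norm_num))
    (exp_neg_leJ (r := 0.99) 14 (by norm_num) (by norm_num) (by norm_num) (by norm_num))
    (exp_neg_leJ (r := 0.99) 14 (by norm_num) (by norm_num) (by norm_num) (by norm_num))
    (by norm_num)) (by norm_num) hN hβ.le (by norm_num)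

private theorem T3_05_d0_1_c0 {κ t β : ℝ} (h : DomR κ t) (hβ : 0 < β) (hk1 : 0.4 ≤ κ) (hk2 : κ ≤ 0.41)
    (ht1 : -0.9064 ≤ t + κ) (ht2 : t + κ ≤ -0.83639) (hR0 : β * 10 ≤ κ) (hR : β * (1 * (1 + κ ^ 2)) ≤ κ) :
    ∀ s : ℂ, ‖s - sg κ t‖ ≤ 0.04 → ‖HH β s - 1‖ ≤ 0.255 := by
  have hN : β * 24.39 ≤ 1 := bNR hβ h.1 hk2 hR0 (by norm_num)
  have hy1 : -0.532 ≤ sy κ t := syL_ang2 h 0.4 0.41 0.9064 0.866 0.6478 0.7619 0.532 1.70233 0.58742 hk1 hk2 (by linarith) (by norm_num) (by norm_num) (by norm_num) (by norm_num)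
    (cos_ge_num (by norm_num) (by norm_num)) (sin_le_num (by norm_num) (by norm_num))
    (expn_ge (by norm_num) (by norm_num)) (expm_ge (by norm_num) (by norm_num) (by norm_num) (by norm_num)) (by norm_num) (by norm_num) (by norm_num)
    (by norm_num) (by norm_num) (by norm_num)
  have hy2 : sy κ t ≤ -0.434 := syL_le h 0.4 0.41 0.83639 0.434 0.64791 0.64792 0.68583 0.703 hk1 hk2 (by linarith) (by norm_num) (by norm_num) (by norm_num)
    (expm_ge (by norm_num) (by norm_num) (by norm_num) (by norm_num)) (expm_le (by norm_num) (by norm_num) (by norm_num)) (by norm_num)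
    (by norm_num) (by norm_num) (by norm_num) (by norm_num) (by norm_num) (by norm_num)
  intro s hs
  have hs' : ‖s - ((sx κ t : ℂ) + (sy κ t : ℂ) * I)‖ ≤ 0.04 := hs
  obtain ⟨es, ⟨s1, s2⟩, ⟨s3, s4⟩⟩ := disc_split hs'
  rcases le_total (sy κ t) (-0.517) with f0 | g0
  · have hx1 : 0.4085 ≤ sx κ t := sx_lo h 0.4 (-0.517) 0.532 1.67698 0.4085 hk1 (by norm_num) f0 (abs_le.2 ⟨by linarith, by linarith⟩) (by rw [neg_neg]; exact expn_ge (by norm_num) (by norm_num)) (by norm_num) (by norm_num)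
    have hx2 : sx κ t ≤ 0.4689 := sx_hi h 0.41 (-0.532) 0.517 1.70234 0.4689 hk2 hy1 (by norm_num) (by rw [abs_of_nonpos (by linarith)]; linarith) (by rw [neg_neg]; exact expn_le (by norm_num) (by norm_num) (by norm_num)) (by norm_num) (by norm_num)
    rw [es]
    exact T3_05_d0_1_b0_0 hβ hN (by linarith) (by linarith) (by linarith) (by linarith)
  rcases le_total (sy κ t) (-0.487) with f1 | g1
  · have hx1 : 0.3955 ≤ sx κ t := sx_lo h 0.4 (-0.487) 0.517 1.62742 0.3955 hk1 (by norm_num) f1 (abs_le.2 ⟨by linarith, by linarith⟩) (by rw [neg_neg]; exact expn_ge (by norm_num) (by norm_num)) (by norm_num) (by norm_num)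
    have hx2 : sx κ t ≤ 0.4854 := sx_hi h 0.41 (-0.517) 0.487 1.67699 0.4854 hk2 g0 (by norm_num) (by rw [abs_of_nonpos (by linarith)]; linarith) (by rw [neg_neg]; exact expn_le (by norm_num) (by norm_num) (by norm_num)) (by norm_num) (by norm_num)
    rw [es]
    exact T3_05_d0_1_b0_1 hβ hN (by linarith) (by linarith) (by linarith) (by linarith)
  have hx1 : 0.3794 ≤ sx κ t := sx_lo h 0.4 (-0.434) 0.487 1.54341 0.3794 hk1 (by norm_num) hy2 (abs_le.2 ⟨by linarith, by linarith⟩) (by rw [neg_neg]; exact expn_ge (by norm_num) (by norm_num)) (by norm_num) (by norm_num)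
  have hx2 : sx κ t ≤ 0.5069 := sx_hi h 0.41 (-0.487) 0.434 1.62743 0.5069 hk2 g1 (by norm_num) (by rw [abs_of_nonpos (by linarith)]; linarith) (by rw [neg_neg]; exact expn_le (by norm_num) (by norm_num) (by norm_num)) (by norm_num) (by norm_num)
  rw [es]
  exact T3_05_d0_1_b0_2 hβ hN (by linarith) (by linarith) (by linarith) (by linarith)

private theorem T3_05_d0_1_b1_0 {β x y : ℝ} (hβ : 0 < β) (hN : β * 23.809 ≤ 1) (hx1 : 0.3993 ≤ x) (hx2 : x ≤ 0.5284)
    (hy1 : -0.585 ≤ y) (hy2 : y ≤ -0.495) : ‖HH β (x + y * I) - 1‖ ≤ 0.255 := by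
  refine le_epsJ (C := 6.0191) (N0 := 23.809) (J_boxp 0.3993 0.5284 0.585 0 (-0.495) 0.5758 0.7884 0.731 1.9569 0.3411 4.8795 23.809 1.3693 8.447 1.901 0.6768 0.2878 0.1564 0.2215 1.8922 0.2293 1.0528 0.779 3.3675 0.00106 0.02419 0.005129 0.0000003101 0.004259 0.0000003101 0.0000003101 0.0000003101 6.0191
    hβ hN hx1 hx2 hy1 hy2 (by norm_num) (by norm_num) (by linarith) (by norm_num) (by norm_num) (by norm_num) (by norm_num) (by norm_num) (by norm_num) (by norm_num) (by norm_num) (by norm_num) (by norm_num) (by norm_num) (by norm_num) (by norm_num) (by norm_num) (by norm_num) (by norm_num) (by norm_num) (by norm_num) (by norm_num) (by norm_num) (by norm_num)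
    (cube_sqrt_geJ (s := 0.7372) (by norm_num) (by norm_num) (by norm_num) (by norm_num))
    (cube_sqrt_geJ (s := 0.9123) (by norm_num) (by norm_num) (by norm_num) (by norm_num))
    (by norm_num) (by norm_num) (by norm_num) (by norm_num) (by norm_num) (by norm_num) (by norm_num) (by norm_num) (by norm_num) (by norm_num) (by norm_num) (by norm_num) (by norm_num) (by norm_num) (by norm_num) (by norm_num) (by norm_num) (by norm_num)
    (exp_neg_leJ (r := 0.852) 6 (by norm_num) (by norm_num) (by norm_num) (by norm_num))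
    (exp_neg_leJ (r := 0.723) 3 (by norm_num) (by norm_num) (by norm_num) (by norm_num))
    (exp_neg_leJ (r := 0.273) 5 (by norm_num) (by norm_num) (by norm_num) (by norm_num))
    (exp_neg_leJ (r := 0.99) 14 (by norm_num) (by norm_num) (by norm_num) (by norm_num))
    (exp_neg_leJ (r := 0.459) 5 (by norm_num) (by norm_num) (by norm_num) (by norm_num))
    (exp_neg_leJ (r := 0.99) 14 (by norm_num) (by norm_num) (by norm_num) (by norm_num))
    (exp_neg_leJ (r := 0.99) 14 (by norm_num) (by norm_num) (by norm_num) (by norm_num))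
    (exp_neg_leJ (r := 0.99) 14 (by norm_num) (by norm_num) (by norm_num) (by norm_num))
    (by norm_num)) (by norm_num) hN hβ.le (by norm_num)

private theorem T3_05_d0_1_b1_1 {β x y : ℝ} (hβ : 0 < β) (hN : β * 23.809 ≤ 1) (hx1 : 0.3951 ≤ x) (hx2 : x ≤ 0.5339)
    (hy1 : -0.575 ≤ y) (hy2 : y ≤ -0.48) : ‖HH β (x + y * I) - 1‖ ≤ 0.255 := by
  refine le_epsJ (C := 5.7303) (N0 := 23.809) (J_boxp 0.3951 0.5339 0.575 0 (-0.48) 0.5799 0.7847 0.7453 1.955 0.3445 4.8795 23.809 1.3532 8.16 1.886 0.684 0.2899 0.1591 0.2359 1.9229 0.2328 1.047 0.7978 3.3692 0.001009 0.02268 0.003641 0.0000003101 0.00392 0.0000003101 0.0000003101 0.0000003101 5.7303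
    hβ hN hx1 hx2 hy1 hy2 (by norm_num) (by norm_num) (by linarith) (by norm_num) (by norm_num) (by norm_num) (by norm_num) (by norm_num) (by norm_num) (by norm_num) (by norm_num) (by norm_num) (by norm_num) (by norm_num) (by norm_num) (by norm_num) (by norm_num) (by norm_num) (by norm_num) (by norm_num) (by norm_num) (by norm_num) (by norm_num) (by norm_num)
    (cube_sqrt_geJ (s := 0.7409) (by norm_num) (by norm_num) (by norm_num) (by norm_num))
    (cube_sqrt_geJ (s := 0.9134) (by norm_num) (by norm_num) (by norm_num) (by norm_num))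
    (by norm_num) (by norm_num) (by norm_num) (by norm_num) (by norm_num) (by norm_num) (by norm_num) (by norm_num) (by norm_num) (by norm_num) (by norm_num) (by norm_num) (by norm_num) (by norm_num) (by norm_num) (by norm_num) (by norm_num) (by norm_num)
    (exp_neg_leJ (r := 0.902) 6 (by norm_num) (by norm_num) (by norm_num) (by norm_num))
    (exp_neg_leJ (r := 0.788) 3 (by norm_num) (by norm_num) (by norm_num) (by norm_num))
    (exp_neg_leJ (r := 0.616) 5 (by norm_num) (by norm_num) (by norm_num) (by norm_num))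
    (exp_neg_leJ (r := 0.99) 14 (by norm_num) (by norm_num) (by norm_num) (by norm_num))
    (exp_neg_leJ (r := 0.542) 5 (by norm_num) (by norm_num) (by norm_num) (by norm_num))
    (exp_neg_leJ (r := 0.99) 14 (by norm_num) (by norm_num) (by norm_num) (by norm_num))
    (exp_neg_leJ (r := 0.99) 14 (by norm_num) (by norm_num) (by norm_num) (by norm_num))
    (exp_neg_leJ (r := 0.99) 14 (by norm_num) (by norm_num) (by norm_num) (by norm_num))
    (by norm_num)) (by norm_num) hN hβ.le (by norm_num)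

private theorem T3_05_d0_1_b1_2 {β x y : ℝ} (hβ : 0 < β) (hN : β * 23.809 ≤ 1) (hx1 : 0.3812 ≤ x) (hx2 : x ≤ 0.5489)
    (hy1 : -0.56 ≤ y) (hy2 : y ≤ -0.45) : ‖HH β (x + y * I) - 1‖ ≤ 0.255 := by
  refine le_epsJ (C := 5.7833) (N0 := 23.809) (J_boxp 0.3812 0.5489 0.56 0 (-0.45) 0.5808 0.7842 0.7771 1.9916 0.3517 4.8795 23.809 1.3503 8.111 1.883 0.692 0.2903 0.1596 0.2548 1.9655 0.2342 1.0278 0.8108 3.3428 0.0009993 0.02243 0.002321 0.0000003101 0.003789 0.0000003101 0.0000003101 0.0000003101 5.7833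
    hβ hN hx1 hx2 hy1 hy2 (by norm_num) (by norm_num) (by linarith) (by norm_num) (by norm_num) (by norm_num) (by norm_num) (by norm_num) (by norm_num) (by norm_num) (by norm_num) (by norm_num) (by norm_num) (by norm_num) (by norm_num) (by norm_num) (by norm_num) (by norm_num) (by norm_num) (by norm_num) (by norm_num) (by norm_num) (by norm_num) (by norm_num)
    (cube_sqrt_geJ (s := 0.7415) (by norm_num) (by norm_num) (by norm_num) (by norm_num))
    (cube_sqrt_geJ (s := 0.9136) (by norm_num) (by norm_num) (by norm_num) (by norm_num))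
    (by norm_num) (by norm_num) (by norm_num) (by norm_num) (by norm_num) (by norm_num) (by norm_num) (by norm_num) (by norm_num) (by norm_num) (by norm_num) (by norm_num) (by norm_num) (by norm_num) (by norm_num) (by norm_num) (by norm_num) (by norm_num)
    (exp_neg_leJ (r := 0.911) 6 (by norm_num) (by norm_num) (by norm_num) (by norm_num))
    (exp_neg_leJ (r := 0.799) 3 (by norm_num) (by norm_num) (by norm_num) (by norm_num))
    (exp_neg_leJ (r := 0.066) 6 (by norm_num) (by norm_num) (by norm_num) (by norm_num))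
    (exp_neg_leJ (r := 0.99) 14 (by norm_num) (by norm_num) (by norm_num) (by norm_num))
    (exp_neg_leJ (r := 0.576) 5 (by norm_num) (by norm_num) (by norm_num) (by norm_num))
    (exp_neg_leJ (r := 0.99) 14 (by norm_num) (by norm_num) (by norm_num) (by norm_num))
    (exp_neg_leJ (r := 0.99) 14 (by norm_num) (by norm_num) (by norm_num) (by norm_num))
    (exp_neg_leJ (r := 0.99) 14 (by norm_num) (by norm_num) (by norm_num) (by norm_num))
    (by norm_num)) (by norm_num) hN hβ.le (by norm_num)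

private theorem T3_05_d0_1_b1_3 {β x y : ℝ} (hβ : 0 < β) (hN : β * 23.809 ≤ 1) (hx1 : 0.3713 ≤ x) (hx2 : x ≤ 0.5616)
    (hy1 : -0.53 ≤ y) (hy2 : y ≤ -0.405) : ‖HH β (x + y * I) - 1‖ ≤ 0.255 := by
  refine le_epsJ (C := 4.8962) (N0 := 23.809) (J_boxp 0.3713 0.5616 0.53 0 (-0.405) 0.5951 0.7723 0.8182 1.9704 0.3609 4.8795 23.809 1.2978 7.269 1.833 0.7148 0.2975 0.1688 0.2987 2.059 0.2458 1.0141 0.8726 3.3553 0.0008393 0.01799 0.0008161 0.0000003101 0.00288 0.0000003101 0.0000003101 0.0000003101 4.8962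
    hβ hN hx1 hx2 hy1 hy2 (by norm_num) (by norm_num) (by linarith) (by norm_num) (by norm_num) (by norm_num) (by norm_num) (by norm_num) (by norm_num) (by norm_num) (by norm_num) (by norm_num) (by norm_num) (by norm_num) (by norm_num) (by norm_num) (by norm_num) (by norm_num) (by norm_num) (by norm_num) (by norm_num) (by norm_num) (by norm_num) (by norm_num)
    (cube_sqrt_geJ (s := 0.7532) (by norm_num) (by norm_num) (by norm_num) (by norm_num))
    (cube_sqrt_geJ (s := 0.9171) (by norm_num) (by norm_num) (by norm_num) (by norm_num))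
    (by norm_num) (by norm_num) (by norm_num) (by norm_num) (by norm_num) (by norm_num) (by norm_num) (by norm_num) (by norm_num) (by norm_num) (by norm_num) (by norm_num) (by norm_num) (by norm_num) (by norm_num) (by norm_num) (by norm_num) (by norm_num)
    (exp_neg_leJ (r := 0.083) 7 (by norm_num) (by norm_num) (by norm_num) (by norm_num))
    (exp_neg_leJ (r := 0.018) 4 (by norm_num) (by norm_num) (by norm_num) (by norm_num))
    (exp_neg_leJ (r := 0.111) 7 (by norm_num) (by norm_num) (by norm_num) (by norm_num))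
    (exp_neg_leJ (r := 0.99) 14 (by norm_num) (by norm_num) (by norm_num) (by norm_num))
    (exp_neg_leJ (r := 0.852) 5 (by norm_num) (by norm_num) (by norm_num) (by norm_num))
    (exp_neg_leJ (r := 0.99) 14 (by norm_num) (by norm_num) (by norm_num) (by norm_num))
    (exp_neg_leJ (r := 0.99) 14 (by norm_num) (by norm_num) (by norm_num) (by norm_num))
    (exp_neg_leJ (r := 0.99) 14 (by norm_num) (by norm_num) (by norm_num) (by norm_num))
    (by norm_num)) (by norm_num) hN hβ.le (by norm_num)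

private theorem T3_05_d0_1_c1 {κ t β : ℝ} (h : DomR κ t) (hβ : 0 < β) (hk1 : 0.41 ≤ κ) (hk2 : κ ≤ 0.42)
    (ht1 : -0.9064 ≤ t + κ) (ht2 : t + κ ≤ -0.83639) (hR0 : β * 10 ≤ κ) (hR : β * (1 * (1 + κ ^ 2)) ≤ κ) :
    ∀ s : ℂ, ‖s - sg κ t‖ ≤ 0.04 → ‖HH β s - 1‖ ≤ 0.255 := by
  have hN : β * 23.809 ≤ 1 := bNR hβ h.1 hk2 hR0 (by norm_num)
  have hy1 : -0.545 ≤ sy κ t := syL_ang2 h 0.41 0.42 0.9064 0.851 0.6592 0.7521 0.545 1.7246 0.57984 hk1 hk2 (by linarith) (by norm_num) (by norm_num) (by norm_num) (by norm_num)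
    (cos_ge_num (by norm_num) (by norm_num)) (sin_le_num (by norm_num) (by norm_num))
    (expn_ge (by norm_num) (by norm_num)) (expm_ge (by norm_num) (by norm_num) (by norm_num) (by norm_num)) (by norm_num) (by norm_num) (by norm_num)
    (by norm_num) (by norm_num) (by norm_num)
  have hy2 : sy κ t ≤ -0.445 := syL_le h 0.41 0.42 0.83639 0.445 0.64082 0.64083 0.67896 0.69554 hk1 hk2 (by linarith) (by norm_num) (by norm_num) (by norm_num)
    (expm_ge (by norm_num) (by norm_num) (by norm_num) (by norm_num)) (expm_le (by norm_num) (by norm_num) (by norm_num)) (by norm_num)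
    (by norm_num) (by norm_num) (by norm_num) (by norm_num) (by norm_num) (by norm_num)
  intro s hs
  have hs' : ‖s - ((sx κ t : ℂ) + (sy κ t : ℂ) * I)‖ ≤ 0.04 := hs
  obtain ⟨es, ⟨s1, s2⟩, ⟨s3, s4⟩⟩ := disc_split hs'
  rcases le_total (sy κ t) (-0.535) with f0 | g0
  · have hx1 : 0.4393 ≤ sx κ t := sx_lo h 0.41 (-0.535) 0.545 1.70744 0.4393 hk1 (by norm_num) f0 (abs_le.2 ⟨by linarith, by linarith⟩) (by rw [neg_neg]; exact expn_ge (by norm_num) (by norm_num)) (by norm_num) (by norm_num)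
    have hx2 : sx κ t ≤ 0.4884 := sx_hi h 0.42 (-0.545) 0.535 1.72461 0.4884 hk2 hy1 (by norm_num) (by rw [abs_of_nonpos (by linarith)]; linarith) (by rw [neg_neg]; exact expn_le (by norm_num) (by norm_num) (by norm_num)) (by norm_num) (by norm_num)
    rw [es]
    exact T3_05_d0_1_b1_0 hβ hN (by linarith) (by linarith) (by linarith) (by linarith)
  rcases le_total (sy κ t) (-0.52) with f1 | g1
  · have hx1 : 0.4351 ≤ sx κ t := sx_lo h 0.41 (-0.52) 0.535 1.68202 0.4351 hk1 (by norm_num) f1 (abs_le.2 ⟨by linarith, by linarith⟩) (by rw [neg_neg]; exact expn_ge (by norm_num) (by norm_num)) (by norm_num) (by norm_num)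
    have hx2 : sx κ t ≤ 0.4939 := sx_hi h 0.42 (-0.535) 0.52 1.70745 0.4939 hk2 g0 (by norm_num) (by rw [abs_of_nonpos (by linarith)]; linarith) (by rw [neg_neg]; exact expn_le (by norm_num) (by norm_num) (by norm_num)) (by norm_num) (by norm_num)
    rw [es]
    exact T3_05_d0_1_b1_1 hβ hN (by linarith) (by linarith) (by linarith) (by linarith)
  rcases le_total (sy κ t) (-0.49) with f2 | g2
  · have hx1 : 0.4212 ≤ sx κ t := sx_lo h 0.41 (-0.49) 0.52 1.63231 0.4212 hk1 (by norm_num) f2 (abs_le.2 ⟨by linarith, by linarith⟩) (by rw [neg_neg]; exact expn_ge (by norm_num) (by norm_num)) (by norm_num) (by norm_num)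
    have hx2 : sx κ t ≤ 0.5089 := sx_hi h 0.42 (-0.52) 0.49 1.68203 0.5089 hk2 g1 (by norm_num) (by rw [abs_of_nonpos (by linarith)]; linarith) (by rw [neg_neg]; exact expn_le (by norm_num) (by norm_num) (by norm_num)) (by norm_num) (by norm_num)
    rw [es]
    exact T3_05_d0_1_b1_2 hβ hN (by linarith) (by linarith) (by linarith) (by linarith)
  have hx1 : 0.4113 ≤ sx κ t := sx_lo h 0.41 (-0.445) 0.49 1.56048 0.4113 hk1 (by norm_num) hy2 (abs_le.2 ⟨by linarith, by linarith⟩) (by rw [neg_neg]; exact expn_ge (by norm_num) (by norm_num)) (by norm_num) (by norm_num)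
  have hx2 : sx κ t ≤ 0.5216 := sx_hi h 0.42 (-0.49) 0.445 1.63232 0.5216 hk2 g2 (by norm_num) (by rw [abs_of_nonpos (by linarith)]; linarith) (by rw [neg_neg]; exact expn_le (by norm_num) (by norm_num) (by norm_num)) (by norm_num) (by norm_num)
  rw [es]
  exact T3_05_d0_1_b1_3 hβ hN (by linarith) (by linarith) (by linarith) (by linarith)

theorem T3_05_d0_1 {κ t β : ℝ} (h : DomR κ t) (hβ : 0 < β) (hk1 : 0.4 ≤ κ) (hk2 : κ ≤ 0.42)
    (ht1 : -0.9064 ≤ t + κ) (ht2 : t + κ ≤ -0.83639) (hR0 : β * 10 ≤ κ) (hR : β * (1 * (1 + κ ^ 2)) ≤ κ) :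
    ∀ s : ℂ, ‖s - sg κ t‖ ≤ 0.04 → ‖HH β s - 1‖ ≤ 0.255 := by
  rcases le_total κ 0.41 with f0 | g0
  · exact T3_05_d0_1_c0 h hβ hk1 f0 ht1 ht2 hR0 hR
  exact T3_05_d0_1_c1 h hβ g0 hk2 ht1 ht2 hR0 hR

private theorem T3_05_d1_1_b0_0 {β x y : ℝ} (hβ : 0 < β) (hN : β * 23.809 ≤ 1) (hn : ‖(x + y * I : ℂ)‖ ≤ 0.408) : ‖HH β (x + y * I) - 1‖ ≤ 0.085 := by
  refine le_epsJ (C := 1.6075) (N0 := 23.809) (J45_genN (N := 23.809) (r0 := 4.8795) (f := 2.3764) (n0 := 0.408) (a := 0.592) (wL := 1.939) (wR := 2.468)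
    (E1 := 0.01915) (E2 := 0.000027) (E3 := 0.06483) (E4 := 0.000352) (E5 := 0.0000003101) hβ (by norm_num) hN
    (by norm_num) (by norm_num) (by norm_num) hn (by norm_num) (by norm_num) (by norm_num)
    (cube_sqrt_geJ (s := 0.9097) (by norm_num) (by norm_num) (by norm_num) (by norm_num))
    (cube_sqrt_geJ (s := 0.8789) (by norm_num) (by norm_num) (by norm_num) (by norm_num))
    (exp_neg_leJ (r := 0.959) 3 (by norm_num) (by norm_num) (by norm_num) (by norm_num))
    (exp_neg_leJ (r := 0.52) 10 (by norm_num) (by norm_num) (by norm_num) (by norm_num))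
    (exp_neg_leJ (r := 0.737) 2 (by norm_num) (by norm_num) (by norm_num) (by norm_num))
    (exp_neg_leJ (r := 0.955) 7 (by norm_num) (by norm_num) (by norm_num) (by norm_num))
    (exp_neg_leJ (r := 0.99) 14 (by norm_num) (by norm_num) (by norm_num) (by norm_num))
    (by norm_num)) (by norm_num) hN hβ.le (by norm_num)

private theorem T3_05_d1_1_c0 {κ t β : ℝ} (h : DomR κ t) (hβ : 0 < β) (hk1 : 0.4 ≤ κ) (hk2 : κ ≤ 0.42)
    (ht1 : 1.188 ≤ t + κ) (ht2 : t + κ ≤ 1.258) (hR0 : β * 10 ≤ κ) (hR : β * (1 * (1 + κ ^ 2)) ≤ κ) :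
    ∀ s : ℂ, ‖s - sg κ t‖ ≤ 0.08 → ‖HH β s - 1‖ ≤ 0.085 := by
  have hN : β * 23.809 ≤ 1 := bNR hβ h.1 hk2 hR0 (by norm_num)
  have hy1 : 0.249 ≤ sy κ t := syR_ge h 0.4 0.42 1.188 0.249 1.28274 1.28275 0.76048 0.79852 hk1 hk2 (by linarith) (by norm_num) (by norm_num)
    (expn_ge (by norm_num) (by norm_num)) (expn_le (by norm_num) (by norm_num) (by norm_num)) (by norm_num)
    (by norm_num) (by norm_num) (by norm_num) (by norm_num) (by norm_num) (by norm_num)
  have hy2 : sy κ t ≤ 0.273 := syR_ang2 h 0.4 0.42 1.258 1.023 0.5224 0.854 0.273 0.7611 1.3139 hk1 hk2 (by linarith) (by norm_num) (by norm_num) (by norm_num)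
    (cos_le_num (by norm_num)) (sin_le_num (by norm_num) (by norm_num)) (expm_le (by norm_num) (by norm_num) (by norm_num))
    (expn_ge (by norm_num) (by norm_num)) (by norm_num) (by norm_num) (by norm_num) (by norm_num) (by norm_num)
  intro s hs
  have hs' : ‖s - ((sx κ t : ℂ) + (sy κ t : ℂ) * I)‖ ≤ 0.08 := hs
  obtain ⟨es, ⟨s1, s2⟩, ⟨s3, s4⟩⟩ := disc_split hs'
  rw [es]
  refine T3_05_d1_1_b0_0 hβ hN ?_
  rw [← es]
  exact disc_norm hs' (norm_sg_le h 0.42 0.249 0.77958 (0.408 - 0.08) hk2 hy1 (expm_le (by norm_num) (by norm_num) (by norm_num)) (by norm_num))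

theorem T3_05_d1_1 {κ t β : ℝ} (h : DomR κ t) (hβ : 0 < β) (hk1 : 0.4 ≤ κ) (hk2 : κ ≤ 0.42)
    (ht1 : 1.188 ≤ t + κ) (ht2 : t + κ ≤ 1.258) (hR0 : β * 10 ≤ κ) (hR : β * (1 * (1 + κ ^ 2)) ≤ κ) :
    ∀ s : ℂ, ‖s - sg κ t‖ ≤ 0.08 → ‖HH β s - 1‖ ≤ 0.085 := by
  exact T3_05_d1_1_c0 h hβ hk1 hk2 ht1 ht2 hR0 hR

private theorem T3_05_d0_2_b0_0 {β x y : ℝ} (hβ : 0 < β) (hN : β * 24.39 ≤ 1) (hx1 : 0.3667 ≤ x) (hx2 : x ≤ 0.5277)
    (hy1 : -0.513 ≤ y) (hy2 : y ≤ -0.393) : ‖HH β (x + y * I) - 1‖ ≤ 0.16 := by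
  refine le_epsJ (C := 3.7647) (N0 := 24.39) (J_boxp 0.3667 0.5277 0.513 0 (-0.393) 0.604 0.736 0.8044 1.9107 0.3579 4.9387 24.39 1.2186 6.199 1.761 0.7436 0.3019 0.1793 0.324 2.1326 0.2528 1.0077 0.9096 3.4448 0.0006344 0.01262 0.0003709 0.0000003101 0.002102 0.0000003101 0.0000003101 0.0000003101 3.7647
    hβ hN hx1 hx2 hy1 hy2 (by norm_num) (by norm_num) (by linarith) (by norm_num) (by norm_num) (by norm_num) (by norm_num) (by norm_num) (by norm_num) (by norm_num) (by norm_num) (by norm_num) (by norm_num) (by norm_num) (by norm_num) (by norm_num) (by norm_num) (by norm_num) (by norm_num) (by norm_num) (by norm_num) (by norm_num) (by norm_num) (by norm_num)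
    (cube_sqrt_geJ (s := 0.7705) (by norm_num) (by norm_num) (by norm_num) (by norm_num))
    (cube_sqrt_geJ (s := 0.9223) (by norm_num) (by norm_num) (by norm_num) (by norm_num))
    (by norm_num) (by norm_num) (by norm_num) (by norm_num) (by norm_num) (by norm_num) (by norm_num) (by norm_num) (by norm_num) (by norm_num) (by norm_num) (by norm_num) (by norm_num) (by norm_num) (by norm_num) (by norm_num) (by norm_num) (by norm_num)
    (exp_neg_leJ (r := 0.363) 7 (by norm_num) (by norm_num) (by norm_num) (by norm_num))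
    (exp_neg_leJ (r := 0.373) 4 (by norm_num) (by norm_num) (by norm_num) (by norm_num))
    (exp_neg_leJ (r := 0.902) 7 (by norm_num) (by norm_num) (by norm_num) (by norm_num))
    (exp_neg_leJ (r := 0.99) 14 (by norm_num) (by norm_num) (by norm_num) (by norm_num))
    (exp_neg_leJ (r := 0.165) 6 (by norm_num) (by norm_num) (by norm_num) (by norm_num))
    (exp_neg_leJ (r := 0.99) 14 (by norm_num) (by norm_num) (by norm_num) (by norm_num))
    (exp_neg_leJ (r := 0.99) 14 (by norm_num) (by norm_num) (by norm_num) (by norm_num))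
    (exp_neg_leJ (r := 0.99) 14 (by norm_num) (by norm_num) (by norm_num) (by norm_num))
    (by norm_num)) (by norm_num) hN hβ.le (by norm_num)

private theorem T3_05_d0_2_b0_1 {β x y : ℝ} (hβ : 0 < β) (hN : β * 24.39 ≤ 1) (hx1 : 0.348 ≤ x) (hx2 : x ≤ 0.5494)
    (hy1 : -0.493 ≤ y) (hy2 : y ≤ -0.348) : ‖HH β (x + y * I) - 1‖ ≤ 0.16 := by
  refine le_epsJ (C := 3.8781) (N0 := 24.39) (J_boxp 0.348 0.5494 0.493 0 (-0.348) 0.605 0.7382 0.8527 1.9623 0.3684 4.9387 24.39 1.2202 6.218 1.762 0.7537 0.3024 0.1794 0.3492 2.1881 0.2547 0.9818 0.9265 3.4014 0.0006268 0.01259 0.0002003 0.0000003101 0.002006 0.0000003101 0.0000003101 0.0000003101 3.8781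
    hβ hN hx1 hx2 hy1 hy2 (by norm_num) (by norm_num) (by linarith) (by norm_num) (by norm_num) (by norm_num) (by norm_num) (by norm_num) (by norm_num) (by norm_num) (by norm_num) (by norm_num) (by norm_num) (by norm_num) (by norm_num) (by norm_num) (by norm_num) (by norm_num) (by norm_num) (by norm_num) (by norm_num) (by norm_num) (by norm_num) (by norm_num)
    (cube_sqrt_geJ (s := 0.7702) (by norm_num) (by norm_num) (by norm_num) (by norm_num))
    (cube_sqrt_geJ (s := 0.9222) (by norm_num) (by norm_num) (by norm_num) (by norm_num))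
    (by norm_num) (by norm_num) (by norm_num) (by norm_num) (by norm_num) (by norm_num) (by norm_num) (by norm_num) (by norm_num) (by norm_num) (by norm_num) (by norm_num) (by norm_num) (by norm_num) (by norm_num) (by norm_num) (by norm_num) (by norm_num)
    (exp_neg_leJ (r := 0.375) 7 (by norm_num) (by norm_num) (by norm_num) (by norm_num))
    (exp_neg_leJ (r := 0.375) 4 (by norm_num) (by norm_num) (by norm_num) (by norm_num))
    (exp_neg_leJ (r := 0.516) 8 (by norm_num) (by norm_num) (by norm_num) (by norm_num))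
    (exp_neg_leJ (r := 0.99) 14 (by norm_num) (by norm_num) (by norm_num) (by norm_num))
    (exp_neg_leJ (r := 0.212) 6 (by norm_num) (by norm_num) (by norm_num) (by norm_num))
    (exp_neg_leJ (r := 0.99) 14 (by norm_num) (by norm_num) (by norm_num) (by norm_num))
    (exp_neg_leJ (r := 0.99) 14 (by norm_num) (by norm_num) (by norm_num) (by norm_num))
    (exp_neg_leJ (r := 0.99) 14 (by norm_num) (by norm_num) (by norm_num) (by norm_num))
    (by norm_num)) (by norm_num) hN hβ.le (by norm_num)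

private theorem T3_05_d0_2_b0_2 {β x y : ℝ} (hβ : 0 < β) (hN : β * 24.39 ≤ 1) (hx1 : 0.3499 ≤ x) (hx2 : x ≤ 0.5543)
    (hy1 : -0.448 ≤ y) (hy2 : y ≤ -0.294) : ‖HH β (x + y * I) - 1‖ ≤ 0.16 := by
  refine le_epsJ (C := 2.7038) (N0 := 24.39) (J_boxp 0.3499 0.5543 0.448 0 (-0.294) 0.6383 0.7128 0.8976 1.8579 0.378 4.9387 24.39 1.1168 5.104 1.674 0.7933 0.3191 0.2003 0.4209 2.3347 0.2802 0.9844 1.0527 3.4742 0.0004178 0.007576 0.00003484 0.0000003101 0.001079 0.0000003101 0.0000003101 0.0000003101 2.7038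
    hβ hN hx1 hx2 hy1 hy2 (by norm_num) (by norm_num) (by linarith) (by norm_num) (by norm_num) (by norm_num) (by norm_num) (by norm_num) (by norm_num) (by norm_num) (by norm_num) (by norm_num) (by norm_num) (by norm_num) (by norm_num) (by norm_num) (by norm_num) (by norm_num) (by norm_num) (by norm_num) (by norm_num) (by norm_num) (by norm_num) (by norm_num)
    (cube_sqrt_geJ (s := 0.7922) (by norm_num) (by norm_num) (by norm_num) (by norm_num))
    (cube_sqrt_geJ (s := 0.9291) (by norm_num) (by norm_num) (by norm_num) (by norm_num))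
    (by norm_num) (by norm_num) (by norm_num) (by norm_num) (by norm_num) (by norm_num) (by norm_num) (by norm_num) (by norm_num) (by norm_num) (by norm_num) (by norm_num) (by norm_num) (by norm_num) (by norm_num) (by norm_num) (by norm_num) (by norm_num)
    (exp_neg_leJ (r := 0.782) 7 (by norm_num) (by norm_num) (by norm_num) (by norm_num))
    (exp_neg_leJ (r := 0.885) 4 (by norm_num) (by norm_num) (by norm_num) (by norm_num))
    (exp_neg_leJ (r := 0.265) 10 (by norm_num) (by norm_num) (by norm_num) (by norm_num))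
    (exp_neg_leJ (r := 0.99) 14 (by norm_num) (by norm_num) (by norm_num) (by norm_num))
    (exp_neg_leJ (r := 0.834) 6 (by norm_num) (by norm_num) (by norm_num) (by norm_num))
    (exp_neg_leJ (r := 0.99) 14 (by norm_num) (by norm_num) (by norm_num) (by norm_num))
    (exp_neg_leJ (r := 0.99) 14 (by norm_num) (by norm_num) (by norm_num) (by norm_num))
    (exp_neg_leJ (r := 0.99) 14 (by norm_num) (by norm_num) (by norm_num) (by norm_num))
    (by norm_num)) (by norm_num) hN hβ.le (by norm_num)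

private theorem T3_05_d0_2_c0 {κ t β : ℝ} (h : DomR κ t) (hβ : 0 < β) (hk1 : 0.4 ≤ κ) (hk2 : κ ≤ 0.41)
    (ht1 : -0.8364 ≤ t + κ) (ht2 : t + κ ≤ -0.71239) (hR0 : β * 10 ≤ κ) (hR : β * (1 * (1 + κ ^ 2)) ≤ κ) :
    ∀ s : ℂ, ‖s - sg κ t‖ ≤ 0.05 → ‖HH β s - 1‖ ≤ 0.16 := by
  have hN : β * 24.39 ≤ 1 := bNR hβ h.1 hk2 hR0 (by norm_num)
  have hy1 : -0.463 ≤ sy κ t := syL_ang2 h 0.4 0.41 0.8364 0.79 0.7038 0.7104 0.463 1.58883 0.62939 hk1 hk2 (by linarith) (by norm_num) (by norm_num) (by norm_num) (by norm_num)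
    (cos_ge_num (by norm_num) (by norm_num)) (sin_le_num (by norm_num) (by norm_num))
    (expn_ge (by norm_num) (by norm_num)) (expm_ge (by norm_num) (by norm_num) (by norm_num) (by norm_num)) (by norm_num) (by norm_num) (by norm_num)
    (by norm_num) (by norm_num) (by norm_num)
  have hy2 : sy κ t ≤ -0.344 := syL_le h 0.4 0.41 0.71239 0.344 0.70892 0.70893 0.5948 0.60968 hk1 hk2 (by linarith) (by norm_num) (by norm_num) (by norm_num)
    (expm_ge (by norm_num) (by norm_num) (by norm_num) (by norm_num)) (expm_le (by norm_num) (by norm_num) (by norm_num)) (by norm_num)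
    (by norm_num) (by norm_num) (by norm_num) (by norm_num) (by norm_num) (by norm_num)
  intro s hs
  have hs' : ‖s - ((sx κ t : ℂ) + (sy κ t : ℂ) * I)‖ ≤ 0.05 := hs
  obtain ⟨es, ⟨s1, s2⟩, ⟨s3, s4⟩⟩ := disc_split hs'
  rcases le_total (sy κ t) (-0.443) with f0 | g0
  · have hx1 : 0.4167 ≤ sx κ t := sx_lo h 0.4 (-0.443) 0.463 1.55737 0.4167 hk1 (by norm_num) f0 (abs_le.2 ⟨by linarith, by linarith⟩) (by rw [neg_neg]; exact expn_ge (by norm_num) (by norm_num)) (by norm_num) (by norm_num)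
    have hx2 : sx κ t ≤ 0.4777 := sx_hi h 0.41 (-0.463) 0.443 1.58884 0.4777 hk2 hy1 (by norm_num) (by rw [abs_of_nonpos (by linarith)]; linarith) (by rw [neg_neg]; exact expn_le (by norm_num) (by norm_num) (by norm_num)) (by norm_num) (by norm_num)
    rw [es]
    exact T3_05_d0_2_b0_0 hβ hN (by linarith) (by linarith) (by linarith) (by linarith)
  rcases le_total (sy κ t) (-0.398) with f1 | g1
  · have hx1 : 0.398 ≤ sx κ t := sx_lo h 0.4 (-0.398) 0.443 1.48884 0.398 hk1 (by norm_num) f1 (abs_le.2 ⟨by linarith, by linarith⟩) (by rw [neg_neg]; exact expn_ge (by norm_num) (by norm_num)) (by norm_num) (by norm_num)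
    have hx2 : sx κ t ≤ 0.4994 := sx_hi h 0.41 (-0.443) 0.398 1.55738 0.4994 hk2 g0 (by norm_num) (by rw [abs_of_nonpos (by linarith)]; linarith) (by rw [neg_neg]; exact expn_le (by norm_num) (by norm_num) (by norm_num)) (by norm_num) (by norm_num)
    rw [es]
    exact T3_05_d0_2_b0_1 hβ hN (by linarith) (by linarith) (by linarith) (by linarith)
  have hx1 : 0.3999 ≤ sx κ t := sx_lo h 0.4 (-0.344) 0.398 1.41057 0.3999 hk1 (by norm_num) hy2 (abs_le.2 ⟨by linarith, by linarith⟩) (by rw [neg_neg]; exact expn_ge (by norm_num) (by norm_num)) (by norm_num) (by norm_num)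
  have hx2 : sx κ t ≤ 0.5043 := sx_hi h 0.41 (-0.398) 0.344 1.48885 0.5043 hk2 g1 (by norm_num) (by rw [abs_of_nonpos (by linarith)]; linarith) (by rw [neg_neg]; exact expn_le (by norm_num) (by norm_num) (by norm_num)) (by norm_num) (by norm_num)
  rw [es]
  exact T3_05_d0_2_b0_2 hβ hN (by linarith) (by linarith) (by linarith) (by linarith)

private theorem T3_05_d0_2_b1_0 {β x y : ℝ} (hβ : 0 < β) (hN : β * 23.809 ≤ 1) (hx1 : 0.393 ≤ x) (hx2 : x ≤ 0.5445)
    (hy1 : -0.524 ≤ y) (hy2 : y ≤ -0.409) : ‖HH β (x + y * I) - 1‖ ≤ 0.16 := by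
  refine le_epsJ (C := 3.7819) (N0 := 23.809) (J_boxp 0.393 0.5445 0.524 0 (-0.409) 0.6147 0.7557 0.8036 1.8601 0.3577 4.8795 23.809 1.2294 6.332 1.771 0.727 0.3073 0.1813 0.3156 2.0876 0.2596 1.0441 0.9323 3.4438 0.0006649 0.01336 0.0005456 0.0000003101 0.002071 0.0000003101 0.0000003101 0.0000003101 3.7819
    hβ hN hx1 hx2 hy1 hy2 (by norm_num) (by norm_num) (by linarith) (by norm_num) (by norm_num) (by norm_num) (by norm_num) (by norm_num) (by norm_num) (by norm_num) (by norm_num) (by norm_num) (by norm_num) (by norm_num) (by norm_num) (by norm_num) (by norm_num) (by norm_num) (by norm_num) (by norm_num) (by norm_num) (by norm_num) (by norm_num) (by norm_num)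
    (cube_sqrt_geJ (s := 0.7682) (by norm_num) (by norm_num) (by norm_num) (by norm_num))
    (cube_sqrt_geJ (s := 0.9216) (by norm_num) (by norm_num) (by norm_num) (by norm_num))
    (by norm_num) (by norm_num) (by norm_num) (by norm_num) (by norm_num) (by norm_num) (by norm_num) (by norm_num) (by norm_num) (by norm_num) (by norm_num) (by norm_num) (by norm_num) (by norm_num) (by norm_num) (by norm_num) (by norm_num) (by norm_num)
    (exp_neg_leJ (r := 0.316) 7 (by norm_num) (by norm_num) (by norm_num) (by norm_num))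
    (exp_neg_leJ (r := 0.316) 4 (by norm_num) (by norm_num) (by norm_num) (by norm_num))
    (exp_neg_leJ (r := 0.514) 7 (by norm_num) (by norm_num) (by norm_num) (by norm_num))
    (exp_neg_leJ (r := 0.99) 14 (by norm_num) (by norm_num) (by norm_num) (by norm_num))
    (exp_neg_leJ (r := 0.18) 6 (by norm_num) (by norm_num) (by norm_num) (by norm_num))
    (exp_neg_leJ (r := 0.99) 14 (by norm_num) (by norm_num) (by norm_num) (by norm_num))
    (exp_neg_leJ (r := 0.99) 14 (by norm_num) (by norm_num) (by norm_num) (by norm_num))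
    (exp_neg_leJ (r := 0.99) 14 (by norm_num) (by norm_num) (by norm_num) (by norm_num))
    (by norm_num)) (by norm_num) hN hβ.le (by norm_num)

private theorem T3_05_d0_2_b1_1 {β x y : ℝ} (hβ : 0 < β) (hN : β * 23.809 ≤ 1) (hx1 : 0.381 ≤ x) (hx2 : x ≤ 0.5577)
    (hy1 : -0.509 ≤ y) (hy2 : y ≤ -0.379) : ‖HH β (x + y * I) - 1‖ ≤ 0.16 := by
  refine le_epsJ (C := 3.7712) (N0 := 23.809) (J_boxp 0.381 0.5577 0.509 0 (-0.379) 0.6169 0.7551 0.8347 1.8856 0.3645 4.8795 23.809 1.2241 6.267 1.766 0.7357 0.3084 0.1825 0.3352 2.1308 0.262 1.0275 0.949 3.4215 0.0006478 0.01298 0.0003434 0.0000003101 0.001956 0.0000003101 0.0000003101 0.0000003101 3.7712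
    hβ hN hx1 hx2 hy1 hy2 (by norm_num) (by norm_num) (by linarith) (by norm_num) (by norm_num) (by norm_num) (by norm_num) (by norm_num) (by norm_num) (by norm_num) (by norm_num) (by norm_num) (by norm_num) (by norm_num) (by norm_num) (by norm_num) (by norm_num) (by norm_num) (by norm_num) (by norm_num) (by norm_num) (by norm_num) (by norm_num) (by norm_num)
    (cube_sqrt_geJ (s := 0.7693) (by norm_num) (by norm_num) (by norm_num) (by norm_num))
    (cube_sqrt_geJ (s := 0.922) (by norm_num) (by norm_num) (by norm_num) (by norm_num))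
    (by norm_num) (by norm_num) (by norm_num) (by norm_num) (by norm_num) (by norm_num) (by norm_num) (by norm_num) (by norm_num) (by norm_num) (by norm_num) (by norm_num) (by norm_num) (by norm_num) (by norm_num) (by norm_num) (by norm_num) (by norm_num)
    (exp_neg_leJ (r := 0.342) 7 (by norm_num) (by norm_num) (by norm_num) (by norm_num))
    (exp_neg_leJ (r := 0.345) 4 (by norm_num) (by norm_num) (by norm_num) (by norm_num))
    (exp_neg_leJ (r := 0.98) 7 (by norm_num) (by norm_num) (by norm_num) (by norm_num))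
    (exp_neg_leJ (r := 0.99) 14 (by norm_num) (by norm_num) (by norm_num) (by norm_num))
    (exp_neg_leJ (r := 0.237) 6 (by norm_num) (by norm_num) (by norm_num) (by norm_num))
    (exp_neg_leJ (r := 0.99) 14 (by norm_num) (by norm_num) (by norm_num) (by norm_num))
    (exp_neg_leJ (r := 0.99) 14 (by norm_num) (by norm_num) (by norm_num) (by norm_num))
    (exp_neg_leJ (r := 0.99) 14 (by norm_num) (by norm_num) (by norm_num) (by norm_num))
    (by norm_num)) (by norm_num) hN hβ.le (by norm_num)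

private theorem T3_05_d0_2_b1_2 {β x y : ℝ} (hβ : 0 < β) (hN : β * 23.809 ≤ 1) (hx1 : 0.355 ≤ x) (hx2 : x ≤ 0.5825)
    (hy1 : -0.479 ≤ y) (hy2 : y ≤ -0.314) : ‖HH β (x + y * I) - 1‖ ≤ 0.16 := by
  refine le_epsJ (C := 3.7987) (N0 := 23.809) (J_boxp 0.355 0.5825 0.479 0 (-0.314) 0.6199 0.7542 0.9 1.9438 0.3785 4.8795 23.809 1.2167 6.176 1.759 0.7539 0.3099 0.1842 0.3737 2.2175 0.2657 0.9915 0.9786 3.3719 0.0006249 0.01247 0.0001372 0.0000003101 0.00179 0.0000003101 0.0000003101 0.0000003101 3.7987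
    hβ hN hx1 hx2 hy1 hy2 (by norm_num) (by norm_num) (by linarith) (by norm_num) (by norm_num) (by norm_num) (by norm_num) (by norm_num) (by norm_num) (by norm_num) (by norm_num) (by norm_num) (by norm_num) (by norm_num) (by norm_num) (by norm_num) (by norm_num) (by norm_num) (by norm_num) (by norm_num) (by norm_num) (by norm_num) (by norm_num) (by norm_num)
    (cube_sqrt_geJ (s := 0.7709) (by norm_num) (by norm_num) (by norm_num) (by norm_num))
    (cube_sqrt_geJ (s := 0.9225) (by norm_num) (by norm_num) (by norm_num) (by norm_num))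
    (by norm_num) (by norm_num) (by norm_num) (by norm_num) (by norm_num) (by norm_num) (by norm_num) (by norm_num) (by norm_num) (by norm_num) (by norm_num) (by norm_num) (by norm_num) (by norm_num) (by norm_num) (by norm_num) (by norm_num) (by norm_num)
    (exp_neg_leJ (r := 0.378) 7 (by norm_num) (by norm_num) (by norm_num) (by norm_num))
    (exp_neg_leJ (r := 0.385) 4 (by norm_num) (by norm_num) (by norm_num) (by norm_num))
    (exp_neg_leJ (r := 0.897) 8 (by norm_num) (by norm_num) (by norm_num) (by norm_num))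
    (exp_neg_leJ (r := 0.99) 14 (by norm_num) (by norm_num) (by norm_num) (by norm_num))
    (exp_neg_leJ (r := 0.326) 6 (by norm_num) (by norm_num) (by norm_num) (by norm_num))
    (exp_neg_leJ (r := 0.99) 14 (by norm_num) (by norm_num) (by norm_num) (by norm_num))
    (exp_neg_leJ (r := 0.99) 14 (by norm_num) (by norm_num) (by norm_num) (by norm_num))
    (exp_neg_leJ (r := 0.99) 14 (by norm_num) (by norm_num) (by norm_num) (by norm_num))
    (by norm_num)) (by norm_num) hN hβ.le (by norm_num)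

private theorem T3_05_d0_2_b1_3 {β x y : ℝ} (hβ : 0 < β) (hN : β * 23.809 ≤ 1) (hx1 : 0.4053 ≤ x) (hx2 : x ≤ 0.5414)
    (hy1 : -0.414 ≤ y) (hy2 : y ≤ -0.302) : ‖HH β (x + y * I) - 1‖ ≤ 0.16 := by
  refine le_epsJ (C := 1.5124) (N0 := 23.809) (J_boxp 0.4053 0.5414 0.414 0 (-0.302) 0.7014 0.6816 0.8834 1.6001 0.375 4.8795 23.809 0.9718 3.936 1.559 0.8297 0.3506 0.237 0.4935 2.4538 0.3257 1.0611 1.2559 3.6699 0.0002372 0.003548 0.000007906 0.0000003101 0.0004295 0.0000003101 0.0000003101 0.0000003101 1.5124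
    hβ hN hx1 hx2 hy1 hy2 (by norm_num) (by norm_num) (by linarith) (by norm_num) (by norm_num) (by norm_num) (by norm_num) (by norm_num) (by norm_num) (by norm_num) (by norm_num) (by norm_num) (by norm_num) (by norm_num) (by norm_num) (by norm_num) (by norm_num) (by norm_num) (by norm_num) (by norm_num) (by norm_num) (by norm_num) (by norm_num) (by norm_num)
    (cube_sqrt_geJ (s := 0.8222) (by norm_num) (by norm_num) (by norm_num) (by norm_num))
    (cube_sqrt_geJ (s := 0.9386) (by norm_num) (by norm_num) (by norm_num) (by norm_num))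
    (by norm_num) (by norm_num) (by norm_num) (by norm_num) (by norm_num) (by norm_num) (by norm_num) (by norm_num) (by norm_num) (by norm_num) (by norm_num) (by norm_num) (by norm_num) (by norm_num) (by norm_num) (by norm_num) (by norm_num) (by norm_num)
    (exp_neg_leJ (r := 0.347) 8 (by norm_num) (by norm_num) (by norm_num) (by norm_num))
    (exp_neg_leJ (r := 0.642) 5 (by norm_num) (by norm_num) (by norm_num) (by norm_num))
    (exp_neg_leJ (r := 0.749) 11 (by norm_num) (by norm_num) (by norm_num) (by norm_num))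
    (exp_neg_leJ (r := 0.99) 14 (by norm_num) (by norm_num) (by norm_num) (by norm_num))
    (exp_neg_leJ (r := 0.754) 7 (by norm_num) (by norm_num) (by norm_num) (by norm_num))
    (exp_neg_leJ (r := 0.99) 14 (by norm_num) (by norm_num) (by norm_num) (by norm_num))
    (exp_neg_leJ (r := 0.99) 14 (by norm_num) (by norm_num) (by norm_num) (by norm_num))
    (exp_neg_leJ (r := 0.99) 14 (by norm_num) (by norm_num) (by norm_num) (by norm_num))
    (by norm_num)) (by norm_num) hN hβ.le (by norm_num)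

private theorem T3_05_d0_2_c1 {κ t β : ℝ} (h : DomR κ t) (hβ : 0 < β) (hk1 : 0.41 ≤ κ) (hk2 : κ ≤ 0.42)
    (ht1 : -0.8364 ≤ t + κ) (ht2 : t + κ ≤ -0.71239) (hR0 : β * 10 ≤ κ) (hR : β * (1 * (1 + κ ^ 2)) ≤ κ) :
    ∀ s : ℂ, ‖s - sg κ t‖ ≤ 0.05 → ‖HH β s - 1‖ ≤ 0.16 := by
  have hN : β * 23.809 ≤ 1 := bNR hβ h.1 hk2 hR0 (by norm_num)
  have hy1 : -0.474 ≤ sy κ t := syL_ang2 h 0.41 0.42 0.8364 0.778 0.7123 0.7019 0.474 1.6064 0.6225 hk1 hk2 (by linarith) (by norm_num) (by norm_num) (by norm_num) (by norm_num)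
    (cos_ge_num (by norm_num) (by norm_num)) (sin_le_num (by norm_num) (by norm_num))
    (expn_ge (by norm_num) (by norm_num)) (expm_ge (by norm_num) (by norm_num) (by norm_num) (by norm_num)) (by norm_num) (by norm_num) (by norm_num)
    (by norm_num) (by norm_num) (by norm_num)
  have hy2 : sy κ t ≤ -0.352 := syL_le h 0.41 0.42 0.71239 0.352 0.70328 0.70329 0.58941 0.60381 hk1 hk2 (by linarith) (by norm_num) (by norm_num) (by norm_num)
    (expm_ge (by norm_num) (by norm_num) (by norm_num) (by norm_num)) (expm_le (by norm_num) (by norm_num) (by norm_num)) (by norm_num)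
    (by norm_num) (by norm_num) (by norm_num) (by norm_num) (by norm_num) (by norm_num)
  intro s hs
  have hs' : ‖s - ((sx κ t : ℂ) + (sy κ t : ℂ) * I)‖ ≤ 0.05 := hs
  obtain ⟨es, ⟨s1, s2⟩, ⟨s3, s4⟩⟩ := disc_split hs'
  rcases le_total (sy κ t) (-0.459) with f0 | g0
  · have hx1 : 0.443 ≤ sx κ t := sx_lo h 0.41 (-0.459) 0.474 1.58248 0.443 hk1 (by norm_num) f0 (abs_le.2 ⟨by linarith, by linarith⟩) (by rw [neg_neg]; exact expn_ge (by norm_num) (by norm_num)) (by norm_num) (by norm_num)
    have hx2 : sx κ t ≤ 0.4945 := sx_hi h 0.42 (-0.474) 0.459 1.60641 0.4945 hk2 hy1 (by norm_num) (by rw [abs_of_nonpos (by linarith)]; linarith) (by rw [neg_neg]; exact expn_le (by norm_num) (by norm_num) (by norm_num)) (by norm_num) (by norm_num)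
    rw [es]
    exact T3_05_d0_2_b1_0 hβ hN (by linarith) (by linarith) (by linarith) (by linarith)
  rcases le_total (sy κ t) (-0.429) with f1 | g1
  · have hx1 : 0.431 ≤ sx κ t := sx_lo h 0.41 (-0.429) 0.459 1.53572 0.431 hk1 (by norm_num) f1 (abs_le.2 ⟨by linarith, by linarith⟩) (by rw [neg_neg]; exact expn_ge (by norm_num) (by norm_num)) (by norm_num) (by norm_num)
    have hx2 : sx κ t ≤ 0.5077 := sx_hi h 0.42 (-0.459) 0.429 1.5825 0.5077 hk2 g0 (by norm_num) (by rw [abs_of_nonpos (by linarith)]; linarith) (by rw [neg_neg]; exact expn_le (by norm_num) (by norm_num) (by norm_num)) (by norm_num) (by norm_num)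
    rw [es]
    exact T3_05_d0_2_b1_1 hβ hN (by linarith) (by linarith) (by linarith) (by linarith)
  rcases le_total (sy κ t) (-0.364) with f2 | g2
  · have hx1 : 0.405 ≤ sx κ t := sx_lo h 0.41 (-0.364) 0.429 1.43907 0.405 hk1 (by norm_num) f2 (abs_le.2 ⟨by linarith, by linarith⟩) (by rw [neg_neg]; exact expn_ge (by norm_num) (by norm_num)) (by norm_num) (by norm_num)
    have hx2 : sx κ t ≤ 0.5325 := sx_hi h 0.42 (-0.429) 0.364 1.53573 0.5325 hk2 g1 (by norm_num) (by rw [abs_of_nonpos (by linarith)]; linarith) (by rw [neg_neg]; exact expn_le (by norm_num) (by norm_num) (by norm_num)) (by norm_num) (by norm_num)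
    rw [es]
    exact T3_05_d0_2_b1_2 hβ hN (by linarith) (by linarith) (by linarith) (by linarith)
  have hx1 : 0.4553 ≤ sx κ t := sx_lo h 0.41 (-0.352) 0.364 1.4219 0.4553 hk1 (by norm_num) hy2 (abs_le.2 ⟨by linarith, by linarith⟩) (by rw [neg_neg]; exact expn_ge (by norm_num) (by norm_num)) (by norm_num) (by norm_num)
  have hx2 : sx κ t ≤ 0.4914 := sx_hi h 0.42 (-0.364) 0.352 1.43908 0.4914 hk2 g2 (by norm_num) (by rw [abs_of_nonpos (by linarith)]; linarith) (by rw [neg_neg]; exact expn_le (by norm_num) (by norm_num) (by norm_num)) (by norm_num) (by norm_num)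
  rw [es]
  exact T3_05_d0_2_b1_3 hβ hN (by linarith) (by linarith) (by linarith) (by linarith)

theorem T3_05_d0_2 {κ t β : ℝ} (h : DomR κ t) (hβ : 0 < β) (hk1 : 0.4 ≤ κ) (hk2 : κ ≤ 0.42)
    (ht1 : -0.8364 ≤ t + κ) (ht2 : t + κ ≤ -0.71239) (hR0 : β * 10 ≤ κ) (hR : β * (1 * (1 + κ ^ 2)) ≤ κ) :
    ∀ s : ℂ, ‖s - sg κ t‖ ≤ 0.05 → ‖HH β s - 1‖ ≤ 0.16 := by
  rcases le_total κ 0.41 with f0 | g0
  · exact T3_05_d0_2_c0 h hβ hk1 f0 ht1 ht2 hR0 hR
  exact T3_05_d0_2_c1 h hβ g0 hk2 ht1 ht2 hR0 hR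

private theorem T3_05_d1_2_b0_0 {β x y : ℝ} (hβ : 0 < β) (hN : β * 23.809 ≤ 1) (hn : ‖(x + y * I : ℂ)‖ ≤ 0.408) : ‖HH β (x + y * I) - 1‖ ≤ 0.085 := by
  refine le_epsJ (C := 1.6075) (N0 := 23.809) (J45_genN (N := 23.809) (r0 := 4.8795) (f := 2.3764) (n0 := 0.408) (a := 0.592) (wL := 1.939) (wR := 2.468)
    (E1 := 0.01915) (E2 := 0.000027) (E3 := 0.06483) (E4 := 0.000352) (E5 := 0.0000003101) hβ (by norm_num) hN
    (by norm_num) (by norm_num) (by norm_num) hn (by norm_num) (by norm_num) (by norm_num)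
    (cube_sqrt_geJ (s := 0.9097) (by norm_num) (by norm_num) (by norm_num) (by norm_num))
    (cube_sqrt_geJ (s := 0.8789) (by norm_num) (by norm_num) (by norm_num) (by norm_num))
    (exp_neg_leJ (r := 0.959) 3 (by norm_num) (by norm_num) (by norm_num) (by norm_num))
    (exp_neg_leJ (r := 0.52) 10 (by norm_num) (by norm_num) (by norm_num) (by norm_num))
    (exp_neg_leJ (r := 0.737) 2 (by norm_num) (by norm_num) (by norm_num) (by norm_num))
    (exp_neg_leJ (r := 0.955) 7 (by norm_num) (by norm_num) (by norm_num) (by norm_num))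
    (exp_neg_leJ (r := 0.99) 14 (by norm_num) (by norm_num) (by norm_num) (by norm_num))
    (by norm_num)) (by norm_num) hN hβ.le (by norm_num)

private theorem T3_05_d1_2_c0 {κ t β : ℝ} (h : DomR κ t) (hβ : 0 < β) (hk1 : 0.4 ≤ κ) (hk2 : κ ≤ 0.42)
    (ht1 : 1.258 ≤ t + κ) (ht2 : t + κ ≤ 1.382) (hR0 : β * 10 ≤ κ) (hR : β * (1 * (1 + κ ^ 2)) ≤ κ) :
    ∀ s : ℂ, ‖s - sg κ t‖ ≤ 0.08 → ‖HH β s - 1‖ ≤ 0.085 := by
  have hN : β * 23.809 ≤ 1 := bNR hβ h.1 hk2 hR0 (by norm_num)
  have hy1 : 0.249 ≤ sy κ t := syR_ge h 0.4 0.42 1.258 0.249 1.28274 1.28275 0.76048 0.79852 hk1 hk2 (by linarith) (by norm_num) (by norm_num)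
    (expn_ge (by norm_num) (by norm_num)) (expn_le (by norm_num) (by norm_num) (by norm_num)) (by norm_num)
    (by norm_num) (by norm_num) (by norm_num) (by norm_num) (by norm_num) (by norm_num)
  have hy2 : sy κ t ≤ 0.285 := syR_ang2 h 0.4 0.42 1.382 1.124 0.4349 0.9023 0.285 0.75202 1.32976 hk1 hk2 (by linarith) (by norm_num) (by norm_num) (by norm_num)
    (cos_le_num (by norm_num)) (sin_le_num (by norm_num) (by norm_num)) (expm_le (by norm_num) (by norm_num) (by norm_num))
    (expn_ge (by norm_num) (by norm_num)) (by norm_num) (by norm_num) (by norm_num) (by norm_num) (by norm_num)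
  intro s hs
  have hs' : ‖s - ((sx κ t : ℂ) + (sy κ t : ℂ) * I)‖ ≤ 0.08 := hs
  obtain ⟨es, ⟨s1, s2⟩, ⟨s3, s4⟩⟩ := disc_split hs'
  rw [es]
  refine T3_05_d1_2_b0_0 hβ hN ?_
  rw [← es]
  exact disc_norm hs' (norm_sg_le h 0.42 0.249 0.77958 (0.408 - 0.08) hk2 hy1 (expm_le (by norm_num) (by norm_num) (by norm_num)) (by norm_num))

theorem T3_05_d1_2 {κ t β : ℝ} (h : DomR κ t) (hβ : 0 < β) (hk1 : 0.4 ≤ κ) (hk2 : κ ≤ 0.42)
    (ht1 : 1.258 ≤ t + κ) (ht2 : t + κ ≤ 1.382) (hR0 : β * 10 ≤ κ) (hR : β * (1 * (1 + κ ^ 2)) ≤ κ) :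
    ∀ s : ℂ, ‖s - sg κ t‖ ≤ 0.08 → ‖HH β s - 1‖ ≤ 0.085 := by
  exact T3_05_d1_2_c0 h hβ hk1 hk2 ht1 ht2 hR0 hR

end Sok
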