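import Pool.Agent.Lib.MP_816dec_an.R1b3D
import Pool.Agent.Lib.MP_816dec_an.R1b3J05

/-!
MP_816dec_an (A3, row R1, b = 3): the cell `0.4 ≤ κ ≤ 0.42`.
-/

set_option autoImplicit false
set_option maxHeartbeats 4000000
set_option linter.unusedVariables false

open Complex Set

namespace Sok

namespace B3_05

private theorem yL {κ t : ℝ} (h : DomR κ t) (hk1 : 0.4 ≤ κ) (hk2 : κ ≤ 0.42) (ht1 : 0 ≤ t + κ) (ht2 : t + κ ≤ 1.144) :
    0 ≤ sy κ t ∧ sy κ t ≤ 0.26 := by
  have hy1 : 0 ≤ sy κ t := sy_nonneg h (by linarith)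
  have hy2 : sy κ t ≤ 0.26 := syR_ang2 h 0.4 0.42 1.144 0.931 0.598 0.8024 0.26 0.77106 1.29693 hk1 hk2 (by linarith) (by norm_num) (by norm_num) (by norm_num)
    (cos_le_num (by norm_num)) (sin_le_num (by norm_num) (by norm_num)) (expm_le (by norm_num) (by norm_num) (by norm_num))
    (expn_ge (by norm_num) (by norm_num)) (by norm_num) (by norm_num) (by norm_num) (by norm_num) (by norm_num)
  exact ⟨hy1, hy2⟩

theorem left {β r h t κ : ℝ} (hh : h = 2 * Real.pi / (3 : ℕ)) (hβ : 0 < β) (hr : 10 ≤ r) (hκ : κ = β * r)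
    (hk1 : 0.4 ≤ κ) (hk2 : κ ≤ 0.42) (hT1 : 0 ≤ t + κ) (hT2 : t + κ ≤ 1.144) :
    ‖Xf β r h t (-1)‖ < |‖Xf β r h t 1‖ - ‖Xf β r h t 0‖| := by
  obtain ⟨q1, q2, q3⟩ := b3_h hh
  have hR0 := b3_R0 hβ hr hκ
  have hR := b3_R hβ hr hκ (by linarith)
  have hD1 : DomR κ t := b3_dom (by linarith) (by linarith) (Or.inl (by linarith))
  have hy := yL hD1 hk1 hk2 (by linarith) (by linarith)
  have hY : 0.8724 * Real.exp (r * 0.58178) ≤ ‖Xf β r h t 1‖ :=
    b3_lo hβ hr hκ (k := 1) (t' := t) (by push_cast; ring) hD1 0.015 1.6249 0.8724 0.58178 (by norm_num)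
      (T3_05_p1 hD1 hβ hk1 hk2 (by linarith) (by linarith) hR0 hR)
      (v5_Dup hD1 0.42 0 0.26 1 0.77106 1.6249 hk2 hy.1 hy.2 (ex_up 0 (by norm_num) (by norm_num) (by norm_num) (by norm_num)) (ex_um 0.26 (by norm_num) (by norm_num) (by norm_num) (by norm_num)) (by norm_num) (by norm_num) (by norm_num)) (by norm_num) (by norm_num)
      (b3_Vlo hD1 0.4 0.42 0 1.144 0.47 (-0.75502) 0.932 0.59621 0.51717 0.58178 hk1 hk2 (by linarith) (by linarith) (by norm_num) (ex_lm 0.75502 (by norm_num) (by norm_num) (by norm_num) (by norm_num) (by norm_num)) (by norm_num) (by norm_num) (by norm_num) (by norm_num) (by norm_num) (by norm_num) (by norm_num) (by norm_num) (ex_um 0.51717 (by norm_num) (by norm_num) (by norm_num) (by norm_num)) (by norm_num))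
  have h0 : ‖Xf β r h t 0‖ ≤ 0.9174 * ‖Xf β r h t 1‖ :=
    b3_cmp 0.3435 0.10688 0.06941 0.26728 0.732871 0.184489 0.9174 hr (b3_HU0 1.2 0.4 0.42 (-2.0944) (-0.95039) 1.61536 1.61608 1.65533 0.61879 0.60412 1.61607 1.8613 0.08176 1.20991 2.1976 0.22041 0.3145 0.000001 2.3188 0.4749 hβ hr hκ (by norm_num) hk1 hk2 (by norm_num) (by linarith) (by linarith) (by norm_num) (by norm_num) (ex_up 0.48 (by norm_num) (by norm_num) (by norm_num) (by norm_num)) (ex_up 0.504 (by norm_num) (by norm_num) (by norm_num) (by norm_num)) (ex_um 0.48 (by norm_num) (by norm_num) (by norm_num) (by norm_num)) (ex_um 0.504 (by norm_num) (by norm_num) (by norm_num) (by norm_num)) (by norm_num) (by norm_num) (ex_lp 0.48 (by norm_num) (by norm_num) (by norm_num)) (by norm_num) (by norm_num) (by norm_num) (by norm_num) (by norm_num) (by norm_num) (by norm_num) (by norm_num) (by norm_num) (by norm_num) (by norm_num) (by norm_num) (by norm_num) (by norm_num) (v5_hump 5.9407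 23.809 4.8795 0.0000003148 0.000001 hβ hr hκ hk1 hk2 (by norm_num) (tb := (-0.95039)) (by linarith) (by norm_num) (by norm_num) (by norm_num) (by norm_num) (by norm_num) (by norm_num) (by norm_num) (ex_un 14 0.99 (by norm_num) (by norm_num) (by norm_num) (by norm_num)) (by norm_num)) (by norm_num) (by norm_num)) hY (by norm_num) (by norm_num) (by norm_num) (by norm_num) (by norm_num) (ex_un 1 0.0688 (by norm_num) (by norm_num) (by norm_num) (by norm_num)) (by norm_num) (by norm_num) (by norm_num) (ex_un 2 0.6728 (by norm_num) (by norm_num) (by norm_num) (by norm_num)) (by norm_num) (by norm_num)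
  have h2 : ‖Xf β r h t (-1)‖ ≤ 0.0095 * ‖Xf β r h t 1‖ := by
    exact b3_cmp 1 0 0.004906 0.53178 0 0.009409 0.0095 hr ((b3_Xm hh).trans_le (b3_U1 0.4 0.42 2.09439 3.2384 0.10359 0.08176 1.20991 0.1027 0.34869 1.4673 0.000001 1.6731 hβ hr hκ (by norm_num) hk1 hk2 (by linarith) (by linarith) (by norm_num) (by norm_num) (by norm_num) (by norm_num) (by norm_num) (by norm_num) (by norm_num) (by norm_num) (by norm_num) (by norm_num) (by norm_num) (by norm_num) (by norm_num) (ex_un 1 0.027 (by norm_num) (by norm_num) (by norm_num) (by norm_num)) (v5_hump 1.7519 23.809 4.8795 0.0000003148 0.000001 hβ hr hκ hk1 hk2 (by norm_num) (tb := 3.2384) (by linarith) (by norm_num) (by norm_num) (by norm_num) (by norm_num) (by norm_num) (by norm_num) (by norm_num) (ex_un 14 0.99 (by norm_num) (by norm_num) (by norm_num) (by norm_num)) (by norm_num)) (by norm_num))) hY (by norm_num) (by norm_num) (by norm_num) (by norm_num) (by norm_num) (by norm_num) (by norm_num)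 (by norm_num) (by norm_num) (ex_un 5 0.3178 (by norm_num) (by norm_num) (by norm_num) (by norm_num)) (by norm_num) (by norm_num)
  exact b3_out1 0.9174 0.0095 hY (by norm_num) h0 h2 (by norm_num)

private theorem yM1 {κ t : ℝ} (h : DomR κ t) (hk1 : 0.4 ≤ κ) (hk2 : κ ≤ 0.42) (ht1 : 0 ≤ t + κ) (ht2 : t + κ ≤ 1.158) :
    0 ≤ sy κ t ∧ sy κ t ≤ 0.262 := by
  have hy1 : 0 ≤ sy κ t := sy_nonneg h (by linarith)
  have hy2 : sy κ t ≤ 0.262 := syR_ang2 h 0.4 0.42 1.158 0.944 0.5876 0.8101 0.262 0.76952 1.29952 hk1 hk2 (by linarith) (by norm_num) (by norm_num) (by norm_num)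
    (cos_le_num (by norm_num)) (sin_le_num (by norm_num) (by norm_num)) (expm_le (by norm_num) (by norm_num) (by norm_num))
    (expn_ge (by norm_num) (by norm_num)) (by norm_num) (by norm_num) (by norm_num) (by norm_num) (by norm_num)
  exact ⟨hy1, hy2⟩

private theorem yM0 {κ t : ℝ} (h : DomR κ t) (hk1 : 0.4 ≤ κ) (hk2 : κ ≤ 0.42) (ht1 : -0.9504 ≤ t + κ) (ht2 : t + κ ≤ -0.93639) :
    (-0.597) ≤ sy κ t ∧ sy κ t ≤ (-0.518) := by
  have hy1 : -0.597 ≤ sy κ t := syL_ang2 h 0.4 0.42 0.9504 0.898 0.6231 0.7822 0.597 1.81665 0.55046 hk1 hk2 (by linarith) (by norm_num) (by norm_num) (by norm_num) (by norm_num)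
    (cos_ge_num (by norm_num) (by norm_num)) (sin_le_num (by norm_num) (by norm_num))
    (expn_ge (by norm_num) (by norm_num)) (expm_ge (by norm_num) (by norm_num) (by norm_num) (by norm_num)) (by norm_num) (by norm_num) (by norm_num)
    (by norm_num) (by norm_num) (by norm_num)
  have hy2 : sy κ t ≤ -0.518 := syL_le h 0.4 0.42 0.93639 0.518 0.59571 0.59572 0.7347 0.77146 hk1 hk2 (by linarith) (by norm_num) (by norm_num) (by norm_num)
    (expm_ge (by norm_num) (by norm_num) (by norm_num) (by norm_num)) (expm_le (by norm_num) (by norm_num) (by norm_num)) (by norm_num)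
    (by norm_num) (by norm_num) (by norm_num) (by norm_num) (by norm_num) (by norm_num)
  exact ⟨hy1, hy2⟩

theorem middle {β r h t κ : ℝ} (hh : h = 2 * Real.pi / (3 : ℕ)) (hβ : 0 < β) (hr : 10 ≤ r) (hκ : κ = β * r)
    (hk1 : 0.4 ≤ κ) (hk2 : κ ≤ 0.42) (hT1 : 1.144 ≤ t + κ) (hT2 : t + κ ≤ 1.158) :
    ‖Xf β r h t (-1)‖ < |‖Xf β r h t 1‖ - ‖Xf β r h t 0‖| := by
  obtain ⟨q1, q2, q3⟩ := b3_h hh
  have hR0 := b3_R0 hβ hr hκ
  have hR := b3_R hβ hr hκ (by linarith)
  have hD1 : DomR κ t := b3_dom (by linarith) (by linarith) (Or.inl (by linarith))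
  have hD0 : DomR κ (t - h) := b3_dom (by linarith) (by linarith) (Or.inl (by linarith))
  have hy := yM1 hD1 hk1 hk2 (by linarith) (by linarith)
  have hy0 := yM0 hD0 hk1 hk2 (by linarith) (by linarith)
  have hY : 0.8719 * Real.exp (r * 0.57304) ≤ ‖Xf β r h t 1‖ :=
    b3_lo hβ hr hκ (k := 1) (t' := t) (by push_cast; ring) hD1 0.015 1.6285 0.8719 0.57304 (by norm_num)
      (T3_05_p1 hD1 hβ hk1 hk2 (by linarith) (by linarith) hR0 hR)
      (v5_Dup hD1 0.42 0 0.262 1 0.76952 1.6285 hk2 hy.1 hy.2 (ex_up 0 (by norm_num) (by norm_num) (by norm_num) (by norm_num)) (ex_um 0.262 (by norm_num) (by norm_num) (by norm_num) (by norm_num)) (by norm_num) (by norm_num) (by norm_num)) (by norm_num) (by norm_num)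
      (b3_Vlo hD1 0.4 0.42 0 1.158 0.46 (-0.77652) 0.942 0.58815 0.53078 0.57304 hk1 hk2 (by linarith) (by linarith) (by norm_num) (ex_lm 0.77652 (by norm_num) (by norm_num) (by norm_num) (by norm_num) (by norm_num)) (by norm_num) (by norm_num) (by norm_num) (by norm_num) (by norm_num) (by norm_num) (by norm_num) (by norm_num) (ex_um 0.53078 (by norm_num) (by norm_num) (by norm_num) (by norm_num)) (by norm_num))
  have hU : ‖Xf β r h t 0‖ ≤ 1.5607 * Real.exp (r * 0.49628) :=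
    b3_up hβ hr hκ (k := 0) (t' := t - h) (by push_cast; ring) hD0 0.185 0.3324 1.5607 0.49628
      (T3_05_p0m hD0 hβ hk1 hk2 (by linarith) (by linarith) hR0 hR) (v5_Dlo hD0 0.4 (-0.597) (-0.518) (-0.557) 1.74542 0.3324 (by norm_num) hk1 hy0.1 hy0.2 (ex_lp 0.557 (by norm_num) (by norm_num) (by norm_num)) (by norm_num) (by norm_num) (by norm_num) (by norm_num)) (by norm_num) (by norm_num)
      (b3_VH hD0 1.09 0.4 0.42 1.51694 1.54651 1.5806 0.64662 0.63268 (-0.93639) 0.49628 (by norm_num) hk1 hk2 (by norm_num) (ex_up 0.436 (by norm_num) (by norm_num) (by norm_num) (by norm_num)) (ex_up 0.4578 (by norm_num) (by norm_num) (by norm_num) (by norm_num)) (ex_um 0.436 (by norm_num) (by norm_num) (by norm_num) (by norm_num)) (ex_um 0.4578 (by norm_num) (by norm_num) (by norm_num) (by norm_num)) (by norm_num) (by norm_num) (by norm_num) (by linarith) (by norm_num))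
  have h0 : ‖Xf β r h t 0‖ ≤ 0.8376 * ‖Xf β r h t 1‖ :=
    b3_cmp 1 0 0.4679 0.07676 0 0.837541 0.8376 hr (b3_w hU) hY (by norm_num) (by norm_num) (by norm_num) (by norm_num) (by norm_num) (by norm_num) (by norm_num) (by norm_num) (by norm_num) (ex_un 0 0.7676 (by norm_num) (by norm_num) (by norm_num) (by norm_num)) (by norm_num) (by norm_num)
  have h2 : ‖Xf β r h t (-1)‖ ≤ 0.0033 * ‖Xf β r h t 1‖ := by
    exact b3_cmp 1 0 0.005352 0.52304 0 0.003238 0.0033 hr ((b3_Xm hh).trans_le (b3_U1 0.4 0.42 3.23839 3.2524 1.24759 0.08176 1.20991 0.9481 0.00001 0.3233 0.000001 0.5275 hβ hr hκ (by norm_num) hk1 hk2 (by linarith) (by linarith) (by norm_num) (by norm_num) (by norm_num) (by norm_num) (by norm_num) (by norm_num) (by norm_num) (by norm_num) (by norm_num) (by norm_num) (by norm_num) (by norm_num) (by norm_num) (ex_un 9 0.481 (by norm_num) (by norm_num) (by norm_num) (by norm_num)) (v5_hump 1.7379 23.809 4.8795 0.0000003148 0.000001 hβ hr hκ hk1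 hk2 (by norm_num) (tb := 3.2524) (by linarith) (by norm_num) (by norm_num) (by norm_num) (by norm_num) (by norm_num) (by norm_num) (by norm_num) (ex_un 14 0.99 (by norm_num) (by norm_num) (by norm_num) (by norm_num)) (by norm_num)) (by norm_num))) hY (by norm_num) (by norm_num) (by norm_num) (by norm_num) (by norm_num) (by norm_num) (by norm_num) (by norm_num) (by norm_num) (ex_un 5 0.2304 (by norm_num) (by norm_num) (by norm_num) (by norm_num)) (by norm_num) (by norm_num)
  exact b3_out1 0.8376 0.0033 hY (by norm_num) h0 h2 (by norm_num)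

private theorem yR0 {κ t : ℝ} (h : DomR κ t) (hk1 : 0.4 ≤ κ) (hk2 : κ ≤ 0.42) (ht1 : -0.7124 ≤ t + κ) (ht2 : t + κ ≤ 0.0001) :
    (-0.37) ≤ sy κ t ∧ sy κ t ≤ 0.005 := by
  have hy1 : -0.37 ≤ sy κ t := syL_ang2 h 0.4 0.42 0.7124 0.654 0.7936 0.6084 0.37 1.44773 0.69073 hk1 hk2 (by linarith) (by norm_num) (by norm_num) (by norm_num) (by norm_num)
    (cos_ge_num (by norm_num) (by norm_num)) (sin_le_num (by norm_num) (by norm_num))
    (expn_ge (by norm_num) (by norm_num)) (expm_ge (by norm_num) (by norm_num) (by norm_num) (by norm_num)) (by norm_num) (by norm_num) (by norm_num)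
    (by norm_num) (by norm_num) (by norm_num)
  have hy2 : sy κ t ≤ 0.005 := syR_le h 0.4 0.42 0.0001 0.005 1.00501 0.0118 0.01196 0.01257 hk1 hk2 (by linarith) (by norm_num) (by norm_num)
    (expn_ge (by norm_num) (by norm_num)) (by norm_num) (by norm_num) (Or.inr ((mul_le_mul_of_nonneg_left (expn_le (E := 1.00502) (by norm_num) (by norm_num) (by norm_num)) (by norm_num)).trans (by norm_num))) (by norm_num) (by norm_num) (by norm_num)
  exact ⟨hy1, hy2⟩

theorem right0 {β r h t κ : ℝ} (hh : h = 2 * Real.pi / (3 : ℕ)) (hβ : 0 < β) (hr : 10 ≤ r) (hκ : κ = β * r)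
    (hk1 : 0.4 ≤ κ) (hk2 : κ ≤ 0.42) (hT1 : 1.382 ≤ t + κ) (hT2 : t + κ ≤ h) :
    ‖Xf β r h t (-1)‖ < |‖Xf β r h t 1‖ - ‖Xf β r h t 0‖| := by
  obtain ⟨q1, q2, q3⟩ := b3_h hh
  have hR0 := b3_R0 hβ hr hκ
  have hR := b3_R hβ hr hκ (by linarith)
  have hD0 : DomR κ (t - h) := b3_dom (by linarith) (by linarith) (Or.inl (by linarith))
  have hy := yR0 hD0 hk1 hk2 (by linarith) (by linarith)
  have hY : 0.9153 * Real.exp (r * 0.72518) ≤ ‖Xf β r h t 0‖ :=
    b3_lo hβ hr hκ (k := 0) (t' := t - h) (by push_cast; ring) hD0 0.045 1.1847 0.9153 0.72518 (by norm_num)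
      (T3_05_p0R hD0 hβ hk1 hk2 (by linarith) (by linarith) hR0 hR)
      (v5_Dup hD0 0.42 (-0.37) 0.005 1.44774 0.99502 1.1847 hk2 hy.1 hy.2 (ex_up 0.37 (by norm_num) (by norm_num) (by norm_num) (by norm_num)) (ex_um 0.005 (by norm_num) (by norm_num) (by norm_num) (by norm_num)) (by norm_num) (by norm_num) (by norm_num)) (by norm_num) (by norm_num)
      (b3_Vlo hD0 0.4 0.42 (-0.7124) 0.0001 1.12 0.11333 0.6644 0.78728 0.23918 0.72518 hk1 hk2 (by linarith) (by linarith) (by norm_num) (ex_lp 0.11333 (by norm_num) (by norm_num) (by norm_num)) (by norm_num) (by norm_num) (by norm_num) (by norm_num) (by norm_num) (by norm_num) (by norm_num) (by norm_num) (ex_um 0.23918 (by norm_num) (by norm_num) (by norm_num) (by norm_num)) (by norm_num))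
  have h1 : ‖Xf β r h t 1‖ ≤ 0.2061 * ‖Xf β r h t 0‖ := by
    rcases le_total (t + κ) 1.77 with g0 | g0
    · exact b3_cmp 0.0629 0.27745 0.000709 0.72518 0.205963 0.000089 0.2061 hr (b3_X1.trans_le (b3_HF 0.61 0.4 0.42 1.382 1.77 1.29075 0.78349 0.77399 1.27635 1.29202 0.77398 2.8057 0.08176 2.5327 0.2007 0.07636 0.4697 0.000001 2.9971 0.1141 0.44773 hβ hr hκ (by norm_num) hk1 hk2 (by norm_num) (by linarith) (by linarith) (by norm_num) (ex_um 0.244 (by norm_num) (by norm_num) (by norm_num) (by norm_num)) (ex_um 0.2562 (by norm_num) (by norm_num) (by norm_num) (by norm_num)) (ex_up 0.244 (by norm_num) (by norm_num) (by norm_num) (by norm_num)) (ex_up 0.2562 (by norm_num) (by norm_num) (by norm_num) (by norm_num)) (by norm_num) (by norm_num) (ex_lm 0.2562 (by norm_num) (by norm_num) (by norm_num) (by norm_num) (by norm_num)) (by norm_num) (by norm_num) (by norm_num) (by norm_num) (by norm_num) (by norm_num) (by norm_num) (by norm_num) (by norm_num)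 (by norm_num) (by norm_num) (by norm_num) (ex_un 0 0.7636 (by norm_num) (by norm_num) (by norm_num) (by norm_num)) (v5_hump 3.2203 23.809 4.8795 0.0000003148 0.000001 hβ hr hκ hk1 hk2 (by norm_num) (tb := 1.77) (by linarith) (by norm_num) (by norm_num) (by norm_num) (by norm_num) (by norm_num) (by norm_num) (by norm_num) (ex_un 14 0.99 (by norm_num) (by norm_num) (by norm_num) (by norm_num)) (by norm_num)) (by norm_num) (by norm_num) (by norm_num))) hY (by norm_num) (by norm_num) (by norm_num) (by norm_num) (by norm_num) (ex_un 2 0.7745 (by norm_num) (by norm_num) (by norm_num) (by norm_num)) (by norm_num) (by norm_num) (by norm_num) (ex_un 7 0.2518 (by norm_num) (by norm_num) (by norm_num) (by norm_num)) (by norm_num) (by norm_num)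
    exact b3_cmp 1 0 0.01425 0.42518 0 0.07698 0.2061 hr (b3_w (b3_UD1 0.4 0.42 1.77 2.0944 0.25 0.63079 0.25 2.5778 4.9445 0.3 hβ hr hκ (by norm_num) hk1 hk2 (by linarith) (by linarith) (by norm_num) (by norm_num) (by norm_num) (by norm_num) (by norm_num) (by norm_num) (by norm_num) (by norm_num) (by norm_num) (by norm_num) (by norm_num) (by norm_num) (by norm_num))) hY (by norm_num) (by norm_num) (by norm_num) (by norm_num) (by norm_num) (by norm_num) (by norm_num) (by norm_num) (by norm_num) (ex_un 4 0.2518 (by norm_num) (by norm_num) (by norm_num) (by norm_num)) (by norm_num) (by norm_num)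
  have h2 : ‖Xf β r h t (-1)‖ ≤ 0.0007 * ‖Xf β r h t 0‖ := by
    exact b3_cmp 1 0 0.001178 0.67518 0 0.000666 0.0007 hr ((b3_Xm hh).trans_le (b3_U1 0.4 0.42 3.47639 4.1888 1.48559 0.08176 1.20991 0.7977 0.00005 0.6473 0.000001 0.517 hβ hr hκ (by norm_num) hk1 hk2 (by linarith) (by linarith) (by norm_num) (by norm_num) (by norm_num) (by norm_num) (by norm_num) (by norm_num) (by norm_num) (by norm_num) (by norm_num) (by norm_num) (by norm_num) (by norm_num) (by norm_num) (ex_un 7 0.977 (by norm_num) (by norm_num) (by norm_num) (by norm_num)) (v5_hump 0.8015 23.809 4.8795 0.0000003148 0.000001 hβ hr hκ hk1 hk2 (by norm_num) (tb := 4.1888) (by linarith) (by norm_num) (by norm_num) (by norm_num) (by norm_num) (by norm_num) (by norm_num) (by norm_num) (ex_un 14 0.99 (by norm_num) (by norm_num) (by norm_num) (by norm_num)) (by norm_num)) (by norm_num))) hY (by norm_num) (by norm_num) (by norm_num) (by norm_num) (by norm_num) (by norm_num) (by norm_num)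 (by norm_num) (by norm_num) (ex_un 6 0.7518 (by norm_num) (by norm_num) (by norm_num) (by norm_num)) (by norm_num) (by norm_num)
  exact b3_out0 0.2061 0.0007 hY (by norm_num) h1 h2 (by norm_num)

private theorem yI {κ t : ℝ} (h : DomR κ t) (hk1 : 0.4 ≤ κ) (hk2 : κ ≤ 0.42) (ht1 : -0.9364 ≤ t + κ) (ht2 : t + κ ≤ -0.71239) :
    (-0.58) ≤ sy κ t ∧ sy κ t ≤ (-0.344) := by
  have hy1 : -0.58 ≤ sy κ t := syL_ang2 h 0.4 0.42 0.9364 0.883 0.6348 0.7728 0.58 1.78603 0.55989 hk1 hk2 (by linarith) (by norm_num) (by norm_num) (by norm_num) (by norm_num)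
    (cos_ge_num (by norm_num) (by norm_num)) (sin_le_num (by norm_num) (by norm_num))
    (expn_ge (by norm_num) (by norm_num)) (expm_ge (by norm_num) (by norm_num) (by norm_num) (by norm_num)) (by norm_num) (by norm_num) (by norm_num)
    (by norm_num) (by norm_num) (by norm_num)
  have hy2 : sy κ t ≤ -0.344 := syL_le h 0.4 0.42 0.71239 0.344 0.70892 0.70893 0.58063 0.60968 hk1 hk2 (by linarith) (by norm_num) (by norm_num) (by norm_num)
    (expm_ge (by norm_num) (by norm_num) (by norm_num) (by norm_num)) (expm_le (by norm_num) (by norm_num) (by norm_num)) (by norm_num)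
    (by norm_num) (by norm_num) (by norm_num) (by norm_num) (by norm_num) (by norm_num)
  exact ⟨hy1, hy2⟩

theorem innE {β r h t κ : ℝ} (hh : h = 2 * Real.pi / (3 : ℕ)) (hβ : 0 < β) (hr : 10 ≤ r) (hκ : κ = β * r)
    (hk1 : 0.4 ≤ κ) (hk2 : κ ≤ 0.42) (hT1 : 1.158 ≤ t + κ) (hT2 : t + κ ≤ 1.382) :
    ‖Xf β r h t (-1)‖ ≤ 0.00793 * ‖Xf β r h t 0‖ ∧ ‖Xf β r h (t + β) (-1)‖ ≤ 0.00793 * ‖Xf β r h t 0‖ := by
  obtain ⟨q1, q2, q3⟩ := b3_h hh
  have hR0 := b3_R0 hβ hr hκ
  have hR := b3_R hβ hr hκ (by linarith)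
  have hD0 : DomR κ (t - h) := b3_dom (by linarith) (by linarith) (Or.inl (by linarith))
  have hy := yI hD0 hk1 hk2 (by linarith) (by linarith)
  have hY : 0.9253 * Real.exp (r * 0.47744) ≤ ‖Xf β r h t 0‖ :=
    b3_lo hβ hr hκ (k := 0) (t' := t - h) (by push_cast; ring) hD0 0.165 0.663 0.9253 0.47744 (by norm_num)
      (T3_05_p0 hD0 hβ hk1 hk2 (by linarith) (by linarith) hR0 hR)
      (v5_Dup hD0 0.42 (-0.58) (-0.344) 1.78604 1.41058 0.663 hk2 hy.1 hy.2 (ex_up 0.58 (by norm_num) (by norm_num) (by norm_num) (by norm_num)) (ex_up 0.344 (by norm_num) (by norm_num) (by norm_num) (by norm_num)) (by norm_num) (by norm_num) (by norm_num)) (by norm_num) (by norm_num)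
      (b3_Vlo hD0 0.4 0.42 (-0.9364) (-0.71239) 1.06 0.05827 0.9124 0.61183 0.49131 0.47744 hk1 hk2 (by linarith) (by linarith) (by norm_num) (ex_lp 0.05827 (by norm_num) (by norm_num) (by norm_num)) (by norm_num) (by norm_num) (by norm_num) (by norm_num) (by norm_num) (by norm_num) (by norm_num) (by norm_num) (ex_um 0.49131 (by norm_num) (by norm_num) (by norm_num) (by norm_num)) (by norm_num))
  constructor
  · exact b3_cmp 1 0 0.01393 0.42744 0 0.00793 0.00793 hr ((b3_Xm hh).trans_le (b3_U1 0.4 0.42 3.25239 3.4764 1.26159 0.08176 1.20991 0.9525 0.00001 0.3093 0.000001 0.5267 hβ hr hκ (by norm_num) hk1 hk2 (by linarith) (by linarith) (by norm_num) (by norm_num) (by norm_num) (by norm_num) (by norm_num) (by norm_num) (by norm_num) (by norm_num) (by norm_num) (by norm_num) (by norm_num) (by norm_num) (by norm_num) (ex_un 9 0.525 (by norm_num) (by norm_num) (by norm_num) (by norm_num)) (v5_hump 1.5139 23.809 4.8795 0.0000003148 0.000001 hβ hr hκ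 hk1 hk2 (by norm_num) (tb := 3.4764) (by linarith) (by norm_num) (by norm_num) (by norm_num) (by norm_num) (by norm_num) (by norm_num) (by norm_num) (ex_un 14 0.99 (by norm_num) (by norm_num) (by norm_num) (by norm_num)) (by norm_num)) (by norm_num))) hY (by norm_num) (by norm_num) (by norm_num) (by norm_num) (by norm_num) (by norm_num) (by norm_num) (by norm_num) (by norm_num) (ex_un 4 0.2744 (by norm_num) (by norm_num) (by norm_num) (by norm_num)) (by norm_num) (by norm_num)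
  · exact b3_cmp 1 0 0.01393 0.42744 0 0.00793 0.00793 hr ((b3_Xm hh).trans_le (b3_U1 0.4 0.42 3.25239 3.5184 1.26159 0.08176 1.20991 0.9525 0.00001 0.3093 0.000001 0.5267 hβ hr hκ (by norm_num) hk1 hk2 (by linarith) (by linarith) (by norm_num) (by norm_num) (by norm_num) (by norm_num) (by norm_num) (by norm_num) (by norm_num) (by norm_num) (by norm_num) (by norm_num) (by norm_num) (by norm_num) (by norm_num) (ex_un 9 0.525 (by norm_num) (by norm_num) (by norm_num) (by norm_num)) (v5_hump 1.4719 23.809 4.8795 0.0000003148 0.000001 hβ hr hκ hk1 hk2 (by norm_num) (tb := 3.5184) (by linarith) (by norm_num) (by norm_num) (by norm_num) (by norm_num) (by norm_num) (by norm_num) (by norm_num) (ex_un 14 0.99 (by norm_num) (by norm_num) (by norm_num) (by norm_num)) (by norm_num)) (by norm_num))) hY (by norm_num) (by norm_num) (by norm_num) (by norm_num) (by norm_num) (by norm_num) (by norm_num) (by norm_num) (by norm_num) (ex_un 4 0.2744 (by norm_num)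 (by norm_num) (by norm_num) (by norm_num)) (by norm_num) (by norm_num)

private theorem yA0 {κ t : ℝ} (h : DomR κ t) (hk1 : 0.4 ≤ κ) (hk2 : κ ≤ 0.42) (ht1 : 1.158 ≤ t + κ) (ht2 : t + κ ≤ 1.173) :
    0.249 ≤ sy κ t ∧ sy κ t ≤ 0.264 := by
  have hy1 : 0.249 ≤ sy κ t := syR_ge h 0.4 0.42 1.158 0.249 1.28274 1.28275 0.76048 0.79852 hk1 hk2 (by linarith) (by norm_num) (by norm_num)
    (expn_ge (by norm_num) (by norm_num)) (expn_le (by norm_num) (by norm_num) (by norm_num)) (by norm_num)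
    (by norm_num) (by norm_num) (by norm_num) (by norm_num) (by norm_num) (by norm_num)
  have hy2 : sy κ t ≤ 0.264 := syR_ang2 h 0.4 0.42 1.173 0.958 0.5763 0.8182 0.264 0.76798 1.30212 hk1 hk2 (by linarith) (by norm_num) (by norm_num) (by norm_num)
    (cos_le_num (by norm_num)) (sin_le_num (by norm_num) (by norm_num)) (expm_le (by norm_num) (by norm_num) (by norm_num))
    (expn_ge (by norm_num) (by norm_num)) (by norm_num) (by norm_num) (by norm_num) (by norm_num) (by norm_num)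
  exact ⟨hy1, hy2⟩

private theorem yB0 {κ t : ℝ} (h : DomR κ t) (hk1 : 0.4 ≤ κ) (hk2 : κ ≤ 0.42) (ht1 : -0.9364 ≤ t + κ) (ht2 : t + κ ≤ -0.92139) :
    (-0.58) ≤ sy κ t ∧ sy κ t ≤ (-0.504) := by
  have hy1 : -0.58 ≤ sy κ t := syL_ang2 h 0.4 0.42 0.9364 0.883 0.6348 0.7728 0.58 1.78603 0.55989 hk1 hk2 (by linarith) (by norm_num) (by norm_num) (by norm_num) (by norm_num)
    (cos_ge_num (by norm_num) (by norm_num)) (sin_le_num (by norm_num) (by norm_num))
    (expn_ge (by norm_num) (by norm_num)) (expm_ge (by norm_num) (by norm_num) (by norm_num) (by norm_num)) (by norm_num) (by norm_num) (by norm_num)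
    (by norm_num) (by norm_num) (by norm_num)
  have hy2 : sy κ t ≤ -0.504 := syL_le h 0.4 0.42 0.92139 0.504 0.6041 0.60412 0.72491 0.7612 hk1 hk2 (by linarith) (by norm_num) (by norm_num) (by norm_num)
    (expm_ge (by norm_num) (by norm_num) (by norm_num) (by norm_num)) (expm_le (by norm_num) (by norm_num) (by norm_num)) (by norm_num)
    (by norm_num) (by norm_num) (by norm_num) (by norm_num) (by norm_num) (by norm_num)
  exact ⟨hy1, hy2⟩

theorem pc0 {β r h t κ : ℝ} (hh : h = 2 * Real.pi / (3 : ℕ)) (hβ : 0 < β) (hr : 10 ≤ r) (hκ : κ = β * r)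
    (hk1 : 0.4 ≤ κ) (hk2 : κ ≤ 0.42) (hT1 : 1.158 ≤ t + κ) (hT2 : t + κ ≤ 1.173) :
    Xf β r h t 0 ≠ 0 ∧ r * 0.1076 ≤ (Ld β r h t 1 - Ld β r h t 0).im ∧
      ‖(((-1 : ℤ) : ℂ) - 1) * Ld β r h t 0 - ((-1 : ℤ) : ℂ) * Ld β r h t 1‖ ≤ r * 7.76 := by
  obtain ⟨q1, q2, q3⟩ := b3_h hh
  have hR0 := b3_R0 hβ hr hκ
  have hR := b3_R hβ hr hκ (by linarith)
  have hD1 : DomR κ t := b3_dom (by linarith) (by linarith) (Or.inl (by linarith))
  have hD0 : DomR κ (t - h) := b3_dom (by linarith) (by linarith) (Or.inl (by linarith))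
  have y1 := yA0 hD1 hk1 hk2 (by linarith) (by linarith)
  have y0 := yB0 hD0 hk1 hk2 (by linarith) (by linarith)
  have j1 := T3_05_d1_0 hD1 hβ hk1 hk2 (by linarith) (by linarith) hR0 hR
  exact b3_piece 0.4 0.42 0.249 0.264 0.257 0.77336 0.77958 0.76798 0.3275 1.5952 1.6321 0.04 0.025 0.025 0.6411 0.1663 0 0 (-0.58) (-0.504) (-0.542) 1.71943 1.78604 0.7502 0.3489 0.03 0.29 0.165 11.5769 14.7035 0.9217 1.9819 0.1076 7.76
    hβ hr hκ (by norm_num) hk1 hk2 hD1 hD0 j1 (j1 _ (by rw [sub_self, norm_zero]; norm_num))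
    (T3_05_d0_0 hD0 hβ hk1 hk2 (by linarith) (by linarith) hR0 hR)
    (T3_05_p0 hD0 hβ hk1 hk2 (by linarith) (by linarith) hR0 hR)
    y1.1 y1.2 y0.1 y0.2 (by norm_num)
    (ex_um 0.249 (by norm_num) (by norm_num) (by norm_num) (by norm_num)) (ex_um 0.264 (by norm_num) (by norm_num) (by norm_num) (by norm_num)) (ex_lm 0.257 (by norm_num) (by norm_num) (by norm_num) (by norm_num) (by norm_num)) (by norm_num) (by norm_num) (by norm_num) (by norm_num) (by norm_num) (by norm_num) (by norm_num) (by norm_num)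
    (by norm_num) (by norm_num) (by norm_num) (by norm_num) (by norm_num) (by norm_num) (by norm_num) (by norm_num) (by norm_num) (by norm_num)
    (ex_up 0.58 (by norm_num) (by norm_num) (by norm_num) (by norm_num)) (ex_lp 0.542 (by norm_num) (by norm_num) (by norm_num)) (by norm_num) (by norm_num) (by norm_num) (by norm_num) (by norm_num) (by norm_num)
    (by norm_num) (by norm_num) (by norm_num) (by norm_num) (by norm_num) (by norm_num) (by norm_num) (by norm_num) (by norm_num) (by norm_num) (by norm_num)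
    (by norm_num) (by norm_num) (by norm_num) (by norm_num)

private theorem yA1 {κ t : ℝ} (h : DomR κ t) (hk1 : 0.4 ≤ κ) (hk2 : κ ≤ 0.42) (ht1 : 1.173 ≤ t + κ) (ht2 : t + κ ≤ 1.188) :
    0.249 ≤ sy κ t ∧ sy κ t ≤ 0.265 := by
  have hy1 : 0.249 ≤ sy κ t := syR_ge h 0.4 0.42 1.173 0.249 1.28274 1.28275 0.76048 0.79852 hk1 hk2 (by linarith) (by norm_num) (by norm_num)
    (expn_ge (by norm_num) (by norm_num)) (expn_le (by norm_num) (by norm_num) (by norm_num)) (by norm_num)
    (by norm_num) (by norm_num) (by norm_num) (by norm_num) (by norm_num) (by norm_num)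
  have hy2 : sy κ t ≤ 0.265 := syR_ang2 h 0.4 0.42 1.188 0.965 0.5706 0.8223 0.265 0.76721 1.30343 hk1 hk2 (by linarith) (by norm_num) (by norm_num) (by norm_num)
    (cos_le_num (by norm_num)) (sin_le_num (by norm_num) (by norm_num)) (expm_le (by norm_num) (by norm_num) (by norm_num))
    (expn_ge (by norm_num) (by norm_num)) (by norm_num) (by norm_num) (by norm_num) (by norm_num) (by norm_num)
  exact ⟨hy1, hy2⟩

private theorem yB1 {κ t : ℝ} (h : DomR κ t) (hk1 : 0.4 ≤ κ) (hk2 : κ ≤ 0.42) (ht1 : -0.9214 ≤ t + κ) (ht2 : t + κ ≤ -0.90639) :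
    (-0.563) ≤ sy κ t ∧ sy κ t ≤ (-0.491) := by
  have hy1 : -0.563 ≤ sy κ t := syL_ang2 h 0.4 0.42 0.9214 0.868 0.6463 0.7632 0.563 1.75592 0.56949 hk1 hk2 (by linarith) (by norm_num) (by norm_num) (by norm_num) (by norm_num)
    (cos_ge_num (by norm_num) (by norm_num)) (sin_le_num (by norm_num) (by norm_num))
    (expn_ge (by norm_num) (by norm_num)) (expm_ge (by norm_num) (by norm_num) (by norm_num) (by norm_num)) (by norm_num) (by norm_num) (by norm_num)
    (by norm_num) (by norm_num) (by norm_num)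
  have hy2 : sy κ t ≤ -0.491 := syL_le h 0.4 0.42 0.90639 0.491 0.61201 0.61202 0.71546 0.75126 hk1 hk2 (by linarith) (by norm_num) (by norm_num) (by norm_num)
    (expm_ge (by norm_num) (by norm_num) (by norm_num) (by norm_num)) (expm_le (by norm_num) (by norm_num) (by norm_num)) (by norm_num)
    (by norm_num) (by norm_num) (by norm_num) (by norm_num) (by norm_num) (by norm_num)
  exact ⟨hy1, hy2⟩

theorem pc1 {β r h t κ : ℝ} (hh : h = 2 * Real.pi / (3 : ℕ)) (hβ : 0 < β) (hr : 10 ≤ r) (hκ : κ = β * r)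
    (hk1 : 0.4 ≤ κ) (hk2 : κ ≤ 0.42) (hT1 : 1.173 ≤ t + κ) (hT2 : t + κ ≤ 1.188) :
    Xf β r h t 0 ≠ 0 ∧ r * 0.1076 ≤ (Ld β r h t 1 - Ld β r h t 0).im ∧
      ‖(((-1 : ℤ) : ℂ) - 1) * Ld β r h t 0 - ((-1 : ℤ) : ℂ) * Ld β r h t 1‖ ≤ r * 7.76 := by
  obtain ⟨q1, q2, q3⟩ := b3_h hh
  have hR0 := b3_R0 hβ hr hκ
  have hR := b3_R hβ hr hκ (by linarith)
  have hD1 : DomR κ t := b3_dom (by linarith) (by linarith) (Or.inl (by linarith))
  have hD0 : DomR κ (t - h) := b3_dom (by linarith) (by linarith) (Or.inl (by linarith))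
  have y1 := yA1 hD1 hk1 hk2 (by linarith) (by linarith)
  have y0 := yB1 hD0 hk1 hk2 (by linarith) (by linarith)
  have j1 := T3_05_d1_0 hD1 hβ hk1 hk2 (by linarith) (by linarith) hR0 hR
  exact b3_piece 0.4 0.42 0.249 0.265 0.257 0.77336 0.77958 0.76721 0.3275 1.5952 1.6339 0.04 0.025 0.025 0.6411 0.1663 0 0 (-0.563) (-0.491) (-0.527) 1.69384 1.75594 0.7375 0.3661 0.03 0.29 0.165 11.5769 14.1109 0.8904 1.7937 0.1076 7.76
    hβ hr hκ (by norm_num) hk1 hk2 hD1 hD0 j1 (j1 _ (by rw [sub_self, norm_zero]; norm_num))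
    (T3_05_d0_0 hD0 hβ hk1 hk2 (by linarith) (by linarith) hR0 hR)
    (T3_05_p0 hD0 hβ hk1 hk2 (by linarith) (by linarith) hR0 hR)
    y1.1 y1.2 y0.1 y0.2 (by norm_num)
    (ex_um 0.249 (by norm_num) (by norm_num) (by norm_num) (by norm_num)) (ex_um 0.265 (by norm_num) (by norm_num) (by norm_num) (by norm_num)) (ex_lm 0.257 (by norm_num) (by norm_num) (by norm_num) (by norm_num) (by norm_num)) (by norm_num) (by norm_num) (by norm_num) (by norm_num) (by norm_num) (by norm_num) (by norm_num) (by norm_num)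
    (by norm_num) (by norm_num) (by norm_num) (by norm_num) (by norm_num) (by norm_num) (by norm_num) (by norm_num) (by norm_num) (by norm_num)
    (ex_up 0.563 (by norm_num) (by norm_num) (by norm_num) (by norm_num)) (ex_lp 0.527 (by norm_num) (by norm_num) (by norm_num)) (by norm_num) (by norm_num) (by norm_num) (by norm_num) (by norm_num) (by norm_num)
    (by norm_num) (by norm_num) (by norm_num) (by norm_num) (by norm_num) (by norm_num) (by norm_num) (by norm_num) (by norm_num) (by norm_num) (by norm_num)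
    (by norm_num) (by norm_num) (by norm_num) (by norm_num)

private theorem yA2 {κ t : ℝ} (h : DomR κ t) (hk1 : 0.4 ≤ κ) (hk2 : κ ≤ 0.42) (ht1 : 1.188 ≤ t + κ) (ht2 : t + κ ≤ 1.206) :
    0.249 ≤ sy κ t ∧ sy κ t ≤ 0.267 := by
  have hy1 : 0.249 ≤ sy κ t := syR_ge h 0.4 0.42 1.188 0.249 1.28274 1.28275 0.76048 0.79852 hk1 hk2 (by linarith) (by norm_num) (by norm_num)
    (expn_ge (by norm_num) (by norm_num)) (expn_le (by norm_num) (by norm_num) (by norm_num)) (by norm_num)
    (by norm_num) (by norm_num) (by norm_num) (by norm_num) (by norm_num) (by norm_num)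
  have hy2 : sy κ t ≤ 0.267 := syR_ang2 h 0.4 0.42 1.206 0.979 0.5591 0.8302 0.267 0.76568 1.30604 hk1 hk2 (by linarith) (by norm_num) (by norm_num) (by norm_num)
    (cos_le_num (by norm_num)) (sin_le_num (by norm_num) (by norm_num)) (expm_le (by norm_num) (by norm_num) (by norm_num))
    (expn_ge (by norm_num) (by norm_num)) (by norm_num) (by norm_num) (by norm_num) (by norm_num) (by norm_num)
  exact ⟨hy1, hy2⟩

private theorem yB2 {κ t : ℝ} (h : DomR κ t) (hk1 : 0.4 ≤ κ) (hk2 : κ ≤ 0.42) (ht1 : -0.9064 ≤ t + κ) (ht2 : t + κ ≤ -0.88839) :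
    (-0.546) ≤ sy κ t ∧ sy κ t ≤ (-0.476) := by
  have hy1 : -0.546 ≤ sy κ t := syL_ang2 h 0.4 0.42 0.9064 0.852 0.6584 0.7527 0.546 1.72633 0.57926 hk1 hk2 (by linarith) (by norm_num) (by norm_num) (by norm_num) (by norm_num)
    (cos_ge_num (by norm_num) (by norm_num)) (sin_le_num (by norm_num) (by norm_num))
    (expn_ge (by norm_num) (by norm_num)) (expm_ge (by norm_num) (by norm_num) (by norm_num) (by norm_num)) (by norm_num) (by norm_num) (by norm_num)
    (by norm_num) (by norm_num) (by norm_num)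
  have hy2 : sy κ t ≤ -0.476 := syL_le h 0.4 0.42 0.88839 0.476 0.62126 0.62127 0.70409 0.73932 hk1 hk2 (by linarith) (by norm_num) (by norm_num) (by norm_num)
    (expm_ge (by norm_num) (by norm_num) (by norm_num) (by norm_num)) (expm_le (by norm_num) (by norm_num) (by norm_num)) (by norm_num)
    (by norm_num) (by norm_num) (by norm_num) (by norm_num) (by norm_num) (by norm_num)
  exact ⟨hy1, hy2⟩

theorem pc2 {β r h t κ : ℝ} (hh : h = 2 * Real.pi / (3 : ℕ)) (hβ : 0 < β) (hr : 10 ≤ r) (hκ : κ = β * r)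
    (hk1 : 0.4 ≤ κ) (hk2 : κ ≤ 0.42) (hT1 : 1.188 ≤ t + κ) (hT2 : t + κ ≤ 1.206) :
    Xf β r h t 0 ≠ 0 ∧ r * 0.1076 ≤ (Ld β r h t 1 - Ld β r h t 0).im ∧
      ‖(((-1 : ℤ) : ℂ) - 1) * Ld β r h t 0 - ((-1 : ℤ) : ℂ) * Ld β r h t 1‖ ≤ r * 7.76 := by
  obtain ⟨q1, q2, q3⟩ := b3_h hh
  have hR0 := b3_R0 hβ hr hκ
  have hR := b3_R hβ hr hκ (by linarith)
  have hD1 : DomR κ t := b3_dom (by linarith) (by linarith) (Or.inl (by linarith))
  have hD0 : DomR κ (t - h) := b3_dom (by linarith) (by linarith) (Or.inl (by linarith))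
  have y1 := yA2 hD1 hk1 hk2 (by linarith) (by linarith)
  have y0 := yB2 hD0 hk1 hk2 (by linarith) (by linarith)
  have j1 := T3_05_d1_1 hD1 hβ hk1 hk2 (by linarith) (by linarith) hR0 hR
  exact b3_piece 0.4 0.42 0.249 0.267 0.258 0.77259 0.77958 0.76568 0.3275 1.5952 1.6375 0.08 0.085 0.085 1.1613 0.3012 0 0 (-0.546) (-0.476) (-0.511) 1.66695 1.72634 0.7251 0.3837 0.04 0.255 0.165 7.6348 8.9372 0.8657 1.636 0.1076 7.76
    hβ hr hκ (by norm_num) hk1 hk2 hD1 hD0 j1 (j1 _ (by rw [sub_self, norm_zero]; norm_num))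
    (T3_05_d0_1 hD0 hβ hk1 hk2 (by linarith) (by linarith) hR0 hR)
    (T3_05_p0 hD0 hβ hk1 hk2 (by linarith) (by linarith) hR0 hR)
    y1.1 y1.2 y0.1 y0.2 (by norm_num)
    (ex_um 0.249 (by norm_num) (by norm_num) (by norm_num) (by norm_num)) (ex_um 0.267 (by norm_num) (by norm_num) (by norm_num) (by norm_num)) (ex_lm 0.258 (by norm_num) (by norm_num) (by norm_num) (by norm_num) (by norm_num)) (by norm_num) (by norm_num) (by norm_num) (by norm_num) (by norm_num) (by norm_num) (by norm_num) (by norm_num)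
    (by norm_num) (by norm_num) (by norm_num) (by norm_num) (by norm_num) (by norm_num) (by norm_num) (by norm_num) (by norm_num) (by norm_num)
    (ex_up 0.546 (by norm_num) (by norm_num) (by norm_num) (by norm_num)) (ex_lp 0.511 (by norm_num) (by norm_num) (by norm_num)) (by norm_num) (by norm_num) (by norm_num) (by norm_num) (by norm_num) (by norm_num)
    (by norm_num) (by norm_num) (by norm_num) (by norm_num) (by norm_num) (by norm_num) (by norm_num) (by norm_num) (by norm_num) (by norm_num) (by norm_num)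
    (by norm_num) (by norm_num) (by norm_num) (by norm_num)

private theorem yA3 {κ t : ℝ} (h : DomR κ t) (hk1 : 0.4 ≤ κ) (hk2 : κ ≤ 0.42) (ht1 : 1.206 ≤ t + κ) (ht2 : t + κ ≤ 1.223) :
    0.249 ≤ sy κ t ∧ sy κ t ≤ 0.269 := by
  have hy1 : 0.249 ≤ sy κ t := syR_ge h 0.4 0.42 1.206 0.249 1.28274 1.28275 0.76048 0.79852 hk1 hk2 (by linarith) (by norm_num) (by norm_num)
    (expn_ge (by norm_num) (by norm_num)) (expn_le (by norm_num) (by norm_num) (by norm_num)) (by norm_num)
    (by norm_num) (by norm_num) (by norm_num) (by norm_num) (by norm_num) (by norm_num)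
  have hy2 : sy κ t ≤ 0.269 := syR_ang2 h 0.4 0.42 1.223 0.993 0.5475 0.8379 0.269 0.76415 1.30865 hk1 hk2 (by linarith) (by norm_num) (by norm_num) (by norm_num)
    (cos_le_num (by norm_num)) (sin_le_num (by norm_num) (by norm_num)) (expm_le (by norm_num) (by norm_num) (by norm_num))
    (expn_ge (by norm_num) (by norm_num)) (by norm_num) (by norm_num) (by norm_num) (by norm_num) (by norm_num)
  exact ⟨hy1, hy2⟩

private theorem yB3 {κ t : ℝ} (h : DomR κ t) (hk1 : 0.4 ≤ κ) (hk2 : κ ≤ 0.42) (ht1 : -0.8884 ≤ t + κ) (ht2 : t + κ ≤ -0.87139) :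
    (-0.527) ≤ sy κ t ∧ sy κ t ≤ (-0.462) := by
  have hy1 : -0.527 ≤ sy κ t := syL_ang2 h 0.4 0.42 0.8884 0.834 0.6719 0.7407 0.527 1.69384 0.59037 hk1 hk2 (by linarith) (by norm_num) (by norm_num) (by norm_num) (by norm_num)
    (cos_ge_num (by norm_num) (by norm_num)) (sin_le_num (by norm_num) (by norm_num))
    (expn_ge (by norm_num) (by norm_num)) (expm_ge (by norm_num) (by norm_num) (by norm_num) (by norm_num)) (by norm_num) (by norm_num) (by norm_num)
    (by norm_num) (by norm_num) (by norm_num)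
  have hy2 : sy κ t ≤ -0.462 := syL_le h 0.4 0.42 0.87139 0.462 0.63002 0.63003 0.69302 0.72769 hk1 hk2 (by linarith) (by norm_num) (by norm_num) (by norm_num)
    (expm_ge (by norm_num) (by norm_num) (by norm_num) (by norm_num)) (expm_le (by norm_num) (by norm_num) (by norm_num)) (by norm_num)
    (by norm_num) (by norm_num) (by norm_num) (by norm_num) (by norm_num) (by norm_num)
  exact ⟨hy1, hy2⟩

theorem pc3 {β r h t κ : ℝ} (hh : h = 2 * Real.pi / (3 : ℕ)) (hβ : 0 < β) (hr : 10 ≤ r) (hκ : κ = β * r)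
    (hk1 : 0.4 ≤ κ) (hk2 : κ ≤ 0.42) (hT1 : 1.206 ≤ t + κ) (hT2 : t + κ ≤ 1.223) :
    Xf β r h t 0 ≠ 0 ∧ r * 0.1076 ≤ (Ld β r h t 1 - Ld β r h t 0).im ∧
      ‖(((-1 : ℤ) : ℂ) - 1) * Ld β r h t 0 - ((-1 : ℤ) : ℂ) * Ld β r h t 1‖ ≤ r * 7.76 := by
  obtain ⟨q1, q2, q3⟩ := b3_h hh
  have hR0 := b3_R0 hβ hr hκ
  have hR := b3_R hβ hr hκ (by linarith)
  have hD1 : DomR κ t := b3_dom (by linarith) (by linarith) (Or.inl (by linarith))
  have hD0 : DomR κ (t - h) := b3_dom (by linarith) (by linarith) (Or.inl (by linarith))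
  have y1 := yA3 hD1 hk1 hk2 (by linarith) (by linarith)
  have y0 := yB3 hD0 hk1 hk2 (by linarith) (by linarith)
  have j1 := T3_05_d1_1 hD1 hβ hk1 hk2 (by linarith) (by linarith) hR0 hR
  exact b3_piece 0.4 0.42 0.249 0.269 0.259 0.77182 0.77958 0.76415 0.3275 1.5952 1.6411 0.08 0.085 0.085 1.1613 0.3012 0 0 (-0.527) (-0.462) (-0.494) 1.63885 1.69385 0.7115 0.404 0.04 0.255 0.165 7.6348 8.5464 0.8317 1.4648 0.1076 7.76
    hβ hr hκ (by norm_num) hk1 hk2 hD1 hD0 j1 (j1 _ (by rw [sub_self, norm_zero]; norm_num))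
    (T3_05_d0_1 hD0 hβ hk1 hk2 (by linarith) (by linarith) hR0 hR)
    (T3_05_p0 hD0 hβ hk1 hk2 (by linarith) (by linarith) hR0 hR)
    y1.1 y1.2 y0.1 y0.2 (by norm_num)
    (ex_um 0.249 (by norm_num) (by norm_num) (by norm_num) (by norm_num)) (ex_um 0.269 (by norm_num) (by norm_num) (by norm_num) (by norm_num)) (ex_lm 0.259 (by norm_num) (by norm_num) (by norm_num) (by norm_num) (by norm_num)) (by norm_num) (by norm_num) (by norm_num) (by norm_num) (by norm_num) (by norm_num) (by norm_num) (by norm_num)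
    (by norm_num) (by norm_num) (by norm_num) (by norm_num) (by norm_num) (by norm_num) (by norm_num) (by norm_num) (by norm_num) (by norm_num)
    (ex_up 0.527 (by norm_num) (by norm_num) (by norm_num) (by norm_num)) (ex_lp 0.494 (by norm_num) (by norm_num) (by norm_num)) (by norm_num) (by norm_num) (by norm_num) (by norm_num) (by norm_num) (by norm_num)
    (by norm_num) (by norm_num) (by norm_num) (by norm_num) (by norm_num) (by norm_num) (by norm_num) (by norm_num) (by norm_num) (by norm_num) (by norm_num)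
    (by norm_num) (by norm_num) (by norm_num) (by norm_num)

private theorem yA4 {κ t : ℝ} (h : DomR κ t) (hk1 : 0.4 ≤ κ) (hk2 : κ ≤ 0.42) (ht1 : 1.223 ≤ t + κ) (ht2 : t + κ ≤ 1.24) :
    0.249 ≤ sy κ t ∧ sy κ t ≤ 0.271 := by
  have hy1 : 0.249 ≤ sy κ t := syR_ge h 0.4 0.42 1.223 0.249 1.28274 1.28275 0.76048 0.79852 hk1 hk2 (by linarith) (by norm_num) (by norm_num)
    (expn_ge (by norm_num) (by norm_num)) (expn_le (by norm_num) (by norm_num) (by norm_num)) (by norm_num)
    (by norm_num) (by norm_num) (by norm_num) (by norm_num) (by norm_num) (by norm_num)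
  have hy2 : sy κ t ≤ 0.271 := syR_ang2 h 0.4 0.42 1.24 1.008 0.535 0.846 0.271 0.76262 1.31127 hk1 hk2 (by linarith) (by norm_num) (by norm_num) (by norm_num)
    (cos_le_num (by norm_num)) (sin_le_num (by norm_num) (by norm_num)) (expm_le (by norm_num) (by norm_num) (by norm_num))
    (expn_ge (by norm_num) (by norm_num)) (by norm_num) (by norm_num) (by norm_num) (by norm_num) (by norm_num)
  exact ⟨hy1, hy2⟩

private theorem yB4 {κ t : ℝ} (h : DomR κ t) (hk1 : 0.4 ≤ κ) (hk2 : κ ≤ 0.42) (ht1 : -0.8714 ≤ t + κ) (ht2 : t + κ ≤ -0.85439) :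
    (-0.51) ≤ sy κ t ∧ sy κ t ≤ (-0.448) := by
  have hy1 : -0.51 ≤ sy κ t := syL_ang2 h 0.4 0.42 0.8714 0.816 0.6851 0.7285 0.51 1.66528 0.60049 hk1 hk2 (by linarith) (by norm_num) (by norm_num) (by norm_num) (by norm_num)
    (cos_ge_num (by norm_num) (by norm_num)) (sin_le_num (by norm_num) (by norm_num))
    (expn_ge (by norm_num) (by norm_num)) (expm_ge (by norm_num) (by norm_num) (by norm_num) (by norm_num)) (by norm_num) (by norm_num) (by norm_num)
    (by norm_num) (by norm_num) (by norm_num)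
  have hy2 : sy κ t ≤ -0.448 := syL_le h 0.4 0.42 0.85439 0.448 0.6389 0.63891 0.68149 0.71558 hk1 hk2 (by linarith) (by norm_num) (by norm_num) (by norm_num)
    (expm_ge (by norm_num) (by norm_num) (by norm_num) (by norm_num)) (expm_le (by norm_num) (by norm_num) (by norm_num)) (by norm_num)
    (by norm_num) (by norm_num) (by norm_num) (by norm_num) (by norm_num) (by norm_num)
  exact ⟨hy1, hy2⟩

theorem pc4 {β r h t κ : ℝ} (hh : h = 2 * Real.pi / (3 : ℕ)) (hβ : 0 < β) (hr : 10 ≤ r) (hκ : κ = β * r)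
    (hk1 : 0.4 ≤ κ) (hk2 : κ ≤ 0.42) (hT1 : 1.223 ≤ t + κ) (hT2 : t + κ ≤ 1.24) :
    Xf β r h t 0 ≠ 0 ∧ r * 0.1076 ≤ (Ld β r h t 1 - Ld β r h t 0).im ∧
      ‖(((-1 : ℤ) : ℂ) - 1) * Ld β r h t 0 - ((-1 : ℤ) : ℂ) * Ld β r h t 1‖ ≤ r * 7.76 := by
  obtain ⟨q1, q2, q3⟩ := b3_h hh
  have hR0 := b3_R0 hβ hr hκ
  have hR := b3_R hβ hr hκ (by linarith)
  have hD1 : DomR κ t := b3_dom (by linarith) (by linarith) (Or.inl (by linarith))
  have hD0 : DomR κ (t - h) := b3_dom (by linarith) (by linarith) (Or.inl (by linarith))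
  have y1 := yA4 hD1 hk1 hk2 (by linarith) (by linarith)
  have y0 := yB4 hD0 hk1 hk2 (by linarith) (by linarith)
  have j1 := T3_05_d1_1 hD1 hβ hk1 hk2 (by linarith) (by linarith) hR0 hR
  exact b3_piece 0.4 0.42 0.249 0.271 0.26 0.77105 0.77958 0.76262 0.3275 1.5952 1.6446 0.08 0.085 0.085 1.1613 0.3012 0 0 (-0.51) (-0.448) (-0.479) 1.61445 1.6653 0.6995 0.4228 0.04 0.255 0.165 7.6348 8.2134 0.8056 1.3329 0.1076 7.76
    hβ hr hκ (by norm_num) hk1 hk2 hD1 hD0 j1 (j1 _ (by rw [sub_self, norm_zero]; norm_num))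
    (T3_05_d0_1 hD0 hβ hk1 hk2 (by linarith) (by linarith) hR0 hR)
    (T3_05_p0 hD0 hβ hk1 hk2 (by linarith) (by linarith) hR0 hR)
    y1.1 y1.2 y0.1 y0.2 (by norm_num)
    (ex_um 0.249 (by norm_num) (by norm_num) (by norm_num) (by norm_num)) (ex_um 0.271 (by norm_num) (by norm_num) (by norm_num) (by norm_num)) (ex_lm 0.26 (by norm_num) (by norm_num) (by norm_num) (by norm_num) (by norm_num)) (by norm_num) (by norm_num) (by norm_num) (by norm_num) (by norm_num) (by norm_num) (by norm_num) (by norm_num)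
    (by norm_num) (by norm_num) (by norm_num) (by norm_num) (by norm_num) (by norm_num) (by norm_num) (by norm_num) (by norm_num) (by norm_num)
    (ex_up 0.51 (by norm_num) (by norm_num) (by norm_num) (by norm_num)) (ex_lp 0.479 (by norm_num) (by norm_num) (by norm_num)) (by norm_num) (by norm_num) (by norm_num) (by norm_num) (by norm_num) (by norm_num)
    (by norm_num) (by norm_num) (by norm_num) (by norm_num) (by norm_num) (by norm_num) (by norm_num) (by norm_num) (by norm_num) (by norm_num) (by norm_num)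
    (by norm_num) (by norm_num) (by norm_num) (by norm_num)

private theorem yA5 {κ t : ℝ} (h : DomR κ t) (hk1 : 0.4 ≤ κ) (hk2 : κ ≤ 0.42) (ht1 : 1.24 ≤ t + κ) (ht2 : t + κ ≤ 1.258) :
    0.249 ≤ sy κ t ∧ sy κ t ≤ 0.273 := by
  have hy1 : 0.249 ≤ sy κ t := syR_ge h 0.4 0.42 1.24 0.249 1.28274 1.28275 0.76048 0.79852 hk1 hk2 (by linarith) (by norm_num) (by norm_num)
    (expn_ge (by norm_num) (by norm_num)) (expn_le (by norm_num) (by norm_num) (by norm_num)) (by norm_num)
    (by norm_num) (by norm_num) (by norm_num) (by norm_num) (by norm_num) (by norm_num)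
  have hy2 : sy κ t ≤ 0.273 := syR_ang2 h 0.4 0.42 1.258 1.023 0.5224 0.854 0.273 0.7611 1.3139 hk1 hk2 (by linarith) (by norm_num) (by norm_num) (by norm_num)
    (cos_le_num (by norm_num)) (sin_le_num (by norm_num) (by norm_num)) (expm_le (by norm_num) (by norm_num) (by norm_num))
    (expn_ge (by norm_num) (by norm_num)) (by norm_num) (by norm_num) (by norm_num) (by norm_num) (by norm_num)
  exact ⟨hy1, hy2⟩

private theorem yB5 {κ t : ℝ} (h : DomR κ t) (hk1 : 0.4 ≤ κ) (hk2 : κ ≤ 0.42) (ht1 : -0.8544 ≤ t + κ) (ht2 : t + κ ≤ -0.83639) :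
    (-0.492) ≤ sy κ t ∧ sy κ t ≤ (-0.434) := by
  have hy1 : -0.492 ≤ sy κ t := syL_ang2 h 0.4 0.42 0.8544 0.798 0.6981 0.7161 0.492 1.63558 0.6114 hk1 hk2 (by linarith) (by norm_num) (by norm_num) (by norm_num) (by norm_num)
    (cos_ge_num (by norm_num) (by norm_num)) (sin_le_num (by norm_num) (by norm_num))
    (expn_ge (by norm_num) (by norm_num)) (expm_ge (by norm_num) (by norm_num) (by norm_num) (by norm_num)) (by norm_num) (by norm_num) (by norm_num)
    (by norm_num) (by norm_num) (by norm_num)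
  have hy2 : sy κ t ≤ -0.434 := syL_le h 0.4 0.42 0.83639 0.434 0.64791 0.64792 0.6695 0.703 hk1 hk2 (by linarith) (by norm_num) (by norm_num) (by norm_num)
    (expm_ge (by norm_num) (by norm_num) (by norm_num) (by norm_num)) (expm_le (by norm_num) (by norm_num) (by norm_num)) (by norm_num)
    (by norm_num) (by norm_num) (by norm_num) (by norm_num) (by norm_num) (by norm_num)
  exact ⟨hy1, hy2⟩

theorem pc5 {β r h t κ : ℝ} (hh : h = 2 * Real.pi / (3 : ℕ)) (hβ : 0 < β) (hr : 10 ≤ r) (hκ : κ = β * r)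
    (hk1 : 0.4 ≤ κ) (hk2 : κ ≤ 0.42) (hT1 : 1.24 ≤ t + κ) (hT2 : t + κ ≤ 1.258) :
    Xf β r h t 0 ≠ 0 ∧ r * 0.1076 ≤ (Ld β r h t 1 - Ld β r h t 0).im ∧
      ‖(((-1 : ℤ) : ℂ) - 1) * Ld β r h t 0 - ((-1 : ℤ) : ℂ) * Ld β r h t 1‖ ≤ r * 7.76 := by
  obtain ⟨q1, q2, q3⟩ := b3_h hh
  have hR0 := b3_R0 hβ hr hκ
  have hR := b3_R hβ hr hκ (by linarith)
  have hD1 : DomR κ t := b3_dom (by linarith) (by linarith) (Or.inl (by linarith))
  have hD0 : DomR κ (t - h) := b3_dom (by linarith) (by linarith) (Or.inl (by linarith))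
  have y1 := yA5 hD1 hk1 hk2 (by linarith) (by linarith)
  have y0 := yB5 hD0 hk1 hk2 (by linarith) (by linarith)
  have j1 := T3_05_d1_1 hD1 hβ hk1 hk2 (by linarith) (by linarith) hR0 hR
  exact b3_piece 0.4 0.42 0.249 0.273 0.261 0.77028 0.77958 0.7611 0.3275 1.5952 1.6482 0.08 0.085 0.085 1.1613 0.3012 0 0 (-0.492) (-0.434) (-0.463) 1.58883 1.63559 0.687 0.4433 0.04 0.255 0.165 7.6348 7.8779 0.7768 1.2039 0.1076 7.76
    hβ hr hκ (by norm_num) hk1 hk2 hD1 hD0 j1 (j1 _ (by rw [sub_self, norm_zero]; norm_num))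
    (T3_05_d0_1 hD0 hβ hk1 hk2 (by linarith) (by linarith) hR0 hR)
    (T3_05_p0 hD0 hβ hk1 hk2 (by linarith) (by linarith) hR0 hR)
    y1.1 y1.2 y0.1 y0.2 (by norm_num)
    (ex_um 0.249 (by norm_num) (by norm_num) (by norm_num) (by norm_num)) (ex_um 0.273 (by norm_num) (by norm_num) (by norm_num) (by norm_num)) (ex_lm 0.261 (by norm_num) (by norm_num) (by norm_num) (by norm_num) (by norm_num)) (by norm_num) (by norm_num) (by norm_num) (by norm_num) (by norm_num) (by norm_num) (by norm_num) (by norm_num)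
    (by norm_num) (by norm_num) (by norm_num) (by norm_num) (by norm_num) (by norm_num) (by norm_num) (by norm_num) (by norm_num) (by norm_num)
    (ex_up 0.492 (by norm_num) (by norm_num) (by norm_num) (by norm_num)) (ex_lp 0.463 (by norm_num) (by norm_num) (by norm_num)) (by norm_num) (by norm_num) (by norm_num) (by norm_num) (by norm_num) (by norm_num)
    (by norm_num) (by norm_num) (by norm_num) (by norm_num) (by norm_num) (by norm_num) (by norm_num) (by norm_num) (by norm_num) (by norm_num) (by norm_num)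
    (by norm_num) (by norm_num) (by norm_num) (by norm_num)

private theorem yA6 {κ t : ℝ} (h : DomR κ t) (hk1 : 0.4 ≤ κ) (hk2 : κ ≤ 0.42) (ht1 : 1.258 ≤ t + κ) (ht2 : t + κ ≤ 1.276) :
    0.249 ≤ sy κ t ∧ sy κ t ≤ 0.275 := by
  have hy1 : 0.249 ≤ sy κ t := syR_ge h 0.4 0.42 1.258 0.249 1.28274 1.28275 0.76048 0.79852 hk1 hk2 (by linarith) (by norm_num) (by norm_num)
    (expn_ge (by norm_num) (by norm_num)) (expn_le (by norm_num) (by norm_num) (by norm_num)) (by norm_num)
    (by norm_num) (by norm_num) (by norm_num) (by norm_num) (by norm_num) (by norm_num)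
  have hy2 : sy κ t ≤ 0.275 := syR_ang2 h 0.4 0.42 1.276 1.038 0.5097 0.8617 0.275 0.75958 1.31653 hk1 hk2 (by linarith) (by norm_num) (by norm_num) (by norm_num)
    (cos_le_num (by norm_num)) (sin_le_num (by norm_num) (by norm_num)) (expm_le (by norm_num) (by norm_num) (by norm_num))
    (expn_ge (by norm_num) (by norm_num)) (by norm_num) (by norm_num) (by norm_num) (by norm_num) (by norm_num)
  exact ⟨hy1, hy2⟩

private theorem yB6 {κ t : ℝ} (h : DomR κ t) (hk1 : 0.4 ≤ κ) (hk2 : κ ≤ 0.42) (ht1 : -0.8364 ≤ t + κ) (ht2 : t + κ ≤ -0.81839) :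
    (-0.475) ≤ sy κ t ∧ sy κ t ≤ (-0.42) := by
  have hy1 : -0.475 ≤ sy κ t := syL_ang2 h 0.4 0.42 0.8364 0.779 0.7116 0.7027 0.475 1.60801 0.62188 hk1 hk2 (by linarith) (by norm_num) (by norm_num) (by norm_num) (by norm_num)
    (cos_ge_num (by norm_num) (by norm_num)) (sin_le_num (by norm_num) (by norm_num))
    (expn_ge (by norm_num) (by norm_num)) (expm_ge (by norm_num) (by norm_num) (by norm_num) (by norm_num)) (by norm_num) (by norm_num) (by norm_num)
    (by norm_num) (by norm_num) (by norm_num)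
  have hy2 : sy κ t ≤ -0.42 := syL_le h 0.4 0.42 0.81839 0.42 0.65704 0.65705 0.65703 0.68991 hk1 hk2 (by linarith) (by norm_num) (by norm_num) (by norm_num)
    (expm_ge (by norm_num) (by norm_num) (by norm_num) (by norm_num)) (expm_le (by norm_num) (by norm_num) (by norm_num)) (by norm_num)
    (by norm_num) (by norm_num) (by norm_num) (by norm_num) (by norm_num) (by norm_num)
  exact ⟨hy1, hy2⟩

theorem pc6 {β r h t κ : ℝ} (hh : h = 2 * Real.pi / (3 : ℕ)) (hβ : 0 < β) (hr : 10 ≤ r) (hκ : κ = β * r)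
    (hk1 : 0.4 ≤ κ) (hk2 : κ ≤ 0.42) (hT1 : 1.258 ≤ t + κ) (hT2 : t + κ ≤ 1.276) :
    Xf β r h t 0 ≠ 0 ∧ r * 0.1076 ≤ (Ld β r h t 1 - Ld β r h t 0).im ∧
      ‖(((-1 : ℤ) : ℂ) - 1) * Ld β r h t 0 - ((-1 : ℤ) : ℂ) * Ld β r h t 1‖ ≤ r * 7.76 := by
  obtain ⟨q1, q2, q3⟩ := b3_h hh
  have hR0 := b3_R0 hβ hr hκ
  have hR := b3_R hβ hr hκ (by linarith)
  have hD1 : DomR κ t := b3_dom (by linarith) (by linarith) (Or.inl (by linarith))
  have hD0 : DomR κ (t - h) := b3_dom (by linarith) (by linarith) (Or.inl (by linarith))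
  have y1 := yA6 hD1 hk1 hk2 (by linarith) (by linarith)
  have y0 := yB6 hD0 hk1 hk2 (by linarith) (by linarith)
  have j1 := T3_05_d1_2 hD1 hβ hk1 hk2 (by linarith) (by linarith) hR0 hR
  exact b3_piece 0.4 0.42 0.249 0.275 0.262 0.76951 0.77958 0.75958 0.3275 1.5952 1.6518 0.08 0.085 0.085 1.1613 0.3012 0 0 (-0.475) (-0.42) (-0.448) 1.56517 1.60802 0.6754 0.4631 0.05 0.16 0.165 3.8324 3.8036 0.7525 1.0975 0.1076 7.76
    hβ hr hκ (by norm_num) hk1 hk2 hD1 hD0 j1 (j1 _ (by rw [sub_self, norm_zero]; norm_num))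
    (T3_05_d0_2 hD0 hβ hk1 hk2 (by linarith) (by linarith) hR0 hR)
    (T3_05_p0 hD0 hβ hk1 hk2 (by linarith) (by linarith) hR0 hR)
    y1.1 y1.2 y0.1 y0.2 (by norm_num)
    (ex_um 0.249 (by norm_num) (by norm_num) (by norm_num) (by norm_num)) (ex_um 0.275 (by norm_num) (by norm_num) (by norm_num) (by norm_num)) (ex_lm 0.262 (by norm_num) (by norm_num) (by norm_num) (by norm_num) (by norm_num)) (by norm_num) (by norm_num) (by norm_num) (by norm_num) (by norm_num) (by norm_num) (by norm_num) (by norm_num)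
    (by norm_num) (by norm_num) (by norm_num) (by norm_num) (by norm_num) (by norm_num) (by norm_num) (by norm_num) (by norm_num) (by norm_num)
    (ex_up 0.475 (by norm_num) (by norm_num) (by norm_num) (by norm_num)) (ex_lp 0.448 (by norm_num) (by norm_num) (by norm_num)) (by norm_num) (by norm_num) (by norm_num) (by norm_num) (by norm_num) (by norm_num)
    (by norm_num) (by norm_num) (by norm_num) (by norm_num) (by norm_num) (by norm_num) (by norm_num) (by norm_num) (by norm_num) (by norm_num) (by norm_num)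
    (by norm_num) (by norm_num) (by norm_num) (by norm_num)

private theorem yA7 {κ t : ℝ} (h : DomR κ t) (hk1 : 0.4 ≤ κ) (hk2 : κ ≤ 0.42) (ht1 : 1.276 ≤ t + κ) (ht2 : t + κ ≤ 1.293) :
    0.249 ≤ sy κ t ∧ sy κ t ≤ 0.276 := by
  have hy1 : 0.249 ≤ sy κ t := syR_ge h 0.4 0.42 1.276 0.249 1.28274 1.28275 0.76048 0.79852 hk1 hk2 (by linarith) (by norm_num) (by norm_num)
    (expn_ge (by norm_num) (by norm_num)) (expn_le (by norm_num) (by norm_num) (by norm_num)) (by norm_num)
    (by norm_num) (by norm_num) (by norm_num) (by norm_num) (by norm_num) (by norm_num)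
  have hy2 : sy κ t ≤ 0.276 := syR_ang2 h 0.4 0.42 1.293 1.046 0.5029 0.8657 0.276 0.75882 1.31784 hk1 hk2 (by linarith) (by norm_num) (by norm_num) (by norm_num)
    (cos_le_num (by norm_num)) (sin_le_num (by norm_num) (by norm_num)) (expm_le (by norm_num) (by norm_num) (by norm_num))
    (expn_ge (by norm_num) (by norm_num)) (by norm_num) (by norm_num) (by norm_num) (by norm_num) (by norm_num)
  exact ⟨hy1, hy2⟩

private theorem yB7 {κ t : ℝ} (h : DomR κ t) (hk1 : 0.4 ≤ κ) (hk2 : κ ≤ 0.42) (ht1 : -0.8184 ≤ t + κ) (ht2 : t + κ ≤ -0.80139) :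
    (-0.458) ≤ sy κ t ∧ sy κ t ≤ (-0.407) := by
  have hy1 : -0.458 ≤ sy κ t := syL_ang2 h 0.4 0.42 0.8184 0.761 0.7241 0.6897 0.458 1.5809 0.63254 hk1 hk2 (by linarith) (by norm_num) (by norm_num) (by norm_num) (by norm_num)
    (cos_ge_num (by norm_num) (by norm_num)) (sin_le_num (by norm_num) (by norm_num))
    (expn_ge (by norm_num) (by norm_num)) (expm_ge (by norm_num) (by norm_num) (by norm_num) (by norm_num)) (by norm_num) (by norm_num) (by norm_num)
    (by norm_num) (by norm_num) (by norm_num)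
  have hy2 : sy κ t ≤ -0.407 := syL_le h 0.4 0.42 0.80139 0.407 0.66564 0.66565 0.64503 0.6773 hk1 hk2 (by linarith) (by norm_num) (by norm_num) (by norm_num)
    (expm_ge (by norm_num) (by norm_num) (by norm_num) (by norm_num)) (expm_le (by norm_num) (by norm_num) (by norm_num)) (by norm_num)
    (by norm_num) (by norm_num) (by norm_num) (by norm_num) (by norm_num) (by norm_num)
  exact ⟨hy1, hy2⟩

theorem pc7 {β r h t κ : ℝ} (hh : h = 2 * Real.pi / (3 : ℕ)) (hβ : 0 < β) (hr : 10 ≤ r) (hκ : κ = β * r)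
    (hk1 : 0.4 ≤ κ) (hk2 : κ ≤ 0.42) (hT1 : 1.276 ≤ t + κ) (hT2 : t + κ ≤ 1.293) :
    Xf β r h t 0 ≠ 0 ∧ r * 0.1076 ≤ (Ld β r h t 1 - Ld β r h t 0).im ∧
      ‖(((-1 : ℤ) : ℂ) - 1) * Ld β r h t 0 - ((-1 : ℤ) : ℂ) * Ld β r h t 1‖ ≤ r * 7.76 := by
  obtain ⟨q1, q2, q3⟩ := b3_h hh
  have hR0 := b3_R0 hβ hr hκ
  have hR := b3_R hβ hr hκ (by linarith)
  have hD1 : DomR κ t := b3_dom (by linarith) (by linarith) (Or.inl (by linarith))
  have hD0 : DomR κ (t - h) := b3_dom (by linarith) (by linarith) (Or.inl (by linarith))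
  have y1 := yA7 hD1 hk1 hk2 (by linarith) (by linarith)
  have y0 := yB7 hD0 hk1 hk2 (by linarith) (by linarith)
  have j1 := T3_05_d1_2 hD1 hβ hk1 hk2 (by linarith) (by linarith) hR0 hR
  exact b3_piece 0.4 0.42 0.249 0.276 0.263 0.76874 0.77958 0.75882 0.3275 1.5952 1.6536 0.08 0.085 0.085 1.1613 0.3012 0 0 (-0.458) (-0.407) (-0.432) 1.54033 1.58091 0.664 0.4833 0.05 0.16 0.165 3.8324 3.6605 0.727 0.9989 0.1076 7.76
    hβ hr hκ (by norm_num) hk1 hk2 hD1 hD0 j1 (j1 _ (by rw [sub_self, norm_zero]; norm_num))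
    (T3_05_d0_2 hD0 hβ hk1 hk2 (by linarith) (by linarith) hR0 hR)
    (T3_05_p0 hD0 hβ hk1 hk2 (by linarith) (by linarith) hR0 hR)
    y1.1 y1.2 y0.1 y0.2 (by norm_num)
    (ex_um 0.249 (by norm_num) (by norm_num) (by norm_num) (by norm_num)) (ex_um 0.276 (by norm_num) (by norm_num) (by norm_num) (by norm_num)) (ex_lm 0.263 (by norm_num) (by norm_num) (by norm_num) (by norm_num) (by norm_num)) (by norm_num) (by norm_num) (by norm_num) (by norm_num) (by norm_num) (by norm_num) (by norm_num) (by norm_num)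
    (by norm_num) (by norm_num) (by norm_num) (by norm_num) (by norm_num) (by norm_num) (by norm_num) (by norm_num) (by norm_num) (by norm_num)
    (ex_up 0.458 (by norm_num) (by norm_num) (by norm_num) (by norm_num)) (ex_lp 0.432 (by norm_num) (by norm_num) (by norm_num)) (by norm_num) (by norm_num) (by norm_num) (by norm_num) (by norm_num) (by norm_num)
    (by norm_num) (by norm_num) (by norm_num) (by norm_num) (by norm_num) (by norm_num) (by norm_num) (by norm_num) (by norm_num) (by norm_num) (by norm_num)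
    (by norm_num) (by norm_num) (by norm_num) (by norm_num)

private theorem yA8 {κ t : ℝ} (h : DomR κ t) (hk1 : 0.4 ≤ κ) (hk2 : κ ≤ 0.42) (ht1 : 1.293 ≤ t + κ) (ht2 : t + κ ≤ 1.311) :
    0.249 ≤ sy κ t ∧ sy κ t ≤ 0.278 := by
  have hy1 : 0.249 ≤ sy κ t := syR_ge h 0.4 0.42 1.293 0.249 1.28274 1.28275 0.76048 0.79852 hk1 hk2 (by linarith) (by norm_num) (by norm_num)
    (expn_ge (by norm_num) (by norm_num)) (expn_le (by norm_num) (by norm_num) (by norm_num)) (by norm_num)
    (by norm_num) (by norm_num) (by norm_num) (by norm_num) (by norm_num) (by norm_num)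
  have hy2 : sy κ t ≤ 0.278 := syR_ang2 h 0.4 0.42 1.311 1.062 0.4891 0.8737 0.278 0.7573 1.32048 hk1 hk2 (by linarith) (by norm_num) (by norm_num) (by norm_num)
    (cos_le_num (by norm_num)) (sin_le_num (by norm_num) (by norm_num)) (expm_le (by norm_num) (by norm_num) (by norm_num))
    (expn_ge (by norm_num) (by norm_num)) (by norm_num) (by norm_num) (by norm_num) (by norm_num) (by norm_num)
  exact ⟨hy1, hy2⟩

private theorem yB8 {κ t : ℝ} (h : DomR κ t) (hk1 : 0.4 ≤ κ) (hk2 : κ ≤ 0.42) (ht1 : -0.8014 ≤ t + κ) (ht2 : t + κ ≤ -0.78339) :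
    (-0.443) ≤ sy κ t ∧ sy κ t ≤ (-0.394) := by
  have hy1 : -0.443 ≤ sy κ t := syL_ang2 h 0.4 0.42 0.8014 0.743 0.7364 0.6766 0.443 1.55737 0.6421 hk1 hk2 (by linarith) (by norm_num) (by norm_num) (by norm_num) (by norm_num)
    (cos_ge_num (by norm_num) (by norm_num)) (sin_le_num (by norm_num) (by norm_num))
    (expn_ge (by norm_num) (by norm_num)) (expm_ge (by norm_num) (by norm_num) (by norm_num) (by norm_num)) (by norm_num) (by norm_num) (by norm_num)
    (by norm_num) (by norm_num) (by norm_num)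
  have hy2 : sy κ t ≤ -0.394 := syL_le h 0.4 0.42 0.78339 0.394 0.67435 0.67436 0.6326 0.66425 hk1 hk2 (by linarith) (by norm_num) (by norm_num) (by norm_num)
    (expm_ge (by norm_num) (by norm_num) (by norm_num) (by norm_num)) (expm_le (by norm_num) (by norm_num) (by norm_num)) (by norm_num)
    (by norm_num) (by norm_num) (by norm_num) (by norm_num) (by norm_num) (by norm_num)
  exact ⟨hy1, hy2⟩

theorem pc8 {β r h t κ : ℝ} (hh : h = 2 * Real.pi / (3 : ℕ)) (hβ : 0 < β) (hr : 10 ≤ r) (hκ : κ = β * r)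
    (hk1 : 0.4 ≤ κ) (hk2 : κ ≤ 0.42) (hT1 : 1.293 ≤ t + κ) (hT2 : t + κ ≤ 1.311) :
    Xf β r h t 0 ≠ 0 ∧ r * 0.1076 ≤ (Ld β r h t 1 - Ld β r h t 0).im ∧
      ‖(((-1 : ℤ) : ℂ) - 1) * Ld β r h t 0 - ((-1 : ℤ) : ℂ) * Ld β r h t 1‖ ≤ r * 7.76 := by
  obtain ⟨q1, q2, q3⟩ := b3_h hh
  have hR0 := b3_R0 hβ hr hκ
  have hR := b3_R hβ hr hκ (by linarith)
  have hD1 : DomR κ t := b3_dom (by linarith) (by linarith) (Or.inl (by linarith))
  have hD0 : DomR κ (t - h) := b3_dom (by linarith) (by linarith) (Or.inl (by linarith))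
  have y1 := yA8 hD1 hk1 hk2 (by linarith) (by linarith)
  have y0 := yB8 hD0 hk1 hk2 (by linarith) (by linarith)
  have j1 := T3_05_d1_2 hD1 hβ hk1 hk2 (by linarith) (by linarith) hR0 hR
  exact b3_piece 0.4 0.42 0.249 0.278 0.264 0.76797 0.77958 0.7573 0.3275 1.5951 1.6572 0.08 0.085 0.085 1.1613 0.3012 0 0 (-0.443) (-0.394) (-0.418) 1.51892 1.55738 0.6541 0.5015 0.05 0.16 0.165 3.8324 3.5399 0.7084 0.924 0.1076 7.76
    hβ hr hκ (by norm_num) hk1 hk2 hD1 hD0 j1 (j1 _ (by rw [sub_self, norm_zero]; norm_num))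
    (T3_05_d0_2 hD0 hβ hk1 hk2 (by linarith) (by linarith) hR0 hR)
    (T3_05_p0 hD0 hβ hk1 hk2 (by linarith) (by linarith) hR0 hR)
    y1.1 y1.2 y0.1 y0.2 (by norm_num)
    (ex_um 0.249 (by norm_num) (by norm_num) (by norm_num) (by norm_num)) (ex_um 0.278 (by norm_num) (by norm_num) (by norm_num) (by norm_num)) (ex_lm 0.264 (by norm_num) (by norm_num) (by norm_num) (by norm_num) (by norm_num)) (by norm_num) (by norm_num) (by norm_num) (by norm_num) (by norm_num) (by norm_num) (by norm_num) (by norm_num)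
    (by norm_num) (by norm_num) (by norm_num) (by norm_num) (by norm_num) (by norm_num) (by norm_num) (by norm_num) (by norm_num) (by norm_num)
    (ex_up 0.443 (by norm_num) (by norm_num) (by norm_num) (by norm_num)) (ex_lp 0.418 (by norm_num) (by norm_num) (by norm_num)) (by norm_num) (by norm_num) (by norm_num) (by norm_num) (by norm_num) (by norm_num)
    (by norm_num) (by norm_num) (by norm_num) (by norm_num) (by norm_num) (by norm_num) (by norm_num) (by norm_num) (by norm_num) (by norm_num) (by norm_num)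
    (by norm_num) (by norm_num) (by norm_num) (by norm_num)

private theorem yA9 {κ t : ℝ} (h : DomR κ t) (hk1 : 0.4 ≤ κ) (hk2 : κ ≤ 0.42) (ht1 : 1.311 ≤ t + κ) (ht2 : t + κ ≤ 1.329) :
    0.249 ≤ sy κ t ∧ sy κ t ≤ 0.28 := by
  have hy1 : 0.249 ≤ sy κ t := syR_ge h 0.4 0.42 1.311 0.249 1.28274 1.28275 0.76048 0.79852 hk1 hk2 (by linarith) (by norm_num) (by norm_num)
    (expn_ge (by norm_num) (by norm_num)) (expn_le (by norm_num) (by norm_num) (by norm_num)) (by norm_num)
    (by norm_num) (by norm_num) (by norm_num) (by norm_num) (by norm_num) (by norm_num)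
  have hy2 : sy κ t ≤ 0.28 := syR_ang2 h 0.4 0.42 1.329 1.079 0.4744 0.8819 0.28 0.75579 1.32312 hk1 hk2 (by linarith) (by norm_num) (by norm_num) (by norm_num)
    (cos_le_num (by norm_num)) (sin_le_num (by norm_num) (by norm_num)) (expm_le (by norm_num) (by norm_num) (by norm_num))
    (expn_ge (by norm_num) (by norm_num)) (by norm_num) (by norm_num) (by norm_num) (by norm_num) (by norm_num)
  exact ⟨hy1, hy2⟩

private theorem yB9 {κ t : ℝ} (h : DomR κ t) (hk1 : 0.4 ≤ κ) (hk2 : κ ≤ 0.42) (ht1 : -0.7834 ≤ t + κ) (ht2 : t + κ ≤ -0.76539) :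
    (-0.427) ≤ sy κ t ∧ sy κ t ≤ (-0.381) := by
  have hy1 : -0.427 ≤ sy κ t := syL_ang2 h 0.4 0.42 0.7834 0.725 0.7484 0.6632 0.427 1.53265 0.65246 hk1 hk2 (by linarith) (by norm_num) (by norm_num) (by norm_num) (by norm_num)
    (cos_ge_num (by norm_num) (by norm_num)) (sin_le_num (by norm_num) (by norm_num))
    (expn_ge (by norm_num) (by norm_num)) (expm_ge (by norm_num) (by norm_num) (by norm_num) (by norm_num)) (by norm_num) (by norm_num) (by norm_num)
    (by norm_num) (by norm_num) (by norm_num)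
  have hy2 : sy κ t ≤ -0.381 := syL_le h 0.4 0.42 0.76539 0.381 0.68317 0.68318 0.61973 0.65073 hk1 hk2 (by linarith) (by norm_num) (by norm_num) (by norm_num)
    (expm_ge (by norm_num) (by norm_num) (by norm_num) (by norm_num)) (expm_le (by norm_num) (by norm_num) (by norm_num)) (by norm_num)
    (by norm_num) (by norm_num) (by norm_num) (by norm_num) (by norm_num) (by norm_num)
  exact ⟨hy1, hy2⟩

theorem pc9 {β r h t κ : ℝ} (hh : h = 2 * Real.pi / (3 : ℕ)) (hβ : 0 < β) (hr : 10 ≤ r) (hκ : κ = β * r)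
    (hk1 : 0.4 ≤ κ) (hk2 : κ ≤ 0.42) (hT1 : 1.311 ≤ t + κ) (hT2 : t + κ ≤ 1.329) :
    Xf β r h t 0 ≠ 0 ∧ r * 0.1076 ≤ (Ld β r h t 1 - Ld β r h t 0).im ∧
      ‖(((-1 : ℤ) : ℂ) - 1) * Ld β r h t 0 - ((-1 : ℤ) : ℂ) * Ld β r h t 1‖ ≤ r * 7.76 := by
  obtain ⟨q1, q2, q3⟩ := b3_h hh
  have hR0 := b3_R0 hβ hr hκ
  have hR := b3_R hβ hr hκ (by linarith)
  have hD1 : DomR κ t := b3_dom (by linarith) (by linarith) (Or.inl (by linarith))
  have hD0 : DomR κ (t - h) := b3_dom (by linarith) (by linarith) (Or.inl (by linarith))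
  have y1 := yA9 hD1 hk1 hk2 (by linarith) (by linarith)
  have y0 := yB9 hD0 hk1 hk2 (by linarith) (by linarith)
  have j1 := T3_05_d1_2 hD1 hβ hk1 hk2 (by linarith) (by linarith) hR0 hR
  exact b3_piece 0.4 0.42 0.249 0.28 0.265 0.7672 0.77958 0.75579 0.3275 1.5951 1.6608 0.08 0.085 0.085 1.1613 0.3012 0 0 (-0.427) (-0.381) (-0.404) 1.4978 1.53266 0.6438 0.5214 0.05 0.16 0.165 3.8324 3.417 0.6872 0.8486 0.1076 7.76
    hβ hr hκ (by norm_num) hk1 hk2 hD1 hD0 j1 (j1 _ (by rw [sub_self, norm_zero]; norm_num))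
    (T3_05_d0_2 hD0 hβ hk1 hk2 (by linarith) (by linarith) hR0 hR)
    (T3_05_p0 hD0 hβ hk1 hk2 (by linarith) (by linarith) hR0 hR)
    y1.1 y1.2 y0.1 y0.2 (by norm_num)
    (ex_um 0.249 (by norm_num) (by norm_num) (by norm_num) (by norm_num)) (ex_um 0.28 (by norm_num) (by norm_num) (by norm_num) (by norm_num)) (ex_lm 0.265 (by norm_num) (by norm_num) (by norm_num) (by norm_num) (by norm_num)) (by norm_num) (by norm_num) (by norm_num) (by norm_num) (by norm_num) (by norm_num) (by norm_num) (by norm_num)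
    (by norm_num) (by norm_num) (by norm_num) (by norm_num) (by norm_num) (by norm_num) (by norm_num) (by norm_num) (by norm_num) (by norm_num)
    (ex_up 0.427 (by norm_num) (by norm_num) (by norm_num) (by norm_num)) (ex_lp 0.404 (by norm_num) (by norm_num) (by norm_num)) (by norm_num) (by norm_num) (by norm_num) (by norm_num) (by norm_num) (by norm_num)
    (by norm_num) (by norm_num) (by norm_num) (by norm_num) (by norm_num) (by norm_num) (by norm_num) (by norm_num) (by norm_num) (by norm_num) (by norm_num)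
    (by norm_num) (by norm_num) (by norm_num) (by norm_num)

private theorem yA10 {κ t : ℝ} (h : DomR κ t) (hk1 : 0.4 ≤ κ) (hk2 : κ ≤ 0.42) (ht1 : 1.329 ≤ t + κ) (ht2 : t + κ ≤ 1.347) :
    0.249 ≤ sy κ t ∧ sy κ t ≤ 0.281 := by
  have hy1 : 0.249 ≤ sy κ t := syR_ge h 0.4 0.42 1.329 0.249 1.28274 1.28275 0.76048 0.79852 hk1 hk2 (by linarith) (by norm_num) (by norm_num)
    (expn_ge (by norm_num) (by norm_num)) (expn_le (by norm_num) (by norm_num) (by norm_num)) (by norm_num)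
    (by norm_num) (by norm_num) (by norm_num) (by norm_num) (by norm_num) (by norm_num)
  have hy2 : sy κ t ≤ 0.281 := syR_ang2 h 0.4 0.42 1.347 1.088 0.4666 0.8861 0.281 0.75503 1.32445 hk1 hk2 (by linarith) (by norm_num) (by norm_num) (by norm_num)
    (cos_le_num (by norm_num)) (sin_le_num (by norm_num) (by norm_num)) (expm_le (by norm_num) (by norm_num) (by norm_num))
    (expn_ge (by norm_num) (by norm_num)) (by norm_num) (by norm_num) (by norm_num) (by norm_num) (by norm_num)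
  exact ⟨hy1, hy2⟩

private theorem yB10 {κ t : ℝ} (h : DomR κ t) (hk1 : 0.4 ≤ κ) (hk2 : κ ≤ 0.42) (ht1 : -0.7654 ≤ t + κ) (ht2 : t + κ ≤ -0.74739) :
    (-0.412) ≤ sy κ t ∧ sy κ t ≤ (-0.368) := by
  have hy1 : -0.412 ≤ sy κ t := syL_ang2 h 0.4 0.42 0.7654 0.707 0.7603 0.6496 0.412 1.50983 0.66232 hk1 hk2 (by linarith) (by norm_num) (by norm_num) (by norm_num) (by norm_num)
    (cos_ge_num (by norm_num) (by norm_num)) (sin_le_num (by norm_num) (by norm_num))
    (expn_ge (by norm_num) (by norm_num)) (expm_ge (by norm_num) (by norm_num) (by norm_num) (by norm_num)) (by norm_num) (by norm_num) (by norm_num)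
    (by norm_num) (by norm_num) (by norm_num)
  have hy2 : sy κ t ≤ -0.368 := syL_le h 0.4 0.42 0.74739 0.368 0.69211 0.69212 0.60642 0.63676 hk1 hk2 (by linarith) (by norm_num) (by norm_num) (by norm_num)
    (expm_ge (by norm_num) (by norm_num) (by norm_num) (by norm_num)) (expm_le (by norm_num) (by norm_num) (by norm_num)) (by norm_num)
    (by norm_num) (by norm_num) (by norm_num) (by norm_num) (by norm_num) (by norm_num)
  exact ⟨hy1, hy2⟩

theorem pc10 {β r h t κ : ℝ} (hh : h = 2 * Real.pi / (3 : ℕ)) (hβ : 0 < β) (hr : 10 ≤ r) (hκ : κ = β * r)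
    (hk1 : 0.4 ≤ κ) (hk2 : κ ≤ 0.42) (hT1 : 1.329 ≤ t + κ) (hT2 : t + κ ≤ 1.347) :
    Xf β r h t 0 ≠ 0 ∧ r * 0.1076 ≤ (Ld β r h t 1 - Ld β r h t 0).im ∧
      ‖(((-1 : ℤ) : ℂ) - 1) * Ld β r h t 0 - ((-1 : ℤ) : ℂ) * Ld β r h t 1‖ ≤ r * 7.76 := by
  obtain ⟨q1, q2, q3⟩ := b3_h hh
  have hR0 := b3_R0 hβ hr hκ
  have hR := b3_R hβ hr hκ (by linarith)
  have hD1 : DomR κ t := b3_dom (by linarith) (by linarith) (Or.inl (by linarith))
  have hD0 : DomR κ (t - h) := b3_dom (by linarith) (by linarith) (Or.inl (by linarith))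
  have y1 := yA10 hD1 hk1 hk2 (by linarith) (by linarith)
  have y0 := yB10 hD0 hk1 hk2 (by linarith) (by linarith)
  have j1 := T3_05_d1_2 hD1 hβ hk1 hk2 (by linarith) (by linarith) hR0 hR
  exact b3_piece 0.4 0.42 0.249 0.281 0.265 0.7672 0.77958 0.75503 0.3275 1.5951 1.6626 0.08 0.085 0.085 1.1613 0.3012 0 0 (-0.412) (-0.368) (-0.39) 1.47698 1.50984 0.6342 0.5403 0.05 0.16 0.165 3.8324 3.3066 0.6698 0.7863 0.1076 7.76
    hβ hr hκ (by norm_num) hk1 hk2 hD1 hD0 j1 (j1 _ (by rw [sub_self, norm_zero]; norm_num))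
    (T3_05_d0_2 hD0 hβ hk1 hk2 (by linarith) (by linarith) hR0 hR)
    (T3_05_p0 hD0 hβ hk1 hk2 (by linarith) (by linarith) hR0 hR)
    y1.1 y1.2 y0.1 y0.2 (by norm_num)
    (ex_um 0.249 (by norm_num) (by norm_num) (by norm_num) (by norm_num)) (ex_um 0.281 (by norm_num) (by norm_num) (by norm_num) (by norm_num)) (ex_lm 0.265 (by norm_num) (by norm_num) (by norm_num) (by norm_num) (by norm_num)) (by norm_num) (by norm_num) (by norm_num) (by norm_num) (by norm_num) (by norm_num) (by norm_num) (by norm_num)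
    (by norm_num) (by norm_num) (by norm_num) (by norm_num) (by norm_num) (by norm_num) (by norm_num) (by norm_num) (by norm_num) (by norm_num)
    (ex_up 0.412 (by norm_num) (by norm_num) (by norm_num) (by norm_num)) (ex_lp 0.39 (by norm_num) (by norm_num) (by norm_num)) (by norm_num) (by norm_num) (by norm_num) (by norm_num) (by norm_num) (by norm_num)
    (by norm_num) (by norm_num) (by norm_num) (by norm_num) (by norm_num) (by norm_num) (by norm_num) (by norm_num) (by norm_num) (by norm_num) (by norm_num)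
    (by norm_num) (by norm_num) (by norm_num) (by norm_num)

private theorem yA11 {κ t : ℝ} (h : DomR κ t) (hk1 : 0.4 ≤ κ) (hk2 : κ ≤ 0.42) (ht1 : 1.347 ≤ t + κ) (ht2 : t + κ ≤ 1.364) :
    0.249 ≤ sy κ t ∧ sy κ t ≤ 0.283 := by
  have hy1 : 0.249 ≤ sy κ t := syR_ge h 0.4 0.42 1.347 0.249 1.28274 1.28275 0.76048 0.79852 hk1 hk2 (by linarith) (by norm_num) (by norm_num)
    (expn_ge (by norm_num) (by norm_num)) (expn_le (by norm_num) (by norm_num) (by norm_num)) (by norm_num)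
    (by norm_num) (by norm_num) (by norm_num) (by norm_num) (by norm_num) (by norm_num)
  have hy2 : sy κ t ≤ 0.283 := syR_ang2 h 0.4 0.42 1.364 1.105 0.4517 0.8939 0.283 0.75352 1.3271 hk1 hk2 (by linarith) (by norm_num) (by norm_num) (by norm_num)
    (cos_le_num (by norm_num)) (sin_le_num (by norm_num) (by norm_num)) (expm_le (by norm_num) (by norm_num) (by norm_num))
    (expn_ge (by norm_num) (by norm_num)) (by norm_num) (by norm_num) (by norm_num) (by norm_num) (by norm_num)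
  exact ⟨hy1, hy2⟩

private theorem yB11 {κ t : ℝ} (h : DomR κ t) (hk1 : 0.4 ≤ κ) (hk2 : κ ≤ 0.42) (ht1 : -0.7474 ≤ t + κ) (ht2 : t + κ ≤ -0.73039) :
    (-0.397) ≤ sy κ t ∧ sy κ t ≤ (-0.356) := by
  have hy1 : -0.397 ≤ sy κ t := syL_ang2 h 0.4 0.42 0.7474 0.688 0.7725 0.6351 0.397 1.48735 0.67233 hk1 hk2 (by linarith) (by norm_num) (by norm_num) (by norm_num) (by norm_num)
    (cos_ge_num (by norm_num) (by norm_num)) (sin_le_num (by norm_num) (by norm_num))
    (expn_ge (by norm_num) (by norm_num)) (expm_ge (by norm_num) (by norm_num) (by norm_num) (by norm_num)) (by norm_num) (by norm_num) (by norm_num)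
    (by norm_num) (by norm_num) (by norm_num)
  have hy2 : sy κ t ≤ -0.356 := syL_le h 0.4 0.42 0.73039 0.356 0.70047 0.70048 0.59373 0.62343 hk1 hk2 (by linarith) (by norm_num) (by norm_num) (by norm_num)
    (expm_ge (by norm_num) (by norm_num) (by norm_num) (by norm_num)) (expm_le (by norm_num) (by norm_num) (by norm_num)) (by norm_num)
    (by norm_num) (by norm_num) (by norm_num) (by norm_num) (by norm_num) (by norm_num)
  exact ⟨hy1, hy2⟩

theorem pc11 {β r h t κ : ℝ} (hh : h = 2 * Real.pi / (3 : ℕ)) (hβ : 0 < β) (hr : 10 ≤ r) (hκ : κ = β * r)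
    (hk1 : 0.4 ≤ κ) (hk2 : κ ≤ 0.42) (hT1 : 1.347 ≤ t + κ) (hT2 : t + κ ≤ 1.364) :
    Xf β r h t 0 ≠ 0 ∧ r * 0.1076 ≤ (Ld β r h t 1 - Ld β r h t 0).im ∧
      ‖(((-1 : ℤ) : ℂ) - 1) * Ld β r h t 0 - ((-1 : ℤ) : ℂ) * Ld β r h t 1‖ ≤ r * 7.76 := by
  obtain ⟨q1, q2, q3⟩ := b3_h hh
  have hR0 := b3_R0 hβ hr hκ
  have hR := b3_R hβ hr hκ (by linarith)
  have hD1 : DomR κ t := b3_dom (by linarith) (by linarith) (Or.inl (by linarith))
  have hD0 : DomR κ (t - h) := b3_dom (by linarith) (by linarith) (Or.inl (by linarith))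
  have y1 := yA11 hD1 hk1 hk2 (by linarith) (by linarith)
  have y0 := yB11 hD0 hk1 hk2 (by linarith) (by linarith)
  have j1 := T3_05_d1_2 hD1 hβ hk1 hk2 (by linarith) (by linarith) hR0 hR
  exact b3_piece 0.4 0.42 0.249 0.283 0.266 0.76643 0.77958 0.75352 0.3275 1.5951 1.6662 0.08 0.085 0.085 1.1613 0.3012 0 0 (-0.397) (-0.356) (-0.377) 1.4579 1.48736 0.6247 0.5596 0.05 0.16 0.165 3.8324 3.2004 0.6509 0.7267 0.1076 7.76
    hβ hr hκ (by norm_num) hk1 hk2 hD1 hD0 j1 (j1 _ (by rw [sub_self, norm_zero]; norm_num))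
    (T3_05_d0_2 hD0 hβ hk1 hk2 (by linarith) (by linarith) hR0 hR)
    (T3_05_p0 hD0 hβ hk1 hk2 (by linarith) (by linarith) hR0 hR)
    y1.1 y1.2 y0.1 y0.2 (by norm_num)
    (ex_um 0.249 (by norm_num) (by norm_num) (by norm_num) (by norm_num)) (ex_um 0.283 (by norm_num) (by norm_num) (by norm_num) (by norm_num)) (ex_lm 0.266 (by norm_num) (by norm_num) (by norm_num) (by norm_num) (by norm_num)) (by norm_num) (by norm_num) (by norm_num) (by norm_num) (by norm_num) (by norm_num) (by norm_num) (by norm_num)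
    (by norm_num) (by norm_num) (by norm_num) (by norm_num) (by norm_num) (by norm_num) (by norm_num) (by norm_num) (by norm_num) (by norm_num)
    (ex_up 0.397 (by norm_num) (by norm_num) (by norm_num) (by norm_num)) (ex_lp 0.377 (by norm_num) (by norm_num) (by norm_num)) (by norm_num) (by norm_num) (by norm_num) (by norm_num) (by norm_num) (by norm_num)
    (by norm_num) (by norm_num) (by norm_num) (by norm_num) (by norm_num) (by norm_num) (by norm_num) (by norm_num) (by norm_num) (by norm_num) (by norm_num)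
    (by norm_num) (by norm_num) (by norm_num) (by norm_num)

private theorem yA12 {κ t : ℝ} (h : DomR κ t) (hk1 : 0.4 ≤ κ) (hk2 : κ ≤ 0.42) (ht1 : 1.364 ≤ t + κ) (ht2 : t + κ ≤ 1.382) :
    0.249 ≤ sy κ t ∧ sy κ t ≤ 0.285 := by
  have hy1 : 0.249 ≤ sy κ t := syR_ge h 0.4 0.42 1.364 0.249 1.28274 1.28275 0.76048 0.79852 hk1 hk2 (by linarith) (by norm_num) (by norm_num)
    (expn_ge (by norm_num) (by norm_num)) (expn_le (by norm_num) (by norm_num) (by norm_num)) (by norm_num)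
    (by norm_num) (by norm_num) (by norm_num) (by norm_num) (by norm_num) (by norm_num)
  have hy2 : sy κ t ≤ 0.285 := syR_ang2 h 0.4 0.42 1.382 1.124 0.4349 0.9023 0.285 0.75202 1.32976 hk1 hk2 (by linarith) (by norm_num) (by norm_num) (by norm_num)
    (cos_le_num (by norm_num)) (sin_le_num (by norm_num) (by norm_num)) (expm_le (by norm_num) (by norm_num) (by norm_num))
    (expn_ge (by norm_num) (by norm_num)) (by norm_num) (by norm_num) (by norm_num) (by norm_num) (by norm_num)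
  exact ⟨hy1, hy2⟩

private theorem yB12 {κ t : ℝ} (h : DomR κ t) (hk1 : 0.4 ≤ κ) (hk2 : κ ≤ 0.42) (ht1 : -0.7304 ≤ t + κ) (ht2 : t + κ ≤ -0.71239) :
    (-0.384) ≤ sy κ t ∧ sy κ t ≤ (-0.344) := by
  have hy1 : -0.384 ≤ sy κ t := syL_ang2 h 0.4 0.42 0.7304 0.672 0.7825 0.6226 0.384 1.46814 0.68113 hk1 hk2 (by linarith) (by norm_num) (by norm_num) (by norm_num) (by norm_num)
    (cos_ge_num (by norm_num) (by norm_num)) (sin_le_num (by norm_num) (by norm_num))
    (expn_ge (by norm_num) (by norm_num)) (expm_ge (by norm_num) (by norm_num) (by norm_num) (by norm_num)) (by norm_num) (by norm_num) (by norm_num)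
    (by norm_num) (by norm_num) (by norm_num)
  have hy2 : sy κ t ≤ -0.344 := syL_le h 0.4 0.42 0.71239 0.344 0.70892 0.70893 0.58063 0.60968 hk1 hk2 (by linarith) (by norm_num) (by norm_num) (by norm_num)
    (expm_ge (by norm_num) (by norm_num) (by norm_num) (by norm_num)) (expm_le (by norm_num) (by norm_num) (by norm_num)) (by norm_num)
    (by norm_num) (by norm_num) (by norm_num) (by norm_num) (by norm_num) (by norm_num)
  exact ⟨hy1, hy2⟩

theorem pc12 {β r h t κ : ℝ} (hh : h = 2 * Real.pi / (3 : ℕ)) (hβ : 0 < β) (hr : 10 ≤ r) (hκ : κ = β * r)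
    (hk1 : 0.4 ≤ κ) (hk2 : κ ≤ 0.42) (hT1 : 1.364 ≤ t + κ) (hT2 : t + κ ≤ 1.382) :
    Xf β r h t 0 ≠ 0 ∧ r * 0.1076 ≤ (Ld β r h t 1 - Ld β r h t 0).im ∧
      ‖(((-1 : ℤ) : ℂ) - 1) * Ld β r h t 0 - ((-1 : ℤ) : ℂ) * Ld β r h t 1‖ ≤ r * 7.76 := by
  obtain ⟨q1, q2, q3⟩ := b3_h hh
  have hR0 := b3_R0 hβ hr hκ
  have hR := b3_R hβ hr hκ (by linarith)
  have hD1 : DomR κ t := b3_dom (by linarith) (by linarith) (Or.inl (by linarith))
  have hD0 : DomR κ (t - h) := b3_dom (by linarith) (by linarith) (Or.inl (by linarith))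
  have y1 := yA12 hD1 hk1 hk2 (by linarith) (by linarith)
  have y0 := yB12 hD0 hk1 hk2 (by linarith) (by linarith)
  have j1 := T3_05_d1_2 hD1 hβ hk1 hk2 (by linarith) (by linarith) hR0 hR
  exact b3_piece 0.4 0.42 0.249 0.285 0.267 0.76567 0.77958 0.75202 0.3275 1.5951 1.6698 0.08 0.085 0.085 1.1613 0.3012 0 0 (-0.384) (-0.344) (-0.364) 1.43907 1.46815 0.6167 0.5766 0.05 0.16 0.165 3.8324 3.1125 0.6378 0.6822 0.1076 7.76
    hβ hr hκ (by norm_num) hk1 hk2 hD1 hD0 j1 (j1 _ (by rw [sub_self, norm_zero]; norm_num))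
    (T3_05_d0_2 hD0 hβ hk1 hk2 (by linarith) (by linarith) hR0 hR)
    (T3_05_p0 hD0 hβ hk1 hk2 (by linarith) (by linarith) hR0 hR)
    y1.1 y1.2 y0.1 y0.2 (by norm_num)
    (ex_um 0.249 (by norm_num) (by norm_num) (by norm_num) (by norm_num)) (ex_um 0.285 (by norm_num) (by norm_num) (by norm_num) (by norm_num)) (ex_lm 0.267 (by norm_num) (by norm_num) (by norm_num) (by norm_num) (by norm_num)) (by norm_num) (by norm_num) (by norm_num) (by norm_num) (by norm_num) (by norm_num) (by norm_num) (by norm_num)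
    (by norm_num) (by norm_num) (by norm_num) (by norm_num) (by norm_num) (by norm_num) (by norm_num) (by norm_num) (by norm_num) (by norm_num)
    (ex_up 0.384 (by norm_num) (by norm_num) (by norm_num) (by norm_num)) (ex_lp 0.364 (by norm_num) (by norm_num) (by norm_num)) (by norm_num) (by norm_num) (by norm_num) (by norm_num) (by norm_num) (by norm_num)
    (by norm_num) (by norm_num) (by norm_num) (by norm_num) (by norm_num) (by norm_num) (by norm_num) (by norm_num) (by norm_num) (by norm_num) (by norm_num)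
    (by norm_num) (by norm_num) (by norm_num) (by norm_num)

theorem innS {β r h t κ : ℝ} (hh : h = 2 * Real.pi / (3 : ℕ)) (hβ : 0 < β) (hr : 10 ≤ r) (hκ : κ = β * r)
    (hk1 : 0.4 ≤ κ) (hk2 : κ ≤ 0.42) (hT1 : 1.158 ≤ t + κ) (hT2 : t + κ ≤ 1.382) :
    Xf β r h t 0 ≠ 0 ∧ r * 0.1076 ≤ (Ld β r h t 1 - Ld β r h t 0).im ∧
      ‖(((-1 : ℤ) : ℂ) - 1) * Ld β r h t 0 - ((-1 : ℤ) : ℂ) * Ld β r h t 1‖ ≤ r * 7.76 := by
  rcases le_total (t + κ) 1.173 with f0 | g0
  · exact pc0 hh hβ hr hκ hk1 hk2 hT1 f0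
  rcases le_total (t + κ) 1.188 with f1 | g1
  · exact pc1 hh hβ hr hκ hk1 hk2 g0 f1
  rcases le_total (t + κ) 1.206 with f2 | g2
  · exact pc2 hh hβ hr hκ hk1 hk2 g1 f2
  rcases le_total (t + κ) 1.223 with f3 | g3
  · exact pc3 hh hβ hr hκ hk1 hk2 g2 f3
  rcases le_total (t + κ) 1.24 with f4 | g4
  · exact pc4 hh hβ hr hκ hk1 hk2 g3 f4
  rcases le_total (t + κ) 1.258 with f5 | g5
  · exact pc5 hh hβ hr hκ hk1 hk2 g4 f5
  rcases le_total (t + κ) 1.276 with f6 | g6
  · exact pc6 hh hβ hr hκ hk1 hk2 g5 f6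
  rcases le_total (t + κ) 1.293 with f7 | g7
  · exact pc7 hh hβ hr hκ hk1 hk2 g6 f7
  rcases le_total (t + κ) 1.311 with f8 | g8
  · exact pc8 hh hβ hr hκ hk1 hk2 g7 f8
  rcases le_total (t + κ) 1.329 with f9 | g9
  · exact pc9 hh hβ hr hκ hk1 hk2 g8 f9
  rcases le_total (t + κ) 1.347 with f10 | g10
  · exact pc10 hh hβ hr hκ hk1 hk2 g9 f10
  rcases le_total (t + κ) 1.364 with f11 | g11
  · exact pc11 hh hβ hr hκ hk1 hk2 g10 f11
  exact pc12 hh hβ hr hκ hk1 hk2 g11 hT2

theorem circ {p : ℤ} (hp : IsCoprime (3 : ℤ) p) {β r : ℝ} (hβ : 0 < β) (hr : 10 ≤ r) (hk1 : 0.4 ≤ β * r)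
    (hk2 : β * r ≤ 0.42) : Circ (2 * Real.pi * p / (3 : ℕ) + β) r := by
  obtain ⟨κ, hκ⟩ : ∃ κ, κ = β * r := ⟨_, rfl⟩
  rw [← hκ] at hk1 hk2
  refine circ3 hp hr (h := 2 * Real.pi / (3 : ℕ)) (κ := κ) rfl 1.158 1.382 1.013 0.1076 0.00793 0.00793 7.76 (by norm_num) (by norm_num) (by norm_num)
    (by norm_num) (by norm_num) ?_ ?_ ?_ ?_ ?_ (by norm_num) (by norm_num)
  · intro t h1 h2
    exact (innS rfl hβ hr hκ hk1 hk2 h1 h2).1
  · intro t h1 h2
    exact (innE rfl hβ hr hκ hk1 hk2 h1 h2).1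
  · intro t h1 h2
    exact (innE rfl hβ hr hκ hk1 hk2 h1 h2).2
  · intro t h1 h2
    exact (innS rfl hβ hr hκ hk1 hk2 h1 h2).2
  · intro t h1 h2 h3
    rcases h3 with h3 | h3
    · rcases le_total (t + κ) 1.144 with g | g
      · exact left rfl hβ hr hκ hk1 hk2 h1 g
      · exact middle rfl hβ hr hκ hk1 hk2 g h3
    · exact right0 rfl hβ hr hκ hk1 hk2 h3 h2

end B3_05

end Sok
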