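import Pool.Agent.Lib.MP_816dec_an.R1b3D
import Pool.Agent.Lib.MP_816dec_an.R1b3J06

/-!
MP_816dec_an (A3, row R1, b = 3): the cell `0.42 ≤ κ ≤ 0.44`.
-/

set_option autoImplicit false
set_option maxHeartbeats 4000000
set_option linter.unusedVariables false

open Complex Set

namespace Sok

namespace B3_06

private theorem yL {κ t : ℝ} (h : DomR κ t) (hk1 : 0.42 ≤ κ) (hk2 : κ ≤ 0.44) (ht1 : 0 ≤ t + κ) (ht2 : t + κ ≤ 1.15) :
    0 ≤ sy κ t ∧ sy κ t ≤ 0.269 := by
  have hy1 : 0 ≤ sy κ t := sy_nonneg h (by linarith)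
  have hy2 : sy κ t ≤ 0.269 := syR_ang2 h 0.42 0.44 1.15 0.927 0.6012 0.8 0.269 0.76415 1.30865 hk1 hk2 (by linarith) (by norm_num) (by norm_num) (by norm_num)
    (cos_le_num (by norm_num)) (sin_le_num (by norm_num) (by norm_num)) (expm_le (by norm_num) (by norm_num) (by norm_num))
    (expn_ge (by norm_num) (by norm_num)) (by norm_num) (by norm_num) (by norm_num) (by norm_num) (by norm_num)
  exact ⟨hy1, hy2⟩

theorem left {β r h t κ : ℝ} (hh : h = 2 * Real.pi / (3 : ℕ)) (hβ : 0 < β) (hr : 10 ≤ r) (hκ : κ = β * r)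
    (hk1 : 0.42 ≤ κ) (hk2 : κ ≤ 0.44) (hT1 : 0 ≤ t + κ) (hT2 : t + κ ≤ 1.15) :
    ‖Xf β r h t (-1)‖ < |‖Xf β r h t 1‖ - ‖Xf β r h t 0‖| := by
  obtain ⟨q1, q2, q3⟩ := b3_h hh
  have hR0 := b3_R0 hβ hr hκ
  have hR := b3_R hβ hr hκ (by linarith)
  have hD1 : DomR κ t := b3_dom (by linarith) (by linarith) (Or.inl (by linarith))
  have hy := yL hD1 hk1 hk2 (by linarith) (by linarith)
  have hY : 0.8689 * Real.exp (r * 0.5847) ≤ ‖Xf β r h t 1‖ :=
    b3_lo hβ hr hκ (k := 1) (t' := t) (by push_cast; ring) hD1 0.015 1.6511 0.8689 0.5847 (by norm_num)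
      (T3_06_p1 hD1 hβ hk1 hk2 (by linarith) (by linarith) hR0 hR)
      (v5_Dup hD1 0.44 0 0.269 1 0.76415 1.6511 hk2 hy.1 hy.2 (ex_up 0 (by norm_num) (by norm_num) (by norm_num) (by norm_num)) (ex_um 0.269 (by norm_num) (by norm_num) (by norm_num) (by norm_num)) (by norm_num) (by norm_num) (by norm_num)) (by norm_num) (by norm_num)
      (b3_Vlo hD1 0.42 0.44 0 1.15 0.46 (-0.77652) 0.9232 0.60325 0.50543 0.5847 hk1 hk2 (by linarith) (by linarith) (by norm_num) (ex_lm 0.77652 (by norm_num) (by norm_num) (by norm_num) (by norm_num) (by norm_num)) (by norm_num) (by norm_num) (by norm_num) (by norm_num) (by norm_num) (by norm_num) (by norm_num) (by norm_num) (ex_um 0.50543 (by norm_num) (by norm_num) (by norm_num) (by norm_num)) (by norm_num))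
  have h0 : ‖Xf β r h t 0‖ ≤ 0.9069 * ‖Xf β r h t 1‖ :=
    b3_cmp 0.3672 0.10021 0.05971 0.28287 0.74822 0.158583 0.9069 hr (b3_HU0 1.22 0.42 0.44 (-2.0944) (-0.94439) 1.63664 1.6693 1.71053 0.59906 0.58462 1.66929 1.7705 0.08369 1.18075 2.1776 0.20641 0.30183 0.000001 2.3077 0.48449 hβ hr hκ (by norm_num) hk1 hk2 (by norm_num) (by linarith) (by linarith) (by norm_num) (by norm_num) (ex_up 0.5124 (by norm_num) (by norm_num) (by norm_num) (by norm_num)) (ex_up 0.5368 (by norm_num) (by norm_num) (by norm_num) (by norm_num)) (ex_um 0.5124 (by norm_num) (by norm_num) (by norm_num) (by norm_num)) (ex_um 0.5368 (by norm_num) (by norm_num) (by norm_num) (by norm_num)) (by norm_num) (by norm_num) (ex_lp 0.5124 (by norm_num) (by norm_num) (by norm_num)) (by norm_num) (by norm_num) (by norm_num) (by norm_num) (by norm_num) (by norm_num) (by norm_num) (by norm_num) (by norm_num) (by norm_num) (by norm_num) (by norm_num) (by norm_num) (by norm_num) (v5_hump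 5.9003 22.727 4.7673 0.0000003148 0.000001 hβ hr hκ hk1 hk2 (by norm_num) (tb := (-0.94439)) (by linarith) (by norm_num) (by norm_num) (by norm_num) (by norm_num) (by norm_num) (by norm_num) (by norm_num) (ex_un 14 0.99 (by norm_num) (by norm_num) (by norm_num) (by norm_num)) (by norm_num)) (by norm_num) (by norm_num)) hY (by norm_num) (by norm_num) (by norm_num) (by norm_num) (by norm_num) (ex_un 1 0.0021 (by norm_num) (by norm_num) (by norm_num) (by norm_num)) (by norm_num) (by norm_num) (by norm_num) (ex_un 2 0.8287 (by norm_num) (by norm_num) (by norm_num) (by norm_num)) (by norm_num) (by norm_num)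
  have h2 : ‖Xf β r h t (-1)‖ ≤ 0.0115 * ‖Xf β r h t 1‖ := by
    exact b3_cmp 1 0 0.004765 0.5347 0 0.011437 0.0115 hr ((b3_Xm hh).trans_le (b3_U1 0.42 0.44 2.09439 3.2444 0.08359 0.08369 1.18075 0.0828 0.53322 1.4873 0.000001 2.0855 hβ hr hκ (by norm_num) hk1 hk2 (by linarith) (by linarith) (by norm_num) (by norm_num) (by norm_num) (by norm_num) (by norm_num) (by norm_num) (by norm_num) (by norm_num) (by norm_num) (by norm_num) (by norm_num) (by norm_num) (by norm_num) (ex_un 0 0.828 (by norm_num) (by norm_num) (by norm_num) (by norm_num)) (v5_hump 1.7115 22.727 4.7673 0.0000003148 0.000001 hβ hr hκ hk1 hk2 (by norm_num) (tb := 3.2444) (by linarith) (by norm_num) (by norm_num) (by norm_num) (by norm_num) (by norm_num) (by norm_num) (by norm_num) (ex_un 14 0.99 (by norm_num) (by norm_num) (by norm_num) (by norm_num)) (by norm_num)) (by norm_num))) hY (by norm_num) (by norm_num) (by norm_num) (by norm_num) (by norm_num) (by norm_num) (by norm_num)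 (by norm_num) (by norm_num) (ex_un 5 0.347 (by norm_num) (by norm_num) (by norm_num) (by norm_num)) (by norm_num) (by norm_num)
  exact b3_out1 0.9069 0.0115 hY (by norm_num) h0 h2 (by norm_num)

private theorem yM1 {κ t : ℝ} (h : DomR κ t) (hk1 : 0.42 ≤ κ) (hk2 : κ ≤ 0.44) (ht1 : 0 ≤ t + κ) (ht2 : t + κ ≤ 1.167) :
    0 ≤ sy κ t ∧ sy κ t ≤ 0.271 := by
  have hy1 : 0 ≤ sy κ t := sy_nonneg h (by linarith)
  have hy2 : sy κ t ≤ 0.271 := syR_ang2 h 0.42 0.44 1.167 0.939 0.5916 0.8071 0.271 0.76262 1.31127 hk1 hk2 (by linarith) (by norm_num) (by norm_num) (by norm_num)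
    (cos_le_num (by norm_num)) (sin_le_num (by norm_num) (by norm_num)) (expm_le (by norm_num) (by norm_num) (by norm_num))
    (expn_ge (by norm_num) (by norm_num)) (by norm_num) (by norm_num) (by norm_num) (by norm_num) (by norm_num)
  exact ⟨hy1, hy2⟩

private theorem yM0 {κ t : ℝ} (h : DomR κ t) (hk1 : 0.42 ≤ κ) (hk2 : κ ≤ 0.44) (ht1 : -0.9444 ≤ t + κ) (ht2 : t + κ ≤ -0.92739) :
    (-0.615) ≤ sy κ t ∧ sy κ t ≤ (-0.537) := by
  have hy1 : -0.615 ≤ sy κ t := syL_ang2 h 0.42 0.44 0.9444 0.856 0.6554 0.7553 0.615 1.84964 0.54064 hk1 hk2 (by linarith) (by norm_num) (by norm_num) (by norm_num) (by norm_num)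
    (cos_ge_num (by norm_num) (by norm_num)) (sin_le_num (by norm_num) (by norm_num))
    (expn_ge (by norm_num) (by norm_num)) (expm_ge (by norm_num) (by norm_num) (by norm_num) (by norm_num)) (by norm_num) (by norm_num) (by norm_num)
    (by norm_num) (by norm_num) (by norm_num)
  have hy2 : sy κ t ≤ -0.537 := syL_le h 0.42 0.44 0.92739 0.537 0.58449 0.58451 0.71334 0.74734 hk1 hk2 (by linarith) (by norm_num) (by norm_num) (by norm_num)
    (expm_ge (by norm_num) (by norm_num) (by norm_num) (by norm_num)) (expm_le (by norm_num) (by norm_num) (by norm_num)) (by norm_num)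
    (by norm_num) (by norm_num) (by norm_num) (by norm_num) (by norm_num) (by norm_num)
  exact ⟨hy1, hy2⟩

theorem middle {β r h t κ : ℝ} (hh : h = 2 * Real.pi / (3 : ℕ)) (hβ : 0 < β) (hr : 10 ≤ r) (hκ : κ = β * r)
    (hk1 : 0.42 ≤ κ) (hk2 : κ ≤ 0.44) (hT1 : 1.15 ≤ t + κ) (hT2 : t + κ ≤ 1.167) :
    ‖Xf β r h t (-1)‖ < |‖Xf β r h t 1‖ - ‖Xf β r h t 0‖| := by
  obtain ⟨q1, q2, q3⟩ := b3_h hh
  have hR0 := b3_R0 hβ hr hκ
  have hR := b3_R hβ hr hκ (by linarith)
  have hD1 : DomR κ t := b3_dom (by linarith) (by linarith) (Or.inl (by linarith))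
  have hD0 : DomR κ (t - h) := b3_dom (by linarith) (by linarith) (Or.inl (by linarith))
  have hy := yM1 hD1 hk1 hk2 (by linarith) (by linarith)
  have hy0 := yM0 hD0 hk1 hk2 (by linarith) (by linarith)
  have hY : 0.8684 * Real.exp (r * 0.57418) ≤ ‖Xf β r h t 1‖ :=
    b3_lo hβ hr hκ (k := 1) (t' := t) (by push_cast; ring) hD1 0.015 1.6546 0.8684 0.57418 (by norm_num)
      (T3_06_p1 hD1 hβ hk1 hk2 (by linarith) (by linarith) hR0 hR)
      (v5_Dup hD1 0.44 0 0.271 1 0.76262 1.6546 hk2 hy.1 hy.2 (ex_up 0 (by norm_num) (by norm_num) (by norm_num) (by norm_num)) (ex_um 0.271 (by norm_num) (by norm_num) (by norm_num) (by norm_num)) (by norm_num) (by norm_num) (by norm_num)) (by norm_num) (by norm_num)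
      (b3_Vlo hD1 0.42 0.44 0 1.167 0.46 (-0.77652) 0.9402 0.58961 0.5283 0.57418 hk1 hk2 (by linarith) (by linarith) (by norm_num) (ex_lm 0.77652 (by norm_num) (by norm_num) (by norm_num) (by norm_num) (by norm_num)) (by norm_num) (by norm_num) (by norm_num) (by norm_num) (by norm_num) (by norm_num) (by norm_num) (by norm_num) (ex_um 0.5283 (by norm_num) (by norm_num) (by norm_num) (by norm_num)) (by norm_num))
  have hU : ‖Xf β r h t 0‖ ≤ 1.5305 * Real.exp (r * 0.50973) :=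
    b3_up hβ hr hκ (k := 0) (t' := t - h) (by push_cast; ring) hD0 0.195 0.3717 1.5305 0.50973
      (T3_06_p0m hD0 hβ hk1 hk2 (by linarith) (by linarith) hR0 hR) (v5_Dlo hD0 0.42 (-0.615) (-0.537) (-0.576) 1.7789 0.3717 (by norm_num) hk1 hy0.1 hy0.2 (ex_lp 0.576 (by norm_num) (by norm_num) (by norm_num)) (by norm_num) (by norm_num) (by norm_num) (by norm_num)) (by norm_num) (by norm_num)
      (b3_VH hD0 1.09 0.42 0.44 1.52058 1.5806 1.61543 0.63268 0.61904 (-0.92739) 0.50973 (by norm_num) hk1 hk2 (by norm_num) (ex_up 0.4578 (by norm_num) (by norm_num) (by norm_num) (by norm_num)) (ex_up 0.4796 (by norm_num) (by norm_num) (by norm_num) (by norm_num)) (ex_um 0.4578 (by norm_num) (by norm_num) (by norm_num) (by norm_num)) (ex_um 0.4796 (by norm_num) (by norm_num) (by norm_num) (by norm_num)) (by norm_num) (by norm_num) (by norm_num) (by linarith) (by norm_num))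
  have h0 : ‖Xf β r h t 0‖ ≤ 0.9294 * ‖Xf β r h t 1‖ :=
    b3_cmp 1 0 0.5273 0.06445 0 0.929333 0.9294 hr (b3_w hU) hY (by norm_num) (by norm_num) (by norm_num) (by norm_num) (by norm_num) (by norm_num) (by norm_num) (by norm_num) (by norm_num) (ex_un 0 0.6445 (by norm_num) (by norm_num) (by norm_num) (by norm_num)) (by norm_num) (by norm_num)
  have h2 : ‖Xf β r h t (-1)‖ ≤ 0.0032 * ‖Xf β r h t 1‖ := by
    exact b3_cmp 1 0 0.005292 0.52418 0 0.003185 0.0032 hr ((b3_Xm hh).trans_le (b3_U1 0.42 0.44 3.24439 3.2614 1.23359 0.08369 1.18075 0.9436 0.00001 0.3373 0.000001 0.5225 hβ hr hκ (by norm_num) hk1 hk2 (by linarith) (by linarith) (by norm_num) (by norm_num) (by norm_num) (by norm_num) (by norm_num) (by norm_num) (by norm_num) (by norm_num) (by norm_num) (by norm_num) (by norm_num) (by norm_num) (by norm_num) (ex_un 9 0.436 (by norm_num) (by norm_num) (by norm_num) (by norm_num)) (v5_hump 1.6945 22.727 4.7673 0.0000003148 0.000001 hβ hr hκ hk1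 hk2 (by norm_num) (tb := 3.2614) (by linarith) (by norm_num) (by norm_num) (by norm_num) (by norm_num) (by norm_num) (by norm_num) (by norm_num) (ex_un 14 0.99 (by norm_num) (by norm_num) (by norm_num) (by norm_num)) (by norm_num)) (by norm_num))) hY (by norm_num) (by norm_num) (by norm_num) (by norm_num) (by norm_num) (by norm_num) (by norm_num) (by norm_num) (by norm_num) (ex_un 5 0.2418 (by norm_num) (by norm_num) (by norm_num) (by norm_num)) (by norm_num) (by norm_num)
  exact b3_out1 0.9294 0.0032 hY (by norm_num) h0 h2 (by norm_num)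

private theorem yR0 {κ t : ℝ} (h : DomR κ t) (hk1 : 0.42 ≤ κ) (hk2 : κ ≤ 0.44) (ht1 : -0.7124 ≤ t + κ) (ht2 : t + κ ≤ 0.0001) :
    (-0.385) ≤ sy κ t ∧ sy κ t ≤ 0.005 := by
  have hy1 : -0.385 ≤ sy κ t := syL_ang2 h 0.42 0.44 0.7124 0.637 0.8038 0.5948 0.385 1.46961 0.68045 hk1 hk2 (by linarith) (by norm_num) (by norm_num) (by norm_num) (by norm_num)
    (cos_ge_num (by norm_num) (by norm_num)) (sin_le_num (by norm_num) (by norm_num))
    (expn_ge (by norm_num) (by norm_num)) (expm_ge (by norm_num) (by norm_num) (by norm_num) (by norm_num)) (by norm_num) (by norm_num) (by norm_num)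
    (by norm_num) (by norm_num) (by norm_num)
  have hy2 : sy κ t ≤ 0.005 := syR_le h 0.42 0.44 0.0001 0.005 1.00501 0.0112 0.01142 0.01197 hk1 hk2 (by linarith) (by norm_num) (by norm_num)
    (expn_ge (by norm_num) (by norm_num)) (by norm_num) (by norm_num) (Or.inr ((mul_le_mul_of_nonneg_left (expn_le (E := 1.00502) (by norm_num) (by norm_num) (by norm_num)) (by norm_num)).trans (by norm_num))) (by norm_num) (by norm_num) (by norm_num)
  exact ⟨hy1, hy2⟩

theorem right0 {β r h t κ : ℝ} (hh : h = 2 * Real.pi / (3 : ℕ)) (hβ : 0 < β) (hr : 10 ≤ r) (hκ : κ = β * r)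
    (hk1 : 0.42 ≤ κ) (hk2 : κ ≤ 0.44) (hT1 : 1.382 ≤ t + κ) (hT2 : t + κ ≤ h) :
    ‖Xf β r h t (-1)‖ < |‖Xf β r h t 1‖ - ‖Xf β r h t 0‖| := by
  obtain ⟨q1, q2, q3⟩ := b3_h hh
  have hR0 := b3_R0 hβ hr hκ
  have hR := b3_R hβ hr hκ (by linarith)
  have hD0 : DomR κ (t - h) := b3_dom (by linarith) (by linarith) (Or.inl (by linarith))
  have hy := yR0 hD0 hk1 hk2 (by linarith) (by linarith)
  have hY : 0.9121 * Real.exp (r * 0.72751) ≤ ‖Xf β r h t 0‖ :=
    b3_lo hβ hr hκ (k := 0) (t' := t - h) (by push_cast; ring) hD0 0.045 1.2017 0.9121 0.72751 (by norm_num)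
      (T3_06_p0R hD0 hβ hk1 hk2 (by linarith) (by linarith) hR0 hR)
      (v5_Dup hD0 0.44 (-0.385) 0.005 1.46962 0.99502 1.2017 hk2 hy.1 hy.2 (ex_up 0.385 (by norm_num) (by norm_num) (by norm_num) (by norm_num)) (ex_um 0.005 (by norm_num) (by norm_num) (by norm_num) (by norm_num)) (by norm_num) (by norm_num) (by norm_num)) (by norm_num) (by norm_num)
      (b3_Vlo hD0 0.42 0.44 (-0.7124) 0.0001 1.15 0.13977 0.6494 0.79644 0.22761 0.72751 hk1 hk2 (by linarith) (by linarith) (by norm_num) (ex_lp 0.13977 (by norm_num) (by norm_num) (by norm_num)) (by norm_num) (by norm_num) (by norm_num) (by norm_num) (by norm_num) (by norm_num) (by norm_num) (by norm_num) (ex_um 0.22761 (by norm_num) (by norm_num) (by norm_num) (by norm_num)) (by norm_num))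
  have h1 : ‖Xf β r h t 1‖ ≤ 0.2142 * ‖Xf β r h t 0‖ := by
    rcases le_total (t + κ) 1.79 with g0 | g0
    · exact b3_cmp 0.06686 0.27114 0.0006928 0.72751 0.214076 0.000089 0.2142 hr (b3_X1.trans_le (b3_HF 0.6 0.42 0.44 1.382 1.79 1.28557 0.77725 0.76798 1.2866 1.30213 0.76797 2.7296 0.08369 2.5127 0.2007 0.07909 0.4575 0.000001 2.9204 0.117 0.45637 hβ hr hκ (by norm_num) hk1 hk2 (by norm_num) (by linarith) (by linarith) (by norm_num) (ex_um 0.252 (by norm_num) (by norm_num) (by norm_num) (by norm_num)) (ex_um 0.264 (by norm_num) (by norm_num) (by norm_num) (by norm_num)) (ex_up 0.252 (by norm_num) (by norm_num) (by norm_num) (by norm_num)) (ex_up 0.264 (by norm_num) (by norm_num) (by norm_num) (by norm_num)) (by norm_num) (by norm_num) (ex_lm 0.264 (by norm_num) (by norm_num) (by norm_num) (by norm_num) (by norm_num)) (by norm_num) (by norm_num) (by norm_num) (by norm_num) (by norm_num) (by norm_num) (by norm_num) (by norm_num) (by norm_num)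 (by norm_num) (by norm_num) (by norm_num) (ex_un 0 0.7909 (by norm_num) (by norm_num) (by norm_num) (by norm_num)) (v5_hump 3.1659 22.727 4.7673 0.0000003148 0.000001 hβ hr hκ hk1 hk2 (by norm_num) (tb := 1.79) (by linarith) (by norm_num) (by norm_num) (by norm_num) (by norm_num) (by norm_num) (by norm_num) (by norm_num) (ex_un 14 0.99 (by norm_num) (by norm_num) (by norm_num) (by norm_num)) (by norm_num)) (by norm_num) (by norm_num) (by norm_num))) hY (by norm_num) (by norm_num) (by norm_num) (by norm_num) (by norm_num) (ex_un 2 0.7114 (by norm_num) (by norm_num) (by norm_num) (by norm_num)) (by norm_num) (by norm_num) (by norm_num) (ex_un 7 0.2751 (by norm_num) (by norm_num) (by norm_num) (by norm_num)) (by norm_num) (by norm_num)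
    exact b3_cmp 1 0 0.01392 0.42751 0 0.07495 0.2142 hr (b3_w (b3_UD1 0.42 0.44 1.79 2.0944 0.25 0.61559 0.25 2.5603 4.911 0.3 hβ hr hκ (by norm_num) hk1 hk2 (by linarith) (by linarith) (by norm_num) (by norm_num) (by norm_num) (by norm_num) (by norm_num) (by norm_num) (by norm_num) (by norm_num) (by norm_num) (by norm_num) (by norm_num) (by norm_num) (by norm_num))) hY (by norm_num) (by norm_num) (by norm_num) (by norm_num) (by norm_num) (by norm_num) (by norm_num) (by norm_num) (by norm_num) (ex_un 4 0.2751 (by norm_num) (by norm_num) (by norm_num) (by norm_num)) (by norm_num) (by norm_num)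
  have h2 : ‖Xf β r h t (-1)‖ ≤ 0.0007 * ‖Xf β r h t 0‖ := by
    exact b3_cmp 1 0 0.001152 0.67751 0 0.000647 0.0007 hr ((b3_Xm hh).trans_le (b3_U1 0.42 0.44 3.47639 4.1888 1.46559 0.08369 1.18075 0.8096 0.00004 0.6273 0.000001 0.5118 hβ hr hκ (by norm_num) hk1 hk2 (by linarith) (by linarith) (by norm_num) (by norm_num) (by norm_num) (by norm_num) (by norm_num) (by norm_num) (by norm_num) (by norm_num) (by norm_num) (by norm_num) (by norm_num) (by norm_num) (by norm_num) (ex_un 8 0.096 (by norm_num) (by norm_num) (by norm_num) (by norm_num)) (v5_hump 0.7671 22.727 4.7673 0.0000003148 0.000001 hβ hr hκ hk1 hk2 (by norm_num) (tb := 4.1888) (by linarith) (by norm_num) (by norm_num) (by norm_num) (by norm_num) (by norm_num) (by norm_num) (by norm_num) (ex_un 14 0.99 (by norm_num) (by norm_num) (by norm_num) (by norm_num)) (by norm_num)) (by norm_num))) hY (by norm_num) (by norm_num) (by norm_num) (by norm_num) (by norm_num) (by norm_num) (by norm_num)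 (by norm_num) (by norm_num) (ex_un 6 0.7751 (by norm_num) (by norm_num) (by norm_num) (by norm_num)) (by norm_num) (by norm_num)
  exact b3_out0 0.2142 0.0007 hY (by norm_num) h1 h2 (by norm_num)

private theorem yI {κ t : ℝ} (h : DomR κ t) (hk1 : 0.42 ≤ κ) (hk2 : κ ≤ 0.44) (ht1 : -0.9274 ≤ t + κ) (ht2 : t + κ ≤ -0.71239) :
    (-0.594) ≤ sy κ t ∧ sy κ t ≤ (-0.36) := by
  have hy1 : -0.594 ≤ sy κ t := syL_ang2 h 0.42 0.44 0.9274 0.84 0.6674 0.7448 0.594 1.81121 0.55211 hk1 hk2 (by linarith) (by norm_num) (by norm_num) (by norm_num) (by norm_num)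
    (cos_ge_num (by norm_num) (by norm_num)) (sin_le_num (by norm_num) (by norm_num))
    (expn_ge (by norm_num) (by norm_num)) (expm_ge (by norm_num) (by norm_num) (by norm_num) (by norm_num)) (by norm_num) (by norm_num) (by norm_num)
    (by norm_num) (by norm_num) (by norm_num)
  have hy2 : sy κ t ≤ -0.36 := syL_le h 0.42 0.44 0.71239 0.36 0.69767 0.69768 0.57082 0.59802 hk1 hk2 (by linarith) (by norm_num) (by norm_num) (by norm_num)
    (expm_ge (by norm_num) (by norm_num) (by norm_num) (by norm_num)) (expm_le (by norm_num) (by norm_num) (by norm_num)) (by norm_num)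
    (by norm_num) (by norm_num) (by norm_num) (by norm_num) (by norm_num) (by norm_num)
  exact ⟨hy1, hy2⟩

theorem innE {β r h t κ : ℝ} (hh : h = 2 * Real.pi / (3 : ℕ)) (hβ : 0 < β) (hr : 10 ≤ r) (hκ : κ = β * r)
    (hk1 : 0.42 ≤ κ) (hk2 : κ ≤ 0.44) (hT1 : 1.167 ≤ t + κ) (hT2 : t + κ ≤ 1.382) :
    ‖Xf β r h t (-1)‖ ≤ 0.00686 * ‖Xf β r h t 0‖ ∧ ‖Xf β r h (t + β) (-1)‖ ≤ 0.00686 * ‖Xf β r h t 0‖ := by
  obtain ⟨q1, q2, q3⟩ := b3_h hh
  have hR0 := b3_R0 hβ hr hκ
  have hR := b3_R hβ hr hκ (by linarith)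
  have hD0 : DomR κ (t - h) := b3_dom (by linarith) (by linarith) (Or.inl (by linarith))
  have hy := yI hD0 hk1 hk2 (by linarith) (by linarith)
  have hY : 0.9147 * Real.exp (r * 0.49228) ≤ ‖Xf β r h t 0‖ :=
    b3_lo hβ hr hκ (k := 0) (t' := t - h) (by push_cast; ring) hD0 0.17 0.6778 0.9147 0.49228 (by norm_num)
      (T3_06_p0 hD0 hβ hk1 hk2 (by linarith) (by linarith) hR0 hR)
      (v5_Dup hD0 0.44 (-0.594) (-0.36) 1.81122 1.43333 0.6778 hk2 hy.1 hy.2 (ex_up 0.594 (by norm_num) (by norm_num) (by norm_num) (by norm_num)) (ex_up 0.36 (by norm_num) (by norm_num) (by norm_num) (by norm_num)) (by norm_num) (by norm_num) (by norm_num)) (by norm_num) (by norm_num)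
      (b3_Vlo hD0 0.42 0.44 (-0.9274) (-0.71239) 1.13 0.12222 0.8728 0.64267 0.44213 0.49228 hk1 hk2 (by linarith) (by linarith) (by norm_num) (ex_lp 0.12222 (by norm_num) (by norm_num) (by norm_num)) (by norm_num) (by norm_num) (by norm_num) (by norm_num) (by norm_num) (by norm_num) (by norm_num) (by norm_num) (ex_um 0.44213 (by norm_num) (by norm_num) (by norm_num) (by norm_num)) (by norm_num))
  constructor
  · exact b3_cmp 1 0 0.01202 0.44228 0 0.006855 0.00686 hr ((b3_Xm hh).trans_le (b3_U1 0.42 0.44 3.26139 3.4764 1.25059 0.08369 1.18075 0.9491 0.00001 0.3203 0.000001 0.5216 hβ hr hκ (by norm_num) hk1 hk2 (by linarith) (by linarith) (by norm_num) (by norm_num) (by norm_num) (by norm_num) (by norm_num) (by norm_num) (by norm_num) (by norm_num) (by norm_num) (by norm_num) (by norm_num) (by norm_num) (by norm_num) (ex_un 9 0.491 (by norm_num) (by norm_num) (by norm_num) (by norm_num)) (v5_hump 1.4795 22.727 4.7673 0.0000003148 0.000001 hβ hr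 hκ hk1 hk2 (by norm_num) (tb := 3.4764) (by linarith) (by norm_num) (by norm_num) (by norm_num) (by norm_num) (by norm_num) (by norm_num) (by norm_num) (ex_un 14 0.99 (by norm_num) (by norm_num) (by norm_num) (by norm_num)) (by norm_num)) (by norm_num))) hY (by norm_num) (by norm_num) (by norm_num) (by norm_num) (by norm_num) (by norm_num) (by norm_num) (by norm_num) (by norm_num) (ex_un 4 0.4228 (by norm_num) (by norm_num) (by norm_num) (by norm_num)) (by norm_num) (by norm_num)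
  · exact b3_cmp 1 0 0.01202 0.44228 0 0.006855 0.00686 hr ((b3_Xm hh).trans_le (b3_U1 0.42 0.44 3.26139 3.5204 1.25059 0.08369 1.18075 0.9491 0.00001 0.3203 0.000001 0.5216 hβ hr hκ (by norm_num) hk1 hk2 (by linarith) (by linarith) (by norm_num) (by norm_num) (by norm_num) (by norm_num) (by norm_num) (by norm_num) (by norm_num) (by norm_num) (by norm_num) (by norm_num) (by norm_num) (by norm_num) (by norm_num) (ex_un 9 0.491 (by norm_num) (by norm_num) (by norm_num) (by norm_num)) (v5_hump 1.4355 22.727 4.7673 0.0000003148 0.000001 hβ hr hκ hk1 hk2 (by norm_num) (tb := 3.5204) (by linarith) (by norm_num) (by norm_num) (by norm_num) (by norm_num) (by norm_num) (by norm_num) (by norm_num) (ex_un 14 0.99 (by norm_num) (by norm_num) (by norm_num) (by norm_num)) (by norm_num)) (by norm_num))) hY (by norm_num) (by norm_num) (by norm_num) (by norm_num) (by norm_num) (by norm_num) (by norm_num) (by norm_num) (by norm_num) (ex_un 4 0.4228 (by norm_num)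 (by norm_num) (by norm_num) (by norm_num)) (by norm_num) (by norm_num)

private theorem yA0 {κ t : ℝ} (h : DomR κ t) (hk1 : 0.42 ≤ κ) (hk2 : κ ≤ 0.44) (ht1 : 1.167 ≤ t + κ) (ht2 : t + κ ≤ 1.182) :
    0.259 ≤ sy κ t ∧ sy κ t ≤ 0.273 := by
  have hy1 : 0.259 ≤ sy κ t := syR_ge h 0.42 0.44 1.167 0.259 1.29563 1.29564 0.76265 0.79898 hk1 hk2 (by linarith) (by norm_num) (by norm_num)
    (expn_ge (by norm_num) (by norm_num)) (expn_le (by norm_num) (by norm_num) (by norm_num)) (by norm_num)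
    (by norm_num) (by norm_num) (by norm_num) (by norm_num) (by norm_num) (by norm_num)
  have hy2 : sy κ t ≤ 0.273 := syR_ang2 h 0.42 0.44 1.182 0.952 0.5811 0.8148 0.273 0.7611 1.3139 hk1 hk2 (by linarith) (by norm_num) (by norm_num) (by norm_num)
    (cos_le_num (by norm_num)) (sin_le_num (by norm_num) (by norm_num)) (expm_le (by norm_num) (by norm_num) (by norm_num))
    (expn_ge (by norm_num) (by norm_num)) (by norm_num) (by norm_num) (by norm_num) (by norm_num) (by norm_num)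
  exact ⟨hy1, hy2⟩

private theorem yB0 {κ t : ℝ} (h : DomR κ t) (hk1 : 0.42 ≤ κ) (hk2 : κ ≤ 0.44) (ht1 : -0.9274 ≤ t + κ) (ht2 : t + κ ≤ -0.91239) :
    (-0.594) ≤ sy κ t ∧ sy κ t ≤ (-0.523) := by
  have hy1 : -0.594 ≤ sy κ t := syL_ang2 h 0.42 0.44 0.9274 0.84 0.6674 0.7448 0.594 1.81121 0.55211 hk1 hk2 (by linarith) (by norm_num) (by norm_num) (by norm_num) (by norm_num)
    (cos_ge_num (by norm_num) (by norm_num)) (sin_le_num (by norm_num) (by norm_num))
    (expn_ge (by norm_num) (by norm_num)) (expm_ge (by norm_num) (by norm_num) (by norm_num) (by norm_num)) (by norm_num) (by norm_num) (by norm_num)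
    (by norm_num) (by norm_num) (by norm_num)
  have hy2 : sy κ t ≤ -0.523 := syL_le h 0.42 0.44 0.91239 0.523 0.59273 0.59275 0.70454 0.73812 hk1 hk2 (by linarith) (by norm_num) (by norm_num) (by norm_num)
    (expm_ge (by norm_num) (by norm_num) (by norm_num) (by norm_num)) (expm_le (by norm_num) (by norm_num) (by norm_num)) (by norm_num)
    (by norm_num) (by norm_num) (by norm_num) (by norm_num) (by norm_num) (by norm_num)
  exact ⟨hy1, hy2⟩

theorem pc0 {β r h t κ : ℝ} (hh : h = 2 * Real.pi / (3 : ℕ)) (hβ : 0 < β) (hr : 10 ≤ r) (hκ : κ = β * r)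
    (hk1 : 0.42 ≤ κ) (hk2 : κ ≤ 0.44) (hT1 : 1.167 ≤ t + κ) (hT2 : t + κ ≤ 1.182) :
    Xf β r h t 0 ≠ 0 ∧ r * 0.1236 ≤ (Ld β r h t 1 - Ld β r h t 0).im ∧
      ‖(((-1 : ℤ) : ℂ) - 1) * Ld β r h t 0 - ((-1 : ℤ) : ℂ) * Ld β r h t 1‖ ≤ r * 7.82 := by
  obtain ⟨q1, q2, q3⟩ := b3_h hh
  have hR0 := b3_R0 hβ hr hκ
  have hR := b3_R hβ hr hκ (by linarith)
  have hD1 : DomR κ t := b3_dom (by linarith) (by linarith) (Or.inl (by linarith))
  have hD0 : DomR κ (t - h) := b3_dom (by linarith) (by linarith) (Or.inl (by linarith))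
  have y1 := yA0 hD1 hk1 hk2 (by linarith) (by linarith)
  have y0 := yB0 hD0 hk1 hk2 (by linarith) (by linarith)
  have j1 := T3_06_d1_0 hD1 hβ hk1 hk2 (by linarith) (by linarith) hR0 hR
  exact b3_piece 0.42 0.44 0.259 0.273 0.266 0.76643 0.77183 0.7611 0.3397 1.623 1.6582 0.04 0.025 0.025 0.6411 0.171 0 0 (-0.594) (-0.523) (-0.558) 1.74717 1.81122 0.797 0.3892 0.03 0.29 0.17 11.6466 14.879 0.7256 1.4859 0.1236 7.82
    hβ hr hκ (by norm_num) hk1 hk2 hD1 hD0 j1 (j1 _ (by rw [sub_self, norm_zero]; norm_num))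
    (T3_06_d0_0 hD0 hβ hk1 hk2 (by linarith) (by linarith) hR0 hR)
    (T3_06_p0 hD0 hβ hk1 hk2 (by linarith) (by linarith) hR0 hR)
    y1.1 y1.2 y0.1 y0.2 (by norm_num)
    (ex_um 0.259 (by norm_num) (by norm_num) (by norm_num) (by norm_num)) (ex_um 0.273 (by norm_num) (by norm_num) (by norm_num) (by norm_num)) (ex_lm 0.266 (by norm_num) (by norm_num) (by norm_num) (by norm_num) (by norm_num)) (by norm_num) (by norm_num) (by norm_num) (by norm_num) (by norm_num) (by norm_num) (by norm_num) (by norm_num)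
    (by norm_num) (by norm_num) (by norm_num) (by norm_num) (by norm_num) (by norm_num) (by norm_num) (by norm_num) (by norm_num) (by norm_num)
    (ex_up 0.594 (by norm_num) (by norm_num) (by norm_num) (by norm_num)) (ex_lp 0.558 (by norm_num) (by norm_num) (by norm_num)) (by norm_num) (by norm_num) (by norm_num) (by norm_num) (by norm_num) (by norm_num)
    (by norm_num) (by norm_num) (by norm_num) (by norm_num) (by norm_num) (by norm_num) (by norm_num) (by norm_num) (by norm_num) (by norm_num) (by norm_num)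
    (by norm_num) (by norm_num) (by norm_num) (by norm_num)

private theorem yA1 {κ t : ℝ} (h : DomR κ t) (hk1 : 0.42 ≤ κ) (hk2 : κ ≤ 0.44) (ht1 : 1.182 ≤ t + κ) (ht2 : t + κ ≤ 1.197) :
    0.259 ≤ sy κ t ∧ sy κ t ≤ 0.275 := by
  have hy1 : 0.259 ≤ sy κ t := syR_ge h 0.42 0.44 1.182 0.259 1.29563 1.29564 0.76265 0.79898 hk1 hk2 (by linarith) (by norm_num) (by norm_num)
    (expn_ge (by norm_num) (by norm_num)) (expn_le (by norm_num) (by norm_num) (by norm_num)) (by norm_num)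
    (by norm_num) (by norm_num) (by norm_num) (by norm_num) (by norm_num) (by norm_num)
  have hy2 : sy κ t ≤ 0.275 := syR_ang2 h 0.42 0.44 1.197 0.966 0.5698 0.8228 0.275 0.75958 1.31653 hk1 hk2 (by linarith) (by norm_num) (by norm_num) (by norm_num)
    (cos_le_num (by norm_num)) (sin_le_num (by norm_num) (by norm_num)) (expm_le (by norm_num) (by norm_num) (by norm_num))
    (expn_ge (by norm_num) (by norm_num)) (by norm_num) (by norm_num) (by norm_num) (by norm_num) (by norm_num)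
  exact ⟨hy1, hy2⟩

private theorem yB1 {κ t : ℝ} (h : DomR κ t) (hk1 : 0.42 ≤ κ) (hk2 : κ ≤ 0.44) (ht1 : -0.9124 ≤ t + κ) (ht2 : t + κ ≤ -0.89739) :
    (-0.576) ≤ sy κ t ∧ sy κ t ≤ (-0.509) := by
  have hy1 : -0.576 ≤ sy κ t := syL_ang2 h 0.42 0.44 0.9124 0.826 0.6778 0.7353 0.576 1.7789 0.56214 hk1 hk2 (by linarith) (by norm_num) (by norm_num) (by norm_num) (by norm_num)
    (cos_ge_num (by norm_num) (by norm_num)) (sin_le_num (by norm_num) (by norm_num))
    (expn_ge (by norm_num) (by norm_num)) (expm_ge (by norm_num) (by norm_num) (by norm_num) (by norm_num)) (by norm_num) (by norm_num) (by norm_num)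
    (by norm_num) (by norm_num) (by norm_num)
  have hy2 : sy κ t ≤ -0.509 := syL_le h 0.42 0.44 0.89739 0.509 0.60109 0.6011 0.69535 0.72848 hk1 hk2 (by linarith) (by norm_num) (by norm_num) (by norm_num)
    (expm_ge (by norm_num) (by norm_num) (by norm_num) (by norm_num)) (expm_le (by norm_num) (by norm_num) (by norm_num)) (by norm_num)
    (by norm_num) (by norm_num) (by norm_num) (by norm_num) (by norm_num) (by norm_num)
  exact ⟨hy1, hy2⟩

theorem pc1 {β r h t κ : ℝ} (hh : h = 2 * Real.pi / (3 : ℕ)) (hβ : 0 < β) (hr : 10 ≤ r) (hκ : κ = β * r)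
    (hk1 : 0.42 ≤ κ) (hk2 : κ ≤ 0.44) (hT1 : 1.182 ≤ t + κ) (hT2 : t + κ ≤ 1.197) :
    Xf β r h t 0 ≠ 0 ∧ r * 0.1236 ≤ (Ld β r h t 1 - Ld β r h t 0).im ∧
      ‖(((-1 : ℤ) : ℂ) - 1) * Ld β r h t 0 - ((-1 : ℤ) : ℂ) * Ld β r h t 1‖ ≤ r * 7.82 := by
  obtain ⟨q1, q2, q3⟩ := b3_h hh
  have hR0 := b3_R0 hβ hr hκ
  have hR := b3_R hβ hr hκ (by linarith)
  have hD1 : DomR κ t := b3_dom (by linarith) (by linarith) (Or.inl (by linarith))
  have hD0 : DomR κ (t - h) := b3_dom (by linarith) (by linarith) (Or.inl (by linarith))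
  have y1 := yA1 hD1 hk1 hk2 (by linarith) (by linarith)
  have y0 := yB1 hD0 hk1 hk2 (by linarith) (by linarith)
  have j1 := T3_06_d1_0 hD1 hβ hk1 hk2 (by linarith) (by linarith) hR0 hR
  exact b3_piece 0.42 0.44 0.259 0.275 0.267 0.76567 0.77183 0.75958 0.3397 1.623 1.6617 0.04 0.025 0.025 0.6411 0.171 0 0 (-0.576) (-0.509) (-0.542) 1.71943 1.77891 0.7828 0.4049 0.03 0.29 0.17 11.6466 14.3277 0.7127 1.3779 0.1236 7.82
    hβ hr hκ (by norm_num) hk1 hk2 hD1 hD0 j1 (j1 _ (by rw [sub_self, norm_zero]; norm_num))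
    (T3_06_d0_0 hD0 hβ hk1 hk2 (by linarith) (by linarith) hR0 hR)
    (T3_06_p0 hD0 hβ hk1 hk2 (by linarith) (by linarith) hR0 hR)
    y1.1 y1.2 y0.1 y0.2 (by norm_num)
    (ex_um 0.259 (by norm_num) (by norm_num) (by norm_num) (by norm_num)) (ex_um 0.275 (by norm_num) (by norm_num) (by norm_num) (by norm_num)) (ex_lm 0.267 (by norm_num) (by norm_num) (by norm_num) (by norm_num) (by norm_num)) (by norm_num) (by norm_num) (by norm_num) (by norm_num) (by norm_num) (by norm_num) (by norm_num) (by norm_num)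
    (by norm_num) (by norm_num) (by norm_num) (by norm_num) (by norm_num) (by norm_num) (by norm_num) (by norm_num) (by norm_num) (by norm_num)
    (ex_up 0.576 (by norm_num) (by norm_num) (by norm_num) (by norm_num)) (ex_lp 0.542 (by norm_num) (by norm_num) (by norm_num)) (by norm_num) (by norm_num) (by norm_num) (by norm_num) (by norm_num) (by norm_num)
    (by norm_num) (by norm_num) (by norm_num) (by norm_num) (by norm_num) (by norm_num) (by norm_num) (by norm_num) (by norm_num) (by norm_num) (by norm_num)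
    (by norm_num) (by norm_num) (by norm_num) (by norm_num)

private theorem yA2 {κ t : ℝ} (h : DomR κ t) (hk1 : 0.42 ≤ κ) (hk2 : κ ≤ 0.44) (ht1 : 1.197 ≤ t + κ) (ht2 : t + κ ≤ 1.214) :
    0.259 ≤ sy κ t ∧ sy κ t ≤ 0.277 := by
  have hy1 : 0.259 ≤ sy κ t := syR_ge h 0.42 0.44 1.197 0.259 1.29563 1.29564 0.76265 0.79898 hk1 hk2 (by linarith) (by norm_num) (by norm_num)
    (expn_ge (by norm_num) (by norm_num)) (expn_le (by norm_num) (by norm_num) (by norm_num)) (by norm_num)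
    (by norm_num) (by norm_num) (by norm_num) (by norm_num) (by norm_num) (by norm_num)
  have hy2 : sy κ t ≤ 0.277 := syR_ang2 h 0.42 0.44 1.214 0.979 0.5591 0.8302 0.277 0.75806 1.31916 hk1 hk2 (by linarith) (by norm_num) (by norm_num) (by norm_num)
    (cos_le_num (by norm_num)) (sin_le_num (by norm_num) (by norm_num)) (expm_le (by norm_num) (by norm_num) (by norm_num))
    (expn_ge (by norm_num) (by norm_num)) (by norm_num) (by norm_num) (by norm_num) (by norm_num) (by norm_num)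
  exact ⟨hy1, hy2⟩

private theorem yB2 {κ t : ℝ} (h : DomR κ t) (hk1 : 0.42 ≤ κ) (hk2 : κ ≤ 0.44) (ht1 : -0.8974 ≤ t + κ) (ht2 : t + κ ≤ -0.88039) :
    (-0.559) ≤ sy κ t ∧ sy κ t ≤ (-0.494) := by
  have hy1 : -0.559 ≤ sy κ t := syL_ang2 h 0.42 0.44 0.8974 0.813 0.6873 0.7264 0.559 1.74891 0.57178 hk1 hk2 (by linarith) (by norm_num) (by norm_num) (by norm_num) (by norm_num)
    (cos_ge_num (by norm_num) (by norm_num)) (sin_le_num (by norm_num) (by norm_num))
    (expn_ge (by norm_num) (by norm_num)) (expm_ge (by norm_num) (by norm_num) (by norm_num) (by norm_num)) (by norm_num) (by norm_num) (by norm_num)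
    (by norm_num) (by norm_num) (by norm_num)
  have hy2 : sy κ t ≤ -0.494 := syL_le h 0.42 0.44 0.88039 0.494 0.61018 0.61019 0.68506 0.7177 hk1 hk2 (by linarith) (by norm_num) (by norm_num) (by norm_num)
    (expm_ge (by norm_num) (by norm_num) (by norm_num) (by norm_num)) (expm_le (by norm_num) (by norm_num) (by norm_num)) (by norm_num)
    (by norm_num) (by norm_num) (by norm_num) (by norm_num) (by norm_num) (by norm_num)
  exact ⟨hy1, hy2⟩

theorem pc2 {β r h t κ : ℝ} (hh : h = 2 * Real.pi / (3 : ℕ)) (hβ : 0 < β) (hr : 10 ≤ r) (hκ : κ = β * r)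
    (hk1 : 0.42 ≤ κ) (hk2 : κ ≤ 0.44) (hT1 : 1.197 ≤ t + κ) (hT2 : t + κ ≤ 1.214) :
    Xf β r h t 0 ≠ 0 ∧ r * 0.1236 ≤ (Ld β r h t 1 - Ld β r h t 0).im ∧
      ‖(((-1 : ℤ) : ℂ) - 1) * Ld β r h t 0 - ((-1 : ℤ) : ℂ) * Ld β r h t 1‖ ≤ r * 7.82 := by
  obtain ⟨q1, q2, q3⟩ := b3_h hh
  have hR0 := b3_R0 hβ hr hκ
  have hR := b3_R hβ hr hκ (by linarith)
  have hD1 : DomR κ t := b3_dom (by linarith) (by linarith) (Or.inl (by linarith))
  have hD0 : DomR κ (t - h) := b3_dom (by linarith) (by linarith) (Or.inl (by linarith))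
  have y1 := yA2 hD1 hk1 hk2 (by linarith) (by linarith)
  have y0 := yB2 hD0 hk1 hk2 (by linarith) (by linarith)
  have j1 := T3_06_d1_1 hD1 hβ hk1 hk2 (by linarith) (by linarith) hR0 hR
  exact b3_piece 0.42 0.44 0.259 0.277 0.268 0.7649 0.77183 0.75806 0.3397 1.623 1.6653 0.08 0.105 0.105 1.4665 0.3911 0 0 (-0.559) (-0.494) (-0.526) 1.69214 1.74893 0.7696 0.4204 0.04 0.26 0.17 7.8314 9.2956 0.7037 1.2883 0.1236 7.82
    hβ hr hκ (by norm_num) hk1 hk2 hD1 hD0 j1 (j1 _ (by rw [sub_self, norm_zero]; norm_num))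
    (T3_06_d0_1 hD0 hβ hk1 hk2 (by linarith) (by linarith) hR0 hR)
    (T3_06_p0 hD0 hβ hk1 hk2 (by linarith) (by linarith) hR0 hR)
    y1.1 y1.2 y0.1 y0.2 (by norm_num)
    (ex_um 0.259 (by norm_num) (by norm_num) (by norm_num) (by norm_num)) (ex_um 0.277 (by norm_num) (by norm_num) (by norm_num) (by norm_num)) (ex_lm 0.268 (by norm_num) (by norm_num) (by norm_num) (by norm_num) (by norm_num)) (by norm_num) (by norm_num) (by norm_num) (by norm_num) (by norm_num) (by norm_num) (by norm_num) (by norm_num)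
    (by norm_num) (by norm_num) (by norm_num) (by norm_num) (by norm_num) (by norm_num) (by norm_num) (by norm_num) (by norm_num) (by norm_num)
    (ex_up 0.559 (by norm_num) (by norm_num) (by norm_num) (by norm_num)) (ex_lp 0.526 (by norm_num) (by norm_num) (by norm_num)) (by norm_num) (by norm_num) (by norm_num) (by norm_num) (by norm_num) (by norm_num)
    (by norm_num) (by norm_num) (by norm_num) (by norm_num) (by norm_num) (by norm_num) (by norm_num) (by norm_num) (by norm_num) (by norm_num) (by norm_num)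
    (by norm_num) (by norm_num) (by norm_num) (by norm_num)

private theorem yA3 {κ t : ℝ} (h : DomR κ t) (hk1 : 0.42 ≤ κ) (hk2 : κ ≤ 0.44) (ht1 : 1.214 ≤ t + κ) (ht2 : t + κ ≤ 1.232) :
    0.259 ≤ sy κ t ∧ sy κ t ≤ 0.279 := by
  have hy1 : 0.259 ≤ sy κ t := syR_ge h 0.42 0.44 1.214 0.259 1.29563 1.29564 0.76265 0.79898 hk1 hk2 (by linarith) (by norm_num) (by norm_num)
    (expn_ge (by norm_num) (by norm_num)) (expn_le (by norm_num) (by norm_num) (by norm_num)) (by norm_num)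
    (by norm_num) (by norm_num) (by norm_num) (by norm_num) (by norm_num) (by norm_num)
  have hy2 : sy κ t ≤ 0.279 := syR_ang2 h 0.42 0.44 1.232 0.993 0.5475 0.8379 0.279 0.75654 1.3218 hk1 hk2 (by linarith) (by norm_num) (by norm_num) (by norm_num)
    (cos_le_num (by norm_num)) (sin_le_num (by norm_num) (by norm_num)) (expm_le (by norm_num) (by norm_num) (by norm_num))
    (expn_ge (by norm_num) (by norm_num)) (by norm_num) (by norm_num) (by norm_num) (by norm_num) (by norm_num)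
  exact ⟨hy1, hy2⟩

private theorem yB3 {κ t : ℝ} (h : DomR κ t) (hk1 : 0.42 ≤ κ) (hk2 : κ ≤ 0.44) (ht1 : -0.8804 ≤ t + κ) (ht2 : t + κ ≤ -0.86239) :
    (-0.541) ≤ sy κ t ∧ sy κ t ≤ (-0.478) := by
  have hy1 : -0.541 ≤ sy κ t := syL_ang2 h 0.42 0.44 0.8804 0.797 0.6988 0.7154 0.541 1.71772 0.58216 hk1 hk2 (by linarith) (by norm_num) (by norm_num) (by norm_num) (by norm_num)
    (cos_ge_num (by norm_num) (by norm_num)) (sin_le_num (by norm_num) (by norm_num))
    (expn_ge (by norm_num) (by norm_num)) (expm_ge (by norm_num) (by norm_num) (by norm_num) (by norm_num)) (by norm_num) (by norm_num) (by norm_num)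
    (by norm_num) (by norm_num) (by norm_num)
  have hy2 : sy κ t ≤ -0.478 := syL_le h 0.42 0.44 0.86239 0.478 0.62002 0.62003 0.67356 0.70566 hk1 hk2 (by linarith) (by norm_num) (by norm_num) (by norm_num)
    (expm_ge (by norm_num) (by norm_num) (by norm_num) (by norm_num)) (expm_le (by norm_num) (by norm_num) (by norm_num)) (by norm_num)
    (by norm_num) (by norm_num) (by norm_num) (by norm_num) (by norm_num) (by norm_num)
  exact ⟨hy1, hy2⟩

theorem pc3 {β r h t κ : ℝ} (hh : h = 2 * Real.pi / (3 : ℕ)) (hβ : 0 < β) (hr : 10 ≤ r) (hκ : κ = β * r)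
    (hk1 : 0.42 ≤ κ) (hk2 : κ ≤ 0.44) (hT1 : 1.214 ≤ t + κ) (hT2 : t + κ ≤ 1.232) :
    Xf β r h t 0 ≠ 0 ∧ r * 0.1236 ≤ (Ld β r h t 1 - Ld β r h t 0).im ∧
      ‖(((-1 : ℤ) : ℂ) - 1) * Ld β r h t 0 - ((-1 : ℤ) : ℂ) * Ld β r h t 1‖ ≤ r * 7.82 := by
  obtain ⟨q1, q2, q3⟩ := b3_h hh
  have hR0 := b3_R0 hβ hr hκ
  have hR := b3_R hβ hr hκ (by linarith)
  have hD1 : DomR κ t := b3_dom (by linarith) (by linarith) (Or.inl (by linarith))
  have hD0 : DomR κ (t - h) := b3_dom (by linarith) (by linarith) (Or.inl (by linarith))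
  have y1 := yA3 hD1 hk1 hk2 (by linarith) (by linarith)
  have y0 := yB3 hD0 hk1 hk2 (by linarith) (by linarith)
  have j1 := T3_06_d1_1 hD1 hβ hk1 hk2 (by linarith) (by linarith) hR0 hR
  exact b3_piece 0.42 0.44 0.259 0.279 0.269 0.76414 0.77183 0.75654 0.3397 1.623 1.6689 0.08 0.105 0.105 1.4665 0.3911 0 0 (-0.541) (-0.478) (-0.509) 1.66362 1.71773 0.7559 0.4374 0.04 0.26 0.17 7.8314 8.9509 0.6935 1.1985 0.1236 7.82
    hβ hr hκ (by norm_num) hk1 hk2 hD1 hD0 j1 (j1 _ (by rw [sub_self, norm_zero]; norm_num))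
    (T3_06_d0_1 hD0 hβ hk1 hk2 (by linarith) (by linarith) hR0 hR)
    (T3_06_p0 hD0 hβ hk1 hk2 (by linarith) (by linarith) hR0 hR)
    y1.1 y1.2 y0.1 y0.2 (by norm_num)
    (ex_um 0.259 (by norm_num) (by norm_num) (by norm_num) (by norm_num)) (ex_um 0.279 (by norm_num) (by norm_num) (by norm_num) (by norm_num)) (ex_lm 0.269 (by norm_num) (by norm_num) (by norm_num) (by norm_num) (by norm_num)) (by norm_num) (by norm_num) (by norm_num) (by norm_num) (by norm_num) (by norm_num) (by norm_num) (by norm_num)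
    (by norm_num) (by norm_num) (by norm_num) (by norm_num) (by norm_num) (by norm_num) (by norm_num) (by norm_num) (by norm_num) (by norm_num)
    (ex_up 0.541 (by norm_num) (by norm_num) (by norm_num) (by norm_num)) (ex_lp 0.509 (by norm_num) (by norm_num) (by norm_num)) (by norm_num) (by norm_num) (by norm_num) (by norm_num) (by norm_num) (by norm_num)
    (by norm_num) (by norm_num) (by norm_num) (by norm_num) (by norm_num) (by norm_num) (by norm_num) (by norm_num) (by norm_num) (by norm_num) (by norm_num)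
    (by norm_num) (by norm_num) (by norm_num) (by norm_num)

private theorem yA4 {κ t : ℝ} (h : DomR κ t) (hk1 : 0.42 ≤ κ) (hk2 : κ ≤ 0.44) (ht1 : 1.232 ≤ t + κ) (ht2 : t + κ ≤ 1.25) :
    0.259 ≤ sy κ t ∧ sy κ t ≤ 0.281 := by
  have hy1 : 0.259 ≤ sy κ t := syR_ge h 0.42 0.44 1.232 0.259 1.29563 1.29564 0.76265 0.79898 hk1 hk2 (by linarith) (by norm_num) (by norm_num)
    (expn_ge (by norm_num) (by norm_num)) (expn_le (by norm_num) (by norm_num) (by norm_num)) (by norm_num)
    (by norm_num) (by norm_num) (by norm_num) (by norm_num) (by norm_num) (by norm_num)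
  have hy2 : sy κ t ≤ 0.281 := syR_ang2 h 0.42 0.44 1.25 1.007 0.5359 0.8455 0.281 0.75503 1.32445 hk1 hk2 (by linarith) (by norm_num) (by norm_num) (by norm_num)
    (cos_le_num (by norm_num)) (sin_le_num (by norm_num) (by norm_num)) (expm_le (by norm_num) (by norm_num) (by norm_num))
    (expn_ge (by norm_num) (by norm_num)) (by norm_num) (by norm_num) (by norm_num) (by norm_num) (by norm_num)
  exact ⟨hy1, hy2⟩

private theorem yB4 {κ t : ℝ} (h : DomR κ t) (hk1 : 0.42 ≤ κ) (hk2 : κ ≤ 0.44) (ht1 : -0.8624 ≤ t + κ) (ht2 : t + κ ≤ -0.84439) :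
    (-0.522) ≤ sy κ t ∧ sy κ t ≤ (-0.463) := by
  have hy1 : -0.522 ≤ sy κ t := syL_ang2 h 0.42 0.44 0.8624 0.78 0.7109 0.7034 0.522 1.68539 0.59333 hk1 hk2 (by linarith) (by norm_num) (by norm_num) (by norm_num) (by norm_num)
    (cos_ge_num (by norm_num) (by norm_num)) (sin_le_num (by norm_num) (by norm_num))
    (expn_ge (by norm_num) (by norm_num)) (expm_ge (by norm_num) (by norm_num) (by norm_num) (by norm_num)) (by norm_num) (by norm_num) (by norm_num)
    (by norm_num) (by norm_num) (by norm_num)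
  have hy2 : sy κ t ≤ -0.463 := syL_le h 0.42 0.44 0.84439 0.463 0.62939 0.6294 0.66228 0.69384 hk1 hk2 (by linarith) (by norm_num) (by norm_num) (by norm_num)
    (expm_ge (by norm_num) (by norm_num) (by norm_num) (by norm_num)) (expm_le (by norm_num) (by norm_num) (by norm_num)) (by norm_num)
    (by norm_num) (by norm_num) (by norm_num) (by norm_num) (by norm_num) (by norm_num)
  exact ⟨hy1, hy2⟩

theorem pc4 {β r h t κ : ℝ} (hh : h = 2 * Real.pi / (3 : ℕ)) (hβ : 0 < β) (hr : 10 ≤ r) (hκ : κ = β * r)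
    (hk1 : 0.42 ≤ κ) (hk2 : κ ≤ 0.44) (hT1 : 1.232 ≤ t + κ) (hT2 : t + κ ≤ 1.25) :
    Xf β r h t 0 ≠ 0 ∧ r * 0.1236 ≤ (Ld β r h t 1 - Ld β r h t 0).im ∧
      ‖(((-1 : ℤ) : ℂ) - 1) * Ld β r h t 0 - ((-1 : ℤ) : ℂ) * Ld β r h t 1‖ ≤ r * 7.82 := by
  obtain ⟨q1, q2, q3⟩ := b3_h hh
  have hR0 := b3_R0 hβ hr hκ
  have hR := b3_R hβ hr hκ (by linarith)
  have hD1 : DomR κ t := b3_dom (by linarith) (by linarith) (Or.inl (by linarith))
  have hD0 : DomR κ (t - h) := b3_dom (by linarith) (by linarith) (Or.inl (by linarith))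
  have y1 := yA4 hD1 hk1 hk2 (by linarith) (by linarith)
  have y0 := yB4 hD0 hk1 hk2 (by linarith) (by linarith)
  have j1 := T3_06_d1_1 hD1 hβ hk1 hk2 (by linarith) (by linarith) hR0 hR
  exact b3_piece 0.42 0.44 0.259 0.281 0.27 0.76337 0.77183 0.75503 0.3397 1.623 1.6724 0.08 0.105 0.105 1.4665 0.3911 0 0 (-0.522) (-0.463) (-0.492) 1.63558 1.6854 0.7416 0.4562 0.04 0.26 0.17 7.8314 8.5987 0.6772 1.1009 0.1236 7.82
    hβ hr hκ (by norm_num) hk1 hk2 hD1 hD0 j1 (j1 _ (by rw [sub_self, norm_zero]; norm_num))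
    (T3_06_d0_1 hD0 hβ hk1 hk2 (by linarith) (by linarith) hR0 hR)
    (T3_06_p0 hD0 hβ hk1 hk2 (by linarith) (by linarith) hR0 hR)
    y1.1 y1.2 y0.1 y0.2 (by norm_num)
    (ex_um 0.259 (by norm_num) (by norm_num) (by norm_num) (by norm_num)) (ex_um 0.281 (by norm_num) (by norm_num) (by norm_num) (by norm_num)) (ex_lm 0.27 (by norm_num) (by norm_num) (by norm_num) (by norm_num) (by norm_num)) (by norm_num) (by norm_num) (by norm_num) (by norm_num) (by norm_num) (by norm_num) (by norm_num) (by norm_num)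
    (by norm_num) (by norm_num) (by norm_num) (by norm_num) (by norm_num) (by norm_num) (by norm_num) (by norm_num) (by norm_num) (by norm_num)
    (ex_up 0.522 (by norm_num) (by norm_num) (by norm_num) (by norm_num)) (ex_lp 0.492 (by norm_num) (by norm_num) (by norm_num)) (by norm_num) (by norm_num) (by norm_num) (by norm_num) (by norm_num) (by norm_num)
    (by norm_num) (by norm_num) (by norm_num) (by norm_num) (by norm_num) (by norm_num) (by norm_num) (by norm_num) (by norm_num) (by norm_num) (by norm_num)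
    (by norm_num) (by norm_num) (by norm_num) (by norm_num)

private theorem yA5 {κ t : ℝ} (h : DomR κ t) (hk1 : 0.42 ≤ κ) (hk2 : κ ≤ 0.44) (ht1 : 1.25 ≤ t + κ) (ht2 : t + κ ≤ 1.267) :
    0.259 ≤ sy κ t ∧ sy κ t ≤ 0.283 := by
  have hy1 : 0.259 ≤ sy κ t := syR_ge h 0.42 0.44 1.25 0.259 1.29563 1.29564 0.76265 0.79898 hk1 hk2 (by linarith) (by norm_num) (by norm_num)
    (expn_ge (by norm_num) (by norm_num)) (expn_le (by norm_num) (by norm_num) (by norm_num)) (by norm_num)
    (by norm_num) (by norm_num) (by norm_num) (by norm_num) (by norm_num) (by norm_num)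
  have hy2 : sy κ t ≤ 0.283 := syR_ang2 h 0.42 0.44 1.267 1.022 0.5233 0.8534 0.283 0.75352 1.3271 hk1 hk2 (by linarith) (by norm_num) (by norm_num) (by norm_num)
    (cos_le_num (by norm_num)) (sin_le_num (by norm_num) (by norm_num)) (expm_le (by norm_num) (by norm_num) (by norm_num))
    (expn_ge (by norm_num) (by norm_num)) (by norm_num) (by norm_num) (by norm_num) (by norm_num) (by norm_num)
  exact ⟨hy1, hy2⟩

private theorem yB5 {κ t : ℝ} (h : DomR κ t) (hk1 : 0.42 ≤ κ) (hk2 : κ ≤ 0.44) (ht1 : -0.8444 ≤ t + κ) (ht2 : t + κ ≤ -0.82739) :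
    (-0.503) ≤ sy κ t ∧ sy κ t ≤ (-0.448) := by
  have hy1 : -0.503 ≤ sy κ t := syL_ang2 h 0.42 0.44 0.8444 0.763 0.7227 0.6912 0.503 1.65367 0.60471 hk1 hk2 (by linarith) (by norm_num) (by norm_num) (by norm_num) (by norm_num)
    (cos_ge_num (by norm_num) (by norm_num)) (sin_le_num (by norm_num) (by norm_num))
    (expn_ge (by norm_num) (by norm_num)) (expm_ge (by norm_num) (by norm_num) (by norm_num) (by norm_num)) (by norm_num) (by norm_num) (by norm_num)
    (by norm_num) (by norm_num) (by norm_num)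
  have hy2 : sy κ t ≤ -0.448 := syL_le h 0.42 0.44 0.82739 0.448 0.6389 0.63891 0.65051 0.68151 hk1 hk2 (by linarith) (by norm_num) (by norm_num) (by norm_num)
    (expm_ge (by norm_num) (by norm_num) (by norm_num) (by norm_num)) (expm_le (by norm_num) (by norm_num) (by norm_num)) (by norm_num)
    (by norm_num) (by norm_num) (by norm_num) (by norm_num) (by norm_num) (by norm_num)
  exact ⟨hy1, hy2⟩

theorem pc5 {β r h t κ : ℝ} (hh : h = 2 * Real.pi / (3 : ℕ)) (hβ : 0 < β) (hr : 10 ≤ r) (hκ : κ = β * r)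
    (hk1 : 0.42 ≤ κ) (hk2 : κ ≤ 0.44) (hT1 : 1.25 ≤ t + κ) (hT2 : t + κ ≤ 1.267) :
    Xf β r h t 0 ≠ 0 ∧ r * 0.1236 ≤ (Ld β r h t 1 - Ld β r h t 0).im ∧
      ‖(((-1 : ℤ) : ℂ) - 1) * Ld β r h t 0 - ((-1 : ℤ) : ℂ) * Ld β r h t 1‖ ≤ r * 7.82 := by
  obtain ⟨q1, q2, q3⟩ := b3_h hh
  have hR0 := b3_R0 hβ hr hκ
  have hR := b3_R hβ hr hκ (by linarith)
  have hD1 : DomR κ t := b3_dom (by linarith) (by linarith) (Or.inl (by linarith))
  have hD0 : DomR κ (t - h) := b3_dom (by linarith) (by linarith) (Or.inl (by linarith))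
  have y1 := yA5 hD1 hk1 hk2 (by linarith) (by linarith)
  have y0 := yB5 hD0 hk1 hk2 (by linarith) (by linarith)
  have j1 := T3_06_d1_1 hD1 hβ hk1 hk2 (by linarith) (by linarith) hR0 hR
  exact b3_piece 0.42 0.44 0.259 0.283 0.271 0.76261 0.77183 0.75352 0.3397 1.623 1.676 0.08 0.105 0.105 1.4665 0.3911 0 0 (-0.503) (-0.448) (-0.475) 1.60801 1.65368 0.7277 0.4756 0.04 0.26 0.17 7.8314 8.2637 0.6607 1.011 0.1236 7.82
    hβ hr hκ (by norm_num) hk1 hk2 hD1 hD0 j1 (j1 _ (by rw [sub_self, norm_zero]; norm_num))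
    (T3_06_d0_1 hD0 hβ hk1 hk2 (by linarith) (by linarith) hR0 hR)
    (T3_06_p0 hD0 hβ hk1 hk2 (by linarith) (by linarith) hR0 hR)
    y1.1 y1.2 y0.1 y0.2 (by norm_num)
    (ex_um 0.259 (by norm_num) (by norm_num) (by norm_num) (by norm_num)) (ex_um 0.283 (by norm_num) (by norm_num) (by norm_num) (by norm_num)) (ex_lm 0.271 (by norm_num) (by norm_num) (by norm_num) (by norm_num) (by norm_num)) (by norm_num) (by norm_num) (by norm_num) (by norm_num) (by norm_num) (by norm_num) (by norm_num) (by norm_num)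
    (by norm_num) (by norm_num) (by norm_num) (by norm_num) (by norm_num) (by norm_num) (by norm_num) (by norm_num) (by norm_num) (by norm_num)
    (ex_up 0.503 (by norm_num) (by norm_num) (by norm_num) (by norm_num)) (ex_lp 0.475 (by norm_num) (by norm_num) (by norm_num)) (by norm_num) (by norm_num) (by norm_num) (by norm_num) (by norm_num) (by norm_num)
    (by norm_num) (by norm_num) (by norm_num) (by norm_num) (by norm_num) (by norm_num) (by norm_num) (by norm_num) (by norm_num) (by norm_num) (by norm_num)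
    (by norm_num) (by norm_num) (by norm_num) (by norm_num)

private theorem yA6 {κ t : ℝ} (h : DomR κ t) (hk1 : 0.42 ≤ κ) (hk2 : κ ≤ 0.44) (ht1 : 1.267 ≤ t + κ) (ht2 : t + κ ≤ 1.286) :
    0.259 ≤ sy κ t ∧ sy κ t ≤ 0.285 := by
  have hy1 : 0.259 ≤ sy κ t := syR_ge h 0.42 0.44 1.267 0.259 1.29563 1.29564 0.76265 0.79898 hk1 hk2 (by linarith) (by norm_num) (by norm_num)
    (expn_ge (by norm_num) (by norm_num)) (expn_le (by norm_num) (by norm_num) (by norm_num)) (by norm_num)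
    (by norm_num) (by norm_num) (by norm_num) (by norm_num) (by norm_num) (by norm_num)
  have hy2 : sy κ t ≤ 0.285 := syR_ang2 h 0.42 0.44 1.286 1.037 0.5105 0.8612 0.285 0.75202 1.32976 hk1 hk2 (by linarith) (by norm_num) (by norm_num) (by norm_num)
    (cos_le_num (by norm_num)) (sin_le_num (by norm_num) (by norm_num)) (expm_le (by norm_num) (by norm_num) (by norm_num))
    (expn_ge (by norm_num) (by norm_num)) (by norm_num) (by norm_num) (by norm_num) (by norm_num) (by norm_num)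
  exact ⟨hy1, hy2⟩

private theorem yB6 {κ t : ℝ} (h : DomR κ t) (hk1 : 0.42 ≤ κ) (hk2 : κ ≤ 0.44) (ht1 : -0.8274 ≤ t + κ) (ht2 : t + κ ≤ -0.80839) :
    (-0.486) ≤ sy κ t ∧ sy κ t ≤ (-0.433) := by
  have hy1 : -0.486 ≤ sy κ t := syL_ang2 h 0.42 0.44 0.8274 0.746 0.7344 0.6788 0.486 1.62579 0.61508 hk1 hk2 (by linarith) (by norm_num) (by norm_num) (by norm_num) (by norm_num)
    (cos_ge_num (by norm_num) (by norm_num)) (sin_le_num (by norm_num) (by norm_num))
    (expn_ge (by norm_num) (by norm_num)) (expm_ge (by norm_num) (by norm_num) (by norm_num) (by norm_num)) (by norm_num) (by norm_num) (by norm_num)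
    (by norm_num) (by norm_num) (by norm_num)
  have hy2 : sy κ t ≤ -0.433 := syL_le h 0.42 0.44 0.80839 0.433 0.64856 0.64857 0.63824 0.66865 hk1 hk2 (by linarith) (by norm_num) (by norm_num) (by norm_num)
    (expm_ge (by norm_num) (by norm_num) (by norm_num) (by norm_num)) (expm_le (by norm_num) (by norm_num) (by norm_num)) (by norm_num)
    (by norm_num) (by norm_num) (by norm_num) (by norm_num) (by norm_num) (by norm_num)
  exact ⟨hy1, hy2⟩

theorem pc6 {β r h t κ : ℝ} (hh : h = 2 * Real.pi / (3 : ℕ)) (hβ : 0 < β) (hr : 10 ≤ r) (hκ : κ = β * r)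
    (hk1 : 0.42 ≤ κ) (hk2 : κ ≤ 0.44) (hT1 : 1.267 ≤ t + κ) (hT2 : t + κ ≤ 1.286) :
    Xf β r h t 0 ≠ 0 ∧ r * 0.1236 ≤ (Ld β r h t 1 - Ld β r h t 0).im ∧
      ‖(((-1 : ℤ) : ℂ) - 1) * Ld β r h t 0 - ((-1 : ℤ) : ℂ) * Ld β r h t 1‖ ≤ r * 7.82 := by
  obtain ⟨q1, q2, q3⟩ := b3_h hh
  have hR0 := b3_R0 hβ hr hκ
  have hR := b3_R hβ hr hκ (by linarith)
  have hD1 : DomR κ t := b3_dom (by linarith) (by linarith) (Or.inl (by linarith))
  have hD0 : DomR κ (t - h) := b3_dom (by linarith) (by linarith) (Or.inl (by linarith))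
  have y1 := yA6 hD1 hk1 hk2 (by linarith) (by linarith)
  have y0 := yB6 hD0 hk1 hk2 (by linarith) (by linarith)
  have j1 := T3_06_d1_2 hD1 hβ hk1 hk2 (by linarith) (by linarith) hR0 hR
  exact b3_piece 0.42 0.44 0.259 0.285 0.272 0.76185 0.77183 0.75202 0.3397 1.623 1.6795 0.08 0.105 0.105 1.4665 0.3911 0 0 (-0.486) (-0.433) (-0.46) 1.58407 1.62581 0.7154 0.4936 0.05 0.17 0.17 4.0964 4.1713 0.6488 0.9404 0.1236 7.82
    hβ hr hκ (by norm_num) hk1 hk2 hD1 hD0 j1 (j1 _ (by rw [sub_self, norm_zero]; norm_num))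
    (T3_06_d0_2 hD0 hβ hk1 hk2 (by linarith) (by linarith) hR0 hR)
    (T3_06_p0 hD0 hβ hk1 hk2 (by linarith) (by linarith) hR0 hR)
    y1.1 y1.2 y0.1 y0.2 (by norm_num)
    (ex_um 0.259 (by norm_num) (by norm_num) (by norm_num) (by norm_num)) (ex_um 0.285 (by norm_num) (by norm_num) (by norm_num) (by norm_num)) (ex_lm 0.272 (by norm_num) (by norm_num) (by norm_num) (by norm_num) (by norm_num)) (by norm_num) (by norm_num) (by norm_num) (by norm_num) (by norm_num) (by norm_num) (by norm_num) (by norm_num)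
    (by norm_num) (by norm_num) (by norm_num) (by norm_num) (by norm_num) (by norm_num) (by norm_num) (by norm_num) (by norm_num) (by norm_num)
    (ex_up 0.486 (by norm_num) (by norm_num) (by norm_num) (by norm_num)) (ex_lp 0.46 (by norm_num) (by norm_num) (by norm_num)) (by norm_num) (by norm_num) (by norm_num) (by norm_num) (by norm_num) (by norm_num)
    (by norm_num) (by norm_num) (by norm_num) (by norm_num) (by norm_num) (by norm_num) (by norm_num) (by norm_num) (by norm_num) (by norm_num) (by norm_num)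
    (by norm_num) (by norm_num) (by norm_num) (by norm_num)

private theorem yA7 {κ t : ℝ} (h : DomR κ t) (hk1 : 0.42 ≤ κ) (hk2 : κ ≤ 0.44) (ht1 : 1.286 ≤ t + κ) (ht2 : t + κ ≤ 1.305) :
    0.259 ≤ sy κ t ∧ sy κ t ≤ 0.286 := by
  have hy1 : 0.259 ≤ sy κ t := syR_ge h 0.42 0.44 1.286 0.259 1.29563 1.29564 0.76265 0.79898 hk1 hk2 (by linarith) (by norm_num) (by norm_num)
    (expn_ge (by norm_num) (by norm_num)) (expn_le (by norm_num) (by norm_num) (by norm_num)) (by norm_num)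
    (by norm_num) (by norm_num) (by norm_num) (by norm_num) (by norm_num) (by norm_num)
  have hy2 : sy κ t ≤ 0.286 := syR_ang2 h 0.42 0.44 1.305 1.045 0.5037 0.8652 0.286 0.75127 1.33109 hk1 hk2 (by linarith) (by norm_num) (by norm_num) (by norm_num)
    (cos_le_num (by norm_num)) (sin_le_num (by norm_num) (by norm_num)) (expm_le (by norm_num) (by norm_num) (by norm_num))
    (expn_ge (by norm_num) (by norm_num)) (by norm_num) (by norm_num) (by norm_num) (by norm_num) (by norm_num)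
  exact ⟨hy1, hy2⟩

private theorem yB7 {κ t : ℝ} (h : DomR κ t) (hk1 : 0.42 ≤ κ) (hk2 : κ ≤ 0.44) (ht1 : -0.8084 ≤ t + κ) (ht2 : t + κ ≤ -0.78939) :
    (-0.468) ≤ sy κ t ∧ sy κ t ≤ (-0.418) := by
  have hy1 : -0.468 ≤ sy κ t := syL_ang2 h 0.42 0.44 0.8084 0.728 0.7465 0.6654 0.468 1.59679 0.62625 hk1 hk2 (by linarith) (by norm_num) (by norm_num) (by norm_num) (by norm_num)
    (cos_ge_num (by norm_num) (by norm_num)) (sin_le_num (by norm_num) (by norm_num))
    (expn_ge (by norm_num) (by norm_num)) (expm_ge (by norm_num) (by norm_num) (by norm_num) (by norm_num)) (by norm_num) (by norm_num) (by norm_num)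
    (by norm_num) (by norm_num) (by norm_num)
  have hy2 : sy κ t ≤ -0.418 := syL_le h 0.42 0.44 0.78939 0.418 0.65836 0.65837 0.62544 0.65524 hk1 hk2 (by linarith) (by norm_num) (by norm_num) (by norm_num)
    (expm_ge (by norm_num) (by norm_num) (by norm_num) (by norm_num)) (expm_le (by norm_num) (by norm_num) (by norm_num)) (by norm_num)
    (by norm_num) (by norm_num) (by norm_num) (by norm_num) (by norm_num) (by norm_num)
  exact ⟨hy1, hy2⟩

theorem pc7 {β r h t κ : ℝ} (hh : h = 2 * Real.pi / (3 : ℕ)) (hβ : 0 < β) (hr : 10 ≤ r) (hκ : κ = β * r)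
    (hk1 : 0.42 ≤ κ) (hk2 : κ ≤ 0.44) (hT1 : 1.286 ≤ t + κ) (hT2 : t + κ ≤ 1.305) :
    Xf β r h t 0 ≠ 0 ∧ r * 0.1236 ≤ (Ld β r h t 1 - Ld β r h t 0).im ∧
      ‖(((-1 : ℤ) : ℂ) - 1) * Ld β r h t 0 - ((-1 : ℤ) : ℂ) * Ld β r h t 1‖ ≤ r * 7.82 := by
  obtain ⟨q1, q2, q3⟩ := b3_h hh
  have hR0 := b3_R0 hβ hr hκ
  have hR := b3_R hβ hr hκ (by linarith)
  have hD1 : DomR κ t := b3_dom (by linarith) (by linarith) (Or.inl (by linarith))
  have hD0 : DomR κ (t - h) := b3_dom (by linarith) (by linarith) (Or.inl (by linarith))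
  have y1 := yA7 hD1 hk1 hk2 (by linarith) (by linarith)
  have y0 := yB7 hD0 hk1 hk2 (by linarith) (by linarith)
  have j1 := T3_06_d1_2 hD1 hβ hk1 hk2 (by linarith) (by linarith) hR0 hR
  exact b3_piece 0.42 0.44 0.259 0.286 0.273 0.76109 0.77183 0.75127 0.3397 1.623 1.6813 0.08 0.105 0.105 1.4665 0.3911 0 0 (-0.468) (-0.418) (-0.443) 1.55737 1.5968 0.7026 0.5132 0.05 0.17 0.17 4.0964 4.0177 0.6341 0.8682 0.1236 7.82
    hβ hr hκ (by norm_num) hk1 hk2 hD1 hD0 j1 (j1 _ (by rw [sub_self, norm_zero]; norm_num))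
    (T3_06_d0_2 hD0 hβ hk1 hk2 (by linarith) (by linarith) hR0 hR)
    (T3_06_p0 hD0 hβ hk1 hk2 (by linarith) (by linarith) hR0 hR)
    y1.1 y1.2 y0.1 y0.2 (by norm_num)
    (ex_um 0.259 (by norm_num) (by norm_num) (by norm_num) (by norm_num)) (ex_um 0.286 (by norm_num) (by norm_num) (by norm_num) (by norm_num)) (ex_lm 0.273 (by norm_num) (by norm_num) (by norm_num) (by norm_num) (by norm_num)) (by norm_num) (by norm_num) (by norm_num) (by norm_num) (by norm_num) (by norm_num) (by norm_num) (by norm_num)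
    (by norm_num) (by norm_num) (by norm_num) (by norm_num) (by norm_num) (by norm_num) (by norm_num) (by norm_num) (by norm_num) (by norm_num)
    (ex_up 0.468 (by norm_num) (by norm_num) (by norm_num) (by norm_num)) (ex_lp 0.443 (by norm_num) (by norm_num) (by norm_num)) (by norm_num) (by norm_num) (by norm_num) (by norm_num) (by norm_num) (by norm_num)
    (by norm_num) (by norm_num) (by norm_num) (by norm_num) (by norm_num) (by norm_num) (by norm_num) (by norm_num) (by norm_num) (by norm_num) (by norm_num)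
    (by norm_num) (by norm_num) (by norm_num) (by norm_num)

private theorem yA8 {κ t : ℝ} (h : DomR κ t) (hk1 : 0.42 ≤ κ) (hk2 : κ ≤ 0.44) (ht1 : 1.305 ≤ t + κ) (ht2 : t + κ ≤ 1.325) :
    0.259 ≤ sy κ t ∧ sy κ t ≤ 0.288 := by
  have hy1 : 0.259 ≤ sy κ t := syR_ge h 0.42 0.44 1.305 0.259 1.29563 1.29564 0.76265 0.79898 hk1 hk2 (by linarith) (by norm_num) (by norm_num)
    (expn_ge (by norm_num) (by norm_num)) (expn_le (by norm_num) (by norm_num) (by norm_num)) (by norm_num)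
    (by norm_num) (by norm_num) (by norm_num) (by norm_num) (by norm_num) (by norm_num)
  have hy2 : sy κ t ≤ 0.288 := syR_ang2 h 0.42 0.44 1.325 1.06 0.4909 0.8727 0.288 0.74977 1.33375 hk1 hk2 (by linarith) (by norm_num) (by norm_num) (by norm_num)
    (cos_le_num (by norm_num)) (sin_le_num (by norm_num) (by norm_num)) (expm_le (by norm_num) (by norm_num) (by norm_num))
    (expn_ge (by norm_num) (by norm_num)) (by norm_num) (by norm_num) (by norm_num) (by norm_num) (by norm_num)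
  exact ⟨hy1, hy2⟩

private theorem yB8 {κ t : ℝ} (h : DomR κ t) (hk1 : 0.42 ≤ κ) (hk2 : κ ≤ 0.44) (ht1 : -0.7894 ≤ t + κ) (ht2 : t + κ ≤ -0.76939) :
    (-0.45) ≤ sy κ t ∧ sy κ t ≤ (-0.402) := by
  have hy1 : -0.45 ≤ sy κ t := syL_ang2 h 0.42 0.44 0.7894 0.71 0.7583 0.6519 0.45 1.56831 0.63762 hk1 hk2 (by linarith) (by norm_num) (by norm_num) (by norm_num) (by norm_num)
    (cos_ge_num (by norm_num) (by norm_num)) (sin_le_num (by norm_num) (by norm_num))
    (expn_ge (by norm_num) (by norm_num)) (expm_ge (by norm_num) (by norm_num) (by norm_num) (by norm_num)) (by norm_num) (by norm_num) (by norm_num)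
    (by norm_num) (by norm_num) (by norm_num)
  have hy2 : sy κ t ≤ -0.402 := syL_le h 0.42 0.44 0.76939 0.402 0.66898 0.66899 0.6112 0.64032 hk1 hk2 (by linarith) (by norm_num) (by norm_num) (by norm_num)
    (expm_ge (by norm_num) (by norm_num) (by norm_num) (by norm_num)) (expm_le (by norm_num) (by norm_num) (by norm_num)) (by norm_num)
    (by norm_num) (by norm_num) (by norm_num) (by norm_num) (by norm_num) (by norm_num)
  exact ⟨hy1, hy2⟩

theorem pc8 {β r h t κ : ℝ} (hh : h = 2 * Real.pi / (3 : ℕ)) (hβ : 0 < β) (hr : 10 ≤ r) (hκ : κ = β * r)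
    (hk1 : 0.42 ≤ κ) (hk2 : κ ≤ 0.44) (hT1 : 1.305 ≤ t + κ) (hT2 : t + κ ≤ 1.325) :
    Xf β r h t 0 ≠ 0 ∧ r * 0.1236 ≤ (Ld β r h t 1 - Ld β r h t 0).im ∧
      ‖(((-1 : ℤ) : ℂ) - 1) * Ld β r h t 0 - ((-1 : ℤ) : ℂ) * Ld β r h t 1‖ ≤ r * 7.82 := by
  obtain ⟨q1, q2, q3⟩ := b3_h hh
  have hR0 := b3_R0 hβ hr hκ
  have hR := b3_R hβ hr hκ (by linarith)
  have hD1 : DomR κ t := b3_dom (by linarith) (by linarith) (Or.inl (by linarith))
  have hD0 : DomR κ (t - h) := b3_dom (by linarith) (by linarith) (Or.inl (by linarith))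
  have y1 := yA8 hD1 hk1 hk2 (by linarith) (by linarith)
  have y0 := yB8 hD0 hk1 hk2 (by linarith) (by linarith)
  have j1 := T3_06_d1_2 hD1 hβ hk1 hk2 (by linarith) (by linarith) hR0 hR
  exact b3_piece 0.42 0.44 0.259 0.288 0.274 0.76033 0.77183 0.74977 0.3397 1.623 1.6849 0.08 0.105 0.105 1.4665 0.3911 0 0 (-0.45) (-0.402) (-0.426) 1.53112 1.56832 0.6901 0.5333 0.05 0.17 0.17 4.0964 3.8711 0.6214 0.8042 0.1236 7.82
    hβ hr hκ (by norm_num) hk1 hk2 hD1 hD0 j1 (j1 _ (by rw [sub_self, norm_zero]; norm_num))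
    (T3_06_d0_2 hD0 hβ hk1 hk2 (by linarith) (by linarith) hR0 hR)
    (T3_06_p0 hD0 hβ hk1 hk2 (by linarith) (by linarith) hR0 hR)
    y1.1 y1.2 y0.1 y0.2 (by norm_num)
    (ex_um 0.259 (by norm_num) (by norm_num) (by norm_num) (by norm_num)) (ex_um 0.288 (by norm_num) (by norm_num) (by norm_num) (by norm_num)) (ex_lm 0.274 (by norm_num) (by norm_num) (by norm_num) (by norm_num) (by norm_num)) (by norm_num) (by norm_num) (by norm_num) (by norm_num) (by norm_num) (by norm_num) (by norm_num) (by norm_num)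
    (by norm_num) (by norm_num) (by norm_num) (by norm_num) (by norm_num) (by norm_num) (by norm_num) (by norm_num) (by norm_num) (by norm_num)
    (ex_up 0.45 (by norm_num) (by norm_num) (by norm_num) (by norm_num)) (ex_lp 0.426 (by norm_num) (by norm_num) (by norm_num)) (by norm_num) (by norm_num) (by norm_num) (by norm_num) (by norm_num) (by norm_num)
    (by norm_num) (by norm_num) (by norm_num) (by norm_num) (by norm_num) (by norm_num) (by norm_num) (by norm_num) (by norm_num) (by norm_num) (by norm_num)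
    (by norm_num) (by norm_num) (by norm_num) (by norm_num)

private theorem yA9 {κ t : ℝ} (h : DomR κ t) (hk1 : 0.42 ≤ κ) (hk2 : κ ≤ 0.44) (ht1 : 1.325 ≤ t + κ) (ht2 : t + κ ≤ 1.344) :
    0.259 ≤ sy κ t ∧ sy κ t ≤ 0.29 := by
  have hy1 : 0.259 ≤ sy κ t := syR_ge h 0.42 0.44 1.325 0.259 1.29563 1.29564 0.76265 0.79898 hk1 hk2 (by linarith) (by norm_num) (by norm_num)
    (expn_ge (by norm_num) (by norm_num)) (expn_le (by norm_num) (by norm_num) (by norm_num)) (by norm_num)
    (by norm_num) (by norm_num) (by norm_num) (by norm_num) (by norm_num) (by norm_num)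
  have hy2 : sy κ t ≤ 0.29 := syR_ang2 h 0.42 0.44 1.344 1.076 0.477 0.8804 0.29 0.74827 1.33642 hk1 hk2 (by linarith) (by norm_num) (by norm_num) (by norm_num)
    (cos_le_num (by norm_num)) (sin_le_num (by norm_num) (by norm_num)) (expm_le (by norm_num) (by norm_num) (by norm_num))
    (expn_ge (by norm_num) (by norm_num)) (by norm_num) (by norm_num) (by norm_num) (by norm_num) (by norm_num)
  exact ⟨hy1, hy2⟩

private theorem yB9 {κ t : ℝ} (h : DomR κ t) (hk1 : 0.42 ≤ κ) (hk2 : κ ≤ 0.44) (ht1 : -0.7694 ≤ t + κ) (ht2 : t + κ ≤ -0.75039) :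
    (-0.433) ≤ sy κ t ∧ sy κ t ≤ (-0.388) := by
  have hy1 : -0.433 ≤ sy κ t := syL_ang2 h 0.42 0.44 0.7694 0.692 0.7699 0.6381 0.433 1.54187 0.64856 hk1 hk2 (by linarith) (by norm_num) (by norm_num) (by norm_num) (by norm_num)
    (cos_ge_num (by norm_num) (by norm_num)) (sin_le_num (by norm_num) (by norm_num))
    (expn_ge (by norm_num) (by norm_num)) (expm_ge (by norm_num) (by norm_num) (by norm_num) (by norm_num)) (by norm_num) (by norm_num) (by norm_num)
    (by norm_num) (by norm_num) (by norm_num)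
  have hy2 : sy κ t ≤ -0.388 := syL_le h 0.42 0.44 0.75039 0.388 0.67841 0.67842 0.59823 0.62674 hk1 hk2 (by linarith) (by norm_num) (by norm_num) (by norm_num)
    (expm_ge (by norm_num) (by norm_num) (by norm_num) (by norm_num)) (expm_le (by norm_num) (by norm_num) (by norm_num)) (by norm_num)
    (by norm_num) (by norm_num) (by norm_num) (by norm_num) (by norm_num) (by norm_num)
  exact ⟨hy1, hy2⟩

theorem pc9 {β r h t κ : ℝ} (hh : h = 2 * Real.pi / (3 : ℕ)) (hβ : 0 < β) (hr : 10 ≤ r) (hκ : κ = β * r)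
    (hk1 : 0.42 ≤ κ) (hk2 : κ ≤ 0.44) (hT1 : 1.325 ≤ t + κ) (hT2 : t + κ ≤ 1.344) :
    Xf β r h t 0 ≠ 0 ∧ r * 0.1236 ≤ (Ld β r h t 1 - Ld β r h t 0).im ∧
      ‖(((-1 : ℤ) : ℂ) - 1) * Ld β r h t 0 - ((-1 : ℤ) : ℂ) * Ld β r h t 1‖ ≤ r * 7.82 := by
  obtain ⟨q1, q2, q3⟩ := b3_h hh
  have hR0 := b3_R0 hβ hr hκ
  have hR := b3_R hβ hr hκ (by linarith)
  have hD1 : DomR κ t := b3_dom (by linarith) (by linarith) (Or.inl (by linarith))
  have hD0 : DomR κ (t - h) := b3_dom (by linarith) (by linarith) (Or.inl (by linarith))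
  have y1 := yA9 hD1 hk1 hk2 (by linarith) (by linarith)
  have y0 := yB9 hD0 hk1 hk2 (by linarith) (by linarith)
  have j1 := T3_06_d1_2 hD1 hβ hk1 hk2 (by linarith) (by linarith) hR0 hR
  exact b3_piece 0.42 0.44 0.259 0.29 0.275 0.75957 0.77183 0.74827 0.3397 1.623 1.6884 0.08 0.105 0.105 1.4665 0.3911 0 0 (-0.433) (-0.388) (-0.41) 1.50681 1.54188 0.6785 0.5529 0.05 0.17 0.17 4.0964 3.738 0.6069 0.7448 0.1236 7.82
    hβ hr hκ (by norm_num) hk1 hk2 hD1 hD0 j1 (j1 _ (by rw [sub_self, norm_zero]; norm_num))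
    (T3_06_d0_2 hD0 hβ hk1 hk2 (by linarith) (by linarith) hR0 hR)
    (T3_06_p0 hD0 hβ hk1 hk2 (by linarith) (by linarith) hR0 hR)
    y1.1 y1.2 y0.1 y0.2 (by norm_num)
    (ex_um 0.259 (by norm_num) (by norm_num) (by norm_num) (by norm_num)) (ex_um 0.29 (by norm_num) (by norm_num) (by norm_num) (by norm_num)) (ex_lm 0.275 (by norm_num) (by norm_num) (by norm_num) (by norm_num) (by norm_num)) (by norm_num) (by norm_num) (by norm_num) (by norm_num) (by norm_num) (by norm_num) (by norm_num) (by norm_num)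
    (by norm_num) (by norm_num) (by norm_num) (by norm_num) (by norm_num) (by norm_num) (by norm_num) (by norm_num) (by norm_num) (by norm_num)
    (ex_up 0.433 (by norm_num) (by norm_num) (by norm_num) (by norm_num)) (ex_lp 0.41 (by norm_num) (by norm_num) (by norm_num)) (by norm_num) (by norm_num) (by norm_num) (by norm_num) (by norm_num) (by norm_num)
    (by norm_num) (by norm_num) (by norm_num) (by norm_num) (by norm_num) (by norm_num) (by norm_num) (by norm_num) (by norm_num) (by norm_num) (by norm_num)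
    (by norm_num) (by norm_num) (by norm_num) (by norm_num)

private theorem yA10 {κ t : ℝ} (h : DomR κ t) (hk1 : 0.42 ≤ κ) (hk2 : κ ≤ 0.44) (ht1 : 1.344 ≤ t + κ) (ht2 : t + κ ≤ 1.363) :
    0.259 ≤ sy κ t ∧ sy κ t ≤ 0.292 := by
  have hy1 : 0.259 ≤ sy κ t := syR_ge h 0.42 0.44 1.344 0.259 1.29563 1.29564 0.76265 0.79898 hk1 hk2 (by linarith) (by norm_num) (by norm_num)
    (expn_ge (by norm_num) (by norm_num)) (expn_le (by norm_num) (by norm_num) (by norm_num)) (by norm_num)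
    (by norm_num) (by norm_num) (by norm_num) (by norm_num) (by norm_num) (by norm_num)
  have hy2 : sy κ t ≤ 0.292 := syR_ang2 h 0.42 0.44 1.363 1.093 0.4622 0.8884 0.292 0.74677 1.3391 hk1 hk2 (by linarith) (by norm_num) (by norm_num) (by norm_num)
    (cos_le_num (by norm_num)) (sin_le_num (by norm_num) (by norm_num)) (expm_le (by norm_num) (by norm_num) (by norm_num))
    (expn_ge (by norm_num) (by norm_num)) (by norm_num) (by norm_num) (by norm_num) (by norm_num) (by norm_num)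
  exact ⟨hy1, hy2⟩

private theorem yB10 {κ t : ℝ} (h : DomR κ t) (hk1 : 0.42 ≤ κ) (hk2 : κ ≤ 0.44) (ht1 : -0.7504 ≤ t + κ) (ht2 : t + κ ≤ -0.73139) :
    (-0.416) ≤ sy κ t ∧ sy κ t ≤ (-0.374) := by
  have hy1 : -0.416 ≤ sy κ t := syL_ang2 h 0.42 0.44 0.7504 0.673 0.7819 0.6234 0.416 1.51588 0.65968 hk1 hk2 (by linarith) (by norm_num) (by norm_num) (by norm_num) (by norm_num)
    (cos_ge_num (by norm_num) (by norm_num)) (sin_le_num (by norm_num) (by norm_num))
    (expn_ge (by norm_num) (by norm_num)) (expm_ge (by norm_num) (by norm_num) (by norm_num) (by norm_num)) (by norm_num) (by norm_num) (by norm_num)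
    (by norm_num) (by norm_num) (by norm_num)
  have hy2 : sy κ t ≤ -0.374 := syL_le h 0.42 0.44 0.73139 0.374 0.68797 0.68798 0.58477 0.61263 hk1 hk2 (by linarith) (by norm_num) (by norm_num) (by norm_num)
    (expm_ge (by norm_num) (by norm_num) (by norm_num) (by norm_num)) (expm_le (by norm_num) (by norm_num) (by norm_num)) (by norm_num)
    (by norm_num) (by norm_num) (by norm_num) (by norm_num) (by norm_num) (by norm_num)
  exact ⟨hy1, hy2⟩

theorem pc10 {β r h t κ : ℝ} (hh : h = 2 * Real.pi / (3 : ℕ)) (hβ : 0 < β) (hr : 10 ≤ r) (hκ : κ = β * r)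
    (hk1 : 0.42 ≤ κ) (hk2 : κ ≤ 0.44) (hT1 : 1.344 ≤ t + κ) (hT2 : t + κ ≤ 1.363) :
    Xf β r h t 0 ≠ 0 ∧ r * 0.1236 ≤ (Ld β r h t 1 - Ld β r h t 0).im ∧
      ‖(((-1 : ℤ) : ℂ) - 1) * Ld β r h t 0 - ((-1 : ℤ) : ℂ) * Ld β r h t 1‖ ≤ r * 7.82 := by
  obtain ⟨q1, q2, q3⟩ := b3_h hh
  have hR0 := b3_R0 hβ hr hκ
  have hR := b3_R hβ hr hκ (by linarith)
  have hD1 : DomR κ t := b3_dom (by linarith) (by linarith) (Or.inl (by linarith))
  have hD0 : DomR κ (t - h) := b3_dom (by linarith) (by linarith) (Or.inl (by linarith))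
  have y1 := yA10 hD1 hk1 hk2 (by linarith) (by linarith)
  have y0 := yB10 hD0 hk1 hk2 (by linarith) (by linarith)
  have j1 := T3_06_d1_2 hD1 hβ hk1 hk2 (by linarith) (by linarith) hR0 hR
  exact b3_piece 0.42 0.44 0.259 0.292 0.276 0.75881 0.77183 0.74677 0.3397 1.623 1.692 0.08 0.105 0.105 1.4665 0.3911 0 0 (-0.416) (-0.374) (-0.395) 1.48438 1.51589 0.667 0.573 0.05 0.17 0.17 4.0964 3.6096 0.5925 0.6897 0.1236 7.82
    hβ hr hκ (by norm_num) hk1 hk2 hD1 hD0 j1 (j1 _ (by rw [sub_self, norm_zero]; norm_num))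
    (T3_06_d0_2 hD0 hβ hk1 hk2 (by linarith) (by linarith) hR0 hR)
    (T3_06_p0 hD0 hβ hk1 hk2 (by linarith) (by linarith) hR0 hR)
    y1.1 y1.2 y0.1 y0.2 (by norm_num)
    (ex_um 0.259 (by norm_num) (by norm_num) (by norm_num) (by norm_num)) (ex_um 0.292 (by norm_num) (by norm_num) (by norm_num) (by norm_num)) (ex_lm 0.276 (by norm_num) (by norm_num) (by norm_num) (by norm_num) (by norm_num)) (by norm_num) (by norm_num) (by norm_num) (by norm_num) (by norm_num) (by norm_num) (by norm_num) (by norm_num)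
    (by norm_num) (by norm_num) (by norm_num) (by norm_num) (by norm_num) (by norm_num) (by norm_num) (by norm_num) (by norm_num) (by norm_num)
    (ex_up 0.416 (by norm_num) (by norm_num) (by norm_num) (by norm_num)) (ex_lp 0.395 (by norm_num) (by norm_num) (by norm_num)) (by norm_num) (by norm_num) (by norm_num) (by norm_num) (by norm_num) (by norm_num)
    (by norm_num) (by norm_num) (by norm_num) (by norm_num) (by norm_num) (by norm_num) (by norm_num) (by norm_num) (by norm_num) (by norm_num) (by norm_num)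
    (by norm_num) (by norm_num) (by norm_num) (by norm_num)

private theorem yA11 {κ t : ℝ} (h : DomR κ t) (hk1 : 0.42 ≤ κ) (hk2 : κ ≤ 0.44) (ht1 : 1.363 ≤ t + κ) (ht2 : t + κ ≤ 1.382) :
    0.259 ≤ sy κ t ∧ sy κ t ≤ 0.294 := by
  have hy1 : 0.259 ≤ sy κ t := syR_ge h 0.42 0.44 1.363 0.259 1.29563 1.29564 0.76265 0.79898 hk1 hk2 (by linarith) (by norm_num) (by norm_num)
    (expn_ge (by norm_num) (by norm_num)) (expn_le (by norm_num) (by norm_num) (by norm_num)) (by norm_num)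
    (by norm_num) (by norm_num) (by norm_num) (by norm_num) (by norm_num) (by norm_num)
  have hy2 : sy κ t ≤ 0.294 := syR_ang2 h 0.42 0.44 1.382 1.11 0.4473 0.8962 0.294 0.74528 1.34178 hk1 hk2 (by linarith) (by norm_num) (by norm_num) (by norm_num)
    (cos_le_num (by norm_num)) (sin_le_num (by norm_num) (by norm_num)) (expm_le (by norm_num) (by norm_num) (by norm_num))
    (expn_ge (by norm_num) (by norm_num)) (by norm_num) (by norm_num) (by norm_num) (by norm_num) (by norm_num)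
  exact ⟨hy1, hy2⟩

private theorem yB11 {κ t : ℝ} (h : DomR κ t) (hk1 : 0.42 ≤ κ) (hk2 : κ ≤ 0.44) (ht1 : -0.7314 ≤ t + κ) (ht2 : t + κ ≤ -0.71239) :
    (-0.4) ≤ sy κ t ∧ sy κ t ≤ (-0.36) := by
  have hy1 : -0.4 ≤ sy κ t := syL_ang2 h 0.42 0.44 0.7314 0.655 0.793 0.6092 0.4 1.49182 0.67032 hk1 hk2 (by linarith) (by norm_num) (by norm_num) (by norm_num) (by norm_num)
    (cos_ge_num (by norm_num) (by norm_num)) (sin_le_num (by norm_num) (by norm_num))
    (expn_ge (by norm_num) (by norm_num)) (expm_ge (by norm_num) (by norm_num) (by norm_num) (by norm_num)) (by norm_num) (by norm_num) (by norm_num)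
    (by norm_num) (by norm_num) (by norm_num)
  have hy2 : sy κ t ≤ -0.36 := syL_le h 0.42 0.44 0.71239 0.36 0.69767 0.69768 0.57082 0.59802 hk1 hk2 (by linarith) (by norm_num) (by norm_num) (by norm_num)
    (expm_ge (by norm_num) (by norm_num) (by norm_num) (by norm_num)) (expm_le (by norm_num) (by norm_num) (by norm_num)) (by norm_num)
    (by norm_num) (by norm_num) (by norm_num) (by norm_num) (by norm_num) (by norm_num)
  exact ⟨hy1, hy2⟩

theorem pc11 {β r h t κ : ℝ} (hh : h = 2 * Real.pi / (3 : ℕ)) (hβ : 0 < β) (hr : 10 ≤ r) (hκ : κ = β * r)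
    (hk1 : 0.42 ≤ κ) (hk2 : κ ≤ 0.44) (hT1 : 1.363 ≤ t + κ) (hT2 : t + κ ≤ 1.382) :
    Xf β r h t 0 ≠ 0 ∧ r * 0.1236 ≤ (Ld β r h t 1 - Ld β r h t 0).im ∧
      ‖(((-1 : ℤ) : ℂ) - 1) * Ld β r h t 0 - ((-1 : ℤ) : ℂ) * Ld β r h t 1‖ ≤ r * 7.82 := by
  obtain ⟨q1, q2, q3⟩ := b3_h hh
  have hR0 := b3_R0 hβ hr hκ
  have hR := b3_R hβ hr hκ (by linarith)
  have hD1 : DomR κ t := b3_dom (by linarith) (by linarith) (Or.inl (by linarith))
  have hD0 : DomR κ (t - h) := b3_dom (by linarith) (by linarith) (Or.inl (by linarith))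
  have y1 := yA11 hD1 hk1 hk2 (by linarith) (by linarith)
  have y0 := yB11 hD0 hk1 hk2 (by linarith) (by linarith)
  have j1 := T3_06_d1_2 hD1 hβ hk1 hk2 (by linarith) (by linarith) hR0 hR
  exact b3_piece 0.42 0.44 0.259 0.294 0.277 0.75805 0.77183 0.74528 0.3397 1.623 1.6956 0.08 0.105 0.105 1.4665 0.3911 0 0 (-0.4) (-0.36) (-0.38) 1.46228 1.49183 0.6565 0.5922 0.05 0.17 0.17 4.0964 3.4947 0.5808 0.6439 0.1236 7.82
    hβ hr hκ (by norm_num) hk1 hk2 hD1 hD0 j1 (j1 _ (by rw [sub_self, norm_zero]; norm_num))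
    (T3_06_d0_2 hD0 hβ hk1 hk2 (by linarith) (by linarith) hR0 hR)
    (T3_06_p0 hD0 hβ hk1 hk2 (by linarith) (by linarith) hR0 hR)
    y1.1 y1.2 y0.1 y0.2 (by norm_num)
    (ex_um 0.259 (by norm_num) (by norm_num) (by norm_num) (by norm_num)) (ex_um 0.294 (by norm_num) (by norm_num) (by norm_num) (by norm_num)) (ex_lm 0.277 (by norm_num) (by norm_num) (by norm_num) (by norm_num) (by norm_num)) (by norm_num) (by norm_num) (by norm_num) (by norm_num) (by norm_num) (by norm_num) (by norm_num) (by norm_num)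
    (by norm_num) (by norm_num) (by norm_num) (by norm_num) (by norm_num) (by norm_num) (by norm_num) (by norm_num) (by norm_num) (by norm_num)
    (ex_up 0.4 (by norm_num) (by norm_num) (by norm_num) (by norm_num)) (ex_lp 0.38 (by norm_num) (by norm_num) (by norm_num)) (by norm_num) (by norm_num) (by norm_num) (by norm_num) (by norm_num) (by norm_num)
    (by norm_num) (by norm_num) (by norm_num) (by norm_num) (by norm_num) (by norm_num) (by norm_num) (by norm_num) (by norm_num) (by norm_num) (by norm_num)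
    (by norm_num) (by norm_num) (by norm_num) (by norm_num)

theorem innS {β r h t κ : ℝ} (hh : h = 2 * Real.pi / (3 : ℕ)) (hβ : 0 < β) (hr : 10 ≤ r) (hκ : κ = β * r)
    (hk1 : 0.42 ≤ κ) (hk2 : κ ≤ 0.44) (hT1 : 1.167 ≤ t + κ) (hT2 : t + κ ≤ 1.382) :
    Xf β r h t 0 ≠ 0 ∧ r * 0.1236 ≤ (Ld β r h t 1 - Ld β r h t 0).im ∧
      ‖(((-1 : ℤ) : ℂ) - 1) * Ld β r h t 0 - ((-1 : ℤ) : ℂ) * Ld β r h t 1‖ ≤ r * 7.82 := by
  rcases le_total (t + κ) 1.182 with f0 | g0
  · exact pc0 hh hβ hr hκ hk1 hk2 hT1 f0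
  rcases le_total (t + κ) 1.197 with f1 | g1
  · exact pc1 hh hβ hr hκ hk1 hk2 g0 f1
  rcases le_total (t + κ) 1.214 with f2 | g2
  · exact pc2 hh hβ hr hκ hk1 hk2 g1 f2
  rcases le_total (t + κ) 1.232 with f3 | g3
  · exact pc3 hh hβ hr hκ hk1 hk2 g2 f3
  rcases le_total (t + κ) 1.25 with f4 | g4
  · exact pc4 hh hβ hr hκ hk1 hk2 g3 f4
  rcases le_total (t + κ) 1.267 with f5 | g5
  · exact pc5 hh hβ hr hκ hk1 hk2 g4 f5
  rcases le_total (t + κ) 1.286 with f6 | g6
  · exact pc6 hh hβ hr hκ hk1 hk2 g5 f6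
  rcases le_total (t + κ) 1.305 with f7 | g7
  · exact pc7 hh hβ hr hκ hk1 hk2 g6 f7
  rcases le_total (t + κ) 1.325 with f8 | g8
  · exact pc8 hh hβ hr hκ hk1 hk2 g7 f8
  rcases le_total (t + κ) 1.344 with f9 | g9
  · exact pc9 hh hβ hr hκ hk1 hk2 g8 f9
  rcases le_total (t + κ) 1.363 with f10 | g10
  · exact pc10 hh hβ hr hκ hk1 hk2 g9 f10
  exact pc11 hh hβ hr hκ hk1 hk2 g10 hT2

theorem circ {p : ℤ} (hp : IsCoprime (3 : ℤ) p) {β r : ℝ} (hβ : 0 < β) (hr : 10 ≤ r) (hk1 : 0.42 ≤ β * r)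
    (hk2 : β * r ≤ 0.44) : Circ (2 * Real.pi * p / (3 : ℕ) + β) r := by
  obtain ⟨κ, hκ⟩ : ∃ κ, κ = β * r := ⟨_, rfl⟩
  rw [← hκ] at hk1 hk2
  refine circ3 hp hr (h := 2 * Real.pi / (3 : ℕ)) (κ := κ) rfl 1.167 1.382 1.012 0.1236 0.00686 0.00686 7.82 (by norm_num) (by norm_num) (by norm_num)
    (by norm_num) (by norm_num) ?_ ?_ ?_ ?_ ?_ (by norm_num) (by norm_num)
  · intro t h1 h2
    exact (innS rfl hβ hr hκ hk1 hk2 h1 h2).1
  · intro t h1 h2
    exact (innE rfl hβ hr hκ hk1 hk2 h1 h2).1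
  · intro t h1 h2
    exact (innE rfl hβ hr hκ hk1 hk2 h1 h2).2
  · intro t h1 h2
    exact (innS rfl hβ hr hκ hk1 hk2 h1 h2).2
  · intro t h1 h2 h3
    rcases h3 with h3 | h3
    · rcases le_total (t + κ) 1.15 with g | g
      · exact left rfl hβ hr hκ hk1 hk2 h1 g
      · exact middle rfl hβ hr hκ hk1 hk2 g h3
    · exact right0 rfl hβ hr hκ hk1 hk2 h3 h2

end B3_06

end Sok
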