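import Pool.Agent.Lib.MP_816dec_an.R1b3D
import Pool.Agent.Lib.MP_816dec_an.R1b3J07

/-!
MP_816dec_an (A3, row R1, b = 3): the cell `0.44 ≤ κ ≤ 0.46`.
-/

set_option autoImplicit false
set_option maxHeartbeats 4000000
set_option linter.unusedVariables false

open Complex Set

namespace Sok

namespace B3_07

private theorem yL {κ t : ℝ} (h : DomR κ t) (hk1 : 0.44 ≤ κ) (hk2 : κ ≤ 0.46) (ht1 : 0 ≤ t + κ) (ht2 : t + κ ≤ 1.156) :
    0 ≤ sy κ t ∧ sy κ t ≤ 0.278 := by
  have hy1 : 0 ≤ sy κ t := sy_nonneg h (by linarith)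
  have hy2 : sy κ t ≤ 0.278 := syR_ang2 h 0.44 0.46 1.156 0.923 0.6043 0.7976 0.278 0.7573 1.32048 hk1 hk2 (by linarith) (by norm_num) (by norm_num) (by norm_num)
    (cos_le_num (by norm_num)) (sin_le_num (by norm_num) (by norm_num)) (expm_le (by norm_num) (by norm_num) (by norm_num))
    (expn_ge (by norm_num) (by norm_num)) (by norm_num) (by norm_num) (by norm_num) (by norm_num) (by norm_num)
  exact ⟨hy1, hy2⟩

theorem left {β r h t κ : ℝ} (hh : h = 2 * Real.pi / (3 : ℕ)) (hβ : 0 < β) (hr : 10 ≤ r) (hκ : κ = β * r)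
    (hk1 : 0.44 ≤ κ) (hk2 : κ ≤ 0.46) (hT1 : 0 ≤ t + κ) (hT2 : t + κ ≤ 1.156) :
    ‖Xf β r h t (-1)‖ < |‖Xf β r h t 1‖ - ‖Xf β r h t 0‖| := by
  obtain ⟨q1, q2, q3⟩ := b3_h hh
  have hR0 := b3_R0 hβ hr hκ
  have hR := b3_R hβ hr hκ (by linarith)
  have hD1 : DomR κ t := b3_dom (by linarith) (by linarith) (Or.inl (by linarith))
  have hy := yL hD1 hk1 hk2 (by linarith) (by linarith)
  have hY : 0.8611 * Real.exp (r * 0.5876) ≤ ‖Xf β r h t 1‖ :=
    b3_lo hβ hr hκ (k := 1) (t' := t) (by push_cast; ring) hD1 0.02 1.6774 0.8611 0.5876 (by norm_num)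
      (T3_07_p1 hD1 hβ hk1 hk2 (by linarith) (by linarith) hR0 hR)
      (v5_Dup hD1 0.46 0 0.278 1 0.7573 1.6774 hk2 hy.1 hy.2 (ex_up 0 (by norm_num) (by norm_num) (by norm_num) (by norm_num)) (ex_um 0.278 (by norm_num) (by norm_num) (by norm_num) (by norm_num)) (by norm_num) (by norm_num) (by norm_num)) (by norm_num) (by norm_num)
      (b3_Vlo hD1 0.44 0.46 0 1.156 0.46 (-0.77652) 0.9184 0.60707 0.49912 0.5876 hk1 hk2 (by linarith) (by linarith) (by norm_num) (ex_lm 0.77652 (by norm_num) (by norm_num) (by norm_num) (by norm_num) (by norm_num)) (by norm_num) (by norm_num) (by norm_num) (by norm_num) (by norm_num) (by norm_num) (by norm_num) (by norm_num) (ex_um 0.49912 (by norm_num) (by norm_num) (by norm_num) (by norm_num)) (by norm_num))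
  have h0 : ‖Xf β r h t 0‖ ≤ 0.9297 * ‖Xf β r h t 1‖ :=
    b3_cmp 0.4077 0.09116 0.04933 0.30093 0.798214 0.131417 0.9297 hr (b3_HU0 1.23 0.44 0.46 (-2.0944) (-0.93839) 1.65065 1.71807 1.76086 0.58206 0.56791 1.71806 1.6859 0.08557 1.1536 2.1576 0.19241 0.28667 0.000001 2.294 0.49644 hβ hr hκ (by norm_num) hk1 hk2 (by norm_num) (by linarith) (by linarith) (by norm_num) (by norm_num) (ex_up 0.5412 (by norm_num) (by norm_num) (by norm_num) (by norm_num)) (ex_up 0.5658 (by norm_num) (by norm_num) (by norm_num) (by norm_num)) (ex_um 0.5412 (by norm_num) (by norm_num) (by norm_num) (by norm_num)) (ex_um 0.5658 (by norm_num) (by norm_num) (by norm_num) (by norm_num)) (by norm_num) (by norm_num) (ex_lp 0.5412 (by norm_num) (by norm_num) (by norm_num)) (by norm_num) (by norm_num) (by norm_num) (by norm_num) (by norm_num) (by norm_num) (by norm_num) (by norm_num) (by norm_num) (by norm_num) (by norm_num) (by norm_num) (by norm_num) (by norm_num) (v5_hump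 5.8599 21.739 4.6626 0.0000003148 0.000001 hβ hr hκ hk1 hk2 (by norm_num) (tb := (-0.93839)) (by linarith) (by norm_num) (by norm_num) (by norm_num) (by norm_num) (by norm_num) (by norm_num) (by norm_num) (ex_un 14 0.99 (by norm_num) (by norm_num) (by norm_num) (by norm_num)) (by norm_num)) (by norm_num) (by norm_num)) hY (by norm_num) (by norm_num) (by norm_num) (by norm_num) (by norm_num) (ex_un 0 0.9116 (by norm_num) (by norm_num) (by norm_num) (by norm_num)) (by norm_num) (by norm_num) (by norm_num) (ex_un 3 0.0093 (by norm_num) (by norm_num) (by norm_num) (by norm_num)) (by norm_num) (by norm_num)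
  have h2 : ‖Xf β r h t (-1)‖ ≤ 0.0201 * ‖Xf β r h t 1‖ := by
    exact b3_cmp 1 0 0.004866 0.5326 0 0.020092 0.0201 hr (b3_w (b3_UD 0.44 0.46 2.09439 3.2504 0.005 0.60144 0.005 1.8536 3.5554 0.055 hh hβ hr hκ (by norm_num) hk1 hk2 (by linarith) (by linarith) (by norm_num) (by norm_num) (by norm_num) (by norm_num) (by norm_num) (by norm_num) (by norm_num) (by norm_num) (by norm_num) (by norm_num) (by norm_num) (by norm_num) (by norm_num))) hY (by norm_num) (by norm_num) (by norm_num) (by norm_num) (by norm_num) (by norm_num) (by norm_num) (by norm_num) (by norm_num) (ex_un 5 0.326 (by norm_num) (by norm_num) (by norm_num) (by norm_num)) (by norm_num) (by norm_num)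
  exact b3_out1 0.9297 0.0201 hY (by norm_num) h0 h2 (by norm_num)

private theorem yM1 {κ t : ℝ} (h : DomR κ t) (hk1 : 0.44 ≤ κ) (hk2 : κ ≤ 0.46) (ht1 : 0 ≤ t + κ) (ht2 : t + κ ≤ 1.171) :
    0 ≤ sy κ t ∧ sy κ t ≤ 0.28 := by
  have hy1 : 0 ≤ sy κ t := sy_nonneg h (by linarith)
  have hy2 : sy κ t ≤ 0.28 := syR_ang2 h 0.44 0.46 1.171 0.935 0.5948 0.8048 0.28 0.75579 1.32312 hk1 hk2 (by linarith) (by norm_num) (by norm_num) (by norm_num)
    (cos_le_num (by norm_num)) (sin_le_num (by norm_num) (by norm_num)) (expm_le (by norm_num) (by norm_num) (by norm_num))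
    (expn_ge (by norm_num) (by norm_num)) (by norm_num) (by norm_num) (by norm_num) (by norm_num) (by norm_num)
  exact ⟨hy1, hy2⟩

private theorem yM0 {κ t : ℝ} (h : DomR κ t) (hk1 : 0.44 ≤ κ) (hk2 : κ ≤ 0.46) (ht1 : -0.9384 ≤ t + κ) (ht2 : t + κ ≤ -0.92339) :
    (-0.626) ≤ sy κ t ∧ sy κ t ≤ (-0.557) := by
  have hy1 : -0.626 ≤ sy κ t := syL_ang2 h 0.44 0.46 0.9384 0.814 0.6865 0.7271 0.626 1.8701 0.53472 hk1 hk2 (by linarith) (by norm_num) (by norm_num) (by norm_num) (by norm_num)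
    (cos_ge_num (by norm_num) (by norm_num)) (sin_le_num (by norm_num) (by norm_num))
    (expn_ge (by norm_num) (by norm_num)) (expm_ge (by norm_num) (by norm_num) (by norm_num) (by norm_num)) (by norm_num) (by norm_num) (by norm_num)
    (by norm_num) (by norm_num) (by norm_num)
  have hy2 : sy κ t ≤ -0.557 := syL_le h 0.44 0.46 0.92339 0.557 0.57292 0.57293 0.69373 0.72528 hk1 hk2 (by linarith) (by norm_num) (by norm_num) (by norm_num)
    (expm_ge (by norm_num) (by norm_num) (by norm_num) (by norm_num)) (expm_le (by norm_num) (by norm_num) (by norm_num)) (by norm_num)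
    (by norm_num) (by norm_num) (by norm_num) (by norm_num) (by norm_num) (by norm_num)
  exact ⟨hy1, hy2⟩

theorem middle {β r h t κ : ℝ} (hh : h = 2 * Real.pi / (3 : ℕ)) (hβ : 0 < β) (hr : 10 ≤ r) (hκ : κ = β * r)
    (hk1 : 0.44 ≤ κ) (hk2 : κ ≤ 0.46) (hT1 : 1.156 ≤ t + κ) (hT2 : t + κ ≤ 1.171) :
    ‖Xf β r h t (-1)‖ < |‖Xf β r h t 1‖ - ‖Xf β r h t 0‖| := by
  obtain ⟨q1, q2, q3⟩ := b3_h hh
  have hR0 := b3_R0 hβ hr hκ
  have hR := b3_R hβ hr hκ (by linarith)
  have hD1 : DomR κ t := b3_dom (by linarith) (by linarith) (Or.inl (by linarith))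
  have hD0 : DomR κ (t - h) := b3_dom (by linarith) (by linarith) (Or.inl (by linarith))
  have hy := yM1 hD1 hk1 hk2 (by linarith) (by linarith)
  have hy0 := yM0 hD0 hk1 hk2 (by linarith) (by linarith)
  have hY : 0.8606 * Real.exp (r * 0.57843) ≤ ‖Xf β r h t 1‖ :=
    b3_lo hβ hr hκ (k := 1) (t' := t) (by push_cast; ring) hD1 0.02 1.6809 0.8606 0.57843 (by norm_num)
      (T3_07_p1 hD1 hβ hk1 hk2 (by linarith) (by linarith) hR0 hR)
      (v5_Dup hD1 0.46 0 0.28 1 0.75579 1.6809 hk2 hy.1 hy.2 (ex_up 0 (by norm_num) (by norm_num) (by norm_num) (by norm_num)) (ex_um 0.28 (by norm_num) (by norm_num) (by norm_num) (by norm_num)) (by norm_num) (by norm_num) (by norm_num)) (by norm_num) (by norm_num)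
      (b3_Vlo hD1 0.44 0.46 0 1.171 0.46 (-0.77652) 0.9334 0.59509 0.51905 0.57843 hk1 hk2 (by linarith) (by linarith) (by norm_num) (ex_lm 0.77652 (by norm_num) (by norm_num) (by norm_num) (by norm_num) (by norm_num)) (by norm_num) (by norm_num) (by norm_num) (by norm_num) (by norm_num) (by norm_num) (by norm_num) (by norm_num) (ex_um 0.51905 (by norm_num) (by norm_num) (by norm_num) (by norm_num)) (by norm_num))
  have hU : ‖Xf β r h t 0‖ ≤ 1.4814 * Real.exp (r * 0.51877) :=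
    b3_up hβ hr hκ (k := 0) (t' := t - h) (by push_cast; ring) hD0 0.195 0.4235 1.4814 0.51877
      (T3_07_p0m hD0 hβ hk1 hk2 (by linarith) (by linarith) hR0 hR) (v5_Dlo hD0 0.44 (-0.626) (-0.557) (-0.592) 1.80759 0.4235 (by norm_num) hk1 hy0.1 hy0.2 (ex_lp 0.592 (by norm_num) (by norm_num) (by norm_num)) (by norm_num) (by norm_num) (by norm_num) (by norm_num)) (by norm_num) (by norm_num)
      (b3_VH hD0 1.09 0.44 0.46 1.52526 1.61543 1.65104 0.61904 0.60569 (-0.92339) 0.51877 (by norm_num) hk1 hk2 (by norm_num) (ex_up 0.4796 (by norm_num) (by norm_num) (by norm_num) (by norm_num)) (ex_up 0.5014 (by norm_num) (by norm_num) (by norm_num) (by norm_num)) (ex_um 0.4796 (by norm_num) (by norm_num) (by norm_num) (by norm_num)) (ex_um 0.5014 (by norm_num) (by norm_num) (by norm_num) (by norm_num)) (by norm_num) (by norm_num) (by norm_num) (by linarith) (by norm_num))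
  have h0 : ‖Xf β r h t 0‖ ≤ 0.9511 * ‖Xf β r h t 1‖ :=
    b3_cmp 1 0 0.5525 0.05966 0 0.95105 0.9511 hr (b3_w hU) hY (by norm_num) (by norm_num) (by norm_num) (by norm_num) (by norm_num) (by norm_num) (by norm_num) (by norm_num) (by norm_num) (ex_un 0 0.5966 (by norm_num) (by norm_num) (by norm_num) (by norm_num)) (by norm_num) (by norm_num)
  have h2 : ‖Xf β r h t (-1)‖ ≤ 0.0031 * ‖Xf β r h t 1‖ := by
    exact b3_cmp 1 0 0.005072 0.52843 0 0.003055 0.0031 hr ((b3_Xm hh).trans_le (b3_U1 0.44 0.46 3.25039 3.2654 1.21959 0.08557 1.1536 0.9389 0.00001 0.3513 0.000001 0.5182 hβ hr hκ (by norm_num) hk1 hk2 (by linarith) (by linarith) (by norm_num) (by norm_num) (by norm_num) (by norm_num) (by norm_num) (by norm_num) (by norm_num) (by norm_num) (by norm_num) (by norm_num) (by norm_num) (by norm_num) (by norm_num) (ex_un 9 0.389 (by norm_num) (by norm_num) (by norm_num) (by norm_num)) (v5_hump 1.6561 21.739 4.6626 0.0000003148 0.000001 hβ hr hκ hk1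 hk2 (by norm_num) (tb := 3.2654) (by linarith) (by norm_num) (by norm_num) (by norm_num) (by norm_num) (by norm_num) (by norm_num) (by norm_num) (ex_un 14 0.99 (by norm_num) (by norm_num) (by norm_num) (by norm_num)) (by norm_num)) (by norm_num))) hY (by norm_num) (by norm_num) (by norm_num) (by norm_num) (by norm_num) (by norm_num) (by norm_num) (by norm_num) (by norm_num) (ex_un 5 0.2843 (by norm_num) (by norm_num) (by norm_num) (by norm_num)) (by norm_num) (by norm_num)
  exact b3_out1 0.9511 0.0031 hY (by norm_num) h0 h2 (by norm_num)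

private theorem yR0 {κ t : ℝ} (h : DomR κ t) (hk1 : 0.44 ≤ κ) (hk2 : κ ≤ 0.46) (ht1 : -0.7124 ≤ t + κ) (ht2 : t + κ ≤ 0.0001) :
    (-0.398) ≤ sy κ t ∧ sy κ t ≤ 0.005 := by
  have hy1 : -0.398 ≤ sy κ t := syL_ang2 h 0.44 0.46 0.7124 0.62 0.8138 0.5811 0.398 1.48884 0.67166 hk1 hk2 (by linarith) (by norm_num) (by norm_num) (by norm_num) (by norm_num)
    (cos_ge_num (by norm_num) (by norm_num)) (sin_le_num (by norm_num) (by norm_num))
    (expn_ge (by norm_num) (by norm_num)) (expm_ge (by norm_num) (by norm_num) (by norm_num) (by norm_num)) (by norm_num) (by norm_num) (by norm_num)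
    (by norm_num) (by norm_num) (by norm_num)
  have hy2 : sy κ t ≤ 0.005 := syR_le h 0.44 0.46 0.0001 0.005 1.00501 0.0107 0.01092 0.01143 hk1 hk2 (by linarith) (by norm_num) (by norm_num)
    (expn_ge (by norm_num) (by norm_num)) (by norm_num) (by norm_num) (Or.inr ((mul_le_mul_of_nonneg_left (expn_le (E := 1.00502) (by norm_num) (by norm_num) (by norm_num)) (by norm_num)).trans (by norm_num))) (by norm_num) (by norm_num) (by norm_num)
  exact ⟨hy1, hy2⟩

theorem right0 {β r h t κ : ℝ} (hh : h = 2 * Real.pi / (3 : ℕ)) (hβ : 0 < β) (hr : 10 ≤ r) (hκ : κ = β * r)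
    (hk1 : 0.44 ≤ κ) (hk2 : κ ≤ 0.46) (hT1 : 1.382 ≤ t + κ) (hT2 : t + κ ≤ h) :
    ‖Xf β r h t (-1)‖ < |‖Xf β r h t 1‖ - ‖Xf β r h t 0‖| := by
  obtain ⟨q1, q2, q3⟩ := b3_h hh
  have hR0 := b3_R0 hβ hr hκ
  have hR := b3_R hβ hr hκ (by linarith)
  have hD0 : DomR κ (t - h) := b3_dom (by linarith) (by linarith) (Or.inl (by linarith))
  have hy := yR0 hD0 hk1 hk2 (by linarith) (by linarith)
  have hY : 0.904 * Real.exp (r * 0.73037) ≤ ‖Xf β r h t 0‖ :=
    b3_lo hβ hr hκ (k := 0) (t' := t - h) (by push_cast; ring) hD0 0.05 1.2195 0.904 0.73037 (by norm_num)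
      (T3_07_p0R hD0 hβ hk1 hk2 (by linarith) (by linarith) hR0 hR)
      (v5_Dup hD0 0.46 (-0.398) 0.005 1.48885 0.99502 1.2195 hk2 hy.1 hy.2 (ex_up 0.398 (by norm_num) (by norm_num) (by norm_num) (by norm_num)) (ex_um 0.005 (by norm_num) (by norm_num) (by norm_num) (by norm_num)) (by norm_num) (by norm_num) (by norm_num)) (by norm_num) (by norm_num)
      (b3_Vlo hD0 0.44 0.46 (-0.7124) 0.0001 1.18 0.16552 0.6332 0.80613 0.21552 0.73037 hk1 hk2 (by linarith) (by linarith) (by norm_num) (ex_lp 0.16552 (by norm_num) (by norm_num) (by norm_num)) (by norm_num) (by norm_num) (by norm_num) (by norm_num) (by norm_num) (by norm_num) (by norm_num) (by norm_num) (ex_um 0.21552 (by norm_num) (by norm_num) (by norm_num) (by norm_num)) (by norm_num))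
  have h1 : ‖Xf β r h t 1‖ ≤ 0.2226 * ‖Xf β r h t 0‖ := by
    rcases le_total (t + κ) 1.81 with g0 | g0
    · exact b3_cmp 0.07064 0.26548 0.0006733 0.73037 0.222477 0.00009 0.2226 hr (b3_X1.trans_le (b3_HF 0.59 0.44 0.46 1.382 1.81 1.28027 0.77137 0.76232 1.29642 1.3118 0.76231 2.6575 0.08557 2.4927 0.2007 0.08209 0.4445 0.000001 2.8471 0.1199 0.46489 hβ hr hκ (by norm_num) hk1 hk2 (by norm_num) (by linarith) (by linarith) (by norm_num) (ex_um 0.2596 (by norm_num) (by norm_num) (by norm_num) (by norm_num)) (ex_um 0.2714 (by norm_num) (by norm_num) (by norm_num) (by norm_num)) (ex_up 0.2596 (by norm_num) (by norm_num) (by norm_num) (by norm_num)) (ex_up 0.2714 (by norm_num) (by norm_num) (by norm_num) (by norm_num)) (by norm_num) (by norm_num) (ex_lm 0.2714 (by norm_num) (by norm_num) (by norm_num) (by norm_num) (by norm_num)) (by norm_num) (by norm_num) (by norm_num) (by norm_num) (by norm_num) (by norm_num) (by norm_num) (by norm_num) (by norm_num)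 (by norm_num) (by norm_num) (by norm_num) (ex_un 0 0.8209 (by norm_num) (by norm_num) (by norm_num) (by norm_num)) (v5_hump 3.1115 21.739 4.6626 0.0000003148 0.000001 hβ hr hκ hk1 hk2 (by norm_num) (tb := 1.81) (by linarith) (by norm_num) (by norm_num) (by norm_num) (by norm_num) (by norm_num) (by norm_num) (by norm_num) (ex_un 14 0.99 (by norm_num) (by norm_num) (by norm_num) (by norm_num)) (by norm_num)) (by norm_num) (by norm_num) (by norm_num))) hY (by norm_num) (by norm_num) (by norm_num) (by norm_num) (by norm_num) (ex_un 2 0.6548 (by norm_num) (by norm_num) (by norm_num) (by norm_num)) (by norm_num) (by norm_num) (by norm_num) (ex_un 7 0.3037 (by norm_num) (by norm_num) (by norm_num) (by norm_num)) (by norm_num) (by norm_num)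
    exact b3_cmp 1 0 0.01353 0.43037 0 0.073062 0.2226 hr (b3_w (b3_UD1 0.44 0.46 1.81 2.0944 0.25 0.60144 0.25 2.545 4.8816 0.3 hβ hr hκ (by norm_num) hk1 hk2 (by linarith) (by linarith) (by norm_num) (by norm_num) (by norm_num) (by norm_num) (by norm_num) (by norm_num) (by norm_num) (by norm_num) (by norm_num) (by norm_num) (by norm_num) (by norm_num) (by norm_num))) hY (by norm_num) (by norm_num) (by norm_num) (by norm_num) (by norm_num) (by norm_num) (by norm_num) (by norm_num) (by norm_num) (ex_un 4 0.3037 (by norm_num) (by norm_num) (by norm_num) (by norm_num)) (by norm_num) (by norm_num)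
  have h2 : ‖Xf β r h t (-1)‖ ≤ 0.0007 * ‖Xf β r h t 0‖ := by
    exact b3_cmp 1 0 0.00112 0.68037 0 0.000629 0.0007 hr ((b3_Xm hh).trans_le (b3_U1 0.44 0.46 3.47639 4.1888 1.44559 0.08557 1.1536 0.8211 0.00004 0.6073 0.000001 0.5073 hβ hr hκ (by norm_num) hk1 hk2 (by linarith) (by linarith) (by norm_num) (by norm_num) (by norm_num) (by norm_num) (by norm_num) (by norm_num) (by norm_num) (by norm_num) (by norm_num) (by norm_num) (by norm_num) (by norm_num) (by norm_num) (ex_un 8 0.211 (by norm_num) (by norm_num) (by norm_num) (by norm_num)) (v5_hump 0.7327 21.739 4.6626 0.0000003148 0.000001 hβ hr hκ hk1 hk2 (by norm_num) (tb := 4.1888) (by linarith) (by norm_num) (by norm_num) (by norm_num) (by norm_num) (by norm_num) (by norm_num) (by norm_num) (ex_un 14 0.99 (by norm_num) (by norm_num) (by norm_num) (by norm_num)) (by norm_num)) (by norm_num))) hY (by norm_num) (by norm_num) (by norm_num) (by norm_num) (by norm_num) (by norm_num) (by norm_num)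 (by norm_num) (by norm_num) (ex_un 6 0.8037 (by norm_num) (by norm_num) (by norm_num) (by norm_num)) (by norm_num) (by norm_num)
  exact b3_out0 0.2226 0.0007 hY (by norm_num) h1 h2 (by norm_num)

private theorem yI {κ t : ℝ} (h : DomR κ t) (hk1 : 0.44 ≤ κ) (hk2 : κ ≤ 0.46) (ht1 : -0.9234 ≤ t + κ) (ht2 : t + κ ≤ -0.71239) :
    (-0.608) ≤ sy κ t ∧ sy κ t ≤ (-0.375) := by
  have hy1 : -0.608 ≤ sy κ t := syL_ang2 h 0.44 0.46 0.9234 0.803 0.6945 0.7195 0.608 1.83674 0.54443 hk1 hk2 (by linarith) (by norm_num) (by norm_num) (by norm_num) (by norm_num)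
    (cos_ge_num (by norm_num) (by norm_num)) (sin_le_num (by norm_num) (by norm_num))
    (expn_ge (by norm_num) (by norm_num)) (expm_ge (by norm_num) (by norm_num) (by norm_num) (by norm_num)) (by norm_num) (by norm_num) (by norm_num)
    (by norm_num) (by norm_num) (by norm_num)
  have hy2 : sy κ t ≤ -0.375 := syL_le h 0.44 0.46 0.71239 0.375 0.68728 0.68729 0.56028 0.58576 hk1 hk2 (by linarith) (by norm_num) (by norm_num) (by norm_num)
    (expm_ge (by norm_num) (by norm_num) (by norm_num) (by norm_num)) (expm_le (by norm_num) (by norm_num) (by norm_num)) (by norm_num)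
    (by norm_num) (by norm_num) (by norm_num) (by norm_num) (by norm_num) (by norm_num)
  exact ⟨hy1, hy2⟩

theorem innE {β r h t κ : ℝ} (hh : h = 2 * Real.pi / (3 : ℕ)) (hβ : 0 < β) (hr : 10 ≤ r) (hκ : κ = β * r)
    (hk1 : 0.44 ≤ κ) (hk2 : κ ≤ 0.46) (hT1 : 1.171 ≤ t + κ) (hT2 : t + κ ≤ 1.382) :
    ‖Xf β r h t (-1)‖ ≤ 0.00625 * ‖Xf β r h t 0‖ ∧ ‖Xf β r h (t + β) (-1)‖ ≤ 0.00625 * ‖Xf β r h t 0‖ := by
  obtain ⟨q1, q2, q3⟩ := b3_h hh
  have hR0 := b3_R0 hβ hr hκ
  have hR := b3_R hβ hr hκ (by linarith)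
  have hD0 : DomR κ (t - h) := b3_dom (by linarith) (by linarith) (Or.inl (by linarith))
  have hy := yI hD0 hk1 hk2 (by linarith) (by linarith)
  have hY : 0.9025 * Real.exp (r * 0.50218) ≤ ‖Xf β r h t 0‖ :=
    b3_lo hβ hr hκ (k := 0) (t' := t - h) (by push_cast; ring) hD0 0.175 0.698 0.9025 0.50218 (by norm_num)
      (T3_07_p0 hD0 hβ hk1 hk2 (by linarith) (by linarith) hR0 hR)
      (v5_Dup hD0 0.46 (-0.608) (-0.375) 1.83676 1.455 0.698 hk2 hy.1 hy.2 (ex_up 0.608 (by norm_num) (by norm_num) (by norm_num) (by norm_num)) (ex_up 0.375 (by norm_num) (by norm_num) (by norm_num) (by norm_num)) (by norm_num) (by norm_num) (by norm_num)) (by norm_num) (by norm_num)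
      (b3_Vlo hD0 0.44 0.46 (-0.9234) (-0.71239) 1.21 0.19063 0.831 0.67413 0.39434 0.50218 hk1 hk2 (by linarith) (by linarith) (by norm_num) (ex_lp 0.19063 (by norm_num) (by norm_num) (by norm_num)) (by norm_num) (by norm_num) (by norm_num) (by norm_num) (by norm_num) (by norm_num) (by norm_num) (by norm_num) (ex_um 0.39434 (by norm_num) (by norm_num) (by norm_num) (by norm_num)) (by norm_num))
  constructor
  · exact b3_cmp 1 0 0.0109 0.45218 0 0.006249 0.00625 hr ((b3_Xm hh).trans_le (b3_U1 0.44 0.46 3.26539 3.4764 1.23459 0.08557 1.1536 0.9439 0.00001 0.3363 0.000001 0.5174 hβ hr hκ (by norm_num) hk1 hk2 (by linarith) (by linarith) (by norm_num) (by norm_num) (by norm_num) (by norm_num) (by norm_num) (by norm_num) (by norm_num) (by norm_num) (by norm_num) (by norm_num) (by norm_num) (by norm_num) (by norm_num) (ex_un 9 0.439 (by norm_num) (by norm_num) (by norm_num) (by norm_num)) (v5_hump 1.4451 21.739 4.6626 0.0000003148 0.000001 hβ hr hκ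 hk1 hk2 (by norm_num) (tb := 3.4764) (by linarith) (by norm_num) (by norm_num) (by norm_num) (by norm_num) (by norm_num) (by norm_num) (by norm_num) (ex_un 14 0.99 (by norm_num) (by norm_num) (by norm_num) (by norm_num)) (by norm_num)) (by norm_num))) hY (by norm_num) (by norm_num) (by norm_num) (by norm_num) (by norm_num) (by norm_num) (by norm_num) (by norm_num) (by norm_num) (ex_un 4 0.5218 (by norm_num) (by norm_num) (by norm_num) (by norm_num)) (by norm_num) (by norm_num)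
  · exact b3_cmp 1 0 0.0109 0.45218 0 0.006249 0.00625 hr ((b3_Xm hh).trans_le (b3_U1 0.44 0.46 3.26539 3.5224 1.23459 0.08557 1.1536 0.9439 0.00001 0.3363 0.000001 0.5174 hβ hr hκ (by norm_num) hk1 hk2 (by linarith) (by linarith) (by norm_num) (by norm_num) (by norm_num) (by norm_num) (by norm_num) (by norm_num) (by norm_num) (by norm_num) (by norm_num) (by norm_num) (by norm_num) (by norm_num) (by norm_num) (ex_un 9 0.439 (by norm_num) (by norm_num) (by norm_num) (by norm_num)) (v5_hump 1.3991 21.739 4.6626 0.0000003148 0.000001 hβ hr hκ hk1 hk2 (by norm_num) (tb := 3.5224) (by linarith) (by norm_num) (by norm_num) (by norm_num) (by norm_num) (by norm_num) (by norm_num) (by norm_num) (ex_un 14 0.99 (by norm_num) (by norm_num) (by norm_num) (by norm_num)) (by norm_num)) (by norm_num))) hY (by norm_num) (by norm_num) (by norm_num) (by norm_num) (by norm_num) (by norm_num) (by norm_num) (by norm_num) (by norm_num) (ex_un 4 0.5218 (by norm_num) (by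 norm_num) (by norm_num) (by norm_num)) (by norm_num) (by norm_num)

private theorem yA0 {κ t : ℝ} (h : DomR κ t) (hk1 : 0.44 ≤ κ) (hk2 : κ ≤ 0.46) (ht1 : 1.171 ≤ t + κ) (ht2 : t + κ ≤ 1.186) :
    0.267 ≤ sy κ t ∧ sy κ t ≤ 0.281 := by
  have hy1 : 0.267 ≤ sy κ t := syR_ge h 0.44 0.46 1.171 0.267 1.30604 1.30605 0.75807 0.79254 hk1 hk2 (by linarith) (by norm_num) (by norm_num)
    (expn_ge (by norm_num) (by norm_num)) (expn_le (by norm_num) (by norm_num) (by norm_num)) (by norm_num)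
    (by norm_num) (by norm_num) (by norm_num) (by norm_num) (by norm_num) (by norm_num)
  have hy2 : sy κ t ≤ 0.281 := syR_ang2 h 0.44 0.46 1.186 0.942 0.5892 0.8089 0.281 0.75503 1.32445 hk1 hk2 (by linarith) (by norm_num) (by norm_num) (by norm_num)
    (cos_le_num (by norm_num)) (sin_le_num (by norm_num) (by norm_num)) (expm_le (by norm_num) (by norm_num) (by norm_num))
    (expn_ge (by norm_num) (by norm_num)) (by norm_num) (by norm_num) (by norm_num) (by norm_num) (by norm_num)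
  exact ⟨hy1, hy2⟩

private theorem yB0 {κ t : ℝ} (h : DomR κ t) (hk1 : 0.44 ≤ κ) (hk2 : κ ≤ 0.46) (ht1 : -0.9234 ≤ t + κ) (ht2 : t + κ ≤ -0.90839) :
    (-0.608) ≤ sy κ t ∧ sy κ t ≤ (-0.543) := by
  have hy1 : -0.608 ≤ sy κ t := syL_ang2 h 0.44 0.46 0.9234 0.803 0.6945 0.7195 0.608 1.83674 0.54443 hk1 hk2 (by linarith) (by norm_num) (by norm_num) (by norm_num) (by norm_num)
    (cos_ge_num (by norm_num) (by norm_num)) (sin_le_num (by norm_num) (by norm_num))
    (expn_ge (by norm_num) (by norm_num)) (expm_ge (by norm_num) (by norm_num) (by norm_num) (by norm_num)) (by norm_num) (by norm_num) (by norm_num)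
    (by norm_num) (by norm_num) (by norm_num)
  have hy2 : sy κ t ≤ -0.543 := syL_le h 0.44 0.46 0.90839 0.543 0.581 0.58101 0.68583 0.71702 hk1 hk2 (by linarith) (by norm_num) (by norm_num) (by norm_num)
    (expm_ge (by norm_num) (by norm_num) (by norm_num) (by norm_num)) (expm_le (by norm_num) (by norm_num) (by norm_num)) (by norm_num)
    (by norm_num) (by norm_num) (by norm_num) (by norm_num) (by norm_num) (by norm_num)
  exact ⟨hy1, hy2⟩

theorem pc0 {β r h t κ : ℝ} (hh : h = 2 * Real.pi / (3 : ℕ)) (hβ : 0 < β) (hr : 10 ≤ r) (hκ : κ = β * r)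
    (hk1 : 0.44 ≤ κ) (hk2 : κ ≤ 0.46) (hT1 : 1.171 ≤ t + κ) (hT2 : t + κ ≤ 1.186) :
    Xf β r h t 0 ≠ 0 ∧ r * 0.1311 ≤ (Ld β r h t 1 - Ld β r h t 0).im ∧
      ‖(((-1 : ℤ) : ℂ) - 1) * Ld β r h t 0 - ((-1 : ℤ) : ℂ) * Ld β r h t 1‖ ≤ r * 7.87 := by
  obtain ⟨q1, q2, q3⟩ := b3_h hh
  have hR0 := b3_R0 hβ hr hκ
  have hR := b3_R hβ hr hκ (by linarith)
  have hD1 : DomR κ t := b3_dom (by linarith) (by linarith) (Or.inl (by linarith))
  have hD0 : DomR κ (t - h) := b3_dom (by linarith) (by linarith) (Or.inl (by linarith))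
  have y1 := yA0 hD1 hk1 hk2 (by linarith) (by linarith)
  have y0 := yB0 hD0 hk1 hk2 (by linarith) (by linarith)
  have j1 := T3_07_d1_0 hD1 hβ hk1 hk2 (by linarith) (by linarith) hR0 hR
  exact b3_piece 0.44 0.46 0.267 0.281 0.274 0.76033 0.76568 0.75503 0.3523 1.6474 1.6827 0.03 0.025 0.025 0.8548 0.2347 0 0 (-0.608) (-0.543) (-0.576) 1.7789 1.83676 0.845 0.4358 0.03 0.29 0.175 11.7172 14.9982 0.5487 1.064 0.1311 7.87
    hβ hr hκ (by norm_num) hk1 hk2 hD1 hD0 j1 (j1 _ (by rw [sub_self, norm_zero]; norm_num))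
    (T3_07_d0_0 hD0 hβ hk1 hk2 (by linarith) (by linarith) hR0 hR)
    (T3_07_p0 hD0 hβ hk1 hk2 (by linarith) (by linarith) hR0 hR)
    y1.1 y1.2 y0.1 y0.2 (by norm_num)
    (ex_um 0.267 (by norm_num) (by norm_num) (by norm_num) (by norm_num)) (ex_um 0.281 (by norm_num) (by norm_num) (by norm_num) (by norm_num)) (ex_lm 0.274 (by norm_num) (by norm_num) (by norm_num) (by norm_num) (by norm_num)) (by norm_num) (by norm_num) (by norm_num) (by norm_num) (by norm_num) (by norm_num) (by norm_num) (by norm_num)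
    (by norm_num) (by norm_num) (by norm_num) (by norm_num) (by norm_num) (by norm_num) (by norm_num) (by norm_num) (by norm_num) (by norm_num)
    (ex_up 0.608 (by norm_num) (by norm_num) (by norm_num) (by norm_num)) (ex_lp 0.576 (by norm_num) (by norm_num) (by norm_num)) (by norm_num) (by norm_num) (by norm_num) (by norm_num) (by norm_num) (by norm_num)
    (by norm_num) (by norm_num) (by norm_num) (by norm_num) (by norm_num) (by norm_num) (by norm_num) (by norm_num) (by norm_num) (by norm_num) (by norm_num)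
    (by norm_num) (by norm_num) (by norm_num) (by norm_num)

private theorem yA1 {κ t : ℝ} (h : DomR κ t) (hk1 : 0.44 ≤ κ) (hk2 : κ ≤ 0.46) (ht1 : 1.186 ≤ t + κ) (ht2 : t + κ ≤ 1.201) :
    0.268 ≤ sy κ t ∧ sy κ t ≤ 0.283 := by
  have hy1 : 0.268 ≤ sy κ t := syR_ge h 0.44 0.46 1.186 0.268 1.30734 1.30735 0.76166 0.7963 hk1 hk2 (by linarith) (by norm_num) (by norm_num)
    (expn_ge (by norm_num) (by norm_num)) (expn_le (by norm_num) (by norm_num) (by norm_num)) (by norm_num)
    (by norm_num) (by norm_num) (by norm_num) (by norm_num) (by norm_num) (by norm_num)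
  have hy2 : sy κ t ≤ 0.283 := syR_ang2 h 0.44 0.46 1.201 0.954 0.5795 0.8159 0.283 0.75352 1.3271 hk1 hk2 (by linarith) (by norm_num) (by norm_num) (by norm_num)
    (cos_le_num (by norm_num)) (sin_le_num (by norm_num) (by norm_num)) (expm_le (by norm_num) (by norm_num) (by norm_num))
    (expn_ge (by norm_num) (by norm_num)) (by norm_num) (by norm_num) (by norm_num) (by norm_num) (by norm_num)
  exact ⟨hy1, hy2⟩

private theorem yB1 {κ t : ℝ} (h : DomR κ t) (hk1 : 0.44 ≤ κ) (hk2 : κ ≤ 0.46) (ht1 : -0.9084 ≤ t + κ) (ht2 : t + κ ≤ -0.89339) :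
    (-0.59) ≤ sy κ t ∧ sy κ t ≤ (-0.528) := by
  have hy1 : -0.59 ≤ sy κ t := syL_ang2 h 0.44 0.46 0.9084 0.79 0.7038 0.7104 0.59 1.80398 0.55432 hk1 hk2 (by linarith) (by norm_num) (by norm_num) (by norm_num) (by norm_num)
    (cos_ge_num (by norm_num) (by norm_num)) (sin_le_num (by norm_num) (by norm_num))
    (expn_ge (by norm_num) (by norm_num)) (expm_ge (by norm_num) (by norm_num) (by norm_num) (by norm_num)) (by norm_num) (by norm_num) (by norm_num)
    (by norm_num) (by norm_num) (by norm_num)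
  have hy2 : sy κ t ≤ -0.528 := syL_le h 0.44 0.46 0.89339 0.528 0.58978 0.58979 0.67696 0.70775 hk1 hk2 (by linarith) (by norm_num) (by norm_num) (by norm_num)
    (expm_ge (by norm_num) (by norm_num) (by norm_num) (by norm_num)) (expm_le (by norm_num) (by norm_num) (by norm_num)) (by norm_num)
    (by norm_num) (by norm_num) (by norm_num) (by norm_num) (by norm_num) (by norm_num)
  exact ⟨hy1, hy2⟩

theorem pc1 {β r h t κ : ℝ} (hh : h = 2 * Real.pi / (3 : ℕ)) (hβ : 0 < β) (hr : 10 ≤ r) (hκ : κ = β * r)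
    (hk1 : 0.44 ≤ κ) (hk2 : κ ≤ 0.46) (hT1 : 1.186 ≤ t + κ) (hT2 : t + κ ≤ 1.201) :
    Xf β r h t 0 ≠ 0 ∧ r * 0.1311 ≤ (Ld β r h t 1 - Ld β r h t 0).im ∧
      ‖(((-1 : ℤ) : ℂ) - 1) * Ld β r h t 0 - ((-1 : ℤ) : ℂ) * Ld β r h t 1‖ ≤ r * 7.87 := by
  obtain ⟨q1, q2, q3⟩ := b3_h hh
  have hR0 := b3_R0 hβ hr hκ
  have hR := b3_R hβ hr hκ (by linarith)
  have hD1 : DomR κ t := b3_dom (by linarith) (by linarith) (Or.inl (by linarith))
  have hD0 : DomR κ (t - h) := b3_dom (by linarith) (by linarith) (Or.inl (by linarith))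
  have y1 := yA1 hD1 hk1 hk2 (by linarith) (by linarith)
  have y0 := yB1 hD0 hk1 hk2 (by linarith) (by linarith)
  have j1 := T3_07_d1_0 hD1 hβ hk1 hk2 (by linarith) (by linarith) hR0 hR
  exact b3_piece 0.44 0.46 0.268 0.283 0.276 0.75881 0.76491 0.75352 0.3519 1.6492 1.6862 0.03 0.025 0.025 0.8548 0.2343 0 0 (-0.59) (-0.528) (-0.559) 1.74891 1.80399 0.8299 0.4488 0.03 0.29 0.175 11.7172 14.5153 0.5517 1.0202 0.1311 7.87
    hβ hr hκ (by norm_num) hk1 hk2 hD1 hD0 j1 (j1 _ (by rw [sub_self, norm_zero]; norm_num))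
    (T3_07_d0_0 hD0 hβ hk1 hk2 (by linarith) (by linarith) hR0 hR)
    (T3_07_p0 hD0 hβ hk1 hk2 (by linarith) (by linarith) hR0 hR)
    y1.1 y1.2 y0.1 y0.2 (by norm_num)
    (ex_um 0.268 (by norm_num) (by norm_num) (by norm_num) (by norm_num)) (ex_um 0.283 (by norm_num) (by norm_num) (by norm_num) (by norm_num)) (ex_lm 0.276 (by norm_num) (by norm_num) (by norm_num) (by norm_num) (by norm_num)) (by norm_num) (by norm_num) (by norm_num) (by norm_num) (by norm_num) (by norm_num) (by norm_num) (by norm_num)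
    (by norm_num) (by norm_num) (by norm_num) (by norm_num) (by norm_num) (by norm_num) (by norm_num) (by norm_num) (by norm_num) (by norm_num)
    (ex_up 0.59 (by norm_num) (by norm_num) (by norm_num) (by norm_num)) (ex_lp 0.559 (by norm_num) (by norm_num) (by norm_num)) (by norm_num) (by norm_num) (by norm_num) (by norm_num) (by norm_num) (by norm_num)
    (by norm_num) (by norm_num) (by norm_num) (by norm_num) (by norm_num) (by norm_num) (by norm_num) (by norm_num) (by norm_num) (by norm_num) (by norm_num)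
    (by norm_num) (by norm_num) (by norm_num) (by norm_num)

private theorem yA2 {κ t : ℝ} (h : DomR κ t) (hk1 : 0.44 ≤ κ) (hk2 : κ ≤ 0.46) (ht1 : 1.201 ≤ t + κ) (ht2 : t + κ ≤ 1.218) :
    0.268 ≤ sy κ t ∧ sy κ t ≤ 0.285 := by
  have hy1 : 0.268 ≤ sy κ t := syR_ge h 0.44 0.46 1.201 0.268 1.30734 1.30735 0.76166 0.7963 hk1 hk2 (by linarith) (by norm_num) (by norm_num)
    (expn_ge (by norm_num) (by norm_num)) (expn_le (by norm_num) (by norm_num) (by norm_num)) (by norm_num)
    (by norm_num) (by norm_num) (by norm_num) (by norm_num) (by norm_num) (by norm_num)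
  have hy2 : sy κ t ≤ 0.285 := syR_ang2 h 0.44 0.46 1.218 0.967 0.5689 0.8234 0.285 0.75202 1.32976 hk1 hk2 (by linarith) (by norm_num) (by norm_num) (by norm_num)
    (cos_le_num (by norm_num)) (sin_le_num (by norm_num) (by norm_num)) (expm_le (by norm_num) (by norm_num) (by norm_num))
    (expn_ge (by norm_num) (by norm_num)) (by norm_num) (by norm_num) (by norm_num) (by norm_num) (by norm_num)
  exact ⟨hy1, hy2⟩

private theorem yB2 {κ t : ℝ} (h : DomR κ t) (hk1 : 0.44 ≤ κ) (hk2 : κ ≤ 0.46) (ht1 : -0.8934 ≤ t + κ) (ht2 : t + κ ≤ -0.87639) :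
    (-0.573) ≤ sy κ t ∧ sy κ t ≤ (-0.512) := by
  have hy1 : -0.573 ≤ sy κ t := syL_ang2 h 0.44 0.46 0.8934 0.778 0.7123 0.7019 0.573 1.77357 0.56383 hk1 hk2 (by linarith) (by norm_num) (by norm_num) (by norm_num) (by norm_num)
    (cos_ge_num (by norm_num) (by norm_num)) (sin_le_num (by norm_num) (by norm_num))
    (expn_ge (by norm_num) (by norm_num)) (expm_ge (by norm_num) (by norm_num) (by norm_num) (by norm_num)) (by norm_num) (by norm_num) (by norm_num)
    (by norm_num) (by norm_num) (by norm_num)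
  have hy2 : sy κ t ≤ -0.512 := syL_le h 0.44 0.46 0.87639 0.512 0.59929 0.5993 0.66703 0.69737 hk1 hk2 (by linarith) (by norm_num) (by norm_num) (by norm_num)
    (expm_ge (by norm_num) (by norm_num) (by norm_num) (by norm_num)) (expm_le (by norm_num) (by norm_num) (by norm_num)) (by norm_num)
    (by norm_num) (by norm_num) (by norm_num) (by norm_num) (by norm_num) (by norm_num)
  exact ⟨hy1, hy2⟩

theorem pc2 {β r h t κ : ℝ} (hh : h = 2 * Real.pi / (3 : ℕ)) (hβ : 0 < β) (hr : 10 ≤ r) (hκ : κ = β * r)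
    (hk1 : 0.44 ≤ κ) (hk2 : κ ≤ 0.46) (hT1 : 1.201 ≤ t + κ) (hT2 : t + κ ≤ 1.218) :
    Xf β r h t 0 ≠ 0 ∧ r * 0.1311 ≤ (Ld β r h t 1 - Ld β r h t 0).im ∧
      ‖(((-1 : ℤ) : ℂ) - 1) * Ld β r h t 0 - ((-1 : ℤ) : ℂ) * Ld β r h t 1‖ ≤ r * 7.87 := by
  obtain ⟨q1, q2, q3⟩ := b3_h hh
  have hR0 := b3_R0 hβ hr hκ
  have hR := b3_R hβ hr hκ (by linarith)
  have hD1 : DomR κ t := b3_dom (by linarith) (by linarith) (Or.inl (by linarith))
  have hD0 : DomR κ (t - h) := b3_dom (by linarith) (by linarith) (Or.inl (by linarith))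
  have y1 := yA2 hD1 hk1 hk2 (by linarith) (by linarith)
  have y0 := yB2 hD0 hk1 hk2 (by linarith) (by linarith)
  have j1 := T3_07_d1_1 hD1 hβ hk1 hk2 (by linarith) (by linarith) hR0 hR
  exact b3_piece 0.44 0.46 0.268 0.285 0.277 0.75805 0.76491 0.75202 0.3519 1.6492 1.6897 0.03 0.03 0.03 1.031 0.2826 0 0 (-0.573) (-0.512) (-0.542) 1.71943 1.77358 0.8159 0.4618 0.04 0.265 0.175 8.0304 9.6416 0.5568 0.9838 0.1311 7.87
    hβ hr hκ (by norm_num) hk1 hk2 hD1 hD0 j1 (j1 _ (by rw [sub_self, norm_zero]; norm_num))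
    (T3_07_d0_1 hD0 hβ hk1 hk2 (by linarith) (by linarith) hR0 hR)
    (T3_07_p0 hD0 hβ hk1 hk2 (by linarith) (by linarith) hR0 hR)
    y1.1 y1.2 y0.1 y0.2 (by norm_num)
    (ex_um 0.268 (by norm_num) (by norm_num) (by norm_num) (by norm_num)) (ex_um 0.285 (by norm_num) (by norm_num) (by norm_num) (by norm_num)) (ex_lm 0.277 (by norm_num) (by norm_num) (by norm_num) (by norm_num) (by norm_num)) (by norm_num) (by norm_num) (by norm_num) (by norm_num) (by norm_num) (by norm_num) (by norm_num) (by norm_num)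
    (by norm_num) (by norm_num) (by norm_num) (by norm_num) (by norm_num) (by norm_num) (by norm_num) (by norm_num) (by norm_num) (by norm_num)
    (ex_up 0.573 (by norm_num) (by norm_num) (by norm_num) (by norm_num)) (ex_lp 0.542 (by norm_num) (by norm_num) (by norm_num)) (by norm_num) (by norm_num) (by norm_num) (by norm_num) (by norm_num) (by norm_num)
    (by norm_num) (by norm_num) (by norm_num) (by norm_num) (by norm_num) (by norm_num) (by norm_num) (by norm_num) (by norm_num) (by norm_num) (by norm_num)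
    (by norm_num) (by norm_num) (by norm_num) (by norm_num)

private theorem yA3 {κ t : ℝ} (h : DomR κ t) (hk1 : 0.44 ≤ κ) (hk2 : κ ≤ 0.46) (ht1 : 1.218 ≤ t + κ) (ht2 : t + κ ≤ 1.236) :
    0.268 ≤ sy κ t ∧ sy κ t ≤ 0.287 := by
  have hy1 : 0.268 ≤ sy κ t := syR_ge h 0.44 0.46 1.218 0.268 1.30734 1.30735 0.76166 0.7963 hk1 hk2 (by linarith) (by norm_num) (by norm_num)
    (expn_ge (by norm_num) (by norm_num)) (expn_le (by norm_num) (by norm_num) (by norm_num)) (by norm_num)
    (by norm_num) (by norm_num) (by norm_num) (by norm_num) (by norm_num) (by norm_num)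
  have hy2 : sy κ t ≤ 0.287 := syR_ang2 h 0.44 0.46 1.236 0.981 0.5575 0.8313 0.287 0.75052 1.33242 hk1 hk2 (by linarith) (by norm_num) (by norm_num) (by norm_num)
    (cos_le_num (by norm_num)) (sin_le_num (by norm_num) (by norm_num)) (expm_le (by norm_num) (by norm_num) (by norm_num))
    (expn_ge (by norm_num) (by norm_num)) (by norm_num) (by norm_num) (by norm_num) (by norm_num) (by norm_num)
  exact ⟨hy1, hy2⟩

private theorem yB3 {κ t : ℝ} (h : DomR κ t) (hk1 : 0.44 ≤ κ) (hk2 : κ ≤ 0.46) (ht1 : -0.8764 ≤ t + κ) (ht2 : t + κ ≤ -0.85839) :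
    (-0.554) ≤ sy κ t ∧ sy κ t ≤ (-0.495) := by
  have hy1 : -0.554 ≤ sy κ t := syL_ang2 h 0.44 0.46 0.8764 0.764 0.722 0.6919 0.554 1.74019 0.57464 hk1 hk2 (by linarith) (by norm_num) (by norm_num) (by norm_num) (by norm_num)
    (cos_ge_num (by norm_num) (by norm_num)) (sin_le_num (by norm_num) (by norm_num))
    (expn_ge (by norm_num) (by norm_num)) (expm_ge (by norm_num) (by norm_num) (by norm_num) (by norm_num)) (by norm_num) (by norm_num) (by norm_num)
    (by norm_num) (by norm_num) (by norm_num)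
  have hy2 : sy κ t ≤ -0.495 := syL_le h 0.44 0.46 0.85839 0.495 0.60957 0.60958 0.65595 0.68578 hk1 hk2 (by linarith) (by norm_num) (by norm_num) (by norm_num)
    (expm_ge (by norm_num) (by norm_num) (by norm_num) (by norm_num)) (expm_le (by norm_num) (by norm_num) (by norm_num)) (by norm_num)
    (by norm_num) (by norm_num) (by norm_num) (by norm_num) (by norm_num) (by norm_num)
  exact ⟨hy1, hy2⟩

theorem pc3 {β r h t κ : ℝ} (hh : h = 2 * Real.pi / (3 : ℕ)) (hβ : 0 < β) (hr : 10 ≤ r) (hκ : κ = β * r)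
    (hk1 : 0.44 ≤ κ) (hk2 : κ ≤ 0.46) (hT1 : 1.218 ≤ t + κ) (hT2 : t + κ ≤ 1.236) :
    Xf β r h t 0 ≠ 0 ∧ r * 0.1311 ≤ (Ld β r h t 1 - Ld β r h t 0).im ∧
      ‖(((-1 : ℤ) : ℂ) - 1) * Ld β r h t 0 - ((-1 : ℤ) : ℂ) * Ld β r h t 1‖ ≤ r * 7.87 := by
  obtain ⟨q1, q2, q3⟩ := b3_h hh
  have hR0 := b3_R0 hβ hr hκ
  have hR := b3_R hβ hr hκ (by linarith)
  have hD1 : DomR κ t := b3_dom (by linarith) (by linarith) (Or.inl (by linarith))
  have hD0 : DomR κ (t - h) := b3_dom (by linarith) (by linarith) (Or.inl (by linarith))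
  have y1 := yA3 hD1 hk1 hk2 (by linarith) (by linarith)
  have y0 := yB3 hD0 hk1 hk2 (by linarith) (by linarith)
  have j1 := T3_07_d1_1 hD1 hβ hk1 hk2 (by linarith) (by linarith) hR0 hR
  exact b3_piece 0.44 0.46 0.268 0.287 0.278 0.75729 0.76491 0.75052 0.3519 1.6492 1.6932 0.03 0.03 0.03 1.031 0.2826 0 0 (-0.554) (-0.495) (-0.524) 1.68876 1.7402 0.8005 0.4772 0.04 0.265 0.175 8.0304 9.3057 0.5583 0.9366 0.1311 7.87
    hβ hr hκ (by norm_num) hk1 hk2 hD1 hD0 j1 (j1 _ (by rw [sub_self, norm_zero]; norm_num))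
    (T3_07_d0_1 hD0 hβ hk1 hk2 (by linarith) (by linarith) hR0 hR)
    (T3_07_p0 hD0 hβ hk1 hk2 (by linarith) (by linarith) hR0 hR)
    y1.1 y1.2 y0.1 y0.2 (by norm_num)
    (ex_um 0.268 (by norm_num) (by norm_num) (by norm_num) (by norm_num)) (ex_um 0.287 (by norm_num) (by norm_num) (by norm_num) (by norm_num)) (ex_lm 0.278 (by norm_num) (by norm_num) (by norm_num) (by norm_num) (by norm_num)) (by norm_num) (by norm_num) (by norm_num) (by norm_num) (by norm_num) (by norm_num) (by norm_num) (by norm_num)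
    (by norm_num) (by norm_num) (by norm_num) (by norm_num) (by norm_num) (by norm_num) (by norm_num) (by norm_num) (by norm_num) (by norm_num)
    (ex_up 0.554 (by norm_num) (by norm_num) (by norm_num) (by norm_num)) (ex_lp 0.524 (by norm_num) (by norm_num) (by norm_num)) (by norm_num) (by norm_num) (by norm_num) (by norm_num) (by norm_num) (by norm_num)
    (by norm_num) (by norm_num) (by norm_num) (by norm_num) (by norm_num) (by norm_num) (by norm_num) (by norm_num) (by norm_num) (by norm_num) (by norm_num)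
    (by norm_num) (by norm_num) (by norm_num) (by norm_num)

private theorem yA4 {κ t : ℝ} (h : DomR κ t) (hk1 : 0.44 ≤ κ) (hk2 : κ ≤ 0.46) (ht1 : 1.236 ≤ t + κ) (ht2 : t + κ ≤ 1.254) :
    0.268 ≤ sy κ t ∧ sy κ t ≤ 0.29 := by
  have hy1 : 0.268 ≤ sy κ t := syR_ge h 0.44 0.46 1.236 0.268 1.30734 1.30735 0.76166 0.7963 hk1 hk2 (by linarith) (by norm_num) (by norm_num)
    (expn_ge (by norm_num) (by norm_num)) (expn_le (by norm_num) (by norm_num) (by norm_num)) (by norm_num)
    (by norm_num) (by norm_num) (by norm_num) (by norm_num) (by norm_num) (by norm_num)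
  have hy2 : sy κ t ≤ 0.29 := syR_ang2 h 0.44 0.46 1.254 1.001 0.5409 0.8423 0.29 0.74827 1.33642 hk1 hk2 (by linarith) (by norm_num) (by norm_num) (by norm_num)
    (cos_le_num (by norm_num)) (sin_le_num (by norm_num) (by norm_num)) (expm_le (by norm_num) (by norm_num) (by norm_num))
    (expn_ge (by norm_num) (by norm_num)) (by norm_num) (by norm_num) (by norm_num) (by norm_num) (by norm_num)
  exact ⟨hy1, hy2⟩

private theorem yB4 {κ t : ℝ} (h : DomR κ t) (hk1 : 0.44 ≤ κ) (hk2 : κ ≤ 0.46) (ht1 : -0.8584 ≤ t + κ) (ht2 : t + κ ≤ -0.84039) :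
    (-0.535) ≤ sy κ t ∧ sy κ t ≤ (-0.479) := by
  have hy1 : -0.535 ≤ sy κ t := syL_ang2 h 0.44 0.46 0.8584 0.749 0.7323 0.681 0.535 1.70744 0.58566 hk1 hk2 (by linarith) (by norm_num) (by norm_num) (by norm_num) (by norm_num)
    (cos_ge_num (by norm_num) (by norm_num)) (sin_le_num (by norm_num) (by norm_num))
    (expn_ge (by norm_num) (by norm_num)) (expm_ge (by norm_num) (by norm_num) (by norm_num) (by norm_num)) (by norm_num) (by norm_num) (by norm_num)
    (by norm_num) (by norm_num) (by norm_num)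
  have hy2 : sy κ t ≤ -0.479 := syL_le h 0.44 0.46 0.84039 0.479 0.6194 0.61941 0.64498 0.67432 hk1 hk2 (by linarith) (by norm_num) (by norm_num) (by norm_num)
    (expm_ge (by norm_num) (by norm_num) (by norm_num) (by norm_num)) (expm_le (by norm_num) (by norm_num) (by norm_num)) (by norm_num)
    (by norm_num) (by norm_num) (by norm_num) (by norm_num) (by norm_num) (by norm_num)
  exact ⟨hy1, hy2⟩

theorem pc4 {β r h t κ : ℝ} (hh : h = 2 * Real.pi / (3 : ℕ)) (hβ : 0 < β) (hr : 10 ≤ r) (hκ : κ = β * r)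
    (hk1 : 0.44 ≤ κ) (hk2 : κ ≤ 0.46) (hT1 : 1.236 ≤ t + κ) (hT2 : t + κ ≤ 1.254) :
    Xf β r h t 0 ≠ 0 ∧ r * 0.1311 ≤ (Ld β r h t 1 - Ld β r h t 0).im ∧
      ‖(((-1 : ℤ) : ℂ) - 1) * Ld β r h t 0 - ((-1 : ℤ) : ℂ) * Ld β r h t 1‖ ≤ r * 7.87 := by
  obtain ⟨q1, q2, q3⟩ := b3_h hh
  have hR0 := b3_R0 hβ hr hκ
  have hR := b3_R hβ hr hκ (by linarith)
  have hD1 : DomR κ t := b3_dom (by linarith) (by linarith) (Or.inl (by linarith))
  have hD0 : DomR κ (t - h) := b3_dom (by linarith) (by linarith) (Or.inl (by linarith))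
  have y1 := yA4 hD1 hk1 hk2 (by linarith) (by linarith)
  have y0 := yB4 hD0 hk1 hk2 (by linarith) (by linarith)
  have j1 := T3_07_d1_1 hD1 hβ hk1 hk2 (by linarith) (by linarith) hR0 hR
  exact b3_piece 0.44 0.46 0.268 0.29 0.279 0.75653 0.76491 0.74827 0.3519 1.6492 1.6985 0.03 0.03 0.03 1.031 0.2826 0 0 (-0.535) (-0.479) (-0.507) 1.6603 1.70745 0.7855 0.4935 0.04 0.265 0.175 8.0304 8.9793 0.5558 0.8847 0.1311 7.87
    hβ hr hκ (by norm_num) hk1 hk2 hD1 hD0 j1 (j1 _ (by rw [sub_self, norm_zero]; norm_num))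
    (T3_07_d0_1 hD0 hβ hk1 hk2 (by linarith) (by linarith) hR0 hR)
    (T3_07_p0 hD0 hβ hk1 hk2 (by linarith) (by linarith) hR0 hR)
    y1.1 y1.2 y0.1 y0.2 (by norm_num)
    (ex_um 0.268 (by norm_num) (by norm_num) (by norm_num) (by norm_num)) (ex_um 0.29 (by norm_num) (by norm_num) (by norm_num) (by norm_num)) (ex_lm 0.279 (by norm_num) (by norm_num) (by norm_num) (by norm_num) (by norm_num)) (by norm_num) (by norm_num) (by norm_num) (by norm_num) (by norm_num) (by norm_num) (by norm_num) (by norm_num)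
    (by norm_num) (by norm_num) (by norm_num) (by norm_num) (by norm_num) (by norm_num) (by norm_num) (by norm_num) (by norm_num) (by norm_num)
    (ex_up 0.535 (by norm_num) (by norm_num) (by norm_num) (by norm_num)) (ex_lp 0.507 (by norm_num) (by norm_num) (by norm_num)) (by norm_num) (by norm_num) (by norm_num) (by norm_num) (by norm_num) (by norm_num)
    (by norm_num) (by norm_num) (by norm_num) (by norm_num) (by norm_num) (by norm_num) (by norm_num) (by norm_num) (by norm_num) (by norm_num) (by norm_num)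
    (by norm_num) (by norm_num) (by norm_num) (by norm_num)

private theorem yA5 {κ t : ℝ} (h : DomR κ t) (hk1 : 0.44 ≤ κ) (hk2 : κ ≤ 0.46) (ht1 : 1.254 ≤ t + κ) (ht2 : t + κ ≤ 1.271) :
    0.268 ≤ sy κ t ∧ sy κ t ≤ 0.291 := by
  have hy1 : 0.268 ≤ sy κ t := syR_ge h 0.44 0.46 1.254 0.268 1.30734 1.30735 0.76166 0.7963 hk1 hk2 (by linarith) (by norm_num) (by norm_num)
    (expn_ge (by norm_num) (by norm_num)) (expn_le (by norm_num) (by norm_num) (by norm_num)) (by norm_num)
    (by norm_num) (by norm_num) (by norm_num) (by norm_num) (by norm_num) (by norm_num)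
  have hy2 : sy κ t ≤ 0.291 := syR_ang2 h 0.44 0.46 1.271 1.008 0.535 0.846 0.291 0.74752 1.33776 hk1 hk2 (by linarith) (by norm_num) (by norm_num) (by norm_num)
    (cos_le_num (by norm_num)) (sin_le_num (by norm_num) (by norm_num)) (expm_le (by norm_num) (by norm_num) (by norm_num))
    (expn_ge (by norm_num) (by norm_num)) (by norm_num) (by norm_num) (by norm_num) (by norm_num) (by norm_num)
  exact ⟨hy1, hy2⟩

private theorem yB5 {κ t : ℝ} (h : DomR κ t) (hk1 : 0.44 ≤ κ) (hk2 : κ ≤ 0.46) (ht1 : -0.8404 ≤ t + κ) (ht2 : t + κ ≤ -0.82339) :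
    (-0.516) ≤ sy κ t ∧ sy κ t ≤ (-0.464) := by
  have hy1 : -0.516 ≤ sy κ t := syL_ang2 h 0.44 0.46 0.8404 0.733 0.7431 0.6692 0.516 1.67531 0.5969 hk1 hk2 (by linarith) (by norm_num) (by norm_num) (by norm_num) (by norm_num)
    (cos_ge_num (by norm_num) (by norm_num)) (sin_le_num (by norm_num) (by norm_num))
    (expn_ge (by norm_num) (by norm_num)) (expm_ge (by norm_num) (by norm_num) (by norm_num) (by norm_num)) (by norm_num) (by norm_num) (by norm_num)
    (by norm_num) (by norm_num) (by norm_num)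
  have hy2 : sy κ t ≤ -0.464 := syL_le h 0.44 0.46 0.82339 0.464 0.62876 0.62877 0.63422 0.66307 hk1 hk2 (by linarith) (by norm_num) (by norm_num) (by norm_num)
    (expm_ge (by norm_num) (by norm_num) (by norm_num) (by norm_num)) (expm_le (by norm_num) (by norm_num) (by norm_num)) (by norm_num)
    (by norm_num) (by norm_num) (by norm_num) (by norm_num) (by norm_num) (by norm_num)
  exact ⟨hy1, hy2⟩

theorem pc5 {β r h t κ : ℝ} (hh : h = 2 * Real.pi / (3 : ℕ)) (hβ : 0 < β) (hr : 10 ≤ r) (hκ : κ = β * r)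
    (hk1 : 0.44 ≤ κ) (hk2 : κ ≤ 0.46) (hT1 : 1.254 ≤ t + κ) (hT2 : t + κ ≤ 1.271) :
    Xf β r h t 0 ≠ 0 ∧ r * 0.1311 ≤ (Ld β r h t 1 - Ld β r h t 0).im ∧
      ‖(((-1 : ℤ) : ℂ) - 1) * Ld β r h t 0 - ((-1 : ℤ) : ℂ) * Ld β r h t 1‖ ≤ r * 7.87 := by
  obtain ⟨q1, q2, q3⟩ := b3_h hh
  have hR0 := b3_R0 hβ hr hκ
  have hR := b3_R hβ hr hκ (by linarith)
  have hD1 : DomR κ t := b3_dom (by linarith) (by linarith) (Or.inl (by linarith))
  have hD0 : DomR κ (t - h) := b3_dom (by linarith) (by linarith) (Or.inl (by linarith))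
  have y1 := yA5 hD1 hk1 hk2 (by linarith) (by linarith)
  have y0 := yB5 hD0 hk1 hk2 (by linarith) (by linarith)
  have j1 := T3_07_d1_1 hD1 hβ hk1 hk2 (by linarith) (by linarith) hR0 hR
  exact b3_piece 0.44 0.46 0.268 0.291 0.28 0.75578 0.76491 0.74752 0.3519 1.6492 1.7003 0.03 0.03 0.03 1.031 0.2826 0 0 (-0.516) (-0.464) (-0.49) 1.63231 1.67532 0.7707 0.5106 0.04 0.265 0.175 8.0304 8.6613 0.5498 0.8299 0.1311 7.87
    hβ hr hκ (by norm_num) hk1 hk2 hD1 hD0 j1 (j1 _ (by rw [sub_self, norm_zero]; norm_num))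
    (T3_07_d0_1 hD0 hβ hk1 hk2 (by linarith) (by linarith) hR0 hR)
    (T3_07_p0 hD0 hβ hk1 hk2 (by linarith) (by linarith) hR0 hR)
    y1.1 y1.2 y0.1 y0.2 (by norm_num)
    (ex_um 0.268 (by norm_num) (by norm_num) (by norm_num) (by norm_num)) (ex_um 0.291 (by norm_num) (by norm_num) (by norm_num) (by norm_num)) (ex_lm 0.28 (by norm_num) (by norm_num) (by norm_num) (by norm_num) (by norm_num)) (by norm_num) (by norm_num) (by norm_num) (by norm_num) (by norm_num) (by norm_num) (by norm_num) (by norm_num)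
    (by norm_num) (by norm_num) (by norm_num) (by norm_num) (by norm_num) (by norm_num) (by norm_num) (by norm_num) (by norm_num) (by norm_num)
    (ex_up 0.516 (by norm_num) (by norm_num) (by norm_num) (by norm_num)) (ex_lp 0.49 (by norm_num) (by norm_num) (by norm_num)) (by norm_num) (by norm_num) (by norm_num) (by norm_num) (by norm_num) (by norm_num)
    (by norm_num) (by norm_num) (by norm_num) (by norm_num) (by norm_num) (by norm_num) (by norm_num) (by norm_num) (by norm_num) (by norm_num) (by norm_num)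
    (by norm_num) (by norm_num) (by norm_num) (by norm_num)

private theorem yA6 {κ t : ℝ} (h : DomR κ t) (hk1 : 0.44 ≤ κ) (hk2 : κ ≤ 0.46) (ht1 : 1.271 ≤ t + κ) (ht2 : t + κ ≤ 1.29) :
    0.268 ≤ sy κ t ∧ sy κ t ≤ 0.293 := by
  have hy1 : 0.268 ≤ sy κ t := syR_ge h 0.44 0.46 1.271 0.268 1.30734 1.30735 0.76166 0.7963 hk1 hk2 (by linarith) (by norm_num) (by norm_num)
    (expn_ge (by norm_num) (by norm_num)) (expn_le (by norm_num) (by norm_num) (by norm_num)) (by norm_num)
    (by norm_num) (by norm_num) (by norm_num) (by norm_num) (by norm_num) (by norm_num)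
  have hy2 : sy κ t ≤ 0.293 := syR_ang2 h 0.44 0.46 1.29 1.022 0.5233 0.8534 0.293 0.74603 1.34044 hk1 hk2 (by linarith) (by norm_num) (by norm_num) (by norm_num)
    (cos_le_num (by norm_num)) (sin_le_num (by norm_num) (by norm_num)) (expm_le (by norm_num) (by norm_num) (by norm_num))
    (expn_ge (by norm_num) (by norm_num)) (by norm_num) (by norm_num) (by norm_num) (by norm_num) (by norm_num)
  exact ⟨hy1, hy2⟩

private theorem yB6 {κ t : ℝ} (h : DomR κ t) (hk1 : 0.44 ≤ κ) (hk2 : κ ≤ 0.46) (ht1 : -0.8234 ≤ t + κ) (ht2 : t + κ ≤ -0.80439) :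
    (-0.499) ≤ sy κ t ∧ sy κ t ≤ (-0.448) := by
  have hy1 : -0.499 ≤ sy κ t := syL_ang2 h 0.44 0.46 0.8234 0.718 0.7531 0.6579 0.499 1.64707 0.60713 hk1 hk2 (by linarith) (by norm_num) (by norm_num) (by norm_num) (by norm_num)
    (cos_ge_num (by norm_num) (by norm_num)) (sin_le_num (by norm_num) (by norm_num))
    (expn_ge (by norm_num) (by norm_num)) (expm_ge (by norm_num) (by norm_num) (by norm_num) (by norm_num)) (by norm_num) (by norm_num) (by norm_num)
    (by norm_num) (by norm_num) (by norm_num)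
  have hy2 : sy κ t ≤ -0.448 := syL_le h 0.44 0.46 0.80439 0.448 0.6389 0.63891 0.62223 0.65053 hk1 hk2 (by linarith) (by norm_num) (by norm_num) (by norm_num)
    (expm_ge (by norm_num) (by norm_num) (by norm_num) (by norm_num)) (expm_le (by norm_num) (by norm_num) (by norm_num)) (by norm_num)
    (by norm_num) (by norm_num) (by norm_num) (by norm_num) (by norm_num) (by norm_num)
  exact ⟨hy1, hy2⟩

theorem pc6 {β r h t κ : ℝ} (hh : h = 2 * Real.pi / (3 : ℕ)) (hβ : 0 < β) (hr : 10 ≤ r) (hκ : κ = β * r)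
    (hk1 : 0.44 ≤ κ) (hk2 : κ ≤ 0.46) (hT1 : 1.271 ≤ t + κ) (hT2 : t + κ ≤ 1.29) :
    Xf β r h t 0 ≠ 0 ∧ r * 0.1311 ≤ (Ld β r h t 1 - Ld β r h t 0).im ∧
      ‖(((-1 : ℤ) : ℂ) - 1) * Ld β r h t 0 - ((-1 : ℤ) : ℂ) * Ld β r h t 1‖ ≤ r * 7.87 := by
  obtain ⟨q1, q2, q3⟩ := b3_h hh
  have hR0 := b3_R0 hβ hr hκ
  have hR := b3_R hβ hr hκ (by linarith)
  have hD1 : DomR κ t := b3_dom (by linarith) (by linarith) (Or.inl (by linarith))
  have hD0 : DomR κ (t - h) := b3_dom (by linarith) (by linarith) (Or.inl (by linarith))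
  have y1 := yA6 hD1 hk1 hk2 (by linarith) (by linarith)
  have y0 := yB6 hD0 hk1 hk2 (by linarith) (by linarith)
  have j1 := T3_07_d1_2 hD1 hβ hk1 hk2 (by linarith) (by linarith) hR0 hR
  exact b3_piece 0.44 0.46 0.268 0.293 0.281 0.75502 0.76491 0.74603 0.3519 1.6492 1.7038 0.06 0.105 0.105 1.9554 0.5359 0 0 (-0.499) (-0.448) (-0.473) 1.6048 1.64708 0.7577 0.5265 0.05 0.18 0.175 4.3637 4.5568 0.5485 0.7894 0.1311 7.87
    hβ hr hκ (by norm_num) hk1 hk2 hD1 hD0 j1 (j1 _ (by rw [sub_self, norm_zero]; norm_num))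
    (T3_07_d0_2 hD0 hβ hk1 hk2 (by linarith) (by linarith) hR0 hR)
    (T3_07_p0 hD0 hβ hk1 hk2 (by linarith) (by linarith) hR0 hR)
    y1.1 y1.2 y0.1 y0.2 (by norm_num)
    (ex_um 0.268 (by norm_num) (by norm_num) (by norm_num) (by norm_num)) (ex_um 0.293 (by norm_num) (by norm_num) (by norm_num) (by norm_num)) (ex_lm 0.281 (by norm_num) (by norm_num) (by norm_num) (by norm_num) (by norm_num)) (by norm_num) (by norm_num) (by norm_num) (by norm_num) (by norm_num) (by norm_num) (by norm_num) (by norm_num)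
    (by norm_num) (by norm_num) (by norm_num) (by norm_num) (by norm_num) (by norm_num) (by norm_num) (by norm_num) (by norm_num) (by norm_num)
    (ex_up 0.499 (by norm_num) (by norm_num) (by norm_num) (by norm_num)) (ex_lp 0.473 (by norm_num) (by norm_num) (by norm_num)) (by norm_num) (by norm_num) (by norm_num) (by norm_num) (by norm_num) (by norm_num)
    (by norm_num) (by norm_num) (by norm_num) (by norm_num) (by norm_num) (by norm_num) (by norm_num) (by norm_num) (by norm_num) (by norm_num) (by norm_num)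
    (by norm_num) (by norm_num) (by norm_num) (by norm_num)

private theorem yA7 {κ t : ℝ} (h : DomR κ t) (hk1 : 0.44 ≤ κ) (hk2 : κ ≤ 0.46) (ht1 : 1.29 ≤ t + κ) (ht2 : t + κ ≤ 1.308) :
    0.268 ≤ sy κ t ∧ sy κ t ≤ 0.295 := by
  have hy1 : 0.268 ≤ sy κ t := syR_ge h 0.44 0.46 1.29 0.268 1.30734 1.30735 0.76166 0.7963 hk1 hk2 (by linarith) (by norm_num) (by norm_num)
    (expn_ge (by norm_num) (by norm_num)) (expn_le (by norm_num) (by norm_num) (by norm_num)) (by norm_num)
    (by norm_num) (by norm_num) (by norm_num) (by norm_num) (by norm_num) (by norm_num)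
  have hy2 : sy κ t ≤ 0.295 := syR_ang2 h 0.44 0.46 1.308 1.037 0.5105 0.8612 0.295 0.74454 1.34312 hk1 hk2 (by linarith) (by norm_num) (by norm_num) (by norm_num)
    (cos_le_num (by norm_num)) (sin_le_num (by norm_num) (by norm_num)) (expm_le (by norm_num) (by norm_num) (by norm_num))
    (expn_ge (by norm_num) (by norm_num)) (by norm_num) (by norm_num) (by norm_num) (by norm_num) (by norm_num)
  exact ⟨hy1, hy2⟩

private theorem yB7 {κ t : ℝ} (h : DomR κ t) (hk1 : 0.44 ≤ κ) (hk2 : κ ≤ 0.46) (ht1 : -0.8044 ≤ t + κ) (ht2 : t + κ ≤ -0.78639) :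
    (-0.481) ≤ sy κ t ∧ sy κ t ≤ (-0.433) := by
  have hy1 : -0.481 ≤ sy κ t := syL_ang2 h 0.44 0.46 0.8044 0.702 0.7635 0.6458 0.481 1.61769 0.61816 hk1 hk2 (by linarith) (by norm_num) (by norm_num) (by norm_num) (by norm_num)
    (cos_ge_num (by norm_num) (by norm_num)) (sin_le_num (by norm_num) (by norm_num))
    (expn_ge (by norm_num) (by norm_num)) (expm_ge (by norm_num) (by norm_num) (by norm_num) (by norm_num)) (by norm_num) (by norm_num) (by norm_num)
    (by norm_num) (by norm_num) (by norm_num)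
  have hy2 : sy κ t ≤ -0.433 := syL_le h 0.44 0.46 0.78639 0.433 0.64856 0.64857 0.61049 0.63826 hk1 hk2 (by linarith) (by norm_num) (by norm_num) (by norm_num)
    (expm_ge (by norm_num) (by norm_num) (by norm_num) (by norm_num)) (expm_le (by norm_num) (by norm_num) (by norm_num)) (by norm_num)
    (by norm_num) (by norm_num) (by norm_num) (by norm_num) (by norm_num) (by norm_num)
  exact ⟨hy1, hy2⟩

theorem pc7 {β r h t κ : ℝ} (hh : h = 2 * Real.pi / (3 : ℕ)) (hβ : 0 < β) (hr : 10 ≤ r) (hκ : κ = β * r)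
    (hk1 : 0.44 ≤ κ) (hk2 : κ ≤ 0.46) (hT1 : 1.29 ≤ t + κ) (hT2 : t + κ ≤ 1.308) :
    Xf β r h t 0 ≠ 0 ∧ r * 0.1311 ≤ (Ld β r h t 1 - Ld β r h t 0).im ∧
      ‖(((-1 : ℤ) : ℂ) - 1) * Ld β r h t 0 - ((-1 : ℤ) : ℂ) * Ld β r h t 1‖ ≤ r * 7.87 := by
  obtain ⟨q1, q2, q3⟩ := b3_h hh
  have hR0 := b3_R0 hβ hr hκ
  have hR := b3_R hβ hr hκ (by linarith)
  have hD1 : DomR κ t := b3_dom (by linarith) (by linarith) (Or.inl (by linarith))
  have hD0 : DomR κ (t - h) := b3_dom (by linarith) (by linarith) (Or.inl (by linarith))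
  have y1 := yA7 hD1 hk1 hk2 (by linarith) (by linarith)
  have y0 := yB7 hD0 hk1 hk2 (by linarith) (by linarith)
  have j1 := T3_07_d1_2 hD1 hβ hk1 hk2 (by linarith) (by linarith) hR0 hR
  exact b3_piece 0.44 0.46 0.268 0.295 0.281 0.75502 0.76491 0.74454 0.3519 1.6492 1.7073 0.06 0.105 0.105 1.9554 0.5359 0 0 (-0.481) (-0.433) (-0.457) 1.57932 1.6177 0.7442 0.544 0.05 0.18 0.175 4.3637 4.403 0.5423 0.7419 0.1311 7.87
    hβ hr hκ (by norm_num) hk1 hk2 hD1 hD0 j1 (j1 _ (by rw [sub_self, norm_zero]; norm_num))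
    (T3_07_d0_2 hD0 hβ hk1 hk2 (by linarith) (by linarith) hR0 hR)
    (T3_07_p0 hD0 hβ hk1 hk2 (by linarith) (by linarith) hR0 hR)
    y1.1 y1.2 y0.1 y0.2 (by norm_num)
    (ex_um 0.268 (by norm_num) (by norm_num) (by norm_num) (by norm_num)) (ex_um 0.295 (by norm_num) (by norm_num) (by norm_num) (by norm_num)) (ex_lm 0.281 (by norm_num) (by norm_num) (by norm_num) (by norm_num) (by norm_num)) (by norm_num) (by norm_num) (by norm_num) (by norm_num) (by norm_num) (by norm_num) (by norm_num) (by norm_num)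
    (by norm_num) (by norm_num) (by norm_num) (by norm_num) (by norm_num) (by norm_num) (by norm_num) (by norm_num) (by norm_num) (by norm_num)
    (ex_up 0.481 (by norm_num) (by norm_num) (by norm_num) (by norm_num)) (ex_lp 0.457 (by norm_num) (by norm_num) (by norm_num)) (by norm_num) (by norm_num) (by norm_num) (by norm_num) (by norm_num) (by norm_num)
    (by norm_num) (by norm_num) (by norm_num) (by norm_num) (by norm_num) (by norm_num) (by norm_num) (by norm_num) (by norm_num) (by norm_num) (by norm_num)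
    (by norm_num) (by norm_num) (by norm_num) (by norm_num)

private theorem yA8 {κ t : ℝ} (h : DomR κ t) (hk1 : 0.44 ≤ κ) (hk2 : κ ≤ 0.46) (ht1 : 1.308 ≤ t + κ) (ht2 : t + κ ≤ 1.327) :
    0.268 ≤ sy κ t ∧ sy κ t ≤ 0.297 := by
  have hy1 : 0.268 ≤ sy κ t := syR_ge h 0.44 0.46 1.308 0.268 1.30734 1.30735 0.76166 0.7963 hk1 hk2 (by linarith) (by norm_num) (by norm_num)
    (expn_ge (by norm_num) (by norm_num)) (expn_le (by norm_num) (by norm_num) (by norm_num)) (by norm_num)
    (by norm_num) (by norm_num) (by norm_num) (by norm_num) (by norm_num) (by norm_num)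
  have hy2 : sy κ t ≤ 0.297 := syR_ang2 h 0.44 0.46 1.327 1.052 0.4977 0.8687 0.297 0.74305 1.34581 hk1 hk2 (by linarith) (by norm_num) (by norm_num) (by norm_num)
    (cos_le_num (by norm_num)) (sin_le_num (by norm_num) (by norm_num)) (expm_le (by norm_num) (by norm_num) (by norm_num))
    (expn_ge (by norm_num) (by norm_num)) (by norm_num) (by norm_num) (by norm_num) (by norm_num) (by norm_num)
  exact ⟨hy1, hy2⟩

private theorem yB8 {κ t : ℝ} (h : DomR κ t) (hk1 : 0.44 ≤ κ) (hk2 : κ ≤ 0.46) (ht1 : -0.7864 ≤ t + κ) (ht2 : t + κ ≤ -0.76739) :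
    (-0.464) ≤ sy κ t ∧ sy κ t ≤ (-0.418) := by
  have hy1 : -0.464 ≤ sy κ t := syL_ang2 h 0.44 0.46 0.7864 0.686 0.7737 0.6335 0.464 1.59042 0.62876 hk1 hk2 (by linarith) (by norm_num) (by norm_num) (by norm_num) (by norm_num)
    (cos_ge_num (by norm_num) (by norm_num)) (sin_le_num (by norm_num) (by norm_num))
    (expn_ge (by norm_num) (by norm_num)) (expm_ge (by norm_num) (by norm_num) (by norm_num) (by norm_num)) (by norm_num) (by norm_num) (by norm_num)
    (by norm_num) (by norm_num) (by norm_num)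
  have hy2 : sy κ t ≤ -0.418 := syL_le h 0.44 0.46 0.76739 0.418 0.65836 0.65837 0.59824 0.62546 hk1 hk2 (by linarith) (by norm_num) (by norm_num) (by norm_num)
    (expm_ge (by norm_num) (by norm_num) (by norm_num) (by norm_num)) (expm_le (by norm_num) (by norm_num) (by norm_num)) (by norm_num)
    (by norm_num) (by norm_num) (by norm_num) (by norm_num) (by norm_num) (by norm_num)
  exact ⟨hy1, hy2⟩

theorem pc8 {β r h t κ : ℝ} (hh : h = 2 * Real.pi / (3 : ℕ)) (hβ : 0 < β) (hr : 10 ≤ r) (hκ : κ = β * r)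
    (hk1 : 0.44 ≤ κ) (hk2 : κ ≤ 0.46) (hT1 : 1.308 ≤ t + κ) (hT2 : t + κ ≤ 1.327) :
    Xf β r h t 0 ≠ 0 ∧ r * 0.1311 ≤ (Ld β r h t 1 - Ld β r h t 0).im ∧
      ‖(((-1 : ℤ) : ℂ) - 1) * Ld β r h t 0 - ((-1 : ℤ) : ℂ) * Ld β r h t 1‖ ≤ r * 7.87 := by
  obtain ⟨q1, q2, q3⟩ := b3_h hh
  have hR0 := b3_R0 hβ hr hκ
  have hR := b3_R hβ hr hκ (by linarith)
  have hD1 : DomR κ t := b3_dom (by linarith) (by linarith) (Or.inl (by linarith))
  have hD0 : DomR κ (t - h) := b3_dom (by linarith) (by linarith) (Or.inl (by linarith))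
  have y1 := yA8 hD1 hk1 hk2 (by linarith) (by linarith)
  have y0 := yB8 hD0 hk1 hk2 (by linarith) (by linarith)
  have j1 := T3_07_d1_2 hD1 hβ hk1 hk2 (by linarith) (by linarith) hR0 hR
  exact b3_piece 0.44 0.46 0.268 0.297 0.282 0.75427 0.76491 0.74305 0.3519 1.6492 1.7109 0.06 0.105 0.105 1.9554 0.5359 0 0 (-0.464) (-0.418) (-0.441) 1.55426 1.59043 0.7316 0.5611 0.05 0.18 0.175 4.3637 4.262 0.5373 0.7006 0.1311 7.87
    hβ hr hκ (by norm_num) hk1 hk2 hD1 hD0 j1 (j1 _ (by rw [sub_self, norm_zero]; norm_num))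
    (T3_07_d0_2 hD0 hβ hk1 hk2 (by linarith) (by linarith) hR0 hR)
    (T3_07_p0 hD0 hβ hk1 hk2 (by linarith) (by linarith) hR0 hR)
    y1.1 y1.2 y0.1 y0.2 (by norm_num)
    (ex_um 0.268 (by norm_num) (by norm_num) (by norm_num) (by norm_num)) (ex_um 0.297 (by norm_num) (by norm_num) (by norm_num) (by norm_num)) (ex_lm 0.282 (by norm_num) (by norm_num) (by norm_num) (by norm_num) (by norm_num)) (by norm_num) (by norm_num) (by norm_num) (by norm_num) (by norm_num) (by norm_num) (by norm_num) (by norm_num)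
    (by norm_num) (by norm_num) (by norm_num) (by norm_num) (by norm_num) (by norm_num) (by norm_num) (by norm_num) (by norm_num) (by norm_num)
    (ex_up 0.464 (by norm_num) (by norm_num) (by norm_num) (by norm_num)) (ex_lp 0.441 (by norm_num) (by norm_num) (by norm_num)) (by norm_num) (by norm_num) (by norm_num) (by norm_num) (by norm_num) (by norm_num)
    (by norm_num) (by norm_num) (by norm_num) (by norm_num) (by norm_num) (by norm_num) (by norm_num) (by norm_num) (by norm_num) (by norm_num) (by norm_num)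
    (by norm_num) (by norm_num) (by norm_num) (by norm_num)

private theorem yA9 {κ t : ℝ} (h : DomR κ t) (hk1 : 0.44 ≤ κ) (hk2 : κ ≤ 0.46) (ht1 : 1.327 ≤ t + κ) (ht2 : t + κ ≤ 1.345) :
    0.268 ≤ sy κ t ∧ sy κ t ≤ 0.299 := by
  have hy1 : 0.268 ≤ sy κ t := syR_ge h 0.44 0.46 1.327 0.268 1.30734 1.30735 0.76166 0.7963 hk1 hk2 (by linarith) (by norm_num) (by norm_num)
    (expn_ge (by norm_num) (by norm_num)) (expn_le (by norm_num) (by norm_num) (by norm_num)) (by norm_num)
    (by norm_num) (by norm_num) (by norm_num) (by norm_num) (by norm_num) (by norm_num)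
  have hy2 : sy κ t ≤ 0.299 := syR_ang2 h 0.44 0.46 1.345 1.067 0.4848 0.8761 0.299 0.74156 1.3485 hk1 hk2 (by linarith) (by norm_num) (by norm_num) (by norm_num)
    (cos_le_num (by norm_num)) (sin_le_num (by norm_num) (by norm_num)) (expm_le (by norm_num) (by norm_num) (by norm_num))
    (expn_ge (by norm_num) (by norm_num)) (by norm_num) (by norm_num) (by norm_num) (by norm_num) (by norm_num)
  exact ⟨hy1, hy2⟩

private theorem yB9 {κ t : ℝ} (h : DomR κ t) (hk1 : 0.44 ≤ κ) (hk2 : κ ≤ 0.46) (ht1 : -0.7674 ≤ t + κ) (ht2 : t + κ ≤ -0.74939) :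
    (-0.446) ≤ sy κ t ∧ sy κ t ≤ (-0.403) := by
  have hy1 : -0.446 ≤ sy κ t := syL_ang2 h 0.44 0.46 0.7674 0.669 0.7844 0.6203 0.446 1.56205 0.64018 hk1 hk2 (by linarith) (by norm_num) (by norm_num) (by norm_num) (by norm_num)
    (cos_ge_num (by norm_num) (by norm_num)) (sin_le_num (by norm_num) (by norm_num))
    (expn_ge (by norm_num) (by norm_num)) (expm_ge (by norm_num) (by norm_num) (by norm_num) (by norm_num)) (by norm_num) (by norm_num) (by norm_num)
    (by norm_num) (by norm_num) (by norm_num)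
  have hy2 : sy κ t ≤ -0.403 := syL_le h 0.44 0.46 0.74939 0.403 0.66831 0.66832 0.58549 0.61213 hk1 hk2 (by linarith) (by norm_num) (by norm_num) (by norm_num)
    (expm_ge (by norm_num) (by norm_num) (by norm_num) (by norm_num)) (expm_le (by norm_num) (by norm_num) (by norm_num)) (by norm_num)
    (by norm_num) (by norm_num) (by norm_num) (by norm_num) (by norm_num) (by norm_num)
  exact ⟨hy1, hy2⟩

theorem pc9 {β r h t κ : ℝ} (hh : h = 2 * Real.pi / (3 : ℕ)) (hβ : 0 < β) (hr : 10 ≤ r) (hκ : κ = β * r)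
    (hk1 : 0.44 ≤ κ) (hk2 : κ ≤ 0.46) (hT1 : 1.327 ≤ t + κ) (hT2 : t + κ ≤ 1.345) :
    Xf β r h t 0 ≠ 0 ∧ r * 0.1311 ≤ (Ld β r h t 1 - Ld β r h t 0).im ∧
      ‖(((-1 : ℤ) : ℂ) - 1) * Ld β r h t 0 - ((-1 : ℤ) : ℂ) * Ld β r h t 1‖ ≤ r * 7.87 := by
  obtain ⟨q1, q2, q3⟩ := b3_h hh
  have hR0 := b3_R0 hβ hr hκ
  have hR := b3_R hβ hr hκ (by linarith)
  have hD1 : DomR κ t := b3_dom (by linarith) (by linarith) (Or.inl (by linarith))
  have hD0 : DomR κ (t - h) := b3_dom (by linarith) (by linarith) (Or.inl (by linarith))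
  have y1 := yA9 hD1 hk1 hk2 (by linarith) (by linarith)
  have y0 := yB9 hD0 hk1 hk2 (by linarith) (by linarith)
  have j1 := T3_07_d1_2 hD1 hβ hk1 hk2 (by linarith) (by linarith) hR0 hR
  exact b3_piece 0.44 0.46 0.268 0.299 0.283 0.75351 0.76491 0.74156 0.3519 1.6492 1.7144 0.06 0.105 0.105 1.9554 0.5359 0 0 (-0.446) (-0.403) (-0.424) 1.52806 1.56206 0.7186 0.5799 0.05 0.18 0.175 4.3637 4.1179 0.5295 0.6562 0.1311 7.87
    hβ hr hκ (by norm_num) hk1 hk2 hD1 hD0 j1 (j1 _ (by rw [sub_self, norm_zero]; norm_num))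
    (T3_07_d0_2 hD0 hβ hk1 hk2 (by linarith) (by linarith) hR0 hR)
    (T3_07_p0 hD0 hβ hk1 hk2 (by linarith) (by linarith) hR0 hR)
    y1.1 y1.2 y0.1 y0.2 (by norm_num)
    (ex_um 0.268 (by norm_num) (by norm_num) (by norm_num) (by norm_num)) (ex_um 0.299 (by norm_num) (by norm_num) (by norm_num) (by norm_num)) (ex_lm 0.283 (by norm_num) (by norm_num) (by norm_num) (by norm_num) (by norm_num)) (by norm_num) (by norm_num) (by norm_num) (by norm_num) (by norm_num) (by norm_num) (by norm_num) (by norm_num)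
    (by norm_num) (by norm_num) (by norm_num) (by norm_num) (by norm_num) (by norm_num) (by norm_num) (by norm_num) (by norm_num) (by norm_num)
    (ex_up 0.446 (by norm_num) (by norm_num) (by norm_num) (by norm_num)) (ex_lp 0.424 (by norm_num) (by norm_num) (by norm_num)) (by norm_num) (by norm_num) (by norm_num) (by norm_num) (by norm_num) (by norm_num)
    (by norm_num) (by norm_num) (by norm_num) (by norm_num) (by norm_num) (by norm_num) (by norm_num) (by norm_num) (by norm_num) (by norm_num) (by norm_num)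
    (by norm_num) (by norm_num) (by norm_num) (by norm_num)

private theorem yA10 {κ t : ℝ} (h : DomR κ t) (hk1 : 0.44 ≤ κ) (hk2 : κ ≤ 0.46) (ht1 : 1.345 ≤ t + κ) (ht2 : t + κ ≤ 1.363) :
    0.268 ≤ sy κ t ∧ sy κ t ≤ 0.301 := by
  have hy1 : 0.268 ≤ sy κ t := syR_ge h 0.44 0.46 1.345 0.268 1.30734 1.30735 0.76166 0.7963 hk1 hk2 (by linarith) (by norm_num) (by norm_num)
    (expn_ge (by norm_num) (by norm_num)) (expn_le (by norm_num) (by norm_num) (by norm_num)) (by norm_num)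
    (by norm_num) (by norm_num) (by norm_num) (by norm_num) (by norm_num) (by norm_num)
  have hy2 : sy κ t ≤ 0.301 := syR_ang2 h 0.44 0.46 1.363 1.083 0.4709 0.8838 0.301 0.74008 1.3512 hk1 hk2 (by linarith) (by norm_num) (by norm_num) (by norm_num)
    (cos_le_num (by norm_num)) (sin_le_num (by norm_num) (by norm_num)) (expm_le (by norm_num) (by norm_num) (by norm_num))
    (expn_ge (by norm_num) (by norm_num)) (by norm_num) (by norm_num) (by norm_num) (by norm_num) (by norm_num)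
  exact ⟨hy1, hy2⟩

private theorem yB10 {κ t : ℝ} (h : DomR κ t) (hk1 : 0.44 ≤ κ) (hk2 : κ ≤ 0.46) (ht1 : -0.7494 ≤ t + κ) (ht2 : t + κ ≤ -0.73139) :
    (-0.43) ≤ sy κ t ∧ sy κ t ≤ (-0.389) := by
  have hy1 : -0.43 ≤ sy κ t := syL_ang2 h 0.44 0.46 0.7494 0.653 0.7942 0.6076 0.43 1.53725 0.6505 hk1 hk2 (by linarith) (by norm_num) (by norm_num) (by norm_num) (by norm_num)
    (cos_ge_num (by norm_num) (by norm_num)) (sin_le_num (by norm_num) (by norm_num))
    (expn_ge (by norm_num) (by norm_num)) (expm_ge (by norm_num) (by norm_num) (by norm_num) (by norm_num)) (by norm_num) (by norm_num) (by norm_num)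
    (by norm_num) (by norm_num) (by norm_num)
  have hy2 : sy κ t ≤ -0.389 := syL_le h 0.44 0.46 0.73139 0.389 0.67773 0.67774 0.57312 0.59919 hk1 hk2 (by linarith) (by norm_num) (by norm_num) (by norm_num)
    (expm_ge (by norm_num) (by norm_num) (by norm_num) (by norm_num)) (expm_le (by norm_num) (by norm_num) (by norm_num)) (by norm_num)
    (by norm_num) (by norm_num) (by norm_num) (by norm_num) (by norm_num) (by norm_num)
  exact ⟨hy1, hy2⟩

theorem pc10 {β r h t κ : ℝ} (hh : h = 2 * Real.pi / (3 : ℕ)) (hβ : 0 < β) (hr : 10 ≤ r) (hκ : κ = β * r)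
    (hk1 : 0.44 ≤ κ) (hk2 : κ ≤ 0.46) (hT1 : 1.345 ≤ t + κ) (hT2 : t + κ ≤ 1.363) :
    Xf β r h t 0 ≠ 0 ∧ r * 0.1311 ≤ (Ld β r h t 1 - Ld β r h t 0).im ∧
      ‖(((-1 : ℤ) : ℂ) - 1) * Ld β r h t 0 - ((-1 : ℤ) : ℂ) * Ld β r h t 1‖ ≤ r * 7.87 := by
  obtain ⟨q1, q2, q3⟩ := b3_h hh
  have hR0 := b3_R0 hβ hr hκ
  have hR := b3_R hβ hr hκ (by linarith)
  have hD1 : DomR κ t := b3_dom (by linarith) (by linarith) (Or.inl (by linarith))
  have hD0 : DomR κ (t - h) := b3_dom (by linarith) (by linarith) (Or.inl (by linarith))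
  have y1 := yA10 hD1 hk1 hk2 (by linarith) (by linarith)
  have y0 := yB10 hD0 hk1 hk2 (by linarith) (by linarith)
  have j1 := T3_07_d1_2 hD1 hβ hk1 hk2 (by linarith) (by linarith) hR0 hR
  exact b3_piece 0.44 0.46 0.268 0.301 0.284 0.75276 0.76491 0.74008 0.3519 1.6492 1.7179 0.06 0.105 0.105 1.9554 0.5359 0 0 (-0.43) (-0.389) (-0.409) 1.50531 1.53726 0.7072 0.5971 0.05 0.18 0.175 4.3637 3.9937 0.5233 0.6198 0.1311 7.87
    hβ hr hκ (by norm_num) hk1 hk2 hD1 hD0 j1 (j1 _ (by rw [sub_self, norm_zero]; norm_num))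
    (T3_07_d0_2 hD0 hβ hk1 hk2 (by linarith) (by linarith) hR0 hR)
    (T3_07_p0 hD0 hβ hk1 hk2 (by linarith) (by linarith) hR0 hR)
    y1.1 y1.2 y0.1 y0.2 (by norm_num)
    (ex_um 0.268 (by norm_num) (by norm_num) (by norm_num) (by norm_num)) (ex_um 0.301 (by norm_num) (by norm_num) (by norm_num) (by norm_num)) (ex_lm 0.284 (by norm_num) (by norm_num) (by norm_num) (by norm_num) (by norm_num)) (by norm_num) (by norm_num) (by norm_num) (by norm_num) (by norm_num) (by norm_num) (by norm_num) (by norm_num)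
    (by norm_num) (by norm_num) (by norm_num) (by norm_num) (by norm_num) (by norm_num) (by norm_num) (by norm_num) (by norm_num) (by norm_num)
    (ex_up 0.43 (by norm_num) (by norm_num) (by norm_num) (by norm_num)) (ex_lp 0.409 (by norm_num) (by norm_num) (by norm_num)) (by norm_num) (by norm_num) (by norm_num) (by norm_num) (by norm_num) (by norm_num)
    (by norm_num) (by norm_num) (by norm_num) (by norm_num) (by norm_num) (by norm_num) (by norm_num) (by norm_num) (by norm_num) (by norm_num) (by norm_num)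
    (by norm_num) (by norm_num) (by norm_num) (by norm_num)

private theorem yA11 {κ t : ℝ} (h : DomR κ t) (hk1 : 0.44 ≤ κ) (hk2 : κ ≤ 0.46) (ht1 : 1.363 ≤ t + κ) (ht2 : t + κ ≤ 1.382) :
    0.268 ≤ sy κ t ∧ sy κ t ≤ 0.303 := by
  have hy1 : 0.268 ≤ sy κ t := syR_ge h 0.44 0.46 1.363 0.268 1.30734 1.30735 0.76166 0.7963 hk1 hk2 (by linarith) (by norm_num) (by norm_num)
    (expn_ge (by norm_num) (by norm_num)) (expn_le (by norm_num) (by norm_num) (by norm_num)) (by norm_num)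
    (by norm_num) (by norm_num) (by norm_num) (by norm_num) (by norm_num) (by norm_num)
  have hy2 : sy κ t ≤ 0.303 := syR_ang2 h 0.44 0.46 1.382 1.1 0.4561 0.8916 0.303 0.7386 1.35391 hk1 hk2 (by linarith) (by norm_num) (by norm_num) (by norm_num)
    (cos_le_num (by norm_num)) (sin_le_num (by norm_num) (by norm_num)) (expm_le (by norm_num) (by norm_num) (by norm_num))
    (expn_ge (by norm_num) (by norm_num)) (by norm_num) (by norm_num) (by norm_num) (by norm_num) (by norm_num)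
  exact ⟨hy1, hy2⟩

private theorem yB11 {κ t : ℝ} (h : DomR κ t) (hk1 : 0.44 ≤ κ) (hk2 : κ ≤ 0.46) (ht1 : -0.7314 ≤ t + κ) (ht2 : t + κ ≤ -0.71239) :
    (-0.414) ≤ sy κ t ∧ sy κ t ≤ (-0.375) := by
  have hy1 : -0.414 ≤ sy κ t := syL_ang2 h 0.44 0.46 0.7314 0.637 0.8038 0.5948 0.414 1.51285 0.661 hk1 hk2 (by linarith) (by norm_num) (by norm_num) (by norm_num) (by norm_num)
    (cos_ge_num (by norm_num) (by norm_num)) (sin_le_num (by norm_num) (by norm_num))
    (expn_ge (by norm_num) (by norm_num)) (expm_ge (by norm_num) (by norm_num) (by norm_num) (by norm_num)) (by norm_num) (by norm_num) (by norm_num)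
    (by norm_num) (by norm_num) (by norm_num)
  have hy2 : sy κ t ≤ -0.375 := syL_le h 0.44 0.46 0.71239 0.375 0.68728 0.68729 0.56028 0.58576 hk1 hk2 (by linarith) (by norm_num) (by norm_num) (by norm_num)
    (expm_ge (by norm_num) (by norm_num) (by norm_num) (by norm_num)) (expm_le (by norm_num) (by norm_num) (by norm_num)) (by norm_num)
    (by norm_num) (by norm_num) (by norm_num) (by norm_num) (by norm_num) (by norm_num)
  exact ⟨hy1, hy2⟩

theorem pc11 {β r h t κ : ℝ} (hh : h = 2 * Real.pi / (3 : ℕ)) (hβ : 0 < β) (hr : 10 ≤ r) (hκ : κ = β * r)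
    (hk1 : 0.44 ≤ κ) (hk2 : κ ≤ 0.46) (hT1 : 1.363 ≤ t + κ) (hT2 : t + κ ≤ 1.382) :
    Xf β r h t 0 ≠ 0 ∧ r * 0.1311 ≤ (Ld β r h t 1 - Ld β r h t 0).im ∧
      ‖(((-1 : ℤ) : ℂ) - 1) * Ld β r h t 0 - ((-1 : ℤ) : ℂ) * Ld β r h t 1‖ ≤ r * 7.87 := by
  obtain ⟨q1, q2, q3⟩ := b3_h hh
  have hR0 := b3_R0 hβ hr hκ
  have hR := b3_R hβ hr hκ (by linarith)
  have hD1 : DomR κ t := b3_dom (by linarith) (by linarith) (Or.inl (by linarith))
  have hD0 : DomR κ (t - h) := b3_dom (by linarith) (by linarith) (Or.inl (by linarith))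
  have y1 := yA11 hD1 hk1 hk2 (by linarith) (by linarith)
  have y0 := yB11 hD0 hk1 hk2 (by linarith) (by linarith)
  have j1 := T3_07_d1_2 hD1 hβ hk1 hk2 (by linarith) (by linarith) hR0 hR
  exact b3_piece 0.44 0.46 0.268 0.303 0.285 0.75201 0.76491 0.7386 0.3519 1.6492 1.7215 0.06 0.105 0.105 1.9554 0.5359 0 0 (-0.414) (-0.375) (-0.395) 1.48438 1.51286 0.696 0.6147 0.05 0.18 0.175 4.3637 3.8738 0.5168 0.5852 0.1311 7.87
    hβ hr hκ (by norm_num) hk1 hk2 hD1 hD0 j1 (j1 _ (by rw [sub_self, norm_zero]; norm_num))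
    (T3_07_d0_2 hD0 hβ hk1 hk2 (by linarith) (by linarith) hR0 hR)
    (T3_07_p0 hD0 hβ hk1 hk2 (by linarith) (by linarith) hR0 hR)
    y1.1 y1.2 y0.1 y0.2 (by norm_num)
    (ex_um 0.268 (by norm_num) (by norm_num) (by norm_num) (by norm_num)) (ex_um 0.303 (by norm_num) (by norm_num) (by norm_num) (by norm_num)) (ex_lm 0.285 (by norm_num) (by norm_num) (by norm_num) (by norm_num) (by norm_num)) (by norm_num) (by norm_num) (by norm_num) (by norm_num) (by norm_num) (by norm_num) (by norm_num) (by norm_num)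
    (by norm_num) (by norm_num) (by norm_num) (by norm_num) (by norm_num) (by norm_num) (by norm_num) (by norm_num) (by norm_num) (by norm_num)
    (ex_up 0.414 (by norm_num) (by norm_num) (by norm_num) (by norm_num)) (ex_lp 0.395 (by norm_num) (by norm_num) (by norm_num)) (by norm_num) (by norm_num) (by norm_num) (by norm_num) (by norm_num) (by norm_num)
    (by norm_num) (by norm_num) (by norm_num) (by norm_num) (by norm_num) (by norm_num) (by norm_num) (by norm_num) (by norm_num) (by norm_num) (by norm_num)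
    (by norm_num) (by norm_num) (by norm_num) (by norm_num)

theorem innS {β r h t κ : ℝ} (hh : h = 2 * Real.pi / (3 : ℕ)) (hβ : 0 < β) (hr : 10 ≤ r) (hκ : κ = β * r)
    (hk1 : 0.44 ≤ κ) (hk2 : κ ≤ 0.46) (hT1 : 1.171 ≤ t + κ) (hT2 : t + κ ≤ 1.382) :
    Xf β r h t 0 ≠ 0 ∧ r * 0.1311 ≤ (Ld β r h t 1 - Ld β r h t 0).im ∧
      ‖(((-1 : ℤ) : ℂ) - 1) * Ld β r h t 0 - ((-1 : ℤ) : ℂ) * Ld β r h t 1‖ ≤ r * 7.87 := by
  rcases le_total (t + κ) 1.186 with f0 | g0
  · exact pc0 hh hβ hr hκ hk1 hk2 hT1 f0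
  rcases le_total (t + κ) 1.201 with f1 | g1
  · exact pc1 hh hβ hr hκ hk1 hk2 g0 f1
  rcases le_total (t + κ) 1.218 with f2 | g2
  · exact pc2 hh hβ hr hκ hk1 hk2 g1 f2
  rcases le_total (t + κ) 1.236 with f3 | g3
  · exact pc3 hh hβ hr hκ hk1 hk2 g2 f3
  rcases le_total (t + κ) 1.254 with f4 | g4
  · exact pc4 hh hβ hr hκ hk1 hk2 g3 f4
  rcases le_total (t + κ) 1.271 with f5 | g5
  · exact pc5 hh hβ hr hκ hk1 hk2 g4 f5
  rcases le_total (t + κ) 1.29 with f6 | g6
  · exact pc6 hh hβ hr hκ hk1 hk2 g5 f6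
  rcases le_total (t + κ) 1.308 with f7 | g7
  · exact pc7 hh hβ hr hκ hk1 hk2 g6 f7
  rcases le_total (t + κ) 1.327 with f8 | g8
  · exact pc8 hh hβ hr hκ hk1 hk2 g7 f8
  rcases le_total (t + κ) 1.345 with f9 | g9
  · exact pc9 hh hβ hr hκ hk1 hk2 g8 f9
  rcases le_total (t + κ) 1.363 with f10 | g10
  · exact pc10 hh hβ hr hκ hk1 hk2 g9 f10
  exact pc11 hh hβ hr hκ hk1 hk2 g10 hT2

theorem circ {p : ℤ} (hp : IsCoprime (3 : ℤ) p) {β r : ℝ} (hβ : 0 < β) (hr : 10 ≤ r) (hk1 : 0.44 ≤ β * r)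
    (hk2 : β * r ≤ 0.46) : Circ (2 * Real.pi * p / (3 : ℕ) + β) r := by
  obtain ⟨κ, hκ⟩ : ∃ κ, κ = β * r := ⟨_, rfl⟩
  rw [← hκ] at hk1 hk2
  refine circ3 hp hr (h := 2 * Real.pi / (3 : ℕ)) (κ := κ) rfl 1.171 1.382 1.0113 0.1311 0.00625 0.00625 7.87 (by norm_num) (by norm_num) (by norm_num)
    (by norm_num) (by norm_num) ?_ ?_ ?_ ?_ ?_ (by norm_num) (by norm_num)
  · intro t h1 h2
    exact (innS rfl hβ hr hκ hk1 hk2 h1 h2).1
  · intro t h1 h2
    exact (innE rfl hβ hr hκ hk1 hk2 h1 h2).1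
  · intro t h1 h2
    exact (innE rfl hβ hr hκ hk1 hk2 h1 h2).2
  · intro t h1 h2
    exact (innS rfl hβ hr hκ hk1 hk2 h1 h2).2
  · intro t h1 h2 h3
    rcases h3 with h3 | h3
    · rcases le_total (t + κ) 1.156 with g | g
      · exact left rfl hβ hr hκ hk1 hk2 h1 g
      · exact middle rfl hβ hr hκ hk1 hk2 g h3
    · exact right0 rfl hβ hr hκ hk1 hk2 h3 h2

end B3_07

end Sok
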