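import Pool.Agent.Lib.MP_816dec_an.R1b3D
import Pool.Agent.Lib.MP_816dec_an.R1b3J08

/-!
MP_816dec_an (A3, row R1, b = 3): the cell `0.46 ≤ κ ≤ 0.48`.
-/

set_option autoImplicit false
set_option maxHeartbeats 4000000
set_option linter.unusedVariables false

open Complex Set

namespace Sok

namespace B3_08

private theorem yL {κ t : ℝ} (h : DomR κ t) (hk1 : 0.46 ≤ κ) (hk2 : κ ≤ 0.48) (ht1 : 0 ≤ t + κ) (ht2 : t + κ ≤ 1.16) :
    0 ≤ sy κ t ∧ sy κ t ≤ 0.286 := by
  have hy1 : 0 ≤ sy κ t := sy_nonneg h (by linarith)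
  have hy2 : sy κ t ≤ 0.286 := syR_ang2 h 0.46 0.48 1.16 0.915 0.6106 0.7927 0.286 0.75127 1.33109 hk1 hk2 (by linarith) (by norm_num) (by norm_num) (by norm_num)
    (cos_le_num (by norm_num)) (sin_le_num (by norm_num) (by norm_num)) (expm_le (by norm_num) (by norm_num) (by norm_num))
    (expn_ge (by norm_num) (by norm_num)) (by norm_num) (by norm_num) (by norm_num) (by norm_num) (by norm_num)
  exact ⟨hy1, hy2⟩

theorem left {β r h t κ : ℝ} (hh : h = 2 * Real.pi / (3 : ℕ)) (hβ : 0 < β) (hr : 10 ≤ r) (hκ : κ = β * r)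
    (hk1 : 0.46 ≤ κ) (hk2 : κ ≤ 0.48) (hT1 : 0 ≤ t + κ) (hT2 : t + κ ≤ 1.16) :
    ‖Xf β r h t (-1)‖ < |‖Xf β r h t 1‖ - ‖Xf β r h t 0‖| := by
  obtain ⟨q1, q2, q3⟩ := b3_h hh
  have hR0 := b3_R0 hβ hr hκ
  have hR := b3_R hβ hr hκ (by linarith)
  have hD1 : DomR κ t := b3_dom (by linarith) (by linarith) (Or.inl (by linarith))
  have hy := yL hD1 hk1 hk2 (by linarith) (by linarith)
  have hY : 0.8579 * Real.exp (r * 0.59167) ≤ ‖Xf β r h t 1‖ :=
    b3_lo hβ hr hκ (k := 1) (t' := t) (by push_cast; ring) hD1 0.02 1.7021 0.8579 0.59167 (by norm_num)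
      (T3_08_p1 hD1 hβ hk1 hk2 (by linarith) (by linarith) hR0 hR)
      (v5_Dup hD1 0.48 0 0.286 1 0.75127 1.7021 hk2 hy.1 hy.2 (ex_up 0 (by norm_num) (by norm_num) (by norm_num) (by norm_num)) (ex_um 0.286 (by norm_num) (by norm_num) (by norm_num) (by norm_num)) (by norm_num) (by norm_num) (by norm_num)) (by norm_num) (by norm_num)
      (b3_Vlo hD1 0.46 0.48 0 1.16 0.46 (-0.77652) 0.9116 0.61247 0.49026 0.59167 hk1 hk2 (by linarith) (by linarith) (by norm_num) (ex_lm 0.77652 (by norm_num) (by norm_num) (by norm_num) (by norm_num) (by norm_num)) (by norm_num) (by norm_num) (by norm_num) (by norm_num) (by norm_num) (by norm_num) (by norm_num) (by norm_num) (ex_um 0.49026 (by norm_num) (by norm_num) (by norm_num) (by norm_num)) (by norm_num))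
  have h0 : ‖Xf β r h t 0‖ ≤ 0.924 * ‖Xf β r h t 1‖ :=
    b3_cmp 0.4376 0.08372 0.03891 0.32468 0.820622 0.103283 0.924 hr (b3_HU0 1.23 0.46 0.48 (-2.0944) (-0.93439) 1.65724 1.76086 1.80472 0.56791 0.55411 1.76085 1.6088 0.08741 1.12825 2.1376 0.17641 0.26699 0.000001 2.2772 0.50795 hβ hr hκ (by norm_num) hk1 hk2 (by norm_num) (by linarith) (by linarith) (by norm_num) (by norm_num) (ex_up 0.5658 (by norm_num) (by norm_num) (by norm_num) (by norm_num)) (ex_up 0.5904 (by norm_num) (by norm_num) (by norm_num) (by norm_num)) (ex_um 0.5658 (by norm_num) (by norm_num) (by norm_num) (by norm_num)) (ex_um 0.5904 (by norm_num) (by norm_num) (by norm_num) (by norm_num)) (by norm_num) (by norm_num) (ex_lp 0.5658 (by norm_num) (by norm_num) (by norm_num)) (by norm_num) (by norm_num) (by norm_num) (by norm_num) (by norm_num) (by norm_num) (by norm_num) (by norm_num) (by norm_num) (by norm_num) (by norm_num) (by norm_num) (by norm_num) (by norm_num) (v5_hump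 5.8216 20.833 4.5644 0.0000003148 0.000001 hβ hr hκ hk1 hk2 (by norm_num) (tb := (-0.93439)) (by linarith) (by norm_num) (by norm_num) (by norm_num) (by norm_num) (by norm_num) (by norm_num) (by norm_num) (ex_un 14 0.99 (by norm_num) (by norm_num) (by norm_num) (by norm_num)) (by norm_num)) (by norm_num) (by norm_num)) hY (by norm_num) (by norm_num) (by norm_num) (by norm_num) (by norm_num) (ex_un 0 0.8372 (by norm_num) (by norm_num) (by norm_num) (by norm_num)) (by norm_num) (by norm_num) (by norm_num) (ex_un 3 0.2468 (by norm_num) (by norm_num) (by norm_num) (by norm_num)) (by norm_num) (by norm_num)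
  have h2 : ‖Xf β r h t (-1)‖ ≤ 0.021 * ‖Xf β r h t 1‖ := by
    exact b3_cmp 1 0 0.004673 0.53667 0 0.020915 0.021 hr (b3_w (b3_UD 0.46 0.48 2.09439 3.2544 0.005 0.58822 0.005 2.0018 3.8397 0.055 hh hβ hr hκ (by norm_num) hk1 hk2 (by linarith) (by linarith) (by norm_num) (by norm_num) (by norm_num) (by norm_num) (by norm_num) (by norm_num) (by norm_num) (by norm_num) (by norm_num) (by norm_num) (by norm_num) (by norm_num) (by norm_num))) hY (by norm_num) (by norm_num) (by norm_num) (by norm_num) (by norm_num) (by norm_num) (by norm_num) (by norm_num) (by norm_num) (ex_un 5 0.3667 (by norm_num) (by norm_num) (by norm_num) (by norm_num)) (by norm_num) (by norm_num)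
  exact b3_out1 0.924 0.021 hY (by norm_num) h0 h2 (by norm_num)

private theorem yM1 {κ t : ℝ} (h : DomR κ t) (hk1 : 0.46 ≤ κ) (hk2 : κ ≤ 0.48) (ht1 : 0 ≤ t + κ) (ht2 : t + κ ≤ 1.171) :
    0 ≤ sy κ t ∧ sy κ t ≤ 0.287 := by
  have hy1 : 0 ≤ sy κ t := sy_nonneg h (by linarith)
  have hy2 : sy κ t ≤ 0.287 := syR_ang2 h 0.46 0.48 1.171 0.921 0.6059 0.7964 0.287 0.75052 1.33242 hk1 hk2 (by linarith) (by norm_num) (by norm_num) (by norm_num)
    (cos_le_num (by norm_num)) (sin_le_num (by norm_num) (by norm_num)) (expm_le (by norm_num) (by norm_num) (by norm_num))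
    (expn_ge (by norm_num) (by norm_num)) (by norm_num) (by norm_num) (by norm_num) (by norm_num) (by norm_num)
  exact ⟨hy1, hy2⟩

private theorem yM0 {κ t : ℝ} (h : DomR κ t) (hk1 : 0.46 ≤ κ) (hk2 : κ ≤ 0.48) (ht1 : -0.9344 ≤ t + κ) (ht2 : t + κ ≤ -0.92339) :
    (-0.634) ≤ sy κ t ∧ sy κ t ≤ (-0.577) := by
  have hy1 : -0.634 ≤ sy κ t := syL_ang2 h 0.46 0.48 0.9344 0.776 0.7137 0.7005 0.634 1.88512 0.53046 hk1 hk2 (by linarith) (by norm_num) (by norm_num) (by norm_num) (by norm_num)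
    (cos_ge_num (by norm_num) (by norm_num)) (sin_le_num (by norm_num) (by norm_num))
    (expn_ge (by norm_num) (by norm_num)) (expm_ge (by norm_num) (by norm_num) (by norm_num) (by norm_num)) (by norm_num) (by norm_num) (by norm_num)
    (by norm_num) (by norm_num) (by norm_num)
  have hy2 : sy κ t ≤ -0.577 := syL_le h 0.46 0.48 0.92339 0.577 0.56158 0.56159 0.67506 0.70443 hk1 hk2 (by linarith) (by norm_num) (by norm_num) (by norm_num)
    (expm_ge (by norm_num) (by norm_num) (by norm_num) (by norm_num)) (expm_le (by norm_num) (by norm_num) (by norm_num)) (by norm_num)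
    (by norm_num) (by norm_num) (by norm_num) (by norm_num) (by norm_num) (by norm_num)
  exact ⟨hy1, hy2⟩

theorem middle {β r h t κ : ℝ} (hh : h = 2 * Real.pi / (3 : ℕ)) (hβ : 0 < β) (hr : 10 ≤ r) (hκ : κ = β * r)
    (hk1 : 0.46 ≤ κ) (hk2 : κ ≤ 0.48) (hT1 : 1.16 ≤ t + κ) (hT2 : t + κ ≤ 1.171) :
    ‖Xf β r h t (-1)‖ < |‖Xf β r h t 1‖ - ‖Xf β r h t 0‖| := by
  obtain ⟨q1, q2, q3⟩ := b3_h hh
  have hR0 := b3_R0 hβ hr hκ
  have hR := b3_R hβ hr hκ (by linarith)
  have hD1 : DomR κ t := b3_dom (by linarith) (by linarith) (Or.inl (by linarith))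
  have hD0 : DomR κ (t - h) := b3_dom (by linarith) (by linarith) (Or.inl (by linarith))
  have hy := yM1 hD1 hk1 hk2 (by linarith) (by linarith)
  have hy0 := yM0 hD0 hk1 hk2 (by linarith) (by linarith)
  have hY : 0.8577 * Real.exp (r * 0.58506) ≤ ‖Xf β r h t 1‖ :=
    b3_lo hβ hr hκ (k := 1) (t' := t) (by push_cast; ring) hD1 0.02 1.7038 0.8577 0.58506 (by norm_num)
      (T3_08_p1 hD1 hβ hk1 hk2 (by linarith) (by linarith) hR0 hR)
      (v5_Dup hD1 0.48 0 0.287 1 0.75052 1.7038 hk2 hy.1 hy.2 (ex_up 0 (by norm_num) (by norm_num) (by norm_num) (by norm_num)) (ex_um 0.287 (by norm_num) (by norm_num) (by norm_num) (by norm_num)) (by norm_num) (by norm_num) (by norm_num)) (by norm_num) (by norm_num)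
      (b3_Vlo hD1 0.46 0.48 0 1.171 0.46 (-0.77652) 0.9226 0.60373 0.50463 0.58506 hk1 hk2 (by linarith) (by linarith) (by norm_num) (ex_lm 0.77652 (by norm_num) (by norm_num) (by norm_num) (by norm_num) (by norm_num)) (by norm_num) (by norm_num) (by norm_num) (by norm_num) (by norm_num) (by norm_num) (by norm_num) (by norm_num) (ex_um 0.50463 (by norm_num) (by norm_num) (by norm_num) (by norm_num)) (by norm_num))
  have hU : ‖Xf β r h t 0‖ ≤ 1.4336 * Real.exp (r * 0.52448) :=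
    b3_up hβ hr hκ (k := 0) (t' := t - h) (by push_cast; ring) hD0 0.195 0.4828 1.4336 0.52448
      (T3_08_p0m hD0 hβ hk1 hk2 (by linarith) (by linarith) hR0 hR) (v5_Dlo hD0 0.46 (-0.634) (-0.577) (-0.606) 1.83307 0.4828 (by norm_num) hk1 hy0.1 hy0.2 (ex_lp 0.606 (by norm_num) (by norm_num) (by norm_num)) (by norm_num) (by norm_num) (by norm_num) (by norm_num)) (by norm_num) (by norm_num)
      (b3_VH hD0 1.09 0.46 0.48 1.53097 1.65104 1.68742 0.60569 0.59263 (-0.92339) 0.52448 (by norm_num) hk1 hk2 (by norm_num) (ex_up 0.5014 (by norm_num) (by norm_num) (by norm_num) (by norm_num)) (ex_up 0.5232 (by norm_num) (by norm_num) (by norm_num) (by norm_num)) (ex_um 0.5014 (by norm_num) (by norm_num) (by norm_num) (by norm_num)) (ex_um 0.5232 (by norm_num) (by norm_num) (by norm_num) (by norm_num)) (by norm_num) (by norm_num) (by norm_num) (by linarith) (by norm_num))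
  have h0 : ‖Xf β r h t 0‖ ≤ 0.9153 * ‖Xf β r h t 1‖ :=
    b3_cmp 1 0 0.5476 0.06058 0 0.915285 0.9153 hr (b3_w hU) hY (by norm_num) (by norm_num) (by norm_num) (by norm_num) (by norm_num) (by norm_num) (by norm_num) (by norm_num) (by norm_num) (ex_un 0 0.6058 (by norm_num) (by norm_num) (by norm_num) (by norm_num)) (by norm_num) (by norm_num)
  have h2 : ‖Xf β r h t (-1)‖ ≤ 0.0029 * ‖Xf β r h t 1‖ := by
    exact b3_cmp 1 0 0.004748 0.53506 0 0.002849 0.0029 hr ((b3_Xm hh).trans_le (b3_U1 0.46 0.48 3.25439 3.2654 1.20359 0.08741 1.12825 0.9333 0.00001 0.3673 0.000001 0.5145 hβ hr hκ (by norm_num) hk1 hk2 (by linarith) (by linarith) (by norm_num) (by norm_num) (by norm_num) (by norm_num) (by norm_num) (by norm_num) (by norm_num) (by norm_num) (by norm_num) (by norm_num) (by norm_num) (by norm_num) (by norm_num) (ex_un 9 0.333 (by norm_num) (by norm_num) (by norm_num) (by norm_num)) (v5_hump 1.6218 20.833 4.5644 0.0000003148 0.000001 hβ hr hκ hk1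 hk2 (by norm_num) (tb := 3.2654) (by linarith) (by norm_num) (by norm_num) (by norm_num) (by norm_num) (by norm_num) (by norm_num) (by norm_num) (ex_un 14 0.99 (by norm_num) (by norm_num) (by norm_num) (by norm_num)) (by norm_num)) (by norm_num))) hY (by norm_num) (by norm_num) (by norm_num) (by norm_num) (by norm_num) (by norm_num) (by norm_num) (by norm_num) (by norm_num) (ex_un 5 0.3506 (by norm_num) (by norm_num) (by norm_num) (by norm_num)) (by norm_num) (by norm_num)
  exact b3_out1 0.9153 0.0029 hY (by norm_num) h0 h2 (by norm_num)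

private theorem yR0 {κ t : ℝ} (h : DomR κ t) (hk1 : 0.46 ≤ κ) (hk2 : κ ≤ 0.48) (ht1 : -0.7124 ≤ t + κ) (ht2 : t + κ ≤ 0.0001) :
    (-0.41) ≤ sy κ t ∧ sy κ t ≤ 0.005 := by
  have hy1 : -0.41 ≤ sy κ t := syL_ang2 h 0.46 0.48 0.7124 0.602 0.8242 0.5663 0.41 1.50681 0.66365 hk1 hk2 (by linarith) (by norm_num) (by norm_num) (by norm_num) (by norm_num)
    (cos_ge_num (by norm_num) (by norm_num)) (sin_le_num (by norm_num) (by norm_num))
    (expn_ge (by norm_num) (by norm_num)) (expm_ge (by norm_num) (by norm_num) (by norm_num) (by norm_num)) (by norm_num) (by norm_num) (by norm_num)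
    (by norm_num) (by norm_num) (by norm_num)
  have hy2 : sy κ t ≤ 0.005 := syR_le h 0.46 0.48 0.0001 0.005 1.00501 0.0103 0.01046 0.01093 hk1 hk2 (by linarith) (by norm_num) (by norm_num)
    (expn_ge (by norm_num) (by norm_num)) (by norm_num) (by norm_num) (Or.inr ((mul_le_mul_of_nonneg_left (expn_le (E := 1.00502) (by norm_num) (by norm_num) (by norm_num)) (by norm_num)).trans (by norm_num))) (by norm_num) (by norm_num) (by norm_num)
  exact ⟨hy1, hy2⟩

theorem right0 {β r h t κ : ℝ} (hh : h = 2 * Real.pi / (3 : ℕ)) (hβ : 0 < β) (hr : 10 ≤ r) (hκ : κ = β * r)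
    (hk1 : 0.46 ≤ κ) (hk2 : κ ≤ 0.48) (hT1 : 1.382 ≤ t + κ) (hT2 : t + κ ≤ h) :
    ‖Xf β r h t (-1)‖ < |‖Xf β r h t 1‖ - ‖Xf β r h t 0‖| := by
  obtain ⟨q1, q2, q3⟩ := b3_h hh
  have hR0 := b3_R0 hβ hr hκ
  have hR := b3_R hβ hr hκ (by linarith)
  have hD0 : DomR κ (t - h) := b3_dom (by linarith) (by linarith) (Or.inl (by linarith))
  have hy := yR0 hD0 hk1 hk2 (by linarith) (by linarith)
  have hY : 0.8958 * Real.exp (r * 0.73374) ≤ ‖Xf β r h t 0‖ :=
    b3_lo hβ hr hκ (k := 0) (t' := t - h) (by push_cast; ring) hD0 0.055 1.2382 0.8958 0.73374 (by norm_num)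
      (T3_08_p0R hD0 hβ hk1 hk2 (by linarith) (by linarith) hR0 hR)
      (v5_Dup hD0 0.48 (-0.41) 0.005 1.50682 0.99502 1.2382 hk2 hy.1 hy.2 (ex_up 0.41 (by norm_num) (by norm_num) (by norm_num) (by norm_num)) (ex_um 0.005 (by norm_num) (by norm_num) (by norm_num) (by norm_num)) (by norm_num) (by norm_num) (by norm_num)) (by norm_num) (by norm_num)
      (b3_Vlo hD0 0.46 0.48 (-0.7124) 0.0001 1.21 0.19063 0.6158 0.81631 0.20297 0.73374 hk1 hk2 (by linarith) (by linarith) (by norm_num) (ex_lp 0.19063 (by norm_num) (by norm_num) (by norm_num)) (by norm_num) (by norm_num) (by norm_num) (by norm_num) (by norm_num) (by norm_num) (by norm_num) (by norm_num) (ex_um 0.20297 (by norm_num) (by norm_num) (by norm_num) (by norm_num)) (by norm_num))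
  have h1 : ‖Xf β r h t 1‖ ≤ 0.2301 * ‖Xf β r h t 0‖ := by
    rcases le_total (t + κ) 1.83 with g0 | g0
    · exact b3_cmp 0.0742 0.26045 0.0006511 0.73374 0.229997 0.00009 0.2301 hr (b3_X1.trans_le (b3_HF 0.58 0.46 0.48 1.382 1.83 1.27485 0.76583 0.757 1.30578 1.32102 0.75699 2.5891 0.08741 2.4727 0.2007 0.08538 0.4307 0.000001 2.7767 0.1228 0.47329 hβ hr hκ (by norm_num) hk1 hk2 (by norm_num) (by linarith) (by linarith) (by norm_num) (ex_um 0.2668 (by norm_num) (by norm_num) (by norm_num) (by norm_num)) (ex_um 0.2784 (by norm_num) (by norm_num) (by norm_num) (by norm_num)) (ex_up 0.2668 (by norm_num) (by norm_num) (by norm_num) (by norm_num)) (ex_up 0.2784 (by norm_num) (by norm_num) (by norm_num) (by norm_num)) (by norm_num) (by norm_num) (ex_lm 0.2784 (by norm_num) (by norm_num) (by norm_num) (by norm_num) (by norm_num)) (by norm_num) (by norm_num) (by norm_num) (by norm_num) (by norm_num) (by norm_num) (by norm_num) (by norm_num) (by norm_num)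 (by norm_num) (by norm_num) (by norm_num) (ex_un 0 0.8538 (by norm_num) (by norm_num) (by norm_num) (by norm_num)) (v5_hump 3.0572 20.833 4.5644 0.0000003148 0.000001 hβ hr hκ hk1 hk2 (by norm_num) (tb := 1.83) (by linarith) (by norm_num) (by norm_num) (by norm_num) (by norm_num) (by norm_num) (by norm_num) (by norm_num) (ex_un 14 0.99 (by norm_num) (by norm_num) (by norm_num) (by norm_num)) (by norm_num)) (by norm_num) (by norm_num) (by norm_num))) hY (by norm_num) (by norm_num) (by norm_num) (by norm_num) (by norm_num) (ex_un 2 0.6045 (by norm_num) (by norm_num) (by norm_num) (by norm_num)) (by norm_num) (by norm_num) (by norm_num) (ex_un 7 0.3374 (by norm_num) (by norm_num) (by norm_num) (by norm_num)) (by norm_num) (by norm_num)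
    exact b3_cmp 1 0 0.01308 0.43374 0 0.070907 0.2301 hr (b3_w (b3_UD1 0.46 0.48 1.83 2.0944 0.25 0.58822 0.25 2.5317 4.8561 0.3 hβ hr hκ (by norm_num) hk1 hk2 (by linarith) (by linarith) (by norm_num) (by norm_num) (by norm_num) (by norm_num) (by norm_num) (by norm_num) (by norm_num) (by norm_num) (by norm_num) (by norm_num) (by norm_num) (by norm_num) (by norm_num))) hY (by norm_num) (by norm_num) (by norm_num) (by norm_num) (by norm_num) (by norm_num) (by norm_num) (by norm_num) (by norm_num) (ex_un 4 0.3374 (by norm_num) (by norm_num) (by norm_num) (by norm_num)) (by norm_num) (by norm_num)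
  have h2 : ‖Xf β r h t (-1)‖ ≤ 0.0007 * ‖Xf β r h t 0‖ := by
    exact b3_cmp 1 0 0.001085 0.68374 0 0.00061 0.0007 hr ((b3_Xm hh).trans_le (b3_U1 0.46 0.48 3.47639 4.1888 1.42559 0.08741 1.12825 0.8324 0.00003 0.5873 0.000001 0.5033 hβ hr hκ (by norm_num) hk1 hk2 (by linarith) (by linarith) (by norm_num) (by norm_num) (by norm_num) (by norm_num) (by norm_num) (by norm_num) (by norm_num) (by norm_num) (by norm_num) (by norm_num) (by norm_num) (by norm_num) (by norm_num) (ex_un 8 0.324 (by norm_num) (by norm_num) (by norm_num) (by norm_num)) (v5_hump 0.6984 20.833 4.5644 0.0000004811 0.000001 hβ hr hκ hk1 hk2 (by norm_num) (tb := 4.1888) (by linarith) (by norm_num) (by norm_num) (by norm_num) (by norm_num) (by norm_num) (by norm_num) (by norm_num) (ex_un 14 0.5497 (by norm_num) (by norm_num) (by norm_num) (by norm_num)) (by norm_num)) (by norm_num))) hY (by norm_num) (by norm_num) (by norm_num) (by norm_num) (by norm_num) (by norm_num) (by norm_num)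 (by norm_num) (by norm_num) (ex_un 6 0.8374 (by norm_num) (by norm_num) (by norm_num) (by norm_num)) (by norm_num) (by norm_num)
  exact b3_out0 0.2301 0.0007 hY (by norm_num) h1 h2 (by norm_num)

private theorem yI {κ t : ℝ} (h : DomR κ t) (hk1 : 0.46 ≤ κ) (hk2 : κ ≤ 0.48) (ht1 : -0.9234 ≤ t + κ) (ht2 : t + κ ≤ -0.71239) :
    (-0.621) ≤ sy κ t ∧ sy κ t ≤ (-0.388) := by
  have hy1 : -0.621 ≤ sy κ t := syL_ang2 h 0.46 0.48 0.9234 0.768 0.7192 0.6948 0.621 1.86078 0.5374 hk1 hk2 (by linarith) (by norm_num) (by norm_num) (by norm_num) (by norm_num)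
    (cos_ge_num (by norm_num) (by norm_num)) (sin_le_num (by norm_num) (by norm_num))
    (expn_ge (by norm_num) (by norm_num)) (expm_ge (by norm_num) (by norm_num) (by norm_num) (by norm_num)) (by norm_num) (by norm_num) (by norm_num)
    (by norm_num) (by norm_num) (by norm_num)
  have hy2 : sy κ t ≤ -0.388 := syL_le h 0.46 0.48 0.71239 0.388 0.67841 0.67842 0.54838 0.57224 hk1 hk2 (by linarith) (by norm_num) (by norm_num) (by norm_num)
    (expm_ge (by norm_num) (by norm_num) (by norm_num) (by norm_num)) (expm_le (by norm_num) (by norm_num) (by norm_num)) (by norm_num)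
    (by norm_num) (by norm_num) (by norm_num) (by norm_num) (by norm_num) (by norm_num)
  exact ⟨hy1, hy2⟩

theorem innE {β r h t κ : ℝ} (hh : h = 2 * Real.pi / (3 : ℕ)) (hβ : 0 < β) (hr : 10 ≤ r) (hκ : κ = β * r)
    (hk1 : 0.46 ≤ κ) (hk2 : κ ≤ 0.48) (hT1 : 1.171 ≤ t + κ) (hT2 : t + κ ≤ 1.382) :
    ‖Xf β r h t (-1)‖ ≤ 0.00593 * ‖Xf β r h t 0‖ ∧ ‖Xf β r h (t + β) (-1)‖ ≤ 0.00593 * ‖Xf β r h t 0‖ := by
  obtain ⟨q1, q2, q3⟩ := b3_h hh
  have hR0 := b3_R0 hβ hr hκ
  have hR := b3_R hβ hr hκ (by linarith)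
  have hD0 : DomR κ (t - h) := b3_dom (by linarith) (by linarith) (Or.inl (by linarith))
  have hy := yI hD0 hk1 hk2 (by linarith) (by linarith)
  have hY : 0.8887 * Real.exp (r * 0.50849) ≤ ‖Xf β r h t 0‖ :=
    b3_lo hβ hr hκ (k := 0) (t' := t - h) (by push_cast; ring) hD0 0.18 0.7247 0.8887 0.50849 (by norm_num)
      (T3_08_p0 hD0 hβ hk1 hk2 (by linarith) (by linarith) hR0 hR)
      (v5_Dup hD0 0.48 (-0.621) (-0.388) 1.86079 1.47403 0.7247 hk2 hy.1 hy.2 (ex_up 0.621 (by norm_num) (by norm_num) (by norm_num) (by norm_num)) (ex_up 0.388 (by norm_num) (by norm_num) (by norm_num) (by norm_num)) (by norm_num) (by norm_num) (by norm_num)) (by norm_num) (by norm_num)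
      (b3_Vlo hD0 0.46 0.48 (-0.9234) (-0.71239) 1.27 0.23902 0.7992 0.69727 0.36059 0.50849 hk1 hk2 (by linarith) (by linarith) (by norm_num) (ex_lp 0.23902 (by norm_num) (by norm_num) (by norm_num)) (by norm_num) (by norm_num) (by norm_num) (by norm_num) (by norm_num) (by norm_num) (by norm_num) (by norm_num) (ex_um 0.36059 (by norm_num) (by norm_num) (by norm_num) (by norm_num)) (by norm_num))
  constructor
  · exact b3_cmp 1 0 0.01024 0.45849 0 0.005922 0.00593 hr ((b3_Xm hh).trans_le (b3_U1 0.46 0.48 3.26539 3.4764 1.21459 0.08741 1.12825 0.9371 0.00001 0.3563 0.000001 0.5139 hβ hr hκ (by norm_num) hk1 hk2 (by linarith) (by linarith) (by norm_num) (by norm_num) (by norm_num) (by norm_num) (by norm_num) (by norm_num) (by norm_num) (by norm_num) (by norm_num) (by norm_num) (by norm_num) (by norm_num) (by norm_num) (ex_un 9 0.371 (by norm_num) (by norm_num) (by norm_num) (by norm_num)) (v5_hump 1.4108 20.833 4.5644 0.0000003148 0.000001 hβ hr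 hκ hk1 hk2 (by norm_num) (tb := 3.4764) (by linarith) (by norm_num) (by norm_num) (by norm_num) (by norm_num) (by norm_num) (by norm_num) (by norm_num) (ex_un 14 0.99 (by norm_num) (by norm_num) (by norm_num) (by norm_num)) (by norm_num)) (by norm_num))) hY (by norm_num) (by norm_num) (by norm_num) (by norm_num) (by norm_num) (by norm_num) (by norm_num) (by norm_num) (by norm_num) (ex_un 4 0.5849 (by norm_num) (by norm_num) (by norm_num) (by norm_num)) (by norm_num) (by norm_num)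
  · exact b3_cmp 1 0 0.01024 0.45849 0 0.005922 0.00593 hr ((b3_Xm hh).trans_le (b3_U1 0.46 0.48 3.26539 3.5244 1.21459 0.08741 1.12825 0.9371 0.00001 0.3563 0.000001 0.5139 hβ hr hκ (by norm_num) hk1 hk2 (by linarith) (by linarith) (by norm_num) (by norm_num) (by norm_num) (by norm_num) (by norm_num) (by norm_num) (by norm_num) (by norm_num) (by norm_num) (by norm_num) (by norm_num) (by norm_num) (by norm_num) (ex_un 9 0.371 (by norm_num) (by norm_num) (by norm_num) (by norm_num)) (v5_hump 1.3628 20.833 4.5644 0.0000003148 0.000001 hβ hr hκ hk1 hk2 (by norm_num) (tb := 3.5244) (by linarith) (by norm_num) (by norm_num) (by norm_num) (by norm_num) (by norm_num) (by norm_num) (by norm_num) (ex_un 14 0.99 (by norm_num) (by norm_num) (by norm_num) (by norm_num)) (by norm_num)) (by norm_num))) hY (by norm_num) (by norm_num) (by norm_num) (by norm_num) (by norm_num) (by norm_num) (by norm_num) (by norm_num) (by norm_num) (ex_un 4 0.5849 (by norm_num)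 (by norm_num) (by norm_num) (by norm_num)) (by norm_num) (by norm_num)

private theorem yA0 {κ t : ℝ} (h : DomR κ t) (hk1 : 0.46 ≤ κ) (hk2 : κ ≤ 0.48) (ht1 : 1.171 ≤ t + κ) (ht2 : t + κ ≤ 1.186) :
    0.275 ≤ sy κ t ∧ sy κ t ≤ 0.289 := by
  have hy1 : 0.275 ≤ sy κ t := syR_ge h 0.46 0.48 1.171 0.275 1.31653 1.31654 0.75426 0.78707 hk1 hk2 (by linarith) (by norm_num) (by norm_num)
    (expn_ge (by norm_num) (by norm_num)) (expn_le (by norm_num) (by norm_num) (by norm_num)) (by norm_num)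
    (by norm_num) (by norm_num) (by norm_num) (by norm_num) (by norm_num) (by norm_num)
  have hy2 : sy κ t ≤ 0.289 := syR_ang2 h 0.46 0.48 1.186 0.933 0.5964 0.8036 0.289 0.74902 1.33509 hk1 hk2 (by linarith) (by norm_num) (by norm_num) (by norm_num)
    (cos_le_num (by norm_num)) (sin_le_num (by norm_num) (by norm_num)) (expm_le (by norm_num) (by norm_num) (by norm_num))
    (expn_ge (by norm_num) (by norm_num)) (by norm_num) (by norm_num) (by norm_num) (by norm_num) (by norm_num)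
  exact ⟨hy1, hy2⟩

private theorem yB0 {κ t : ℝ} (h : DomR κ t) (hk1 : 0.46 ≤ κ) (hk2 : κ ≤ 0.48) (ht1 : -0.9234 ≤ t + κ) (ht2 : t + κ ≤ -0.90839) :
    (-0.621) ≤ sy κ t ∧ sy κ t ≤ (-0.562) := by
  have hy1 : -0.621 ≤ sy κ t := syL_ang2 h 0.46 0.48 0.9234 0.768 0.7192 0.6948 0.621 1.86078 0.5374 hk1 hk2 (by linarith) (by norm_num) (by norm_num) (by norm_num) (by norm_num)
    (cos_ge_num (by norm_num) (by norm_num)) (sin_le_num (by norm_num) (by norm_num))
    (expn_ge (by norm_num) (by norm_num)) (expm_ge (by norm_num) (by norm_num) (by norm_num) (by norm_num)) (by norm_num) (by norm_num) (by norm_num)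
    (by norm_num) (by norm_num) (by norm_num)
  have hy2 : sy κ t ≤ -0.562 := syL_le h 0.46 0.48 0.90839 0.562 0.57006 0.57007 0.66744 0.69648 hk1 hk2 (by linarith) (by norm_num) (by norm_num) (by norm_num)
    (expm_ge (by norm_num) (by norm_num) (by norm_num) (by norm_num)) (expm_le (by norm_num) (by norm_num) (by norm_num)) (by norm_num)
    (by norm_num) (by norm_num) (by norm_num) (by norm_num) (by norm_num) (by norm_num)
  exact ⟨hy1, hy2⟩

theorem pc0 {β r h t κ : ℝ} (hh : h = 2 * Real.pi / (3 : ℕ)) (hβ : 0 < β) (hr : 10 ≤ r) (hκ : κ = β * r)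
    (hk1 : 0.46 ≤ κ) (hk2 : κ ≤ 0.48) (hT1 : 1.171 ≤ t + κ) (hT2 : t + κ ≤ 1.186) :
    Xf β r h t 0 ≠ 0 ∧ r * 0.0971 ≤ (Ld β r h t 1 - Ld β r h t 0).im ∧
      ‖(((-1 : ℤ) : ℂ) - 1) * Ld β r h t 0 - ((-1 : ℤ) : ℂ) * Ld β r h t 1‖ ≤ r * 8.01 := by
  obtain ⟨q1, q2, q3⟩ := b3_h hh
  have hR0 := b3_R0 hβ hr hκ
  have hR := b3_R hβ hr hκ (by linarith)
  have hD1 : DomR κ t := b3_dom (by linarith) (by linarith) (Or.inl (by linarith))
  have hD0 : DomR κ (t - h) := b3_dom (by linarith) (by linarith) (Or.inl (by linarith))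
  have y1 := yA0 hD1 hk1 hk2 (by linarith) (by linarith)
  have y0 := yB0 hD0 hk1 hk2 (by linarith) (by linarith)
  have j1 := T3_08_d1_0 hD1 hβ hk1 hk2 (by linarith) (by linarith) hR0 hR
  exact b3_piece 0.46 0.48 0.275 0.289 0.282 0.75427 0.75958 0.74902 0.3646 1.672 1.7073 0.05 0.03 0.03 0.6186 0.1745 0 0 (-0.621) (-0.562) (-0.592) 1.80759 1.86079 0.8932 0.4894 0.03 0.3 0.18 12.1952 15.5707 0.395 0.721 0.0971 8.01
    hβ hr hκ (by norm_num) hk1 hk2 hD1 hD0 j1 (j1 _ (by rw [sub_self, norm_zero]; norm_num))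
    (T3_08_d0_0 hD0 hβ hk1 hk2 (by linarith) (by linarith) hR0 hR)
    (T3_08_p0 hD0 hβ hk1 hk2 (by linarith) (by linarith) hR0 hR)
    y1.1 y1.2 y0.1 y0.2 (by norm_num)
    (ex_um 0.275 (by norm_num) (by norm_num) (by norm_num) (by norm_num)) (ex_um 0.289 (by norm_num) (by norm_num) (by norm_num) (by norm_num)) (ex_lm 0.282 (by norm_num) (by norm_num) (by norm_num) (by norm_num) (by norm_num)) (by norm_num) (by norm_num) (by norm_num) (by norm_num) (by norm_num) (by norm_num) (by norm_num) (by norm_num)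
    (by norm_num) (by norm_num) (by norm_num) (by norm_num) (by norm_num) (by norm_num) (by norm_num) (by norm_num) (by norm_num) (by norm_num)
    (ex_up 0.621 (by norm_num) (by norm_num) (by norm_num) (by norm_num)) (ex_lp 0.592 (by norm_num) (by norm_num) (by norm_num)) (by norm_num) (by norm_num) (by norm_num) (by norm_num) (by norm_num) (by norm_num)
    (by norm_num) (by norm_num) (by norm_num) (by norm_num) (by norm_num) (by norm_num) (by norm_num) (by norm_num) (by norm_num) (by norm_num) (by norm_num)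
    (by norm_num) (by norm_num) (by norm_num) (by norm_num)

private theorem yA1 {κ t : ℝ} (h : DomR κ t) (hk1 : 0.46 ≤ κ) (hk2 : κ ≤ 0.48) (ht1 : 1.186 ≤ t + κ) (ht2 : t + κ ≤ 1.201) :
    0.277 ≤ sy κ t ∧ sy κ t ≤ 0.291 := by
  have hy1 : 0.277 ≤ sy κ t := syR_ge h 0.46 0.48 1.186 0.277 1.31916 1.31917 0.76126 0.79437 hk1 hk2 (by linarith) (by norm_num) (by norm_num)
    (expn_ge (by norm_num) (by norm_num)) (expn_le (by norm_num) (by norm_num) (by norm_num)) (by norm_num)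
    (by norm_num) (by norm_num) (by norm_num) (by norm_num) (by norm_num) (by norm_num)
  have hy2 : sy κ t ≤ 0.291 := syR_ang2 h 0.46 0.48 1.201 0.945 0.5868 0.8107 0.291 0.74752 1.33776 hk1 hk2 (by linarith) (by norm_num) (by norm_num) (by norm_num)
    (cos_le_num (by norm_num)) (sin_le_num (by norm_num) (by norm_num)) (expm_le (by norm_num) (by norm_num) (by norm_num))
    (expn_ge (by norm_num) (by norm_num)) (by norm_num) (by norm_num) (by norm_num) (by norm_num) (by norm_num)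
  exact ⟨hy1, hy2⟩

private theorem yB1 {κ t : ℝ} (h : DomR κ t) (hk1 : 0.46 ≤ κ) (hk2 : κ ≤ 0.48) (ht1 : -0.9084 ≤ t + κ) (ht2 : t + κ ≤ -0.89339) :
    (-0.604) ≤ sy κ t ∧ sy κ t ≤ (-0.547) := by
  have hy1 : -0.604 ≤ sy κ t := syL_ang2 h 0.46 0.48 0.9084 0.758 0.7262 0.6875 0.604 1.82941 0.54662 hk1 hk2 (by linarith) (by norm_num) (by norm_num) (by norm_num) (by norm_num)
    (cos_ge_num (by norm_num) (by norm_num)) (sin_le_num (by norm_num) (by norm_num))
    (expn_ge (by norm_num) (by norm_num)) (expm_ge (by norm_num) (by norm_num) (by norm_num) (by norm_num)) (by norm_num) (by norm_num) (by norm_num)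
    (by norm_num) (by norm_num) (by norm_num)
  have hy2 : sy κ t ≤ -0.547 := syL_le h 0.46 0.48 0.89339 0.547 0.57868 0.57869 0.65945 0.68814 hk1 hk2 (by linarith) (by norm_num) (by norm_num) (by norm_num)
    (expm_ge (by norm_num) (by norm_num) (by norm_num) (by norm_num)) (expm_le (by norm_num) (by norm_num) (by norm_num)) (by norm_num)
    (by norm_num) (by norm_num) (by norm_num) (by norm_num) (by norm_num) (by norm_num)
  exact ⟨hy1, hy2⟩

theorem pc1 {β r h t κ : ℝ} (hh : h = 2 * Real.pi / (3 : ℕ)) (hβ : 0 < β) (hr : 10 ≤ r) (hκ : κ = β * r)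
    (hk1 : 0.46 ≤ κ) (hk2 : κ ≤ 0.48) (hT1 : 1.186 ≤ t + κ) (hT2 : t + κ ≤ 1.201) :
    Xf β r h t 0 ≠ 0 ∧ r * 0.0971 ≤ (Ld β r h t 1 - Ld β r h t 0).im ∧
      ‖(((-1 : ℤ) : ℂ) - 1) * Ld β r h t 0 - ((-1 : ℤ) : ℂ) * Ld β r h t 1‖ ≤ r * 8.01 := by
  obtain ⟨q1, q2, q3⟩ := b3_h hh
  have hR0 := b3_R0 hβ hr hκ
  have hR := b3_R hβ hr hκ (by linarith)
  have hD1 : DomR κ t := b3_dom (by linarith) (by linarith) (Or.inl (by linarith))
  have hD0 : DomR κ (t - h) := b3_dom (by linarith) (by linarith) (Or.inl (by linarith))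
  have y1 := yA1 hD1 hk1 hk2 (by linarith) (by linarith)
  have y0 := yB1 hD0 hk1 hk2 (by linarith) (by linarith)
  have j1 := T3_08_d1_0 hD1 hβ hk1 hk2 (by linarith) (by linarith) hR0 hR
  exact b3_piece 0.46 0.48 0.277 0.291 0.284 0.75276 0.75806 0.74752 0.3639 1.6755 1.7108 0.05 0.03 0.03 0.6186 0.174 0 0 (-0.604) (-0.547) (-0.576) 1.7789 1.82943 0.8782 0.4991 0.03 0.3 0.18 12.1952 15.1597 0.4077 0.7174 0.0971 8.01
    hβ hr hκ (by norm_num) hk1 hk2 hD1 hD0 j1 (j1 _ (by rw [sub_self, norm_zero]; norm_num))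
    (T3_08_d0_0 hD0 hβ hk1 hk2 (by linarith) (by linarith) hR0 hR)
    (T3_08_p0 hD0 hβ hk1 hk2 (by linarith) (by linarith) hR0 hR)
    y1.1 y1.2 y0.1 y0.2 (by norm_num)
    (ex_um 0.277 (by norm_num) (by norm_num) (by norm_num) (by norm_num)) (ex_um 0.291 (by norm_num) (by norm_num) (by norm_num) (by norm_num)) (ex_lm 0.284 (by norm_num) (by norm_num) (by norm_num) (by norm_num) (by norm_num)) (by norm_num) (by norm_num) (by norm_num) (by norm_num) (by norm_num) (by norm_num) (by norm_num) (by norm_num)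
    (by norm_num) (by norm_num) (by norm_num) (by norm_num) (by norm_num) (by norm_num) (by norm_num) (by norm_num) (by norm_num) (by norm_num)
    (ex_up 0.604 (by norm_num) (by norm_num) (by norm_num) (by norm_num)) (ex_lp 0.576 (by norm_num) (by norm_num) (by norm_num)) (by norm_num) (by norm_num) (by norm_num) (by norm_num) (by norm_num) (by norm_num)
    (by norm_num) (by norm_num) (by norm_num) (by norm_num) (by norm_num) (by norm_num) (by norm_num) (by norm_num) (by norm_num) (by norm_num) (by norm_num)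
    (by norm_num) (by norm_num) (by norm_num) (by norm_num)

private theorem yA2 {κ t : ℝ} (h : DomR κ t) (hk1 : 0.46 ≤ κ) (hk2 : κ ≤ 0.48) (ht1 : 1.201 ≤ t + κ) (ht2 : t + κ ≤ 1.218) :
    0.278 ≤ sy κ t ∧ sy κ t ≤ 0.293 := by
  have hy1 : 0.278 ≤ sy κ t := syR_ge h 0.46 0.48 1.201 0.278 1.32048 1.32049 0.76477 0.79804 hk1 hk2 (by linarith) (by norm_num) (by norm_num)
    (expn_ge (by norm_num) (by norm_num)) (expn_le (by norm_num) (by norm_num) (by norm_num)) (by norm_num)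
    (by norm_num) (by norm_num) (by norm_num) (by norm_num) (by norm_num) (by norm_num)
  have hy2 : sy κ t ≤ 0.293 := syR_ang2 h 0.46 0.48 1.218 0.958 0.5763 0.8182 0.293 0.74603 1.34044 hk1 hk2 (by linarith) (by norm_num) (by norm_num) (by norm_num)
    (cos_le_num (by norm_num)) (sin_le_num (by norm_num) (by norm_num)) (expm_le (by norm_num) (by norm_num) (by norm_num))
    (expn_ge (by norm_num) (by norm_num)) (by norm_num) (by norm_num) (by norm_num) (by norm_num) (by norm_num)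
  exact ⟨hy1, hy2⟩

private theorem yB2 {κ t : ℝ} (h : DomR κ t) (hk1 : 0.46 ≤ κ) (hk2 : κ ≤ 0.48) (ht1 : -0.8934 ≤ t + κ) (ht2 : t + κ ≤ -0.87639) :
    (-0.587) ≤ sy κ t ∧ sy κ t ≤ (-0.53) := by
  have hy1 : -0.587 ≤ sy κ t := syL_ang2 h 0.46 0.48 0.8934 0.747 0.7337 0.6795 0.587 1.79857 0.55599 hk1 hk2 (by linarith) (by norm_num) (by norm_num) (by norm_num) (by norm_num)
    (cos_ge_num (by norm_num) (by norm_num)) (sin_le_num (by norm_num) (by norm_num))
    (expn_ge (by norm_num) (by norm_num)) (expm_ge (by norm_num) (by norm_num) (by norm_num) (by norm_num)) (by norm_num) (by norm_num) (by norm_num)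
    (by norm_num) (by norm_num) (by norm_num)
  have hy2 : sy κ t ≤ -0.53 := syL_le h 0.46 0.48 0.87639 0.53 0.5886 0.58861 0.64991 0.67819 hk1 hk2 (by linarith) (by norm_num) (by norm_num) (by norm_num)
    (expm_ge (by norm_num) (by norm_num) (by norm_num) (by norm_num)) (expm_le (by norm_num) (by norm_num) (by norm_num)) (by norm_num)
    (by norm_num) (by norm_num) (by norm_num) (by norm_num) (by norm_num) (by norm_num)
  exact ⟨hy1, hy2⟩

theorem pc2 {β r h t κ : ℝ} (hh : h = 2 * Real.pi / (3 : ℕ)) (hβ : 0 < β) (hr : 10 ≤ r) (hκ : κ = β * r)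
    (hk1 : 0.46 ≤ κ) (hk2 : κ ≤ 0.48) (hT1 : 1.201 ≤ t + κ) (hT2 : t + κ ≤ 1.218) :
    Xf β r h t 0 ≠ 0 ∧ r * 0.0971 ≤ (Ld β r h t 1 - Ld β r h t 0).im ∧
      ‖(((-1 : ℤ) : ℂ) - 1) * Ld β r h t 0 - ((-1 : ℤ) : ℂ) * Ld β r h t 1‖ ≤ r * 8.01 := by
  obtain ⟨q1, q2, q3⟩ := b3_h hh
  have hR0 := b3_R0 hβ hr hκ
  have hR := b3_R hβ hr hκ (by linarith)
  have hD1 : DomR κ t := b3_dom (by linarith) (by linarith) (Or.inl (by linarith))
  have hD0 : DomR κ (t - h) := b3_dom (by linarith) (by linarith) (Or.inl (by linarith))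
  have y1 := yA2 hD1 hk1 hk2 (by linarith) (by linarith)
  have y0 := yB2 hD0 hk1 hk2 (by linarith) (by linarith)
  have j1 := T3_08_d1_1 hD1 hβ hk1 hk2 (by linarith) (by linarith) hR0 hR
  exact b3_piece 0.46 0.48 0.278 0.293 0.285 0.75201 0.7573 0.74603 0.3636 1.6773 1.7143 0.03 0.035 0.035 1.209 0.3395 0 0 (-0.587) (-0.53) (-0.558) 1.74717 1.79859 0.8634 0.5093 0.04 0.275 0.18 8.3842 10.1435 0.4229 0.717 0.0971 8.01
    hβ hr hκ (by norm_num) hk1 hk2 hD1 hD0 j1 (j1 _ (by rw [sub_self, norm_zero]; norm_num))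
    (T3_08_d0_1 hD0 hβ hk1 hk2 (by linarith) (by linarith) hR0 hR)
    (T3_08_p0 hD0 hβ hk1 hk2 (by linarith) (by linarith) hR0 hR)
    y1.1 y1.2 y0.1 y0.2 (by norm_num)
    (ex_um 0.278 (by norm_num) (by norm_num) (by norm_num) (by norm_num)) (ex_um 0.293 (by norm_num) (by norm_num) (by norm_num) (by norm_num)) (ex_lm 0.285 (by norm_num) (by norm_num) (by norm_num) (by norm_num) (by norm_num)) (by norm_num) (by norm_num) (by norm_num) (by norm_num) (by norm_num) (by norm_num) (by norm_num) (by norm_num)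
    (by norm_num) (by norm_num) (by norm_num) (by norm_num) (by norm_num) (by norm_num) (by norm_num) (by norm_num) (by norm_num) (by norm_num)
    (ex_up 0.587 (by norm_num) (by norm_num) (by norm_num) (by norm_num)) (ex_lp 0.558 (by norm_num) (by norm_num) (by norm_num)) (by norm_num) (by norm_num) (by norm_num) (by norm_num) (by norm_num) (by norm_num)
    (by norm_num) (by norm_num) (by norm_num) (by norm_num) (by norm_num) (by norm_num) (by norm_num) (by norm_num) (by norm_num) (by norm_num) (by norm_num)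
    (by norm_num) (by norm_num) (by norm_num) (by norm_num)

private theorem yA3 {κ t : ℝ} (h : DomR κ t) (hk1 : 0.46 ≤ κ) (hk2 : κ ≤ 0.48) (ht1 : 1.218 ≤ t + κ) (ht2 : t + κ ≤ 1.236) :
    0.278 ≤ sy κ t ∧ sy κ t ≤ 0.296 := by
  have hy1 : 0.278 ≤ sy κ t := syR_ge h 0.46 0.48 1.218 0.278 1.32048 1.32049 0.76477 0.79804 hk1 hk2 (by linarith) (by norm_num) (by norm_num)
    (expn_ge (by norm_num) (by norm_num)) (expn_le (by norm_num) (by norm_num) (by norm_num)) (by norm_num)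
    (by norm_num) (by norm_num) (by norm_num) (by norm_num) (by norm_num) (by norm_num)
  have hy2 : sy κ t ≤ 0.296 := syR_ang2 h 0.46 0.48 1.236 0.977 0.5607 0.829 0.296 0.74379 1.34447 hk1 hk2 (by linarith) (by norm_num) (by norm_num) (by norm_num)
    (cos_le_num (by norm_num)) (sin_le_num (by norm_num) (by norm_num)) (expm_le (by norm_num) (by norm_num) (by norm_num))
    (expn_ge (by norm_num) (by norm_num)) (by norm_num) (by norm_num) (by norm_num) (by norm_num) (by norm_num)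
  exact ⟨hy1, hy2⟩

private theorem yB3 {κ t : ℝ} (h : DomR κ t) (hk1 : 0.46 ≤ κ) (hk2 : κ ≤ 0.48) (ht1 : -0.8764 ≤ t + κ) (ht2 : t + κ ≤ -0.85839) :
    (-0.568) ≤ sy κ t ∧ sy κ t ≤ (-0.513) := by
  have hy1 : -0.568 ≤ sy κ t := syL_ang2 h 0.46 0.48 0.8764 0.734 0.7424 0.6699 0.568 1.76472 0.56665 hk1 hk2 (by linarith) (by norm_num) (by norm_num) (by norm_num) (by norm_num)
    (cos_ge_num (by norm_num) (by norm_num)) (sin_le_num (by norm_num) (by norm_num))
    (expn_ge (by norm_num) (by norm_num)) (expm_ge (by norm_num) (by norm_num) (by norm_num) (by norm_num)) (by norm_num) (by norm_num) (by norm_num)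
    (by norm_num) (by norm_num) (by norm_num)
  have hy2 : sy κ t ≤ -0.513 := syL_le h 0.46 0.48 0.85839 0.513 0.59869 0.5987 0.63984 0.66769 hk1 hk2 (by linarith) (by norm_num) (by norm_num) (by norm_num)
    (expm_ge (by norm_num) (by norm_num) (by norm_num) (by norm_num)) (expm_le (by norm_num) (by norm_num) (by norm_num)) (by norm_num)
    (by norm_num) (by norm_num) (by norm_num) (by norm_num) (by norm_num) (by norm_num)
  exact ⟨hy1, hy2⟩

theorem pc3 {β r h t κ : ℝ} (hh : h = 2 * Real.pi / (3 : ℕ)) (hβ : 0 < β) (hr : 10 ≤ r) (hκ : κ = β * r)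
    (hk1 : 0.46 ≤ κ) (hk2 : κ ≤ 0.48) (hT1 : 1.218 ≤ t + κ) (hT2 : t + κ ≤ 1.236) :
    Xf β r h t 0 ≠ 0 ∧ r * 0.0971 ≤ (Ld β r h t 1 - Ld β r h t 0).im ∧
      ‖(((-1 : ℤ) : ℂ) - 1) * Ld β r h t 0 - ((-1 : ℤ) : ℂ) * Ld β r h t 1‖ ≤ r * 8.01 := by
  obtain ⟨q1, q2, q3⟩ := b3_h hh
  have hR0 := b3_R0 hβ hr hκ
  have hR := b3_R hβ hr hκ (by linarith)
  have hD1 : DomR κ t := b3_dom (by linarith) (by linarith) (Or.inl (by linarith))
  have hD0 : DomR κ (t - h) := b3_dom (by linarith) (by linarith) (Or.inl (by linarith))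
  have y1 := yA3 hD1 hk1 hk2 (by linarith) (by linarith)
  have y0 := yB3 hD0 hk1 hk2 (by linarith) (by linarith)
  have j1 := T3_08_d1_1 hD1 hβ hk1 hk2 (by linarith) (by linarith) hR0 hR
  exact b3_piece 0.46 0.48 0.278 0.296 0.287 0.75051 0.7573 0.74379 0.3636 1.6773 1.7195 0.03 0.035 0.035 1.209 0.3395 0 0 (-0.568) (-0.513) (-0.54) 1.716 1.76474 0.8471 0.5219 0.04 0.275 0.18 8.3842 9.8312 0.4332 0.7032 0.0971 8.01
    hβ hr hκ (by norm_num) hk1 hk2 hD1 hD0 j1 (j1 _ (by rw [sub_self, norm_zero]; norm_num))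
    (T3_08_d0_1 hD0 hβ hk1 hk2 (by linarith) (by linarith) hR0 hR)
    (T3_08_p0 hD0 hβ hk1 hk2 (by linarith) (by linarith) hR0 hR)
    y1.1 y1.2 y0.1 y0.2 (by norm_num)
    (ex_um 0.278 (by norm_num) (by norm_num) (by norm_num) (by norm_num)) (ex_um 0.296 (by norm_num) (by norm_num) (by norm_num) (by norm_num)) (ex_lm 0.287 (by norm_num) (by norm_num) (by norm_num) (by norm_num) (by norm_num)) (by norm_num) (by norm_num) (by norm_num) (by norm_num) (by norm_num) (by norm_num) (by norm_num) (by norm_num)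
    (by norm_num) (by norm_num) (by norm_num) (by norm_num) (by norm_num) (by norm_num) (by norm_num) (by norm_num) (by norm_num) (by norm_num)
    (ex_up 0.568 (by norm_num) (by norm_num) (by norm_num) (by norm_num)) (ex_lp 0.54 (by norm_num) (by norm_num) (by norm_num)) (by norm_num) (by norm_num) (by norm_num) (by norm_num) (by norm_num) (by norm_num)
    (by norm_num) (by norm_num) (by norm_num) (by norm_num) (by norm_num) (by norm_num) (by norm_num) (by norm_num) (by norm_num) (by norm_num) (by norm_num)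
    (by norm_num) (by norm_num) (by norm_num) (by norm_num)

private theorem yA4 {κ t : ℝ} (h : DomR κ t) (hk1 : 0.46 ≤ κ) (hk2 : κ ≤ 0.48) (ht1 : 1.236 ≤ t + κ) (ht2 : t + κ ≤ 1.254) :
    0.278 ≤ sy κ t ∧ sy κ t ≤ 0.298 := by
  have hy1 : 0.278 ≤ sy κ t := syR_ge h 0.46 0.48 1.236 0.278 1.32048 1.32049 0.76477 0.79804 hk1 hk2 (by linarith) (by norm_num) (by norm_num)
    (expn_ge (by norm_num) (by norm_num)) (expn_le (by norm_num) (by norm_num) (by norm_num)) (by norm_num)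
    (by norm_num) (by norm_num) (by norm_num) (by norm_num) (by norm_num) (by norm_num)
  have hy2 : sy κ t ≤ 0.298 := syR_ang2 h 0.46 0.48 1.254 0.99 0.55 0.8363 0.298 0.74231 1.34716 hk1 hk2 (by linarith) (by norm_num) (by norm_num) (by norm_num)
    (cos_le_num (by norm_num)) (sin_le_num (by norm_num) (by norm_num)) (expm_le (by norm_num) (by norm_num) (by norm_num))
    (expn_ge (by norm_num) (by norm_num)) (by norm_num) (by norm_num) (by norm_num) (by norm_num) (by norm_num)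
  exact ⟨hy1, hy2⟩

private theorem yB4 {κ t : ℝ} (h : DomR κ t) (hk1 : 0.46 ≤ κ) (hk2 : κ ≤ 0.48) (ht1 : -0.8584 ≤ t + κ) (ht2 : t + κ ≤ -0.84039) :
    (-0.549) ≤ sy κ t ∧ sy κ t ≤ (-0.496) := by
  have hy1 : -0.549 ≤ sy κ t := syL_ang2 h 0.46 0.48 0.8584 0.721 0.7511 0.6602 0.549 1.73151 0.57752 hk1 hk2 (by linarith) (by norm_num) (by norm_num) (by norm_num) (by norm_num)
    (cos_ge_num (by norm_num) (by norm_num)) (sin_le_num (by norm_num) (by norm_num))
    (expn_ge (by norm_num) (by norm_num)) (expm_ge (by norm_num) (by norm_num) (by norm_num) (by norm_num)) (by norm_num) (by norm_num) (by norm_num)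
    (by norm_num) (by norm_num) (by norm_num)
  have hy2 : sy κ t ≤ -0.496 := syL_le h 0.46 0.48 0.84039 0.496 0.60896 0.60897 0.62925 0.65663 hk1 hk2 (by linarith) (by norm_num) (by norm_num) (by norm_num)
    (expm_ge (by norm_num) (by norm_num) (by norm_num) (by norm_num)) (expm_le (by norm_num) (by norm_num) (by norm_num)) (by norm_num)
    (by norm_num) (by norm_num) (by norm_num) (by norm_num) (by norm_num) (by norm_num)
  exact ⟨hy1, hy2⟩

theorem pc4 {β r h t κ : ℝ} (hh : h = 2 * Real.pi / (3 : ℕ)) (hβ : 0 < β) (hr : 10 ≤ r) (hκ : κ = β * r)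
    (hk1 : 0.46 ≤ κ) (hk2 : κ ≤ 0.48) (hT1 : 1.236 ≤ t + κ) (hT2 : t + κ ≤ 1.254) :
    Xf β r h t 0 ≠ 0 ∧ r * 0.0971 ≤ (Ld β r h t 1 - Ld β r h t 0).im ∧
      ‖(((-1 : ℤ) : ℂ) - 1) * Ld β r h t 0 - ((-1 : ℤ) : ℂ) * Ld β r h t 1‖ ≤ r * 8.01 := by
  obtain ⟨q1, q2, q3⟩ := b3_h hh
  have hR0 := b3_R0 hβ hr hκ
  have hR := b3_R hβ hr hκ (by linarith)
  have hD1 : DomR κ t := b3_dom (by linarith) (by linarith) (Or.inl (by linarith))
  have hD0 : DomR κ (t - h) := b3_dom (by linarith) (by linarith) (Or.inl (by linarith))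
  have y1 := yA4 hD1 hk1 hk2 (by linarith) (by linarith)
  have y0 := yB4 hD0 hk1 hk2 (by linarith) (by linarith)
  have j1 := T3_08_d1_1 hD1 hβ hk1 hk2 (by linarith) (by linarith) hR0 hR
  exact b3_piece 0.46 0.48 0.278 0.298 0.288 0.74976 0.7573 0.74231 0.3636 1.6773 1.723 0.03 0.035 0.035 1.209 0.3395 0 0 (-0.549) (-0.496) (-0.522) 1.68539 1.73153 0.8312 0.5355 0.04 0.275 0.18 8.3842 9.5233 0.4412 0.6849 0.0971 8.01
    hβ hr hκ (by norm_num) hk1 hk2 hD1 hD0 j1 (j1 _ (by rw [sub_self, norm_zero]; norm_num))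
    (T3_08_d0_1 hD0 hβ hk1 hk2 (by linarith) (by linarith) hR0 hR)
    (T3_08_p0 hD0 hβ hk1 hk2 (by linarith) (by linarith) hR0 hR)
    y1.1 y1.2 y0.1 y0.2 (by norm_num)
    (ex_um 0.278 (by norm_num) (by norm_num) (by norm_num) (by norm_num)) (ex_um 0.298 (by norm_num) (by norm_num) (by norm_num) (by norm_num)) (ex_lm 0.288 (by norm_num) (by norm_num) (by norm_num) (by norm_num) (by norm_num)) (by norm_num) (by norm_num) (by norm_num) (by norm_num) (by norm_num) (by norm_num) (by norm_num) (by norm_num)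
    (by norm_num) (by norm_num) (by norm_num) (by norm_num) (by norm_num) (by norm_num) (by norm_num) (by norm_num) (by norm_num) (by norm_num)
    (ex_up 0.549 (by norm_num) (by norm_num) (by norm_num) (by norm_num)) (ex_lp 0.522 (by norm_num) (by norm_num) (by norm_num)) (by norm_num) (by norm_num) (by norm_num) (by norm_num) (by norm_num) (by norm_num)
    (by norm_num) (by norm_num) (by norm_num) (by norm_num) (by norm_num) (by norm_num) (by norm_num) (by norm_num) (by norm_num) (by norm_num) (by norm_num)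
    (by norm_num) (by norm_num) (by norm_num) (by norm_num)

private theorem yA5 {κ t : ℝ} (h : DomR κ t) (hk1 : 0.46 ≤ κ) (hk2 : κ ≤ 0.48) (ht1 : 1.254 ≤ t + κ) (ht2 : t + κ ≤ 1.271) :
    0.278 ≤ sy κ t ∧ sy κ t ≤ 0.3 := by
  have hy1 : 0.278 ≤ sy κ t := syR_ge h 0.46 0.48 1.254 0.278 1.32048 1.32049 0.76477 0.79804 hk1 hk2 (by linarith) (by norm_num) (by norm_num)
    (expn_ge (by norm_num) (by norm_num)) (expn_le (by norm_num) (by norm_num) (by norm_num)) (by norm_num)
    (by norm_num) (by norm_num) (by norm_num) (by norm_num) (by norm_num) (by norm_num)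
  have hy2 : sy κ t ≤ 0.3 := syR_ang2 h 0.46 0.48 1.271 1.003 0.5392 0.8433 0.3 0.74082 1.34985 hk1 hk2 (by linarith) (by norm_num) (by norm_num) (by norm_num)
    (cos_le_num (by norm_num)) (sin_le_num (by norm_num) (by norm_num)) (expm_le (by norm_num) (by norm_num) (by norm_num))
    (expn_ge (by norm_num) (by norm_num)) (by norm_num) (by norm_num) (by norm_num) (by norm_num) (by norm_num)
  exact ⟨hy1, hy2⟩

private theorem yB5 {κ t : ℝ} (h : DomR κ t) (hk1 : 0.46 ≤ κ) (hk2 : κ ≤ 0.48) (ht1 : -0.8404 ≤ t + κ) (ht2 : t + κ ≤ -0.82339) :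
    (-0.53) ≤ sy κ t ∧ sy κ t ≤ (-0.481) := by
  have hy1 : -0.53 ≤ sy κ t := syL_ang2 h 0.46 0.48 0.8404 0.707 0.7603 0.6496 0.53 1.69892 0.5886 hk1 hk2 (by linarith) (by norm_num) (by norm_num) (by norm_num) (by norm_num)
    (cos_ge_num (by norm_num) (by norm_num)) (sin_le_num (by norm_num) (by norm_num))
    (expn_ge (by norm_num) (by norm_num)) (expm_ge (by norm_num) (by norm_num) (by norm_num) (by norm_num)) (by norm_num) (by norm_num) (by norm_num)
    (by norm_num) (by norm_num) (by norm_num)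
  have hy2 : sy κ t ≤ -0.481 := syL_le h 0.46 0.48 0.82339 0.481 0.61816 0.61817 0.61944 0.6464 hk1 hk2 (by linarith) (by norm_num) (by norm_num) (by norm_num)
    (expm_ge (by norm_num) (by norm_num) (by norm_num) (by norm_num)) (expm_le (by norm_num) (by norm_num) (by norm_num)) (by norm_num)
    (by norm_num) (by norm_num) (by norm_num) (by norm_num) (by norm_num) (by norm_num)
  exact ⟨hy1, hy2⟩

theorem pc5 {β r h t κ : ℝ} (hh : h = 2 * Real.pi / (3 : ℕ)) (hβ : 0 < β) (hr : 10 ≤ r) (hκ : κ = β * r)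
    (hk1 : 0.46 ≤ κ) (hk2 : κ ≤ 0.48) (hT1 : 1.254 ≤ t + κ) (hT2 : t + κ ≤ 1.271) :
    Xf β r h t 0 ≠ 0 ∧ r * 0.0971 ≤ (Ld β r h t 1 - Ld β r h t 0).im ∧
      ‖(((-1 : ℤ) : ℂ) - 1) * Ld β r h t 0 - ((-1 : ℤ) : ℂ) * Ld β r h t 1‖ ≤ r * 8.01 := by
  obtain ⟨q1, q2, q3⟩ := b3_h hh
  have hR0 := b3_R0 hβ hr hκ
  have hR := b3_R hβ hr hκ (by linarith)
  have hD1 : DomR κ t := b3_dom (by linarith) (by linarith) (Or.inl (by linarith))
  have hD0 : DomR κ (t - h) := b3_dom (by linarith) (by linarith) (Or.inl (by linarith))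
  have y1 := yA5 hD1 hk1 hk2 (by linarith) (by linarith)
  have y0 := yB5 hD0 hk1 hk2 (by linarith) (by linarith)
  have j1 := T3_08_d1_1 hD1 hβ hk1 hk2 (by linarith) (by linarith) hR0 hR
  exact b3_piece 0.46 0.48 0.278 0.3 0.289 0.74901 0.7573 0.74082 0.3636 1.6773 1.7265 0.03 0.035 0.035 1.209 0.3395 0 0 (-0.53) (-0.481) (-0.505) 1.65698 1.69894 0.8155 0.55 0.04 0.275 0.18 8.3842 9.2195 0.4437 0.6579 0.0971 8.01
    hβ hr hκ (by norm_num) hk1 hk2 hD1 hD0 j1 (j1 _ (by rw [sub_self, norm_zero]; norm_num))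
    (T3_08_d0_1 hD0 hβ hk1 hk2 (by linarith) (by linarith) hR0 hR)
    (T3_08_p0 hD0 hβ hk1 hk2 (by linarith) (by linarith) hR0 hR)
    y1.1 y1.2 y0.1 y0.2 (by norm_num)
    (ex_um 0.278 (by norm_num) (by norm_num) (by norm_num) (by norm_num)) (ex_um 0.3 (by norm_num) (by norm_num) (by norm_num) (by norm_num)) (ex_lm 0.289 (by norm_num) (by norm_num) (by norm_num) (by norm_num) (by norm_num)) (by norm_num) (by norm_num) (by norm_num) (by norm_num) (by norm_num) (by norm_num) (by norm_num) (by norm_num)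
    (by norm_num) (by norm_num) (by norm_num) (by norm_num) (by norm_num) (by norm_num) (by norm_num) (by norm_num) (by norm_num) (by norm_num)
    (ex_up 0.53 (by norm_num) (by norm_num) (by norm_num) (by norm_num)) (ex_lp 0.505 (by norm_num) (by norm_num) (by norm_num)) (by norm_num) (by norm_num) (by norm_num) (by norm_num) (by norm_num) (by norm_num)
    (by norm_num) (by norm_num) (by norm_num) (by norm_num) (by norm_num) (by norm_num) (by norm_num) (by norm_num) (by norm_num) (by norm_num) (by norm_num)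
    (by norm_num) (by norm_num) (by norm_num) (by norm_num)

private theorem yA6 {κ t : ℝ} (h : DomR κ t) (hk1 : 0.46 ≤ κ) (hk2 : κ ≤ 0.48) (ht1 : 1.271 ≤ t + κ) (ht2 : t + κ ≤ 1.29) :
    0.278 ≤ sy κ t ∧ sy κ t ≤ 0.302 := by
  have hy1 : 0.278 ≤ sy κ t := syR_ge h 0.46 0.48 1.271 0.278 1.32048 1.32049 0.76477 0.79804 hk1 hk2 (by linarith) (by norm_num) (by norm_num)
    (expn_ge (by norm_num) (by norm_num)) (expn_le (by norm_num) (by norm_num) (by norm_num)) (by norm_num)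
    (by norm_num) (by norm_num) (by norm_num) (by norm_num) (by norm_num) (by norm_num)
  have hy2 : sy κ t ≤ 0.302 := syR_ang2 h 0.46 0.48 1.29 1.017 0.5275 0.8508 0.302 0.73934 1.35256 hk1 hk2 (by linarith) (by norm_num) (by norm_num) (by norm_num)
    (cos_le_num (by norm_num)) (sin_le_num (by norm_num) (by norm_num)) (expm_le (by norm_num) (by norm_num) (by norm_num))
    (expn_ge (by norm_num) (by norm_num)) (by norm_num) (by norm_num) (by norm_num) (by norm_num) (by norm_num)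
  exact ⟨hy1, hy2⟩

private theorem yB6 {κ t : ℝ} (h : DomR κ t) (hk1 : 0.46 ≤ κ) (hk2 : κ ≤ 0.48) (ht1 : -0.8234 ≤ t + κ) (ht2 : t + κ ≤ -0.80439) :
    (-0.512) ≤ sy κ t ∧ sy κ t ≤ (-0.464) := by
  have hy1 : -0.512 ≤ sy κ t := syL_ang2 h 0.46 0.48 0.8234 0.693 0.7693 0.6389 0.512 1.66862 0.59929 hk1 hk2 (by linarith) (by norm_num) (by norm_num) (by norm_num) (by norm_num)
    (cos_ge_num (by norm_num) (by norm_num)) (sin_le_num (by norm_num) (by norm_num))
    (expn_ge (by norm_num) (by norm_num)) (expm_ge (by norm_num) (by norm_num) (by norm_num) (by norm_num)) (by norm_num) (by norm_num) (by norm_num)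
    (by norm_num) (by norm_num) (by norm_num)
  have hy2 : sy κ t ≤ -0.464 := syL_le h 0.46 0.48 0.80439 0.464 0.62876 0.62877 0.6078 0.63424 hk1 hk2 (by linarith) (by norm_num) (by norm_num) (by norm_num)
    (expm_ge (by norm_num) (by norm_num) (by norm_num) (by norm_num)) (expm_le (by norm_num) (by norm_num) (by norm_num)) (by norm_num)
    (by norm_num) (by norm_num) (by norm_num) (by norm_num) (by norm_num) (by norm_num)
  exact ⟨hy1, hy2⟩

theorem pc6 {β r h t κ : ℝ} (hh : h = 2 * Real.pi / (3 : ℕ)) (hβ : 0 < β) (hr : 10 ≤ r) (hκ : κ = β * r)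
    (hk1 : 0.46 ≤ κ) (hk2 : κ ≤ 0.48) (hT1 : 1.271 ≤ t + κ) (hT2 : t + κ ≤ 1.29) :
    Xf β r h t 0 ≠ 0 ∧ r * 0.0971 ≤ (Ld β r h t 1 - Ld β r h t 0).im ∧
      ‖(((-1 : ℤ) : ℂ) - 1) * Ld β r h t 0 - ((-1 : ℤ) : ℂ) * Ld β r h t 1‖ ≤ r * 8.01 := by
  obtain ⟨q1, q2, q3⟩ := b3_h hh
  have hR0 := b3_R0 hβ hr hκ
  have hR := b3_R hβ hr hκ (by linarith)
  have hD1 : DomR κ t := b3_dom (by linarith) (by linarith) (Or.inl (by linarith))
  have hD0 : DomR κ (t - h) := b3_dom (by linarith) (by linarith) (Or.inl (by linarith))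
  have y1 := yA6 hD1 hk1 hk2 (by linarith) (by linarith)
  have y0 := yB6 hD0 hk1 hk2 (by linarith) (by linarith)
  have j1 := T3_08_d1_2 hD1 hβ hk1 hk2 (by linarith) (by linarith) hR0 hR
  exact b3_piece 0.46 0.48 0.278 0.302 0.29 0.74826 0.7573 0.73934 0.3636 1.6773 1.73 0.06 0.13 0.13 2.4905 0.6993 0 0 (-0.512) (-0.464) (-0.488) 1.62905 1.66863 0.801 0.5644 0.06 0.22 0.18 4.4716 4.7677 0.4497 0.6383 0.0971 8.01
    hβ hr hκ (by norm_num) hk1 hk2 hD1 hD0 j1 (j1 _ (by rw [sub_self, norm_zero]; norm_num))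
    (T3_08_d0_2 hD0 hβ hk1 hk2 (by linarith) (by linarith) hR0 hR)
    (T3_08_p0 hD0 hβ hk1 hk2 (by linarith) (by linarith) hR0 hR)
    y1.1 y1.2 y0.1 y0.2 (by norm_num)
    (ex_um 0.278 (by norm_num) (by norm_num) (by norm_num) (by norm_num)) (ex_um 0.302 (by norm_num) (by norm_num) (by norm_num) (by norm_num)) (ex_lm 0.29 (by norm_num) (by norm_num) (by norm_num) (by norm_num) (by norm_num)) (by norm_num) (by norm_num) (by norm_num) (by norm_num) (by norm_num) (by norm_num) (by norm_num) (by norm_num)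
    (by norm_num) (by norm_num) (by norm_num) (by norm_num) (by norm_num) (by norm_num) (by norm_num) (by norm_num) (by norm_num) (by norm_num)
    (ex_up 0.512 (by norm_num) (by norm_num) (by norm_num) (by norm_num)) (ex_lp 0.488 (by norm_num) (by norm_num) (by norm_num)) (by norm_num) (by norm_num) (by norm_num) (by norm_num) (by norm_num) (by norm_num)
    (by norm_num) (by norm_num) (by norm_num) (by norm_num) (by norm_num) (by norm_num) (by norm_num) (by norm_num) (by norm_num) (by norm_num) (by norm_num)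
    (by norm_num) (by norm_num) (by norm_num) (by norm_num)

private theorem yA7 {κ t : ℝ} (h : DomR κ t) (hk1 : 0.46 ≤ κ) (hk2 : κ ≤ 0.48) (ht1 : 1.29 ≤ t + κ) (ht2 : t + κ ≤ 1.308) :
    0.278 ≤ sy κ t ∧ sy κ t ≤ 0.304 := by
  have hy1 : 0.278 ≤ sy κ t := syR_ge h 0.46 0.48 1.29 0.278 1.32048 1.32049 0.76477 0.79804 hk1 hk2 (by linarith) (by norm_num) (by norm_num)
    (expn_ge (by norm_num) (by norm_num)) (expn_le (by norm_num) (by norm_num) (by norm_num)) (by norm_num)
    (by norm_num) (by norm_num) (by norm_num) (by norm_num) (by norm_num) (by norm_num)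
  have hy2 : sy κ t ≤ 0.304 := syR_ang2 h 0.46 0.48 1.308 1.031 0.5156 0.8581 0.304 0.73787 1.35526 hk1 hk2 (by linarith) (by norm_num) (by norm_num) (by norm_num)
    (cos_le_num (by norm_num)) (sin_le_num (by norm_num) (by norm_num)) (expm_le (by norm_num) (by norm_num) (by norm_num))
    (expn_ge (by norm_num) (by norm_num)) (by norm_num) (by norm_num) (by norm_num) (by norm_num) (by norm_num)
  exact ⟨hy1, hy2⟩

private theorem yB7 {κ t : ℝ} (h : DomR κ t) (hk1 : 0.46 ≤ κ) (hk2 : κ ≤ 0.48) (ht1 : -0.8044 ≤ t + κ) (ht2 : t + κ ≤ -0.78639) :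
    (-0.493) ≤ sy κ t ∧ sy κ t ≤ (-0.448) := by
  have hy1 : -0.493 ≤ sy κ t := syL_ang2 h 0.46 0.48 0.8044 0.678 0.7788 0.6273 0.493 1.63721 0.61079 hk1 hk2 (by linarith) (by norm_num) (by norm_num) (by norm_num) (by norm_num)
    (cos_ge_num (by norm_num) (by norm_num)) (sin_le_num (by norm_num) (by norm_num))
    (expn_ge (by norm_num) (by norm_num)) (expm_ge (by norm_num) (by norm_num) (by norm_num) (by norm_num)) (by norm_num) (by norm_num) (by norm_num)
    (by norm_num) (by norm_num) (by norm_num)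
  have hy2 : sy κ t ≤ -0.448 := syL_le h 0.46 0.48 0.78639 0.448 0.6389 0.63891 0.5963 0.62225 hk1 hk2 (by linarith) (by norm_num) (by norm_num) (by norm_num)
    (expm_ge (by norm_num) (by norm_num) (by norm_num) (by norm_num)) (expm_le (by norm_num) (by norm_num) (by norm_num)) (by norm_num)
    (by norm_num) (by norm_num) (by norm_num) (by norm_num) (by norm_num) (by norm_num)
  exact ⟨hy1, hy2⟩

theorem pc7 {β r h t κ : ℝ} (hh : h = 2 * Real.pi / (3 : ℕ)) (hβ : 0 < β) (hr : 10 ≤ r) (hκ : κ = β * r)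
    (hk1 : 0.46 ≤ κ) (hk2 : κ ≤ 0.48) (hT1 : 1.29 ≤ t + κ) (hT2 : t + κ ≤ 1.308) :
    Xf β r h t 0 ≠ 0 ∧ r * 0.0971 ≤ (Ld β r h t 1 - Ld β r h t 0).im ∧
      ‖(((-1 : ℤ) : ℂ) - 1) * Ld β r h t 0 - ((-1 : ℤ) : ℂ) * Ld β r h t 1‖ ≤ r * 8.01 := by
  obtain ⟨q1, q2, q3⟩ := b3_h hh
  have hR0 := b3_R0 hβ hr hκ
  have hR := b3_R hβ hr hκ (by linarith)
  have hD1 : DomR κ t := b3_dom (by linarith) (by linarith) (Or.inl (by linarith))
  have hD0 : DomR κ (t - h) := b3_dom (by linarith) (by linarith) (Or.inl (by linarith))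
  have y1 := yA7 hD1 hk1 hk2 (by linarith) (by linarith)
  have y0 := yB7 hD0 hk1 hk2 (by linarith) (by linarith)
  have j1 := T3_08_d1_2 hD1 hβ hk1 hk2 (by linarith) (by linarith) hR0 hR
  exact b3_piece 0.46 0.48 0.278 0.304 0.291 0.74751 0.7573 0.73787 0.3636 1.6773 1.7335 0.06 0.13 0.13 2.4905 0.6993 0 0 (-0.493) (-0.448) (-0.47) 1.59999 1.63723 0.7859 0.5806 0.06 0.22 0.18 4.4716 4.6121 0.4508 0.6103 0.0971 8.01
    hβ hr hκ (by norm_num) hk1 hk2 hD1 hD0 j1 (j1 _ (by rw [sub_self, norm_zero]; norm_num))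
    (T3_08_d0_2 hD0 hβ hk1 hk2 (by linarith) (by linarith) hR0 hR)
    (T3_08_p0 hD0 hβ hk1 hk2 (by linarith) (by linarith) hR0 hR)
    y1.1 y1.2 y0.1 y0.2 (by norm_num)
    (ex_um 0.278 (by norm_num) (by norm_num) (by norm_num) (by norm_num)) (ex_um 0.304 (by norm_num) (by norm_num) (by norm_num) (by norm_num)) (ex_lm 0.291 (by norm_num) (by norm_num) (by norm_num) (by norm_num) (by norm_num)) (by norm_num) (by norm_num) (by norm_num) (by norm_num) (by norm_num) (by norm_num) (by norm_num) (by norm_num)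
    (by norm_num) (by norm_num) (by norm_num) (by norm_num) (by norm_num) (by norm_num) (by norm_num) (by norm_num) (by norm_num) (by norm_num)
    (ex_up 0.493 (by norm_num) (by norm_num) (by norm_num) (by norm_num)) (ex_lp 0.47 (by norm_num) (by norm_num) (by norm_num)) (by norm_num) (by norm_num) (by norm_num) (by norm_num) (by norm_num) (by norm_num)
    (by norm_num) (by norm_num) (by norm_num) (by norm_num) (by norm_num) (by norm_num) (by norm_num) (by norm_num) (by norm_num) (by norm_num) (by norm_num)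
    (by norm_num) (by norm_num) (by norm_num) (by norm_num)

private theorem yA8 {κ t : ℝ} (h : DomR κ t) (hk1 : 0.46 ≤ κ) (hk2 : κ ≤ 0.48) (ht1 : 1.308 ≤ t + κ) (ht2 : t + κ ≤ 1.327) :
    0.278 ≤ sy κ t ∧ sy κ t ≤ 0.306 := by
  have hy1 : 0.278 ≤ sy κ t := syR_ge h 0.46 0.48 1.308 0.278 1.32048 1.32049 0.76477 0.79804 hk1 hk2 (by linarith) (by norm_num) (by norm_num)
    (expn_ge (by norm_num) (by norm_num)) (expn_le (by norm_num) (by norm_num) (by norm_num)) (by norm_num)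
    (by norm_num) (by norm_num) (by norm_num) (by norm_num) (by norm_num) (by norm_num)
  have hy2 : sy κ t ≤ 0.306 := syR_ang2 h 0.46 0.48 1.327 1.046 0.5029 0.8657 0.306 0.73639 1.35798 hk1 hk2 (by linarith) (by norm_num) (by norm_num) (by norm_num)
    (cos_le_num (by norm_num)) (sin_le_num (by norm_num) (by norm_num)) (expm_le (by norm_num) (by norm_num) (by norm_num))
    (expn_ge (by norm_num) (by norm_num)) (by norm_num) (by norm_num) (by norm_num) (by norm_num) (by norm_num)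
  exact ⟨hy1, hy2⟩

private theorem yB8 {κ t : ℝ} (h : DomR κ t) (hk1 : 0.46 ≤ κ) (hk2 : κ ≤ 0.48) (ht1 : -0.7864 ≤ t + κ) (ht2 : t + κ ≤ -0.76739) :
    (-0.476) ≤ sy κ t ∧ sy κ t ≤ (-0.432) := by
  have hy1 : -0.476 ≤ sy κ t := syL_ang2 h 0.46 0.48 0.7864 0.663 0.7881 0.6155 0.476 1.60962 0.62126 hk1 hk2 (by linarith) (by norm_num) (by norm_num) (by norm_num) (by norm_num)
    (cos_ge_num (by norm_num) (by norm_num)) (sin_le_num (by norm_num) (by norm_num))
    (expn_ge (by norm_num) (by norm_num)) (expm_ge (by norm_num) (by norm_num) (by norm_num) (by norm_num)) (by norm_num) (by norm_num) (by norm_num)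
    (by norm_num) (by norm_num) (by norm_num)
  have hy2 : sy κ t ≤ -0.432 := syL_le h 0.46 0.48 0.76739 0.432 0.6492 0.64921 0.58427 0.6097 hk1 hk2 (by linarith) (by norm_num) (by norm_num) (by norm_num)
    (expm_ge (by norm_num) (by norm_num) (by norm_num) (by norm_num)) (expm_le (by norm_num) (by norm_num) (by norm_num)) (by norm_num)
    (by norm_num) (by norm_num) (by norm_num) (by norm_num) (by norm_num) (by norm_num)
  exact ⟨hy1, hy2⟩

theorem pc8 {β r h t κ : ℝ} (hh : h = 2 * Real.pi / (3 : ℕ)) (hβ : 0 < β) (hr : 10 ≤ r) (hκ : κ = β * r)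
    (hk1 : 0.46 ≤ κ) (hk2 : κ ≤ 0.48) (hT1 : 1.308 ≤ t + κ) (hT2 : t + κ ≤ 1.327) :
    Xf β r h t 0 ≠ 0 ∧ r * 0.0971 ≤ (Ld β r h t 1 - Ld β r h t 0).im ∧
      ‖(((-1 : ℤ) : ℂ) - 1) * Ld β r h t 0 - ((-1 : ℤ) : ℂ) * Ld β r h t 1‖ ≤ r * 8.01 := by
  obtain ⟨q1, q2, q3⟩ := b3_h hh
  have hR0 := b3_R0 hβ hr hκ
  have hR := b3_R hβ hr hκ (by linarith)
  have hD1 : DomR κ t := b3_dom (by linarith) (by linarith) (Or.inl (by linarith))
  have hD0 : DomR κ (t - h) := b3_dom (by linarith) (by linarith) (Or.inl (by linarith))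
  have y1 := yA8 hD1 hk1 hk2 (by linarith) (by linarith)
  have y0 := yB8 hD0 hk1 hk2 (by linarith) (by linarith)
  have j1 := T3_08_d1_2 hD1 hβ hk1 hk2 (by linarith) (by linarith) hR0 hR
  exact b3_piece 0.46 0.48 0.278 0.306 0.292 0.74676 0.7573 0.73639 0.3636 1.6773 1.737 0.06 0.13 0.13 2.4905 0.6993 0 0 (-0.476) (-0.432) (-0.454) 1.57459 1.60963 0.7727 0.5957 0.06 0.22 0.18 4.4716 4.4768 0.4536 0.5884 0.0971 8.01
    hβ hr hκ (by norm_num) hk1 hk2 hD1 hD0 j1 (j1 _ (by rw [sub_self, norm_zero]; norm_num))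
    (T3_08_d0_2 hD0 hβ hk1 hk2 (by linarith) (by linarith) hR0 hR)
    (T3_08_p0 hD0 hβ hk1 hk2 (by linarith) (by linarith) hR0 hR)
    y1.1 y1.2 y0.1 y0.2 (by norm_num)
    (ex_um 0.278 (by norm_num) (by norm_num) (by norm_num) (by norm_num)) (ex_um 0.306 (by norm_num) (by norm_num) (by norm_num) (by norm_num)) (ex_lm 0.292 (by norm_num) (by norm_num) (by norm_num) (by norm_num) (by norm_num)) (by norm_num) (by norm_num) (by norm_num) (by norm_num) (by norm_num) (by norm_num) (by norm_num) (by norm_num)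
    (by norm_num) (by norm_num) (by norm_num) (by norm_num) (by norm_num) (by norm_num) (by norm_num) (by norm_num) (by norm_num) (by norm_num)
    (ex_up 0.476 (by norm_num) (by norm_num) (by norm_num) (by norm_num)) (ex_lp 0.454 (by norm_num) (by norm_num) (by norm_num)) (by norm_num) (by norm_num) (by norm_num) (by norm_num) (by norm_num) (by norm_num)
    (by norm_num) (by norm_num) (by norm_num) (by norm_num) (by norm_num) (by norm_num) (by norm_num) (by norm_num) (by norm_num) (by norm_num) (by norm_num)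
    (by norm_num) (by norm_num) (by norm_num) (by norm_num)

private theorem yA9 {κ t : ℝ} (h : DomR κ t) (hk1 : 0.46 ≤ κ) (hk2 : κ ≤ 0.48) (ht1 : 1.327 ≤ t + κ) (ht2 : t + κ ≤ 1.345) :
    0.278 ≤ sy κ t ∧ sy κ t ≤ 0.308 := by
  have hy1 : 0.278 ≤ sy κ t := syR_ge h 0.46 0.48 1.327 0.278 1.32048 1.32049 0.76477 0.79804 hk1 hk2 (by linarith) (by norm_num) (by norm_num)
    (expn_ge (by norm_num) (by norm_num)) (expn_le (by norm_num) (by norm_num) (by norm_num)) (by norm_num)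
    (by norm_num) (by norm_num) (by norm_num) (by norm_num) (by norm_num) (by norm_num)
  have hy2 : sy κ t ≤ 0.308 := syR_ang2 h 0.46 0.48 1.345 1.06 0.4909 0.8727 0.308 0.73492 1.3607 hk1 hk2 (by linarith) (by norm_num) (by norm_num) (by norm_num)
    (cos_le_num (by norm_num)) (sin_le_num (by norm_num) (by norm_num)) (expm_le (by norm_num) (by norm_num) (by norm_num))
    (expn_ge (by norm_num) (by norm_num)) (by norm_num) (by norm_num) (by norm_num) (by norm_num) (by norm_num)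
  exact ⟨hy1, hy2⟩

private theorem yB9 {κ t : ℝ} (h : DomR κ t) (hk1 : 0.46 ≤ κ) (hk2 : κ ≤ 0.48) (ht1 : -0.7674 ≤ t + κ) (ht2 : t + κ ≤ -0.74939) :
    (-0.459) ≤ sy κ t ∧ sy κ t ≤ (-0.417) := by
  have hy1 : -0.459 ≤ sy κ t := syL_ang2 h 0.46 0.48 0.7674 0.648 0.7972 0.6037 0.459 1.58248 0.63191 hk1 hk2 (by linarith) (by norm_num) (by norm_num) (by norm_num) (by norm_num)
    (cos_ge_num (by norm_num) (by norm_num)) (sin_le_num (by norm_num) (by norm_num))
    (expn_ge (by norm_num) (by norm_num)) (expm_ge (by norm_num) (by norm_num) (by norm_num) (by norm_num)) (by norm_num) (by norm_num) (by norm_num)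
    (by norm_num) (by norm_num) (by norm_num)
  have hy2 : sy κ t ≤ -0.417 := syL_le h 0.46 0.48 0.74939 0.417 0.65902 0.65903 0.57252 0.59743 hk1 hk2 (by linarith) (by norm_num) (by norm_num) (by norm_num)
    (expm_ge (by norm_num) (by norm_num) (by norm_num) (by norm_num)) (expm_le (by norm_num) (by norm_num) (by norm_num)) (by norm_num)
    (by norm_num) (by norm_num) (by norm_num) (by norm_num) (by norm_num) (by norm_num)
  exact ⟨hy1, hy2⟩

theorem pc9 {β r h t κ : ℝ} (hh : h = 2 * Real.pi / (3 : ℕ)) (hβ : 0 < β) (hr : 10 ≤ r) (hκ : κ = β * r)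
    (hk1 : 0.46 ≤ κ) (hk2 : κ ≤ 0.48) (hT1 : 1.327 ≤ t + κ) (hT2 : t + κ ≤ 1.345) :
    Xf β r h t 0 ≠ 0 ∧ r * 0.0971 ≤ (Ld β r h t 1 - Ld β r h t 0).im ∧
      ‖(((-1 : ℤ) : ℂ) - 1) * Ld β r h t 0 - ((-1 : ℤ) : ℂ) * Ld β r h t 1‖ ≤ r * 8.01 := by
  obtain ⟨q1, q2, q3⟩ := b3_h hh
  have hR0 := b3_R0 hβ hr hκ
  have hR := b3_R hβ hr hκ (by linarith)
  have hD1 : DomR κ t := b3_dom (by linarith) (by linarith) (Or.inl (by linarith))
  have hD0 : DomR κ (t - h) := b3_dom (by linarith) (by linarith) (Or.inl (by linarith))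
  have y1 := yA9 hD1 hk1 hk2 (by linarith) (by linarith)
  have y0 := yB9 hD0 hk1 hk2 (by linarith) (by linarith)
  have j1 := T3_08_d1_2 hD1 hβ hk1 hk2 (by linarith) (by linarith) hR0 hR
  exact b3_piece 0.46 0.48 0.278 0.308 0.293 0.74602 0.7573 0.73492 0.3636 1.6772 1.7405 0.06 0.13 0.13 2.4905 0.6993 0 0 (-0.459) (-0.417) (-0.438) 1.5496 1.5825 0.7596 0.6114 0.06 0.22 0.18 4.4716 4.344 0.4536 0.5636 0.0971 8.01
    hβ hr hκ (by norm_num) hk1 hk2 hD1 hD0 j1 (j1 _ (by rw [sub_self, norm_zero]; norm_num))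
    (T3_08_d0_2 hD0 hβ hk1 hk2 (by linarith) (by linarith) hR0 hR)
    (T3_08_p0 hD0 hβ hk1 hk2 (by linarith) (by linarith) hR0 hR)
    y1.1 y1.2 y0.1 y0.2 (by norm_num)
    (ex_um 0.278 (by norm_num) (by norm_num) (by norm_num) (by norm_num)) (ex_um 0.308 (by norm_num) (by norm_num) (by norm_num) (by norm_num)) (ex_lm 0.293 (by norm_num) (by norm_num) (by norm_num) (by norm_num) (by norm_num)) (by norm_num) (by norm_num) (by norm_num) (by norm_num) (by norm_num) (by norm_num) (by norm_num) (by norm_num)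
    (by norm_num) (by norm_num) (by norm_num) (by norm_num) (by norm_num) (by norm_num) (by norm_num) (by norm_num) (by norm_num) (by norm_num)
    (ex_up 0.459 (by norm_num) (by norm_num) (by norm_num) (by norm_num)) (ex_lp 0.438 (by norm_num) (by norm_num) (by norm_num)) (by norm_num) (by norm_num) (by norm_num) (by norm_num) (by norm_num) (by norm_num)
    (by norm_num) (by norm_num) (by norm_num) (by norm_num) (by norm_num) (by norm_num) (by norm_num) (by norm_num) (by norm_num) (by norm_num) (by norm_num)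
    (by norm_num) (by norm_num) (by norm_num) (by norm_num)

private theorem yA10 {κ t : ℝ} (h : DomR κ t) (hk1 : 0.46 ≤ κ) (hk2 : κ ≤ 0.48) (ht1 : 1.345 ≤ t + κ) (ht2 : t + κ ≤ 1.363) :
    0.278 ≤ sy κ t ∧ sy κ t ≤ 0.309 := by
  have hy1 : 0.278 ≤ sy κ t := syR_ge h 0.46 0.48 1.345 0.278 1.32048 1.32049 0.76477 0.79804 hk1 hk2 (by linarith) (by norm_num) (by norm_num)
    (expn_ge (by norm_num) (by norm_num)) (expn_le (by norm_num) (by norm_num) (by norm_num)) (by norm_num)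
    (by norm_num) (by norm_num) (by norm_num) (by norm_num) (by norm_num) (by norm_num)
  have hy2 : sy κ t ≤ 0.309 := syR_ang2 h 0.46 0.48 1.363 1.068 0.4839 0.8766 0.309 0.73419 1.36206 hk1 hk2 (by linarith) (by norm_num) (by norm_num) (by norm_num)
    (cos_le_num (by norm_num)) (sin_le_num (by norm_num) (by norm_num)) (expm_le (by norm_num) (by norm_num) (by norm_num))
    (expn_ge (by norm_num) (by norm_num)) (by norm_num) (by norm_num) (by norm_num) (by norm_num) (by norm_num)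
  exact ⟨hy1, hy2⟩

private theorem yB10 {κ t : ℝ} (h : DomR κ t) (hk1 : 0.46 ≤ κ) (hk2 : κ ≤ 0.48) (ht1 : -0.7494 ≤ t + κ) (ht2 : t + κ ≤ -0.73139) :
    (-0.442) ≤ sy κ t ∧ sy κ t ≤ (-0.403) := by
  have hy1 : -0.442 ≤ sy κ t := syL_ang2 h 0.46 0.48 0.7494 0.633 0.8062 0.5916 0.442 1.55581 0.64274 hk1 hk2 (by linarith) (by norm_num) (by norm_num) (by norm_num) (by norm_num)
    (cos_ge_num (by norm_num) (by norm_num)) (sin_le_num (by norm_num) (by norm_num))
    (expn_ge (by norm_num) (by norm_num)) (expm_ge (by norm_num) (by norm_num) (by norm_num) (by norm_num)) (by norm_num) (by norm_num) (by norm_num)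
    (by norm_num) (by norm_num) (by norm_num)
  have hy2 : sy κ t ≤ -0.403 := syL_le h 0.46 0.48 0.73139 0.403 0.66831 0.66832 0.5611 0.58551 hk1 hk2 (by linarith) (by norm_num) (by norm_num) (by norm_num)
    (expm_ge (by norm_num) (by norm_num) (by norm_num) (by norm_num)) (expm_le (by norm_num) (by norm_num) (by norm_num)) (by norm_num)
    (by norm_num) (by norm_num) (by norm_num) (by norm_num) (by norm_num) (by norm_num)
  exact ⟨hy1, hy2⟩

theorem pc10 {β r h t κ : ℝ} (hh : h = 2 * Real.pi / (3 : ℕ)) (hβ : 0 < β) (hr : 10 ≤ r) (hκ : κ = β * r)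
    (hk1 : 0.46 ≤ κ) (hk2 : κ ≤ 0.48) (hT1 : 1.345 ≤ t + κ) (hT2 : t + κ ≤ 1.363) :
    Xf β r h t 0 ≠ 0 ∧ r * 0.0971 ≤ (Ld β r h t 1 - Ld β r h t 0).im ∧
      ‖(((-1 : ℤ) : ℂ) - 1) * Ld β r h t 0 - ((-1 : ℤ) : ℂ) * Ld β r h t 1‖ ≤ r * 8.01 := by
  obtain ⟨q1, q2, q3⟩ := b3_h hh
  have hR0 := b3_R0 hβ hr hκ
  have hR := b3_R hβ hr hκ (by linarith)
  have hD1 : DomR κ t := b3_dom (by linarith) (by linarith) (Or.inl (by linarith))
  have hD0 : DomR κ (t - h) := b3_dom (by linarith) (by linarith) (Or.inl (by linarith))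
  have y1 := yA10 hD1 hk1 hk2 (by linarith) (by linarith)
  have y0 := yB10 hD0 hk1 hk2 (by linarith) (by linarith)
  have j1 := T3_08_d1_2 hD1 hβ hk1 hk2 (by linarith) (by linarith) hR0 hR
  exact b3_piece 0.46 0.48 0.278 0.309 0.293 0.74602 0.7573 0.73419 0.3636 1.6772 1.7422 0.06 0.13 0.13 2.4905 0.6993 0 0 (-0.442) (-0.403) (-0.422) 1.525 1.55582 0.7468 0.6277 0.06 0.22 0.18 4.4716 4.215 0.4511 0.5367 0.0971 8.01
    hβ hr hκ (by norm_num) hk1 hk2 hD1 hD0 j1 (j1 _ (by rw [sub_self, norm_zero]; norm_num))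
    (T3_08_d0_2 hD0 hβ hk1 hk2 (by linarith) (by linarith) hR0 hR)
    (T3_08_p0 hD0 hβ hk1 hk2 (by linarith) (by linarith) hR0 hR)
    y1.1 y1.2 y0.1 y0.2 (by norm_num)
    (ex_um 0.278 (by norm_num) (by norm_num) (by norm_num) (by norm_num)) (ex_um 0.309 (by norm_num) (by norm_num) (by norm_num) (by norm_num)) (ex_lm 0.293 (by norm_num) (by norm_num) (by norm_num) (by norm_num) (by norm_num)) (by norm_num) (by norm_num) (by norm_num) (by norm_num) (by norm_num) (by norm_num) (by norm_num) (by norm_num)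
    (by norm_num) (by norm_num) (by norm_num) (by norm_num) (by norm_num) (by norm_num) (by norm_num) (by norm_num) (by norm_num) (by norm_num)
    (ex_up 0.442 (by norm_num) (by norm_num) (by norm_num) (by norm_num)) (ex_lp 0.422 (by norm_num) (by norm_num) (by norm_num)) (by norm_num) (by norm_num) (by norm_num) (by norm_num) (by norm_num) (by norm_num)
    (by norm_num) (by norm_num) (by norm_num) (by norm_num) (by norm_num) (by norm_num) (by norm_num) (by norm_num) (by norm_num) (by norm_num) (by norm_num)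
    (by norm_num) (by norm_num) (by norm_num) (by norm_num)

private theorem yA11 {κ t : ℝ} (h : DomR κ t) (hk1 : 0.46 ≤ κ) (hk2 : κ ≤ 0.48) (ht1 : 1.363 ≤ t + κ) (ht2 : t + κ ≤ 1.382) :
    0.278 ≤ sy κ t ∧ sy κ t ≤ 0.311 := by
  have hy1 : 0.278 ≤ sy κ t := syR_ge h 0.46 0.48 1.363 0.278 1.32048 1.32049 0.76477 0.79804 hk1 hk2 (by linarith) (by norm_num) (by norm_num)
    (expn_ge (by norm_num) (by norm_num)) (expn_le (by norm_num) (by norm_num) (by norm_num)) (by norm_num)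
    (by norm_num) (by norm_num) (by norm_num) (by norm_num) (by norm_num) (by norm_num)
  have hy2 : sy κ t ≤ 0.311 := syR_ang2 h 0.46 0.48 1.382 1.084 0.4701 0.8842 0.311 0.73272 1.36478 hk1 hk2 (by linarith) (by norm_num) (by norm_num) (by norm_num)
    (cos_le_num (by norm_num)) (sin_le_num (by norm_num) (by norm_num)) (expm_le (by norm_num) (by norm_num) (by norm_num))
    (expn_ge (by norm_num) (by norm_num)) (by norm_num) (by norm_num) (by norm_num) (by norm_num) (by norm_num)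
  exact ⟨hy1, hy2⟩

private theorem yB11 {κ t : ℝ} (h : DomR κ t) (hk1 : 0.46 ≤ κ) (hk2 : κ ≤ 0.48) (ht1 : -0.7314 ≤ t + κ) (ht2 : t + κ ≤ -0.71239) :
    (-0.426) ≤ sy κ t ∧ sy κ t ≤ (-0.388) := by
  have hy1 : -0.426 ≤ sy κ t := syL_ang2 h 0.46 0.48 0.7314 0.618 0.815 0.5795 0.426 1.53112 0.65311 hk1 hk2 (by linarith) (by norm_num) (by norm_num) (by norm_num) (by norm_num)
    (cos_ge_num (by norm_num) (by norm_num)) (sin_le_num (by norm_num) (by norm_num))
    (expn_ge (by norm_num) (by norm_num)) (expm_ge (by norm_num) (by norm_num) (by norm_num) (by norm_num)) (by norm_num) (by norm_num) (by norm_num)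
    (by norm_num) (by norm_num) (by norm_num)
  have hy2 : sy κ t ≤ -0.388 := syL_le h 0.46 0.48 0.71239 0.388 0.67841 0.67842 0.54838 0.57224 hk1 hk2 (by linarith) (by norm_num) (by norm_num) (by norm_num)
    (expm_ge (by norm_num) (by norm_num) (by norm_num) (by norm_num)) (expm_le (by norm_num) (by norm_num) (by norm_num)) (by norm_num)
    (by norm_num) (by norm_num) (by norm_num) (by norm_num) (by norm_num) (by norm_num)
  exact ⟨hy1, hy2⟩

theorem pc11 {β r h t κ : ℝ} (hh : h = 2 * Real.pi / (3 : ℕ)) (hβ : 0 < β) (hr : 10 ≤ r) (hκ : κ = β * r)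
    (hk1 : 0.46 ≤ κ) (hk2 : κ ≤ 0.48) (hT1 : 1.363 ≤ t + κ) (hT2 : t + κ ≤ 1.382) :
    Xf β r h t 0 ≠ 0 ∧ r * 0.0971 ≤ (Ld β r h t 1 - Ld β r h t 0).im ∧
      ‖(((-1 : ℤ) : ℂ) - 1) * Ld β r h t 0 - ((-1 : ℤ) : ℂ) * Ld β r h t 1‖ ≤ r * 8.01 := by
  obtain ⟨q1, q2, q3⟩ := b3_h hh
  have hR0 := b3_R0 hβ hr hκ
  have hR := b3_R hβ hr hκ (by linarith)
  have hD1 : DomR κ t := b3_dom (by linarith) (by linarith) (Or.inl (by linarith))
  have hD0 : DomR κ (t - h) := b3_dom (by linarith) (by linarith) (Or.inl (by linarith))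
  have y1 := yA11 hD1 hk1 hk2 (by linarith) (by linarith)
  have y0 := yB11 hD0 hk1 hk2 (by linarith) (by linarith)
  have j1 := T3_08_d1_2 hD1 hβ hk1 hk2 (by linarith) (by linarith) hR0 hR
  exact b3_piece 0.46 0.48 0.278 0.311 0.294 0.74527 0.7573 0.73272 0.3636 1.6772 1.7457 0.06 0.13 0.13 2.4905 0.6993 0 0 (-0.426) (-0.388) (-0.407) 1.5023 1.53113 0.735 0.6437 0.06 0.22 0.18 4.4716 4.0965 0.4508 0.5148 0.0971 8.01
    hβ hr hκ (by norm_num) hk1 hk2 hD1 hD0 j1 (j1 _ (by rw [sub_self, norm_zero]; norm_num))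
    (T3_08_d0_2 hD0 hβ hk1 hk2 (by linarith) (by linarith) hR0 hR)
    (T3_08_p0 hD0 hβ hk1 hk2 (by linarith) (by linarith) hR0 hR)
    y1.1 y1.2 y0.1 y0.2 (by norm_num)
    (ex_um 0.278 (by norm_num) (by norm_num) (by norm_num) (by norm_num)) (ex_um 0.311 (by norm_num) (by norm_num) (by norm_num) (by norm_num)) (ex_lm 0.294 (by norm_num) (by norm_num) (by norm_num) (by norm_num) (by norm_num)) (by norm_num) (by norm_num) (by norm_num) (by norm_num) (by norm_num) (by norm_num) (by norm_num) (by norm_num)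
    (by norm_num) (by norm_num) (by norm_num) (by norm_num) (by norm_num) (by norm_num) (by norm_num) (by norm_num) (by norm_num) (by norm_num)
    (ex_up 0.426 (by norm_num) (by norm_num) (by norm_num) (by norm_num)) (ex_lp 0.407 (by norm_num) (by norm_num) (by norm_num)) (by norm_num) (by norm_num) (by norm_num) (by norm_num) (by norm_num) (by norm_num)
    (by norm_num) (by norm_num) (by norm_num) (by norm_num) (by norm_num) (by norm_num) (by norm_num) (by norm_num) (by norm_num) (by norm_num) (by norm_num)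
    (by norm_num) (by norm_num) (by norm_num) (by norm_num)

theorem innS {β r h t κ : ℝ} (hh : h = 2 * Real.pi / (3 : ℕ)) (hβ : 0 < β) (hr : 10 ≤ r) (hκ : κ = β * r)
    (hk1 : 0.46 ≤ κ) (hk2 : κ ≤ 0.48) (hT1 : 1.171 ≤ t + κ) (hT2 : t + κ ≤ 1.382) :
    Xf β r h t 0 ≠ 0 ∧ r * 0.0971 ≤ (Ld β r h t 1 - Ld β r h t 0).im ∧
      ‖(((-1 : ℤ) : ℂ) - 1) * Ld β r h t 0 - ((-1 : ℤ) : ℂ) * Ld β r h t 1‖ ≤ r * 8.01 := by
  rcases le_total (t + κ) 1.186 with f0 | g0
  · exact pc0 hh hβ hr hκ hk1 hk2 hT1 f0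
  rcases le_total (t + κ) 1.201 with f1 | g1
  · exact pc1 hh hβ hr hκ hk1 hk2 g0 f1
  rcases le_total (t + κ) 1.218 with f2 | g2
  · exact pc2 hh hβ hr hκ hk1 hk2 g1 f2
  rcases le_total (t + κ) 1.236 with f3 | g3
  · exact pc3 hh hβ hr hκ hk1 hk2 g2 f3
  rcases le_total (t + κ) 1.254 with f4 | g4
  · exact pc4 hh hβ hr hκ hk1 hk2 g3 f4
  rcases le_total (t + κ) 1.271 with f5 | g5
  · exact pc5 hh hβ hr hκ hk1 hk2 g4 f5
  rcases le_total (t + κ) 1.29 with f6 | g6
  · exact pc6 hh hβ hr hκ hk1 hk2 g5 f6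
  rcases le_total (t + κ) 1.308 with f7 | g7
  · exact pc7 hh hβ hr hκ hk1 hk2 g6 f7
  rcases le_total (t + κ) 1.327 with f8 | g8
  · exact pc8 hh hβ hr hκ hk1 hk2 g7 f8
  rcases le_total (t + κ) 1.345 with f9 | g9
  · exact pc9 hh hβ hr hκ hk1 hk2 g8 f9
  rcases le_total (t + κ) 1.363 with f10 | g10
  · exact pc10 hh hβ hr hκ hk1 hk2 g9 f10
  exact pc11 hh hβ hr hκ hk1 hk2 g10 hT2

theorem circ {p : ℤ} (hp : IsCoprime (3 : ℤ) p) {β r : ℝ} (hβ : 0 < β) (hr : 10 ≤ r) (hk1 : 0.46 ≤ β * r)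
    (hk2 : β * r ≤ 0.48) : Circ (2 * Real.pi * p / (3 : ℕ) + β) r := by
  obtain ⟨κ, hκ⟩ : ∃ κ, κ = β * r := ⟨_, rfl⟩
  rw [← hκ] at hk1 hk2
  refine circ3 hp hr (h := 2 * Real.pi / (3 : ℕ)) (κ := κ) rfl 1.171 1.382 1.011 0.0971 0.00593 0.00593 8.01 (by norm_num) (by norm_num) (by norm_num)
    (by norm_num) (by norm_num) ?_ ?_ ?_ ?_ ?_ (by norm_num) (by norm_num)
  · intro t h1 h2
    exact (innS rfl hβ hr hκ hk1 hk2 h1 h2).1
  · intro t h1 h2
    exact (innE rfl hβ hr hκ hk1 hk2 h1 h2).1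
  · intro t h1 h2
    exact (innE rfl hβ hr hκ hk1 hk2 h1 h2).2
  · intro t h1 h2
    exact (innS rfl hβ hr hκ hk1 hk2 h1 h2).2
  · intro t h1 h2 h3
    rcases h3 with h3 | h3
    · rcases le_total (t + κ) 1.16 with g | g
      · exact left rfl hβ hr hκ hk1 hk2 h1 g
      · exact middle rfl hβ hr hκ hk1 hk2 g h3
    · exact right0 rfl hβ hr hκ hk1 hk2 h3 h2

end B3_08

end Sok
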