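import Pool.Agent.Lib.MP_816dec_an.R1b3D
import Pool.Agent.Lib.MP_816dec_an.R1b3J09

/-!
MP_816dec_an (A3, row R1, b = 3): the cell `0.48 ≤ κ ≤ 0.5`.
-/

set_option autoImplicit false
set_option maxHeartbeats 4000000
set_option linter.unusedVariables false

open Complex Set

namespace Sok

namespace B3_09

private theorem yL {κ t : ℝ} (h : DomR κ t) (hk1 : 0.48 ≤ κ) (hk2 : κ ≤ 0.5) (ht1 : 0 ≤ t + κ) (ht2 : t + κ ≤ 1.162) :
    0 ≤ sy κ t ∧ sy κ t ≤ 0.294 := by
  have hy1 : 0 ≤ sy κ t := sy_nonneg h (by linarith)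
  have hy2 : sy κ t ≤ 0.294 := syR_ang2 h 0.48 0.5 1.162 0.908 0.6161 0.7884 0.294 0.74528 1.34178 hk1 hk2 (by linarith) (by norm_num) (by norm_num) (by norm_num)
    (cos_le_num (by norm_num)) (sin_le_num (by norm_num) (by norm_num)) (expm_le (by norm_num) (by norm_num) (by norm_num))
    (expn_ge (by norm_num) (by norm_num)) (by norm_num) (by norm_num) (by norm_num) (by norm_num) (by norm_num)
  exact ⟨hy1, hy2⟩

theorem left {β r h t κ : ℝ} (hh : h = 2 * Real.pi / (3 : ℕ)) (hβ : 0 < β) (hr : 10 ≤ r) (hκ : κ = β * r)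
    (hk1 : 0.48 ≤ κ) (hk2 : κ ≤ 0.5) (hT1 : 0 ≤ t + κ) (hT2 : t + κ ≤ 1.162) :
    ‖Xf β r h t (-1)‖ < |‖Xf β r h t 1‖ - ‖Xf β r h t 0‖| := by
  obtain ⟨q1, q2, q3⟩ := b3_h hh
  have hR0 := b3_R0 hβ hr hκ
  have hR := b3_R hβ hr hκ (by linarith)
  have hD1 : DomR κ t := b3_dom (by linarith) (by linarith) (Or.inl (by linarith))
  have hy := yL hD1 hk1 hk2 (by linarith) (by linarith)
  have hY : 0.8548 * Real.exp (r * 0.59685) ≤ ‖Xf β r h t 1‖ :=
    b3_lo hβ hr hκ (k := 1) (t' := t) (by push_cast; ring) hD1 0.02 1.7269 0.8548 0.59685 (by norm_num)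
      (T3_09_p1 hD1 hβ hk1 hk2 (by linarith) (by linarith) hR0 hR)
      (v5_Dup hD1 0.5 0 0.294 1 0.74528 1.7269 hk2 hy.1 hy.2 (ex_up 0 (by norm_num) (by norm_num) (by norm_num) (by norm_num)) (ex_um 0.294 (by norm_num) (by norm_num) (by norm_num) (by norm_num)) (by norm_num) (by norm_num) (by norm_num)) (by norm_num) (by norm_num)
      (b3_Vlo hD1 0.48 0.5 0 1.162 0.46 (-0.77652) 0.9028 0.6194 0.47901 0.59685 hk1 hk2 (by linarith) (by linarith) (by norm_num) (ex_lm 0.77652 (by norm_num) (by norm_num) (by norm_num) (by norm_num) (by norm_num)) (by norm_num) (by norm_num) (by norm_num) (by norm_num) (by norm_num) (by norm_num) (by norm_num) (by norm_num) (ex_um 0.47901 (by norm_num) (by norm_num) (by norm_num) (by norm_num)) (by norm_num))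
  have h0 : ‖Xf β r h t 0‖ ≤ 0.9081 * ‖Xf β r h t 1‖ :=
    b3_cmp 0.4613 0.07823 0.02921 0.35358 0.830967 0.077112 0.9081 hr (b3_HU0 1.22 0.48 0.5 (-2.0944) (-0.93239) 1.65613 1.79607 1.84044 0.55678 0.54336 1.79606 1.5398 0.08921 1.10449 2.1176 0.15841 0.24327 0.000001 2.2566 0.51862 hβ hr hκ (by norm_num) hk1 hk2 (by norm_num) (by linarith) (by linarith) (by norm_num) (by norm_num) (ex_up 0.5856 (by norm_num) (by norm_num) (by norm_num) (by norm_num)) (ex_up 0.61 (by norm_num) (by norm_num) (by norm_num) (by norm_num)) (ex_um 0.5856 (by norm_num) (by norm_num) (by norm_num) (by norm_num)) (ex_um 0.61 (by norm_num) (by norm_num) (by norm_num) (by norm_num)) (by norm_num) (by norm_num) (ex_lp 0.5856 (by norm_num) (by norm_num) (by norm_num)) (by norm_num) (by norm_num) (by norm_num) (by norm_num) (by norm_num) (by norm_num) (by norm_num) (by norm_num) (by norm_num) (by norm_num) (by norm_num) (by norm_num) (by norm_num) (by norm_num) (v5_hump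 5.7852 20 4.4722 0.0000003148 0.000001 hβ hr hκ hk1 hk2 (by norm_num) (tb := (-0.93239)) (by linarith) (by norm_num) (by norm_num) (by norm_num) (by norm_num) (by norm_num) (by norm_num) (by norm_num) (ex_un 14 0.99 (by norm_num) (by norm_num) (by norm_num) (by norm_num)) (by norm_num)) (by norm_num) (by norm_num)) hY (by norm_num) (by norm_num) (by norm_num) (by norm_num) (by norm_num) (ex_un 0 0.7823 (by norm_num) (by norm_num) (by norm_num) (by norm_num)) (by norm_num) (by norm_num) (by norm_num) (ex_un 3 0.5358 (by norm_num) (by norm_num) (by norm_num) (by norm_num)) (by norm_num) (by norm_num)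
  have h2 : ‖Xf β r h t (-1)‖ ≤ 0.0236 * ‖Xf β r h t 1‖ := by
    exact b3_cmp 1 0 0.004664 0.53685 0 0.023581 0.0236 hr (b3_w (b3_UD 0.48 0.5 2.09439 3.2564 0.01 0.57583 0.01 2.2531 4.3217 0.06 hh hβ hr hκ (by norm_num) hk1 hk2 (by linarith) (by linarith) (by norm_num) (by norm_num) (by norm_num) (by norm_num) (by norm_num) (by norm_num) (by norm_num) (by norm_num) (by norm_num) (by norm_num) (by norm_num) (by norm_num) (by norm_num))) hY (by norm_num) (by norm_num) (by norm_num) (by norm_num) (by norm_num) (by norm_num) (by norm_num) (by norm_num) (by norm_num) (ex_un 5 0.3685 (by norm_num) (by norm_num) (by norm_num) (by norm_num)) (by norm_num) (by norm_num)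
  exact b3_out1 0.9081 0.0236 hY (by norm_num) h0 h2 (by norm_num)

private theorem yM1 {κ t : ℝ} (h : DomR κ t) (hk1 : 0.48 ≤ κ) (hk2 : κ ≤ 0.5) (ht1 : 0 ≤ t + κ) (ht2 : t + κ ≤ 1.171) :
    0 ≤ sy κ t ∧ sy κ t ≤ 0.295 := by
  have hy1 : 0 ≤ sy κ t := sy_nonneg h (by linarith)
  have hy2 : sy κ t ≤ 0.295 := syR_ang2 h 0.48 0.5 1.171 0.914 0.6114 0.7921 0.295 0.74454 1.34312 hk1 hk2 (by linarith) (by norm_num) (by norm_num) (by norm_num)
    (cos_le_num (by norm_num)) (sin_le_num (by norm_num) (by norm_num)) (expm_le (by norm_num) (by norm_num) (by norm_num))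
    (expn_ge (by norm_num) (by norm_num)) (by norm_num) (by norm_num) (by norm_num) (by norm_num) (by norm_num)
  exact ⟨hy1, hy2⟩

private theorem yM0 {κ t : ℝ} (h : DomR κ t) (hk1 : 0.48 ≤ κ) (hk2 : κ ≤ 0.5) (ht1 : -0.9324 ≤ t + κ) (ht2 : t + κ ≤ -0.92339) :
    (-0.641) ≤ sy κ t ∧ sy κ t ≤ (-0.592) := by
  have hy1 : -0.641 ≤ sy κ t := syL_ang2 h 0.48 0.5 0.9324 0.741 0.7377 0.6751 0.641 1.89836 0.52676 hk1 hk2 (by linarith) (by norm_num) (by norm_num) (by norm_num) (by norm_num)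
    (cos_ge_num (by norm_num) (by norm_num)) (sin_le_num (by norm_num) (by norm_num))
    (expn_ge (by norm_num) (by norm_num)) (expm_ge (by norm_num) (by norm_num) (by norm_num) (by norm_num)) (by norm_num) (by norm_num) (by norm_num)
    (by norm_num) (by norm_num) (by norm_num)
  have hy2 : sy κ t ≤ -0.592 := syL_le h 0.48 0.5 0.92339 0.592 0.55321 0.55323 0.655 0.68232 hk1 hk2 (by linarith) (by norm_num) (by norm_num) (by norm_num)
    (expm_ge (by norm_num) (by norm_num) (by norm_num) (by norm_num)) (expm_le (by norm_num) (by norm_num) (by norm_num)) (by norm_num)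
    (by norm_num) (by norm_num) (by norm_num) (by norm_num) (by norm_num) (by norm_num)
  exact ⟨hy1, hy2⟩

theorem middle {β r h t κ : ℝ} (hh : h = 2 * Real.pi / (3 : ℕ)) (hβ : 0 < β) (hr : 10 ≤ r) (hκ : κ = β * r)
    (hk1 : 0.48 ≤ κ) (hk2 : κ ≤ 0.5) (hT1 : 1.162 ≤ t + κ) (hT2 : t + κ ≤ 1.171) :
    ‖Xf β r h t (-1)‖ < |‖Xf β r h t 1‖ - ‖Xf β r h t 0‖| := by
  obtain ⟨q1, q2, q3⟩ := b3_h hh
  have hR0 := b3_R0 hβ hr hκ
  have hR := b3_R hβ hr hκ (by linarith)
  have hD1 : DomR κ t := b3_dom (by linarith) (by linarith) (Or.inl (by linarith))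
  have hD0 : DomR κ (t - h) := b3_dom (by linarith) (by linarith) (Or.inl (by linarith))
  have hy := yM1 hD1 hk1 hk2 (by linarith) (by linarith)
  have hy0 := yM0 hD0 hk1 hk2 (by linarith) (by linarith)
  have hY : 0.8546 * Real.exp (r * 0.59156) ≤ ‖Xf β r h t 1‖ :=
    b3_lo hβ hr hκ (k := 1) (t' := t) (by push_cast; ring) hD1 0.02 1.7286 0.8546 0.59156 (by norm_num)
      (T3_09_p1 hD1 hβ hk1 hk2 (by linarith) (by linarith) hR0 hR)
      (v5_Dup hD1 0.5 0 0.295 1 0.74454 1.7286 hk2 hy.1 hy.2 (ex_up 0 (by norm_num) (by norm_num) (by norm_num) (by norm_num)) (ex_um 0.295 (by norm_num) (by norm_num) (by norm_num) (by norm_num)) (by norm_num) (by norm_num) (by norm_num)) (by norm_num) (by norm_num)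
      (b3_Vlo hD1 0.48 0.5 0 1.171 0.46 (-0.77652) 0.9118 0.61231 0.49052 0.59156 hk1 hk2 (by linarith) (by linarith) (by norm_num) (ex_lm 0.77652 (by norm_num) (by norm_num) (by norm_num) (by norm_num) (by norm_num)) (by norm_num) (by norm_num) (by norm_num) (by norm_num) (by norm_num) (by norm_num) (by norm_num) (by norm_num) (ex_um 0.49052 (by norm_num) (by norm_num) (by norm_num) (by norm_num)) (by norm_num))
  have hU : ‖Xf β r h t 0‖ ≤ 1.3836 * Real.exp (r * 0.53125) :=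
    b3_up hβ hr hκ (k := 0) (t' := t - h) (by push_cast; ring) hD0 0.19 0.5473 1.3836 0.53125
      (T3_09_p0m hD0 hβ hk1 hk2 (by linarith) (by linarith) hR0 hR) (v5_Dlo hD0 0.48 (-0.641) (-0.592) (-0.617) 1.85335 0.5473 (by norm_num) hk1 hy0.1 hy0.2 (ex_lp 0.617 (by norm_num) (by norm_num) (by norm_num)) (by norm_num) (by norm_num) (by norm_num) (by norm_num)) (by norm_num) (by norm_num)
      (b3_VH hD0 1.09 0.48 0.5 1.53774 1.68742 1.72461 0.59263 0.57985 (-0.92339) 0.53125 (by norm_num) hk1 hk2 (by norm_num) (ex_up 0.5232 (by norm_num) (by norm_num) (by norm_num) (by norm_num)) (ex_up 0.545 (by norm_num) (by norm_num) (by norm_num) (by norm_num)) (ex_um 0.5232 (by norm_num) (by norm_num) (by norm_num) (by norm_num)) (ex_um 0.545 (by norm_num) (by norm_num) (by norm_num) (by norm_num)) (by norm_num) (by norm_num) (by norm_num) (by linarith) (by norm_num))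
  have h0 : ‖Xf β r h t 0‖ ≤ 0.8889 * ‖Xf β r h t 1‖ :=
    b3_cmp 1 0 0.549 0.06031 0 0.888833 0.8889 hr (b3_w hU) hY (by norm_num) (by norm_num) (by norm_num) (by norm_num) (by norm_num) (by norm_num) (by norm_num) (by norm_num) (by norm_num) (ex_un 0 0.6031 (by norm_num) (by norm_num) (by norm_num) (by norm_num)) (by norm_num) (by norm_num)
  have h2 : ‖Xf β r h t (-1)‖ ≤ 0.0027 * ‖Xf β r h t 1‖ := by
    exact b3_cmp 1 0 0.004451 0.54156 0 0.002665 0.0027 hr ((b3_Xm hh).trans_le (b3_U1 0.48 0.5 3.25639 3.2654 1.18559 0.08921 1.10449 0.9266 0.00002 0.3853 0.000001 0.5115 hβ hr hκ (by norm_num) hk1 hk2 (by linarith) (by linarith) (by norm_num) (by norm_num) (by norm_num) (by norm_num) (by norm_num) (by norm_num) (by norm_num) (by norm_num) (by norm_num) (by norm_num) (by norm_num) (by norm_num) (by norm_num) (ex_un 9 0.266 (by norm_num) (by norm_num) (by norm_num) (by norm_num)) (v5_hump 1.5874 20 4.4722 0.0000003148 0.000001 hβ hr hκ hk1 hk2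 (by norm_num) (tb := 3.2654) (by linarith) (by norm_num) (by norm_num) (by norm_num) (by norm_num) (by norm_num) (by norm_num) (by norm_num) (ex_un 14 0.99 (by norm_num) (by norm_num) (by norm_num) (by norm_num)) (by norm_num)) (by norm_num))) hY (by norm_num) (by norm_num) (by norm_num) (by norm_num) (by norm_num) (by norm_num) (by norm_num) (by norm_num) (by norm_num) (ex_un 5 0.4156 (by norm_num) (by norm_num) (by norm_num) (by norm_num)) (by norm_num) (by norm_num)
  exact b3_out1 0.8889 0.0027 hY (by norm_num) h0 h2 (by norm_num)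

private theorem yR0 {κ t : ℝ} (h : DomR κ t) (hk1 : 0.48 ≤ κ) (hk2 : κ ≤ 0.5) (ht1 : -0.7124 ≤ t + κ) (ht2 : t + κ ≤ 0.0001) :
    (-0.42) ≤ sy κ t ∧ sy κ t ≤ 0.005 := by
  have hy1 : -0.42 ≤ sy κ t := syL_ang2 h 0.48 0.5 0.7124 0.584 0.8342 0.5514 0.42 1.52196 0.65704 hk1 hk2 (by linarith) (by norm_num) (by norm_num) (by norm_num) (by norm_num)
    (cos_ge_num (by norm_num) (by norm_num)) (sin_le_num (by norm_num) (by norm_num))
    (expn_ge (by norm_num) (by norm_num)) (expm_ge (by norm_num) (by norm_num) (by norm_num) (by norm_num)) (by norm_num) (by norm_num) (by norm_num)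
    (by norm_num) (by norm_num) (by norm_num)
  have hy2 : sy κ t ≤ 0.005 := syR_le h 0.48 0.5 0.0001 0.005 1.00501 0.0099 0.01005 0.01047 hk1 hk2 (by linarith) (by norm_num) (by norm_num)
    (expn_ge (by norm_num) (by norm_num)) (by norm_num) (by norm_num) (Or.inr ((mul_le_mul_of_nonneg_left (expn_le (E := 1.00502) (by norm_num) (by norm_num) (by norm_num)) (by norm_num)).trans (by norm_num))) (by norm_num) (by norm_num) (by norm_num)
  exact ⟨hy1, hy2⟩

theorem right0 {β r h t κ : ℝ} (hh : h = 2 * Real.pi / (3 : ℕ)) (hβ : 0 < β) (hr : 10 ≤ r) (hκ : κ = β * r)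
    (hk1 : 0.48 ≤ κ) (hk2 : κ ≤ 0.5) (hT1 : 1.382 ≤ t + κ) (hT2 : t + κ ≤ h) :
    ‖Xf β r h t (-1)‖ < |‖Xf β r h t 1‖ - ‖Xf β r h t 0‖| := by
  obtain ⟨q1, q2, q3⟩ := b3_h hh
  have hR0 := b3_R0 hβ hr hκ
  have hR := b3_R hβ hr hκ (by linarith)
  have hD0 : DomR κ (t - h) := b3_dom (by linarith) (by linarith) (Or.inl (by linarith))
  have hy := yR0 hD0 hk1 hk2 (by linarith) (by linarith)
  have hY : 0.8876 * Real.exp (r * 0.73757) ≤ ‖Xf β r h t 0‖ :=
    b3_lo hβ hr hκ (k := 0) (t' := t - h) (by push_cast; ring) hD0 0.06 1.2576 0.8876 0.73757 (by norm_num)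
      (T3_09_p0R hD0 hβ hk1 hk2 (by linarith) (by linarith) hR0 hR)
      (v5_Dup hD0 0.5 (-0.42) 0.005 1.52197 0.99502 1.2576 hk2 hy.1 hy.2 (ex_up 0.42 (by norm_num) (by norm_num) (by norm_num) (by norm_num)) (ex_um 0.005 (by norm_num) (by norm_num) (by norm_num) (by norm_num)) (by norm_num) (by norm_num) (by norm_num)) (by norm_num) (by norm_num)
      (b3_Vlo hD0 0.48 0.5 (-0.7124) 0.0001 1.24 0.21512 0.5972 0.82691 0.19006 0.73757 hk1 hk2 (by linarith) (by linarith) (by norm_num) (ex_lp 0.21512 (by norm_num) (by norm_num) (by norm_num)) (by norm_num) (by norm_num) (by norm_num) (by norm_num) (by norm_num) (by norm_num) (by norm_num) (by norm_num) (ex_um 0.19006 (by norm_num) (by norm_num) (by norm_num) (by norm_num)) (by norm_num))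
  have h1 : ‖Xf β r h t 1‖ ≤ 0.2368 * ‖Xf β r h t 0‖ := by
    rcases le_total (t + κ) 1.85 with g0 | g0
    · exact b3_cmp 0.07753 0.25598 0.0006267 0.73757 0.236635 0.000089 0.2368 hr (b3_X1.trans_le (b3_HF 0.57 0.48 0.5 1.382 1.85 1.26933 0.76064 0.75202 1.31469 1.32977 0.75201 2.5241 0.08921 2.4527 0.2007 0.08897 0.4162 0.000001 2.7091 0.1256 0.48159 hβ hr hκ (by norm_num) hk1 hk2 (by norm_num) (by linarith) (by linarith) (by norm_num) (ex_um 0.2736 (by norm_num) (by norm_num) (by norm_num) (by norm_num)) (ex_um 0.285 (by norm_num) (by norm_num) (by norm_num) (by norm_num)) (ex_up 0.2736 (by norm_num) (by norm_num) (by norm_num) (by norm_num)) (ex_up 0.285 (by norm_num) (by norm_num) (by norm_num) (by norm_num)) (by norm_num) (by norm_num) (ex_lm 0.285 (by norm_num) (by norm_num) (by norm_num) (by norm_num) (by norm_num)) (by norm_num) (by norm_num) (by norm_num) (by norm_num) (by norm_num) (by norm_num) (by norm_num) (by norm_num) (by norm_num)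 (by norm_num) (by norm_num) (by norm_num) (ex_un 0 0.8897 (by norm_num) (by norm_num) (by norm_num) (by norm_num)) (v5_hump 3.0028 20 4.4722 0.0000003148 0.000001 hβ hr hκ hk1 hk2 (by norm_num) (tb := 1.85) (by linarith) (by norm_num) (by norm_num) (by norm_num) (by norm_num) (by norm_num) (by norm_num) (by norm_num) (ex_un 14 0.99 (by norm_num) (by norm_num) (by norm_num) (by norm_num)) (by norm_num)) (by norm_num) (by norm_num) (by norm_num))) hY (by norm_num) (by norm_num) (by norm_num) (by norm_num) (by norm_num) (ex_un 2 0.5598 (by norm_num) (by norm_num) (by norm_num) (by norm_num)) (by norm_num) (by norm_num) (by norm_num) (ex_un 7 0.3757 (by norm_num) (by norm_num) (by norm_num) (by norm_num)) (by norm_num) (by norm_num)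
    exact b3_cmp 1 0 0.01259 0.43757 0 0.068567 0.2368 hr (b3_w (b3_UD1 0.48 0.5 1.85 2.0944 0.25 0.57583 0.25 2.5202 4.834 0.3 hβ hr hκ (by norm_num) hk1 hk2 (by linarith) (by linarith) (by norm_num) (by norm_num) (by norm_num) (by norm_num) (by norm_num) (by norm_num) (by norm_num) (by norm_num) (by norm_num) (by norm_num) (by norm_num) (by norm_num) (by norm_num))) hY (by norm_num) (by norm_num) (by norm_num) (by norm_num) (by norm_num) (by norm_num) (by norm_num) (by norm_num) (by norm_num) (ex_un 4 0.3757 (by norm_num) (by norm_num) (by norm_num) (by norm_num)) (by norm_num) (by norm_num)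
  have h2 : ‖Xf β r h t (-1)‖ ≤ 0.0006 * ‖Xf β r h t 0‖ := by
    exact b3_cmp 1 0 0.001046 0.68757 0 0.000589 0.0006 hr ((b3_Xm hh).trans_le (b3_U1 0.48 0.5 3.47639 4.1888 1.40559 0.08921 1.10449 0.8433 0.00003 0.5673 0.000004 0.4998 hβ hr hκ (by norm_num) hk1 hk2 (by linarith) (by linarith) (by norm_num) (by norm_num) (by norm_num) (by norm_num) (by norm_num) (by norm_num) (by norm_num) (by norm_num) (by norm_num) (by norm_num) (by norm_num) (by norm_num) (by norm_num) (ex_un 8 0.433 (by norm_num) (by norm_num) (by norm_num) (by norm_num)) (v5_hump 0.664 20 4.4722 0.000001709 0.000004 hβ hr hκ hk1 hk2 (by norm_num) (tb := 4.1888) (by linarith) (by norm_num) (by norm_num) (by norm_num) (by norm_num) (by norm_num) (by norm_num) (by norm_num) (ex_un 13 0.28 (by norm_num) (by norm_num) (by norm_num) (by norm_num)) (by norm_num)) (by norm_num))) hY (by norm_num) (by norm_num) (by norm_num) (by norm_num) (by norm_num) (by norm_num) (by norm_num) (by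 norm_num) (by norm_num) (ex_un 6 0.8757 (by norm_num) (by norm_num) (by norm_num) (by norm_num)) (by norm_num) (by norm_num)
  exact b3_out0 0.2368 0.0006 hY (by norm_num) h1 h2 (by norm_num)

private theorem yI {κ t : ℝ} (h : DomR κ t) (hk1 : 0.48 ≤ κ) (hk2 : κ ≤ 0.5) (ht1 : -0.9234 ≤ t + κ) (ht2 : t + κ ≤ -0.71239) :
    (-0.63) ≤ sy κ t ∧ sy κ t ≤ (-0.399) := by
  have hy1 : -0.63 ≤ sy κ t := syL_ang2 h 0.48 0.5 0.9234 0.735 0.7418 0.6707 0.63 1.8776 0.53259 hk1 hk2 (by linarith) (by norm_num) (by norm_num) (by norm_num) (by norm_num)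
    (cos_ge_num (by norm_num) (by norm_num)) (sin_le_num (by norm_num) (by norm_num))
    (expn_ge (by norm_num) (by norm_num)) (expm_ge (by norm_num) (by norm_num) (by norm_num) (by norm_num)) (by norm_num) (by norm_num) (by norm_num)
    (by norm_num) (by norm_num) (by norm_num)
  have hy2 : sy κ t ≤ -0.399 := syL_le h 0.48 0.5 0.71239 0.399 0.67099 0.671 0.53545 0.55777 hk1 hk2 (by linarith) (by norm_num) (by norm_num) (by norm_num)
    (expm_ge (by norm_num) (by norm_num) (by norm_num) (by norm_num)) (expm_le (by norm_num) (by norm_num) (by norm_num)) (by norm_num)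
    (by norm_num) (by norm_num) (by norm_num) (by norm_num) (by norm_num) (by norm_num)
  exact ⟨hy1, hy2⟩

theorem innE {β r h t κ : ℝ} (hh : h = 2 * Real.pi / (3 : ℕ)) (hβ : 0 < β) (hr : 10 ≤ r) (hκ : κ = β * r)
    (hk1 : 0.48 ≤ κ) (hk2 : κ ≤ 0.5) (hT1 : 1.171 ≤ t + κ) (hT2 : t + κ ≤ 1.382) :
    ‖Xf β r h t (-1)‖ ≤ 0.00555 * ‖Xf β r h t 0‖ ∧ ‖Xf β r h (t + β) (-1)‖ ≤ 0.00555 * ‖Xf β r h t 0‖ := by
  obtain ⟨q1, q2, q3⟩ := b3_h hh
  have hR0 := b3_R0 hβ hr hκ
  have hR := b3_R hβ hr hκ (by linarith)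
  have hD0 : DomR κ (t - h) := b3_dom (by linarith) (by linarith) (Or.inl (by linarith))
  have hy := yI hD0 hk1 hk2 (by linarith) (by linarith)
  have hY : 0.8736 * Real.exp (r * 0.51631) ≤ ‖Xf β r h t 0‖ :=
    b3_lo hβ hr hκ (k := 0) (t' := t - h) (by push_cast; ring) hD0 0.185 0.7573 0.8736 0.51631 (by norm_num)
      (T3_09_p0 hD0 hβ hk1 hk2 (by linarith) (by linarith) hR0 hR)
      (v5_Dup hD0 0.5 (-0.63) (-0.399) 1.87762 1.49034 0.7573 hk2 hy.1 hy.2 (ex_up 0.63 (by norm_num) (by norm_num) (by norm_num) (by norm_num)) (ex_up 0.399 (by norm_num) (by norm_num) (by norm_num) (by norm_num)) (by norm_num) (by norm_num) (by norm_num)) (by norm_num) (by norm_num)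
      (b3_Vlo hD0 0.48 0.5 (-0.9234) (-0.71239) 1.33 0.28518 0.765 0.72137 0.32661 0.51631 hk1 hk2 (by linarith) (by linarith) (by norm_num) (ex_lp 0.28518 (by norm_num) (by norm_num) (by norm_num)) (by norm_num) (by norm_num) (by norm_num) (by norm_num) (by norm_num) (by norm_num) (by norm_num) (by norm_num) (ex_um 0.32661 (by norm_num) (by norm_num) (by norm_num) (by norm_num)) (by norm_num))
  constructor
  · exact b3_cmp 1 0 0.009483 0.46631 0 0.005546 0.00555 hr ((b3_Xm hh).trans_le (b3_U1 0.48 0.5 3.26539 3.4764 1.19459 0.08921 1.10449 0.93 0.00001 0.3763 0.000001 0.5109 hβ hr hκ (by norm_num) hk1 hk2 (by linarith) (by linarith) (by norm_num) (by norm_num) (by norm_num) (by norm_num) (by norm_num) (by norm_num) (by norm_num) (by norm_num) (by norm_num) (by norm_num) (by norm_num) (by norm_num) (by norm_num) (ex_un 9 0.3 (by norm_num) (by norm_num) (by norm_num) (by norm_num)) (v5_hump 1.3764 20 4.4722 0.0000003148 0.000001 hβ hr hκ hk1 hk2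 (by norm_num) (tb := 3.4764) (by linarith) (by norm_num) (by norm_num) (by norm_num) (by norm_num) (by norm_num) (by norm_num) (by norm_num) (ex_un 14 0.99 (by norm_num) (by norm_num) (by norm_num) (by norm_num)) (by norm_num)) (by norm_num))) hY (by norm_num) (by norm_num) (by norm_num) (by norm_num) (by norm_num) (by norm_num) (by norm_num) (by norm_num) (by norm_num) (ex_un 4 0.6631 (by norm_num) (by norm_num) (by norm_num) (by norm_num)) (by norm_num) (by norm_num)
  · exact b3_cmp 1 0 0.009483 0.46631 0 0.005546 0.00555 hr ((b3_Xm hh).trans_le (b3_U1 0.48 0.5 3.26539 3.5264 1.19459 0.08921 1.10449 0.93 0.00001 0.3763 0.000001 0.5109 hβ hr hκ (by norm_num) hk1 hk2 (by linarith) (by linarith) (by norm_num) (by norm_num) (by norm_num) (by norm_num) (by norm_num) (by norm_num) (by norm_num) (by norm_num) (by norm_num) (by norm_num) (by norm_num) (by norm_num) (by norm_num) (ex_un 9 0.3 (by norm_num) (by norm_num) (by norm_num) (by norm_num))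 (v5_hump 1.3264 20 4.4722 0.0000003148 0.000001 hβ hr hκ hk1 hk2 (by norm_num) (tb := 3.5264) (by linarith) (by norm_num) (by norm_num) (by norm_num) (by norm_num) (by norm_num) (by norm_num) (by norm_num) (ex_un 14 0.99 (by norm_num) (by norm_num) (by norm_num) (by norm_num)) (by norm_num)) (by norm_num))) hY (by norm_num) (by norm_num) (by norm_num) (by norm_num) (by norm_num) (by norm_num) (by norm_num) (by norm_num) (by norm_num) (ex_un 4 0.6631 (by norm_num) (by norm_num) (by norm_num) (by norm_num)) (by norm_num) (by norm_num)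

private theorem yA0 {κ t : ℝ} (h : DomR κ t) (hk1 : 0.48 ≤ κ) (hk2 : κ ≤ 0.5) (ht1 : 1.171 ≤ t + κ) (ht2 : t + κ ≤ 1.186) :
    0.283 ≤ sy κ t ∧ sy κ t ≤ 0.297 := by
  have hy1 : 0.283 ≤ sy κ t := syR_ge h 0.48 0.5 1.171 0.283 1.3271 1.32711 0.75113 0.78245 hk1 hk2 (by linarith) (by norm_num) (by norm_num)
    (expn_ge (by norm_num) (by norm_num)) (expn_le (by norm_num) (by norm_num) (by norm_num)) (by norm_num)
    (by norm_num) (by norm_num) (by norm_num) (by norm_num) (by norm_num) (by norm_num)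
  have hy2 : sy κ t ≤ 0.297 := syR_ang2 h 0.48 0.5 1.186 0.926 0.6019 0.7994 0.297 0.74305 1.34581 hk1 hk2 (by linarith) (by norm_num) (by norm_num) (by norm_num)
    (cos_le_num (by norm_num)) (sin_le_num (by norm_num) (by norm_num)) (expm_le (by norm_num) (by norm_num) (by norm_num))
    (expn_ge (by norm_num) (by norm_num)) (by norm_num) (by norm_num) (by norm_num) (by norm_num) (by norm_num)
  exact ⟨hy1, hy2⟩

private theorem yB0 {κ t : ℝ} (h : DomR κ t) (hk1 : 0.48 ≤ κ) (hk2 : κ ≤ 0.5) (ht1 : -0.9234 ≤ t + κ) (ht2 : t + κ ≤ -0.90839) :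
    (-0.63) ≤ sy κ t ∧ sy κ t ≤ (-0.577) := by
  have hy1 : -0.63 ≤ sy κ t := syL_ang2 h 0.48 0.5 0.9234 0.735 0.7418 0.6707 0.63 1.8776 0.53259 hk1 hk2 (by linarith) (by norm_num) (by norm_num) (by norm_num) (by norm_num)
    (cos_ge_num (by norm_num) (by norm_num)) (sin_le_num (by norm_num) (by norm_num))
    (expn_ge (by norm_num) (by norm_num)) (expm_ge (by norm_num) (by norm_num) (by norm_num) (by norm_num)) (by norm_num) (by norm_num) (by norm_num)
    (by norm_num) (by norm_num) (by norm_num)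
  have hy2 : sy κ t ≤ -0.577 := syL_le h 0.48 0.5 0.90839 0.577 0.56158 0.56159 0.64806 0.67508 hk1 hk2 (by linarith) (by norm_num) (by norm_num) (by norm_num)
    (expm_ge (by norm_num) (by norm_num) (by norm_num) (by norm_num)) (expm_le (by norm_num) (by norm_num) (by norm_num)) (by norm_num)
    (by norm_num) (by norm_num) (by norm_num) (by norm_num) (by norm_num) (by norm_num)
  exact ⟨hy1, hy2⟩

theorem pc0 {β r h t κ : ℝ} (hh : h = 2 * Real.pi / (3 : ℕ)) (hβ : 0 < β) (hr : 10 ≤ r) (hκ : κ = β * r)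
    (hk1 : 0.48 ≤ κ) (hk2 : κ ≤ 0.5) (hT1 : 1.171 ≤ t + κ) (hT2 : t + κ ≤ 1.186) :
    Xf β r h t 0 ≠ 0 ∧ r * 0.1001 ≤ (Ld β r h t 1 - Ld β r h t 0).im ∧
      ‖(((-1 : ℤ) : ℂ) - 1) * Ld β r h t 0 - ((-1 : ℤ) : ℂ) * Ld β r h t 1‖ ≤ r * 8.01 := by
  obtain ⟨q1, q2, q3⟩ := b3_h hh
  have hR0 := b3_R0 hβ hr hκ
  have hR := b3_R hβ hr hκ (by linarith)
  have hD1 : DomR κ t := b3_dom (by linarith) (by linarith) (Or.inl (by linarith))
  have hD0 : DomR κ (t - h) := b3_dom (by linarith) (by linarith) (Or.inl (by linarith))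
  have y1 := yA0 hD1 hk1 hk2 (by linarith) (by linarith)
  have y0 := yB0 hD0 hk1 hk2 (by linarith) (by linarith)
  have j1 := T3_09_d1_0 hD1 hβ hk1 hk2 (by linarith) (by linarith) hR0 hR
  exact b3_piece 0.48 0.5 0.283 0.297 0.29 0.74826 0.75352 0.74305 0.3768 1.6968 1.7321 0.04 0.03 0.03 0.7732 0.2237 0 0 (-0.63) (-0.577) (-0.604) 1.82941 1.87762 0.9389 0.5511 0.03 0.3 0.185 12.27 15.5185 0.2676 0.456 0.1001 8.01
    hβ hr hκ (by norm_num) hk1 hk2 hD1 hD0 j1 (j1 _ (by rw [sub_self, norm_zero]; norm_num))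
    (T3_09_d0_0 hD0 hβ hk1 hk2 (by linarith) (by linarith) hR0 hR)
    (T3_09_p0 hD0 hβ hk1 hk2 (by linarith) (by linarith) hR0 hR)
    y1.1 y1.2 y0.1 y0.2 (by norm_num)
    (ex_um 0.283 (by norm_num) (by norm_num) (by norm_num) (by norm_num)) (ex_um 0.297 (by norm_num) (by norm_num) (by norm_num) (by norm_num)) (ex_lm 0.29 (by norm_num) (by norm_num) (by norm_num) (by norm_num) (by norm_num)) (by norm_num) (by norm_num) (by norm_num) (by norm_num) (by norm_num) (by norm_num) (by norm_num) (by norm_num)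
    (by norm_num) (by norm_num) (by norm_num) (by norm_num) (by norm_num) (by norm_num) (by norm_num) (by norm_num) (by norm_num) (by norm_num)
    (ex_up 0.63 (by norm_num) (by norm_num) (by norm_num) (by norm_num)) (ex_lp 0.604 (by norm_num) (by norm_num) (by norm_num)) (by norm_num) (by norm_num) (by norm_num) (by norm_num) (by norm_num) (by norm_num)
    (by norm_num) (by norm_num) (by norm_num) (by norm_num) (by norm_num) (by norm_num) (by norm_num) (by norm_num) (by norm_num) (by norm_num) (by norm_num)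
    (by norm_num) (by norm_num) (by norm_num) (by norm_num)

private theorem yA1 {κ t : ℝ} (h : DomR κ t) (hk1 : 0.48 ≤ κ) (hk2 : κ ≤ 0.5) (ht1 : 1.186 ≤ t + κ) (ht2 : t + κ ≤ 1.201) :
    0.285 ≤ sy κ t ∧ sy κ t ≤ 0.299 := by
  have hy1 : 0.285 ≤ sy κ t := syR_ge h 0.48 0.5 1.186 0.285 1.32976 1.32977 0.75796 0.78956 hk1 hk2 (by linarith) (by norm_num) (by norm_num)
    (expn_ge (by norm_num) (by norm_num)) (expn_le (by norm_num) (by norm_num) (by norm_num)) (by norm_num)
    (by norm_num) (by norm_num) (by norm_num) (by norm_num) (by norm_num) (by norm_num)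
  have hy2 : sy κ t ≤ 0.299 := syR_ang2 h 0.48 0.5 1.201 0.937 0.5932 0.806 0.299 0.74156 1.3485 hk1 hk2 (by linarith) (by norm_num) (by norm_num) (by norm_num)
    (cos_le_num (by norm_num)) (sin_le_num (by norm_num) (by norm_num)) (expm_le (by norm_num) (by norm_num) (by norm_num))
    (expn_ge (by norm_num) (by norm_num)) (by norm_num) (by norm_num) (by norm_num) (by norm_num) (by norm_num)
  exact ⟨hy1, hy2⟩

private theorem yB1 {κ t : ℝ} (h : DomR κ t) (hk1 : 0.48 ≤ κ) (hk2 : κ ≤ 0.5) (ht1 : -0.9084 ≤ t + κ) (ht2 : t + κ ≤ -0.89339) :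
    (-0.613) ≤ sy κ t ∧ sy κ t ≤ (-0.562) := by
  have hy1 : -0.613 ≤ sy κ t := syL_ang2 h 0.48 0.5 0.9084 0.726 0.7478 0.664 0.613 1.84595 0.54172 hk1 hk2 (by linarith) (by norm_num) (by norm_num) (by norm_num) (by norm_num)
    (cos_ge_num (by norm_num) (by norm_num)) (sin_le_num (by norm_num) (by norm_num))
    (expn_ge (by norm_num) (by norm_num)) (expm_ge (by norm_num) (by norm_num) (by norm_num) (by norm_num)) (by norm_num) (by norm_num) (by norm_num)
    (by norm_num) (by norm_num) (by norm_num)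
  have hy2 : sy κ t ≤ -0.562 := syL_le h 0.48 0.5 0.89339 0.562 0.57006 0.57007 0.64074 0.66746 hk1 hk2 (by linarith) (by norm_num) (by norm_num) (by norm_num)
    (expm_ge (by norm_num) (by norm_num) (by norm_num) (by norm_num)) (expm_le (by norm_num) (by norm_num) (by norm_num)) (by norm_num)
    (by norm_num) (by norm_num) (by norm_num) (by norm_num) (by norm_num) (by norm_num)
  exact ⟨hy1, hy2⟩

theorem pc1 {β r h t κ : ℝ} (hh : h = 2 * Real.pi / (3 : ℕ)) (hβ : 0 < β) (hr : 10 ≤ r) (hκ : κ = β * r)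
    (hk1 : 0.48 ≤ κ) (hk2 : κ ≤ 0.5) (hT1 : 1.186 ≤ t + κ) (hT2 : t + κ ≤ 1.201) :
    Xf β r h t 0 ≠ 0 ∧ r * 0.1001 ≤ (Ld β r h t 1 - Ld β r h t 0).im ∧
      ‖(((-1 : ℤ) : ℂ) - 1) * Ld β r h t 0 - ((-1 : ℤ) : ℂ) * Ld β r h t 1‖ ≤ r * 8.01 := by
  obtain ⟨q1, q2, q3⟩ := b3_h hh
  have hR0 := b3_R0 hβ hr hκ
  have hR := b3_R hβ hr hκ (by linarith)
  have hD1 : DomR κ t := b3_dom (by linarith) (by linarith) (Or.inl (by linarith))
  have hD0 : DomR κ (t - h) := b3_dom (by linarith) (by linarith) (Or.inl (by linarith))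
  have y1 := yA1 hD1 hk1 hk2 (by linarith) (by linarith)
  have y0 := yB1 hD0 hk1 hk2 (by linarith) (by linarith)
  have j1 := T3_09_d1_0 hD1 hβ hk1 hk2 (by linarith) (by linarith) hR0 hR
  exact b3_piece 0.48 0.5 0.285 0.299 0.292 0.74676 0.75202 0.74156 0.3761 1.7002 1.7355 0.04 0.03 0.03 0.7732 0.2231 0 0 (-0.613) (-0.562) (-0.588) 1.80037 1.84597 0.923 0.5581 0.03 0.3 0.185 12.27 15.1597 0.2849 0.4712 0.1001 8.01
    hβ hr hκ (by norm_num) hk1 hk2 hD1 hD0 j1 (j1 _ (by rw [sub_self, norm_zero]; norm_num))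
    (T3_09_d0_0 hD0 hβ hk1 hk2 (by linarith) (by linarith) hR0 hR)
    (T3_09_p0 hD0 hβ hk1 hk2 (by linarith) (by linarith) hR0 hR)
    y1.1 y1.2 y0.1 y0.2 (by norm_num)
    (ex_um 0.285 (by norm_num) (by norm_num) (by norm_num) (by norm_num)) (ex_um 0.299 (by norm_num) (by norm_num) (by norm_num) (by norm_num)) (ex_lm 0.292 (by norm_num) (by norm_num) (by norm_num) (by norm_num) (by norm_num)) (by norm_num) (by norm_num) (by norm_num) (by norm_num) (by norm_num) (by norm_num) (by norm_num) (by norm_num)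
    (by norm_num) (by norm_num) (by norm_num) (by norm_num) (by norm_num) (by norm_num) (by norm_num) (by norm_num) (by norm_num) (by norm_num)
    (ex_up 0.613 (by norm_num) (by norm_num) (by norm_num) (by norm_num)) (ex_lp 0.588 (by norm_num) (by norm_num) (by norm_num)) (by norm_num) (by norm_num) (by norm_num) (by norm_num) (by norm_num) (by norm_num)
    (by norm_num) (by norm_num) (by norm_num) (by norm_num) (by norm_num) (by norm_num) (by norm_num) (by norm_num) (by norm_num) (by norm_num) (by norm_num)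
    (by norm_num) (by norm_num) (by norm_num) (by norm_num)

private theorem yA2 {κ t : ℝ} (h : DomR κ t) (hk1 : 0.48 ≤ κ) (hk2 : κ ≤ 0.5) (ht1 : 1.201 ≤ t + κ) (ht2 : t + κ ≤ 1.218) :
    0.287 ≤ sy κ t ∧ sy κ t ≤ 0.301 := by
  have hy1 : 0.287 ≤ sy κ t := syR_ge h 0.48 0.5 1.201 0.287 1.33242 1.33243 0.7648 0.79669 hk1 hk2 (by linarith) (by norm_num) (by norm_num)
    (expn_ge (by norm_num) (by norm_num)) (expn_le (by norm_num) (by norm_num) (by norm_num)) (by norm_num)
    (by norm_num) (by norm_num) (by norm_num) (by norm_num) (by norm_num) (by norm_num)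
  have hy2 : sy κ t ≤ 0.301 := syR_ang2 h 0.48 0.5 1.218 0.949 0.5835 0.813 0.301 0.74008 1.3512 hk1 hk2 (by linarith) (by norm_num) (by norm_num) (by norm_num)
    (cos_le_num (by norm_num)) (sin_le_num (by norm_num) (by norm_num)) (expm_le (by norm_num) (by norm_num) (by norm_num))
    (expn_ge (by norm_num) (by norm_num)) (by norm_num) (by norm_num) (by norm_num) (by norm_num) (by norm_num)
  exact ⟨hy1, hy2⟩

private theorem yB2 {κ t : ℝ} (h : DomR κ t) (hk1 : 0.48 ≤ κ) (hk2 : κ ≤ 0.5) (ht1 : -0.8934 ≤ t + κ) (ht2 : t + κ ≤ -0.87639) :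
    (-0.597) ≤ sy κ t ∧ sy κ t ≤ (-0.545) := by
  have hy1 : -0.597 ≤ sy κ t := syL_ang2 h 0.48 0.5 0.8934 0.717 0.7537 0.6572 0.597 1.81665 0.55046 hk1 hk2 (by linarith) (by norm_num) (by norm_num) (by norm_num) (by norm_num)
    (cos_ge_num (by norm_num) (by norm_num)) (sin_le_num (by norm_num) (by norm_num))
    (expn_ge (by norm_num) (by norm_num)) (expm_ge (by norm_num) (by norm_num) (by norm_num) (by norm_num)) (by norm_num) (by norm_num) (by norm_num)
    (by norm_num) (by norm_num) (by norm_num)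
  have hy2 : sy κ t ≤ -0.545 := syL_le h 0.48 0.5 0.87639 0.545 0.57984 0.57985 0.63202 0.65838 hk1 hk2 (by linarith) (by norm_num) (by norm_num) (by norm_num)
    (expm_ge (by norm_num) (by norm_num) (by norm_num) (by norm_num)) (expm_le (by norm_num) (by norm_num) (by norm_num)) (by norm_num)
    (by norm_num) (by norm_num) (by norm_num) (by norm_num) (by norm_num) (by norm_num)
  exact ⟨hy1, hy2⟩

theorem pc2 {β r h t κ : ℝ} (hh : h = 2 * Real.pi / (3 : ℕ)) (hβ : 0 < β) (hr : 10 ≤ r) (hκ : κ = β * r)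
    (hk1 : 0.48 ≤ κ) (hk2 : κ ≤ 0.5) (hT1 : 1.201 ≤ t + κ) (hT2 : t + κ ≤ 1.218) :
    Xf β r h t 0 ≠ 0 ∧ r * 0.1001 ≤ (Ld β r h t 1 - Ld β r h t 0).im ∧
      ‖(((-1 : ℤ) : ℂ) - 1) * Ld β r h t 0 - ((-1 : ℤ) : ℂ) * Ld β r h t 1‖ ≤ r * 8.01 := by
  obtain ⟨q1, q2, q3⟩ := b3_h hh
  have hR0 := b3_R0 hβ hr hκ
  have hR := b3_R hβ hr hκ (by linarith)
  have hD1 : DomR κ t := b3_dom (by linarith) (by linarith) (Or.inl (by linarith))
  have hD0 : DomR κ (t - h) := b3_dom (by linarith) (by linarith) (Or.inl (by linarith))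
  have y1 := yA2 hD1 hk1 hk2 (by linarith) (by linarith)
  have y0 := yB2 hD0 hk1 hk2 (by linarith) (by linarith)
  have j1 := T3_09_d1_1 hD1 hβ hk1 hk2 (by linarith) (by linarith) hR0 hR
  exact b3_piece 0.48 0.5 0.287 0.301 0.294 0.74527 0.75052 0.74008 0.3753 1.7037 1.739 0.04 0.035 0.035 0.9068 0.2608 0 0 (-0.597) (-0.545) (-0.571) 1.77003 1.81667 0.9084 0.5653 0.04 0.28 0.185 8.589 10.3773 0.3049 0.49 0.1001 8.01
    hβ hr hκ (by norm_num) hk1 hk2 hD1 hD0 j1 (j1 _ (by rw [sub_self, norm_zero]; norm_num))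
    (T3_09_d0_1 hD0 hβ hk1 hk2 (by linarith) (by linarith) hR0 hR)
    (T3_09_p0 hD0 hβ hk1 hk2 (by linarith) (by linarith) hR0 hR)
    y1.1 y1.2 y0.1 y0.2 (by norm_num)
    (ex_um 0.287 (by norm_num) (by norm_num) (by norm_num) (by norm_num)) (ex_um 0.301 (by norm_num) (by norm_num) (by norm_num) (by norm_num)) (ex_lm 0.294 (by norm_num) (by norm_num) (by norm_num) (by norm_num) (by norm_num)) (by norm_num) (by norm_num) (by norm_num) (by norm_num) (by norm_num) (by norm_num) (by norm_num) (by norm_num)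
    (by norm_num) (by norm_num) (by norm_num) (by norm_num) (by norm_num) (by norm_num) (by norm_num) (by norm_num) (by norm_num) (by norm_num)
    (ex_up 0.597 (by norm_num) (by norm_num) (by norm_num) (by norm_num)) (ex_lp 0.571 (by norm_num) (by norm_num) (by norm_num)) (by norm_num) (by norm_num) (by norm_num) (by norm_num) (by norm_num) (by norm_num)
    (by norm_num) (by norm_num) (by norm_num) (by norm_num) (by norm_num) (by norm_num) (by norm_num) (by norm_num) (by norm_num) (by norm_num) (by norm_num)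
    (by norm_num) (by norm_num) (by norm_num) (by norm_num)

private theorem yA3 {κ t : ℝ} (h : DomR κ t) (hk1 : 0.48 ≤ κ) (hk2 : κ ≤ 0.5) (ht1 : 1.218 ≤ t + κ) (ht2 : t + κ ≤ 1.236) :
    0.287 ≤ sy κ t ∧ sy κ t ≤ 0.303 := by
  have hy1 : 0.287 ≤ sy κ t := syR_ge h 0.48 0.5 1.218 0.287 1.33242 1.33243 0.7648 0.79669 hk1 hk2 (by linarith) (by norm_num) (by norm_num)
    (expn_ge (by norm_num) (by norm_num)) (expn_le (by norm_num) (by norm_num) (by norm_num)) (by norm_num)
    (by norm_num) (by norm_num) (by norm_num) (by norm_num) (by norm_num) (by norm_num)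
  have hy2 : sy κ t ≤ 0.303 := syR_ang2 h 0.48 0.5 1.236 0.961 0.5738 0.82 0.303 0.7386 1.35391 hk1 hk2 (by linarith) (by norm_num) (by norm_num) (by norm_num)
    (cos_le_num (by norm_num)) (sin_le_num (by norm_num) (by norm_num)) (expm_le (by norm_num) (by norm_num) (by norm_num))
    (expn_ge (by norm_num) (by norm_num)) (by norm_num) (by norm_num) (by norm_num) (by norm_num) (by norm_num)
  exact ⟨hy1, hy2⟩

private theorem yB3 {κ t : ℝ} (h : DomR κ t) (hk1 : 0.48 ≤ κ) (hk2 : κ ≤ 0.5) (ht1 : -0.8764 ≤ t + κ) (ht2 : t + κ ≤ -0.85839) :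
    (-0.578) ≤ sy κ t ∧ sy κ t ≤ (-0.528) := by
  have hy1 : -0.578 ≤ sy κ t := syL_ang2 h 0.48 0.5 0.8764 0.705 0.7616 0.6481 0.578 1.78246 0.56101 hk1 hk2 (by linarith) (by norm_num) (by norm_num) (by norm_num) (by norm_num)
    (cos_ge_num (by norm_num) (by norm_num)) (sin_le_num (by norm_num) (by norm_num))
    (expn_ge (by norm_num) (by norm_num)) (expm_ge (by norm_num) (by norm_num) (by norm_num) (by norm_num)) (by norm_num) (by norm_num) (by norm_num)
    (by norm_num) (by norm_num) (by norm_num)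
  have hy2 : sy κ t ≤ -0.528 := syL_le h 0.48 0.5 0.85839 0.528 0.58978 0.58979 0.6228 0.64877 hk1 hk2 (by linarith) (by norm_num) (by norm_num) (by norm_num)
    (expm_ge (by norm_num) (by norm_num) (by norm_num) (by norm_num)) (expm_le (by norm_num) (by norm_num) (by norm_num)) (by norm_num)
    (by norm_num) (by norm_num) (by norm_num) (by norm_num) (by norm_num) (by norm_num)
  exact ⟨hy1, hy2⟩

theorem pc3 {β r h t κ : ℝ} (hh : h = 2 * Real.pi / (3 : ℕ)) (hβ : 0 < β) (hr : 10 ≤ r) (hκ : κ = β * r)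
    (hk1 : 0.48 ≤ κ) (hk2 : κ ≤ 0.5) (hT1 : 1.218 ≤ t + κ) (hT2 : t + κ ≤ 1.236) :
    Xf β r h t 0 ≠ 0 ∧ r * 0.1001 ≤ (Ld β r h t 1 - Ld β r h t 0).im ∧
      ‖(((-1 : ℤ) : ℂ) - 1) * Ld β r h t 0 - ((-1 : ℤ) : ℂ) * Ld β r h t 1‖ ≤ r * 8.01 := by
  obtain ⟨q1, q2, q3⟩ := b3_h hh
  have hR0 := b3_R0 hβ hr hκ
  have hR := b3_R hβ hr hκ (by linarith)
  have hD1 : DomR κ t := b3_dom (by linarith) (by linarith) (Or.inl (by linarith))
  have hD0 : DomR κ (t - h) := b3_dom (by linarith) (by linarith) (Or.inl (by linarith))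
  have y1 := yA3 hD1 hk1 hk2 (by linarith) (by linarith)
  have y0 := yB3 hD0 hk1 hk2 (by linarith) (by linarith)
  have j1 := T3_09_d1_1 hD1 hβ hk1 hk2 (by linarith) (by linarith) hR0 hR
  exact b3_piece 0.48 0.5 0.287 0.303 0.295 0.74453 0.75052 0.7386 0.3753 1.7037 1.7424 0.04 0.035 0.035 0.9068 0.2608 0 0 (-0.578) (-0.528) (-0.553) 1.73845 1.78247 0.8913 0.5751 0.04 0.28 0.185 8.589 10.0948 0.3208 0.4972 0.1001 8.01
    hβ hr hκ (by norm_num) hk1 hk2 hD1 hD0 j1 (j1 _ (by rw [sub_self, norm_zero]; norm_num))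
    (T3_09_d0_1 hD0 hβ hk1 hk2 (by linarith) (by linarith) hR0 hR)
    (T3_09_p0 hD0 hβ hk1 hk2 (by linarith) (by linarith) hR0 hR)
    y1.1 y1.2 y0.1 y0.2 (by norm_num)
    (ex_um 0.287 (by norm_num) (by norm_num) (by norm_num) (by norm_num)) (ex_um 0.303 (by norm_num) (by norm_num) (by norm_num) (by norm_num)) (ex_lm 0.295 (by norm_num) (by norm_num) (by norm_num) (by norm_num) (by norm_num)) (by norm_num) (by norm_num) (by norm_num) (by norm_num) (by norm_num) (by norm_num) (by norm_num) (by norm_num)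
    (by norm_num) (by norm_num) (by norm_num) (by norm_num) (by norm_num) (by norm_num) (by norm_num) (by norm_num) (by norm_num) (by norm_num)
    (ex_up 0.578 (by norm_num) (by norm_num) (by norm_num) (by norm_num)) (ex_lp 0.553 (by norm_num) (by norm_num) (by norm_num)) (by norm_num) (by norm_num) (by norm_num) (by norm_num) (by norm_num) (by norm_num)
    (by norm_num) (by norm_num) (by norm_num) (by norm_num) (by norm_num) (by norm_num) (by norm_num) (by norm_num) (by norm_num) (by norm_num) (by norm_num)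
    (by norm_num) (by norm_num) (by norm_num) (by norm_num)

private theorem yA4 {κ t : ℝ} (h : DomR κ t) (hk1 : 0.48 ≤ κ) (hk2 : κ ≤ 0.5) (ht1 : 1.236 ≤ t + κ) (ht2 : t + κ ≤ 1.254) :
    0.287 ≤ sy κ t ∧ sy κ t ≤ 0.305 := by
  have hy1 : 0.287 ≤ sy κ t := syR_ge h 0.48 0.5 1.236 0.287 1.33242 1.33243 0.7648 0.79669 hk1 hk2 (by linarith) (by norm_num) (by norm_num)
    (expn_ge (by norm_num) (by norm_num)) (expn_le (by norm_num) (by norm_num) (by norm_num)) (by norm_num)
    (by norm_num) (by norm_num) (by norm_num) (by norm_num) (by norm_num) (by norm_num)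
  have hy2 : sy κ t ≤ 0.305 := syR_ang2 h 0.48 0.5 1.254 0.974 0.5632 0.8274 0.305 0.73713 1.35662 hk1 hk2 (by linarith) (by norm_num) (by norm_num) (by norm_num)
    (cos_le_num (by norm_num)) (sin_le_num (by norm_num) (by norm_num)) (expm_le (by norm_num) (by norm_num) (by norm_num))
    (expn_ge (by norm_num) (by norm_num)) (by norm_num) (by norm_num) (by norm_num) (by norm_num) (by norm_num)
  exact ⟨hy1, hy2⟩

private theorem yB4 {κ t : ℝ} (h : DomR κ t) (hk1 : 0.48 ≤ κ) (hk2 : κ ≤ 0.5) (ht1 : -0.8584 ≤ t + κ) (ht2 : t + κ ≤ -0.84039) :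
    (-0.559) ≤ sy κ t ∧ sy κ t ≤ (-0.51) := by
  have hy1 : -0.559 ≤ sy κ t := syL_ang2 h 0.48 0.5 0.8584 0.693 0.7693 0.6389 0.559 1.74891 0.57178 hk1 hk2 (by linarith) (by norm_num) (by norm_num) (by norm_num) (by norm_num)
    (cos_ge_num (by norm_num) (by norm_num)) (sin_le_num (by norm_num) (by norm_num))
    (expn_ge (by norm_num) (by norm_num)) (expm_ge (by norm_num) (by norm_num) (by norm_num) (by norm_num)) (by norm_num) (by norm_num) (by norm_num)
    (by norm_num) (by norm_num) (by norm_num)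
  have hy2 : sy κ t ≤ -0.51 := syL_le h 0.48 0.5 0.84039 0.51 0.60049 0.6005 0.61249 0.63804 hk1 hk2 (by linarith) (by norm_num) (by norm_num) (by norm_num)
    (expm_ge (by norm_num) (by norm_num) (by norm_num) (by norm_num)) (expm_le (by norm_num) (by norm_num) (by norm_num)) (by norm_num)
    (by norm_num) (by norm_num) (by norm_num) (by norm_num) (by norm_num) (by norm_num)
  exact ⟨hy1, hy2⟩

theorem pc4 {β r h t κ : ℝ} (hh : h = 2 * Real.pi / (3 : ℕ)) (hβ : 0 < β) (hr : 10 ≤ r) (hκ : κ = β * r)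
    (hk1 : 0.48 ≤ κ) (hk2 : κ ≤ 0.5) (hT1 : 1.236 ≤ t + κ) (hT2 : t + κ ≤ 1.254) :
    Xf β r h t 0 ≠ 0 ∧ r * 0.1001 ≤ (Ld β r h t 1 - Ld β r h t 0).im ∧
      ‖(((-1 : ℤ) : ℂ) - 1) * Ld β r h t 0 - ((-1 : ℤ) : ℂ) * Ld β r h t 1‖ ≤ r * 8.01 := by
  obtain ⟨q1, q2, q3⟩ := b3_h hh
  have hR0 := b3_R0 hβ hr hκ
  have hR := b3_R hβ hr hκ (by linarith)
  have hD1 : DomR κ t := b3_dom (by linarith) (by linarith) (Or.inl (by linarith))
  have hD0 : DomR κ (t - h) := b3_dom (by linarith) (by linarith) (Or.inl (by linarith))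
  have y1 := yA4 hD1 hk1 hk2 (by linarith) (by linarith)
  have y0 := yB4 hD0 hk1 hk2 (by linarith) (by linarith)
  have j1 := T3_09_d1_1 hD1 hβ hk1 hk2 (by linarith) (by linarith) hR0 hR
  exact b3_piece 0.48 0.5 0.287 0.305 0.296 0.74378 0.75052 0.73713 0.3753 1.7037 1.7459 0.04 0.035 0.035 0.9068 0.2608 0 0 (-0.559) (-0.51) (-0.534) 1.70573 1.74893 0.8745 0.5858 0.04 0.28 0.185 8.589 9.8136 0.3365 0.5024 0.1001 8.01
    hβ hr hκ (by norm_num) hk1 hk2 hD1 hD0 j1 (j1 _ (by rw [sub_self, norm_zero]; norm_num))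
    (T3_09_d0_1 hD0 hβ hk1 hk2 (by linarith) (by linarith) hR0 hR)
    (T3_09_p0 hD0 hβ hk1 hk2 (by linarith) (by linarith) hR0 hR)
    y1.1 y1.2 y0.1 y0.2 (by norm_num)
    (ex_um 0.287 (by norm_num) (by norm_num) (by norm_num) (by norm_num)) (ex_um 0.305 (by norm_num) (by norm_num) (by norm_num) (by norm_num)) (ex_lm 0.296 (by norm_num) (by norm_num) (by norm_num) (by norm_num) (by norm_num)) (by norm_num) (by norm_num) (by norm_num) (by norm_num) (by norm_num) (by norm_num) (by norm_num) (by norm_num)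
    (by norm_num) (by norm_num) (by norm_num) (by norm_num) (by norm_num) (by norm_num) (by norm_num) (by norm_num) (by norm_num) (by norm_num)
    (ex_up 0.559 (by norm_num) (by norm_num) (by norm_num) (by norm_num)) (ex_lp 0.534 (by norm_num) (by norm_num) (by norm_num)) (by norm_num) (by norm_num) (by norm_num) (by norm_num) (by norm_num) (by norm_num)
    (by norm_num) (by norm_num) (by norm_num) (by norm_num) (by norm_num) (by norm_num) (by norm_num) (by norm_num) (by norm_num) (by norm_num) (by norm_num)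
    (by norm_num) (by norm_num) (by norm_num) (by norm_num)

private theorem yA5 {κ t : ℝ} (h : DomR κ t) (hk1 : 0.48 ≤ κ) (hk2 : κ ≤ 0.5) (ht1 : 1.254 ≤ t + κ) (ht2 : t + κ ≤ 1.271) :
    0.287 ≤ sy κ t ∧ sy κ t ≤ 0.307 := by
  have hy1 : 0.287 ≤ sy κ t := syR_ge h 0.48 0.5 1.254 0.287 1.33242 1.33243 0.7648 0.79669 hk1 hk2 (by linarith) (by norm_num) (by norm_num)
    (expn_ge (by norm_num) (by norm_num)) (expn_le (by norm_num) (by norm_num) (by norm_num)) (by norm_num)
    (by norm_num) (by norm_num) (by norm_num) (by norm_num) (by norm_num) (by norm_num)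
  have hy2 : sy κ t ≤ 0.307 := syR_ang2 h 0.48 0.5 1.271 0.987 0.5525 0.8346 0.307 0.73566 1.35934 hk1 hk2 (by linarith) (by norm_num) (by norm_num) (by norm_num)
    (cos_le_num (by norm_num)) (sin_le_num (by norm_num) (by norm_num)) (expm_le (by norm_num) (by norm_num) (by norm_num))
    (expn_ge (by norm_num) (by norm_num)) (by norm_num) (by norm_num) (by norm_num) (by norm_num) (by norm_num)
  exact ⟨hy1, hy2⟩

private theorem yB5 {κ t : ℝ} (h : DomR κ t) (hk1 : 0.48 ≤ κ) (hk2 : κ ≤ 0.5) (ht1 : -0.8404 ≤ t + κ) (ht2 : t + κ ≤ -0.82339) :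
    (-0.54) ≤ sy κ t ∧ sy κ t ≤ (-0.495) := by
  have hy1 : -0.54 ≤ sy κ t := syL_ang2 h 0.48 0.5 0.8404 0.68 0.7775 0.6289 0.54 1.716 0.58274 hk1 hk2 (by linarith) (by norm_num) (by norm_num) (by norm_num) (by norm_num)
    (cos_ge_num (by norm_num) (by norm_num)) (sin_le_num (by norm_num) (by norm_num))
    (expn_ge (by norm_num) (by norm_num)) (expm_ge (by norm_num) (by norm_num) (by norm_num) (by norm_num)) (by norm_num) (by norm_num) (by norm_num)
    (by norm_num) (by norm_num) (by norm_num)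
  have hy2 : sy κ t ≤ -0.495 := syL_le h 0.48 0.5 0.82339 0.495 0.60957 0.60958 0.60347 0.62863 hk1 hk2 (by linarith) (by norm_num) (by norm_num) (by norm_num)
    (expm_ge (by norm_num) (by norm_num) (by norm_num) (by norm_num)) (expm_le (by norm_num) (by norm_num) (by norm_num)) (by norm_num)
    (by norm_num) (by norm_num) (by norm_num) (by norm_num) (by norm_num) (by norm_num)
  exact ⟨hy1, hy2⟩

theorem pc5 {β r h t κ : ℝ} (hh : h = 2 * Real.pi / (3 : ℕ)) (hβ : 0 < β) (hr : 10 ≤ r) (hκ : κ = β * r)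
    (hk1 : 0.48 ≤ κ) (hk2 : κ ≤ 0.5) (hT1 : 1.254 ≤ t + κ) (hT2 : t + κ ≤ 1.271) :
    Xf β r h t 0 ≠ 0 ∧ r * 0.1001 ≤ (Ld β r h t 1 - Ld β r h t 0).im ∧
      ‖(((-1 : ℤ) : ℂ) - 1) * Ld β r h t 0 - ((-1 : ℤ) : ℂ) * Ld β r h t 1‖ ≤ r * 8.01 := by
  obtain ⟨q1, q2, q3⟩ := b3_h hh
  have hR0 := b3_R0 hβ hr hκ
  have hR := b3_R hβ hr hκ (by linarith)
  have hD1 : DomR κ t := b3_dom (by linarith) (by linarith) (Or.inl (by linarith))
  have hD0 : DomR κ (t - h) := b3_dom (by linarith) (by linarith) (Or.inl (by linarith))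
  have y1 := yA5 hD1 hk1 hk2 (by linarith) (by linarith)
  have y0 := yB5 hD0 hk1 hk2 (by linarith) (by linarith)
  have j1 := T3_09_d1_1 hD1 hβ hk1 hk2 (by linarith) (by linarith) hR0 hR
  exact b3_piece 0.48 0.5 0.287 0.307 0.297 0.74304 0.75052 0.73566 0.3753 1.7037 1.7493 0.04 0.035 0.035 0.9068 0.2608 0 0 (-0.54) (-0.495) (-0.517) 1.67698 1.71601 0.8581 0.5977 0.04 0.28 0.185 8.589 9.5333 0.345 0.4954 0.1001 8.01
    hβ hr hκ (by norm_num) hk1 hk2 hD1 hD0 j1 (j1 _ (by rw [sub_self, norm_zero]; norm_num))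
    (T3_09_d0_1 hD0 hβ hk1 hk2 (by linarith) (by linarith) hR0 hR)
    (T3_09_p0 hD0 hβ hk1 hk2 (by linarith) (by linarith) hR0 hR)
    y1.1 y1.2 y0.1 y0.2 (by norm_num)
    (ex_um 0.287 (by norm_num) (by norm_num) (by norm_num) (by norm_num)) (ex_um 0.307 (by norm_num) (by norm_num) (by norm_num) (by norm_num)) (ex_lm 0.297 (by norm_num) (by norm_num) (by norm_num) (by norm_num) (by norm_num)) (by norm_num) (by norm_num) (by norm_num) (by norm_num) (by norm_num) (by norm_num) (by norm_num) (by norm_num)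
    (by norm_num) (by norm_num) (by norm_num) (by norm_num) (by norm_num) (by norm_num) (by norm_num) (by norm_num) (by norm_num) (by norm_num)
    (ex_up 0.54 (by norm_num) (by norm_num) (by norm_num) (by norm_num)) (ex_lp 0.517 (by norm_num) (by norm_num) (by norm_num)) (by norm_num) (by norm_num) (by norm_num) (by norm_num) (by norm_num) (by norm_num)
    (by norm_num) (by norm_num) (by norm_num) (by norm_num) (by norm_num) (by norm_num) (by norm_num) (by norm_num) (by norm_num) (by norm_num) (by norm_num)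
    (by norm_num) (by norm_num) (by norm_num) (by norm_num)

private theorem yA6 {κ t : ℝ} (h : DomR κ t) (hk1 : 0.48 ≤ κ) (hk2 : κ ≤ 0.5) (ht1 : 1.271 ≤ t + κ) (ht2 : t + κ ≤ 1.29) :
    0.287 ≤ sy κ t ∧ sy κ t ≤ 0.31 := by
  have hy1 : 0.287 ≤ sy κ t := syR_ge h 0.48 0.5 1.271 0.287 1.33242 1.33243 0.7648 0.79669 hk1 hk2 (by linarith) (by norm_num) (by norm_num)
    (expn_ge (by norm_num) (by norm_num)) (expn_le (by norm_num) (by norm_num) (by norm_num)) (by norm_num)
    (by norm_num) (by norm_num) (by norm_num) (by norm_num) (by norm_num) (by norm_num)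
  have hy2 : sy κ t ≤ 0.31 := syR_ang2 h 0.48 0.5 1.29 1.006 0.5367 0.845 0.31 0.73345 1.36342 hk1 hk2 (by linarith) (by norm_num) (by norm_num) (by norm_num)
    (cos_le_num (by norm_num)) (sin_le_num (by norm_num) (by norm_num)) (expm_le (by norm_num) (by norm_num) (by norm_num))
    (expn_ge (by norm_num) (by norm_num)) (by norm_num) (by norm_num) (by norm_num) (by norm_num) (by norm_num)
  exact ⟨hy1, hy2⟩

private theorem yB6 {κ t : ℝ} (h : DomR κ t) (hk1 : 0.48 ≤ κ) (hk2 : κ ≤ 0.5) (ht1 : -0.8234 ≤ t + κ) (ht2 : t + κ ≤ -0.80439) :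
    (-0.523) ≤ sy κ t ∧ sy κ t ≤ (-0.477) := by
  have hy1 : -0.523 ≤ sy κ t := syL_ang2 h 0.48 0.5 0.8234 0.668 0.785 0.6195 0.523 1.68707 0.59273 hk1 hk2 (by linarith) (by norm_num) (by norm_num) (by norm_num) (by norm_num)
    (cos_ge_num (by norm_num) (by norm_num)) (sin_le_num (by norm_num) (by norm_num))
    (expn_ge (by norm_num) (by norm_num)) (expm_ge (by norm_num) (by norm_num) (by norm_num) (by norm_num)) (by norm_num) (by norm_num) (by norm_num)
    (by norm_num) (by norm_num) (by norm_num)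
  have hy2 : sy κ t ≤ -0.477 := syL_le h 0.48 0.5 0.80439 0.477 0.62064 0.62065 0.59209 0.61678 hk1 hk2 (by linarith) (by norm_num) (by norm_num) (by norm_num)
    (expm_ge (by norm_num) (by norm_num) (by norm_num) (by norm_num)) (expm_le (by norm_num) (by norm_num) (by norm_num)) (by norm_num)
    (by norm_num) (by norm_num) (by norm_num) (by norm_num) (by norm_num) (by norm_num)
  exact ⟨hy1, hy2⟩

theorem pc6 {β r h t κ : ℝ} (hh : h = 2 * Real.pi / (3 : ℕ)) (hβ : 0 < β) (hr : 10 ≤ r) (hκ : κ = β * r)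
    (hk1 : 0.48 ≤ κ) (hk2 : κ ≤ 0.5) (hT1 : 1.271 ≤ t + κ) (hT2 : t + κ ≤ 1.29) :
    Xf β r h t 0 ≠ 0 ∧ r * 0.1001 ≤ (Ld β r h t 1 - Ld β r h t 0).im ∧
      ‖(((-1 : ℤ) : ℂ) - 1) * Ld β r h t 0 - ((-1 : ℤ) : ℂ) * Ld β r h t 1‖ ≤ r * 8.01 := by
  obtain ⟨q1, q2, q3⟩ := b3_h hh
  have hR0 := b3_R0 hβ hr hκ
  have hR := b3_R hβ hr hκ (by linarith)
  have hD1 : DomR κ t := b3_dom (by linarith) (by linarith) (Or.inl (by linarith))
  have hD0 : DomR κ (t - h) := b3_dom (by linarith) (by linarith) (Or.inl (by linarith))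
  have y1 := yA6 hD1 hk1 hk2 (by linarith) (by linarith)
  have y0 := yB6 hD0 hk1 hk2 (by linarith) (by linarith)
  have j1 := T3_09_d1_2 hD1 hβ hk1 hk2 (by linarith) (by linarith) hR0 hR
  exact b3_piece 0.48 0.5 0.287 0.31 0.298 0.7423 0.75052 0.73345 0.3753 1.7037 1.7545 0.05 0.145 0.145 3.3919 0.9753 0 0 (-0.523) (-0.477) (-0.5) 1.64871 1.68709 0.8436 0.609 0.06 0.23 0.185 4.7035 5.0846 0.3588 0.4971 0.1001 8.01
    hβ hr hκ (by norm_num) hk1 hk2 hD1 hD0 j1 (j1 _ (by rw [sub_self, norm_zero]; norm_num))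
    (T3_09_d0_2 hD0 hβ hk1 hk2 (by linarith) (by linarith) hR0 hR)
    (T3_09_p0 hD0 hβ hk1 hk2 (by linarith) (by linarith) hR0 hR)
    y1.1 y1.2 y0.1 y0.2 (by norm_num)
    (ex_um 0.287 (by norm_num) (by norm_num) (by norm_num) (by norm_num)) (ex_um 0.31 (by norm_num) (by norm_num) (by norm_num) (by norm_num)) (ex_lm 0.298 (by norm_num) (by norm_num) (by norm_num) (by norm_num) (by norm_num)) (by norm_num) (by norm_num) (by norm_num) (by norm_num) (by norm_num) (by norm_num) (by norm_num) (by norm_num)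
    (by norm_num) (by norm_num) (by norm_num) (by norm_num) (by norm_num) (by norm_num) (by norm_num) (by norm_num) (by norm_num) (by norm_num)
    (ex_up 0.523 (by norm_num) (by norm_num) (by norm_num) (by norm_num)) (ex_lp 0.5 (by norm_num) (by norm_num) (by norm_num)) (by norm_num) (by norm_num) (by norm_num) (by norm_num) (by norm_num) (by norm_num)
    (by norm_num) (by norm_num) (by norm_num) (by norm_num) (by norm_num) (by norm_num) (by norm_num) (by norm_num) (by norm_num) (by norm_num) (by norm_num)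
    (by norm_num) (by norm_num) (by norm_num) (by norm_num)

private theorem yA7 {κ t : ℝ} (h : DomR κ t) (hk1 : 0.48 ≤ κ) (hk2 : κ ≤ 0.5) (ht1 : 1.29 ≤ t + κ) (ht2 : t + κ ≤ 1.308) :
    0.287 ≤ sy κ t ∧ sy κ t ≤ 0.312 := by
  have hy1 : 0.287 ≤ sy κ t := syR_ge h 0.48 0.5 1.29 0.287 1.33242 1.33243 0.7648 0.79669 hk1 hk2 (by linarith) (by norm_num) (by norm_num)
    (expn_ge (by norm_num) (by norm_num)) (expn_le (by norm_num) (by norm_num) (by norm_num)) (by norm_num)
    (by norm_num) (by norm_num) (by norm_num) (by norm_num) (by norm_num) (by norm_num)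
  have hy2 : sy κ t ≤ 0.312 := syR_ang2 h 0.48 0.5 1.308 1.02 0.525 0.8524 0.312 0.73199 1.36615 hk1 hk2 (by linarith) (by norm_num) (by norm_num) (by norm_num)
    (cos_le_num (by norm_num)) (sin_le_num (by norm_num) (by norm_num)) (expm_le (by norm_num) (by norm_num) (by norm_num))
    (expn_ge (by norm_num) (by norm_num)) (by norm_num) (by norm_num) (by norm_num) (by norm_num) (by norm_num)
  exact ⟨hy1, hy2⟩

private theorem yB7 {κ t : ℝ} (h : DomR κ t) (hk1 : 0.48 ≤ κ) (hk2 : κ ≤ 0.5) (ht1 : -0.8044 ≤ t + κ) (ht2 : t + κ ≤ -0.78639) :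
    (-0.504) ≤ sy κ t ∧ sy κ t ≤ (-0.461) := by
  have hy1 : -0.504 ≤ sy κ t := syL_ang2 h 0.48 0.5 0.8044 0.654 0.7936 0.6084 0.504 1.65532 0.6041 hk1 hk2 (by linarith) (by norm_num) (by norm_num) (by norm_num) (by norm_num)
    (cos_ge_num (by norm_num) (by norm_num)) (sin_le_num (by norm_num) (by norm_num))
    (expn_ge (by norm_num) (by norm_num)) (expm_ge (by norm_num) (by norm_num) (by norm_num) (by norm_num)) (by norm_num) (by norm_num) (by norm_num)
    (by norm_num) (by norm_num) (by norm_num)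
  have hy2 : sy κ t ≤ -0.461 := syL_le h 0.48 0.5 0.78639 0.461 0.63065 0.63066 0.58145 0.6057 hk1 hk2 (by linarith) (by norm_num) (by norm_num) (by norm_num)
    (expm_ge (by norm_num) (by norm_num) (by norm_num) (by norm_num)) (expm_le (by norm_num) (by norm_num) (by norm_num)) (by norm_num)
    (by norm_num) (by norm_num) (by norm_num) (by norm_num) (by norm_num) (by norm_num)
  exact ⟨hy1, hy2⟩

theorem pc7 {β r h t κ : ℝ} (hh : h = 2 * Real.pi / (3 : ℕ)) (hβ : 0 < β) (hr : 10 ≤ r) (hκ : κ = β * r)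
    (hk1 : 0.48 ≤ κ) (hk2 : κ ≤ 0.5) (hT1 : 1.29 ≤ t + κ) (hT2 : t + κ ≤ 1.308) :
    Xf β r h t 0 ≠ 0 ∧ r * 0.1001 ≤ (Ld β r h t 1 - Ld β r h t 0).im ∧
      ‖(((-1 : ℤ) : ℂ) - 1) * Ld β r h t 0 - ((-1 : ℤ) : ℂ) * Ld β r h t 1‖ ≤ r * 8.01 := by
  obtain ⟨q1, q2, q3⟩ := b3_h hh
  have hR0 := b3_R0 hβ hr hκ
  have hR := b3_R hβ hr hκ (by linarith)
  have hD1 : DomR κ t := b3_dom (by linarith) (by linarith) (Or.inl (by linarith))
  have hD0 : DomR κ (t - h) := b3_dom (by linarith) (by linarith) (Or.inl (by linarith))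
  have y1 := yA7 hD1 hk1 hk2 (by linarith) (by linarith)
  have y0 := yB7 hD0 hk1 hk2 (by linarith) (by linarith)
  have j1 := T3_09_d1_2 hD1 hβ hk1 hk2 (by linarith) (by linarith) hR0 hR
  exact b3_piece 0.48 0.5 0.287 0.312 0.299 0.74155 0.75052 0.73199 0.3753 1.7037 1.758 0.05 0.145 0.145 3.3919 0.9753 0 0 (-0.504) (-0.461) (-0.482) 1.6193 1.65533 0.8277 0.6227 0.06 0.23 0.185 4.7035 4.9335 0.3656 0.486 0.1001 8.01
    hβ hr hκ (by norm_num) hk1 hk2 hD1 hD0 j1 (j1 _ (by rw [sub_self, norm_zero]; norm_num))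
    (T3_09_d0_2 hD0 hβ hk1 hk2 (by linarith) (by linarith) hR0 hR)
    (T3_09_p0 hD0 hβ hk1 hk2 (by linarith) (by linarith) hR0 hR)
    y1.1 y1.2 y0.1 y0.2 (by norm_num)
    (ex_um 0.287 (by norm_num) (by norm_num) (by norm_num) (by norm_num)) (ex_um 0.312 (by norm_num) (by norm_num) (by norm_num) (by norm_num)) (ex_lm 0.299 (by norm_num) (by norm_num) (by norm_num) (by norm_num) (by norm_num)) (by norm_num) (by norm_num) (by norm_num) (by norm_num) (by norm_num) (by norm_num) (by norm_num) (by norm_num)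
    (by norm_num) (by norm_num) (by norm_num) (by norm_num) (by norm_num) (by norm_num) (by norm_num) (by norm_num) (by norm_num) (by norm_num)
    (ex_up 0.504 (by norm_num) (by norm_num) (by norm_num) (by norm_num)) (ex_lp 0.482 (by norm_num) (by norm_num) (by norm_num)) (by norm_num) (by norm_num) (by norm_num) (by norm_num) (by norm_num) (by norm_num)
    (by norm_num) (by norm_num) (by norm_num) (by norm_num) (by norm_num) (by norm_num) (by norm_num) (by norm_num) (by norm_num) (by norm_num) (by norm_num)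
    (by norm_num) (by norm_num) (by norm_num) (by norm_num)

private theorem yA8 {κ t : ℝ} (h : DomR κ t) (hk1 : 0.48 ≤ κ) (hk2 : κ ≤ 0.5) (ht1 : 1.308 ≤ t + κ) (ht2 : t + κ ≤ 1.327) :
    0.287 ≤ sy κ t ∧ sy κ t ≤ 0.314 := by
  have hy1 : 0.287 ≤ sy κ t := syR_ge h 0.48 0.5 1.308 0.287 1.33242 1.33243 0.7648 0.79669 hk1 hk2 (by linarith) (by norm_num) (by norm_num)
    (expn_ge (by norm_num) (by norm_num)) (expn_le (by norm_num) (by norm_num) (by norm_num)) (by norm_num)
    (by norm_num) (by norm_num) (by norm_num) (by norm_num) (by norm_num) (by norm_num)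
  have hy2 : sy κ t ≤ 0.314 := syR_ang2 h 0.48 0.5 1.327 1.034 0.5131 0.8596 0.314 0.73052 1.36888 hk1 hk2 (by linarith) (by norm_num) (by norm_num) (by norm_num)
    (cos_le_num (by norm_num)) (sin_le_num (by norm_num) (by norm_num)) (expm_le (by norm_num) (by norm_num) (by norm_num))
    (expn_ge (by norm_num) (by norm_num)) (by norm_num) (by norm_num) (by norm_num) (by norm_num) (by norm_num)
  exact ⟨hy1, hy2⟩

private theorem yB8 {κ t : ℝ} (h : DomR κ t) (hk1 : 0.48 ≤ κ) (hk2 : κ ≤ 0.5) (ht1 : -0.7864 ≤ t + κ) (ht2 : t + κ ≤ -0.76739) :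
    (-0.487) ≤ sy κ t ∧ sy κ t ≤ (-0.445) := by
  have hy1 : -0.487 ≤ sy κ t := syL_ang2 h 0.48 0.5 0.7864 0.641 0.8014 0.5981 0.487 1.62742 0.61446 hk1 hk2 (by linarith) (by norm_num) (by norm_num) (by norm_num) (by norm_num)
    (cos_ge_num (by norm_num) (by norm_num)) (sin_le_num (by norm_num) (by norm_num))
    (expn_ge (by norm_num) (by norm_num)) (expm_ge (by norm_num) (by norm_num) (by norm_num) (by norm_num)) (by norm_num) (by norm_num) (by norm_num)
    (by norm_num) (by norm_num) (by norm_num)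
  have hy2 : sy κ t ≤ -0.445 := syL_le h 0.48 0.5 0.76739 0.445 0.64082 0.64083 0.57032 0.59411 hk1 hk2 (by linarith) (by norm_num) (by norm_num) (by norm_num)
    (expm_ge (by norm_num) (by norm_num) (by norm_num) (by norm_num)) (expm_le (by norm_num) (by norm_num) (by norm_num)) (by norm_num)
    (by norm_num) (by norm_num) (by norm_num) (by norm_num) (by norm_num) (by norm_num)
  exact ⟨hy1, hy2⟩

theorem pc8 {β r h t κ : ℝ} (hh : h = 2 * Real.pi / (3 : ℕ)) (hβ : 0 < β) (hr : 10 ≤ r) (hκ : κ = β * r)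
    (hk1 : 0.48 ≤ κ) (hk2 : κ ≤ 0.5) (hT1 : 1.308 ≤ t + κ) (hT2 : t + κ ≤ 1.327) :
    Xf β r h t 0 ≠ 0 ∧ r * 0.1001 ≤ (Ld β r h t 1 - Ld β r h t 0).im ∧
      ‖(((-1 : ℤ) : ℂ) - 1) * Ld β r h t 0 - ((-1 : ℤ) : ℂ) * Ld β r h t 1‖ ≤ r * 8.01 := by
  obtain ⟨q1, q2, q3⟩ := b3_h hh
  have hR0 := b3_R0 hβ hr hκ
  have hR := b3_R hβ hr hκ (by linarith)
  have hD1 : DomR κ t := b3_dom (by linarith) (by linarith) (Or.inl (by linarith))
  have hD0 : DomR κ (t - h) := b3_dom (by linarith) (by linarith) (Or.inl (by linarith))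
  have y1 := yA8 hD1 hk1 hk2 (by linarith) (by linarith)
  have y0 := yB8 hD0 hk1 hk2 (by linarith) (by linarith)
  have j1 := T3_09_d1_2 hD1 hβ hk1 hk2 (by linarith) (by linarith) hR0 hR
  exact b3_piece 0.48 0.5 0.287 0.314 0.3 0.74081 0.75052 0.73052 0.3753 1.7037 1.7615 0.05 0.145 0.145 3.3919 0.9753 0 0 (-0.487) (-0.445) (-0.466) 1.5936 1.62743 0.8138 0.6356 0.06 0.23 0.185 4.7035 4.8012 0.3732 0.4779 0.1001 8.01
    hβ hr hκ (by norm_num) hk1 hk2 hD1 hD0 j1 (j1 _ (by rw [sub_self, norm_zero]; norm_num))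
    (T3_09_d0_2 hD0 hβ hk1 hk2 (by linarith) (by linarith) hR0 hR)
    (T3_09_p0 hD0 hβ hk1 hk2 (by linarith) (by linarith) hR0 hR)
    y1.1 y1.2 y0.1 y0.2 (by norm_num)
    (ex_um 0.287 (by norm_num) (by norm_num) (by norm_num) (by norm_num)) (ex_um 0.314 (by norm_num) (by norm_num) (by norm_num) (by norm_num)) (ex_lm 0.3 (by norm_num) (by norm_num) (by norm_num) (by norm_num) (by norm_num)) (by norm_num) (by norm_num) (by norm_num) (by norm_num) (by norm_num) (by norm_num) (by norm_num) (by norm_num)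
    (by norm_num) (by norm_num) (by norm_num) (by norm_num) (by norm_num) (by norm_num) (by norm_num) (by norm_num) (by norm_num) (by norm_num)
    (ex_up 0.487 (by norm_num) (by norm_num) (by norm_num) (by norm_num)) (ex_lp 0.466 (by norm_num) (by norm_num) (by norm_num)) (by norm_num) (by norm_num) (by norm_num) (by norm_num) (by norm_num) (by norm_num)
    (by norm_num) (by norm_num) (by norm_num) (by norm_num) (by norm_num) (by norm_num) (by norm_num) (by norm_num) (by norm_num) (by norm_num) (by norm_num)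
    (by norm_num) (by norm_num) (by norm_num) (by norm_num)

private theorem yA9 {κ t : ℝ} (h : DomR κ t) (hk1 : 0.48 ≤ κ) (hk2 : κ ≤ 0.5) (ht1 : 1.327 ≤ t + κ) (ht2 : t + κ ≤ 1.345) :
    0.287 ≤ sy κ t ∧ sy κ t ≤ 0.316 := by
  have hy1 : 0.287 ≤ sy κ t := syR_ge h 0.48 0.5 1.327 0.287 1.33242 1.33243 0.7648 0.79669 hk1 hk2 (by linarith) (by norm_num) (by norm_num)
    (expn_ge (by norm_num) (by norm_num)) (expn_le (by norm_num) (by norm_num) (by norm_num)) (by norm_num)
    (by norm_num) (by norm_num) (by norm_num) (by norm_num) (by norm_num) (by norm_num)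
  have hy2 : sy κ t ≤ 0.316 := syR_ang2 h 0.48 0.5 1.345 1.048 0.5012 0.8667 0.316 0.72906 1.37163 hk1 hk2 (by linarith) (by norm_num) (by norm_num) (by norm_num)
    (cos_le_num (by norm_num)) (sin_le_num (by norm_num) (by norm_num)) (expm_le (by norm_num) (by norm_num) (by norm_num))
    (expn_ge (by norm_num) (by norm_num)) (by norm_num) (by norm_num) (by norm_num) (by norm_num) (by norm_num)
  exact ⟨hy1, hy2⟩

private theorem yB9 {κ t : ℝ} (h : DomR κ t) (hk1 : 0.48 ≤ κ) (hk2 : κ ≤ 0.5) (ht1 : -0.7674 ≤ t + κ) (ht2 : t + κ ≤ -0.74939) :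
    (-0.469) ≤ sy κ t ∧ sy κ t ≤ (-0.43) := by
  have hy1 : -0.469 ≤ sy κ t := syL_ang2 h 0.48 0.5 0.7674 0.627 0.8097 0.5868 0.469 1.59839 0.62562 hk1 hk2 (by linarith) (by norm_num) (by norm_num) (by norm_num) (by norm_num)
    (cos_ge_num (by norm_num) (by norm_num)) (sin_le_num (by norm_num) (by norm_num))
    (expn_ge (by norm_num) (by norm_num)) (expm_ge (by norm_num) (by norm_num) (by norm_num) (by norm_num)) (by norm_num) (by norm_num) (by norm_num)
    (by norm_num) (by norm_num) (by norm_num)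
  have hy2 : sy κ t ≤ -0.43 := syL_le h 0.48 0.5 0.74939 0.43 0.6505 0.65051 0.55942 0.58275 hk1 hk2 (by linarith) (by norm_num) (by norm_num) (by norm_num)
    (expm_ge (by norm_num) (by norm_num) (by norm_num) (by norm_num)) (expm_le (by norm_num) (by norm_num) (by norm_num)) (by norm_num)
    (by norm_num) (by norm_num) (by norm_num) (by norm_num) (by norm_num) (by norm_num)
  exact ⟨hy1, hy2⟩

theorem pc9 {β r h t κ : ℝ} (hh : h = 2 * Real.pi / (3 : ℕ)) (hβ : 0 < β) (hr : 10 ≤ r) (hκ : κ = β * r)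
    (hk1 : 0.48 ≤ κ) (hk2 : κ ≤ 0.5) (hT1 : 1.327 ≤ t + κ) (hT2 : t + κ ≤ 1.345) :
    Xf β r h t 0 ≠ 0 ∧ r * 0.1001 ≤ (Ld β r h t 1 - Ld β r h t 0).im ∧
      ‖(((-1 : ℤ) : ℂ) - 1) * Ld β r h t 0 - ((-1 : ℤ) : ℂ) * Ld β r h t 1‖ ≤ r * 8.01 := by
  obtain ⟨q1, q2, q3⟩ := b3_h hh
  have hR0 := b3_R0 hβ hr hκ
  have hR := b3_R hβ hr hκ (by linarith)
  have hD1 : DomR κ t := b3_dom (by linarith) (by linarith) (Or.inl (by linarith))
  have hD0 : DomR κ (t - h) := b3_dom (by linarith) (by linarith) (Or.inl (by linarith))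
  have y1 := yA9 hD1 hk1 hk2 (by linarith) (by linarith)
  have y0 := yB9 hD0 hk1 hk2 (by linarith) (by linarith)
  have j1 := T3_09_d1_2 hD1 hβ hk1 hk2 (by linarith) (by linarith) hR0 hR
  exact b3_piece 0.48 0.5 0.287 0.316 0.301 0.74007 0.75052 0.72906 0.3753 1.7037 1.7649 0.05 0.145 0.145 3.3919 0.9753 0 0 (-0.469) (-0.43) (-0.45) 1.56831 1.5984 0.7992 0.6502 0.06 0.23 0.185 4.7035 4.6618 0.3767 0.4631 0.1001 8.01
    hβ hr hκ (by norm_num) hk1 hk2 hD1 hD0 j1 (j1 _ (by rw [sub_self, norm_zero]; norm_num))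
    (T3_09_d0_2 hD0 hβ hk1 hk2 (by linarith) (by linarith) hR0 hR)
    (T3_09_p0 hD0 hβ hk1 hk2 (by linarith) (by linarith) hR0 hR)
    y1.1 y1.2 y0.1 y0.2 (by norm_num)
    (ex_um 0.287 (by norm_num) (by norm_num) (by norm_num) (by norm_num)) (ex_um 0.316 (by norm_num) (by norm_num) (by norm_num) (by norm_num)) (ex_lm 0.301 (by norm_num) (by norm_num) (by norm_num) (by norm_num) (by norm_num)) (by norm_num) (by norm_num) (by norm_num) (by norm_num) (by norm_num) (by norm_num) (by norm_num) (by norm_num)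
    (by norm_num) (by norm_num) (by norm_num) (by norm_num) (by norm_num) (by norm_num) (by norm_num) (by norm_num) (by norm_num) (by norm_num)
    (ex_up 0.469 (by norm_num) (by norm_num) (by norm_num) (by norm_num)) (ex_lp 0.45 (by norm_num) (by norm_num) (by norm_num)) (by norm_num) (by norm_num) (by norm_num) (by norm_num) (by norm_num) (by norm_num)
    (by norm_num) (by norm_num) (by norm_num) (by norm_num) (by norm_num) (by norm_num) (by norm_num) (by norm_num) (by norm_num) (by norm_num) (by norm_num)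
    (by norm_num) (by norm_num) (by norm_num) (by norm_num)

private theorem yA10 {κ t : ℝ} (h : DomR κ t) (hk1 : 0.48 ≤ κ) (hk2 : κ ≤ 0.5) (ht1 : 1.345 ≤ t + κ) (ht2 : t + κ ≤ 1.363) :
    0.287 ≤ sy κ t ∧ sy κ t ≤ 0.318 := by
  have hy1 : 0.287 ≤ sy κ t := syR_ge h 0.48 0.5 1.345 0.287 1.33242 1.33243 0.7648 0.79669 hk1 hk2 (by linarith) (by norm_num) (by norm_num)
    (expn_ge (by norm_num) (by norm_num)) (expn_le (by norm_num) (by norm_num) (by norm_num)) (by norm_num)
    (by norm_num) (by norm_num) (by norm_num) (by norm_num) (by norm_num) (by norm_num)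
  have hy2 : sy κ t ≤ 0.318 := syR_ang2 h 0.48 0.5 1.363 1.062 0.4891 0.8737 0.318 0.72761 1.37437 hk1 hk2 (by linarith) (by norm_num) (by norm_num) (by norm_num)
    (cos_le_num (by norm_num)) (sin_le_num (by norm_num) (by norm_num)) (expm_le (by norm_num) (by norm_num) (by norm_num))
    (expn_ge (by norm_num) (by norm_num)) (by norm_num) (by norm_num) (by norm_num) (by norm_num) (by norm_num)
  exact ⟨hy1, hy2⟩

private theorem yB10 {κ t : ℝ} (h : DomR κ t) (hk1 : 0.48 ≤ κ) (hk2 : κ ≤ 0.5) (ht1 : -0.7494 ≤ t + κ) (ht2 : t + κ ≤ -0.73139) :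
    (-0.453) ≤ sy κ t ∧ sy κ t ≤ (-0.415) := by
  have hy1 : -0.453 ≤ sy κ t := syL_ang2 h 0.48 0.5 0.7494 0.613 0.8179 0.5754 0.453 1.57302 0.63571 hk1 hk2 (by linarith) (by norm_num) (by norm_num) (by norm_num) (by norm_num)
    (cos_ge_num (by norm_num) (by norm_num)) (sin_le_num (by norm_num) (by norm_num))
    (expn_ge (by norm_num) (by norm_num)) (expm_ge (by norm_num) (by norm_num) (by norm_num) (by norm_num)) (by norm_num) (by norm_num) (by norm_num)
    (by norm_num) (by norm_num) (by norm_num)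
  have hy2 : sy κ t ≤ -0.415 := syL_le h 0.48 0.5 0.73139 0.415 0.66034 0.66035 0.54808 0.57093 hk1 hk2 (by linarith) (by norm_num) (by norm_num) (by norm_num)
    (expm_ge (by norm_num) (by norm_num) (by norm_num) (by norm_num)) (expm_le (by norm_num) (by norm_num) (by norm_num)) (by norm_num)
    (by norm_num) (by norm_num) (by norm_num) (by norm_num) (by norm_num) (by norm_num)
  exact ⟨hy1, hy2⟩

theorem pc10 {β r h t κ : ℝ} (hh : h = 2 * Real.pi / (3 : ℕ)) (hβ : 0 < β) (hr : 10 ≤ r) (hκ : κ = β * r)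
    (hk1 : 0.48 ≤ κ) (hk2 : κ ≤ 0.5) (hT1 : 1.345 ≤ t + κ) (hT2 : t + κ ≤ 1.363) :
    Xf β r h t 0 ≠ 0 ∧ r * 0.1001 ≤ (Ld β r h t 1 - Ld β r h t 0).im ∧
      ‖(((-1 : ℤ) : ℂ) - 1) * Ld β r h t 0 - ((-1 : ℤ) : ℂ) * Ld β r h t 1‖ ≤ r * 8.01 := by
  obtain ⟨q1, q2, q3⟩ := b3_h hh
  have hR0 := b3_R0 hβ hr hκ
  have hR := b3_R hβ hr hκ (by linarith)
  have hD1 : DomR κ t := b3_dom (by linarith) (by linarith) (Or.inl (by linarith))
  have hD0 : DomR κ (t - h) := b3_dom (by linarith) (by linarith) (Or.inl (by linarith))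
  have y1 := yA10 hD1 hk1 hk2 (by linarith) (by linarith)
  have y0 := yB10 hD0 hk1 hk2 (by linarith) (by linarith)
  have j1 := T3_09_d1_2 hD1 hβ hk1 hk2 (by linarith) (by linarith) hR0 hR
  exact b3_piece 0.48 0.5 0.287 0.318 0.302 0.73933 0.75052 0.72761 0.3753 1.7037 1.7684 0.05 0.145 0.145 3.3919 0.9753 0 0 (-0.453) (-0.415) (-0.434) 1.54341 1.57303 0.7866 0.6636 0.06 0.23 0.185 4.7035 4.5418 0.3816 0.4524 0.1001 8.01
    hβ hr hκ (by norm_num) hk1 hk2 hD1 hD0 j1 (j1 _ (by rw [sub_self, norm_zero]; norm_num))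
    (T3_09_d0_2 hD0 hβ hk1 hk2 (by linarith) (by linarith) hR0 hR)
    (T3_09_p0 hD0 hβ hk1 hk2 (by linarith) (by linarith) hR0 hR)
    y1.1 y1.2 y0.1 y0.2 (by norm_num)
    (ex_um 0.287 (by norm_num) (by norm_num) (by norm_num) (by norm_num)) (ex_um 0.318 (by norm_num) (by norm_num) (by norm_num) (by norm_num)) (ex_lm 0.302 (by norm_num) (by norm_num) (by norm_num) (by norm_num) (by norm_num)) (by norm_num) (by norm_num) (by norm_num) (by norm_num) (by norm_num) (by norm_num) (by norm_num) (by norm_num)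
    (by norm_num) (by norm_num) (by norm_num) (by norm_num) (by norm_num) (by norm_num) (by norm_num) (by norm_num) (by norm_num) (by norm_num)
    (ex_up 0.453 (by norm_num) (by norm_num) (by norm_num) (by norm_num)) (ex_lp 0.434 (by norm_num) (by norm_num) (by norm_num)) (by norm_num) (by norm_num) (by norm_num) (by norm_num) (by norm_num) (by norm_num)
    (by norm_num) (by norm_num) (by norm_num) (by norm_num) (by norm_num) (by norm_num) (by norm_num) (by norm_num) (by norm_num) (by norm_num) (by norm_num)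
    (by norm_num) (by norm_num) (by norm_num) (by norm_num)

private theorem yA11 {κ t : ℝ} (h : DomR κ t) (hk1 : 0.48 ≤ κ) (hk2 : κ ≤ 0.5) (ht1 : 1.363 ≤ t + κ) (ht2 : t + κ ≤ 1.382) :
    0.287 ≤ sy κ t ∧ sy κ t ≤ 0.32 := by
  have hy1 : 0.287 ≤ sy κ t := syR_ge h 0.48 0.5 1.363 0.287 1.33242 1.33243 0.7648 0.79669 hk1 hk2 (by linarith) (by norm_num) (by norm_num)
    (expn_ge (by norm_num) (by norm_num)) (expn_le (by norm_num) (by norm_num) (by norm_num)) (by norm_num)
    (by norm_num) (by norm_num) (by norm_num) (by norm_num) (by norm_num) (by norm_num)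
  have hy2 : sy κ t ≤ 0.32 := syR_ang2 h 0.48 0.5 1.382 1.077 0.4761 0.8809 0.32 0.72615 1.37712 hk1 hk2 (by linarith) (by norm_num) (by norm_num) (by norm_num)
    (cos_le_num (by norm_num)) (sin_le_num (by norm_num) (by norm_num)) (expm_le (by norm_num) (by norm_num) (by norm_num))
    (expn_ge (by norm_num) (by norm_num)) (by norm_num) (by norm_num) (by norm_num) (by norm_num) (by norm_num)
  exact ⟨hy1, hy2⟩

private theorem yB11 {κ t : ℝ} (h : DomR κ t) (hk1 : 0.48 ≤ κ) (hk2 : κ ≤ 0.5) (ht1 : -0.7314 ≤ t + κ) (ht2 : t + κ ≤ -0.71239) :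
    (-0.436) ≤ sy κ t ∧ sy κ t ≤ (-0.399) := by
  have hy1 : -0.436 ≤ sy κ t := syL_ang2 h 0.48 0.5 0.7314 0.598 0.8264 0.563 0.436 1.5465 0.64661 hk1 hk2 (by linarith) (by norm_num) (by norm_num) (by norm_num) (by norm_num)
    (cos_ge_num (by norm_num) (by norm_num)) (sin_le_num (by norm_num) (by norm_num))
    (expn_ge (by norm_num) (by norm_num)) (expm_ge (by norm_num) (by norm_num) (by norm_num) (by norm_num)) (by norm_num) (by norm_num) (by norm_num)
    (by norm_num) (by norm_num) (by norm_num)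
  have hy2 : sy κ t ≤ -0.399 := syL_le h 0.48 0.5 0.71239 0.399 0.67099 0.671 0.53545 0.55777 hk1 hk2 (by linarith) (by norm_num) (by norm_num) (by norm_num)
    (expm_ge (by norm_num) (by norm_num) (by norm_num) (by norm_num)) (expm_le (by norm_num) (by norm_num) (by norm_num)) (by norm_num)
    (by norm_num) (by norm_num) (by norm_num) (by norm_num) (by norm_num) (by norm_num)
  exact ⟨hy1, hy2⟩

theorem pc11 {β r h t κ : ℝ} (hh : h = 2 * Real.pi / (3 : ℕ)) (hβ : 0 < β) (hr : 10 ≤ r) (hκ : κ = β * r)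
    (hk1 : 0.48 ≤ κ) (hk2 : κ ≤ 0.5) (hT1 : 1.363 ≤ t + κ) (hT2 : t + κ ≤ 1.382) :
    Xf β r h t 0 ≠ 0 ∧ r * 0.1001 ≤ (Ld β r h t 1 - Ld β r h t 0).im ∧
      ‖(((-1 : ℤ) : ℂ) - 1) * Ld β r h t 0 - ((-1 : ℤ) : ℂ) * Ld β r h t 1‖ ≤ r * 8.01 := by
  obtain ⟨q1, q2, q3⟩ := b3_h hh
  have hR0 := b3_R0 hβ hr hκ
  have hR := b3_R hβ hr hκ (by linarith)
  have hD1 : DomR κ t := b3_dom (by linarith) (by linarith) (Or.inl (by linarith))
  have hD0 : DomR κ (t - h) := b3_dom (by linarith) (by linarith) (Or.inl (by linarith))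
  have y1 := yA11 hD1 hk1 hk2 (by linarith) (by linarith)
  have y0 := yB11 hD0 hk1 hk2 (by linarith) (by linarith)
  have j1 := T3_09_d1_2 hD1 hβ hk1 hk2 (by linarith) (by linarith) hR0 hR
  exact b3_piece 0.48 0.5 0.287 0.32 0.303 0.73859 0.75052 0.72615 0.3753 1.7037 1.7719 0.05 0.145 0.145 3.3919 0.9753 0 0 (-0.436) (-0.399) (-0.417) 1.5174 1.54651 0.7733 0.6786 0.06 0.23 0.185 4.7035 4.4154 0.3857 0.4396 0.1001 8.01
    hβ hr hκ (by norm_num) hk1 hk2 hD1 hD0 j1 (j1 _ (by rw [sub_self, norm_zero]; norm_num))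
    (T3_09_d0_2 hD0 hβ hk1 hk2 (by linarith) (by linarith) hR0 hR)
    (T3_09_p0 hD0 hβ hk1 hk2 (by linarith) (by linarith) hR0 hR)
    y1.1 y1.2 y0.1 y0.2 (by norm_num)
    (ex_um 0.287 (by norm_num) (by norm_num) (by norm_num) (by norm_num)) (ex_um 0.32 (by norm_num) (by norm_num) (by norm_num) (by norm_num)) (ex_lm 0.303 (by norm_num) (by norm_num) (by norm_num) (by norm_num) (by norm_num)) (by norm_num) (by norm_num) (by norm_num) (by norm_num) (by norm_num) (by norm_num) (by norm_num) (by norm_num)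
    (by norm_num) (by norm_num) (by norm_num) (by norm_num) (by norm_num) (by norm_num) (by norm_num) (by norm_num) (by norm_num) (by norm_num)
    (ex_up 0.436 (by norm_num) (by norm_num) (by norm_num) (by norm_num)) (ex_lp 0.417 (by norm_num) (by norm_num) (by norm_num)) (by norm_num) (by norm_num) (by norm_num) (by norm_num) (by norm_num) (by norm_num)
    (by norm_num) (by norm_num) (by norm_num) (by norm_num) (by norm_num) (by norm_num) (by norm_num) (by norm_num) (by norm_num) (by norm_num) (by norm_num)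
    (by norm_num) (by norm_num) (by norm_num) (by norm_num)

theorem innS {β r h t κ : ℝ} (hh : h = 2 * Real.pi / (3 : ℕ)) (hβ : 0 < β) (hr : 10 ≤ r) (hκ : κ = β * r)
    (hk1 : 0.48 ≤ κ) (hk2 : κ ≤ 0.5) (hT1 : 1.171 ≤ t + κ) (hT2 : t + κ ≤ 1.382) :
    Xf β r h t 0 ≠ 0 ∧ r * 0.1001 ≤ (Ld β r h t 1 - Ld β r h t 0).im ∧
      ‖(((-1 : ℤ) : ℂ) - 1) * Ld β r h t 0 - ((-1 : ℤ) : ℂ) * Ld β r h t 1‖ ≤ r * 8.01 := by
  rcases le_total (t + κ) 1.186 with f0 | g0
  · exact pc0 hh hβ hr hκ hk1 hk2 hT1 f0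
  rcases le_total (t + κ) 1.201 with f1 | g1
  · exact pc1 hh hβ hr hκ hk1 hk2 g0 f1
  rcases le_total (t + κ) 1.218 with f2 | g2
  · exact pc2 hh hβ hr hκ hk1 hk2 g1 f2
  rcases le_total (t + κ) 1.236 with f3 | g3
  · exact pc3 hh hβ hr hκ hk1 hk2 g2 f3
  rcases le_total (t + κ) 1.254 with f4 | g4
  · exact pc4 hh hβ hr hκ hk1 hk2 g3 f4
  rcases le_total (t + κ) 1.271 with f5 | g5
  · exact pc5 hh hβ hr hκ hk1 hk2 g4 f5
  rcases le_total (t + κ) 1.29 with f6 | g6
  · exact pc6 hh hβ hr hκ hk1 hk2 g5 f6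
  rcases le_total (t + κ) 1.308 with f7 | g7
  · exact pc7 hh hβ hr hκ hk1 hk2 g6 f7
  rcases le_total (t + κ) 1.327 with f8 | g8
  · exact pc8 hh hβ hr hκ hk1 hk2 g7 f8
  rcases le_total (t + κ) 1.345 with f9 | g9
  · exact pc9 hh hβ hr hκ hk1 hk2 g8 f9
  rcases le_total (t + κ) 1.363 with f10 | g10
  · exact pc10 hh hβ hr hκ hk1 hk2 g9 f10
  exact pc11 hh hβ hr hκ hk1 hk2 g10 hT2

theorem circ {p : ℤ} (hp : IsCoprime (3 : ℤ) p) {β r : ℝ} (hβ : 0 < β) (hr : 10 ≤ r) (hk1 : 0.48 ≤ β * r)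
    (hk2 : β * r ≤ 0.5) : Circ (2 * Real.pi * p / (3 : ℕ) + β) r := by
  obtain ⟨κ, hκ⟩ : ∃ κ, κ = β * r := ⟨_, rfl⟩
  rw [← hκ] at hk1 hk2
  refine circ3 hp hr (h := 2 * Real.pi / (3 : ℕ)) (κ := κ) rfl 1.171 1.382 1.0106 0.1001 0.00555 0.00555 8.01 (by norm_num) (by norm_num) (by norm_num)
    (by norm_num) (by norm_num) ?_ ?_ ?_ ?_ ?_ (by norm_num) (by norm_num)
  · intro t h1 h2
    exact (innS rfl hβ hr hκ hk1 hk2 h1 h2).1
  · intro t h1 h2
    exact (innE rfl hβ hr hκ hk1 hk2 h1 h2).1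
  · intro t h1 h2
    exact (innE rfl hβ hr hκ hk1 hk2 h1 h2).2
  · intro t h1 h2
    exact (innS rfl hβ hr hκ hk1 hk2 h1 h2).2
  · intro t h1 h2 h3
    rcases h3 with h3 | h3
    · rcases le_total (t + κ) 1.162 with g | g
      · exact left rfl hβ hr hκ hk1 hk2 h1 g
      · exact middle rfl hβ hr hκ hk1 hk2 g h3
    · exact right0 rfl hβ hr hκ hk1 hk2 h3 h2

end B3_09

end Sok
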