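import Pool.Agent.Lib.MP_816dec_an.R1b3D
import Pool.Agent.Lib.MP_816dec_an.R1b3J10

/-!
MP_816dec_an (A3, row R1, b = 3): the cell `0.5 ≤ κ ≤ 0.53`.
-/

set_option autoImplicit false
set_option maxHeartbeats 4000000
set_option linter.unusedVariables false

open Complex Set

namespace Sok

namespace B3_10

private theorem yL {κ t : ℝ} (h : DomR κ t) (hk1 : 0.5 ≤ κ) (hk2 : κ ≤ 0.53) (ht1 : 0 ≤ t + κ) (ht2 : t + κ ≤ 1.16) :
    0 ≤ sy κ t ∧ sy κ t ≤ 0.305 := by
  have hy1 : 0 ≤ sy κ t := sy_nonneg h (by linarith)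
  have hy2 : sy κ t ≤ 0.305 := syR_ang2 h 0.5 0.53 1.16 0.895 0.6263 0.7803 0.305 0.73713 1.35662 hk1 hk2 (by linarith) (by norm_num) (by norm_num) (by norm_num)
    (cos_le_num (by norm_num)) (sin_le_num (by norm_num) (by norm_num)) (expm_le (by norm_num) (by norm_num) (by norm_num))
    (expn_ge (by norm_num) (by norm_num)) (by norm_num) (by norm_num) (by norm_num) (by norm_num) (by norm_num)
  exact ⟨hy1, hy2⟩

theorem left {β r h t κ : ℝ} (hh : h = 2 * Real.pi / (3 : ℕ)) (hβ : 0 < β) (hr : 10 ≤ r) (hκ : κ = β * r)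
    (hk1 : 0.5 ≤ κ) (hk2 : κ ≤ 0.53) (hT1 : 0 ≤ t + κ) (hT2 : t + κ ≤ 1.16) :
    ‖Xf β r h t (-1)‖ < |‖Xf β r h t 1‖ - ‖Xf β r h t 0‖| := by
  obtain ⟨q1, q2, q3⟩ := b3_h hh
  have hR0 := b3_R0 hβ hr hκ
  have hR := b3_R hβ hr hκ (by linarith)
  have hD1 : DomR κ t := b3_dom (by linarith) (by linarith) (Or.inl (by linarith))
  have hy := yL hD1 hk1 hk2 (by linarith) (by linarith)
  have hY : 0.8505 * Real.exp (r * 0.60433) ≤ ‖Xf β r h t 1‖ :=
    b3_lo hβ hr hκ (k := 1) (t' := t) (by push_cast; ring) hD1 0.02 1.7627 0.8505 0.60433 (by norm_num)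
      (T3_10_p1 hD1 hβ hk1 hk2 (by linarith) (by linarith) hR0 hR)
      (v5_Dup hD1 0.53 0 0.305 1 0.73713 1.7627 hk2 hy.1 hy.2 (ex_up 0 (by norm_num) (by norm_num) (by norm_num) (by norm_num)) (ex_um 0.305 (by norm_num) (by norm_num) (by norm_num) (by norm_num)) (by norm_num) (by norm_num) (by norm_num)) (by norm_num) (by norm_num)
      (b3_Vlo hD1 0.5 0.53 0 1.16 0.47 (-0.75502) 0.895 0.6255 0.46921 0.60433 hk1 hk2 (by linarith) (by linarith) (by norm_num) (ex_lm 0.75502 (by norm_num) (by norm_num) (by norm_num) (by norm_num) (by norm_num)) (by norm_num) (by norm_num) (by norm_num) (by norm_num) (by norm_num) (by norm_num) (by norm_num) (by norm_num) (ex_um 0.46921 (by norm_num) (by norm_num) (by norm_num) (by norm_num)) (by norm_num))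
  have h0 : ‖Xf β r h t 0‖ ≤ 0.8936 * ‖Xf β r h t 1‖ :=
    b3_cmp 0.4827 0.07352 0.02014 0.392 0.84054 0.053058 0.8936 hr (b3_HU0 1.19 0.5 0.53 (-2.0944) (-0.93439) 1.64273 1.81304 1.87893 0.55157 0.53223 1.81302 1.481 0.09185 1.08218 2.0876 0.13641 0.21233 0.000001 2.2406 0.53081 hβ hr hκ (by norm_num) hk1 hk2 (by norm_num) (by linarith) (by linarith) (by norm_num) (by norm_num) (ex_up 0.595 (by norm_num) (by norm_num) (by norm_num) (by norm_num)) (ex_up 0.6307 (by norm_num) (by norm_num) (by norm_num) (by norm_num)) (ex_um 0.595 (by norm_num) (by norm_num) (by norm_num) (by norm_num)) (ex_um 0.6307 (by norm_num) (by norm_num) (by norm_num) (by norm_num)) (by norm_num) (by norm_num) (ex_lp 0.595 (by norm_num) (by norm_num) (by norm_num)) (by norm_num) (by norm_num) (by norm_num) (by norm_num) (by norm_num) (by norm_num) (by norm_num) (by norm_num) (by norm_num) (by norm_num) (by norm_num) (by norm_num) (by norm_num) (by norm_num) (v5_hump 5.7356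 18.867 4.3437 0.0000003148 0.000001 hβ hr hκ hk1 hk2 (by norm_num) (tb := (-0.93439)) (by linarith) (by norm_num) (by norm_num) (by norm_num) (by norm_num) (by norm_num) (by norm_num) (by norm_num) (ex_un 14 0.99 (by norm_num) (by norm_num) (by norm_num) (by norm_num)) (by norm_num)) (by norm_num) (by norm_num)) hY (by norm_num) (by norm_num) (by norm_num) (by norm_num) (by norm_num) (ex_un 0 0.7352 (by norm_num) (by norm_num) (by norm_num) (by norm_num)) (by norm_num) (by norm_num) (by norm_num) (ex_un 3 0.92 (by norm_num) (by norm_num) (by norm_num) (by norm_num)) (by norm_num) (by norm_num)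
  have h2 : ‖Xf β r h t (-1)‖ ≤ 0.0303 * ‖Xf β r h t 1‖ := by
    exact b3_cmp 1 0 0.006453 0.50433 0 0.030267 0.0303 hr (b3_w (b3_UD 0.5 0.53 2.09439 3.2544 0.05 0.5642 0.05 2.0797 3.9891 0.1 hh hβ hr hκ (by norm_num) hk1 hk2 (by linarith) (by linarith) (by norm_num) (by norm_num) (by norm_num) (by norm_num) (by norm_num) (by norm_num) (by norm_num) (by norm_num) (by norm_num) (by norm_num) (by norm_num) (by norm_num) (by norm_num))) hY (by norm_num) (by norm_num) (by norm_num) (by norm_num) (by norm_num) (by norm_num) (by norm_num) (by norm_num) (by norm_num) (ex_un 5 0.0433 (by norm_num) (by norm_num) (by norm_num) (by norm_num)) (by norm_num) (by norm_num)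
  exact b3_out1 0.8936 0.0303 hY (by norm_num) h0 h2 (by norm_num)

private theorem yM1 {κ t : ℝ} (h : DomR κ t) (hk1 : 0.5 ≤ κ) (hk2 : κ ≤ 0.53) (ht1 : 0 ≤ t + κ) (ht2 : t + κ ≤ 1.171) :
    0 ≤ sy κ t ∧ sy κ t ≤ 0.307 := by
  have hy1 : 0 ≤ sy κ t := sy_nonneg h (by linarith)
  have hy2 : sy κ t ≤ 0.307 := syR_ang2 h 0.5 0.53 1.171 0.906 0.6177 0.7872 0.307 0.73566 1.35934 hk1 hk2 (by linarith) (by norm_num) (by norm_num) (by norm_num)
    (cos_le_num (by norm_num)) (sin_le_num (by norm_num) (by norm_num)) (expm_le (by norm_num) (by norm_num) (by norm_num))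
    (expn_ge (by norm_num) (by norm_num)) (by norm_num) (by norm_num) (by norm_num) (by norm_num) (by norm_num)
  exact ⟨hy1, hy2⟩

private theorem yM0 {κ t : ℝ} (h : DomR κ t) (hk1 : 0.5 ≤ κ) (hk2 : κ ≤ 0.53) (ht1 : -0.9344 ≤ t + κ) (ht2 : t + κ ≤ -0.92339) :
    (-0.655) ≤ sy κ t ∧ sy κ t ≤ (-0.604) := by
  have hy1 : -0.655 ≤ sy κ t := syL_ang2 h 0.5 0.53 0.9344 0.696 0.7674 0.6412 0.655 1.92513 0.51944 hk1 hk2 (by linarith) (by norm_num) (by norm_num) (by norm_num) (by norm_num)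
    (cos_ge_num (by norm_num) (by norm_num)) (sin_le_num (by norm_num) (by norm_num))
    (expn_ge (by norm_num) (by norm_num)) (expm_ge (by norm_num) (by norm_num) (by norm_num) (by norm_num)) (by norm_num) (by norm_num) (by norm_num)
    (by norm_num) (by norm_num) (by norm_num)
  have hy2 : sy κ t ≤ -0.604 := syL_le h 0.5 0.53 0.92339 0.604 0.54662 0.54663 0.62294 0.66033 hk1 hk2 (by linarith) (by norm_num) (by norm_num) (by norm_num)
    (expm_ge (by norm_num) (by norm_num) (by norm_num) (by norm_num)) (expm_le (by norm_num) (by norm_num) (by norm_num)) (by norm_num)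
    (by norm_num) (by norm_num) (by norm_num) (by norm_num) (by norm_num) (by norm_num)
  exact ⟨hy1, hy2⟩

theorem middle {β r h t κ : ℝ} (hh : h = 2 * Real.pi / (3 : ℕ)) (hβ : 0 < β) (hr : 10 ≤ r) (hκ : κ = β * r)
    (hk1 : 0.5 ≤ κ) (hk2 : κ ≤ 0.53) (hT1 : 1.16 ≤ t + κ) (hT2 : t + κ ≤ 1.171) :
    ‖Xf β r h t (-1)‖ < |‖Xf β r h t 1‖ - ‖Xf β r h t 0‖| := by
  obtain ⟨q1, q2, q3⟩ := b3_h hh
  have hR0 := b3_R0 hβ hr hκ
  have hR := b3_R hβ hr hκ (by linarith)
  have hD1 : DomR κ t := b3_dom (by linarith) (by linarith) (Or.inl (by linarith))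
  have hD0 : DomR κ (t - h) := b3_dom (by linarith) (by linarith) (Or.inl (by linarith))
  have hy := yM1 hD1 hk1 hk2 (by linarith) (by linarith)
  have hy0 := yM0 hD0 hk1 hk2 (by linarith) (by linarith)
  have hY : 0.8501 * Real.exp (r * 0.59789) ≤ ‖Xf β r h t 1‖ :=
    b3_lo hβ hr hκ (k := 1) (t' := t) (by push_cast; ring) hD1 0.02 1.7661 0.8501 0.59789 (by norm_num)
      (T3_10_p1 hD1 hβ hk1 hk2 (by linarith) (by linarith) hR0 hR)
      (v5_Dup hD1 0.53 0 0.307 1 0.73566 1.7661 hk2 hy.1 hy.2 (ex_up 0 (by norm_num) (by norm_num) (by norm_num) (by norm_num)) (ex_um 0.307 (by norm_num) (by norm_num) (by norm_num) (by norm_num)) (by norm_num) (by norm_num) (by norm_num)) (by norm_num) (by norm_num)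
      (b3_Vlo hD1 0.5 0.53 0 1.171 0.46 (-0.77652) 0.901 0.62081 0.47674 0.59789 hk1 hk2 (by linarith) (by linarith) (by norm_num) (ex_lm 0.77652 (by norm_num) (by norm_num) (by norm_num) (by norm_num) (by norm_num)) (by norm_num) (by norm_num) (by norm_num) (by norm_num) (by norm_num) (by norm_num) (by norm_num) (by norm_num) (ex_um 0.47674 (by norm_num) (by norm_num) (by norm_num) (by norm_num)) (by norm_num))
  have hU : ‖Xf β r h t 0‖ ≤ 1.3493 * Real.exp (r * 0.54339) :=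
    b3_up hβ hr hκ (k := 0) (t' := t - h) (by push_cast; ring) hD0 0.195 0.6153 1.3493 0.54339
      (T3_10_p0m hD0 hβ hk1 hk2 (by linarith) (by linarith) hR0 hR) (v5_Dlo hD0 0.5 (-0.655) (-0.604) (-0.629) 1.87572 0.6153 (by norm_num) hk1 hy0.1 hy0.2 (ex_lp 0.629 (by norm_num) (by norm_num) (by norm_num)) (by norm_num) (by norm_num) (by norm_num) (by norm_num)) (by norm_num) (by norm_num)
      (b3_VH hD0 1.09 0.5 0.53 1.54988 1.72461 1.78194 0.57985 0.56119 (-0.92339) 0.54339 (by norm_num) hk1 hk2 (by norm_num) (ex_up 0.545 (by norm_num) (by norm_num) (by norm_num) (by norm_num)) (ex_up 0.5777 (by norm_num) (by norm_num) (by norm_num) (by norm_num)) (ex_um 0.545 (by norm_num) (by norm_num) (by norm_num) (by norm_num)) (ex_um 0.5777 (by norm_num) (by norm_num) (by norm_num) (by norm_num)) (by norm_num) (by norm_num) (by norm_num) (by linarith) (by norm_num))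
  have h0 : ‖Xf β r h t 0‖ ≤ 0.9227 * ‖Xf β r h t 1‖ :=
    b3_cmp 1 0 0.5813 0.0545 0 0.922654 0.9227 hr (b3_w hU) hY (by norm_num) (by norm_num) (by norm_num) (by norm_num) (by norm_num) (by norm_num) (by norm_num) (by norm_num) (by norm_num) (ex_un 0 0.545 (by norm_num) (by norm_num) (by norm_num) (by norm_num)) (by norm_num) (by norm_num)
  have h2 : ‖Xf β r h t (-1)‖ ≤ 0.0026 * ‖Xf β r h t 1‖ := by
    exact b3_cmp 1 0 0.004181 0.54789 0 0.002516 0.0026 hr ((b3_Xm hh).trans_le (b3_U1 0.5 0.53 3.25439 3.2654 1.15359 0.09185 1.08218 0.9141 0.00002 0.4173 0.000001 0.5115 hβ hr hκ (by norm_num) hk1 hk2 (by linarith) (by linarith) (by norm_num) (by norm_num) (by norm_num) (by norm_num) (by norm_num) (by norm_num) (by norm_num) (by norm_num) (by norm_num) (by norm_num) (by norm_num) (by norm_num) (by norm_num) (ex_un 9 0.141 (by norm_num) (by norm_num) (by norm_num) (by norm_num)) (v5_hump 1.5359 18.867 4.3437 0.0000003148 0.000001 hβ hr hκ hk1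 hk2 (by norm_num) (tb := 3.2654) (by linarith) (by norm_num) (by norm_num) (by norm_num) (by norm_num) (by norm_num) (by norm_num) (by norm_num) (ex_un 14 0.99 (by norm_num) (by norm_num) (by norm_num) (by norm_num)) (by norm_num)) (by norm_num))) hY (by norm_num) (by norm_num) (by norm_num) (by norm_num) (by norm_num) (by norm_num) (by norm_num) (by norm_num) (by norm_num) (ex_un 5 0.4789 (by norm_num) (by norm_num) (by norm_num) (by norm_num)) (by norm_num) (by norm_num)
  exact b3_out1 0.9227 0.0026 hY (by norm_num) h0 h2 (by norm_num)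

private theorem yR0 {κ t : ℝ} (h : DomR κ t) (hk1 : 0.5 ≤ κ) (hk2 : κ ≤ 0.53) (ht1 : -0.7124 ≤ t + κ) (ht2 : t + κ ≤ 0.0001) :
    (-0.432) ≤ sy κ t ∧ sy κ t ≤ 0.005 := by
  have hy1 : -0.432 ≤ sy κ t := syL_ge h 0.5 0.53 0.7124 0.432 0.6492 0.64921 0.5212 0.52915 0.56092 hk1 hk2 (by linarith) (by norm_num) (by norm_num) (by norm_num)
    (expm_ge (by norm_num) (by norm_num) (by norm_num) (by norm_num)) (expm_le (by norm_num) (by norm_num) (by norm_num)) (by norm_num)
    (by norm_num) (by norm_num) (by norm_num) (by norm_num) (by norm_num) (by norm_num)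
  have hy2 : sy κ t ≤ 0.005 := syR_le h 0.5 0.53 0.0001 0.005 1.00501 0.0093 0.00948 0.01006 hk1 hk2 (by linarith) (by norm_num) (by norm_num)
    (expn_ge (by norm_num) (by norm_num)) (by norm_num) (by norm_num) (Or.inr ((mul_le_mul_of_nonneg_left (expn_le (E := 1.00502) (by norm_num) (by norm_num) (by norm_num)) (by norm_num)).trans (by norm_num))) (by norm_num) (by norm_num) (by norm_num)
  exact ⟨hy1, hy2⟩

theorem right0 {β r h t κ : ℝ} (hh : h = 2 * Real.pi / (3 : ℕ)) (hβ : 0 < β) (hr : 10 ≤ r) (hκ : κ = β * r)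
    (hk1 : 0.5 ≤ κ) (hk2 : κ ≤ 0.53) (hT1 : 1.382 ≤ t + κ) (hT2 : t + κ ≤ h) :
    ‖Xf β r h t (-1)‖ < |‖Xf β r h t 1‖ - ‖Xf β r h t 0‖| := by
  obtain ⟨q1, q2, q3⟩ := b3_h hh
  have hR0 := b3_R0 hβ hr hκ
  have hR := b3_R hβ hr hκ (by linarith)
  have hD0 : DomR κ (t - h) := b3_dom (by linarith) (by linarith) (Or.inl (by linarith))
  have hy := yR0 hD0 hk1 hk2 (by linarith) (by linarith)
  have hY : 0.8776 * Real.exp (r * 0.74179) ≤ ‖Xf β r h t 0‖ :=
    b3_lo hβ hr hκ (k := 0) (t' := t - h) (by push_cast; ring) hD0 0.065 1.2882 0.8776 0.74179 (by norm_num)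
      (T3_10_p0R hD0 hβ hk1 hk2 (by linarith) (by linarith) hR0 hR)
      (v5_Dup hD0 0.53 (-0.432) 0.005 1.54034 0.99502 1.2882 hk2 hy.1 hy.2 (ex_up 0.432 (by norm_num) (by norm_num) (by norm_num) (by norm_num)) (ex_um 0.005 (by norm_num) (by norm_num) (by norm_num) (by norm_num)) (by norm_num) (by norm_num) (by norm_num)) (by norm_num) (by norm_num)
      (b3_Vlo hD0 0.5 0.53 (-0.7124) 0.0001 1.27 0.23902 0.5774 0.83788 0.17689 0.74179 hk1 hk2 (by linarith) (by linarith) (by norm_num) (ex_lp 0.23902 (by norm_num) (by norm_num) (by norm_num)) (by norm_num) (by norm_num) (by norm_num) (by norm_num) (by norm_num) (by norm_num) (by norm_num) (by norm_num) (ex_um 0.17689 (by norm_num) (by norm_num) (by norm_num) (by norm_num)) (by norm_num))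
  have h1 : ‖Xf β r h t 1‖ ≤ 0.2463 * ‖Xf β r h t 0‖ := by
    rcases le_total (t + κ) 1.77 with g0 | g0
    · exact b3_cmp 0.08299 0.24907 0.000601 0.74179 0.246209 0.000089 0.2463 hr (b3_X1.trans_le (b3_HF 0.56 0.5 0.53 1.382 1.77 1.26664 0.75579 0.7432 1.32313 1.34555 0.74319 2.4779 0.09185 2.4227 0.3007 0.09019 0.4114 0.000001 2.6036 0.1298 0.49272 hβ hr hκ (by norm_num) hk1 hk2 (by norm_num) (by linarith) (by linarith) (by norm_num) (ex_um 0.28 (by norm_num) (by norm_num) (by norm_num) (by norm_num)) (ex_um 0.2968 (by norm_num) (by norm_num) (by norm_num) (by norm_num)) (ex_up 0.28 (by norm_num) (by norm_num) (by norm_num) (by norm_num)) (ex_up 0.2968 (by norm_num) (by norm_num) (by norm_num) (by norm_num)) (by norm_num) (by norm_num) (ex_lm 0.2968 (by norm_num) (by norm_num) (by norm_num) (by norm_num) (by norm_num)) (by norm_num) (by norm_num) (by norm_num) (by norm_num) (by norm_num) (by norm_num) (by norm_num) (by norm_num) (by norm_num)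 (by norm_num) (by norm_num) (by norm_num) (ex_un 0 0.9019 (by norm_num) (by norm_num) (by norm_num) (by norm_num)) (v5_hump 3.0313 18.867 4.3437 0.0000003148 0.000001 hβ hr hκ hk1 hk2 (by norm_num) (tb := 1.77) (by linarith) (by norm_num) (by norm_num) (by norm_num) (by norm_num) (by norm_num) (by norm_num) (by norm_num) (ex_un 14 0.99 (by norm_num) (by norm_num) (by norm_num) (by norm_num)) (by norm_num)) (by norm_num) (by norm_num) (by norm_num))) hY (by norm_num) (by norm_num) (by norm_num) (by norm_num) (by norm_num) (ex_un 2 0.4907 (by norm_num) (by norm_num) (by norm_num) (by norm_num)) (by norm_num) (by norm_num) (by norm_num) (ex_un 7 0.4179 (by norm_num) (by norm_num) (by norm_num) (by norm_num)) (by norm_num) (by norm_num)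
    exact b3_cmp 1 0 0.05484 0.29179 0 0.242513 0.2463 hr (b3_w (b3_UD1 0.5 0.53 1.77 2.0944 0.4 0.5642 0.4 2.0233 3.8809 0.45 hβ hr hκ (by norm_num) hk1 hk2 (by linarith) (by linarith) (by norm_num) (by norm_num) (by norm_num) (by norm_num) (by norm_num) (by norm_num) (by norm_num) (by norm_num) (by norm_num) (by norm_num) (by norm_num) (by norm_num) (by norm_num))) hY (by norm_num) (by norm_num) (by norm_num) (by norm_num) (by norm_num) (by norm_num) (by norm_num) (by norm_num) (by norm_num) (ex_un 2 0.9179 (by norm_num) (by norm_num) (by norm_num) (by norm_num)) (by norm_num) (by norm_num)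
  have h2 : ‖Xf β r h t (-1)‖ ≤ 0.0006 * ‖Xf β r h t 0‖ := by
    exact b3_cmp 1 0 0.001005 0.69179 0 0.000572 0.0006 hr ((b3_Xm hh).trans_le (b3_U1 0.5 0.53 3.47639 4.1888 1.37559 0.09185 1.08218 0.8539 0.00003 0.5473 0.000018 0.4987 hβ hr hκ (by norm_num) hk1 hk2 (by linarith) (by linarith) (by norm_num) (by norm_num) (by norm_num) (by norm_num) (by norm_num) (by norm_num) (by norm_num) (by norm_num) (by norm_num) (by norm_num) (by norm_num) (by norm_num) (by norm_num) (ex_un 8 0.539 (by norm_num) (by norm_num) (by norm_num) (by norm_num)) (v5_hump 0.6125 18.867 4.3437 0.000009604 0.000018 hβ hr hκ hk1 hk2 (by norm_num) (tb := 4.1888) (by linarith) (by norm_num) (by norm_num) (by norm_num) (by norm_num) (by norm_num) (by norm_num) (by norm_num) (ex_un 11 0.556 (by norm_num) (by norm_num) (by norm_num) (by norm_num)) (by norm_num)) (by norm_num))) hY (by norm_num) (by norm_num) (by norm_num) (by norm_num) (by norm_num) (by norm_num) (by norm_num)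 (by norm_num) (by norm_num) (ex_un 6 0.9179 (by norm_num) (by norm_num) (by norm_num) (by norm_num)) (by norm_num) (by norm_num)
  exact b3_out0 0.2463 0.0006 hY (by norm_num) h1 h2 (by norm_num)

private theorem yI {κ t : ℝ} (h : DomR κ t) (hk1 : 0.5 ≤ κ) (hk2 : κ ≤ 0.53) (ht1 : -0.9234 ≤ t + κ) (ht2 : t + κ ≤ -0.71239) :
    (-0.643) ≤ sy κ t ∧ sy κ t ≤ (-0.409) := by
  have hy1 : -0.643 ≤ sy κ t := syL_ang2 h 0.5 0.53 0.9234 0.691 0.7706 0.6374 0.643 1.90216 0.52571 hk1 hk2 (by linarith) (by norm_num) (by norm_num) (by norm_num) (by norm_num)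
    (cos_ge_num (by norm_num) (by norm_num)) (sin_le_num (by norm_num) (by norm_num))
    (expn_ge (by norm_num) (by norm_num)) (expm_ge (by norm_num) (by norm_num) (by norm_num) (by norm_num)) (by norm_num) (by norm_num) (by norm_num)
    (by norm_num) (by norm_num) (by norm_num)
  have hy2 : sy κ t ≤ -0.409 := syL_le h 0.5 0.53 0.71239 0.409 0.66431 0.66432 0.51264 0.54342 hk1 hk2 (by linarith) (by norm_num) (by norm_num) (by norm_num)
    (expm_ge (by norm_num) (by norm_num) (by norm_num) (by norm_num)) (expm_le (by norm_num) (by norm_num) (by norm_num)) (by norm_num)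
    (by norm_num) (by norm_num) (by norm_num) (by norm_num) (by norm_num) (by norm_num)
  exact ⟨hy1, hy2⟩

theorem innE {β r h t κ : ℝ} (hh : h = 2 * Real.pi / (3 : ℕ)) (hβ : 0 < β) (hr : 10 ≤ r) (hκ : κ = β * r)
    (hk1 : 0.5 ≤ κ) (hk2 : κ ≤ 0.53) (hT1 : 1.171 ≤ t + κ) (hT2 : t + κ ≤ 1.382) :
    ‖Xf β r h t (-1)‖ ≤ 0.00518 * ‖Xf β r h t 0‖ ∧ ‖Xf β r h (t + β) (-1)‖ ≤ 0.00518 * ‖Xf β r h t 0‖ := by
  obtain ⟨q1, q2, q3⟩ := b3_h hh
  have hR0 := b3_R0 hβ hr hκ
  have hR := b3_R hβ hr hκ (by linarith)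
  have hD0 : DomR κ (t - h) := b3_dom (by linarith) (by linarith) (Or.inl (by linarith))
  have hy := yI hD0 hk1 hk2 (by linarith) (by linarith)
  have hY : 0.8568 * Real.exp (r * 0.52536) ≤ ‖Xf β r h t 0‖ :=
    b3_lo hβ hr hκ (k := 0) (t' := t - h) (by push_cast; ring) hD0 0.185 0.8186 0.8568 0.52536 (by norm_num)
      (T3_10_p0 hD0 hβ hk1 hk2 (by linarith) (by linarith) hR0 hR)
      (v5_Dup hD0 0.53 (-0.643) (-0.409) 1.90218 1.50532 0.8186 hk2 hy.1 hy.2 (ex_up 0.643 (by norm_num) (by norm_num) (by norm_num) (by norm_num)) (ex_up 0.409 (by norm_num) (by norm_num) (by norm_num) (by norm_num)) (by norm_num) (by norm_num) (by norm_num)) (by norm_num) (by norm_num)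
      (b3_Vlo hD0 0.5 0.53 (-0.9234) (-0.71239) 1.39 0.32931 0.7284 0.74623 0.29273 0.52536 hk1 hk2 (by linarith) (by linarith) (by norm_num) (ex_lp 0.32931 (by norm_num) (by norm_num) (by norm_num)) (by norm_num) (by norm_num) (by norm_num) (by norm_num) (by norm_num) (by norm_num) (by norm_num) (by norm_num) (ex_um 0.29273 (by norm_num) (by norm_num) (by norm_num) (by norm_num)) (by norm_num))
  constructor
  · exact b3_cmp 1 0 0.008685 0.47536 0 0.005178 0.00518 hr ((b3_Xm hh).trans_le (b3_U1 0.5 0.53 3.26539 3.4764 1.16459 0.09185 1.08218 0.9185 0.00002 0.4063 0.000001 0.5108 hβ hr hκ (by norm_num) hk1 hk2 (by linarith) (by linarith) (by norm_num) (by norm_num) (by norm_num) (by norm_num) (by norm_num) (by norm_num) (by norm_num) (by norm_num) (by norm_num) (by norm_num) (by norm_num) (by norm_num) (by norm_num) (ex_un 9 0.185 (by norm_num) (by norm_num) (by norm_num) (by norm_num)) (v5_hump 1.3249 18.867 4.3437 0.0000003148 0.000001 hβ hr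 hκ hk1 hk2 (by norm_num) (tb := 3.4764) (by linarith) (by norm_num) (by norm_num) (by norm_num) (by norm_num) (by norm_num) (by norm_num) (by norm_num) (ex_un 14 0.99 (by norm_num) (by norm_num) (by norm_num) (by norm_num)) (by norm_num)) (by norm_num))) hY (by norm_num) (by norm_num) (by norm_num) (by norm_num) (by norm_num) (by norm_num) (by norm_num) (by norm_num) (by norm_num) (ex_un 4 0.7536 (by norm_num) (by norm_num) (by norm_num) (by norm_num)) (by norm_num) (by norm_num)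
  · exact b3_cmp 1 0 0.008685 0.47536 0 0.005178 0.00518 hr ((b3_Xm hh).trans_le (b3_U1 0.5 0.53 3.26539 3.5294 1.16459 0.09185 1.08218 0.9185 0.00002 0.4063 0.000001 0.5108 hβ hr hκ (by norm_num) hk1 hk2 (by linarith) (by linarith) (by norm_num) (by norm_num) (by norm_num) (by norm_num) (by norm_num) (by norm_num) (by norm_num) (by norm_num) (by norm_num) (by norm_num) (by norm_num) (by norm_num) (by norm_num) (ex_un 9 0.185 (by norm_num) (by norm_num) (by norm_num) (by norm_num)) (v5_hump 1.2719 18.867 4.3437 0.0000003148 0.000001 hβ hr hκ hk1 hk2 (by norm_num) (tb := 3.5294) (by linarith) (by norm_num) (by norm_num) (by norm_num) (by norm_num) (by norm_num) (by norm_num) (by norm_num) (ex_un 14 0.99 (by norm_num) (by norm_num) (by norm_num) (by norm_num)) (by norm_num)) (by norm_num))) hY (by norm_num) (by norm_num) (by norm_num) (by norm_num) (by norm_num) (by norm_num) (by norm_num) (by norm_num) (by norm_num) (ex_un 4 0.7536 (by norm_num)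 (by norm_num) (by norm_num) (by norm_num)) (by norm_num) (by norm_num)

private theorem yA0 {κ t : ℝ} (h : DomR κ t) (hk1 : 0.5 ≤ κ) (hk2 : κ ≤ 0.53) (ht1 : 1.171 ≤ t + κ) (ht2 : t + κ ≤ 1.186) :
    0.29 ≤ sy κ t ∧ sy κ t ≤ 0.309 := by
  have hy1 : 0.29 ≤ sy κ t := syR_ge h 0.5 0.53 1.171 0.29 1.33642 1.33643 0.73124 0.77513 hk1 hk2 (by linarith) (by norm_num) (by norm_num)
    (expn_ge (by norm_num) (by norm_num)) (expn_le (by norm_num) (by norm_num) (by norm_num)) (by norm_num)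
    (by norm_num) (by norm_num) (by norm_num) (by norm_num) (by norm_num) (by norm_num)
  have hy2 : sy κ t ≤ 0.309 := syR_ang2 h 0.5 0.53 1.186 0.917 0.6091 0.7939 0.309 0.73419 1.36206 hk1 hk2 (by linarith) (by norm_num) (by norm_num) (by norm_num)
    (cos_le_num (by norm_num)) (sin_le_num (by norm_num) (by norm_num)) (expm_le (by norm_num) (by norm_num) (by norm_num))
    (expn_ge (by norm_num) (by norm_num)) (by norm_num) (by norm_num) (by norm_num) (by norm_num) (by norm_num)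
  exact ⟨hy1, hy2⟩

private theorem yB0 {κ t : ℝ} (h : DomR κ t) (hk1 : 0.5 ≤ κ) (hk2 : κ ≤ 0.53) (ht1 : -0.9234 ≤ t + κ) (ht2 : t + κ ≤ -0.90839) :
    (-0.643) ≤ sy κ t ∧ sy κ t ≤ (-0.588) := by
  have hy1 : -0.643 ≤ sy κ t := syL_ang2 h 0.5 0.53 0.9234 0.691 0.7706 0.6374 0.643 1.90216 0.52571 hk1 hk2 (by linarith) (by norm_num) (by norm_num) (by norm_num) (by norm_num)
    (cos_ge_num (by norm_num) (by norm_num)) (sin_le_num (by norm_num) (by norm_num))
    (expn_ge (by norm_num) (by norm_num)) (expm_ge (by norm_num) (by norm_num) (by norm_num) (by norm_num)) (by norm_num) (by norm_num) (by norm_num)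
    (by norm_num) (by norm_num) (by norm_num)
  have hy2 : sy κ t ≤ -0.588 := syL_le h 0.5 0.53 0.90839 0.588 0.55543 0.55544 0.61621 0.6532 hk1 hk2 (by linarith) (by norm_num) (by norm_num) (by norm_num)
    (expm_ge (by norm_num) (by norm_num) (by norm_num) (by norm_num)) (expm_le (by norm_num) (by norm_num) (by norm_num)) (by norm_num)
    (by norm_num) (by norm_num) (by norm_num) (by norm_num) (by norm_num) (by norm_num)
  exact ⟨hy1, hy2⟩

theorem pc0 {β r h t κ : ℝ} (hh : h = 2 * Real.pi / (3 : ℕ)) (hβ : 0 < β) (hr : 10 ≤ r) (hκ : κ = β * r)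
    (hk1 : 0.5 ≤ κ) (hk2 : κ ≤ 0.53) (hT1 : 1.171 ≤ t + κ) (hT2 : t + κ ≤ 1.186) :
    Xf β r h t 0 ≠ 0 ∧ r * 0.0588 ≤ (Ld β r h t 1 - Ld β r h t 0).im ∧
      ‖(((-1 : ℤ) : ℂ) - 1) * Ld β r h t 0 - ((-1 : ℤ) : ℂ) * Ld β r h t 1‖ ≤ r * 8.12 := by
  obtain ⟨q1, q2, q3⟩ := b3_h hh
  have hR0 := b3_R0 hβ hr hκ
  have hR := b3_R hβ hr hκ (by linarith)
  have hD1 : DomR κ t := b3_dom (by linarith) (by linarith) (Or.inl (by linarith))
  have hD0 : DomR κ (t - h) := b3_dom (by linarith) (by linarith) (Or.inl (by linarith))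
  have y1 := yA0 hD1 hk1 hk2 (by linarith) (by linarith)
  have y0 := yB0 hD0 hk1 hk2 (by linarith) (by linarith)
  have j1 := T3_10_d1_0 hD1 hβ hk1 hk2 (by linarith) (by linarith) hR0 hR
  exact b3_piece 0.5 0.53 0.29 0.309 0.299 0.74155 0.74827 0.73419 0.3966 1.7199 1.7695 0.05 0.035 0.035 0.7254 0.2194 0 0 (-0.643) (-0.588) (-0.616) 1.85149 1.90218 1.0082 0.6172 0.03 0.295 0.185 12.0655 15.4839 0.1676 0.2738 0.0588 8.12
    hβ hr hκ (by norm_num) hk1 hk2 hD1 hD0 j1 (j1 _ (by rw [sub_self, norm_zero]; norm_num))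
    (T3_10_d0_0 hD0 hβ hk1 hk2 (by linarith) (by linarith) hR0 hR)
    (T3_10_p0 hD0 hβ hk1 hk2 (by linarith) (by linarith) hR0 hR)
    y1.1 y1.2 y0.1 y0.2 (by norm_num)
    (ex_um 0.29 (by norm_num) (by norm_num) (by norm_num) (by norm_num)) (ex_um 0.309 (by norm_num) (by norm_num) (by norm_num) (by norm_num)) (ex_lm 0.299 (by norm_num) (by norm_num) (by norm_num) (by norm_num) (by norm_num)) (by norm_num) (by norm_num) (by norm_num) (by norm_num) (by norm_num) (by norm_num) (by norm_num) (by norm_num)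
    (by norm_num) (by norm_num) (by norm_num) (by norm_num) (by norm_num) (by norm_num) (by norm_num) (by norm_num) (by norm_num) (by norm_num)
    (ex_up 0.643 (by norm_num) (by norm_num) (by norm_num) (by norm_num)) (ex_lp 0.616 (by norm_num) (by norm_num) (by norm_num)) (by norm_num) (by norm_num) (by norm_num) (by norm_num) (by norm_num) (by norm_num)
    (by norm_num) (by norm_num) (by norm_num) (by norm_num) (by norm_num) (by norm_num) (by norm_num) (by norm_num) (by norm_num) (by norm_num) (by norm_num)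
    (by norm_num) (by norm_num) (by norm_num) (by norm_num)

private theorem yA1 {κ t : ℝ} (h : DomR κ t) (hk1 : 0.5 ≤ κ) (hk2 : κ ≤ 0.53) (ht1 : 1.186 ≤ t + κ) (ht2 : t + κ ≤ 1.201) :
    0.292 ≤ sy κ t ∧ sy κ t ≤ 0.311 := by
  have hy1 : 0.292 ≤ sy κ t := syR_ge h 0.5 0.53 1.186 0.292 1.3391 1.33911 0.73776 0.78205 hk1 hk2 (by linarith) (by norm_num) (by norm_num)
    (expn_ge (by norm_num) (by norm_num)) (expn_le (by norm_num) (by norm_num) (by norm_num)) (by norm_num)
    (by norm_num) (by norm_num) (by norm_num) (by norm_num) (by norm_num) (by norm_num)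
  have hy2 : sy κ t ≤ 0.311 := syR_ang2 h 0.5 0.53 1.201 0.928 0.6004 0.8006 0.311 0.73272 1.36478 hk1 hk2 (by linarith) (by norm_num) (by norm_num) (by norm_num)
    (cos_le_num (by norm_num)) (sin_le_num (by norm_num) (by norm_num)) (expm_le (by norm_num) (by norm_num) (by norm_num))
    (expn_ge (by norm_num) (by norm_num)) (by norm_num) (by norm_num) (by norm_num) (by norm_num) (by norm_num)
  exact ⟨hy1, hy2⟩

private theorem yB1 {κ t : ℝ} (h : DomR κ t) (hk1 : 0.5 ≤ κ) (hk2 : κ ≤ 0.53) (ht1 : -0.9084 ≤ t + κ) (ht2 : t + κ ≤ -0.89339) :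
    (-0.627) ≤ sy κ t ∧ sy κ t ≤ (-0.573) := by
  have hy1 : -0.627 ≤ sy κ t := syL_ang2 h 0.5 0.53 0.9084 0.683 0.7756 0.6312 0.627 1.87197 0.53419 hk1 hk2 (by linarith) (by norm_num) (by norm_num) (by norm_num) (by norm_num)
    (cos_ge_num (by norm_num) (by norm_num)) (sin_le_num (by norm_num) (by norm_num))
    (expn_ge (by norm_num) (by norm_num)) (expm_ge (by norm_num) (by norm_num) (by norm_num) (by norm_num)) (by norm_num) (by norm_num) (by norm_num)
    (by norm_num) (by norm_num) (by norm_num)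
  have hy2 : sy κ t ≤ -0.573 := syL_le h 0.5 0.53 0.89339 0.573 0.56383 0.56384 0.60957 0.64617 hk1 hk2 (by linarith) (by norm_num) (by norm_num) (by norm_num)
    (expm_ge (by norm_num) (by norm_num) (by norm_num) (by norm_num)) (expm_le (by norm_num) (by norm_num) (by norm_num)) (by norm_num)
    (by norm_num) (by norm_num) (by norm_num) (by norm_num) (by norm_num) (by norm_num)
  exact ⟨hy1, hy2⟩

theorem pc1 {β r h t κ : ℝ} (hh : h = 2 * Real.pi / (3 : ℕ)) (hβ : 0 < β) (hr : 10 ≤ r) (hκ : κ = β * r)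
    (hk1 : 0.5 ≤ κ) (hk2 : κ ≤ 0.53) (hT1 : 1.186 ≤ t + κ) (hT2 : t + κ ≤ 1.201) :
    Xf β r h t 0 ≠ 0 ∧ r * 0.0588 ≤ (Ld β r h t 1 - Ld β r h t 0).im ∧
      ‖(((-1 : ℤ) : ℂ) - 1) * Ld β r h t 0 - ((-1 : ℤ) : ℂ) * Ld β r h t 1‖ ≤ r * 8.12 := by
  obtain ⟨q1, q2, q3⟩ := b3_h hh
  have hR0 := b3_R0 hβ hr hκ
  have hR := b3_R hβ hr hκ (by linarith)
  have hD1 : DomR κ t := b3_dom (by linarith) (by linarith) (Or.inl (by linarith))
  have hD0 : DomR κ (t - h) := b3_dom (by linarith) (by linarith) (Or.inl (by linarith))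
  have y1 := yA1 hD1 hk1 hk2 (by linarith) (by linarith)
  have y0 := yB1 hD0 hk1 hk2 (by linarith) (by linarith)
  have j1 := T3_10_d1_0 hD1 hβ hk1 hk2 (by linarith) (by linarith) hR0 hR
  exact b3_piece 0.5 0.53 0.292 0.311 0.301 0.74007 0.74677 0.73272 0.3958 1.7233 1.7729 0.05 0.035 0.035 0.7254 0.2188 0 0 (-0.627) (-0.573) (-0.6) 1.82211 1.87199 0.9922 0.6208 0.03 0.295 0.185 12.0655 15.1939 0.1879 0.3004 0.0588 8.12
    hβ hr hκ (by norm_num) hk1 hk2 hD1 hD0 j1 (j1 _ (by rw [sub_self, norm_zero]; norm_num))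
    (T3_10_d0_0 hD0 hβ hk1 hk2 (by linarith) (by linarith) hR0 hR)
    (T3_10_p0 hD0 hβ hk1 hk2 (by linarith) (by linarith) hR0 hR)
    y1.1 y1.2 y0.1 y0.2 (by norm_num)
    (ex_um 0.292 (by norm_num) (by norm_num) (by norm_num) (by norm_num)) (ex_um 0.311 (by norm_num) (by norm_num) (by norm_num) (by norm_num)) (ex_lm 0.301 (by norm_num) (by norm_num) (by norm_num) (by norm_num) (by norm_num)) (by norm_num) (by norm_num) (by norm_num) (by norm_num) (by norm_num) (by norm_num) (by norm_num) (by norm_num)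
    (by norm_num) (by norm_num) (by norm_num) (by norm_num) (by norm_num) (by norm_num) (by norm_num) (by norm_num) (by norm_num) (by norm_num)
    (ex_up 0.627 (by norm_num) (by norm_num) (by norm_num) (by norm_num)) (ex_lp 0.6 (by norm_num) (by norm_num) (by norm_num)) (by norm_num) (by norm_num) (by norm_num) (by norm_num) (by norm_num) (by norm_num)
    (by norm_num) (by norm_num) (by norm_num) (by norm_num) (by norm_num) (by norm_num) (by norm_num) (by norm_num) (by norm_num) (by norm_num) (by norm_num)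
    (by norm_num) (by norm_num) (by norm_num) (by norm_num)

private theorem yA2 {κ t : ℝ} (h : DomR κ t) (hk1 : 0.5 ≤ κ) (hk2 : κ ≤ 0.53) (ht1 : 1.201 ≤ t + κ) (ht2 : t + κ ≤ 1.218) :
    0.294 ≤ sy κ t ∧ sy κ t ≤ 0.313 := by
  have hy1 : 0.294 ≤ sy κ t := syR_ge h 0.5 0.53 1.201 0.294 1.34178 1.34179 0.7443 0.78898 hk1 hk2 (by linarith) (by norm_num) (by norm_num)
    (expn_ge (by norm_num) (by norm_num)) (expn_le (by norm_num) (by norm_num) (by norm_num)) (by norm_num)
    (by norm_num) (by norm_num) (by norm_num) (by norm_num) (by norm_num) (by norm_num)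
  have hy2 : sy κ t ≤ 0.313 := syR_ang2 h 0.5 0.53 1.218 0.939 0.5916 0.8071 0.313 0.73125 1.36752 hk1 hk2 (by linarith) (by norm_num) (by norm_num) (by norm_num)
    (cos_le_num (by norm_num)) (sin_le_num (by norm_num) (by norm_num)) (expm_le (by norm_num) (by norm_num) (by norm_num))
    (expn_ge (by norm_num) (by norm_num)) (by norm_num) (by norm_num) (by norm_num) (by norm_num) (by norm_num)
  exact ⟨hy1, hy2⟩

private theorem yB2 {κ t : ℝ} (h : DomR κ t) (hk1 : 0.5 ≤ κ) (hk2 : κ ≤ 0.53) (ht1 : -0.8934 ≤ t + κ) (ht2 : t + κ ≤ -0.87639) :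
    (-0.61) ≤ sy κ t ∧ sy κ t ≤ (-0.556) := by
  have hy1 : -0.61 ≤ sy κ t := syL_ang2 h 0.5 0.53 0.8934 0.675 0.7807 0.625 0.61 1.84042 0.54335 hk1 hk2 (by linarith) (by norm_num) (by norm_num) (by norm_num) (by norm_num)
    (cos_ge_num (by norm_num) (by norm_num)) (sin_le_num (by norm_num) (by norm_num))
    (expn_ge (by norm_num) (by norm_num)) (expm_ge (by norm_num) (by norm_num) (by norm_num) (by norm_num)) (by norm_num) (by norm_num) (by norm_num)
    (by norm_num) (by norm_num) (by norm_num)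
  have hy2 : sy κ t ≤ -0.556 := syL_le h 0.5 0.53 0.87639 0.556 0.57349 0.5735 0.60162 0.63774 hk1 hk2 (by linarith) (by norm_num) (by norm_num) (by norm_num)
    (expm_ge (by norm_num) (by norm_num) (by norm_num) (by norm_num)) (expm_le (by norm_num) (by norm_num) (by norm_num)) (by norm_num)
    (by norm_num) (by norm_num) (by norm_num) (by norm_num) (by norm_num) (by norm_num)
  exact ⟨hy1, hy2⟩

theorem pc2 {β r h t κ : ℝ} (hh : h = 2 * Real.pi / (3 : ℕ)) (hβ : 0 < β) (hr : 10 ≤ r) (hκ : κ = β * r)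
    (hk1 : 0.5 ≤ κ) (hk2 : κ ≤ 0.53) (hT1 : 1.201 ≤ t + κ) (hT2 : t + κ ≤ 1.218) :
    Xf β r h t 0 ≠ 0 ∧ r * 0.0588 ≤ (Ld β r h t 1 - Ld β r h t 0).im ∧
      ‖(((-1 : ℤ) : ℂ) - 1) * Ld β r h t 0 - ((-1 : ℤ) : ℂ) * Ld β r h t 1‖ ≤ r * 8.12 := by
  obtain ⟨q1, q2, q3⟩ := b3_h hh
  have hR0 := b3_R0 hβ hr hκ
  have hR := b3_R hβ hr hκ (by linarith)
  have hD1 : DomR κ t := b3_dom (by linarith) (by linarith) (Or.inl (by linarith))
  have hD0 : DomR κ (t - h) := b3_dom (by linarith) (by linarith) (Or.inl (by linarith))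
  have y1 := yA2 hD1 hk1 hk2 (by linarith) (by linarith)
  have y0 := yB2 hD0 hk1 hk2 (by linarith) (by linarith)
  have j1 := T3_10_d1_1 hD1 hβ hk1 hk2 (by linarith) (by linarith) hR0 hR
  exact b3_piece 0.5 0.53 0.294 0.313 0.303 0.73859 0.74528 0.73125 0.395 1.7268 1.7763 0.04 0.04 0.04 1.0417 0.3132 0 0 (-0.61) (-0.556) (-0.583) 1.79139 1.84044 0.9755 0.6255 0.04 0.28 0.185 8.589 10.594 0.2099 0.3274 0.0588 8.12
    hβ hr hκ (by norm_num) hk1 hk2 hD1 hD0 j1 (j1 _ (by rw [sub_self, norm_zero]; norm_num))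
    (T3_10_d0_1 hD0 hβ hk1 hk2 (by linarith) (by linarith) hR0 hR)
    (T3_10_p0 hD0 hβ hk1 hk2 (by linarith) (by linarith) hR0 hR)
    y1.1 y1.2 y0.1 y0.2 (by norm_num)
    (ex_um 0.294 (by norm_num) (by norm_num) (by norm_num) (by norm_num)) (ex_um 0.313 (by norm_num) (by norm_num) (by norm_num) (by norm_num)) (ex_lm 0.303 (by norm_num) (by norm_num) (by norm_num) (by norm_num) (by norm_num)) (by norm_num) (by norm_num) (by norm_num) (by norm_num) (by norm_num) (by norm_num) (by norm_num) (by norm_num)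
    (by norm_num) (by norm_num) (by norm_num) (by norm_num) (by norm_num) (by norm_num) (by norm_num) (by norm_num) (by norm_num) (by norm_num)
    (ex_up 0.61 (by norm_num) (by norm_num) (by norm_num) (by norm_num)) (ex_lp 0.583 (by norm_num) (by norm_num) (by norm_num)) (by norm_num) (by norm_num) (by norm_num) (by norm_num) (by norm_num) (by norm_num)
    (by norm_num) (by norm_num) (by norm_num) (by norm_num) (by norm_num) (by norm_num) (by norm_num) (by norm_num) (by norm_num) (by norm_num) (by norm_num)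
    (by norm_num) (by norm_num) (by norm_num) (by norm_num)

private theorem yA3 {κ t : ℝ} (h : DomR κ t) (hk1 : 0.5 ≤ κ) (hk2 : κ ≤ 0.53) (ht1 : 1.218 ≤ t + κ) (ht2 : t + κ ≤ 1.236) :
    0.297 ≤ sy κ t ∧ sy κ t ≤ 0.315 := by
  have hy1 : 0.297 ≤ sy κ t := syR_ge h 0.5 0.53 1.218 0.297 1.34581 1.34582 0.75416 0.79942 hk1 hk2 (by linarith) (by norm_num) (by norm_num)
    (expn_ge (by norm_num) (by norm_num)) (expn_le (by norm_num) (by norm_num) (by norm_num)) (by norm_num)
    (by norm_num) (by norm_num) (by norm_num) (by norm_num) (by norm_num) (by norm_num)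
  have hy2 : sy κ t ≤ 0.315 := syR_ang2 h 0.5 0.53 1.236 0.951 0.5819 0.8142 0.315 0.72979 1.37025 hk1 hk2 (by linarith) (by norm_num) (by norm_num) (by norm_num)
    (cos_le_num (by norm_num)) (sin_le_num (by norm_num) (by norm_num)) (expm_le (by norm_num) (by norm_num) (by norm_num))
    (expn_ge (by norm_num) (by norm_num)) (by norm_num) (by norm_num) (by norm_num) (by norm_num) (by norm_num)
  exact ⟨hy1, hy2⟩

private theorem yB3 {κ t : ℝ} (h : DomR κ t) (hk1 : 0.5 ≤ κ) (hk2 : κ ≤ 0.53) (ht1 : -0.8764 ≤ t + κ) (ht2 : t + κ ≤ -0.85839) :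
    (-0.592) ≤ sy κ t ∧ sy κ t ≤ (-0.539) := by
  have hy1 : -0.592 ≤ sy κ t := syL_ang2 h 0.5 0.53 0.8764 0.666 0.7862 0.6179 0.592 1.80759 0.55321 hk1 hk2 (by linarith) (by norm_num) (by norm_num) (by norm_num) (by norm_num)
    (cos_ge_num (by norm_num) (by norm_num)) (sin_le_num (by norm_num) (by norm_num))
    (expn_ge (by norm_num) (by norm_num)) (expm_ge (by norm_num) (by norm_num) (by norm_num) (by norm_num)) (by norm_num) (by norm_num) (by norm_num)
    (by norm_num) (by norm_num) (by norm_num)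
  have hy2 : sy κ t ≤ -0.539 := syL_le h 0.5 0.53 0.85839 0.539 0.58333 0.58334 0.59323 0.62885 hk1 hk2 (by linarith) (by norm_num) (by norm_num) (by norm_num)
    (expm_ge (by norm_num) (by norm_num) (by norm_num) (by norm_num)) (expm_le (by norm_num) (by norm_num) (by norm_num)) (by norm_num)
    (by norm_num) (by norm_num) (by norm_num) (by norm_num) (by norm_num) (by norm_num)
  exact ⟨hy1, hy2⟩

theorem pc3 {β r h t κ : ℝ} (hh : h = 2 * Real.pi / (3 : ℕ)) (hβ : 0 < β) (hr : 10 ≤ r) (hκ : κ = β * r)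
    (hk1 : 0.5 ≤ κ) (hk2 : κ ≤ 0.53) (hT1 : 1.218 ≤ t + κ) (hT2 : t + κ ≤ 1.236) :
    Xf β r h t 0 ≠ 0 ∧ r * 0.0588 ≤ (Ld β r h t 1 - Ld β r h t 0).im ∧
      ‖(((-1 : ℤ) : ℂ) - 1) * Ld β r h t 0 - ((-1 : ℤ) : ℂ) * Ld β r h t 1‖ ≤ r * 8.12 := by
  obtain ⟨q1, q2, q3⟩ := b3_h hh
  have hR0 := b3_R0 hβ hr hκ
  have hR := b3_R hβ hr hκ (by linarith)
  have hD1 : DomR κ t := b3_dom (by linarith) (by linarith) (Or.inl (by linarith))
  have hD0 : DomR κ (t - h) := b3_dom (by linarith) (by linarith) (Or.inl (by linarith))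
  have y1 := yA3 hD1 hk1 hk2 (by linarith) (by linarith)
  have y0 := yB3 hD0 hk1 hk2 (by linarith) (by linarith)
  have j1 := T3_10_d1_1 hD1 hβ hk1 hk2 (by linarith) (by linarith) hR0 hR
  exact b3_piece 0.5 0.53 0.297 0.315 0.306 0.73638 0.74305 0.72979 0.3939 1.732 1.7797 0.04 0.04 0.04 1.0417 0.3118 0 0 (-0.592) (-0.539) (-0.566) 1.7612 1.80761 0.9581 0.6317 0.04 0.28 0.185 8.589 10.3538 0.2298 0.3486 0.0588 8.12
    hβ hr hκ (by norm_num) hk1 hk2 hD1 hD0 j1 (j1 _ (by rw [sub_self, norm_zero]; norm_num))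
    (T3_10_d0_1 hD0 hβ hk1 hk2 (by linarith) (by linarith) hR0 hR)
    (T3_10_p0 hD0 hβ hk1 hk2 (by linarith) (by linarith) hR0 hR)
    y1.1 y1.2 y0.1 y0.2 (by norm_num)
    (ex_um 0.297 (by norm_num) (by norm_num) (by norm_num) (by norm_num)) (ex_um 0.315 (by norm_num) (by norm_num) (by norm_num) (by norm_num)) (ex_lm 0.306 (by norm_num) (by norm_num) (by norm_num) (by norm_num) (by norm_num)) (by norm_num) (by norm_num) (by norm_num) (by norm_num) (by norm_num) (by norm_num) (by norm_num) (by norm_num)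
    (by norm_num) (by norm_num) (by norm_num) (by norm_num) (by norm_num) (by norm_num) (by norm_num) (by norm_num) (by norm_num) (by norm_num)
    (ex_up 0.592 (by norm_num) (by norm_num) (by norm_num) (by norm_num)) (ex_lp 0.566 (by norm_num) (by norm_num) (by norm_num)) (by norm_num) (by norm_num) (by norm_num) (by norm_num) (by norm_num) (by norm_num)
    (by norm_num) (by norm_num) (by norm_num) (by norm_num) (by norm_num) (by norm_num) (by norm_num) (by norm_num) (by norm_num) (by norm_num) (by norm_num)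
    (by norm_num) (by norm_num) (by norm_num) (by norm_num)

private theorem yA4 {κ t : ℝ} (h : DomR κ t) (hk1 : 0.5 ≤ κ) (hk2 : κ ≤ 0.53) (ht1 : 1.236 ≤ t + κ) (ht2 : t + κ ≤ 1.254) :
    0.297 ≤ sy κ t ∧ sy κ t ≤ 0.317 := by
  have hy1 : 0.297 ≤ sy κ t := syR_ge h 0.5 0.53 1.236 0.297 1.34581 1.34582 0.75416 0.79942 hk1 hk2 (by linarith) (by norm_num) (by norm_num)
    (expn_ge (by norm_num) (by norm_num)) (expn_le (by norm_num) (by norm_num) (by norm_num)) (by norm_num)
    (by norm_num) (by norm_num) (by norm_num) (by norm_num) (by norm_num) (by norm_num)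
  have hy2 : sy κ t ≤ 0.317 := syR_ang2 h 0.5 0.53 1.254 0.963 0.5722 0.8211 0.317 0.72834 1.373 hk1 hk2 (by linarith) (by norm_num) (by norm_num) (by norm_num)
    (cos_le_num (by norm_num)) (sin_le_num (by norm_num) (by norm_num)) (expm_le (by norm_num) (by norm_num) (by norm_num))
    (expn_ge (by norm_num) (by norm_num)) (by norm_num) (by norm_num) (by norm_num) (by norm_num) (by norm_num)
  exact ⟨hy1, hy2⟩

private theorem yB4 {κ t : ℝ} (h : DomR κ t) (hk1 : 0.5 ≤ κ) (hk2 : κ ≤ 0.53) (ht1 : -0.8584 ≤ t + κ) (ht2 : t + κ ≤ -0.84039) :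
    (-0.574) ≤ sy κ t ∧ sy κ t ≤ (-0.522) := by
  have hy1 : -0.574 ≤ sy κ t := syL_ang2 h 0.5 0.53 0.8584 0.656 0.7924 0.61 0.574 1.77534 0.56326 hk1 hk2 (by linarith) (by norm_num) (by norm_num) (by norm_num) (by norm_num)
    (cos_ge_num (by norm_num) (by norm_num)) (sin_le_num (by norm_num) (by norm_num))
    (expn_ge (by norm_num) (by norm_num)) (expm_ge (by norm_num) (by norm_num) (by norm_num) (by norm_num)) (by norm_num) (by norm_num) (by norm_num)
    (by norm_num) (by norm_num) (by norm_num)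
  have hy2 : sy κ t ≤ -0.522 := syL_le h 0.5 0.53 0.84039 0.522 0.59333 0.59334 0.58437 0.61945 hk1 hk2 (by linarith) (by norm_num) (by norm_num) (by norm_num)
    (expm_ge (by norm_num) (by norm_num) (by norm_num) (by norm_num)) (expm_le (by norm_num) (by norm_num) (by norm_num)) (by norm_num)
    (by norm_num) (by norm_num) (by norm_num) (by norm_num) (by norm_num) (by norm_num)
  exact ⟨hy1, hy2⟩

theorem pc4 {β r h t κ : ℝ} (hh : h = 2 * Real.pi / (3 : ℕ)) (hβ : 0 < β) (hr : 10 ≤ r) (hκ : κ = β * r)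
    (hk1 : 0.5 ≤ κ) (hk2 : κ ≤ 0.53) (hT1 : 1.236 ≤ t + κ) (hT2 : t + κ ≤ 1.254) :
    Xf β r h t 0 ≠ 0 ∧ r * 0.0588 ≤ (Ld β r h t 1 - Ld β r h t 0).im ∧
      ‖(((-1 : ℤ) : ℂ) - 1) * Ld β r h t 0 - ((-1 : ℤ) : ℂ) * Ld β r h t 1‖ ≤ r * 8.12 := by
  obtain ⟨q1, q2, q3⟩ := b3_h hh
  have hR0 := b3_R0 hβ hr hκ
  have hR := b3_R hβ hr hκ (by linarith)
  have hD1 : DomR κ t := b3_dom (by linarith) (by linarith) (Or.inl (by linarith))
  have hD0 : DomR κ (t - h) := b3_dom (by linarith) (by linarith) (Or.inl (by linarith))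
  have y1 := yA4 hD1 hk1 hk2 (by linarith) (by linarith)
  have y0 := yB4 hD0 hk1 hk2 (by linarith) (by linarith)
  have j1 := T3_10_d1_1 hD1 hβ hk1 hk2 (by linarith) (by linarith) hR0 hR
  exact b3_piece 0.5 0.53 0.297 0.317 0.307 0.73565 0.74305 0.72834 0.3939 1.732 1.7831 0.04 0.04 0.04 1.0417 0.3118 0 0 (-0.574) (-0.522) (-0.548) 1.72978 1.77536 0.941 0.6389 0.04 0.28 0.185 8.589 10.1116 0.2482 0.3656 0.0588 8.12
    hβ hr hκ (by norm_num) hk1 hk2 hD1 hD0 j1 (j1 _ (by rw [sub_self, norm_zero]; norm_num))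
    (T3_10_d0_1 hD0 hβ hk1 hk2 (by linarith) (by linarith) hR0 hR)
    (T3_10_p0 hD0 hβ hk1 hk2 (by linarith) (by linarith) hR0 hR)
    y1.1 y1.2 y0.1 y0.2 (by norm_num)
    (ex_um 0.297 (by norm_num) (by norm_num) (by norm_num) (by norm_num)) (ex_um 0.317 (by norm_num) (by norm_num) (by norm_num) (by norm_num)) (ex_lm 0.307 (by norm_num) (by norm_num) (by norm_num) (by norm_num) (by norm_num)) (by norm_num) (by norm_num) (by norm_num) (by norm_num) (by norm_num) (by norm_num) (by norm_num) (by norm_num)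
    (by norm_num) (by norm_num) (by norm_num) (by norm_num) (by norm_num) (by norm_num) (by norm_num) (by norm_num) (by norm_num) (by norm_num)
    (ex_up 0.574 (by norm_num) (by norm_num) (by norm_num) (by norm_num)) (ex_lp 0.548 (by norm_num) (by norm_num) (by norm_num)) (by norm_num) (by norm_num) (by norm_num) (by norm_num) (by norm_num) (by norm_num)
    (by norm_num) (by norm_num) (by norm_num) (by norm_num) (by norm_num) (by norm_num) (by norm_num) (by norm_num) (by norm_num) (by norm_num) (by norm_num)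
    (by norm_num) (by norm_num) (by norm_num) (by norm_num)

private theorem yA5 {κ t : ℝ} (h : DomR κ t) (hk1 : 0.5 ≤ κ) (hk2 : κ ≤ 0.53) (ht1 : 1.254 ≤ t + κ) (ht2 : t + κ ≤ 1.271) :
    0.297 ≤ sy κ t ∧ sy κ t ≤ 0.32 := by
  have hy1 : 0.297 ≤ sy κ t := syR_ge h 0.5 0.53 1.254 0.297 1.34581 1.34582 0.75416 0.79942 hk1 hk2 (by linarith) (by norm_num) (by norm_num)
    (expn_ge (by norm_num) (by norm_num)) (expn_le (by norm_num) (by norm_num) (by norm_num)) (by norm_num)
    (by norm_num) (by norm_num) (by norm_num) (by norm_num) (by norm_num) (by norm_num)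
  have hy2 : sy κ t ≤ 0.32 := syR_ang2 h 0.5 0.53 1.271 0.981 0.5575 0.8313 0.32 0.72615 1.37712 hk1 hk2 (by linarith) (by norm_num) (by norm_num) (by norm_num)
    (cos_le_num (by norm_num)) (sin_le_num (by norm_num) (by norm_num)) (expm_le (by norm_num) (by norm_num) (by norm_num))
    (expn_ge (by norm_num) (by norm_num)) (by norm_num) (by norm_num) (by norm_num) (by norm_num) (by norm_num)
  exact ⟨hy1, hy2⟩

private theorem yB5 {κ t : ℝ} (h : DomR κ t) (hk1 : 0.5 ≤ κ) (hk2 : κ ≤ 0.53) (ht1 : -0.8404 ≤ t + κ) (ht2 : t + κ ≤ -0.82339) :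
    (-0.555) ≤ sy κ t ∧ sy κ t ≤ (-0.506) := by
  have hy1 : -0.555 ≤ sy κ t := syL_ang2 h 0.5 0.53 0.8404 0.644 0.7996 0.6005 0.555 1.74193 0.57407 hk1 hk2 (by linarith) (by norm_num) (by norm_num) (by norm_num) (by norm_num)
    (cos_ge_num (by norm_num) (by norm_num)) (sin_le_num (by norm_num) (by norm_num))
    (expn_ge (by norm_num) (by norm_num)) (expm_ge (by norm_num) (by norm_num) (by norm_num) (by norm_num)) (by norm_num) (by norm_num) (by norm_num)
    (by norm_num) (by norm_num) (by norm_num)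
  have hy2 : sy κ t ≤ -0.506 := syL_le h 0.5 0.53 0.82339 0.506 0.6029 0.60291 0.57559 0.61015 hk1 hk2 (by linarith) (by norm_num) (by norm_num) (by norm_num)
    (expm_ge (by norm_num) (by norm_num) (by norm_num) (by norm_num)) (expm_le (by norm_num) (by norm_num) (by norm_num)) (by norm_num)
    (by norm_num) (by norm_num) (by norm_num) (by norm_num) (by norm_num) (by norm_num)
  exact ⟨hy1, hy2⟩

theorem pc5 {β r h t κ : ℝ} (hh : h = 2 * Real.pi / (3 : ℕ)) (hβ : 0 < β) (hr : 10 ≤ r) (hκ : κ = β * r)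
    (hk1 : 0.5 ≤ κ) (hk2 : κ ≤ 0.53) (hT1 : 1.254 ≤ t + κ) (hT2 : t + κ ≤ 1.271) :
    Xf β r h t 0 ≠ 0 ∧ r * 0.0588 ≤ (Ld β r h t 1 - Ld β r h t 0).im ∧
      ‖(((-1 : ℤ) : ℂ) - 1) * Ld β r h t 0 - ((-1 : ℤ) : ℂ) * Ld β r h t 1‖ ≤ r * 8.12 := by
  obtain ⟨q1, q2, q3⟩ := b3_h hh
  have hR0 := b3_R0 hβ hr hκ
  have hR := b3_R hβ hr hκ (by linarith)
  have hD1 : DomR κ t := b3_dom (by linarith) (by linarith) (Or.inl (by linarith))
  have hD0 : DomR κ (t - h) := b3_dom (by linarith) (by linarith) (Or.inl (by linarith))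
  have y1 := yA5 hD1 hk1 hk2 (by linarith) (by linarith)
  have y0 := yB5 hD0 hk1 hk2 (by linarith) (by linarith)
  have j1 := T3_10_d1_1 hD1 hβ hk1 hk2 (by linarith) (by linarith) hR0 hR
  exact b3_piece 0.5 0.53 0.297 0.32 0.308 0.73491 0.74305 0.72615 0.3939 1.7319 1.7882 0.04 0.04 0.04 1.0417 0.3118 0 0 (-0.555) (-0.506) (-0.53) 1.69892 1.74195 0.9233 0.6476 0.04 0.28 0.185 8.589 9.8545 0.2629 0.3749 0.0588 8.12
    hβ hr hκ (by norm_num) hk1 hk2 hD1 hD0 j1 (j1 _ (by rw [sub_self, norm_zero]; norm_num))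
    (T3_10_d0_1 hD0 hβ hk1 hk2 (by linarith) (by linarith) hR0 hR)
    (T3_10_p0 hD0 hβ hk1 hk2 (by linarith) (by linarith) hR0 hR)
    y1.1 y1.2 y0.1 y0.2 (by norm_num)
    (ex_um 0.297 (by norm_num) (by norm_num) (by norm_num) (by norm_num)) (ex_um 0.32 (by norm_num) (by norm_num) (by norm_num) (by norm_num)) (ex_lm 0.308 (by norm_num) (by norm_num) (by norm_num) (by norm_num) (by norm_num)) (by norm_num) (by norm_num) (by norm_num) (by norm_num) (by norm_num) (by norm_num) (by norm_num) (by norm_num)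
    (by norm_num) (by norm_num) (by norm_num) (by norm_num) (by norm_num) (by norm_num) (by norm_num) (by norm_num) (by norm_num) (by norm_num)
    (ex_up 0.555 (by norm_num) (by norm_num) (by norm_num) (by norm_num)) (ex_lp 0.53 (by norm_num) (by norm_num) (by norm_num)) (by norm_num) (by norm_num) (by norm_num) (by norm_num) (by norm_num) (by norm_num)
    (by norm_num) (by norm_num) (by norm_num) (by norm_num) (by norm_num) (by norm_num) (by norm_num) (by norm_num) (by norm_num) (by norm_num) (by norm_num)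
    (by norm_num) (by norm_num) (by norm_num) (by norm_num)

private theorem yA6 {κ t : ℝ} (h : DomR κ t) (hk1 : 0.5 ≤ κ) (hk2 : κ ≤ 0.53) (ht1 : 1.271 ≤ t + κ) (ht2 : t + κ ≤ 1.29) :
    0.297 ≤ sy κ t ∧ sy κ t ≤ 0.322 := by
  have hy1 : 0.297 ≤ sy κ t := syR_ge h 0.5 0.53 1.271 0.297 1.34581 1.34582 0.75416 0.79942 hk1 hk2 (by linarith) (by norm_num) (by norm_num)
    (expn_ge (by norm_num) (by norm_num)) (expn_le (by norm_num) (by norm_num) (by norm_num)) (by norm_num)
    (by norm_num) (by norm_num) (by norm_num) (by norm_num) (by norm_num) (by norm_num)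
  have hy2 : sy κ t ≤ 0.322 := syR_ang2 h 0.5 0.53 1.29 0.993 0.5475 0.8379 0.322 0.7247 1.37988 hk1 hk2 (by linarith) (by norm_num) (by norm_num) (by norm_num)
    (cos_le_num (by norm_num)) (sin_le_num (by norm_num) (by norm_num)) (expm_le (by norm_num) (by norm_num) (by norm_num))
    (expn_ge (by norm_num) (by norm_num)) (by norm_num) (by norm_num) (by norm_num) (by norm_num) (by norm_num)
  exact ⟨hy1, hy2⟩

private theorem yB6 {κ t : ℝ} (h : DomR κ t) (hk1 : 0.5 ≤ κ) (hk2 : κ ≤ 0.53) (ht1 : -0.8234 ≤ t + κ) (ht2 : t + κ ≤ -0.80439) :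
    (-0.538) ≤ sy κ t ∧ sy κ t ≤ (-0.488) := by
  have hy1 : -0.538 ≤ sy κ t := syL_ang2 h 0.5 0.53 0.8234 0.634 0.8056 0.5924 0.538 1.71257 0.58391 hk1 hk2 (by linarith) (by norm_num) (by norm_num) (by norm_num) (by norm_num)
    (cos_ge_num (by norm_num) (by norm_num)) (sin_le_num (by norm_num) (by norm_num))
    (expn_ge (by norm_num) (by norm_num)) (expm_ge (by norm_num) (by norm_num) (by norm_num) (by norm_num)) (by norm_num) (by norm_num) (by norm_num)
    (by norm_num) (by norm_num) (by norm_num)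
  have hy2 : sy κ t ≤ -0.488 := syL_le h 0.5 0.53 0.80439 0.488 0.61385 0.61386 0.5652 0.59913 hk1 hk2 (by linarith) (by norm_num) (by norm_num) (by norm_num)
    (expm_ge (by norm_num) (by norm_num) (by norm_num) (by norm_num)) (expm_le (by norm_num) (by norm_num) (by norm_num)) (by norm_num)
    (by norm_num) (by norm_num) (by norm_num) (by norm_num) (by norm_num) (by norm_num)
  exact ⟨hy1, hy2⟩

theorem pc6 {β r h t κ : ℝ} (hh : h = 2 * Real.pi / (3 : ℕ)) (hβ : 0 < β) (hr : 10 ≤ r) (hκ : κ = β * r)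
    (hk1 : 0.5 ≤ κ) (hk2 : κ ≤ 0.53) (hT1 : 1.271 ≤ t + κ) (hT2 : t + κ ≤ 1.29) :
    Xf β r h t 0 ≠ 0 ∧ r * 0.0588 ≤ (Ld β r h t 1 - Ld β r h t 0).im ∧
      ‖(((-1 : ℤ) : ℂ) - 1) * Ld β r h t 0 - ((-1 : ℤ) : ℂ) * Ld β r h t 1‖ ≤ r * 8.12 := by
  obtain ⟨q1, q2, q3⟩ := b3_h hh
  have hR0 := b3_R0 hβ hr hκ
  have hR := b3_R hβ hr hκ (by linarith)
  have hD1 : DomR κ t := b3_dom (by linarith) (by linarith) (Or.inl (by linarith))
  have hD0 : DomR κ (t - h) := b3_dom (by linarith) (by linarith) (Or.inl (by linarith))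
  have y1 := yA6 hD1 hk1 hk2 (by linarith) (by linarith)
  have y0 := yB6 hD0 hk1 hk2 (by linarith) (by linarith)
  have j1 := T3_10_d1_2 hD1 hβ hk1 hk2 (by linarith) (by linarith) hR0 hR
  exact b3_piece 0.5 0.53 0.297 0.322 0.309 0.73418 0.74305 0.7247 0.3939 1.7319 1.7916 0.05 0.21 0.21 5.3165 1.5913 0 0 (-0.538) (-0.488) (-0.513) 1.67029 1.71258 0.9077 0.6563 0.05 0.205 0.185 5.0307 5.6367 0.2802 0.3876 0.0588 8.12
    hβ hr hκ (by norm_num) hk1 hk2 hD1 hD0 j1 (j1 _ (by rw [sub_self, norm_zero]; norm_num))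
    (T3_10_d0_2 hD0 hβ hk1 hk2 (by linarith) (by linarith) hR0 hR)
    (T3_10_p0 hD0 hβ hk1 hk2 (by linarith) (by linarith) hR0 hR)
    y1.1 y1.2 y0.1 y0.2 (by norm_num)
    (ex_um 0.297 (by norm_num) (by norm_num) (by norm_num) (by norm_num)) (ex_um 0.322 (by norm_num) (by norm_num) (by norm_num) (by norm_num)) (ex_lm 0.309 (by norm_num) (by norm_num) (by norm_num) (by norm_num) (by norm_num)) (by norm_num) (by norm_num) (by norm_num) (by norm_num) (by norm_num) (by norm_num) (by norm_num) (by norm_num)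
    (by norm_num) (by norm_num) (by norm_num) (by norm_num) (by norm_num) (by norm_num) (by norm_num) (by norm_num) (by norm_num) (by norm_num)
    (ex_up 0.538 (by norm_num) (by norm_num) (by norm_num) (by norm_num)) (ex_lp 0.513 (by norm_num) (by norm_num) (by norm_num)) (by norm_num) (by norm_num) (by norm_num) (by norm_num) (by norm_num) (by norm_num)
    (by norm_num) (by norm_num) (by norm_num) (by norm_num) (by norm_num) (by norm_num) (by norm_num) (by norm_num) (by norm_num) (by norm_num) (by norm_num)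
    (by norm_num) (by norm_num) (by norm_num) (by norm_num)

private theorem yA7 {κ t : ℝ} (h : DomR κ t) (hk1 : 0.5 ≤ κ) (hk2 : κ ≤ 0.53) (ht1 : 1.29 ≤ t + κ) (ht2 : t + κ ≤ 1.308) :
    0.297 ≤ sy κ t ∧ sy κ t ≤ 0.324 := by
  have hy1 : 0.297 ≤ sy κ t := syR_ge h 0.5 0.53 1.29 0.297 1.34581 1.34582 0.75416 0.79942 hk1 hk2 (by linarith) (by norm_num) (by norm_num)
    (expn_ge (by norm_num) (by norm_num)) (expn_le (by norm_num) (by norm_num) (by norm_num)) (by norm_num)
    (by norm_num) (by norm_num) (by norm_num) (by norm_num) (by norm_num) (by norm_num)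
  have hy2 : sy κ t ≤ 0.324 := syR_ang2 h 0.5 0.53 1.308 1.006 0.5367 0.845 0.324 0.72326 1.38264 hk1 hk2 (by linarith) (by norm_num) (by norm_num) (by norm_num)
    (cos_le_num (by norm_num)) (sin_le_num (by norm_num) (by norm_num)) (expm_le (by norm_num) (by norm_num) (by norm_num))
    (expn_ge (by norm_num) (by norm_num)) (by norm_num) (by norm_num) (by norm_num) (by norm_num) (by norm_num)
  exact ⟨hy1, hy2⟩

private theorem yB7 {κ t : ℝ} (h : DomR κ t) (hk1 : 0.5 ≤ κ) (hk2 : κ ≤ 0.53) (ht1 : -0.8044 ≤ t + κ) (ht2 : t + κ ≤ -0.78639) :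
    (-0.519) ≤ sy κ t ∧ sy κ t ≤ (-0.472) := by
  have hy1 : -0.519 ≤ sy κ t := syL_ge h 0.5 0.53 0.8044 0.519 0.59511 0.59512 0.574 0.58275 0.61774 hk1 hk2 (by linarith) (by norm_num) (by norm_num) (by norm_num)
    (expm_ge (by norm_num) (by norm_num) (by norm_num) (by norm_num)) (expm_le (by norm_num) (by norm_num) (by norm_num)) (by norm_num)
    (by norm_num) (by norm_num) (by norm_num) (by norm_num) (by norm_num) (by norm_num)
  have hy2 : sy κ t ≤ -0.472 := syL_le h 0.5 0.53 0.78639 0.472 0.62375 0.62376 0.55549 0.58883 hk1 hk2 (by linarith) (by norm_num) (by norm_num) (by norm_num)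
    (expm_ge (by norm_num) (by norm_num) (by norm_num) (by norm_num)) (expm_le (by norm_num) (by norm_num) (by norm_num)) (by norm_num)
    (by norm_num) (by norm_num) (by norm_num) (by norm_num) (by norm_num) (by norm_num)
  exact ⟨hy1, hy2⟩

theorem pc7 {β r h t κ : ℝ} (hh : h = 2 * Real.pi / (3 : ℕ)) (hβ : 0 < β) (hr : 10 ≤ r) (hκ : κ = β * r)
    (hk1 : 0.5 ≤ κ) (hk2 : κ ≤ 0.53) (hT1 : 1.29 ≤ t + κ) (hT2 : t + κ ≤ 1.308) :
    Xf β r h t 0 ≠ 0 ∧ r * 0.0588 ≤ (Ld β r h t 1 - Ld β r h t 0).im ∧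
      ‖(((-1 : ℤ) : ℂ) - 1) * Ld β r h t 0 - ((-1 : ℤ) : ℂ) * Ld β r h t 1‖ ≤ r * 8.12 := by
  obtain ⟨q1, q2, q3⟩ := b3_h hh
  have hR0 := b3_R0 hβ hr hκ
  have hR := b3_R hβ hr hκ (by linarith)
  have hD1 : DomR κ t := b3_dom (by linarith) (by linarith) (Or.inl (by linarith))
  have hD0 : DomR κ (t - h) := b3_dom (by linarith) (by linarith) (Or.inl (by linarith))
  have y1 := yA7 hD1 hk1 hk2 (by linarith) (by linarith)
  have y0 := yB7 hD0 hk1 hk2 (by linarith) (by linarith)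
  have j1 := T3_10_d1_2 hD1 hβ hk1 hk2 (by linarith) (by linarith) hR0 hR
  exact b3_piece 0.5 0.53 0.297 0.324 0.31 0.73344 0.74305 0.72326 0.3939 1.7319 1.795 0.05 0.21 0.21 5.3165 1.5913 0 0 (-0.519) (-0.472) (-0.495) 1.64049 1.68035 0.8906 0.667 0.05 0.205 0.185 5.0307 5.486 0.2917 0.3895 0.0588 8.12
    hβ hr hκ (by norm_num) hk1 hk2 hD1 hD0 j1 (j1 _ (by rw [sub_self, norm_zero]; norm_num))
    (T3_10_d0_2 hD0 hβ hk1 hk2 (by linarith) (by linarith) hR0 hR)
    (T3_10_p0 hD0 hβ hk1 hk2 (by linarith) (by linarith) hR0 hR)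
    y1.1 y1.2 y0.1 y0.2 (by norm_num)
    (ex_um 0.297 (by norm_num) (by norm_num) (by norm_num) (by norm_num)) (ex_um 0.324 (by norm_num) (by norm_num) (by norm_num) (by norm_num)) (ex_lm 0.31 (by norm_num) (by norm_num) (by norm_num) (by norm_num) (by norm_num)) (by norm_num) (by norm_num) (by norm_num) (by norm_num) (by norm_num) (by norm_num) (by norm_num) (by norm_num)
    (by norm_num) (by norm_num) (by norm_num) (by norm_num) (by norm_num) (by norm_num) (by norm_num) (by norm_num) (by norm_num) (by norm_num)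
    (ex_up 0.519 (by norm_num) (by norm_num) (by norm_num) (by norm_num)) (ex_lp 0.495 (by norm_num) (by norm_num) (by norm_num)) (by norm_num) (by norm_num) (by norm_num) (by norm_num) (by norm_num) (by norm_num)
    (by norm_num) (by norm_num) (by norm_num) (by norm_num) (by norm_num) (by norm_num) (by norm_num) (by norm_num) (by norm_num) (by norm_num) (by norm_num)
    (by norm_num) (by norm_num) (by norm_num) (by norm_num)

private theorem yA8 {κ t : ℝ} (h : DomR κ t) (hk1 : 0.5 ≤ κ) (hk2 : κ ≤ 0.53) (ht1 : 1.308 ≤ t + κ) (ht2 : t + κ ≤ 1.327) :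
    0.297 ≤ sy κ t ∧ sy κ t ≤ 0.326 := by
  have hy1 : 0.297 ≤ sy κ t := syR_ge h 0.5 0.53 1.308 0.297 1.34581 1.34582 0.75416 0.79942 hk1 hk2 (by linarith) (by norm_num) (by norm_num)
    (expn_ge (by norm_num) (by norm_num)) (expn_le (by norm_num) (by norm_num) (by norm_num)) (by norm_num)
    (by norm_num) (by norm_num) (by norm_num) (by norm_num) (by norm_num) (by norm_num)
  have hy2 : sy κ t ≤ 0.326 := syR_ang2 h 0.5 0.53 1.327 1.019 0.5258 0.8519 0.326 0.72181 1.38541 hk1 hk2 (by linarith) (by norm_num) (by norm_num) (by norm_num)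
    (cos_le_num (by norm_num)) (sin_le_num (by norm_num) (by norm_num)) (expm_le (by norm_num) (by norm_num) (by norm_num))
    (expn_ge (by norm_num) (by norm_num)) (by norm_num) (by norm_num) (by norm_num) (by norm_num) (by norm_num)
  exact ⟨hy1, hy2⟩

private theorem yB8 {κ t : ℝ} (h : DomR κ t) (hk1 : 0.5 ≤ κ) (hk2 : κ ≤ 0.53) (ht1 : -0.7864 ≤ t + κ) (ht2 : t + κ ≤ -0.76739) :
    (-0.501) ≤ sy κ t ∧ sy κ t ≤ (-0.456) := by
  have hy1 : -0.501 ≤ sy κ t := syL_ge h 0.5 0.53 0.7864 0.501 0.60592 0.60593 0.567 0.57276 0.60715 hk1 hk2 (by linarith) (by norm_num) (by norm_num) (by norm_num)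
    (expm_ge (by norm_num) (by norm_num) (by norm_num) (by norm_num)) (expm_le (by norm_num) (by norm_num) (by norm_num)) (by norm_num)
    (by norm_num) (by norm_num) (by norm_num) (by norm_num) (by norm_num) (by norm_num)
  have hy2 : sy κ t ≤ -0.456 := syL_le h 0.5 0.53 0.76739 0.456 0.63381 0.63382 0.54531 0.57805 hk1 hk2 (by linarith) (by norm_num) (by norm_num) (by norm_num)
    (expm_ge (by norm_num) (by norm_num) (by norm_num) (by norm_num)) (expm_le (by norm_num) (by norm_num) (by norm_num)) (by norm_num)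
    (by norm_num) (by norm_num) (by norm_num) (by norm_num) (by norm_num) (by norm_num)
  exact ⟨hy1, hy2⟩

theorem pc8 {β r h t κ : ℝ} (hh : h = 2 * Real.pi / (3 : ℕ)) (hβ : 0 < β) (hr : 10 ≤ r) (hκ : κ = β * r)
    (hk1 : 0.5 ≤ κ) (hk2 : κ ≤ 0.53) (hT1 : 1.308 ≤ t + κ) (hT2 : t + κ ≤ 1.327) :
    Xf β r h t 0 ≠ 0 ∧ r * 0.0588 ≤ (Ld β r h t 1 - Ld β r h t 0).im ∧
      ‖(((-1 : ℤ) : ℂ) - 1) * Ld β r h t 0 - ((-1 : ℤ) : ℂ) * Ld β r h t 1‖ ≤ r * 8.12 := by
  obtain ⟨q1, q2, q3⟩ := b3_h hh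
  have hR0 := b3_R0 hβ hr hκ
  have hR := b3_R hβ hr hκ (by linarith)
  have hD1 : DomR κ t := b3_dom (by linarith) (by linarith) (Or.inl (by linarith))
  have hD0 : DomR κ (t - h) := b3_dom (by linarith) (by linarith) (Or.inl (by linarith))
  have y1 := yA8 hD1 hk1 hk2 (by linarith) (by linarith)
  have y0 := yB8 hD0 hk1 hk2 (by linarith) (by linarith)
  have j1 := T3_10_d1_2 hD1 hβ hk1 hk2 (by linarith) (by linarith) hR0 hR
  exact b3_piece 0.5 0.53 0.297 0.326 0.311 0.73271 0.74305 0.72181 0.3939 1.7319 1.7984 0.05 0.21 0.21 5.3165 1.5913 0 0 (-0.501) (-0.456) (-0.478) 1.61284 1.65038 0.8748 0.6782 0.05 0.205 0.185 5.0307 5.3439 0.3022 0.3899 0.0588 8.12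
    hβ hr hκ (by norm_num) hk1 hk2 hD1 hD0 j1 (j1 _ (by rw [sub_self, norm_zero]; norm_num))
    (T3_10_d0_2 hD0 hβ hk1 hk2 (by linarith) (by linarith) hR0 hR)
    (T3_10_p0 hD0 hβ hk1 hk2 (by linarith) (by linarith) hR0 hR)
    y1.1 y1.2 y0.1 y0.2 (by norm_num)
    (ex_um 0.297 (by norm_num) (by norm_num) (by norm_num) (by norm_num)) (ex_um 0.326 (by norm_num) (by norm_num) (by norm_num) (by norm_num)) (ex_lm 0.311 (by norm_num) (by norm_num) (by norm_num) (by norm_num) (by norm_num)) (by norm_num) (by norm_num) (by norm_num) (by norm_num) (by norm_num) (by norm_num) (by norm_num) (by norm_num)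
    (by norm_num) (by norm_num) (by norm_num) (by norm_num) (by norm_num) (by norm_num) (by norm_num) (by norm_num) (by norm_num) (by norm_num)
    (ex_up 0.501 (by norm_num) (by norm_num) (by norm_num) (by norm_num)) (ex_lp 0.478 (by norm_num) (by norm_num) (by norm_num)) (by norm_num) (by norm_num) (by norm_num) (by norm_num) (by norm_num) (by norm_num)
    (by norm_num) (by norm_num) (by norm_num) (by norm_num) (by norm_num) (by norm_num) (by norm_num) (by norm_num) (by norm_num) (by norm_num) (by norm_num)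
    (by norm_num) (by norm_num) (by norm_num) (by norm_num)

private theorem yA9 {κ t : ℝ} (h : DomR κ t) (hk1 : 0.5 ≤ κ) (hk2 : κ ≤ 0.53) (ht1 : 1.327 ≤ t + κ) (ht2 : t + κ ≤ 1.345) :
    0.297 ≤ sy κ t ∧ sy κ t ≤ 0.328 := by
  have hy1 : 0.297 ≤ sy κ t := syR_ge h 0.5 0.53 1.327 0.297 1.34581 1.34582 0.75416 0.79942 hk1 hk2 (by linarith) (by norm_num) (by norm_num)
    (expn_ge (by norm_num) (by norm_num)) (expn_le (by norm_num) (by norm_num) (by norm_num)) (by norm_num)
    (by norm_num) (by norm_num) (by norm_num) (by norm_num) (by norm_num) (by norm_num)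
  have hy2 : sy κ t ≤ 0.328 := syR_ang2 h 0.5 0.53 1.345 1.032 0.5148 0.8586 0.328 0.72037 1.38818 hk1 hk2 (by linarith) (by norm_num) (by norm_num) (by norm_num)
    (cos_le_num (by norm_num)) (sin_le_num (by norm_num) (by norm_num)) (expm_le (by norm_num) (by norm_num) (by norm_num))
    (expn_ge (by norm_num) (by norm_num)) (by norm_num) (by norm_num) (by norm_num) (by norm_num) (by norm_num)
  exact ⟨hy1, hy2⟩

private theorem yB9 {κ t : ℝ} (h : DomR κ t) (hk1 : 0.5 ≤ κ) (hk2 : κ ≤ 0.53) (ht1 : -0.7674 ≤ t + κ) (ht2 : t + κ ≤ -0.74939) :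
    (-0.483) ≤ sy κ t ∧ sy κ t ≤ (-0.44) := by
  have hy1 : -0.483 ≤ sy κ t := syL_ge h 0.5 0.53 0.7674 0.483 0.61692 0.61694 0.5537 0.56221 0.59597 hk1 hk2 (by linarith) (by norm_num) (by norm_num) (by norm_num)
    (expm_ge (by norm_num) (by norm_num) (by norm_num) (by norm_num)) (expm_le (by norm_num) (by norm_num) (by norm_num)) (by norm_num)
    (by norm_num) (by norm_num) (by norm_num) (by norm_num) (by norm_num) (by norm_num)
  have hy2 : sy κ t ≤ -0.44 := syL_le h 0.5 0.53 0.74939 0.44 0.64403 0.64404 0.53466 0.56676 hk1 hk2 (by linarith) (by norm_num) (by norm_num) (by norm_num)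
    (expm_ge (by norm_num) (by norm_num) (by norm_num) (by norm_num)) (expm_le (by norm_num) (by norm_num) (by norm_num)) (by norm_num)
    (by norm_num) (by norm_num) (by norm_num) (by norm_num) (by norm_num) (by norm_num)
  exact ⟨hy1, hy2⟩

theorem pc9 {β r h t κ : ℝ} (hh : h = 2 * Real.pi / (3 : ℕ)) (hβ : 0 < β) (hr : 10 ≤ r) (hκ : κ = β * r)
    (hk1 : 0.5 ≤ κ) (hk2 : κ ≤ 0.53) (hT1 : 1.327 ≤ t + κ) (hT2 : t + κ ≤ 1.345) :
    Xf β r h t 0 ≠ 0 ∧ r * 0.0588 ≤ (Ld β r h t 1 - Ld β r h t 0).im ∧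
      ‖(((-1 : ℤ) : ℂ) - 1) * Ld β r h t 0 - ((-1 : ℤ) : ℂ) * Ld β r h t 1‖ ≤ r * 8.12 := by
  obtain ⟨q1, q2, q3⟩ := b3_h hh
  have hR0 := b3_R0 hβ hr hκ
  have hR := b3_R hβ hr hκ (by linarith)
  have hD1 : DomR κ t := b3_dom (by linarith) (by linarith) (Or.inl (by linarith))
  have hD0 : DomR κ (t - h) := b3_dom (by linarith) (by linarith) (Or.inl (by linarith))
  have y1 := yA9 hD1 hk1 hk2 (by linarith) (by linarith)
  have y0 := yB9 hD0 hk1 hk2 (by linarith) (by linarith)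
  have j1 := T3_10_d1_2 hD1 hβ hk1 hk2 (by linarith) (by linarith) hR0 hR
  exact b3_piece 0.5 0.53 0.297 0.328 0.312 0.73198 0.74305 0.72037 0.3939 1.7319 1.8018 0.05 0.21 0.21 5.3165 1.5913 0 0 (-0.483) (-0.44) (-0.462) 1.58724 1.62093 0.8591 0.6902 0.05 0.205 0.185 5.0307 5.2022 0.3114 0.3877 0.0588 8.12
    hβ hr hκ (by norm_num) hk1 hk2 hD1 hD0 j1 (j1 _ (by rw [sub_self, norm_zero]; norm_num))
    (T3_10_d0_2 hD0 hβ hk1 hk2 (by linarith) (by linarith) hR0 hR)
    (T3_10_p0 hD0 hβ hk1 hk2 (by linarith) (by linarith) hR0 hR)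
    y1.1 y1.2 y0.1 y0.2 (by norm_num)
    (ex_um 0.297 (by norm_num) (by norm_num) (by norm_num) (by norm_num)) (ex_um 0.328 (by norm_num) (by norm_num) (by norm_num) (by norm_num)) (ex_lm 0.312 (by norm_num) (by norm_num) (by norm_num) (by norm_num) (by norm_num)) (by norm_num) (by norm_num) (by norm_num) (by norm_num) (by norm_num) (by norm_num) (by norm_num) (by norm_num)
    (by norm_num) (by norm_num) (by norm_num) (by norm_num) (by norm_num) (by norm_num) (by norm_num) (by norm_num) (by norm_num) (by norm_num)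
    (ex_up 0.483 (by norm_num) (by norm_num) (by norm_num) (by norm_num)) (ex_lp 0.462 (by norm_num) (by norm_num) (by norm_num)) (by norm_num) (by norm_num) (by norm_num) (by norm_num) (by norm_num) (by norm_num)
    (by norm_num) (by norm_num) (by norm_num) (by norm_num) (by norm_num) (by norm_num) (by norm_num) (by norm_num) (by norm_num) (by norm_num) (by norm_num)
    (by norm_num) (by norm_num) (by norm_num) (by norm_num)

private theorem yA10 {κ t : ℝ} (h : DomR κ t) (hk1 : 0.5 ≤ κ) (hk2 : κ ≤ 0.53) (ht1 : 1.345 ≤ t + κ) (ht2 : t + κ ≤ 1.363) :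
    0.297 ≤ sy κ t ∧ sy κ t ≤ 0.33 := by
  have hy1 : 0.297 ≤ sy κ t := syR_ge h 0.5 0.53 1.345 0.297 1.34581 1.34582 0.75416 0.79942 hk1 hk2 (by linarith) (by norm_num) (by norm_num)
    (expn_ge (by norm_num) (by norm_num)) (expn_le (by norm_num) (by norm_num) (by norm_num)) (by norm_num)
    (by norm_num) (by norm_num) (by norm_num) (by norm_num) (by norm_num) (by norm_num)
  have hy2 : sy κ t ≤ 0.33 := syR_ang2 h 0.5 0.53 1.363 1.046 0.5029 0.8657 0.33 0.71893 1.39096 hk1 hk2 (by linarith) (by norm_num) (by norm_num) (by norm_num)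
    (cos_le_num (by norm_num)) (sin_le_num (by norm_num) (by norm_num)) (expm_le (by norm_num) (by norm_num) (by norm_num))
    (expn_ge (by norm_num) (by norm_num)) (by norm_num) (by norm_num) (by norm_num) (by norm_num) (by norm_num)
  exact ⟨hy1, hy2⟩

private theorem yB10 {κ t : ℝ} (h : DomR κ t) (hk1 : 0.5 ≤ κ) (hk2 : κ ≤ 0.53) (ht1 : -0.7494 ≤ t + κ) (ht2 : t + κ ≤ -0.73139) :
    (-0.466) ≤ sy κ t ∧ sy κ t ≤ (-0.425) := by
  have hy1 : -0.466 ≤ sy κ t := syL_ge h 0.5 0.53 0.7494 0.466 0.6275 0.62751 0.5434 0.55172 0.58484 hk1 hk2 (by linarith) (by norm_num) (by norm_num) (by norm_num)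
    (expm_ge (by norm_num) (by norm_num) (by norm_num) (by norm_num)) (expm_le (by norm_num) (by norm_num) (by norm_num)) (by norm_num)
    (by norm_num) (by norm_num) (by norm_num) (by norm_num) (by norm_num) (by norm_num)
  have hy2 : sy κ t ≤ -0.425 := syL_le h 0.5 0.53 0.73139 0.425 0.65376 0.65378 0.52424 0.55572 hk1 hk2 (by linarith) (by norm_num) (by norm_num) (by norm_num)
    (expm_ge (by norm_num) (by norm_num) (by norm_num) (by norm_num)) (expm_le (by norm_num) (by norm_num) (by norm_num)) (by norm_num)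
    (by norm_num) (by norm_num) (by norm_num) (by norm_num) (by norm_num) (by norm_num)
  exact ⟨hy1, hy2⟩

theorem pc10 {β r h t κ : ℝ} (hh : h = 2 * Real.pi / (3 : ℕ)) (hβ : 0 < β) (hr : 10 ≤ r) (hκ : κ = β * r)
    (hk1 : 0.5 ≤ κ) (hk2 : κ ≤ 0.53) (hT1 : 1.345 ≤ t + κ) (hT2 : t + κ ≤ 1.363) :
    Xf β r h t 0 ≠ 0 ∧ r * 0.0588 ≤ (Ld β r h t 1 - Ld β r h t 0).im ∧
      ‖(((-1 : ℤ) : ℂ) - 1) * Ld β r h t 0 - ((-1 : ℤ) : ℂ) * Ld β r h t 1‖ ≤ r * 8.12 := by
  obtain ⟨q1, q2, q3⟩ := b3_h hh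
  have hR0 := b3_R0 hβ hr hκ
  have hR := b3_R hβ hr hκ (by linarith)
  have hD1 : DomR κ t := b3_dom (by linarith) (by linarith) (Or.inl (by linarith))
  have hD0 : DomR κ (t - h) := b3_dom (by linarith) (by linarith) (Or.inl (by linarith))
  have y1 := yA10 hD1 hk1 hk2 (by linarith) (by linarith)
  have y0 := yB10 hD0 hk1 hk2 (by linarith) (by linarith)
  have j1 := T3_10_d1_2 hD1 hβ hk1 hk2 (by linarith) (by linarith) hR0 hR
  exact b3_piece 0.5 0.53 0.297 0.33 0.314 0.73051 0.74305 0.71893 0.3939 1.7319 1.8052 0.05 0.21 0.21 5.3165 1.5913 0 0 (-0.466) (-0.425) (-0.446) 1.56205 1.59361 0.8447 0.7024 0.05 0.205 0.185 5.0307 5.0704 0.3187 0.3833 0.0588 8.12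
    hβ hr hκ (by norm_num) hk1 hk2 hD1 hD0 j1 (j1 _ (by rw [sub_self, norm_zero]; norm_num))
    (T3_10_d0_2 hD0 hβ hk1 hk2 (by linarith) (by linarith) hR0 hR)
    (T3_10_p0 hD0 hβ hk1 hk2 (by linarith) (by linarith) hR0 hR)
    y1.1 y1.2 y0.1 y0.2 (by norm_num)
    (ex_um 0.297 (by norm_num) (by norm_num) (by norm_num) (by norm_num)) (ex_um 0.33 (by norm_num) (by norm_num) (by norm_num) (by norm_num)) (ex_lm 0.314 (by norm_num) (by norm_num) (by norm_num) (by norm_num) (by norm_num)) (by norm_num) (by norm_num) (by norm_num) (by norm_num) (by norm_num) (by norm_num) (by norm_num) (by norm_num)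
    (by norm_num) (by norm_num) (by norm_num) (by norm_num) (by norm_num) (by norm_num) (by norm_num) (by norm_num) (by norm_num) (by norm_num)
    (ex_up 0.466 (by norm_num) (by norm_num) (by norm_num) (by norm_num)) (ex_lp 0.446 (by norm_num) (by norm_num) (by norm_num)) (by norm_num) (by norm_num) (by norm_num) (by norm_num) (by norm_num) (by norm_num)
    (by norm_num) (by norm_num) (by norm_num) (by norm_num) (by norm_num) (by norm_num) (by norm_num) (by norm_num) (by norm_num) (by norm_num) (by norm_num)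
    (by norm_num) (by norm_num) (by norm_num) (by norm_num)

private theorem yA11 {κ t : ℝ} (h : DomR κ t) (hk1 : 0.5 ≤ κ) (hk2 : κ ≤ 0.53) (ht1 : 1.363 ≤ t + κ) (ht2 : t + κ ≤ 1.382) :
    0.297 ≤ sy κ t ∧ sy κ t ≤ 0.332 := by
  have hy1 : 0.297 ≤ sy κ t := syR_ge h 0.5 0.53 1.363 0.297 1.34581 1.34582 0.75416 0.79942 hk1 hk2 (by linarith) (by norm_num) (by norm_num)
    (expn_ge (by norm_num) (by norm_num)) (expn_le (by norm_num) (by norm_num) (by norm_num)) (by norm_num)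
    (by norm_num) (by norm_num) (by norm_num) (by norm_num) (by norm_num) (by norm_num)
  have hy2 : sy κ t ≤ 0.332 := syR_ang2 h 0.5 0.53 1.382 1.06 0.4909 0.8727 0.332 0.71749 1.39375 hk1 hk2 (by linarith) (by norm_num) (by norm_num) (by norm_num)
    (cos_le_num (by norm_num)) (sin_le_num (by norm_num) (by norm_num)) (expm_le (by norm_num) (by norm_num) (by norm_num))
    (expn_ge (by norm_num) (by norm_num)) (by norm_num) (by norm_num) (by norm_num) (by norm_num) (by norm_num)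
  exact ⟨hy1, hy2⟩

private theorem yB11 {κ t : ℝ} (h : DomR κ t) (hk1 : 0.5 ≤ κ) (hk2 : κ ≤ 0.53) (ht1 : -0.7314 ≤ t + κ) (ht2 : t + κ ≤ -0.71239) :
    (-0.449) ≤ sy κ t ∧ sy κ t ≤ (-0.409) := by
  have hy1 : -0.449 ≤ sy κ t := syL_ge h 0.5 0.53 0.7314 0.449 0.63826 0.63827 0.5325 0.54071 0.57317 hk1 hk2 (by linarith) (by norm_num) (by norm_num) (by norm_num)
    (expm_ge (by norm_num) (by norm_num) (by norm_num) (by norm_num)) (expm_le (by norm_num) (by norm_num) (by norm_num)) (by norm_num)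
    (by norm_num) (by norm_num) (by norm_num) (by norm_num) (by norm_num) (by norm_num)
  have hy2 : sy κ t ≤ -0.409 := syL_le h 0.5 0.53 0.71239 0.409 0.66431 0.66432 0.51264 0.54342 hk1 hk2 (by linarith) (by norm_num) (by norm_num) (by norm_num)
    (expm_ge (by norm_num) (by norm_num) (by norm_num) (by norm_num)) (expm_le (by norm_num) (by norm_num) (by norm_num)) (by norm_num)
    (by norm_num) (by norm_num) (by norm_num) (by norm_num) (by norm_num) (by norm_num)
  exact ⟨hy1, hy2⟩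

theorem pc11 {β r h t κ : ℝ} (hh : h = 2 * Real.pi / (3 : ℕ)) (hβ : 0 < β) (hr : 10 ≤ r) (hκ : κ = β * r)
    (hk1 : 0.5 ≤ κ) (hk2 : κ ≤ 0.53) (hT1 : 1.363 ≤ t + κ) (hT2 : t + κ ≤ 1.382) :
    Xf β r h t 0 ≠ 0 ∧ r * 0.0588 ≤ (Ld β r h t 1 - Ld β r h t 0).im ∧
      ‖(((-1 : ℤ) : ℂ) - 1) * Ld β r h t 0 - ((-1 : ℤ) : ℂ) * Ld β r h t 1‖ ≤ r * 8.12 := by
  obtain ⟨q1, q2, q3⟩ := b3_h hh
  have hR0 := b3_R0 hβ hr hκ
  have hR := b3_R hβ hr hκ (by linarith)
  have hD1 : DomR κ t := b3_dom (by linarith) (by linarith) (Or.inl (by linarith))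
  have hD0 : DomR κ (t - h) := b3_dom (by linarith) (by linarith) (Or.inl (by linarith))
  have y1 := yA11 hD1 hk1 hk2 (by linarith) (by linarith)
  have y0 := yB11 hD0 hk1 hk2 (by linarith) (by linarith)
  have j1 := T3_10_d1_2 hD1 hβ hk1 hk2 (by linarith) (by linarith) hR0 hR
  exact b3_piece 0.5 0.53 0.297 0.332 0.315 0.72978 0.74305 0.71749 0.3939 1.7319 1.8087 0.05 0.21 0.21 5.3165 1.5913 0 0 (-0.449) (-0.409) (-0.429) 1.53572 1.56675 0.8304 0.7151 0.05 0.205 0.185 5.0307 4.9401 0.3265 0.3792 0.0588 8.12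
    hβ hr hκ (by norm_num) hk1 hk2 hD1 hD0 j1 (j1 _ (by rw [sub_self, norm_zero]; norm_num))
    (T3_10_d0_2 hD0 hβ hk1 hk2 (by linarith) (by linarith) hR0 hR)
    (T3_10_p0 hD0 hβ hk1 hk2 (by linarith) (by linarith) hR0 hR)
    y1.1 y1.2 y0.1 y0.2 (by norm_num)
    (ex_um 0.297 (by norm_num) (by norm_num) (by norm_num) (by norm_num)) (ex_um 0.332 (by norm_num) (by norm_num) (by norm_num) (by norm_num)) (ex_lm 0.315 (by norm_num) (by norm_num) (by norm_num) (by norm_num) (by norm_num)) (by norm_num) (by norm_num) (by norm_num) (by norm_num) (by norm_num) (by norm_num) (by norm_num) (by norm_num)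
    (by norm_num) (by norm_num) (by norm_num) (by norm_num) (by norm_num) (by norm_num) (by norm_num) (by norm_num) (by norm_num) (by norm_num)
    (ex_up 0.449 (by norm_num) (by norm_num) (by norm_num) (by norm_num)) (ex_lp 0.429 (by norm_num) (by norm_num) (by norm_num)) (by norm_num) (by norm_num) (by norm_num) (by norm_num) (by norm_num) (by norm_num)
    (by norm_num) (by norm_num) (by norm_num) (by norm_num) (by norm_num) (by norm_num) (by norm_num) (by norm_num) (by norm_num) (by norm_num) (by norm_num)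
    (by norm_num) (by norm_num) (by norm_num) (by norm_num)

theorem innS {β r h t κ : ℝ} (hh : h = 2 * Real.pi / (3 : ℕ)) (hβ : 0 < β) (hr : 10 ≤ r) (hκ : κ = β * r)
    (hk1 : 0.5 ≤ κ) (hk2 : κ ≤ 0.53) (hT1 : 1.171 ≤ t + κ) (hT2 : t + κ ≤ 1.382) :
    Xf β r h t 0 ≠ 0 ∧ r * 0.0588 ≤ (Ld β r h t 1 - Ld β r h t 0).im ∧
      ‖(((-1 : ℤ) : ℂ) - 1) * Ld β r h t 0 - ((-1 : ℤ) : ℂ) * Ld β r h t 1‖ ≤ r * 8.12 := by
  rcases le_total (t + κ) 1.186 with f0 | g0
  · exact pc0 hh hβ hr hκ hk1 hk2 hT1 f0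
  rcases le_total (t + κ) 1.201 with f1 | g1
  · exact pc1 hh hβ hr hκ hk1 hk2 g0 f1
  rcases le_total (t + κ) 1.218 with f2 | g2
  · exact pc2 hh hβ hr hκ hk1 hk2 g1 f2
  rcases le_total (t + κ) 1.236 with f3 | g3
  · exact pc3 hh hβ hr hκ hk1 hk2 g2 f3
  rcases le_total (t + κ) 1.254 with f4 | g4
  · exact pc4 hh hβ hr hκ hk1 hk2 g3 f4
  rcases le_total (t + κ) 1.271 with f5 | g5
  · exact pc5 hh hβ hr hκ hk1 hk2 g4 f5
  rcases le_total (t + κ) 1.29 with f6 | g6
  · exact pc6 hh hβ hr hκ hk1 hk2 g5 f6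
  rcases le_total (t + κ) 1.308 with f7 | g7
  · exact pc7 hh hβ hr hκ hk1 hk2 g6 f7
  rcases le_total (t + κ) 1.327 with f8 | g8
  · exact pc8 hh hβ hr hκ hk1 hk2 g7 f8
  rcases le_total (t + κ) 1.345 with f9 | g9
  · exact pc9 hh hβ hr hκ hk1 hk2 g8 f9
  rcases le_total (t + κ) 1.363 with f10 | g10
  · exact pc10 hh hβ hr hκ hk1 hk2 g9 f10
  exact pc11 hh hβ hr hκ hk1 hk2 g10 hT2

theorem circ {p : ℤ} (hp : IsCoprime (3 : ℤ) p) {β r : ℝ} (hβ : 0 < β) (hr : 10 ≤ r) (hk1 : 0.5 ≤ β * r)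
    (hk2 : β * r ≤ 0.53) : Circ (2 * Real.pi * p / (3 : ℕ) + β) r := by
  obtain ⟨κ, hκ⟩ : ∃ κ, κ = β * r := ⟨_, rfl⟩
  rw [← hκ] at hk1 hk2
  refine circ3 hp hr (h := 2 * Real.pi / (3 : ℕ)) (κ := κ) rfl 1.171 1.382 1.0103 0.0588 0.00518 0.00518 8.12 (by norm_num) (by norm_num) (by norm_num)
    (by norm_num) (by norm_num) ?_ ?_ ?_ ?_ ?_ (by norm_num) (by norm_num)
  · intro t h1 h2
    exact (innS rfl hβ hr hκ hk1 hk2 h1 h2).1
  · intro t h1 h2
    exact (innE rfl hβ hr hκ hk1 hk2 h1 h2).1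
  · intro t h1 h2
    exact (innE rfl hβ hr hκ hk1 hk2 h1 h2).2
  · intro t h1 h2
    exact (innS rfl hβ hr hκ hk1 hk2 h1 h2).2
  · intro t h1 h2 h3
    rcases h3 with h3 | h3
    · rcases le_total (t + κ) 1.16 with g | g
      · exact left rfl hβ hr hκ hk1 hk2 h1 g
      · exact middle rfl hβ hr hκ hk1 hk2 g h3
    · exact right0 rfl hβ hr hκ hk1 hk2 h3 h2

end B3_10

end Sok
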