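import Pool.Agent.Lib.MP_816dec_an.R1b3D
import Pool.Agent.Lib.MP_816dec_an.R1b3J12

/-!
MP_816dec_an (A3, row R1, b = 3): the cell `0.56 ≤ κ ≤ 0.6`.
-/

set_option autoImplicit false
set_option maxHeartbeats 4000000
set_option linter.unusedVariables false

open Complex Set

namespace Sok

namespace B3_12

private theorem yL {κ t : ℝ} (h : DomR κ t) (hk1 : 0.56 ≤ κ) (hk2 : κ ≤ 0.6) (ht1 : 0 ≤ t + κ) (ht2 : t + κ ≤ 1.154) :
    0 ≤ sy κ t ∧ sy κ t ≤ 0.328 := by
  have hy1 : 0 ≤ sy κ t := sy_nonneg h (by linarith)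
  have hy2 : sy κ t ≤ 0.328 := syR_ang2 h 0.56 0.6 1.154 0.861 0.6523 0.7586 0.328 0.72037 1.38818 hk1 hk2 (by linarith) (by norm_num) (by norm_num) (by norm_num)
    (cos_le_num (by norm_num)) (sin_le_num (by norm_num) (by norm_num)) (expm_le (by norm_num) (by norm_num) (by norm_num))
    (expn_ge (by norm_num) (by norm_num)) (by norm_num) (by norm_num) (by norm_num) (by norm_num) (by norm_num)
  exact ⟨hy1, hy2⟩

theorem left {β r h t κ : ℝ} (hh : h = 2 * Real.pi / (3 : ℕ)) (hβ : 0 < β) (hr : 10 ≤ r) (hκ : κ = β * r)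
    (hk1 : 0.56 ≤ κ) (hk2 : κ ≤ 0.6) (hT1 : 0 ≤ t + κ) (hT2 : t + κ ≤ 1.154) :
    ‖Xf β r h t (-1)‖ < |‖Xf β r h t 1‖ - ‖Xf β r h t 0‖| := by
  obtain ⟨q1, q2, q3⟩ := b3_h hh
  have hR0 := b3_R0 hβ hr hκ
  have hR := b3_R hβ hr hκ (by linarith)
  have hD1 : DomR κ t := b3_dom (by linarith) (by linarith) (Or.inl (by linarith))
  have hy := yL hD1 hk1 hk2 (by linarith) (by linarith)
  have hY : 0.8368 * Real.exp (r * 0.62574) ≤ ‖Xf β r h t 1‖ :=
    b3_lo hβ hr hκ (k := 1) (t' := t) (by push_cast; ring) hD1 0.025 1.8429 0.8368 0.62574 (by norm_num)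
      (T3_12_p1 hD1 hβ hk1 hk2 (by linarith) (by linarith) hR0 hR)
      (v5_Dup hD1 0.6 0 0.328 1 0.72037 1.8429 hk2 hy.1 hy.2 (ex_up 0 (by norm_num) (by norm_num) (by norm_num) (by norm_num)) (ex_um 0.328 (by norm_num) (by norm_num) (by norm_num) (by norm_num)) (by norm_num) (by norm_num) (by norm_num)) (by norm_num) (by norm_num)
      (b3_Vlo hD1 0.56 0.6 0 1.154 0.48 (-0.73396) 0.8628 0.6503 0.43033 0.62574 hk1 hk2 (by linarith) (by linarith) (by norm_num) (ex_lm 0.73396 (by norm_num) (by norm_num) (by norm_num) (by norm_num) (by norm_num)) (by norm_num) (by norm_num) (by norm_num) (by norm_num) (by norm_num) (by norm_num) (by norm_num) (by norm_num) (ex_um 0.43033 (by norm_num) (by norm_num) (by norm_num) (by norm_num)) (by norm_num))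
  have h0 : ‖Xf β r h t 0‖ ≤ 0.8874 * ‖Xf β r h t 1‖ :=
    b3_cmp 0.5415 0.06172 0.006934 0.49899 0.869455 0.017889 0.8874 hr (b3_HU0 1.09 0.56 0.6 (-2.0944) (-0.94039) 1.58904 1.84117 1.92322 0.54314 0.51997 1.84116 1.3436 0.09773 1.02256 2.0176 0.07041 0.12675 0.000001 2.1588 0.56402 hβ hr hκ (by norm_num) hk1 hk2 (by norm_num) (by linarith) (by linarith) (by norm_num) (by norm_num) (ex_up 0.6104 (by norm_num) (by norm_num) (by norm_num) (by norm_num)) (ex_up 0.654 (by norm_num) (by norm_num) (by norm_num) (by norm_num)) (ex_um 0.6104 (by norm_num) (by norm_num) (by norm_num) (by norm_num)) (ex_um 0.654 (by norm_num) (by norm_num) (by norm_num) (by norm_num)) (by norm_num) (by norm_num) (ex_lp 0.6104 (by norm_num) (by norm_num) (by norm_num)) (by norm_num) (by norm_num) (by norm_num) (by norm_num) (by norm_num) (by norm_num) (by norm_num) (by norm_num) (by norm_num) (by norm_num) (by norm_num) (by norm_num) (by norm_num) (by norm_num) (v5_hump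 5.6214 16.666 4.0825 0.0000003148 0.000001 hβ hr hκ hk1 hk2 (by norm_num) (tb := (-0.94039)) (by linarith) (by norm_num) (by norm_num) (by norm_num) (by norm_num) (by norm_num) (by norm_num) (by norm_num) (ex_un 14 0.99 (by norm_num) (by norm_num) (by norm_num) (by norm_num)) (by norm_num)) (by norm_num) (by norm_num)) hY (by norm_num) (by norm_num) (by norm_num) (by norm_num) (by norm_num) (ex_un 0 0.6172 (by norm_num) (by norm_num) (by norm_num) (by norm_num)) (by norm_num) (by norm_num) (by norm_num) (ex_un 4 0.9899 (by norm_num) (by norm_num) (by norm_num) (by norm_num)) (by norm_num) (by norm_num)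
  have h2 : ‖Xf β r h t (-1)‖ ≤ 0.0537 * ‖Xf β r h t 1‖ := by
    exact b3_cmp 1 0 0.008654 0.47574 0 0.053698 0.0537 hr (b3_w (b3_UD 0.56 0.6 2.09439 3.2484 0.1 0.53312 0.1 2.707 5.1923 0.15 hh hβ hr hκ (by norm_num) hk1 hk2 (by linarith) (by linarith) (by norm_num) (by norm_num) (by norm_num) (by norm_num) (by norm_num) (by norm_num) (by norm_num) (by norm_num) (by norm_num) (by norm_num) (by norm_num) (by norm_num) (by norm_num))) hY (by norm_num) (by norm_num) (by norm_num) (by norm_num) (by norm_num) (by norm_num) (by norm_num) (by norm_num) (by norm_num) (ex_un 4 0.7574 (by norm_num) (by norm_num) (by norm_num) (by norm_num)) (by norm_num) (by norm_num)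
  exact b3_out1 0.8874 0.0537 hY (by norm_num) h0 h2 (by norm_num)

private theorem yM1 {κ t : ℝ} (h : DomR κ t) (hk1 : 0.56 ≤ κ) (hk2 : κ ≤ 0.6) (ht1 : 0 ≤ t + κ) (ht2 : t + κ ≤ 1.162) :
    0 ≤ sy κ t ∧ sy κ t ≤ 0.329 := by
  have hy1 : 0 ≤ sy κ t := sy_nonneg h (by linarith)
  have hy2 : sy κ t ≤ 0.329 := syR_ang2 h 0.56 0.6 1.162 0.866 0.6485 0.7619 0.329 0.71965 1.38957 hk1 hk2 (by linarith) (by norm_num) (by norm_num) (by norm_num)
    (cos_le_num (by norm_num)) (sin_le_num (by norm_num) (by norm_num)) (expm_le (by norm_num) (by norm_num) (by norm_num))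
    (expn_ge (by norm_num) (by norm_num)) (by norm_num) (by norm_num) (by norm_num) (by norm_num) (by norm_num)
  exact ⟨hy1, hy2⟩

private theorem yM0 {κ t : ℝ} (h : DomR κ t) (hk1 : 0.56 ≤ κ) (hk2 : κ ≤ 0.6) (ht1 : -0.9404 ≤ t + κ) (ht2 : t + κ ≤ -0.93239) :
    (-0.662) ≤ sy κ t ∧ sy κ t ≤ (-0.627) := by
  have hy1 : -0.662 ≤ sy κ t := syL_ge h 0.56 0.6 0.9404 0.662 0.51581 0.51583 0.5826 0.56911 0.60979 hk1 hk2 (by linarith) (by norm_num) (by norm_num) (by norm_num)
    (expm_ge (by norm_num) (by norm_num) (by norm_num) (by norm_num)) (expm_le (by norm_num) (by norm_num) (by norm_num)) (by norm_num)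
    (by norm_num) (by norm_num) (by norm_num) (by norm_num) (by norm_num) (by norm_num)
  have hy2 : sy κ t ≤ -0.627 := syL_le h 0.56 0.6 0.93239 0.627 0.53419 0.5342 0.55822 0.59812 hk1 hk2 (by linarith) (by norm_num) (by norm_num) (by norm_num)
    (expm_ge (by norm_num) (by norm_num) (by norm_num) (by norm_num)) (expm_le (by norm_num) (by norm_num) (by norm_num)) (by norm_num)
    (by norm_num) (by norm_num) (by norm_num) (by norm_num) (by norm_num) (by norm_num)
  exact ⟨hy1, hy2⟩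

theorem middle {β r h t κ : ℝ} (hh : h = 2 * Real.pi / (3 : ℕ)) (hβ : 0 < β) (hr : 10 ≤ r) (hκ : κ = β * r)
    (hk1 : 0.56 ≤ κ) (hk2 : κ ≤ 0.6) (hT1 : 1.154 ≤ t + κ) (hT2 : t + κ ≤ 1.162) :
    ‖Xf β r h t (-1)‖ < |‖Xf β r h t 1‖ - ‖Xf β r h t 0‖| := by
  obtain ⟨q1, q2, q3⟩ := b3_h hh
  have hR0 := b3_R0 hβ hr hκ
  have hR := b3_R hβ hr hκ (by linarith)
  have hD1 : DomR κ t := b3_dom (by linarith) (by linarith) (Or.inl (by linarith))
  have hD0 : DomR κ (t - h) := b3_dom (by linarith) (by linarith) (Or.inl (by linarith))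
  have hy := yM1 hD1 hk1 hk2 (by linarith) (by linarith)
  have hy0 := yM0 hD0 hk1 hk2 (by linarith) (by linarith)
  have hY : 0.8366 * Real.exp (r * 0.62128) ≤ ‖Xf β r h t 1‖ :=
    b3_lo hβ hr hκ (k := 1) (t' := t) (by push_cast; ring) hD1 0.025 1.8445 0.8366 0.62128 (by norm_num)
      (T3_12_p1 hD1 hβ hk1 hk2 (by linarith) (by linarith) hR0 hR)
      (v5_Dup hD1 0.6 0 0.329 1 0.71965 1.8445 hk2 hy.1 hy.2 (ex_up 0 (by norm_num) (by norm_num) (by norm_num) (by norm_num)) (ex_um 0.329 (by norm_num) (by norm_num) (by norm_num) (by norm_num)) (by norm_num) (by norm_num) (by norm_num)) (by norm_num) (by norm_num)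
      (b3_Vlo hD1 0.56 0.6 0 1.162 0.47 (-0.75502) 0.8652 0.64848 0.43313 0.62128 hk1 hk2 (by linarith) (by linarith) (by norm_num) (ex_lm 0.75502 (by norm_num) (by norm_num) (by norm_num) (by norm_num) (by norm_num)) (by norm_num) (by norm_num) (by norm_num) (by norm_num) (by norm_num) (by norm_num) (by norm_num) (by norm_num) (ex_um 0.43313 (by norm_num) (by norm_num) (by norm_num) (by norm_num)) (by norm_num))
  have hU : ‖Xf β r h t 0‖ ≤ 1.2415 * Real.exp (r * 0.571) :=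
    b3_up hβ hr hκ (k := 0) (t' := t - h) (by push_cast; ring) hD0 0.19 0.8442 1.2415 0.571
      (T3_12_p0m hD0 hβ hk1 hk2 (by linarith) (by linarith) hR0 hR) (v5_Dlo hD0 0.56 (-0.662) (-0.627) (-0.644) 1.90407 0.8442 (by norm_num) hk1 hy0.1 hy0.2 (ex_lp 0.644 (by norm_num) (by norm_num) (by norm_num)) (by norm_num) (by norm_num) (by norm_num) (by norm_num)) (by norm_num) (by norm_num)
      (b3_VH hD0 1.06 0.56 0.6 1.55933 1.8105 1.88892 0.55234 0.52941 (-0.93239) 0.571 (by norm_num) hk1 hk2 (by norm_num) (ex_up 0.5936 (by norm_num) (by norm_num) (by norm_num) (by norm_num)) (ex_up 0.636 (by norm_num) (by norm_num) (by norm_num) (by norm_num)) (ex_um 0.5936 (by norm_num) (by norm_num) (by norm_num) (by norm_num)) (ex_um 0.636 (by norm_num) (by norm_num) (by norm_num) (by norm_num)) (by norm_num) (by norm_num) (by norm_num) (by linarith) (by norm_num))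
  have h0 : ‖Xf β r h t 0‖ ≤ 0.8993 * ‖Xf β r h t 1‖ :=
    b3_cmp 1 0 0.606 0.05028 0 0.899294 0.8993 hr (b3_w hU) hY (by norm_num) (by norm_num) (by norm_num) (by norm_num) (by norm_num) (by norm_num) (by norm_num) (by norm_num) (by norm_num) (ex_un 0 0.5028 (by norm_num) (by norm_num) (by norm_num) (by norm_num)) (by norm_num) (by norm_num)
  have h2 : ‖Xf β r h t (-1)‖ ≤ 0.0021 * ‖Xf β r h t 1‖ := by
    exact b3_cmp 1 0 0.003324 0.57128 0 0.002026 0.0021 hr ((b3_Xm hh).trans_le (b3_U1 0.56 0.6 3.24839 3.2564 1.07759 0.09773 1.02256 0.8807 0.00002 0.4933 0.000001 0.5097 hβ hr hκ (by norm_num) hk1 hk2 (by linarith) (by linarith) (by norm_num) (by norm_num) (by norm_num) (by norm_num) (by norm_num) (by norm_num) (by norm_num) (by norm_num) (by norm_num) (by norm_num) (by norm_num) (by norm_num) (by norm_num) (ex_un 8 0.807 (by norm_num) (by norm_num) (by norm_num) (by norm_num)) (v5_hump 1.4246 16.666 4.0825 0.0000003148 0.000001 hβ hr hκ hk1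 hk2 (by norm_num) (tb := 3.2564) (by linarith) (by norm_num) (by norm_num) (by norm_num) (by norm_num) (by norm_num) (by norm_num) (by norm_num) (ex_un 14 0.99 (by norm_num) (by norm_num) (by norm_num) (by norm_num)) (by norm_num)) (by norm_num))) hY (by norm_num) (by norm_num) (by norm_num) (by norm_num) (by norm_num) (by norm_num) (by norm_num) (by norm_num) (by norm_num) (ex_un 5 0.7128 (by norm_num) (by norm_num) (by norm_num) (by norm_num)) (by norm_num) (by norm_num)
  exact b3_out1 0.8993 0.0021 hY (by norm_num) h0 h2 (by norm_num)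

private theorem yR0 {κ t : ℝ} (h : DomR κ t) (hk1 : 0.56 ≤ κ) (hk2 : κ ≤ 0.6) (ht1 : -0.7124 ≤ t + κ) (ht2 : t + κ ≤ 0.0001) :
    (-0.444) ≤ sy κ t ∧ sy κ t ≤ 0.005 := by
  have hy1 : -0.444 ≤ sy κ t := syL_ge h 0.56 0.6 0.7124 0.444 0.64146 0.64147 0.4661 0.47468 0.5086 hk1 hk2 (by linarith) (by norm_num) (by norm_num) (by norm_num)
    (expm_ge (by norm_num) (by norm_num) (by norm_num) (by norm_num)) (expm_le (by norm_num) (by norm_num) (by norm_num)) (by norm_num)
    (by norm_num) (by norm_num) (by norm_num) (by norm_num) (by norm_num) (by norm_num)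
  have hy2 : sy κ t ≤ 0.005 := syR_le h 0.56 0.6 0.0001 0.005 1.00501 0.0082 0.00837 0.00898 hk1 hk2 (by linarith) (by norm_num) (by norm_num)
    (expn_ge (by norm_num) (by norm_num)) (by norm_num) (by norm_num) (Or.inr ((mul_le_mul_of_nonneg_left (expn_le (E := 1.00502) (by norm_num) (by norm_num) (by norm_num)) (by norm_num)).trans (by norm_num))) (by norm_num) (by norm_num) (by norm_num)
  exact ⟨hy1, hy2⟩

theorem right0 {β r h t κ : ℝ} (hh : h = 2 * Real.pi / (3 : ℕ)) (hβ : 0 < β) (hr : 10 ≤ r) (hκ : κ = β * r)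
    (hk1 : 0.56 ≤ κ) (hk2 : κ ≤ 0.6) (hT1 : 1.382 ≤ t + κ) (hT2 : t + κ ≤ h) :
    ‖Xf β r h t (-1)‖ < |‖Xf β r h t 1‖ - ‖Xf β r h t 0‖| := by
  obtain ⟨q1, q2, q3⟩ := b3_h hh
  have hR0 := b3_R0 hβ hr hκ
  have hR := b3_R hβ hr hκ (by linarith)
  have hD0 : DomR κ (t - h) := b3_dom (by linarith) (by linarith) (Or.inl (by linarith))
  have hy := yR0 hD0 hk1 hk2 (by linarith) (by linarith)
  have hY : 0.8555 * Real.exp (r * 0.75629) ≤ ‖Xf β r h t 0‖ :=
    b3_lo hβ hr hκ (k := 0) (t' := t - h) (by push_cast; ring) hD0 0.075 1.3665 0.8555 0.75629 (by norm_num)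
      (T3_12_p0R hD0 hβ hk1 hk2 (by linarith) (by linarith) hR0 hR)
      (v5_Dup hD0 0.6 (-0.444) 0.005 1.55894 0.99502 1.3665 hk2 hy.1 hy.2 (ex_up 0.444 (by norm_num) (by norm_num) (by norm_num) (by norm_num)) (ex_um 0.005 (by norm_num) (by norm_num) (by norm_num) (by norm_num)) (by norm_num) (by norm_num) (by norm_num)) (by norm_num) (by norm_num)
      (b3_Vlo hD0 0.56 0.6 (-0.7124) 0.0001 1.33 0.28518 0.5276 0.86401 0.14618 0.75629 hk1 hk2 (by linarith) (by linarith) (by norm_num) (ex_lp 0.28518 (by norm_num) (by norm_num) (by norm_num)) (by norm_num) (by norm_num) (by norm_num) (by norm_num) (by norm_num) (by norm_num) (by norm_num) (by norm_num) (ex_um 0.14618 (by norm_num) (by norm_num) (by norm_num) (by norm_num)) (by norm_num))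
  have h1 : ‖Xf β r h t 1‖ ≤ 0.2664 * ‖Xf β r h t 0‖ := by
    rcases le_total (t + κ) 1.83 with g0 | g0
    · exact b3_cmp 0.0935 0.23704 0.0005208 0.75629 0.266271 0.000085 0.2664 hr (b3_X1.trans_le (b3_HF 0.53 0.56 0.6 1.382 1.83 1.25171 0.7432 0.72761 1.34555 1.37438 0.7276 2.3181 0.09773 2.3527 0.3007 0.10118 0.3636 0.000001 2.4363 0.1393 0.51925 hβ hr hκ (by norm_num) hk1 hk2 (by norm_num) (by linarith) (by linarith) (by norm_num) (ex_um 0.2968 (by norm_num) (by norm_num) (by norm_num) (by norm_num)) (ex_um 0.318 (by norm_num) (by norm_num) (by norm_num) (by norm_num)) (ex_up 0.2968 (by norm_num) (by norm_num) (by norm_num) (by norm_num)) (ex_up 0.318 (by norm_num) (by norm_num) (by norm_num) (by norm_num)) (by norm_num) (by norm_num) (ex_lm 0.318 (by norm_num) (by norm_num) (by norm_num) (by norm_num) (by norm_num)) (by norm_num) (by norm_num) (by norm_num) (by norm_num) (by norm_num) (by norm_num) (by norm_num) (by norm_num) (by norm_num)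 (by norm_num) (by norm_num) (by norm_num) (ex_un 1 0.0118 (by norm_num) (by norm_num) (by norm_num) (by norm_num)) (v5_hump 2.851 16.666 4.0825 0.0000003148 0.000001 hβ hr hκ hk1 hk2 (by norm_num) (tb := 1.83) (by linarith) (by norm_num) (by norm_num) (by norm_num) (by norm_num) (by norm_num) (by norm_num) (by norm_num) (ex_un 14 0.99 (by norm_num) (by norm_num) (by norm_num) (by norm_num)) (by norm_num)) (by norm_num) (by norm_num) (by norm_num))) hY (by norm_num) (by norm_num) (by norm_num) (by norm_num) (by norm_num) (ex_un 2 0.3704 (by norm_num) (by norm_num) (by norm_num) (by norm_num)) (by norm_num) (by norm_num) (by norm_num) (ex_un 7 0.5629 (by norm_num) (by norm_num) (by norm_num) (by norm_num)) (by norm_num) (by norm_num)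
    exact b3_cmp 1 0 0.04676 0.30629 0 0.215058 0.2664 hr (b3_w (b3_UD1 0.56 0.6 1.83 2.0944 0.4 0.53312 0.4 2.0513 3.9346 0.45 hβ hr hκ (by norm_num) hk1 hk2 (by linarith) (by linarith) (by norm_num) (by norm_num) (by norm_num) (by norm_num) (by norm_num) (by norm_num) (by norm_num) (by norm_num) (by norm_num) (by norm_num) (by norm_num) (by norm_num) (by norm_num))) hY (by norm_num) (by norm_num) (by norm_num) (by norm_num) (by norm_num) (by norm_num) (by norm_num) (by norm_num) (by norm_num) (ex_un 3 0.0629 (by norm_num) (by norm_num) (by norm_num) (by norm_num)) (by norm_num) (by norm_num)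
  have h2 : ‖Xf β r h t (-1)‖ ≤ 0.0005 * ‖Xf β r h t 0‖ := by
    exact b3_cmp 1 0 0.0008563 0.70629 0 0.000495 0.0005 hr ((b3_Xm hh).trans_le (b3_U1 0.56 0.6 3.47639 4.1888 1.30559 0.09773 1.02256 0.8836 0.00002 0.4873 0.000473 0.4944 hβ hr hκ (by norm_num) hk1 hk2 (by linarith) (by linarith) (by norm_num) (by norm_num) (by norm_num) (by norm_num) (by norm_num) (by norm_num) (by norm_num) (by norm_num) (by norm_num) (by norm_num) (by norm_num) (by norm_num) (by norm_num) (ex_un 8 0.836 (by norm_num) (by norm_num) (by norm_num) (by norm_num)) (v5_hump 0.4922 16.666 4.0825 0.0002739 0.000473 hβ hr hκ hk1 hk2 (by norm_num) (tb := 4.1888) (by linarith) (by norm_num) (by norm_num) (by norm_num) (by norm_num) (by norm_num) (by norm_num) (by norm_num) (ex_un 8 0.203 (by norm_num) (by norm_num) (by norm_num) (by norm_num)) (by norm_num)) (by norm_num))) hY (by norm_num) (by norm_num) (by norm_num) (by norm_num) (by norm_num) (by norm_num) (by norm_num)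 (by norm_num) (by norm_num) (ex_un 7 0.0629 (by norm_num) (by norm_num) (by norm_num) (by norm_num)) (by norm_num) (by norm_num)
  exact b3_out0 0.2664 0.0005 hY (by norm_num) h1 h2 (by norm_num)

private theorem yI {κ t : ℝ} (h : DomR κ t) (hk1 : 0.56 ≤ κ) (hk2 : κ ≤ 0.6) (ht1 : -0.9324 ≤ t + κ) (ht2 : t + κ ≤ -0.71239) :
    (-0.653) ≤ sy κ t ∧ sy κ t ≤ (-0.43) := by
  have hy1 : -0.653 ≤ sy κ t := syL_ge h 0.56 0.6 0.9324 0.653 0.52048 0.52049 0.5934 0.56645 0.60693 hk1 hk2 (by linarith) (by norm_num) (by norm_num) (by norm_num)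
    (expm_ge (by norm_num) (by norm_num) (by norm_num) (by norm_num)) (expm_le (by norm_num) (by norm_num) (by norm_num)) (by norm_num)
    (by norm_num) (by norm_num) (by norm_num) (by norm_num) (by norm_num) (by norm_num)
  have hy2 : sy κ t ≤ -0.43 := syL_le h 0.56 0.6 0.71239 0.43 0.6505 0.65051 0.46619 0.4995 hk1 hk2 (by linarith) (by norm_num) (by norm_num) (by norm_num)
    (expm_ge (by norm_num) (by norm_num) (by norm_num) (by norm_num)) (expm_le (by norm_num) (by norm_num) (by norm_num)) (by norm_num)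
    (by norm_num) (by norm_num) (by norm_num) (by norm_num) (by norm_num) (by norm_num)
  exact ⟨hy1, hy2⟩

theorem innE {β r h t κ : ℝ} (hh : h = 2 * Real.pi / (3 : ℕ)) (hβ : 0 < β) (hr : 10 ≤ r) (hκ : κ = β * r)
    (hk1 : 0.56 ≤ κ) (hk2 : κ ≤ 0.6) (hT1 : 1.162 ≤ t + κ) (hT2 : t + κ ≤ 1.382) :
    ‖Xf β r h t (-1)‖ ≤ 0.00444 * ‖Xf β r h t 0‖ ∧ ‖Xf β r h (t + β) (-1)‖ ≤ 0.00444 * ‖Xf β r h t 0‖ := by
  obtain ⟨q1, q2, q3⟩ := b3_h hh
  have hR0 := b3_R0 hβ hr hκ
  have hR := b3_R hβ hr hκ (by linarith)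
  have hD0 : DomR κ (t - h) := b3_dom (by linarith) (by linarith) (Or.inl (by linarith))
  have hy := yI hD0 hk1 hk2 (by linarith) (by linarith)
  have hY : 0.8103 * Real.exp (r * 0.54699) ≤ ‖Xf β r h t 0‖ :=
    b3_lo hβ hr hκ (k := 0) (t' := t - h) (by push_cast; ring) hD0 0.185 1.023 0.8103 0.54699 (by norm_num)
      (T3_12_p0 hD0 hβ hk1 hk2 (by linarith) (by linarith) hR0 hR)
      (v5_Dup hD0 0.6 (-0.653) (-0.43) 1.9213 1.53726 1.023 hk2 hy.1 hy.2 (ex_up 0.653 (by norm_num) (by norm_num) (by norm_num) (by norm_num)) (ex_up 0.43 (by norm_num) (by norm_num) (by norm_num) (by norm_num)) (by norm_num) (by norm_num) (by norm_num)) (by norm_num) (by norm_num)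
      (b3_Vlo hD0 0.56 0.6 (-0.9324) (-0.71239) 1.51 0.41211 0.6468 0.79801 0.22564 0.54699 hk1 hk2 (by linarith) (by linarith) (by norm_num) (ex_lp 0.41211 (by norm_num) (by norm_num) (by norm_num)) (by norm_num) (by norm_num) (by norm_num) (by norm_num) (by norm_num) (by norm_num) (by norm_num) (by norm_num) (ex_um 0.22564 (by norm_num) (by norm_num) (by norm_num) (by norm_num)) (by norm_num))
  constructor
  · exact b3_cmp 1 0 0.007066 0.49699 0 0.00444 0.00444 hr ((b3_Xm hh).trans_le (b3_U1 0.56 0.6 3.25639 3.4764 1.08559 0.09773 1.02256 0.8845 0.00002 0.4853 0.000001 0.5091 hβ hr hκ (by norm_num) hk1 hk2 (by linarith) (by linarith) (by norm_num) (by norm_num) (by norm_num) (by norm_num) (by norm_num) (by norm_num) (by norm_num) (by norm_num) (by norm_num) (by norm_num) (by norm_num) (by norm_num) (by norm_num) (ex_un 8 0.845 (by norm_num) (by norm_num) (by norm_num) (by norm_num)) (v5_hump 1.2046 16.666 4.0825 0.0000003148 0.000001 hβ hr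 hκ hk1 hk2 (by norm_num) (tb := 3.4764) (by linarith) (by norm_num) (by norm_num) (by norm_num) (by norm_num) (by norm_num) (by norm_num) (by norm_num) (ex_un 14 0.99 (by norm_num) (by norm_num) (by norm_num) (by norm_num)) (by norm_num)) (by norm_num))) hY (by norm_num) (by norm_num) (by norm_num) (by norm_num) (by norm_num) (by norm_num) (by norm_num) (by norm_num) (by norm_num) (ex_un 4 0.9699 (by norm_num) (by norm_num) (by norm_num) (by norm_num)) (by norm_num) (by norm_num)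
  · exact b3_cmp 1 0 0.007066 0.49699 0 0.00444 0.00444 hr ((b3_Xm hh).trans_le (b3_U1 0.56 0.6 3.25639 3.5364 1.08559 0.09773 1.02256 0.8845 0.00002 0.4853 0.000001 0.5091 hβ hr hκ (by norm_num) hk1 hk2 (by linarith) (by linarith) (by norm_num) (by norm_num) (by norm_num) (by norm_num) (by norm_num) (by norm_num) (by norm_num) (by norm_num) (by norm_num) (by norm_num) (by norm_num) (by norm_num) (by norm_num) (ex_un 8 0.845 (by norm_num) (by norm_num) (by norm_num) (by norm_num)) (v5_hump 1.1446 16.666 4.0825 0.0000003148 0.000001 hβ hr hκ hk1 hk2 (by norm_num) (tb := 3.5364) (by linarith) (by norm_num) (by norm_num) (by norm_num) (by norm_num) (by norm_num) (by norm_num) (by norm_num) (ex_un 14 0.99 (by norm_num) (by norm_num) (by norm_num) (by norm_num)) (by norm_num)) (by norm_num))) hY (by norm_num) (by norm_num) (by norm_num) (by norm_num) (by norm_num) (by norm_num) (by norm_num) (by norm_num) (by norm_num) (ex_un 4 0.9699 (by norm_num)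 (by norm_num) (by norm_num) (by norm_num)) (by norm_num) (by norm_num)

private theorem yA0 {κ t : ℝ} (h : DomR κ t) (hk1 : 0.56 ≤ κ) (hk2 : κ ≤ 0.6) (ht1 : 1.162 ≤ t + κ) (ht2 : t + κ ≤ 1.192) :
    0.31 ≤ sy κ t ∧ sy κ t ≤ 0.334 := by
  have hy1 : 0.31 ≤ sy κ t := syR_ge h 0.56 0.6 1.162 0.31 1.36342 1.36343 0.70443 0.75476 hk1 hk2 (by linarith) (by norm_num) (by norm_num)
    (expn_ge (by norm_num) (by norm_num)) (expn_le (by norm_num) (by norm_num) (by norm_num)) (by norm_num)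
    (by norm_num) (by norm_num) (by norm_num) (by norm_num) (by norm_num) (by norm_num)
  have hy2 : sy κ t ≤ 0.334 := syR_ang2 h 0.56 0.6 1.192 0.89 0.6301 0.7772 0.334 0.71606 1.39654 hk1 hk2 (by linarith) (by norm_num) (by norm_num) (by norm_num)
    (cos_le_num (by norm_num)) (sin_le_num (by norm_num) (by norm_num)) (expm_le (by norm_num) (by norm_num) (by norm_num))
    (expn_ge (by norm_num) (by norm_num)) (by norm_num) (by norm_num) (by norm_num) (by norm_num) (by norm_num)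
  exact ⟨hy1, hy2⟩

private theorem yB0 {κ t : ℝ} (h : DomR κ t) (hk1 : 0.56 ≤ κ) (hk2 : κ ≤ 0.6) (ht1 : -0.9324 ≤ t + κ) (ht2 : t + κ ≤ -0.90239) :
    (-0.653) ≤ sy κ t ∧ sy κ t ≤ (-0.599) := by
  have hy1 : -0.653 ≤ sy κ t := syL_ge h 0.56 0.6 0.9324 0.653 0.52048 0.52049 0.5934 0.56645 0.60693 hk1 hk2 (by linarith) (by norm_num) (by norm_num) (by norm_num)
    (expm_ge (by norm_num) (by norm_num) (by norm_num) (by norm_num)) (expm_le (by norm_num) (by norm_num) (by norm_num)) (by norm_num)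
    (by norm_num) (by norm_num) (by norm_num) (by norm_num) (by norm_num) (by norm_num)
  have hy2 : sy κ t ≤ -0.599 := syL_le h 0.56 0.6 0.90239 0.599 0.54936 0.54937 0.54844 0.58763 hk1 hk2 (by linarith) (by norm_num) (by norm_num) (by norm_num)
    (expm_ge (by norm_num) (by norm_num) (by norm_num) (by norm_num)) (expm_le (by norm_num) (by norm_num) (by norm_num)) (by norm_num)
    (by norm_num) (by norm_num) (by norm_num) (by norm_num) (by norm_num) (by norm_num)
  exact ⟨hy1, hy2⟩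

theorem pc0 {β r h t κ : ℝ} (hh : h = 2 * Real.pi / (3 : ℕ)) (hβ : 0 < β) (hr : 10 ≤ r) (hκ : κ = β * r)
    (hk1 : 0.56 ≤ κ) (hk2 : κ ≤ 0.6) (hT1 : 1.162 ≤ t + κ) (hT2 : t + κ ≤ 1.192) :
    Xf β r h t 0 ≠ 0 ∧ r * 0.0482 ≤ (Ld β r h t 1 - Ld β r h t 0).im ∧
      ‖(((-1 : ℤ) : ℂ) - 1) * Ld β r h t 0 - ((-1 : ℤ) : ℂ) * Ld β r h t 1‖ ≤ r * 7.97 := by
  obtain ⟨q1, q2, q3⟩ := b3_h hh
  have hR0 := b3_R0 hβ hr hκ
  have hR := b3_R hβ hr hκ (by linarith)
  have hD1 : DomR κ t := b3_dom (by linarith) (by linarith) (Or.inl (by linarith))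
  have hD0 : DomR κ (t - h) := b3_dom (by linarith) (by linarith) (Or.inl (by linarith))
  have y1 := yA0 hD1 hk1 hk2 (by linarith) (by linarith)
  have y0 := yB0 hD0 hk1 hk2 (by linarith) (by linarith)
  have j1 := T3_12_d1_0 hD1 hβ hk1 hk2 (by linarith) (by linarith) hR0 hR
  exact b3_piece 0.56 0.6 0.31 0.334 0.322 0.72469 0.73345 0.71606 0.4401 1.7886 1.8526 0.06 0.045 0.045 0.7854 0.2585 0 0 (-0.653) (-0.599) (-0.626) 1.8701 1.9213 1.1528 0.8395 0.03 0.28 0.185 11.452 14.4088 0 0 0.0482 7.97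
    hβ hr hκ (by norm_num) hk1 hk2 hD1 hD0 j1 (j1 _ (by rw [sub_self, norm_zero]; norm_num))
    (T3_12_d0_0 hD0 hβ hk1 hk2 (by linarith) (by linarith) hR0 hR)
    (T3_12_p0 hD0 hβ hk1 hk2 (by linarith) (by linarith) hR0 hR)
    y1.1 y1.2 y0.1 y0.2 (by norm_num)
    (ex_um 0.31 (by norm_num) (by norm_num) (by norm_num) (by norm_num)) (ex_um 0.334 (by norm_num) (by norm_num) (by norm_num) (by norm_num)) (ex_lm 0.322 (by norm_num) (by norm_num) (by norm_num) (by norm_num) (by norm_num)) (by norm_num) (by norm_num) (by norm_num) (by norm_num) (by norm_num) (by norm_num) (by norm_num) (by norm_num)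
    (by norm_num) (by norm_num) (by norm_num) (by norm_num) (by norm_num) (by norm_num) (by norm_num) (by norm_num) (by norm_num) (by norm_num)
    (ex_up 0.653 (by norm_num) (by norm_num) (by norm_num) (by norm_num)) (ex_lp 0.626 (by norm_num) (by norm_num) (by norm_num)) (by norm_num) (by norm_num) (by norm_num) (by norm_num) (by norm_num) (by norm_num)
    (by norm_num) (by norm_num) (by norm_num) (by norm_num) (by norm_num) (by norm_num) (by norm_num) (by norm_num) (by norm_num) (by norm_num) (by norm_num)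
    (by norm_num) (by norm_num) (by norm_num) (by norm_num)

private theorem yA1 {κ t : ℝ} (h : DomR κ t) (hk1 : 0.56 ≤ κ) (hk2 : κ ≤ 0.6) (ht1 : 1.192 ≤ t + κ) (ht2 : t + κ ≤ 1.215) :
    0.314 ≤ sy κ t ∧ sy κ t ≤ 0.337 := by
  have hy1 : 0.314 ≤ sy κ t := syR_ge h 0.56 0.6 1.192 0.314 1.36888 1.36889 0.71638 0.76756 hk1 hk2 (by linarith) (by norm_num) (by norm_num)
    (expn_ge (by norm_num) (by norm_num)) (expn_le (by norm_num) (by norm_num) (by norm_num)) (by norm_num)
    (by norm_num) (by norm_num) (by norm_num) (by norm_num) (by norm_num) (by norm_num)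
  have hy2 : sy κ t ≤ 0.337 := syR_ang2 h 0.56 0.6 1.215 0.905 0.6185 0.7866 0.337 0.71391 1.40073 hk1 hk2 (by linarith) (by norm_num) (by norm_num) (by norm_num)
    (cos_le_num (by norm_num)) (sin_le_num (by norm_num) (by norm_num)) (expm_le (by norm_num) (by norm_num) (by norm_num))
    (expn_ge (by norm_num) (by norm_num)) (by norm_num) (by norm_num) (by norm_num) (by norm_num) (by norm_num)
  exact ⟨hy1, hy2⟩

private theorem yB1 {κ t : ℝ} (h : DomR κ t) (hk1 : 0.56 ≤ κ) (hk2 : κ ≤ 0.6) (ht1 : -0.9024 ≤ t + κ) (ht2 : t + κ ≤ -0.87939) :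
    (-0.622) ≤ sy κ t ∧ sy κ t ≤ (-0.578) := by
  have hy1 : -0.622 ≤ sy κ t := syL_ge h 0.56 0.6 0.9024 0.622 0.53686 0.53688 0.5797 0.55654 0.59633 hk1 hk2 (by linarith) (by norm_num) (by norm_num) (by norm_num)
    (expm_ge (by norm_num) (by norm_num) (by norm_num) (by norm_num)) (expm_le (by norm_num) (by norm_num) (by norm_num)) (by norm_num)
    (by norm_num) (by norm_num) (by norm_num) (by norm_num) (by norm_num) (by norm_num)
  have hy2 : sy κ t ≤ -0.578 := syL_le h 0.56 0.6 0.87939 0.578 0.56101 0.56103 0.54043 0.57907 hk1 hk2 (by linarith) (by norm_num) (by norm_num) (by norm_num)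
    (expm_ge (by norm_num) (by norm_num) (by norm_num) (by norm_num)) (expm_le (by norm_num) (by norm_num) (by norm_num)) (by norm_num)
    (by norm_num) (by norm_num) (by norm_num) (by norm_num) (by norm_num) (by norm_num)
  exact ⟨hy1, hy2⟩

theorem pc1 {β r h t κ : ℝ} (hh : h = 2 * Real.pi / (3 : ℕ)) (hβ : 0 < β) (hr : 10 ≤ r) (hκ : κ = β * r)
    (hk1 : 0.56 ≤ κ) (hk2 : κ ≤ 0.6) (hT1 : 1.192 ≤ t + κ) (hT2 : t + κ ≤ 1.215) :
    Xf β r h t 0 ≠ 0 ∧ r * 0.0482 ≤ (Ld β r h t 1 - Ld β r h t 0).im ∧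
      ‖(((-1 : ℤ) : ℂ) - 1) * Ld β r h t 0 - ((-1 : ℤ) : ℂ) * Ld β r h t 1‖ ≤ r * 7.97 := by
  obtain ⟨q1, q2, q3⟩ := b3_h hh
  have hR0 := b3_R0 hβ hr hκ
  have hR := b3_R hβ hr hκ (by linarith)
  have hD1 : DomR κ t := b3_dom (by linarith) (by linarith) (Or.inl (by linarith))
  have hD0 : DomR κ (t - h) := b3_dom (by linarith) (by linarith) (Or.inl (by linarith))
  have y1 := yA1 hD1 hk1 hk2 (by linarith) (by linarith)
  have y0 := yB1 hD0 hk1 hk2 (by linarith) (by linarith)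
  have j1 := T3_12_d1_1 hD1 hβ hk1 hk2 (by linarith) (by linarith) hR0 hR
  exact b3_piece 0.56 0.6 0.314 0.337 0.326 0.7218 0.73052 0.71391 0.4384 1.7953 1.8575 0.05 0.05 0.05 1.0527 0.3445 0 0 (-0.622) (-0.578) (-0.6) 1.82211 1.86265 1.1176 0.8393 0.05 0.32 0.185 7.8528 9.5798 0.0028 0.0038 0.0482 7.97
    hβ hr hκ (by norm_num) hk1 hk2 hD1 hD0 j1 (j1 _ (by rw [sub_self, norm_zero]; norm_num))
    (T3_12_d0_1 hD0 hβ hk1 hk2 (by linarith) (by linarith) hR0 hR)
    (T3_12_p0 hD0 hβ hk1 hk2 (by linarith) (by linarith) hR0 hR)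
    y1.1 y1.2 y0.1 y0.2 (by norm_num)
    (ex_um 0.314 (by norm_num) (by norm_num) (by norm_num) (by norm_num)) (ex_um 0.337 (by norm_num) (by norm_num) (by norm_num) (by norm_num)) (ex_lm 0.326 (by norm_num) (by norm_num) (by norm_num) (by norm_num) (by norm_num)) (by norm_num) (by norm_num) (by norm_num) (by norm_num) (by norm_num) (by norm_num) (by norm_num) (by norm_num)
    (by norm_num) (by norm_num) (by norm_num) (by norm_num) (by norm_num) (by norm_num) (by norm_num) (by norm_num) (by norm_num) (by norm_num)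
    (ex_up 0.622 (by norm_num) (by norm_num) (by norm_num) (by norm_num)) (ex_lp 0.6 (by norm_num) (by norm_num) (by norm_num)) (by norm_num) (by norm_num) (by norm_num) (by norm_num) (by norm_num) (by norm_num)
    (by norm_num) (by norm_num) (by norm_num) (by norm_num) (by norm_num) (by norm_num) (by norm_num) (by norm_num) (by norm_num) (by norm_num) (by norm_num)
    (by norm_num) (by norm_num) (by norm_num) (by norm_num)

private theorem yA2 {κ t : ℝ} (h : DomR κ t) (hk1 : 0.56 ≤ κ) (hk2 : κ ≤ 0.6) (ht1 : 1.215 ≤ t + κ) (ht2 : t + κ ≤ 1.239) :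
    0.317 ≤ sy κ t ∧ sy κ t ≤ 0.341 := by
  have hy1 : 0.317 ≤ sy κ t := syR_ge h 0.56 0.6 1.215 0.317 1.373 1.37301 0.7254 0.77723 hk1 hk2 (by linarith) (by norm_num) (by norm_num)
    (expn_ge (by norm_num) (by norm_num)) (expn_le (by norm_num) (by norm_num) (by norm_num)) (by norm_num)
    (by norm_num) (by norm_num) (by norm_num) (by norm_num) (by norm_num) (by norm_num)
  have hy2 : sy κ t ≤ 0.341 := syR_ang2 h 0.56 0.6 1.239 0.925 0.6027 0.7988 0.341 0.71106 1.40635 hk1 hk2 (by linarith) (by norm_num) (by norm_num) (by norm_num)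
    (cos_le_num (by norm_num)) (sin_le_num (by norm_num) (by norm_num)) (expm_le (by norm_num) (by norm_num) (by norm_num))
    (expn_ge (by norm_num) (by norm_num)) (by norm_num) (by norm_num) (by norm_num) (by norm_num) (by norm_num)
  exact ⟨hy1, hy2⟩

private theorem yB2 {κ t : ℝ} (h : DomR κ t) (hk1 : 0.56 ≤ κ) (hk2 : κ ≤ 0.6) (ht1 : -0.8794 ≤ t + κ) (ht2 : t + κ ≤ -0.85539) :
    (-0.598) ≤ sy κ t ∧ sy κ t ≤ (-0.555) := by
  have hy1 : -0.598 ≤ sy κ t := syL_ge h 0.56 0.6 0.8794 0.598 0.54991 0.54992 0.5807 0.54807 0.58724 hk1 hk2 (by linarith) (by norm_num) (by norm_num) (by norm_num)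
    (expm_ge (by norm_num) (by norm_num) (by norm_num) (by norm_num)) (expm_le (by norm_num) (by norm_num) (by norm_num)) (by norm_num)
    (by norm_num) (by norm_num) (by norm_num) (by norm_num) (by norm_num) (by norm_num)
  have hy2 : sy κ t ≤ -0.555 := syL_le h 0.56 0.6 0.85539 0.555 0.57407 0.57408 0.53101 0.56896 hk1 hk2 (by linarith) (by norm_num) (by norm_num) (by norm_num)
    (expm_ge (by norm_num) (by norm_num) (by norm_num) (by norm_num)) (expm_le (by norm_num) (by norm_num) (by norm_num)) (by norm_num)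
    (by norm_num) (by norm_num) (by norm_num) (by norm_num) (by norm_num) (by norm_num)
  exact ⟨hy1, hy2⟩

theorem pc2 {β r h t κ : ℝ} (hh : h = 2 * Real.pi / (3 : ℕ)) (hβ : 0 < β) (hr : 10 ≤ r) (hκ : κ = β * r)
    (hk1 : 0.56 ≤ κ) (hk2 : κ ≤ 0.6) (hT1 : 1.215 ≤ t + κ) (hT2 : t + κ ≤ 1.239) :
    Xf β r h t 0 ≠ 0 ∧ r * 0.0482 ≤ (Ld β r h t 1 - Ld β r h t 0).im ∧
      ‖(((-1 : ℤ) : ℂ) - 1) * Ld β r h t 0 - ((-1 : ℤ) : ℂ) * Ld β r h t 1‖ ≤ r * 7.97 := by
  obtain ⟨q1, q2, q3⟩ := b3_h hh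
  have hR0 := b3_R0 hβ hr hκ
  have hR := b3_R hβ hr hκ (by linarith)
  have hD1 : DomR κ t := b3_dom (by linarith) (by linarith) (Or.inl (by linarith))
  have hD0 : DomR κ (t - h) := b3_dom (by linarith) (by linarith) (Or.inl (by linarith))
  have y1 := yA2 hD1 hk1 hk2 (by linarith) (by linarith)
  have y0 := yB2 hD0 hk1 hk2 (by linarith) (by linarith)
  have j1 := T3_12_d1_1 hD1 hβ hk1 hk2 (by linarith) (by linarith) hR0 hR
  exact b3_piece 0.56 0.6 0.317 0.341 0.329 0.71964 0.72834 0.71106 0.4371 1.8003 1.8641 0.05 0.05 0.05 1.0527 0.343 0 0 (-0.598) (-0.555) (-0.577) 1.78068 1.81848 1.0911 0.8401 0.05 0.32 0.185 7.8528 9.3482 0.0297 0.0386 0.0482 7.97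
    hβ hr hκ (by norm_num) hk1 hk2 hD1 hD0 j1 (j1 _ (by rw [sub_self, norm_zero]; norm_num))
    (T3_12_d0_1 hD0 hβ hk1 hk2 (by linarith) (by linarith) hR0 hR)
    (T3_12_p0 hD0 hβ hk1 hk2 (by linarith) (by linarith) hR0 hR)
    y1.1 y1.2 y0.1 y0.2 (by norm_num)
    (ex_um 0.317 (by norm_num) (by norm_num) (by norm_num) (by norm_num)) (ex_um 0.341 (by norm_num) (by norm_num) (by norm_num) (by norm_num)) (ex_lm 0.329 (by norm_num) (by norm_num) (by norm_num) (by norm_num) (by norm_num)) (by norm_num) (by norm_num) (by norm_num) (by norm_num) (by norm_num) (by norm_num) (by norm_num) (by norm_num)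
    (by norm_num) (by norm_num) (by norm_num) (by norm_num) (by norm_num) (by norm_num) (by norm_num) (by norm_num) (by norm_num) (by norm_num)
    (ex_up 0.598 (by norm_num) (by norm_num) (by norm_num) (by norm_num)) (ex_lp 0.577 (by norm_num) (by norm_num) (by norm_num)) (by norm_num) (by norm_num) (by norm_num) (by norm_num) (by norm_num) (by norm_num)
    (by norm_num) (by norm_num) (by norm_num) (by norm_num) (by norm_num) (by norm_num) (by norm_num) (by norm_num) (by norm_num) (by norm_num) (by norm_num)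
    (by norm_num) (by norm_num) (by norm_num) (by norm_num)

private theorem yA3 {κ t : ℝ} (h : DomR κ t) (hk1 : 0.56 ≤ κ) (hk2 : κ ≤ 0.6) (ht1 : 1.239 ≤ t + κ) (ht2 : t + κ ≤ 1.262) :
    0.321 ≤ sy κ t ∧ sy κ t ≤ 0.344 := by
  have hy1 : 0.321 ≤ sy κ t := syR_ge h 0.56 0.6 1.239 0.321 1.3785 1.37851 0.73749 0.79019 hk1 hk2 (by linarith) (by norm_num) (by norm_num)
    (expn_ge (by norm_num) (by norm_num)) (expn_le (by norm_num) (by norm_num) (by norm_num)) (by norm_num)
    (by norm_num) (by norm_num) (by norm_num) (by norm_num) (by norm_num) (by norm_num)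
  have hy2 : sy κ t ≤ 0.344 := syR_ang2 h 0.56 0.6 1.262 0.941 0.59 0.8083 0.344 0.70893 1.41057 hk1 hk2 (by linarith) (by norm_num) (by norm_num) (by norm_num)
    (cos_le_num (by norm_num)) (sin_le_num (by norm_num) (by norm_num)) (expm_le (by norm_num) (by norm_num) (by norm_num))
    (expn_ge (by norm_num) (by norm_num)) (by norm_num) (by norm_num) (by norm_num) (by norm_num) (by norm_num)
  exact ⟨hy1, hy2⟩

private theorem yB3 {κ t : ℝ} (h : DomR κ t) (hk1 : 0.56 ≤ κ) (hk2 : κ ≤ 0.6) (ht1 : -0.8554 ≤ t + κ) (ht2 : t + κ ≤ -0.83239) :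
    (-0.574) ≤ sy κ t ∧ sy κ t ≤ (-0.534) := by
  have hy1 : -0.574 ≤ sy κ t := syL_ge h 0.56 0.6 0.8554 0.574 0.56326 0.56327 0.5613 0.53885 0.57736 hk1 hk2 (by linarith) (by norm_num) (by norm_num) (by norm_num)
    (expm_ge (by norm_num) (by norm_num) (by norm_num) (by norm_num)) (expm_le (by norm_num) (by norm_num) (by norm_num)) (by norm_num)
    (by norm_num) (by norm_num) (by norm_num) (by norm_num) (by norm_num) (by norm_num)
  have hy2 : sy κ t ≤ -0.534 := syL_le h 0.56 0.6 0.83239 0.534 0.58625 0.58626 0.52176 0.55905 hk1 hk2 (by linarith) (by norm_num) (by norm_num) (by norm_num)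
    (expm_ge (by norm_num) (by norm_num) (by norm_num) (by norm_num)) (expm_le (by norm_num) (by norm_num) (by norm_num)) (by norm_num)
    (by norm_num) (by norm_num) (by norm_num) (by norm_num) (by norm_num) (by norm_num)
  exact ⟨hy1, hy2⟩

theorem pc3 {β r h t κ : ℝ} (hh : h = 2 * Real.pi / (3 : ℕ)) (hβ : 0 < β) (hr : 10 ≤ r) (hκ : κ = β * r)
    (hk1 : 0.56 ≤ κ) (hk2 : κ ≤ 0.6) (hT1 : 1.239 ≤ t + κ) (hT2 : t + κ ≤ 1.262) :
    Xf β r h t 0 ≠ 0 ∧ r * 0.0482 ≤ (Ld β r h t 1 - Ld β r h t 0).im ∧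
      ‖(((-1 : ℤ) : ℂ) - 1) * Ld β r h t 0 - ((-1 : ℤ) : ℂ) * Ld β r h t 1‖ ≤ r * 7.97 := by
  obtain ⟨q1, q2, q3⟩ := b3_h hh
  have hR0 := b3_R0 hβ hr hκ
  have hR := b3_R hβ hr hκ (by linarith)
  have hD1 : DomR κ t := b3_dom (by linarith) (by linarith) (Or.inl (by linarith))
  have hD0 : DomR κ (t - h) := b3_dom (by linarith) (by linarith) (Or.inl (by linarith))
  have y1 := yA3 hD1 hk1 hk2 (by linarith) (by linarith)
  have y0 := yB3 hD0 hk1 hk2 (by linarith) (by linarith)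
  have j1 := T3_12_d1_1 hD1 hβ hk1 hk2 (by linarith) (by linarith) hR0 hR
  exact b3_piece 0.56 0.6 0.321 0.344 0.333 0.71677 0.72543 0.70893 0.4353 1.8069 1.869 0.05 0.05 0.05 1.0527 0.3409 0 0 (-0.574) (-0.534) (-0.554) 1.74019 1.77536 1.0653 0.8396 0.05 0.32 0.185 7.8528 9.1298 0.0551 0.07 0.0482 7.97
    hβ hr hκ (by norm_num) hk1 hk2 hD1 hD0 j1 (j1 _ (by rw [sub_self, norm_zero]; norm_num))
    (T3_12_d0_1 hD0 hβ hk1 hk2 (by linarith) (by linarith) hR0 hR)
    (T3_12_p0 hD0 hβ hk1 hk2 (by linarith) (by linarith) hR0 hR)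
    y1.1 y1.2 y0.1 y0.2 (by norm_num)
    (ex_um 0.321 (by norm_num) (by norm_num) (by norm_num) (by norm_num)) (ex_um 0.344 (by norm_num) (by norm_num) (by norm_num) (by norm_num)) (ex_lm 0.333 (by norm_num) (by norm_num) (by norm_num) (by norm_num) (by norm_num)) (by norm_num) (by norm_num) (by norm_num) (by norm_num) (by norm_num) (by norm_num) (by norm_num) (by norm_num)
    (by norm_num) (by norm_num) (by norm_num) (by norm_num) (by norm_num) (by norm_num) (by norm_num) (by norm_num) (by norm_num) (by norm_num)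
    (ex_up 0.574 (by norm_num) (by norm_num) (by norm_num) (by norm_num)) (ex_lp 0.554 (by norm_num) (by norm_num) (by norm_num)) (by norm_num) (by norm_num) (by norm_num) (by norm_num) (by norm_num) (by norm_num)
    (by norm_num) (by norm_num) (by norm_num) (by norm_num) (by norm_num) (by norm_num) (by norm_num) (by norm_num) (by norm_num) (by norm_num) (by norm_num)
    (by norm_num) (by norm_num) (by norm_num) (by norm_num)

private theorem yA4 {κ t : ℝ} (h : DomR κ t) (hk1 : 0.56 ≤ κ) (hk2 : κ ≤ 0.6) (ht1 : 1.262 ≤ t + κ) (ht2 : t + κ ≤ 1.292) :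
    0.324 ≤ sy κ t ∧ sy κ t ≤ 0.348 := by
  have hy1 : 0.324 ≤ sy κ t := syR_ge h 0.56 0.6 1.262 0.324 1.38264 1.38265 0.74662 0.79997 hk1 hk2 (by linarith) (by norm_num) (by norm_num)
    (expn_ge (by norm_num) (by norm_num)) (expn_le (by norm_num) (by norm_num) (by norm_num)) (by norm_num)
    (by norm_num) (by norm_num) (by norm_num) (by norm_num) (by norm_num) (by norm_num)
  have hy2 : sy κ t ≤ 0.348 := syR_ang2 h 0.56 0.6 1.292 0.963 0.5722 0.8211 0.348 0.7061 1.41623 hk1 hk2 (by linarith) (by norm_num) (by norm_num) (by norm_num)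
    (cos_le_num (by norm_num)) (sin_le_num (by norm_num) (by norm_num)) (expm_le (by norm_num) (by norm_num) (by norm_num))
    (expn_ge (by norm_num) (by norm_num)) (by norm_num) (by norm_num) (by norm_num) (by norm_num) (by norm_num)
  exact ⟨hy1, hy2⟩

private theorem yB4 {κ t : ℝ} (h : DomR κ t) (hk1 : 0.56 ≤ κ) (hk2 : κ ≤ 0.6) (ht1 : -0.8324 ≤ t + κ) (ht2 : t + κ ≤ -0.80239) :
    (-0.552) ≤ sy κ t ∧ sy κ t ≤ (-0.507) := by
  have hy1 : -0.552 ≤ sy κ t := syL_ge h 0.56 0.6 0.8324 0.552 0.57579 0.5758 0.5391 0.52972 0.56758 hk1 hk2 (by linarith) (by norm_num) (by norm_num) (by norm_num)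
    (expm_ge (by norm_num) (by norm_num) (by norm_num) (by norm_num)) (expm_le (by norm_num) (by norm_num) (by norm_num)) (by norm_num)
    (by norm_num) (by norm_num) (by norm_num) (by norm_num) (by norm_num) (by norm_num)
  have hy2 : sy κ t ≤ -0.507 := syL_le h 0.56 0.6 0.80239 0.507 0.60229 0.60231 0.50893 0.54531 hk1 hk2 (by linarith) (by norm_num) (by norm_num) (by norm_num)
    (expm_ge (by norm_num) (by norm_num) (by norm_num) (by norm_num)) (expm_le (by norm_num) (by norm_num) (by norm_num)) (by norm_num)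
    (by norm_num) (by norm_num) (by norm_num) (by norm_num) (by norm_num) (by norm_num)
  exact ⟨hy1, hy2⟩

theorem pc4 {β r h t κ : ℝ} (hh : h = 2 * Real.pi / (3 : ℕ)) (hβ : 0 < β) (hr : 10 ≤ r) (hκ : κ = β * r)
    (hk1 : 0.56 ≤ κ) (hk2 : κ ≤ 0.6) (hT1 : 1.262 ≤ t + κ) (hT2 : t + κ ≤ 1.292) :
    Xf β r h t 0 ≠ 0 ∧ r * 0.0482 ≤ (Ld β r h t 1 - Ld β r h t 0).im ∧
      ‖(((-1 : ℤ) : ℂ) - 1) * Ld β r h t 0 - ((-1 : ℤ) : ℂ) * Ld β r h t 1‖ ≤ r * 7.97 := by
  obtain ⟨q1, q2, q3⟩ := b3_h hh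
  have hR0 := b3_R0 hβ hr hκ
  have hR := b3_R hβ hr hκ (by linarith)
  have hD1 : DomR κ t := b3_dom (by linarith) (by linarith) (Or.inl (by linarith))
  have hD0 : DomR κ (t - h) := b3_dom (by linarith) (by linarith) (Or.inl (by linarith))
  have y1 := yA4 hD1 hk1 hk2 (by linarith) (by linarith)
  have y0 := yB4 hD0 hk1 hk2 (by linarith) (by linarith)
  have j1 := T3_12_d1_2 hD1 hβ hk1 hk2 (by linarith) (by linarith) hR0 hR
  exact b3_piece 0.56 0.6 0.324 0.348 0.336 0.71462 0.72326 0.7061 0.434 1.8119 1.8755 0.03 0.05 0.05 1.7544 0.5657 0 0 (-0.552) (-0.507) (-0.529) 1.69723 1.73673 1.0421 0.8409 0.05 0.215 0.185 5.2761 5.9959 0.0863 0.107 0.0482 7.97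
    hβ hr hκ (by norm_num) hk1 hk2 hD1 hD0 j1 (j1 _ (by rw [sub_self, norm_zero]; norm_num))
    (T3_12_d0_2 hD0 hβ hk1 hk2 (by linarith) (by linarith) hR0 hR)
    (T3_12_p0 hD0 hβ hk1 hk2 (by linarith) (by linarith) hR0 hR)
    y1.1 y1.2 y0.1 y0.2 (by norm_num)
    (ex_um 0.324 (by norm_num) (by norm_num) (by norm_num) (by norm_num)) (ex_um 0.348 (by norm_num) (by norm_num) (by norm_num) (by norm_num)) (ex_lm 0.336 (by norm_num) (by norm_num) (by norm_num) (by norm_num) (by norm_num)) (by norm_num) (by norm_num) (by norm_num) (by norm_num) (by norm_num) (by norm_num) (by norm_num) (by norm_num)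
    (by norm_num) (by norm_num) (by norm_num) (by norm_num) (by norm_num) (by norm_num) (by norm_num) (by norm_num) (by norm_num) (by norm_num)
    (ex_up 0.552 (by norm_num) (by norm_num) (by norm_num) (by norm_num)) (ex_lp 0.529 (by norm_num) (by norm_num) (by norm_num)) (by norm_num) (by norm_num) (by norm_num) (by norm_num) (by norm_num) (by norm_num)
    (by norm_num) (by norm_num) (by norm_num) (by norm_num) (by norm_num) (by norm_num) (by norm_num) (by norm_num) (by norm_num) (by norm_num) (by norm_num)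
    (by norm_num) (by norm_num) (by norm_num) (by norm_num)

private theorem yA5 {κ t : ℝ} (h : DomR κ t) (hk1 : 0.56 ≤ κ) (hk2 : κ ≤ 0.6) (ht1 : 1.292 ≤ t + κ) (ht2 : t + κ ≤ 1.322) :
    0.324 ≤ sy κ t ∧ sy κ t ≤ 0.352 := by
  have hy1 : 0.324 ≤ sy κ t := syR_ge h 0.56 0.6 1.292 0.324 1.38264 1.38265 0.74662 0.79997 hk1 hk2 (by linarith) (by norm_num) (by norm_num)
    (expn_ge (by norm_num) (by norm_num)) (expn_le (by norm_num) (by norm_num) (by norm_num)) (by norm_num)
    (by norm_num) (by norm_num) (by norm_num) (by norm_num) (by norm_num) (by norm_num)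
  have hy2 : sy κ t ≤ 0.352 := syR_ang2 h 0.56 0.6 1.322 0.986 0.5533 0.8341 0.352 0.70329 1.4219 hk1 hk2 (by linarith) (by norm_num) (by norm_num) (by norm_num)
    (cos_le_num (by norm_num)) (sin_le_num (by norm_num) (by norm_num)) (expm_le (by norm_num) (by norm_num) (by norm_num))
    (expn_ge (by norm_num) (by norm_num)) (by norm_num) (by norm_num) (by norm_num) (by norm_num) (by norm_num)
  exact ⟨hy1, hy2⟩

private theorem yB5 {κ t : ℝ} (h : DomR κ t) (hk1 : 0.56 ≤ κ) (hk2 : κ ≤ 0.6) (ht1 : -0.8024 ≤ t + κ) (ht2 : t + κ ≤ -0.77239) :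
    (-0.524) ≤ sy κ t ∧ sy κ t ≤ (-0.481) := by
  have hy1 : -0.524 ≤ sy κ t := syL_ge h 0.56 0.6 0.8024 0.524 0.59214 0.59215 0.514 0.51713 0.55409 hk1 hk2 (by linarith) (by norm_num) (by norm_num) (by norm_num)
    (expm_ge (by norm_num) (by norm_num) (by norm_num) (by norm_num)) (expm_le (by norm_num) (by norm_num) (by norm_num)) (by norm_num)
    (by norm_num) (by norm_num) (by norm_num) (by norm_num) (by norm_num) (by norm_num)
  have hy2 : sy κ t ≤ -0.481 := syL_le h 0.56 0.6 0.77239 0.481 0.61816 0.61817 0.49555 0.53097 hk1 hk2 (by linarith) (by norm_num) (by norm_num) (by norm_num)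
    (expm_ge (by norm_num) (by norm_num) (by norm_num) (by norm_num)) (expm_le (by norm_num) (by norm_num) (by norm_num)) (by norm_num)
    (by norm_num) (by norm_num) (by norm_num) (by norm_num) (by norm_num) (by norm_num)
  exact ⟨hy1, hy2⟩

theorem pc5 {β r h t κ : ℝ} (hh : h = 2 * Real.pi / (3 : ℕ)) (hβ : 0 < β) (hr : 10 ≤ r) (hκ : κ = β * r)
    (hk1 : 0.56 ≤ κ) (hk2 : κ ≤ 0.6) (hT1 : 1.292 ≤ t + κ) (hT2 : t + κ ≤ 1.322) :
    Xf β r h t 0 ≠ 0 ∧ r * 0.0482 ≤ (Ld β r h t 1 - Ld β r h t 0).im ∧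
      ‖(((-1 : ℤ) : ℂ) - 1) * Ld β r h t 0 - ((-1 : ℤ) : ℂ) * Ld β r h t 1‖ ≤ r * 7.97 := by
  obtain ⟨q1, q2, q3⟩ := b3_h hh
  have hR0 := b3_R0 hβ hr hκ
  have hR := b3_R hβ hr hκ (by linarith)
  have hD1 : DomR κ t := b3_dom (by linarith) (by linarith) (Or.inl (by linarith))
  have hD0 : DomR κ (t - h) := b3_dom (by linarith) (by linarith) (Or.inl (by linarith))
  have y1 := yA5 hD1 hk1 hk2 (by linarith) (by linarith)
  have y0 := yB5 hD0 hk1 hk2 (by linarith) (by linarith)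
  have j1 := T3_12_d1_2 hD1 hβ hk1 hk2 (by linarith) (by linarith) hR0 hR
  exact b3_piece 0.56 0.6 0.324 0.352 0.338 0.71319 0.72326 0.70329 0.434 1.8119 1.8821 0.03 0.05 0.05 1.7544 0.5657 0 0 (-0.524) (-0.481) (-0.502) 1.65202 1.68877 1.0133 0.8455 0.05 0.215 0.185 5.2761 5.8143 0.1139 0.1366 0.0482 7.97
    hβ hr hκ (by norm_num) hk1 hk2 hD1 hD0 j1 (j1 _ (by rw [sub_self, norm_zero]; norm_num))
    (T3_12_d0_2 hD0 hβ hk1 hk2 (by linarith) (by linarith) hR0 hR)
    (T3_12_p0 hD0 hβ hk1 hk2 (by linarith) (by linarith) hR0 hR)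
    y1.1 y1.2 y0.1 y0.2 (by norm_num)
    (ex_um 0.324 (by norm_num) (by norm_num) (by norm_num) (by norm_num)) (ex_um 0.352 (by norm_num) (by norm_num) (by norm_num) (by norm_num)) (ex_lm 0.338 (by norm_num) (by norm_num) (by norm_num) (by norm_num) (by norm_num)) (by norm_num) (by norm_num) (by norm_num) (by norm_num) (by norm_num) (by norm_num) (by norm_num) (by norm_num)
    (by norm_num) (by norm_num) (by norm_num) (by norm_num) (by norm_num) (by norm_num) (by norm_num) (by norm_num) (by norm_num) (by norm_num)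
    (ex_up 0.524 (by norm_num) (by norm_num) (by norm_num) (by norm_num)) (ex_lp 0.502 (by norm_num) (by norm_num) (by norm_num)) (by norm_num) (by norm_num) (by norm_num) (by norm_num) (by norm_num) (by norm_num)
    (by norm_num) (by norm_num) (by norm_num) (by norm_num) (by norm_num) (by norm_num) (by norm_num) (by norm_num) (by norm_num) (by norm_num) (by norm_num)
    (by norm_num) (by norm_num) (by norm_num) (by norm_num)

private theorem yA6 {κ t : ℝ} (h : DomR κ t) (hk1 : 0.56 ≤ κ) (hk2 : κ ≤ 0.6) (ht1 : 1.322 ≤ t + κ) (ht2 : t + κ ≤ 1.352) :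
    0.324 ≤ sy κ t ∧ sy κ t ≤ 0.356 := by
  have hy1 : 0.324 ≤ sy κ t := syR_ge h 0.56 0.6 1.322 0.324 1.38264 1.38265 0.74662 0.79997 hk1 hk2 (by linarith) (by norm_num) (by norm_num)
    (expn_ge (by norm_num) (by norm_num)) (expn_le (by norm_num) (by norm_num) (by norm_num)) (by norm_num)
    (by norm_num) (by norm_num) (by norm_num) (by norm_num) (by norm_num) (by norm_num)
  have hy2 : sy κ t ≤ 0.356 := syR_ang2 h 0.56 0.6 1.352 1.009 0.5342 0.8466 0.356 0.70048 1.4276 hk1 hk2 (by linarith) (by norm_num) (by norm_num) (by norm_num)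
    (cos_le_num (by norm_num)) (sin_le_num (by norm_num) (by norm_num)) (expm_le (by norm_num) (by norm_num) (by norm_num))
    (expn_ge (by norm_num) (by norm_num)) (by norm_num) (by norm_num) (by norm_num) (by norm_num) (by norm_num)
  exact ⟨hy1, hy2⟩

private theorem yB6 {κ t : ℝ} (h : DomR κ t) (hk1 : 0.56 ≤ κ) (hk2 : κ ≤ 0.6) (ht1 : -0.7724 ≤ t + κ) (ht2 : t + κ ≤ -0.74239) :
    (-0.496) ≤ sy κ t ∧ sy κ t ≤ (-0.455) := by
  have hy1 : -0.496 ≤ sy κ t := syL_ge h 0.56 0.6 0.7724 0.496 0.60896 0.60897 0.5004 0.5034 0.53938 hk1 hk2 (by linarith) (by norm_num) (by norm_num) (by norm_num)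
    (expm_ge (by norm_num) (by norm_num) (by norm_num) (by norm_num)) (expm_le (by norm_num) (by norm_num) (by norm_num)) (by norm_num)
    (by norm_num) (by norm_num) (by norm_num) (by norm_num) (by norm_num) (by norm_num)
  have hy2 : sy κ t ≤ -0.455 := syL_le h 0.56 0.6 0.74239 0.455 0.63444 0.63445 0.48111 0.5155 hk1 hk2 (by linarith) (by norm_num) (by norm_num) (by norm_num)
    (expm_ge (by norm_num) (by norm_num) (by norm_num) (by norm_num)) (expm_le (by norm_num) (by norm_num) (by norm_num)) (by norm_num)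
    (by norm_num) (by norm_num) (by norm_num) (by norm_num) (by norm_num) (by norm_num)
  exact ⟨hy1, hy2⟩

theorem pc6 {β r h t κ : ℝ} (hh : h = 2 * Real.pi / (3 : ℕ)) (hβ : 0 < β) (hr : 10 ≤ r) (hκ : κ = β * r)
    (hk1 : 0.56 ≤ κ) (hk2 : κ ≤ 0.6) (hT1 : 1.322 ≤ t + κ) (hT2 : t + κ ≤ 1.352) :
    Xf β r h t 0 ≠ 0 ∧ r * 0.0482 ≤ (Ld β r h t 1 - Ld β r h t 0).im ∧
      ‖(((-1 : ℤ) : ℂ) - 1) * Ld β r h t 0 - ((-1 : ℤ) : ℂ) * Ld β r h t 1‖ ≤ r * 7.97 := by
  obtain ⟨q1, q2, q3⟩ := b3_h hh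
  have hR0 := b3_R0 hβ hr hκ
  have hR := b3_R hβ hr hκ (by linarith)
  have hD1 : DomR κ t := b3_dom (by linarith) (by linarith) (Or.inl (by linarith))
  have hD0 : DomR κ (t - h) := b3_dom (by linarith) (by linarith) (Or.inl (by linarith))
  have y1 := yA6 hD1 hk1 hk2 (by linarith) (by linarith)
  have y0 := yB6 hD0 hk1 hk2 (by linarith) (by linarith)
  have j1 := T3_12_d1_2 hD1 hβ hk1 hk2 (by linarith) (by linarith) hR0 hR
  exact b3_piece 0.56 0.6 0.324 0.356 0.34 0.71177 0.72326 0.70048 0.434 1.8119 1.8887 0.03 0.05 0.05 1.7544 0.5657 0 0 (-0.496) (-0.455) (-0.475) 1.60801 1.64214 0.9853 0.8529 0.05 0.215 0.185 5.2761 5.6291 0.139 0.1606 0.0482 7.97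
    hβ hr hκ (by norm_num) hk1 hk2 hD1 hD0 j1 (j1 _ (by rw [sub_self, norm_zero]; norm_num))
    (T3_12_d0_2 hD0 hβ hk1 hk2 (by linarith) (by linarith) hR0 hR)
    (T3_12_p0 hD0 hβ hk1 hk2 (by linarith) (by linarith) hR0 hR)
    y1.1 y1.2 y0.1 y0.2 (by norm_num)
    (ex_um 0.324 (by norm_num) (by norm_num) (by norm_num) (by norm_num)) (ex_um 0.356 (by norm_num) (by norm_num) (by norm_num) (by norm_num)) (ex_lm 0.34 (by norm_num) (by norm_num) (by norm_num) (by norm_num) (by norm_num)) (by norm_num) (by norm_num) (by norm_num) (by norm_num) (by norm_num) (by norm_num) (by norm_num) (by norm_num)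
    (by norm_num) (by norm_num) (by norm_num) (by norm_num) (by norm_num) (by norm_num) (by norm_num) (by norm_num) (by norm_num) (by norm_num)
    (ex_up 0.496 (by norm_num) (by norm_num) (by norm_num) (by norm_num)) (ex_lp 0.475 (by norm_num) (by norm_num) (by norm_num)) (by norm_num) (by norm_num) (by norm_num) (by norm_num) (by norm_num) (by norm_num)
    (by norm_num) (by norm_num) (by norm_num) (by norm_num) (by norm_num) (by norm_num) (by norm_num) (by norm_num) (by norm_num) (by norm_num) (by norm_num)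
    (by norm_num) (by norm_num) (by norm_num) (by norm_num)

private theorem yA7 {κ t : ℝ} (h : DomR κ t) (hk1 : 0.56 ≤ κ) (hk2 : κ ≤ 0.6) (ht1 : 1.352 ≤ t + κ) (ht2 : t + κ ≤ 1.382) :
    0.324 ≤ sy κ t ∧ sy κ t ≤ 0.359 := by
  have hy1 : 0.324 ≤ sy κ t := syR_ge h 0.56 0.6 1.352 0.324 1.38264 1.38265 0.74662 0.79997 hk1 hk2 (by linarith) (by norm_num) (by norm_num)
    (expn_ge (by norm_num) (by norm_num)) (expn_le (by norm_num) (by norm_num) (by norm_num)) (by norm_num)
    (by norm_num) (by norm_num) (by norm_num) (by norm_num) (by norm_num) (by norm_num)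
  have hy2 : sy κ t ≤ 0.359 := syR_ang2 h 0.56 0.6 1.382 1.028 0.5182 0.8566 0.359 0.69838 1.43189 hk1 hk2 (by linarith) (by norm_num) (by norm_num) (by norm_num)
    (cos_le_num (by norm_num)) (sin_le_num (by norm_num) (by norm_num)) (expm_le (by norm_num) (by norm_num) (by norm_num))
    (expn_ge (by norm_num) (by norm_num)) (by norm_num) (by norm_num) (by norm_num) (by norm_num) (by norm_num)
  exact ⟨hy1, hy2⟩

private theorem yB7 {κ t : ℝ} (h : DomR κ t) (hk1 : 0.56 ≤ κ) (hk2 : κ ≤ 0.6) (ht1 : -0.7424 ≤ t + κ) (ht2 : t + κ ≤ -0.71239) :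
    (-0.47) ≤ sy κ t ∧ sy κ t ≤ (-0.43) := by
  have hy1 : -0.47 ≤ sy κ t := syL_ge h 0.56 0.6 0.7424 0.47 0.625 0.62501 0.4808 0.48958 0.52457 hk1 hk2 (by linarith) (by norm_num) (by norm_num) (by norm_num)
    (expm_ge (by norm_num) (by norm_num) (by norm_num) (by norm_num)) (expm_le (by norm_num) (by norm_num) (by norm_num)) (by norm_num)
    (by norm_num) (by norm_num) (by norm_num) (by norm_num) (by norm_num) (by norm_num)
  have hy2 : sy κ t ≤ -0.43 := syL_le h 0.56 0.6 0.71239 0.43 0.6505 0.65051 0.46619 0.4995 hk1 hk2 (by linarith) (by norm_num) (by norm_num) (by norm_num)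
    (expm_ge (by norm_num) (by norm_num) (by norm_num) (by norm_num)) (expm_le (by norm_num) (by norm_num) (by norm_num)) (by norm_num)
    (by norm_num) (by norm_num) (by norm_num) (by norm_num) (by norm_num) (by norm_num)
  exact ⟨hy1, hy2⟩

theorem pc7 {β r h t κ : ℝ} (hh : h = 2 * Real.pi / (3 : ℕ)) (hβ : 0 < β) (hr : 10 ≤ r) (hκ : κ = β * r)
    (hk1 : 0.56 ≤ κ) (hk2 : κ ≤ 0.6) (hT1 : 1.352 ≤ t + κ) (hT2 : t + κ ≤ 1.382) :
    Xf β r h t 0 ≠ 0 ∧ r * 0.0482 ≤ (Ld β r h t 1 - Ld β r h t 0).im ∧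
      ‖(((-1 : ℤ) : ℂ) - 1) * Ld β r h t 0 - ((-1 : ℤ) : ℂ) * Ld β r h t 1‖ ≤ r * 7.97 := by
  obtain ⟨q1, q2, q3⟩ := b3_h hh
  have hR0 := b3_R0 hβ hr hκ
  have hR := b3_R hβ hr hκ (by linarith)
  have hD1 : DomR κ t := b3_dom (by linarith) (by linarith) (Or.inl (by linarith))
  have hD0 : DomR κ (t - h) := b3_dom (by linarith) (by linarith) (Or.inl (by linarith))
  have y1 := yA7 hD1 hk1 hk2 (by linarith) (by linarith)
  have y0 := yB7 hD0 hk1 hk2 (by linarith) (by linarith)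
  have j1 := T3_12_d1_2 hD1 hβ hk1 hk2 (by linarith) (by linarith) hR0 hR
  exact b3_piece 0.56 0.6 0.324 0.359 0.342 0.71034 0.72326 0.69838 0.434 1.8119 1.8936 0.03 0.05 0.05 1.7544 0.5657 0 0 (-0.47) (-0.43) (-0.45) 1.56831 1.6 0.96 0.8621 0.05 0.215 0.185 5.2761 5.4552 0.1612 0.1796 0.0482 7.97
    hβ hr hκ (by norm_num) hk1 hk2 hD1 hD0 j1 (j1 _ (by rw [sub_self, norm_zero]; norm_num))
    (T3_12_d0_2 hD0 hβ hk1 hk2 (by linarith) (by linarith) hR0 hR)
    (T3_12_p0 hD0 hβ hk1 hk2 (by linarith) (by linarith) hR0 hR)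
    y1.1 y1.2 y0.1 y0.2 (by norm_num)
    (ex_um 0.324 (by norm_num) (by norm_num) (by norm_num) (by norm_num)) (ex_um 0.359 (by norm_num) (by norm_num) (by norm_num) (by norm_num)) (ex_lm 0.342 (by norm_num) (by norm_num) (by norm_num) (by norm_num) (by norm_num)) (by norm_num) (by norm_num) (by norm_num) (by norm_num) (by norm_num) (by norm_num) (by norm_num) (by norm_num)
    (by norm_num) (by norm_num) (by norm_num) (by norm_num) (by norm_num) (by norm_num) (by norm_num) (by norm_num) (by norm_num) (by norm_num)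
    (ex_up 0.47 (by norm_num) (by norm_num) (by norm_num) (by norm_num)) (ex_lp 0.45 (by norm_num) (by norm_num) (by norm_num)) (by norm_num) (by norm_num) (by norm_num) (by norm_num) (by norm_num) (by norm_num)
    (by norm_num) (by norm_num) (by norm_num) (by norm_num) (by norm_num) (by norm_num) (by norm_num) (by norm_num) (by norm_num) (by norm_num) (by norm_num)
    (by norm_num) (by norm_num) (by norm_num) (by norm_num)

theorem innS {β r h t κ : ℝ} (hh : h = 2 * Real.pi / (3 : ℕ)) (hβ : 0 < β) (hr : 10 ≤ r) (hκ : κ = β * r)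
    (hk1 : 0.56 ≤ κ) (hk2 : κ ≤ 0.6) (hT1 : 1.162 ≤ t + κ) (hT2 : t + κ ≤ 1.382) :
    Xf β r h t 0 ≠ 0 ∧ r * 0.0482 ≤ (Ld β r h t 1 - Ld β r h t 0).im ∧
      ‖(((-1 : ℤ) : ℂ) - 1) * Ld β r h t 0 - ((-1 : ℤ) : ℂ) * Ld β r h t 1‖ ≤ r * 7.97 := by
  rcases le_total (t + κ) 1.192 with f0 | g0
  · exact pc0 hh hβ hr hκ hk1 hk2 hT1 f0
  rcases le_total (t + κ) 1.215 with f1 | g1
  · exact pc1 hh hβ hr hκ hk1 hk2 g0 f1
  rcases le_total (t + κ) 1.239 with f2 | g2
  · exact pc2 hh hβ hr hκ hk1 hk2 g1 f2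
  rcases le_total (t + κ) 1.262 with f3 | g3
  · exact pc3 hh hβ hr hκ hk1 hk2 g2 f3
  rcases le_total (t + κ) 1.292 with f4 | g4
  · exact pc4 hh hβ hr hκ hk1 hk2 g3 f4
  rcases le_total (t + κ) 1.322 with f5 | g5
  · exact pc5 hh hβ hr hκ hk1 hk2 g4 f5
  rcases le_total (t + κ) 1.352 with f6 | g6
  · exact pc6 hh hβ hr hκ hk1 hk2 g5 f6
  exact pc7 hh hβ hr hκ hk1 hk2 g6 hT2

theorem circ {p : ℤ} (hp : IsCoprime (3 : ℤ) p) {β r : ℝ} (hβ : 0 < β) (hr : 10 ≤ r) (hk1 : 0.56 ≤ β * r)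
    (hk2 : β * r ≤ 0.6) : Circ (2 * Real.pi * p / (3 : ℕ) + β) r := by
  obtain ⟨κ, hκ⟩ : ∃ κ, κ = β * r := ⟨_, rfl⟩
  rw [← hκ] at hk1 hk2
  refine circ3 hp hr (h := 2 * Real.pi / (3 : ℕ)) (κ := κ) rfl 1.162 1.382 1.0095 0.0482 0.00444 0.00444 7.97 (by norm_num) (by norm_num) (by norm_num)
    (by norm_num) (by norm_num) ?_ ?_ ?_ ?_ ?_ (by norm_num) (by norm_num)
  · intro t h1 h2
    exact (innS rfl hβ hr hκ hk1 hk2 h1 h2).1
  · intro t h1 h2
    exact (innE rfl hβ hr hκ hk1 hk2 h1 h2).1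
  · intro t h1 h2
    exact (innE rfl hβ hr hκ hk1 hk2 h1 h2).2
  · intro t h1 h2
    exact (innS rfl hβ hr hκ hk1 hk2 h1 h2).2
  · intro t h1 h2 h3
    rcases h3 with h3 | h3
    · rcases le_total (t + κ) 1.154 with g | g
      · exact left rfl hβ hr hκ hk1 hk2 h1 g
      · exact middle rfl hβ hr hκ hk1 hk2 g h3
    · exact right0 rfl hβ hr hκ hk1 hk2 h3 h2

end B3_12

end Sok
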