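import Pool.Agent.Lib.MP_816dec_an.R1b3D
import Pool.Agent.Lib.MP_816dec_an.R1b3J13

/-!
MP_816dec_an (A3, row R1, b = 3): the cell `0.6 ≤ κ ≤ 0.65`.
-/

set_option autoImplicit false
set_option maxHeartbeats 4000000
set_option linter.unusedVariables false

open Complex Set

namespace Sok

namespace B3_13

private theorem yL {κ t : ℝ} (h : DomR κ t) (hk1 : 0.6 ≤ κ) (hk2 : κ ≤ 0.65) (ht1 : 0 ≤ t + κ) (ht2 : t + κ ≤ 1.144) :
    0 ≤ sy κ t ∧ sy κ t ≤ 0.342 := by
  have hy1 : 0 ≤ sy κ t := sy_nonneg h (by linarith)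
  have hy2 : sy κ t ≤ 0.342 := syR_ang2 h 0.6 0.65 1.144 0.833 0.6732 0.7401 0.342 0.71035 1.40776 hk1 hk2 (by linarith) (by norm_num) (by norm_num) (by norm_num)
    (cos_le_num (by norm_num)) (sin_le_num (by norm_num) (by norm_num)) (expm_le (by norm_num) (by norm_num) (by norm_num))
    (expn_ge (by norm_num) (by norm_num)) (by norm_num) (by norm_num) (by norm_num) (by norm_num) (by norm_num)
  exact ⟨hy1, hy2⟩

theorem left {β r h t κ : ℝ} (hh : h = 2 * Real.pi / (3 : ℕ)) (hβ : 0 < β) (hr : 10 ≤ r) (hκ : κ = β * r)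
    (hk1 : 0.6 ≤ κ) (hk2 : κ ≤ 0.65) (hT1 : 0 ≤ t + κ) (hT2 : t + κ ≤ 1.144) :
    ‖Xf β r h t (-1)‖ < |‖Xf β r h t 1‖ - ‖Xf β r h t 0‖| := by
  obtain ⟨q1, q2, q3⟩ := b3_h hh
  have hR0 := b3_R0 hβ hr hκ
  have hR := b3_R hβ hr hκ (by linarith)
  have hD1 : DomR κ t := b3_dom (by linarith) (by linarith) (Or.inl (by linarith))
  have hy := yL hD1 hk1 hk2 (by linarith) (by linarith)
  have hY : 0.8265 * Real.exp (r * 0.64252) ≤ ‖Xf β r h t 1‖ :=
    b3_lo hβ hr hκ (k := 1) (t' := t) (by push_cast; ring) hD1 0.03 1.8972 0.8265 0.64252 (by norm_num)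
      (T3_13_p1 hD1 hβ hk1 hk2 (by linarith) (by linarith) hR0 hR)
      (v5_Dup hD1 0.65 0 0.342 1 0.71035 1.8972 hk2 hy.1 hy.2 (ex_up 0 (by norm_num) (by norm_num) (by norm_num) (by norm_num)) (ex_um 0.342 (by norm_num) (by norm_num) (by norm_num) (by norm_num)) (by norm_num) (by norm_num) (by norm_num)) (by norm_num) (by norm_num)
      (b3_Vlo hD1 0.6 0.65 0 1.144 0.49 (-0.71334) 0.838 0.66894 0.40207 0.64252 hk1 hk2 (by linarith) (by linarith) (by norm_num) (ex_lm 0.71334 (by norm_num) (by norm_num) (by norm_num) (by norm_num) (by norm_num)) (by norm_num) (by norm_num) (by norm_num) (by norm_num) (by norm_num) (by norm_num) (by norm_num) (by norm_num) (ex_um 0.40207 (by norm_num) (by norm_num) (by norm_num) (by norm_num)) (by norm_num))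
  have h0 : ‖Xf β r h t 0‖ ≤ 0.872 * ‖Xf β r h t 1‖ :=
    b3_cmp 0.5583 0.05861 0.003304 0.5719 0.863559 0.008397 0.872 hr (b3_HU0 1.01 0.6 0.65 (-2.0944) (-0.95039) 1.5438 1.83309 1.92804 0.54554 0.51867 1.83307 1.2784 0.10172 0.98789 1.9676 0.02041 0.07062 0.000001 2.1003 0.58391 hβ hr hκ (by norm_num) hk1 hk2 (by norm_num) (by linarith) (by linarith) (by norm_num) (by norm_num) (ex_up 0.606 (by norm_num) (by norm_num) (by norm_num) (by norm_num)) (ex_up 0.6565 (by norm_num) (by norm_num) (by norm_num) (by norm_num)) (ex_um 0.606 (by norm_num) (by norm_num) (by norm_num) (by norm_num)) (ex_um 0.6565 (by norm_num) (by norm_num) (by norm_num) (by norm_num)) (by norm_num) (by norm_num) (ex_lp 0.606 (by norm_num) (by norm_num) (by norm_num)) (by norm_num) (by norm_num) (by norm_num) (by norm_num) (by norm_num) (by norm_num) (by norm_num) (by norm_num) (by norm_num) (by norm_num) (by norm_num) (by norm_num) (by norm_num) (by norm_num) (v5_hump 5.5454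 15.384 3.9223 0.0000003148 0.000001 hβ hr hκ hk1 hk2 (by norm_num) (tb := (-0.95039)) (by linarith) (by norm_num) (by norm_num) (by norm_num) (by norm_num) (by norm_num) (by norm_num) (by norm_num) (ex_un 14 0.99 (by norm_num) (by norm_num) (by norm_num) (by norm_num)) (by norm_num)) (by norm_num) (by norm_num)) hY (by norm_num) (by norm_num) (by norm_num) (by norm_num) (by norm_num) (ex_un 0 0.5861 (by norm_num) (by norm_num) (by norm_num) (by norm_num)) (by norm_num) (by norm_num) (by norm_num) (ex_un 5 0.719 (by norm_num) (by norm_num) (by norm_num) (by norm_num)) (by norm_num) (by norm_num)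
  have h2 : ‖Xf β r h t (-1)‖ ≤ 0.0562 * ‖Xf β r h t 1‖ := by
    rcases le_total ((t + h) + κ) 2.12 with g0 | g0
    · exact b3_cmp 0.004743 0.53516 0.001622 0.64252 0.024607 0.000266 0.0562 hr ((b3_Xm hh).trans_le (b3_HF 0.6 0.6 0.65 2.09439 2.12 1.36399 0.69768 0.67706 1.43333 1.47699 0.67705 2.8231 0.10172 3.01509 0.0507 0.03151 0.73 0.000001 4.2878 0.1355 0.10736 hβ hr hκ (by norm_num) hk1 hk2 (by norm_num) (by linarith) (by linarith) (by norm_num) (ex_um 0.36 (by norm_num) (by norm_num) (by norm_num) (by norm_num)) (ex_um 0.39 (by norm_num) (by norm_num) (by norm_num) (by norm_num)) (ex_up 0.36 (by norm_num) (by norm_num) (by norm_num) (by norm_num)) (ex_up 0.39 (by norm_num) (by norm_num) (by norm_num) (by norm_num)) (by norm_num) (by norm_num) (ex_lm 0.39 (by norm_num) (by norm_num) (by norm_num) (by norm_num) (by norm_num)) (by norm_num) (by norm_num) (by norm_num) (by norm_num) (by norm_num) (by norm_num) (by norm_num) (by norm_num) (by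 norm_num) (by norm_num) (by norm_num) (by norm_num) (ex_un 0 0.3151 (by norm_num) (by norm_num) (by norm_num) (by norm_num)) (v5_hump 2.4751 15.384 3.9223 0.0000003148 0.000001 hβ hr hκ hk1 hk2 (by norm_num) (tb := 2.12) (by linarith) (by norm_num) (by norm_num) (by norm_num) (by norm_num) (by norm_num) (by norm_num) (by norm_num) (ex_un 14 0.99 (by norm_num) (by norm_num) (by norm_num) (by norm_num)) (by norm_num)) (by norm_num) (by norm_num) (by norm_num))) hY (by norm_num) (by norm_num) (by norm_num) (by norm_num) (by norm_num) (ex_un 5 0.3516 (by norm_num) (by norm_num) (by norm_num) (by norm_num)) (by norm_num) (by norm_num) (by norm_num) (ex_un 6 0.4252 (by norm_num) (by norm_num) (by norm_num) (by norm_num)) (by norm_num) (by norm_num)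
    exact b3_cmp 1 0 0.01199 0.44252 0 0.056115 0.0562 hr (b3_w (b3_UD 0.6 0.65 2.12 3.2384 0.15 0.51504 0.15 2.0166 3.8681 0.2 hh hβ hr hκ (by norm_num) hk1 hk2 (by linarith) (by linarith) (by norm_num) (by norm_num) (by norm_num) (by norm_num) (by norm_num) (by norm_num) (by norm_num) (by norm_num) (by norm_num) (by norm_num) (by norm_num) (by norm_num) (by norm_num))) hY (by norm_num) (by norm_num) (by norm_num) (by norm_num) (by norm_num) (by norm_num) (by norm_num) (by norm_num) (by norm_num) (ex_un 4 0.4252 (by norm_num) (by norm_num) (by norm_num) (by norm_num)) (by norm_num) (by norm_num)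
  exact b3_out1 0.872 0.0562 hY (by norm_num) h0 h2 (by norm_num)

private theorem yM1 {κ t : ℝ} (h : DomR κ t) (hk1 : 0.6 ≤ κ) (hk2 : κ ≤ 0.65) (ht1 : 0 ≤ t + κ) (ht2 : t + κ ≤ 1.152) :
    0 ≤ sy κ t ∧ sy κ t ≤ 0.343 := by
  have hy1 : 0 ≤ sy κ t := sy_nonneg h (by linarith)
  have hy2 : sy κ t ≤ 0.343 := syR_ang2 h 0.6 0.65 1.152 0.838 0.6695 0.7434 0.343 0.70964 1.40916 hk1 hk2 (by linarith) (by norm_num) (by norm_num) (by norm_num)
    (cos_le_num (by norm_num)) (sin_le_num (by norm_num) (by norm_num)) (expm_le (by norm_num) (by norm_num) (by norm_num))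
    (expn_ge (by norm_num) (by norm_num)) (by norm_num) (by norm_num) (by norm_num) (by norm_num) (by norm_num)
  exact ⟨hy1, hy2⟩

private theorem yM0 {κ t : ℝ} (h : DomR κ t) (hk1 : 0.6 ≤ κ) (hk2 : κ ≤ 0.65) (ht1 : -0.9504 ≤ t + κ) (ht2 : t + κ ≤ -0.94239) :
    (-0.663) ≤ sy κ t ∧ sy κ t ≤ (-0.629) := by
  have hy1 : -0.663 ≤ sy κ t := syL_ge h 0.6 0.65 0.9504 0.663 0.5153 0.51531 0.5438 0.5256 0.56942 hk1 hk2 (by linarith) (by norm_num) (by norm_num) (by norm_num)
    (expm_ge (by norm_num) (by norm_num) (by norm_num) (by norm_num)) (expm_le (by norm_num) (by norm_num) (by norm_num)) (by norm_num)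
    (by norm_num) (by norm_num) (by norm_num) (by norm_num) (by norm_num) (by norm_num)
  have hy2 : sy κ t ≤ -0.629 := syL_le h 0.6 0.65 0.94239 0.629 0.53312 0.53313 0.51589 0.5589 hk1 hk2 (by linarith) (by norm_num) (by norm_num) (by norm_num)
    (expm_ge (by norm_num) (by norm_num) (by norm_num) (by norm_num)) (expm_le (by norm_num) (by norm_num) (by norm_num)) (by norm_num)
    (by norm_num) (by norm_num) (by norm_num) (by norm_num) (by norm_num) (by norm_num)
  exact ⟨hy1, hy2⟩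

theorem middle {β r h t κ : ℝ} (hh : h = 2 * Real.pi / (3 : ℕ)) (hβ : 0 < β) (hr : 10 ≤ r) (hκ : κ = β * r)
    (hk1 : 0.6 ≤ κ) (hk2 : κ ≤ 0.65) (hT1 : 1.144 ≤ t + κ) (hT2 : t + κ ≤ 1.152) :
    ‖Xf β r h t (-1)‖ < |‖Xf β r h t 1‖ - ‖Xf β r h t 0‖| := by
  obtain ⟨q1, q2, q3⟩ := b3_h hh
  have hR0 := b3_R0 hβ hr hκ
  have hR := b3_R hβ hr hκ (by linarith)
  have hD1 : DomR κ t := b3_dom (by linarith) (by linarith) (Or.inl (by linarith))
  have hD0 : DomR κ (t - h) := b3_dom (by linarith) (by linarith) (Or.inl (by linarith))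
  have hy := yM1 hD1 hk1 hk2 (by linarith) (by linarith)
  have hy0 := yM0 hD0 hk1 hk2 (by linarith) (by linarith)
  have hY : 0.8263 * Real.exp (r * 0.63823) ≤ ‖Xf β r h t 1‖ :=
    b3_lo hβ hr hκ (k := 1) (t' := t) (by push_cast; ring) hD1 0.03 1.8988 0.8263 0.63823 (by norm_num)
      (T3_13_p1 hD1 hβ hk1 hk2 (by linarith) (by linarith) hR0 hR)
      (v5_Dup hD1 0.65 0 0.343 1 0.70964 1.8988 hk2 hy.1 hy.2 (ex_up 0 (by norm_num) (by norm_num) (by norm_num) (by norm_num)) (ex_um 0.343 (by norm_num) (by norm_num) (by norm_num) (by norm_num)) (by norm_num) (by norm_num) (by norm_num)) (by norm_num) (by norm_num)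
      (b3_Vlo hD1 0.6 0.65 0 1.152 0.48 (-0.73396) 0.84 0.66745 0.4043 0.63823 hk1 hk2 (by linarith) (by linarith) (by norm_num) (ex_lm 0.73396 (by norm_num) (by norm_num) (by norm_num) (by norm_num) (by norm_num)) (by norm_num) (by norm_num) (by norm_num) (by norm_num) (by norm_num) (by norm_num) (by norm_num) (by norm_num) (ex_um 0.4043 (by norm_num) (by norm_num) (by norm_num) (by norm_num)) (by norm_num))
  have hU : ‖Xf β r h t 0‖ ≤ 1.1828 * Real.exp (r * 0.59065) :=
    b3_up hβ hr hκ (k := 0) (t' := t - h) (by push_cast; ring) hD0 0.185 1.0078 1.1828 0.59065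
      (T3_13_p0m hD0 hβ hk1 hk2 (by linarith) (by linarith) hR0 hR) (v5_Dlo hD0 0.6 (-0.663) (-0.629) (-0.646) 1.90788 1.0078 (by norm_num) hk1 hy0.1 hy0.2 (ex_lp 0.646 (by norm_num) (by norm_num) (by norm_num)) (by norm_num) (by norm_num) (by norm_num) (by norm_num)) (by norm_num) (by norm_num)
      (b3_VH hD0 0.98 0.6 0.65 1.51419 1.80039 1.8908 0.55544 0.52888 (-0.94239) 0.59065 (by norm_num) hk1 hk2 (by norm_num) (ex_up 0.588 (by norm_num) (by norm_num) (by norm_num) (by norm_num)) (ex_up 0.637 (by norm_num) (by norm_num) (by norm_num) (by norm_num)) (ex_um 0.588 (by norm_num) (by norm_num) (by norm_num) (by norm_num)) (ex_um 0.637 (by norm_num) (by norm_num) (by norm_num) (by norm_num)) (by norm_num) (by norm_num) (by norm_num) (by linarith) (by norm_num))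
  have h0 : ‖Xf β r h t 0‖ ≤ 0.8908 * ‖Xf β r h t 1‖ :=
    b3_cmp 1 0 0.6223 0.04758 0 0.890786 0.8908 hr (b3_w hU) hY (by norm_num) (by norm_num) (by norm_num) (by norm_num) (by norm_num) (by norm_num) (by norm_num) (by norm_num) (by norm_num) (ex_un 0 0.4758 (by norm_num) (by norm_num) (by norm_num) (by norm_num)) (by norm_num) (by norm_num)
  have h2 : ‖Xf β r h t (-1)‖ ≤ 0.0018 * ‖Xf β r h t 1‖ := by
    exact b3_cmp 1 0 0.002824 0.58823 0 0.001751 0.0018 hr ((b3_Xm hh).trans_le (b3_U1 0.6 0.65 3.23839 3.2464 1.01759 0.10172 0.98789 0.8507 0.00003 0.5533 0.000001 0.5121 hβ hr hκ (by norm_num) hk1 hk2 (by linarith) (by linarith) (by norm_num) (by norm_num) (by norm_num) (by norm_num) (by norm_num) (by norm_num) (by norm_num) (by norm_num) (by norm_num) (by norm_num) (by norm_num) (by norm_num) (by norm_num) (ex_un 8 0.507 (by norm_num) (by norm_num) (by norm_num) (by norm_num)) (v5_hump 1.3487 15.384 3.9223 0.0000003148 0.000001 hβ hr hκ hk1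 hk2 (by norm_num) (tb := 3.2464) (by linarith) (by norm_num) (by norm_num) (by norm_num) (by norm_num) (by norm_num) (by norm_num) (by norm_num) (ex_un 14 0.99 (by norm_num) (by norm_num) (by norm_num) (by norm_num)) (by norm_num)) (by norm_num))) hY (by norm_num) (by norm_num) (by norm_num) (by norm_num) (by norm_num) (by norm_num) (by norm_num) (by norm_num) (by norm_num) (ex_un 5 0.8823 (by norm_num) (by norm_num) (by norm_num) (by norm_num)) (by norm_num) (by norm_num)
  exact b3_out1 0.8908 0.0018 hY (by norm_num) h0 h2 (by norm_num)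

private theorem yR0 {κ t : ℝ} (h : DomR κ t) (hk1 : 0.6 ≤ κ) (hk2 : κ ≤ 0.65) (ht1 : -0.7124 ≤ t + κ) (ht2 : t + κ ≤ 0.0001) :
    (-0.446) ≤ sy κ t ∧ sy κ t ≤ 0.005 := by
  have hy1 : -0.446 ≤ sy κ t := syL_ge h 0.6 0.65 0.7124 0.446 0.64018 0.64019 0.4362 0.43926 0.47588 hk1 hk2 (by linarith) (by norm_num) (by norm_num) (by norm_num)
    (expm_ge (by norm_num) (by norm_num) (by norm_num) (by norm_num)) (expm_le (by norm_num) (by norm_num) (by norm_num)) (by norm_num)
    (by norm_num) (by norm_num) (by norm_num) (by norm_num) (by norm_num) (by norm_num)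
  have hy2 : sy κ t ≤ 0.005 := syR_le h 0.6 0.65 0.0001 0.005 1.00501 0.0075 0.00773 0.00838 hk1 hk2 (by linarith) (by norm_num) (by norm_num)
    (expn_ge (by norm_num) (by norm_num)) (by norm_num) (by norm_num) (Or.inr ((mul_le_mul_of_nonneg_left (expn_le (E := 1.00502) (by norm_num) (by norm_num) (by norm_num)) (by norm_num)).trans (by norm_num))) (by norm_num) (by norm_num) (by norm_num)
  exact ⟨hy1, hy2⟩

theorem right0 {β r h t κ : ℝ} (hh : h = 2 * Real.pi / (3 : ℕ)) (hβ : 0 < β) (hr : 10 ≤ r) (hκ : κ = β * r)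
    (hk1 : 0.6 ≤ κ) (hk2 : κ ≤ 0.65) (hT1 : 1.382 ≤ t + κ) (hT2 : t + κ ≤ h) :
    ‖Xf β r h t (-1)‖ < |‖Xf β r h t 1‖ - ‖Xf β r h t 0‖| := by
  obtain ⟨q1, q2, q3⟩ := b3_h hh
  have hR0 := b3_R0 hβ hr hκ
  have hR := b3_R hβ hr hκ (by linarith)
  have hD0 : DomR κ (t - h) := b3_dom (by linarith) (by linarith) (Or.inl (by linarith))
  have hy := yR0 hD0 hk1 hk2 (by linarith) (by linarith)
  have hY : 0.8415 * Real.exp (r * 0.76688) ≤ ‖Xf β r h t 0‖ :=
    b3_lo hβ hr hκ (k := 0) (t' := t - h) (by push_cast; ring) hD0 0.08 1.4284 0.8415 0.76688 (by norm_num)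
      (T3_13_p0R hD0 hβ hk1 hk2 (by linarith) (by linarith) hR0 hR)
      (v5_Dup hD0 0.65 (-0.446) 0.005 1.56206 0.99502 1.4284 hk2 hy.1 hy.2 (ex_up 0.446 (by norm_num) (by norm_num) (by norm_num) (by norm_num)) (ex_um 0.005 (by norm_num) (by norm_num) (by norm_num) (by norm_num)) (by norm_num) (by norm_num) (by norm_num)) (by norm_num) (by norm_num)
      (b3_Vlo hD0 0.6 0.65 (-0.7124) 0.0001 1.37 0.31482 0.4904 0.88214 0.12541 0.76688 hk1 hk2 (by linarith) (by linarith) (by norm_num) (ex_lp 0.31482 (by norm_num) (by norm_num) (by norm_num)) (by norm_num) (by norm_num) (by norm_num) (by norm_num) (by norm_num) (by norm_num) (by norm_num) (by norm_num) (ex_um 0.12541 (by norm_num) (by norm_num) (by norm_num) (by norm_num)) (by norm_num))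
  have h1 : ‖Xf β r h t 1‖ ≤ 0.2799 * ‖Xf β r h t 0‖ := by
    rcases le_total (t + κ) 1.87 with g0 | g0
    · exact b3_cmp 0.09843 0.23188 0.0004695 0.76688 0.279734 0.000082 0.2799 hr (b3_X1.trans_le (b3_HF 0.52 0.6 0.65 1.382 1.87 1.25364 0.73199 0.7132 1.36616 1.40215 0.71319 2.2632 0.10172 2.3027 0.3007 0.09882 0.3792 0.000001 2.3915 0.1459 0.535 hβ hr hκ (by norm_num) hk1 hk2 (by norm_num) (by linarith) (by linarith) (by norm_num) (ex_um 0.312 (by norm_num) (by norm_num) (by norm_num) (by norm_num)) (ex_um 0.338 (by norm_num) (by norm_num) (by norm_num) (by norm_num)) (ex_up 0.312 (by norm_num) (by norm_num) (by norm_num) (by norm_num)) (ex_up 0.338 (by norm_num) (by norm_num) (by norm_num) (by norm_num)) (by norm_num) (by norm_num) (ex_lm 0.338 (by norm_num) (by norm_num) (by norm_num) (by norm_num) (by norm_num)) (by norm_num) (by norm_num) (by norm_num) (by norm_num) (by norm_num) (by norm_num) (by norm_num) (by norm_num) (by norm_num)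 (by norm_num) (by norm_num) (by norm_num) (ex_un 0 0.9882 (by norm_num) (by norm_num) (by norm_num) (by norm_num)) (v5_hump 2.7251 15.384 3.9223 0.0000003148 0.000001 hβ hr hκ hk1 hk2 (by norm_num) (tb := 1.87) (by linarith) (by norm_num) (by norm_num) (by norm_num) (by norm_num) (by norm_num) (by norm_num) (by norm_num) (ex_un 14 0.99 (by norm_num) (by norm_num) (by norm_num) (by norm_num)) (by norm_num)) (by norm_num) (by norm_num) (by norm_num))) hY (by norm_num) (by norm_num) (by norm_num) (by norm_num) (by norm_num) (ex_un 2 0.3188 (by norm_num) (by norm_num) (by norm_num) (by norm_num)) (by norm_num) (by norm_num) (by norm_num) (ex_un 7 0.6688 (by norm_num) (by norm_num) (by norm_num) (by norm_num)) (by norm_num) (by norm_num)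
    exact b3_cmp 1 0 0.04206 0.31688 0 0.205672 0.2799 hr (b3_w (b3_UD1 0.6 0.65 1.87 2.0944 0.4 0.51504 0.4 2.1453 4.1149 0.45 hβ hr hκ (by norm_num) hk1 hk2 (by linarith) (by linarith) (by norm_num) (by norm_num) (by norm_num) (by norm_num) (by norm_num) (by norm_num) (by norm_num) (by norm_num) (by norm_num) (by norm_num) (by norm_num) (by norm_num) (by norm_num))) hY (by norm_num) (by norm_num) (by norm_num) (by norm_num) (by norm_num) (by norm_num) (by norm_num) (by norm_num) (by norm_num) (ex_un 3 0.1688 (by norm_num) (by norm_num) (by norm_num) (by norm_num)) (by norm_num) (by norm_num)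
  have h2 : ‖Xf β r h t (-1)‖ ≤ 0.0005 * ‖Xf β r h t 0‖ := by
    exact b3_cmp 1 0 0.0007703 0.71688 0 0.000455 0.0005 hr ((b3_Xm hh).trans_le (b3_U1 0.6 0.65 3.47639 4.1888 1.25559 0.10172 0.98789 0.9016 0.00002 0.4473 0.003217 0.4964 hβ hr hκ (by norm_num) hk1 hk2 (by linarith) (by linarith) (by norm_num) (by norm_num) (by norm_num) (by norm_num) (by norm_num) (by norm_num) (by norm_num) (by norm_num) (by norm_num) (by norm_num) (by norm_num) (by norm_num) (by norm_num) (ex_un 9 0.016 (by norm_num) (by norm_num) (by norm_num) (by norm_num)) (v5_hump 0.4063 15.384 3.9223 0.00193 0.003217 hβ hr hκ hk1 hk2 (by norm_num) (tb := 4.1888) (by linarith) (by norm_num) (by norm_num) (by norm_num) (by norm_num) (by norm_num) (by norm_num) (by norm_num) (ex_un 6 0.2505 (by norm_num) (by norm_num) (by norm_num) (by norm_num)) (by norm_num)) (by norm_num))) hY (by norm_num) (by norm_num) (by norm_num) (by norm_num) (by norm_num) (by norm_num) (by norm_num)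 (by norm_num) (by norm_num) (ex_un 7 0.1688 (by norm_num) (by norm_num) (by norm_num) (by norm_num)) (by norm_num) (by norm_num)
  exact b3_out0 0.2799 0.0005 hY (by norm_num) h1 h2 (by norm_num)

private theorem yI {κ t : ℝ} (h : DomR κ t) (hk1 : 0.6 ≤ κ) (hk2 : κ ≤ 0.65) (ht1 : -0.9424 ≤ t + κ) (ht2 : t + κ ≤ -0.71239) :
    (-0.655) ≤ sy κ t ∧ sy κ t ≤ (-0.437) := by
  have hy1 : -0.655 ≤ sy κ t := syL_ge h 0.6 0.65 0.9424 0.655 0.51944 0.51945 0.5488 0.52343 0.56707 hk1 hk2 (by linarith) (by norm_num) (by norm_num) (by norm_num)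
    (expm_ge (by norm_num) (by norm_num) (by norm_num) (by norm_num)) (expm_le (by norm_num) (by norm_num) (by norm_num)) (by norm_num)
    (by norm_num) (by norm_num) (by norm_num) (by norm_num) (by norm_num) (by norm_num)
  have hy2 : sy κ t ≤ -0.437 := syL_le h 0.6 0.65 0.71239 0.437 0.64597 0.64598 0.43429 0.47049 hk1 hk2 (by linarith) (by norm_num) (by norm_num) (by norm_num)
    (expm_ge (by norm_num) (by norm_num) (by norm_num) (by norm_num)) (expm_le (by norm_num) (by norm_num) (by norm_num)) (by norm_num)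
    (by norm_num) (by norm_num) (by norm_num) (by norm_num) (by norm_num) (by norm_num)
  exact ⟨hy1, hy2⟩

theorem innE {β r h t κ : ℝ} (hh : h = 2 * Real.pi / (3 : ℕ)) (hβ : 0 < β) (hr : 10 ≤ r) (hκ : κ = β * r)
    (hk1 : 0.6 ≤ κ) (hk2 : κ ≤ 0.65) (hT1 : 1.152 ≤ t + κ) (hT2 : t + κ ≤ 1.382) :
    ‖Xf β r h t (-1)‖ ≤ 0.00406 * ‖Xf β r h t 0‖ ∧ ‖Xf β r h (t + β) (-1)‖ ≤ 0.00406 * ‖Xf β r h t 0‖ := by
  obtain ⟨q1, q2, q3⟩ := b3_h hh
  have hR0 := b3_R0 hβ hr hκ
  have hR := b3_R hβ hr hκ (by linarith)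
  have hD0 : DomR κ (t - h) := b3_dom (by linarith) (by linarith) (Or.inl (by linarith))
  have hy := yI hD0 hk1 hk2 (by linarith) (by linarith)
  have hY : 0.7698 * Real.exp (r * 0.55995) ≤ ‖Xf β r h t 0‖ :=
    b3_lo hβ hr hκ (k := 0) (t' := t - h) (by push_cast; ring) hD0 0.185 1.2559 0.7698 0.55995 (by norm_num)
      (T3_13_p0 hD0 hβ hk1 hk2 (by linarith) (by linarith) hR0 hR)
      (v5_Dup hD0 0.65 (-0.655) (-0.437) 1.92515 1.54806 1.2559 hk2 hy.1 hy.2 (ex_up 0.655 (by norm_num) (by norm_num) (by norm_num) (by norm_num)) (ex_up 0.437 (by norm_num) (by norm_num) (by norm_num) (by norm_num)) (by norm_num) (by norm_num) (by norm_num)) (by norm_num) (by norm_num)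
      (b3_Vlo hD0 0.6 0.65 (-0.9424) (-0.71239) 1.57 0.45108 0.6004 0.8251 0.19226 0.55995 hk1 hk2 (by linarith) (by linarith) (by norm_num) (ex_lp 0.45108 (by norm_num) (by norm_num) (by norm_num)) (by norm_num) (by norm_num) (by norm_num) (by norm_num) (by norm_num) (by norm_num) (by norm_num) (by norm_num) (ex_um 0.19226 (by norm_num) (by norm_num) (by norm_num) (by norm_num)) (by norm_num))
  constructor
  · exact b3_cmp 1 0 0.0061 0.50995 0 0.004052 0.00406 hr ((b3_Xm hh).trans_le (b3_U1 0.6 0.65 3.24639 3.4764 1.02559 0.10172 0.98789 0.8549 0.00003 0.5453 0.000001 0.5113 hβ hr hκ (by norm_num) hk1 hk2 (by linarith) (by linarith) (by norm_num) (by norm_num) (by norm_num) (by norm_num) (by norm_num) (by norm_num) (by norm_num) (by norm_num) (by norm_num) (by norm_num) (by norm_num) (by norm_num) (by norm_num) (ex_un 8 0.549 (by norm_num) (by norm_num) (by norm_num) (by norm_num)) (v5_hump 1.1187 15.384 3.9223 0.0000003148 0.000001 hβ hr hκ hk1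 hk2 (by norm_num) (tb := 3.4764) (by linarith) (by norm_num) (by norm_num) (by norm_num) (by norm_num) (by norm_num) (by norm_num) (by norm_num) (ex_un 14 0.99 (by norm_num) (by norm_num) (by norm_num) (by norm_num)) (by norm_num)) (by norm_num))) hY (by norm_num) (by norm_num) (by norm_num) (by norm_num) (by norm_num) (by norm_num) (by norm_num) (by norm_num) (by norm_num) (ex_un 5 0.0995 (by norm_num) (by norm_num) (by norm_num) (by norm_num)) (by norm_num) (by norm_num)
  · exact b3_cmp 1 0 0.0061 0.50995 0 0.004052 0.00406 hr ((b3_Xm hh).trans_le (b3_U1 0.6 0.65 3.24639 3.5414 1.02559 0.10172 0.98789 0.8549 0.00003 0.5453 0.000001 0.5113 hβ hr hκ (by norm_num) hk1 hk2 (by linarith) (by linarith) (by norm_num) (by norm_num) (by norm_num) (by norm_num) (by norm_num) (by norm_num) (by norm_num) (by norm_num) (by norm_num) (by norm_num) (by norm_num) (by norm_num) (by norm_num) (ex_un 8 0.549 (by norm_num) (by norm_num) (by norm_num) (by norm_num))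 (v5_hump 1.0537 15.384 3.9223 0.0000003148 0.000001 hβ hr hκ hk1 hk2 (by norm_num) (tb := 3.5414) (by linarith) (by norm_num) (by norm_num) (by norm_num) (by norm_num) (by norm_num) (by norm_num) (by norm_num) (ex_un 14 0.99 (by norm_num) (by norm_num) (by norm_num) (by norm_num)) (by norm_num)) (by norm_num))) hY (by norm_num) (by norm_num) (by norm_num) (by norm_num) (by norm_num) (by norm_num) (by norm_num) (by norm_num) (by norm_num) (ex_un 5 0.0995 (by norm_num) (by norm_num) (by norm_num) (by norm_num)) (by norm_num) (by norm_num)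

private theorem yA0 {κ t : ℝ} (h : DomR κ t) (hk1 : 0.6 ≤ κ) (hk2 : κ ≤ 0.65) (ht1 : 1.152 ≤ t + κ) (ht2 : t + κ ≤ 1.182) :
    0.321 ≤ sy κ t ∧ sy κ t ≤ 0.348 := by
  have hy1 : 0.321 ≤ sy κ t := syR_ge h 0.6 0.65 1.152 0.321 1.3785 1.37851 0.68076 0.73751 hk1 hk2 (by linarith) (by norm_num) (by norm_num)
    (expn_ge (by norm_num) (by norm_num)) (expn_le (by norm_num) (by norm_num) (by norm_num)) (by norm_num)
    (by norm_num) (by norm_num) (by norm_num) (by norm_num) (by norm_num) (by norm_num)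
  have hy2 : sy κ t ≤ 0.348 := syR_ang2 h 0.6 0.65 1.182 0.86 0.653 0.758 0.348 0.7061 1.41623 hk1 hk2 (by linarith) (by norm_num) (by norm_num) (by norm_num)
    (cos_le_num (by norm_num)) (sin_le_num (by norm_num) (by norm_num)) (expm_le (by norm_num) (by norm_num) (by norm_num))
    (expn_ge (by norm_num) (by norm_num)) (by norm_num) (by norm_num) (by norm_num) (by norm_num) (by norm_num)
  exact ⟨hy1, hy2⟩

private theorem yB0 {κ t : ℝ} (h : DomR κ t) (hk1 : 0.6 ≤ κ) (hk2 : κ ≤ 0.65) (ht1 : -0.9424 ≤ t + κ) (ht2 : t + κ ≤ -0.91239) :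
    (-0.655) ≤ sy κ t ∧ sy κ t ≤ (-0.604) := by
  have hy1 : -0.655 ≤ sy κ t := syL_ge h 0.6 0.65 0.9424 0.655 0.51944 0.51945 0.5488 0.52343 0.56707 hk1 hk2 (by linarith) (by norm_num) (by norm_num) (by norm_num)
    (expm_ge (by norm_num) (by norm_num) (by norm_num) (by norm_num)) (expm_le (by norm_num) (by norm_num) (by norm_num)) (by norm_num)
    (by norm_num) (by norm_num) (by norm_num) (by norm_num) (by norm_num) (by norm_num)
  have hy2 : sy κ t ≤ -0.604 := syL_le h 0.6 0.65 0.91239 0.604 0.54662 0.54663 0.50793 0.55028 hk1 hk2 (by linarith) (by norm_num) (by norm_num) (by norm_num)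
    (expm_ge (by norm_num) (by norm_num) (by norm_num) (by norm_num)) (expm_le (by norm_num) (by norm_num) (by norm_num)) (by norm_num)
    (by norm_num) (by norm_num) (by norm_num) (by norm_num) (by norm_num) (by norm_num)
  exact ⟨hy1, hy2⟩

theorem pc0 {β r h t κ : ℝ} (hh : h = 2 * Real.pi / (3 : ℕ)) (hβ : 0 < β) (hr : 10 ≤ r) (hκ : κ = β * r)
    (hk1 : 0.6 ≤ κ) (hk2 : κ ≤ 0.65) (hT1 : 1.152 ≤ t + κ) (hT2 : t + κ ≤ 1.182) :
    Xf β r h t 0 ≠ 0 ∧ r * 0.1963 ≤ (Ld β r h t 1 - Ld β r h t 0).im ∧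
      ‖(((-1 : ℤ) : ℂ) - 1) * Ld β r h t 0 - ((-1 : ℤ) : ℂ) * Ld β r h t 1‖ ≤ r * 7.52 := by
  obtain ⟨q1, q2, q3⟩ := b3_h hh
  have hR0 := b3_R0 hβ hr hκ
  have hR := b3_R hβ hr hκ (by linarith)
  have hD1 : DomR κ t := b3_dom (by linarith) (by linarith) (Or.inl (by linarith))
  have hD0 : DomR κ (t - h) := b3_dom (by linarith) (by linarith) (Or.inl (by linarith))
  have y1 := yA0 hD1 hk1 hk2 (by linarith) (by linarith)
  have y0 := yB0 hD0 hk1 hk2 (by linarith) (by linarith)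
  have j1 := T3_13_d1_0 hD1 hβ hk1 hk2 (by linarith) (by linarith) hR0 hR
  exact b3_piece 0.6 0.65 0.321 0.348 0.335 0.71533 0.72543 0.7061 0.4716 1.8313 1.9067 0.06 0.055 0.055 0.9701 0.3381 0 0 (-0.655) (-0.604) (-0.629) 1.87572 1.92515 1.2514 0.9952 0.04 0.31 0.185 9.5093 11.9287 0 0 0.1963 7.52
    hβ hr hκ (by norm_num) hk1 hk2 hD1 hD0 j1 (j1 _ (by rw [sub_self, norm_zero]; norm_num))
    (T3_13_d0_0 hD0 hβ hk1 hk2 (by linarith) (by linarith) hR0 hR)
    (T3_13_p0 hD0 hβ hk1 hk2 (by linarith) (by linarith) hR0 hR)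
    y1.1 y1.2 y0.1 y0.2 (by norm_num)
    (ex_um 0.321 (by norm_num) (by norm_num) (by norm_num) (by norm_num)) (ex_um 0.348 (by norm_num) (by norm_num) (by norm_num) (by norm_num)) (ex_lm 0.335 (by norm_num) (by norm_num) (by norm_num) (by norm_num) (by norm_num)) (by norm_num) (by norm_num) (by norm_num) (by norm_num) (by norm_num) (by norm_num) (by norm_num) (by norm_num)
    (by norm_num) (by norm_num) (by norm_num) (by norm_num) (by norm_num) (by norm_num) (by norm_num) (by norm_num) (by norm_num) (by norm_num)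
    (ex_up 0.655 (by norm_num) (by norm_num) (by norm_num) (by norm_num)) (ex_lp 0.629 (by norm_num) (by norm_num) (by norm_num)) (by norm_num) (by norm_num) (by norm_num) (by norm_num) (by norm_num) (by norm_num)
    (by norm_num) (by norm_num) (by norm_num) (by norm_num) (by norm_num) (by norm_num) (by norm_num) (by norm_num) (by norm_num) (by norm_num) (by norm_num)
    (by norm_num) (by norm_num) (by norm_num) (by norm_num)

private theorem yA1 {κ t : ℝ} (h : DomR κ t) (hk1 : 0.6 ≤ κ) (hk2 : κ ≤ 0.65) (ht1 : 1.182 ≤ t + κ) (ht2 : t + κ ≤ 1.205) :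
    0.325 ≤ sy κ t ∧ sy κ t ≤ 0.352 := by
  have hy1 : 0.325 ≤ sy κ t := syR_ge h 0.6 0.65 1.182 0.325 1.38403 1.38404 0.69201 0.74969 hk1 hk2 (by linarith) (by norm_num) (by norm_num)
    (expn_ge (by norm_num) (by norm_num)) (expn_le (by norm_num) (by norm_num) (by norm_num)) (by norm_num)
    (by norm_num) (by norm_num) (by norm_num) (by norm_num) (by norm_num) (by norm_num)
  have hy2 : sy κ t ≤ 0.352 := syR_ang2 h 0.6 0.65 1.205 0.878 0.6394 0.7696 0.352 0.70329 1.4219 hk1 hk2 (by linarith) (by norm_num) (by norm_num) (by norm_num)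
    (cos_le_num (by norm_num)) (sin_le_num (by norm_num) (by norm_num)) (expm_le (by norm_num) (by norm_num) (by norm_num))
    (expn_ge (by norm_num) (by norm_num)) (by norm_num) (by norm_num) (by norm_num) (by norm_num) (by norm_num)
  exact ⟨hy1, hy2⟩

private theorem yB1 {κ t : ℝ} (h : DomR κ t) (hk1 : 0.6 ≤ κ) (hk2 : κ ≤ 0.65) (ht1 : -0.9124 ≤ t + κ) (ht2 : t + κ ≤ -0.88939) :
    (-0.626) ≤ sy κ t ∧ sy κ t ≤ (-0.584) := by
  have hy1 : -0.626 ≤ sy κ t := syL_ge h 0.6 0.65 0.9124 0.626 0.53472 0.53473 0.5507 0.51497 0.55791 hk1 hk2 (by linarith) (by norm_num) (by norm_num) (by norm_num)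
    (expm_ge (by norm_num) (by norm_num) (by norm_num) (by norm_num)) (expm_le (by norm_num) (by norm_num) (by norm_num)) (by norm_num)
    (by norm_num) (by norm_num) (by norm_num) (by norm_num) (by norm_num) (by norm_num)
  have hy2 : sy κ t ≤ -0.584 := syL_le h 0.6 0.65 0.88939 0.584 0.55766 0.55767 0.50103 0.5428 hk1 hk2 (by linarith) (by norm_num) (by norm_num) (by norm_num)
    (expm_ge (by norm_num) (by norm_num) (by norm_num) (by norm_num)) (expm_le (by norm_num) (by norm_num) (by norm_num)) (by norm_num)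
    (by norm_num) (by norm_num) (by norm_num) (by norm_num) (by norm_num) (by norm_num)
  exact ⟨hy1, hy2⟩

theorem pc1 {β r h t κ : ℝ} (hh : h = 2 * Real.pi / (3 : ℕ)) (hβ : 0 < β) (hr : 10 ≤ r) (hκ : κ = β * r)
    (hk1 : 0.6 ≤ κ) (hk2 : κ ≤ 0.65) (hT1 : 1.182 ≤ t + κ) (hT2 : t + κ ≤ 1.205) :
    Xf β r h t 0 ≠ 0 ∧ r * 0.1963 ≤ (Ld β r h t 1 - Ld β r h t 0).im ∧
      ‖(((-1 : ℤ) : ℂ) - 1) * Ld β r h t 0 - ((-1 : ℤ) : ℂ) * Ld β r h t 1‖ ≤ r * 7.52 := by
  obtain ⟨q1, q2, q3⟩ := b3_h hh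
  have hR0 := b3_R0 hβ hr hκ
  have hR := b3_R hβ hr hκ (by linarith)
  have hD1 : DomR κ t := b3_dom (by linarith) (by linarith) (Or.inl (by linarith))
  have hD0 : DomR κ (t - h) := b3_dom (by linarith) (by linarith) (Or.inl (by linarith))
  have y1 := yA1 hD1 hk1 hk2 (by linarith) (by linarith)
  have y0 := yB1 hD0 hk1 hk2 (by linarith) (by linarith)
  have j1 := T3_13_d1_1 hD1 hβ hk1 hk2 (by linarith) (by linarith) hR0 hR
  exact b3_piece 0.6 0.65 0.325 0.352 0.339 0.71248 0.72253 0.70329 0.4697 1.8378 1.913 0.06 0.065 0.065 1.1587 0.4015 0 0 (-0.626) (-0.584) (-0.605) 1.83124 1.87012 1.2156 0.9885 0.05 0.31 0.185 7.6074 9.3012 0 0 0.1963 7.52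
    hβ hr hκ (by norm_num) hk1 hk2 hD1 hD0 j1 (j1 _ (by rw [sub_self, norm_zero]; norm_num))
    (T3_13_d0_1 hD0 hβ hk1 hk2 (by linarith) (by linarith) hR0 hR)
    (T3_13_p0 hD0 hβ hk1 hk2 (by linarith) (by linarith) hR0 hR)
    y1.1 y1.2 y0.1 y0.2 (by norm_num)
    (ex_um 0.325 (by norm_num) (by norm_num) (by norm_num) (by norm_num)) (ex_um 0.352 (by norm_num) (by norm_num) (by norm_num) (by norm_num)) (ex_lm 0.339 (by norm_num) (by norm_num) (by norm_num) (by norm_num) (by norm_num)) (by norm_num) (by norm_num) (by norm_num) (by norm_num) (by norm_num) (by norm_num) (by norm_num) (by norm_num)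
    (by norm_num) (by norm_num) (by norm_num) (by norm_num) (by norm_num) (by norm_num) (by norm_num) (by norm_num) (by norm_num) (by norm_num)
    (ex_up 0.626 (by norm_num) (by norm_num) (by norm_num) (by norm_num)) (ex_lp 0.605 (by norm_num) (by norm_num) (by norm_num)) (by norm_num) (by norm_num) (by norm_num) (by norm_num) (by norm_num) (by norm_num)
    (by norm_num) (by norm_num) (by norm_num) (by norm_num) (by norm_num) (by norm_num) (by norm_num) (by norm_num) (by norm_num) (by norm_num) (by norm_num)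
    (by norm_num) (by norm_num) (by norm_num) (by norm_num)

private theorem yA2 {κ t : ℝ} (h : DomR κ t) (hk1 : 0.6 ≤ κ) (hk2 : κ ≤ 0.65) (ht1 : 1.205 ≤ t + κ) (ht2 : t + κ ≤ 1.229) :
    0.329 ≤ sy κ t ∧ sy κ t ≤ 0.356 := by
  have hy1 : 0.329 ≤ sy κ t := syR_ge h 0.6 0.65 1.205 0.329 1.38957 1.38958 0.70333 0.76196 hk1 hk2 (by linarith) (by norm_num) (by norm_num)
    (expn_ge (by norm_num) (by norm_num)) (expn_le (by norm_num) (by norm_num) (by norm_num)) (by norm_num)
    (by norm_num) (by norm_num) (by norm_num) (by norm_num) (by norm_num) (by norm_num)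
  have hy2 : sy κ t ≤ 0.356 := syR_ang2 h 0.6 0.65 1.229 0.897 0.6247 0.7816 0.356 0.70048 1.4276 hk1 hk2 (by linarith) (by norm_num) (by norm_num) (by norm_num)
    (cos_le_num (by norm_num)) (sin_le_num (by norm_num) (by norm_num)) (expm_le (by norm_num) (by norm_num) (by norm_num))
    (expn_ge (by norm_num) (by norm_num)) (by norm_num) (by norm_num) (by norm_num) (by norm_num) (by norm_num)
  exact ⟨hy1, hy2⟩

private theorem yB2 {κ t : ℝ} (h : DomR κ t) (hk1 : 0.6 ≤ κ) (hk2 : κ ≤ 0.65) (ht1 : -0.8894 ≤ t + κ) (ht2 : t + κ ≤ -0.86539) :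
    (-0.605) ≤ sy κ t ∧ sy κ t ≤ (-0.564) := by
  have hy1 : -0.605 ≤ sy κ t := syL_ge h 0.6 0.65 0.8894 0.605 0.54607 0.54608 0.5259 0.50826 0.55064 hk1 hk2 (by linarith) (by norm_num) (by norm_num) (by norm_num)
    (expm_ge (by norm_num) (by norm_num) (by norm_num) (by norm_num)) (expm_le (by norm_num) (by norm_num) (by norm_num)) (by norm_num)
    (by norm_num) (by norm_num) (by norm_num) (by norm_num) (by norm_num) (by norm_num)
  have hy2 : sy κ t ≤ -0.564 := syL_le h 0.6 0.65 0.86539 0.564 0.56892 0.56894 0.49364 0.53481 hk1 hk2 (by linarith) (by norm_num) (by norm_num) (by norm_num)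
    (expm_ge (by norm_num) (by norm_num) (by norm_num) (by norm_num)) (expm_le (by norm_num) (by norm_num) (by norm_num)) (by norm_num)
    (by norm_num) (by norm_num) (by norm_num) (by norm_num) (by norm_num) (by norm_num)
  exact ⟨hy1, hy2⟩

theorem pc2 {β r h t κ : ℝ} (hh : h = 2 * Real.pi / (3 : ℕ)) (hβ : 0 < β) (hr : 10 ≤ r) (hκ : κ = β * r)
    (hk1 : 0.6 ≤ κ) (hk2 : κ ≤ 0.65) (hT1 : 1.205 ≤ t + κ) (hT2 : t + κ ≤ 1.229) :
    Xf β r h t 0 ≠ 0 ∧ r * 0.1963 ≤ (Ld β r h t 1 - Ld β r h t 0).im ∧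
      ‖(((-1 : ℤ) : ℂ) - 1) * Ld β r h t 0 - ((-1 : ℤ) : ℂ) * Ld β r h t 1‖ ≤ r * 7.52 := by
  obtain ⟨q1, q2, q3⟩ := b3_h hh
  have hR0 := b3_R0 hβ hr hκ
  have hR := b3_R hβ hr hκ (by linarith)
  have hD1 : DomR κ t := b3_dom (by linarith) (by linarith) (Or.inl (by linarith))
  have hD0 : DomR κ (t - h) := b3_dom (by linarith) (by linarith) (Or.inl (by linarith))
  have y1 := yA2 hD1 hk1 hk2 (by linarith) (by linarith)
  have y0 := yB2 hD0 hk1 hk2 (by linarith) (by linarith)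
  have j1 := T3_13_d1_1 hD1 hβ hk1 hk2 (by linarith) (by linarith) hR0 hR
  exact b3_piece 0.6 0.65 0.329 0.356 0.343 0.70963 0.71965 0.70048 0.4678 1.8443 1.9194 0.06 0.065 0.065 1.1587 0.3992 0 0 (-0.605) (-0.564) (-0.585) 1.79498 1.83126 1.1904 0.9831 0.05 0.31 0.185 7.6074 9.1334 0 0 0.1963 7.52
    hβ hr hκ (by norm_num) hk1 hk2 hD1 hD0 j1 (j1 _ (by rw [sub_self, norm_zero]; norm_num))
    (T3_13_d0_1 hD0 hβ hk1 hk2 (by linarith) (by linarith) hR0 hR)
    (T3_13_p0 hD0 hβ hk1 hk2 (by linarith) (by linarith) hR0 hR)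
    y1.1 y1.2 y0.1 y0.2 (by norm_num)
    (ex_um 0.329 (by norm_num) (by norm_num) (by norm_num) (by norm_num)) (ex_um 0.356 (by norm_num) (by norm_num) (by norm_num) (by norm_num)) (ex_lm 0.343 (by norm_num) (by norm_num) (by norm_num) (by norm_num) (by norm_num)) (by norm_num) (by norm_num) (by norm_num) (by norm_num) (by norm_num) (by norm_num) (by norm_num) (by norm_num)
    (by norm_num) (by norm_num) (by norm_num) (by norm_num) (by norm_num) (by norm_num) (by norm_num) (by norm_num) (by norm_num) (by norm_num)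
    (ex_up 0.605 (by norm_num) (by norm_num) (by norm_num) (by norm_num)) (ex_lp 0.585 (by norm_num) (by norm_num) (by norm_num)) (by norm_num) (by norm_num) (by norm_num) (by norm_num) (by norm_num) (by norm_num)
    (by norm_num) (by norm_num) (by norm_num) (by norm_num) (by norm_num) (by norm_num) (by norm_num) (by norm_num) (by norm_num) (by norm_num) (by norm_num)
    (by norm_num) (by norm_num) (by norm_num) (by norm_num)

private theorem yA3 {κ t : ℝ} (h : DomR κ t) (hk1 : 0.6 ≤ κ) (hk2 : κ ≤ 0.65) (ht1 : 1.229 ≤ t + κ) (ht2 : t + κ ≤ 1.252) :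
    0.333 ≤ sy κ t ∧ sy κ t ≤ 0.359 := by
  have hy1 : 0.333 ≤ sy κ t := syR_ge h 0.6 0.65 1.229 0.333 1.39514 1.39515 0.71474 0.77431 hk1 hk2 (by linarith) (by norm_num) (by norm_num)
    (expn_ge (by norm_num) (by norm_num)) (expn_le (by norm_num) (by norm_num) (by norm_num)) (by norm_num)
    (by norm_num) (by norm_num) (by norm_num) (by norm_num) (by norm_num) (by norm_num)
  have hy2 : sy κ t ≤ 0.359 := syR_ang2 h 0.6 0.65 1.252 0.911 0.6138 0.7903 0.359 0.69838 1.43189 hk1 hk2 (by linarith) (by norm_num) (by norm_num) (by norm_num)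
    (cos_le_num (by norm_num)) (sin_le_num (by norm_num) (by norm_num)) (expm_le (by norm_num) (by norm_num) (by norm_num))
    (expn_ge (by norm_num) (by norm_num)) (by norm_num) (by norm_num) (by norm_num) (by norm_num) (by norm_num)
  exact ⟨hy1, hy2⟩

private theorem yB3 {κ t : ℝ} (h : DomR κ t) (hk1 : 0.6 ≤ κ) (hk2 : κ ≤ 0.65) (ht1 : -0.8654 ≤ t + κ) (ht2 : t + κ ≤ -0.84239) :
    (-0.582) ≤ sy κ t ∧ sy κ t ≤ (-0.545) := by
  have hy1 : -0.582 ≤ sy κ t := syL_ge h 0.6 0.65 0.8654 0.582 0.55877 0.55879 0.5211 0.50031 0.54203 hk1 hk2 (by linarith) (by norm_num) (by norm_num) (by norm_num)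
    (expm_ge (by norm_num) (by norm_num) (by norm_num) (by norm_num)) (expm_le (by norm_num) (by norm_num) (by norm_num)) (by norm_num)
    (by norm_num) (by norm_num) (by norm_num) (by norm_num) (by norm_num) (by norm_num)
  have hy2 : sy κ t ≤ -0.545 := syL_le h 0.6 0.65 0.84239 0.545 0.57984 0.57985 0.48617 0.5267 hk1 hk2 (by linarith) (by norm_num) (by norm_num) (by norm_num)
    (expm_ge (by norm_num) (by norm_num) (by norm_num) (by norm_num)) (expm_le (by norm_num) (by norm_num) (by norm_num)) (by norm_num)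
    (by norm_num) (by norm_num) (by norm_num) (by norm_num) (by norm_num) (by norm_num)
  exact ⟨hy1, hy2⟩

theorem pc3 {β r h t κ : ℝ} (hh : h = 2 * Real.pi / (3 : ℕ)) (hβ : 0 < β) (hr : 10 ≤ r) (hκ : κ = β * r)
    (hk1 : 0.6 ≤ κ) (hk2 : κ ≤ 0.65) (hT1 : 1.229 ≤ t + κ) (hT2 : t + κ ≤ 1.252) :
    Xf β r h t 0 ≠ 0 ∧ r * 0.1963 ≤ (Ld β r h t 1 - Ld β r h t 0).im ∧
      ‖(((-1 : ℤ) : ℂ) - 1) * Ld β r h t 0 - ((-1 : ℤ) : ℂ) * Ld β r h t 1‖ ≤ r * 7.52 := by
  obtain ⟨q1, q2, q3⟩ := b3_h hh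
  have hR0 := b3_R0 hβ hr hκ
  have hR := b3_R hβ hr hκ (by linarith)
  have hD1 : DomR κ t := b3_dom (by linarith) (by linarith) (Or.inl (by linarith))
  have hD0 : DomR κ (t - h) := b3_dom (by linarith) (by linarith) (Or.inl (by linarith))
  have y1 := yA3 hD1 hk1 hk2 (by linarith) (by linarith)
  have y0 := yB3 hD0 hk1 hk2 (by linarith) (by linarith)
  have j1 := T3_13_d1_1 hD1 hβ hk1 hk2 (by linarith) (by linarith) hR0 hR
  exact b3_piece 0.6 0.65 0.333 0.359 0.346 0.70751 0.71678 0.69838 0.466 1.8508 1.9241 0.06 0.065 0.065 1.1587 0.3969 0 0 (-0.582) (-0.545) (-0.564) 1.75768 1.78962 1.1633 0.9799 0.05 0.31 0.185 7.6074 8.94 0 0 0.1963 7.52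
    hβ hr hκ (by norm_num) hk1 hk2 hD1 hD0 j1 (j1 _ (by rw [sub_self, norm_zero]; norm_num))
    (T3_13_d0_1 hD0 hβ hk1 hk2 (by linarith) (by linarith) hR0 hR)
    (T3_13_p0 hD0 hβ hk1 hk2 (by linarith) (by linarith) hR0 hR)
    y1.1 y1.2 y0.1 y0.2 (by norm_num)
    (ex_um 0.333 (by norm_num) (by norm_num) (by norm_num) (by norm_num)) (ex_um 0.359 (by norm_num) (by norm_num) (by norm_num) (by norm_num)) (ex_lm 0.346 (by norm_num) (by norm_num) (by norm_num) (by norm_num) (by norm_num)) (by norm_num) (by norm_num) (by norm_num) (by norm_num) (by norm_num) (by norm_num) (by norm_num) (by norm_num)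
    (by norm_num) (by norm_num) (by norm_num) (by norm_num) (by norm_num) (by norm_num) (by norm_num) (by norm_num) (by norm_num) (by norm_num)
    (ex_up 0.582 (by norm_num) (by norm_num) (by norm_num) (by norm_num)) (ex_lp 0.564 (by norm_num) (by norm_num) (by norm_num)) (by norm_num) (by norm_num) (by norm_num) (by norm_num) (by norm_num) (by norm_num)
    (by norm_num) (by norm_num) (by norm_num) (by norm_num) (by norm_num) (by norm_num) (by norm_num) (by norm_num) (by norm_num) (by norm_num) (by norm_num)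
    (by norm_num) (by norm_num) (by norm_num) (by norm_num)

private theorem yA4 {κ t : ℝ} (h : DomR κ t) (hk1 : 0.6 ≤ κ) (hk2 : κ ≤ 0.65) (ht1 : 1.252 ≤ t + κ) (ht2 : t + κ ≤ 1.278) :
    0.336 ≤ sy κ t ∧ sy κ t ≤ 0.363 := by
  have hy1 : 0.336 ≤ sy κ t := syR_ge h 0.6 0.65 1.252 0.336 1.39933 1.39934 0.72334 0.78364 hk1 hk2 (by linarith) (by norm_num) (by norm_num)
    (expn_ge (by norm_num) (by norm_num)) (expn_le (by norm_num) (by norm_num) (by norm_num)) (by norm_num)
    (by norm_num) (by norm_num) (by norm_num) (by norm_num) (by norm_num) (by norm_num)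
  have hy2 : sy κ t ≤ 0.363 := syR_ang2 h 0.6 0.65 1.278 0.931 0.598 0.8024 0.363 0.69559 1.43763 hk1 hk2 (by linarith) (by norm_num) (by norm_num) (by norm_num)
    (cos_le_num (by norm_num)) (sin_le_num (by norm_num) (by norm_num)) (expm_le (by norm_num) (by norm_num) (by norm_num))
    (expn_ge (by norm_num) (by norm_num)) (by norm_num) (by norm_num) (by norm_num) (by norm_num) (by norm_num)
  exact ⟨hy1, hy2⟩

private theorem yB4 {κ t : ℝ} (h : DomR κ t) (hk1 : 0.6 ≤ κ) (hk2 : κ ≤ 0.65) (ht1 : -0.8424 ≤ t + κ) (ht2 : t + κ ≤ -0.81639) :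
    (-0.56) ≤ sy κ t ∧ sy κ t ≤ (-0.524) := by
  have hy1 : -0.56 ≤ sy κ t := syL_ge h 0.6 0.65 0.8424 0.56 0.5712 0.57122 0.5263 0.49211 0.53314 hk1 hk2 (by linarith) (by norm_num) (by norm_num) (by norm_num)
    (expm_ge (by norm_num) (by norm_num) (by norm_num) (by norm_num)) (expm_le (by norm_num) (by norm_num) (by norm_num)) (by norm_num)
    (by norm_num) (by norm_num) (by norm_num) (by norm_num) (by norm_num) (by norm_num)
  have hy2 : sy κ t ≤ -0.524 := syL_le h 0.6 0.65 0.81639 0.524 0.59214 0.59215 0.47735 0.51715 hk1 hk2 (by linarith) (by norm_num) (by norm_num) (by norm_num)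
    (expm_ge (by norm_num) (by norm_num) (by norm_num) (by norm_num)) (expm_le (by norm_num) (by norm_num) (by norm_num)) (by norm_num)
    (by norm_num) (by norm_num) (by norm_num) (by norm_num) (by norm_num) (by norm_num)
  exact ⟨hy1, hy2⟩

theorem pc4 {β r h t κ : ℝ} (hh : h = 2 * Real.pi / (3 : ℕ)) (hβ : 0 < β) (hr : 10 ≤ r) (hκ : κ = β * r)
    (hk1 : 0.6 ≤ κ) (hk2 : κ ≤ 0.65) (hT1 : 1.252 ≤ t + κ) (hT2 : t + κ ≤ 1.278) :
    Xf β r h t 0 ≠ 0 ∧ r * 0.1963 ≤ (Ld β r h t 1 - Ld β r h t 0).im ∧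
      ‖(((-1 : ℤ) : ℂ) - 1) * Ld β r h t 0 - ((-1 : ℤ) : ℂ) * Ld β r h t 1‖ ≤ r * 7.52 := by
  obtain ⟨q1, q2, q3⟩ := b3_h hh
  have hR0 := b3_R0 hβ hr hκ
  have hR := b3_R hβ hr hκ (by linarith)
  have hD1 : DomR κ t := b3_dom (by linarith) (by linarith) (Or.inl (by linarith))
  have hD0 : DomR κ (t - h) := b3_dom (by linarith) (by linarith) (Or.inl (by linarith))
  have y1 := yA4 hD1 hk1 hk2 (by linarith) (by linarith)
  have y0 := yB4 hD0 hk1 hk2 (by linarith) (by linarith)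
  have j1 := T3_13_d1_2 hD1 hβ hk1 hk2 (by linarith) (by linarith) hR0 hR
  exact b3_piece 0.6 0.65 0.336 0.363 0.349 0.70539 0.71463 0.69559 0.4646 1.8557 1.9305 0.04 0.07 0.07 1.8818 0.6418 0 0 (-0.56) (-0.524) (-0.542) 1.71943 1.75068 1.138 0.978 0.06 0.255 0.185 5.2148 6.0009 0 0 0.1963 7.52
    hβ hr hκ (by norm_num) hk1 hk2 hD1 hD0 j1 (j1 _ (by rw [sub_self, norm_zero]; norm_num))
    (T3_13_d0_2 hD0 hβ hk1 hk2 (by linarith) (by linarith) hR0 hR)
    (T3_13_p0 hD0 hβ hk1 hk2 (by linarith) (by linarith) hR0 hR)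
    y1.1 y1.2 y0.1 y0.2 (by norm_num)
    (ex_um 0.336 (by norm_num) (by norm_num) (by norm_num) (by norm_num)) (ex_um 0.363 (by norm_num) (by norm_num) (by norm_num) (by norm_num)) (ex_lm 0.349 (by norm_num) (by norm_num) (by norm_num) (by norm_num) (by norm_num)) (by norm_num) (by norm_num) (by norm_num) (by norm_num) (by norm_num) (by norm_num) (by norm_num) (by norm_num)
    (by norm_num) (by norm_num) (by norm_num) (by norm_num) (by norm_num) (by norm_num) (by norm_num) (by norm_num) (by norm_num) (by norm_num)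
    (ex_up 0.56 (by norm_num) (by norm_num) (by norm_num) (by norm_num)) (ex_lp 0.542 (by norm_num) (by norm_num) (by norm_num)) (by norm_num) (by norm_num) (by norm_num) (by norm_num) (by norm_num) (by norm_num)
    (by norm_num) (by norm_num) (by norm_num) (by norm_num) (by norm_num) (by norm_num) (by norm_num) (by norm_num) (by norm_num) (by norm_num) (by norm_num)
    (by norm_num) (by norm_num) (by norm_num) (by norm_num)

private theorem yA5 {κ t : ℝ} (h : DomR κ t) (hk1 : 0.6 ≤ κ) (hk2 : κ ≤ 0.65) (ht1 : 1.278 ≤ t + κ) (ht2 : t + κ ≤ 1.304) :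
    0.34 ≤ sy κ t ∧ sy κ t ≤ 0.367 := by
  have hy1 : 0.34 ≤ sy κ t := syR_ge h 0.6 0.65 1.278 0.34 1.40494 1.40495 0.73489 0.79614 hk1 hk2 (by linarith) (by norm_num) (by norm_num)
    (expn_ge (by norm_num) (by norm_num)) (expn_le (by norm_num) (by norm_num) (by norm_num)) (by norm_num)
    (by norm_num) (by norm_num) (by norm_num) (by norm_num) (by norm_num) (by norm_num)
  have hy2 : sy κ t ≤ 0.367 := syR_ang2 h 0.6 0.65 1.304 0.952 0.5811 0.8148 0.367 0.69281 1.44339 hk1 hk2 (by linarith) (by norm_num) (by norm_num) (by norm_num)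
    (cos_le_num (by norm_num)) (sin_le_num (by norm_num) (by norm_num)) (expm_le (by norm_num) (by norm_num) (by norm_num))
    (expn_ge (by norm_num) (by norm_num)) (by norm_num) (by norm_num) (by norm_num) (by norm_num) (by norm_num)
  exact ⟨hy1, hy2⟩

private theorem yB5 {κ t : ℝ} (h : DomR κ t) (hk1 : 0.6 ≤ κ) (hk2 : κ ≤ 0.65) (ht1 : -0.8164 ≤ t + κ) (ht2 : t + κ ≤ -0.79039) :
    (-0.536) ≤ sy κ t ∧ sy κ t ≤ (-0.502) := by
  have hy1 : -0.536 ≤ sy κ t := syL_ge h 0.6 0.65 0.8164 0.536 0.58508 0.58509 0.5126 0.48246 0.52269 hk1 hk2 (by linarith) (by norm_num) (by norm_num) (by norm_num)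
    (expm_ge (by norm_num) (by norm_num) (by norm_num) (by norm_num)) (expm_le (by norm_num) (by norm_num) (by norm_num)) (by norm_num)
    (by norm_num) (by norm_num) (by norm_num) (by norm_num) (by norm_num) (by norm_num)
  have hy2 : sy κ t ≤ -0.502 := syL_le h 0.6 0.65 0.79039 0.502 0.60531 0.60532 0.46748 0.50646 hk1 hk2 (by linarith) (by norm_num) (by norm_num) (by norm_num)
    (expm_ge (by norm_num) (by norm_num) (by norm_num) (by norm_num)) (expm_le (by norm_num) (by norm_num) (by norm_num)) (by norm_num)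
    (by norm_num) (by norm_num) (by norm_num) (by norm_num) (by norm_num) (by norm_num)
  exact ⟨hy1, hy2⟩

theorem pc5 {β r h t κ : ℝ} (hh : h = 2 * Real.pi / (3 : ℕ)) (hβ : 0 < β) (hr : 10 ≤ r) (hκ : κ = β * r)
    (hk1 : 0.6 ≤ κ) (hk2 : κ ≤ 0.65) (hT1 : 1.278 ≤ t + κ) (hT2 : t + κ ≤ 1.304) :
    Xf β r h t 0 ≠ 0 ∧ r * 0.1963 ≤ (Ld β r h t 1 - Ld β r h t 0).im ∧
      ‖(((-1 : ℤ) : ℂ) - 1) * Ld β r h t 0 - ((-1 : ℤ) : ℂ) * Ld β r h t 1‖ ≤ r * 7.52 := by
  obtain ⟨q1, q2, q3⟩ := b3_h hh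
  have hR0 := b3_R0 hβ hr hκ
  have hR := b3_R hβ hr hκ (by linarith)
  have hD1 : DomR κ t := b3_dom (by linarith) (by linarith) (Or.inl (by linarith))
  have hD0 : DomR κ (t - h) := b3_dom (by linarith) (by linarith) (Or.inl (by linarith))
  have y1 := yA5 hD1 hk1 hk2 (by linarith) (by linarith)
  have y0 := yB5 hD0 hk1 hk2 (by linarith) (by linarith)
  have j1 := T3_13_d1_2 hD1 hβ hk1 hk2 (by linarith) (by linarith) hR0 hR
  exact b3_piece 0.6 0.65 0.34 0.367 0.353 0.70257 0.71178 0.69281 0.4627 1.8623 1.9368 0.04 0.07 0.07 1.8818 0.6381 0 0 (-0.536) (-0.502) (-0.519) 1.68034 1.70916 1.111 0.9779 0.06 0.255 0.185 5.2148 5.8588 0.0093 0.0106 0.1963 7.52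
    hβ hr hκ (by norm_num) hk1 hk2 hD1 hD0 j1 (j1 _ (by rw [sub_self, norm_zero]; norm_num))
    (T3_13_d0_2 hD0 hβ hk1 hk2 (by linarith) (by linarith) hR0 hR)
    (T3_13_p0 hD0 hβ hk1 hk2 (by linarith) (by linarith) hR0 hR)
    y1.1 y1.2 y0.1 y0.2 (by norm_num)
    (ex_um 0.34 (by norm_num) (by norm_num) (by norm_num) (by norm_num)) (ex_um 0.367 (by norm_num) (by norm_num) (by norm_num) (by norm_num)) (ex_lm 0.353 (by norm_num) (by norm_num) (by norm_num) (by norm_num) (by norm_num)) (by norm_num) (by norm_num) (by norm_num) (by norm_num) (by norm_num) (by norm_num) (by norm_num) (by norm_num)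
    (by norm_num) (by norm_num) (by norm_num) (by norm_num) (by norm_num) (by norm_num) (by norm_num) (by norm_num) (by norm_num) (by norm_num)
    (ex_up 0.536 (by norm_num) (by norm_num) (by norm_num) (by norm_num)) (ex_lp 0.519 (by norm_num) (by norm_num) (by norm_num)) (by norm_num) (by norm_num) (by norm_num) (by norm_num) (by norm_num) (by norm_num)
    (by norm_num) (by norm_num) (by norm_num) (by norm_num) (by norm_num) (by norm_num) (by norm_num) (by norm_num) (by norm_num) (by norm_num) (by norm_num)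
    (by norm_num) (by norm_num) (by norm_num) (by norm_num)

private theorem yA6 {κ t : ℝ} (h : DomR κ t) (hk1 : 0.6 ≤ κ) (hk2 : κ ≤ 0.65) (ht1 : 1.304 ≤ t + κ) (ht2 : t + κ ≤ 1.33) :
    0.341 ≤ sy κ t ∧ sy κ t ≤ 0.37 := by
  have hy1 : 0.341 ≤ sy κ t := syR_ge h 0.6 0.65 1.304 0.341 1.40635 1.40636 0.73779 0.79929 hk1 hk2 (by linarith) (by norm_num) (by norm_num)
    (expn_ge (by norm_num) (by norm_num)) (expn_le (by norm_num) (by norm_num) (by norm_num)) (by norm_num)
    (by norm_num) (by norm_num) (by norm_num) (by norm_num) (by norm_num) (by norm_num)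
  have hy2 : sy κ t ≤ 0.37 := syR_ang2 h 0.6 0.65 1.33 0.968 0.5681 0.824 0.37 0.69074 1.44773 hk1 hk2 (by linarith) (by norm_num) (by norm_num) (by norm_num)
    (cos_le_num (by norm_num)) (sin_le_num (by norm_num) (by norm_num)) (expm_le (by norm_num) (by norm_num) (by norm_num))
    (expn_ge (by norm_num) (by norm_num)) (by norm_num) (by norm_num) (by norm_num) (by norm_num) (by norm_num)
  exact ⟨hy1, hy2⟩

private theorem yB6 {κ t : ℝ} (h : DomR κ t) (hk1 : 0.6 ≤ κ) (hk2 : κ ≤ 0.65) (ht1 : -0.7904 ≤ t + κ) (ht2 : t + κ ≤ -0.76439) :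
    (-0.513) ≤ sy κ t ∧ sy κ t ≤ (-0.48) := by
  have hy1 : -0.513 ≤ sy κ t := syL_ge h 0.6 0.65 0.7904 0.513 0.59869 0.5987 0.4889 0.4725 0.51189 hk1 hk2 (by linarith) (by norm_num) (by norm_num) (by norm_num)
    (expm_ge (by norm_num) (by norm_num) (by norm_num) (by norm_num)) (expm_le (by norm_num) (by norm_num) (by norm_num)) (by norm_num)
    (by norm_num) (by norm_num) (by norm_num) (by norm_num) (by norm_num) (by norm_num)
  have hy2 : sy κ t ≤ -0.48 := syL_le h 0.6 0.65 0.76439 0.48 0.61878 0.61879 0.45694 0.49504 hk1 hk2 (by linarith) (by norm_num) (by norm_num) (by norm_num)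
    (expm_ge (by norm_num) (by norm_num) (by norm_num) (by norm_num)) (expm_le (by norm_num) (by norm_num) (by norm_num)) (by norm_num)
    (by norm_num) (by norm_num) (by norm_num) (by norm_num) (by norm_num) (by norm_num)
  exact ⟨hy1, hy2⟩

theorem pc6 {β r h t κ : ℝ} (hh : h = 2 * Real.pi / (3 : ℕ)) (hβ : 0 < β) (hr : 10 ≤ r) (hκ : κ = β * r)
    (hk1 : 0.6 ≤ κ) (hk2 : κ ≤ 0.65) (hT1 : 1.304 ≤ t + κ) (hT2 : t + κ ≤ 1.33) :
    Xf β r h t 0 ≠ 0 ∧ r * 0.1963 ≤ (Ld β r h t 1 - Ld β r h t 0).im ∧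
      ‖(((-1 : ℤ) : ℂ) - 1) * Ld β r h t 0 - ((-1 : ℤ) : ℂ) * Ld β r h t 1‖ ≤ r * 7.52 := by
  obtain ⟨q1, q2, q3⟩ := b3_h hh
  have hR0 := b3_R0 hβ hr hκ
  have hR := b3_R hβ hr hκ (by linarith)
  have hD1 : DomR κ t := b3_dom (by linarith) (by linarith) (Or.inl (by linarith))
  have hD0 : DomR κ (t - h) := b3_dom (by linarith) (by linarith) (Or.inl (by linarith))
  have y1 := yA6 hD1 hk1 hk2 (by linarith) (by linarith)
  have y0 := yB6 hD0 hk1 hk2 (by linarith) (by linarith)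
  have j1 := T3_13_d1_2 hD1 hβ hk1 hk2 (by linarith) (by linarith) hR0 hR
  exact b3_piece 0.6 0.65 0.341 0.37 0.355 0.70117 0.71106 0.69074 0.4622 1.8639 1.9416 0.04 0.07 0.07 1.8818 0.6371 0 0 (-0.513) (-0.48) (-0.496) 1.64213 1.6703 1.0857 0.9777 0.06 0.255 0.185 5.2148 5.726 0.0319 0.0355 0.1963 7.52
    hβ hr hκ (by norm_num) hk1 hk2 hD1 hD0 j1 (j1 _ (by rw [sub_self, norm_zero]; norm_num))
    (T3_13_d0_2 hD0 hβ hk1 hk2 (by linarith) (by linarith) hR0 hR)
    (T3_13_p0 hD0 hβ hk1 hk2 (by linarith) (by linarith) hR0 hR)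
    y1.1 y1.2 y0.1 y0.2 (by norm_num)
    (ex_um 0.341 (by norm_num) (by norm_num) (by norm_num) (by norm_num)) (ex_um 0.37 (by norm_num) (by norm_num) (by norm_num) (by norm_num)) (ex_lm 0.355 (by norm_num) (by norm_num) (by norm_num) (by norm_num) (by norm_num)) (by norm_num) (by norm_num) (by norm_num) (by norm_num) (by norm_num) (by norm_num) (by norm_num) (by norm_num)
    (by norm_num) (by norm_num) (by norm_num) (by norm_num) (by norm_num) (by norm_num) (by norm_num) (by norm_num) (by norm_num) (by norm_num)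
    (ex_up 0.513 (by norm_num) (by norm_num) (by norm_num) (by norm_num)) (ex_lp 0.496 (by norm_num) (by norm_num) (by norm_num)) (by norm_num) (by norm_num) (by norm_num) (by norm_num) (by norm_num) (by norm_num)
    (by norm_num) (by norm_num) (by norm_num) (by norm_num) (by norm_num) (by norm_num) (by norm_num) (by norm_num) (by norm_num) (by norm_num) (by norm_num)
    (by norm_num) (by norm_num) (by norm_num) (by norm_num)

private theorem yA7 {κ t : ℝ} (h : DomR κ t) (hk1 : 0.6 ≤ κ) (hk2 : κ ≤ 0.65) (ht1 : 1.33 ≤ t + κ) (ht2 : t + κ ≤ 1.356) :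
    0.341 ≤ sy κ t ∧ sy κ t ≤ 0.374 := by
  have hy1 : 0.341 ≤ sy κ t := syR_ge h 0.6 0.65 1.33 0.341 1.40635 1.40636 0.73779 0.79929 hk1 hk2 (by linarith) (by norm_num) (by norm_num)
    (expn_ge (by norm_num) (by norm_num)) (expn_le (by norm_num) (by norm_num) (by norm_num)) (by norm_num)
    (by norm_num) (by norm_num) (by norm_num) (by norm_num) (by norm_num) (by norm_num)
  have hy2 : sy κ t ≤ 0.374 := syR_ang2 h 0.6 0.65 1.356 0.99 0.55 0.8363 0.374 0.68798 1.45353 hk1 hk2 (by linarith) (by norm_num) (by norm_num) (by norm_num)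
    (cos_le_num (by norm_num)) (sin_le_num (by norm_num) (by norm_num)) (expm_le (by norm_num) (by norm_num) (by norm_num))
    (expn_ge (by norm_num) (by norm_num)) (by norm_num) (by norm_num) (by norm_num) (by norm_num) (by norm_num)
  exact ⟨hy1, hy2⟩

private theorem yB7 {κ t : ℝ} (h : DomR κ t) (hk1 : 0.6 ≤ κ) (hk2 : κ ≤ 0.65) (ht1 : -0.7644 ≤ t + κ) (ht2 : t + κ ≤ -0.73839) :
    (-0.49) ≤ sy κ t ∧ sy κ t ≤ (-0.458) := by
  have hy1 : -0.49 ≤ sy κ t := syL_ge h 0.6 0.65 0.7644 0.49 0.61262 0.61263 0.4746 0.46182 0.50032 hk1 hk2 (by linarith) (by norm_num) (by norm_num) (by norm_num)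
    (expm_ge (by norm_num) (by norm_num) (by norm_num) (by norm_num)) (expm_le (by norm_num) (by norm_num) (by norm_num)) (by norm_num)
    (by norm_num) (by norm_num) (by norm_num) (by norm_num) (by norm_num) (by norm_num)
  have hy2 : sy κ t ≤ -0.458 := syL_le h 0.6 0.65 0.73839 0.458 0.63254 0.63255 0.44569 0.48285 hk1 hk2 (by linarith) (by norm_num) (by norm_num) (by norm_num)
    (expm_ge (by norm_num) (by norm_num) (by norm_num) (by norm_num)) (expm_le (by norm_num) (by norm_num) (by norm_num)) (by norm_num)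
    (by norm_num) (by norm_num) (by norm_num) (by norm_num) (by norm_num) (by norm_num)
  exact ⟨hy1, hy2⟩

theorem pc7 {β r h t κ : ℝ} (hh : h = 2 * Real.pi / (3 : ℕ)) (hβ : 0 < β) (hr : 10 ≤ r) (hκ : κ = β * r)
    (hk1 : 0.6 ≤ κ) (hk2 : κ ≤ 0.65) (hT1 : 1.33 ≤ t + κ) (hT2 : t + κ ≤ 1.356) :
    Xf β r h t 0 ≠ 0 ∧ r * 0.1963 ≤ (Ld β r h t 1 - Ld β r h t 0).im ∧
      ‖(((-1 : ℤ) : ℂ) - 1) * Ld β r h t 0 - ((-1 : ℤ) : ℂ) * Ld β r h t 1‖ ≤ r * 7.52 := by
  obtain ⟨q1, q2, q3⟩ := b3_h hh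
  have hR0 := b3_R0 hβ hr hκ
  have hR := b3_R hβ hr hκ (by linarith)
  have hD1 : DomR κ t := b3_dom (by linarith) (by linarith) (Or.inl (by linarith))
  have hD0 : DomR κ (t - h) := b3_dom (by linarith) (by linarith) (Or.inl (by linarith))
  have y1 := yA7 hD1 hk1 hk2 (by linarith) (by linarith)
  have y0 := yB7 hD0 hk1 hk2 (by linarith) (by linarith)
  have j1 := T3_13_d1_2 hD1 hβ hk1 hk2 (by linarith) (by linarith) hR0 hR
  exact b3_piece 0.6 0.65 0.341 0.374 0.357 0.69977 0.71106 0.68798 0.4622 1.8639 1.948 0.04 0.07 0.07 1.8818 0.6371 0 0 (-0.49) (-0.458) (-0.474) 1.6064 1.63232 1.0611 0.9787 0.06 0.255 0.185 5.2148 5.5934 0.0538 0.0584 0.1963 7.52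
    hβ hr hκ (by norm_num) hk1 hk2 hD1 hD0 j1 (j1 _ (by rw [sub_self, norm_zero]; norm_num))
    (T3_13_d0_2 hD0 hβ hk1 hk2 (by linarith) (by linarith) hR0 hR)
    (T3_13_p0 hD0 hβ hk1 hk2 (by linarith) (by linarith) hR0 hR)
    y1.1 y1.2 y0.1 y0.2 (by norm_num)
    (ex_um 0.341 (by norm_num) (by norm_num) (by norm_num) (by norm_num)) (ex_um 0.374 (by norm_num) (by norm_num) (by norm_num) (by norm_num)) (ex_lm 0.357 (by norm_num) (by norm_num) (by norm_num) (by norm_num) (by norm_num)) (by norm_num) (by norm_num) (by norm_num) (by norm_num) (by norm_num) (by norm_num) (by norm_num) (by norm_num)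
    (by norm_num) (by norm_num) (by norm_num) (by norm_num) (by norm_num) (by norm_num) (by norm_num) (by norm_num) (by norm_num) (by norm_num)
    (ex_up 0.49 (by norm_num) (by norm_num) (by norm_num) (by norm_num)) (ex_lp 0.474 (by norm_num) (by norm_num) (by norm_num)) (by norm_num) (by norm_num) (by norm_num) (by norm_num) (by norm_num) (by norm_num)
    (by norm_num) (by norm_num) (by norm_num) (by norm_num) (by norm_num) (by norm_num) (by norm_num) (by norm_num) (by norm_num) (by norm_num) (by norm_num)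
    (by norm_num) (by norm_num) (by norm_num) (by norm_num)

private theorem yA8 {κ t : ℝ} (h : DomR κ t) (hk1 : 0.6 ≤ κ) (hk2 : κ ≤ 0.65) (ht1 : 1.356 ≤ t + κ) (ht2 : t + κ ≤ 1.382) :
    0.341 ≤ sy κ t ∧ sy κ t ≤ 0.377 := by
  have hy1 : 0.341 ≤ sy κ t := syR_ge h 0.6 0.65 1.356 0.341 1.40635 1.40636 0.73779 0.79929 hk1 hk2 (by linarith) (by norm_num) (by norm_num)
    (expn_ge (by norm_num) (by norm_num)) (expn_le (by norm_num) (by norm_num) (by norm_num)) (by norm_num)
    (by norm_num) (by norm_num) (by norm_num) (by norm_num) (by norm_num) (by norm_num)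
  have hy2 : sy κ t ≤ 0.377 := syR_ang2 h 0.6 0.65 1.382 1.007 0.5359 0.8455 0.377 0.68592 1.4579 hk1 hk2 (by linarith) (by norm_num) (by norm_num) (by norm_num)
    (cos_le_num (by norm_num)) (sin_le_num (by norm_num) (by norm_num)) (expm_le (by norm_num) (by norm_num) (by norm_num))
    (expn_ge (by norm_num) (by norm_num)) (by norm_num) (by norm_num) (by norm_num) (by norm_num) (by norm_num)
  exact ⟨hy1, hy2⟩

private theorem yB8 {κ t : ℝ} (h : DomR κ t) (hk1 : 0.6 ≤ κ) (hk2 : κ ≤ 0.65) (ht1 : -0.7384 ≤ t + κ) (ht2 : t + κ ≤ -0.71239) :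
    (-0.467) ≤ sy κ t ∧ sy κ t ≤ (-0.437) := by
  have hy1 : -0.467 ≤ sy κ t := syL_ge h 0.6 0.65 0.7384 0.467 0.62688 0.62689 0.4628 0.45038 0.48793 hk1 hk2 (by linarith) (by norm_num) (by norm_num) (by norm_num)
    (expm_ge (by norm_num) (by norm_num) (by norm_num) (by norm_num)) (expm_le (by norm_num) (by norm_num) (by norm_num)) (by norm_num)
    (by norm_num) (by norm_num) (by norm_num) (by norm_num) (by norm_num) (by norm_num)
  have hy2 : sy κ t ≤ -0.437 := syL_le h 0.6 0.65 0.71239 0.437 0.64597 0.64598 0.43429 0.47049 hk1 hk2 (by linarith) (by norm_num) (by norm_num) (by norm_num)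
    (expm_ge (by norm_num) (by norm_num) (by norm_num) (by norm_num)) (expm_le (by norm_num) (by norm_num) (by norm_num)) (by norm_num)
    (by norm_num) (by norm_num) (by norm_num) (by norm_num) (by norm_num) (by norm_num)
  exact ⟨hy1, hy2⟩

theorem pc8 {β r h t κ : ℝ} (hh : h = 2 * Real.pi / (3 : ℕ)) (hβ : 0 < β) (hr : 10 ≤ r) (hκ : κ = β * r)
    (hk1 : 0.6 ≤ κ) (hk2 : κ ≤ 0.65) (hT1 : 1.356 ≤ t + κ) (hT2 : t + κ ≤ 1.382) :
    Xf β r h t 0 ≠ 0 ∧ r * 0.1963 ≤ (Ld β r h t 1 - Ld β r h t 0).im ∧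
      ‖(((-1 : ℤ) : ℂ) - 1) * Ld β r h t 0 - ((-1 : ℤ) : ℂ) * Ld β r h t 1‖ ≤ r * 7.52 := by
  obtain ⟨q1, q2, q3⟩ := b3_h hh
  have hR0 := b3_R0 hβ hr hκ
  have hR := b3_R hβ hr hκ (by linarith)
  have hD1 : DomR κ t := b3_dom (by linarith) (by linarith) (Or.inl (by linarith))
  have hD0 : DomR κ (t - h) := b3_dom (by linarith) (by linarith) (Or.inl (by linarith))
  have y1 := yA8 hD1 hk1 hk2 (by linarith) (by linarith)
  have y0 := yB8 hD0 hk1 hk2 (by linarith) (by linarith)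
  have j1 := T3_13_d1_2 hD1 hβ hk1 hk2 (by linarith) (by linarith) hR0 hR
  exact b3_piece 0.6 0.65 0.341 0.377 0.359 0.69837 0.71106 0.68592 0.4622 1.8639 1.9528 0.04 0.07 0.07 1.8818 0.6371 0 0 (-0.467) (-0.437) (-0.452) 1.57145 1.59521 1.0369 0.9816 0.06 0.255 0.185 5.2148 5.4577 0.0736 0.0778 0.1963 7.52
    hβ hr hκ (by norm_num) hk1 hk2 hD1 hD0 j1 (j1 _ (by rw [sub_self, norm_zero]; norm_num))
    (T3_13_d0_2 hD0 hβ hk1 hk2 (by linarith) (by linarith) hR0 hR)
    (T3_13_p0 hD0 hβ hk1 hk2 (by linarith) (by linarith) hR0 hR)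
    y1.1 y1.2 y0.1 y0.2 (by norm_num)
    (ex_um 0.341 (by norm_num) (by norm_num) (by norm_num) (by norm_num)) (ex_um 0.377 (by norm_num) (by norm_num) (by norm_num) (by norm_num)) (ex_lm 0.359 (by norm_num) (by norm_num) (by norm_num) (by norm_num) (by norm_num)) (by norm_num) (by norm_num) (by norm_num) (by norm_num) (by norm_num) (by norm_num) (by norm_num) (by norm_num)
    (by norm_num) (by norm_num) (by norm_num) (by norm_num) (by norm_num) (by norm_num) (by norm_num) (by norm_num) (by norm_num) (by norm_num)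
    (ex_up 0.467 (by norm_num) (by norm_num) (by norm_num) (by norm_num)) (ex_lp 0.452 (by norm_num) (by norm_num) (by norm_num)) (by norm_num) (by norm_num) (by norm_num) (by norm_num) (by norm_num) (by norm_num)
    (by norm_num) (by norm_num) (by norm_num) (by norm_num) (by norm_num) (by norm_num) (by norm_num) (by norm_num) (by norm_num) (by norm_num) (by norm_num)
    (by norm_num) (by norm_num) (by norm_num) (by norm_num)

theorem innS {β r h t κ : ℝ} (hh : h = 2 * Real.pi / (3 : ℕ)) (hβ : 0 < β) (hr : 10 ≤ r) (hκ : κ = β * r)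
    (hk1 : 0.6 ≤ κ) (hk2 : κ ≤ 0.65) (hT1 : 1.152 ≤ t + κ) (hT2 : t + κ ≤ 1.382) :
    Xf β r h t 0 ≠ 0 ∧ r * 0.1963 ≤ (Ld β r h t 1 - Ld β r h t 0).im ∧
      ‖(((-1 : ℤ) : ℂ) - 1) * Ld β r h t 0 - ((-1 : ℤ) : ℂ) * Ld β r h t 1‖ ≤ r * 7.52 := by
  rcases le_total (t + κ) 1.182 with f0 | g0
  · exact pc0 hh hβ hr hκ hk1 hk2 hT1 f0
  rcases le_total (t + κ) 1.205 with f1 | g1
  · exact pc1 hh hβ hr hκ hk1 hk2 g0 f1
  rcases le_total (t + κ) 1.229 with f2 | g2
  · exact pc2 hh hβ hr hκ hk1 hk2 g1 f2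
  rcases le_total (t + κ) 1.252 with f3 | g3
  · exact pc3 hh hβ hr hκ hk1 hk2 g2 f3
  rcases le_total (t + κ) 1.278 with f4 | g4
  · exact pc4 hh hβ hr hκ hk1 hk2 g3 f4
  rcases le_total (t + κ) 1.304 with f5 | g5
  · exact pc5 hh hβ hr hκ hk1 hk2 g4 f5
  rcases le_total (t + κ) 1.33 with f6 | g6
  · exact pc6 hh hβ hr hκ hk1 hk2 g5 f6
  rcases le_total (t + κ) 1.356 with f7 | g7
  · exact pc7 hh hβ hr hκ hk1 hk2 g6 f7
  exact pc8 hh hβ hr hκ hk1 hk2 g7 hT2

theorem circ {p : ℤ} (hp : IsCoprime (3 : ℤ) p) {β r : ℝ} (hβ : 0 < β) (hr : 10 ≤ r) (hk1 : 0.6 ≤ β * r)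
    (hk2 : β * r ≤ 0.65) : Circ (2 * Real.pi * p / (3 : ℕ) + β) r := by
  obtain ⟨κ, hκ⟩ : ∃ κ, κ = β * r := ⟨_, rfl⟩
  rw [← hκ] at hk1 hk2
  refine circ3 hp hr (h := 2 * Real.pi / (3 : ℕ)) (κ := κ) rfl 1.152 1.382 1.0091 0.1963 0.00406 0.00406 7.52 (by norm_num) (by norm_num) (by norm_num)
    (by norm_num) (by norm_num) ?_ ?_ ?_ ?_ ?_ (by norm_num) (by norm_num)
  · intro t h1 h2
    exact (innS rfl hβ hr hκ hk1 hk2 h1 h2).1
  · intro t h1 h2
    exact (innE rfl hβ hr hκ hk1 hk2 h1 h2).1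
  · intro t h1 h2
    exact (innE rfl hβ hr hκ hk1 hk2 h1 h2).2
  · intro t h1 h2
    exact (innS rfl hβ hr hκ hk1 hk2 h1 h2).2
  · intro t h1 h2 h3
    rcases h3 with h3 | h3
    · rcases le_total (t + κ) 1.144 with g | g
      · exact left rfl hβ hr hκ hk1 hk2 h1 g
      · exact middle rfl hβ hr hκ hk1 hk2 g h3
    · exact right0 rfl hβ hr hκ hk1 hk2 h3 h2

end B3_13

end Sok
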