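import Pool.Agent.Lib.MP_816dec_an.R1b3D
import Pool.Agent.Lib.MP_816dec_an.R1b3J14

/-!
MP_816dec_an (A3, row R1, b = 3): the cell `0.65 ≤ κ ≤ 0.7`.
-/

set_option autoImplicit false
set_option maxHeartbeats 4000000
set_option linter.unusedVariables false

open Complex Set

namespace Sok

namespace B3_14

private theorem yL {κ t : ℝ} (h : DomR κ t) (hk1 : 0.65 ≤ κ) (hk2 : κ ≤ 0.7) (ht1 : 0 ≤ t + κ) (ht2 : t + κ ≤ 1.133) :
    0 ≤ sy κ t ∧ sy κ t ≤ 0.354 := by
  have hy1 : 0 ≤ sy κ t := sy_nonneg h (by linarith)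
  have hy2 : sy κ t ≤ 0.354 := syR_le h 0.65 0.7 1.133 0.354 1.42475 0.7066 0.72051 0.77595 hk1 hk2 (by linarith) (by norm_num) (by norm_num)
    (expn_ge (by norm_num) (by norm_num)) (by norm_num) (by norm_num) (Or.inr ((mul_le_mul_of_nonneg_left (expn_le (E := 1.42476) (by norm_num) (by norm_num) (by norm_num)) (by norm_num)).trans (by norm_num))) (by norm_num) (by norm_num) (by norm_num)
  exact ⟨hy1, hy2⟩

theorem left {β r h t κ : ℝ} (hh : h = 2 * Real.pi / (3 : ℕ)) (hβ : 0 < β) (hr : 10 ≤ r) (hκ : κ = β * r)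
    (hk1 : 0.65 ≤ κ) (hk2 : κ ≤ 0.7) (hT1 : 0 ≤ t + κ) (hT2 : t + κ ≤ 1.133) :
    ‖Xf β r h t (-1)‖ < |‖Xf β r h t 1‖ - ‖Xf β r h t 0‖| := by
  obtain ⟨q1, q2, q3⟩ := b3_h hh
  have hR0 := b3_R0 hβ hr hκ
  have hR := b3_R hβ hr hκ (by linarith)
  have hD1 : DomR κ t := b3_dom (by linarith) (by linarith) (Or.inl (by linarith))
  have hy := yL hD1 hk1 hk2 (by linarith) (by linarith)
  have hY : 0.8166 * Real.exp (r * 0.66171) ≤ ‖Xf β r h t 1‖ :=
    b3_lo hβ hr hκ (k := 1) (t' := t) (by push_cast; ring) hD1 0.035 1.9494 0.8166 0.66171 (by norm_num)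
      (T3_14_p1 hD1 hβ hk1 hk2 (by linarith) (by linarith) hR0 hR)
      (v5_Dup hD1 0.7 0 0.354 1 0.70188 1.9494 hk2 hy.1 hy.2 (ex_up 0 (by norm_num) (by norm_num) (by norm_num) (by norm_num)) (ex_um 0.354 (by norm_num) (by norm_num) (by norm_num) (by norm_num)) (by norm_num) (by norm_num) (by norm_num)) (by norm_num) (by norm_num)
      (b3_Vlo hD1 0.65 0.7 0 1.133 0.5 (-0.69314) 0.808 0.69094 0.36971 0.66171 hk1 hk2 (by linarith) (by linarith) (by norm_num) (ex_lm 0.69314 (by norm_num) (by norm_num) (by norm_num) (by norm_num) (by norm_num)) (by norm_num) (by norm_num) (by norm_num) (by norm_num) (by norm_num) (by norm_num) (by norm_num) (by norm_num) (ex_um 0.36971 (by norm_num) (by norm_num) (by norm_num) (by norm_num)) (by norm_num))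
  have h0 : ‖Xf β r h t 0‖ ≤ 0.8348 * ‖Xf β r h t 1‖ :=
    b3_cmp 0.5597 0.05834 0.002205 0.61171 0.829269 0.005471 0.8348 hr (b3_HU0 0.93 0.65 0.7 (-2.0944) (-0.96139) 1.49746 1.83034 1.91746 0.54635 0.52153 1.83033 1.2099 0.10556 0.94913 1.9176 0 0.05 0.000001 2.0259 0.60337 hβ hr hκ (by norm_num) hk1 hk2 (by norm_num) (by linarith) (by linarith) (by norm_num) (by norm_num) (ex_up 0.6045 (by norm_num) (by norm_num) (by norm_num) (by norm_num)) (ex_up 0.651 (by norm_num) (by norm_num) (by norm_num) (by norm_num)) (ex_um 0.6045 (by norm_num) (by norm_num) (by norm_num) (by norm_num)) (ex_um 0.651 (by norm_num) (by norm_num) (by norm_num) (by norm_num)) (by norm_num) (by norm_num) (ex_lp 0.6045 (by norm_num) (by norm_num) (by norm_num)) (by norm_num) (by norm_num) (by norm_num) (by norm_num) (by norm_num) (by norm_num) (by norm_num) (by norm_num) (by norm_num) (by norm_num) (by norm_num) (by norm_num) (by norm_num) (by norm_num) (v5_hump 5.4705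 14.285 3.7796 0.0000003148 0.000001 hβ hr hκ hk1 hk2 (by norm_num) (tb := (-0.96139)) (by linarith) (by norm_num) (by norm_num) (by norm_num) (by norm_num) (by norm_num) (by norm_num) (by norm_num) (ex_un 14 0.99 (by norm_num) (by norm_num) (by norm_num) (by norm_num)) (by norm_num)) (by norm_num) (by norm_num)) hY (by norm_num) (by norm_num) (by norm_num) (by norm_num) (by norm_num) (ex_un 0 0.5834 (by norm_num) (by norm_num) (by norm_num) (by norm_num)) (by norm_num) (by norm_num) (by norm_num) (ex_un 6 0.1171 (by norm_num) (by norm_num) (by norm_num) (by norm_num)) (by norm_num) (by norm_num)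
  have h2 : ‖Xf β r h t (-1)‖ ≤ 0.0465 * ‖Xf β r h t 1‖ := by
    rcases le_total ((t + h) + κ) 2.17 with g0 | g0
    · exact b3_cmp 0.005319 0.52367 0.001343 0.66171 0.026773 0.000233 0.0465 hr ((b3_Xm hh).trans_le (b3_HF 0.58 0.65 0.7 2.09439 2.17 1.35278 0.68592 0.66632 1.45791 1.50081 0.66631 2.6526 0.10556 2.96509 0.0507 0.03571 0.7001 0.000001 4.1103 0.1412 0.13804 hβ hr hκ (by norm_num) hk1 hk2 (by norm_num) (by linarith) (by linarith) (by norm_num) (ex_um 0.377 (by norm_num) (by norm_num) (by norm_num) (by norm_num)) (ex_um 0.406 (by norm_num) (by norm_num) (by norm_num) (by norm_num)) (ex_up 0.377 (by norm_num) (by norm_num) (by norm_num) (by norm_num)) (ex_up 0.406 (by norm_num) (by norm_num) (by norm_num) (by norm_num)) (by norm_num) (by norm_num) (ex_lm 0.406 (by norm_num) (by norm_num) (by norm_num) (by norm_num) (by norm_num)) (by norm_num) (by norm_num) (by norm_num) (by norm_num) (by norm_num) (by norm_num) (by norm_num) (by norm_num)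 (by norm_num) (by norm_num) (by norm_num) (by norm_num) (ex_un 0 0.3571 (by norm_num) (by norm_num) (by norm_num) (by norm_num)) (v5_hump 2.3391 14.285 3.7796 0.0000003148 0.000001 hβ hr hκ hk1 hk2 (by norm_num) (tb := 2.17) (by linarith) (by norm_num) (by norm_num) (by norm_num) (by norm_num) (by norm_num) (by norm_num) (by norm_num) (ex_un 14 0.99 (by norm_num) (by norm_num) (by norm_num) (by norm_num)) (by norm_num)) (by norm_num) (by norm_num) (by norm_num))) hY (by norm_num) (by norm_num) (by norm_num) (by norm_num) (by norm_num) (ex_un 5 0.2367 (by norm_num) (by norm_num) (by norm_num) (by norm_num)) (by norm_num) (by norm_num) (by norm_num) (ex_un 6 0.6171 (by norm_num) (by norm_num) (by norm_num) (by norm_num)) (by norm_num) (by norm_num)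
    exact b3_cmp 1 0 0.009919 0.46171 0 0.046428 0.0465 hr (b3_w (b3_UD 0.65 0.7 2.17 3.2274 0.15 0.49484 0.15 1.9927 3.8222 0.2 hh hβ hr hκ (by norm_num) hk1 hk2 (by linarith) (by linarith) (by norm_num) (by norm_num) (by norm_num) (by norm_num) (by norm_num) (by norm_num) (by norm_num) (by norm_num) (by norm_num) (by norm_num) (by norm_num) (by norm_num) (by norm_num))) hY (by norm_num) (by norm_num) (by norm_num) (by norm_num) (by norm_num) (by norm_num) (by norm_num) (by norm_num) (by norm_num) (ex_un 4 0.6171 (by norm_num) (by norm_num) (by norm_num) (by norm_num)) (by norm_num) (by norm_num)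
  exact b3_out1 0.8348 0.0465 hY (by norm_num) h0 h2 (by norm_num)

private theorem yR0 {κ t : ℝ} (h : DomR κ t) (hk1 : 0.65 ≤ κ) (hk2 : κ ≤ 0.7) (ht1 : -0.7124 ≤ t + κ) (ht2 : t + κ ≤ 0.0001) :
    (-0.446) ≤ sy κ t ∧ sy κ t ≤ 0.005 := by
  have hy1 : -0.446 ≤ sy κ t := syL_ge h 0.65 0.7 0.7124 0.446 0.64018 0.64019 0.4209 0.40788 0.43927 hk1 hk2 (by linarith) (by norm_num) (by norm_num) (by norm_num)
    (expm_ge (by norm_num) (by norm_num) (by norm_num) (by norm_num)) (expm_le (by norm_num) (by norm_num) (by norm_num)) (by norm_num)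
    (by norm_num) (by norm_num) (by norm_num) (by norm_num) (by norm_num) (by norm_num)
  have hy2 : sy κ t ≤ 0.005 := syR_le h 0.65 0.7 0.0001 0.005 1.00501 0.007 0.00717 0.00774 hk1 hk2 (by linarith) (by norm_num) (by norm_num)
    (expn_ge (by norm_num) (by norm_num)) (by norm_num) (by norm_num) (Or.inr ((mul_le_mul_of_nonneg_left (expn_le (E := 1.00502) (by norm_num) (by norm_num) (by norm_num)) (by norm_num)).trans (by norm_num))) (by norm_num) (by norm_num) (by norm_num)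
  exact ⟨hy1, hy2⟩

theorem right0 {β r h t κ : ℝ} (hh : h = 2 * Real.pi / (3 : ℕ)) (hβ : 0 < β) (hr : 10 ≤ r) (hκ : κ = β * r)
    (hk1 : 0.65 ≤ κ) (hk2 : κ ≤ 0.7) (hT1 : 1.382 ≤ t + κ) (hT2 : t + κ ≤ h) :
    ‖Xf β r h t (-1)‖ < |‖Xf β r h t 1‖ - ‖Xf β r h t 0‖| := by
  obtain ⟨q1, q2, q3⟩ := b3_h hh
  have hR0 := b3_R0 hβ hr hκ
  have hR := b3_R hβ hr hκ (by linarith)
  have hD0 : DomR κ (t - h) := b3_dom (by linarith) (by linarith) (Or.inl (by linarith))
  have hy := yR0 hD0 hk1 hk2 (by linarith) (by linarith)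
  have hY : 0.8274 * Real.exp (r * 0.78048) ≤ ‖Xf β r h t 0‖ :=
    b3_lo hβ hr hκ (k := 0) (t' := t - h) (by push_cast; ring) hD0 0.085 1.4952 0.8274 0.78048 (by norm_num)
      (T3_14_p0R hD0 hβ hk1 hk2 (by linarith) (by linarith) hR0 hR)
      (v5_Dup hD0 0.7 (-0.446) 0.005 1.56206 0.99502 1.4952 hk2 hy.1 hy.2 (ex_up 0.446 (by norm_num) (by norm_num) (by norm_num) (by norm_num)) (ex_um 0.005 (by norm_num) (by norm_num) (by norm_num) (by norm_num)) (by norm_num) (by norm_num) (by norm_num)) (by norm_num) (by norm_num)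
      (b3_Vlo hD0 0.65 0.7 (-0.7124) 0.0001 1.4 0.33648 0.4524 0.8994 0.10603 0.78048 hk1 hk2 (by linarith) (by linarith) (by norm_num) (ex_lp 0.33648 (by norm_num) (by norm_num) (by norm_num)) (by norm_num) (by norm_num) (by norm_num) (by norm_num) (by norm_num) (by norm_num) (by norm_num) (by norm_num) (ex_um 0.10603 (by norm_num) (by norm_num) (by norm_num) (by norm_num)) (by norm_num))
  have h1 : ‖Xf β r h t 1‖ ≤ 0.2809 * ‖Xf β r h t 0‖ := by
    rcases le_total (t + κ) 1.92 with g0 | g0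
    · exact b3_cmp 0.1021 0.22821 0.0004116 0.78048 0.280757 0.000076 0.2809 hr (b3_X1.trans_le (b3_HF 0.5 0.65 0.7 1.382 1.92 1.24327 0.72253 0.70469 1.38404 1.41907 0.70468 2.1558 0.10556 2.2527 0.3007 0.10787 0.3401 0.000001 2.2752 0.1525 0.55227 hβ hr hκ (by norm_num) hk1 hk2 (by norm_num) (by linarith) (by linarith) (by norm_num) (ex_um 0.325 (by norm_num) (by norm_num) (by norm_num) (by norm_num)) (ex_um 0.35 (by norm_num) (by norm_num) (by norm_num) (by norm_num)) (ex_up 0.325 (by norm_num) (by norm_num) (by norm_num) (by norm_num)) (ex_up 0.35 (by norm_num) (by norm_num) (by norm_num) (by norm_num)) (by norm_num) (by norm_num) (ex_lm 0.35 (by norm_num) (by norm_num) (by norm_num) (by norm_num) (by norm_num)) (by norm_num) (by norm_num) (by norm_num) (by norm_num) (by norm_num) (by norm_num) (by norm_num) (by norm_num) (by norm_num) (by norm_num) (by norm_num) (by norm_num) (ex_un 1 0.0787 (by norm_num) (by norm_num) (by norm_num) (by norm_num))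 (v5_hump 2.5891 14.285 3.7796 0.0000003148 0.000001 hβ hr hκ hk1 hk2 (by norm_num) (tb := 1.92) (by linarith) (by norm_num) (by norm_num) (by norm_num) (by norm_num) (by norm_num) (by norm_num) (by norm_num) (ex_un 14 0.99 (by norm_num) (by norm_num) (by norm_num) (by norm_num)) (by norm_num)) (by norm_num) (by norm_num) (by norm_num))) hY (by norm_num) (by norm_num) (by norm_num) (by norm_num) (by norm_num) (ex_un 2 0.2821 (by norm_num) (by norm_num) (by norm_num) (by norm_num)) (by norm_num) (by norm_num) (by norm_num) (ex_un 7 0.8048 (by norm_num) (by norm_num) (by norm_num) (by norm_num)) (by norm_num) (by norm_num)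
    exact b3_cmp 1 0 0.03672 0.33048 0 0.180161 0.2809 hr (b3_w (b3_UD1 0.65 0.7 1.92 2.0944 0.4 0.49484 0.4 2.1164 4.0595 0.45 hβ hr hκ (by norm_num) hk1 hk2 (by linarith) (by linarith) (by norm_num) (by norm_num) (by norm_num) (by norm_num) (by norm_num) (by norm_num) (by norm_num) (by norm_num) (by norm_num) (by norm_num) (by norm_num) (by norm_num) (by norm_num))) hY (by norm_num) (by norm_num) (by norm_num) (by norm_num) (by norm_num) (by norm_num) (by norm_num) (by norm_num) (by norm_num) (ex_un 3 0.3048 (by norm_num) (by norm_num) (by norm_num) (by norm_num)) (by norm_num) (by norm_num)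
  have h2 : ‖Xf β r h t (-1)‖ ≤ 0.0005 * ‖Xf β r h t 0‖ := by
    exact b3_cmp 1 0 0.0006725 0.73048 0 0.000413 0.0005 hr ((b3_Xm hh).trans_le (b3_U1 0.65 0.7 3.47639 4.1888 1.20559 0.10556 0.94913 0.9221 0.00002 0.3973 0.016683 0.508 hβ hr hκ (by norm_num) hk1 hk2 (by linarith) (by linarith) (by norm_num) (by norm_num) (by norm_num) (by norm_num) (by norm_num) (by norm_num) (by norm_num) (by norm_num) (by norm_num) (by norm_num) (by norm_num) (by norm_num) (by norm_num) (ex_un 9 0.221 (by norm_num) (by norm_num) (by norm_num) (by norm_num)) (v5_hump 0.3203 14.285 3.7796 0.01034 0.016683 hβ hr hκ hk1 hk2 (by norm_num) (tb := 4.1888) (by linarith) (by norm_num) (by norm_num) (by norm_num) (by norm_num) (by norm_num) (by norm_num) (by norm_num) (ex_un 4 0.5754 (by norm_num) (by norm_num) (by norm_num) (by norm_num)) (by norm_num)) (by norm_num))) hY (by norm_num) (by norm_num) (by norm_num) (by norm_num) (by norm_num) (by norm_num) (by norm_num)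 (by norm_num) (by norm_num) (ex_un 7 0.3048 (by norm_num) (by norm_num) (by norm_num) (by norm_num)) (by norm_num) (by norm_num)
  exact b3_out0 0.2809 0.0005 hY (by norm_num) h1 h2 (by norm_num)

private theorem yI {κ t : ℝ} (h : DomR κ t) (hk1 : 0.65 ≤ κ) (hk2 : κ ≤ 0.7) (ht1 : -0.9614 ≤ t + κ) (ht2 : t + κ ≤ -0.71239) :
    (-0.658) ≤ sy κ t ∧ sy κ t ≤ (-0.44) := by
  have hy1 : -0.658 ≤ sy κ t := syL_ge h 0.65 0.7 0.9614 0.658 0.51788 0.51789 0.5055 0.4868 0.52427 hk1 hk2 (by linarith) (by norm_num) (by norm_num) (by norm_num)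
    (expm_ge (by norm_num) (by norm_num) (by norm_num) (by norm_num)) (expm_le (by norm_num) (by norm_num) (by norm_num)) (by norm_num)
    (by norm_num) (by norm_num) (by norm_num) (by norm_num) (by norm_num) (by norm_num)
  have hy2 : sy κ t ≤ -0.44 := syL_le h 0.65 0.7 0.71239 0.44 0.64403 0.64404 0.40481 0.43597 hk1 hk2 (by linarith) (by norm_num) (by norm_num) (by norm_num)
    (expm_ge (by norm_num) (by norm_num) (by norm_num) (by norm_num)) (expm_le (by norm_num) (by norm_num) (by norm_num)) (by norm_num)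
    (by norm_num) (by norm_num) (by norm_num) (by norm_num) (by norm_num) (by norm_num)
  exact ⟨hy1, hy2⟩

theorem innE {β r h t κ : ℝ} (hh : h = 2 * Real.pi / (3 : ℕ)) (hβ : 0 < β) (hr : 10 ≤ r) (hκ : κ = β * r)
    (hk1 : 0.65 ≤ κ) (hk2 : κ ≤ 0.7) (hT1 : 1.133 ≤ t + κ) (hT2 : t + κ ≤ 1.382) :
    ‖Xf β r h t (-1)‖ ≤ 0.0038 * ‖Xf β r h t 0‖ ∧ ‖Xf β r h (t + β) (-1)‖ ≤ 0.0038 * ‖Xf β r h t 0‖ := by
  obtain ⟨q1, q2, q3⟩ := b3_h hh
  have hR0 := b3_R0 hβ hr hκ
  have hR := b3_R hβ hr hκ (by linarith)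
  have hD0 : DomR κ (t - h) := b3_dom (by linarith) (by linarith) (Or.inl (by linarith))
  have hy := yI hD0 hk1 hk2 (by linarith) (by linarith)
  have hY : 0.735 * Real.exp (r * 0.57159) ≤ ‖Xf β r h t 0‖ :=
    b3_lo hβ hr hκ (k := 0) (t' := t - h) (by push_cast; ring) hD0 0.185 1.511 0.735 0.57159 (by norm_num)
      (T3_14_p0 hD0 hβ hk1 hk2 (by linarith) (by linarith) hR0 hR)
      (v5_Dup hD0 0.7 (-0.658) (-0.44) 1.93093 1.55271 1.511 hk2 hy.1 hy.2 (ex_up 0.658 (by norm_num) (by norm_num) (by norm_num) (by norm_num)) (ex_up 0.44 (by norm_num) (by norm_num) (by norm_num) (by norm_num)) (by norm_num) (by norm_num) (by norm_num)) (by norm_num) (by norm_num)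
      (b3_Vlo hD0 0.65 0.7 (-0.9614) (-0.71239) 1.63 0.48859 0.5519 0.85152 0.16074 0.57159 hk1 hk2 (by linarith) (by linarith) (by norm_num) (ex_lp 0.48859 (by norm_num) (by norm_num) (by norm_num)) (by norm_num) (by norm_num) (by norm_num) (by norm_num) (by norm_num) (by norm_num) (by norm_num) (by norm_num) (ex_um 0.16074 (by norm_num) (by norm_num) (by norm_num) (by norm_num)) (by norm_num))
  constructor
  · exact b3_cmp 1 0 0.00543 0.52159 0 0.003799 0.0038 hr ((b3_Xm hh).trans_le (b3_U1 0.65 0.7 3.22739 3.4764 0.95659 0.10556 0.94913 0.8171 0.00004 0.6143 0.000001 0.5142 hβ hr hκ (by norm_num) hk1 hk2 (by linarith) (by linarith) (by norm_num) (by norm_num) (by norm_num) (by norm_num) (by norm_num) (by norm_num) (by norm_num) (by norm_num) (by norm_num) (by norm_num) (by norm_num) (by norm_num) (by norm_num) (ex_un 8 0.171 (by norm_num) (by norm_num) (by norm_num) (by norm_num)) (v5_hump 1.0327 14.285 3.7796 0.0000003949 0.000001 hβ hr hκ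 hk1 hk2 (by norm_num) (tb := 3.4764) (by linarith) (by norm_num) (by norm_num) (by norm_num) (by norm_num) (by norm_num) (by norm_num) (by norm_num) (ex_un 14 0.7521 (by norm_num) (by norm_num) (by norm_num) (by norm_num)) (by norm_num)) (by norm_num))) hY (by norm_num) (by norm_num) (by norm_num) (by norm_num) (by norm_num) (by norm_num) (by norm_num) (by norm_num) (by norm_num) (ex_un 5 0.2159 (by norm_num) (by norm_num) (by norm_num) (by norm_num)) (by norm_num) (by norm_num)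
  · exact b3_cmp 1 0 0.00543 0.52159 0 0.003799 0.0038 hr ((b3_Xm hh).trans_le (b3_U1 0.65 0.7 3.22739 3.5464 0.95659 0.10556 0.94913 0.8171 0.00004 0.6143 0.000002 0.5142 hβ hr hκ (by norm_num) hk1 hk2 (by linarith) (by linarith) (by norm_num) (by norm_num) (by norm_num) (by norm_num) (by norm_num) (by norm_num) (by norm_num) (by norm_num) (by norm_num) (by norm_num) (by norm_num) (by norm_num) (by norm_num) (ex_un 8 0.171 (by norm_num) (by norm_num) (by norm_num) (by norm_num)) (v5_hump 0.9627 14.285 3.7796 0.000001074 0.000002 hβ hr hκ hk1 hk2 (by norm_num) (tb := 3.5464) (by linarith) (by norm_num) (by norm_num) (by norm_num) (by norm_num) (by norm_num) (by norm_num) (by norm_num) (ex_un 13 0.7521 (by norm_num) (by norm_num) (by norm_num) (by norm_num)) (by norm_num)) (by norm_num))) hY (by norm_num) (by norm_num) (by norm_num) (by norm_num) (by norm_num) (by norm_num) (by norm_num) (by norm_num) (by norm_num) (ex_un 5 0.2159 (by norm_num)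 (by norm_num) (by norm_num) (by norm_num)) (by norm_num) (by norm_num)

private theorem yA0 {κ t : ℝ} (h : DomR κ t) (hk1 : 0.65 ≤ κ) (hk2 : κ ≤ 0.7) (ht1 : 1.133 ≤ t + κ) (ht2 : t + κ ≤ 1.163) :
    0.332 ≤ sy κ t ∧ sy κ t ≤ 0.359 := by
  have hy1 : 0.332 ≤ sy κ t := syR_ge h 0.65 0.7 1.133 0.332 1.39375 1.39376 0.66103 0.71189 hk1 hk2 (by linarith) (by norm_num) (by norm_num)
    (expn_ge (by norm_num) (by norm_num)) (expn_le (by norm_num) (by norm_num) (by norm_num)) (by norm_num)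
    (by norm_num) (by norm_num) (by norm_num) (by norm_num) (by norm_num) (by norm_num)
  have hy2 : sy κ t ≤ 0.359 := syR_ang2 h 0.65 0.7 1.163 0.824 0.6798 0.734 0.359 0.69838 1.43189 hk1 hk2 (by linarith) (by norm_num) (by norm_num) (by norm_num)
    (cos_le_num (by norm_num)) (sin_le_num (by norm_num) (by norm_num)) (expm_le (by norm_num) (by norm_num) (by norm_num))
    (expn_ge (by norm_num) (by norm_num)) (by norm_num) (by norm_num) (by norm_num) (by norm_num) (by norm_num)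
  exact ⟨hy1, hy2⟩

private theorem yB0 {κ t : ℝ} (h : DomR κ t) (hk1 : 0.65 ≤ κ) (hk2 : κ ≤ 0.7) (ht1 : -0.9614 ≤ t + κ) (ht2 : t + κ ≤ -0.93139) :
    (-0.658) ≤ sy κ t ∧ sy κ t ≤ (-0.609) := by
  have hy1 : -0.658 ≤ sy κ t := syL_ge h 0.65 0.7 0.9614 0.658 0.51788 0.51789 0.5055 0.4868 0.52427 hk1 hk2 (by linarith) (by norm_num) (by norm_num) (by norm_num)
    (expm_ge (by norm_num) (by norm_num) (by norm_num) (by norm_num)) (expm_le (by norm_num) (by norm_num) (by norm_num)) (by norm_num)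
    (by norm_num) (by norm_num) (by norm_num) (by norm_num) (by norm_num) (by norm_num)
  have hy2 : sy κ t ≤ -0.609 := syL_le h 0.65 0.7 0.93139 0.609 0.54389 0.5439 0.47318 0.5096 hk1 hk2 (by linarith) (by norm_num) (by norm_num) (by norm_num)
    (expm_ge (by norm_num) (by norm_num) (by norm_num) (by norm_num)) (expm_le (by norm_num) (by norm_num) (by norm_num)) (by norm_num)
    (by norm_num) (by norm_num) (by norm_num) (by norm_num) (by norm_num) (by norm_num)
  exact ⟨hy1, hy2⟩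

theorem pc0 {β r h t κ : ℝ} (hh : h = 2 * Real.pi / (3 : ℕ)) (hβ : 0 < β) (hr : 10 ≤ r) (hκ : κ = β * r)
    (hk1 : 0.65 ≤ κ) (hk2 : κ ≤ 0.7) (hT1 : 1.133 ≤ t + κ) (hT2 : t + κ ≤ 1.163) :
    Xf β r h t 0 ≠ 0 ∧ r * 0.1945 ≤ (Ld β r h t 1 - Ld β r h t 0).im ∧
      ‖(((-1 : ℤ) : ℂ) - 1) * Ld β r h t 0 - ((-1 : ℤ) : ℂ) * Ld β r h t 1‖ ≤ r * 7.32 := by
  obtain ⟨q1, q2, q3⟩ := b3_h hh
  have hR0 := b3_R0 hβ hr hκ
  have hR := b3_R hβ hr hκ (by linarith)
  have hD1 : DomR κ t := b3_dom (by linarith) (by linarith) (Or.inl (by linarith))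
  have hD0 : DomR κ (t - h) := b3_dom (by linarith) (by linarith) (Or.inl (by linarith))
  have y1 := yA0 hD1 hk1 hk2 (by linarith) (by linarith)
  have y0 := yB0 hD0 hk1 hk2 (by linarith) (by linarith)
  have j1 := T3_14_d1_0 hD1 hβ hk1 hk2 (by linarith) (by linarith) hR0 hR
  exact b3_piece 0.65 0.7 0.332 0.359 0.345 0.70822 0.71749 0.69838 0.5023 1.8814 1.957 0.08 0.075 0.075 1.0136 0.3712 0 0 (-0.658) (-0.609) (-0.633) 1.88324 1.93093 1.3517 1.2085 0.04 0.295 0.185 9.0491 11.1266 0 0 0.1945 7.32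
    hβ hr hκ (by norm_num) hk1 hk2 hD1 hD0 j1 (j1 _ (by rw [sub_self, norm_zero]; norm_num))
    (T3_14_d0_0 hD0 hβ hk1 hk2 (by linarith) (by linarith) hR0 hR)
    (T3_14_p0 hD0 hβ hk1 hk2 (by linarith) (by linarith) hR0 hR)
    y1.1 y1.2 y0.1 y0.2 (by norm_num)
    (ex_um 0.332 (by norm_num) (by norm_num) (by norm_num) (by norm_num)) (ex_um 0.359 (by norm_num) (by norm_num) (by norm_num) (by norm_num)) (ex_lm 0.345 (by norm_num) (by norm_num) (by norm_num) (by norm_num) (by norm_num)) (by norm_num) (by norm_num) (by norm_num) (by norm_num) (by norm_num) (by norm_num) (by norm_num) (by norm_num)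
    (by norm_num) (by norm_num) (by norm_num) (by norm_num) (by norm_num) (by norm_num) (by norm_num) (by norm_num) (by norm_num) (by norm_num)
    (ex_up 0.658 (by norm_num) (by norm_num) (by norm_num) (by norm_num)) (ex_lp 0.633 (by norm_num) (by norm_num) (by norm_num)) (by norm_num) (by norm_num) (by norm_num) (by norm_num) (by norm_num) (by norm_num)
    (by norm_num) (by norm_num) (by norm_num) (by norm_num) (by norm_num) (by norm_num) (by norm_num) (by norm_num) (by norm_num) (by norm_num) (by norm_num)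
    (by norm_num) (by norm_num) (by norm_num) (by norm_num)

private theorem yA1 {κ t : ℝ} (h : DomR κ t) (hk1 : 0.65 ≤ κ) (hk2 : κ ≤ 0.7) (ht1 : 1.163 ≤ t + κ) (ht2 : t + κ ≤ 1.186) :
    0.337 ≤ sy κ t ∧ sy κ t ≤ 0.363 := by
  have hy1 : 0.337 ≤ sy κ t := syR_ge h 0.65 0.7 1.163 0.337 1.40073 1.40074 0.67435 0.72623 hk1 hk2 (by linarith) (by norm_num) (by norm_num)
    (expn_ge (by norm_num) (by norm_num)) (expn_le (by norm_num) (by norm_num) (by norm_num)) (by norm_num)
    (by norm_num) (by norm_num) (by norm_num) (by norm_num) (by norm_num) (by norm_num)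
  have hy2 : sy κ t ≤ 0.363 := syR_ang2 h 0.65 0.7 1.186 0.841 0.6673 0.7454 0.363 0.69559 1.43763 hk1 hk2 (by linarith) (by norm_num) (by norm_num) (by norm_num)
    (cos_le_num (by norm_num)) (sin_le_num (by norm_num) (by norm_num)) (expm_le (by norm_num) (by norm_num) (by norm_num))
    (expn_ge (by norm_num) (by norm_num)) (by norm_num) (by norm_num) (by norm_num) (by norm_num) (by norm_num)
  exact ⟨hy1, hy2⟩

private theorem yB1 {κ t : ℝ} (h : DomR κ t) (hk1 : 0.65 ≤ κ) (hk2 : κ ≤ 0.7) (ht1 : -0.9314 ≤ t + κ) (ht2 : t + κ ≤ -0.90839) :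
    (-0.632) ≤ sy κ t ∧ sy κ t ≤ (-0.591) := by
  have hy1 : -0.632 ≤ sy κ t := syL_ge h 0.65 0.7 0.9314 0.632 0.53152 0.53154 0.4983 0.47988 0.51683 hk1 hk2 (by linarith) (by norm_num) (by norm_num) (by norm_num)
    (expm_ge (by norm_num) (by norm_num) (by norm_num) (by norm_num)) (expm_le (by norm_num) (by norm_num) (by norm_num)) (by norm_num)
    (by norm_num) (by norm_num) (by norm_num) (by norm_num) (by norm_num) (by norm_num)
  have hy2 : sy κ t ≤ -0.591 := syL_le h 0.65 0.7 0.90839 0.591 0.55377 0.55378 0.46754 0.50352 hk1 hk2 (by linarith) (by norm_num) (by norm_num) (by norm_num)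
    (expm_ge (by norm_num) (by norm_num) (by norm_num) (by norm_num)) (expm_le (by norm_num) (by norm_num) (by norm_num)) (by norm_num)
    (by norm_num) (by norm_num) (by norm_num) (by norm_num) (by norm_num) (by norm_num)
  exact ⟨hy1, hy2⟩

theorem pc1 {β r h t κ : ℝ} (hh : h = 2 * Real.pi / (3 : ℕ)) (hβ : 0 < β) (hr : 10 ≤ r) (hκ : κ = β * r)
    (hk1 : 0.65 ≤ κ) (hk2 : κ ≤ 0.7) (hT1 : 1.163 ≤ t + κ) (hT2 : t + κ ≤ 1.186) :
    Xf β r h t 0 ≠ 0 ∧ r * 0.1945 ≤ (Ld β r h t 1 - Ld β r h t 0).im ∧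
      ‖(((-1 : ℤ) : ℂ) - 1) * Ld β r h t 0 - ((-1 : ℤ) : ℂ) * Ld β r h t 1‖ ≤ r * 7.32 := by
  obtain ⟨q1, q2, q3⟩ := b3_h hh
  have hR0 := b3_R0 hβ hr hκ
  have hR := b3_R hβ hr hκ (by linarith)
  have hD1 : DomR κ t := b3_dom (by linarith) (by linarith) (Or.inl (by linarith))
  have hD0 : DomR κ (t - h) := b3_dom (by linarith) (by linarith) (Or.inl (by linarith))
  have y1 := yA1 hD1 hk1 hk2 (by linarith) (by linarith)
  have y0 := yB1 hD0 hk1 hk2 (by linarith) (by linarith)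
  have j1 := T3_14_d1_1 hD1 hβ hk1 hk2 (by linarith) (by linarith) hR0 hR
  exact b3_piece 0.65 0.7 0.337 0.363 0.35 0.70468 0.71391 0.69559 0.4998 1.8892 1.9631 0.06 0.07 0.07 1.2545 0.4562 0 0 (-0.632) (-0.591) (-0.612) 1.8441 1.88137 1.317 1.1944 0.05 0.3 0.185 7.362 8.8717 0 0 0.1945 7.32
    hβ hr hκ (by norm_num) hk1 hk2 hD1 hD0 j1 (j1 _ (by rw [sub_self, norm_zero]; norm_num))
    (T3_14_d0_1 hD0 hβ hk1 hk2 (by linarith) (by linarith) hR0 hR)
    (T3_14_p0 hD0 hβ hk1 hk2 (by linarith) (by linarith) hR0 hR)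
    y1.1 y1.2 y0.1 y0.2 (by norm_num)
    (ex_um 0.337 (by norm_num) (by norm_num) (by norm_num) (by norm_num)) (ex_um 0.363 (by norm_num) (by norm_num) (by norm_num) (by norm_num)) (ex_lm 0.35 (by norm_num) (by norm_num) (by norm_num) (by norm_num) (by norm_num)) (by norm_num) (by norm_num) (by norm_num) (by norm_num) (by norm_num) (by norm_num) (by norm_num) (by norm_num)
    (by norm_num) (by norm_num) (by norm_num) (by norm_num) (by norm_num) (by norm_num) (by norm_num) (by norm_num) (by norm_num) (by norm_num)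
    (ex_up 0.632 (by norm_num) (by norm_num) (by norm_num) (by norm_num)) (ex_lp 0.612 (by norm_num) (by norm_num) (by norm_num)) (by norm_num) (by norm_num) (by norm_num) (by norm_num) (by norm_num) (by norm_num)
    (by norm_num) (by norm_num) (by norm_num) (by norm_num) (by norm_num) (by norm_num) (by norm_num) (by norm_num) (by norm_num) (by norm_num) (by norm_num)
    (by norm_num) (by norm_num) (by norm_num) (by norm_num)

private theorem yA2 {κ t : ℝ} (h : DomR κ t) (hk1 : 0.65 ≤ κ) (hk2 : κ ≤ 0.7) (ht1 : 1.186 ≤ t + κ) (ht2 : t + κ ≤ 1.21) :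
    0.341 ≤ sy κ t ∧ sy κ t ≤ 0.367 := by
  have hy1 : 0.341 ≤ sy κ t := syR_ge h 0.65 0.7 1.186 0.341 1.40635 1.40636 0.68509 0.7378 hk1 hk2 (by linarith) (by norm_num) (by norm_num)
    (expn_ge (by norm_num) (by norm_num)) (expn_le (by norm_num) (by norm_num) (by norm_num)) (by norm_num)
    (by norm_num) (by norm_num) (by norm_num) (by norm_num) (by norm_num) (by norm_num)
  have hy2 : sy κ t ≤ 0.367 := syR_ang2 h 0.65 0.7 1.21 0.858 0.6545 0.7567 0.367 0.69281 1.44339 hk1 hk2 (by linarith) (by norm_num) (by norm_num) (by norm_num)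
    (cos_le_num (by norm_num)) (sin_le_num (by norm_num) (by norm_num)) (expm_le (by norm_num) (by norm_num) (by norm_num))
    (expn_ge (by norm_num) (by norm_num)) (by norm_num) (by norm_num) (by norm_num) (by norm_num) (by norm_num)
  exact ⟨hy1, hy2⟩

private theorem yB2 {κ t : ℝ} (h : DomR κ t) (hk1 : 0.65 ≤ κ) (hk2 : κ ≤ 0.7) (ht1 : -0.9084 ≤ t + κ) (ht2 : t + κ ≤ -0.88439) :
    (-0.612) ≤ sy κ t ∧ sy κ t ≤ (-0.573) := by
  have hy1 : -0.612 ≤ sy κ t := syL_ge h 0.65 0.7 0.9084 0.612 0.54226 0.54227 0.4953 0.47409 0.51057 hk1 hk2 (by linarith) (by norm_num) (by norm_num) (by norm_num)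
    (expm_ge (by norm_num) (by norm_num) (by norm_num) (by norm_num)) (expm_le (by norm_num) (by norm_num) (by norm_num)) (by norm_num)
    (by norm_num) (by norm_num) (by norm_num) (by norm_num) (by norm_num) (by norm_num)
  have hy2 : sy κ t ≤ -0.573 := syL_le h 0.65 0.7 0.88439 0.573 0.56383 0.56384 0.46153 0.49705 hk1 hk2 (by linarith) (by norm_num) (by norm_num) (by norm_num)
    (expm_ge (by norm_num) (by norm_num) (by norm_num) (by norm_num)) (expm_le (by norm_num) (by norm_num) (by norm_num)) (by norm_num)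
    (by norm_num) (by norm_num) (by norm_num) (by norm_num) (by norm_num) (by norm_num)
  exact ⟨hy1, hy2⟩

theorem pc2 {β r h t κ : ℝ} (hh : h = 2 * Real.pi / (3 : ℕ)) (hβ : 0 < β) (hr : 10 ≤ r) (hκ : κ = β * r)
    (hk1 : 0.65 ≤ κ) (hk2 : κ ≤ 0.7) (hT1 : 1.186 ≤ t + κ) (hT2 : t + κ ≤ 1.21) :
    Xf β r h t 0 ≠ 0 ∧ r * 0.1945 ≤ (Ld β r h t 1 - Ld β r h t 0).im ∧
      ‖(((-1 : ℤ) : ℂ) - 1) * Ld β r h t 0 - ((-1 : ℤ) : ℂ) * Ld β r h t 1‖ ≤ r * 7.32 := by
  obtain ⟨q1, q2, q3⟩ := b3_h hh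
  have hR0 := b3_R0 hβ hr hκ
  have hR := b3_R hβ hr hκ (by linarith)
  have hD1 : DomR κ t := b3_dom (by linarith) (by linarith) (Or.inl (by linarith))
  have hD0 : DomR κ (t - h) := b3_dom (by linarith) (by linarith) (Or.inl (by linarith))
  have y1 := yA2 hD1 hk1 hk2 (by linarith) (by linarith)
  have y0 := yB2 hD0 hk1 hk2 (by linarith) (by linarith)
  have j1 := T3_14_d1_1 hD1 hβ hk1 hk2 (by linarith) (by linarith) hR0 hR
  exact b3_piece 0.65 0.7 0.341 0.367 0.354 0.70187 0.71106 0.69281 0.4978 1.8955 1.9692 0.06 0.07 0.07 1.2545 0.4536 0 0 (-0.612) (-0.573) (-0.593) 1.8094 1.84412 1.2909 1.1819 0.05 0.3 0.185 7.362 8.7418 0 0 0.1945 7.32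
    hβ hr hκ (by norm_num) hk1 hk2 hD1 hD0 j1 (j1 _ (by rw [sub_self, norm_zero]; norm_num))
    (T3_14_d0_1 hD0 hβ hk1 hk2 (by linarith) (by linarith) hR0 hR)
    (T3_14_p0 hD0 hβ hk1 hk2 (by linarith) (by linarith) hR0 hR)
    y1.1 y1.2 y0.1 y0.2 (by norm_num)
    (ex_um 0.341 (by norm_num) (by norm_num) (by norm_num) (by norm_num)) (ex_um 0.367 (by norm_num) (by norm_num) (by norm_num) (by norm_num)) (ex_lm 0.354 (by norm_num) (by norm_num) (by norm_num) (by norm_num) (by norm_num)) (by norm_num) (by norm_num) (by norm_num) (by norm_num) (by norm_num) (by norm_num) (by norm_num) (by norm_num)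
    (by norm_num) (by norm_num) (by norm_num) (by norm_num) (by norm_num) (by norm_num) (by norm_num) (by norm_num) (by norm_num) (by norm_num)
    (ex_up 0.612 (by norm_num) (by norm_num) (by norm_num) (by norm_num)) (ex_lp 0.593 (by norm_num) (by norm_num) (by norm_num)) (by norm_num) (by norm_num) (by norm_num) (by norm_num) (by norm_num) (by norm_num)
    (by norm_num) (by norm_num) (by norm_num) (by norm_num) (by norm_num) (by norm_num) (by norm_num) (by norm_num) (by norm_num) (by norm_num) (by norm_num)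
    (by norm_num) (by norm_num) (by norm_num) (by norm_num)

private theorem yA3 {κ t : ℝ} (h : DomR κ t) (hk1 : 0.65 ≤ κ) (hk2 : κ ≤ 0.7) (ht1 : 1.21 ≤ t + κ) (ht2 : t + κ ≤ 1.233) :
    0.345 ≤ sy κ t ∧ sy κ t ≤ 0.371 := by
  have hy1 : 0.345 ≤ sy κ t := syR_ge h 0.65 0.7 1.21 0.345 1.41198 1.41199 0.6959 0.74945 hk1 hk2 (by linarith) (by norm_num) (by norm_num)
    (expn_ge (by norm_num) (by norm_num)) (expn_le (by norm_num) (by norm_num) (by norm_num)) (by norm_num)
    (by norm_num) (by norm_num) (by norm_num) (by norm_num) (by norm_num) (by norm_num)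
  have hy2 : sy κ t ≤ 0.371 := syR_ang2 h 0.65 0.7 1.233 0.875 0.6417 0.7677 0.371 0.69005 1.44918 hk1 hk2 (by linarith) (by norm_num) (by norm_num) (by norm_num)
    (cos_le_num (by norm_num)) (sin_le_num (by norm_num) (by norm_num)) (expm_le (by norm_num) (by norm_num) (by norm_num))
    (expn_ge (by norm_num) (by norm_num)) (by norm_num) (by norm_num) (by norm_num) (by norm_num) (by norm_num)
  exact ⟨hy1, hy2⟩

private theorem yB3 {κ t : ℝ} (h : DomR κ t) (hk1 : 0.65 ≤ κ) (hk2 : κ ≤ 0.7) (ht1 : -0.8844 ≤ t + κ) (ht2 : t + κ ≤ -0.86139) :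
    (-0.591) ≤ sy κ t ∧ sy κ t ≤ (-0.555) := by
  have hy1 : -0.591 ≤ sy κ t := syL_ge h 0.65 0.7 0.8844 0.591 0.55377 0.55378 0.4915 0.46754 0.50352 hk1 hk2 (by linarith) (by norm_num) (by norm_num) (by norm_num)
    (expm_ge (by norm_num) (by norm_num) (by norm_num) (by norm_num)) (expm_le (by norm_num) (by norm_num) (by norm_num)) (by norm_num)
    (by norm_num) (by norm_num) (by norm_num) (by norm_num) (by norm_num) (by norm_num)
  have hy2 : sy κ t ≤ -0.555 := syL_le h 0.65 0.7 0.86139 0.555 0.57407 0.57408 0.45515 0.49018 hk1 hk2 (by linarith) (by norm_num) (by norm_num) (by norm_num)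
    (expm_ge (by norm_num) (by norm_num) (by norm_num) (by norm_num)) (expm_le (by norm_num) (by norm_num) (by norm_num)) (by norm_num)
    (by norm_num) (by norm_num) (by norm_num) (by norm_num) (by norm_num) (by norm_num)
  exact ⟨hy1, hy2⟩

theorem pc3 {β r h t κ : ℝ} (hh : h = 2 * Real.pi / (3 : ℕ)) (hβ : 0 < β) (hr : 10 ≤ r) (hκ : κ = β * r)
    (hk1 : 0.65 ≤ κ) (hk2 : κ ≤ 0.7) (hT1 : 1.21 ≤ t + κ) (hT2 : t + κ ≤ 1.233) :
    Xf β r h t 0 ≠ 0 ∧ r * 0.1945 ≤ (Ld β r h t 1 - Ld β r h t 0).im ∧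
      ‖(((-1 : ℤ) : ℂ) - 1) * Ld β r h t 0 - ((-1 : ℤ) : ℂ) * Ld β r h t 1‖ ≤ r * 7.32 := by
  obtain ⟨q1, q2, q3⟩ := b3_h hh
  have hR0 := b3_R0 hβ hr hκ
  have hR := b3_R hβ hr hκ (by linarith)
  have hD1 : DomR κ t := b3_dom (by linarith) (by linarith) (Or.inl (by linarith))
  have hD0 : DomR κ (t - h) := b3_dom (by linarith) (by linarith) (Or.inl (by linarith))
  have y1 := yA3 hD1 hk1 hk2 (by linarith) (by linarith)
  have y0 := yB3 hD0 hk1 hk2 (by linarith) (by linarith)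
  have j1 := T3_14_d1_1 hD1 hβ hk1 hk2 (by linarith) (by linarith) hR0 hR
  exact b3_piece 0.65 0.7 0.345 0.371 0.358 0.69907 0.70823 0.69005 0.4958 1.9018 1.9754 0.06 0.07 0.07 1.2545 0.4511 0 0 (-0.591) (-0.555) (-0.573) 1.77357 1.8058 1.2641 1.1711 0.05 0.3 0.185 7.362 8.5997 0 0 0.1945 7.32
    hβ hr hκ (by norm_num) hk1 hk2 hD1 hD0 j1 (j1 _ (by rw [sub_self, norm_zero]; norm_num))
    (T3_14_d0_1 hD0 hβ hk1 hk2 (by linarith) (by linarith) hR0 hR)
    (T3_14_p0 hD0 hβ hk1 hk2 (by linarith) (by linarith) hR0 hR)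
    y1.1 y1.2 y0.1 y0.2 (by norm_num)
    (ex_um 0.345 (by norm_num) (by norm_num) (by norm_num) (by norm_num)) (ex_um 0.371 (by norm_num) (by norm_num) (by norm_num) (by norm_num)) (ex_lm 0.358 (by norm_num) (by norm_num) (by norm_num) (by norm_num) (by norm_num)) (by norm_num) (by norm_num) (by norm_num) (by norm_num) (by norm_num) (by norm_num) (by norm_num) (by norm_num)
    (by norm_num) (by norm_num) (by norm_num) (by norm_num) (by norm_num) (by norm_num) (by norm_num) (by norm_num) (by norm_num) (by norm_num)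
    (ex_up 0.591 (by norm_num) (by norm_num) (by norm_num) (by norm_num)) (ex_lp 0.573 (by norm_num) (by norm_num) (by norm_num)) (by norm_num) (by norm_num) (by norm_num) (by norm_num) (by norm_num) (by norm_num)
    (by norm_num) (by norm_num) (by norm_num) (by norm_num) (by norm_num) (by norm_num) (by norm_num) (by norm_num) (by norm_num) (by norm_num) (by norm_num)
    (by norm_num) (by norm_num) (by norm_num) (by norm_num)

private theorem yA4 {κ t : ℝ} (h : DomR κ t) (hk1 : 0.65 ≤ κ) (hk2 : κ ≤ 0.7) (ht1 : 1.233 ≤ t + κ) (ht2 : t + κ ≤ 1.263) :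
    0.348 ≤ sy κ t ∧ sy κ t ≤ 0.376 := by
  have hy1 : 0.348 ≤ sy κ t := syR_ge h 0.65 0.7 1.233 0.348 1.41623 1.41624 0.70406 0.75824 hk1 hk2 (by linarith) (by norm_num) (by norm_num)
    (expn_ge (by norm_num) (by norm_num)) (expn_le (by norm_num) (by norm_num) (by norm_num)) (by norm_num)
    (by norm_num) (by norm_num) (by norm_num) (by norm_num) (by norm_num) (by norm_num)
  have hy2 : sy κ t ≤ 0.376 := syR_ang2 h 0.65 0.7 1.263 0.898 0.6239 0.7822 0.376 0.68661 1.45644 hk1 hk2 (by linarith) (by norm_num) (by norm_num) (by norm_num)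
    (cos_le_num (by norm_num)) (sin_le_num (by norm_num) (by norm_num)) (expm_le (by norm_num) (by norm_num) (by norm_num))
    (expn_ge (by norm_num) (by norm_num)) (by norm_num) (by norm_num) (by norm_num) (by norm_num) (by norm_num)
  exact ⟨hy1, hy2⟩

private theorem yB4 {κ t : ℝ} (h : DomR κ t) (hk1 : 0.65 ≤ κ) (hk2 : κ ≤ 0.7) (ht1 : -0.8614 ≤ t + κ) (ht2 : t + κ ≤ -0.83139) :
    (-0.571) ≤ sy κ t ∧ sy κ t ≤ (-0.531) := by
  have hy1 : -0.571 ≤ sy κ t := syL_ge h 0.65 0.7 0.8614 0.571 0.56496 0.56497 0.4903 0.46084 0.49631 hk1 hk2 (by linarith) (by norm_num) (by norm_num) (by norm_num)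
    (expm_ge (by norm_num) (by norm_num) (by norm_num) (by norm_num)) (expm_le (by norm_num) (by norm_num) (by norm_num)) (by norm_num)
    (by norm_num) (by norm_num) (by norm_num) (by norm_num) (by norm_num) (by norm_num)
  have hy2 : sy κ t ≤ -0.531 := syL_le h 0.65 0.7 0.83139 0.531 0.58801 0.58802 0.44604 0.48037 hk1 hk2 (by linarith) (by norm_num) (by norm_num) (by norm_num)
    (expm_ge (by norm_num) (by norm_num) (by norm_num) (by norm_num)) (expm_le (by norm_num) (by norm_num) (by norm_num)) (by norm_num)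
    (by norm_num) (by norm_num) (by norm_num) (by norm_num) (by norm_num) (by norm_num)
  exact ⟨hy1, hy2⟩

theorem pc4 {β r h t κ : ℝ} (hh : h = 2 * Real.pi / (3 : ℕ)) (hβ : 0 < β) (hr : 10 ≤ r) (hκ : κ = β * r)
    (hk1 : 0.65 ≤ κ) (hk2 : κ ≤ 0.7) (hT1 : 1.233 ≤ t + κ) (hT2 : t + κ ≤ 1.263) :
    Xf β r h t 0 ≠ 0 ∧ r * 0.1945 ≤ (Ld β r h t 1 - Ld β r h t 0).im ∧
      ‖(((-1 : ℤ) : ℂ) - 1) * Ld β r h t 0 - ((-1 : ℤ) : ℂ) * Ld β r h t 1‖ ≤ r * 7.32 := by
  obtain ⟨q1, q2, q3⟩ := b3_h hh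
  have hR0 := b3_R0 hβ hr hκ
  have hR := b3_R hβ hr hκ (by linarith)
  have hD1 : DomR κ t := b3_dom (by linarith) (by linarith) (Or.inl (by linarith))
  have hD0 : DomR κ (t - h) := b3_dom (by linarith) (by linarith) (Or.inl (by linarith))
  have y1 := yA4 hD1 hk1 hk2 (by linarith) (by linarith)
  have y0 := yB4 hD0 hk1 hk2 (by linarith) (by linarith)
  have j1 := T3_14_d1_2 hD1 hβ hk1 hk2 (by linarith) (by linarith) hR0 hR
  exact b3_piece 0.65 0.7 0.348 0.376 0.362 0.69628 0.7061 0.68661 0.4943 1.9065 1.9831 0.04 0.085 0.085 2.3225 0.8315 0 0 (-0.571) (-0.531) (-0.551) 1.73498 1.77004 1.2391 1.1589 0.06 0.26 0.185 5.317 6.12 0 0 0.1945 7.32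
    hβ hr hκ (by norm_num) hk1 hk2 hD1 hD0 j1 (j1 _ (by rw [sub_self, norm_zero]; norm_num))
    (T3_14_d0_2 hD0 hβ hk1 hk2 (by linarith) (by linarith) hR0 hR)
    (T3_14_p0 hD0 hβ hk1 hk2 (by linarith) (by linarith) hR0 hR)
    y1.1 y1.2 y0.1 y0.2 (by norm_num)
    (ex_um 0.348 (by norm_num) (by norm_num) (by norm_num) (by norm_num)) (ex_um 0.376 (by norm_num) (by norm_num) (by norm_num) (by norm_num)) (ex_lm 0.362 (by norm_num) (by norm_num) (by norm_num) (by norm_num) (by norm_num)) (by norm_num) (by norm_num) (by norm_num) (by norm_num) (by norm_num) (by norm_num) (by norm_num) (by norm_num)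
    (by norm_num) (by norm_num) (by norm_num) (by norm_num) (by norm_num) (by norm_num) (by norm_num) (by norm_num) (by norm_num) (by norm_num)
    (ex_up 0.571 (by norm_num) (by norm_num) (by norm_num) (by norm_num)) (ex_lp 0.551 (by norm_num) (by norm_num) (by norm_num)) (by norm_num) (by norm_num) (by norm_num) (by norm_num) (by norm_num) (by norm_num)
    (by norm_num) (by norm_num) (by norm_num) (by norm_num) (by norm_num) (by norm_num) (by norm_num) (by norm_num) (by norm_num) (by norm_num) (by norm_num)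
    (by norm_num) (by norm_num) (by norm_num) (by norm_num)

private theorem yA5 {κ t : ℝ} (h : DomR κ t) (hk1 : 0.65 ≤ κ) (hk2 : κ ≤ 0.7) (ht1 : 1.263 ≤ t + κ) (ht2 : t + κ ≤ 1.293) :
    0.353 ≤ sy κ t ∧ sy κ t ≤ 0.38 := by
  have hy1 : 0.353 ≤ sy κ t := syR_ge h 0.65 0.7 1.263 0.353 1.42333 1.42334 0.71776 0.77299 hk1 hk2 (by linarith) (by norm_num) (by norm_num)
    (expn_ge (by norm_num) (by norm_num)) (expn_le (by norm_num) (by norm_num) (by norm_num)) (by norm_num)
    (by norm_num) (by norm_num) (by norm_num) (by norm_num) (by norm_num) (by norm_num)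
  have hy2 : sy κ t ≤ 0.38 := syR_ang2 h 0.65 0.7 1.293 0.916 0.6099 0.7933 0.38 0.68387 1.46228 hk1 hk2 (by linarith) (by norm_num) (by norm_num) (by norm_num)
    (cos_le_num (by norm_num)) (sin_le_num (by norm_num) (by norm_num)) (expm_le (by norm_num) (by norm_num) (by norm_num))
    (expn_ge (by norm_num) (by norm_num)) (by norm_num) (by norm_num) (by norm_num) (by norm_num) (by norm_num)
  exact ⟨hy1, hy2⟩

private theorem yB5 {κ t : ℝ} (h : DomR κ t) (hk1 : 0.65 ≤ κ) (hk2 : κ ≤ 0.7) (ht1 : -0.8314 ≤ t + κ) (ht2 : t + κ ≤ -0.80139) :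
    (-0.546) ≤ sy κ t ∧ sy κ t ≤ (-0.508) := by
  have hy1 : -0.546 ≤ sy κ t := syL_ge h 0.65 0.7 0.8314 0.546 0.57926 0.57927 0.4634 0.45182 0.48659 hk1 hk2 (by linarith) (by norm_num) (by norm_num) (by norm_num)
    (expm_ge (by norm_num) (by norm_num) (by norm_num) (by norm_num)) (expm_le (by norm_num) (by norm_num) (by norm_num)) (by norm_num)
    (by norm_num) (by norm_num) (by norm_num) (by norm_num) (by norm_num) (by norm_num)
  have hy2 : sy κ t ≤ -0.508 := syL_le h 0.65 0.7 0.80139 0.508 0.60169 0.6017 0.43665 0.47026 hk1 hk2 (by linarith) (by norm_num) (by norm_num) (by norm_num)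
    (expm_ge (by norm_num) (by norm_num) (by norm_num) (by norm_num)) (expm_le (by norm_num) (by norm_num) (by norm_num)) (by norm_num)
    (by norm_num) (by norm_num) (by norm_num) (by norm_num) (by norm_num) (by norm_num)
  exact ⟨hy1, hy2⟩

theorem pc5 {β r h t κ : ℝ} (hh : h = 2 * Real.pi / (3 : ℕ)) (hβ : 0 < β) (hr : 10 ≤ r) (hκ : κ = β * r)
    (hk1 : 0.65 ≤ κ) (hk2 : κ ≤ 0.7) (hT1 : 1.263 ≤ t + κ) (hT2 : t + κ ≤ 1.293) :
    Xf β r h t 0 ≠ 0 ∧ r * 0.1945 ≤ (Ld β r h t 1 - Ld β r h t 0).im ∧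
      ‖(((-1 : ℤ) : ℂ) - 1) * Ld β r h t 0 - ((-1 : ℤ) : ℂ) * Ld β r h t 1‖ ≤ r * 7.32 := by
  obtain ⟨q1, q2, q3⟩ := b3_h hh
  have hR0 := b3_R0 hβ hr hκ
  have hR := b3_R hβ hr hκ (by linarith)
  have hD1 : DomR κ t := b3_dom (by linarith) (by linarith) (Or.inl (by linarith))
  have hD0 : DomR κ (t - h) := b3_dom (by linarith) (by linarith) (Or.inl (by linarith))
  have y1 := yA5 hD1 hk1 hk2 (by linarith) (by linarith)
  have y0 := yB5 hD0 hk1 hk2 (by linarith) (by linarith)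
  have j1 := T3_14_d1_2 hD1 hβ hk1 hk2 (by linarith) (by linarith) hR0 hR
  exact b3_piece 0.65 0.7 0.353 0.38 0.366 0.6935 0.70258 0.68387 0.4919 1.9144 1.9892 0.04 0.085 0.085 2.3225 0.8257 0 0 (-0.546) (-0.508) (-0.527) 1.69384 1.72634 1.2085 1.1501 0.06 0.26 0.185 5.317 5.9917 0 0 0.1945 7.32
    hβ hr hκ (by norm_num) hk1 hk2 hD1 hD0 j1 (j1 _ (by rw [sub_self, norm_zero]; norm_num))
    (T3_14_d0_2 hD0 hβ hk1 hk2 (by linarith) (by linarith) hR0 hR)
    (T3_14_p0 hD0 hβ hk1 hk2 (by linarith) (by linarith) hR0 hR)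
    y1.1 y1.2 y0.1 y0.2 (by norm_num)
    (ex_um 0.353 (by norm_num) (by norm_num) (by norm_num) (by norm_num)) (ex_um 0.38 (by norm_num) (by norm_num) (by norm_num) (by norm_num)) (ex_lm 0.366 (by norm_num) (by norm_num) (by norm_num) (by norm_num) (by norm_num)) (by norm_num) (by norm_num) (by norm_num) (by norm_num) (by norm_num) (by norm_num) (by norm_num) (by norm_num)
    (by norm_num) (by norm_num) (by norm_num) (by norm_num) (by norm_num) (by norm_num) (by norm_num) (by norm_num) (by norm_num) (by norm_num)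
    (ex_up 0.546 (by norm_num) (by norm_num) (by norm_num) (by norm_num)) (ex_lp 0.527 (by norm_num) (by norm_num) (by norm_num)) (by norm_num) (by norm_num) (by norm_num) (by norm_num) (by norm_num) (by norm_num)
    (by norm_num) (by norm_num) (by norm_num) (by norm_num) (by norm_num) (by norm_num) (by norm_num) (by norm_num) (by norm_num) (by norm_num) (by norm_num)
    (by norm_num) (by norm_num) (by norm_num) (by norm_num)

private theorem yA6 {κ t : ℝ} (h : DomR κ t) (hk1 : 0.65 ≤ κ) (hk2 : κ ≤ 0.7) (ht1 : 1.293 ≤ t + κ) (ht2 : t + κ ≤ 1.322) :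
    0.358 ≤ sy κ t ∧ sy κ t ≤ 0.385 := by
  have hy1 : 0.358 ≤ sy κ t := syR_ge h 0.65 0.7 1.293 0.358 1.43046 1.43047 0.73157 0.78786 hk1 hk2 (by linarith) (by norm_num) (by norm_num)
    (expn_ge (by norm_num) (by norm_num)) (expn_le (by norm_num) (by norm_num) (by norm_num)) (by norm_num)
    (by norm_num) (by norm_num) (by norm_num) (by norm_num) (by norm_num) (by norm_num)
  have hy2 : sy κ t ≤ 0.385 := syR_ang2 h 0.65 0.7 1.322 0.94 0.5908 0.8077 0.385 0.68046 1.46961 hk1 hk2 (by linarith) (by norm_num) (by norm_num) (by norm_num)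
    (cos_le_num (by norm_num)) (sin_le_num (by norm_num) (by norm_num)) (expm_le (by norm_num) (by norm_num) (by norm_num))
    (expn_ge (by norm_num) (by norm_num)) (by norm_num) (by norm_num) (by norm_num) (by norm_num) (by norm_num)
  exact ⟨hy1, hy2⟩

private theorem yB6 {κ t : ℝ} (h : DomR κ t) (hk1 : 0.65 ≤ κ) (hk2 : κ ≤ 0.7) (ht1 : -0.8014 ≤ t + κ) (ht2 : t + κ ≤ -0.77239) :
    (-0.52) ≤ sy κ t ∧ sy κ t ≤ (-0.486) := by
  have hy1 : -0.52 ≤ sy κ t := syL_ge h 0.65 0.7 0.8014 0.52 0.59452 0.59453 0.4586 0.44164 0.47563 hk1 hk2 (by linarith) (by norm_num) (by norm_num) (by norm_num)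
    (expm_ge (by norm_num) (by norm_num) (by norm_num) (by norm_num)) (expm_le (by norm_num) (by norm_num) (by norm_num)) (by norm_num)
    (by norm_num) (by norm_num) (by norm_num) (by norm_num) (by norm_num) (by norm_num)
  have hy2 : sy κ t ≤ -0.486 := syL_le h 0.65 0.7 0.77239 0.486 0.61508 0.61509 0.42704 0.4599 hk1 hk2 (by linarith) (by norm_num) (by norm_num) (by norm_num)
    (expm_ge (by norm_num) (by norm_num) (by norm_num) (by norm_num)) (expm_le (by norm_num) (by norm_num) (by norm_num)) (by norm_num)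
    (by norm_num) (by norm_num) (by norm_num) (by norm_num) (by norm_num) (by norm_num)
  exact ⟨hy1, hy2⟩

theorem pc6 {β r h t κ : ℝ} (hh : h = 2 * Real.pi / (3 : ℕ)) (hβ : 0 < β) (hr : 10 ≤ r) (hκ : κ = β * r)
    (hk1 : 0.65 ≤ κ) (hk2 : κ ≤ 0.7) (hT1 : 1.293 ≤ t + κ) (hT2 : t + κ ≤ 1.322) :
    Xf β r h t 0 ≠ 0 ∧ r * 0.1945 ≤ (Ld β r h t 1 - Ld β r h t 0).im ∧
      ‖(((-1 : ℤ) : ℂ) - 1) * Ld β r h t 0 - ((-1 : ℤ) : ℂ) * Ld β r h t 1‖ ≤ r * 7.32 := by
  obtain ⟨q1, q2, q3⟩ := b3_h hh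
  have hR0 := b3_R0 hβ hr hκ
  have hR := b3_R hβ hr hκ (by linarith)
  have hD1 : DomR κ t := b3_dom (by linarith) (by linarith) (Or.inl (by linarith))
  have hD0 : DomR κ (t - h) := b3_dom (by linarith) (by linarith) (Or.inl (by linarith))
  have y1 := yA6 hD1 hk1 hk2 (by linarith) (by linarith)
  have y0 := yB6 hD0 hk1 hk2 (by linarith) (by linarith)
  have j1 := T3_14_d1_2 hD1 hβ hk1 hk2 (by linarith) (by linarith) hR0 hR
  exact b3_piece 0.65 0.7 0.358 0.385 0.371 0.69004 0.69908 0.68046 0.4894 1.9224 1.9969 0.04 0.085 0.085 2.3225 0.8198 0 0 (-0.52) (-0.486) (-0.503) 1.65367 1.68203 1.1775 1.144 0.06 0.26 0.185 5.317 5.8535 0 0 0.1945 7.32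
    hβ hr hκ (by norm_num) hk1 hk2 hD1 hD0 j1 (j1 _ (by rw [sub_self, norm_zero]; norm_num))
    (T3_14_d0_2 hD0 hβ hk1 hk2 (by linarith) (by linarith) hR0 hR)
    (T3_14_p0 hD0 hβ hk1 hk2 (by linarith) (by linarith) hR0 hR)
    y1.1 y1.2 y0.1 y0.2 (by norm_num)
    (ex_um 0.358 (by norm_num) (by norm_num) (by norm_num) (by norm_num)) (ex_um 0.385 (by norm_num) (by norm_num) (by norm_num) (by norm_num)) (ex_lm 0.371 (by norm_num) (by norm_num) (by norm_num) (by norm_num) (by norm_num)) (by norm_num) (by norm_num) (by norm_num) (by norm_num) (by norm_num) (by norm_num) (by norm_num) (by norm_num)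
    (by norm_num) (by norm_num) (by norm_num) (by norm_num) (by norm_num) (by norm_num) (by norm_num) (by norm_num) (by norm_num) (by norm_num)
    (ex_up 0.52 (by norm_num) (by norm_num) (by norm_num) (by norm_num)) (ex_lp 0.503 (by norm_num) (by norm_num) (by norm_num)) (by norm_num) (by norm_num) (by norm_num) (by norm_num) (by norm_num) (by norm_num)
    (by norm_num) (by norm_num) (by norm_num) (by norm_num) (by norm_num) (by norm_num) (by norm_num) (by norm_num) (by norm_num) (by norm_num) (by norm_num)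
    (by norm_num) (by norm_num) (by norm_num) (by norm_num)

private theorem yA7 {κ t : ℝ} (h : DomR κ t) (hk1 : 0.65 ≤ κ) (hk2 : κ ≤ 0.7) (ht1 : 1.322 ≤ t + κ) (ht2 : t + κ ≤ 1.352) :
    0.362 ≤ sy κ t ∧ sy κ t ≤ 0.389 := by
  have hy1 : 0.362 ≤ sy κ t := syR_ge h 0.65 0.7 1.322 0.362 1.43619 1.4362 0.74271 0.79986 hk1 hk2 (by linarith) (by norm_num) (by norm_num)
    (expn_ge (by norm_num) (by norm_num)) (expn_le (by norm_num) (by norm_num) (by norm_num)) (by norm_num)
    (by norm_num) (by norm_num) (by norm_num) (by norm_num) (by norm_num) (by norm_num)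
  have hy2 : sy κ t ≤ 0.389 := syR_ang2 h 0.65 0.7 1.352 0.96 0.5746 0.8194 0.389 0.67774 1.4755 hk1 hk2 (by linarith) (by norm_num) (by norm_num) (by norm_num)
    (cos_le_num (by norm_num)) (sin_le_num (by norm_num) (by norm_num)) (expm_le (by norm_num) (by norm_num) (by norm_num))
    (expn_ge (by norm_num) (by norm_num)) (by norm_num) (by norm_num) (by norm_num) (by norm_num) (by norm_num)
  exact ⟨hy1, hy2⟩

private theorem yB7 {κ t : ℝ} (h : DomR κ t) (hk1 : 0.65 ≤ κ) (hk2 : κ ≤ 0.7) (ht1 : -0.7724 ≤ t + κ) (ht2 : t + κ ≤ -0.74239) :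
    (-0.495) ≤ sy κ t ∧ sy κ t ≤ (-0.462) := by
  have hy1 : -0.495 ≤ sy κ t := syL_ge h 0.65 0.7 0.7724 0.495 0.60957 0.60958 0.4642 0.43105 0.46422 hk1 hk2 (by linarith) (by norm_num) (by norm_num) (by norm_num)
    (expm_ge (by norm_num) (by norm_num) (by norm_num) (by norm_num)) (expm_le (by norm_num) (by norm_num) (by norm_num)) (by norm_num)
    (by norm_num) (by norm_num) (by norm_num) (by norm_num) (by norm_num) (by norm_num)
  have hy2 : sy κ t ≤ -0.462 := syL_le h 0.65 0.7 0.74239 0.462 0.63002 0.63003 0.41581 0.44781 hk1 hk2 (by linarith) (by norm_num) (by norm_num) (by norm_num)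
    (expm_ge (by norm_num) (by norm_num) (by norm_num) (by norm_num)) (expm_le (by norm_num) (by norm_num) (by norm_num)) (by norm_num)
    (by norm_num) (by norm_num) (by norm_num) (by norm_num) (by norm_num) (by norm_num)
  exact ⟨hy1, hy2⟩

theorem pc7 {β r h t κ : ℝ} (hh : h = 2 * Real.pi / (3 : ℕ)) (hβ : 0 < β) (hr : 10 ≤ r) (hκ : κ = β * r)
    (hk1 : 0.65 ≤ κ) (hk2 : κ ≤ 0.7) (hT1 : 1.322 ≤ t + κ) (hT2 : t + κ ≤ 1.352) :
    Xf β r h t 0 ≠ 0 ∧ r * 0.1945 ≤ (Ld β r h t 1 - Ld β r h t 0).im ∧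
      ‖(((-1 : ℤ) : ℂ) - 1) * Ld β r h t 0 - ((-1 : ℤ) : ℂ) * Ld β r h t 1‖ ≤ r * 7.32 := by
  obtain ⟨q1, q2, q3⟩ := b3_h hh
  have hR0 := b3_R0 hβ hr hκ
  have hR := b3_R hβ hr hκ (by linarith)
  have hD1 : DomR κ t := b3_dom (by linarith) (by linarith) (Or.inl (by linarith))
  have hD0 : DomR κ (t - h) := b3_dom (by linarith) (by linarith) (Or.inl (by linarith))
  have y1 := yA7 hD1 hk1 hk2 (by linarith) (by linarith)
  have y0 := yB7 hD0 hk1 hk2 (by linarith) (by linarith)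
  have j1 := T3_14_d1_2 hD1 hβ hk1 hk2 (by linarith) (by linarith) hR0 hR
  exact b3_piece 0.65 0.7 0.362 0.389 0.376 0.6866 0.69629 0.67774 0.4875 1.9287 2.0031 0.04 0.085 0.085 2.3225 0.8153 0 0 (-0.495) (-0.462) (-0.478) 1.61284 1.6405 1.1484 1.1398 0.06 0.26 0.185 5.317 5.7194 0 0 0.1945 7.32
    hβ hr hκ (by norm_num) hk1 hk2 hD1 hD0 j1 (j1 _ (by rw [sub_self, norm_zero]; norm_num))
    (T3_14_d0_2 hD0 hβ hk1 hk2 (by linarith) (by linarith) hR0 hR)
    (T3_14_p0 hD0 hβ hk1 hk2 (by linarith) (by linarith) hR0 hR)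
    y1.1 y1.2 y0.1 y0.2 (by norm_num)
    (ex_um 0.362 (by norm_num) (by norm_num) (by norm_num) (by norm_num)) (ex_um 0.389 (by norm_num) (by norm_num) (by norm_num) (by norm_num)) (ex_lm 0.376 (by norm_num) (by norm_num) (by norm_num) (by norm_num) (by norm_num)) (by norm_num) (by norm_num) (by norm_num) (by norm_num) (by norm_num) (by norm_num) (by norm_num) (by norm_num)
    (by norm_num) (by norm_num) (by norm_num) (by norm_num) (by norm_num) (by norm_num) (by norm_num) (by norm_num) (by norm_num) (by norm_num)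
    (ex_up 0.495 (by norm_num) (by norm_num) (by norm_num) (by norm_num)) (ex_lp 0.478 (by norm_num) (by norm_num) (by norm_num)) (by norm_num) (by norm_num) (by norm_num) (by norm_num) (by norm_num) (by norm_num)
    (by norm_num) (by norm_num) (by norm_num) (by norm_num) (by norm_num) (by norm_num) (by norm_num) (by norm_num) (by norm_num) (by norm_num) (by norm_num)
    (by norm_num) (by norm_num) (by norm_num) (by norm_num)

private theorem yA8 {κ t : ℝ} (h : DomR κ t) (hk1 : 0.65 ≤ κ) (hk2 : κ ≤ 0.7) (ht1 : 1.352 ≤ t + κ) (ht2 : t + κ ≤ 1.382) :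
    0.362 ≤ sy κ t ∧ sy κ t ≤ 0.393 := by
  have hy1 : 0.362 ≤ sy κ t := syR_ge h 0.65 0.7 1.352 0.362 1.43619 1.4362 0.74271 0.79986 hk1 hk2 (by linarith) (by norm_num) (by norm_num)
    (expn_ge (by norm_num) (by norm_num)) (expn_le (by norm_num) (by norm_num) (by norm_num)) (by norm_num)
    (by norm_num) (by norm_num) (by norm_num) (by norm_num) (by norm_num) (by norm_num)
  have hy2 : sy κ t ≤ 0.393 := syR_ang2 h 0.65 0.7 1.382 0.981 0.5575 0.8313 0.393 0.67503 1.48141 hk1 hk2 (by linarith) (by norm_num) (by norm_num) (by norm_num)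
    (cos_le_num (by norm_num)) (sin_le_num (by norm_num) (by norm_num)) (expm_le (by norm_num) (by norm_num) (by norm_num))
    (expn_ge (by norm_num) (by norm_num)) (by norm_num) (by norm_num) (by norm_num) (by norm_num) (by norm_num)
  exact ⟨hy1, hy2⟩

private theorem yB8 {κ t : ℝ} (h : DomR κ t) (hk1 : 0.65 ≤ κ) (hk2 : κ ≤ 0.7) (ht1 : -0.7424 ≤ t + κ) (ht2 : t + κ ≤ -0.71239) :
    (-0.47) ≤ sy κ t ∧ sy κ t ≤ (-0.44) := by
  have hy1 : -0.47 ≤ sy κ t := syL_ge h 0.65 0.7 0.7424 0.47 0.625 0.62501 0.4492 0.41964 0.45194 hk1 hk2 (by linarith) (by norm_num) (by norm_num) (by norm_num)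
    (expm_ge (by norm_num) (by norm_num) (by norm_num) (by norm_num)) (expm_le (by norm_num) (by norm_num) (by norm_num)) (by norm_num)
    (by norm_num) (by norm_num) (by norm_num) (by norm_num) (by norm_num) (by norm_num)
  have hy2 : sy κ t ≤ -0.44 := syL_le h 0.65 0.7 0.71239 0.44 0.64403 0.64404 0.40481 0.43597 hk1 hk2 (by linarith) (by norm_num) (by norm_num) (by norm_num)
    (expm_ge (by norm_num) (by norm_num) (by norm_num) (by norm_num)) (expm_le (by norm_num) (by norm_num) (by norm_num)) (by norm_num)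
    (by norm_num) (by norm_num) (by norm_num) (by norm_num) (by norm_num) (by norm_num)
  exact ⟨hy1, hy2⟩

theorem pc8 {β r h t κ : ℝ} (hh : h = 2 * Real.pi / (3 : ℕ)) (hβ : 0 < β) (hr : 10 ≤ r) (hκ : κ = β * r)
    (hk1 : 0.65 ≤ κ) (hk2 : κ ≤ 0.7) (hT1 : 1.352 ≤ t + κ) (hT2 : t + κ ≤ 1.382) :
    Xf β r h t 0 ≠ 0 ∧ r * 0.1945 ≤ (Ld β r h t 1 - Ld β r h t 0).im ∧
      ‖(((-1 : ℤ) : ℂ) - 1) * Ld β r h t 0 - ((-1 : ℤ) : ℂ) * Ld β r h t 1‖ ≤ r * 7.32 := by
  obtain ⟨q1, q2, q3⟩ := b3_h hh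
  have hR0 := b3_R0 hβ hr hκ
  have hR := b3_R hβ hr hκ (by linarith)
  have hD1 : DomR κ t := b3_dom (by linarith) (by linarith) (Or.inl (by linarith))
  have hD0 : DomR κ (t - h) := b3_dom (by linarith) (by linarith) (Or.inl (by linarith))
  have y1 := yA8 hD1 hk1 hk2 (by linarith) (by linarith)
  have y0 := yB8 hD0 hk1 hk2 (by linarith) (by linarith)
  have j1 := T3_14_d1_2 hD1 hβ hk1 hk2 (by linarith) (by linarith) hR0 hR
  exact b3_piece 0.65 0.7 0.362 0.393 0.378 0.68523 0.69629 0.67503 0.4875 1.9287 2.0093 0.04 0.085 0.085 2.3225 0.8153 0 0 (-0.47) (-0.44) (-0.455) 1.57617 1.6 1.12 1.1381 0.06 0.26 0.185 5.317 5.5821 0 0 0.1945 7.32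
    hβ hr hκ (by norm_num) hk1 hk2 hD1 hD0 j1 (j1 _ (by rw [sub_self, norm_zero]; norm_num))
    (T3_14_d0_2 hD0 hβ hk1 hk2 (by linarith) (by linarith) hR0 hR)
    (T3_14_p0 hD0 hβ hk1 hk2 (by linarith) (by linarith) hR0 hR)
    y1.1 y1.2 y0.1 y0.2 (by norm_num)
    (ex_um 0.362 (by norm_num) (by norm_num) (by norm_num) (by norm_num)) (ex_um 0.393 (by norm_num) (by norm_num) (by norm_num) (by norm_num)) (ex_lm 0.378 (by norm_num) (by norm_num) (by norm_num) (by norm_num) (by norm_num)) (by norm_num) (by norm_num) (by norm_num) (by norm_num) (by norm_num) (by norm_num) (by norm_num) (by norm_num)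
    (by norm_num) (by norm_num) (by norm_num) (by norm_num) (by norm_num) (by norm_num) (by norm_num) (by norm_num) (by norm_num) (by norm_num)
    (ex_up 0.47 (by norm_num) (by norm_num) (by norm_num) (by norm_num)) (ex_lp 0.455 (by norm_num) (by norm_num) (by norm_num)) (by norm_num) (by norm_num) (by norm_num) (by norm_num) (by norm_num) (by norm_num)
    (by norm_num) (by norm_num) (by norm_num) (by norm_num) (by norm_num) (by norm_num) (by norm_num) (by norm_num) (by norm_num) (by norm_num) (by norm_num)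
    (by norm_num) (by norm_num) (by norm_num) (by norm_num)

theorem innS {β r h t κ : ℝ} (hh : h = 2 * Real.pi / (3 : ℕ)) (hβ : 0 < β) (hr : 10 ≤ r) (hκ : κ = β * r)
    (hk1 : 0.65 ≤ κ) (hk2 : κ ≤ 0.7) (hT1 : 1.133 ≤ t + κ) (hT2 : t + κ ≤ 1.382) :
    Xf β r h t 0 ≠ 0 ∧ r * 0.1945 ≤ (Ld β r h t 1 - Ld β r h t 0).im ∧
      ‖(((-1 : ℤ) : ℂ) - 1) * Ld β r h t 0 - ((-1 : ℤ) : ℂ) * Ld β r h t 1‖ ≤ r * 7.32 := by
  rcases le_total (t + κ) 1.163 with f0 | g0
  · exact pc0 hh hβ hr hκ hk1 hk2 hT1 f0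
  rcases le_total (t + κ) 1.186 with f1 | g1
  · exact pc1 hh hβ hr hκ hk1 hk2 g0 f1
  rcases le_total (t + κ) 1.21 with f2 | g2
  · exact pc2 hh hβ hr hκ hk1 hk2 g1 f2
  rcases le_total (t + κ) 1.233 with f3 | g3
  · exact pc3 hh hβ hr hκ hk1 hk2 g2 f3
  rcases le_total (t + κ) 1.263 with f4 | g4
  · exact pc4 hh hβ hr hκ hk1 hk2 g3 f4
  rcases le_total (t + κ) 1.293 with f5 | g5
  · exact pc5 hh hβ hr hκ hk1 hk2 g4 f5
  rcases le_total (t + κ) 1.322 with f6 | g6
  · exact pc6 hh hβ hr hκ hk1 hk2 g5 f6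
  rcases le_total (t + κ) 1.352 with f7 | g7
  · exact pc7 hh hβ hr hκ hk1 hk2 g6 f7
  exact pc8 hh hβ hr hκ hk1 hk2 g7 hT2

theorem circ {p : ℤ} (hp : IsCoprime (3 : ℤ) p) {β r : ℝ} (hβ : 0 < β) (hr : 10 ≤ r) (hk1 : 0.65 ≤ β * r)
    (hk2 : β * r ≤ 0.7) : Circ (2 * Real.pi * p / (3 : ℕ) + β) r := by
  obtain ⟨κ, hκ⟩ : ∃ κ, κ = β * r := ⟨_, rfl⟩
  rw [← hκ] at hk1 hk2
  refine circ3 hp hr (h := 2 * Real.pi / (3 : ℕ)) (κ := κ) rfl 1.133 1.382 1.0089 0.1945 0.0038 0.0038 7.32 (by norm_num) (by norm_num) (by norm_num)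
    (by norm_num) (by norm_num) ?_ ?_ ?_ ?_ ?_ (by norm_num) (by norm_num)
  · intro t h1 h2
    exact (innS rfl hβ hr hκ hk1 hk2 h1 h2).1
  · intro t h1 h2
    exact (innE rfl hβ hr hκ hk1 hk2 h1 h2).1
  · intro t h1 h2
    exact (innE rfl hβ hr hκ hk1 hk2 h1 h2).2
  · intro t h1 h2
    exact (innS rfl hβ hr hκ hk1 hk2 h1 h2).2
  · intro t h1 h2 h3
    rcases h3 with h3 | h3
    · exact left rfl hβ hr hκ hk1 hk2 h1 h3
    · exact right0 rfl hβ hr hκ hk1 hk2 h3 h2

end B3_14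

end Sok
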