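import Pool.Agent.Lib.MP_816dec_an.R1b3D
import Pool.Agent.Lib.MP_816dec_an.R1b3J15

/-!
MP_816dec_an (A3, row R1, b = 3): the cell `0.7 ≤ κ ≤ 0.75`.
-/

set_option autoImplicit false
set_option maxHeartbeats 4000000
set_option linter.unusedVariables false

open Complex Set

namespace Sok

namespace B3_15

private theorem yL {κ t : ℝ} (h : DomR κ t) (hk1 : 0.7 ≤ κ) (hk2 : κ ≤ 0.75) (ht1 : 0 ≤ t + κ) (ht2 : t + κ ≤ 1.121) :
    0 ≤ sy κ t ∧ sy κ t ≤ 0.363 := by
  have hy1 : 0 ≤ sy κ t := sy_nonneg h (by linarith)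
  have hy2 : sy κ t ≤ 0.363 := syR_le h 0.7 0.75 1.121 0.363 1.43763 0.6833 0.69581 0.74552 hk1 hk2 (by linarith) (by norm_num) (by norm_num)
    (expn_ge (by norm_num) (by norm_num)) (by norm_num) (by norm_num) (Or.inr ((mul_le_mul_of_nonneg_left (expn_le (E := 1.43764) (by norm_num) (by norm_num) (by norm_num)) (by norm_num)).trans (by norm_num))) (by norm_num) (by norm_num) (by norm_num)
  exact ⟨hy1, hy2⟩

theorem left {β r h t κ : ℝ} (hh : h = 2 * Real.pi / (3 : ℕ)) (hβ : 0 < β) (hr : 10 ≤ r) (hκ : κ = β * r)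
    (hk1 : 0.7 ≤ κ) (hk2 : κ ≤ 0.75) (hT1 : 0 ≤ t + κ) (hT2 : t + κ ≤ 1.121) :
    ‖Xf β r h t (-1)‖ < |‖Xf β r h t 1‖ - ‖Xf β r h t 0‖| := by
  obtain ⟨q1, q2, q3⟩ := b3_h hh
  have hR0 := b3_R0 hβ hr hκ
  have hR := b3_R hβ hr hκ (by linarith)
  have hD1 : DomR κ t := b3_dom (by linarith) (by linarith) (Or.inl (by linarith))
  have hy := yL hD1 hk1 hk2 (by linarith) (by linarith)
  have hY : 0.8116 * Real.exp (r * 0.68038) ≤ ‖Xf β r h t 1‖ :=
    b3_lo hβ hr hκ (k := 1) (t' := t) (by push_cast; ring) hD1 0.035 1.9982 0.8116 0.68038 (by norm_num)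
      (T3_15_p1 hD1 hβ hk1 hk2 (by linarith) (by linarith) hR0 hR)
      (v5_Dup hD1 0.75 0 0.363 1 0.69559 1.9982 hk2 hy.1 hy.2 (ex_up 0 (by norm_num) (by norm_num) (by norm_num) (by norm_num)) (ex_um 0.363 (by norm_num) (by norm_num) (by norm_num) (by norm_num)) (by norm_num) (by norm_num) (by norm_num)) (by norm_num) (by norm_num)
      (b3_Vlo hD1 0.7 0.75 0 1.121 0.51 (-0.67334) 0.778 0.71231 0.33925 0.68038 hk1 hk2 (by linarith) (by linarith) (by norm_num) (ex_lm 0.67334 (by norm_num) (by norm_num) (by norm_num) (by norm_num) (by norm_num)) (by norm_num) (by norm_num) (by norm_num) (by norm_num) (by norm_num) (by norm_num) (by norm_num) (by norm_num) (ex_um 0.33925 (by norm_num) (by norm_num) (by norm_num) (by norm_num)) (by norm_num))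
  have h0 : ‖Xf β r h t 0‖ ≤ 0.7988 * ‖Xf β r h t 1‖ :=
    b3_cmp 0.5604 0.05823 0.00183 0.63038 0.794269 0.004435 0.7988 hr (b3_HU0 0.87 0.7 0.75 (-2.0944) (-0.97339) 1.46899 1.8386 1.92034 0.5439 0.52075 1.83858 1.1503 0.10926 0.91461 1.8676 0 0.05 0.000001 1.9665 0.62215 hβ hr hκ (by norm_num) hk1 hk2 (by norm_num) (by linarith) (by linarith) (by norm_num) (by norm_num) (ex_up 0.609 (by norm_num) (by norm_num) (by norm_num) (by norm_num)) (ex_up 0.6525 (by norm_num) (by norm_num) (by norm_num) (by norm_num)) (ex_um 0.609 (by norm_num) (by norm_num) (by norm_num) (by norm_num)) (ex_um 0.6525 (by norm_num) (by norm_num) (by norm_num) (by norm_num)) (by norm_num) (by norm_num) (ex_lp 0.609 (by norm_num) (by norm_num) (by norm_num)) (by norm_num) (by norm_num) (by norm_num) (by norm_num) (by norm_num) (by norm_num) (by norm_num) (by norm_num) (by norm_num) (by norm_num) (by norm_num) (by norm_num) (by norm_num) (by norm_num) (v5_hump 5.3966 13.333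 3.6515 0.0000003148 0.000001 hβ hr hκ hk1 hk2 (by norm_num) (tb := (-0.97339)) (by linarith) (by norm_num) (by norm_num) (by norm_num) (by norm_num) (by norm_num) (by norm_num) (by norm_num) (ex_un 14 0.99 (by norm_num) (by norm_num) (by norm_num) (by norm_num)) (by norm_num)) (by norm_num) (by norm_num)) hY (by norm_num) (by norm_num) (by norm_num) (by norm_num) (by norm_num) (ex_un 0 0.5823 (by norm_num) (by norm_num) (by norm_num) (by norm_num)) (by norm_num) (by norm_num) (by norm_num) (ex_un 6 0.3038 (by norm_num) (by norm_num) (by norm_num) (by norm_num)) (by norm_num) (by norm_num)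
  have h2 : ‖Xf β r h t (-1)‖ ≤ 0.0386 * ‖Xf β r h t 1‖ := by
    rcases le_total ((t + h) + κ) 2.22 with g0 | g0
    · exact b3_cmp 0.005941 0.51259 0.00112 0.68038 0.028759 0.000203 0.0386 hr ((b3_Xm hh).trans_le (b3_HF 0.56 0.7 0.75 2.09439 2.22 1.34064 0.67571 0.65705 1.47994 1.52197 0.65704 2.4971 0.10926 2.91509 0.0507 0.04099 0.6643 0.000001 3.9287 0.1468 0.16779 hβ hr hκ (by norm_num) hk1 hk2 (by norm_num) (by linarith) (by linarith) (by norm_num) (ex_um 0.392 (by norm_num) (by norm_num) (by norm_num) (by norm_num)) (ex_um 0.42 (by norm_num) (by norm_num) (by norm_num) (by norm_num)) (ex_up 0.392 (by norm_num) (by norm_num) (by norm_num) (by norm_num)) (ex_up 0.42 (by norm_num) (by norm_num) (by norm_num) (by norm_num)) (by norm_num) (by norm_num) (ex_lm 0.42 (by norm_num) (by norm_num) (by norm_num) (by norm_num) (by norm_num)) (by norm_num) (by norm_num) (by norm_num) (by norm_num) (by norm_num) (by norm_num) (by norm_num) (by norm_num)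 (by norm_num) (by norm_num) (by norm_num) (by norm_num) (ex_un 0 0.4099 (by norm_num) (by norm_num) (by norm_num) (by norm_num)) (v5_hump 2.2032 13.333 3.6515 0.0000003148 0.000001 hβ hr hκ hk1 hk2 (by norm_num) (tb := 2.22) (by linarith) (by norm_num) (by norm_num) (by norm_num) (by norm_num) (by norm_num) (by norm_num) (by norm_num) (ex_un 14 0.99 (by norm_num) (by norm_num) (by norm_num) (by norm_num)) (by norm_num)) (by norm_num) (by norm_num) (by norm_num))) hY (by norm_num) (by norm_num) (by norm_num) (by norm_num) (by norm_num) (ex_un 5 0.1259 (by norm_num) (by norm_num) (by norm_num) (by norm_num)) (by norm_num) (by norm_num) (by norm_num) (ex_un 6 0.8038 (by norm_num) (by norm_num) (by norm_num) (by norm_num)) (by norm_num) (by norm_num)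
    exact b3_cmp 1 0 0.008275 0.48038 0 0.038596 0.0386 hr (b3_w (b3_UD 0.7 0.75 2.22 3.2154 0.15 0.47684 0.15 1.9735 3.7854 0.2 hh hβ hr hκ (by norm_num) hk1 hk2 (by linarith) (by linarith) (by norm_num) (by norm_num) (by norm_num) (by norm_num) (by norm_num) (by norm_num) (by norm_num) (by norm_num) (by norm_num) (by norm_num) (by norm_num) (by norm_num) (by norm_num))) hY (by norm_num) (by norm_num) (by norm_num) (by norm_num) (by norm_num) (by norm_num) (by norm_num) (by norm_num) (by norm_num) (ex_un 4 0.8038 (by norm_num) (by norm_num) (by norm_num) (by norm_num)) (by norm_num) (by norm_num)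
  exact b3_out1 0.7988 0.0386 hY (by norm_num) h0 h2 (by norm_num)

private theorem yR0 {κ t : ℝ} (h : DomR κ t) (hk1 : 0.7 ≤ κ) (hk2 : κ ≤ 0.75) (ht1 : -0.7124 ≤ t + κ) (ht2 : t + κ ≤ 0.0001) :
    (-0.444) ≤ sy κ t ∧ sy κ t ≤ 0.005 := by
  have hy1 : -0.444 ≤ sy κ t := syL_ge h 0.7 0.75 0.7124 0.444 0.64146 0.64147 0.391 0.37974 0.40688 hk1 hk2 (by linarith) (by norm_num) (by norm_num) (by norm_num)
    (expm_ge (by norm_num) (by norm_num) (by norm_num) (by norm_num)) (expm_le (by norm_num) (by norm_num) (by norm_num)) (by norm_num)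
    (by norm_num) (by norm_num) (by norm_num) (by norm_num) (by norm_num) (by norm_num)
  have hy2 : sy κ t ≤ 0.005 := syR_le h 0.7 0.75 0.0001 0.005 1.00501 0.0065 0.0067 0.00718 hk1 hk2 (by linarith) (by norm_num) (by norm_num)
    (expn_ge (by norm_num) (by norm_num)) (by norm_num) (by norm_num) (Or.inr ((mul_le_mul_of_nonneg_left (expn_le (E := 1.00502) (by norm_num) (by norm_num) (by norm_num)) (by norm_num)).trans (by norm_num))) (by norm_num) (by norm_num) (by norm_num)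
  exact ⟨hy1, hy2⟩

theorem right0 {β r h t κ : ℝ} (hh : h = 2 * Real.pi / (3 : ℕ)) (hβ : 0 < β) (hr : 10 ≤ r) (hκ : κ = β * r)
    (hk1 : 0.7 ≤ κ) (hk2 : κ ≤ 0.75) (hT1 : 1.382 ≤ t + κ) (hT2 : t + κ ≤ h) :
    ‖Xf β r h t (-1)‖ < |‖Xf β r h t 1‖ - ‖Xf β r h t 0‖| := by
  obtain ⟨q1, q2, q3⟩ := b3_h hh
  have hR0 := b3_R0 hβ hr hκ
  have hR := b3_R hβ hr hκ (by linarith)
  have hD0 : DomR κ (t - h) := b3_dom (by linarith) (by linarith) (Or.inl (by linarith))
  have hy := yR0 hD0 hk1 hk2 (by linarith) (by linarith)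
  have hY : 0.8133 * Real.exp (r * 0.79396) ≤ ‖Xf β r h t 0‖ :=
    b3_lo hβ hr hκ (k := 0) (t' := t - h) (by push_cast; ring) hD0 0.09 1.567 0.8133 0.79396 (by norm_num)
      (T3_15_p0R hD0 hβ hk1 hk2 (by linarith) (by linarith) hR0 hR)
      (v5_Dup hD0 0.75 (-0.444) 0.005 1.55894 0.99502 1.567 hk2 hy.1 hy.2 (ex_up 0.444 (by norm_num) (by norm_num) (by norm_num) (by norm_num)) (ex_um 0.005 (by norm_num) (by norm_num) (by norm_num) (by norm_num)) (by norm_num) (by norm_num) (by norm_num)) (by norm_num) (by norm_num)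
      (b3_Vlo hD0 0.7 0.75 (-0.7124) 0.0001 1.42 0.35066 0.4184 0.91374 0.09021 0.79396 hk1 hk2 (by linarith) (by linarith) (by norm_num) (ex_lp 0.35066 (by norm_num) (by norm_num) (by norm_num)) (by norm_num) (by norm_num) (by norm_num) (by norm_num) (by norm_num) (by norm_num) (by norm_num) (by norm_num) (ex_um 0.09021 (by norm_num) (by norm_num) (by norm_num) (by norm_num)) (by norm_num))
  have h1 : ‖Xf β r h t 1‖ ≤ 0.2814 * ‖Xf β r h t 0‖ := by
    rcases le_total (t + κ) 1.97 with g0 | g0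
    · exact b3_cmp 0.1055 0.22492 0.000362 0.79396 0.281308 0.000071 0.2814 hr (b3_X1.trans_le (b3_HF 0.48 0.7 0.75 1.382 1.97 1.2324 0.71463 0.69768 1.39934 1.43333 0.69767 2.0573 0.10926 2.2027 0.3007 0.11841 0.3061 0.000001 2.1686 0.1589 0.56904 hβ hr hκ (by norm_num) hk1 hk2 (by norm_num) (by linarith) (by linarith) (by norm_num) (ex_um 0.336 (by norm_num) (by norm_num) (by norm_num) (by norm_num)) (ex_um 0.36 (by norm_num) (by norm_num) (by norm_num) (by norm_num)) (ex_up 0.336 (by norm_num) (by norm_num) (by norm_num) (by norm_num)) (ex_up 0.36 (by norm_num) (by norm_num) (by norm_num) (by norm_num)) (by norm_num) (by norm_num) (ex_lm 0.36 (by norm_num) (by norm_num) (by norm_num) (by norm_num) (by norm_num)) (by norm_num) (by norm_num) (by norm_num) (by norm_num) (by norm_num) (by norm_num) (by norm_num) (by norm_num) (by norm_num) (by norm_num) (by norm_num) (by norm_num) (ex_un 1 0.1841 (by norm_num) (by norm_num) (by norm_num) (by norm_num))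 (v5_hump 2.4532 13.333 3.6515 0.0000003148 0.000001 hβ hr hκ hk1 hk2 (by norm_num) (tb := 1.97) (by linarith) (by norm_num) (by norm_num) (by norm_num) (by norm_num) (by norm_num) (by norm_num) (by norm_num) (ex_un 14 0.99 (by norm_num) (by norm_num) (by norm_num) (by norm_num)) (by norm_num)) (by norm_num) (by norm_num) (by norm_num))) hY (by norm_num) (by norm_num) (by norm_num) (by norm_num) (by norm_num) (ex_un 2 0.2492 (by norm_num) (by norm_num) (by norm_num) (by norm_num)) (by norm_num) (by norm_num) (by norm_num) (ex_un 7 0.9396 (by norm_num) (by norm_num) (by norm_num) (by norm_num)) (by norm_num) (by norm_num)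
    exact b3_cmp 1 0 0.03212 0.34396 0 0.158531 0.2814 hr (b3_w (b3_UD1 0.7 0.75 1.97 2.0944 0.4 0.47684 0.4 2.0927 4.0141 0.45 hβ hr hκ (by norm_num) hk1 hk2 (by linarith) (by linarith) (by norm_num) (by norm_num) (by norm_num) (by norm_num) (by norm_num) (by norm_num) (by norm_num) (by norm_num) (by norm_num) (by norm_num) (by norm_num) (by norm_num) (by norm_num))) hY (by norm_num) (by norm_num) (by norm_num) (by norm_num) (by norm_num) (by norm_num) (by norm_num) (by norm_num) (by norm_num) (ex_un 3 0.4396 (by norm_num) (by norm_num) (by norm_num) (by norm_num)) (by norm_num) (by norm_num)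
  have h2 : ‖Xf β r h t (-1)‖ ≤ 0.0005 * ‖Xf β r h t 0‖ := by
    exact b3_cmp 1 0 0.0005882 0.74396 0 0.000406 0.0005 hr ((b3_Xm hh).trans_le (b3_U1 0.7 0.75 3.47639 4.1888 1.15559 0.10926 0.91461 0.9149 0.00002 0.4153 0.068796 0.56 hβ hr hκ (by norm_num) hk1 hk2 (by linarith) (by linarith) (by norm_num) (by norm_num) (by norm_num) (by norm_num) (by norm_num) (by norm_num) (by norm_num) (by norm_num) (by norm_num) (by norm_num) (by norm_num) (by norm_num) (by norm_num) (ex_un 9 0.149 (by norm_num) (by norm_num) (by norm_num) (by norm_num)) (v5_hump 0.2344 13.333 3.6515 0.04393 0.068796 hβ hr hκ hk1 hk2 (by norm_num) (tb := 4.1888) (by linarith) (by norm_num) (by norm_num) (by norm_num) (by norm_num) (by norm_num) (by norm_num) (by norm_num) (ex_un 3 0.1252 (by norm_num) (by norm_num) (by norm_num) (by norm_num)) (by norm_num)) (by norm_num))) hY (by norm_num) (by norm_num) (by norm_num) (by norm_num) (by norm_num) (by norm_num) (by norm_num)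 (by norm_num) (by norm_num) (ex_un 7 0.4396 (by norm_num) (by norm_num) (by norm_num) (by norm_num)) (by norm_num) (by norm_num)
  exact b3_out0 0.2814 0.0005 hY (by norm_num) h1 h2 (by norm_num)

private theorem yI {κ t : ℝ} (h : DomR κ t) (hk1 : 0.7 ≤ κ) (hk2 : κ ≤ 0.75) (ht1 : -0.9734 ≤ t + κ) (ht2 : t + κ ≤ -0.71239) :
    (-0.651) ≤ sy κ t ∧ sy κ t ≤ (-0.436) := by
  have hy1 : -0.651 ≤ sy κ t := syL_ge h 0.7 0.75 0.9734 0.651 0.52152 0.52153 0.4769 0.45267 0.48503 hk1 hk2 (by linarith) (by norm_num) (by norm_num) (by norm_num)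
    (expm_ge (by norm_num) (by norm_num) (by norm_num) (by norm_num)) (expm_le (by norm_num) (by norm_num) (by norm_num)) (by norm_num)
    (by norm_num) (by norm_num) (by norm_num) (by norm_num) (by norm_num) (by norm_num)
  have hy2 : sy κ t ≤ -0.436 := syL_le h 0.7 0.75 0.71239 0.436 0.64661 0.64662 0.37589 0.40276 hk1 hk2 (by linarith) (by norm_num) (by norm_num) (by norm_num)
    (expm_ge (by norm_num) (by norm_num) (by norm_num) (by norm_num)) (expm_le (by norm_num) (by norm_num) (by norm_num)) (by norm_num)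
    (by norm_num) (by norm_num) (by norm_num) (by norm_num) (by norm_num) (by norm_num)
  exact ⟨hy1, hy2⟩

theorem innE {β r h t κ : ℝ} (hh : h = 2 * Real.pi / (3 : ℕ)) (hβ : 0 < β) (hr : 10 ≤ r) (hκ : κ = β * r)
    (hk1 : 0.7 ≤ κ) (hk2 : κ ≤ 0.75) (hT1 : 1.121 ≤ t + κ) (hT2 : t + κ ≤ 1.382) :
    ‖Xf β r h t (-1)‖ ≤ 0.00326 * ‖Xf β r h t 0‖ ∧ ‖Xf β r h (t + β) (-1)‖ ≤ 0.00326 * ‖Xf β r h t 0‖ := by
  obtain ⟨q1, q2, q3⟩ := b3_h hh
  have hR0 := b3_R0 hβ hr hκ
  have hR := b3_R hβ hr hκ (by linarith)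
  have hD0 : DomR κ (t - h) := b3_dom (by linarith) (by linarith) (Or.inl (by linarith))
  have hy := yI hD0 hk1 hk2 (by linarith) (by linarith)
  have hY : 0.7113 * Real.exp (r * 0.59144) ≤ ‖Xf β r h t 0‖ :=
    b3_lo hβ hr hκ (k := 0) (t' := t - h) (by push_cast; ring) hD0 0.18 1.7662 0.7113 0.59144 (by norm_num)
      (T3_15_p0 hD0 hβ hk1 hk2 (by linarith) (by linarith) hR0 hR)
      (v5_Dup hD0 0.75 (-0.651) (-0.436) 1.91746 1.54651 1.7662 hk2 hy.1 hy.2 (ex_up 0.651 (by norm_num) (by norm_num) (by norm_num) (by norm_num)) (ex_up 0.436 (by norm_num) (by norm_num) (by norm_num) (by norm_num)) (by norm_num) (by norm_num) (by norm_num)) (by norm_num) (by norm_num)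
      (b3_Vlo hD0 0.7 0.75 (-0.9734) (-0.71239) 1.67 0.51283 0.5044 0.87546 0.13301 0.59144 hk1 hk2 (by linarith) (by linarith) (by norm_num) (ex_lp 0.51283 (by norm_num) (by norm_num) (by norm_num)) (by norm_num) (by norm_num) (by norm_num) (by norm_num) (by norm_num) (by norm_num) (by norm_num) (by norm_num) (ex_um 0.13301 (by norm_num) (by norm_num) (by norm_num) (by norm_num)) (by norm_num))
  constructor
  · exact b3_cmp 1 0 0.004456 0.54144 0 0.003251 0.00326 hr ((b3_Xm hh).trans_le (b3_U1 0.7 0.75 3.21539 3.4764 0.89459 0.10926 0.91461 0.7798 0.00006 0.6763 0.000006 0.5188 hβ hr hκ (by norm_num) hk1 hk2 (by linarith) (by linarith) (by norm_num) (by norm_num) (by norm_num) (by norm_num) (by norm_num) (by norm_num) (by norm_num) (by norm_num) (by norm_num) (by norm_num) (by norm_num) (by norm_num) (by norm_num) (ex_un 7 0.798 (by norm_num) (by norm_num) (by norm_num) (by norm_num)) (v5_hump 0.9468 13.333 3.6515 0.000003307 0.000006 hβ hr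 hκ hk1 hk2 (by norm_num) (tb := 3.4764) (by linarith) (by norm_num) (by norm_num) (by norm_num) (by norm_num) (by norm_num) (by norm_num) (by norm_num) (ex_un 12 0.6236 (by norm_num) (by norm_num) (by norm_num) (by norm_num)) (by norm_num)) (by norm_num))) hY (by norm_num) (by norm_num) (by norm_num) (by norm_num) (by norm_num) (by norm_num) (by norm_num) (by norm_num) (by norm_num) (ex_un 5 0.4144 (by norm_num) (by norm_num) (by norm_num) (by norm_num)) (by norm_num) (by norm_num)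
  · exact b3_cmp 1 0 0.004456 0.54144 0 0.003251 0.00326 hr ((b3_Xm hh).trans_le (b3_U1 0.7 0.75 3.21539 3.5514 0.89459 0.10926 0.91461 0.7798 0.00006 0.6763 0.000015 0.5188 hβ hr hκ (by norm_num) hk1 hk2 (by linarith) (by linarith) (by norm_num) (by norm_num) (by norm_num) (by norm_num) (by norm_num) (by norm_num) (by norm_num) (by norm_num) (by norm_num) (by norm_num) (by norm_num) (by norm_num) (by norm_num) (ex_un 7 0.798 (by norm_num) (by norm_num) (by norm_num) (by norm_num)) (v5_hump 0.8718 13.333 3.6515 0.000008986 0.000015 hβ hr hκ hk1 hk2 (by norm_num) (tb := 3.5514) (by linarith) (by norm_num) (by norm_num) (by norm_num) (by norm_num) (by norm_num) (by norm_num) (by norm_num) (ex_un 11 0.6237 (by norm_num) (by norm_num) (by norm_num) (by norm_num)) (by norm_num)) (by norm_num))) hY (by norm_num) (by norm_num) (by norm_num) (by norm_num) (by norm_num) (by norm_num) (by norm_num) (by norm_num) (by norm_num) (ex_un 5 0.4144 (by norm_num)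 (by norm_num) (by norm_num) (by norm_num)) (by norm_num) (by norm_num)

private theorem yA0 {κ t : ℝ} (h : DomR κ t) (hk1 : 0.7 ≤ κ) (hk2 : κ ≤ 0.75) (ht1 : 1.121 ≤ t + κ) (ht2 : t + κ ≤ 1.151) :
    0.343 ≤ sy κ t ∧ sy κ t ≤ 0.37 := by
  have hy1 : 0.343 ≤ sy κ t := syR_ge h 0.7 0.75 1.121 0.343 1.40916 1.40917 0.64445 0.6905 hk1 hk2 (by linarith) (by norm_num) (by norm_num)
    (expn_ge (by norm_num) (by norm_num)) (expn_le (by norm_num) (by norm_num) (by norm_num)) (by norm_num)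
    (by norm_num) (by norm_num) (by norm_num) (by norm_num) (by norm_num) (by norm_num)
  have hy2 : sy κ t ≤ 0.37 := syR_le h 0.7 0.75 1.151 0.37 1.44773 0.7014 0.71421 0.76524 hk1 hk2 (by linarith) (by norm_num) (by norm_num)
    (expn_ge (by norm_num) (by norm_num)) (by norm_num) (by norm_num) (Or.inr ((mul_le_mul_of_nonneg_left (expn_le (E := 1.44774) (by norm_num) (by norm_num) (by norm_num)) (by norm_num)).trans (by norm_num))) (by norm_num) (by norm_num) (by norm_num)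
  exact ⟨hy1, hy2⟩

private theorem yB0 {κ t : ℝ} (h : DomR κ t) (hk1 : 0.7 ≤ κ) (hk2 : κ ≤ 0.75) (ht1 : -0.9734 ≤ t + κ) (ht2 : t + κ ≤ -0.94339) :
    (-0.651) ≤ sy κ t ∧ sy κ t ≤ (-0.606) := by
  have hy1 : -0.651 ≤ sy κ t := syL_ge h 0.7 0.75 0.9734 0.651 0.52152 0.52153 0.4769 0.45267 0.48503 hk1 hk2 (by linarith) (by norm_num) (by norm_num) (by norm_num)
    (expm_ge (by norm_num) (by norm_num) (by norm_num) (by norm_num)) (expm_le (by norm_num) (by norm_num) (by norm_num)) (by norm_num)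
    (by norm_num) (by norm_num) (by norm_num) (by norm_num) (by norm_num) (by norm_num)
  have hy2 : sy κ t ≤ -0.606 := syL_le h 0.7 0.75 0.94339 0.606 0.54552 0.54554 0.44078 0.47229 hk1 hk2 (by linarith) (by norm_num) (by norm_num) (by norm_num)
    (expm_ge (by norm_num) (by norm_num) (by norm_num) (by norm_num)) (expm_le (by norm_num) (by norm_num) (by norm_num)) (by norm_num)
    (by norm_num) (by norm_num) (by norm_num) (by norm_num) (by norm_num) (by norm_num)
  exact ⟨hy1, hy2⟩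

theorem pc0 {β r h t κ : ℝ} (hh : h = 2 * Real.pi / (3 : ℕ)) (hβ : 0 < β) (hr : 10 ≤ r) (hκ : κ = β * r)
    (hk1 : 0.7 ≤ κ) (hk2 : κ ≤ 0.75) (hT1 : 1.121 ≤ t + κ) (hT2 : t + κ ≤ 1.151) :
    Xf β r h t 0 ≠ 0 ∧ r * 0.3125 ≤ (Ld β r h t 1 - Ld β r h t 0).im ∧
      ‖(((-1 : ℤ) : ℂ) - 1) * Ld β r h t 0 - ((-1 : ℤ) : ℂ) * Ld β r h t 1‖ ≤ r * 6.85 := by
  obtain ⟨q1, q2, q3⟩ := b3_h hh
  have hR0 := b3_R0 hβ hr hκ
  have hR := b3_R hβ hr hκ (by linarith)
  have hD1 : DomR κ t := b3_dom (by linarith) (by linarith) (Or.inl (by linarith))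
  have hD0 : DomR κ (t - h) := b3_dom (by linarith) (by linarith) (Or.inl (by linarith))
  have y1 := yA0 hD1 hk1 hk2 (by linarith) (by linarith)
  have y0 := yB0 hD0 hk1 hk2 (by linarith) (by linarith)
  have j1 := T3_15_d1_0 hD1 hβ hk1 hk2 (by linarith) (by linarith) hR0 hR
  exact b3_piece 0.7 0.75 0.343 0.37 0.356 0.70047 0.70964 0.69074 0.5323 1.9326 2.0084 0.06 0.065 0.065 1.1587 0.4437 0 0 (-0.651) (-0.606) (-0.628) 1.87385 1.91746 1.4381 1.4328 0.05 0.31 0.18 7.561 9.084 0 0 0.3125 6.85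
    hβ hr hκ (by norm_num) hk1 hk2 hD1 hD0 j1 (j1 _ (by rw [sub_self, norm_zero]; norm_num))
    (T3_15_d0_0 hD0 hβ hk1 hk2 (by linarith) (by linarith) hR0 hR)
    (T3_15_p0 hD0 hβ hk1 hk2 (by linarith) (by linarith) hR0 hR)
    y1.1 y1.2 y0.1 y0.2 (by norm_num)
    (ex_um 0.343 (by norm_num) (by norm_num) (by norm_num) (by norm_num)) (ex_um 0.37 (by norm_num) (by norm_num) (by norm_num) (by norm_num)) (ex_lm 0.356 (by norm_num) (by norm_num) (by norm_num) (by norm_num) (by norm_num)) (by norm_num) (by norm_num) (by norm_num) (by norm_num) (by norm_num) (by norm_num) (by norm_num) (by norm_num)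
    (by norm_num) (by norm_num) (by norm_num) (by norm_num) (by norm_num) (by norm_num) (by norm_num) (by norm_num) (by norm_num) (by norm_num)
    (ex_up 0.651 (by norm_num) (by norm_num) (by norm_num) (by norm_num)) (ex_lp 0.628 (by norm_num) (by norm_num) (by norm_num)) (by norm_num) (by norm_num) (by norm_num) (by norm_num) (by norm_num) (by norm_num)
    (by norm_num) (by norm_num) (by norm_num) (by norm_num) (by norm_num) (by norm_num) (by norm_num) (by norm_num) (by norm_num) (by norm_num) (by norm_num)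
    (by norm_num) (by norm_num) (by norm_num) (by norm_num)

private theorem yA1 {κ t : ℝ} (h : DomR κ t) (hk1 : 0.7 ≤ κ) (hk2 : κ ≤ 0.75) (ht1 : 1.151 ≤ t + κ) (ht2 : t + κ ≤ 1.174) :
    0.349 ≤ sy κ t ∧ sy κ t ≤ 0.374 := by
  have hy1 : 0.349 ≤ sy κ t := syR_ge h 0.7 0.75 1.151 0.349 1.41764 1.41765 0.65967 0.7068 hk1 hk2 (by linarith) (by norm_num) (by norm_num)
    (expn_ge (by norm_num) (by norm_num)) (expn_le (by norm_num) (by norm_num) (by norm_num)) (by norm_num)
    (by norm_num) (by norm_num) (by norm_num) (by norm_num) (by norm_num) (by norm_num)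
  have hy2 : sy κ t ≤ 0.374 := syR_le h 0.7 0.75 1.174 0.374 1.45353 0.7118 0.72482 0.77661 hk1 hk2 (by linarith) (by norm_num) (by norm_num)
    (expn_ge (by norm_num) (by norm_num)) (by norm_num) (by norm_num) (Or.inr ((mul_le_mul_of_nonneg_left (expn_le (E := 1.45354) (by norm_num) (by norm_num) (by norm_num)) (by norm_num)).trans (by norm_num))) (by norm_num) (by norm_num) (by norm_num)
  exact ⟨hy1, hy2⟩

private theorem yB1 {κ t : ℝ} (h : DomR κ t) (hk1 : 0.7 ≤ κ) (hk2 : κ ≤ 0.75) (ht1 : -0.9434 ≤ t + κ) (ht2 : t + κ ≤ -0.92039) :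
    (-0.628) ≤ sy κ t ∧ sy κ t ≤ (-0.589) := by
  have hy1 : -0.628 ≤ sy κ t := syL_ge h 0.7 0.75 0.9434 0.628 0.53365 0.53367 0.4521 0.44684 0.47878 hk1 hk2 (by linarith) (by norm_num) (by norm_num) (by norm_num)
    (expm_ge (by norm_num) (by norm_num) (by norm_num) (by norm_num)) (expm_le (by norm_num) (by norm_num) (by norm_num)) (by norm_num)
    (by norm_num) (by norm_num) (by norm_num) (by norm_num) (by norm_num) (by norm_num)
  have hy2 : sy κ t ≤ -0.589 := syL_le h 0.7 0.75 0.92039 0.589 0.55488 0.55489 0.43576 0.46691 hk1 hk2 (by linarith) (by norm_num) (by norm_num) (by norm_num)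
    (expm_ge (by norm_num) (by norm_num) (by norm_num) (by norm_num)) (expm_le (by norm_num) (by norm_num) (by norm_num)) (by norm_num)
    (by norm_num) (by norm_num) (by norm_num) (by norm_num) (by norm_num) (by norm_num)
  exact ⟨hy1, hy2⟩

theorem pc1 {β r h t κ : ℝ} (hh : h = 2 * Real.pi / (3 : ℕ)) (hβ : 0 < β) (hr : 10 ≤ r) (hκ : κ = β * r)
    (hk1 : 0.7 ≤ κ) (hk2 : κ ≤ 0.75) (hT1 : 1.151 ≤ t + κ) (hT2 : t + κ ≤ 1.174) :
    Xf β r h t 0 ≠ 0 ∧ r * 0.3125 ≤ (Ld β r h t 1 - Ld β r h t 0).im ∧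
      ‖(((-1 : ℤ) : ℂ) - 1) * Ld β r h t 0 - ((-1 : ℤ) : ℂ) * Ld β r h t 1‖ ≤ r * 6.85 := by
  obtain ⟨q1, q2, q3⟩ := b3_h hh
  have hR0 := b3_R0 hβ hr hκ
  have hR := b3_R hβ hr hκ (by linarith)
  have hD1 : DomR κ t := b3_dom (by linarith) (by linarith) (Or.inl (by linarith))
  have hD0 : DomR κ (t - h) := b3_dom (by linarith) (by linarith) (Or.inl (by linarith))
  have y1 := yA1 hD1 hk1 hk2 (by linarith) (by linarith)
  have y0 := yB1 hD0 hk1 hk2 (by linarith) (by linarith)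
  have j1 := T3_15_d1_1 hD1 hβ hk1 hk2 (by linarith) (by linarith) hR0 hR
  exact b3_piece 0.7 0.75 0.349 0.374 0.361 0.69697 0.7054 0.68798 0.5291 1.9417 2.0143 0.06 0.08 0.08 1.4493 0.5504 0 0 (-0.628) (-0.589) (-0.609) 1.83858 1.87386 1.4054 1.4121 0.06 0.32 0.18 6.5041 7.6923 0 0 0.3125 6.85
    hβ hr hκ (by norm_num) hk1 hk2 hD1 hD0 j1 (j1 _ (by rw [sub_self, norm_zero]; norm_num))
    (T3_15_d0_1 hD0 hβ hk1 hk2 (by linarith) (by linarith) hR0 hR)
    (T3_15_p0 hD0 hβ hk1 hk2 (by linarith) (by linarith) hR0 hR)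
    y1.1 y1.2 y0.1 y0.2 (by norm_num)
    (ex_um 0.349 (by norm_num) (by norm_num) (by norm_num) (by norm_num)) (ex_um 0.374 (by norm_num) (by norm_num) (by norm_num) (by norm_num)) (ex_lm 0.361 (by norm_num) (by norm_num) (by norm_num) (by norm_num) (by norm_num)) (by norm_num) (by norm_num) (by norm_num) (by norm_num) (by norm_num) (by norm_num) (by norm_num) (by norm_num)
    (by norm_num) (by norm_num) (by norm_num) (by norm_num) (by norm_num) (by norm_num) (by norm_num) (by norm_num) (by norm_num) (by norm_num)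
    (ex_up 0.628 (by norm_num) (by norm_num) (by norm_num) (by norm_num)) (ex_lp 0.609 (by norm_num) (by norm_num) (by norm_num)) (by norm_num) (by norm_num) (by norm_num) (by norm_num) (by norm_num) (by norm_num)
    (by norm_num) (by norm_num) (by norm_num) (by norm_num) (by norm_num) (by norm_num) (by norm_num) (by norm_num) (by norm_num) (by norm_num) (by norm_num)
    (by norm_num) (by norm_num) (by norm_num) (by norm_num)

private theorem yA2 {κ t : ℝ} (h : DomR κ t) (hk1 : 0.7 ≤ κ) (hk2 : κ ≤ 0.75) (ht1 : 1.174 ≤ t + κ) (ht2 : t + κ ≤ 1.198) :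
    0.353 ≤ sy κ t ∧ sy κ t ≤ 0.378 := by
  have hy1 : 0.353 ≤ sy κ t := syR_ge h 0.7 0.75 1.174 0.353 1.42333 1.42334 0.66991 0.71778 hk1 hk2 (by linarith) (by norm_num) (by norm_num)
    (expn_ge (by norm_num) (by norm_num)) (expn_le (by norm_num) (by norm_num) (by norm_num)) (by norm_num)
    (by norm_num) (by norm_num) (by norm_num) (by norm_num) (by norm_num) (by norm_num)
  have hy2 : sy κ t ≤ 0.378 := syR_ang2 h 0.7 0.75 1.198 0.826 0.6783 0.7353 0.378 0.68524 1.45936 hk1 hk2 (by linarith) (by norm_num) (by norm_num) (by norm_num)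
    (cos_le_num (by norm_num)) (sin_le_num (by norm_num) (by norm_num)) (expm_le (by norm_num) (by norm_num) (by norm_num))
    (expn_ge (by norm_num) (by norm_num)) (by norm_num) (by norm_num) (by norm_num) (by norm_num) (by norm_num)
  exact ⟨hy1, hy2⟩

private theorem yB2 {κ t : ℝ} (h : DomR κ t) (hk1 : 0.7 ≤ κ) (hk2 : κ ≤ 0.75) (ht1 : -0.9204 ≤ t + κ) (ht2 : t + κ ≤ -0.89639) :
    (-0.609) ≤ sy κ t ∧ sy κ t ≤ (-0.571) := by
  have hy1 : -0.609 ≤ sy κ t := syL_ge h 0.7 0.75 0.9204 0.609 0.54389 0.5439 0.4574 0.44163 0.4732 hk1 hk2 (by linarith) (by norm_num) (by norm_num) (by norm_num)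
    (expm_ge (by norm_num) (by norm_num) (by norm_num) (by norm_num)) (expm_le (by norm_num) (by norm_num) (by norm_num)) (by norm_num)
    (by norm_num) (by norm_num) (by norm_num) (by norm_num) (by norm_num) (by norm_num)
  have hy2 : sy κ t ≤ -0.571 := syL_le h 0.7 0.75 0.89639 0.571 0.56496 0.56497 0.43012 0.46086 hk1 hk2 (by linarith) (by norm_num) (by norm_num) (by norm_num)
    (expm_ge (by norm_num) (by norm_num) (by norm_num) (by norm_num)) (expm_le (by norm_num) (by norm_num) (by norm_num)) (by norm_num)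
    (by norm_num) (by norm_num) (by norm_num) (by norm_num) (by norm_num) (by norm_num)
  exact ⟨hy1, hy2⟩

theorem pc2 {β r h t κ : ℝ} (hh : h = 2 * Real.pi / (3 : ℕ)) (hβ : 0 < β) (hr : 10 ≤ r) (hκ : κ = β * r)
    (hk1 : 0.7 ≤ κ) (hk2 : κ ≤ 0.75) (hT1 : 1.174 ≤ t + κ) (hT2 : t + κ ≤ 1.198) :
    Xf β r h t 0 ≠ 0 ∧ r * 0.3125 ≤ (Ld β r h t 1 - Ld β r h t 0).im ∧
      ‖(((-1 : ℤ) : ℂ) - 1) * Ld β r h t 0 - ((-1 : ℤ) : ℂ) * Ld β r h t 1‖ ≤ r * 6.85 := by
  obtain ⟨q1, q2, q3⟩ := b3_h hh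
  have hR0 := b3_R0 hβ hr hκ
  have hR := b3_R hβ hr hκ (by linarith)
  have hD1 : DomR κ t := b3_dom (by linarith) (by linarith) (Or.inl (by linarith))
  have hD0 : DomR κ (t - h) := b3_dom (by linarith) (by linarith) (Or.inl (by linarith))
  have y1 := yA2 hD1 hk1 hk2 (by linarith) (by linarith)
  have y0 := yB2 hD0 hk1 hk2 (by linarith) (by linarith)
  have j1 := T3_15_d1_1 hD1 hβ hk1 hk2 (by linarith) (by linarith) hR0 hR
  exact b3_piece 0.7 0.75 0.353 0.378 0.365 0.69419 0.70258 0.68524 0.527 1.9477 2.0202 0.06 0.08 0.08 1.4493 0.5473 0 0 (-0.609) (-0.571) (-0.59) 1.80398 1.8386 1.379 1.392 0.06 0.32 0.18 6.5041 7.6021 0 0 0.3125 6.85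
    hβ hr hκ (by norm_num) hk1 hk2 hD1 hD0 j1 (j1 _ (by rw [sub_self, norm_zero]; norm_num))
    (T3_15_d0_1 hD0 hβ hk1 hk2 (by linarith) (by linarith) hR0 hR)
    (T3_15_p0 hD0 hβ hk1 hk2 (by linarith) (by linarith) hR0 hR)
    y1.1 y1.2 y0.1 y0.2 (by norm_num)
    (ex_um 0.353 (by norm_num) (by norm_num) (by norm_num) (by norm_num)) (ex_um 0.378 (by norm_num) (by norm_num) (by norm_num) (by norm_num)) (ex_lm 0.365 (by norm_num) (by norm_num) (by norm_num) (by norm_num) (by norm_num)) (by norm_num) (by norm_num) (by norm_num) (by norm_num) (by norm_num) (by norm_num) (by norm_num) (by norm_num)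
    (by norm_num) (by norm_num) (by norm_num) (by norm_num) (by norm_num) (by norm_num) (by norm_num) (by norm_num) (by norm_num) (by norm_num)
    (ex_up 0.609 (by norm_num) (by norm_num) (by norm_num) (by norm_num)) (ex_lp 0.59 (by norm_num) (by norm_num) (by norm_num)) (by norm_num) (by norm_num) (by norm_num) (by norm_num) (by norm_num) (by norm_num)
    (by norm_num) (by norm_num) (by norm_num) (by norm_num) (by norm_num) (by norm_num) (by norm_num) (by norm_num) (by norm_num) (by norm_num) (by norm_num)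
    (by norm_num) (by norm_num) (by norm_num) (by norm_num)

private theorem yA3 {κ t : ℝ} (h : DomR κ t) (hk1 : 0.7 ≤ κ) (hk2 : κ ≤ 0.75) (ht1 : 1.198 ≤ t + κ) (ht2 : t + κ ≤ 1.221) :
    0.357 ≤ sy κ t ∧ sy κ t ≤ 0.382 := by
  have hy1 : 0.357 ≤ sy κ t := syR_ge h 0.7 0.75 1.198 0.357 1.42903 1.42904 0.68021 0.72882 hk1 hk2 (by linarith) (by norm_num) (by norm_num)
    (expn_ge (by norm_num) (by norm_num)) (expn_le (by norm_num) (by norm_num) (by norm_num)) (by norm_num)
    (by norm_num) (by norm_num) (by norm_num) (by norm_num) (by norm_num) (by norm_num)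
  have hy2 : sy κ t ≤ 0.382 := syR_ang2 h 0.7 0.75 1.221 0.842 0.6665 0.7461 0.382 0.6825 1.46521 hk1 hk2 (by linarith) (by norm_num) (by norm_num) (by norm_num)
    (cos_le_num (by norm_num)) (sin_le_num (by norm_num) (by norm_num)) (expm_le (by norm_num) (by norm_num) (by norm_num))
    (expn_ge (by norm_num) (by norm_num)) (by norm_num) (by norm_num) (by norm_num) (by norm_num) (by norm_num)
  exact ⟨hy1, hy2⟩

private theorem yB3 {κ t : ℝ} (h : DomR κ t) (hk1 : 0.7 ≤ κ) (hk2 : κ ≤ 0.75) (ht1 : -0.8964 ≤ t + κ) (ht2 : t + κ ≤ -0.87339) :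
    (-0.59) ≤ sy κ t ∧ sy κ t ≤ (-0.554) := by
  have hy1 : -0.59 ≤ sy κ t := syL_ge h 0.7 0.75 0.8964 0.59 0.55432 0.55433 0.4464 0.43606 0.46723 hk1 hk2 (by linarith) (by norm_num) (by norm_num) (by norm_num)
    (expm_ge (by norm_num) (by norm_num) (by norm_num) (by norm_num)) (expm_le (by norm_num) (by norm_num) (by norm_num)) (by norm_num)
    (by norm_num) (by norm_num) (by norm_num) (by norm_num) (by norm_num) (by norm_num)
  have hy2 : sy κ t ≤ -0.554 := syL_le h 0.7 0.75 0.87339 0.554 0.57464 0.57465 0.42446 0.4548 hk1 hk2 (by linarith) (by norm_num) (by norm_num) (by norm_num)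
    (expm_ge (by norm_num) (by norm_num) (by norm_num) (by norm_num)) (expm_le (by norm_num) (by norm_num) (by norm_num)) (by norm_num)
    (by norm_num) (by norm_num) (by norm_num) (by norm_num) (by norm_num) (by norm_num)
  exact ⟨hy1, hy2⟩

theorem pc3 {β r h t κ : ℝ} (hh : h = 2 * Real.pi / (3 : ℕ)) (hβ : 0 < β) (hr : 10 ≤ r) (hκ : κ = β * r)
    (hk1 : 0.7 ≤ κ) (hk2 : κ ≤ 0.75) (hT1 : 1.198 ≤ t + κ) (hT2 : t + κ ≤ 1.221) :
    Xf β r h t 0 ≠ 0 ∧ r * 0.3125 ≤ (Ld β r h t 1 - Ld β r h t 0).im ∧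
      ‖(((-1 : ℤ) : ℂ) - 1) * Ld β r h t 0 - ((-1 : ℤ) : ℂ) * Ld β r h t 1‖ ≤ r * 6.85 := by
  obtain ⟨q1, q2, q3⟩ := b3_h hh
  have hR0 := b3_R0 hβ hr hκ
  have hR := b3_R hβ hr hκ (by linarith)
  have hD1 : DomR κ t := b3_dom (by linarith) (by linarith) (Or.inl (by linarith))
  have hD0 : DomR κ (t - h) := b3_dom (by linarith) (by linarith) (Or.inl (by linarith))
  have y1 := yA3 hD1 hk1 hk2 (by linarith) (by linarith)
  have y0 := yB3 hD0 hk1 hk2 (by linarith) (by linarith)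
  have j1 := T3_15_d1_1 hD1 hβ hk1 hk2 (by linarith) (by linarith) hR0 hR
  exact b3_piece 0.7 0.75 0.357 0.382 0.369 0.69142 0.69978 0.6825 0.5249 1.9538 2.0261 0.06 0.08 0.08 1.4493 0.5443 0 0 (-0.59) (-0.554) (-0.572) 1.7718 1.80399 1.353 1.3748 0.06 0.32 0.18 6.5041 7.5053 0 0 0.3125 6.85
    hβ hr hκ (by norm_num) hk1 hk2 hD1 hD0 j1 (j1 _ (by rw [sub_self, norm_zero]; norm_num))
    (T3_15_d0_1 hD0 hβ hk1 hk2 (by linarith) (by linarith) hR0 hR)
    (T3_15_p0 hD0 hβ hk1 hk2 (by linarith) (by linarith) hR0 hR)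
    y1.1 y1.2 y0.1 y0.2 (by norm_num)
    (ex_um 0.357 (by norm_num) (by norm_num) (by norm_num) (by norm_num)) (ex_um 0.382 (by norm_num) (by norm_num) (by norm_num) (by norm_num)) (ex_lm 0.369 (by norm_num) (by norm_num) (by norm_num) (by norm_num) (by norm_num)) (by norm_num) (by norm_num) (by norm_num) (by norm_num) (by norm_num) (by norm_num) (by norm_num) (by norm_num)
    (by norm_num) (by norm_num) (by norm_num) (by norm_num) (by norm_num) (by norm_num) (by norm_num) (by norm_num) (by norm_num) (by norm_num)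
    (ex_up 0.59 (by norm_num) (by norm_num) (by norm_num) (by norm_num)) (ex_lp 0.572 (by norm_num) (by norm_num) (by norm_num)) (by norm_num) (by norm_num) (by norm_num) (by norm_num) (by norm_num) (by norm_num)
    (by norm_num) (by norm_num) (by norm_num) (by norm_num) (by norm_num) (by norm_num) (by norm_num) (by norm_num) (by norm_num) (by norm_num) (by norm_num)
    (by norm_num) (by norm_num) (by norm_num) (by norm_num)

private theorem yA4 {κ t : ℝ} (h : DomR κ t) (hk1 : 0.7 ≤ κ) (hk2 : κ ≤ 0.75) (ht1 : 1.221 ≤ t + κ) (ht2 : t + κ ≤ 1.248) :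
    0.361 ≤ sy κ t ∧ sy κ t ≤ 0.387 := by
  have hy1 : 0.361 ≤ sy κ t := syR_ge h 0.7 0.75 1.221 0.361 1.43476 1.43477 0.69059 0.73994 hk1 hk2 (by linarith) (by norm_num) (by norm_num)
    (expn_ge (by norm_num) (by norm_num)) (expn_le (by norm_num) (by norm_num) (by norm_num)) (by norm_num)
    (by norm_num) (by norm_num) (by norm_num) (by norm_num) (by norm_num) (by norm_num)
  have hy2 : sy κ t ≤ 0.387 := syR_ang2 h 0.7 0.75 1.248 0.862 0.6515 0.7593 0.387 0.6791 1.47255 hk1 hk2 (by linarith) (by norm_num) (by norm_num) (by norm_num)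
    (cos_le_num (by norm_num)) (sin_le_num (by norm_num) (by norm_num)) (expm_le (by norm_num) (by norm_num) (by norm_num))
    (expn_ge (by norm_num) (by norm_num)) (by norm_num) (by norm_num) (by norm_num) (by norm_num) (by norm_num)
  exact ⟨hy1, hy2⟩

private theorem yB4 {κ t : ℝ} (h : DomR κ t) (hk1 : 0.7 ≤ κ) (hk2 : κ ≤ 0.75) (ht1 : -0.8734 ≤ t + κ) (ht2 : t + κ ≤ -0.84639) :
    (-0.571) ≤ sy κ t ∧ sy κ t ≤ (-0.535) := by
  have hy1 : -0.571 ≤ sy κ t := syL_ge h 0.7 0.75 0.8734 0.571 0.56496 0.56497 0.4582 0.43012 0.46086 hk1 hk2 (by linarith) (by norm_num) (by norm_num) (by norm_num)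
    (expm_ge (by norm_num) (by norm_num) (by norm_num) (by norm_num)) (expm_le (by norm_num) (by norm_num) (by norm_num)) (by norm_num)
    (by norm_num) (by norm_num) (by norm_num) (by norm_num) (by norm_num) (by norm_num)
  have hy2 : sy κ t ≤ -0.535 := syL_le h 0.7 0.75 0.84639 0.535 0.58566 0.58568 0.41777 0.44763 hk1 hk2 (by linarith) (by norm_num) (by norm_num) (by norm_num)
    (expm_ge (by norm_num) (by norm_num) (by norm_num) (by norm_num)) (expm_le (by norm_num) (by norm_num) (by norm_num)) (by norm_num)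
    (by norm_num) (by norm_num) (by norm_num) (by norm_num) (by norm_num) (by norm_num)
  exact ⟨hy1, hy2⟩

theorem pc4 {β r h t κ : ℝ} (hh : h = 2 * Real.pi / (3 : ℕ)) (hβ : 0 < β) (hr : 10 ≤ r) (hκ : κ = β * r)
    (hk1 : 0.7 ≤ κ) (hk2 : κ ≤ 0.75) (hT1 : 1.221 ≤ t + κ) (hT2 : t + κ ≤ 1.248) :
    Xf β r h t 0 ≠ 0 ∧ r * 0.3125 ≤ (Ld β r h t 1 - Ld β r h t 0).im ∧
      ‖(((-1 : ℤ) : ℂ) - 1) * Ld β r h t 0 - ((-1 : ℤ) : ℂ) * Ld β r h t 1‖ ≤ r * 6.85 := by
  obtain ⟨q1, q2, q3⟩ := b3_h hh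
  have hR0 := b3_R0 hβ hr hκ
  have hR := b3_R hβ hr hκ (by linarith)
  have hD1 : DomR κ t := b3_dom (by linarith) (by linarith) (Or.inl (by linarith))
  have hD0 : DomR κ (t - h) := b3_dom (by linarith) (by linarith) (Or.inl (by linarith))
  have y1 := yA4 hD1 hk1 hk2 (by linarith) (by linarith)
  have y0 := yB4 hD0 hk1 hk2 (by linarith) (by linarith)
  have j1 := T3_15_d1_2 hD1 hβ hk1 hk2 (by linarith) (by linarith) hR0 hR
  exact b3_piece 0.7 0.75 0.361 0.387 0.374 0.68797 0.69698 0.6791 0.5228 1.9599 2.0335 0.04 0.1 0.1 2.7778 1.0374 0 0 (-0.571) (-0.535) (-0.553) 1.73845 1.77004 1.3276 1.3575 0.07 0.285 0.18 4.9652 5.6577 0 0 0.3125 6.85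
    hβ hr hκ (by norm_num) hk1 hk2 hD1 hD0 j1 (j1 _ (by rw [sub_self, norm_zero]; norm_num))
    (T3_15_d0_2 hD0 hβ hk1 hk2 (by linarith) (by linarith) hR0 hR)
    (T3_15_p0 hD0 hβ hk1 hk2 (by linarith) (by linarith) hR0 hR)
    y1.1 y1.2 y0.1 y0.2 (by norm_num)
    (ex_um 0.361 (by norm_num) (by norm_num) (by norm_num) (by norm_num)) (ex_um 0.387 (by norm_num) (by norm_num) (by norm_num) (by norm_num)) (ex_lm 0.374 (by norm_num) (by norm_num) (by norm_num) (by norm_num) (by norm_num)) (by norm_num) (by norm_num) (by norm_num) (by norm_num) (by norm_num) (by norm_num) (by norm_num) (by norm_num)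
    (by norm_num) (by norm_num) (by norm_num) (by norm_num) (by norm_num) (by norm_num) (by norm_num) (by norm_num) (by norm_num) (by norm_num)
    (ex_up 0.571 (by norm_num) (by norm_num) (by norm_num) (by norm_num)) (ex_lp 0.553 (by norm_num) (by norm_num) (by norm_num)) (by norm_num) (by norm_num) (by norm_num) (by norm_num) (by norm_num) (by norm_num)
    (by norm_num) (by norm_num) (by norm_num) (by norm_num) (by norm_num) (by norm_num) (by norm_num) (by norm_num) (by norm_num) (by norm_num) (by norm_num)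
    (by norm_num) (by norm_num) (by norm_num) (by norm_num)

private theorem yA5 {κ t : ℝ} (h : DomR κ t) (hk1 : 0.7 ≤ κ) (hk2 : κ ≤ 0.75) (ht1 : 1.248 ≤ t + κ) (ht2 : t + κ ≤ 1.275) :
    0.365 ≤ sy κ t ∧ sy κ t ≤ 0.391 := by
  have hy1 : 0.365 ≤ sy κ t := syR_ge h 0.7 0.75 1.248 0.365 1.44051 1.44052 0.70104 0.75113 hk1 hk2 (by linarith) (by norm_num) (by norm_num)
    (expn_ge (by norm_num) (by norm_num)) (expn_le (by norm_num) (by norm_num) (by norm_num)) (by norm_num)
    (by norm_num) (by norm_num) (by norm_num) (by norm_num) (by norm_num) (by norm_num)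
  have hy2 : sy κ t ≤ 0.391 := syR_ang2 h 0.7 0.75 1.275 0.879 0.6386 0.7702 0.391 0.67639 1.47845 hk1 hk2 (by linarith) (by norm_num) (by norm_num) (by norm_num)
    (cos_le_num (by norm_num)) (sin_le_num (by norm_num) (by norm_num)) (expm_le (by norm_num) (by norm_num) (by norm_num))
    (expn_ge (by norm_num) (by norm_num)) (by norm_num) (by norm_num) (by norm_num) (by norm_num) (by norm_num)
  exact ⟨hy1, hy2⟩

private theorem yB5 {κ t : ℝ} (h : DomR κ t) (hk1 : 0.7 ≤ κ) (hk2 : κ ≤ 0.75) (ht1 : -0.8464 ≤ t + κ) (ht2 : t + κ ≤ -0.81939) :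
    (-0.55) ≤ sy κ t ∧ sy κ t ≤ (-0.515) := by
  have hy1 : -0.55 ≤ sy κ t := syL_ge h 0.7 0.75 0.8464 0.55 0.57694 0.57696 0.4331 0.42308 0.45333 hk1 hk2 (by linarith) (by norm_num) (by norm_num) (by norm_num)
    (expm_ge (by norm_num) (by norm_num) (by norm_num) (by norm_num)) (expm_le (by norm_num) (by norm_num) (by norm_num)) (by norm_num)
    (by norm_num) (by norm_num) (by norm_num) (by norm_num) (by norm_num) (by norm_num)
  have hy2 : sy κ t ≤ -0.515 := syL_le h 0.7 0.75 0.81939 0.515 0.5975 0.59751 0.41028 0.4396 hk1 hk2 (by linarith) (by norm_num) (by norm_num) (by norm_num)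
    (expm_ge (by norm_num) (by norm_num) (by norm_num) (by norm_num)) (expm_le (by norm_num) (by norm_num) (by norm_num)) (by norm_num)
    (by norm_num) (by norm_num) (by norm_num) (by norm_num) (by norm_num) (by norm_num)
  exact ⟨hy1, hy2⟩

theorem pc5 {β r h t κ : ℝ} (hh : h = 2 * Real.pi / (3 : ℕ)) (hβ : 0 < β) (hr : 10 ≤ r) (hκ : κ = β * r)
    (hk1 : 0.7 ≤ κ) (hk2 : κ ≤ 0.75) (hT1 : 1.248 ≤ t + κ) (hT2 : t + κ ≤ 1.275) :
    Xf β r h t 0 ≠ 0 ∧ r * 0.3125 ≤ (Ld β r h t 1 - Ld β r h t 0).im ∧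
      ‖(((-1 : ℤ) : ℂ) - 1) * Ld β r h t 0 - ((-1 : ℤ) : ℂ) * Ld β r h t 1‖ ≤ r * 6.85 := by
  obtain ⟨q1, q2, q3⟩ := b3_h hh
  have hR0 := b3_R0 hβ hr hκ
  have hR := b3_R hβ hr hκ (by linarith)
  have hD1 : DomR κ t := b3_dom (by linarith) (by linarith) (Or.inl (by linarith))
  have hD0 : DomR κ (t - h) := b3_dom (by linarith) (by linarith) (Or.inl (by linarith))
  have y1 := yA5 hD1 hk1 hk2 (by linarith) (by linarith)
  have y0 := yB5 hD0 hk1 hk2 (by linarith) (by linarith)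
  have j1 := T3_15_d1_2 hD1 hβ hk1 hk2 (by linarith) (by linarith) hR0 hR
  exact b3_piece 0.7 0.75 0.365 0.391 0.378 0.68523 0.6942 0.67639 0.5207 1.966 2.0394 0.04 0.1 0.1 2.7778 1.0316 0 0 (-0.55) (-0.515) (-0.532) 1.70233 1.73326 1.3 1.3417 0.07 0.285 0.18 4.9652 5.5726 0 0 0.3125 6.85
    hβ hr hκ (by norm_num) hk1 hk2 hD1 hD0 j1 (j1 _ (by rw [sub_self, norm_zero]; norm_num))
    (T3_15_d0_2 hD0 hβ hk1 hk2 (by linarith) (by linarith) hR0 hR)
    (T3_15_p0 hD0 hβ hk1 hk2 (by linarith) (by linarith) hR0 hR)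
    y1.1 y1.2 y0.1 y0.2 (by norm_num)
    (ex_um 0.365 (by norm_num) (by norm_num) (by norm_num) (by norm_num)) (ex_um 0.391 (by norm_num) (by norm_num) (by norm_num) (by norm_num)) (ex_lm 0.378 (by norm_num) (by norm_num) (by norm_num) (by norm_num) (by norm_num)) (by norm_num) (by norm_num) (by norm_num) (by norm_num) (by norm_num) (by norm_num) (by norm_num) (by norm_num)
    (by norm_num) (by norm_num) (by norm_num) (by norm_num) (by norm_num) (by norm_num) (by norm_num) (by norm_num) (by norm_num) (by norm_num)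
    (ex_up 0.55 (by norm_num) (by norm_num) (by norm_num) (by norm_num)) (ex_lp 0.532 (by norm_num) (by norm_num) (by norm_num)) (by norm_num) (by norm_num) (by norm_num) (by norm_num) (by norm_num) (by norm_num)
    (by norm_num) (by norm_num) (by norm_num) (by norm_num) (by norm_num) (by norm_num) (by norm_num) (by norm_num) (by norm_num) (by norm_num) (by norm_num)
    (by norm_num) (by norm_num) (by norm_num) (by norm_num)

private theorem yA6 {κ t : ℝ} (h : DomR κ t) (hk1 : 0.7 ≤ κ) (hk2 : κ ≤ 0.75) (ht1 : 1.275 ≤ t + κ) (ht2 : t + κ ≤ 1.302) :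
    0.369 ≤ sy κ t ∧ sy κ t ≤ 0.395 := by
  have hy1 : 0.369 ≤ sy κ t := syR_ge h 0.7 0.75 1.275 0.369 1.44628 1.44629 0.71156 0.76241 hk1 hk2 (by linarith) (by norm_num) (by norm_num)
    (expn_ge (by norm_num) (by norm_num)) (expn_le (by norm_num) (by norm_num) (by norm_num)) (by norm_num)
    (by norm_num) (by norm_num) (by norm_num) (by norm_num) (by norm_num) (by norm_num)
  have hy2 : sy κ t ≤ 0.395 := syR_ang2 h 0.7 0.75 1.302 0.897 0.6247 0.7816 0.395 0.67369 1.48438 hk1 hk2 (by linarith) (by norm_num) (by norm_num) (by norm_num)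
    (cos_le_num (by norm_num)) (sin_le_num (by norm_num) (by norm_num)) (expm_le (by norm_num) (by norm_num) (by norm_num))
    (expn_ge (by norm_num) (by norm_num)) (by norm_num) (by norm_num) (by norm_num) (by norm_num) (by norm_num)
  exact ⟨hy1, hy2⟩

private theorem yB6 {κ t : ℝ} (h : DomR κ t) (hk1 : 0.7 ≤ κ) (hk2 : κ ≤ 0.75) (ht1 : -0.8194 ≤ t + κ) (ht2 : t + κ ≤ -0.79239) :
    (-0.528) ≤ sy κ t ∧ sy κ t ≤ (-0.495) := by
  have hy1 : -0.528 ≤ sy κ t := syL_ge h 0.7 0.75 0.8194 0.528 0.58978 0.58979 0.4349 0.4152 0.44488 hk1 hk2 (by linarith) (by norm_num) (by norm_num) (by norm_num)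
    (expm_ge (by norm_num) (by norm_num) (by norm_num) (by norm_num)) (expm_le (by norm_num) (by norm_num) (by norm_num)) (by norm_num)
    (by norm_num) (by norm_num) (by norm_num) (by norm_num) (by norm_num) (by norm_num)
  have hy2 : sy κ t ≤ -0.495 := syL_le h 0.7 0.75 0.79239 0.495 0.60957 0.60958 0.40231 0.43107 hk1 hk2 (by linarith) (by norm_num) (by norm_num) (by norm_num)
    (expm_ge (by norm_num) (by norm_num) (by norm_num) (by norm_num)) (expm_le (by norm_num) (by norm_num) (by norm_num)) (by norm_num)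
    (by norm_num) (by norm_num) (by norm_num) (by norm_num) (by norm_num) (by norm_num)
  exact ⟨hy1, hy2⟩

theorem pc6 {β r h t κ : ℝ} (hh : h = 2 * Real.pi / (3 : ℕ)) (hβ : 0 < β) (hr : 10 ≤ r) (hκ : κ = β * r)
    (hk1 : 0.7 ≤ κ) (hk2 : κ ≤ 0.75) (hT1 : 1.275 ≤ t + κ) (hT2 : t + κ ≤ 1.302) :
    Xf β r h t 0 ≠ 0 ∧ r * 0.3125 ≤ (Ld β r h t 1 - Ld β r h t 0).im ∧
      ‖(((-1 : ℤ) : ℂ) - 1) * Ld β r h t 0 - ((-1 : ℤ) : ℂ) * Ld β r h t 1‖ ≤ r * 6.85 := by
  obtain ⟨q1, q2, q3⟩ := b3_h hh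
  have hR0 := b3_R0 hβ hr hκ
  have hR := b3_R hβ hr hκ (by linarith)
  have hD1 : DomR κ t := b3_dom (by linarith) (by linarith) (Or.inl (by linarith))
  have hD0 : DomR κ (t - h) := b3_dom (by linarith) (by linarith) (Or.inl (by linarith))
  have y1 := yA6 hD1 hk1 hk2 (by linarith) (by linarith)
  have y0 := yB6 hD0 hk1 hk2 (by linarith) (by linarith)
  have j1 := T3_15_d1_2 hD1 hβ hk1 hk2 (by linarith) (by linarith) hR0 hR
  exact b3_piece 0.7 0.75 0.369 0.395 0.382 0.68249 0.69143 0.67369 0.5186 1.9721 2.0453 0.04 0.1 0.1 2.7778 1.0259 0 0 (-0.528) (-0.495) (-0.511) 1.66695 1.69554 1.2717 1.328 0.07 0.285 0.18 4.9652 5.4793 0 0 0.3125 6.85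
    hβ hr hκ (by norm_num) hk1 hk2 hD1 hD0 j1 (j1 _ (by rw [sub_self, norm_zero]; norm_num))
    (T3_15_d0_2 hD0 hβ hk1 hk2 (by linarith) (by linarith) hR0 hR)
    (T3_15_p0 hD0 hβ hk1 hk2 (by linarith) (by linarith) hR0 hR)
    y1.1 y1.2 y0.1 y0.2 (by norm_num)
    (ex_um 0.369 (by norm_num) (by norm_num) (by norm_num) (by norm_num)) (ex_um 0.395 (by norm_num) (by norm_num) (by norm_num) (by norm_num)) (ex_lm 0.382 (by norm_num) (by norm_num) (by norm_num) (by norm_num) (by norm_num)) (by norm_num) (by norm_num) (by norm_num) (by norm_num) (by norm_num) (by norm_num) (by norm_num) (by norm_num)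
    (by norm_num) (by norm_num) (by norm_num) (by norm_num) (by norm_num) (by norm_num) (by norm_num) (by norm_num) (by norm_num) (by norm_num)
    (ex_up 0.528 (by norm_num) (by norm_num) (by norm_num) (by norm_num)) (ex_lp 0.511 (by norm_num) (by norm_num) (by norm_num)) (by norm_num) (by norm_num) (by norm_num) (by norm_num) (by norm_num) (by norm_num)
    (by norm_num) (by norm_num) (by norm_num) (by norm_num) (by norm_num) (by norm_num) (by norm_num) (by norm_num) (by norm_num) (by norm_num) (by norm_num)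
    (by norm_num) (by norm_num) (by norm_num) (by norm_num)

private theorem yA7 {κ t : ℝ} (h : DomR κ t) (hk1 : 0.7 ≤ κ) (hk2 : κ ≤ 0.75) (ht1 : 1.302 ≤ t + κ) (ht2 : t + κ ≤ 1.328) :
    0.374 ≤ sy κ t ∧ sy κ t ≤ 0.399 := by
  have hy1 : 0.374 ≤ sy κ t := syR_ge h 0.7 0.75 1.302 0.374 1.45353 1.45354 0.72482 0.77661 hk1 hk2 (by linarith) (by norm_num) (by norm_num)
    (expn_ge (by norm_num) (by norm_num)) (expn_le (by norm_num) (by norm_num) (by norm_num)) (by norm_num)
    (by norm_num) (by norm_num) (by norm_num) (by norm_num) (by norm_num) (by norm_num)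
  have hy2 : sy κ t ≤ 0.399 := syR_ang2 h 0.7 0.75 1.328 0.915 0.6106 0.7927 0.399 0.671 1.49033 hk1 hk2 (by linarith) (by norm_num) (by norm_num) (by norm_num)
    (cos_le_num (by norm_num)) (sin_le_num (by norm_num) (by norm_num)) (expm_le (by norm_num) (by norm_num) (by norm_num))
    (expn_ge (by norm_num) (by norm_num)) (by norm_num) (by norm_num) (by norm_num) (by norm_num) (by norm_num)
  exact ⟨hy1, hy2⟩

private theorem yB7 {κ t : ℝ} (h : DomR κ t) (hk1 : 0.7 ≤ κ) (hk2 : κ ≤ 0.75) (ht1 : -0.7924 ≤ t + κ) (ht2 : t + κ ≤ -0.76639) :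
    (-0.507) ≤ sy κ t ∧ sy κ t ≤ (-0.476) := by
  have hy1 : -0.507 ≤ sy κ t := syL_ge h 0.7 0.75 0.7924 0.507 0.60229 0.60231 0.4168 0.40714 0.43625 hk1 hk2 (by linarith) (by norm_num) (by norm_num) (by norm_num)
    (expm_ge (by norm_num) (by norm_num) (by norm_num) (by norm_num)) (expm_le (by norm_num) (by norm_num) (by norm_num)) (by norm_num)
    (by norm_num) (by norm_num) (by norm_num) (by norm_num) (by norm_num) (by norm_num)
  have hy2 : sy κ t ≤ -0.476 := syL_le h 0.7 0.75 0.76639 0.476 0.62126 0.62127 0.39429 0.42247 hk1 hk2 (by linarith) (by norm_num) (by norm_num) (by norm_num)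
    (expm_ge (by norm_num) (by norm_num) (by norm_num) (by norm_num)) (expm_le (by norm_num) (by norm_num) (by norm_num)) (by norm_num)
    (by norm_num) (by norm_num) (by norm_num) (by norm_num) (by norm_num) (by norm_num)
  exact ⟨hy1, hy2⟩

theorem pc7 {β r h t κ : ℝ} (hh : h = 2 * Real.pi / (3 : ℕ)) (hβ : 0 < β) (hr : 10 ≤ r) (hκ : κ = β * r)
    (hk1 : 0.7 ≤ κ) (hk2 : κ ≤ 0.75) (hT1 : 1.302 ≤ t + κ) (hT2 : t + κ ≤ 1.328) :
    Xf β r h t 0 ≠ 0 ∧ r * 0.3125 ≤ (Ld β r h t 1 - Ld β r h t 0).im ∧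
      ‖(((-1 : ℤ) : ℂ) - 1) * Ld β r h t 0 - ((-1 : ℤ) : ℂ) * Ld β r h t 1‖ ≤ r * 6.85 := by
  obtain ⟨q1, q2, q3⟩ := b3_h hh
  have hR0 := b3_R0 hβ hr hκ
  have hR := b3_R hβ hr hκ (by linarith)
  have hD1 : DomR κ t := b3_dom (by linarith) (by linarith) (Or.inl (by linarith))
  have hD0 : DomR κ (t - h) := b3_dom (by linarith) (by linarith) (Or.inl (by linarith))
  have y1 := yA7 hD1 hk1 hk2 (by linarith) (by linarith)
  have y0 := yB7 hD0 hk1 hk2 (by linarith) (by linarith)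
  have j1 := T3_15_d1_2 hD1 hβ hk1 hk2 (by linarith) (by linarith) hR0 hR
  exact b3_piece 0.7 0.75 0.374 0.399 0.387 0.67909 0.68798 0.671 0.516 1.9798 2.0513 0.04 0.1 0.1 2.7778 1.0187 0 0 (-0.507) (-0.476) (-0.491) 1.63394 1.66031 1.2453 1.3169 0.07 0.285 0.18 4.9652 5.3881 0 0 0.3125 6.85
    hβ hr hκ (by norm_num) hk1 hk2 hD1 hD0 j1 (j1 _ (by rw [sub_self, norm_zero]; norm_num))
    (T3_15_d0_2 hD0 hβ hk1 hk2 (by linarith) (by linarith) hR0 hR)
    (T3_15_p0 hD0 hβ hk1 hk2 (by linarith) (by linarith) hR0 hR)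
    y1.1 y1.2 y0.1 y0.2 (by norm_num)
    (ex_um 0.374 (by norm_num) (by norm_num) (by norm_num) (by norm_num)) (ex_um 0.399 (by norm_num) (by norm_num) (by norm_num) (by norm_num)) (ex_lm 0.387 (by norm_num) (by norm_num) (by norm_num) (by norm_num) (by norm_num)) (by norm_num) (by norm_num) (by norm_num) (by norm_num) (by norm_num) (by norm_num) (by norm_num) (by norm_num)
    (by norm_num) (by norm_num) (by norm_num) (by norm_num) (by norm_num) (by norm_num) (by norm_num) (by norm_num) (by norm_num) (by norm_num)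
    (ex_up 0.507 (by norm_num) (by norm_num) (by norm_num) (by norm_num)) (ex_lp 0.491 (by norm_num) (by norm_num) (by norm_num)) (by norm_num) (by norm_num) (by norm_num) (by norm_num) (by norm_num) (by norm_num)
    (by norm_num) (by norm_num) (by norm_num) (by norm_num) (by norm_num) (by norm_num) (by norm_num) (by norm_num) (by norm_num) (by norm_num) (by norm_num)
    (by norm_num) (by norm_num) (by norm_num) (by norm_num)

private theorem yA8 {κ t : ℝ} (h : DomR κ t) (hk1 : 0.7 ≤ κ) (hk2 : κ ≤ 0.75) (ht1 : 1.328 ≤ t + κ) (ht2 : t + κ ≤ 1.355) :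
    0.378 ≤ sy κ t ∧ sy κ t ≤ 0.404 := by
  have hy1 : 0.378 ≤ sy κ t := syR_ge h 0.7 0.75 1.328 0.378 1.45936 1.45937 0.73551 0.78806 hk1 hk2 (by linarith) (by norm_num) (by norm_num)
    (expn_ge (by norm_num) (by norm_num)) (expn_le (by norm_num) (by norm_num) (by norm_num)) (by norm_num)
    (by norm_num) (by norm_num) (by norm_num) (by norm_num) (by norm_num) (by norm_num)
  have hy2 : sy κ t ≤ 0.404 := syR_ang2 h 0.7 0.75 1.355 0.938 0.5924 0.8066 0.404 0.66765 1.4978 hk1 hk2 (by linarith) (by norm_num) (by norm_num) (by norm_num)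
    (cos_le_num (by norm_num)) (sin_le_num (by norm_num) (by norm_num)) (expm_le (by norm_num) (by norm_num) (by norm_num))
    (expn_ge (by norm_num) (by norm_num)) (by norm_num) (by norm_num) (by norm_num) (by norm_num) (by norm_num)
  exact ⟨hy1, hy2⟩

private theorem yB8 {κ t : ℝ} (h : DomR κ t) (hk1 : 0.7 ≤ κ) (hk2 : κ ≤ 0.75) (ht1 : -0.7664 ≤ t + κ) (ht2 : t + κ ≤ -0.73939) :
    (-0.486) ≤ sy κ t ∧ sy κ t ≤ (-0.456) := by
  have hy1 : -0.486 ≤ sy κ t := syL_ge h 0.7 0.75 0.7664 0.486 0.61508 0.61509 0.4151 0.39857 0.42705 hk1 hk2 (by linarith) (by norm_num) (by norm_num) (by norm_num)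
    (expm_ge (by norm_num) (by norm_num) (by norm_num) (by norm_num)) (expm_le (by norm_num) (by norm_num) (by norm_num)) (by norm_num)
    (by norm_num) (by norm_num) (by norm_num) (by norm_num) (by norm_num) (by norm_num)
  have hy2 : sy κ t ≤ -0.456 := syL_le h 0.7 0.75 0.73939 0.456 0.63381 0.63382 0.38535 0.41289 hk1 hk2 (by linarith) (by norm_num) (by norm_num) (by norm_num)
    (expm_ge (by norm_num) (by norm_num) (by norm_num) (by norm_num)) (expm_le (by norm_num) (by norm_num) (by norm_num)) (by norm_num)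
    (by norm_num) (by norm_num) (by norm_num) (by norm_num) (by norm_num) (by norm_num)
  exact ⟨hy1, hy2⟩

theorem pc8 {β r h t κ : ℝ} (hh : h = 2 * Real.pi / (3 : ℕ)) (hβ : 0 < β) (hr : 10 ≤ r) (hκ : κ = β * r)
    (hk1 : 0.7 ≤ κ) (hk2 : κ ≤ 0.75) (hT1 : 1.328 ≤ t + κ) (hT2 : t + κ ≤ 1.355) :
    Xf β r h t 0 ≠ 0 ∧ r * 0.3125 ≤ (Ld β r h t 1 - Ld β r h t 0).im ∧
      ‖(((-1 : ℤ) : ℂ) - 1) * Ld β r h t 0 - ((-1 : ℤ) : ℂ) * Ld β r h t 1‖ ≤ r * 6.85 := by
  obtain ⟨q1, q2, q3⟩ := b3_h hh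
  have hR0 := b3_R0 hβ hr hκ
  have hR := b3_R hβ hr hκ (by linarith)
  have hD1 : DomR κ t := b3_dom (by linarith) (by linarith) (Or.inl (by linarith))
  have hD0 : DomR κ (t - h) := b3_dom (by linarith) (by linarith) (Or.inl (by linarith))
  have y1 := yA8 hD1 hk1 hk2 (by linarith) (by linarith)
  have y0 := yB8 hD0 hk1 hk2 (by linarith) (by linarith)
  have j1 := T3_15_d1_2 hD1 hβ hk1 hk2 (by linarith) (by linarith) hR0 hR
  exact b3_piece 0.7 0.75 0.378 0.404 0.391 0.67638 0.68524 0.66765 0.514 1.9859 2.0588 0.04 0.1 0.1 2.7778 1.0132 0 0 (-0.486) (-0.456) (-0.471) 1.60159 1.62581 1.2194 1.3071 0.07 0.285 0.18 4.9652 5.2958 0 0 0.3125 6.85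
    hβ hr hκ (by norm_num) hk1 hk2 hD1 hD0 j1 (j1 _ (by rw [sub_self, norm_zero]; norm_num))
    (T3_15_d0_2 hD0 hβ hk1 hk2 (by linarith) (by linarith) hR0 hR)
    (T3_15_p0 hD0 hβ hk1 hk2 (by linarith) (by linarith) hR0 hR)
    y1.1 y1.2 y0.1 y0.2 (by norm_num)
    (ex_um 0.378 (by norm_num) (by norm_num) (by norm_num) (by norm_num)) (ex_um 0.404 (by norm_num) (by norm_num) (by norm_num) (by norm_num)) (ex_lm 0.391 (by norm_num) (by norm_num) (by norm_num) (by norm_num) (by norm_num)) (by norm_num) (by norm_num) (by norm_num) (by norm_num) (by norm_num) (by norm_num) (by norm_num) (by norm_num)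
    (by norm_num) (by norm_num) (by norm_num) (by norm_num) (by norm_num) (by norm_num) (by norm_num) (by norm_num) (by norm_num) (by norm_num)
    (ex_up 0.486 (by norm_num) (by norm_num) (by norm_num) (by norm_num)) (ex_lp 0.471 (by norm_num) (by norm_num) (by norm_num)) (by norm_num) (by norm_num) (by norm_num) (by norm_num) (by norm_num) (by norm_num)
    (by norm_num) (by norm_num) (by norm_num) (by norm_num) (by norm_num) (by norm_num) (by norm_num) (by norm_num) (by norm_num) (by norm_num) (by norm_num)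
    (by norm_num) (by norm_num) (by norm_num) (by norm_num)

private theorem yA9 {κ t : ℝ} (h : DomR κ t) (hk1 : 0.7 ≤ κ) (hk2 : κ ≤ 0.75) (ht1 : 1.355 ≤ t + κ) (ht2 : t + κ ≤ 1.382) :
    0.382 ≤ sy κ t ∧ sy κ t ≤ 0.408 := by
  have hy1 : 0.382 ≤ sy κ t := syR_ge h 0.7 0.75 1.355 0.382 1.46521 1.46522 0.74628 0.7996 hk1 hk2 (by linarith) (by norm_num) (by norm_num)
    (expn_ge (by norm_num) (by norm_num)) (expn_le (by norm_num) (by norm_num) (by norm_num)) (by norm_num)
    (by norm_num) (by norm_num) (by norm_num) (by norm_num) (by norm_num) (by norm_num)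
  have hy2 : sy κ t ≤ 0.408 := syR_ang2 h 0.7 0.75 1.382 0.957 0.5771 0.8177 0.408 0.66498 1.5038 hk1 hk2 (by linarith) (by norm_num) (by norm_num) (by norm_num)
    (cos_le_num (by norm_num)) (sin_le_num (by norm_num) (by norm_num)) (expm_le (by norm_num) (by norm_num) (by norm_num))
    (expn_ge (by norm_num) (by norm_num)) (by norm_num) (by norm_num) (by norm_num) (by norm_num) (by norm_num)
  exact ⟨hy1, hy2⟩

private theorem yB9 {κ t : ℝ} (h : DomR κ t) (hk1 : 0.7 ≤ κ) (hk2 : κ ≤ 0.75) (ht1 : -0.7394 ≤ t + κ) (ht2 : t + κ ≤ -0.71239) :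
    (-0.465) ≤ sy κ t ∧ sy κ t ≤ (-0.436) := by
  have hy1 : -0.465 ≤ sy κ t := syL_ge h 0.7 0.75 0.7394 0.465 0.62813 0.62814 0.401 0.38944 0.41727 hk1 hk2 (by linarith) (by norm_num) (by norm_num) (by norm_num)
    (expm_ge (by norm_num) (by norm_num) (by norm_num) (by norm_num)) (expm_le (by norm_num) (by norm_num) (by norm_num)) (by norm_num)
    (by norm_num) (by norm_num) (by norm_num) (by norm_num) (by norm_num) (by norm_num)
  have hy2 : sy κ t ≤ -0.436 := syL_le h 0.7 0.75 0.71239 0.436 0.64661 0.64662 0.37589 0.40276 hk1 hk2 (by linarith) (by norm_num) (by norm_num) (by norm_num)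
    (expm_ge (by norm_num) (by norm_num) (by norm_num) (by norm_num)) (expm_le (by norm_num) (by norm_num) (by norm_num)) (by norm_num)
    (by norm_num) (by norm_num) (by norm_num) (by norm_num) (by norm_num) (by norm_num)
  exact ⟨hy1, hy2⟩

theorem pc9 {β r h t κ : ℝ} (hh : h = 2 * Real.pi / (3 : ℕ)) (hβ : 0 < β) (hr : 10 ≤ r) (hκ : κ = β * r)
    (hk1 : 0.7 ≤ κ) (hk2 : κ ≤ 0.75) (hT1 : 1.355 ≤ t + κ) (hT2 : t + κ ≤ 1.382) :
    Xf β r h t 0 ≠ 0 ∧ r * 0.3125 ≤ (Ld β r h t 1 - Ld β r h t 0).im ∧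
      ‖(((-1 : ℤ) : ℂ) - 1) * Ld β r h t 0 - ((-1 : ℤ) : ℂ) * Ld β r h t 1‖ ≤ r * 6.85 := by
  obtain ⟨q1, q2, q3⟩ := b3_h hh
  have hR0 := b3_R0 hβ hr hκ
  have hR := b3_R hβ hr hκ (by linarith)
  have hD1 : DomR κ t := b3_dom (by linarith) (by linarith) (Or.inl (by linarith))
  have hD0 : DomR κ (t - h) := b3_dom (by linarith) (by linarith) (Or.inl (by linarith))
  have y1 := yA9 hD1 hk1 hk2 (by linarith) (by linarith)
  have y0 := yB9 hD0 hk1 hk2 (by linarith) (by linarith)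
  have j1 := T3_15_d1_2 hD1 hβ hk1 hk2 (by linarith) (by linarith) hR0 hR
  exact b3_piece 0.7 0.75 0.382 0.408 0.395 0.67368 0.6825 0.66498 0.5119 1.9921 2.0648 0.04 0.1 0.1 2.7778 1.0075 0 0 (-0.465) (-0.436) (-0.451) 1.56988 1.59202 1.1941 1.2993 0.07 0.285 0.18 4.9652 5.2015 0 0 0.3125 6.85
    hβ hr hκ (by norm_num) hk1 hk2 hD1 hD0 j1 (j1 _ (by rw [sub_self, norm_zero]; norm_num))
    (T3_15_d0_2 hD0 hβ hk1 hk2 (by linarith) (by linarith) hR0 hR)
    (T3_15_p0 hD0 hβ hk1 hk2 (by linarith) (by linarith) hR0 hR)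
    y1.1 y1.2 y0.1 y0.2 (by norm_num)
    (ex_um 0.382 (by norm_num) (by norm_num) (by norm_num) (by norm_num)) (ex_um 0.408 (by norm_num) (by norm_num) (by norm_num) (by norm_num)) (ex_lm 0.395 (by norm_num) (by norm_num) (by norm_num) (by norm_num) (by norm_num)) (by norm_num) (by norm_num) (by norm_num) (by norm_num) (by norm_num) (by norm_num) (by norm_num) (by norm_num)
    (by norm_num) (by norm_num) (by norm_num) (by norm_num) (by norm_num) (by norm_num) (by norm_num) (by norm_num) (by norm_num) (by norm_num)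
    (ex_up 0.465 (by norm_num) (by norm_num) (by norm_num) (by norm_num)) (ex_lp 0.451 (by norm_num) (by norm_num) (by norm_num)) (by norm_num) (by norm_num) (by norm_num) (by norm_num) (by norm_num) (by norm_num)
    (by norm_num) (by norm_num) (by norm_num) (by norm_num) (by norm_num) (by norm_num) (by norm_num) (by norm_num) (by norm_num) (by norm_num) (by norm_num)
    (by norm_num) (by norm_num) (by norm_num) (by norm_num)

theorem innS {β r h t κ : ℝ} (hh : h = 2 * Real.pi / (3 : ℕ)) (hβ : 0 < β) (hr : 10 ≤ r) (hκ : κ = β * r)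
    (hk1 : 0.7 ≤ κ) (hk2 : κ ≤ 0.75) (hT1 : 1.121 ≤ t + κ) (hT2 : t + κ ≤ 1.382) :
    Xf β r h t 0 ≠ 0 ∧ r * 0.3125 ≤ (Ld β r h t 1 - Ld β r h t 0).im ∧
      ‖(((-1 : ℤ) : ℂ) - 1) * Ld β r h t 0 - ((-1 : ℤ) : ℂ) * Ld β r h t 1‖ ≤ r * 6.85 := by
  rcases le_total (t + κ) 1.151 with f0 | g0
  · exact pc0 hh hβ hr hκ hk1 hk2 hT1 f0
  rcases le_total (t + κ) 1.174 with f1 | g1
  · exact pc1 hh hβ hr hκ hk1 hk2 g0 f1
  rcases le_total (t + κ) 1.198 with f2 | g2
  · exact pc2 hh hβ hr hκ hk1 hk2 g1 f2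
  rcases le_total (t + κ) 1.221 with f3 | g3
  · exact pc3 hh hβ hr hκ hk1 hk2 g2 f3
  rcases le_total (t + κ) 1.248 with f4 | g4
  · exact pc4 hh hβ hr hκ hk1 hk2 g3 f4
  rcases le_total (t + κ) 1.275 with f5 | g5
  · exact pc5 hh hβ hr hκ hk1 hk2 g4 f5
  rcases le_total (t + κ) 1.302 with f6 | g6
  · exact pc6 hh hβ hr hκ hk1 hk2 g5 f6
  rcases le_total (t + κ) 1.328 with f7 | g7
  · exact pc7 hh hβ hr hκ hk1 hk2 g6 f7
  rcases le_total (t + κ) 1.355 with f8 | g8
  · exact pc8 hh hβ hr hκ hk1 hk2 g7 f8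
  exact pc9 hh hβ hr hκ hk1 hk2 g8 hT2

theorem circ {p : ℤ} (hp : IsCoprime (3 : ℤ) p) {β r : ℝ} (hβ : 0 < β) (hr : 10 ≤ r) (hk1 : 0.7 ≤ β * r)
    (hk2 : β * r ≤ 0.75) : Circ (2 * Real.pi * p / (3 : ℕ) + β) r := by
  obtain ⟨κ, hκ⟩ : ∃ κ, κ = β * r := ⟨_, rfl⟩
  rw [← hκ] at hk1 hk2
  refine circ3 hp hr (h := 2 * Real.pi / (3 : ℕ)) (κ := κ) rfl 1.121 1.382 1.0083 0.3125 0.00326 0.00326 6.85 (by norm_num) (by norm_num) (by norm_num)
    (by norm_num) (by norm_num) ?_ ?_ ?_ ?_ ?_ (by norm_num) (by norm_num)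
  · intro t h1 h2
    exact (innS rfl hβ hr hκ hk1 hk2 h1 h2).1
  · intro t h1 h2
    exact (innE rfl hβ hr hκ hk1 hk2 h1 h2).1
  · intro t h1 h2
    exact (innE rfl hβ hr hκ hk1 hk2 h1 h2).2
  · intro t h1 h2
    exact (innS rfl hβ hr hκ hk1 hk2 h1 h2).2
  · intro t h1 h2 h3
    rcases h3 with h3 | h3
    · exact left rfl hβ hr hκ hk1 hk2 h1 h3
    · exact right0 rfl hβ hr hκ hk1 hk2 h3 h2

end B3_15

end Sok
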