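import Pool.Agent.Lib.MP_816dec_an.R1b3D
import Pool.Agent.Lib.MP_816dec_an.R1b3J16

/-!
MP_816dec_an (A3, row R1, b = 3): the cell `0.75 ≤ κ ≤ 0.8`.
-/

set_option autoImplicit false
set_option maxHeartbeats 4000000
set_option linter.unusedVariables false

open Complex Set

namespace Sok

namespace B3_16

private theorem yL {κ t : ℝ} (h : DomR κ t) (hk1 : 0.75 ≤ κ) (hk2 : κ ≤ 0.8) (ht1 : 0 ≤ t + κ) (ht2 : t + κ ≤ 1.104) :
    0 ≤ sy κ t ∧ sy κ t ≤ 0.37 := by
  have hy1 : 0 ≤ sy κ t := sy_nonneg h (by linarith)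
  have hy2 : sy κ t ≤ 0.37 := syR_le h 0.75 0.8 1.104 0.37 1.44773 0.6584 0.66957 0.71422 hk1 hk2 (by linarith) (by norm_num) (by norm_num)
    (expn_ge (by norm_num) (by norm_num)) (by norm_num) (by norm_num) (Or.inr ((mul_le_mul_of_nonneg_left (expn_le (E := 1.44774) (by norm_num) (by norm_num) (by norm_num)) (by norm_num)).trans (by norm_num))) (by norm_num) (by norm_num) (by norm_num)
  exact ⟨hy1, hy2⟩

theorem left {β r h t κ : ℝ} (hh : h = 2 * Real.pi / (3 : ℕ)) (hβ : 0 < β) (hr : 10 ≤ r) (hκ : κ = β * r)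
    (hk1 : 0.75 ≤ κ) (hk2 : κ ≤ 0.8) (hT1 : 0 ≤ t + κ) (hT2 : t + κ ≤ 1.104) :
    ‖Xf β r h t (-1)‖ < |‖Xf β r h t 1‖ - ‖Xf β r h t 0‖| := by
  obtain ⟨q1, q2, q3⟩ := b3_h hh
  have hR0 := b3_R0 hβ hr hκ
  have hR := b3_R hβ hr hκ (by linarith)
  have hD1 : DomR κ t := b3_dom (by linarith) (by linarith) (Or.inl (by linarith))
  have hy := yL hD1 hk1 hk2 (by linarith) (by linarith)
  have hY : 0.8027 * Real.exp (r * 0.70047) ≤ ‖Xf β r h t 1‖ :=
    b3_lo hβ hr hκ (k := 1) (t' := t) (by push_cast; ring) hD1 0.04 2.0454 0.8027 0.70047 (by norm_num)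
      (T3_16_p1 hD1 hβ hk1 hk2 (by linarith) (by linarith) hR0 hR)
      (v5_Dup hD1 0.8 0 0.37 1 0.69074 2.0454 hk2 hy.1 hy.2 (ex_up 0 (by norm_num) (by norm_num) (by norm_num) (by norm_num)) (ex_um 0.37 (by norm_num) (by norm_num) (by norm_num) (by norm_num)) (by norm_num) (by norm_num) (by norm_num)) (by norm_num) (by norm_num)
      (b3_Vlo hD1 0.75 0.8 0 1.104 0.52 (-0.65392) 0.744 0.73576 0.30686 0.70047 hk1 hk2 (by linarith) (by linarith) (by norm_num) (ex_lm 0.65392 (by norm_num) (by norm_num) (by norm_num) (by norm_num) (by norm_num)) (by norm_num) (by norm_num) (by norm_num) (by norm_num) (by norm_num) (by norm_num) (by norm_num) (by norm_num) (ex_um 0.30686 (by norm_num) (by norm_num) (by norm_num) (by norm_num)) (by norm_num))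
  have h0 : ‖Xf β r h t 0‖ ≤ 0.7283 * ‖Xf β r h t 1‖ :=
    b3_cmp 0.5279 0.06432 0.0015 0.65047 0.724671 0.003567 0.7283 hr (b3_HU0 0.81 0.75 0.8 (-2.0944) (-0.99039) 1.43836 1.83584 1.91172 0.54472 0.5231 1.83582 1.1019 0.11284 0.8836 1.8176 0 0.05 0.000001 1.9087 0.63615 hβ hr hκ (by norm_num) hk1 hk2 (by norm_num) (by linarith) (by linarith) (by norm_num) (by norm_num) (ex_up 0.6075 (by norm_num) (by norm_num) (by norm_num) (by norm_num)) (ex_up 0.648 (by norm_num) (by norm_num) (by norm_num) (by norm_num)) (ex_um 0.6075 (by norm_num) (by norm_num) (by norm_num) (by norm_num)) (ex_um 0.648 (by norm_num) (by norm_num) (by norm_num) (by norm_num)) (by norm_num) (by norm_num) (ex_lp 0.6075 (by norm_num) (by norm_num) (by norm_num)) (by norm_num) (by norm_num) (by norm_num) (by norm_num) (by norm_num) (by norm_num) (by norm_num) (by norm_num) (by norm_num) (by norm_num) (by norm_num) (by norm_num) (by norm_num) (by norm_num) (v5_hump 5.3277 12.5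 3.5356 0.0000003148 0.000001 hβ hr hκ hk1 hk2 (by norm_num) (tb := (-0.99039)) (by linarith) (by norm_num) (by norm_num) (by norm_num) (by norm_num) (by norm_num) (by norm_num) (by norm_num) (ex_un 14 0.99 (by norm_num) (by norm_num) (by norm_num) (by norm_num)) (by norm_num)) (by norm_num) (by norm_num)) hY (by norm_num) (by norm_num) (by norm_num) (by norm_num) (by norm_num) (ex_un 0 0.6432 (by norm_num) (by norm_num) (by norm_num) (by norm_num)) (by norm_num) (by norm_num) (by norm_num) (ex_un 6 0.5047 (by norm_num) (by norm_num) (by norm_num) (by norm_num)) (by norm_num) (by norm_num)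
  have h2 : ‖Xf β r h t (-1)‖ ≤ 0.0314 * ‖Xf β r h t 1‖ := by
    rcases le_total ((t + h) + κ) 2.27 with g0 | g0
    · exact b3_cmp 0.006491 0.50374 0.0009077 0.70047 0.030266 0.000173 0.0314 hr ((b3_Xm hh).trans_le (b3_HF 0.54 0.75 0.8 2.09439 2.27 1.3277 0.66698 0.64921 1.49931 1.54034 0.6492 2.3559 0.11284 2.86509 0.0507 0.04746 0.6231 0.000001 3.7427 0.1523 0.19673 hβ hr hκ (by norm_num) hk1 hk2 (by norm_num) (by linarith) (by linarith) (by norm_num) (ex_um 0.405 (by norm_num) (by norm_num) (by norm_num) (by norm_num)) (ex_um 0.432 (by norm_num) (by norm_num) (by norm_num) (by norm_num)) (ex_up 0.405 (by norm_num) (by norm_num) (by norm_num) (by norm_num)) (ex_up 0.432 (by norm_num) (by norm_num) (by norm_num) (by norm_num)) (by norm_num) (by norm_num) (ex_lm 0.432 (by norm_num) (by norm_num) (by norm_num) (by norm_num) (by norm_num)) (by norm_num) (by norm_num) (by norm_num) (by norm_num) (by norm_num) (by norm_num) (by norm_num) (by norm_num)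 (by norm_num) (by norm_num) (by norm_num) (by norm_num) (ex_un 0 0.4746 (by norm_num) (by norm_num) (by norm_num) (by norm_num)) (v5_hump 2.0673 12.5 3.5356 0.0000003148 0.000001 hβ hr hκ hk1 hk2 (by norm_num) (tb := 2.27) (by linarith) (by norm_num) (by norm_num) (by norm_num) (by norm_num) (by norm_num) (by norm_num) (by norm_num) (ex_un 14 0.99 (by norm_num) (by norm_num) (by norm_num) (by norm_num)) (by norm_num)) (by norm_num) (by norm_num) (by norm_num))) hY (by norm_num) (by norm_num) (by norm_num) (by norm_num) (by norm_num) (ex_un 5 0.0374 (by norm_num) (by norm_num) (by norm_num) (by norm_num)) (by norm_num) (by norm_num) (by norm_num) (ex_un 7 0.0047 (by norm_num) (by norm_num) (by norm_num) (by norm_num)) (by norm_num) (by norm_num)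
    exact b3_cmp 1 0 0.006707 0.50047 0 0.031381 0.0314 hr (b3_w (b3_UD 0.75 0.8 2.27 3.1984 0.15 0.46067 0.15 1.958 3.7557 0.2 hh hβ hr hκ (by norm_num) hk1 hk2 (by linarith) (by linarith) (by norm_num) (by norm_num) (by norm_num) (by norm_num) (by norm_num) (by norm_num) (by norm_num) (by norm_num) (by norm_num) (by norm_num) (by norm_num) (by norm_num) (by norm_num))) hY (by norm_num) (by norm_num) (by norm_num) (by norm_num) (by norm_num) (by norm_num) (by norm_num) (by norm_num) (by norm_num) (ex_un 5 0.0047 (by norm_num) (by norm_num) (by norm_num) (by norm_num)) (by norm_num) (by norm_num)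
  exact b3_out1 0.7283 0.0314 hY (by norm_num) h0 h2 (by norm_num)

private theorem yR0 {κ t : ℝ} (h : DomR κ t) (hk1 : 0.75 ≤ κ) (hk2 : κ ≤ 0.8) (ht1 : -0.7124 ≤ t + κ) (ht2 : t + κ ≤ 0.0001) :
    (-0.44) ≤ sy κ t ∧ sy κ t ≤ 0.005 := by
  have hy1 : -0.44 ≤ sy κ t := syL_ge h 0.75 0.8 0.7124 0.44 0.64403 0.64404 0.3561 0.35421 0.37784 hk1 hk2 (by linarith) (by norm_num) (by norm_num) (by norm_num)
    (expm_ge (by norm_num) (by norm_num) (by norm_num) (by norm_num)) (expm_le (by norm_num) (by norm_num) (by norm_num)) (by norm_num)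
    (by norm_num) (by norm_num) (by norm_num) (by norm_num) (by norm_num) (by norm_num)
  have hy2 : sy κ t ≤ 0.005 := syR_le h 0.75 0.8 0.0001 0.005 1.00501 0.0061 0.00628 0.00671 hk1 hk2 (by linarith) (by norm_num) (by norm_num)
    (expn_ge (by norm_num) (by norm_num)) (by norm_num) (by norm_num) (Or.inr ((mul_le_mul_of_nonneg_left (expn_le (E := 1.00502) (by norm_num) (by norm_num) (by norm_num)) (by norm_num)).trans (by norm_num))) (by norm_num) (by norm_num) (by norm_num)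
  exact ⟨hy1, hy2⟩

theorem right0 {β r h t κ : ℝ} (hh : h = 2 * Real.pi / (3 : ℕ)) (hβ : 0 < β) (hr : 10 ≤ r) (hκ : κ = β * r)
    (hk1 : 0.75 ≤ κ) (hk2 : κ ≤ 0.8) (hT1 : 1.382 ≤ t + κ) (hT2 : t + κ ≤ h) :
    ‖Xf β r h t (-1)‖ < |‖Xf β r h t 1‖ - ‖Xf β r h t 0‖| := by
  obtain ⟨q1, q2, q3⟩ := b3_h hh
  have hR0 := b3_R0 hβ hr hκ
  have hR := b3_R hβ hr hκ (by linarith)
  have hD0 : DomR κ (t - h) := b3_dom (by linarith) (by linarith) (Or.inl (by linarith))
  have hy := yR0 hD0 hk1 hk2 (by linarith) (by linarith)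
  have hY : 0.8013 * Real.exp (r * 0.80693) ≤ ‖Xf β r h t 0‖ :=
    b3_lo hβ hr hκ (k := 0) (t' := t - h) (by push_cast; ring) hD0 0.09 1.663 0.8013 0.80693 (by norm_num)
      (T3_16_p0R hD0 hβ hk1 hk2 (by linarith) (by linarith) hR0 hR)
      (v5_Dup hD0 0.8 (-0.44) 0.005 1.55271 0.99502 1.663 hk2 hy.1 hy.2 (ex_up 0.44 (by norm_num) (by norm_num) (by norm_num) (by norm_num)) (ex_um 0.005 (by norm_num) (by norm_num) (by norm_num) (by norm_num)) (by norm_num) (by norm_num) (by norm_num)) (by norm_num) (by norm_num)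
      (b3_Vlo hD0 0.75 0.8 (-0.7124) 0.0001 1.43 0.35768 0.3899 0.92494 0.07803 0.80693 hk1 hk2 (by linarith) (by linarith) (by norm_num) (ex_lp 0.35768 (by norm_num) (by norm_num) (by norm_num)) (by norm_num) (by norm_num) (by norm_num) (by norm_num) (by norm_num) (by norm_num) (by norm_num) (by norm_num) (ex_um 0.07803 (by norm_num) (by norm_num) (by norm_num) (by norm_num)) (by norm_num))
  have h1 : ‖Xf β r h t 1‖ ≤ 0.2819 * ‖Xf β r h t 0‖ := by
    rcases le_total (t + κ) 2.02 with g0 | g0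
    · exact b3_cmp 0.1068 0.22377 0.0003131 0.80693 0.281748 0.000065 0.2819 hr (b3_X1.trans_le (b3_HF 0.47 0.75 0.8 1.382 2.02 1.2327 0.70293 0.68661 1.42262 1.45645 0.6866 1.999 0.11284 2.1527 0.3007 0.11842 0.3061 0.000001 2.1139 0.1653 0.58316 hβ hr hκ (by norm_num) hk1 hk2 (by norm_num) (by linarith) (by linarith) (by norm_num) (ex_um 0.3525 (by norm_num) (by norm_num) (by norm_num) (by norm_num)) (ex_um 0.376 (by norm_num) (by norm_num) (by norm_num) (by norm_num)) (ex_up 0.3525 (by norm_num) (by norm_num) (by norm_num) (by norm_num)) (ex_up 0.376 (by norm_num) (by norm_num) (by norm_num) (by norm_num)) (by norm_num) (by norm_num) (ex_lm 0.376 (by norm_num) (by norm_num) (by norm_num) (by norm_num) (by norm_num)) (by norm_num) (by norm_num) (by norm_num) (by norm_num) (by norm_num) (by norm_num) (by norm_num) (by norm_num) (by norm_num) (by norm_num) (by norm_num) (by norm_num) (ex_un 1 0.1842 (by norm_num) (by norm_num) (by norm_num) (by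 norm_num)) (v5_hump 2.3173 12.5 3.5356 0.0000003148 0.000001 hβ hr hκ hk1 hk2 (by norm_num) (tb := 2.02) (by linarith) (by norm_num) (by norm_num) (by norm_num) (by norm_num) (by norm_num) (by norm_num) (by norm_num) (ex_un 14 0.99 (by norm_num) (by norm_num) (by norm_num) (by norm_num)) (by norm_num)) (by norm_num) (by norm_num) (by norm_num))) hY (by norm_num) (by norm_num) (by norm_num) (by norm_num) (by norm_num) (ex_un 2 0.2377 (by norm_num) (by norm_num) (by norm_num) (by norm_num)) (by norm_num) (by norm_num) (by norm_num) (ex_un 8 0.0693 (by norm_num) (by norm_num) (by norm_num) (by norm_num)) (by norm_num) (by norm_num)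
    exact b3_cmp 1 0 0.02826 0.35693 0 0.140242 0.2819 hr (b3_w (b3_UD1 0.75 0.8 2.02 2.0944 0.4 0.46067 0.4 2.0731 3.9765 0.45 hβ hr hκ (by norm_num) hk1 hk2 (by linarith) (by linarith) (by norm_num) (by norm_num) (by norm_num) (by norm_num) (by norm_num) (by norm_num) (by norm_num) (by norm_num) (by norm_num) (by norm_num) (by norm_num) (by norm_num) (by norm_num))) hY (by norm_num) (by norm_num) (by norm_num) (by norm_num) (by norm_num) (by norm_num) (by norm_num) (by norm_num) (by norm_num) (ex_un 3 0.5693 (by norm_num) (by norm_num) (by norm_num) (by norm_num)) (by norm_num) (by norm_num)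
  have h2 : ‖Xf β r h t (-1)‖ ≤ 0.0005 * ‖Xf β r h t 0‖ := by
    exact b3_cmp 1 0 0.0005175 0.75693 0 0.000474 0.0005 hr ((b3_Xm hh).trans_le (b3_U1 0.75 0.8 3.47639 4.1888 1.10559 0.11284 0.8836 0.8936 0.00002 0.4653 0.240845 0.7334 hβ hr hκ (by norm_num) hk1 hk2 (by linarith) (by linarith) (by norm_num) (by norm_num) (by norm_num) (by norm_num) (by norm_num) (by norm_num) (by norm_num) (by norm_num) (by norm_num) (by norm_num) (by norm_num) (by norm_num) (by norm_num) (ex_un 8 0.936 (by norm_num) (by norm_num) (by norm_num) (by norm_num)) (v5_hump 0.1485 12.5 3.5356 0.1581 0.240845 hβ hr hκ hk1 hk2 (by norm_num) (tb := 4.1888) (by linarith) (by norm_num) (by norm_num) (by norm_num) (by norm_num) (by norm_num) (by norm_num) (by norm_num) (ex_un 1 0.8562 (by norm_num) (by norm_num) (by norm_num) (by norm_num)) (by norm_num)) (by norm_num))) hY (by norm_num) (by norm_num) (by norm_num) (by norm_num) (by norm_num) (by norm_num) (by norm_num) (by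 norm_num) (by norm_num) (ex_un 7 0.5693 (by norm_num) (by norm_num) (by norm_num) (by norm_num)) (by norm_num) (by norm_num)
  exact b3_out0 0.2819 0.0005 hY (by norm_num) h1 h2 (by norm_num)

private theorem yI {κ t : ℝ} (h : DomR κ t) (hk1 : 0.75 ≤ κ) (hk2 : κ ≤ 0.8) (ht1 : -0.9904 ≤ t + κ) (ht2 : t + κ ≤ -0.71239) :
    (-0.647) ≤ sy κ t ∧ sy κ t ≤ (-0.431) := by
  have hy1 : -0.647 ≤ sy κ t := syL_ge h 0.75 0.8 0.9904 0.647 0.52361 0.52362 0.4281 0.42346 0.45171 hk1 hk2 (by linarith) (by norm_num) (by norm_num) (by norm_num)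
    (expm_ge (by norm_num) (by norm_num) (by norm_num) (by norm_num)) (expm_le (by norm_num) (by norm_num) (by norm_num)) (by norm_num)
    (by norm_num) (by norm_num) (by norm_num) (by norm_num) (by norm_num) (by norm_num)
  have hy2 : sy κ t ≤ -0.431 := syL_le h 0.75 0.8 0.71239 0.431 0.64985 0.64986 0.3501 0.37346 hk1 hk2 (by linarith) (by norm_num) (by norm_num) (by norm_num)
    (expm_ge (by norm_num) (by norm_num) (by norm_num) (by norm_num)) (expm_le (by norm_num) (by norm_num) (by norm_num)) (by norm_num)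
    (by norm_num) (by norm_num) (by norm_num) (by norm_num) (by norm_num) (by norm_num)
  exact ⟨hy1, hy2⟩

theorem innE {β r h t κ : ℝ} (hh : h = 2 * Real.pi / (3 : ℕ)) (hβ : 0 < β) (hr : 10 ≤ r) (hκ : κ = β * r)
    (hk1 : 0.75 ≤ κ) (hk2 : κ ≤ 0.8) (hT1 : 1.104 ≤ t + κ) (hT2 : t + κ ≤ 1.382) :
    ‖Xf β r h t (-1)‖ ≤ 0.00295 * ‖Xf β r h t 0‖ ∧ ‖Xf β r h (t + β) (-1)‖ ≤ 0.00295 * ‖Xf β r h t 0‖ := by
  obtain ⟨q1, q2, q3⟩ := b3_h hh
  have hR0 := b3_R0 hβ hr hκ
  have hR := b3_R hβ hr hκ (by linarith)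
  have hD0 : DomR κ (t - h) := b3_dom (by linarith) (by linarith) (Or.inl (by linarith))
  have hy := yI hD0 hk1 hk2 (by linarith) (by linarith)
  have hY : 0.686 * Real.exp (r * 0.60674) ≤ ‖Xf β r h t 0‖ :=
    b3_lo hβ hr hκ (k := 0) (t' := t - h) (by push_cast; ring) hD0 0.18 2.0404 0.686 0.60674 (by norm_num)
      (T3_16_p0 hD0 hβ hk1 hk2 (by linarith) (by linarith) hR0 hR)
      (v5_Dup hD0 0.8 (-0.647) (-0.431) 1.90981 1.5388 2.0404 hk2 hy.1 hy.2 (ex_up 0.647 (by norm_num) (by norm_num) (by norm_num) (by norm_num)) (ex_up 0.431 (by norm_num) (by norm_num) (by norm_num) (by norm_num)) (by norm_num) (by norm_num) (by norm_num)) (by norm_num) (by norm_num)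
      (b3_Vlo hD0 0.75 0.8 (-0.9904) (-0.71239) 1.7 0.53063 0.4654 0.89364 0.11246 0.60674 hk1 hk2 (by linarith) (by linarith) (by norm_num) (ex_lp 0.53063 (by norm_num) (by norm_num) (by norm_num)) (by norm_num) (by norm_num) (by norm_num) (by norm_num) (by norm_num) (by norm_num) (by norm_num) (by norm_num) (ex_um 0.11246 (by norm_num) (by norm_num) (by norm_num) (by norm_num)) (by norm_num))
  constructor
  · exact b3_cmp 1 0 0.003831 0.55674 0 0.002943 0.00295 hr ((b3_Xm hh).trans_le (b3_U1 0.75 0.8 3.19839 3.4764 0.82759 0.11284 0.8836 0.7362 0.00009 0.7433 0.000033 0.5269 hβ hr hκ (by norm_num) hk1 hk2 (by linarith) (by linarith) (by norm_num) (by norm_num) (by norm_num) (by norm_num) (by norm_num) (by norm_num) (by norm_num) (by norm_num) (by norm_num) (by norm_num) (by norm_num) (by norm_num) (by norm_num) (ex_un 7 0.362 (by norm_num) (by norm_num) (by norm_num) (by norm_num)) (v5_hump 0.8609 12.5 3.5356 0.00002138 0.000033 hβ hr hκ hk1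 hk2 (by norm_num) (tb := 3.4764) (by linarith) (by norm_num) (by norm_num) (by norm_num) (by norm_num) (by norm_num) (by norm_num) (by norm_num) (ex_un 10 0.7612 (by norm_num) (by norm_num) (by norm_num) (by norm_num)) (by norm_num)) (by norm_num))) hY (by norm_num) (by norm_num) (by norm_num) (by norm_num) (by norm_num) (by norm_num) (by norm_num) (by norm_num) (by norm_num) (ex_un 5 0.5674 (by norm_num) (by norm_num) (by norm_num) (by norm_num)) (by norm_num) (by norm_num)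
  · exact b3_cmp 1 0 0.003831 0.55674 0 0.002944 0.00295 hr ((b3_Xm hh).trans_le (b3_U1 0.75 0.8 3.19839 3.5564 0.82759 0.11284 0.8836 0.7362 0.00009 0.7433 0.000089 0.527 hβ hr hκ (by norm_num) hk1 hk2 (by linarith) (by linarith) (by norm_num) (by norm_num) (by norm_num) (by norm_num) (by norm_num) (by norm_num) (by norm_num) (by norm_num) (by norm_num) (by norm_num) (by norm_num) (by norm_num) (by norm_num) (ex_un 7 0.362 (by norm_num) (by norm_num) (by norm_num) (by norm_num)) (v5_hump 0.7809 12.5 3.5356 0.0000581 0.000089 hβ hr hκ hk1 hk2 (by norm_num) (tb := 3.5564) (by linarith) (by norm_num) (by norm_num) (by norm_num) (by norm_num) (by norm_num) (by norm_num) (by norm_num) (ex_un 9 0.7612 (by norm_num) (by norm_num) (by norm_num) (by norm_num)) (by norm_num)) (by norm_num))) hY (by norm_num) (by norm_num) (by norm_num) (by norm_num) (by norm_num) (by norm_num) (by norm_num) (by norm_num) (by norm_num) (ex_un 5 0.5674 (by norm_num) (by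 norm_num) (by norm_num) (by norm_num)) (by norm_num) (by norm_num)

private theorem yA0 {κ t : ℝ} (h : DomR κ t) (hk1 : 0.75 ≤ κ) (hk2 : κ ≤ 0.8) (ht1 : 1.104 ≤ t + κ) (ht2 : t + κ ≤ 1.134) :
    0.352 ≤ sy κ t ∧ sy κ t ≤ 0.377 := by
  have hy1 : 0.352 ≤ sy κ t := syR_ge h 0.75 0.8 1.104 0.352 1.4219 1.42191 0.62563 0.66735 hk1 hk2 (by linarith) (by norm_num) (by norm_num)
    (expn_ge (by norm_num) (by norm_num)) (expn_le (by norm_num) (by norm_num) (by norm_num)) (by norm_num)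
    (by norm_num) (by norm_num) (by norm_num) (by norm_num) (by norm_num) (by norm_num)
  have hy2 : sy κ t ≤ 0.377 := syR_le h 0.75 0.8 1.134 0.377 1.4579 0.6755 0.68703 0.73285 hk1 hk2 (by linarith) (by norm_num) (by norm_num)
    (expn_ge (by norm_num) (by norm_num)) (by norm_num) (by norm_num) (Or.inr ((mul_le_mul_of_nonneg_left (expn_le (E := 1.45791) (by norm_num) (by norm_num) (by norm_num)) (by norm_num)).trans (by norm_num))) (by norm_num) (by norm_num) (by norm_num)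
  exact ⟨hy1, hy2⟩

private theorem yB0 {κ t : ℝ} (h : DomR κ t) (hk1 : 0.75 ≤ κ) (hk2 : κ ≤ 0.8) (ht1 : -0.9904 ≤ t + κ) (ht2 : t + κ ≤ -0.96039) :
    (-0.647) ≤ sy κ t ∧ sy κ t ≤ (-0.604) := by
  have hy1 : -0.647 ≤ sy κ t := syL_ge h 0.75 0.8 0.9904 0.647 0.52361 0.52362 0.4281 0.42346 0.45171 hk1 hk2 (by linarith) (by norm_num) (by norm_num) (by norm_num)
    (expm_ge (by norm_num) (by norm_num) (by norm_num) (by norm_num)) (expm_le (by norm_num) (by norm_num) (by norm_num)) (by norm_num)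
    (by norm_num) (by norm_num) (by norm_num) (by norm_num) (by norm_num) (by norm_num)
  have hy2 : sy κ t ≤ -0.604 := syL_le h 0.75 0.8 0.96039 0.604 0.54662 0.54663 0.41269 0.44022 hk1 hk2 (by linarith) (by norm_num) (by norm_num) (by norm_num)
    (expm_ge (by norm_num) (by norm_num) (by norm_num) (by norm_num)) (expm_le (by norm_num) (by norm_num) (by norm_num)) (by norm_num)
    (by norm_num) (by norm_num) (by norm_num) (by norm_num) (by norm_num) (by norm_num)
  exact ⟨hy1, hy2⟩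

theorem pc0 {β r h t κ : ℝ} (hh : h = 2 * Real.pi / (3 : ℕ)) (hβ : 0 < β) (hr : 10 ≤ r) (hκ : κ = β * r)
    (hk1 : 0.75 ≤ κ) (hk2 : κ ≤ 0.8) (hT1 : 1.104 ≤ t + κ) (hT2 : t + κ ≤ 1.134) :
    Xf β r h t 0 ≠ 0 ∧ r * 0.2948 ≤ (Ld β r h t 1 - Ld β r h t 0).im ∧
      ‖(((-1 : ℤ) : ℂ) - 1) * Ld β r h t 0 - ((-1 : ℤ) : ℂ) * Ld β r h t 1‖ ≤ r * 6.69 := by
  obtain ⟨q1, q2, q3⟩ := b3_h hh
  have hR0 := b3_R0 hβ hr hκ
  have hR := b3_R hβ hr hκ (by linarith)
  have hD1 : DomR κ t := b3_dom (by linarith) (by linarith) (Or.inl (by linarith))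
  have hD0 : DomR κ (t - h) := b3_dom (by linarith) (by linarith) (Or.inl (by linarith))
  have y1 := yA0 hD1 hk1 hk2 (by linarith) (by linarith)
  have y0 := yB0 hD0 hk1 hk2 (by linarith) (by linarith)
  have j1 := T3_16_d1_0 hD1 hβ hk1 hk2 (by linarith) (by linarith) hR0 hR
  exact b3_piece 0.75 0.8 0.352 0.377 0.364 0.69489 0.70329 0.68592 0.5627 1.9821 2.0552 0.06 0.07 0.07 1.2545 0.5015 0 0 (-0.647) (-0.604) (-0.625) 1.86823 1.90981 1.5279 1.6728 0.05 0.295 0.18 7.1952 8.5 0 0 0.2948 6.69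
    hβ hr hκ (by norm_num) hk1 hk2 hD1 hD0 j1 (j1 _ (by rw [sub_self, norm_zero]; norm_num))
    (T3_16_d0_0 hD0 hβ hk1 hk2 (by linarith) (by linarith) hR0 hR)
    (T3_16_p0 hD0 hβ hk1 hk2 (by linarith) (by linarith) hR0 hR)
    y1.1 y1.2 y0.1 y0.2 (by norm_num)
    (ex_um 0.352 (by norm_num) (by norm_num) (by norm_num) (by norm_num)) (ex_um 0.377 (by norm_num) (by norm_num) (by norm_num) (by norm_num)) (ex_lm 0.364 (by norm_num) (by norm_num) (by norm_num) (by norm_num) (by norm_num)) (by norm_num) (by norm_num) (by norm_num) (by norm_num) (by norm_num) (by norm_num) (by norm_num) (by norm_num)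
    (by norm_num) (by norm_num) (by norm_num) (by norm_num) (by norm_num) (by norm_num) (by norm_num) (by norm_num) (by norm_num) (by norm_num)
    (ex_up 0.647 (by norm_num) (by norm_num) (by norm_num) (by norm_num)) (ex_lp 0.625 (by norm_num) (by norm_num) (by norm_num)) (by norm_num) (by norm_num) (by norm_num) (by norm_num) (by norm_num) (by norm_num)
    (by norm_num) (by norm_num) (by norm_num) (by norm_num) (by norm_num) (by norm_num) (by norm_num) (by norm_num) (by norm_num) (by norm_num) (by norm_num)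
    (by norm_num) (by norm_num) (by norm_num) (by norm_num)

private theorem yA1 {κ t : ℝ} (h : DomR κ t) (hk1 : 0.75 ≤ κ) (hk2 : κ ≤ 0.8) (ht1 : 1.134 ≤ t + κ) (ht2 : t + κ ≤ 1.157) :
    0.358 ≤ sy κ t ∧ sy κ t ≤ 0.382 := by
  have hy1 : 0.358 ≤ sy κ t := syR_ge h 0.75 0.8 1.134 0.358 1.43046 1.43047 0.64013 0.68282 hk1 hk2 (by linarith) (by norm_num) (by norm_num)
    (expn_ge (by norm_num) (by norm_num)) (expn_le (by norm_num) (by norm_num) (by norm_num)) (by norm_num)
    (by norm_num) (by norm_num) (by norm_num) (by norm_num) (by norm_num) (by norm_num)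
  have hy2 : sy κ t ≤ 0.382 := syR_le h 0.75 0.8 1.157 0.382 1.46521 0.6879 0.69963 0.74629 hk1 hk2 (by linarith) (by norm_num) (by norm_num)
    (expn_ge (by norm_num) (by norm_num)) (by norm_num) (by norm_num) (Or.inr ((mul_le_mul_of_nonneg_left (expn_le (E := 1.46522) (by norm_num) (by norm_num) (by norm_num)) (by norm_num)).trans (by norm_num))) (by norm_num) (by norm_num) (by norm_num)
  exact ⟨hy1, hy2⟩

private theorem yB1 {κ t : ℝ} (h : DomR κ t) (hk1 : 0.75 ≤ κ) (hk2 : κ ≤ 0.8) (ht1 : -0.9604 ≤ t + κ) (ht2 : t + κ ≤ -0.93739) :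
    (-0.625) ≤ sy κ t ∧ sy κ t ≤ (-0.588) := by
  have hy1 : -0.625 ≤ sy κ t := syL_ge h 0.75 0.8 0.9604 0.625 0.53526 0.53527 0.4204 0.41817 0.44606 hk1 hk2 (by linarith) (by norm_num) (by norm_num) (by norm_num)
    (expm_ge (by norm_num) (by norm_num) (by norm_num) (by norm_num)) (expm_le (by norm_num) (by norm_num) (by norm_num)) (by norm_num)
    (by norm_num) (by norm_num) (by norm_num) (by norm_num) (by norm_num) (by norm_num)
  have hy2 : sy κ t ≤ -0.588 := syL_le h 0.75 0.8 0.93739 0.588 0.55543 0.55544 0.40824 0.43547 hk1 hk2 (by linarith) (by norm_num) (by norm_num) (by norm_num)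
    (expm_ge (by norm_num) (by norm_num) (by norm_num) (by norm_num)) (expm_le (by norm_num) (by norm_num) (by norm_num)) (by norm_num)
    (by norm_num) (by norm_num) (by norm_num) (by norm_num) (by norm_num) (by norm_num)
  exact ⟨hy1, hy2⟩

theorem pc1 {β r h t κ : ℝ} (hh : h = 2 * Real.pi / (3 : ℕ)) (hβ : 0 < β) (hr : 10 ≤ r) (hκ : κ = β * r)
    (hk1 : 0.75 ≤ κ) (hk2 : κ ≤ 0.8) (hT1 : 1.134 ≤ t + κ) (hT2 : t + κ ≤ 1.157) :
    Xf β r h t 0 ≠ 0 ∧ r * 0.2948 ≤ (Ld β r h t 1 - Ld β r h t 0).im ∧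
      ‖(((-1 : ℤ) : ℂ) - 1) * Ld β r h t 0 - ((-1 : ℤ) : ℂ) * Ld β r h t 1‖ ≤ r * 6.69 := by
  obtain ⟨q1, q2, q3⟩ := b3_h hh
  have hR0 := b3_R0 hβ hr hκ
  have hR := b3_R hβ hr hκ (by linarith)
  have hD1 : DomR κ t := b3_dom (by linarith) (by linarith) (Or.inl (by linarith))
  have hD0 : DomR κ (t - h) := b3_dom (by linarith) (by linarith) (Or.inl (by linarith))
  have y1 := yA1 hD1 hk1 hk2 (by linarith) (by linarith)
  have y0 := yB1 hD0 hk1 hk2 (by linarith) (by linarith)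
  have j1 := T3_16_d1_1 hD1 hβ hk1 hk2 (by linarith) (by linarith) hR0 hR
  exact b3_piece 0.75 0.8 0.358 0.382 0.37 0.69073 0.69908 0.6825 0.5593 1.9908 2.0622 0.06 0.085 0.085 1.5483 0.6138 0 0 (-0.625) (-0.588) (-0.607) 1.83491 1.86825 1.4946 1.6459 0.06 0.31 0.18 6.3009 7.3406 0 0 0.2948 6.69
    hβ hr hκ (by norm_num) hk1 hk2 hD1 hD0 j1 (j1 _ (by rw [sub_self, norm_zero]; norm_num))
    (T3_16_d0_1 hD0 hβ hk1 hk2 (by linarith) (by linarith) hR0 hR)
    (T3_16_p0 hD0 hβ hk1 hk2 (by linarith) (by linarith) hR0 hR)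
    y1.1 y1.2 y0.1 y0.2 (by norm_num)
    (ex_um 0.358 (by norm_num) (by norm_num) (by norm_num) (by norm_num)) (ex_um 0.382 (by norm_num) (by norm_num) (by norm_num) (by norm_num)) (ex_lm 0.37 (by norm_num) (by norm_num) (by norm_num) (by norm_num) (by norm_num)) (by norm_num) (by norm_num) (by norm_num) (by norm_num) (by norm_num) (by norm_num) (by norm_num) (by norm_num)
    (by norm_num) (by norm_num) (by norm_num) (by norm_num) (by norm_num) (by norm_num) (by norm_num) (by norm_num) (by norm_num) (by norm_num)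
    (ex_up 0.625 (by norm_num) (by norm_num) (by norm_num) (by norm_num)) (ex_lp 0.607 (by norm_num) (by norm_num) (by norm_num)) (by norm_num) (by norm_num) (by norm_num) (by norm_num) (by norm_num) (by norm_num)
    (by norm_num) (by norm_num) (by norm_num) (by norm_num) (by norm_num) (by norm_num) (by norm_num) (by norm_num) (by norm_num) (by norm_num) (by norm_num)
    (by norm_num) (by norm_num) (by norm_num) (by norm_num)

private theorem yA2 {κ t : ℝ} (h : DomR κ t) (hk1 : 0.75 ≤ κ) (hk2 : κ ≤ 0.8) (ht1 : 1.157 ≤ t + κ) (ht2 : t + κ ≤ 1.181) :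
    0.362 ≤ sy κ t ∧ sy κ t ≤ 0.387 := by
  have hy1 : 0.362 ≤ sy κ t := syR_ge h 0.75 0.8 1.157 0.362 1.43619 1.4362 0.64987 0.69321 hk1 hk2 (by linarith) (by norm_num) (by norm_num)
    (expn_ge (by norm_num) (by norm_num)) (expn_le (by norm_num) (by norm_num) (by norm_num)) (by norm_num)
    (by norm_num) (by norm_num) (by norm_num) (by norm_num) (by norm_num) (by norm_num)
  have hy2 : sy κ t ≤ 0.387 := syR_le h 0.75 0.8 1.181 0.387 1.47255 0.7004 0.71234 0.75985 hk1 hk2 (by linarith) (by norm_num) (by norm_num)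
    (expn_ge (by norm_num) (by norm_num)) (by norm_num) (by norm_num) (Or.inr ((mul_le_mul_of_nonneg_left (expn_le (E := 1.47256) (by norm_num) (by norm_num) (by norm_num)) (by norm_num)).trans (by norm_num))) (by norm_num) (by norm_num) (by norm_num)
  exact ⟨hy1, hy2⟩

private theorem yB2 {κ t : ℝ} (h : DomR κ t) (hk1 : 0.75 ≤ κ) (hk2 : κ ≤ 0.8) (ht1 : -0.9374 ≤ t + κ) (ht2 : t + κ ≤ -0.91339) :
    (-0.608) ≤ sy κ t ∧ sy κ t ≤ (-0.571) := by
  have hy1 : -0.608 ≤ sy κ t := syL_ge h 0.75 0.8 0.9374 0.608 0.54443 0.54445 0.416 0.41376 0.44137 hk1 hk2 (by linarith) (by norm_num) (by norm_num) (by norm_num)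
    (expm_ge (by norm_num) (by norm_num) (by norm_num) (by norm_num)) (expm_le (by norm_num) (by norm_num) (by norm_num)) (by norm_num)
    (by norm_num) (by norm_num) (by norm_num) (by norm_num) (by norm_num) (by norm_num)
  have hy2 : sy κ t ≤ -0.571 := syL_le h 0.75 0.8 0.91339 0.571 0.56496 0.56497 0.40324 0.43014 hk1 hk2 (by linarith) (by norm_num) (by norm_num) (by norm_num)
    (expm_ge (by norm_num) (by norm_num) (by norm_num) (by norm_num)) (expm_le (by norm_num) (by norm_num) (by norm_num)) (by norm_num)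
    (by norm_num) (by norm_num) (by norm_num) (by norm_num) (by norm_num) (by norm_num)
  exact ⟨hy1, hy2⟩

theorem pc2 {β r h t κ : ℝ} (hh : h = 2 * Real.pi / (3 : ℕ)) (hβ : 0 < β) (hr : 10 ≤ r) (hκ : κ = β * r)
    (hk1 : 0.75 ≤ κ) (hk2 : κ ≤ 0.8) (hT1 : 1.157 ≤ t + κ) (hT2 : t + κ ≤ 1.181) :
    Xf β r h t 0 ≠ 0 ∧ r * 0.2948 ≤ (Ld β r h t 1 - Ld β r h t 0).im ∧
      ‖(((-1 : ℤ) : ℂ) - 1) * Ld β r h t 0 - ((-1 : ℤ) : ℂ) * Ld β r h t 1‖ ≤ r * 6.69 := by
  obtain ⟨q1, q2, q3⟩ := b3_h hh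
  have hR0 := b3_R0 hβ hr hκ
  have hR := b3_R hβ hr hκ (by linarith)
  have hD1 : DomR κ t := b3_dom (by linarith) (by linarith) (Or.inl (by linarith))
  have hD0 : DomR κ (t - h) := b3_dom (by linarith) (by linarith) (Or.inl (by linarith))
  have y1 := yA2 hD1 hk1 hk2 (by linarith) (by linarith)
  have y0 := yB2 hD0 hk1 hk2 (by linarith) (by linarith)
  have j1 := T3_16_d1_1 hD1 hβ hk1 hk2 (by linarith) (by linarith) hR0 hR
  exact b3_piece 0.75 0.8 0.362 0.387 0.374 0.68797 0.69629 0.6791 0.5571 1.9966 2.0692 0.06 0.085 0.085 1.5483 0.6105 0 0 (-0.608) (-0.571) (-0.59) 1.80398 1.83676 1.4695 1.619 0.06 0.31 0.18 6.3009 7.277 0 0 0.2948 6.69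
    hβ hr hκ (by norm_num) hk1 hk2 hD1 hD0 j1 (j1 _ (by rw [sub_self, norm_zero]; norm_num))
    (T3_16_d0_1 hD0 hβ hk1 hk2 (by linarith) (by linarith) hR0 hR)
    (T3_16_p0 hD0 hβ hk1 hk2 (by linarith) (by linarith) hR0 hR)
    y1.1 y1.2 y0.1 y0.2 (by norm_num)
    (ex_um 0.362 (by norm_num) (by norm_num) (by norm_num) (by norm_num)) (ex_um 0.387 (by norm_num) (by norm_num) (by norm_num) (by norm_num)) (ex_lm 0.374 (by norm_num) (by norm_num) (by norm_num) (by norm_num) (by norm_num)) (by norm_num) (by norm_num) (by norm_num) (by norm_num) (by norm_num) (by norm_num) (by norm_num) (by norm_num)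
    (by norm_num) (by norm_num) (by norm_num) (by norm_num) (by norm_num) (by norm_num) (by norm_num) (by norm_num) (by norm_num) (by norm_num)
    (ex_up 0.608 (by norm_num) (by norm_num) (by norm_num) (by norm_num)) (ex_lp 0.59 (by norm_num) (by norm_num) (by norm_num)) (by norm_num) (by norm_num) (by norm_num) (by norm_num) (by norm_num) (by norm_num)
    (by norm_num) (by norm_num) (by norm_num) (by norm_num) (by norm_num) (by norm_num) (by norm_num) (by norm_num) (by norm_num) (by norm_num) (by norm_num)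
    (by norm_num) (by norm_num) (by norm_num) (by norm_num)

private theorem yA3 {κ t : ℝ} (h : DomR κ t) (hk1 : 0.75 ≤ κ) (hk2 : κ ≤ 0.8) (ht1 : 1.181 ≤ t + κ) (ht2 : t + κ ≤ 1.204) :
    0.367 ≤ sy κ t ∧ sy κ t ≤ 0.391 := by
  have hy1 : 0.367 ≤ sy κ t := syR_ge h 0.75 0.8 1.181 0.367 1.44339 1.4434 0.66215 0.70631 hk1 hk2 (by linarith) (by norm_num) (by norm_num)
    (expn_ge (by norm_num) (by norm_num)) (expn_le (by norm_num) (by norm_num) (by norm_num)) (by norm_num)
    (by norm_num) (by norm_num) (by norm_num) (by norm_num) (by norm_num) (by norm_num)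
  have hy2 : sy κ t ≤ 0.391 := syR_le h 0.75 0.8 1.204 0.391 1.47845 0.7185 0.72259 0.77078 hk1 hk2 (by linarith) (by norm_num) (by norm_num)
    (expn_ge (by norm_num) (by norm_num)) (by norm_num) (by norm_num) (Or.inr ((mul_le_mul_of_nonneg_left (expn_le (E := 1.47846) (by norm_num) (by norm_num) (by norm_num)) (by norm_num)).trans (by norm_num))) (by norm_num) (by norm_num) (by norm_num)
  exact ⟨hy1, hy2⟩

private theorem yB3 {κ t : ℝ} (h : DomR κ t) (hk1 : 0.75 ≤ κ) (hk2 : κ ≤ 0.8) (ht1 : -0.9134 ≤ t + κ) (ht2 : t + κ ≤ -0.89039) :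
    (-0.59) ≤ sy κ t ∧ sy κ t ≤ (-0.555) := by
  have hy1 : -0.59 ≤ sy κ t := syL_ge h 0.75 0.8 0.9134 0.59 0.55432 0.55433 0.4133 0.40881 0.43608 hk1 hk2 (by linarith) (by norm_num) (by norm_num) (by norm_num)
    (expm_ge (by norm_num) (by norm_num) (by norm_num) (by norm_num)) (expm_le (by norm_num) (by norm_num) (by norm_num)) (by norm_num)
    (by norm_num) (by norm_num) (by norm_num) (by norm_num) (by norm_num) (by norm_num)
  have hy2 : sy κ t ≤ -0.555 := syL_le h 0.75 0.8 0.89039 0.555 0.57407 0.57408 0.39826 0.42482 hk1 hk2 (by linarith) (by norm_num) (by norm_num) (by norm_num)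
    (expm_ge (by norm_num) (by norm_num) (by norm_num) (by norm_num)) (expm_le (by norm_num) (by norm_num) (by norm_num)) (by norm_num)
    (by norm_num) (by norm_num) (by norm_num) (by norm_num) (by norm_num) (by norm_num)
  exact ⟨hy1, hy2⟩

theorem pc3 {β r h t κ : ℝ} (hh : h = 2 * Real.pi / (3 : ℕ)) (hβ : 0 < β) (hr : 10 ≤ r) (hκ : κ = β * r)
    (hk1 : 0.75 ≤ κ) (hk2 : κ ≤ 0.8) (hT1 : 1.181 ≤ t + κ) (hT2 : t + κ ≤ 1.204) :
    Xf β r h t 0 ≠ 0 ∧ r * 0.2948 ≤ (Ld β r h t 1 - Ld β r h t 0).im ∧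
      ‖(((-1 : ℤ) : ℂ) - 1) * Ld β r h t 0 - ((-1 : ℤ) : ℂ) * Ld β r h t 1‖ ≤ r * 6.69 := by
  obtain ⟨q1, q2, q3⟩ := b3_h hh
  have hR0 := b3_R0 hβ hr hκ
  have hR := b3_R hβ hr hκ (by linarith)
  have hD1 : DomR κ t := b3_dom (by linarith) (by linarith) (Or.inl (by linarith))
  have hD0 : DomR κ (t - h) := b3_dom (by linarith) (by linarith) (Or.inl (by linarith))
  have y1 := yA3 hD1 hk1 hk2 (by linarith) (by linarith)
  have y0 := yB3 hD0 hk1 hk2 (by linarith) (by linarith)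
  have j1 := T3_16_d1_1 hD1 hβ hk1 hk2 (by linarith) (by linarith) hR0 hR
  exact b3_piece 0.75 0.8 0.367 0.391 0.379 0.68454 0.69281 0.67639 0.5543 2.0039 2.0749 0.06 0.085 0.085 1.5483 0.6063 0 0 (-0.59) (-0.555) (-0.573) 1.77357 1.80399 1.4432 1.5956 0.06 0.31 0.18 6.3009 7.199 0 0 0.2948 6.69
    hβ hr hκ (by norm_num) hk1 hk2 hD1 hD0 j1 (j1 _ (by rw [sub_self, norm_zero]; norm_num))
    (T3_16_d0_1 hD0 hβ hk1 hk2 (by linarith) (by linarith) hR0 hR)
    (T3_16_p0 hD0 hβ hk1 hk2 (by linarith) (by linarith) hR0 hR)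
    y1.1 y1.2 y0.1 y0.2 (by norm_num)
    (ex_um 0.367 (by norm_num) (by norm_num) (by norm_num) (by norm_num)) (ex_um 0.391 (by norm_num) (by norm_num) (by norm_num) (by norm_num)) (ex_lm 0.379 (by norm_num) (by norm_num) (by norm_num) (by norm_num) (by norm_num)) (by norm_num) (by norm_num) (by norm_num) (by norm_num) (by norm_num) (by norm_num) (by norm_num) (by norm_num)
    (by norm_num) (by norm_num) (by norm_num) (by norm_num) (by norm_num) (by norm_num) (by norm_num) (by norm_num) (by norm_num) (by norm_num)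
    (ex_up 0.59 (by norm_num) (by norm_num) (by norm_num) (by norm_num)) (ex_lp 0.573 (by norm_num) (by norm_num) (by norm_num)) (by norm_num) (by norm_num) (by norm_num) (by norm_num) (by norm_num) (by norm_num)
    (by norm_num) (by norm_num) (by norm_num) (by norm_num) (by norm_num) (by norm_num) (by norm_num) (by norm_num) (by norm_num) (by norm_num) (by norm_num)
    (by norm_num) (by norm_num) (by norm_num) (by norm_num)

private theorem yA4 {κ t : ℝ} (h : DomR κ t) (hk1 : 0.75 ≤ κ) (hk2 : κ ≤ 0.8) (ht1 : 1.204 ≤ t + κ) (ht2 : t + κ ≤ 1.234) :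
    0.371 ≤ sy κ t ∧ sy κ t ≤ 0.397 := by
  have hy1 : 0.371 ≤ sy κ t := syR_ge h 0.75 0.8 1.204 0.371 1.44918 1.44919 0.67205 0.71687 hk1 hk2 (by linarith) (by norm_num) (by norm_num)
    (expn_ge (by norm_num) (by norm_num)) (expn_le (by norm_num) (by norm_num) (by norm_num)) (by norm_num)
    (by norm_num) (by norm_num) (by norm_num) (by norm_num) (by norm_num) (by norm_num)
  have hy2 : sy κ t ≤ 0.397 := syR_ang2 h 0.75 0.8 1.234 0.83 0.6754 0.738 0.397 0.67234 1.48735 hk1 hk2 (by linarith) (by norm_num) (by norm_num) (by norm_num)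
    (cos_le_num (by norm_num)) (sin_le_num (by norm_num) (by norm_num)) (expm_le (by norm_num) (by norm_num) (by norm_num))
    (expn_ge (by norm_num) (by norm_num)) (by norm_num) (by norm_num) (by norm_num) (by norm_num) (by norm_num)
  exact ⟨hy1, hy2⟩

private theorem yB4 {κ t : ℝ} (h : DomR κ t) (hk1 : 0.75 ≤ κ) (hk2 : κ ≤ 0.8) (ht1 : -0.8904 ≤ t + κ) (ht2 : t + κ ≤ -0.86039) :
    (-0.573) ≤ sy κ t ∧ sy κ t ≤ (-0.534) := by
  have hy1 : -0.573 ≤ sy κ t := syL_ge h 0.75 0.8 0.8904 0.573 0.56383 0.56384 0.406 0.40384 0.43078 hk1 hk2 (by linarith) (by norm_num) (by norm_num) (by norm_num)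
    (expm_ge (by norm_num) (by norm_num) (by norm_num) (by norm_num)) (expm_le (by norm_num) (by norm_num) (by norm_num)) (by norm_num)
    (by norm_num) (by norm_num) (by norm_num) (by norm_num) (by norm_num) (by norm_num)
  have hy2 : sy κ t ≤ -0.534 := syL_le h 0.75 0.8 0.86039 0.534 0.58625 0.58626 0.39132 0.41742 hk1 hk2 (by linarith) (by norm_num) (by norm_num) (by norm_num)
    (expm_ge (by norm_num) (by norm_num) (by norm_num) (by norm_num)) (expm_le (by norm_num) (by norm_num) (by norm_num)) (by norm_num)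
    (by norm_num) (by norm_num) (by norm_num) (by norm_num) (by norm_num) (by norm_num)
  exact ⟨hy1, hy2⟩

theorem pc4 {β r h t κ : ℝ} (hh : h = 2 * Real.pi / (3 : ℕ)) (hβ : 0 < β) (hr : 10 ≤ r) (hκ : κ = β * r)
    (hk1 : 0.75 ≤ κ) (hk2 : κ ≤ 0.8) (hT1 : 1.204 ≤ t + κ) (hT2 : t + κ ≤ 1.234) :
    Xf β r h t 0 ≠ 0 ∧ r * 0.2948 ≤ (Ld β r h t 1 - Ld β r h t 0).im ∧
      ‖(((-1 : ℤ) : ℂ) - 1) * Ld β r h t 0 - ((-1 : ℤ) : ℂ) * Ld β r h t 1‖ ≤ r * 6.69 := by
  obtain ⟨q1, q2, q3⟩ := b3_h hh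
  have hR0 := b3_R0 hβ hr hκ
  have hR := b3_R hβ hr hκ (by linarith)
  have hD1 : DomR κ t := b3_dom (by linarith) (by linarith) (Or.inl (by linarith))
  have hD0 : DomR κ (t - h) := b3_dom (by linarith) (by linarith) (Or.inl (by linarith))
  have y1 := yA4 hD1 hk1 hk2 (by linarith) (by linarith)
  have y0 := yB4 hD0 hk1 hk2 (by linarith) (by linarith)
  have j1 := T3_16_d1_2 hD1 hβ hk1 hk2 (by linarith) (by linarith) hR0 hR
  exact b3_piece 0.75 0.8 0.371 0.397 0.384 0.68113 0.69005 0.67234 0.5521 2.0097 2.0834 0.03 0.09 0.09 3.2968 1.284 0 0 (-0.573) (-0.534) (-0.553) 1.73845 1.77358 1.4189 1.5673 0.07 0.28 0.18 4.8781 5.5288 0 0 0.2948 6.69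
    hβ hr hκ (by norm_num) hk1 hk2 hD1 hD0 j1 (j1 _ (by rw [sub_self, norm_zero]; norm_num))
    (T3_16_d0_2 hD0 hβ hk1 hk2 (by linarith) (by linarith) hR0 hR)
    (T3_16_p0 hD0 hβ hk1 hk2 (by linarith) (by linarith) hR0 hR)
    y1.1 y1.2 y0.1 y0.2 (by norm_num)
    (ex_um 0.371 (by norm_num) (by norm_num) (by norm_num) (by norm_num)) (ex_um 0.397 (by norm_num) (by norm_num) (by norm_num) (by norm_num)) (ex_lm 0.384 (by norm_num) (by norm_num) (by norm_num) (by norm_num) (by norm_num)) (by norm_num) (by norm_num) (by norm_num) (by norm_num) (by norm_num) (by norm_num) (by norm_num) (by norm_num)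
    (by norm_num) (by norm_num) (by norm_num) (by norm_num) (by norm_num) (by norm_num) (by norm_num) (by norm_num) (by norm_num) (by norm_num)
    (ex_up 0.573 (by norm_num) (by norm_num) (by norm_num) (by norm_num)) (ex_lp 0.553 (by norm_num) (by norm_num) (by norm_num)) (by norm_num) (by norm_num) (by norm_num) (by norm_num) (by norm_num) (by norm_num)
    (by norm_num) (by norm_num) (by norm_num) (by norm_num) (by norm_num) (by norm_num) (by norm_num) (by norm_num) (by norm_num) (by norm_num) (by norm_num)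
    (by norm_num) (by norm_num) (by norm_num) (by norm_num)

private theorem yA5 {κ t : ℝ} (h : DomR κ t) (hk1 : 0.75 ≤ κ) (hk2 : κ ≤ 0.8) (ht1 : 1.234 ≤ t + κ) (ht2 : t + κ ≤ 1.263) :
    0.376 ≤ sy κ t ∧ sy κ t ≤ 0.402 := by
  have hy1 : 0.376 ≤ sy κ t := syR_ge h 0.75 0.8 1.234 0.376 1.45644 1.45645 0.68452 0.73017 hk1 hk2 (by linarith) (by norm_num) (by norm_num)
    (expn_ge (by norm_num) (by norm_num)) (expn_le (by norm_num) (by norm_num) (by norm_num)) (by norm_num)
    (by norm_num) (by norm_num) (by norm_num) (by norm_num) (by norm_num) (by norm_num)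
  have hy2 : sy κ t ≤ 0.402 := syR_ang2 h 0.75 0.8 1.263 0.849 0.6613 0.7507 0.402 0.66899 1.49481 hk1 hk2 (by linarith) (by norm_num) (by norm_num) (by norm_num)
    (cos_le_num (by norm_num)) (sin_le_num (by norm_num) (by norm_num)) (expm_le (by norm_num) (by norm_num) (by norm_num))
    (expn_ge (by norm_num) (by norm_num)) (by norm_num) (by norm_num) (by norm_num) (by norm_num) (by norm_num)
  exact ⟨hy1, hy2⟩

private theorem yB5 {κ t : ℝ} (h : DomR κ t) (hk1 : 0.75 ≤ κ) (hk2 : κ ≤ 0.8) (ht1 : -0.8604 ≤ t + κ) (ht2 : t + κ ≤ -0.83139) :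
    (-0.55) ≤ sy κ t ∧ sy κ t ≤ (-0.514) := by
  have hy1 : -0.55 ≤ sy κ t := syL_ge h 0.75 0.8 0.8604 0.55 0.57694 0.57696 0.4076 0.39664 0.42311 hk1 hk2 (by linarith) (by norm_num) (by norm_num) (by norm_num)
    (expm_ge (by norm_num) (by norm_num) (by norm_num) (by norm_num)) (expm_le (by norm_num) (by norm_num) (by norm_num)) (by norm_num)
    (by norm_num) (by norm_num) (by norm_num) (by norm_num) (by norm_num) (by norm_num)
  have hy2 : sy κ t ≤ -0.514 := syL_le h 0.75 0.8 0.83139 0.514 0.59809 0.5981 0.38427 0.4099 hk1 hk2 (by linarith) (by norm_num) (by norm_num) (by norm_num)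
    (expm_ge (by norm_num) (by norm_num) (by norm_num) (by norm_num)) (expm_le (by norm_num) (by norm_num) (by norm_num)) (by norm_num)
    (by norm_num) (by norm_num) (by norm_num) (by norm_num) (by norm_num) (by norm_num)
  exact ⟨hy1, hy2⟩

theorem pc5 {β r h t κ : ℝ} (hh : h = 2 * Real.pi / (3 : ℕ)) (hβ : 0 < β) (hr : 10 ≤ r) (hκ : κ = β * r)
    (hk1 : 0.75 ≤ κ) (hk2 : κ ≤ 0.8) (hT1 : 1.234 ≤ t + κ) (hT2 : t + κ ≤ 1.263) :
    Xf β r h t 0 ≠ 0 ∧ r * 0.2948 ≤ (Ld β r h t 1 - Ld β r h t 0).im ∧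
      ‖(((-1 : ℤ) : ℂ) - 1) * Ld β r h t 0 - ((-1 : ℤ) : ℂ) * Ld β r h t 1‖ ≤ r * 6.69 := by
  obtain ⟨q1, q2, q3⟩ := b3_h hh
  have hR0 := b3_R0 hβ hr hκ
  have hR := b3_R hβ hr hκ (by linarith)
  have hD1 : DomR κ t := b3_dom (by linarith) (by linarith) (Or.inl (by linarith))
  have hD0 : DomR κ (t - h) := b3_dom (by linarith) (by linarith) (Or.inl (by linarith))
  have y1 := yA5 hD1 hk1 hk2 (by linarith) (by linarith)
  have y0 := yB5 hD0 hk1 hk2 (by linarith) (by linarith)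
  have j1 := T3_16_d1_2 hD1 hβ hk1 hk2 (by linarith) (by linarith) hR0 hR
  exact b3_piece 0.75 0.8 0.376 0.402 0.389 0.67773 0.68661 0.66899 0.5493 2.017 2.0905 0.03 0.09 0.09 3.2968 1.2752 0 0 (-0.55) (-0.514) (-0.532) 1.70233 1.73326 1.3867 1.5434 0.07 0.28 0.18 4.8781 5.445 0 0 0.2948 6.69
    hβ hr hκ (by norm_num) hk1 hk2 hD1 hD0 j1 (j1 _ (by rw [sub_self, norm_zero]; norm_num))
    (T3_16_d0_2 hD0 hβ hk1 hk2 (by linarith) (by linarith) hR0 hR)
    (T3_16_p0 hD0 hβ hk1 hk2 (by linarith) (by linarith) hR0 hR)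
    y1.1 y1.2 y0.1 y0.2 (by norm_num)
    (ex_um 0.376 (by norm_num) (by norm_num) (by norm_num) (by norm_num)) (ex_um 0.402 (by norm_num) (by norm_num) (by norm_num) (by norm_num)) (ex_lm 0.389 (by norm_num) (by norm_num) (by norm_num) (by norm_num) (by norm_num)) (by norm_num) (by norm_num) (by norm_num) (by norm_num) (by norm_num) (by norm_num) (by norm_num) (by norm_num)
    (by norm_num) (by norm_num) (by norm_num) (by norm_num) (by norm_num) (by norm_num) (by norm_num) (by norm_num) (by norm_num) (by norm_num)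
    (ex_up 0.55 (by norm_num) (by norm_num) (by norm_num) (by norm_num)) (ex_lp 0.532 (by norm_num) (by norm_num) (by norm_num)) (by norm_num) (by norm_num) (by norm_num) (by norm_num) (by norm_num) (by norm_num)
    (by norm_num) (by norm_num) (by norm_num) (by norm_num) (by norm_num) (by norm_num) (by norm_num) (by norm_num) (by norm_num) (by norm_num) (by norm_num)
    (by norm_num) (by norm_num) (by norm_num) (by norm_num)

private theorem yA6 {κ t : ℝ} (h : DomR κ t) (hk1 : 0.75 ≤ κ) (hk2 : κ ≤ 0.8) (ht1 : 1.263 ≤ t + κ) (ht2 : t + κ ≤ 1.293) :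
    0.381 ≤ sy κ t ∧ sy κ t ≤ 0.407 := by
  have hy1 : 0.381 ≤ sy κ t := syR_ge h 0.75 0.8 1.263 0.381 1.46374 1.46375 0.6971 0.74359 hk1 hk2 (by linarith) (by norm_num) (by norm_num)
    (expn_ge (by norm_num) (by norm_num)) (expn_le (by norm_num) (by norm_num) (by norm_num)) (by norm_num)
    (by norm_num) (by norm_num) (by norm_num) (by norm_num) (by norm_num) (by norm_num)
  have hy2 : sy κ t ≤ 0.407 := syR_ang2 h 0.75 0.8 1.293 0.869 0.6462 0.7638 0.407 0.66565 1.5023 hk1 hk2 (by linarith) (by norm_num) (by norm_num) (by norm_num)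
    (cos_le_num (by norm_num)) (sin_le_num (by norm_num) (by norm_num)) (expm_le (by norm_num) (by norm_num) (by norm_num))
    (expn_ge (by norm_num) (by norm_num)) (by norm_num) (by norm_num) (by norm_num) (by norm_num) (by norm_num)
  exact ⟨hy1, hy2⟩

private theorem yB6 {κ t : ℝ} (h : DomR κ t) (hk1 : 0.75 ≤ κ) (hk2 : κ ≤ 0.8) (ht1 : -0.8314 ≤ t + κ) (ht2 : t + κ ≤ -0.80139) :
    (-0.528) ≤ sy κ t ∧ sy κ t ≤ (-0.493) := by
  have hy1 : -0.528 ≤ sy κ t := syL_ge h 0.75 0.8 0.8314 0.528 0.58978 0.58979 0.4065 0.38925 0.41522 hk1 hk2 (by linarith) (by norm_num) (by norm_num) (by norm_num)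
    (expm_ge (by norm_num) (by norm_num) (by norm_num) (by norm_num)) (expm_le (by norm_num) (by norm_num) (by norm_num)) (by norm_num)
    (by norm_num) (by norm_num) (by norm_num) (by norm_num) (by norm_num) (by norm_num)
  have hy2 : sy κ t ≤ -0.493 := syL_le h 0.75 0.8 0.80139 0.493 0.61079 0.6108 0.37639 0.4015 hk1 hk2 (by linarith) (by norm_num) (by norm_num) (by norm_num)
    (expm_ge (by norm_num) (by norm_num) (by norm_num) (by norm_num)) (expm_le (by norm_num) (by norm_num) (by norm_num)) (by norm_num)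
    (by norm_num) (by norm_num) (by norm_num) (by norm_num) (by norm_num) (by norm_num)
  exact ⟨hy1, hy2⟩

theorem pc6 {β r h t κ : ℝ} (hh : h = 2 * Real.pi / (3 : ℕ)) (hβ : 0 < β) (hr : 10 ≤ r) (hκ : κ = β * r)
    (hk1 : 0.75 ≤ κ) (hk2 : κ ≤ 0.8) (hT1 : 1.263 ≤ t + κ) (hT2 : t + κ ≤ 1.293) :
    Xf β r h t 0 ≠ 0 ∧ r * 0.2948 ≤ (Ld β r h t 1 - Ld β r h t 0).im ∧
      ‖(((-1 : ℤ) : ℂ) - 1) * Ld β r h t 0 - ((-1 : ℤ) : ℂ) * Ld β r h t 1‖ ≤ r * 6.69 := by
  obtain ⟨q1, q2, q3⟩ := b3_h hh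
  have hR0 := b3_R0 hβ hr hκ
  have hR := b3_R hβ hr hκ (by linarith)
  have hD1 : DomR κ t := b3_dom (by linarith) (by linarith) (Or.inl (by linarith))
  have hD0 : DomR κ (t - h) := b3_dom (by linarith) (by linarith) (Or.inl (by linarith))
  have y1 := yA6 hD1 hk1 hk2 (by linarith) (by linarith)
  have y0 := yB6 hD0 hk1 hk2 (by linarith) (by linarith)
  have j1 := T3_16_d1_2 hD1 hβ hk1 hk2 (by linarith) (by linarith) hR0 hR
  exact b3_piece 0.75 0.8 0.381 0.407 0.394 0.67435 0.68318 0.66565 0.5466 2.0244 2.0976 0.03 0.09 0.09 3.2968 1.2666 0 0 (-0.528) (-0.493) (-0.51) 1.66528 1.69554 1.3565 1.5208 0.07 0.28 0.18 4.8781 5.3658 0 0 0.2948 6.69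
    hβ hr hκ (by norm_num) hk1 hk2 hD1 hD0 j1 (j1 _ (by rw [sub_self, norm_zero]; norm_num))
    (T3_16_d0_2 hD0 hβ hk1 hk2 (by linarith) (by linarith) hR0 hR)
    (T3_16_p0 hD0 hβ hk1 hk2 (by linarith) (by linarith) hR0 hR)
    y1.1 y1.2 y0.1 y0.2 (by norm_num)
    (ex_um 0.381 (by norm_num) (by norm_num) (by norm_num) (by norm_num)) (ex_um 0.407 (by norm_num) (by norm_num) (by norm_num) (by norm_num)) (ex_lm 0.394 (by norm_num) (by norm_num) (by norm_num) (by norm_num) (by norm_num)) (by norm_num) (by norm_num) (by norm_num) (by norm_num) (by norm_num) (by norm_num) (by norm_num) (by norm_num)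
    (by norm_num) (by norm_num) (by norm_num) (by norm_num) (by norm_num) (by norm_num) (by norm_num) (by norm_num) (by norm_num) (by norm_num)
    (ex_up 0.528 (by norm_num) (by norm_num) (by norm_num) (by norm_num)) (ex_lp 0.51 (by norm_num) (by norm_num) (by norm_num)) (by norm_num) (by norm_num) (by norm_num) (by norm_num) (by norm_num) (by norm_num)
    (by norm_num) (by norm_num) (by norm_num) (by norm_num) (by norm_num) (by norm_num) (by norm_num) (by norm_num) (by norm_num) (by norm_num) (by norm_num)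
    (by norm_num) (by norm_num) (by norm_num) (by norm_num)

private theorem yA7 {κ t : ℝ} (h : DomR κ t) (hk1 : 0.75 ≤ κ) (hk2 : κ ≤ 0.8) (ht1 : 1.293 ≤ t + κ) (ht2 : t + κ ≤ 1.323) :
    0.386 ≤ sy κ t ∧ sy κ t ≤ 0.412 := by
  have hy1 : 0.386 ≤ sy κ t := syR_ge h 0.75 0.8 1.293 0.386 1.47108 1.47109 0.70979 0.75713 hk1 hk2 (by linarith) (by norm_num) (by norm_num)
    (expn_ge (by norm_num) (by norm_num)) (expn_le (by norm_num) (by norm_num) (by norm_num)) (by norm_num)
    (by norm_num) (by norm_num) (by norm_num) (by norm_num) (by norm_num) (by norm_num)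
  have hy2 : sy κ t ≤ 0.412 := syR_ang2 h 0.75 0.8 1.323 0.89 0.6301 0.7772 0.412 0.66233 1.50983 hk1 hk2 (by linarith) (by norm_num) (by norm_num) (by norm_num)
    (cos_le_num (by norm_num)) (sin_le_num (by norm_num) (by norm_num)) (expm_le (by norm_num) (by norm_num) (by norm_num))
    (expn_ge (by norm_num) (by norm_num)) (by norm_num) (by norm_num) (by norm_num) (by norm_num) (by norm_num)
  exact ⟨hy1, hy2⟩

private theorem yB7 {κ t : ℝ} (h : DomR κ t) (hk1 : 0.75 ≤ κ) (hk2 : κ ≤ 0.8) (ht1 : -0.8014 ≤ t + κ) (ht2 : t + κ ≤ -0.77139) :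
    (-0.506) ≤ sy κ t ∧ sy κ t ≤ (-0.472) := by
  have hy1 : -0.506 ≤ sy κ t := syL_ge h 0.75 0.8 0.8014 0.506 0.6029 0.60291 0.3876 0.38133 0.40677 hk1 hk2 (by linarith) (by norm_num) (by norm_num) (by norm_num)
    (expm_ge (by norm_num) (by norm_num) (by norm_num) (by norm_num)) (expm_le (by norm_num) (by norm_num) (by norm_num)) (by norm_num)
    (by norm_num) (by norm_num) (by norm_num) (by norm_num) (by norm_num) (by norm_num)
  have hy2 : sy κ t ≤ -0.472 := syL_le h 0.75 0.8 0.77139 0.472 0.62375 0.62376 0.36801 0.39256 hk1 hk2 (by linarith) (by norm_num) (by norm_num) (by norm_num)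
    (expm_ge (by norm_num) (by norm_num) (by norm_num) (by norm_num)) (expm_le (by norm_num) (by norm_num) (by norm_num)) (by norm_num)
    (by norm_num) (by norm_num) (by norm_num) (by norm_num) (by norm_num) (by norm_num)
  exact ⟨hy1, hy2⟩

theorem pc7 {β r h t κ : ℝ} (hh : h = 2 * Real.pi / (3 : ℕ)) (hβ : 0 < β) (hr : 10 ≤ r) (hκ : κ = β * r)
    (hk1 : 0.75 ≤ κ) (hk2 : κ ≤ 0.8) (hT1 : 1.293 ≤ t + κ) (hT2 : t + κ ≤ 1.323) :
    Xf β r h t 0 ≠ 0 ∧ r * 0.2948 ≤ (Ld β r h t 1 - Ld β r h t 0).im ∧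
      ‖(((-1 : ℤ) : ℂ) - 1) * Ld β r h t 0 - ((-1 : ℤ) : ℂ) * Ld β r h t 1‖ ≤ r * 6.69 := by
  obtain ⟨q1, q2, q3⟩ := b3_h hh
  have hR0 := b3_R0 hβ hr hκ
  have hR := b3_R hβ hr hκ (by linarith)
  have hD1 : DomR κ t := b3_dom (by linarith) (by linarith) (Or.inl (by linarith))
  have hD0 : DomR κ (t - h) := b3_dom (by linarith) (by linarith) (Or.inl (by linarith))
  have y1 := yA7 hD1 hk1 hk2 (by linarith) (by linarith)
  have y0 := yB7 hD0 hk1 hk2 (by linarith) (by linarith)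
  have j1 := T3_16_d1_2 hD1 hβ hk1 hk2 (by linarith) (by linarith) hR0 hR
  exact b3_piece 0.75 0.8 0.386 0.412 0.399 0.67099 0.67978 0.66233 0.5439 2.0318 2.1048 0.03 0.09 0.09 3.2968 1.258 0 0 (-0.506) (-0.472) (-0.489) 1.63068 1.65865 1.327 1.5008 0.07 0.28 0.18 4.8781 5.284 0 0 0.2948 6.69
    hβ hr hκ (by norm_num) hk1 hk2 hD1 hD0 j1 (j1 _ (by rw [sub_self, norm_zero]; norm_num))
    (T3_16_d0_2 hD0 hβ hk1 hk2 (by linarith) (by linarith) hR0 hR)
    (T3_16_p0 hD0 hβ hk1 hk2 (by linarith) (by linarith) hR0 hR)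
    y1.1 y1.2 y0.1 y0.2 (by norm_num)
    (ex_um 0.386 (by norm_num) (by norm_num) (by norm_num) (by norm_num)) (ex_um 0.412 (by norm_num) (by norm_num) (by norm_num) (by norm_num)) (ex_lm 0.399 (by norm_num) (by norm_num) (by norm_num) (by norm_num) (by norm_num)) (by norm_num) (by norm_num) (by norm_num) (by norm_num) (by norm_num) (by norm_num) (by norm_num) (by norm_num)
    (by norm_num) (by norm_num) (by norm_num) (by norm_num) (by norm_num) (by norm_num) (by norm_num) (by norm_num) (by norm_num) (by norm_num)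
    (ex_up 0.506 (by norm_num) (by norm_num) (by norm_num) (by norm_num)) (ex_lp 0.489 (by norm_num) (by norm_num) (by norm_num)) (by norm_num) (by norm_num) (by norm_num) (by norm_num) (by norm_num) (by norm_num)
    (by norm_num) (by norm_num) (by norm_num) (by norm_num) (by norm_num) (by norm_num) (by norm_num) (by norm_num) (by norm_num) (by norm_num) (by norm_num)
    (by norm_num) (by norm_num) (by norm_num) (by norm_num)

private theorem yA8 {κ t : ℝ} (h : DomR κ t) (hk1 : 0.75 ≤ κ) (hk2 : κ ≤ 0.8) (ht1 : 1.323 ≤ t + κ) (ht2 : t + κ ≤ 1.352) :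
    0.391 ≤ sy κ t ∧ sy κ t ≤ 0.417 := by
  have hy1 : 0.391 ≤ sy κ t := syR_ge h 0.75 0.8 1.323 0.391 1.47845 1.47846 0.72259 0.77078 hk1 hk2 (by linarith) (by norm_num) (by norm_num)
    (expn_ge (by norm_num) (by norm_num)) (expn_le (by norm_num) (by norm_num) (by norm_num)) (by norm_num)
    (by norm_num) (by norm_num) (by norm_num) (by norm_num) (by norm_num) (by norm_num)
  have hy2 : sy κ t ≤ 0.417 := syR_ang2 h 0.75 0.8 1.352 0.912 0.613 0.7909 0.417 0.65903 1.5174 hk1 hk2 (by linarith) (by norm_num) (by norm_num) (by norm_num)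
    (cos_le_num (by norm_num)) (sin_le_num (by norm_num) (by norm_num)) (expm_le (by norm_num) (by norm_num) (by norm_num))
    (expn_ge (by norm_num) (by norm_num)) (by norm_num) (by norm_num) (by norm_num) (by norm_num) (by norm_num)
  exact ⟨hy1, hy2⟩

private theorem yB8 {κ t : ℝ} (h : DomR κ t) (hk1 : 0.75 ≤ κ) (hk2 : κ ≤ 0.8) (ht1 : -0.7714 ≤ t + κ) (ht2 : t + κ ≤ -0.74239) :
    (-0.483) ≤ sy κ t ∧ sy κ t ≤ (-0.452) := by
  have hy1 : -0.483 ≤ sy κ t := syL_ge h 0.75 0.8 0.7714 0.483 0.61692 0.61694 0.3952 0.37246 0.39731 hk1 hk2 (by linarith) (by norm_num) (by norm_num) (by norm_num)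
    (expm_ge (by norm_num) (by norm_num) (by norm_num) (by norm_num)) (expm_le (by norm_num) (by norm_num) (by norm_num)) (by norm_num)
    (by norm_num) (by norm_num) (by norm_num) (by norm_num) (by norm_num) (by norm_num)
  have hy2 : sy κ t ≤ -0.452 := syL_le h 0.75 0.8 0.74239 0.452 0.63635 0.63636 0.35953 0.38352 hk1 hk2 (by linarith) (by norm_num) (by norm_num) (by norm_num)
    (expm_ge (by norm_num) (by norm_num) (by norm_num) (by norm_num)) (expm_le (by norm_num) (by norm_num) (by norm_num)) (by norm_num)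
    (by norm_num) (by norm_num) (by norm_num) (by norm_num) (by norm_num) (by norm_num)
  exact ⟨hy1, hy2⟩

theorem pc8 {β r h t κ : ℝ} (hh : h = 2 * Real.pi / (3 : ℕ)) (hβ : 0 < β) (hr : 10 ≤ r) (hκ : κ = β * r)
    (hk1 : 0.75 ≤ κ) (hk2 : κ ≤ 0.8) (hT1 : 1.323 ≤ t + κ) (hT2 : t + κ ≤ 1.352) :
    Xf β r h t 0 ≠ 0 ∧ r * 0.2948 ≤ (Ld β r h t 1 - Ld β r h t 0).im ∧
      ‖(((-1 : ℤ) : ℂ) - 1) * Ld β r h t 0 - ((-1 : ℤ) : ℂ) * Ld β r h t 1‖ ≤ r * 6.69 := by
  obtain ⟨q1, q2, q3⟩ := b3_h hh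
  have hR0 := b3_R0 hβ hr hκ
  have hR := b3_R hβ hr hκ (by linarith)
  have hD1 : DomR κ t := b3_dom (by linarith) (by linarith) (Or.inl (by linarith))
  have hD0 : DomR κ (t - h) := b3_dom (by linarith) (by linarith) (Or.inl (by linarith))
  have y1 := yA8 hD1 hk1 hk2 (by linarith) (by linarith)
  have y0 := yB8 hD0 hk1 hk2 (by linarith) (by linarith)
  have j1 := T3_16_d1_2 hD1 hβ hk1 hk2 (by linarith) (by linarith) hR0 hR
  exact b3_piece 0.75 0.8 0.391 0.417 0.404 0.66764 0.67639 0.65903 0.5412 2.0392 2.112 0.03 0.09 0.09 3.2968 1.2495 0 0 (-0.483) (-0.452) (-0.468) 1.59679 1.62093 1.2968 1.4843 0.07 0.28 0.18 4.8781 5.1924 0 0 0.2948 6.69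
    hβ hr hκ (by norm_num) hk1 hk2 hD1 hD0 j1 (j1 _ (by rw [sub_self, norm_zero]; norm_num))
    (T3_16_d0_2 hD0 hβ hk1 hk2 (by linarith) (by linarith) hR0 hR)
    (T3_16_p0 hD0 hβ hk1 hk2 (by linarith) (by linarith) hR0 hR)
    y1.1 y1.2 y0.1 y0.2 (by norm_num)
    (ex_um 0.391 (by norm_num) (by norm_num) (by norm_num) (by norm_num)) (ex_um 0.417 (by norm_num) (by norm_num) (by norm_num) (by norm_num)) (ex_lm 0.404 (by norm_num) (by norm_num) (by norm_num) (by norm_num) (by norm_num)) (by norm_num) (by norm_num) (by norm_num) (by norm_num) (by norm_num) (by norm_num) (by norm_num) (by norm_num)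
    (by norm_num) (by norm_num) (by norm_num) (by norm_num) (by norm_num) (by norm_num) (by norm_num) (by norm_num) (by norm_num) (by norm_num)
    (ex_up 0.483 (by norm_num) (by norm_num) (by norm_num) (by norm_num)) (ex_lp 0.468 (by norm_num) (by norm_num) (by norm_num)) (by norm_num) (by norm_num) (by norm_num) (by norm_num) (by norm_num) (by norm_num)
    (by norm_num) (by norm_num) (by norm_num) (by norm_num) (by norm_num) (by norm_num) (by norm_num) (by norm_num) (by norm_num) (by norm_num) (by norm_num)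
    (by norm_num) (by norm_num) (by norm_num) (by norm_num)

private theorem yA9 {κ t : ℝ} (h : DomR κ t) (hk1 : 0.75 ≤ κ) (hk2 : κ ≤ 0.8) (ht1 : 1.352 ≤ t + κ) (ht2 : t + κ ≤ 1.382) :
    0.395 ≤ sy κ t ∧ sy κ t ≤ 0.421 := by
  have hy1 : 0.395 ≤ sy κ t := syR_ge h 0.75 0.8 1.352 0.395 1.48438 1.48439 0.73291 0.78178 hk1 hk2 (by linarith) (by norm_num) (by norm_num)
    (expn_ge (by norm_num) (by norm_num)) (expn_le (by norm_num) (by norm_num) (by norm_num)) (by norm_num)
    (by norm_num) (by norm_num) (by norm_num) (by norm_num) (by norm_num) (by norm_num)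
  have hy2 : sy κ t ≤ 0.421 := syR_ang2 h 0.75 0.8 1.382 0.929 0.5996 0.8012 0.421 0.6564 1.52348 hk1 hk2 (by linarith) (by norm_num) (by norm_num) (by norm_num)
    (cos_le_num (by norm_num)) (sin_le_num (by norm_num) (by norm_num)) (expm_le (by norm_num) (by norm_num) (by norm_num))
    (expn_ge (by norm_num) (by norm_num)) (by norm_num) (by norm_num) (by norm_num) (by norm_num) (by norm_num)
  exact ⟨hy1, hy2⟩

private theorem yB9 {κ t : ℝ} (h : DomR κ t) (hk1 : 0.75 ≤ κ) (hk2 : κ ≤ 0.8) (ht1 : -0.7424 ≤ t + κ) (ht2 : t + κ ≤ -0.71239) :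
    (-0.462) ≤ sy κ t ∧ sy κ t ≤ (-0.431) := by
  have hy1 : -0.462 ≤ sy κ t := syL_ge h 0.75 0.8 0.7424 0.462 0.63002 0.63003 0.3698 0.36383 0.3881 hk1 hk2 (by linarith) (by norm_num) (by norm_num) (by norm_num)
    (expm_ge (by norm_num) (by norm_num) (by norm_num) (by norm_num)) (expm_le (by norm_num) (by norm_num) (by norm_num)) (by norm_num)
    (by norm_num) (by norm_num) (by norm_num) (by norm_num) (by norm_num) (by norm_num)
  have hy2 : sy κ t ≤ -0.431 := syL_le h 0.75 0.8 0.71239 0.431 0.64985 0.64986 0.3501 0.37346 hk1 hk2 (by linarith) (by norm_num) (by norm_num) (by norm_num)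
    (expm_ge (by norm_num) (by norm_num) (by norm_num) (by norm_num)) (expm_le (by norm_num) (by norm_num) (by norm_num)) (by norm_num)
    (by norm_num) (by norm_num) (by norm_num) (by norm_num) (by norm_num) (by norm_num)
  exact ⟨hy1, hy2⟩

theorem pc9 {β r h t κ : ℝ} (hh : h = 2 * Real.pi / (3 : ℕ)) (hβ : 0 < β) (hr : 10 ≤ r) (hκ : κ = β * r)
    (hk1 : 0.75 ≤ κ) (hk2 : κ ≤ 0.8) (hT1 : 1.352 ≤ t + κ) (hT2 : t + κ ≤ 1.382) :
    Xf β r h t 0 ≠ 0 ∧ r * 0.2948 ≤ (Ld β r h t 1 - Ld β r h t 0).im ∧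
      ‖(((-1 : ℤ) : ℂ) - 1) * Ld β r h t 0 - ((-1 : ℤ) : ℂ) * Ld β r h t 1‖ ≤ r * 6.69 := by
  obtain ⟨q1, q2, q3⟩ := b3_h hh
  have hR0 := b3_R0 hβ hr hκ
  have hR := b3_R hβ hr hκ (by linarith)
  have hD1 : DomR κ t := b3_dom (by linarith) (by linarith) (Or.inl (by linarith))
  have hD0 : DomR κ (t - h) := b3_dom (by linarith) (by linarith) (Or.inl (by linarith))
  have y1 := yA9 hD1 hk1 hk2 (by linarith) (by linarith)
  have y0 := yB9 hD0 hk1 hk2 (by linarith) (by linarith)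
  have j1 := T3_16_d1_2 hD1 hβ hk1 hk2 (by linarith) (by linarith) hR0 hR
  exact b3_piece 0.75 0.8 0.395 0.421 0.408 0.66497 0.67369 0.6564 0.539 2.0451 2.1178 0.03 0.09 0.09 3.2968 1.2426 0 0 (-0.462) (-0.431) (-0.447) 1.56361 1.58725 1.2698 1.4692 0.07 0.28 0.18 4.8781 5.1103 0 0 0.2948 6.69
    hβ hr hκ (by norm_num) hk1 hk2 hD1 hD0 j1 (j1 _ (by rw [sub_self, norm_zero]; norm_num))
    (T3_16_d0_2 hD0 hβ hk1 hk2 (by linarith) (by linarith) hR0 hR)
    (T3_16_p0 hD0 hβ hk1 hk2 (by linarith) (by linarith) hR0 hR)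
    y1.1 y1.2 y0.1 y0.2 (by norm_num)
    (ex_um 0.395 (by norm_num) (by norm_num) (by norm_num) (by norm_num)) (ex_um 0.421 (by norm_num) (by norm_num) (by norm_num) (by norm_num)) (ex_lm 0.408 (by norm_num) (by norm_num) (by norm_num) (by norm_num) (by norm_num)) (by norm_num) (by norm_num) (by norm_num) (by norm_num) (by norm_num) (by norm_num) (by norm_num) (by norm_num)
    (by norm_num) (by norm_num) (by norm_num) (by norm_num) (by norm_num) (by norm_num) (by norm_num) (by norm_num) (by norm_num) (by norm_num)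
    (ex_up 0.462 (by norm_num) (by norm_num) (by norm_num) (by norm_num)) (ex_lp 0.447 (by norm_num) (by norm_num) (by norm_num)) (by norm_num) (by norm_num) (by norm_num) (by norm_num) (by norm_num) (by norm_num)
    (by norm_num) (by norm_num) (by norm_num) (by norm_num) (by norm_num) (by norm_num) (by norm_num) (by norm_num) (by norm_num) (by norm_num) (by norm_num)
    (by norm_num) (by norm_num) (by norm_num) (by norm_num)

theorem innS {β r h t κ : ℝ} (hh : h = 2 * Real.pi / (3 : ℕ)) (hβ : 0 < β) (hr : 10 ≤ r) (hκ : κ = β * r)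
    (hk1 : 0.75 ≤ κ) (hk2 : κ ≤ 0.8) (hT1 : 1.104 ≤ t + κ) (hT2 : t + κ ≤ 1.382) :
    Xf β r h t 0 ≠ 0 ∧ r * 0.2948 ≤ (Ld β r h t 1 - Ld β r h t 0).im ∧
      ‖(((-1 : ℤ) : ℂ) - 1) * Ld β r h t 0 - ((-1 : ℤ) : ℂ) * Ld β r h t 1‖ ≤ r * 6.69 := by
  rcases le_total (t + κ) 1.134 with f0 | g0
  · exact pc0 hh hβ hr hκ hk1 hk2 hT1 f0
  rcases le_total (t + κ) 1.157 with f1 | g1
  · exact pc1 hh hβ hr hκ hk1 hk2 g0 f1
  rcases le_total (t + κ) 1.181 with f2 | g2
  · exact pc2 hh hβ hr hκ hk1 hk2 g1 f2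
  rcases le_total (t + κ) 1.204 with f3 | g3
  · exact pc3 hh hβ hr hκ hk1 hk2 g2 f3
  rcases le_total (t + κ) 1.234 with f4 | g4
  · exact pc4 hh hβ hr hκ hk1 hk2 g3 f4
  rcases le_total (t + κ) 1.263 with f5 | g5
  · exact pc5 hh hβ hr hκ hk1 hk2 g4 f5
  rcases le_total (t + κ) 1.293 with f6 | g6
  · exact pc6 hh hβ hr hκ hk1 hk2 g5 f6
  rcases le_total (t + κ) 1.323 with f7 | g7
  · exact pc7 hh hβ hr hκ hk1 hk2 g6 f7
  rcases le_total (t + κ) 1.352 with f8 | g8
  · exact pc8 hh hβ hr hκ hk1 hk2 g7 f8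
  exact pc9 hh hβ hr hκ hk1 hk2 g8 hT2

theorem circ {p : ℤ} (hp : IsCoprime (3 : ℤ) p) {β r : ℝ} (hβ : 0 < β) (hr : 10 ≤ r) (hk1 : 0.75 ≤ β * r)
    (hk2 : β * r ≤ 0.8) : Circ (2 * Real.pi * p / (3 : ℕ) + β) r := by
  obtain ⟨κ, hκ⟩ : ∃ κ, κ = β * r := ⟨_, rfl⟩
  rw [← hκ] at hk1 hk2
  refine circ3 hp hr (h := 2 * Real.pi / (3 : ℕ)) (κ := κ) rfl 1.104 1.382 1.008 0.2948 0.00295 0.00295 6.69 (by norm_num) (by norm_num) (by norm_num)
    (by norm_num) (by norm_num) ?_ ?_ ?_ ?_ ?_ (by norm_num) (by norm_num)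
  · intro t h1 h2
    exact (innS rfl hβ hr hκ hk1 hk2 h1 h2).1
  · intro t h1 h2
    exact (innE rfl hβ hr hκ hk1 hk2 h1 h2).1
  · intro t h1 h2
    exact (innE rfl hβ hr hκ hk1 hk2 h1 h2).2
  · intro t h1 h2
    exact (innS rfl hβ hr hκ hk1 hk2 h1 h2).2
  · intro t h1 h2 h3
    rcases h3 with h3 | h3
    · exact left rfl hβ hr hκ hk1 hk2 h1 h3
    · exact right0 rfl hβ hr hκ hk1 hk2 h3 h2

end B3_16

end Sok
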