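import Pool.Agent.Lib.MP_816dec_an.R1b3D
import Pool.Agent.Lib.MP_816dec_an.R1b3J17

/-!
MP_816dec_an (A3, row R1, b = 3): the cell `0.8 ≤ κ ≤ 0.85`.
-/

set_option autoImplicit false
set_option maxHeartbeats 4000000
set_option linter.unusedVariables false

open Complex Set

namespace Sok

namespace B3_17

private theorem yL {κ t : ℝ} (h : DomR κ t) (hk1 : 0.8 ≤ κ) (hk2 : κ ≤ 0.85) (ht1 : 0 ≤ t + κ) (ht2 : t + κ ≤ 1.085) :
    0 ≤ sy κ t ∧ sy κ t ≤ 0.376 := by
  have hy1 : 0 ≤ sy κ t := sy_nonneg h (by linarith)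
  have hy2 : sy κ t ≤ 0.376 := syR_le h 0.8 0.85 1.085 0.376 1.45644 0.6341 0.64426 0.68454 hk1 hk2 (by linarith) (by norm_num) (by norm_num)
    (expn_ge (by norm_num) (by norm_num)) (by norm_num) (by norm_num) (Or.inr ((mul_le_mul_of_nonneg_left (expn_le (E := 1.45645) (by norm_num) (by norm_num) (by norm_num)) (by norm_num)).trans (by norm_num))) (by norm_num) (by norm_num) (by norm_num)
  exact ⟨hy1, hy2⟩

theorem left {β r h t κ : ℝ} (hh : h = 2 * Real.pi / (3 : ℕ)) (hβ : 0 < β) (hr : 10 ≤ r) (hκ : κ = β * r)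
    (hk1 : 0.8 ≤ κ) (hk2 : κ ≤ 0.85) (hT1 : 0 ≤ t + κ) (hT2 : t + κ ≤ 1.085) :
    ‖Xf β r h t (-1)‖ < |‖Xf β r h t 1‖ - ‖Xf β r h t 0‖| := by
  obtain ⟨q1, q2, q3⟩ := b3_h hh
  have hR0 := b3_R0 hβ hr hκ
  have hR := b3_R hβ hr hκ (by linarith)
  have hD1 : DomR κ t := b3_dom (by linarith) (by linarith) (Or.inl (by linarith))
  have hy := yL hD1 hk1 hk2 (by linarith) (by linarith)
  have hY : 0.794 * Real.exp (r * 0.72033) ≤ ‖Xf β r h t 1‖ :=
    b3_lo hβ hr hκ (k := 1) (t' := t) (by push_cast; ring) hD1 0.045 2.0927 0.794 0.72033 (by norm_num)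
      (T3_17_p1 hD1 hβ hk1 hk2 (by linarith) (by linarith) hR0 hR)
      (v5_Dup hD1 0.85 0 0.376 1 0.68661 2.0927 hk2 hy.1 hy.2 (ex_up 0 (by norm_num) (by norm_num) (by norm_num) (by norm_num)) (ex_um 0.376 (by norm_num) (by norm_num) (by norm_num) (by norm_num)) (by norm_num) (by norm_num) (by norm_num)) (by norm_num) (by norm_num)
      (b3_Vlo hD1 0.8 0.85 0 1.085 0.53 (-0.63487) 0.709 0.75901 0.27575 0.72033 hk1 hk2 (by linarith) (by linarith) (by norm_num) (ex_lm 0.63487 (by norm_num) (by norm_num) (by norm_num) (by norm_num) (by norm_num)) (by norm_num) (by norm_num) (by norm_num) (by norm_num) (by norm_num) (by norm_num) (by norm_num) (by norm_num) (ex_um 0.27575 (by norm_num) (by norm_num) (by norm_num) (by norm_num)) (by norm_num))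
  have h0 : ‖Xf β r h t 0‖ ≤ 0.6573 * ‖Xf β r h t 1‖ :=
    b3_cmp 0.4906 0.07186 0.001235 0.67033 0.65434 0.002892 0.6573 hr (b3_HU0 0.76 0.8 0.85 (-2.0944) (-1.00939) 1.4156 1.83676 1.9079 0.54445 0.52415 1.83674 1.059 0.11632 0.85554 1.7676 0 0.05 0.000001 1.8592 0.64847 hβ hr hκ (by norm_num) hk1 hk2 (by norm_num) (by linarith) (by linarith) (by norm_num) (by norm_num) (ex_up 0.608 (by norm_num) (by norm_num) (by norm_num) (by norm_num)) (ex_up 0.646 (by norm_num) (by norm_num) (by norm_num) (by norm_num)) (ex_um 0.608 (by norm_num) (by norm_num) (by norm_num) (by norm_num)) (ex_um 0.646 (by norm_num) (by norm_num) (by norm_num) (by norm_num)) (by norm_num) (by norm_num) (ex_lp 0.608 (by norm_num) (by norm_num) (by norm_num)) (by norm_num) (by norm_num) (by norm_num) (by norm_num) (by norm_num) (by norm_num) (by norm_num) (by norm_num) (by norm_num) (by norm_num) (by norm_num) (by norm_num) (by norm_num) (by norm_num) (v5_hump 5.2608 11.764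 3.4299 0.0000003148 0.000001 hβ hr hκ hk1 hk2 (by norm_num) (tb := (-1.00939)) (by linarith) (by norm_num) (by norm_num) (by norm_num) (by norm_num) (by norm_num) (by norm_num) (by norm_num) (ex_un 14 0.99 (by norm_num) (by norm_num) (by norm_num) (by norm_num)) (by norm_num)) (by norm_num) (by norm_num)) hY (by norm_num) (by norm_num) (by norm_num) (by norm_num) (by norm_num) (ex_un 0 0.7186 (by norm_num) (by norm_num) (by norm_num) (by norm_num)) (by norm_num) (by norm_num) (by norm_num) (ex_un 6 0.7033 (by norm_num) (by norm_num) (by norm_num) (by norm_num)) (by norm_num) (by norm_num)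
  have h2 : ‖Xf β r h t (-1)‖ ≤ 0.0317 * ‖Xf β r h t 1‖ := by
    rcases le_total ((t + h) + κ) 2.32 with g0 | g0
    · exact b3_cmp 0.006693 0.50067 0.0007442 0.72033 0.031551 0.000148 0.0317 hr ((b3_Xm hh).trans_le (b3_HF 0.53 0.8 0.85 2.09439 2.32 1.32968 0.65443 0.63731 1.52807 1.5691 0.6373 2.3018 0.11632 2.81509 0.0507 0.04665 0.6281 0.000001 3.7429 0.1577 0.21966 hβ hr hκ (by norm_num) hk1 hk2 (by norm_num) (by linarith) (by linarith) (by norm_num) (ex_um 0.424 (by norm_num) (by norm_num) (by norm_num) (by norm_num)) (ex_um 0.4505 (by norm_num) (by norm_num) (by norm_num) (by norm_num)) (ex_up 0.424 (by norm_num) (by norm_num) (by norm_num) (by norm_num)) (ex_up 0.4505 (by norm_num) (by norm_num) (by norm_num) (by norm_num)) (by norm_num) (by norm_num) (ex_lm 0.4505 (by norm_num) (by norm_num) (by norm_num) (by norm_num) (by norm_num)) (by norm_num) (by norm_num) (by norm_num) (by norm_num) (by norm_num) (by norm_num) (by norm_num) (by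 norm_num) (by norm_num) (by norm_num) (by norm_num) (by norm_num) (ex_un 0 0.4665 (by norm_num) (by norm_num) (by norm_num) (by norm_num)) (v5_hump 1.9314 11.764 3.4299 0.0000003148 0.000001 hβ hr hκ hk1 hk2 (by norm_num) (tb := 2.32) (by linarith) (by norm_num) (by norm_num) (by norm_num) (by norm_num) (by norm_num) (by norm_num) (by norm_num) (ex_un 14 0.99 (by norm_num) (by norm_num) (by norm_num) (by norm_num)) (by norm_num)) (by norm_num) (by norm_num) (by norm_num))) hY (by norm_num) (by norm_num) (by norm_num) (by norm_num) (by norm_num) (ex_un 5 0.0067 (by norm_num) (by norm_num) (by norm_num) (by norm_num)) (by norm_num) (by norm_num) (by norm_num) (ex_un 7 0.2033 (by norm_num) (by norm_num) (by norm_num) (by norm_num)) (by norm_num) (by norm_num)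
    exact b3_cmp 1 0 0.005499 0.52033 0 0.025846 0.0317 hr (b3_w (b3_UD 0.8 0.85 2.32 3.1794 0.15 0.44604 0.15 1.9456 3.7319 0.2 hh hβ hr hκ (by norm_num) hk1 hk2 (by linarith) (by linarith) (by norm_num) (by norm_num) (by norm_num) (by norm_num) (by norm_num) (by norm_num) (by norm_num) (by norm_num) (by norm_num) (by norm_num) (by norm_num) (by norm_num) (by norm_num))) hY (by norm_num) (by norm_num) (by norm_num) (by norm_num) (by norm_num) (by norm_num) (by norm_num) (by norm_num) (by norm_num) (ex_un 5 0.2033 (by norm_num) (by norm_num) (by norm_num) (by norm_num)) (by norm_num) (by norm_num)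
  exact b3_out1 0.6573 0.0317 hY (by norm_num) h0 h2 (by norm_num)

private theorem yR0 {κ t : ℝ} (h : DomR κ t) (hk1 : 0.8 ≤ κ) (hk2 : κ ≤ 0.85) (ht1 : -0.7124 ≤ t + κ) (ht2 : t + κ ≤ 0.0001) :
    (-0.434) ≤ sy κ t ∧ sy κ t ≤ 0.005 := by
  have hy1 : -0.434 ≤ sy κ t := syL_ge h 0.8 0.85 0.7124 0.434 0.64791 0.64792 0.3325 0.33081 0.3515 hk1 hk2 (by linarith) (by norm_num) (by norm_num) (by norm_num)
    (expm_ge (by norm_num) (by norm_num) (by norm_num) (by norm_num)) (expm_le (by norm_num) (by norm_num) (by norm_num)) (by norm_num)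
    (by norm_num) (by norm_num) (by norm_num) (by norm_num) (by norm_num) (by norm_num)
  have hy2 : sy κ t ≤ 0.005 := syR_le h 0.8 0.85 0.0001 0.005 1.00501 0.0058 0.00591 0.00629 hk1 hk2 (by linarith) (by norm_num) (by norm_num)
    (expn_ge (by norm_num) (by norm_num)) (by norm_num) (by norm_num) (Or.inr ((mul_le_mul_of_nonneg_left (expn_le (E := 1.00502) (by norm_num) (by norm_num) (by norm_num)) (by norm_num)).trans (by norm_num))) (by norm_num) (by norm_num) (by norm_num)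
  exact ⟨hy1, hy2⟩

theorem right0 {β r h t κ : ℝ} (hh : h = 2 * Real.pi / (3 : ℕ)) (hβ : 0 < β) (hr : 10 ≤ r) (hκ : κ = β * r)
    (hk1 : 0.8 ≤ κ) (hk2 : κ ≤ 0.85) (hT1 : 1.382 ≤ t + κ) (hT2 : t + κ ≤ h) :
    ‖Xf β r h t (-1)‖ < |‖Xf β r h t 1‖ - ‖Xf β r h t 0‖| := by
  obtain ⟨q1, q2, q3⟩ := b3_h hh
  have hR0 := b3_R0 hβ hr hκ
  have hR := b3_R hβ hr hκ (by linarith)
  have hD0 : DomR κ (t - h) := b3_dom (by linarith) (by linarith) (Or.inl (by linarith))
  have hy := yR0 hD0 hk1 hk2 (by linarith) (by linarith)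
  have hY : 0.7756 * Real.exp (r * 0.81918) ≤ ‖Xf β r h t 0‖ :=
    b3_lo hβ hr hκ (k := 0) (t' := t - h) (by push_cast; ring) hD0 0.095 1.8531 0.7756 0.81918 (by norm_num)
      (T3_17_p0R hD0 hβ hk1 hk2 (by linarith) (by linarith) hR0 hR)
      (v5_Dup hD0 0.85 (-0.434) 0.005 1.54342 0.99502 1.8531 hk2 hy.1 hy.2 (ex_up 0.434 (by norm_num) (by norm_num) (by norm_num) (by norm_num)) (ex_um 0.005 (by norm_num) (by norm_num) (by norm_num) (by norm_num)) (by norm_num) (by norm_num) (by norm_num)) (by norm_num) (by norm_num)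
      (b3_Vlo hD0 0.8 0.85 (-0.7124) 0.0001 1.43 0.35768 0.3684 0.9329 0.06946 0.81918 hk1 hk2 (by linarith) (by linarith) (by norm_num) (ex_lp 0.35768 (by norm_num) (by norm_num) (by norm_num)) (by norm_num) (by norm_num) (by norm_num) (by norm_num) (by norm_num) (by norm_num) (by norm_num) (by norm_num) (ex_um 0.06946 (by norm_num) (by norm_num) (by norm_num) (by norm_num)) (by norm_num))
  have h1 : ‖Xf β r h t 1‖ ≤ 0.2877 * ‖Xf β r h t 0‖ := by
    rcases le_total (t + κ) 2.07 with g0 | g0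
    · exact b3_cmp 0.1106 0.22026 0.000277 0.81918 0.287552 0.000062 0.2877 hr (b3_X1.trans_le (b3_HF 0.45 0.8 0.85 1.382 2.07 1.22082 0.69768 0.68216 1.43333 1.46595 0.68215 1.9125 0.11632 2.1027 0.3007 0.13146 0.2687 0.000001 2.0165 0.1717 0.59892 hβ hr hκ (by norm_num) hk1 hk2 (by norm_num) (by linarith) (by linarith) (by norm_num) (ex_um 0.36 (by norm_num) (by norm_num) (by norm_num) (by norm_num)) (ex_um 0.3825 (by norm_num) (by norm_num) (by norm_num) (by norm_num)) (ex_up 0.36 (by norm_num) (by norm_num) (by norm_num) (by norm_num)) (ex_up 0.3825 (by norm_num) (by norm_num) (by norm_num) (by norm_num)) (by norm_num) (by norm_num) (ex_lm 0.3825 (by norm_num) (by norm_num) (by norm_num) (by norm_num) (by norm_num)) (by norm_num) (by norm_num) (by norm_num) (by norm_num) (by norm_num) (by norm_num) (by norm_num) (by norm_num) (by norm_num) (by norm_num) (by norm_num) (by norm_num) (ex_un 1 0.3146 (by norm_num) (by norm_num) (by norm_num) (by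 norm_num)) (v5_hump 2.1814 11.764 3.4299 0.0000003148 0.000001 hβ hr hκ hk1 hk2 (by norm_num) (tb := 2.07) (by linarith) (by norm_num) (by norm_num) (by norm_num) (by norm_num) (by norm_num) (by norm_num) (by norm_num) (ex_un 14 0.99 (by norm_num) (by norm_num) (by norm_num) (by norm_num)) (by norm_num)) (by norm_num) (by norm_num) (by norm_num))) hY (by norm_num) (by norm_num) (by norm_num) (by norm_num) (by norm_num) (ex_un 2 0.2026 (by norm_num) (by norm_num) (by norm_num) (by norm_num)) (by norm_num) (by norm_num) (by norm_num) (ex_un 8 0.1918 (by norm_num) (by norm_num) (by norm_num) (by norm_num)) (by norm_num) (by norm_num)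
    exact b3_cmp 1 0 0.02507 0.36918 0 0.127542 0.2877 hr (b3_w (b3_UD1 0.8 0.85 2.07 2.0944 0.4 0.44604 0.4 2.0571 3.9458 0.45 hβ hr hκ (by norm_num) hk1 hk2 (by linarith) (by linarith) (by norm_num) (by norm_num) (by norm_num) (by norm_num) (by norm_num) (by norm_num) (by norm_num) (by norm_num) (by norm_num) (by norm_num) (by norm_num) (by norm_num) (by norm_num))) hY (by norm_num) (by norm_num) (by norm_num) (by norm_num) (by norm_num) (by norm_num) (by norm_num) (by norm_num) (by norm_num) (ex_un 3 0.6918 (by norm_num) (by norm_num) (by norm_num) (by norm_num)) (by norm_num) (by norm_num)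
  have h2 : ‖Xf β r h t (-1)‖ ≤ 0.0008 * ‖Xf β r h t 0‖ := by
    exact b3_cmp 1 0 0.0004591 0.76918 0 0.000718 0.0008 hr ((b3_Xm hh).trans_le (b3_U1 0.8 0.85 3.47639 4.1888 1.05559 0.11632 0.85554 0.8701 0.00002 0.5153 0.715908 1.2113 hβ hr hκ (by norm_num) hk1 hk2 (by linarith) (by linarith) (by norm_num) (by norm_num) (by norm_num) (by norm_num) (by norm_num) (by norm_num) (by norm_num) (by norm_num) (by norm_num) (by norm_num) (by norm_num) (by norm_num) (by norm_num) (ex_un 8 0.701 (by norm_num) (by norm_num) (by norm_num) (by norm_num)) (v5_hump 0.0626 11.764 3.4299 0.4822 0.715908 hβ hr hκ hk1 hk2 (by norm_num) (tb := 4.1888) (by linarith) (by norm_num) (by norm_num) (by norm_num) (by norm_num) (by norm_num) (by norm_num) (by norm_num) (ex_un 0 0.7364 (by norm_num) (by norm_num) (by norm_num) (by norm_num)) (by norm_num)) (by norm_num))) hY (by norm_num) (by norm_num) (by norm_num) (by norm_num) (by norm_num) (by norm_num) (by norm_num)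 (by norm_num) (by norm_num) (ex_un 7 0.6918 (by norm_num) (by norm_num) (by norm_num) (by norm_num)) (by norm_num) (by norm_num)
  exact b3_out0 0.2877 0.0008 hY (by norm_num) h1 h2 (by norm_num)

private theorem yI {κ t : ℝ} (h : DomR κ t) (hk1 : 0.8 ≤ κ) (hk2 : κ ≤ 0.85) (ht1 : -1.0094 ≤ t + κ) (ht2 : t + κ ≤ -0.71239) :
    (-0.642) ≤ sy κ t ∧ sy κ t ≤ (-0.425) := by
  have hy1 : -0.642 ≤ sy κ t := syL_ge h 0.8 0.85 1.0094 0.642 0.52623 0.52625 0.4078 0.39745 0.42232 hk1 hk2 (by linarith) (by norm_num) (by norm_num) (by norm_num)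
    (expm_ge (by norm_num) (by norm_num) (by norm_num) (by norm_num)) (expm_le (by norm_num) (by norm_num) (by norm_num)) (by norm_num)
    (by norm_num) (by norm_num) (by norm_num) (by norm_num) (by norm_num) (by norm_num)
  have hy2 : sy κ t ≤ -0.425 := syL_le h 0.8 0.85 0.71239 0.425 0.65376 0.65378 0.32687 0.34733 hk1 hk2 (by linarith) (by norm_num) (by norm_num) (by norm_num)
    (expm_ge (by norm_num) (by norm_num) (by norm_num) (by norm_num)) (expm_le (by norm_num) (by norm_num) (by norm_num)) (by norm_num)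
    (by norm_num) (by norm_num) (by norm_num) (by norm_num) (by norm_num) (by norm_num)
  exact ⟨hy1, hy2⟩

theorem innE {β r h t κ : ℝ} (hh : h = 2 * Real.pi / (3 : ℕ)) (hβ : 0 < β) (hr : 10 ≤ r) (hκ : κ = β * r)
    (hk1 : 0.8 ≤ κ) (hk2 : κ ≤ 0.85) (hT1 : 1.085 ≤ t + κ) (hT2 : t + κ ≤ 1.382) :
    ‖Xf β r h t (-1)‖ ≤ 0.00273 * ‖Xf β r h t 0‖ ∧ ‖Xf β r h (t + β) (-1)‖ ≤ 0.00273 * ‖Xf β r h t 0‖ := by
  obtain ⟨q1, q2, q3⟩ := b3_h hh
  have hR0 := b3_R0 hβ hr hκ
  have hR := b3_R hβ hr hκ (by linarith)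
  have hD0 : DomR κ (t - h) := b3_dom (by linarith) (by linarith) (Or.inl (by linarith))
  have hy := yI hD0 hk1 hk2 (by linarith) (by linarith)
  have hY : 0.664 * Real.exp (r * 0.62031) ≤ ‖Xf β r h t 0‖ :=
    b3_lo hβ hr hκ (k := 0) (t' := t - h) (by push_cast; ring) hD0 0.18 2.325 0.664 0.62031 (by norm_num)
      (T3_17_p0 hD0 hβ hk1 hk2 (by linarith) (by linarith) hR0 hR)
      (v5_Dup hD0 0.85 (-0.642) (-0.425) 1.90028 1.5296 2.325 hk2 hy.1 hy.2 (ex_up 0.642 (by norm_num) (by norm_num) (by norm_num) (by norm_num)) (ex_up 0.425 (by norm_num) (by norm_num) (by norm_num) (by norm_num)) (by norm_num) (by norm_num) (by norm_num)) (by norm_num) (by norm_num)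
      (b3_Vlo hD0 0.8 0.85 (-1.0094) (-0.71239) 1.72 0.54233 0.4334 0.90754 0.09702 0.62031 hk1 hk2 (by linarith) (by linarith) (by norm_num) (ex_lp 0.54233 (by norm_num) (by norm_num) (by norm_num)) (by norm_num) (by norm_num) (by norm_num) (by norm_num) (by norm_num) (by norm_num) (by norm_num) (by norm_num) (ex_um 0.09702 (by norm_num) (by norm_num) (by norm_num) (by norm_num)) (by norm_num))
  constructor
  · exact b3_cmp 1 0 0.003356 0.57031 0 0.002724 0.00273 hr ((b3_Xm hh).trans_le (b3_U1 0.8 0.85 3.17939 3.4764 0.75859 0.11632 0.85554 0.6878 0.00016 0.8123 0.000164 0.5388 hβ hr hκ (by norm_num) hk1 hk2 (by linarith) (by linarith) (by norm_num) (by norm_num) (by norm_num) (by norm_num) (by norm_num) (by norm_num) (by norm_num) (by norm_num) (by norm_num) (by norm_num) (by norm_num) (by norm_num) (by norm_num) (ex_un 6 0.878 (by norm_num) (by norm_num) (by norm_num) (by norm_num)) (v5_hump 0.775 11.764 3.4299 0.0001098 0.000164 hβ hr hκ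 hk1 hk2 (by norm_num) (tb := 3.4764) (by linarith) (by norm_num) (by norm_num) (by norm_num) (by norm_num) (by norm_num) (by norm_num) (by norm_num) (ex_un 9 0.1171 (by norm_num) (by norm_num) (by norm_num) (by norm_num)) (by norm_num)) (by norm_num))) hY (by norm_num) (by norm_num) (by norm_num) (by norm_num) (by norm_num) (by norm_num) (by norm_num) (by norm_num) (by norm_num) (ex_un 5 0.7031 (by norm_num) (by norm_num) (by norm_num) (by norm_num)) (by norm_num) (by norm_num)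
  · exact b3_cmp 1 0 0.003356 0.57031 0 0.002725 0.00273 hr ((b3_Xm hh).trans_le (b3_U1 0.8 0.85 3.17939 3.5614 0.75859 0.11632 0.85554 0.6878 0.00016 0.8123 0.000444 0.5391 hβ hr hκ (by norm_num) hk1 hk2 (by linarith) (by linarith) (by norm_num) (by norm_num) (by norm_num) (by norm_num) (by norm_num) (by norm_num) (by norm_num) (by norm_num) (by norm_num) (by norm_num) (by norm_num) (by norm_num) (by norm_num) (ex_un 6 0.878 (by norm_num) (by norm_num) (by norm_num) (by norm_num)) (v5_hump 0.69 11.764 3.4299 0.0002984 0.000444 hβ hr hκ hk1 hk2 (by norm_num) (tb := 3.5614) (by linarith) (by norm_num) (by norm_num) (by norm_num) (by norm_num) (by norm_num) (by norm_num) (by norm_num) (ex_un 8 0.1171 (by norm_num) (by norm_num) (by norm_num) (by norm_num)) (by norm_num)) (by norm_num))) hY (by norm_num) (by norm_num) (by norm_num) (by norm_num) (by norm_num) (by norm_num) (by norm_num) (by norm_num) (by norm_num) (ex_un 5 0.7031 (by norm_num) (by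 norm_num) (by norm_num) (by norm_num)) (by norm_num) (by norm_num)

private theorem yA0 {κ t : ℝ} (h : DomR κ t) (hk1 : 0.8 ≤ κ) (hk2 : κ ≤ 0.85) (ht1 : 1.085 ≤ t + κ) (ht2 : t + κ ≤ 1.115) :
    0.359 ≤ sy κ t ∧ sy κ t ≤ 0.382 := by
  have hy1 : 0.359 ≤ sy κ t := syR_ge h 0.8 0.85 1.085 0.359 1.43189 1.4319 0.60476 0.64257 hk1 hk2 (by linarith) (by norm_num) (by norm_num)
    (expn_ge (by norm_num) (by norm_num)) (expn_le (by norm_num) (by norm_num) (by norm_num)) (by norm_num)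
    (by norm_num) (by norm_num) (by norm_num) (by norm_num) (by norm_num) (by norm_num)
  have hy2 : sy κ t ≤ 0.382 := syR_le h 0.8 0.85 1.115 0.382 1.46521 0.6481 0.65848 0.69965 hk1 hk2 (by linarith) (by norm_num) (by norm_num)
    (expn_ge (by norm_num) (by norm_num)) (by norm_num) (by norm_num) (Or.inr ((mul_le_mul_of_nonneg_left (expn_le (E := 1.46522) (by norm_num) (by norm_num) (by norm_num)) (by norm_num)).trans (by norm_num))) (by norm_num) (by norm_num) (by norm_num)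
  exact ⟨hy1, hy2⟩

private theorem yB0 {κ t : ℝ} (h : DomR κ t) (hk1 : 0.8 ≤ κ) (hk2 : κ ≤ 0.85) (ht1 : -1.0094 ≤ t + κ) (ht2 : t + κ ≤ -0.97939) :
    (-0.642) ≤ sy κ t ∧ sy κ t ≤ (-0.601) := by
  have hy1 : -0.642 ≤ sy κ t := syL_ge h 0.8 0.85 1.0094 0.642 0.52623 0.52625 0.4078 0.39745 0.42232 hk1 hk2 (by linarith) (by norm_num) (by norm_num) (by norm_num)
    (expm_ge (by norm_num) (by norm_num) (by norm_num) (by norm_num)) (expm_le (by norm_num) (by norm_num) (by norm_num)) (by norm_num)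
    (by norm_num) (by norm_num) (by norm_num) (by norm_num) (by norm_num) (by norm_num)
  have hy2 : sy κ t ≤ -0.601 := syL_le h 0.8 0.85 0.97939 0.601 0.54826 0.54827 0.38765 0.41189 hk1 hk2 (by linarith) (by norm_num) (by norm_num) (by norm_num)
    (expm_ge (by norm_num) (by norm_num) (by norm_num) (by norm_num)) (expm_le (by norm_num) (by norm_num) (by norm_num)) (by norm_num)
    (by norm_num) (by norm_num) (by norm_num) (by norm_num) (by norm_num) (by norm_num)
  exact ⟨hy1, hy2⟩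

theorem pc0 {β r h t κ : ℝ} (hh : h = 2 * Real.pi / (3 : ℕ)) (hβ : 0 < β) (hr : 10 ≤ r) (hκ : κ = β * r)
    (hk1 : 0.8 ≤ κ) (hk2 : κ ≤ 0.85) (hT1 : 1.085 ≤ t + κ) (hT2 : t + κ ≤ 1.115) :
    Xf β r h t 0 ≠ 0 ∧ r * 0.3325 ≤ (Ld β r h t 1 - Ld β r h t 0).im ∧
      ‖(((-1 : ℤ) : ℂ) - 1) * Ld β r h t 0 - ((-1 : ℤ) : ℂ) * Ld β r h t 1‖ ≤ r * 6.43 := by
  obtain ⟨q1, q2, q3⟩ := b3_h hh
  have hR0 := b3_R0 hβ hr hκ
  have hR := b3_R hβ hr hκ (by linarith)
  have hD1 : DomR κ t := b3_dom (by linarith) (by linarith) (Or.inl (by linarith))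
  have hD0 : DomR κ (t - h) := b3_dom (by linarith) (by linarith) (Or.inl (by linarith))
  have y1 := yA0 hD1 hk1 hk2 (by linarith) (by linarith)
  have y0 := yB0 hD0 hk1 hk2 (by linarith) (by linarith)
  have j1 := T3_17_d1_0 hD1 hβ hk1 hk2 (by linarith) (by linarith) hR0 hR
  exact b3_piece 0.8 0.85 0.359 0.382 0.37 0.69073 0.69838 0.6825 0.5937 2.03 2.1006 0.08 0.09 0.09 1.2363 0.5152 0 0 (-0.642) (-0.601) (-0.622) 1.86264 1.90028 1.6153 1.9251 0.06 0.315 0.18 6.4025 7.4538 0 0 0.3325 6.43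
    hβ hr hκ (by norm_num) hk1 hk2 hD1 hD0 j1 (j1 _ (by rw [sub_self, norm_zero]; norm_num))
    (T3_17_d0_0 hD0 hβ hk1 hk2 (by linarith) (by linarith) hR0 hR)
    (T3_17_p0 hD0 hβ hk1 hk2 (by linarith) (by linarith) hR0 hR)
    y1.1 y1.2 y0.1 y0.2 (by norm_num)
    (ex_um 0.359 (by norm_num) (by norm_num) (by norm_num) (by norm_num)) (ex_um 0.382 (by norm_num) (by norm_num) (by norm_num) (by norm_num)) (ex_lm 0.37 (by norm_num) (by norm_num) (by norm_num) (by norm_num) (by norm_num)) (by norm_num) (by norm_num) (by norm_num) (by norm_num) (by norm_num) (by norm_num) (by norm_num) (by norm_num)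
    (by norm_num) (by norm_num) (by norm_num) (by norm_num) (by norm_num) (by norm_num) (by norm_num) (by norm_num) (by norm_num) (by norm_num)
    (ex_up 0.642 (by norm_num) (by norm_num) (by norm_num) (by norm_num)) (ex_lp 0.622 (by norm_num) (by norm_num) (by norm_num)) (by norm_num) (by norm_num) (by norm_num) (by norm_num) (by norm_num) (by norm_num)
    (by norm_num) (by norm_num) (by norm_num) (by norm_num) (by norm_num) (by norm_num) (by norm_num) (by norm_num) (by norm_num) (by norm_num) (by norm_num)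
    (by norm_num) (by norm_num) (by norm_num) (by norm_num)

private theorem yA1 {κ t : ℝ} (h : DomR κ t) (hk1 : 0.8 ≤ κ) (hk2 : κ ≤ 0.85) (ht1 : 1.115 ≤ t + κ) (ht2 : t + κ ≤ 1.138) :
    0.365 ≤ sy κ t ∧ sy κ t ≤ 0.388 := by
  have hy1 : 0.365 ≤ sy κ t := syR_ge h 0.8 0.85 1.115 0.365 1.44051 1.44052 0.61857 0.65724 hk1 hk2 (by linarith) (by norm_num) (by norm_num)
    (expn_ge (by norm_num) (by norm_num)) (expn_le (by norm_num) (by norm_num) (by norm_num)) (by norm_num)
    (by norm_num) (by norm_num) (by norm_num) (by norm_num) (by norm_num) (by norm_num)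
  have hy2 : sy κ t ≤ 0.388 := syR_le h 0.8 0.85 1.138 0.388 1.47402 0.6623 0.67284 0.71491 hk1 hk2 (by linarith) (by norm_num) (by norm_num)
    (expn_ge (by norm_num) (by norm_num)) (by norm_num) (by norm_num) (Or.inr ((mul_le_mul_of_nonneg_left (expn_le (E := 1.47403) (by norm_num) (by norm_num) (by norm_num)) (by norm_num)).trans (by norm_num))) (by norm_num) (by norm_num) (by norm_num)
  exact ⟨hy1, hy2⟩

private theorem yB1 {κ t : ℝ} (h : DomR κ t) (hk1 : 0.8 ≤ κ) (hk2 : κ ≤ 0.85) (ht1 : -0.9794 ≤ t + κ) (ht2 : t + κ ≤ -0.95639) :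
    (-0.622) ≤ sy κ t ∧ sy κ t ≤ (-0.586) := by
  have hy1 : -0.622 ≤ sy κ t := syL_ge h 0.8 0.85 0.9794 0.622 0.53686 0.53688 0.3908 0.39285 0.41743 hk1 hk2 (by linarith) (by norm_num) (by norm_num) (by norm_num)
    (expm_ge (by norm_num) (by norm_num) (by norm_num) (by norm_num)) (expm_le (by norm_num) (by norm_num) (by norm_num)) (by norm_num)
    (by norm_num) (by norm_num) (by norm_num) (by norm_num) (by norm_num) (by norm_num)
  have hy2 : sy κ t ≤ -0.586 := syL_le h 0.8 0.85 0.95639 0.586 0.55654 0.55656 0.38368 0.40769 hk1 hk2 (by linarith) (by norm_num) (by norm_num) (by norm_num)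
    (expm_ge (by norm_num) (by norm_num) (by norm_num) (by norm_num)) (expm_le (by norm_num) (by norm_num) (by norm_num)) (by norm_num)
    (by norm_num) (by norm_num) (by norm_num) (by norm_num) (by norm_num) (by norm_num)
  exact ⟨hy1, hy2⟩

theorem pc1 {β r h t κ : ℝ} (hh : h = 2 * Real.pi / (3 : ℕ)) (hβ : 0 < β) (hr : 10 ≤ r) (hκ : κ = β * r)
    (hk1 : 0.8 ≤ κ) (hk2 : κ ≤ 0.85) (hT1 : 1.115 ≤ t + κ) (hT2 : t + κ ≤ 1.138) :
    Xf β r h t 0 ≠ 0 ∧ r * 0.3325 ≤ (Ld β r h t 1 - Ld β r h t 0).im ∧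
      ‖(((-1 : ℤ) : ℂ) - 1) * Ld β r h t 0 - ((-1 : ℤ) : ℂ) * Ld β r h t 1‖ ≤ r * 6.43 := by
  obtain ⟨q1, q2, q3⟩ := b3_h hh
  have hR0 := b3_R0 hβ hr hκ
  have hR := b3_R hβ hr hκ (by linarith)
  have hD1 : DomR κ t := b3_dom (by linarith) (by linarith) (Or.inl (by linarith))
  have hD0 : DomR κ (t - h) := b3_dom (by linarith) (by linarith) (Or.inl (by linarith))
  have y1 := yA1 hD1 hk1 hk2 (by linarith) (by linarith)
  have y0 := yB1 hD0 hk1 hk2 (by linarith) (by linarith)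
  have j1 := T3_17_d1_1 hD1 hβ hk1 hk2 (by linarith) (by linarith) hR0 hR
  exact b3_piece 0.8 0.85 0.365 0.388 0.377 0.68591 0.6942 0.67842 0.5901 2.0383 2.1086 0.06 0.09 0.09 1.6484 0.6814 0 0 (-0.622) (-0.586) (-0.604) 1.82941 1.86265 1.5833 1.8928 0.07 0.33 0.18 5.7492 6.6164 0 0 0.3325 6.43
    hβ hr hκ (by norm_num) hk1 hk2 hD1 hD0 j1 (j1 _ (by rw [sub_self, norm_zero]; norm_num))
    (T3_17_d0_1 hD0 hβ hk1 hk2 (by linarith) (by linarith) hR0 hR)
    (T3_17_p0 hD0 hβ hk1 hk2 (by linarith) (by linarith) hR0 hR)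
    y1.1 y1.2 y0.1 y0.2 (by norm_num)
    (ex_um 0.365 (by norm_num) (by norm_num) (by norm_num) (by norm_num)) (ex_um 0.388 (by norm_num) (by norm_num) (by norm_num) (by norm_num)) (ex_lm 0.377 (by norm_num) (by norm_num) (by norm_num) (by norm_num) (by norm_num)) (by norm_num) (by norm_num) (by norm_num) (by norm_num) (by norm_num) (by norm_num) (by norm_num) (by norm_num)
    (by norm_num) (by norm_num) (by norm_num) (by norm_num) (by norm_num) (by norm_num) (by norm_num) (by norm_num) (by norm_num) (by norm_num)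
    (ex_up 0.622 (by norm_num) (by norm_num) (by norm_num) (by norm_num)) (ex_lp 0.604 (by norm_num) (by norm_num) (by norm_num)) (by norm_num) (by norm_num) (by norm_num) (by norm_num) (by norm_num) (by norm_num)
    (by norm_num) (by norm_num) (by norm_num) (by norm_num) (by norm_num) (by norm_num) (by norm_num) (by norm_num) (by norm_num) (by norm_num) (by norm_num)
    (by norm_num) (by norm_num) (by norm_num) (by norm_num)

private theorem yA2 {κ t : ℝ} (h : DomR κ t) (hk1 : 0.8 ≤ κ) (hk2 : κ ≤ 0.85) (ht1 : 1.138 ≤ t + κ) (ht2 : t + κ ≤ 1.162) :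
    0.37 ≤ sy κ t ∧ sy κ t ≤ 0.393 := by
  have hy1 : 0.37 ≤ sy κ t := syR_ge h 0.8 0.85 1.138 0.37 1.44773 1.44774 0.63018 0.66958 hk1 hk2 (by linarith) (by norm_num) (by norm_num)
    (expn_ge (by norm_num) (by norm_num)) (expn_le (by norm_num) (by norm_num) (by norm_num)) (by norm_num)
    (by norm_num) (by norm_num) (by norm_num) (by norm_num) (by norm_num) (by norm_num)
  have hy2 : sy κ t ≤ 0.393 := syR_le h 0.8 0.85 1.162 0.393 1.48141 0.6742 0.68493 0.72775 hk1 hk2 (by linarith) (by norm_num) (by norm_num)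
    (expn_ge (by norm_num) (by norm_num)) (by norm_num) (by norm_num) (Or.inr ((mul_le_mul_of_nonneg_left (expn_le (E := 1.48142) (by norm_num) (by norm_num) (by norm_num)) (by norm_num)).trans (by norm_num))) (by norm_num) (by norm_num) (by norm_num)
  exact ⟨hy1, hy2⟩

private theorem yB2 {κ t : ℝ} (h : DomR κ t) (hk1 : 0.8 ≤ κ) (hk2 : κ ≤ 0.85) (ht1 : -0.9564 ≤ t + κ) (ht2 : t + κ ≤ -0.93239) :
    (-0.606) ≤ sy κ t ∧ sy κ t ≤ (-0.57) := by
  have hy1 : -0.606 ≤ sy κ t := syL_ge h 0.8 0.85 0.9564 0.606 0.54552 0.54554 0.3868 0.38892 0.41325 hk1 hk2 (by linarith) (by norm_num) (by norm_num) (by norm_num)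
    (expm_ge (by norm_num) (by norm_num) (by norm_num) (by norm_num)) (expm_le (by norm_num) (by norm_num) (by norm_num)) (by norm_num)
    (by norm_num) (by norm_num) (by norm_num) (by norm_num) (by norm_num) (by norm_num)
  have hy2 : sy κ t ≤ -0.57 := syL_le h 0.8 0.85 0.93239 0.57 0.56552 0.56553 0.37923 0.40295 hk1 hk2 (by linarith) (by norm_num) (by norm_num) (by norm_num)
    (expm_ge (by norm_num) (by norm_num) (by norm_num) (by norm_num)) (expm_le (by norm_num) (by norm_num) (by norm_num)) (by norm_num)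
    (by norm_num) (by norm_num) (by norm_num) (by norm_num) (by norm_num) (by norm_num)
  exact ⟨hy1, hy2⟩

theorem pc2 {β r h t κ : ℝ} (hh : h = 2 * Real.pi / (3 : ℕ)) (hβ : 0 < β) (hr : 10 ≤ r) (hκ : κ = β * r)
    (hk1 : 0.8 ≤ κ) (hk2 : κ ≤ 0.85) (hT1 : 1.138 ≤ t + κ) (hT2 : t + κ ≤ 1.162) :
    Xf β r h t 0 ≠ 0 ∧ r * 0.3325 ≤ (Ld β r h t 1 - Ld β r h t 0).im ∧
      ‖(((-1 : ℤ) : ℂ) - 1) * Ld β r h t 0 - ((-1 : ℤ) : ℂ) * Ld β r h t 1‖ ≤ r * 6.43 := by
  obtain ⟨q1, q2, q3⟩ := b3_h hh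
  have hR0 := b3_R0 hβ hr hκ
  have hR := b3_R hβ hr hκ (by linarith)
  have hD1 : DomR κ t := b3_dom (by linarith) (by linarith) (Or.inl (by linarith))
  have hD0 : DomR κ (t - h) := b3_dom (by linarith) (by linarith) (Or.inl (by linarith))
  have y1 := yA2 hD1 hk1 hk2 (by linarith) (by linarith)
  have y0 := yB2 hD0 hk1 hk2 (by linarith) (by linarith)
  have j1 := T3_17_d1_1 hD1 hβ hk1 hk2 (by linarith) (by linarith) hR0 hR
  exact b3_piece 0.8 0.85 0.37 0.393 0.382 0.68249 0.69074 0.67503 0.5872 2.0452 2.1153 0.06 0.09 0.09 1.6484 0.6769 0 0 (-0.606) (-0.57) (-0.588) 1.80037 1.83309 1.5582 1.8597 0.07 0.33 0.18 5.7492 6.5692 0 0 0.3325 6.43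
    hβ hr hκ (by norm_num) hk1 hk2 hD1 hD0 j1 (j1 _ (by rw [sub_self, norm_zero]; norm_num))
    (T3_17_d0_1 hD0 hβ hk1 hk2 (by linarith) (by linarith) hR0 hR)
    (T3_17_p0 hD0 hβ hk1 hk2 (by linarith) (by linarith) hR0 hR)
    y1.1 y1.2 y0.1 y0.2 (by norm_num)
    (ex_um 0.37 (by norm_num) (by norm_num) (by norm_num) (by norm_num)) (ex_um 0.393 (by norm_num) (by norm_num) (by norm_num) (by norm_num)) (ex_lm 0.382 (by norm_num) (by norm_num) (by norm_num) (by norm_num) (by norm_num)) (by norm_num) (by norm_num) (by norm_num) (by norm_num) (by norm_num) (by norm_num) (by norm_num) (by norm_num)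
    (by norm_num) (by norm_num) (by norm_num) (by norm_num) (by norm_num) (by norm_num) (by norm_num) (by norm_num) (by norm_num) (by norm_num)
    (ex_up 0.606 (by norm_num) (by norm_num) (by norm_num) (by norm_num)) (ex_lp 0.588 (by norm_num) (by norm_num) (by norm_num)) (by norm_num) (by norm_num) (by norm_num) (by norm_num) (by norm_num) (by norm_num)
    (by norm_num) (by norm_num) (by norm_num) (by norm_num) (by norm_num) (by norm_num) (by norm_num) (by norm_num) (by norm_num) (by norm_num) (by norm_num)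
    (by norm_num) (by norm_num) (by norm_num) (by norm_num)

private theorem yA3 {κ t : ℝ} (h : DomR κ t) (hk1 : 0.8 ≤ κ) (hk2 : κ ≤ 0.85) (ht1 : 1.162 ≤ t + κ) (ht2 : t + κ ≤ 1.185) :
    0.375 ≤ sy κ t ∧ sy κ t ≤ 0.398 := by
  have hy1 : 0.375 ≤ sy κ t := syR_ge h 0.8 0.85 1.162 0.375 1.45499 1.455 0.6419 0.68204 hk1 hk2 (by linarith) (by norm_num) (by norm_num)
    (expn_ge (by norm_num) (by norm_num)) (expn_le (by norm_num) (by norm_num) (by norm_num)) (by norm_num)
    (by norm_num) (by norm_num) (by norm_num) (by norm_num) (by norm_num) (by norm_num)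
  have hy2 : sy κ t ≤ 0.398 := syR_le h 0.8 0.85 1.185 0.398 1.48884 0.6862 0.69712 0.74071 hk1 hk2 (by linarith) (by norm_num) (by norm_num)
    (expn_ge (by norm_num) (by norm_num)) (by norm_num) (by norm_num) (Or.inr ((mul_le_mul_of_nonneg_left (expn_le (E := 1.48885) (by norm_num) (by norm_num) (by norm_num)) (by norm_num)).trans (by norm_num))) (by norm_num) (by norm_num) (by norm_num)
  exact ⟨hy1, hy2⟩

private theorem yB3 {κ t : ℝ} (h : DomR κ t) (hk1 : 0.8 ≤ κ) (hk2 : κ ≤ 0.85) (ht1 : -0.9324 ≤ t + κ) (ht2 : t + κ ≤ -0.90939) :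
    (-0.589) ≤ sy κ t ∧ sy κ t ≤ (-0.555) := by
  have hy1 : -0.589 ≤ sy κ t := syL_ge h 0.8 0.85 0.9324 0.589 0.55488 0.55489 0.3884 0.38449 0.40854 hk1 hk2 (by linarith) (by norm_num) (by norm_num) (by norm_num)
    (expm_ge (by norm_num) (by norm_num) (by norm_num) (by norm_num)) (expm_le (by norm_num) (by norm_num) (by norm_num)) (by norm_num)
    (by norm_num) (by norm_num) (by norm_num) (by norm_num) (by norm_num) (by norm_num)
  have hy2 : sy κ t ≤ -0.555 := syL_le h 0.8 0.85 0.90939 0.555 0.57407 0.57408 0.37483 0.39827 hk1 hk2 (by linarith) (by norm_num) (by norm_num) (by norm_num)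
    (expm_ge (by norm_num) (by norm_num) (by norm_num) (by norm_num)) (expm_le (by norm_num) (by norm_num) (by norm_num)) (by norm_num)
    (by norm_num) (by norm_num) (by norm_num) (by norm_num) (by norm_num) (by norm_num)
  exact ⟨hy1, hy2⟩

theorem pc3 {β r h t κ : ℝ} (hh : h = 2 * Real.pi / (3 : ℕ)) (hβ : 0 < β) (hr : 10 ≤ r) (hκ : κ = β * r)
    (hk1 : 0.8 ≤ κ) (hk2 : κ ≤ 0.85) (hT1 : 1.162 ≤ t + κ) (hT2 : t + κ ≤ 1.185) :
    Xf β r h t 0 ≠ 0 ∧ r * 0.3325 ≤ (Ld β r h t 1 - Ld β r h t 0).im ∧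
      ‖(((-1 : ℤ) : ℂ) - 1) * Ld β r h t 0 - ((-1 : ℤ) : ℂ) * Ld β r h t 1‖ ≤ r * 6.43 := by
  obtain ⟨q1, q2, q3⟩ := b3_h hh
  have hR0 := b3_R0 hβ hr hκ
  have hR := b3_R hβ hr hκ (by linarith)
  have hD1 : DomR κ t := b3_dom (by linarith) (by linarith) (Or.inl (by linarith))
  have hD0 : DomR κ (t - h) := b3_dom (by linarith) (by linarith) (Or.inl (by linarith))
  have y1 := yA3 hD1 hk1 hk2 (by linarith) (by linarith)
  have y0 := yB3 hD0 hk1 hk2 (by linarith) (by linarith)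
  have j1 := T3_17_d1_1 hD1 hβ hk1 hk2 (by linarith) (by linarith) hR0 hR
  exact b3_piece 0.8 0.85 0.375 0.398 0.387 0.67909 0.68729 0.67167 0.5842 2.0522 2.122 0.06 0.09 0.09 1.6484 0.6723 0 0 (-0.589) (-0.555) (-0.572) 1.7718 1.80219 1.5319 1.8308 0.07 0.33 0.18 5.7492 6.5091 0 0 0.3325 6.43
    hβ hr hκ (by norm_num) hk1 hk2 hD1 hD0 j1 (j1 _ (by rw [sub_self, norm_zero]; norm_num))
    (T3_17_d0_1 hD0 hβ hk1 hk2 (by linarith) (by linarith) hR0 hR)
    (T3_17_p0 hD0 hβ hk1 hk2 (by linarith) (by linarith) hR0 hR)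
    y1.1 y1.2 y0.1 y0.2 (by norm_num)
    (ex_um 0.375 (by norm_num) (by norm_num) (by norm_num) (by norm_num)) (ex_um 0.398 (by norm_num) (by norm_num) (by norm_num) (by norm_num)) (ex_lm 0.387 (by norm_num) (by norm_num) (by norm_num) (by norm_num) (by norm_num)) (by norm_num) (by norm_num) (by norm_num) (by norm_num) (by norm_num) (by norm_num) (by norm_num) (by norm_num)
    (by norm_num) (by norm_num) (by norm_num) (by norm_num) (by norm_num) (by norm_num) (by norm_num) (by norm_num) (by norm_num) (by norm_num)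
    (ex_up 0.589 (by norm_num) (by norm_num) (by norm_num) (by norm_num)) (ex_lp 0.572 (by norm_num) (by norm_num) (by norm_num)) (by norm_num) (by norm_num) (by norm_num) (by norm_num) (by norm_num) (by norm_num)
    (by norm_num) (by norm_num) (by norm_num) (by norm_num) (by norm_num) (by norm_num) (by norm_num) (by norm_num) (by norm_num) (by norm_num) (by norm_num)
    (by norm_num) (by norm_num) (by norm_num) (by norm_num)

private theorem yA4 {κ t : ℝ} (h : DomR κ t) (hk1 : 0.8 ≤ κ) (hk2 : κ ≤ 0.85) (ht1 : 1.185 ≤ t + κ) (ht2 : t + κ ≤ 1.213) :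
    0.379 ≤ sy κ t ∧ sy κ t ≤ 0.404 := by
  have hy1 : 0.379 ≤ sy κ t := syR_ge h 0.8 0.85 1.185 0.379 1.46082 1.46083 0.65135 0.69207 hk1 hk2 (by linarith) (by norm_num) (by norm_num)
    (expn_ge (by norm_num) (by norm_num)) (expn_le (by norm_num) (by norm_num) (by norm_num)) (by norm_num)
    (by norm_num) (by norm_num) (by norm_num) (by norm_num) (by norm_num) (by norm_num)
  have hy2 : sy κ t ≤ 0.404 := syR_le h 0.8 0.85 1.213 0.404 1.4978 0.7007 0.71189 0.7564 hk1 hk2 (by linarith) (by norm_num) (by norm_num)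
    (expn_ge (by norm_num) (by norm_num)) (by norm_num) (by norm_num) (Or.inr ((mul_le_mul_of_nonneg_left (expn_le (E := 1.49781) (by norm_num) (by norm_num) (by norm_num)) (by norm_num)).trans (by norm_num))) (by norm_num) (by norm_num) (by norm_num)
  exact ⟨hy1, hy2⟩

private theorem yB4 {κ t : ℝ} (h : DomR κ t) (hk1 : 0.8 ≤ κ) (hk2 : κ ≤ 0.85) (ht1 : -0.9094 ≤ t + κ) (ht2 : t + κ ≤ -0.88139) :
    (-0.573) ≤ sy κ t ∧ sy κ t ≤ (-0.537) := by
  have hy1 : -0.573 ≤ sy κ t := syL_ge h 0.8 0.85 0.9094 0.573 0.56383 0.56384 0.382 0.38008 0.40386 hk1 hk2 (by linarith) (by norm_num) (by norm_num) (by norm_num)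
    (expm_ge (by norm_num) (by norm_num) (by norm_num) (by norm_num)) (expm_le (by norm_num) (by norm_num) (by norm_num)) (by norm_num)
    (by norm_num) (by norm_num) (by norm_num) (by norm_num) (by norm_num) (by norm_num)
  have hy2 : sy κ t ≤ -0.537 := syL_le h 0.8 0.85 0.88139 0.537 0.58449 0.58451 0.36926 0.39236 hk1 hk2 (by linarith) (by norm_num) (by norm_num) (by norm_num)
    (expm_ge (by norm_num) (by norm_num) (by norm_num) (by norm_num)) (expm_le (by norm_num) (by norm_num) (by norm_num)) (by norm_num)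
    (by norm_num) (by norm_num) (by norm_num) (by norm_num) (by norm_num) (by norm_num)
  exact ⟨hy1, hy2⟩

theorem pc4 {β r h t κ : ℝ} (hh : h = 2 * Real.pi / (3 : ℕ)) (hβ : 0 < β) (hr : 10 ≤ r) (hκ : κ = β * r)
    (hk1 : 0.8 ≤ κ) (hk2 : κ ≤ 0.85) (hT1 : 1.185 ≤ t + κ) (hT2 : t + κ ≤ 1.213) :
    Xf β r h t 0 ≠ 0 ∧ r * 0.3325 ≤ (Ld β r h t 1 - Ld β r h t 0).im ∧
      ‖(((-1 : ℤ) : ℂ) - 1) * Ld β r h t 0 - ((-1 : ℤ) : ℂ) * Ld β r h t 1‖ ≤ r * 6.43 := by
  obtain ⟨q1, q2, q3⟩ := b3_h hh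
  have hR0 := b3_R0 hβ hr hκ
  have hR := b3_R hβ hr hκ (by linarith)
  have hD1 : DomR κ t := b3_dom (by linarith) (by linarith) (Or.inl (by linarith))
  have hD0 : DomR κ (t - h) := b3_dom (by linarith) (by linarith) (Or.inl (by linarith))
  have y1 := yA4 hD1 hk1 hk2 (by linarith) (by linarith)
  have y0 := yB4 hD0 hk1 hk2 (by linarith) (by linarith)
  have j1 := T3_17_d1_2 hD1 hβ hk1 hk2 (by linarith) (by linarith) hR0 hR
  exact b3_piece 0.8 0.85 0.379 0.404 0.392 0.6757 0.68455 0.66765 0.5819 2.0578 2.1301 0.03 0.1 0.1 3.7038 1.5025 0 0 (-0.573) (-0.537) (-0.555) 1.74193 1.77358 1.5076 1.798 0.08 0.31 0.18 4.7257 5.3133 0 0 0.3325 6.43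
    hβ hr hκ (by norm_num) hk1 hk2 hD1 hD0 j1 (j1 _ (by rw [sub_self, norm_zero]; norm_num))
    (T3_17_d0_2 hD0 hβ hk1 hk2 (by linarith) (by linarith) hR0 hR)
    (T3_17_p0 hD0 hβ hk1 hk2 (by linarith) (by linarith) hR0 hR)
    y1.1 y1.2 y0.1 y0.2 (by norm_num)
    (ex_um 0.379 (by norm_num) (by norm_num) (by norm_num) (by norm_num)) (ex_um 0.404 (by norm_num) (by norm_num) (by norm_num) (by norm_num)) (ex_lm 0.392 (by norm_num) (by norm_num) (by norm_num) (by norm_num) (by norm_num)) (by norm_num) (by norm_num) (by norm_num) (by norm_num) (by norm_num) (by norm_num) (by norm_num) (by norm_num)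
    (by norm_num) (by norm_num) (by norm_num) (by norm_num) (by norm_num) (by norm_num) (by norm_num) (by norm_num) (by norm_num) (by norm_num)
    (ex_up 0.573 (by norm_num) (by norm_num) (by norm_num) (by norm_num)) (ex_lp 0.555 (by norm_num) (by norm_num) (by norm_num)) (by norm_num) (by norm_num) (by norm_num) (by norm_num) (by norm_num) (by norm_num)
    (by norm_num) (by norm_num) (by norm_num) (by norm_num) (by norm_num) (by norm_num) (by norm_num) (by norm_num) (by norm_num) (by norm_num) (by norm_num)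
    (by norm_num) (by norm_num) (by norm_num) (by norm_num)

private theorem yA5 {κ t : ℝ} (h : DomR κ t) (hk1 : 0.8 ≤ κ) (hk2 : κ ≤ 0.85) (ht1 : 1.213 ≤ t + κ) (ht2 : t + κ ≤ 1.241) :
    0.384 ≤ sy κ t ∧ sy κ t ≤ 0.409 := by
  have hy1 : 0.384 ≤ sy κ t := syR_ge h 0.8 0.85 1.213 0.384 1.46814 1.46815 0.66325 0.70472 hk1 hk2 (by linarith) (by norm_num) (by norm_num)
    (expn_ge (by norm_num) (by norm_num)) (expn_le (by norm_num) (by norm_num) (by norm_num)) (by norm_num)
    (by norm_num) (by norm_num) (by norm_num) (by norm_num) (by norm_num) (by norm_num)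
  have hy2 : sy κ t ≤ 0.409 := syR_ang2 h 0.8 0.85 1.241 0.809 0.6907 0.7237 0.409 0.66432 1.50531 hk1 hk2 (by linarith) (by norm_num) (by norm_num) (by norm_num)
    (cos_le_num (by norm_num)) (sin_le_num (by norm_num) (by norm_num)) (expm_le (by norm_num) (by norm_num) (by norm_num))
    (expn_ge (by norm_num) (by norm_num)) (by norm_num) (by norm_num) (by norm_num) (by norm_num) (by norm_num)
  exact ⟨hy1, hy2⟩

private theorem yB5 {κ t : ℝ} (h : DomR κ t) (hk1 : 0.8 ≤ κ) (hk2 : κ ≤ 0.85) (ht1 : -0.8814 ≤ t + κ) (ht2 : t + κ ≤ -0.85339) :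
    (-0.553) ≤ sy κ t ∧ sy κ t ≤ (-0.518) := by
  have hy1 : -0.553 ≤ sy κ t := syL_ge h 0.8 0.85 0.8814 0.553 0.57522 0.57523 0.382 0.37423 0.39763 hk1 hk2 (by linarith) (by norm_num) (by norm_num) (by norm_num)
    (expm_ge (by norm_num) (by norm_num) (by norm_num) (by norm_num)) (expm_le (by norm_num) (by norm_num) (by norm_num)) (by norm_num)
    (by norm_num) (by norm_num) (by norm_num) (by norm_num) (by norm_num) (by norm_num)
  have hy2 : sy κ t ≤ -0.518 := syL_le h 0.8 0.85 0.85339 0.518 0.59571 0.59572 0.36303 0.38573 hk1 hk2 (by linarith) (by norm_num) (by norm_num) (by norm_num)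
    (expm_ge (by norm_num) (by norm_num) (by norm_num) (by norm_num)) (expm_le (by norm_num) (by norm_num) (by norm_num)) (by norm_num)
    (by norm_num) (by norm_num) (by norm_num) (by norm_num) (by norm_num) (by norm_num)
  exact ⟨hy1, hy2⟩

theorem pc5 {β r h t κ : ℝ} (hh : h = 2 * Real.pi / (3 : ℕ)) (hβ : 0 < β) (hr : 10 ≤ r) (hκ : κ = β * r)
    (hk1 : 0.8 ≤ κ) (hk2 : κ ≤ 0.85) (hT1 : 1.213 ≤ t + κ) (hT2 : t + κ ≤ 1.241) :
    Xf β r h t 0 ≠ 0 ∧ r * 0.3325 ≤ (Ld β r h t 1 - Ld β r h t 0).im ∧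
      ‖(((-1 : ℤ) : ℂ) - 1) * Ld β r h t 0 - ((-1 : ℤ) : ℂ) * Ld β r h t 1‖ ≤ r * 6.43 := by
  obtain ⟨q1, q2, q3⟩ := b3_h hh
  have hR0 := b3_R0 hβ hr hκ
  have hR := b3_R hβ hr hκ (by linarith)
  have hD1 : DomR κ t := b3_dom (by linarith) (by linarith) (Or.inl (by linarith))
  have hD0 : DomR κ (t - h) := b3_dom (by linarith) (by linarith) (Or.inl (by linarith))
  have y1 := yA5 hD1 hk1 hk2 (by linarith) (by linarith)
  have y0 := yB5 hD0 hk1 hk2 (by linarith) (by linarith)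
  have j1 := T3_17_d1_2 hD1 hβ hk1 hk2 (by linarith) (by linarith) hR0 hR
  exact b3_piece 0.8 0.85 0.384 0.409 0.397 0.67233 0.68114 0.66432 0.579 2.0648 2.1369 0.03 0.1 0.1 3.7038 1.4925 0 0 (-0.553) (-0.518) (-0.535) 1.70744 1.73847 1.4777 1.7663 0.08 0.31 0.18 4.7257 5.2544 0 0 0.3325 6.43
    hβ hr hκ (by norm_num) hk1 hk2 hD1 hD0 j1 (j1 _ (by rw [sub_self, norm_zero]; norm_num))
    (T3_17_d0_2 hD0 hβ hk1 hk2 (by linarith) (by linarith) hR0 hR)
    (T3_17_p0 hD0 hβ hk1 hk2 (by linarith) (by linarith) hR0 hR)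
    y1.1 y1.2 y0.1 y0.2 (by norm_num)
    (ex_um 0.384 (by norm_num) (by norm_num) (by norm_num) (by norm_num)) (ex_um 0.409 (by norm_num) (by norm_num) (by norm_num) (by norm_num)) (ex_lm 0.397 (by norm_num) (by norm_num) (by norm_num) (by norm_num) (by norm_num)) (by norm_num) (by norm_num) (by norm_num) (by norm_num) (by norm_num) (by norm_num) (by norm_num) (by norm_num)
    (by norm_num) (by norm_num) (by norm_num) (by norm_num) (by norm_num) (by norm_num) (by norm_num) (by norm_num) (by norm_num) (by norm_num)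
    (ex_up 0.553 (by norm_num) (by norm_num) (by norm_num) (by norm_num)) (ex_lp 0.535 (by norm_num) (by norm_num) (by norm_num)) (by norm_num) (by norm_num) (by norm_num) (by norm_num) (by norm_num) (by norm_num)
    (by norm_num) (by norm_num) (by norm_num) (by norm_num) (by norm_num) (by norm_num) (by norm_num) (by norm_num) (by norm_num) (by norm_num) (by norm_num)
    (by norm_num) (by norm_num) (by norm_num) (by norm_num)

private theorem yA6 {κ t : ℝ} (h : DomR κ t) (hk1 : 0.8 ≤ κ) (hk2 : κ ≤ 0.85) (ht1 : 1.241 ≤ t + κ) (ht2 : t + κ ≤ 1.269) :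
    0.389 ≤ sy κ t ∧ sy κ t ≤ 0.414 := by
  have hy1 : 0.389 ≤ sy κ t := syR_ge h 0.8 0.85 1.241 0.389 1.4755 1.47551 0.67525 0.71747 hk1 hk2 (by linarith) (by norm_num) (by norm_num)
    (expn_ge (by norm_num) (by norm_num)) (expn_le (by norm_num) (by norm_num) (by norm_num)) (by norm_num)
    (by norm_num) (by norm_num) (by norm_num) (by norm_num) (by norm_num) (by norm_num)
  have hy2 : sy κ t ≤ 0.414 := syR_ang2 h 0.8 0.85 1.269 0.828 0.6768 0.7367 0.414 0.66101 1.51285 hk1 hk2 (by linarith) (by norm_num) (by norm_num) (by norm_num)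
    (cos_le_num (by norm_num)) (sin_le_num (by norm_num) (by norm_num)) (expm_le (by norm_num) (by norm_num) (by norm_num))
    (expn_ge (by norm_num) (by norm_num)) (by norm_num) (by norm_num) (by norm_num) (by norm_num) (by norm_num)
  exact ⟨hy1, hy2⟩

private theorem yB6 {κ t : ℝ} (h : DomR κ t) (hk1 : 0.8 ≤ κ) (hk2 : κ ≤ 0.85) (ht1 : -0.8534 ≤ t + κ) (ht2 : t + κ ≤ -0.82539) :
    (-0.533) ≤ sy κ t ∧ sy κ t ≤ (-0.5) := by
  have hy1 : -0.533 ≤ sy κ t := syL_ge h 0.8 0.85 0.8534 0.533 0.58684 0.58685 0.3814 0.36798 0.39099 hk1 hk2 (by linarith) (by norm_num) (by norm_num) (by norm_num)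
    (expm_ge (by norm_num) (by norm_num) (by norm_num) (by norm_num)) (expm_le (by norm_num) (by norm_num) (by norm_num)) (by norm_num)
    (by norm_num) (by norm_num) (by norm_num) (by norm_num) (by norm_num) (by norm_num)
  have hy2 : sy κ t ≤ -0.5 := syL_le h 0.8 0.85 0.82539 0.5 0.60653 0.60654 0.35678 0.37909 hk1 hk2 (by linarith) (by norm_num) (by norm_num) (by norm_num)
    (expm_ge (by norm_num) (by norm_num) (by norm_num) (by norm_num)) (expm_le (by norm_num) (by norm_num) (by norm_num)) (by norm_num)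
    (by norm_num) (by norm_num) (by norm_num) (by norm_num) (by norm_num) (by norm_num)
  exact ⟨hy1, hy2⟩

theorem pc6 {β r h t κ : ℝ} (hh : h = 2 * Real.pi / (3 : ℕ)) (hβ : 0 < β) (hr : 10 ≤ r) (hκ : κ = β * r)
    (hk1 : 0.8 ≤ κ) (hk2 : κ ≤ 0.85) (hT1 : 1.241 ≤ t + κ) (hT2 : t + κ ≤ 1.269) :
    Xf β r h t 0 ≠ 0 ∧ r * 0.3325 ≤ (Ld β r h t 1 - Ld β r h t 0).im ∧
      ‖(((-1 : ℤ) : ℂ) - 1) * Ld β r h t 0 - ((-1 : ℤ) : ℂ) * Ld β r h t 1‖ ≤ r * 6.43 := by
  obtain ⟨q1, q2, q3⟩ := b3_h hh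
  have hR0 := b3_R0 hβ hr hκ
  have hR := b3_R hβ hr hκ (by linarith)
  have hD1 : DomR κ t := b3_dom (by linarith) (by linarith) (Or.inl (by linarith))
  have hD0 : DomR κ (t - h) := b3_dom (by linarith) (by linarith) (Or.inl (by linarith))
  have y1 := yA6 hD1 hk1 hk2 (by linarith) (by linarith)
  have y0 := yB6 hD0 hk1 hk2 (by linarith) (by linarith)
  have j1 := T3_17_d1_2 hD1 hβ hk1 hk2 (by linarith) (by linarith) hR0 hR
  exact b3_piece 0.8 0.85 0.389 0.414 0.402 0.66898 0.67774 0.66101 0.5761 2.0718 2.1437 0.03 0.1 0.1 3.7038 1.4825 0 0 (-0.533) (-0.5) (-0.516) 1.67531 1.70404 1.4485 1.7387 0.08 0.31 0.18 4.7257 5.1913 0 0 0.3325 6.43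
    hβ hr hκ (by norm_num) hk1 hk2 hD1 hD0 j1 (j1 _ (by rw [sub_self, norm_zero]; norm_num))
    (T3_17_d0_2 hD0 hβ hk1 hk2 (by linarith) (by linarith) hR0 hR)
    (T3_17_p0 hD0 hβ hk1 hk2 (by linarith) (by linarith) hR0 hR)
    y1.1 y1.2 y0.1 y0.2 (by norm_num)
    (ex_um 0.389 (by norm_num) (by norm_num) (by norm_num) (by norm_num)) (ex_um 0.414 (by norm_num) (by norm_num) (by norm_num) (by norm_num)) (ex_lm 0.402 (by norm_num) (by norm_num) (by norm_num) (by norm_num) (by norm_num)) (by norm_num) (by norm_num) (by norm_num) (by norm_num) (by norm_num) (by norm_num) (by norm_num) (by norm_num)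
    (by norm_num) (by norm_num) (by norm_num) (by norm_num) (by norm_num) (by norm_num) (by norm_num) (by norm_num) (by norm_num) (by norm_num)
    (ex_up 0.533 (by norm_num) (by norm_num) (by norm_num) (by norm_num)) (ex_lp 0.516 (by norm_num) (by norm_num) (by norm_num)) (by norm_num) (by norm_num) (by norm_num) (by norm_num) (by norm_num) (by norm_num)
    (by norm_num) (by norm_num) (by norm_num) (by norm_num) (by norm_num) (by norm_num) (by norm_num) (by norm_num) (by norm_num) (by norm_num) (by norm_num)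
    (by norm_num) (by norm_num) (by norm_num) (by norm_num)

private theorem yA7 {κ t : ℝ} (h : DomR κ t) (hk1 : 0.8 ≤ κ) (hk2 : κ ≤ 0.85) (ht1 : 1.269 ≤ t + κ) (ht2 : t + κ ≤ 1.298) :
    0.394 ≤ sy κ t ∧ sy κ t ≤ 0.419 := by
  have hy1 : 0.394 ≤ sy κ t := syR_ge h 0.8 0.85 1.269 0.394 1.4829 1.48291 0.68736 0.73034 hk1 hk2 (by linarith) (by norm_num) (by norm_num)
    (expn_ge (by norm_num) (by norm_num)) (expn_le (by norm_num) (by norm_num) (by norm_num)) (by norm_num)
    (by norm_num) (by norm_num) (by norm_num) (by norm_num) (by norm_num) (by norm_num)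
  have hy2 : sy κ t ≤ 0.419 := syR_ang2 h 0.8 0.85 1.298 0.847 0.6628 0.7494 0.419 0.65771 1.52043 hk1 hk2 (by linarith) (by norm_num) (by norm_num) (by norm_num)
    (cos_le_num (by norm_num)) (sin_le_num (by norm_num) (by norm_num)) (expm_le (by norm_num) (by norm_num) (by norm_num))
    (expn_ge (by norm_num) (by norm_num)) (by norm_num) (by norm_num) (by norm_num) (by norm_num) (by norm_num)
  exact ⟨hy1, hy2⟩

private theorem yB7 {κ t : ℝ} (h : DomR κ t) (hk1 : 0.8 ≤ κ) (hk2 : κ ≤ 0.85) (ht1 : -0.8254 ≤ t + κ) (ht2 : t + κ ≤ -0.79639) :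
    (-0.514) ≤ sy κ t ∧ sy κ t ≤ (-0.481) := by
  have hy1 : -0.514 ≤ sy κ t := syL_ge h 0.8 0.85 0.8254 0.514 0.59809 0.5981 0.3597 0.36166 0.38428 hk1 hk2 (by linarith) (by norm_num) (by norm_num) (by norm_num)
    (expm_ge (by norm_num) (by norm_num) (by norm_num) (by norm_num)) (expm_le (by norm_num) (by norm_num) (by norm_num)) (by norm_num)
    (by norm_num) (by norm_num) (by norm_num) (by norm_num) (by norm_num) (by norm_num)
  have hy2 : sy κ t ≤ -0.481 := syL_le h 0.8 0.85 0.79639 0.481 0.61816 0.61817 0.3498 0.37168 hk1 hk2 (by linarith) (by norm_num) (by norm_num) (by norm_num)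
    (expm_ge (by norm_num) (by norm_num) (by norm_num) (by norm_num)) (expm_le (by norm_num) (by norm_num) (by norm_num)) (by norm_num)
    (by norm_num) (by norm_num) (by norm_num) (by norm_num) (by norm_num) (by norm_num)
  exact ⟨hy1, hy2⟩

theorem pc7 {β r h t κ : ℝ} (hh : h = 2 * Real.pi / (3 : ℕ)) (hβ : 0 < β) (hr : 10 ≤ r) (hκ : κ = β * r)
    (hk1 : 0.8 ≤ κ) (hk2 : κ ≤ 0.85) (hT1 : 1.269 ≤ t + κ) (hT2 : t + κ ≤ 1.298) :
    Xf β r h t 0 ≠ 0 ∧ r * 0.3325 ≤ (Ld β r h t 1 - Ld β r h t 0).im ∧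
      ‖(((-1 : ℤ) : ℂ) - 1) * Ld β r h t 0 - ((-1 : ℤ) : ℂ) * Ld β r h t 1‖ ≤ r * 6.43 := by
  obtain ⟨q1, q2, q3⟩ := b3_h hh
  have hR0 := b3_R0 hβ hr hκ
  have hR := b3_R hβ hr hκ (by linarith)
  have hD1 : DomR κ t := b3_dom (by linarith) (by linarith) (Or.inl (by linarith))
  have hD0 : DomR κ (t - h) := b3_dom (by linarith) (by linarith) (Or.inl (by linarith))
  have y1 := yA7 hD1 hk1 hk2 (by linarith) (by linarith)
  have y0 := yB7 hD0 hk1 hk2 (by linarith) (by linarith)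
  have j1 := T3_17_d1_2 hD1 hβ hk1 hk2 (by linarith) (by linarith) hR0 hR
  exact b3_piece 0.8 0.85 0.394 0.419 0.406 0.66631 0.67436 0.65771 0.5733 2.0789 2.1506 0.03 0.1 0.1 3.7038 1.4727 0 0 (-0.514) (-0.481) (-0.497) 1.64378 1.67197 1.4212 1.7119 0.08 0.31 0.18 4.7257 5.1332 0 0 0.3325 6.43
    hβ hr hκ (by norm_num) hk1 hk2 hD1 hD0 j1 (j1 _ (by rw [sub_self, norm_zero]; norm_num))
    (T3_17_d0_2 hD0 hβ hk1 hk2 (by linarith) (by linarith) hR0 hR)
    (T3_17_p0 hD0 hβ hk1 hk2 (by linarith) (by linarith) hR0 hR)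
    y1.1 y1.2 y0.1 y0.2 (by norm_num)
    (ex_um 0.394 (by norm_num) (by norm_num) (by norm_num) (by norm_num)) (ex_um 0.419 (by norm_num) (by norm_num) (by norm_num) (by norm_num)) (ex_lm 0.406 (by norm_num) (by norm_num) (by norm_num) (by norm_num) (by norm_num)) (by norm_num) (by norm_num) (by norm_num) (by norm_num) (by norm_num) (by norm_num) (by norm_num) (by norm_num)
    (by norm_num) (by norm_num) (by norm_num) (by norm_num) (by norm_num) (by norm_num) (by norm_num) (by norm_num) (by norm_num) (by norm_num)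
    (ex_up 0.514 (by norm_num) (by norm_num) (by norm_num) (by norm_num)) (ex_lp 0.497 (by norm_num) (by norm_num) (by norm_num)) (by norm_num) (by norm_num) (by norm_num) (by norm_num) (by norm_num) (by norm_num)
    (by norm_num) (by norm_num) (by norm_num) (by norm_num) (by norm_num) (by norm_num) (by norm_num) (by norm_num) (by norm_num) (by norm_num) (by norm_num)
    (by norm_num) (by norm_num) (by norm_num) (by norm_num)

private theorem yA8 {κ t : ℝ} (h : DomR κ t) (hk1 : 0.8 ≤ κ) (hk2 : κ ≤ 0.85) (ht1 : 1.298 ≤ t + κ) (ht2 : t + κ ≤ 1.326) :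
    0.399 ≤ sy κ t ∧ sy κ t ≤ 0.424 := by
  have hy1 : 0.399 ≤ sy κ t := syR_ge h 0.8 0.85 1.298 0.399 1.49033 1.49034 0.69957 0.74331 hk1 hk2 (by linarith) (by norm_num) (by norm_num)
    (expn_ge (by norm_num) (by norm_num)) (expn_le (by norm_num) (by norm_num) (by norm_num)) (by norm_num)
    (by norm_num) (by norm_num) (by norm_num) (by norm_num) (by norm_num) (by norm_num)
  have hy2 : sy κ t ≤ 0.424 := syR_ang2 h 0.8 0.85 1.326 0.866 0.6485 0.7619 0.424 0.65443 1.52806 hk1 hk2 (by linarith) (by norm_num) (by norm_num) (by norm_num)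
    (cos_le_num (by norm_num)) (sin_le_num (by norm_num) (by norm_num)) (expm_le (by norm_num) (by norm_num) (by norm_num))
    (expn_ge (by norm_num) (by norm_num)) (by norm_num) (by norm_num) (by norm_num) (by norm_num) (by norm_num)
  exact ⟨hy1, hy2⟩

private theorem yB8 {κ t : ℝ} (h : DomR κ t) (hk1 : 0.8 ≤ κ) (hk2 : κ ≤ 0.85) (ht1 : -0.7964 ≤ t + κ) (ht2 : t + κ ≤ -0.76839) :
    (-0.493) ≤ sy κ t ∧ sy κ t ≤ (-0.462) := by
  have hy1 : -0.493 ≤ sy κ t := syL_ge h 0.8 0.85 0.7964 0.493 0.61079 0.6108 0.3597 0.35425 0.37641 hk1 hk2 (by linarith) (by norm_num) (by norm_num) (by norm_num)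
    (expm_ge (by norm_num) (by norm_num) (by norm_num) (by norm_num)) (expm_le (by norm_num) (by norm_num) (by norm_num)) (by norm_num)
    (by norm_num) (by norm_num) (by norm_num) (by norm_num) (by norm_num) (by norm_num)
  have hy2 : sy κ t ≤ -0.462 := syL_le h 0.8 0.85 0.76839 0.462 0.63002 0.63003 0.34243 0.36385 hk1 hk2 (by linarith) (by norm_num) (by norm_num) (by norm_num)
    (expm_ge (by norm_num) (by norm_num) (by norm_num) (by norm_num)) (expm_le (by norm_num) (by norm_num) (by norm_num)) (by norm_num)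
    (by norm_num) (by norm_num) (by norm_num) (by norm_num) (by norm_num) (by norm_num)
  exact ⟨hy1, hy2⟩

theorem pc8 {β r h t κ : ℝ} (hh : h = 2 * Real.pi / (3 : ℕ)) (hβ : 0 < β) (hr : 10 ≤ r) (hκ : κ = β * r)
    (hk1 : 0.8 ≤ κ) (hk2 : κ ≤ 0.85) (hT1 : 1.298 ≤ t + κ) (hT2 : t + κ ≤ 1.326) :
    Xf β r h t 0 ≠ 0 ∧ r * 0.3325 ≤ (Ld β r h t 1 - Ld β r h t 0).im ∧
      ‖(((-1 : ℤ) : ℂ) - 1) * Ld β r h t 0 - ((-1 : ℤ) : ℂ) * Ld β r h t 1‖ ≤ r * 6.43 := by
  obtain ⟨q1, q2, q3⟩ := b3_h hh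
  have hR0 := b3_R0 hβ hr hκ
  have hR := b3_R hβ hr hκ (by linarith)
  have hD1 : DomR κ t := b3_dom (by linarith) (by linarith) (Or.inl (by linarith))
  have hD0 : DomR κ (t - h) := b3_dom (by linarith) (by linarith) (Or.inl (by linarith))
  have y1 := yA8 hD1 hk1 hk2 (by linarith) (by linarith)
  have y0 := yB8 hD0 hk1 hk2 (by linarith) (by linarith)
  have j1 := T3_17_d1_2 hD1 hβ hk1 hk2 (by linarith) (by linarith) hR0 hR
  exact b3_piece 0.8 0.85 0.399 0.424 0.411 0.66298 0.671 0.65443 0.5704 2.086 2.1575 0.03 0.1 0.1 3.7038 1.4628 0 0 (-0.493) (-0.462) (-0.477) 1.61123 1.63723 1.3917 1.6876 0.08 0.31 0.18 4.7257 5.0627 0 0 0.3325 6.43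
    hβ hr hκ (by norm_num) hk1 hk2 hD1 hD0 j1 (j1 _ (by rw [sub_self, norm_zero]; norm_num))
    (T3_17_d0_2 hD0 hβ hk1 hk2 (by linarith) (by linarith) hR0 hR)
    (T3_17_p0 hD0 hβ hk1 hk2 (by linarith) (by linarith) hR0 hR)
    y1.1 y1.2 y0.1 y0.2 (by norm_num)
    (ex_um 0.399 (by norm_num) (by norm_num) (by norm_num) (by norm_num)) (ex_um 0.424 (by norm_num) (by norm_num) (by norm_num) (by norm_num)) (ex_lm 0.411 (by norm_num) (by norm_num) (by norm_num) (by norm_num) (by norm_num)) (by norm_num) (by norm_num) (by norm_num) (by norm_num) (by norm_num) (by norm_num) (by norm_num) (by norm_num)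
    (by norm_num) (by norm_num) (by norm_num) (by norm_num) (by norm_num) (by norm_num) (by norm_num) (by norm_num) (by norm_num) (by norm_num)
    (ex_up 0.493 (by norm_num) (by norm_num) (by norm_num) (by norm_num)) (ex_lp 0.477 (by norm_num) (by norm_num) (by norm_num)) (by norm_num) (by norm_num) (by norm_num) (by norm_num) (by norm_num) (by norm_num)
    (by norm_num) (by norm_num) (by norm_num) (by norm_num) (by norm_num) (by norm_num) (by norm_num) (by norm_num) (by norm_num) (by norm_num) (by norm_num)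
    (by norm_num) (by norm_num) (by norm_num) (by norm_num)

private theorem yA9 {κ t : ℝ} (h : DomR κ t) (hk1 : 0.8 ≤ κ) (hk2 : κ ≤ 0.85) (ht1 : 1.326 ≤ t + κ) (ht2 : t + κ ≤ 1.354) :
    0.404 ≤ sy κ t ∧ sy κ t ≤ 0.429 := by
  have hy1 : 0.404 ≤ sy κ t := syR_ge h 0.8 0.85 1.326 0.404 1.4978 1.49781 0.71189 0.7564 hk1 hk2 (by linarith) (by norm_num) (by norm_num)
    (expn_ge (by norm_num) (by norm_num)) (expn_le (by norm_num) (by norm_num) (by norm_num)) (by norm_num)
    (by norm_num) (by norm_num) (by norm_num) (by norm_num) (by norm_num) (by norm_num)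
  have hy2 : sy κ t ≤ 0.429 := syR_ang2 h 0.8 0.85 1.354 0.886 0.6332 0.7747 0.429 0.65117 1.53572 hk1 hk2 (by linarith) (by norm_num) (by norm_num) (by norm_num)
    (cos_le_num (by norm_num)) (sin_le_num (by norm_num) (by norm_num)) (expm_le (by norm_num) (by norm_num) (by norm_num))
    (expn_ge (by norm_num) (by norm_num)) (by norm_num) (by norm_num) (by norm_num) (by norm_num) (by norm_num)
  exact ⟨hy1, hy2⟩

private theorem yB9 {κ t : ℝ} (h : DomR κ t) (hk1 : 0.8 ≤ κ) (hk2 : κ ≤ 0.85) (ht1 : -0.7684 ≤ t + κ) (ht2 : t + κ ≤ -0.74039) :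
    (-0.473) ≤ sy κ t ∧ sy κ t ≤ (-0.443) := by
  have hy1 : -0.473 ≤ sy κ t := syL_ge h 0.8 0.85 0.7684 0.473 0.62313 0.62314 0.3575 0.34675 0.36844 hk1 hk2 (by linarith) (by norm_num) (by norm_num) (by norm_num)
    (expm_ge (by norm_num) (by norm_num) (by norm_num) (by norm_num)) (expm_le (by norm_num) (by norm_num) (by norm_num)) (by norm_num)
    (by norm_num) (by norm_num) (by norm_num) (by norm_num) (by norm_num) (by norm_num)
  have hy2 : sy κ t ≤ -0.443 := syL_le h 0.8 0.85 0.74039 0.443 0.6421 0.64211 0.33464 0.35557 hk1 hk2 (by linarith) (by norm_num) (by norm_num) (by norm_num)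
    (expm_ge (by norm_num) (by norm_num) (by norm_num) (by norm_num)) (expm_le (by norm_num) (by norm_num) (by norm_num)) (by norm_num)
    (by norm_num) (by norm_num) (by norm_num) (by norm_num) (by norm_num) (by norm_num)
  exact ⟨hy1, hy2⟩

theorem pc9 {β r h t κ : ℝ} (hh : h = 2 * Real.pi / (3 : ℕ)) (hβ : 0 < β) (hr : 10 ≤ r) (hκ : κ = β * r)
    (hk1 : 0.8 ≤ κ) (hk2 : κ ≤ 0.85) (hT1 : 1.326 ≤ t + κ) (hT2 : t + κ ≤ 1.354) :
    Xf β r h t 0 ≠ 0 ∧ r * 0.3325 ≤ (Ld β r h t 1 - Ld β r h t 0).im ∧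
      ‖(((-1 : ℤ) : ℂ) - 1) * Ld β r h t 0 - ((-1 : ℤ) : ℂ) * Ld β r h t 1‖ ≤ r * 6.43 := by
  obtain ⟨q1, q2, q3⟩ := b3_h hh
  have hR0 := b3_R0 hβ hr hκ
  have hR := b3_R hβ hr hκ (by linarith)
  have hD1 : DomR κ t := b3_dom (by linarith) (by linarith) (Or.inl (by linarith))
  have hD0 : DomR κ (t - h) := b3_dom (by linarith) (by linarith) (Or.inl (by linarith))
  have y1 := yA9 hD1 hk1 hk2 (by linarith) (by linarith)
  have y0 := yB9 hD0 hk1 hk2 (by linarith) (by linarith)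
  have j1 := T3_17_d1_2 hD1 hβ hk1 hk2 (by linarith) (by linarith) hR0 hR
  exact b3_piece 0.8 0.85 0.404 0.429 0.416 0.65968 0.66765 0.65117 0.5676 2.0931 2.1644 0.03 0.1 0.1 3.7038 1.4531 0 0 (-0.473) (-0.443) (-0.458) 1.5809 1.60481 1.3641 1.6655 0.08 0.31 0.18 4.7257 4.9951 0 0 0.3325 6.43
    hβ hr hκ (by norm_num) hk1 hk2 hD1 hD0 j1 (j1 _ (by rw [sub_self, norm_zero]; norm_num))
    (T3_17_d0_2 hD0 hβ hk1 hk2 (by linarith) (by linarith) hR0 hR)
    (T3_17_p0 hD0 hβ hk1 hk2 (by linarith) (by linarith) hR0 hR)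
    y1.1 y1.2 y0.1 y0.2 (by norm_num)
    (ex_um 0.404 (by norm_num) (by norm_num) (by norm_num) (by norm_num)) (ex_um 0.429 (by norm_num) (by norm_num) (by norm_num) (by norm_num)) (ex_lm 0.416 (by norm_num) (by norm_num) (by norm_num) (by norm_num) (by norm_num)) (by norm_num) (by norm_num) (by norm_num) (by norm_num) (by norm_num) (by norm_num) (by norm_num) (by norm_num)
    (by norm_num) (by norm_num) (by norm_num) (by norm_num) (by norm_num) (by norm_num) (by norm_num) (by norm_num) (by norm_num) (by norm_num)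
    (ex_up 0.473 (by norm_num) (by norm_num) (by norm_num) (by norm_num)) (ex_lp 0.458 (by norm_num) (by norm_num) (by norm_num)) (by norm_num) (by norm_num) (by norm_num) (by norm_num) (by norm_num) (by norm_num)
    (by norm_num) (by norm_num) (by norm_num) (by norm_num) (by norm_num) (by norm_num) (by norm_num) (by norm_num) (by norm_num) (by norm_num) (by norm_num)
    (by norm_num) (by norm_num) (by norm_num) (by norm_num)

private theorem yA10 {κ t : ℝ} (h : DomR κ t) (hk1 : 0.8 ≤ κ) (hk2 : κ ≤ 0.85) (ht1 : 1.354 ≤ t + κ) (ht2 : t + κ ≤ 1.382) :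
    0.408 ≤ sy κ t ∧ sy κ t ≤ 0.434 := by
  have hy1 : 0.408 ≤ sy κ t := syR_ge h 0.8 0.85 1.354 0.408 1.5038 1.50381 0.72182 0.76695 hk1 hk2 (by linarith) (by norm_num) (by norm_num)
    (expn_ge (by norm_num) (by norm_num)) (expn_le (by norm_num) (by norm_num) (by norm_num)) (by norm_num)
    (by norm_num) (by norm_num) (by norm_num) (by norm_num) (by norm_num) (by norm_num)
  have hy2 : sy κ t ≤ 0.434 := syR_ang2 h 0.8 0.85 1.382 0.907 0.6169 0.7878 0.434 0.64792 1.54341 hk1 hk2 (by linarith) (by norm_num) (by norm_num) (by norm_num)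
    (cos_le_num (by norm_num)) (sin_le_num (by norm_num) (by norm_num)) (expm_le (by norm_num) (by norm_num) (by norm_num))
    (expn_ge (by norm_num) (by norm_num)) (by norm_num) (by norm_num) (by norm_num) (by norm_num) (by norm_num)
  exact ⟨hy1, hy2⟩

private theorem yB10 {κ t : ℝ} (h : DomR κ t) (hk1 : 0.8 ≤ κ) (hk2 : κ ≤ 0.85) (ht1 : -0.7404 ≤ t + κ) (ht2 : t + κ ≤ -0.71239) :
    (-0.453) ≤ sy κ t ∧ sy κ t ≤ (-0.425) := by
  have hy1 : -0.453 ≤ sy κ t := syL_ge h 0.8 0.85 0.7404 0.453 0.63571 0.63572 0.3599 0.33879 0.35998 hk1 hk2 (by linarith) (by norm_num) (by norm_num) (by norm_num)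
    (expm_ge (by norm_num) (by norm_num) (by norm_num) (by norm_num)) (expm_le (by norm_num) (by norm_num) (by norm_num)) (by norm_num)
    (by norm_num) (by norm_num) (by norm_num) (by norm_num) (by norm_num) (by norm_num)
  have hy2 : sy κ t ≤ -0.425 := syL_le h 0.8 0.85 0.71239 0.425 0.65376 0.65378 0.32687 0.34733 hk1 hk2 (by linarith) (by norm_num) (by norm_num) (by norm_num)
    (expm_ge (by norm_num) (by norm_num) (by norm_num) (by norm_num)) (expm_le (by norm_num) (by norm_num) (by norm_num)) (by norm_num)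
    (by norm_num) (by norm_num) (by norm_num) (by norm_num) (by norm_num) (by norm_num)
  exact ⟨hy1, hy2⟩

theorem pc10 {β r h t κ : ℝ} (hh : h = 2 * Real.pi / (3 : ℕ)) (hβ : 0 < β) (hr : 10 ≤ r) (hκ : κ = β * r)
    (hk1 : 0.8 ≤ κ) (hk2 : κ ≤ 0.85) (hT1 : 1.354 ≤ t + κ) (hT2 : t + κ ≤ 1.382) :
    Xf β r h t 0 ≠ 0 ∧ r * 0.3325 ≤ (Ld β r h t 1 - Ld β r h t 0).im ∧
      ‖(((-1 : ℤ) : ℂ) - 1) * Ld β r h t 0 - ((-1 : ℤ) : ℂ) * Ld β r h t 1‖ ≤ r * 6.43 := by
  obtain ⟨q1, q2, q3⟩ := b3_h hh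
  have hR0 := b3_R0 hβ hr hκ
  have hR := b3_R hβ hr hκ (by linarith)
  have hD1 : DomR κ t := b3_dom (by linarith) (by linarith) (Or.inl (by linarith))
  have hD0 : DomR κ (t - h) := b3_dom (by linarith) (by linarith) (Or.inl (by linarith))
  have y1 := yA10 hD1 hk1 hk2 (by linarith) (by linarith)
  have y0 := yB10 hD0 hk1 hk2 (by linarith) (by linarith)
  have j1 := T3_17_d1_2 hD1 hβ hk1 hk2 (by linarith) (by linarith) hR0 hR
  exact b3_piece 0.8 0.85 0.408 0.434 0.421 0.65639 0.66498 0.64792 0.5653 2.0989 2.1714 0.03 0.1 0.1 3.7038 1.4453 0 0 (-0.453) (-0.425) (-0.439) 1.55115 1.57303 1.3371 1.6467 0.08 0.31 0.18 4.7257 4.9241 0 0 0.3325 6.43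
    hβ hr hκ (by norm_num) hk1 hk2 hD1 hD0 j1 (j1 _ (by rw [sub_self, norm_zero]; norm_num))
    (T3_17_d0_2 hD0 hβ hk1 hk2 (by linarith) (by linarith) hR0 hR)
    (T3_17_p0 hD0 hβ hk1 hk2 (by linarith) (by linarith) hR0 hR)
    y1.1 y1.2 y0.1 y0.2 (by norm_num)
    (ex_um 0.408 (by norm_num) (by norm_num) (by norm_num) (by norm_num)) (ex_um 0.434 (by norm_num) (by norm_num) (by norm_num) (by norm_num)) (ex_lm 0.421 (by norm_num) (by norm_num) (by norm_num) (by norm_num) (by norm_num)) (by norm_num) (by norm_num) (by norm_num) (by norm_num) (by norm_num) (by norm_num) (by norm_num) (by norm_num)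
    (by norm_num) (by norm_num) (by norm_num) (by norm_num) (by norm_num) (by norm_num) (by norm_num) (by norm_num) (by norm_num) (by norm_num)
    (ex_up 0.453 (by norm_num) (by norm_num) (by norm_num) (by norm_num)) (ex_lp 0.439 (by norm_num) (by norm_num) (by norm_num)) (by norm_num) (by norm_num) (by norm_num) (by norm_num) (by norm_num) (by norm_num)
    (by norm_num) (by norm_num) (by norm_num) (by norm_num) (by norm_num) (by norm_num) (by norm_num) (by norm_num) (by norm_num) (by norm_num) (by norm_num)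
    (by norm_num) (by norm_num) (by norm_num) (by norm_num)

theorem innS {β r h t κ : ℝ} (hh : h = 2 * Real.pi / (3 : ℕ)) (hβ : 0 < β) (hr : 10 ≤ r) (hκ : κ = β * r)
    (hk1 : 0.8 ≤ κ) (hk2 : κ ≤ 0.85) (hT1 : 1.085 ≤ t + κ) (hT2 : t + κ ≤ 1.382) :
    Xf β r h t 0 ≠ 0 ∧ r * 0.3325 ≤ (Ld β r h t 1 - Ld β r h t 0).im ∧
      ‖(((-1 : ℤ) : ℂ) - 1) * Ld β r h t 0 - ((-1 : ℤ) : ℂ) * Ld β r h t 1‖ ≤ r * 6.43 := by
  rcases le_total (t + κ) 1.115 with f0 | g0
  · exact pc0 hh hβ hr hκ hk1 hk2 hT1 f0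
  rcases le_total (t + κ) 1.138 with f1 | g1
  · exact pc1 hh hβ hr hκ hk1 hk2 g0 f1
  rcases le_total (t + κ) 1.162 with f2 | g2
  · exact pc2 hh hβ hr hκ hk1 hk2 g1 f2
  rcases le_total (t + κ) 1.185 with f3 | g3
  · exact pc3 hh hβ hr hκ hk1 hk2 g2 f3
  rcases le_total (t + κ) 1.213 with f4 | g4
  · exact pc4 hh hβ hr hκ hk1 hk2 g3 f4
  rcases le_total (t + κ) 1.241 with f5 | g5
  · exact pc5 hh hβ hr hκ hk1 hk2 g4 f5
  rcases le_total (t + κ) 1.269 with f6 | g6
  · exact pc6 hh hβ hr hκ hk1 hk2 g5 f6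
  rcases le_total (t + κ) 1.298 with f7 | g7
  · exact pc7 hh hβ hr hκ hk1 hk2 g6 f7
  rcases le_total (t + κ) 1.326 with f8 | g8
  · exact pc8 hh hβ hr hκ hk1 hk2 g7 f8
  rcases le_total (t + κ) 1.354 with f9 | g9
  · exact pc9 hh hβ hr hκ hk1 hk2 g8 f9
  exact pc10 hh hβ hr hκ hk1 hk2 g9 hT2

theorem circ {p : ℤ} (hp : IsCoprime (3 : ℤ) p) {β r : ℝ} (hβ : 0 < β) (hr : 10 ≤ r) (hk1 : 0.8 ≤ β * r)
    (hk2 : β * r ≤ 0.85) : Circ (2 * Real.pi * p / (3 : ℕ) + β) r := by
  obtain ⟨κ, hκ⟩ : ∃ κ, κ = β * r := ⟨_, rfl⟩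
  rw [← hκ] at hk1 hk2
  refine circ3 hp hr (h := 2 * Real.pi / (3 : ℕ)) (κ := κ) rfl 1.085 1.382 1.0078 0.3325 0.00273 0.00273 6.43 (by norm_num) (by norm_num) (by norm_num)
    (by norm_num) (by norm_num) ?_ ?_ ?_ ?_ ?_ (by norm_num) (by norm_num)
  · intro t h1 h2
    exact (innS rfl hβ hr hκ hk1 hk2 h1 h2).1
  · intro t h1 h2
    exact (innE rfl hβ hr hκ hk1 hk2 h1 h2).1
  · intro t h1 h2
    exact (innE rfl hβ hr hκ hk1 hk2 h1 h2).2
  · intro t h1 h2
    exact (innS rfl hβ hr hκ hk1 hk2 h1 h2).2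
  · intro t h1 h2 h3
    rcases h3 with h3 | h3
    · exact left rfl hβ hr hκ hk1 hk2 h1 h3
    · exact right0 rfl hβ hr hκ hk1 hk2 h3 h2

end B3_17

end Sok
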