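import Pool.Agent.Lib.MP_816dec_an.R1b3D
import Pool.Agent.Lib.MP_816dec_an.R1b3J18

/-!
MP_816dec_an (A3, row R1, b = 3): the cell `0.85 ≤ κ ≤ 0.9`.
-/

set_option autoImplicit false
set_option maxHeartbeats 4000000
set_option linter.unusedVariables false

open Complex Set

namespace Sok

namespace B3_18

private theorem yL {κ t : ℝ} (h : DomR κ t) (hk1 : 0.85 ≤ κ) (hk2 : κ ≤ 0.9) (ht1 : 0 ≤ t + κ) (ht2 : t + κ ≤ 1.06) :
    0 ≤ sy κ t ∧ sy κ t ≤ 0.378 := by
  have hy1 : 0 ≤ sy κ t := sy_nonneg h (by linarith)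
  have hy2 : sy κ t ≤ 0.378 := syR_le h 0.85 0.9 1.06 0.378 1.45936 0.6039 0.61293 0.649 hk1 hk2 (by linarith) (by norm_num) (by norm_num)
    (expn_ge (by norm_num) (by norm_num)) (by norm_num) (by norm_num) (Or.inr ((mul_le_mul_of_nonneg_left (expn_le (E := 1.45937) (by norm_num) (by norm_num) (by norm_num)) (by norm_num)).trans (by norm_num))) (by norm_num) (by norm_num) (by norm_num)
  exact ⟨hy1, hy2⟩

theorem left {β r h t κ : ℝ} (hh : h = 2 * Real.pi / (3 : ℕ)) (hβ : 0 < β) (hr : 10 ≤ r) (hκ : κ = β * r)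
    (hk1 : 0.85 ≤ κ) (hk2 : κ ≤ 0.9) (hT1 : 0 ≤ t + κ) (hT2 : t + κ ≤ 1.06) :
    ‖Xf β r h t (-1)‖ < |‖Xf β r h t 1‖ - ‖Xf β r h t 0‖| := by
  obtain ⟨q1, q2, q3⟩ := b3_h hh
  have hR0 := b3_R0 hβ hr hκ
  have hR := b3_R hβ hr hκ (by linarith)
  have hD1 : DomR κ t := b3_dom (by linarith) (by linarith) (Or.inl (by linarith))
  have hy := yL hD1 hk1 hk2 (by linarith) (by linarith)
  have hY : 0.7857 * Real.exp (r * 0.74163) ≤ ‖Xf β r h t 1‖ :=
    b3_lo hβ hr hκ (k := 1) (t' := t) (by push_cast; ring) hD1 0.05 2.1364 0.7857 0.74163 (by norm_num)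
      (T3_18_p1 hD1 hβ hk1 hk2 (by linarith) (by linarith) hR0 hR)
      (v5_Dup hD1 0.9 0 0.378 1 0.68524 2.1364 hk2 hy.1 hy.2 (ex_up 0 (by norm_num) (by norm_num) (by norm_num) (by norm_num)) (ex_um 0.378 (by norm_num) (by norm_num) (by norm_num) (by norm_num)) (by norm_num) (by norm_num) (by norm_num)) (by norm_num) (by norm_num)
      (b3_Vlo hD1 0.85 0.9 0 1.06 0.54 (-0.61618) 0.669 0.78444 0.24279 0.74163 hk1 hk2 (by linarith) (by linarith) (by norm_num) (ex_lm 0.61618 (by norm_num) (by norm_num) (by norm_num) (by norm_num) (by norm_num)) (by norm_num) (by norm_num) (by norm_num) (by norm_num) (by norm_num) (by norm_num) (by norm_num) (by norm_num) (ex_um 0.24279 (by norm_num) (by norm_num) (by norm_num) (by norm_num)) (by norm_num))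
  have h0 : ‖Xf β r h t 0‖ ≤ 0.5621 * ‖Xf β r h t 1‖ :=
    b3_cmp 0.4297 0.08563 0.001006 0.69163 0.559699 0.002319 0.5621 hr (b3_HU0 0.71 0.85 0.9 (-2.0944) (-1.03439) 1.39041 1.82851 1.89459 0.5469 0.52783 1.8285 1.0234 0.11969 0.82999 1.7176 0 0.05 0.000001 1.8105 0.656 hβ hr hκ (by norm_num) hk1 hk2 (by norm_num) (by linarith) (by linarith) (by norm_num) (by norm_num) (ex_up 0.6035 (by norm_num) (by norm_num) (by norm_num) (by norm_num)) (ex_up 0.639 (by norm_num) (by norm_num) (by norm_num) (by norm_num)) (ex_um 0.6035 (by norm_num) (by norm_num) (by norm_num) (by norm_num)) (ex_um 0.639 (by norm_num) (by norm_num) (by norm_num) (by norm_num)) (by norm_num) (by norm_num) (ex_lp 0.6035 (by norm_num) (by norm_num) (by norm_num)) (by norm_num) (by norm_num) (by norm_num) (by norm_num) (by norm_num) (by norm_num) (by norm_num) (by norm_num) (by norm_num) (by norm_num) (by norm_num) (by norm_num) (by norm_num) (by norm_num) (v5_hump 5.1999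 11.111 3.3334 0.0000003148 0.000001 hβ hr hκ hk1 hk2 (by norm_num) (tb := (-1.03439)) (by linarith) (by norm_num) (by norm_num) (by norm_num) (by norm_num) (by norm_num) (by norm_num) (by norm_num) (ex_un 14 0.99 (by norm_num) (by norm_num) (by norm_num) (by norm_num)) (by norm_num)) (by norm_num) (by norm_num)) hY (by norm_num) (by norm_num) (by norm_num) (by norm_num) (by norm_num) (ex_un 0 0.8563 (by norm_num) (by norm_num) (by norm_num) (by norm_num)) (by norm_num) (by norm_num) (by norm_num) (ex_un 6 0.9163 (by norm_num) (by norm_num) (by norm_num) (by norm_num)) (by norm_num) (by norm_num)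
  have h2 : ‖Xf β r h t (-1)‖ ≤ 0.0327 * ‖Xf β r h t 1‖ := by
    rcases le_total ((t + h) + κ) 2.37 with g0 | g0
    · exact b3_cmp 0.007228 0.49458 0.000602 0.74163 0.032561 0.000125 0.0327 hr ((b3_Xm hh).trans_le (b3_HF 0.51 0.85 0.9 2.09439 2.37 1.31518 0.64824 0.63192 1.54265 1.5825 0.63191 2.1748 0.11969 2.76509 0.0507 0.05507 0.578 0.000001 3.5394 0.163 0.24705 hβ hr hκ (by norm_num) hk1 hk2 (by norm_num) (by linarith) (by linarith) (by norm_num) (ex_um 0.4335 (by norm_num) (by norm_num) (by norm_num) (by norm_num)) (ex_um 0.459 (by norm_num) (by norm_num) (by norm_num) (by norm_num)) (ex_up 0.4335 (by norm_num) (by norm_num) (by norm_num) (by norm_num)) (ex_up 0.459 (by norm_num) (by norm_num) (by norm_num) (by norm_num)) (by norm_num) (by norm_num) (ex_lm 0.459 (by norm_num) (by norm_num) (by norm_num) (by norm_num) (by norm_num)) (by norm_num) (by norm_num) (by norm_num) (by norm_num) (by norm_num) (by norm_num) (by norm_num) (by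 norm_num) (by norm_num) (by norm_num) (by norm_num) (by norm_num) (ex_un 0 0.5507 (by norm_num) (by norm_num) (by norm_num) (by norm_num)) (v5_hump 1.7955 11.111 3.3334 0.0000003148 0.000001 hβ hr hκ hk1 hk2 (by norm_num) (tb := 2.37) (by linarith) (by norm_num) (by norm_num) (by norm_num) (by norm_num) (by norm_num) (by norm_num) (by norm_num) (ex_un 14 0.99 (by norm_num) (by norm_num) (by norm_num) (by norm_num)) (by norm_num)) (by norm_num) (by norm_num) (by norm_num))) hY (by norm_num) (by norm_num) (by norm_num) (by norm_num) (by norm_num) (ex_un 4 0.9458 (by norm_num) (by norm_num) (by norm_num) (by norm_num)) (by norm_num) (by norm_num) (by norm_num) (ex_un 7 0.4163 (by norm_num) (by norm_num) (by norm_num) (by norm_num)) (by norm_num) (by norm_num)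
    exact b3_cmp 1 0 0.004448 0.54163 0 0.021021 0.0327 hr (b3_w (b3_UD 0.85 0.9 2.37 3.1544 0.15 0.43272 0.15 1.9358 3.7131 0.2 hh hβ hr hκ (by norm_num) hk1 hk2 (by linarith) (by linarith) (by norm_num) (by norm_num) (by norm_num) (by norm_num) (by norm_num) (by norm_num) (by norm_num) (by norm_num) (by norm_num) (by norm_num) (by norm_num) (by norm_num) (by norm_num))) hY (by norm_num) (by norm_num) (by norm_num) (by norm_num) (by norm_num) (by norm_num) (by norm_num) (by norm_num) (by norm_num) (ex_un 5 0.4163 (by norm_num) (by norm_num) (by norm_num) (by norm_num)) (by norm_num) (by norm_num)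
  exact b3_out1 0.5621 0.0327 hY (by norm_num) h0 h2 (by norm_num)

private theorem yR0 {κ t : ℝ} (h : DomR κ t) (hk1 : 0.85 ≤ κ) (hk2 : κ ≤ 0.9) (ht1 : -0.7124 ≤ t + κ) (ht2 : t + κ ≤ 0.0001) :
    (-0.427) ≤ sy κ t ∧ sy κ t ≤ 0.005 := by
  have hy1 : -0.427 ≤ sy κ t := syL_ge h 0.85 0.9 0.7124 0.427 0.65246 0.65247 0.3095 0.30955 0.32778 hk1 hk2 (by linarith) (by norm_num) (by norm_num) (by norm_num)
    (expm_ge (by norm_num) (by norm_num) (by norm_num) (by norm_num)) (expm_le (by norm_num) (by norm_num) (by norm_num)) (by norm_num)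
    (by norm_num) (by norm_num) (by norm_num) (by norm_num) (by norm_num) (by norm_num)
  have hy2 : sy κ t ≤ 0.005 := syR_le h 0.85 0.9 0.0001 0.005 1.00501 0.0054 0.00558 0.00592 hk1 hk2 (by linarith) (by norm_num) (by norm_num)
    (expn_ge (by norm_num) (by norm_num)) (by norm_num) (by norm_num) (Or.inr ((mul_le_mul_of_nonneg_left (expn_le (E := 1.00502) (by norm_num) (by norm_num) (by norm_num)) (by norm_num)).trans (by norm_num))) (by norm_num) (by norm_num) (by norm_num)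
  exact ⟨hy1, hy2⟩

theorem right0 {β r h t κ : ℝ} (hh : h = 2 * Real.pi / (3 : ℕ)) (hβ : 0 < β) (hr : 10 ≤ r) (hκ : κ = β * r)
    (hk1 : 0.85 ≤ κ) (hk2 : κ ≤ 0.9) (hT1 : 1.382 ≤ t + κ) (hT2 : t + κ ≤ h) :
    ‖Xf β r h t (-1)‖ < |‖Xf β r h t 1‖ - ‖Xf β r h t 0‖| := by
  obtain ⟨q1, q2, q3⟩ := b3_h hh
  have hR0 := b3_R0 hβ hr hκ
  have hR := b3_R hβ hr hκ (by linarith)
  have hD0 : DomR κ (t - h) := b3_dom (by linarith) (by linarith) (Or.inl (by linarith))
  have hy := yR0 hD0 hk1 hk2 (by linarith) (by linarith)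
  have hY : 0.7522 * Real.exp (r * 0.8295) ≤ ‖Xf β r h t 0‖ :=
    b3_lo hβ hr hκ (k := 0) (t' := t - h) (by push_cast; ring) hD0 0.1 2.0488 0.7522 0.8295 (by norm_num)
      (T3_18_p0R hD0 hβ hk1 hk2 (by linarith) (by linarith) hR0 hR)
      (v5_Dup hD0 0.9 (-0.427) 0.005 1.53266 0.99502 2.0488 hk2 hy.1 hy.2 (ex_up 0.427 (by norm_num) (by norm_num) (by norm_num) (by norm_num)) (ex_um 0.005 (by norm_num) (by norm_num) (by norm_num) (by norm_num)) (by norm_num) (by norm_num) (by norm_num)) (by norm_num) (by norm_num)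
      (b3_Vlo hD0 0.85 0.9 (-0.7124) 0.0001 1.4 0.33648 0.3724 0.93145 0.07102 0.8295 hk1 hk2 (by linarith) (by linarith) (by norm_num) (ex_lp 0.33648 (by norm_num) (by norm_num) (by norm_num)) (by norm_num) (by norm_num) (by norm_num) (by norm_num) (by norm_num) (by norm_num) (by norm_num) (by norm_num) (ex_um 0.07102 (by norm_num) (by norm_num) (by norm_num) (by norm_num)) (by norm_num))
  have h1 : ‖Xf β r h t 1‖ ≤ 0.2964 * ‖Xf β r h t 0‖ := by
    exact b3_cmp 0.1138 0.21742 0.0002499 0.8295 0.296331 0.00006 0.2964 hr (b3_X1.trans_le (b3_HF 0.44 0.85 0.9 1.382 2.0944 1.22016 0.68798 0.67301 1.45354 1.48587 0.673 1.8616 0.11969 2.0527 0.3263 0.133 0.2646 0.000001 1.9587 0.178 0.61208 hβ hr hκ (by norm_num) hk1 hk2 (by norm_num) (by linarith) (by linarith) (by norm_num) (ex_um 0.374 (by norm_num) (by norm_num) (by norm_num) (by norm_num)) (ex_um 0.396 (by norm_num) (by norm_num) (by norm_num) (by norm_num)) (ex_up 0.374 (by norm_num) (by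 norm_num) (by norm_num) (by norm_num)) (ex_up 0.396 (by norm_num) (by norm_num) (by norm_num) (by norm_num)) (by norm_num) (by norm_num) (ex_lm 0.396 (by norm_num) (by norm_num) (by norm_num) (by norm_num) (by norm_num)) (by norm_num) (by norm_num) (by norm_num) (by norm_num) (by norm_num) (by norm_num) (by norm_num) (by norm_num) (by norm_num) (by norm_num) (by norm_num) (by norm_num) (ex_un 1 0.33 (by norm_num) (by norm_num) (by norm_num) (by norm_num)) (v5_hump 2.0711 11.111 3.3334 0.0000003148 0.000001 hβ hr hκ hk1 hk2 (by norm_num) (tb := 2.0944) (by linarith) (by norm_num) (by norm_num) (by norm_num) (by norm_num) (by norm_num) (by norm_num) (by norm_num) (ex_un 14 0.99 (by norm_num) (by norm_num) (by norm_num) (by norm_num)) (by norm_num)) (by norm_num) (by norm_num) (by norm_num))) hY (by norm_num) (by norm_num) (by norm_num) (by norm_num) (by norm_num) (ex_un 2 0.1742 (by norm_num) (by norm_num) (by norm_num) (by norm_num)) (by norm_num)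 (by norm_num) (by norm_num) (ex_un 8 0.295 (by norm_num) (by norm_num) (by norm_num) (by norm_num)) (by norm_num) (by norm_num)
  have h2 : ‖Xf β r h t (-1)‖ ≤ 0.0016 * ‖Xf β r h t 0‖ := by
    exact b3_cmp 1 0 0.0005346 0.75364 0 0.001527 0.0016 hr (b3_w (b3_UD 0.85 0.9 3.47639 4.1888 0.005 0.43272 0.02586 1.12 2.1483 0.07586 hh hβ hr hκ (by norm_num) hk1 hk2 (by linarith) (by linarith) (by norm_num) (by norm_num) (by norm_num) (by norm_num) (by norm_num) (by norm_num) (by norm_num) (by norm_num) (by norm_num) (by norm_num) (by norm_num) (by norm_num) (by norm_num))) hY (by norm_num) (by norm_num) (by norm_num) (by norm_num) (by norm_num) (by norm_num) (by norm_num) (by norm_num) (by norm_num) (ex_un 7 0.5364 (by norm_num) (by norm_num) (by norm_num) (by norm_num)) (by norm_num) (by norm_num)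
  exact b3_out0 0.2964 0.0016 hY (by norm_num) h1 h2 (by norm_num)

private theorem yI {κ t : ℝ} (h : DomR κ t) (hk1 : 0.85 ≤ κ) (hk2 : κ ≤ 0.9) (ht1 : -1.0344 ≤ t + κ) (ht2 : t + κ ≤ -0.71239) :
    (-0.641) ≤ sy κ t ∧ sy κ t ≤ (-0.417) := by
  have hy1 : -0.641 ≤ sy κ t := syL_ge h 0.85 0.9 1.0344 0.641 0.52676 0.52677 0.3696 0.37517 0.39725 hk1 hk2 (by linarith) (by norm_num) (by norm_num) (by norm_num)
    (expm_ge (by norm_num) (by norm_num) (by norm_num) (by norm_num)) (expm_le (by norm_num) (by norm_num) (by norm_num)) (by norm_num)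
    (by norm_num) (by norm_num) (by norm_num) (by norm_num) (by norm_num) (by norm_num)
  have hy2 : sy κ t ≤ -0.417 := syL_le h 0.85 0.9 0.71239 0.417 0.65902 0.65903 0.30534 0.32332 hk1 hk2 (by linarith) (by norm_num) (by norm_num) (by norm_num)
    (expm_ge (by norm_num) (by norm_num) (by norm_num) (by norm_num)) (expm_le (by norm_num) (by norm_num) (by norm_num)) (by norm_num)
    (by norm_num) (by norm_num) (by norm_num) (by norm_num) (by norm_num) (by norm_num)
  exact ⟨hy1, hy2⟩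

theorem innE {β r h t κ : ℝ} (hh : h = 2 * Real.pi / (3 : ℕ)) (hβ : 0 < β) (hr : 10 ≤ r) (hκ : κ = β * r)
    (hk1 : 0.85 ≤ κ) (hk2 : κ ≤ 0.9) (hT1 : 1.06 ≤ t + κ) (hT2 : t + κ ≤ 1.382) :
    ‖Xf β r h t (-1)‖ ≤ 0.00267 * ‖Xf β r h t 0‖ ∧ ‖Xf β r h (t + β) (-1)‖ ≤ 0.00268 * ‖Xf β r h t 0‖ := by
  obtain ⟨q1, q2, q3⟩ := b3_h hh
  have hR0 := b3_R0 hβ hr hκ
  have hR := b3_R hβ hr hκ (by linarith)
  have hD0 : DomR κ (t - h) := b3_dom (by linarith) (by linarith) (Or.inl (by linarith))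
  have hy := yI hD0 hk1 hk2 (by linarith) (by linarith)
  have hY : 0.6434 * Real.exp (r * 0.62913) ≤ ‖Xf β r h t 0‖ :=
    b3_lo hβ hr hκ (k := 0) (t' := t - h) (by push_cast; ring) hD0 0.18 2.6372 0.6434 0.62913 (by norm_num)
      (T3_18_p0 hD0 hβ hk1 hk2 (by linarith) (by linarith) hR0 hR)
      (v5_Dup hD0 0.9 (-0.641) (-0.417) 1.89838 1.51741 2.6372 hk2 hy.1 hy.2 (ex_up 0.641 (by norm_num) (by norm_num) (by norm_num) (by norm_num)) (ex_up 0.417 (by norm_num) (by norm_num) (by norm_num) (by norm_num)) (by norm_num) (by norm_num) (by norm_num)) (by norm_num) (by norm_num)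
      (b3_Vlo hD0 0.85 0.9 (-1.0344) (-0.71239) 1.74 0.55389 0.4054 0.91894 0.08454 0.62913 hk1 hk2 (by linarith) (by linarith) (by norm_num) (ex_lp 0.55389 (by norm_num) (by norm_num) (by norm_num)) (by norm_num) (by norm_num) (by norm_num) (by norm_num) (by norm_num) (by norm_num) (by norm_num) (by norm_num) (ex_um 0.08454 (by norm_num) (by norm_num) (by norm_num) (by norm_num)) (by norm_num))
  constructor
  · exact b3_cmp 1 0 0.003081 0.57913 0 0.002665 0.00267 hr ((b3_Xm hh).trans_le (b3_U1 0.85 0.9 3.15439 3.4764 0.68359 0.11969 0.82999 0.6314 0.00029 0.8873 0.000689 0.5565 hβ hr hκ (by norm_num) hk1 hk2 (by linarith) (by linarith) (by norm_num) (by norm_num) (by norm_num) (by norm_num) (by norm_num) (by norm_num) (by norm_num) (by norm_num) (by norm_num) (by norm_num) (by norm_num) (by norm_num) (by norm_num) (ex_un 6 0.314 (by norm_num) (by norm_num) (by norm_num) (by norm_num)) (v5_hump 0.6891 11.111 3.3334 0.0004752 0.000689 hβ hr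 hκ hk1 hk2 (by norm_num) (tb := 3.4764) (by linarith) (by norm_num) (by norm_num) (by norm_num) (by norm_num) (by norm_num) (by norm_num) (by norm_num) (ex_un 7 0.6565 (by norm_num) (by norm_num) (by norm_num) (by norm_num)) (by norm_num)) (by norm_num))) hY (by norm_num) (by norm_num) (by norm_num) (by norm_num) (by norm_num) (by norm_num) (by norm_num) (by norm_num) (by norm_num) (ex_un 5 0.7913 (by norm_num) (by norm_num) (by norm_num) (by norm_num)) (by norm_num) (by norm_num)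
  · exact b3_cmp 1 0 0.003081 0.57913 0 0.002671 0.00268 hr ((b3_Xm hh).trans_le (b3_U1 0.85 0.9 3.15439 3.5664 0.68359 0.11969 0.82999 0.6314 0.00029 0.8873 0.001873 0.5577 hβ hr hκ (by norm_num) hk1 hk2 (by linarith) (by linarith) (by norm_num) (by norm_num) (by norm_num) (by norm_num) (by norm_num) (by norm_num) (by norm_num) (by norm_num) (by norm_num) (by norm_num) (by norm_num) (by norm_num) (by norm_num) (ex_un 6 0.314 (by norm_num) (by norm_num) (by norm_num) (by norm_num)) (v5_hump 0.5991 11.111 3.3334 0.001292 0.001873 hβ hr hκ hk1 hk2 (by norm_num) (tb := 3.5664) (by linarith) (by norm_num) (by norm_num) (by norm_num) (by norm_num) (by norm_num) (by norm_num) (by norm_num) (ex_un 6 0.6566 (by norm_num) (by norm_num) (by norm_num) (by norm_num)) (by norm_num)) (by norm_num))) hY (by norm_num) (by norm_num) (by norm_num) (by norm_num) (by norm_num) (by norm_num) (by norm_num) (by norm_num) (by norm_num) (ex_un 5 0.7913 (by norm_num)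 (by norm_num) (by norm_num) (by norm_num)) (by norm_num) (by norm_num)

private theorem yA0 {κ t : ℝ} (h : DomR κ t) (hk1 : 0.85 ≤ κ) (hk2 : κ ≤ 0.9) (ht1 : 1.06 ≤ t + κ) (ht2 : t + κ ≤ 1.09) :
    0.364 ≤ sy κ t ∧ sy κ t ≤ 0.385 := by
  have hy1 : 0.364 ≤ sy κ t := syR_ge h 0.85 0.9 1.06 0.364 1.43907 1.43908 0.58202 0.61627 hk1 hk2 (by linarith) (by norm_num) (by norm_num)
    (expn_ge (by norm_num) (by norm_num)) (expn_le (by norm_num) (by norm_num) (by norm_num)) (by norm_num)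
    (by norm_num) (by norm_num) (by norm_num) (by norm_num) (by norm_num) (by norm_num)
  have hy2 : sy κ t ≤ 0.385 := syR_le h 0.85 0.9 1.09 0.385 1.46961 0.6194 0.62866 0.66566 hk1 hk2 (by linarith) (by norm_num) (by norm_num)
    (expn_ge (by norm_num) (by norm_num)) (by norm_num) (by norm_num) (Or.inr ((mul_le_mul_of_nonneg_left (expn_le (E := 1.46962) (by norm_num) (by norm_num) (by norm_num)) (by norm_num)).trans (by norm_num))) (by norm_num) (by norm_num) (by norm_num)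
  exact ⟨hy1, hy2⟩

private theorem yB0 {κ t : ℝ} (h : DomR κ t) (hk1 : 0.85 ≤ κ) (hk2 : κ ≤ 0.9) (ht1 : -1.0344 ≤ t + κ) (ht2 : t + κ ≤ -1.00439) :
    (-0.641) ≤ sy κ t ∧ sy κ t ≤ (-0.601) := by
  have hy1 : -0.641 ≤ sy κ t := syL_ge h 0.85 0.9 1.0344 0.641 0.52676 0.52677 0.3696 0.37517 0.39725 hk1 hk2 (by linarith) (by norm_num) (by norm_num) (by norm_num)
    (expm_ge (by norm_num) (by norm_num) (by norm_num) (by norm_num)) (expm_le (by norm_num) (by norm_num) (by norm_num)) (by norm_num)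
    (by norm_num) (by norm_num) (by norm_num) (by norm_num) (by norm_num) (by norm_num)
  have hy2 : sy κ t ≤ -0.601 := syL_le h 0.85 0.9 1.00439 0.601 0.54826 0.54827 0.36611 0.38766 hk1 hk2 (by linarith) (by norm_num) (by norm_num) (by norm_num)
    (expm_ge (by norm_num) (by norm_num) (by norm_num) (by norm_num)) (expm_le (by norm_num) (by norm_num) (by norm_num)) (by norm_num)
    (by norm_num) (by norm_num) (by norm_num) (by norm_num) (by norm_num) (by norm_num)
  exact ⟨hy1, hy2⟩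

theorem pc0 {β r h t κ : ℝ} (hh : h = 2 * Real.pi / (3 : ℕ)) (hβ : 0 < β) (hr : 10 ≤ r) (hκ : κ = β * r)
    (hk1 : 0.85 ≤ κ) (hk2 : κ ≤ 0.9) (hT1 : 1.06 ≤ t + κ) (hT2 : t + κ ≤ 1.09) :
    Xf β r h t 0 ≠ 0 ∧ r * 0.2805 ≤ (Ld β r h t 1 - Ld β r h t 0).im ∧
      ‖(((-1 : ℤ) : ℂ) - 1) * Ld β r h t 0 - ((-1 : ℤ) : ℂ) * Ld β r h t 1‖ ≤ r * 6.36 := by
  obtain ⟨q1, q2, q3⟩ := b3_h hh
  have hR0 := b3_R0 hβ hr hκ
  have hR := b3_R hβ hr hκ (by linarith)
  have hD1 : DomR κ t := b3_dom (by linarith) (by linarith) (Or.inl (by linarith))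
  have hD0 : DomR κ (t - h) := b3_dom (by linarith) (by linarith) (Or.inl (by linarith))
  have y1 := yA0 hD1 hk1 hk2 (by linarith) (by linarith)
  have y0 := yB0 hD0 hk1 hk2 (by linarith) (by linarith)
  have j1 := T3_18_d1_0 hD1 hβ hk1 hk2 (by linarith) (by linarith) hR0 hR
  exact b3_piece 0.85 0.9 0.364 0.385 0.374 0.68797 0.6949 0.68046 0.6255 2.0768 2.1451 0.08 0.095 0.095 1.3122 0.5696 0 0 (-0.641) (-0.601) (-0.621) 1.86078 1.89838 1.7086 2.1995 0.06 0.31 0.18 6.3009 7.2591 0 0 0.2805 6.36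
    hβ hr hκ (by norm_num) hk1 hk2 hD1 hD0 j1 (j1 _ (by rw [sub_self, norm_zero]; norm_num))
    (T3_18_d0_0 hD0 hβ hk1 hk2 (by linarith) (by linarith) hR0 hR)
    (T3_18_p0 hD0 hβ hk1 hk2 (by linarith) (by linarith) hR0 hR)
    y1.1 y1.2 y0.1 y0.2 (by norm_num)
    (ex_um 0.364 (by norm_num) (by norm_num) (by norm_num) (by norm_num)) (ex_um 0.385 (by norm_num) (by norm_num) (by norm_num) (by norm_num)) (ex_lm 0.374 (by norm_num) (by norm_num) (by norm_num) (by norm_num) (by norm_num)) (by norm_num) (by norm_num) (by norm_num) (by norm_num) (by norm_num) (by norm_num) (by norm_num) (by norm_num)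
    (by norm_num) (by norm_num) (by norm_num) (by norm_num) (by norm_num) (by norm_num) (by norm_num) (by norm_num) (by norm_num) (by norm_num)
    (ex_up 0.641 (by norm_num) (by norm_num) (by norm_num) (by norm_num)) (ex_lp 0.621 (by norm_num) (by norm_num) (by norm_num)) (by norm_num) (by norm_num) (by norm_num) (by norm_num) (by norm_num) (by norm_num)
    (by norm_num) (by norm_num) (by norm_num) (by norm_num) (by norm_num) (by norm_num) (by norm_num) (by norm_num) (by norm_num) (by norm_num) (by norm_num)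
    (by norm_num) (by norm_num) (by norm_num) (by norm_num)

private theorem yA1 {κ t : ℝ} (h : DomR κ t) (hk1 : 0.85 ≤ κ) (hk2 : κ ≤ 0.9) (ht1 : 1.09 ≤ t + κ) (ht2 : t + κ ≤ 1.113) :
    0.37 ≤ sy κ t ∧ sy κ t ≤ 0.391 := by
  have hy1 : 0.37 ≤ sy κ t := syR_ge h 0.85 0.9 1.09 0.37 1.44773 1.44774 0.59517 0.6302 hk1 hk2 (by linarith) (by norm_num) (by norm_num)
    (expn_ge (by norm_num) (by norm_num)) (expn_le (by norm_num) (by norm_num) (by norm_num)) (by norm_num)
    (by norm_num) (by norm_num) (by norm_num) (by norm_num) (by norm_num) (by norm_num)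
  have hy2 : sy κ t ≤ 0.391 := syR_le h 0.85 0.9 1.113 0.391 1.47845 0.6328 0.6423 0.6801 hk1 hk2 (by linarith) (by norm_num) (by norm_num)
    (expn_ge (by norm_num) (by norm_num)) (by norm_num) (by norm_num) (Or.inr ((mul_le_mul_of_nonneg_left (expn_le (E := 1.47846) (by norm_num) (by norm_num) (by norm_num)) (by norm_num)).trans (by norm_num))) (by norm_num) (by norm_num) (by norm_num)
  exact ⟨hy1, hy2⟩

private theorem yB1 {κ t : ℝ} (h : DomR κ t) (hk1 : 0.85 ≤ κ) (hk2 : κ ≤ 0.9) (ht1 : -1.0044 ≤ t + κ) (ht2 : t + κ ≤ -0.98139) :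
    (-0.621) ≤ sy κ t ∧ sy κ t ≤ (-0.587) := by
  have hy1 : -0.621 ≤ sy κ t := syL_ge h 0.85 0.9 1.0044 0.621 0.5374 0.53741 0.3762 0.3708 0.39263 hk1 hk2 (by linarith) (by norm_num) (by norm_num) (by norm_num)
    (expm_ge (by norm_num) (by norm_num) (by norm_num) (by norm_num)) (expm_le (by norm_num) (by norm_num) (by norm_num)) (by norm_num)
    (by norm_num) (by norm_num) (by norm_num) (by norm_num) (by norm_num) (by norm_num)
  have hy2 : sy κ t ≤ -0.587 := syL_le h 0.85 0.9 0.98139 0.587 0.55599 0.556 0.36262 0.38397 hk1 hk2 (by linarith) (by norm_num) (by norm_num) (by norm_num)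
    (expm_ge (by norm_num) (by norm_num) (by norm_num) (by norm_num)) (expm_le (by norm_num) (by norm_num) (by norm_num)) (by norm_num)
    (by norm_num) (by norm_num) (by norm_num) (by norm_num) (by norm_num) (by norm_num)
  exact ⟨hy1, hy2⟩

theorem pc1 {β r h t κ : ℝ} (hh : h = 2 * Real.pi / (3 : ℕ)) (hβ : 0 < β) (hr : 10 ≤ r) (hκ : κ = β * r)
    (hk1 : 0.85 ≤ κ) (hk2 : κ ≤ 0.9) (hT1 : 1.09 ≤ t + κ) (hT2 : t + κ ≤ 1.113) :
    Xf β r h t 0 ≠ 0 ∧ r * 0.2805 ≤ (Ld β r h t 1 - Ld β r h t 0).im ∧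
      ‖(((-1 : ℤ) : ℂ) - 1) * Ld β r h t 0 - ((-1 : ℤ) : ℂ) * Ld β r h t 1‖ ≤ r * 6.36 := by
  obtain ⟨q1, q2, q3⟩ := b3_h hh
  have hR0 := b3_R0 hβ hr hκ
  have hR := b3_R hβ hr hκ (by linarith)
  have hD1 : DomR κ t := b3_dom (by linarith) (by linarith) (Or.inl (by linarith))
  have hD0 : DomR κ (t - h) := b3_dom (by linarith) (by linarith) (Or.inl (by linarith))
  have y1 := yA1 hD1 hk1 hk2 (by linarith) (by linarith)
  have y0 := yB1 hD0 hk1 hk2 (by linarith) (by linarith)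
  have j1 := T3_18_d1_1 hD1 hβ hk1 hk2 (by linarith) (by linarith) hR0 hR
  exact b3_piece 0.85 0.9 0.37 0.391 0.381 0.68317 0.69074 0.67639 0.6217 2.0846 2.1526 0.08 0.12 0.12 1.7046 0.734 0 0 (-0.621) (-0.587) (-0.604) 1.82941 1.86079 1.6748 2.1618 0.07 0.325 0.18 5.6621 6.4496 0 0 0.2805 6.36
    hβ hr hκ (by norm_num) hk1 hk2 hD1 hD0 j1 (j1 _ (by rw [sub_self, norm_zero]; norm_num))
    (T3_18_d0_1 hD0 hβ hk1 hk2 (by linarith) (by linarith) hR0 hR)
    (T3_18_p0 hD0 hβ hk1 hk2 (by linarith) (by linarith) hR0 hR)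
    y1.1 y1.2 y0.1 y0.2 (by norm_num)
    (ex_um 0.37 (by norm_num) (by norm_num) (by norm_num) (by norm_num)) (ex_um 0.391 (by norm_num) (by norm_num) (by norm_num) (by norm_num)) (ex_lm 0.381 (by norm_num) (by norm_num) (by norm_num) (by norm_num) (by norm_num)) (by norm_num) (by norm_num) (by norm_num) (by norm_num) (by norm_num) (by norm_num) (by norm_num) (by norm_num)
    (by norm_num) (by norm_num) (by norm_num) (by norm_num) (by norm_num) (by norm_num) (by norm_num) (by norm_num) (by norm_num) (by norm_num)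
    (ex_up 0.621 (by norm_num) (by norm_num) (by norm_num) (by norm_num)) (ex_lp 0.604 (by norm_num) (by norm_num) (by norm_num)) (by norm_num) (by norm_num) (by norm_num) (by norm_num) (by norm_num) (by norm_num)
    (by norm_num) (by norm_num) (by norm_num) (by norm_num) (by norm_num) (by norm_num) (by norm_num) (by norm_num) (by norm_num) (by norm_num) (by norm_num)
    (by norm_num) (by norm_num) (by norm_num) (by norm_num)

private theorem yA2 {κ t : ℝ} (h : DomR κ t) (hk1 : 0.85 ≤ κ) (hk2 : κ ≤ 0.9) (ht1 : 1.113 ≤ t + κ) (ht2 : t + κ ≤ 1.137) :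
    0.375 ≤ sy κ t ∧ sy κ t ≤ 0.396 := by
  have hy1 : 0.375 ≤ sy κ t := syR_ge h 0.85 0.9 1.113 0.375 1.45499 1.455 0.60624 0.64192 hk1 hk2 (by linarith) (by norm_num) (by norm_num)
    (expn_ge (by norm_num) (by norm_num)) (expn_le (by norm_num) (by norm_num) (by norm_num)) (by norm_num)
    (by norm_num) (by norm_num) (by norm_num) (by norm_num) (by norm_num) (by norm_num)
  have hy2 : sy κ t ≤ 0.396 := syR_le h 0.85 0.9 1.137 0.396 1.48586 0.6441 0.65377 0.69225 hk1 hk2 (by linarith) (by norm_num) (by norm_num)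
    (expn_ge (by norm_num) (by norm_num)) (by norm_num) (by norm_num) (Or.inr ((mul_le_mul_of_nonneg_left (expn_le (E := 1.48587) (by norm_num) (by norm_num) (by norm_num)) (by norm_num)).trans (by norm_num))) (by norm_num) (by norm_num) (by norm_num)
  exact ⟨hy1, hy2⟩

private theorem yB2 {κ t : ℝ} (h : DomR κ t) (hk1 : 0.85 ≤ κ) (hk2 : κ ≤ 0.9) (ht1 : -0.9814 ≤ t + κ) (ht2 : t + κ ≤ -0.95739) :
    (-0.606) ≤ sy κ t ∧ sy κ t ≤ (-0.572) := by
  have hy1 : -0.606 ≤ sy κ t := syL_ge h 0.85 0.9 0.9814 0.606 0.54552 0.54554 0.3745 0.36731 0.38894 hk1 hk2 (by linarith) (by norm_num) (by norm_num) (by norm_num)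
    (expm_ge (by norm_num) (by norm_num) (by norm_num) (by norm_num)) (expm_le (by norm_num) (by norm_num) (by norm_num)) (by norm_num)
    (by norm_num) (by norm_num) (by norm_num) (by norm_num) (by norm_num) (by norm_num)
  have hy2 : sy κ t ≤ -0.572 := syL_le h 0.85 0.9 0.95739 0.572 0.56439 0.5644 0.3587 0.37981 hk1 hk2 (by linarith) (by norm_num) (by norm_num) (by norm_num)
    (expm_ge (by norm_num) (by norm_num) (by norm_num) (by norm_num)) (expm_le (by norm_num) (by norm_num) (by norm_num)) (by norm_num)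
    (by norm_num) (by norm_num) (by norm_num) (by norm_num) (by norm_num) (by norm_num)
  exact ⟨hy1, hy2⟩

theorem pc2 {β r h t κ : ℝ} (hh : h = 2 * Real.pi / (3 : ℕ)) (hβ : 0 < β) (hr : 10 ≤ r) (hκ : κ = β * r)
    (hk1 : 0.85 ≤ κ) (hk2 : κ ≤ 0.9) (hT1 : 1.113 ≤ t + κ) (hT2 : t + κ ≤ 1.137) :
    Xf β r h t 0 ≠ 0 ∧ r * 0.2805 ≤ (Ld β r h t 1 - Ld β r h t 0).im ∧
      ‖(((-1 : ℤ) : ℂ) - 1) * Ld β r h t 0 - ((-1 : ℤ) : ℂ) * Ld β r h t 1‖ ≤ r * 6.36 := by
  obtain ⟨q1, q2, q3⟩ := b3_h hh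
  have hR0 := b3_R0 hβ hr hκ
  have hR := b3_R hβ hr hκ (by linarith)
  have hD1 : DomR κ t := b3_dom (by linarith) (by linarith) (Or.inl (by linarith))
  have hD0 : DomR κ (t - h) := b3_dom (by linarith) (by linarith) (Or.inl (by linarith))
  have y1 := yA2 hD1 hk1 hk2 (by linarith) (by linarith)
  have y0 := yB2 hD0 hk1 hk2 (by linarith) (by linarith)
  have j1 := T3_18_d1_1 hD1 hβ hk1 hk2 (by linarith) (by linarith) hR0 hR
  exact b3_piece 0.85 0.9 0.375 0.396 0.386 0.67977 0.68729 0.67301 0.6186 2.0912 2.1589 0.08 0.12 0.12 1.7046 0.7292 0 0 (-0.606) (-0.572) (-0.589) 1.80218 1.83309 1.6498 2.1227 0.07 0.325 0.18 5.6621 6.4116 0 0 0.2805 6.36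
    hβ hr hκ (by norm_num) hk1 hk2 hD1 hD0 j1 (j1 _ (by rw [sub_self, norm_zero]; norm_num))
    (T3_18_d0_1 hD0 hβ hk1 hk2 (by linarith) (by linarith) hR0 hR)
    (T3_18_p0 hD0 hβ hk1 hk2 (by linarith) (by linarith) hR0 hR)
    y1.1 y1.2 y0.1 y0.2 (by norm_num)
    (ex_um 0.375 (by norm_num) (by norm_num) (by norm_num) (by norm_num)) (ex_um 0.396 (by norm_num) (by norm_num) (by norm_num) (by norm_num)) (ex_lm 0.386 (by norm_num) (by norm_num) (by norm_num) (by norm_num) (by norm_num)) (by norm_num) (by norm_num) (by norm_num) (by norm_num) (by norm_num) (by norm_num) (by norm_num) (by norm_num)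
    (by norm_num) (by norm_num) (by norm_num) (by norm_num) (by norm_num) (by norm_num) (by norm_num) (by norm_num) (by norm_num) (by norm_num)
    (ex_up 0.606 (by norm_num) (by norm_num) (by norm_num) (by norm_num)) (ex_lp 0.589 (by norm_num) (by norm_num) (by norm_num)) (by norm_num) (by norm_num) (by norm_num) (by norm_num) (by norm_num) (by norm_num)
    (by norm_num) (by norm_num) (by norm_num) (by norm_num) (by norm_num) (by norm_num) (by norm_num) (by norm_num) (by norm_num) (by norm_num) (by norm_num)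
    (by norm_num) (by norm_num) (by norm_num) (by norm_num)

private theorem yA3 {κ t : ℝ} (h : DomR κ t) (hk1 : 0.85 ≤ κ) (hk2 : κ ≤ 0.9) (ht1 : 1.137 ≤ t + κ) (ht2 : t + κ ≤ 1.16) :
    0.38 ≤ sy κ t ∧ sy κ t ≤ 0.402 := by
  have hy1 : 0.38 ≤ sy κ t := syR_ge h 0.85 0.9 1.137 0.38 1.46228 1.46229 0.6174 0.65373 hk1 hk2 (by linarith) (by norm_num) (by norm_num)
    (expn_ge (by norm_num) (by norm_num)) (expn_le (by norm_num) (by norm_num) (by norm_num)) (by norm_num)
    (by norm_num) (by norm_num) (by norm_num) (by norm_num) (by norm_num) (by norm_num)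
  have hy2 : sy κ t ≤ 0.402 := syR_le h 0.85 0.9 1.16 0.402 1.49481 0.6578 0.66768 0.70697 hk1 hk2 (by linarith) (by norm_num) (by norm_num)
    (expn_ge (by norm_num) (by norm_num)) (by norm_num) (by norm_num) (Or.inr ((mul_le_mul_of_nonneg_left (expn_le (E := 1.49482) (by norm_num) (by norm_num) (by norm_num)) (by norm_num)).trans (by norm_num))) (by norm_num) (by norm_num) (by norm_num)
  exact ⟨hy1, hy2⟩

private theorem yB3 {κ t : ℝ} (h : DomR κ t) (hk1 : 0.85 ≤ κ) (hk2 : κ ≤ 0.9) (ht1 : -0.9574 ≤ t + κ) (ht2 : t + κ ≤ -0.93439) :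
    (-0.59) ≤ sy κ t ∧ sy κ t ≤ (-0.558) := by
  have hy1 : -0.59 ≤ sy κ t := syL_ge h 0.85 0.9 0.9574 0.59 0.55432 0.55433 0.3829 0.36338 0.38478 hk1 hk2 (by linarith) (by norm_num) (by norm_num) (by norm_num)
    (expm_ge (by norm_num) (by norm_num) (by norm_num) (by norm_num)) (expm_le (by norm_num) (by norm_num) (by norm_num)) (by norm_num)
    (by norm_num) (by norm_num) (by norm_num) (by norm_num) (by norm_num) (by norm_num)
  have hy2 : sy κ t ≤ -0.558 := syL_le h 0.85 0.9 0.93439 0.558 0.57235 0.57236 0.35485 0.37574 hk1 hk2 (by linarith) (by norm_num) (by norm_num) (by norm_num)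
    (expm_ge (by norm_num) (by norm_num) (by norm_num) (by norm_num)) (expm_le (by norm_num) (by norm_num) (by norm_num)) (by norm_num)
    (by norm_num) (by norm_num) (by norm_num) (by norm_num) (by norm_num) (by norm_num)
  exact ⟨hy1, hy2⟩

theorem pc3 {β r h t κ : ℝ} (hh : h = 2 * Real.pi / (3 : ℕ)) (hβ : 0 < β) (hr : 10 ≤ r) (hκ : κ = β * r)
    (hk1 : 0.85 ≤ κ) (hk2 : κ ≤ 0.9) (hT1 : 1.137 ≤ t + κ) (hT2 : t + κ ≤ 1.16) :
    Xf β r h t 0 ≠ 0 ∧ r * 0.2805 ≤ (Ld β r h t 1 - Ld β r h t 0).im ∧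
      ‖(((-1 : ℤ) : ℂ) - 1) * Ld β r h t 0 - ((-1 : ℤ) : ℂ) * Ld β r h t 1‖ ≤ r * 6.36 := by
  obtain ⟨q1, q2, q3⟩ := b3_h hh
  have hR0 := b3_R0 hβ hr hκ
  have hR := b3_R hβ hr hκ (by linarith)
  have hD1 : DomR κ t := b3_dom (by linarith) (by linarith) (Or.inl (by linarith))
  have hD0 : DomR κ (t - h) := b3_dom (by linarith) (by linarith) (Or.inl (by linarith))
  have y1 := yA3 hD1 hk1 hk2 (by linarith) (by linarith)
  have y0 := yB3 hD0 hk1 hk2 (by linarith) (by linarith)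
  have j1 := T3_18_d1_1 hD1 hβ hk1 hk2 (by linarith) (by linarith) hR0 hR
  exact b3_piece 0.85 0.9 0.38 0.402 0.391 0.67638 0.68387 0.66899 0.6155 2.0978 2.1666 0.08 0.12 0.12 1.7046 0.7244 0 0 (-0.59) (-0.558) (-0.574) 1.77534 1.80399 1.6236 2.0883 0.07 0.325 0.18 5.6621 6.3616 0 0 0.2805 6.36
    hβ hr hκ (by norm_num) hk1 hk2 hD1 hD0 j1 (j1 _ (by rw [sub_self, norm_zero]; norm_num))
    (T3_18_d0_1 hD0 hβ hk1 hk2 (by linarith) (by linarith) hR0 hR)
    (T3_18_p0 hD0 hβ hk1 hk2 (by linarith) (by linarith) hR0 hR)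
    y1.1 y1.2 y0.1 y0.2 (by norm_num)
    (ex_um 0.38 (by norm_num) (by norm_num) (by norm_num) (by norm_num)) (ex_um 0.402 (by norm_num) (by norm_num) (by norm_num) (by norm_num)) (ex_lm 0.391 (by norm_num) (by norm_num) (by norm_num) (by norm_num) (by norm_num)) (by norm_num) (by norm_num) (by norm_num) (by norm_num) (by norm_num) (by norm_num) (by norm_num) (by norm_num)
    (by norm_num) (by norm_num) (by norm_num) (by norm_num) (by norm_num) (by norm_num) (by norm_num) (by norm_num) (by norm_num) (by norm_num)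
    (ex_up 0.59 (by norm_num) (by norm_num) (by norm_num) (by norm_num)) (ex_lp 0.574 (by norm_num) (by norm_num) (by norm_num)) (by norm_num) (by norm_num) (by norm_num) (by norm_num) (by norm_num) (by norm_num)
    (by norm_num) (by norm_num) (by norm_num) (by norm_num) (by norm_num) (by norm_num) (by norm_num) (by norm_num) (by norm_num) (by norm_num) (by norm_num)
    (by norm_num) (by norm_num) (by norm_num) (by norm_num)

private theorem yA4 {κ t : ℝ} (h : DomR κ t) (hk1 : 0.85 ≤ κ) (hk2 : κ ≤ 0.9) (ht1 : 1.16 ≤ t + κ) (ht2 : t + κ ≤ 1.188) :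
    0.385 ≤ sy κ t ∧ sy κ t ≤ 0.408 := by
  have hy1 : 0.385 ≤ sy κ t := syR_ge h 0.85 0.9 1.16 0.385 1.46961 1.46962 0.62866 0.66566 hk1 hk2 (by linarith) (by norm_num) (by norm_num)
    (expn_ge (by norm_num) (by norm_num)) (expn_le (by norm_num) (by norm_num) (by norm_num)) (by norm_num)
    (by norm_num) (by norm_num) (by norm_num) (by norm_num) (by norm_num) (by norm_num)
  have hy2 : sy κ t ≤ 0.408 := syR_le h 0.85 0.9 1.188 0.408 1.5038 0.6716 0.68172 0.72183 hk1 hk2 (by linarith) (by norm_num) (by norm_num)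
    (expn_ge (by norm_num) (by norm_num)) (by norm_num) (by norm_num) (Or.inr ((mul_le_mul_of_nonneg_left (expn_le (E := 1.50381) (by norm_num) (by norm_num) (by norm_num)) (by norm_num)).trans (by norm_num))) (by norm_num) (by norm_num) (by norm_num)
  exact ⟨hy1, hy2⟩

private theorem yB4 {κ t : ℝ} (h : DomR κ t) (hk1 : 0.85 ≤ κ) (hk2 : κ ≤ 0.9) (ht1 : -0.9344 ≤ t + κ) (ht2 : t + κ ≤ -0.90639) :
    (-0.575) ≤ sy κ t ∧ sy κ t ≤ (-0.54) := by
  have hy1 : -0.575 ≤ sy κ t := syL_ge h 0.85 0.9 0.9344 0.575 0.5627 0.56271 0.3718 0.3595 0.38066 hk1 hk2 (by linarith) (by norm_num) (by norm_num) (by norm_num)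
    (expm_ge (by norm_num) (by norm_num) (by norm_num) (by norm_num)) (expm_le (by norm_num) (by norm_num) (by norm_num)) (by norm_num)
    (by norm_num) (by norm_num) (by norm_num) (by norm_num) (by norm_num) (by norm_num)
  have hy2 : sy κ t ≤ -0.54 := syL_le h 0.85 0.9 0.90639 0.54 0.58274 0.58275 0.34964 0.37022 hk1 hk2 (by linarith) (by norm_num) (by norm_num) (by norm_num)
    (expm_ge (by norm_num) (by norm_num) (by norm_num) (by norm_num)) (expm_le (by norm_num) (by norm_num) (by norm_num)) (by norm_num)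
    (by norm_num) (by norm_num) (by norm_num) (by norm_num) (by norm_num) (by norm_num)
  exact ⟨hy1, hy2⟩

theorem pc4 {β r h t κ : ℝ} (hh : h = 2 * Real.pi / (3 : ℕ)) (hβ : 0 < β) (hr : 10 ≤ r) (hκ : κ = β * r)
    (hk1 : 0.85 ≤ κ) (hk2 : κ ≤ 0.9) (hT1 : 1.16 ≤ t + κ) (hT2 : t + κ ≤ 1.188) :
    Xf β r h t 0 ≠ 0 ∧ r * 0.2805 ≤ (Ld β r h t 1 - Ld β r h t 0).im ∧
      ‖(((-1 : ℤ) : ℂ) - 1) * Ld β r h t 0 - ((-1 : ℤ) : ℂ) * Ld β r h t 1‖ ≤ r * 6.36 := by
  obtain ⟨q1, q2, q3⟩ := b3_h hh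
  have hR0 := b3_R0 hβ hr hκ
  have hR := b3_R hβ hr hκ (by linarith)
  have hD1 : DomR κ t := b3_dom (by linarith) (by linarith) (Or.inl (by linarith))
  have hD0 : DomR κ (t - h) := b3_dom (by linarith) (by linarith) (Or.inl (by linarith))
  have y1 := yA4 hD1 hk1 hk2 (by linarith) (by linarith)
  have y0 := yB4 hD0 hk1 hk2 (by linarith) (by linarith)
  have j1 := T3_18_d1_2 hD1 hβ hk1 hk2 (by linarith) (by linarith) hR0 hR
  exact b3_piece 0.85 0.9 0.385 0.408 0.397 0.67233 0.68046 0.66498 0.6125 2.1044 2.1742 0.03 0.11 0.11 4.1199 1.7396 0 0 (-0.575) (-0.54) (-0.557) 1.74542 1.77714 1.5995 2.0462 0.08 0.305 0.18 4.6494 5.1989 0 0 0.2805 6.36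
    hβ hr hκ (by norm_num) hk1 hk2 hD1 hD0 j1 (j1 _ (by rw [sub_self, norm_zero]; norm_num))
    (T3_18_d0_2 hD0 hβ hk1 hk2 (by linarith) (by linarith) hR0 hR)
    (T3_18_p0 hD0 hβ hk1 hk2 (by linarith) (by linarith) hR0 hR)
    y1.1 y1.2 y0.1 y0.2 (by norm_num)
    (ex_um 0.385 (by norm_num) (by norm_num) (by norm_num) (by norm_num)) (ex_um 0.408 (by norm_num) (by norm_num) (by norm_num) (by norm_num)) (ex_lm 0.397 (by norm_num) (by norm_num) (by norm_num) (by norm_num) (by norm_num)) (by norm_num) (by norm_num) (by norm_num) (by norm_num) (by norm_num) (by norm_num) (by norm_num) (by norm_num)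
    (by norm_num) (by norm_num) (by norm_num) (by norm_num) (by norm_num) (by norm_num) (by norm_num) (by norm_num) (by norm_num) (by norm_num)
    (ex_up 0.575 (by norm_num) (by norm_num) (by norm_num) (by norm_num)) (ex_lp 0.557 (by norm_num) (by norm_num) (by norm_num)) (by norm_num) (by norm_num) (by norm_num) (by norm_num) (by norm_num) (by norm_num)
    (by norm_num) (by norm_num) (by norm_num) (by norm_num) (by norm_num) (by norm_num) (by norm_num) (by norm_num) (by norm_num) (by norm_num) (by norm_num)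
    (by norm_num) (by norm_num) (by norm_num) (by norm_num)

private theorem yA5 {κ t : ℝ} (h : DomR κ t) (hk1 : 0.85 ≤ κ) (hk2 : κ ≤ 0.9) (ht1 : 1.188 ≤ t + κ) (ht2 : t + κ ≤ 1.216) :
    0.39 ≤ sy κ t ∧ sy κ t ≤ 0.414 := by
  have hy1 : 0.39 ≤ sy κ t := syR_ge h 0.85 0.9 1.188 0.39 1.47698 1.47699 0.64002 0.67768 hk1 hk2 (by linarith) (by norm_num) (by norm_num)
    (expn_ge (by norm_num) (by norm_num)) (expn_le (by norm_num) (by norm_num) (by norm_num)) (by norm_num)
    (by norm_num) (by norm_num) (by norm_num) (by norm_num) (by norm_num) (by norm_num)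
  have hy2 : sy κ t ≤ 0.414 := syR_le h 0.85 0.9 1.216 0.414 1.51285 0.6856 0.69591 0.73686 hk1 hk2 (by linarith) (by norm_num) (by norm_num)
    (expn_ge (by norm_num) (by norm_num)) (by norm_num) (by norm_num) (Or.inr ((mul_le_mul_of_nonneg_left (expn_le (E := 1.51286) (by norm_num) (by norm_num) (by norm_num)) (by norm_num)).trans (by norm_num))) (by norm_num) (by norm_num) (by norm_num)
  exact ⟨hy1, hy2⟩

private theorem yB5 {κ t : ℝ} (h : DomR κ t) (hk1 : 0.85 ≤ κ) (hk2 : κ ≤ 0.9) (ht1 : -0.9064 ≤ t + κ) (ht2 : t + κ ≤ -0.87839) :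
    (-0.557) ≤ sy κ t ∧ sy κ t ≤ (-0.523) := by
  have hy1 : -0.557 ≤ sy κ t := syL_ge h 0.85 0.9 0.9064 0.557 0.57292 0.57293 0.3545 0.35457 0.37544 hk1 hk2 (by linarith) (by norm_num) (by norm_num) (by norm_num)
    (expm_ge (by norm_num) (by norm_num) (by norm_num) (by norm_num)) (expm_le (by norm_num) (by norm_num) (by norm_num)) (by norm_num)
    (by norm_num) (by norm_num) (by norm_num) (by norm_num) (by norm_num) (by norm_num)
  have hy2 : sy κ t ≤ -0.523 := syL_le h 0.85 0.9 0.87839 0.523 0.59273 0.59275 0.34444 0.36472 hk1 hk2 (by linarith) (by norm_num) (by norm_num) (by norm_num)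
    (expm_ge (by norm_num) (by norm_num) (by norm_num) (by norm_num)) (expm_le (by norm_num) (by norm_num) (by norm_num)) (by norm_num)
    (by norm_num) (by norm_num) (by norm_num) (by norm_num) (by norm_num) (by norm_num)
  exact ⟨hy1, hy2⟩

theorem pc5 {β r h t κ : ℝ} (hh : h = 2 * Real.pi / (3 : ℕ)) (hβ : 0 < β) (hr : 10 ≤ r) (hκ : κ = β * r)
    (hk1 : 0.85 ≤ κ) (hk2 : κ ≤ 0.9) (hT1 : 1.188 ≤ t + κ) (hT2 : t + κ ≤ 1.216) :
    Xf β r h t 0 ≠ 0 ∧ r * 0.2805 ≤ (Ld β r h t 1 - Ld β r h t 0).im ∧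
      ‖(((-1 : ℤ) : ℂ) - 1) * Ld β r h t 0 - ((-1 : ℤ) : ℂ) * Ld β r h t 1‖ ≤ r * 6.36 := by
  obtain ⟨q1, q2, q3⟩ := b3_h hh
  have hR0 := b3_R0 hβ hr hκ
  have hR := b3_R hβ hr hκ (by linarith)
  have hD1 : DomR κ t := b3_dom (by linarith) (by linarith) (Or.inl (by linarith))
  have hD0 : DomR κ (t - h) := b3_dom (by linarith) (by linarith) (Or.inl (by linarith))
  have y1 := yA5 hD1 hk1 hk2 (by linarith) (by linarith)
  have y0 := yB5 hD0 hk1 hk2 (by linarith) (by linarith)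
  have j1 := T3_18_d1_2 hD1 hβ hk1 hk2 (by linarith) (by linarith) hR0 hR
  exact b3_piece 0.85 0.9 0.39 0.414 0.402 0.66898 0.67706 0.66101 0.6094 2.1111 2.182 0.03 0.11 0.11 4.1199 1.728 0 0 (-0.557) (-0.523) (-0.54) 1.716 1.74543 1.5709 2.0091 0.08 0.305 0.18 4.6494 5.1529 0 0 0.2805 6.36
    hβ hr hκ (by norm_num) hk1 hk2 hD1 hD0 j1 (j1 _ (by rw [sub_self, norm_zero]; norm_num))
    (T3_18_d0_2 hD0 hβ hk1 hk2 (by linarith) (by linarith) hR0 hR)
    (T3_18_p0 hD0 hβ hk1 hk2 (by linarith) (by linarith) hR0 hR)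
    y1.1 y1.2 y0.1 y0.2 (by norm_num)
    (ex_um 0.39 (by norm_num) (by norm_num) (by norm_num) (by norm_num)) (ex_um 0.414 (by norm_num) (by norm_num) (by norm_num) (by norm_num)) (ex_lm 0.402 (by norm_num) (by norm_num) (by norm_num) (by norm_num) (by norm_num)) (by norm_num) (by norm_num) (by norm_num) (by norm_num) (by norm_num) (by norm_num) (by norm_num) (by norm_num)
    (by norm_num) (by norm_num) (by norm_num) (by norm_num) (by norm_num) (by norm_num) (by norm_num) (by norm_num) (by norm_num) (by norm_num)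
    (ex_up 0.557 (by norm_num) (by norm_num) (by norm_num) (by norm_num)) (ex_lp 0.54 (by norm_num) (by norm_num) (by norm_num)) (by norm_num) (by norm_num) (by norm_num) (by norm_num) (by norm_num) (by norm_num)
    (by norm_num) (by norm_num) (by norm_num) (by norm_num) (by norm_num) (by norm_num) (by norm_num) (by norm_num) (by norm_num) (by norm_num) (by norm_num)
    (by norm_num) (by norm_num) (by norm_num) (by norm_num)

private theorem yA6 {κ t : ℝ} (h : DomR κ t) (hk1 : 0.85 ≤ κ) (hk2 : κ ≤ 0.9) (ht1 : 1.216 ≤ t + κ) (ht2 : t + κ ≤ 1.243) :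
    0.396 ≤ sy κ t ∧ sy κ t ≤ 0.42 := by
  have hy1 : 0.396 ≤ sy κ t := syR_ge h 0.85 0.9 1.216 0.396 1.48586 1.48587 0.65377 0.69225 hk1 hk2 (by linarith) (by norm_num) (by norm_num)
    (expn_ge (by norm_num) (by norm_num)) (expn_le (by norm_num) (by norm_num) (by norm_num)) (by norm_num)
    (by norm_num) (by norm_num) (by norm_num) (by norm_num) (by norm_num) (by norm_num)
  have hy2 : sy κ t ≤ 0.42 := syR_le h 0.85 0.9 1.243 0.42 1.52196 0.6997 0.71024 0.75204 hk1 hk2 (by linarith) (by norm_num) (by norm_num)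
    (expn_ge (by norm_num) (by norm_num)) (by norm_num) (by norm_num) (Or.inr ((mul_le_mul_of_nonneg_left (expn_le (E := 1.52197) (by norm_num) (by norm_num) (by norm_num)) (by norm_num)).trans (by norm_num))) (by norm_num) (by norm_num) (by norm_num)
  exact ⟨hy1, hy2⟩

private theorem yB6 {κ t : ℝ} (h : DomR κ t) (hk1 : 0.85 ≤ κ) (hk2 : κ ≤ 0.9) (ht1 : -0.8784 ≤ t + κ) (ht2 : t + κ ≤ -0.85139) :
    (-0.538) ≤ sy κ t ∧ sy κ t ≤ (-0.506) := by
  have hy1 : -0.538 ≤ sy κ t := syL_ge h 0.85 0.9 0.8784 0.538 0.58391 0.58392 0.3558 0.34904 0.36959 hk1 hk2 (by linarith) (by norm_num) (by norm_num) (by norm_num)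
    (expm_ge (by norm_num) (by norm_num) (by norm_num) (by norm_num)) (expm_le (by norm_num) (by norm_num) (by norm_num)) (by norm_num)
    (by norm_num) (by norm_num) (by norm_num) (by norm_num) (by norm_num) (by norm_num)
  have hy2 : sy κ t ≤ -0.506 := syL_le h 0.85 0.9 0.85139 0.506 0.6029 0.60291 0.33896 0.35891 hk1 hk2 (by linarith) (by norm_num) (by norm_num) (by norm_num)
    (expm_ge (by norm_num) (by norm_num) (by norm_num) (by norm_num)) (expm_le (by norm_num) (by norm_num) (by norm_num)) (by norm_num)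
    (by norm_num) (by norm_num) (by norm_num) (by norm_num) (by norm_num) (by norm_num)
  exact ⟨hy1, hy2⟩

theorem pc6 {β r h t κ : ℝ} (hh : h = 2 * Real.pi / (3 : ℕ)) (hβ : 0 < β) (hr : 10 ≤ r) (hκ : κ = β * r)
    (hk1 : 0.85 ≤ κ) (hk2 : κ ≤ 0.9) (hT1 : 1.216 ≤ t + κ) (hT2 : t + κ ≤ 1.243) :
    Xf β r h t 0 ≠ 0 ∧ r * 0.2805 ≤ (Ld β r h t 1 - Ld β r h t 0).im ∧
      ‖(((-1 : ℤ) : ℂ) - 1) * Ld β r h t 0 - ((-1 : ℤ) : ℂ) * Ld β r h t 1‖ ≤ r * 6.36 := by
  obtain ⟨q1, q2, q3⟩ := b3_h hh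
  have hR0 := b3_R0 hβ hr hκ
  have hR := b3_R hβ hr hκ (by linarith)
  have hD1 : DomR κ t := b3_dom (by linarith) (by linarith) (Or.inl (by linarith))
  have hD0 : DomR κ (t - h) := b3_dom (by linarith) (by linarith) (Or.inl (by linarith))
  have y1 := yA6 hD1 hk1 hk2 (by linarith) (by linarith)
  have y0 := yB6 hD0 hk1 hk2 (by linarith) (by linarith)
  have j1 := T3_18_d1_2 hD1 hβ hk1 hk2 (by linarith) (by linarith) hR0 hR
  exact b3_piece 0.85 0.9 0.396 0.42 0.408 0.66497 0.67301 0.65705 0.6058 2.1191 2.1897 0.03 0.11 0.11 4.1199 1.7146 0 0 (-0.538) (-0.506) (-0.522) 1.68539 1.71258 1.5414 1.9746 0.08 0.305 0.18 4.6494 5.1001 0 0 0.2805 6.36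
    hβ hr hκ (by norm_num) hk1 hk2 hD1 hD0 j1 (j1 _ (by rw [sub_self, norm_zero]; norm_num))
    (T3_18_d0_2 hD0 hβ hk1 hk2 (by linarith) (by linarith) hR0 hR)
    (T3_18_p0 hD0 hβ hk1 hk2 (by linarith) (by linarith) hR0 hR)
    y1.1 y1.2 y0.1 y0.2 (by norm_num)
    (ex_um 0.396 (by norm_num) (by norm_num) (by norm_num) (by norm_num)) (ex_um 0.42 (by norm_num) (by norm_num) (by norm_num) (by norm_num)) (ex_lm 0.408 (by norm_num) (by norm_num) (by norm_num) (by norm_num) (by norm_num)) (by norm_num) (by norm_num) (by norm_num) (by norm_num) (by norm_num) (by norm_num) (by norm_num) (by norm_num)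
    (by norm_num) (by norm_num) (by norm_num) (by norm_num) (by norm_num) (by norm_num) (by norm_num) (by norm_num) (by norm_num) (by norm_num)
    (ex_up 0.538 (by norm_num) (by norm_num) (by norm_num) (by norm_num)) (ex_lp 0.522 (by norm_num) (by norm_num) (by norm_num)) (by norm_num) (by norm_num) (by norm_num) (by norm_num) (by norm_num) (by norm_num)
    (by norm_num) (by norm_num) (by norm_num) (by norm_num) (by norm_num) (by norm_num) (by norm_num) (by norm_num) (by norm_num) (by norm_num) (by norm_num)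
    (by norm_num) (by norm_num) (by norm_num) (by norm_num)

private theorem yA7 {κ t : ℝ} (h : DomR κ t) (hk1 : 0.85 ≤ κ) (hk2 : κ ≤ 0.9) (ht1 : 1.243 ≤ t + κ) (ht2 : t + κ ≤ 1.271) :
    0.401 ≤ sy κ t ∧ sy κ t ≤ 0.425 := by
  have hy1 : 0.401 ≤ sy κ t := syR_ge h 0.85 0.9 1.243 0.401 1.49331 1.49332 0.66535 0.7045 hk1 hk2 (by linarith) (by norm_num) (by norm_num)
    (expn_ge (by norm_num) (by norm_num)) (expn_le (by norm_num) (by norm_num) (by norm_num)) (by norm_num)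
    (by norm_num) (by norm_num) (by norm_num) (by norm_num) (by norm_num) (by norm_num)
  have hy2 : sy κ t ≤ 0.425 := syR_ang2 h 0.85 0.9 1.271 0.807 0.6921 0.7223 0.425 0.65378 1.52958 hk1 hk2 (by linarith) (by norm_num) (by norm_num) (by norm_num)
    (cos_le_num (by norm_num)) (sin_le_num (by norm_num) (by norm_num)) (expm_le (by norm_num) (by norm_num) (by norm_num))
    (expn_ge (by norm_num) (by norm_num)) (by norm_num) (by norm_num) (by norm_num) (by norm_num) (by norm_num)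
  exact ⟨hy1, hy2⟩

private theorem yB7 {κ t : ℝ} (h : DomR κ t) (hk1 : 0.85 ≤ κ) (hk2 : κ ≤ 0.9) (ht1 : -0.8514 ≤ t + κ) (ht2 : t + κ ≤ -0.82339) :
    (-0.52) ≤ sy κ t ∧ sy κ t ≤ (-0.488) := by
  have hy1 : -0.52 ≤ sy κ t := syL_ge h 0.85 0.9 0.8514 0.52 0.59452 0.59453 0.3502 0.3435 0.36372 hk1 hk2 (by linarith) (by norm_num) (by norm_num) (by norm_num)
    (expm_ge (by norm_num) (by norm_num) (by norm_num) (by norm_num)) (expm_le (by norm_num) (by norm_num) (by norm_num)) (by norm_num)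
    (by norm_num) (by norm_num) (by norm_num) (by norm_num) (by norm_num) (by norm_num)
  have hy2 : sy κ t ≤ -0.488 := syL_le h 0.85 0.9 0.82339 0.488 0.61385 0.61386 0.33284 0.35243 hk1 hk2 (by linarith) (by norm_num) (by norm_num) (by norm_num)
    (expm_ge (by norm_num) (by norm_num) (by norm_num) (by norm_num)) (expm_le (by norm_num) (by norm_num) (by norm_num)) (by norm_num)
    (by norm_num) (by norm_num) (by norm_num) (by norm_num) (by norm_num) (by norm_num)
  exact ⟨hy1, hy2⟩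

theorem pc7 {β r h t κ : ℝ} (hh : h = 2 * Real.pi / (3 : ℕ)) (hβ : 0 < β) (hr : 10 ≤ r) (hκ : κ = β * r)
    (hk1 : 0.85 ≤ κ) (hk2 : κ ≤ 0.9) (hT1 : 1.243 ≤ t + κ) (hT2 : t + κ ≤ 1.271) :
    Xf β r h t 0 ≠ 0 ∧ r * 0.2805 ≤ (Ld β r h t 1 - Ld β r h t 0).im ∧
      ‖(((-1 : ℤ) : ℂ) - 1) * Ld β r h t 0 - ((-1 : ℤ) : ℂ) * Ld β r h t 1‖ ≤ r * 6.36 := by
  obtain ⟨q1, q2, q3⟩ := b3_h hh
  have hR0 := b3_R0 hβ hr hκ
  have hR := b3_R hβ hr hκ (by linarith)
  have hD1 : DomR κ t := b3_dom (by linarith) (by linarith) (Or.inl (by linarith))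
  have hD0 : DomR κ (t - h) := b3_dom (by linarith) (by linarith) (Or.inl (by linarith))
  have y1 := yA7 hD1 hk1 hk2 (by linarith) (by linarith)
  have y0 := yB7 hD0 hk1 hk2 (by linarith) (by linarith)
  have j1 := T3_18_d1_2 hD1 hβ hk1 hk2 (by linarith) (by linarith) hR0 hR
  exact b3_piece 0.85 0.9 0.401 0.425 0.413 0.66166 0.66966 0.65378 0.6027 2.1258 2.1963 0.03 0.11 0.11 4.1199 1.7031 0 0 (-0.52) (-0.488) (-0.504) 1.65532 1.68203 1.5139 1.9403 0.08 0.305 0.18 4.6494 5.0532 0 0 0.2805 6.36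
    hβ hr hκ (by norm_num) hk1 hk2 hD1 hD0 j1 (j1 _ (by rw [sub_self, norm_zero]; norm_num))
    (T3_18_d0_2 hD0 hβ hk1 hk2 (by linarith) (by linarith) hR0 hR)
    (T3_18_p0 hD0 hβ hk1 hk2 (by linarith) (by linarith) hR0 hR)
    y1.1 y1.2 y0.1 y0.2 (by norm_num)
    (ex_um 0.401 (by norm_num) (by norm_num) (by norm_num) (by norm_num)) (ex_um 0.425 (by norm_num) (by norm_num) (by norm_num) (by norm_num)) (ex_lm 0.413 (by norm_num) (by norm_num) (by norm_num) (by norm_num) (by norm_num)) (by norm_num) (by norm_num) (by norm_num) (by norm_num) (by norm_num) (by norm_num) (by norm_num) (by norm_num)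
    (by norm_num) (by norm_num) (by norm_num) (by norm_num) (by norm_num) (by norm_num) (by norm_num) (by norm_num) (by norm_num) (by norm_num)
    (ex_up 0.52 (by norm_num) (by norm_num) (by norm_num) (by norm_num)) (ex_lp 0.504 (by norm_num) (by norm_num) (by norm_num)) (by norm_num) (by norm_num) (by norm_num) (by norm_num) (by norm_num) (by norm_num)
    (by norm_num) (by norm_num) (by norm_num) (by norm_num) (by norm_num) (by norm_num) (by norm_num) (by norm_num) (by norm_num) (by norm_num) (by norm_num)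
    (by norm_num) (by norm_num) (by norm_num) (by norm_num)

private theorem yA8 {κ t : ℝ} (h : DomR κ t) (hk1 : 0.85 ≤ κ) (hk2 : κ ≤ 0.9) (ht1 : 1.271 ≤ t + κ) (ht2 : t + κ ≤ 1.299) :
    0.406 ≤ sy κ t ∧ sy κ t ≤ 0.431 := by
  have hy1 : 0.406 ≤ sy κ t := syR_ge h 0.85 0.9 1.271 0.406 1.5008 1.50081 0.67702 0.71686 hk1 hk2 (by linarith) (by norm_num) (by norm_num)
    (expn_ge (by norm_num) (by norm_num)) (expn_le (by norm_num) (by norm_num) (by norm_num)) (by norm_num)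
    (by norm_num) (by norm_num) (by norm_num) (by norm_num) (by norm_num) (by norm_num)
  have hy2 : sy κ t ≤ 0.431 := syR_le h 0.85 0.9 1.299 0.431 1.53879 0.7332 0.7369 0.78027 hk1 hk2 (by linarith) (by norm_num) (by norm_num)
    (expn_ge (by norm_num) (by norm_num)) (by norm_num) (by norm_num) (Or.inr ((mul_le_mul_of_nonneg_left (expn_le (E := 1.5388) (by norm_num) (by norm_num) (by norm_num)) (by norm_num)).trans (by norm_num))) (by norm_num) (by norm_num) (by norm_num)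
  exact ⟨hy1, hy2⟩

private theorem yB8 {κ t : ℝ} (h : DomR κ t) (hk1 : 0.85 ≤ κ) (hk2 : κ ≤ 0.9) (ht1 : -0.8234 ≤ t + κ) (ht2 : t + κ ≤ -0.79539) :
    (-0.501) ≤ sy κ t ∧ sy κ t ≤ (-0.47) := by
  have hy1 : -0.501 ≤ sy κ t := syL_ge h 0.85 0.9 0.8234 0.501 0.60592 0.60593 0.3505 0.33729 0.35715 hk1 hk2 (by linarith) (by norm_num) (by norm_num) (by norm_num)
    (expm_ge (by norm_num) (by norm_num) (by norm_num) (by norm_num)) (expm_le (by norm_num) (by norm_num) (by norm_num)) (by norm_num)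
    (by norm_num) (by norm_num) (by norm_num) (by norm_num) (by norm_num) (by norm_num)
  have hy2 : sy κ t ≤ -0.47 := syL_le h 0.85 0.9 0.79539 0.47 0.625 0.62501 0.32638 0.3456 hk1 hk2 (by linarith) (by norm_num) (by norm_num) (by norm_num)
    (expm_ge (by norm_num) (by norm_num) (by norm_num) (by norm_num)) (expm_le (by norm_num) (by norm_num) (by norm_num)) (by norm_num)
    (by norm_num) (by norm_num) (by norm_num) (by norm_num) (by norm_num) (by norm_num)
  exact ⟨hy1, hy2⟩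

theorem pc8 {β r h t κ : ℝ} (hh : h = 2 * Real.pi / (3 : ℕ)) (hβ : 0 < β) (hr : 10 ≤ r) (hκ : κ = β * r)
    (hk1 : 0.85 ≤ κ) (hk2 : κ ≤ 0.9) (hT1 : 1.271 ≤ t + κ) (hT2 : t + κ ≤ 1.299) :
    Xf β r h t 0 ≠ 0 ∧ r * 0.2805 ≤ (Ld β r h t 1 - Ld β r h t 0).im ∧
      ‖(((-1 : ℤ) : ℂ) - 1) * Ld β r h t 0 - ((-1 : ℤ) : ℂ) * Ld β r h t 1‖ ≤ r * 6.36 := by
  obtain ⟨q1, q2, q3⟩ := b3_h hh
  have hR0 := b3_R0 hβ hr hκ
  have hR := b3_R hβ hr hκ (by linarith)
  have hD1 : DomR κ t := b3_dom (by linarith) (by linarith) (Or.inl (by linarith))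
  have hD0 : DomR κ (t - h) := b3_dom (by linarith) (by linarith) (Or.inl (by linarith))
  have y1 := yA8 hD1 hk1 hk2 (by linarith) (by linarith)
  have y0 := yB8 hD0 hk1 hk2 (by linarith) (by linarith)
  have j1 := T3_18_d1_2 hD1 hβ hk1 hk2 (by linarith) (by linarith) hR0 hR
  exact b3_piece 0.85 0.9 0.406 0.431 0.418 0.65836 0.66632 0.64986 0.5997 2.1326 2.2041 0.03 0.11 0.11 4.1199 1.6919 0 0 (-0.501) (-0.47) (-0.485) 1.62417 1.65038 1.4854 1.9087 0.08 0.305 0.18 4.6494 4.9989 0 0 0.2805 6.36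
    hβ hr hκ (by norm_num) hk1 hk2 hD1 hD0 j1 (j1 _ (by rw [sub_self, norm_zero]; norm_num))
    (T3_18_d0_2 hD0 hβ hk1 hk2 (by linarith) (by linarith) hR0 hR)
    (T3_18_p0 hD0 hβ hk1 hk2 (by linarith) (by linarith) hR0 hR)
    y1.1 y1.2 y0.1 y0.2 (by norm_num)
    (ex_um 0.406 (by norm_num) (by norm_num) (by norm_num) (by norm_num)) (ex_um 0.431 (by norm_num) (by norm_num) (by norm_num) (by norm_num)) (ex_lm 0.418 (by norm_num) (by norm_num) (by norm_num) (by norm_num) (by norm_num)) (by norm_num) (by norm_num) (by norm_num) (by norm_num) (by norm_num) (by norm_num) (by norm_num) (by norm_num)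
    (by norm_num) (by norm_num) (by norm_num) (by norm_num) (by norm_num) (by norm_num) (by norm_num) (by norm_num) (by norm_num) (by norm_num)
    (ex_up 0.501 (by norm_num) (by norm_num) (by norm_num) (by norm_num)) (ex_lp 0.485 (by norm_num) (by norm_num) (by norm_num)) (by norm_num) (by norm_num) (by norm_num) (by norm_num) (by norm_num) (by norm_num)
    (by norm_num) (by norm_num) (by norm_num) (by norm_num) (by norm_num) (by norm_num) (by norm_num) (by norm_num) (by norm_num) (by norm_num) (by norm_num)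
    (by norm_num) (by norm_num) (by norm_num) (by norm_num)

private theorem yA9 {κ t : ℝ} (h : DomR κ t) (hk1 : 0.85 ≤ κ) (hk2 : κ ≤ 0.9) (ht1 : 1.299 ≤ t + κ) (ht2 : t + κ ≤ 1.327) :
    0.411 ≤ sy κ t ∧ sy κ t ≤ 0.436 := by
  have hy1 : 0.411 ≤ sy κ t := syR_ge h 0.85 0.9 1.299 0.411 1.50832 1.50833 0.68879 0.72933 hk1 hk2 (by linarith) (by norm_num) (by norm_num)
    (expn_ge (by norm_num) (by norm_num)) (expn_le (by norm_num) (by norm_num) (by norm_num)) (by norm_num)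
    (by norm_num) (by norm_num) (by norm_num) (by norm_num) (by norm_num) (by norm_num)
  have hy2 : sy κ t ≤ 0.436 := syR_ang2 h 0.85 0.9 1.327 0.846 0.6635 0.7487 0.436 0.64662 1.5465 hk1 hk2 (by linarith) (by norm_num) (by norm_num) (by norm_num)
    (cos_le_num (by norm_num)) (sin_le_num (by norm_num) (by norm_num)) (expm_le (by norm_num) (by norm_num) (by norm_num))
    (expn_ge (by norm_num) (by norm_num)) (by norm_num) (by norm_num) (by norm_num) (by norm_num) (by norm_num)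
  exact ⟨hy1, hy2⟩

private theorem yB9 {κ t : ℝ} (h : DomR κ t) (hk1 : 0.85 ≤ κ) (hk2 : κ ≤ 0.9) (ht1 : -0.7954 ≤ t + κ) (ht2 : t + κ ≤ -0.76739) :
    (-0.483) ≤ sy κ t ∧ sy κ t ≤ (-0.452) := by
  have hy1 : -0.483 ≤ sy κ t := syL_ge h 0.85 0.9 0.7954 0.483 0.61692 0.61694 0.3278 0.33108 0.35057 hk1 hk2 (by linarith) (by norm_num) (by norm_num) (by norm_num)
    (expm_ge (by norm_num) (by norm_num) (by norm_num) (by norm_num)) (expm_le (by norm_num) (by norm_num) (by norm_num)) (by norm_num)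
    (by norm_num) (by norm_num) (by norm_num) (by norm_num) (by norm_num) (by norm_num)
  have hy2 : sy κ t ≤ -0.452 := syL_le h 0.85 0.9 0.76739 0.452 0.63635 0.63636 0.31958 0.3384 hk1 hk2 (by linarith) (by norm_num) (by norm_num) (by norm_num)
    (expm_ge (by norm_num) (by norm_num) (by norm_num) (by norm_num)) (expm_le (by norm_num) (by norm_num) (by norm_num)) (by norm_num)
    (by norm_num) (by norm_num) (by norm_num) (by norm_num) (by norm_num) (by norm_num)
  exact ⟨hy1, hy2⟩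

theorem pc9 {β r h t κ : ℝ} (hh : h = 2 * Real.pi / (3 : ℕ)) (hβ : 0 < β) (hr : 10 ≤ r) (hκ : κ = β * r)
    (hk1 : 0.85 ≤ κ) (hk2 : κ ≤ 0.9) (hT1 : 1.299 ≤ t + κ) (hT2 : t + κ ≤ 1.327) :
    Xf β r h t 0 ≠ 0 ∧ r * 0.2805 ≤ (Ld β r h t 1 - Ld β r h t 0).im ∧
      ‖(((-1 : ℤ) : ℂ) - 1) * Ld β r h t 0 - ((-1 : ℤ) : ℂ) * Ld β r h t 1‖ ≤ r * 6.36 := by
  obtain ⟨q1, q2, q3⟩ := b3_h hh
  have hR0 := b3_R0 hβ hr hκ
  have hR := b3_R hβ hr hκ (by linarith)
  have hD1 : DomR κ t := b3_dom (by linarith) (by linarith) (Or.inl (by linarith))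
  have hD0 : DomR κ (t - h) := b3_dom (by linarith) (by linarith) (Or.inl (by linarith))
  have y1 := yA9 hD1 hk1 hk2 (by linarith) (by linarith)
  have y0 := yB9 hD0 hk1 hk2 (by linarith) (by linarith)
  have j1 := T3_18_d1_2 hD1 hβ hk1 hk2 (by linarith) (by linarith) hR0 hR
  exact b3_piece 0.85 0.9 0.411 0.436 0.423 0.65507 0.66299 0.64662 0.5967 2.1394 2.2107 0.03 0.11 0.11 4.1199 1.6808 0 0 (-0.483) (-0.452) (-0.468) 1.59679 1.62093 1.4589 1.8792 0.08 0.305 0.18 4.6494 4.9481 0 0 0.2805 6.36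
    hβ hr hκ (by norm_num) hk1 hk2 hD1 hD0 j1 (j1 _ (by rw [sub_self, norm_zero]; norm_num))
    (T3_18_d0_2 hD0 hβ hk1 hk2 (by linarith) (by linarith) hR0 hR)
    (T3_18_p0 hD0 hβ hk1 hk2 (by linarith) (by linarith) hR0 hR)
    y1.1 y1.2 y0.1 y0.2 (by norm_num)
    (ex_um 0.411 (by norm_num) (by norm_num) (by norm_num) (by norm_num)) (ex_um 0.436 (by norm_num) (by norm_num) (by norm_num) (by norm_num)) (ex_lm 0.423 (by norm_num) (by norm_num) (by norm_num) (by norm_num) (by norm_num)) (by norm_num) (by norm_num) (by norm_num) (by norm_num) (by norm_num) (by norm_num) (by norm_num) (by norm_num)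
    (by norm_num) (by norm_num) (by norm_num) (by norm_num) (by norm_num) (by norm_num) (by norm_num) (by norm_num) (by norm_num) (by norm_num)
    (ex_up 0.483 (by norm_num) (by norm_num) (by norm_num) (by norm_num)) (ex_lp 0.468 (by norm_num) (by norm_num) (by norm_num)) (by norm_num) (by norm_num) (by norm_num) (by norm_num) (by norm_num) (by norm_num)
    (by norm_num) (by norm_num) (by norm_num) (by norm_num) (by norm_num) (by norm_num) (by norm_num) (by norm_num) (by norm_num) (by norm_num) (by norm_num)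
    (by norm_num) (by norm_num) (by norm_num) (by norm_num)

private theorem yA10 {κ t : ℝ} (h : DomR κ t) (hk1 : 0.85 ≤ κ) (hk2 : κ ≤ 0.9) (ht1 : 1.327 ≤ t + κ) (ht2 : t + κ ≤ 1.354) :
    0.416 ≤ sy κ t ∧ sy κ t ≤ 0.441 := by
  have hy1 : 0.416 ≤ sy κ t := syR_ge h 0.85 0.9 1.327 0.416 1.51588 1.51589 0.70067 0.7419 hk1 hk2 (by linarith) (by norm_num) (by norm_num)
    (expn_ge (by norm_num) (by norm_num)) (expn_le (by norm_num) (by norm_num) (by norm_num)) (by norm_num)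
    (by norm_num) (by norm_num) (by norm_num) (by norm_num) (by norm_num) (by norm_num)
  have hy2 : sy κ t ≤ 0.441 := syR_ang2 h 0.85 0.9 1.354 0.865 0.6493 0.7612 0.441 0.6434 1.55426 hk1 hk2 (by linarith) (by norm_num) (by norm_num) (by norm_num)
    (cos_le_num (by norm_num)) (sin_le_num (by norm_num) (by norm_num)) (expm_le (by norm_num) (by norm_num) (by norm_num))
    (expn_ge (by norm_num) (by norm_num)) (by norm_num) (by norm_num) (by norm_num) (by norm_num) (by norm_num)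
  exact ⟨hy1, hy2⟩

private theorem yB10 {κ t : ℝ} (h : DomR κ t) (hk1 : 0.85 ≤ κ) (hk2 : κ ≤ 0.9) (ht1 : -0.7674 ≤ t + κ) (ht2 : t + κ ≤ -0.74039) :
    (-0.464) ≤ sy κ t ∧ sy κ t ≤ (-0.435) := by
  have hy1 : -0.464 ≤ sy κ t := syL_ge h 0.85 0.9 0.7674 0.464 0.62876 0.62877 0.3225 0.32416 0.34324 hk1 hk2 (by linarith) (by norm_num) (by norm_num) (by norm_num)
    (expm_ge (by norm_num) (by norm_num) (by norm_num) (by norm_num)) (expm_le (by norm_num) (by norm_num) (by norm_num)) (by norm_num)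
    (by norm_num) (by norm_num) (by norm_num) (by norm_num) (by norm_num) (by norm_num)
  have hy2 : sy κ t ≤ -0.435 := syL_le h 0.85 0.9 0.74039 0.435 0.64726 0.64727 0.31284 0.33125 hk1 hk2 (by linarith) (by norm_num) (by norm_num) (by norm_num)
    (expm_ge (by norm_num) (by norm_num) (by norm_num) (by norm_num)) (expm_le (by norm_num) (by norm_num) (by norm_num)) (by norm_num)
    (by norm_num) (by norm_num) (by norm_num) (by norm_num) (by norm_num) (by norm_num)
  exact ⟨hy1, hy2⟩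

theorem pc10 {β r h t κ : ℝ} (hh : h = 2 * Real.pi / (3 : ℕ)) (hβ : 0 < β) (hr : 10 ≤ r) (hκ : κ = β * r)
    (hk1 : 0.85 ≤ κ) (hk2 : κ ≤ 0.9) (hT1 : 1.327 ≤ t + κ) (hT2 : t + κ ≤ 1.354) :
    Xf β r h t 0 ≠ 0 ∧ r * 0.2805 ≤ (Ld β r h t 1 - Ld β r h t 0).im ∧
      ‖(((-1 : ℤ) : ℂ) - 1) * Ld β r h t 0 - ((-1 : ℤ) : ℂ) * Ld β r h t 1‖ ≤ r * 6.36 := by
  obtain ⟨q1, q2, q3⟩ := b3_h hh
  have hR0 := b3_R0 hβ hr hκ
  have hR := b3_R hβ hr hκ (by linarith)
  have hD1 : DomR κ t := b3_dom (by linarith) (by linarith) (Or.inl (by linarith))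
  have hD0 : DomR κ (t - h) := b3_dom (by linarith) (by linarith) (Or.inl (by linarith))
  have y1 := yA10 hD1 hk1 hk2 (by linarith) (by linarith)
  have y0 := yB10 hD0 hk1 hk2 (by linarith) (by linarith)
  have j1 := T3_18_d1_2 hD1 hβ hk1 hk2 (by linarith) (by linarith) hR0 hR
  exact b3_piece 0.85 0.9 0.416 0.441 0.428 0.65181 0.65969 0.6434 0.5938 2.1463 2.2174 0.03 0.11 0.11 4.1199 1.6699 0 0 (-0.464) (-0.435) (-0.45) 1.56831 1.59043 1.4314 1.8537 0.08 0.305 0.18 4.6494 4.8881 0 0 0.2805 6.36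
    hβ hr hκ (by norm_num) hk1 hk2 hD1 hD0 j1 (j1 _ (by rw [sub_self, norm_zero]; norm_num))
    (T3_18_d0_2 hD0 hβ hk1 hk2 (by linarith) (by linarith) hR0 hR)
    (T3_18_p0 hD0 hβ hk1 hk2 (by linarith) (by linarith) hR0 hR)
    y1.1 y1.2 y0.1 y0.2 (by norm_num)
    (ex_um 0.416 (by norm_num) (by norm_num) (by norm_num) (by norm_num)) (ex_um 0.441 (by norm_num) (by norm_num) (by norm_num) (by norm_num)) (ex_lm 0.428 (by norm_num) (by norm_num) (by norm_num) (by norm_num) (by norm_num)) (by norm_num) (by norm_num) (by norm_num) (by norm_num) (by norm_num) (by norm_num) (by norm_num) (by norm_num)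
    (by norm_num) (by norm_num) (by norm_num) (by norm_num) (by norm_num) (by norm_num) (by norm_num) (by norm_num) (by norm_num) (by norm_num)
    (ex_up 0.464 (by norm_num) (by norm_num) (by norm_num) (by norm_num)) (ex_lp 0.45 (by norm_num) (by norm_num) (by norm_num)) (by norm_num) (by norm_num) (by norm_num) (by norm_num) (by norm_num) (by norm_num)
    (by norm_num) (by norm_num) (by norm_num) (by norm_num) (by norm_num) (by norm_num) (by norm_num) (by norm_num) (by norm_num) (by norm_num) (by norm_num)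
    (by norm_num) (by norm_num) (by norm_num) (by norm_num)

private theorem yA11 {κ t : ℝ} (h : DomR κ t) (hk1 : 0.85 ≤ κ) (hk2 : κ ≤ 0.9) (ht1 : 1.354 ≤ t + κ) (ht2 : t + κ ≤ 1.382) :
    0.42 ≤ sy κ t ∧ sy κ t ≤ 0.445 := by
  have hy1 : 0.42 ≤ sy κ t := syR_ge h 0.85 0.9 1.354 0.42 1.52196 1.52197 0.71024 0.75204 hk1 hk2 (by linarith) (by norm_num) (by norm_num)
    (expn_ge (by norm_num) (by norm_num)) (expn_le (by norm_num) (by norm_num) (by norm_num)) (by norm_num)
    (by norm_num) (by norm_num) (by norm_num) (by norm_num) (by norm_num) (by norm_num)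
  have hy2 : sy κ t ≤ 0.445 := syR_ang2 h 0.85 0.9 1.382 0.881 0.6371 0.7715 0.445 0.64083 1.56048 hk1 hk2 (by linarith) (by norm_num) (by norm_num) (by norm_num)
    (cos_le_num (by norm_num)) (sin_le_num (by norm_num) (by norm_num)) (expm_le (by norm_num) (by norm_num) (by norm_num))
    (expn_ge (by norm_num) (by norm_num)) (by norm_num) (by norm_num) (by norm_num) (by norm_num) (by norm_num)
  exact ⟨hy1, hy2⟩

private theorem yB11 {κ t : ℝ} (h : DomR κ t) (hk1 : 0.85 ≤ κ) (hk2 : κ ≤ 0.9) (ht1 : -0.7404 ≤ t + κ) (ht2 : t + κ ≤ -0.71239) :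
    (-0.446) ≤ sy κ t ∧ sy κ t ≤ (-0.417) := by
  have hy1 : -0.446 ≤ sy κ t := syL_ge h 0.85 0.9 0.7404 0.446 0.64018 0.64019 0.3141 0.31724 0.33592 hk1 hk2 (by linarith) (by norm_num) (by norm_num) (by norm_num)
    (expm_ge (by norm_num) (by norm_num) (by norm_num) (by norm_num)) (expm_le (by norm_num) (by norm_num) (by norm_num)) (by norm_num)
    (by norm_num) (by norm_num) (by norm_num) (by norm_num) (by norm_num) (by norm_num)
  have hy2 : sy κ t ≤ -0.417 := syL_le h 0.85 0.9 0.71239 0.417 0.65902 0.65903 0.30534 0.32332 hk1 hk2 (by linarith) (by norm_num) (by norm_num) (by norm_num)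
    (expm_ge (by norm_num) (by norm_num) (by norm_num) (by norm_num)) (expm_le (by norm_num) (by norm_num) (by norm_num)) (by norm_num)
    (by norm_num) (by norm_num) (by norm_num) (by norm_num) (by norm_num) (by norm_num)
  exact ⟨hy1, hy2⟩

theorem pc11 {β r h t κ : ℝ} (hh : h = 2 * Real.pi / (3 : ℕ)) (hβ : 0 < β) (hr : 10 ≤ r) (hκ : κ = β * r)
    (hk1 : 0.85 ≤ κ) (hk2 : κ ≤ 0.9) (hT1 : 1.354 ≤ t + κ) (hT2 : t + κ ≤ 1.382) :
    Xf β r h t 0 ≠ 0 ∧ r * 0.2805 ≤ (Ld β r h t 1 - Ld β r h t 0).im ∧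
      ‖(((-1 : ℤ) : ℂ) - 1) * Ld β r h t 0 - ((-1 : ℤ) : ℂ) * Ld β r h t 1‖ ≤ r * 6.36 := by
  obtain ⟨q1, q2, q3⟩ := b3_h hh
  have hR0 := b3_R0 hβ hr hκ
  have hR := b3_R hβ hr hκ (by linarith)
  have hD1 : DomR κ t := b3_dom (by linarith) (by linarith) (Or.inl (by linarith))
  have hD0 : DomR κ (t - h) := b3_dom (by linarith) (by linarith) (Or.inl (by linarith))
  have y1 := yA11 hD1 hk1 hk2 (by linarith) (by linarith)
  have y0 := yB11 hD0 hk1 hk2 (by linarith) (by linarith)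
  have j1 := T3_18_d1_2 hD1 hβ hk1 hk2 (by linarith) (by linarith) hR0 hR
  exact b3_piece 0.85 0.9 0.42 0.445 0.432 0.6492 0.65705 0.64083 0.5914 2.1518 2.2227 0.03 0.11 0.11 4.1199 1.661 0 0 (-0.446) (-0.417) (-0.431) 1.53879 1.56206 1.4059 1.8288 0.08 0.305 0.18 4.6494 4.8336 0 0 0.2805 6.36
    hβ hr hκ (by norm_num) hk1 hk2 hD1 hD0 j1 (j1 _ (by rw [sub_self, norm_zero]; norm_num))
    (T3_18_d0_2 hD0 hβ hk1 hk2 (by linarith) (by linarith) hR0 hR)
    (T3_18_p0 hD0 hβ hk1 hk2 (by linarith) (by linarith) hR0 hR)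
    y1.1 y1.2 y0.1 y0.2 (by norm_num)
    (ex_um 0.42 (by norm_num) (by norm_num) (by norm_num) (by norm_num)) (ex_um 0.445 (by norm_num) (by norm_num) (by norm_num) (by norm_num)) (ex_lm 0.432 (by norm_num) (by norm_num) (by norm_num) (by norm_num) (by norm_num)) (by norm_num) (by norm_num) (by norm_num) (by norm_num) (by norm_num) (by norm_num) (by norm_num) (by norm_num)
    (by norm_num) (by norm_num) (by norm_num) (by norm_num) (by norm_num) (by norm_num) (by norm_num) (by norm_num) (by norm_num) (by norm_num)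
    (ex_up 0.446 (by norm_num) (by norm_num) (by norm_num) (by norm_num)) (ex_lp 0.431 (by norm_num) (by norm_num) (by norm_num)) (by norm_num) (by norm_num) (by norm_num) (by norm_num) (by norm_num) (by norm_num)
    (by norm_num) (by norm_num) (by norm_num) (by norm_num) (by norm_num) (by norm_num) (by norm_num) (by norm_num) (by norm_num) (by norm_num) (by norm_num)
    (by norm_num) (by norm_num) (by norm_num) (by norm_num)

theorem innS {β r h t κ : ℝ} (hh : h = 2 * Real.pi / (3 : ℕ)) (hβ : 0 < β) (hr : 10 ≤ r) (hκ : κ = β * r)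
    (hk1 : 0.85 ≤ κ) (hk2 : κ ≤ 0.9) (hT1 : 1.06 ≤ t + κ) (hT2 : t + κ ≤ 1.382) :
    Xf β r h t 0 ≠ 0 ∧ r * 0.2805 ≤ (Ld β r h t 1 - Ld β r h t 0).im ∧
      ‖(((-1 : ℤ) : ℂ) - 1) * Ld β r h t 0 - ((-1 : ℤ) : ℂ) * Ld β r h t 1‖ ≤ r * 6.36 := by
  rcases le_total (t + κ) 1.09 with f0 | g0
  · exact pc0 hh hβ hr hκ hk1 hk2 hT1 f0
  rcases le_total (t + κ) 1.113 with f1 | g1
  · exact pc1 hh hβ hr hκ hk1 hk2 g0 f1
  rcases le_total (t + κ) 1.137 with f2 | g2
  · exact pc2 hh hβ hr hκ hk1 hk2 g1 f2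
  rcases le_total (t + κ) 1.16 with f3 | g3
  · exact pc3 hh hβ hr hκ hk1 hk2 g2 f3
  rcases le_total (t + κ) 1.188 with f4 | g4
  · exact pc4 hh hβ hr hκ hk1 hk2 g3 f4
  rcases le_total (t + κ) 1.216 with f5 | g5
  · exact pc5 hh hβ hr hκ hk1 hk2 g4 f5
  rcases le_total (t + κ) 1.243 with f6 | g6
  · exact pc6 hh hβ hr hκ hk1 hk2 g5 f6
  rcases le_total (t + κ) 1.271 with f7 | g7
  · exact pc7 hh hβ hr hκ hk1 hk2 g6 f7
  rcases le_total (t + κ) 1.299 with f8 | g8
  · exact pc8 hh hβ hr hκ hk1 hk2 g7 f8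
  rcases le_total (t + κ) 1.327 with f9 | g9
  · exact pc9 hh hβ hr hκ hk1 hk2 g8 f9
  rcases le_total (t + κ) 1.354 with f10 | g10
  · exact pc10 hh hβ hr hκ hk1 hk2 g9 f10
  exact pc11 hh hβ hr hκ hk1 hk2 g10 hT2

theorem circ {p : ℤ} (hp : IsCoprime (3 : ℤ) p) {β r : ℝ} (hβ : 0 < β) (hr : 10 ≤ r) (hk1 : 0.85 ≤ β * r)
    (hk2 : β * r ≤ 0.9) : Circ (2 * Real.pi * p / (3 : ℕ) + β) r := by
  obtain ⟨κ, hκ⟩ : ∃ κ, κ = β * r := ⟨_, rfl⟩
  rw [← hκ] at hk1 hk2
  refine circ3 hp hr (h := 2 * Real.pi / (3 : ℕ)) (κ := κ) rfl 1.06 1.382 1.0077 0.2805 0.00267 0.00268 6.36 (by norm_num) (by norm_num) (by norm_num)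
    (by norm_num) (by norm_num) ?_ ?_ ?_ ?_ ?_ (by norm_num) (by norm_num)
  · intro t h1 h2
    exact (innS rfl hβ hr hκ hk1 hk2 h1 h2).1
  · intro t h1 h2
    exact (innE rfl hβ hr hκ hk1 hk2 h1 h2).1
  · intro t h1 h2
    exact (innE rfl hβ hr hκ hk1 hk2 h1 h2).2
  · intro t h1 h2
    exact (innS rfl hβ hr hκ hk1 hk2 h1 h2).2
  · intro t h1 h2 h3
    rcases h3 with h3 | h3
    · exact left rfl hβ hr hκ hk1 hk2 h1 h3
    · exact right0 rfl hβ hr hκ hk1 hk2 h3 h2

end B3_18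

end Sok
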